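import Mathlib.Algebra.Order.Floor.Semifield
import Mathlib.Algebra.Ring.IsFormallyReal
import Mathlib.RingTheory.PowerSeries.Inverse
import Mathlib.Data.Rat.Star
import Mathlib.Geometry.Euclidean.Angle.Unoriented.TriangleInequality
import Mathlib.Analysis.Convex.Contractible
import Mathlib.Analysis.Calculus.Deriv.Star
import Mathlib.MeasureTheory.Integral.Gamma
import Mathlib.Analysis.Complex.LocallyUniformLimit
import Mathlib.Topology.Separation.CompletelyRegular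
import Mathlib.RingTheory.Flat.TorsionFree
import Mathlib.MeasureTheory.Order.Group.Lattice
import Mathlib.Data.Int.Star
import Mathlib.LinearAlgebra.Lagrange
import Mathlib.Analysis.Complex.Angle
import Mathlib.Analysis.Complex.BorelCaratheodory
import Mathlib.Analysis.Complex.CoveringMap
import Mathlib.Topology.Homotopy.Lifting
import Mathlib.Analysis.Complex.ExponentialBounds
import Mathlib.Analysis.Complex.HasPrimitives
import Mathlib.NumberTheory.DiophantineApproximation.Basic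
import Mathlib.Analysis.Complex.OpenMapping
import Mathlib.Analysis.SpecialFunctions.Trigonometric.DerivHyp
import Mathlib.RingTheory.SimpleRing.Principal
import Mathlib.Order.CompletePartialOrder
import Mathlib.Analysis.SpecialFunctions.Complex.LogBounds
import Mathlib.Analysis.SpecialFunctions.Gamma.BohrMollerup
import Mathlib.Analysis.SpecialFunctions.Trigonometric.Series
import Mathlib.Topology.MetricSpace.Sequences
import Mathlib.Analysis.Normed.Group.Tannery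
import Mathlib.Analysis.ODE.Gronwall
import Mathlib.Analysis.Real.Pi.Bounds
import Mathlib.Analysis.SpecialFunctions.Gaussian.PoissonSummation
import Mathlib.Analysis.SpecialFunctions.Trigonometric.InverseDeriv
import Mathlib.RingTheory.TotallySplit
import Mathlib.RingTheory.Etale.Weakly
import Mathlib.Tactic

/-! ### Lib_MP_af4de1_f1.Lat -/

section
/-!
# The shortest vector of the lattice `{(n, r (n α - 2 π b))}`

`del = α - 2 π b / n` for the shortest vector `(n, b)`; its length is `≤ (2/√3) 2 π r`.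
-/

set_option autoImplicit false

namespace SokamF1

open Real

/-- the quadratic form -/
noncomputable def Qf (α r : ℝ) (n b : ℤ) : ℝ := (n : ℝ) ^ (2 : ℕ) + (r * (n * α - 2 * π * b)) ^ (2 : ℕ)

theorem Qf_nonneg (α r : ℝ) (n b : ℤ) : 0 ≤ Qf α r n b := by unfold Qf; positivity

theorem Qf_pos {α r : ℝ} (hr : 0 < r) {n b : ℤ} (h : ¬ (n = 0 ∧ b = 0)) : 0 < Qf α r n b := by
  unfold Qf
  by_cases hn : n = 0
  · subst hn
    have hb : b ≠ 0 := fun hb => h ⟨rfl, hb⟩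
    have hb' : (b : ℝ) ≠ 0 := by exact_mod_cast hb
    have : (r * (((0 : ℤ) : ℝ) * α - 2 * π * b)) ≠ 0 := by
      have hpi := Real.pi_pos
      simp only [Int.cast_zero, zero_mul, zero_sub]
      have : 2 * π * (b : ℝ) ≠ 0 := by positivity
      exact mul_ne_zero hr.ne' (neg_ne_zero.mpr this)
    positivity
  · have hn' : (n : ℝ) ≠ 0 := by exact_mod_cast hn
    positivity

/-- there are finitely many vectors below a bound -/
theorem finite_Qf (α r : ℝ) (hr : 0 < r) (C : ℝ) : {v : ℤ × ℤ | Qf α r v.1 v.2 ≤ C}.Finite := by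
  -- the box
  set K : ℝ := |C| + 1 with hK
  have hK1 : 1 ≤ K := by have := abs_nonneg C; linarith only [this]
  set A : ℤ := ⌈K⌉ with hA
  set B : ℤ := ⌈K / r + K * |α|⌉ with hB
  refine Set.Finite.subset ((Set.finite_Icc (-A) A).prod (Set.finite_Icc (-B) B)) ?_
  rintro ⟨n, b⟩ h
  simp only [Set.mem_ofPred_eq] at h
  unfold Qf at h
  have hCK : C ≤ K := by have := le_abs_self C; linarith only [this]
  have h1 : (n : ℝ) ^ (2 : ℕ) ≤ K ^ (2 : ℕ) := by nlinarith only [hK1, h, hCK]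
  have h2 : (r * (n * α - 2 * π * b)) ^ (2 : ℕ) ≤ K ^ (2 : ℕ) := by nlinarith only [hK1, h, hCK]
  have h3 : |(n : ℝ)| ≤ K := abs_le_of_sq_le_sq h1 (by linarith only [hK1])
  have h4 : |r * (n * α - 2 * π * b)| ≤ K := abs_le_of_sq_le_sq h2 (by linarith only [hK1])
  have h5 : |(n : ℝ) * α - 2 * π * b| ≤ K / r := by
    rw [abs_mul, abs_of_pos hr] at h4
    rw [le_div_iff₀ hr]
    linarith only [h4]
  have h6 : |2 * π * (b : ℝ)| ≤ K / r + K * |α| := by
    have : 2 * π * (b : ℝ) = n * α - (n * α - 2 * π * b) := by ring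
    rw [this]
    calc |(n : ℝ) * α - (n * α - 2 * π * b)| ≤ |(n : ℝ) * α| + |n * α - 2 * π * b| := abs_sub _ _
      _ ≤ K * |α| + K / r := by
          refine add_le_add ?_ h5
          rw [abs_mul]
          exact mul_le_mul_of_nonneg_right h3 (abs_nonneg _)
      _ = K / r + K * |α| := by ring
  have h7 : |(b : ℝ)| ≤ K / r + K * |α| := by
    refine le_trans ?_ h6
    rw [abs_mul, abs_of_pos (by have := Real.pi_pos; positivity : (0 : ℝ) < 2 * π)]
    have := Real.pi_gt_three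
    nlinarith only [this, abs_nonneg (b : ℝ)]
  have h8 : |n| ≤ A := by
    have : (|n| : ℝ) ≤ K := by exact_mod_cast h3
    have h9 := Int.le_ceil K
    have : ((|n| : ℤ) : ℝ) ≤ (A : ℝ) := by push_cast; linarith only [this, h9]
    exact_mod_cast this
  have h10 : |b| ≤ B := by
    have h9 := Int.le_ceil (K / r + K * |α|)
    have : ((|b| : ℤ) : ℝ) ≤ (B : ℝ) := by push_cast; linarith only [h7, h9]
    exact_mod_cast this
  simp only [Set.mem_prod, Set.mem_Icc]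
  exact ⟨abs_le.mp h8, abs_le.mp h10⟩

/-- the shortest vector: primitive, of length `≤ (2/√3) 2 π r` -/
theorem exists_min (α r : ℝ) (hr : 0 < r) :
    ∃ n b : ℤ, IsCoprime n b ∧ (∀ n' b' : ℤ, ¬ (n' = 0 ∧ b' = 0) → Qf α r n b ≤ Qf α r n' b') ∧
      Qf α r n b ^ (2 : ℕ) ≤ 4 / 3 * (2 * π * r) ^ (2 : ℕ) := by
  set S : Set (ℤ × ℤ) := {v | Qf α r v.1 v.2 ≤ Qf α r 1 0 ∧ ¬ (v.1 = 0 ∧ v.2 = 0)} with hS
  have hfin : S.Finite := (finite_Qf α r hr (Qf α r 1 0)).subset fun v hv => hv.1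
  have hne : S.Nonempty := ⟨(1, 0), le_refl _, by simp⟩
  obtain ⟨⟨n, b⟩, hnb, hmin⟩ := Set.exists_min_image S (fun v => Qf α r v.1 v.2) hfin hne
  have hmin' : ∀ n' b' : ℤ, ¬ (n' = 0 ∧ b' = 0) → Qf α r n b ≤ Qf α r n' b' := by
    intro n' b' h
    by_cases hc : Qf α r n' b' ≤ Qf α r 1 0
    · exact hmin (n', b') ⟨hc, h⟩
    · exact hnb.1.trans (not_le.mp hc).le
  have hpos : 0 < Qf α r n b := Qf_pos hr hnb.2
  have hcop : IsCoprime n b := by
    rw [Int.isCoprime_iff_gcd_eq_one]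
    by_contra hg
    set d : ℕ := Int.gcd n b with hd
    have hd0 : d ≠ 0 := by
      intro h0
      rw [hd, Int.gcd_eq_zero_iff] at h0
      exact hnb.2 h0
    have hd2 : 2 ≤ d := by omega
    obtain ⟨n', hn'⟩ := (Int.gcd_dvd_left n b : (d : ℤ) ∣ n)
    obtain ⟨b', hb'⟩ := (Int.gcd_dvd_right n b : (d : ℤ) ∣ b)
    have h1 : ¬ (n' = 0 ∧ b' = 0) := by
      rintro ⟨h1, h2⟩
      apply hnb.2
      constructor
      · rw [hn', h1]; simp
      · rw [hb', h2]; simp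
    have h2 := hmin' n' b' h1
    have h3 : Qf α r n b = (d : ℝ) ^ (2 : ℕ) * Qf α r n' b' := by
      unfold Qf
      have e1 : (n : ℝ) = (d : ℝ) * n' := by exact_mod_cast hn'
      have e2 : (b : ℝ) = (d : ℝ) * b' := by exact_mod_cast hb'
      rw [e1, e2]; ring
    have h4 : 0 < Qf α r n' b' := Qf_pos hr h1
    have h5 : (2 : ℝ) ≤ d := by exact_mod_cast hd2
    have h6 : (4 : ℝ) ≤ (d : ℝ) ^ (2 : ℕ) := by nlinarith only [h5]
    have h7 := mul_le_mul_of_nonneg_right h6 h4.le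
    linarith only [h2, h3, h4, h7]
  refine ⟨n, b, hcop, hmin', ?_⟩
  obtain ⟨u, v, huv⟩ := hcop
  -- second vector (n', b') = (-v, u) + k (n, b): n b' - n' b = 1
  set x : ℝ := r * (n * α - 2 * π * b) with hx
  set ip : ℝ := (n : ℝ) * (-v) + x * (r * (-v * α - 2 * π * u)) with hip
  set k : ℤ := round (ip / Qf α r n b) with hk
  set n' : ℤ := -v - k * n with hn'
  set b' : ℤ := u - k * b with hb'
  have hdet : (n : ℝ) * b' - n' * b = 1 := by
    have : n * b' - n' * b = 1 := by rw [hn', hb']; linear_combination huv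
    exact_mod_cast this
  have hn0 : ¬ (n' = 0 ∧ b' = 0) := by
    rintro ⟨h1, h2⟩
    rw [h1, h2] at hdet
    simp at hdet
  have h1 := hmin' n' b' hn0
  set y : ℝ := r * (n' * α - 2 * π * b') with hy
  have hQ1 : Qf α r n b = (n : ℝ) ^ (2 : ℕ) + x ^ (2 : ℕ) := by rw [hx]; rfl
  have hQ2 : Qf α r n' b' = (n' : ℝ) ^ (2 : ℕ) + y ^ (2 : ℕ) := by rw [hy]; rfl
  have hin : (n : ℝ) * n' + x * y = ip - k * Qf α r n b := by
    rw [hQ1, hip, hy, hn', hb']
    have : r * (n * α - 2 * π * b) = x := rfl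
    push_cast
    rw [hx]
    ring
  have hround : |ip / Qf α r n b - k| ≤ 1 / 2 := abs_sub_round _
  have hin2 : |(n : ℝ) * n' + x * y| ≤ Qf α r n b / 2 := by
    rw [hin]
    have : ip - k * Qf α r n b = (ip / Qf α r n b - k) * Qf α r n b := by
      field_simp
    rw [this, abs_mul, abs_of_pos hpos]
    calc |ip / Qf α r n b - k| * Qf α r n b ≤ 1 / 2 * Qf α r n b :=
          mul_le_mul_of_nonneg_right hround hpos.le
      _ = Qf α r n b / 2 := by ring
  have hdet2 : (n : ℝ) * y - n' * x = -(2 * π * r) := by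
    have : (n : ℝ) * y - n' * x = -(2 * π * r) * (n * b' - n' * b) := by
      rw [hy, hx]; ring
    rw [this, hdet, mul_one]
  have hprod : Qf α r n b * Qf α r n' b' = ((n : ℝ) * n' + x * y) ^ (2 : ℕ) + (2 * π * r) ^ (2 : ℕ) := by
    rw [hQ1, hQ2]
    have : (2 * π * r) ^ (2 : ℕ) = ((n : ℝ) * y - n' * x) ^ (2 : ℕ) := by rw [hdet2]; ring
    rw [this]; ring
  have hsq : ((n : ℝ) * n' + x * y) ^ (2 : ℕ) ≤ (Qf α r n b / 2) ^ (2 : ℕ) := by
    rw [← sq_abs]
    exact pow_le_pow_left₀ (abs_nonneg _) hin2 2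
  have h2 : Qf α r n b ^ (2 : ℕ) ≤ Qf α r n b * Qf α r n' b' := by
    rw [sq]
    exact mul_le_mul_of_nonneg_left h1 hpos.le
  linarith only [hprod, hsq, h2]

/-- (L1) the shortest vector, `N ≥ 1`. -/
theorem lat1 {al r : ℝ} (h0 : 0 < al) (h1 : al ≤ π) (hr : 40 ≤ r) :
    ∃ (N : ℕ) (a : ℤ), 0 < N ∧ IsCoprime a (N : ℤ) ∧ (N = 1 → a = 0) ∧ (a = 0 → N = 1) ∧ 0 ≤ a ∧
      (N : ℝ) ^ (2 : ℕ) * (1 + (r * (al - 2 * π * a / N)) ^ (2 : ℕ)) ≤ 7.2551976 * r ∧
      ∀ n b : ℤ, ¬ (n = 0 ∧ b = 0) →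
        (N : ℝ) ^ (2 : ℕ) * (1 + (r * (al - 2 * π * a / N)) ^ (2 : ℕ)) ≤ Qf al r n b := by
  have hrp : 0 < r := by linarith only [hr]
  obtain ⟨n, b, hc, hmin, hQ⟩ := exists_min al r hrp
  have hpi := Real.pi_gt_three
  have hpi2 := Real.pi_lt_d20
  have hQ2 : Qf al r n b ≤ 7.2551976 * r := by
    have h2 : Qf al r n b ^ (2 : ℕ) ≤ (7.2551976 * r) ^ (2 : ℕ) := by
      refine hQ.trans ?_
      have h3 : π ^ (2 : ℕ) ≤ 3.1415926536 ^ (2 : ℕ) := pow_le_pow_left₀ Real.pi_pos.le (by linarith only [hpi2]) 2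
      have h4 : 0 ≤ r ^ (2 : ℕ) := by positivity
      nlinarith only [h3]
    exact abs_le_of_sq_le_sq h2 (by positivity) |>.trans' (le_abs_self _)
  have hn0 : n ≠ 0 := by
    intro h
    have hb : b ≠ 0 := by
      rintro rfl
      rw [h] at hc
      have := hc.isUnit_of_dvd' (dvd_refl 0) (dvd_refl 0)
      simp at this
    have hb1 : (1 : ℝ) ≤ (b : ℝ) ^ (2 : ℕ) := by
      have : 1 ≤ b ^ (2 : ℕ) := by
        have := Int.one_le_abs hb
        rw [← sq_abs]; nlinarith only [this]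
      exact_mod_cast this
    rw [h] at hQ2
    unfold Qf at hQ2
    have h2 : (r * (((0 : ℤ) : ℝ) * al - 2 * π * b)) ^ (2 : ℕ) = (2 * π * r) ^ (2 : ℕ) * (b : ℝ) ^ (2 : ℕ) := by
      push_cast; ring
    rw [h2] at hQ2
    have h3 : (2 * π * r) ^ (2 : ℕ) ≤ (2 * π * r) ^ (2 : ℕ) * (b : ℝ) ^ (2 : ℕ) :=
      le_mul_of_one_le_right (by positivity) hb1
    have h4 : (6 * r) ^ (2 : ℕ) ≤ (2 * π * r) ^ (2 : ℕ) := by
      refine pow_le_pow_left₀ (by positivity) ?_ 2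
      nlinarith only [hrp, hpi]
    have h5 : (((0 : ℤ) : ℝ)) ^ (2 : ℕ) = 0 := by simp
    nlinarith only [hr, hQ2, h3, h4]
  obtain ⟨m, c, hm, hcc, hQm⟩ : ∃ m c : ℤ, 0 < m ∧ IsCoprime m c ∧ Qf al r m c = Qf al r n b := by
    rcases lt_or_gt_of_ne hn0 with h | h
    · refine ⟨-n, -b, by omega, hc.neg_neg, ?_⟩
      unfold Qf
      push_cast
      ring
    · exact ⟨n, b, h, hc, rfl⟩
  have hmR : (0 : ℝ) < m := by exact_mod_cast hm
  obtain ⟨N, hN⟩ : ∃ N : ℕ, (N : ℤ) = m := ⟨m.toNat, Int.toNat_of_nonneg hm.le⟩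
  have hNm : (N : ℝ) = m := by exact_mod_cast hN
  have hNpos : 0 < N := by omega
  have hQN : (N : ℝ) ^ (2 : ℕ) * (1 + (r * (al - 2 * π * c / N)) ^ (2 : ℕ)) = Qf al r m c := by
    rw [hNm]
    unfold Qf
    field_simp
  have hle : Qf al r m c ≤ 7.2551976 * r := hQm.le.trans hQ2
  have hle2 : (r * (m * al - 2 * π * c)) ^ (2 : ℕ) ≤ 7.2551976 * r := by
    unfold Qf at hle
    nlinarith only [hle]
  have hle3 : r * (m * al - 2 * π * c) ^ (2 : ℕ) ≤ 7.2551976 := by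
    have : r * (r * (m * al - 2 * π * c) ^ (2 : ℕ)) ≤ r * 7.2551976 := by linarith only [hle2]
    exact le_of_mul_le_mul_left this hrp
  refine ⟨N, c, hNpos, ?_, ?_, ?_, ?_, ?_, ?_⟩
  · rw [hN]; exact hcc.symm
  · intro h
    have hm1 : (m : ℝ) = 1 := by rw [← hNm, h]; simp
    rw [hm1] at hle3
    by_contra hc0
    rcases lt_or_gt_of_ne hc0 with h2 | h2
    · have h3 : (c : ℝ) ≤ -1 := by exact_mod_cast (by omega : c ≤ -1)
      have h4 : 6 ≤ 1 * al - 2 * π * c := by nlinarith only [h0, hpi, h3]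
      nlinarith only [hr, hle3, h4]
    · have h3 : (1 : ℝ) ≤ c := by exact_mod_cast (by omega : 1 ≤ c)
      have h4 : 1 * al - 2 * π * c ≤ -3 := by nlinarith only [h1, hpi, h3]
      nlinarith only [hr, hle3, h4]
  · intro h
    rw [h] at hcc
    have h2 : IsUnit m := isCoprime_zero_right.mp hcc
    have h3 := Int.isUnit_iff.mp h2
    omega
  · by_contra hc0
    have h3 : (c : ℝ) ≤ -1 := by exact_mod_cast (by omega : c ≤ -1)
    have h4 : 6 ≤ m * al - 2 * π * c := by nlinarith only [hpi, h3, mul_pos hmR h0]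
    nlinarith only [hr, hle3, h4]
  · rw [hQN]; exact hle
  · intro n' b' h
    rw [hQN, hQm]
    exact hmin n' b' h

/-- (L1) the second vector `(N', 1)` when `(1, 0)` is the shortest one and `ρ² ≥ 4 r`, `ρ = al r`. -/
theorem lat2 {al r : ℝ} (h0 : 0 < al) (hr : 40 ≤ r) (h1 : 4 * r ≤ (al * r) ^ (2 : ℕ))
    (h2 : 1 + (al * r) ^ (2 : ℕ) ≤ 7.2552 * r) :
    ∃ N' : ℕ, 15 ≤ N' ∧ (N' : ℝ) ^ (2 : ℕ) * (1 + (r * (al - 2 * π * 1 / N')) ^ (2 : ℕ)) ≤ 10.9 * r ∧
      |r * (al - 2 * π * 1 / N')| ≤ 2 / 3 := by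
  have hrp : 0 < r := by linarith only [hr]
  have hpi := Real.pi_gt_three
  have hpi2 := Real.pi_lt_d6
  have hpi3 := Real.pi_gt_d6
  have hpisq : π ^ (2 : ℕ) ≤ 9.86961 := by
    have h3 : π ^ (2 : ℕ) ≤ 3.141593 ^ (2 : ℕ) := pow_le_pow_left₀ Real.pi_pos.le hpi2.le 2
    norm_num at h3 ⊢
    linarith only [h3]
  have hpisq2 : 9.8696 ≤ π ^ (2 : ℕ) := by
    have h3 : (3.141592 : ℝ) ^ (2 : ℕ) ≤ π ^ (2 : ℕ) := pow_le_pow_left₀ (by norm_num) hpi3.le 2
    norm_num at h3 ⊢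
    linarith only [h3]
  set ρ : ℝ := al * r with hρ
  have hρ0 : 0 < ρ := mul_pos h0 hrp
  set u : ℝ := 1 + ρ ^ (2 : ℕ) with hu
  have hu0 : 0 < u := by positivity
  set x : ℝ := 2 * π * r * ρ / u with hx
  have hxu : x * u = 2 * π * r * ρ := by rw [hx]; field_simp
  have hx0 : 0 < x := by rw [hx]; positivity
  -- `x > 14.5`
  have hx1 : 14.5 < x := by
    rw [hx, lt_div_iff₀ hu0]
    refine lt_of_pow_lt_pow_left₀ 2 (by positivity) ?_
    have e1 : (2 * π * r * ρ) ^ (2 : ℕ) = 4 * π ^ (2 : ℕ) * r ^ (2 : ℕ) * (u - 1) := by rw [hu]; ring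
    rw [e1]
    have e2 : 0 < r ^ (2 : ℕ) * (u - 1) := by
      have : 0 < u - 1 := by rw [hu]; nlinarith only [hρ0]
      positivity
    have e3 : 39.4784 * (r ^ (2 : ℕ) * (u - 1)) ≤ 4 * π ^ (2 : ℕ) * r ^ (2 : ℕ) * (u - 1) := by nlinarith only [hpisq2, e2]
    refine lt_of_lt_of_le ?_ e3
    have hu1 : 161 ≤ u := by rw [hu]; linarith only [hr, h1]
    rcases le_or_gt u 282 with hc | hc
    · have : 1600 * (u - 1) ≤ r ^ (2 : ℕ) * (u - 1) := by
        refine mul_le_mul_of_nonneg_right ?_ (by linarith only [hu1])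
        nlinarith only [hr]
      nlinarith only [hu1, hc, this]
    · have : u ^ (2 : ℕ) / 52.638 ≤ r ^ (2 : ℕ) := by
        rw [div_le_iff₀ (by norm_num)]
        nlinarith only [h2]
      have : u ^ (2 : ℕ) / 52.638 * (u - 1) ≤ r ^ (2 : ℕ) * (u - 1) :=
        mul_le_mul_of_nonneg_right this (by linarith only [hc])
      have h3 : u ^ (2 : ℕ) / 52.638 * 281 ≤ u ^ (2 : ℕ) / 52.638 * (u - 1) :=
        mul_le_mul_of_nonneg_left (by linarith only [hc]) (by positivity)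
      have h4 : 0 < u ^ (2 : ℕ) := by positivity
      nlinarith only [h2, hc]
  set k : ℤ := round x with hk
  have hkx : |x - k| ≤ 1 / 2 := abs_sub_round _
  have hkx1 := abs_le.mp hkx
  have hk15 : 15 ≤ k := by
    have : (14 : ℝ) < k := by linarith only [hx1, hkx1]
    have : (14 : ℤ) < k := by exact_mod_cast this
    omega
  obtain ⟨N, hN⟩ : ∃ N : ℕ, (N : ℤ) = k := ⟨k.toNat, Int.toNat_of_nonneg (by omega)⟩
  have hNk : (N : ℝ) = k := by exact_mod_cast hN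
  have hk0 : (0 : ℝ) < k := by linarith only [hx1, hkx1]
  refine ⟨N, by omega, ?_, ?_⟩
  · rw [hNk]
    have e1 : (k : ℝ) ^ (2 : ℕ) * (1 + (r * (al - 2 * π * 1 / k)) ^ (2 : ℕ)) =
        (k : ℝ) ^ (2 : ℕ) + (k * ρ - 2 * π * r) ^ (2 : ℕ) := by
      rw [hρ]; field_simp
    have e2 : ((k : ℝ) ^ (2 : ℕ) + (k * ρ - 2 * π * r) ^ (2 : ℕ)) * u =
        u ^ (2 : ℕ) * (x - k) ^ (2 : ℕ) + 4 * π ^ (2 : ℕ) * r ^ (2 : ℕ) := by
      have h3 : u * (x - k) = 2 * π * r * ρ - k * u := by rw [← hxu]; ring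
      have h4 : u ^ (2 : ℕ) * (x - k) ^ (2 : ℕ) = (u * (x - k)) ^ (2 : ℕ) := by ring
      rw [h4, h3, hu]; ring
    rw [e1]
    refine le_of_mul_le_mul_right ?_ hu0
    rw [e2]
    have e3 : (x - k) ^ (2 : ℕ) ≤ 1 / 4 := by nlinarith only [hkx1]
    have e4 : u ^ (2 : ℕ) * (x - k) ^ (2 : ℕ) ≤ u ^ (2 : ℕ) * (1 / 4) := mul_le_mul_of_nonneg_left e3 (by positivity)
    have e5 : 4 * π ^ (2 : ℕ) * r ^ (2 : ℕ) ≤ 39.47844 * r ^ (2 : ℕ) := by nlinarith only [hpisq]
    have e6 : 0 ≤ (u - 4 * r) * (7.2552 * r - u) := mul_nonneg (by linarith only [h1]) (by linarith only [h2])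
    have e7 : 0 ≤ r * (u - 4 * r) := mul_nonneg hrp.le (by linarith only [h1])
    nlinarith only [e4, e5, e6, e7]
  · rw [hNk]
    have e1 : r * (al - 2 * π * 1 / k) = (k * ρ - 2 * π * r) / k := by
      rw [hρ]; field_simp
    rw [e1, abs_div, abs_of_pos hk0, div_le_iff₀ hk0]
    have e2 : k * ρ - 2 * π * r = -(ρ * (x - k)) - 2 * π * r / u := by
      rw [hx]
      field_simp
      rw [hu]; ring
    have e3 : |ρ * (x - k)| ≤ ρ * (1 / 2) := by
      rw [abs_mul, abs_of_pos hρ0]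
      exact mul_le_mul_of_nonneg_left hkx hρ0.le
    have e4 : 0 < 2 * π * r / u := by positivity
    have e5 : |k * ρ - 2 * π * r| ≤ ρ * (1 / 2) + 2 * π * r / u := by
      rw [e2]
      have := abs_le.mp e3
      rw [abs_le]
      constructor <;> linarith
    refine e5.trans ?_
    have e6 : ρ * (1 / 2) + 2 * π * r / u ≤ 2 / 3 * (x - 1 / 2) := by
      refine le_of_mul_le_mul_right ?_ hu0
      have e7 : (ρ * (1 / 2) + 2 * π * r / u) * u = ρ * u / 2 + 2 * π * r := by field_simp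
      have e8 : 2 / 3 * (x - 1 / 2) * u = 2 / 3 * (2 * π * r * ρ) - u / 3 := by rw [← hxu]; ring
      rw [e7, e8]
      have hρ1 : 12.6 ≤ ρ := by
        by_contra hc
        push Not at hc
        nlinarith only [hr, h1, hρ0, hc]
      have e9 : 4 / 3 * (3.141592 * (r * ρ)) ≤ 2 / 3 * (2 * π * r * ρ) := by
        have : 0 < r * ρ := by positivity
        nlinarith only [h0, hpi3, h1]
      have e10 : 2 * π * r ≤ 6.283186 * r := by nlinarith only [hrp, hpi2]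
      rcases le_or_gt ρ 15.51 with hc | hc
      · -- small ρ
        have e11 : u ≤ 1 + 15.51 * ρ := by rw [hu]; nlinarith only [hρ1, hc]
        have e12 : u ≤ 242 := by rw [hu]; nlinarith only [e11]
        have e13 : ρ * u ≤ ρ * 242 := mul_le_mul_of_nonneg_left e12 hρ0.le
        have e14 : 0 ≤ (r - 40) * (4 / 3 * 3.141592 * ρ - 6.283186) :=
          mul_nonneg (by linarith only [hr]) (by linarith only [hρ1])
        nlinarith only [hρ1, e9, e10, hc, e14]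
      · have e11 : ρ * u ≤ ρ * (7.2552 * r) := mul_le_mul_of_nonneg_left h2 hρ0.le
        have e12 : 0 ≤ r * (ρ - 15.51) := mul_nonneg hrp.le (by linarith only [hc])
        nlinarith only [hρ1, e9, e11, e12]
    linarith only [hkx1, e6]

end SokamF1

end

/-! ### Lib_MP_af4de1_fu.MScalF -/

section
/-!
# Scalar inequalities for the heights, slope `5/2`, far part

`A(t) = 5t/2 - e^(-t) sin(5t/2)`, `S(t) = 1 - t - e^(-t) cos(5t/2)`, `f = 5t²/2 - a A + s S`.
Numerics of `f - (3/5 + 9/20 (t - 1/2))`, `t ≥ 1/2`, at the vertices of the region: `(a,s) = (.4,1)`: min `.064` (at `1/2`); `(.762,1.905)`: `.10` (at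
`1/2`); `(.2875,5.7)`: `1.2` (at `1.84`); `(0,0)`: `.025` (at `1/2`); `(0,5.7)`: `1.78`; `(-1.27,·)`, `(0,4.5)`: `≥ .88`.  (`f` is affine in `(a,s)`.)
Hints: `A ≤ 2.75 t²`; on `[1/2,5/4]` `S` is concave and `≥ 0`, `S(1/2) = .3088`, `S(5/4) = .0365`, `A ≤ 5t/2` (`sin ≥ 0`);
`5/4 ≤ t ≤ 1.885`: `cos ≤ 0`, so `S ≥ 1 - t`; `t ≥ 1.885`: `A ≤ 5t/2 + e^(-t)`, `S ≥ 1 - t - e^(-t)`.
-/

set_option autoImplicit false

namespace SokamFU

open Real

private theorem expL_F (t : ℝ) : 0.3678 * (2 - t) ≤ exp (-t) := by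
  rcases le_total t 2 with h | h
  · have h1 : exp (-t) = exp (-1) * exp (1 - t) := by rw [← Real.exp_add]; congr 1; ring
    have h2 := Real.add_one_le_exp (1 - t)
    have h3 := Real.exp_neg_one_gt_d9
    rw [h1]
    have h4 : 0.3678 * (2 - t) ≤ exp (-1) * (2 - t) := by
      apply mul_le_mul_of_nonneg_right _ (by linarith)
      linarith
    have h5 : exp (-1) * (2 - t) ≤ exp (-1) * exp (1 - t) := by
      apply mul_le_mul_of_nonneg_left _ (Real.exp_pos _).le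
      linarith
    linarith
  · have := Real.exp_pos (-t)
    linarith

private theorem expU_F (t : ℝ) : t * exp (-t) ≤ 0.3679 := by
  have h1 : exp (-1) = exp (t - 1) * exp (-t) := by rw [← Real.exp_add]; congr 1; ring
  have h2 := Real.add_one_le_exp (t - 1)
  have h3 := Real.exp_neg_one_lt_d9
  have h4 : t * exp (-t) ≤ exp (t - 1) * exp (-t) := by
    apply mul_le_mul_of_nonneg_right _ (Real.exp_pos _).le
    linarith
  linarith

private theorem expU1_F {t : ℝ} (ht : 1 ≤ t) : exp (-t) ≤ 0.3679 := by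
  have h1 := expU_F t
  have h2 := Real.exp_pos (-t)
  nlinarith

private theorem expU0_F {t : ℝ} (ht : 0 ≤ t) : exp (-t) ≤ 1 := by
  apply Real.exp_le_one_iff.2
  linarith

private theorem A_nonneg_F {t : ℝ} (ht : 0 ≤ t) : 0 ≤ 5 / 2 * t - exp (-t) * sin (5 / 2 * t) := by
  have h1 := Real.exp_pos (-t)
  have h2 := expU0_F ht
  have h3 : sin (5 / 2 * t) ≤ 5 / 2 * t := Real.sin_le (by linarith)
  rcases le_total 0 (sin (5 / 2 * t)) with h | h
  · nlinarith only [h2, h3, h]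
  · nlinarith only [ht, h1, h]

/-- the main upper bound for `e^(-t) cos(5t/2)` -/
private theorem cosU_F {t : ℝ} (ht : 1 / 2 ≤ t) (ht1 : t ≤ 1) :
    exp (-t) * cos (5 / 2 * t) ≤ 1 - t := by
  have h1 := Real.exp_pos (-t)
  have h2 := expU0_F (t := t) (by linarith)
  have hp := Real.pi_gt_d4
  have hp2 := Real.pi_lt_d4
  have h3 : cos (5 / 2 * t) ≤ max 0 (π / 2 - 5 / 2 * t) := by
    rcases le_total (5 / 2 * t) (π / 2) with h | h
    · rw [← Real.sin_pi_div_two_sub]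
      exact le_max_of_le_right (Real.sin_le (by linarith))
    · exact le_max_of_le_left (Real.cos_nonpos_of_pi_div_two_le_of_le h (by linarith))
  have h4 : max 0 (π / 2 - 5 / 2 * t) ≤ 1 - t := max_le (by linarith) (by linarith)
  rcases le_total 0 (cos (5 / 2 * t)) with h | h
  · nlinarith only [h2, h3, h4, h]
  · nlinarith only [ht1, h1, h]

theorem scF1 {t a s : ℝ} (ht : 1 / 2 ≤ t) (ha : a ≤ 0) (hs : 0 ≤ s) (hs' : s ≤ 9 / 2) :
    3 / 5 + 9 / 20 * (t - 1 / 2) ≤ 5 / 2 * t ^ (2 : ℕ) - a * (5 / 2 * t - exp (-t) * sin (5 / 2 * t)) +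
      s * (1 - t - exp (-t) * cos (5 / 2 * t)) := by
  have hA := A_nonneg_F (t := t) (by linarith)
  have hA' : 0 ≤ -a * (5 / 2 * t - exp (-t) * sin (5 / 2 * t)) := mul_nonneg (by linarith) hA
  have h1 := Real.exp_pos (-t)
  rcases le_total t 1 with h | h
  · have hc := cosU_F ht h
    have hc' : 0 ≤ s * (1 - t - exp (-t) * cos (5 / 2 * t)) := mul_nonneg hs (by linarith)
    nlinarith only [ht, hA', hc']
  · have he := expU1_F h
    have hcos := Real.cos_le_one (5 / 2 * t)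
    have hc : exp (-t) * cos (5 / 2 * t) ≤ 0.3679 := by nlinarith only [h1, he, hcos]
    have hc' : s * (1 - t - 0.3679) ≤ s * (1 - t - exp (-t) * cos (5 / 2 * t)) :=
      mul_le_mul_of_nonneg_left (by linarith) hs
    have hc'' : 9 / 2 * (1 - t - 0.3679) ≤ s * (1 - t - 0.3679) := by nlinarith only [hs', h]
    linarith only [hA', hc', hc'', sq_nonneg (t - 0.99)]

/-- bounds for `e^(-t) (2/5 sin(5t/2) - cos(5t/2))` -/
private theorem hL1_F {t : ℝ} (_ht : 1 / 2 ≤ t) (ht1 : 5 / 2 * t ≤ π / 2) :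
    2 / 5 + (5 / 2 * t - π / 2) - 1 / 5 * (5 / 2 * t - π / 2) ^ (2 : ℕ) ≤
      2 / 5 * sin (5 / 2 * t) - cos (5 / 2 * t) := by
  have h1 : cos (5 / 2 * t) ≤ π / 2 - 5 / 2 * t := by
    rw [← Real.sin_pi_div_two_sub]
    exact Real.sin_le (by linarith)
  have h2 : 1 - (π / 2 - 5 / 2 * t) ^ (2 : ℕ) / 2 ≤ sin (5 / 2 * t) := by
    rw [← Real.cos_pi_div_two_sub]
    exact Real.one_sub_sq_div_two_le_cos
  linarith only [h1, h2]

private theorem hL2_F {t : ℝ} (ht : π / 2 ≤ 5 / 2 * t) (ht1 : 5 / 2 * t ≤ π) :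
    2 / 5 + 0.636 * (5 / 2 * t - π / 2) - 1 / 5 * (5 / 2 * t - π / 2) ^ (2 : ℕ) ≤
      2 / 5 * sin (5 / 2 * t) - cos (5 / 2 * t) := by
  have hp := Real.pi_gt_d4
  have hp2 := Real.pi_lt_d4
  have h1 : 0.636 * (5 / 2 * t - π / 2) ≤ - cos (5 / 2 * t) := by
    have h3 : - cos (5 / 2 * t) = sin (5 / 2 * t - π / 2) := by
      rw [Real.sin_sub_pi_div_two]
    rw [h3]
    have h4 := Real.mul_le_sin (x := 5 / 2 * t - π / 2) (by linarith) (by linarith)
    refine le_trans ?_ h4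
    apply mul_le_mul_of_nonneg_right _ (by linarith)
    rw [le_div_iff₀ (by linarith)]
    linarith
  have h2 : 1 - (π / 2 - 5 / 2 * t) ^ (2 : ℕ) / 2 ≤ sin (5 / 2 * t) := by
    rw [← Real.cos_pi_div_two_sub]
    exact Real.one_sub_sq_div_two_le_cos
  linarith only [h1, h2]

private theorem hL3_F {t : ℝ} (ht : π ≤ 5 / 2 * t) (ht1 : 5 / 2 * t ≤ 15 / 4) :
    0 ≤ 2 / 5 * sin (5 / 2 * t) - cos (5 / 2 * t) := by
  have hp := Real.pi_gt_d4
  have hp2 := Real.pi_lt_d4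
  have h1 : 1 - (5 / 2 * t - π) ^ (2 : ℕ) / 2 ≤ - cos (5 / 2 * t) := by
    rw [← Real.cos_sub_pi]
    exact Real.one_sub_sq_div_two_le_cos
  have h2 : - sin (5 / 2 * t) ≤ 5 / 2 * t - π := by
    rw [← Real.sin_sub_pi]
    exact Real.sin_le (by linarith)
  nlinarith only [ht, ht1, hp, h1, h2]

private theorem hA_F (t : ℝ) : -(7 / 5) ≤ 2 / 5 * sin (5 / 2 * t) - cos (5 / 2 * t) := by
  have h1 := Real.cos_le_one (5 / 2 * t)
  have h2 := Real.neg_one_le_sin (5 / 2 * t)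
  linarith

/-- nonnegativity of the combination on `[1/2, 3/2]` -/
private theorem hpos_F {t : ℝ} (ht : 1 / 2 ≤ t) (ht1 : t ≤ 3 / 2) :
    0 ≤ 2 / 5 * sin (5 / 2 * t) - cos (5 / 2 * t) := by
  have hp := Real.pi_gt_d4
  have hp2 := Real.pi_lt_d4
  rcases le_total (5 / 2 * t) (π / 2) with h | h
  · have := hL1_F ht h
    nlinarith only [ht, hp2, h, this]
  rcases le_total (5 / 2 * t) π with h' | h'
  · have := hL2_F h h'
    nlinarith only [hp2, h, h', this]
  · exact hL3_F h' (by linarith)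

/-- vertex `(2/5, 1)` -/
private theorem v1_F {t : ℝ} (ht : 1 / 2 ≤ t) :
    3 / 5 + 9 / 20 * (t - 1 / 2) ≤ 5 / 2 * t ^ (2 : ℕ) + (1 - 2 * t) +
      exp (-t) * (2 / 5 * sin (5 / 2 * t) - cos (5 / 2 * t)) := by
  have h1 := Real.exp_pos (-t)
  rcases le_total t (3 / 2) with h | h
  · have h2 := mul_nonneg h1.le (hpos_F ht h)
    linarith only [h2, sq_nonneg (t - 0.49)]
  · have h3 := hA_F t
    have h4 := expU1_F (t := t) (by linarith)
    have h5 : -(7 / 5) * 0.3679 ≤ exp (-t) * (2 / 5 * sin (5 / 2 * t) - cos (5 / 2 * t)) := by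
      nlinarith only [h1, h3, h4]
    nlinarith only [h, h5]

/-- vertex `(16/21, 40/21)` -/
private theorem v2_F {t : ℝ} (ht : 1 / 2 ≤ t) :
    3 / 5 + 9 / 20 * (t - 1 / 2) ≤ 5 / 2 * t ^ (2 : ℕ) + 40 / 21 * ((1 - 2 * t) +
      exp (-t) * (2 / 5 * sin (5 / 2 * t) - cos (5 / 2 * t))) := by
  have h1 := Real.exp_pos (-t)
  have hp := Real.pi_gt_d4
  have hp2 := Real.pi_lt_d4
  have hE := expL_F t
  rcases le_total (5 / 2 * t) (π / 2) with h | h
  · have h2 := hL1_F ht h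
    have h3 : 0.5 ≤ exp (-t) := by linarith
    have h4 : 2 / 5 + (5 / 2 * t - 1.5708) - 1 / 5 * (5 / 2 * t - 1.5708) ^ (2 : ℕ) ≤
        2 / 5 + (5 / 2 * t - π / 2) - 1 / 5 * (5 / 2 * t - π / 2) ^ (2 : ℕ) := by
      nlinarith only [hp2, h]
    have h5 : 0 ≤ 2 / 5 + (5 / 2 * t - 1.5708) - 1 / 5 * (5 / 2 * t - 1.5708) ^ (2 : ℕ) := by
      nlinarith only [ht, hp2, h]
    have h6 : 0.5 * (2 / 5 + (5 / 2 * t - 1.5708) - 1 / 5 * (5 / 2 * t - 1.5708) ^ (2 : ℕ)) ≤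
        exp (-t) * (2 / 5 * sin (5 / 2 * t) - cos (5 / 2 * t)) :=
      mul_le_mul h3 (h4.trans h2) h5 h1.le
    nlinarith only [h5, h6]
  rcases le_total t (4 / 5) with h' | h'
  · have h2 := hL2_F h (by linarith)
    have h3 : 0.44 ≤ exp (-t) := by linarith
    have h5 : 2 / 5 ≤ 2 / 5 * sin (5 / 2 * t) - cos (5 / 2 * t) := by nlinarith only [hp, h, h', h2]
    have h6 : 0.44 * (2 / 5) ≤ exp (-t) * (2 / 5 * sin (5 / 2 * t) - cos (5 / 2 * t)) :=
      mul_le_mul h3 h5 (by norm_num) h1.le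
    nlinarith only [h', h6]
  rcases le_total t (6 / 5) with h'' | h''
  · have h2 := hL2_F h (by linarith)
    have h3 : 0.294 ≤ exp (-t) := by linarith
    have h5 : 0.6 ≤ 2 / 5 * sin (5 / 2 * t) - cos (5 / 2 * t) := by nlinarith only [hp, hp2, h', h'', h2]
    have h6 : 0.294 * 0.6 ≤ exp (-t) * (2 / 5 * sin (5 / 2 * t) - cos (5 / 2 * t)) :=
      mul_le_mul h3 h5 (by norm_num) h1.le
    nlinarith only [h6, sq_nonneg (t - 0.85)]
  rcases le_total t (3 / 2) with h3 | h3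
  · have h2 := mul_nonneg h1.le (hpos_F ht h3)
    nlinarith only [h'', h2]
  · have h4 := hA_F t
    have h5 := expU_F t
    have h6 : exp (-t) ≤ 0.2453 := by nlinarith only [h3, h5]
    have h7 : -(7 / 5) * 0.2453 ≤ exp (-t) * (2 / 5 * sin (5 / 2 * t) - cos (5 / 2 * t)) := by
      nlinarith only [h1, h4, h6]
    nlinarith only [h3, h7]

/-- vertex `(23/80, 57/10)` -/
private theorem v3_F {t : ℝ} (ht : 1 / 2 ≤ t) :
    3 / 5 + 9 / 20 * (t - 1 / 2) ≤ 5 / 2 * t ^ (2 : ℕ) -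
      23 / 80 * (5 / 2 * t - exp (-t) * sin (5 / 2 * t)) +
      57 / 10 * (1 - t - exp (-t) * cos (5 / 2 * t)) := by
  have h1 := Real.exp_pos (-t)
  have hp := Real.pi_gt_d4
  have hp2 := Real.pi_lt_d4
  have h0 := expU0_F (t := t) (by linarith)
  rcases le_total (5 / 2 * t) (π / 2) with h | h
  · have hs : 0 ≤ exp (-t) * sin (5 / 2 * t) :=
      mul_nonneg h1.le (Real.sin_nonneg_of_nonneg_of_le_pi (by linarith) (by linarith))
    have hc0 : 0 ≤ cos (5 / 2 * t) := Real.cos_nonneg_of_neg_pi_div_two_le_of_le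
      (by linarith) h
    have hc : cos (5 / 2 * t) ≤ π / 2 - 5 / 2 * t := by
      rw [← Real.sin_pi_div_two_sub]
      exact Real.sin_le (by linarith)
    have hc' : exp (-t) * cos (5 / 2 * t) ≤ 1.5708 - 5 / 2 * t := by nlinarith only [hp2, h0, hc0, hc]
    nlinarith only [ht, hs, hc']
  have hs1 := Real.neg_one_le_sin (5 / 2 * t)
  rcases le_total (5 / 2 * t) (π + π / 2) with h' | h'
  · have hc : exp (-t) * cos (5 / 2 * t) ≤ 0 := mul_nonpos_of_nonneg_of_nonpos h1.le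
      (Real.cos_nonpos_of_pi_div_two_le_of_le h h')
    rcases le_total (5 / 2 * t) π with h2 | h2
    · have hs : 0 ≤ exp (-t) * sin (5 / 2 * t) :=
        mul_nonneg h1.le (Real.sin_nonneg_of_nonneg_of_le_pi (by linarith) (by linarith))
      nlinarith only [hc, hs, sq_nonneg (t - 1.374)]
    · have he := expU1_F (t := t) (by linarith)
      have hs : -0.3679 ≤ exp (-t) * sin (5 / 2 * t) := by nlinarith only [h1, hs1, he]
      nlinarith only [hc, hs, sq_nonneg (t - 1.374)]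
  · have h5 := expU_F t
    have h6 : exp (-t) ≤ 0.1953 := by nlinarith only [hp, h', h5]
    have hs : -0.1953 ≤ exp (-t) * sin (5 / 2 * t) := by nlinarith only [h1, hp, hs1, h', h5]
    have hc1 := Real.cos_le_one (5 / 2 * t)
    have hc : exp (-t) * cos (5 / 2 * t) ≤ 0.1953 := by nlinarith only [h1, h6, hc1]
    nlinarith only [h1, hp, h', h6, hs, hc1]

theorem scF2 {t a s : ℝ} (ht : 1 / 2 ≤ t) (ha : 0 ≤ a) (hs : 1 ≤ s) (hs' : s ≤ 57 / 10)
    (h1 : a ≤ 2 / 5 * s) (h2 : a ≤ 1 - s / 8) :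
    3 / 5 + 9 / 20 * (t - 1 / 2) ≤ 5 / 2 * t ^ (2 : ℕ) - a * (5 / 2 * t - exp (-t) * sin (5 / 2 * t)) +
      s * (1 - t - exp (-t) * cos (5 / 2 * t)) := by
  have hA := A_nonneg_F (t := t) (by linarith)
  have v1 := v1_F ht
  have v2 := v2_F ht
  have v3 := v3_F ht
  set n := exp (-t) * sin (5 / 2 * t) with hn
  set c := exp (-t) * cos (5 / 2 * t) with hc
  have e1 : exp (-t) * (2 / 5 * sin (5 / 2 * t) - cos (5 / 2 * t)) = 2 / 5 * n - c := by
    rw [hn, hc]; ring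
  rw [e1] at v1 v2
  rcases le_total s (40 / 21) with h | h
  · have g1 : a * (5 / 2 * t - n) ≤ 2 / 5 * s * (5 / 2 * t - n) :=
      mul_le_mul_of_nonneg_right h1 hA
    have g2 : 0 ≤ (40 / 21 - s) * (5 / 2 * t ^ (2 : ℕ) + (1 - 2 * t) + (2 / 5 * n - c) -
        (3 / 5 + 9 / 20 * (t - 1 / 2))) := mul_nonneg (by linarith) (by linarith)
    have g3 : 0 ≤ (s - 1) * (5 / 2 * t ^ (2 : ℕ) + 40 / 21 * ((1 - 2 * t) + (2 / 5 * n - c)) -
        (3 / 5 + 9 / 20 * (t - 1 / 2))) := mul_nonneg (by linarith) (by linarith)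
    linarith only [g1, g2, g3]
  · have g1 : a * (5 / 2 * t - n) ≤ (1 - s / 8) * (5 / 2 * t - n) :=
      mul_le_mul_of_nonneg_right h2 hA
    have g2 : 0 ≤ (57 / 10 - s) * (5 / 2 * t ^ (2 : ℕ) + 40 / 21 * ((1 - 2 * t) + (2 / 5 * n - c)) -
        (3 / 5 + 9 / 20 * (t - 1 / 2))) := mul_nonneg (by linarith) (by linarith)
    have g3 : 0 ≤ (s - 40 / 21) * (5 / 2 * t ^ (2 : ℕ) - 23 / 80 * (5 / 2 * t - n) +
        57 / 10 * (1 - t - c) - (3 / 5 + 9 / 20 * (t - 1 / 2))) :=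
      mul_nonneg (by linarith) (by linarith)
    linarith only [g1, g2, g3]

end SokamFU

end
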