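import Pool.Agent.Lib_MP_af4de1_zy.Z04

/-! ### Lib_MP_af4de1_Ray.Operator -/

section
/-!
# The operator `T` for a primitive cube root of unity `ω`

`T` multiplies the `k`-th Taylor coefficient by `ω ^ (k (k-1) / 2)`; for `f = ∏ (1 + t j x)` with
`t j > 0` all zeros of `T f` are simple, with a quantitative lower bound for the derivative.
-/

namespace SokamRay

open InnerProductGeometry Real Filter Topology

variable {ω : ℂ}

/-- `T` multiplies the `k`-th Taylor coefficient by `ω ^ (k (k-1) / 2)`, `ω ^ 3 = 1`. -/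
noncomputable def T (ω : ℂ) (g : ℂ → ℂ) (w : ℂ) : ℂ :=
  (2 + ω) / 3 * g w + (1 + 2 * ω ^ (2 : ℕ)) / 3 * g (ω * w) + (2 + ω) / 3 * g (ω ^ (2 : ℕ) * w)

/-- The product of the factors `1 + t j x`, `j ∈ s`. -/
noncomputable def f (t : ℕ → ℝ) (s : Finset ℕ) (x : ℂ) : ℂ := ∏ j ∈ s, (1 + t j * x)

/-- `T` applied to the product. -/
noncomputable def P (ω : ℂ) (t : ℕ → ℝ) (s : Finset ℕ) (w : ℂ) : ℂ := T ω (f t s) w

theorem rot2 (w : ℂ) : ω * (ω * w) = ω ^ (2 : ℕ) * w := by ring

theorem P_empty (hω : ω ^ (2 : ℕ) + ω + 1 = 0) (t : ℕ → ℝ) (w : ℂ) : P ω t ∅ w = 1 := by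
  unfold P T f
  simp only [Finset.prod_empty]
  linear_combination (2 / 3) * hω

theorem P_zero (hω : ω ^ (2 : ℕ) + ω + 1 = 0) (t : ℕ → ℝ) (s : Finset ℕ) : P ω t s 0 = 1 := by
  unfold P T f
  simp only [mul_zero, add_zero, Finset.prod_const_one]
  linear_combination (2 / 3) * hω

theorem differentiable_f (t : ℕ → ℝ) (s : Finset ℕ) : Differentiable ℂ (f t s) := by
  unfold f
  fun_prop

theorem differentiable_T {g : ℂ → ℂ} (hg : Differentiable ℂ g) : Differentiable ℂ (T ω g) := by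
  unfold T
  fun_prop

theorem differentiable_P (t : ℕ → ℝ) (s : Finset ℕ) : Differentiable ℂ (P ω t s) :=
  differentiable_T (differentiable_f t s)

/-- The sum of the three angles. -/
noncomputable def S (ω : ℂ) (Q : ℂ → ℂ) (w : ℂ) : ℝ :=
  angle (Q w) (w * Q (ω * w)) + angle (w * Q (ω * w)) (ω * w ^ (2 : ℕ) * Q (ω ^ (2 : ℕ) * w)) +
    angle (ω * w ^ (2 : ℕ) * Q (ω ^ (2 : ℕ) * w)) (w ^ (3 : ℕ) * Q w)

theorem eventually_ne {g : ℂ → ℂ} (hg : Differentiable ℂ g) (h0 : g 0 ≠ 0) (w : ℂ) :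
    ∀ᶠ u in 𝓝[≠] w, g u ≠ 0 := by
  rcases (hg.analyticAt w).eventually_eq_zero_or_eventually_ne_zero with h | h
  · exfalso
    have h1 : AnalyticOnNhd ℂ g Set.univ := fun z _ => hg.analyticAt z
    have h2 := h1.eqOn_zero_of_preconnected_of_eventuallyEq_zero isPreconnected_univ
      (Set.mem_univ w) h
    exact h0 (h2 (Set.mem_univ 0))
  · exact h

end SokamRay

end

/-! ### Lib_MP_af4de1_Ray.Limit -/

section
namespace SokamF
end SokamF
/-!
# `F(.;ρω)` as a limit, and its zeros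
-/

namespace SokamRay

open InnerProductGeometry Real Filter Topology SokamF

variable {ω : ℂ}

/-- Hurwitz: near a zero of the limit there are zeros of the approximants. -/
theorem hurwitz {G : ℂ → ℂ} {H : ℕ → ℂ → ℂ} (hG : Differentiable ℂ G)
    (hH : ∀ n, Differentiable ℂ (H n)) (hlim : TendstoLocallyUniformlyOn H G atTop Set.univ)
    (h0 : G 0 ≠ 0) {w : ℂ} (hw : G w = 0) :
    ∃ᶠ p : ℕ × ℂ in atTop ×ˢ 𝓝 w, H p.1 p.2 = 0 := by
  intro hcon
  obtain ⟨p1, hp1, p2, hp2, hp⟩ := eventually_prod_iff.1 hcon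
  have h1 : ∀ᶠ u in 𝓝 w, u ∈ ({w}ᶜ : Set ℂ) → G u ≠ 0 :=
    eventually_nhdsWithin_iff.1 (eventually_ne hG h0 w)
  obtain ⟨r, hr, hball⟩ := Metric.eventually_nhds_iff_ball.1 (h1.and hp2)
  have hr2 : 0 < r / 2 := by positivity
  have hsub : ∀ u ∈ Metric.closedBall w (r / 2), u ∈ Metric.ball w r := fun u hu =>
    Metric.mem_ball.2 (lt_of_le_of_lt (Metric.mem_closedBall.1 hu) (by linarith only [hr2]))
  have hsph : ∀ u ∈ Metric.sphere w (r / 2), G u ≠ 0 := by
    intro u hu
    refine (hball u (hsub u (Metric.sphere_subset_closedBall hu))).1 ?_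
    intro hu'
    rw [Set.mem_singleton_iff.1 hu', Metric.mem_sphere, dist_self] at hu
    linarith only [hr2, hu]
  obtain ⟨x0, hx0, hmin⟩ := (isCompact_sphere w (r / 2)).exists_isMinOn
    (NormedSpace.sphere_nonempty.2 hr2.le) hG.continuous.norm.continuousOn
  set m := ‖G x0‖ with hm
  have hm0 : 0 < m := norm_pos_iff.2 (hsph x0 hx0)
  have hunif : TendstoUniformlyOn H G atTop (Metric.closedBall w (r / 2)) :=
    (tendstoLocallyUniformlyOn_iff_tendstoUniformlyOn_of_compact
      (isCompact_closedBall w (r / 2))).1 (hlim.mono (Set.subset_univ _))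
  rw [Metric.tendstoUniformlyOn_iff] at hunif
  obtain ⟨n, hn1, hn2⟩ := ((hunif (m / 4) (by positivity)).and hp1).exists
  have hne : ∀ u ∈ Metric.closedBall w (r / 2), H n u ≠ 0 := fun u hu =>
    hp hn2 (hball u (hsub u hu)).2
  have hd : DiffContOnCl ℂ (fun u => (H n u)⁻¹) (Metric.ball w (r / 2)) := by
    refine DifferentiableOn.diffContOnCl ?_
    rw [closure_ball w hr2.ne']
    exact (hH n).differentiableOn.inv hne
  have hb : ∀ u ∈ frontier (Metric.ball w (r / 2)), ‖(H n u)⁻¹‖ ≤ (3 * m / 4)⁻¹ := by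
    intro u hu
    rw [frontier_ball w hr2.ne'] at hu
    have k1 : m ≤ ‖G u‖ := hmin hu
    have k2 := hn1 u (Metric.sphere_subset_closedBall hu)
    rw [dist_eq_norm] at k2
    have k3 := norm_sub_norm_le (G u) (H n u)
    rw [norm_inv]
    exact inv_anti₀ (by positivity) (by linarith only [k1, k2, k3])
  have hc := Complex.norm_le_of_forall_mem_frontier_norm_le Metric.isBounded_ball hd hb
    (z := w) (subset_closure (Metric.mem_ball_self hr2))
  have k2 := hn1 w (Metric.mem_closedBall_self hr2.le)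
  rw [hw, dist_zero_left] at k2
  rw [norm_inv, inv_le_inv₀ (norm_pos_iff.2 (hne w (Metric.mem_closedBall_self hr2.le)))
    (by positivity)] at hc
  linarith only [hm0, hc, k2]

/-- The ratio of the coefficients. -/
noncomputable def d (n k : ℕ) : ℝ := (n.choose k : ℝ) * (Nat.factorial k : ℝ) / (n : ℝ) ^ k

theorem d_nonneg (n k : ℕ) : 0 ≤ d n k := by unfold d; positivity

theorem d_le_one (n k : ℕ) : d n k ≤ 1 := by
  unfold d
  refine div_le_one_of_le₀ ?_ (by positivity)
  have h := Nat.descFactorial_le_pow n k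
  rw [Nat.descFactorial_eq_factorial_mul_choose, mul_comm] at h
  exact_mod_cast h

theorem d_tendsto (k : ℕ) : Tendsto (fun n => d n k) atTop (𝓝 1) := by
  induction k with
  | zero => simp [d]
  | succ k ih =>
    have h1 : Tendsto (fun n : ℕ => 1 - (k : ℝ) / n) atTop (𝓝 1) := by
      have := (tendsto_const_div_atTop_nhds_zero_nat (k : ℝ)).const_sub 1
      simpa using this
    have h2 := ih.mul h1
    rw [one_mul] at h2
    refine h2.congr' ?_
    filter_upwards [eventually_gt_atTop k] with n hn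
    have hn0 : (n : ℝ) ≠ 0 := by
      have : 0 < n := by omega
      exact_mod_cast this.ne'
    have h3 : (n.choose (k + 1) : ℝ) * (k + 1) = n.choose k * (n - k) := by
      have := Nat.choose_succ_right_eq n k
      have h4 : ((n - k : ℕ) : ℝ) = (n : ℝ) - k := by
        rw [Nat.cast_sub hn.le]
      rw [← h4]
      exact_mod_cast this
    unfold d
    rw [Nat.factorial_succ, pow_succ]
    push_cast
    field_simp
    linear_combination (-1 : ℝ) * h3

theorem tendsto_prod {G : ℂ → ℂ} {H : ℕ → ℂ → ℂ}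
    (hlim : TendstoLocallyUniformlyOn H G atTop Set.univ) (hc : Continuous G) (w : ℂ) :
    Tendsto (fun p : ℕ × ℂ => H p.1 p.2) (atTop ×ˢ 𝓝 w) (𝓝 (G w)) := by
  rw [Metric.tendsto_nhds]
  intro ε hε
  rw [Metric.tendstoLocallyUniformlyOn_iff] at hlim
  obtain ⟨t, ht, hn⟩ := hlim (ε / 2) (by positivity) w (Set.mem_univ w)
  rw [nhdsWithin_univ] at ht
  have hc2 := (Metric.continuousAt_iff'.1 (hc.continuousAt (x := w))) (ε / 2) (by positivity)
  have h2 : ∀ᶠ x in 𝓝 w, x ∈ t ∧ dist (G x) (G w) < ε / 2 :=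
    (Filter.eventually_mem_set.2 ht).and hc2
  filter_upwards [hn.prod_mk h2] with p hp
  have h3 := hp.1 p.2 hp.2.1
  have h4 := dist_triangle (H p.1 p.2) (G p.2) (G w)
  have h5 : dist (H p.1 p.2) (G p.2) < ε / 2 := by
    rw [dist_comm]
    exact h3
  linarith only [h4, h5, hp.2.2]

theorem tendsto_prod_deriv {G : ℂ → ℂ} {H : ℕ → ℂ → ℂ} (hG : Differentiable ℂ G)
    (hH : ∀ n, Differentiable ℂ (H n))
    (hlim : TendstoLocallyUniformlyOn H G atTop Set.univ) (w : ℂ) :
    Tendsto (fun p : ℕ × ℂ => deriv (H p.1) p.2) (atTop ×ˢ 𝓝 w) (𝓝 (deriv G w)) := by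
  have hlim' := hlim.deriv (.of_forall fun n => (hH n).differentiableOn) isOpen_univ
  exact tendsto_prod hlim' (hG.contDiff (n := 1) |>.continuous_deriv le_rfl) w

theorem tendsto_prod_mul {G : ℂ → ℂ} {H : ℕ → ℂ → ℂ}
    (hlim : TendstoLocallyUniformlyOn H G atTop Set.univ) (hc : Continuous G) (a w : ℂ) :
    Tendsto (fun p : ℕ × ℂ => H p.1 (a * p.2)) (atTop ×ˢ 𝓝 w) (𝓝 (G (a * w))) := by
  have h1 := tendsto_prod hlim hc (a * w)
  have h2 : Tendsto (fun p : ℕ × ℂ => (p.1, a * p.2)) (atTop ×ˢ 𝓝 w) (atTop ×ˢ 𝓝 (a * w)) := by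
    refine tendsto_fst.prodMk ?_
    exact (tendsto_snd.const_mul a)
  exact h1.comp h2

/-- Inequalities at the zeros pass to the limit. -/
theorem transfer {G : ℂ → ℂ} {H : ℕ → ℂ → ℂ} (hG : Differentiable ℂ G)
    (hH : ∀ n, Differentiable ℂ (H n)) (hlim : TendstoLocallyUniformlyOn H G atTop Set.univ)
    (h0 : G 0 ≠ 0) {w : ℂ} (hw : G w = 0) {A B : ℕ × ℂ → ℝ} {a b : ℝ}
    (hA : Tendsto A (atTop ×ˢ 𝓝 w) (𝓝 a)) (hB : Tendsto B (atTop ×ˢ 𝓝 w) (𝓝 b))
    (hAB : ∀ᶠ n in atTop, ∀ u, H n u = 0 → A (n, u) ≤ B (n, u)) : a ≤ b := by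
  by_contra hcon
  push Not at hcon
  have hz := hurwitz hG hH hlim h0 hw
  have hev := hB.eventually_lt hA hcon
  have hn2 : ∀ᶠ p : ℕ × ℂ in atTop ×ˢ 𝓝 w, ∀ u, H p.1 u = 0 → A (p.1, u) ≤ B (p.1, u) :=
    hAB.prod_inl _
  obtain ⟨p, hp0, hp1, hp2⟩ := (hz.and_eventually (hev.and hn2)).exists
  exact absurd hp1 (not_lt.2 (hp2 p.2 hp0))

theorem differentiable_F {q : ℂ} (hq : ‖q‖ ≤ 1) : Differentiable ℂ (F q) := fun z =>
  (hasDerivAt_F hq z).differentiableAt

end SokamRay

end

/-! ### Lib_MP_af4de1_Ray.Moduli -/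

section
namespace SokamF
end SokamF
/-!
# The zeros of `F(.;ρω)` have pairwise distinct moduli
-/

namespace SokamRay

open Real Filter Topology SokamF

variable {ω : ℂ}

theorem finite_zeros {G : ℂ → ℂ} (hG : Differentiable ℂ G) (h0 : G 0 ≠ 0) (R : ℝ) :
    {u : ℂ | ‖u‖ ≤ R ∧ G u = 0}.Finite := by
  by_contra hinf
  have hinf' : {u : ℂ | ‖u‖ ≤ R ∧ G u = 0}.Infinite := hinf
  obtain ⟨x, -, hacc⟩ := hinf'.exists_accPt_of_subset_isCompact (isCompact_closedBall (0 : ℂ) R)
    (fun u hu => mem_closedBall_zero_iff.2 hu.1)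
  rw [accPt_iff_frequently_nhdsNE] at hacc
  refine hacc ?_
  filter_upwards [eventually_ne hG h0 x] with u hu hu'
  exact hu hu'.2

end SokamRay

end

/-! ### Lib_MP_af4de1_BPlus.Wind -/

section
namespace SokamRay
end SokamRay
/-!
# The number of zeros in a disc increases with the radius

`(∮ G'/G).im` on the circles of radius `ρ ≤ r` about `0` on which `G` does not vanish.
-/

namespace SokamBPlus

open Real Filter Topology SokamRay Complex

private theorem circle_inv_in {a : ℂ} {R : ℝ} (h : ‖a‖ < R) :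
    (∮ z in C(0, R), (z - a)⁻¹) = 2 * π * I := by
  refine circleIntegral.integral_sub_inv_of_mem_ball ?_
  rw [Metric.mem_ball, dist_zero_right]
  exact h

private theorem circle_inv_out {a : ℂ} {R : ℝ} (hR : 0 ≤ R) (h : R < ‖a‖) :
    (∮ z in C(0, R), (z - a)⁻¹) = 0 := by
  have h0 : ∀ z ∈ Metric.closedBall (0 : ℂ) R, z - a ≠ 0 := by
    intro z hz hza
    rw [mem_closedBall_zero_iff] at hz
    rw [sub_eq_zero] at hza
    rw [hza] at hz
    linarith
  refine Complex.circleIntegral_eq_zero_of_differentiable_on_off_countable hR Set.countable_empty ?_ ?_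
  · exact ContinuousOn.inv₀ (by fun_prop) h0
  · intro z hz
    refine DifferentiableAt.inv (by fun_prop) (h0 z ?_)
    exact Metric.ball_subset_closedBall hz.1

/-- `∮ G'/G` splits off a zero. -/
private theorem split {G H : ℂ → ℂ} (hH : Differentiable ℂ H) {a : ℂ}
    (hGH : ∀ z, G z = (z - a) * H z) {R : ℝ} (hR : 0 < R) (hne : ∀ u : ℂ, ‖u‖ = R → G u ≠ 0) :
    (∮ z in C(0, R), deriv G z / G z) =
      (∮ z in C(0, R), (z - a)⁻¹) + ∮ z in C(0, R), deriv H z / H z := by
  have h1 : ∀ u : ℂ, ‖u‖ = R → u - a ≠ 0 := fun u hu h => hne u hu (by rw [hGH, h, zero_mul])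
  have h2 : ∀ u : ℂ, ‖u‖ = R → H u ≠ 0 := fun u hu h => hne u hu (by rw [hGH, h, mul_zero])
  have hdH : Continuous (deriv H) := hH.contDiff (n := 1) |>.continuous_deriv le_rfl
  have hsph : ∀ u ∈ Metric.sphere (0 : ℂ) R, ‖u‖ = R := fun u hu => by
    rwa [mem_sphere_zero_iff_norm] at hu
  rw [← circleIntegral.integral_add]
  · refine circleIntegral.integral_congr hR.le fun z hz => ?_
    have hz' := hsph z hz
    have hG : deriv G z = H z + (z - a) * deriv H z := by
      have h3 : HasDerivAt (fun z => (z - a) * H z) (1 * H z + (z - a) * deriv H z) z :=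
        ((hasDerivAt_id z).sub_const a).mul (hH z).hasDerivAt
      have h4 : G = fun z => (z - a) * H z := funext hGH
      rw [h4, h3.deriv, one_mul]
    have e1 := h1 z hz'
    have e2 := h2 z hz'
    simp only [hG, hGH]
    field_simp
  · refine ContinuousOn.circleIntegrable hR.le ?_
    exact ContinuousOn.inv₀ (by fun_prop) fun z hz => h1 z (hsph z hz)
  · refine ContinuousOn.circleIntegrable hR.le ?_
    exact hdH.continuousOn.div hH.continuous.continuousOn fun z hz => h2 z (hsph z hz)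

private theorem zero_case {G : ℂ → ℂ} (hG : Differentiable ℂ G) {R : ℝ} (hR : 0 ≤ R)
    (hne : ∀ u : ℂ, ‖u‖ ≤ R → G u ≠ 0) : (∮ z in C(0, R), deriv G z / G z) = 0 := by
  have hdG : Differentiable ℂ (deriv G) := by
    intro z
    exact (hG.analyticAt z).deriv.differentiableAt
  refine Complex.circleIntegral_eq_zero_of_differentiable_on_off_countable hR Set.countable_empty ?_ ?_
  · exact hdG.continuous.continuousOn.div hG.continuous.continuousOn fun z hz =>
      hne z (mem_closedBall_zero_iff.1 hz)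
  · intro z hz
    exact (hdG z).div (hG z) (hne z (mem_closedBall_zero_iff.1 (Metric.ball_subset_closedBall hz.1)))

/-- Total multiplicity of the zeros in a finite set. -/
private noncomputable def tot (G : ℂ → ℂ) (Z : Finset ℂ) : ℕ := ∑ a ∈ Z, analyticOrderNatAt G a

private theorem order_ne_top {G : ℂ → ℂ} (hG : Differentiable ℂ G) (hG0 : G 0 ≠ 0) (a : ℂ) :
    analyticOrderAt G a ≠ ⊤ := by
  intro h
  rw [analyticOrderAt_eq_top] at h
  have h1 : Set.EqOn G 0 Set.univ :=
    AnalyticOnNhd.eqOn_zero_of_preconnected_of_eventuallyEq_zero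
      (fun z _ => hG.analyticAt z) isPreconnected_univ (Set.mem_univ a) h
  exact hG0 (h1 (Set.mem_univ 0))

private theorem wind_aux (Z : Finset ℂ) {ρ r : ℝ} (hρ : 0 < ρ) (hρr : ρ ≤ r) (n : ℕ) :
    ∀ G : ℂ → ℂ, Differentiable ℂ G → G 0 ≠ 0 → (∀ u : ℂ, ‖u‖ = ρ → G u ≠ 0) →
    (∀ u : ℂ, ‖u‖ = r → G u ≠ 0) → (∀ u : ℂ, ‖u‖ ≤ r → G u = 0 → u ∈ Z) → tot G Z = n →
    (∮ z in C(0, ρ), deriv G z / G z).im ≤ (∮ z in C(0, r), deriv G z / G z).im := by
  have hr : 0 < r := by linarith
  induction n with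
  | zero =>
    intro G hG hG0 h1 h2 hZ htot
    have hno : ∀ u : ℂ, ‖u‖ ≤ r → G u ≠ 0 := by
      intro u hu h
      have h3 := hZ u hu h
      have h4 : analyticOrderNatAt G u = 0 := by
        unfold tot at htot
        exact (Finset.sum_eq_zero_iff.1 htot) u h3
      have h5 : analyticOrderAt G u ≠ 0 := analyticOrderAt_ne_zero.2 ⟨hG.analyticAt u, h⟩
      have h6 := order_ne_top hG hG0 u
      unfold analyticOrderNatAt at h4
      rw [ENat.toNat_eq_zero] at h4
      rcases h4 with h4 | h4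
      · exact h5 h4
      · exact h6 h4
    rw [zero_case hG hρ.le fun u hu => hno u (hu.trans hρr), zero_case hG hr.le hno]
  | succ n ih =>
    intro G hG hG0 h1 h2 hZ htot
    -- a zero in the disc, or else nothing to do
    by_cases hno : ∀ u : ℂ, ‖u‖ ≤ r → G u ≠ 0
    · rw [zero_case hG hρ.le fun u hu => hno u (hu.trans hρr), zero_case hG hr.le hno]
    · push Not at hno
      obtain ⟨a, ha, hGa⟩ := hno
      have hGH : ∀ z, G z = (z - a) * dslope G a z := by
        intro z
        have := sub_smul_dslope G a z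
        rw [hGa, sub_zero, smul_eq_mul] at this
        exact this.symm
      have hH : Differentiable ℂ (dslope G a) := by
        have := (Complex.differentiableOn_dslope (s := Set.univ) (f := G) (c := a) Filter.univ_mem).2
          hG.differentiableOn
        exact differentiableOn_univ.1 this
      have hH0 : dslope G a 0 ≠ 0 := by
        intro h
        rw [hGH 0, h, mul_zero] at hG0
        exact hG0 rfl
      have haρ : ‖a‖ ≠ ρ := fun h => h1 a h hGa
      have har : ‖a‖ ≠ r := fun h => h2 a h hGa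
      have har' : ‖a‖ < r := lt_of_le_of_ne ha har
      have hmul : ∀ b, analyticOrderNatAt G b = analyticOrderNatAt (fun z => z - a) b +
          analyticOrderNatAt (dslope G a) b := by
        intro b
        have h3 : G = (fun z => z - a) * dslope G a := funext hGH
        have h4 : AnalyticAt ℂ (fun z : ℂ => z - a) b := by fun_prop
        conv_lhs => rw [h3]
        refine analyticOrderNatAt_mul h4 (hH.analyticAt b) ?_ (order_ne_top hH hH0 b)
        intro h
        rw [analyticOrderAt_eq_top] at h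
        have h50 : AnalyticOnNhd ℂ (fun z : ℂ => z - a) Set.univ := fun z _ =>
          analyticAt_id.sub analyticAt_const
        have h5 : Set.EqOn (fun z : ℂ => z - a) 0 Set.univ :=
          h50.eqOn_zero_of_preconnected_of_eventuallyEq_zero isPreconnected_univ (Set.mem_univ b) h
        have h6 := h5 (Set.mem_univ (a + 1))
        simp at h6
      have hone : analyticOrderNatAt (fun z => z - a) a = 1 := by
        have h3 : analyticOrderAt (fun z : ℂ => z - a) a = ((1 : ℕ) : ℕ∞) := by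
          rw [AnalyticAt.analyticOrderAt_eq_natCast (by fun_prop)]
          refine ⟨fun _ => 1, analyticAt_const, one_ne_zero, Eventually.of_forall fun z => ?_⟩
          simp
        unfold analyticOrderNatAt
        rw [h3]
        rfl
      have hzero : ∀ b, b ≠ a → analyticOrderNatAt (fun z => z - a) b = 0 := by
        intro b hb
        have h3 : analyticOrderAt (fun z : ℂ => z - a) b = 0 := by
          rw [analyticOrderAt_eq_zero]
          exact Or.inr (sub_ne_zero.2 hb)
        unfold analyticOrderNatAt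
        rw [h3]
        rfl
      have haZ : a ∈ Z := hZ a ha hGa
      have htot' : tot (dslope G a) Z = n := by
        have h3 : tot G Z = 1 + tot (dslope G a) Z := by
          unfold tot
          rw [Finset.sum_congr rfl fun b _ => hmul b, Finset.sum_add_distrib]
          congr 1
          rw [Finset.sum_eq_single a (fun b _ hb => hzero b hb) (fun h => absurd haZ h), hone]
        omega
      have hne1 : ∀ u : ℂ, ‖u‖ = ρ → dslope G a u ≠ 0 := fun u hu h =>
        h1 u hu (by rw [hGH, h, mul_zero])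
      have hne2 : ∀ u : ℂ, ‖u‖ = r → dslope G a u ≠ 0 := fun u hu h =>
        h2 u hu (by rw [hGH, h, mul_zero])
      have hih := ih (dslope G a) hH hH0 hne1 hne2
        (fun u hu h => hZ u hu (by rw [hGH, h, mul_zero])) htot'
      rw [split hH hGH hρ h1, split hH hGH hr h2, circle_inv_in har', Complex.add_im,
        Complex.add_im]
      have hpi := Real.pi_pos
      have hI : (2 * (π : ℂ) * I).im = 2 * π := by simp
      rw [hI]
      rcases lt_or_gt_of_ne haρ with h3 | h3
      · rw [circle_inv_in h3, hI]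
        linarith
      · rw [circle_inv_out hρ.le h3, Complex.zero_im]
        linarith

theorem wind_mono {G : ℂ → ℂ} (hG : Differentiable ℂ G) (hG0 : G 0 ≠ 0) {ρ r : ℝ} (hρ : 0 < ρ)
    (hρr : ρ ≤ r) (h1 : ∀ u : ℂ, ‖u‖ = ρ → G u ≠ 0) (h2 : ∀ u : ℂ, ‖u‖ = r → G u ≠ 0) :
    (∮ z in C(0, ρ), deriv G z / G z).im ≤ (∮ z in C(0, r), deriv G z / G z).im := by
  refine wind_aux (finite_zeros hG hG0 r).toFinset hρ hρr _ G hG hG0 h1 h2 (fun u hu h => ?_) rfl
  rw [Set.Finite.mem_toFinset]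
  exact ⟨hu, h⟩

end SokamBPlus

end

/-! ### Lib_MP_af4de1_BPlus.Soft2 -/

section
namespace SokamF
end SokamF
namespace SokamRay
end SokamRay
/-!
# Distinct moduli of the large zeros, soft part, `0 < |q| ≤ 1`

As in `Soft.lean`; for `|q| < 1` the winding number of `z F(qz)/F(z)` on a circle is at most `1`
(`wind_mono`), which is all that is needed.
-/

namespace SokamBPlus

open Real Filter Topology SokamF SokamRay

/-- A function that can cross the levels `π + 2πk` only upwards and grows by at most `2π` per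
period crosses them at most once per period. -/
theorem crossing_le {Y Y' : ℝ → ℝ} (hY : ∀ x, HasDerivAt Y (Y' x) x)
    (hper : ∀ x, Y (x + 2 * π) ≤ Y x + 2 * π)
    (hpos : ∀ x, (∃ k : ℤ, Y x = π + k * (2 * π)) → 0 < Y' x) {a b : ℝ} (hab : a < b)
    (hba : b < a + 2 * π) (ha : ∃ k : ℤ, Y a = π + k * (2 * π))
    (hb : ∃ k : ℤ, Y b = π + k * (2 * π)) : False := by
  have hcont : Continuous Y := continuous_iff_continuousAt.2 fun x => (hY x).continuousAt
  have key : ∀ c d : ℝ, (∃ k : ℤ, Y c = π + k * (2 * π)) → c < d → Y c < Y d := by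
    intro c d hc hcd
    have hge : ∀ x, c ≤ x → Y c ≤ Y x := by
      intro x hx
      refine image_le_of_liminf_slope_right_lt_deriv_boundary' (f := fun _ => Y c)
        (f' := fun _ => 0) (a := c) (b := x) (B := Y) (B' := Y') continuousOn_const ?_ le_rfl
        hcont.continuousOn (fun y _ => (hY y).hasDerivWithinAt) ?_ (Set.right_mem_Icc.2 hx)
      · intro y _ r hr
        refine (Eventually.of_forall fun z => ?_).frequently
        simpa [slope_def_field] using hr
      · intro y _ hy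
        refine hpos y ?_
        obtain ⟨k, hk⟩ := hc
        exact ⟨k, hy.symm.trans hk⟩
    rcases (hge d hcd.le).lt_or_eq with h | h
    · exact h
    · exfalso
      have h1 : 0 < Y' d := by
        obtain ⟨k, hk⟩ := hc
        exact hpos d ⟨k, h.symm.trans hk⟩
      have h2 := (hY d).tendsto_slope
      have h3 : ∀ᶠ x in 𝓝[≠] d, 0 < slope Y d x := h2.eventually_const_lt h1
      have h4 : ∀ᶠ x in 𝓝[<] d, 0 < slope Y d x :=
        h3.filter_mono (nhdsWithin_mono _ fun x hx => ne_of_lt hx)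
      have h5 : ∀ᶠ x in 𝓝[<] d, c < x :=
        (eventually_nhdsWithin_of_eventually_nhds (lt_mem_nhds hcd))
      have h6 : ∀ᶠ x in 𝓝[<] d, x < d := eventually_mem_nhdsWithin
      obtain ⟨x, hx1, hx2, hx3⟩ := (h4.and (h5.and h6)).exists
      rw [slope_def_field] at hx1
      have h7 := hge x hx2.le
      rw [h] at h7
      have h8 : (Y x - Y d) / (x - d) ≤ 0 :=
        div_nonpos_of_nonneg_of_nonpos (by linarith) (by linarith)
      linarith
  have h1 := key a b ha hab
  have h2 := key b (a + 2 * π) hb hba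
  have h20 := hper a
  obtain ⟨k, hk⟩ := ha
  obtain ⟨l, hl⟩ := hb
  rw [hk, hl] at h1
  rw [hl] at h2
  rw [hk] at h20
  have hpi := pi_pos
  have h3 : (k : ℝ) < l := by nlinarith
  have h4 : (l : ℝ) < k + 1 := by nlinarith
  have h5 : k < l := by exact_mod_cast h3
  have h6 : l < k + 1 := by exact_mod_cast h4
  omega

/-- On a circle of radius `r` such that `G` vanishes neither there nor on the circle of radius
`|q| r` there is at most one point with `u G(q u) / G u < 0`, if the argument of this function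
increases at all such points. -/
theorem one_point_le {G : ℂ → ℂ} (hG : Differentiable ℂ G) (hG00 : G 0 ≠ 0) {q : ℂ} (hq0 : q ≠ 0)
    (hq1 : ‖q‖ ≤ 1) {r : ℝ} (hr : 0 < r)
    (hne : ∀ u : ℂ, ‖u‖ = r → G u ≠ 0) (hne' : ∀ u : ℂ, ‖u‖ = ‖q‖ * r → G u ≠ 0)
    (hpos : ∀ u : ℂ, ‖u‖ = r → (∃ s : ℝ, 0 < s ∧ G u + s * (u * G (q * u)) = 0) →
      0 < (1 + q * u * deriv G (q * u) / G (q * u) - u * deriv G u / G u).re)
    {u v : ℂ} (hu : ‖u‖ = r) (hv : ‖v‖ = r) (huv : u ≠ v)
    (hu' : ∃ s : ℝ, 0 < s ∧ G u + s * (u * G (q * u)) = 0)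
    (hv' : ∃ s : ℝ, 0 < s ∧ G v + s * (v * G (q * v)) = 0) : False := by
  set α := q.arg with hα
  have hqn : 0 < ‖q‖ := norm_pos_iff.2 hq0
  have hqr : 0 < ‖q‖ * r := by positivity
  have hqr1 : ‖q‖ * r ≤ r := mul_le_of_le_one_left hr.le hq1
  -- a parametrised circle and the logarithm of `G` along it
  have main : ∀ R : ℝ, 0 < R → (∀ u : ℂ, ‖u‖ = R → G u ≠ 0) → ∃ L m : ℝ → ℂ,
      (∀ θ, HasDerivAt L (m θ) θ) ∧
      (∀ θ : ℝ, G (R * Complex.exp (θ * Complex.I)) = G R * Complex.exp (L θ)) ∧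
      (∀ θ : ℝ, m θ = Complex.I * (R * Complex.exp (θ * Complex.I) *
        deriv G (R * Complex.exp (θ * Complex.I)) / G (R * Complex.exp (θ * Complex.I)))) ∧
      ∀ θ, L (θ + 2 * π) = L θ + ∮ z in C(0, R), deriv G z / G z := by
    intro R hR hneR
    set c : ℝ → ℂ := fun θ => R * Complex.exp (θ * Complex.I) with hc
    have hRc : (R : ℂ) ≠ 0 := by exact_mod_cast hR.ne'
    have hcn : ∀ θ, ‖c θ‖ = R := by
      intro θ
      simp only [hc]
      rw [norm_mul, Complex.norm_exp_ofReal_mul_I, mul_one, Complex.norm_real,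
        Real.norm_of_nonneg hR.le]
    have hcd : ∀ θ, HasDerivAt c (Complex.I * c θ) θ := by
      intro θ
      have h1 : HasDerivAt (fun x : ℝ => (x : ℂ) * Complex.I) Complex.I θ := by
        have := (Complex.ofRealCLM.hasDerivAt (x := θ)).mul_const Complex.I
        simpa using this
      have h2 := (h1.cexp).const_mul (R : ℂ)
      refine h2.congr_deriv ?_
      simp only [hc]
      ring
    have hcc : Continuous c := continuous_iff_continuousAt.2 fun x => (hcd x).continuousAt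
    have hc2π : ∀ θ, c (θ + 2 * π) = c θ := by
      intro θ
      simp only [hc]
      push_cast
      rw [add_mul, Complex.exp_add, Complex.exp_two_pi_mul_I, mul_one]
    have hdG : Continuous (deriv G) := hG.contDiff (n := 1) |>.continuous_deriv le_rfl
    set m : ℝ → ℂ := fun θ => Complex.I * (c θ * deriv G (c θ) / G (c θ)) with hm
    have hmc : Continuous m := by
      simp only [hm]
      refine continuous_const.mul (Continuous.div (hcc.mul (hdG.comp hcc)) (hG.continuous.comp hcc)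
        fun θ => hneR _ (hcn θ))
    have hmper : Function.Periodic m (2 * π) := by
      intro θ
      simp only [hm]
      rw [hc2π]
    set L : ℝ → ℂ := fun θ => ∫ x in (0 : ℝ)..θ, m x with hL
    have hLd : ∀ θ, HasDerivAt L (m θ) θ := fun θ =>
      intervalIntegral.integral_hasDerivAt_right (hmc.intervalIntegrable _ _)
        hmc.stronglyMeasurable.stronglyMeasurableAtFilter hmc.continuousAt
    have hGL : ∀ θ, G (c θ) = G (c 0) * Complex.exp (L θ) := by
      have h1 : ∀ θ, HasDerivAt (fun θ => G (c θ) * Complex.exp (-L θ)) 0 θ := by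
        intro θ
        have h2 : HasDerivAt (fun θ => G (c θ)) (deriv G (c θ) * (Complex.I * c θ)) θ :=
          (hG (c θ)).hasDerivAt.comp_of_eq θ (hcd θ) rfl
        have h3 := h2.mul ((hLd θ).neg.cexp)
        refine h3.congr_deriv ?_
        have h4 := hneR _ (hcn θ)
        simp only [hm]
        field_simp
        ring
      intro θ
      have h2 := is_const_of_deriv_eq_zero (fun θ => (h1 θ).differentiableAt)
        (fun θ => (h1 θ).deriv) θ 0
      have hL0 : L 0 = 0 := by simp [hL]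
      simp only [hL0, neg_zero, Complex.exp_zero, mul_one] at h2
      rw [← h2, mul_assoc, ← Complex.exp_add, neg_add_cancel, Complex.exp_zero, mul_one]
    have hc0 : c 0 = R := by simp [hc]
    have hL2 : L (2 * π) = ∮ z in C(0, R), deriv G z / G z := by
      rw [circleIntegral]
      simp only [hL]
      refine intervalIntegral.integral_congr fun θ _ => ?_
      simp only [hm, deriv_circleMap, smul_eq_mul, circleMap, zero_add, hc]
      ring
    have hLper : ∀ θ, L (θ + 2 * π) = L θ + L (2 * π) := by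
      intro θ
      have h1 := hmper.intervalIntegral_add_eq θ 0
      rw [zero_add] at h1
      have h2 : L (θ + 2 * π) = L θ + ∫ x in θ..(θ + 2 * π), m x := by
        simp only [hL]
        rw [intervalIntegral.integral_add_adjacent_intervals (hmc.intervalIntegrable _ _)
          (hmc.intervalIntegrable _ _)]
      rw [h2, h1]
    refine ⟨L, m, hLd, fun θ => ?_, fun θ => rfl, fun θ => ?_⟩
    · have := hGL θ
      rw [hc0] at this
      exact this
    · rw [hLper, hL2]
  obtain ⟨L, m, hLd, hGL, hmd, hLper⟩ := main r hr hne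
  obtain ⟨L', m', hLd', hGL', hmd', hLper'⟩ := main (‖q‖ * r) hqr hne'
  have hmono := wind_mono hG hG00 hqr hqr1 hne' hne
  set c : ℝ → ℂ := fun θ => r * Complex.exp (θ * Complex.I) with hc
  have hcn : ∀ θ, ‖c θ‖ = r := by
    intro θ
    simp only [hc]
    rw [norm_mul, Complex.norm_exp_ofReal_mul_I, mul_one, Complex.norm_real,
      Real.norm_of_nonneg hr.le]
  have hqc : ∀ θ : ℝ, ((‖q‖ * r : ℝ) : ℂ) * Complex.exp (((θ + α : ℝ) : ℂ) * Complex.I) = q * c θ := by
    intro θ
    have h1 := Complex.norm_mul_exp_arg_mul_I q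
    rw [← hα] at h1
    simp only [hc]
    conv_rhs => rw [← h1]
    push_cast
    rw [add_mul, Complex.exp_add]
    ring
  have hG1 : G r ≠ 0 := hne _ (by rw [Complex.norm_real, Real.norm_of_nonneg hr.le])
  have hG2 : G ((‖q‖ * r : ℝ) : ℂ) ≠ 0 := hne' _ (by rw [Complex.norm_real, Real.norm_of_nonneg hqr.le])
  obtain ⟨κ, hκ⟩ : ∃ κ : ℂ, Complex.exp κ = G ((‖q‖ * r : ℝ) : ℂ) / G r :=
    ⟨Complex.log _, Complex.exp_log (div_ne_zero hG2 hG1)⟩
  set Λ : ℝ → ℂ := fun θ => θ * Complex.I + L' (θ + α) - L θ + κ with hΛ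
  have hh : ∀ θ, c θ * G (q * c θ) = r * Complex.exp (Λ θ) * G (c θ) := by
    intro θ
    rw [← hqc, hGL' (θ + α)]
    have h1 : G (c θ) = G r * Complex.exp (L θ) := hGL θ
    rw [h1]
    simp only [hΛ]
    rw [Complex.exp_add, Complex.exp_sub, Complex.exp_add, hκ]
    have := Complex.exp_ne_zero (L θ)
    simp only [hc]
    field_simp
  have hΛd : ∀ θ, HasDerivAt Λ (Complex.I + m' (θ + α) - m θ) θ := by
    intro θ
    have h1 : HasDerivAt (fun x : ℝ => (x : ℂ) * Complex.I) Complex.I θ := by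
      have := (Complex.ofRealCLM.hasDerivAt (x := θ)).mul_const Complex.I
      simpa using this
    have h2 : HasDerivAt (fun x : ℝ => L' (x + α)) (m' (θ + α)) θ := (hLd' (θ + α)).comp_add_const θ α
    exact ((h1.add h2).sub (hLd θ)).add_const κ
  have hYd : ∀ θ, HasDerivAt (fun θ => (Λ θ).im) ((Complex.I + m' (θ + α) - m θ).im) θ := by
    intro θ
    have := (Complex.imCLM.hasFDerivAt (x := Λ θ)).comp_hasDerivAt θ (hΛd θ)
    exact this
  have hYper : ∀ θ, (Λ (θ + 2 * π)).im ≤ (Λ θ).im + 2 * π := by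
    intro θ
    have h1 : Λ (θ + 2 * π) = Λ θ + ((2 * π : ℝ) : ℂ) * Complex.I +
        ((∮ z in C(0, ‖q‖ * r), deriv G z / G z) - ∮ z in C(0, r), deriv G z / G z) := by
      simp only [hΛ]
      rw [show θ + 2 * π + α = (θ + α) + 2 * π by ring, hLper, hLper']
      push_cast
      ring
    rw [h1, Complex.add_im, Complex.add_im, Complex.im_ofReal_mul, Complex.I_im, mul_one,
      Complex.sub_im]
    linarith
  have hYm : ∀ θ, (Complex.I + m' (θ + α) - m θ).im =
      (1 + q * c θ * deriv G (q * c θ) / G (q * c θ) - c θ * deriv G (c θ) / G (c θ)).re := by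
    intro θ
    have h1 : Complex.I + m' (θ + α) - m θ = Complex.I *
        (1 + q * c θ * deriv G (q * c θ) / G (q * c θ) - c θ * deriv G (c θ) / G (c θ)) := by
      rw [hmd', hmd, hqc]
      simp only [hc]
      ring
    rw [h1, Complex.I_mul_im]
  have hiff1 : ∀ θ, (∃ k : ℤ, (Λ θ).im = π + k * (2 * π)) →
      ∃ s : ℝ, 0 < s ∧ G (c θ) + s * (c θ * G (q * c θ)) = 0 := by
    rintro θ ⟨k, hk⟩
    have h1 : Complex.exp (Λ θ) = -(Real.exp (Λ θ).re : ℂ) := by
      rw [Complex.exp_eq_exp_re_mul_sin_add_cos, hk, ← Complex.ofReal_cos, ← Complex.ofReal_sin,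
        Real.cos_add_int_mul_two_pi, Real.sin_add_int_mul_two_pi, Real.cos_pi, Real.sin_pi,
        ← Complex.ofReal_exp]
      push_cast
      ring
    have h2 : (Real.exp (Λ θ).re : ℂ) ≠ 0 := by exact_mod_cast (Real.exp_pos _).ne'
    have hrc : (r : ℂ) ≠ 0 := by exact_mod_cast hr.ne'
    refine ⟨1 / (r * Real.exp (Λ θ).re), by positivity, ?_⟩
    rw [hh, h1]
    push_cast
    push_cast at h2
    field_simp
    ring
  have hiff2 : ∀ θ, (∃ s : ℝ, 0 < s ∧ G (c θ) + s * (c θ * G (q * c θ)) = 0) →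
      ∃ k : ℤ, (Λ θ).im = π + k * (2 * π) := by
    rintro θ ⟨s, hs, h1⟩
    rw [hh] at h1
    have h2 := hne _ (hcn θ)
    have hsc : (s : ℂ) ≠ 0 := by exact_mod_cast hs.ne'
    have hrc : (r : ℂ) ≠ 0 := by exact_mod_cast hr.ne'
    have h3 : Complex.exp (Λ θ) = -(1 / (s * r) : ℂ) := by
      have h4 : G (c θ) * (1 + s * r * Complex.exp (Λ θ)) = 0 := by
        linear_combination h1
      have h5 := (mul_eq_zero.1 h4).resolve_left h2
      field_simp
      linear_combination h5
    have h6 : Complex.exp (Λ θ) = Complex.exp ((Real.log (1 / (s * r)) : ℝ) + π * Complex.I) := by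
      rw [h3, Complex.exp_add, Complex.exp_pi_mul_I, ← Complex.ofReal_exp,
        Real.exp_log (by positivity)]
      push_cast
      ring
    obtain ⟨n, hn⟩ := Complex.exp_eq_exp_iff_exists_int.1 h6
    refine ⟨n, ?_⟩
    rw [hn]
    simp
  have hYpos : ∀ θ, (∃ k : ℤ, (Λ θ).im = π + k * (2 * π)) →
      0 < (Complex.I + m' (θ + α) - m θ).im := by
    intro θ hθ
    rw [hYm]
    exact hpos _ (hcn θ) (hiff1 θ hθ)
  have hcarg : ∀ z : ℂ, ‖z‖ = r → c z.arg = z := by
    intro z hz
    simp only [hc]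
    rw [← hz]
    exact Complex.norm_mul_exp_arg_mul_I z
  have hu2 := hiff2 u.arg (by rw [hcarg u hu]; exact hu')
  have hv2 := hiff2 v.arg (by rw [hcarg v hv]; exact hv')
  have hne' : u.arg ≠ v.arg := by
    intro h
    apply huv
    rw [← hcarg u hu, ← hcarg v hv, h]
  have b1 := Complex.neg_pi_lt_arg u
  have b2 := Complex.arg_le_pi u
  have b3 := Complex.neg_pi_lt_arg v
  have b4 := Complex.arg_le_pi v
  rcases lt_or_gt_of_ne hne' with h | h
  · exact crossing_le hYd hYper hYpos h (by linarith) hu2 hv2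
  · exact crossing_le hYd hYper hYpos h (by linarith) hv2 hu2

end SokamBPlus

end

/-! ### Lib_MP_af4de1_in.Defs -/

section
namespace SokamF
end SokamF
/-!
# Interior of the disc (F4) and the corner q = 1: definitions

`F q z = ∑ q^(n(n-1)/2) z^n / n!` (SokamF.F), `F(·;q)' = F(q ·;q)`.
-/

set_option autoImplicit false

open Complex Set Filter Topology SokamF

namespace SokamIn

/-- `z 0, …, z k` are the first `k + 1` zeros of `F(·;q)`: simple, strictly increasing moduli,
and every zero of modulus at most `‖z k‖` is one of them. -/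
structure First (q : ℂ) (k : ℕ) (z : ℕ → ℂ) : Prop where
  zero : ∀ i ≤ k, F q (z i) = 0
  simple : ∀ i ≤ k, F q (q * z i) ≠ 0
  mono : ∀ i < k, ‖z i‖ < ‖z (i + 1)‖
  complete : ∀ w, F q w = 0 → ‖w‖ ≤ ‖z k‖ → ∃ i ≤ k, w = z i

/-- all zeros of `F(·;q)` are simple and have distinct moduli -/
def Dist (q : ℂ) : Prop :=
  (∀ z, F q z = 0 → F q (q * z) ≠ 0) ∧ ∀ z w, F q z = 0 → F q w = 0 → ‖z‖ = ‖w‖ → z = w

/-- the corner `q = 1` -/
def TIP (k : ℕ) : Prop :=
  ∃ ε > 0, ∀ q : ℂ, ‖q‖ ≤ 1 → q ≠ 1 → ‖q - 1‖ < ε →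
    ∃ z : ℕ → ℂ, First q k z ∧ ∀ i < k, ‖z i‖ < ‖q‖ * ‖z (i + 1)‖

/-- `q = ρ e^(iθ)` in polar form, `qq ρ θ τ = q^τ` -/
noncomputable def qq (ρ θ τ : ℝ) : ℂ := cexp (τ * (Real.log ρ + θ * I))

/-- the circle `|q| = ρ` is good for the first `k + 1` zeros `z θ 0, …, z θ k` -/
structure Circ (ρ : ℝ) (k : ℕ) (z : ℝ → ℕ → ℂ) : Prop where
  first : ∀ θ, First (qq ρ θ 1) k (z θ)
  gap : ∀ θ, ∀ i < k, ‖z θ i‖ < ρ * ‖z θ (i + 1)‖

end SokamIn

end

/-! ### Lib_MP_af4de1_hd.DN -/

section
namespace SokamF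
end SokamF
/-! # Part (d): `F q` has infinitely many zeros for `0 < ‖q‖ ≤ 1`, `q ≠ 1` -/

namespace SokamHD

open Complex SokamF Filter Topology Metric Set

/-! ## Piece [HD-D10] (this file) -/

theorem norm_F_le {q : ℂ} (hq : ‖q‖ ≤ 1) (z : ℂ) : ‖F q z‖ ≤ Real.exp ‖z‖ := by
  unfold F
  have h1 : ∑' k : ℕ, ‖z‖ ^ k / (Nat.factorial k : ℝ) = Real.exp ‖z‖ := by
    rw [Real.exp_eq_exp_ℝ, NormedSpace.exp_eq_tsum_div]
  rw [← h1]
  exact tsum_of_norm_bounded (Real.summable_pow_div_factorial ‖z‖).hasSum (norm_term_le hq z)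

/-- A zero free entire function of exponential type is `exp (a + b z)`. -/
theorem eq_exp_of_ne_zero {g : ℂ → ℂ} (hg : Differentiable ℂ g) (h0 : ∀ z, g z ≠ 0) {C : ℝ}
    (hC : ∀ z, ‖g z‖ ≤ C * Real.exp (C * ‖z‖)) : ∃ a b : ℂ, ∀ z, g z = exp (a + b * z) := by
  have hdg : Differentiable ℂ (deriv g) := fun z => (hg.analyticAt z).deriv.differentiableAt
  have hf : Differentiable ℂ (fun z => deriv g z / g z) := hdg.div hg h0
  obtain ⟨h, hh0, hh⟩ := hf.isExactOn_univ.with_val_at 0 (log (g 0))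
  have hhd : ∀ z, HasDerivAt h (deriv g z / g z) z := fun z => hh z (mem_univ z)
  -- `exp (h z) = g z`
  have hexp : ∀ z, exp (h z) = g z := by
    have hd : ∀ z, HasDerivAt (fun z => g z * exp (-(h z))) 0 z := by
      intro z
      have h1 := (hg z).hasDerivAt.mul ((hhd z).neg.cexp)
      refine h1.congr_deriv ?_
      have := h0 z
      field_simp
      ring
    have hconst : ∀ z, g z * exp (-(h z)) = 1 := by
      intro z
      have h1 := is_const_of_deriv_eq_zero (f := fun z => g z * exp (-(h z)))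
        (fun z => (hd z).differentiableAt) (fun z => (hd z).deriv) z 0
      rw [h1, hh0, exp_neg, exp_log (h0 0)]
      exact mul_inv_cancel₀ (h0 0)
    intro z
    have h2 := hconst z
    rw [exp_neg] at h2
    have h3 := exp_ne_zero (h z)
    field_simp at h2
    exact h2.symm
  have hhdiff : Differentiable ℂ h := fun z => (hhd z).differentiableAt
  -- bound on the real part
  have hCpos : 0 < C := by
    have h1 := hC 0
    have h2 : 0 < ‖g 0‖ := norm_pos_iff.mpr (h0 0)
    simp only [norm_zero, mul_zero, Real.exp_zero, mul_one] at h1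
    linarith only [h2, h1]
  have hre : ∀ z, (h z).re ≤ Real.log C + C * ‖z‖ := by
    intro z
    have h1 := hC z
    rw [← hexp z, norm_exp] at h1
    have h2 : C * Real.exp (C * ‖z‖) = Real.exp (Real.log C + C * ‖z‖) := by
      rw [Real.exp_add, Real.exp_log hCpos]
    rw [h2, Real.exp_le_exp] at h1
    exact h1
  set H : ℂ → ℂ := fun z => h z - h 0 with hH
  have hHd : Differentiable ℂ H := hhdiff.sub_const _
  have hH0 : H 0 = 0 := by simp [hH]
  set A : ℝ := |Real.log C| + ‖h 0‖ + 1 with hA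
  have hApos : 0 < A := by (clear * -; positivity)
  have hHb : ∀ z, 1 ≤ ‖z‖ → ‖H z‖ ≤ 2 * (A + 2 * C) * ‖z‖ := by
    intro z hz
    have hz0 : 0 < ‖z‖ := by linarith only [hz]
    have hM : 0 < A + C * (2 * ‖z‖) := by (clear * - hCpos hz; positivity)
    have h1 := borelCaratheodory_zero (f := H) (R := 2 * ‖z‖) (M := A + C * (2 * ‖z‖)) (z := z) hM
      hHd.differentiableOn (by
        intro x hx
        rw [mem_ball_zero_iff] at hx
        show (h x - h 0).re ≤ _
        rw [sub_re]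
        have h2 := hre x
        have h3 : -(h 0).re ≤ ‖h 0‖ := (neg_le_abs _).trans (abs_re_le_norm _)
        have h4 := le_abs_self (Real.log C)
        have h5 : C * ‖x‖ ≤ C * (2 * ‖z‖) := by gcongr
        rw [hA]; linarith only [h2, h3, h4, h5]) (by (clear * - hz; positivity)) (by
        rw [mem_ball_zero_iff]; linarith only [hz0]) hH0
    refine h1.trans ?_
    have h2 : 2 * ‖z‖ - ‖z‖ = ‖z‖ := by ring
    rw [h2, mul_div_assoc, div_self hz0.ne', mul_one]
    linarith only [mul_nonneg hApos.le (sub_nonneg.mpr hz)]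
  -- `H z = b z` by Liouville
  have hds : Differentiable ℂ (dslope H 0) := by
    rw [← differentiableOn_univ] at hHd ⊢
    exact (differentiableOn_dslope univ_mem).mpr hHd
  have hbd : Bornology.IsBounded (range (dslope H 0)) := by
    obtain ⟨B, hB⟩ := (isCompact_closedBall (0 : ℂ) 1).exists_bound_of_continuousOn
      hds.continuous.continuousOn
    refine isBounded_iff_forall_norm_le.mpr ⟨max B (2 * (A + 2 * C)), ?_⟩
    rintro _ ⟨z, rfl⟩
    by_cases hz : ‖z‖ ≤ 1
    · exact (hB z (by rwa [mem_closedBall_zero_iff])).trans (le_max_left _ _)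
    · push Not at hz
      have hz0 : z ≠ 0 := norm_pos_iff.mp (by linarith only [hz])
      rw [dslope_of_ne _ hz0, slope_def_field, hH0, sub_zero, sub_zero, norm_div]
      refine le_trans ?_ (le_max_right _ _)
      rw [div_le_iff₀ (by linarith only [hz])]
      exact hHb z hz.le
  have hconst : ∀ z, H z = dslope H 0 0 * z := by
    intro z
    have h1 := hds.apply_eq_apply_of_bounded hbd z 0
    by_cases hz : z = 0
    · rw [hz, hH0, mul_zero]
    · rw [dslope_of_ne _ hz, slope_def_field, hH0, sub_zero, sub_zero] at h1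
      rw [← h1]
      field_simp
  refine ⟨h 0, dslope H 0 0, fun z => ?_⟩
  rw [← hexp z, ← hconst z]
  congr 1
  simp [hH]

/-- Polynomial times `exp (-t)`. -/
theorem tendsto_poly_exp (Q : Polynomial ℂ) (β : ℂ) :
    Tendsto (fun t : ℝ => Q.eval ((t : ℂ) * β) * (Real.exp (-t) : ℂ)) atTop (𝓝 0) := by
  induction Q using Polynomial.induction_on' with
  | add p q hp hq =>
    have := hp.add hq
    rw [add_zero] at this
    refine this.congr fun t => ?_
    rw [Polynomial.eval_add]; ring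
  | monomial n a =>
    have h1 : Tendsto (fun t : ℝ => ((t ^ n * Real.exp (-t) : ℝ) : ℂ)) atTop (𝓝 ((0 : ℝ) : ℂ)) :=
      (continuous_ofReal.tendsto _).comp (Real.tendsto_pow_mul_exp_neg_atTop_nhds_zero n)
    have h2 := h1.const_mul (a * β ^ n)
    rw [ofReal_zero, mul_zero] at h2
    refine h2.congr fun t => ?_
    rw [Polynomial.eval_monomial, mul_pow]
    push_cast
    ring

/-- `F q` divided by finitely many of its zeros still has a zero. -/
theorem exists_zero {q : ℂ} (hq0 : q ≠ 0) (hq : ‖q‖ ≤ 1) (hq1 : q ≠ 1) {k : ℕ} {z : ℕ → ℂ}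
    (hz : ∀ j < k, z j ≠ 0) {g : ℂ → ℂ} (hg : Differentiable ℂ g)
    (h : ∀ u, F q u = (∏ j ∈ Finset.range k, (1 - u / z j)) * g u) : ∃ u, g u = 0 := by
  by_contra hcon
  push Not at hcon
  set P : Polynomial ℂ := ∏ j ∈ Finset.range k, (1 - Polynomial.C (z j)⁻¹ * Polynomial.X) with hP
  have hPe : ∀ u, P.eval u = ∏ j ∈ Finset.range k, (1 - u / z j) := by
    intro u
    rw [hP, Polynomial.eval_prod]
    refine Finset.prod_congr rfl fun j _ => ?_
    simp only [Polynomial.eval_sub, Polynomial.eval_one, Polynomial.eval_mul, Polynomial.eval_C,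
      Polynomial.eval_X]
    rw [div_eq_mul_inv, mul_comm]
  have hP0 : P.eval 0 = 1 := by rw [hPe]; simp
  have hfac : ∀ u, F q u = P.eval u * g u := fun u => by rw [hPe]; exact h u
  -- growth of `g`
  set R : ℝ := 1 + ∑ j ∈ Finset.range k, 2 * ‖z j‖ with hR
  have hRpos : 0 < R := by (clear * -; positivity)
  obtain ⟨B, hB⟩ := (isCompact_closedBall (0 : ℂ) R).exists_bound_of_continuousOn
    hg.continuous.continuousOn
  have hgrow : ∀ u, ‖g u‖ ≤ max B 1 * Real.exp (max B 1 * ‖u‖) := by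
    intro u
    have hm1 : (1 : ℝ) ≤ max B 1 := le_max_right _ _
    have hexp1 : (1 : ℝ) ≤ Real.exp (max B 1 * ‖u‖) :=
      Real.one_le_exp (by (clear * -; positivity))
    by_cases hu : ‖u‖ ≤ R
    · calc ‖g u‖ ≤ B := hB u (by rwa [mem_closedBall_zero_iff])
        _ ≤ max B 1 * 1 := by rw [mul_one]; exact le_max_left _ _
        _ ≤ _ := by gcongr
    · push Not at hu
      have hP1 : 1 ≤ ‖P.eval u‖ := by
        rw [hPe, norm_prod]
        refine le_trans (le_of_eq (Finset.prod_const_one (s := Finset.range k)).symm)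
          (Finset.prod_le_prod (fun _ _ => zero_le_one) fun j hj => ?_)
        have hj' := hz j (Finset.mem_range.mp hj)
        have hzj : 0 < ‖z j‖ := norm_pos_iff.mpr hj'
        have h1 : 2 * ‖z j‖ ≤ ∑ j ∈ Finset.range k, 2 * ‖z j‖ :=
          Finset.single_le_sum (f := fun j => 2 * ‖z j‖) (fun i _ => by (clear * -; positivity)) hj
        have h2 : 2 ≤ ‖u / z j‖ := by
          rw [norm_div, le_div_iff₀ hzj]; linarith only [hu, h1]
        have h3 := norm_sub_norm_le (u / z j) 1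
        rw [norm_one] at h3
        rw [norm_sub_rev]
        linarith only [h2, h3]
      have h1 : ‖g u‖ ≤ ‖F q u‖ := by
        rw [hfac, norm_mul]
        nlinarith only [hP1, norm_nonneg (g u)]
      calc ‖g u‖ ≤ Real.exp ‖u‖ := h1.trans (norm_F_le hq u)
        _ ≤ Real.exp (max B 1 * ‖u‖) := by
            rw [Real.exp_le_exp]; nlinarith only [hm1, norm_nonneg u]
        _ ≤ max B 1 * Real.exp (max B 1 * ‖u‖) := by
            nlinarith only [hm1, Real.exp_pos (max B 1 * ‖u‖)]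
  obtain ⟨a, b, hab⟩ := eq_exp_of_ne_zero hg hcon hgrow
  -- the functional equation
  have hfe : ∀ u, (P.derivative.eval u + b * P.eval u) = P.eval (q * u) * exp (b * (q - 1) * u) := by
    intro u
    have h1 : HasDerivAt (F q) (F q (q * u)) u := hasDerivAt_F hq u
    have h2 : HasDerivAt (F q) (P.derivative.eval u * g u + P.eval u * (g u * b)) u := by
      have h3 : HasDerivAt (fun u => P.eval u * exp (a + b * u))
          (P.derivative.eval u * exp (a + b * u) + P.eval u * (exp (a + b * u) * b)) u := by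
        refine (P.hasDerivAt u).mul ?_
        have h4 : HasDerivAt (fun u => a + b * u) b u := by
          simpa using ((hasDerivAt_id u).const_mul b).const_add a
        exact h4.cexp
      have h5 : F q = fun u => P.eval u * exp (a + b * u) := by
        funext v; rw [hfac, hab]
      rw [h5, hab]
      exact h3
    have h3 := h1.unique h2
    rw [hfac, hab, hab] at h3
    have h4 : exp (a + b * (q * u)) = exp (b * (q - 1) * u) * exp (a + b * u) := by
      rw [← exp_add]; congr 1; ring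
    rw [h4] at h3
    have h5 := exp_ne_zero (a + b * u)
    have h6 : (P.derivative.eval u + b * P.eval u) * exp (a + b * u) =
        (P.eval (q * u) * exp (b * (q - 1) * u)) * exp (a + b * u) := by
      rw [mul_assoc (P.eval (q * u)), h3]; ring
    exact mul_right_cancel₀ h5 h6
  have hq1' : q - 1 ≠ 0 := sub_ne_zero.mpr hq1
  by_cases hb : b = 0
  · -- `P' = P (q ·)`
    have h1 : P.derivative = P.comp (Polynomial.C q * Polynomial.X) := by
      apply Polynomial.funext
      intro u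
      have h2 := hfe u
      rw [hb, zero_mul, add_zero, zero_mul, zero_mul, exp_zero, mul_one] at h2
      rw [h2, Polynomial.eval_comp]
      simp
    by_cases hdeg : P.natDegree = 0
    · have h2 : P.derivative = 0 := by
        rw [Polynomial.eq_C_of_natDegree_eq_zero hdeg]; simp
      have h3 : (P.comp (Polynomial.C q * Polynomial.X)).eval 0 = 1 := by
        rw [Polynomial.eval_comp]; simpa using hP0
      rw [← h1, h2, Polynomial.eval_zero] at h3
      exact zero_ne_one h3
    · have h2 := Polynomial.natDegree_derivative_lt hdeg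
      rw [h1, Polynomial.natDegree_comp, Polynomial.natDegree_C_mul_X q hq0, mul_one] at h2
      exact lt_irrefl _ h2
  · -- exponential decay
    have hβ : b * (q - 1) ≠ 0 := mul_ne_zero hb hq1'
    set β : ℂ := (b * (q - 1))⁻¹ with hβd
    have h1 := tendsto_poly_exp (P.derivative + Polynomial.C b * P) β
    have h2 : ∀ t : ℝ, (P.derivative + Polynomial.C b * P).eval ((t : ℂ) * β) *
        (Real.exp (-t) : ℂ) = P.eval (q * (t * β)) := by
      intro t
      rw [Polynomial.eval_add, Polynomial.eval_mul, Polynomial.eval_C, hfe]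
      have h3 : b * (q - 1) * (t * β) = t := by
        rw [hβd]; field_simp
      rw [h3, mul_assoc, ofReal_exp, ← exp_add]
      simp
    have h3 : Tendsto (fun t : ℝ => P.eval (q * (t * β))) atTop (𝓝 0) := h1.congr h2
    by_cases hdeg : 0 < P.degree
    · have h4 : Tendsto (fun t : ℝ => ‖q * ((t : ℂ) * β)‖) atTop atTop := by
        have h5 : (fun t : ℝ => ‖q * ((t : ℂ) * β)‖) = fun t : ℝ => ‖q‖ * ‖β‖ * |t| := by
          funext t
          rw [norm_mul, norm_mul, norm_real, Real.norm_eq_abs]; ring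
        rw [h5]
        have h6 : 0 < ‖q‖ * ‖β‖ := mul_pos (norm_pos_iff.mpr hq0)
          (norm_pos_iff.mpr (inv_ne_zero hβ))
        exact (tendsto_abs_atTop_atTop).const_mul_atTop h6
      have h5 := P.tendsto_norm_atTop hdeg h4
      have h6 := h3.norm
      rw [norm_zero] at h6
      exact not_tendsto_nhds_of_tendsto_atTop h5 0 h6
    · rw [not_lt] at hdeg
      rw [Polynomial.eq_C_of_degree_le_zero hdeg] at h3 hP0
      simp only [Polynomial.eval_C] at h3 hP0
      rw [hP0] at h3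
      exact one_ne_zero (tendsto_nhds_unique tendsto_const_nhds h3)

end SokamHD

end

/-! ### Lib_MP_af4de1_in.Inf -/

section
namespace SokamF
end SokamF
/-!
# Existence of the first `k + 1` zeros (F4)

* `div_zeros`: division of an entire function by finitely many distinct zeros;
* `exists_first`: for `0 < |q| ≤ 1`, `q ≠ 1` and `Dist q` the zeros of `F(·;q)` can be enumerated by
  increasing modulus (for each `k`);
* `exists_first_all`: the same with one sequence for all `k`.
-/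

set_option autoImplicit false

open Complex Set Filter Topology SokamF

namespace SokamIn

/-- Division of an entire function by finitely many distinct zeros. -/
theorem div_zeros {f : ℂ → ℂ} (hf : Differentiable ℂ f) (n : ℕ) (z : ℕ → ℂ)
    (hz : ∀ j < n, z j ≠ 0) (hinj : ∀ i < n, ∀ j < n, z i = z j → i = j)
    (hzero : ∀ j < n, f (z j) = 0) :
    ∃ g : ℂ → ℂ, Differentiable ℂ g ∧ ∀ u, f u = (∏ j ∈ Finset.range n, (1 - u / z j)) * g u := by
  induction n with
  | zero => exact ⟨f, hf, fun u => by simp⟩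
  | succ n ih =>
    obtain ⟨g, hg, hfg⟩ := ih (fun j hj => hz j (by omega))
      (fun i hi j hj h => hinj i (by omega) j (by omega) h) (fun j hj => hzero j (by omega))
    have hzn := hz n (by omega)
    have hgn : g (z n) = 0 := by
      have h1 := hfg (z n)
      rw [hzero n (by omega)] at h1
      rcases mul_eq_zero.1 h1.symm with h2 | h2
      · exfalso
        obtain ⟨j, hj, hj0⟩ := Finset.prod_eq_zero_iff.1 h2
        rw [Finset.mem_range] at hj
        have h3 : z n / z j = 1 := (sub_eq_zero.1 hj0).symm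
        rw [div_eq_one_iff_eq (hz j (by omega))] at h3
        have := hinj n (by omega) j (by omega) h3
        omega
      · exact h2
    have hds : Differentiable ℂ (dslope g (z n)) := by
      rw [← differentiableOn_univ] at hg ⊢
      exact (differentiableOn_dslope univ_mem).mpr hg
    refine ⟨fun u => -z n * dslope g (z n) u, hds.const_mul _, fun u => ?_⟩
    rw [hfg u, Finset.prod_range_succ, mul_assoc]
    congr 1
    have h4 : g u = (u - z n) * dslope g (z n) u := by
      by_cases hu : u = z n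
      · rw [hu, hgn, sub_self, zero_mul]
      · rw [dslope_of_ne _ hu, slope_def_field, hgn, sub_zero]
        have : u - z n ≠ 0 := sub_ne_zero.2 hu
        field_simp
    rw [h4]
    have h5 : (1 - u / z n) * (-z n) = u - z n := by
      field_simp
      ring
    rw [← mul_assoc, h5]

/-- The quotient does not vanish at a simple zero. -/
theorem quot_ne_zero {q : ℂ} (hq : ‖q‖ ≤ 1) {n : ℕ} {z : ℕ → ℂ} {g : ℂ → ℂ}
    (hg : Differentiable ℂ g)
    (hfg : ∀ u, F q u = (∏ j ∈ Finset.range n, (1 - u / z j)) * g u) {i : ℕ} (hi : i < n)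
    (hzi : z i ≠ 0) (hs : F q (q * z i) ≠ 0) : g (z i) ≠ 0 := by
  intro h0
  have hP : Differentiable ℂ fun u : ℂ => ∏ j ∈ Finset.range n, (1 - u / z j) := by
    refine Differentiable.fun_finsetProd fun j _ => ?_
    exact (differentiable_const _).sub (differentiable_id.div_const _)
  have hP0 : ∏ j ∈ Finset.range n, (1 - z i / z j) = 0 :=
    Finset.prod_eq_zero (Finset.mem_range.2 hi) (by rw [div_self hzi, sub_self])
  have h1 := ((hP (z i)).hasDerivAt.mul (hg (z i)).hasDerivAt)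
  have h2 : HasDerivAt (F q) (F q (q * z i)) (z i) := hasDerivAt_F hq _
  have h3 : F q = fun u => (∏ j ∈ Finset.range n, (1 - u / z j)) * g u := funext hfg
  rw [h3] at h2
  have h4 := h2.unique h1
  rw [hP0, h0, mul_zero, zero_mul, add_zero] at h4
  exact hs ((hfg _).trans h4)

/-- `n` zeros of the smallest moduli -/
private theorem exists_n {q : ℂ} (hq0 : q ≠ 0) (hq : ‖q‖ ≤ 1) (hq1 : q ≠ 1) (hD : Dist q) (n : ℕ) :
    ∃ z : ℕ → ℂ, (∀ i < n, F q (z i) = 0) ∧ (∀ i, i + 1 < n → ‖z i‖ < ‖z (i + 1)‖) ∧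
      ∀ w, F q w = 0 → (∃ i < n, w = z i) ∨ ∀ i < n, ‖z i‖ < ‖w‖ := by
  have hne : ∀ w, F q w = 0 → w ≠ 0 := by
    rintro w hw rfl
    rw [F_zero] at hw
    exact one_ne_zero hw
  induction n with
  | zero => exact ⟨fun _ => 0, by simp, by simp, fun w _ => Or.inr (by simp)⟩
  | succ n ih =>
    obtain ⟨z, h1, h2, h3⟩ := ih
    -- moduli are strictly increasing
    have hlt : ∀ i j, i < j → j < n → ‖z i‖ < ‖z j‖ := by
      intro i j hij
      induction j with
      | zero => omega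
      | succ j ihj =>
        intro hj
        rcases Nat.lt_succ_iff_lt_or_eq.1 hij with h | h
        · exact (ihj h (by omega)).trans (h2 j hj)
        · rw [h]
          exact h2 j hj
    have hinj : ∀ i < n, ∀ j < n, z i = z j → i = j := by
      intro i hi j hj h
      rcases lt_trichotomy i j with h4 | h4 | h4
      · exact absurd (congrArg norm h) (hlt i j h4 hj).ne
      · exact h4
      · exact absurd (congrArg norm h) (hlt j i h4 hi).ne'
    have hdF : Differentiable ℂ (F q) := fun u => (hasDerivAt_F hq u).differentiableAt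
    obtain ⟨g, hg, hfg⟩ := div_zeros hdF n z (fun j hj => hne _ (h1 j hj)) hinj h1
    obtain ⟨u, hu⟩ := SokamHD.exists_zero hq0 hq hq1 (fun j hj => hne _ (h1 j hj)) hg hfg
    -- the zero of `g` of least modulus
    have hcomp : IsCompact ({w | g w = 0} ∩ Metric.closedBall (0 : ℂ) ‖u‖) := by
      refine (isCompact_closedBall (0 : ℂ) ‖u‖).inter_left ?_
      exact isClosed_eq hg.continuous continuous_const
    obtain ⟨v, hv, hvmin⟩ := hcomp.exists_isMinOn ⟨u, hu, by simp⟩ continuous_norm.continuousOn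
    have hv0 : g v = 0 := hv.1
    have hmin : ∀ w, g w = 0 → ‖v‖ ≤ ‖w‖ := by
      intro w hw
      by_cases hwu : ‖w‖ ≤ ‖u‖
      · exact hvmin ⟨hw, by rwa [mem_closedBall_zero_iff]⟩
      · push Not at hwu
        have : ‖v‖ ≤ ‖u‖ := by
          have := hv.2
          rwa [mem_closedBall_zero_iff] at this
        exact this.trans hwu.le
    have hFv : F q v = 0 := by rw [hfg, hv0, mul_zero]
    have hvne : ∀ i < n, v ≠ z i := by
      rintro i hi rfl
      exact quot_ne_zero hq hg hfg hi (hne _ (h1 i hi)) (hD.1 _ (h1 i hi)) hv0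
    have hgw : ∀ w, F q w = 0 → (∀ i < n, w ≠ z i) → g w = 0 := by
      intro w hw hwn
      have h4 := hfg w
      rw [hw] at h4
      rcases mul_eq_zero.1 h4.symm with h5 | h5
      · exfalso
        obtain ⟨j, hj, hj0⟩ := Finset.prod_eq_zero_iff.1 h5
        rw [Finset.mem_range] at hj
        have h6 : w / z j = 1 := (sub_eq_zero.1 hj0).symm
        rw [div_eq_one_iff_eq (hne _ (h1 j hj))] at h6
        exact hwn j hj h6
      · exact h5
    have hvlt : ∀ i < n, ‖z i‖ < ‖v‖ := by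
      rcases h3 v hFv with ⟨i, hi, h⟩ | h
      · exact absurd h (hvne i hi)
      · exact h
    refine ⟨fun i => if i < n then z i else v, ?_, ?_, ?_⟩
    · intro i hi
      by_cases h : i < n
      · simp only [h, if_true]
        exact h1 i h
      · simp only [h, if_false]
        exact hFv
    · intro i hi
      have h4 : i < n := by omega
      by_cases h : i + 1 < n
      · simp only [h4, h, if_true]
        exact h2 i h
      · simp only [h4, h, if_true, if_false]
        exact hvlt i h4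
    · intro w hw
      by_cases hwz : ∃ i < n, w = z i
      · obtain ⟨i, hi, h⟩ := hwz
        exact Or.inl ⟨i, by omega, by simp only [hi, if_true]; exact h⟩
      · push Not at hwz
        have h4 := hgw w hw hwz
        rcases eq_or_ne w v with h5 | h5
        · exact Or.inl ⟨n, by omega, by simp only [lt_irrefl, if_false]; exact h5⟩
        · right
          intro i hi
          by_cases h : i < n
          · simp only [h, if_true]
            rcases h3 w hw with ⟨j, hj, h6⟩ | h6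
            · exact absurd h6 (hwz j hj)
            · exact h6 i h
          · simp only [h, if_false]
            refine lt_of_le_of_ne (hmin w h4) fun h6 => h5 (hD.2 w v hw hFv h6.symm)

/-- For `0 < |q| ≤ 1`, `q ≠ 1` and `Dist q` the zeros of `F(·;q)` can be enumerated by increasing
modulus. -/
theorem exists_first' {q : ℂ} (hq0 : q ≠ 0) (hq : ‖q‖ ≤ 1) (hq1 : q ≠ 1) (hD : Dist q) (k : ℕ) :
    ∃ z : ℕ → ℂ, First q k z := by
  obtain ⟨z, h1, h2, h3⟩ := exists_n hq0 hq hq1 hD (k + 1)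
  refine ⟨z, fun i hi => h1 i (by omega), fun i hi => hD.1 _ (h1 i (by omega)),
    fun i hi => h2 i (by omega), fun w hw hwk => ?_⟩
  rcases h3 w hw with ⟨i, hi, h⟩ | h
  · exact ⟨i, by omega, h⟩
  · exact absurd hwk (not_le.2 (h k (by omega)))

/-- The same on the unit circle. -/
theorem exists_first {q : ℂ} (hq : ‖q‖ = 1) (hq1 : q ≠ 1) (hD : Dist q) (k : ℕ) :
    ∃ z : ℕ → ℂ, First q k z :=
  exists_first' (norm_ne_zero_iff.1 (by rw [hq]; exact one_ne_zero)) hq.le hq1 hD k

/-- Finitely many zeros in every closed ball. -/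
theorem zeros_finite {q : ℂ} (hq : ‖q‖ ≤ 1) (R : ℝ) :
    ({w | F q w = 0} ∩ Metric.closedBall 0 R).Finite := by
  have hdF : Differentiable ℂ (F q) := fun u => (hasDerivAt_F hq u).differentiableAt
  have han : AnalyticOnNhd ℂ (F q) univ := hdF.differentiableOn.analyticOnNhd isOpen_univ
  have h0 : ∀ x ∈ Metric.closedBall (0 : ℂ) R, ∀ᶠ w in 𝓝[≠] x, F q w ≠ 0 := by
    intro x _
    rcases (han x (mem_univ x)).eventually_eq_zero_or_eventually_ne_zero with h | h
    · have h1 := han.eqOn_zero_of_preconnected_of_eventuallyEq_zero isPreconnected_univ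
        (mem_univ x) h
      have h2 : F q 0 = 0 := h1 (mem_univ 0)
      rw [F_zero] at h2
      exact absurd h2 one_ne_zero
    · exact h
  by_contra hinf
  obtain ⟨x, hx, hacc⟩ := Set.Infinite.exists_accPt_of_subset_isCompact hinf
    (isCompact_closedBall (0 : ℂ) R) inter_subset_right
  have h1 := accPt_iff_frequently.1 hacc
  refine h1 ?_
  have h2 := eventually_nhdsWithin_iff.1 (h0 x hx)
  filter_upwards [h2] with y hy
  rintro ⟨hyx, hyZ, _⟩
  exact hy hyx hyZ

end SokamIn

end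

/-! ### Lib_MP_af4de1_in.W0 -/

section
/-!
# Zero winding number through continuous logarithms
-/

set_option autoImplicit false

namespace SokamIn

open Complex Set Filter Topology

/-- `f` has a continuous `2π`-periodic logarithm. -/
def W0 (f : ℝ → ℂ) : Prop :=
  ∃ L : ℝ → ℂ, Continuous L ∧ (∀ θ, L (θ + 2 * Real.pi) = L θ) ∧ ∀ θ, cexp (L θ) = f θ

/-- a nonvanishing continuous function on a simply connected, locally path connected space has a
continuous logarithm -/
theorem lift_of {X : Type*} [TopologicalSpace X] [LocallyPathConnectedSpace X]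
    [SimplyConnectedSpace X] {H : X → ℂ} (hc : Continuous H) (h0 : ∀ p, H p ≠ 0) :
    ∃ L : X → ℂ, Continuous L ∧ ∀ p, cexp (L p) = H p := by
  obtain ⟨x0⟩ : Nonempty X := inferInstance
  obtain ⟨L, ⟨-, hL⟩, -⟩ := isCoveringMapOn_exp.existsUnique_continuousMap_lifts
    (⟨H, hc⟩ : C(X, ℂ)) (a₀ := x0) (e₀ := Complex.log (H x0)) (exp_log (h0 x0))
    (fun a => h0 a)
  exact ⟨L, L.continuous, fun p => congrFun hL p⟩

instance : SimplyConnectedSpace (ℝ × ℝ) := inferInstance
instance : LocallyPathConnectedSpace (ℝ × ℝ) := inferInstance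

/-- a continuous function with `exp D = 1` is constant -/
theorem const_of_exp_eq_one {X : Type*} [TopologicalSpace X] [PreconnectedSpace X] {D : X → ℂ}
    (hD : Continuous D) (h1 : ∀ x, cexp (D x) = 1) (x y : X) : D x = D y := by
  have hn : ∀ x, ∃ n : ℤ, D x = n * (2 * Real.pi * I) := fun x => exp_eq_one_iff.1 (h1 x)
  choose n hn using hn
  have hcont : Continuous n := by
    rw [Int.isClosedEmbedding_coe_real.isEmbedding.continuous_iff]
    have : ((fun m : ℤ => (m : ℝ)) ∘ n) = fun x => (D x).im / (2 * Real.pi) := by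
      funext x
      have hpi := Real.pi_pos
      simp only [Function.comp_apply]
      rw [hn x]
      have : ((n x : ℂ) * (2 * Real.pi * I)).im = (n x : ℝ) * (2 * Real.pi) := by
        simp
      rw [this]
      field_simp
    rw [this]
    fun_prop
  have : n x = n y := PreconnectedSpace.constant inferInstance hcont
  rw [hn x, hn y, this]

theorem W0.ne_zero {f : ℝ → ℂ} (hf : W0 f) (θ : ℝ) : f θ ≠ 0 := by
  obtain ⟨L, -, -, h⟩ := hf
  rw [← h]
  exact exp_ne_zero _

theorem W0.mul {f g : ℝ → ℂ} (hf : W0 f) (hg : W0 g) : W0 fun θ => f θ * g θ := by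
  obtain ⟨L, hL, hp, he⟩ := hf
  obtain ⟨M, hM, hq, hm⟩ := hg
  exact ⟨fun θ => L θ + M θ, hL.add hM, fun θ => by simp [hp, hq], fun θ => by
    rw [exp_add, he, hm]⟩

theorem W0.inv {f : ℝ → ℂ} (hf : W0 f) : W0 fun θ => (f θ)⁻¹ := by
  obtain ⟨L, hL, hp, he⟩ := hf
  exact ⟨fun θ => -L θ, hL.neg, fun θ => by simp [hp], fun θ => by rw [exp_neg, he]⟩

theorem W0.div {f g : ℝ → ℂ} (hf : W0 f) (hg : W0 g) : W0 fun θ => f θ / g θ := by
  simpa only [div_eq_mul_inv] using hf.mul hg.inv

theorem W0.const {c : ℂ} (hc : c ≠ 0) : W0 fun _ => c :=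
  ⟨fun _ => Complex.log c, continuous_const, fun _ => rfl, fun _ => exp_log hc⟩

theorem W0.congr {f g : ℝ → ℂ} (hf : W0 f) (h : ∀ θ, g θ = f θ) : W0 g := by
  have : g = f := funext h
  rw [this]; exact hf

theorem W0.of_exp {L : ℝ → ℂ} (hL : Continuous L) (hp : ∀ θ, L (θ + 2 * Real.pi) = L θ) :
    W0 fun θ => cexp (L θ) := ⟨L, hL, hp, fun _ => rfl⟩

theorem W0.prod {ι : Type*} (s : Finset ι) {f : ι → ℝ → ℂ} (hf : ∀ i ∈ s, W0 (f i)) :
    W0 fun θ => ∏ i ∈ s, f i θ := by
  classical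
  induction s using Finset.induction_on with
  | empty => simpa using W0.const one_ne_zero
  | insert a s ha ih =>
    refine ((hf a (Finset.mem_insert_self a s)).mul
      (ih fun i hi => hf i (Finset.mem_insert_of_mem hi))).congr fun θ => ?_
    rw [Finset.prod_insert ha]

/-- homotopy invariance -/
theorem W0.homotopy {H : ℝ × ℝ → ℂ} (hc : Continuous H) (h0 : ∀ p, H p ≠ 0)
    (hp : ∀ θ s, H (θ + 2 * Real.pi, s) = H (θ, s)) {a b : ℝ} (ha : W0 fun θ => H (θ, a)) :
    W0 fun θ => H (θ, b) := by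
  obtain ⟨L, hL, he⟩ := lift_of hc h0
  obtain ⟨M, hM, hMp, hMe⟩ := ha
  have hD1 : ∀ p : ℝ × ℝ, cexp (L (p.1 + 2 * Real.pi, p.2) - L p) = 1 := by
    intro p
    rw [exp_sub, he, he, hp]
    exact div_self (h0 _)
  have hDc : Continuous fun p : ℝ × ℝ => L (p.1 + 2 * Real.pi, p.2) - L p := by
    fun_prop
  have hconst := const_of_exp_eq_one hDc hD1
  -- the value at `(0, a)`
  have hE1 : ∀ θ : ℝ, cexp (L (θ, a) - M θ) = 1 := by
    intro θ
    rw [exp_sub, he, hMe]
    exact div_self (h0 _)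
  have hEc : Continuous fun θ : ℝ => L (θ, a) - M θ := by fun_prop
  have hE := const_of_exp_eq_one hEc hE1
  have h00 : L (0 + 2 * Real.pi, a) - L (0, a) = 0 := by
    have h1 : L (0 + 2 * Real.pi, a) - M (0 + 2 * Real.pi) = L (0, a) - M 0 :=
      hE (0 + 2 * Real.pi) 0
    rw [hMp 0] at h1
    linear_combination h1
  refine ⟨fun θ => L (θ, b), by fun_prop, fun θ => ?_, fun θ => he _⟩
  have h1 : L (θ + 2 * Real.pi, b) - L (θ, b) = L (0 + 2 * Real.pi, a) - L (0, a) :=
    hconst (θ, b) (0, a)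
  rw [h00, sub_eq_zero] at h1
  exact h1

/-- the winding number of `e^(imθ)` is `m` -/
theorem W0.int_eq_zero {m : ℤ} (h : W0 fun θ => cexp (m * θ * I)) : m = 0 := by
  obtain ⟨L, hL, hp, he⟩ := h
  have h1 : ∀ θ : ℝ, cexp (L θ - m * θ * I) = 1 := by
    intro θ
    rw [exp_sub, he]
    exact div_self (exp_ne_zero _)
  have hc : Continuous fun θ : ℝ => L θ - m * θ * I := by fun_prop
  have h2 := const_of_exp_eq_one hc h1 (0 + 2 * Real.pi) 0
  simp only [hp 0] at h2
  have h3 : (m : ℂ) * (2 * Real.pi) * I = 0 := by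
    push_cast at h2
    linear_combination -h2
  have hpi : (Real.pi : ℂ) ≠ 0 := by exact_mod_cast Real.pi_ne_zero
  have h4 : (m : ℂ) = 0 := by
    rcases mul_eq_zero.1 h3 with h | h
    · rcases mul_eq_zero.1 h with h | h
      · exact h
      · exact absurd h (mul_ne_zero two_ne_zero hpi)
    · exact absurd h I_ne_zero
  exact_mod_cast h4

/-- a homotopy over `[0,1]` -/
theorem W0.homotopy01 {H : ℝ × ℝ → ℂ} (hc : ContinuousOn H (univ ×ˢ Icc 0 1))
    (h0 : ∀ θ, ∀ s ∈ Icc (0 : ℝ) 1, H (θ, s) ≠ 0)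
    (hp : ∀ θ, ∀ s ∈ Icc (0 : ℝ) 1, H (θ + 2 * Real.pi, s) = H (θ, s))
    (ha : W0 fun θ => H (θ, 0)) : W0 fun θ => H (θ, 1) := by
  have hmem : ∀ s : ℝ, (projIcc (0 : ℝ) 1 zero_le_one s : ℝ) ∈ Icc (0 : ℝ) 1 := fun s =>
    (projIcc (0 : ℝ) 1 zero_le_one s).2
  have hpr : Continuous fun s : ℝ => (projIcc (0 : ℝ) 1 zero_le_one s : ℝ) :=
    continuous_subtype_val.comp continuous_projIcc
  have hc' : Continuous fun p : ℝ × ℝ => H (p.1, (projIcc (0 : ℝ) 1 zero_le_one p.2 : ℝ)) := by
    refine hc.comp_continuous (by fun_prop) fun p => ?_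
    exact ⟨mem_univ _, hmem _⟩
  have h1 := W0.homotopy (H := fun p : ℝ × ℝ => H (p.1, (projIcc (0 : ℝ) 1 zero_le_one p.2 : ℝ)))
    hc' (fun p => h0 _ _ (hmem _)) (fun θ s => hp _ _ (hmem _)) (a := 0) (b := 1)
  simp only [projIcc_left, projIcc_right] at h1
  exact h1 ha

end SokamIn

end

/-! ### Lib_MP_af4de1_in.Fac -/

section
/-!
# The number of zeros in a disc and the winding number
-/

set_option autoImplicit false

namespace SokamIn

open Complex Set Filter Topology

/-- `G` has exactly `n` zeros (with multiplicity) in `‖z‖ < r` and none on `‖z‖ = r`. -/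
def Fac (U : Set ℂ) (G : ℂ → ℂ) (r : ℝ) (n : ℕ) : Prop :=
  ∃ (a : Fin n → ℂ) (K : ℂ → ℂ), (∀ i, ‖a i‖ < r) ∧ DifferentiableOn ℂ K U ∧
    (∀ z, ‖z‖ ≤ r → K z ≠ 0) ∧ ∀ z ∈ U, G z = (∏ i, (z - a i)) * K z

/-- the point `r e^(iθ)` -/
noncomputable def cp (r θ : ℝ) : ℂ := (r : ℂ) * cexp (θ * I)

theorem norm_cp {r : ℝ} (hr : 0 ≤ r) (θ : ℝ) : ‖cp r θ‖ = r := by
  unfold cp
  rw [norm_mul, Complex.norm_real, Real.norm_of_nonneg hr, Complex.norm_exp_ofReal_mul_I, mul_one]

theorem cexp_period (θ : ℝ) : cexp (((θ + 2 * Real.pi : ℝ) : ℂ) * I) = cexp (θ * I) := by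
  have : (((θ + 2 * Real.pi : ℝ) : ℂ) * I) = θ * I + 2 * Real.pi * I := by push_cast; ring
  rw [this, exp_periodic]

theorem cexp_neg_period (θ : ℝ) : cexp (-(((θ + 2 * Real.pi : ℝ) : ℂ) * I)) = cexp (-(θ * I)) := by
  rw [exp_neg, cexp_period, exp_neg]

theorem cp_period (r θ : ℝ) : cp r (θ + 2 * Real.pi) = cp r θ := by
  unfold cp
  rw [cexp_period]

theorem continuous_cp (r : ℝ) : Continuous (cp r) := by
  unfold cp
  fun_prop

theorem norm_mul_cexp_neg (a : ℂ) (θ : ℝ) : ‖a * cexp (-(θ * I))‖ = ‖a‖ := by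
  have : -((θ : ℂ) * I) = ((-θ : ℝ) : ℂ) * I := by push_cast; ring
  rw [norm_mul, this, Complex.norm_exp_ofReal_mul_I, mul_one]

/-- `1 - s a e^(-iθ)/r`: the factor of a zero inside. -/
theorem w0_factor {r : ℝ} {a : ℂ} (ha : ‖a‖ < r) : W0 fun θ => (r : ℂ) - a * cexp (-(θ * I)) := by
  have hr : 0 < r := lt_of_le_of_lt (norm_nonneg a) ha
  have h := W0.homotopy01 (H := fun p : ℝ × ℝ => (r : ℂ) - p.2 * (a * cexp (-(p.1 * I))))
    (by fun_prop) (fun θ s hs => ?_) (fun θ s _ => ?_) ?_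
  · simpa using h
  · intro h
    have h1 : ‖(r : ℂ)‖ = ‖(s : ℂ) * (a * cexp (-(θ * I)))‖ := by
      rw [sub_eq_zero] at h; rw [← h]
    rw [norm_mul, norm_mul_cexp_neg, Complex.norm_real, Complex.norm_real,
      Real.norm_of_nonneg hr.le, Real.norm_of_nonneg hs.1] at h1
    have := mul_le_mul_of_nonneg_right hs.2 (norm_nonneg a)
    linarith
  · simp only [cexp_neg_period]
  · have : (fun θ : ℝ => (fun p : ℝ × ℝ => (r : ℂ) - p.2 * (a * cexp (-(p.1 * I)))) (θ, 0)) =
        fun _ => (r : ℂ) := by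
      funext θ; simp
    rw [this]
    exact W0.const (by exact_mod_cast hr.ne')

/-- a zero free function on the disc -/
theorem w0_zero_free {r : ℝ} (hr : 0 < r) {K : ℂ → ℂ} (hK : ContinuousOn K (Metric.closedBall 0 r))
    (h0 : ∀ z, ‖z‖ ≤ r → K z ≠ 0) : W0 fun θ => K (cp r θ) := by
  have hle : ∀ (θ : ℝ) (s : ℝ), s ∈ Icc (0 : ℝ) 1 → ‖(s : ℂ) * cp r θ‖ ≤ r := by
    intro θ s hs
    rw [norm_mul, norm_cp hr.le, Complex.norm_real, Real.norm_of_nonneg hs.1]
    exact mul_le_of_le_one_left hr.le hs.2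
  have h := W0.homotopy01 (H := fun p : ℝ × ℝ => K (p.2 * cp r p.1)) ?_
    (fun θ s hs => h0 _ (hle θ s hs)) (fun θ s _ => ?_) ?_
  · simpa using h
  · refine hK.comp ?_ ?_
    · have := continuous_cp r
      fun_prop
    · rintro ⟨θ, s⟩ ⟨-, hs⟩
      exact mem_closedBall_zero_iff.2 (hle θ s hs)
  · simp only [cp_period]
  · have : (fun θ : ℝ => (fun p : ℝ × ℝ => K (p.2 * cp r p.1)) (θ, 0)) = fun _ => K 0 := by
      funext θ; simp
    rw [this]
    exact W0.const (h0 0 (by simpa using hr.le))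

theorem Fac.w0 {U : Set ℂ} {G : ℂ → ℂ} {r : ℝ} {n : ℕ} (hr : 0 < r)
    (hU : Metric.closedBall 0 r ⊆ U) (h : Fac U G r n) :
    W0 fun θ => G (cp r θ) * cexp (-(n * θ * I)) := by
  obtain ⟨a, K, ha, hK, hK0, hG⟩ := h
  have h1 : W0 fun θ => K (cp r θ) := w0_zero_free hr (hK.continuousOn.mono hU) hK0
  have h2 : W0 fun θ => ∏ i, ((r : ℂ) - a i * cexp (-(θ * I))) :=
    W0.prod Finset.univ (f := fun i θ => (r : ℂ) - a i * cexp (-(θ * I)))
      (fun i _ => w0_factor (ha i))
  refine (h2.mul h1).congr fun θ => ?_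
  have hmem : cp r θ ∈ U := hU (mem_closedBall_zero_iff.2 (norm_cp hr.le θ).le)
  rw [hG _ hmem]
  have h3 : cexp (-(n * θ * I)) = ∏ _i : Fin n, cexp (-(θ * I)) := by
    rw [Finset.prod_const, Finset.card_univ, Fintype.card_fin, ← exp_nat_mul]
    congr 1
    ring
  have h4 : ∀ i, (r : ℂ) - a i * cexp (-(θ * I)) = (cp r θ - a i) * cexp (-(θ * I)) := by
    intro i
    unfold cp
    rw [sub_mul, mul_assoc, ← exp_add]
    simp
  simp only [h4]
  rw [Finset.prod_mul_distrib, ← h3]
  ring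

theorem Fac.unique {U : Set ℂ} {G : ℂ → ℂ} {r : ℝ} {n m : ℕ} (hr : 0 < r)
    (hU : Metric.closedBall 0 r ⊆ U) (hn : Fac U G r n)
    (hm : W0 fun θ => G (cp r θ) * cexp (-(m * θ * I))) : n = m := by
  have h1 := hn.w0 hr hU
  have h2 : W0 fun θ => cexp (((n : ℤ) - (m : ℤ) : ℤ) * θ * I) := by
    refine (hm.div h1).congr fun θ => ?_
    have h3 : G (cp r θ) ≠ 0 := fun h => hm.ne_zero θ (by rw [h, zero_mul])
    rw [mul_div_mul_left _ _ h3, ← exp_sub]
    congr 1
    push_cast
    ring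
  have h3 := h2.int_eq_zero
  omega

/-! ### Existence of the factorisation -/

theorem fac_order_ne_top {U : Set ℂ} (hUo : IsOpen U) (hUc : IsPreconnected U) {G : ℂ → ℂ}
    (hG : DifferentiableOn ℂ G U) {z1 : ℂ} (hz1 : z1 ∈ U) (hGz : G z1 ≠ 0) {a : ℂ} (ha : a ∈ U) :
    analyticOrderAt G a ≠ ⊤ := by
  intro h
  rw [analyticOrderAt_eq_top] at h
  have h1 : Set.EqOn G 0 U :=
    (hG.analyticOnNhd hUo).eqOn_zero_of_preconnected_of_eventuallyEq_zero hUc ha h
  exact hGz (h1 hz1)

theorem fac_finite_zeros {U : Set ℂ} (hUo : IsOpen U) (hUc : IsPreconnected U) {G : ℂ → ℂ}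
    (hG : DifferentiableOn ℂ G U) {z1 : ℂ} (hz1 : z1 ∈ U) (hGz : G z1 ≠ 0) {r : ℝ}
    (hU : Metric.closedBall 0 r ⊆ U) : {u : ℂ | ‖u‖ ≤ r ∧ G u = 0}.Finite := by
  by_contra hinf
  have hinf' : {u : ℂ | ‖u‖ ≤ r ∧ G u = 0}.Infinite := hinf
  obtain ⟨x, hx, hacc⟩ := hinf'.exists_accPt_of_subset_isCompact (isCompact_closedBall (0 : ℂ) r)
    (fun u hu => mem_closedBall_zero_iff.2 hu.1)
  rw [accPt_iff_frequently_nhdsNE] at hacc
  refine hacc ?_
  have hne : ∀ᶠ u in 𝓝[≠] x, G u ≠ 0 := by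
    rcases (hG.analyticAt (hUo.mem_nhds (hU hx))).eventually_eq_zero_or_eventually_ne_zero with h | h
    · exfalso
      exact fac_order_ne_top hUo hUc hG hz1 hGz (hU hx) (analyticOrderAt_eq_top.2 h)
    · exact h
  filter_upwards [hne] with u hu hu'
  exact hu hu'.2

private noncomputable def tot (G : ℂ → ℂ) (Z : Finset ℂ) : ℕ := ∑ a ∈ Z, analyticOrderNatAt G a

private theorem fac_aux {U : Set ℂ} (hUo : IsOpen U) (hUc : IsPreconnected U) {r : ℝ} (hr : 0 < r)
    (hU : Metric.closedBall 0 r ⊆ U) (Z : Finset ℂ) (hZr : ∀ a ∈ Z, ‖a‖ ≤ r) (n : ℕ) :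
    ∀ G : ℂ → ℂ, DifferentiableOn ℂ G U → (∀ u : ℂ, ‖u‖ = r → G u ≠ 0) →
    (∀ u : ℂ, ‖u‖ ≤ r → G u = 0 → u ∈ Z) → tot G Z = n → Fac U G r n := by
  have hrC : ‖(r : ℂ)‖ = r := by rw [Complex.norm_real, Real.norm_of_nonneg hr.le]
  have hrU : (r : ℂ) ∈ U := hU (mem_closedBall_zero_iff.2 hrC.le)
  induction n with
  | zero =>
    intro G hG h1 hZ htot
    have hno : ∀ u : ℂ, ‖u‖ ≤ r → G u ≠ 0 := by
      intro u hu h
      have h3 := hZ u hu h
      have h4 : analyticOrderNatAt G u = 0 := by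
        unfold tot at htot
        exact (Finset.sum_eq_zero_iff.1 htot) u h3
      have huU : u ∈ U := hU (mem_closedBall_zero_iff.2 hu)
      have h5 : analyticOrderAt G u ≠ 0 :=
        analyticOrderAt_ne_zero.2 ⟨hG.analyticAt (hUo.mem_nhds huU), h⟩
      have h6 := fac_order_ne_top hUo hUc hG hrU (h1 _ hrC) huU
      unfold analyticOrderNatAt at h4
      rw [ENat.toNat_eq_zero] at h4
      rcases h4 with h4 | h4
      · exact h5 h4
      · exact h6 h4
    exact ⟨fun i => i.elim0, G, fun i => i.elim0, hG, hno, fun z _ => by simp⟩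
  | succ n ih =>
    intro G hG h1 hZ htot
    have hex : ∃ a ∈ Z, analyticOrderNatAt G a ≠ 0 := by
      by_contra hcon
      push Not at hcon
      unfold tot at htot
      rw [Finset.sum_eq_zero hcon] at htot
      omega
    obtain ⟨a, haZ, hord⟩ := hex
    have har := hZr a haZ
    have haU : a ∈ U := hU (mem_closedBall_zero_iff.2 har)
    have hGa : G a = 0 := by
      by_contra hGa
      have : analyticOrderAt G a = 0 := analyticOrderAt_eq_zero.2 (Or.inr hGa)
      unfold analyticOrderNatAt at hord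
      rw [this] at hord
      exact hord rfl
    have har' : ‖a‖ < r := lt_of_le_of_ne har fun h => h1 a h hGa
    have hGH : ∀ z, G z = (z - a) * dslope G a z := by
      intro z
      have := sub_smul_dslope G a z
      rw [hGa, sub_zero, smul_eq_mul] at this
      exact this.symm
    have hH : DifferentiableOn ℂ (dslope G a) U :=
      (Complex.differentiableOn_dslope (hUo.mem_nhds haU)).2 hG
    have hne1 : ∀ u : ℂ, ‖u‖ = r → dslope G a u ≠ 0 := fun u hu h =>
      h1 u hu (by rw [hGH, h, mul_zero])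
    have hmul : ∀ b ∈ Z, analyticOrderNatAt G b = analyticOrderNatAt (fun z => z - a) b +
        analyticOrderNatAt (dslope G a) b := by
      intro b hb
      have hbU : b ∈ U := hU (mem_closedBall_zero_iff.2 (hZr b hb))
      have h3 : G = (fun z => z - a) * dslope G a := funext hGH
      have h4 : AnalyticAt ℂ (fun z : ℂ => z - a) b := by fun_prop
      conv_lhs => rw [h3]
      refine analyticOrderNatAt_mul h4 (hH.analyticAt (hUo.mem_nhds hbU)) ?_
        (fac_order_ne_top hUo hUc hH hrU (hne1 _ hrC) hbU)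
      intro h
      rw [analyticOrderAt_eq_top] at h
      have h50 : AnalyticOnNhd ℂ (fun z : ℂ => z - a) Set.univ := fun z _ =>
        analyticAt_id.sub analyticAt_const
      have h5 : Set.EqOn (fun z : ℂ => z - a) 0 Set.univ :=
        h50.eqOn_zero_of_preconnected_of_eventuallyEq_zero isPreconnected_univ (Set.mem_univ b) h
      have h6 := h5 (Set.mem_univ (a + 1))
      simp at h6
    have hone : analyticOrderNatAt (fun z => z - a) a = 1 := by
      have h3 : analyticOrderAt (fun z : ℂ => z - a) a = ((1 : ℕ) : ℕ∞) := by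
        rw [AnalyticAt.analyticOrderAt_eq_natCast (by fun_prop)]
        refine ⟨fun _ => 1, analyticAt_const, one_ne_zero, Eventually.of_forall fun z => ?_⟩
        simp
      unfold analyticOrderNatAt
      rw [h3]
      rfl
    have hzero : ∀ b, b ≠ a → analyticOrderNatAt (fun z => z - a) b = 0 := by
      intro b hb
      have h3 : analyticOrderAt (fun z : ℂ => z - a) b = 0 := by
        rw [analyticOrderAt_eq_zero]
        exact Or.inr (sub_ne_zero.2 hb)
      unfold analyticOrderNatAt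
      rw [h3]
      rfl
    have htot' : tot (dslope G a) Z = n := by
      have h3 : tot G Z = 1 + tot (dslope G a) Z := by
        unfold tot
        rw [Finset.sum_congr rfl hmul, Finset.sum_add_distrib]
        congr 1
        rw [Finset.sum_eq_single a (fun b _ hb => hzero b hb) (fun h => absurd haZ h), hone]
      omega
    obtain ⟨b, K, hb, hK, hK0, hKG⟩ := ih (dslope G a) hH hne1
      (fun u hu h => hZ u hu (by rw [hGH, h, mul_zero])) htot'
    refine ⟨Fin.cons a b, K, fun i => ?_, hK, hK0, fun z hz => ?_⟩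
    · refine Fin.cases ?_ (fun j => ?_) i
      · simpa using har'
      · simpa using hb j
    · rw [hGH, hKG z hz, Fin.prod_univ_succ]
      simp only [Fin.cons_zero, Fin.cons_succ]
      ring

/-- a factorisation exists -/
theorem fac_exists {U : Set ℂ} (hUo : IsOpen U) (hUc : IsPreconnected U) {r : ℝ} (hr : 0 < r)
    (hU : Metric.closedBall 0 r ⊆ U) {G : ℂ → ℂ} (hG : DifferentiableOn ℂ G U)
    (h1 : ∀ u : ℂ, ‖u‖ = r → G u ≠ 0) : ∃ n, Fac U G r n := by
  have hrC : ‖(r : ℂ)‖ = r := by rw [Complex.norm_real, Real.norm_of_nonneg hr.le]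
  have hrU : (r : ℂ) ∈ U := hU (mem_closedBall_zero_iff.2 hrC.le)
  have hf := fac_finite_zeros hUo hUc hG hrU (h1 _ hrC) hU
  refine ⟨_, fac_aux hUo hUc hr hU hf.toFinset (fun a ha => ?_) _ G hG h1 (fun u hu h => ?_) rfl⟩
  · exact (hf.mem_toFinset.1 ha).1
  · exact hf.mem_toFinset.2 ⟨hu, h⟩

/-- winding number `k` gives exactly `k` zeros -/
theorem fac_of_w0 {U : Set ℂ} (hUo : IsOpen U) (hUc : IsPreconnected U) {r : ℝ} (hr : 0 < r)
    (hU : Metric.closedBall 0 r ⊆ U) {G : ℂ → ℂ} (hG : DifferentiableOn ℂ G U) {k : ℕ}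
    (h : W0 fun θ => G (cp r θ) * cexp (-(k * θ * I))) : Fac U G r k := by
  have h1 : ∀ u : ℂ, ‖u‖ = r → G u ≠ 0 := by
    intro u hu h2
    have h3 : cp r (Complex.arg u) = u := by
      unfold cp
      rw [← hu]
      exact Complex.norm_mul_exp_arg_mul_I u
    exact h.ne_zero (Complex.arg u) (by rw [h3, h2, zero_mul])
  obtain ⟨n, hn⟩ := fac_exists hUo hUc hr hU hG h1
  have := hn.unique hr hU h
  rw [← this]
  exact hn

/-- zero winding number: no zero -/
theorem ne_zero_of_w0 {U : Set ℂ} (hUo : IsOpen U) (hUc : IsPreconnected U) {r : ℝ} (hr : 0 < r)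
    (hU : Metric.closedBall 0 r ⊆ U) {G : ℂ → ℂ} (hG : DifferentiableOn ℂ G U)
    (h : W0 fun θ => G (cp r θ)) : ∀ z, ‖z‖ ≤ r → G z ≠ 0 := by
  have h1 : W0 fun θ => G (cp r θ) * cexp (-(((0 : ℕ) : ℂ) * θ * I)) := by
    refine h.congr fun θ => ?_
    simp
  obtain ⟨a, K, -, -, hK0, hG'⟩ := fac_of_w0 hUo hUc hr hU hG h1
  intro z hz
  rw [hG' z (hU (mem_closedBall_zero_iff.2 hz))]
  simpa using hK0 z hz

/-! ### Entire functions: all counts attained means simple zeros of distinct moduli -/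

theorem Fac.ne_zero {G : ℂ → ℂ} {r : ℝ} {n : ℕ} (h : Fac univ G r n) {z : ℂ} (hz : ‖z‖ = r) :
    G z ≠ 0 := by
  obtain ⟨a, K, ha, -, hK0, hG⟩ := h
  rw [hG z (mem_univ z)]
  refine mul_ne_zero (Finset.prod_ne_zero_iff.2 fun i _ => ?_) (hK0 z hz.le)
  intro h
  have h1 := ha i
  rw [sub_eq_zero] at h
  rw [← h, hz] at h1
  exact lt_irrefl _ h1

/-- append factors to a factorisation -/
theorem Fac.append {G K : ℂ → ℂ} {r : ℝ} {n m : ℕ} (a : Fin n → ℂ) (ha : ∀ i, ‖a i‖ < r)
    (hG : ∀ z, G z = (∏ i, (z - a i)) * K z) (hK : Fac univ K r m) : Fac univ G r (n + m) := by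
  obtain ⟨b, K', hb, hK', hK0, hKK⟩ := hK
  refine ⟨Fin.append a b, K', fun i => ?_, hK', hK0, fun z hz => ?_⟩
  · refine Fin.addCases (fun j => ?_) (fun j => ?_) i
    · rw [Fin.append_left]; exact ha j
    · rw [Fin.append_right]; exact hb j
  · rw [hG, hKK z hz, Fin.prod_univ_add]
    simp only [Fin.append_left, Fin.append_right]
    ring

theorem fac_uniq {G : ℂ → ℂ} {r : ℝ} (hr : 0 < r) {n m : ℕ} (hn : Fac univ G r n)
    (hm : Fac univ G r m) : n = m :=
  hn.unique hr (subset_univ _) (hm.w0 hr (subset_univ _))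

/-- If for every `k` some circle about `0` has exactly `k` zeros inside, then the zeros are simple
and have distinct moduli. -/
theorem simple_of_fac {G : ℂ → ℂ} (hG : Differentiable ℂ G) (hG0 : G 0 ≠ 0)
    (h : ∀ k, ∃ r, 0 < r ∧ Fac univ G r k) {z : ℂ} (hz : G z = 0) :
    deriv G z ≠ 0 ∧ ∀ w, G w = 0 → ‖w‖ = ‖z‖ → w = z := by
  have hz0 : 0 < ‖z‖ := by
    rw [norm_pos_iff]
    rintro rfl
    exact hG0 hz
  -- a radius just below `‖z‖`
  obtain ⟨r', hr'0, hr'z, hr'⟩ : ∃ r', 0 < r' ∧ r' < ‖z‖ ∧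
      ∀ u : ℂ, r' ≤ ‖u‖ → ‖u‖ < ‖z‖ → G u ≠ 0 := by
    have hf := fac_finite_zeros isOpen_univ isPreconnected_univ hG.differentiableOn (mem_univ 0) hG0
      (subset_univ (Metric.closedBall 0 ‖z‖))
    have hf' : ((fun u : ℂ => ‖u‖) '' {u : ℂ | ‖u‖ < ‖z‖ ∧ G u = 0}).Finite := by
      refine Set.Finite.image _ (hf.subset ?_)
      rintro u ⟨h1, h2⟩
      exact ⟨h1.le, h2⟩
    obtain ⟨b, hb⟩ : ∃ b, b < ‖z‖ ∧ ∀ x ∈ ((fun u : ℂ => ‖u‖) '' {u : ℂ | ‖u‖ < ‖z‖ ∧ G u = 0}),
        x ≤ b := by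
      rcases Set.eq_empty_or_nonempty ((fun u : ℂ => ‖u‖) '' {u : ℂ | ‖u‖ < ‖z‖ ∧ G u = 0}) with
        he | hne
      · exact ⟨0, hz0, fun x hx => by rw [he] at hx; exact absurd hx (Set.notMem_empty x)⟩
      · obtain ⟨b, hb1, hb2⟩ := Set.exists_max_image _ id hf' hne
        refine ⟨b, ?_, fun x hx => hb2 x hx⟩
        obtain ⟨u, ⟨h1, -⟩, rfl⟩ := hb1
        exact h1
    refine ⟨(max b 0 + ‖z‖) / 2, ?_, ?_, ?_⟩
    · have := le_max_right b 0
      linarith
    · have : max b 0 < ‖z‖ := max_lt hb.1 hz0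
      linarith
    · intro u h1 h2 h3
      have h4 := hb.2 ‖u‖ ⟨u, ⟨h2, h3⟩, rfl⟩
      have h5 := le_max_left b 0
      have : max b 0 < ‖z‖ := max_lt hb.1 hz0
      linarith
  obtain ⟨n, hn⟩ := fac_exists isOpen_univ isPreconnected_univ hr'0 (subset_univ _)
    hG.differentiableOn (fun u hu => hr' u hu.ge (by rw [hu]; exact hr'z))
  obtain ⟨r, hr0, hr⟩ := h (n + 1)
  have hne : ‖z‖ ≠ r := fun hzr => hr.ne_zero hzr hz
  have hrz : ‖z‖ < r := by
    by_contra hcon
    have hlt : r < ‖z‖ := lt_of_le_of_ne (not_lt.1 hcon) (Ne.symm hne)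
    -- all `n + 1` zeros are inside `r'`
    obtain ⟨a, K, ha, hK, hK0, hGK⟩ := hr
    have hGa : ∀ i, G (a i) = 0 := by
      intro i
      rw [hGK _ (mem_univ _), Finset.prod_eq_zero (Finset.mem_univ i) (sub_self _), zero_mul]
    have ha' : ∀ i, ‖a i‖ < r' := by
      intro i
      by_contra h1
      exact hr' (a i) (not_lt.1 h1) ((ha i).trans hlt) (hGa i)
    obtain ⟨m, hm⟩ := fac_exists isOpen_univ isPreconnected_univ hr'0 (subset_univ _)
      hK (fun u hu h1 => hr' u hu.ge (by rw [hu]; exact hr'z)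
        (by rw [hGK _ (mem_univ _), h1, mul_zero]))
    have := fac_uniq hr'0 hn (Fac.append a ha' (fun z => hGK z (mem_univ z)) hm)
    omega
  -- the factorisation at `r'`
  obtain ⟨b, K, hb, hK, hK0, hGK⟩ := hn
  have hKd : Differentiable ℂ K := differentiableOn_univ.1 hK
  have hprod : ∀ u : ℂ, r' ≤ ‖u‖ → ∏ i, (u - b i) ≠ 0 := by
    intro u hu
    refine Finset.prod_ne_zero_iff.2 fun i _ h1 => ?_
    rw [sub_eq_zero] at h1
    have := hb i
    rw [← h1] at this
    linarith
  have hKz : K z = 0 := by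
    have h1 := hGK z (mem_univ z)
    rw [hz] at h1
    exact (mul_eq_zero.1 h1.symm).resolve_left (hprod z hr'z.le)
  -- a second zero is impossible
  have key : ∀ w : ℂ, ‖w‖ = ‖z‖ → dslope K z w ≠ 0 := by
    intro w hw h1
    have hd : Differentiable ℂ (dslope K z) := by
      have := (Complex.differentiableOn_dslope (s := Set.univ) (f := K) (c := z)
        Filter.univ_mem).2 hKd.differentiableOn
      exact differentiableOn_univ.1 this
    have hd2 : Differentiable ℂ (dslope (dslope K z) w) := by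
      have := (Complex.differentiableOn_dslope (s := Set.univ) (f := dslope K z) (c := w)
        Filter.univ_mem).2 hd.differentiableOn
      exact differentiableOn_univ.1 this
    have e1 : ∀ u, K u = (u - z) * dslope K z u := by
      intro u
      have := sub_smul_dslope K z u
      rw [hKz, sub_zero, smul_eq_mul] at this
      exact this.symm
    have e2 : ∀ u, dslope K z u = (u - w) * dslope (dslope K z) w u := by
      intro u
      have := sub_smul_dslope (dslope K z) w u
      rw [h1, sub_zero, smul_eq_mul] at this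
      exact this.symm
    have hGu : ∀ u, G u = (∏ i, (u - Fin.append b ![z, w] i)) * dslope (dslope K z) w u := by
      intro u
      rw [hGK u (mem_univ u), e1, e2, Fin.prod_univ_add]
      simp only [Fin.append_left, Fin.append_right, Fin.prod_univ_two, Matrix.cons_val_zero,
        Matrix.cons_val_one]
      ring
    have hap : ∀ i, ‖Fin.append b ![z, w] i‖ < r := by
      intro i
      refine Fin.addCases (fun j => ?_) (fun j => ?_) i
      · rw [Fin.append_left]; exact (hb j).trans (hr'z.trans hrz)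
      · rw [Fin.append_right]
        fin_cases j
        · simpa using hrz
        · simpa [hw] using hrz
    obtain ⟨m, hm⟩ := fac_exists isOpen_univ isPreconnected_univ hr0 (subset_univ _)
      hd2.differentiableOn (fun u hu h2 => hr.ne_zero hu (by rw [hGu, h2, mul_zero]))
    have := fac_uniq hr0 hr (Fac.append _ hap hGu hm)
    omega
  constructor
  · intro h1
    refine key z rfl ?_
    rw [dslope_same]
    have h2 : deriv G z = (∏ i, (z - b i)) * deriv K z := by
      have h3 : G = fun u => (∏ i, (u - b i)) * K u := funext fun u => hGK u (mem_univ u)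
      have h4 : DifferentiableAt ℂ (fun u : ℂ => ∏ i, (u - b i)) z := by fun_prop
      rw [h3, deriv_fun_mul h4 (hKd z), hKz, mul_zero, zero_add]
    rw [h1] at h2
    exact (mul_eq_zero.1 h2.symm).resolve_left (hprod z hr'z.le)
  · intro w hw hwz
    by_contra hne2
    have hKw : K w = 0 := by
      have h1 := hGK w (mem_univ w)
      rw [hw] at h1
      exact (mul_eq_zero.1 h1.symm).resolve_left (hprod w (by rw [hwz]; exact hr'z.le))
    refine key w hwz ?_
    rw [dslope_of_ne _ hne2, slope_def_field, hKw, hKz]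
    simp

end SokamIn

end

/-! ### Lib_MP_af4de1_in.Local -/

section
namespace SokamF
end SokamF
/-!
# The first zeros: uniqueness, conjugation, persistence
-/

set_option autoImplicit false

open Complex Set Filter Topology SokamF

namespace SokamIn

/-! ### Elementary properties -/

theorem First.lt {q : ℂ} {k : ℕ} {z : ℕ → ℂ} (h : First q k z) {i j : ℕ} (hij : i < j)
    (hj : j ≤ k) : ‖z i‖ < ‖z j‖ := by
  induction j, hij using Nat.le_induction with
  | base => exact h.mono i (by omega)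
  | succ j hj' ih => exact (ih (by omega)).trans (h.mono j (by omega))

theorem First.le {q : ℂ} {k : ℕ} {z : ℕ → ℂ} (h : First q k z) {i j : ℕ} (hij : i ≤ j)
    (hj : j ≤ k) : ‖z i‖ ≤ ‖z j‖ := by
  rcases hij.lt_or_eq with h1 | h1
  · exact (h.lt h1 hj).le
  · rw [h1]

theorem First.mono_k {q : ℂ} {k j : ℕ} {z : ℕ → ℂ} (h : First q k z) (hj : j ≤ k) :
    First q j z where
  zero i hi := h.zero i (hi.trans hj)
  simple i hi := h.simple i (hi.trans hj)
  mono i hi := h.mono i (hi.trans_le hj)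
  complete w hw hwj := by
    obtain ⟨i, hi, rfl⟩ := h.complete w hw (hwj.trans (h.le hj le_rfl))
    refine ⟨i, ?_, rfl⟩
    by_contra hcon
    exact absurd hwj (not_le.2 (h.lt (not_le.1 hcon) hi))

theorem first_unique {q : ℂ} {k : ℕ} {z z' : ℕ → ℂ} (h : First q k z) (h' : First q k z') :
    ∀ i ≤ k, z i = z' i := by
  intro i
  induction i using Nat.strong_induction_on with
  | _ i ih =>
    intro hi
    have key : ∀ {a b : ℕ → ℂ}, First q k a → First q k b → (∀ j < i, a j = b j) →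
        ‖a i‖ ≤ ‖b i‖ := by
      intro a b ha hb hab
      by_contra hcon
      rw [not_le] at hcon
      obtain ⟨j, hj, hj2⟩ := ha.complete (b i) (hb.zero i hi) (hcon.le.trans (ha.le hi le_rfl))
      have hji : j < i := by
        by_contra h1
        have := ha.le (not_lt.1 h1) hj
        rw [← hj2] at this
        linarith
      rw [hab j hji] at hj2
      have := hb.lt hji hi
      rw [hj2] at this
      exact lt_irrefl _ this
    have h1 := key h h' fun j hj => ih j hj (hj.le.trans hi)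
    have h2 := key h' h fun j hj => (ih j hj (hj.le.trans hi)).symm
    have h3 : ‖z i‖ = ‖z' i‖ := le_antisymm h1 h2
    obtain ⟨j, hj, hj2⟩ := h'.complete (z i) (h.zero i hi) (h1.trans (h'.le hi le_rfl))
    have hji : j = i := by
      rcases lt_trichotomy j i with h4 | h4 | h4
      · have := h'.lt h4 hi
        rw [← hj2] at this
        linarith
      · exact h4
      · have := h'.lt h4 hj
        rw [← hj2] at this
        linarith
    rw [hji] at hj2
    exact hj2

theorem F_conj (q z : ℂ) : F (starRingEnd ℂ q) (starRingEnd ℂ z) = starRingEnd ℂ (F q z) := by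
  unfold F
  rw [Complex.conj_tsum]
  refine tsum_congr fun n => ?_
  simp

theorem First.conj {q : ℂ} {k : ℕ} {z : ℕ → ℂ} (h : First q k z) :
    First (starRingEnd ℂ q) k (fun i => starRingEnd ℂ (z i)) where
  zero i hi := by rw [F_conj, h.zero i hi, map_zero]
  simple i hi := by
    rw [← map_mul, F_conj]
    intro h1
    exact h.simple i hi ((map_eq_zero _).1 h1)
  mono i hi := by
    simp only [Complex.norm_conj]
    exact h.mono i hi
  complete w hw hwk := by
    simp only [Complex.norm_conj] at hwk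
    obtain ⟨i, hi, hi2⟩ := h.complete (starRingEnd ℂ w) (by
      have := F_conj (starRingEnd ℂ q) w
      rw [Complex.conj_conj] at this
      rw [this, hw, map_zero]) (by rw [Complex.norm_conj]; exact hwk)
    refine ⟨i, hi, ?_⟩
    rw [← hi2, Complex.conj_conj]

theorem First.ne_zero {q : ℂ} {k : ℕ} {z : ℕ → ℂ} (h : First q k z) {i : ℕ} (hi : i ≤ k) :
    z i ≠ 0 := by
  intro h0
  have := h.zero i hi
  rw [h0, F_zero] at this
  exact one_ne_zero this

theorem First.norm_pos {q : ℂ} {k : ℕ} {z : ℕ → ℂ} (h : First q k z) {i : ℕ} (hi : i ≤ k) :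
    0 < ‖z i‖ := norm_pos_iff.2 (h.ne_zero hi)

/-! ### Uniform continuity in `q` -/

theorem unif {q : ℂ} (hq : ‖q‖ ≤ 1) {C : Set ℂ} (hC : IsCompact C) {η : ℝ} (hη : 0 < η) :
    ∃ δ > 0, ∀ q' : ℂ, ‖q'‖ ≤ 1 → ‖q' - q‖ < δ → ∀ w ∈ C, ‖F q' w - F q w‖ < η := by
  have hf : ContinuousOn (Function.uncurry fun (x : ℂ) (z : ℂ) => F x z)
      ({x : ℂ | ‖x‖ ≤ 1} ×ˢ C) :=
    continuousOn_F.mono fun p hp => hp.1
  obtain ⟨v, hv, hv2⟩ := hC.mem_uniformity_of_prod hf (show q ∈ {x : ℂ | ‖x‖ ≤ 1} from hq)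
    (Metric.dist_mem_uniformity hη)
  obtain ⟨δ, hδ, hδv⟩ := Metric.mem_nhdsWithin_iff.1 hv
  refine ⟨δ, hδ, fun q' hq' hqq w hw => ?_⟩
  have h1 : q' ∈ v := hδv ⟨by rw [Metric.mem_ball, dist_eq_norm]; exact hqq, hq'⟩
  have h2 : dist (F q' w) (F q w) < η := hv2 q' h1 w hw
  rwa [dist_eq_norm] at h2

theorem ne_near {q : ℂ} (hq : ‖q‖ ≤ 1) {C : Set ℂ} (hC : IsCompact C)
    (h0 : ∀ w ∈ C, F q w ≠ 0) :
    ∃ δ > 0, ∀ q' : ℂ, ‖q'‖ ≤ 1 → ‖q' - q‖ < δ → ∀ w ∈ C, F q' w ≠ 0 := by
  rcases C.eq_empty_or_nonempty with he | hne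
  · exact ⟨1, one_pos, fun q' _ _ w hw => by rw [he] at hw; exact absurd hw (Set.notMem_empty w)⟩
  · obtain ⟨x0, hx0, hmin⟩ := hC.exists_isMinOn hne
      (SokamRay.differentiable_F hq).continuous.norm.continuousOn
    have hm : 0 < ‖F q x0‖ := norm_pos_iff.2 (h0 x0 hx0)
    obtain ⟨δ, hδ, H⟩ := unif hq hC hm
    refine ⟨δ, hδ, fun q' hq' hqq w hw h1 => ?_⟩
    have h2 := H q' hq' hqq w hw
    rw [h1, zero_sub, norm_neg] at h2
    exact absurd (show ‖F q x0‖ ≤ ‖F q w‖ from hmin hw) (not_le.2 h2)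

/-! ### One zero in a small disc -/

theorem fac_one {G : ℂ → ℂ} {r : ℝ} (hr : 0 < r) (hG : Differentiable ℂ G) (h0 : G 0 = 0)
    (h1 : deriv G 0 ≠ 0) (h2 : ∀ w, ‖w‖ ≤ r → G w = 0 → w = 0) : Fac univ G r 1 := by
  have hH : DifferentiableOn ℂ (dslope G 0) univ :=
    (Complex.differentiableOn_dslope (s := Set.univ) (f := G) (c := 0)
      Filter.univ_mem).2 hG.differentiableOn
  have e1 : ∀ u, G u = (u - 0) * dslope G 0 u := by
    intro u
    have := sub_smul_dslope G 0 u
    rw [h0, sub_zero (G u), smul_eq_mul] at this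
    exact this.symm
  refine ⟨fun _ => 0, dslope G 0, fun _ => by simpa using hr, hH, fun w hw h3 => ?_,
    fun w _ => by rw [e1]; simp⟩
  have h4 := h2 w hw (by rw [e1, h3, mul_zero])
  rw [h4, dslope_same] at h3
  exact h1 h3

theorem Fac.one {G : ℂ → ℂ} {r : ℝ} (h : Fac univ G r 1) :
    ∃ a, ‖a‖ < r ∧ G a = 0 ∧ deriv G a ≠ 0 ∧ ∀ w, ‖w‖ ≤ r → G w = 0 → w = a := by
  obtain ⟨a, K, ha, hK, hK0, hG⟩ := h
  have hG' : ∀ z, G z = (z - a 0) * K z := fun z => by
    rw [hG z (mem_univ z)]; simp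
  have hKd : Differentiable ℂ K := differentiableOn_univ.1 hK
  refine ⟨a 0, ha 0, by rw [hG', sub_self, zero_mul], ?_, fun w hw h1 => ?_⟩
  · have h2 : HasDerivAt (fun z => (z - a 0) * K z) (1 * K (a 0) + (a 0 - a 0) * deriv K (a 0))
        (a 0) := ((hasDerivAt_id (a 0)).sub_const (a 0)).mul (hKd (a 0)).hasDerivAt
    have h3 : G = fun z => (z - a 0) * K z := funext hG'
    rw [h3, h2.deriv, sub_self, zero_mul, add_zero, one_mul]
    exact hK0 _ (ha 0).le
  · rw [hG', mul_eq_zero] at h1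
    exact sub_eq_zero.1 (h1.resolve_right (hK0 w hw))

theorem norm_segment {q q' : ℂ} (hq : ‖q‖ ≤ 1) (hq' : ‖q'‖ ≤ 1) {s : ℝ} (hs : s ∈ Icc (0 : ℝ) 1) :
    ‖q + s * (q' - q)‖ ≤ 1 := by
  have h1 : q + s * (q' - q) = ((1 - s : ℝ) : ℂ) * q + (s : ℂ) * q' := by push_cast; ring
  rw [h1]
  refine (norm_add_le _ _).trans ?_
  rw [norm_mul, norm_mul, Complex.norm_real, Complex.norm_real, Real.norm_of_nonneg hs.1,
    Real.norm_of_nonneg (by linarith [hs.2])]
  nlinarith only [hq, hq', hs.1, hs.2]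

/-- the number of zeros in a disc about `c` is locally constant in `q` -/
theorem fac_stable {q q' c : ℂ} (hq : ‖q‖ ≤ 1) (hq' : ‖q'‖ ≤ 1) {r : ℝ} (hr : 0 < r) {n : ℕ}
    (h : Fac univ (fun u => F q (c + u)) r n)
    (hne : ∀ s ∈ Icc (0 : ℝ) 1, ∀ u : ℂ, ‖u‖ = r → F (q + s * (q' - q)) (c + u) ≠ 0) :
    Fac univ (fun u => F q' (c + u)) r n := by
  have h1 := h.w0 hr (subset_univ _)
  have h2 := W0.homotopy01 (H := fun p : ℝ × ℝ =>
    F (q + p.2 * (q' - q)) (c + cp r p.1) * cexp (-(n * p.1 * I))) ?_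
    (fun θ s hs => mul_ne_zero (hne s hs _ (norm_cp hr.le θ)) (exp_ne_zero _))
    (fun θ s _ => ?_) ?_
  · refine fac_of_w0 isOpen_univ isPreconnected_univ hr (subset_univ _) ?_ ?_
    · have := SokamRay.differentiable_F hq'
      exact (this.comp (by fun_prop)).differentiableOn
    · refine h2.congr fun θ => ?_
      simp
  · refine ContinuousOn.mul ?_ (by fun_prop)
    have hcp := continuous_cp r
    refine continuousOn_F.comp (f := fun p : ℝ × ℝ => (q + p.2 * (q' - q), c + cp r p.1))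
      (by fun_prop) ?_
    rintro ⟨θ, s⟩ ⟨-, hs⟩
    exact norm_segment hq hq' hs
  · simp only [cp_period]
    congr 1
    have : -(n * ((θ + 2 * Real.pi : ℝ) : ℂ) * I) = -(n * θ * I) + (-(n : ℤ) : ℤ) * (2 * Real.pi * I) := by
      push_cast; ring
    rw [this, exp_add, exp_int_mul_two_pi_mul_I, mul_one]
  · refine h1.congr fun θ => ?_
    simp

/-! ### Persistence -/

theorem exists_pos_le (g : ℕ → ℝ) (k : ℕ) (hg : ∀ i < k, 0 < g i) : ∃ ε > 0, ∀ i < k, ε ≤ g i := by
  induction k with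
  | zero => exact ⟨1, one_pos, fun i hi => absurd hi (Nat.not_lt_zero i)⟩
  | succ k ih =>
    obtain ⟨ε, hε, h⟩ := ih fun i hi => hg i (by omega)
    refine ⟨min ε (g k), lt_min hε (hg k (by omega)), fun i hi => ?_⟩
    rcases (Nat.lt_succ_iff_lt_or_eq.1 hi) with h1 | h1
    · exact (min_le_left _ _).trans (h i h1)
    · rw [h1]; exact min_le_right _ _

theorem gap_above {G : ℂ → ℂ} (hG : Differentiable ℂ G) (hG0 : G 0 ≠ 0) (r : ℝ) :
    ∃ r' > r, ∀ w, r < ‖w‖ → ‖w‖ ≤ r' → G w ≠ 0 := by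
  have hf := fac_finite_zeros isOpen_univ isPreconnected_univ hG.differentiableOn (mem_univ 0) hG0
    (subset_univ (Metric.closedBall 0 (r + 1)))
  have hf' : ((fun u : ℂ => ‖u‖) '' {u : ℂ | (‖u‖ ≤ r + 1 ∧ G u = 0) ∧ r < ‖u‖}).Finite := by
    refine Set.Finite.image _ (hf.subset ?_)
    rintro u ⟨h1, h2⟩
    exact h1
  rcases Set.eq_empty_or_nonempty
    ((fun u : ℂ => ‖u‖) '' {u : ℂ | (‖u‖ ≤ r + 1 ∧ G u = 0) ∧ r < ‖u‖}) with he | hne
  · refine ⟨r + 1, by linarith, fun w h1 h2 h3 => ?_⟩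
    have : ‖w‖ ∈ ((fun u : ℂ => ‖u‖) '' {u : ℂ | (‖u‖ ≤ r + 1 ∧ G u = 0) ∧ r < ‖u‖}) :=
      ⟨w, ⟨⟨h2, h3⟩, h1⟩, rfl⟩
    rw [he] at this
    exact Set.notMem_empty _ this
  · obtain ⟨b, hb1, hb2⟩ := Set.exists_min_image _ id hf' hne
    obtain ⟨u, ⟨⟨hu1, hu2⟩, hu3⟩, rfl⟩ := hb1
    refine ⟨(r + ‖u‖) / 2, by linarith, fun w h1 h2 h3 => ?_⟩
    have h4 : id ‖u‖ ≤ id ‖w‖ := hb2 ‖w‖ ⟨w, ⟨⟨by linarith, h3⟩, h1⟩, rfl⟩
    simp only [id] at h4
    linarith

/-- the first zeros persist under small changes of `q` -/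
theorem stable {q : ℂ} (hq : ‖q‖ ≤ 1) {k : ℕ} {z : ℕ → ℂ} (hz : First q k z) {ε : ℝ} (hε : 0 < ε) :
    ∃ δ > 0, ∀ q' : ℂ, ‖q'‖ ≤ 1 → ‖q' - q‖ < δ →
      ∃ z' : ℕ → ℂ, First q' k z' ∧ ∀ i ≤ k, ‖z' i - z i‖ < ε := by
  have hFd := SokamRay.differentiable_F hq
  obtain ⟨r0, hr0, hgap⟩ := gap_above hFd (by rw [F_zero]; exact one_ne_zero) ‖z k‖
  obtain ⟨e1, he1, h1⟩ := exists_pos_le (fun i => (‖z (i + 1)‖ - ‖z i‖) / 3) k
    (fun i hi => by have := hz.mono i hi; linarith)
  set e : ℝ := min e1 (min (ε / 2) (r0 - ‖z k‖)) with hedef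
  have he : 0 < e := lt_min he1 (lt_min (by linarith) (by linarith))
  have he1' : e ≤ e1 := min_le_left _ _
  have heε : e < ε := by
    have : e ≤ ε / 2 := (min_le_right _ _).trans (min_le_left _ _)
    linarith
  have her : ‖z k‖ + e ≤ r0 := by
    have : e ≤ r0 - ‖z k‖ := (min_le_right _ _).trans (min_le_right _ _)
    linarith
  have hgap3 : ∀ i j, i < j → j ≤ k → ‖z i‖ + 3 * e ≤ ‖z j‖ := by
    intro i j hij hj
    have h2 : ‖z (i + 1)‖ ≤ ‖z j‖ := hz.le (by omega) hj
    have h3 : e1 ≤ (‖z (i + 1)‖ - ‖z i‖) / 3 := h1 i (by omega)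
    linarith
  have hdist : ∀ i j, i ≤ k → j ≤ k → i ≠ j → 3 * e ≤ ‖z i - z j‖ := by
    intro i j hi hj hij
    rcases lt_or_gt_of_ne hij with h2 | h2
    · have h3 := hgap3 i j h2 hj
      have h4 := norm_sub_norm_le (z j) (z i)
      rw [norm_sub_rev] at h4
      linarith
    · have h3 := hgap3 j i h2 hi
      have h4 := norm_sub_norm_le (z i) (z j)
      linarith
  -- the compact set
  set C : Set ℂ := Metric.closedBall 0 r0 \ ⋃ i ∈ Finset.range (k + 1), Metric.ball (z i) e with hCdef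
  have hCc : IsCompact C := by
    refine (isCompact_closedBall (0 : ℂ) r0).diff ?_
    exact isOpen_biUnion fun i _ => Metric.isOpen_ball
  have hCmem : ∀ w, w ∈ C ↔ ‖w‖ ≤ r0 ∧ ∀ i ≤ k, e ≤ ‖w - z i‖ := by
    intro w
    rw [hCdef, Set.mem_sdiff, mem_closedBall_zero_iff, mem_iUnion₂]
    simp only [Finset.mem_range, Metric.mem_ball, dist_eq_norm, not_exists, not_lt,
      Nat.lt_succ_iff]
  have hC0 : ∀ w ∈ C, F q w ≠ 0 := by
    intro w hw h2
    rw [hCmem] at hw
    rcases le_or_gt ‖w‖ ‖z k‖ with h3 | h3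
    · obtain ⟨i, hi, hi2⟩ := hz.complete w h2 h3
      have := hw.2 i hi
      rw [hi2, sub_self, norm_zero] at this
      linarith
    · exact hgap w h3 hw.1 h2
  obtain ⟨δ, hδ, hne⟩ := ne_near hq hCc hC0
  refine ⟨δ, hδ, fun q' hq' hqq => ?_⟩
  have hsph : ∀ i ≤ k, ∀ u : ℂ, ‖u‖ = e → z i + u ∈ C := by
    intro i hi u hu
    rw [hCmem]
    constructor
    · refine (norm_add_le _ _).trans ?_
      rw [hu]
      have := hz.le hi le_rfl
      linarith
    · intro j hj
      by_cases hij : i = j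
      · rw [← hij, add_sub_cancel_left, hu]
      · have h2 := hdist i j hi hj hij
        have h3 : ‖z i - z j‖ ≤ ‖z i + u - z j‖ + ‖u‖ := by
          have : z i - z j = (z i + u - z j) - u := by ring
          rw [this]
          exact norm_sub_le _ _
        linarith
  have hfac : ∀ i ≤ k, Fac univ (fun u => F q' (z i + u)) e 1 := by
    intro i hi
    refine fac_stable hq hq' he (fac_one he (hFd.comp (by fun_prop)) ?_ ?_ ?_) ?_
    · simpa using hz.zero i hi
    · have h2 : HasDerivAt (fun u => F q (z i + u)) (F q (q * (z i + 0)) * 1) 0 := by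
        have h3 := (hasDerivAt_F hq (z i + 0)).comp (0 : ℂ)
          ((hasDerivAt_id (0 : ℂ)).const_add (z i))
        exact h3
      rw [h2.deriv, add_zero, mul_one]
      exact hz.simple i hi
    · intro w hw h2
      -- `z i + w` is a zero in the closed disc of radius `e`
      have h3 : ‖z i + w‖ ≤ r0 := by
        refine (norm_add_le _ _).trans ?_
        have := hz.le hi le_rfl
        linarith
      have h4 : ‖z i + w‖ ≤ ‖z k‖ := by
        by_contra h5
        exact hgap _ (not_le.1 h5) h3 h2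
      obtain ⟨j, hj, hj2⟩ := hz.complete _ h2 h4
      by_cases hij : i = j
      · rw [← hij] at hj2
        linear_combination hj2
      · exfalso
        have h5 := hdist i j hi hj hij
        have h6 : z i - z j = -w := by linear_combination hj2
        rw [h6, norm_neg] at h5
        linarith
    · intro s hs u hu
      refine hne _ (norm_segment hq hq' hs) ?_ _ (hsph i hi u hu)
      have : q + s * (q' - q) - q = s * (q' - q) := by ring
      rw [this, norm_mul, Complex.norm_real, Real.norm_of_nonneg hs.1]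
      have := mul_le_mul_of_nonneg_right hs.2 (norm_nonneg (q' - q))
      linarith
  have hex : ∀ i, ∃ a, i ≤ k → ‖a‖ < e ∧ F q' (z i + a) = 0 ∧ F q' (q' * (z i + a)) ≠ 0 ∧
      ∀ w, ‖w‖ ≤ e → F q' (z i + w) = 0 → w = a := by
    intro i
    by_cases hi : i ≤ k
    · obtain ⟨a, ha, ha0, ha1, ha2⟩ := (hfac i hi).one
      refine ⟨a, fun _ => ⟨ha, ha0, ?_, ha2⟩⟩
      have h2 : HasDerivAt (fun u => F q' (z i + u)) (F q' (q' * (z i + a)) * 1) a :=
        (hasDerivAt_F hq' (z i + a)).comp a ((hasDerivAt_id a).const_add (z i))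
      rw [h2.deriv, mul_one] at ha1
      exact ha1
    · exact ⟨0, fun h => absurd h hi⟩
  choose a ha using hex
  have hnorm : ∀ i ≤ k, |‖z i + a i‖ - ‖z i‖| < e := by
    intro i hi
    have h2 := abs_norm_sub_norm_le (z i + a i) (z i)
    rw [add_sub_cancel_left] at h2
    exact h2.trans_lt (ha i hi).1
  refine ⟨fun i => z i + a i, ⟨fun i hi => (ha i hi).2.1, fun i hi => (ha i hi).2.2.1,
    fun i hi => ?_, fun w hw hwk => ?_⟩, fun i hi => ?_⟩
  · have h2 := hnorm i (by omega)
    have h3 := hnorm (i + 1) (by omega)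
    have h4 := hgap3 i (i + 1) (by omega) (by omega)
    rw [abs_lt] at h2 h3
    linarith [h2.2, h3.1]
  · have h2 := hnorm k le_rfl
    rw [abs_lt] at h2
    have h3 : ‖w‖ ≤ r0 := by
      have := h2.2
      linarith
    have h4 : w ∉ C := fun h5 => hne q' hq' hqq w h5 hw
    rw [hCmem] at h4
    push Not at h4
    obtain ⟨i, hi, hi2⟩ := h4 h3
    refine ⟨i, hi, ?_⟩
    have h5 := (ha i hi).2.2.2 (w - z i) hi2.le (by rw [add_sub_cancel]; exact hw)
    rw [← h5]
    ring
  · rw [add_sub_cancel_left]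
    exact (ha i hi).1.trans heε

end SokamIn

end

/-! ### Lib_MP_af4de1_in.Hurw -/

section
/-!
# Rouche and Hurwitz
-/

set_option autoImplicit false

open Complex Set Filter Topology

namespace SokamIn

/-- Rouche -/
theorem rouche {G1 G2 : ℂ → ℂ} (h1 : Continuous G1) (h2 : Differentiable ℂ G2) {r : ℝ} (hr : 0 < r)
    {n : ℕ} (h : Fac univ G1 r n) (hlt : ∀ u : ℂ, ‖u‖ = r → ‖G2 u - G1 u‖ < ‖G1 u‖) :
    Fac univ G2 r n := by
  have hw := h.w0 hr (subset_univ _)
  have h3 := W0.homotopy01 (H := fun p : ℝ × ℝ =>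
    (G1 (cp r p.1) + p.2 * (G2 (cp r p.1) - G1 (cp r p.1))) * cexp (-(n * p.1 * I))) ?_
    (fun θ s hs => mul_ne_zero ?_ (exp_ne_zero _)) (fun θ s _ => ?_) ?_
  · refine fac_of_w0 isOpen_univ isPreconnected_univ hr (subset_univ _) h2.differentiableOn ?_
    refine h3.congr fun θ => ?_
    simp
  · have hcp := continuous_cp r
    have h2c := h2.continuous
    fun_prop
  · intro h0
    have h4 := hlt _ (norm_cp hr.le θ)
    have h5 : ‖G1 (cp r θ)‖ = ‖(s : ℂ) * (G2 (cp r θ) - G1 (cp r θ))‖ := by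
      rw [← norm_neg (G1 (cp r θ))]
      congr 1
      linear_combination -h0
    rw [norm_mul, Complex.norm_real, Real.norm_of_nonneg hs.1] at h5
    have := mul_le_mul_of_nonneg_right hs.2 (norm_nonneg (G2 (cp r θ) - G1 (cp r θ)))
    linarith
  · simp only [cp_period]
    congr 1
    have : -(n * ((θ + 2 * Real.pi : ℝ) : ℂ) * I) =
        -(n * θ * I) + (-(n : ℤ) : ℤ) * (2 * Real.pi * I) := by
      push_cast; ring
    rw [this, exp_add, exp_int_mul_two_pi_mul_I, mul_one]
  · refine hw.congr fun θ => ?_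
    simp

/-- a simple zero of an entire function is alone in a small disc -/
theorem isolated_simple {g : ℂ → ℂ} (hg : Differentiable ℂ g) {w : ℂ} (hw : g w = 0)
    (hw' : deriv g w ≠ 0) :
    ∃ r0 > 0, (∀ x ∈ Metric.closedBall w r0, g x = 0 → x = w) ∧
      ∀ x ∈ Metric.closedBall w r0, deriv g x ≠ 0 := by
  have hd : Differentiable ℂ (dslope g w) := by
    have := (Complex.differentiableOn_dslope (s := Set.univ) (f := g) (c := w)
      Filter.univ_mem).2 hg.differentiableOn
    exact differentiableOn_univ.1 this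
  have h1 : ∀ᶠ x in 𝓝 w, dslope g w x ≠ 0 :=
    hd.continuous.continuousAt.eventually_ne (by rw [dslope_same]; exact hw')
  have hdg : Continuous (deriv g) := hg.contDiff (n := 1) |>.continuous_deriv le_rfl
  have h2 : ∀ᶠ x in 𝓝 w, deriv g x ≠ 0 := hdg.continuousAt.eventually_ne hw'
  obtain ⟨ε, hε, hball⟩ := Metric.eventually_nhds_iff_ball.1 (h1.and h2)
  refine ⟨ε / 2, by positivity, fun x hx hx0 => ?_, fun x hx => ?_⟩
  · have h3 := (hball x (Metric.closedBall_subset_ball (by linarith) hx)).1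
    have h4 := sub_smul_dslope g w x
    rw [hx0, hw, sub_zero, smul_eq_mul, mul_eq_zero] at h4
    exact sub_eq_zero.1 (h4.resolve_right h3)
  · exact (hball x (Metric.closedBall_subset_ball (by linarith) hx)).2

/-- Hurwitz for a simple zero -/
theorem hurwitz_simple {ι : Type*} {l : Filter ι} {f : ι → ℂ → ℂ} {g : ℂ → ℂ}
    (hf : ∀ n, Differentiable ℂ (f n)) (hg : Differentiable ℂ g)
    (hfg : TendstoLocallyUniformly f g l) {w : ℂ} (hw : g w = 0) (hw' : deriv g w ≠ 0) :
    ∃ r0 > 0, ∀ r ∈ Ioc 0 r0, ∀ᶠ n in l, (∃! x, x ∈ Metric.ball w r ∧ f n x = 0) ∧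
      (∀ x ∈ Metric.ball w r, deriv (f n) x ≠ 0) ∧
      ∀ x ∈ Metric.closedBall w r, f n x = 0 → x ∈ Metric.ball w r := by
  obtain ⟨r0, hr0, hiso, hder⟩ := isolated_simple hg hw hw'
  refine ⟨r0, hr0, fun r hr => ?_⟩
  have hr' : 0 < r := hr.1
  have hfac : Fac univ (fun u => g (w + u)) r 1 := by
    refine fac_one hr' (hg.comp (by fun_prop)) (by simpa using hw) ?_ ?_
    · have h2 : HasDerivAt (fun u => g (w + u)) (deriv g (w + 0) * 1) 0 :=
        (hg (w + 0)).hasDerivAt.comp (0 : ℂ) ((hasDerivAt_id (0 : ℂ)).const_add w)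
      rw [h2.deriv, add_zero, mul_one]
      exact hw'
    · intro u hu h2
      have := hiso (w + u) (by
        rw [Metric.mem_closedBall, dist_eq_norm, add_sub_cancel_left]
        exact hu.trans hr.2) h2
      linear_combination this
  -- the minimum on the circle
  have hne : (Metric.sphere w r).Nonempty := NormedSpace.sphere_nonempty.2 hr'.le
  obtain ⟨x0, hx0, hmin⟩ := (isCompact_sphere w r).exists_isMinOn hne hg.continuous.norm.continuousOn
  have hx0' : g x0 ≠ 0 := by
    intro h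
    have := hiso x0 (Metric.closedBall_subset_closedBall hr.2 (Metric.sphere_subset_closedBall hx0)) h
    rw [this, Metric.mem_sphere, dist_self] at hx0
    linarith
  have hm : 0 < ‖g x0‖ := norm_pos_iff.2 hx0'
  have hunif : TendstoUniformlyOn f g l (Metric.sphere w r) :=
    (tendstoLocallyUniformlyOn_iff_tendstoUniformlyOn_of_compact (isCompact_sphere w r)).1
      hfg.tendstoLocallyUniformlyOn
  rw [Metric.tendstoUniformlyOn_iff] at hunif
  -- the derivatives
  obtain ⟨x1, hx1, hmin1⟩ := (isCompact_closedBall w r).exists_isMinOn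
    (Metric.nonempty_closedBall.2 hr'.le)
    ((hg.contDiff (n := 1)).continuous_deriv le_rfl).norm.continuousOn
  have hm1 : 0 < ‖deriv g x1‖ :=
    norm_pos_iff.2 (hder x1 (Metric.closedBall_subset_closedBall hr.2 hx1))
  have hderiv : TendstoLocallyUniformlyOn (deriv ∘ f) (deriv g) l univ :=
    (tendstoLocallyUniformlyOn_univ.2 hfg).deriv
      (Eventually.of_forall fun n => (hf n).differentiableOn) isOpen_univ
  have hunif1 : TendstoUniformlyOn (deriv ∘ f) (deriv g) l (Metric.closedBall w r) :=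
    (tendstoLocallyUniformlyOn_iff_tendstoUniformlyOn_of_compact (isCompact_closedBall w r)).1
      (hderiv.mono (subset_univ _))
  rw [Metric.tendstoUniformlyOn_iff] at hunif1
  filter_upwards [hunif _ hm, hunif1 _ hm1] with n hn hn1
  have hfacn : Fac univ (fun u => f n (w + u)) r 1 := by
    refine rouche (hg.continuous.comp (by fun_prop)) ((hf n).comp (by fun_prop)) hr' hfac
      fun u hu => ?_
    have hs : w + u ∈ Metric.sphere w r := by
      rw [Metric.mem_sphere, dist_eq_norm, add_sub_cancel_left, hu]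
    have h3 := hn _ hs
    rw [dist_comm, dist_eq_norm] at h3
    exact h3.trans_le (hmin hs)
  obtain ⟨a, ha, ha0, -, hauniq⟩ := hfacn.one
  refine ⟨⟨w + a, ⟨?_, ha0⟩, fun y hy => ?_⟩, fun x hx h3 => ?_, fun x hx hx0 => ?_⟩
  · rw [Metric.mem_ball, dist_eq_norm, add_sub_cancel_left]
    exact ha
  · obtain ⟨hy1, hy2⟩ := hy
    rw [Metric.mem_ball, dist_eq_norm] at hy1
    have := hauniq (y - w) hy1.le (by rw [add_sub_cancel]; exact hy2)
    rw [← this]
    ring
  · have h4 := hn1 x (Metric.ball_subset_closedBall hx)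
    rw [dist_eq_norm, Function.comp_apply, h3, sub_zero] at h4
    exact absurd (show ‖deriv g x1‖ ≤ ‖deriv g x‖ from hmin1 (Metric.ball_subset_closedBall hx))
      (not_le.2 h4)
  · rw [Metric.mem_closedBall, dist_eq_norm] at hx
    have := hauniq (x - w) hx (by rw [add_sub_cancel]; exact hx0)
    rw [Metric.mem_ball, dist_eq_norm, this]
    exact ha

end SokamIn

end

/-! ### Lib_MP_af4de1_in.Final -/

section
namespace SokamF
end SokamF
/-!
# From the arc `q = e^(iα)`, `0 < α ≤ π`, and the interior to the frozen statement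
-/

set_option autoImplicit false

open Complex Set Filter Topology SokamF

namespace SokamIn

theorem Dist.conj {q : ℂ} (h : Dist q) : Dist ((starRingEnd ℂ) q) := by
  have key : ∀ z, F ((starRingEnd ℂ) q) z = 0 → F q ((starRingEnd ℂ) z) = 0 := by
    intro z hz
    have h1 := F_conj q ((starRingEnd ℂ) z)
    rw [Complex.conj_conj, hz] at h1
    exact (map_eq_zero (starRingEnd ℂ)).1 h1.symm
  refine ⟨fun z hz h0 => ?_, fun z w hz hw hn => ?_⟩
  · refine h.1 _ (key z hz) ?_
    have h1 := F_conj q (q * (starRingEnd ℂ) z)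
    rw [map_mul, Complex.conj_conj, h0] at h1
    exact (map_eq_zero (starRingEnd ℂ)).1 h1.symm
  · have h1 := h.2 _ _ (key z hz) (key w hw) (by rwa [Complex.norm_conj, Complex.norm_conj])
    exact (starRingEnd ℂ).injective h1

/-- the circle from the upper arc -/
theorem circle_of_arc (h : ∀ α : ℝ, 0 < α → α ≤ Real.pi → Dist (cexp (α * I))) :
    ∀ q : ℂ, ‖q‖ = 1 → q ≠ 1 → Dist q := by
  intro q hq h1
  have hq0 : q ≠ 0 := by
    rintro rfl
    simp at hq
  have hexp : cexp (q.arg * I) = q := by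
    have := Complex.norm_mul_exp_arg_mul_I q
    rwa [hq, Complex.ofReal_one, one_mul] at this
  rcases lt_trichotomy q.arg 0 with h2 | h2 | h2
  · have h3 : Dist (cexp (((-q.arg : ℝ) : ℂ) * I)) :=
      h (-q.arg) (by linarith) (by linarith [Complex.neg_pi_lt_arg q])
    have h4 : (starRingEnd ℂ) (cexp (((-q.arg : ℝ) : ℂ) * I)) = q := by
      rw [← Complex.exp_conj, map_mul, Complex.conj_ofReal, Complex.conj_I]
      have : (((-q.arg : ℝ) : ℂ) * -I) = q.arg * I := by push_cast; ring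
      rw [this, hexp]
    have := h3.conj
    rwa [h4] at this
  · exfalso
    apply h1
    rw [← hexp, h2]
    simp
  · have := h q.arg h2 (Complex.arg_le_pi q)
    rwa [hexp] at this

/-- the frozen statement from the conclusion in terms of `F` -/
theorem frozen_of {q : ℂ} (hq : ‖q‖ ≤ 1) (h : ∀ z, F q z = 0 → F q (q * z) ≠ 0) (z : ℂ)
    (hz : (∑' k : ℕ, q ^ (k * (k - 1) / 2) * z ^ k / (Nat.factorial k : ℂ)) = 0) :
    deriv (fun w : ℂ => ∑' k : ℕ, q ^ (k * (k - 1) / 2) * w ^ k / (Nat.factorial k : ℂ)) z ≠ 0 := by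
  have h1 : deriv (F q) z = F q (q * z) := deriv_F hq z
  have h2 := h z hz
  rw [← h1] at h2
  exact h2

end SokamIn

end

/-! ### Lib_MP_af4de1_in.Winding -/

section
namespace SokamF
end SokamF
/-!
# The winding numbers of the zeros on a good circle

`q^i z_i = -(1-q)⁻¹ ∏_{l<i} (1 - z_l/z_i)/(1 - z_l/(q z_i)) · Q(z_i)/Q(q z_i)`, from
`F'(z_i) = F(q z_i)`, `F = ∏_{l≤i} (w - z_l) Q`.  Every factor has a continuous periodic logarithm.
-/

set_option autoImplicit false

open Complex Set Filter Topology SokamF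

namespace SokamIn

theorem norm_qq {ρ : ℝ} (hρ : 0 < ρ) (θ : ℝ) : ‖qq ρ θ 1‖ = ρ := by
  unfold qq
  rw [Complex.norm_exp]
  have : (((1 : ℝ) : ℂ) * (Real.log ρ + θ * I)).re = Real.log ρ := by simp
  rw [this, Real.exp_log hρ]

theorem continuous_qq (ρ : ℝ) : Continuous fun θ : ℝ => qq ρ θ 1 := by
  unfold qq
  fun_prop

theorem qq_period (ρ θ : ℝ) : qq ρ (θ + 2 * Real.pi) 1 = qq ρ θ 1 := by
  unfold qq
  have : (((1 : ℝ) : ℂ) * (Real.log ρ + ((θ + 2 * Real.pi : ℝ) : ℂ) * I)) =
      ((1 : ℝ) : ℂ) * (Real.log ρ + θ * I) + 2 * Real.pi * I := by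
    push_cast
    ring
  rw [this, exp_periodic]

theorem qq_ne_zero (ρ θ τ : ℝ) : qq ρ θ τ ≠ 0 := exp_ne_zero _

/-- joint continuity -/
theorem continuous_F_qq {ρ : ℝ} (hρ : 0 < ρ) (hρ1 : ρ ≤ 1) :
    Continuous (Function.uncurry fun (θ : ℝ) (w : ℂ) => F (qq ρ θ 1) w) := by
  have h1 : Continuous fun p : ℝ × ℂ => (qq ρ p.1 1, p.2) :=
    ((continuous_qq ρ).comp continuous_fst).prodMk continuous_snd
  exact continuousOn_F.comp_continuous h1 fun p => (norm_qq hρ p.1).trans_le hρ1

/-! ### Logarithms of the elementary factors -/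

/-! ### The quotients -/

/-- `f / ∏_{i<n} (w - a i)` -/
noncomputable def Qf (f : ℝ → ℂ → ℂ) (a : ℝ → ℕ → ℂ) : ℕ → ℝ → ℂ → ℂ
  | 0 => f
  | n + 1 => fun θ w => dslope (Qf f a n θ) (a θ n) w

section

variable {f : ℝ → ℂ → ℂ} {a : ℝ → ℕ → ℂ} {k : ℕ}

theorem Qf_period {T : ℝ} (hf : ∀ θ, f (θ + T) = f θ) (ha : ∀ i ≤ k, ∀ θ, a (θ + T) i = a θ i)
    {n : ℕ} (hn : n ≤ k + 1) : ∀ θ, Qf f a n (θ + T) = Qf f a n θ := by
  induction n with
  | zero => exact hf
  | succ n ih =>
    intro θ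
    funext w
    simp only [Qf]
    rw [ih (by omega) θ, ha n (by omega)]

theorem Qf_eq {θ : ℝ} (h0 : ∀ i ≤ k, f θ (a θ i) = 0)
    (hne : ∀ i j, i < j → j ≤ k → a θ i ≠ a θ j) {n : ℕ} (hn : n ≤ k + 1) :
    ∀ w, f θ w = (∏ i ∈ Finset.range n, (w - a θ i)) * Qf f a n θ w := by
  induction n with
  | zero => intro w; simp [Qf]
  | succ n ih =>
    intro w
    have ih' := ih (by omega)
    have hz : Qf f a n θ (a θ n) = 0 := by
      have h1 := ih' (a θ n)
      rw [h0 n (by omega)] at h1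
      rcases mul_eq_zero.1 h1.symm with h2 | h2
      · exfalso
        obtain ⟨i, hi, h3⟩ := Finset.prod_eq_zero_iff.1 h2
        rw [Finset.mem_range] at hi
        exact hne i n hi (by omega) (sub_eq_zero.1 h3).symm
      · exact h2
    have h4 : Qf f a n θ w = (w - a θ n) * Qf f a (n + 1) θ w := by
      have := sub_smul_dslope (Qf f a n θ) (a θ n) w
      rw [hz, sub_zero, smul_eq_mul] at this
      exact this.symm
    rw [ih' w, h4, Finset.prod_range_succ]
    ring

end

/-! ### The formula -/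

section

variable {q : ℂ} {k : ℕ} {z : ℕ → ℂ}

/-- the last quotient has no zero in the closed disc -/
theorem quot_ne (hq : ‖q‖ ≤ 1) (h : First q k z) {Q : ℂ → ℂ} (hQ : Differentiable ℂ Q)
    (hF : ∀ w, F q w = (∏ i ∈ Finset.range (k + 1), (w - z i)) * Q w) {w : ℂ}
    (hw : ‖w‖ ≤ ‖z k‖) : Q w ≠ 0 := by
  intro h0
  have h1 : F q w = 0 := by rw [hF, h0, mul_zero]
  obtain ⟨i, hi, rfl⟩ := h.complete w h1 hw
  refine h.simple i hi ?_
  rw [← deriv_F hq]
  have h2 : HasDerivAt Q (deriv Q (z i)) (z i) := (hQ (z i)).hasDerivAt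
  have h3 : DifferentiableAt ℂ (fun w => ∏ i ∈ Finset.range (k + 1), (w - z i)) (z i) := by
    fun_prop
  have h5 : F q = fun w => (∏ i ∈ Finset.range (k + 1), (w - z i)) * Q w := funext hF
  have h6 : ∏ j ∈ Finset.range (k + 1), (z i - z j) = 0 :=
    Finset.prod_eq_zero (Finset.mem_range.2 (Nat.lt_succ_of_le hi)) (sub_self _)
  have h4 : HasDerivAt (fun w => (∏ i ∈ Finset.range (k + 1), (w - z i)) * Q w) 0 (z i) :=
    (h3.hasDerivAt.mul h2).congr_deriv (by simp only [h0, h6, mul_zero, zero_mul, add_zero])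
  rw [h5]
  exact h4.deriv

/-- `F'(z_k) = F(q z_k)` -/
theorem zero_formula (hq : ‖q‖ ≤ 1) {Q : ℂ → ℂ} (hQ : Differentiable ℂ Q)
    (hF : ∀ w, F q w = (∏ i ∈ Finset.range (k + 1), (w - z i)) * Q w) :
    (∏ i ∈ Finset.range k, (z k - z i)) * Q (z k) =
      (∏ i ∈ Finset.range k, (q * z k - z i)) * ((q - 1) * z k) * Q (q * z k) := by
  have h1 : deriv (F q) (z k) = F q (q * z k) := deriv_F hq (z k)
  have h2 : HasDerivAt Q (deriv Q (z k)) (z k) := (hQ (z k)).hasDerivAt
  have h3 : DifferentiableAt ℂ (fun w => ∏ i ∈ Finset.range k, (w - z i)) (z k) := by fun_prop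
  have h30 : HasDerivAt (fun w => w - z k) 1 (z k) := (hasDerivAt_id (z k)).sub_const (z k)
  have h5 : F q = fun w => (∏ i ∈ Finset.range k, (w - z i)) * (w - z k) * Q w := by
    funext w
    rw [hF w, Finset.prod_range_succ]
  have h4 : HasDerivAt (fun w => (∏ i ∈ Finset.range k, (w - z i)) * (w - z k) * Q w)
      ((∏ i ∈ Finset.range k, (z k - z i)) * Q (z k)) (z k) :=
    ((h3.hasDerivAt.mul h30).mul h2).congr_deriv (by simp)
  have h7 : deriv (F q) (z k) = (∏ i ∈ Finset.range k, (z k - z i)) * Q (z k) := by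
    rw [h5]
    exact h4.deriv
  rw [← h7, h1, hF (q * z k), Finset.prod_range_succ]
  ring

end

end SokamIn

end

/-! ### Lib_MP_af4de1_in.Circle -/

section
namespace SokamF
end SokamF
/-!
# Good circles close to `|q| = 1`

From `First` on `|q| = 1`, `q ≠ 1`, and the corner `TIP k`, by compactness.
-/

set_option autoImplicit false

open Complex Set Filter Topology SokamF

namespace SokamIn

/-- first zeros with the gap needed for the winding numbers -/
def GoodQ (k : ℕ) (q : ℂ) : Prop :=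
  ∃ z : ℕ → ℂ, First q k z ∧ ∀ i < k, ‖z i‖ < ‖q‖ * ‖z (i + 1)‖

theorem good_near {q : ℂ} (hq : ‖q‖ = 1) {k : ℕ} {z : ℕ → ℂ} (hz : First q k z) :
    ∃ δ > 0, ∀ q' : ℂ, ‖q'‖ ≤ 1 → ‖q' - q‖ < δ → GoodQ k q' := by
  obtain ⟨ε, hε, h1⟩ := exists_pos_le (fun i => (‖z (i + 1)‖ - ‖z i‖) / 4) k
    (fun i hi => by have := hz.mono i hi; linarith)
  obtain ⟨δ, hδ, h2⟩ := stable hq.le hz hε
  have hzk : 0 < ‖z k‖ := hz.norm_pos le_rfl
  have hη : 0 < ε / (‖z k‖ + ε) := by positivity
  refine ⟨min δ (ε / (‖z k‖ + ε)), lt_min hδ hη, fun q' hq' hd => ?_⟩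
  obtain ⟨z', hz', h3⟩ := h2 q' hq' (hd.trans_le (min_le_left _ _))
  refine ⟨z', hz', fun i hi => ?_⟩
  have h4 := h1 i hi
  have h5 := h3 i hi.le
  have h6 := h3 (i + 1) hi
  have h7 : ‖z' i‖ ≤ ‖z i‖ + ε := by
    have := norm_sub_norm_le (z' i) (z i)
    linarith
  have h8 : ‖z (i + 1)‖ - ε ≤ ‖z' (i + 1)‖ := by
    have := norm_sub_norm_le (z (i + 1)) (z' (i + 1))
    rw [norm_sub_rev] at this
    linarith
  have h9 : ‖z' (i + 1)‖ ≤ ‖z k‖ + ε := by
    have h10 := norm_sub_norm_le (z' (i + 1)) (z (i + 1))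
    have h11 := hz.le (show i + 1 ≤ k from hi) le_rfl
    linarith
  have h10 : 1 - ‖q'‖ < ε / (‖z k‖ + ε) := by
    have h11 := norm_sub_norm_le q q'
    rw [hq, norm_sub_rev] at h11
    exact h11.trans_lt (hd.trans_le (min_le_right _ _))
  have h11 : (1 - ‖q'‖) * ‖z' (i + 1)‖ ≤ ε := by
    calc (1 - ‖q'‖) * ‖z' (i + 1)‖ ≤ (ε / (‖z k‖ + ε)) * (‖z k‖ + ε) := by
          gcongr
      _ = ε := by field_simp
  have h12 : ‖q'‖ * ‖z' (i + 1)‖ = ‖z' (i + 1)‖ - (1 - ‖q'‖) * ‖z' (i + 1)‖ := by ring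
  rw [h12]
  linarith

/-- near the unit circle everything is good -/
theorem good_annulus' {k : ℕ} (hfirst : ∀ q : ℂ, ‖q‖ = 1 → q ≠ 1 → ∃ z, First q k z)
    (hT : TIP k) : ∃ r < 1, ∀ q : ℂ, r < ‖q‖ → ‖q‖ < 1 → GoodQ k q := by
  by_contra hcon
  push Not at hcon
  have h1 : ∀ n : ℕ, ∃ q : ℂ, 1 - 1 / ((n : ℝ) + 1) < ‖q‖ ∧ ‖q‖ < 1 ∧ ¬ GoodQ k q := by
    intro n
    have h2 : (1 : ℝ) - 1 / ((n : ℝ) + 1) < 1 := by
      have : (0 : ℝ) < 1 / ((n : ℝ) + 1) := by positivity
      linarith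
    obtain ⟨q, hq1, hq2, hq3⟩ := hcon _ h2
    exact ⟨q, hq1, hq2, hq3⟩
  choose q hq1 hq2 hq3 using h1
  obtain ⟨q0, -, φ, hφ, hlim⟩ := tendsto_subseq_of_bounded (x := q)
    (Metric.isBounded_closedBall (x := (0 : ℂ)) (r := 1))
    (fun n => mem_closedBall_zero_iff.2 (hq2 n).le)
  have hq0 : ‖q0‖ = 1 := by
    have h2 : Tendsto (fun n => ‖q (φ n)‖) atTop (𝓝 ‖q0‖) := hlim.norm
    have h3 : Tendsto (fun n : ℕ => (1 : ℝ) - 1 / (((φ n : ℕ) : ℝ) + 1)) atTop (𝓝 1) := by
      have h4 : Tendsto (fun n : ℕ => (1 : ℝ) - 1 / ((n : ℝ) + 1)) atTop (𝓝 1) := by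
        have := (tendsto_one_div_add_atTop_nhds_zero_nat (𝕜 := ℝ)).const_sub 1
        simpa using this
      exact h4.comp hφ.tendsto_atTop
    exact tendsto_nhds_unique h2 (tendsto_of_tendsto_of_tendsto_of_le_of_le h3
      tendsto_const_nhds (fun n => (hq1 (φ n)).le) fun n => (hq2 (φ n)).le)
  have key : ∃ δ > 0, ∀ q' : ℂ, ‖q'‖ < 1 → ‖q' - q0‖ < δ → GoodQ k q' := by
    by_cases h1 : q0 = 1
    · obtain ⟨ε, hε, h2⟩ := hT
      refine ⟨ε, hε, fun q' hq' hd => ?_⟩
      rw [h1] at hd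
      refine h2 q' hq'.le ?_ hd
      rintro rfl
      rw [norm_one] at hq'
      exact lt_irrefl _ hq'
    · obtain ⟨z, hz⟩ := hfirst q0 hq0 h1
      obtain ⟨δ, hδ, h2⟩ := good_near hq0 hz
      exact ⟨δ, hδ, fun q' hq' hd => h2 q' hq'.le hd⟩
  obtain ⟨δ, hδ, h2⟩ := key
  have h3 : ∀ᶠ n in atTop, ‖q (φ n) - q0‖ < δ := by
    have := (tendsto_iff_norm_sub_tendsto_zero.1 hlim).eventually_lt_const hδ
    exact this
  obtain ⟨n, hn⟩ := h3.exists
  exact hq3 (φ n) (h2 _ (hq2 _) hn)

/-- The good circles, fixed `k`. -/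
theorem exists_circ' {k : ℕ} (hfirst : ∀ q : ℂ, ‖q‖ = 1 → q ≠ 1 → ∃ z, First q k z)
    (hT : TIP k) {r : ℝ} (hr : r < 1) : ∃ ρ, r < ρ ∧ 0 < ρ ∧ ρ < 1 ∧ ∃ z, Circ ρ k z := by
  obtain ⟨r', hr', h⟩ := good_annulus' hfirst hT
  obtain ⟨ρ, hρ1, hρ2⟩ := exists_between (show max (max r r') 0 < 1 by
    refine max_lt (max_lt hr hr') one_pos)
  have h1 : r < ρ := (le_max_left _ _).trans_lt ((le_max_left _ _).trans_lt hρ1)
  have h2 : r' < ρ := (le_max_right _ _).trans_lt ((le_max_left _ _).trans_lt hρ1)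
  have h3 : 0 < ρ := (le_max_right _ _).trans_lt hρ1
  have h4 : ∀ θ, GoodQ k (qq ρ θ 1) := fun θ => h _ (by rw [norm_qq h3]; exact h2)
    (by rw [norm_qq h3]; exact hρ2)
  choose z hz hgap using h4
  refine ⟨ρ, h1, h3, hρ2, z, ⟨hz, fun θ i hi => ?_⟩⟩
  have := hgap θ i hi
  rwa [norm_qq h3] at this

/-- The good circles. -/
theorem exists_circ (hfirst : ∀ q : ℂ, ‖q‖ = 1 → q ≠ 1 → ∀ k, ∃ z, First q k z) {k : ℕ}
    (hT : TIP k) {r : ℝ} (hr : r < 1) : ∃ ρ, r < ρ ∧ 0 < ρ ∧ ρ < 1 ∧ ∃ z, Circ ρ k z :=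
  exists_circ' (fun q hq h1 => hfirst q hq h1 k) hT hr

section

variable {ρ : ℝ} {k : ℕ} {z : ℝ → ℕ → ℂ}

theorem Circ.continuous (hC : Circ ρ k z) (hρ : 0 < ρ) (hρ1 : ρ ≤ 1) :
    ∀ i ≤ k, Continuous fun θ => z θ i := by
  intro i hi
  rw [continuous_iff_continuousAt]
  intro θ0
  rw [Metric.continuousAt_iff']
  intro ε hε
  obtain ⟨δ, hδ, h⟩ := stable ((norm_qq hρ θ0).le.trans hρ1) (hC.first θ0) hε
  have h1 : ∀ᶠ θ in 𝓝 θ0, ‖qq ρ θ 1 - qq ρ θ0 1‖ < δ := by
    have h2 := (continuous_qq ρ).continuousAt (x := θ0)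
    rw [Metric.continuousAt_iff'] at h2
    filter_upwards [h2 δ hδ] with θ hθ
    rwa [dist_eq_norm] at hθ
  filter_upwards [h1] with θ hθ
  obtain ⟨z', hz', h3⟩ := h (qq ρ θ 1) ((norm_qq hρ θ).le.trans hρ1) hθ
  rw [first_unique (hC.first θ) hz' i hi, dist_eq_norm]
  exact h3 i hi

theorem Circ.period (hC : Circ ρ k z) : ∀ i ≤ k, ∀ θ, z (θ + 2 * Real.pi) i = z θ i := by
  intro i hi θ
  have h1 := hC.first (θ + 2 * Real.pi)
  rw [qq_period] at h1
  exact first_unique h1 (hC.first θ) i hi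

end

end SokamIn

end
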