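import Pool.Agent.Lib_MP_af4de1_zy.Z28

/-! ### Lib_MP_af4de1_f1.Sad -/

section
/-!
# The saddle point on `|q| = 1` in the `y`-parametrisation

`t = -i δ`, `ρ = δ r`, `K = δ κ = x + i y`, `κ` the saddle point of `E t` at the point `zp t κ = r exp(i (η - ρ + δ/2))`.
Everything is an explicit function of `y`: `x = sx ρ y = √(ρ² e^(-2y) - y²)`, `ψ = arg K = sP ρ y = arcsin (y e^y/ρ)`,
`η = sE ρ y = ψ + ρ - x`.
-/

set_option autoImplicit false

open Complex Set Filter Topology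

namespace SokamF1S

/-- real part of `K` -/
noncomputable def sx (ρ y : ℝ) : ℝ := √(ρ ^ (2 : ℕ) * Real.exp (-2 * y) - y ^ (2 : ℕ))

/-- argument of `K` -/
noncomputable def sP (ρ y : ℝ) : ℝ := Real.arcsin (y * Real.exp y / ρ)

/-- the centred angle `η` -/
noncomputable def sE (ρ y : ℝ) : ℝ := sP ρ y + ρ - sx ρ y

/-- `K` -/
noncomputable def sK (ρ y : ℝ) : ℂ := sx ρ y + y * I

/-- `|1 - i K|²` -/
noncomputable def sD2 (ρ y : ℝ) : ℝ := (1 + y) ^ (2 : ℕ) + sx ρ y ^ (2 : ℕ)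

/-- closed domain: `ρ > 0`, `|y| e^y ≤ ρ` -/
def Dom (ρ y : ℝ) : Prop := 0 < ρ ∧ |y| * Real.exp y ≤ ρ

theorem Dom.pos {ρ y : ℝ} (h : Dom ρ y) : 0 < ρ := h.1

theorem abs_mul_exp_eq (ρ y : ℝ) : |y * Real.exp y / ρ| = |y| * Real.exp y / |ρ| := by
  rw [abs_div, abs_mul, Real.abs_exp]

theorem Dom.abs_le_exp {ρ y : ℝ} (h : Dom ρ y) : |y| ≤ ρ * Real.exp (-y) := by
  have h1 := h.2
  have h2 : Real.exp y * Real.exp (-y) = 1 := by rw [← Real.exp_add]; simp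
  have h3 : |y| = |y| * Real.exp y * Real.exp (-y) := by rw [mul_assoc, h2, mul_one]
  rw [h3]
  exact mul_le_mul_of_nonneg_right h1 (Real.exp_pos _).le

theorem exp_two (ρ y : ℝ) : ρ ^ (2 : ℕ) * Real.exp (-2 * y) = (ρ * Real.exp (-y)) ^ (2 : ℕ) := by
  rw [mul_pow, ← Real.exp_nat_mul]
  congr 2
  push_cast
  ring

theorem Dom.rad_nonneg {ρ y : ℝ} (h : Dom ρ y) : 0 ≤ ρ ^ (2 : ℕ) * Real.exp (-2 * y) - y ^ (2 : ℕ) := by
  rw [exp_two, sub_nonneg, ← sq_abs y]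
  exact pow_le_pow_left₀ (abs_nonneg _) h.abs_le_exp 2

theorem sx_nonneg (ρ y : ℝ) : 0 ≤ sx ρ y := Real.sqrt_nonneg _

theorem sx_sq {ρ y : ℝ} (h : Dom ρ y) : sx ρ y ^ (2 : ℕ) = (ρ * Real.exp (-y)) ^ (2 : ℕ) - y ^ (2 : ℕ) := by
  unfold sx
  rw [Real.sq_sqrt h.rad_nonneg, exp_two]

theorem sx_sq_add {ρ y : ℝ} (h : Dom ρ y) : sx ρ y ^ (2 : ℕ) + y ^ (2 : ℕ) = (ρ * Real.exp (-y)) ^ (2 : ℕ) := by
  rw [sx_sq h]; ring

theorem sx_le {ρ y : ℝ} (h : Dom ρ y) : sx ρ y ≤ ρ * Real.exp (-y) := by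
  have h1 : 0 ≤ ρ * Real.exp (-y) := mul_nonneg h.1.le (Real.exp_pos _).le
  refine abs_le_of_sq_le_sq' ?_ h1 |>.2
  have := sx_sq_add h
  nlinarith [sq_nonneg y]

theorem sx_pos {ρ y : ℝ} (_ : 0 < ρ) (h : |y| * Real.exp y < ρ) : 0 < sx ρ y := by
  unfold sx
  apply Real.sqrt_pos.2
  rw [exp_two, sub_pos, ← sq_abs y]
  refine pow_lt_pow_left₀ ?_ (abs_nonneg _) two_ne_zero
  have h2 : Real.exp y * Real.exp (-y) = 1 := by rw [← Real.exp_add]; simp
  calc |y| = |y| * Real.exp y * Real.exp (-y) := by rw [mul_assoc, h2, mul_one]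
    _ < ρ * Real.exp (-y) := mul_lt_mul_of_pos_right h (Real.exp_pos _)

theorem Dom.sin {ρ y : ℝ} (h : Dom ρ y) : Real.sin (sP ρ y) = y * Real.exp y / ρ := by
  have h1 : |y * Real.exp y / ρ| ≤ 1 := by
    rw [abs_mul_exp_eq, abs_of_pos h.1, div_le_one h.1]
    exact h.2
  exact Real.sin_arcsin (abs_le.1 h1).1 (abs_le.1 h1).2

theorem Dom.cos {ρ y : ℝ} (h : Dom ρ y) : Real.cos (sP ρ y) = sx ρ y * Real.exp y / ρ := by
  have h0 := h.1
  unfold sP
  rw [Real.cos_arcsin]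
  have h2 : Real.exp y * Real.exp (-y) = 1 := by rw [← Real.exp_add]; simp
  have e : 1 - (y * Real.exp y / ρ) ^ (2 : ℕ) = (sx ρ y * Real.exp y / ρ) ^ (2 : ℕ) := by
    rw [div_pow, div_pow, mul_pow (sx ρ y), sx_sq h]
    field_simp
    have : Real.exp y ^ (2 : ℕ) * Real.exp (-y) ^ (2 : ℕ) = 1 := by rw [← mul_pow, h2, one_pow]
    linear_combination (-(ρ ^ (2 : ℕ))) * this
  rw [e, Real.sqrt_sq]
  have := sx_nonneg ρ y
  positivity

theorem sP_abs_le (ρ y : ℝ) : |sP ρ y| ≤ Real.pi / 2 :=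
  abs_le.2 ⟨Real.neg_pi_div_two_le_arcsin _, Real.arcsin_le_pi_div_two _⟩

theorem sP_nonneg {ρ y : ℝ} (hρ : 0 < ρ) (hy : 0 ≤ y) : 0 ≤ sP ρ y :=
  Real.arcsin_nonneg.2 (by positivity)

theorem sP_nonpos {ρ y : ℝ} (hρ : 0 < ρ) (hy : y ≤ 0) : sP ρ y ≤ 0 :=
  Real.arcsin_nonpos.2 (div_nonpos_of_nonpos_of_nonneg
    (mul_nonpos_of_nonpos_of_nonneg hy (Real.exp_pos _).le) hρ.le)

/-- polar form of `K` -/
theorem sK_polar {ρ y : ℝ} (h : Dom ρ y) :
    sK ρ y = (ρ * Real.exp (-y) : ℝ) * cexp (sP ρ y * I) := by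
  have h0 := h.1
  have h2 : Real.exp y * Real.exp (-y) = 1 := by rw [← Real.exp_add]; simp
  rw [Complex.exp_mul_I, ← Complex.ofReal_cos, ← Complex.ofReal_sin, h.cos, h.sin]
  unfold sK
  apply Complex.ext
  · simp only [Complex.add_re, Complex.ofReal_re, Complex.mul_re, Complex.I_re, mul_zero,
      Complex.ofReal_im, Complex.I_im, mul_one, sub_self, add_zero, Complex.add_im, zero_mul,
      sub_zero, Complex.mul_im, add_zero, mul_zero]
    field_simp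
    linear_combination (-(sx ρ y)) * h2
  · simp only [Complex.add_im, Complex.ofReal_im, Complex.mul_im, Complex.ofReal_re, Complex.I_im,
      mul_one, Complex.I_re, mul_zero, add_zero, zero_add, Complex.add_re, Complex.mul_re,
      zero_mul, sub_zero]
    field_simp
    linear_combination (-y) * h2

theorem norm_sK {ρ y : ℝ} (h : Dom ρ y) : ‖sK ρ y‖ = ρ * Real.exp (-y) := by
  rw [sK_polar h, norm_mul, Complex.norm_exp_ofReal_mul_I, mul_one, Complex.norm_real,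
    Real.norm_of_nonneg (mul_nonneg h.1.le (Real.exp_pos _).le)]

/-- the saddle point equation -/
theorem sK_eq {ρ y : ℝ} (h : Dom ρ y) :
    sK ρ y * cexp (-I * sK ρ y) = ρ * cexp ((sE ρ y - ρ : ℝ) * I) := by
  have h1 : -I * sK ρ y = (y : ℂ) + (-sx ρ y : ℝ) * I := by
    unfold sK
    push_cast
    linear_combination (-(y : ℂ)) * Complex.I_sq
  rw [h1, sK_polar h, Complex.exp_add, ← Complex.ofReal_exp]
  have h2 : (Real.exp (-y) : ℂ) * (Real.exp y : ℂ) = 1 := by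
    rw [← Complex.ofReal_mul, ← Real.exp_add]; simp
  have h3 : cexp (sP ρ y * I) * cexp ((-sx ρ y : ℝ) * I) = cexp ((sE ρ y - ρ : ℝ) * I) := by
    rw [← Complex.exp_add]
    congr 1
    unfold sE
    push_cast
    ring
  rw [← h3]
  push_cast
  push_cast at h2
  linear_combination (ρ * cexp (sP ρ y * I) * cexp (-(sx ρ y : ℂ) * I)) * h2

/-- the point with the saddle point `K/δ` -/
theorem zp_eq {ρ y δ : ℝ} (h : Dom ρ y) (hδ : 0 < δ) :
    SokamU.zp (-((δ : ℂ) * I)) (sK ρ y / δ) =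
      (ρ / δ : ℝ) * cexp ((sE ρ y - ρ + δ / 2 : ℝ) * I) := by
  have hd : (δ : ℂ) ≠ 0 := by exact_mod_cast hδ.ne'
  have h1 := sK_eq h
  unfold SokamU.zp
  have e1 : -((δ : ℂ) * I) * (sK ρ y / δ) - -((δ : ℂ) * I) / 2 = -I * sK ρ y + (δ / 2 : ℝ) * I := by
    push_cast
    field_simp
    ring
  have e2 : cexp ((sE ρ y - ρ + δ / 2 : ℝ) * I) =
      cexp ((sE ρ y - ρ : ℝ) * I) * cexp ((δ / 2 : ℝ) * I) := by
    rw [← Complex.exp_add]
    congr 1
    push_cast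
    ring
  rw [e1, Complex.exp_add, e2]
  calc sK ρ y / δ * (cexp (-I * sK ρ y) * cexp ((δ / 2 : ℝ) * I))
      = (sK ρ y * cexp (-I * sK ρ y)) * cexp ((δ / 2 : ℝ) * I) / δ := by ring
    _ = _ := by
        rw [h1]
        push_cast
        ring

/-- real part of the exponent -/
theorem S_re {ρ y δ : ℝ} (hδ : 0 < δ) :
    (SokamU.S (-((δ : ℂ) * I)) (sK ρ y / δ)).re = sx ρ y * (1 + y) / δ := by
  have hd : (δ : ℂ) ≠ 0 := by exact_mod_cast hδ.ne'
  have e : SokamU.S (-((δ : ℂ) * I)) (sK ρ y / δ) =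
      ((sx ρ y * (1 + y) / δ : ℝ) : ℂ) + ((y / δ - (sx ρ y ^ (2 : ℕ) - y ^ (2 : ℕ)) / (2 * δ) : ℝ) : ℂ) * I := by
    unfold SokamU.S sK
    push_cast
    field_simp
    ring_nf
    rw [Complex.I_pow_three, Complex.I_sq]
    ring
  rw [e, Complex.add_re, Complex.ofReal_re, Complex.re_ofReal_mul, Complex.I_re, mul_zero, add_zero]

theorem norm_one_sub {ρ y : ℝ} : ‖1 - I * sK ρ y‖ ^ (2 : ℕ) = sD2 ρ y := by
  rw [Complex.sq_norm, Complex.normSq_apply]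
  unfold sK sD2
  simp
  ring

/-! ### derivatives in `y` -/

theorem hasDerivAt_sx {ρ y : ℝ} (hρ : 0 < ρ) (h : |y| * Real.exp y < ρ) :
    HasDerivAt (sx ρ) (-(sx ρ y ^ (2 : ℕ) + y ^ (2 : ℕ) + y) / sx ρ y) y := by
  have hD : Dom ρ y := ⟨hρ, h.le⟩
  have hx := sx_pos hρ h
  have h1 : HasDerivAt (fun y : ℝ => ρ ^ (2 : ℕ) * Real.exp (-2 * y) - y ^ (2 : ℕ))
      (ρ ^ (2 : ℕ) * (Real.exp (-2 * y) * -2) - 2 * y) y := by
    have e1 : HasDerivAt (fun y : ℝ => -2 * y) (-2) y := by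
      simpa using (hasDerivAt_id y).const_mul (-2 : ℝ)
    have e2 := (e1.exp).const_mul (ρ ^ (2 : ℕ))
    have e3 : HasDerivAt (fun y : ℝ => y ^ (2 : ℕ)) (2 * y) y := by
      simpa using hasDerivAt_pow 2 y
    exact e2.sub e3
  have h2 : ρ ^ (2 : ℕ) * Real.exp (-2 * y) - y ^ (2 : ℕ) ≠ 0 := by
    intro h0
    have : sx ρ y = 0 := by
      unfold sx
      rw [h0, Real.sqrt_zero]
    exact hx.ne' this
  have h3 := h1.sqrt h2
  refine h3.congr_deriv ?_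
  have h4 := sx_sq_add hD
  rw [← exp_two] at h4
  change (ρ ^ (2 : ℕ) * (Real.exp (-2 * y) * -2) - 2 * y) / (2 * sx ρ y) = _
  rw [div_eq_div_iff (by positivity) hx.ne']
  linear_combination (2 * sx ρ y) * h4

theorem hasDerivAt_sP {ρ y : ℝ} (hρ : 0 < ρ) (h : |y| * Real.exp y < ρ) :
    HasDerivAt (sP ρ) ((1 + y) / sx ρ y) y := by
  have hD : Dom ρ y := ⟨hρ, h.le⟩
  have hx := sx_pos hρ h
  have h1 : HasDerivAt (fun y : ℝ => y * Real.exp y / ρ) ((1 + y) * Real.exp y / ρ) y := by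
    have e1 := ((hasDerivAt_id y).mul (Real.hasDerivAt_exp y)).div_const ρ
    refine e1.congr_deriv ?_
    simp only [id]
    ring
  have h2 : |y * Real.exp y / ρ| < 1 := by
    rw [abs_mul_exp_eq, abs_of_pos hρ, div_lt_one hρ]
    exact h
  have h3 := (Real.hasDerivAt_arcsin (x := y * Real.exp y / ρ) (by
    intro h0; rw [h0] at h2; norm_num at h2) (by
    intro h0; rw [h0] at h2; norm_num at h2)).comp y h1
  refine h3.congr_deriv ?_
  have h4 : √(1 - (y * Real.exp y / ρ) ^ (2 : ℕ)) = sx ρ y * Real.exp y / ρ := by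
    have := hD.cos
    unfold sP at this
    rwa [Real.cos_arcsin] at this
  rw [h4]
  have := Real.exp_pos y
  field_simp

theorem hasDerivAt_sE {ρ y : ℝ} (hρ : 0 < ρ) (h : |y| * Real.exp y < ρ) :
    HasDerivAt (sE ρ) (sD2 ρ y / sx ρ y) y := by
  have h1 := ((hasDerivAt_sP hρ h).add_const ρ).sub (hasDerivAt_sx hρ h)
  refine h1.congr_deriv ?_
  have hx := sx_pos hρ h
  unfold sD2
  field_simp
  ring

/-- the derivative of `δ Φ = x (1 + y)` -/
theorem hasDerivAt_sPhi {ρ y : ℝ} (hρ : 0 < ρ) (h : |y| * Real.exp y < ρ) :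
    HasDerivAt (fun y => sx ρ y * (1 + y)) (-(y * (sD2 ρ y / sx ρ y))) y := by
  have h1 := (hasDerivAt_sx hρ h).mul ((hasDerivAt_id y).const_add 1)
  refine h1.congr_deriv ?_
  have hx := sx_pos hρ h
  unfold sD2
  simp only [id]
  field_simp
  ring

theorem continuous_sx (ρ : ℝ) : Continuous (sx ρ) := by
  unfold sx
  fun_prop

theorem continuous_sP (ρ : ℝ) : Continuous (sP ρ) := by
  unfold sP
  exact Real.continuous_arcsin.comp (by fun_prop)

theorem continuous_sE (ρ : ℝ) : Continuous (sE ρ) := by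
  unfold sE
  exact ((continuous_sP ρ).add_const ρ).sub (continuous_sx ρ)

/-- `y e^y` is strictly increasing on `[-1,∞)` -/
theorem strictMonoOn_mul_exp : StrictMonoOn (fun y : ℝ => y * Real.exp y) (Ici (-1)) := by
  refine strictMonoOn_of_deriv_pos (convex_Ici _) (by fun_prop) fun y hy => ?_
  rw [interior_Ici] at hy
  have e1 : HasDerivAt (fun y : ℝ => y * Real.exp y) ((1 + y) * Real.exp y) y := by
    refine ((hasDerivAt_id y).mul (Real.hasDerivAt_exp y)).congr_deriv ?_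
    simp only [id]
    ring
  rw [e1.deriv]
  have : 0 < 1 + y := by linarith [mem_Ioi.1 hy]
  positivity

theorem dom_iff {ρ y : ℝ} : |y| * Real.exp y ≤ ρ ↔ -ρ ≤ y * Real.exp y ∧ y * Real.exp y ≤ ρ := by
  rw [← abs_le, abs_mul, Real.abs_exp]

/-- between two points of the domain -/
theorem dom_between {ρ y₁ y₂ y : ℝ} (h1 : Dom ρ y₁) (h2 : Dom ρ y₂) (hy1 : -1 ≤ y₁)
    (hy : y ∈ Ioo y₁ y₂) : |y| * Real.exp y < ρ := by
  have a1 := (dom_iff.1 h1.2).1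
  have a2 := (dom_iff.1 h2.2).2
  have b1 := strictMonoOn_mul_exp (mem_Ici.2 hy1) (mem_Ici.2 (hy1.trans hy.1.le)) hy.1
  have b2 := strictMonoOn_mul_exp (mem_Ici.2 (hy1.trans hy.1.le))
    (mem_Ici.2 (hy1.trans (hy.1.le.trans hy.2.le))) hy.2
  simp only at b1 b2
  have : |y * Real.exp y| < ρ := abs_lt.2 ⟨by linarith, by linarith⟩
  rwa [abs_mul, Real.abs_exp] at this

theorem sD2_pos {ρ y : ℝ} (hy : -1 < y) : 0 < sD2 ρ y := by
  unfold sD2
  have : 0 < 1 + y := by linarith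
  positivity

/-- `η` is strictly increasing in `y` -/
theorem sE_strictMonoOn {ρ y₁ y₂ : ℝ} (h1 : Dom ρ y₁) (h2 : Dom ρ y₂) (hy1 : -1 ≤ y₁) :
    StrictMonoOn (sE ρ) (Icc y₁ y₂) := by
  refine strictMonoOn_of_deriv_pos (convex_Icc _ _) (continuous_sE ρ).continuousOn fun y hy => ?_
  rw [interior_Icc] at hy
  have h3 := dom_between h1 h2 hy1 hy
  rw [(hasDerivAt_sE h1.1 h3).deriv]
  exact div_pos (sD2_pos (by linarith [hy.1])) (sx_pos h1.1 h3)

/-- existence of the saddle point -/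
theorem exists_sE {ρ y₁ y₂ η : ℝ} (h12 : y₁ ≤ y₂) (h1 : sE ρ y₁ ≤ η) (h2 : η ≤ sE ρ y₂) :
    ∃ y ∈ Icc y₁ y₂, sE ρ y = η :=
  intermediate_value_Icc h12 (continuous_sE ρ).continuousOn ⟨h1, h2⟩

theorem sE_zero {ρ : ℝ} (hρ : 0 < ρ) : sE ρ 0 = 0 := by
  unfold sE sP sx
  simp [Real.sqrt_sq hρ.le]

theorem dom_zero {ρ : ℝ} (hρ : 0 < ρ) : Dom ρ 0 := ⟨hρ, by simpa using hρ.le⟩

end SokamF1S

end

/-! ### Lib_MP_af4de1_v3.SadBase -/

section
namespace SokamF1S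
end SokamF1S
/-!
# Elementary two sided facts between `η = sE ρ y` and `y`

With `ψ = sP ρ y` (`sin ψ = y e^y/ρ`, `cos ψ = x e^y/ρ`):
`η = ρ (1 - e^(-y)) + ψ + y (1 - cos ψ)/sin ψ`.
-/

set_option autoImplicit false

namespace SokamV3

open Real Set SokamF1S

/-- `2 ψ sin ψ ≥ (1 - cos ψ)(3 + cos ψ)` on `[0, π/2]`. -/
theorem trig_ge {ψ : ℝ} (h0 : 0 ≤ ψ) (h1 : ψ ≤ π / 2) :
    (1 - Real.cos ψ) * (3 + Real.cos ψ) ≤ 2 * ψ * Real.sin ψ := by
  have hm : MonotoneOn (fun u : ℝ => 2 * u * Real.sin u - (1 - Real.cos u) * (3 + Real.cos u))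
      (Icc 0 (π / 2)) := by
    have hd : ∀ u : ℝ, HasDerivAt (fun u : ℝ => 2 * u * Real.sin u -
        (1 - Real.cos u) * (3 + Real.cos u)) (2 * Real.cos u * (u - Real.sin u)) u := by
      intro u
      have e1 : HasDerivAt (fun u : ℝ => 2 * u) 2 u := by
        simpa using (hasDerivAt_id u).const_mul (2 : ℝ)
      have e2 := e1.mul (Real.hasDerivAt_sin u)
      have e3 := ((Real.hasDerivAt_cos u).const_sub 1).mul ((Real.hasDerivAt_cos u).const_add 3)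
      refine (e2.sub e3).congr_deriv ?_
      ring
    refine monotoneOn_of_deriv_nonneg (convex_Icc _ _)
      (fun u _ => (hd u).continuousAt.continuousWithinAt)
      (fun u _ => (hd u).differentiableAt.differentiableWithinAt) (fun u hu => ?_)
    rw [interior_Icc] at hu
    rw [(hd u).deriv]
    have h2 : 0 ≤ Real.cos u := Real.cos_nonneg_of_mem_Icc ⟨by linarith [hu.1], hu.2.le⟩
    have h3 : 0 ≤ u - Real.sin u := by
      have := Real.sin_le hu.1.le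
      linarith
    (clear * - h2 h3; positivity)
  have := hm (left_mem_Icc.2 (by (clear * -; positivity))) ⟨h0, h1⟩ h0
  simp only [mul_zero, Real.sin_zero, Real.cos_zero, sub_self, zero_mul] at this
  linarith

theorem exp_mul_neg (y : ℝ) : Real.exp y * Real.exp (-y) = 1 := by rw [← Real.exp_add]; simp

/-- `x = ρ e^(-y) cos ψ` -/
theorem sx_eq {ρ y : ℝ} (h : Dom ρ y) : sx ρ y = ρ * Real.exp (-y) * Real.cos (sP ρ y) := by
  have hρ := h.1
  rw [h.cos]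
  have e1 := exp_mul_neg y
  field_simp
  linear_combination (-(sx ρ y)) * e1

/-- `y = ρ e^(-y) sin ψ` -/
theorem y_eq {ρ y : ℝ} (h : Dom ρ y) : y = ρ * Real.exp (-y) * Real.sin (sP ρ y) := by
  have hρ := h.1
  rw [h.sin]
  have e1 := exp_mul_neg y
  have : ρ * Real.exp (-y) * (y * Real.exp y / ρ) = y * (Real.exp y * Real.exp (-y)) := by
    field_simp
  rw [this, e1, mul_one]

/-- `y e^y = ρ sin ψ` -/
theorem y_exp_eq {ρ y : ℝ} (h : Dom ρ y) : y * Real.exp y = ρ * Real.sin (sP ρ y) := by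
  have hρ := h.1
  rw [h.sin]
  field_simp

/-- (E+) -/
theorem sE_ge_pos {ρ y : ℝ} (h : Dom ρ y) (hy : 0 ≤ y) :
    ρ * (1 - Real.exp (-y)) + (y + y ^ (2 : ℕ) / 2) * Real.exp y / ρ ≤ sE ρ y := by
  have hρ := h.1
  have hψ0 := sP_nonneg (y := y) hρ hy
  have hE' := Real.exp_pos (-y)
  have hye := y_exp_eq h
  have hyr := y_eq h
  have hxr := sx_eq h
  set ψ := sP ρ y with hψ
  have hη : sE ρ y = ψ + ρ - sx ρ y := rfl
  rw [hη, hxr]
  have hsin : Real.sin ψ ≤ ψ := Real.sin_le hψ0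
  have hsc := Real.sin_sq_add_cos_sq ψ
  have h2 : (y + y ^ (2 : ℕ) / 2) * Real.exp y / ρ = (1 + y / 2) * Real.sin ψ := by
    rw [div_eq_iff hρ.ne']
    linear_combination (1 + y / 2) * hye
  rw [h2]
  have h4 : Real.sin ψ * Real.sin ψ / 2 ≤ 1 - Real.cos ψ := by nlinarith only [hsc]
  have h5 : 0 ≤ ρ * Real.exp (-y) := by positivity
  have h6 : ρ * Real.exp (-y) * (Real.sin ψ * Real.sin ψ / 2) ≤
      ρ * Real.exp (-y) * (1 - Real.cos ψ) := mul_le_mul_of_nonneg_left h4 h5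
  have h3 : y * Real.sin ψ / 2 = ρ * Real.exp (-y) * (Real.sin ψ * Real.sin ψ / 2) := by
    linear_combination (Real.sin ψ / 2) * hyr
  linarith

/-- (E-) -/
theorem sE_le_neg {ρ t : ℝ} (h : Dom ρ (-t)) (ht : 0 ≤ t) (ht1 : t ≤ 1) :
    ρ * (Real.exp t - 1) + (t - t ^ (2 : ℕ) / 2) * Real.exp (-t) / ρ ≤ -sE ρ (-t) := by
  have hρ := h.1
  have hψ0 := sP_nonpos (y := -t) hρ (by linarith)
  have hE' := Real.exp_pos t
  have hye := y_exp_eq h
  have hyr := y_eq h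
  have hxr := sx_eq h
  have hψ1 := (abs_le.1 (sP_abs_le ρ (-t))).1
  rw [neg_neg] at hyr hxr
  set ψ := -sP ρ (-t) with hψ
  have hsP : sP ρ (-t) = -ψ := by rw [hψ]; ring
  rw [hsP, Real.sin_neg] at hye hyr
  rw [hsP, Real.cos_neg] at hxr
  have hη : sE ρ (-t) = -ψ + ρ - sx ρ (-t) := by rw [← hsP]; rfl
  rw [hη, hxr]
  have hψ0' : 0 ≤ ψ := by rw [hψ]; linarith
  have hψ1' : ψ ≤ π / 2 := by rw [hψ]; linarith
  have hsin0 : 0 ≤ Real.sin ψ := Real.sin_nonneg_of_nonneg_of_le_pi hψ0' (by linarith [Real.pi_pos])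
  have hsc := Real.sin_sq_add_cos_sq ψ
  have h2 : (t - t ^ (2 : ℕ) / 2) * Real.exp (-t) / ρ = (1 - t / 2) * Real.sin ψ := by
    rw [div_eq_iff hρ.ne']
    linear_combination (-(1 - t / 2)) * hye
  rw [h2]
  have hty : t = ρ * Real.exp t * Real.sin ψ := by linear_combination -hyr
  have htg := trig_ge hψ0' hψ1'
  have hcos1 := Real.cos_le_one ψ
  have hcos0 : 0 ≤ Real.cos ψ := Real.cos_nonneg_of_mem_Icc ⟨by linarith, hψ1'⟩
  -- it remains: ψ - (1 - t/2) sin ψ ≥ ρ e^t (1 - cos ψ)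
  rcases hsin0.eq_or_lt with hs | hs
  · have hψz : ψ = 0 := by
      rcases hψ0'.eq_or_lt with h | h
      · exact h.symm
      · exact absurd hs.symm (Real.sin_pos_of_pos_of_lt_pi h (by linarith [Real.pi_pos])).ne'
    rw [hψz]
    simp only [Real.sin_zero, Real.cos_zero]
    linarith
  · have key : ρ * Real.exp t * (1 - Real.cos ψ) ≤ ψ - (1 - t / 2) * Real.sin ψ := by
      have h7 : Real.sin ψ * (ρ * Real.exp t * (1 - Real.cos ψ)) ≤
          Real.sin ψ * (ψ - (1 - t / 2) * Real.sin ψ) := by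
        have e7 : Real.sin ψ * (ρ * Real.exp t * (1 - Real.cos ψ)) = t * (1 - Real.cos ψ) := by
          linear_combination (-(1 - Real.cos ψ)) * hty
        rw [e7]
        have hs2 : Real.sin ψ ^ (2 : ℕ) = (1 - Real.cos ψ) * (1 + Real.cos ψ) := by
          linear_combination hsc
        have e8 : Real.sin ψ * (ψ - (1 - t / 2) * Real.sin ψ) =
            ψ * Real.sin ψ - (1 - t / 2) * ((1 - Real.cos ψ) * (1 + Real.cos ψ)) := by
          linear_combination (-(1 - t / 2)) * hs2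
        rw [e8]
        linarith only [htg, mul_nonneg (sq_nonneg (1 - Real.cos ψ)) (by linarith : (0 : ℝ) ≤ 1 - t)]
      exact le_of_mul_le_mul_left h7 hs
    linarith

/-- `2 y + y² ≤ η` -/
theorem two_y_le {ρ y : ℝ} (h : Dom ρ y) (hy : 0 ≤ y) : 2 * y + y ^ (2 : ℕ) ≤ sE ρ y := by
  have hρ := h.1
  refine le_trans ?_ (sE_ge_pos h hy)
  have hE := Real.exp_pos y
  have hE' := Real.exp_pos (-y)
  have e1 := exp_mul_neg y
  have hquad : 1 + y + y ^ (2 : ℕ) / 2 ≤ Real.exp y := Real.quadratic_le_exp_of_nonneg hy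
  set q := y + y ^ (2 : ℕ) / 2 with hq
  have hq0 : 0 ≤ q := by (clear * - hy; positivity)
  have h1 : q ≤ Real.exp y - 1 := by rw [hq]; linarith
  -- 2 q ≤ ρ a + q e^y/ρ, a = 1 - e^{-y}, a e^y = e^y - 1 ≥ q
  have h2 : 0 ≤ (ρ * (1 - Real.exp (-y)) * Real.exp y - Real.exp y * q) ^ (2 : ℕ) := sq_nonneg _
  rw [div_eq_mul_inv, show 2 * y + y ^ (2 : ℕ) = 2 * q by rw [hq]; ring]
  have h3 : 0 < ρ⁻¹ := inv_pos.2 hρ
  have h4 : (1 - Real.exp (-y)) * Real.exp y = Real.exp y - 1 := by linear_combination (-1 : ℝ) * e1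
  have h5 : ρ * (1 - Real.exp (-y)) = ρ * (Real.exp y - 1) * Real.exp (-y) := by
    linear_combination (-ρ) * e1
  rw [h5]
  have h6 : ρ * q * Real.exp (-y) ≤ ρ * (Real.exp y - 1) * Real.exp (-y) := by
    have : ρ * q ≤ ρ * (Real.exp y - 1) := mul_le_mul_of_nonneg_left h1 hρ.le
    exact mul_le_mul_of_nonneg_right this hE'.le
  have h7 : 2 * q ≤ ρ * q * Real.exp (-y) + q * Real.exp y * ρ⁻¹ := by
    have h8 : 2 ≤ ρ * Real.exp (-y) + Real.exp y * ρ⁻¹ := by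
      have h9 : (ρ * Real.exp (-y)) * (Real.exp y * ρ⁻¹) = 1 := by
        have : ρ * ρ⁻¹ = 1 := mul_inv_cancel₀ hρ.ne'
        linear_combination (ρ * ρ⁻¹) * e1 + this
      nlinarith only [h9, sq_nonneg (ρ * Real.exp (-y) - Real.exp y * ρ⁻¹), mul_pos hρ hE', mul_pos hE h3]
    nlinarith only [hq0, h8]
  linarith

/-- `2 t - t² ≤ |η|` -/
theorem two_t_le {ρ t : ℝ} (h : Dom ρ (-t)) (ht : 0 ≤ t) (ht1 : t ≤ 1) :
    2 * t - t ^ (2 : ℕ) ≤ -sE ρ (-t) := by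
  have hρ := h.1
  refine le_trans ?_ (sE_le_neg h ht ht1)
  have hE := Real.exp_pos t
  have hE' := Real.exp_pos (-t)
  have e1 := exp_mul_neg t
  -- 1 - e^{-t} ≥ t - t²/2
  have hquad : Real.exp (-t) ≤ 1 - t + t ^ (2 : ℕ) / 2 := by
    have hd : MonotoneOn (fun u : ℝ => 1 - u + u ^ (2 : ℕ) / 2 - Real.exp (-u)) (Ici 0) := by
      have hd1 : ∀ u : ℝ, HasDerivAt (fun u : ℝ => 1 - u + u ^ (2 : ℕ) / 2 - Real.exp (-u))
          (u - 1 + Real.exp (-u)) u := by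
        intro u
        have e2 : HasDerivAt (fun u : ℝ => Real.exp (-u)) (-Real.exp (-u)) u := by
          have := (hasDerivAt_neg u).exp
          simpa using this
        have e3 : HasDerivAt (fun u : ℝ => u ^ (2 : ℕ) / 2) u u := by
          have := (hasDerivAt_pow 2 u).div_const 2
          refine this.congr_deriv ?_
          simp
        have e4 : HasDerivAt (fun u : ℝ => 1 - u) (-1) u := by
          simpa using (hasDerivAt_id u).const_sub (1 : ℝ)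
        refine ((e4.add e3).sub e2).congr_deriv ?_
        ring
      refine monotoneOn_of_deriv_nonneg (convex_Ici _)
        (fun u _ => (hd1 u).continuousAt.continuousWithinAt)
        (fun u _ => (hd1 u).differentiableAt.differentiableWithinAt) (fun u _ => ?_)
      rw [(hd1 u).deriv]
      have := Real.add_one_le_exp (-u)
      linarith
    have := hd (mem_Ici.2 (le_refl 0)) (mem_Ici.2 ht) ht
    simp at this
    linarith
  set q := t - t ^ (2 : ℕ) / 2 with hq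
  have hq0 : 0 ≤ q := by rw [hq]; nlinarith only [ht, ht1]
  have h1 : q ≤ 1 - Real.exp (-t) := by rw [hq]; linarith
  rw [div_eq_mul_inv, show 2 * t - t ^ (2 : ℕ) = 2 * q by rw [hq]; ring]
  have h3 : 0 < ρ⁻¹ := inv_pos.2 hρ
  have h5 : ρ * (Real.exp t - 1) = ρ * (1 - Real.exp (-t)) * Real.exp t := by
    linear_combination ρ * e1
  rw [h5]
  have h6 : ρ * q * Real.exp t ≤ ρ * (1 - Real.exp (-t)) * Real.exp t := by
    have : ρ * q ≤ ρ * (1 - Real.exp (-t)) := mul_le_mul_of_nonneg_left h1 hρ.le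
    exact mul_le_mul_of_nonneg_right this hE.le
  have h7 : 2 * q ≤ ρ * q * Real.exp t + q * Real.exp (-t) * ρ⁻¹ := by
    have h8 : 2 ≤ ρ * Real.exp t + Real.exp (-t) * ρ⁻¹ := by
      have h9 : (ρ * Real.exp t) * (Real.exp (-t) * ρ⁻¹) = 1 := by
        have : ρ * ρ⁻¹ = 1 := mul_inv_cancel₀ hρ.ne'
        linear_combination (ρ * ρ⁻¹) * e1 + this
      nlinarith only [h9, sq_nonneg (ρ * Real.exp t - Real.exp (-t) * ρ⁻¹), mul_pos hρ hE, mul_pos hE' h3]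
    nlinarith only [hq0, h8]
  linarith

/-- `ψ ≤ η` for `y ≥ 0` -/
theorem sP_le_sE {ρ y : ℝ} (h : Dom ρ y) (hy : 0 ≤ y) : sP ρ y ≤ sE ρ y := by
  have h1 := sx_le h
  have h2 : ρ * Real.exp (-y) ≤ ρ := by
    have : Real.exp (-y) ≤ 1 := Real.exp_le_one_iff.2 (by linarith)
    nlinarith only [this, h.1]
  unfold sE
  linarith

end SokamV3

end

/-! ### Lib_MP_af4de1_f1.TwoSad -/

section
namespace SokamF1
end SokamF1
namespace SokamF1S
end SokamF1S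
namespace SokamU
end SokamU
/-!
# The two saddle points for `N = 2`, `ρ ≥ 5/2`
-/

set_option autoImplicit false

namespace SokamF1T

open Complex SokamU SokamF1 SokamF1S

theorem exp072_le : Real.exp (18 / 25) ≤ 2.0545 := by
  have h := Real.exp_bound' (x := 18 / 25) (by norm_num) (by norm_num) (n := 7) (by norm_num)
  refine h.trans ?_
  norm_num [Finset.sum_range_succ, Nat.factorial]

theorem exp072_ge : 2.0544 ≤ Real.exp (18 / 25) := by
  have h := Real.sum_le_exp_of_nonneg (x := 18 / 25) (by norm_num) 8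
  refine le_trans ?_ h
  norm_num [Finset.sum_range_succ, Nat.factorial]

/-- `y e^y ≤ 1.4793` on `[0, 18/25]` -/
theorem yexp_le {y : ℝ} (h0 : 0 ≤ y) (h1 : y ≤ 18 / 25) : y * Real.exp y ≤ 1.4793 := by
  have h2 : Real.exp y ≤ Real.exp (18 / 25) := Real.exp_le_exp.2 h1
  have h3 := exp072_le
  calc y * Real.exp y ≤ (18 / 25) * 2.0545 := by
        refine mul_le_mul h1 (h2.trans h3) (Real.exp_pos _).le (by norm_num)
    _ ≤ 1.4793 := by norm_num

/-- `|y| e^y ≤ e^(-1)` for `y ≤ 0` -/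
theorem negexp_le {y : ℝ} (_h : y ≤ 0) : -y * Real.exp y ≤ 0.3679 := by
  have h1 : -y ≤ Real.exp (-y - 1) := by
    have := Real.add_one_le_exp (-y - 1)
    linarith
  have h2 : -y * Real.exp y ≤ Real.exp (-y - 1) * Real.exp y :=
    mul_le_mul_of_nonneg_right h1 (Real.exp_pos _).le
  rw [← Real.exp_add] at h2
  have h3 : -y - 1 + y = -1 := by ring
  rw [h3] at h2
  have h4 := Real.exp_neg_one_lt_d9
  linarith

theorem dom_pos {ρ y : ℝ} (hρ : 5 / 2 ≤ ρ) (h0 : 0 ≤ y) (h1 : y ≤ 18 / 25) : Dom ρ y := by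
  refine ⟨by linarith, ?_⟩
  rw [abs_of_nonneg h0]
  have := yexp_le h0 h1
  linarith

theorem dom_neg {ρ y : ℝ} (hρ : 5 / 2 ≤ ρ) (h1 : y ≤ 0) : Dom ρ y := by
  refine ⟨by linarith, ?_⟩
  rw [abs_of_nonpos h1]
  have := negexp_le h1
  linarith

/-- `ψ ≤ y/x` in the form `y ≤ T x → ψ ≤ T` -/
theorem sP_le_of {ρ y T : ℝ} (h : Dom ρ y) (hT : 0 ≤ T) (hy : y ≤ T * sx ρ y) (hx : 0 < sx ρ y) :
    sP ρ y ≤ T := by
  rcases le_or_gt (sP ρ y) 0 with h0 | h0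
  · linarith
  have hρ := h.1
  have hc : 0 < Real.cos (sP ρ y) := by
    rw [h.cos]
    have := Real.exp_pos y
    positivity
  have hlt : sP ρ y < Real.pi / 2 := by
    have h2 := (abs_le.1 (sP_abs_le ρ y)).2
    refine lt_of_le_of_ne h2 fun he => ?_
    rw [he, Real.cos_pi_div_two] at hc
    exact lt_irrefl _ hc
  have h1 := Real.le_tan h0.le hlt
  have h2 : Real.tan (sP ρ y) = y / sx ρ y := by
    rw [Real.tan_eq_sin_div_cos, h.sin, h.cos]
    have := Real.exp_pos y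
    field_simp
  rw [h2] at h1
  refine h1.trans ?_
  rwa [div_le_iff₀ hx]

theorem sP_neg {ρ y : ℝ} : -sP ρ y = Real.arcsin (-(y * Real.exp y) / ρ) := by
  unfold sP
  rw [neg_div, Real.arcsin_neg]

theorem neg_sP_le_of {ρ y T : ℝ} (h : Dom ρ y) (hT : 0 ≤ T) (hy : -y ≤ T * sx ρ y) (hx : 0 < sx ρ y) :
    -sP ρ y ≤ T := by
  rcases le_or_gt (-sP ρ y) 0 with h0 | h0
  · linarith
  have hρ := h.1
  have hc : 0 < Real.cos (-sP ρ y) := by
    rw [Real.cos_neg, h.cos]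
    have := Real.exp_pos y
    positivity
  have hlt : -sP ρ y < Real.pi / 2 := by
    have h2 := (abs_le.1 (sP_abs_le ρ y)).1
    refine lt_of_le_of_ne (by linarith) fun he => ?_
    rw [he, Real.cos_pi_div_two] at hc
    exact lt_irrefl _ hc
  have h1 := Real.le_tan h0.le hlt
  have h2 : Real.tan (-sP ρ y) = -y / sx ρ y := by
    rw [Real.tan_neg, Real.tan_eq_sin_div_cos, h.sin, h.cos]
    have := Real.exp_pos y
    field_simp
  rw [h2] at h1
  refine h1.trans ?_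
  rwa [div_le_iff₀ hx]

/-- `|y| ≤ T x` from `|y| e^y ≤ e` and `e² (1+T²) ≤ T² ρ²` -/
theorem abs_le_T {ρ y T e : ℝ} (h : Dom ρ y) (hT : 0 ≤ T) (he : |y| * Real.exp y ≤ e)
    (hc : e ^ (2 : ℕ) * (1 + T ^ (2 : ℕ)) ≤ T ^ (2 : ℕ) * ρ ^ (2 : ℕ)) : |y| ≤ T * sx ρ y := by
  refine abs_le_of_sq_le_sq' ?_ (mul_nonneg hT (sx_nonneg _ _)) |>.2
  rw [mul_pow, sx_sq h, sq_abs]
  have h1 : Real.exp y * Real.exp (-y) = 1 := by rw [← Real.exp_add]; simp
  have h2 : (|y| * Real.exp y) ^ (2 : ℕ) ≤ e ^ (2 : ℕ) := pow_le_pow_left₀ (by positivity) he 2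
  rw [mul_pow, sq_abs] at h2
  have h3 : y ^ (2 : ℕ) * (1 + T ^ (2 : ℕ)) ≤ T ^ (2 : ℕ) * (ρ * Real.exp (-y)) ^ (2 : ℕ) := by
    have h4 : y ^ (2 : ℕ) * Real.exp y ^ (2 : ℕ) * (1 + T ^ (2 : ℕ)) ≤ T ^ (2 : ℕ) * ρ ^ (2 : ℕ) :=
      (mul_le_mul_of_nonneg_right h2 (by positivity)).trans hc
    have h5 := mul_le_mul_of_nonneg_right h4 (sq_nonneg (Real.exp (-y)))
    have e1 : y ^ (2 : ℕ) * Real.exp y ^ (2 : ℕ) * (1 + T ^ (2 : ℕ)) * Real.exp (-y) ^ (2 : ℕ) = y ^ (2 : ℕ) * (1 + T ^ (2 : ℕ)) := by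
      have : Real.exp y ^ (2 : ℕ) * Real.exp (-y) ^ (2 : ℕ) = 1 := by rw [← mul_pow, h1, one_pow]
      linear_combination (y ^ (2 : ℕ) * (1 + T ^ (2 : ℕ))) * this
    rw [e1] at h5
    rw [mul_pow]
    linarith
  linarith only [h3]

/-- `x ≥ ρ` for `-1 ≤ y ≤ 0`, `ρ ≥ 1` -/
theorem sx_ge {ρ y : ℝ} (hρ : 5 / 2 ≤ ρ) (h0 : -(7 / 10) ≤ y) (h1 : y ≤ 0) : ρ ≤ sx ρ y := by
  have hD := dom_neg hρ h1
  refine abs_le_of_sq_le_sq' ?_ (sx_nonneg _ _) |>.2
  rw [sx_sq hD, mul_pow, ← Real.exp_nat_mul]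
  have h2 : 1 - 2 * y ≤ Real.exp (((2 : ℕ) : ℝ) * -y) := by
    have := Real.add_one_le_exp (((2 : ℕ) : ℝ) * -y)
    push_cast at this ⊢
    linarith
  have h3 : ρ ^ (2 : ℕ) * (1 - 2 * y) ≤ ρ ^ (2 : ℕ) * Real.exp (((2 : ℕ) : ℝ) * -y) :=
    mul_le_mul_of_nonneg_left h2 (sq_nonneg ρ)
  have h4 : 1 ≤ ρ ^ (2 : ℕ) := by nlinarith only [hρ]
  have h5 : -y * 1 ≤ -y * ρ ^ (2 : ℕ) := mul_le_mul_of_nonneg_left h4 (by linarith)
  nlinarith only [h0, h1, h2, h5]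

/-! ### existence of the saddle points -/

/-- `ψ sin ψ + ..`: the inequality at `y = 18/25` -/
theorem eta_up {ρ : ℝ} (hρ : 5 / 2 ≤ ρ) : 2 * Real.pi / 3 ≤ sE ρ (18 / 25) := by
  have hD := dom_pos (y := 18 / 25) hρ (by norm_num) le_rfl
  have hρ0 : 0 < ρ := by linarith
  have hE1 := exp072_le
  have hE2 := exp072_ge
  set E := Real.exp (18 / 25) with hE
  have hpi := Real.pi_lt_d6
  have hE' : Real.exp (-(18 / 25)) = 1 / E := by rw [Real.exp_neg, ← hE, one_div]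
  have hx2 := sx_sq hD
  rw [hE'] at hx2
  have hx0 := sx_nonneg ρ (18 / 25)
  set x := sx ρ (18 / 25) with hx
  have hEp : 0 < E := by linarith
  have hinv : 1 / E ≤ 0.48677 := by
    rw [div_le_iff₀ hEp]
    linarith
  have hinv0 : 0 < 1 / E := by positivity
  have hxs : x ^ (2 : ℕ) ≤ (ρ * 0.48677) ^ (2 : ℕ) - 0.5184 := by
    rw [hx2]
    have h1 : (ρ * (1 / E)) ^ (2 : ℕ) ≤ (ρ * 0.48677) ^ (2 : ℕ) := by
      refine pow_le_pow_left₀ (by positivity) ?_ 2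
      exact mul_le_mul_of_nonneg_left hinv hρ0.le
    norm_num at h1 ⊢
    linarith
  have hψ0 : 0 ≤ sP ρ (18 / 25) := sP_nonneg hρ0 (by norm_num)
  unfold sE
  rw [← hx]
  -- the arcsine
  have hsin := hD.sin
  rw [← hE] at hsin
  have harg : 1.4791 / ρ ≤ Real.sin (sP ρ (18 / 25)) := by
    rw [hsin]
    refine div_le_div_of_nonneg_right ?_ hρ0.le
    linarith only [hE2]
  have hψs : Real.sin (sP ρ (18 / 25)) ≤ sP ρ (18 / 25) := Real.sin_le hψ0
  set ψ := sP ρ (18 / 25) with hψ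
  have hψ1 : 1.4791 / ρ ≤ ψ := harg.trans hψs
  have hR0 : 0 ≤ 1.4791 / ρ + ρ - 2.0944 := by
    have : 0 < 1.4791 / ρ := by positivity
    linarith
  have hxR : x ≤ 1.4791 / ρ + ρ - 2.0944 := by
    refine abs_le_of_sq_le_sq' ?_ hR0 |>.2
    refine hxs.trans ?_
    have e1 : (1.4791 / ρ + ρ - 2.0944) ^ (2 : ℕ) - ((ρ * 0.48677) ^ (2 : ℕ) - 0.5184) =
        ((1.4791 + ρ ^ (2 : ℕ) - 2.0944 * ρ) ^ (2 : ℕ) - ρ ^ (2 : ℕ) * ((ρ * 0.48677) ^ (2 : ℕ) - 0.5184)) / ρ ^ (2 : ℕ) := by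
      field_simp
    have e2 : 0 ≤ (1.4791 + ρ ^ (2 : ℕ) - 2.0944 * ρ) ^ (2 : ℕ) - ρ ^ (2 : ℕ) * ((ρ * 0.48677) ^ (2 : ℕ) - 0.5184) := by
      obtain ⟨t, rfl⟩ : ∃ t, ρ = 5 / 2 + t := ⟨ρ - 5 / 2, by ring⟩
      have ht : 0 ≤ t := by linarith
      have e3 : 0 ≤ t ^ (4 : ℕ) := by positivity
      have e4 : 0 ≤ t ^ (3 : ℕ) := by positivity
      have e5 : 0 ≤ t ^ (2 : ℕ) := by positivity
      ring_nf
      nlinarith only [ht]
    have e3 : 0 ≤ (1.4791 / ρ + ρ - 2.0944) ^ (2 : ℕ) - ((ρ * 0.48677) ^ (2 : ℕ) - 0.5184) := by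
      rw [e1]
      positivity
    linarith
  linarith

theorem eta_lo {ρ : ℝ} (hρ : 5 / 2 ≤ ρ) : sE ρ (-(7 / 10)) ≤ -(2 * Real.pi / 3) := by
  have hD := dom_neg (y := -(7 / 10)) hρ (by norm_num)
  have hρ0 : 0 < ρ := by linarith
  have hψ := sP_nonpos (y := -(7 / 10)) hρ0 (by norm_num)
  have hpi := Real.pi_lt_d6
  have hx2 := sx_sq hD
  have hx0 := sx_nonneg ρ (-(7 / 10))
  have he : 2 ≤ Real.exp (7 / 10) := by
    have h := Real.sum_le_exp_of_nonneg (x := 7 / 10) (by norm_num) 6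
    refine le_trans ?_ h
    norm_num [Finset.sum_range_succ, Nat.factorial]
  have hx : ρ + 2.0944 ≤ sx ρ (-(7 / 10)) := by
    refine abs_le_of_sq_le_sq' ?_ hx0 |>.2
    rw [hx2, neg_neg, mul_pow]
    have h1 : (2 : ℝ) ^ (2 : ℕ) ≤ Real.exp (7 / 10) ^ (2 : ℕ) := pow_le_pow_left₀ (by norm_num) he 2
    have h2 := mul_le_mul_of_nonneg_left h1 (sq_nonneg ρ)
    nlinarith only [hρ, h2]
  unfold sE
  linarith

/-! ### estimates -/

theorem exp_neg_ge {ρ y : ℝ} (hρ : 0 < ρ) (hD : Dom ρ y) (h0 : 0 ≤ y) (h : sE ρ y ≤ 2 * Real.pi / 3) :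
    1 - 2.0944 / ρ ≤ Real.exp (-y) := by
  have h1 := sx_le hD
  have h2 := sP_nonneg hρ h0
  have hpi := Real.pi_lt_d6
  unfold sE at h
  have h3 : ρ * (1 - 2.0944 / ρ) ≤ ρ * Real.exp (-y) := by
    have : ρ * (1 - 2.0944 / ρ) = ρ - 2.0944 := by field_simp
    rw [this]
    linarith
  exact le_of_mul_le_mul_left h3 hρ

end SokamF1T

end

/-! ### Lib_MP_af4de1_v3.GapH -/

section
namespace SokamF1S
end SokamF1S
/-!
# The drop of the level along the saddles (helper69)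

`δ (Φ(0) - Φ(y)) = ρ - x (1 + y)`.  With `t = x/ρ - 1`, `ψ = |arg K|`:
right side `(ρ - x (1 + y))/ρ = (1+t) log (1+t) - t + (1+t) log sec ψ`, `ρ t + ψ = |η|`.
-/

set_option autoImplicit false

namespace SokamV3.GL

open SokamF1S Set

/-! ### elementary inequalities -/

theorem gh_cos {ψ : ℝ} (h0 : 0 ≤ ψ) (h1 : ψ ≤ Real.pi / 2) : Real.cos ψ ≤ Real.exp (-(ψ ^ (2 : ℕ) / 2)) := by
  have hd : ∀ x : ℝ, HasDerivAt (fun x : ℝ => Real.exp (x ^ (2 : ℕ) / 2) * Real.cos x)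
      (Real.exp (x ^ (2 : ℕ) / 2) * (x * Real.cos x - Real.sin x)) x := by
    intro x
    have e1 : HasDerivAt (fun x : ℝ => x ^ (2 : ℕ) / 2) x x := by
      have := (hasDerivAt_pow 2 x).div_const 2
      simpa using this
    refine (e1.exp.mul (Real.hasDerivAt_cos x)).congr_deriv ?_
    ring
  have hm : AntitoneOn (fun x : ℝ => Real.exp (x ^ (2 : ℕ) / 2) * Real.cos x) (Icc 0 (Real.pi / 2)) := by
    apply antitoneOn_of_deriv_nonpos (convex_Icc _ _)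
      (fun y _ => (hd y).continuousAt.continuousWithinAt)
      (fun y _ => (hd y).differentiableAt.differentiableWithinAt)
    intro y hy
    rw [interior_Icc] at hy
    rw [(hd y).deriv]
    have h2 := Real.lt_tan hy.1 hy.2
    have hc : 0 < Real.cos y := Real.cos_pos_of_mem_Ioo ⟨by linarith only [hy.1, Real.pi_pos], hy.2⟩
    rw [Real.tan_eq_sin_div_cos, lt_div_iff₀ hc] at h2
    have := Real.exp_pos (y ^ (2 : ℕ) / 2)
    nlinarith only [h2, this]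
  have hπ : (0 : ℝ) ≤ Real.pi / 2 := by linarith only [Real.pi_pos]
  have h2 := hm (left_mem_Icc.2 hπ) (mem_Icc.2 ⟨h0, h1⟩) h0
  simp only [zero_pow two_ne_zero, zero_div, Real.exp_zero, Real.cos_zero, mul_one] at h2
  have h3 : Real.exp (-(ψ ^ (2 : ℕ) / 2)) * Real.exp (ψ ^ (2 : ℕ) / 2) = 1 := by
    rw [← Real.exp_add]; simp
  calc Real.cos ψ = Real.exp (-(ψ ^ (2 : ℕ) / 2)) * (Real.exp (ψ ^ (2 : ℕ) / 2) * Real.cos ψ) := by
        rw [← mul_assoc, h3, one_mul]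
    _ ≤ Real.exp (-(ψ ^ (2 : ℕ) / 2)) * 1 := mul_le_mul_of_nonneg_left h2 (Real.exp_pos _).le
    _ = _ := mul_one _

theorem gh_log {t : ℝ} (ht : -1 < t) : t + t ^ (2 : ℕ) / 2 - t ^ (3 : ℕ) / 6 ≤ (1 + t) * Real.log (1 + t) := by
  -- `g = log (1+t) - t + t²/2` is increasing
  have hg : ∀ x : ℝ, -1 < x → HasDerivAt (fun x : ℝ => Real.log (1 + x) - x + x ^ (2 : ℕ) / 2)
      (x ^ (2 : ℕ) / (1 + x)) x := by
    intro x hx
    have h0 : 0 < 1 + x := by linarith only [hx]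
    have e1 : HasDerivAt (fun x : ℝ => x ^ (2 : ℕ) / 2) x x := by
      have := (hasDerivAt_pow 2 x).div_const 2
      simpa using this
    have e2 := ((((hasDerivAt_id x).const_add 1).log h0.ne').sub (hasDerivAt_id x)).add e1
    refine e2.congr_deriv ?_
    simp only [id]
    field_simp
    ring
  have hgm : MonotoneOn (fun x : ℝ => Real.log (1 + x) - x + x ^ (2 : ℕ) / 2) (Ioi (-1)) := by
    apply monotoneOn_of_deriv_nonneg (convex_Ioi _)
      (fun y hy => (hg y hy).continuousAt.continuousWithinAt)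
      (fun y hy => (hg y (by rwa [interior_Ioi] at hy)).differentiableAt.differentiableWithinAt)
    intro y hy
    rw [interior_Ioi] at hy
    rw [(hg y hy).deriv]
    have : 0 < 1 + y := by linarith only [mem_Ioi.1 hy]
    (clear * - this; positivity)
  have hf : ∀ x : ℝ, -1 < x → HasDerivAt (fun x : ℝ => (1 + x) * Real.log (1 + x) - x - x ^ (2 : ℕ) / 2 +
      x ^ (3 : ℕ) / 6) (Real.log (1 + x) - x + x ^ (2 : ℕ) / 2) x := by
    intro x hx
    have h0 : 0 < 1 + x := by linarith only [hx]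
    have e1 : HasDerivAt (fun x : ℝ => x ^ (2 : ℕ) / 2) x x := by
      have := (hasDerivAt_pow 2 x).div_const 2
      simpa using this
    have e2 : HasDerivAt (fun x : ℝ => x ^ (3 : ℕ) / 6) (x ^ (2 : ℕ) / 2) x := by
      have := (hasDerivAt_pow 3 x).div_const 6
      refine this.congr_deriv ?_
      norm_num
      ring
    have e3 := ((((((hasDerivAt_id x).const_add 1).mul
      (((hasDerivAt_id x).const_add 1).log h0.ne')).sub (hasDerivAt_id x)).sub e1).add e2)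
    refine e3.congr_deriv ?_
    simp only [id]
    field_simp
    ring
  rcases le_total 0 t with h | h
  · have hm : MonotoneOn (fun x : ℝ => (1 + x) * Real.log (1 + x) - x - x ^ (2 : ℕ) / 2 +
      x ^ (3 : ℕ) / 6) (Ici 0) := by
      apply monotoneOn_of_deriv_nonneg (convex_Ici _)
        (fun y hy => (hf y (by linarith only [mem_Ici.1 hy])).continuousAt.continuousWithinAt)
        (fun y hy => (hf y (by rw [interior_Ici] at hy; linarith [mem_Ioi.1 hy])).differentiableAt.differentiableWithinAt)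
      intro y hy
      rw [interior_Ici] at hy
      have hy' := mem_Ioi.1 hy
      rw [(hf y (by linarith only [hy'])).deriv]
      have := hgm (mem_Ioi.2 (by norm_num : (-1 : ℝ) < 0)) (mem_Ioi.2 (by linarith only [hy'])) hy'.le
      simpa using this
    have := hm (mem_Ici.2 le_rfl) (mem_Ici.2 h) h
    simp at this
    linarith only [this]
  · have hm : AntitoneOn (fun x : ℝ => (1 + x) * Real.log (1 + x) - x - x ^ (2 : ℕ) / 2 +
      x ^ (3 : ℕ) / 6) (Ioc (-1) 0) := by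
      apply antitoneOn_of_deriv_nonpos (convex_Ioc _ _)
        (fun y hy => (hf y hy.1).continuousAt.continuousWithinAt)
        (fun y hy => (hf y (by rw [interior_Ioc] at hy; exact hy.1)).differentiableAt.differentiableWithinAt)
      intro y hy
      rw [interior_Ioc] at hy
      rw [(hf y hy.1).deriv]
      have := hgm (mem_Ioi.2 hy.1) (mem_Ioi.2 (by norm_num : (-1 : ℝ) < 0)) hy.2.le
      simpa using this
    have := hm (mem_Ioc.2 ⟨ht, h⟩) (mem_Ioc.2 ⟨by norm_num, le_rfl⟩) h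
    simp at this
    linarith

/-- `-log (1 - s) ≤ s + s²/2 + 2s³/3` -/
theorem gh_log2 {s : ℝ} (h0 : 0 ≤ s) (h1 : s ≤ 1 / 2) :
    -Real.log (1 - s) ≤ s + s ^ (2 : ℕ) / 2 + 2 / 3 * s ^ (3 : ℕ) := by
  have hf : ∀ x : ℝ, x < 1 → HasDerivAt (fun x : ℝ => x + x ^ (2 : ℕ) / 2 + 2 / 3 * x ^ (3 : ℕ) + Real.log (1 - x))
      (1 + x + 2 * x ^ (2 : ℕ) - 1 / (1 - x)) x := by
    intro x hx
    have e1 : HasDerivAt (fun x : ℝ => x ^ (2 : ℕ) / 2) x x := by
      have := (hasDerivAt_pow 2 x).div_const 2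
      simpa using this
    have e2 : HasDerivAt (fun x : ℝ => 2 / 3 * x ^ (3 : ℕ)) (2 * x ^ (2 : ℕ)) x := by
      have := (hasDerivAt_pow 3 x).const_mul (2 / 3)
      refine this.congr_deriv ?_
      norm_num
      ring
    have e3 := (((hasDerivAt_id x).add e1).add e2).add
      (((hasDerivAt_id x).const_sub 1).log (by simp only [id]; linarith only [hx]))
    refine e3.congr_deriv ?_
    simp only [id]
    have : 1 - x ≠ 0 := by linarith only [hx]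
    field_simp
    ring
  have hm : MonotoneOn (fun x : ℝ => x + x ^ (2 : ℕ) / 2 + 2 / 3 * x ^ (3 : ℕ) + Real.log (1 - x))
      (Icc 0 (1 / 2)) := by
    apply monotoneOn_of_deriv_nonneg (convex_Icc _ _)
      (fun y hy => (hf y (by linarith only [hy.2])).continuousAt.continuousWithinAt)
      (fun y hy => (hf y (by rw [interior_Icc] at hy; linarith only [hy.2])).differentiableAt.differentiableWithinAt)
    intro y hy
    rw [interior_Icc] at hy
    rw [(hf y (by linarith only [hy.2])).deriv, sub_nonneg, div_le_iff₀ (by linarith only [hy.2])]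
    linarith only [mul_nonneg (sq_nonneg y) (by linarith only [hy.2] : 0 ≤ 1 - 2 * y)]
  have := hm (left_mem_Icc.2 (by norm_num)) (mem_Icc.2 ⟨h0, h1⟩) h0
  simp at this
  linarith only [this]

/-- the harmonic inequality -/
theorem gh_harm (t ψ : ℝ) : |t ^ (3 : ℕ) - 3 * t * ψ ^ (2 : ℕ)| ≤ √(t ^ (2 : ℕ) + ψ ^ (2 : ℕ)) ^ (3 : ℕ) := by
  have h0 : 0 ≤ √(t ^ (2 : ℕ) + ψ ^ (2 : ℕ)) := Real.sqrt_nonneg _
  have h1 : √(t ^ (2 : ℕ) + ψ ^ (2 : ℕ)) ^ (2 : ℕ) = t ^ (2 : ℕ) + ψ ^ (2 : ℕ) := Real.sq_sqrt (by positivity)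
  apply abs_le_of_sq_le_sq _ (by (clear * -; positivity))
  have h2 : (√(t ^ (2 : ℕ) + ψ ^ (2 : ℕ)) ^ (3 : ℕ)) ^ (2 : ℕ) = (t ^ (2 : ℕ) + ψ ^ (2 : ℕ)) ^ (3 : ℕ) := by
    calc (√(t ^ (2 : ℕ) + ψ ^ (2 : ℕ)) ^ (3 : ℕ)) ^ (2 : ℕ) = (√(t ^ (2 : ℕ) + ψ ^ (2 : ℕ)) ^ (2 : ℕ)) ^ (3 : ℕ) := by ring
      _ = _ := by rw [h1]
  rw [h2]
  linarith only [sq_nonneg (3 * t ^ (2 : ℕ) * ψ - ψ ^ (3 : ℕ))]

theorem gh_mono {l w : ℝ} (h0 : 0 ≤ w) (h1 : w ≤ l) (h2 : l ≤ 2) :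
    w ^ (2 : ℕ) / 2 - w ^ (3 : ℕ) / 6 ≤ l ^ (2 : ℕ) / 2 - l ^ (3 : ℕ) / 6 := by
  have h3 : l ^ (2 : ℕ) + l * w + w ^ (2 : ℕ) ≤ 3 * (l + w) := by nlinarith
  have h4 : l ^ (2 : ℕ) / 2 - l ^ (3 : ℕ) / 6 - (w ^ (2 : ℕ) / 2 - w ^ (3 : ℕ) / 6) =
      (l - w) * ((l + w) / 2 - (l ^ (2 : ℕ) + l * w + w ^ (2 : ℕ)) / 6) := by ring
  have h5 := mul_nonneg (sub_nonneg.2 h1) (by linarith : 0 ≤ (l + w) / 2 - (l ^ (2 : ℕ) + l * w + w ^ (2 : ℕ)) / 6)
  linarith only [h5]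

/-- lower bound of `K`, all `ρ` -/
theorem gh_K2 {θ σ t ψ w : ℝ} (hu : θ ^ (2 : ℕ) + σ ^ (2 : ℕ) = 1) (hw : θ * t + σ * ψ = w) (hw0 : 0 ≤ w)
    (ht : |t| ≤ 1) (hψ : |ψ| ≤ 8 / 5) :
    w ^ (2 : ℕ) / 2 - w ^ (3 : ℕ) / 6 ≤ (t ^ (2 : ℕ) + ψ ^ (2 : ℕ)) / 2 - |t ^ (3 : ℕ) - 3 * t * ψ ^ (2 : ℕ)| / 6 := by
  set l := √(t ^ (2 : ℕ) + ψ ^ (2 : ℕ)) with hl
  have h0 : 0 ≤ l := Real.sqrt_nonneg _
  have h1 : l ^ (2 : ℕ) = t ^ (2 : ℕ) + ψ ^ (2 : ℕ) := Real.sq_sqrt (by (clear * -; positivity))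
  have h2 : w ≤ l := by
    apply Real.le_sqrt_of_sq_le
    rw [← hw]
    nlinarith only [hu, sq_nonneg (θ * ψ - σ * t)]
  have h3 : l ≤ 2 := by
    have a1 : t ^ (2 : ℕ) ≤ 1 := by rw [← sq_abs]; nlinarith only [ht, abs_nonneg t]
    have a2 : ψ ^ (2 : ℕ) ≤ (8 / 5) ^ (2 : ℕ) := by rw [← sq_abs]; nlinarith only [hψ, abs_nonneg ψ]
    nlinarith only [h1, a1, a2]
  have h4 := gh_harm t ψ
  have h5 := gh_mono hw0 h2 h3
  rw [← h1]
  linarith only [h4, h5]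

/-- lower bound of `K`, `θ² ≤ 3/4` -/
theorem gh_K1 {θ σ t ψ w : ℝ} (hθ : 0 ≤ θ) (hu : θ ^ (2 : ℕ) + σ ^ (2 : ℕ) = 1)
    (hθ2 : θ ^ (2 : ℕ) ≤ 3 / 4) (hw : θ * t + σ * ψ = w) (hw0 : 0 ≤ w) (hw1 : w ≤ 16 / 25)
    (ht : |t| ≤ 1) (hψ : |ψ| ≤ 8 / 5) :
    w ^ (2 : ℕ) / 2 - w ^ (4 : ℕ) / 8 ≤ (t ^ (2 : ℕ) + ψ ^ (2 : ℕ)) / 2 - (t ^ (3 : ℕ) - 3 * t * ψ ^ (2 : ℕ)) / 6 := by
  set z : ℝ := σ * t - θ * ψ with hz
  have hl : t ^ (2 : ℕ) + ψ ^ (2 : ℕ) = w ^ (2 : ℕ) + z ^ (2 : ℕ) := by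
    rw [← hw, hz]
    linear_combination (-(t ^ (2 : ℕ)) - ψ ^ (2 : ℕ)) * hu
  rcases le_total (3 * z ^ (2 : ℕ)) (w ^ (2 : ℕ)) with h | h
  · have hC : t ^ (3 : ℕ) - 3 * t * ψ ^ (2 : ℕ) = (4 * θ ^ (3 : ℕ) - 3 * θ) * (w ^ (3 : ℕ) - 3 * w * z ^ (2 : ℕ)) +
        (3 * σ - 4 * σ ^ (3 : ℕ)) * (3 * w ^ (2 : ℕ) * z - z ^ (3 : ℕ)) := by
      have e1 : t = θ * w + σ * z := by
        rw [← hw, hz]; linear_combination (-t) * hu
      have e2 : ψ = σ * w - θ * z := by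
        rw [← hw, hz]; linear_combination (-ψ) * hu
      have e3 : σ ^ (2 : ℕ) = 1 - θ ^ (2 : ℕ) := by linarith only [hu]
      rw [e1, e2]
      have e4 : σ ^ (3 : ℕ) = σ * (1 - θ ^ (2 : ℕ)) := by rw [← e3]; ring
      have e5 : σ ^ (4 : ℕ) = (1 - θ ^ (2 : ℕ)) ^ (2 : ℕ) := by rw [← e3]; ring
      ring_nf
      rw [e4, e3]
      ring
    have hC3 : 4 * θ ^ (3 : ℕ) - 3 * θ ≤ 0 := by nlinarith only [hθ, hθ2]
    have hS3 : |3 * σ - 4 * σ ^ (3 : ℕ)| ≤ 1 := by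
      apply abs_le_of_sq_le_sq _ zero_le_one
      have e3 : θ ^ (2 : ℕ) = 1 - σ ^ (2 : ℕ) := by linarith only [hu]
      have : (3 * σ - 4 * σ ^ (3 : ℕ)) ^ (2 : ℕ) + (4 * θ ^ (3 : ℕ) - 3 * θ) ^ (2 : ℕ) = 1 := by
        have e6 : (4 * θ ^ (3 : ℕ) - 3 * θ) ^ (2 : ℕ) = θ ^ (2 : ℕ) * (4 * θ ^ (2 : ℕ) - 3) ^ (2 : ℕ) := by ring
        rw [e6, e3]
        ring
      nlinarith only [this]
    have h1 : 0 ≤ w ^ (3 : ℕ) - 3 * w * z ^ (2 : ℕ) := by nlinarith only [hw0, h]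
    have h2 : (4 * θ ^ (3 : ℕ) - 3 * θ) * (w ^ (3 : ℕ) - 3 * w * z ^ (2 : ℕ)) ≤ 0 :=
      mul_nonpos_of_nonpos_of_nonneg hC3 h1
    have h3 : |3 * w ^ (2 : ℕ) * z - z ^ (3 : ℕ)| ≤ 3 * w ^ (2 : ℕ) * |z| := by
      have : 3 * w ^ (2 : ℕ) * z - z ^ (3 : ℕ) = z * (3 * w ^ (2 : ℕ) - z ^ (2 : ℕ)) := by ring
      rw [this, abs_mul, abs_of_nonneg (by nlinarith : 0 ≤ 3 * w ^ (2 : ℕ) - z ^ (2 : ℕ))]
      nlinarith only [abs_nonneg z]
    have h4 : (3 * σ - 4 * σ ^ (3 : ℕ)) * (3 * w ^ (2 : ℕ) * z - z ^ (3 : ℕ)) ≤ 3 * w ^ (2 : ℕ) * |z| := by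
      calc _ ≤ |(3 * σ - 4 * σ ^ (3 : ℕ)) * (3 * w ^ (2 : ℕ) * z - z ^ (3 : ℕ))| := le_abs_self _
        _ = |3 * σ - 4 * σ ^ (3 : ℕ)| * |3 * w ^ (2 : ℕ) * z - z ^ (3 : ℕ)| := abs_mul _ _
        _ ≤ 1 * (3 * w ^ (2 : ℕ) * |z|) := mul_le_mul hS3 h3 (abs_nonneg _) zero_le_one
        _ = _ := one_mul _
    rw [hl]
    have h5 : z ^ (2 : ℕ) = |z| ^ (2 : ℕ) := (sq_abs z).symm
    linarith only [hC, h2, h4, h5, sq_nonneg (|z| - w ^ (2 : ℕ) / 2)]
  · set l := √(t ^ (2 : ℕ) + ψ ^ (2 : ℕ)) with hl2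
    have h0 : 0 ≤ l := Real.sqrt_nonneg _
    have h1 : l ^ (2 : ℕ) = t ^ (2 : ℕ) + ψ ^ (2 : ℕ) := Real.sq_sqrt (by (clear * -; positivity))
    have h3 : l ≤ 2 := by
      have a1 : t ^ (2 : ℕ) ≤ 1 := by rw [← sq_abs]; nlinarith only [ht, abs_nonneg t]
      have a2 : ψ ^ (2 : ℕ) ≤ (8 / 5) ^ (2 : ℕ) := by rw [← sq_abs]; nlinarith only [hψ, abs_nonneg ψ]
      nlinarith only [h1, a1, a2]
    have h2 : 577 / 500 * w ≤ l := by
      apply Real.le_sqrt_of_sq_le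
      rw [hl]
      nlinarith only [h]
    have h4 := (le_abs_self _).trans (gh_harm t ψ)
    have h5 := gh_mono (w := 577 / 500 * w) (by (clear * - hw0; positivity)) h2 h3
    rw [← h1]
    rw [← hl2] at h4
    have h6 : w ^ (2 : ℕ) / 2 - w ^ (4 : ℕ) / 8 ≤ (577 / 500 * w) ^ (2 : ℕ) / 2 - (577 / 500 * w) ^ (3 : ℕ) / 6 := by
      nlinarith only [mul_nonneg (sq_nonneg w) (sub_nonneg.2 hw1)]
    linarith only [h4, h5, h6]

/-! ### monotone functions along the saddles -/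

/-- a function on `[y₁, y₂]` with nonnegative derivative in the interior -/
theorem gh_mon {f f' : ℝ → ℝ} {a b : ℝ} (hab : a ≤ b) (hc : ContinuousOn f (Icc a b))
    (hd : ∀ y ∈ Ioo a b, HasDerivAt f (f' y) y) (hp : ∀ y ∈ Ioo a b, 0 ≤ f' y) : f a ≤ f b := by
  have hm : MonotoneOn f (Icc a b) := by
    apply monotoneOn_of_deriv_nonneg (convex_Icc _ _) hc
      (fun y hy => (hd y (by rwa [interior_Icc] at hy)).differentiableAt.differentiableWithinAt)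
    intro y hy
    rw [interior_Icc] at hy
    rw [(hd y hy).deriv]
    exact hp y hy
  exact hm (left_mem_Icc.2 hab) (right_mem_Icc.2 hab) hab

theorem gh_sD2 {ρ y : ℝ} (h : Dom ρ y) : sD2 ρ y = 1 + 2 * y + ρ ^ (2 : ℕ) * Real.exp (-2 * y) := by
  have := sx_sq h
  rw [← exp_two] at this
  unfold sD2
  linarith only [this]

theorem gh_expm2 (y : ℝ) : Real.exp (-2 * y) = Real.exp (-y) ^ (2 : ℕ) := by
  rw [← Real.exp_nat_mul]
  congr 1
  push_cast
  ring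

/-- `(1 - 2y) e^y - 1 + ρ² (e^{-y} - 1) ≤ -ρ η`, `y ≤ 0` -/
theorem right_P {ρ y : ℝ} (h : Dom ρ y) (hy1 : -1 < y) (hy : y ≤ 0) :
    (1 - 2 * y) * Real.exp y - 1 + ρ ^ (2 : ℕ) * (Real.exp (-y) - 1) ≤ -(ρ * sE ρ y) := by
  have hρ := h.1
  have key := gh_mon (f := fun y => (1 - 2 * y) * Real.exp y - 1 + ρ ^ (2 : ℕ) * (Real.exp (-y) - 1) +
      ρ * sE ρ y) (f' := fun y => -(1 + 2 * y) * Real.exp y - ρ ^ (2 : ℕ) * Real.exp (-y) +
      ρ * (sD2 ρ y / sx ρ y)) hy (by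
      have := continuous_sE ρ
      fun_prop) (fun z hz => by
      have h3 := dom_between h (dom_zero hρ) hy1.le hz
      have e1 := (((hasDerivAt_id z).const_mul 2).const_sub 1).mul (Real.hasDerivAt_exp z)
      have e2 := (((hasDerivAt_neg z).exp).sub_const 1).const_mul (ρ ^ (2 : ℕ))
      have e3 := ((e1.sub_const 1).add e2).add ((hasDerivAt_sE hρ h3).const_mul ρ)
      refine e3.congr_deriv ?_
      simp only [id]
      ring) (fun z hz => by
      have h3 := dom_between h (dom_zero hρ) hy1.le hz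
      have hD : Dom ρ z := ⟨hρ, h3.le⟩
      have hx := sx_pos hρ h3
      have hx2 := sx_le hD
      have hDp : 0 < sD2 ρ z := sD2_pos (by linarith only [hy1, hz.1])
      have e1 : Real.exp z * sD2 ρ z = (1 + 2 * z) * Real.exp z + ρ ^ (2 : ℕ) * Real.exp (-z) := by
        rw [gh_sD2 hD, gh_expm2]
        have : Real.exp z * Real.exp (-z) = 1 := by rw [← Real.exp_add]; simp
        linear_combination (ρ ^ (2 : ℕ) * Real.exp (-z)) * this
      have e2 : Real.exp z * sD2 ρ z ≤ ρ * (sD2 ρ z / sx ρ z) := by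
        rw [← mul_div_assoc, le_div_iff₀ hx]
        have e3 : Real.exp z * sx ρ z ≤ ρ := by
          calc Real.exp z * sx ρ z ≤ Real.exp z * (ρ * Real.exp (-z)) :=
                mul_le_mul_of_nonneg_left hx2 (Real.exp_pos _).le
            _ = ρ * (Real.exp z * Real.exp (-z)) := by ring
            _ = ρ := by rw [← Real.exp_add]; simp
        nlinarith only [hDp, e3]
      linarith only [e1, e2])
  simp only [sE_zero hρ, Real.exp_zero, neg_zero, mul_zero, sub_zero, mul_one, sub_self,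
    add_zero] at key
  linarith only [key]

/-- `1 - e^{-y} ≤ ρ η/(1 + ρ²)`, `y ≥ 0` -/
theorem left_P {ρ y : ℝ} (h : Dom ρ y) (hy : 0 ≤ y) :
    (1 + ρ ^ (2 : ℕ)) * (1 - Real.exp (-y)) ≤ ρ * sE ρ y := by
  have hρ := h.1
  have key := gh_mon (f := fun y => ρ * sE ρ y - (1 + ρ ^ (2 : ℕ)) * (1 - Real.exp (-y)))
      (f' := fun y => ρ * (sD2 ρ y / sx ρ y) - (1 + ρ ^ (2 : ℕ)) * Real.exp (-y)) hy (by
      have := continuous_sE ρ
      fun_prop) (fun z hz => by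
      have h3 := dom_between (dom_zero hρ) h (by norm_num) hz
      have e2 := (((hasDerivAt_neg z).exp).const_sub 1).const_mul (1 + ρ ^ (2 : ℕ))
      have e3 := ((hasDerivAt_sE hρ h3).const_mul ρ).sub e2
      refine e3.congr_deriv ?_
      ring) (fun z hz => by
      have h3 := dom_between (dom_zero hρ) h (by norm_num) hz
      have hD : Dom ρ z := ⟨hρ, h3.le⟩
      have hx := sx_pos hρ h3
      have hx2 := sx_le hD
      have hz0 := hz.1
      have hDp : 0 < sD2 ρ z := sD2_pos (by linarith only [hz.1])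
      have e0 : Real.exp z * Real.exp (-z) = 1 := by rw [← Real.exp_add]; simp
      have e2 : Real.exp z * sD2 ρ z ≤ ρ * (sD2 ρ z / sx ρ z) := by
        rw [← mul_div_assoc, le_div_iff₀ hx]
        have e3 : Real.exp z * sx ρ z ≤ ρ := by
          calc Real.exp z * sx ρ z ≤ Real.exp z * (ρ * Real.exp (-z)) :=
                mul_le_mul_of_nonneg_left hx2 (Real.exp_pos _).le
            _ = ρ * (Real.exp z * Real.exp (-z)) := by ring
            _ = ρ := by rw [e0, mul_one]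
        nlinarith only [hDp, e3]
      have e4 : (1 + ρ ^ (2 : ℕ)) * Real.exp (-z) ≤ Real.exp z * sD2 ρ z := by
        have e5 : (1 + ρ ^ (2 : ℕ)) * Real.exp (-z) ^ (2 : ℕ) ≤ sD2 ρ z := by
          rw [gh_sD2 hD, gh_expm2]
          have e6 : Real.exp (-z) ≤ 1 := Real.exp_le_one_iff.2 (by linarith only [hz0])
          have e7 := Real.exp_pos (-z)
          nlinarith only [hz0, e6, e7]
        calc (1 + ρ ^ (2 : ℕ)) * Real.exp (-z) =
            Real.exp z * ((1 + ρ ^ (2 : ℕ)) * Real.exp (-z) ^ (2 : ℕ)) := by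
              linear_combination (-((1 + ρ ^ (2 : ℕ)) * Real.exp (-z))) * e0
          _ ≤ _ := mul_le_mul_of_nonneg_left e5 (Real.exp_pos _).le
      linarith only [e2, e4])
  simp only [sE_zero hρ, neg_zero, Real.exp_zero, sub_self, mul_zero] at key
  linarith only [key]

theorem sE_nonneg {ρ y : ℝ} (h : Dom ρ y) (hy : 0 ≤ y) : 0 ≤ sE ρ y := by
  have h1 := left_P h hy
  have h2 : Real.exp (-y) ≤ 1 := Real.exp_le_one_iff.2 (by linarith only [hy])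
  have h3 := h.1
  by_contra hcon
  push Not at hcon
  have h4 : ρ * sE ρ y < 0 := mul_neg_of_pos_of_neg h3 hcon
  have h5 : 0 ≤ (1 + ρ ^ (2 : ℕ)) * (1 - Real.exp (-y)) := mul_nonneg (by positivity) (by linarith only [h2])
  linarith only [h1, h4, h5]

/-- the upper bound of `y` on the left -/
theorem left_y {ρ y s : ℝ} (h : Dom ρ y) (hy : 0 ≤ y) (hs : (1 + ρ ^ (2 : ℕ)) * s = ρ * sE ρ y)
    (hs1 : s ≤ 1 / 2) : y ≤ s + s ^ (2 : ℕ) / 2 + 2 / 3 * s ^ (3 : ℕ) := by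
  have h1 := left_P h hy
  have hR : 0 < 1 + ρ ^ (2 : ℕ) := by (clear * -; positivity)
  have hs0 : 0 ≤ s := by
    have := mul_nonneg h.1.le (sE_nonneg h hy)
    rw [← hs] at this
    exact nonneg_of_mul_nonneg_right this hR
  have h2 : 1 - Real.exp (-y) ≤ s := by
    rw [← hs] at h1
    exact le_of_mul_le_mul_left h1 hR
  have h3 : Real.log (1 - s) ≤ -y := by
    rw [Real.log_le_iff_le_exp (by linarith only [hs1])]
    linarith only [h2]
  have h4 := gh_log2 hs0 hs1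
  linarith only [h3, h4]

/-- the drop on the left, upper bound -/
theorem left_drop_le {ρ y s : ℝ} (h : Dom ρ y) (hy : 0 ≤ y) (hs : (1 + ρ ^ (2 : ℕ)) * s = ρ * sE ρ y)
    (hs1 : s ≤ 1 / 2) :
    ρ * (ρ - sx ρ y * (1 + y)) ≤ (1 + ρ ^ (2 : ℕ)) * (s ^ (2 : ℕ) / 2 + s ^ (3 : ℕ) / 6 + s ^ (4 : ℕ) / 6) := by
  have hρ := h.1
  have hR : 0 < 1 + ρ ^ (2 : ℕ) := by (clear * - hρ; positivity)
  have hsy : s = ρ * sE ρ y / (1 + ρ ^ (2 : ℕ)) := by rw [← hs]; field_simp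
  have hmono : ∀ z ∈ Ioo 0 y, sE ρ z ≤ sE ρ y := fun z hz =>
    (sE_strictMonoOn (dom_zero hρ) h (by norm_num)).monotoneOn ⟨hz.1.le, hz.2.le⟩
      ⟨hy, le_rfl⟩ hz.2.le
  have key := gh_mon (f := fun z => (1 + ρ ^ (2 : ℕ)) * ((ρ * sE ρ z / (1 + ρ ^ (2 : ℕ))) ^ (2 : ℕ) / 2 +
      (ρ * sE ρ z / (1 + ρ ^ (2 : ℕ))) ^ (3 : ℕ) / 6 + (ρ * sE ρ z / (1 + ρ ^ (2 : ℕ))) ^ (4 : ℕ) / 6) +
      ρ * (sx ρ z * (1 + z)))
      (f' := fun z => ρ * (sD2 ρ z / sx ρ z) * ((ρ * sE ρ z / (1 + ρ ^ (2 : ℕ))) +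
        (ρ * sE ρ z / (1 + ρ ^ (2 : ℕ))) ^ (2 : ℕ) / 2 + 2 / 3 * (ρ * sE ρ z / (1 + ρ ^ (2 : ℕ))) ^ (3 : ℕ) - z)) hy (by
      have h1 := continuous_sE ρ
      have h2 := continuous_sx ρ
      have h3 : ∀ z : ℝ, (1 + ρ ^ (2 : ℕ)) ≠ 0 := fun _ => hR.ne'
      fun_prop (disch := exact hR.ne')) (fun z hz => by
      have h3 := dom_between (dom_zero hρ) h (by norm_num) hz
      have e1 := ((hasDerivAt_sE hρ h3).const_mul ρ).div_const (1 + ρ ^ (2 : ℕ))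
      have e2 := (((e1.pow 2).div_const 2).add ((e1.pow 3).div_const 6)).add ((e1.pow 4).div_const 6)
      have e3 := (e2.const_mul (1 + ρ ^ (2 : ℕ))).add ((hasDerivAt_sPhi hρ h3).const_mul ρ)
      refine e3.congr_deriv ?_
      push_cast
      field_simp
      ring) (fun z hz => by
      have h3 := dom_between (dom_zero hρ) h (by norm_num) hz
      have hD : Dom ρ z := ⟨hρ, h3.le⟩
      have hx := sx_pos hρ h3
      have hDp : 0 < sD2 ρ z := sD2_pos (by linarith only [hz.1])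
      have e1 : ρ * sE ρ z / (1 + ρ ^ (2 : ℕ)) ≤ 1 / 2 := by
        refine le_trans ?_ hs1
        rw [hsy]
        apply div_le_div_of_nonneg_right _ hR.le
        exact mul_le_mul_of_nonneg_left (hmono z hz) hρ.le
      have e2 := left_y hD hz.1.le (s := ρ * sE ρ z / (1 + ρ ^ (2 : ℕ))) (by field_simp) e1
      exact mul_nonneg (by (clear * - hρ hDp hx; positivity)) (by linarith only [e2]))
  have e0 : sx ρ 0 = ρ := by
    unfold sx
    simp [Real.sqrt_sq hρ.le]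
  simp only [sE_zero hρ, e0, mul_zero, zero_div] at key
  rw [← hsy] at key
  norm_num at key
  linarith only [key]

/-! ### the right side -/

theorem sE_nonpos {ρ y : ℝ} (h : Dom ρ y) (hy1 : -1 < y) (hy : y ≤ 0) : sE ρ y ≤ 0 := by
  rw [← sE_zero h.1]
  exact (sE_strictMonoOn h (dom_zero h.1) hy1.le).monotoneOn ⟨le_rfl, hy⟩ ⟨hy, le_rfl⟩ hy

theorem gh_en {n : ℝ} (h : 0 ≤ n) : 1 - n + n ^ (2 : ℕ) / 2 - n ^ (3 : ℕ) / 6 ≤ Real.exp (-n) := by
  have d : ∀ t : ℝ, HasDerivAt (fun t : ℝ => Real.exp (-t)) (-Real.exp (-t)) t := fun t => by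
    simpa using (hasDerivAt_neg t).exp
  have e1 : ∀ n : ℝ, 0 ≤ n → 1 - n ≤ Real.exp (-n) := fun n _ => by
    linarith only [Real.add_one_le_exp (-n)]
  have e2 : ∀ n : ℝ, 0 ≤ n → Real.exp (-n) ≤ 1 - n + n ^ (2 : ℕ) / 2 := fun n hn => by
    have := gh_mon (f := fun n => 1 - n + n ^ (2 : ℕ) / 2 - Real.exp (-n))
      (f' := fun n => -1 + n + Real.exp (-n)) hn (by fun_prop) (fun z _ => by
        have a1 := (((hasDerivAt_id z).const_sub 1).add ((hasDerivAt_pow 2 z).div_const 2)).sub (d z)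
        refine a1.congr_deriv ?_
        norm_num) (fun z hz => by linarith only [e1 z hz.1.le])
    norm_num at this
    linarith only [this]
  have := gh_mon (f := fun n => Real.exp (-n) - (1 - n + n ^ (2 : ℕ) / 2 - n ^ (3 : ℕ) / 6))
      (f' := fun n => -Real.exp (-n) - (-1 + n - n ^ (2 : ℕ) / 2)) h (by fun_prop) (fun z _ => by
        have a1 := (d z).sub ((((hasDerivAt_id z).const_sub 1).add
          ((hasDerivAt_pow 2 z).div_const 2)).sub ((hasDerivAt_pow 3 z).div_const 6))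
        refine a1.congr_deriv ?_
        norm_num
        ring) (fun z hz => by linarith [e2 z hz.1.le])
  norm_num at this
  linarith only [this]

/-- polynomial form of `right_P`, `n = -y` -/
theorem right_Q {ρ n : ℝ} (h : Dom ρ (-n)) (hn1 : n < 1) (hn : 0 ≤ n) :
    n - 3 / 2 * n ^ (2 : ℕ) + 5 / 6 * n ^ (3 : ℕ) - 1 / 3 * n ^ (4 : ℕ) + ρ ^ (2 : ℕ) * (n + n ^ (2 : ℕ) / 2) ≤
      -(ρ * sE ρ (-n)) := by
  have h1 := right_P h (by linarith only [hn1]) (by linarith only [hn])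
  rw [neg_neg] at h1
  have h2 := gh_en hn
  have h3 := Real.quadratic_le_exp_of_nonneg hn
  have h4 : (1 + 2 * n) * (1 - n + n ^ (2 : ℕ) / 2 - n ^ (3 : ℕ) / 6) ≤ (1 - 2 * -n) * Real.exp (-n) := by
    have : (1 - 2 * -n) = 1 + 2 * n := by ring
    rw [this]
    exact mul_le_mul_of_nonneg_left h2 (by linarith only [hn])
  have h5 : ρ ^ (2 : ℕ) * (n + n ^ (2 : ℕ) / 2) ≤ ρ ^ (2 : ℕ) * (Real.exp n - 1) :=
    mul_le_mul_of_nonneg_left (by linarith only [h3]) (sq_nonneg _)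
  nlinarith only [h1, h3, h4]

/-- `ρ² ≥ 3` -/
theorem right_n2 {ρ n : ℝ} (h : Dom ρ (-n)) (hn1 : n < 1) (hn : 0 ≤ n) (hρ : 3 ≤ ρ ^ (2 : ℕ)) :
    (1 + ρ ^ (2 : ℕ)) * n ≤ -(ρ * sE ρ (-n)) := by
  have h1 := right_Q h hn1 hn
  have h2 : 0 ≤ n ^ (3 : ℕ) * (5 / 6 - 1 / 3 * n) := mul_nonneg (by (clear * - hn; positivity)) (by linarith only [hn1])
  linarith only [h1, h2, mul_nonneg (sub_nonneg.2 hρ) (sq_nonneg n)]

/-- comparison: if the polynomial is too large at `N` then `n ≤ N` -/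
theorem right_n_lt {ρ n N : ℝ} (h : Dom ρ (-n)) (hn1 : n < 1) (hN : 0 ≤ N)
    (hP : -(ρ * sE ρ (-n)) < N - 3 / 2 * N ^ (2 : ℕ) + 5 / 6 * N ^ (3 : ℕ) - 1 / 3 * N ^ (4 : ℕ) +
      ρ ^ (2 : ℕ) * (N + N ^ (2 : ℕ) / 2)) : n < N := by
  by_contra hcon
  push Not at hcon
  have hρ := h.1
  have hD : Dom ρ (-N) := by
    rcases hcon.lt_or_eq with h1 | h1
    · rcases hN.lt_or_eq with h2 | h2
      · exact ⟨hρ, (dom_between h (dom_zero hρ) (by linarith only [hn1]) ⟨by linarith only [h1], by linarith only [h2]⟩).le⟩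
      · rw [← h2, neg_zero]; exact dom_zero hρ
    · rw [h1]; exact h
  have h1 := right_Q hD (by linarith only [hn1, hcon]) hN
  have h2 : sE ρ (-n) ≤ sE ρ (-N) :=
    (sE_strictMonoOn h (dom_zero hρ) (by linarith only [hn1])).monotoneOn ⟨le_rfl, by linarith only [hN, hcon]⟩
      ⟨by linarith only [hcon], by linarith only [hN]⟩ (by linarith only [hcon])
  have h3 := mul_le_mul_of_nonneg_left h2 hρ.le
  linarith

/-- **The drop on the right.** -/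
theorem right_drop {ρ y w q : ℝ} (h : Dom ρ y) (hy1 : -1 < y) (hy : y ≤ 0) (hq : 0 < q)
    (hq2 : q ^ (2 : ℕ) = 1 + ρ ^ (2 : ℕ)) (hw : q * w = -sE ρ y) (hw1 : w ≤ 16 / 25) :
    ρ * (w ^ (2 : ℕ) / 2 - w ^ (3 : ℕ) / 6) ≤ ρ - sx ρ y * (1 + y) ∧
      (ρ ^ (2 : ℕ) ≤ 3 → ρ * (w ^ (2 : ℕ) / 2 - w ^ (4 : ℕ) / 8) ≤ ρ - sx ρ y * (1 + y)) := by
  have hρ := h.1
  have hw0 : 0 ≤ w := by
    have := sE_nonpos h hy1 hy
    have h1 : 0 ≤ q * w := by linarith only [hw, this]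
    exact nonneg_of_mul_nonneg_right h1 hq
  set ψ := -sP ρ y with hψ
  have hψ0 : 0 ≤ ψ := by
    have := sP_nonpos hρ hy
    linarith only [this]
  have hψ1 : ψ ≤ Real.pi / 2 := by
    have := (abs_le.1 (sP_abs_le ρ y)).1
    linarith only [this]
  have hcos : Real.cos ψ = sx ρ y * Real.exp y / ρ := by
    rw [hψ, Real.cos_neg, h.cos]
  have hEt : -sE ρ y = ψ + sx ρ y - ρ := by
    rw [hψ]; unfold sE; ring
  -- small or large `t`
  have key : (ρ * (w ^ (2 : ℕ) / 2) ≤ ρ - sx ρ y * (1 + y)) ∨ ∃ t : ℝ, |t| ≤ 1 ∧ sx ρ y = ρ * (1 + t) ∧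
      ρ * ((t ^ (2 : ℕ) + ψ ^ (2 : ℕ)) / 2 - (t ^ (3 : ℕ) - 3 * t * ψ ^ (2 : ℕ)) / 6) ≤ ρ - sx ρ y * (1 + y) := by
    have hww : w ^ (2 : ℕ) / 2 ≤ 21 / 100 := by nlinarith only [hw1, hw0]
    rcases (sx_nonneg ρ y).eq_or_lt with hx | hx
    · left
      rw [← hx]
      nlinarith only [hρ, hww]
    · have ht : ∃ t : ℝ, sx ρ y = ρ * (1 + t) := ⟨sx ρ y / ρ - 1, by field_simp; ring⟩
      obtain ⟨t, ht⟩ := ht
      have ht1 : -1 < t := by
        rw [ht] at hx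
        have := (mul_pos_iff_of_pos_left hρ).1 hx
        linarith only [this]
      have h1t : 0 < 1 + t := by linarith only [ht1]
      have hc2 : Real.cos ψ = (1 + t) * Real.exp y := by
        rw [hcos, ht]; field_simp
      have hlog : Real.log (1 + t) + ψ ^ (2 : ℕ) / 2 ≤ -y := by
        have h1 := gh_cos hψ0 hψ1
        rw [hc2] at h1
        have h2 : (1 + t) ≤ Real.exp (-(ψ ^ (2 : ℕ) / 2) - y) := by
          rw [Real.exp_sub, le_div_iff₀ (Real.exp_pos y)]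
          exact h1
        have h3 := (Real.log_le_iff_le_exp h1t).2 h2
        linarith only [h3]
      have h4 := mul_le_mul_of_nonneg_left hlog h1t.le
      have h5 : ρ - sx ρ y * (1 + y) = ρ * (-t + (1 + t) * -y) := by rw [ht]; ring
      rcases le_total t 1 with h6 | h6
      · right
        refine ⟨t, abs_le.2 ⟨ht1.le, h6⟩, ht, ?_⟩
        rw [h5]
        apply mul_le_mul_of_nonneg_left _ hρ.le
        have h7 := gh_log ht1
        linarith only [h4, h7]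
      · left
        rw [h5]
        apply mul_le_mul_of_nonneg_left _ hρ.le
        have h7 : Real.log 2 + (1 - 2 / (1 + t)) ≤ Real.log (1 + t) := by
          have h8 := Real.one_sub_inv_le_log_of_pos (show 0 < (1 + t) / 2 by linarith only [h6])
          rw [Real.log_div h1t.ne' two_ne_zero, inv_div] at h8
          linarith only [h8]
        have h8 := mul_le_mul_of_nonneg_left h7 h1t.le
        have h9 : (1 + t) * (Real.log 2 + (1 - 2 / (1 + t))) = (1 + t) * Real.log 2 + t - 1 := by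
          field_simp
          ring
        have h10 := Real.log_two_gt_d9
        nlinarith only [hww, h4, h6, h8, h9, h10]
  rcases key with key | ⟨t, ht, hx, hK⟩
  · constructor
    · have : 0 ≤ ρ * w ^ (3 : ℕ) := by (clear * - hρ hw0; positivity)
      linarith only [key, this]
    · intro _
      have : 0 ≤ ρ * w ^ (4 : ℕ) := by (clear * - hρ; positivity)
      linarith only [key, this]
  · have hu : (ρ / q) ^ (2 : ℕ) + (1 / q) ^ (2 : ℕ) = 1 := by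
      rw [div_pow, div_pow, hq2]
      have : (1 + ρ ^ (2 : ℕ)) ≠ 0 := by (clear * - hρ; positivity)
      field_simp
      ring
    have hline : ρ / q * t + 1 / q * ψ = w := by
      have : ρ * t + ψ = q * w := by rw [hw, hEt, hx]; ring
      field_simp
      linarith only [this]
    have hψ2 : |ψ| ≤ 8 / 5 := by
      rw [abs_of_nonneg hψ0]
      have := Real.pi_lt_d2
      linarith only [hψ1, this]
    constructor
    · have h1 := gh_K2 hu hline hw0 ht hψ2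
      have h2 : (t ^ (3 : ℕ) - 3 * t * ψ ^ (2 : ℕ)) ≤ |t ^ (3 : ℕ) - 3 * t * ψ ^ (2 : ℕ)| := le_abs_self _
      refine le_trans (mul_le_mul_of_nonneg_left ?_ hρ.le) hK
      linarith only [h1, h2]
    · intro hρ3
      have hθ2 : (ρ / q) ^ (2 : ℕ) ≤ 3 / 4 := by
        rw [div_pow, hq2, div_le_div_iff₀ (by (clear * - hρ; positivity)) (by norm_num)]
        linarith only [hρ3]
      have h1 := gh_K1 (by (clear * - hρ hq; positivity)) hu hθ2 hline hw0 hw1 ht hψ2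
      exact le_trans (mul_le_mul_of_nonneg_left h1 hρ.le) hK

end SokamV3.GL

end
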