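import Pool.Agent.Lib_MP_af4de1_zy.Z28

/-! ### Lib_MP_af4de1_u.Gauss -/

section
/-!
# The Gaussian representation [SU-GAUSS]

Proof of `gauss_rep`.  `cexp (κ cexp(ξ+sI)) = ∑' n, κ^n cexp(n(ξ+sI))/n!`, and for every `n`
`∫ cexp((sI)²/(2t) - κ - κ sI + n(ξ + sI)) ds = √(2πt) e^{-κ + nξ} cexp(-t (n-κ)²/2)`
(`integral_cexp_quadratic` with `b = -1/(2t)`, `c = (n-κ)I`; `Re (1/t) > 0`).  Interchange of sum and
integral (`integral_tsum` / `hasSum_integral_of_summable_integral_norm`): `|cexp(n s I)| = 1`, so the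
`n`-th norm is at most `|κ|^n e^{n Re ξ}/n! · ∫ exp(-Re(1/t) s²/2 + |Im κ||s|) e^{-Re κ} ds`.  Finally
`(zp t κ e^ξ)^n e^{-t n(n-1)/2} = κ^n e^{nξ} e^{-t(n-κ)²/2} e^{tκ²/2}` because
`-tn(n-1)/2 + n(tκ - t/2) = -t(n-κ)²/2 + tκ²/2`; and `q^(n(n-1)/2) = cexp(-t n(n-1)/2)` for
`q = cexp(-t)` (`n(n-1)` is even).
`gauss_rep_sub`: the same with the terms multiplied by `n` (`DE t z = ∑ n q^{n(n-1)/2} z^n/n!`,
`κ cexp(ξ+h) cexp(κ cexp(ξ+h)) = ∑ n κ^n cexp(n(ξ+h))/n!`), minus `κ` times `gauss_rep`.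
`gauss_rep_sub'`: `d/ds f t κ ξ (sI) = I (sI/t + κ(cexp(ξ+sI) - 1)) f`, the integral of the
derivative is `0` (`integral_of_hasDerivAt_of_tendsto`).
-/

namespace SokamU

open Complex MeasureTheory

/-- Falling factorial version: `∑ n(n-1)..(n-j+1) e^(-t n(n-1)/2) z^n / n!`. -/
noncomputable def Ef (j : ℕ) (t z : ℂ) : ℂ :=
  z ^ j * cexp (-(t * ((j : ℂ) * (j - 1) / 2))) * E t (cexp (-(t * j)) * z)

/-- `∫ exp(-T y^2/2) dy` -/
noncomputable def gcst (T : ℂ) : ℂ := ((Real.pi : ℂ) / (T / 2)) ^ (1 / 2 : ℂ)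

theorem gcst_inv (t : ℂ) : gcst t⁻¹ = (2 * Real.pi * t) ^ (1 / 2 : ℂ) := by
  unfold gcst
  congr 1
  rw [div_div_eq_mul_div, div_inv_eq_mul]
  ring

theorem gauss_qpow (t : ℂ) (k : ℕ) :
    cexp (-t) ^ (k * (k - 1) / 2) = cexp (-(t * ((k : ℂ) * (k - 1) / 2))) := by
  rw [← Complex.exp_nat_mul, ← Nat.choose_two_right, Nat.cast_choose_two]
  congr 1; ring

theorem Ef_zero (t z : ℂ) : Ef 0 t z = E t z := by
  unfold Ef; simp

theorem Ef_one (t z : ℂ) : Ef 1 t z = DE t z := by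
  unfold Ef DE; simp

theorem gauss_norm_q_le {t : ℂ} (ht : 0 ≤ t.re) : ‖cexp (-t)‖ ≤ 1 := by
  rw [Complex.norm_exp, Real.exp_le_one_iff, Complex.neg_re]; linarith

theorem Ef_hasSum {t : ℂ} (ht : 0 ≤ t.re) (j : ℕ) (z : ℂ) :
    HasSum (fun n : ℕ => cexp (-(t * (((n + j : ℕ) : ℂ) * ((n + j : ℕ) - 1) / 2))) * z ^ (n + j) /
      (n.factorial : ℂ)) (Ef j t z) := by
  have h := (SokamF.summable_term (gauss_norm_q_le ht) (cexp (-(t * j)) * z)).hasSum.mul_left
    (z ^ j * cexp (-(t * ((j : ℂ) * (j - 1) / 2))))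
  have h2 : (∑' k : ℕ, cexp (-t) ^ (k * (k - 1) / 2) * (cexp (-(t * j)) * z) ^ k /
      (Nat.factorial k : ℂ)) = E t (cexp (-(t * j)) * z) := rfl
  rw [h2] at h
  have hfun : (fun n : ℕ => z ^ j * cexp (-(t * ((j : ℂ) * (j - 1) / 2))) *
      (cexp (-t) ^ (n * (n - 1) / 2) * (cexp (-(t * j)) * z) ^ n / (Nat.factorial n : ℂ))) =
      fun n : ℕ => cexp (-(t * (((n + j : ℕ) : ℂ) * ((n + j : ℕ) - 1) / 2))) * z ^ (n + j) /
        (n.factorial : ℂ) := by
    funext n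
    rw [gauss_qpow, mul_pow, ← Complex.exp_nat_mul]
    have h3 : cexp (-(t * (((n + j : ℕ) : ℂ) * ((n + j : ℕ) - 1) / 2))) =
        cexp (-(t * ((j : ℂ) * (j - 1) / 2))) * cexp (-(t * ((n : ℂ) * (n - 1) / 2))) *
          cexp ((n : ℂ) * -(t * j)) := by
      rw [← Complex.exp_add, ← Complex.exp_add]
      congr 1
      push_cast
      ring
    rw [h3, pow_add]
    ring
  rw [hfun] at h
  exact h

theorem gauss_re_pos {T : ℂ} (hT : 0 < T.re) : (-(T / 2)).re < 0 := by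
  rw [Complex.neg_re]
  have : (T / 2).re = T.re / 2 := by
    rw [show (T / 2 : ℂ) = T / (2 : ℝ) by norm_num, Complex.div_ofReal_re]
  rw [this]; linarith

theorem gauss_inv_re {t : ℂ} (ht : 0 < t.re) : 0 < (t⁻¹).re := by
  have ht0 : t ≠ 0 := by
    intro h; rw [h] at ht; simp at ht
  rw [Complex.inv_re]
  exact div_pos ht (Complex.normSq_pos.2 ht0)

theorem gauss_term {T : ℂ} (hT : 0 < T.re) (κ : ℂ) (m : ℂ) :
    ∫ y : ℝ, cexp (-(T / 2) * y ^ (2 : ℕ) + (I * (m - κ)) * y + -κ) =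
      gcst T * cexp (-κ - (m - κ) ^ (2 : ℕ) / (2 * T)) := by
  have hT0 : T ≠ 0 := by
    intro h; rw [h] at hT; simp at hT
  rw [integral_cexp_quadratic (gauss_re_pos hT)]
  unfold gcst
  rw [neg_neg]
  congr 2
  have : (I * (m - κ)) ^ (2 : ℕ) = -(m - κ) ^ (2 : ℕ) := by rw [mul_pow, I_sq]; ring
  rw [this]
  field_simp
  ring

theorem f_line (t κ ξ : ℂ) (y : ℝ) : f t κ ξ (y * I) =
    cexp (-(t⁻¹ / 2) * y ^ (2 : ℕ) + (-(I * κ)) * y + -κ) * cexp (κ * cexp (ξ + y * I)) := by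
  unfold f
  rw [← Complex.exp_add]
  congr 1
  rw [mul_pow, I_sq, div_eq_mul_inv, mul_inv]
  ring

/-- **Gaussian representation** on the imaginary axis. -/
theorem gauss_gen {t : ℂ} (ht : 0 < t.re) (κ ξ : ℂ) (j : ℕ) :
    gcst t⁻¹ * Ef j t (zp t κ * cexp ξ) =
      cexp (S t κ) * ∫ y : ℝ, (κ * cexp (ξ + y * I)) ^ j * f t κ ξ (y * I) := by
  have ht0 : t ≠ 0 := by
    intro h; rw [h] at ht; simp at ht
  set T : ℂ := t⁻¹ with hT
  have hTre : 0 < T.re := gauss_inv_re ht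
  set z : ℂ := zp t κ * cexp ξ with hz
  -- the terms
  set G : ℕ → ℝ → ℂ := fun n y => (κ * cexp ξ) ^ (n + j) / (n.factorial : ℂ) *
    cexp (-(T / 2) * y ^ (2 : ℕ) + (I * (((n + j : ℕ) : ℂ) - κ)) * y + -κ) with hG
  have hb : (-(T / 2)).re < 0 := gauss_re_pos hTre
  have hint : ∀ n, Integrable (G n) := by
    intro n
    exact (integrable_cexp_quadratic' hb _ _).const_mul _
  have hnorm : ∀ n y, ‖G n y‖ = ‖(κ * cexp ξ)‖ ^ (n + j) / (n.factorial : ℝ) *
      ‖cexp (-(T / 2) * y ^ (2 : ℕ) + (I * (-κ)) * y + -κ)‖ := by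
    intro n y
    rw [hG]
    simp only
    rw [norm_mul, norm_div, norm_pow, Complex.norm_natCast]
    congr 1
    rw [Complex.norm_exp, Complex.norm_exp]
    congr 1
    have : (-(T / 2) * (y : ℂ) ^ (2 : ℕ) + I * ((n + j : ℕ) - κ) * y + -κ : ℂ) =
      (-(T / 2) * (y : ℂ) ^ (2 : ℕ) + I * (-κ) * y + -κ : ℂ) + (((n + j : ℕ) : ℝ) * y : ℝ) * I := by
      push_cast; ring
    rw [this, Complex.add_re, Complex.re_ofReal_mul, Complex.I_re]
    simp
  have hsum : Summable fun n => ∫ y, ‖G n y‖ := by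
    simp only [hnorm]
    have h1 : (fun n : ℕ => ∫ y : ℝ, ‖(κ * cexp ξ)‖ ^ (n + j) / (n.factorial : ℝ) *
        ‖cexp (-(T / 2) * y ^ (2 : ℕ) + (I * (-κ)) * y + -κ)‖) =
        fun n : ℕ => (‖(κ * cexp ξ)‖ ^ n / (n.factorial : ℝ)) * (‖(κ * cexp ξ)‖ ^ j *
          ∫ y : ℝ, ‖cexp (-(T / 2) * y ^ (2 : ℕ) + (I * (-κ)) * y + -κ)‖) := by
      funext n
      rw [integral_const_mul, pow_add]
      ring
    rw [h1]
    exact (Real.summable_pow_div_factorial _).mul_right _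
  have hs := hasSum_integral_of_summable_integral_norm hint hsum
  -- the integrand
  have hI : ∀ y : ℝ, (∑' n, G n y) = (κ * cexp (ξ + y * I)) ^ j * f t κ ξ (y * I) := by
    intro y
    have h1 : HasSum (fun n : ℕ => (κ * cexp (ξ + y * I)) ^ n / (n.factorial : ℂ))
        (cexp (κ * cexp (ξ + y * I))) := by
      rw [Complex.exp_eq_exp_ℂ]
      exact NormedSpace.expSeries_div_hasSum_exp (κ * NormedSpace.exp (ξ + y * I))
    have h2 := h1.mul_left ((κ * cexp (ξ + y * I)) ^ j *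
      cexp (-(T / 2) * y ^ (2 : ℕ) + (I * (-κ)) * y + -κ))
    have h3 : (fun n : ℕ => (κ * cexp (ξ + y * I)) ^ j *
      cexp (-(T / 2) * y ^ (2 : ℕ) + (I * (-κ)) * y + -κ) *
        ((κ * cexp (ξ + y * I)) ^ n / (n.factorial : ℂ))) = fun n => G n y := by
      funext n
      rw [hG]
      simp only
      have h4 : cexp (-(T / 2) * (y : ℂ) ^ (2 : ℕ) + I * ((n + j : ℕ) - κ) * y + -κ) =
          cexp (-(T / 2) * y ^ (2 : ℕ) + (I * (-κ)) * y + -κ) * cexp (y * I) ^ (n + j) := by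
        rw [← Complex.exp_nat_mul, ← Complex.exp_add]
        congr 1
        push_cast
        ring
      rw [h4, Complex.exp_add, pow_add, pow_add, mul_pow, mul_pow, mul_pow, mul_pow, mul_pow,
        mul_pow]
      ring
    rw [h3] at h2
    rw [h2.tsum_eq, mul_assoc, f_line, ← Complex.exp_add, ← Complex.exp_add]
    congr 2
    ring
  rw [integral_congr_ae (Filter.Eventually.of_forall hI)] at hs
  -- the sum
  have hE := (Ef_hasSum ht.le j z).mul_left (gcst T * cexp (-(κ + t * κ ^ (2 : ℕ) / 2)))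
  have hEq : (fun n : ℕ => gcst T * cexp (-(κ + t * κ ^ (2 : ℕ) / 2)) *
      (cexp (-(t * (((n + j : ℕ) : ℂ) * ((n + j : ℕ) - 1) / 2))) * z ^ (n + j) /
      (n.factorial : ℂ))) = fun n => ∫ y : ℝ, G n y := by
    funext n
    rw [hG]
    simp only
    rw [integral_const_mul, gauss_term hTre]
    have h5 : z ^ (n + j) = (κ * cexp ξ) ^ (n + j) * cexp (((n + j : ℕ) : ℂ) * (t * κ - t / 2)) := by
      rw [Complex.exp_nat_mul, ← mul_pow, hz, zp]
      congr 1; ring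
    have h6 : cexp (-(κ + t * κ ^ (2 : ℕ) / 2)) *
        (cexp (-(t * (((n + j : ℕ) : ℂ) * ((n + j : ℕ) - 1) / 2))) *
          cexp (((n + j : ℕ) : ℂ) * (t * κ - t / 2))) =
        cexp (-κ - (((n + j : ℕ) : ℂ) - κ) ^ (2 : ℕ) / (2 * T)) := by
      rw [← Complex.exp_add, ← Complex.exp_add]
      congr 1
      rw [hT]
      field_simp
      ring
    rw [h5, ← h6]
    ring
  rw [hEq] at hE
  have h7 := hE.unique hs
  rw [← h7, ← mul_assoc]
  have h8 : cexp (S t κ) * (gcst T * cexp (-(κ + t * κ ^ (2 : ℕ) / 2))) = gcst T := by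
    rw [mul_comm (gcst T), ← mul_assoc, S, ← Complex.exp_add, add_neg_cancel, Complex.exp_zero,
      one_mul]
  rw [h8]

/-- integrability of the quadratic majorant times `1 + |y|` -/
theorem gauss_major {b c d : ℂ} (hb : b.re < 0) :
    Integrable fun y : ℝ => (1 + |y|) * ‖cexp (b * y ^ (2 : ℕ) + c * y + d)‖ := by
  have h0 := (integrable_cexp_quadratic' hb c d).norm
  have h1 := (integrable_cexp_quadratic' hb (c + 1) d).norm
  have h2 := (integrable_cexp_quadratic' hb (c - 1) d).norm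
  refine Integrable.mono' ((h0.add h1).add h2) ?_ ?_
  · refine Continuous.aestronglyMeasurable ?_
    fun_prop
  · refine Filter.Eventually.of_forall fun y => ?_
    have e1 : ‖cexp (b * y ^ (2 : ℕ) + (c + 1) * y + d)‖ = ‖cexp (b * y ^ (2 : ℕ) + c * y + d)‖ * Real.exp y := by
      have : (b * y ^ (2 : ℕ) + (c + 1) * y + d : ℂ) = (b * y ^ (2 : ℕ) + c * y + d) + (y : ℂ) := by ring
      rw [this, Complex.exp_add, norm_mul, ← Complex.ofReal_exp, Complex.norm_real,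
        Real.norm_of_nonneg (Real.exp_pos _).le]
    have e2 : ‖cexp (b * y ^ (2 : ℕ) + (c - 1) * y + d)‖ =
        ‖cexp (b * y ^ (2 : ℕ) + c * y + d)‖ * Real.exp (-y) := by
      have : (b * y ^ (2 : ℕ) + (c - 1) * y + d : ℂ) = (b * y ^ (2 : ℕ) + c * y + d) + ((-y : ℝ) : ℂ) := by
        push_cast; ring
      rw [this, Complex.exp_add, norm_mul, ← Complex.ofReal_exp, Complex.norm_real,
        Real.norm_of_nonneg (Real.exp_pos _).le]
    rw [norm_mul, norm_norm, Real.norm_of_nonneg (by positivity)]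
    change (1 + |y|) * _ ≤ (‖cexp (b * y ^ (2 : ℕ) + c * y + d)‖ + ‖cexp (b * y ^ (2 : ℕ) + (c + 1) * y + d)‖) +
      ‖cexp (b * y ^ (2 : ℕ) + (c - 1) * y + d)‖
    rw [e1, e2]
    have h3 : |y| ≤ Real.exp y + Real.exp (-y) := by
      rcases abs_cases y with ⟨h, _⟩ | ⟨h, _⟩
      · rw [h]
        have := Real.add_one_le_exp y
        have := Real.exp_pos (-y)
        linarith
      · rw [h]
        have := Real.add_one_le_exp (-y)
        have := Real.exp_pos y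
        linarith
    have h4 : 0 ≤ ‖cexp (b * y ^ (2 : ℕ) + c * y + d)‖ := norm_nonneg _
    nlinarith [mul_le_mul_of_nonneg_right h3 h4]

theorem gauss_cont (t κ ξ : ℂ) : Continuous fun y : ℝ => f t κ ξ (y * I) := by
  unfold f
  fun_prop

theorem gauss_integrable {t : ℂ} (ht : 0 < t.re) (κ ξ : ℂ) :
    Integrable fun y : ℝ => (1 + |y|) * ‖f t κ ξ (y * I)‖ := by
  have h := gauss_major (b := -(t⁻¹ / 2)) (c := -(I * κ)) (d := -κ)
    (gauss_re_pos (gauss_inv_re ht))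
  refine Integrable.mono' (h.const_mul (Real.exp (‖κ‖ * Real.exp ξ.re))) ?_ ?_
  · refine Continuous.aestronglyMeasurable ?_
    exact (continuous_const.add continuous_abs).mul (gauss_cont t κ ξ).norm
  · refine Filter.Eventually.of_forall fun y => ?_
    rw [norm_mul, norm_norm, Real.norm_of_nonneg (by positivity), f_line, norm_mul]
    have h1 : ‖cexp (κ * cexp (ξ + y * I))‖ ≤ Real.exp (‖κ‖ * Real.exp ξ.re) := by
      rw [Complex.norm_exp, Real.exp_le_exp]
      refine (Complex.re_le_norm _).trans ?_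
      rw [norm_mul, Complex.norm_exp, Complex.add_re, Complex.re_ofReal_mul, Complex.I_re, mul_zero,
        add_zero]
    calc (1 + |y|) * (‖cexp (-(t⁻¹ / 2) * y ^ (2 : ℕ) + (-(I * κ)) * y + -κ)‖ *
          ‖cexp (κ * cexp (ξ + y * I))‖)
        ≤ (1 + |y|) * (‖cexp (-(t⁻¹ / 2) * y ^ (2 : ℕ) + (-(I * κ)) * y + -κ)‖ *
          Real.exp (‖κ‖ * Real.exp ξ.re)) := by gcongr
      _ = _ := by ring

theorem gauss_integrable_mul {t : ℂ} (ht : 0 < t.re) (κ ξ : ℂ) {w : ℝ → ℂ} (hw : Continuous w)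
    {C : ℝ} (hC : ∀ y, ‖w y‖ ≤ C * (1 + |y|)) : Integrable fun y : ℝ => w y * f t κ ξ (y * I) := by
  refine Integrable.mono' ((gauss_integrable ht κ ξ).const_mul C) ?_ ?_
  · exact (hw.mul (gauss_cont t κ ξ)).aestronglyMeasurable
  · refine Filter.Eventually.of_forall fun y => ?_
    rw [norm_mul, ← mul_assoc]
    exact mul_le_mul_of_nonneg_right (hC y) (norm_nonneg _)

theorem gauss_rep {t : ℂ} (ht : 0 < t.re) (κ ξ : ℂ) :
    E t (zp t κ * cexp ξ) * (2 * Real.pi * t) ^ (1 / 2 : ℂ) =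
      cexp (S t κ) * ∫ s : ℝ, f t κ ξ (s * I) := by
  have h := gauss_gen ht κ ξ 0
  rw [Ef_zero, gcst_inv] at h
  simp only [pow_zero, one_mul] at h
  rw [mul_comm]
  exact h

theorem gauss_rep_sub {t : ℂ} (ht : 0 < t.re) (κ ξ : ℂ) :
    (DE t (zp t κ * cexp ξ) - κ * E t (zp t κ * cexp ξ)) * (2 * Real.pi * t) ^ (1 / 2 : ℂ) =
      cexp (S t κ) * ∫ s : ℝ, (κ * (cexp (ξ + s * I) - 1)) * f t κ ξ (s * I) := by
  have h0 := gauss_rep ht κ ξ
  have h1 := gauss_gen ht κ ξ 1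
  rw [Ef_one, gcst_inv] at h1
  simp only [pow_one] at h1
  have hn : ∀ y : ℝ, ‖cexp (ξ + y * I)‖ = Real.exp ξ.re := by
    intro y
    rw [Complex.norm_exp, Complex.add_re, Complex.re_ofReal_mul, Complex.I_re, mul_zero, add_zero]
  have hi1 : Integrable fun y : ℝ => (κ * cexp (ξ + y * I)) * f t κ ξ (y * I) := by
    refine gauss_integrable_mul ht κ ξ (w := fun y => κ * cexp (ξ + y * I)) (by fun_prop)
      (C := ‖κ‖ * Real.exp ξ.re) fun y => ?_
    rw [norm_mul, hn]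
    refine le_mul_of_one_le_right (by positivity) ?_
    linarith [abs_nonneg y]
  have hi0 : Integrable fun y : ℝ => κ * f t κ ξ (y * I) := by
    refine gauss_integrable_mul ht κ ξ (w := fun _ => κ) continuous_const
      (C := ‖κ‖) fun y => ?_
    refine le_mul_of_one_le_right (by positivity) ?_
    linarith [abs_nonneg y]
  have h2 : ∫ s : ℝ, (κ * (cexp (ξ + s * I) - 1)) * f t κ ξ (s * I) =
      (∫ s : ℝ, (κ * cexp (ξ + s * I)) * f t κ ξ (s * I)) - κ * ∫ s : ℝ, f t κ ξ (s * I) := by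
    rw [← integral_const_mul, ← integral_sub hi1 hi0]
    congr 1
    funext s
    ring
  rw [h2, mul_sub, ← h1]
  have h3 : cexp (S t κ) * (κ * ∫ s : ℝ, f t κ ξ (s * I)) =
      κ * (E t (zp t κ * cexp ξ) * (2 * Real.pi * t) ^ (1 / 2 : ℂ)) := by
    rw [h0]; ring
  rw [h3]
  ring

theorem gauss_rep_sub' {t : ℂ} (ht : 0 < t.re) (κ ξ : ℂ) :
    (DE t (zp t κ * cexp ξ) - κ * E t (zp t κ * cexp ξ)) * (2 * Real.pi * t) ^ (1 / 2 : ℂ) =
      -(cexp (S t κ) * ∫ s : ℝ, ((s * I) / t) * f t κ ξ (s * I)) := by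
  have ht0 : t ≠ 0 := by
    intro h; rw [h] at ht; simp at ht
  rw [gauss_rep_sub ht, ← mul_neg]
  congr 1
  have hn : ∀ y : ℝ, ‖cexp (ξ + y * I)‖ = Real.exp ξ.re := by
    intro y
    rw [Complex.norm_exp, Complex.add_re, Complex.re_ofReal_mul, Complex.I_re, mul_zero, add_zero]
  have hi1 : Integrable fun y : ℝ => (κ * (cexp (ξ + y * I) - 1)) * f t κ ξ (y * I) := by
    refine gauss_integrable_mul ht κ ξ (w := fun y => κ * (cexp (ξ + y * I) - 1)) (by fun_prop)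
      (C := ‖κ‖ * (Real.exp ξ.re + 1)) fun y => ?_
    rw [norm_mul]
    have h1 : ‖cexp (ξ + y * I) - 1‖ ≤ Real.exp ξ.re + 1 := by
      refine (norm_sub_le _ _).trans ?_
      rw [hn, norm_one]
    refine (mul_le_mul_of_nonneg_left h1 (norm_nonneg _)).trans ?_
    refine le_mul_of_one_le_right (by positivity) ?_
    linarith [abs_nonneg y]
  have hi2 : Integrable fun y : ℝ => ((y * I) / t) * f t κ ξ (y * I) := by
    refine gauss_integrable_mul ht κ ξ (w := fun y => (y * I) / t) (by fun_prop)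
      (C := ‖t‖⁻¹) fun y => ?_
    rw [norm_div, norm_mul, Complex.norm_real, Complex.norm_I, mul_one, Real.norm_eq_abs,
      div_eq_inv_mul]
    gcongr
    linarith
  have hi0 : Integrable fun y : ℝ => f t κ ξ (y * I) := by
    have := gauss_integrable_mul ht κ ξ (w := fun _ => 1) continuous_const
      (C := 1) fun y => by rw [norm_one]; linarith [abs_nonneg y]
    simpa using this
  have hd : ∀ y : ℝ, HasDerivAt (fun y : ℝ => f t κ ξ (y * I))
      (I * (((y * I) / t) * f t κ ξ (y * I) + (κ * (cexp (ξ + y * I) - 1)) * f t κ ξ (y * I))) y := by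
    intro y
    have h1 : HasDerivAt (fun y : ℝ => (y : ℂ) * I) (1 * I) y :=
      (hasDerivAt_id y).ofReal_comp.mul_const I
    have h2 : ∀ h : ℂ, HasDerivAt (fun h => f t κ ξ h)
        (f t κ ξ h * (2 * h / (2 * t) + κ * (cexp (ξ + h) * 1 - 1))) h := by
      intro h
      unfold f
      refine HasDerivAt.cexp ?_
      refine HasDerivAt.add ?_ ?_
      · have := (hasDerivAt_pow 2 h).div_const (2 * t)
        simpa using this
      · refine HasDerivAt.const_mul κ ?_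
        refine HasDerivAt.sub ?_ (hasDerivAt_id h)
        refine HasDerivAt.sub_const _ ?_
        exact ((hasDerivAt_id h).const_add ξ).cexp
    have h3 : HasDerivAt (fun y : ℝ => f t κ ξ (y * I)) (f t κ ξ (y * I) *
        (2 * (y * I) / (2 * t) + κ * (cexp (ξ + y * I) * 1 - 1)) * (1 * I)) y :=
      HasDerivAt.comp (h₂ := fun h => f t κ ξ h) (h := fun y : ℝ => (y : ℂ) * I) y (h2 (y * I)) h1
    have e : f t κ ξ (y * I) *
        (2 * (y * I) / (2 * t) + κ * (cexp (ξ + y * I) * 1 - 1)) * (1 * I) =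
        I * (((y * I) / t) * f t κ ξ (y * I) + (κ * (cexp (ξ + y * I) - 1)) * f t κ ξ (y * I)) := by
      have : (2 * (y * I) / (2 * t) : ℂ) = (y * I) / t := by
        rw [mul_div_mul_left _ _ two_ne_zero]
      rw [this]
      ring
    rw [e] at h3
    exact h3
  have h0 := integral_eq_zero_of_hasDerivAt_of_integrable hd ((hi2.add hi1).const_mul I) hi0
  rw [integral_const_mul, integral_add hi2 hi1] at h0
  have h4 := (mul_eq_zero.1 h0).resolve_left I_ne_zero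
  exact eq_neg_of_add_eq_zero_right h4

end SokamU

end
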