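import Pool.Agent.Lib_MP_af4de1_zy.Z28

/-! ### Lib_MP_af4de1_u.Sym -/

section
/-!
# Regularity and symmetry of `E`, `DE`, `J` [SU-SYM]

Everything is elementary from `SokamF.hasDerivAt_F`, `SokamF.continuousOn_F` (file `Lib_MP_af4de1/Basic`) and
`‖cexp (-t)‖ = exp (-Re t) ≤ 1`.
-/

namespace SokamU

open Complex Filter Topology ComplexConjugate

theorem norm_exp_neg_le {t : ℂ} (ht : 0 ≤ t.re) : ‖cexp (-t)‖ ≤ 1 := by
  rw [Complex.norm_exp, Complex.neg_re]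
  exact Real.exp_le_one_iff.2 (by linarith)

/-- From `SokamF.hasDerivAt_F`. -/
theorem hasDerivAt_E {t : ℂ} (ht : 0 ≤ t.re) (z : ℂ) :
    HasDerivAt (E t) (E t (cexp (-t) * z)) z :=
  SokamF.hasDerivAt_F (norm_exp_neg_le ht) z

/-- From `SokamF.continuousOn_F` composed with `(t,z) ↦ (cexp (-t), z)`. -/
theorem continuousOn_E : ContinuousOn (fun p : ℂ × ℂ => E p.1 p.2) {p | 0 ≤ p.1.re} := by
  have h1 : Continuous (fun p : ℂ × ℂ => ((cexp (-p.1), p.2) : ℂ × ℂ)) := by fun_prop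
  have h2 := SokamF.continuousOn_F.comp h1.continuousOn
    (s := {p : ℂ × ℂ | 0 ≤ p.1.re}) (fun p hp => norm_exp_neg_le hp)
  exact h2

theorem continuousOn_DE : ContinuousOn (fun p : ℂ × ℂ => DE p.1 p.2) {p | 0 ≤ p.1.re} := by
  have h1 : Continuous (fun p : ℂ × ℂ => ((p.1, cexp (-p.1) * p.2) : ℂ × ℂ)) := by fun_prop
  have h2 := continuousOn_E.comp h1.continuousOn
    (s := {p : ℂ × ℂ | 0 ≤ p.1.re}) (fun p hp => hp)
  exact continuous_snd.continuousOn.mul h2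

/-- `d/dκ zp t κ = zp t κ * (1/κ + t)`, written without division. -/
theorem hasDerivAt_zp (t κ : ℂ) :
    HasDerivAt (zp t) (cexp (t * κ - t / 2) * (1 + t * κ)) κ := by
  have h1 : HasDerivAt (fun κ : ℂ => t * κ - t / 2) t κ := by
    have := ((hasDerivAt_id κ).const_mul t).sub_const (t / 2)
    simpa using this
  have h2 := (hasDerivAt_id κ).mul h1.cexp
  have h3 : cexp (t * κ - t / 2) * (1 + t * κ) =
      1 * cexp (t * κ - t / 2) + id κ * (cexp (t * κ - t / 2) * t) := by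
    simp only [id]
    ring
  rw [h3]
  exact h2

private theorem Sym_hasDerivAt_S (t κ : ℂ) : HasDerivAt (S t) (1 + t * κ) κ := by
  have h1 := (hasDerivAt_id κ).add ((((hasDerivAt_id κ).pow 2).const_mul t).div_const 2)
  have h3 : 1 + t * κ = 1 + t * (((2 : ℕ) : ℂ) * id κ ^ (2 - 1) * 1) / 2 := by
    simp only [id]
    push_cast
    ring
  rw [h3]
  exact h1

/-- `J t` is entire; with `E' = E(e^{-t}·)`, `zp' κ = zp (1+tκ)`, `S' = 1 + tκ`: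
`κ J'(κ) = (1+tκ) e^{-S} (DE(zp κ) - κ E(zp κ))`. -/
theorem hasDerivAt_J {t : ℂ} (ht : 0 ≤ t.re) (κ : ℂ) : ∃ J' : ℂ, HasDerivAt (J t) J' κ ∧
    κ * J' = (1 + t * κ) * cexp (-(S t κ)) * (DE t (zp t κ) - κ * E t (zp t κ)) := by
  have h1 := (hasDerivAt_E ht (zp t κ)).comp κ (hasDerivAt_zp t κ)
  have h2 := (Sym_hasDerivAt_S t κ).neg.cexp
  refine ⟨_, h1.mul h2, ?_⟩
  simp only [Function.comp, DE, zp, Pi.neg_apply]
  ring

theorem conj_E (t z : ℂ) : E (conj t) (conj z) = conj (E t z) := by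
  unfold E SokamF.F
  rw [Complex.conj_tsum]
  refine tsum_congr fun n => ?_
  simp only [map_mul, map_div₀, map_pow, map_natCast, ← Complex.exp_conj, map_neg]

theorem conj_DE (t z : ℂ) : DE (conj t) (conj z) = conj (DE t z) := by
  unfold DE
  rw [map_mul, ← conj_E, map_mul, ← Complex.exp_conj, map_neg]

theorem conj_zp (t κ : ℂ) : zp (conj t) (conj κ) = conj (zp t κ) := by
  unfold zp
  rw [map_mul, ← Complex.exp_conj, map_sub, map_mul, map_div₀, map_ofNat]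

theorem conj_S (t κ : ℂ) : S (conj t) (conj κ) = conj (S t κ) := by
  unfold S
  rw [map_add, map_div₀, map_mul, map_pow, map_ofNat]

theorem conj_J (t κ : ℂ) : J (conj t) (conj κ) = conj (J t κ) := by
  unfold J
  rw [map_mul, ← conj_E, ← conj_zp, ← Complex.exp_conj, map_neg, ← conj_S]

private theorem Sym_norm_conj (k : ℝ) (t : ℂ) : ‖1 + conj t * (k : ℂ)‖ = ‖1 + t * (k : ℂ)‖ := by
  have h : 1 + conj t * (k : ℂ) = conj (1 + t * (k : ℂ)) := by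
    rw [map_add, map_mul, map_one, Complex.conj_ofReal]
  rw [h, Complex.norm_conj]

theorem V_conj (k : ℝ) (t : ℂ) : V k (conj t) = V k t := by
  unfold V
  rw [Sym_norm_conj, Complex.conj_re]

theorem Md_conj (k : ℝ) (t : ℂ) : Md k (conj t) = Md k t := by
  unfold Md
  have h : S (conj t) (k : ℂ) = conj (S t (k : ℂ)) := by
    rw [← conj_S, Complex.conj_ofReal]
  rw [Sym_norm_conj, h, Complex.exp_conj, Complex.norm_conj]

private theorem Sym_add (t : ℂ) : Tendsto (fun ε : ℝ => t + (ε : ℂ)) (𝓝[>] 0) (𝓝 t) := by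
  have h : Continuous (fun ε : ℝ => t + (ε : ℂ)) := by fun_prop
  have h2 := (h.tendsto 0).mono_left (nhdsWithin_le_nhds (s := Set.Ioi (0 : ℝ)))
  simpa using h2

private theorem Sym_re {t : ℂ} (ht : 0 ≤ t.re) : ∀ᶠ ε : ℝ in 𝓝[>] 0, 0 ≤ (t + (ε : ℂ)).re := by
  filter_upwards [self_mem_nhdsWithin] with ε hε
  have h : (0 : ℝ) < ε := hε
  rw [Complex.add_re, Complex.ofReal_re]
  linarith

private theorem Sym_zp (t κ : ℂ) : Tendsto (fun ε : ℝ => zp (t + ε) κ) (𝓝[>] 0) (𝓝 (zp t κ)) := by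
  have h : Continuous (fun s : ℂ => zp s κ) := by
    unfold zp
    fun_prop
  exact (h.tendsto t).comp (Sym_add t)

/-- Continuity in `t` up to `Re t = 0`, from the right: for `ε → 0+`. -/
theorem tendsto_V {k : ℝ} (hk : 0 < k) {t : ℂ} (ht : 0 ≤ t.re) :
    Tendsto (fun ε : ℝ => V k (t + ε)) (𝓝[>] 0) (𝓝 (V k t)) := by
  have h : ContinuousAt (fun s : ℂ => V k s) t := by
    unfold V
    have h1 : k * (1 + t.re * k) ≠ 0 := by positivity
    refine ContinuousAt.div ?_ ?_ h1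
    · fun_prop
    · have : Continuous (fun s : ℂ => k * (1 + s.re * k)) := by fun_prop
      exact this.continuousAt
  exact h.tendsto.comp (Sym_add t)

theorem tendsto_J {t : ℂ} (ht : 0 ≤ t.re) (κ : ℂ) :
    Tendsto (fun ε : ℝ => J (t + ε) κ) (𝓝[>] 0) (𝓝 (J t κ)) := by
  have h1 : Tendsto (fun ε : ℝ => ((t + ε, zp (t + ε) κ) : ℂ × ℂ)) (𝓝[>] 0)
      (𝓝[{p : ℂ × ℂ | 0 ≤ p.1.re}] (t, zp t κ)) :=
    tendsto_nhdsWithin_iff.2 ⟨(Sym_add t).prodMk_nhds (Sym_zp t κ), Sym_re ht⟩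
  have h2 := (continuousOn_E (t, zp t κ) ht).tendsto.comp h1
  have h3 : Continuous (fun s : ℂ => cexp (-(S s κ))) := by
    unfold S
    fun_prop
  exact h2.mul ((h3.tendsto t).comp (Sym_add t))

theorem tendsto_E {t : ℂ} (ht : 0 ≤ t.re) (κ ξ : ℂ) :
    Tendsto (fun ε : ℝ => E (t + ε) (zp (t + ε) κ * ξ)) (𝓝[>] 0) (𝓝 (E t (zp t κ * ξ))) := by
  have h1 : Tendsto (fun ε : ℝ => ((t + ε, zp (t + ε) κ * ξ) : ℂ × ℂ)) (𝓝[>] 0)
      (𝓝[{p : ℂ × ℂ | 0 ≤ p.1.re}] (t, zp t κ * ξ)) :=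
    tendsto_nhdsWithin_iff.2 ⟨(Sym_add t).prodMk_nhds ((Sym_zp t κ).mul_const ξ), Sym_re ht⟩
  have h2 : Tendsto (fun p : ℂ × ℂ => E p.1 p.2) (𝓝[{p : ℂ × ℂ | 0 ≤ p.1.re}] (t, zp t κ * ξ))
      (𝓝 (E t (zp t κ * ξ))) := continuousOn_E (t, zp t κ * ξ) ht
  have h3 := h2.comp h1
  simp only [Function.comp_def] at h3
  exact h3

theorem tendsto_DE {t : ℂ} (ht : 0 ≤ t.re) (κ ξ : ℂ) :
    Tendsto (fun ε : ℝ => DE (t + ε) (zp (t + ε) κ * ξ)) (𝓝[>] 0) (𝓝 (DE t (zp t κ * ξ))) := by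
  have h1 : Tendsto (fun ε : ℝ => ((t + ε, zp (t + ε) κ * ξ) : ℂ × ℂ)) (𝓝[>] 0)
      (𝓝[{p : ℂ × ℂ | 0 ≤ p.1.re}] (t, zp t κ * ξ)) :=
    tendsto_nhdsWithin_iff.2 ⟨(Sym_add t).prodMk_nhds ((Sym_zp t κ).mul_const ξ), Sym_re ht⟩
  have h2 : Tendsto (fun p : ℂ × ℂ => DE p.1 p.2) (𝓝[{p : ℂ × ℂ | 0 ≤ p.1.re}] (t, zp t κ * ξ))
      (𝓝 (DE t (zp t κ * ξ))) := continuousOn_DE (t, zp t κ * ξ) ht
  exact h2.comp h1

end SokamU

end
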