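import Pool.Agent.Lib_MP_af4de1_zy.Z01
import Pool.Agent.Lib_MP_af4de1_zy.Z11
import Pool.Agent.Lib_MP_af4de1_zy.Z30
import Pool.Agent.Lib_MP_af4de1_zy.Z38
import Pool.Agent.Lib_MP_af4de1_zy.Z39
import Pool.Agent.Lib_MP_af4de1_zy.Z41

/-! ### Lib_MP_af4de1_u.Lifts -/

section
/-!
# `F(z; ω e^{-t})` for a root of unity `ω` as a sum over `N` rotated copies of `E t` [SU-LIFT]

`ω = cexp(2πi a/N)`, `gcd(a,N) = 1`, `ε = 0` (`N` odd) or `1/2` (`N` even), `ζ_m = cexp(2πi(m+ε)/N)`, `c_n = ω^{n(n-1)/2}`.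
`c_{n+N} = ς c_n` with `ς = ω^{N(N-1)/2} = 1` (`N` odd), `-1` (`N` even: `a(N-1)` is odd), and `ζ_m^N = ς`.
`g_m := (1/N) ∑_{n<N} c_n ζ_m^{-n}`.  Inversion `∑_{m<N} g_m ζ_m^n = c_n` for `0 ≤ n < N` (geometric sum), then for all `n` by
the two (anti)periodicities.  `c_n ζ_m^{-n}` has period `N` in `n`; `c_{n+1} = ω^n c_n`, `ω ζ_m = ζ_{m+a}`:
`g_{m-a} = (1/N)∑ c_n ω^n ζ_m^{-n} = ζ_m g_m`.  So `‖g_{m-a}‖ = ‖g_m‖`, and by coprimality and `g_{m+N} = g_m` all norms are equal;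
they are not `0` since `∑ g_m = c_0 = 1`.
The two identities: `(ω e^{-t})^{n(n-1)/2} = ∑_m g_m ζ_m^n (e^{-t})^{n(n-1)/2}`, sum over `n` (finite sum over `m` outside); and
`z F(qz)` is the derivative `z d/dz` of both sides (`hasDerivAt_E`, `SokamF.hasDerivAt_F`).
Window: the summand is `N`-periodic in `m`.
-/

namespace SokamU

open Complex

/-- the terms `c_n ζ_m^{-n}`, with `ε = a (N - 1) / 2` -/
private noncomputable def bb (N : ℕ) (a m n : ℤ) : ℂ :=
  cexp (Real.pi * I * (a * n * (n - N) - 2 * n * m) / N)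

private theorem bb_period {N : ℕ} (hN : 0 < N) (a m n : ℤ) : bb N a m (n + N) = bb N a m n := by
  have hN' : (N : ℂ) ≠ 0 := by exact_mod_cast hN.ne'
  unfold bb
  rw [Complex.exp_eq_exp_iff_exists_int]
  refine ⟨a * n - m, ?_⟩
  push_cast
  field_simp
  ring

private theorem bb_period' {N : ℕ} (hN : 0 < N) (a m n : ℤ) : bb N a (m + N) n = bb N a m n := by
  have hN' : (N : ℂ) ≠ 0 := by exact_mod_cast hN.ne'
  unfold bb
  rw [Complex.exp_eq_exp_iff_exists_int]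
  refine ⟨-n, ?_⟩
  push_cast
  field_simp
  ring

private theorem bb_shift {N : ℕ} (hN : 0 < N) (a m n : ℤ) :
    bb N a m (n + 1) = cexp (((Real.pi * (a * (1 - N) - 2 * m) / N : ℝ) : ℂ) * I) *
      bb N a (m - a) n := by
  have hN' : (N : ℂ) ≠ 0 := by exact_mod_cast hN.ne'
  unfold bb
  rw [← Complex.exp_add]
  congr 1
  push_cast
  field_simp
  ring

private theorem sum_shift {N : ℕ} {f : ℤ → ℂ} (hf : ∀ n, f (n + N) = f n) (n : ℕ) :
    ∑ j ∈ Finset.range N, f (n + j) = ∑ j ∈ Finset.range N, f j := by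
  induction n with
  | zero => simp
  | succ n ih =>
    rw [← ih]
    have h1 := Finset.sum_range_succ (fun j : ℕ => f ((n : ℤ) + j)) N
    rw [Finset.sum_range_succ'] at h1
    have h2 : f ((n : ℤ) + (N : ℕ)) = f n := hf n
    rw [h2] at h1
    have h3 : f ((n : ℤ) + ((0 : ℕ) : ℤ)) = f n := by simp
    rw [h3] at h1
    have h4 := add_right_cancel h1
    rw [← h4]
    refine Finset.sum_congr rfl fun j _ => ?_
    congr 1
    push_cast
    ring

/-- the coefficients -/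
private noncomputable def gg (N : ℕ) (a m : ℤ) : ℂ := (∑ n ∈ Finset.range N, bb N a m n) / N

private theorem norm_gg {N : ℕ} (hN : 0 < N) (a : ℤ) (ha : IsCoprime a (N : ℤ)) (m : ℤ) :
    ‖gg N a m‖ = ‖gg N a 0‖ := by
  have h1 : Function.Periodic (fun m => ‖gg N a m‖) a := by
    intro m
    have h2 : gg N a (m + a) =
        cexp (((Real.pi * (a * (1 - N) - 2 * (m + a : ℤ)) / N : ℝ) : ℂ) * I) * gg N a m := by
      unfold gg
      rw [← mul_div_assoc, Finset.mul_sum]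
      congr 1
      rw [← sum_shift (fun n => bb_period hN a (m + a) n) 1]
      refine Finset.sum_congr rfl fun j _ => ?_
      rw [Nat.cast_one, add_comm (1 : ℤ) (j : ℤ), bb_shift hN, add_sub_cancel_right]
    show ‖gg N a (m + a)‖ = ‖gg N a m‖
    rw [h2, norm_mul, Complex.norm_exp_ofReal_mul_I, one_mul]
  have h2 : Function.Periodic (fun m => ‖gg N a m‖) (N : ℤ) := by
    intro m
    have h3 : gg N a (m + N) = gg N a m := by
      unfold gg
      congr 1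
      exact Finset.sum_congr rfl fun j _ => bb_period' hN a m j
    show ‖gg N a (m + N)‖ = ‖gg N a m‖
    rw [h3]
  obtain ⟨u, v, huv⟩ := ha
  have h3 : Function.Periodic (fun m => ‖gg N a m‖) 1 := by
    rw [← huv]
    exact (h1.int_mul u).add_period (h2.int_mul v)
  have h4 := h3.int_mul m 0
  simpa using h4

/-- geometric sums of roots of unity -/
private theorem sum_root {N : ℕ} (hN : 0 < N) (m0 : ℤ) (j : ℕ) (hj : j < N) :
    ∑ m ∈ Finset.Ico m0 (m0 + N), cexp (-(2 * Real.pi * I * j * m / N)) =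
      if j = 0 then (N : ℂ) else 0 := by
  have hN' : (N : ℂ) ≠ 0 := by exact_mod_cast hN.ne'
  split_ifs with h0
  · subst h0
    simp
  · have h1 : ∑ m ∈ Finset.Ico m0 (m0 + N), cexp (-(2 * Real.pi * I * j * m / N)) =
        ∑ i ∈ Finset.range N, cexp (-(2 * Real.pi * I * j * m0 / N)) *
          cexp (-(2 * Real.pi * I * j / N)) ^ i := by
      symm
      refine Finset.sum_bij (fun i _ => m0 + (i : ℤ)) ?_ ?_ ?_ ?_
      · intro i hi
        rw [Finset.mem_range] at hi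
        rw [Finset.mem_Ico]
        omega
      · intro i _ i' _ h
        have : (i : ℤ) = i' := by linarith
        exact_mod_cast this
      · intro m hm
        rw [Finset.mem_Ico] at hm
        refine ⟨(m - m0).toNat, ?_, ?_⟩
        · rw [Finset.mem_range]
          omega
        · rw [Int.toNat_of_nonneg (by omega)]
          ring
      · intro i _
        rw [← Complex.exp_nat_mul, ← Complex.exp_add]
        congr 1
        push_cast
        field_simp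
        ring
    rw [h1, ← Finset.mul_sum]
    have h2 : cexp (-(2 * Real.pi * I * j / N)) ≠ 1 := by
      intro h3
      rw [Complex.exp_eq_one_iff] at h3
      obtain ⟨k, hk⟩ := h3
      have h4 : (2 * Real.pi * I : ℂ) ≠ 0 := Complex.two_pi_I_ne_zero
      have h5 : (-(j : ℂ)) = k * N := by
        have h6 : (2 * Real.pi * I : ℂ) * (-(j : ℂ)) = 2 * Real.pi * I * (k * N) := by
          field_simp at hk
          linear_combination (2 * Real.pi * I) * hk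
        exact mul_left_cancel₀ h4 h6
      have h7 : (-(j : ℤ)) = k * N := by exact_mod_cast h5
      have h8 : (j : ℤ) < N := by exact_mod_cast hj
      have h9 : (0 : ℤ) < j := by exact_mod_cast Nat.pos_of_ne_zero h0
      have h10 : k < 0 := by
        by_contra hc
        push Not at hc
        have : 0 ≤ k * (N : ℤ) := by positivity
        omega
      have h11 : k * (N : ℤ) ≤ -1 * N := by
        have : k ≤ -1 := by omega
        exact mul_le_mul_of_nonneg_right this (by positivity)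
      omega
    have h3 : cexp (-(2 * Real.pi * I * j / N)) ^ N = 1 := by
      rw [← Complex.exp_nat_mul, Complex.exp_eq_one_iff]
      refine ⟨-j, ?_⟩
      push_cast
      field_simp
    have h4 := mul_geom_sum (cexp (-(2 * Real.pi * I * j / N))) N
    rw [h3, sub_self] at h4
    rcases mul_eq_zero.1 h4 with h5 | h5
    · exact absurd (sub_eq_zero.1 h5) h2
    · rw [h5, mul_zero]

/-- the inversion formula -/
private theorem inversion {N : ℕ} (hN : 0 < N) (a m0 : ℤ) (n : ℕ) :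
    ∑ m ∈ Finset.Ico m0 (m0 + N), gg N a m *
      cexp (2 * Real.pi * (m + ((a * (N - 1) / 2 : ℝ) : ℂ)) / N * I) ^ n =
      cexp (2 * Real.pi * I * a / N) ^ (n * (n - 1) / 2) := by
  have hN' : (N : ℂ) ≠ 0 := by exact_mod_cast hN.ne'
  have h1 : ∀ m : ℤ, gg N a m *
      cexp (2 * Real.pi * (m + ((a * (N - 1) / 2 : ℝ) : ℂ)) / N * I) ^ n =
      (∑ j ∈ Finset.range N,
        cexp (Real.pi * I * (a * (n + j) * (n + j - N) + n * a * (N - 1)) / N) *
        cexp (-(2 * Real.pi * I * j * m / N))) / N := by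
    intro m
    unfold gg
    rw [div_mul_eq_mul_div, ← sum_shift (fun k => bb_period hN a m k) n, Finset.sum_mul]
    congr 1
    refine Finset.sum_congr rfl fun j _ => ?_
    unfold bb
    rw [← Complex.exp_nat_mul, ← Complex.exp_add, ← Complex.exp_add]
    congr 1
    push_cast
    field_simp
    ring
  rw [Finset.sum_congr rfl fun m _ => h1 m, ← Finset.sum_div, Finset.sum_comm]
  rw [Finset.sum_congr rfl fun j hj => by
    rw [← Finset.mul_sum, sum_root hN m0 j (Finset.mem_range.1 hj)]]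
  rw [Finset.sum_eq_single_of_mem 0 (Finset.mem_range.2 hN) fun j _ hj => by
    rw [if_neg hj, mul_zero]]
  rw [if_pos rfl, mul_div_assoc, div_self hN', mul_one, ← Complex.exp_nat_mul]
  congr 1
  have h2 : ((n * (n - 1) / 2 : ℕ) : ℂ) * 2 = n * (n - 1) := by
    have h3 : n * (n - 1) / 2 * 2 = n * (n - 1) :=
      Nat.div_mul_cancel (even_iff_two_dvd.1 (Nat.even_mul_pred_self n))
    rcases Nat.eq_zero_or_pos n with h0 | h0
    · subst h0
      simp
    · have h4 : ((n * (n - 1) / 2 : ℕ) : ℂ) * 2 = ((n * (n - 1) : ℕ) : ℂ) := by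
        exact_mod_cast h3
      rw [h4, Nat.cast_mul, Nat.cast_pred h0]
  have h3 : ((n * (n - 1) / 2 : ℕ) : ℂ) * (2 * Real.pi * I * a / N) =
      (((n * (n - 1) / 2 : ℕ) : ℂ) * 2) * (Real.pi * I * a / N) := by ring
  rw [h3, h2]
  push_cast
  field_simp
  ring

theorem lifts (N : ℕ) (hN : 0 < N) (a : ℤ) (ha : IsCoprime a (N : ℤ)) :
    ∃ (g : ℤ → ℂ) (ε g0 : ℝ), 0 < g0 ∧ (∀ m, ‖g m‖ = g0) ∧
      ∀ (t z : ℂ) (m0 : ℤ), 0 ≤ t.re →
        SokamF.F (cexp (2 * Real.pi * I * a / N) * cexp (-t)) z =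
          ∑ m ∈ Finset.Ico m0 (m0 + N), g m * E t (cexp (2 * Real.pi * (m + ε) / N * I) * z) ∧
        z * SokamF.F (cexp (2 * Real.pi * I * a / N) * cexp (-t))
            (cexp (2 * Real.pi * I * a / N) * cexp (-t) * z) =
          ∑ m ∈ Finset.Ico m0 (m0 + N), g m * DE t (cexp (2 * Real.pi * (m + ε) / N * I) * z) := by
  refine ⟨gg N a, (a * (N - 1) / 2 : ℝ), ‖gg N a 0‖, ?_, norm_gg hN a ha, ?_⟩
  · rw [norm_pos_iff]
    intro h0
    have h1 : ∀ m, gg N a m = 0 := fun m => by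
      rw [← norm_eq_zero, norm_gg hN a ha m, h0, norm_zero]
    have h2 := inversion hN a 0 0
    rw [Finset.sum_eq_zero fun m _ => by rw [h1 m, zero_mul]] at h2
    simp at h2
  · intro t z m0 ht
    set ε : ℝ := (a * (N - 1) / 2 : ℝ) with hε
    have hq : ‖cexp (-t)‖ ≤ 1 := norm_exp_neg_le ht
    have hω : ‖cexp (2 * Real.pi * I * a / N)‖ = 1 := by
      have h1 : (2 * Real.pi * I * a / N : ℂ) = ((2 * Real.pi * a / N : ℝ) : ℂ) * I := by
        push_cast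
        ring
      rw [h1, Complex.norm_exp_ofReal_mul_I]
    have hq' : ‖cexp (2 * Real.pi * I * a / N) * cexp (-t)‖ ≤ 1 := by
      rw [norm_mul, hω, one_mul]
      exact hq
    have key : ∀ z : ℂ, SokamF.F (cexp (2 * Real.pi * I * a / N) * cexp (-t)) z =
        ∑ m ∈ Finset.Ico m0 (m0 + N), gg N a m * E t (cexp (2 * Real.pi * (m + ε) / N * I) * z) := by
      intro z
      have h1 : ∀ m ∈ Finset.Ico m0 (m0 + N), Summable fun k : ℕ => gg N a m *
          (cexp (-t) ^ (k * (k - 1) / 2) * (cexp (2 * Real.pi * (m + ε) / N * I) * z) ^ k /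
            (Nat.factorial k : ℂ)) := fun m _ => (SokamF.summable_term hq _).mul_left _
      unfold E
      unfold SokamF.F
      rw [Finset.sum_congr rfl fun m _ => (tsum_mul_left).symm, ← Summable.tsum_finsetSum h1]
      refine tsum_congr fun k => ?_
      rw [mul_pow, ← inversion hN a m0 k, Finset.sum_mul, Finset.sum_mul, Finset.sum_div]
      refine Finset.sum_congr rfl fun m _ => ?_
      rw [mul_pow]
      ring
    refine ⟨key z, ?_⟩
    have h1 := SokamF.hasDerivAt_F hq' z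
    have h2 : HasDerivAt (fun z => ∑ m ∈ Finset.Ico m0 (m0 + N),
        gg N a m * E t (cexp (2 * Real.pi * (m + ε) / N * I) * z))
        (∑ m ∈ Finset.Ico m0 (m0 + N), gg N a m *
          (E t (cexp (-t) * (cexp (2 * Real.pi * (m + ε) / N * I) * z)) *
            cexp (2 * Real.pi * (m + ε) / N * I))) z := by
      refine HasDerivAt.fun_sum fun m _ => ?_
      have h3 : HasDerivAt (fun z => cexp (2 * Real.pi * (m + ε) / N * I) * z)
          (cexp (2 * Real.pi * (m + ε) / N * I)) z := by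
        simpa using (hasDerivAt_id z).const_mul (cexp (2 * Real.pi * (m + ε) / N * I))
      have h4 : HasDerivAt (E t) (E t (cexp (-t) * (cexp (2 * Real.pi * (m + ε) / N * I) * z)))
          (cexp (2 * Real.pi * (m + ε) / N * I) * z) := SokamF.hasDerivAt_F hq _
      exact (h4.comp z h3).const_mul _
    have h3 : SokamF.F (cexp (2 * Real.pi * I * a / N) * cexp (-t)) = fun z =>
        ∑ m ∈ Finset.Ico m0 (m0 + N), gg N a m * E t (cexp (2 * Real.pi * (m + ε) / N * I) * z) :=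
      funext key
    have h5 : HasDerivAt (SokamF.F (cexp (2 * Real.pi * I * a / N) * cexp (-t)))
        (∑ m ∈ Finset.Ico m0 (m0 + N), gg N a m *
          (E t (cexp (-t) * (cexp (2 * Real.pi * (m + ε) / N * I) * z)) *
            cexp (2 * Real.pi * (m + ε) / N * I))) z := by
      rw [h3]
      exact h2
    have h4 := h1.unique h5
    rw [h4, Finset.mul_sum]
    refine Finset.sum_congr rfl fun m _ => ?_
    unfold DE
    ring

end SokamU

end

/-! ### Lib_MP_af4de1_BPlus.Lifts2 -/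

section
namespace SokamU
end SokamU
/-!
# The second derivative in the rotated copies

`D2E t = D (D (E t))`, `D = z d/dz`, and the identity for `D (D F)` obtained by differentiating the
identity for `D F` of `lifts`.
-/

namespace SokamBPlus

open Complex SokamU

/-- `D (DE t)`, `D = z d/dz`. -/
noncomputable def D2E (t z : ℂ) : ℂ := DE t z + z * DE t (cexp (-t) * z)

theorem hasDerivAt_DE {t : ℂ} (ht : 0 ≤ t.re) (z : ℂ) :
    HasDerivAt (DE t) (E t (cexp (-t) * z) + z * (E t (cexp (-t) * (cexp (-t) * z)) * cexp (-t)))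
      z := by
  have h1 : HasDerivAt (fun w : ℂ => E t (cexp (-t) * w))
      (E t (cexp (-t) * (cexp (-t) * z)) * cexp (-t)) z := by
    have h2 : HasDerivAt (fun w : ℂ => cexp (-t) * w) (cexp (-t)) z := by
      simpa using (hasDerivAt_id z).const_mul (cexp (-t))
    exact (hasDerivAt_E ht (cexp (-t) * z)).comp z h2
  have h3 := (hasDerivAt_id z).mul h1
  simp only [id_eq, one_mul] at h3
  exact h3

theorem lifts2 (N : ℕ) (hN : 0 < N) (a : ℤ) (ha : IsCoprime a (N : ℤ)) :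
    ∃ (g : ℤ → ℂ) (ε g0 : ℝ), 0 < g0 ∧ (∀ m, ‖g m‖ = g0) ∧
      ∀ (t z q : ℂ) (m0 : ℤ), 0 ≤ t.re → q = cexp (2 * Real.pi * I * a / N) * cexp (-t) →
        SokamF.F q z =
          ∑ m ∈ Finset.Ico m0 (m0 + N), g m * E t (cexp (2 * Real.pi * (m + ε) / N * I) * z) ∧
        z * SokamF.F q (q * z) =
          ∑ m ∈ Finset.Ico m0 (m0 + N), g m * DE t (cexp (2 * Real.pi * (m + ε) / N * I) * z) ∧
        z * SokamF.F q (q * z) + z * (q * z * SokamF.F q (q * (q * z))) =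
          ∑ m ∈ Finset.Ico m0 (m0 + N), g m * D2E t (cexp (2 * Real.pi * (m + ε) / N * I) * z) := by
  obtain ⟨g, ε, g0, hg0, hg, hl⟩ := lifts N hN a ha
  refine ⟨g, ε, g0, hg0, hg, fun t z q m0 ht hq => ?_⟩
  have hq1 : ‖q‖ ≤ 1 := by
    rw [hq, norm_mul]
    have h1 : ‖cexp (2 * Real.pi * I * a / N)‖ = 1 := by
      have : (2 * Real.pi * I * a / N : ℂ) = ((2 * Real.pi * a / N : ℝ) : ℂ) * I := by
        push_cast; ring
      rw [this, Complex.norm_exp_ofReal_mul_I]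
    rw [h1, one_mul]
    exact norm_exp_neg_le ht
  have hid : ∀ w : ℂ, w * SokamF.F q (q * w) =
      ∑ m ∈ Finset.Ico m0 (m0 + N), g m * DE t (cexp (2 * Real.pi * (m + ε) / N * I) * w) := by
    intro w
    have := (hl t w m0 ht).2
    rw [← hq] at this
    exact this
  refine ⟨?_, hid z, ?_⟩
  · have := (hl t z m0 ht).1
    rw [← hq] at this
    exact this
  · -- differentiate
    have h1 : HasDerivAt (fun w : ℂ => w * SokamF.F q (q * w))
        (SokamF.F q (q * z) + z * (SokamF.F q (q * (q * z)) * q)) z := by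
      have h2 : HasDerivAt (fun w : ℂ => q * w) q z := by
        simpa using (hasDerivAt_id z).const_mul q
      have h3 := (SokamF.hasDerivAt_F hq1 (q * z)).comp z h2
      have h4 := (hasDerivAt_id z).mul h3
      simp only [id_eq, one_mul] at h4
      exact h4
    have h2 : HasDerivAt (fun w : ℂ => ∑ m ∈ Finset.Ico m0 (m0 + N),
        g m * DE t (cexp (2 * Real.pi * (m + ε) / N * I) * w))
        (∑ m ∈ Finset.Ico m0 (m0 + N), g m *
          ((E t (cexp (-t) * (cexp (2 * Real.pi * (m + ε) / N * I) * z)) +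
            cexp (2 * Real.pi * (m + ε) / N * I) * z *
            (E t (cexp (-t) * (cexp (-t) * (cexp (2 * Real.pi * (m + ε) / N * I) * z))) *
              cexp (-t))) * cexp (2 * Real.pi * (m + ε) / N * I))) z := by
      refine HasDerivAt.fun_sum fun m _ => ?_
      refine HasDerivAt.const_mul (g m) ?_
      have h5 : HasDerivAt (fun w : ℂ => cexp (2 * Real.pi * (m + ε) / N * I) * w)
          (cexp (2 * Real.pi * (m + ε) / N * I)) z := by
        simpa using (hasDerivAt_id z).const_mul (cexp (2 * Real.pi * (m + ε) / N * I))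
      exact (hasDerivAt_DE ht (cexp (2 * Real.pi * (m + ε) / N * I) * z)).comp z h5
    have h3 : (fun w : ℂ => w * SokamF.F q (q * w)) = fun w : ℂ => ∑ m ∈ Finset.Ico m0 (m0 + N),
        g m * DE t (cexp (2 * Real.pi * (m + ε) / N * I) * w) := funext hid
    rw [h3] at h1
    have h4 := h1.unique h2
    have h5 : z * SokamF.F q (q * z) + z * (q * z * SokamF.F q (q * (q * z))) =
        z * (SokamF.F q (q * z) + z * (SokamF.F q (q * (q * z)) * q)) := by ring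
    rw [h5, h4, Finset.mul_sum]
    refine Finset.sum_congr rfl fun m _ => ?_
    unfold D2E DE
    ring

end SokamBPlus

end

/-! ### Lib_MP_af4de1_fu.Tub -/

section
namespace SokamF
end SokamF
/-!
# Tubes around the zeros of `F(·; e^(iα))` and the continuation lemma

`Dist α r`: at most one zero of `F(·; e^(iα))` on `|z| = r`, and it is simple.
`IsTube a δ c lam η' η`: for `|s| ≤ δ` the function `h ↦ F(c e^(lam s + h); e^(i(a+s)))` has exactly one zero in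
`‖h‖ ≤ η`; it is simple and lies in `‖h‖ ≤ η' < η`.
-/

set_option autoImplicit false

namespace SokamFU

open Filter Topology Set SokamF

/-- `e^(iα)` -/
noncomputable def qa (α : ℝ) : ℂ := Complex.exp ((α : ℂ) * Complex.I)

theorem norm_qa (α : ℝ) : ‖qa α‖ = 1 := Complex.norm_exp_ofReal_mul_I α

/-- at most one zero on `|z| = r`, simple -/
def Dist (α r : ℝ) : Prop := ∀ z : ℂ, ‖z‖ = r → F (qa α) z = 0 →
  deriv (F (qa α)) z ≠ 0 ∧ ∀ w : ℂ, ‖w‖ = r → F (qa α) w = 0 → w = z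

/-- the point `c e^(lam s + h)` -/
noncomputable def tp (c lam : ℂ) (s : ℝ) (h : ℂ) : ℂ := c * Complex.exp (lam * s + h)

/-- A tube: the output of the evaluator (T1). -/
structure IsTube (a δ : ℝ) (c lam : ℂ) (η' η : ℝ) : Prop where
  c_ne : c ≠ 0
  lt : η' < η
  ex : ∀ s : ℝ, |s| ≤ δ → ∃ h : ℂ, ‖h‖ ≤ η' ∧ F (qa (a + s)) (tp c lam s h) = 0
  simple : ∀ s : ℝ, |s| ≤ δ → ∀ h : ℂ, ‖h‖ ≤ η → F (qa (a + s)) (tp c lam s h) = 0 →
    deriv (F (qa (a + s))) (tp c lam s h) ≠ 0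
  uniq : ∀ s : ℝ, |s| ≤ δ → ∀ h h' : ℂ, ‖h‖ ≤ η → ‖h'‖ ≤ η → F (qa (a + s)) (tp c lam s h) = 0 →
    F (qa (a + s)) (tp c lam s h') = 0 → h = h'

/-- A box: `K` tubes over `|α - a| ≤ δ`, ordered by modulus, the last one outside `|z| < R0`. -/
structure IsBox (R0 a δ : ℝ) (K : ℕ) (c lam : ℕ → ℂ) (η' η : ℕ → ℝ) : Prop where
  pos : 0 < K
  tube : ∀ k < K, IsTube a δ (c k) (lam k) (η' k) (η k)
  ord : ∀ k, k + 1 < K → ∀ s : ℝ, |s| ≤ δ →
    ‖c k‖ * Real.exp ((lam k).re * s + η' k) < ‖c (k + 1)‖ * Real.exp ((lam (k + 1)).re * s - η' (k + 1))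
  top : ∀ s : ℝ, |s| ≤ δ → R0 ≤ ‖c (K - 1)‖ * Real.exp ((lam (K - 1)).re * s - η' (K - 1))

/-! ### Continuity -/

theorem continuous_qa : Continuous qa := by
  unfold qa
  fun_prop

/-- joint continuity of `F(z; e^(iα))` -/
theorem continuous_Fqa : Continuous (fun p : ℝ × ℂ => F (qa p.1) p.2) := by
  have hf : Continuous (fun p : ℝ × ℂ => (qa p.1, p.2)) :=
    (continuous_qa.comp continuous_fst).prodMk continuous_snd
  exact continuousOn_F.comp_continuous hf (fun p => (norm_qa p.1).le)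

theorem tendsto_zero {αn : ℕ → ℝ} {α : ℝ} (hα : Tendsto αn atTop (𝓝 α)) {wn : ℕ → ℂ} {w : ℂ}
    (hw : Tendsto wn atTop (𝓝 w)) (h0 : ∀ n, F (qa (αn n)) (wn n) = 0) : F (qa α) w = 0 := by
  have h2 : Tendsto (fun n => (αn n, wn n)) atTop (𝓝 (α, w)) := hα.prodMk_nhds hw
  have h1 := (continuous_Fqa.tendsto (α, w)).comp h2
  have h3 : ((fun p : ℝ × ℂ => F (qa p.1) p.2) ∘ fun n => (αn n, wn n)) = fun _ => (0 : ℂ) := funext h0
  rw [h3] at h1
  exact (tendsto_nhds_unique h1 tendsto_const_nhds)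

end SokamFU

end

/-! ### Lib_MP_af4de1_f1.Dec -/

section
namespace SokamFU
end SokamFU
namespace SokamU
end SokamU
/-!
# The wave decomposition on a circle

`q = e^{iα}`, `α = 2 π a / N + del`, `t = -i del`; the points `w_j = r e^{i (θ_j - r del + del/2)}`,
`θ_j = (x + j) 2 π/N`, `0 ≤ x < 1`.
-/

set_option autoImplicit false

namespace SokamF1

open Complex SokamU SokamFU

/-- the point at the centred angle `θ` on the circle of radius `r` -/
noncomputable def wp (r del θ : ℝ) : ℂ := r * cexp (((θ - r * del + del / 2 : ℝ) : ℂ) * I)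

theorem norm_wp {r : ℝ} (hr : 0 ≤ r) (del θ : ℝ) : ‖wp r del θ‖ = r := by
  unfold wp
  rw [norm_mul, Complex.norm_exp_ofReal_mul_I, mul_one, Complex.norm_real, Real.norm_of_nonneg hr]

/-- `t = -i del` -/
noncomputable def tt (del : ℝ) : ℂ := -((del : ℂ) * I)

theorem re_tt (del : ℝ) : (tt del).re = 0 := by simp [tt]

theorem exp_neg_tt (del : ℝ) : cexp (-tt del) = qa del := by simp [tt, qa]

/-- multiplication by `q'` moves the angle by `del` -/
theorem qa_mul_wp (r del θ : ℝ) : qa del * wp r del θ = wp r del (θ + del) := by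
  unfold qa wp
  rw [← mul_assoc, mul_comm (cexp _) (r : ℂ), mul_assoc, ← Complex.exp_add]
  congr 2
  push_cast; ring

/-- the step -/
noncomputable def hst (N : ℕ) : ℝ := 2 * Real.pi / N

/-- (L2) the waves on the circle `‖z‖ = r`. -/
theorem dec (N : ℕ) (hN : 0 < N) (a : ℤ) (ha : IsCoprime a (N : ℤ)) :
    ∃ g0 : ℝ, 0 < g0 ∧ ∀ (r del : ℝ) (z : ℂ), 0 < r → ‖z‖ = r →
      ∃ (x : ℝ) (c : ℤ → ℂ), 0 ≤ x ∧ x < 1 ∧ (∀ j, ‖c j‖ = g0) ∧ ∀ j0 : ℤ,
        SokamF.F (qa (2 * Real.pi * a / N + del)) z =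
          ∑ j ∈ Finset.Ico j0 (j0 + N), c j * E (tt del) (wp r del ((x + j) * hst N)) ∧
        z * SokamF.F (qa (2 * Real.pi * a / N + del)) (qa (2 * Real.pi * a / N + del) * z) =
          ∑ j ∈ Finset.Ico j0 (j0 + N), c j * DE (tt del) (wp r del ((x + j) * hst N)) ∧
        z * SokamF.F (qa (2 * Real.pi * a / N + del)) (qa (2 * Real.pi * a / N + del) * z) +
          z * (qa (2 * Real.pi * a / N + del) * z * SokamF.F (qa (2 * Real.pi * a / N + del))
            (qa (2 * Real.pi * a / N + del) * (qa (2 * Real.pi * a / N + del) * z))) =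
          ∑ j ∈ Finset.Ico j0 (j0 + N), c j *
            SokamBPlus.D2E (tt del) (wp r del ((x + j) * hst N)) := by
  obtain ⟨g, ε, g0, hg0, hg, hl⟩ := SokamBPlus.lifts2 N hN a ha
  refine ⟨g0, hg0, fun r del z hr hz => ?_⟩
  have hN' : (N : ℝ) ≠ 0 := by exact_mod_cast hN.ne'
  have hpi := Real.pi_pos
  set y : ℝ := (Complex.arg z + r * del - del / 2) * N / (2 * Real.pi) + ε with hy
  refine ⟨Int.fract y, fun j => g (j - ⌊y⌋), Int.fract_nonneg y, Int.fract_lt_one y,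
    fun j => hg _, fun j0 => ?_⟩
  have hq : qa (2 * Real.pi * a / N + del) = cexp (2 * Real.pi * I * a / N) * cexp (-tt del) := by
    rw [exp_neg_tt]
    unfold qa
    rw [← Complex.exp_add]
    congr 1
    push_cast; ring
  have hpt : ∀ j : ℤ, cexp (2 * Real.pi * (((j - ⌊y⌋ : ℤ) : ℂ) + ε) / N * I) * z =
      wp r del ((Int.fract y + j) * hst N) := by
    intro j
    have hz2 : z = r * cexp (Complex.arg z * I) := by
      rw [← hz]; exact (Complex.norm_mul_exp_arg_mul_I z).symm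
    conv_lhs => rw [hz2]
    unfold wp
    rw [← mul_assoc, mul_comm (cexp _) (r : ℂ), mul_assoc, ← Complex.exp_add]
    congr 2
    have h1 : (Int.fract y + j) * hst N - r * del + del / 2 =
        2 * Real.pi * (((j - ⌊y⌋ : ℤ) : ℝ) + ε) / N + Complex.arg z := by
      rw [← Int.self_sub_floor, hy]
      unfold hst
      push_cast
      field_simp
      ring
    rw [h1]
    push_cast
    ring
  have key : ∀ G : ℂ → ℂ, ∑ m ∈ Finset.Ico (j0 - ⌊y⌋) (j0 - ⌊y⌋ + N),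
      g m * G (cexp (2 * Real.pi * (m + ε) / N * I) * z) =
      ∑ j ∈ Finset.Ico j0 (j0 + N), g (j - ⌊y⌋) * G (wp r del ((Int.fract y + j) * hst N)) := by
    intro G
    refine Finset.sum_nbij' (fun m => m + ⌊y⌋) (fun j => j - ⌊y⌋) ?_ ?_ ?_ ?_ ?_
    · intro m hm
      simp only [Finset.mem_Ico] at hm ⊢
      omega
    · intro m hm
      simp only [Finset.mem_Ico] at hm ⊢
      omega
    · intro m _; ring
    · intro m _; ring
    · intro m _
      have h1 := hpt (m + ⌊y⌋)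
      rw [add_sub_cancel_right] at h1 ⊢
      rw [h1]
  have h := hl (tt del) z (qa (2 * Real.pi * a / N + del)) (j0 - ⌊y⌋) (re_tt del).ge hq
  rw [key (E (tt del)), key (DE (tt del)), key (SokamBPlus.D2E (tt del))] at h
  exact h

/-! ### Conjugation -/

theorem conj_F (q z : ℂ) :
    SokamF.F ((starRingEnd ℂ) q) ((starRingEnd ℂ) z) = (starRingEnd ℂ) (SokamF.F q z) := by
  unfold SokamF.F
  rw [Complex.conj_tsum]
  refine tsum_congr fun k => ?_
  simp

theorem qa_neg (α : ℝ) : qa (-α) = (starRingEnd ℂ) (qa α) := by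
  unfold qa
  rw [← Complex.exp_conj]
  simp

theorem deriv_F_neg (α : ℝ) (z : ℂ) :
    deriv (SokamF.F (qa (-α))) z = (starRingEnd ℂ) (deriv (SokamF.F (qa α)) ((starRingEnd ℂ) z)) := by
  have hF : SokamF.F (qa (-α)) = fun w => (starRingEnd ℂ) (SokamF.F (qa α) ((starRingEnd ℂ) w)) := by
    funext w
    rw [← conj_F, qa_neg, Complex.conj_conj]
  rw [hF]
  exact congrFun (deriv_conj_conj (f := SokamF.F (qa α))) z

theorem dist_neg {α r : ℝ} (h : Dist α r) : Dist (-α) r := by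
  intro z hz h0
  have h1 : ‖(starRingEnd ℂ) z‖ = r := by rw [Complex.norm_conj]; exact hz
  have hF : ∀ w, SokamF.F (qa (-α)) w = (starRingEnd ℂ) (SokamF.F (qa α) ((starRingEnd ℂ) w)) := by
    intro w
    rw [← conj_F, qa_neg, Complex.conj_conj]
  have h2 : SokamF.F (qa α) ((starRingEnd ℂ) z) = 0 := by
    have := hF z
    rw [h0] at this
    exact (map_eq_zero (starRingEnd ℂ)).mp this.symm
  obtain ⟨h3, h4⟩ := h _ h1 h2
  refine ⟨?_, fun w hw hw0 => ?_⟩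
  · rw [deriv_F_neg]
    exact (map_ne_zero (starRingEnd ℂ)).mpr h3
  · have h5 : SokamF.F (qa α) ((starRingEnd ℂ) w) = 0 := by
      have := hF w
      rw [hw0] at this
      exact (map_eq_zero (starRingEnd ℂ)).mp this.symm
    have h6 := h4 ((starRingEnd ℂ) w) (by rw [Complex.norm_conj]; exact hw) h5
    exact (starRingEnd ℂ).injective h6

theorem dist_neg_iff {α r : ℝ} : Dist (-α) r ↔ Dist α r :=
  ⟨fun h => by have := dist_neg h; rwa [neg_neg] at this, dist_neg⟩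

theorem qa_add_two_pi (α : ℝ) (n : ℤ) : qa (α + n * (2 * Real.pi)) = qa α := by
  unfold qa
  have : ((α + n * (2 * Real.pi) : ℝ) : ℂ) * I = (α : ℂ) * I + n * (2 * Real.pi * I) := by
    push_cast; ring
  rw [this, Complex.exp_add, Complex.exp_int_mul_two_pi_mul_I, mul_one]

/-- `Dist` has period `2π` -/
theorem dist_add_two_pi {α r : ℝ} (n : ℤ) : Dist (α + n * (2 * Real.pi)) r ↔ Dist α r := by
  unfold SokamFU.Dist
  rw [qa_add_two_pi]

end SokamF1

end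

/-! ### Lib_MP_af4de1_f1.Soft -/

section
namespace SokamBPlus
end SokamBPlus
namespace SokamF
end SokamF
namespace SokamRay
end SokamRay
/-!
# One circle: at most one zero, and it is simple

Let `|q| = 1`, `q ≠ 1`.  If `Re (1 + M(qz) - M(z)) > 0` at all `z` with `r - ε < |z| < r` and
`M(z) = z F(qz) / F(z) < 0`, then `F(.;q)` has at most one zero on `|z| = r`, and it is simple.
(Near a zero `w` of any multiplicity the points with `M < 0` meet all circles of radius slightly less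
than `|w|`; `F'(z) = F(qz)`, so a double zero `w` gives the second zero `q w` on the same circle.)
-/

set_option autoImplicit false

namespace SokamF1

open Real Filter Topology SokamF SokamRay SokamBPlus

/-- Near a simple zero `w` of `k` with `⟨w, 1/k'(w)⟩ > 0` the points with `k < 0` meet all circles of
radius slightly less than `‖w‖`. -/
theorem curve_of {k : ℂ → ℂ} {w : ℂ} (hka : AnalyticAt ℂ k w) (hkw : k w = 0)
    (hkd0 : deriv k w ≠ 0) (hpos : 0 < inner ℝ w (deriv k w)⁻¹) {ε : ℝ} (hε : 0 < ε) :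
    ∃ δ > 0, ∀ r', ‖w‖ - δ < r' → r' < ‖w‖ → ∃ u : ℂ, ‖u - w‖ < ε ∧ ‖u‖ = r' ∧
      ∃ s : ℝ, 0 < s ∧ k u = -(s : ℂ) := by
  set φ : ℂ → ℂ := hka.hasStrictDerivAt.localInverse _ _ _ hkd0 with hφ
  have hφa : AnalyticAt ℂ φ (k w) := hka.analyticAt_localInverse hkd0
  have hφd : HasStrictDerivAt φ (deriv k w)⁻¹ (k w) := hka.hasStrictDerivAt.to_localInverse hkd0
  have hφw : φ (k w) = w := HasStrictFDerivAt.localInverse_apply_image ..
  have hright : ∀ᶠ y in 𝓝 (k w), k (φ y) = y :=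
    HasStrictDerivAt.eventually_right_inverse hka.hasStrictDerivAt hkd0
  rw [hkw] at hφa hφd hφw hright
  -- the curve
  set γ : ℝ → ℂ := fun s => φ (-(s : ℂ)) with hγ
  have hγ0 : γ 0 = w := by simp [hγ, hφw]
  have hneg : Tendsto (fun s : ℝ => -(s : ℂ)) (𝓝 0) (𝓝 0) := by
    have : Continuous fun s : ℝ => -(s : ℂ) := by fun_prop
    simpa using this.tendsto 0
  have hγd : HasDerivAt γ (-(deriv k w)⁻¹) 0 := by
    have h1 : HasDerivAt (fun s : ℝ => -(s : ℂ)) (-1) 0 := by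
      have h0 : HasDerivAt (fun s : ℝ => (s : ℂ)) 1 0 := by
        exact (Complex.ofRealCLM.hasDerivAt (x := (0 : ℝ))).congr_deriv (by simp)
      exact h0.neg
    have h2 : HasDerivAt φ (deriv k w)⁻¹ (-((0 : ℝ) : ℂ)) := by
      simpa using hφd.hasDerivAt
    refine (h2.comp (0 : ℝ) h1).congr_deriv ?_
    ring
  -- the squared modulus decreases
  have hNd : HasDerivAt (fun s => ‖γ s‖ ^ (2 : ℕ)) (2 * inner ℝ (γ 0) (-(deriv k w)⁻¹)) 0 :=
    hγd.norm_sq
  have hinner : inner ℝ (γ 0) (-(deriv k w)⁻¹) < 0 := by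
    rw [hγ0, inner_neg_right, neg_lt_zero]
    exact hpos
  -- a neighbourhood of `0`
  have hc0 : ∀ᶠ s : ℝ in 𝓝 0, ContinuousAt φ (-(s : ℂ)) :=
    hneg.eventually (hφa.eventually_analyticAt.mono fun z hz => hz.continuousAt)
  have hr0 : ∀ᶠ s : ℝ in 𝓝 0, k (φ (-(s : ℂ))) = -(s : ℂ) := hneg.eventually hright
  have hγc : ContinuousAt γ 0 := hγd.continuousAt
  have hball : ∀ᶠ s : ℝ in 𝓝 0, ‖γ s - w‖ < ε := by
    have := Metric.continuousAt_iff'.1 hγc ε hε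
    simpa [dist_eq_norm, hγ0] using this
  obtain ⟨η, hη, hall⟩ := Metric.eventually_nhds_iff_ball.1 (hc0.and (hr0.and hball))
  have hslope := hNd.tendsto_slope
  have h3 : ∀ᶠ s in 𝓝[≠] (0 : ℝ), slope (fun s => ‖γ s‖ ^ (2 : ℕ)) 0 s < 0 :=
    hslope.eventually_lt_const (by linarith only [hinner])
  have h4 : ∀ᶠ s in 𝓝[>] (0 : ℝ), slope (fun s => ‖γ s‖ ^ (2 : ℕ)) 0 s < 0 :=
    h3.filter_mono (nhdsWithin_mono _ fun x hx => ne_of_gt hx)
  have h5 : ∀ᶠ s in 𝓝[>] (0 : ℝ), s < η := eventually_nhdsWithin_of_eventually_nhds (gt_mem_nhds hη)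
  have h6 : ∀ᶠ s in 𝓝[>] (0 : ℝ), 0 < s := eventually_mem_nhdsWithin
  obtain ⟨s₀, hs1, hs2, hs3⟩ := (h4.and (h5.and h6)).exists
  have hlt : ‖γ s₀‖ < ‖w‖ := by
    rw [slope_def_field, sub_zero, div_lt_iff₀ hs3, zero_mul, sub_neg] at hs1
    have h7 : ‖γ s₀‖ ^ (2 : ℕ) < ‖γ 0‖ ^ (2 : ℕ) := hs1
    rw [hγ0] at h7
    exact lt_of_pow_lt_pow_left₀ 2 (norm_nonneg _) h7
  refine ⟨‖w‖ - ‖γ s₀‖, by linarith only [hlt], fun r' hr1 hr2 => ?_⟩
  have hmem : ∀ s ∈ Set.Icc (0 : ℝ) s₀, s ∈ Metric.ball (0 : ℝ) η := by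
    intro s hs
    rw [mem_ball_zero_iff, Real.norm_of_nonneg hs.1]
    linarith only [hs2, hs.2]
  have hcont : ContinuousOn (fun s => ‖γ s‖) (Set.Icc 0 s₀) := by
    intro s hs
    have h8 := (hall s (hmem s hs)).1
    have h9 : ContinuousAt γ s := by
      refine ContinuousAt.comp (f := fun s : ℝ => -(s : ℂ)) (g := φ) h8 ?_
      fun_prop
    exact h9.norm.continuousWithinAt
  have hivt := intermediate_value_Ioo' hs3.le hcont
  have hr'mem : r' ∈ Set.Ioo (‖γ s₀‖) (‖γ 0‖) := by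
    rw [hγ0]
    exact ⟨by linarith only [hr1], hr2⟩
  obtain ⟨s, hs, hsr⟩ := hivt hr'mem
  obtain ⟨-, c2, c3⟩ := hall s (hmem s ⟨hs.1.le, hs.2.le⟩)
  exact ⟨γ s, c3, hsr, s, hs.1, c2⟩

/-- Near a zero of any multiplicity. -/
theorem curve_mult {G : ℂ → ℂ} (hG : Differentiable ℂ G) (hG0 : G 0 ≠ 0) {w : ℂ} (hw : G w = 0)
    {ε : ℝ} (hε : 0 < ε) :
    ∃ δ > 0, ∀ r', ‖w‖ - δ < r' → r' < ‖w‖ → ∃ u : ℂ, ‖u - w‖ < ε ∧ ‖u‖ = r' ∧
      ∃ s : ℝ, 0 < s ∧ G u + s * (u * deriv G u) = 0 := by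
  have hw0 : w ≠ 0 := by
    rintro rfl
    exact hG0 hw
  have hda : ∀ z, AnalyticAt ℂ G z := fun z => hG.analyticAt z
  have hne : ∃ᶠ z in 𝓝 w, G z ≠ 0 := by
    have h1 := eventually_ne hG hG0 w
    exact h1.frequently.filter_mono nhdsWithin_le_nhds
  have hfin : analyticOrderAt G w ≠ ⊤ := by
    rw [Ne, analyticOrderAt_eq_top]
    intro h
    exact (hne.and_eventually h).exists.elim fun z hz => hz.1 hz.2
  obtain ⟨n, hn⟩ := ENat.ne_top_iff_exists.1 hfin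
  obtain ⟨g, hga, hgw, hgG⟩ := ((hda w).analyticOrderAt_eq_natCast (n := n)).1 hn.symm
  have hn0 : n ≠ 0 := by
    rintro rfl
    have h1 := hgG.self_of_nhds
    rw [hw] at h1
    simp only [pow_zero, smul_eq_mul, one_mul] at h1
    exact hgw h1.symm
  have hnc : (n : ℂ) ≠ 0 := by exact_mod_cast hn0
  -- the derivative near `w`
  have hGd : ∀ᶠ z in 𝓝 w, deriv G z = (z - w) ^ (n - 1) * (n * g z + (z - w) * deriv g z) := by
    have h1 : ∀ᶠ z in 𝓝 w, G =ᶠ[𝓝 z] fun z => (z - w) ^ n • g z := hgG.eventually_nhds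
    filter_upwards [h1, hga.eventually_analyticAt] with z hz hz2
    rw [hz.deriv_eq]
    have h2 : HasDerivAt (fun z => (z - w) ^ n) (n * (z - w) ^ (n - 1)) z := by
      have h0 : HasDerivAt (fun u : ℂ => u - w) 1 z := (hasDerivAt_id z).sub_const w
      have := h0.fun_pow n
      simpa using this
    have h3 := h2.mul hz2.differentiableAt.hasDerivAt
    have h4 : deriv (fun z => (z - w) ^ n • g z) z = _ := h3.deriv
    rw [h4]
    obtain ⟨k, rfl⟩ := Nat.exists_eq_succ_of_ne_zero hn0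
    rw [Nat.succ_sub_one, pow_succ]
    ring
  set den : ℂ → ℂ := fun u => u * (n * g u + (u - w) * deriv g u) with hden
  have hdena : AnalyticAt ℂ den w := by
    have h1 : AnalyticAt ℂ (fun u : ℂ => u - w) w := analyticAt_id.sub analyticAt_const
    exact analyticAt_id.mul ((analyticAt_const.mul hga).add (h1.mul hga.deriv))
  have hdenw : den w = n * w * g w := by
    simp only [hden]
    ring
  have hdenw0 : den w ≠ 0 := by
    rw [hdenw]
    exact mul_ne_zero (mul_ne_zero hnc hw0) hgw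
  set k : ℂ → ℂ := fun u => (u - w) * g u / den u with hk
  have hka : AnalyticAt ℂ k w := by
    have h1 : AnalyticAt ℂ (fun u : ℂ => u - w) w := analyticAt_id.sub analyticAt_const
    exact (h1.mul hga).div hdena hdenw0
  have hkw : k w = 0 := by simp [hk]
  have hkd : deriv k w = 1 / (n * w) := by
    have h0 : HasDerivAt (fun u : ℂ => u - w) 1 w := (hasDerivAt_id w).sub_const w
    have h1 : HasDerivAt (fun u : ℂ => (u - w) * g u) (1 * g w + (w - w) * deriv g w) w :=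
      h0.mul hga.differentiableAt.hasDerivAt
    have h2 := (h1.div hdena.differentiableAt.hasDerivAt hdenw0).deriv
    have h3 : deriv k w = _ := h2
    rw [h3, hdenw, sub_self]
    field_simp
    ring
  have hkd0 : deriv k w ≠ 0 := by
    rw [hkd]
    exact one_div_ne_zero (mul_ne_zero hnc hw0)
  have hpos : 0 < inner ℝ w (deriv k w)⁻¹ := by
    rw [hkd, one_div, inv_inv]
    have h1 : (n : ℂ) * w = (n : ℝ) • w := by
      rw [Complex.real_smul]
      push_cast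
      rfl
    rw [h1, inner_smul_right, real_inner_self_eq_norm_sq]
    have : 0 < ‖w‖ := norm_pos_iff.2 hw0
    have hn1 : (0 : ℝ) < n := by exact_mod_cast Nat.pos_of_ne_zero hn0
    (clear * - hn0 hw0; positivity)
  have hev : ∀ᶠ z in 𝓝 w, den z ≠ 0 ∧ G z = (z - w) ^ n • g z ∧
      deriv G z = (z - w) ^ (n - 1) * (n * g z + (z - w) * deriv g z) := by
    filter_upwards [hdena.continuousAt.eventually_ne hdenw0, hgG, hGd] with z h1 h2 h3
    exact ⟨h1, h2, h3⟩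
  obtain ⟨η, hη, hall⟩ := Metric.eventually_nhds_iff_ball.1 hev
  obtain ⟨δ, hδ, hc⟩ := curve_of hka hkw hkd0 hpos (lt_min hε hη)
  refine ⟨δ, hδ, fun r' h1 h2 => ?_⟩
  obtain ⟨u, hu1, hu2, s, hs, hu3⟩ := hc r' h1 h2
  obtain ⟨c1, c2, c3⟩ := hall u (mem_ball_iff_norm.2 (hu1.trans_le (min_le_right _ _)))
  refine ⟨u, hu1.trans_le (min_le_left _ _), hu2, s, hs, ?_⟩
  have c4 : (u - w) * g u = -(s : ℂ) * den u := by
    have c5 : (u - w) * g u / den u = -(s : ℂ) := hu3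
    rwa [div_eq_iff c1] at c5
  rw [c2, c3, smul_eq_mul]
  obtain ⟨m, rfl⟩ := Nat.exists_eq_succ_of_ne_zero hn0
  rw [Nat.succ_sub_one, pow_succ]
  simp only [hden] at c4
  linear_combination (u - w) ^ m * c4

/-- (U) on the circles `r - ε < |z| < r` implies: at most one zero on `|z| = r`. -/
theorem eq_of_U {q : ℂ} (hq0 : q ≠ 0) (hq1 : ‖q‖ ≤ 1) {r ε : ℝ} (hε : 0 < ε)
    (hm : ∀ u, r - ε < ‖u‖ → ‖u‖ < r → F q u ≠ 0 →
      (∃ s : ℝ, 0 < s ∧ F q u + s * (u * F q (q * u)) = 0) →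
      0 < (1 + q * u * F q (q * (q * u)) / F q (q * u) - u * F q (q * u) / F q u).re)
    {u v : ℂ} (hur : ‖u‖ = r) (hvr : ‖v‖ = r) (hu : F q u = 0) (hv : F q v = 0) : u = v := by
  have hG : Differentiable ℂ (F q) := differentiable_F hq1
  have hG0 : F q 0 ≠ 0 := by rw [F_zero]; exact one_ne_zero
  by_contra hne
  have hu0 : u ≠ 0 := by
    rintro rfl
    exact hG0 hu
  set ε' := ‖u - v‖ / 2 with hε'
  have hε0 : 0 < ε' := by
    have : 0 < ‖u - v‖ := norm_pos_iff.2 (sub_ne_zero.2 hne)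
    (clear * - this; positivity)
  obtain ⟨δ1, hδ1, hc1⟩ := curve_mult hG hG0 hu hε0
  obtain ⟨δ2, hδ2, hc2⟩ := curve_mult hG hG0 hv hε0
  have hr : 0 < r := by rw [← hur]; exact norm_pos_iff.2 hu0
  set δ := min (min (min δ1 δ2) r) ε with hδ
  have hδ0 : 0 < δ := lt_min (lt_min (lt_min hδ1 hδ2) hr) hε
  have hfin := ((finite_zeros hG hG0 r).image (fun z => ‖z‖)).union
    ((finite_zeros hG hG0 r).image (fun z => ‖z‖ / ‖q‖))
  have hinf : (Set.Ioo (r - δ) r).Infinite := Set.Ioo_infinite (by linarith only [hδ0])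
  obtain ⟨r', hr', hr''⟩ := hinf.exists_notMem_finite hfin
  have d0 : δ ≤ r := (min_le_left _ _).trans (min_le_right _ _)
  have d1 : δ ≤ δ1 := (min_le_left _ _).trans ((min_le_left _ _).trans (min_le_left _ _))
  have d2 : δ ≤ δ2 := (min_le_left _ _).trans ((min_le_left _ _).trans (min_le_right _ _))
  have d3 : δ ≤ ε := min_le_right _ _
  have hqn : 0 < ‖q‖ := norm_pos_iff.2 hq0
  have hr'0 : 0 < r' := by linarith only [d0, hr'.1]
  obtain ⟨x, hx1, hx2, hx3⟩ := hc1 r' (by rw [hur]; linarith only [d1, hr'.1]) (by rw [hur]; exact hr'.2)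
  obtain ⟨y, hy1, hy2, hy3⟩ := hc2 r' (by rw [hvr]; linarith only [d2, hr'.1]) (by rw [hvr]; exact hr'.2)
  rw [deriv_F hq1] at hx3 hy3
  have hxy : x ≠ y := by
    rintro rfl
    have h1 : ‖u - v‖ ≤ ‖x - u‖ + ‖x - v‖ := by
      have := norm_sub_le (x - v) (x - u)
      rw [show x - v - (x - u) = u - v by ring] at this
      linarith only [this]
    linarith only [hε', hx1, hy1, h1]
  have hcirc : ∀ z : ℂ, ‖z‖ = r' → F q z ≠ 0 := by
    intro z hz hz0
    exact hr'' (Or.inl ⟨z, ⟨by rw [hz]; exact hr'.2.le, hz0⟩, hz⟩)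
  have hcirc' : ∀ z : ℂ, ‖z‖ = ‖q‖ * r' → F q z ≠ 0 := by
    intro z hz hz0
    refine hr'' (Or.inr ⟨z, ⟨?_, hz0⟩, ?_⟩)
    · rw [hz]
      have : ‖q‖ * r' ≤ r' := mul_le_of_le_one_left hr'0.le hq1
      linarith only [this, hr'.2]
    · simp only [hz]
      field_simp
  refine one_point_le hG hG0 hq0 hq1 hr'0 hcirc hcirc' ?_ hx2 hy2 hxy hx3 hy3
  rintro z hz hz'
  rw [deriv_F hq1, deriv_F hq1]
  exact hm z (by rw [hz]; linarith only [d3, hr'.1]) (by rw [hz]; exact hr'.2) (hcirc z hz) hz'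

/-- (U) on the circles `r - ε < |z| < r` implies `Dist α r`. -/
theorem dist_of_U {α r ε : ℝ} (hα : SokamFU.qa α ≠ 1) (hε : 0 < ε)
    (hm : ∀ u, r - ε < ‖u‖ → ‖u‖ < r → F (SokamFU.qa α) u ≠ 0 →
      (∃ s : ℝ, 0 < s ∧ F (SokamFU.qa α) u + s * (u * F (SokamFU.qa α) (SokamFU.qa α * u)) = 0) →
      0 < (1 + SokamFU.qa α * u * F (SokamFU.qa α) (SokamFU.qa α * (SokamFU.qa α * u)) /
        F (SokamFU.qa α) (SokamFU.qa α * u) - u * F (SokamFU.qa α) (SokamFU.qa α * u) /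
        F (SokamFU.qa α) u).re) : SokamFU.Dist α r := by
  set q := SokamFU.qa α with hq
  have hq1 : ‖q‖ = 1 := SokamFU.norm_qa α
  have hq0 : q ≠ 0 := by
    intro h
    rw [h, norm_zero] at hq1
    exact zero_ne_one hq1
  intro z hz hz0
  refine ⟨?_, fun w hw hw0 => eq_of_U hq0 hq1.le hε hm hw hz hw0 hz0⟩
  rw [← hq, deriv_F hq1.le]
  intro h
  have h1 : q * z = z := by
    refine eq_of_U hq0 hq1.le hε hm ?_ hz h hz0
    rw [norm_mul, hq1, one_mul, hz]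
  have hz1 : z ≠ 0 := by
    rintro rfl
    rw [F_zero] at hz0
    exact one_ne_zero hz0
  exact hα (mul_right_cancel₀ hz1 (by rw [h1, one_mul]))

end SokamF1

end

/-! ### Lib_MP_af4de1_f1.Glue -/

section
namespace SokamFU
end SokamFU
namespace SokamU
end SokamU
/-!
# F1: from the waves to `Dist`, and the reduction of the parameters

`WaveU N del r`: (U) for every combination of the `N` waves with coefficients of equal size on the circle of
radius `r`.  `dist_of_waves`: `WaveU` near `r` gives `Dist (2πa/N + del) r`.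
`dist_F1_of`: F1 from the cases `N = 1`, `N = 2` and `N ≥ 3`.
-/

set_option autoImplicit false

namespace SokamF1

open Complex SokamU SokamFU

/-- the wave point `w_j` -/
noncomputable def wj (N : ℕ) (r del x : ℝ) (j : ℤ) : ℂ := wp r del ((x + j) * hst N)

/-- (U) for the combinations of the waves -/
def WaveU (N : ℕ) (del r : ℝ) : Prop :=
  ∀ (x g0 m : ℝ) (c : ℤ → ℂ), 0 ≤ x → x < 1 → 0 < g0 → (∀ j, ‖c j‖ = g0) → 0 < m →
    ∑ j ∈ Finset.Ico (-1 : ℤ) (-1 + N), c j * E (tt del) (wj N r del x j) ≠ 0 →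
    ∑ j ∈ Finset.Ico (-1 : ℤ) (-1 + N), c j * DE (tt del) (wj N r del x j) +
      m * ∑ j ∈ Finset.Ico (-1 : ℤ) (-1 + N), c j * E (tt del) (wj N r del x j) = 0 →
    0 < ((∑ j ∈ Finset.Ico (-1 : ℤ) (-1 + N), c j * SokamBPlus.D2E (tt del) (wj N r del x j)) /
          (∑ j ∈ Finset.Ico (-1 : ℤ) (-1 + N), c j * DE (tt del) (wj N r del x j)) -
        (∑ j ∈ Finset.Ico (-1 : ℤ) (-1 + N), c j * DE (tt del) (wj N r del x j)) /
          (∑ j ∈ Finset.Ico (-1 : ℤ) (-1 + N), c j * E (tt del) (wj N r del x j))).re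

/-- `Dist` from (U) for the waves on the slightly smaller circles -/
theorem dist_of_waves {N : ℕ} (hN : 0 < N) {a : ℤ} (ha : IsCoprime a (N : ℤ)) {del r ε : ℝ} (hε : 0 < ε)
    (hr : ε ≤ r) (hq : qa (2 * Real.pi * a / N + del) ≠ 1)
    (H : ∀ r', r - ε < r' → r' < r → WaveU N del r') :
    SokamFU.Dist (2 * Real.pi * a / N + del) r := by
  obtain ⟨g0, hg0, hdec⟩ := dec N hN a ha
  refine dist_of_U hq hε fun u hu1 hu2 hF hs => ?_
  obtain ⟨s, hs0, hs⟩ := hs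
  set q := qa (2 * Real.pi * a / N + del) with hqdef
  have hupos : 0 < ‖u‖ := by linarith only [hr, hu1]
  obtain ⟨x, c, hx0, hx1, hc, hsum⟩ := hdec ‖u‖ del u hupos rfl
  obtain ⟨e1, e2, e3⟩ := hsum (-1)
  have hU := H ‖u‖ hu1 hu2 x g0 (1 / s) c hx0 hx1 hg0 hc (by positivity)
  unfold wj at hU
  rw [← e1, ← e2, ← e3] at hU
  have hsC : (s : ℂ) ≠ 0 := by exact_mod_cast hs0.ne'
  have h1 : u * SokamF.F q (q * u) + ((1 / s : ℝ) : ℂ) * SokamF.F q u = 0 := by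
    have h2 : u * SokamF.F q (q * u) + ((1 / s : ℝ) : ℂ) * SokamF.F q u =
        (1 / (s : ℂ)) * (SokamF.F q u + s * (u * SokamF.F q (q * u))) := by
      push_cast
      rw [mul_add, ← mul_assoc (1 / (s : ℂ)), one_div_mul_cancel hsC]
      ring
    rw [h2, hs, mul_zero]
  have hD : u * SokamF.F q (q * u) ≠ 0 := by
    intro h0
    rw [h0, zero_add] at h1
    rcases mul_eq_zero.mp h1 with h2 | h2
    · have : (1 / s : ℝ) = 0 := by exact_mod_cast h2
      have h3 : 0 < 1 / s := by positivity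
      linarith only [this, h3]
    · exact hF h2
  have h2 := hU hF h1
  have hu0 : u ≠ 0 := left_ne_zero_of_mul hD
  have hFq : SokamF.F q (q * u) ≠ 0 := right_ne_zero_of_mul hD
  have h3 : (u * SokamF.F q (q * u) + u * (q * u * SokamF.F q (q * (q * u)))) / (u * SokamF.F q (q * u)) =
      1 + q * u * SokamF.F q (q * (q * u)) / SokamF.F q (q * u) := by
    rw [add_div, div_self hD, mul_div_mul_left _ _ hu0]
  rw [h3] at h2
  exact h2

/-- `q' ≠ 1` -/
theorem qa_ne_one {N : ℕ} (hN : 2 ≤ N) {a : ℤ} (ha : IsCoprime a (N : ℤ)) {del r : ℝ} (hr : 40 ≤ r)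
    (hQ : (N : ℝ) ^ (2 : ℕ) * (1 + (r * del) ^ (2 : ℕ)) ≤ 7.26 * r) : qa (2 * Real.pi * a / N + del) ≠ 1 := by
  intro h
  unfold qa at h
  rw [Complex.exp_eq_one_iff] at h
  obtain ⟨n, hn⟩ := h
  have hNpos : (0 : ℝ) < N := by exact_mod_cast (by omega : 0 < N)
  have hpi := Real.pi_gt_three
  have h1 : 2 * Real.pi * a / N + del = n * (2 * Real.pi) := by
    have h2 : ((2 * Real.pi * a / N + del : ℝ) : ℂ) * I = ((n * (2 * Real.pi) : ℝ) : ℂ) * I := by
      rw [hn]; push_cast; ring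
    exact_mod_cast mul_right_cancel₀ Complex.I_ne_zero h2
  have h2 : (N : ℝ) * del = 2 * Real.pi * (n * N - a) := by
    have : del = n * (2 * Real.pi) - 2 * Real.pi * a / N := by linarith only [h1]
    rw [this]; field_simp
  have h3 : (n * N - a : ℤ) ≠ 0 := by
    intro h4
    have h5 : a = n * N := by linarith only [h4]
    rw [h5] at ha
    have h6 : IsUnit (N : ℤ) := by
      have : IsCoprime (n * (N : ℤ)) (N : ℤ) := ha
      have h7 : IsCoprime (N : ℤ) (N : ℤ) := this.of_mul_left_right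
      exact isCoprime_self.mp h7
    have h7 := Int.isUnit_iff.mp h6
    omega
  have h4 : (1 : ℝ) ≤ (((n * N - a : ℤ) : ℝ)) ^ (2 : ℕ) := by
    have h5 : 1 ≤ (n * N - a : ℤ) ^ (2 : ℕ) := by
      have := Int.one_le_abs h3
      rw [← sq_abs]; nlinarith only [this]
    exact_mod_cast h5
  push_cast at h4
  have h5 : (N : ℝ) ^ (2 : ℕ) * (r * del) ^ (2 : ℕ) = r ^ (2 : ℕ) * (2 * Real.pi * (n * N - a)) ^ (2 : ℕ) := by
    rw [← h2]; ring
  have h6 : 36 ≤ (2 * Real.pi * ((n : ℝ) * N - a)) ^ (2 : ℕ) := by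
    have : (2 * Real.pi * ((n : ℝ) * N - a)) ^ (2 : ℕ) = (2 * Real.pi) ^ (2 : ℕ) * ((n : ℝ) * N - a) ^ (2 : ℕ) := by ring
    rw [this]
    have h7 : 36 ≤ (2 * Real.pi) ^ (2 : ℕ) := by nlinarith only [hpi]
    nlinarith only [h4, h7]
  have h7 : r ^ (2 : ℕ) * 36 ≤ r ^ (2 : ℕ) * (2 * Real.pi * ((n : ℝ) * N - a)) ^ (2 : ℕ) :=
    mul_le_mul_of_nonneg_left h6 (sq_nonneg r)
  nlinarith only [hr, hQ, h5, h7]

/-- F1, one wave system: `WaveU` for all `r ≥ 499/10` with `N²(1 + (r del)²) ≤ 7.2552 r`. -/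
theorem dist_wave {N : ℕ} (hN : 2 ≤ N) {a : ℤ} (ha : IsCoprime a (N : ℤ)) {del r ρ₀ : ℝ}
    (hr : 50 ≤ r) (hdel : 0 ≤ del) (hρ : ρ₀ < r * del ∨ ρ₀ ≤ 0)
    (hQ : (N : ℝ) ^ (2 : ℕ) * (1 + (r * del) ^ (2 : ℕ)) ≤ 7.2551976 * r)
    (H : ∀ r', 499 / 10 ≤ r' → ρ₀ ≤ r' * del → (N : ℝ) ^ (2 : ℕ) * (1 + (r' * del) ^ (2 : ℕ)) ≤ 7.2552 * r' →
      WaveU N del r') :
    SokamFU.Dist (2 * Real.pi * a / N + del) r := by
  have hq := qa_ne_one hN ha (by linarith : 40 ≤ r) (hQ.trans (by linarith only [hr]))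
  -- the width
  have hex : ∃ ε, 0 < ε ∧ ε ≤ r / 10000000 ∧ ∀ r', r - ε < r' → r' < r → ρ₀ ≤ r' * del := by
    rcases hρ with hρ | hρ
    · rcases hdel.lt_or_eq with hd | hd
      · refine ⟨min (r / 10000000) ((r * del - ρ₀) / del), lt_min (by positivity)
          (div_pos (by linarith only [hρ]) hd), min_le_left _ _, fun r' h1 h2 => ?_⟩
        have h3 : r - (r * del - ρ₀) / del < r' := by
          have := min_le_right (r / 10000000) ((r * del - ρ₀) / del)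
          linarith only [h1, this]
        have h4 : (r - (r * del - ρ₀) / del) * del = ρ₀ := by field_simp; ring
        nlinarith only [hd, h3, h4]
      · refine ⟨r / 10000000, by positivity, le_rfl, fun r' h1 h2 => ?_⟩
        rw [← hd] at hρ ⊢
        linarith only [hρ]
    · refine ⟨r / 10000000, by positivity, le_rfl, fun r' h1 h2 => ?_⟩
      have : 0 ≤ r' * del := mul_nonneg (by linarith only [h1, h2]) hdel
      linarith only [hρ, this]
  obtain ⟨ε, hε, hε2, hε3⟩ := hex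
  refine dist_of_waves (by omega) ha hε (by linarith only [hε, hε2]) hq fun r' h1 h2 => ?_
  refine H r' (by linarith only [hr, hε2, h1]) (hε3 r' h1 h2) ?_
  have h3 : r * 0.9999999 ≤ r' := by linarith only [hε2, h1]
  have h4 : (r' * del) ^ (2 : ℕ) ≤ (r * del) ^ (2 : ℕ) := by
    have : r' * del ≤ r * del := mul_le_mul_of_nonneg_right h2.le hdel
    exact pow_le_pow_left₀ (mul_nonneg (by linarith only [hε2, h1, h2]) hdel) this 2
  have h5 : (N : ℝ) ^ (2 : ℕ) * (1 + (r' * del) ^ (2 : ℕ)) ≤ (N : ℝ) ^ (2 : ℕ) * (1 + (r * del) ^ (2 : ℕ)) :=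
    mul_le_mul_of_nonneg_left (by linarith only [h4]) (by positivity)
  linarith only [hQ, h2, h3, h5]

/-- **F1 from the cases.**  `ρ₀`: the bound for `N = 2`. -/
theorem dist_F1_of {ρ₀ : ℝ}
    (h1 : ∀ α r : ℝ, 0 < α → 50 ≤ r → 9 / 2 ≤ α * r → 1 + (α * r) ^ (2 : ℕ) ≤ 7.2552 * r → SokamFU.Dist α r)
    (h2 : ∀ α r : ℝ, 50 ≤ r → |α - Real.pi| * r ≤ ρ₀ → SokamFU.Dist α r)
    (hW2 : ∀ del r : ℝ, 0 ≤ del → 499 / 10 ≤ r → ρ₀ ≤ r * del → 4 * (1 + (r * del) ^ (2 : ℕ)) ≤ 7.2552 * r →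
      WaveU 2 del r)
    (hW : ∀ (N : ℕ) (del r : ℝ), 3 ≤ N → 0 ≤ del → 499 / 10 ≤ r →
      (N : ℝ) ^ (2 : ℕ) * (1 + (r * del) ^ (2 : ℕ)) ≤ 7.2552 * r → WaveU N del r) :
    ∀ α r : ℝ, 0 < α → α ≤ Real.pi → 50 ≤ r → 9 / 2 ≤ α * r → SokamFU.Dist α r := by
  intro α r hα hα2 hr hαr
  obtain ⟨N, a, hN0, hcop, hN1, hN1', ha0, hQ, -⟩ := lat1 hα hα2 (by linarith : 40 ≤ r)
  set del : ℝ := α - 2 * Real.pi * a / N with hdel
  have hαd : α = 2 * Real.pi * a / N + del := by rw [hdel]; ring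
  have hmain : ∀ (ρ1 : ℝ) (_ : 2 ≤ N)
      (_ : ∀ d : ℝ, d = |del| → ρ1 < r * d ∨ ρ1 ≤ 0)
      (_ : ∀ r', 499 / 10 ≤ r' → ρ1 ≤ r' * |del| → (N : ℝ) ^ (2 : ℕ) * (1 + (r' * |del|) ^ (2 : ℕ)) ≤ 7.2552 * r' →
        WaveU N |del| r'), SokamFU.Dist α r := by
    intro ρ1 hN2 hρ1 H
    have hQ' : (N : ℝ) ^ (2 : ℕ) * (1 + (r * |del|) ^ (2 : ℕ)) ≤ 7.2551976 * r := by
      rw [mul_pow, sq_abs, ← mul_pow]; exact hQ
    rcases le_total 0 del with hd | hd
    · rw [abs_of_nonneg hd] at hQ' H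
      rw [hαd]
      exact dist_wave hN2 hcop hr hd (by simpa [abs_of_nonneg hd] using hρ1 _ rfl) hQ' H
    · rw [abs_of_nonpos hd] at hQ' H
      have h3 : SokamFU.Dist (2 * Real.pi * (-a : ℤ) / N + -del) r :=
        dist_wave hN2 hcop.neg_left hr (by linarith only [hd]) (by simpa [abs_of_nonpos hd] using hρ1 _ rfl) hQ' H
      have h4 : 2 * Real.pi * (-a : ℤ) / N + -del = -α := by
        rw [hαd]; push_cast; ring
      rw [h4] at h3
      exact dist_neg_iff.mp h3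
  rcases (by omega : N = 1 ∨ N = 2 ∨ 3 ≤ N) with h | h | h
  · have ha : a = 0 := hN1 h
    refine h1 α r hα hr hαr ?_
    have hd : del = α := by rw [hdel, ha]; simp
    rw [hd, h] at hQ
    push_cast at hQ
    have : (r * α) ^ (2 : ℕ) = (α * r) ^ (2 : ℕ) := by ring
    linarith only [hr, hQ]
  · -- `N = 2`
    have ha1 : a = 1 := by
      have hane : a ≠ 0 := fun h0 => by have := hN1' h0; omega
      have hpi := Real.pi_gt_three
      by_contra hne
      have ha2 : 2 ≤ a := by omega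
      have ha2' : (2 : ℝ) ≤ a := by exact_mod_cast ha2
      have hd : del ≤ -3 := by
        rw [hdel, h]; push_cast
        nlinarith only [hα2, hpi, ha2']
      rw [h] at hQ
      push_cast at hQ
      have h3 : 9 ≤ del ^ (2 : ℕ) := by nlinarith only [hd]
      have h4 : r ^ (2 : ℕ) * 9 ≤ r ^ (2 : ℕ) * del ^ (2 : ℕ) := mul_le_mul_of_nonneg_left h3 (sq_nonneg r)
      nlinarith only [hQ, h4]
    by_cases hc : |α - Real.pi| * r ≤ ρ₀
    · exact h2 α r hr hc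
    · push Not at hc
      have hd : del = α - Real.pi := by
        rw [hdel, ha1, h]; push_cast; ring
      refine hmain ρ₀ (by omega) (fun d hd' => Or.inl ?_) (fun r' h3 h4 h5 => ?_)
      · rw [hd', hd]; linarith only [hc]
      · subst h
        exact hW2 _ _ (abs_nonneg _) h3 h4 (by push_cast at h5; linarith only [h5])
  · exact hmain 0 (by omega) (fun _ _ => Or.inr le_rfl) fun r' h3 _ h5 => hW N _ _ h (abs_nonneg _) h3 h5

end SokamF1

end

/-! ### Lib_MP_af4de1_f1.MainC -/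

section
namespace SokamF1
end SokamF1
namespace SokamF1S
end SokamF1S
namespace SokamPG
end SokamPG
namespace SokamU
end SokamU
/-!
# LEMMA MAIN, glue: from the three brackets to `E`, `DE`, `D²E` at the point `wp r δ (sE (r δ) y)`
-/

set_option autoImplicit false

open Complex MeasureTheory Filter Topology SokamU SokamPG SokamF1 SokamF1S

namespace SokamF1M

/-- The size of the wave, `exp(Φ) / D^(1/2)`. -/
noncomputable def sM (r δ y : ℝ) : ℝ :=
  Real.exp (sx (r * δ) y * (1 + y) / δ) / (sD2 (r * δ) y) ^ (1 / 4 : ℝ)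

/-- The modulus of the Gaussian. -/
noncomputable def sG (r δ y : ℝ) : ℝ := √(2 * Real.pi * δ / √(sD2 (r * δ) y))

theorem wp_eq_zp {r δ y : ℝ} (hδ : 0 < δ) (hD : Dom (r * δ) y) :
    wp r δ (sE (r * δ) y) = zp (-((δ : ℂ) * I)) (sK (r * δ) y / δ) := by
  rw [zp_eq hD hδ, mul_div_cancel_right₀ _ hδ.ne']
  rfl

theorem norm_one_sub' (ρ y : ℝ) : ‖1 - I * sK ρ y‖ = √(sD2 ρ y) := by
  rw [← norm_one_sub, Real.sqrt_sq (norm_nonneg _)]

theorem D2E_Ef (t z : ℂ) : SokamBPlus.D2E t z = DE t z + Ef 2 t z := by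
  unfold SokamBPlus.D2E
  congr 1
  unfold DE Ef
  have e1 : cexp (-t) * (cexp (-t) * z) = cexp (-(t * ((2 : ℕ) : ℂ))) * z := by
    rw [← mul_assoc, ← Complex.exp_add]
    congr 2
    push_cast
    ring
  have e2 : cexp (-(t * (((2 : ℕ) : ℂ) * (((2 : ℕ) : ℂ) - 1) / 2))) = cexp (-t) := by
    congr 1
    push_cast
    ring
  rw [e1, e2]
  ring

theorem sG_pos {r δ y : ℝ} (hδ : 0 < δ) (hy : -1 < y) : 0 < sG r δ y := by
  unfold sG
  have := sD2_pos (ρ := r * δ) hy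
  have := Real.pi_pos
  positivity

theorem sM_pos {r δ y : ℝ} (hy : -1 < y) : 0 < sM r δ y := by
  unfold sM
  have := sD2_pos (ρ := r * δ) hy
  positivity

theorem sM_sG {r δ y : ℝ} (hδ : 0 < δ) (hy : -1 < y) :
    Real.exp (sx (r * δ) y * (1 + y) / δ) / √(2 * Real.pi * δ) = sM r δ y / sG r δ y := by
  have h1 := sD2_pos (ρ := r * δ) hy
  have h2 : 0 < 2 * Real.pi * δ := by have := Real.pi_pos; positivity
  have h3 : √(√(sD2 (r * δ) y)) = (sD2 (r * δ) y) ^ (1 / 4 : ℝ) := by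
    rw [Real.sqrt_eq_rpow, Real.sqrt_eq_rpow, ← Real.rpow_mul h1.le]
    norm_num
  unfold sM sG
  rw [Real.sqrt_div h2.le, h3]
  have h4 : 0 < √(2 * Real.pi * δ) := Real.sqrt_pos.2 h2
  have h5 : 0 < (sD2 (r * δ) y) ^ (1 / 4 : ℝ) := Real.rpow_pos_of_pos h1 _
  field_simp

end SokamF1M

end

/-! ### Lib_MP_af4de1_fu.TipTop -/

section
namespace SokamF
end SokamF
/-!
# The tip: topological step

The zeros `w` (`z = w e^(iδ/2)/(iδ)`) with `|w| ≤ 1` lie in the image of the sector window for all `0 < δ ≤ δ₂`.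
-/

set_option autoImplicit false

namespace SokamFU

open Filter Topology Set SokamF

/-- left saddle -/
noncomputable def hL (p : ℂ) : ℂ := p / (Complex.exp p - 1)

/-- right saddle -/
noncomputable def hR (p : ℂ) : ℂ := p / (1 - Complex.exp (-p))

/-- the point `w` with the saddles `hL p`, `hR p` -/
noncomputable def wmap (p : ℂ) : ℂ := hL p * Complex.exp (-hL p)

/-- `B(p) = p ((p/2) coth(p/2) - 1)` -/
noncomputable def Bp (p : ℂ) : ℂ := p * ((hL p + hR p) / 2 - 1)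

/-- `z` from `w` -/
noncomputable def zmap (δ : ℝ) (w : ℂ) : ℂ := w * Complex.exp (Complex.I * δ / 2) / (Complex.I * δ)

/-- `w` from `z` -/
noncomputable def wz (δ : ℝ) (z : ℂ) : ℂ := z * (Complex.I * δ) * Complex.exp (-(Complex.I * δ / 2))

/-- `w` is a zero with `|w| ≤ 1` -/
def Zr (δ : ℝ) (w : ℂ) : Prop := 0 < ‖w‖ ∧ ‖w‖ ≤ 1 ∧ F (qa δ) (zmap δ w) = 0

/-- the sector `v (k + i)`, `k₁ ≤ k ≤ k₂`, `0 < v ≤ V` -/
def Dk (k₁ k₂ V : ℝ) : Set ℂ := {p | 0 < p.im ∧ p.im ≤ V ∧ k₁ * p.im ≤ p.re ∧ p.re ≤ k₂ * p.im}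

/-- the window -/
def Pset (k₁ k₂ V δ : ℝ) : Set ℂ := {p | p ∈ Dk k₁ k₂ V ∧ (Bp p).re ≤ -(Real.pi * δ) ∧ ‖wmap p‖ ≤ 1}

theorem hR_eq (p : ℂ) : hR p = hL (-p) := by
  unfold hR hL
  rw [← neg_div_neg_eq, neg_sub]

theorem zmap_wz {δ : ℝ} (hδ : δ ≠ 0) (z : ℂ) : zmap δ (wz δ z) = z := by
  unfold zmap wz
  have h1 : (δ : ℂ) ≠ 0 := Complex.ofReal_ne_zero.2 hδ
  have h2 : z * (Complex.I * δ) * Complex.exp (-(Complex.I * δ / 2)) * Complex.exp (Complex.I * δ / 2) =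
      z * (Complex.I * δ) := by
    rw [mul_assoc, ← Complex.exp_add, neg_add_cancel, Complex.exp_zero, mul_one]
  rw [h2, mul_div_assoc, div_self (mul_ne_zero Complex.I_ne_zero h1), mul_one]

theorem wz_zmap {δ : ℝ} (hδ : δ ≠ 0) (w : ℂ) : wz δ (zmap δ w) = w := by
  unfold zmap wz
  have h1 : (δ : ℂ) ≠ 0 := Complex.ofReal_ne_zero.2 hδ
  rw [div_mul_cancel₀ _ (mul_ne_zero Complex.I_ne_zero h1), mul_assoc, ← Complex.exp_add, add_neg_cancel,
    Complex.exp_zero, mul_one]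

theorem continuousAt_zmap {δ : ℝ} (hδ : δ ≠ 0) (w : ℂ) :
    ContinuousAt (fun x : ℝ × ℂ => zmap x.1 x.2) (δ, w) := by
  unfold zmap
  have h1 : (Complex.I * (δ : ℂ)) ≠ 0 := mul_ne_zero Complex.I_ne_zero (Complex.ofReal_ne_zero.2 hδ)
  refine ContinuousAt.div ?_ ?_ h1
  · fun_prop
  · fun_prop

theorem continuous_wz : Continuous (fun x : ℝ × ℂ => wz x.1 x.2) := by
  unfold wz
  fun_prop

/-! ### The maps near a point -/

theorem exp_ne_one {p : ℂ} (hp : p.re ≠ 0) : Complex.exp p - 1 ≠ 0 := by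
  intro h
  have h1 : ‖Complex.exp p‖ = 1 := by rw [sub_eq_zero.1 h, norm_one]
  rw [Complex.norm_exp, Real.exp_eq_one_iff] at h1
  exact hp h1

theorem continuousAt_hL {p : ℂ} (hp : p.re ≠ 0) : ContinuousAt hL p := by
  unfold hL
  refine ContinuousAt.div continuousAt_id ?_ (exp_ne_one hp)
  fun_prop

theorem continuousAt_hR {p : ℂ} (hp : p.re ≠ 0) : ContinuousAt hR p := by
  have : hR = fun p => hL (-p) := funext hR_eq
  rw [this]
  exact ContinuousAt.comp (g := hL) (f := fun p : ℂ => -p) (continuousAt_hL (by simpa using hp)) continuousAt_neg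

theorem continuousAt_wmap {p : ℂ} (hp : p.re ≠ 0) : ContinuousAt wmap p := by
  unfold wmap
  have := continuousAt_hL hp
  exact this.mul (Complex.continuous_exp.continuousAt.comp this.neg)

theorem continuousAt_Bp {p : ℂ} (hp : p.re ≠ 0) : ContinuousAt Bp p := by
  unfold Bp
  have h1 := continuousAt_hL hp
  have h2 := continuousAt_hR hp
  exact continuousAt_id.mul (((h1.add h2).div_const 2).sub continuousAt_const)

theorem tendsto_hL_zero : Tendsto hL (𝓝[≠] 0) (𝓝 1) := by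
  have h1 := (Complex.hasDerivAt_exp 0).tendsto_slope
  rw [Complex.exp_zero] at h1
  have h2 := h1.inv₀ one_ne_zero
  rw [inv_one] at h2
  refine h2.congr fun p => ?_
  rw [slope_def_field, Complex.exp_zero, sub_zero, inv_div]
  rfl

theorem tendsto_hR_zero : Tendsto hR (𝓝[≠] 0) (𝓝 1) := by
  have : hR = hL ∘ fun p => -p := funext hR_eq
  rw [this]
  refine tendsto_hL_zero.comp ?_
  refine tendsto_nhdsWithin_iff.2 ⟨?_, ?_⟩
  · have : Tendsto (fun p : ℂ => -p) (𝓝 0) (𝓝 0) := by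
      simpa using (continuous_neg.tendsto (0 : ℂ))
    exact this.mono_left nhdsWithin_le_nhds
  · filter_upwards [self_mem_nhdsWithin] with p hp
    simpa using hp

theorem tendsto_Bp_zero : Tendsto Bp (𝓝[≠] 0) (𝓝 0) := by
  unfold Bp
  have h1 : Tendsto (fun p : ℂ => p) (𝓝[≠] 0) (𝓝 0) := tendsto_id.mono_left nhdsWithin_le_nhds
  have h2 := h1.mul (((tendsto_hL_zero.add tendsto_hR_zero).div_const 2).sub_const 1)
  simpa using h2

theorem analytic_wmap : AnalyticOnNhd ℂ wmap {p | 0 < p.re} := by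
  refine DifferentiableOn.analyticOnNhd ?_ (isOpen_lt continuous_const Complex.continuous_re)
  have h1 : DifferentiableOn ℂ hL {p | 0 < p.re} := by
    intro p hp
    unfold hL
    have h2 : DifferentiableAt ℂ (fun p => Complex.exp p - 1) p := by fun_prop
    exact (differentiableAt_fun_id.fun_div h2 (exp_ne_one (ne_of_gt hp))).differentiableWithinAt
  unfold wmap
  exact h1.mul (h1.neg.cexp)

theorem wmap_open {s : Set ℂ} (hs : s ⊆ {p | 0 < p.re}) (ho : IsOpen s) : IsOpen (wmap '' s) := by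
  have hpre : IsPreconnected {p : ℂ | 0 < p.re} := (convex_halfSpace_re_gt 0).isPreconnected
  rcases analytic_wmap.is_constant_or_isOpen hpre with ⟨c, hc⟩ | h
  · exfalso
    -- values at `log 2` and `2 log 2`
    have hl : 0 < Real.log 2 := Real.log_pos one_lt_two
    have e1 : Complex.exp ((Real.log 2 : ℝ) : ℂ) = 2 := by
      rw [← Complex.ofReal_exp, Real.exp_log two_pos]
      norm_num
    have e2 : Complex.exp ((2 * Real.log 2 : ℝ) : ℂ) = 4 := by
      have : Real.exp (2 * Real.log 2) = 4 := by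
        rw [two_mul, Real.exp_add, Real.exp_log two_pos]
        norm_num
      rw [← Complex.ofReal_exp, this]
      norm_num
    have h1 := hc ((Real.log 2 : ℝ) : ℂ) (by
      change 0 < ((Real.log 2 : ℝ) : ℂ).re
      rw [Complex.ofReal_re]
      exact hl)
    have h2 := hc ((2 * Real.log 2 : ℝ) : ℂ) (by
      change 0 < ((2 * Real.log 2 : ℝ) : ℂ).re
      rw [Complex.ofReal_re]
      positivity)
    rw [← h2] at h1
    unfold wmap hL at h1
    rw [e1, e2] at h1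
    have e3 : ((Real.log 2 : ℝ) : ℂ) / (2 - 1) = ((Real.log 2 : ℝ) : ℂ) := by norm_num
    have e4 : ((2 * Real.log 2 : ℝ) : ℂ) / (4 - 1) = ((2 / 3 * Real.log 2 : ℝ) : ℂ) := by
      push_cast
      ring
    rw [e3, e4] at h1
    have h3 : Real.log 2 * Real.exp (-Real.log 2) = 2 / 3 * Real.log 2 * Real.exp (-(2 / 3 * Real.log 2)) := by
      have := congrArg Complex.re h1
      rw [← Complex.ofReal_neg, ← Complex.ofReal_neg, ← Complex.ofReal_exp, ← Complex.ofReal_exp,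
        ← Complex.ofReal_mul, ← Complex.ofReal_mul, Complex.ofReal_re, Complex.ofReal_re] at this
      exact this
    have h4 : Real.exp (-Real.log 2) = 2 / 3 * Real.exp (-(2 / 3 * Real.log 2)) := by
      have h5 : Real.log 2 * Real.exp (-Real.log 2) = Real.log 2 * (2 / 3 * Real.exp (-(2 / 3 * Real.log 2))) := by
        rw [h3]; ring
      exact mul_left_cancel₀ hl.ne' h5
    have h6 : Real.exp (-Real.log 2) = 1 / 2 := by
      rw [Real.exp_neg, Real.exp_log two_pos]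
      norm_num
    have h7 : Real.exp (-(2 / 3 * Real.log 2)) ^ (3 : ℕ) = 1 / 4 := by
      rw [← Real.exp_nat_mul]
      have : ((3 : ℕ) : ℝ) * -(2 / 3 * Real.log 2) = -(2 * Real.log 2) := by push_cast; ring
      rw [this, Real.exp_neg, two_mul, Real.exp_add, Real.exp_log two_pos]
      norm_num
    rw [h6] at h4
    have h8 : Real.exp (-(2 / 3 * Real.log 2)) = 3 / 4 := by linarith
    rw [h8] at h7
    norm_num at h7
  · exact h s hs ho

/-! ### The step -/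

theorem Zr_limit {δn : ℕ → ℝ} {δ : ℝ} (hδ : 0 < δ) (hlim : Tendsto δn atTop (𝓝 δ)) {w : ℕ → ℂ} {g : ℂ}
    (hg : Tendsto w atTop (𝓝 g)) (hw : ∀ n, Zr (δn n) (w n)) : Zr δ g := by
  have h0 : F (qa δ) (zmap δ g) = 0 := by
    have hA : Tendsto (fun x : ℝ × ℂ => zmap x.1 x.2) (𝓝 (δ, g)) (𝓝 (zmap δ g)) := continuousAt_zmap hδ.ne' g
    have hB : Tendsto (fun n => (δn n, w n)) atTop (𝓝 (δ, g)) := hlim.prodMk_nhds hg
    have h1 := hA.comp hB
    simp only [Function.comp_def] at h1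
    exact tendsto_zero (wn := fun n => zmap (δn n) (w n)) hlim h1 fun n => (hw n).2.2
  refine ⟨?_, le_of_tendsto hg.norm (.of_forall fun n => (hw n).2.1), h0⟩
  rw [norm_pos_iff]
  intro h
  rw [h] at h0
  have : zmap δ 0 = 0 := by unfold zmap; simp
  rw [this, F_zero] at h0
  exact one_ne_zero h0

theorem Dk_re_pos {k₁ k₂ V : ℝ} (hk : 0 < k₁) {p : ℂ} (hp : p ∈ Dk k₁ k₂ V) : 0 < p.re :=
  (mul_pos hk hp.1).trans_le hp.2.2.1

theorem Pset_limit {k₁ k₂ V : ℝ} (hk : 0 < k₁) (hk₂ : 0 ≤ k₂) {δn : ℕ → ℝ} {δ : ℝ} (hδ : 0 < δ)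
    (hlim : Tendsto δn atTop (𝓝 δ))
    {p : ℕ → ℂ} (hp : ∀ n, p n ∈ Pset k₁ k₂ V (δn n)) :
    ∃ g ∈ Pset k₁ k₂ V δ, ∃ φ : ℕ → ℕ, StrictMono φ ∧ Tendsto (p ∘ φ) atTop (𝓝 g) := by
  obtain ⟨g, -, φ, hφ, hg⟩ := (isCompact_closedBall (0 : ℂ) (k₂ * V + V)).tendsto_subseq
    (x := p) (fun n => by
      rw [mem_closedBall_zero_iff]
      obtain ⟨⟨h1, h2, h3, h4⟩, -, -⟩ := hp n
      have h5 := Complex.norm_le_abs_re_add_abs_im (p n)
      have h6 : 0 ≤ (p n).re := (mul_nonneg hk.le h1.le).trans h3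
      rw [abs_of_nonneg h6, abs_of_pos h1] at h5
      nlinarith)
  have hre : Tendsto (fun n => (p (φ n)).re) atTop (𝓝 g.re) := (Complex.continuous_re.tendsto g).comp hg
  have him : Tendsto (fun n => (p (φ n)).im) atTop (𝓝 g.im) := (Complex.continuous_im.tendsto g).comp hg
  have i0 : 0 ≤ g.im := ge_of_tendsto him (.of_forall fun n => (hp (φ n)).1.1.le)
  have i1 : g.im ≤ V := le_of_tendsto him (.of_forall fun n => (hp (φ n)).1.2.1)
  have i2 : k₁ * g.im ≤ g.re := le_of_tendsto_of_tendsto (him.const_mul k₁) hre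
    (.of_forall fun n => (hp (φ n)).1.2.2.1)
  have i3 : g.re ≤ k₂ * g.im := le_of_tendsto_of_tendsto hre (him.const_mul k₂)
    (.of_forall fun n => (hp (φ n)).1.2.2.2)
  have hδφ : Tendsto (fun n => δn (φ n)) atTop (𝓝 δ) := hlim.comp hφ.tendsto_atTop
  have i4 : 0 < g.im := by
    rcases i0.lt_or_eq with h | h
    · exact h
    · exfalso
      have hg0 : g = 0 := by
        apply Complex.ext
        · rw [Complex.zero_re]
          rw [← h] at i2 i3
          linarith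
        · rw [Complex.zero_im]; exact h.symm
      rw [hg0] at hg
      have h1 : Tendsto (fun n => Bp (p (φ n))) atTop (𝓝 0) := by
        refine tendsto_Bp_zero.comp (tendsto_nhdsWithin_iff.2 ⟨hg, .of_forall fun n => ?_⟩)
        intro h2
        have h3 := (hp (φ n)).1.1
        change p (φ n) = 0 at h2
        rw [h2, Complex.zero_im] at h3
        exact lt_irrefl _ h3
      have h2 : Tendsto (fun n => (Bp (p (φ n))).re) atTop (𝓝 0) := by
        have := (Complex.continuous_re.tendsto 0).comp h1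
        rwa [Complex.zero_re] at this
      have h3 : (0 : ℝ) ≤ -(Real.pi * δ) :=
        le_of_tendsto_of_tendsto h2 (hδφ.const_mul Real.pi).neg (.of_forall fun n => (hp (φ n)).2.1)
      have := Real.pi_pos
      nlinarith [mul_pos this hδ]
  have hgre : g.re ≠ 0 := ((mul_pos hk i4).trans_le i2).ne'
  refine ⟨g, ⟨⟨i4, i1, i2, i3⟩, ?_, ?_⟩, φ, hφ, hg⟩
  · have h1 : Tendsto (fun n => (Bp (p (φ n))).re) atTop (𝓝 (Bp g).re) :=
      (Complex.continuous_re.tendsto _).comp ((continuousAt_Bp hgre).tendsto.comp hg)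
    exact le_of_tendsto_of_tendsto h1 (hδφ.const_mul Real.pi).neg (.of_forall fun n => (hp (φ n)).2.1)
  · have h1 : Tendsto (fun n => ‖wmap (p (φ n))‖) atTop (𝓝 ‖wmap g‖) :=
      ((continuousAt_wmap hgre).tendsto.comp hg).norm
    exact le_of_tendsto h1 (.of_forall fun n => (hp (φ n)).2.2)

end SokamFU

end

/-! ### Lib_MP_af4de1_fu.TipDer -/

section
namespace SokamF
end SokamF
/-!
# The tip: derivatives of the saddle maps

`G = (1 - h_L)(1 - h_R)`, `d log w / dp = G / p`, `dB/dp = -G`.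
-/

set_option autoImplicit false

namespace SokamFU

open Filter Topology Set SokamF

/-- `G = (1 - h_L)(1 - h_R)` -/
noncomputable def Gp (p : ℂ) : ℂ := (1 - hL p) * (1 - hR p)

/-- `ψ = Im h_R - arg h_R`, so that `w = |w| e^(-iψ)` -/
noncomputable def psiP (p : ℂ) : ℝ := (hR p).im - (hR p).arg

theorem ne_zero_of_re {p : ℂ} (hp : p.re ≠ 0) : p ≠ 0 := fun h => hp (by rw [h]; rfl)

theorem hR_eq_exp {p : ℂ} (hp : p.re ≠ 0) : hR p = p * Complex.exp p / (Complex.exp p - 1) := by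
  unfold hR
  have h1 := exp_ne_one hp
  have h2 : Complex.exp p ≠ 0 := Complex.exp_ne_zero p
  have h3 : 1 - Complex.exp (-p) = (Complex.exp p - 1) / Complex.exp p := by
    rw [Complex.exp_neg]
    field_simp
  rw [h3]
  field_simp

theorem hR_eq_add {p : ℂ} (hp : p.re ≠ 0) : hR p = hL p + p := by
  rw [hR_eq_exp hp]
  unfold hL
  have h1 := exp_ne_one hp
  field_simp
  ring

theorem hL_ne_zero {p : ℂ} (hp : p.re ≠ 0) : hL p ≠ 0 := div_ne_zero (ne_zero_of_re hp) (exp_ne_one hp)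

theorem hR_eq_mul {p : ℂ} (hp : p.re ≠ 0) : hR p = hL p * Complex.exp p := by
  rw [hR_eq_exp hp]
  unfold hL
  ring

theorem hR_ne_zero {p : ℂ} (hp : p.re ≠ 0) : hR p ≠ 0 := by
  rw [hR_eq_mul hp]
  exact mul_ne_zero (hL_ne_zero hp) (Complex.exp_ne_zero p)

/-- `w` from the right saddle -/
theorem wmap_eq_hR {p : ℂ} (hp : p.re ≠ 0) : wmap p = hR p * Complex.exp (-hR p) := by
  unfold wmap
  rw [hR_eq_mul hp]
  have h2 : hL p * Complex.exp p * Complex.exp (-(hL p * Complex.exp p)) =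
      hL p * (Complex.exp p * Complex.exp (-(hL p * Complex.exp p))) := by ring
  rw [h2, ← Complex.exp_add, ← hR_eq_mul hp, hR_eq_add hp]
  congr 2
  ring

theorem wmap_ne_zero {p : ℂ} (hp : p.re ≠ 0) : wmap p ≠ 0 :=
  mul_ne_zero (hL_ne_zero hp) (Complex.exp_ne_zero _)

/-- `w = |w| e^(-iψ)` -/
theorem wmap_eq_psi {p : ℂ} (hp : p.re ≠ 0) :
    wmap p = (‖wmap p‖ : ℂ) * Complex.exp (-(Complex.I * (psiP p : ℂ))) := by
  rw [wmap_eq_hR hp]
  set h := hR p with hh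
  have h1 : h = (‖h‖ : ℂ) * Complex.exp ((h.arg : ℂ) * Complex.I) := (Complex.norm_mul_exp_arg_mul_I h).symm
  have h2 : ‖h * Complex.exp (-h)‖ = ‖h‖ * Real.exp (-h.re) := by
    rw [norm_mul, Complex.norm_exp, Complex.neg_re]
  rw [h2]
  have h3 : Complex.exp (-h) = (Real.exp (-h.re) : ℂ) * Complex.exp (-((h.im : ℂ) * Complex.I)) := by
    rw [Complex.ofReal_exp, ← Complex.exp_add]
    congr 1
    conv_lhs => rw [← Complex.re_add_im h]
    push_cast
    ring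
  have h4 : psiP p = h.im - h.arg := rfl
  conv_lhs => rw [h3]; lhs; rw [h1]
  rw [h4]
  have h5 : Complex.exp (-(Complex.I * ((h.im - h.arg : ℝ) : ℂ))) =
      Complex.exp ((h.arg : ℂ) * Complex.I) * Complex.exp (-((h.im : ℂ) * Complex.I)) := by
    rw [← Complex.exp_add]
    congr 1
    push_cast
    ring
  rw [h5]
  push_cast
  ring

theorem hasDerivAt_hL {p : ℂ} (hp : p.re ≠ 0) : HasDerivAt hL (hL p * (1 - hR p) / p) p := by
  have h1 := exp_ne_one hp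
  have hp0 := ne_zero_of_re hp
  have h2 : HasDerivAt (fun p : ℂ => Complex.exp p - 1) (Complex.exp p) p :=
    (Complex.hasDerivAt_exp p).sub_const 1
  have h3 := (hasDerivAt_id p).fun_div h2 h1
  have e : hL p * (1 - hR p) / p = (1 * (Complex.exp p - 1) - id p * Complex.exp p) / (Complex.exp p - 1) ^ (2 : ℕ) := by
    rw [hR_eq_exp hp]
    unfold hL
    simp only [id]
    field_simp
  rw [e]
  exact h3

theorem hasDerivAt_hR {p : ℂ} (hp : p.re ≠ 0) : HasDerivAt hR (hR p * (1 - hL p) / p) p := by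
  have h1 := exp_ne_one hp
  have hp0 := ne_zero_of_re hp
  have h2 : (fun x => hL x + x) =ᶠ[𝓝 p] hR := by
    have : ∀ᶠ x : ℂ in 𝓝 p, x.re ≠ 0 := Complex.continuous_re.continuousAt.eventually_ne hp
    filter_upwards [this] with x hx
    exact (hR_eq_add hx).symm
  have h3 : HasDerivAt (fun x => hL x + x) (hL p * (1 - hR p) / p + 1) p := (hasDerivAt_hL hp).add (hasDerivAt_id p)
  have e : hR p * (1 - hL p) / p = hL p * (1 - hR p) / p + 1 := by
    rw [hR_eq_add hp]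
    field_simp
    ring
  rw [e]
  exact h3.congr_of_eventuallyEq h2.symm

theorem hasDerivAt_wmap {p : ℂ} (hp : p.re ≠ 0) : HasDerivAt wmap (wmap p * Gp p / p) p := by
  have h1 := hasDerivAt_hL hp
  have h2 := h1.mul (h1.fun_neg.cexp)
  have e : wmap p * Gp p / p = hL p * (1 - hR p) / p * Complex.exp (-hL p) +
      hL p * (Complex.exp (-hL p) * -(hL p * (1 - hR p) / p)) := by
    unfold wmap Gp
    ring
  rw [e]
  exact h2

theorem hasDerivAt_Bp {p : ℂ} (hp : p.re ≠ 0) : HasDerivAt Bp (-Gp p) p := by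
  have h1 := hasDerivAt_hL hp
  have h2 := hasDerivAt_hR hp
  have hp0 := ne_zero_of_re hp
  have h3 := (hasDerivAt_id p).mul (((h1.add h2).div_const 2).sub_const 1)
  have e : -Gp p = 1 * ((hL p + hR p) / 2 - 1) + id p * ((hL p * (1 - hR p) / p + hR p * (1 - hL p) / p) / 2) := by
    unfold Gp
    simp only [id]
    field_simp
    ring
  rw [e]
  exact h3

/-- real derivative of `log |w|` along a line -/
theorem hasDerivAt_log_wmap {γ : ℝ → ℂ} {γ' : ℂ} {t : ℝ} (hγ : HasDerivAt γ γ' t) (hp : (γ t).re ≠ 0) :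
    HasDerivAt (fun s => Real.log ‖wmap (γ s)‖) (Gp (γ t) / γ t * γ').re t := by
  have h1 : HasDerivAt (fun s => wmap (γ s)) (wmap (γ t) * Gp (γ t) / γ t * γ') t :=
    (hasDerivAt_wmap hp).comp_of_eq t hγ rfl
  have hw : wmap (γ t) ≠ 0 := wmap_ne_zero hp
  have h2 := h1.norm_sq
  have hpos : 0 < ‖wmap (γ t)‖ := norm_pos_iff.2 hw
  have h3 := (h2.log (by positivity)).const_mul (1 / 2)
  have e1 : (fun s => 1 / 2 * Real.log (‖wmap (γ s)‖ ^ (2 : ℕ))) = fun s => Real.log ‖wmap (γ s)‖ := by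
    funext s
    rw [Real.log_pow]
    push_cast
    ring
  have e2 : 1 / 2 * (2 * inner ℝ (wmap (γ t)) (wmap (γ t) * Gp (γ t) / γ t * γ') / ‖wmap (γ t)‖ ^ (2 : ℕ)) =
      (Gp (γ t) / γ t * γ').re := by
    have e3 : inner ℝ (wmap (γ t)) (wmap (γ t) * Gp (γ t) / γ t * γ') =
        ‖wmap (γ t)‖ ^ (2 : ℕ) * (Gp (γ t) / γ t * γ').re := by
      rw [Complex.inner, ← Complex.normSq_eq_norm_sq]
      have : (wmap (γ t) * Gp (γ t) / γ t * γ') * (starRingEnd ℂ) (wmap (γ t)) =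
          (Complex.normSq (wmap (γ t)) : ℂ) * (Gp (γ t) / γ t * γ') := by
        rw [← Complex.mul_conj]
        ring
      rw [this, Complex.re_ofReal_mul]
    rw [e3]
    field_simp
  rw [e1, e2] at h3
  exact h3

theorem hasDerivAt_Bp_re {γ : ℝ → ℂ} {γ' : ℂ} {t : ℝ} (hγ : HasDerivAt γ γ' t) (hp : (γ t).re ≠ 0) :
    HasDerivAt (fun s => (Bp (γ s)).re) (-(Gp (γ t) * γ').re) t := by
  have h1 : HasDerivAt (fun s => Bp (γ s)) (-Gp (γ t) * γ') t := (hasDerivAt_Bp hp).comp_of_eq t hγ rfl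
  have h2 := (Complex.reCLM.hasFDerivAt (x := Bp (γ t))).comp_hasDerivAt t h1
  have e : Complex.reCLM (-Gp (γ t) * γ') = -(Gp (γ t) * γ').re := by
    rw [Complex.reCLM_apply, neg_mul, Complex.neg_re]
  rw [e] at h2
  exact h2

theorem continuousAt_psiP {p : ℂ} (hp : p.re ≠ 0) (hR0 : 0 < (hR p).re) : ContinuousAt psiP p := by
  unfold psiP
  have h1 := continuousAt_hR hp
  exact (Complex.continuous_im.continuousAt.comp h1).sub
    (ContinuousAt.comp (g := Complex.arg) (Complex.continuousAt_arg (Or.inl hR0)) h1)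

end SokamFU

end

/-! ### Lib_MP_af4de1_ti.Link -/

section
namespace SokamF
end SokamF
namespace SokamFU
end SokamFU
/-!
# The tip: the two waves

`RepData`: what is needed from the representation `F = L + R` (helper18's MRep): the saddle integrals at
`g = h - iψ`, `h e^{-h} = ρ e^{-iψ}`, are `kk(g) JL`, `kk(g) JR`.
-/

set_option autoImplicit false

namespace SokamTI

open Complex SokamFU SokamF

/-- the value of the integrand at the saddle point `g = h - iψ`: `exp((i/δ)(h²/2 - h + ψ²/2))` -/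
noncomputable def kS (δ ψ : ℝ) (h : ℂ) : ℂ := cexp (I / δ * (h ^ (2 : ℕ) / 2 - h + ψ ^ (2 : ℕ) / 2))

/-- the representation -/
structure RepData (L R L1 R1 : ℝ → ℝ → ℝ → ℂ) : Prop where
  rep : ∀ δ ρ : ℝ, 0 < δ → 0 < ρ → ∃ c : ℂ, c ≠ 0 ∧ ∀ ψ : ℝ,
    c * cexp (I * (ψ : ℂ) ^ (2 : ℕ) / (2 * δ)) * F (qa δ) (zmap δ (ρ * cexp (-(I * ψ)))) = L δ ρ ψ + R δ ρ ψ
  dL : ∀ δ ρ ψ : ℝ, 0 < δ → 0 < ρ → HasDerivAt (L δ ρ) (-(L1 δ ρ ψ) / δ) ψ
  dR : ∀ δ ρ ψ : ℝ, 0 < δ → 0 < ρ → HasDerivAt (R δ ρ) (-(R1 δ ρ ψ) / δ) ψ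
  /-- the left saddle: `-π < Im g < 0`, `Im h < 0` -/
  linkL : ∀ (δ ρ ψ : ℝ) (h : ℂ), 0 < δ → 0 < ρ → h * cexp (-h) = ρ * cexp (-(I * ψ)) → h.im < 0 →
    -Real.pi < h.im - ψ → h.im - ψ < 0 →
    L δ ρ ψ = kS δ ψ h * JL δ h ∧
    L1 δ ρ ψ = kS δ ψ h * ((h - I * ψ) * JL δ h + JL1 δ h)
  /-- the right saddle: `Im g = arg h > 0` -/
  linkR : ∀ (δ ρ ψ : ℝ) (h : ℂ), 0 < δ → 0 < ρ → h * cexp (-h) = ρ * cexp (-(I * ψ)) → 0 < h.im →
    0 < h.re → h.im - ψ = h.arg →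
    R δ ρ ψ = kS δ ψ h * JR δ h ∧
    R1 δ ρ ψ = kS δ ψ h * ((h - I * ψ) * JR δ h + JR1 δ h)

variable {L R L1 R1 : ℝ → ℝ → ℝ → ℂ}

/-- the real function whose zeros contain the zeros of `F` -/
noncomputable def Gf (L R : ℝ → ℝ → ℝ → ℂ) (δ ρ ψ : ℝ) : ℝ := Real.log ‖L δ ρ ψ‖ - Real.log ‖R δ ρ ψ‖

theorem hasDerivAt_log_norm {f : ℝ → ℂ} {f' : ℂ} {t : ℝ} (hf : HasDerivAt f f' t) (h0 : f t ≠ 0) :
    HasDerivAt (fun s => Real.log ‖f s‖) (f' / f t).re t := by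
  have h1 := hf.norm_sq
  have hn : 0 < ‖f t‖ := norm_pos_iff.mpr h0
  have h2 := (h1.log (by positivity)).div_const 2
  have h3 : (fun s => Real.log (‖f s‖ ^ (2 : ℕ)) / 2) = fun s => Real.log ‖f s‖ := by
    funext s
    rw [Real.log_pow]
    push_cast
    ring
  rw [h3] at h2
  have h4 : 2 * inner ℝ (f t) f' / ‖f t‖ ^ (2 : ℕ) / 2 = (f' / f t).re := by
    have h5 : f' / f t = (((‖f t‖ ^ (2 : ℕ))⁻¹ : ℝ) : ℂ) * ((starRingEnd ℂ) (f t) * f') := by
      rw [div_eq_mul_inv, Complex.inv_def, Complex.normSq_eq_norm_sq]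
      push_cast
      ring
    rw [h5, Complex.re_ofReal_mul, Complex.inner]
    have h6 : (((starRingEnd ℂ) (f t) * f').re) = ((f' * (starRingEnd ℂ) (f t)).re) := by
      rw [mul_comm]
    first
      | (field_simp)
      | (rw [h6]; field_simp)
  rw [h4] at h2
  exact h2

theorem hasDerivAt_Gf (hD : RepData L R L1 R1) {δ ρ ψ : ℝ} (hδ : 0 < δ) (hρ : 0 < ρ)
    (hL0 : L δ ρ ψ ≠ 0) (hR0 : R δ ρ ψ ≠ 0) :
    HasDerivAt (Gf L R δ ρ) (((R1 δ ρ ψ / R δ ρ ψ).re - (L1 δ ρ ψ / L δ ρ ψ).re) / δ) ψ := by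
  have h1 := hasDerivAt_log_norm (hD.dL δ ρ ψ hδ hρ) hL0
  have h2 := hasDerivAt_log_norm (hD.dR δ ρ ψ hδ hρ) hR0
  have h3 := h1.sub h2
  have h4 : (-(L1 δ ρ ψ) / δ / L δ ρ ψ).re - (-(R1 δ ρ ψ) / δ / R δ ρ ψ).re =
      ((R1 δ ρ ψ / R δ ρ ψ).re - (L1 δ ρ ψ / L δ ρ ψ).re) / δ := by
    have e1 : -(L1 δ ρ ψ) / δ / L δ ρ ψ = ((-δ⁻¹ : ℝ) : ℂ) * (L1 δ ρ ψ / L δ ρ ψ) := by
      push_cast; ring
    have e2 : -(R1 δ ρ ψ) / δ / R δ ρ ψ = ((-δ⁻¹ : ℝ) : ℂ) * (R1 δ ρ ψ / R δ ρ ψ) := by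
      push_cast; ring
    rw [e1, e2, Complex.re_ofReal_mul, Complex.re_ofReal_mul]
    ring
  rw [h4] at h3
  exact h3

theorem kS_ne_zero (δ ψ : ℝ) (h : ℂ) : kS δ ψ h ≠ 0 := Complex.exp_ne_zero _

/-- a zero of `F` gives `L = -R` -/
theorem zero_iff (hD : RepData L R L1 R1) {δ ρ ψ : ℝ} (hδ : 0 < δ) (hρ : 0 < ρ) :
    F (qa δ) (zmap δ (ρ * cexp (-(I * ψ)))) = 0 ↔ L δ ρ ψ + R δ ρ ψ = 0 := by
  obtain ⟨c, hc, h⟩ := hD.rep δ ρ hδ hρ
  rw [← h ψ]
  constructor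
  · intro h0; rw [h0, mul_zero]
  · intro h0
    rcases mul_eq_zero.mp h0 with h1 | h1
    · exact (mul_ne_zero hc (Complex.exp_ne_zero _) h1).elim
    · exact h1

/-- simplicity from the derivative -/
theorem simple_of (hD : RepData L R L1 R1) {δ ρ ψ : ℝ} (hδ : 0 < δ) (hρ : 0 < ρ)
    (hL0 : L δ ρ ψ ≠ 0) (h0 : L δ ρ ψ + R δ ρ ψ = 0)
    (hne : (R1 δ ρ ψ / R δ ρ ψ).re - (L1 δ ρ ψ / L δ ρ ψ).re ≠ 0) :
    deriv (F (qa δ)) (zmap δ (ρ * cexp (-(I * ψ)))) ≠ 0 := by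
  intro hd
  obtain ⟨c, hc, h⟩ := hD.rep δ ρ hδ hρ
  have hq : ‖qa δ‖ ≤ 1 := (norm_qa δ).le
  set z0 := zmap δ (ρ * cexp (-(I * ψ))) with hz0
  have hF0 : F (qa δ) z0 = 0 := (zero_iff hD hδ hρ).mpr h0
  have h1 : HasDerivAt (F (qa δ)) 0 z0 := by
    have := (hasDerivAt_F hq z0).differentiableAt.hasDerivAt
    rwa [hd] at this
  -- the curve
  have h2 : HasDerivAt (fun s : ℝ => zmap δ (ρ * cexp (-(I * s))))
      (ρ * (cexp (-(I * ψ)) * (-(I * 1))) * cexp (I * δ / 2) / (I * δ)) ψ := by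
    unfold zmap
    have e1 : HasDerivAt (fun s : ℝ => -(I * (s : ℂ))) (-(I * 1)) ψ := by
      have : HasDerivAt (fun s : ℝ => (s : ℂ)) 1 ψ := Complex.ofRealCLM.hasDerivAt
      exact (this.const_mul I).neg
    exact (((e1.cexp).const_mul (ρ : ℂ)).mul_const _).div_const _
  have h3 : HasDerivAt (fun s : ℝ => F (qa δ) (zmap δ (ρ * cexp (-(I * s))))) 0 ψ := by
    have := h1.comp_of_eq ψ h2 rfl
    rw [zero_mul] at this
    exact this
  have h4 : HasDerivAt (fun s : ℝ => c * cexp (I * (s : ℂ) ^ (2 : ℕ) / (2 * δ))) 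
      (c * (cexp (I * (ψ : ℂ) ^ (2 : ℕ) / (2 * δ)) * (I * (2 * (ψ : ℂ)) / (2 * δ)))) ψ := by
    have e0 : HasDerivAt (fun s : ℝ => (s : ℂ)) 1 ψ := Complex.ofRealCLM.hasDerivAt
    have e1 : HasDerivAt (fun s : ℝ => (s : ℂ) ^ (2 : ℕ)) (2 * (ψ : ℂ)) ψ := by
      have := e0.fun_pow 2
      norm_num at this
      exact this
    exact (((e1.const_mul I).div_const (2 * (δ : ℂ))).cexp).const_mul c
  have h5 := h4.mul h3
  have h6 : HasDerivAt (fun s : ℝ => L δ ρ s + R δ ρ s) 0 ψ := by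
    have e1 : (fun s : ℝ => c * cexp (I * (s : ℂ) ^ (2 : ℕ) / (2 * δ))) *
        (fun s : ℝ => F (qa δ) (zmap δ (ρ * cexp (-(I * s))))) = fun s : ℝ => L δ ρ s + R δ ρ s := by
      funext s
      exact h s
    rw [e1] at h5
    rw [← hz0, hF0, mul_zero, mul_zero, add_zero] at h5
    exact h5
  have h7 := (hD.dL δ ρ ψ hδ hρ).add (hD.dR δ ρ ψ hδ hρ)
  have h8 := h6.unique h7
  have hR0 : R δ ρ ψ ≠ 0 := by
    intro h9
    rw [h9, add_zero] at h0
    exact hL0 h0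
  have hδC : (δ : ℂ) ≠ 0 := by exact_mod_cast hδ.ne'
  have h9 : R1 δ ρ ψ = -L1 δ ρ ψ := by
    have : -(L1 δ ρ ψ) / δ + -(R1 δ ρ ψ) / δ = 0 := h8.symm
    field_simp at this
    linear_combination -this
  have h10 : R δ ρ ψ = -L δ ρ ψ := by linear_combination h0
  apply hne
  rw [h9, h10, neg_div_neg_eq, sub_self]

/-- the lower bound of the derivative from the moments -/
theorem deriv_pos {δ ρ ψ bL bR : ℝ} {hl hr : ℂ}
    (eL : L δ ρ ψ = kS δ ψ hl * JL δ hl) (eL1 : L1 δ ρ ψ = kS δ ψ hl * ((hl - I * ψ) * JL δ hl + JL1 δ hl))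
    (eR : R δ ρ ψ = kS δ ψ hr * JR δ hr) (eR1 : R1 δ ρ ψ = kS δ ψ hr * ((hr - I * ψ) * JR δ hr + JR1 δ hr))
    (jL0 : JL δ hl ≠ 0) (jR0 : JR δ hr ≠ 0)
    (hbL : ‖JL1 δ hl‖ ≤ bL * ‖JL δ hl‖) (hbR : ‖JR1 δ hr‖ ≤ bR * ‖JR δ hr‖)
    (hlt : bL + bR < (hr - hl).re) :
    0 < (R1 δ ρ ψ / R δ ρ ψ).re - (L1 δ ρ ψ / L δ ρ ψ).re := by
  have kL := kS_ne_zero δ ψ hl
  have kR := kS_ne_zero δ ψ hr
  have q1 : L1 δ ρ ψ / L δ ρ ψ = hl - I * ψ + JL1 δ hl / JL δ hl := by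
    rw [eL, eL1]; field_simp
  have q2 : R1 δ ρ ψ / R δ ρ ψ = hr - I * ψ + JR1 δ hr / JR δ hr := by
    rw [eR, eR1]; field_simp
  rw [q1, q2]
  have n1 : ‖JL1 δ hl / JL δ hl‖ ≤ bL := by
    rw [norm_div, div_le_iff₀ (norm_pos_iff.mpr jL0)]; exact hbL
  have n2 : ‖JR1 δ hr / JR δ hr‖ ≤ bR := by
    rw [norm_div, div_le_iff₀ (norm_pos_iff.mpr jR0)]; exact hbR
  have m1 := (Complex.abs_re_le_norm (JL1 δ hl / JL δ hl)).trans n1
  have m2 := (Complex.abs_re_le_norm (JR1 δ hr / JR δ hr)).trans n2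
  have m1' := abs_le.mp m1
  have m2' := abs_le.mp m2
  rw [Complex.sub_re] at hlt
  simp only [Complex.add_re, Complex.sub_re]
  linarith [m1'.1, m1'.2, m2'.1, m2'.2]

end SokamTI

end

/-! ### Lib_MP_af4de1_v3.V3 -/

section
namespace SokamF1
end SokamF1
namespace SokamF1M
end SokamF1M
namespace SokamF1S
end SokamF1S
namespace SokamU
end SokamU
/-!
# F1, plan v3: definitions and the list of pieces (captain helper73)

`r > 0`, `δ > 0`, `ρ = r δ`, `R = 1 + ρ²`, `h = 2π/N`, `Γ = r h²/R`, `H = r h/√R`.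
A saddle is given by `y` (`Sad.lean`): `x = sx ρ y`, `K = sK ρ y = x + i y`, `η = sE ρ y`, `κ = K/δ`,
`D = |1 - i K|`, level `M = sM r δ y = exp (x (1 + y)/δ)/√D` (`MainC.lean`).
`V0, V1, V2 r δ y ζ` : `E, DE, D²E` at the angle `η + ζ`.

Right side: `y ≤ 0`, `η ≤ 0`, shifts `ζ ≤ 0`.  Left side: `y ≥ 0`, `η ≥ 0`, shifts `ζ ≥ 0`.
Every piece is a theorem of its own file; the statements are the fields of the structures below.
The classes on the side of `η ≥ 0` are estimated by absolute values on the path through the top saddle of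
their own side (`path_formula` with `ξ = ζ I`, `c = 1/(1+x)`, `s1 = 1+x`); then `TwoPiece.U_two`.
-/

set_option autoImplicit false

namespace SokamV3

open Complex SokamU SokamF1 SokamF1S SokamF1M

/-- `D = |1 - iK|` -/
noncomputable def sD (ρ y : ℝ) : ℝ := √(sD2 ρ y)

/-- the saddle point `κ = K/δ` -/
noncomputable def kap (r δ y : ℝ) : ℂ := sK (r * δ) y / δ

/-- `|K|/D²` -/
noncomputable def kD (r δ y : ℝ) : ℝ := ‖sK (r * δ) y‖ / sD2 (r * δ) y

/-- `E` at the angle `η(y) + ζ` on the circle of radius `r` -/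
noncomputable def V0 (r δ y ζ : ℝ) : ℂ := E (tt δ) (wp r δ (sE (r * δ) y + ζ))

/-- `DE` at the angle `η(y) + ζ` -/
noncomputable def V1 (r δ y ζ : ℝ) : ℂ := DE (tt δ) (wp r δ (sE (r * δ) y + ζ))

/-- `D²E` at the angle `η(y) + ζ` -/
noncomputable def V2 (r δ y ζ : ℝ) : ℂ := SokamBPlus.D2E (tt δ) (wp r δ (sE (r * δ) y + ζ))

/-- The own wave: relative loss `e`, `|κ_E - κ| ≤ k`, `|⟨(κ'-κ)² + κ'⟩| ≤ v`. -/
structure Own (r δ y e k v : ℝ) : Prop where
  o0 : (1 - e) * sM r δ y ≤ ‖V0 r δ y 0‖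
  o1 : ‖V1 r δ y 0 - kap r δ y * V0 r δ y 0‖ ≤ k * ‖V0 r δ y 0‖
  o2 : ‖V2 r δ y 0 - 2 * kap r δ y * V1 r δ y 0 + kap r δ y ^ (2 : ℕ) * V0 r δ y 0‖ ≤
    v * ‖V0 r δ y 0‖

/-- A shifted wave, seen from the saddle `y`, relative to the level `M` of the saddle. -/
structure Shf (r δ y ζ H f0 f1 f2 : ℝ) : Prop where
  s0 : ‖V0 r δ y ζ‖ ≤ f0 * sM r δ y
  s1 : ‖V1 r δ y ζ - kap r δ y * V0 r δ y ζ‖ ≤ f1 * H * sM r δ y
  s2 : ‖V2 r δ y ζ - 2 * kap r δ y * V1 r δ y ζ + kap r δ y ^ (2 : ℕ) * V0 r δ y ζ‖ ≤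
    f2 * H ^ (2 : ℕ) * sM r δ y

/-- Outer waves (any shift outwards) for the localisation. -/
def Out (r δ y ζ C : ℝ) : Prop := ∀ m : ℝ, 0 ≤ m →
  ‖V1 r δ y ζ + m * V0 r δ y ζ‖ ≤ C * (‖kap r δ y‖ + m) * sM r δ y

/-- `R = 1 + ρ²` -/
noncomputable def RR (r δ : ℝ) : ℝ := 1 + (r * δ) ^ (2 : ℕ)

/-- `H = r h/√R` -/
noncomputable def HH (N : ℕ) (r δ : ℝ) : ℝ := r * hst N / √(RR r δ)

/-- `Γ = r h²/R` -/
noncomputable def Gm (N : ℕ) (r δ : ℝ) : ℝ := r * hst N ^ (2 : ℕ) / RR r δ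

/-- All parameters with `N ≥ 2`, `δ > 0` left over for the top waves. -/
structure Par (N : ℕ) (r δ : ℝ) : Prop where
  N2 : 2 ≤ N
  r0 : 499 / 10 ≤ r
  d0 : 0 < δ
  G : 27 / 5 ≤ Gm N r δ

/-- Regime I: `N ≥ 3` and `h²/R ≤ 11/10`  (all `ρ` for `N ≥ 6`). -/
structure Reg1 (N : ℕ) (r δ : ℝ) : Prop extends Par N r δ where
  N3 : 3 ≤ N
  I : hst N ^ (2 : ℕ) ≤ 11 / 10 * RR r δ

/-- Regime C: `N ≥ 3` and `h²/R > 11/10` (so `N ≤ 5`, `ρ ≤ 1.73`, `Γ ≥ 54.8`). -/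
structure RegC (N : ℕ) (r δ : ℝ) : Prop extends Par N r δ where
  N3 : 3 ≤ N
  C : 11 / 10 * RR r δ < hst N ^ (2 : ℕ)

/-- `N = 2`, `ρ ≥ 3.2`. -/
structure Reg2 (r δ : ℝ) : Prop extends Par 2 r δ where
  rho : 16 / 5 ≤ r * δ

/-- half width of the window, regime I -/
noncomputable def om1 (N : ℕ) (r δ : ℝ) : ℝ :=
  if Gm N r δ < 10 then 1 / 4 else if Gm N r δ < 20 then 3 / 20 else 1 / 10

/-- half width of the window, `N = 2` -/
noncomputable def om2 (r δ : ℝ) : ℝ :=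
  if Gm 2 r δ < 10 then 17 / 100 else if Gm 2 r δ < 20 then 3 / 20 else 1 / 10

/-- outer end of the window, regime I: `|η| ≤ eo1` for every saddle which is used -/
noncomputable def eo1 (N : ℕ) (r δ : ℝ) : ℝ := (1 / 2 + om1 N r δ) * hst N

/-- inner end of the window, regime I -/
noncomputable def ei1 (N : ℕ) (r δ : ℝ) : ℝ := (1 / 2 - om1 N r δ) * hst N

/-- outer end, `N = 2` -/
noncomputable def eo2 (r δ : ℝ) : ℝ := (1 / 2 + om2 r δ) * hst 2

/-- inner end, `N = 2` -/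
noncomputable def ei2 (r δ : ℝ) : ℝ := (1 / 2 - om2 r δ) * hst 2

/-- The saddle `y` belongs to the angle `η`, `-1 < y`. -/
structure At (r δ y η : ℝ) : Prop where
  dom : Dom (r * δ) y
  y1 : -1 < y
  eta : sE (r * δ) y = η

/-- Facts of regime I, `Γ < 10`, for every saddle with `|η| ≤ eo1`. -/
structure SadA (N : ℕ) (r δ y : ℝ) : Prop where
  lo : -(31 / 100) ≤ y
  hi : y ≤ 41 / 100
  T : |y| ≤ 19 / 50 * sx (r * δ) y
  D : 17 / 20 ≤ sD2 (r * δ) y
  a : kD r δ y ≤ 1 / 20 * HH N r δ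

/-- Facts of regime I, `Γ ≥ 10`, for every saddle with `|η| ≤ eo1`. -/
structure SadB (N : ℕ) (r δ y : ℝ) : Prop where
  lo : -(53 / 100) ≤ y
  hi : y ≤ 14 / 25
  T : |y| ≤ 4 / 5 * sx (r * δ) y
  D : 13 / 20 ≤ sD2 (r * δ) y
  a : kD r δ y ≤ 1 / 25 * HH N r δ

/-- the saddle is one of regime I -/
def Sad1 (N : ℕ) (r δ y : ℝ) : Prop :=
  (Gm N r δ < 10 ∧ SadA N r δ y) ∨ (10 ≤ Gm N r δ ∧ SadB N r δ y)

/-- Facts for `N = 2`, `ρ ≥ 3.2`, for every saddle with `|η| ≤ eo2`. -/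
structure Sad2 (r δ y : ℝ) : Prop where
  lo : -(1 / 2) ≤ y
  hi : y ≤ 13 / 20
  T : |y| ≤ 2 / 5 * sx (r * δ) y
  D : 5 ≤ sD2 (r * δ) y

/-- the gap between the inner saddle `a` and the outer saddle `b` -/
structure Gap (r δ ya yb γ : ℝ) : Prop where
  g0 : Real.exp γ * sM r δ yb ≤ sM r δ ya
  g1 : Real.exp γ * (‖kap r δ yb‖ * sM r δ yb) ≤ ‖kap r δ ya‖ * sM r δ ya

/-- PIECE SAD (regime I). -/
structure PSad1 : Prop where
  ex : ∀ (N : ℕ) (r δ η : ℝ), Reg1 N r δ → |η| ≤ eo1 N r δ → ∃ y, At r δ y η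
  sad : ∀ (N : ℕ) (r δ y η : ℝ), Reg1 N r δ → At r δ y η → |η| ≤ eo1 N r δ → Sad1 N r δ y
  /-- inner angles for `Γ < 10` (true .12) -/
  inn : ∀ (N : ℕ) (r δ y η : ℝ), Reg1 N r δ → At r δ y η → Gm N r δ < 10 → |η| ≤ ei1 N r δ →
    |y| ≤ 3 / 20

/-- PIECE PAIR (regime I): the two saddle points are far apart (true: .928, .945, .936). -/
def PPair1 : Prop := ∀ (N : ℕ) (r δ y0 y1 η : ℝ), Reg1 N r δ → At r δ y0 η →
  At r δ y1 (η - hst N) → Sad1 N r δ y0 → Sad1 N r δ y1 → ei1 N r δ ≤ η → η ≤ eo1 N r δ →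
  22 / 25 * HH N r δ ≤ ‖kap r δ y0 - kap r δ y1‖

/-- PIECE GAP (regime I): localisation (true: 1.09 for `L`, 1.27 for `R`). -/
structure PGap1 : Prop where
  L : ∀ (N : ℕ) (r δ ya yb η : ℝ), Reg1 N r δ → At r δ ya η → At r δ yb (-eo1 N r δ) →
    0 ≤ η → η ≤ ei1 N r δ → Gap r δ ya yb (17 / 20)
  R : ∀ (N : ℕ) (r δ ya yb η : ℝ), Reg1 N r δ → At r δ ya η → At r δ yb (eo1 N r δ) →
    η ≤ 0 → -ei1 N r δ ≤ η → Gap r δ ya yb (17 / 20)

/-- PIECE MAIN (regime I): the own wave (true for the absolute integrals: coefficient of `|K|/D²`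
at most .56 / .58, `(1/δ)|<h g>|` at most .07 / .10). -/
structure POwn1 : Prop where
  L : ∀ (N : ℕ) (r δ y η : ℝ), Reg1 N r δ → At r δ y η → Sad1 N r δ y →
    0 ≤ η → η ≤ eo1 N r δ →
    Own r δ y (2 / 25) (7 / 8 * kD r δ y + HH N r δ / 500)
      (5 / 4 * (‖kap r δ y‖ / sD (r * δ) y) + HH N r δ ^ (2 : ℕ) / 200)
  R : ∀ (N : ℕ) (r δ y η : ℝ), Reg1 N r δ → At r δ y η → Sad1 N r δ y →
    η ≤ 0 → -eo1 N r δ ≤ η →
    Own r δ y (3 / 25) (13 / 10 * kD r δ y + HH N r δ / 500)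
      (8 / 5 * (‖kap r δ y‖ / sD (r * δ) y) + HH N r δ ^ (2 : ℕ) / 200)

/-- PIECE SHIFT (regime I), left side. -/
structure PShfL : Prop where
  /-- first far wave, inner own angles, `Γ < 10` (true .109, .084, .08) -/
  a : ∀ (N : ℕ) (r δ y η : ℝ), Reg1 N r δ → At r δ y η → Sad1 N r δ y → Gm N r δ < 10 →
    0 ≤ η → η ≤ ei1 N r δ → η + hst N ≤ Real.pi →
    Shf r δ y (hst N) (HH N r δ) (1 / 5) (1 / 5) 1
  /-- the same for `Γ ≥ 10` (true .0147, .012) -/
  a' : ∀ (N : ℕ) (r δ y η : ℝ), Reg1 N r δ → At r δ y η → Sad1 N r δ y → 10 ≤ Gm N r δ →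
    0 ≤ η → η ≤ ei1 N r δ → η + hst N ≤ Real.pi →
    Shf r δ y (hst N) (HH N r δ) (3 / 50) (3 / 50) 1
  /-- first far wave in the window, `Γ < 10` (true .033, .025, .057) -/
  b : ∀ (N : ℕ) (r δ y η : ℝ), Reg1 N r δ → At r δ y η → Sad1 N r δ y → Gm N r δ < 10 →
    ei1 N r δ ≤ η → η ≤ eo1 N r δ → η + hst N ≤ Real.pi →
    Shf r δ y (hst N) (HH N r δ) (2 / 25) (2 / 25) (13 / 100)
  /-- first far wave in the window, `Γ ≥ 10` (true 8e-4) -/
  c : ∀ (N : ℕ) (r δ y η : ℝ), Reg1 N r δ → At r δ y η → Sad1 N r δ y → 10 ≤ Gm N r δ →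
    ei1 N r δ ≤ η → η ≤ eo1 N r δ → η + hst N ≤ Real.pi →
    Shf r δ y (hst N) (HH N r δ) (1 / 100) (1 / 100) (1 / 100)
  /-- the other far waves, all own angles (true for `i = 2`: 2.5e-4, 3.5e-4, 5e-4; `i = 3`: 1e-7) -/
  d : ∀ (N i : ℕ) (r δ y η : ℝ), Reg1 N r δ → At r δ y η → Sad1 N r δ y →
    0 ≤ η → η ≤ eo1 N r δ → 2 ≤ i → η + i * hst N ≤ Real.pi →
    Shf r δ y (i * hst N) (HH N r δ) ((1 / 2) ^ i / 100) ((1 / 2) ^ i / 100) ((1 / 2) ^ i / 100)
  /-- far waves seen from the boundary saddle `η = eo1` (true 3e-3 for `i = 1`, 1e-6 for `i = 2`) -/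
  e : ∀ (N i : ℕ) (r δ y ζ : ℝ), Reg1 N r δ → At r δ y (eo1 N r δ) → Sad1 N r δ y →
    1 ≤ i → i * hst N ≤ ζ → eo1 N r δ + ζ ≤ Real.pi →
    Shf r δ y ζ (HH N r δ) ((1 / 2) ^ i / 25) ((1 / 2) ^ i / 25) 1
  /-- outer waves, boundary saddle (true 1.006) -/
  o : ∀ (N : ℕ) (r δ y ζ : ℝ), Reg1 N r δ → At r δ y (eo1 N r δ) → Sad1 N r δ y →
    0 ≤ ζ → ζ ≤ ei1 N r δ → Out r δ y ζ (23 / 20)

/-- PIECE SHIFT (regime I), right side. -/
structure PShfR : Prop where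
  /-- true .092, .080, .10 -/
  a : ∀ (N : ℕ) (r δ y η : ℝ), Reg1 N r δ → At r δ y η → Sad1 N r δ y → Gm N r δ < 10 →
    η ≤ 0 → -ei1 N r δ ≤ η → -Real.pi ≤ η - hst N →
    Shf r δ y (-hst N) (HH N r δ) (1 / 5) (1 / 5) 1
  /-- the same for `Γ ≥ 10` (true .0104, .0091) -/
  a' : ∀ (N : ℕ) (r δ y η : ℝ), Reg1 N r δ → At r δ y η → Sad1 N r δ y → 10 ≤ Gm N r δ →
    η ≤ 0 → -ei1 N r δ ≤ η → -Real.pi ≤ η - hst N →
    Shf r δ y (-hst N) (HH N r δ) (3 / 50) (3 / 50) 1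
  /-- true .024, .026, .034 -/
  b : ∀ (N : ℕ) (r δ y η : ℝ), Reg1 N r δ → At r δ y η → Sad1 N r δ y → Gm N r δ < 10 →
    η ≤ -ei1 N r δ → -eo1 N r δ ≤ η → -Real.pi ≤ η - hst N →
    Shf r δ y (-hst N) (HH N r δ) (3 / 50) (7 / 100) (3 / 20)
  /-- true 5e-4 -/
  c : ∀ (N : ℕ) (r δ y η : ℝ), Reg1 N r δ → At r δ y η → Sad1 N r δ y → 10 ≤ Gm N r δ →
    η ≤ -ei1 N r δ → -eo1 N r δ ≤ η → -Real.pi ≤ η - hst N →
    Shf r δ y (-hst N) (HH N r δ) (1 / 100) (1 / 100) (1 / 100)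
  d : ∀ (N i : ℕ) (r δ y η : ℝ), Reg1 N r δ → At r δ y η → Sad1 N r δ y →
    η ≤ 0 → -eo1 N r δ ≤ η → 2 ≤ i → -Real.pi ≤ η - i * hst N →
    Shf r δ y (-(i * hst N)) (HH N r δ) ((1 / 2) ^ i / 100) ((1 / 2) ^ i / 100) ((1 / 2) ^ i / 100)
  e : ∀ (N i : ℕ) (r δ y ζ : ℝ), Reg1 N r δ → At r δ y (-eo1 N r δ) → Sad1 N r δ y →
    1 ≤ i → ζ ≤ -(i * hst N) → -Real.pi ≤ -eo1 N r δ + ζ →
    Shf r δ y ζ (HH N r δ) ((1 / 2) ^ i / 25) ((1 / 2) ^ i / 25) 1
  /-- true 1.052 -/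
  o : ∀ (N : ℕ) (r δ y ζ : ℝ), Reg1 N r δ → At r δ y (-eo1 N r δ) → Sad1 N r δ y →
    ζ ≤ 0 → -ei1 N r δ ≤ ζ → Out r δ y ζ (5 / 4)

/-- PIECE C (owner helper2, with DD, MON, GAP; `N = 3, 4, 5`). -/
def PC : Prop := ∀ (N : ℕ) (r δ : ℝ), RegC N r δ → WaveU N δ r

/-- PIECE `δ = 0` (roots of unity; `E` is the exponential function). -/
def PRoot : Prop := ∀ (N : ℕ) (r : ℝ), 2 ≤ N → 499 / 10 ≤ r → 27 / 5 ≤ r * hst N ^ (2 : ℕ) →
  WaveU N 0 r

/-- PIECES for `N = 2`, `ρ ≥ 3.2`. -/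
structure P2 : Prop where
  ex : ∀ (r δ η : ℝ), Reg2 r δ → |η| ≤ eo2 r δ → ∃ y, At r δ y η
  sad : ∀ (r δ y η : ℝ), Reg2 r δ → At r δ y η → |η| ≤ eo2 r δ → Sad2 r δ y
  sadA : ∀ (r δ y η : ℝ), Reg2 r δ → At r δ y η → |η| ≤ eo2 r δ → Gm 2 r δ < 10 →
    -(31 / 100) ≤ y ∧ y ≤ 21 / 50 ∧ |y| ≤ 3 / 20 * sx (r * δ) y
  /-- true .98 -/
  pair : ∀ (r δ y0 y1 η : ℝ), Reg2 r δ → At r δ y0 η → At r δ y1 (η - hst 2) →
    ei2 r δ ≤ η → η ≤ eo2 r δ → 47 / 50 * HH 2 r δ ≤ ‖kap r δ y0 - kap r δ y1‖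
  /-- true .67 -/
  gapL : ∀ (r δ ya yb η : ℝ), Reg2 r δ → At r δ ya η → At r δ yb (-eo2 r δ) →
    0 ≤ η → η ≤ ei2 r δ → Gap r δ ya yb (1 / 2)
  gapR : ∀ (r δ ya yb η : ℝ), Reg2 r δ → At r δ ya η → At r δ yb (eo2 r δ) →
    η ≤ 0 → -ei2 r δ ≤ η → Gap r δ ya yb (1 / 2)
  /-- true tails (absolute): .0122, .0244, .0491 -/
  own : ∀ (r δ y η : ℝ), Reg2 r δ → At r δ y η → Sad2 r δ y → |η| ≤ eo2 r δ →
    (|η| ≤ hst 2 / 2 ∨ 20 ≤ Gm 2 r δ) →
    Own r δ y (13 / 100) (11 / 200 * HH 2 r δ) (3 / 25 * HH 2 r δ ^ (2 : ℕ))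
  /-- true tails (absolute): .0187, .0379, .0762 -/
  own2 : ∀ (r δ y η : ℝ), Reg2 r δ → At r δ y η → Sad2 r δ y → |η| ≤ eo2 r δ →
    10 ≤ Gm 2 r δ → Gm 2 r δ < 20 →
    Own r δ y (1 / 4) (2 / 25 * HH 2 r δ) (1 / 5 * HH 2 r δ ^ (2 : ℕ))
  /-- true tails (absolute): .075, .150, .30 -/
  ownA : ∀ (r δ y η : ℝ), Reg2 r δ → At r δ y η → Sad2 r δ y → |η| ≤ eo2 r δ →
    Gm 2 r δ < 17 / 2 →
    Own r δ y (1 / 4) (3 / 10 * HH 2 r δ) (3 / 5 * HH 2 r δ ^ (2 : ℕ))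
  /-- true tails (absolute): .039, .079, .16 -/
  ownA2 : ∀ (r δ y η : ℝ), Reg2 r δ → At r δ y η → Sad2 r δ y → |η| ≤ eo2 r δ →
    17 / 2 ≤ Gm 2 r δ → Gm 2 r δ < 10 →
    Own r δ y (1 / 4) (1 / 4 * HH 2 r δ) (1 / 2 * HH 2 r δ ^ (2 : ℕ))
  /-- true 1.16 -/
  outL : ∀ (r δ y ζ : ℝ), Reg2 r δ → At r δ y (eo2 r δ) → Sad2 r δ y →
    0 ≤ ζ → eo2 r δ + ζ ≤ Real.pi → Out r δ y ζ (27 / 20)
  /-- true 1.05 -/
  outR : ∀ (r δ y ζ : ℝ), Reg2 r δ → At r δ y (-eo2 r δ) → Sad2 r δ y →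
    ζ ≤ 0 → -Real.pi ≤ -eo2 r δ + ζ → Out r δ y ζ (13 / 10)

end SokamV3

end

/-! ### Lib_MP_af4de1_fu.MainH -/

section
namespace SokamF
end SokamF
/-!
# Assembly of the full theorem from the ranges F1, Part I (mid), F3, tip and the interior

* `hF1`  : `0 < α ≤ π`, `r ≥ 50`, `α r ≥ 9/2`
* `hMid` : `0 < α ≤ 9/80`, `1 ≤ α r ≤ 9/2`
* `hF3`  : `2/25 ≤ α ≤ π`, `r ≤ 50`, given the statement for `r ≥ 50`
* `hTip` : `0 < α ≤ 2/25`, `α r ≤ 1`
* `hInt` : the interior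
-/

set_option autoImplicit false

open Complex SokamF

namespace SokamFU

/-- the circle `|q| = 1` from the four ranges -/
theorem dist_all
    (hF1 : ∀ α r : ℝ, 0 < α → α ≤ Real.pi → 50 ≤ r → 9 / 2 ≤ α * r → Dist α r)
    (hMid : ∀ α r : ℝ, 0 < α → α ≤ 9 / 80 → 1 ≤ α * r → α * r ≤ 9 / 2 → Dist α r)
    (hF3 : (∀ α r : ℝ, 2 / 25 ≤ α → α ≤ Real.pi → 50 ≤ r → Dist α r) →
      ∀ α r : ℝ, 2 / 25 ≤ α → α ≤ Real.pi → r ≤ 50 → Dist α r)
    (hTip : ∀ α r : ℝ, 0 < α → α ≤ 2 / 25 → 0 < r → α * r ≤ 1 → Dist α r) :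
    ∀ α r : ℝ, 0 < α → α ≤ Real.pi → 0 < r → Dist α r := by
  have hbig : ∀ α r : ℝ, 2 / 25 ≤ α → α ≤ Real.pi → 50 ≤ r → Dist α r := by
    intro α r h1 h2 h3
    have h0 : 0 < α := by linarith only [h1]
    rcases le_total (9 / 2) (α * r) with h4 | h4
    · exact hF1 α r h0 h2 h3 h4
    · have h5 : α ≤ 9 / 80 := by nlinarith only [h3, h4]
      exact hMid α r h0 h5 (by nlinarith only [h1, h3]) h4
  intro α r h1 h2 h3
  rcases le_total α (2 / 25) with h4 | h4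
  · rcases le_total (α * r) 1 with h5 | h5
    · exact hTip α r h1 h4 h3 h5
    · rcases le_total (α * r) (9 / 2) with h6 | h6
      · exact hMid α r h1 (by linarith only [h4]) h5 h6
      · refine hF1 α r h1 h2 ?_ h6
        nlinarith only [h3, h4, h6]
  · rcases le_total r 50 with h5 | h5
    · exact hF3 hbig α r h4 h2 h5
    · exact hbig α r h4 h2 h5

end SokamFU

end
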