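import Mathlib.Algebra.Order.Floor.Semifield
import Mathlib.Algebra.Ring.IsFormallyReal
import Mathlib.RingTheory.PowerSeries.Inverse
import Mathlib.Data.Rat.Star
import Mathlib.Geometry.Euclidean.Angle.Unoriented.TriangleInequality
import Mathlib.Analysis.Convex.Contractible
import Mathlib.Analysis.Calculus.Deriv.Star
import Mathlib.MeasureTheory.Integral.Gamma
import Mathlib.Analysis.Complex.LocallyUniformLimit
import Mathlib.Topology.Separation.CompletelyRegular
import Mathlib.RingTheory.Flat.TorsionFree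
import Mathlib.MeasureTheory.Order.Group.Lattice
import Mathlib.Data.Int.Star
import Mathlib.LinearAlgebra.Lagrange
import Mathlib.Analysis.Complex.Angle
import Mathlib.Analysis.Complex.BorelCaratheodory
import Mathlib.Analysis.Complex.CoveringMap
import Mathlib.Topology.Homotopy.Lifting
import Mathlib.Analysis.Complex.ExponentialBounds
import Mathlib.Analysis.Complex.HasPrimitives
import Mathlib.NumberTheory.DiophantineApproximation.Basic
import Mathlib.Analysis.Complex.OpenMapping
import Mathlib.Analysis.SpecialFunctions.Trigonometric.DerivHyp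
import Mathlib.RingTheory.SimpleRing.Principal
import Mathlib.Order.CompletePartialOrder
import Mathlib.Analysis.SpecialFunctions.Complex.LogBounds
import Mathlib.Analysis.SpecialFunctions.Gamma.BohrMollerup
import Mathlib.Analysis.SpecialFunctions.Trigonometric.Series
import Mathlib.Topology.MetricSpace.Sequences
import Mathlib.Analysis.Normed.Group.Tannery
import Mathlib.Analysis.ODE.Gronwall
import Mathlib.Analysis.Real.Pi.Bounds
import Mathlib.Analysis.SpecialFunctions.Gaussian.PoissonSummation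
import Mathlib.Analysis.SpecialFunctions.Trigonometric.InverseDeriv
import Mathlib.RingTheory.TotallySplit
import Mathlib.RingTheory.Etale.Weakly
import Mathlib.Tactic

/-! ### Lib_MP_af4de1_u.Contour -/

section
/-!
# Moving the line of integration [SU-CONT]

`g` entire, `‖g(x+iy)‖ ≤ G y` on the strip `|x| ≤ c s1`, `G` integrable and `→ 0`.  The vertical line
is replaced by the path `h(s) = (c+i)s` for `|s| ≤ s1`, `h(s) = ± c s1 + i s` for `± s ≥ s1`.
Proof: `g` has a primitive `P` on `ℂ` (e.g. `P w = w ∫_0^1 g(τw) dτ`, or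
`DifferentiableOn.isExactOn_ball` on a large ball).  For `R > s1`:
`∫_{-R}^{R} g(sI) I ds = P(RI) - P(-RI)` and the path integral over `|s| ≤ R` is
`P(c s1 + RI) - P(-c s1 - RI)` (three pieces, `c + I = I(1 - cI)`); the differences
`P(c s1 + RI) - P(RI) = ∫_0^{c s1} g(x + RI) dx` tend to `0`.  Let `R → ∞`.
-/

namespace SokamU

open Complex MeasureTheory Filter Topology

private theorem ct_path {g P : ℂ → ℂ} (hg : Continuous g) (hP : ∀ z, HasDerivAt P (g z) z)
    (a b : ℂ) (u v : ℝ) :
    (∫ s in u..v, g (a + s * b)) * b = P (a + v * b) - P (a + u * b) := by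
  have hd : ∀ s ∈ Set.uIcc u v,
      HasDerivAt (fun s : ℝ => P (a + s * b)) (g (a + s * b) * b) s := by
    intro s _
    have h1 : HasDerivAt (fun z : ℂ => a + z * b) b (s : ℂ) := by
      simpa using ((hasDerivAt_id (s : ℂ)).mul_const b).const_add a
    exact ((hP (a + s * b)).comp (s : ℂ) h1).comp_ofReal
  have hc : Continuous fun s : ℝ => g (a + s * b) * b := by fun_prop
  rw [← intervalIntegral.integral_mul_const]
  exact intervalIntegral.integral_eq_sub_of_hasDerivAt hd (hc.intervalIntegrable _ _)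

private theorem ct_err {g P : ℂ → ℂ} (hg : Continuous g) (hP : ∀ z, HasDerivAt P (g z) z)
    (a : ℂ) (w B : ℝ) (hw : 0 ≤ w) (h : ∀ x ∈ Set.Icc 0 w, ‖g (a + x * 1)‖ ≤ B) :
    ‖P (a + w) - P a‖ ≤ B * w := by
  have h1 := ct_path hg hP a 1 0 w
  rw [mul_one, mul_one, Complex.ofReal_zero, zero_mul, add_zero] at h1
  rw [← h1]
  have h2 := intervalIntegral.norm_integral_le_of_norm_le_const (a := 0) (b := w)
    (f := fun x : ℝ => g (a + x * 1)) (C := B) (fun x hx => by
      rw [Set.uIoc_of_le hw] at hx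
      exact h x ⟨hx.1.le, hx.2⟩)
  rwa [sub_zero, abs_of_nonneg hw] at h2

theorem contour {g : ℂ → ℂ} (hg : Differentiable ℂ g) {c s1 : ℝ} (hc : 0 ≤ c) (hs : 0 < s1)
    {G : ℝ → ℝ} (hG : Integrable G) (hG0 : Tendsto G (cocompact ℝ) (𝓝 0))
    (hb : ∀ x y : ℝ, |x| ≤ c * s1 → ‖g (x + y * I)‖ ≤ G y) :
    ∫ s : ℝ, g (s * I) = (∫ s in Set.Ioi s1, g (((c * s1 : ℝ) : ℂ) + s * I)) +
      (∫ s in Set.Iio (-s1), g (-((c * s1 : ℝ) : ℂ) + s * I)) +
      (1 - c * I) * ∫ s in (-s1)..s1, g ((c + I) * s) := by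
  have hgc : Continuous g := hg.continuous
  obtain ⟨P, hP'⟩ := hg.isExactOn_univ
  have hP : ∀ z, HasDerivAt P (g z) z := fun z => hP' z (Set.mem_univ z)
  have hw : 0 ≤ c * s1 := mul_nonneg hc hs.le
  set w : ℝ := c * s1 with hwdef
  -- integrability
  have hint : ∀ x : ℝ, |x| ≤ w → Integrable fun s : ℝ => g ((x : ℂ) + s * I) := by
    intro x hx
    refine hG.mono' ?_ (Eventually.of_forall fun s => hb x s hx)
    exact (by fun_prop : Continuous fun s : ℝ => g ((x : ℂ) + s * I)).aestronglyMeasurable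
  have hi0 : Integrable fun s : ℝ => g (s * I) := by
    have := hint 0 (by simpa using hw)
    simpa using this
  have hi1 : Integrable fun s : ℝ => g ((w : ℂ) + s * I) := hint w (by rw [abs_of_nonneg hw])
  have hi2 : Integrable fun s : ℝ => g (-(w : ℂ) + s * I) := by
    have := hint (-w) (by rw [abs_neg, abs_of_nonneg hw])
    simpa using this
  -- the limits
  have l0 : Tendsto (fun R : ℝ => ∫ s in (-R)..R, g (s * I)) atTop (𝓝 (∫ s : ℝ, g (s * I))) :=
    intervalIntegral_tendsto_integral hi0 tendsto_neg_atTop_atBot tendsto_id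
  have l1 : Tendsto (fun R : ℝ => ∫ s in s1..R, g ((w : ℂ) + s * I)) atTop
      (𝓝 (∫ s in Set.Ioi s1, g ((w : ℂ) + s * I))) :=
    intervalIntegral_tendsto_integral_Ioi _ hi1.integrableOn tendsto_id
  have l2 : Tendsto (fun R : ℝ => ∫ s in (-R)..(-s1), g (-(w : ℂ) + s * I)) atTop
      (𝓝 (∫ s in Set.Iio (-s1), g (-(w : ℂ) + s * I))) := by
    rw [← integral_Iic_eq_integral_Iio]
    exact intervalIntegral_tendsto_integral_Iic _ hi2.integrableOn tendsto_neg_atTop_atBot
  -- the error
  have hG1 : Tendsto (fun R : ℝ => G R) atTop (𝓝 0) := hG0.mono_left atTop_le_cocompact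
  have hG2 : Tendsto (fun R : ℝ => G (-R)) atTop (𝓝 0) :=
    (hG0.mono_left atBot_le_cocompact).comp tendsto_neg_atTop_atBot
  have herr : Tendsto (fun R : ℝ => (∫ s in (-R)..R, g (s * I)) -
      ((∫ s in s1..R, g ((w : ℂ) + s * I)) + (∫ s in (-R)..(-s1), g (-(w : ℂ) + s * I)) +
        (1 - c * I) * ∫ s in (-s1)..s1, g ((c + I) * s))) atTop (𝓝 0) := by
    have hlim : Tendsto (fun R : ℝ => G R * w + G (-R) * w) atTop (𝓝 0) := by
      have := (hG1.mul_const w).add (hG2.mul_const w)
      simpa using this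
    refine squeeze_zero_norm (fun R => ?_) hlim
    have a0 := ct_path hgc hP 0 I (-R) R
    have a1 := ct_path hgc hP (w : ℂ) I s1 R
    have a2 := ct_path hgc hP (-(w : ℂ)) I (-R) (-s1)
    have a3 := ct_path hgc hP 0 (c + I) (-s1) s1
    simp only [zero_add] at a0 a3
    have a3' : (∫ s in (-s1)..s1, g ((c + I) * s)) * (c + I) =
        P ((w : ℂ) + s1 * I) - P (-(w : ℂ) + ((-s1 : ℝ) : ℂ) * I) := by
      have e1 : (fun s : ℝ => g ((c + I) * s)) = fun s : ℝ => g (s * (c + I)) := by
        funext s; rw [mul_comm]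
      rw [e1, a3]
      have e2 : (s1 : ℂ) * (c + I) = (w : ℂ) + s1 * I := by
        rw [hwdef]; push_cast; ring
      have e3 : (((-s1 : ℝ) : ℂ)) * (c + I) = -(w : ℂ) + ((-s1 : ℝ) : ℂ) * I := by
        rw [hwdef]; push_cast; ring
      rw [e2, e3]
    have b1 : ‖P ((R : ℂ) * I + w) - P ((R : ℂ) * I)‖ ≤ G R * w := by
      refine ct_err hgc hP _ w _ hw fun x hx => ?_
      have := hb x R (by rw [abs_of_nonneg hx.1]; exact hx.2)
      rwa [mul_one, add_comm]
    have b2 : ‖P (-(w : ℂ) + ((-R : ℝ) : ℂ) * I + w) - P (-(w : ℂ) + ((-R : ℝ) : ℂ) * I)‖ ≤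
        G (-R) * w := by
      refine ct_err hgc hP _ w _ hw fun x hx => ?_
      have h1 : |x - w| ≤ w := by rw [abs_le]; constructor <;> linarith [hx.1, hx.2]
      have := hb (x - w) (-R) h1
      rw [mul_one]
      have e : -(w : ℂ) + ((-R : ℝ) : ℂ) * I + x = ((x - w : ℝ) : ℂ) + ((-R : ℝ) : ℂ) * I := by
        push_cast; ring
      rw [e]
      exact this
    have e4 : -(w : ℂ) + ((-R : ℝ) : ℂ) * I + w = ((-R : ℝ) : ℂ) * I := by ring
    rw [e4] at b2
    -- the identity
    have key : ((∫ s in (-R)..R, g (s * I)) -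
      ((∫ s in s1..R, g ((w : ℂ) + s * I)) + (∫ s in (-R)..(-s1), g (-(w : ℂ) + s * I)) +
        (1 - c * I) * ∫ s in (-s1)..s1, g ((c + I) * s))) * I =
        -(P ((R : ℂ) * I + w) - P ((R : ℂ) * I)) -
          (P (((-R : ℝ) : ℂ) * I) - P (-(w : ℂ) + ((-R : ℝ) : ℂ) * I)) := by
      have e5 : (1 - c * I) * I = c + I := by
        have := I_mul_I
        linear_combination (-(c : ℂ)) * this
      have e6 : ((1 - c * I) * ∫ s in (-s1)..s1, g ((c + I) * s)) * I =
          (∫ s in (-s1)..s1, g ((c + I) * s)) * (c + I) := by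
        rw [← e5]; ring
      rw [sub_mul, add_mul, add_mul, e6, a0, a1, a2, a3', add_comm ((R : ℂ) * I) (w : ℂ)]
      ring
    have hn : ‖((∫ s in (-R)..R, g (s * I)) -
      ((∫ s in s1..R, g ((w : ℂ) + s * I)) + (∫ s in (-R)..(-s1), g (-(w : ℂ) + s * I)) +
        (1 - c * I) * ∫ s in (-s1)..s1, g ((c + I) * s))) * I‖ ≤ G R * w + G (-R) * w := by
      rw [key]
      refine (norm_sub_le _ _).trans ?_
      rw [norm_neg]
      exact add_le_add b1 b2
    rwa [norm_mul, norm_I, mul_one] at hn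
  have hlim2 := l0.sub ((l1.add l2).add_const ((1 - c * I) * ∫ s in (-s1)..s1, g ((c + I) * s)))
  have := tendsto_nhds_unique hlim2 herr
  exact sub_eq_zero.1 this

end SokamU

end
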