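import Pool.Agent.Lib_MP_af4de1_zy.Z10
import Pool.Agent.Lib_MP_af4de1_zy.Z19
import Pool.Agent.Lib_MP_af4de1_zy.Z39
import Pool.Agent.Lib_MP_af4de1_zy.Z41

/-! ### Lib_MP_af4de1_v.Rep -/

section
/-!
# The integral representation with tilted tails [SV-REP]

Let `f(H) = cexp(Ph ζ H/t)`.  FIRST `Re t > 0`: `∫_ℝ cexp(Ph ζ (sI)/t) ds = E t (ζ/t e^{-t/2}) √(2πt)` : expand
`cexp((ζ/t) e^{sI}) = ∑ (ζ/t)^n e^{nsI}/n!`, `∫ exp(-s²/(2t) + nsI) ds = √(2πt) e^{-tn²/2}`.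
Then move the two half lines (`SokamU.contour`).
SECOND `Re t = 0`, `Im t < 0`: apply the first case to `t + ε` and let `ε → 0+`: the left side is continuous
(`SokamU.continuousOn_E`), the tails converge by dominated convergence.
`rep_DE`: the same with the factor `ζ e^H` (`DE t y = ∑ n q^{n(n-1)/2} y^n/n!`, `t x e^H = ζ e^H`).
Both are treated at the same time, with the factor `(ζ e^H)^j`.
-/

namespace SokamV

open Complex MeasureTheory Filter Topology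

/-- the integrand with the weight `(ζ e^H)^j` -/
private noncomputable def gi (j : ℕ) (ζ t H : ℂ) : ℂ := (ζ * cexp H) ^ j * cexp (Ph ζ H / t)

private theorem gi_diff (j : ℕ) (ζ t : ℂ) : Differentiable ℂ (gi j ζ t) := by
  unfold gi Ph
  fun_prop

private theorem gi_cont (j : ℕ) (ζ t : ℂ) : Continuous (gi j ζ t) := (gi_diff j ζ t).continuous

private theorem exp_mul3 (a b c : ℝ) : a * Real.exp b * Real.exp c = a * Real.exp (b + c) := by
  rw [mul_assoc, ← Real.exp_add]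

private theorem gi_norm (j : ℕ) (ζ t : ℂ) {x : ℝ} (hx : |x| ≤ 1) (y : ℝ) :
    ‖gi j ζ t (x + y * I)‖ ≤ (3 * ‖ζ‖) ^ j *
      Real.exp ((t⁻¹).re * (x ^ (2 : ℕ) - y ^ (2 : ℕ)) / 2 - (t⁻¹).im * x * y + 3 * ‖ζ‖ * ‖t⁻¹‖) := by
  have he : Real.exp x ≤ 3 := by
    have h1 : Real.exp x ≤ Real.exp 1 := Real.exp_le_exp.2 (abs_le.1 hx).2
    linarith [Real.exp_one_lt_d9]
  have hn : ‖cexp (x + y * I)‖ = Real.exp x := by
    rw [Complex.norm_exp]; simp
  have hz : 0 ≤ ‖ζ‖ := norm_nonneg ζ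
  have hT : 0 ≤ ‖t⁻¹‖ := norm_nonneg _
  unfold gi
  rw [norm_mul, norm_pow, norm_mul, hn]
  refine mul_le_mul (pow_le_pow_left₀ (by positivity) (by nlinarith) j) ?_ (norm_nonneg _)
    (by positivity)
  rw [Complex.norm_exp, Real.exp_le_exp]
  have e : Ph ζ (x + y * I) / t =
      ((x : ℂ) + y * I) ^ (2 : ℕ) / 2 * t⁻¹ + ζ * cexp (x + y * I) * t⁻¹ := by
    unfold Ph; rw [div_eq_mul_inv]; ring
  rw [e, add_re]
  have e1 : (((x : ℂ) + y * I) ^ (2 : ℕ) / 2 * t⁻¹).re =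
      (t⁻¹).re * (x ^ (2 : ℕ) - y ^ (2 : ℕ)) / 2 - (t⁻¹).im * x * y := by
    have h0 : ((x : ℂ) + y * I) ^ (2 : ℕ) / 2 =
        (((x ^ (2 : ℕ) - y ^ (2 : ℕ)) / 2 : ℝ) : ℂ) + ((x * y : ℝ) : ℂ) * I := by
      have h3 : ((x : ℂ) + y * I) ^ (2 : ℕ) = x ^ (2 : ℕ) + 2 * x * y * I + y ^ (2 : ℕ) * I ^ (2 : ℕ) := by ring
      rw [h3, I_sq]
      push_cast
      ring
    rw [h0, add_mul, add_re, re_ofReal_mul, mul_assoc, re_ofReal_mul, mul_comm I, mul_I_re]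
    ring
  have e2 : (ζ * cexp (x + y * I) * t⁻¹).re ≤ 3 * ‖ζ‖ * ‖t⁻¹‖ := by
    refine (Complex.re_le_norm _).trans ?_
    rw [norm_mul, norm_mul, hn]
    have : ‖ζ‖ * Real.exp x ≤ 3 * ‖ζ‖ := by nlinarith
    exact mul_le_mul_of_nonneg_right this hT
  linarith

/-- The Gaussian representation with the weight. -/
private theorem gen {t : ℂ} (ht : 0 < t.re) (ζ : ℂ) (j : ℕ) :
    SokamU.gcst t⁻¹ * (t ^ j * SokamU.Ef j t (ζ / t * cexp (-t / 2))) =
      ∫ y : ℝ, gi j ζ t (y * I) := by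
  have ht0 : t ≠ 0 := by
    intro h; rw [h] at ht; simp at ht
  set T : ℂ := t⁻¹ with hT
  have hTre : 0 < T.re := SokamU.gauss_inv_re ht
  set κ : ℂ := ζ / t with hκ
  set z : ℂ := κ * cexp (-t / 2) with hz
  -- the terms
  set G : ℕ → ℝ → ℂ := fun n y => ζ ^ j * κ ^ n / (n.factorial : ℂ) *
    cexp (-(T / 2) * y ^ (2 : ℕ) + (I * (((n + j : ℕ) : ℂ) - 0)) * y + -0) with hG
  have hb : (-(T / 2)).re < 0 := SokamU.gauss_re_pos hTre
  have hint : ∀ n, Integrable (G n) := by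
    intro n
    exact (integrable_cexp_quadratic' hb _ _).const_mul _
  have hnorm : ∀ n y, ‖G n y‖ = ‖ζ‖ ^ j * ‖κ‖ ^ n / (n.factorial : ℝ) *
      ‖cexp (-(T / 2) * y ^ (2 : ℕ) + 0 * y + 0)‖ := by
    intro n y
    rw [hG]
    simp only
    rw [norm_mul, norm_div, norm_mul, norm_pow, norm_pow, Complex.norm_natCast]
    congr 1
    rw [Complex.norm_exp, Complex.norm_exp]
    congr 1
    have : (-(T / 2) * (y : ℂ) ^ (2 : ℕ) + I * ((n + j : ℕ) - 0) * y + -0 : ℂ) =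
      (-(T / 2) * (y : ℂ) ^ (2 : ℕ) + 0 * y + 0 : ℂ) + (((n + j : ℕ) : ℝ) * y : ℝ) * I := by
      push_cast; ring
    rw [this, Complex.add_re, Complex.re_ofReal_mul, Complex.I_re]
    simp
  have hsum : Summable fun n => ∫ y, ‖G n y‖ := by
    simp only [hnorm]
    have h1 : (fun n : ℕ => ∫ y : ℝ, ‖ζ‖ ^ j * ‖κ‖ ^ n / (n.factorial : ℝ) *
        ‖cexp (-(T / 2) * y ^ (2 : ℕ) + 0 * y + 0)‖) =
        fun n : ℕ => (‖κ‖ ^ n / (n.factorial : ℝ)) * (‖ζ‖ ^ j *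
          ∫ y : ℝ, ‖cexp (-(T / 2) * y ^ (2 : ℕ) + 0 * y + 0)‖) := by
      funext n
      rw [integral_const_mul]
      ring
    rw [h1]
    exact (Real.summable_pow_div_factorial _).mul_right _
  have hs := hasSum_integral_of_summable_integral_norm hint hsum
  -- the integrand
  have hI : ∀ y : ℝ, (∑' n, G n y) = gi j ζ t (y * I) := by
    intro y
    have h1 : HasSum (fun n : ℕ => (κ * cexp (y * I)) ^ n / (n.factorial : ℂ))
        (cexp (κ * cexp (y * I))) := by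
      rw [Complex.exp_eq_exp_ℂ]
      exact NormedSpace.expSeries_div_hasSum_exp (κ * NormedSpace.exp (y * I))
    have h2 := h1.mul_left ((ζ * cexp (y * I)) ^ j * cexp (-(T / 2) * y ^ (2 : ℕ)))
    have h3 : (fun n : ℕ => (ζ * cexp (y * I)) ^ j * cexp (-(T / 2) * y ^ (2 : ℕ)) *
        ((κ * cexp (y * I)) ^ n / (n.factorial : ℂ))) = fun n => G n y := by
      funext n
      rw [hG]
      simp only
      have h4 : cexp (-(T / 2) * (y : ℂ) ^ (2 : ℕ) + I * ((n + j : ℕ) - 0) * y + -0) =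
          cexp (-(T / 2) * y ^ (2 : ℕ)) * cexp (y * I) ^ (n + j) := by
        rw [← Complex.exp_nat_mul, ← Complex.exp_add]
        congr 1
        push_cast
        ring
      rw [h4, pow_add, mul_pow, mul_pow]
      ring
    rw [h3] at h2
    rw [h2.tsum_eq, gi, mul_assoc, ← Complex.exp_add]
    congr 2
    unfold Ph
    rw [mul_pow, I_sq, hκ, hT, div_eq_mul_inv, div_eq_mul_inv]
    ring
  rw [integral_congr_ae (Filter.Eventually.of_forall hI)] at hs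
  -- the sum
  have hE := (SokamU.Ef_hasSum ht.le j z).mul_left (SokamU.gcst T * t ^ j)
  have hEq : (fun n : ℕ => SokamU.gcst T * t ^ j *
      (cexp (-(t * (((n + j : ℕ) : ℂ) * ((n + j : ℕ) - 1) / 2))) * z ^ (n + j) /
      (n.factorial : ℂ))) = fun n => ∫ y : ℝ, G n y := by
    funext n
    rw [hG]
    simp only
    rw [integral_const_mul, SokamU.gauss_term hTre]
    have h5 : z ^ (n + j) = κ ^ (n + j) * cexp (((n + j : ℕ) : ℂ) * (-t / 2)) := by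
      rw [Complex.exp_nat_mul, ← mul_pow]
    have h6 : cexp (-(t * (((n + j : ℕ) : ℂ) * ((n + j : ℕ) - 1) / 2))) *
          cexp (((n + j : ℕ) : ℂ) * (-t / 2)) =
        cexp (-0 - (((n + j : ℕ) : ℂ) - 0) ^ (2 : ℕ) / (2 * T)) := by
      rw [← Complex.exp_add]
      congr 1
      rw [hT]
      field_simp
      ring
    have h7 : t ^ j * κ ^ (n + j) = ζ ^ j * κ ^ n := by
      rw [pow_add, mul_left_comm, ← mul_pow, hκ, mul_div_cancel₀ _ ht0, mul_comm]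
    rw [h5, ← h6]
    calc _ = (t ^ j * κ ^ (n + j)) * (SokamU.gcst T *
          (cexp (-(t * (((n + j : ℕ) : ℂ) * ((n + j : ℕ) - 1) / 2))) *
          cexp (((n + j : ℕ) : ℂ) * (-t / 2)))) / (n.factorial : ℂ) := by ring
      _ = _ := by rw [h7]; ring
  rw [hEq] at hE
  rw [← mul_assoc]
  exact hE.unique hs

/-- The formula with `R = 1` and the middle part as an integral. -/
private theorem rep_one_pos {t : ℂ} (ht : 0 < t.re) (ζ : ℂ) (j : ℕ) :
    SokamU.gcst t⁻¹ * (t ^ j * SokamU.Ef j t (ζ / t * cexp (-t / 2))) =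
      (∫ s in Set.Ioi (1 : ℝ), gi j ζ t (1 + s * I)) +
      (∫ s in Set.Ioi (1 : ℝ), gi j ζ t (-1 + s * -I)) +
      (1 - I) * ∫ s in (-1 : ℝ)..1, gi j ζ t (s + s * I) := by
  have hA : 0 < (t⁻¹).re := SokamU.gauss_inv_re ht
  set A : ℝ := (t⁻¹).re with hAdef
  set B : ℝ := (t⁻¹).im with hBdef
  set K : ℝ := (3 * ‖ζ‖) ^ j * Real.exp (A / 2 + B ^ (2 : ℕ) / A + 3 * ‖ζ‖ * ‖t⁻¹‖) with hK
  have hG : Integrable fun y : ℝ => K * Real.exp (-(A / 4) * y ^ (2 : ℕ)) :=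
    (integrable_exp_neg_mul_sq (by positivity)).const_mul _
  have hG0 : Tendsto (fun y : ℝ => K * Real.exp (-(A / 4) * y ^ (2 : ℕ))) (cocompact ℝ) (𝓝 0) := by
    have h1 := (tendsto_rpow_abs_mul_exp_neg_mul_sq_cocompact (a := A / 4) (by positivity) 0).const_mul K
    simpa using h1
  have hb : ∀ x y : ℝ, |x| ≤ 1 * 1 → ‖gi j ζ t (x + y * I)‖ ≤
      K * Real.exp (-(A / 4) * y ^ (2 : ℕ)) := by
    intro x y hx
    rw [one_mul] at hx
    refine (gi_norm j ζ t hx y).trans ?_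
    rw [hK, exp_mul3]
    refine mul_le_mul_of_nonneg_left (Real.exp_le_exp.2 ?_) (by positivity)
    rw [← hAdef, ← hBdef]
    have hx2 : x ^ (2 : ℕ) ≤ 1 := by
      rw [← sq_abs]; nlinarith [abs_nonneg x]
    have h1 : -(B * x * y) ≤ B ^ (2 : ℕ) / A + A / 4 * y ^ (2 : ℕ) := by
      have h2 : 0 ≤ (B * x / √A + √A / 2 * y) ^ (2 : ℕ) := sq_nonneg _
      have hs : √A ≠ 0 := (Real.sqrt_pos.2 hA).ne'
      have hss : √A ^ (2 : ℕ) = A := Real.sq_sqrt hA.le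
      have h3 : (B * x / √A + √A / 2 * y) ^ (2 : ℕ) = B ^ (2 : ℕ) * x ^ (2 : ℕ) / A + B * x * y + A / 4 * y ^ (2 : ℕ) := by
        have : (B * x / √A + √A / 2 * y) ^ (2 : ℕ) =
          (B * x) ^ (2 : ℕ) / √A ^ (2 : ℕ) + B * x * y * (√A / √A) + √A ^ (2 : ℕ) / 4 * y ^ (2 : ℕ) := by ring
        rw [this, hss, div_self hs]; ring
      have h4 : B ^ (2 : ℕ) * x ^ (2 : ℕ) / A ≤ B ^ (2 : ℕ) / A := by
        apply div_le_div_of_nonneg_right _ hA.le
        nlinarith [sq_nonneg B]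
      linarith
    nlinarith
  have h := SokamU.contour (gi_diff j ζ t) (c := 1) (s1 := 1) zero_le_one zero_lt_one hG hG0 hb
  rw [gen ht, h]
  congr 1
  · congr 1
    · simp
    · rw [← integral_Iic_eq_integral_Iio, ← integral_comp_neg_Ioi]
      simp
  · congr 1
    · simp
    · congr 1
      funext s
      congr 1
      push_cast
      ring

private theorem gi_tail (j : ℕ) (ζ t : ℂ) (hA : 0 ≤ (t⁻¹).re) {s : ℝ} (hs : 1 ≤ s) :
    ‖gi j ζ t (1 + s * I)‖ ≤ (3 * ‖ζ‖) ^ j * Real.exp ((t⁻¹).re / 2 + 3 * ‖ζ‖ * ‖t⁻¹‖ -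
      ((t⁻¹).re / 2 + (t⁻¹).im) * s) ∧
    ‖gi j ζ t (-1 + s * -I)‖ ≤ (3 * ‖ζ‖) ^ j * Real.exp ((t⁻¹).re / 2 + 3 * ‖ζ‖ * ‖t⁻¹‖ -
      ((t⁻¹).re / 2 + (t⁻¹).im) * s) := by
  have h1 := gi_norm j ζ t (x := 1) (by simp) s
  have h2 := gi_norm j ζ t (x := -1) (by simp) (-s)
  have e1 : (((1 : ℝ) : ℂ) + s * I) = 1 + s * I := by simp
  have e2 : (((-1 : ℝ) : ℂ) + ((-s : ℝ) : ℂ) * I) = -1 + s * -I := by push_cast; ring
  rw [e1] at h1
  rw [e2] at h2
  have h3 : (t⁻¹).re * s ≤ (t⁻¹).re * s ^ (2 : ℕ) :=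
    mul_le_mul_of_nonneg_left (by nlinarith) hA
  refine ⟨h1.trans (mul_le_mul_of_nonneg_left (Real.exp_le_exp.2 ?_) (by positivity)),
    h2.trans (mul_le_mul_of_nonneg_left (Real.exp_le_exp.2 ?_) (by positivity))⟩
  · nlinarith
  · nlinarith

private theorem gi_line_cont (j : ℕ) (ζ t a b : ℂ) :
    Continuous fun s : ℝ => gi j ζ t (a + s * b) :=
  (gi_cont j ζ t).comp (by fun_prop)

private theorem gi_int (j : ℕ) (ζ : ℂ) {t : ℂ} (ht : t ≠ 0) (hre : 0 ≤ t.re) (him : t.im ≤ 0) :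
    IntegrableOn (fun s : ℝ => gi j ζ t (1 + s * I)) (Set.Ioi 1) ∧
    IntegrableOn (fun s : ℝ => gi j ζ t (-1 + s * -I)) (Set.Ioi 1) := by
  have hN : 0 < normSq t := normSq_pos.2 ht
  have hA : 0 ≤ (t⁻¹).re := by rw [inv_re]; exact div_nonneg hre hN.le
  have hB : 0 ≤ (t⁻¹).im := by rw [inv_im]; exact div_nonneg (by linarith) hN.le
  have hAB : 0 < (t⁻¹).re / 2 + (t⁻¹).im := by
    rcases hA.lt_or_eq with h | h
    · linarith
    rcases hB.lt_or_eq with h' | h'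
    · linarith
    exfalso
    apply inv_ne_zero ht
    apply Complex.ext
    · rw [← h]; simp
    · rw [← h']; simp
  set δ : ℝ := (t⁻¹).re / 2 + (t⁻¹).im with hδ
  set K : ℝ := (3 * ‖ζ‖) ^ j * Real.exp ((t⁻¹).re / 2 + 3 * ‖ζ‖ * ‖t⁻¹‖) with hK
  have hbd : IntegrableOn (fun s : ℝ => K * Real.exp (-δ * s)) (Set.Ioi 1) :=
    (exp_neg_integrableOn_Ioi 1 hAB).const_mul K
  have e : ∀ s : ℝ, (3 * ‖ζ‖) ^ j * Real.exp ((t⁻¹).re / 2 + 3 * ‖ζ‖ * ‖t⁻¹‖ - δ * s) =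
      K * Real.exp (-δ * s) := by
    intro s
    rw [hK, exp_mul3]
    congr 2
    ring
  constructor
  · refine hbd.mono' (gi_line_cont j ζ t 1 I).aestronglyMeasurable ?_
    filter_upwards [ae_restrict_mem measurableSet_Ioi] with s hs
    rw [← e]
    exact (gi_tail j ζ t hA (le_of_lt hs)).1
  · refine hbd.mono' (gi_line_cont j ζ t (-1) (-I)).aestronglyMeasurable ?_
    filter_upwards [ae_restrict_mem measurableSet_Ioi] with s hs
    rw [← e]
    exact (gi_tail j ζ t hA (le_of_lt hs)).2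

/-- The formula with `R = 1` in general. -/
private theorem rep_one {t : ℂ} (ht : t ≠ 0) (hre : 0 ≤ t.re) (him : t.im ≤ 0) (ζ : ℂ) (j : ℕ) :
    SokamU.gcst t⁻¹ * (t ^ j * SokamU.Ef j t (ζ / t * cexp (-t / 2))) =
      (∫ s in Set.Ioi (1 : ℝ), gi j ζ t (1 + s * I)) +
      (∫ s in Set.Ioi (1 : ℝ), gi j ζ t (-1 + s * -I)) +
      (1 - I) * ∫ s in (-1 : ℝ)..1, gi j ζ t (s + s * I) := by
  rcases hre.lt_or_eq with h | h
  · exact rep_one_pos h ζ j
  have him' : t.im < 0 := by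
    rcases him.lt_or_eq with h' | h'
    · exact h'
    · exact absurd (Complex.ext h.symm h') ht
  -- t + ε
  have hne : ∀ ε : ℝ, t + ε ≠ 0 := by
    intro ε h0
    have := congrArg Complex.im h0
    simp at this
    linarith
  have htε : Tendsto (fun ε : ℝ => t + ε) (𝓝[>] 0) (𝓝 t) := by
    have h1 : ContinuousAt (fun ε : ℝ => t + ε) 0 := by fun_prop
    have h2 := h1.tendsto.mono_left (nhdsWithin_le_nhds (s := Set.Ioi 0))
    simpa using h2
  have hinv : Tendsto (fun ε : ℝ => (t + ε)⁻¹) (𝓝[>] 0) (𝓝 t⁻¹) := htε.inv₀ ht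
  have hgi : ∀ H : ℂ, Tendsto (fun ε : ℝ => gi j ζ (t + ε) H) (𝓝[>] 0) (𝓝 (gi j ζ t H)) := by
    intro H
    unfold gi
    refine Tendsto.const_mul _ ?_
    refine (Complex.continuous_exp.tendsto _).comp ?_
    simp only [div_eq_mul_inv]
    exact hinv.const_mul _
  -- bounds of 1/(t+ε)
  set b : ℝ := -t.im with hb
  have hb0 : 0 < b := by rw [hb]; linarith
  have hnsq : ∀ ε : ℝ, normSq (t + ε) = ε ^ (2 : ℕ) + b ^ (2 : ℕ) := by
    intro ε
    rw [normSq_apply, add_re, add_im, ofReal_re, ofReal_im, ← h, hb]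
    ring
  have hA : ∀ ε : ℝ, ((t + ε)⁻¹).re = ε / (ε ^ (2 : ℕ) + b ^ (2 : ℕ)) := by
    intro ε
    rw [inv_re, hnsq, add_re, ofReal_re, ← h, zero_add]
  have hB : ∀ ε : ℝ, ((t + ε)⁻¹).im = b / (ε ^ (2 : ℕ) + b ^ (2 : ℕ)) := by
    intro ε
    rw [inv_im, hnsq, add_im, ofReal_im, add_zero]
  have hT : ∀ ε : ℝ, ‖(t + ε)⁻¹‖ ≤ 1 / b := by
    intro ε
    rw [norm_inv, one_div]
    apply inv_anti₀ hb0
    have := Complex.abs_im_le_norm (t + ε)
    rw [add_im, ofReal_im, add_zero] at this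
    refine le_trans ?_ this
    rw [hb]
    exact neg_le_abs _
  set δ : ℝ := b / (1 + b ^ (2 : ℕ)) with hδ
  have hδ0 : 0 < δ := by positivity
  set K : ℝ := (3 * ‖ζ‖) ^ j * Real.exp (1 / b ^ (2 : ℕ) + 3 * ‖ζ‖ * (1 / b)) with hK
  have hbd : IntegrableOn (fun s : ℝ => K * Real.exp (-δ * s)) (Set.Ioi 1) :=
    (exp_neg_integrableOn_Ioi 1 hδ0).const_mul K
  have hev : ∀ᶠ ε : ℝ in 𝓝[>] 0, 0 < ε ∧ ε < 1 := by
    have := Ioo_mem_nhdsGT (show (0 : ℝ) < 1 by norm_num)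
    filter_upwards [this] with ε hε
    exact hε
  have hcmp : ∀ ε : ℝ, 0 < ε → ε < 1 → ∀ s : ℝ, 1 ≤ s →
      (3 * ‖ζ‖) ^ j * Real.exp (((t + ε)⁻¹).re / 2 + 3 * ‖ζ‖ * ‖(t + ε)⁻¹‖ -
      (((t + ε)⁻¹).re / 2 + ((t + ε)⁻¹).im) * s) ≤ K * Real.exp (-δ * s) := by
    intro ε h0 h1 s hs
    rw [hK, exp_mul3]
    refine mul_le_mul_of_nonneg_left (Real.exp_le_exp.2 ?_) (by positivity)
    have a1 : 0 ≤ ((t + ε)⁻¹).re := by rw [hA]; positivity
    have a2 : ((t + ε)⁻¹).re ≤ 1 / b ^ (2 : ℕ) := by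
      rw [hA]
      apply div_le_div₀ zero_le_one h1.le (by positivity)
      nlinarith
    have a3 : δ ≤ ((t + ε)⁻¹).im := by
      rw [hB, hδ]
      apply div_le_div_of_nonneg_left hb0.le (by positivity)
      nlinarith
    have a4 : 3 * ‖ζ‖ * ‖(t + ε)⁻¹‖ ≤ 3 * ‖ζ‖ * (1 / b) :=
      mul_le_mul_of_nonneg_left (hT ε) (by positivity)
    have a5 : δ * s ≤ ((t + ε)⁻¹).im * s := mul_le_mul_of_nonneg_right a3 (by linarith)
    have a6 : 0 ≤ ((t + ε)⁻¹).re * s := mul_nonneg a1 (by linarith)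
    nlinarith
  have l1 : Tendsto (fun ε : ℝ => ∫ s in Set.Ioi (1 : ℝ), gi j ζ (t + ε) (1 + s * I)) (𝓝[>] 0)
      (𝓝 (∫ s in Set.Ioi (1 : ℝ), gi j ζ t (1 + s * I))) := by
    refine tendsto_integral_filter_of_dominated_convergence _ ?_ ?_ hbd ?_
    · exact Eventually.of_forall fun ε => (gi_line_cont j ζ (t + ε) 1 I).aestronglyMeasurable
    · filter_upwards [hev] with ε hε
      filter_upwards [ae_restrict_mem measurableSet_Ioi] with s hs
      have a1 : 0 ≤ ((t + ε)⁻¹).re := by rw [hA]; have := hε.1; positivity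
      exact (gi_tail j ζ (t + ε) a1 (le_of_lt hs)).1.trans (hcmp ε hε.1 hε.2 s (le_of_lt hs))
    · exact Eventually.of_forall fun s => hgi _
  have l2 : Tendsto (fun ε : ℝ => ∫ s in Set.Ioi (1 : ℝ), gi j ζ (t + ε) (-1 + s * -I)) (𝓝[>] 0)
      (𝓝 (∫ s in Set.Ioi (1 : ℝ), gi j ζ t (-1 + s * -I))) := by
    refine tendsto_integral_filter_of_dominated_convergence _ ?_ ?_ hbd ?_
    · exact Eventually.of_forall fun ε => (gi_line_cont j ζ (t + ε) (-1) (-I)).aestronglyMeasurable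
    · filter_upwards [hev] with ε hε
      filter_upwards [ae_restrict_mem measurableSet_Ioi] with s hs
      have a1 : 0 ≤ ((t + ε)⁻¹).re := by rw [hA]; have := hε.1; positivity
      exact (gi_tail j ζ (t + ε) a1 (le_of_lt hs)).2.trans (hcmp ε hε.1 hε.2 s (le_of_lt hs))
    · exact Eventually.of_forall fun s => hgi _
  have l3 : Tendsto (fun ε : ℝ => ∫ s in (-1 : ℝ)..1, gi j ζ (t + ε) (s + s * I)) (𝓝[>] 0)
      (𝓝 (∫ s in (-1 : ℝ)..1, gi j ζ t (s + s * I))) := by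
    refine intervalIntegral.tendsto_integral_filter_of_dominated_convergence
      (fun _ => (3 * ‖ζ‖) ^ j * Real.exp (3 * ‖ζ‖ * (1 / b))) ?_ ?_ ?_ ?_
    · refine Eventually.of_forall fun ε => ?_
      exact ((gi_cont j ζ (t + ε)).comp (by fun_prop :
        Continuous fun s : ℝ => (s : ℂ) + s * I)).aestronglyMeasurable
    · filter_upwards [hev] with ε hε
      refine Eventually.of_forall fun s hs => ?_
      rw [Set.uIoc_of_le (by norm_num)] at hs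
      have hs1 : |s| ≤ 1 := abs_le.2 ⟨hs.1.le, hs.2⟩
      refine (gi_norm j ζ (t + ε) hs1 s).trans ?_
      refine mul_le_mul_of_nonneg_left (Real.exp_le_exp.2 ?_) (by positivity)
      have a3 : 0 ≤ ((t + ε)⁻¹).im := by rw [hB]; positivity
      have a4 : 3 * ‖ζ‖ * ‖(t + ε)⁻¹‖ ≤ 3 * ‖ζ‖ * (1 / b) :=
        mul_le_mul_of_nonneg_left (hT ε) (by positivity)
      have a5 : 0 ≤ ((t + ε)⁻¹).im * (s * s) := mul_nonneg a3 (mul_self_nonneg s)
      nlinarith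
    · exact intervalIntegrable_const
    · exact Eventually.of_forall fun s _ => hgi _
  have l4 : Tendsto (fun ε : ℝ => SokamU.gcst (t + ε)⁻¹) (𝓝[>] 0) (𝓝 (SokamU.gcst t⁻¹)) := by
    simp only [SokamU.gcst_inv]
    refine Tendsto.cpow (htε.const_mul _) tendsto_const_nhds ?_
    right
    have : ((2 * Real.pi * t : ℂ)).im = 2 * Real.pi * t.im := by
      rw [show (2 * Real.pi * t : ℂ) = ((2 * Real.pi : ℝ) : ℂ) * t by push_cast; ring,
        im_ofReal_mul]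
    rw [this]
    have hpi := Real.pi_pos
    nlinarith
  have lz : Tendsto (fun ε : ℝ => ζ / (t + ε) * cexp (-(t + ε) / 2)) (𝓝[>] 0)
      (𝓝 (ζ / t * cexp (-t / 2))) := by
    refine Tendsto.mul (tendsto_const_nhds.div htε ht) ?_
    exact (Complex.continuous_exp.tendsto _).comp ((htε.neg).div_const 2)
  have l5 : Tendsto (fun ε : ℝ => SokamU.Ef j (t + ε) (ζ / (t + ε) * cexp (-(t + ε) / 2)))
      (𝓝[>] 0) (𝓝 (SokamU.Ef j t (ζ / t * cexp (-t / 2)))) := by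
    unfold SokamU.Ef
    refine Tendsto.mul (Tendsto.mul (lz.pow j) ?_) ?_
    · exact (Complex.continuous_exp.tendsto _).comp ((htε.mul_const _).neg)
    · have h1 : Tendsto (fun ε : ℝ => ((t + ε : ℂ),
          cexp (-((t + ε) * j)) * (ζ / (t + ε) * cexp (-(t + ε) / 2)))) (𝓝[>] 0)
          (𝓝 (t, cexp (-(t * j)) * (ζ / t * cexp (-t / 2)))) := by
        refine htε.prodMk_nhds (Tendsto.mul ?_ lz)
        exact (Complex.continuous_exp.tendsto _).comp ((htε.mul_const _).neg)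
      have h2 : Tendsto (fun p : ℂ × ℂ => SokamU.E p.1 p.2) (𝓝[{p : ℂ × ℂ | 0 ≤ p.1.re}]
          (t, cexp (-(t * j)) * (ζ / t * cexp (-t / 2))))
          (𝓝 (SokamU.E t (cexp (-(t * j)) * (ζ / t * cexp (-t / 2))))) :=
        SokamU.continuousOn_E (t, cexp (-(t * j)) * (ζ / t * cexp (-t / 2))) hre
      have h3 : Tendsto (fun ε : ℝ => ((t + ε : ℂ),
          cexp (-((t + ε) * j)) * (ζ / (t + ε) * cexp (-(t + ε) / 2)))) (𝓝[>] 0)
          (𝓝[{p : ℂ × ℂ | 0 ≤ p.1.re}] (t, cexp (-(t * j)) * (ζ / t * cexp (-t / 2)))) := by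
        refine tendsto_nhdsWithin_iff.2 ⟨h1, ?_⟩
        filter_upwards [hev] with ε hε
        show 0 ≤ ((t + ε : ℂ)).re
        rw [add_re, ofReal_re, ← h, zero_add]
        exact hε.1.le
      have h4 : Tendsto (fun ε : ℝ => SokamU.E (t + ε)
          (cexp (-((t + ε) * j)) * (ζ / (t + ε) * cexp (-(t + ε) / 2)))) (𝓝[>] 0)
          (𝓝 (SokamU.E t (cexp (-(t * j)) * (ζ / t * cexp (-t / 2))))) := by
        have h5 := Tendsto.comp h2 h3
        rw [Function.comp_def] at h5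
        exact h5
      exact h4
  have L : Tendsto (fun ε : ℝ => SokamU.gcst (t + ε)⁻¹ * ((t + ε) ^ j *
      SokamU.Ef j (t + ε) (ζ / (t + ε) * cexp (-(t + ε) / 2)))) (𝓝[>] 0)
      (𝓝 (SokamU.gcst t⁻¹ * (t ^ j * SokamU.Ef j t (ζ / t * cexp (-t / 2))))) :=
    l4.mul ((htε.pow j).mul l5)
  have R : Tendsto (fun ε : ℝ => (∫ s in Set.Ioi (1 : ℝ), gi j ζ (t + ε) (1 + s * I)) +
      (∫ s in Set.Ioi (1 : ℝ), gi j ζ (t + ε) (-1 + s * -I)) +
      (1 - I) * ∫ s in (-1 : ℝ)..1, gi j ζ (t + ε) (s + s * I)) (𝓝[>] 0)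
      (𝓝 ((∫ s in Set.Ioi (1 : ℝ), gi j ζ t (1 + s * I)) +
      (∫ s in Set.Ioi (1 : ℝ), gi j ζ t (-1 + s * -I)) +
      (1 - I) * ∫ s in (-1 : ℝ)..1, gi j ζ t (s + s * I))) :=
    (l1.add l2).add (l3.const_mul (1 - I))
  have E : ∀ᶠ ε : ℝ in 𝓝[>] 0, SokamU.gcst (t + ε)⁻¹ * ((t + ε) ^ j *
      SokamU.Ef j (t + ε) (ζ / (t + ε) * cexp (-(t + ε) / 2))) =
      (∫ s in Set.Ioi (1 : ℝ), gi j ζ (t + ε) (1 + s * I)) +
      (∫ s in Set.Ioi (1 : ℝ), gi j ζ (t + ε) (-1 + s * -I)) +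
      (1 - I) * ∫ s in (-1 : ℝ)..1, gi j ζ (t + ε) (s + s * I) := by
    filter_upwards [hev] with ε hε
    refine rep_one_pos ?_ ζ j
    rw [add_re, ofReal_re, ← h, zero_add]
    exact hε.1
  exact tendsto_nhds_unique (L.congr' E) R

private theorem path {g P : ℂ → ℂ} (hg : Continuous g) (hP : ∀ z, HasDerivAt P (g z) z)
    (a b : ℂ) (u v : ℝ) :
    (∫ s in u..v, g (a + s * b)) * b = P (a + v * b) - P (a + u * b) := by
  have hd : ∀ s ∈ Set.uIcc u v,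
      HasDerivAt (fun s : ℝ => P (a + s * b)) (g (a + s * b) * b) s := by
    intro s _
    have h1 : HasDerivAt (fun z : ℂ => a + z * b) b (s : ℂ) := by
      simpa using ((hasDerivAt_id (s : ℂ)).mul_const b).const_add a
    exact ((hP (a + s * b)).comp (s : ℂ) h1).comp_ofReal
  have hc : Continuous fun s : ℝ => g (a + s * b) * b := by fun_prop
  rw [← intervalIntegral.integral_mul_const]
  exact intervalIntegral.integral_eq_sub_of_hasDerivAt hd (hc.intervalIntegrable _ _)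

private theorem shift {g P : ℂ → ℂ} (hg : Continuous g) (hP : ∀ z, HasDerivAt P (g z) z)
    (a b : ℂ) (R : ℝ) (hi : IntegrableOn (fun s : ℝ => g (a + s * b)) (Set.Ioi 1)) :
    (∫ s in Set.Ioi (1 : ℝ), g (a + s * b)) * b =
      (∫ s in Set.Ioi R, g (a + s * b)) * b - (P (a + b) - P (a + R * b)) := by
  have hc : Continuous fun s : ℝ => g (a + s * b) := by fun_prop
  have hiR : IntegrableOn (fun s : ℝ => g (a + s * b)) (Set.Ioi R) := by
    have h1 : IntegrableOn (fun s : ℝ => g (a + s * b)) (Set.Icc R 1 ∪ Set.Ioi 1) :=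
      (hc.integrableOn_Icc).union hi
    refine h1.mono_set fun s hs => ?_
    rcases le_or_gt s 1 with h | h
    · exact Or.inl ⟨le_of_lt hs, h⟩
    · exact Or.inr h
  have h1 := intervalIntegral.integral_interval_add_Ioi hiR hi
  have h2 := path hg hP a b R 1
  rw [ofReal_one, one_mul] at h2
  rw [← h1, add_mul, h2]
  ring

private theorem rep_gen {t ζ : ℂ} (ht : t ≠ 0) (hre : 0 ≤ t.re) (him : t.im ≤ 0) (R : ℝ) (j : ℕ)
    {P : ℂ → ℂ} (hP : ∀ H, HasDerivAt P (gi j ζ t H) H) :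
    t ^ j * SokamU.Ef j t (ζ / t * cexp (-t / 2)) * (2 * Real.pi * t) ^ (1 / 2 : ℂ) * I =
      (P (1 + R * I) - P (-1 - R * I)) +
      (∫ s in Set.Ioi R, gi j ζ t (1 + s * I)) * I +
      (∫ s in Set.Iio (-R), gi j ζ t (-1 + s * I)) * I := by
  have h1 := rep_one ht hre him ζ j
  rw [SokamU.gcst_inv] at h1
  obtain ⟨i1, i2⟩ := gi_int j ζ ht hre him
  have s1 := shift (gi_cont j ζ t) hP 1 I R i1
  have s2 := shift (gi_cont j ζ t) hP (-1) (-I) R i2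
  have m := path (gi_cont j ζ t) hP 0 (1 + I) (-1) 1
  have e1 : (fun s : ℝ => gi j ζ t (0 + s * (1 + I))) = fun s : ℝ => gi j ζ t (s + s * I) := by
    funext s; congr 1; ring
  have e2 : (0 : ℂ) + ((1 : ℝ) : ℂ) * (1 + I) = 1 + I := by push_cast; ring
  have e3 : (0 : ℂ) + ((-1 : ℝ) : ℂ) * (1 + I) = -1 - I := by push_cast; ring
  have e4 : (-1 : ℂ) + -I = -1 - I := by ring
  have e5 : (-1 : ℂ) + R * -I = -1 - R * I := by ring
  rw [e1, e2, e3] at m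
  rw [e4, e5] at s2
  have e6 : (∫ s in Set.Iio (-R), gi j ζ t (-1 + s * I)) =
      ∫ s in Set.Ioi R, gi j ζ t (-1 + s * -I) := by
    rw [← integral_Iic_eq_integral_Iio, ← integral_comp_neg_Ioi]
    simp
  rw [e6]
  have e7 : (1 - I) * I = 1 + I := by
    have := I_mul_I
    linear_combination -this
  linear_combination I * h1 + s1 - s2 + m +
    (∫ s in (-1 : ℝ)..1, gi j ζ t (s + s * I)) * e7

theorem rep_E {t ζ : ℂ} (ht : t ≠ 0) (hre : 0 ≤ t.re) (him : t.im ≤ 0) (R : ℝ) {P : ℂ → ℂ}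
    (hP : ∀ H, HasDerivAt P (cexp (Ph ζ H / t)) H) :
    SokamU.E t (ζ / t * cexp (-t / 2)) * (2 * Real.pi * t) ^ (1 / 2 : ℂ) * I =
      (P (1 + R * I) - P (-1 - R * I)) +
      (∫ s in Set.Ioi R, cexp (Ph ζ (1 + s * I) / t)) * I +
      (∫ s in Set.Iio (-R), cexp (Ph ζ (-1 + s * I) / t)) * I := by
  have hg : gi 0 ζ t = fun H => cexp (Ph ζ H / t) := by
    funext H; unfold gi; simp
  have h := rep_gen (ζ := ζ) ht hre him R 0 (P := P) (by rw [hg]; exact hP)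
  rw [hg, SokamU.Ef_zero, pow_zero, one_mul] at h
  exact h

theorem rep_DE {t ζ : ℂ} (ht : t ≠ 0) (hre : 0 ≤ t.re) (him : t.im ≤ 0) (R : ℝ) {Q : ℂ → ℂ}
    (hQ : ∀ H, HasDerivAt Q (ζ * cexp H * cexp (Ph ζ H / t)) H) :
    t * SokamU.DE t (ζ / t * cexp (-t / 2)) * (2 * Real.pi * t) ^ (1 / 2 : ℂ) * I =
      (Q (1 + R * I) - Q (-1 - R * I)) +
      (∫ s in Set.Ioi R, ζ * cexp (1 + s * I) * cexp (Ph ζ (1 + s * I) / t)) * I +
      (∫ s in Set.Iio (-R), ζ * cexp (-1 + s * I) * cexp (Ph ζ (-1 + s * I) / t)) * I := by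
  have hg : gi 1 ζ t = fun H => ζ * cexp H * cexp (Ph ζ H / t) := by
    funext H; unfold gi; simp
  have h := rep_gen (ζ := ζ) ht hre him R 1 (P := Q) (by rw [hg]; exact hQ)
  rw [hg, SokamU.Ef_one, pow_one] at h
  exact h

end SokamV

end

/-! ### Lib_MP_af4de1_v.Fibre -/

section
/-!
# The fibre lemma [SV-FIB]

`Gh u ζ (X+TI) = u.re (X²-T²)/2 - u.im X T + e^X Re(uζe^{TI}) ≤ Gp u ζ X T`.  For fixed `T`, `Gp` is convex in `X` (`u.re ≥ 0`), and
`Gp` is continuous in `(X,T)`.  So `{X : Gp u ζ X T < c}` is an interval: two points of the same fibre are joined by a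
horizontal segment.  `fibre`: relation `P T T' := ∀ X X', Gp X T < c → Gp X' T' < c → Conn (X+TI) (X'+T'I)` on `Icc Ta Tb`
(`isPreconnected_Icc`, `IsPreconnected.induction₂`): local step: given `T`, choose `X0` with `Gp X0 T < c`, then
`Gp X0 T' < c` for `T'` near `T`: go horizontally to `X0` at `T`, vertically to `T'`, horizontally to `X'`.  Symmetry and
transitivity (through a point of the middle fibre, nonempty) are clear.
-/

namespace SokamV

open Complex Filter Topology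

private theorem Fibre_re (w : ℂ) (x : ℝ) : ((x : ℂ) * w).re = x * w.re := by
  rw [Complex.re_ofReal_mul]

theorem Gh_eq (u ζ : ℂ) (X T : ℝ) : Gh u ζ (X + T * I) =
    u.re * (X ^ (2 : ℕ) - T ^ (2 : ℕ)) / 2 - u.im * X * T + Real.exp X * (u * ζ * cexp (T * I)).re := by
  have h1 : u * Ph ζ (X + T * I) =
      ((((X ^ (2 : ℕ) - T ^ (2 : ℕ)) / 2 : ℝ) : ℂ) * u + (((X * T : ℝ) : ℂ)) * (u * I)) +
        ((Real.exp X : ℝ) : ℂ) * (u * ζ * cexp (T * I)) := by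
    unfold Ph
    rw [Complex.exp_add]
    push_cast
    linear_combination (-(u * T ^ (2 : ℕ)) / 2 : ℂ) * (-1 : ℂ) * (Complex.I_sq)
  unfold Gh
  rw [h1, Complex.add_re, Complex.add_re, Fibre_re, Fibre_re, Fibre_re]
  have h2 : (u * I).re = - u.im := by simp
  rw [h2]
  ring

theorem Gh_le_Gp (u ζ : ℂ) (X T : ℝ) : Gh u ζ (X + T * I) ≤ Gp u ζ X T := by
  rw [Gh_eq]
  unfold Gp
  have h1 : Real.exp X * (u * ζ * cexp (T * I)).re ≤ Real.exp X * max ((u * ζ * cexp (T * I)).re) 0 :=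
    mul_le_mul_of_nonneg_left (le_max_left _ _) (Real.exp_pos X).le
  linarith

theorem Gh_eq_Gp {u ζ : ℂ} {T : ℝ} (h : 0 ≤ (u * ζ * cexp (T * I)).re) (X : ℝ) :
    Gh u ζ (X + T * I) = Gp u ζ X T := by
  rw [Gh_eq]
  unfold Gp
  rw [max_eq_left h]

theorem continuous_Gp (u ζ : ℂ) : Continuous (fun p : ℝ × ℝ => Gp u ζ p.1 p.2) := by
  unfold Gp
  have h1 : Continuous (fun p : ℝ × ℝ => (u * ζ * cexp ((p.2 : ℂ) * I)).re) := by
    fun_prop
  have h2 : Continuous (fun p : ℝ × ℝ => max ((u * ζ * cexp ((p.2 : ℂ) * I)).re) 0) :=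
    h1.max continuous_const
  have h3 : Continuous (fun p : ℝ × ℝ => Real.exp p.1) := by fun_prop
  have h4 : Continuous (fun p : ℝ × ℝ => u.re * (p.1 ^ (2 : ℕ) - p.2 ^ (2 : ℕ)) / 2 - u.im * p.1 * p.2) := by
    fun_prop
  exact h4.add (h3.mul h2)

theorem convexOn_Gp {u : ℂ} (hu : 0 ≤ u.re) (ζ : ℂ) (T : ℝ) :
    ConvexOn ℝ Set.univ (fun X => Gp u ζ X T) := by
  refine ⟨convex_univ, ?_⟩
  intro x _ y _ a b ha hb hab
  simp only [smul_eq_mul]
  unfold Gp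
  have hK : 0 ≤ max ((u * ζ * cexp (T * I)).re) 0 := le_max_right _ _
  generalize max ((u * ζ * cexp (T * I)).re) 0 = K at hK ⊢
  have h1 : Real.exp (a * x + b * y) ≤ a * Real.exp x + b * Real.exp y := by
    have := convexOn_exp.2 (Set.mem_univ x) (Set.mem_univ y) ha hb hab
    simpa only [smul_eq_mul] using this
  have h2 : (a * x + b * y) ^ (2 : ℕ) ≤ a * x ^ (2 : ℕ) + b * y ^ (2 : ℕ) := by
    have hb' : b = 1 - a := by linarith
    subst hb'
    linarith only [mul_nonneg (mul_nonneg ha hb) (sq_nonneg (x - y))]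
  have h3 := mul_le_mul_of_nonneg_left h2 hu
  have h4 := mul_le_mul_of_nonneg_right h1 hK
  have hb' : b = 1 - a := by linarith
  subst hb'
  linarith only [h3, h4]

/-- Horizontally, in one fibre. -/
theorem conn_horizontal {u ζ : ℂ} (hu : 0 ≤ u.re) {c : ℝ} {X X' T : ℝ} (h : Gp u ζ X T < c)
    (h' : Gp u ζ X' T < c) : Conn (Gh u ζ) c (X + T * I) (X' + T * I) := by
  apply Conn.segment
  intro s hs hs'
  have h1 : (X + T * I : ℂ) + s * ((X' + T * I) - (X + T * I)) =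
      (((1 - s) * X + s * X' : ℝ) : ℂ) + T * I := by
    push_cast
    ring
  rw [h1]
  refine (Gh_le_Gp u ζ _ T).trans_lt ?_
  have h2 := (convexOn_Gp hu ζ T).2 (Set.mem_univ X) (Set.mem_univ X') (by linarith : 0 ≤ 1 - s) hs
    (by ring)
  simp only [smul_eq_mul] at h2
  refine h2.trans_lt ?_
  rcases hs.eq_or_lt with h0 | h0
  · rw [← h0]
    linarith
  · linarith only [mul_lt_mul_of_pos_left h' h0, mul_le_mul_of_nonneg_left h.le (by linarith : 0 ≤ 1 - s)]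

theorem fibre {u ζ : ℂ} (hu : 0 ≤ u.re) {c Ta Tb : ℝ} (hab : Ta ≤ Tb)
    (h : ∀ T ∈ Set.Icc Ta Tb, ∃ X : ℝ, Gp u ζ X T < c) {Xa Xb : ℝ} (ha : Gp u ζ Xa Ta < c)
    (hb : Gp u ζ Xb Tb < c) : Conn (Gh u ζ) c (Xa + Ta * I) (Xb + Tb * I) := by
  have key : ∀ T ∈ Set.Icc Ta Tb, ∀ T' ∈ Set.Icc Ta Tb, ∀ X X' : ℝ, Gp u ζ X T < c →
      Gp u ζ X' T' < c → Conn (Gh u ζ) c (X + T * I) (X' + T' * I) := by
    intro T hT T' hT'
    refine isPreconnected_Icc.induction₂ (fun T T' => ∀ X X' : ℝ, Gp u ζ X T < c →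
      Gp u ζ X' T' < c → Conn (Gh u ζ) c (X + T * I) (X' + T' * I)) ?_ ?_ ?_ hT hT'
    · intro T hT
      obtain ⟨X0, hX0⟩ := h T hT
      have hc : Continuous (fun T' : ℝ => Gp u ζ X0 T') :=
        (continuous_Gp u ζ).comp (continuous_const.prodMk continuous_id)
      have he : ∀ᶠ T' in 𝓝 T, Gp u ζ X0 T' < c := hc.continuousAt.eventually_lt_const hX0
      obtain ⟨ε, hε, hball⟩ := Metric.eventually_nhds_iff_ball.1 he
      refine mem_nhdsWithin_of_mem_nhds ?_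
      filter_upwards [Metric.ball_mem_nhds T hε] with T' hT' X X' hX hX'
      refine (conn_horizontal hu hX hX0).trans (Conn.trans (B := (X0 + T' * I : ℂ)) ?_
        (conn_horizontal hu (hball T' hT') hX'))
      apply Conn.segment
      intro s hs hs'
      have h1 : (X0 + T * I : ℂ) + s * ((X0 + T' * I) - (X0 + T * I)) =
          (X0 : ℂ) + ((T + s * (T' - T) : ℝ) : ℂ) * I := by
        push_cast
        ring
      rw [h1]
      refine (Gh_le_Gp u ζ _ _).trans_lt (hball _ ?_)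
      rw [Metric.mem_ball, Real.dist_eq] at hT' ⊢
      have h2 : T + s * (T' - T) - T = s * (T' - T) := by ring
      rw [h2, abs_mul, abs_of_nonneg hs]
      calc s * |T' - T| ≤ 1 * |T' - T| := mul_le_mul_of_nonneg_right hs' (abs_nonneg _)
        _ < ε := by rw [one_mul]; exact hT'
    · intro T1 T2 T3 _ h2 _ k1 k2 X X' hX hX'
      obtain ⟨X0, hX0⟩ := h T2 h2
      exact (k1 X X0 hX hX0).trans (k2 X0 X' hX0 hX')
    · intro T1 T2 _ _ k X X' hX hX'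
      exact (k X' X hX' hX).symm
  exact key Ta ⟨le_rfl, hab⟩ Tb ⟨hab, le_rfl⟩ Xa Xb ha hb

/-- The vertical half lines at the ends. -/
theorem Gp_tail {u ζ : ℂ} (hu : ‖u‖ = 1) (hre : 0 ≤ u.re) (him : 0 ≤ u.im) {T : ℝ} (hT : 1 ≤ T) :
    Gp u ζ 1 T ≤ 1 / 2 + 3 * ‖ζ‖ - T / 2 ∧ Gp u ζ (-1) (-T) ≤ 1 / 2 + 3 * ‖ζ‖ - T / 2 := by
  have hab : 1 ≤ u.re + u.im := by
    have h1 : u.re ^ (2 : ℕ) + u.im ^ (2 : ℕ) = 1 := by
      have h2 := Complex.sq_norm u
      rw [hu, Complex.normSq_apply] at h2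
      linarith only [h2]
    nlinarith only [hre, him, h1]
  have hm : ∀ S : ℝ, max ((u * ζ * cexp (S * I)).re) 0 ≤ ‖ζ‖ := by
    intro S
    refine max_le ?_ (norm_nonneg _)
    refine (Complex.re_le_norm _).trans ?_
    rw [norm_mul, norm_mul, hu, Complex.norm_exp_ofReal_mul_I, one_mul, mul_one]
  have hm0 : ∀ S : ℝ, 0 ≤ max ((u * ζ * cexp (S * I)).re) 0 := fun S => le_max_right _ _
  have hq : u.re * (1 - T ^ (2 : ℕ)) / 2 - u.im * T ≤ 1 / 2 - T / 2 := by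
    have h1 : u.re * (1 - T ^ (2 : ℕ)) / 2 ≤ - (u.re * (T - 1)) := by
      linarith only [mul_nonneg hre (mul_nonneg (by linarith : (0:ℝ) ≤ T - 1) (by linarith : (0:ℝ) ≤ T - 1))]
    have h2 : - (u.im * T) ≤ - (u.im * (T - 1)) := by linarith only [him]
    have h3 : (T - 1) ≤ (u.re + u.im) * (T - 1) := by
      linarith only [mul_nonneg (by linarith : (0:ℝ) ≤ u.re + u.im - 1) (by linarith : (0:ℝ) ≤ T - 1)]
    nlinarith only [him, hT, hab, h1]
  have he1 : Real.exp 1 ≤ 3 := by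
    have := Real.exp_one_lt_d9
    linarith
  have he2 : Real.exp (-1) ≤ 3 := by
    have : Real.exp (-1) ≤ 1 := Real.exp_le_one_iff.2 (by norm_num)
    linarith
  constructor
  · unfold Gp
    have h1 : Real.exp 1 * max ((u * ζ * cexp (T * I)).re) 0 ≤ 3 * ‖ζ‖ :=
      mul_le_mul he1 (hm T) (hm0 T) (by norm_num)
    have h2 : u.re * (1 ^ (2 : ℕ) - T ^ (2 : ℕ)) / 2 - u.im * 1 * T = u.re * (1 - T ^ (2 : ℕ)) / 2 - u.im * T := by ring
    rw [h2]
    linarith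
  · unfold Gp
    have h1 : Real.exp (-1) * max ((u * ζ * cexp (((-T : ℝ) : ℂ) * I)).re) 0 ≤ 3 * ‖ζ‖ :=
      mul_le_mul he2 (hm (-T)) (hm0 (-T)) (by norm_num)
    have h2 : u.re * ((-1) ^ (2 : ℕ) - (-T) ^ (2 : ℕ)) / 2 - u.im * (-1) * (-T) =
        u.re * (1 - T ^ (2 : ℕ)) / 2 - u.im * T := by ring
    rw [h2]
    linarith

end SokamV

end

/-! ### Lib_MP_af4de1_v.TopB -/

section
/-!
# A line which reaches the top level contains a saddle point [SV-TOPB]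

One lift, `ζ ≠ 0`, `c > 0`, `‖u‖ = 1`, `a = u.re ≥ 0`, `b = u.im ≥ 0`, `ρ(T) = Re(uζe^{TI})`.
(1) `ρ(T) > 0`: otherwise `Gp 0 T = -aT²/2 ≤ 0 < c`.
(2) The minimum of `X ↦ Gp X T = a(X²-T²)/2 - bXT + ρe^X` exists: `→ ∞` for `X → ∞`; for `X → -∞`: if `a > 0` clear; if `a = 0` then
`b = 1` and `T > 0` (`T < 0`: `Gp → -∞` for `X → -∞`; `T = 0`: `Gp X 0 = ρe^X → 0 < c`), so `-XT → ∞`.  Call it `X`; its value is
`≥ c`, and not `> c` because of `hmax`.  So `Gp X T = c` and `∂_X = aX - bT + ρe^X = 0`.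
(3) `∂_T G = 0` at `(X,T)`, where `G` is `Gh`: suppose `∂_T G = g ≠ 0`, take `T' = T + δ` with the sign of `g`.  For `|X'-X| ≤ r0`,
`G(X',T') ≥ G(X',T) + |δ||g|/2 - Cδ² ≥ c + |δ||g|/4` (`r0`, `δ` small); `G(X ± r0, T') ≥ c + η0/2 > G(X,T')` with
`η0 = min G(X ± r0, T) - c > 0` (strict convexity of `G(·,T)`, `ρ(T) > 0`), and convexity of `G(·,T')` in `X'`
gives `G(X',T') ≥ c + η0/2` for `|X'-X| ≥ r0`.  So all of the line `T'` is `≥ c1 > c`, against `hmax`.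
(4) Both real derivatives of `Re(u Ph)` vanish, so `u (S + ζe^S) = 0`, `S + ζe^S = 0`.
-/

namespace SokamV

open Complex Filter Topology

private theorem TopB_hasDerivAt (ζ H : ℂ) : HasDerivAt (Ph ζ) (H + ζ * cexp H) H := by
  have h := (((hasDerivAt_id H).pow 2).div_const 2).add ((Complex.hasDerivAt_exp H).const_mul ζ)
  have h2 : HasDerivAt (Ph ζ) (((2 : ℕ) : ℂ) * id H ^ (2 - 1) * 1 / 2 + ζ * cexp H) H := h
  have h3 : ((2 : ℕ) : ℂ) * id H ^ (2 - 1) * 1 / 2 + ζ * cexp H = H + ζ * cexp H := by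
    simp
  rw [h3] at h2
  exact h2

theorem deriv_Ph (ζ H : ℂ) : deriv (Ph ζ) H = H + ζ * cexp H :=
  (TopB_hasDerivAt ζ H).deriv

theorem deriv_deriv_Ph (ζ H : ℂ) : deriv (deriv (Ph ζ)) H = 1 + ζ * cexp H := by
  have h1 : deriv (Ph ζ) = fun H => H + ζ * cexp H := funext (deriv_Ph ζ)
  rw [h1]
  exact ((hasDerivAt_id H).add ((Complex.hasDerivAt_exp H).const_mul ζ)).deriv

theorem differentiable_Ph (ζ : ℂ) : Differentiable ℂ (Ph ζ) :=
  fun H => (TopB_hasDerivAt ζ H).differentiableAt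

private theorem TopB_re (w : ℂ) (T : ℝ) :
    (w * cexp (T * I)).re = w.re * Real.cos T - w.im * Real.sin T := by
  rw [Complex.mul_re, Complex.exp_ofReal_mul_I_re, Complex.exp_ofReal_mul_I_im]

private theorem TopB_im (w : ℂ) (T : ℝ) :
    (w * cexp (T * I)).im = w.re * Real.sin T + w.im * Real.cos T := by
  rw [Complex.mul_im, Complex.exp_ofReal_mul_I_re, Complex.exp_ofReal_mul_I_im]

private theorem TopB_reDeriv (w : ℂ) (T : ℝ) :
    HasDerivAt (fun T : ℝ => (w * cexp (T * I)).re) (-(w * cexp (T * I)).im) T := by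
  have h1 : (fun T : ℝ => (w * cexp (T * I)).re) =
      fun T : ℝ => w.re * Real.cos T - w.im * Real.sin T := funext (TopB_re w)
  rw [h1, TopB_im]
  have h2 := ((Real.hasDerivAt_cos T).const_mul w.re).sub ((Real.hasDerivAt_sin T).const_mul w.im)
  have h3 : w.re * -Real.sin T - w.im * Real.cos T = -(w.re * Real.sin T + w.im * Real.cos T) := by
    ring
  rw [h3] at h2
  exact h2

private theorem TopB_quad (A B C : ℝ) (hA : 0 < A) :
    Tendsto (fun X : ℝ => A * X ^ (2 : ℕ) + B * X + C) atTop atTop := by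
  have h1 : Tendsto (fun X : ℝ => A * X + B) atTop atTop :=
    tendsto_atTop_add_const_right _ _ (tendsto_id.const_mul_atTop hA)
  have h2 := h1.atTop_mul_atTop₀ tendsto_id
  have h3 := tendsto_atTop_add_const_right atTop C h2
  refine h3.congr (fun X => ?_)
  simp only [id]
  ring

/-- (1) and (2). -/
theorem top_min {u ζ : ℂ} (hu : ‖u‖ = 1) (hre : 0 ≤ u.re) (him : 0 ≤ u.im) {c T : ℝ}
    (hc : 0 < c) (hT : ∀ X : ℝ, c ≤ Gp u ζ X T) : 0 < (u * ζ * cexp (T * I)).re ∧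
      (u.re = 0 → 0 < T) ∧ ∃ X : ℝ, (∀ X' : ℝ, Gp u ζ X T ≤ Gp u ζ X' T) ∧
        u.re * X - u.im * T + Real.exp X * (u * ζ * cexp (T * I)).re = 0 := by
  have h1 : 0 < (u * ζ * cexp (T * I)).re := by
    by_contra h
    have h2 := hT 0
    unfold Gp at h2
    rw [max_eq_right (not_lt.1 h)] at h2
    nlinarith [mul_nonneg hre (sq_nonneg T)]
  have hG : ∀ X : ℝ, Gp u ζ X T = u.re * (X ^ (2 : ℕ) - T ^ (2 : ℕ)) / 2 - u.im * X * T +
      Real.exp X * (u * ζ * cexp (T * I)).re := by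
    intro X
    unfold Gp
    rw [max_eq_left h1.le]
  have h3 : u.re = 0 → 0 < T := by
    intro h0
    by_contra h
    have hT0 : T ≤ 0 := not_lt.1 h
    have h4 : Tendsto (fun X : ℝ => Real.exp X * (u * ζ * cexp (T * I)).re) atBot (𝓝 0) := by
      have := Real.tendsto_exp_atBot.mul_const (u * ζ * cexp (T * I)).re
      rwa [zero_mul] at this
    obtain ⟨X, hX1, hX2⟩ := ((h4.eventually (gt_mem_nhds hc)).and (eventually_le_atBot (0 : ℝ))).exists
    have h5 := hT X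
    rw [hG X, h0] at h5
    have h6 : 0 ≤ u.im * (X * T) := mul_nonneg him (mul_nonneg_of_nonpos_of_nonpos hX2 hT0)
    nlinarith
  refine ⟨h1, h3, ?_⟩
  set r : ℝ := (u * ζ * cexp (T * I)).re with hr
  set f : ℝ → ℝ := fun X => u.re * (X ^ (2 : ℕ) - T ^ (2 : ℕ)) / 2 - u.im * X * T + Real.exp X * r with hf
  have hGf : ∀ X, Gp u ζ X T = f X := hG
  have hcont : Continuous f := by
    rw [hf]
    fun_prop
  have htop : Tendsto f atTop atTop := by
    have h4 := TopB_quad (r / 2) (r - u.im * T) (r - u.re * T ^ (2 : ℕ) / 2) (by positivity)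
    refine tendsto_atTop_mono' atTop ?_ h4
    filter_upwards [eventually_ge_atTop (0 : ℝ)] with X hX
    have h5 := Real.quadratic_le_exp_of_nonneg hX
    have h6 := mul_le_mul_of_nonneg_right h5 h1.le
    have h7 : 0 ≤ u.re * X ^ (2 : ℕ) := mul_nonneg hre (sq_nonneg X)
    simp only [hf]
    nlinarith
  have hbot : Tendsto f atBot atTop := by
    have h4 : Tendsto (fun Y : ℝ => f (-Y)) atTop atTop := by
      rcases hre.eq_or_lt with h0 | h0
      · have hTp := h3 h0.symm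
        have hb : 0 < u.im := by
          rcases him.eq_or_lt with h8 | h8
          · exfalso
            have h9 : u = 0 := Complex.ext h0.symm h8.symm
            rw [h9, norm_zero] at hu
            exact zero_ne_one hu
          · exact h8
        have h5 : Tendsto (fun Y : ℝ => (u.im * T) * Y) atTop atTop :=
          tendsto_id.const_mul_atTop (mul_pos hb hTp)
        refine tendsto_atTop_mono (fun Y => ?_) h5
        simp only [hf, ← h0]
        have h6 : 0 ≤ Real.exp (-Y) * r := mul_nonneg (Real.exp_pos _).le h1.le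
        nlinarith
      · have h5 := TopB_quad (u.re / 2) (u.im * T) (- (u.re * T ^ (2 : ℕ) / 2)) (by positivity)
        refine tendsto_atTop_mono (fun Y => ?_) h5
        simp only [hf]
        have h6 : 0 ≤ Real.exp (-Y) * r := mul_nonneg (Real.exp_pos _).le h1.le
        nlinarith
    have h5 := h4.comp tendsto_neg_atBot_atTop
    refine h5.congr (fun X => ?_)
    simp
  have hlim : Tendsto f (cocompact ℝ) atTop := by
    rw [cocompact_eq_atBot_atTop]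
    exact hbot.sup htop
  obtain ⟨X, hX⟩ := hcont.exists_forall_le hlim
  refine ⟨X, fun X' => by rw [hGf, hGf]; exact hX X', ?_⟩
  have hd : HasDerivAt f (u.re * X - u.im * T + Real.exp X * r) X := by
    have e1 : HasDerivAt (fun X : ℝ => u.re * (X ^ (2 : ℕ) - T ^ (2 : ℕ)) / 2) (u.re * (((2 : ℕ) : ℝ) * X ^ (2 - 1)) / 2) X :=
      ((((hasDerivAt_pow 2 X).sub_const (T ^ (2 : ℕ))).const_mul u.re).div_const 2)
    have e2 : HasDerivAt (fun X : ℝ => u.im * X * T) (u.im * 1 * T) X :=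
      (((hasDerivAt_id X).const_mul u.im).mul_const T)
    have e3 : HasDerivAt (fun X : ℝ => Real.exp X * r) (Real.exp X * r) X :=
      (Real.hasDerivAt_exp X).mul_const r
    have e4 := (e1.sub e2).add e3
    have e5 : u.re * (((2 : ℕ) : ℝ) * X ^ (2 - 1)) / 2 - u.im * 1 * T + Real.exp X * r =
        u.re * X - u.im * T + Real.exp X * r := by
      norm_num
      ring
    rw [e5] at e4
    exact e4
  have hmin : IsLocalMin f X := Filter.Eventually.of_forall hX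
  exact hmin.hasDerivAt_eq_zero hd

private theorem TopB_exp {s : ℝ} (hs : 0 < s) (h : ℝ) : -(s - 1) ^ (2 : ℕ) ≤ Real.exp h - 1 - s * h := by
  have h1 := Real.add_one_le_exp (h - Real.log s)
  have h2 : Real.exp h = s * Real.exp (h - Real.log s) := by
    rw [Real.exp_sub, Real.exp_log hs]
    field_simp
  have h3 := Real.log_le_sub_one_of_pos hs
  have h4 := mul_le_mul_of_nonneg_left h1 hs.le
  have h5 := mul_le_mul_of_nonneg_left h3 hs.le
  rw [h2]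
  nlinarith

theorem top_point {u ζ : ℂ} (hu : ‖u‖ = 1) (hre : 0 ≤ u.re) (him : 0 ≤ u.im) {c T : ℝ}
    (hc : 0 < c) (hT : ∀ X : ℝ, c ≤ Gp u ζ X T)
    (hmax : ∀ T' c1 : ℝ, c < c1 → ∃ X : ℝ, Gp u ζ X T' < c1) :
    ∃ X : ℝ, Gp u ζ X T = c ∧ Gh u ζ (X + T * I) = c ∧ 0 < (u * ζ * cexp (T * I)).re ∧
      (X + T * I : ℂ) + ζ * cexp (X + T * I) = 0 := by
  obtain ⟨hpos, -, X, hX, hX0⟩ := top_min hu hre him hc hT
  have hval : Gp u ζ X T = c := by
    refine le_antisymm ?_ (hT X)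
    by_contra h
    obtain ⟨X', hX'⟩ := hmax T _ (not_le.1 h)
    exact absurd (hX X') (not_le.2 hX')
  have hGh : Gh u ζ (X + T * I) = c := by
    rw [Gh_eq_Gp hpos.le, hval]
  -- the functions of `T`
  set ρ : ℝ → ℝ := fun T => (u * ζ * cexp (T * I)).re with hρ
  set σ : ℝ := (u * ζ * cexp (T * I)).im with hσ
  have dρ : HasDerivAt ρ (-σ) T := TopB_reDeriv (u * ζ) T
  have dk : HasDerivAt (fun T' : ℝ => u.re * X - u.im * T' + Real.exp X * ρ T')
      (-(u.im * 1) + Real.exp X * (-σ)) T :=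
    ((((hasDerivAt_id T).const_mul u.im).const_sub (u.re * X))).add (dρ.const_mul (Real.exp X))
  have dG : HasDerivAt (fun T' : ℝ => u.re * (X ^ (2 : ℕ) - T' ^ (2 : ℕ)) / 2 - u.im * X * T' + Real.exp X * ρ T')
      (u.re * (-(((2 : ℕ) : ℝ) * T ^ (2 - 1))) / 2 - u.im * X * 1 + Real.exp X * (-σ)) T :=
    (((((hasDerivAt_pow 2 T).const_sub (X ^ (2 : ℕ))).const_mul u.re).div_const 2).sub
      ((hasDerivAt_id T).const_mul (u.im * X))).add (dρ.const_mul (Real.exp X))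
  set k : ℝ → ℝ := fun T' : ℝ => u.re * X - u.im * T' + Real.exp X * ρ T' with hk
  set G0 : ℝ → ℝ := fun T' : ℝ => u.re * (X ^ (2 : ℕ) - T' ^ (2 : ℕ)) / 2 - u.im * X * T' + Real.exp X * ρ T' with hG0
  have hk0 : k T = 0 := hX0
  have hm0 : 0 < Real.exp X * ρ T := mul_pos (Real.exp_pos X) hpos
  have dΦ : HasDerivAt (fun T' => G0 T' - k T' ^ (2 : ℕ) / (Real.exp X * ρ T'))
      (-(u.re * T + u.im * X + Real.exp X * σ)) T := by
    have e1 := dG.sub ((dk.pow 2).div (dρ.const_mul (Real.exp X)) hm0.ne')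
    refine e1.congr_deriv ?_
    simp only [Pi.pow_apply, hk0]
    norm_num
    ring
  have hρc : ContinuousAt ρ T := dρ.continuousAt
  have hkc : ContinuousAt k T := dk.continuousAt
  have hev : ∀ᶠ T' in 𝓝 T, 0 < ρ T' ∧ 0 < Real.exp X * ρ T' - k T' := by
    refine (hρc.eventually (lt_mem_nhds hpos)).and ?_
    have h1 : ContinuousAt (fun T' => Real.exp X * ρ T' - k T') T :=
      (hρc.const_mul (Real.exp X)).sub hkc
    refine h1.eventually (lt_mem_nhds ?_)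
    show 0 < Real.exp X * ρ T - k T
    rw [hk0, sub_zero]
    exact hm0
  have hΦ : IsLocalMax (fun T' => G0 T' - k T' ^ (2 : ℕ) / (Real.exp X * ρ T')) T := by
    have hΦ0 : G0 T - k T ^ (2 : ℕ) / (Real.exp X * ρ T) = c := by
      have h1 : G0 T = c := by
        rw [← hval]
        unfold Gp
        rw [max_eq_left hpos.le]
      rw [hk0, h1]
      norm_num
    filter_upwards [hev] with T' hT'
    show G0 T' - k T' ^ (2 : ℕ) / (Real.exp X * ρ T') ≤ G0 T - k T ^ (2 : ℕ) / (Real.exp X * ρ T)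
    rw [hΦ0]
    by_contra hlt
    obtain ⟨X', hX'⟩ := hmax T' _ (not_le.1 hlt)
    refine absurd hX' (not_lt.2 ?_)
    obtain ⟨p1, p2⟩ := hT'
    set m : ℝ := Real.exp X * ρ T' with hm
    have hmp : 0 < m := mul_pos (Real.exp_pos X) p1
    have hs : 0 < 1 - k T' / m := by
      rw [sub_pos, div_lt_one hmp]
      linarith
    have h1 := TopB_exp hs (X' - X)
    have h2 : Gp u ζ X' T' = G0 T' + u.re * (X' - X) ^ (2 : ℕ) / 2 +
        m * (Real.exp (X' - X) - 1 - (1 - k T' / m) * (X' - X)) := by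
      have e1 : Gp u ζ X' T' = u.re * (X' ^ (2 : ℕ) - T' ^ (2 : ℕ)) / 2 - u.im * X' * T' + Real.exp X' * ρ T' := by
        unfold Gp
        rw [max_eq_left (show 0 ≤ (u * ζ * cexp (T' * I)).re from p1.le)]
      have e2 : Real.exp X' = Real.exp X * Real.exp (X' - X) := by
        rw [← Real.exp_add]
        congr 1
        ring
      have e3 : m * (k T' / m) = k T' := by
        field_simp
      have e4 : m * (Real.exp (X' - X) - 1 - (1 - k T' / m) * (X' - X)) =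
          m * Real.exp (X' - X) - m - m * (X' - X) + (m * (k T' / m)) * (X' - X) := by
        ring
      rw [e1, e2, e4, e3]
      simp only [hG0, hk, hm]
      ring
    have h3 := mul_le_mul_of_nonneg_left h1 hmp.le
    have h4 : m * -(1 - k T' / m - 1) ^ (2 : ℕ) = -(k T' ^ (2 : ℕ) / m) := by
      field_simp
      ring
    rw [h4] at h3
    have h5 : 0 ≤ u.re * (X' - X) ^ (2 : ℕ) := mul_nonneg hre (sq_nonneg _)
    rw [h2]
    linarith
  have hg := hΦ.hasDerivAt_eq_zero dΦ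
  refine ⟨X, hval, hGh, hpos, ?_⟩
  have hu0 : u ≠ 0 := by
    intro h
    rw [h, norm_zero] at hu
    exact zero_ne_one hu
  have hprod : u * ((X + T * I : ℂ) + ζ * cexp (X + T * I)) = 0 := by
    have e1 : u * ((X + T * I : ℂ) + ζ * cexp (X + T * I)) =
        u * (X + T * I) + ((Real.exp X : ℝ) : ℂ) * (u * ζ * cexp (T * I)) := by
      rw [Complex.exp_add]
      push_cast
      ring
    rw [e1]
    apply Complex.ext
    · rw [Complex.add_re, Complex.re_ofReal_mul, Complex.zero_re]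
      have e2 : (u * ((X : ℂ) + T * I)).re = u.re * X - u.im * T := by
        simp [Complex.mul_re]
      rw [e2]
      exact hX0
    · rw [Complex.add_im, Complex.im_ofReal_mul, Complex.zero_im]
      have e2 : (u * ((X : ℂ) + T * I)).im = u.re * T + u.im * X := by
        simp [Complex.mul_im]
      rw [e2]
      show u.re * T + u.im * X + Real.exp X * σ = 0
      linarith
  exact (mul_eq_zero.1 hprod).resolve_left hu0

end SokamV

end

/-! ### Lib_MP_af4de1_v.Val -/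

section
/-!
# Asymptotics of `E` and `DE` along a sequence, from a `Good` contour [SV-VAL]

`exists_fam`: `Ψ n = Ph (ζ n)`, `Ψ0 = Ph ζ0`, `w n H = ζ n e^H`, `u n = ‖t n‖/t n`, `τ n = ‖t n‖`; `u n Ψ n H/τ n = Ph (ζ n) H/t n`; primitives of entire
functions exist (see `Contour.lean` in `Lib_MP_af4de1_u`, or `P H = ∫_0^1 f(sH) H ds`); locally uniform convergence:
`‖Ph (ζ n) H - Ph ζ0 H‖ = ‖ζ n - ζ0‖ e^{Re H}`.
`val_*`: `Good` gives `c' < c` and `R0`; choose `R ≥ max(R0, 1)` with `1/2 + 3(‖ζ0‖+1) - R/2 ≤ c'`.  `rep_E`, `rep_DE` (with `P n`, `Q n`)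
and `tail_pos`, `tail_neg`: the tails are `≤ C exp(c'/‖t n‖)` for large `n`; the middle part is `chain_nil/one/two`.  Factor `I` of modulus
`1`: `J` is the one of `chain_*`.  At a saddle point `w0 S = ζ0 e^S = -S` (`Sad.crit`, `deriv_Ph`).
-/

namespace SokamV

open Complex Filter Topology

/-- Conditions on a sequence of parameters. -/
structure Par (t ζ : ℕ → ℂ) (ζ0 u0 : ℂ) : Prop where
  ne : ∀ n, t n ≠ 0
  re : ∀ n, 0 ≤ (t n).re
  im : ∀ n, (t n).im ≤ 0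
  lim : Tendsto t atTop (𝓝 0)
  dir : Tendsto (fun n => (‖t n‖ : ℂ) / t n) atTop (𝓝 u0)
  zet : Tendsto ζ atTop (𝓝 ζ0)

/-- `E √(2πt) i` at the point `ζ`. -/
noncomputable def Ev (t ζ : ℂ) : ℂ :=
  SokamU.E t (ζ / t * cexp (-t / 2)) * (2 * Real.pi * t) ^ (1 / 2 : ℂ) * I

/-- `t DE √(2πt) i` at the point `ζ`. -/
noncomputable def Dv (t ζ : ℂ) : ℂ :=
  t * SokamU.DE t (ζ / t * cexp (-t / 2)) * (2 * Real.pi * t) ^ (1 / 2 : ℂ) * I

private theorem va_prim {g : ℂ → ℂ} (hg : Differentiable ℂ g) :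
    ∃ P : ℂ → ℂ, ∀ z, HasDerivAt P (g z) z := by
  obtain ⟨P, hP⟩ := hg.isExactOn_univ
  exact ⟨P, fun z => hP z (Set.mem_univ z)⟩

private theorem va_lim {ζ : ℕ → ℂ} {ζ0 : ℂ} (h : Tendsto ζ atTop (𝓝 ζ0)) {f : ℕ → ℂ → ℂ}
    {f0 : ℂ → ℂ} (hf : ∀ n H, f0 H - f n H = (ζ0 - ζ n) * cexp H) :
    TendstoLocallyUniformly f f0 atTop := by
  rw [Metric.tendstoLocallyUniformly_iff]
  intro ε hε x
  refine ⟨{y | ‖cexp y‖ < ‖cexp x‖ + 1}, ?_, ?_⟩
  · have h1 : Continuous fun y : ℂ => ‖cexp y‖ := by fun_prop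
    exact (isOpen_lt h1 continuous_const).mem_nhds (by simp)
  · have h2 : Tendsto (fun n => ‖ζ0 - ζ n‖) atTop (𝓝 0) := by
      have := ((tendsto_const_nhds (x := ζ0)).sub h).norm
      simpa using this
    have hp : 0 < ‖cexp x‖ + 1 := by (clear * -; positivity)
    filter_upwards [h2.eventually_lt_const (u := ε / (‖cexp x‖ + 1)) (by (clear * - hε; positivity))] with n hn y hy
    rw [dist_eq_norm, hf, norm_mul]
    rw [lt_div_iff₀ hp] at hn
    refine lt_of_le_of_lt ?_ hn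
    exact mul_le_mul_of_nonneg_left (le_of_lt hy) (norm_nonneg _)

theorem exists_fam {t ζ : ℕ → ℂ} {ζ0 u0 : ℂ} (h : Par t ζ ζ0 u0) : ∃ F : Fam,
    F.Ψ0 = Ph ζ0 ∧ F.w0 = (fun H => ζ0 * cexp H) ∧ F.u0 = u0 ∧ (∀ n, F.τ n = ‖t n‖) ∧
    (∀ n, F.u n = ‖t n‖ / t n) ∧ (∀ n, F.Ψ n = Ph (ζ n)) ∧ ∀ n, F.w n = fun H => ζ n * cexp H := by
  have hPh : ∀ n, Differentiable ℂ (Ph (ζ n)) := fun n => differentiable_Ph (ζ n)
  have hw : ∀ n, Differentiable ℂ fun H => ζ n * cexp H := fun n => by fun_prop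
  have hP : ∀ n, ∃ P : ℂ → ℂ, ∀ H, HasDerivAt P
      (cexp ((‖t n‖ : ℂ) / t n * Ph (ζ n) H / ((‖t n‖ : ℝ) : ℂ))) H := fun n => by
    refine va_prim ?_
    exact (((hPh n).const_mul _).div_const _).cexp
  have hQ : ∀ n, ∃ Q : ℂ → ℂ, ∀ H, HasDerivAt Q
      (ζ n * cexp H * cexp ((‖t n‖ : ℂ) / t n * Ph (ζ n) H / ((‖t n‖ : ℝ) : ℂ))) H := fun n => by
    refine va_prim ?_
    exact (hw n).mul (((hPh n).const_mul _).div_const _).cexp
  choose P hP using hP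
  choose Q hQ using hQ
  refine ⟨{ Ψ := fun n => Ph (ζ n), Ψ0 := Ph ζ0, w := fun n H => ζ n * cexp H,
            w0 := fun H => ζ0 * cexp H, u := fun n => ‖t n‖ / t n, u0 := u0,
            τ := fun n => ‖t n‖, P := P, Q := Q, hΨ := hPh, hw := hw,
            hΨlim := va_lim h.zet fun n H => ?_, hwlim := va_lim h.zet fun n H => ?_,
            hulim := h.dir, hτ := fun n => norm_pos_iff.2 (h.ne n), hτlim := ?_,
            hP := hP, hQ := hQ }, rfl, rfl, rfl, fun _ => rfl, fun _ => rfl, fun _ => rfl,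
            fun _ => rfl⟩
  · unfold Ph
    ring
  · ring
  · have := h.lim.norm
    rwa [norm_zero] at this

private theorem va_exp {τ : ℕ → ℝ} (hτ : ∀ n, 0 < τ n) (hτ0 : Tendsto τ atTop (𝓝 0))
    {C η δ : ℝ} (hη : 0 < η) (hδ : 0 < δ) : ∀ᶠ n in atTop, C ≤ η * Real.exp (δ / τ n) := by
  have h2 : ∀ᶠ n in atTop, τ n < η * δ / (|C| + 1) := hτ0.eventually_lt_const (by (clear * - hη hδ; positivity))
  filter_upwards [h2] with n hn
  have h3 : δ / τ n ≤ Real.exp (δ / τ n) := by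
    have := Real.add_one_le_exp (δ / τ n)
    linarith
  have h4 : τ n * (|C| + 1) < η * δ := by
    rwa [lt_div_iff₀ (by (clear * -; positivity))] at hn
  calc C ≤ |C| + 1 := by linarith [le_abs_self C]
    _ ≤ η * (δ / τ n) := by
        rw [← mul_div_assoc, le_div_iff₀ (hτ n)]
        linarith
    _ ≤ η * Real.exp (δ / τ n) := mul_le_mul_of_nonneg_left h3 hη.le

private theorem va_small {τ : ℕ → ℝ} (hτ : ∀ n, 0 < τ n) (hτ0 : Tendsto τ atTop (𝓝 0))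
    {c c' : ℝ} (hc : c' < c) {J R : ℕ → ℂ} (hJ : Big τ c J) (hR : Small τ c' R) {η : ℝ}
    (hη : 0 < η) : ∀ᶠ n in atTop, ‖R n‖ ≤ η * ‖J n‖ := by
  obtain ⟨C, hC⟩ := hR
  have hδ : 0 < (c - c') / 2 := by linarith
  filter_upwards [hC, hJ _ hδ, va_exp (C := C) hτ hτ0 hη hδ] with n h1 h2 h3
  have h4 : Real.exp ((c - (c - c') / 2) / τ n) =
      Real.exp (((c - c') / 2) / τ n) * Real.exp (c' / τ n) := by
    rw [← Real.exp_add]
    congr 1
    ring
  calc ‖R n‖ ≤ C * Real.exp (c' / τ n) := h1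
    _ ≤ (η * Real.exp (((c - c') / 2) / τ n)) * Real.exp (c' / τ n) :=
        mul_le_mul_of_nonneg_right h3 (Real.exp_pos _).le
    _ = η * Real.exp ((c - (c - c') / 2) / τ n) := by rw [h4]; ring
    _ ≤ η * ‖J n‖ := mul_le_mul_of_nonneg_left h2 hη.le

private theorem va_add {τ : ℕ → ℝ} {c : ℝ} {R R' R'' : ℕ → ℂ} (h : Small τ c R)
    (h' : Small τ c R') (e : ∀ n, R'' n = R n + R' n) : Small τ c R'' := by
  obtain ⟨C, hC⟩ := h
  obtain ⟨C', hC'⟩ := h'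
  refine ⟨C + C', ?_⟩
  filter_upwards [hC, hC'] with n h1 h2
  calc ‖R'' n‖ = ‖R n + R' n‖ := by rw [e n]
    _ ≤ ‖R n‖ + ‖R' n‖ := norm_add_le _ _
    _ ≤ (C + C') * Real.exp (c / τ n) := by rw [add_mul]; exact add_le_add h1 h2

/-- The contour integral up to the tails. -/
private theorem va_main {t ζ : ℕ → ℂ} {ζ0 u0 : ℂ} (h : Par t ζ ζ0 u0) {c : ℝ} {L : List ℂ}
    (hg : Good u0 ζ0 c L) : ∃ (F : Fam) (c' R : ℝ), F.w0 = (fun H => ζ0 * cexp H) ∧
      (∀ n, F.τ n = ‖t n‖) ∧ c' < c ∧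
      Chain F.u0 F.Ψ0 c c' (-1 - R * I) L (1 + R * I) ∧
      Small (fun n => ‖t n‖) c' (fun n => Ev (t n) (ζ n) -
        (F.P n (1 + R * I) - F.P n (-1 - R * I))) ∧
      Small (fun n => ‖t n‖) c' (fun n => Dv (t n) (ζ n) -
        (F.Q n (1 + R * I) - F.Q n (-1 - R * I))) := by
  obtain ⟨F, hΨ0, hw0, hu0, hτ, hu, hΨ, hw⟩ := exists_fam h
  obtain ⟨c', hc', R0, hR0⟩ := hg
  obtain ⟨R, hR1, hR2, hR3⟩ : ∃ R : ℝ, R0 ≤ R ∧ 1 ≤ R ∧ 2 * (1 / 2 + 3 * (‖ζ0‖ + 1) - c') ≤ R :=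
    ⟨max (max R0 1) (2 * (1 / 2 + 3 * (‖ζ0‖ + 1) - c')), (le_max_left _ _).trans (le_max_left _ _),
      (le_max_right _ _).trans (le_max_left _ _), le_max_right _ _⟩
  have hch := hR0 R hR1
  rw [← hu0, ← hΨ0] at hch
  have hphase : ∀ n H, F.u n * F.Ψ n H / F.τ n = Ph (ζ n) H / t n := by
    intro n H
    rw [hu, hΨ, hτ]
    have e1 : (‖t n‖ : ℂ) ≠ 0 := by exact_mod_cast norm_ne_zero_iff.2 (h.ne n)
    have e2 := h.ne n
    field_simp
  have hζ : ∀ᶠ n in atTop, ‖ζ n‖ ≤ ‖ζ0‖ + 1 := by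
    have := h.zet.norm.eventually_lt_const (u := ‖ζ0‖ + 1) (by linarith)
    exact this.mono fun n hn => hn.le
  have ht1 : ∀ᶠ n in atTop, ‖t n‖ ≤ 1 := by
    have h5 := h.lim.norm
    rw [norm_zero] at h5
    exact (h5.eventually_lt_const (u := 1) one_pos).mono fun n hn => hn.le
  have hexp : ∀ n, ‖ζ n‖ ≤ ‖ζ0‖ + 1 → Real.exp ((1 / 2 + 3 * ‖ζ n‖ - R / 2) / ‖t n‖) ≤
      Real.exp (c' / ‖t n‖) := by
    intro n k1
    apply Real.exp_le_exp.2
    apply div_le_div_of_nonneg_right _ (norm_nonneg _)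
    linarith
  refine ⟨F, c', R, hw0, hτ, hc', hch, ?_, ?_⟩
  · refine ⟨4, ?_⟩
    filter_upwards [hζ, ht1] with n k1 k2
    have hP : ∀ H, HasDerivAt (F.P n) (cexp (Ph (ζ n) H / t n)) H := by
      intro H
      have := F.hP n H
      rwa [hphase] at this
    have hrep := rep_E (h.ne n) (h.re n) (h.im n) R hP
    have tp := (tail_pos (ζ := ζ n) (h.ne n) (h.re n) (h.im n) hR2).1
    have tn := (tail_neg (ζ := ζ n) (h.ne n) (h.re n) (h.im n) hR2).1
    have hb : 2 * ‖t n‖ * Real.exp ((1 / 2 + 3 * ‖ζ n‖ - R / 2) / ‖t n‖) ≤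
        2 * Real.exp (c' / ‖t n‖) := by
      calc _ ≤ 2 * 1 * Real.exp (c' / ‖t n‖) := by
            have := hexp n k1
            gcongr
        _ = _ := by ring
    have e : Ev (t n) (ζ n) - (F.P n (1 + R * I) - F.P n (-1 - R * I)) =
        (∫ s in Set.Ioi R, cexp (Ph (ζ n) (1 + s * I) / t n)) * I +
        (∫ s in Set.Iio (-R), cexp (Ph (ζ n) (-1 + s * I) / t n)) * I := by
      unfold Ev
      rw [hrep]; ring
    change ‖Ev (t n) (ζ n) - (F.P n (1 + R * I) - F.P n (-1 - R * I))‖ ≤ _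
    rw [e]
    refine (norm_add_le _ _).trans ?_
    rw [norm_mul, norm_mul, norm_I, mul_one, mul_one]
    linarith
  · refine ⟨12 * (‖ζ0‖ + 1), ?_⟩
    filter_upwards [hζ, ht1] with n k1 k2
    have hQ : ∀ H, HasDerivAt (F.Q n) (ζ n * cexp H * cexp (Ph (ζ n) H / t n)) H := by
      intro H
      have := F.hQ n H
      rw [hphase, hw] at this
      exact this
    have hrep := rep_DE (h.ne n) (h.re n) (h.im n) R hQ
    have tp := (tail_pos (ζ := ζ n) (h.ne n) (h.re n) (h.im n) hR2).2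
    have tn := (tail_neg (ζ := ζ n) (h.ne n) (h.re n) (h.im n) hR2).2
    have hb : 6 * ‖ζ n‖ * ‖t n‖ * Real.exp ((1 / 2 + 3 * ‖ζ n‖ - R / 2) / ‖t n‖) ≤
        6 * (‖ζ0‖ + 1) * Real.exp (c' / ‖t n‖) := by
      calc _ ≤ 6 * (‖ζ0‖ + 1) * 1 * Real.exp (c' / ‖t n‖) := by
            have := hexp n k1
            gcongr
        _ = _ := by ring
    have e : Dv (t n) (ζ n) - (F.Q n (1 + R * I) - F.Q n (-1 - R * I)) =
        (∫ s in Set.Ioi R, ζ n * cexp (1 + s * I) * cexp (Ph (ζ n) (1 + s * I) / t n)) * I +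
        (∫ s in Set.Iio (-R), ζ n * cexp (-1 + s * I) * cexp (Ph (ζ n) (-1 + s * I) / t n)) * I := by
      unfold Dv
      rw [hrep]; ring
    change ‖Dv (t n) (ζ n) - (F.Q n (1 + R * I) - F.Q n (-1 - R * I))‖ ≤ _
    rw [e]
    refine (norm_add_le _ _).trans ?_
    rw [norm_mul, norm_mul, norm_I, mul_one, mul_one]
    linarith

private theorem va_crit {u ζ : ℂ} {c c' : ℝ} {A B : ℂ} {L : List ℂ}
    (h : Chain u (Ph ζ) c c' A L B) {S : ℂ} (hS : S ∈ L) : S + ζ * cexp S = 0 := by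
  induction h with
  | nil _ => exact absurd hS List.not_mem_nil
  | cons _ h2 _ ih =>
    rcases List.mem_cons.1 hS with h3 | h3
    · rw [h3, ← deriv_Ph]
      exact h2.crit
    · exact ih h3

/-- The saddle point of a good list. -/
theorem good_crit {u ζ : ℂ} {c : ℝ} {L : List ℂ} (hg : Good u ζ c L) {S : ℂ} (hS : S ∈ L) :
    S + ζ * cexp S = 0 := by
  obtain ⟨c', _, R0, hR0⟩ := hg
  exact va_crit (hR0 R0 le_rfl) hS

theorem val_nil {t ζ : ℕ → ℂ} {ζ0 u0 : ℂ} (h : Par t ζ ζ0 u0) {c : ℝ} (hg : Good u0 ζ0 c []) :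
    ∃ c' : ℝ, c' < c ∧ Small (fun n => ‖t n‖) c' (fun n => Ev (t n) (ζ n)) ∧
      Small (fun n => ‖t n‖) c' (fun n => Dv (t n) (ζ n)) := by
  obtain ⟨F, c', R, _, hτ, hc', hch, hE, hD⟩ := va_main h hg
  have hτ' : F.τ = fun n => ‖t n‖ := funext hτ
  obtain ⟨h1, h2⟩ := chain_nil F hch
  rw [hτ'] at h1 h2
  exact ⟨c', hc', va_add hE h1 fun n => by ring, va_add hD h2 fun n => by ring⟩

theorem val_one {t ζ : ℕ → ℂ} {ζ0 u0 : ℂ} (h : Par t ζ ζ0 u0) {c : ℝ} {S : ℂ}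
    (hg : Good u0 ζ0 c [S]) : ∃ c' : ℝ, c' < c ∧ ∃ J : ℕ → ℂ, Big (fun n => ‖t n‖) c J ∧
      Small (fun n => ‖t n‖) c' (fun n => Ev (t n) (ζ n) - J n) ∧
      ∀ ε : ℝ, 0 < ε → ∀ᶠ n in atTop, ‖Dv (t n) (ζ n) + S * J n‖ ≤ ε * ‖J n‖ := by
  have hS := good_crit hg (List.mem_singleton_self S)
  obtain ⟨F, c', R, hw0, hτ, hc', hch, hE, hD⟩ := va_main h hg
  have hτ' : F.τ = fun n => ‖t n‖ := funext hτ
  have hτp : ∀ n, 0 < ‖t n‖ := fun n => norm_pos_iff.2 (h.ne n)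
  have hτl : Tendsto (fun n => ‖t n‖) atTop (𝓝 0) := by
    have := h.lim.norm
    rwa [norm_zero] at this
  obtain ⟨J, hJ, h1, h2⟩ := chain_one F hc' hch
  have hw : F.w0 S = -S := by
    rw [hw0]
    linear_combination hS
  rw [hτ'] at hJ h1
  refine ⟨c', hc', J, hJ, va_add hE h1 fun n => by ring, fun ε hε => ?_⟩
  filter_upwards [h2 (ε / 2) (by (clear * - hε; positivity)),
    va_small hτp hτl hc' hJ hD (η := ε / 2) (by (clear * - hε; positivity))] with n k1 k2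
  rw [hw] at k1
  calc ‖Dv (t n) (ζ n) + S * J n‖
      = ‖(F.Q n (1 + R * I) - F.Q n (-1 - R * I) - -S * J n) +
          (Dv (t n) (ζ n) - (F.Q n (1 + R * I) - F.Q n (-1 - R * I)))‖ := by
        congr 1
        ring
    _ ≤ _ := norm_add_le _ _
    _ ≤ ε / 2 * ‖J n‖ + ε / 2 * ‖J n‖ := add_le_add k1 k2
    _ = ε * ‖J n‖ := by ring

theorem val_two {t ζ : ℕ → ℂ} {ζ0 u0 : ℂ} (h : Par t ζ ζ0 u0) {c : ℝ} {S S' : ℂ}
    (hg : Good u0 ζ0 c [S, S']) : ∃ c' : ℝ, c' < c ∧ ∃ J J' : ℕ → ℂ,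
      Big (fun n => ‖t n‖) c J ∧ Big (fun n => ‖t n‖) c J' ∧
      Small (fun n => ‖t n‖) c' (fun n => Ev (t n) (ζ n) - J n - J' n) ∧
      ∀ ε : ℝ, 0 < ε → ∀ᶠ n in atTop,
        ‖Dv (t n) (ζ n) + S * J n + S' * J' n‖ ≤ ε * (‖J n‖ + ‖J' n‖) := by
  have hS := good_crit hg (S := S) (by simp)
  have hS' := good_crit hg (S := S') (by simp)
  obtain ⟨F, c', R, hw0, hτ, hc', hch, hE, hD⟩ := va_main h hg
  have hτ' : F.τ = fun n => ‖t n‖ := funext hτ
  have hτp : ∀ n, 0 < ‖t n‖ := fun n => norm_pos_iff.2 (h.ne n)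
  have hτl : Tendsto (fun n => ‖t n‖) atTop (𝓝 0) := by
    have := h.lim.norm
    rwa [norm_zero] at this
  obtain ⟨J, J', hJ, hJ', h1, h2⟩ := chain_two F hc' hch
  have hw : F.w0 S = -S := by
    rw [hw0]
    linear_combination hS
  have hw' : F.w0 S' = -S' := by
    rw [hw0]
    linear_combination hS'
  rw [hτ'] at hJ hJ' h1
  refine ⟨c', hc', J, J', hJ, hJ', va_add hE h1 fun n => by ring, fun ε hε => ?_⟩
  filter_upwards [h2 (ε / 2) (by (clear * - hε; positivity)),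
    va_small hτp hτl hc' hJ hD (η := ε / 2) (by (clear * - hε; positivity))] with n k1 k2
  rw [hw, hw'] at k1
  calc ‖Dv (t n) (ζ n) + S * J n + S' * J' n‖
      = ‖(F.Q n (1 + R * I) - F.Q n (-1 - R * I) - -S * J n - -S' * J' n) +
          (Dv (t n) (ζ n) - (F.Q n (1 + R * I) - F.Q n (-1 - R * I)))‖ := by
        congr 1
        ring
    _ ≤ _ := norm_add_le _ _
    _ ≤ ε / 2 * (‖J n‖ + ‖J' n‖) + ε / 2 * ‖J n‖ := add_le_add k1 k2
    _ ≤ ε * (‖J n‖ + ‖J' n‖) := by nlinarith [norm_nonneg (J' n)]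

end SokamV

end

/-! ### Lib_MP_af4de1_v.TopA -/

section
/-!
# Existence of the top level [SV-TOPA]

`IsTop` below: level `c` is reached on the line `T` of the lift `m` and nothing is higher.  The set `K` of all `c` such that
`∃ m < N, ∃ T, ∀ X, c ≤ Gp u ζ_m X T` is bounded above (`X = 0`: `c ≤ ‖ζ‖`), contains some `c > 0` (`TopPos`).  Let `c = sSup K`,
`c_k → c`, `c_k ∈ K`, `c_k > 0`, with `(m_k, T_k)`: by `Gp_tail` (`X = ±1`) `|T_k| ≤ 1 + 2(1/2 + 3‖ζ‖)`.  Subsequence: `m_k = m`,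
`T_k → T`; `continuous_Gp` gives `∀ X, c ≤ Gp u ζ_m X T`.  Maximality: if `c1 > c` and `∀ X, c1 ≤ Gp …` then `c1 ∈ K`.
-/

namespace SokamV

open Complex Filter Topology

/-- The lift number `m`. -/
noncomputable def lift (N : ℕ) (ζ : ℂ) (m : ℕ) : ℂ := ζ * cexp (2 * Real.pi * I * m / N)

/-- `c` is the top level: nothing is higher, for no lift. -/
def IsMax (N : ℕ) (u ζ : ℂ) (c : ℝ) : Prop :=
  ∀ m < N, ∀ T c1 : ℝ, c < c1 → ∃ X : ℝ, Gp u (lift N ζ m) X T < c1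

/-- The line `T` of the lift `m` reaches the level `c`. -/
def Reach (N : ℕ) (u ζ : ℂ) (c : ℝ) (m : ℕ) (T : ℝ) : Prop := ∀ X : ℝ, c ≤ Gp u (lift N ζ m) X T

theorem norm_lift (N : ℕ) (ζ : ℂ) (m : ℕ) : ‖lift N ζ m‖ = ‖ζ‖ := by
  unfold lift
  have h1 : (2 * Real.pi * I * m / N : ℂ) = ((2 * Real.pi * m / N : ℝ) : ℂ) * I := by
    push_cast
    ring
  rw [norm_mul, h1, Complex.norm_exp_ofReal_mul_I, mul_one]

/-- Lines which reach a nonnegative level are bounded. -/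
private theorem TopA_bound {N : ℕ} {u ζ : ℂ} (hu : ‖u‖ = 1) (hre : 0 ≤ u.re) (him : 0 ≤ u.im)
    {c : ℝ} (hc : 0 ≤ c) {m : ℕ} {T : ℝ} (h : Reach N u ζ c m T) : |T| ≤ 2 + 6 * ‖ζ‖ := by
  have hz : 0 ≤ ‖ζ‖ := norm_nonneg ζ
  rw [abs_le]
  constructor
  · by_contra hcon
    rw [not_le] at hcon
    have h1 : (1 : ℝ) ≤ -T := by linarith
    have h2 := (Gp_tail (ζ := lift N ζ m) hu hre him h1).2
    rw [neg_neg, norm_lift] at h2
    have h3 := h (-1)
    linarith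
  · by_contra hcon
    rw [not_le] at hcon
    have h1 : (1 : ℝ) ≤ T := by linarith
    have h2 := (Gp_tail (ζ := lift N ζ m) hu hre him h1).1
    rw [norm_lift] at h2
    have h3 := h 1
    linarith

/-- Levels which are reached are at most `‖ζ‖`. -/
private theorem TopA_le {N : ℕ} {u ζ : ℂ} (hu : ‖u‖ = 1) (hre : 0 ≤ u.re)
    {c : ℝ} {m : ℕ} {T : ℝ} (h : Reach N u ζ c m T) : c ≤ ‖ζ‖ := by
  have h1 := h 0
  unfold Gp at h1
  have h2 : max ((u * lift N ζ m * cexp (T * I)).re) 0 ≤ ‖ζ‖ := by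
    refine max_le ?_ (norm_nonneg _)
    refine (Complex.re_le_norm _).trans ?_
    rw [norm_mul, norm_mul, hu, Complex.norm_exp_ofReal_mul_I, one_mul, mul_one, norm_lift]
  rw [Real.exp_zero, one_mul] at h1
  have h3 : 0 ≤ u.re * T ^ (2 : ℕ) := mul_nonneg hre (sq_nonneg T)
  linarith only [h1, h2, h3]

private theorem TopA_cont (u z : ℂ) (X T : ℝ) :
    Tendsto (fun T' : ℝ => Gp u z X T') (𝓝 T) (𝓝 (Gp u z X T)) := by
  have hc : Continuous (fun T' : ℝ => Gp u z X T') :=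
    (continuous_Gp u z).comp (continuous_const.prodMk continuous_id)
  exact hc.tendsto T

/-- Compactness: limits of lines which reach levels tending to `c`. -/
private theorem TopA_compact {N : ℕ} {u ζ : ℂ} (hu : ‖u‖ = 1) (hre : 0 ≤ u.re) (him : 0 ≤ u.im)
    {c : ℝ} {cs : ℕ → ℝ} (hcs : Tendsto cs atTop (𝓝 c)) (hpos : ∀ k, 0 ≤ cs k) {ms : ℕ → ℕ}
    {Ts : ℕ → ℝ} (hm : ∀ k, ms k < N) (hR : ∀ k, Reach N u ζ (cs k) (ms k) (Ts k)) :
    ∃ m < N, ∃ T : ℝ, ∃ φ : ℕ → ℕ, StrictMono φ ∧ (∀ k, ms (φ k) = m) ∧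
      Tendsto (fun k => Ts (φ k)) atTop (𝓝 T) ∧ Reach N u ζ c m T := by
  -- a constant subsequence of `ms`
  have h1 : ∃ m < N, ∃ᶠ k in atTop, ms k = m := by
    by_contra hcon
    push Not at hcon
    have h2 : ∀ᶠ k in atTop, ∀ m ∈ Finset.range N, ms k ≠ m := by
      rw [Filter.eventually_all_finset]
      intro m hmN
      exact hcon m (Finset.mem_range.1 hmN)
    obtain ⟨k, hk⟩ := h2.exists
    exact hk (ms k) (Finset.mem_range.2 (hm k)) rfl
  obtain ⟨m, hmN, hf⟩ := h1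
  obtain ⟨φ, hφ, hφm⟩ := Filter.extraction_of_frequently_atTop hf
  have hb : ∀ k, Ts (φ k) ∈ Set.Icc (-(2 + 6 * ‖ζ‖)) (2 + 6 * ‖ζ‖) := by
    intro k
    have := TopA_bound hu hre him (hpos (φ k)) (hR (φ k))
    rw [abs_le] at this
    exact this
  obtain ⟨T, -, ψ, hψ, hT⟩ := isCompact_Icc.tendsto_subseq hb
  refine ⟨m, hmN, T, φ ∘ ψ, hφ.comp hψ, fun k => hφm _, hT, ?_⟩
  intro X
  have h3 : Tendsto (fun k => Gp u (lift N ζ m) X (Ts (φ (ψ k)))) atTop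
      (𝓝 (Gp u (lift N ζ m) X T)) := by
    exact (TopA_cont u (lift N ζ m) X T).comp hT
  have h5 : Tendsto (fun k => cs (φ (ψ k))) atTop (𝓝 c) :=
    hcs.comp (hφ.comp hψ).tendsto_atTop
  refine le_of_tendsto_of_tendsto' h5 h3 ?_
  intro k
  have h6 := hR (φ (ψ k)) X
  rw [hφm] at h6
  exact h6

private theorem TopA_lim (c : ℝ) : Tendsto (fun k : ℕ => c - c / ((k : ℝ) + 2)) atTop (𝓝 c) := by
  have h1 : Tendsto (fun k : ℕ => ((k : ℝ) + 2)) atTop atTop :=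
    tendsto_atTop_add_const_right _ _ tendsto_natCast_atTop_atTop
  have h2 : Tendsto (fun k : ℕ => c / ((k : ℝ) + 2)) atTop (𝓝 0) := h1.const_div_atTop c
  have h3 := (tendsto_const_nhds (x := c)).sub h2
  rwa [sub_zero] at h3

private theorem TopA_lim_pos' {c : ℝ} (hc : 0 < c) (k : ℕ) :
    0 < c - c / ((k : ℝ) + 2) ∧ c - c / ((k : ℝ) + 2) < c := by
  have hk : (0 : ℝ) ≤ k := Nat.cast_nonneg k
  constructor
  · rw [sub_pos, div_lt_iff₀ (by positivity)]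
    nlinarith only [hc]
  · have : 0 < c / ((k : ℝ) + 2) := by positivity
    linarith

private theorem TopA_lim_pos {c : ℝ} (hc : 0 < c) (k : ℕ) : 0 ≤ c - c / ((k : ℝ) + 2) :=
  (TopA_lim_pos' hc k).1.le

theorem top_exists {N : ℕ} {u ζ : ℂ} (hu : ‖u‖ = 1) (hre : 0 ≤ u.re) (him : 0 ≤ u.im)
    (h : ∃ m < N, TopPos u (lift N ζ m)) :
    ∃ c : ℝ, 0 < c ∧ IsMax N u ζ c ∧ ∃ m < N, ∃ T : ℝ, Reach N u ζ c m T := by
  obtain ⟨m0, hm0, T0, ε, hε, h0⟩ := h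
  have hne : ({c : ℝ | ∃ m < N, ∃ T : ℝ, Reach N u ζ c m T}).Nonempty := ⟨ε, m0, hm0, T0, h0⟩
  have hbd : BddAbove {c : ℝ | ∃ m < N, ∃ T : ℝ, Reach N u ζ c m T} := by
    refine ⟨‖ζ‖, ?_⟩
    rintro c ⟨m, _, T, hT⟩
    exact TopA_le hu hre hT
  have hle : ∀ c ∈ {c : ℝ | ∃ m < N, ∃ T : ℝ, Reach N u ζ c m T},
      c ≤ sSup {c : ℝ | ∃ m < N, ∃ T : ℝ, Reach N u ζ c m T} := fun c hc => le_csSup hbd hc
  have hlt : ∀ a < sSup {c : ℝ | ∃ m < N, ∃ T : ℝ, Reach N u ζ c m T},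
      ∃ b ∈ {c : ℝ | ∃ m < N, ∃ T : ℝ, Reach N u ζ c m T}, a < b :=
    fun a ha => exists_lt_of_lt_csSup hne ha
  generalize sSup {c : ℝ | ∃ m < N, ∃ T : ℝ, Reach N u ζ c m T} = c at hle hlt
  have hcpos : 0 < c := hε.trans_le (hle ε ⟨m0, hm0, T0, h0⟩)
  refine ⟨c, hcpos, ?_, ?_⟩
  · intro m hm T c1 hc1
    by_contra hcon
    push Not at hcon
    exact absurd (hle c1 ⟨m, hm, T, hcon⟩) (not_le.2 hc1)
  · -- levels tending to `c`
    have h1 : ∀ k : ℕ, ∃ m < N, ∃ T : ℝ, Reach N u ζ (c - c / (k + 2)) m T := by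
      intro k
      have h2 : c - c / (k + 2) < c := by
        have : 0 < c / ((k : ℝ) + 2) := by positivity
        linarith
      obtain ⟨b, ⟨m, hm, T, hT⟩, hb⟩ := hlt _ h2
      exact ⟨m, hm, T, fun X => hb.le.trans (hT X)⟩
    choose ms hms Ts hTs using h1
    obtain ⟨m, hm, T, φ, _, _, _, hR⟩ := TopA_compact hu hre him (TopA_lim c) (TopA_lim_pos hcpos) hms hTs
    exact ⟨m, hm, T, hR⟩

/-- Lines which reach levels close to `c` are close to lines which reach `c`. -/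
theorem top_near {N : ℕ} {u ζ : ℂ} (hu : ‖u‖ = 1) (hre : 0 ≤ u.re) (him : 0 ≤ u.im) {c : ℝ}
    (hc : 0 < c) {δ : ℝ} (hδ : 0 < δ) : ∃ c' : ℝ, 0 < c' ∧ c' < c ∧ ∀ m < N, ∀ T : ℝ,
      Reach N u ζ c' m T → ∃ T' : ℝ, Reach N u ζ c m T' ∧ |T - T'| < δ := by
  by_contra hcon
  have h1 : ∀ k : ℕ, ∃ m < N, ∃ T : ℝ, Reach N u ζ (c - c / (k + 2)) m T ∧
      ∀ T' : ℝ, Reach N u ζ c m T' → δ ≤ |T - T'| := by
    intro k
    by_contra hk
    refine hcon ⟨c - c / (k + 2), (TopA_lim_pos' hc k).1, (TopA_lim_pos' hc k).2, ?_⟩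
    intro m hm T hT
    by_contra hT'
    refine hk ⟨m, hm, T, hT, ?_⟩
    intro T' hR
    by_contra hδ'
    exact hT' ⟨T', hR, not_le.1 hδ'⟩
  choose ms hms Ts hTs hfar using h1
  obtain ⟨m, hm, T, φ, _, hφm, hφT, hR⟩ :=
    TopA_compact hu hre him (TopA_lim c) (TopA_lim_pos hc) hms hTs
  obtain ⟨k, hk⟩ := ((Metric.tendsto_nhds.1 hφT) δ hδ).exists
  rw [Real.dist_eq] at hk
  have h2 := hfar (φ k) T (by rw [hφm]; exact hR)
  exact absurd hk (not_lt.2 h2)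

end SokamV

end

/-! ### Lib_MP_af4de1_v.TopC -/

section
/-!
# At most two lines reach the top level [SV-TOPC]

`concave_comb`: let `g_X(θ,T) = a(X²-T²)/2 - bXT + r e^X cos θ` (`a, b ≥ 0`, `a²+b²=1`, `r > 0`, `|θ| < π/2`).  Let `(θi,Ti)`, `i = 1,3`, be different
points with `g_X(θi,Ti) ≥ c` for all `X`, `c > 0`, `0 < λ < 1`, `(θ*,T*)` the convex combination.  Then `∃ c1 > c, ∀ X, c1 ≤ g_X(θ*,T*)`.
PROOF: the minimum over `X` of `g_X(θ*,T*)` is attained at some `X*` (as in `top_min`: if `a = 0` then `T1, T3 > 0`, so `T* > 0`; the function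
is continuous and `→ ∞` at `±∞`).  `g_{X*}` is concave in `(θ,T)`: `g_{X*}(θ*,T*) ≥ (1-λ)g_{X*}(θ1,T1) + λg_{X*}(θ3,T3) ≥ c`.  Suppose equality:
strict concavity of `cos` on `[-π/2,π/2]` gives `θ1 = θ3`; `g_{X*}(θi,Ti) = c` is the minimum over `X`, so
`aX* - bTi + r e^{X*}cos θi = 0`; if `a > 0` the strict concavity of `-aT²/2` gives `T1 = T3`, if `a = 0` (`b = 1`) the last equation gives
`T1 = T3`: contradiction.  So `c1 := g_{X*}(θ*,T*) > c`.

`top_two`: suppose three different pairs `(m_i,T_i)` reach the top level.  By `top_min` `uζ_{m_i}e^{T_iI} = r e^{θ_iI}`, `r = ‖ζ‖`, `|θ_i| < π/2`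
(`θ_i = arg`).  `η_i = θ_i - T_i`, and `e^{iη_i} = u ζ_{m_i}/r`, so `η_i ∈ arg(uζ) + (2π/N)ℤ`.  If `η_i = η_j`, `i ≠ j`, then
`m_i = m_j` (both `< N`), so `T_i ≠ T_j`, `(θ_i,T_i) ≠ (θ_j,T_j)`: midpoint (`λ = 1/2`): `θ*-T* = η_i`, so `u ζ_{m_i}e^{T*I} = r e^{θ*I}` and
`Gp u ζ_{m_i} X T* = g_X(θ*,T*) ≥ c1 > c` for all `X`: against `IsMax`.  If the `η_i` are different, order them, let `η_2` be the middle one,
`λ` with `η_2 = (1-λ)η_1+λη_3`: `θ*-T* = η_2`, `u ζ_{m_2}e^{T*I} = r e^{θ*I}`: the same contradiction.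
-/

namespace SokamV

open Complex Filter Topology

private theorem cos_comb {θ1 θ3 lam : ℝ} (h1 : |θ1| < Real.pi / 2)
    (h3 : |θ3| < Real.pi / 2) (hl : 0 < lam) (hl' : lam < 1) :
    (1 - lam) * Real.cos θ1 + lam * Real.cos θ3 ≤ Real.cos ((1 - lam) * θ1 + lam * θ3) ∧
    (Real.cos ((1 - lam) * θ1 + lam * θ3) = (1 - lam) * Real.cos θ1 + lam * Real.cos θ3 →
      θ1 = θ3) := by
  have m1 : θ1 ∈ Set.Icc (-(Real.pi / 2)) (Real.pi / 2) := by
    rw [abs_lt] at h1; exact ⟨h1.1.le, h1.2.le⟩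
  have m3 : θ3 ∈ Set.Icc (-(Real.pi / 2)) (Real.pi / 2) := by
    rw [abs_lt] at h3; exact ⟨h3.1.le, h3.2.le⟩
  have hs := strictConcaveOn_cos_Icc
  by_cases h : θ1 = θ3
  · subst h
    refine ⟨?_, fun _ => rfl⟩
    have : (1 - lam) * θ1 + lam * θ1 = θ1 := by ring
    rw [this]
    apply le_of_eq
    ring
  · have := hs.2 m1 m3 h (sub_pos.2 hl') hl (by ring)
    simp only [smul_eq_mul] at this
    exact ⟨this.le, fun he => absurd he (ne_of_gt this)⟩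

private theorem abs_comb {θ1 θ3 lam : ℝ} (h1 : |θ1| < Real.pi / 2)
    (h3 : |θ3| < Real.pi / 2) (hl : 0 < lam) (hl' : lam < 1) :
    |(1 - lam) * θ1 + lam * θ3| < Real.pi / 2 := by
  rw [abs_lt] at *
  constructor
  · nlinarith only [hl, hl', h1.1, h3.1]
  · nlinarith only [hl, hl', h1.2, h3.2]

private theorem Gp_line {u z : ℂ} {r η X T : ℝ} (h : u * z = r * cexp (η * I)) (hr : 0 ≤ r)
    (hc : 0 ≤ Real.cos (η + T)) :
    Gp u z X T = u.re * (X ^ (2 : ℕ) - T ^ (2 : ℕ)) / 2 - u.im * X * T +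
      Real.exp X * (r * Real.cos (η + T)) := by
  have h2 : (u * z * cexp (T * I)).re = r * Real.cos (η + T) := by
    rw [h, mul_assoc, ← Complex.exp_add]
    have : (η : ℂ) * I + T * I = ((η + T : ℝ) : ℂ) * I := by push_cast; ring
    rw [this, Complex.re_ofReal_mul, Complex.exp_ofReal_mul_I_re]
  unfold Gp
  rw [h2, max_eq_left (mul_nonneg hr hc)]

private theorem four_zero {a b c d : ℝ} (ha : 0 ≤ a) (hb : 0 ≤ b) (hc : 0 ≤ c) (hd : 0 ≤ d)
    (h : a + b + c + d = 0) : a = 0 ∧ b = 0 ∧ c = 0 ∧ d = 0 := by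
  refine ⟨?_, ?_, ?_, ?_⟩ <;> linarith

private theorem add_le_add_of_le_of_nonneg' {x y a b : ℝ} (h : x ≤ y) (ha : 0 ≤ a) (hb : 0 ≤ b) :
    x ≤ y + a + b := by linarith only [h, ha, hb]

theorem concave_comb {a b r c : ℝ} (ha : 0 ≤ a) (hb : 0 ≤ b) (hab : a ^ (2 : ℕ) + b ^ (2 : ℕ) = 1)
    (hr : 0 < r) (hc : 0 < c) {θ1 θ3 T1 T3 lam : ℝ} (h1 : |θ1| < Real.pi / 2)
    (h3 : |θ3| < Real.pi / 2) (hne : (θ1, T1) ≠ (θ3, T3)) (hl : 0 < lam) (hl' : lam < 1)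
    (g1 : ∀ X : ℝ, c ≤ a * (X ^ (2 : ℕ) - T1 ^ (2 : ℕ)) / 2 - b * X * T1 + Real.exp X * (r * Real.cos θ1))
    (g3 : ∀ X : ℝ, c ≤ a * (X ^ (2 : ℕ) - T3 ^ (2 : ℕ)) / 2 - b * X * T3 + Real.exp X * (r * Real.cos θ3)) :
    ∃ c1 : ℝ, c < c1 ∧ ∀ X : ℝ,
      c1 ≤ a * (X ^ (2 : ℕ) - ((1 - lam) * T1 + lam * T3) ^ (2 : ℕ)) / 2 -
        b * X * ((1 - lam) * T1 + lam * T3) +
        Real.exp X * (r * Real.cos ((1 - lam) * θ1 + lam * θ3)) := by
  obtain ⟨hcos, hcos'⟩ := cos_comb h1 h3 hl hl'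
  have hθs := abs_comb h1 h3 hl hl'
  set θs : ℝ := (1 - lam) * θ1 + lam * θ3 with hθs_def
  set Ts : ℝ := (1 - lam) * T1 + lam * T3 with hTs_def
  have hl1 : 0 < 1 - lam := sub_pos.2 hl'
  -- the exact identity
  have hid : ∀ X : ℝ, a * (X ^ (2 : ℕ) - Ts ^ (2 : ℕ)) / 2 - b * X * Ts + Real.exp X * (r * Real.cos θs) =
      (1 - lam) * (a * (X ^ (2 : ℕ) - T1 ^ (2 : ℕ)) / 2 - b * X * T1 + Real.exp X * (r * Real.cos θ1)) +
      lam * (a * (X ^ (2 : ℕ) - T3 ^ (2 : ℕ)) / 2 - b * X * T3 + Real.exp X * (r * Real.cos θ3)) +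
      a * (lam * (1 - lam) * (T1 - T3) ^ (2 : ℕ)) / 2 +
      Real.exp X * r * (Real.cos θs - ((1 - lam) * Real.cos θ1 + lam * Real.cos θ3)) := by
    intro X
    rw [hTs_def]
    ring
  have hge : ∀ X : ℝ, c ≤ a * (X ^ (2 : ℕ) - Ts ^ (2 : ℕ)) / 2 - b * X * Ts +
      Real.exp X * (r * Real.cos θs) := by
    intro X
    rw [hid X]
    have e1 : 0 ≤ a * (lam * (1 - lam) * (T1 - T3) ^ (2 : ℕ)) / 2 := by positivity
    have e2 : 0 ≤ Real.exp X * r *
        (Real.cos θs - ((1 - lam) * Real.cos θ1 + lam * Real.cos θ3)) :=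
      mul_nonneg (by positivity) (by linarith only [hcos])
    have e3 := mul_le_mul_of_nonneg_left (g1 X) hl1.le
    have e4 := mul_le_mul_of_nonneg_left (g3 X) hl.le
    have e5 : c = (1 - lam) * c + lam * c := by ring
    rw [e5]
    exact add_le_add_of_le_of_nonneg' (add_le_add e3 e4) e1 e2
  -- the point u
  set u : ℂ := ⟨a, b⟩ with hu_def
  have hure : u.re = a := rfl
  have huim : u.im = b := rfl
  have hu : ‖u‖ = 1 := by
    have : ‖u‖ ^ (2 : ℕ) = 1 := by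
      rw [Complex.sq_norm, Complex.normSq_apply, hure, huim, ← hab]
      ring
    have h0 := norm_nonneg u
    exact (sq_eq_sq₀ h0 zero_le_one).1 (by rw [this, one_pow])
  have hu0 : u ≠ 0 := by
    intro h
    rw [h] at hu
    simp at hu
  set ζ : ℂ := u⁻¹ * (r * cexp (((θs - Ts : ℝ) : ℂ) * I)) with hζ_def
  have huζ : u * ζ = r * cexp (((θs - Ts : ℝ) : ℂ) * I) := by
    rw [hζ_def, mul_inv_cancel_left₀ hu0]
  have hcosp : 0 < Real.cos θs := by
    rw [abs_lt] at hθs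
    exact Real.cos_pos_of_mem_Ioo hθs
  have hGp : ∀ X : ℝ, Gp u ζ X Ts = a * (X ^ (2 : ℕ) - Ts ^ (2 : ℕ)) / 2 - b * X * Ts +
      Real.exp X * (r * Real.cos θs) := by
    intro X
    have e : θs - Ts + Ts = θs := by ring
    have := Gp_line (X := X) (T := Ts) huζ hr.le (by rw [e]; exact hcosp.le)
    rw [this, e, hure, huim]
  obtain ⟨-, -, Xs, hXs, -⟩ := top_min (u := u) (ζ := ζ) hu (by rw [hure]; exact ha)
    (by rw [huim]; exact hb) (T := Ts) hc (fun X => by rw [hGp X]; exact hge X)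
  refine ⟨_, ?_, fun X => by rw [← hGp X]; exact hXs X⟩
  rw [hGp Xs]
  refine lt_of_le_of_ne (hge Xs) ?_
  intro heq
  have e1 : 0 ≤ a * (lam * (1 - lam) * (T1 - T3) ^ (2 : ℕ)) / 2 := by positivity
  have e2 : 0 ≤ Real.exp Xs * r *
      (Real.cos θs - ((1 - lam) * Real.cos θ1 + lam * Real.cos θ3)) :=
    mul_nonneg (by positivity) (by linarith only [hcos])
  have e3 : 0 ≤ (1 - lam) * ((a * (Xs ^ (2 : ℕ) - T1 ^ (2 : ℕ)) / 2 - b * Xs * T1 +
      Real.exp Xs * (r * Real.cos θ1)) - c) := mul_nonneg hl1.le (by linarith only [g1 Xs])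
  have e4 : 0 ≤ lam * ((a * (Xs ^ (2 : ℕ) - T3 ^ (2 : ℕ)) / 2 - b * Xs * T3 +
      Real.exp Xs * (r * Real.cos θ3)) - c) := mul_nonneg hl.le (by linarith only [g3 Xs])
  have hsum := hid Xs
  rw [← heq] at hsum
  obtain ⟨z1, z2, z3, z4⟩ := four_zero e1 e2 e3 e4 (by linear_combination (-1) * hsum)
  have hθ : θ1 = θ3 := by
    apply hcos'
    have : Real.exp Xs * r ≠ 0 := by positivity
    have := (mul_eq_zero.1 z2).resolve_left this
    linarith only [this]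
  have k1 : a * (Xs ^ (2 : ℕ) - T1 ^ (2 : ℕ)) / 2 - b * Xs * T1 + Real.exp Xs * (r * Real.cos θ1) = c := by
    have := (mul_eq_zero.1 z3).resolve_left hl1.ne'
    linarith only [this]
  have k3 : a * (Xs ^ (2 : ℕ) - T3 ^ (2 : ℕ)) / 2 - b * Xs * T3 + Real.exp Xs * (r * Real.cos θ3) = c := by
    have := (mul_eq_zero.1 z4).resolve_left hl.ne'
    linarith only [this]
  -- derivative conditions
  have hder : ∀ θ T : ℝ, (∀ X : ℝ, c ≤ a * (X ^ (2 : ℕ) - T ^ (2 : ℕ)) / 2 - b * X * T +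
      Real.exp X * (r * Real.cos θ)) →
      a * (Xs ^ (2 : ℕ) - T ^ (2 : ℕ)) / 2 - b * Xs * T + Real.exp Xs * (r * Real.cos θ) = c →
      a * Xs - b * T + Real.exp Xs * (r * Real.cos θ) = 0 := by
    intro θ T hg hk
    have hmin : IsLocalMin (fun X : ℝ => a * (X ^ (2 : ℕ) - T ^ (2 : ℕ)) / 2 - b * X * T +
        Real.exp X * (r * Real.cos θ)) Xs := by
      apply Filter.Eventually.of_forall
      intro X
      show _ ≤ _
      simp only
      rw [hk]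
      exact hg X
    have hd : HasDerivAt (fun X : ℝ => a * (X ^ (2 : ℕ) - T ^ (2 : ℕ)) / 2 - b * X * T +
        Real.exp X * (r * Real.cos θ)) (a * Xs - b * T + Real.exp Xs * (r * Real.cos θ)) Xs := by
      have d1 : HasDerivAt (fun X : ℝ => a * (X ^ (2 : ℕ) - T ^ (2 : ℕ)) / 2) (a * Xs) Xs := by
        have := (((hasDerivAt_pow 2 Xs).sub_const (T ^ (2 : ℕ))).const_mul a).div_const 2
        refine this.congr_deriv ?_
        simp only [Nat.cast_ofNat, Nat.add_one_sub_one, pow_one]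
        ring
      have d2 : HasDerivAt (fun X : ℝ => b * X * T) (b * T) Xs := by
        have := ((hasDerivAt_id Xs).const_mul b).mul_const T
        refine this.congr_deriv ?_
        ring
      exact (d1.sub d2).add ((Real.hasDerivAt_exp Xs).mul_const _)
    exact hmin.hasDerivAt_eq_zero hd
  have l1 := hder θ1 T1 g1 k1
  have l3 := hder θ3 T3 g3 k3
  apply hne
  rw [hθ] at l1 ⊢
  have hbT : b * T1 = b * T3 := by linarith only [l1, l3]
  have hT : T1 = T3 := by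
    rcases eq_or_lt_of_le ha with h0 | h0
    · have hb1 : b ≠ 0 := by
        intro hb0
        rw [← h0, hb0] at hab
        norm_num at hab
      exact mul_left_cancel₀ hb1 hbT
    · have : (T1 - T3) ^ (2 : ℕ) = 0 := by
        have hp : 0 < a * (lam * (1 - lam)) / 2 := by positivity
        have : a * (lam * (1 - lam)) / 2 * (T1 - T3) ^ (2 : ℕ) = 0 := by
          rw [← z1]; ring
        exact (mul_eq_zero.1 this).resolve_left hp.ne'
      have := pow_eq_zero_iff (two_ne_zero) |>.1 this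
      linarith only [this]
  rw [hT]

private theorem line_arg {N : ℕ} {u ζ : ℂ} (hu : ‖u‖ = 1) (hre : 0 ≤ u.re) (him : 0 ≤ u.im)
    {c : ℝ} (hc : 0 < c) {m : ℕ} {T : ℝ} (h : Reach N u ζ c m T) :
    ∃ θ : ℝ, |θ| < Real.pi / 2 ∧
      u * lift N ζ m = (‖ζ‖ : ℝ) * cexp (((θ - T : ℝ) : ℂ) * I) := by
  obtain ⟨hpos, -, -⟩ := top_min hu hre him hc h
  set z : ℂ := u * lift N ζ m * cexp (T * I) with hz
  refine ⟨z.arg, Complex.abs_arg_lt_pi_div_two_iff.2 (Or.inl hpos), ?_⟩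
  have hn : ‖z‖ = ‖ζ‖ := by
    rw [hz, norm_mul, norm_mul, hu, norm_lift, Complex.norm_exp_ofReal_mul_I]
    ring
  have hz2 : z = (‖ζ‖ : ℝ) * cexp (z.arg * I) := by
    rw [← hn]
    exact (Complex.norm_mul_exp_arg_mul_I z).symm
  have h3 : u * lift N ζ m = z * cexp (-(T * I)) := by
    rw [hz, mul_assoc, mul_assoc, ← Complex.exp_add]
    simp
  rw [h3]
  conv_lhs => rw [hz2]
  rw [mul_assoc, ← Complex.exp_add]
  congr 2
  push_cast
  ring

private theorem reach_line {N : ℕ} {u ζ : ℂ} {c : ℝ} {m : ℕ} {T θ : ℝ}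
    (h : Reach N u ζ c m T) (hθ : |θ| < Real.pi / 2)
    (he : u * lift N ζ m = (‖ζ‖ : ℝ) * cexp (((θ - T : ℝ) : ℂ) * I)) :
    ∀ X : ℝ, c ≤ u.re * (X ^ (2 : ℕ) - T ^ (2 : ℕ)) / 2 - u.im * X * T +
      Real.exp X * (‖ζ‖ * Real.cos θ) := by
  intro X
  have e : θ - T + T = θ := by ring
  have hcosp : 0 < Real.cos θ := by
    rw [abs_lt] at hθ
    exact Real.cos_pos_of_mem_Ioo hθ
  have := Gp_line (X := X) (T := T) he (norm_nonneg ζ) (by rw [e]; exact hcosp.le)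
  rw [e] at this
  rw [← this]
  exact h X

private theorem comb_false {N : ℕ} {u ζ : ℂ} (hu : ‖u‖ = 1) (hre : 0 ≤ u.re) (him : 0 ≤ u.im)
    (hζ : ζ ≠ 0) {c : ℝ} (hc : 0 < c) (hmax : IsMax N u ζ c) {m : ℕ} (hm : m < N)
    {θ1 θ3 T1 T3 lam : ℝ} (h1 : |θ1| < Real.pi / 2)
    (h3 : |θ3| < Real.pi / 2) (hne : (θ1, T1) ≠ (θ3, T3)) (hl : 0 < lam) (hl' : lam < 1)
    (g1 : ∀ X : ℝ, c ≤ u.re * (X ^ (2 : ℕ) - T1 ^ (2 : ℕ)) / 2 - u.im * X * T1 +
      Real.exp X * (‖ζ‖ * Real.cos θ1))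
    (g3 : ∀ X : ℝ, c ≤ u.re * (X ^ (2 : ℕ) - T3 ^ (2 : ℕ)) / 2 - u.im * X * T3 +
      Real.exp X * (‖ζ‖ * Real.cos θ3))
    (he : u * lift N ζ m = (‖ζ‖ : ℝ) *
      cexp ((((1 - lam) * (θ1 - T1) + lam * (θ3 - T3) : ℝ) : ℂ) * I)) : False := by
  have hab : u.re ^ (2 : ℕ) + u.im ^ (2 : ℕ) = 1 := by
    have := Complex.sq_norm u
    rw [hu, Complex.normSq_apply] at this
    rw [sq, sq, ← this, one_pow]
  obtain ⟨c1, hc1, hX⟩ := concave_comb hre him hab (norm_pos_iff.2 hζ) hc h1 h3 hne hl hl' g1 g3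
  obtain ⟨X, hlt⟩ := hmax m hm ((1 - lam) * T1 + lam * T3) c1 hc1
  have hθs := abs_comb h1 h3 hl hl'
  have hcosp : 0 < Real.cos ((1 - lam) * θ1 + lam * θ3) := by
    rw [abs_lt] at hθs
    exact Real.cos_pos_of_mem_Ioo hθs
  have e : (1 - lam) * (θ1 - T1) + lam * (θ3 - T3) + ((1 - lam) * T1 + lam * T3) =
      (1 - lam) * θ1 + lam * θ3 := by ring
  have := Gp_line (X := X) (T := (1 - lam) * T1 + lam * T3) he (norm_nonneg ζ)
    (by rw [e]; exact hcosp.le)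
  rw [e] at this
  rw [this] at hlt
  exact absurd (hX X) (not_le.2 hlt)

private theorem lift_inj {N : ℕ} {ζ : ℂ} (hζ : ζ ≠ 0) {m1 m2 : ℕ} (h1 : m1 < N) (h2 : m2 < N)
    (h : lift N ζ m1 = lift N ζ m2) : m1 = m2 := by
  have hN : (N : ℂ) ≠ 0 := by
    have : N ≠ 0 := by omega
    exact_mod_cast this
  unfold lift at h
  have h' := mul_left_cancel₀ hζ h
  rw [Complex.exp_eq_exp_iff_exists_int] at h'
  obtain ⟨n, hn⟩ := h'
  have hpi : (2 * Real.pi * I : ℂ) ≠ 0 := Complex.two_pi_I_ne_zero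
  have h3 : (m1 : ℂ) = m2 + n * N := by
    field_simp at hn
    have h4 : (2 * Real.pi * I : ℂ) * (m1 : ℂ) = (2 * Real.pi * I : ℂ) * (m2 + n * N) := by
      linear_combination (2 * Real.pi * I : ℂ) * hn
    exact mul_left_cancel₀ hpi h4
  have h4 : (m1 : ℤ) = m2 + n * N := by exact_mod_cast h3
  have hn0 : n = 0 := by
    by_contra hne
    rcases lt_or_gt_of_ne hne with hlt | hgt
    · have : n ≤ -1 := by omega
      have : n * (N : ℤ) ≤ -1 * (N : ℤ) := mul_le_mul_of_nonneg_right this (by positivity)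
      omega
    · have : 1 ≤ n := by omega
      have : 1 * (N : ℤ) ≤ n * (N : ℤ) := mul_le_mul_of_nonneg_right this (by positivity)
      omega
  rw [hn0] at h4
  omega

theorem top_two {N : ℕ} (hN : 0 < N) {u ζ : ℂ} (hu : ‖u‖ = 1) (hre : 0 ≤ u.re) (him : 0 ≤ u.im)
    (hζ : ζ ≠ 0) {c : ℝ} (hc : 0 < c) (hmax : IsMax N u ζ c) {m1 m2 m3 : ℕ} {T1 T2 T3 : ℝ}
    (hm1 : m1 < N) (hm2 : m2 < N) (hm3 : m3 < N) (h1 : Reach N u ζ c m1 T1)
    (h2 : Reach N u ζ c m2 T2) (h3 : Reach N u ζ c m3 T3) (h12 : (m1, T1) ≠ (m2, T2))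
    (h13 : (m1, T1) ≠ (m3, T3)) (h23 : (m2, T2) ≠ (m3, T3)) : False := by
  obtain ⟨θ1, t1, e1⟩ := line_arg hu hre him hc h1
  obtain ⟨θ2, t2, e2⟩ := line_arg hu hre him hc h2
  obtain ⟨θ3, t3, e3⟩ := line_arg hu hre him hc h3
  have g1 := reach_line h1 t1 e1
  have g2 := reach_line h2 t2 e2
  have g3 := reach_line h3 t3 e3
  have hu0 : u ≠ 0 := by
    intro h
    rw [h] at hu
    simp at hu
  -- equal angles
  have heq : ∀ (m m' : ℕ) (T T' θ θ' : ℝ), m < N → m' < N → (m, T) ≠ (m', T') →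
      |θ| < Real.pi / 2 → |θ'| < Real.pi / 2 →
      u * lift N ζ m = (‖ζ‖ : ℝ) * cexp (((θ - T : ℝ) : ℂ) * I) →
      u * lift N ζ m' = (‖ζ‖ : ℝ) * cexp (((θ' - T' : ℝ) : ℂ) * I) →
      (∀ X : ℝ, c ≤ u.re * (X ^ (2 : ℕ) - T ^ (2 : ℕ)) / 2 - u.im * X * T +
        Real.exp X * (‖ζ‖ * Real.cos θ)) →
      (∀ X : ℝ, c ≤ u.re * (X ^ (2 : ℕ) - T' ^ (2 : ℕ)) / 2 - u.im * X * T' +
        Real.exp X * (‖ζ‖ * Real.cos θ')) →
      θ - T ≠ θ' - T' := by
    intro m m' T T' θ θ' hm hm' hne ht ht' e e' g g' hη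
    have hmm : m = m' := by
      apply lift_inj hζ hm hm'
      apply mul_left_cancel₀ hu0
      rw [e, e', hη]
    have hTT : T ≠ T' := by
      intro h
      exact hne (by rw [hmm, h])
    refine comb_false hu hre him hζ hc hmax hm ht ht' (lam := 1 / 2) ?_ (by norm_num)
      (by norm_num) g g' ?_
    · intro h
      exact hTT (Prod.ext_iff.1 h).2
    · rw [e]
      congr 4
      rw [← hη]
      ring
  -- ordered angles
  have hord : ∀ (m m' m'' : ℕ) (T T' T'' θ θ' θ'' : ℝ), m' < N →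
      |θ| < Real.pi / 2 → |θ''| < Real.pi / 2 →
      u * lift N ζ m' = (‖ζ‖ : ℝ) * cexp (((θ' - T' : ℝ) : ℂ) * I) →
      (∀ X : ℝ, c ≤ u.re * (X ^ (2 : ℕ) - T ^ (2 : ℕ)) / 2 - u.im * X * T +
        Real.exp X * (‖ζ‖ * Real.cos θ)) →
      (∀ X : ℝ, c ≤ u.re * (X ^ (2 : ℕ) - T'' ^ (2 : ℕ)) / 2 - u.im * X * T'' +
        Real.exp X * (‖ζ‖ * Real.cos θ'')) →
      θ - T < θ' - T' → θ' - T' < θ'' - T'' → False := by
    intro m m' m'' T T' T'' θ θ' θ'' hm' ht ht'' e' g g'' hlt hlt'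
    have hd : 0 < (θ'' - T'') - (θ - T) := by linarith only [hlt, hlt']
    refine comb_false hu hre him hζ hc hmax hm' ht ht''
      (lam := ((θ' - T') - (θ - T)) / ((θ'' - T'') - (θ - T))) ?_ ?_ ?_ g g'' ?_
    · intro h
      have h5 := (Prod.ext_iff.1 h).1
      have h6 := (Prod.ext_iff.1 h).2
      simp only at h5 h6
      rw [h5, h6] at hd
      simp at hd
    · apply div_pos _ hd
      linarith only [hlt]
    · rw [div_lt_one hd]
      linarith only [hlt']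
    · rw [e']
      congr 4
      field_simp
      ring
  have n12 := heq m1 m2 T1 T2 θ1 θ2 hm1 hm2 h12 t1 t2 e1 e2 g1 g2
  have n13 := heq m1 m3 T1 T3 θ1 θ3 hm1 hm3 h13 t1 t3 e1 e3 g1 g3
  have n23 := heq m2 m3 T2 T3 θ2 θ3 hm2 hm3 h23 t2 t3 e2 e3 g2 g3
  rcases lt_or_gt_of_ne n12 with a | a
  · rcases lt_or_gt_of_ne n23 with b | b
    · exact hord m1 m2 m3 T1 T2 T3 θ1 θ2 θ3 hm2 t1 t3 e2 g1 g3 a b
    · rcases lt_or_gt_of_ne n13 with d | d
      · exact hord m1 m3 m2 T1 T3 T2 θ1 θ3 θ2 hm3 t1 t2 e3 g1 g2 d b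
      · exact hord m3 m1 m2 T3 T1 T2 θ3 θ1 θ2 hm1 t3 t2 e1 g3 g2 d a
  · rcases lt_or_gt_of_ne n13 with b | b
    · exact hord m2 m1 m3 T2 T1 T3 θ2 θ1 θ3 hm1 t2 t3 e1 g2 g3 a b
    · rcases lt_or_gt_of_ne n23 with d | d
      · exact hord m2 m3 m1 T2 T3 T1 θ2 θ3 θ1 hm3 t2 t1 e3 g2 g1 d b
      · exact hord m3 m2 m1 T3 T2 T1 θ3 θ2 θ1 hm2 t3 t1 e2 g3 g1 d a

end SokamV

end

/-! ### Lib_MP_af4de1_v.TopD -/

section
/-!
# Crossing the top point vertically [SV-TOPD]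

`S = X + TI`, `ρ = Re(uζe^{TI}) > 0`, `S + ζe^S = 0`.  `s ↦ Gh u ζ (S + sI)` has derivative `0` at `s = 0` and second derivative
`-Re(u(1+ζe^{S+sI})) = -(u.re + e^X Re(uζe^{(T+s)I})) < 0` for small `|s|`: strictly below `c` for `0 < |s| ≤ δ0`.  So for
`0 < δ ≤ δ0`, `Sad u (Ph ζ) c S (δ I)` (`deriv_Ph`, `deriv_deriv_Ph`: `u(1+ζe^S)(δI)²` has real part `-δ²(u.re + e^Xρ) < 0`).
`Re(uζe^{(T±δ)I}) > 0` for small `δ`, so `Gp X (T±δ) = Gh(S ± δI) < c`.
-/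

namespace SokamV

open Complex Filter Topology

/-- the exponential on a vertical line -/
private theorem topd_exp (τ : ℝ) : cexp (τ * I) = (⟨Real.cos τ, Real.sin τ⟩ : ℂ) := by
  apply Complex.ext
  · exact Complex.exp_ofReal_mul_I_re τ
  · exact Complex.exp_ofReal_mul_I_im τ

private theorem topd_re (w : ℂ) (τ : ℝ) :
    (w * cexp (τ * I)).re = w.re * Real.cos τ - w.im * Real.sin τ := by
  rw [topd_exp, Complex.mul_re]

private theorem topd_im (w : ℂ) (τ : ℝ) :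
    (w * cexp (τ * I)).im = w.re * Real.sin τ + w.im * Real.cos τ := by
  rw [topd_exp, Complex.mul_im]

private theorem topd_Gh (u ζ : ℂ) (X τ : ℝ) : Gh u ζ (X + τ * I) =
    u.re * (X ^ (2 : ℕ) - τ ^ (2 : ℕ)) / 2 - u.im * X * τ + Real.exp X * (u * ζ * cexp (τ * I)).re := by
  have h1 : u * Ph ζ (X + τ * I) = u * ((X + τ * I) ^ (2 : ℕ) / 2) +
      (Real.exp X : ℂ) * (u * ζ * cexp (τ * I)) := by
    rw [Ph, Complex.exp_add, Complex.ofReal_exp]
    ring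
  have h2 : ((X : ℂ) + τ * I) ^ (2 : ℕ) / 2 = (⟨(X ^ (2 : ℕ) - τ ^ (2 : ℕ)) / 2, X * τ⟩ : ℂ) := by
    have hI : (I : ℂ) ^ (2 : ℕ) = -1 := Complex.I_sq
    have this : ((X : ℂ) + τ * I) ^ (2 : ℕ) / 2 =
        (((X ^ (2 : ℕ) - τ ^ (2 : ℕ)) / 2 : ℝ) : ℂ) + ((X * τ : ℝ) : ℂ) * I := by
      push_cast
      linear_combination ((τ : ℂ) ^ (2 : ℕ) / 2) * hI
    rw [this]
    apply Complex.ext
    · rw [Complex.add_re, Complex.ofReal_re, Complex.re_ofReal_mul, Complex.I_re, mul_zero,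
        add_zero]
    · rw [Complex.add_im, Complex.ofReal_im, Complex.im_ofReal_mul, Complex.I_im, mul_one,
        zero_add]
  rw [Gh, h1, h2, Complex.add_re, Complex.mul_re u, Complex.re_ofReal_mul]
  ring

/-- the imaginary part of the critical equation -/
private theorem topd_crit {u ζ : ℂ} {X T : ℝ}
    (hS : (X + T * I : ℂ) + ζ * cexp (X + T * I) = 0) :
    u.re * T + u.im * X + Real.exp X * (u * ζ * cexp (T * I)).im = 0 := by
  have h1 : u * ((X + T * I : ℂ) + ζ * cexp (X + T * I)) = u * (X + T * I) +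
      (Real.exp X : ℂ) * (u * ζ * cexp (T * I)) := by
    rw [Complex.exp_add, Complex.ofReal_exp]
    ring
  rw [hS, mul_zero] at h1
  generalize u * ζ * cexp (T * I) = w at h1 ⊢
  have h2 := congrArg Complex.im h1
  rw [Complex.add_im, Complex.mul_im u, Complex.im_ofReal_mul] at h2
  simp only [Complex.zero_im, Complex.add_im, Complex.ofReal_im, Complex.mul_im, Complex.ofReal_re,
    Complex.I_im, Complex.I_re, Complex.add_re, Complex.mul_re, mul_one, mul_zero, zero_add,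
    add_zero, sub_zero] at h2
  linarith only [h2]

/-- the height on the vertical line through the top point -/
private theorem topd_diff {u ζ : ℂ} {X T : ℝ}
    (hS : (X + T * I : ℂ) + ζ * cexp (X + T * I) = 0) (s : ℝ) :
    Gh u ζ (X + (T + s : ℝ) * I) = Gh u ζ (X + T * I) - u.re * s ^ (2 : ℕ) / 2 +
      Real.exp X * ((u * ζ * cexp (T * I)).re * (Real.cos s - 1) -
        (u * ζ * cexp (T * I)).im * (Real.sin s - s)) := by
  have hc := topd_crit (u := u) hS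
  rw [topd_Gh, topd_Gh]
  rw [topd_re, topd_re, topd_im] at *
  rw [Real.cos_add, Real.sin_add]
  linear_combination (-s) * hc

private theorem topd_rho (w : ℂ) (T s : ℝ) : (w * cexp ((T + s : ℝ) * I)).re =
    (w * cexp (T * I)).re * Real.cos s - (w * cexp (T * I)).im * Real.sin s := by
  rw [topd_re, topd_re, topd_im, Real.cos_add, Real.sin_add]
  ring

/-- elementary inequality -/
private theorem topd_ineq {ρ σ s : ℝ} (hρ : 0 < ρ) (h1 : |s| ≤ 1) (h2 : |σ| * |s| < ρ / 2)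
    (hs : s ≠ 0) : ρ * (Real.cos s - 1) - σ * (Real.sin s - s) < 0 := by
  have hc := abs_le.1 (Real.cos_bound h1)
  have hsn := abs_le.1 (Real.sin_bound h1)
  have hs0 : 0 < |s| := abs_pos.2 hs
  have e2 : s ^ (2 : ℕ) = |s| ^ (2 : ℕ) := (sq_abs s).symm
  have h4 : |s| ^ (4 : ℕ) ≤ |s| ^ (2 : ℕ) := by nlinarith only [pow_le_one₀ hs0.le h1 (n := 2)]
  have h43 : |s| ^ (4 : ℕ) ≤ |s| ^ (3 : ℕ) := by
    have : |s| ^ (4 : ℕ) = |s| ^ (3 : ℕ) * |s| := by ring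
    rw [this]
    nlinarith only [hs0, h4]
  have hcos : Real.cos s - 1 ≤ -(43 / 96) * |s| ^ (2 : ℕ) := by
    have := hc.2
    rw [e2] at this
    nlinarith only [h43, this]
  have hsin : |Real.sin s - s| ≤ |s| ^ (3 : ℕ) / 4 := by
    have e3 : |s ^ (3 : ℕ)| = |s| ^ (3 : ℕ) := abs_pow s 3
    have hb := abs_le.1 (le_of_eq e3)
    have hb1 : -|s| ^ (3 : ℕ) ≤ s ^ (3 : ℕ) := by rw [← e3]; exact neg_abs_le _
    have hb2 : s ^ (3 : ℕ) ≤ |s| ^ (3 : ℕ) := by rw [← e3]; exact le_abs_self _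
    rw [abs_le]
    constructor <;> nlinarith [hsn.1, hsn.2]
  have h5 : -(σ * (Real.sin s - s)) ≤ |σ| * (|s| ^ (3 : ℕ) / 4) := by
    calc -(σ * (Real.sin s - s)) ≤ |σ * (Real.sin s - s)| := neg_le_abs _
      _ = |σ| * |Real.sin s - s| := abs_mul _ _
      _ ≤ _ := mul_le_mul_of_nonneg_left hsin (abs_nonneg _)
  have h6 : |σ| * (|s| ^ (3 : ℕ) / 4) ≤ ρ / 2 * (|s| ^ (2 : ℕ) / 4) := by
    have : |σ| * (|s| ^ (3 : ℕ) / 4) = (|σ| * |s|) * (|s| ^ (2 : ℕ) / 4) := by ring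
    rw [this]
    exact mul_le_mul_of_nonneg_right h2.le (by (clear * - hs; positivity))
  have h7 : ρ * (Real.cos s - 1) ≤ ρ * (-(43 / 96) * |s| ^ (2 : ℕ)) :=
    mul_le_mul_of_nonneg_left hcos hρ.le
  have h8 : 0 < ρ * |s| ^ (2 : ℕ) := by (clear * - hρ hs; positivity)
  linarith only [h5, h6, h7, h8]

theorem top_sad {u ζ : ℂ} (hre : 0 ≤ u.re) {c X T : ℝ} (hG : Gh u ζ (X + T * I) = c)
    (hρ : 0 < (u * ζ * cexp (T * I)).re) (hS : (X + T * I : ℂ) + ζ * cexp (X + T * I) = 0) :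
    ∃ δ0 : ℝ, 0 < δ0 ∧ ∀ δ : ℝ, 0 < δ → δ ≤ δ0 → Sad u (Ph ζ) c (X + T * I) (δ * I) ∧
      Gp u ζ X (T - δ) < c ∧ Gp u ζ X (T + δ) < c := by
  set ρ := (u * ζ * cexp (T * I)).re with hρd
  set σ := (u * ζ * cexp (T * I)).im with hσd
  have hσ0 : 0 ≤ |σ| := abs_nonneg _
  have hden : 0 < 2 * (|σ| + 1) := by positivity
  -- everything below the level
  have key : ∀ s : ℝ, |s| ≤ 1 → |s| ≤ ρ / (2 * (|σ| + 1)) → |σ| * |s| < ρ / 2 := by
    intro s _ h
    have h1 : |s| * (2 * (|σ| + 1)) ≤ ρ := (le_div_iff₀ hden).1 h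
    rcases eq_or_lt_of_le (abs_nonneg s) with h0 | h0
    · rw [← h0, mul_zero]; (clear * - hρ; positivity)
    · linarith only [h1, h0]
  have low : ∀ s : ℝ, |s| ≤ 1 → |s| ≤ ρ / (2 * (|σ| + 1)) → s ≠ 0 →
      Gh u ζ (X + (T + s : ℝ) * I) < c := by
    intro s h1 h2 hs
    rw [topd_diff hS s, hG]
    have h3 := topd_ineq hρ h1 (key s h1 h2) hs
    have h4 : Real.exp X * (ρ * (Real.cos s - 1) - σ * (Real.sin s - s)) < 0 :=
      mul_neg_of_pos_of_neg (Real.exp_pos X) h3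
    have h5 : 0 ≤ u.re * s ^ (2 : ℕ) / 2 := by (clear * - hre hs; positivity)
    linarith only [h4, h5]
  have pos : ∀ s : ℝ, |s| ≤ 1 → |s| ≤ ρ / (2 * (|σ| + 1)) →
      0 < (u * ζ * cexp ((T + s : ℝ) * I)).re := by
    intro s h1 h2
    rw [topd_rho]
    have hk := key s h1 h2
    have hc : 1 / 2 ≤ Real.cos s := by
      have := Real.one_sub_sq_div_two_le_cos (x := s)
      have h3 : s ^ (2 : ℕ) ≤ 1 := (sq_le_one_iff_abs_le_one s).2 h1
      linarith only [this, h3]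
    have hs : |Real.sin s| ≤ |s| := Real.abs_sin_le_abs
    have h4 : σ * Real.sin s ≤ |σ| * |s| :=
      calc σ * Real.sin s ≤ |σ * Real.sin s| := le_abs_self _
        _ = |σ| * |Real.sin s| := abs_mul _ _
        _ ≤ _ := mul_le_mul_of_nonneg_left hs hσ0
    have h5 : ρ * (1 / 2) ≤ ρ * Real.cos s := mul_le_mul_of_nonneg_left hc hρ.le
    linarith only [hk, h4, h5]
  have gp : ∀ s : ℝ, |s| ≤ 1 → |s| ≤ ρ / (2 * (|σ| + 1)) → s ≠ 0 → Gp u ζ X (T + s) < c := by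
    intro s h1 h2 hs
    have h3 := low s h1 h2 hs
    rw [topd_Gh] at h3
    rw [Gp, max_eq_left (pos s h1 h2).le]
    exact h3
  refine ⟨min 1 (ρ / (2 * (|σ| + 1))), lt_min one_pos (by (clear * - hρ; positivity)), ?_⟩
  intro δ hδ hδ0
  have hd1 : δ ≤ 1 := hδ0.trans (min_le_left _ _)
  have hd2 : δ ≤ ρ / (2 * (|σ| + 1)) := hδ0.trans (min_le_right _ _)
  have hc : deriv (Ph ζ) (X + T * I) = 0 := by rw [deriv_Ph, hS]
  refine ⟨⟨hc, hG, ?_, ?_⟩, ?_, ?_⟩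
  · have h1 : u * deriv (deriv (Ph ζ)) (X + T * I) * (δ * I) ^ (2 : ℕ) =
        ((-δ ^ (2 : ℕ) : ℝ) : ℂ) * (u + (Real.exp X : ℂ) * (u * ζ * cexp (T * I))) := by
      rw [deriv_deriv_Ph, Complex.exp_add, Complex.ofReal_exp, mul_pow, Complex.I_sq]
      push_cast
      ring
    rw [h1, Complex.re_ofReal_mul, Complex.add_re, Complex.re_ofReal_mul, ← hρd]
    have h2 : 0 < u.re + Real.exp X * ρ := by (clear * - hre hρ; positivity)
    have h3 : 0 < δ ^ (2 : ℕ) := by (clear * - hδ; positivity)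
    nlinarith only [h2, h3]
  · intro s hs hs0
    have h1 : (X + T * I : ℂ) + s * (δ * I) = X + ((T + s * δ : ℝ) : ℂ) * I := by
      push_cast; ring
    rw [h1]
    have h2 : |s * δ| ≤ δ := by
      rw [abs_mul, abs_of_pos hδ]
      nlinarith only [hδ, hs]
    exact low (s * δ) (h2.trans hd1) (h2.trans hd2) (mul_ne_zero hs0 hδ.ne')
  · have h := gp (-δ) (by rw [abs_neg, abs_of_pos hδ]; exact hd1)
      (by rw [abs_neg, abs_of_pos hδ]; exact hd2) (neg_ne_zero.2 hδ.ne')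
    rwa [← sub_eq_add_neg] at h
  · exact gp δ (by rw [abs_of_pos hδ]; exact hd1) (by rw [abs_of_pos hδ]; exact hd2) hδ.ne'

end SokamV

end

/-! ### Lib_MP_af4de1_v.StaticG -/

section
/-!
# The static lemma for a positive top height [SV-STATG]

`c` from `top_exists`.  The set `𝒯 = {(m,T) : m < N, Reach c m T}` has one or two elements (`top_two`).  For each of them
`top_point` gives `X` and the saddle point `S = X + TI`, `top_sad` gives `δ0`.  Choose `δ` smaller than these `δ0`, and smaller than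
half the distance of the two `T`'s if they belong to the same lift.  Choose `c' < c`, `c' > 0`, by `top_near` (with this `δ`), larger than
the finitely many values `Gp X (T ± δ) < c`.  For a lift `m` and `T` at distance `≥ δ` from all its top lines there is `X` with
`Gp u ζ_m X T < c'` (not `Reach c'`).  `R0` large: `Gp 1 R, Gp (-1) (-R) < c'` for `R ≥ R0` (`Gp_tail`) and `R0 > |T| + δ`.
Chain for the lift `m` from `-1-RI` to `1+RI`: `fibre` on `[-R, T1-δ]` (end points `X = -1` and `X1`), pass `S1` with `v = δI`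
(`S1 - v = X1 + (T1-δ)I`), `fibre` on `[T1+δ, T2-δ]`, pass `S2`, `fibre` on `[T2+δ, R]` (or fewer).  `Chain` is about
`fun H => (u * Ph ζ H).re`, which is `Gh u ζ` by definition.
-/

namespace SokamV

open Complex Filter Topology

/-- The chain through a sorted list of top lines. -/
private lemma chain_list {u ζ : ℂ} (hu : 0 ≤ u.re) {c c' δ Tb Xb : ℝ} (hδ : 0 < δ) (X : ℝ → ℝ)
    (hb : Gp u ζ Xb Tb < c') : ∀ (Ts : List ℝ) (Ta Xa : ℝ), Gp u ζ Xa Ta < c' →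
    Ts.Pairwise (fun s t => s + δ ≤ t - δ) → (∀ T ∈ Ts, Ta ≤ T - δ ∧ T + δ ≤ Tb) → Ta ≤ Tb →
    (∀ T ∈ Ts, Sad u (Ph ζ) c (X T + T * I) (δ * I) ∧ Gp u ζ (X T) (T - δ) < c' ∧
      Gp u ζ (X T) (T + δ) < c') →
    (∀ T' ∈ Set.Icc Ta Tb, (∀ T ∈ Ts, δ ≤ |T' - T|) → ∃ X' : ℝ, Gp u ζ X' T' < c') →
    Chain u (Ph ζ) c c' (Xa + Ta * I) (Ts.map fun T => (X T + T * I : ℂ)) (Xb + Tb * I) := by
  intro Ts
  induction Ts with
  | nil =>
    intro Ta Xa ha _ _ hab _ hfar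
    refine Chain.nil ?_
    exact fibre hu hab (fun T hT => hfar T hT (by simp)) ha hb
  | cons T Ts ih =>
    intro Ta Xa ha hp hT hab hS hfar
    rw [List.pairwise_cons] at hp
    have h1 := hT T (List.mem_cons_self ..)
    have h2 := hS T (List.mem_cons_self ..)
    rw [List.map_cons]
    refine Chain.cons (v := δ * I) ?_ h2.1 ?_
    · have h3 : Conn (Gh u ζ) c' (Xa + Ta * I) (X T + ((T - δ : ℝ) : ℂ) * I) := by
        refine fibre hu h1.1 (fun T' hT' => hfar T' ⟨hT'.1, by linarith only [hδ, hT'.2, h1.2]⟩ ?_) ha h2.2.1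
        intro T2 hT2
        rcases List.mem_cons.1 hT2 with h4 | h4
        · rw [h4, abs_sub_comm]
          exact le_trans (by linarith only [hT'.2]) (le_abs_self _)
        · have h5 := hp.1 T2 h4
          rw [abs_sub_comm]
          exact le_trans (by linarith only [hδ, h5, hT'.2]) (le_abs_self _)
      have h6 : ((X T : ℂ) + ((T - δ : ℝ) : ℂ) * I) = (X T + T * I) - δ * I := by
        push_cast
        ring
      rw [h6] at h3
      exact h3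
    · have h3 := ih (T + δ) (X T) h2.2.2 hp.2
        (fun T2 hT2 => ⟨hp.1 T2 hT2, (hT T2 (List.mem_cons_of_mem _ hT2)).2⟩) h1.2
        (fun T2 hT2 => hS T2 (List.mem_cons_of_mem _ hT2)) (by
          intro T' hT' hd
          refine hfar T' ⟨by linarith only [hδ, hT'.1, h1.1], hT'.2⟩ ?_
          intro T2 hT2
          rcases List.mem_cons.1 hT2 with h4 | h4
          · rw [h4]
            exact le_trans (by linarith only [hT'.1]) (le_abs_self _)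
          · exact hd T2 h4)
      have h6 : ((X T : ℂ) + ((T + δ : ℝ) : ℂ) * I) = (X T + T * I) + δ * I := by
        push_cast
        ring
      rw [h6] at h3
      exact h3

/-- The top lines form a finite set with one or two elements. -/
private lemma top_finset {N : ℕ} (hN : 0 < N) {u ζ : ℂ} (hu : ‖u‖ = 1) (hre : 0 ≤ u.re)
    (him : 0 ≤ u.im) (hζ : ζ ≠ 0) {c : ℝ} (hc : 0 < c) (hmax : IsMax N u ζ c)
    (hex : ∃ m < N, ∃ T : ℝ, Reach N u ζ c m T) :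
    ∃ P : Finset (ℕ × ℝ), (∀ p, p ∈ P ↔ p.1 < N ∧ Reach N u ζ c p.1 p.2) ∧ 1 ≤ P.card ∧
      P.card ≤ 2 := by
  classical
  obtain ⟨m1, hm1, T1, h1⟩ := hex
  by_cases h : ∃ m2 < N, ∃ T2 : ℝ, Reach N u ζ c m2 T2 ∧ (m1, T1) ≠ (m2, T2)
  · obtain ⟨m2, hm2, T2, h2, h12⟩ := h
    refine ⟨{(m1, T1), (m2, T2)}, ?_, ?_, ?_⟩
    · rintro ⟨m3, T3⟩
      rw [Finset.mem_insert, Finset.mem_singleton]
      constructor
      · rintro (h3 | h3)
        · rw [h3]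
          exact ⟨hm1, h1⟩
        · rw [h3]
          exact ⟨hm2, h2⟩
      · rintro ⟨hm3, h3⟩
        by_contra hcon
        rw [not_or] at hcon
        exact top_two hN hu hre him hζ hc hmax hm1 hm2 hm3 h1 h2 h3 h12 (Ne.symm hcon.1)
          (Ne.symm hcon.2)
    · rw [Finset.card_pair h12]
      norm_num
    · rw [Finset.card_pair h12]
  · refine ⟨{(m1, T1)}, ?_, by simp, by simp⟩
    rintro ⟨m3, T3⟩
    rw [Finset.mem_singleton]
    constructor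
    · intro h3
      rw [h3]
      exact ⟨hm1, h1⟩
    · rintro ⟨hm3, h3⟩
      by_contra hcon
      exact h ⟨m3, hm3, T3, h3, Ne.symm hcon⟩

/-- The saddle points and the choice of `δ`. -/
private lemma exists_delta {N : ℕ} {u ζ : ℂ} (hu : ‖u‖ = 1) (hre : 0 ≤ u.re) (him : 0 ≤ u.im)
    {c : ℝ} (hc : 0 < c) (hmax : IsMax N u ζ c) {P : Finset (ℕ × ℝ)}
    (hP : ∀ p, p ∈ P ↔ p.1 < N ∧ Reach N u ζ c p.1 p.2) :
    ∃ (X : ℕ × ℝ → ℝ) (δ : ℝ), 0 < δ ∧
      (∀ p ∈ P, Sad u (Ph (lift N ζ p.1)) c (X p + p.2 * I) (δ * I) ∧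
      Gp u (lift N ζ p.1) (X p) (p.2 - δ) < c ∧ Gp u (lift N ζ p.1) (X p) (p.2 + δ) < c) ∧
      ∀ p ∈ P, ∀ q ∈ P, p.2 < q.2 → p.2 + δ ≤ q.2 - δ := by
  have hpt : ∀ p : ℕ × ℝ, ∃ X : ℝ, p ∈ P → ∃ δ0 : ℝ, 0 < δ0 ∧ ∀ δ : ℝ, 0 < δ → δ ≤ δ0 →
      Sad u (Ph (lift N ζ p.1)) c (X + p.2 * I) (δ * I) ∧
      Gp u (lift N ζ p.1) X (p.2 - δ) < c ∧ Gp u (lift N ζ p.1) X (p.2 + δ) < c := by
    intro p
    by_cases hp : p ∈ P
    · obtain ⟨hp1, hp2⟩ := (hP p).1 hp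
      obtain ⟨X, hX1, hX2, hX3, hX4⟩ := top_point hu hre him hc hp2
        (fun T' c1 hc1 => hmax p.1 hp1 T' c1 hc1)
      exact ⟨X, fun _ => top_sad hre hX2 hX3 hX4⟩
    · exact ⟨0, fun h => absurd h hp⟩
  choose X hX using hpt
  have h1 : ∀ᶠ δ : ℝ in 𝓝[>] (0 : ℝ), ∀ p ∈ P,
      Sad u (Ph (lift N ζ p.1)) c (X p + p.2 * I) ((δ : ℂ) * I) ∧
      Gp u (lift N ζ p.1) (X p) (p.2 - δ) < c ∧ Gp u (lift N ζ p.1) (X p) (p.2 + δ) < c := by
    rw [Filter.eventually_all_finset]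
    intro p hp
    obtain ⟨δ0, hδ0, h2⟩ := hX p hp
    filter_upwards [Ioc_mem_nhdsGT hδ0] with δ hδ
    exact h2 δ hδ.1 hδ.2
  have h2 : ∀ᶠ δ : ℝ in 𝓝[>] (0 : ℝ), ∀ p ∈ P, ∀ q ∈ P, p.2 < q.2 → p.2 + δ ≤ q.2 - δ := by
    rw [Filter.eventually_all_finset]
    intro p hp
    rw [Filter.eventually_all_finset]
    intro q hq
    by_cases hpq : p.2 < q.2
    · filter_upwards [Ioc_mem_nhdsGT (show (0 : ℝ) < (q.2 - p.2) / 2 by linarith only [hpq])] with δ hδ _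
      linarith only [hδ.2]
    · exact Filter.Eventually.of_forall fun δ h => absurd h hpq
  have h3 : ∀ᶠ δ : ℝ in 𝓝[>] (0 : ℝ), 0 < δ := self_mem_nhdsWithin
  obtain ⟨δ, hδ1, hδ2, hδ3⟩ := (h1.and (h2.and h3)).exists
  exact ⟨X, δ, hδ3, hδ1, hδ2⟩

/-- The choice of `c'`. -/
private lemma exists_c' {N : ℕ} {u ζ : ℂ} {c c1 δ : ℝ} (hc1 : c1 < c) {P : Finset (ℕ × ℝ)}
    {X : ℕ × ℝ → ℝ} (h : ∀ p ∈ P, Gp u (lift N ζ p.1) (X p) (p.2 - δ) < c ∧
      Gp u (lift N ζ p.1) (X p) (p.2 + δ) < c) :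
    ∃ c' : ℝ, c' < c ∧ c1 < c' ∧ ∀ p ∈ P,
      Gp u (lift N ζ p.1) (X p) (p.2 - δ) < c' ∧ Gp u (lift N ζ p.1) (X p) (p.2 + δ) < c' := by
  have h1 : ∀ᶠ c' : ℝ in 𝓝[<] c, ∀ p ∈ P,
      Gp u (lift N ζ p.1) (X p) (p.2 - δ) < c' ∧ Gp u (lift N ζ p.1) (X p) (p.2 + δ) < c' := by
    rw [Filter.eventually_all_finset]
    intro p hp
    obtain ⟨h2, h3⟩ := h p hp
    filter_upwards [Ioo_mem_nhdsLT h2, Ioo_mem_nhdsLT h3] with c' h4 h5
    exact ⟨h4.1, h5.1⟩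
  have h2 : ∀ᶠ c' : ℝ in 𝓝[<] c, c' ∈ Set.Ioo c1 c := Ioo_mem_nhdsLT hc1
  obtain ⟨c', h3, h4⟩ := (h1.and h2).exists
  exact ⟨c', h4.2, h4.1, h3⟩

/-- The contour for one lift. -/
private lemma good_lift {N m : ℕ} {u ζ : ℂ} (hu : ‖u‖ = 1) (hre : 0 ≤ u.re) (him : 0 ≤ u.im)
    {c c' δ : ℝ} (hc' : 0 < c') (hc'c : c' < c) (hδ : 0 < δ) (F : Finset ℝ) (X : ℝ → ℝ)
    (hS : ∀ T ∈ F, Sad u (Ph (lift N ζ m)) c (X T + T * I) (δ * I) ∧
      Gp u (lift N ζ m) (X T) (T - δ) < c' ∧ Gp u (lift N ζ m) (X T) (T + δ) < c')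
    (hsep : ∀ s ∈ F, ∀ t ∈ F, s < t → s + δ ≤ t - δ)
    (hfar : ∀ T' : ℝ, (∀ T ∈ F, δ ≤ |T' - T|) → ∃ X' : ℝ, Gp u (lift N ζ m) X' T' < c') :
    Good u (lift N ζ m) c ((F.sort).map fun T => (X T + T * I : ℂ)) := by
  refine ⟨c', hc'c, 2 + 6 * ‖ζ‖ + ∑ T ∈ F, |T| + δ, ?_⟩
  intro R hR
  have hζ0 : 0 ≤ ‖ζ‖ := norm_nonneg _
  have hsum0 : 0 ≤ ∑ T ∈ F, |T| := Finset.sum_nonneg fun _ _ => abs_nonneg _
  have hR1 : 1 ≤ R := by linarith only [hδ, hR, hζ0, hsum0]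
  have htail := Gp_tail (ζ := lift N ζ m) hu hre him hR1
  rw [norm_lift] at htail
  have ha : Gp u (lift N ζ m) (-1) (-R) < c' := by linarith only [hc', hδ, hR, hsum0, htail.2]
  have hb : Gp u (lift N ζ m) 1 R < c' := by linarith only [hc', hδ, hR, hsum0, htail]
  have hTle : ∀ T ∈ F.sort, |T| + δ ≤ R := by
    intro T hT
    have h2 : |T| ≤ ∑ T ∈ F, |T| :=
      Finset.single_le_sum (f := fun T : ℝ => |T|) (fun _ _ => abs_nonneg _)
        ((Finset.mem_sort _).1 hT)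
    linarith only [hR, hζ0, h2]
  have hpw : (F.sort).Pairwise (fun s t => s + δ ≤ t - δ) := by
    refine (Finset.sortedLT_sort F).pairwise.imp_of_mem ?_
    intro s t hs ht hst
    exact hsep _ ((Finset.mem_sort _).1 hs) _ ((Finset.mem_sort _).1 ht) hst
  have hT2 : ∀ T ∈ F.sort, -R ≤ T - δ ∧ T + δ ≤ R := by
    intro T hT
    have h1 := hTle T hT
    have h2 := abs_le.1 (le_refl |T|)
    exact ⟨by linarith only [h1, h2.1], by linarith only [h1, h2.2]⟩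
  have key := chain_list (u := u) (ζ := lift N ζ m) (c := c) hre hδ X hb
    (F.sort) (-R) (-1) ha hpw hT2 (by linarith only [hR1])
    (fun T hT => hS T ((Finset.mem_sort _).1 hT))
    (fun T' _ hd => hfar T' (fun T hT => hd T ((Finset.mem_sort _).2 hT)))
  have e1 : (((-1 : ℝ) : ℂ) + ((-R : ℝ) : ℂ) * I) = -1 - R * I := by
    push_cast
    ring
  have e2 : (((1 : ℝ) : ℂ) + (R : ℂ) * I) = 1 + R * I := by
    push_cast
    ring
  rw [e1, e2] at key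
  exact key

/-- The fibres of a finite set of pairs. -/
private lemma fibres {N : ℕ} {P : Finset (ℕ × ℝ)} (hP : ∀ p ∈ P, p.1 < N) :
    ∃ F : ℕ → Finset ℝ, (∀ m T, T ∈ F m ↔ (m, T) ∈ P) ∧
      ∑ m ∈ Finset.range N, (F m).card = P.card := by
  classical
  refine ⟨fun m => (P.filter (fun p => p.1 = m)).image Prod.snd, ?_, ?_⟩
  · intro m T
    simp only [Finset.mem_image, Finset.mem_filter]
    constructor
    · rintro ⟨⟨m', T'⟩, ⟨h1, h2⟩, h3⟩
      simp only at h2 h3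
      rw [← h2, ← h3]
      exact h1
    · intro h1
      exact ⟨(m, T), ⟨h1, rfl⟩, rfl⟩
  · rw [Finset.card_eq_sum_card_fiberwise (f := Prod.fst) (t := Finset.range N)]
    · refine Finset.sum_congr rfl fun m _ => ?_
      refine Finset.card_image_of_injOn ?_
      intro p hp q hq hpq
      have h1 := (Finset.mem_filter.1 (Finset.mem_coe.1 hp)).2
      have h2 := (Finset.mem_filter.1 (Finset.mem_coe.1 hq)).2
      exact Prod.ext (h1.trans h2.symm) hpq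
    · intro p hp
      exact Finset.mem_coe.2 (Finset.mem_range.2 (hP p (Finset.mem_coe.1 hp)))

theorem static_G {N : ℕ} (hN : 0 < N) {u ζ : ℂ} (hu : ‖u‖ = 1) (hre : 0 ≤ u.re) (him : 0 ≤ u.im)
    (hζ : ζ ≠ 0) (h : ∃ m < N, TopPos u (lift N ζ m)) :
    ∃ (c : ℝ) (L : ℕ → List ℂ), (∀ m < N, Good u (lift N ζ m) c (L m)) ∧
      (∀ m < N, (L m).Nodup) ∧ 1 ≤ ∑ m ∈ Finset.range N, (L m).length ∧
      ∑ m ∈ Finset.range N, (L m).length ≤ 2 := by
  obtain ⟨c, hc, hmax, hex⟩ := top_exists hu hre him h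
  obtain ⟨P, hP, hP1, hP2⟩ := top_finset hN hu hre him hζ hc hmax hex
  obtain ⟨X, δ, hδ, hδ1, hδ2⟩ := exists_delta hu hre him hc hmax hP
  obtain ⟨c1, hc1, hc1c, hnear⟩ := top_near (N := N) (ζ := ζ) hu hre him hc hδ
  obtain ⟨c', hc'c, hc1c', hP'⟩ := exists_c' hc1c (fun p hp => (hδ1 p hp).2)
  obtain ⟨F, hF, hFc⟩ := fibres (N := N) (P := P) (fun p hp => ((hP p).1 hp).1)
  have hlen : ∑ m ∈ Finset.range N,
      (((F m).sort).map fun T => (X (m, T) + T * I : ℂ)).length = P.card := by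
    rw [← hFc]
    refine Finset.sum_congr rfl fun m _ => ?_
    rw [List.length_map, Finset.length_sort]
  refine ⟨c, fun m => ((F m).sort).map fun T => (X (m, T) + T * I : ℂ), ?_, ?_,
    by rw [hlen]; exact hP1, by rw [hlen]; exact hP2⟩
  · intro m hm
    refine good_lift hu hre him (hc1.trans hc1c') hc'c hδ (F m) (fun T => X (m, T)) ?_ ?_ ?_
    · intro T hT
      have h1 : (m, T) ∈ P := (hF m T).1 hT
      exact ⟨(hδ1 (m, T) h1).1, hP' (m, T) h1⟩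
    · intro s hs t ht hst
      exact hδ2 (m, s) ((hF m s).1 hs) (m, t) ((hF m t).1 ht) hst
    · intro T' hd
      by_contra hcon
      push Not at hcon
      have h1 : Reach N u ζ c1 m T' := fun X' => le_trans hc1c'.le (hcon X')
      obtain ⟨T2, h2, h3⟩ := hnear m hm T' h1
      have h4 : T2 ∈ F m := (hF m T2).2 ((hP (m, T2)).2 ⟨hm, h2⟩)
      exact absurd (hd T2 h4) (not_le.2 h3)
  · intro m _
    refine (Finset.sort_nodup _ _).map ?_
    intro T T' hTT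
    have := congrArg im hTT
    simpa using this

end SokamV

end

/-! ### Lib_MP_af4de1_v.TipSplit -/

section
/-!
# The part of the contour near the tip [SV-TSPL]

`exists_fam h` gives a family `F` (`Ψ0 = Ph (-e⁻¹)`).  `TipConn` with `ρ := min ρ0 ρ1` gives `c' < -u0.re/2` and `R0`; choose `R ≥ max(R0, 1)` with
`1/2 + 3(e⁻¹+1) - R/2 ≤ c'`.  `rep_E` with `P = F.P n`: `Ev = (P(1+RI) - P(-1-RI)) + tails`, `tail_pos`, `tail_neg` (`‖ζ n‖ ≤ e⁻¹ + 1` for large `n`):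
the tails are `≤ C exp(c'/‖t n‖)`; `Fam.rel` for the two connections: `P(1+RI) - P(1+ρ ep)` and `P(1+ρ em) - P(-1-RI)` are `≤ C exp(c'/‖t n‖)`.  Same for `Dv`,
`rep_DE`, `Q`.  Differences of a primitive do not depend on the primitive: two primitives of the same function differ by a constant
(`HasDerivAt` of the difference is `0` everywhere: `is_const_of_deriv_eq_zero`).
-/

namespace SokamV

open Complex Filter Topology

private theorem prim_diff {P P' f : ℂ → ℂ} (h : ∀ H, HasDerivAt P (f H) H)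
    (h' : ∀ H, HasDerivAt P' (f H) H) (A B : ℂ) : P B - P A = P' B - P' A := by
  have hd : ∀ H, HasDerivAt (fun H => P H - P' H) 0 H := fun H => by
    have := (h H).sub (h' H)
    rw [sub_self] at this
    exact this
  have hc := is_const_of_deriv_eq_zero (fun H => (hd H).differentiableAt) (fun H => (hd H).deriv) B A
  linear_combination hc

theorem tip_split {t ζ : ℕ → ℂ} {u0 : ℂ} (h : Par t ζ (-cexp (-1)) u0) (hT : TipConn u0)
    {ρ1 : ℝ} (hρ1 : 0 < ρ1) : ∃ ρ : ℝ, 0 < ρ ∧ ρ ≤ ρ1 ∧ ∃ c1 < -u0.re / 2, ∃ C : ℝ,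
      ∀ᶠ n in atTop, ∀ P Q : ℂ → ℂ, (∀ H, HasDerivAt P (cexp (Ph (ζ n) H / t n)) H) →
        (∀ H, HasDerivAt Q (ζ n * cexp H * cexp (Ph (ζ n) H / t n)) H) →
        ‖Ev (t n) (ζ n) - (P (1 + ρ * ep u0) - P (1 + ρ * em u0))‖ ≤
          C * Real.exp (c1 / ‖t n‖) ∧
        ‖Dv (t n) (ζ n) - (Q (1 + ρ * ep u0) - Q (1 + ρ * em u0))‖ ≤
          C * Real.exp (c1 / ‖t n‖) := by
  obtain ⟨F, hΨ0, -, hu0, hτ, hu, hΨ, hw⟩ := exists_fam h
  obtain ⟨ρ0, hρ0, hT⟩ := hT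
  have hρ : 0 < min ρ0 ρ1 := lt_min hρ0 hρ1
  obtain ⟨c', hc', R0, hR⟩ := hT (min ρ0 ρ1) hρ (min_le_left _ _)
  obtain ⟨ρ, hρe⟩ : ∃ ρ : ℝ, ρ = min ρ0 ρ1 := ⟨_, rfl⟩
  rw [← hρe] at hR hρ
  obtain ⟨M, hM⟩ : ∃ M : ℝ, M = ‖-cexp (-1)‖ + 1 := ⟨_, rfl⟩
  have hM0 : 0 < M := by rw [hM]; (clear * -; positivity)
  obtain ⟨R, hRe⟩ : ∃ R : ℝ, R = max R0 (max 1 (2 * (1 / 2 + 3 * M - c'))) := ⟨_, rfl⟩
  have hR0 : R0 ≤ R := by rw [hRe]; exact le_max_left _ _
  have hR1 : 1 ≤ R := by rw [hRe]; exact (le_max_left _ _).trans (le_max_right _ _)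
  have hR2 : 2 * (1 / 2 + 3 * M - c') ≤ R := by
    rw [hRe]; exact (le_max_right _ _).trans (le_max_right _ _)
  obtain ⟨hc1, hc2⟩ := hR R hR0
  have hconn : (fun H => (F.u0 * F.Ψ0 H).re) = Gh u0 (-cexp (-1)) := by
    funext H
    rw [hΨ0, hu0]
    rfl
  rw [← hconn] at hc1 hc2
  obtain ⟨C1, hC1⟩ := F.rel hc1
  obtain ⟨C2, hC2⟩ := F.rel hc2
  refine ⟨ρ, hρ, by rw [hρe]; exact min_le_right _ _, c', hc', C1 + C2 + (4 + 12 * M), ?_⟩
  have hζ : ∀ᶠ n in atTop, ‖ζ n‖ < M := by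
    refine h.zet.norm.eventually_lt_const ?_
    rw [hM]
    linarith only []
  have ht1 : ∀ᶠ n in atTop, ‖t n‖ < 1 := by
    refine h.lim.norm.eventually_lt_const ?_
    rw [norm_zero]
    exact one_pos
  filter_upwards [hC1, hC2, hζ, ht1] with n k1 k2 hz htn P Q hP hQ
  have hn : 0 < ‖t n‖ := norm_pos_iff.2 (h.ne n)
  have hnC : (‖t n‖ : ℂ) ≠ 0 := by exact_mod_cast hn.ne'
  have hint : ∀ H, F.u n * F.Ψ n H / F.τ n = Ph (ζ n) H / t n := by
    intro H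
    rw [hu, hΨ, hτ]
    have := h.ne n
    field_simp
  have hFP : ∀ H, HasDerivAt (F.P n) (cexp (Ph (ζ n) H / t n)) H := by
    intro H
    rw [← hint H]
    exact F.hP n H
  have hFQ : ∀ H, HasDerivAt (F.Q n) (ζ n * cexp H * cexp (Ph (ζ n) H / t n)) H := by
    intro H
    have := F.hQ n H
    rw [hint H, hw n] at this
    exact this
  rw [hτ] at k1 k2
  have hz0 : 0 ≤ ‖ζ n‖ := norm_nonneg _
  have hE : Real.exp ((1 / 2 + 3 * ‖ζ n‖ - R / 2) / ‖t n‖) ≤ Real.exp (c' / ‖t n‖) := by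
    refine Real.exp_le_exp.2 (div_le_div_of_nonneg_right ?_ hn.le)
    linarith only [hR2, hz]
  have hX : 0 < Real.exp (c' / ‖t n‖) := Real.exp_pos _
  have hb1 : 2 * ‖t n‖ * Real.exp ((1 / 2 + 3 * ‖ζ n‖ - R / 2) / ‖t n‖) ≤
      2 * Real.exp (c' / ‖t n‖) := by
    have := mul_le_mul htn.le hE (Real.exp_pos _).le zero_le_one
    linarith only [this]
  have hb2 : 6 * ‖ζ n‖ * ‖t n‖ * Real.exp ((1 / 2 + 3 * ‖ζ n‖ - R / 2) / ‖t n‖) ≤
      6 * M * Real.exp (c' / ‖t n‖) := by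
    have h1 := mul_le_mul htn.le hE (Real.exp_pos _).le zero_le_one
    have h2 : ‖t n‖ * Real.exp ((1 / 2 + 3 * ‖ζ n‖ - R / 2) / ‖t n‖) ≤
        Real.exp (c' / ‖t n‖) := by linarith only [h1]
    have h3 := mul_le_mul hz.le h2 (by (clear * - hn; positivity)) hM0.le
    linarith only [h3]
  obtain ⟨p1, p2⟩ := tail_pos (ζ := ζ n) (h.ne n) (h.re n) (h.im n) hR1
  obtain ⟨m1, m2⟩ := tail_neg (ζ := ζ n) (h.ne n) (h.re n) (h.im n) hR1
  constructor
  · have e1 := rep_E (ζ := ζ n) (h.ne n) (h.re n) (h.im n) R hP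
    have d1 := prim_diff hP hFP (1 + ρ * ep u0) (1 + R * I)
    have d2 := prim_diff hP hFP (-1 - R * I) (1 + ρ * em u0)
    have e2 : Ev (t n) (ζ n) - (P (1 + ρ * ep u0) - P (1 + ρ * em u0)) =
        ((F.P n (1 + ρ * em u0) - F.P n (-1 - R * I)) +
          (F.P n (1 + R * I) - F.P n (1 + ρ * ep u0))) +
        ((∫ s in Set.Ioi R, cexp (Ph (ζ n) (1 + s * I) / t n)) * I +
          (∫ s in Set.Iio (-R), cexp (Ph (ζ n) (-1 + s * I) / t n)) * I) := by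
      unfold Ev
      rw [e1, ← d1, ← d2]
      ring
    rw [e2]
    refine (norm_add_le _ _).trans ?_
    have n1 := norm_add_le (F.P n (1 + ρ * em u0) - F.P n (-1 - R * I))
      (F.P n (1 + R * I) - F.P n (1 + ρ * ep u0))
    have n2 := norm_add_le ((∫ s in Set.Ioi R, cexp (Ph (ζ n) (1 + s * I) / t n)) * I)
      ((∫ s in Set.Iio (-R), cexp (Ph (ζ n) (-1 + s * I) / t n)) * I)
    rw [norm_mul, norm_mul, norm_I, mul_one, mul_one] at n2
    have hMX : 0 ≤ 12 * M * Real.exp (c' / ‖t n‖) := by (clear * - hM0; positivity)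
    linarith only [hb1, p1, m1, n1, n2, hMX, k1.1, k2.1]
  · have e1 := rep_DE (ζ := ζ n) (h.ne n) (h.re n) (h.im n) R hQ
    have d1 := prim_diff hQ hFQ (1 + ρ * ep u0) (1 + R * I)
    have d2 := prim_diff hQ hFQ (-1 - R * I) (1 + ρ * em u0)
    have e2 : Dv (t n) (ζ n) - (Q (1 + ρ * ep u0) - Q (1 + ρ * em u0)) =
        ((F.Q n (1 + ρ * em u0) - F.Q n (-1 - R * I)) +
          (F.Q n (1 + R * I) - F.Q n (1 + ρ * ep u0))) +
        ((∫ s in Set.Ioi R, ζ n * cexp (1 + s * I) * cexp (Ph (ζ n) (1 + s * I) / t n)) * I +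
          (∫ s in Set.Iio (-R), ζ n * cexp (-1 + s * I) *
            cexp (Ph (ζ n) (-1 + s * I) / t n)) * I) := by
      unfold Dv
      rw [e1, ← d1, ← d2]
      ring
    rw [e2]
    refine (norm_add_le _ _).trans ?_
    have n1 := norm_add_le (F.Q n (1 + ρ * em u0) - F.Q n (-1 - R * I))
      (F.Q n (1 + R * I) - F.Q n (1 + ρ * ep u0))
    have n2 := norm_add_le
      ((∫ s in Set.Ioi R, ζ n * cexp (1 + s * I) * cexp (Ph (ζ n) (1 + s * I) / t n)) * I)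
      ((∫ s in Set.Iio (-R), ζ n * cexp (-1 + s * I) * cexp (Ph (ζ n) (-1 + s * I) / t n)) * I)
    rw [norm_mul, norm_mul, norm_I, mul_one, mul_one] at n2
    linarith only [hX, hb2, p2, m2, n1, n2, k1.2, k2.2]

/-- The size `‖sz‖` is larger than the rest. -/
theorem sz_big {t ζ : ℕ → ℂ} {u0 : ℂ} (h : Par t ζ (-cexp (-1)) u0) {c1 : ℝ}
    (hc1 : c1 < -u0.re / 2) : ∃ δ : ℝ, 0 < δ ∧ ∀ᶠ n in atTop,
      Real.exp (c1 / ‖t n‖) ≤ Real.exp (-δ / ‖t n‖) * ‖sz (t n) (ζ n)‖ := by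
  have hδ : 0 < (-u0.re / 2 - c1) / 2 := by linarith only [hc1]
  refine ⟨(-u0.re / 2 - c1) / 2, hδ, ?_⟩
  have hoff : Tendsto (fun n => off (ζ n)) atTop (𝓝 0) := by
    have h1 : Tendsto (fun n => 1 + cexp 1 * ζ n) atTop (𝓝 (1 + cexp 1 * (-cexp (-1)))) :=
      (h.zet.const_mul _).const_add _
    have h2 : 1 + cexp 1 * (-cexp (-1)) = 0 := by
      rw [mul_neg, ← Complex.exp_add, add_neg_cancel, Complex.exp_zero, add_neg_cancel]
    rw [h2] at h1
    exact h1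
  have hg : Tendsto (fun n => ((-1 / 2 + off (ζ n)) * ((‖t n‖ : ℂ) / t n)).re) atTop
      (𝓝 (-u0.re / 2)) := by
    have h1 := (hoff.const_add (-1 / 2 : ℂ)).mul h.dir
    have h2 := (Complex.continuous_re.tendsto _).comp h1
    have h3 : ((-1 / 2 + 0) * u0 : ℂ).re = -u0.re / 2 := by
      have : ((-1 / 2 + 0) * u0 : ℂ) = ((-1 / 2 : ℝ) : ℂ) * u0 := by push_cast; ring
      rw [this, Complex.re_ofReal_mul]
      ring
    rw [h3] at h2
    exact h2
  have hev : ∀ᶠ n in atTop, c1 + (-u0.re / 2 - c1) / 2 <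
      ((-1 / 2 + off (ζ n)) * ((‖t n‖ : ℂ) / t n)).re :=
    hg.eventually_const_lt (by linarith only [hδ])
  filter_upwards [hev] with n hn
  have ht : 0 < ‖t n‖ := norm_pos_iff.2 (h.ne n)
  have htC : (‖t n‖ : ℂ) ≠ 0 := by exact_mod_cast ht.ne'
  have e1 : (-1 / 2 + off (ζ n)) / t n =
      ((-1 / 2 + off (ζ n)) * ((‖t n‖ : ℂ) / t n)) / (‖t n‖ : ℝ) := by
    have := h.ne n
    field_simp
  unfold sz
  rw [Complex.norm_exp, e1, Complex.div_ofReal_re, ← Real.exp_add, ← add_div]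
  refine Real.exp_le_exp.2 (div_le_div_of_nonneg_right ?_ ht.le)
  linarith only [hn]

end SokamV

end
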