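import Pool.Agent.Lib_MP_af4de1_zy.Z33
import Pool.Agent.Lib_MP_af4de1_zy.Z50

/-! ### Lib_MP_af4de1_in.T1Lim -/

section
/-!
# Two saddle points, precise form [IN-T1]

Model: `val_one_lim` (`Lib_MP_af4de1_v/Val1.lean`) and `val_two` (`Val.lean`): the contour between the tails
(`t1_va_main`), the chain `[S, S']` unfolded, `J n = P(S + v) - P(S - v)`, `J' n = P(S' + v') - P(S' - v')`.
-/

namespace SokamV

open Complex Filter Topology

/-- `K √τ exp(δ/τ) ≥ 1` for small `τ`. -/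
private theorem t1_ev_sqrt {τ : ℕ → ℝ} (hτ : ∀ n, 0 < τ n) (hτ0 : Tendsto τ atTop (𝓝 0)) {K δ : ℝ}
    (hK : 0 < K) (hδ : 0 < δ) : ∀ᶠ n in atTop, 1 ≤ K * √(τ n) * Real.exp (δ / τ n) := by
  have h1 : Tendsto (fun n => √(τ n)) atTop (𝓝 0) := by
    have := (Real.continuous_sqrt.tendsto 0).comp hτ0
    simpa [Function.comp_def] using this
  have h2 : ∀ᶠ n in atTop, √(τ n) < K * δ := h1.eventually_lt_const (by positivity)
  filter_upwards [h2] with n hn
  have hs : 0 < √(τ n) := Real.sqrt_pos.2 (hτ n)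
  have hsq : √(τ n) * √(τ n) = τ n := Real.mul_self_sqrt (hτ n).le
  have h3 : δ / τ n ≤ Real.exp (δ / τ n) := by
    have := Real.add_one_le_exp (δ / τ n)
    linarith
  calc (1 : ℝ) ≤ K * δ / √(τ n) := by rw [one_le_div hs]; exact hn.le
    _ = K * √(τ n) * (δ / τ n) := by
        rw [div_eq_iff hs.ne']
        calc K * δ = K * δ * (√(τ n) * √(τ n)) / τ n := by
              rw [hsq, mul_div_assoc, div_self (hτ n).ne', mul_one]
          _ = _ := by ring
    _ ≤ K * √(τ n) * Real.exp (δ / τ n) := by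
        apply mul_le_mul_of_nonneg_left h3
        positivity

/-- `C ≤ η exp(δ/τ)` for small `τ`. -/
private theorem t1_ev_exp {τ : ℕ → ℝ} (hτ : ∀ n, 0 < τ n) (hτ0 : Tendsto τ atTop (𝓝 0)) {C η δ : ℝ}
    (hη : 0 < η) (hδ : 0 < δ) : ∀ᶠ n in atTop, C ≤ η * Real.exp (δ / τ n) := by
  have h2 : ∀ᶠ n in atTop, τ n < η * δ / (|C| + 1) := hτ0.eventually_lt_const (by positivity)
  filter_upwards [h2] with n hn
  have h3 : δ / τ n ≤ Real.exp (δ / τ n) := by
    have := Real.add_one_le_exp (δ / τ n)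
    linarith
  have h4 : τ n * (|C| + 1) < η * δ := by
    rwa [lt_div_iff₀ (by positivity)] at hn
  calc C ≤ |C| + 1 := by linarith [le_abs_self C]
    _ ≤ η * (δ / τ n) := by
        rw [← mul_div_assoc, le_div_iff₀ (hτ n)]
        linarith
    _ ≤ η * Real.exp (δ / τ n) := mul_le_mul_of_nonneg_left h3 hη.le

private theorem t1_small_big {τ : ℕ → ℝ} (hτ : ∀ n, 0 < τ n) (hτ0 : Tendsto τ atTop (𝓝 0))
    {c c' : ℝ} (hc : c' < c) {J R : ℕ → ℂ} (hJ : Big τ c J) (hR : Small τ c' R) {η : ℝ}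
    (hη : 0 < η) : ∀ᶠ n in atTop, ‖R n‖ ≤ η * ‖J n‖ := by
  obtain ⟨C, hC⟩ := hR
  have hδ : 0 < (c - c') / 2 := by linarith
  filter_upwards [hC, hJ _ hδ, t1_ev_exp (C := C) hτ hτ0 hη hδ] with n h1 h2 h3
  have h4 : Real.exp ((c - (c - c') / 2) / τ n) =
      Real.exp (((c - c') / 2) / τ n) * Real.exp (c' / τ n) := by
    rw [← Real.exp_add]
    congr 1
    ring
  calc ‖R n‖ ≤ C * Real.exp (c' / τ n) := h1
    _ ≤ (η * Real.exp (((c - c') / 2) / τ n)) * Real.exp (c' / τ n) :=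
        mul_le_mul_of_nonneg_right h3 (Real.exp_pos _).le
    _ = η * Real.exp ((c - (c - c') / 2) / τ n) := by rw [h4]; ring
    _ ≤ η * ‖J n‖ := mul_le_mul_of_nonneg_left h2 hη.le

private theorem t1_small_add {τ : ℕ → ℝ} {c : ℝ} {R R' : ℕ → ℂ} (h : Small τ c R)
    (h' : Small τ c R') : Small τ c (fun n => R n + R' n) := by
  obtain ⟨C, hC⟩ := h
  obtain ⟨C', hC'⟩ := h'
  refine ⟨C + C', ?_⟩
  filter_upwards [hC, hC'] with n h1 h2
  calc ‖R n + R' n‖ ≤ ‖R n‖ + ‖R' n‖ := norm_add_le _ _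
    _ ≤ (C + C') * Real.exp (c / τ n) := by rw [add_mul]; exact add_le_add h1 h2

private theorem t1_conn_small (F : Fam) {c : ℝ} {A B : ℂ}
    (h : Conn (fun H => (F.u0 * F.Ψ0 H).re) c A B) :
    Small F.τ c (fun n => F.P n B - F.P n A) ∧ Small F.τ c (fun n => F.Q n B - F.Q n A) := by
  obtain ⟨C, hC⟩ := F.rel h
  exact ⟨⟨C, hC.mono fun n hn => hn.1⟩, ⟨C, hC.mono fun n hn => hn.2⟩⟩

private theorem t1_saddle_big (F : Fam) {c : ℝ} {S v : ℂ} (h : Sad F.u0 F.Ψ0 c S v) :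
    Big F.τ c (fun n => F.P n (S + v) - F.P n (S - v)) ∧
    (∀ ε : ℝ, 0 < ε → ∀ᶠ n in atTop,
      ‖F.Q n (S + v) - F.Q n (S - v) - F.w0 S * (F.P n (S + v) - F.P n (S - v))‖ ≤
        ε * ‖F.P n (S + v) - F.P n (S - v)‖) ∧
    ∃ (Sn : ℕ → ℂ) (c0 : ℂ), c0 ≠ 0 ∧ Tendsto Sn atTop (𝓝 S) ∧
      (∀ᶠ n in atTop, deriv (F.Ψ n) (Sn n) = 0) ∧
      Tendsto (fun n => (F.P n (S + v) - F.P n (S - v)) /
        (√(F.τ n) * cexp (F.u n * F.Ψ n (Sn n) / F.τ n))) atTop (𝓝 c0) := by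
  obtain ⟨Sn, c0, hc0, hSn, hcr, hl1, hl2⟩ := F.saddle h
  have hc0' : 0 < ‖c0‖ := norm_pos_iff.2 hc0
  have hD : ∀ n, 0 < ‖(√(F.τ n) : ℂ) * cexp (F.u n * F.Ψ n (Sn n) / F.τ n)‖ := by
    intro n
    rw [norm_pos_iff]
    refine mul_ne_zero ?_ (Complex.exp_ne_zero _)
    have : √(F.τ n) ≠ 0 := (Real.sqrt_pos.2 (F.hτ n)).ne'
    exact_mod_cast this
  have hDn : ∀ n, ‖(√(F.τ n) : ℂ) * cexp (F.u n * F.Ψ n (Sn n) / F.τ n)‖ =
      √(F.τ n) * Real.exp ((F.u n * F.Ψ n (Sn n)).re / F.τ n) := by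
    intro n
    rw [norm_mul, Complex.norm_exp, Complex.div_ofReal_re, Complex.norm_real, Real.norm_eq_abs,
      abs_of_nonneg (Real.sqrt_nonneg _)]
  have hJ : ∀ᶠ n in atTop, ‖c0‖ / 2 * ‖(√(F.τ n) : ℂ) * cexp (F.u n * F.Ψ n (Sn n) / F.τ n)‖ ≤
      ‖F.P n (S + v) - F.P n (S - v)‖ := by
    have h1 : ∀ᶠ n in atTop, ‖c0‖ / 2 < ‖(F.P n (S + v) - F.P n (S - v)) /
        (√(F.τ n) * cexp (F.u n * F.Ψ n (Sn n) / F.τ n))‖ :=
      hl1.norm.eventually_const_lt (by linarith)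
    filter_upwards [h1] with n hn
    rw [norm_div, lt_div_iff₀ (hD n)] at hn
    exact hn.le
  refine ⟨?_, ?_, Sn, c0, hc0, hSn, hcr, hl1⟩
  · intro ε hε
    have hcont : Continuous F.Ψ0 :=
      F.hΨlim.continuous (Eventually.of_forall fun n => (F.hΨ n).continuous).frequently
    have hlim : Tendsto (fun n => (F.u n * F.Ψ n (Sn n)).re) atTop (𝓝 c) := by
      have h1 : Tendsto (fun n => F.Ψ n (Sn n)) atTop (𝓝 (F.Ψ0 S)) :=
        F.hΨlim.tendsto_comp hcont.continuousAt hSn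
      have h2 := (Complex.continuous_re.tendsto _).comp (F.hulim.mul h1)
      rw [h.height] at h2
      exact h2
    have hre : ∀ᶠ n in atTop, c - ε / 2 < (F.u n * F.Ψ n (Sn n)).re :=
      hlim.eventually_const_lt (by linarith)
    filter_upwards [hJ, hre, t1_ev_sqrt F.hτ F.hτlim (K := ‖c0‖ / 2) (δ := ε / 2) (by positivity)
      (by positivity)] with n h1 h2 h3
    rw [hDn n] at h1
    refine le_trans ?_ h1
    have h4 : Real.exp ((c - ε / 2) / F.τ n) ≤
        Real.exp ((F.u n * F.Ψ n (Sn n)).re / F.τ n) :=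
      Real.exp_le_exp.2 (div_le_div_of_nonneg_right h2.le (F.hτ n).le)
    have h5 : Real.exp ((c - ε / 2) / F.τ n) =
        Real.exp (ε / 2 / F.τ n) * Real.exp ((c - ε) / F.τ n) := by
      rw [← Real.exp_add]
      congr 1
      ring
    calc Real.exp ((c - ε) / F.τ n) = 1 * Real.exp ((c - ε) / F.τ n) := (one_mul _).symm
      _ ≤ (‖c0‖ / 2 * √(F.τ n) * Real.exp (ε / 2 / F.τ n)) * Real.exp ((c - ε) / F.τ n) :=
          mul_le_mul_of_nonneg_right h3 (Real.exp_pos _).le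
      _ = ‖c0‖ / 2 * √(F.τ n) * Real.exp ((c - ε / 2) / F.τ n) := by rw [h5]; ring
      _ ≤ ‖c0‖ / 2 * √(F.τ n) * Real.exp ((F.u n * F.Ψ n (Sn n)).re / F.τ n) :=
          mul_le_mul_of_nonneg_left h4 (by positivity)
      _ = _ := by ring
  · intro ε hε
    have h1 : ∀ᶠ n in atTop, ‖(F.Q n (S + v) - F.Q n (S - v) -
        F.w0 S * (F.P n (S + v) - F.P n (S - v))) /
        (√(F.τ n) * cexp (F.u n * F.Ψ n (Sn n) / F.τ n))‖ < ε * (‖c0‖ / 2) := by
      refine hl2.norm.eventually_lt_const ?_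
      rw [norm_zero]
      positivity
    filter_upwards [h1, hJ] with n h2 h3
    rw [norm_div, div_lt_iff₀ (hD n)] at h2
    calc _ ≤ ε * (‖c0‖ / 2) * ‖(√(F.τ n) : ℂ) * cexp (F.u n * F.Ψ n (Sn n) / F.τ n)‖ := h2.le
      _ = ε * (‖c0‖ / 2 * ‖(√(F.τ n) : ℂ) * cexp (F.u n * F.Ψ n (Sn n) / F.τ n)‖) := by ring
      _ ≤ _ := mul_le_mul_of_nonneg_left h3 hε.le

/-- The contour integral up to the tails. -/
private theorem t1_va_main {t ζ : ℕ → ℂ} {ζ0 u0 : ℂ} (h : Par t ζ ζ0 u0) {c : ℝ} {L : List ℂ}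
    (hg : Good u0 ζ0 c L) : ∃ (F : Fam) (c' R : ℝ), F.w0 = (fun H => ζ0 * cexp H) ∧
      (∀ n, F.τ n = ‖t n‖) ∧ (∀ n, F.Ψ n = Ph (ζ n)) ∧
      (∀ n H, F.u n * F.Ψ n H / F.τ n = Ph (ζ n) H / t n) ∧ c' < c ∧
      Chain F.u0 F.Ψ0 c c' (-1 - R * I) L (1 + R * I) ∧
      Small (fun n => ‖t n‖) c' (fun n => Ev (t n) (ζ n) -
        (F.P n (1 + R * I) - F.P n (-1 - R * I))) ∧
      Small (fun n => ‖t n‖) c' (fun n => Dv (t n) (ζ n) -
        (F.Q n (1 + R * I) - F.Q n (-1 - R * I))) := by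
  obtain ⟨F, hΨ0, hw0, hu0, hτ, hu, hΨ, hw⟩ := exists_fam h
  obtain ⟨c', hc', R0, hR0⟩ := hg
  obtain ⟨R, hR1, hR2, hR3⟩ : ∃ R : ℝ, R0 ≤ R ∧ 1 ≤ R ∧ 2 * (1 / 2 + 3 * (‖ζ0‖ + 1) - c') ≤ R :=
    ⟨max (max R0 1) (2 * (1 / 2 + 3 * (‖ζ0‖ + 1) - c')), (le_max_left _ _).trans (le_max_left _ _),
      (le_max_right _ _).trans (le_max_left _ _), le_max_right _ _⟩
  have hch := hR0 R hR1
  rw [← hu0, ← hΨ0] at hch
  have hphase : ∀ n H, F.u n * F.Ψ n H / F.τ n = Ph (ζ n) H / t n := by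
    intro n H
    rw [hu, hΨ, hτ]
    have e1 : (‖t n‖ : ℂ) ≠ 0 := by exact_mod_cast norm_ne_zero_iff.2 (h.ne n)
    have e2 := h.ne n
    field_simp
  have hζ : ∀ᶠ n in atTop, ‖ζ n‖ ≤ ‖ζ0‖ + 1 := by
    have := h.zet.norm.eventually_lt_const (u := ‖ζ0‖ + 1) (by linarith)
    exact this.mono fun n hn => hn.le
  have ht1 : ∀ᶠ n in atTop, ‖t n‖ ≤ 1 := by
    have h5 := h.lim.norm
    rw [norm_zero] at h5
    exact (h5.eventually_lt_const (u := 1) one_pos).mono fun n hn => hn.le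
  have hexp : ∀ n, ‖ζ n‖ ≤ ‖ζ0‖ + 1 → Real.exp ((1 / 2 + 3 * ‖ζ n‖ - R / 2) / ‖t n‖) ≤
      Real.exp (c' / ‖t n‖) := by
    intro n k1
    apply Real.exp_le_exp.2
    apply div_le_div_of_nonneg_right _ (norm_nonneg _)
    linarith
  refine ⟨F, c', R, hw0, hτ, hΨ, hphase, hc', hch, ?_, ?_⟩
  · refine ⟨4, ?_⟩
    filter_upwards [hζ, ht1] with n k1 k2
    have hP : ∀ H, HasDerivAt (F.P n) (cexp (Ph (ζ n) H / t n)) H := by
      intro H
      have := F.hP n H
      rwa [hphase] at this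
    have hrep := rep_E (h.ne n) (h.re n) (h.im n) R hP
    have tp := (tail_pos (ζ := ζ n) (h.ne n) (h.re n) (h.im n) hR2).1
    have tn := (tail_neg (ζ := ζ n) (h.ne n) (h.re n) (h.im n) hR2).1
    have hb : 2 * ‖t n‖ * Real.exp ((1 / 2 + 3 * ‖ζ n‖ - R / 2) / ‖t n‖) ≤
        2 * Real.exp (c' / ‖t n‖) := by
      calc _ ≤ 2 * 1 * Real.exp (c' / ‖t n‖) := by
            have := hexp n k1
            gcongr
        _ = _ := by ring
    have e : Ev (t n) (ζ n) - (F.P n (1 + R * I) - F.P n (-1 - R * I)) =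
        (∫ s in Set.Ioi R, cexp (Ph (ζ n) (1 + s * I) / t n)) * I +
        (∫ s in Set.Iio (-R), cexp (Ph (ζ n) (-1 + s * I) / t n)) * I := by
      unfold Ev
      rw [hrep]; ring
    change ‖Ev (t n) (ζ n) - (F.P n (1 + R * I) - F.P n (-1 - R * I))‖ ≤ _
    rw [e]
    refine (norm_add_le _ _).trans ?_
    rw [norm_mul, norm_mul, norm_I, mul_one, mul_one]
    linarith
  · refine ⟨12 * (‖ζ0‖ + 1), ?_⟩
    filter_upwards [hζ, ht1] with n k1 k2
    have hQ : ∀ H, HasDerivAt (F.Q n) (ζ n * cexp H * cexp (Ph (ζ n) H / t n)) H := by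
      intro H
      have := F.hQ n H
      rw [hphase, hw] at this
      exact this
    have hrep := rep_DE (h.ne n) (h.re n) (h.im n) R hQ
    have tp := (tail_pos (ζ := ζ n) (h.ne n) (h.re n) (h.im n) hR2).2
    have tn := (tail_neg (ζ := ζ n) (h.ne n) (h.re n) (h.im n) hR2).2
    have hb : 6 * ‖ζ n‖ * ‖t n‖ * Real.exp ((1 / 2 + 3 * ‖ζ n‖ - R / 2) / ‖t n‖) ≤
        6 * (‖ζ0‖ + 1) * Real.exp (c' / ‖t n‖) := by
      calc _ ≤ 6 * (‖ζ0‖ + 1) * 1 * Real.exp (c' / ‖t n‖) := by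
            have := hexp n k1
            gcongr
        _ = _ := by ring
    have e : Dv (t n) (ζ n) - (F.Q n (1 + R * I) - F.Q n (-1 - R * I)) =
        (∫ s in Set.Ioi R, ζ n * cexp (1 + s * I) * cexp (Ph (ζ n) (1 + s * I) / t n)) * I +
        (∫ s in Set.Iio (-R), ζ n * cexp (-1 + s * I) * cexp (Ph (ζ n) (-1 + s * I) / t n)) * I := by
      unfold Dv
      rw [hrep]; ring
    change ‖Dv (t n) (ζ n) - (F.Q n (1 + R * I) - F.Q n (-1 - R * I))‖ ≤ _
    rw [e]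
    refine (norm_add_le _ _).trans ?_
    rw [norm_mul, norm_mul, norm_I, mul_one, mul_one]
    linarith

theorem val_two_lim {t ζ : ℕ → ℂ} {ζ0 u0 : ℂ} (h : Par t ζ ζ0 u0) {c : ℝ} {S S' : ℂ}
    (hg : Good u0 ζ0 c [S, S']) : ∃ (Sn Sn' J J' : ℕ → ℂ) (c' : ℝ) (c0 c0' : ℂ),
      c' < c ∧ c0 ≠ 0 ∧ c0' ≠ 0 ∧ Tendsto Sn atTop (𝓝 S) ∧ Tendsto Sn' atTop (𝓝 S') ∧
      (∀ᶠ n in atTop, Sn n + ζ n * cexp (Sn n) = 0) ∧
      (∀ᶠ n in atTop, Sn' n + ζ n * cexp (Sn' n) = 0) ∧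
      Big (fun n => ‖t n‖) c J ∧ Big (fun n => ‖t n‖) c J' ∧
      Tendsto (fun n => J n / (√‖t n‖ * cexp (Ph (ζ n) (Sn n) / t n))) atTop (𝓝 c0) ∧
      Tendsto (fun n => J' n / (√‖t n‖ * cexp (Ph (ζ n) (Sn' n) / t n))) atTop (𝓝 c0') ∧
      Small (fun n => ‖t n‖) c' (fun n => Ev (t n) (ζ n) - J n - J' n) ∧
      ∀ ε : ℝ, 0 < ε → ∀ᶠ n in atTop,
        ‖Dv (t n) (ζ n) + S * J n + S' * J' n‖ ≤ ε * (‖J n‖ + ‖J' n‖) := by
  have hS := good_crit hg (S := S) (by simp)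
  have hS' := good_crit hg (S := S') (by simp)
  obtain ⟨F, c', R, hw0, hτ, hΨ, hphase, hc', hch, hE, hD⟩ := t1_va_main h hg
  have hτ' : F.τ = fun n => ‖t n‖ := funext hτ
  have hw : F.w0 S = -S := by
    rw [hw0]
    linear_combination hS
  have hw' : F.w0 S' = -S' := by
    rw [hw0]
    linear_combination hS'
  rw [← hτ'] at hE hD ⊢
  cases hch with
  | @cons _ _ _ v _ h1 h2 h3 =>
    cases h3 with
    | @cons _ _ _ v' _ h4 h5 h6 =>
      cases h6 with
      | nil h7 =>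
        obtain ⟨hB, hQ, Sn, c0, hc0, hSn, hcr, hl⟩ := t1_saddle_big F h2
        obtain ⟨hB', hQ', Sn', c0', hc0', hSn', hcr', hl'⟩ := t1_saddle_big F h5
        obtain ⟨p1, q1⟩ := t1_conn_small F h1
        obtain ⟨p4, q4⟩ := t1_conn_small F h4
        obtain ⟨p7, q7⟩ := t1_conn_small F h7
        refine ⟨Sn, Sn', fun n => F.P n (S + v) - F.P n (S - v),
          fun n => F.P n (S' + v') - F.P n (S' - v'), c', c0, c0', hc', hc0, hc0', hSn, hSn',
          hcr.mono fun n hn => ?_, hcr'.mono fun n hn => ?_, hB, hB', hl.congr fun n => ?_,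
          hl'.congr fun n => ?_, ?_, fun ε hε => ?_⟩
        · rw [hΨ, deriv_Ph] at hn; exact hn
        · rw [hΨ, deriv_Ph] at hn; exact hn
        · rw [hphase, hτ]
        · rw [hphase, hτ]
        · obtain ⟨C, hC⟩ := t1_small_add (t1_small_add (t1_small_add p1 p4) p7) hE
          refine ⟨C, ?_⟩
          filter_upwards [hC] with n hn
          refine le_trans (le_of_eq ?_) hn
          congr 1
          ring
        · filter_upwards [hQ (ε / 2) (by positivity), hQ' (ε / 2) (by positivity),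
            t1_small_big F.hτ F.hτlim hc' hB (t1_small_add (t1_small_add (t1_small_add q1 q4) q7) hD)
              (η := ε / 2) (by positivity)] with n k1 k1' k2
          rw [hw] at k1
          rw [hw'] at k1'
          calc ‖Dv (t n) (ζ n) + S * (F.P n (S + v) - F.P n (S - v)) +
                S' * (F.P n (S' + v') - F.P n (S' - v'))‖
              = ‖(F.Q n (S + v) - F.Q n (S - v) - -S * (F.P n (S + v) - F.P n (S - v))) +
                  (F.Q n (S' + v') - F.Q n (S' - v') -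
                    -S' * (F.P n (S' + v') - F.P n (S' - v'))) +
                  (F.Q n (S - v) - F.Q n (-1 - R * I) + (F.Q n (S' - v') - F.Q n (S + v)) +
                    (F.Q n (1 + R * I) - F.Q n (S' + v')) +
                    (Dv (t n) (ζ n) - (F.Q n (1 + R * I) - F.Q n (-1 - R * I))))‖ := by
                congr 1
                ring
            _ ≤ _ := norm_add₃_le
            _ ≤ _ := add_le_add (add_le_add k1 k1') k2
            _ ≤ ε * (‖F.P n (S + v) - F.P n (S - v)‖ + ‖F.P n (S' + v') - F.P n (S' - v')‖) := by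
                nlinarith [norm_nonneg (F.P n (S + v) - F.P n (S - v)),
                  norm_nonneg (F.P n (S' + v') - F.P n (S' - v'))]

end SokamV

end

/-! ### Lib_MP_af4de1_v.Tree -/

section
/-!
# The zero free region `‖z‖ ‖1-q‖ < 1/e` [SV-TREE]

Let `‖q‖ ≤ 1`, `ρ > 0`, `d = ‖1-q‖`, `dρ < 1/e` (`ρ = ‖z‖`).  STEP 1.  Let `r ≤ ρ` be such that `F = F q` has no zero in `closedBall 0 r`,
`A(r) = max_{‖w‖ ≤ r} ‖F(qw)/F(w)‖`.  For `‖w‖ ≤ r` the segment from `w` to `qw` lies in the ball (convexity), and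
`d/ds F(w+s(qw-w)) = (qw-w) F(q(w+s(qw-w)))` (`SokamF.hasDerivAt_F`), so `F(qw) = F(w) exp(y)` with
`y = ∫_0^1 (qw-w) F(q·)/F(·) ds`, `‖y‖ ≤ d r A(r)` (derive it from `ψ(s) = F(γ(s)) exp(-∫_0^s …)` constant).  So
`A(r) ≤ exp(d r A(r))`, i.e. `Y(r) := d r A(r)` satisfies `Y(r) exp(-Y(r)) ≤ d r ≤ dρ < 1/e`, in particular `Y(r) ≠ 1`.  `A` is
continuous and nondecreasing on the `r` with the no-zero property (maximum of a continuous function over growing balls;
or use `s ↦ max over ‖w‖ ≤ 1 of ‖F(q s w)/F(s w)‖`), `Y(0) = 0`: `Y < 1` on all of `[0, r]`, so `A ≤ e`.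
STEP 2.  no zero in `closedBall 0 ρ`: otherwise let `r2 ≤ ρ` be the smallest modulus of a zero `w2` (`F 0 = 1`); in `ball 0 r2` `‖F'/F‖ ≤ e`
(step 1 for all `r < r2`), so `‖F(s w2)‖ ≥ exp(-e r2)` for `0 ≤ s < 1`: contradiction to `F(w2) = 0`.
STEP 3.  `y` from step 1 at `w = z`, `r = ρ`: `‖y‖ ≤ Y(ρ) < 1` and `‖y‖exp(-‖y‖) ≤ Y exp(-Y) ≤ dρ` (`y ↦ y e^{-y}` increases on `[0,1]`).
-/

namespace SokamV

open Complex

/-- The quotient `F(qw)/F(w)` as an exponential, if `F` has no zero in the ball of `w`. -/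
private theorem Tree_exp {q : ℂ} (hq : ‖q‖ ≤ 1) {w : ℂ} {A : ℝ}
    (hne : ∀ v : ℂ, ‖v‖ ≤ ‖w‖ → SokamF.F q v ≠ 0)
    (hA : ∀ v : ℂ, ‖v‖ ≤ ‖w‖ → ‖SokamF.F q (q * v)‖ ≤ A * ‖SokamF.F q v‖) :
    ∃ y : ℂ, ‖y‖ ≤ ‖1 - q‖ * ‖w‖ * A ∧ SokamF.F q (q * w) = cexp y * SokamF.F q w := by
  set γ : ℝ → ℂ := fun s => w + s * (q * w - w) with hγ
  have hγd : ∀ s : ℝ, HasDerivAt γ (q * w - w) s := fun s => by
    have h1 : HasDerivAt (fun s : ℝ => (s : ℂ)) 1 s := Complex.ofRealCLM.hasDerivAt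
    exact ((h1.mul_const (q * w - w)).const_add w).congr_deriv (one_mul _)
  have hγn : ∀ s ∈ Set.Icc (0 : ℝ) 1, ‖γ s‖ ≤ ‖w‖ := by
    rintro s ⟨h0, h1⟩
    have e : γ s = ((1 - s : ℝ) : ℂ) * w + (s : ℂ) * (q * w) := by
      simp only [hγ]
      push_cast
      ring
    rw [e]
    refine (norm_add_le _ _).trans ?_
    rw [norm_mul, norm_mul, norm_mul, Complex.norm_real, Complex.norm_real,
      Real.norm_of_nonneg (by linarith only [h1]), Real.norm_of_nonneg h0]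
    have h2 : ‖q‖ * ‖w‖ ≤ ‖w‖ := mul_le_of_le_one_left (norm_nonneg _) hq
    nlinarith only [h0, h2]
  set f : ℝ → ℂ := fun s => SokamF.F q (γ s) with hf
  have hcontF : Continuous (SokamF.F q) :=
    continuous_iff_continuousAt.2 fun z => (SokamF.hasDerivAt_F hq z).continuousAt
  have hγc : Continuous γ := continuous_iff_continuousAt.2 fun s => (hγd s).continuousAt
  have hfc : Continuous f := hcontF.comp hγc
  have hfd : ∀ s : ℝ, HasDerivAt f ((q * w - w) * SokamF.F q (q * γ s)) s := fun s => by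
    have h1 := (SokamF.hasDerivAt_F hq (γ s)).comp s (hγd s)
    rw [mul_comm]
    exact h1
  set ψ : ℝ → ℂ := fun s => (q * w - w) * SokamF.F q (q * γ s) / f s with hψ
  have hnum : Continuous fun s : ℝ => (q * w - w) * SokamF.F q (q * γ s) :=
    continuous_const.mul (hcontF.comp (continuous_const.mul hγc))
  have hψm : Measurable ψ := hnum.measurable.div hfc.measurable
  have hfne : ∀ s ∈ Set.Icc (0 : ℝ) 1, f s ≠ 0 := fun s hs => hne _ (hγn s hs)
  have hψc : ∀ s ∈ Set.Icc (0 : ℝ) 1, ContinuousAt ψ s := fun s hs =>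
    hnum.continuousAt.div hfc.continuousAt (hfne s hs)
  have hψi : ∀ s ∈ Set.Icc (0 : ℝ) 1, IntervalIntegrable ψ MeasureTheory.volume 0 s := by
    intro s hs
    refine ContinuousOn.intervalIntegrable fun x hx => (hψc x ?_).continuousWithinAt
    rw [Set.uIcc_of_le hs.1] at hx
    exact ⟨hx.1, hx.2.trans hs.2⟩
  have hI : ∀ s ∈ Set.Icc (0 : ℝ) 1, HasDerivAt (fun x => ∫ u in (0 : ℝ)..x, ψ u) (ψ s) s :=
    fun s hs => intervalIntegral.integral_hasDerivAt_right (hψi s hs)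
      hψm.stronglyMeasurable.stronglyMeasurableAtFilter (hψc s hs)
  set h : ℝ → ℂ := fun s => f s * cexp (-∫ u in (0 : ℝ)..s, ψ u) with hh
  have hhd : ∀ s ∈ Set.Icc (0 : ℝ) 1, HasDerivAt h 0 s := by
    intro s hs
    have h1 : HasDerivAt h ((q * w - w) * SokamF.F q (q * γ s) *
        cexp (-∫ u in (0 : ℝ)..s, ψ u) +
        f s * (cexp (-∫ u in (0 : ℝ)..s, ψ u) * -ψ s)) s := (hfd s).mul ((hI s hs).neg.cexp)
    refine h1.congr_deriv ?_
    have h2 : f s * ψ s = (q * w - w) * SokamF.F q (q * γ s) := by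
      simp only [hψ]
      rw [mul_div_cancel₀ _ (hfne s hs)]
    have : f s * (cexp (-∫ u in (0 : ℝ)..s, ψ u) * -ψ s) =
        -(f s * ψ s) * cexp (-∫ u in (0 : ℝ)..s, ψ u) := by ring
    rw [this, h2]
    ring
  have h10 : h 1 = h 0 := by
    have h3 := (convex_Icc (0 : ℝ) 1).norm_image_sub_le_of_norm_hasDerivWithin_le (C := 0)
      (f := h) (f' := fun _ => 0) (fun s hs => (hhd s hs).hasDerivWithinAt)
      (fun s _ => by simp) (Set.left_mem_Icc.2 zero_le_one) (Set.right_mem_Icc.2 zero_le_one)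
    rw [zero_mul, norm_le_zero_iff, sub_eq_zero] at h3
    exact h3
  have hA0 : 0 ≤ A := by
    have h1 := hA w le_rfl
    have h2 : 0 < ‖SokamF.F q w‖ := norm_pos_iff.2 (hne w le_rfl)
    by_contra hcon
    push Not at hcon
    have : A * ‖SokamF.F q w‖ < 0 := mul_neg_of_neg_of_pos hcon h2
    linarith only [h1, this, norm_nonneg (SokamF.F q (q * w))]
  refine ⟨∫ u in (0 : ℝ)..1, ψ u, ?_, ?_⟩
  · have h1 : ∀ u ∈ Set.uIoc (0 : ℝ) 1, ‖ψ u‖ ≤ ‖1 - q‖ * ‖w‖ * A := by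
      intro u hu
      rw [Set.uIoc_of_le zero_le_one] at hu
      have hu' : u ∈ Set.Icc (0 : ℝ) 1 := ⟨hu.1.le, hu.2⟩
      simp only [hψ]
      rw [norm_div, norm_mul, div_le_iff₀ (norm_pos_iff.2 (hfne u hu'))]
      have h2 : ‖q * w - w‖ = ‖1 - q‖ * ‖w‖ := by
        rw [← norm_mul, ← norm_neg]
        congr 1
        ring
      rw [h2]
      have h3 := hA _ (hγn u hu')
      calc ‖1 - q‖ * ‖w‖ * ‖SokamF.F q (q * γ u)‖
          ≤ ‖1 - q‖ * ‖w‖ * (A * ‖SokamF.F q (γ u)‖) := by gcongr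
        _ = _ := by rw [mul_assoc (‖1 - q‖ * ‖w‖)]
    have h2 := intervalIntegral.norm_integral_le_of_norm_le_const h1
    simpa using h2
  · have e1 : h 1 = SokamF.F q (q * w) * cexp (-∫ u in (0 : ℝ)..1, ψ u) := by
      simp only [hh, hf, hγ]
      congr 2
      push_cast
      ring
    have e0 : h 0 = SokamF.F q w := by
      simp only [hh, hf, hγ]
      simp
    rw [e1, e0] at h10
    calc SokamF.F q (q * w) = SokamF.F q (q * w) *
          (cexp (∫ u in (0 : ℝ)..1, ψ u) * cexp (-∫ u in (0 : ℝ)..1, ψ u)) := by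
          rw [← Complex.exp_add, add_neg_cancel, Complex.exp_zero, mul_one]
      _ = cexp (∫ u in (0 : ℝ)..1, ψ u) *
          (SokamF.F q (q * w) * cexp (-∫ u in (0 : ℝ)..1, ψ u)) := by ring
      _ = cexp (∫ u in (0 : ℝ)..1, ψ u) * SokamF.F q w := by rw [h10]

/-- The inequality on a ball excludes zeros there. -/
private theorem Tree_ne {q : ℂ} (hq : ‖q‖ ≤ 1) {r A : ℝ}
    (hA : ∀ v : ℂ, ‖v‖ ≤ r → ‖SokamF.F q (q * v)‖ ≤ A * ‖SokamF.F q v‖) {w : ℂ}
    (hw : ‖w‖ ≤ r) : SokamF.F q w ≠ 0 := by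
  intro h0
  set f : ℝ → ℂ := fun s => SokamF.F q (((1 - s : ℝ) : ℂ) * w) with hf
  have hd : ∀ s : ℝ, HasDerivAt f (-w * SokamF.F q (q * (((1 - s : ℝ) : ℂ) * w))) s := fun s => by
    have h1 : HasDerivAt (fun s : ℝ => ((1 - s : ℝ) : ℂ)) (-1) s := by
      have := ((hasDerivAt_id s).const_sub (1 : ℝ)).ofReal_comp
      simpa using this
    have h2 := (SokamF.hasDerivAt_F hq (((1 - s : ℝ) : ℂ) * w)).comp s (h1.mul_const w)
    refine h2.congr_deriv ?_
    ring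
  have hb : ∀ s ∈ Set.Ico (0 : ℝ) 1,
      ‖-w * SokamF.F q (q * (((1 - s : ℝ) : ℂ) * w))‖ ≤ ‖w‖ * |A| * ‖f s‖ + 0 := by
    rintro s ⟨hs0, hs1⟩
    rw [norm_mul, norm_neg, add_zero, mul_assoc]
    refine mul_le_mul_of_nonneg_left ?_ (norm_nonneg _)
    have h1 : ‖((1 - s : ℝ) : ℂ) * w‖ ≤ r := by
      rw [norm_mul, Complex.norm_real, Real.norm_of_nonneg (by linarith only [hs1])]
      nlinarith only [hw, hs0, norm_nonneg w]
    refine (hA _ h1).trans ?_
    exact mul_le_mul_of_nonneg_right (le_abs_self A) (norm_nonneg _)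
  have hc : ContinuousOn f (Set.Icc 0 1) := fun s _ => (hd s).continuousAt.continuousWithinAt
  have hg := norm_le_gronwallBound_of_norm_deriv_right_le (δ := 0) (K := ‖w‖ * |A|) (ε := 0) hc
    (fun s _ => (hd s).hasDerivWithinAt) (by
      simp only [hf]
      rw [sub_zero, Complex.ofReal_one, one_mul, h0, norm_zero]) hb 1
      (Set.right_mem_Icc.2 zero_le_one)
  have h1 : f 1 = 1 := by
    simp only [hf]
    rw [sub_self, Complex.ofReal_zero, zero_mul, SokamF.F_zero]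
  rw [h1, norm_one] at hg
  have h2 : gronwallBound 0 (‖w‖ * |A|) 0 (1 - 0) = 0 := by
    rw [gronwallBound_ε0]
    ring
  rw [h2] at hg
  linarith only [hg]

/-- Step 1. -/
private theorem Tree_ball {q : ℂ} (hq : ‖q‖ ≤ 1) {ρ : ℝ} (hρ : 0 ≤ ρ)
    (h : ρ * ‖1 - q‖ < Real.exp (-1)) :
    ∀ v : ℂ, ‖v‖ ≤ ρ → ‖SokamF.F q (q * v)‖ ≤ Real.exp 1 * ‖SokamF.F q v‖ := by
  set s : Set ℝ := {r | ∀ v : ℂ, ‖v‖ ≤ r → ‖SokamF.F q (q * v)‖ ≤
    Real.exp 1 * ‖SokamF.F q v‖} with hs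
  have hcontF : Continuous (SokamF.F q) :=
    continuous_iff_continuousAt.2 fun z => (SokamF.hasDerivAt_F hq z).continuousAt
  have hc1 : Continuous fun v : ℂ => ‖SokamF.F q (q * v)‖ :=
    (hcontF.comp (continuous_const.mul continuous_id)).norm
  have hc2 : Continuous fun v : ℂ => Real.exp 1 * ‖SokamF.F q v‖ :=
    continuous_const.mul hcontF.norm
  -- closedness
  have hclosed : IsClosed (s ∩ Set.Icc 0 ρ) := by
    refine IsClosed.inter ?_ isClosed_Icc
    rw [← isOpen_compl_iff, Metric.isOpen_iff]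
    intro r hr
    simp only [hs, Set.mem_compl_iff, Set.mem_ofPred_eq] at hr
    push Not at hr
    obtain ⟨v, hv, hlt⟩ := hr
    -- the strict inequality holds near `v`, so at a point of smaller modulus
    have hop : IsOpen {v : ℂ | Real.exp 1 * ‖SokamF.F q v‖ < ‖SokamF.F q (q * v)‖} :=
      isOpen_lt hc2 hc1
    have hv0 : v ≠ 0 := by
      rintro rfl
      rw [mul_zero, SokamF.F_zero, norm_one, mul_one] at hlt
      have := Real.add_one_le_exp (1 : ℝ)
      linarith only [hlt, this]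
    have hvn : 0 < ‖v‖ := norm_pos_iff.2 hv0
    obtain ⟨ε, hε, hball⟩ := Metric.isOpen_iff.1 hop v hlt
    set c : ℝ := min (1 / 2) (ε / (2 * ‖v‖)) with hc
    have hc0 : 0 < c := by (clear * - hε hv0; positivity)
    have hc12 : c ≤ 1 / 2 := min_le_left _ _
    have hcε : c * ‖v‖ < ε := by
      have h1 : c ≤ ε / (2 * ‖v‖) := min_le_right _ _
      calc c * ‖v‖ ≤ ε / (2 * ‖v‖) * ‖v‖ := by gcongr
        _ = ε / 2 := by field_simp
        _ < ε := by linarith only [hε]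
    have hv' : ((1 - c : ℝ) : ℂ) * v ∈ Metric.ball v ε := by
      rw [Metric.mem_ball, dist_eq_norm]
      have : ((1 - c : ℝ) : ℂ) * v - v = -((c : ℂ) * v) := by push_cast; ring
      rw [this, norm_neg, norm_mul, Complex.norm_real, Real.norm_of_nonneg hc0.le]
      exact hcε
    refine ⟨c * ‖v‖, by (clear * - hε hv0; positivity), ?_⟩
    intro r' hr'
    rw [Metric.mem_ball, Real.dist_eq, abs_lt] at hr'
    simp only [hs, Set.mem_compl_iff, Set.mem_ofPred_eq]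
    push Not
    refine ⟨((1 - c : ℝ) : ℂ) * v, ?_, hball hv'⟩
    rw [norm_mul, Complex.norm_real, Real.norm_of_nonneg (by linarith only [hc12])]
    linarith only [hv, hr'.1]
  have h0 : (0 : ℝ) ∈ s := by
    intro v hv
    have : v = 0 := norm_le_zero_iff.1 hv
    rw [this, mul_zero, SokamF.F_zero, norm_one, mul_one]
    have := Real.add_one_le_exp (1 : ℝ)
    linarith only [this]
  have hgt : ∀ r ∈ s ∩ Set.Ico 0 ρ, ∀ y ∈ Set.Ioi r, (s ∩ Set.Ioc r y).Nonempty := by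
    rintro r ⟨hrs, hr0, hrρ⟩ y hy
    -- strict inequality on the closed ball
    have hstrict : ∀ v ∈ Metric.closedBall (0 : ℂ) r,
        ‖SokamF.F q (q * v)‖ < Real.exp 1 * ‖SokamF.F q v‖ := by
      intro v hv
      rw [mem_closedBall_zero_iff] at hv
      have hne : ∀ u : ℂ, ‖u‖ ≤ ‖v‖ → SokamF.F q u ≠ 0 := fun u hu =>
        Tree_ne hq hrs (hu.trans hv)
      obtain ⟨y, hy1, hy2⟩ := Tree_exp hq hne fun u hu => hrs u (hu.trans hv)
      rw [hy2, norm_mul, Complex.norm_exp]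
      have h1 : y.re < 1 := by
        have h2 : ‖1 - q‖ * ‖v‖ * Real.exp 1 ≤ ρ * ‖1 - q‖ * Real.exp 1 := by
          have : ‖1 - q‖ * ‖v‖ ≤ ρ * ‖1 - q‖ := by
            rw [mul_comm]
            exact mul_le_mul_of_nonneg_right (hv.trans hrρ.le) (norm_nonneg _)
          gcongr
        have h3 : ρ * ‖1 - q‖ * Real.exp 1 < Real.exp (-1) * Real.exp 1 := by gcongr
        rw [← Real.exp_add, neg_add_cancel, Real.exp_zero] at h3
        have h4 := Complex.re_le_norm y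
        linarith only [hy1, h2, h3, h4]
      exact mul_lt_mul_of_pos_right (Real.exp_lt_exp.2 h1)
        (norm_pos_iff.2 (hne v le_rfl))
    have hop : IsOpen {v : ℂ | ‖SokamF.F q (q * v)‖ < Real.exp 1 * ‖SokamF.F q v‖} :=
      isOpen_lt hc1 hc2
    obtain ⟨δ, hδ, hsub⟩ := (isCompact_closedBall (0 : ℂ) r).exists_thickening_subset_open hop
      hstrict
    refine ⟨min y (r + δ / 2), ?_, lt_min hy (by linarith only [hδ]), min_le_left _ _⟩
    intro v hv
    have hv2 : ‖v‖ ≤ r + δ / 2 := hv.trans (min_le_right _ _)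
    have : v ∈ Metric.thickening δ (Metric.closedBall (0 : ℂ) r) := by
      rw [Metric.mem_thickening_iff]
      rcases le_or_gt ‖v‖ r with h1 | h1
      · exact ⟨v, mem_closedBall_zero_iff.2 h1, by rw [dist_self]; exact hδ⟩
      · have hv0 : 0 < ‖v‖ := hr0.trans_lt h1
        refine ⟨((r / ‖v‖ : ℝ) : ℂ) * v, ?_, ?_⟩
        · rw [mem_closedBall_zero_iff, norm_mul, Complex.norm_real,
            Real.norm_of_nonneg (by (clear * - hr0 hv0; positivity)), div_mul_cancel₀ _ hv0.ne']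
        · rw [dist_eq_norm]
          have e : v - ((r / ‖v‖ : ℝ) : ℂ) * v = ((1 - r / ‖v‖ : ℝ) : ℂ) * v := by
            push_cast; ring
          have h2 : 0 ≤ 1 - r / ‖v‖ := by
            rw [sub_nonneg, div_le_one hv0]
            exact h1.le
          rw [e, norm_mul, Complex.norm_real, Real.norm_of_nonneg h2, sub_mul, one_mul,
            div_mul_cancel₀ _ hv0.ne']
          linarith only [hv2, h1]
    exact (hsub this).le
  have := hclosed.Icc_subset_of_forall_exists_gt h0 hgt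
  exact this (Set.right_mem_Icc.2 hρ)

theorem tree {q z : ℂ} (hq : ‖q‖ ≤ 1) (h : ‖z‖ * ‖1 - q‖ < Real.exp (-1)) :
    SokamF.F q z ≠ 0 ∧ ∃ y : ℂ, ‖y‖ < 1 ∧ ‖y‖ * Real.exp (-‖y‖) ≤ ‖z‖ * ‖1 - q‖ ∧
      SokamF.F q (q * z) = cexp y * SokamF.F q z := by
  have hball := Tree_ball hq (norm_nonneg z) h
  have hne : ∀ v : ℂ, ‖v‖ ≤ ‖z‖ → SokamF.F q v ≠ 0 := fun v hv => Tree_ne hq hball hv
  refine ⟨hne z le_rfl, ?_⟩
  have hcontF : Continuous (SokamF.F q) :=
    continuous_iff_continuousAt.2 fun z => (SokamF.hasDerivAt_F hq z).continuousAt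
  -- the maximum of the quotient
  obtain ⟨v0, hv0, hmax⟩ := (isCompact_closedBall (0 : ℂ) ‖z‖).exists_isMaxOn
    ⟨0, Metric.mem_closedBall_self (norm_nonneg _)⟩
    (f := fun v => ‖SokamF.F q (q * v)‖ / ‖SokamF.F q v‖)
    (by
      refine ContinuousOn.div (hcontF.comp (continuous_const.mul continuous_id)).norm.continuousOn
        hcontF.norm.continuousOn fun v hv => ?_
      exact (norm_pos_iff.2 (hne v (mem_closedBall_zero_iff.1 hv))).ne')
  rw [mem_closedBall_zero_iff] at hv0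
  set A : ℝ := ‖SokamF.F q (q * v0)‖ / ‖SokamF.F q v0‖ with hA
  have hv0p : 0 < ‖SokamF.F q v0‖ := norm_pos_iff.2 (hne v0 hv0)
  have hAb : ∀ v : ℂ, ‖v‖ ≤ ‖z‖ → ‖SokamF.F q (q * v)‖ ≤ A * ‖SokamF.F q v‖ := by
    intro v hv
    have h1 : ‖SokamF.F q (q * v)‖ / ‖SokamF.F q v‖ ≤ A :=
      hmax (mem_closedBall_zero_iff.2 hv)
    rwa [div_le_iff₀ (norm_pos_iff.2 (hne v hv))] at h1
  have hAe : A ≤ Real.exp 1 := by
    rw [hA, div_le_iff₀ hv0p]
    exact hball v0 hv0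
  have hA0 : 0 ≤ A := by (clear * - hv0p; positivity)
  set d : ℝ := ‖1 - q‖ with hd
  have hd0 : 0 ≤ d := norm_nonneg _
  set Y : ℝ := d * ‖z‖ * A with hY
  have hY0 : 0 ≤ Y := by (clear * - hv0p; positivity)
  have hY1 : Y < 1 := by
    have h1 : d * ‖z‖ * A ≤ ‖z‖ * d * Real.exp 1 := by
      rw [mul_comm d]
      gcongr
    have h2 : ‖z‖ * d * Real.exp 1 < Real.exp (-1) * Real.exp 1 := by gcongr
    rw [← Real.exp_add, neg_add_cancel, Real.exp_zero] at h2
    linarith only [h1, h2]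
  have hAY : A ≤ Real.exp Y := by
    obtain ⟨y, hy1, hy2⟩ := Tree_exp hq (fun u hu => hne u (hu.trans hv0))
      fun u hu => hAb u (hu.trans hv0)
    rw [hA, hy2, norm_mul, mul_div_assoc, div_self hv0p.ne', mul_one, Complex.norm_exp,
      Real.exp_le_exp]
    refine (Complex.re_le_norm y).trans (hy1.trans ?_)
    rw [hY]
    gcongr
  have hYe : Y * Real.exp (-Y) ≤ ‖z‖ * d := by
    have h1 : A * Real.exp (-Y) ≤ 1 := by
      calc A * Real.exp (-Y) ≤ Real.exp Y * Real.exp (-Y) := by gcongr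
        _ = 1 := by rw [← Real.exp_add, add_neg_cancel, Real.exp_zero]
    calc Y * Real.exp (-Y) = d * ‖z‖ * (A * Real.exp (-Y)) := by rw [hY]; ring
      _ ≤ d * ‖z‖ * 1 := by gcongr
      _ = ‖z‖ * d := by ring
  obtain ⟨y, hy1, hy2⟩ := Tree_exp hq hne hAb
  refine ⟨y, hy1.trans_lt hY1, ?_, hy2⟩
  refine le_trans ?_ hYe
  -- `t e^{-t}` increases on `[0,1]`
  have hyY : ‖y‖ ≤ Y := hy1
  have h1 : ‖y‖ * Real.exp (Y - ‖y‖) ≤ Y := by
    rcases eq_or_lt_of_le hyY with h2 | h2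
    · rw [h2, sub_self, Real.exp_zero, mul_one]
    · -- `e^{-u} ≥ 1 - u`
      have h3 : Real.exp (Y - ‖y‖) * (1 - (Y - ‖y‖)) ≤ 1 := by
        have h4 := Real.one_sub_le_exp_neg (Y - ‖y‖)
        calc Real.exp (Y - ‖y‖) * (1 - (Y - ‖y‖)) ≤
            Real.exp (Y - ‖y‖) * Real.exp (-(Y - ‖y‖)) := by gcongr
          _ = 1 := by rw [← Real.exp_add, add_neg_cancel, Real.exp_zero]
      have h5 : 0 ≤ ‖y‖ := norm_nonneg y
      have h6 : 0 < Real.exp (Y - ‖y‖) := Real.exp_pos _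
      have h7 : ‖y‖ ≤ Y * (1 - (Y - ‖y‖)) := by nlinarith only [hY1, hyY]
      have h8 : 0 < 1 - (Y - ‖y‖) := by linarith only [hY1, h5]
      calc ‖y‖ * Real.exp (Y - ‖y‖) ≤ Y * (1 - (Y - ‖y‖)) * Real.exp (Y - ‖y‖) := by gcongr
        _ = Y * (Real.exp (Y - ‖y‖) * (1 - (Y - ‖y‖))) := by ring
        _ ≤ Y * 1 := by gcongr
        _ = Y := mul_one Y
  calc ‖y‖ * Real.exp (-‖y‖) = ‖y‖ * Real.exp (Y - ‖y‖) * Real.exp (-Y) := by
        rw [mul_assoc, ← Real.exp_add]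
        congr 2
        ring
    _ ≤ Y * Real.exp (-Y) := by gcongr

end SokamV

end

/-! ### Lib_MP_af4de1_in.T2Tree -/

section
/-!
# The tree region in terms of `Ev`, `Dv`, and injectivity of `y e^y` on the disc [IN-T2]

`tree_EvDv`: `z = ζ/t e^{-t/2}`, `q = e^{-t}`: `‖1 - q‖ ≤ ‖t‖` for `Re t ≥ 0` (`1 - e^{-t} = ∫_0^1 t e^{-ts} ds`), `‖e^{-t/2}‖ ≤ 1`, so
`‖z‖‖1 - q‖ ≤ ‖ζ‖ < 1/e`: `tree`: `F(q;z) ≠ 0`, `F(q;qz) = e^y F(q;z)`, `‖y‖ < 1`; `Ev = F(z) κ`, `Dv = t z F(qz) κ`, `κ = (2πt)^{1/2} I ≠ 0`: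
`‖Dv‖ = ‖t z‖ ‖e^y‖ ‖Ev‖ ≤ ‖ζ‖ e ‖Ev‖`.
`exp_inj`: `y1 e^{y1} = y2 e^{y2}`, `‖y_i‖ ≤ 1`: `w = y2 - y1`; `y1 = y2 e^w`.
`y1 - y2 = y2 (e^w - 1) = y2 w ∫_0^1 e^{τ w} dτ`, so if `w ≠ 0` the integral of `y2 e^{τ w}` is `-1`, while `‖y2 e^{τ w}‖ ≤ 1`.
-/

namespace SokamV

open Complex Filter Topology

/-- `‖1 - e^{-t}‖ ≤ ‖t‖` for `Re t ≥ 0` -/
private theorem tr_norm {t : ℂ} (hre : 0 ≤ t.re) : ‖1 - cexp (-t)‖ ≤ ‖t‖ := by
  have h := Convex.norm_image_sub_le_of_norm_deriv_le (𝕜 := ℂ) (f := fun z : ℂ => cexp (-z))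
    (C := 1) (s := {z : ℂ | 0 ≤ z.re}) (x := t) (y := 0)
    (fun z _ => by fun_prop) (fun z hz => ?_) (convex_halfSpace_re_ge 0) hre (by simp)
  · simpa using h
  · have h1 : HasDerivAt (fun z : ℂ => cexp (-z)) (cexp (-z) * -1) z :=
      (hasDerivAt_neg z).cexp
    rw [h1.deriv, norm_mul, norm_neg, norm_one, mul_one, Complex.norm_exp, Complex.neg_re]
    exact Real.exp_le_one_iff.2 (neg_nonpos.2 hz)

theorem tree_EvDv {t ζ : ℂ} (ht : t ≠ 0) (hre : 0 ≤ t.re) (h : ‖ζ‖ < Real.exp (-1)) :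
    Ev t ζ ≠ 0 ∧ ‖Dv t ζ‖ ≤ ‖Ev t ζ‖ := by
  have ht0 : 0 < ‖t‖ := norm_pos_iff.2 ht
  have hq : ‖cexp (-t)‖ ≤ 1 := by
    rw [Complex.norm_exp, Complex.neg_re]
    exact Real.exp_le_one_iff.2 (neg_nonpos.2 hre)
  have hh : ‖cexp (-t / 2)‖ ≤ 1 := by
    rw [Complex.norm_exp]
    refine Real.exp_le_one_iff.2 ?_
    have : (-t / 2).re = -(t.re / 2) := by
      have e : -t / 2 = -((1 / 2 : ℝ) * t) := by push_cast; ring
      rw [e, Complex.neg_re, Complex.re_ofReal_mul]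
      ring
    rw [this]
    linarith only [hre, h, ht0]
  set z : ℂ := ζ / t * cexp (-t / 2) with hz
  have htz : ‖t * z‖ ≤ ‖ζ‖ := by
    have e : t * z = ζ * cexp (-t / 2) := by
      rw [hz]
      field_simp
    rw [e, norm_mul]
    exact mul_le_of_le_one_right (norm_nonneg _) hh
  have h1 : ‖z‖ * ‖1 - cexp (-t)‖ < Real.exp (-1) := by
    refine lt_of_le_of_lt ?_ h
    calc ‖z‖ * ‖1 - cexp (-t)‖ ≤ ‖z‖ * ‖t‖ :=
          mul_le_mul_of_nonneg_left (tr_norm hre) (norm_nonneg _)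
      _ = ‖t * z‖ := by rw [norm_mul t z, mul_comm]
      _ ≤ ‖ζ‖ := htz
  obtain ⟨hne, y, hy, _, hF⟩ := tree hq h1
  have hκ : (2 * Real.pi * t) ^ (1 / 2 : ℂ) ≠ 0 := by
    rw [Ne, Complex.cpow_eq_zero_iff]
    push Not
    intro h2
    have hpi : (Real.pi : ℂ) ≠ 0 := by exact_mod_cast Real.pi_ne_zero
    exact absurd h2 (mul_ne_zero (mul_ne_zero two_ne_zero hpi) ht)
  have hE : Ev t ζ = SokamF.F (cexp (-t)) z * ((2 * Real.pi * t) ^ (1 / 2 : ℂ) * I) := by
    unfold Ev SokamU.E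
    rw [← hz]
    ring
  have hD : Dv t ζ = (t * z) * cexp y * Ev t ζ := by
    rw [hE]
    unfold Dv SokamU.DE SokamU.E
    rw [← hz, hF]
    ring
  refine ⟨?_, ?_⟩
  · rw [hE]
    exact mul_ne_zero hne (mul_ne_zero hκ Complex.I_ne_zero)
  · rw [hD, norm_mul, norm_mul]
    refine mul_le_of_le_one_left (norm_nonneg _) ?_
    have h3 : ‖cexp y‖ ≤ Real.exp 1 := by
      rw [Complex.norm_exp]
      exact Real.exp_le_exp.2 ((Complex.re_le_norm y).trans hy.le)
    calc ‖t * z‖ * ‖cexp y‖ ≤ Real.exp (-1) * Real.exp 1 :=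
          mul_le_mul (htz.trans h.le) h3 (norm_nonneg _) (Real.exp_pos _).le
      _ = 1 := by rw [← Real.exp_add]; simp

theorem exp_inj {y1 y2 : ℂ} (h1 : ‖y1‖ ≤ 1) (h2 : ‖y2‖ ≤ 1) (h : y1 * cexp y1 = y2 * cexp y2) :
    y1 = y2 := by
  by_contra hne
  -- the function `g τ = ‖y2 exp (τ w)‖`
  set w : ℂ := y2 - y1 with hw
  have hw0 : w ≠ 0 := fun h0 => hne (by rw [hw, sub_eq_zero] at h0; exact h0.symm)
  have e1 : y1 = y2 * cexp w := by
    rw [hw, Complex.exp_sub, ← mul_div_assoc, ← h, mul_div_assoc, div_self (Complex.exp_ne_zero _),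
      mul_one]
  -- the path
  have hint : ∫ τ in (0:ℝ)..1, y2 * cexp (τ * w) = -1 := by
    have hd : ∀ τ ∈ Set.uIcc (0:ℝ) 1, HasDerivAt (fun τ : ℝ => y2 * cexp (τ * w) / w)
        (y2 * cexp (τ * w)) τ := by
      intro τ _
      have h3 : HasDerivAt (fun s : ℂ => y2 * cexp (s * w) / w) (y2 * (cexp (τ * w) * w) / w) τ := by
        have h4 : HasDerivAt (fun s : ℂ => s * w) w (τ : ℂ) := by
          simpa using (hasDerivAt_id (τ : ℂ)).mul_const w
        exact ((h4.cexp).const_mul y2).div_const w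
      have h5 := h3.comp_ofReal
      have e : y2 * (cexp (τ * w) * w) / w = y2 * cexp (τ * w) := by field_simp
      rwa [e] at h5
    rw [intervalIntegral.integral_eq_sub_of_hasDerivAt hd
      ((by fun_prop : Continuous fun τ : ℝ => y2 * cexp (τ * w)).intervalIntegrable _ _)]
    simp only [Complex.ofReal_one, one_mul, Complex.ofReal_zero, zero_mul, Complex.exp_zero, mul_one]
    rw [← e1, ← sub_div]
    have : y1 - y2 = -w := by rw [hw]; ring
    rw [this, neg_div, div_self hw0]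
  -- every value has norm at most one
  have hle : ∀ τ ∈ Set.Icc (0:ℝ) 1, ‖y2 * cexp (τ * w)‖ ≤ 1 := by
    intro τ hτ
    have e2 : ‖y2 * cexp (τ * w)‖ = ‖y2‖ * Real.exp (τ * w.re) := by
      rw [norm_mul, Complex.norm_exp, Complex.re_ofReal_mul]
    have e3 : ‖y1‖ = ‖y2‖ * Real.exp w.re := by
      rw [e1, norm_mul, Complex.norm_exp]
    rw [e2]
    rcases le_total 0 w.re with hc | hc
    · calc ‖y2‖ * Real.exp (τ * w.re) ≤ ‖y2‖ * Real.exp w.re := by
            refine mul_le_mul_of_nonneg_left (Real.exp_le_exp.2 ?_) (norm_nonneg _)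
            nlinarith only [hc, hτ.2]
        _ ≤ 1 := by rw [← e3]; exact h1
    · calc ‖y2‖ * Real.exp (τ * w.re) ≤ ‖y2‖ * 1 := by
            refine mul_le_mul_of_nonneg_left (Real.exp_le_one_iff.2 ?_) (norm_nonneg _)
            exact mul_nonpos_of_nonneg_of_nonpos hτ.1 hc
        _ ≤ 1 := by rw [mul_one]; exact h2
  -- real parts
  have hre : ∫ τ in (0:ℝ)..1, (1 + (y2 * cexp (τ * w)).re) = 0 := by
    have hc : Continuous fun τ : ℝ => y2 * cexp (τ * w) := by fun_prop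
    have h3 : (∫ τ in (0:ℝ)..1, (y2 * cexp (τ * w)).re) = -1 := by
      have h4 := Complex.reCLM.intervalIntegral_comp_comm (μ := MeasureTheory.volume)
        (hc.intervalIntegrable 0 1)
      rw [hint] at h4
      simpa using h4
    have hc2 : Continuous fun τ : ℝ => (y2 * cexp (τ * w)).re := by fun_prop
    rw [intervalIntegral.integral_add (continuous_const.intervalIntegrable _ _)
      (hc2.intervalIntegrable _ _), h3]
    simp
  have hcre : Continuous fun τ : ℝ => 1 + (y2 * cexp (τ * w)).re := by fun_prop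
  have hnn : ∀ τ ∈ Set.Icc (0:ℝ) 1, 0 ≤ 1 + (y2 * cexp (τ * w)).re := by
    intro τ hτ
    have := Complex.abs_re_le_norm (y2 * cexp (τ * w))
    have h3 := hle τ hτ
    linarith only [h3, (abs_le.1 this).1]
  have hz : ∀ τ ∈ Set.Icc (0:ℝ) 1, 1 + (y2 * cexp (τ * w)).re = 0 := by
    intro τ hτ
    by_contra hcon
    have hpos : 0 < 1 + (y2 * cexp (τ * w)).re := lt_of_le_of_ne (hnn τ hτ) (Ne.symm hcon)
    have := intervalIntegral.integral_pos (a := 0) (b := 1) one_pos hcre.continuousOn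
      (fun x hx => hnn x ⟨hx.1.le, hx.2⟩) ⟨τ, hτ, hpos⟩
    linarith only [hre, this]
  have hval : ∀ τ ∈ Set.Icc (0:ℝ) 1, y2 * cexp (τ * w) = -1 := by
    intro τ hτ
    have h3 := hz τ hτ
    have h4 := hle τ hτ
    have h5 : (y2 * cexp (τ * w)).re = -1 := by linarith only [h3]
    have h6 : (y2 * cexp (τ * w)).im = 0 := by
      have h7 := Complex.sq_norm (y2 * cexp (τ * w))
      rw [Complex.normSq_apply] at h7
      nlinarith only [h4, h5, h7, norm_nonneg (y2 * cexp (τ * w))]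
    exact Complex.ext (by simpa using h5) (by simpa using h6)
  have v0 := hval 0 ⟨le_rfl, zero_le_one⟩
  have v1 := hval 1 ⟨zero_le_one, le_rfl⟩
  simp only [Complex.ofReal_zero, zero_mul, Complex.exp_zero, mul_one] at v0
  simp only [Complex.ofReal_one, one_mul] at v1
  rw [← e1] at v1
  exact hne (v1.trans v0.symm)

end SokamV

end

/-! ### Lib_MP_af4de1_in.T3Dom -/

section
/-!
# Domination inside the tree region [IN-T3]

`‖ζ0‖ = 1/e`.  `dom_one`: `t n = conj u/(n+1)`, `ζ n = ζ0 (1 - 1/(n+2))`: `Par t ζ ζ0 u` (`‖t n‖/t n = u`); `val_one`: `‖Dv + S J‖ = o(‖J‖)`, `Ev - J = o(‖J‖)` (`Big`,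
`Small`, as in `v1_small`), and `‖Dv‖ ≤ ‖Ev‖` (`tree_EvDv`): `‖S‖ ≤ 1`.
`dom_two`: `w = u (S' - S) ≠ 0` not a positive real, `η = conj w/‖w‖ - 1`: `Re η < 0`, `Re (w η) = ‖w‖ - Re w > 0`.
`t n = conj u/(n+1)`, `ζ n = ζ0 exp(η/√(n+1))`, so `‖ζ n‖ < 1/e`.  `val_two_lim`.  `Ph (ζ n) (Sn n) = Sn²/2 - Sn` (critical equation), the same for `S'`.
With `y = -S ≠ 0`, `y ≠ -1` (`S ≠ 1`: `good_ne_one`), `y_n = -Sn n`: `y_n e^{y_n} = ζ n`, so `y_n - y + log(y_n/y) = η/√(n+1)` for large `n` (both sides are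
small and have the same exponential); so `(y_n - y)/(η/√(n+1)) → y/(1+y)` and `(Ph(ζ n)(Sn n) - Ph ζ0 S)/(η/√(n+1)) → y = -S` (`= (y_n-y)(y_n+y+2)/2`).
`Re (u Ph ζ0 S) = c = Re (u Ph ζ0 S')` (`Sad.height` in the chain).  `1/t n = u (n+1)` (`‖u‖ = 1`): `Re (Ph(ζ n)(Sn n)/t n - Ph(ζ n)(Sn' n)/t n)
= √(n+1) (Re (u(S' - S) η) + o(1)) → ∞`, so `‖J' n‖/‖J n‖ → 0` (`c0, c0' ≠ 0`); `Ev - J - J' = o(‖J‖)`, `Dv + S J + S' J' = o(‖J‖ + ‖J'‖)`, `‖Dv‖ ≤ ‖Ev‖`: `‖S‖ ≤ 1`.
`good_ne_one`: a saddle point in a good list is not `1` (`Sad.desc` with `deriv_deriv_Ph`: `1 + ζ e^S = 1 - S`).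
`good_height`: both heights are `c`.
-/

namespace SokamV

open Complex Filter Topology

private theorem t3_sad {u ζ : ℂ} {c c' : ℝ} {A B : ℂ} {L : List ℂ}
    (h : Chain u (Ph ζ) c c' A L B) {S : ℂ} (hS : S ∈ L) : ∃ v : ℂ, Sad u (Ph ζ) c S v := by
  induction h with
  | nil _ => exact absurd hS List.not_mem_nil
  | @cons _ _ _ v _ _ h2 _ ih =>
    rcases List.mem_cons.1 hS with h3 | h3
    · rw [h3]
      exact ⟨v, h2⟩
    · exact ih h3

private theorem t3_good_sad {u ζ : ℂ} {c : ℝ} {L : List ℂ} (hg : Good u ζ c L) {S : ℂ}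
    (hS : S ∈ L) : ∃ v : ℂ, Sad u (Ph ζ) c S v := by
  obtain ⟨c', _, R0, hR0⟩ := hg
  exact t3_sad (hR0 R0 le_rfl) hS

theorem good_ne_one {u ζ : ℂ} {c : ℝ} {L : List ℂ} (hg : Good u ζ c L) {S : ℂ} (hS : S ∈ L) :
    S ≠ 1 := by
  rintro rfl
  obtain ⟨v, hv⟩ := t3_good_sad hg hS
  have h1 := good_crit hg hS
  have h2 := hv.desc
  rw [deriv_deriv_Ph] at h2
  have h3 : 1 + ζ * cexp 1 = 0 := h1
  rw [h3] at h2
  simp at h2

theorem good_height {u ζ : ℂ} {c : ℝ} {L : List ℂ} (hg : Good u ζ c L) {S : ℂ} (hS : S ∈ L) :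
    (u * Ph ζ S).re = c := by
  obtain ⟨v, hv⟩ := t3_good_sad hg hS
  exact hv.height

private theorem t3_exp {τ : ℕ → ℝ} (hτ : ∀ n, 0 < τ n) (hτ0 : Tendsto τ atTop (𝓝 0))
    {C η δ : ℝ} (hη : 0 < η) (hδ : 0 < δ) : ∀ᶠ n in atTop, C ≤ η * Real.exp (δ / τ n) := by
  have h2 : ∀ᶠ n in atTop, τ n < η * δ / (|C| + 1) := hτ0.eventually_lt_const (by (clear * - hη hδ; positivity))
  filter_upwards [h2] with n hn
  have h3 : δ / τ n ≤ Real.exp (δ / τ n) := by
    have := Real.add_one_le_exp (δ / τ n)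
    linarith only [this]
  have h4 : τ n * (|C| + 1) < η * δ := by
    rwa [lt_div_iff₀ (by (clear * -; positivity))] at hn
  calc C ≤ |C| + 1 := by linarith only [le_abs_self C]
    _ ≤ η * (δ / τ n) := by
        rw [← mul_div_assoc, le_div_iff₀ (hτ n)]
        linarith only [h4]
    _ ≤ η * Real.exp (δ / τ n) := mul_le_mul_of_nonneg_left h3 hη.le

private theorem t3_small {τ : ℕ → ℝ} (hτ : ∀ n, 0 < τ n) (hτ0 : Tendsto τ atTop (𝓝 0))
    {c c' : ℝ} (hc : c' < c) {J R : ℕ → ℂ} (hJ : Big τ c J) (hR : Small τ c' R) {η : ℝ}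
    (hη : 0 < η) : ∀ᶠ n in atTop, ‖R n‖ ≤ η * ‖J n‖ := by
  obtain ⟨C, hC⟩ := hR
  have hδ : 0 < (c - c') / 2 := by linarith only [hc]
  filter_upwards [hC, hJ _ hδ, t3_exp (C := C) hτ hτ0 hη hδ] with n h1 h2 h3
  have h4 : Real.exp ((c - (c - c') / 2) / τ n) =
      Real.exp (((c - c') / 2) / τ n) * Real.exp (c' / τ n) := by
    rw [← Real.exp_add]
    congr 1
    ring
  calc ‖R n‖ ≤ C * Real.exp (c' / τ n) := h1
    _ ≤ (η * Real.exp (((c - c') / 2) / τ n)) * Real.exp (c' / τ n) :=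
        mul_le_mul_of_nonneg_right h3 (Real.exp_pos _).le
    _ = η * Real.exp ((c - (c - c') / 2) / τ n) := by rw [h4]; ring
    _ ≤ η * ‖J n‖ := mul_le_mul_of_nonneg_left h2 hη.le

/-- the parameters `conj u/(n+1)` -/
private noncomputable def t3t (u : ℂ) (n : ℕ) : ℂ := (starRingEnd ℂ) u / ((n : ℂ) + 1)

private theorem t3_uu {u : ℂ} (hu : ‖u‖ = 1) : u * (starRingEnd ℂ) u = 1 := by
  rw [Complex.mul_conj, Complex.normSq_eq_norm_sq, hu]
  simp

private theorem t3_inv {u : ℂ} (hu : ‖u‖ = 1) (n : ℕ) (X : ℂ) :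
    X / t3t u n = u * ((n : ℂ) + 1) * X := by
  have h1 := t3_uu hu
  have h2 : (starRingEnd ℂ) u ≠ 0 := right_ne_zero_of_mul (by rw [h1]; exact one_ne_zero)
  have h3 : (n : ℂ) + 1 ≠ 0 := by exact_mod_cast Nat.succ_ne_zero n
  unfold t3t
  rw [div_div_eq_mul_div, div_eq_iff h2]
  linear_combination (-(X * ((n : ℂ) + 1))) * h1

private theorem t3_norm {u : ℂ} (hu : ‖u‖ = 1) (n : ℕ) : ‖t3t u n‖ = 1 / ((n : ℝ) + 1) := by
  unfold t3t
  rw [norm_div, RCLike.norm_conj, hu]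
  congr 1
  have : ((n : ℂ) + 1) = (((n : ℝ) + 1 : ℝ) : ℂ) := by push_cast; ring
  rw [this, Complex.norm_real, Real.norm_of_nonneg (by (clear * -; positivity))]

private theorem t3_par {u ζ0 : ℂ} (hu : ‖u‖ = 1) (hre : 0 ≤ u.re) (him : 0 ≤ u.im) {ζ : ℕ → ℂ}
    (hζ : Tendsto ζ atTop (𝓝 ζ0)) : Par (t3t u) ζ ζ0 u := by
  have hcast : ∀ n : ℕ, ((n : ℂ) + 1) = (((n : ℝ) + 1 : ℝ) : ℂ) := fun n => by push_cast; ring
  have hpos : ∀ n : ℕ, 0 < (n : ℝ) + 1 := fun n => by (clear * -; positivity)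
  have hne : ∀ n, t3t u n ≠ 0 := by
    intro n h0
    have := t3_norm hu n
    rw [h0, norm_zero] at this
    have h1 : 0 < 1 / ((n : ℝ) + 1) := by (clear * -; positivity)
    linarith only [this, h1]
  refine ⟨hne, fun n => ?_, fun n => ?_, ?_, ?_, hζ⟩
  · unfold t3t
    rw [hcast, Complex.div_ofReal_re, Complex.conj_re]
    exact div_nonneg hre (hpos n).le
  · unfold t3t
    rw [hcast, Complex.div_ofReal_im, Complex.conj_im]
    exact div_nonpos_of_nonpos_of_nonneg (by linarith only [him]) (hpos n).le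
  · rw [tendsto_zero_iff_norm_tendsto_zero]
    refine Tendsto.congr (fun n => (t3_norm hu n).symm) ?_
    exact tendsto_one_div_add_atTop_nhds_zero_nat
  · refine tendsto_const_nhds.congr fun n => ?_
    rw [t3_inv hu, t3_norm hu]
    have h3 : (n : ℂ) + 1 ≠ 0 := by exact_mod_cast Nat.succ_ne_zero n
    push_cast
    field_simp

theorem dom_one {u ζ0 : ℂ} {c : ℝ} {S : ℂ} (hu : ‖u‖ = 1) (hre : 0 ≤ u.re) (him : 0 ≤ u.im)
    (h0 : ‖ζ0‖ = Real.exp (-1)) (hg : Good u ζ0 c [S]) : ‖S‖ ≤ 1 := by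
  set ζ : ℕ → ℂ := fun n => ζ0 * ((1 - 1 / ((n : ℝ) + 2) : ℝ) : ℂ) with hζ
  have h2 : ∀ n : ℕ, 0 < 1 / ((n : ℝ) + 2) ∧ 1 / ((n : ℝ) + 2) ≤ 1 := by
    intro n
    have h3 : (0 : ℝ) < (n : ℝ) + 2 := by (clear * -; positivity)
    refine ⟨by (clear * -; positivity), ?_⟩
    rw [div_le_one h3]
    have : (0 : ℝ) ≤ n := Nat.cast_nonneg n
    linarith only []
  have hζn : ∀ n, ‖ζ n‖ < Real.exp (-1) := by
    intro n
    rw [hζ]
    simp only
    rw [norm_mul, Complex.norm_real, h0, Real.norm_of_nonneg (by linarith only [(h2 n).2])]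
    have := Real.exp_pos (-1)
    nlinarith only [this, (h2 n).1]
  have hlim : Tendsto ζ atTop (𝓝 ζ0) := by
    have h3 : Tendsto (fun n : ℕ => (1 - 1 / ((n : ℝ) + 2) : ℝ)) atTop (𝓝 (1 - 0)) := by
      refine tendsto_const_nhds.sub ?_
      refine tendsto_const_nhds.div_atTop ?_
      exact tendsto_atTop_add_const_right _ _ tendsto_natCast_atTop_atTop
    have h4 := (Complex.continuous_ofReal.tendsto _).comp h3
    have h5 := h4.const_mul ζ0
    rw [sub_zero, Complex.ofReal_one, mul_one] at h5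
    exact h5
  have hP := t3_par hu hre him hlim
  obtain ⟨c', hc', J, hJ, hE, hD⟩ := val_one hP hg
  have hτ : ∀ n, 0 < ‖t3t u n‖ := fun n => norm_pos_iff.2 (hP.ne n)
  have hτ0 : Tendsto (fun n => ‖t3t u n‖) atTop (𝓝 0) := by
    have := hP.lim.norm
    rwa [norm_zero] at this
  refine le_of_forall_pos_le_add fun ε hε => ?_
  obtain ⟨n, k1, k2, k3⟩ := ((t3_small hτ hτ0 hc' hJ hE (η := ε / 2) (by (clear * - hε; positivity))).and
    ((hD (ε / 2) (by (clear * - hε; positivity))).and (hJ 1 one_pos))).exists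
  have k4 := (tree_EvDv (hP.ne n) (hP.re n) (hζn n)).2
  have hJp : 0 < ‖J n‖ := (Real.exp_pos _).trans_le k3
  have k5 : ‖S‖ * ‖J n‖ ≤ ‖Dv (t3t u n) (ζ n) + S * J n‖ + ‖Dv (t3t u n) (ζ n)‖ := by
    rw [← norm_mul]
    calc ‖S * J n‖ = ‖(Dv (t3t u n) (ζ n) + S * J n) - Dv (t3t u n) (ζ n)‖ := by
          congr 1; ring
      _ ≤ _ := norm_sub_le _ _
  have k6 : ‖Ev (t3t u n) (ζ n)‖ ≤ ‖Ev (t3t u n) (ζ n) - J n‖ + ‖J n‖ := by
    calc ‖Ev (t3t u n) (ζ n)‖ = ‖(Ev (t3t u n) (ζ n) - J n) + J n‖ := by congr 1; ring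
      _ ≤ _ := norm_add_le _ _
  have k7 : ‖S‖ * ‖J n‖ ≤ (1 + ε) * ‖J n‖ := by linarith only [k1, k2, k4, k5, k6]
  exact le_of_mul_le_mul_right k7 hJp

/-- The critical value as a function of `ζ`. -/
private theorem t3_crit {ζ0 S : ℂ} (hS : S + ζ0 * cexp S = 0) (h1 : S ≠ 1) :
    ∃ p : ℂ → ℂ, HasDerivAt p (cexp S) ζ0 ∧ ∀ ζ Sn : ℕ → ℂ, Tendsto Sn atTop (𝓝 S) →
      (∀ᶠ n in atTop, Sn n + ζ n * cexp (Sn n) = 0) →
      ∀ᶠ n in atTop, Ph (ζ n) (Sn n) = p (ζ n) := by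
  have hf : HasStrictDerivAt (fun s : ℂ => -s * cexp (-s)) (-(1 - S) * cexp (-S)) S := by
    have e1 : HasStrictDerivAt (fun s : ℂ => -s) (-1) S := (hasStrictDerivAt_id S).neg
    have e2 := e1.cexp
    refine (e1.mul e2).congr_deriv ?_
    ring
  have hne : -(1 - S) * cexp (-S) ≠ 0 :=
    mul_ne_zero (neg_ne_zero.2 (sub_ne_zero.2 h1.symm)) (exp_ne_zero _)
  have hfS : -S * cexp (-S) = ζ0 := by
    have : cexp S * cexp (-S) = 1 := by rw [← Complex.exp_add]; simp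
    linear_combination (-cexp (-S)) * hS + ζ0 * this
  set g := hf.localInverse _ _ _ hne with hg
  have hg1 : HasStrictDerivAt g (-(1 - S) * cexp (-S))⁻¹ ζ0 := by
    have := hf.to_localInverse hne
    rw [hfS] at this
    exact this
  have hinv : ∀ᶠ s in 𝓝 S, g (-s * cexp (-s)) = s :=
    HasStrictFDerivAt.eventually_left_inverse (hf.hasStrictFDerivAt_equiv hne)
  have hgζ : g ζ0 = S := by
    have := hinv.self_of_nhds
    rwa [hfS] at this
  refine ⟨fun ζ => g ζ ^ (2 : ℕ) / 2 - g ζ, ?_, ?_⟩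
  · have e1 := ((hg1.pow 2).div_const 2).sub hg1
    refine (e1.congr_deriv ?_).hasDerivAt
    rw [hgζ]
    have h2 : (1 - S) ≠ 0 := sub_ne_zero.2 h1.symm
    rw [mul_inv, Complex.exp_neg, inv_inv, neg_sub, inv_eq_one_div (S - 1)]
    have h3 : S - 1 ≠ 0 := sub_ne_zero.2 h1
    push_cast
    field_simp
  · intro ζ Sn hSn hc
    filter_upwards [hSn.eventually hinv, hc] with n k1 k2
    have k3 : -Sn n * cexp (-Sn n) = ζ n := by
      have : cexp (Sn n) * cexp (-Sn n) = 1 := by rw [← Complex.exp_add]; simp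
      linear_combination (-cexp (-Sn n)) * k2 + ζ n * this
    rw [k3] at k1
    simp only [k1]
    unfold Ph
    linear_combination k2

/-- symmetric form of `val_two_lim` -/
private def T3Two (t ζ : ℕ → ℂ) (S S' : ℂ) : Prop :=
  ∃ (Sn Sn' J J' : ℕ → ℂ) (c0 c0' : ℂ), c0 ≠ 0 ∧ c0' ≠ 0 ∧ Tendsto Sn atTop (𝓝 S) ∧
    Tendsto Sn' atTop (𝓝 S') ∧
    (∀ᶠ n in atTop, Sn n + ζ n * cexp (Sn n) = 0) ∧
    (∀ᶠ n in atTop, Sn' n + ζ n * cexp (Sn' n) = 0) ∧
    Tendsto (fun n => J n / (√‖t n‖ * cexp (Ph (ζ n) (Sn n) / t n))) atTop (𝓝 c0) ∧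
    Tendsto (fun n => J' n / (√‖t n‖ * cexp (Ph (ζ n) (Sn' n) / t n))) atTop (𝓝 c0') ∧
    (∀ ε : ℝ, 0 < ε → ∀ᶠ n in atTop, ‖Ev (t n) (ζ n) - J n - J' n‖ ≤ ε * ‖J n‖) ∧
    (∀ ε : ℝ, 0 < ε → ∀ᶠ n in atTop, ‖Ev (t n) (ζ n) - J n - J' n‖ ≤ ε * ‖J' n‖) ∧
    ∀ ε : ℝ, 0 < ε → ∀ᶠ n in atTop,
      ‖Dv (t n) (ζ n) + S * J n + S' * J' n‖ ≤ ε * (‖J n‖ + ‖J' n‖)

private theorem T3Two.symm {t ζ : ℕ → ℂ} {S S' : ℂ} (h : T3Two t ζ S S') : T3Two t ζ S' S := by
  obtain ⟨Sn, Sn', J, J', c0, c0', h1, h2, h3, h4, h5, h6, h7, h8, h9, h10, h11⟩ := h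
  refine ⟨Sn', Sn, J', J, c0', c0, h2, h1, h4, h3, h6, h5, h8, h7, fun ε hε => ?_,
    fun ε hε => ?_, fun ε hε => ?_⟩
  · filter_upwards [h10 ε hε] with n hn
    rwa [sub_right_comm]
  · filter_upwards [h9 ε hε] with n hn
    rwa [sub_right_comm]
  · filter_upwards [h11 ε hε] with n hn
    rw [add_right_comm, add_comm ‖J' n‖]
    exact hn

private theorem t3_two {t ζ : ℕ → ℂ} {ζ0 u0 : ℂ} (h : Par t ζ ζ0 u0) {c : ℝ} {S S' : ℂ}
    (hg : Good u0 ζ0 c [S, S']) : T3Two t ζ S S' := by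
  obtain ⟨Sn, Sn', J, J', c', c0, c0', hc', h1, h2, h3, h4, h5, h6, h7, h8, h9, h10, h11, h12⟩ :=
    val_two_lim h hg
  have hτ : ∀ n, 0 < ‖t n‖ := fun n => norm_pos_iff.2 (h.ne n)
  have hτ0 : Tendsto (fun n => ‖t n‖) atTop (𝓝 0) := by
    have := h.lim.norm
    rwa [norm_zero] at this
  exact ⟨Sn, Sn', J, J', c0, c0', h1, h2, h3, h4, h5, h6, h9, h10,
    fun ε hε => t3_small hτ hτ0 hc' h7 h11 hε, fun ε hε => t3_small hτ hτ0 hc' h8 h11 hε, h12⟩

private theorem t3_core {u ζ0 S S' : ℂ} (hu : ‖u‖ = 1) (hre : 0 ≤ u.re) (him : 0 ≤ u.im)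
    (h0 : ‖ζ0‖ = Real.exp (-1)) (hS : S + ζ0 * cexp S = 0) (hS' : S' + ζ0 * cexp S' = 0)
    (h1 : S ≠ 1) (h1' : S' ≠ 1) (hht : (u * Ph ζ0 S).re = (u * Ph ζ0 S').re) (hne : S ≠ S')
    (h : ¬ ∃ l : ℝ, 0 < l ∧ u * (S' - S) = l)
    (hT : ∀ ζ : ℕ → ℂ, Tendsto ζ atTop (𝓝 ζ0) → T3Two (t3t u) ζ S S') : ‖S‖ ≤ 1 := by
  set w : ℂ := u * (S' - S) with hw
  have hu0 : u ≠ 0 := by
    rintro rfl
    simp at hu
  have hw0 : w ≠ 0 := mul_ne_zero hu0 (sub_ne_zero.2 hne.symm)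
  have hwn : 0 < ‖w‖ := norm_pos_iff.2 hw0
  have hwre : w.re < ‖w‖ := by
    refine lt_of_le_of_ne (Complex.re_le_norm w) fun h2 => h ⟨‖w‖, hwn, ?_⟩
    have h3 : w.im = 0 := by
      have h4 := Complex.sq_norm w
      rw [Complex.normSq_apply, ← h2] at h4
      nlinarith only [h4]
    apply Complex.ext
    · simp [h2]
    · simp [h3]
  set η : ℂ := (starRingEnd ℂ) w / (‖w‖ : ℂ) - 1 with hη
  have hηre : η.re < 0 := by
    rw [hη, Complex.sub_re, Complex.div_ofReal_re, Complex.conj_re, Complex.one_re]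
    have : w.re / ‖w‖ < 1 := by rw [div_lt_one hwn]; exact hwre
    linarith only [this]
  have hwη : 0 < (w * η).re := by
    have e : w * η = (‖w‖ : ℂ) - w := by
      rw [hη, mul_sub, mul_one, mul_div_assoc', Complex.mul_conj, Complex.normSq_eq_norm_sq]
      have : (‖w‖ : ℂ) ≠ 0 := by exact_mod_cast hwn.ne'
      push_cast
      field_simp
    rw [e, Complex.sub_re, Complex.ofReal_re]
    linarith only [hwre]
  -- the step
  set κ : ℕ → ℝ := fun n => 1 / √((n : ℝ) + 1) with hκ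
  have hκp : ∀ n, 0 < κ n := fun n => by
    rw [hκ]
    simp only
    (clear * -; positivity)
  have hκ0 : Tendsto κ atTop (𝓝 0) := by
    refine tendsto_const_nhds.div_atTop ?_
    exact Real.tendsto_sqrt_atTop.comp
      (tendsto_atTop_add_const_right _ _ tendsto_natCast_atTop_atTop)
  have hκi : Tendsto (fun n => (κ n)⁻¹) atTop atTop := by
    refine (Real.tendsto_sqrt_atTop.comp
      (tendsto_atTop_add_const_right _ (1 : ℝ) tendsto_natCast_atTop_atTop)).congr fun n => ?_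
    simp [hκ]
  have hκ2 : ∀ n : ℕ, (n : ℝ) + 1 = (κ n)⁻¹ * (κ n)⁻¹ := by
    intro n
    have h3 : (0 : ℝ) ≤ (n : ℝ) + 1 := by (clear * -; positivity)
    rw [hκ]
    simp only [one_div, inv_inv]
    exact (Real.mul_self_sqrt h3).symm
  set ζ : ℕ → ℂ := fun n => ζ0 * cexp (η * (κ n : ℂ)) with hζ
  have hζn : ∀ n, ‖ζ n‖ < Real.exp (-1) := by
    intro n
    rw [hζ]
    simp only
    rw [norm_mul, h0, Complex.norm_exp, Complex.re_mul_ofReal]
    have h3 : Real.exp (η.re * κ n) < 1 := by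
      rw [Real.exp_lt_one_iff]
      exact mul_neg_of_neg_of_pos hηre (hκp n)
    have := Real.exp_pos (-1)
    nlinarith only [h3, this]
  have hκc : Tendsto (fun n => (κ n : ℂ)) atTop (𝓝 0) := by
    have := (Complex.continuous_ofReal.tendsto 0).comp hκ0
    rw [Complex.ofReal_zero] at this
    exact this
  have hlim : Tendsto ζ atTop (𝓝 ζ0) := by
    have h3 := ((hκc.const_mul η).cexp).const_mul ζ0
    simpa using h3
  obtain ⟨Sn, Sn', J, J', c0, c0', hc0, hc0', hSn, hSn', hcr, hcr', hJ, hJ', hE, -, hD⟩ := hT ζ hlim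
  have hP := t3_par hu hre him hlim
  -- the critical values
  obtain ⟨p, hp, hpc⟩ := t3_crit hS h1
  obtain ⟨p', hp', hpc'⟩ := t3_crit hS' h1'
  have hp0 : Ph ζ0 S = p ζ0 := by
    have := hpc (fun _ => ζ0) (fun _ => S) tendsto_const_nhds (Eventually.of_forall fun _ => hS)
    exact this.exists.choose_spec
  have hp0' : Ph ζ0 S' = p' ζ0 := by
    have := hpc' (fun _ => ζ0) (fun _ => S') tendsto_const_nhds (Eventually.of_forall fun _ => hS')
    exact this.exists.choose_spec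
  have hslope : ∀ (r : ℂ → ℂ) (r0 : ℂ), HasDerivAt r r0 ζ0 →
      Tendsto (fun n => (r (ζ n) - r ζ0) / (κ n : ℂ)) atTop (𝓝 (r0 * (ζ0 * η))) := by
    intro r r0 hr
    have e1 : HasDerivAt (fun s : ℂ => ζ0 * cexp (η * s)) (ζ0 * η) 0 := by
      have e2 : HasDerivAt (fun s : ℂ => η * s) η 0 := by
        simpa using (hasDerivAt_id (0 : ℂ)).const_mul η
      have e3 := (e2.cexp).const_mul ζ0
      refine e3.congr_deriv ?_
      simp
    have e4 : HasDerivAt (fun s : ℂ => r (ζ0 * cexp (η * s))) (r0 * (ζ0 * η)) 0 := by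
      have e5 : HasDerivAt r r0 ((fun s : ℂ => ζ0 * cexp (η * s)) 0) := by simpa using hr
      exact e5.comp 0 e1
    have e6 := e4.tendsto_slope_zero
    have e7 : Tendsto (fun n => (κ n : ℂ)) atTop (𝓝[≠] 0) :=
      tendsto_nhdsWithin_iff.2 ⟨hκc, Eventually.of_forall fun n => by
        have := (hκp n).ne'
        simpa using this⟩
    refine (e6.comp e7).congr fun n => ?_
    simp only [Function.comp, hζ, zero_add, mul_zero, Complex.exp_zero, mul_one, smul_eq_mul]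
    rw [div_eq_inv_mul]
  have hs := hslope p _ hp
  have hs' := hslope p' _ hp'
  have eS : cexp S * (ζ0 * η) = -S * η := by linear_combination η * hS
  have eS' : cexp S' * (ζ0 * η) = -S' * η := by linear_combination η * hS'
  rw [eS] at hs
  rw [eS'] at hs'
  -- difference of the exponents
  set X : ℕ → ℂ := fun n => Ph (ζ n) (Sn n) / t3t u n - Ph (ζ n) (Sn' n) / t3t u n with hX
  have hXlim : Tendsto (fun n => (X n).re) atTop atTop := by
    have e1 : Tendsto (fun n => (u * ((p (ζ n) - p ζ0) / (κ n : ℂ) -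
        (p' (ζ n) - p' ζ0) / (κ n : ℂ))).re) atTop (𝓝 (w * η).re) := by
      have e2 := (Complex.continuous_re.tendsto _).comp ((hs.sub hs').const_mul u)
      have e3 : u * (-S * η - -S' * η) = w * η := by rw [hw]; ring
      rw [e3] at e2
      exact e2
    have e4 := hκi.atTop_mul_pos hwη e1
    refine e4.congr' ?_
    filter_upwards [hpc ζ Sn hSn hcr, hpc' ζ Sn' hSn' hcr'] with n k1 k2
    have k3 : X n = ((κ n)⁻¹ * (κ n)⁻¹ : ℝ) * (u * (p (ζ n) - p' (ζ n))) := by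
      rw [hX]
      simp only
      rw [t3_inv hu, t3_inv hu, k1, k2]
      have : (n : ℂ) + 1 = (((n : ℝ) + 1 : ℝ) : ℂ) := by push_cast; ring
      rw [this, hκ2 n]
      ring
    rw [k3, Complex.re_ofReal_mul]
    have k4 : (u * (p ζ0 - p' ζ0)).re = 0 := by
      rw [mul_sub, Complex.sub_re, ← hp0, ← hp0', hht, sub_self]
    have k5 : u * ((p (ζ n) - p ζ0) / (κ n : ℂ) - (p' (ζ n) - p' ζ0) / (κ n : ℂ)) =
        ((κ n)⁻¹ : ℝ) * (u * (p (ζ n) - p' (ζ n)) - u * (p ζ0 - p' ζ0)) := by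
      push_cast
      ring
    rw [k5, Complex.re_ofReal_mul, Complex.sub_re, k4, sub_zero]
    ring
  -- `J'/J → 0`
  have hDne : ∀ (T : ℕ → ℂ) (n : ℕ),
      ((√‖t3t u n‖ : ℝ) : ℂ) * cexp (Ph (ζ n) (T n) / t3t u n) ≠ 0 := by
    intro T n
    refine mul_ne_zero ?_ (exp_ne_zero _)
    have : √‖t3t u n‖ ≠ 0 := (Real.sqrt_pos.2 (norm_pos_iff.2 (hP.ne n))).ne'
    exact_mod_cast this
  have hq : Tendsto (fun n => J' n / J n) atTop (𝓝 0) := by
    have e1 := hJ'.div hJ hc0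
    have e2 : Tendsto (fun n => cexp (-X n)) atTop (𝓝 0) := by
      rw [tendsto_zero_iff_norm_tendsto_zero]
      refine (Real.tendsto_exp_neg_atTop_nhds_zero.comp hXlim).congr fun n => ?_
      rw [Complex.norm_exp, Complex.neg_re]
      rfl
    have e3 := e1.mul e2
    rw [mul_zero] at e3
    refine e3.congr fun n => ?_
    have e4 : cexp (-X n) = cexp (Ph (ζ n) (Sn' n) / t3t u n) / cexp (Ph (ζ n) (Sn n) / t3t u n) := by
      rw [← Complex.exp_sub]
      congr 1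
      rw [hX]
      simp only
      ring
    rw [e4]
    have e5 : cexp (Ph (ζ n) (Sn' n) / t3t u n) ≠ 0 := exp_ne_zero _
    have e6 : cexp (Ph (ζ n) (Sn n) / t3t u n) ≠ 0 := exp_ne_zero _
    have e7 : ((√‖t3t u n‖ : ℝ) : ℂ) ≠ 0 := left_ne_zero_of_mul (hDne Sn n)
    have key : ∀ a b r E E' : ℂ, r ≠ 0 → E ≠ 0 → E' ≠ 0 →
        a / (r * E') / (b / (r * E)) * (E' / E) = a / b := by
      intro a b r E E' hr hE hE'
      rcases eq_or_ne b 0 with rfl | hb
      · simp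
      · field_simp
    exact key _ _ _ _ _ e7 e6 e5
  have hJne : ∀ᶠ n in atTop, J n ≠ 0 := by
    filter_upwards [hJ.eventually_ne hc0] with n hn h3
    exact hn (by rw [h3, zero_div])
  -- conclusion
  refine le_of_forall_pos_le_add fun ε hε => ?_
  obtain ⟨δ, hδ, hδ1, hδ2⟩ : ∃ δ : ℝ, 0 < δ ∧ δ ≤ 1 ∧ δ * (5 + ‖S'‖) ≤ ε := by
    refine ⟨min 1 (ε / (5 + ‖S'‖)), lt_min one_pos (by (clear * - hε; positivity)), min_le_left _ _, ?_⟩
    rw [← le_div_iff₀ (by (clear * -; positivity))]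
    exact min_le_right _ _
  have hqn := hq.norm
  rw [norm_zero] at hqn
  obtain ⟨n, k1, k2, k3, k4⟩ := ((hE δ hδ).and ((hD δ hδ).and
    ((hqn.eventually_lt_const hδ).and hJne))).exists
  have hJp : 0 < ‖J n‖ := norm_pos_iff.2 k4
  rw [norm_div, div_lt_iff₀ hJp] at k3
  have k5 := (tree_EvDv (hP.ne n) (hP.re n) (hζn n)).2
  have k6 : ‖S‖ * ‖J n‖ ≤ ‖Dv (t3t u n) (ζ n) + S * J n + S' * J' n‖ + ‖Dv (t3t u n) (ζ n)‖ +
      ‖S'‖ * ‖J' n‖ := by
    rw [← norm_mul, ← norm_mul]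
    calc ‖S * J n‖ = ‖(Dv (t3t u n) (ζ n) + S * J n + S' * J' n) + -Dv (t3t u n) (ζ n) +
          -(S' * J' n)‖ := by
          congr 1; ring
      _ ≤ _ := norm_add₃_le
      _ = _ := by rw [norm_neg, norm_neg]
  have k7 : ‖Ev (t3t u n) (ζ n)‖ ≤ ‖Ev (t3t u n) (ζ n) - J n - J' n‖ + ‖J n‖ + ‖J' n‖ := by
    calc ‖Ev (t3t u n) (ζ n)‖ = ‖(Ev (t3t u n) (ζ n) - J n - J' n) + J n + J' n‖ := by
          congr 1; ring
      _ ≤ _ := norm_add₃_le
  have k8 : ‖S'‖ * ‖J' n‖ ≤ ‖S'‖ * (δ * ‖J n‖) := mul_le_mul_of_nonneg_left k3.le (norm_nonneg _)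
  have k9 : δ * ‖J' n‖ ≤ δ * ‖J n‖ := by
    have : δ * ‖J n‖ ≤ 1 * ‖J n‖ := mul_le_mul_of_nonneg_right hδ1 hJp.le
    exact mul_le_mul_of_nonneg_left (by linarith only [k3, this]) hδ.le
  have k10 : ‖S‖ * ‖J n‖ ≤ (1 + ε) * ‖J n‖ := by
    have : δ * (5 + ‖S'‖) * ‖J n‖ ≤ ε * ‖J n‖ := mul_le_mul_of_nonneg_right hδ2 hJp.le
    nlinarith only [hδ, k1, k2, k3, hJp, k5, k6, k7, k8, k9, this]
  exact le_of_mul_le_mul_right k10 hJp

theorem dom_two {u ζ0 : ℂ} {c : ℝ} {S S' : ℂ} (hu : ‖u‖ = 1) (hre : 0 ≤ u.re) (him : 0 ≤ u.im)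
    (h0 : ‖ζ0‖ = Real.exp (-1)) (hg : Good u ζ0 c [S, S']) (hne : S ≠ S')
    (h : ¬ ∃ l : ℝ, 0 < l ∧ u * (S' - S) = l) : ‖S‖ ≤ 1 := by
  have m1 : S ∈ [S, S'] := by simp
  have m2 : S' ∈ [S, S'] := by simp
  exact t3_core hu hre him h0 (good_crit hg m1) (good_crit hg m2) (good_ne_one hg m1)
    (good_ne_one hg m2) ((good_height hg m1).trans (good_height hg m2).symm) hne h
    fun ζ hζ => t3_two (t3_par hu hre him hζ) hg

/-- the same for the second saddle point -/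
theorem dom_two' {u ζ0 : ℂ} {c : ℝ} {S S' : ℂ} (hu : ‖u‖ = 1) (hre : 0 ≤ u.re) (him : 0 ≤ u.im)
    (h0 : ‖ζ0‖ = Real.exp (-1)) (hg : Good u ζ0 c [S, S']) (hne : S ≠ S')
    (h : ¬ ∃ l : ℝ, 0 < l ∧ u * (S - S') = l) : ‖S'‖ ≤ 1 := by
  have m1 : S ∈ [S, S'] := by simp
  have m2 : S' ∈ [S, S'] := by simp
  exact t3_core hu hre him h0 (good_crit hg m2) (good_crit hg m1) (good_ne_one hg m2)
    (good_ne_one hg m1) ((good_height hg m2).trans (good_height hg m1).symm) hne.symm h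
    fun ζ hζ => (t3_two (t3_par hu hre him hζ) hg).symm

end SokamV

end

/-! ### Lib_MP_af4de1_v.N1E1 -/

section
namespace SokamV
end SokamV
/-!
# The case `N = 1`: lower half, case 1
-/

namespace SokamN

open SokamV Complex Filter Topology Set

namespace Par

variable (p : Par)

/-- Case 1: the saddle point is in the channel. -/
theorem lower1 (NT : ∀ s, 0 ≤ p.rho s → p.m s ≤ 0) {α : ℝ} (h1 : p.sL < α) (h2 : α < p.sR)
    (h3 : p.rho α = -Real.exp (-1)) (h4 : ∀ s, p.sLL ≤ s → s < α → -Real.exp (-1) < p.rho s)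
    (h5 : p.m1 α < 0) (x0 : ℝ) :
    ∃ (Y1 s1 : ℝ), s1 < α ∧ ∀ sb, p.sL < sb → sb < p.sR →
      ∃ c' < p.a * p.g Y1 s1, ∃ Y0 : ℝ, ∀ Yb : ℝ, Y0 ≤ Yb → ∃ R0 : ℝ, ∀ R : ℝ, R0 ≤ R →
        Chain p.u (Ph p.ζ) (p.a * p.g Y1 s1) c' (x0 - R * I) [p.pt Y1 s1] (p.pt Yb sb) := by
  have ha := p.ha
  have hLL := p.sLL_lt_sL
  have hLα : p.sLL < α := hLL.trans h1
  have hm1LL := p.m1_sLL_pos
  obtain ⟨s1, hs1, hs1z⟩ : ∃ s1 ∈ Icc p.sLL α, p.m1 s1 = 0 :=
    intermediate_value_Icc' hLα.le p.continuous_m1.continuousOn ⟨h5.le, hm1LL.le⟩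
  have hs1L : p.sLL < s1 := by
    rcases hs1.1.lt_or_eq with h | h
    · exact h
    · rw [← h] at hs1z
      exact absurd hs1z hm1LL.ne'
  have hs1α : s1 < α := by
    rcases hs1.2.lt_or_eq with h | h
    · exact h
    · rw [h] at hs1z
      exact absurd hs1z h5.ne
  have hlt := h4 s1 hs1L.le hs1α
  set Y1 := p.Y s1 with hY1
  have hY1' : Y1 < 1 := p.Y_lt hlt
  have hmono : StrictMonoOn p.m (Icc p.sLL s1) :=
    p.m_strictMono (fun s hs => h4 s hs.1.le (hs.2.trans hs1α)) hs1z.ge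
  have hanti : StrictAntiOn p.m (Icc s1 α) :=
    p.m_strictAnti (fun s hs => h4 s (hs1L.trans hs.1).le hs.2) hs1z.le
  refine ⟨Y1, s1, hs1α, fun sb hb1 hb2 => ?_⟩
  set c := p.g Y1 s1 with hc
  have hcm : p.m s1 = c := rfl
  have hmle : ∀ s ∈ Icc p.sLL α, p.m s ≤ c := by
    intro s hs
    rw [← hcm]
    rcases le_total s s1 with h | h
    · exact hmono.monotoneOn ⟨hs.1, h⟩ ⟨hs1L.le, le_rfl⟩ h
    · exact hanti.antitoneOn ⟨le_rfl, hs1α.le⟩ ⟨h, hs.2⟩ h
  set V := -s1 / (1 - Y1) with hV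
  obtain ⟨δ0, hδ0, hsad⟩ := p.sad (Y := Y1) (s := s1) (V := V) (W := 1) (p.Y_crit hlt.le)
    hs1z (p.chan_dir hlt hs1z)
  set δ := min δ0 (min ((s1 - p.sLL) / 2) (min ((α - s1) / 2) ((1 - Y1) / (|V| + 1)))) with hδ
  have hδp : 0 < δ := lt_min hδ0 (lt_min (by linarith only [hs1L]) (lt_min (by linarith only [hs1α])
    (div_pos (by linarith only [hY1']) (by positivity))))
  have hδ1 : δ ≤ (s1 - p.sLL) / 2 := (min_le_right _ _).trans (min_le_left _ _)
  have hδ2 : δ ≤ (α - s1) / 2 :=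
    (min_le_right _ _).trans ((min_le_right _ _).trans (min_le_left _ _))
  have hδ3 : δ ≤ (1 - Y1) / (|V| + 1) :=
    (min_le_right _ _).trans ((min_le_right _ _).trans (min_le_right _ _))
  have hS := hsad δ hδp (min_le_left _ _)
  have hVδ : |δ * V| ≤ 1 - Y1 := by
    rw [le_div_iff₀ (by positivity)] at hδ3
    rw [abs_mul, abs_of_pos hδp]
    linarith only [hδp, hδ3]
  obtain ⟨hV1, hV2⟩ := abs_le.1 hVδ
  have kS : p.pt Y1 s1 - (δ : ℂ) * p.pt V 1 = p.pt (Y1 - δ * V) (s1 - δ) := by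
    have := p.pt_sub Y1 s1 V 1 δ
    rw [mul_one] at this
    exact this.symm
  have kS' : p.pt Y1 s1 + (δ : ℂ) * p.pt V 1 = p.pt (Y1 + δ * V) (s1 + δ) := by
    have := p.pt_add Y1 s1 V 1 δ
    rw [mul_one] at this
    exact this.symm
  have gS : p.g (Y1 - δ * V) (s1 - δ) < c := by
    have k5 := hS.seg (-1) (by norm_num) (by norm_num)
    have e : p.pt Y1 s1 + ((-1 : ℝ) : ℂ) * ((δ : ℂ) * p.pt V 1) =
        p.pt Y1 s1 - (δ : ℂ) * p.pt V 1 := by
      push_cast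
      ring
    rw [e, kS] at k5
    have k6 : p.a * p.g (Y1 - δ * V) (s1 - δ) < p.a * c := by
      rw [← p.G_pt]
      exact k5
    exact lt_of_mul_lt_mul_left k6 ha.le
  have gS' : p.g (Y1 + δ * V) (s1 + δ) < c := by
    have k5 := hS.seg 1 (by norm_num) one_ne_zero
    rw [Complex.ofReal_one, one_mul, kS'] at k5
    have k6 : p.a * p.g (Y1 + δ * V) (s1 + δ) < p.a * c := by
      rw [← p.G_pt]
      exact k5
    exact lt_of_mul_lt_mul_left k6 ha.le
  have hYα : p.Y α = 1 := by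
    rw [Y, h3, neg_neg, Ym_exp]
  refine p.glue NT (fun s hs => hmle s ⟨hs.1, hs.2.trans h1.le⟩) (P := fun Yb => p.pt Yb sb)
    ?_ hS ?_
  · have k1 : SC p.G (p.a * c) (p.pt (p.Y p.sLL) p.sLL) (p.pt (p.Y (s1 - δ)) (s1 - δ)) := by
      refine p.SC_along (by linarith only [hδp, hδ1]) fun s hs => ?_
      rw [← hcm]
      exact hmono ⟨hs.1, by linarith only [hδp, hs.2]⟩ ⟨hs1L.le, le_rfl⟩ (by linarith only [hδp, hs.2])
    have k2 : p.Y p.sLL = 0 := by
      rw [Y, p.rho_sLL, neg_zero, Ym_zero]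
    rw [k2] at k1
    rw [kS]
    refine k1.trans (SC.symm (p.SC_chan (h4 _ (by linarith only [hδp, hδ1]) (by linarith only [hδp, hδ2])).le ?_ gS))
    linarith only [hV1]
  · rw [kS']
    have k1 : SC p.G (p.a * c) (p.pt (Y1 + δ * V) (s1 + δ)) (p.pt 1 α) := by
      have k2 := p.SC_chan (s := s1 + δ) (Y := Y1 + δ * V) (c := c)
        (h4 _ (by linarith only [hδp, hδ1]) (by linarith only [hδp, hδ2])).le (by linarith only [hV2]) gS'
      have k3 : SC p.G (p.a * c) (p.pt (p.Y (s1 + δ)) (s1 + δ)) (p.pt (p.Y α) α) := by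
        refine p.SC_along (by linarith only [hδp, hδ2]) fun s hs => ?_
        rw [← hcm]
        exact hanti ⟨le_rfl, hs1α.le⟩ ⟨by linarith only [hδp, hs.1], hs.2⟩ (by linarith only [hδp, hs.1])
      rw [hYα] at k3
      exact k2.trans k3
    obtain ⟨c1, hc1, k1⟩ := k1
    have hgα : p.g 1 α < c := by
      have k4 : p.m α < p.m s1 := hanti ⟨le_rfl, hs1α.le⟩ ⟨hs1α.le, le_rfl⟩ hs1α
      rw [m, hYα, hcm] at k4
      exact k4
    obtain ⟨c2, hc2, Y0, k5⟩ := p.to_sea h1 h2 hb1 hb2 hgα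
      ((fib_antitone h3.le).antitoneOn (Ici 1))
    exact ⟨max c1 c2, max_lt hc1 hc2, Y0, fun Yb hYb =>
      (k1.mono (le_max_left _ _)).trans ((k5 Yb hYb).mono (le_max_right _ _))⟩

end Par

end SokamN

end

/-! ### Lib_MP_af4de1_v.N1E2 -/

section
namespace SokamV
end SokamV
/-!
# The case `N = 1`: lower half, case 2
-/

namespace SokamN

open SokamV Complex Filter Topology Set

namespace Par

variable (p : Par)

/-- Case 2: the saddle point is on the ridge. -/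
theorem lower2 (NT : ∀ s, 0 ≤ p.rho s → p.m s ≤ 0) {α : ℝ} (h1 : p.sL < α) (h2 : α < p.sR)
    (h3 : p.rho α = -Real.exp (-1)) (h4 : ∀ s, p.sLL ≤ s → s < α → -Real.exp (-1) < p.rho s)
    (h5 : 0 < p.m1 α) (x0 : ℝ) :
    ∃ (Y1 s1 : ℝ), s1 < α ∧ ∀ sb, p.sL < sb → sb < p.sR →
      ∃ c' < p.a * p.g Y1 s1, ∃ Y0 : ℝ, ∀ Yb : ℝ, Y0 ≤ Yb → ∃ R0 : ℝ, ∀ R : ℝ, R0 ≤ R →
        Chain p.u (Ph p.ζ) (p.a * p.g Y1 s1) c' (x0 - R * I) [p.pt Y1 s1] (p.pt Yb sb) := by
  have ha := p.ha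
  have hLL := p.sLL_lt_sL
  have hmono : StrictMonoOn p.m (Icc p.sLL α) :=
    p.m_strictMono (fun s hs => h4 s hs.1.le hs.2) h5.le
  have hneg : ∀ s, p.sL < s → s ≤ α → p.rho s < 0 := fun s k1 k2 =>
    p.rho_neg_window k1 (k2.trans_lt h2)
  -- the derivative on the ridge
  set R1 : ℝ → ℝ := fun s => -s + p.rho1 s * Real.exp (Yp (-p.rho s)) with hR1
  have hcont : ContinuousOn R1 (Ioc p.sL α) := by
    have k1 : ContinuousOn (fun s => Yp (-p.rho s)) (Ioc p.sL α) := by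
      refine continuousOn_Yp.comp p.continuous_rho.neg.continuousOn fun s hs => ?_
      have := hneg s hs.1 hs.2
      exact mem_Ioi.2 (by linarith only [this])
    exact continuousOn_id.neg.add
      (p.continuous_rho1.continuousOn.mul (Real.continuous_exp.comp_continuousOn k1))
  have hR1α : 0 < R1 α := by
    have k1 : R1 α = p.m1 α := by
      simp only [hR1, m1, Y]
      rw [h3, neg_neg, Yp_exp, Ym_exp]
    rw [k1]
    exact h5
  obtain ⟨t, ht1, ht2, ht3⟩ : ∃ t, p.sL < t ∧ t < α ∧ R1 t < 0 := by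
    have c1 : Continuous (fun s => s * p.rho s + p.rho1 s) :=
      (continuous_id.mul p.continuous_rho).add p.continuous_rho1
    have k1 : ∀ᶠ s in 𝓝 p.sL, s * p.rho s + p.rho1 s < 0 := by
      refine (c1.tendsto p.sL).eventually (gt_mem_nhds ?_)
      rw [p.rho_sL, mul_zero, zero_add]
      exact p.rho1_sL_neg
    have k2 : ∀ᶠ s in 𝓝 p.sL, p.rho1 s < 0 :=
      (p.continuous_rho1.tendsto p.sL).eventually (gt_mem_nhds p.rho1_sL_neg)
    have k3 : ∀ᶠ s in 𝓝[>] p.sL, s ∈ Ioo p.sL α := Ioo_mem_nhdsGT h1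
    obtain ⟨t, k1, k2, k3⟩ := ((k1.filter_mono nhdsWithin_le_nhds).and
      ((k2.filter_mono nhdsWithin_le_nhds).and k3)).exists
    refine ⟨t, k3.1, k3.2, ?_⟩
    have hr := hneg t k3.1 k3.2.le
    have hlt := h4 t (hLL.trans k3.1).le k3.2
    have e1 := Yp_crit hlt.le hr
    have e2 := one_le_Yp (x := -p.rho t) (by linarith only [hr]) (by linarith only [hlt])
    have e4 : R1 t * p.rho t = -(t * p.rho t) - p.rho1 t * Yp (-p.rho t) := by
      simp only [hR1]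
      linear_combination p.rho1 t * e1
    have e5 : 0 < R1 t * p.rho t := by
      rw [e4]
      nlinarith only [k1, k2, e2]
    exact neg_of_mul_pos_left e5 hr.le
  obtain ⟨s0, hs0, hs0z⟩ : ∃ s0 ∈ Icc t α, R1 s0 = 0 :=
    intermediate_value_Icc ht2.le (hcont.mono fun s hs => ⟨ht1.trans_le hs.1, hs.2⟩)
      ⟨ht3.le, hR1α.le⟩
  have hs0α : s0 < α := by
    rcases hs0.2.lt_or_eq with h | h
    · exact h
    · rw [h] at hs0z
      exact absurd hs0z hR1α.ne'
  have hs0L : p.sL < s0 := ht1.trans_le hs0.1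
  have hs0LL : p.sLL < s0 := hLL.trans hs0L
  have hr := hneg s0 hs0L hs0α.le
  have hlt := h4 s0 hs0LL.le hs0α
  set Y1 := Yp (-p.rho s0) with hY1
  have hY1' : 1 < Y1 := one_lt_Yp (by linarith only [hr]) (by linarith only [hlt])
  have hYs0 : p.Y s0 < 1 := p.Y_lt hlt
  have hfs : StrictMonoOn (fib (p.rho s0)) (Icc (p.Y s0) Y1) := fib_strictMono hlt hr
  refine ⟨Y1, s0, hs0α, fun sb hb1 hb2 => ?_⟩
  set c := p.g Y1 s0 with hc
  have hcm : p.m s0 < c := by
    rw [hc, m, g_eq, g_eq]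
    have := hfs ⟨le_rfl, (hYs0.trans hY1').le⟩ ⟨(hYs0.trans hY1').le, le_rfl⟩ (hYs0.trans hY1')
    linarith only [this]
  obtain ⟨δ0, hδ0, hsad⟩ := p.sad (Y := Y1) (s := s0) (V := 1) (W := 0) (Yp_crit hlt.le hr)
    hs0z (by linarith only [hY1'])
  set δ := min δ0 (Y1 - 1) with hδ
  have hδp : 0 < δ := lt_min hδ0 (by linarith only [hY1'])
  have hδ1 : δ ≤ Y1 - 1 := min_le_right _ _
  have hS := hsad δ hδp (min_le_left _ _)
  have hms : ∀ s ∈ Icc p.sLL s0, p.m s < c := fun s hs =>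
    lt_of_le_of_lt (hmono.monotoneOn ⟨hs.1, hs.2.trans hs0α.le⟩ ⟨hs0LL.le, hs0α.le⟩ hs.2) hcm
  refine p.glue NT (fun s hs => (hms s ⟨hs.1, hs.2.trans hs0L.le⟩).le) (P := fun Yb => p.pt Yb sb)
    ?_ hS ?_
  · have k1 := p.SC_along hs0LL.le hms
    have k2 : p.Y p.sLL = 0 := by
      rw [Y, p.rho_sLL, neg_zero, Ym_zero]
    rw [k2] at k1
    have k3 : p.pt Y1 s0 - (δ : ℂ) * p.pt 1 0 = p.pt (Y1 - δ) s0 := by
      have := p.pt_sub Y1 s0 1 0 δ
      rw [mul_one, mul_zero, sub_zero] at this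
      exact this.symm
    rw [k3]
    refine k1.trans (p.SC_horiz (by linarith only [hYs0, hδ1]) fun Y' hY' => ?_)
    rw [hc, g_eq, g_eq]
    have := hfs ⟨hY'.1, by linarith only [hδp, hY'.2]⟩ ⟨(hYs0.trans hY1').le, le_rfl⟩
      (show Y' < Y1 by linarith only [hδp, hY'.2])
    linarith only [this]
  · have k3 : p.pt Y1 s0 + (δ : ℂ) * p.pt 1 0 = p.pt (Y1 + δ) s0 := by
      have := p.pt_add Y1 s0 1 0 δ
      rw [mul_one, mul_zero, add_zero] at this
      exact this.symm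
    have k4 : p.g (Y1 + δ) s0 < c := by
      have k5 := hS.seg 1 (by norm_num) one_ne_zero
      rw [Complex.ofReal_one, one_mul, k3] at k5
      have k6 : p.a * p.g (Y1 + δ) s0 < p.a * c := by
        rw [← p.G_pt]
        exact k5
      exact lt_of_mul_lt_mul_left k6 ha.le
    rw [k3]
    refine p.to_sea hs0L (hs0α.trans h2) hb1 hb2 k4 ?_
    exact (fib_anti' hlt.le hr).mono (Ici_subset_Ici.2 (by linarith only [hδp]))

end Par

end SokamN

end

/-! ### Lib_MP_af4de1_v.N1E3 -/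

section
namespace SokamV
end SokamV
/-!
# The case `N = 1`: lower half, case 3
-/

namespace SokamN

open SokamV Complex Filter Topology Set

namespace Par

variable (p : Par)

/-- Case 3: the saddle point is `(1, α)`. -/
theorem lower3 (NT : ∀ s, 0 ≤ p.rho s → p.m s ≤ 0) {α : ℝ} (h1 : p.sL < α) (h2 : α < p.sR)
    (h3 : p.rho α = -Real.exp (-1)) (h4 : ∀ s, p.sLL ≤ s → s < α → -Real.exp (-1) < p.rho s)
    (h5 : p.m1 α = 0) (h6 : α < 0) (x0 : ℝ) :
    ∀ sb, p.sL < sb → sb < p.sR →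
      ∃ c' < p.a * p.g 1 α, ∃ Y0 : ℝ, ∀ Yb : ℝ, Y0 ≤ Yb → ∃ R0 : ℝ, ∀ R : ℝ, R0 ≤ R →
        Chain p.u (Ph p.ζ) (p.a * p.g 1 α) c' (x0 - R * I) [p.pt 1 α] (p.pt Yb sb) := by
  intro sb hb1 hb2
  have ha := p.ha
  have hLL := p.sLL_lt_sL
  have hLα : p.sLL < α := hLL.trans h1
  have hYα : p.Y α = 1 := by
    rw [Y, h3, neg_neg, Ym_exp]
  have hmono : StrictMonoOn p.m (Icc p.sLL α) :=
    p.m_strictMono (fun s hs => h4 s hs.1.le hs.2) h5.ge
  have hr1 : p.rho1 α * Real.exp 1 = α := by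
    have := h5
    rw [m1, hYα] at this
    linarith
  have hr1' : p.rho1 α < 0 := by
    by_contra hcon
    push Not at hcon
    have := mul_nonneg hcon (Real.exp_pos 1).le
    linarith
  -- the function `rho` decreases after `α`
  obtain ⟨ε, hε, hρ⟩ : ∃ ε > 0, ∀ δ : ℝ, 0 < δ → δ ≤ ε → p.rho (α + δ) < -Real.exp (-1) := by
    have k1 : ∀ᶠ s in 𝓝 α, p.rho1 s < 0 :=
      (p.continuous_rho1.tendsto α).eventually (gt_mem_nhds hr1')
    obtain ⟨ε, hε, k2⟩ := Metric.eventually_nhds_iff.1 k1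
    refine ⟨ε / 2, by linarith, fun δ hδ hδε => ?_⟩
    have k3 : StrictAntiOn p.rho (Icc α (α + δ)) := by
      refine strictAntiOn_of_deriv_neg (convex_Icc _ _) p.continuous_rho.continuousOn ?_
      intro s hs
      rw [interior_Icc] at hs
      rw [(p.hasDerivAt_rho s).deriv]
      apply k2
      rw [Real.dist_eq, abs_of_pos (by linarith [hs.1])]
      linarith [hs.2]
    have k4 := k3 ⟨le_rfl, by linarith⟩ ⟨by linarith, le_rfl⟩ (show α < α + δ by linarith)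
    rwa [h3] at k4
  set c := p.g 1 α with hc
  have hcm : p.m α = c := by
    rw [m, hYα]
  set K := -1 + p.rho2 α * Real.exp 1 with hK
  set V := (|K| + 1) / (-2 * α) with hV
  have hVp : 0 < V := div_pos (by positivity) (by linarith)
  have hVα : 2 * α * V = -(|K| + 1) := by
    rw [hV]
    have : α ≠ 0 := h6.ne
    field_simp
  obtain ⟨δ0, hδ0, hsad⟩ := p.sad (Y := 1) (s := α) (V := V) (W := 1)
    (by
      rw [h3, neg_mul, ← Real.exp_add]
      norm_num)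
    (by rw [hr1]; ring)
    (by
      rw [← hK]
      nlinarith [le_abs_self K])
  set δ := min δ0 (min ((α - p.sLL) / 2) (min ε ((p.sR - α) / 2))) with hδ
  have hδp : 0 < δ := lt_min hδ0 (lt_min (by linarith) (lt_min hε (by linarith)))
  have hδ1 : δ ≤ (α - p.sLL) / 2 := (min_le_right _ _).trans (min_le_left _ _)
  have hδ2 : δ ≤ ε := (min_le_right _ _).trans ((min_le_right _ _).trans (min_le_left _ _))
  have hδ3 : δ ≤ (p.sR - α) / 2 :=
    (min_le_right _ _).trans ((min_le_right _ _).trans (min_le_right _ _))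
  have hS := hsad δ hδp (min_le_left _ _)
  have hδV : 0 < δ * V := mul_pos hδp hVp
  have kS : p.pt 1 α - (δ : ℂ) * p.pt V 1 = p.pt (1 - δ * V) (α - δ) := by
    have := p.pt_sub 1 α V 1 δ
    rw [mul_one] at this
    exact this.symm
  have kS' : p.pt 1 α + (δ : ℂ) * p.pt V 1 = p.pt (1 + δ * V) (α + δ) := by
    have := p.pt_add 1 α V 1 δ
    rw [mul_one] at this
    exact this.symm
  have gS : p.g (1 - δ * V) (α - δ) < c := by
    have k5 := hS.seg (-1) (by norm_num) (by norm_num)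
    have e : p.pt 1 α + ((-1 : ℝ) : ℂ) * ((δ : ℂ) * p.pt V 1) =
        p.pt 1 α - (δ : ℂ) * p.pt V 1 := by
      push_cast
      ring
    rw [e, kS] at k5
    have k6 : p.a * p.g (1 - δ * V) (α - δ) < p.a * c := by
      rw [← p.G_pt]
      exact k5
    exact lt_of_mul_lt_mul_left k6 ha.le
  have gS' : p.g (1 + δ * V) (α + δ) < c := by
    have k5 := hS.seg 1 (by norm_num) one_ne_zero
    rw [Complex.ofReal_one, one_mul, kS'] at k5
    have k6 : p.a * p.g (1 + δ * V) (α + δ) < p.a * c := by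
      rw [← p.G_pt]
      exact k5
    exact lt_of_mul_lt_mul_left k6 ha.le
  refine p.glue NT (fun s hs => ?_) (P := fun Yb => p.pt Yb sb) ?_ hS ?_
  · rw [← hcm]
    exact hmono.monotoneOn ⟨hs.1, hs.2.trans h1.le⟩ ⟨hLα.le, le_rfl⟩ (hs.2.trans h1.le)
  · have k1 : SC p.G (p.a * c) (p.pt (p.Y p.sLL) p.sLL) (p.pt (p.Y (α - δ)) (α - δ)) := by
      refine p.SC_along (by linarith) fun s hs => ?_
      rw [← hcm]
      exact hmono ⟨hs.1, by linarith [hs.2]⟩ ⟨hLα.le, le_rfl⟩ (by linarith [hs.2])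
    have k2 : p.Y p.sLL = 0 := by
      rw [Y, p.rho_sLL, neg_zero, Ym_zero]
    rw [k2] at k1
    rw [kS]
    refine k1.trans (SC.symm (p.SC_chan (h4 _ (by linarith) (by linarith)).le ?_ gS))
    linarith
  · rw [kS']
    exact p.to_sea (by linarith) (by linarith) hb1 hb2 gS'
      ((fib_antitone (hρ δ hδp hδ2).le).antitoneOn _)

end Par

end SokamN

end

/-! ### Lib_MP_af4de1_v.N1E -/

section
namespace SokamV
end SokamV
/-!
# The case `N = 1`: lower half and open window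
-/

namespace SokamN

open SokamV Complex Filter Topology Set

namespace Par

variable (p : Par)

/-- At the first point where `rho = -e^{-1}` the derivative is not positive. -/
private theorem N1E_rho1_nonpos {α : ℝ} (h1 : p.sL < α)
    (h3 : p.rho α = -Real.exp (-1)) (h4 : ∀ s, p.sLL ≤ s → s < α → -Real.exp (-1) < p.rho s) :
    p.rho1 α ≤ 0 := by
  by_contra hcon
  push Not at hcon
  have hLα : p.sLL < α := p.sLL_lt_sL.trans h1
  have hd := p.hasDerivAt_rho α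
  have hs := hd.tendsto_slope
  have h5 : ∀ᶠ x in 𝓝[≠] α, 0 < slope p.rho α x := hs.eventually (lt_mem_nhds hcon)
  have h6 : ∀ᶠ x in 𝓝[<] α, 0 < slope p.rho α x := h5.filter_mono (nhdsWithin_mono _ (fun x hx => ne_of_lt hx))
  have h7 : ∀ᶠ x in 𝓝[<] α, x ∈ Ioo p.sLL α := Ioo_mem_nhdsLT hLα
  obtain ⟨x, hx1, hx2⟩ := (h6.and h7).exists
  have h8 := h4 x hx2.1.le hx2.2
  rw [slope_def_field, h3] at hx1
  have h9 : (p.rho x - -Real.exp (-1)) / (x - α) < 0 :=
    div_neg_of_pos_of_neg (by linarith only [h8]) (by linarith only [hx2.2])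
  linarith only [hx1, h9]

/-- The lower half of the contour, closed window. -/
theorem lower (NT : ∀ s, 0 ≤ p.rho s → p.m s ≤ 0)
    (tip : p.rho 0 = -Real.exp (-1) → p.rho1 0 ≠ 0) {α : ℝ} (h1 : p.sL < α) (h2 : α < p.sR)
    (h3 : p.rho α = -Real.exp (-1)) (h4 : ∀ s, p.sLL ≤ s → s < α → -Real.exp (-1) < p.rho s)
    (x0 : ℝ) :
    ∃ (Y1 s1 c : ℝ), s1 ≤ α ∧ (s1 = α → α < 0) ∧ ∀ sb, p.sL < sb → sb < p.sR →
      ∃ c' < c, ∃ Y0 : ℝ, ∀ Yb : ℝ, Y0 ≤ Yb → ∃ R0 : ℝ, ∀ R : ℝ, R0 ≤ R →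
        Chain p.u (Ph p.ζ) c c' (x0 - R * I) [p.pt Y1 s1] (p.pt Yb sb) := by
  rcases lt_trichotomy (p.m1 α) 0 with h5 | h5 | h5
  · obtain ⟨Y1, s1, hs1, h6⟩ := p.lower1 NT h1 h2 h3 h4 h5 x0
    exact ⟨Y1, s1, _, hs1.le, fun h => absurd h hs1.ne, h6⟩
  · have h6 : p.rho1 α ≤ 0 := p.N1E_rho1_nonpos h1 h3 h4
    have hYα : p.Y α = 1 := by
      rw [Y, h3, neg_neg, Ym_exp]
    have h7 : α = p.rho1 α * Real.exp 1 := by
      rw [m1, hYα] at h5
      linarith only [h5]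
    have h8 : α < 0 := by
      have h9 : α ≤ 0 := by
        rw [h7]
        exact mul_nonpos_of_nonpos_of_nonneg h6 (Real.exp_pos 1).le
      rcases h9.lt_or_eq with h | h
      · exact h
      · exfalso
        subst h
        refine tip h3 ?_
        have h10 : p.rho1 0 * Real.exp 1 = 0 := h7.symm
        exact (mul_eq_zero.1 h10).resolve_right (Real.exp_pos 1).ne'
    exact ⟨1, α, _, le_rfl, fun _ => h8, p.lower3 NT h1 h2 h3 h4 h5 h8 x0⟩
  · obtain ⟨Y1, s1, hs1, h6⟩ := p.lower2 NT h1 h2 h3 h4 h5 x0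
    exact ⟨Y1, s1, _, hs1.le, fun h => absurd h hs1.ne, h6⟩

/-- Connections under complex conjugation. -/
private theorem N1E_conj {c' : ℝ} {A B : ℂ} (h : Conn p.mirror.G c' A B) :
    Conn p.G c' (starRingEnd ℂ A) (starRingEnd ℂ B) := by
  have hPh : ∀ H : ℂ, Ph p.ζ (starRingEnd ℂ H) = starRingEnd ℂ (Ph (starRingEnd ℂ p.ζ) H) := by
    intro H
    have h2 : starRingEnd ℂ (2 : ℂ) = 2 := Complex.conj_ofNat 2
    simp only [Ph, map_add, map_div₀, map_pow, map_mul, Complex.conj_conj, ← Complex.exp_conj, h2]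
  have hG : ∀ H : ℂ, p.G (starRingEnd ℂ H) = p.mirror.G H := by
    intro H
    show (p.u * Ph p.ζ (starRingEnd ℂ H)).re = (p.mirror.u * Ph p.mirror.ζ H).re
    rw [hPh, p.mirror_u, p.mirror_zeta, ← Complex.conj_re (starRingEnd ℂ p.u * _), map_mul, Complex.conj_conj]
  obtain ⟨U, k1, k2, k3, k4⟩ := h
  refine ⟨starRingEnd ℂ '' U, k1.image _ Complex.continuous_conj.continuousOn,
    ⟨A, k2, rfl⟩, ⟨B, k3, rfl⟩, ?_⟩
  rintro H ⟨H', hH', rfl⟩
  rw [hG]
  exact k4 H' hH'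

/-- The open window: one saddle point. -/
theorem open_window (NT : ∀ s, 0 ≤ p.rho s → p.m s ≤ 0)
    (h : ∀ s ∈ Icc p.sLL p.sRR, -Real.exp (-1) < p.rho s) :
    ∃ (Y1 s1 c : ℝ), Good p.u p.ζ c [p.pt Y1 s1] := by
  have ha := p.ha
  have hLL := p.sLL_lt_sL
  have hLR := p.sL_lt_sR
  have hRR := p.sR_lt_sRR
  have hlr : p.sLL < p.sRR := hLL.trans (hLR.trans hRR)
  have hm1LL := p.m1_sLL_pos
  have hm1RR : p.m1 p.sRR < 0 := by
    have k := p.mirror.m1_sLL_pos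
    rw [p.mirror_m1, p.mirror_sLL, neg_neg] at k
    linarith only [k]
  have hrhoRR : p.rho p.sRR = 0 := by
    have k := p.mirror.rho_sLL
    rwa [p.mirror_rho, p.mirror_sLL, neg_neg] at k
  obtain ⟨s1, hs1, hs1z⟩ : ∃ s1 ∈ Icc p.sLL p.sRR, p.m1 s1 = 0 :=
    intermediate_value_Icc' hlr.le p.continuous_m1.continuousOn ⟨hm1RR.le, hm1LL.le⟩
  have hs1L : p.sLL < s1 := by
    rcases hs1.1.lt_or_eq with h | h
    · exact h
    · rw [← h] at hs1z
      exact absurd hs1z hm1LL.ne'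
  have hs1R : s1 < p.sRR := by
    rcases hs1.2.lt_or_eq with h | h
    · exact h
    · rw [h] at hs1z
      exact absurd hs1z hm1RR.ne
  have hlt := h s1 hs1
  set Y1 := p.Y s1 with hY1
  have hY1' : Y1 < 1 := p.Y_lt hlt
  have hmono : StrictMonoOn p.m (Icc p.sLL s1) :=
    p.m_strictMono (fun s hs => h s ⟨hs.1.le, (hs.2.trans hs1R).le⟩) hs1z.ge
  have hanti : StrictAntiOn p.m (Icc s1 p.sRR) :=
    p.m_strictAnti (fun s hs => h s ⟨(hs1L.trans hs.1).le, hs.2.le⟩) hs1z.le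
  set c := p.g Y1 s1 with hc
  have hcm : p.m s1 = c := rfl
  have hmle : ∀ s ∈ Icc p.sLL p.sRR, p.m s ≤ c := by
    intro s hs
    rw [← hcm]
    rcases le_total s s1 with h | h
    · exact hmono.monotoneOn ⟨hs.1, h⟩ ⟨hs1L.le, le_rfl⟩ h
    · exact hanti.antitoneOn ⟨le_rfl, hs1R.le⟩ ⟨h, hs.2⟩ h
  set V := -s1 / (1 - Y1) with hV
  obtain ⟨δ0, hδ0, hsad⟩ := p.sad (Y := Y1) (s := s1) (V := V) (W := 1) (p.Y_crit hlt.le)
    hs1z (p.chan_dir hlt hs1z)
  set δ := min δ0 (min ((s1 - p.sLL) / 2) (min ((p.sRR - s1) / 2) ((1 - Y1) / (|V| + 1)))) with hδ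
  have hδp : 0 < δ := lt_min hδ0 (lt_min (by linarith only [hs1L]) (lt_min (by linarith only [hs1R])
    (div_pos (by linarith only [hY1']) (by (clear * -; positivity)))))
  have hδ1 : δ ≤ (s1 - p.sLL) / 2 := (min_le_right _ _).trans (min_le_left _ _)
  have hδ2 : δ ≤ (p.sRR - s1) / 2 :=
    (min_le_right _ _).trans ((min_le_right _ _).trans (min_le_left _ _))
  have hδ3 : δ ≤ (1 - Y1) / (|V| + 1) :=
    (min_le_right _ _).trans ((min_le_right _ _).trans (min_le_right _ _))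
  have hS := hsad δ hδp (min_le_left _ _)
  have hVδ : |δ * V| ≤ 1 - Y1 := by
    rw [le_div_iff₀ (by (clear * -; positivity))] at hδ3
    rw [abs_mul, abs_of_pos hδp]
    linarith only [hδp, hδ3]
  obtain ⟨hV1, hV2⟩ := abs_le.1 hVδ
  have kS : p.pt Y1 s1 - (δ : ℂ) * p.pt V 1 = p.pt (Y1 - δ * V) (s1 - δ) := by
    have := p.pt_sub Y1 s1 V 1 δ
    rw [mul_one] at this
    exact this.symm
  have kS' : p.pt Y1 s1 + (δ : ℂ) * p.pt V 1 = p.pt (Y1 + δ * V) (s1 + δ) := by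
    have := p.pt_add Y1 s1 V 1 δ
    rw [mul_one] at this
    exact this.symm
  have gS : p.g (Y1 - δ * V) (s1 - δ) < c := by
    have k5 := hS.seg (-1) (by norm_num) (by norm_num)
    have e : p.pt Y1 s1 + ((-1 : ℝ) : ℂ) * ((δ : ℂ) * p.pt V 1) =
        p.pt Y1 s1 - (δ : ℂ) * p.pt V 1 := by
      push_cast
      ring
    rw [e, kS] at k5
    have k6 : p.a * p.g (Y1 - δ * V) (s1 - δ) < p.a * c := by
      rw [← p.G_pt]
      exact k5
    exact lt_of_mul_lt_mul_left k6 ha.le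
  have gS' : p.g (Y1 + δ * V) (s1 + δ) < c := by
    have k5 := hS.seg 1 (by norm_num) one_ne_zero
    rw [Complex.ofReal_one, one_mul, kS'] at k5
    have k6 : p.a * p.g (Y1 + δ * V) (s1 + δ) < p.a * c := by
      rw [← p.G_pt]
      exact k5
    exact lt_of_mul_lt_mul_left k6 ha.le
  have hYLL : p.Y p.sLL = 0 := by
    rw [Y, p.rho_sLL, neg_zero, Ym_zero]
  have hYRR : p.Y p.sRR = 0 := by
    rw [Y, hrhoRR, neg_zero, Ym_zero]
  -- the lower part
  have hA : SC p.G (p.a * c) (p.pt 0 p.sLL) (p.pt Y1 s1 - (δ : ℂ) * p.pt V 1) := by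
    have k1 : SC p.G (p.a * c) (p.pt (p.Y p.sLL) p.sLL) (p.pt (p.Y (s1 - δ)) (s1 - δ)) := by
      refine p.SC_along (by linarith only [hδp, hδ1]) fun s hs => ?_
      rw [← hcm]
      exact hmono ⟨hs.1, by linarith only [hδp, hs.2]⟩ ⟨hs1L.le, le_rfl⟩ (by linarith only [hδp, hs.2])
    rw [hYLL] at k1
    rw [kS]
    exact k1.trans (SC.symm (p.SC_chan (h _ ⟨by linarith only [hδp, hδ1], by linarith only [hδp, hδ2]⟩).le (by linarith only [hV1]) gS))
  -- the upper part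
  have hB : SC p.G (p.a * c) (p.pt Y1 s1 + (δ : ℂ) * p.pt V 1) (p.pt 0 p.sRR) := by
    have k1 : SC p.G (p.a * c) (p.pt (p.Y (s1 + δ)) (s1 + δ)) (p.pt (p.Y p.sRR) p.sRR) := by
      refine p.SC_along (by linarith only [hδp, hδ2]) fun s hs => ?_
      rw [← hcm]
      exact hanti ⟨le_rfl, hs1R.le⟩ ⟨by linarith only [hδp, hs.1], hs.2⟩ (by linarith only [hδp, hs.1])
    rw [hYRR] at k1
    rw [kS']
    exact (p.SC_chan (h _ ⟨by linarith only [hδp, hδ1], by linarith only [hδp, hδ2]⟩).le (by linarith only [hV2]) gS').trans k1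
  -- far away
  obtain ⟨c1, hc1, R1, hfar1⟩ := p.far_conn (c := c) NT
    (fun s hs => hmle s ⟨hs.1, hs.2.trans (hLR.trans hRR).le⟩) (-1)
  obtain ⟨c2, hc2, R2, hfar2⟩ := p.mirror.far_conn (c := c)
    (fun s hs => by rw [p.mirror_m]; exact NT _ (by rwa [p.mirror_rho] at hs))
    (fun s hs => by
      rw [p.mirror_m]
      rw [p.mirror_sLL, p.mirror_sL] at hs
      exact hmle (-s) ⟨by linarith only [hLL, hLR, hs.2], by linarith only [hs.1]⟩) 1
  obtain ⟨c3, hc3, k3⟩ := hA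
  obtain ⟨c4, hc4, k4⟩ := hB
  have hc2' : c2 < p.a * c := hc2
  refine ⟨Y1, s1, p.a * c, max (max c1 c2) (max c3 c4), max_lt (max_lt hc1 hc2') (max_lt hc3 hc4), max R1 R2,
    fun R hR => ?_⟩
  have k1 := hfar1 R ((le_max_left _ _).trans hR)
  have k2 := p.N1E_conj (hfar2 R ((le_max_right _ _).trans hR))
  have e1 : (((-1 : ℝ) : ℂ) - R * I) = -1 - R * I := by push_cast; ring
  have e2 : starRingEnd ℂ (((1 : ℝ) : ℂ) - R * I) = 1 + R * I := by
    rw [map_sub, map_mul, Complex.conj_ofReal, Complex.conj_ofReal, Complex.conj_I]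
    push_cast
    ring
  have e3 : starRingEnd ℂ (p.mirror.pt 0 p.mirror.sLL) = p.pt 0 p.sRR := by
    rw [p.mirror_pt, Complex.conj_conj, p.mirror_sLL, neg_neg]
  rw [e1] at k1
  rw [e2, e3] at k2
  refine Chain.cons (v := (δ : ℂ) * p.pt V 1) ?_ hS (Chain.nil ?_)
  · exact (k1.mono ((le_max_left _ _).trans (le_max_left _ _))).trans
      (k3.mono ((le_max_left _ _).trans (le_max_right _ _)))
  · exact (k4.mono ((le_max_right _ _).trans (le_max_right _ _))).trans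
      (k2.symm.mono ((le_max_right _ _).trans (le_max_left _ _)))

end Par

end SokamN

end

/-! ### Lib_MP_af4de1_v.N1F -/

section
namespace SokamV
end SokamV
/-!
# The case `N = 1`, `Re u > 0`
-/

namespace SokamN

open SokamV Complex Filter Topology Set

namespace Par

variable (p : Par)

/-- The first point of the closed part of the window. -/
theorem first_point (h : ∃ s ∈ Icc p.sL p.sR, p.rho s ≤ -Real.exp (-1)) :
    ∃ α, p.sL < α ∧ α < p.sR ∧ p.rho α = -Real.exp (-1) ∧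
      ∀ s, p.sLL ≤ s → s < α → -Real.exp (-1) < p.rho s := by
  have he := Real.exp_pos (-1)
  have hcont := p.continuous_rho
  set K : Set ℝ := Icc p.sL p.sR ∩ p.rho ⁻¹' Iic (-Real.exp (-1)) with hK
  have hKc : IsCompact K := isCompact_Icc.inter_right (isClosed_Iic.preimage hcont)
  have hKn : K.Nonempty := by
    obtain ⟨s, hs, hs'⟩ := h
    exact ⟨s, hs, hs'⟩
  obtain ⟨hα, hα'⟩ := hKc.sInf_mem hKn
  set α := sInf K with hαdef
  have hmin : ∀ s ∈ K, α ≤ s := fun s hs => csInf_le hKc.bddBelow hs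
  have hα'' : p.rho α ≤ -Real.exp (-1) := hα'
  have h0 := p.rho_sL
  have hsR : p.rho p.sR = 0 := by
    have := p.mirror.rho_sL
    rw [mirror_rho, mirror_sL, neg_neg] at this
    exact this
  have h1 : p.sL < α := by
    refine lt_of_le_of_ne hα.1 fun h => ?_
    rw [← h, h0] at hα''
    linarith
  have h2 : α < p.sR := by
    refine lt_of_le_of_ne hα.2 fun h => ?_
    rw [h, hsR] at hα''
    linarith
  have h3 : p.rho α = -Real.exp (-1) := by
    have h4 : -Real.exp (-1) ∈ Icc (p.rho α) (p.rho p.sL) := ⟨hα'', by rw [h0]; linarith⟩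
    obtain ⟨s, hs, hs'⟩ := intermediate_value_Icc' h1.le hcont.continuousOn h4
    have h5 : s ∈ K := ⟨⟨hs.1, hs.2.trans hα.2⟩, hs'.le⟩
    have h6 : s = α := le_antisymm hs.2 (hmin s h5)
    rw [← h6, hs']
  refine ⟨α, h1, h2, h3, fun s hs1 hs2 => ?_⟩
  by_contra h7
  push Not at h7
  rcases le_or_gt s p.sL with h8 | h8
  · have := p.rho_nonneg_finger hs1 h8
    linarith
  · exact absurd (hmin s ⟨⟨h8.le, (hs2.trans h2).le⟩, h7⟩) (not_le.2 hs2)

theorem static_pos (NT : ∀ s, 0 ≤ p.rho s → p.m s ≤ 0)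
    (tip : p.rho 0 = -Real.exp (-1) → p.rho1 0 ≠ 0) :
    ∃ (c : ℝ) (L : List ℂ), Good p.u p.ζ c L ∧
      ((∃ S, L = [S]) ∨ ∃ S1 S2, S1 ≠ S2 ∧ L = [S1, S2]) := by
  have he := Real.exp_pos (-1)
  by_cases h : ∃ s ∈ Icc p.sL p.sR, p.rho s ≤ -Real.exp (-1)
  · obtain ⟨α, a1, a2, a3, a4⟩ := p.first_point h
    have h' : ∃ s ∈ Icc p.mirror.sL p.mirror.sR, p.mirror.rho s ≤ -Real.exp (-1) := by
      refine ⟨-α, ?_, ?_⟩
      · rw [mirror_sL, mirror_sR]
        exact ⟨by linarith, by linarith⟩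
      · rw [mirror_rho, neg_neg, a3]
    obtain ⟨α', b1, b2, b3, b4⟩ := p.mirror.first_point h'
    have hαβ : α ≤ -α' := by
      by_contra hlt
      push Not at hlt
      rw [mirror_sR] at b2
      rw [mirror_rho] at b3
      have := a4 (-α') (by linarith [p.sLL_lt_sL]) hlt
      linarith
    have NT' : ∀ s, 0 ≤ p.mirror.rho s → p.mirror.m s ≤ 0 := by
      intro s hs
      rw [mirror_rho] at hs
      rw [mirror_m]
      exact NT _ hs
    have tip' : p.mirror.rho 0 = -Real.exp (-1) → p.mirror.rho1 0 ≠ 0 := by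
      intro h0
      rw [mirror_rho, neg_zero] at h0
      rw [mirror_rho1, neg_zero]
      exact neg_ne_zero.2 (tip h0)
    obtain ⟨Y1, s1, c1, c2, c3, c4⟩ := p.lower NT tip a1 a2 a3 a4 (-1)
    obtain ⟨Y2, s2, d1, d2, d3, d4⟩ := p.mirror.lower NT' tip' b1 b2 b3 b4 1
    have hα1 : p.mirror.sL < -α := by rw [mirror_sL]; linarith
    have hα2 : -α < p.mirror.sR := by rw [mirror_sR]; linarith
    have hne : p.pt Y1 s1 ≠ starRingEnd ℂ (p.mirror.pt Y2 s2) := by
      intro h5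
      rw [mirror_pt, Complex.conj_conj] at h5
      have h6 := congrArg Complex.im h5
      simp only [pt] at h6
      have h7 : s1 = -s2 := mul_left_cancel₀ p.ha.ne' h6
      have h8 : s1 = α := by linarith
      have h9 : s2 = α' := by linarith
      have := c3 h8
      have := d3 h9
      linarith
    refine good_of_two (c1 := c1) (c2 := d1) hne (fun Yb => p.pt Yb α) ?_ ?_
    · obtain ⟨c', e1, Y0, e2⟩ := c4 α a1 a2
      refine ⟨c', e1, Y0, fun Yb hYb => ?_⟩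
      obtain ⟨R0, e3⟩ := e2 Yb hYb
      refine ⟨R0, fun R hR => ?_⟩
      have := e3 R hR
      rw [Complex.ofReal_neg, Complex.ofReal_one] at this
      exact this
    · obtain ⟨c', e1, Y0, e2⟩ := d4 (-α) hα1 hα2
      refine ⟨c', e1, Y0, fun Yb hYb => ?_⟩
      obtain ⟨R0, e3⟩ := e2 Yb hYb
      refine ⟨R0, fun R hR => ?_⟩
      have h5 := e3 R hR
      rw [mirror_u, mirror_zeta] at h5
      have h6 := h5.conj_reverse
      have h7 : starRingEnd ℂ (p.mirror.pt Yb (-α)) = p.pt Yb α := by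
        rw [mirror_pt, Complex.conj_conj, neg_neg]
      have h8 : starRingEnd ℂ (((1 : ℝ) : ℂ) - R * I) = 1 + R * I := by
        rw [map_sub, map_mul, Complex.conj_I, Complex.conj_ofReal, Complex.conj_ofReal]
        push_cast; ring
      rw [h7, h8] at h6
      exact h6
  · push Not at h
    have h' : ∀ s ∈ Icc p.sLL p.sRR, -Real.exp (-1) < p.rho s := by
      intro s hs
      rcases le_or_gt s p.sL with h1 | h1
      · have := p.rho_nonneg_finger hs.1 h1
        linarith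
      · rcases le_or_gt s p.sR with h2 | h2
        · exact h s ⟨h1.le, h2⟩
        · have h3 := p.mirror.rho_nonneg_finger (s := -s) (by rw [mirror_sLL]; linarith [hs.2])
            (by rw [mirror_sL]; linarith)
          rw [mirror_rho, neg_neg] at h3
          linarith
    obtain ⟨Y1, s1, c, hg⟩ := p.open_window NT h'
    exact ⟨c, _, hg, Or.inl ⟨_, rfl⟩⟩

end Par

theorem static_re_pos {u ζ : ℂ} (hu : ‖u‖ = 1) (ha : 0 < u.re) (hζ : ζ ≠ 0)
    (htip : ζ ≠ -Real.exp (-1)) (hT : ¬ TopPos u ζ) :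
    ∃ (c : ℝ) (L : List ℂ), Good u ζ c L ∧
      ((∃ S, L = [S]) ∨ ∃ S1 S2, S1 ≠ S2 ∧ L = [S1, S2]) := by
  obtain ⟨p, rfl, rfl⟩ := Par.exists_par hu ha hζ hT
  exact p.static_pos (Par.NT_of hT) (Par.tip_of htip)

end SokamN

end

/-! ### Lib_MP_af4de1_v.N1G0 -/

section
namespace SokamV
end SokamV
/-!
# The case `N = 1`, `u = i`

`i ζ = r e^{iφ}`, `π/2 ≤ φ < 3π/2`, height `g0(X, T) = -X T + r e^X cos(T + φ)`, `H = X + i T`.
Window 0 is `TL < T < TR`, `TL = π/2 - φ ≤ 0 < TR = 3π/2 - φ`; the finger is `TR < T < TRR`.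
-/

namespace SokamN

open SokamV Complex Filter Topology Set

structure Par0 where
  r : ℝ
  φ : ℝ
  hr : 0 < r
  h1 : Real.pi / 2 ≤ φ
  h2 : φ < 3 * Real.pi / 2

namespace Par0

variable (p : Par0)

noncomputable def ζ : ℂ := -I * (p.r * cexp (p.φ * I))

noncomputable def g (X T : ℝ) : ℝ := -(X * T) + p.r * Real.exp X * Real.cos (T + p.φ)

def pt (X T : ℝ) : ℂ := ⟨X, T⟩

noncomputable abbrev G : ℂ → ℝ := fun H => (I * Ph p.ζ H).re

noncomputable def TL : ℝ := Real.pi / 2 - p.φ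

noncomputable def TR : ℝ := 3 * Real.pi / 2 - p.φ

noncomputable def TRR : ℝ := 5 * Real.pi / 2 - p.φ

private theorem N1G0_pt_eq (X T : ℝ) : pt X T = X + T * I := by
  apply Complex.ext <;> simp [pt]

private theorem N1G0_I_zeta : I * p.ζ = p.r * cexp (p.φ * I) := by
  rw [ζ, ← mul_assoc, mul_neg, I_mul_I, neg_neg, one_mul]

private theorem N1G0_zeta_exp (X T : ℝ) : I * (p.ζ * cexp (pt X T)) =
    ((p.r * Real.exp X : ℝ) : ℂ) * (Real.cos (T + p.φ) + Real.sin (T + p.φ) * I) := by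
  rw [← mul_assoc, N1G0_I_zeta, N1G0_pt_eq, Complex.exp_add]
  have h2 : cexp (p.φ * I) * cexp (T * I) = Real.cos (T + p.φ) + Real.sin (T + p.φ) * I := by
    rw [← Complex.exp_add]
    have : (p.φ * I + T * I : ℂ) = ((T + p.φ : ℝ) : ℂ) * I := by push_cast; ring
    rw [this, Complex.exp_mul_I, Complex.ofReal_cos, Complex.ofReal_sin]
  rw [← h2]
  push_cast
  ring

theorem G_pt (X T : ℝ) : p.G (pt X T) = p.g X T := by
  have h1 : p.G (pt X T) = (I * (pt X T) ^ (2 : ℕ) / 2 + I * (p.ζ * cexp (pt X T))).re := by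
    show (I * Ph p.ζ (pt X T)).re = _
    rw [Ph]; congr 1; ring
  have h3 : (I * (pt X T) ^ (2 : ℕ) / 2).re = -(X * T) := by
    have e1 : I * (pt X T) ^ (2 : ℕ) / 2 = ((-(X * T) : ℝ) : ℂ) + (((X ^ (2 : ℕ) - T ^ (2 : ℕ)) / 2 : ℝ) : ℂ) * I := by
      rw [N1G0_pt_eq]
      push_cast
      linear_combination ((X : ℂ) * T + T ^ (2 : ℕ) * I / 2) * Complex.I_sq
    rw [e1, Complex.add_re, Complex.ofReal_re, Complex.re_ofReal_mul, Complex.I_re]
    ring
  rw [h1, N1G0_zeta_exp, Complex.add_re, Complex.re_ofReal_mul, h3, Complex.add_re,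
    Complex.ofReal_re, Complex.re_ofReal_mul, Complex.I_re, g]
  ring

theorem continuous_G : Continuous p.G := by
  unfold G Ph
  fun_prop

/-- A path given as a graph over `T`. -/
theorem SC_graph {f : ℝ → ℝ} {s1 s2 c : ℝ} (h12 : s1 ≤ s2) (hf : ContinuousOn f (Icc s1 s2))
    (h : ∀ s ∈ Icc s1 s2, p.g (f s) s < c) :
    SC p.G c (pt (f s1) s1) (pt (f s2) s2) := by
  refine SC.path (f := fun s => pt (f s) s) h12 ?_ p.continuous_G ?_
  · simp only [N1G0_pt_eq]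
    fun_prop
  · intro s hs
    rw [G_pt]
    exact h s hs

/-- A horizontal path. -/
theorem SC_horiz {Y1 Y2 s c : ℝ} (h12 : Y1 ≤ Y2) (h : ∀ Y ∈ Icc Y1 Y2, p.g Y s < c) :
    SC p.G c (pt Y1 s) (pt Y2 s) := by
  refine SC.path (f := fun Y => pt Y s) h12 ?_ p.continuous_G ?_
  · simp only [N1G0_pt_eq]
    fun_prop
  · intro Y hY
    rw [G_pt]
    exact h Y hY

/-- Saddle points. -/
theorem sad {X T V W : ℝ} (h1 : -T + p.r * Real.exp X * Real.cos (T + p.φ) = 0)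
    (h2 : -X - p.r * Real.exp X * Real.sin (T + p.φ) = 0)
    (h3 : T * V ^ (2 : ℕ) + 2 * (X - 1) * V * W - T * W ^ (2 : ℕ) < 0) :
    ∃ δ0 > 0, ∀ δ : ℝ, 0 < δ → δ ≤ δ0 →
      Sad I (Ph p.ζ) (p.g X T) (pt X T) (δ * pt V W) := by
  have hcrit : pt X T + p.ζ * cexp (pt X T) = 0 := by
    have h4 : I * (pt X T + p.ζ * cexp (pt X T)) = 0 := by
      rw [mul_add, N1G0_zeta_exp, N1G0_pt_eq]
      have k1 : (-T : ℂ) + p.r * Real.exp X * Real.cos (T + p.φ) = 0 := by exact_mod_cast h1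
      have k2 : (-X : ℂ) - p.r * Real.exp X * Real.sin (T + p.φ) = 0 := by exact_mod_cast h2
      push_cast at k1 k2 ⊢
      linear_combination k1 - I * k2 + (T : ℂ) * Complex.I_sq
    exact (mul_eq_zero.1 h4).resolve_left I_ne_zero
  have hQ : (I * (1 - pt X T) * (pt V W) ^ (2 : ℕ)).re < 0 := by
    have : (I * (1 - pt X T) * (pt V W) ^ (2 : ℕ)).re =
        T * V ^ (2 : ℕ) + 2 * (X - 1) * V * W - T * W ^ (2 : ℕ) := by
      simp only [pt, pow_two, Complex.mul_re, Complex.mul_im, Complex.sub_re, Complex.sub_im,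
        Complex.one_re, Complex.one_im, Complex.I_re, Complex.I_im]
      ring
    rw [this]
    exact h3
  obtain ⟨δ0, h5, h6⟩ := sad_of_desc hcrit hQ
  refine ⟨δ0, h5, fun δ k1 k2 => ?_⟩
  have h7 := h6 δ k1 k2
  have h8 : (I * Ph p.ζ (pt X T)).re = p.g X T := p.G_pt X T
  rw [h8] at h7
  exact h7

/-- Window 0: the sea is connected. -/
theorem SC_sea {s1 s2 : ℝ} (h1 : p.TL < s1) (h1' : s1 < p.TR) (h2 : p.TL < s2) (h2' : s2 < p.TR)
    (c : ℝ) : ∃ Y0 : ℝ, ∀ Y : ℝ, Y0 ≤ Y → SC p.G c (pt Y s1) (pt Y s2) := by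
  wlog h12 : s1 ≤ s2 generalizing s1 s2
  · obtain ⟨Y0, h⟩ := this h2 h2' h1 h1' (le_of_not_ge h12)
    exact ⟨Y0, fun Y hY => (h Y hY).symm⟩
  have hr := p.hr
  have hneg : ∀ s ∈ Icc s1 s2, Real.cos (s + p.φ) < 0 := by
    intro s hs
    have k1 : p.TL < s := h1.trans_le hs.1
    have k2 : s < p.TR := hs.2.trans_lt h2'
    rw [TL] at k1
    rw [TR] at k2
    exact Real.cos_neg_of_pi_div_two_lt_of_lt (by linarith only [k1]) (by linarith only [k2])
  have hcont : Continuous (fun s : ℝ => Real.cos (s + p.φ)) := by fun_prop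
  obtain ⟨s0, hs0, hmax⟩ := isCompact_Icc.exists_isMaxOn (nonempty_Icc.2 h12) hcont.continuousOn
  have hκ := hneg s0 hs0
  set κ := p.r * -Real.cos (s0 + p.φ) with hκ'
  have hκ0 : 0 < κ := mul_pos hr (by linarith only [hκ])
  set M := max |s1| |s2| with hM
  have hM0 : 0 ≤ M := (abs_nonneg s1).trans (le_max_left _ _)
  refine ⟨max 1 (2 / κ * (M + |c| + 1)), fun Y hY => ?_⟩
  have hY1 : 1 ≤ Y := (le_max_left _ _).trans hY
  have hY2 : 2 / κ * (M + |c| + 1) ≤ Y := (le_max_right _ _).trans hY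
  refine p.SC_graph (f := fun _ => Y) h12 continuousOn_const fun s hs => ?_
  have h3 : Real.cos (s + p.φ) ≤ Real.cos (s0 + p.φ) := hmax hs
  have h4 := Real.quadratic_le_exp_of_nonneg (x := Y) (by linarith only [hY1])
  have h5 : 2 * (M + |c| + 1) ≤ κ * Y := by
    rw [div_mul_eq_mul_div, div_le_iff₀ hκ0] at hY2
    linarith only [hY2]
  have h6 : p.r * Real.exp Y * Real.cos (s + p.φ) ≤ -(κ * (Y ^ (2 : ℕ) / 2)) := by
    have e1 : p.r * Real.exp Y * Real.cos (s + p.φ) ≤ p.r * Real.exp Y * Real.cos (s0 + p.φ) :=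
      mul_le_mul_of_nonneg_left h3 (by positivity)
    have e2 : p.r * Real.exp Y * Real.cos (s0 + p.φ) = -(κ * Real.exp Y) := by
      rw [hκ']
      ring
    have e3 : κ * (Y ^ (2 : ℕ) / 2) ≤ κ * Real.exp Y := mul_le_mul_of_nonneg_left (by linarith only [hY1, h4]) hκ0.le
    linarith only [e1, e3]
  have h7 : -(Y * s) ≤ Y * M := by
    have e1 : -s ≤ M := by
      rw [hM]
      rcases le_total 0 s with h | h
      · exact (neg_nonpos.2 h).trans ((abs_nonneg s1).trans (le_max_left _ _))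
      · refine le_trans ?_ (le_max_left _ _)
        rw [abs_of_nonpos (hs.1.trans h)]
        linarith only [hs.1]
    calc -(Y * s) = Y * -s := by ring
      _ ≤ Y * M := mul_le_mul_of_nonneg_left e1 (by linarith only [hY1])
  have h8 : (M + |c| + 1) * Y ≤ κ * (Y ^ (2 : ℕ) / 2) := by nlinarith only [hY1, h5]
  have h9 := neg_abs_le c
  have h10 := abs_nonneg c
  rw [g]
  nlinarith only [hY1, h6, h7, h8, h9, h10]

end Par0

end SokamN

end

/-! ### Lib_MP_af4de1_v.N1G1 -/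

section
namespace SokamV
end SokamV
/-!
# The case `N = 1`, `u = i`: the lower half of the contour
-/

namespace SokamN

open SokamV Complex Filter Topology Set

namespace Par0

variable (p : Par0)

private theorem N1G1_build {X1 T1 Xa Ta Xc Tc c3 : ℝ} {v : ℂ}
    (hS : Sad I (Ph p.ζ) (p.g X1 T1) (pt X1 T1) v) (hA : pt X1 T1 - v = pt Xa Ta)
    (hC : pt X1 T1 + v = pt Xc Tc) (hTa : Ta < 0) (hgA : ∀ X ≤ Xa, p.g X Ta < p.g X1 T1)
    (hTc : p.TL < Tc) (hTc' : Tc < p.TR) (hc3 : c3 < p.g X1 T1)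
    (hgC : ∀ X, Xc ≤ X → p.g X Tc < c3) {Tb : ℝ} (hTb : p.TL < Tb) (hTb' : Tb < p.TR) :
    ∃ c' < p.g X1 T1, ∃ Y0 : ℝ, ∀ Yb : ℝ, Y0 ≤ Yb → ∃ R0 : ℝ, ∀ R : ℝ, R0 ≤ R →
      Chain I (Ph p.ζ) (p.g X1 T1) c' (-1 - R * I) [pt X1 T1] (pt Yb Tb) := by
  set c := p.g X1 T1 with hc
  -- the number `K`
  obtain ⟨K, hK1, hK2, hK3⟩ : ∃ K : ℝ, 1 ≤ K ∧ -K ≤ Xa ∧ K * Ta + p.r < c - 1 := by
    refine ⟨max (max 1 (-Xa)) ((c - 2 - p.r) / Ta), ?_, ?_, ?_⟩
    · exact (le_max_left _ _).trans (le_max_left _ _)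
    · have : -Xa ≤ max (max 1 (-Xa)) ((c - 2 - p.r) / Ta) :=
        (le_max_right _ _).trans (le_max_left _ _)
      linarith only [this]
    · have h1 : (c - 2 - p.r) / Ta ≤ max (max 1 (-Xa)) ((c - 2 - p.r) / Ta) := le_max_right _ _
      have h2 := mul_le_mul_of_nonpos_right h1 hTa.le
      rw [div_mul_cancel₀ _ hTa.ne] at h2
      linarith only [h2]
  have hr := p.hr
  -- left horizontal part
  obtain ⟨c1, hc1, hL⟩ := p.SC_horiz (Y1 := -K) (Y2 := Xa) (s := Ta) (c := c) hK2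
    (fun X hX => hgA X hX.2)
  -- the sea
  obtain ⟨Y0, hY0⟩ := p.SC_sea hTc hTc' hTb hTb' c3
  refine ⟨max c1 (max (c - 1) c3), max_lt hc1 (max_lt (by linarith only []) hc3), max Y0 Xc, ?_⟩
  intro Yb hYb
  have hYb1 : Y0 ≤ Yb := (le_max_left _ _).trans hYb
  have hYb2 : Xc ≤ Yb := (le_max_right _ _).trans hYb
  refine ⟨max (-Ta) (p.r + 2 - c), fun R hR => ?_⟩
  have hR1 : -Ta ≤ R := (le_max_left _ _).trans hR
  have hR2 : p.r + 2 - c ≤ R := (le_max_right _ _).trans hR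
  have hR0 : 0 < R := by linarith only [hTa, hR1]
  -- (-1, -R) to (-K, -R)
  obtain ⟨c4, hc4, h4⟩ := p.SC_horiz (Y1 := -K) (Y2 := -1) (s := -R) (c := c - 1) (by linarith only [hK1])
    (fun X hX => by
      have h1 : p.r * Real.exp X * Real.cos (-R + p.φ) ≤ p.r := by
        have h2 : Real.exp X ≤ 1 := Real.exp_le_one_iff.2 (by linarith only [hX.2])
        have h3 := Real.cos_le_one (-R + p.φ)
        have h4 := Real.exp_pos X
        have h5 : p.r * Real.exp X * Real.cos (-R + p.φ) ≤ p.r * Real.exp X :=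
          mul_le_of_le_one_right (by positivity) h3
        have h6 : p.r * Real.exp X ≤ p.r := mul_le_of_le_one_right hr.le h2
        linarith only [h5, h6]
      have h7 : X * R ≤ -1 * R := mul_le_mul_of_nonneg_right hX.2 hR0.le
      unfold g
      linarith only [hR2, h1, h7])
  -- (-K, -R) to (-K, Ta)
  obtain ⟨c5, hc5, h5⟩ := p.SC_graph (f := fun _ => -K) (s1 := -R) (s2 := Ta) (c := c - 1)
    (by linarith only [hR1]) continuousOn_const (fun T hT => by
      have h1 : p.r * Real.exp (-K) * Real.cos (T + p.φ) ≤ p.r := by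
        have h2 : Real.exp (-K) ≤ 1 := Real.exp_le_one_iff.2 (by linarith only [hK1])
        have h3 := Real.cos_le_one (T + p.φ)
        have h4 := Real.exp_pos (-K)
        have h5 : p.r * Real.exp (-K) * Real.cos (T + p.φ) ≤ p.r * Real.exp (-K) :=
          mul_le_of_le_one_right (by positivity) h3
        have h6 : p.r * Real.exp (-K) ≤ p.r := mul_le_of_le_one_right hr.le h2
        linarith only [h5, h6]
      have h7 : K * T ≤ K * Ta := mul_le_mul_of_nonneg_left hT.2 (by linarith only [hK1])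
      unfold g
      linarith only [hK3, h1, h7])
  -- right horizontal part
  obtain ⟨c6, hc6, h6⟩ := p.SC_horiz (Y1 := Xc) (Y2 := Yb) (s := Tc) (c := c3) hYb2
    (fun X hX => hgC X hX.1)
  obtain ⟨c7, hc7, h7⟩ := hY0 Yb hYb1
  have hstart : (-1 - R * I : ℂ) = pt (-1) (-R) := by
    unfold pt
    apply Complex.ext <;> simp
  have e1 : c1 ≤ max c1 (max (c - 1) c3) := le_max_left _ _
  have e2 : c - 1 ≤ max c1 (max (c - 1) c3) := (le_max_left _ _).trans (le_max_right _ _)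
  have e3 : c3 ≤ max c1 (max (c - 1) c3) := (le_max_right _ _).trans (le_max_right _ _)
  refine Chain.cons (v := v) ?_ hS (Chain.nil ?_)
  · rw [hA, hstart]
    exact ((h4.symm.mono (hc4.le.trans e2)).trans (h5.mono (hc5.le.trans e2))).trans (hL.mono e1)
  · rw [hC]
    exact (h6.mono (hc6.le.trans e3)).trans (h7.mono (hc7.le.trans e3))

/-- The lower half of the contour, `TL < 0`: over the ridge `e^X = T/(r cos(T + φ))`, `T < 0`. -/
theorem lower_neg (h : p.TL < 0) :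
    ∃ (X1 T1 : ℝ), T1 < 0 ∧ ∀ Tb, 0 < Tb → Tb < p.TR →
      ∃ c' < p.g X1 T1, ∃ Y0 : ℝ, ∀ Yb : ℝ, Y0 ≤ Yb → ∃ R0 : ℝ, ∀ R : ℝ, R0 ≤ R →
        Chain I (Ph p.ζ) (p.g X1 T1) c' (-1 - R * I) [pt X1 T1] (pt Yb Tb) := by
  have hr := p.hr
  have hpi := Real.pi_pos
  have hTL : p.TL = Real.pi / 2 - p.φ := rfl
  have hφ1 : Real.pi / 2 < p.φ := by linarith only [h, hTL]
  have hφ2 := p.h2
  have hTR : p.TR = 3 * Real.pi / 2 - p.φ := rfl
  -- the cosine is negative
  have hcos : ∀ T, p.TL < T → T ≤ 0 → Real.cos (T + p.φ) < 0 := by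
    intro T h1 h2
    apply Real.cos_neg_of_pi_div_two_lt_of_lt
    · linarith only [hTL, h1]
    · linarith only [hφ2, h2]
  set R1 : ℝ → ℝ := fun T => -(Real.log (-T) - Real.log (-(p.r * Real.cos (T + p.φ)))) -
    T * (Real.sin (T + p.φ) / Real.cos (T + p.φ)) with hR1
  have hcont : ContinuousOn R1 (Ioo p.TL 0) := by
    intro T hT
    have hc := hcos T hT.1 hT.2.le
    have h1 : -T ≠ 0 := by linarith only [hT.2]
    have h2 : -(p.r * Real.cos (T + p.φ)) ≠ 0 := by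
      have := mul_pos_of_neg_of_neg (neg_neg_of_pos hr) hc
      linarith only [this]
    apply ContinuousAt.continuousWithinAt
    refine ContinuousAt.sub (ContinuousAt.neg (ContinuousAt.sub ?_ ?_)) ?_
    · exact continuousAt_id.neg.log h1
    · exact (ContinuousAt.neg (by fun_prop)).log h2
    · exact continuousAt_id.mul (ContinuousAt.div (by fun_prop) (by fun_prop) hc.ne)
  -- near `TL`
  obtain ⟨Ta, hTa1, hTa2, hTa3⟩ : ∃ T, p.TL < T ∧ T < 0 ∧ R1 T < 0 := by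
    have h1 : ∀ᶠ T in 𝓝 p.TL, 0 < -T + p.r * Real.cos (T + p.φ) := by
      have hct : ContinuousAt (fun T => -T + p.r * Real.cos (T + p.φ)) p.TL := by fun_prop
      apply hct.eventually_const_lt
      have h0 : p.TL + p.φ = Real.pi / 2 := by rw [hTL]; ring
      change 0 < -p.TL + p.r * Real.cos (p.TL + p.φ)
      rw [h0, Real.cos_pi_div_two]
      linarith only [h]
    have h2 : ∀ᶠ T in 𝓝 p.TL, T < 0 ∧ T + p.φ < Real.pi := by
      have h3 : ∀ᶠ T in 𝓝 p.TL, T < 0 := eventually_lt_nhds h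
      have h4 : ∀ᶠ T in 𝓝 p.TL, T < Real.pi - p.φ := eventually_lt_nhds (by rw [hTL]; linarith only [hφ1, hφ2])
      filter_upwards [h3, h4] with T h5 h6
      exact ⟨h5, by linarith only [h6]⟩
    have h3 : ∃ᶠ T in 𝓝 p.TL, p.TL < T :=
      (eventually_mem_nhdsWithin (a := p.TL) (s := Ioi p.TL)).frequently.filter_mono nhdsWithin_le_nhds
    obtain ⟨T, h4, ⟨h5, h6, h7⟩⟩ := (h3.and_eventually (h1.and h2)).exists
    refine ⟨T, h4, h6, ?_⟩
    have hc := hcos T h4 h6.le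
    have hs : 0 < Real.sin (T + p.φ) := Real.sin_pos_of_pos_of_lt_pi (by linarith only [hpi, hTL, h4]) h7
    have h8 : Real.log (-(p.r * Real.cos (T + p.φ))) < Real.log (-T) := by
      apply Real.log_lt_log
      · have := mul_pos_of_neg_of_neg (neg_neg_of_pos hr) hc
        linarith only [this]
      · linarith only [h5]
    have h9 : 0 < T * (Real.sin (T + p.φ) / Real.cos (T + p.φ)) :=
      mul_pos_of_neg_of_neg h6 (div_neg_of_pos_of_neg hs hc)
    simp only [hR1]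
    linarith only [h8, h9]
  -- near `0`
  obtain ⟨Tc, hTc1, hTc2, hTc3⟩ : ∃ T, Ta < T ∧ T < 0 ∧ 0 < R1 T := by
    have hc := hcos 0 h le_rfl
    have h0 : -(p.r * Real.cos (0 + p.φ)) ≠ 0 := by
      have := mul_pos_of_neg_of_neg (neg_neg_of_pos hr) hc
      linarith only [this]
    have hct : ContinuousAt (fun T => Real.log (-(p.r * Real.cos (T + p.φ))) -
        T * (Real.sin (T + p.φ) / Real.cos (T + p.φ))) 0 := by
      refine ContinuousAt.sub ?_ ?_
      · exact (ContinuousAt.neg (by fun_prop)).log h0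
      · exact continuousAt_id.mul (ContinuousAt.div (by fun_prop) (by fun_prop) hc.ne)
    set L0 := Real.log (-(p.r * Real.cos (0 + p.φ))) with hL0
    have h1 : ∀ᶠ T in 𝓝 (0 : ℝ), L0 - 1 < Real.log (-(p.r * Real.cos (T + p.φ))) -
        T * (Real.sin (T + p.φ) / Real.cos (T + p.φ)) := by
      apply hct.eventually_const_lt
      change L0 - 1 < L0 - 0 * (Real.sin (0 + p.φ) / Real.cos (0 + p.φ))
      linarith only []
    have h2 : ∀ᶠ T in 𝓝 (0 : ℝ), -Real.exp (L0 - 1) < T :=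
      eventually_gt_nhds (by have := Real.exp_pos (L0 - 1); linarith only [this])
    have h3 : ∀ᶠ T in 𝓝 (0 : ℝ), Ta < T := eventually_gt_nhds hTa2
    have h4 : ∃ᶠ T in 𝓝 (0 : ℝ), T < 0 :=
      (eventually_mem_nhdsWithin (a := (0 : ℝ)) (s := Iio 0)).frequently.filter_mono nhdsWithin_le_nhds
    obtain ⟨T, h5, h6, h7, h8⟩ := (h4.and_eventually (h1.and (h2.and h3))).exists
    refine ⟨T, h8, h5, ?_⟩
    have h9 : Real.log (-T) < L0 - 1 := by
      rw [Real.log_lt_iff_lt_exp (by linarith only [h5])]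
      linarith only [h7]
    simp only [hR1]
    linarith only [h6, h9]
  obtain ⟨T1, hT1, hT1'⟩ : ∃ T ∈ Icc Ta Tc, R1 T = 0 := by
    have h1 : (0 : ℝ) ∈ Icc (R1 Ta) (R1 Tc) := ⟨hTa3.le, hTc3.le⟩
    have h2 : ContinuousOn R1 (Icc Ta Tc) := hcont.mono fun T hT =>
      ⟨hTa1.trans_le hT.1, hT.2.trans_lt hTc2⟩
    exact intermediate_value_Icc hTc1.le h2 h1
  have hT1a : p.TL < T1 := hTa1.trans_le hT1.1
  have hT1b : T1 < 0 := hT1.2.trans_lt hTc2
  have hc1 := hcos T1 hT1a hT1b.le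
  set κ := -(p.r * Real.cos (T1 + p.φ)) with hκ
  have hκ0 : 0 < κ := by
    have := mul_pos_of_neg_of_neg (neg_neg_of_pos hr) hc1
    linarith only [this]
  set X1 := Real.log (-T1) - Real.log κ with hX1
  have hexp : κ * Real.exp X1 = -T1 := by
    rw [hX1, Real.exp_sub, Real.exp_log (by linarith only [hT1b]), Real.exp_log hκ0]
    field_simp
  refine ⟨X1, T1, hT1b, fun Tb hTb hTb' => ?_⟩
  -- the saddle
  have hcrit1 : -T1 + p.r * Real.exp X1 * Real.cos (T1 + p.φ) = 0 := by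
    rw [hκ] at hexp
    linarith only [hexp]
  have hcrit2 : -X1 - p.r * Real.exp X1 * Real.sin (T1 + p.φ) = 0 := by
    have h1 : R1 T1 = -X1 - T1 * (Real.sin (T1 + p.φ) / Real.cos (T1 + p.φ)) := by
      simp only [hR1, hX1, hκ]
    rw [h1] at hT1'
    have h2 : T1 * (Real.sin (T1 + p.φ) / Real.cos (T1 + p.φ)) =
        p.r * Real.exp X1 * Real.sin (T1 + p.φ) := by
      have h3 : T1 = p.r * Real.exp X1 * Real.cos (T1 + p.φ) := by linarith only [hcrit1]
      have h4 : ∀ c s t : ℝ, c ≠ 0 → t * c * (s / c) = t * s := by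
        intro c s t hc
        field_simp
      nth_rewrite 1 [h3]
      exact h4 _ _ _ hc1.ne
    linarith only [hT1', h2]
  obtain ⟨δ0, hδ0, hsad⟩ := p.sad (V := 1) (W := 0) hcrit1 hcrit2 (by linarith only [hT1b])
  have hS := hsad δ0 hδ0 le_rfl
  -- heights on the line `T = T1`
  have hg : ∀ x, p.g (X1 + x) T1 = p.g X1 T1 - (-T1) * (Real.exp x - 1 - x) := by
    intro x
    unfold g
    rw [Real.exp_add]
    linear_combination (Real.exp x - 1) * hcrit1
  refine N1G1_build p (c3 := p.g X1 T1 - (-T1) * (Real.exp δ0 - 1 - δ0) / 2) (Xa := X1 - δ0)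
    (Ta := T1) (Xc := X1 + δ0) (Tc := T1) hS ?_ ?_ hT1b ?_ hT1a ?_ ?_ ?_ (by linarith only [hT1a, hT1b, hTb]) hTb'
  · unfold pt
    apply Complex.ext <;> simp
  · unfold pt
    apply Complex.ext <;> simp
  · intro X hX
    have h1 := hg (X - X1)
    rw [add_sub_cancel] at h1
    rw [h1]
    have h2 := Real.add_one_lt_exp (x := X - X1) (by linarith only [hδ0, hX])
    have h3 : 0 < (-T1) * (Real.exp (X - X1) - 1 - (X - X1)) :=
      mul_pos (by linarith only [hT1b]) (by linarith only [h2])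
    linarith only [h3]
  · linarith only [hT1b, hTb, hTb']
  · have h2 := Real.add_one_lt_exp hδ0.ne'
    have h3 : 0 < (-T1) * (Real.exp δ0 - 1 - δ0) := mul_pos (by linarith only [hT1b]) (by linarith only [h2])
    linarith only [h3]
  · intro X hX
    have h1 := hg (X - X1)
    rw [add_sub_cancel] at h1
    rw [h1]
    have h2 := Real.add_one_lt_exp hδ0.ne'
    have h3 : 0 < (-T1) * (Real.exp δ0 - 1 - δ0) := mul_pos (by linarith only [hT1b]) (by linarith only [h2])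
    have h4 : Real.exp δ0 - 1 - δ0 ≤ Real.exp (X - X1) - 1 - (X - X1) := by
      have h5 : Real.exp (X - X1) = Real.exp δ0 * Real.exp (X - X1 - δ0) := by
        rw [← Real.exp_add]
        congr 1
        ring
      have h6 := Real.add_one_le_exp (X - X1 - δ0)
      have h7 : 1 ≤ Real.exp δ0 := Real.one_le_exp hδ0.le
      have h8 : 0 ≤ X - X1 - δ0 := by linarith only [hX]
      nlinarith only [h5, h6, h7, h8]
    have h9 := mul_le_mul_of_nonneg_left h4 (by linarith : (0 : ℝ) ≤ -T1)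
    linarith only [h3, h9]

/-- The lower half of the contour, `TL = 0`: over the saddle point `(X1, 0)`, `X1 + r e^X1 = 0`. -/
theorem lower_zero (h : p.TL = 0) :
    ∃ (X1 : ℝ), ∀ Tb, 0 < Tb → Tb < p.TR →
      ∃ c' < p.g X1 0, ∃ Y0 : ℝ, ∀ Yb : ℝ, Y0 ≤ Yb → ∃ R0 : ℝ, ∀ R : ℝ, R0 ≤ R →
        Chain I (Ph p.ζ) (p.g X1 0) c' (-1 - R * I) [pt X1 0] (pt Yb Tb) := by
  have hr := p.hr
  have hpi := Real.pi_pos
  have hφ : p.φ = Real.pi / 2 := by
    have : p.TL = Real.pi / 2 - p.φ := rfl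
    linarith only [h, this]
  have hTR : p.TR = Real.pi := by
    have : p.TR = 3 * Real.pi / 2 - p.φ := rfl
    rw [this, hφ]
    ring
  obtain ⟨X1, hX1, hX1'⟩ : ∃ X ∈ Icc (-p.r) 0, X + p.r * Real.exp X = 0 := by
    have h1 : ContinuousOn (fun X => X + p.r * Real.exp X) (Icc (-p.r) 0) := by fun_prop
    have h2 : (0 : ℝ) ∈ Icc ((fun X => X + p.r * Real.exp X) (-p.r))
        ((fun X => X + p.r * Real.exp X) 0) := by
      constructor
      · have : Real.exp (-p.r) ≤ 1 := Real.exp_le_one_iff.2 (by linarith only [hr])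
        simp only
        nlinarith only [hr, this]
      · simp only [Real.exp_zero]
        linarith only [hr]
    exact intermediate_value_Icc (by linarith only [hr]) h1 h2
  refine ⟨X1, fun Tb hTb hTb' => ?_⟩
  obtain ⟨δ0, hδ0, hsad⟩ := p.sad (X := X1) (T := 0) (V := 1) (W := 1)
    (by rw [zero_add, hφ, Real.cos_pi_div_two]; ring)
    (by rw [zero_add, hφ, Real.sin_pi_div_two]; linarith only [hX1']) (by linarith only [hX1.2])
  set δ := min δ0 1 with hδ
  have hδpos : 0 < δ := lt_min hδ0 one_pos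
  have hδ1 : δ ≤ 1 := min_le_right _ _
  have hS := hsad δ hδpos (min_le_left _ _)
  have hsin : 0 < Real.sin δ := Real.sin_pos_of_pos_of_lt_pi hδpos (by
    have := Real.pi_gt_three
    linarith only [hδ1, this])
  have hgn : ∀ X, p.g X (-δ) = δ * X + p.r * Real.exp X * Real.sin δ := by
    intro X
    unfold g
    rw [hφ, Real.cos_add_pi_div_two, Real.sin_neg]
    ring
  have hgp : ∀ X, p.g X δ = -(δ * X) - p.r * Real.exp X * Real.sin δ := by
    intro X
    unfold g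
    rw [hφ, Real.cos_add_pi_div_two]
    ring
  have hA : pt X1 0 - (δ * pt 1 1 : ℂ) = pt (X1 - δ) (-δ) := by
    unfold pt
    apply Complex.ext <;> simp
  have hC : pt X1 0 + (δ * pt 1 1 : ℂ) = pt (X1 + δ) δ := by
    unfold pt
    apply Complex.ext <;> simp
  have hAlt : p.g (X1 - δ) (-δ) < p.g X1 0 := by
    have h1 := hS.seg (-1) (by simp) (by norm_num)
    have h2 : pt X1 0 + ((-1 : ℝ) : ℂ) * (δ * pt 1 1 : ℂ) = pt (X1 - δ) (-δ) := by
      rw [← hA]
      push_cast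
      ring
    rw [h2] at h1
    rw [← p.G_pt]
    exact h1
  have hClt : p.g (X1 + δ) δ < p.g X1 0 := by
    have h1 := hS.seg 1 (by simp) (by norm_num)
    have h2 : pt X1 0 + ((1 : ℝ) : ℂ) * (δ * pt 1 1 : ℂ) = pt (X1 + δ) δ := by
      rw [← hC]
      push_cast
      ring
    rw [h2] at h1
    rw [← p.G_pt]
    exact h1
  obtain ⟨c3, hc3, hc3'⟩ := exists_between hClt
  refine N1G1_build p (c3 := c3) hS hA hC (by linarith only [hδpos]) ?_ (by linarith only [h, hδpos]) ?_ hc3' ?_ (by linarith only [h, hTb]) hTb'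
  · intro X hX
    refine lt_of_le_of_lt ?_ hAlt
    rw [hgn, hgn]
    have h1 : Real.exp X ≤ Real.exp (X1 - δ) := Real.exp_le_exp.2 hX
    have h2 : p.r * Real.exp X * Real.sin δ ≤ p.r * Real.exp (X1 - δ) * Real.sin δ := by
      gcongr
    have h3 : δ * X ≤ δ * (X1 - δ) := mul_le_mul_of_nonneg_left hX hδpos.le
    linarith only [h2, h3]
  · rw [hTR]
    have := Real.pi_gt_three
    linarith only [hδ1, this]
  · intro X hX
    refine lt_of_le_of_lt ?_ hc3
    rw [hgp, hgp]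
    have h1 : Real.exp (X1 + δ) ≤ Real.exp X := Real.exp_le_exp.2 hX
    have h2 : p.r * Real.exp (X1 + δ) * Real.sin δ ≤ p.r * Real.exp X * Real.sin δ := by
      gcongr
    have h3 : δ * (X1 + δ) ≤ δ * X := mul_le_mul_of_nonneg_left hX hδpos.le
    linarith only [h2, h3]

end Par0

end SokamN

end

/-! ### Lib_MP_af4de1_v.N1G2 -/

section
namespace SokamV
end SokamV
/-!
# The case `N = 1`, `u = i`: the fingers
-/

namespace SokamN

open SokamV Complex Filter Topology Set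

namespace Par0

variable (p : Par0)

/-- The bottom of the finger. -/
noncomputable def X (T : ℝ) : ℝ := Real.log T - Real.log (p.r * Real.cos (T + p.φ))

noncomputable def f (T : ℝ) : ℝ := T - T * p.X T

noncomputable def f1 (T : ℝ) : ℝ := -p.X T - T * Real.tan (T + p.φ)

private theorem N1G2_TR_pos : 0 < p.TR := by
  have := p.h2
  unfold TR
  linarith only [this]

private theorem N1G2_TR_lt : p.TR < p.TRR := by
  have := Real.pi_pos
  unfold TR TRR
  linarith only [this]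

private theorem N1G2_cos {T : ℝ} (h1 : p.TR < T) (h2 : T < p.TRR) : 0 < Real.cos (T + p.φ) := by
  unfold TR at h1
  unfold TRR at h2
  have h3 : Real.cos (T + p.φ) = Real.cos (T + p.φ - 2 * Real.pi) := (Real.cos_sub_two_pi _).symm
  rw [h3]
  exact Real.cos_pos_of_mem_Ioo ⟨by linarith only [h1], by linarith only [h2]⟩

private theorem N1G2_X {T : ℝ} (h0 : 0 < T) (hc : 0 < Real.cos (T + p.φ)) :
    HasDerivAt p.X (1 / T + Real.tan (T + p.φ)) T := by
  have hr := p.hr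
  have h1 : HasDerivAt (fun T : ℝ => p.r * Real.cos (T + p.φ)) (p.r * (-Real.sin (T + p.φ))) T := by
    have h2 : HasDerivAt (fun T : ℝ => T + p.φ) 1 T := (hasDerivAt_id T).add_const p.φ
    have h3 := h2.cos.const_mul p.r
    rw [mul_one] at h3
    exact h3
  have h2 := (Real.hasDerivAt_log h0.ne').sub (h1.log (mul_pos hr hc).ne')
  refine h2.congr_deriv ?_
  rw [Real.tan_eq_sin_div_cos]
  field_simp
  ring

theorem hasDerivAt_f {T : ℝ} (h1 : p.TR < T) (h2 : T < p.TRR) : HasDerivAt p.f (p.f1 T) T := by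
  have hT : 0 < T := p.N1G2_TR_pos.trans h1
  have h3 := p.N1G2_X hT (p.N1G2_cos h1 h2)
  have h4 := (hasDerivAt_id T).sub ((hasDerivAt_id T).mul h3)
  refine h4.congr_deriv ?_
  unfold f1
  simp only [id]
  field_simp
  ring

private theorem N1G2_f1 {T : ℝ} (h1 : p.TR < T) (h2 : T < p.TRR) :
    HasDerivAt p.f1 (-((1 + T * Real.tan (T + p.φ)) ^ (2 : ℕ) + T ^ (2 : ℕ)) / T) T := by
  have hT : 0 < T := p.N1G2_TR_pos.trans h1
  have hc := p.N1G2_cos h1 h2
  have h3 := p.N1G2_X hT hc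
  have h5 : HasDerivAt (fun T : ℝ => Real.tan (T + p.φ)) (1 / Real.cos (T + p.φ) ^ (2 : ℕ)) T := by
    have h2 : HasDerivAt (fun T : ℝ => T + p.φ) 1 T := (hasDerivAt_id T).add_const p.φ
    have h3 := (Real.hasDerivAt_tan hc.ne').comp T h2
    rw [mul_one] at h3
    exact h3
  have h4 := h3.neg.sub ((hasDerivAt_id T).mul h5)
  refine h4.congr_deriv ?_
  simp only [id]
  have h6 : 1 / Real.cos (T + p.φ) ^ (2 : ℕ) = 1 + Real.tan (T + p.φ) ^ (2 : ℕ) := by
    rw [Real.tan_eq_sin_div_cos]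
    have := Real.sin_sq_add_cos_sq (T + p.φ)
    field_simp
    linarith only [this]
  rw [h6]
  field_simp
  ring

theorem f1_strictAnti : StrictAntiOn p.f1 (Ioo p.TR p.TRR) := by
  refine strictAntiOn_of_deriv_neg (convex_Ioo _ _) (fun T hT => ?_) fun T hT => ?_
  · exact (p.N1G2_f1 hT.1 hT.2).continuousAt.continuousWithinAt
  · rw [interior_Ioo] at hT
    rw [(p.N1G2_f1 hT.1 hT.2).deriv]
    have h0 : 0 < T := p.N1G2_TR_pos.trans hT.1
    refine div_neg_of_neg_of_pos ?_ h0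
    have := sq_nonneg (1 + T * Real.tan (T + p.φ))
    have : 0 < T ^ (2 : ℕ) := by positivity
    linarith

/-- The saddle point of the finger. -/
theorem exists_zero : ∃ T2 ∈ Ioo p.TR p.TRR, p.f1 T2 = 0 := by
  have h0 := p.N1G2_TR_pos
  have h01 := p.N1G2_TR_lt
  have hr := p.hr
  set h : ℝ → ℝ := fun T => (-Real.log T + Real.log p.r) * Real.cos (T + p.φ) +
    Real.cos (T + p.φ) * Real.log (Real.cos (T + p.φ)) - T * Real.sin (T + p.φ) with hh
  have hcont : ContinuousOn h (Icc p.TR p.TRR) := by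
    have h1 : ContinuousOn Real.log (Icc p.TR p.TRR) :=
      Real.continuousOn_log.mono fun T hT => (h0.trans_le hT.1).ne'
    have h2 : Continuous fun T : ℝ => Real.cos (T + p.φ) * Real.log (Real.cos (T + p.φ)) :=
      Real.continuous_mul_log.comp (by fun_prop)
    refine ((h1.neg.add continuousOn_const).mul (by fun_prop)).add h2.continuousOn |>.sub (by fun_prop)
  have hs1 : p.TR + p.φ = 3 * Real.pi / 2 := by unfold TR; ring
  have hs2 : p.TRR + p.φ = 5 * Real.pi / 2 := by unfold TRR; ring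
  have hc1 : Real.cos (3 * Real.pi / 2) = 0 := by
    have : 3 * Real.pi / 2 = Real.pi / 2 + Real.pi := by ring
    rw [this, Real.cos_add_pi, Real.cos_pi_div_two, neg_zero]
  have hc2 : Real.sin (3 * Real.pi / 2) = -1 := by
    have : 3 * Real.pi / 2 = Real.pi / 2 + Real.pi := by ring
    rw [this, Real.sin_add_pi, Real.sin_pi_div_two]
  have hc3 : Real.cos (5 * Real.pi / 2) = 0 := by
    have : 5 * Real.pi / 2 = Real.pi / 2 + 2 * Real.pi := by ring
    rw [this, Real.cos_add_two_pi, Real.cos_pi_div_two]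
  have hc4 : Real.sin (5 * Real.pi / 2) = 1 := by
    have : 5 * Real.pi / 2 = Real.pi / 2 + 2 * Real.pi := by ring
    rw [this, Real.sin_add_two_pi, Real.sin_pi_div_two]
  have e1 : h p.TR = p.TR := by
    simp only [hh, hs1, hc1, hc2]
    ring
  have e2 : h p.TRR = -p.TRR := by
    simp only [hh, hs2, hc3, hc4]
    ring
  have hmem : (0 : ℝ) ∈ Ioo (h p.TRR) (h p.TR) := by
    rw [e1, e2]
    exact ⟨by linarith only [h0, h01], h0⟩
  obtain ⟨T2, hT2, h5⟩ := intermediate_value_Ioo' h01.le hcont hmem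
  refine ⟨T2, hT2, ?_⟩
  have hc := p.N1G2_cos hT2.1 hT2.2
  have h6 : p.f1 T2 * Real.cos (T2 + p.φ) = h T2 := by
    simp only [hh, f1, X]
    rw [Real.log_mul hr.ne' hc.ne', Real.tan_eq_sin_div_cos]
    field_simp
    ring
  rw [h5] at h6
  exact (mul_eq_zero.1 h6).resolve_right hc.ne'

private theorem N1G2_min {x y C : ℝ} (hx : 0 < x) (hC : 0 < C) :
    x - x * (Real.log x - Real.log C) ≤ -y * x + Real.exp y * C := by
  have h1 := Real.add_one_le_exp (y - (Real.log x - Real.log C))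
  have h2 : Real.exp (y - (Real.log x - Real.log C)) = Real.exp y * (C / x) := by
    rw [Real.exp_sub, Real.exp_sub, Real.exp_log hx, Real.exp_log hC]
    field_simp
  rw [h2] at h1
  have h3 := mul_le_mul_of_nonneg_left h1 hx.le
  have h4 : x * (Real.exp y * (C / x)) = Real.exp y * C := by field_simp
  rw [h4] at h3
  linarith only [h3]

/-- The far fingers (concavity). -/
theorem far_lt (NT : ∀ T : ℝ, 0 < T → Real.exp 1 * p.r * Real.cos (T + p.φ) ≤ T) {c : ℝ}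
    (hc : ∀ T ∈ Ioo p.TR p.TRR, p.f T ≤ c) {T : ℝ} (hT : p.TRR ≤ T)
    (h : 0 < Real.cos (T + p.φ)) : p.f T < c := by
  have h0 := p.N1G2_TR_pos
  have h01 := p.N1G2_TR_lt
  have hr := p.hr
  have hπ := Real.pi_pos
  have hφ1 := p.h1
  have hφ2 := p.h2
  have hT0 : 0 < T := by linarith only [hT, h0, h01]
  -- the index of the finger
  set k : ℤ := round ((T + p.φ) / (2 * Real.pi)) with hk
  set θ : ℝ := T + p.φ - 2 * Real.pi * k with hθ
  have hk1 : |(T + p.φ) / (2 * Real.pi) - k| ≤ 1 / 2 := abs_sub_round _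
  have hθ1 : |θ| ≤ Real.pi := by
    have h1 : θ = 2 * Real.pi * ((T + p.φ) / (2 * Real.pi) - k) := by
      rw [hθ]
      field_simp
    rw [h1, abs_mul, abs_of_pos (by positivity)]
    have h2 := mul_le_mul_of_nonneg_left hk1 (by positivity : (0 : ℝ) ≤ 2 * Real.pi)
    linarith only [h2]
  have hcθ : Real.cos θ = Real.cos (T + p.φ) := by
    have h1 : T + p.φ = θ + k * (2 * Real.pi) := by rw [hθ]; ring
    rw [h1, Real.cos_add_int_mul_two_pi]
  have hθ2 : |θ| < Real.pi / 2 := by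
    by_contra hcon
    push Not at hcon
    have h1 : Real.cos |θ| ≤ 0 := Real.cos_nonpos_of_pi_div_two_le_of_le hcon (by linarith only [hθ1, hcon])
    rw [Real.cos_abs, hcθ] at h1
    linarith only [h, h1]
  have hθ3 := abs_lt.1 hθ2
  have hTRR : p.TRR = 5 * Real.pi / 2 - p.φ := rfl
  have hTR : p.TR = 3 * Real.pi / 2 - p.φ := rfl
  have hk2 : (2 : ℝ) ≤ k := by
    have h1 : 2 * Real.pi < 2 * Real.pi * k := by
      have : 2 * Real.pi * k = T + p.φ - θ := by rw [hθ]; ring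
      rw [this]
      linarith only [hT, hθ3, hTRR]
    have h2 : (1 : ℝ) < k := by
      by_contra hcon
      push Not at hcon
      have h3 := mul_le_mul_of_nonneg_left hcon (by positivity : (0 : ℝ) ≤ 2 * Real.pi)
      linarith only [h1, h3]
    have h3 : (1 : ℤ) < k := by exact_mod_cast h2
    have h4 : (2 : ℤ) ≤ k := by omega
    exact_mod_cast h4
  have hd : 0 < 2 * Real.pi - p.φ := by linarith only [hφ1, hφ2]
  have hd2 : 2 * Real.pi - p.φ < 2 * Real.pi * k - p.φ := by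
    have h3 := mul_le_mul_of_nonneg_left hk2 (by positivity : (0 : ℝ) ≤ 2 * Real.pi)
    linarith only [hθ3, h3]
  have hd3 : 0 < 2 * Real.pi * k - p.φ := hd.trans hd2
  set l : ℝ := (2 * Real.pi - p.φ) / (2 * Real.pi * k - p.φ) with hl
  have hl0 : 0 < l := div_pos hd hd3
  have hl1 : l < 1 := (div_lt_one hd3).2 hd2
  have hl2 : l * (2 * Real.pi * k - p.φ) = 2 * Real.pi - p.φ := div_mul_cancel₀ _ hd3.ne'
  have e1 : l * T + p.φ = l * θ + 2 * Real.pi := by
    rw [hθ]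
    linear_combination hl2
  have hlθ : |l * θ| < Real.pi / 2 := by
    rw [abs_mul, abs_of_pos hl0]
    have h3 := mul_le_mul_of_nonneg_right hl1.le (abs_nonneg θ)
    linarith only [hθ2, h3]
  have hlθ2 := abs_lt.1 hlθ
  have hmem : l * T ∈ Ioo p.TR p.TRR := by
    rw [hTR, hTRR]
    constructor <;> linarith
  have hc' := hc _ hmem
  have hcl := p.N1G2_cos hmem.1 hmem.2
  have e2 : Real.cos (l * T + p.φ) = Real.cos (l * θ) := by rw [e1, Real.cos_add_two_pi]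
  -- concavity
  have hconc : l * Real.cos θ + (1 - l) ≤ Real.cos (l * θ) := by
    have h1 := strictConcaveOn_cos_Icc.concaveOn.2 (x := θ) (y := 0)
      ⟨hθ3.1.le, hθ3.2.le⟩ ⟨by linarith only [hlθ2], by linarith only [hlθ2]⟩ hl0.le (by linarith : (0 : ℝ) ≤ 1 - l)
      (by ring)
    simp only [smul_eq_mul, mul_zero, add_zero, Real.cos_zero, mul_one] at h1
    exact h1
  have hlT : 0 < l * T := mul_pos hl0 hT0
  -- value at `l T`
  set X' : ℝ := p.X (l * T) with hX'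
  have e3 : Real.exp X' * (p.r * Real.cos (l * T + p.φ)) = l * T := by
    rw [hX', X, Real.exp_sub, Real.exp_log hlT, Real.exp_log (mul_pos hr hcl)]
    field_simp
  have h7 : p.f T ≤ -X' * T + Real.exp X' * (p.r * Real.cos (T + p.φ)) := by
    exact N1G2_min hT0 (mul_pos hr h)
  have h8 : p.f T ≤ 0 := by
    have h1 := NT T hT0
    have h2 : Real.log (Real.exp 1 * p.r * Real.cos (T + p.φ)) ≤ Real.log T :=
      Real.log_le_log (by positivity) h1
    rw [mul_assoc, Real.log_mul (Real.exp_pos 1).ne' (mul_pos hr h).ne', Real.log_exp] at h2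
    have h3 : 1 ≤ p.X T := by unfold X; linarith only [h2]
    have h4 := mul_le_mul_of_nonneg_left h3 hT0.le
    unfold f
    linarith only [h4]
  have h9 : p.f (l * T) = -X' * (l * T) + Real.exp X' * (p.r * Real.cos (l * T + p.φ)) := by
    rw [e3]
    unfold f
    ring
  have h10 : l * p.f T ≤ l * (-X' * T + Real.exp X' * (p.r * Real.cos (T + p.φ))) :=
    mul_le_mul_of_nonneg_left h7 hl0.le
  have h11 : 0 < Real.exp X' * p.r := mul_pos (Real.exp_pos _) hr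
  have h12 : Real.exp X' * p.r * (l * Real.cos (T + p.φ) + (1 - l)) ≤
      Real.exp X' * p.r * Real.cos (l * T + p.φ) := by
    rw [e2, ← hcθ]
    exact mul_le_mul_of_nonneg_left hconc h11.le
  have h13 : 0 < Real.exp X' * p.r * (1 - l) := mul_pos h11 (by linarith only [hl1])
  have h14 : 1 * p.f T ≤ l * p.f T := mul_le_mul_of_nonpos_right hl1.le h8
  have h15 : l * (-X' * T + Real.exp X' * (p.r * Real.cos (T + p.φ))) = -X' * (l * T) +
      (Real.exp X' * p.r * (l * Real.cos (T + p.φ) + (1 - l)) - Real.exp X' * p.r * (1 - l)) := by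
    ring
  have h16 : Real.exp X' * (p.r * Real.cos (l * T + p.φ)) =
      Real.exp X' * p.r * Real.cos (l * T + p.φ) := by ring
  linarith only [hc', h9, h10, h12, h13, h14]

/-- The clipped curve. -/
noncomputable def Z (K T : ℝ) : ℝ :=
  Real.log T - Real.log (max (p.r * Real.cos (T + p.φ)) (T * Real.exp (-K)))

end Par0

end SokamN

end

/-! ### Lib_MP_af4de1_v.N1G3 -/

section
namespace SokamV
end SokamV
/-!
# The case `N = 1`, `u = i`: the upper half of the contour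
-/

namespace SokamN

open SokamV Complex Filter Topology Set

namespace Par0

variable (p : Par0)

private theorem N1G3_eX {T : ℝ} (hT : 0 < T) (hc : 0 < Real.cos (T + p.φ)) :
    Real.exp (p.X T) * (p.r * Real.cos (T + p.φ)) = T := by
  have h1 := mul_pos p.hr hc
  rw [X, Real.exp_sub, Real.exp_log hT, Real.exp_log h1]
  exact div_mul_cancel₀ _ h1.ne'

private theorem N1G3_g_X {T : ℝ} (hT : 0 < T) (hc : 0 < Real.cos (T + p.φ)) :
    p.g (p.X T) T = p.f T := by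
  have h1 := p.N1G3_eX hT hc
  unfold g f
  linear_combination h1

private theorem N1G3_clip {K T : ℝ} (hT : 0 < T)
    (h : p.r * Real.cos (T + p.φ) ≤ T * Real.exp (-K)) : p.Z K T = K := by
  rw [Z, max_eq_right h, Real.log_mul hT.ne' (Real.exp_pos _).ne', Real.log_exp]
  ring

private theorem N1G3_Z_le {K T : ℝ} (hT : 0 < T) : p.Z K T ≤ K := by
  have h0 : 0 < T * Real.exp (-K) := mul_pos hT (Real.exp_pos _)
  have h1 := Real.log_le_log h0 (le_max_right (p.r * Real.cos (T + p.φ)) (T * Real.exp (-K)))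
  rw [Real.log_mul hT.ne' (Real.exp_pos _).ne', Real.log_exp] at h1
  unfold Z
  linarith only [h1]

private theorem N1G3_Z_cont {K T1 T2 : ℝ} (hT : 0 < T1) : ContinuousOn (p.Z K) (Icc T1 T2) := by
  have h1 : ∀ T ∈ Icc T1 T2, 0 < T := fun T h => hT.trans_le h.1
  have h2 : ContinuousOn Real.log (Icc T1 T2) :=
    Real.continuousOn_log.mono fun T h => (h1 T h).ne'
  refine h2.sub (ContinuousOn.log (by fun_prop) fun T h => ?_)
  have h3 : 0 < T * Real.exp (-K) := mul_pos (h1 T h) (Real.exp_pos _)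
  exact (h3.trans_le (le_max_right _ _)).ne'

private theorem N1G3_g_clip {K T : ℝ} (hT : 0 < T)
    (h : p.r * Real.cos (T + p.φ) ≤ T * Real.exp (-K)) : p.g (p.Z K T) T ≤ -(T * (K - 1)) := by
  rw [p.N1G3_clip hT h]
  have h1 := mul_le_mul_of_nonneg_left h (Real.exp_pos K).le
  have h2 : Real.exp K * (T * Real.exp (-K)) = T := by
    rw [mul_comm T, ← mul_assoc, ← Real.exp_add, add_neg_cancel, Real.exp_zero, one_mul]
  rw [h2] at h1
  unfold g
  linarith only [h1]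

private theorem N1G3_cos {T : ℝ} (h1 : p.TR < T) (h2 : T < p.TRR) : 0 < Real.cos (T + p.φ) := by
  unfold TR at h1
  unfold TRR at h2
  have h3 : Real.cos (T + p.φ) = Real.cos (T + p.φ - 2 * Real.pi) := (Real.cos_sub_two_pi _).symm
  rw [h3]
  exact Real.cos_pos_of_mem_Ioo ⟨by linarith only [h1], by linarith only [h2]⟩

private theorem N1G3_cos_neg {T : ℝ} (h1 : 0 < T) (h2 : T ≤ p.TR) :
    Real.cos (T + p.φ) ≤ 0 := by
  unfold TR at h2
  have h3 := p.h1
  exact Real.cos_nonpos_of_pi_div_two_le_of_le (by linarith only [h1, h3]) (by linarith only [h2])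

/-- horizontal convexity -/
private theorem N1G3_horiz {T Y1 Y2 c : ℝ} (hc : 0 ≤ Real.cos (T + p.φ)) (h1 : p.g Y1 T < c)
    (h2 : p.g Y2 T < c) : SC p.G c (pt Y1 T) (pt Y2 T) := by
  wlog h12 : Y1 ≤ Y2 generalizing Y1 Y2
  · exact (this h2 h1 (le_of_not_ge h12)).symm
  refine p.SC_horiz h12 fun Y hY => ?_
  have hconv : ConvexOn ℝ Set.univ fun Y : ℝ => p.g Y T := by
    have h3 : ConvexOn ℝ Set.univ fun Y : ℝ => (p.r * Real.cos (T + p.φ)) • Real.exp Y :=
      convexOn_exp.smul (mul_nonneg p.hr.le hc)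
    have h4 : ConvexOn ℝ Set.univ fun Y : ℝ => -(Y * T) := by
      refine ⟨convex_univ, fun x _ y _ a b _ _ _ => ?_⟩
      simp only [smul_eq_mul]
      exact le_of_eq (by ring)
    have h5 := h4.add h3
    have e : (fun Y : ℝ => p.g Y T) =
        (fun Y : ℝ => -(Y * T)) + fun Y : ℝ => (p.r * Real.cos (T + p.φ)) • Real.exp Y := by
      funext Y
      simp only [g, Pi.add_apply, smul_eq_mul]
      ring
    rw [e]
    exact h5
  have h3 := hconv.le_max_of_mem_Icc (mem_univ Y1) (mem_univ Y2) hY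
  exact h3.trans_lt (max_lt h1 h2)

/-- The upper half of the contour. -/
theorem upper (NT : ∀ T : ℝ, 0 < T → Real.exp 1 * p.r * Real.cos (T + p.φ) ≤ T) :
    ∃ (X1 T1 : ℝ), p.TR < T1 ∧ ∀ Tb, 0 < Tb → Tb < p.TR →
      ∃ c' < p.g X1 T1, ∃ Y0 : ℝ, ∀ Yb : ℝ, Y0 ≤ Yb → ∃ R0 : ℝ, ∀ R : ℝ, R0 ≤ R →
        Chain I (Ph p.ζ) (p.g X1 T1) c' (pt Yb Tb) [pt X1 T1] (1 + R * I) := by
  obtain ⟨T1, ⟨hT1, hT2⟩, hz⟩ := p.exists_zero
  have hr := p.hr
  have hTR : 0 < p.TR := by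
    have := p.h2
    unfold TR
    linarith only [this]
  have hT0 : 0 < T1 := hTR.trans hT1
  have hcos1 := p.N1G3_cos hT1 hT2
  refine ⟨p.X T1, T1, hT1, fun Tb hb1 hb2 => ?_⟩
  have hg1 : p.g (p.X T1) T1 = p.f T1 := p.N1G3_g_X hT0 hcos1
  rw [hg1]
  set c := p.f T1 with hc
  -- monotonicity of `f`
  have hmono : StrictMonoOn p.f (Ioc p.TR T1) := by
    refine strictMonoOn_of_deriv_pos (convex_Ioc _ _) (fun T hT => ?_) fun T hT => ?_
    · exact (p.hasDerivAt_f hT.1 (hT.2.trans_lt hT2)).continuousAt.continuousWithinAt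
    · rw [interior_Ioc] at hT
      rw [(p.hasDerivAt_f hT.1 (hT.2.trans hT2)).deriv, ← hz]
      exact p.f1_strictAnti ⟨hT.1, hT.2.trans hT2⟩ ⟨hT1, hT2⟩ hT.2
  have hanti : StrictAntiOn p.f (Ico T1 p.TRR) := by
    refine strictAntiOn_of_deriv_neg (convex_Ico _ _) (fun T hT => ?_) fun T hT => ?_
    · exact (p.hasDerivAt_f (hT1.trans_le hT.1) hT.2).continuousAt.continuousWithinAt
    · rw [interior_Ico] at hT
      rw [(p.hasDerivAt_f (hT1.trans hT.1) hT.2).deriv, ← hz]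
      exact p.f1_strictAnti ⟨hT1, hT2⟩ ⟨hT1.trans hT.1, hT.2⟩ hT.1
  have hflt : ∀ T, p.TR < T → T < p.TRR → T ≠ T1 → p.f T < c := by
    intro T h1 h2 h3
    rcases lt_or_gt_of_ne h3 with h | h
    · exact hmono ⟨h1, h.le⟩ ⟨hT1, le_rfl⟩ h
    · exact hanti ⟨le_rfl, hT2⟩ ⟨h.le, h2⟩ h
  have hfle : ∀ T ∈ Ioo p.TR p.TRR, p.f T ≤ c := by
    intro T hT
    rcases eq_or_ne T T1 with h | h
    · rw [h]
    · exact (hflt T hT.1 hT.2 h).le
  -- the clip level
  set M := |c| + 2 with hM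
  have hM0 : 0 < M := by positivity
  have hMc : -M < c - 1 := by
    have := neg_abs_le c
    rw [hM]
    linarith only [this]
  set K := 1 + M / Tb with hK
  have hK1 : 1 ≤ K := by
    have : 0 < M / Tb := div_pos hM0 hb1
    rw [hK]
    linarith only [this]
  have hKT : Tb * (K - 1) = M := by
    rw [hK]
    field_simp
    ring
  have hclipM : ∀ T, Tb ≤ T → p.r * Real.cos (T + p.φ) ≤ T * Real.exp (-K) →
      p.g (p.Z K T) T ≤ -M := by
    intro T h1 h2
    refine (p.N1G3_g_clip (hb1.trans_le h1) h2).trans ?_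
    have : Tb * (K - 1) ≤ T * (K - 1) := mul_le_mul_of_nonneg_right h1 (by linarith only [hK1])
    linarith only [hKT, this]
  have hcosp : ∀ T, Tb ≤ T → T * Real.exp (-K) < p.r * Real.cos (T + p.φ) →
      0 < Real.cos (T + p.φ) := by
    intro T h1 h2
    have h3 : 0 < T * Real.exp (-K) := mul_pos (hb1.trans_le h1) (Real.exp_pos _)
    exact pos_of_mul_pos_right (h3.trans h2) hr.le
  have hZX : ∀ T, T * Real.exp (-K) ≤ p.r * Real.cos (T + p.φ) → p.Z K T = p.X T := by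
    intro T h
    rw [Z, max_eq_left h, X]
  have hB : ∀ T, Tb ≤ T → T ≠ T1 → p.g (p.Z K T) T < c := by
    intro T h1 h2
    have hTp : 0 < T := hb1.trans_le h1
    rcases le_or_gt (p.r * Real.cos (T + p.φ)) (T * Real.exp (-K)) with h3 | h3
    · have := hclipM T h1 h3
      linarith only [hMc, this]
    · have h4 := hcosp T h1 h3
      rw [hZX T h3.le, p.N1G3_g_X hTp h4]
      have h5 : p.TR < T := by
        by_contra hcon
        push Not at hcon
        have := p.N1G3_cos_neg hTp hcon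
        linarith only [h4, this]
      rcases lt_or_ge T p.TRR with h6 | h6
      · exact hflt T h5 h6 h2
      · exact p.far_lt NT hfle h6 h4
  -- the saddle
  have hXT : -p.X T1 - T1 * Real.tan (T1 + p.φ) = 0 := hz
  have heX := p.N1G3_eX hT0 hcos1
  have hs1 : -T1 + p.r * Real.exp (p.X T1) * Real.cos (T1 + p.φ) = 0 := by
    linear_combination heX
  have hs2 : -p.X T1 - p.r * Real.exp (p.X T1) * Real.sin (T1 + p.φ) = 0 := by
    have h1 : p.r * Real.exp (p.X T1) * Real.sin (T1 + p.φ) = T1 * Real.tan (T1 + p.φ) := by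
      rw [Real.tan_eq_sin_div_cos, ← mul_div_assoc, eq_div_iff hcos1.ne']
      linear_combination Real.sin (T1 + p.φ) * heX
    rw [h1]
    exact hXT
  set V := (1 - p.X T1) / T1 with hV
  have hs3 : T1 * V ^ (2 : ℕ) + 2 * (p.X T1 - 1) * V * 1 - T1 * 1 ^ (2 : ℕ) < 0 := by
    have h1 : T1 * V = 1 - p.X T1 := by
      rw [hV]
      field_simp
    have h2 : T1 * V ^ (2 : ℕ) + 2 * (p.X T1 - 1) * V * 1 - T1 * 1 ^ (2 : ℕ) = -(T1 * V ^ (2 : ℕ)) - T1 := by
      linear_combination (2 * V) * h1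
    rw [h2]
    have := mul_nonneg hT0.le (sq_nonneg V)
    linarith only [hT0, this]
  obtain ⟨δ0, hδ0, hsad⟩ := p.sad hs1 hs2 hs3
  rw [hg1] at hsad
  set δ := min δ0 (min ((T1 - p.TR) / 2) ((p.TRR - T1) / 2)) with hδ
  have hδp : 0 < δ := lt_min hδ0 (lt_min (by linarith only [hT1]) (by linarith only [hT2]))
  have hδ1 : δ ≤ δ0 := min_le_left _ _
  have hδ2 : δ ≤ (T1 - p.TR) / 2 := (min_le_right _ _).trans (min_le_left _ _)
  have hδ3 : δ ≤ (p.TRR - T1) / 2 := (min_le_right _ _).trans (min_le_right _ _)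
  have hS := hsad δ hδp hδ1
  have eadd : pt (p.X T1) T1 + (δ : ℂ) * pt V 1 = pt (p.X T1 + δ * V) (T1 + δ) := by
    apply Complex.ext <;> simp [pt]
  have esub : pt (p.X T1) T1 - (δ : ℂ) * pt V 1 = pt (p.X T1 - δ * V) (T1 - δ) := by
    apply Complex.ext <;> simp [pt]
  have hSp : p.g (p.X T1 + δ * V) (T1 + δ) < c := by
    have h1 := hS.seg 1 (by norm_num) one_ne_zero
    rw [Complex.ofReal_one, one_mul, eadd] at h1
    exact (p.G_pt _ _).symm.trans_lt h1
  have hSm : p.g (p.X T1 - δ * V) (T1 - δ) < c := by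
    have h1 := hS.seg (-1) (by norm_num) (by norm_num)
    rw [Complex.ofReal_neg, Complex.ofReal_one, neg_one_mul, ← sub_eq_add_neg, esub] at h1
    exact (p.G_pt _ _).symm.trans_lt h1
  -- far away
  set Ti := max (T1 + δ) (max 1 (p.r * Real.exp (M + 1))) with hTi
  have hTi1 : T1 + δ ≤ Ti := le_max_left _ _
  have hTi2 : 1 ≤ Ti := (le_max_left _ _).trans (le_max_right _ _)
  have hTi3 : p.r * Real.exp (M + 1) ≤ Ti := (le_max_right _ _).trans (le_max_right _ _)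
  have hfar : ∀ T, Ti ≤ T → p.g (p.Z K T) T < c - 1 := by
    intro T h1
    have hTp : 0 < T := by linarith only [hTi2, h1]
    have hTb : Tb ≤ T := by linarith only [hb2, hδp, hδ2, hTi1, h1]
    rcases le_or_gt (p.r * Real.cos (T + p.φ)) (T * Real.exp (-K)) with h3 | h3
    · exact (hclipM T hTb h3).trans_lt hMc
    · have h4 := hcosp T hTb h3
      rw [hZX T h3.le, p.N1G3_g_X hTp h4]
      refine lt_of_le_of_lt ?_ hMc
      have h5 : Real.log (p.r * Real.exp (M + 1)) ≤ Real.log T :=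
        Real.log_le_log (by positivity) (hTi3.trans h1)
      rw [Real.log_mul hr.ne' (Real.exp_pos _).ne', Real.log_exp] at h5
      have h6 : Real.log (p.r * Real.cos (T + p.φ)) ≤ Real.log p.r :=
        Real.log_le_log (mul_pos hr h4) (by
          have h8 := mul_le_mul_of_nonneg_left (Real.cos_le_one (T + p.φ)) hr.le
          linarith only [h8])
      have h7 : 1 + M ≤ p.X T := by
        unfold X
        linarith only [h5, h6]
      have h8 := mul_le_mul_of_nonneg_left h7 hTp.le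
      have h9 : M * 1 ≤ M * T := mul_le_mul_of_nonneg_left (by linarith only [hTi2, h1]) hM0.le
      unfold f
      linarith only [h8, h9]
  -- the pieces
  have c1 : SC p.G c (pt (p.Z K Tb) Tb) (pt (p.Z K (T1 - δ)) (T1 - δ)) := by
    refine p.SC_graph (f := p.Z K) (by linarith only [hb2, hδp, hδ2]) (p.N1G3_Z_cont hb1) fun T hT => ?_
    exact hB T hT.1 (by have := hT.2; intro h; linarith only [hδp, this, h])
  have c2 : SC p.G c (pt (p.Z K (T1 - δ)) (T1 - δ)) (pt (p.X T1 - δ * V) (T1 - δ)) := by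
    refine p.N1G3_horiz (p.N1G3_cos (by linarith only [hδp, hδ2]) (by linarith only [hδp, hδ3])).le (hB _ (by linarith only [hb2, hδp, hδ2]) ?_) hSm
    intro h
    linarith only [hδp, h]
  have c3 : SC p.G c (pt (p.X T1 + δ * V) (T1 + δ)) (pt (p.Z K (T1 + δ)) (T1 + δ)) := by
    refine p.N1G3_horiz (p.N1G3_cos (by linarith only [hδp, hδ2]) (by linarith only [hδp, hδ3])).le hSp (hB _ (by linarith only [hb2, hδp, hδ2]) ?_)
    intro h
    linarith only [hδp, h]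
  have c4 : SC p.G c (pt (p.Z K (T1 + δ)) (T1 + δ)) (pt (p.Z K Ti) Ti) := by
    refine p.SC_graph (f := p.Z K) hTi1 (p.N1G3_Z_cont (by linarith only [hT0, hδp])) fun T hT => ?_
    exact hB T (by linarith only [hb2, hδp, hδ2, hT.1]) (by have := hT.1; intro h; linarith only [hδp, this, h])
  obtain ⟨c12, hc12, hC12⟩ := c1.trans c2
  obtain ⟨c34, hc34, hC34⟩ := c3.trans c4
  refine ⟨max (c - 1) (max c12 c34), max_lt (by linarith only []) (max_lt hc12 hc34), K,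
    fun Yb hYb => ⟨max Ti (p.r * Real.exp K + M + 1), fun R hR => ?_⟩⟩
  have hR1 : Ti ≤ R := (le_max_left _ _).trans hR
  have hR2 : p.r * Real.exp K + M + 1 ≤ R := (le_max_right _ _).trans hR
  have hcb : Real.cos (Tb + p.φ) ≤ 0 := p.N1G3_cos_neg hb1 hb2.le
  have hZb : p.Z K Tb = K := by
    refine p.N1G3_clip hb1 ?_
    have h1 : 0 < Tb * Real.exp (-K) := mul_pos hb1 (Real.exp_pos _)
    have h2 : p.r * Real.cos (Tb + p.φ) ≤ 0 := mul_nonpos_of_nonneg_of_nonpos hr.le hcb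
    linarith only [h1, h2]
  have c0 : SC p.G (c - 1) (pt K Tb) (pt Yb Tb) := by
    refine p.SC_horiz hYb fun Y hY => lt_of_le_of_lt ?_ hMc
    have h1 : p.r * Real.exp Y * Real.cos (Tb + p.φ) ≤ 0 :=
      mul_nonpos_of_nonneg_of_nonpos (mul_pos hr (Real.exp_pos _)).le hcb
    have h2 : K * Tb ≤ Y * Tb := mul_le_mul_of_nonneg_right hY.1 hb1.le
    unfold g
    linarith only [hb1, hKT, h1, h2]
  have c5 : SC p.G (c - 1) (pt (p.Z K Ti) Ti) (pt (p.Z K R) R) := by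
    refine p.SC_graph (f := p.Z K) hR1 (p.N1G3_Z_cont (by linarith only [hTi2])) fun T hT => ?_
    exact hfar T hT.1
  have hRp : 0 < R := by linarith only [hTi2, hR1]
  have c6 : SC p.G (c - 1) (pt 1 R) (pt (p.Z K R) R) := by
    have hZ1 : 1 ≤ p.Z K R := by
      have h1 : max (p.r * Real.cos (R + p.φ)) (R * Real.exp (-K)) ≤ R * Real.exp (-1) := by
        refine max_le ?_ ?_
        · have h2 : p.r * Real.cos (R + p.φ) ≤ p.r := by
            have h8 := mul_le_mul_of_nonneg_left (Real.cos_le_one (R + p.φ)) hr.le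
            linarith only [h8]
          have h3 : p.r * Real.exp 1 ≤ R := by
            have h4 : Real.exp 1 ≤ Real.exp (M + 1) := Real.exp_le_exp.2 (by linarith only [hM0])
            have := mul_le_mul_of_nonneg_left h4 hr.le
            linarith only [hTi3, hR1, this]
          have h5 : p.r = p.r * Real.exp 1 * Real.exp (-1) := by
            rw [mul_assoc, ← Real.exp_add, add_neg_cancel, Real.exp_zero, mul_one]
          have h6 := mul_le_mul_of_nonneg_right h3 (Real.exp_pos (-1)).le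
          linarith only [h2, h5, h6]
        · exact mul_le_mul_of_nonneg_left (Real.exp_le_exp.2 (by linarith only [hK1])) hRp.le
      have h2 : 0 < max (p.r * Real.cos (R + p.φ)) (R * Real.exp (-K)) :=
        (mul_pos hRp (Real.exp_pos _)).trans_le (le_max_right _ _)
      have h3 := Real.log_le_log h2 h1
      rw [Real.log_mul hRp.ne' (Real.exp_pos _).ne', Real.log_exp] at h3
      unfold Z
      linarith only [h3]
    refine p.SC_horiz hZ1 fun Y hY => lt_of_le_of_lt ?_ hMc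
    have hYK : Y ≤ K := hY.2.trans (p.N1G3_Z_le hRp)
    have h1 : Real.exp Y * Real.cos (R + p.φ) ≤ Real.exp K := by
      have h2 := Real.cos_le_one (R + p.φ)
      have h3 := Real.exp_pos Y
      have h4 : Real.exp Y ≤ Real.exp K := Real.exp_le_exp.2 hYK
      have h5 := mul_le_mul_of_nonneg_left h2 h3.le
      linarith only [h4, h5]
    have h2 := mul_le_mul_of_nonneg_left h1 hr.le
    have h3 : 1 * R ≤ Y * R := mul_le_mul_of_nonneg_right hY.1 hRp.le
    unfold g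
    linarith only [hR2, h2, h3]
  have e1 : (1 + R * I : ℂ) = pt 1 R := by
    apply Complex.ext <;> simp [pt]
  obtain ⟨k0, hk0, hK0⟩ := c0.symm
  obtain ⟨k5, hk5, hK5⟩ := c5.trans c6.symm
  rw [hZb] at hC12
  have m0 : k0 ≤ max (c - 1) (max c12 c34) := hk0.le.trans (le_max_left _ _)
  have m5 : k5 ≤ max (c - 1) (max c12 c34) := hk5.le.trans (le_max_left _ _)
  have m12 : c12 ≤ max (c - 1) (max c12 c34) := (le_max_left _ _).trans (le_max_right _ _)
  have m34 : c34 ≤ max (c - 1) (max c12 c34) := (le_max_right _ _).trans (le_max_right _ _)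
  rw [e1]
  refine Chain.cons (v := (δ : ℂ) * pt V 1) ?_ hS (Chain.nil ?_)
  · rw [esub]
    exact (hK0.mono m0).trans (hC12.mono m12)
  · rw [eadd]
    exact (hC34.mono m34).trans (hK5.mono m5)

end Par0

end SokamN

end

/-! ### Lib_MP_af4de1_v.N1G -/

section
namespace SokamV
end SokamV
/-!
# The case `N = 1`, `u = i`
-/

namespace SokamN

open SokamV Complex Filter Topology Set

private theorem N1G_Gp (ζ : ℂ) (X T : ℝ) :
    Gp I ζ X T = -(X * T) + Real.exp X * max ((I * ζ * cexp (T * I)).re) 0 := by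
  rw [Gp, Complex.I_re, Complex.I_im]
  ring

/-- The top height on the line `T` is positive when `T < e C`, `C` at most the coefficient of `e^X`. -/
private theorem N1G_top {ζ : ℂ} {T C : ℝ} (hT : 0 < T) (hC : T < Real.exp 1 * C)
    (h : C ≤ (I * ζ * cexp (T * I)).re) : TopPos I ζ := by
  have he := Real.exp_pos 1
  have hC0 : 0 < C := by
    by_contra hcon
    have : Real.exp 1 * C ≤ 0 := mul_nonpos_of_nonneg_of_nonpos he.le (not_lt.mp hcon)
    linarith only [hT, hC, this]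
  have hTC : 0 < T / C := div_pos hT hC0
  have h1 : Real.log (T / C) < 1 := by
    rw [Real.log_lt_iff_lt_exp hTC, div_lt_iff₀ hC0]
    exact hC
  refine ⟨T, T * (1 - Real.log (T / C)), mul_pos hT (by linarith only [h1]), fun X => ?_⟩
  rw [N1G_Gp]
  have h2 : Real.exp X * C ≤ Real.exp X * max ((I * ζ * cexp (T * I)).re) 0 :=
    mul_le_mul_of_nonneg_left (h.trans (le_max_left _ _)) (Real.exp_pos X).le
  have h3 : T * (X - Real.log (T / C) + 1) ≤ Real.exp X * C := by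
    have h4 := Real.add_one_le_exp (X - Real.log (T / C))
    rw [Real.exp_sub, Real.exp_log hTC] at h4
    calc T * (X - Real.log (T / C) + 1) ≤ T * (Real.exp X / (T / C)) :=
          mul_le_mul_of_nonneg_left h4 hT.le
      _ = Real.exp X * C := by field_simp
  linarith only [h2, h3]

private theorem N1G_re {ζ : ℂ} {r φ : ℝ} (h : I * ζ = r * cexp (φ * I)) (T : ℝ) :
    (I * ζ * cexp (T * I)).re = r * Real.cos (T + φ) := by
  have h1 : I * ζ * cexp (T * I) = ((r : ℝ) : ℂ) * cexp (((T + φ : ℝ) : ℂ) * I) := by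
    rw [h, mul_assoc, ← Complex.exp_add]
    congr 2
    push_cast
    ring
  rw [h1, Complex.re_ofReal_mul, Complex.exp_ofReal_mul_I_re]

/-- The real part of `i ζ` is not positive. -/
private theorem N1G_re_nonpos {ζ : ℂ} (hT : ¬ TopPos I ζ) : (I * ζ).re ≤ 0 := by
  by_contra hcon
  rw [not_le] at hcon
  apply hT
  have hcont : Continuous fun T : ℝ => Real.exp 1 * (I * ζ * cexp (T * I)).re - T := by fun_prop
  have h0 : 0 < Real.exp 1 * (I * ζ * cexp (((0 : ℝ) : ℂ) * I)).re - (0 : ℝ) := by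
    have : (I * ζ * cexp (((0 : ℝ) : ℂ) * I)).re = (I * ζ).re := by simp
    rw [this, sub_zero]
    exact mul_pos (Real.exp_pos 1) hcon
  have h1 : ∀ᶠ T : ℝ in 𝓝 (0 : ℝ), 0 < Real.exp 1 * (I * ζ * cexp (T * I)).re - T :=
    hcont.continuousAt.eventually (lt_mem_nhds h0)
  obtain ⟨T, h2, h3⟩ := ((h1.filter_mono (nhdsWithin_le_nhds (s := Ioi (0 : ℝ)))).and self_mem_nhdsWithin).exists
  exact N1G_top (C := (I * ζ * cexp (T * I)).re) h3 (by linarith only [h2]) le_rfl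

/-- The argument. -/
private theorem N1G_arg {z : ℂ} (hz : z.re ≤ 0) :
    ∃ φ : ℝ, Real.pi / 2 ≤ φ ∧ φ ≤ 3 * Real.pi / 2 ∧ z = ((‖z‖ : ℝ) : ℂ) * cexp (φ * I) := by
  have hpi := Real.pi_pos
  have h1 := Complex.norm_mul_exp_arg_mul_I z
  by_cases hz0 : z = 0
  · exact ⟨Real.pi / 2, le_rfl, by linarith only [hpi], by rw [hz0]; simp⟩
  have hn : 0 < ‖z‖ := norm_pos_iff.mpr hz0
  have h2 : z.re = ‖z‖ * Real.cos z.arg := (Complex.norm_mul_cos_arg z).symm
  have h3 : Real.cos z.arg ≤ 0 := by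
    by_contra hcon
    have := mul_pos hn (not_le.mp hcon)
    linarith only [hz, h2, this]
  by_cases h4 : Real.pi / 2 ≤ z.arg
  · exact ⟨z.arg, h4, by linarith only [h4, Complex.arg_le_pi z], h1.symm⟩
  · have h5 : z.arg ≤ -(Real.pi / 2) := by
      by_contra hcon
      have := Real.cos_pos_of_mem_Ioo ⟨not_le.mp hcon, not_le.mp h4⟩
      linarith only [h3, this]
    refine ⟨z.arg + 2 * Real.pi, by linarith only [h5, Complex.neg_pi_lt_arg z], by linarith only [h5], ?_⟩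
    have h6 : cexp (((z.arg + 2 * Real.pi : ℝ) : ℂ) * I) = cexp (z.arg * I) := by
      have : (((z.arg + 2 * Real.pi : ℝ) : ℂ) * I) = z.arg * I + 2 * Real.pi * I := by push_cast; ring
      rw [this, Complex.exp_add, Complex.exp_two_pi_mul_I, mul_one]
    rw [h6]
    exact h1.symm

/-- The case `u = i`. -/
theorem static_re_zero {ζ : ℂ} (hζ : Real.exp (-1) ≤ ‖ζ‖) (htip : ζ ≠ -Real.exp (-1))
    (hT : ¬ TopPos I ζ) :
    ∃ (c : ℝ) (L : List ℂ), Good I ζ c L ∧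
      ((∃ S, L = [S]) ∨ ∃ S1 S2, S1 ≠ S2 ∧ L = [S1, S2]) := by
  have hpi := Real.pi_pos
  have he := Real.exp_pos 1
  have hr : 0 < ‖ζ‖ := (Real.exp_pos (-1)).trans_le hζ
  obtain ⟨φ, hφ1, hφ2, hz⟩ := N1G_arg (N1G_re_nonpos hT)
  have hn : ‖I * ζ‖ = ‖ζ‖ := by rw [norm_mul, Complex.norm_I, one_mul]
  rw [hn] at hz
  have hre := N1G_re hz
  have hζe : ζ = -I * (((‖ζ‖ : ℝ) : ℂ) * cexp (φ * I)) := by
    rw [← hz, ← mul_assoc, neg_mul, Complex.I_mul_I, neg_neg, one_mul]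
  have NT : ∀ T : ℝ, 0 < T → Real.exp 1 * ‖ζ‖ * Real.cos (T + φ) ≤ T := by
    intro T h1
    by_contra hcon
    rw [not_le, mul_assoc] at hcon
    exact hT (N1G_top h1 hcon (hre T).ge)
  have hφ3 : φ < 3 * Real.pi / 2 := by
    refine lt_of_le_of_ne hφ2 fun h3 => ?_
    have hζr : ζ = -((‖ζ‖ : ℝ) : ℂ) := by
      have h4 : cexp (φ * I) = -I := by
        rw [h3]
        have : ((3 * Real.pi / 2 : ℝ) : ℂ) * I = Real.pi * I + ((Real.pi / 2 : ℝ) : ℂ) * I := by
          push_cast; ring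
        rw [this, Complex.exp_add, Complex.exp_pi_mul_I, Complex.exp_ofReal_mul_I]
        apply Complex.ext <;> simp
      rw [h4] at hζe
      have h5 : -I * (((‖ζ‖ : ℝ) : ℂ) * -I) = -((‖ζ‖ : ℝ) : ℂ) := by
        linear_combination ((‖ζ‖ : ℝ) : ℂ) * Complex.I_mul_I
      rw [h5] at hζe
      exact hζe
    have h6 : Real.exp (-1) < ‖ζ‖ := by
      refine lt_of_le_of_ne hζ fun h7 => htip ?_
      rw [hζr, ← h7]
    set K := Real.exp 1 * ‖ζ‖ with hK
    have hK1 : 1 < K := by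
      have : Real.exp 1 * Real.exp (-1) = 1 := by rw [← Real.exp_add]; norm_num
      calc 1 = Real.exp 1 * Real.exp (-1) := this.symm
        _ < Real.exp 1 * ‖ζ‖ := mul_lt_mul_of_pos_left h6 he
    have hK0 : 0 < K := by linarith only [hK1]
    have hT0 : 0 < 1 - 1 / K := by
      rw [sub_pos, div_lt_one hK0]
      exact hK1
    have hT1 : 1 - 1 / K ≤ 1 := by
      have : 0 < 1 / K := by (clear * - hr; positivity)
      linarith only [this]
    obtain ⟨T, hTd⟩ : ∃ T, T = 1 - 1 / K := ⟨_, rfl⟩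
    rw [← hTd] at hT0 hT1
    have h7 := NT T hT0
    have h8 : Real.cos (T + φ) = Real.sin T := by
      rw [h3, show T + 3 * Real.pi / 2 = (T - Real.pi / 2) + 2 * Real.pi by ring, Real.cos_add_two_pi,
        Real.cos_sub_pi_div_two]
    rw [h8] at h7
    have h9 : T - T ^ (3 : ℕ) / 4 < Real.sin T := by
      have h9' := Real.sin_gt_sub_cube hT0
      have : 0 < T ^ (3 : ℕ) := by (clear * - hT0; positivity)
      linarith only [h9', this]
    have h10 : K * T = K - 1 := by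
      rw [hTd]
      field_simp
    have h11 : K * (T - T ^ (3 : ℕ) / 4) < T := (mul_lt_mul_of_pos_left h9 hK0).trans_le h7
    have h12 : T ^ (2 : ℕ) ≤ 1 := by nlinarith only [hT1, hT0]
    have h13 : K * (T - T ^ (3 : ℕ) / 4) = (K - 1) * (1 - T ^ (2 : ℕ) / 4) := by
      rw [← h10]
      ring
    have h14 : T ≤ K - 1 := by
      rw [← h10]
      nlinarith only [hK1, hT0]
    have h15 : T ^ (2 : ℕ) ≤ T := by nlinarith only [h11, h12, h13]
    -- `K - 1 = K T`, `(K - 1)(1 - T ^ 2 / 4) < T`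
    have h16 : K * (1 - T ^ (2 : ℕ) / 4) < 1 := by
      have : T * (K * (1 - T ^ (2 : ℕ) / 4)) < T * 1 := by
        calc T * (K * (1 - T ^ (2 : ℕ) / 4)) = K * (T - T ^ (3 : ℕ) / 4) := by ring
          _ < T := h11
          _ = T * 1 := (mul_one T).symm
      exact lt_of_mul_lt_mul_left this hT0.le
    nlinarith only [h12, h14, h15, h16]
  set p : Par0 := ⟨‖ζ‖, φ, hr, hφ1, hφ3⟩ with hp
  have hpζ : p.ζ = ζ := hζe.symm
  have hTR : 0 < p.TR := by
    show 0 < 3 * Real.pi / 2 - φ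
    linarith only [hφ3]
  have hTL : p.TL ≤ 0 := by
    show Real.pi / 2 - φ ≤ 0
    linarith only [hφ1]
  obtain ⟨X2, T2, hT2, hup⟩ := p.upper NT
  have hb1 : 0 < p.TR / 2 := by linarith only [hTR]
  have hb2 : p.TR / 2 < p.TR := by linarith only [hb1]
  have hup' := hup (p.TR / 2) hb1 hb2
  rcases hTL.lt_or_eq with h | h
  · obtain ⟨X1, T1, hT1, hlow⟩ := p.lower_neg h
    have hne : Par0.pt X1 T1 ≠ Par0.pt X2 T2 := by
      intro hcon
      have : T1 = T2 := congrArg Complex.im hcon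
      linarith only [hT2, hb1, hT1, this]
    have := good_of_two (u := I) (ζ := p.ζ) hne (fun Yb => Par0.pt Yb (p.TR / 2)) (hlow (p.TR / 2) hb1 hb2) hup'
    rwa [hpζ] at this
  · obtain ⟨X1, hlow⟩ := p.lower_zero h
    have hne : Par0.pt X1 0 ≠ Par0.pt X2 T2 := by
      intro hcon
      have : (0 : ℝ) = T2 := congrArg Complex.im hcon
      linarith only [hT2, hb1, this]
    have := good_of_two (u := I) (ζ := p.ζ) hne (fun Yb => Par0.pt Yb (p.TR / 2)) (hlow (p.TR / 2) hb1 hb2) hup'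
    rwa [hpζ] at this

end SokamN

end

/-! ### Lib_MP_af4de1_v.N1 -/

section
namespace SokamN
end SokamN
/-!
# The static statement for `N = 1`
-/

namespace SokamV

open Complex SokamN

theorem static_N1 {u ζ : ℂ} (hu : ‖u‖ = 1) (ha : 0 ≤ u.re) (hb : 0 ≤ u.im)
    (hζ : Real.exp (-1) ≤ ‖ζ‖) (htip : ζ ≠ -Real.exp (-1)) (hT : ¬ TopPos u ζ) :
    ∃ (c : ℝ) (L : List ℂ), Good u ζ c L ∧
      ((∃ S, L = [S]) ∨ ∃ S1 S2, S1 ≠ S2 ∧ L = [S1, S2]) := by
  have hζ0 : ζ ≠ 0 := by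
    rintro rfl
    have := Real.exp_pos (-1)
    simp at hζ
    linarith
  rcases ha.lt_or_eq with ha | ha
  · exact static_re_pos hu ha hζ0 htip hT
  · have h1 : u = I := by
      have h2 : u.re ^ (2 : ℕ) + u.im ^ (2 : ℕ) = 1 := by
        have h3 := Complex.sq_norm u
        rw [hu, Complex.normSq_apply] at h3
        nlinarith
      rw [← ha] at h2
      have h4 : u.im = 1 := by nlinarith
      apply Complex.ext
      · simp [← ha]
      · simp [h4]
    rw [h1] at hT ⊢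
    exact static_re_zero hζ htip hT

end SokamV

end

/-! ### Lib_MP_af4de1_v.TipI -/

section
/-!
# `u = I`: the contour to the tip and the contour at the other lift [SV-TIPI]

`tipConn_I`: `g(X,T) = Gh I (-e⁻¹) (X+TI) = -XT + e^{X-1} sin T` (`Gh_eq`, `Fibre.lean`).  `(I : ℂ).arg = π/2`, `ep I = cexp(πI/2) = I`, `em I = cexp(-(5π/6)I) = -√3/2 - I/2`.
UPPER: on `X = 1`: `g = -T + sin T`, nonincreasing in `T`; the vertical segment from `1+ρI` to `1+RI` has `g ≤ -ρ + sin ρ < 0`.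
LOWER: start `X0 = 1-a`, `T = -b`, `a = ρ√3/2`, `b = ρ/2`.  For `T < 0`, `g = X|T| - e^{X-1} sin|T|`, for `|T| < π` increasing in `X ≤ 1`: move horizontally from `X0` to `-1`, then on `X = -1`
`g = -|T| - e^{-2} sin|T|` is decreasing in `|T|`: vertically down to `-1-RI`.  So all values are `≤ g(X0,-b) = (1-a)b - e^{-a}sin b < 0` for small `ρ`
(`e^{-a} ≥ 1-a+a²/2-a³/6`, `sin b ≥ b-b³/6`, `a = √3 b`: `≤ b(b²/6 - a²/2 + a³/6 + …) < 0`), take half of the larger of the two levels as `c'`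
(`c' < 0 = -u.re/2`).

`static_diag`: `g(X,T) = Gh I (e⁻¹) (X+TI) = -XT - e^{X-1} sin T`.  Real `S` with `S + e^{S-1} = 0`, `-1 < S < 0` (intermediate values).  `c = 0`.  `Sad I (Ph e⁻¹) 0 S v`, `v = δe^{πI/4}`,
`δ` small: `deriv_Ph`, `deriv_deriv_Ph` (`TopB.lean`): `I(1+e^{S-1})v² = -(1-S)δ²`; height `g(S,0) = 0`; with `x = s δ/√2`, `W = -S`: `g(S+x,x) = W(x - e^x sin x) - x²`, and
`x - e^x sin x ≤ x²/2` for `|x| ≤ 1/2` (for `x ≥ 0` it is `≤ 0`, for `x = -y`: `e^{-y} sin y ≤ y`): `< 0` for `x ≠ 0`.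
UPPER: from `S+v` (`X = S+d`, `T = d = δ/√2`) horizontally to the right to `X = 1` (`g` decreases in `X` for `0 < T < π`), then on `X = 1` `g = -T - sin T` nonincreasing: up to `1+RI`.
LOWER: for `T = -|T|`, `g = X|T| + e^{X-1}sin|T|`, increasing in `X` for `|T| < π`: from `S-v` horizontally to the left to `X = -1` (`S - d > -1`), then on `X = -1` `g = -|T| + e^{-2}sin|T|`, decreasing in `|T|`.
All values `≤ max(g(S+v), g(S-v)) < 0`: `c'` = half of it.
-/

namespace SokamV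

open Complex Filter Topology

private theorem ti_exp (X T : ℝ) (w : ℝ) :
    Gh I ((w : ℂ) * cexp (-1)) (X + T * I) = -(X * T) - w * (Real.exp (X - 1) * Real.sin T) := by
  rw [Gh_eq]
  have h1 : (I * ((w : ℂ) * cexp (-1)) * cexp (T * I)).re = -(w * (Real.exp (-1) * Real.sin T)) := by
    have h2 : cexp (-1) = ((Real.exp (-1) : ℝ) : ℂ) := by push_cast; rfl
    have h3 : I * ((w : ℂ) * cexp (-1)) * cexp (T * I) =
        ((w * Real.exp (-1) : ℝ) : ℂ) * (I * cexp (T * I)) := by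
      rw [h2]; push_cast; ring
    rw [h3, re_ofReal_mul, I_mul_re, exp_ofReal_mul_I_im]
    ring
  rw [h1, Real.exp_sub, Real.exp_neg, I_re, I_im]
  have := Real.exp_pos 1
  field_simp
  ring

private theorem g_minus (X T : ℝ) : Gh I (-cexp (-1)) (X + T * I) =
    -(X * T) + Real.exp (X - 1) * Real.sin T := by
  have h := ti_exp X T (-1)
  have e : ((-1 : ℝ) : ℂ) * cexp (-1) = -cexp (-1) := by push_cast; ring
  rw [e] at h
  rw [h]; ring

private theorem g_plus (X T : ℝ) : Gh I (cexp (-1)) (X + T * I) =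
    -(X * T) - Real.exp (X - 1) * Real.sin T := by
  have h := ti_exp X T 1
  have e : ((1 : ℝ) : ℂ) * cexp (-1) = cexp (-1) := by push_cast; ring
  rw [e] at h
  rw [h]; ring

private theorem conn_h {g : ℂ → ℝ} {c X X' T : ℝ} (hX : X ≤ X')
    (h : ∀ x : ℝ, X ≤ x → x ≤ X' → g (x + T * I) < c) :
    Conn g c (X + T * I) (X' + T * I) := by
  apply Conn.segment
  intro s h0 h1
  have e : (X + T * I : ℂ) + s * ((X' + T * I) - (X + T * I)) =
      ((X + s * (X' - X) : ℝ) : ℂ) + T * I := by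
    push_cast; ring
  rw [e]
  apply h
  · nlinarith only [hX, h0]
  · nlinarith only [hX, h1]

private theorem conn_v {g : ℂ → ℝ} {c X T T' : ℝ} (hT : T ≤ T')
    (h : ∀ y : ℝ, T ≤ y → y ≤ T' → g (X + y * I) < c) :
    Conn g c (X + T * I) (X + T' * I) := by
  apply Conn.segment
  intro s h0 h1
  have e : (X + T * I : ℂ) + s * ((X + T' * I) - (X + T * I)) =
      (X : ℂ) + ((T + s * (T' - T) : ℝ) : ℂ) * I := by
    push_cast; ring
  rw [e]
  apply h
  · nlinarith only [hT, h0]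
  · nlinarith only [hT, h1]

private theorem sin_diff {x y : ℝ} (h : x ≤ y) : |Real.sin y - Real.sin x| ≤ y - x := by
  have := Real.abs_sin_sub_sin_le y x
  rwa [abs_of_nonneg (by linarith : 0 ≤ y - x)] at this

private theorem ep_I : ep I = I := by
  unfold ep
  rw [arg_I]
  have : ((2 * Real.pi / 3 - ((Real.pi / 2 : ℝ) : ℂ) / 3) * I : ℂ) = (Real.pi / 2 : ℂ) * I := by
    push_cast; ring
  rw [this, exp_pi_div_two_mul_I]

private theorem em_I : em I = ((-(Real.sqrt 3 / 2) : ℝ) : ℂ) + ((-(1 / 2) : ℝ) : ℂ) * I := by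
  unfold em
  rw [arg_I]
  have : ((-(2 * Real.pi / 3) - ((Real.pi / 2 : ℝ) : ℂ) / 3) * I : ℂ) =
      ((-(Real.pi - Real.pi / 6) : ℝ) : ℂ) * I := by
    push_cast; ring
  rw [this, exp_mul_I, ← ofReal_cos, ← ofReal_sin, Real.cos_neg, Real.sin_neg, Real.cos_pi_sub,
    Real.sin_pi_sub, Real.cos_pi_div_six, Real.sin_pi_div_six]

/-- The value at the start of the lower path is negative. -/
private theorem low_neg {a b : ℝ} (hb : 0 < b) (hb1 : b ≤ 1 / 4) (hab : a ^ (2 : ℕ) = 3 * b ^ (2 : ℕ))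
    (ha : 0 < a) : (1 - a) * b - Real.exp (-a) * Real.sin b < 0 := by
  have ha1 : a ≤ 0.44 := by nlinarith
  have h1 := Real.sin_gt_sub_cube hb
  have h2 := Real.exp_bound (x := -a) (by rw [abs_neg, abs_of_pos ha]; linarith only [ha1]) (n := 3)
    (by norm_num)
  simp only [Finset.sum_range_succ, Finset.sum_range_zero, Nat.factorial, abs_neg,
    abs_of_pos ha] at h2
  norm_num at h2
  have h3 := (abs_le.1 h2).1
  have h4 : 1 - a + a ^ (2 : ℕ) / 2 - 2 / 9 * a ^ (3 : ℕ) ≤ Real.exp (-a) := by linarith only [h3]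
  have h5 : 0 < b - b ^ (3 : ℕ) / 6 := by nlinarith only [hb, hb1, hab]
  have h6 : a ^ (3 : ℕ) = 3 * b ^ (2 : ℕ) * a := by rw [pow_succ, hab]
  have h7 : (1 - a + a ^ (2 : ℕ) / 2 - 2 / 9 * a ^ (3 : ℕ)) * (b - b ^ (3 : ℕ) / 6) ≤
      Real.exp (-a) * Real.sin b := by
    calc _ ≤ Real.exp (-a) * (b - b ^ (3 : ℕ) / 6) := mul_le_mul_of_nonneg_right h4 h5.le
      _ ≤ _ := mul_le_mul_of_nonneg_left h1.le (Real.exp_pos _).le
  refine lt_of_le_of_lt (sub_le_sub_left h7 _) ?_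
  rw [h6, hab]
  have h8 : (1 - a) * b - (1 - a + 3 * b ^ (2 : ℕ) / 2 - 2 / 9 * (3 * b ^ (2 : ℕ) * a)) * (b - b ^ (3 : ℕ) / 6) =
      -(b ^ (3 : ℕ) * (3 / 2 - 2 / 3 * a - 1 / 6 * (1 - a) - b ^ (2 : ℕ) / 4 + b ^ (2 : ℕ) * a / 9)) := by ring
  rw [h8]
  have h9 : 0 < b ^ (3 : ℕ) := pow_pos hb 3
  have h10 : 0 < 3 / 2 - 2 / 3 * a - 1 / 6 * (1 - a) - b ^ (2 : ℕ) / 4 + b ^ (2 : ℕ) * a / 9 := by
    nlinarith only [hb, hb1, hab, ha]
  have := mul_pos h9 h10
  linarith only [this]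

theorem tipConn_I : TipConn I := by
  refine ⟨1 / 2, by norm_num, fun ρ hρ hρ1 => ?_⟩
  have hs3 : √(3 : ℝ) ^ (2 : ℕ) = 3 := Real.sq_sqrt (by norm_num)
  have hs0 : 0 < √(3 : ℝ) := Real.sqrt_pos.2 (by norm_num)
  have hs2 : √(3 : ℝ) ≤ 1.74 := by nlinarith only [hs3]
  set a : ℝ := ρ * (√3 / 2) with ha
  set b : ℝ := ρ * (1 / 2) with hb
  have ha0 : 0 < a := by positivity
  have hb0 : 0 < b := by (clear * - hρ; positivity)
  have hb1 : b ≤ 1 / 4 := by rw [hb]; linarith only [hρ1]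
  have ha1 : a ≤ 1 / 2 := by rw [ha]; nlinarith only [hρ, hρ1, hs2]
  have hab : a ^ (2 : ℕ) = 3 * b ^ (2 : ℕ) := by rw [ha, hb]; ring_nf; rw [hs3]; ring
  have m1 : -ρ + Real.sin ρ < 0 := by linarith only [Real.sin_lt hρ]
  have m2 := low_neg hb0 hb1 hab ha0
  have hsb : 0 < Real.sin b := Real.sin_pos_of_pos_of_lt_pi hb0
    (by linarith only [hb1, Real.pi_gt_three])
  have hsb' : Real.sin b < b := Real.sin_lt hb0
  have hEp : (1 : ℂ) + ρ * ep I = ((1 : ℝ) : ℂ) + (ρ : ℂ) * I := by rw [ep_I]; push_cast; ring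
  have hEm : (1 : ℂ) + ρ * em I = ((1 - a : ℝ) : ℂ) + ((-b : ℝ) : ℂ) * I := by
    rw [em_I, ha, hb]; push_cast; ring
  set c' : ℝ := max (-ρ + Real.sin ρ) ((1 - a) * b - Real.exp (-a) * Real.sin b) / 2 with hc'
  have hmax : max (-ρ + Real.sin ρ) ((1 - a) * b - Real.exp (-a) * Real.sin b) < 0 := max_lt m1 m2
  have hc1 : -ρ + Real.sin ρ < c' := by
    have := le_max_left (-ρ + Real.sin ρ) ((1 - a) * b - Real.exp (-a) * Real.sin b)
    rw [hc']; linarith only [hmax, this]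
  have hc2 : (1 - a) * b - Real.exp (-a) * Real.sin b < c' := by
    have := le_max_right (-ρ + Real.sin ρ) ((1 - a) * b - Real.exp (-a) * Real.sin b)
    rw [hc']; linarith only [hmax, this]
  have hc0 : c' < -I.re / 2 := by
    rw [I_re, hc']; linarith only [hmax]
  refine ⟨c', hc0, 1, fun R hR => ⟨?_, ?_⟩⟩
  · -- the values on the horizontal line `T = -b`
    have hor : ∀ x : ℝ, x ≤ 1 - a →
        x * b - Real.exp (x - 1) * Real.sin b ≤ (1 - a) * b - Real.exp (-a) * Real.sin b := by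
      intro x hx
      have e1 : Real.exp (x - 1) = Real.exp (x - (1 - a)) * Real.exp (-a) := by
        rw [← Real.exp_add]; congr 1; ring
      have e2 := Real.add_one_le_exp (x - (1 - a))
      have e3 : Real.exp (-a) ≤ 1 := Real.exp_le_one_iff.2 (by linarith only [ha0])
      have e4 := Real.exp_pos (-a)
      have e5 : Real.exp (-a) * Real.sin b ≤ b := by nlinarith only [hsb, hsb', e3]
      rw [e1]
      have e6 : (1 - (1 - a - x)) * (Real.exp (-a) * Real.sin b) ≤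
          Real.exp (x - (1 - a)) * (Real.exp (-a) * Real.sin b) := by
        apply mul_le_mul_of_nonneg_right _ (by (clear * - hsb; positivity))
        linarith only [e2]
      have e7 : (1 - a - x) * (Real.exp (-a) * Real.sin b) ≤ (1 - a - x) * b :=
        mul_le_mul_of_nonneg_left e5 (by linarith only [hx])
      linarith only [e6, e7]
    rw [hEm]
    have hA : (-1 - R * I : ℂ) = ((-1 : ℝ) : ℂ) + ((-R : ℝ) : ℂ) * I := by push_cast; ring
    rw [hA]
    refine Conn.trans (B := ((-1 : ℝ) : ℂ) + ((-b : ℝ) : ℂ) * I) (conn_v (by linarith only [hb1, hR]) ?_)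
      (conn_h (by linarith only [ha1]) ?_)
    · intro y hy1 hy2
      rw [g_minus]
      have h1 := hor (-1) (by linarith only [ha1])
      have h2 := sin_diff hy2
      rw [Real.sin_neg] at h2
      have h3 := abs_le.1 h2
      have h4 : Real.exp (-1 - 1) ≤ 1 := Real.exp_le_one_iff.2 (by norm_num)
      have h5 := Real.exp_pos (-1 - 1)
      have h6 : Real.exp (-1 - 1) * (Real.sin y + Real.sin b) ≤ 1 * (-b - y) := by
        have h7 : Real.sin y + Real.sin b ≤ -b - y := by linarith only [h3.1]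
        calc _ ≤ Real.exp (-1 - 1) * (-b - y) := mul_le_mul_of_nonneg_left h7 h5.le
          _ ≤ _ := mul_le_mul_of_nonneg_right h4 (by linarith only [h3])
      linarith only [hc2, h1, h6]
    · intro x _ hx2
      rw [g_minus, Real.sin_neg]
      have h1 := hor x hx2
      linarith only [hc2, h1]
  · rw [hEp]
    have hB : (1 + R * I : ℂ) = ((1 : ℝ) : ℂ) + ((R : ℝ) : ℂ) * I := by push_cast; ring
    rw [hB]
    refine conn_v (by linarith only [hρ, hρ1, hR]) ?_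
    intro y hy1 _
    rw [g_minus, sub_self, Real.exp_zero]
    have h3 := abs_le.1 (sin_diff hy1)
    linarith only [hc1, h3.2]

end SokamV

end

/-! ### Lib_MP_af4de1_v.Final -/

section
/-!
# Large multiple zeros near a root of unity with `t z` bounded
-/

namespace SokamV

open Complex Filter Topology

section par

variable {t ζ : ℕ → ℂ} {ζ0 u0 : ℂ}

theorem Par.norm_dir (h : Par t ζ ζ0 u0) : ‖u0‖ = 1 := by
  have h1 := h.dir.norm
  have h2 : ∀ n, ‖(‖t n‖ : ℂ) / t n‖ = 1 := fun n => by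
    rw [norm_div, Complex.norm_real, norm_norm, div_self (norm_ne_zero_iff.2 (h.ne n))]
  simp only [h2] at h1
  exact (tendsto_const_nhds_iff.1 h1).symm

theorem dir_re {w : ℂ} (h : 0 ≤ w.re) : 0 ≤ ((‖w‖ : ℂ) / w).re := by
  rw [div_eq_mul_inv, Complex.re_ofReal_mul, Complex.inv_re]
  exact mul_nonneg (norm_nonneg _) (div_nonneg h (Complex.normSq_nonneg _))

theorem dir_im {w : ℂ} (h : w.im ≤ 0) : 0 ≤ ((‖w‖ : ℂ) / w).im := by
  rw [div_eq_mul_inv, Complex.im_ofReal_mul, Complex.inv_im]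
  exact mul_nonneg (norm_nonneg _) (div_nonneg (neg_nonneg.2 h) (Complex.normSq_nonneg _))

theorem Par.dir_re (h : Par t ζ ζ0 u0) : 0 ≤ u0.re :=
  ge_of_tendsto ((Complex.continuous_re.tendsto _).comp h.dir)
    (Eventually.of_forall fun n => SokamV.dir_re (h.re n))

theorem Par.dir_im (h : Par t ζ ζ0 u0) : 0 ≤ u0.im :=
  ge_of_tendsto ((Complex.continuous_im.tendsto _).comp h.dir)
    (Eventually.of_forall fun n => SokamV.dir_im (h.im n))

theorem Par.eq_I (h : Par t ζ ζ0 u0) (h0 : u0.re = 0) : u0 = I := by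
  have h1 := h.norm_dir
  have h2 := h.dir_im
  have h3 : ‖u0‖ ^ (2 : ℕ) = u0.re ^ (2 : ℕ) + u0.im ^ (2 : ℕ) := by
    rw [Complex.sq_norm, Complex.normSq_apply]; ring
  rw [h1, h0] at h3
  have h4 : u0.im = 1 := by nlinarith
  apply Complex.ext
  · simp [h0]
  · simp [h4]

theorem Par.neg (h : Par t ζ ζ0 u0) : Par t (fun n => -ζ n) (-ζ0) u0 :=
  ⟨h.ne, h.re, h.im, h.lim, h.dir, h.zet.neg⟩

end par

/-- `Ev` and `Dv` vanish with `E` and `DE`. -/
theorem comb_Ev {N : ℕ} {g : ℕ → ℂ} {t ζ : ℂ}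
    (h : ∑ m ∈ Finset.range N, g m * SokamU.E t (lift N ζ m / t * cexp (-t / 2)) = 0) :
    ∑ m ∈ Finset.range N, g m * Ev t (lift N ζ m) = 0 := by
  have : ∑ m ∈ Finset.range N, g m * Ev t (lift N ζ m) =
      (∑ m ∈ Finset.range N, g m * SokamU.E t (lift N ζ m / t * cexp (-t / 2))) *
        ((2 * Real.pi * t) ^ (1 / 2 : ℂ) * I) := by
    rw [Finset.sum_mul]
    refine Finset.sum_congr rfl fun m _ => ?_
    unfold Ev
    ring
  rw [this, h, zero_mul]

theorem comb_Dv {N : ℕ} {g : ℕ → ℂ} {t ζ : ℂ}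
    (h : ∑ m ∈ Finset.range N, g m * SokamU.DE t (lift N ζ m / t * cexp (-t / 2)) = 0) :
    ∑ m ∈ Finset.range N, g m * Dv t (lift N ζ m) = 0 := by
  have : ∑ m ∈ Finset.range N, g m * Dv t (lift N ζ m) =
      (∑ m ∈ Finset.range N, g m * SokamU.DE t (lift N ζ m / t * cexp (-t / 2))) *
        (t * (2 * Real.pi * t) ^ (1 / 2 : ℂ) * I) := by
    rw [Finset.sum_mul]
    refine Finset.sum_congr rfl fun m _ => ?_
    unfold Dv
    ring
  rw [this, h, zero_mul]

theorem lift_zero (N : ℕ) (ζ : ℂ) : lift N ζ 0 = ζ := by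
  simp [lift]

theorem lift_two (ζ : ℂ) : lift 2 ζ 1 = -ζ := by
  have : (2 * Real.pi * I * (1 : ℕ) / (2 : ℕ) : ℂ) = Real.pi * I := by
    push_cast; ring
  rw [lift, this, Complex.exp_pi_mul_I]
  ring

/-- The data of a sequence of multiple zeros. -/
structure Dat (N : ℕ) (a : ℤ) (t z ζ : ℕ → ℂ) (g : ℕ → ℂ) (ζ0 u0 : ℂ) : Prop where
  par : Par t ζ ζ0 u0
  zlim : Tendsto (fun n => ‖z n‖) atTop atTop
  nrm : ∀ n, ‖ζ n‖ = ‖t n‖ * ‖z n‖ * ‖cexp (t n / 2)‖
  gne : ∀ m, g m ≠ 0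
  F0 : ∀ n, SokamF.F (cexp (2 * Real.pi * I * a / N) * cexp (-t n)) (z n) = 0
  F1 : ∀ n, SokamF.F (cexp (2 * Real.pi * I * a / N) * cexp (-t n))
    (cexp (2 * Real.pi * I * a / N) * cexp (-t n) * z n) = 0
  hE : ∀ n, ∑ m ∈ Finset.range N, g m *
    SokamU.E (t n) (lift N (ζ n) m / t n * cexp (-t n / 2)) = 0
  hD : ∀ n, ∑ m ∈ Finset.range N, g m *
    SokamU.DE (t n) (lift N (ζ n) m / t n * cexp (-t n / 2)) = 0

section dat

variable {N : ℕ} {a : ℤ} {t z ζ : ℕ → ℂ} {g : ℕ → ℂ} {ζ0 u0 : ℂ}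

theorem Dat.tz (h : Dat N a t z ζ g ζ0 u0) :
    Tendsto (fun n => ‖t n‖ * ‖z n‖) atTop (𝓝 ‖ζ0‖) := by
  have h1 : Tendsto (fun n => ‖cexp (t n / 2)‖) atTop (𝓝 1) := by
    have : Tendsto (fun n => ‖cexp (t n / 2)‖) atTop (𝓝 ‖cexp (0 / 2)‖) :=
      ((Complex.continuous_exp.tendsto _).comp (h.par.lim.div_const 2)).norm
    simpa using this
  have h2 : Tendsto (fun n => ‖ζ n‖ / ‖cexp (t n / 2)‖) atTop (𝓝 (‖ζ0‖ / 1)) :=
    h.par.zet.norm.div h1 one_ne_zero
  rw [div_one] at h2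
  refine h2.congr fun n => ?_
  rw [h.nrm n, mul_div_assoc, div_self (norm_ne_zero_iff.2 (Complex.exp_ne_zero _)), mul_one]

theorem Dat.tree_lim (h : Dat N a t z ζ g ζ0 u0) :
    Tendsto (fun n => ‖z n‖ * ‖1 - cexp (-t n)‖) atTop (𝓝 ‖ζ0‖) := by
  have h0 : Tendsto (fun w : ℂ => (cexp w - 1) / w) (𝓝[≠] 0) (𝓝 1) := by
    have := (Complex.hasDerivAt_exp 0).tendsto_slope
    rw [Complex.exp_zero] at this
    refine this.congr fun w => ?_
    rw [slope_def_field, Complex.exp_zero, sub_zero]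
  have h1 : Tendsto (fun n => -t n) atTop (𝓝[≠] 0) := by
    refine tendsto_nhdsWithin_iff.2 ⟨by simpa using h.par.lim.neg, ?_⟩
    exact Eventually.of_forall fun n => neg_ne_zero.2 (h.par.ne n)
  have h2 : Tendsto (fun n => ‖(cexp (-t n) - 1) / (-t n)‖) atTop (𝓝 1) := by
    have := (h0.comp h1).norm
    simpa using this
  have h3 := h.tz.mul h2
  rw [mul_one] at h3
  refine h3.congr fun n => ?_
  rw [norm_div, norm_neg, norm_sub_rev 1]
  have := norm_ne_zero_iff.2 (h.par.ne n)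
  field_simp

end dat

end SokamV

end

/-! ### Lib_MP_af4de1_in.T4Edge -/

section
/-!
# No zeros at `‖ζ‖ = 1/e` off the tip, and the contour to the tip [IN-T4]

`good_edge`: `y_i = -S_i`, `y_i e^{y_i} = ζ0` (`good_crit`), `‖ζ0‖ = 1/e`.
List `[S1, S2]`, `S1 ≠ S2`: if `u (S2 - S1)` is not a positive real and `u (S1 - S2)` is not a positive real: `‖S1‖, ‖S2‖ ≤ 1` (`dom_two`, `dom_two'`),
so `S1 = S2` by `exp_inj`.  Otherwise, by symmetry, `u (S2 - S1) = l > 0`, i.e. `y1 = y2 + l conj u`: `‖S2‖ ≤ 1` (`dom_two'`); equal heights (`good_height`,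
`Ph ζ0 S = S²/2 - S = y²/2 + y`): `0 = Re (u (y1 - y2)((y1 + y2)/2 + 1)) = l (Re (y1 + y2)/2 + 1)`, so `Re y1 + Re y2 = -2`,
`Re y1 = Re y2 + l Re u ≥ Re y2`, so `Re y2 ≤ -1`, with `‖y2‖ ≤ 1`: `y2 = -1`, `S2 = 1`: `good_ne_one`.
List `[S]`: `‖S‖ ≤ 1` (`dom_one`); if `ζ0 = -1/e = (-1) e^{-1}` then `exp_inj`: `-S = -1`: `good_ne_one`.
`static_edge`: `TopPos`: `static_G` with `N = 1` (`lift_zero`: `Final.lean`), otherwise `static_N1`; then `good_edge`.
`edge`: `static_edge`, `val_one`: `Ev = J + Small`, `J` `Big`: not zero for large `n` (`va_small`-argument, see `v1_small`).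
`not_topPos_tip`: `TopPos u (-1/e)` would give by `static_G` a list of one or two points: `good_edge`.
`tipConn_all`: `SokamN.tipConn` (`Re u > 0`), `tipConn_I` (`u = I`).
-/

namespace SokamV

open Complex Filter Topology

private theorem te_zeta {ζ0 S : ℂ} (h : S + ζ0 * cexp S = 0) : -S * cexp (-S) = ζ0 := by
  have h1 : cexp S * cexp (-S) = 1 := by rw [← Complex.exp_add, add_neg_cancel, Complex.exp_zero]
  linear_combination (-cexp (-S)) * h + ζ0 * h1

private theorem te_ph {ζ0 S : ℂ} (h : S + ζ0 * cexp S = 0) : Ph ζ0 S = S ^ (2 : ℕ) / 2 - S := by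
  unfold Ph
  linear_combination h

/-- the positive case -/
private theorem te_pos {u ζ0 S S' : ℂ} {c l : ℝ} (hre : 0 ≤ u.re) (hu : ‖u‖ = 1)
    (h1 : S + ζ0 * cexp S = 0) (h2 : S' + ζ0 * cexp S' = 0)
    (h3 : (u * Ph ζ0 S).re = c) (h4 : (u * Ph ζ0 S').re = c) (h5 : ‖S'‖ ≤ 1) (h6 : S' ≠ 1)
    (hl : 0 < l) (h : u * (S' - S) = l) : False := by
  rw [te_ph h1] at h3
  rw [te_ph h2] at h4
  have e1 : u * (S' ^ (2 : ℕ) / 2 - S') - u * (S ^ (2 : ℕ) / 2 - S) = l * ((S + S') / 2 - 1) := by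
    rw [← h]; ring
  have e2 : (u * (S' ^ (2 : ℕ) / 2 - S') - u * (S ^ (2 : ℕ) / 2 - S)).re = 0 := by
    rw [Complex.sub_re, h3, h4, sub_self]
  rw [e1] at e2
  have e3 : ((l : ℂ) * ((S + S') / 2 - 1)).re = l * ((S.re + S'.re) / 2 - 1) := by
    rw [Complex.re_ofReal_mul]
    congr 1
    have : (S + S') / 2 - 1 = ((1 / 2 : ℝ) : ℂ) * (S + S') - 1 := by push_cast; ring
    rw [this, Complex.sub_re, Complex.re_ofReal_mul, Complex.add_re, Complex.one_re]
    ring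
  rw [e3] at e2
  have e4 : (S.re + S'.re) / 2 - 1 = 0 := (mul_eq_zero.1 e2).resolve_left hl.ne'
  have e5 : S' - S = l * (starRingEnd ℂ) u := by
    have h7 : (starRingEnd ℂ) u * u = 1 := by
      rw [mul_comm, Complex.mul_conj, Complex.normSq_eq_norm_sq, hu]
      simp
    calc S' - S = (starRingEnd ℂ) u * u * (S' - S) := by rw [h7, one_mul]
      _ = (starRingEnd ℂ) u * (u * (S' - S)) := by ring
      _ = l * (starRingEnd ℂ) u := by rw [h]; ring
  have e6 : S'.re - S.re = l * u.re := by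
    have := congrArg Complex.re e5
    rwa [Complex.sub_re, Complex.re_ofReal_mul, Complex.conj_re] at this
  have e7 : 1 ≤ S'.re := by linarith only [e4, e6, mul_nonneg hl.le hre]
  have e8 : S'.re ≤ 1 := (Complex.re_le_norm S').trans h5
  have e9 : S'.im = 0 := by
    have h7 : S'.re ^ (2 : ℕ) + S'.im ^ (2 : ℕ) ≤ 1 := by
      have := Complex.sq_norm S'
      rw [Complex.normSq_apply] at this
      nlinarith only [h5, this, norm_nonneg S']
    nlinarith only [e7, h7]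
  exact h6 (Complex.ext (by rw [Complex.one_re]; linarith) (by rw [Complex.one_im]; exact e9))

private theorem te_two {u ζ0 : ℂ} {c : ℝ} {S1 S2 : ℂ} (hu : ‖u‖ = 1) (hre : 0 ≤ u.re)
    (him : 0 ≤ u.im) (h0 : ‖ζ0‖ = Real.exp (-1)) (hg : Good u ζ0 c [S1, S2]) (hne : S1 ≠ S2) :
    False := by
  have m1 : S1 ∈ [S1, S2] := by simp
  have m2 : S2 ∈ [S1, S2] := by simp
  have c1 := good_crit hg m1
  have c2 := good_crit hg m2
  have p1 := good_height hg m1
  have p2 := good_height hg m2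
  have n1 := good_ne_one hg m1
  have n2 := good_ne_one hg m2
  by_cases ha : ∃ l : ℝ, 0 < l ∧ u * (S2 - S1) = l
  · obtain ⟨l, hl, h⟩ := ha
    have hb : ¬ ∃ l : ℝ, 0 < l ∧ u * (S1 - S2) = l := by
      rintro ⟨l', hl', h'⟩
      have : ((l + l' : ℝ) : ℂ) = 0 := by
        push_cast
        rw [← h, ← h']
        ring
      have : l + l' = 0 := by exact_mod_cast this
      linarith
    exact te_pos hre hu c1 c2 p1 p2 (dom_two' hu hre him h0 hg hne hb) n2 hl h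
  by_cases hb : ∃ l : ℝ, 0 < l ∧ u * (S1 - S2) = l
  · obtain ⟨l, hl, h⟩ := hb
    exact te_pos hre hu c2 c1 p2 p1 (dom_two hu hre him h0 hg hne ha) n1 hl h
  have b1 := dom_two hu hre him h0 hg hne ha
  have b2 := dom_two' hu hre him h0 hg hne hb
  have := exp_inj (y1 := -S1) (y2 := -S2) (by rwa [norm_neg]) (by rwa [norm_neg])
    ((te_zeta c1).trans (te_zeta c2).symm)
  exact hne (neg_injective this)

theorem good_edge {u ζ0 : ℂ} {c : ℝ} {L : List ℂ} (hu : ‖u‖ = 1) (hre : 0 ≤ u.re) (him : 0 ≤ u.im)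
    (h0 : ‖ζ0‖ = Real.exp (-1)) (hg : Good u ζ0 c L)
    (hL : (∃ S, L = [S]) ∨ ∃ S1 S2, S1 ≠ S2 ∧ L = [S1, S2]) :
    (∃ S, L = [S]) ∧ ζ0 ≠ -cexp (-1) := by
  rcases hL with ⟨S, rfl⟩ | ⟨S1, S2, hne, rfl⟩
  · refine ⟨⟨S, rfl⟩, fun hz => ?_⟩
    have m1 : S ∈ [S] := by simp
    have c1 := good_crit hg m1
    have n1 := good_ne_one hg m1
    have b1 := dom_one hu hre him h0 hg
    have := exp_inj (y1 := -S) (y2 := -1) (by rwa [norm_neg]) (by simp)
      ((te_zeta c1).trans (by rw [hz]; ring))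
    exact n1 (neg_injective this)
  · exact (te_two hu hre him h0 hg hne).elim

private theorem te_static {u ζ : ℂ} (hu : ‖u‖ = 1) (hre : 0 ≤ u.re) (him : 0 ≤ u.im)
    (hζ : ζ ≠ 0) (hT : TopPos u ζ) : ∃ (c : ℝ) (L : List ℂ), Good u ζ c L ∧
      ((∃ S, L = [S]) ∨ ∃ S1 S2, S1 ≠ S2 ∧ L = [S1, S2]) := by
  obtain ⟨c, L, h1, h2, h3, h4⟩ := static_G (N := 1) one_pos hu hre him hζ
    ⟨0, one_pos, by rwa [lift_zero]⟩
  rw [Finset.sum_range_one] at h3 h4
  have hg := h1 0 one_pos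
  rw [lift_zero] at hg
  have hn := h2 0 one_pos
  refine ⟨c, L 0, hg, ?_⟩
  generalize L 0 = M at h3 h4 hg hn
  match M, h3, h4, hn with
  | [S], _, _, _ => exact Or.inl ⟨S, rfl⟩
  | [S1, S2], _, _, hn =>
    refine Or.inr ⟨S1, S2, ?_, rfl⟩
    simpa using hn

private theorem te_norm : ‖-cexp (-1)‖ = Real.exp (-1) := by
  rw [norm_neg, Complex.norm_exp]
  simp

theorem not_topPos_tip {u : ℂ} (hu : ‖u‖ = 1) (hre : 0 ≤ u.re) (him : 0 ≤ u.im) :
    ¬ TopPos u (-cexp (-1)) := by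
  intro hT
  obtain ⟨c, L, hg, hL⟩ := te_static hu hre him (neg_ne_zero.2 (Complex.exp_ne_zero _)) hT
  exact (good_edge hu hre him te_norm hg hL).2 rfl

theorem tipConn_all {u : ℂ} (hu : ‖u‖ = 1) (hre : 0 ≤ u.re) (him : 0 ≤ u.im) : TipConn u := by
  rcases hre.lt_or_eq with h | h
  · exact SokamN.tipConn hu h him (not_topPos_tip hu hre him)
  · have h1 : u = I := by
      have h2 : u.re ^ (2 : ℕ) + u.im ^ (2 : ℕ) = 1 := by
        have h3 := Complex.sq_norm u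
        rw [hu, Complex.normSq_apply] at h3
        linarith only [h3]
      rw [← h] at h2
      have h4 : u.im = 1 := by nlinarith only [him, h2]
      apply Complex.ext
      · simp [← h]
      · simp [h4]
    rw [h1]
    exact tipConn_I

theorem static_edge {u ζ0 : ℂ} (hu : ‖u‖ = 1) (hre : 0 ≤ u.re) (him : 0 ≤ u.im)
    (h0 : ‖ζ0‖ = Real.exp (-1)) (htip : ζ0 ≠ -cexp (-1)) :
    ∃ (c : ℝ) (S : ℂ), Good u ζ0 c [S] := by
  have hz : ζ0 ≠ 0 := by
    rintro rfl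
    rw [norm_zero] at h0
    exact absurd h0.symm (Real.exp_pos _).ne'
  obtain ⟨c, L, hg, hL⟩ : ∃ (c : ℝ) (L : List ℂ), Good u ζ0 c L ∧
      ((∃ S, L = [S]) ∨ ∃ S1 S2, S1 ≠ S2 ∧ L = [S1, S2]) := by
    by_cases hT : TopPos u ζ0
    · exact te_static hu hre him hz hT
    · exact static_N1 hu hre him h0.ge (by simpa using htip) hT
  obtain ⟨S, rfl⟩ := (good_edge hu hre him h0 hg hL).1
  exact ⟨c, S, hg⟩

private theorem te_exp {τ : ℕ → ℝ} (hτ : ∀ n, 0 < τ n) (hτ0 : Tendsto τ atTop (𝓝 0))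
    {C η δ : ℝ} (hη : 0 < η) (hδ : 0 < δ) : ∀ᶠ n in atTop, C ≤ η * Real.exp (δ / τ n) := by
  have h2 : ∀ᶠ n in atTop, τ n < η * δ / (|C| + 1) := hτ0.eventually_lt_const (by positivity)
  filter_upwards [h2] with n hn
  have h3 : δ / τ n ≤ Real.exp (δ / τ n) := by
    have := Real.add_one_le_exp (δ / τ n)
    linarith
  have h4 : τ n * (|C| + 1) < η * δ := by
    rwa [lt_div_iff₀ (by positivity)] at hn
  calc C ≤ |C| + 1 := by linarith [le_abs_self C]
    _ ≤ η * (δ / τ n) := by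
        rw [← mul_div_assoc, le_div_iff₀ (hτ n)]
        linarith
    _ ≤ η * Real.exp (δ / τ n) := mul_le_mul_of_nonneg_left h3 hη.le

private theorem te_small {τ : ℕ → ℝ} (hτ : ∀ n, 0 < τ n) (hτ0 : Tendsto τ atTop (𝓝 0))
    {c c' : ℝ} (hc : c' < c) {J R : ℕ → ℂ} (hJ : Big τ c J) (hR : Small τ c' R) {η : ℝ}
    (hη : 0 < η) : ∀ᶠ n in atTop, ‖R n‖ ≤ η * ‖J n‖ := by
  obtain ⟨C, hC⟩ := hR
  have hδ : 0 < (c - c') / 2 := by linarith
  filter_upwards [hC, hJ _ hδ, te_exp (C := C) hτ hτ0 hη hδ] with n h1 h2 h3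
  have h4 : Real.exp ((c - (c - c') / 2) / τ n) =
      Real.exp (((c - c') / 2) / τ n) * Real.exp (c' / τ n) := by
    rw [← Real.exp_add]
    congr 1
    ring
  calc ‖R n‖ ≤ C * Real.exp (c' / τ n) := h1
    _ ≤ (η * Real.exp (((c - c') / 2) / τ n)) * Real.exp (c' / τ n) :=
        mul_le_mul_of_nonneg_right h3 (Real.exp_pos _).le
    _ = η * Real.exp ((c - (c - c') / 2) / τ n) := by rw [h4]; ring
    _ ≤ η * ‖J n‖ := mul_le_mul_of_nonneg_left h2 hη.le

theorem edge {t ζ : ℕ → ℂ} {ζ0 u0 : ℂ} (h : Par t ζ ζ0 u0) (h0 : ‖ζ0‖ = Real.exp (-1))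
    (htip : ζ0 ≠ -cexp (-1)) : ∀ᶠ n in atTop, Ev (t n) (ζ n) ≠ 0 := by
  obtain ⟨c, S, hg⟩ := static_edge h.norm_dir h.dir_re h.dir_im h0 htip
  obtain ⟨c', hc', J, hJ, hE, -⟩ := val_one h hg
  have hτ : ∀ n, 0 < ‖t n‖ := fun n => norm_pos_iff.2 (h.ne n)
  have hτ0 : Tendsto (fun n => ‖t n‖) atTop (𝓝 0) := by
    have := h.lim.norm
    rwa [norm_zero] at this
  filter_upwards [te_small hτ hτ0 hc' hJ hE (η := 1 / 2) (by norm_num), hJ 1 one_pos] with n k1 k2
  intro hn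
  rw [hn, zero_sub, norm_neg] at k1
  have := (Real.exp_pos _).trans_le k2
  linarith

end SokamV

end
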