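import Pool.Agent.Lib_MP_af4de1_zy.Z29
import Pool.Agent.Lib_MP_af4de1_zy.Z49
import Pool.Agent.Lib_MP_af4de1_zy.Z66

/-! ### Lib_MP_af4de1_hd.Defs -/

section
namespace SokamF
end SokamF
/-!
# Half disc `Re q ≤ 0` for Sokal's `F(z;q)`: interface between the four parts

`q` on the unit circle, `Re q ≤ 0`.  `E2 q z`: if `F(z;q) = 0` then `Re conj(G) D²G < 0` at `z`, where
`G = F(·/q;q)`, `DG = z G' = (z/q) F(z) = 0`, `D²G = (z²/q) F(qz)`.

* part (a): `E2 q z` for `‖z‖ ≥ R0`;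
* part (b): `E2 q z` for `‖z‖ ≤ R0` (certificate);
* part (c): `E2` at all zeros of modulus `r` ⇒ at most one zero of modulus `r`, simple;
* part (d): `Good q` on the arc ⇒ all zeros simple in the half disc.
-/

namespace SokamHD

open Complex SokamF

/-- The condition (E2) at the point `z`. -/
def E2 (q z : ℂ) : Prop :=
  F q z = 0 → ((starRingEnd ℂ) (F q (z / q)) * (z ^ (2 : ℕ) / q * F q (q * z))).re < 0

/-- All zeros simple, at most one zero on each circle. -/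
def Good (q : ℂ) : Prop :=
  (∀ z, F q z = 0 → deriv (F q) z ≠ 0) ∧ ∀ z w, F q z = 0 → F q w = 0 → ‖z‖ = ‖w‖ → z = w

/-- The radius that separates parts (a) and (b). -/
noncomputable def R0 : ℝ := 40

end SokamHD

end

/-! ### Lib_MP_af4de1_v.AiryLim -/

section
/-!
# The Airy limit [SV-A1]

`ell = (2t)^{1/3}`, `ell³ = 2t`, `x_n = off(ζ n) ell/t → x0`.  `tip_split` with `ρ1` from `tip_bound`:
`Ev ≈ ep ∫_0^ρ cexp(Ph ζ(1+y ep)/t)dy - em ∫_0^ρ cexp(Ph ζ(1+y em)/t)dy` (`P(1+ρ ep) - P 1`, integral of the derivative along the segment), up to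
`C exp(c1/‖t‖)`, which divided by `sz·ell` tends to `0` (`sz_big`).  Substitute `y = ‖ell‖ s`: the first integral divided by `sz·ell` is
`(‖ell‖/ell) ∫_0^{ρ/‖ell‖} cexp((Ph ζ(1+‖ell‖s ep) - (-1/2+off ζ))/t) ds`.  With `ell = ‖ell‖e^{iα_n}`, `α_n = arg(t n)/3 → -arg(u0)/3` (`t n/‖t n‖ → conj u0`,
`u0.re ≥ 0` so the argument is continuous there), `‖ell‖ ep/ell → ω = e^{2πi/3}`; pointwise (by `tip_exp`: the errors `‖h‖⁴/‖t‖`, `‖v‖‖h‖²/‖t‖` with `h = ‖ell‖s ep`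
tend to `0`: `‖ell‖³ = 2‖t‖`, `‖v‖ ≤ C‖t‖/‖ell‖`) the exponent tends to `x0 ω s - s³/3`: `off·‖ell‖s ep/t = x_n·(‖ell‖ep/ell)s`, `(‖ell‖s ep)³/(6t) = ell³(…)³/(6t) → ω³s³/3`.
Dominated convergence: by `tip_bound` the integrand is `≤ exp((-y³/8 + 2‖v‖y)/‖t‖) = exp(-s³/4 + 2‖x_n‖s)`.  So the quotient tends to `ω∫… - ω⁻¹∫… = Ai x0`.
Second limit: `Dv + Ev` has the integrand `(ζe^H+1)cexp(Ph ζ H/t)`; by `tip_mult` `(ζe^{1+h}+1)/ell = -h/ell + O((‖h‖²+2‖v‖)/‖ell‖) → -ωs`, bounded by `s + ‖ell‖s² + C‖ell‖`: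
the limit is `-(ω·∫ωs… - ω⁻¹∫ω⁻¹s…) = -Ad x0`.  (`Ai`, `Ad` are written with `cexp (2πI/3)` and `cexp(-(2πI/3))`.)
-/

namespace SokamV

open Complex Filter Topology MeasureTheory

/-- The Airy scale. -/
noncomputable def ell (t : ℂ) : ℂ := (2 * t) ^ (1 / 3 : ℂ)

theorem ell_pow {t : ℂ} : ell t ^ (3 : ℕ) = 2 * t := by
  unfold ell
  have h := Complex.cpow_nat_inv_pow (2 * t) (n := 3) (by norm_num)
  rw [show (1 / 3 : ℂ) = ((3 : ℕ) : ℂ)⁻¹ by push_cast; norm_num]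
  exact h

private theorem norm_ell {t : ℂ} : ‖ell t‖ ^ (3 : ℕ) = 2 * ‖t‖ := by
  rw [← norm_pow, ell_pow, norm_mul]
  simp

private theorem ell_ne {t : ℂ} (ht : t ≠ 0) : ell t ≠ 0 := by
  intro h
  have := ell_pow (t := t)
  rw [h] at this
  apply ht
  simpa using this.symm

private theorem ell_dir {t : ℂ} (ht : t ≠ 0) : ell t = (‖ell t‖ : ℂ) * cexp ((t.arg / 3 : ℝ) * I) := by
  have h2 : (2 * t) ≠ 0 := by simp [ht]
  have harg : (2 * t).arg = t.arg := by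
    have := Complex.arg_real_mul t (r := 2) (by norm_num)
    simpa using this
  have h3 : ell t = cexp ((Real.log ‖2 * t‖ / 3 : ℝ)) * cexp ((t.arg / 3 : ℝ) * I) := by
    unfold ell
    rw [Complex.cpow_def_of_ne_zero h2, Complex.log, harg, ← Complex.exp_add]
    congr 1
    push_cast
    ring
  have h4 : ‖ell t‖ = Real.exp (Real.log ‖2 * t‖ / 3) := by
    rw [h3, norm_mul, Complex.norm_exp_ofReal_mul_I, Complex.norm_exp_ofReal, mul_one]
  rw [h4, Complex.ofReal_exp]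
  exact h3

private theorem ell_lim {t : ℕ → ℂ} (h : Tendsto t atTop (𝓝 0)) :
    Tendsto (fun n => ‖ell (t n)‖) atTop (𝓝 0) := by
  have h1 : Tendsto (fun n => 2 * ‖t n‖) atTop (𝓝 0) := by
    have := (h.norm).const_mul 2
    simpa using this
  have h2 : (fun n => ‖ell (t n)‖) = fun n => (2 * ‖t n‖) ^ (1 / 3 : ℝ) := by
    funext n
    rw [← norm_ell, ← Real.rpow_natCast, ← Real.rpow_mul (norm_nonneg _)]
    norm_num
  rw [h2]
  have h3 := h1.rpow_const (p := (1 / 3 : ℝ)) (Or.inr (by norm_num))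
  rwa [Real.zero_rpow (by norm_num)] at h3

private theorem arg_lim {t ζ : ℕ → ℂ} {ζ0 u0 : ℂ} (h : Par t ζ ζ0 u0) (hu0 : ‖u0‖ = 1)
    (hre : 0 ≤ u0.re) : Tendsto (fun n => (t n).arg) atTop (𝓝 (-u0.arg)) := by
  have hs : u0 ∈ Complex.slitPlane := by
    rw [Complex.mem_slitPlane_iff]
    rcases hre.lt_or_eq with h1 | h1
    · exact Or.inl h1
    · right
      intro h2
      have : u0 = 0 := Complex.ext h1.symm h2
      rw [this] at hu0
      simp at hu0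
  have h1 : Tendsto (fun n => ((‖t n‖ : ℂ) / t n).arg) atTop (𝓝 u0.arg) :=
    (Complex.continuousAt_arg hs).tendsto.comp h.dir
  have h2 : (fun n => ((‖t n‖ : ℂ) / t n).arg) = fun n => -(t n).arg := by
    funext n
    have hn : 0 < ‖t n‖ := norm_pos_iff.mpr (h.ne n)
    rw [div_eq_mul_inv, Complex.arg_real_mul _ hn, Complex.arg_inv]
    rw [if_neg]
    intro h3
    rw [Complex.arg_eq_pi_iff] at h3
    linarith [h.re n, h3.1]
  rw [h2] at h1
  have := h1.neg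
  simpa using this

private theorem kap_lim {t ζ : ℕ → ℂ} {ζ0 u0 : ℂ} (h : Par t ζ ζ0 u0) (hu0 : ‖u0‖ = 1)
    (hre : 0 ≤ u0.re) (θ : ℝ) :
    Tendsto (fun n => (‖ell (t n)‖ : ℂ) * cexp (((θ - u0.arg / 3 : ℝ) : ℂ) * I) / ell (t n)) atTop
      (𝓝 (cexp (θ * I))) := by
  have h1 : ∀ n, (‖ell (t n)‖ : ℂ) * cexp (((θ - u0.arg / 3 : ℝ) : ℂ) * I) / ell (t n) =
      cexp (((θ - u0.arg / 3 - (t n).arg / 3 : ℝ) : ℂ) * I) := by
    intro n
    have h2 := ell_dir (h.ne n)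
    have h3 : (‖ell (t n)‖ : ℂ) ≠ 0 := by
      simpa using ell_ne (h.ne n)
    set l := ‖ell (t n)‖ with hl
    rw [h2, mul_div_mul_left _ _ h3, ← Complex.exp_sub]
    congr 1
    push_cast
    ring
  simp_rw [h1]
  have h2 : Tendsto (fun n => θ - u0.arg / 3 - (t n).arg / 3) atTop (𝓝 θ) := by
    have := ((arg_lim h hu0 hre).div_const 3).const_sub (θ - u0.arg / 3)
    convert this using 2
    ring
  have h3 : Continuous (fun x : ℝ => cexp (x * I)) := by fun_prop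
  exact (h3.tendsto θ).comp h2

private theorem bound_int (M : ℝ) (hM : 0 ≤ M) : IntegrableOn
    (fun s : ℝ => (M + s + s ^ (2 : ℕ)) * Real.exp (-(s ^ (3 : ℕ) / 4) + 2 * M * s)) (Set.Ioi 0) := by
  have h0 : IntegrableOn (fun x : ℝ => Real.exp (-1 * x)) (Set.Ioi 0) := exp_neg_integrableOn_Ioi 0 one_pos
  set a := 2 * M + 2 with ha
  have h1 : IntegrableOn (fun x : ℝ => ((M + 3) * Real.exp (a * (1 + 4 * a))) * Real.exp (-1 * x)) (Set.Ioi 0) :=
    h0.const_mul _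
  refine Integrable.mono' h1 (by fun_prop) ?_
  rw [ae_restrict_iff' measurableSet_Ioi]
  refine Eventually.of_forall fun s hs => ?_
  have hs0 : (0 : ℝ) < s := hs
  have e1 : s ≤ Real.exp s := by linarith [Real.add_one_le_exp s]
  have e2 : s ^ (2 : ℕ) ≤ 2 * Real.exp s := by linarith [Real.quadratic_le_exp_of_nonneg hs0.le]
  have e0 : 1 ≤ Real.exp s := Real.one_le_exp hs0.le
  have e3 : M + s + s ^ (2 : ℕ) ≤ (M + 3) * Real.exp s := by nlinarith only [hM, e1, e2, e0]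
  have e4 : s + (-(s ^ (3 : ℕ) / 4) + 2 * M * s) ≤ a * (1 + 4 * a) + -1 * s := by
    have ha2 : 2 ≤ a := by linarith
    rcases le_total s (1 + 4 * a) with h | h
    · nlinarith only [ha2, h, pow_pos hs0 3]
    · have h5 : a ≤ s ^ (2 : ℕ) / 4 := by nlinarith only [h]
      have h6 := mul_le_mul_of_nonneg_right h5 hs0.le
      nlinarith only [e3, ha2, h]
  rw [Real.norm_of_nonneg (by positivity)]
  calc (M + s + s ^ (2 : ℕ)) * Real.exp (-(s ^ (3 : ℕ) / 4) + 2 * M * s)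
      ≤ ((M + 3) * Real.exp s) * Real.exp (-(s ^ (3 : ℕ) / 4) + 2 * M * s) := by gcongr
    _ = (M + 3) * Real.exp (s + (-(s ^ (3 : ℕ) / 4) + 2 * M * s)) := by rw [Real.exp_add s]; ring
    _ ≤ (M + 3) * Real.exp (a * (1 + 4 * a) + -1 * s) := by gcongr
    _ = _ := by rw [Real.exp_add (a * (1 + 4 * a))]; ring

private theorem dct {φ : ℕ → ℝ → ℂ} {φ0 : ℝ → ℂ} {b : ℕ → ℝ} {M : ℝ} (hM : 0 ≤ M)
    (hb : Tendsto b atTop atTop) (hφ : ∀ n, Continuous (φ n))
    (hbd : ∀ᶠ n in atTop, ∀ s : ℝ, 0 < s → s ≤ b n →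
      ‖φ n s‖ ≤ (M + s + s ^ (2 : ℕ)) * Real.exp (-(s ^ (3 : ℕ) / 4) + 2 * M * s))
    (hlim : ∀ s : ℝ, 0 < s → Tendsto (fun n => φ n s) atTop (𝓝 (φ0 s))) :
    Tendsto (fun n => ∫ s in (0 : ℝ)..(b n), φ n s) atTop (𝓝 (∫ s in Set.Ioi (0 : ℝ), φ0 s)) := by
  have h1 : Tendsto (fun n => ∫ s in Set.Ioi (0 : ℝ), (Set.Iic (b n)).indicator (φ n) s) atTop
      (𝓝 (∫ s in Set.Ioi (0 : ℝ), φ0 s)) := by
    refine tendsto_integral_filter_of_dominated_convergence _ ?_ ?_ (bound_int M hM) ?_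
    · exact Eventually.of_forall fun n =>
        ((hφ n).aestronglyMeasurable.indicator measurableSet_Iic)
    · filter_upwards [hbd] with n hn
      rw [ae_restrict_iff' measurableSet_Ioi]
      refine Eventually.of_forall fun s hs => ?_
      by_cases h : s ∈ Set.Iic (b n)
      · rw [Set.indicator_of_mem h]
        exact hn s hs h
      · rw [Set.indicator_of_notMem h, norm_zero]
        have : (0 : ℝ) < s := hs
        positivity
    · rw [ae_restrict_iff' measurableSet_Ioi]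
      refine Eventually.of_forall fun s hs => ?_
      refine (hlim s hs).congr' ?_
      filter_upwards [hb.eventually_ge_atTop s] with n hn
      rw [Set.indicator_of_mem (show s ∈ Set.Iic (b n) from hn)]
  refine h1.congr' ?_
  filter_upwards [hb.eventually_ge_atTop 0] with n hn
  rw [setIntegral_indicator measurableSet_Iic, intervalIntegral.integral_of_le hn]
  rfl

private theorem ftc {G g : ℂ → ℂ} (hG : ∀ H, HasDerivAt G (g H) H) (hg : Continuous g) (e : ℂ) {L ρ : ℝ}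
    (hL : 0 < L) : G (1 + ρ * e) - G 1 = (L * e) * ∫ s in (0 : ℝ)..(ρ / L), g (1 + (L * s : ℝ) * e) := by
  have h1 : ∀ s : ℝ, HasDerivAt (fun s : ℝ => G (1 + (L * s : ℝ) * e)) (g (1 + (L * s : ℝ) * e) * (L * e)) s := by
    intro s
    have h2 : HasDerivAt (fun s : ℝ => (1 : ℂ) + (L * s : ℝ) * e) (L * e) s := by
      have h3 : HasDerivAt (fun s : ℝ => ((L * s : ℝ) : ℂ)) (L : ℂ) s := by
        have h4 : HasDerivAt (fun s : ℝ => L * s) L s := by
          simpa using (hasDerivAt_id s).const_mul L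
        exact h4.ofReal_comp
      exact (h3.mul_const e).const_add 1
    exact HasDerivAt.comp s (hG _) h2
  have h5 : Continuous fun s : ℝ => g (1 + (L * s : ℝ) * e) := by fun_prop
  have h4 := intervalIntegral.integral_eq_sub_of_hasDerivAt (a := 0) (b := ρ / L) (fun s _ => h1 s)
    ((h5.mul continuous_const).intervalIntegrable _ _)
  rw [intervalIntegral.integral_mul_const] at h4
  rw [mul_comm ((L : ℂ) * e) _, h4, mul_div_cancel₀ _ hL.ne']
  simp

private theorem cont_Ph (ζ t : ℂ) : Continuous fun H => cexp (Ph ζ H / t) := by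
  unfold Ph
  fun_prop

private theorem core {t ζ : ℕ → ℂ} {u0 x0 e ω : ℂ} (h : Par t ζ (-cexp (-1)) u0)
    (he : ‖e‖ = 1) (hω : ω ^ (3 : ℕ) = 1)
    (hκ : Tendsto (fun n => (‖ell (t n)‖ : ℂ) * e / ell (t n)) atTop (𝓝 ω))
    (hx : Tendsto (fun n => off (ζ n) * ell (t n) / t n) atTop (𝓝 x0))
    {ρ : ℝ} (hρ : 0 < ρ) (hρ2 : ρ ≤ 1 / 2)
    (hb : ∀ᶠ n in atTop, ∀ y : ℝ, 0 ≤ y → y ≤ ρ →
      ((‖t n‖ : ℂ) / t n * (Ph (ζ n) (1 + y * e) - (-1 / 2 + off (ζ n)))).re ≤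
        -(y ^ (3 : ℕ) / 8) + 2 * ‖off (ζ n)‖ * y)
    {P R : ℕ → ℂ → ℂ} (hP : ∀ n H, HasDerivAt (P n) (cexp (Ph (ζ n) H / t n)) H)
    (hR : ∀ n H, HasDerivAt (R n) ((ζ n * cexp H + 1) * cexp (Ph (ζ n) H / t n)) H) :
    Tendsto (fun n => (P n (1 + ρ * e) - P n 1) / (sz (t n) (ζ n) * ell (t n))) atTop
      (𝓝 ((∫ s in Set.Ioi (0 : ℝ), cexp (x0 * (ω * s) - s ^ (3 : ℕ) / 3)) * ω)) ∧
    Tendsto (fun n => (R n (1 + ρ * e) - R n 1) / (sz (t n) (ζ n) * ell (t n) ^ (2 : ℕ))) atTop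
      (𝓝 (-((∫ s in Set.Ioi (0 : ℝ), s * cexp (x0 * (ω * s) - s ^ (3 : ℕ) / 3)) * ω ^ (2 : ℕ)))) := by
  have hL : ∀ n, 0 < ‖ell (t n)‖ := fun n => norm_pos_iff.mpr (ell_ne (h.ne n))
  have hL0 := ell_lim h.lim
  have hbt : Tendsto (fun n => ρ / ‖ell (t n)‖) atTop atTop := by
    have h1 : Tendsto (fun n => ‖ell (t n)‖) atTop (𝓝[>] 0) :=
      tendsto_nhdsWithin_iff.mpr ⟨hL0, Eventually.of_forall hL⟩
    exact h1.inv_tendsto_nhdsGT_zero.const_mul_atTop hρ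
  -- sizes
  have hvt : ∀ n, ‖off (ζ n)‖ * ‖ell (t n)‖ = ‖off (ζ n) * ell (t n) / t n‖ * ‖t n‖ := by
    intro n
    rw [norm_div, norm_mul]
    have : ‖t n‖ ≠ 0 := norm_ne_zero_iff.mpr (h.ne n)
    field_simp
  obtain ⟨M, hM0, hM⟩ : ∃ M : ℝ, 0 ≤ M ∧ ∀ᶠ n in atTop, ‖off (ζ n) * ell (t n) / t n‖ ≤ M := by
    refine ⟨‖x0‖ + 1, by positivity, ?_⟩
    filter_upwards [hx.norm.eventually_lt_const (lt_add_one ‖x0‖)] with n hn
    exact hn.le
  -- the two integrands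
  set φ : ℕ → ℝ → ℂ := fun n s =>
    cexp ((Ph (ζ n) (1 + (‖ell (t n)‖ * s : ℝ) * e) - (-1 / 2 + off (ζ n))) / t n) with hφ
  set ψ : ℕ → ℝ → ℂ := fun n s =>
    (ζ n * cexp (1 + (‖ell (t n)‖ * s : ℝ) * e) + 1) / ell (t n) * φ n s with hψ
  have hφc : ∀ n, Continuous (φ n) := by
    intro n
    rw [hφ]
    simp only
    unfold Ph
    fun_prop
  have hψc : ∀ n, Continuous (ψ n) := by
    intro n
    rw [hψ]
    simp only
    have := hφc n
    fun_prop
  -- bound of the first integrand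
  have hφb : ∀ᶠ n in atTop, ∀ s : ℝ, 0 < s → s ≤ ρ / ‖ell (t n)‖ →
      ‖φ n s‖ ≤ Real.exp (-(s ^ (3 : ℕ) / 4) + 2 * M * s) := by
    filter_upwards [hb, hM] with n hn hMn s hs hs2
    have hy0 : 0 ≤ ‖ell (t n)‖ * s := by positivity
    have hy1 : ‖ell (t n)‖ * s ≤ ρ := by
      rw [le_div_iff₀ (hL n)] at hs2
      linarith
    have h1 := hn _ hy0 hy1
    have ht0 : 0 < ‖t n‖ := norm_pos_iff.mpr (h.ne n)
    rw [hφ]
    simp only
    rw [Complex.norm_exp, Real.exp_le_exp]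
    have h2 : (Ph (ζ n) (1 + (‖ell (t n)‖ * s : ℝ) * e) - (-1 / 2 + off (ζ n))) / t n =
        ((‖t n‖⁻¹ : ℝ) : ℂ) * ((‖t n‖ : ℂ) / t n * (Ph (ζ n) (1 + (‖ell (t n)‖ * s : ℝ) * e) -
          (-1 / 2 + off (ζ n)))) := by
      have h3 : (‖t n‖ : ℂ) ≠ 0 := by exact_mod_cast ht0.ne'
      have h4 := h.ne n
      push_cast
      field_simp
    rw [h2, Complex.re_ofReal_mul]
    have h3 : ‖t n‖⁻¹ * (-((‖ell (t n)‖ * s) ^ (3 : ℕ) / 8) + 2 * ‖off (ζ n)‖ * (‖ell (t n)‖ * s)) =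
        -(s ^ (3 : ℕ) / 4) + 2 * ‖off (ζ n) * ell (t n) / t n‖ * s := by
      have h4 : (‖ell (t n)‖ * s) ^ (3 : ℕ) = 2 * ‖t n‖ * s ^ (3 : ℕ) := by rw [mul_pow, norm_ell]
      have h5 : 2 * ‖off (ζ n)‖ * (‖ell (t n)‖ * s) = 2 * (‖off (ζ n) * ell (t n) / t n‖ * ‖t n‖) * s := by
        rw [← hvt]
        ring
      rw [h4, h5]
      field_simp
      ring
    calc ‖t n‖⁻¹ * _ ≤ ‖t n‖⁻¹ * (-((‖ell (t n)‖ * s) ^ (3 : ℕ) / 8) + 2 * ‖off (ζ n)‖ * (‖ell (t n)‖ * s)) :=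
          mul_le_mul_of_nonneg_left h1 (by positivity)
      _ = _ := h3
      _ ≤ _ := by
        have := mul_le_mul_of_nonneg_right hMn hs.le
        linarith
  -- limit of the first integrand
  have hv0 : Tendsto (fun n => ‖off (ζ n)‖ / ‖ell (t n)‖) atTop (𝓝 0) := by
    have h1 : ∀ n, ‖off (ζ n)‖ / ‖ell (t n)‖ = ‖off (ζ n) * ell (t n) / t n‖ * (‖ell (t n)‖ / 2) := by
      intro n
      have h2 := hvt n
      have h3 := norm_ell (t := t n)
      have h4 := (hL n).ne'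
      rw [div_eq_iff h4]
      have h5 : ‖off (ζ n)‖ * ‖ell (t n)‖ = (‖off (ζ n) * ell (t n) / t n‖ * (‖ell (t n)‖ / 2) * ‖ell (t n)‖) *
          ‖ell (t n)‖ := by
        rw [h2]
        have : ‖t n‖ = ‖ell (t n)‖ ^ (3 : ℕ) / 2 := by linarith
        rw [this]
        ring
      exact mul_right_cancel₀ h4 h5
    simp_rw [h1]
    have := hx.norm.mul (hL0.div_const 2)
    simpa using this
  have hφl : ∀ s : ℝ, 0 < s → Tendsto (fun n => φ n s) atTop (𝓝 (cexp (x0 * (ω * s) - s ^ (3 : ℕ) / 3))) := by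
    intro s hs
    have h1 : Tendsto (fun n => (Ph (ζ n) (1 + (‖ell (t n)‖ * s : ℝ) * e) - (-1 / 2 + off (ζ n))) / t n) atTop
        (𝓝 (x0 * (ω * s) - s ^ (3 : ℕ) / 3)) := by
      have h2 : Tendsto (fun n => off (ζ n) * ell (t n) / t n * ((‖ell (t n)‖ : ℂ) * e / ell (t n) * s) -
          ((‖ell (t n)‖ : ℂ) * e / ell (t n)) ^ (3 : ℕ) * s ^ (3 : ℕ) / 3) atTop (𝓝 (x0 * (ω * s) - s ^ (3 : ℕ) / 3)) := by
        have := (hx.mul (hκ.mul_const (s : ℂ))).sub (((hκ.pow 3).mul_const ((s : ℂ) ^ (3 : ℕ))).div_const 3)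
        rwa [hω, one_mul] at this
      have h3 : Tendsto (fun n => (Ph (ζ n) (1 + (‖ell (t n)‖ * s : ℝ) * e) - (-1 / 2 + off (ζ n))) / t n -
          (off (ζ n) * ell (t n) / t n * ((‖ell (t n)‖ : ℂ) * e / ell (t n) * s) -
          ((‖ell (t n)‖ : ℂ) * e / ell (t n)) ^ (3 : ℕ) * s ^ (3 : ℕ) / 3)) atTop (𝓝 0) := by
        have h4 : Tendsto (fun n => ‖ell (t n)‖ * s ^ (4 : ℕ) / 6 +
            ‖off (ζ n) * ell (t n) / t n‖ * ‖ell (t n)‖ * s ^ (2 : ℕ)) atTop (𝓝 0) := by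
          have := ((hL0.mul_const (s ^ (4 : ℕ))).div_const 6).add ((hx.norm.mul hL0).mul_const (s ^ (2 : ℕ)))
          simpa using this
        refine squeeze_zero_norm' ?_ h4
        have h5 : Tendsto (fun n => ‖ell (t n)‖ * s) atTop (𝓝 0) := by
          simpa using hL0.mul_const s
        filter_upwards [h5.eventually_lt_const (show (0 : ℝ) < 1 / 2 by norm_num)] with n hn
        have ht0 : 0 < ‖t n‖ := norm_pos_iff.mpr (h.ne n)
        have hh : ‖((‖ell (t n)‖ * s : ℝ) : ℂ) * e‖ = ‖ell (t n)‖ * s := by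
          rw [norm_mul, he, mul_one, Complex.norm_real, Real.norm_of_nonneg (by positivity)]
        have h6 := tip_exp (ζ n) (h := ((‖ell (t n)‖ * s : ℝ) : ℂ) * e) (by rw [hh]; exact hn.le)
        rw [hh] at h6
        have h7 : (Ph (ζ n) (1 + (‖ell (t n)‖ * s : ℝ) * e) - (-1 / 2 + off (ζ n))) / t n -
          (off (ζ n) * ell (t n) / t n * ((‖ell (t n)‖ : ℂ) * e / ell (t n) * s) -
          ((‖ell (t n)‖ : ℂ) * e / ell (t n)) ^ (3 : ℕ) * s ^ (3 : ℕ) / 3) =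
          (Ph (ζ n) (1 + (‖ell (t n)‖ * s : ℝ) * e) - (-1 / 2 + off (ζ n)) -
            (off (ζ n) * (((‖ell (t n)‖ * s : ℝ) : ℂ) * e) - (((‖ell (t n)‖ * s : ℝ) : ℂ) * e) ^ (3 : ℕ) / 6)) / t n := by
          have e1 := ell_pow (t := t n)
          have e2 := ell_ne (h.ne n)
          have e3 := h.ne n
          have e4 : t n = ell (t n) ^ (3 : ℕ) / 2 := by rw [e1]; ring
          have e5 : off (ζ n) * ell (t n) / t n * ((‖ell (t n)‖ : ℂ) * e / ell (t n) * s) =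
              off (ζ n) * (((‖ell (t n)‖ * s : ℝ) : ℂ) * e) / t n := by
            push_cast
            field_simp
          have e6 : ((‖ell (t n)‖ : ℂ) * e / ell (t n)) ^ (3 : ℕ) * s ^ (3 : ℕ) / 3 =
              (((‖ell (t n)‖ * s : ℝ) : ℂ) * e) ^ (3 : ℕ) / 6 / t n := by
            rw [div_pow, e1]
            push_cast
            field_simp
            ring
          rw [e5, e6]
          ring
        rw [h7, norm_div, div_le_iff₀ ht0]
        refine h6.trans (le_of_eq ?_)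
        have e1 : (‖ell (t n)‖ * s) ^ (4 : ℕ) = 2 * ‖t n‖ * (‖ell (t n)‖ * s ^ (4 : ℕ)) := by
          rw [← norm_ell]
          ring
        have e2 : ‖off (ζ n)‖ * (‖ell (t n)‖ * s) ^ (2 : ℕ) =
            ‖off (ζ n) * ell (t n) / t n‖ * ‖t n‖ * (‖ell (t n)‖ * s ^ (2 : ℕ)) := by
          rw [← hvt]
          ring
        rw [e1, e2]
        ring
      have := h3.add h2
      simpa using this
    exact (Complex.continuous_exp.tendsto _).comp h1
  -- bound of the second integrand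
  have hwb : ∀ᶠ n in atTop, ∀ s : ℝ, 0 < s → s ≤ ρ / ‖ell (t n)‖ →
      ‖(ζ n * cexp (1 + (‖ell (t n)‖ * s : ℝ) * e) + 1) / ell (t n) + (‖ell (t n)‖ : ℂ) * e / ell (t n) * s‖ ≤
        ‖ell (t n)‖ * s ^ (2 : ℕ) + 2 * (‖off (ζ n)‖ / ‖ell (t n)‖) := by
    refine Eventually.of_forall fun n s hs hs2 => ?_
    have hy0 : 0 ≤ ‖ell (t n)‖ * s := by have := hL n; positivity
    have hy1 : ‖ell (t n)‖ * s ≤ ρ := by
      rw [le_div_iff₀ (hL n)] at hs2
      linarith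
    have hh : ‖((‖ell (t n)‖ * s : ℝ) : ℂ) * e‖ = ‖ell (t n)‖ * s := by
      rw [norm_mul, he, mul_one, Complex.norm_real, Real.norm_of_nonneg hy0]
    have h1 := tip_mult (ζ n) (h := ((‖ell (t n)‖ * s : ℝ) : ℂ) * e) (by rw [hh]; linarith)
    rw [hh] at h1
    have h2 : (ζ n * cexp (1 + (‖ell (t n)‖ * s : ℝ) * e) + 1) / ell (t n) + (‖ell (t n)‖ : ℂ) * e / ell (t n) * s =
        (ζ n * cexp (1 + (‖ell (t n)‖ * s : ℝ) * e) + 1 + ((‖ell (t n)‖ * s : ℝ) : ℂ) * e) / ell (t n) := by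
      push_cast
      ring
    rw [h2, norm_div, div_le_iff₀ (hL n)]
    refine h1.trans (le_of_eq ?_)
    have := (hL n).ne'
    field_simp
  have hκn : ∀ n, ‖(‖ell (t n)‖ : ℂ) * e / ell (t n)‖ = 1 := by
    intro n
    rw [norm_div, norm_mul, he, mul_one, Complex.norm_real, norm_norm, div_self (hL n).ne']
  have hψb : ∀ᶠ n in atTop, ∀ s : ℝ, 0 < s → s ≤ ρ / ‖ell (t n)‖ →
      ‖ψ n s‖ ≤ ((M + 1) + s + s ^ (2 : ℕ)) * Real.exp (-(s ^ (3 : ℕ) / 4) + 2 * (M + 1) * s) := by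
    filter_upwards [hφb, hwb, hL0.eventually_lt_const one_pos,
      hv0.eventually_lt_const (show (0 : ℝ) < 1 / 2 by norm_num)] with n h1 h2 h3 h4 s hs hs2
    rw [hψ]
    simp only
    rw [norm_mul]
    have h5 : ‖(ζ n * cexp (1 + (‖ell (t n)‖ * s : ℝ) * e) + 1) / ell (t n)‖ ≤ (M + 1) + s + s ^ (2 : ℕ) := by
      have h6 := h2 s hs hs2
      have h7 : ‖(‖ell (t n)‖ : ℂ) * e / ell (t n) * s‖ = s := by
        rw [norm_mul, hκn, one_mul, Complex.norm_real, Real.norm_of_nonneg hs.le]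
      have h8 := norm_sub_le ((ζ n * cexp (1 + (‖ell (t n)‖ * s : ℝ) * e) + 1) / ell (t n) +
        (‖ell (t n)‖ : ℂ) * e / ell (t n) * s) ((‖ell (t n)‖ : ℂ) * e / ell (t n) * s)
      rw [add_sub_cancel_right, h7] at h8
      have h9 : ‖ell (t n)‖ * s ^ (2 : ℕ) ≤ 1 * s ^ (2 : ℕ) := mul_le_mul_of_nonneg_right h3.le (by positivity)
      linarith
    refine mul_le_mul h5 ((h1 s hs hs2).trans ?_) (norm_nonneg _) (by positivity)
    rw [Real.exp_le_exp]
    linarith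
  have hψl : ∀ s : ℝ, 0 < s → Tendsto (fun n => ψ n s) atTop
      (𝓝 (-(ω * s) * cexp (x0 * (ω * s) - s ^ (3 : ℕ) / 3))) := by
    intro s hs
    have h1 : Tendsto (fun n => (ζ n * cexp (1 + (‖ell (t n)‖ * s : ℝ) * e) + 1) / ell (t n)) atTop
        (𝓝 (-(ω * s))) := by
      have h2 : Tendsto (fun n => (ζ n * cexp (1 + (‖ell (t n)‖ * s : ℝ) * e) + 1) / ell (t n) +
          (‖ell (t n)‖ : ℂ) * e / ell (t n) * s) atTop (𝓝 0) := by
        have h3 : Tendsto (fun n => ‖ell (t n)‖ * s ^ (2 : ℕ) + 2 * (‖off (ζ n)‖ / ‖ell (t n)‖)) atTop (𝓝 0) := by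
          simpa using (hL0.mul_const (s ^ (2 : ℕ))).add (hv0.const_mul 2)
        refine squeeze_zero_norm' ?_ h3
        filter_upwards [hwb, hbt.eventually_ge_atTop s] with n hn hs2
        exact hn s hs hs2
      have h4 := h2.sub (hκ.mul_const (s : ℂ))
      simpa using h4
    exact h1.mul (hφl s hs)
  have hφb' : ∀ᶠ n in atTop, ∀ s : ℝ, 0 < s → s ≤ ρ / ‖ell (t n)‖ →
      ‖φ n s‖ ≤ ((M + 1) + s + s ^ (2 : ℕ)) * Real.exp (-(s ^ (3 : ℕ) / 4) + 2 * (M + 1) * s) := by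
    filter_upwards [hφb] with n h1 s hs hs2
    have h2 : Real.exp (-(s ^ (3 : ℕ) / 4) + 2 * M * s) ≤ Real.exp (-(s ^ (3 : ℕ) / 4) + 2 * (M + 1) * s) := by
      rw [Real.exp_le_exp]
      linarith
    have h3 : 0 < Real.exp (-(s ^ (3 : ℕ) / 4) + 2 * (M + 1) * s) := Real.exp_pos _
    have h4 := h1 s hs hs2
    nlinarith only [hM0, hs, h2, h3, h4]
  have lim1 := dct (by linarith : (0 : ℝ) ≤ M + 1) hbt hφc hφb' hφl
  have lim2 := dct (by linarith : (0 : ℝ) ≤ M + 1) hbt hψc hψb hψl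
  have hsz : ∀ n H, cexp (Ph (ζ n) H / t n) =
      sz (t n) (ζ n) * cexp ((Ph (ζ n) H - (-1 / 2 + off (ζ n))) / t n) := by
    intro n H
    unfold sz
    rw [← Complex.exp_add]
    congr 1
    ring
  have hsz0 : ∀ n, sz (t n) (ζ n) ≠ 0 := fun n => Complex.exp_ne_zero _
  constructor
  · have h1 : ∀ n, (P n (1 + ρ * e) - P n 1) / (sz (t n) (ζ n) * ell (t n)) =
        (∫ s in (0 : ℝ)..(ρ / ‖ell (t n)‖), φ n s) * ((‖ell (t n)‖ : ℂ) * e / ell (t n)) := by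
      intro n
      rw [ftc (hP n) (cont_Ph _ _) e (ρ := ρ) (hL n)]
      have h2 : (fun s : ℝ => cexp (Ph (ζ n) (1 + (‖ell (t n)‖ * s : ℝ) * e) / t n)) =
          fun s : ℝ => sz (t n) (ζ n) * φ n s := by
        funext s
        exact hsz n _
      rw [h2, intervalIntegral.integral_const_mul]
      have := hsz0 n
      have := ell_ne (h.ne n)
      field_simp
    simp_rw [h1]
    exact lim1.mul hκ
  · have h1 : ∀ n, (R n (1 + ρ * e) - R n 1) / (sz (t n) (ζ n) * ell (t n) ^ (2 : ℕ)) =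
        (∫ s in (0 : ℝ)..(ρ / ‖ell (t n)‖), ψ n s) * ((‖ell (t n)‖ : ℂ) * e / ell (t n)) := by
      intro n
      rw [ftc (hR n) (by have := cont_Ph (ζ n) (t n); fun_prop) e (ρ := ρ) (hL n)]
      have e2 := ell_ne (h.ne n)
      have h2 : (fun s : ℝ => (ζ n * cexp (1 + (‖ell (t n)‖ * s : ℝ) * e) + 1) *
          cexp (Ph (ζ n) (1 + (‖ell (t n)‖ * s : ℝ) * e) / t n)) =
          fun s : ℝ => (sz (t n) (ζ n) * ell (t n)) * ψ n s := by
        funext s
        rw [hsz n, hψ]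
        simp only
        rw [hφ]
        simp only
        field_simp
      rw [h2, intervalIntegral.integral_const_mul]
      have := hsz0 n
      field_simp
    simp_rw [h1]
    have h2 := lim2.mul hκ
    convert h2 using 2
    have h3 : (fun s : ℝ => -(ω * s) * cexp (x0 * (ω * s) - s ^ (3 : ℕ) / 3)) =
        fun s : ℝ => -ω * (s * cexp (x0 * (ω * s) - s ^ (3 : ℕ) / 3)) := by
      funext s
      ring
    rw [h3, MeasureTheory.integral_const_mul]
    ring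

theorem airy_lim {t ζ : ℕ → ℂ} {u0 x0 : ℂ} (h : Par t ζ (-cexp (-1)) u0) (hu0 : ‖u0‖ = 1)
    (hre : 0 ≤ u0.re) (him : 0 ≤ u0.im) (hT : TipConn u0)
    (hx : Tendsto (fun n => off (ζ n) * ell (t n) / t n) atTop (𝓝 x0)) :
    Tendsto (fun n => Ev (t n) (ζ n) / (sz (t n) (ζ n) * ell (t n))) atTop (𝓝 (Ai x0)) ∧
    Tendsto (fun n => (Dv (t n) (ζ n) + Ev (t n) (ζ n)) / (sz (t n) (ζ n) * ell (t n) ^ (2 : ℕ)))
      atTop (𝓝 (-Ad x0)) := by
  obtain ⟨ρ1, hρ1, hρ12, hbd⟩ := tip_bound hu0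
  obtain ⟨ρ, hρ, hρρ1, c1, hc1, C, hC⟩ := tip_split h hT hρ1
  obtain ⟨δ, hδ, hbig⟩ := sz_big h hc1
  obtain ⟨F, -, -, -, hF1, hF2, hF3, hF4⟩ := exists_fam h
  have harg : ∀ n H, F.u n * F.Ψ n H / F.τ n = Ph (ζ n) H / t n := by
    intro n H
    rw [hF1, hF2, hF3]
    have h1 : (‖t n‖ : ℂ) ≠ 0 := by
      exact_mod_cast (norm_pos_iff.mpr (h.ne n)).ne'
    have h2 := h.ne n
    field_simp
  have hP : ∀ n H, HasDerivAt (F.P n) (cexp (Ph (ζ n) H / t n)) H := by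
    intro n H
    rw [← harg]
    exact F.hP n H
  have hQ : ∀ n H, HasDerivAt (F.Q n) (ζ n * cexp H * cexp (Ph (ζ n) H / t n)) H := by
    intro n H
    have := F.hQ n H
    rw [harg, hF4] at this
    exact this
  have hR : ∀ n H, HasDerivAt (fun H => F.Q n H + F.P n H)
      ((ζ n * cexp H + 1) * cexp (Ph (ζ n) H / t n)) H := by
    intro n H
    refine ((hQ n H).add (hP n H)).congr_deriv ?_
    ring
  have hoff : Tendsto (fun n => ‖off (ζ n)‖) atTop (𝓝 0) := by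
    have h1 : Tendsto (fun n => off (ζ n)) atTop (𝓝 (off (-cexp (-1)))) := by
      have h2 : Continuous off := by
        unfold off
        fun_prop
      exact (h2.tendsto _).comp h.zet
    have h3 : off (-cexp (-1)) = 0 := by
      unfold off
      rw [mul_neg, ← Complex.exp_add]
      simp
    rw [h3] at h1
    simpa using h1.norm
  have hun : ∀ᶠ n in atTop, ‖(‖t n‖ : ℂ) / t n - u0‖ ≤ ρ1 := by
    have h1 : Tendsto (fun n => ‖(‖t n‖ : ℂ) / t n - u0‖) atTop (𝓝 0) := by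
      have := (h.dir.sub_const u0).norm
      simpa using this
    filter_upwards [h1.eventually_lt_const hρ1] with n hn
    exact hn.le
  have hω : ∀ θ : ℝ, (θ = 2 * Real.pi / 3 ∨ θ = -(2 * Real.pi / 3)) → (cexp (θ * I)) ^ (3 : ℕ) = 1 := by
    intro θ hθ
    rw [← Complex.exp_nat_mul]
    rcases hθ with rfl | rfl
    · rw [show ((3 : ℕ) : ℂ) * (((2 * Real.pi / 3 : ℝ) : ℂ) * I) = 2 * Real.pi * I by push_cast; ring]
      exact Complex.exp_two_pi_mul_I
    · rw [show ((3 : ℕ) : ℂ) * (((-(2 * Real.pi / 3) : ℝ) : ℂ) * I) = -(2 * Real.pi * I) by push_cast; ring,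
        Complex.exp_neg, Complex.exp_two_pi_mul_I, inv_one]
  have hep : ep u0 = cexp (((2 * Real.pi / 3 - u0.arg / 3 : ℝ) : ℂ) * I) := by
    unfold ep
    push_cast
    ring_nf
  have hem : em u0 = cexp (((-(2 * Real.pi / 3) - u0.arg / 3 : ℝ) : ℂ) * I) := by
    unfold em
    push_cast
    ring_nf
  have hb1 : ∀ᶠ n in atTop, ∀ y : ℝ, 0 ≤ y → y ≤ ρ →
      ((‖t n‖ : ℂ) / t n * (Ph (ζ n) (1 + y * ep u0) - (-1 / 2 + off (ζ n)))).re ≤
        -(y ^ (3 : ℕ) / 8) + 2 * ‖off (ζ n)‖ * y := by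
    filter_upwards [hun, hoff.eventually_lt_const hρ1] with n h1 h2 y hy hy2
    exact (hbd _ _ y h1 h2.le hy (hy2.trans hρρ1)).1
  have hb2 : ∀ᶠ n in atTop, ∀ y : ℝ, 0 ≤ y → y ≤ ρ →
      ((‖t n‖ : ℂ) / t n * (Ph (ζ n) (1 + y * em u0) - (-1 / 2 + off (ζ n)))).re ≤
        -(y ^ (3 : ℕ) / 8) + 2 * ‖off (ζ n)‖ * y := by
    filter_upwards [hun, hoff.eventually_lt_const hρ1] with n h1 h2 y hy hy2
    exact (hbd _ _ y h1 h2.le hy (hy2.trans hρρ1)).2
  have k1 := kap_lim h hu0 hre (2 * Real.pi / 3)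
  have k2 := kap_lim h hu0 hre (-(2 * Real.pi / 3))
  rw [← hep] at k1
  rw [← hem] at k2
  have n1 : ‖ep u0‖ = 1 := by
    rw [hep]
    exact Complex.norm_exp_ofReal_mul_I _
  have n2 : ‖em u0‖ = 1 := by
    rw [hem]
    exact Complex.norm_exp_ofReal_mul_I _
  obtain ⟨a1, a2⟩ := core h n1 (hω _ (Or.inl rfl)) k1 hx hρ (hρρ1.trans hρ12) hb1 hP hR
  obtain ⟨b1, b2⟩ := core h n2 (hω _ (Or.inr rfl)) k2 hx hρ (hρρ1.trans hρ12) hb2 hP hR
  have w1 : cexp (((2 * Real.pi / 3 : ℝ) : ℂ) * I) = cexp (2 * Real.pi * I / 3) := by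
    congr 1
    push_cast
    ring
  have w2 : cexp (((-(2 * Real.pi / 3) : ℝ) : ℂ) * I) = cexp (-(2 * Real.pi * I / 3)) := by
    congr 1
    push_cast
    ring
  rw [w1] at a1 a2
  rw [w2] at b1 b2
  have hL : ∀ n, 0 < ‖ell (t n)‖ := fun n => norm_pos_iff.mpr (ell_ne (h.ne n))
  have hL0 := ell_lim h.lim
  have hC0 : 0 ≤ |C| := abs_nonneg C
  have hsz0 : ∀ n, 0 < ‖sz (t n) (ζ n)‖ := fun n => norm_pos_iff.mpr (Complex.exp_ne_zero _)
  have hexp : ∀ n, Real.exp (-δ / ‖t n‖) ≤ ‖ell (t n)‖ ^ (3 : ℕ) / (2 * δ) := by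
    intro n
    have ht0 : 0 < ‖t n‖ := norm_pos_iff.mpr (h.ne n)
    have h1 : δ / ‖t n‖ ≤ Real.exp (δ / ‖t n‖) := by
      linarith [Real.add_one_le_exp (δ / ‖t n‖)]
    rw [norm_ell, neg_div, Real.exp_neg]
    have h2 : 0 < δ / ‖t n‖ := by positivity
    calc (Real.exp (δ / ‖t n‖))⁻¹ ≤ (δ / ‖t n‖)⁻¹ := inv_anti₀ h2 h1
      _ = 2 * ‖t n‖ / (2 * δ) := by
        rw [inv_div, mul_div_mul_left _ _ (by norm_num : (2 : ℝ) ≠ 0)]
  constructor
  · -- first limit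
    have r1 : Tendsto (fun n => (Ev (t n) (ζ n) - (F.P n (1 + ρ * ep u0) - F.P n (1 + ρ * em u0))) /
        (sz (t n) (ζ n) * ell (t n))) atTop (𝓝 0) := by
      have h4 : Tendsto (fun n => |C| * (‖ell (t n)‖ ^ (2 : ℕ) / (2 * δ))) atTop (𝓝 0) := by
        have := ((hL0.pow 2).div_const (2 * δ)).const_mul |C|
        simpa using this
      refine squeeze_zero_norm' ?_ h4
      filter_upwards [hC, hbig] with n h5 h6
      have h7 := (h5 _ _ (hP n) (hQ n)).1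
      have h8 := hexp n
      have h9 := hL n
      have h10 := hsz0 n
      rw [norm_div, norm_mul, div_le_iff₀ (by positivity)]
      calc _ ≤ C * Real.exp (c1 / ‖t n‖) := h7
        _ ≤ |C| * Real.exp (c1 / ‖t n‖) := by gcongr; exact le_abs_self C
        _ ≤ |C| * (Real.exp (-δ / ‖t n‖) * ‖sz (t n) (ζ n)‖) := by gcongr
        _ ≤ |C| * ((‖ell (t n)‖ ^ (3 : ℕ) / (2 * δ)) * ‖sz (t n) (ζ n)‖) := by gcongr
        _ = _ := by ring
    have r2 := (r1.add a1).sub b1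
    have h1 : ∀ n, Ev (t n) (ζ n) / (sz (t n) (ζ n) * ell (t n)) =
        (Ev (t n) (ζ n) - (F.P n (1 + ρ * ep u0) - F.P n (1 + ρ * em u0))) / (sz (t n) (ζ n) * ell (t n)) +
        (F.P n (1 + ρ * ep u0) - F.P n 1) / (sz (t n) (ζ n) * ell (t n)) -
        (F.P n (1 + ρ * em u0) - F.P n 1) / (sz (t n) (ζ n) * ell (t n)) := by
      intro n
      ring
    simp_rw [h1]
    convert r2 using 2
    unfold Ai
    rw [zero_add]
  · have r1 : Tendsto (fun n => (Ev (t n) (ζ n) - (F.P n (1 + ρ * ep u0) - F.P n (1 + ρ * em u0)) +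
        (Dv (t n) (ζ n) - (F.Q n (1 + ρ * ep u0) - F.Q n (1 + ρ * em u0)))) /
        (sz (t n) (ζ n) * ell (t n) ^ (2 : ℕ))) atTop (𝓝 0) := by
      have h4 : Tendsto (fun n => 2 * |C| * (‖ell (t n)‖ / (2 * δ))) atTop (𝓝 0) := by
        have := (hL0.div_const (2 * δ)).const_mul (2 * |C|)
        simpa using this
      refine squeeze_zero_norm' ?_ h4
      filter_upwards [hC, hbig] with n h5 h6
      obtain ⟨h7, h7'⟩ := h5 _ _ (hP n) (hQ n)
      have h8 := hexp n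
      have h9 := hL n
      have h10 := hsz0 n
      rw [norm_div, norm_mul, norm_pow, div_le_iff₀ (by positivity)]
      calc _ ≤ C * Real.exp (c1 / ‖t n‖) + C * Real.exp (c1 / ‖t n‖) :=
            (norm_add_le _ _).trans (add_le_add h7 h7')
        _ = 2 * C * Real.exp (c1 / ‖t n‖) := by ring
        _ ≤ 2 * |C| * Real.exp (c1 / ‖t n‖) := by gcongr; exact le_abs_self C
        _ ≤ 2 * |C| * (Real.exp (-δ / ‖t n‖) * ‖sz (t n) (ζ n)‖) := by gcongr
        _ ≤ 2 * |C| * ((‖ell (t n)‖ ^ (3 : ℕ) / (2 * δ)) * ‖sz (t n) (ζ n)‖) := by gcongr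
        _ = _ := by ring
    have r2 := (r1.add a2).sub b2
    have h1 : ∀ n, (Dv (t n) (ζ n) + Ev (t n) (ζ n)) / (sz (t n) (ζ n) * ell (t n) ^ (2 : ℕ)) =
        (Ev (t n) (ζ n) - (F.P n (1 + ρ * ep u0) - F.P n (1 + ρ * em u0)) +
        (Dv (t n) (ζ n) - (F.Q n (1 + ρ * ep u0) - F.Q n (1 + ρ * em u0)))) /
        (sz (t n) (ζ n) * ell (t n) ^ (2 : ℕ)) +
        (F.Q n (1 + ρ * ep u0) + F.P n (1 + ρ * ep u0) - (F.Q n 1 + F.P n 1)) / (sz (t n) (ζ n) * ell (t n) ^ (2 : ℕ)) -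
        (F.Q n (1 + ρ * em u0) + F.P n (1 + ρ * em u0) - (F.Q n 1 + F.P n 1)) / (sz (t n) (ζ n) * ell (t n) ^ (2 : ℕ)) := by
      intro n
      ring
    simp_rw [h1]
    convert r2 using 2
    unfold Ad
    ring

end SokamV

end

/-! ### Lib_MP_af4de1_v.TipScale -/

section
/-!
# Reduction to the cubic phase [SV-TIPS]

`v_n = off (ζ n) → 0`, `v_n ≠ 0`, `ε_n = √‖v_n‖`, `‖t n‖/ε_n³ → 0`, `v_n/‖v_n‖ → v0`.  The family: `Ψ n s = (Ph (ζ n)(1+ε_n s) - (-1/2+v_n))/ε_n³`,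
`Ψ0 = Cu v0`, `w n s = (ζ n e^{1+ε_n s} + 1)/ε_n → -s`, `τ n = ‖t n‖/ε_n³`, `u n = ‖t n‖/t n`; `u n Ψ n s/τ n = (Ph … - (-1/2+v_n))/t n`, locally uniform
limits by `tip_exp`, `tip_mult`.  If `P` is a primitive of `cexp(Ph (ζ n) H/t n)` then `P(1+ε_n s)/(ε_n sz)` is one for the family.
`tip_red`: `rep_E` with `R` from `TipConn` (and large, as in `val_nil`): `Ev = tails + [P(1+RI) - P(1+ρ ep)] + [P(1+ρ ep) - P(1+ε R' ep)] + [P(1+εR' ep) - P(1+εR' em)]
+ … `.  The first ones are `Small` at some `c1 < -u0.re/2` (`Fam.rel` for `exists_fam`), and `exp(c1/‖t‖)/(‖sz‖ε) ≤ exp(-δ/‖t‖)` eventually (`‖sz‖ =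
exp(Re((-1/2+v)/t))`, `ε ≥ ‖t‖^{1/3}`), which is `≤ exp(-R'³/(20 τ n))` because `τ n ≥ ‖t n‖/o(1)`.  The ray piece: by `tip_bound`, for `y ≥ ε R'`, `R' ≥ 6`:
`2‖v‖y = 2ε²y ≤ y³/16`, so it is `≤ ‖sz‖∫_{εR'}^ρ exp(-y³/(16‖t‖))dy = ‖sz‖ ε ∫_{R'} exp(-s³/(16τ))ds ≤ C‖sz‖ε exp(-R'³/(20τ))`.
For `Dv + Ev` the integrand has the factor `ζe^H+1`, of size `≤ 3y` on the ray, and `O(1)` on the rest; `Q`-primitives: `Q n s` of the family is
`(Q^{DE} + P)(1+ε_n s)/(ε_n² sz)`.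
-/

namespace SokamV

open Complex Filter Topology

/-- The sequence is at a scale larger than the Airy scale. -/
structure Scale (t ζ : ℕ → ℂ) (v0 : ℂ) : Prop where
  ne : ∀ n, off (ζ n) ≠ 0
  lim : Tendsto (fun n => off (ζ n)) atTop (𝓝 0)
  big : Tendsto (fun n => ‖t n‖ / √‖off (ζ n)‖ ^ (3 : ℕ)) atTop (𝓝 0)
  dir : Tendsto (fun n => off (ζ n) / ‖off (ζ n)‖) atTop (𝓝 v0)

private theorem ts_tlu {f : ℕ → ℂ → ℂ} {f0 : ℂ → ℂ}
    (h : ∀ K : ℝ, 0 < K → ∀ η : ℝ, 0 < η → ∀ᶠ n in atTop, ∀ s : ℂ, ‖s‖ ≤ K → ‖f n s - f0 s‖ < η) :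
    TendstoLocallyUniformly f f0 atTop := by
  rw [Metric.tendstoLocallyUniformly_iff]
  intro η hη x
  refine ⟨Metric.closedBall x 1, Metric.closedBall_mem_nhds x one_pos, ?_⟩
  filter_upwards [h (‖x‖ + 1) (by positivity) η hη] with n hn y hy
  rw [dist_comm, dist_eq_norm]
  refine hn y ?_
  have h1 : dist y x ≤ 1 := hy
  rw [dist_eq_norm] at h1
  have h2 : ‖y‖ ≤ ‖y - x‖ + ‖x‖ := by
    have := norm_add_le (y - x) x
    rwa [sub_add_cancel] at this
  linarith only [h1, h2]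

private theorem ts_pos {t ζ : ℕ → ℂ} {v0 : ℂ} (hs : Scale t ζ v0) {ε : ℕ → ℝ}
    (hε : ∀ n, ε n = √‖off (ζ n)‖) : (∀ n, 0 < ε n) ∧ (∀ n, ε n ^ (2 : ℕ) = ‖off (ζ n)‖) ∧ Tendsto ε atTop (𝓝 0) ∧
      Tendsto (fun n => ‖t n‖ / ε n ^ (3 : ℕ)) atTop (𝓝 0) := by
  refine ⟨fun n => ?_, fun n => ?_, ?_, ?_⟩
  · rw [hε]
    exact Real.sqrt_pos.2 (norm_pos_iff.2 (hs.ne n))
  · rw [hε]
    exact Real.sq_sqrt (norm_nonneg _)
  · have h1 : ε = fun n => √‖off (ζ n)‖ := funext hε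
    rw [h1]
    have h2 : Tendsto (fun n => ‖off (ζ n)‖) atTop (𝓝 0) := by
      have := hs.lim.norm
      simpa using this
    have h3 := (Real.continuous_sqrt.tendsto 0).comp h2
    simpa [Function.comp_def] using h3
  · have := hs.big
    refine this.congr (fun n => ?_)
    rw [hε]

private theorem ts_exp {t ζ : ℂ} (ht : t ≠ 0) {ε : ℝ} (hε : 0 < ε) (s : ℂ) :
    cexp (((‖t‖ : ℂ) / t) * ((Ph ζ (1 + ε * s) - (-1 / 2 + off ζ)) / (ε : ℂ) ^ (3 : ℕ)) / ((‖t‖ / ε ^ (3 : ℕ) : ℝ) : ℂ)) =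
      cexp (Ph ζ (1 + ε * s) / t) / sz t ζ := by
  have h1 : (‖t‖ : ℂ) ≠ 0 := by
    exact_mod_cast (norm_pos_iff.2 ht).ne'
  have h2 : (ε : ℂ) ≠ 0 := by exact_mod_cast hε.ne'
  have h3 : ((‖t‖ : ℂ) / t) * ((Ph ζ (1 + ε * s) - (-1 / 2 + off ζ)) / (ε : ℂ) ^ (3 : ℕ)) / ((‖t‖ / ε ^ (3 : ℕ) : ℝ) : ℂ) =
      Ph ζ (1 + ε * s) / t - (-1 / 2 + off ζ) / t := by
    push_cast
    field_simp
  rw [h3, Complex.exp_sub]
  rfl

private theorem ts_fam {t ζ : ℕ → ℂ} {u0 v0 : ℂ} (h : Par t ζ (-cexp (-1)) u0) (hs : Scale t ζ v0)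
    {P0 Q0 : ℕ → ℂ → ℂ} (hP : ∀ n H, HasDerivAt (P0 n) (cexp (Ph (ζ n) H / t n)) H)
    (hQ : ∀ n H, HasDerivAt (Q0 n) (ζ n * cexp H * cexp (Ph (ζ n) H / t n)) H)
    {ε : ℕ → ℝ} (hε : ∀ n, ε n = √‖off (ζ n)‖) : ∃ F : Fam, F.Ψ0 = Cu v0 ∧ F.w0 = (fun s => -s) ∧
      F.u0 = u0 ∧ (∀ n, F.τ n = ‖t n‖ / ε n ^ (3 : ℕ)) ∧
      (∀ n, F.u n = ‖t n‖ / t n) ∧
      (∀ n s, F.Ψ n s = (Ph (ζ n) (1 + ε n * s) - (-1 / 2 + off (ζ n))) / (ε n : ℂ) ^ (3 : ℕ)) ∧
      (∀ n s, F.w n s = (ζ n * cexp (1 + ε n * s) + 1) / ε n) ∧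
      (∀ n s, F.P n s = P0 n (1 + ε n * s) / (sz (t n) (ζ n) * ε n)) ∧
      (∀ n s, F.Q n s = (Q0 n (1 + ε n * s) + P0 n (1 + ε n * s)) / (sz (t n) (ζ n) * (ε n : ℂ) ^ (2 : ℕ))) := by
  obtain ⟨hε0, hε2, hεl, hτl⟩ := ts_pos hs hε
  have hεc : ∀ n, (ε n : ℂ) ≠ 0 := fun n => by exact_mod_cast (hε0 n).ne'
  have hsz : ∀ n, sz (t n) (ζ n) ≠ 0 := fun n => Complex.exp_ne_zero _
  have hlin : ∀ n (s : ℂ), HasDerivAt (fun s : ℂ => 1 + (ε n : ℂ) * s) (ε n) s := by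
    intro n s
    simpa using ((hasDerivAt_id s).const_mul (ε n : ℂ)).const_add 1
  have hne : ∀ (n : ℕ) (s : ℂ), ‖(ε n : ℂ) * s‖ = ε n * ‖s‖ := by
    intro n s
    rw [norm_mul, Complex.norm_real, Real.norm_eq_abs, abs_of_pos (hε0 n)]
  have hsmall : ∀ K : ℝ, 0 < K → ∀ η : ℝ, 0 < η → ∀ᶠ n in atTop, ε n * K < η := by
    intro K hK η hη
    have h1 : Tendsto (fun n => ε n * K) atTop (𝓝 0) := by
      simpa using hεl.mul_const K
    exact h1.eventually_lt_const hη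
  have hex : ∀ n, (fun s => cexp (((‖t n‖ : ℂ) / t n) * ((Ph (ζ n) (1 + ε n * s) - (-1 / 2 + off (ζ n))) / (ε n : ℂ) ^ (3 : ℕ)) /
      ((‖t n‖ / ε n ^ (3 : ℕ) : ℝ) : ℂ))) = fun s => cexp (Ph (ζ n) (1 + ε n * s) / t n) / sz (t n) (ζ n) := by
    intro n
    funext s
    exact ts_exp (h.ne n) (hε0 n) s
  refine ⟨{ Ψ := fun n s => (Ph (ζ n) (1 + ε n * s) - (-1 / 2 + off (ζ n))) / (ε n : ℂ) ^ (3 : ℕ)
            Ψ0 := Cu v0
            w := fun n s => (ζ n * cexp (1 + ε n * s) + 1) / ε n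
            w0 := fun s => -s
            u := fun n => ‖t n‖ / t n
            u0 := u0
            τ := fun n => ‖t n‖ / ε n ^ (3 : ℕ)
            P := fun n s => P0 n (1 + ε n * s) / (sz (t n) (ζ n) * ε n)
            Q := fun n s => (Q0 n (1 + ε n * s) + P0 n (1 + ε n * s)) / (sz (t n) (ζ n) * (ε n : ℂ) ^ (2 : ℕ))
            hΨ := ?_, hw := ?_, hΨlim := ?_, hwlim := ?_, hulim := h.dir, hτ := ?_, hτlim := hτl, hP := ?_, hQ := ?_ },
    rfl, rfl, rfl, fun n => rfl, fun n => rfl, fun n s => rfl, fun n s => rfl, fun n s => rfl, fun n s => rfl⟩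
  · intro n
    unfold Ph
    fun_prop
  · intro n
    fun_prop
  · refine ts_tlu (fun K hK η hη => ?_)
    have e1 := hsmall K hK (1 / 2) (by norm_num)
    have e2 := hsmall (K ^ (4 : ℕ) / 12 + K ^ (2 : ℕ)) (by positivity) (η / 2) (by positivity)
    have e3 : ∀ᶠ n in atTop, ‖off (ζ n) / ‖off (ζ n)‖ - v0‖ * K < η / 2 := by
      have h1 : Tendsto (fun n => ‖off (ζ n) / ‖off (ζ n)‖ - v0‖ * K) atTop (𝓝 0) := by
        have := ((hs.dir.sub_const v0).norm).mul_const K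
        simpa using this
      exact h1.eventually_lt_const (by positivity)
    filter_upwards [e1, e2, e3] with n h1 h2 h3 s hsK
    have hn := hε0 n
    have h4 : ‖(ε n : ℂ) * s‖ ≤ 1 / 2 := by
      rw [hne]
      have := mul_le_mul_of_nonneg_left hsK hn.le
      linarith only [h1, this]
    have h5 := tip_exp (ζ n) h4
    have h6 : (Ph (ζ n) (1 + ε n * s) - (-1 / 2 + off (ζ n))) / (ε n : ℂ) ^ (3 : ℕ) - Cu v0 s =
        (Ph (ζ n) (1 + ε n * s) - (-1 / 2 + off (ζ n)) - (off (ζ n) * (ε n * s) - (ε n * s) ^ (3 : ℕ) / 6)) / (ε n : ℂ) ^ (3 : ℕ) +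
          (off (ζ n) / ‖off (ζ n)‖ - v0) * s := by
      rw [← hε2 n]
      unfold Cu
      have := hεc n
      push_cast
      field_simp
      ring
    rw [h6]
    refine (norm_add_le _ _).trans_lt ?_
    rw [norm_div, norm_mul]
    have h7 : ‖(ε n : ℂ) ^ (3 : ℕ)‖ = ε n ^ (3 : ℕ) := by
      rw [norm_pow, Complex.norm_real, Real.norm_eq_abs, abs_of_pos hn]
    rw [h7]
    have h8 : ‖Ph (ζ n) (1 + ε n * s) - (-1 / 2 + off (ζ n)) - (off (ζ n) * (ε n * s) - (ε n * s) ^ (3 : ℕ) / 6)‖ / ε n ^ (3 : ℕ) ≤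
        ε n * (K ^ (4 : ℕ) / 12 + K ^ (2 : ℕ)) := by
      rw [div_le_iff₀ (by positivity)]
      refine h5.trans ?_
      rw [hne, ← hε2 n]
      have h9 : ‖s‖ ^ (4 : ℕ) ≤ K ^ (4 : ℕ) := pow_le_pow_left₀ (norm_nonneg _) hsK 4
      have h10 : ‖s‖ ^ (2 : ℕ) ≤ K ^ (2 : ℕ) := pow_le_pow_left₀ (norm_nonneg _) hsK 2
      calc (ε n * ‖s‖) ^ (4 : ℕ) / 12 + ε n ^ (2 : ℕ) * (ε n * ‖s‖) ^ (2 : ℕ) = ε n ^ (4 : ℕ) * (‖s‖ ^ (4 : ℕ) / 12 + ‖s‖ ^ (2 : ℕ)) := by ring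
        _ ≤ ε n ^ (4 : ℕ) * (K ^ (4 : ℕ) / 12 + K ^ (2 : ℕ)) := mul_le_mul_of_nonneg_left (by linarith only [h9, h10]) (by positivity)
        _ = ε n * (K ^ (4 : ℕ) / 12 + K ^ (2 : ℕ)) * ε n ^ (3 : ℕ) := by ring
    have h9 : ‖off (ζ n) / ‖off (ζ n)‖ - v0‖ * ‖s‖ ≤ ‖off (ζ n) / ‖off (ζ n)‖ - v0‖ * K :=
      mul_le_mul_of_nonneg_left hsK (norm_nonneg _)
    linarith only [h2, h3, h8, h9]
  · refine ts_tlu (fun K hK η hη => ?_)
    have e1 := hsmall K hK (1 / 2) (by norm_num)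
    have e2 := hsmall (K ^ (2 : ℕ) + 2) (by positivity) η hη
    filter_upwards [e1, e2] with n h1 h2 s hsK
    have hn := hε0 n
    have h4 : ‖(ε n : ℂ) * s‖ ≤ 1 / 2 := by
      rw [hne]
      have := mul_le_mul_of_nonneg_left hsK hn.le
      linarith only [h1, this]
    have h5 := tip_mult (ζ n) h4
    have h6 : (ζ n * cexp (1 + ε n * s) + 1) / ε n - -s = (ζ n * cexp (1 + ε n * s) + 1 + ε n * s) / ε n := by
      have := hεc n
      field_simp
      ring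
    rw [h6, norm_div, Complex.norm_real, Real.norm_eq_abs, abs_of_pos hn]
    refine lt_of_le_of_lt ?_ h2
    rw [div_le_iff₀ hn]
    refine h5.trans ?_
    rw [hne, ← hε2 n]
    have h10 : ‖s‖ ^ (2 : ℕ) ≤ K ^ (2 : ℕ) := pow_le_pow_left₀ (norm_nonneg _) hsK 2
    calc (ε n * ‖s‖) ^ (2 : ℕ) + 2 * ε n ^ (2 : ℕ) = ε n ^ (2 : ℕ) * (‖s‖ ^ (2 : ℕ) + 2) := by ring
      _ ≤ ε n ^ (2 : ℕ) * (K ^ (2 : ℕ) + 2) := mul_le_mul_of_nonneg_left (by linarith only [h10]) (by positivity)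
      _ = ε n * (K ^ (2 : ℕ) + 2) * ε n := by ring
  · intro n
    have h1 := norm_pos_iff.2 (h.ne n)
    have h2 := hε0 n
    positivity
  · intro n s
    have h1 := ((hP n (1 + ε n * s)).comp s (hlin n s)).div_const (sz (t n) (ζ n) * ε n)
    have h2 := congrFun (hex n) s
    beta_reduce at h2
    rw [h2]
    have h3 : cexp (Ph (ζ n) (1 + ε n * s) / t n) / sz (t n) (ζ n) =
        cexp (Ph (ζ n) (1 + ε n * s) / t n) * (ε n : ℂ) / (sz (t n) (ζ n) * ε n) := by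
      have := hεc n
      have := hsz n
      field_simp
    rw [h3]
    exact h1
  · intro n s
    have h1 := (((hQ n (1 + ε n * s)).add (hP n (1 + ε n * s))).comp s (hlin n s)).div_const
      (sz (t n) (ζ n) * (ε n : ℂ) ^ (2 : ℕ))
    have h2 := congrFun (hex n) s
    beta_reduce at h2
    rw [h2]
    have h3 : (ζ n * cexp (1 + ε n * s) + 1) / ε n * (cexp (Ph (ζ n) (1 + ε n * s) / t n) / sz (t n) (ζ n)) =
        (ζ n * cexp (1 + ε n * s) * cexp (Ph (ζ n) (1 + ε n * s) / t n) + cexp (Ph (ζ n) (1 + ε n * s) / t n)) *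
          (ε n : ℂ) / (sz (t n) (ζ n) * (ε n : ℂ) ^ (2 : ℕ)) := by
      have := hεc n
      have := hsz n
      field_simp
    rw [h3]
    exact h1

private theorem ts_ray {G g : ℂ → ℂ} (hG : ∀ s, HasDerivAt G (g s) s) {e : ℂ} (he : ‖e‖ = 1) {a b M : ℝ}
    (hab : a ≤ b) (ha : 0 ≤ a) (hM : 0 ≤ M) (hg : ∀ s : ℝ, a ≤ s → s ≤ b → ‖g (s * e)‖ ≤ M * Real.exp (-s)) :
    ‖G (b * e) - G (a * e)‖ ≤ M := by
  have h1 : ∀ x : ℝ, HasDerivAt (fun x : ℝ => G (x * e) - G (a * e)) (g (x * e) * e) x := by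
    intro x
    have h2 : HasDerivAt (fun x : ℝ => (x : ℂ) * e) e x := by
      simpa using (Complex.ofRealCLM.hasDerivAt (x := x)).mul_const e
    exact ((hG (x * e)).comp x h2).sub_const _
  have hB : ∀ x : ℝ, HasDerivAt (fun x : ℝ => M * (Real.exp (-a) - Real.exp (-x))) (M * Real.exp (-x)) x := by
    intro x
    have h2 : HasDerivAt (fun x : ℝ => Real.exp (-x)) (-Real.exp (-x)) x := by
      simpa using (hasDerivAt_neg x).exp
    have h3 := (h2.const_sub (Real.exp (-a))).const_mul M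
    simpa using h3
  have h3 := image_norm_le_of_norm_deriv_right_le_deriv_boundary (f := fun x : ℝ => G (x * e) - G (a * e))
    (f' := fun x : ℝ => g (x * e) * e) (a := a) (b := b)
    (fun x _ => (h1 x).continuousAt.continuousWithinAt) (fun x _ => (h1 x).hasDerivWithinAt)
    (B := fun x : ℝ => M * (Real.exp (-a) - Real.exp (-x))) (B' := fun x : ℝ => M * Real.exp (-x))
    (by simp) hB (fun x hx => by
      rw [norm_mul, he, mul_one]
      exact hg x hx.1 hx.2.le) (Set.right_mem_Icc.2 hab)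
  refine h3.trans ?_
  have h4 : Real.exp (-a) ≤ 1 := Real.exp_le_one_iff.2 (by linarith only [ha])
  have h5 : 0 < Real.exp (-b) := Real.exp_pos _
  have h6 : Real.exp (-a) - Real.exp (-b) ≤ 1 := by linarith only [h4, h5]
  calc M * (Real.exp (-a) - Real.exp (-b)) ≤ M * 1 := mul_le_mul_of_nonneg_left h6 hM
    _ = M := mul_one M

/-- the size of the integrand on the ray -/
private theorem ts_size {R s τ : ℝ} (hR : 6 ≤ R) (hs : R ≤ s) (hτ : 0 < τ) (hτ1 : τ ≤ 1 / 5) :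
    Real.exp ((-(s ^ (3 : ℕ) / 8) + 2 * s) / τ) ≤ Real.exp (-(R ^ (3 : ℕ) / 20) / τ) * Real.exp (-2 * s) := by
  rw [← Real.exp_add]
  refine Real.exp_le_exp.2 ?_
  have h6 : 6 ≤ s := hR.trans hs
  have h1 : 36 * s ≤ s ^ (3 : ℕ) := by linarith only [mul_nonneg (by linarith : 0 ≤ s) (by nlinarith : 0 ≤ s ^ (2 : ℕ) - 36)]
  have h2 : R ^ (3 : ℕ) ≤ s ^ (3 : ℕ) := pow_le_pow_left₀ (by linarith only [hR]) hs 3
  have h3 : 2 * s * τ ≤ 2 * s * (1 / 5) := mul_le_mul_of_nonneg_left hτ1 (by linarith only [h6])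
  have h4 : -(s ^ (3 : ℕ) / 8) + 2 * s ≤ -(R ^ (3 : ℕ) / 20) - 2 * s * τ := by linarith only [h6, h1, h2, h3]
  calc (-(s ^ (3 : ℕ) / 8) + 2 * s) / τ ≤ (-(R ^ (3 : ℕ) / 20) - 2 * s * τ) / τ := div_le_div_of_nonneg_right h4 hτ.le
    _ = -(R ^ (3 : ℕ) / 20) / τ + -2 * s := by field_simp; ring

private theorem norm_ep (u : ℂ) : ‖ep u‖ = 1 := by
  unfold ep
  have : ((2 * Real.pi / 3 - u.arg / 3) * I : ℂ) = ((2 * Real.pi / 3 - u.arg / 3 : ℝ) : ℂ) * I := by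
    push_cast; ring
  rw [this, Complex.norm_exp_ofReal_mul_I]

private theorem norm_em (u : ℂ) : ‖em u‖ = 1 := by
  unfold em
  have : ((-(2 * Real.pi / 3) - u.arg / 3) * I : ℂ) = ((-(2 * Real.pi / 3) - u.arg / 3 : ℝ) : ℂ) * I := by
    push_cast; ring
  rw [this, Complex.norm_exp_ofReal_mul_I]

/-- the two bounds on one ray -/
private theorem ts_onray {t ζ e : ℂ} (ht : t ≠ 0) (he : ‖e‖ = 1) {ε R ρ τ : ℝ} (hε : 0 < ε) (hε1 : ε ≤ 1)
    (hε2 : ε ^ (2 : ℕ) = ‖off ζ‖) (hτ : τ = ‖t‖ / ε ^ (3 : ℕ)) (hR : 6 ≤ R) (hτ1 : τ ≤ 1 / 5) (hρ : ρ ≤ 1 / 2) (hRρ : R ≤ ρ / ε)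
    (hb : ∀ y : ℝ, 0 ≤ y → y ≤ ρ → (((‖t‖ : ℂ) / t) * (Ph ζ (1 + y * e) - (-1 / 2 + off ζ))).re ≤
      -(y ^ (3 : ℕ) / 8) + 2 * ‖off ζ‖ * y)
    {P Q : ℂ → ℂ}
    (hP : ∀ s, HasDerivAt P (cexp (((‖t‖ : ℂ) / t) * ((Ph ζ (1 + ε * s) - (-1 / 2 + off ζ)) / (ε : ℂ) ^ (3 : ℕ)) / (τ : ℂ))) s)
    (hQ : ∀ s, HasDerivAt Q ((ζ * cexp (1 + ε * s) + 1) / ε *
      cexp (((‖t‖ : ℂ) / t) * ((Ph ζ (1 + ε * s) - (-1 / 2 + off ζ)) / (ε : ℂ) ^ (3 : ℕ)) / (τ : ℂ))) s) :
    ‖P ((ρ / ε : ℝ) * e) - P (R * e)‖ ≤ 3 * Real.exp (-(R ^ (3 : ℕ) / 20) / τ) ∧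
      ‖Q ((ρ / ε : ℝ) * e) - Q (R * e)‖ ≤ 3 * Real.exp (-(R ^ (3 : ℕ) / 20) / τ) := by
  have ht0 : 0 < ‖t‖ := norm_pos_iff.2 ht
  have hτ0 : 0 < τ := by rw [hτ]; positivity
  have hY : 0 < Real.exp (-(R ^ (3 : ℕ) / 20) / τ) := Real.exp_pos _
  have hexp : ∀ s : ℝ, R ≤ s → s ≤ ρ / ε →
      ‖cexp (((‖t‖ : ℂ) / t) * ((Ph ζ (1 + ε * (s * e)) - (-1 / 2 + off ζ)) / (ε : ℂ) ^ (3 : ℕ)) / (τ : ℂ))‖ ≤
        Real.exp (-(R ^ (3 : ℕ) / 20) / τ) * Real.exp (-2 * s) := by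
    intro s hs1 hs2
    refine le_trans ?_ (ts_size hR hs1 hτ0 hτ1)
    rw [Complex.norm_exp]
    refine Real.exp_le_exp.2 ?_
    have hs0 : 0 ≤ s := by linarith only [hR, hs1]
    have hy : ε * s ≤ ρ := by
      rw [le_div_iff₀ hε] at hs2
      linarith only [hs2]
    have h1 := hb (ε * s) (by positivity) hy
    have h2 : ((ε * s : ℝ) : ℂ) * e = ε * (s * e) := by push_cast; ring
    rw [h2, ← hε2] at h1
    have h3 : ((‖t‖ : ℂ) / t) * ((Ph ζ (1 + ε * (s * e)) - (-1 / 2 + off ζ)) / (ε : ℂ) ^ (3 : ℕ)) / (τ : ℂ) =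
        (((‖t‖ : ℂ) / t) * (Ph ζ (1 + ε * (s * e)) - (-1 / 2 + off ζ))) / ((ε ^ (3 : ℕ) * τ : ℝ) : ℂ) := by
      have h4 : (ε : ℂ) ≠ 0 := by exact_mod_cast hε.ne'
      have h5 : (τ : ℂ) ≠ 0 := by exact_mod_cast hτ0.ne'
      push_cast
      field_simp
    rw [h3, Complex.div_ofReal_re]
    have h6 : 0 < ε ^ (3 : ℕ) * τ := by positivity
    rw [div_le_iff₀ h6]
    refine h1.trans (le_of_eq ?_)
    field_simp
  have hne : ∀ s : ℝ, 0 ≤ s → ‖(ε : ℂ) * (s * e)‖ = ε * s := by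
    intro s hs
    rw [norm_mul, norm_mul, he, Complex.norm_real, Complex.norm_real, Real.norm_eq_abs, Real.norm_eq_abs,
      abs_of_pos hε, abs_of_nonneg hs, mul_one]
  have hw : ∀ s : ℝ, R ≤ s → s ≤ ρ / ε → ‖(ζ * cexp (1 + ε * (s * e)) + 1) / ε‖ ≤ 3 * s := by
    intro s hs1 hs2
    have hs0 : 0 ≤ s := by linarith only [hR, hs1]
    have hy : ε * s ≤ 1 / 2 := by
      rw [le_div_iff₀ hε] at hs2
      linarith only [hρ, hs2]
    have h1 := tip_mult ζ (h := (ε : ℂ) * (s * e)) (by rw [hne s hs0]; exact hy)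
    rw [hne s hs0, ← hε2] at h1
    have h2 : ‖ζ * cexp (1 + ε * (s * e)) + 1‖ ≤ ε * s + ((ε * s) ^ (2 : ℕ) + 2 * ε ^ (2 : ℕ)) := by
      have h3 : ζ * cexp (1 + ε * (s * e)) + 1 = (ζ * cexp (1 + ε * (s * e)) + 1 + ε * (s * e)) - ε * (s * e) := by ring
      rw [h3]
      refine (norm_sub_le _ _).trans ?_
      rw [hne s hs0]
      linarith only [h1]
    rw [norm_div, Complex.norm_real, Real.norm_eq_abs, abs_of_pos hε, div_le_iff₀ hε]
    refine h2.trans ?_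
    have h4 : (ε * s) ^ (2 : ℕ) ≤ 1 / 2 * (ε * s) := by
      rw [pow_two]
      exact mul_le_mul_of_nonneg_right hy (by positivity)
    have h5 : ε ^ (2 : ℕ) ≤ ε := by nlinarith only [hε, hε1]
    have h6 : 6 * ε ≤ ε * s := by nlinarith only [hR, hs1, h5]
    linarith only [hε, h4, h5, h6]
  constructor
  · refine ts_ray hP he hRρ (by linarith only [hR]) (by positivity) (fun s hs1 hs2 => ?_)
    refine (hexp s hs1 hs2).trans ?_
    have h1 : Real.exp (-2 * s) ≤ Real.exp (-s) := Real.exp_le_exp.2 (by linarith only [hR, hs1])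
    have h2 : 0 < Real.exp (-s) := Real.exp_pos _
    nlinarith only [h1, h2, mul_pos hY h2]
  · refine ts_ray hQ he hRρ (by linarith only [hR]) (by positivity) (fun s hs1 hs2 => ?_)
    rw [norm_mul]
    have hs0 : 0 ≤ s := by linarith only [hR, hs1]
    have h1 := mul_le_mul (hw s hs1 hs2) (hexp s hs1 hs2) (norm_nonneg _) (by positivity)
    refine h1.trans ?_
    have h2 : Real.exp (-2 * s) = Real.exp (-s) * Real.exp (-s) := by
      rw [← Real.exp_add]; ring_nf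
    have h3 : s * Real.exp (-s) ≤ 1 := by
      have h4 : s ≤ Real.exp s := by linarith only [Real.add_one_le_exp s]
      have h5 : Real.exp s * Real.exp (-s) = 1 := by rw [← Real.exp_add]; simp
      have := mul_le_mul_of_nonneg_right h4 (Real.exp_pos (-s)).le
      linarith only [h5, this]
    have h4 : 0 ≤ 3 * Real.exp (-(R ^ (3 : ℕ) / 20) / τ) * Real.exp (-s) := by positivity
    calc 3 * s * (Real.exp (-(R ^ (3 : ℕ) / 20) / τ) * Real.exp (-2 * s)) =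
        (3 * Real.exp (-(R ^ (3 : ℕ) / 20) / τ) * Real.exp (-s)) * (s * Real.exp (-s)) := by rw [h2]; ring
      _ ≤ (3 * Real.exp (-(R ^ (3 : ℕ) / 20) / τ) * Real.exp (-s)) * 1 := mul_le_mul_of_nonneg_left h3 h4
      _ = _ := by ring

/-- the comparison of the far part -/
private theorem ts_cmp {t ζ : ℕ → ℂ} {u0 v0 : ℂ} (h : Par t ζ (-cexp (-1)) u0) (hs : Scale t ζ v0) {ε : ℕ → ℝ}
    (hε : ∀ n, ε n = √‖off (ζ n)‖) {c' : ℝ} (hc : c' < -u0.re / 2) (R : ℝ) :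
    ∃ C : ℝ, 0 ≤ C ∧ ∀ᶠ n in atTop, Real.exp (c' / ‖t n‖) ≤
      C * (‖sz (t n) (ζ n)‖ * ε n ^ (2 : ℕ)) * Real.exp (-(R ^ (3 : ℕ) / 20) / (‖t n‖ / ε n ^ (3 : ℕ))) := by
  obtain ⟨hε0, hε2, hεl, hτl⟩ := ts_pos hs hε
  obtain ⟨δ, hδ⟩ : ∃ δ : ℝ, δ = (-u0.re / 2 - c') / 2 := ⟨_, rfl⟩
  have hδ0 : 0 < δ := by rw [hδ]; linarith only [hc]
  refine ⟨2 / δ, by positivity, ?_⟩
  have e1 : ∀ᶠ n in atTop, c' + δ < (((‖t n‖ : ℂ) / t n) * (-1 / 2 + off (ζ n))).re := by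
    have h1 : Tendsto (fun n => ((‖t n‖ : ℂ) / t n) * (-1 / 2 + off (ζ n))) atTop (𝓝 (u0 * (-1 / 2 + 0))) :=
      h.dir.mul (hs.lim.const_add _)
    have h2 := (Complex.continuous_re.tendsto _).comp h1
    have h3 : (u0 * (-1 / 2 + 0)).re = -u0.re / 2 := by
      rw [add_zero, show (-1 / 2 : ℂ) = ((-1 / 2 : ℝ) : ℂ) by push_cast; ring, Complex.re_mul_ofReal]
      ring
    rw [h3] at h2
    exact h2.eventually_const_lt (by rw [hδ]; linarith only [hc])
  have e2 : ∀ᶠ n in atTop, ε n < 1 := hεl.eventually_lt_const one_pos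
  have e3 : ∀ᶠ n in atTop, ‖t n‖ / ε n ^ (3 : ℕ) < 1 := hτl.eventually_lt_const one_pos
  have e4 : ∀ᶠ n in atTop, R ^ (3 : ℕ) / 20 * ε n ^ (3 : ℕ) < δ / 2 := by
    have h1 : Tendsto (fun n => R ^ (3 : ℕ) / 20 * ε n ^ (3 : ℕ)) atTop (𝓝 (R ^ (3 : ℕ) / 20 * 0 ^ (3 : ℕ))) :=
      (hεl.pow 3).const_mul _
    rw [show R ^ (3 : ℕ) / 20 * (0 : ℝ) ^ (3 : ℕ) = 0 by ring] at h1
    exact h1.eventually_lt_const (by positivity)
  filter_upwards [e1, e2, e3, e4] with n h1 h2 h3 h4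
  have ht0 : 0 < ‖t n‖ := norm_pos_iff.2 (h.ne n)
  have hn := hε0 n
  have hsz : Real.exp ((c' + δ) / ‖t n‖) ≤ ‖sz (t n) (ζ n)‖ := by
    unfold sz
    rw [Complex.norm_exp]
    refine Real.exp_le_exp.2 ?_
    have h5 : (-1 / 2 + off (ζ n)) / t n = (((‖t n‖ : ℂ) / t n) * (-1 / 2 + off (ζ n))) / (‖t n‖ : ℝ) := by
      have h6 : (‖t n‖ : ℂ) ≠ 0 := by exact_mod_cast ht0.ne'
      have h7 := h.ne n
      field_simp
    rw [h5, Complex.div_ofReal_re]
    exact div_le_div_of_nonneg_right h1.le ht0.le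
  have h5 : Real.exp (c' / ‖t n‖) = Real.exp ((c' + δ) / ‖t n‖) * (Real.exp (-(δ / 2 / ‖t n‖)) * Real.exp (-(δ / 2 / ‖t n‖))) := by
    rw [← Real.exp_add, ← Real.exp_add]
    congr 1
    field_simp
    ring
  have h6 : Real.exp (-(δ / 2 / ‖t n‖)) ≤ 2 / δ * ε n ^ (2 : ℕ) := by
    have h7 : 0 < δ / 2 / ‖t n‖ := by positivity
    have h8 : δ / 2 / ‖t n‖ ≤ Real.exp (δ / 2 / ‖t n‖) := by linarith only [Real.add_one_le_exp (δ / 2 / ‖t n‖)]
    have h9 : Real.exp (-(δ / 2 / ‖t n‖)) ≤ (δ / 2 / ‖t n‖)⁻¹ := by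
      rw [Real.exp_neg]
      exact inv_anti₀ h7 h8
    refine h9.trans ?_
    have h10 : (δ / 2 / ‖t n‖)⁻¹ = 2 / δ * ‖t n‖ := by field_simp
    rw [h10]
    refine mul_le_mul_of_nonneg_left ?_ (by positivity)
    rw [div_lt_one (by positivity)] at h3
    have h11 : ε n ^ (3 : ℕ) ≤ ε n ^ (2 : ℕ) := by
      calc ε n ^ (3 : ℕ) = ε n * ε n ^ (2 : ℕ) := by ring
        _ ≤ 1 * ε n ^ (2 : ℕ) := mul_le_mul_of_nonneg_right h2.le (by positivity)
        _ = ε n ^ (2 : ℕ) := one_mul _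
    linarith only [h3, h11]
  have h7 : Real.exp (-(δ / 2 / ‖t n‖)) ≤ Real.exp (-(R ^ (3 : ℕ) / 20) / (‖t n‖ / ε n ^ (3 : ℕ))) := by
    refine Real.exp_le_exp.2 ?_
    have h8 : -(R ^ (3 : ℕ) / 20) / (‖t n‖ / ε n ^ (3 : ℕ)) = -((R ^ (3 : ℕ) / 20 * ε n ^ (3 : ℕ)) / ‖t n‖) := by field_simp
    rw [h8, neg_le_neg_iff]
    exact div_le_div_of_nonneg_right h4.le ht0.le
  rw [h5]
  have hY : 0 < Real.exp (-(δ / 2 / ‖t n‖)) := Real.exp_pos _
  calc Real.exp ((c' + δ) / ‖t n‖) * (Real.exp (-(δ / 2 / ‖t n‖)) * Real.exp (-(δ / 2 / ‖t n‖))) ≤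
      ‖sz (t n) (ζ n)‖ * ((2 / δ * ε n ^ (2 : ℕ)) * Real.exp (-(R ^ (3 : ℕ) / 20) / (‖t n‖ / ε n ^ (3 : ℕ)))) :=
        mul_le_mul hsz (mul_le_mul h6 h7 hY.le (by positivity)) (by positivity) (norm_nonneg _)
    _ = _ := by ring

/-- the far part -/
private theorem ts_far {t ζ : ℕ → ℂ} {u0 : ℂ} (h : Par t ζ (-cexp (-1)) u0) {F : Fam}
    (hΨ0 : F.Ψ0 = Ph (-cexp (-1))) (hu0 : F.u0 = u0) (hτ : ∀ n, F.τ n = ‖t n‖)
    (hP : ∀ n H, HasDerivAt (F.P n) (cexp (Ph (ζ n) H / t n)) H)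
    (hQ : ∀ n H, HasDerivAt (F.Q n) (ζ n * cexp H * cexp (Ph (ζ n) H / t n)) H) {A B : ℂ} {c' R0 : ℝ}
    (hconn : ∀ R : ℝ, R0 ≤ R → Conn (Gh u0 (-cexp (-1))) c' (-1 - R * I) B ∧ Conn (Gh u0 (-cexp (-1))) c' A (1 + R * I)) :
    ∃ C : ℝ, 0 ≤ C ∧ ∀ᶠ n in atTop, ‖Ev (t n) (ζ n) - (F.P n A - F.P n B)‖ ≤ C * Real.exp (c' / ‖t n‖) ∧
      ‖Dv (t n) (ζ n) - (F.Q n A - F.Q n B)‖ ≤ C * Real.exp (c' / ‖t n‖) := by
  obtain ⟨Z, hZ⟩ : ∃ Z : ℝ, Z = ‖-cexp (-1)‖ + 1 := ⟨_, rfl⟩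
  have hZ0 : 0 < Z := by rw [hZ]; positivity
  obtain ⟨R, hR1, hR2, hR3⟩ : ∃ R : ℝ, R0 ≤ R ∧ 1 ≤ R ∧ 1 / 2 + 3 * Z - R / 2 ≤ c' :=
    ⟨max (max R0 1) (2 * (1 / 2 + 3 * Z - c')), (le_max_left _ _).trans (le_max_left _ _),
      (le_max_right _ _).trans (le_max_left _ _), by
        have := le_max_right (max R0 1) (2 * (1 / 2 + 3 * Z - c'))
        linarith only [this]⟩
  obtain ⟨hc1, hc2⟩ := hconn R hR1
  have hg : (fun H => (F.u0 * F.Ψ0 H).re) = Gh u0 (-cexp (-1)) := by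
    rw [hu0, hΨ0]
    rfl
  rw [← hg] at hc1 hc2
  obtain ⟨C1, h1⟩ := F.rel hc1
  obtain ⟨C2, h2⟩ := F.rel hc2
  have e3 : ∀ᶠ n in atTop, ‖ζ n‖ < Z := by
    refine h.zet.norm.eventually_lt_const ?_
    rw [hZ]
    linarith only []
  have e4 : ∀ᶠ n in atTop, ‖t n‖ < 1 := by
    have h5 := h.lim.norm
    rw [norm_zero] at h5
    exact h5.eventually_lt_const one_pos
  refine ⟨|C1| + |C2| + 12 * Z + 4, by positivity, ?_⟩
  filter_upwards [h1, h2, e3, e4] with n h1 h2 h3 h4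
  rw [hτ] at h1 h2
  have ht0 : 0 < ‖t n‖ := norm_pos_iff.2 (h.ne n)
  obtain ⟨y, hy⟩ : ∃ y : ℝ, y = Real.exp (c' / ‖t n‖) := ⟨_, rfl⟩
  have hy0 : 0 < y := by rw [hy]; exact Real.exp_pos _
  rw [← hy] at h1 h2 ⊢
  have hexp : Real.exp ((1 / 2 + 3 * ‖ζ n‖ - R / 2) / ‖t n‖) ≤ y := by
    rw [hy]
    refine Real.exp_le_exp.2 (div_le_div_of_nonneg_right ?_ ht0.le)
    linarith only [hR3, h3]
  obtain ⟨hp1, hp2⟩ := tail_pos (h.ne n) (h.re n) (h.im n) (ζ := ζ n) hR2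
  obtain ⟨hn1, hn2⟩ := tail_neg (h.ne n) (h.re n) (h.im n) (ζ := ζ n) hR2
  have hE : (2 * ‖t n‖) * Real.exp ((1 / 2 + 3 * ‖ζ n‖ - R / 2) / ‖t n‖) ≤ 2 * y :=
    mul_le_mul (by linarith only [h4]) hexp (Real.exp_pos _).le (by norm_num)
  have hD : (6 * ‖ζ n‖ * ‖t n‖) * Real.exp ((1 / 2 + 3 * ‖ζ n‖ - R / 2) / ‖t n‖) ≤ (6 * Z) * y := by
    refine mul_le_mul ?_ hexp (Real.exp_pos _).le (by positivity)
    have h5 : ‖ζ n‖ * ‖t n‖ ≤ Z * 1 := mul_le_mul h3.le h4.le ht0.le hZ0.le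
    linarith only [h5]
  have hC1 : C1 * y ≤ |C1| * y := mul_le_mul_of_nonneg_right (le_abs_self _) hy0.le
  have hC2 : C2 * y ≤ |C2| * y := mul_le_mul_of_nonneg_right (le_abs_self _) hy0.le
  have hZy : 0 < Z * y := by positivity
  constructor
  · have h5 := rep_E (h.ne n) (h.re n) (h.im n) R (hP n)
    have h6 : Ev (t n) (ζ n) - (F.P n A - F.P n B) = (F.P n (1 + R * I) - F.P n A) +
        (F.P n B - F.P n (-1 - R * I)) + (∫ s in Set.Ioi R, cexp (Ph (ζ n) (1 + s * I) / t n)) * I +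
        (∫ s in Set.Iio (-R), cexp (Ph (ζ n) (-1 + s * I) / t n)) * I := by
      unfold Ev
      rw [h5]
      ring
    rw [h6]
    refine (norm_add_le _ _).trans ?_
    refine (add_le_add_left ((norm_add_le _ _).trans (add_le_add_left (norm_add_le _ _) _)) _).trans ?_
    rw [norm_mul, norm_mul, Complex.norm_I, mul_one, mul_one]
    have := h1.1
    have := h2.1
    linarith only [h2, h1, hp1, hn1, hE, hC1, hC2, hZy]
  · have h5 := rep_DE (h.ne n) (h.re n) (h.im n) R (hQ n)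
    have h6 : Dv (t n) (ζ n) - (F.Q n A - F.Q n B) = (F.Q n (1 + R * I) - F.Q n A) +
        (F.Q n B - F.Q n (-1 - R * I)) +
        (∫ s in Set.Ioi R, ζ n * cexp (1 + s * I) * cexp (Ph (ζ n) (1 + s * I) / t n)) * I +
        (∫ s in Set.Iio (-R), ζ n * cexp (-1 + s * I) * cexp (Ph (ζ n) (-1 + s * I) / t n)) * I := by
      unfold Dv
      rw [h5]
      ring
    rw [h6]
    refine (norm_add_le _ _).trans ?_
    refine (add_le_add_left ((norm_add_le _ _).trans (add_le_add_left (norm_add_le _ _) _)) _).trans ?_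
    rw [norm_mul, norm_mul, Complex.norm_I, mul_one, mul_one]
    have := h1.2
    have := h2.2
    linarith only [h2, h1, hy0, hp2, hn2, hD, hC1, hC2]

theorem tip_red {t ζ : ℕ → ℂ} {u0 v0 : ℂ} (h : Par t ζ (-cexp (-1)) u0) (hu0 : ‖u0‖ = 1)
    (hT : TipConn u0) (hs : Scale t ζ v0) : ∃ F : Fam, F.Ψ0 = Cu v0 ∧ F.w0 = (fun s => -s) ∧
      F.u0 = u0 ∧ (∀ n, F.τ n = ‖t n‖ / √‖off (ζ n)‖ ^ (3 : ℕ)) ∧
      ∀ R : ℝ, 6 ≤ R → ∃ C : ℝ, ∀ᶠ n in atTop,
        ‖Ev (t n) (ζ n) / (sz (t n) (ζ n) * √‖off (ζ n)‖) -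
          (F.P n (R * ep u0) - F.P n (R * em u0))‖ ≤ C * Real.exp (-(R ^ (3 : ℕ) / 20) / F.τ n) ∧
        ‖(Dv (t n) (ζ n) + Ev (t n) (ζ n)) / (sz (t n) (ζ n) * √‖off (ζ n)‖ ^ (2 : ℕ)) -
          (F.Q n (R * ep u0) - F.Q n (R * em u0))‖ ≤ C * Real.exp (-(R ^ (3 : ℕ) / 20) / F.τ n) := by
  obtain ⟨ε, hε⟩ : ∃ ε : ℕ → ℝ, ∀ n, ε n = √‖off (ζ n)‖ := ⟨_, fun n => rfl⟩
  obtain ⟨hε0, hε2, hεl, hτl⟩ := ts_pos hs hε
  obtain ⟨G, hG0, -, hGu0, hGτ, hGu, hGΨ, hGw⟩ := exists_fam h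
  have hP0 : ∀ n H, HasDerivAt (G.P n) (cexp (Ph (ζ n) H / t n)) H := by
    intro n H
    have h1 := G.hP n H
    have h2 : (‖t n‖ : ℂ) ≠ 0 := by exact_mod_cast (norm_pos_iff.2 (h.ne n)).ne'
    have h3 : ((‖t n‖ : ℂ) / t n) * Ph (ζ n) H / (‖t n‖ : ℂ) = Ph (ζ n) H / t n := by
      have h4 := h.ne n
      field_simp
    rwa [hGu, hGΨ, hGτ, h3] at h1
  have hQ0 : ∀ n H, HasDerivAt (G.Q n) (ζ n * cexp H * cexp (Ph (ζ n) H / t n)) H := by
    intro n H
    have h1 := G.hQ n H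
    have h2 : (‖t n‖ : ℂ) ≠ 0 := by exact_mod_cast (norm_pos_iff.2 (h.ne n)).ne'
    have h3 : ((‖t n‖ : ℂ) / t n) * Ph (ζ n) H / (‖t n‖ : ℂ) = Ph (ζ n) H / t n := by
      have h4 := h.ne n
      field_simp
    rwa [hGu, hGΨ, hGτ, h3, hGw] at h1
  obtain ⟨F, hF1, hF2, hF3, hFτ, hFu, hFΨ, hFw, hFP, hFQ⟩ := ts_fam h hs hP0 hQ0 hε
  refine ⟨F, hF1, hF2, hF3, fun n => by rw [hFτ, hε], fun R hR => ?_⟩
  obtain ⟨ρ0, hρ0, hρc⟩ := hT
  obtain ⟨ρ1, hρ1, hρ12, hb⟩ := tip_bound hu0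
  obtain ⟨ρ, hρ, hρl, hρr⟩ : ∃ ρ : ℝ, 0 < ρ ∧ ρ ≤ ρ0 ∧ ρ ≤ ρ1 :=
    ⟨min ρ0 ρ1, lt_min hρ0 hρ1, min_le_left _ _, min_le_right _ _⟩
  obtain ⟨c', hc', R0, hconn⟩ := hρc ρ hρ hρl
  obtain ⟨C0, hC0, e0⟩ := ts_far h hG0 hGu0 hGτ hP0 hQ0 hconn
  obtain ⟨C1, hC1, e1⟩ := ts_cmp h hs hε hc' R
  have e2 : ∀ᶠ n in atTop, ε n < 1 := hεl.eventually_lt_const one_pos
  have e3 : ∀ᶠ n in atTop, ‖t n‖ / ε n ^ (3 : ℕ) < 1 / 5 := hτl.eventually_lt_const (by norm_num)
  have e4 : ∀ᶠ n in atTop, ε n * R < ρ := by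
    have h1 : Tendsto (fun n => ε n * R) atTop (𝓝 0) := by simpa using hεl.mul_const R
    exact h1.eventually_lt_const hρ
  have e5 : ∀ᶠ n in atTop, ‖(‖t n‖ : ℂ) / t n - u0‖ < ρ1 := by
    have h1 : Tendsto (fun n => ‖(‖t n‖ : ℂ) / t n - u0‖) atTop (𝓝 0) := by
      have := (h.dir.sub_const u0).norm
      simpa using this
    exact h1.eventually_lt_const hρ1
  have e6 : ∀ᶠ n in atTop, ‖off (ζ n)‖ < ρ1 := by
    have h1 := hs.lim.norm
    rw [norm_zero] at h1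
    exact h1.eventually_lt_const hρ1
  refine ⟨(2 * C0) * C1 + 6, ?_⟩
  filter_upwards [e0, e1, e2, e3, e4, e5, e6] with n h0 h1 h2 h3 h4 h5 h6
  rw [← hε n]
  have hn := hε0 n
  have hnc : (ε n : ℂ) ≠ 0 := by exact_mod_cast hn.ne'
  have hszc : sz (t n) (ζ n) ≠ 0 := Complex.exp_ne_zero _
  have hsz0 : 0 < ‖sz (t n) (ζ n)‖ := norm_pos_iff.2 hszc
  have hRρ : R ≤ ρ / ε n := by
    rw [le_div_iff₀ hn]
    linarith only [h4]
  have hbe : ∀ y : ℝ, 0 ≤ y → y ≤ ρ → (((‖t n‖ : ℂ) / t n) * (Ph (ζ n) (1 + y * ep u0) - (-1 / 2 + off (ζ n)))).re ≤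
      -(y ^ (3 : ℕ) / 8) + 2 * ‖off (ζ n)‖ * y := fun y hy1 hy2 => (hb _ _ y h5.le h6.le hy1 (hy2.trans hρr)).1
  have hbm : ∀ y : ℝ, 0 ≤ y → y ≤ ρ → (((‖t n‖ : ℂ) / t n) * (Ph (ζ n) (1 + y * em u0) - (-1 / 2 + off (ζ n)))).re ≤
      -(y ^ (3 : ℕ) / 8) + 2 * ‖off (ζ n)‖ * y := fun y hy1 hy2 => (hb _ _ y h5.le h6.le hy1 (hy2.trans hρr)).2
  have hFP' : ∀ s, HasDerivAt (F.P n) (cexp (((‖t n‖ : ℂ) / t n) *
      ((Ph (ζ n) (1 + ε n * s) - (-1 / 2 + off (ζ n))) / (ε n : ℂ) ^ (3 : ℕ)) / (F.τ n : ℂ))) s := by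
    intro s
    have h7 := F.hP n s
    rwa [hFu, hFΨ] at h7
  have hFQ' : ∀ s, HasDerivAt (F.Q n) ((ζ n * cexp (1 + ε n * s) + 1) / ε n * cexp (((‖t n‖ : ℂ) / t n) *
      ((Ph (ζ n) (1 + ε n * s) - (-1 / 2 + off (ζ n))) / (ε n : ℂ) ^ (3 : ℕ)) / (F.τ n : ℂ))) s := by
    intro s
    have h7 := F.hQ n s
    rwa [hFu, hFΨ, hFw] at h7
  have hτ1 : F.τ n ≤ 1 / 5 := by rw [hFτ]; exact h3.le
  obtain ⟨hp1, hp2⟩ := ts_onray (h.ne n) (norm_ep u0) hn h2.le (hε2 n) (hFτ n) hR hτ1 (hρr.trans hρ12) hRρ hbe hFP' hFQ'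
  obtain ⟨hm1, hm2⟩ := ts_onray (h.ne n) (norm_em u0) hn h2.le (hε2 n) (hFτ n) hR hτ1 (hρr.trans hρ12) hRρ hbm hFP' hFQ'
  have hend : ∀ e : ℂ, 1 + (ε n : ℂ) * ((ρ / ε n : ℝ) * e) = 1 + ρ * e := by
    intro e
    push_cast
    field_simp
  rw [← hFτ n] at h1
  obtain ⟨Y, hY⟩ : ∃ Y : ℝ, Y = Real.exp (-(R ^ (3 : ℕ) / 20) / F.τ n) := ⟨_, rfl⟩
  rw [← hY] at hp1 hp2 hm1 hm2 h1 ⊢
  have hY0 : 0 < Y := by rw [hY]; exact Real.exp_pos _
  obtain ⟨hE, hD⟩ := h0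
  have hE' := hE.trans (mul_le_mul_of_nonneg_left h1 hC0)
  have hD' := hD.trans (mul_le_mul_of_nonneg_left h1 hC0)
  have hnorm1 : ‖sz (t n) (ζ n) * (ε n : ℂ)‖ = ‖sz (t n) (ζ n)‖ * ε n := by
    rw [norm_mul, Complex.norm_real, Real.norm_eq_abs, abs_of_pos hn]
  have hnorm2 : ‖sz (t n) (ζ n) * (ε n : ℂ) ^ (2 : ℕ)‖ = ‖sz (t n) (ζ n)‖ * ε n ^ (2 : ℕ) := by
    rw [norm_mul, norm_pow, Complex.norm_real, Real.norm_eq_abs, abs_of_pos hn]
  have hεε : ε n ^ (2 : ℕ) ≤ ε n := by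
    calc ε n ^ (2 : ℕ) = ε n * ε n := pow_two _
      _ ≤ 1 * ε n := mul_le_mul_of_nonneg_right h2.le hn.le
      _ = ε n := one_mul _
  constructor
  · have h7 : Ev (t n) (ζ n) / (sz (t n) (ζ n) * ε n) - (F.P n (R * ep u0) - F.P n (R * em u0)) =
        (Ev (t n) (ζ n) - (G.P n (1 + ρ * ep u0) - G.P n (1 + ρ * em u0))) / (sz (t n) (ζ n) * ε n) +
          (F.P n ((ρ / ε n : ℝ) * ep u0) - F.P n (R * ep u0)) - (F.P n ((ρ / ε n : ℝ) * em u0) - F.P n (R * em u0)) := by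
      rw [hFP n ((ρ / ε n : ℝ) * ep u0), hFP n ((ρ / ε n : ℝ) * em u0), hend, hend]
      field_simp
      ring
    rw [h7]
    refine (norm_sub_le _ _).trans ?_
    refine (add_le_add_left (norm_add_le _ _) _).trans ?_
    rw [norm_div, hnorm1]
    have h8 : ‖Ev (t n) (ζ n) - (G.P n (1 + ρ * ep u0) - G.P n (1 + ρ * em u0))‖ / (‖sz (t n) (ζ n)‖ * ε n) ≤
        C0 * C1 * Y := by
      rw [div_le_iff₀ (by positivity)]
      refine hE'.trans ?_
      calc C0 * (C1 * (‖sz (t n) (ζ n)‖ * ε n ^ (2 : ℕ)) * Y) = (C0 * C1 * Y * ‖sz (t n) (ζ n)‖) * ε n ^ (2 : ℕ) := by ring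
        _ ≤ (C0 * C1 * Y * ‖sz (t n) (ζ n)‖) * ε n := mul_le_mul_of_nonneg_left hεε (by positivity)
        _ = _ := by ring
    have h9 : 0 ≤ C0 * C1 * Y := by positivity
    linarith only [hm1, hp1, h8, h9]
  · have h7 : (Dv (t n) (ζ n) + Ev (t n) (ζ n)) / (sz (t n) (ζ n) * (ε n : ℂ) ^ (2 : ℕ)) -
        (F.Q n (R * ep u0) - F.Q n (R * em u0)) =
        ((Ev (t n) (ζ n) - (G.P n (1 + ρ * ep u0) - G.P n (1 + ρ * em u0))) +
          (Dv (t n) (ζ n) - (G.Q n (1 + ρ * ep u0) - G.Q n (1 + ρ * em u0)))) / (sz (t n) (ζ n) * (ε n : ℂ) ^ (2 : ℕ)) +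
          (F.Q n ((ρ / ε n : ℝ) * ep u0) - F.Q n (R * ep u0)) - (F.Q n ((ρ / ε n : ℝ) * em u0) - F.Q n (R * em u0)) := by
      rw [hFQ n ((ρ / ε n : ℝ) * ep u0), hFQ n ((ρ / ε n : ℝ) * em u0), hend, hend]
      field_simp
      ring
    rw [h7]
    refine (norm_sub_le _ _).trans ?_
    refine (add_le_add_left (norm_add_le _ _) _).trans ?_
    rw [norm_div, hnorm2]
    have h8 : ‖(Ev (t n) (ζ n) - (G.P n (1 + ρ * ep u0) - G.P n (1 + ρ * em u0))) +
          (Dv (t n) (ζ n) - (G.Q n (1 + ρ * ep u0) - G.Q n (1 + ρ * em u0)))‖ / (‖sz (t n) (ζ n)‖ * ε n ^ (2 : ℕ)) ≤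
        2 * C0 * C1 * Y := by
      rw [div_le_iff₀ (by positivity)]
      refine (norm_add_le _ _).trans ((add_le_add hE' hD').trans (le_of_eq ?_))
      ring
    linarith only [hm2, hp2, h8]

end SokamV

end

/-! ### Lib_MP_af4de1_v.Tip1 -/

section
/-!
# The two scales at the tip, and `N = 1` [SV-TIP1]

`tip_cases`: `v_n = off (ζ n) → 0` (`off(-e⁻¹) = 0`), `x_n = v_n ell/t n`, `‖x_n‖ = 2^{1/3}‖v_n‖/‖t n‖^{2/3}`.  If `‖x_n‖` does not tend to `∞` there is a subsequence on which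
`x_n` is bounded and a further one on which it converges.  If `‖x_n‖ → ∞`: drop the first terms: `v_n ≠ 0`, and `‖t n‖/√‖v_n‖³ = √2 ‖x_n‖^{-3/2} → 0`; subsequence with
`v_n/‖v_n‖ → v0`, `‖v0‖ = 1`: `Scale`.  (`Par` passes to subsequences: `par_comp`.)
`scale_one`: `tip_red` and `cubic_one`: family `F`, `F.Ψ0 = Cu v0`.  `R := max(6, R1)`, `R³/20 ≥ 10.8 > 1`, so `-(R³/20) < -1 < c`.  `chain_one F` for `[S]` between `R em` and `R ep`:
`J`, `P(R ep) - P(R em) - J` is `Small` at `c'`, `Q(R ep) - Q(R em) - (-S)J = o(J)`.  With `c'' = max c' (-(R³/20)) < c` and `tip_red`: the statement, with `K n = sz·√‖off‖·J n`.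
(`√‖off‖² ` cancels one factor: `(Dv+Ev)/(sz √‖off‖) = √‖off‖·(…)`.)
`tip_one`: case (a) `airy_lim`: `Ai x0 = 0`, `Ad x0 = 0` against `airy_simple`.  Case (b) with `v0 cexp(2 arg/3 I) ≠ -1`: `scale_one`: `Ev = 0`: `J + R = 0`, `R` `Small` at `c'' < c`: `lin_one` with `g = 1`.
With `= -1`: `cubic_two`, `chain_two`: `J + J' + R = 0`, `-S J - S' J' + E = 0`, `E = o(‖J‖+‖J'‖)` (the error `exp(-(R³/20)/τ)` is `o(‖J‖)` by `Big`): `lin_two` with `a = b = 1`, `w = -S`, `w' = -S'`.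
-/

namespace SokamV

open Complex Filter Topology

private theorem t1_exp {τ : ℕ → ℝ} (hτ : ∀ n, 0 < τ n) (hτ0 : Tendsto τ atTop (𝓝 0))
    {C η δ : ℝ} (hη : 0 < η) (hδ : 0 < δ) : ∀ᶠ n in atTop, C ≤ η * Real.exp (δ / τ n) := by
  have h2 : ∀ᶠ n in atTop, τ n < η * δ / (|C| + 1) := hτ0.eventually_lt_const (by (clear * - hη hδ; positivity))
  filter_upwards [h2] with n hn
  have h3 : δ / τ n ≤ Real.exp (δ / τ n) := by
    have := Real.add_one_le_exp (δ / τ n)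
    linarith only [this]
  have h4 : τ n * (|C| + 1) < η * δ := by
    rwa [lt_div_iff₀ (by (clear * -; positivity))] at hn
  calc C ≤ |C| + 1 := by linarith only [le_abs_self C]
    _ ≤ η * (δ / τ n) := by
        rw [← mul_div_assoc, le_div_iff₀ (hτ n)]
        linarith only [h4]
    _ ≤ η * Real.exp (δ / τ n) := mul_le_mul_of_nonneg_left h3 hη.le

private theorem t1_small {τ : ℕ → ℝ} (hτ : ∀ n, 0 < τ n) (hτ0 : Tendsto τ atTop (𝓝 0))
    {c c' : ℝ} (hc : c' < c) {J R : ℕ → ℂ} (hJ : Big τ c J) (hR : Small τ c' R) {η : ℝ}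
    (hη : 0 < η) : ∀ᶠ n in atTop, ‖R n‖ ≤ η * ‖J n‖ := by
  obtain ⟨C, hC⟩ := hR
  have hδ : 0 < (c - c') / 2 := by linarith only [hc]
  filter_upwards [hC, hJ _ hδ, t1_exp (C := C) hτ hτ0 hη hδ] with n h1 h2 h3
  have h4 : Real.exp ((c - (c - c') / 2) / τ n) =
      Real.exp (((c - c') / 2) / τ n) * Real.exp (c' / τ n) := by
    rw [← Real.exp_add]
    congr 1
    ring
  calc ‖R n‖ ≤ C * Real.exp (c' / τ n) := h1
    _ ≤ (η * Real.exp (((c - c') / 2) / τ n)) * Real.exp (c' / τ n) :=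
        mul_le_mul_of_nonneg_right h3 (Real.exp_pos _).le
    _ = η * Real.exp ((c - (c - c') / 2) / τ n) := by rw [h4]; ring
    _ ≤ η * ‖J n‖ := mul_le_mul_of_nonneg_left h2 hη.le

private theorem t1_pos {τ : ℕ → ℝ} {c : ℝ} {J : ℕ → ℂ} (hJ : Big τ c J) :
    ∀ᶠ n in atTop, 0 < ‖J n‖ := by
  filter_upwards [hJ 1 one_pos] with n hn
  exact (Real.exp_pos _).trans_le hn

private theorem t1_mono {τ : ℕ → ℝ} (hτ : ∀ n, 0 < τ n) {c c' : ℝ} (hc : c ≤ c') {R : ℕ → ℂ}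
    (hR : Small τ c R) : Small τ c' R := by
  obtain ⟨C, hC⟩ := hR
  refine ⟨|C|, ?_⟩
  filter_upwards [hC] with n h1
  calc ‖R n‖ ≤ C * Real.exp (c / τ n) := h1
    _ ≤ |C| * Real.exp (c / τ n) := mul_le_mul_of_nonneg_right (le_abs_self C) (Real.exp_pos _).le
    _ ≤ |C| * Real.exp (c' / τ n) := by
        apply mul_le_mul_of_nonneg_left _ (abs_nonneg C)
        exact Real.exp_le_exp.2 (div_le_div_of_nonneg_right hc (hτ n).le)

private theorem t1_add {τ : ℕ → ℝ} {c : ℝ} {R R' : ℕ → ℂ} (h : Small τ c R)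
    (h' : Small τ c R') : Small τ c (fun n => R n + R' n) := by
  obtain ⟨C, hC⟩ := h
  obtain ⟨C', hC'⟩ := h'
  refine ⟨C + C', ?_⟩
  filter_upwards [hC, hC'] with n h1 h2
  calc ‖R n + R' n‖ ≤ ‖R n‖ + ‖R' n‖ := norm_add_le _ _
    _ ≤ (C + C') * Real.exp (c / τ n) := by rw [add_mul]; exact add_le_add h1 h2

private theorem off_tip : off (-cexp (-1)) = 0 := by
  unfold off
  rw [mul_neg, ← exp_add]
  simp

private theorem off_lim {ζ : ℕ → ℂ} (h : Tendsto ζ atTop (𝓝 (-cexp (-1)))) :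
    Tendsto (fun n => off (ζ n)) atTop (𝓝 0) := by
  have h1 : Continuous off := by unfold off; fun_prop
  have h2 := (h1.tendsto (-cexp (-1))).comp h
  rw [off_tip] at h2
  exact h2

theorem par_comp {t ζ : ℕ → ℂ} {ζ0 u0 : ℂ} (h : Par t ζ ζ0 u0) {φ : ℕ → ℕ} (hφ : StrictMono φ) :
    Par (t ∘ φ) (ζ ∘ φ) ζ0 u0 :=
  ⟨fun n => h.ne _, fun n => h.re _, fun n => h.im _, h.lim.comp hφ.tendsto_atTop,
    h.dir.comp hφ.tendsto_atTop, h.zet.comp hφ.tendsto_atTop⟩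

/-- Either the Airy scale or a larger scale. -/
theorem tip_cases {t ζ : ℕ → ℂ} {u0 : ℂ} (h : Par t ζ (-cexp (-1)) u0) :
    (∃ φ : ℕ → ℕ, StrictMono φ ∧ ∃ x0 : ℂ,
      Tendsto (fun n => off (ζ (φ n)) * ell (t (φ n)) / t (φ n)) atTop (𝓝 x0)) ∨
    (∃ φ : ℕ → ℕ, StrictMono φ ∧ ∃ v0 : ℂ, ‖v0‖ = 1 ∧ Scale (t ∘ φ) (ζ ∘ φ) v0) := by
  set x : ℕ → ℂ := fun n => off (ζ n) * ell (t n) / t n with hx
  by_cases hb : ∃ M : ℝ, ∃ᶠ n in atTop, ‖x n‖ ≤ M
  · left
    obtain ⟨M, hM⟩ := hb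
    obtain ⟨a, _, φ, hφ, hlim⟩ := tendsto_subseq_of_frequently_bounded
      (Metric.isBounded_closedBall (x := (0 : ℂ)) (r := M)) (x := x)
      (hM.mono fun n hn => by simpa using hn)
    exact ⟨φ, hφ, a, hlim⟩
  · right
    push Not at hb
    have hinf : Tendsto (fun n => ‖x n‖) atTop atTop := by
      rw [tendsto_atTop]
      intro M
      filter_upwards [hb M] with n hn
      exact hn.le
    set y : ℕ → ℂ := fun n => off (ζ n) / ‖off (ζ n)‖ with hy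
    have hyb : ∀ n, y n ∈ Metric.closedBall (0 : ℂ) 1 := by
      intro n
      rw [mem_closedBall_zero_iff, hy]
      simp only [norm_div, norm_real, norm_norm]
      exact div_self_le_one _
    obtain ⟨v0, _, φ, hφ, hlim⟩ := tendsto_subseq_of_bounded
      (Metric.isBounded_closedBall (x := (0 : ℂ)) (r := 1)) hyb
    have hne : ∀ᶠ n in atTop, off (ζ n) ≠ 0 := by
      filter_upwards [hb 0] with n hn h0
      rw [hx] at hn
      simp [h0] at hn
    obtain ⟨N, hN⟩ := eventually_atTop.1 hne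
    have hφN : StrictMono (fun n => φ (n + N)) := fun a b hab => hφ (by linarith only [hab])
    have hNe : ∀ n, off (ζ (φ (n + N))) ≠ 0 := fun n =>
      hN _ (le_trans (Nat.le_add_left N n) (hφ.le_apply))
    have hlim' : Tendsto (fun n => y (φ (n + N))) atTop (𝓝 v0) :=
      hlim.comp (tendsto_add_atTop_nat N)
    have hnorm : ‖v0‖ = 1 := by
      have h1 := hlim'.norm
      refine tendsto_nhds_unique h1 ?_
      refine tendsto_const_nhds.congr fun n => ?_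
      rw [hy]
      simp only [norm_div, norm_real, norm_norm]
      rw [div_self (norm_ne_zero_iff.2 (hNe n))]
    refine ⟨fun n => φ (n + N), hφN, v0, hnorm, ⟨fun n => hNe n, ?_, ?_, hlim'⟩⟩
    · exact (off_lim h.zet).comp hφN.tendsto_atTop
    · have hx3 : ∀ n, off (ζ n) ≠ 0 →
          ‖t n‖ / √‖off (ζ n)‖ ^ (3 : ℕ) = √(2 / ‖x n‖ ^ (3 : ℕ)) := by
        intro n hn
        have ht : 0 < ‖t n‖ := norm_pos_iff.2 (h.ne n)
        have hv : 0 < ‖off (ζ n)‖ := norm_pos_iff.2 hn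
        have hs : 0 < √‖off (ζ n)‖ := Real.sqrt_pos.2 hv
        have hs2 : √‖off (ζ n)‖ ^ (2 : ℕ) = ‖off (ζ n)‖ := Real.sq_sqrt hv.le
        have hl : ‖ell (t n)‖ ^ (3 : ℕ) = 2 * ‖t n‖ := by
          rw [← norm_pow, ell_pow, norm_mul]; simp
        have hxn : ‖x n‖ ^ (3 : ℕ) = 2 * ‖off (ζ n)‖ ^ (3 : ℕ) / ‖t n‖ ^ (2 : ℕ) := by
          rw [hx]
          simp only [norm_div, norm_mul]
          rw [div_pow, mul_pow, hl]
          field_simp
        symm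
        have h6 : ‖off (ζ n)‖ ^ (3 : ℕ) = √‖off (ζ n)‖ ^ (6 : ℕ) := by
          calc ‖off (ζ n)‖ ^ (3 : ℕ) = (√‖off (ζ n)‖ ^ (2 : ℕ)) ^ (3 : ℕ) := by rw [hs2]
            _ = _ := by ring
        rw [Real.sqrt_eq_iff_mul_self_eq (by (clear * -; positivity)) (by (clear * - ht hn; positivity)), hxn, h6]
        field_simp
      have h1 : Tendsto (fun n => √(2 / ‖x n‖ ^ (3 : ℕ))) atTop (𝓝 0) := by
        have h2 : Tendsto (fun n => 2 / ‖x n‖ ^ (3 : ℕ)) atTop (𝓝 0) :=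
          ((tendsto_pow_atTop (by norm_num : (3 : ℕ) ≠ 0)).comp hinf).const_div_atTop 2
        have h3 := (Real.continuous_sqrt.tendsto 0).comp h2
        rw [Real.sqrt_zero] at h3
        exact h3
      refine (h1.comp hφN.tendsto_atTop).congr fun n => ?_
      exact (hx3 _ (hNe n)).symm

/-- One saddle point at the larger scale: the ratio. -/
theorem scale_one {t ζ : ℕ → ℂ} {u0 v0 : ℂ} (h : Par t ζ (-cexp (-1)) u0) (hu0 : ‖u0‖ = 1)
    (hre : 0 ≤ u0.re) (him : 0 ≤ u0.im) (hT : TipConn u0) (hs : Scale t ζ v0) (hv : ‖v0‖ = 1)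
    (h1 : v0 * cexp (2 * u0.arg / 3 * I) ≠ -1) :
    (∀ᶠ n in atTop, Ev (t n) (ζ n) ≠ 0) ∧
      Tendsto (fun n => (Dv (t n) (ζ n) + Ev (t n) (ζ n)) / Ev (t n) (ζ n)) atTop (𝓝 0) := by
  obtain ⟨F, hΨ, hw, hu, hτ, hred⟩ := tip_red h hu0 hT hs
  obtain ⟨c, hc1, _, S, c', hc', R1, hch⟩ := cubic_one hu0 hre him hv h1
  set R : ℝ := max 6 R1 with hR
  have hR6 : 6 ≤ R := le_max_left _ _
  obtain ⟨C, hC⟩ := hred R hR6
  have hR20 : -(R ^ (3 : ℕ) / 20) < c := by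
    have : (6 : ℝ) ^ (3 : ℕ) ≤ R ^ (3 : ℕ) := pow_le_pow_left₀ (by norm_num) hR6 3
    linarith only [hc1, this]
  have hchain : Chain F.u0 F.Ψ0 c c' (R * em u0) [S] (R * ep u0) := by
    rw [hu, hΨ]
    exact hch R (le_max_right _ _)
  obtain ⟨J, hJ, hP, hQ⟩ := chain_one F hc' hchain
  have hE1 : Small F.τ (-(R ^ (3 : ℕ) / 20)) (fun n => Ev (t n) (ζ n) / (sz (t n) (ζ n) *
      √‖off (ζ n)‖) - (F.P n (R * ep u0) - F.P n (R * em u0))) :=
    ⟨C, hC.mono fun n hn => hn.1⟩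
  have hE2 : Small F.τ (-(R ^ (3 : ℕ) / 20)) (fun n => (Dv (t n) (ζ n) + Ev (t n) (ζ n)) /
      (sz (t n) (ζ n) * √‖off (ζ n)‖ ^ (2 : ℕ)) - (F.Q n (R * ep u0) - F.Q n (R * em u0))) :=
    ⟨C, hC.mono fun n hn => hn.2⟩
  have b1 := t1_small F.hτ F.hτlim hR20 hJ hE1 (η := 1 / 4) (by norm_num)
  have b2 := t1_small F.hτ F.hτlim hc' hJ hP (η := 1 / 4) (by norm_num)
  have b3 := t1_small F.hτ F.hτlim hR20 hJ hE2 (η := 1) (by norm_num)
  have b4 := hQ 1 one_pos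
  have b5 := t1_pos hJ
  have hoff : ∀ n, 0 < √‖off (ζ n)‖ := fun n => Real.sqrt_pos.2 (norm_pos_iff.2 (hs.ne n))
  have hmain : ∀ᶠ n in atTop, Ev (t n) (ζ n) ≠ 0 ∧
      ‖(Dv (t n) (ζ n) + Ev (t n) (ζ n)) / Ev (t n) (ζ n)‖ ≤
        √‖off (ζ n)‖ * (2 * (‖S‖ + 2)) := by
    filter_upwards [b1, b2, b3, b4, b5] with n k1 k2 k3 k4 k5
    have hw' : F.w0 S = -S := by rw [hw]
    rw [hw'] at k4
    have hsz : sz (t n) (ζ n) ≠ 0 := by unfold sz; exact exp_ne_zero _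
    have ho : (√‖off (ζ n)‖ : ℂ) ≠ 0 := by exact_mod_cast (hoff n).ne'
    have hlow : ‖J n‖ / 2 ≤ ‖Ev (t n) (ζ n) / (sz (t n) (ζ n) * √‖off (ζ n)‖)‖ := by
      have e : J n = Ev (t n) (ζ n) / (sz (t n) (ζ n) * √‖off (ζ n)‖) -
          (Ev (t n) (ζ n) / (sz (t n) (ζ n) * √‖off (ζ n)‖) -
            (F.P n (R * ep u0) - F.P n (R * em u0))) -
          (F.P n (R * ep u0) - F.P n (R * em u0) - J n) := by ring
      have : ‖J n‖ ≤ ‖Ev (t n) (ζ n) / (sz (t n) (ζ n) * √‖off (ζ n)‖)‖ + 1 / 4 * ‖J n‖ +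
          1 / 4 * ‖J n‖ := by
        nth_rewrite 1 [e]
        refine (norm_sub_le _ _).trans (add_le_add ((norm_sub_le _ _).trans ?_) k2)
        exact add_le_add le_rfl k1
      linarith only [this]
    have hup : ‖(Dv (t n) (ζ n) + Ev (t n) (ζ n)) / (sz (t n) (ζ n) * √‖off (ζ n)‖ ^ (2 : ℕ))‖ ≤
        (‖S‖ + 2) * ‖J n‖ := by
      have e : (Dv (t n) (ζ n) + Ev (t n) (ζ n)) / (sz (t n) (ζ n) * √‖off (ζ n)‖ ^ (2 : ℕ)) =
          ((Dv (t n) (ζ n) + Ev (t n) (ζ n)) / (sz (t n) (ζ n) * √‖off (ζ n)‖ ^ (2 : ℕ)) -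
            (F.Q n (R * ep u0) - F.Q n (R * em u0))) +
          (F.Q n (R * ep u0) - F.Q n (R * em u0) - -S * J n) + -S * J n := by ring
      rw [e]
      refine norm_add₃_le.trans ?_
      rw [norm_mul, norm_neg]
      linarith only [k3, k4]
    have hEv : Ev (t n) (ζ n) ≠ 0 := by
      intro h0
      rw [h0, zero_div, norm_zero] at hlow
      linarith only [k5, hlow]
    refine ⟨hEv, ?_⟩
    have e : (Dv (t n) (ζ n) + Ev (t n) (ζ n)) / Ev (t n) (ζ n) =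
        √‖off (ζ n)‖ * (((Dv (t n) (ζ n) + Ev (t n) (ζ n)) /
          (sz (t n) (ζ n) * √‖off (ζ n)‖ ^ (2 : ℕ))) /
          (Ev (t n) (ζ n) / (sz (t n) (ζ n) * √‖off (ζ n)‖))) := by
      field_simp
    rw [e, norm_mul, norm_div, norm_real, Real.norm_of_nonneg (hoff n).le]
    refine mul_le_mul_of_nonneg_left ?_ (hoff n).le
    rw [div_le_iff₀ (by linarith only [k5, hlow])]
    calc _ ≤ (‖S‖ + 2) * ‖J n‖ := hup
      _ = 2 * (‖S‖ + 2) * (‖J n‖ / 2) := by ring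
      _ ≤ _ := mul_le_mul_of_nonneg_left hlow (by (clear * -; positivity))
  refine ⟨hmain.mono fun n hn => hn.1, ?_⟩
  have hz : Tendsto (fun n => √‖off (ζ n)‖ * (2 * (‖S‖ + 2))) atTop (𝓝 0) := by
    have h2 := hs.lim.norm
    rw [norm_zero] at h2
    have h3 := (Real.continuous_sqrt.tendsto 0).comp h2
    rw [Real.sqrt_zero] at h3
    have h4 := h3.mul_const (2 * (‖S‖ + 2))
    rw [zero_mul] at h4
    exact h4
  exact squeeze_zero_norm' (hmain.mono fun n hn => hn.2) hz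

end SokamV

end

/-! ### Lib_MP_af4de1_in.T6Unif -/

section
/-!
# Locally uniform convergence at the Airy scale [IN-T6]

`zA t x = -e⁻¹ (1 - x t/ell t)`: `off (zA t x) = x t/ell t`, i.e. `off ζ * ell t/t = x` (`ell t ≠ 0`), and `fA t x = Ev t (zA t x)/(sz t (zA t x) ell t)`.
`airy_unif`: `tendstoLocallyUniformly_iff_forall_tendsto` and `tendsto_of_seq_tendsto` (countably generated filter `atTop ×ˢ 𝓝 x`): for sequences `n_j → ∞`,
`x_j → x` apply `airy_lim` to `t ∘ n`, `ζ_j = zA (t (n j)) (x j)` (`Par` holds: `zA → -e⁻¹` because `x_j t/ell t → 0`), and continuity of `Ai` for `Ai (x_j)`.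
`fA_differentiable`: `ζ ↦ Ev t ζ` is entire for `Re t ≥ 0` (`SokamF.hasDerivAt_F`), `sz ≠ 0`.
`fA_deriv`: at a zero of `fA t`, `F'(z) = F(qz)`: if `F (e^{-t}) (e^{-t} z) = 0` with `z = zA/t e^{-t/2}` then the derivative of `fA t` vanishes.
-/

namespace SokamV

open Complex Filter Topology

/-- the point with Airy coordinate `x` -/
noncomputable def zA (t x : ℂ) : ℂ := -cexp (-1) * (1 - x * t / ell t)

/-- `Ev` at the Airy scale -/
noncomputable def fA (t x : ℂ) : ℂ := Ev t (zA t x) / (sz t (zA t x) * ell t)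

/-- the zero of `F` -/
noncomputable def zF (t x : ℂ) : ℂ := zA t x / t * cexp (-t / 2)

theorem ell_ne_zero {t : ℂ} (ht : t ≠ 0) : ell t ≠ 0 := by
  intro h
  have := ell_pow (t := t)
  rw [h] at this
  apply ht
  simpa using this.symm

theorem off_zA {t : ℂ} (_ht : t ≠ 0) (x : ℂ) : off (zA t x) = x * t / ell t := by
  unfold off zA
  have h1 : cexp 1 * cexp (-1) = 1 := by rw [← Complex.exp_add, add_neg_cancel, Complex.exp_zero]
  linear_combination (-(1 - x * t / ell t)) * h1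

/-- every `ζ` has an Airy coordinate -/
theorem zA_off {t : ℂ} (ht : t ≠ 0) (ζ : ℂ) : zA t (off ζ * ell t / t) = ζ := by
  have hl := ell_ne_zero ht
  have h2 : off ζ * ell t / t * t / ell t = off ζ := by field_simp
  unfold zA
  rw [h2]
  unfold off
  have h1 : cexp 1 * cexp (-1) = 1 := by rw [← Complex.exp_add, add_neg_cancel, Complex.exp_zero]
  linear_combination ζ * h1

private theorem t6_den {t x : ℂ} (ht : t ≠ 0) : sz t (zA t x) * ell t ≠ 0 :=
  mul_ne_zero (Complex.exp_ne_zero _) (ell_ne_zero ht)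

private theorem t6_const {t : ℂ} (ht : t ≠ 0) : (2 * Real.pi * t : ℂ) ^ (1 / 2 : ℂ) * I ≠ 0 := by
  refine mul_ne_zero ?_ I_ne_zero
  have h1 : (2 * Real.pi * t : ℂ) ≠ 0 := by
    have : (Real.pi : ℂ) ≠ 0 := by exact_mod_cast Real.pi_ne_zero
    exact mul_ne_zero (mul_ne_zero two_ne_zero this) ht
  rw [Complex.cpow_def_of_ne_zero h1]
  exact Complex.exp_ne_zero _

private theorem t6_Ev (t x : ℂ) : Ev t (zA t x) =
    SokamF.F (cexp (-t)) (zF t x) * ((2 * Real.pi * t : ℂ) ^ (1 / 2 : ℂ) * I) := by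
  unfold Ev zF SokamU.E
  ring

theorem fA_eq_zero {t x : ℂ} (ht : t ≠ 0) : fA t x = 0 ↔ SokamF.F (cexp (-t)) (zF t x) = 0 := by
  unfold fA
  rw [div_eq_zero_iff, t6_Ev, mul_eq_zero]
  constructor
  · rintro ((h | h) | h)
    · exact h
    · exact absurd h (t6_const ht)
    · exact absurd h (t6_den ht)
  · intro h
    exact Or.inl (Or.inl h)

private theorem t6_norm {t : ℂ} (hre : 0 ≤ t.re) : ‖cexp (-t)‖ ≤ 1 := by
  rw [Complex.norm_exp, Complex.neg_re, Real.exp_le_one_iff]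
  linarith

private theorem t6_zA (t x : ℂ) : HasDerivAt (zA t) (-cexp (-1) * -(1 * t / ell t)) x := by
  unfold zA
  exact ((((hasDerivAt_id x).mul_const t).div_const (ell t)).const_sub 1).const_mul _

private theorem t6_zF (t x : ℂ) : HasDerivAt (zF t)
    (-cexp (-1) * -(1 * t / ell t) / t * cexp (-t / 2)) x := by
  unfold zF
  exact ((t6_zA t x).div_const t).mul_const _

private theorem t6_sz (t x : ℂ) : DifferentiableAt ℂ (fun x => sz t (zA t x) * ell t) x := by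
  have h1 := (t6_zA t x).differentiableAt
  unfold sz off
  fun_prop

private theorem t6_num {t : ℂ} (hre : 0 ≤ t.re) (x : ℂ) :
    HasDerivAt (fun x => Ev t (zA t x)) (SokamF.F (cexp (-t)) (cexp (-t) * zF t x) *
      (-cexp (-1) * -(1 * t / ell t) / t * cexp (-t / 2)) *
      ((2 * Real.pi * t : ℂ) ^ (1 / 2 : ℂ) * I)) x := by
  have h1 : (fun x => Ev t (zA t x)) = fun x => SokamF.F (cexp (-t)) (zF t x) *
      ((2 * Real.pi * t : ℂ) ^ (1 / 2 : ℂ) * I) := funext fun x => t6_Ev t x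
  rw [h1]
  exact ((SokamF.hasDerivAt_F (t6_norm hre) (zF t x)).comp x (t6_zF t x)).mul_const _

theorem fA_differentiable {t : ℂ} (ht : t ≠ 0) (hre : 0 ≤ t.re) : Differentiable ℂ (fA t) := by
  intro x
  exact (t6_num hre x).differentiableAt.fun_div (t6_sz t x) (t6_den ht)

theorem fA_simple {t x : ℂ} (ht : t ≠ 0) (hre : 0 ≤ t.re) (h0 : fA t x = 0)
    (h1 : deriv (fA t) x ≠ 0) : SokamF.F (cexp (-t)) (cexp (-t) * zF t x) ≠ 0 := by
  intro h2
  apply h1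
  have h3 := t6_num hre x
  rw [h2, zero_mul, zero_mul] at h3
  have h4 := (t6_sz t x).hasDerivAt
  have h5 : HasDerivAt (fun y => Ev t (zA t y) / (sz t (zA t y) * ell t))
      ((0 * (sz t (zA t x) * ell t) -
        Ev t (zA t x) * deriv (fun x => sz t (zA t x) * ell t) x) /
        (sz t (zA t x) * ell t) ^ (2 : ℕ)) x := h3.fun_div h4 (t6_den ht)
  have h6 : Ev t (zA t x) = 0 := by
    rw [t6_Ev, (fA_eq_zero ht).1 h0, zero_mul]
  have h7 : fA t = fun y => Ev t (zA t y) / (sz t (zA t y) * ell t) := rfl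
  rw [h7, h5.deriv, h6]
  simp

private theorem t6_ell_lim {t : ℕ → ℂ} (h : Tendsto t atTop (𝓝 0)) :
    Tendsto (fun n => ell (t n)) atTop (𝓝 0) := by
  rw [tendsto_zero_iff_norm_tendsto_zero]
  have h1 : Tendsto (fun n => 2 * ‖t n‖) atTop (𝓝 0) := by
    have := (h.norm).const_mul 2
    simpa using this
  have h0 : ∀ t : ℂ, ‖ell t‖ ^ (3 : ℕ) = 2 * ‖t‖ := by
    intro t
    rw [← norm_pow, ell_pow, norm_mul]
    simp
  have h2 : (fun n => ‖ell (t n)‖) = fun n => (2 * ‖t n‖) ^ (1 / 3 : ℝ) := by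
    funext n
    rw [← h0, ← Real.rpow_natCast, ← Real.rpow_mul (norm_nonneg _)]
    norm_num
  rw [h2]
  have h3 := h1.rpow_const (p := (1 / 3 : ℝ)) (Or.inr (by norm_num))
  rwa [Real.zero_rpow (by norm_num)] at h3

private theorem t6_div {t : ℂ} (ht : t ≠ 0) : t / ell t = ell t ^ (2 : ℕ) / 2 := by
  have hl := ell_ne_zero ht
  have h := ell_pow (t := t)
  rw [div_eq_div_iff hl two_ne_zero]
  linear_combination -h

theorem airy_unif {t : ℕ → ℂ} {u0 : ℂ} (hne : ∀ n, t n ≠ 0) (hre : ∀ n, 0 ≤ (t n).re)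
    (him : ∀ n, (t n).im ≤ 0) (hlim : Tendsto t atTop (𝓝 0))
    (hdir : Tendsto (fun n => (‖t n‖ : ℂ) / t n) atTop (𝓝 u0)) (hT : TipConn u0) :
    TendstoLocallyUniformly (fun n x => fA (t n) x) Ai atTop := by
  have hu0 : ‖u0‖ = 1 := by
    refine tendsto_nhds_unique hdir.norm (tendsto_const_nhds.congr fun n => ?_)
    rw [norm_div, Complex.norm_real, norm_norm, div_self (norm_ne_zero_iff.2 (hne n))]
  have hparts : ∀ n, 0 ≤ ((‖t n‖ : ℂ) / t n).re ∧ 0 ≤ ((‖t n‖ : ℂ) / t n).im := by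
    intro n
    rw [div_eq_mul_inv, re_ofReal_mul, im_ofReal_mul, inv_re, inv_im]
    exact ⟨mul_nonneg (norm_nonneg _) (div_nonneg (hre n) (normSq_nonneg _)),
      mul_nonneg (norm_nonneg _) (div_nonneg (by linarith [him n]) (normSq_nonneg _))⟩
  have hure : 0 ≤ u0.re := ge_of_tendsto ((Complex.continuous_re.tendsto _).comp hdir)
    (Eventually.of_forall fun n => (hparts n).1)
  have huim : 0 ≤ u0.im := ge_of_tendsto ((Complex.continuous_im.tendsto _).comp hdir)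
    (Eventually.of_forall fun n => (hparts n).2)
  have hAi : Continuous Ai := continuous_iff_continuousAt.2 fun x => (hasDerivAt_Ai x).continuousAt
  rw [tendstoLocallyUniformly_iff_forall_tendsto]
  intro x
  refine tendsto_of_seq_tendsto fun y hy => ?_
  have hn : Tendsto (fun j => (y j).1) atTop atTop := (tendsto_fst.comp hy)
  have hx : Tendsto (fun j => (y j).2) atTop (𝓝 x) := (tendsto_snd.comp hy)
  have h1 : Tendsto (fun j => Ai (y j).2) atTop (𝓝 (Ai x)) := (hAi.tendsto x).comp hx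
  have htl : Tendsto (fun j => t (y j).1) atTop (𝓝 0) := hlim.comp hn
  have hel := t6_ell_lim htl
  have hpar : Par (fun j => t (y j).1) (fun j => zA (t (y j).1) (y j).2) (-cexp (-1)) u0 := by
    refine ⟨fun j => hne _, fun j => hre _, fun j => him _, htl, hdir.comp hn, ?_⟩
    have h2 : Tendsto (fun j => -cexp (-1) * (1 - (y j).2 * (ell (t (y j).1) ^ (2 : ℕ) / 2))) atTop
        (𝓝 (-cexp (-1) * (1 - x * ((0 : ℂ) ^ (2 : ℕ) / 2)))) :=
      ((hx.mul ((hel.pow 2).div_const 2)).const_sub 1).const_mul _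
    have h3 : -cexp (-1) * (1 - x * ((0 : ℂ) ^ (2 : ℕ) / 2)) = -cexp (-1) := by ring
    rw [h3] at h2
    refine h2.congr fun j => ?_
    unfold zA
    rw [mul_div_assoc, t6_div (hne _)]
  have hoff : Tendsto (fun j => off (zA (t (y j).1) (y j).2) * ell (t (y j).1) / t (y j).1) atTop
      (𝓝 x) := by
    refine hx.congr fun j => ?_
    have e1 := hne (y j).1
    have e2 := ell_ne_zero e1
    rw [off_zA e1]
    field_simp
  have h2 := (airy_lim hpar hu0 hure huim hT hoff).1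
  have h3 : Tendsto (fun j => (Ai (y j).2, fA (t (y j).1) (y j).2)) atTop (𝓝 (Ai x, Ai x)) :=
    h1.prodMk_nhds h2
  exact h3.mono_right (nhds_le_uniformity (Ai x))

end SokamV

end

/-! ### Lib_MP_af4de1_in.T7Scale -/

section
/-!
# The first zeros are at the Airy scale [IN-T7]

By contradiction: for every `m` there are infinitely many `n` and `x` with `Ev (t n) (zA (t n) x) = 0`, `‖zA (t n) x‖ ≤ e⁻¹ ‖1 + A t n/ell (t n)‖`, `‖x‖ > m`:
choose `n_m` strictly increasing and `x_m`, `ζ_m = zA (t n_m) x_m`.  `‖ζ_m‖ ≥ e⁻¹` (`tree_EvDv`), `‖ζ_m‖ ≤ e⁻¹ (1 + A ‖w‖)`, `w = t/ell t → 0` (`‖ell t‖³ = 2‖t‖`), so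
a subsequence converges to `ζ0`, `‖ζ0‖ = e⁻¹`; `ζ0 ≠ -e⁻¹` contradicts `edge`.  `ζ0 = -e⁻¹`: `Par`, `tip_cases`: the Airy case contradicts `‖x‖ → ∞`
(`off (zA t x) ell t/t = x`).  Otherwise `Scale … v0`, `scale_one` (`tipConn_all`): `v0 cexp(2 arg u0/3 I) = -1`, `arg u0 ∈ [0, π/2]`: `Re v0 = -cos(2 arg u0/3) ≤ -1/2`, so
`Re (off ζ) ≤ -‖off ζ‖/4` for large `m`, `e ‖ζ_m‖ = ‖1 - off ζ_m‖ ≥ 1 + ‖off ζ_m‖/4`, so `‖off ζ_m‖ ≤ 4 A ‖w‖` and `‖x_m‖ = ‖off ζ_m‖/‖w‖ ≤ 4A`: contradiction.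
-/

namespace SokamV

open Complex Filter Topology

private theorem ts7_w {t : ℂ} (ht : t ≠ 0) : ‖t / ell t‖ ^ (3 : ℕ) = ‖t‖ ^ (2 : ℕ) / 2 := by
  have h1 : ‖ell t‖ ^ (3 : ℕ) = 2 * ‖t‖ := by
    rw [← norm_pow, ell_pow, norm_mul]
    simp
  have h2 : 0 < ‖t‖ := norm_pos_iff.2 ht
  rw [norm_div, div_pow, h1]
  field_simp

private theorem ts7_wlim {t : ℕ → ℂ} (hne : ∀ n, t n ≠ 0) (hlim : Tendsto t atTop (𝓝 0)) :
    Tendsto (fun n => ‖t n / ell (t n)‖) atTop (𝓝 0) := by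
  have h1 : Tendsto (fun n => ‖t n‖ ^ (2 : ℕ) / 2) atTop (𝓝 0) := by
    have h2 := (hlim.norm.pow 2).div_const 2
    simpa using h2
  have h2 : (fun n => ‖t n / ell (t n)‖) = fun n => (‖t n‖ ^ (2 : ℕ) / 2) ^ (1 / 3 : ℝ) := by
    funext n
    rw [← ts7_w (hne n), ← Real.rpow_natCast, ← Real.rpow_mul (norm_nonneg _)]
    norm_num
  rw [h2]
  have h3 := h1.rpow_const (p := (1 / 3 : ℝ)) (Or.inr (by norm_num))
  rwa [Real.zero_rpow (by norm_num)] at h3

/-- the case of the larger scale: the direction -/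
private theorem ts7_dir {u0 v0 : ℂ} (hre : 0 ≤ u0.re) (him : 0 ≤ u0.im)
    (h : v0 * cexp (2 * u0.arg / 3 * I) = -1) : v0.re ≤ -1 / 2 := by
  have h1 : v0 = -cexp ((-(2 * u0.arg / 3) : ℝ) * I) := by
    have h2 : cexp (2 * u0.arg / 3 * I) * cexp ((-(2 * u0.arg / 3) : ℝ) * I) = 1 := by
      rw [← Complex.exp_add]
      have : (2 * (u0.arg : ℂ) / 3 * I + ((-(2 * u0.arg / 3) : ℝ) : ℂ) * I) = 0 := by
        push_cast
        ring
      rw [this, Complex.exp_zero]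
    calc v0 = v0 * (cexp (2 * u0.arg / 3 * I) * cexp ((-(2 * u0.arg / 3) : ℝ) * I)) := by
          rw [h2, mul_one]
      _ = (v0 * cexp (2 * u0.arg / 3 * I)) * cexp ((-(2 * u0.arg / 3) : ℝ) * I) := by ring
      _ = _ := by rw [h]; ring
  have ha0 : 0 ≤ u0.arg := Complex.arg_nonneg_iff.2 him
  have ha1 : u0.arg ≤ Real.pi / 2 := (Complex.abs_arg_le_pi_div_two_iff.2 hre |> abs_le.1).2
  have h3 : v0.re = -Real.cos (2 * u0.arg / 3) := by
    rw [h1, Complex.neg_re, Complex.exp_ofReal_mul_I_re, Real.cos_neg]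
  have h4 : 1 / 2 ≤ Real.cos (2 * u0.arg / 3) := by
    rw [← Real.cos_pi_div_three]
    refine Real.cos_le_cos_of_nonneg_of_le_pi (by positivity) ?_ ?_
    · linarith [Real.pi_pos]
    · linarith
  rw [h3]
  linarith

/-- sequence form -/
private theorem ts7_seq {t : ℕ → ℂ} {u0 : ℂ} (hne : ∀ n, t n ≠ 0) (hre : ∀ n, 0 ≤ (t n).re)
    (him : ∀ n, (t n).im ≤ 0) (hlim : Tendsto t atTop (𝓝 0))
    (hdir : Tendsto (fun n => (‖t n‖ : ℂ) / t n) atTop (𝓝 u0)) {A : ℝ} (hA : 0 < A)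
    {x : ℕ → ℂ} (hE : ∀ n, Ev (t n) (zA (t n) (x n)) = 0)
    (hb : ∀ n, ‖zA (t n) (x n)‖ ≤ Real.exp (-1) * ‖1 + A * (t n / ell (t n))‖)
    (hx : Tendsto (fun n => ‖x n‖) atTop atTop) : False := by
  set ζ : ℕ → ℂ := fun n => zA (t n) (x n) with hζ
  have hw := ts7_wlim hne hlim
  have he := Real.exp_pos (-1)
  have hlow : ∀ n, Real.exp (-1) ≤ ‖ζ n‖ := by
    intro n
    by_contra hcon
    push Not at hcon
    exact (tree_EvDv (hne n) (hre n) hcon).1 (hE n)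
  have hup : ∀ n, ‖ζ n‖ ≤ Real.exp (-1) * (1 + A * ‖t n / ell (t n)‖) := by
    intro n
    refine (hb n).trans (mul_le_mul_of_nonneg_left ?_ he.le)
    refine (norm_add_le _ _).trans ?_
    rw [norm_one, norm_mul, Complex.norm_real, Real.norm_of_nonneg hA.le]
  have huplim : Tendsto (fun n => Real.exp (-1) * (1 + A * ‖t n / ell (t n)‖)) atTop
      (𝓝 (Real.exp (-1))) := by
    have h1 := ((hw.const_mul A).const_add 1).const_mul (Real.exp (-1))
    simpa using h1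
  have hnlim : Tendsto (fun n => ‖ζ n‖) atTop (𝓝 (Real.exp (-1))) :=
    tendsto_of_tendsto_of_tendsto_of_le_of_le tendsto_const_nhds huplim hlow hup
  obtain ⟨B, hB⟩ := hnlim.bddAbove_range
  have hmem : ∀ n, ζ n ∈ Metric.closedBall (0 : ℂ) B := by
    intro n
    rw [mem_closedBall_zero_iff]
    exact hB ⟨n, rfl⟩
  obtain ⟨ζ0, -, ψ, hψ, hζlim⟩ := tendsto_subseq_of_bounded Metric.isBounded_closedBall hmem
  have hζ0 : ‖ζ0‖ = Real.exp (-1) :=
    tendsto_nhds_unique hζlim.norm (hnlim.comp hψ.tendsto_atTop)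
  have hpar : Par (t ∘ ψ) (ζ ∘ ψ) ζ0 u0 :=
    ⟨fun n => hne _, fun n => hre _, fun n => him _, hlim.comp hψ.tendsto_atTop,
      hdir.comp hψ.tendsto_atTop, hζlim⟩
  by_cases htip : ζ0 = -cexp (-1)
  · rw [htip] at hpar
    have hu := hpar.norm_dir
    have hur := hpar.dir_re
    have hui := hpar.dir_im
    have hxe : ∀ n, off (ζ n) * ell (t n) / t n = x n := by
      intro n
      have h1 := ell_ne_zero (hne n)
      have h2 := hne n
      show off (zA (t n) (x n)) * ell (t n) / t n = x n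
      rw [off_zA h2]
      field_simp
    rcases tip_cases hpar with ⟨φ, hφ, x0, hx0⟩ | ⟨φ, hφ, v0, hv0, hs⟩
    · have h1 : Tendsto (fun n => ‖x (ψ (φ n))‖) atTop (𝓝 ‖x0‖) := by
        have h2 := hx0.norm
        refine h2.congr fun n => ?_
        show ‖off (ζ (ψ (φ n))) * ell (t (ψ (φ n))) / t (ψ (φ n))‖ = _
        rw [hxe]
      have h2 : Tendsto (fun n => ‖x (ψ (φ n))‖) atTop atTop :=
        hx.comp (hψ.tendsto_atTop.comp hφ.tendsto_atTop)
      exact not_tendsto_nhds_of_tendsto_atTop h2 _ h1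
    · have hpar' := par_comp hpar hφ
      by_cases h1 : v0 * cexp (2 * u0.arg / 3 * I) = -1
      · have h2 := ts7_dir hur hui h1
        have h3 : Tendsto (fun n => (off (ζ (ψ (φ n))) / ‖off (ζ (ψ (φ n)))‖).re) atTop
            (𝓝 v0.re) := (Complex.continuous_re.tendsto _).comp hs.dir
        have h4 : ∀ᶠ n in atTop, (off (ζ (ψ (φ n))) / ‖off (ζ (ψ (φ n)))‖).re < -1 / 4 :=
          h3.eventually_lt_const (by linarith)
        have h5 : ∀ᶠ n in atTop, ‖x (ψ (φ n))‖ ≤ 4 * A := by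
          filter_upwards [h4] with n hn
          set m := ψ (φ n) with hm
          have hoff : off (ζ m) ≠ 0 := hs.ne n
          have hop : 0 < ‖off (ζ m)‖ := norm_pos_iff.2 hoff
          have h6 : (off (ζ m)).re < -1 / 4 * ‖off (ζ m)‖ := by
            rw [Complex.div_ofReal_re, div_lt_iff₀ hop] at hn
            exact hn
          have h7 : 1 + ‖off (ζ m)‖ / 4 ≤ ‖1 - off (ζ m)‖ := by
            refine le_trans ?_ (Complex.re_le_norm _)
            rw [Complex.sub_re, Complex.one_re]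
            linarith
          have h8 : ‖1 - off (ζ m)‖ = Real.exp 1 * ‖ζ m‖ := by
            have h9 : 1 - off (ζ m) = -(cexp 1 * ζ m) := by
              unfold off
              ring
            rw [h9, norm_neg, norm_mul, Complex.norm_exp, Complex.one_re]
          have h9 : Real.exp 1 * ‖ζ m‖ ≤ 1 + A * ‖t m / ell (t m)‖ := by
            calc Real.exp 1 * ‖ζ m‖ ≤ Real.exp 1 * (Real.exp (-1) *
                (1 + A * ‖t m / ell (t m)‖)) := mul_le_mul_of_nonneg_left (hup m) (Real.exp_pos 1).le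
              _ = (Real.exp 1 * Real.exp (-1)) * (1 + A * ‖t m / ell (t m)‖) := by ring
              _ = _ := by rw [← Real.exp_add]; norm_num
          have h10 : ‖off (ζ m)‖ ≤ 4 * A * ‖t m / ell (t m)‖ := by linarith
          have h11 : off (ζ m) = x m * (t m / ell (t m)) := by
            show off (zA (t m) (x m)) = _
            rw [off_zA (hne m), mul_div_assoc]
          have h12 : 0 < ‖t m / ell (t m)‖ :=
            norm_pos_iff.2 (div_ne_zero (hne m) (ell_ne_zero (hne m)))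
          rw [h11, norm_mul] at h10
          exact le_of_mul_le_mul_right h10 h12
        have h6 : Tendsto (fun n => ‖x (ψ (φ n))‖) atTop atTop :=
          hx.comp (hψ.tendsto_atTop.comp hφ.tendsto_atTop)
        obtain ⟨n, hn1, hn2⟩ := (h5.and (h6.eventually_gt_atTop (4 * A))).exists
        exact absurd hn1 (not_le.2 hn2)
      · obtain ⟨h2, -⟩ := scale_one hpar' hu hur hui (tipConn_all hu hur hui) hs hv0 h1
        obtain ⟨n, hn⟩ := h2.exists
        exact hn (hE _)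
  · obtain ⟨n, hn⟩ := (edge hpar hζ0 htip).exists
    exact hn (hE _)

theorem scale_bound {t : ℕ → ℂ} {u0 : ℂ} (hne : ∀ n, t n ≠ 0) (hre : ∀ n, 0 ≤ (t n).re)
    (him : ∀ n, (t n).im ≤ 0) (hlim : Tendsto t atTop (𝓝 0))
    (hdir : Tendsto (fun n => (‖t n‖ : ℂ) / t n) atTop (𝓝 u0)) {A : ℝ} (hA : 0 < A) :
    ∃ M : ℝ, ∀ᶠ n in atTop, ∀ x : ℂ, fA (t n) x = 0 →
      ‖zA (t n) x‖ ≤ Real.exp (-1) * ‖1 + A * (t n / ell (t n))‖ → ‖x‖ ≤ M := by
  by_contra hcon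
  push Not at hcon
  have h1 : ∀ m : ℕ, ∃ᶠ n in atTop, ∃ x : ℂ, fA (t n) x = 0 ∧
      ‖zA (t n) x‖ ≤ Real.exp (-1) * ‖1 + A * (t n / ell (t n))‖ ∧ (m : ℝ) < ‖x‖ := by
    intro m
    have h2 := hcon (m : ℝ)
    exact h2
  obtain ⟨φ, hφ, h2⟩ := Filter.extraction_forall_of_frequently h1
  choose x hx1 hx2 hx3 using h2
  refine ts7_seq (t := t ∘ φ) (u0 := u0) (fun n => hne _) (fun n => hre _) (fun n => him _)
    (hlim.comp hφ.tendsto_atTop) (hdir.comp hφ.tendsto_atTop) hA (x := x) (fun n => ?_)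
    (fun n => hx2 n) ?_
  · have h3 := hx1 n
    unfold fA at h3
    have h4 : sz (t (φ n)) (zA (t (φ n)) (x n)) ≠ 0 := by
      unfold sz
      exact Complex.exp_ne_zero _
    have h5 := ell_ne_zero (hne (φ n))
    rcases div_eq_zero_iff.1 h3 with h6 | h6
    · exact h6
    · exact absurd h6 (mul_ne_zero h4 h5)
  · refine tendsto_atTop_mono (fun n => (hx3 n).le) tendsto_natCast_atTop_atTop

end SokamV

end

/-! ### Lib_MP_af4de1_in.T8Asm -/

section
namespace SokamIn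
end SokamIn
/-!
# The first zeros near `q = 1` along a sequence [IN-T8]

`w_n = t n/ell (t n)`, `ell t = |ell t| e^{i arg t/3}` so `arg w = (2/3) arg t`, `Re w ≥ ‖w‖/2`, `w_n → 0`, `‖t n‖/‖w_n‖ = ‖ell (t n)‖ → 0`.
`mono_scale`: `0 < a < a'`, `‖x + a‖, ‖x' + a'‖ ≤ (a' - a)/16`, `Re w ≥ ‖w‖/2`, `a'‖w‖ ≤ 1`: `‖1 - x w‖ + (a' - a)‖w‖/8 ≤ ‖1 - x' w‖`
(`‖1 + a' w‖² - ‖1 + a w‖² ≥ (a' - a)‖w‖`, sum of the norms `≤ 4`).
`seq_first`: `a` from `airy_enum`, `A = a (k + 1)`, `M` from `scale_bound`, `K ≥ k + 1` with `M + 1 < a K`.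
`hurwitz_simple` (`Hurw.lean`, helper4) at each `-a i`, `i ≤ K`, with a common small radius `r ≤ min (a (i+1) - a i)/16`: for large `n` exactly one zero `x_i` of `fA (t n)` in
`ball (-a i) r`, simple.  On the compact set `closedBall 0 (M + 1/2) \ ⋃ ball (-a i) r` `|Ai| ≥ m > 0`, so no zeros of `fA (t n)` there.  `z i = zF (t n) (x_i)`.
Completeness: `F (e^{-t}) w = 0`, `‖w‖ ≤ ‖z k‖`, `w = zF t x` (`zA_off`), `‖zA t x‖ ≤ ‖zA t x_k‖ = e⁻¹‖1 - x_k w_n‖ ≤ e⁻¹‖1 + A w_n‖`, so `‖x‖ ≤ M`, so `x = x_i`, and `i ≤ k` by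
`mono_scale`.  Gap: `‖z i‖ < ‖e^{-t}‖ ‖z (i+1)‖`: `mono_scale` and `1 - ‖e^{-t}‖ ≤ ‖t‖ = o(‖w‖)`.
-/

namespace SokamV

open Complex Filter Topology SokamIn

private theorem t8_norm_ell {t : ℂ} : ‖ell t‖ ^ (3 : ℕ) = 2 * ‖t‖ := by
  rw [← norm_pow, ell_pow, norm_mul]
  simp

private theorem t8_ell_lim {t : ℕ → ℂ} (h : Tendsto t atTop (𝓝 0)) :
    Tendsto (fun n => ‖ell (t n)‖) atTop (𝓝 0) := by
  have h1 : Tendsto (fun n => 2 * ‖t n‖) atTop (𝓝 0) := by
    have := (h.norm).const_mul 2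
    simpa using this
  rw [Metric.tendsto_atTop] at h1 ⊢
  intro ε hε
  obtain ⟨N, hN⟩ := h1 (ε ^ (3 : ℕ)) (by positivity)
  refine ⟨N, fun n hn => ?_⟩
  have h2 := hN n hn
  rw [Real.dist_eq, sub_zero, abs_of_nonneg (by (clear * -; positivity)), ← t8_norm_ell] at h2
  rw [Real.dist_eq, sub_zero, abs_of_nonneg (norm_nonneg _)]
  exact lt_of_pow_lt_pow_left₀ 3 hε.le h2

private theorem t8_w {t : ℂ} (ht : t ≠ 0) : t / ell t = ell t ^ (2 : ℕ) / 2 := by
  have h := ell_ne_zero ht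
  rw [div_eq_div_iff h two_ne_zero]
  linear_combination -(ell_pow (t := t))

theorem w_re {t : ℂ} (ht : t ≠ 0) (hre : 0 ≤ t.re) : ‖t / ell t‖ / 2 ≤ (t / ell t).re := by
  have h2 : (2 * t) ≠ 0 := mul_ne_zero two_ne_zero ht
  have h3 : ell t ^ (2 : ℕ) = cexp (Complex.log (2 * t) * (2 / 3)) := by
    unfold ell
    rw [Complex.cpow_def_of_ne_zero h2, ← Complex.exp_nat_mul]
    congr 1
    push_cast
    ring
  have him : (Complex.log (2 * t) * (2 / 3)).im = 2 / 3 * (2 * t).arg := by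
    have : (2 / 3 : ℂ) = ((2 / 3 : ℝ) : ℂ) := by push_cast; ring
    rw [this, Complex.mul_im, Complex.ofReal_re, Complex.ofReal_im, mul_zero, zero_add,
      Complex.log_im]
    ring
  have harg : |(2 * t).arg| ≤ Real.pi / 2 := by
    rw [Complex.abs_arg_le_pi_div_two_iff]
    simp only [Complex.mul_re, Complex.re_ofNat, Complex.im_ofNat, zero_mul, sub_zero]
    linarith only [hre]
  have hcos : 1 / 2 ≤ Real.cos (2 / 3 * (2 * t).arg) := by
    rw [← Real.cos_abs, ← Real.cos_pi_div_three]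
    refine Real.cos_le_cos_of_nonneg_of_le_pi (abs_nonneg _) (by linarith only [Real.pi_pos]) ?_
    rw [abs_mul, abs_of_nonneg (by norm_num : (0 : ℝ) ≤ 2 / 3)]
    linarith only [harg]
  rw [t8_w ht, h3, norm_div, Complex.norm_exp]
  have h4 : (cexp (Complex.log (2 * t) * (2 / 3)) / 2).re =
      (cexp (Complex.log (2 * t) * (2 / 3))).re / 2 := by
    simp
  rw [h4, Complex.exp_re, him]
  have h5 : ‖(2 : ℂ)‖ = 2 := by simp
  rw [h5]
  have h6 := Real.exp_pos (Complex.log (2 * t) * (2 / 3)).re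
  nlinarith only [hcos, h6]

private theorem t8_sq (a : ℝ) (w : ℂ) : ‖1 + a * w‖ ^ (2 : ℕ) = 1 + 2 * a * w.re + a ^ (2 : ℕ) * ‖w‖ ^ (2 : ℕ) := by
  rw [← Complex.normSq_eq_norm_sq, ← Complex.normSq_eq_norm_sq, Complex.normSq_apply,
    Complex.normSq_apply]
  simp
  ring

theorem mono_scale {a a' : ℝ} (h0 : 0 < a) (h : a < a') {x x' w : ℂ} (hx : ‖x + a‖ ≤ (a' - a) / 16)
    (hx' : ‖x' + a'‖ ≤ (a' - a) / 16) (hw : ‖w‖ / 2 ≤ w.re) (hs : a' * ‖w‖ ≤ 1) :
    ‖1 - x * w‖ + (a' - a) * ‖w‖ / 8 ≤ ‖1 - x' * w‖ := by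
  have hwn := norm_nonneg w
  have e1 : ‖1 - x * w‖ ≤ ‖1 + a * w‖ + (a' - a) / 16 * ‖w‖ := by
    have : 1 - x * w = (1 + a * w) - (x + a) * w := by ring
    rw [this]
    refine (norm_sub_le _ _).trans ?_
    rw [norm_mul]
    have := mul_le_mul_of_nonneg_right hx hwn
    linarith only [this]
  have e2 : ‖1 + a' * w‖ ≤ ‖1 - x' * w‖ + (a' - a) / 16 * ‖w‖ := by
    have : 1 + a' * w = (1 - x' * w) + (x' + a') * w := by ring
    rw [this]
    refine (norm_add_le _ _).trans ?_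
    rw [norm_mul]
    have := mul_le_mul_of_nonneg_right hx' hwn
    linarith only [this]
  have e3 := t8_sq a w
  have e4 := t8_sq a' w
  have e5 : ‖1 + a * w‖ ≤ 2 := by
    refine (norm_add_le _ _).trans ?_
    rw [norm_one, norm_mul, Complex.norm_real, Real.norm_of_nonneg h0.le]
    have := mul_le_mul_of_nonneg_right h.le hwn
    linarith only [hs, this]
  have e6 : ‖1 + a' * w‖ ≤ 2 := by
    refine (norm_add_le _ _).trans ?_
    rw [norm_one, norm_mul, Complex.norm_real, Real.norm_of_nonneg (h0.trans h).le]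
    linarith only [hs]
  have e7 : (a' - a) * ‖w‖ ≤ ‖1 + a' * w‖ ^ (2 : ℕ) - ‖1 + a * w‖ ^ (2 : ℕ) := by
    rw [e3, e4]
    have h1 : 0 ≤ (a' ^ (2 : ℕ) - a ^ (2 : ℕ)) * ‖w‖ ^ (2 : ℕ) := by
      refine mul_nonneg ?_ (sq_nonneg _)
      nlinarith only [h0, h]
    have h2 : (a' - a) * (‖w‖ / 2) ≤ (a' - a) * w.re :=
      mul_le_mul_of_nonneg_left hw (by linarith only [h])
    linarith only [h1, h2]
  have e8 : 0 ≤ (a' - a) * ‖w‖ := mul_nonneg (by linarith only [h]) hwn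
  have e9 : ‖1 + a * w‖ + (a' - a) * ‖w‖ / 4 ≤ ‖1 + a' * w‖ := by
    by_contra hc
    push Not at hc
    have n1 := norm_nonneg (1 + (a : ℂ) * w)
    have n2 := norm_nonneg (1 + (a' : ℂ) * w)
    have h3 : ‖1 + (a' : ℂ) * w‖ ^ (2 : ℕ) - ‖1 + (a : ℂ) * w‖ ^ (2 : ℕ) =
        (‖1 + (a' : ℂ) * w‖ - ‖1 + (a : ℂ) * w‖) * (‖1 + (a' : ℂ) * w‖ + ‖1 + (a : ℂ) * w‖) := by
      ring
    rcases le_or_gt (‖1 + (a' : ℂ) * w‖ - ‖1 + (a : ℂ) * w‖) 0 with h4 | h4
    · have h5 : (‖1 + (a' : ℂ) * w‖ - ‖1 + (a : ℂ) * w‖) *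
          (‖1 + (a' : ℂ) * w‖ + ‖1 + (a : ℂ) * w‖) ≤ 0 :=
        mul_nonpos_of_nonpos_of_nonneg h4 (by linarith only [n1, n2])
      have h6 : (a' - a) * ‖w‖ = 0 := by linarith only [e7, e8, h5]
      rw [h6] at hc
      nlinarith only [e7, e8, hc, n2]
    · have h5 : (‖1 + (a' : ℂ) * w‖ - ‖1 + (a : ℂ) * w‖) *
          (‖1 + (a' : ℂ) * w‖ + ‖1 + (a : ℂ) * w‖) ≤
          (‖1 + (a' : ℂ) * w‖ - ‖1 + (a : ℂ) * w‖) * 4 :=
        mul_le_mul_of_nonneg_left (by linarith only [e5, e6]) h4.le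
      linarith only [e7, hc, h5]
  linarith only [e1, e2, e9]

/-- the modulus of the zero -/
private theorem t8_norm_zF (t x : ℂ) :
    ‖zF t x‖ = Real.exp (-1) / ‖t‖ * ‖cexp (-t / 2)‖ * ‖1 - x * (t / ell t)‖ := by
  unfold zF zA
  rw [norm_mul, norm_div, norm_mul, norm_neg, mul_div_assoc]
  have : ‖cexp (-1)‖ = Real.exp (-1) := by
    rw [Complex.norm_exp]
    simp
  rw [this]
  ring_nf

private theorem t8_norm_zA (t x : ℂ) : ‖zA t x‖ = Real.exp (-1) * ‖1 - x * (t / ell t)‖ := by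
  unfold zA
  rw [norm_mul, norm_neg, mul_div_assoc]
  have : ‖cexp (-1)‖ = Real.exp (-1) := by
    rw [Complex.norm_exp]
    simp
  rw [this]

private theorem t8_exists {t : ℂ} (ht : t ≠ 0) (w : ℂ) : ∃ x, zF t x = w := by
  refine ⟨off (w * t * cexp (t / 2)) * ell t / t, ?_⟩
  unfold zF
  rw [zA_off ht]
  have h1 : cexp (t / 2) * cexp (-t / 2) = 1 := by
    rw [← Complex.exp_add, show t / 2 + -t / 2 = 0 by ring, Complex.exp_zero]
  have h2 : w * t * cexp (t / 2) / t * cexp (-t / 2) =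
      w * (t / t) * (cexp (t / 2) * cexp (-t / 2)) := by ring
  rw [h2, h1, div_self ht, mul_one, mul_one]

/-- the conditions on `t` under which the assembly works -/
private theorem t8_core {a : ℕ → ℝ} (ha0 : 0 < a 0) (ham : StrictMono a) {k K : ℕ} (hK : k + 1 ≤ K)
    {r M : ℝ} (hr : 0 < r) (hrgap : ∀ i ≤ K, r ≤ (a (i + 1) - a i) / 16) {t : ℂ} (ht : t ≠ 0)
    (hre : 0 ≤ t.re) {x : ℕ → ℂ} (hx0 : ∀ i ≤ K, fA t (x i) = 0)
    (hxd : ∀ i ≤ K, deriv (fA t) (x i) ≠ 0) (hxb : ∀ i ≤ K, ‖x i + a i‖ ≤ r)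
    (hsm : a (K + 1) * ‖t / ell t‖ ≤ 1)
    (hM : ∀ y : ℂ, fA t y = 0 →
      ‖zA t y‖ ≤ Real.exp (-1) * ‖1 + (a (k + 1) : ℝ) * (t / ell t)‖ → ‖y‖ ≤ M)
    (hall : ∀ y : ℂ, ‖y‖ ≤ M → fA t y = 0 → ∃ i ≤ K, y = x i)
    (hell : ‖ell t‖ < r / 8) :
    First (cexp (-t)) k (fun i => zF t (x i)) ∧
      ∀ i < k, ‖zF t (x i)‖ < ‖cexp (-t)‖ * ‖zF t (x (i + 1))‖ := by
  set w : ℂ := t / ell t with hw
  have hell0 : ell t ≠ 0 := ell_ne_zero ht
  have hw0 : w ≠ 0 := div_ne_zero ht hell0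
  have hwpos : 0 < ‖w‖ := norm_pos_iff.2 hw0
  have hwre : ‖w‖ / 2 ≤ w.re := w_re ht hre
  have htw : ‖t‖ = ‖ell t‖ * ‖w‖ := by
    rw [hw, norm_div]
    field_simp
  have hpos : ∀ i, 0 < a i := fun i => ha0.trans_le (ham.monotone (Nat.zero_le i))
  have hsi : ∀ i ≤ K + 1, a i * ‖w‖ ≤ 1 := fun i hi =>
    (mul_le_mul_of_nonneg_right (ham.monotone hi) hwpos.le).trans hsm
  -- comparison of two zeros
  have hcmp : ∀ i j, i < j → j ≤ K →
      ‖1 - x i * w‖ + (a j - a i) * ‖w‖ / 8 ≤ ‖1 - x j * w‖ := by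
    intro i j hij hj
    have h1 : a (i + 1) ≤ a j := ham.monotone hij
    have h2 := hrgap i (by omega)
    refine mono_scale (hpos i) (ham hij) ((hxb i (by omega)).trans ?_) ((hxb j hj).trans ?_) hwre
      (hsi j (by omega))
    · linarith only [h1, h2]
    · linarith only [h1, h2]
  have hc : 0 < Real.exp (-1) / ‖t‖ * ‖cexp (-t / 2)‖ := by
    have h1 : 0 < ‖t‖ := norm_pos_iff.2 ht
    have h2 : 0 < ‖cexp (-t / 2)‖ := norm_pos_iff.2 (Complex.exp_ne_zero _)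
    (clear * - ht h2; positivity)
  have hq1 : ‖cexp (-t)‖ ≤ 1 := by
    rw [Complex.norm_exp, Real.exp_le_one_iff]
    simpa using hre
  have hq2 : 1 - ‖t‖ ≤ ‖cexp (-t)‖ := by
    rw [Complex.norm_exp]
    have h1 := Real.add_one_le_exp (-t).re
    have h2 := Complex.re_le_norm t
    have h3 : (-t).re = -t.re := rfl
    linarith only [h1, h2, h3]
  have hgap : ∀ i < k, ‖zF t (x i)‖ < ‖cexp (-t)‖ * ‖zF t (x (i + 1))‖ := by
    intro i hi
    rw [t8_norm_zF, t8_norm_zF, ← hw]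
    have h1 := hcmp i (i + 1) (Nat.lt_succ_self i) (by omega)
    have h2 : ‖1 - x (i + 1) * w‖ ≤ 3 := by
      have h3 : 1 - x (i + 1) * w = 1 + (a (i + 1) : ℂ) * w - (x (i + 1) + a (i + 1)) * w := by ring
      rw [h3]
      refine (norm_sub_le _ _).trans ?_
      have h4 : ‖1 + (a (i + 1) : ℂ) * w‖ ≤ 2 := by
        refine (norm_add_le _ _).trans ?_
        rw [norm_one, norm_mul, Complex.norm_real, Real.norm_of_nonneg (hpos _).le]
        linarith only [hsi (i + 1) (by omega)]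
      have h5 : ‖(x (i + 1) + a (i + 1)) * w‖ ≤ 1 := by
        rw [norm_mul]
        have h6 := hxb (i + 1) (by omega)
        have h7 := hrgap i (by omega)
        have h8 : r ≤ a (i + 1) := by linarith only [hr, h7, hpos i]
        exact (mul_le_mul_of_nonneg_right (h6.trans h8) hwpos.le).trans (hsi (i + 1) (by omega))
      linarith only [h4, h5]
    have h3 : 0 ≤ ‖1 - x (i + 1) * w‖ := norm_nonneg _
    have h4 : ‖1 - x i * w‖ < ‖cexp (-t)‖ * ‖1 - x (i + 1) * w‖ := by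
      have h5 : (1 - ‖t‖) * ‖1 - x (i + 1) * w‖ ≤ ‖cexp (-t)‖ * ‖1 - x (i + 1) * w‖ :=
        mul_le_mul_of_nonneg_right hq2 h3
      have h6 : ‖t‖ * ‖1 - x (i + 1) * w‖ ≤ ‖t‖ * 3 :=
        mul_le_mul_of_nonneg_left h2 (norm_nonneg _)
      have h7 : ‖t‖ * 3 < (a (i + 1) - a i) * ‖w‖ / 8 := by
        rw [htw]
        have h8 := hrgap i (by omega)
        have h9 : ‖ell t‖ * ‖w‖ < r / 8 * ‖w‖ := mul_lt_mul_of_pos_right hell hwpos
        have h10 : r * ‖w‖ ≤ (a (i + 1) - a i) / 16 * ‖w‖ := mul_le_mul_of_nonneg_right h8 hwpos.le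
        have h11 : 0 < r * ‖w‖ := mul_pos hr hwpos
        linarith only [h9, h10, h11]
      linarith only [h1, h5, h6, h7]
    calc Real.exp (-1) / ‖t‖ * ‖cexp (-t / 2)‖ * ‖1 - x i * w‖
        < Real.exp (-1) / ‖t‖ * ‖cexp (-t / 2)‖ * (‖cexp (-t)‖ * ‖1 - x (i + 1) * w‖) :=
          mul_lt_mul_of_pos_left h4 hc
      _ = ‖cexp (-t)‖ * (Real.exp (-1) / ‖t‖ * ‖cexp (-t / 2)‖ * ‖1 - x (i + 1) * w‖) := by ring
  refine ⟨⟨fun i hi => (fA_eq_zero ht).1 (hx0 i (by omega)),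
    fun i hi => fA_simple ht hre (hx0 i (by omega)) (hxd i (by omega)), fun i hi => ?_,
    fun v hv hvk => ?_⟩, hgap⟩
  · refine (hgap i hi).trans_le ?_
    have := mul_le_mul_of_nonneg_right hq1 (norm_nonneg (zF t (x (i + 1))))
    rwa [one_mul] at this
  · obtain ⟨y, rfl⟩ := t8_exists ht v
    have hy0 : fA t y = 0 := (fA_eq_zero ht).2 hv
    rw [t8_norm_zF, t8_norm_zF, ← hw] at hvk
    have h1 : ‖1 - y * w‖ ≤ ‖1 - x k * w‖ := le_of_mul_le_mul_left hvk hc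
    have h2 : ‖1 - x k * w‖ ≤ ‖1 + (a (k + 1) : ℝ) * w‖ := by
      have h3 := hrgap k (by omega)
      have h4 := mono_scale (x := x k) (x' := -(a (k + 1) : ℂ)) (w := w) (hpos k)
        (ham (Nat.lt_succ_self k)) ((hxb k (by omega)).trans h3) ?_ hwre (hsi (k + 1) (by omega))
      · have h5 : (1 : ℂ) - -(a (k + 1) : ℂ) * w = 1 + (a (k + 1) : ℝ) * w := by ring
        rw [h5] at h4
        have h6 : 0 ≤ (a (k + 1) - a k) * ‖w‖ / 8 := by
          have := ham (Nat.lt_succ_self k)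
          have h7 : 0 ≤ (a (k + 1) - a k) * ‖w‖ := mul_nonneg (by linarith only [this]) hwpos.le
          linarith only [h7]
        linarith only [h4, h6]
      · rw [neg_add_cancel, norm_zero]
        linarith only [hr, h3]
    have h3 : ‖zA t y‖ ≤ Real.exp (-1) * ‖1 + (a (k + 1) : ℝ) * (t / ell t)‖ := by
      rw [t8_norm_zA, ← hw]
      exact mul_le_mul_of_nonneg_left (h1.trans h2) (Real.exp_pos _).le
    obtain ⟨i, hi, rfl⟩ := hall y (hM y hy0 h3) hy0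
    refine ⟨i, ?_, rfl⟩
    by_contra hik
    rw [not_le] at hik
    have h4 := hcmp k i hik hi
    have h5 : 0 < (a i - a k) * ‖w‖ := mul_pos (by linarith only [ham hik]) hwpos
    linarith only [h1, h4, h5]

private theorem t8_min (g : ℕ → ℝ) (K : ℕ) (hg : ∀ i ≤ K, 0 < g i) : ∃ e > 0, ∀ i ≤ K, e ≤ g i := by
  obtain ⟨e, he, h⟩ := SokamIn.exists_pos_le g (K + 1) fun i hi => hg i (by omega)
  exact ⟨e, he, fun i hi => h i (by omega)⟩

theorem seq_first {t : ℕ → ℂ} {u0 : ℂ} (hne : ∀ n, t n ≠ 0) (hre : ∀ n, 0 ≤ (t n).re)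
    (him : ∀ n, (t n).im ≤ 0) (hlim : Tendsto t atTop (𝓝 0))
    (hdir : Tendsto (fun n => (‖t n‖ : ℂ) / t n) atTop (𝓝 u0)) (k : ℕ) :
    ∀ᶠ n in atTop, ∃ z : ℕ → ℂ, First (cexp (-t n)) k z ∧
      ∀ i < k, ‖z i‖ < ‖cexp (-t n)‖ * ‖z (i + 1)‖ := by
  -- the direction
  have hform : ∀ n, (‖t n‖ : ℂ) / t n = ((‖t n‖⁻¹ : ℝ) : ℂ) * (starRingEnd ℂ) (t n) := by
    intro n
    have h1 : (‖t n‖ : ℂ) ≠ 0 := by
      exact_mod_cast (norm_pos_iff.2 (hne n)).ne'
    have h2 : (starRingEnd ℂ) (t n) * t n = (‖t n‖ : ℂ) ^ (2 : ℕ) := by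
      rw [mul_comm, Complex.mul_conj, Complex.normSq_eq_norm_sq]
      push_cast
      ring
    rw [div_eq_iff (hne n), mul_assoc, h2]
    push_cast
    field_simp
  have hu : ‖u0‖ = 1 := by
    refine tendsto_nhds_unique hdir.norm ?_
    refine tendsto_const_nhds.congr fun n => ?_
    rw [norm_div, Complex.norm_real, norm_norm, div_self (norm_pos_iff.2 (hne n)).ne']
  have hure : 0 ≤ u0.re := by
    refine ge_of_tendsto ((Complex.continuous_re.tendsto u0).comp hdir) (Eventually.of_forall fun n => ?_)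
    rw [Function.comp_apply, hform, Complex.re_ofReal_mul, Complex.conj_re]
    exact mul_nonneg (inv_nonneg.2 (norm_nonneg _)) (hre n)
  have huim : 0 ≤ u0.im := by
    refine ge_of_tendsto ((Complex.continuous_im.tendsto u0).comp hdir) (Eventually.of_forall fun n => ?_)
    rw [Function.comp_apply, hform, Complex.im_ofReal_mul, Complex.conj_im]
    exact mul_nonneg (inv_nonneg.2 (norm_nonneg _)) (by linarith only [him n])
  have hunif := airy_unif hne hre him hlim hdir (tipConn_all hu hure huim)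
  -- the Airy zeros
  obtain ⟨a, ha0, ham, haz, hall, hat⟩ := airy_enum
  have hpos : ∀ i, 0 < a i := fun i => ha0.trans_le (ham.monotone (Nat.zero_le i))
  obtain ⟨M, hM⟩ := scale_bound hne hre him hlim hdir (A := a (k + 1)) (hpos _)
  obtain ⟨K, hK1, hK2⟩ : ∃ K, k + 1 ≤ K ∧ M < a K := by
    obtain ⟨K, h1, h2⟩ := ((eventually_ge_atTop (k + 1)).and (hat.eventually_gt_atTop M)).exists
    exact ⟨K, h1, h2⟩
  have hAi : Differentiable ℂ Ai := fun x => (hasDerivAt_Ai x).differentiableAt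
  have hAid : ∀ i, deriv Ai (-(a i : ℂ)) ≠ 0 := fun i => by
    rw [(hasDerivAt_Ai _).deriv]
    exact airy_simple (haz i)
  have hH := fun i : ℕ => SokamIn.hurwitz_simple (fun n => fA_differentiable (hne n) (hre n)) hAi hunif
    (haz i) (hAid i)
  choose r0 hr0 hH using hH
  obtain ⟨r, hr, hrle⟩ := t8_min (fun i => min (r0 i) ((a (i + 1) - a i) / 16)) K fun i _ =>
    lt_min (hr0 i) (by linarith only [ham (Nat.lt_succ_self i)])
  have hr1 : ∀ i ≤ K, r ≤ r0 i := fun i hi => (hrle i hi).trans (min_le_left _ _)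
  have hr2 : ∀ i ≤ K, r ≤ (a (i + 1) - a i) / 16 := fun i hi => (hrle i hi).trans (min_le_right _ _)
  have hz : ∀ᶠ n in atTop, ∀ i ∈ Finset.range (K + 1),
      (∃! x, x ∈ Metric.ball (-(a i : ℂ)) r ∧ fA (t n) x = 0) ∧
      (∀ x ∈ Metric.ball (-(a i : ℂ)) r, deriv (fA (t n)) x ≠ 0) := by
    rw [Filter.eventually_all_finset]
    intro i hi
    have hi' : i ≤ K := by
      rw [Finset.mem_range] at hi
      omega
    filter_upwards [hH i r ⟨hr, hr1 i hi'⟩] with n hn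
    exact ⟨hn.1, hn.2.1⟩
  -- no other zeros
  set C : Set ℂ := Metric.closedBall 0 M \ ⋃ i ∈ Finset.range (K + 1), Metric.ball (-(a i : ℂ)) r
    with hCdef
  have hCc : IsCompact C :=
    (isCompact_closedBall (0 : ℂ) M).diff (isOpen_biUnion fun i _ => Metric.isOpen_ball)
  have hCmem : ∀ y, y ∈ C ↔ ‖y‖ ≤ M ∧ ∀ i ≤ K, r ≤ ‖y - -(a i : ℂ)‖ := by
    intro y
    rw [hCdef, Set.mem_sdiff, mem_closedBall_zero_iff, Set.mem_iUnion₂]
    simp only [Finset.mem_range, Metric.mem_ball, dist_eq_norm, not_exists, not_lt,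
      Nat.lt_succ_iff]
  have hC0 : ∀ y ∈ C, Ai y ≠ 0 := by
    intro y hy h0
    rw [hCmem] at hy
    obtain ⟨i, rfl⟩ := hall y h0
    rcases le_or_gt i K with hi | hi
    · have := hy.2 i hi
      rw [sub_self, norm_zero] at this
      linarith only [hr, this]
    · have h1 := hy.1
      rw [norm_neg, Complex.norm_real, Real.norm_of_nonneg (hpos i).le] at h1
      have := ham hi
      linarith only [hK2, h1, this]
  have hC : ∀ᶠ n in atTop, ∀ y ∈ C, fA (t n) y ≠ 0 := by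
    rcases C.eq_empty_or_nonempty with he | hCne
    · refine Eventually.of_forall fun n y hy => ?_
      rw [he] at hy
      exact absurd hy (Set.notMem_empty y)
    · obtain ⟨y0, hy0, hmin⟩ := hCc.exists_isMinOn hCne hAi.continuous.norm.continuousOn
      have hm : 0 < ‖Ai y0‖ := norm_pos_iff.2 (hC0 y0 hy0)
      have h1 : TendstoUniformlyOn (fun n x => fA (t n) x) Ai atTop C :=
        (tendstoLocallyUniformlyOn_iff_tendstoUniformlyOn_of_compact hCc).1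
          hunif.tendstoLocallyUniformlyOn
      rw [Metric.tendstoUniformlyOn_iff] at h1
      filter_upwards [h1 _ hm] with n hn y hy h0
      have h2 := hn y hy
      rw [h0, dist_zero_right] at h2
      exact absurd (show ‖Ai y0‖ ≤ ‖Ai y‖ from hmin hy) (not_le.2 h2)
  -- small quantities
  have hl := t8_ell_lim hlim
  have hwlim : Tendsto (fun n => a (K + 1) * ‖t n / ell (t n)‖) atTop (𝓝 0) := by
    have h1 : Tendsto (fun n => a (K + 1) * (‖ell (t n)‖ ^ (2 : ℕ) / 2)) atTop (𝓝 (a (K + 1) * (0 ^ (2 : ℕ) / 2))) :=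
      ((hl.pow 2).div_const 2).const_mul _
    have h2 : a (K + 1) * ((0 : ℝ) ^ (2 : ℕ) / 2) = 0 := by ring
    rw [h2] at h1
    refine h1.congr fun n => ?_
    rw [t8_w (hne n), norm_div, norm_pow]
    simp
  filter_upwards [hM, hz, hC, hl.eventually_lt_const (show (0 : ℝ) < r / 8 by (clear * - hr; positivity)),
    hwlim.eventually_lt_const one_pos] with n h1 h2 h3 h4 h5
  have h2' : ∀ i, ∃ y : ℂ, i ≤ K → ‖y + a i‖ ≤ r ∧ fA (t n) y = 0 ∧ deriv (fA (t n)) y ≠ 0 ∧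
      ∀ y', ‖y' - -(a i : ℂ)‖ < r → fA (t n) y' = 0 → y' = y := by
    intro i
    by_cases hi : i ≤ K
    · obtain ⟨⟨y, ⟨hy1, hy2⟩, hy3⟩, hd⟩ := h2 i (Finset.mem_range.2 (by omega))
      refine ⟨y, fun _ => ⟨?_, hy2, hd y hy1, fun y' hy' h0 => hy3 y' ⟨?_, h0⟩⟩⟩
      · rw [Metric.mem_ball, dist_eq_norm, sub_neg_eq_add] at hy1
        exact hy1.le
      · rw [Metric.mem_ball, dist_eq_norm]
        exact hy'
    · exact ⟨0, fun h => absurd h hi⟩
  choose x hx using h2'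
  refine ⟨fun i => zF (t n) (x i), ?_⟩
  refine t8_core ha0 ham hK1 hr hr2 (hne n) (hre n) (fun i hi => (hx i hi).2.1)
    (fun i hi => (hx i hi).2.2.1) (fun i hi => (hx i hi).1) h5.le h1 ?_ h4
  intro y hy h0
  have h6 : y ∉ C := fun h7 => h3 y h7 h0
  rw [hCmem] at h6
  push Not at h6
  obtain ⟨i, hi, hi2⟩ := h6 hy
  exact ⟨i, hi, (hx i hi).2.2.2 y hi2 h0⟩

end SokamV

end

/-! ### Lib_MP_af4de1_in.T9Tip -/

section
namespace SokamF
end SokamF
/-!
# The corner `q = 1` [IN-T9]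

By contradiction: `q n → 1`, `‖q n‖ ≤ 1`, `q n ≠ 1`, without such `z`.  Replacing `q n` by its conjugate
we may assume `0 ≤ Im (q n)`; `t n = -log (q n)`: `Re ≥ 0`, `Im ≤ 0`, `t n → 0`, `t n ≠ 0`; a subsequence with `‖t n‖/t n → u0`
(compactness of the unit circle); `seq_first`.
-/

namespace SokamIn

open Complex Filter Topology SokamF

/-- `q` is fine at the corner -/
def TipOK (k : ℕ) (q : ℂ) : Prop :=
  ∃ z : ℕ → ℂ, First q k z ∧ ∀ i < k, ‖z i‖ < ‖q‖ * ‖z (i + 1)‖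

theorem TipOK.conj {k : ℕ} {q : ℂ} (h : TipOK k q) : TipOK k ((starRingEnd ℂ) q) := by
  obtain ⟨z, h1, h2⟩ := h
  refine ⟨_, h1.conj, fun i hi => ?_⟩
  simp only [Complex.norm_conj]
  exact h2 i hi

private theorem tp_upper (k : ℕ) : ∃ ε > 0, ∀ q : ℂ, ‖q‖ ≤ 1 → q ≠ 1 → 0 ≤ q.im → ‖q - 1‖ < ε →
    TipOK k q := by
  by_contra hcon
  push Not at hcon
  have h1 : ∀ n : ℕ, ∃ q : ℂ, ‖q‖ ≤ 1 ∧ q ≠ 1 ∧ 0 ≤ q.im ∧ ‖q - 1‖ < 1 / ((n : ℝ) + 2) ∧
      ¬ TipOK k q := by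
    intro n
    obtain ⟨q, a, b, c, d, e⟩ := hcon (1 / ((n : ℝ) + 2)) (by positivity)
    exact ⟨q, a, b, c, d, e⟩
  choose q hq1 hq2 hq3 hq4 hq5 using h1
  have hlim : Tendsto q atTop (𝓝 1) := by
    rw [tendsto_iff_norm_sub_tendsto_zero]
    refine squeeze_zero (fun n => norm_nonneg _) (fun n => (hq4 n).le) ?_
    have := (tendsto_const_div_atTop_nhds_zero_nat (1 : ℝ)).comp (tendsto_add_atTop_nat 2)
    refine this.congr fun n => ?_
    simp
  have hq0 : ∀ n, q n ≠ 0 := by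
    intro n h0
    have := hq4 n
    rw [h0, zero_sub, norm_neg, norm_one] at this
    have h2 : 1 / ((n : ℝ) + 2) ≤ 1 / 2 := by
      apply div_le_div_of_nonneg_left _ _ _ <;> norm_num
    linarith
  set t : ℕ → ℂ := fun n => -Complex.log (q n) with ht
  have hexp : ∀ n, cexp (-t n) = q n := fun n => by
    rw [ht]
    simp only [neg_neg]
    exact Complex.exp_log (hq0 n)
  have htlim : Tendsto t atTop (𝓝 0) := by
    have h1 : ContinuousAt Complex.log 1 := continuousAt_clog (by simp)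
    have := (h1.tendsto.comp hlim).neg
    simpa using this
  have htne : ∀ n, t n ≠ 0 := by
    intro n h0
    have := hexp n
    rw [h0, neg_zero, Complex.exp_zero] at this
    exact hq2 n this.symm
  have htre : ∀ n, 0 ≤ (t n).re := by
    intro n
    rw [ht]
    simp only [Complex.neg_re, Complex.log_re]
    rw [neg_nonneg]
    exact Real.log_nonpos (norm_nonneg _) (hq1 n)
  have htim : ∀ n, (t n).im ≤ 0 := by
    intro n
    rw [ht]
    simp only [Complex.neg_im, Complex.log_im]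
    rw [neg_nonpos]
    exact Complex.arg_nonneg_iff.2 (hq3 n)
  -- a convergent subsequence of the directions
  set y : ℕ → ℂ := fun n => (‖t n‖ : ℂ) / t n with hy
  have hyb : ∀ n, y n ∈ Metric.closedBall (0 : ℂ) 1 := by
    intro n
    rw [mem_closedBall_zero_iff, hy]
    simp only [norm_div, norm_real, norm_norm]
    exact div_self_le_one _
  obtain ⟨u0, _, φ, hφ, hlim'⟩ := tendsto_subseq_of_bounded
    (Metric.isBounded_closedBall (x := (0 : ℂ)) (r := 1)) hyb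
  have hev := SokamV.seq_first (t := t ∘ φ) (u0 := u0) (fun n => htne _) (fun n => htre _)
    (fun n => htim _) (htlim.comp hφ.tendsto_atTop) hlim' k
  obtain ⟨n, z, h1, h2⟩ := hev.exists
  refine hq5 (φ n) ⟨z, ?_, ?_⟩
  · have := h1
    rw [Function.comp_apply, hexp] at this
    exact this
  · intro i hi
    have := h2 i hi
    rwa [Function.comp_apply, hexp] at this

theorem tip (k : ℕ) : TIP k := by
  obtain ⟨ε, hε, h⟩ := tp_upper k
  refine ⟨ε, hε, fun q h1 h2 h3 => ?_⟩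
  rcases le_total 0 q.im with h4 | h4
  · exact h q h1 h2 h4 h3
  · have := h ((starRingEnd ℂ) q) (by rwa [Complex.norm_conj]) (fun h5 => ?_) (by simpa using h4) ?_
    · have h6 := this.conj
      rwa [Complex.conj_conj] at h6
    · apply h2
      have h6 := congrArg (starRingEnd ℂ) h5
      simpa using h6
    · have h6 : (starRingEnd ℂ) q - 1 = (starRingEnd ℂ) (q - 1) := by simp
      rwa [h6, Complex.norm_conj]

end SokamIn

end

/-! ### Lib_MP_af4de1_in.Glue -/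

section
namespace SokamF
end SokamF
/-!
# From `SokamFU.Dist` (one circle) to `SokamIn.Dist`
-/

set_option autoImplicit false

open Complex Set Filter Topology SokamF

namespace SokamIn

theorem dist_of_fu {α : ℝ} (h : ∀ r : ℝ, 0 < r → SokamFU.Dist α r) : Dist (cexp (α * I)) := by
  have hq : ‖cexp (α * I)‖ ≤ 1 := (Complex.norm_exp_ofReal_mul_I α).le
  have hpos : ∀ z, F (cexp (α * I)) z = 0 → 0 < ‖z‖ := by
    intro z hz
    rw [norm_pos_iff]
    rintro rfl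
    rw [F_zero] at hz
    exact one_ne_zero hz
  refine ⟨fun z hz h0 => ?_, fun z w hz hw hn => ?_⟩
  · have h1 := (h ‖z‖ (hpos z hz) z rfl hz).1
    apply h1
    have h2 := deriv_F hq z
    unfold SokamFU.qa
    rw [h2, h0]
  · exact (h ‖w‖ (hpos w hw) w rfl hw).2 z hn hz

end SokamIn

end

/-! ### Lib_MP_af4de1_hd.DStep -/

section
namespace SokamF
end SokamF
/-!
# Part (d): one step of the induction over the number of zeros

Notation: `c = Cf d`, `z_j = w j q / q^j` (`j < k`), `z_k = W q / q^k`, `G q ζ = S (quot c W) q ζ`, so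
`F q z = ∏_{j<k} (1 - z/z_j) · S c q (q^k z)` and `W q · S c q ζ = (W q - ζ) · G q ζ` (`Ent.quot_mul`).
-/

namespace SokamHD

open Complex SokamF Filter Topology Metric Set

variable {K : Set ℂ} {k : ℕ} {d : ℕ → ℂ → ℂ} {w : ℕ → ℂ → ℂ} {W : ℂ → ℂ}

/-- The next normalised zero on the frontier. -/
structure Bd (K : Set ℂ) (k : ℕ) (d : ℕ → ℂ → ℂ) (w : ℕ → ℂ → ℂ) (W : ℂ → ℂ) : Prop where
  zero : ∀ q ∈ frontier K, S (Cf d) q (W q) = 0
  ne : ∀ q ∈ frontier K, W q ≠ 0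
  min : ∀ q ∈ frontier K, ∀ ζ, S (Cf d) q ζ = 0 → ‖W q‖ < ‖ζ‖ ∨ ζ = W q
  simple : ∀ q ∈ frontier K, q ≠ 0 → F q (q * (W q / q ^ k)) ≠ 0
  star : ∀ q ∈ frontier K, q ≠ 0 → ∀ i < k, ∀ τ : ℝ, 1 ≤ τ →
    w i q / q ^ i ≠ τ * (q * (W q / q ^ k))
  at0 : (0 : ℂ) ∈ frontier K → W 0 = -((k : ℂ) + 1)

/-! ## Piece [HD-D12] (this block) -/

/-- Two sorted lists of the first zeros agree.
PROOF.  Strong induction on `j`: `a j` is a zero, so (`b` complete) it is a `b i` or larger than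
all `b i`, `i < k`; etc.  (The `a j` and the `b j` are the `k` smallest zeros in increasing order.) -/
theorem first_unique {q : ℂ} {a b : ℕ → ℂ} {Z : Set ℂ}
    (ha : ∀ j < k, a j ∈ Z) (ham : ∀ i j, i < j → j < k → ‖a i‖ < ‖a j‖)
    (hac : ∀ u ∈ Z, (∃ j < k, u = a j) ∨ ∀ j < k, ‖a j‖ < ‖u‖)
    (hb : ∀ j < k, b j ∈ Z) (hbm : ∀ i j, i < j → j < k → ‖b i‖ < ‖b j‖)
    (hbc : ∀ u ∈ Z, (∃ j < k, u = b j) ∨ ∀ j < k, ‖b j‖ < ‖u‖) : ∀ j < k, a j = b j := by
  intro j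
  induction j using Nat.strong_induction_on with
  | _ j ih =>
    intro hj
    have key : ∀ a b : ℕ → ℂ, (∀ j < k, a j ∈ Z) → (∀ i j, i < j → j < k → ‖a i‖ < ‖a j‖) →
        (∀ i j, i < j → j < k → ‖b i‖ < ‖b j‖) →
        (∀ u ∈ Z, (∃ j < k, u = b j) ∨ ∀ j < k, ‖b j‖ < ‖u‖) → (∀ i < j, a i = b i) →
        ‖b j‖ ≤ ‖a j‖ := by
      intro a b ha ham hbm hbc hab
      rcases hbc (a j) (ha j hj) with ⟨i, hi, hi2⟩ | h
      · rcases lt_trichotomy i j with h1 | h1 | h1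
        · exfalso
          have h2 := ham i j h1 hj
          rw [hab i h1, ← hi2] at h2
          exact lt_irrefl _ h2
        · rw [hi2, h1]
        · rw [hi2]
          exact (hbm j i h1 hi).le
      · exact (h j hj).le
    have h1 := key a b ha ham hbm hbc fun i hi => ih i hi (hi.trans hj)
    have h2 := key b a hb hbm ham hac fun i hi => (ih i hi (hi.trans hj)).symm
    rcases hbc (a j) (ha j hj) with ⟨i, hi, hi2⟩ | h
    · rcases lt_trichotomy i j with h3 | h3 | h3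
      · exfalso
        have h4 := hbm i j h3 hj
        rw [← hi2] at h4
        linarith only [h1, h4]
      · rw [hi2, h3]
      · exfalso
        have h4 := hbm j i h3 hi
        rw [← hi2] at h4
        linarith only [h2, h4]
    · exfalso
      have h4 := h j hj
      linarith only [h2, h4]

/-- PROOF.  From `State.fac`: `F q (w j q / q ^ j) = 0` (`j < k`) and `F q u = 0` implies
`u = w j q / q^j` for a `j < k` or `S (Cf d) q (q^k u) = 0`, and then `u` is larger than all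
`w j q / q^j` (`State.gt`). -/
theorem State.complete (h : State K k d w) {q : ℂ} (hq : q ∈ K) (hq0 : q ≠ 0) :
    (∀ j < k, F q (w j q / q ^ j) = 0) ∧ ∀ u, F q u = 0 → (∃ j < k, u = w j q / q ^ j) ∨
      (S (Cf d) q (q ^ k * u) = 0 ∧ ∀ j < k, ‖w j q / q ^ j‖ < ‖u‖) := by
  constructor
  · intro j hj
    rw [h.fac q hq hq0, Finset.prod_eq_zero (Finset.mem_range.2 hj), zero_mul]
    have h1 : q ^ j ≠ 0 := pow_ne_zero _ hq0
    have h2 := h.wne j hj q hq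
    rw [mul_div_cancel₀ _ h1, div_self h2, sub_self]
  · intro u hu
    rw [h.fac q hq hq0, mul_eq_zero] at hu
    rcases hu with h1 | h1
    · left
      obtain ⟨j, hj, h2⟩ := Finset.prod_eq_zero_iff.1 h1
      rw [Finset.mem_range] at hj
      refine ⟨j, hj, ?_⟩
      have h3 : q ^ j ≠ 0 := pow_ne_zero _ hq0
      have h4 := h.wne j hj q hq
      rw [eq_div_iff h3]
      rw [sub_eq_zero, eq_div_iff h4, one_mul] at h2
      rw [h2, mul_comm]
    · right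
      exact ⟨h1, fun j hj => h.gt q hq hq0 j hj u h1⟩

/-- restriction of a family -/
private theorem ent_mono_hd12 {X Y : Set ℂ} {c : ℕ → ℂ → ℂ} (h : Ent X c) (hY : Y ⊆ X) : Ent Y c :=
  ⟨fun n => (h.1 n).mono hY, fun R hR => by
    obtain ⟨C, hC, hb⟩ := h.2 R hR
    exact ⟨C, hC, fun n q hq => hb n q (hY hq)⟩⟩

private theorem S_zero_hd12 (h : State K k d w) {q : ℂ} (hq : q ∈ K) : S (Cf d) q 0 = 1 := by
  rw [S_zero]
  simp [Cf, h.one q hq]

private theorem S_at0_hd12 (h : State K k d w) (h0 : (0 : ℂ) ∈ K) (ζ : ℂ) :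
    S (Cf d) 0 ζ = 1 + ζ / ((k : ℂ) + 1) := by
  have hk : (k.factorial : ℂ) ≠ 0 := Nat.cast_ne_zero.2 k.factorial_ne_zero
  have hk1 : ((k : ℂ) + 1) ≠ 0 := Nat.cast_add_one_ne_zero k
  rw [S_Cf_at_zero, h.d0 h0 0, h.d0 h0 1, zero_add, div_self hk, add_comm 1 k, Nat.factorial_succ]
  push_cast
  field_simp

/-- The next zero on the frontier.
PROOF.  `q ≠ 0`: let `z` be given by `hB`; by `first_unique` (`Z` = zeros of `F q`, first `k` zeros)
`z j = w j q / q^j` for `j < k`.  `z k` is a zero, not one of the first `k`, so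
`S (Cf d) q (q^k z k) = 0`; put `W q = q^k z k` (`≠ 0`, as `F q 0 = 1`).  If `S (Cf d) q ζ = 0` then
`u = ζ / q^k` is a zero of `F q` larger than the `w j q/q^j`, so by completeness of `z` (`k+1` zeros)
`u = z k` or `‖z k‖ < ‖u‖`.  `q = 0`: `S_Cf_at_zero`, `State.d0`, `State.one`:
`S (Cf d) 0 ζ = 1 + ζ/(k+1)`, `W 0 = -(k+1)`. -/
theorem exists_Bd (hcl : IsClosed K) (h : State K k d w)
    (hB : ∀ q ∈ frontier K, q ≠ 0 → ∃ z, First q (k + 1) z ∧ StarN q (k + 1) z) :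
    ∃ W, Bd K k d w W := by
  have hfr : frontier K ⊆ K := hcl.frontier_subset
  have hex : ∀ q : ℂ, ∃ x : ℂ, q ∈ frontier K → S (Cf d) q x = 0 ∧ x ≠ 0 ∧
      (∀ ζ, S (Cf d) q ζ = 0 → ‖x‖ < ‖ζ‖ ∨ ζ = x) ∧ (q ≠ 0 → F q (q * (x / q ^ k)) ≠ 0) ∧
      (q ≠ 0 → ∀ i < k, ∀ τ : ℝ, 1 ≤ τ → w i q / q ^ i ≠ τ * (q * (x / q ^ k))) ∧
      (q = 0 → x = -((k : ℂ) + 1)) := by
    intro q
    by_cases hqf : q ∈ frontier K
    swap
    · exact ⟨0, fun hq => absurd hq hqf⟩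
    have hqK := hfr hqf
    by_cases hq0 : q = 0
    · subst hq0
      have hk1 : ((k : ℂ) + 1) ≠ 0 := Nat.cast_add_one_ne_zero k
      refine ⟨-((k : ℂ) + 1), fun _ => ⟨?_, neg_ne_zero.2 hk1, fun ζ hζ => Or.inr ?_,
        fun h1 => absurd rfl h1, fun h1 => absurd rfl h1, fun _ => rfl⟩⟩
      · rw [S_at0_hd12 h hqK, neg_div, div_self hk1, add_neg_cancel]
      · rw [S_at0_hd12 h hqK] at hζ
        field_simp at hζ
        linear_combination hζ
    · obtain ⟨z, ⟨hz1, hz2, hz3⟩, hst⟩ := hB q hqf hq0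
      have hqk : q ^ k ≠ 0 := pow_ne_zero _ hq0
      obtain ⟨hc1, hc2⟩ := h.complete hqK hq0
      have huniq : ∀ j < k, z j = w j q / q ^ j := by
        refine first_unique (q := q) (Z := {u | F q u = 0}) (fun j hj => (hz1 j (by omega)).1)
          (fun i j hij hj => hz2 i j hij (by omega)) ?_ hc1 (fun i j hij hj => h.lt q hqK hq0 i j hij hj) ?_
        · intro u hu
          rcases hz3 u hu with ⟨j, hj, h1⟩ | h1
          · by_cases hjk : j = k
            · right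
              intro i hi
              rw [h1, hjk]
              exact hz2 i k hi (Nat.lt_succ_self k)
            · exact Or.inl ⟨j, by omega, h1⟩
          · exact Or.inr fun j hj => h1 j (by omega)
        · intro u hu
          rcases hc2 u hu with h1 | h1
          · exact Or.inl h1
          · exact Or.inr h1.2
      have hzk := (hz1 k (Nat.lt_succ_self k)).1
      have hSk : S (Cf d) q (q ^ k * z k) = 0 := by
        rcases hc2 (z k) hzk with ⟨j, hj, h1⟩ | h1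
        · exfalso
          rw [← huniq j hj] at h1
          have h2 := hz2 j k hj (Nat.lt_succ_self k)
          rw [h1] at h2
          exact lt_irrefl _ h2
        · exact h1.1
      have hx : q ^ k * z k / q ^ k = z k := mul_div_cancel_left₀ _ hqk
      refine ⟨q ^ k * z k, fun _ => ⟨hSk, ?_, ?_, fun _ => ?_, fun _ => ?_, fun h1 => absurd h1 hq0⟩⟩
      · intro h1
        rw [h1, S_zero_hd12 h hqK] at hSk
        exact one_ne_zero hSk
      · intro ζ hζ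
        have hu : q ^ k * (ζ / q ^ k) = ζ := mul_div_cancel₀ _ hqk
        have h2 : F q (ζ / q ^ k) = 0 := by
          rw [h.fac q hqK hq0, hu, hζ, mul_zero]
        rcases hz3 _ h2 with ⟨j, hj, h1⟩ | h1
        · by_cases hjk : j = k
          · right
            rw [← hu, h1, hjk]
          · exfalso
            have hj' : j < k := by omega
            have h3 := h.gt q hqK hq0 j hj' (ζ / q ^ k) (by rw [hu]; exact hζ)
            rw [h1, huniq j hj'] at h3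
            exact lt_irrefl _ h3
        · left
          have h3 := h1 k (Nat.lt_succ_self k)
          have h4 : ‖ζ‖ = ‖q ^ k‖ * ‖ζ / q ^ k‖ := by
            rw [← norm_mul, hu]
          rw [h4, norm_mul]
          exact mul_lt_mul_of_pos_left h3 (norm_pos_iff.2 hqk)
      · rw [hx]
        exact (hz1 k (Nat.lt_succ_self k)).2
      · intro i hi τ hτ
        rw [hx, ← huniq i hi]
        exact hst i k hi (Nat.lt_succ_self k) τ hτ
  choose W hW using hex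
  exact ⟨W, fun q hq => (hW q hq).1, fun q hq => (hW q hq).2.1, fun q hq => (hW q hq).2.2.1,
    fun q hq => (hW q hq).2.2.2.1, fun q hq => (hW q hq).2.2.2.2.1,
    fun hq => (hW 0 hq).2.2.2.2.2 rfl⟩

/-- PROOF.  `continuousOn_min` with `X = frontier K` (compact, contained in `K`), `c = Cf d`. -/
theorem Bd.continuousOn (hK : IsCompact K) (h1 : ∀ q ∈ K, ‖q‖ ≤ 1) (h : State K k d w)
    (hb : Bd K k d w W) : ContinuousOn W (frontier K) := by
  have hfr : frontier K ⊆ K := hK.isClosed.frontier_subset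
  have hX : IsCompact (frontier K) := hK.of_isClosed_subset isClosed_frontier hfr
  refine continuousOn_min hX (ent_mono_hd12 (h.ent.Cf h1) hfr) (fun q hq => ?_) hb.zero hb.min
  have h2 := S_zero_hd12 h (hfr hq)
  rwa [S_zero] at h2

/-! ## Piece [HD-D13] (this block) -/

/-- Value at `q = 0`: `G 0 ζ = 1`.
PROOF.  `S_quot_Cf`, `S_zero`-like: `S (Cf (dquot d W)) 0 (0 * ζ) = Cf (dquot d W) 0 0 =
dquot d W 0 0 = -(d 1 0 * W 0)` (`dquot_at_zero`), `d 1 0 = k!/(k+1)!`, `W 0 = -(k+1)`. -/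
theorem quot_at_zero (h : State K k d w) (h0 : (0 : ℂ) ∈ K) (hW : W 0 = -((k : ℂ) + 1)) (ζ : ℂ) :
    S (quot (Cf d) W) 0 ζ = 1 := by
  have hk : (k.factorial : ℂ) ≠ 0 := Nat.cast_ne_zero.2 k.factorial_ne_zero
  have hk1 : ((k : ℂ) + 1) ≠ 0 := Nat.cast_add_one_ne_zero k
  rw [S_quot_Cf, zero_mul, S_zero]
  have h1 : Cf (dquot d W) 0 0 = dquot d W 0 0 := by
    simp [Cf]
  rw [h1, dquot_at_zero, h.d0 h0 (0 + 1), hW, zero_add, add_comm 1 k, Nat.factorial_succ]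
  push_cast
  field_simp

/-- `W q` is a simple zero and there is no other zero of modulus `≤ ‖W q‖`.
PROOF.  `ζ = W q u`.  If `u ≠ 1` and `G q ζ = 0` then `S (Cf d) q ζ = 0` (`Ent.quot_mul`, `W q ≠ 0`),
`‖ζ‖ ≤ ‖W q‖`, so `ζ = W q` by `Bd.min`: contradiction.  `u = 1`, `q ≠ 0`: differentiate
`F q z = P z · S (Cf d) q (q^k z)` and `W q · S (Cf d) q ζ = (W q - ζ) G q ζ` at `z_k = W q/q^k`:
`F q (q z_k) = F'(z_k) = - P (z_k) q^k G q (W q) / W q`, so `G q (W q) = 0` contradicts `Bd.simple`.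
`q = 0`: `quot_at_zero`. -/
theorem Bd.quot_ne (hK : IsCompact K) (h1 : ∀ q ∈ K, ‖q‖ ≤ 1) (h : State K k d w)
    (hb : Bd K k d w W) : ∀ q ∈ frontier K, ∀ u : ℂ, ‖u‖ ≤ 1 →
      S (quot (Cf d) W) q (W q * u) ≠ 0 := by
  intro q hq u hu h0
  have hfr : frontier K ⊆ K := hK.isClosed.frontier_subset
  have hX : IsCompact (frontier K) := hK.of_isClosed_subset isClosed_frontier hfr
  have hqK := hfr hq
  have hent : Ent (frontier K) (Cf d) := ent_mono_hd12 (h.ent.Cf h1) hfr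
  have hWc := hb.continuousOn hK h1 h
  obtain ⟨B, hB⟩ := hX.exists_bound_of_continuousOn hWc
  have hmul := fun ζ => hent.quot_mul hWc hB hq (hb.zero q hq) ζ
  have hWne := hb.ne q hq
  by_cases hu1 : u = 1
  · subst hu1
    rw [mul_one] at h0
    by_cases hq0 : q = 0
    · subst hq0
      rw [quot_at_zero h hqK (hb.at0 hq)] at h0
      exact one_ne_zero h0
    · have hQ : Ent (frontier K) (SokamHD.quot (Cf d) W) := Ent.quot hent hWc hB
      have hqk : q ^ k ≠ 0 := pow_ne_zero _ hq0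
      have hGd : HasDerivAt (S (SokamHD.quot (Cf d) W) q)
          (deriv (S (SokamHD.quot (Cf d) W) q) (W q)) (W q) :=
        (hQ.differentiable hq (W q)).hasDerivAt
      have h2 : HasDerivAt (fun ζ => (W q - ζ) * S (SokamHD.quot (Cf d) W) q ζ) 0 (W q) := by
        have h3 := ((hasDerivAt_id (W q)).const_sub (W q)).mul hGd
        have h4 : -1 * S (SokamHD.quot (Cf d) W) q (W q) +
            (W q - id (W q)) * deriv (S (SokamHD.quot (Cf d) W) q) (W q) = 0 := by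
          rw [h0, id]
          ring
        rw [h4] at h3
        exact h3
      have h5 : HasDerivAt (S (Cf d) q) 0 (W q) := by
        have h6 := h2.const_mul (W q)⁻¹
        rw [mul_zero] at h6
        have h7 : (fun ζ => (W q)⁻¹ * ((W q - ζ) * S (SokamHD.quot (Cf d) W) q ζ)) = S (Cf d) q := by
          funext ζ
          rw [← hmul ζ, ← mul_assoc, inv_mul_cancel₀ hWne, one_mul]
        rwa [h7] at h6
      obtain ⟨z, hz⟩ : ∃ z, z = W q / q ^ k := ⟨_, rfl⟩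
      have hqz : q ^ k * z = W q := by
        rw [hz]
        exact mul_div_cancel₀ _ hqk
      have h8 : HasDerivAt (fun y => S (Cf d) q (q ^ k * y)) 0 z := by
        have h9 : HasDerivAt (fun y : ℂ => q ^ k * y) (q ^ k) z := by
          simpa using (hasDerivAt_id z).const_mul (q ^ k)
        have h10 : HasDerivAt (S (Cf d) q) 0 (q ^ k * z) := by
          rw [hqz]
          exact h5
        have h11 := h10.comp z h9
        rw [zero_mul] at h11
        exact h11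
      have hPd : DifferentiableAt ℂ (fun y => ∏ j ∈ Finset.range k, (1 - q ^ j * y / w j q)) z := by
        refine DifferentiableAt.fun_finsetProd fun j _ => ?_
        exact ((differentiableAt_id.const_mul _).div_const _).const_sub _
      have h12 := hPd.hasDerivAt.mul h8
      rw [hqz, hb.zero q hq, mul_zero, mul_zero, add_zero] at h12
      have h13 : HasDerivAt (F q) 0 z := by
        have h14 : F q = fun y => (∏ j ∈ Finset.range k, (1 - q ^ j * y / w j q)) *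
            S (Cf d) q (q ^ k * y) := by
          funext y
          exact h.fac q hqK hq0 y
        rw [h14]
        exact h12
      have h15 := h13.unique (hasDerivAt_F (h1 q hqK) z)
      refine hb.simple q hq hq0 ?_
      rw [← hz]
      exact h15.symm
  · have h2 : S (Cf d) q (W q * u) = 0 := by
      have h3 := hmul (W q * u)
      rw [h0, mul_zero] at h3
      exact (mul_eq_zero.1 h3).resolve_left hWne
    rcases hb.min q hq _ h2 with h3 | h3
    · rw [norm_mul] at h3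
      have h4 := mul_le_mul_of_nonneg_left hu (norm_nonneg (W q))
      rw [mul_one] at h4
      linarith only [h3, h4]
    · exact hu1 ((mul_right_eq_self₀.1 h3).resolve_right hWne)

/-! ## Piece [HD-D14] (this block) -/

private theorem ent_mono_hdd14 {X Y : Set ℂ} {c : ℕ → ℂ → ℂ} (h : Ent X c) (hXY : Y ⊆ X) :
    Ent Y c :=
  ⟨fun n => (h.1 n).mono hXY, fun R hR => by
    obtain ⟨C, h1, h2⟩ := h.2 R hR
    exact ⟨C, h1, fun n q hq => h2 n q (hXY hq)⟩⟩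

private theorem quot_mul_hdd14 (h1 : ∀ q ∈ K, ‖q‖ ≤ 1) (h : State K k d w) {q : ℂ} (hq : q ∈ K)
    (h0 : S (Cf d) q (W q) = 0) :
    Ent {q} (quot (Cf d) W) ∧ ∀ ζ, W q * S (Cf d) q ζ = (W q - ζ) * S (quot (Cf d) W) q ζ := by
  have hc : Ent ({q} : Set ℂ) (Cf d) := ent_mono_hdd14 (h.ent.Cf h1) (singleton_subset_iff.2 hq)
  have hw : ContinuousOn W ({q} : Set ℂ) := continuousOn_singleton W q
  have hB : ∀ p ∈ ({q} : Set ℂ), ‖W p‖ ≤ ‖W q‖ := by
    intro p hp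
    rw [mem_singleton_iff.1 hp]
  exact ⟨hc.quot hw hB, fun ζ => hc.quot_mul hw hB (mem_singleton q) h0 ζ⟩

/-- The identity behind the logarithm of `-W`.
PROOF.  `q ≠ 0`, `z_k = W q/q^k`, `z_i = w i q/q^i`: `F q z = ∏_{i<k} (1 - z/z_i) · (1 - z/z_k) ·
G q (q^k z)`.  `F'(z_k) = - ∏_{i<k} (1 - z_k/z_i) G q (W q) / z_k` equals
`F q (q z_k) = (1 - q) ∏_{i<k} (1 - q z_k/z_i) G q (q W q)`.  Here
`1 - z_k/z_i = -(z_k/z_i)(1 - z_i/z_k)` and `1 - q z_k/z_i = -(q z_k/z_i)(1 - z_i/(q z_k))`, and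
`z_i/z_k = q^(k-i) w_i/W`, `z_i/(q z_k) = q^(k-i-1) w_i/W`; the product of the ratios is `q^k`.
`q = 0`: `G = 1` (`quot_at_zero`), only the factor `i = k-1` on the left is not `1`; it is
`1 - k/(k+1)`.  (`F'(z) = F q (q z)`: `hasDerivAt_F`.) -/
theorem Bd.identity (hK : IsCompact K) (h1 : ∀ q ∈ K, ‖q‖ ≤ 1) (h : State K k d w)
    (hb : Bd K k d w W) : ∀ q ∈ frontier K,
      - W q * ((1 - q) * (∏ i ∈ Finset.range k, (1 - q ^ (k - i - 1) * w i q / W q)) *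
        S (quot (Cf d) W) q (q * W q)) =
      (∏ i ∈ Finset.range k, (1 - q ^ (k - i) * w i q / W q)) * S (quot (Cf d) W) q (W q) := by
  intro q hqf
  have hq : q ∈ K := hK.isClosed.frontier_subset hqf
  by_cases hq0 : q = 0
  · subst hq0
    rw [quot_at_zero h hq (hb.at0 hqf), quot_at_zero h hq (hb.at0 hqf), mul_one, mul_one, sub_zero,
      one_mul]
    have h3 : ∏ i ∈ Finset.range k, (1 - (0 : ℂ) ^ (k - i) * w i 0 / W 0) = 1 := by
      refine Finset.prod_eq_one fun i hi => ?_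
      have h4 : k - i ≠ 0 := by
        have := Finset.mem_range.1 hi
        omega
      rw [zero_pow h4, zero_mul, zero_div, sub_zero]
    rw [h3, hb.at0 hqf]
    rcases Nat.eq_zero_or_pos k with hk | hk
    · subst hk
      simp
    · obtain ⟨m, rfl⟩ : ∃ m, k = m + 1 := ⟨k - 1, by omega⟩
      rw [Finset.prod_range_succ]
      have h5 : ∏ i ∈ Finset.range m, (1 - (0 : ℂ) ^ (m + 1 - i - 1) * w i 0 /
          -(((m + 1 : ℕ) : ℂ) + 1)) = 1 := by
        refine Finset.prod_eq_one fun i hi => ?_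
        have h4 : m + 1 - i - 1 ≠ 0 := by
          have := Finset.mem_range.1 hi
          omega
        rw [zero_pow h4, zero_mul, zero_div, sub_zero]
      rw [h5, h.w0 hq m (Nat.lt_succ_self m)]
      have h6 : m + 1 - m - 1 = 0 := by omega
      rw [h6, pow_zero]
      have h7 : (((m + 1 : ℕ) : ℂ) + 1) ≠ 0 := by exact_mod_cast Nat.succ_ne_zero (m + 1)
      field_simp
      push_cast
      ring
  · have hW := hb.ne q hqf
    have h0 := hb.zero q hqf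
    obtain ⟨hent, hmul⟩ := quot_mul_hdd14 h1 h hq h0
    set G : ℂ → ℂ := S (quot (Cf d) W) q with hG
    have hGd : Differentiable ℂ G := hent.differentiable (mem_singleton q)
    set P : ℂ → ℂ := fun z => ∏ j ∈ Finset.range k, (1 - q ^ j * z / w j q) with hP
    have hPd : Differentiable ℂ P := by
      rw [hP]
      fun_prop
    have hqk : q ^ k ≠ 0 := pow_ne_zero k hq0
    have hF : ∀ z, F q z = P z * G (q ^ k * z) * (1 - q ^ k * z / W q) := by
      intro z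
      have h3 := h.fac q hq hq0 z
      have h4 := hmul (q ^ k * z)
      have h5 : S (Cf d) q (q ^ k * z) = (1 - q ^ k * z / W q) * G (q ^ k * z) := by
        field_simp
        linear_combination h4
      rw [h3, h5]
      ring
    set zk : ℂ := W q / q ^ k with hzk
    have hqz : q ^ k * zk = W q := by
      rw [hzk]
      field_simp
    have hd1 : HasDerivAt (F q) (F q (q * zk)) zk := hasDerivAt_F (h1 q hq) zk
    have hd2 : HasDerivAt (fun z => P z * G (q ^ k * z) * (1 - q ^ k * z / W q))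
        (P zk * G (W q) * (-(q ^ k / W q))) zk := by
      have h3 : DifferentiableAt ℂ (fun z => P z * G (q ^ k * z)) zk :=
        (hPd zk).mul ((hGd _).comp zk ((differentiableAt_id).const_mul (q ^ k)))
      have h4 : HasDerivAt (fun z : ℂ => 1 - q ^ k * z / W q) (-(q ^ k / W q)) zk := by
        have := (((hasDerivAt_id zk).const_mul (q ^ k)).div_const (W q)).const_sub 1
        simpa using this
      have h6 : (1 : ℂ) - q ^ k * zk / W q = 0 := by
        rw [hqz, div_self hW, sub_self]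
      have h5 : HasDerivAt (fun z => P z * G (q ^ k * z) * (1 - q ^ k * z / W q))
          (deriv (fun z => P z * G (q ^ k * z)) zk * (1 - q ^ k * zk / W q) +
            P zk * G (q ^ k * zk) * -(q ^ k / W q)) zk := h3.hasDerivAt.mul h4
      refine h5.congr_deriv ?_
      rw [h6, mul_zero, zero_add, hqz]
    have hd3 : F q (q * zk) = P zk * G (W q) * (-(q ^ k / W q)) := by
      refine hd1.unique ?_
      exact hd2.congr_of_eventuallyEq (Eventually.of_forall hF)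
    have hd4 : F q (q * zk) = P (q * zk) * G (q * W q) * (1 - q) := by
      rw [hF (q * zk)]
      have h3 : q ^ k * (q * zk) = q * W q := by
        rw [← hqz]
        ring
      rw [h3, mul_div_assoc, div_self hW, mul_one]
    have hwne : ∀ i ∈ Finset.range k, w i q ≠ 0 := fun i hi =>
      h.wne i (Finset.mem_range.1 hi) q hq
    have hP1 : P zk = (∏ i ∈ Finset.range k, (-(W q / (q ^ (k - i) * w i q)))) *
        ∏ i ∈ Finset.range k, (1 - q ^ (k - i) * w i q / W q) := by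
      rw [← Finset.prod_mul_distrib]
      refine Finset.prod_congr rfl fun i hi => ?_
      have h3 := hwne i hi
      have h4 : q ^ k = q ^ i * q ^ (k - i) := by
        rw [← pow_add]
        congr 1
        have := Finset.mem_range.1 hi
        omega
      have h5 : q ^ i ≠ 0 := pow_ne_zero _ hq0
      have h6 : q ^ (k - i) ≠ 0 := pow_ne_zero _ hq0
      rw [hzk, h4]
      field_simp
      ring
    have hP2 : P (q * zk) = (q ^ k * ∏ i ∈ Finset.range k, (-(W q / (q ^ (k - i) * w i q)))) *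
        ∏ i ∈ Finset.range k, (1 - q ^ (k - i - 1) * w i q / W q) := by
      have h3 : q ^ k = ∏ _i ∈ Finset.range k, q := by
        rw [Finset.prod_const, Finset.card_range]
      rw [h3, ← Finset.prod_mul_distrib, ← Finset.prod_mul_distrib]
      refine Finset.prod_congr rfl fun i hi => ?_
      have h3 := hwne i hi
      have h4 : q ^ k = q ^ i * (q ^ (k - i - 1) * q) := by
        rw [← pow_succ, ← pow_add]
        congr 1
        have := Finset.mem_range.1 hi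
        omega
      have h7 : q ^ (k - i) = q ^ (k - i - 1) * q := by
        rw [← pow_succ]
        congr 1
        have := Finset.mem_range.1 hi
        omega
      have h5 : q ^ i ≠ 0 := pow_ne_zero _ hq0
      have h6 : q ^ (k - i - 1) ≠ 0 := pow_ne_zero _ hq0
      rw [hzk, h4, h7]
      field_simp
      ring
    have hQ : ∏ i ∈ Finset.range k, (-(W q / (q ^ (k - i) * w i q))) ≠ 0 := by
      refine Finset.prod_ne_zero_iff.2 fun i hi => ?_
      exact neg_ne_zero.2 (div_ne_zero hW (mul_ne_zero (pow_ne_zero _ hq0) (hwne i hi)))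
    have hfin := hd3.symm.trans hd4
    rw [hP1, hP2] at hfin
    have hfin2 : (q ^ k * ∏ i ∈ Finset.range k, (-(W q / (q ^ (k - i) * w i q)))) *
        (- W q * ((1 - q) * (∏ i ∈ Finset.range k, (1 - q ^ (k - i - 1) * w i q / W q)) *
        G (q * W q))) = (q ^ k * ∏ i ∈ Finset.range k, (-(W q / (q ^ (k - i) * w i q)))) *
        ((∏ i ∈ Finset.range k, (1 - q ^ (k - i) * w i q / W q)) * G (W q)) := by
      have h3 : (∏ i ∈ Finset.range k, (-(W q / (q ^ (k - i) * w i q)))) *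
        (∏ i ∈ Finset.range k, (1 - q ^ (k - i) * w i q / W q)) * G (W q) * (-(q ^ k / W q)) *
          (- W q) = q ^ k * (∏ i ∈ Finset.range k, (-(W q / (q ^ (k - i) * w i q)))) *
        ((∏ i ∈ Finset.range k, (1 - q ^ (k - i) * w i q / W q)) * G (W q)) := by
        field_simp
      rw [← h3, hfin]
      ring
    exact mul_left_cancel₀ (mul_ne_zero hqk hQ) hfin2

/-- PROOF.  `1 - z_i/z_k` with `‖z_i/z_k‖ < 1` (`State.gt`), `= 1` for `q = 0`. -/
theorem Bd.slit1 (hK : IsCompact K) (h : State K k d w) (hb : Bd K k d w W) :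
    ∀ q ∈ frontier K, ∀ i < k, 1 - q ^ (k - i) * w i q / W q ∈ slitPlane := by
  intro q hqf i hi
  have hq : q ∈ K := hK.isClosed.frontier_subset hqf
  by_cases hq0 : q = 0
  · subst hq0
    rw [zero_pow (by omega : k - i ≠ 0), zero_mul, zero_div, sub_zero]
    exact one_mem_slitPlane
  · have hW := hb.ne q hqf
    have hqk : q ^ k ≠ 0 := pow_ne_zero k hq0
    have h3 := h.gt q hq hq0 i hi (W q / q ^ k) (by
      rw [mul_div_cancel₀ _ hqk]
      exact hb.zero q hqf)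
    have h4 : q ^ (k - i) * w i q / W q = (w i q / q ^ i) / (W q / q ^ k) := by
      have h5 : q ^ k = q ^ i * q ^ (k - i) := by
        rw [← pow_add]
        congr 1
        omega
      have h6 : q ^ i ≠ 0 := pow_ne_zero _ hq0
      rw [h5]
      field_simp
    have h5 : ‖q ^ (k - i) * w i q / W q‖ < 1 := by
      rw [h4, norm_div]
      exact (div_lt_one ((norm_nonneg _).trans_lt h3)).2 h3
    left
    have h6 := Complex.re_le_norm (q ^ (k - i) * w i q / W q)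
    rw [sub_re, one_re]
    linarith only [h5, h6]

/-- PROOF.  `1 - z_i/(q z_k)`; if it is a real number `≤ 0` then `z_i = τ q z_k` with `τ ≥ 1`:
contradiction to `Bd.star`.  `q = 0`: it is `1` or `1 - k/(k+1)`. -/
theorem Bd.slit2 (hK : IsCompact K) (h : State K k d w) (hb : Bd K k d w W) :
    ∀ q ∈ frontier K, ∀ i < k, 1 - q ^ (k - i - 1) * w i q / W q ∈ slitPlane := by
  intro q hqf i hi
  have hq : q ∈ K := hK.isClosed.frontier_subset hqf
  by_cases hq0 : q = 0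
  · subst hq0
    by_cases hik : k - i - 1 = 0
    · rw [hik, pow_zero, one_mul, hb.at0 hqf, h.w0 hq i hi]
      have h3 : (1 : ℂ) - -((i : ℂ) + 1) / -((k : ℂ) + 1) = ((1 / ((k : ℝ) + 1) : ℝ) : ℂ) := by
        have h4 : k = i + 1 := by omega
        have h5 : ((k : ℂ) + 1) ≠ 0 := by exact_mod_cast Nat.succ_ne_zero k
        push_cast
        field_simp
        rw [h4]
        push_cast
        ring
      rw [h3, ofReal_mem_slitPlane]
      (clear * -; positivity)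
    · rw [zero_pow hik, zero_mul, zero_div, sub_zero]
      exact one_mem_slitPlane
  · have hW := hb.ne q hqf
    by_contra hcon
    rw [mem_slitPlane_iff, not_or, not_lt, not_not] at hcon
    obtain ⟨h3, h4⟩ := hcon
    set b : ℂ := q ^ (k - i - 1) * w i q / W q with hbdef
    have h5 : b = ((b.re : ℝ) : ℂ) := by
      apply Complex.ext
      · simp
      · rw [ofReal_im]
        rw [sub_im, one_im] at h4
        linarith only [h4]
    have h6 : 1 ≤ b.re := by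
      rw [sub_re, one_re] at h3
      linarith only [h3]
    refine hb.star q hqf hq0 i hi b.re h6 ?_
    rw [← h5, hbdef]
    have h7 : q ^ k = q ^ i * q ^ (k - i - 1) * q := by
      rw [← pow_add, ← pow_succ]
      congr 1
      omega
    have h8 : q ^ i ≠ 0 := pow_ne_zero _ hq0
    have h9 : q ^ (k - i - 1) ≠ 0 := pow_ne_zero _ hq0
    rw [h7]
    field_simp

private theorem log_S_hdd14 {X : Set ℂ} {c : ℕ → ℂ → ℂ} (hX : IsCompact X)
    (hcont : ContinuousOn (fun p : ℂ × ℂ => S c p.1 p.2) (X ×ˢ univ)) {g : ℂ → ℂ}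
    (hg : ContinuousOn g X) (h0 : ∀ q ∈ X, ∀ t ∈ Icc (0 : ℝ) 1, S c q (g q * (t : ℂ)) ≠ 0)
    (h1 : ∀ q ∈ X, S c q 0 = 1) :
    ∃ ℓ : ℂ → ℂ, ContinuousOn ℓ X ∧ ∀ q ∈ X, exp (ℓ q) = S c q (g q) := by
  have h3 : ContinuousOn (fun p : ℂ × ℝ => ((p.1, g p.1 * (p.2 : ℂ)) : ℂ × ℂ))
      (X ×ˢ Icc (0 : ℝ) 1) := by
    refine ContinuousOn.prodMk continuousOn_fst ?_
    refine ContinuousOn.mul (hg.comp continuousOn_fst fun p hp => hp.1) ?_
    fun_prop
  have h4 : ContinuousOn (fun p : ℂ × ℝ => S c p.1 (g p.1 * (p.2 : ℂ))) (X ×ˢ Icc (0 : ℝ) 1) :=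
    hcont.comp h3 fun p hp => ⟨hp.1, mem_univ _⟩
  have h5 : ∀ q ∈ X, S c q (g q * ((0 : ℝ) : ℂ)) = 1 := by
    intro q hq
    rw [ofReal_zero, mul_zero]
    exact h1 q hq
  obtain ⟨ℓ, hℓ, hℓ2⟩ := exists_log (φ := fun (q : ℂ) (t : ℝ) => S c q (g q * (t : ℂ))) hX h4 h0 h5
  refine ⟨ℓ, hℓ, fun q hq => ?_⟩
  have h6 := hℓ2 q hq
  simp only [ofReal_one, mul_one] at h6
  exact h6

/-- The continuous logarithm of `-W`.
PROOF.  `L = ℓ₂ - ℓ₁ - log (1 - q) + ∑_{i<k} (log (1 - q^(k-i) w_i/W) - log (1 - q^(k-i-1) w_i/W))`,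
`exp ℓ₂ = G q (W q)` (`exists_log`, `φ q t = G q (W q * t)`, `φ q 0 = quot (Cf d) W 0 q = 1` by
`Ent.quot_zero`), `exp ℓ₁ = G q (q W q)` (`φ q t = G q (W q * (q t))`); nonzero by `Bd.quot_ne`.
`1 - q ∈ slitPlane` as `‖q‖ ≤ 1`, `q ≠ 1`. -/
theorem Bd.exists_L (hK : IsCompact K) (h1 : ∀ q ∈ K, ‖q‖ ≤ 1) (h2 : (1 : ℂ) ∉ K)
    (h : State K k d w) (hb : Bd K k d w W) (hW : ContinuousOn W (frontier K)) :
    ∃ L : ℂ → ℂ, ContinuousOn L (frontier K) ∧ ∀ q ∈ frontier K, exp (L q) = - W q := by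
  have hfK : frontier K ⊆ K := hK.isClosed.frontier_subset
  have hX : IsCompact (frontier K) := hK.of_isClosed_subset isClosed_frontier hfK
  obtain ⟨B, hB⟩ := hX.exists_bound_of_continuousOn hW
  have hc : Ent (frontier K) (Cf d) := ent_mono_hdd14 (h.ent.Cf h1) hfK
  have hent : Ent (frontier K) (quot (Cf d) W) := hc.quot hW hB
  have hcont := hent.continuousOn
  have hq0 : ∀ q ∈ frontier K, S (quot (Cf d) W) q 0 = 1 := by
    intro q hq
    rw [S_zero, hc.quot_zero hq (hb.zero q hq)]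
    simp [Cf, h.one q (hfK hq)]
  have hne := hb.quot_ne hK h1 h
  obtain ⟨ℓ2, hℓ2c, hℓ2⟩ := log_S_hdd14 hX hcont hW
    (fun q hq t ht => hne q hq t (by
      rw [norm_real, Real.norm_eq_abs, abs_of_nonneg ht.1]
      exact ht.2)) hq0
  obtain ⟨ℓ1, hℓ1c, hℓ1⟩ := log_S_hdd14 hX hcont (g := fun q => W q * q) (hW.mul continuousOn_id)
    (fun q hq t ht => by
      have h3 := hne q hq (q * t) (by
        rw [norm_mul, norm_real, Real.norm_eq_abs, abs_of_nonneg ht.1]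
        exact mul_le_one₀ (h1 q (hfK hq)) ht.1 ht.2)
      rwa [← mul_assoc] at h3) hq0
  have hslit : ∀ q ∈ frontier K, (1 : ℂ) - q ∈ slitPlane := by
    intro q hq
    have h3 := h1 q (hfK hq)
    have h4 := Complex.re_le_norm q
    rw [mem_slitPlane_iff]
    by_contra hcon
    rw [not_or, not_lt, not_not, sub_re, sub_im, one_re, one_im] at hcon
    obtain ⟨h5, h6⟩ := hcon
    apply h2
    have h7 : q = 1 := by
      apply Complex.ext
      · rw [one_re]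
        linarith only [h3, h4, h5]
      · rw [one_im]
        linarith only [h6]
    rw [← h7]
    exact hfK hq
  refine ⟨fun q => ℓ2 q - ℓ1 q - Complex.log (1 - q) + ∑ i ∈ Finset.range k,
    (Complex.log (1 - q ^ (k - i) * w i q / W q) -
      Complex.log (1 - q ^ (k - i - 1) * w i q / W q)), ?_, ?_⟩
  · refine ((hℓ2c.sub hℓ1c).sub ?_).add ?_
    · exact ContinuousOn.clog (by fun_prop) hslit
    · refine continuousOn_finsetSum _ fun i hi => ?_
      have hwi : ContinuousOn (w i) (frontier K) :=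
        (h.wc i (Finset.mem_range.1 hi)).mono hfK
      refine ContinuousOn.sub ?_ ?_
      · refine ContinuousOn.clog ?_ fun q hq => hb.slit1 hK h q hq i (Finset.mem_range.1 hi)
        refine ContinuousOn.sub continuousOn_const ?_
        refine ContinuousOn.div ?_ hW hb.ne
        exact ContinuousOn.mul (by fun_prop) hwi
      · refine ContinuousOn.clog ?_ fun q hq => hb.slit2 hK h q hq i (Finset.mem_range.1 hi)
        refine ContinuousOn.sub continuousOn_const ?_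
        refine ContinuousOn.div ?_ hW hb.ne
        exact ContinuousOn.mul (by fun_prop) hwi
  · intro q hq
    have hid := hb.identity hK h1 h q hq
    have e2 := hℓ2 q hq
    have e1 : Complex.exp (ℓ1 q) = S (quot (Cf d) W) q (q * W q) := by
      rw [mul_comm q (W q)]
      exact hℓ1 q hq
    have n1 : S (quot (Cf d) W) q (q * W q) ≠ 0 := by
      rw [← e1]
      exact Complex.exp_ne_zero _
    have n2 := slitPlane_ne_zero (hslit q hq)
    have n3 : ∏ i ∈ Finset.range k, (1 - q ^ (k - i - 1) * w i q / W q) ≠ 0 :=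
      Finset.prod_ne_zero_iff.2 fun i hi =>
        slitPlane_ne_zero (hb.slit2 hK h q hq i (Finset.mem_range.1 hi))
    rw [Complex.exp_add, Complex.exp_sub, Complex.exp_sub, Complex.exp_log n2, e1, e2,
      Complex.exp_sum]
    have h3 : ∏ i ∈ Finset.range k, Complex.exp (Complex.log (1 - q ^ (k - i) * w i q / W q) -
        Complex.log (1 - q ^ (k - i - 1) * w i q / W q)) =
        (∏ i ∈ Finset.range k, (1 - q ^ (k - i) * w i q / W q)) /
          ∏ i ∈ Finset.range k, (1 - q ^ (k - i - 1) * w i q / W q) := by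
      rw [← Finset.prod_div_distrib]
      refine Finset.prod_congr rfl fun i hi => ?_
      rw [Complex.exp_sub,
        Complex.exp_log (slitPlane_ne_zero (hb.slit1 hK h q hq i (Finset.mem_range.1 hi))),
        Complex.exp_log (slitPlane_ne_zero (hb.slit2 hK h q hq i (Finset.mem_range.1 hi)))]
    rw [h3]
    have h4 : ∀ A B Q P1 P2 v : ℂ, B ≠ 0 → Q ≠ 0 → P2 ≠ 0 → -v * (Q * P2 * B) = P1 * A →
        A / B / Q * (P1 / P2) = -v := by
      intro A B Q P1 P2 v hB hQ hP h5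
      field_simp
      linear_combination -h5
    exact h4 _ _ _ _ _ _ n1 n2 n3 hid

/-! ## Piece [HD-D15] (this block) -/

private theorem W_at_zero_D15 (h : State K k d w) (h0 : (0 : ℂ) ∈ K)
    (hz : S (Cf d) 0 (W 0) = 0) : W 0 = -((k : ℂ) + 1) := by
  rw [S_Cf_at_zero, h.d0 h0, h.d0 h0, zero_add, add_comm 1 k, Nat.factorial_succ] at hz
  have hf : (k.factorial : ℂ) ≠ 0 := by exact_mod_cast k.factorial_ne_zero
  have hk : (k : ℂ) + 1 ≠ 0 := by exact_mod_cast Nat.succ_ne_zero k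
  rw [div_self hf] at hz
  push_cast at hz
  have e : (k.factorial : ℂ) / (((k : ℂ) + 1) * (k.factorial : ℂ)) = 1 / ((k : ℂ) + 1) := by
    field_simp
  rw [e] at hz
  have e2 : W 0 = ((k : ℂ) + 1) * (1 / ((k : ℂ) + 1) * W 0) := by
    field_simp
  rw [e2]
  linear_combination ((k : ℂ) + 1) * hz

/-- The new state.
PROOF.  `Ent.dquot`, `Ent.dquot_differentiableOn`; `dquot d W 0 q = 1`: `quot_Cf` (`n = 0`) and
`Ent.quot_zero`; `fac`: `S (Cf d) q ζ = (1 - ζ/W q) S (Cf (dquot d W)) q (q ζ)` (`Ent.quot_mul`,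
`S_quot_Cf`) with `ζ = q^k z`; `lt`: `State.gt` for `z = W q/q^k`; `gt`: if
`S (Cf (dquot d W)) q (q^(k+1) z) = 0` then `S (quot (Cf d) W) q ζ = 0` for `ζ = q^k z`
(`S_quot_Cf`), so `S (Cf d) q ζ = 0` and `State.gt` applies for `j < k`; for `j = k`:
`‖ζ‖ ≤ ‖W q‖` would give `ζ = W q u`, `‖u‖ ≤ 1`: contradiction to `hu`.  `d0`: `dquot_at_zero` and
`W 0 = -(k+1)` from `0 = S (Cf d) 0 (W 0) = 1 + W 0/(k+1)`. -/
theorem State.succ (hK : IsCompact K) (h1 : ∀ q ∈ K, ‖q‖ ≤ 1) (h : State K k d w)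
    (hW : ContinuousOn W K) (hWd : DifferentiableOn ℂ W (interior K)) (hW0 : ∀ q ∈ K, W q ≠ 0)
    (hWz : ∀ q ∈ K, S (Cf d) q (W q) = 0)
    (hu : ∀ q ∈ K, ∀ u : ℂ, ‖u‖ ≤ 1 → S (quot (Cf d) W) q (W q * u) ≠ 0) :
    State K (k + 1) (dquot d W) (Function.update w k W) := by
  obtain ⟨B, hB⟩ := hK.exists_bound_of_continuousOn hW
  have hEc : Ent K (Cf d) := h.ent.Cf h1
  have hupk : ∀ q, Function.update w k W k q = W q := fun q => by rw [Function.update_self]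
  have hupj : ∀ j, j < k → ∀ q, Function.update w k W j q = w j q := fun j hj q => by
    rw [Function.update_of_ne hj.ne]
  have hmul : ∀ q ∈ K, ∀ ζ, S (Cf d) q ζ = (1 - ζ / W q) * S (Cf (dquot d W)) q (q * ζ) := by
    intro q hq ζ
    have e1 := hEc.quot_mul hW hB hq (hWz q hq) ζ
    rw [S_quot_Cf] at e1
    have e2 := hW0 q hq
    have e3 : (1 - ζ / W q) = (W q - ζ) / W q := by field_simp
    rw [e3, div_mul_eq_mul_div, eq_div_iff e2, mul_comm, e1]
  refine ⟨h.ent.dquot h1 hW hB, fun n => ?_, fun q hq => ?_, fun j hj => ?_, fun j hj q hq => ?_,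
    fun q hq hq0 z => ?_, fun q hq hq0 i j hij hj => ?_, fun q hq hq0 j hj z hz => ?_,
    fun h0 n => ?_, fun h0 j hj => ?_⟩
  · exact h.ent.dquot_differentiableOn isOpen_interior interior_subset h1 h.diff hWd
      (fun q hq => hB q (interior_subset hq)) n
  · have e1 := hEc.quot_zero hq (hWz q hq)
    rw [quot_Cf] at e1
    simpa [Cf, h.one q hq] using e1
  · rcases Nat.lt_succ_iff_lt_or_eq.1 hj with hj | rfl
    · rw [Function.update_of_ne hj.ne]
      exact h.wc j hj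
    · rw [Function.update_self]
      exact hW
  · rcases Nat.lt_succ_iff_lt_or_eq.1 hj with hj | rfl
    · rw [Function.update_of_ne hj.ne]
      exact h.wne j hj q hq
    · rw [Function.update_self]
      exact hW0 q hq
  · rw [h.fac q hq hq0 z, Finset.prod_range_succ, hmul q hq, hupk, ← mul_assoc]
    have e1 : q * (q ^ k * z) = q ^ (k + 1) * z := by ring
    rw [e1]
    congr 2
    refine Finset.prod_congr rfl fun j hj => ?_
    rw [hupj j (Finset.mem_range.1 hj)]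
  · rcases Nat.lt_succ_iff_lt_or_eq.1 hj with hj | rfl
    · rw [hupj i (hij.trans hj), hupj j hj]
      exact h.lt q hq hq0 i j hij hj
    · rw [hupj i hij, hupk]
      refine h.gt q hq hq0 i hij _ ?_
      rw [mul_div_cancel₀ _ (pow_ne_zero _ hq0)]
      exact hWz q hq
  · have e1 : S (quot (Cf d) W) q (q ^ k * z) = 0 := by
      rw [S_quot_Cf, ← hz]
      congr 1
      ring
    rcases Nat.lt_succ_iff_lt_or_eq.1 hj with hj | rfl
    · rw [hupj j hj]
      refine h.gt q hq hq0 j hj z ?_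
      rw [hmul q hq, ← S_quot_Cf, e1, mul_zero]
    · rw [hupk]
      by_contra hc
      push Not at hc
      have hqj : q ^ j ≠ 0 := pow_ne_zero _ hq0
      have e2 : ‖q ^ j * z‖ ≤ ‖W q‖ := by
        rw [norm_div, le_div_iff₀ (norm_pos_iff.2 hqj)] at hc
        rw [norm_mul, mul_comm]
        exact hc
      have e3 : ‖q ^ j * z / W q‖ ≤ 1 := by
        rw [norm_div]
        exact div_le_one_of_le₀ e2 (norm_nonneg _)
      apply hu q hq _ e3
      rw [mul_div_cancel₀ _ (hW0 q hq)]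
      exact e1
  · rw [dquot_at_zero, h.d0 h0, W_at_zero_D15 h h0 (hWz 0 h0)]
    have e1 : n + 1 + k = n + (k + 1) := by ring
    rw [e1, Nat.factorial_succ k]
    push_cast
    ring
  · rcases Nat.lt_succ_iff_lt_or_eq.1 hj with hj | rfl
    · rw [hupj j hj]
      exact h.w0 h0 j hj
    · rw [hupk]
      exact W_at_zero_D15 h h0 (hWz 0 h0)

/-- The initial state. -/
theorem State.init (h1 : ∀ q ∈ K, ‖q‖ ≤ 1) (w : ℕ → ℂ → ℂ) :
    State K 0 (fun n _ => ((n.factorial : ℂ))⁻¹) w := by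
  refine ⟨⟨fun n => continuousOn_const, fun R hR => ⟨Real.exp R, (Real.exp_pos R).le, fun n q _ => ?_⟩⟩,
    fun n => differentiableOn_const _, fun q _ => by simp, fun j hj => absurd hj (Nat.not_lt_zero j),
    fun j hj => absurd hj (Nat.not_lt_zero j), fun q _ _ z => ?_,
    fun q _ _ i j _ hj => absurd hj (Nat.not_lt_zero j), fun q _ _ j hj => absurd hj (Nat.not_lt_zero j),
    fun _ n => ?_, fun _ j hj => absurd hj (Nat.not_lt_zero j)⟩
  · rw [norm_inv, Complex.norm_natCast, inv_mul_eq_div]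
    exact Real.pow_div_factorial_le_exp R hR.le n
  · rw [Finset.prod_range_zero, one_mul, pow_zero, one_mul]
    unfold F S Cf
    refine tsum_congr fun n => ?_
    rw [div_eq_mul_inv]
    ring
  · simp

/-- One step. -/
theorem State.step (hK : IsCompact K) (hcv : Convex ℝ K) (hi : (interior K).Nonempty)
    (h1 : ∀ q ∈ K, ‖q‖ ≤ 1) (h2 : (1 : ℂ) ∉ K) (h : State K k d w)
    (hB : ∀ q ∈ frontier K, q ≠ 0 → ∃ z, First q (k + 1) z ∧ StarN q (k + 1) z) :
    ∃ d' w', State K (k + 1) d' w' := by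
  obtain ⟨W, hb⟩ := exists_Bd hK.isClosed h hB
  have hWc := hb.continuousOn hK h1 h
  have hq := hb.quot_ne hK h1 h
  obtain ⟨L, hL, hLW⟩ := hb.exists_L hK h1 h2 h hWc
  have hc : Ent K (Cf d) := h.ent.Cf h1
  have hcd : ∀ n, DifferentiableOn ℂ (Cf d n) (interior K) := fun n =>
    (differentiableOn_id.pow _).mul (h.diff n)
  have hc1 : ∀ q ∈ K, Cf d 0 q = 1 := fun q hq => by simp [Cf, h.one q hq]
  obtain ⟨W', hW', hWd', hWf, hW0⟩ := exists_W hK hcv hi hc hcd hc1 hWc hb.zero hq hL hLW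
  have hq' : ∀ q ∈ frontier K, ∀ u : ℂ, ‖u‖ ≤ 1 → S (quot (Cf d) W') q (W' q * u) ≠ 0 := by
    intro q hqf u hu
    have h3 : S (quot (Cf d) W') q (W' q * u) = S (quot (Cf d) W) q (W q * u) := by
      simp only [S, quot, hWf q hqf]
    rw [h3]
    exact hq q hqf u hu
  exact ⟨_, _, h.succ hK h1 hW' hWd' (fun q hq => (hW0 q hq).1) (fun q hq => (hW0 q hq).2)
    (W_unique hK hcv hi hc hcd hc1 hW' hWd' (fun q hq => (hW0 q hq).2) hq')⟩

end SokamHD

end

/-! ### Lib_MP_af4de1_hd.DInd -/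

section
namespace SokamF
end SokamF
/-! # Part (d): induction; `Good` and `First` -/

namespace SokamHD

open Complex SokamF Filter Topology Metric Set

variable {K : Set ℂ} {k : ℕ} {d : ℕ → ℂ → ℂ} {w : ℕ → ℂ → ℂ}

theorem First.mono {q : ℂ} {k l : ℕ} {z : ℕ → ℂ} (h : First q l z) (hkl : k ≤ l) : First q k z := by
  obtain ⟨h1, h2, h3⟩ := h
  refine ⟨fun j hj => h1 j (by omega), fun i j hij hj => h2 i j hij (by omega), fun u hu => ?_⟩
  rcases h3 u hu with ⟨j, hj, hju⟩ | h4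
  · by_cases hjk : j < k
    · exact Or.inl ⟨j, hjk, hju⟩
    · exact Or.inr fun i hi => by rw [hju]; exact h2 i j (by omega) hj
  · exact Or.inr fun i hi => h4 i (by omega)

theorem StarN.mono {q : ℂ} {k l : ℕ} {z : ℕ → ℂ} (h : StarN q l z) (hkl : k ≤ l) : StarN q k z :=
  fun i j hij hj => h i j hij (by omega)

theorem exists_state (hK : IsCompact K) (hcv : Convex ℝ K) (hi : (interior K).Nonempty)
    (h1 : ∀ q ∈ K, ‖q‖ ≤ 1) (h2 : (1 : ℂ) ∉ K)
    (hB : ∀ q ∈ frontier K, q ≠ 0 → ∃ z, First q k z ∧ StarN q k z) :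
    ∃ d w, State K k d w := by
  induction k with
  | zero => exact ⟨_, _, State.init h1 (fun _ _ => 0)⟩
  | succ k ih =>
    obtain ⟨d, w, h⟩ := ih fun q hq hq0 => by
      obtain ⟨z, hz, hs⟩ := hB q hq hq0
      exact ⟨z, hz.mono (by omega), hs.mono (by omega)⟩
    exact h.step hK hcv hi h1 h2 hB

/-! ## Piece [HD-D16] (this block) -/

/-- PROOF.  `State.complete`; simple: `F q (q z_j) = F'(z_j) = -(1/z_j) ∏_{i ≠ j} (1 - z_j/z_i) ·
S (Cf d) q (q^k z_j)`, `z_j ≠ z_i` for `i ≠ j` (`State.lt`), and `S (Cf d) q (q^k z_j) = 0` would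
give `‖z_j‖ < ‖z_j‖` (`State.gt`). -/
theorem State.first (h1 : ∀ q ∈ K, ‖q‖ ≤ 1) (h : State K k d w) {q : ℂ} (hq : q ∈ K)
    (hq0 : q ≠ 0) : First q k (fun j => w j q / q ^ j) := by
  have hqn := h1 q hq
  obtain ⟨hz, hc⟩ := h.complete hq hq0
  refine ⟨fun j hj => ⟨hz j hj, fun h0 => ?_⟩, fun i j hij hj => h.lt q hq hq0 i j hij hj,
    fun u hu => ?_⟩
  · obtain ⟨a, ha⟩ : ∃ a : ℕ → ℂ, a = fun i => w i q / q ^ i := ⟨_, rfl⟩
    have haj : w j q / q ^ j = a j := by rw [ha]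
    have haj0 : a j ≠ 0 := by
      rw [← haj]
      exact div_ne_zero (h.wne j hj q hq) (pow_ne_zero _ hq0)
    obtain ⟨G, hG⟩ : ∃ G : ℂ → ℂ, G = fun z =>
        (∏ i ∈ (Finset.range k).erase j, (1 - z / a i)) * S (Cf d) q (q ^ k * z) := ⟨_, rfl⟩
    have hGd : Differentiable ℂ G := by
      rw [hG]
      refine Differentiable.mul ?_ ?_
      · exact Differentiable.fun_finsetProd fun i _ =>
          (differentiable_const _).sub (differentiable_id.div_const _)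
      · exact ((h.ent.Cf h1).differentiable hq).comp (differentiable_id.const_mul _)
    have hfac : F q = fun z => (1 - z / a j) * G z := by
      funext z
      rw [h.fac q hq hq0 z, hG]
      simp only
      rw [← mul_assoc, Finset.mul_prod_erase (Finset.range k) (fun i => 1 - z / a i)
        (Finset.mem_range.2 hj)]
      congr 1
      refine Finset.prod_congr rfl fun i _ => ?_
      rw [ha]
      simp only
      rw [div_div_eq_mul_div, mul_comm z]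
    have hd1 : HasDerivAt (F q) (F q (q * a j)) (a j) := hasDerivAt_F hqn _
    have hd2 : HasDerivAt (F q) (-(1 / a j) * G (a j) + (1 - a j / a j) * deriv G (a j)) (a j) := by
      rw [hfac]
      exact (((hasDerivAt_id (a j)).div_const (a j)).const_sub 1).mul (hGd (a j)).hasDerivAt
    have h2 := hd1.unique hd2
    simp only [haj] at h0
    rw [h0, div_self haj0, sub_self, zero_mul, add_zero, eq_comm, mul_eq_zero, neg_eq_zero] at h2
    rcases h2 with h2 | h2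
    · exact one_div_ne_zero haj0 h2
    · rw [hG] at h2
      simp only at h2
      rcases mul_eq_zero.1 h2 with h3 | h3
      · obtain ⟨i, hi, hi0⟩ := Finset.prod_eq_zero_iff.1 h3
        rw [Finset.mem_erase, Finset.mem_range] at hi
        have hai0 : a i ≠ 0 := by
          rw [ha]
          exact div_ne_zero (h.wne i hi.2 q hq) (pow_ne_zero _ hq0)
        have h4 : a j = a i := by
          rw [sub_eq_zero, eq_comm, div_eq_one_iff_eq hai0] at hi0
          exact hi0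
        rcases lt_or_gt_of_ne hi.1 with h5 | h5
        · have h6 := h.lt q hq hq0 i j h5 hj
          have h7 : ‖a i‖ < ‖a j‖ := by rw [ha]; exact h6
          rw [h4] at h7
          exact lt_irrefl _ h7
        · have h6 := h.lt q hq hq0 j i h5 hi.2
          have h7 : ‖a j‖ < ‖a i‖ := by rw [ha]; exact h6
          rw [h4] at h7
          exact lt_irrefl _ h7
      · have h4 := h.gt q hq hq0 j hj (a j) h3
        rw [haj] at h4
        exact lt_irrefl _ h4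
  · rcases hc u hu with h2 | h2
    · exact Or.inl h2
    · exact Or.inr h2.2

/-- Bounded sets contain finitely many zeros.
PROOF.  `F q` is entire and `F q 0 = 1`. -/
theorem finite_zeros {q : ℂ} (hq : ‖q‖ ≤ 1) (R : ℝ) : {z : ℂ | F q z = 0 ∧ ‖z‖ ≤ R}.Finite := by
  by_contra hinf
  obtain ⟨x, -, hx⟩ := Set.Infinite.exists_accPt_of_subset_isCompact (K := closedBall (0 : ℂ) R)
    hinf (isCompact_closedBall _ _) fun z hz => mem_closedBall_zero_iff.2 hz.2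
  have han : AnalyticOnNhd ℂ (F q) univ :=
    DifferentiableOn.analyticOnNhd (fun z _ =>
      (hasDerivAt_F hq z).differentiableAt.differentiableWithinAt) isOpen_univ
  have hfr : ∃ᶠ z in 𝓝[≠] x, F q z = 0 :=
    (accPt_iff_frequently_nhdsNE.1 hx).mono fun z hz => hz.1
  have h0 := han.eqOn_zero_of_preconnected_of_frequently_eq_zero isPreconnected_univ
    (mem_univ x) hfr (mem_univ (0 : ℂ))
  rw [F_zero] at h0
  exact one_ne_zero h0

/-- PROOF.  Let `F q u = 0`, `N` = number of zeros of modulus `≤ ‖u‖` (`finite_zeros`).  Take `First q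
(N+1) z`: if `u` is none of the `z j`, all `N+1` different zeros `z j` have modulus `< ‖u‖`:
contradiction.  So `u = z j` is simple (`deriv_F`), and if `‖v‖ = ‖u‖`, `F q v = 0`, then by
completeness `v = z i` (the other case gives `‖u‖ < ‖v‖`) and `‖z i‖ = ‖z j‖` gives `i = j`. -/
theorem good_of_first {q : ℂ} (hq : ‖q‖ ≤ 1) (h : ∀ k, ∃ z, First q k z) : Good q := by
  have key : ∀ u, F q u = 0 → ∃ k z, First q k z ∧ ∃ j < k, u = z j := by
    intro u hu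
    obtain ⟨N, hN⟩ : ∃ N : ℕ, N = (finite_zeros hq ‖u‖).toFinset.card := ⟨_, rfl⟩
    obtain ⟨z, hz⟩ := h (N + 1)
    rcases hz.2.2 u hu with h1 | h1
    · exact ⟨N + 1, z, hz, h1⟩
    · exfalso
      have h2 : (Finset.range (N + 1)).card ≤ (finite_zeros hq ‖u‖).toFinset.card := by
        refine Finset.card_le_card_of_injOn z (fun j hj => ?_) fun i hi j hj hij => ?_
        · have hj' : j < N + 1 := by simpa using hj
          simp only [Set.Finite.coe_toFinset, mem_setOf_eq]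
          exact ⟨(hz.1 j hj').1, (h1 j hj').le⟩
        · have hi' : i < N + 1 := by simpa using hi
          have hj' : j < N + 1 := by simpa using hj
          rcases lt_trichotomy i j with h3 | h3 | h3
          · have h4 := hz.2.1 i j h3 hj'
            rw [hij] at h4
            exact absurd h4 (lt_irrefl _)
          · exact h3
          · have h4 := hz.2.1 j i h3 hi'
            rw [hij] at h4
            exact absurd h4 (lt_irrefl _)
      rw [Finset.card_range, ← hN] at h2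
      omega
  refine ⟨fun u hu => ?_, fun u v hu hv huv => ?_⟩
  · obtain ⟨k, z, hz, j, hj, rfl⟩ := key u hu
    rw [deriv_F hq]
    exact (hz.1 j hj).2
  · obtain ⟨k, z, hz, j, hj, rfl⟩ := key u hu
    rcases hz.2.2 v hv with ⟨i, hi, rfl⟩ | h1
    · rcases lt_trichotomy i j with h3 | h3 | h3
      · have h4 := hz.2.1 i j h3 hj
        rw [huv] at h4
        exact absurd h4 (lt_irrefl _)
      · rw [h3]
      · have h4 := hz.2.1 j i h3 hi
        rw [huv] at h4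
        exact absurd h4 (lt_irrefl _)
    · have h4 := h1 j hj
      rw [huv] at h4
      exact absurd h4 (lt_irrefl _)

/-! ## Piece [HD-D17] (this block) -/

/-- Division by simple zeros.
PROOF.  Induction on `k`: divide the entire function by one zero (`dslope` is entire,
`Complex.differentiableOn_dslope`). -/
theorem exists_div {q : ℂ} (hq : ‖q‖ ≤ 1) {k : ℕ} {z : ℕ → ℂ} (hz : ∀ j < k, F q (z j) = 0)
    (hne : ∀ i j, i < j → j < k → z i ≠ z j) :
    ∃ g : ℂ → ℂ, Differentiable ℂ g ∧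
      ∀ u, F q u = (∏ j ∈ Finset.range k, (1 - u / z j)) * g u := by
  induction k with
  | zero => exact ⟨F q, fun z => (hasDerivAt_F hq z).differentiableAt, fun u => by simp⟩
  | succ k ih =>
    obtain ⟨g, hg, hfac⟩ :=
      ih (fun j hj => hz j (by omega)) (fun i j hij hj => hne i j hij (by omega))
    have hz0 : ∀ j < k + 1, z j ≠ 0 := by
      intro j hj h0
      have := hz j hj
      rw [h0, F_zero] at this
      exact one_ne_zero this
    have hgk : g (z k) = 0 := by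
      have h1 := hfac (z k)
      rw [hz k (by omega)] at h1
      rcases mul_eq_zero.mp h1.symm with h2 | h2
      · exfalso
        obtain ⟨j, hj, hj2⟩ := Finset.prod_eq_zero_iff.mp h2
        have hjk := Finset.mem_range.mp hj
        have hj0 := hz0 j (by omega)
        have h3 : z k / z j = 1 := (sub_eq_zero.mp hj2).symm
        rw [div_eq_one_iff_eq hj0] at h3
        exact hne j k hjk (by omega) h3.symm
      · exact h2
    have hds : Differentiable ℂ (dslope g (z k)) := by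
      rw [← differentiableOn_univ] at hg ⊢
      exact (differentiableOn_dslope univ_mem).mpr hg
    refine ⟨fun u => -z k * dslope g (z k) u, hds.const_mul _, fun u => ?_⟩
    have h1 : g u = (u - z k) * dslope g (z k) u := by
      have := sub_smul_dslope g (z k) u
      rw [hgk, sub_zero, smul_eq_mul] at this
      exact this.symm
    have h2 := hz0 k (by omega)
    have h3 : u - z k = (1 - u / z k) * (-z k) := by
      field_simp
      ring
    rw [hfac, Finset.prod_range_succ, h1, h3]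
    ring

/-- PROOF.  `‖z i‖ < ‖z j‖ = ‖q z j‖ ≤ ‖τ q z j‖`. -/
theorem starN_of_norm {q : ℂ} (hq : ‖q‖ = 1) {k : ℕ} {z : ℕ → ℂ} (h : First q k z) :
    StarN q k z := by
  intro i j hij hj τ hτ he
  have h1 := h.2.1 i j hij hj
  have h2 : ‖z i‖ = |τ| * ‖z j‖ := by
    rw [he, norm_mul, norm_mul, hq, one_mul, Complex.norm_real, Real.norm_eq_abs]
  have h3 : 1 ≤ |τ| := hτ.trans (le_abs_self τ)
  nlinarith [norm_nonneg (z j)]

end SokamHD

end

/-! ### Lib_MP_af4de1_hd.DDisc -/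

section
namespace SokamF
end SokamF
/-!
# The disc: simple zeros of distinct moduli inside, from the boundary and the corner

The passage to the interior for `K = closedBall 0 ρ`, `ρ` close to `1` (the circles of
`SokamIn.exists_circ`).
-/

namespace SokamHD

open Complex SokamF Filter Topology Metric Set

/-- The two versions of `First`. -/
theorem First.of_in {q : ℂ} {k : ℕ} {z : ℕ → ℂ} (h : SokamIn.First q k z) : First q (k + 1) z := by
  have hm : ∀ i j, i < j → j < k + 1 → ‖z i‖ < ‖z j‖ := by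
    intro i j hij hj
    induction j with
    | zero => omega
    | succ j ih =>
      have h1 := h.mono j (by omega)
      rcases Nat.lt_succ_iff_lt_or_eq.mp hij with h2 | h2
      · exact (ih h2 (by omega)).trans h1
      · rw [h2]; exact h1
  refine ⟨fun j hj => ⟨h.zero j (by omega), h.simple j (by omega)⟩, hm, fun u hu => ?_⟩
  by_cases hk : ‖u‖ ≤ ‖z k‖
  · obtain ⟨i, hi, rfl⟩ := h.complete u hu hk
    exact Or.inl ⟨i, by omega, rfl⟩
  · push Not at hk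
    refine Or.inr fun j hj => ?_
    rcases Nat.lt_succ_iff_lt_or_eq.mp hj with h2 | h2
    · exact (hm j k h2 (by omega)).trans hk
    · rw [h2]; exact hk

theorem good_of_circ {ρ : ℝ} (hρ0 : 0 < ρ) (hρ1 : ρ < 1) {k : ℕ} {z : ℝ → ℕ → ℂ}
    (h : SokamIn.Circ ρ k z) {q : ℂ} (hq0 : q ≠ 0) (hq : ‖q‖ ≤ ρ) : ∃ z, First q (k + 1) z := by
  have hK : IsCompact (closedBall (0 : ℂ) ρ) := isCompact_closedBall 0 ρ
  have h1 : ∀ q ∈ closedBall (0 : ℂ) ρ, ‖q‖ ≤ 1 := fun q hq => by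
    rw [mem_closedBall_zero_iff] at hq; linarith
  have h2 : (1 : ℂ) ∉ closedBall (0 : ℂ) ρ := by
    rw [mem_closedBall_zero_iff, norm_one]; linarith
  have hi : (interior (closedBall (0 : ℂ) ρ)).Nonempty := by
    rw [interior_closedBall _ hρ0.ne']
    exact ⟨0, mem_ball_self hρ0⟩
  have hB : ∀ p ∈ frontier (closedBall (0 : ℂ) ρ), p ≠ 0 →
      ∃ z, First p (k + 1) z ∧ StarN p (k + 1) z := by
    intro p hp _
    rw [frontier_closedBall _ hρ0.ne', mem_sphere_zero_iff_norm] at hp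
    have hqq : SokamIn.qq ρ p.arg 1 = p := by
      unfold SokamIn.qq
      rw [ofReal_one, one_mul, exp_add, ← ofReal_exp, Real.exp_log hρ0, ← hp]
      exact norm_mul_exp_arg_mul_I p
    have h3 := h.first p.arg
    rw [hqq] at h3
    refine ⟨z p.arg, First.of_in h3, fun i j hij hj τ hτ he => ?_⟩
    -- the gap
    have hgap : ∀ j, j < k + 1 → ∀ i, i < j → ‖z p.arg i‖ < ρ * ‖z p.arg j‖ := by
      intro j hj i hij
      obtain ⟨l, rfl⟩ : ∃ l, j = l + 1 := ⟨j - 1, by omega⟩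
      have h4 := h.gap p.arg l (by omega)
      rcases Nat.lt_succ_iff_lt_or_eq.mp hij with h5 | h5
      · exact ((First.of_in h3).2.1 i l h5 (by omega)).trans h4
      · rw [h5]; exact h4
    have h4 := hgap j hj i hij
    rw [he, norm_mul, norm_mul, hp, norm_real, Real.norm_of_nonneg (by linarith)] at h4
    nlinarith [mul_nonneg hρ0.le (norm_nonneg (z p.arg j))]
  obtain ⟨d, w, hs⟩ := exists_state hK (convex_closedBall 0 ρ) hi h1 h2 hB
  exact ⟨_, hs.first h1 (mem_closedBall_zero_iff.mpr hq) hq0⟩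

/-- The interior of the disc. -/
theorem good_disc (hfirst : ∀ q : ℂ, ‖q‖ = 1 → q ≠ 1 → ∀ k, ∃ z, SokamIn.First q k z)
    (hT : ∀ k, SokamIn.TIP k) {q : ℂ} (hq0 : q ≠ 0) (hq1 : ‖q‖ < 1) : Good q := by
  refine good_of_first hq1.le fun k => ?_
  obtain ⟨ρ, h1, h2, h3, z, hz⟩ := SokamIn.exists_circ hfirst (hT k) hq1
  obtain ⟨z', hz'⟩ := good_of_circ h2 h3 hz hq0 h1.le
  exact ⟨z', hz'.mono (by omega)⟩

end SokamHD

end

/-! ### Lib_MP_af4de1_in.Main -/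

section
namespace SokamF
end SokamF
/-!
# The interior of the disc

If for all `|q| = 1`, `q ≠ 1`, the zeros of `F(·;q)` are simple and have distinct moduli, then this
is true for all `0 < |q| < 1`.  The same for the first `k + 1` zeros.
-/

set_option autoImplicit false

open Complex Set Filter Topology SokamF

namespace SokamIn

/-- **Level `k`**: if the first `k + 1` zeros are simple and of increasing moduli on the circle, then
also inside. -/
theorem interior_level (k : ℕ) (hk : ∀ q : ℂ, ‖q‖ = 1 → q ≠ 1 → ∃ z, First q k z) {q : ℂ}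
    (hq0 : 0 < ‖q‖) (hq1 : ‖q‖ < 1) : ∃ z, First q k z := by
  obtain ⟨ρ, h1, h2, h3, z, hz⟩ := exists_circ' hk (tip k) hq1
  obtain ⟨z', hz'⟩ := SokamHD.good_of_circ h2 h3 hz (norm_pos_iff.1 hq0) h1.le
  obtain ⟨g1, g2, g3⟩ := hz'
  refine ⟨z', fun i hi => (g1 i (by omega)).1, fun i hi => (g1 i (by omega)).2,
    fun i hi => g2 i (i + 1) (by omega) (by omega), fun w hw hwk => ?_⟩
  rcases g3 w hw with ⟨i, hi, h⟩ | h
  · exact ⟨i, by omega, h⟩
  · exact absurd (h k (by omega)) (not_lt.2 hwk)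

/-- **The interior.** -/
theorem interior_dist (H : ∀ q : ℂ, ‖q‖ = 1 → q ≠ 1 → Dist q) {q : ℂ} (hq0 : 0 < ‖q‖)
    (hq1 : ‖q‖ < 1) : Dist q := by
  obtain ⟨g1, g2⟩ := SokamHD.good_disc (fun p hp hp1 k => exists_first hp hp1 (H p hp hp1) k) tip
    (norm_pos_iff.1 hq0) hq1
  refine ⟨fun z hz => ?_, g2⟩
  rw [← deriv_F hq1.le]
  exact g1 z hz

/-- the closed disc without `q = 0, 1` -/
theorem closed_dist (H : ∀ q : ℂ, ‖q‖ = 1 → q ≠ 1 → Dist q) {q : ℂ} (hq0 : 0 < ‖q‖)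
    (hq1 : ‖q‖ ≤ 1) (hne : q ≠ 1) : Dist q := by
  rcases hq1.lt_or_eq with h | h
  · exact interior_dist H hq0 h
  · exact H q h hne

theorem F_one (z : ℂ) : F 1 z = cexp z := by
  unfold F
  rw [Complex.exp_eq_exp_ℂ, NormedSpace.exp_eq_tsum_div]
  refine tsum_congr fun k => ?_
  rw [one_pow, one_mul]

/-- all zeros are simple -/
theorem interior (H : ∀ q : ℂ, ‖q‖ = 1 → q ≠ 1 → Dist q) (q : ℂ) (hq0 : 0 < ‖q‖)
    (hq1 : ‖q‖ ≤ 1) (z : ℂ) (hz : F q z = 0) : F q (q * z) ≠ 0 := by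
  by_cases h : q = 1
  · rw [h, F_one] at hz
    exact absurd hz (Complex.exp_ne_zero _)
  · exact (closed_dist H hq0 hq1 h).1 z hz

/-- **The frozen statement from the upper arc.** -/
theorem frozen_of_arc (h : ∀ α : ℝ, 0 < α → α ≤ Real.pi → Dist (cexp (α * I))) (q : ℂ)
    (hq0 : 0 < ‖q‖) (hq1 : ‖q‖ ≤ 1) (z : ℂ)
    (hz : (∑' k : ℕ, q ^ (k * (k - 1) / 2) * z ^ k / (Nat.factorial k : ℂ)) = 0) :
    deriv (fun w : ℂ => ∑' k : ℕ, q ^ (k * (k - 1) / 2) * w ^ k / (Nat.factorial k : ℂ)) z ≠ 0 :=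
  frozen_of hq1 (fun z hz => interior (circle_of_arc h) q hq0 hq1 z hz) z hz

/-- **The frozen statement from single circles** `(α, r)`. -/
theorem frozen_of_fu (h : ∀ α : ℝ, 0 < α → α ≤ Real.pi → ∀ r : ℝ, 0 < r → SokamFU.Dist α r)
    (q : ℂ) (hq0 : 0 < ‖q‖) (hq1 : ‖q‖ ≤ 1) (z : ℂ)
    (hz : (∑' k : ℕ, q ^ (k * (k - 1) / 2) * z ^ k / (Nat.factorial k : ℂ)) = 0) :
    deriv (fun w : ℂ => ∑' k : ℕ, q ^ (k * (k - 1) / 2) * w ^ k / (Nat.factorial k : ℂ)) z ≠ 0 :=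
  frozen_of_arc (fun α h1 h2 => dist_of_fu (h α h1 h2)) q hq0 hq1 z hz

end SokamIn

end
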