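import Mathlib.Algebra.Order.Floor.Semifield
import Mathlib.Algebra.Ring.IsFormallyReal
import Mathlib.RingTheory.PowerSeries.Inverse
import Mathlib.Data.Rat.Star
import Mathlib.Geometry.Euclidean.Angle.Unoriented.TriangleInequality
import Mathlib.Analysis.Convex.Contractible
import Mathlib.Analysis.Calculus.Deriv.Star
import Mathlib.MeasureTheory.Integral.Gamma
import Mathlib.Analysis.Complex.LocallyUniformLimit
import Mathlib.Topology.Separation.CompletelyRegular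
import Mathlib.RingTheory.Flat.TorsionFree
import Mathlib.MeasureTheory.Order.Group.Lattice
import Mathlib.Data.Int.Star
import Mathlib.LinearAlgebra.Lagrange
import Mathlib.Analysis.Complex.Angle
import Mathlib.Analysis.Complex.BorelCaratheodory
import Mathlib.Analysis.Complex.CoveringMap
import Mathlib.Topology.Homotopy.Lifting
import Mathlib.Analysis.Complex.ExponentialBounds
import Mathlib.Analysis.Complex.HasPrimitives
import Mathlib.NumberTheory.DiophantineApproximation.Basic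
import Mathlib.Analysis.Complex.OpenMapping
import Mathlib.Analysis.SpecialFunctions.Trigonometric.DerivHyp
import Mathlib.RingTheory.SimpleRing.Principal
import Mathlib.Order.CompletePartialOrder
import Mathlib.Analysis.SpecialFunctions.Complex.LogBounds
import Mathlib.Analysis.SpecialFunctions.Gamma.BohrMollerup
import Mathlib.Analysis.SpecialFunctions.Trigonometric.Series
import Mathlib.Topology.MetricSpace.Sequences
import Mathlib.Analysis.Normed.Group.Tannery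
import Mathlib.Analysis.ODE.Gronwall
import Mathlib.Analysis.Real.Pi.Bounds
import Mathlib.Analysis.SpecialFunctions.Gaussian.PoissonSummation
import Mathlib.Analysis.SpecialFunctions.Trigonometric.InverseDeriv
import Mathlib.RingTheory.TotallySplit
import Mathlib.RingTheory.Etale.Weakly
import Mathlib.Tactic

/-! ### Lib_MP_af4de1_f1.MainB2 -/

section
/-!
# LEMMA MAIN: reduction of the bounds to numbers (squares)

`G = √(2πδ/D)`, `B = q/δ`, `W² = 1 + c²`, `W² D ≤ 2 l q`.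
-/

set_option autoImplicit false

namespace SokamF1B

open Real

theorem le_mul_sqrt {a k X : ℝ} (ha : 0 ≤ a) (hk : 0 ≤ k) (hX : 0 ≤ X) (h : a ^ (2 : ℕ) ≤ k ^ (2 : ℕ) * X) :
    a ≤ k * √X := by
  have h1 : 0 ≤ k * √X := by positivity
  rw [← pow_le_pow_iff_left₀ ha h1 two_ne_zero, mul_pow, Real.sq_sqrt hX]
  exact h

section

variable {W D q l δ : ℝ} (hW : 0 < W) (hD : 0 < D) (hq : 0 < q) (hδ : 0 < δ)
  (hL : W ^ (2 : ℕ) * D ≤ 2 * l * q)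

include hD hq hL in
theorem wq : W ^ (2 : ℕ) / q ≤ 2 * l / D := by
  rw [div_le_div_iff₀ hq hD]
  linarith only [hL]

include hW hD hq hδ hL in
/-- `W⁴ X/B² ≤ k G` -/
theorem redA {X k : ℝ} (hX : 0 ≤ X) (hk : 0 ≤ k)
    (h : 16 * l ^ (4 : ℕ) * X ^ (2 : ℕ) * δ ^ (3 : ℕ) ≤ 2 * π * k ^ (2 : ℕ) * D ^ (3 : ℕ)) :
    W ^ (4 : ℕ) * X / (q / δ) ^ (2 : ℕ) ≤ k * √(2 * π * δ / D) := by
  have hp := Real.pi_pos
  refine le_mul_sqrt (by positivity) hk (by positivity) ?_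
  have h1 := wq hD hq hL
  have h0 : 0 ≤ W ^ (2 : ℕ) / q := by positivity
  have h2 : (W ^ (2 : ℕ) / q) ^ (4 : ℕ) ≤ (2 * l / D) ^ (4 : ℕ) := pow_le_pow_left₀ h0 h1 4
  have e1 : (W ^ (4 : ℕ) * X / (q / δ) ^ (2 : ℕ)) ^ (2 : ℕ) = (W ^ (2 : ℕ) / q) ^ (4 : ℕ) * (X ^ (2 : ℕ) * δ ^ (4 : ℕ)) := by
    field_simp
  rw [e1]
  calc (W ^ (2 : ℕ) / q) ^ (4 : ℕ) * (X ^ (2 : ℕ) * δ ^ (4 : ℕ)) ≤ (2 * l / D) ^ (4 : ℕ) * (X ^ (2 : ℕ) * δ ^ (4 : ℕ)) := by gcongr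
    _ = (16 * l ^ (4 : ℕ) * X ^ (2 : ℕ) * δ ^ (3 : ℕ)) * (δ / D ^ (4 : ℕ)) := by
      field_simp
      ring
    _ ≤ (2 * π * k ^ (2 : ℕ) * D ^ (3 : ℕ)) * (δ / D ^ (4 : ℕ)) := by gcongr
    _ = k ^ (2 : ℕ) * (2 * π * δ / D) := by field_simp

include hW hD hq hδ hL in
/-- `W³ √Y ≤ k (δ/D) G` from `Y = y/B³` -/
theorem redB {a y k : ℝ} (ha : 0 ≤ a) (hk : 0 ≤ k) (hy : 0 ≤ y) (hay : a ^ (2 : ℕ) ≤ y / (q / δ) ^ (3 : ℕ))
    (h : 8 * l ^ (3 : ℕ) * y ≤ 2 * π * k ^ (2 : ℕ)) :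
    W ^ (3 : ℕ) * a ≤ k * (δ / D) * √(2 * π * δ / D) := by
  have hp := Real.pi_pos
  refine le_mul_sqrt (by positivity) (by positivity) (by positivity) ?_
  have h1 := wq hD hq hL
  have h0 : 0 ≤ W ^ (2 : ℕ) / q := by positivity
  have h2 : (W ^ (2 : ℕ) / q) ^ (3 : ℕ) ≤ (2 * l / D) ^ (3 : ℕ) := pow_le_pow_left₀ h0 h1 3
  calc (W ^ (3 : ℕ) * a) ^ (2 : ℕ) = W ^ (6 : ℕ) * a ^ (2 : ℕ) := by ring
    _ ≤ W ^ (6 : ℕ) * (y / (q / δ) ^ (3 : ℕ)) := by gcongr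
    _ = (W ^ (2 : ℕ) / q) ^ (3 : ℕ) * (y * δ ^ (3 : ℕ)) := by
      field_simp
    _ ≤ (2 * l / D) ^ (3 : ℕ) * (y * δ ^ (3 : ℕ)) := by gcongr
    _ = (8 * l ^ (3 : ℕ) * y) * (δ ^ (3 : ℕ) / D ^ (3 : ℕ)) := by
      field_simp
      ring
    _ ≤ (2 * π * k ^ (2 : ℕ)) * (δ ^ (3 : ℕ) / D ^ (3 : ℕ)) := by gcongr
    _ = (k * (δ / D)) ^ (2 : ℕ) * (2 * π * δ / D) := by
      field_simp

include hW hD hq hδ hL in
/-- the exponentially small part: `B W e^(-μB)/(μB) ≤ g G` -/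
theorem redE {μ g : ℝ} (hμ : 0 < μ) (hg : 0 ≤ g)
    (h : l * (q / δ) * exp (-(2 * (μ * (q / δ)))) ≤ π * g ^ (2 : ℕ) * μ ^ (2 : ℕ)) :
    (q / δ) * (W * (exp (-(μ * (q / δ))) / (μ * (q / δ)))) ≤ g * √(2 * π * δ / D) := by
  have hp := Real.pi_pos
  have hB : 0 < q / δ := by positivity
  refine le_mul_sqrt (by positivity) hg (by positivity) ?_
  have e1 : ((q / δ) * (W * (exp (-(μ * (q / δ))) / (μ * (q / δ))))) ^ (2 : ℕ) =
      W ^ (2 : ℕ) * exp (-(2 * (μ * (q / δ)))) / μ ^ (2 : ℕ) := by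
    have h3 : exp (-(2 * (μ * (q / δ)))) = exp (-(μ * (q / δ))) ^ (2 : ℕ) := by
      rw [← Real.exp_nat_mul]
      congr 1
      push_cast
      ring
    rw [h3]
    field_simp
  rw [e1, div_le_iff₀ (by positivity)]
  have h4 : W ^ (2 : ℕ) * exp (-(2 * (μ * (q / δ)))) * D ≤ 2 * (π * g ^ (2 : ℕ) * μ ^ (2 : ℕ)) * δ := by
    calc W ^ (2 : ℕ) * exp (-(2 * (μ * (q / δ)))) * D = W ^ (2 : ℕ) * D * exp (-(2 * (μ * (q / δ)))) := by ring
      _ ≤ 2 * l * q * exp (-(2 * (μ * (q / δ)))) := by gcongr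
      _ = 2 * (l * (q / δ) * exp (-(2 * (μ * (q / δ))))) * δ := by
        field_simp
      _ ≤ 2 * (π * g ^ (2 : ℕ) * μ ^ (2 : ℕ)) * δ := by gcongr
  have h5 : g ^ (2 : ℕ) * (2 * π * δ / D) * μ ^ (2 : ℕ) = 2 * (π * g ^ (2 : ℕ) * μ ^ (2 : ℕ)) * δ / D := by ring
  rw [h5, le_div_iff₀ hD]
  exact h4

include hD hq hδ hL in
/-- `W² ≤ 2 l B δ/D` -/
theorem wB : W ^ (2 : ℕ) ≤ 2 * l * (q / δ) * (δ / D) := by
  have h1 := wq hD hq hL
  have h2 : W ^ (2 : ℕ) / q * q ≤ 2 * l / D * q := mul_le_mul_of_nonneg_right h1 hq.le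
  rw [div_mul_cancel₀ _ hq.ne'] at h2
  refine h2.trans (le_of_eq ?_)
  field_simp

end

end SokamF1B

end

/-! ### Lib_MP_af4de1_f1.MainI -/

section
/-!
# One dimensional integrals for LEMMA MAIN
-/

set_option autoImplicit false

namespace SokamF1B

open Real MeasureTheory Set

private theorem mi_cast (k : ℕ) {μ : ℝ} :
    Set.EqOn (fun s : ℝ => s ^ (k : ℝ) * exp (-μ * s ^ (2 : ℝ)))
      (fun s : ℝ => s ^ k * exp (-(μ * s ^ (2 : ℕ)))) (Ioi 0) := by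
  intro s _
  simp only []
  rw [Real.rpow_natCast, Real.rpow_two, neg_mul]

private theorem mi_ii (k : ℕ) {μ : ℝ} (hμ : 0 < μ) :
    IntegrableOn (fun s : ℝ => s ^ k * exp (-(μ * s ^ (2 : ℕ)))) (Ioi 0) := by
  have h := integrableOn_rpow_mul_exp_neg_mul_rpow (p := 2) (s := (k : ℝ)) (b := μ)
    (by have : (0 : ℝ) ≤ k := Nat.cast_nonneg k
        linarith) (by norm_num) hμ
  exact (integrableOn_congr_fun (mi_cast k) measurableSet_Ioi).1 h

private theorem mi_int (k : ℕ) {μ : ℝ} (hμ : 0 < μ) :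
    ∫ s in Ioi (0 : ℝ), s ^ k * exp (-(μ * s ^ (2 : ℕ))) =
      μ ^ (-((k : ℝ) + 1) / 2) * (1 / 2) * Gamma (((k : ℝ) + 1) / 2) := by
  rw [← integral_rpow_mul_exp_neg_mul_rpow (p := 2) (q := (k : ℝ)) (b := μ) (by norm_num)
    (by have : (0 : ℝ) ≤ k := Nat.cast_nonneg k
        linarith) hμ]
  exact (setIntegral_congr_fun measurableSet_Ioi (mi_cast k)).symm

theorem ii_m2 {μ : ℝ} (hμ : 0 < μ) :
    IntegrableOn (fun s : ℝ => s ^ (2 : ℕ) * exp (-(μ * s ^ (2 : ℕ)))) (Ioi 0) := by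
  exact mi_ii 2 hμ

theorem int_m2 {μ : ℝ} (hμ : 0 < μ) :
    ∫ s in Ioi (0 : ℝ), s ^ (2 : ℕ) * exp (-(μ * s ^ (2 : ℕ))) = √(π / μ) / (4 * μ) := by
  rw [mi_int 2 hμ]
  have h1 : (((2 : ℕ) : ℝ) + 1) / 2 = 1 / 2 + 1 := by norm_num
  rw [h1, Real.Gamma_add_one (by norm_num), Real.Gamma_one_half_eq]
  have h2 : -(((2 : ℕ) : ℝ) + 1) / 2 = -(1 / 2) + -1 := by norm_num
  rw [h2, Real.rpow_add hμ, Real.rpow_neg hμ.le, Real.rpow_neg_one, ← Real.sqrt_eq_rpow,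
    Real.sqrt_div Real.pi_pos.le]
  have h3 : √μ ≠ 0 := (Real.sqrt_pos.2 hμ).ne'
  field_simp
  norm_num

theorem ii_m3 {μ : ℝ} (hμ : 0 < μ) :
    IntegrableOn (fun s : ℝ => s ^ (3 : ℕ) * exp (-(μ * s ^ (2 : ℕ)))) (Ioi 0) := by
  exact mi_ii 3 hμ

theorem int_m3 {μ : ℝ} (hμ : 0 < μ) :
    ∫ s in Ioi (0 : ℝ), s ^ (3 : ℕ) * exp (-(μ * s ^ (2 : ℕ))) = 1 / (2 * μ ^ (2 : ℕ)) := by
  rw [mi_int 3 hμ]
  have h1 : (((3 : ℕ) : ℝ) + 1) / 2 = ((1 : ℕ) : ℝ) + 1 := by norm_num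
  rw [h1, Real.Gamma_nat_eq_factorial]
  have h2 : -(((3 : ℕ) : ℝ) + 1) / 2 = -((2 : ℕ) : ℝ) := by norm_num
  rw [h2, Real.rpow_neg hμ.le, Real.rpow_natCast]
  field_simp
  norm_num

theorem ii_m5 {μ : ℝ} (hμ : 0 < μ) :
    IntegrableOn (fun s : ℝ => s ^ (5 : ℕ) * exp (-(μ * s ^ (2 : ℕ)))) (Ioi 0) := by
  exact mi_ii 5 hμ

theorem int_m5 {μ : ℝ} (hμ : 0 < μ) :
    ∫ s in Ioi (0 : ℝ), s ^ (5 : ℕ) * exp (-(μ * s ^ (2 : ℕ))) = 1 / μ ^ (3 : ℕ) := by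
  rw [mi_int 5 hμ]
  have h1 : (((5 : ℕ) : ℝ) + 1) / 2 = ((2 : ℕ) : ℝ) + 1 := by norm_num
  rw [h1, Real.Gamma_nat_eq_factorial]
  have h2 : -(((5 : ℕ) : ℝ) + 1) / 2 = -((3 : ℕ) : ℝ) := by norm_num
  rw [h2, Real.rpow_neg hμ.le, Real.rpow_natCast]
  field_simp
  norm_num [Nat.factorial]

private theorem mi_tend {μ : ℝ} (hμ : 0 < μ) :
    Filter.Tendsto (fun s : ℝ => μ * s ^ (2 : ℕ)) Filter.atTop Filter.atTop :=
  (Filter.tendsto_pow_atTop (by norm_num : (2 : ℕ) ≠ 0)).const_mul_atTop hμ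

private theorem mi_exp0 {μ : ℝ} (hμ : 0 < μ) :
    Filter.Tendsto (fun s : ℝ => exp (-(μ * s ^ (2 : ℕ)))) Filter.atTop (nhds 0) :=
  (Real.tendsto_exp_neg_atTop_nhds_zero).comp (mi_tend hμ)

private theorem mi_sq_deriv (μ s : ℝ) :
    HasDerivAt (fun s : ℝ => exp (-(μ * s ^ (2 : ℕ)))) (exp (-(μ * s ^ (2 : ℕ))) * (-(μ * (2 * s)))) s := by
  have h1 : HasDerivAt (fun s : ℝ => s ^ (2 : ℕ)) (2 * s) s := by
    have := hasDerivAt_pow 2 s
    simpa using this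
  exact ((h1.const_mul μ).neg).exp

/-- `∫_1^∞ s e^(-B s²)` -/
private theorem mi_one {B : ℝ} (hB : 0 < B) :
    IntegrableOn (fun s : ℝ => s * exp (-(B * s ^ (2 : ℕ)))) (Ioi 1) ∧
    ∫ s in Ioi (1 : ℝ), s * exp (-(B * s ^ (2 : ℕ))) = exp (-B) / (2 * B) := by
  have hd : ∀ x ∈ Ici (1 : ℝ), HasDerivAt (fun s : ℝ => -(exp (-(B * s ^ (2 : ℕ))) / (2 * B)))
      (x * exp (-(B * x ^ (2 : ℕ)))) x := by
    intro x _
    have h := ((mi_sq_deriv B x).div_const (2 * B)).neg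
    refine h.congr_deriv ?_
    field_simp
  have ht : Filter.Tendsto (fun s : ℝ => -(exp (-(B * s ^ (2 : ℕ))) / (2 * B))) Filter.atTop
      (nhds 0) := by
    have := ((mi_exp0 hB).div_const (2 * B)).neg
    simpa using this
  have hp : ∀ x ∈ Ioi (1 : ℝ), 0 ≤ x * exp (-(B * x ^ (2 : ℕ))) := by
    intro x hx
    have hx' : (1 : ℝ) < x := hx
    have := Real.exp_pos (-(B * x ^ (2 : ℕ)))
    positivity
  refine ⟨integrableOn_Ioi_deriv_of_nonneg' hd hp ht, ?_⟩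
  rw [integral_Ioi_of_hasDerivAt_of_nonneg' hd hp ht]
  norm_num

private theorem mi_gint {B : ℝ} (hB : 0 < B) :
    Integrable (fun s : ℝ => exp (-(B * s ^ (2 : ℕ)))) := by
  have := integrable_exp_neg_mul_sq hB
  refine this.congr (Filter.Eventually.of_forall (fun s => ?_))
  simp only []
  rw [neg_mul]

private theorem mi_right {B : ℝ} (hB : 0 < B) :
    ∫ s in Ioi (1 : ℝ), exp (-(B * s ^ (2 : ℕ))) ≤ exp (-B) / (2 * B) := by
  obtain ⟨h1, h2⟩ := mi_one hB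
  rw [← h2]
  apply setIntegral_mono_on (mi_gint hB).integrableOn h1 measurableSet_Ioi
  intro s hs
  have hs' : (1 : ℝ) < s := hs
  have := Real.exp_pos (-(B * s ^ (2 : ℕ)))
  nlinarith

/-- `∫_{|s| ≥ 1}` of the Gaussian (use `1 ≤ |s|`) -/
theorem int_gtail {B : ℝ} (hB : 0 < B) :
    ∫ s in (Ioo (-1 : ℝ) 1)ᶜ, exp (-(B * s ^ (2 : ℕ))) ≤ exp (-B) / B := by
  have h1 : (Ioo (-1 : ℝ) 1)ᶜ = Iic (-1) ∪ Ici 1 := by
    ext x
    simp only [mem_compl_iff, mem_Ioo, not_and, not_lt, mem_union, mem_Iic, mem_Ici]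
    constructor
    · intro h
      rcases le_or_gt x (-1) with h2 | h2
      · exact Or.inl h2
      · exact Or.inr (h h2)
    · rintro (h | h) h2
      · linarith
      · exact h
  have hdis : Disjoint (Iic (-1 : ℝ)) (Ici 1) := by
    rw [Set.disjoint_left]
    intro x hx hx'
    rw [mem_Iic] at hx
    rw [mem_Ici] at hx'
    linarith
  rw [h1, setIntegral_union hdis measurableSet_Ici (mi_gint hB).integrableOn
    (mi_gint hB).integrableOn, integral_Ici_eq_integral_Ioi]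
  have h2 : ∫ s in Iic (-1 : ℝ), exp (-(B * s ^ (2 : ℕ))) = ∫ s in Ioi (1 : ℝ), exp (-(B * s ^ (2 : ℕ))) := by
    have h := integral_comp_neg_Iic (-1) (fun s : ℝ => exp (-(B * s ^ (2 : ℕ))))
    simp only [neg_neg, even_two, Even.neg_pow] at h
    exact h
  rw [h2]
  have h3 := mi_right hB
  have h4 : exp (-B) / B = exp (-B) / (2 * B) + exp (-B) / (2 * B) := by
    field_simp
    norm_num
  rw [h4]
  linarith

/-- `∫_{1/2}^∞ s³ e^(-μ s²)` -/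
private theorem mi_half {μ : ℝ} (hμ : 0 < μ) :
    ∫ s in Ioi (1 / 2 : ℝ), s ^ (3 : ℕ) * exp (-(μ * s ^ (2 : ℕ))) =
      (μ / 4 + 1) * exp (-(μ / 4)) / (2 * μ ^ (2 : ℕ)) := by
  have hd : ∀ x ∈ Ici (1 / 2 : ℝ), HasDerivAt
      (fun s : ℝ => -((μ * s ^ (2 : ℕ) + 1) * exp (-(μ * s ^ (2 : ℕ))) / (2 * μ ^ (2 : ℕ))))
      (x ^ (3 : ℕ) * exp (-(μ * x ^ (2 : ℕ)))) x := by
    intro x _
    have h1 : HasDerivAt (fun s : ℝ => s ^ (2 : ℕ)) (2 * x) x := by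
      have := hasDerivAt_pow 2 x
      simpa using this
    have h2 : HasDerivAt (fun s : ℝ => μ * s ^ (2 : ℕ) + 1) (μ * (2 * x)) x :=
      (h1.const_mul μ).add_const 1
    have h := ((h2.mul (mi_sq_deriv μ x)).div_const (2 * μ ^ (2 : ℕ))).neg
    refine h.congr_deriv ?_
    field_simp
    ring
  have ht : Filter.Tendsto (fun s : ℝ => -((μ * s ^ (2 : ℕ) + 1) * exp (-(μ * s ^ (2 : ℕ))) / (2 * μ ^ (2 : ℕ))))
      Filter.atTop (nhds 0) := by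
    have h1 : Filter.Tendsto (fun x : ℝ => x ^ (1 : ℕ) * exp (-x)) Filter.atTop (nhds 0) :=
      Real.tendsto_pow_mul_exp_neg_atTop_nhds_zero 1
    have h2 : Filter.Tendsto (fun x : ℝ => (x + 1) * exp (-x)) Filter.atTop (nhds 0) := by
      have := h1.add Real.tendsto_exp_neg_atTop_nhds_zero
      rw [add_zero] at this
      refine this.congr (fun x => ?_)
      ring
    have h3 := ((h2.comp (mi_tend hμ)).div_const (2 * μ ^ (2 : ℕ))).neg
    simpa using h3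
  have hp : ∀ x ∈ Ioi (1 / 2 : ℝ), 0 ≤ x ^ (3 : ℕ) * exp (-(μ * x ^ (2 : ℕ))) := by
    intro x hx
    have hx' : (1 / 2 : ℝ) < x := hx
    have := Real.exp_pos (-(μ * x ^ (2 : ℕ)))
    positivity
  rw [integral_Ioi_of_hasDerivAt_of_nonneg' hd hp ht]
  have : μ * (1 / 2 : ℝ) ^ (2 : ℕ) = μ / 4 := by ring
  simp only [this]
  ring

private theorem mi_exp3 : (22 : ℝ) ≤ exp (3105 / 1000) := by
  have h1 := Real.exp_one_gt_d9
  have h2 : exp (3105 / 1000) = exp 1 ^ (3 : ℕ) * exp (105 / 1000) := by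
    rw [← Real.exp_nat_mul, ← Real.exp_add]
    norm_num
  have h3 : (105 / 1000 : ℝ) + 1 ≤ exp (105 / 1000) := Real.add_one_le_exp _
  have h4 : (2718 / 1000 : ℝ) ^ (3 : ℕ) ≤ exp 1 ^ (3 : ℕ) :=
    pow_le_pow_left₀ (by norm_num) (by linarith) 3
  rw [h2]
  have h5 := mul_le_mul h4 h3 (by norm_num) (pow_nonneg (Real.exp_pos 1).le 3)
  refine le_trans ?_ h5
  norm_num

private theorem mi_z {z : ℝ} (hz : 3105 / 1000 ≤ z) :
    (z + 1) * exp (-z) ≤ 18660 / 100000 := by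
  have h1 : (z - 3105 / 1000) + 1 ≤ exp (z - 3105 / 1000) := Real.add_one_le_exp _
  have h2 : exp z = exp (3105 / 1000) * exp (z - 3105 / 1000) := by
    rw [← Real.exp_add]
    congr 1
    ring
  have h3 := mi_exp3
  rw [Real.exp_neg, ← div_eq_mul_inv, div_le_iff₀ (Real.exp_pos z), h2]
  have h4 : 22 * ((z - 3105 / 1000) + 1) ≤ exp (3105 / 1000) * exp (z - 3105 / 1000) := by
    apply mul_le_mul h3 h1 (by linarith) (by linarith)
  linarith only [hz, h4]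

/-- contribution of `[1/2, ∞)` -/
private theorem mi_far {B : ℝ} (hB : 23 ≤ B) :
    ∫ s in Ioi (1 / 2 : ℝ), s ^ (3 : ℕ) * exp (-(27 / 50 * B * s ^ (2 : ℕ))) ≤
      3200 / 10000 / B ^ (2 : ℕ) := by
  have hB0 : 0 < B := by linarith
  rw [mi_half (by positivity)]
  have h1 := mi_z (z := 27 / 50 * B / 4) (by linarith)
  rw [div_le_div_iff₀ (by positivity) (by positivity)]
  have h2 : 0 < B ^ (2 : ℕ) := by positivity
  nlinarith only [mul_le_mul_of_nonneg_right h1 h2.le]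

private theorem mi_q1 {s : ℝ} (h1 : s ≤ 1 / 2) :
    149 / 200 ≤ 1 - 14 / 25 * s + s ^ (2 : ℕ) / 10 := by
  nlinarith

private theorem mi_q2 {s : ℝ} (h1 : s ≤ 1) :
    27 / 50 ≤ 1 - 14 / 25 * s + s ^ (2 : ℕ) / 10 := by
  nlinarith

private theorem mi_split (k : ℕ) {B c : ℝ} (hB : 0 < B) (hc : 0 ≤ c)
    (hk : ∀ s : ℝ, 1 / 2 ≤ s → s ^ k ≤ c * s ^ (3 : ℕ)) :
    ∫ s in Ioo (0 : ℝ) 1, s ^ k * exp (-(B * ((1 - 14 / 25 * s + s ^ (2 : ℕ) / 10) * s ^ (2 : ℕ)))) ≤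
      (∫ s in Ioi (0 : ℝ), s ^ k * exp (-(149 / 200 * B * s ^ (2 : ℕ)))) +
      c * ∫ s in Ioi (1 / 2 : ℝ), s ^ (3 : ℕ) * exp (-(27 / 50 * B * s ^ (2 : ℕ))) := by
  have hcont : Continuous (fun s : ℝ =>
      s ^ k * exp (-(B * ((1 - 14 / 25 * s + s ^ (2 : ℕ) / 10) * s ^ (2 : ℕ))))) := by fun_prop
  have hint : IntegrableOn (fun s : ℝ =>
      s ^ k * exp (-(B * ((1 - 14 / 25 * s + s ^ (2 : ℕ) / 10) * s ^ (2 : ℕ))))) (Icc 0 1) :=
    hcont.integrableOn_Icc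
  have hint1 : IntegrableOn (fun s : ℝ =>
      s ^ k * exp (-(B * ((1 - 14 / 25 * s + s ^ (2 : ℕ) / 10) * s ^ (2 : ℕ))))) (Ioc 0 (1 / 2)) :=
    hint.mono_set (fun x hx => ⟨hx.1.le, by linarith [hx.2]⟩)
  have hint2 : IntegrableOn (fun s : ℝ =>
      s ^ k * exp (-(B * ((1 - 14 / 25 * s + s ^ (2 : ℕ) / 10) * s ^ (2 : ℕ))))) (Ioo (1 / 2) 1) :=
    hint.mono_set (fun x hx => ⟨by linarith [hx.1], hx.2.le⟩)
  have hU : Ioo (0 : ℝ) 1 = Ioc 0 (1 / 2) ∪ Ioo (1 / 2) 1 :=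
    (Ioc_union_Ioo_eq_Ioo (by norm_num) (by norm_num)).symm
  have hdis : Disjoint (Ioc (0 : ℝ) (1 / 2)) (Ioo (1 / 2) 1) := by
    rw [Set.disjoint_left]
    intro x hx hx'
    exact absurd hx'.1 (not_lt.2 hx.2)
  rw [hU, setIntegral_union hdis measurableSet_Ioo hint1 hint2]
  have hA := mi_ii k (μ := 149 / 200 * B) (by positivity)
  have hBi := mi_ii 3 (μ := 27 / 50 * B) (by positivity)
  have hsub1 : Ioc (0 : ℝ) (1 / 2) ⊆ Ioi 0 := fun x hx => hx.1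
  have hsub2 : Ioo (1 / 2 : ℝ) 1 ⊆ Ioi (1 / 2) := fun x hx => hx.1
  have hsub3 : Ioi (1 / 2 : ℝ) ⊆ Ioi 0 := fun x hx => by
    have hx' : (1 / 2 : ℝ) < x := hx
    show (0 : ℝ) < x
    linarith
  apply add_le_add
  · refine le_trans (setIntegral_mono_on hint1 (hA.mono_set hsub1) measurableSet_Ioc ?_)
      (setIntegral_mono_set hA ?_ (Filter.Eventually.of_forall hsub1))
    · intro s hs
      apply mul_le_mul_of_nonneg_left _ (pow_nonneg hs.1.le k)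
      rw [Real.exp_le_exp, neg_le_neg_iff]
      have h1 := mi_q1 hs.2
      have h2 : 0 ≤ s ^ (2 : ℕ) := sq_nonneg s
      have h3 := mul_le_mul_of_nonneg_right h1 h2
      have h4 := mul_le_mul_of_nonneg_left h3 hB.le
      linarith
    · refine (ae_restrict_iff' measurableSet_Ioi).2 (Filter.Eventually.of_forall ?_)
      intro s hs
      have hs' : (0 : ℝ) < s := hs
      have := Real.exp_pos (-(149 / 200 * B * s ^ (2 : ℕ)))
      show 0 ≤ s ^ k * exp (-(149 / 200 * B * s ^ (2 : ℕ)))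
      positivity
  · rw [← integral_const_mul]
    refine le_trans (setIntegral_mono_on hint2 (((hBi.mono_set hsub3).mono_set hsub2).const_mul c)
      measurableSet_Ioo ?_)
      (setIntegral_mono_set ((hBi.mono_set hsub3).const_mul c) ?_
        (Filter.Eventually.of_forall hsub2))
    · intro s hs
      have hs1 : 1 / 2 < s := hs.1
      rw [← mul_assoc c]
      apply mul_le_mul (hk s hs1.le) _ (Real.exp_pos _).le (by positivity)
      rw [Real.exp_le_exp, neg_le_neg_iff]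
      have h1 := mi_q2 hs.2.le
      have h2 : 0 ≤ s ^ (2 : ℕ) := sq_nonneg s
      have h3 := mul_le_mul_of_nonneg_right h1 h2
      have h4 := mul_le_mul_of_nonneg_left h3 hB.le
      linarith
    · refine (ae_restrict_iff' measurableSet_Ioi).2 (Filter.Eventually.of_forall ?_)
      intro s hs
      have hs' : (1 / 2 : ℝ) < s := hs
      have := Real.exp_pos (-(27 / 50 * B * s ^ (2 : ℕ)))
      show 0 ≤ c * (s ^ (3 : ℕ) * exp (-(27 / 50 * B * s ^ (2 : ℕ))))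
      positivity

/-- Split at `1/2`: exponent `≥ .745 B s²` on `[0, 1/2]`, `≥ .54 B s²` on `[1/2, 1]`, there `s² ≤ 2 s³`;
`∫_{1/2}^∞ s³ e^(-λ B s²) = (z + 1) e^(-z)/(2 λ² B²)`, `z = λ B/4`, and `(z+1) e^(-z)` decreases. -/
theorem left_j2 {B : ℝ} (hB : 23 ≤ B) :
    ∫ s in Ioo (0 : ℝ) 1, s ^ (2 : ℕ) * exp (-(B * ((1 - 14 / 25 * s + s ^ (2 : ℕ) / 10) * s ^ (2 : ℕ)))) ≤
      83 / 100 / (B * √B) := by
  have hB0 : 0 < B := by linarith
  have h1 := mi_split 2 (B := B) (c := 2) hB0 (by norm_num) (by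
    intro s hs
    have : 0 ≤ s ^ (2 : ℕ) := sq_nonneg s
    nlinarith only [hs])
  have h2 := mi_far hB
  rw [int_m2 (by positivity)] at h1
  have hS : 0 < √B := Real.sqrt_pos.2 hB0
  have hSS : √B * √B = B := Real.mul_self_sqrt hB0.le
  have hS1 : 479 / 100 ≤ √B := by
    apply Real.le_sqrt_of_sq_le
    norm_num
    linarith
  have h3 : √(π / (149 / 200 * B)) ≤ 2054 / 1000 / √B := by
    rw [Real.sqrt_le_left (by positivity), div_pow, Real.sq_sqrt hB0.le, div_le_div_iff₀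
      (by positivity) hB0]
    have := Real.pi_lt_d4
    nlinarith only [hSS, this]
  have h4 : √(π / (149 / 200 * B)) / (4 * (149 / 200 * B)) ≤ 690 / 1000 / (B * √B) := by
    have h5 : √(π / (149 / 200 * B)) / (4 * (149 / 200 * B)) ≤
        2054 / 1000 / √B / (4 * (149 / 200 * B)) := by
      apply div_le_div_of_nonneg_right h3 (by positivity)
    refine le_trans h5 ?_
    rw [div_div, div_le_div_iff₀ (by positivity) (by positivity)]
    have : 0 < B * √B := by positivity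
    linarith only [this]
  have h6 : 3200 / 10000 / B ^ (2 : ℕ) ≤ 67 / 1000 / (B * √B) := by
    rw [div_le_div_iff₀ (by positivity) (by positivity)]
    have h7 : B ^ (2 : ℕ) = (B * √B) * √B := by
      rw [mul_assoc, hSS]
      ring
    rw [h7]
    have : 0 < B * √B := by positivity
    nlinarith only [hS1, this]
  have h8 : 83 / 100 / (B * √B) = 690 / 1000 / (B * √B) + 2 * (67 / 1000 / (B * √B)) +
      6 / 1000 / (B * √B) := by ring
  have h9 : 0 ≤ 6 / 1000 / (B * √B) := by positivity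
  rw [h8]
  linarith

theorem left_j3 {B : ℝ} (hB : 23 ≤ B) :
    ∫ s in Ioo (0 : ℝ) 1, s ^ (3 : ℕ) * exp (-(B * ((1 - 14 / 25 * s + s ^ (2 : ℕ) / 10) * s ^ (2 : ℕ)))) ≤
      123 / 100 / B ^ (2 : ℕ) := by
  have hB0 : 0 < B := by linarith
  have h1 := mi_split 3 (B := B) (c := 1) hB0 (by norm_num) (by
    intro s hs
    linarith)
  have h2 := mi_far hB
  rw [int_m3 (by positivity)] at h1
  have h3 : 1 / (2 * (149 / 200 * B) ^ (2 : ℕ)) ≤ 901 / 1000 / B ^ (2 : ℕ) := by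
    rw [div_le_div_iff₀ (by positivity) (by positivity)]
    have : 0 < B ^ (2 : ℕ) := by positivity
    nlinarith only []
  have h8 : 123 / 100 / B ^ (2 : ℕ) = 901 / 1000 / B ^ (2 : ℕ) + 3200 / 10000 / B ^ (2 : ℕ) +
      9 / 1000 / B ^ (2 : ℕ) := by ring
  have h9 : 0 ≤ 9 / 1000 / B ^ (2 : ℕ) := by positivity
  rw [h8]
  linarith

end SokamF1B

end

/-! ### Lib_MP_af4de1_f1.N1T -/

section
/-!
# N = 1, large `rho`: elementary inequalities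

`1 - cos y = 2 sin²(y/2)`, `sin x ≥ x - x³/6` (so `1 - cos y ≥ (y²/2)(1 - y²/24)²`, decreasing factor):
at `y = 2`: .3472, at `8/5`: .39902, at `π/2`: .4024.
-/

set_option autoImplicit false

namespace SokamN1

open Complex Set MeasureTheory

private theorem one_sub_cos_aux {y c k : ℝ} (hy : |y| ≤ c) (hc : c ^ (2 : ℕ) / 24 ≤ 1)
    (hk : k ≤ (1 - c ^ (2 : ℕ) / 24) ^ (2 : ℕ) / 2) : k * y ^ (2 : ℕ) ≤ 1 - Real.cos y := by
  set t : ℝ := |y| / 2 with ht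
  have ht0 : 0 ≤ t := by (clear * -; positivity)
  have h1 : t - t ^ (3 : ℕ) / 6 ≤ Real.sin t := Real.sin_ge_sub_cube ht0
  have hy2 : |y| ^ (2 : ℕ) = y ^ (2 : ℕ) := sq_abs y
  have h2 : t * (1 - c ^ (2 : ℕ) / 24) ≤ Real.sin t := by
    refine le_trans ?_ h1
    have h3 : |y| ^ (2 : ℕ) ≤ c ^ (2 : ℕ) := pow_le_pow_left₀ (abs_nonneg y) hy 2
    have h4 : t ^ (2 : ℕ) = |y| ^ (2 : ℕ) / 4 := by rw [ht]; ring
    have h5 : t - t ^ (3 : ℕ) / 6 = t * (1 - t ^ (2 : ℕ) / 6) := by ring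
    rw [h5]
    apply mul_le_mul_of_nonneg_left _ ht0
    linarith only [h3, h4]
  have h3 : 0 ≤ t * (1 - c ^ (2 : ℕ) / 24) := mul_nonneg ht0 (by linarith only [hc])
  have h4 : (t * (1 - c ^ (2 : ℕ) / 24)) ^ (2 : ℕ) ≤ Real.sin t ^ (2 : ℕ) := pow_le_pow_left₀ h3 h2 2
  have h5 : Real.cos y = 1 - 2 * Real.sin t ^ (2 : ℕ) := by
    have h6 : Real.cos y = Real.cos (2 * t) := by
      rw [ht, mul_div_cancel₀ _ (two_ne_zero), Real.cos_abs]
    rw [h6, Real.cos_two_mul, Real.cos_sq']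
    ring
  rw [h5]
  have h6 : t ^ (2 : ℕ) = y ^ (2 : ℕ) / 4 := by rw [ht, div_pow, hy2]; ring
  have h7 : (t * (1 - c ^ (2 : ℕ) / 24)) ^ (2 : ℕ) = y ^ (2 : ℕ) / 4 * (1 - c ^ (2 : ℕ) / 24) ^ (2 : ℕ) := by
    rw [mul_pow, h6]
  rw [h7] at h4
  have h8 : k * y ^ (2 : ℕ) ≤ (1 - c ^ (2 : ℕ) / 24) ^ (2 : ℕ) / 2 * y ^ (2 : ℕ) :=
    mul_le_mul_of_nonneg_right hk (sq_nonneg y)
  linarith only [h4, h8]

theorem one_sub_cos_two {y : ℝ} (hy : |y| ≤ 2) : 347 / 1000 * y ^ (2 : ℕ) ≤ 1 - Real.cos y :=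
  one_sub_cos_aux hy (by norm_num) (by norm_num)

theorem one_sub_cos_85 {y : ℝ} (hy : |y| ≤ 8 / 5) : 399 / 1000 * y ^ (2 : ℕ) ≤ 1 - Real.cos y :=
  one_sub_cos_aux hy (by norm_num) (by norm_num)

theorem one_sub_cos_half {y : ℝ} (hy : |y| ≤ Real.pi / 2) : 2 / 5 * y ^ (2 : ℕ) ≤ 1 - Real.cos y := by
  have hpi := Real.pi_lt_d2
  have h : |y| ≤ 1.575 := by linarith only [hy, hpi]
  exact one_sub_cos_aux h (by norm_num) (by norm_num)

/-- `cos 2 = 1 - 2 sin² 1`, `sin 1 ≥ 5/6`. -/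
theorem cos_two_le : Real.cos 2 ≤ -(38 / 100) := by
  have h := one_sub_cos_two (y := 2) (by norm_num)
  norm_num at h
  linarith only [h]

theorem sub_sin_le {y : ℝ} (hy : 0 ≤ y) : y - Real.sin y ≤ y ^ (3 : ℕ) / 6 := by
  have := Real.sin_ge_sub_cube hy
  linarith only [this]

/-- `8/5 > π/2` -/
theorem cos_85 : Real.cos (8 / 5) ≤ 0 := by
  have h1 := Real.pi_lt_d2
  have h2 := Real.pi_gt_d2
  apply Real.cos_nonpos_of_pi_div_two_le_of_le
  · linarith only [h1]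
  · linarith only [h2]

theorem sin_85 : 99 / 100 ≤ Real.sin (8 / 5) := by
  have h1 := Real.pi_lt_d2
  have h2 := Real.pi_gt_d2
  have h3 : Real.sin (8 / 5) = Real.cos (8 / 5 - Real.pi / 2) := by
    rw [Real.cos_sub_pi_div_two]
  rw [h3]
  have h4 := Real.one_sub_sq_div_two_le_cos (x := 8 / 5 - Real.pi / 2)
  nlinarith only [h1, h2, h4]

private theorem exp_le_four {b : ℝ} (hb : 0 ≤ b) (hb1 : b ≤ 1) :
    Real.exp b ≤ 1 + b + b ^ (2 : ℕ) / 2 + b ^ (3 : ℕ) / 6 + 5 / 96 * b ^ (4 : ℕ) := by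
  have h := Real.exp_bound' hb hb1 (n := 4) (by norm_num)
  simp only [Finset.sum_range_succ, Finset.sum_range_zero, Nat.factorial] at h
  norm_num at h
  linarith only [h]

private theorem exp_le_five {b : ℝ} (hb : 0 ≤ b) (hb1 : b ≤ 1) :
    Real.exp b ≤ 1 + b + b ^ (2 : ℕ) / 2 + b ^ (3 : ℕ) / 6 + b ^ (4 : ℕ) / 24 + b ^ (5 : ℕ) / 100 := by
  have h := Real.exp_bound' hb hb1 (n := 5) (by norm_num)
  simp only [Finset.sum_range_succ, Finset.sum_range_zero, Nat.factorial] at h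
  norm_num at h
  linarith only [h]

theorem exp_58 : Real.exp (5 / 8) ≤ 187 / 100 := by
  have h := exp_le_five (b := 5 / 8) (by norm_num) (by norm_num)
  norm_num at h
  linarith only [h]

/-- true: `.6226` -/
theorem exp_sub_A {b : ℝ} (hb : 0 ≤ b) (hb2 : b ≤ 5 / 8) : Real.exp b - 1 - b ≤ 5 / 8 * b ^ (2 : ℕ) := by
  have h := exp_le_four hb (by linarith only [hb2])
  have h2 : 0 ≤ b ^ (2 : ℕ) := sq_nonneg b
  have h3 : b / 6 + 5 / 96 * b ^ (2 : ℕ) ≤ 1 / 8 := by nlinarith only [hb, hb2]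
  linarith only [h, mul_le_mul_of_nonneg_left h3 h2]

/-- true: `.5711` -/
theorem exp_sub_C {b : ℝ} (hb : 0 ≤ b) (hb2 : b ≤ 5 / 13) : Real.exp b - 1 - b ≤ 575 / 1000 * b ^ (2 : ℕ) := by
  have h := exp_le_four hb (by linarith only [hb2])
  have h2 : 0 ≤ b ^ (2 : ℕ) := sq_nonneg b
  have h3 : b / 6 + 5 / 96 * b ^ (2 : ℕ) ≤ 75 / 1000 := by nlinarith only [hb, hb2]
  linarith only [h, mul_le_mul_of_nonneg_left h3 h2]

/-- `e^(-b) - 1 + b ≤ b²/2` -/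
theorem exp_neg_sub {b : ℝ} (hb : 0 ≤ b) : Real.exp (-b) - 1 + b ≤ b ^ (2 : ℕ) / 2 := by
  have h1 := Real.quadratic_le_exp_of_nonneg hb
  have h2 : 0 < 1 + b + b ^ (2 : ℕ) / 2 := by positivity
  have h3 : Real.exp (-b) ≤ 1 / (1 + b + b ^ (2 : ℕ) / 2) := by
    rw [Real.exp_neg, ← one_div]
    exact one_div_le_one_div_of_le h2 h1
  have h4 : 1 / (1 + b + b ^ (2 : ℕ) / 2) ≤ 1 - b + b ^ (2 : ℕ) / 2 := by
    rw [div_le_iff₀ h2]
    have h5 : (1 - b + b ^ (2 : ℕ) / 2) * (1 + b + b ^ (2 : ℕ) / 2) = 1 + (b ^ (2 : ℕ)) ^ (2 : ℕ) / 4 := by ring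
    rw [h5]
    have := sq_nonneg (b ^ (2 : ℕ))
    linarith only [this]
  linarith only [h3, h4]

/-- true: `1.3702`; convexity of `exp` on `[0, 3/5]` and `exp (3/5) ≤ 1.8222`. -/
theorem exp_le_lin {a : ℝ} (ha : 0 ≤ a) (ha2 : a ≤ 3 / 5) : Real.exp a - 1 ≤ 1371 / 1000 * a := by
  have h := exp_le_five ha (by linarith only [ha2])
  have h2 : a ^ (2 : ℕ) ≤ (3 / 5) ^ (2 : ℕ) := pow_le_pow_left₀ ha ha2 2
  have h3 : a ^ (3 : ℕ) ≤ (3 / 5) ^ (3 : ℕ) := pow_le_pow_left₀ ha ha2 3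
  have h4 : a ^ (4 : ℕ) ≤ (3 / 5) ^ (4 : ℕ) := pow_le_pow_left₀ ha ha2 4
  norm_num at h2 h3 h4
  have h5 : 1 + a / 2 + a ^ (2 : ℕ) / 6 + a ^ (3 : ℕ) / 24 + a ^ (4 : ℕ) / 100 ≤ 1371 / 1000 := by linarith only [ha2, h2, h3, h4]
  have h6 := mul_le_mul_of_nonneg_left h5 ha
  have h7 : a * (1 + a / 2 + a ^ (2 : ℕ) / 6 + a ^ (3 : ℕ) / 24 + a ^ (4 : ℕ) / 100) =
      a + a ^ (2 : ℕ) / 2 + a ^ (3 : ℕ) / 6 + a ^ (4 : ℕ) / 24 + a ^ (5 : ℕ) / 100 := by ring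
  rw [h7] at h6
  linarith only [h, h6]

end SokamN1

end

/-! ### Lib_MP_af4de1_ti.Defs -/

section
/-!
# The tip: the exponent and the two saddle integrals

`Ev δ h v = (i/δ)(v²/2 - h g(v))`, `g v = e^v - 1 - v`.
`JLw w δ h`: the horizontal line with weight `w`; `JRw w δ h x`: from `+∞` along the horizontal line through
`2 x e^{-iπ/3}`, then straight to `0`, then up the imaginary axis.
-/

set_option autoImplicit false

namespace SokamTI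

open Complex MeasureTheory Set

/-- `g(v) = e^v - 1 - v` -/
noncomputable def gg (v : ℂ) : ℂ := cexp v - 1 - v

/-- the exponent -/
noncomputable def Ev (δ : ℝ) (h v : ℂ) : ℂ := I / δ * (v ^ (2 : ℕ) / 2 - h * gg v)

/-- its quadratic part -/
noncomputable def Ev2 (δ : ℝ) (h v : ℂ) : ℂ := I / δ * ((1 - h) * (v ^ (2 : ℕ) / 2))

/-- `e^{-iπ/3}` -/
noncomputable def et : ℂ := cexp (-((Real.pi / 3 : ℝ) * I))

/-- the left integral with a weight -/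
noncomputable def JLw (w : ℂ → ℂ) (δ : ℝ) (h : ℂ) : ℂ := ∫ u : ℝ, w u * cexp (Ev δ h u)

/-- the right integral with a weight -/
noncomputable def JRw (w : ℂ → ℂ) (δ : ℝ) (h : ℂ) (x : ℝ) : ℂ :=
  I * (∫ y in Ioi (0 : ℝ), w (I * y) * cexp (Ev δ h (I * y))) -
    et * (∫ t in (0 : ℝ)..(2 * x), w (t * et) * cexp (Ev δ h (t * et))) -
    ∫ u in Ioi (0 : ℝ), w (2 * x * et + u) * cexp (Ev δ h (2 * x * et + u))

noncomputable def JL (δ : ℝ) (h : ℂ) : ℂ := JLw (fun _ => 1) δ h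
noncomputable def JL1 (δ : ℝ) (h : ℂ) : ℂ := JLw id δ h
noncomputable def JR (δ : ℝ) (h : ℂ) : ℂ := JRw (fun _ => 1) δ h (arg h)
noncomputable def JR1 (δ : ℝ) (h : ℂ) : ℂ := JRw id δ h (arg h)

/-- the Gauss integral at the left saddle, `(2πδ/(s - i(1-a)))^{1/2}`, `h = a - i s` -/
noncomputable def jL (δ : ℝ) (h : ℂ) : ℂ := (2 * Real.pi * δ / (-(I * (1 - h)))) ^ (1 / 2 : ℂ)

/-- the Gauss integral at the right saddle, `i (2πδ/(s - i(a-1)))^{1/2}`, `h = a + i s` -/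
noncomputable def jR (δ : ℝ) (h : ℂ) : ℂ := I * (2 * Real.pi * δ / (I * (1 - h))) ^ (1 / 2 : ℂ)

end SokamTI

end

/-! ### Lib_MP_af4de1_ti.Bounds -/

section
/-!
# The tip: closed form bounds for the two saddle integrals

`relL h δ` (relative error of `jL`), `bL h δ` (bound of `|mean of v|`), the same for the right saddle.
`h = a - i s` (left), `h = a + i s` (right), `m = ‖1 - h‖`, `xl = s/‖h‖ = sin (arg h)`, `qp = (√3/4)(a-1) + s/4`,
`tf` is an upper bound of `exp(-4 qp x²/δ)`, `x = arg h`.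
All functions increase in `δ` (as long as `relL, relR < 1`).
-/

set_option autoImplicit false

namespace SokamTI

noncomputable def relL (h : ℂ) (δ : ℝ) : ℝ := 599 / 1000 * ‖h‖ * √(‖1 - h‖ * δ) / h.im ^ (2 : ℕ)

noncomputable def bL (h : ℂ) (δ : ℝ) : ℝ :=
  ‖h‖ / √‖1 - h‖ * (δ / (2 * (-h.im * √(-h.im))) + 399 / 1000 * (δ * √δ) / h.im ^ (2 : ℕ)) / (1 - relL h δ)

noncomputable def qp (h : ℂ) : ℝ := √3 / 4 * (h.re - 1) + h.im / 4

noncomputable def xl (h : ℂ) : ℝ := h.im / ‖h‖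

/-- upper bound of `exp(-4 qp x²/δ)` -/
noncomputable def tf (h : ℂ) (δ : ℝ) : ℝ := 47 / 10 * (δ / (4 * qp h * xl h ^ (2 : ℕ))) ^ (4 : ℕ)

noncomputable def relR (h : ℂ) (δ : ℝ) : ℝ :=
  399 / 1000 * ‖h‖ * √(‖1 - h‖ * δ) *
      (100 / (243 * h.im ^ (2 : ℕ)) + (1 + 27 / 100 * √(δ / qp h)) / (12 * qp h ^ (2 : ℕ))) +
    tf h δ * √‖1 - h‖ * (3 / 5 / √(xl h) + 1 / 10 * √δ / (qp h * xl h))

noncomputable def bR (h : ℂ) (δ : ℝ) : ℝ :=
  (‖h‖ / √‖1 - h‖ * (59 / 200 * δ / (h.im * √h.im) +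
      177 / 2000 * δ * (1 + 3 / 10 * √(δ / qp h)) / (qp h * √(qp h))) +
    tf h δ * (2 / 5 * √δ / √‖1 - h‖ + 27 / 20 * √‖1 - h‖ * √(xl h) +
      11 / 20 * √‖1 - h‖ * √δ / xl h)) / (1 - relR h δ)

end SokamTI

end

/-! ### Lib_MP_af4de1_ti.Common -/

section
/-!
# The tip: common facts about `Ev`, `Ev2`
-/

set_option autoImplicit false

namespace SokamTI

open Complex MeasureTheory Set Filter Topology

/-- the height `-δ Re Ev` -/
noncomputable def ht (h v : ℂ) : ℝ := (v ^ (2 : ℕ) / 2 - h * gg v).im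

theorem norm_exp_Ev {δ : ℝ} (hδ : 0 < δ) (h v : ℂ) :
    ‖cexp (Ev δ h v)‖ = Real.exp (-(ht h v / δ)) := by
  rw [Complex.norm_exp]
  congr 1
  unfold Ev ht
  have e : I / (δ : ℂ) * (v ^ (2 : ℕ) / 2 - h * gg v) = ((1 / δ : ℝ) : ℂ) * (I * (v ^ (2 : ℕ) / 2 - h * gg v)) := by
    push_cast
    have : (δ : ℂ) ≠ 0 := by exact_mod_cast hδ.ne'
    field_simp
  rw [e, Complex.re_ofReal_mul, Complex.mul_re, Complex.I_re, Complex.I_im]
  ring

theorem norm_exp_Ev2 {δ : ℝ} (hδ : 0 < δ) (h v : ℂ) :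
    ‖cexp (Ev2 δ h v)‖ = Real.exp (-(((1 - h) * (v ^ (2 : ℕ) / 2)).im / δ)) := by
  rw [Complex.norm_exp]
  congr 1
  unfold Ev2
  have e : I / (δ : ℂ) * ((1 - h) * (v ^ (2 : ℕ) / 2)) = ((1 / δ : ℝ) : ℂ) * (I * ((1 - h) * (v ^ (2 : ℕ) / 2))) := by
    push_cast
    have : (δ : ℂ) ≠ 0 := by exact_mod_cast hδ.ne'
    field_simp
  rw [e, Complex.re_ofReal_mul, Complex.mul_re, Complex.I_re, Complex.I_im]
  ring

/-- the difference of the exponents -/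
theorem Ev_sub_Ev2 (δ : ℝ) (h v : ℂ) : Ev δ h v - Ev2 δ h v = -(I / δ * h * (gg v - v ^ (2 : ℕ) / 2)) := by
  unfold Ev Ev2
  ring

theorem norm_Ev_sub_Ev2 {δ : ℝ} (hδ : 0 < δ) (h v : ℂ) :
    ‖Ev δ h v - Ev2 δ h v‖ = ‖h‖ / δ * ‖gg v - v ^ (2 : ℕ) / 2‖ := by
  rw [Ev_sub_Ev2, norm_neg, norm_mul, norm_mul, norm_div, Complex.norm_I, Complex.norm_real,
    Real.norm_eq_abs, abs_of_pos hδ]
  ring

/-- `|e^z - e^w| ≤ |z - w| max(|e^z|, |e^w|)` -/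
theorem norm_exp_sub_exp_le (z w : ℂ) {M : ℝ} (hz : ‖cexp z‖ ≤ M) (hw : ‖cexp w‖ ≤ M) :
    ‖cexp z - cexp w‖ ≤ ‖z - w‖ * M := by
  have hseg : ∀ y ∈ segment ℝ w z, ‖cexp y‖ ≤ M := by
    intro y hy
    obtain ⟨a, b, ha, hb, hab, rfl⟩ := hy
    rw [Complex.norm_exp] at hz hw ⊢
    have hM : 0 < M := (Real.exp_pos _).trans_le hz
    have h1 : z.re ≤ Real.log M := (Real.le_log_iff_exp_le hM).2 hz
    have h2 : w.re ≤ Real.log M := (Real.le_log_iff_exp_le hM).2 hw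
    rw [← Real.exp_log hM]
    apply Real.exp_le_exp.2
    have : (a • w + b • z).re = a * w.re + b * z.re := by
      simp [Complex.add_re]
    rw [this]
    calc a * w.re + b * z.re ≤ a * Real.log M + b * Real.log M :=
          add_le_add (mul_le_mul_of_nonneg_left h2 ha) (mul_le_mul_of_nonneg_left h1 hb)
      _ = Real.log M := by rw [← add_mul, hab, one_mul]
  have h3 := Convex.norm_image_sub_le_of_norm_hasDerivWithin_le (𝕜 := ℂ) (f := cexp) (f' := cexp) (C := M)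
    (s := segment ℝ w z) (x := w) (y := z)
    (fun y _ => (Complex.hasDerivAt_exp y).hasDerivWithinAt) hseg (convex_segment w z)
    (left_mem_segment ℝ w z) (right_mem_segment ℝ w z)
  rw [mul_comm]
  exact h3

theorem continuous_gg : Continuous gg := by
  unfold gg
  fun_prop

theorem continuous_Ev (δ : ℝ) (h : ℂ) : Continuous (Ev δ h) := by
  unfold Ev
  have := continuous_gg
  fun_prop

theorem continuous_Ev2 (δ : ℝ) (h : ℂ) : Continuous (Ev2 δ h) := by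
  unfold Ev2
  fun_prop

theorem hasDerivAt_gg (v : ℂ) : HasDerivAt gg (cexp v - 1) v := by
  unfold gg
  exact ((Complex.hasDerivAt_exp v).sub_const 1).sub (hasDerivAt_id v)

/-- `Ev' = (i/δ)((1-h) v - h g(v))` -/
theorem hasDerivAt_Ev (δ : ℝ) (h v : ℂ) :
    HasDerivAt (Ev δ h) (I / δ * ((1 - h) * v - h * gg v)) v := by
  have h1 : HasDerivAt (fun v : ℂ => v ^ (2 : ℕ) / 2) v v := by
    have := (hasDerivAt_pow 2 v).div_const 2
    simpa using this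
  have h2 := (h1.sub ((hasDerivAt_gg v).const_mul h)).const_mul (I / (δ : ℂ))
  have e : I / (δ : ℂ) * (v - h * (cexp v - 1)) = I / δ * ((1 - h) * v - h * gg v) := by
    unfold gg
    ring
  rw [e] at h2
  exact h2

theorem etq_re : et.re = 1 / 2 := by
  unfold et
  rw [← neg_mul, ← Complex.ofReal_neg, Complex.exp_ofReal_mul_I_re, Real.cos_neg, Real.cos_pi_div_three]

theorem etq_im : et.im = -(√3 / 2) := by
  unfold et
  rw [← neg_mul, ← Complex.ofReal_neg, Complex.exp_ofReal_mul_I_im, Real.sin_neg, Real.sin_pi_div_three]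

theorem norm_et : ‖et‖ = 1 := by
  unfold et
  rw [← neg_mul, ← Complex.ofReal_neg, Complex.norm_exp_ofReal_mul_I]

end SokamTI

end

/-! ### Lib_MP_af4de1_ti.R1 -/

section
/-!
# Right saddle, the slope `v = t e^{-iπ/3}`, `0 ≤ t ≤ 5/2` [TI-R1]

`r = √3/2`, `h = a + i s`.  `e^{t e^{-iπ/3}} = e^{t/2}(cos rt - i sin rt)`.
`ht h v = -(√3/4)t² + a (e^{t/2} sin rt - rt) + s (1 + t/2 - e^{t/2} cos rt)`, so `ht - qp t² = a A + s S`,
`A = e^{t/2} sin rt - rt - r t²/2`, `S = 1 + t/2 - e^{t/2} cos rt - t²/4`.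
Power series (`Complex.exp_bound'` with 9 or 10 terms at `t e^{iπ/3}`, `|z| ≤ 5/2`): `A = r(-t⁴/24 - t⁵/120 + t⁷/5040 + t⁸/40320) + ..`,
`S = t³/6 - t⁴/48 ... ` (coefficients: `e^{t/2} cos rt = ∑ t^n cos(nπ/3)/n!`, `e^{t/2} sin rt = ∑ t^n sin(nπ/3)/n!`).  Known: `S ≥ t³/6 - t⁶/480`,
`A ≥ -r(t⁴/24 + t⁵/120)` on `[0, 5/2]` (both with room at `t = 5/2`), and `s ≥ a t/2`, so
`a A + s S ≥ a t⁴ (1/12 - t³/960 - r/24 - r t/120) ≥ 0` for `t ≤ 5/2` (value `.0129` at `5/2`).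
`S`: from `e^{-t} + 2 e^{t/2} cos rt = 3 ∑ (-t)^{3k}/(3k)!`: `S = (e^{-t} - 1 + t - t²/2)/2 + t³/4 - t⁶/480 + ..`.
`slope_gg`: `gg v = v² ∫_0^1 (1-τ) e^{τv} dτ`, `Re v = t/2`: `‖gg v‖ ≤ 4(e^{t/2} - 1 - t/2) ≤ (t²/2)(1 + t/4)`;
`slope_g3`: `gg v - v²/2 = v³ ∫ (1-τ)²/2 e^{τv}`: `≤ 8(e^{t/2} - 1 - t/2 - t²/8) ≤ (t³/6)(1 + t/5)` (`t ≤ 5/2`); in Lean e.g. by the mean value
inequality applied three times, or termwise.
-/

set_option autoImplicit false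

namespace SokamTI

open Complex

private theorem r1a_et_sq : et ^ (2 : ℕ) = et - 1 := by
  have h3 : √3 * √3 = 3 := Real.mul_self_sqrt (by norm_num)
  apply Complex.ext
  · rw [pow_two, Complex.mul_re, Complex.sub_re, etq_re, etq_im, Complex.one_re]
    linarith only [h3]
  · rw [pow_two, Complex.mul_im, Complex.sub_im, etq_re, etq_im, Complex.one_im]
    ring

theorem slope_quad (h : ℂ) (t : ℝ) : ((1 - h) * ((t * et) ^ (2 : ℕ) / 2)).im = qp h * t ^ (2 : ℕ) := by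
  have e : (1 - h) * ((t * et) ^ (2 : ℕ) / 2) = ((t ^ (2 : ℕ) / 2 : ℝ) : ℂ) * ((1 - h) * (et - 1)) := by
    rw [mul_pow, r1a_et_sq]
    push_cast
    ring
  rw [e, Complex.im_ofReal_mul, Complex.mul_im, Complex.sub_re, Complex.sub_im, Complex.sub_re,
    Complex.sub_im, etq_re, etq_im, Complex.one_re, Complex.one_im]
  unfold qp
  ring

/-- Taylor expansion of `gg` -/
private theorem r1a_taylor {t : ℝ} (h0 : 0 ≤ t) (h1 : t ≤ 5 / 2) : ∃ R : ℂ, ‖R‖ ≤ t ^ (7 : ℕ) / 2520 ∧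
    (gg (t * et)).re = -(t ^ (2 : ℕ) / 4) - t ^ (3 : ℕ) / 6 - t ^ (4 : ℕ) / 48 + t ^ (5 : ℕ) / 240 + t ^ (6 : ℕ) / 720 + R.re ∧
    (gg (t * et)).im = -(√3 / 2 * t ^ (2 : ℕ) / 2) + √3 / 2 * t ^ (4 : ℕ) / 24 + √3 / 2 * t ^ (5 : ℕ) / 120 + R.im := by
  have hn : ‖(t : ℂ) * et‖ = t := by
    rw [norm_mul, norm_et, mul_one, Complex.norm_real, Real.norm_eq_abs, abs_of_nonneg h0]
  have h2 := Complex.exp_bound' (x := (t : ℂ) * et) (n := 7) (by rw [hn]; norm_num; linarith only [h1])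
  rw [hn] at h2
  have e3 : et ^ (3 : ℕ) = -1 := by
    linear_combination (et + 1) * r1a_et_sq
  have e4 : et ^ (4 : ℕ) = -et := by
    linear_combination et * e3
  have e5 : et ^ (5 : ℕ) = 1 - et := by
    linear_combination et ^ (2 : ℕ) * e3 - r1a_et_sq
  have e6 : et ^ (6 : ℕ) = 1 := by
    linear_combination (et ^ (3 : ℕ) - 1) * e3
  have hsum : ∑ m ∈ Finset.range 7, ((t : ℂ) * et) ^ m / (m.factorial : ℂ) =
      1 + t * et + ((t ^ (2 : ℕ) / 2 : ℝ) : ℂ) * (et - 1) - ((t ^ (3 : ℕ) / 6 : ℝ) : ℂ) -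
        ((t ^ (4 : ℕ) / 24 : ℝ) : ℂ) * et + ((t ^ (5 : ℕ) / 120 : ℝ) : ℂ) * (1 - et) +
        ((t ^ (6 : ℕ) / 720 : ℝ) : ℂ) := by
    simp only [Finset.sum_range_succ, Finset.sum_range_zero, mul_pow, r1a_et_sq, e3, e4, e5, e6,
      Nat.factorial]
    push_cast
    ring
  refine ⟨cexp ((t : ℂ) * et) - ∑ m ∈ Finset.range 7, ((t : ℂ) * et) ^ m / (m.factorial : ℂ),
    ?_, ?_, ?_⟩
  · refine h2.trans (le_of_eq ?_)
    norm_num [Nat.factorial]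
    ring
  · rw [hsum]
    unfold gg
    simp only [Complex.add_re, Complex.sub_re, Complex.re_ofReal_mul, Complex.ofReal_re,
      Complex.one_re, etq_re]
    ring
  · rw [hsum]
    unfold gg
    simp only [Complex.add_im, Complex.sub_im, Complex.im_ofReal_mul, Complex.ofReal_im,
      Complex.one_im, etq_im]
    ring

theorem slope_height {h : ℂ} {t : ℝ} (h0 : 0 ≤ t) (h1 : t ≤ 5 / 2) (ha : 0 ≤ h.re)
    (hs : h.re * t / 2 ≤ h.im) : qp h * t ^ (2 : ℕ) ≤ ht h (t * et) := by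
  obtain ⟨R, hR, hre, him⟩ := r1a_taylor h0 h1
  have hR1 : R.re ≤ t ^ (7 : ℕ) / 2520 := (Complex.re_le_norm R).trans hR
  have hR2 : R.im ≤ t ^ (7 : ℕ) / 2520 := (Complex.im_le_norm R).trans hR
  have hr : √3 / 2 ≤ 867 / 1000 := by
    have : √3 ≤ 1734 / 1000 := Real.sqrt_le_iff.2 ⟨by norm_num, by norm_num⟩
    linarith only [this]
  have hr0 : 0 ≤ √3 / 2 := by positivity
  have hq : ((t * et) ^ (2 : ℕ) / 2 : ℂ).im = -(√3 / 2 * t ^ (2 : ℕ) / 2) := by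
    have e : ((t * et) ^ (2 : ℕ) / 2 : ℂ) = ((t ^ (2 : ℕ) / 2 : ℝ) : ℂ) * (et - 1) := by
      rw [mul_pow, r1a_et_sq]
      push_cast
      ring
    rw [e, Complex.im_ofReal_mul, Complex.sub_im, etq_im, Complex.one_im]
    ring
  have hht : ht h (t * et) - qp h * t ^ (2 : ℕ) =
      h.re * (-(√3 / 2 * t ^ (4 : ℕ) / 24) - √3 / 2 * t ^ (5 : ℕ) / 120 - R.im) +
        h.im * (t ^ (3 : ℕ) / 6 + t ^ (4 : ℕ) / 48 - t ^ (5 : ℕ) / 240 - t ^ (6 : ℕ) / 720 - R.re) := by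
    unfold ht qp
    rw [Complex.sub_im, hq, Complex.mul_im, hre, him]
    ring
  generalize √3 / 2 = r at hr hr0 hht
  have ht2 : t ^ (2 : ℕ) ≤ (5 / 2) ^ (2 : ℕ) := pow_le_pow_left₀ h0 h1 2
  have ht3 : t ^ (3 : ℕ) ≤ (5 / 2) ^ (3 : ℕ) := pow_le_pow_left₀ h0 h1 3
  have ht4 : t ^ (4 : ℕ) ≤ (5 / 2) ^ (4 : ℕ) := pow_le_pow_left₀ h0 h1 4
  -- lower bound of the coefficient of `s`
  have hS : 0 ≤ t ^ (3 : ℕ) / 6 + t ^ (4 : ℕ) / 48 - t ^ (5 : ℕ) / 240 - t ^ (6 : ℕ) / 720 - R.re := by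
    have h3 : 0 ≤ t ^ (3 : ℕ) * (1 / 6 + t / 48 - t ^ (2 : ℕ) / 240 - t ^ (3 : ℕ) / 720 - t ^ (4 : ℕ) / 2520) := by
      refine mul_nonneg (by positivity) ?_
      norm_num at ht2 ht3 ht4
      linarith only [h0, ht2, ht3, ht4]
    linarith only [h3, hR1]
  -- the sum
  have hsum : 0 ≤ (-(r * t ^ (4 : ℕ) / 24) - r * t ^ (5 : ℕ) / 120 - R.im) +
      t / 2 * (t ^ (3 : ℕ) / 6 + t ^ (4 : ℕ) / 48 - t ^ (5 : ℕ) / 240 - t ^ (6 : ℕ) / 720 - R.re) := by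
    have h3 : 0 ≤ t ^ (4 : ℕ) * (1 / 12 + t / 96 - t ^ (2 : ℕ) / 480 - t ^ (3 : ℕ) / 1440 - t ^ (4 : ℕ) / 5040 -
        867 / 1000 / 24 - 867 / 1000 * t / 120 - t ^ (3 : ℕ) / 2520) := by
      refine mul_nonneg (by positivity) ?_
      norm_num at ht2 ht3 ht4
      linarith only [h0, ht2, ht3, ht4]
    have h4 : r * (t ^ (4 : ℕ) / 24 + t ^ (5 : ℕ) / 120) ≤ 867 / 1000 * (t ^ (4 : ℕ) / 24 + t ^ (5 : ℕ) / 120) :=
      mul_le_mul_of_nonneg_right hr (by positivity)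
    have h5 : t / 2 * R.re ≤ t / 2 * (t ^ (7 : ℕ) / 2520) :=
      mul_le_mul_of_nonneg_left hR1 (by positivity)
    linarith only [h3, h4, h5, hR2]
  have h6 : h.re * t / 2 * (t ^ (3 : ℕ) / 6 + t ^ (4 : ℕ) / 48 - t ^ (5 : ℕ) / 240 - t ^ (6 : ℕ) / 720 - R.re) ≤
      h.im * (t ^ (3 : ℕ) / 6 + t ^ (4 : ℕ) / 48 - t ^ (5 : ℕ) / 240 - t ^ (6 : ℕ) / 720 - R.re) :=
    mul_le_mul_of_nonneg_right hs hS
  have h7 := mul_nonneg ha hsum
  have h8 : 0 ≤ ht h (t * et) - qp h * t ^ (2 : ℕ) := by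
    rw [hht]
    linarith only [h6, h7]
  linarith only [h8]

private theorem r1b_norm_exp (s : ℝ) : ‖cexp (s * et)‖ = Real.exp (s / 2) := by
  rw [Complex.norm_exp]
  congr 1
  rw [Complex.re_ofReal_mul, etq_re]
  ring

private theorem r1b_deriv_exp (s : ℝ) :
    HasDerivAt (fun x : ℝ => cexp (x * et)) (cexp (s * et) * et) s := by
  have h1 : HasDerivAt (fun x : ℝ => (x : ℂ) * et) et s := by
    have := (Complex.ofRealCLM.hasDerivAt (x := s)).mul_const et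
    simpa using this
  exact h1.cexp

/-- comparison of a function with a primitive of a bound of its derivative -/
private theorem r1b_comp {f f' : ℝ → ℂ} {B B' : ℝ → ℝ} (hf : ∀ x, HasDerivAt f (f' x) x)
    (hB : ∀ x, HasDerivAt B (B' x) x) (h0 : f 0 = 0) (hB0 : B 0 = 0)
    (hb : ∀ x, 0 ≤ x → ‖f' x‖ ≤ B' x) {t : ℝ} (ht : 0 ≤ t) : ‖f t‖ ≤ B t := by
  refine image_norm_le_of_norm_deriv_right_le_deriv_boundary (a := 0) (b := t) (f := f) (f' := f')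
    (fun x _ => (hf x).continuousAt.continuousWithinAt) (fun x _ => (hf x).hasDerivWithinAt)
    (B := B) (B' := B') (by rw [h0, hB0, norm_zero]) hB (fun x hx => hb x hx.1)
    (Set.right_mem_Icc.2 ht)

private theorem r1b_dE (x : ℝ) : HasDerivAt (fun x : ℝ => Real.exp (x / 2)) (Real.exp (x / 2) / 2) x := by
  have := ((hasDerivAt_id x).div_const 2).exp
  simp only [id] at this
  have e : Real.exp (x / 2) * (1 / 2) = Real.exp (x / 2) / 2 := by ring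
  rw [e] at this
  exact this

private theorem r1b_one {t : ℝ} (ht : 0 ≤ t) : ‖cexp (t * et) - 1‖ ≤ 2 * (Real.exp (t / 2) - 1) := by
  refine r1b_comp (f := fun x : ℝ => cexp (x * et) - 1) (f' := fun x : ℝ => cexp (x * et) * et)
    (B := fun x => 2 * (Real.exp (x / 2) - 1)) (B' := fun x => Real.exp (x / 2))
    (fun x => (r1b_deriv_exp x).sub_const 1) (fun x => ?_) (by simp) (by simp) (fun x _ => ?_) ht
  · have := ((r1b_dE x).sub_const 1).const_mul 2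
    have e : 2 * (Real.exp (x / 2) / 2) = Real.exp (x / 2) := by ring
    rw [e] at this
    exact this
  · rw [norm_mul, norm_et, mul_one, r1b_norm_exp]

private theorem r1b_two {t : ℝ} (ht : 0 ≤ t) :
    ‖gg (t * et)‖ ≤ 4 * (Real.exp (t / 2) - 1 - t / 2) := by
  refine r1b_comp (f := fun x : ℝ => gg (x * et)) (f' := fun x : ℝ => (cexp (x * et) - 1) * et)
    (B := fun x => 4 * (Real.exp (x / 2) - 1 - x / 2)) (B' := fun x => 2 * (Real.exp (x / 2) - 1))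
    (fun x => ?_) (fun x => ?_) (by simp [gg]) (by simp) (fun x hx => ?_) ht
  · have h1 : HasDerivAt (fun x : ℝ => (x : ℂ) * et) et x := by
      have := (Complex.ofRealCLM.hasDerivAt (x := x)).mul_const et
      simpa using this
    have h2 := ((r1b_deriv_exp x).sub_const 1).sub h1
    have e : cexp (x * et) * et - et = (cexp (x * et) - 1) * et := by ring
    rw [e] at h2
    exact h2
  · have := (((r1b_dE x).sub_const 1).sub ((hasDerivAt_id x).div_const 2)).const_mul 4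
    have e : 4 * (Real.exp (x / 2) / 2 - 1 / 2) = 2 * (Real.exp (x / 2) - 1) := by ring
    rw [e] at this
    exact this
  · rw [norm_mul, norm_et, mul_one]
    exact r1b_one hx

private theorem r1b_three {t : ℝ} (ht : 0 ≤ t) :
    ‖gg (t * et) - (t * et) ^ (2 : ℕ) / 2‖ ≤ 8 * (Real.exp (t / 2) - 1 - t / 2 - t ^ (2 : ℕ) / 8) := by
  refine r1b_comp (f := fun x : ℝ => gg (x * et) - (x * et) ^ (2 : ℕ) / 2)
    (f' := fun x : ℝ => gg (x * et) * et)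
    (B := fun x => 8 * (Real.exp (x / 2) - 1 - x / 2 - x ^ (2 : ℕ) / 8))
    (B' := fun x => 4 * (Real.exp (x / 2) - 1 - x / 2))
    (fun x => ?_) (fun x => ?_) (by simp [gg]) (by simp) (fun x hx => ?_) ht
  · have h1 : HasDerivAt (fun x : ℝ => (x : ℂ) * et) et x := by
      have := (Complex.ofRealCLM.hasDerivAt (x := x)).mul_const et
      simpa using this
    have h2 := ((r1b_deriv_exp x).sub_const 1).sub h1
    have h3 := (h1.pow 2).div_const 2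
    have h4 := h2.sub h3
    have e : cexp (x * et) * et - et - (((2 : ℕ) : ℂ) * ((x : ℂ) * et) ^ (2 - 1) * et) / 2 =
        gg (x * et) * et := by
      unfold gg
      push_cast
      ring
    rw [e] at h4
    exact h4
  · have := ((((r1b_dE x).sub_const 1).sub ((hasDerivAt_id x).div_const 2)).sub
      ((hasDerivAt_pow 2 x).div_const 8)).const_mul 8
    have e : 8 * (Real.exp (x / 2) / 2 - 1 / 2 - ((2 : ℕ) : ℝ) * x ^ (2 - 1) / 8) =
        4 * (Real.exp (x / 2) - 1 - x / 2) := by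
      push_cast
      ring
    rw [e] at this
    exact this
  · rw [norm_mul, norm_et, mul_one]
    exact r1b_two hx

private theorem r1b_exp {u : ℝ} (h0 : 0 ≤ u) (h1 : u ≤ 5 / 4) :
    Real.exp u ≤ 1 + u + u ^ (2 : ℕ) / 2 + u ^ (3 : ℕ) / 6 + u ^ (4 : ℕ) / 24 + u ^ (5 : ℕ) / 60 := by
  have hn : ‖(u : ℂ)‖ = u := by rw [Complex.norm_real, Real.norm_eq_abs, abs_of_nonneg h0]
  have h2 := Complex.exp_bound' (x := (u : ℂ)) (n := 5) (by rw [hn]; norm_num; linarith only [h1])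
  rw [hn] at h2
  have e : cexp (u : ℂ) - ∑ m ∈ Finset.range 5, (u : ℂ) ^ m / (m.factorial : ℂ) =
      ((Real.exp u - (1 + u + u ^ (2 : ℕ) / 2 + u ^ (3 : ℕ) / 6 + u ^ (4 : ℕ) / 24) : ℝ) : ℂ) := by
    simp [Finset.sum_range_succ, Nat.factorial]
  rw [e, Complex.norm_real, Real.norm_eq_abs] at h2
  have h3 := (abs_le.1 h2).2
  have h4 : u ^ (5 : ℕ) / ((Nat.factorial 5 : ℕ) : ℝ) * 2 = u ^ (5 : ℕ) / 60 := by
    norm_num [Nat.factorial]
    ring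
  rw [h4] at h3
  linarith only [h3]

theorem slope_gg {t : ℝ} (h0 : 0 ≤ t) (h1 : t ≤ 5 / 2) : ‖gg (t * et)‖ ≤ t ^ (2 : ℕ) / 2 * (1 + t / 4) := by
  refine (r1b_two h0).trans ?_
  have h2 := r1b_exp (u := t / 2) (by positivity) (by linarith only [h1])
  have h3 : 0 ≤ t ^ (3 : ℕ) * ((5 / 2 - t) * (t + 15 / 2)) :=
    mul_nonneg (by positivity) (mul_nonneg (by linarith only [h1]) (by positivity))
  have h5 : 0 ≤ t ^ (3 : ℕ) := by positivity
  linarith only [h2, h3, h5]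

theorem slope_g3 {t : ℝ} (h0 : 0 ≤ t) (h1 : t ≤ 5 / 2) :
    ‖gg (t * et) - (t * et) ^ (2 : ℕ) / 2‖ ≤ t ^ (3 : ℕ) / 6 * (1 + t / 5) := by
  refine (r1b_three h0).trans ?_
  have h2 := r1b_exp (u := t / 2) (by positivity) (by linarith only [h1])
  have h3 : 0 ≤ t ^ (4 : ℕ) * (5 / 2 - t) := mul_nonneg (by positivity) (by linarith only [h1])
  have h5 : 0 ≤ t ^ (4 : ℕ) := by positivity
  nlinarith only [h2, h3]

end SokamTI

end

/-! ### Lib_MP_af4de1_ti.RS -/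

section
/-!
# Right saddle, the integrals over the slope [TI-RS]

`k = qp h/δ`, `T = 2x ≤ 5/2`.  `slope_J`: on `[0, T]` `‖e^Ev - e^Ev2‖ ≤ (‖h‖/δ)(t³/6)(1 + t/5) e^{-k t²}` (`norm_exp_sub_exp_le`, `norm_Ev_sub_Ev2`, `slope_g3`, `slope_height`,
`slope_quad`); `∫_0^∞ t³ e^{-k t²} = 1/(2k²)`, `∫_0^∞ t⁴ e^{-kt²} = (3√π/8) k^{-5/2}`: `≤ (‖h‖/δ)(1/(12 k²))(1 + (27/100) k^{-1/2})`; and
`∫_T^∞ ‖e^Ev2‖ = ∫_T^∞ e^{-k t²} ≤ e^{-kT²}/(2kT)`.
`slope_K`: `‖gg‖ ‖e^Ev‖ ≤ (t²/2)(1 + t/4) e^{-kt²}`; `∫ t² e^{-kt²} = (√π/4) k^{-3/2}`: `≤ (2216/10000) k^{-3/2} (1 + (3/10) k^{-1/2})`.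
-/

set_option autoImplicit false

namespace SokamTI

open Complex MeasureTheory Set

private theorem rs_int (n : ℕ) {κ : ℝ} (hκ : 0 < κ) :
    IntegrableOn (fun t : ℝ => t ^ n * Real.exp (-(t ^ (2 : ℕ) / κ))) (Ioi 0) := by
  have h0 : (0 : ℝ) ≤ n := Nat.cast_nonneg n
  have h := integrableOn_rpow_mul_exp_neg_mul_sq (b := κ⁻¹) (inv_pos.2 hκ) (s := (n : ℝ)) (by linarith)
  refine h.congr_fun (fun t _ => ?_) measurableSet_Ioi
  simp only [Real.rpow_natCast]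
  congr 2
  field_simp

private theorem rs_val (n : ℕ) {κ : ℝ} (hκ : 0 < κ) :
    ∫ t in Ioi (0 : ℝ), t ^ n * Real.exp (-(t ^ (2 : ℕ) / κ)) =
      κ ^ (((n : ℝ) + 1) / 2) * (1 / 2) * Real.Gamma (((n : ℝ) + 1) / 2) := by
  have h0 : (0 : ℝ) ≤ n := Nat.cast_nonneg n
  have h := integral_rpow_mul_exp_neg_mul_rpow (p := 2) (q := (n : ℝ)) (b := κ⁻¹) two_pos (by linarith)
    (inv_pos.2 hκ)
  have e : (κ⁻¹ : ℝ) ^ (-((n : ℝ) + 1) / 2) = κ ^ (((n : ℝ) + 1) / 2) := by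
    rw [neg_div, Real.inv_rpow hκ.le, Real.rpow_neg hκ.le, inv_inv]
  rw [e] at h
  rw [← h]
  refine setIntegral_congr_fun measurableSet_Ioi (fun t _ => ?_)
  simp only [Real.rpow_natCast, Real.rpow_two]
  congr 2
  field_simp

private theorem rs_m2 {κ : ℝ} (hκ : 0 < κ) :
    ∫ t in Ioi (0 : ℝ), t ^ (2 : ℕ) * Real.exp (-(t ^ (2 : ℕ) / κ)) = √Real.pi / 4 * (κ * √κ) := by
  rw [rs_val 2 hκ]
  have e1 : (((2 : ℕ) : ℝ) + 1) / 2 = 1 / 2 + 1 := by norm_num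
  rw [e1, Real.Gamma_add_one (by norm_num), Real.Gamma_one_half_eq, Real.rpow_add hκ, Real.rpow_one,
    Real.sqrt_eq_rpow κ]
  ring

private theorem rs_m3 {κ : ℝ} (hκ : 0 < κ) :
    ∫ t in Ioi (0 : ℝ), t ^ (3 : ℕ) * Real.exp (-(t ^ (2 : ℕ) / κ)) = κ ^ (2 : ℕ) / 2 := by
  rw [rs_val 3 hκ]
  have e1 : (((3 : ℕ) : ℝ) + 1) / 2 = 2 := by norm_num
  rw [e1, Real.Gamma_two, Real.rpow_two]
  ring

private theorem rs_m4 {κ : ℝ} (hκ : 0 < κ) :
    ∫ t in Ioi (0 : ℝ), t ^ (4 : ℕ) * Real.exp (-(t ^ (2 : ℕ) / κ)) = 3 * √Real.pi / 8 * (κ ^ (2 : ℕ) * √κ) := by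
  rw [rs_val 4 hκ]
  have e1 : (((4 : ℕ) : ℝ) + 1) / 2 = (1 / 2 + 1) + 1 := by norm_num
  rw [e1, Real.Gamma_add_one (by norm_num), Real.Gamma_add_one (by norm_num), Real.Gamma_one_half_eq,
    Real.rpow_add hκ, Real.rpow_add hκ, Real.rpow_one, Real.sqrt_eq_rpow κ]
  ring

private theorem rs_tail {κ T : ℝ} (hκ : 0 < κ) (hT : 0 < T) :
    ∫ t in Ioi T, Real.exp (-(t ^ (2 : ℕ) / κ)) ≤ Real.exp (-(T ^ (2 : ℕ) / κ)) * (κ / (2 * T)) := by
  have hd : ∀ t : ℝ, HasDerivAt (fun t : ℝ => -(κ / (2 * T)) * Real.exp (-(t ^ (2 : ℕ) / κ)))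
      (t / T * Real.exp (-(t ^ (2 : ℕ) / κ))) t := by
    intro t
    have h1 : HasDerivAt (fun t : ℝ => -(t ^ (2 : ℕ) / κ)) (-(2 * t / κ)) t := by
      have h0 := ((hasDerivAt_pow 2 t).div_const κ).fun_neg
      simpa using h0
    have h2 := (h1.exp).const_mul (-(κ / (2 * T)))
    have e : t / T * Real.exp (-(t ^ (2 : ℕ) / κ)) =
        -(κ / (2 * T)) * (Real.exp (-(t ^ (2 : ℕ) / κ)) * -(2 * t / κ)) := by
      field_simp
    rw [e]
    exact h2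
  have hlim : Filter.Tendsto (fun t : ℝ => -(κ / (2 * T)) * Real.exp (-(t ^ (2 : ℕ) / κ))) Filter.atTop
      (nhds (-(κ / (2 * T)) * 0)) := by
    refine Filter.Tendsto.const_mul _ ?_
    refine Real.tendsto_exp_neg_atTop_nhds_zero.comp ?_
    exact (Filter.tendsto_pow_atTop two_ne_zero).atTop_div_const hκ
  have hnn : ∀ t ∈ Ioi T, 0 ≤ t / T * Real.exp (-(t ^ (2 : ℕ) / κ)) := by
    intro t ht
    have : (0 : ℝ) < t := hT.trans ht
    positivity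
  have hint := integrableOn_Ioi_deriv_of_nonneg' (fun t _ => hd t) hnn hlim
  have hval := integral_Ioi_of_hasDerivAt_of_nonneg' (fun t _ => hd t) hnn hlim
  have hle : ∫ t in Ioi T, Real.exp (-(t ^ (2 : ℕ) / κ)) ≤ ∫ t in Ioi T, t / T * Real.exp (-(t ^ (2 : ℕ) / κ)) := by
    refine integral_mono_of_nonneg (Filter.Eventually.of_forall fun t => (Real.exp_pos _).le) hint ?_
    refine (ae_restrict_iff' measurableSet_Ioi).2 (Filter.Eventually.of_forall fun t ht => ?_)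
    have h1 : 1 ≤ t / T := by
      rw [le_div_iff₀ hT, one_mul]
      exact (Set.mem_Ioi.1 ht).le
    calc Real.exp (-(t ^ (2 : ℕ) / κ)) = 1 * Real.exp (-(t ^ (2 : ℕ) / κ)) := (one_mul _).symm
      _ ≤ t / T * Real.exp (-(t ^ (2 : ℕ) / κ)) := mul_le_mul_of_nonneg_right h1 (Real.exp_pos _).le
  refine hle.trans (le_of_eq ?_)
  rw [hval]
  ring

private theorem rs_sqrt_pi : √Real.pi ≤ 17725 / 10000 := by
  rw [Real.sqrt_le_left (by norm_num)]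
  have := Real.pi_lt_d6
  norm_num at this ⊢
  linarith

/-- the exponentials on the slope -/
private theorem rs_exp {h : ℂ} {δ T t : ℝ} (hδ : 0 < δ) (hT2 : T ≤ 5 / 2) (ha : 0 ≤ h.re)
    (hs : h.re * T / 2 ≤ h.im) (hq : 0 < qp h) (h0 : 0 ≤ t) (h1 : t ≤ T) :
    ‖cexp (Ev δ h (t * et))‖ ≤ Real.exp (-(t ^ (2 : ℕ) / (δ / qp h))) := by
  rw [norm_exp_Ev hδ]
  apply Real.exp_le_exp.2
  have h2 : h.re * t / 2 ≤ h.im := by
    have : h.re * t ≤ h.re * T := mul_le_mul_of_nonneg_left h1 ha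
    linarith
  have h3 := slope_height h0 (h1.trans hT2) ha h2
  have e : t ^ (2 : ℕ) / (δ / qp h) = qp h * t ^ (2 : ℕ) / δ := by
    field_simp
  rw [e]
  exact neg_le_neg (div_le_div_of_nonneg_right h3 hδ.le)

private theorem rs_exp2 {h : ℂ} {δ : ℝ} (hδ : 0 < δ) (hq : 0 < qp h) (t : ℝ) :
    ‖cexp (Ev2 δ h (t * et))‖ = Real.exp (-(t ^ (2 : ℕ) / (δ / qp h))) := by
  rw [norm_exp_Ev2 hδ, slope_quad]
  congr 2
  field_simp

private theorem rs_le {T : ℝ} (hT : 0 < T) {f : ℝ → ℂ} {g : ℝ → ℝ} (hg : IntegrableOn g (Ioi 0))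
    (hg0 : ∀ t : ℝ, 0 < t → 0 ≤ g t) (hfg : ∀ t : ℝ, 0 < t → t ≤ T → ‖f t‖ ≤ g t) :
    ‖∫ t in (0 : ℝ)..T, f t‖ ≤ ∫ t in Ioi (0 : ℝ), g t := by
  have hsub : Ioc (0 : ℝ) T ⊆ Ioi 0 := fun t ht => ht.1
  rw [intervalIntegral.integral_of_le hT.le]
  calc ‖∫ t in Ioc (0 : ℝ) T, f t‖ ≤ ∫ t in Ioc (0 : ℝ) T, g t := by
        refine norm_integral_le_of_norm_le (hg.mono_set hsub) ?_
        exact (ae_restrict_iff' measurableSet_Ioc).2 (Filter.Eventually.of_forall fun t ht => hfg t ht.1 ht.2)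
    _ ≤ ∫ t in Ioi (0 : ℝ), g t := by
        refine setIntegral_mono_set hg ?_ (Filter.Eventually.of_forall hsub)
        exact (ae_restrict_iff' measurableSet_Ioi).2 (Filter.Eventually.of_forall fun t ht => hg0 t ht)

theorem slope_J {h : ℂ} {δ T : ℝ} (hδ : 0 < δ) (hT : 0 < T) (hT2 : T ≤ 5 / 2) (ha : 0 ≤ h.re)
    (hs : h.re * T / 2 ≤ h.im) (hq : 0 < qp h) :
    ‖(∫ t in (0 : ℝ)..T, cexp (Ev δ h (t * et))) - ∫ t in Ioi (0 : ℝ), cexp (Ev2 δ h (t * et))‖ ≤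
      ‖h‖ * δ * ((1 + 27 / 100 * √(δ / qp h)) / (12 * qp h ^ (2 : ℕ))) +
        Real.exp (-(qp h * T ^ (2 : ℕ) / δ)) * (δ / (2 * qp h * T)) := by
  have hκ : 0 < δ / qp h := div_pos hδ hq
  set κ : ℝ := δ / qp h with hκd
  have hc2 : Continuous fun t : ℝ => cexp (Ev2 δ h (t * et)) := by
    have := continuous_Ev2 δ h
    fun_prop
  have hc1 : Continuous fun t : ℝ => cexp (Ev δ h (t * et)) := by
    have := continuous_Ev δ h
    fun_prop
  have hi2 : IntegrableOn (fun t : ℝ => cexp (Ev2 δ h (t * et))) (Ioi 0) := by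
    refine Integrable.mono' (rs_int 0 hκ) hc2.aestronglyMeasurable ?_
    exact Filter.Eventually.of_forall fun t => le_of_eq (by rw [rs_exp2 hδ hq, ← hκd, pow_zero, one_mul])
  have hi2T : IntegrableOn (fun t : ℝ => cexp (Ev2 δ h (t * et))) (Ioi T) :=
    hi2.mono_set (Ioi_subset_Ioi hT.le)
  have hsplit := intervalIntegral.integral_interval_add_Ioi hi2 hi2T
  rw [← hsplit, ← sub_sub, ← intervalIntegral.integral_sub (hc1.intervalIntegrable _ _)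
    (hc2.intervalIntegrable _ _)]
  refine (norm_sub_le _ _).trans (add_le_add ?_ ?_)
  · -- the difference on the slope
    have hg : IntegrableOn (fun t : ℝ => ‖h‖ / δ * (1 / 6 * (t ^ (3 : ℕ) * Real.exp (-(t ^ (2 : ℕ) / κ))) +
        1 / 30 * (t ^ (4 : ℕ) * Real.exp (-(t ^ (2 : ℕ) / κ))))) (Ioi 0) :=
      (((rs_int 3 hκ).const_mul (1 / 6)).add ((rs_int 4 hκ).const_mul (1 / 30))).const_mul _
    have h1 := rs_le hT (f := fun t : ℝ => cexp (Ev δ h (t * et)) - cexp (Ev2 δ h (t * et))) hg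
      (fun t ht => by positivity) (fun t ht htT => by
        have h2 := norm_exp_sub_exp_le (Ev δ h (t * et)) (Ev2 δ h (t * et))
          (rs_exp hδ hT2 ha hs hq ht.le htT) (rs_exp2 hδ hq t).le
        rw [norm_Ev_sub_Ev2 hδ] at h2
        have h3 := slope_g3 ht.le (htT.trans hT2)
        refine h2.trans ?_
        have h4 : ‖h‖ / δ * ‖gg (t * et) - (t * et) ^ (2 : ℕ) / 2‖ ≤ ‖h‖ / δ * (t ^ (3 : ℕ) / 6 * (1 + t / 5)) :=
          mul_le_mul_of_nonneg_left h3 (by positivity)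
        refine (mul_le_mul_of_nonneg_right h4 (Real.exp_pos _).le).trans (le_of_eq ?_)
        rw [← hκd]
        ring)
    refine h1.trans ?_
    rw [integral_const_mul, integral_add ((rs_int 3 hκ).const_mul (1 / 6)) ((rs_int 4 hκ).const_mul (1 / 30)),
      integral_const_mul, integral_const_mul, rs_m3 hκ, rs_m4 hκ]
    have hπ := rs_sqrt_pi
    have hr : 0 ≤ √κ := Real.sqrt_nonneg _
    have e1 : ‖h‖ * δ * ((1 + 27 / 100 * √κ) / (12 * qp h ^ (2 : ℕ))) =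
        ‖h‖ / δ * (κ ^ (2 : ℕ) / 12 * (1 + 27 / 100 * √κ)) := by
      rw [hκd]
      field_simp
    rw [e1]
    refine mul_le_mul_of_nonneg_left ?_ (by positivity)
    have h5 : √Real.pi * (κ ^ (2 : ℕ) * √κ) ≤ 17725 / 10000 * (κ ^ (2 : ℕ) * √κ) :=
      mul_le_mul_of_nonneg_right hπ (by positivity)
    have h6 : 0 ≤ κ ^ (2 : ℕ) * √κ := by positivity
    linarith only [h6, h5]
  · -- the tail of the Gauss integral
    refine (norm_integral_le_integral_norm _).trans ?_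
    have e1 : (fun t : ℝ => ‖cexp (Ev2 δ h (t * et))‖) = fun t : ℝ => Real.exp (-(t ^ (2 : ℕ) / κ)) := by
      funext t
      exact rs_exp2 hδ hq t
    rw [e1]
    refine (rs_tail hκ hT).trans (le_of_eq ?_)
    rw [hκd]
    have e2 : T ^ (2 : ℕ) / (δ / qp h) = qp h * T ^ (2 : ℕ) / δ := by
      field_simp
    rw [e2]
    congr 1
    field_simp

theorem slope_K {h : ℂ} {δ T : ℝ} (hδ : 0 < δ) (hT : 0 < T) (hT2 : T ≤ 5 / 2) (ha : 0 ≤ h.re)
    (hs : h.re * T / 2 ≤ h.im) (hq : 0 < qp h) :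
    ‖∫ t in (0 : ℝ)..T, gg (t * et) * cexp (Ev δ h (t * et))‖ ≤
      2216 / 10000 * (δ / qp h * √(δ / qp h)) * (1 + 3 / 10 * √(δ / qp h)) := by
  have hκ : 0 < δ / qp h := div_pos hδ hq
  set κ : ℝ := δ / qp h with hκd
  have hg : IntegrableOn (fun t : ℝ => 1 / 2 * (t ^ (2 : ℕ) * Real.exp (-(t ^ (2 : ℕ) / κ))) +
      1 / 8 * (t ^ (3 : ℕ) * Real.exp (-(t ^ (2 : ℕ) / κ)))) (Ioi 0) :=
    ((rs_int 2 hκ).const_mul (1 / 2)).add ((rs_int 3 hκ).const_mul (1 / 8))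
  have h1 := rs_le hT (f := fun t : ℝ => gg (t * et) * cexp (Ev δ h (t * et))) hg
    (fun t ht => by positivity) (fun t ht htT => by
      rw [norm_mul]
      have h2 := rs_exp hδ hT2 ha hs hq ht.le htT
      have h3 := slope_gg ht.le (htT.trans hT2)
      refine (mul_le_mul h3 h2 (norm_nonneg _) (by positivity)).trans (le_of_eq ?_)
      rw [← hκd]
      ring)
  refine h1.trans ?_
  rw [integral_add ((rs_int 2 hκ).const_mul (1 / 2)) ((rs_int 3 hκ).const_mul (1 / 8)),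
    integral_const_mul, integral_const_mul, rs_m2 hκ, rs_m3 hκ]
  have hπ := rs_sqrt_pi
  have hr : 0 ≤ √κ := Real.sqrt_nonneg _
  have hr2 : √κ * √κ = κ := Real.mul_self_sqrt hκ.le
  have h5 : √Real.pi * (κ * √κ) ≤ 17725 / 10000 * (κ * √κ) :=
    mul_le_mul_of_nonneg_right hπ (by positivity)
  have h6 : 0 ≤ κ * √κ := by positivity
  have e2 : κ * √κ * √κ = κ ^ (2 : ℕ) := by
    rw [mul_assoc, hr2]
    ring
  nlinarith only [h5, h6, e2]

end SokamTI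

end

/-! ### Lib_MP_af4de1_ti.BoxR -/

section
namespace SokamTI
end SokamTI
/-!
# Monotone upper bounds of the closed forms
-/

set_option autoImplicit false

namespace SokamTI.Bx

open Complex SokamTI

variable {h : ℂ} {δ : ℝ}

theorem relL_nonneg (h : ℂ) (δ : ℝ) : 0 ≤ relL h δ := by
  unfold relL
  positivity

theorem relL_le {h2 s1 S : ℝ} (hh : ‖h‖ ≤ h2) (s0 : 0 < s1) (hs : s1 ≤ -h.im) (hS : √(‖1 - h‖ * δ) ≤ S) :
    relL h δ ≤ 599 / 1000 * h2 * S / (s1 * s1) := by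
  unfold relL
  have h1 : h.im ^ (2 : ℕ) = (-h.im) * (-h.im) := by ring
  have h2' : 0 ≤ h2 := (norm_nonneg _).trans hh
  rw [h1]
  have hS0 : 0 ≤ S := (Real.sqrt_nonneg _).trans hS
  have hs0 : 0 ≤ -h.im := (s0.trans_le hs).le
  gcongr

theorem bL_le {h2 s1 ss m1 dm sd rl : ℝ} (hh : ‖h‖ ≤ h2) (s0 : 0 < s1) (hs : s1 ≤ -h.im)
    (ss0 : 0 < ss) (hss : ss ≤ √s1) (m0 : 0 < m1) (hm : m1 ≤ √‖1 - h‖) (δ0 : 0 ≤ δ) (hδ : δ ≤ dm) (hsd : √δ ≤ sd)
    (hr : relL h δ ≤ rl) (hrl : rl < 1) :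
    bL h δ ≤ h2 / m1 * (dm / (2 * (s1 * ss)) + 399 / 1000 * (dm * sd) / (s1 * s1)) / (1 - rl) := by
  unfold bL
  have e1 : h.im ^ (2 : ℕ) = (-h.im) * (-h.im) := by ring
  have h2' : 0 ≤ h2 := (norm_nonneg _).trans hh
  have hsq : ss ≤ √(-h.im) := hss.trans (Real.sqrt_le_sqrt hs)
  have hsd0 : 0 ≤ sd := (Real.sqrt_nonneg _).trans hsd
  have hd0 : 0 ≤ dm := δ0.trans hδ
  have hs0 : 0 < -h.im := s0.trans_le hs
  rw [e1]
  have h1 : 0 < 1 - rl := by linarith only [hrl]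
  have h3 : 1 - rl ≤ 1 - relL h δ := by linarith only [hr]
  gcongr

theorem qp_ge {a1 s1 q : ℝ} (ha : a1 ≤ h.re) (hs : s1 ≤ h.im)
    (hq : q ≤ min (433 / 1000 * (a1 - 1)) (4331 / 10000 * (a1 - 1)) + s1 / 4) : q ≤ qp h := by
  unfold qp
  have h3 : √3 ≤ 4331 / 10000 * 4 := by
    rw [Real.sqrt_le_left (by norm_num)]
    norm_num
  have h3' : 433 / 1000 * 4 ≤ √3 := Real.le_sqrt_of_sq_le (by norm_num)
  have h4 : √3 / 4 * (a1 - 1) ≤ √3 / 4 * (h.re - 1) := by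
    have : 0 ≤ √3 / 4 := by positivity
    exact mul_le_mul_of_nonneg_left (by linarith only [ha]) this
  rcases le_total 0 (a1 - 1) with h5 | h5
  · have h6 : min (433 / 1000 * (a1 - 1)) (4331 / 10000 * (a1 - 1)) ≤ 433 / 1000 * (a1 - 1) := min_le_left _ _
    have h7 : 433 / 1000 * (a1 - 1) ≤ √3 / 4 * (a1 - 1) := mul_le_mul_of_nonneg_right (by linarith only [h3']) h5
    linarith only [hs, hq, h4, h6, h7]
  · have h6 : min (433 / 1000 * (a1 - 1)) (4331 / 10000 * (a1 - 1)) ≤ 4331 / 10000 * (a1 - 1) := min_le_right _ _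
    have h7 : 4331 / 10000 * (a1 - 1) ≤ √3 / 4 * (a1 - 1) := mul_le_mul_of_nonpos_right (by linarith only [h3]) h5
    linarith only [hs, hq, h4, h6, h7]

theorem xl_ge {h2 s1 x : ℝ} (hh : ‖h‖ ≤ h2) (hn : 0 < ‖h‖) (s0 : 0 < s1) (hs : s1 ≤ h.im) (hx : x ≤ s1 / h2) :
    x ≤ xl h := by
  unfold xl
  refine hx.trans ?_
  have : 0 < h.im := s0.trans_le hs
  gcongr

theorem xl_le_one (hn : 0 < ‖h‖) : xl h ≤ 1 := by
  unfold xl
  rw [div_le_one hn]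
  exact (le_abs_self _).trans (abs_im_le_norm h)

theorem tf_nonneg (h : ℂ) (δ : ℝ) : 0 ≤ tf h δ := by
  unfold tf
  positivity

theorem tf_le {q x dm t : ℝ} (q0 : 0 < q) (hq : q ≤ qp h) (x0 : 0 < x) (hx : x ≤ xl h) (δ0 : 0 ≤ δ) (hδ : δ ≤ dm)
    (ht : 47 / 10 * (dm / (4 * q * (x * x))) ^ (4 : ℕ) ≤ t) : tf h δ ≤ t := by
  unfold tf
  refine le_trans ?_ ht
  have hd0 : 0 ≤ dm := δ0.trans hδ
  have hq0 := q0.trans_le hq
  have hx0 := x0.trans_le hx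
  rw [pow_two]
  gcongr

theorem relR_nonneg (h : ℂ) (δ : ℝ) (hq : 0 < qp h) (hx : 0 < xl h) : 0 ≤ relR h δ := by
  unfold relR
  have := tf_nonneg h δ
  positivity

theorem relR_le {h2 s1 S q x dm sd Sq t m2 sx : ℝ} (hh : ‖h‖ ≤ h2) (s0 : 0 < s1) (hs : s1 ≤ h.im)
    (hS : √(‖1 - h‖ * δ) ≤ S) (q0 : 0 < q) (hq : q ≤ qp h) (x0 : 0 < x) (hx : x ≤ xl h) (δ0 : 0 ≤ δ)
    (hδ : δ ≤ dm) (hsd : √δ ≤ sd) (hSq : √(dm / q) ≤ Sq) (ht : tf h δ ≤ t) (hm2 : √‖1 - h‖ ≤ m2)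
    (sx0 : 0 < sx) (hsx : sx ≤ √x) :
    relR h δ ≤ 399 / 1000 * h2 * S * (100 / (243 * (s1 * s1)) + (1 + 27 / 100 * Sq) / (12 * (q * q))) +
      t * m2 * (3 / 5 / sx + 1 / 10 * sd / (q * x)) := by
  unfold relR
  have hd0 : 0 ≤ dm := δ0.trans hδ
  have hq0 := q0.trans_le hq
  have hx0 := x0.trans_le hx
  have hs0 := s0.trans_le hs
  have h2' : 0 ≤ h2 := (norm_nonneg _).trans hh
  have hS0 : 0 ≤ S := (Real.sqrt_nonneg _).trans hS
  have hsd0 : 0 ≤ sd := (Real.sqrt_nonneg _).trans hsd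
  have ht0 : 0 ≤ t := (tf_nonneg h δ).trans ht
  have hm0 : 0 ≤ m2 := (Real.sqrt_nonneg _).trans hm2
  have hsq : √(δ / qp h) ≤ Sq := (Real.sqrt_le_sqrt (by gcongr)).trans hSq
  have hsx' : sx ≤ √(xl h) := hsx.trans (Real.sqrt_le_sqrt hx)
  have htf := tf_nonneg h δ
  have hSq0 : 0 ≤ Sq := (Real.sqrt_nonneg _).trans hSq
  rw [pow_two, pow_two]
  gcongr

theorem bR_le {h2 s1 ss q sq x dm sd Sq t m1 m2 rr : ℝ} (hh : ‖h‖ ≤ h2) (hn : 0 < ‖h‖) (s0 : 0 < s1)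
    (hs : s1 ≤ h.im) (ss0 : 0 < ss) (hss : ss ≤ √s1) (q0 : 0 < q) (hq : q ≤ qp h) (sq0 : 0 < sq) (hsq : sq ≤ √q)
    (x0 : 0 < x) (hx : x ≤ xl h) (δ0 : 0 ≤ δ) (hδ : δ ≤ dm) (hsd : √δ ≤ sd) (hSq : √(dm / q) ≤ Sq) (ht : tf h δ ≤ t)
    (m0 : 0 < m1) (hm1 : m1 ≤ √‖1 - h‖) (hm2 : √‖1 - h‖ ≤ m2) (hr : relR h δ ≤ rr) (hrr : rr < 1) :
    bR h δ ≤ (h2 / m1 * (59 / 200 * dm / (s1 * ss) + 177 / 2000 * dm * (1 + 3 / 10 * Sq) / (q * sq)) +
      t * (2 / 5 * sd / m1 + 27 / 20 * m2 + 11 / 20 * m2 * sd / x)) / (1 - rr) := by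
  unfold bR
  have hd0 : 0 ≤ dm := δ0.trans hδ
  have hq0 := q0.trans_le hq
  have hx0 := x0.trans_le hx
  have hs0 := s0.trans_le hs
  have h2' : 0 ≤ h2 := (norm_nonneg _).trans hh
  have hsd0 : 0 ≤ sd := (Real.sqrt_nonneg _).trans hsd
  have ht0 : 0 ≤ t := (tf_nonneg h δ).trans ht
  have hm0 : 0 ≤ m2 := (Real.sqrt_nonneg _).trans hm2
  have hsq' : √(δ / qp h) ≤ Sq := (Real.sqrt_le_sqrt (by gcongr)).trans hSq
  have hss' : ss ≤ √h.im := hss.trans (Real.sqrt_le_sqrt hs)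
  have hsqq : sq ≤ √(qp h) := hsq.trans (Real.sqrt_le_sqrt hq)
  have htf := tf_nonneg h δ
  have h1 : 0 < 1 - rr := by linarith only [hrr]
  have h3 : 1 - rr ≤ 1 - relR h δ := by linarith only [hr]
  have hx1 : 27 / 20 * √‖1 - h‖ * √(xl h) ≤ 27 / 20 * m2 := by
    have h4 : √(xl h) ≤ 1 := by
      exact Real.sqrt_le_one.2 (xl_le_one hn)
    have h5 : 27 / 20 * √‖1 - h‖ ≤ 27 / 20 * m2 := by linarith only [hm2]
    calc 27 / 20 * √‖1 - h‖ * √(xl h) ≤ 27 / 20 * m2 * 1 :=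
          mul_le_mul h5 h4 (Real.sqrt_nonneg _) (by (clear * - hm0; positivity))
      _ = _ := mul_one _
  have hSq0 : 0 ≤ Sq := (Real.sqrt_nonneg _).trans hSq
  have hA : ‖h‖ / √‖1 - h‖ * (59 / 200 * δ / (h.im * √h.im) +
      177 / 2000 * δ * (1 + 3 / 10 * √(δ / qp h)) / (qp h * √(qp h))) ≤
      h2 / m1 * (59 / 200 * dm / (s1 * ss) + 177 / 2000 * dm * (1 + 3 / 10 * Sq) / (q * sq)) := by
    gcongr
  have hB : tf h δ * (2 / 5 * √δ / √‖1 - h‖ + 27 / 20 * √‖1 - h‖ * √(xl h) + 11 / 20 * √‖1 - h‖ * √δ / xl h) ≤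
      t * (2 / 5 * sd / m1 + 27 / 20 * m2 + 11 / 20 * m2 * sd / x) := by
    refine mul_le_mul ht (add_le_add (add_le_add ?_ hx1) ?_) (by (clear * - hx0; positivity)) ht0
    · gcongr
    · gcongr
  have hN : 0 ≤ h2 / m1 * (59 / 200 * dm / (s1 * ss) + 177 / 2000 * dm * (1 + 3 / 10 * Sq) / (q * sq)) +
      t * (2 / 5 * sd / m1 + 27 / 20 * m2 + 11 / 20 * m2 * sd / x) := by (clear * - h2' m0 hd0 s0 ss0 hSq0 q0 sq0 ht0 hsd0 hm0 x0; positivity)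
  exact div_le_div₀ hN (add_le_add hA hB) h1 h3

end SokamTI.Bx

end

/-! ### Lib_MP_af4de1_v3o.ODef -/

section
/-!
# Fields `PShfL.o`, `PShfR.o`: height on the centred path, and the list of pieces

`ζ = z + τ` (absolute values); the path of the saddle point `K = x + i y` is shifted by `τ`, the base point by `z`,
with `z = x (1+x) τ`.  Height with real part `a` at the height `s`:

`Hc x y z τ a s = (a - y)(s - z) + x (1 + a) - e^a (x cos (s + τ) - y sin (s + τ))`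

Left side: `y, z, τ ≥ 0`.  Right side: `Hc x (-n) (-z) (-τ)` with `n, z, τ ≥ 0`.
`k = |K|`, `x = k cos ψ`, `y = k sin ψ` (`n = k sin ψ`), `ρ = k e^y` (`k e^(-n)`), clamp at `|s| = min 4 (1+x)`.
-/

set_option autoImplicit false

namespace SokamV3O

open Real

/-- the height -/
noncomputable def Hc (x y z τ a s : ℝ) : ℝ :=
  (a - y) * (s - z) + x * (1 + a) - exp a * (x * cos (s + τ) - y * sin (s + τ))

/-- clamp value -/
noncomputable def a4 (x : ℝ) : ℝ := min 1 (4 / (1 + x))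

/-- real part of the path for `s ≥ 0` -/
noncomputable def pa (x s : ℝ) : ℝ := min (s / (1 + x)) (a4 x)

/-- parameters; `y` is the absolute value of the imaginary part, `Y` the upper bound -/
structure Shp (x y z τ k ψ Y : ℝ) : Prop where
  x0 : 0 < x
  y0 : 0 ≤ y
  y1 : y ≤ Y
  T : y ≤ 4 / 5 * x
  z0 : 0 ≤ z
  τ0 : 0 ≤ τ
  zτ : z = x * (1 + x) * τ
  ζ : z + τ ≤ 21 / 25
  τ1 : τ ≤ 1 / 2
  k0 : 0 < k
  ψ0 : 0 ≤ ψ
  ψ1 : ψ ≤ 27 / 40
  hx : x = k * cos ψ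
  hy : y = k * sin ψ

/-- left side -/
def ShL (x y z τ k ψ : ℝ) : Prop := Shp x y z τ k ψ (14 / 25)

/-- right side, `y` is `n` -/
def ShR (x n z τ k ψ : ℝ) : Prop := Shp x n z τ k ψ (53 / 100)

end SokamV3O

end

/-! ### Lib_MP_af4de1_v3o.OCal -/

section
/-!
# One dimensional integrals for the core `|s| ≤ 1`
-/

set_option autoImplicit false

namespace SokamV3O

open Real MeasureTheory Set

private theorem mo_cast (k : ℕ) {μ : ℝ} :
    Set.EqOn (fun s : ℝ => s ^ (k : ℝ) * exp (-μ * s ^ (2 : ℝ)))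
      (fun s : ℝ => s ^ k * exp (-(μ * s ^ (2 : ℕ)))) (Ioi 0) := by
  intro s _
  simp only []
  rw [Real.rpow_natCast, Real.rpow_two, neg_mul]

theorem mo_ii (k : ℕ) {μ : ℝ} (hμ : 0 < μ) :
    IntegrableOn (fun s : ℝ => s ^ k * exp (-(μ * s ^ (2 : ℕ)))) (Ioi 0) := by
  have h := integrableOn_rpow_mul_exp_neg_mul_rpow (p := 2) (s := (k : ℝ)) (b := μ)
    (by have : (0 : ℝ) ≤ k := Nat.cast_nonneg k
        linarith only []) (by norm_num) hμ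
  exact (integrableOn_congr_fun (mo_cast k) measurableSet_Ioi).1 h

theorem int_m1 {μ : ℝ} (hμ : 0 < μ) :
    ∫ s in Ioi (0 : ℝ), s ^ (1 : ℕ) * exp (-(μ * s ^ (2 : ℕ))) = 1 / (2 * μ) := by
  have h := integral_rpow_mul_exp_neg_mul_rpow (p := 2) (q := ((1 : ℕ) : ℝ)) (b := μ)
    (by norm_num) (by norm_num) hμ
  rw [setIntegral_congr_fun measurableSet_Ioi (mo_cast 1)] at h
  rw [h]
  norm_num
  rw [Real.rpow_neg_one]

theorem int_m0 {μ : ℝ} : ∫ s in Ioi (0 : ℝ), s ^ (0 : ℕ) * exp (-(μ * s ^ (2 : ℕ))) = √(π / μ) / 2 := by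
  rw [← integral_gaussian_Ioi μ]
  refine setIntegral_congr_fun measurableSet_Ioi fun s _ => ?_
  simp only [pow_zero, one_mul, neg_mul]

/-- bound for the half integrals -/
noncomputable def Ab (b α β : ℝ) : ℝ :=
  √(π / b) / 2 + α / (2 * b) + β * (√(π / b) / (4 * b))

theorem Ab_nonneg {b α β : ℝ} (hb : 0 < b) (hα : 0 ≤ α) (hβ : 0 ≤ β) : 0 ≤ Ab b α β := by
  unfold Ab
  have := sqrt_nonneg (π / b)
  positivity

/-- the integrand `(1 + α s + β s²) e^(-b s²)` -/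
noncomputable def pg (b α β s : ℝ) : ℝ := (1 + α * s + β * s ^ (2 : ℕ)) * exp (-(b * s ^ (2 : ℕ)))

theorem pg_eq (b α β s : ℝ) : pg b α β s = s ^ (0 : ℕ) * exp (-(b * s ^ (2 : ℕ))) +
    α * (s ^ (1 : ℕ) * exp (-(b * s ^ (2 : ℕ)))) + β * (s ^ (2 : ℕ) * exp (-(b * s ^ (2 : ℕ)))) := by
  unfold pg
  ring

theorem pg_ii {b : ℝ} (hb : 0 < b) (α β : ℝ) : IntegrableOn (pg b α β) (Ioi 0) := by
  have h : pg b α β = fun s => s ^ (0 : ℕ) * exp (-(b * s ^ (2 : ℕ))) +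
    α * (s ^ (1 : ℕ) * exp (-(b * s ^ (2 : ℕ)))) + β * (s ^ (2 : ℕ) * exp (-(b * s ^ (2 : ℕ)))) := by
    funext s
    exact pg_eq b α β s
  rw [h]
  exact ((mo_ii 0 hb).add ((mo_ii 1 hb).const_mul α)).add ((mo_ii 2 hb).const_mul β)

theorem pg_int {b : ℝ} (hb : 0 < b) (α β : ℝ) :
    ∫ s in Ioi (0 : ℝ), pg b α β s = Ab b α β := by
  have h : pg b α β = fun s => s ^ (0 : ℕ) * exp (-(b * s ^ (2 : ℕ))) +
    α * (s ^ (1 : ℕ) * exp (-(b * s ^ (2 : ℕ)))) + β * (s ^ (2 : ℕ) * exp (-(b * s ^ (2 : ℕ)))) := by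
    funext s
    exact pg_eq b α β s
  rw [h, integral_add, integral_add, integral_const_mul, integral_const_mul, int_m1 hb,
    SokamF1B.int_m2 hb, int_m0]
  · unfold Ab
    ring
  · exact mo_ii 0 hb
  · exact (mo_ii 1 hb).const_mul α
  · exact (mo_ii 0 hb).add ((mo_ii 1 hb).const_mul α)
  · exact (mo_ii 2 hb).const_mul β

theorem pg_cont (b α β : ℝ) : Continuous (pg b α β) := by
  unfold pg
  fun_prop

theorem pg_nonneg {b α β s : ℝ} (hα : 0 ≤ α) (hβ : 0 ≤ β) (hs : 0 ≤ s) : 0 ≤ pg b α β s := by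
  unfold pg
  positivity

/-- the integral over a bounded interval -/
theorem pg_le {b α β T : ℝ} (hb : 0 < b) (hα : 0 ≤ α) (hβ : 0 ≤ β) (hT : 0 ≤ T) :
    ∫ s in (0 : ℝ)..T, pg b α β s ≤ Ab b α β := by
  rw [← pg_int hb, intervalIntegral.integral_of_le hT]
  refine setIntegral_mono_set (pg_ii hb α β) ?_ (Ioc_subset_Ioi_self.eventuallyLE)
  exact (ae_restrict_iff' measurableSet_Ioi).2 (Filter.Eventually.of_forall fun s hs =>
    pg_nonneg hα hβ (le_of_lt hs))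

theorem Ab_t {b α β t w : ℝ} (hb : 0 < b) (hα : 0 ≤ α) (hβ : 0 ≤ β) (t0 : 0 < t) (t1 : t ≤ 1)
    (hw : exp (-w) ≤ t * √t) : exp (-w) * Ab (t * b) α β ≤ Ab b α β := by
  have hs : 0 < √t := sqrt_pos.2 t0
  have hss : √t * √t = t := mul_self_sqrt t0.le
  have hs1 : √t ≤ 1 := sqrt_le_one.2 t1
  have hq := sqrt_nonneg (π / b)
  have e1 : √(π / (t * b)) = √(π / b) / √t := by
    rw [← sqrt_div (by positivity)]
    congr 1
    field_simp
  have a1 : exp (-w) / √t ≤ 1 := by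
    rw [div_le_one hs]
    nlinarith only [t1, hw, hs]
  have a2 : exp (-w) / t ≤ 1 := by
    rw [div_le_one t0]
    nlinarith only [hw, hss, hs1]
  have a3 : exp (-w) / (t * √t) ≤ 1 := by
    rw [div_le_one (by positivity)]
    exact hw
  unfold Ab
  rw [e1]
  have b1 : exp (-w) * (√(π / b) / √t / 2 + α / (2 * (t * b)) +
      β * (√(π / b) / √t / (4 * (t * b)))) =
      (exp (-w) / √t) * (√(π / b) / 2) + (exp (-w) / t) * (α / (2 * b)) +
        (exp (-w) / (t * √t)) * (β * (√(π / b) / (4 * b))) := by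
    field_simp
  rw [b1]
  have c1 := mul_le_mul_of_nonneg_right a1 (by positivity : 0 ≤ √(π / b) / 2)
  have c2 := mul_le_mul_of_nonneg_right a2 (by positivity : 0 ≤ α / (2 * b))
  have c3 := mul_le_mul_of_nonneg_right a3 (by positivity : 0 ≤ β * (√(π / b) / (4 * b)))
  linarith only [c1, c2, c3]

/-- `e^u ≤ 1 + u + (18/25) u²` on `[0,1]` -/
theorem exp_le_q {u : ℝ} (h0 : 0 ≤ u) (h1 : u ≤ 1) : exp u ≤ 1 + u + 18 / 25 * u ^ (2 : ℕ) := by
  have h := Real.exp_bound' h0 h1 (n := 5) (by norm_num)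
  norm_num [Finset.sum_range_succ, Nat.factorial] at h
  have e2 : u ^ (3 : ℕ) ≤ u ^ (2 : ℕ) := by linarith only [mul_nonneg (sq_nonneg u) (sub_nonneg.2 h1)]
  have e3 : u ^ (4 : ℕ) ≤ u ^ (2 : ℕ) := by nlinarith only [h0, mul_nonneg (sq_nonneg u) (sub_nonneg.2 h1)]
  have e4 : u ^ (5 : ℕ) ≤ u ^ (2 : ℕ) := by
    have : u ^ (5 : ℕ) = u ^ (4 : ℕ) * u := by ring
    have : u ^ (4 : ℕ) * u ≤ u ^ (4 : ℕ) * 1 := by gcongr
    linarith only [e3, this]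
  nlinarith only [h, e2, e3]

/-- right half of the core -/
theorem half_r {b c t w : ℝ} {j : ℕ} {F : ℝ → ℝ} (hb : 0 < b) (hc : 0 ≤ c) (hc1 : c ≤ 1)
    (hj : j ≤ 1) (t0 : 0 < t) (t1 : t ≤ 1) (hw : exp (-w) ≤ t * √t)
    (hFi : IntervalIntegrable F volume 0 1)
    (hF : ∀ s : ℝ, 0 ≤ s → s ≤ 1 → F s ≤ exp (j * (c * s)) * exp (-(w + t * (b * s ^ (2 : ℕ))))) :
    ∫ s in (0 : ℝ)..1, F s ≤ Ab b (j * c) (j * (18 / 25 * c ^ (2 : ℕ))) := by
  have hj0 : (0 : ℝ) ≤ j := Nat.cast_nonneg j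
  refine le_trans ?_ (Ab_t hb (by positivity) (by positivity) t0 t1 hw)
  have h1 := mul_le_mul_of_nonneg_left (pg_le (T := 1) (mul_pos t0 hb)
    (by positivity : 0 ≤ (j : ℝ) * c) (by positivity : 0 ≤ (j : ℝ) * (18 / 25 * c ^ (2 : ℕ)))
    zero_le_one) (exp_pos (-w)).le
  refine le_trans ?_ h1
  rw [← intervalIntegral.integral_const_mul]
  refine intervalIntegral.integral_mono_on zero_le_one hFi
    (((pg_cont _ _ _).const_mul _).intervalIntegrable _ _) fun s hs => ?_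
  have h2 := hF s hs.1 hs.2
  have h3 : exp (j * (c * s)) ≤ 1 + j * c * s + j * (18 / 25 * c ^ (2 : ℕ)) * s ^ (2 : ℕ) := by
    have hcs : 0 ≤ c * s := mul_nonneg hc hs.1
    have hcs1 : c * s ≤ 1 := by nlinarith only [hc, hc1, hs.2]
    have h4 := exp_le_q hcs hcs1
    interval_cases j
    · simp
    · simp only [Nat.cast_one, one_mul]
      linarith only [h4]
  refine h2.trans ?_
  have e : exp (-(w + t * (b * s ^ (2 : ℕ)))) = exp (-w) * exp (-(t * b * s ^ (2 : ℕ))) := by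
    rw [← exp_add]
    congr 1
    ring
  rw [e]
  unfold pg
  have h5 : 0 ≤ exp (-w) * exp (-(t * b * s ^ (2 : ℕ))) := by positivity
  have := mul_le_mul_of_nonneg_right h3 h5
  linarith only [this]

/-- left half of the core: `q ≥ g²`, `1 ≤ g' (1 + α g + β g²)` -/
theorem half_l {b t w α β : ℝ} {F q g g' : ℝ → ℝ} (hb : 0 < b) (hα : 0 ≤ α) (hβ : 0 ≤ β)
    (t0 : 0 < t) (t1 : t ≤ 1) (hw : exp (-w) ≤ t * √t)
    (hg : ∀ v, HasDerivAt g (g' v) v) (hg' : Continuous g') (hg0 : g 0 = 0)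
    (hgp : ∀ v : ℝ, 0 ≤ v → v ≤ 1 → 0 ≤ g v)
    (hgq : ∀ v : ℝ, 0 ≤ v → v ≤ 1 → g v ^ (2 : ℕ) ≤ q v)
    (hg1 : ∀ v : ℝ, 0 ≤ v → v ≤ 1 → 1 ≤ (1 + α * g v + β * g v ^ (2 : ℕ)) * g' v)
    (hFi : IntervalIntegrable F volume 0 1)
    (hF : ∀ v : ℝ, 0 ≤ v → v ≤ 1 → F v ≤ exp (-(w + t * (b * q v)))) :
    ∫ v in (0 : ℝ)..1, F v ≤ Ab b α β := by
  refine le_trans ?_ (Ab_t hb hα hβ t0 t1 hw)
  have h1 := mul_le_mul_of_nonneg_left (pg_le (T := g 1) (mul_pos t0 hb) hα hβ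
    (hgp 1 zero_le_one le_rfl)) (exp_pos (-w)).le
  refine le_trans ?_ h1
  have hsub := intervalIntegral.integral_comp_mul_deriv (a := 0) (b := 1) (f := g) (f' := g')
    (g := pg (t * b) α β) (fun v _ => hg v) hg'.continuousOn (pg_cont _ _ _)
  rw [hg0] at hsub
  have hgc : Continuous g := continuous_iff_continuousAt.2 fun v => (hg v).continuousAt
  rw [← hsub, ← intervalIntegral.integral_const_mul]
  refine intervalIntegral.integral_mono_on zero_le_one hFi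
    ((continuous_const.mul (((pg_cont _ _ _).comp hgc).mul hg')).intervalIntegrable _ _)
    fun v hv => ?_
  refine (hF v hv.1 hv.2).trans ?_
  have h2 := hgq v hv.1 hv.2
  have h3 := hg1 v hv.1 hv.2
  have e : exp (-(w + t * (b * q v))) ≤ exp (-w) * exp (-(t * b * g v ^ (2 : ℕ))) := by
    rw [← exp_add]
    apply exp_le_exp.2
    have := mul_le_mul_of_nonneg_left h2 (mul_pos t0 hb).le
    linarith only [this]
  refine e.trans ?_
  unfold pg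
  simp only [Function.comp]
  have h5 : 0 ≤ exp (-w) * exp (-(t * b * g v ^ (2 : ℕ))) := by positivity
  have := mul_le_mul_of_nonneg_right h3 h5
  linarith only [this]

end SokamV3O

end
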