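import Mathlib.Algebra.Order.Floor.Semifield
import Mathlib.Algebra.Ring.IsFormallyReal
import Mathlib.RingTheory.PowerSeries.Inverse
import Mathlib.Data.Rat.Star
import Mathlib.Geometry.Euclidean.Angle.Unoriented.TriangleInequality
import Mathlib.Analysis.Convex.Contractible
import Mathlib.Analysis.Calculus.Deriv.Star
import Mathlib.MeasureTheory.Integral.Gamma
import Mathlib.Analysis.Complex.LocallyUniformLimit
import Mathlib.Topology.Separation.CompletelyRegular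
import Mathlib.RingTheory.Flat.TorsionFree
import Mathlib.MeasureTheory.Order.Group.Lattice
import Mathlib.Data.Int.Star
import Mathlib.LinearAlgebra.Lagrange
import Mathlib.Analysis.Complex.Angle
import Mathlib.Analysis.Complex.BorelCaratheodory
import Mathlib.Analysis.Complex.CoveringMap
import Mathlib.Topology.Homotopy.Lifting
import Mathlib.Analysis.Complex.ExponentialBounds
import Mathlib.Analysis.Complex.HasPrimitives
import Mathlib.NumberTheory.DiophantineApproximation.Basic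
import Mathlib.Analysis.Complex.OpenMapping
import Mathlib.Analysis.SpecialFunctions.Trigonometric.DerivHyp
import Mathlib.RingTheory.SimpleRing.Principal
import Mathlib.Order.CompletePartialOrder
import Mathlib.Analysis.SpecialFunctions.Complex.LogBounds
import Mathlib.Analysis.SpecialFunctions.Gamma.BohrMollerup
import Mathlib.Analysis.SpecialFunctions.Trigonometric.Series
import Mathlib.Topology.MetricSpace.Sequences
import Mathlib.Analysis.Normed.Group.Tannery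
import Mathlib.Analysis.ODE.Gronwall
import Mathlib.Analysis.Real.Pi.Bounds
import Mathlib.Analysis.SpecialFunctions.Gaussian.PoissonSummation
import Mathlib.Analysis.SpecialFunctions.Trigonometric.InverseDeriv
import Mathlib.RingTheory.TotallySplit
import Mathlib.RingTheory.Etale.Weakly
import Mathlib.Tactic

/-! ### Lib_MP_af4de1_fa.FarNum -/

section
/-!
# FAR, stage 2: fixed point bounds

A natural number `n` stands for the real number `fx n = n / 2 ^ 40`.  Every operation comes with the inequality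
which it satisfies.  All functions are evaluated by the kernel.
-/

set_option autoImplicit false

namespace SokamFN

/-- the scale -/
abbrev SC : ℕ := 1099511627776

/-- the value -/
noncomputable def fx (n : ℕ) : ℝ := (n : ℝ) / 1099511627776

theorem fx_nonneg (n : ℕ) : 0 ≤ fx n := by unfold fx; positivity

theorem fx_mono {m n : ℕ} (h : m ≤ n) : fx m ≤ fx n := by
  unfold fx
  have : (m : ℝ) ≤ n := by exact_mod_cast h
  gcongr

theorem fx_zero : fx 0 = 0 := by simp [fx]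

theorem fx_one : fx SC = 1 := by unfold fx SC; norm_num

theorem fx_add (m n : ℕ) : fx (m + n) = fx m + fx n := by
  unfold fx; push_cast; ring

theorem fx_pos {n : ℕ} (h : 0 < n) : 0 < fx n := by
  unfold fx
  have : (0 : ℝ) < n := by exact_mod_cast h
  positivity

/-- upper bound of a product -/
def mU (m n : ℕ) : ℕ := m * n / SC + 1

/-- lower bound of a product -/
def mL (m n : ℕ) : ℕ := m * n / SC

/-- upper bound of a quotient -/
def dU (m n : ℕ) : ℕ := m * SC / n + 1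

/-- lower bound of a quotient -/
def dL (m n : ℕ) : ℕ := m * SC / n

theorem mL_le (m n : ℕ) : fx (mL m n) ≤ fx m * fx n := by
  unfold fx mL SC
  have h : ((m * n / 1099511627776 : ℕ) : ℝ) ≤ ((m * n : ℕ) : ℝ) / ((1099511627776 : ℕ) : ℝ) :=
    Nat.cast_div_le
  push_cast at h
  have e : (m : ℝ) / 1099511627776 * ((n : ℝ) / 1099511627776) =
      (m * n / 1099511627776) / 1099511627776 := by ring
  rw [e]
  gcongr

theorem le_mU (m n : ℕ) : fx m * fx n ≤ fx (mU m n) := by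
  unfold fx mU SC
  have h := Nat.lt_succ_floor ((m * n : ℝ) / 1099511627776)
  have h2 : ⌊((m * n : ℕ) : ℝ) / ((1099511627776 : ℕ) : ℝ)⌋₊ = m * n / 1099511627776 :=
    Nat.floor_div_eq_div _ _
  push_cast at h2
  rw [h2] at h
  have e : (m : ℝ) / 1099511627776 * ((n : ℝ) / 1099511627776) =
      (m * n / 1099511627776) / 1099511627776 := by ring
  rw [e]
  have h3 : (m * n : ℝ) / 1099511627776 ≤ ((m * n / 1099511627776 + 1 : ℕ) : ℝ) := h.le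
  gcongr

theorem dL_le (m n : ℕ) : fx (dL m n) ≤ fx m / fx n := by
  rcases Nat.eq_zero_or_pos n with rfl | hn
  · unfold dL; simp [fx_zero]
  · unfold fx dL SC
    have hn' : (0 : ℝ) < n := by exact_mod_cast hn
    have h : ((m * 1099511627776 / n : ℕ) : ℝ) ≤ ((m * 1099511627776 : ℕ) : ℝ) / (n : ℝ) :=
      Nat.cast_div_le
    push_cast at h
    have e : (m : ℝ) / 1099511627776 / ((n : ℝ) / 1099511627776) =
        (m * 1099511627776 / n) / 1099511627776 := by field_simp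
    rw [e]
    gcongr

theorem le_dU {m n : ℕ} (hn : 0 < n) : fx m / fx n ≤ fx (dU m n) := by
  unfold fx dU SC
  have hn' : (0 : ℝ) < n := by exact_mod_cast hn
  have h := Nat.lt_succ_floor ((m * 1099511627776 : ℝ) / n)
  have h2 : ⌊((m * 1099511627776 : ℕ) : ℝ) / (n : ℝ)⌋₊ = m * 1099511627776 / n :=
    Nat.floor_div_eq_div _ _
  push_cast at h2
  rw [h2] at h
  have e : (m : ℝ) / 1099511627776 / ((n : ℝ) / 1099511627776) =
      (m * 1099511627776 / n) / 1099511627776 := by field_simp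
  rw [e]
  have h3 : (m * 1099511627776 : ℝ) / n ≤ ((m * 1099511627776 / n + 1 : ℕ) : ℝ) := h.le
  gcongr

/-! ### the usable forms -/

theorem mulU {a b : ℝ} {m n : ℕ} (ha : a ≤ fx m) (hb : b ≤ fx n) (hb0 : 0 ≤ b) :
    a * b ≤ fx (mU m n) :=
  (mul_le_mul ha hb hb0 (fx_nonneg m)).trans (le_mU m n)

theorem mulL {a b : ℝ} {m n : ℕ} (ha : fx m ≤ a) (hb : fx n ≤ b) : fx (mL m n) ≤ a * b :=
  (mL_le m n).trans (mul_le_mul ha hb (fx_nonneg n) ((fx_nonneg m).trans ha))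

theorem divU {a b : ℝ} {m n : ℕ} (ha : a ≤ fx m) (hb : fx n ≤ b) (hn : 0 < n) :
    a / b ≤ fx (dU m n) := by
  refine le_trans ?_ (le_dU hn)
  have := fx_pos hn
  exact div_le_div₀ (fx_nonneg m) ha this hb

theorem divL {a b : ℝ} {m n : ℕ} (ha : fx m ≤ a) (hb : b ≤ fx n) (hb0 : 0 < b) :
    fx (dL m n) ≤ a / b := by
  refine (dL_le m n).trans ?_
  exact div_le_div₀ ((fx_nonneg m).trans ha) ha hb0 hb

theorem subU {a b : ℝ} {m n : ℕ} (ha : a ≤ fx m) (hb : fx n ≤ b) : a - b ≤ fx (m - n) := by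
  have h : fx m - fx n ≤ fx (m - n) := by
    rcases le_total n m with h | h
    · have : fx m = fx (m - n) + fx n := by rw [← fx_add]; congr 1; omega
      linarith
    · have h1 : fx m ≤ fx n := fx_mono h
      have h2 := fx_nonneg (m - n)
      linarith
  linarith

theorem subL {a b : ℝ} {m n : ℕ} (ha : fx m ≤ a) (hb : b ≤ fx n) (h : n ≤ m) :
    fx (m - n) ≤ a - b := by
  have : fx m = fx (m - n) + fx n := by rw [← fx_add]; congr 1; omega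
  linarith

theorem addU {a b : ℝ} {m n : ℕ} (ha : a ≤ fx m) (hb : b ≤ fx n) : a + b ≤ fx (m + n) := by
  rw [fx_add]; linarith

theorem addL {a b : ℝ} {m n : ℕ} (ha : fx m ≤ a) (hb : fx n ≤ b) : fx (m + n) ≤ a + b := by
  rw [fx_add]; linarith

theorem minU {a b : ℝ} {m n : ℕ} (ha : a ≤ fx m) (hb : b ≤ fx n) : min a b ≤ fx (min m n) := by
  rcases le_total m n with h | h
  · rw [min_eq_left h]; exact (min_le_left _ _).trans ha
  · rw [min_eq_right h]; exact (min_le_right _ _).trans hb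

theorem minL {a b : ℝ} {m n : ℕ} (ha : fx m ≤ a) (hb : fx n ≤ b) : fx (min m n) ≤ min a b :=
  le_min ((fx_mono (min_le_left _ _)).trans ha) ((fx_mono (min_le_right _ _)).trans hb)

theorem maxU {a b : ℝ} {m n : ℕ} (ha : a ≤ fx m) (hb : b ≤ fx n) : max a b ≤ fx (max m n) :=
  max_le (ha.trans (fx_mono (le_max_left _ _))) (hb.trans (fx_mono (le_max_right _ _)))

/-! ### square roots -/

/-- upper bound of the square root -/
def sqU (n : ℕ) : ℕ := Nat.sqrt (n * SC) + 1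

/-- lower bound of the square root -/
def sqL (n : ℕ) : ℕ := Nat.sqrt (n * SC)

theorem sqrtU {a : ℝ} {n : ℕ} (ha : a ≤ fx n) : √a ≤ fx (sqU n) := by
  refine (Real.sqrt_le_sqrt ha).trans ?_
  rw [Real.sqrt_le_left (fx_nonneg _)]
  unfold fx sqU SC
  have h : n * 1099511627776 < (Nat.sqrt (n * 1099511627776) + 1) ^ (2 : ℕ) := Nat.lt_succ_sqrt' _
  have h2 : ((n * 1099511627776 : ℕ) : ℝ) ≤ (((Nat.sqrt (n * 1099511627776) + 1) ^ (2 : ℕ) : ℕ) : ℝ) := by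
    exact_mod_cast h.le
  push_cast at h2 ⊢
  rw [div_pow, div_le_div_iff₀ (by norm_num) (by norm_num)]
  linarith only [h2]

theorem sqrtL {a : ℝ} {n : ℕ} (ha : fx n ≤ a) : fx (sqL n) ≤ √a := by
  refine le_trans ?_ (Real.sqrt_le_sqrt ha)
  refine Real.le_sqrt_of_sq_le ?_
  unfold fx sqL SC
  have h : Nat.sqrt (n * 1099511627776) ^ (2 : ℕ) ≤ n * 1099511627776 := Nat.sqrt_le' _
  have h2 : (((Nat.sqrt (n * 1099511627776)) ^ (2 : ℕ) : ℕ) : ℝ) ≤ ((n * 1099511627776 : ℕ) : ℝ) := by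
    exact_mod_cast h
  push_cast at h2
  rw [div_pow, div_le_div_iff₀ (by norm_num) (by norm_num)]
  linarith only [h2]

/-! ### the exponential function -/

/-- `1 + z + z²/2 + z³/6 + z⁴/24`, lower bound -/
def eT (z : ℕ) : ℕ :=
  let z2 := mL z z
  let z3 := mL z2 z
  let z4 := mL z3 z
  SC + z + z2 / 2 + z3 / 6 + z4 / 24

/-- repeated squaring, lower bound -/
def sqN : ℕ → ℕ → ℕ
  | 0, n => n
  | k + 1, n => sqN k (mL n n)

/-- lower bound of `exp (fx a)`, argument divided by `2 ^ 8` -/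
def eL (a : ℕ) : ℕ := sqN 8 (eT (a / 256))

/-- upper bound of `exp (-fx a)` -/
def eN (a : ℕ) : ℕ := dU SC (eL a)

theorem fx_div (m k : ℕ) (hk : 0 < k) : fx (m / k) ≤ fx m / k := by
  unfold fx
  have hk' : (0 : ℝ) < k := by exact_mod_cast hk
  have h : ((m / k : ℕ) : ℝ) ≤ (m : ℝ) / (k : ℝ) := Nat.cast_div_le
  rw [div_right_comm]
  gcongr

theorem eT_le (z : ℕ) : fx (eT z) ≤ Real.exp (fx z) := by
  have h0 := fx_nonneg z
  have h2 := mL_le z z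
  have h3 := (mL_le (mL z z) z).trans (mul_le_mul_of_nonneg_right h2 h0)
  have h4 := (mL_le (mL (mL z z) z) z).trans (mul_le_mul_of_nonneg_right h3 h0)
  have d2 := (fx_div (mL z z) 2 (by norm_num))
  have d3 := (fx_div (mL (mL z z) z) 6 (by norm_num))
  have d4 := (fx_div (mL (mL (mL z z) z) z) 24 (by norm_num))
  have e := Real.sum_le_exp_of_nonneg h0 5
  simp only [Finset.sum_range_succ, Finset.sum_range_zero, Nat.factorial] at e
  norm_num at e d2 d3 d4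
  unfold eT
  simp only [fx_add, fx_one]
  linarith only [h2, h3, h4, e, d2, d3, d4]

theorem sqN_le (k n : ℕ) (a : ℝ) (h : fx n ≤ Real.exp a) : fx (sqN k n) ≤ Real.exp (2 ^ k * a) := by
  induction k generalizing n a with
  | zero => simpa [sqN] using h
  | succ k ih =>
    have h2 : fx (mL n n) ≤ Real.exp (2 * a) := by
      refine (mL_le n n).trans ?_
      rw [two_mul, Real.exp_add]
      exact mul_le_mul h h (fx_nonneg n) (Real.exp_pos _).le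
    have := ih (mL n n) (2 * a) h2
    rw [sqN, pow_succ, mul_assoc]
    exact this

theorem eL_le (a : ℕ) : fx (eL a) ≤ Real.exp (fx a) := by
  have h := sqN_le 8 (eT (a / 256)) (fx (a / 256)) (eT_le _)
  refine h.trans (Real.exp_le_exp.2 ?_)
  have := fx_div a 256 (by norm_num)
  norm_num at this ⊢
  linarith

/-- `exp (-y)` for `y ≥ fx a` -/
theorem expU {y : ℝ} {a : ℕ} (h : fx a ≤ y) (hp : 0 < eL a) : Real.exp (-y) ≤ fx (eN a) := by
  have h1 : Real.exp (-y) = 1 / Real.exp y := by rw [Real.exp_neg, one_div]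
  rw [h1]
  exact divU (by rw [fx_one]) ((eL_le a).trans (Real.exp_le_exp.2 h)) hp

/-- `eL` is always positive -/
theorem eT_pos (z : ℕ) : SC ≤ eT z := by unfold eT; simp only; omega

theorem sqN_ge (k n : ℕ) (h : SC ≤ n) : SC ≤ sqN k n := by
  induction k generalizing n with
  | zero => simpa [sqN] using h
  | succ k ih =>
    refine ih _ ?_
    unfold mL
    rw [Nat.le_div_iff_mul_le (by norm_num)]
    exact Nat.mul_le_mul h h

theorem eL_pos (a : ℕ) : 0 < eL a :=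
  lt_of_lt_of_le (by norm_num) (sqN_ge 8 _ (eT_pos _))

theorem expNegU {y : ℝ} {a : ℕ} (h : fx a ≤ y) : Real.exp (-y) ≤ fx (eN a) := expU h (eL_pos a)

/-- upper bound of `exp T` for `0 ≤ T ≤ 1` -/
def eUp (t : ℕ) : ℕ :=
  let t2 := mU t t
  let t3 := mU t2 t
  SC + t + (t2 / 2 + 1) + mU 240029388344 t3

theorem exp_poly {T : ℝ} (h0 : 0 ≤ T) (h1 : T ≤ 1) :
    Real.exp T ≤ 1 + T + T ^ (2 : ℕ) / 2 + 21830482 / 100000000 * T ^ (3 : ℕ) := by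
  -- `exp T ≤ 1 + T + T²/2 + T³/6 + T⁴/24 + ...`
  have h := Real.exp_bound' h0 h1 (n := 9) (by norm_num)
  simp only [Finset.sum_range_succ, Finset.sum_range_zero, Nat.factorial] at h
  norm_num at h
  have a1 : T ^ (4 : ℕ) ≤ T ^ (3 : ℕ) := pow_le_pow_of_le_one h0 h1 (by norm_num)
  have a2 : T ^ (5 : ℕ) ≤ T ^ (3 : ℕ) := pow_le_pow_of_le_one h0 h1 (by norm_num)
  have a3 : T ^ (6 : ℕ) ≤ T ^ (3 : ℕ) := pow_le_pow_of_le_one h0 h1 (by norm_num)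
  have a4 : T ^ (7 : ℕ) ≤ T ^ (3 : ℕ) := pow_le_pow_of_le_one h0 h1 (by norm_num)
  have a5 : T ^ (8 : ℕ) ≤ T ^ (3 : ℕ) := pow_le_pow_of_le_one h0 h1 (by norm_num)
  have a6 : T ^ (9 : ℕ) ≤ T ^ (3 : ℕ) := pow_le_pow_of_le_one h0 h1 (by norm_num)
  have a0 : 0 ≤ T ^ (3 : ℕ) := by positivity
  nlinarith only [h1, h, a1, a2]

theorem expPosU {T : ℝ} {t : ℕ} (h0 : 0 ≤ T) (h1 : T ≤ 1) (h : T ≤ fx t) :
    Real.exp T ≤ fx (eUp t) := by
  refine (exp_poly h0 h1).trans ?_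
  have h2 : T ^ (2 : ℕ) ≤ fx (mU t t) := by
    have := mulU h h h0
    linarith only [this]
  have h3 : T ^ (3 : ℕ) ≤ fx (mU (mU t t) t) := by
    have := mulU h2 h h0
    linarith only [this]
  have h4 : T ^ (2 : ℕ) / 2 ≤ fx (mU t t / 2 + 1) := by
    refine (div_le_div_of_nonneg_right h2 (by norm_num : (0:ℝ) ≤ 2)).trans ?_
    unfold fx
    have h5 : mU t t < (mU t t / 2 + 1) * 2 := by omega
    have h6 : ((mU t t : ℕ) : ℝ) ≤ (((mU t t / 2 + 1) * 2 : ℕ) : ℝ) := by exact_mod_cast h5.le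
    push_cast at h6 ⊢
    rw [div_right_comm]
    gcongr
    linarith
  have h5 : 21830482 / 100000000 * T ^ (3 : ℕ) ≤ fx (mU 240029388344 (mU (mU t t) t)) := by
    refine mulU ?_ h3 (by positivity)
    unfold fx
    norm_num
  rw [fx_add] at h4
  unfold eUp
  simp only [fx_add, fx_one]
  linarith

end SokamFN

end

/-! ### Lib_MP_af4de1_v3.CelCore -/

section
namespace SokamFN
end SokamFN
/-!
# Cells, core: bisection of a box in three variables, bounds of `(1 - cos θ)/θ²`, lower bound of `exp (-y)`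
-/

set_option autoImplicit false

namespace SokamCel

open SokamFN

/-! ### bisection -/

/-- Bisection: `ok` holds on the box or on both halves (the longest weighted side is halved). -/
def bis (ok : ℕ → ℕ → ℕ → ℕ → ℕ → ℕ → Bool) (wx wy wz : ℕ) :
    ℕ → ℕ → ℕ → ℕ → ℕ → ℕ → ℕ → Bool
  | 0, x0, x1, y0, y1, z0, z1 => ok x0 x1 y0 y1 z0 z1
  | n + 1, x0, x1, y0, y1, z0, z1 =>
    ok x0 x1 y0 y1 z0 z1 ||
      bif Nat.ble (wy * (y1 - y0)) (wx * (x1 - x0)) && Nat.ble (wz * (z1 - z0)) (wx * (x1 - x0)) then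
        bis ok wx wy wz n x0 ((x0 + x1) / 2) y0 y1 z0 z1 &&
          bis ok wx wy wz n ((x0 + x1) / 2) x1 y0 y1 z0 z1
      else
        bif Nat.ble (wz * (z1 - z0)) (wy * (y1 - y0)) then
          bis ok wx wy wz n x0 x1 y0 ((y0 + y1) / 2) z0 z1 &&
            bis ok wx wy wz n x0 x1 ((y0 + y1) / 2) y1 z0 z1
        else
          bis ok wx wy wz n x0 x1 y0 y1 z0 ((z0 + z1) / 2) &&
            bis ok wx wy wz n x0 x1 y0 y1 ((z0 + z1) / 2) z1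

theorem bis_sound {P : ℝ → ℝ → ℝ → Prop} {ok : ℕ → ℕ → ℕ → ℕ → ℕ → ℕ → Bool}
    (hok : ∀ x0 x1 y0 y1 z0 z1, ok x0 x1 y0 y1 z0 z1 = true → ∀ x y z : ℝ, fx x0 ≤ x → x ≤ fx x1 →
      fx y0 ≤ y → y ≤ fx y1 → fx z0 ≤ z → z ≤ fx z1 → P x y z) (wx wy wz : ℕ) :
    ∀ n x0 x1 y0 y1 z0 z1, bis ok wx wy wz n x0 x1 y0 y1 z0 z1 = true → ∀ x y z : ℝ, fx x0 ≤ x →
      x ≤ fx x1 → fx y0 ≤ y → y ≤ fx y1 → fx z0 ≤ z → z ≤ fx z1 → P x y z := by
  intro n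
  induction n with
  | zero => intro x0 x1 y0 y1 z0 z1 h; exact hok _ _ _ _ _ _ h
  | succ n ih =>
    intro x0 x1 y0 y1 z0 z1 h x y z h1 h2 h3 h4 h5 h6
    rw [bis, Bool.or_eq_true] at h
    rcases h with h | h
    · exact hok _ _ _ _ _ _ h x y z h1 h2 h3 h4 h5 h6
    · cases hb : (Nat.ble (wy * (y1 - y0)) (wx * (x1 - x0)) &&
          Nat.ble (wz * (z1 - z0)) (wx * (x1 - x0))) with
      | true =>
        rw [hb] at h
        simp only [cond_true, Bool.and_eq_true] at h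
        rcases le_total x (fx ((x0 + x1) / 2)) with hx | hx
        · exact ih _ _ _ _ _ _ h.1 x y z h1 hx h3 h4 h5 h6
        · exact ih _ _ _ _ _ _ h.2 x y z hx h2 h3 h4 h5 h6
      | false =>
        rw [hb] at h
        simp only [cond_false] at h
        cases hc : Nat.ble (wz * (z1 - z0)) (wy * (y1 - y0)) with
        | true =>
          rw [hc] at h
          simp only [cond_true, Bool.and_eq_true] at h
          rcases le_total y (fx ((y0 + y1) / 2)) with hx | hx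
          · exact ih _ _ _ _ _ _ h.1 x y z h1 h2 h3 hx h5 h6
          · exact ih _ _ _ _ _ _ h.2 x y z h1 h2 hx h4 h5 h6
        | false =>
          rw [hc] at h
          simp only [cond_false, Bool.and_eq_true] at h
          rcases le_total z (fx ((z0 + z1) / 2)) with hx | hx
          · exact ih _ _ _ _ _ _ h.1 x y z h1 h2 h3 h4 h5 hx
          · exact ih _ _ _ _ _ _ h.2 x y z h1 h2 h3 h4 hx h6

/-! ### cosine -/

private theorem CelC_mono {F F' : ℝ → ℝ} (hd : ∀ x, HasDerivAt F (F' x) x) (h0 : F 0 = 0)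
    (hF' : ∀ x, 0 ≤ x → 0 ≤ F' x) {x : ℝ} (hx : 0 ≤ x) : 0 ≤ F x := by
  have h1 : MonotoneOn F (Set.Ici 0) := by
    refine monotoneOn_of_deriv_nonneg (convex_Ici 0)
      (fun y _ => (hd y).continuousAt.continuousWithinAt)
      (fun y _ => (hd y).differentiableAt.differentiableWithinAt) fun y hy => ?_
    rw [interior_Ici] at hy
    rw [(hd y).deriv]
    exact hF' y (le_of_lt hy)
  have := h1 (Set.mem_Ici.2 le_rfl) (Set.mem_Ici.2 hx) hx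
  rwa [h0] at this

private theorem CelC_pw (n : ℕ) (c : ℝ) (x : ℝ) :
    HasDerivAt (fun x : ℝ => x ^ n / c) (n * x ^ (n - 1) / c) x :=
  (hasDerivAt_pow n x).div_const c

private theorem CelC_sin1 {x : ℝ} (hx : 0 ≤ x) : Real.sin x ≤ x := Real.sin_le hx

private theorem CelC_cos2 {x : ℝ} (hx : 0 ≤ x) : 1 - x ^ (2 : ℕ) / 2 ≤ Real.cos x := by
  have h := CelC_mono (F := fun x => Real.cos x - (1 - x ^ (2 : ℕ) / 2)) (F' := fun x => x - Real.sin x)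
    (fun x => ?_) (by simp) (fun x hx => ?_) hx
  · linarith only [h]
  · refine HasDerivAt.congr_deriv ((Real.hasDerivAt_cos x).sub ((hasDerivAt_const x (1 : ℝ)).sub (CelC_pw 2 2 x))) ?_
    norm_num
    ring
  · have h := CelC_sin1 hx
    linarith only [h]

private theorem CelC_sin3 {x : ℝ} (hx : 0 ≤ x) : x - x ^ (3 : ℕ) / 6 ≤ Real.sin x := by
  have h := CelC_mono (F := fun x => Real.sin x - (x - x ^ (3 : ℕ) / 6)) (F' := fun x => Real.cos x - (1 - x ^ (2 : ℕ) / 2))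
    (fun x => ?_) (by simp) (fun x hx => ?_) hx
  · linarith only [h]
  · refine HasDerivAt.congr_deriv ((Real.hasDerivAt_sin x).sub ((hasDerivAt_id x).sub (CelC_pw 3 6 x))) ?_
    norm_num
    ring
  · have h := CelC_cos2 hx
    linarith only [h]

private theorem CelC_cos4 {x : ℝ} (hx : 0 ≤ x) : Real.cos x ≤ 1 - x ^ (2 : ℕ) / 2 + x ^ (4 : ℕ) / 24 := by
  have h := CelC_mono (F := fun x => (1 - x ^ (2 : ℕ) / 2 + x ^ (4 : ℕ) / 24) - Real.cos x) (F' := fun x => Real.sin x - (x - x ^ (3 : ℕ) / 6))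
    (fun x => ?_) (by simp) (fun x hx => ?_) hx
  · linarith only [h]
  · refine HasDerivAt.congr_deriv ((((hasDerivAt_const x (1 : ℝ)).sub (CelC_pw 2 2 x)).add (CelC_pw 4 24 x)).sub (Real.hasDerivAt_cos x)) ?_
    norm_num
    ring
  · have h := CelC_sin3 hx
    linarith only [h]

private theorem CelC_sin5 {x : ℝ} (hx : 0 ≤ x) : Real.sin x ≤ x - x ^ (3 : ℕ) / 6 + x ^ (5 : ℕ) / 120 := by
  have h := CelC_mono (F := fun x => (x - x ^ (3 : ℕ) / 6 + x ^ (5 : ℕ) / 120) - Real.sin x) (F' := fun x => (1 - x ^ (2 : ℕ) / 2 + x ^ (4 : ℕ) / 24) - Real.cos x)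
    (fun x => ?_) (by simp) (fun x hx => ?_) hx
  · linarith only [h]
  · refine HasDerivAt.congr_deriv ((((hasDerivAt_id x).sub (CelC_pw 3 6 x)).add (CelC_pw 5 120 x)).sub (Real.hasDerivAt_sin x)) ?_
    norm_num
    ring
  · have h := CelC_cos4 hx
    linarith only [h]

theorem cos6 {x : ℝ} (hx : 0 ≤ x) : 1 - x ^ (2 : ℕ) / 2 + x ^ (4 : ℕ) / 24 - x ^ (6 : ℕ) / 720 ≤ Real.cos x := by
  have h := CelC_mono (F := fun x => Real.cos x - (1 - x ^ (2 : ℕ) / 2 + x ^ (4 : ℕ) / 24 - x ^ (6 : ℕ) / 720)) (F' := fun x => (x - x ^ (3 : ℕ) / 6 + x ^ (5 : ℕ) / 120) - Real.sin x)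
    (fun x => ?_) (by simp) (fun x hx => ?_) hx
  · linarith only [h]
  · refine HasDerivAt.congr_deriv ((Real.hasDerivAt_cos x).sub ((((hasDerivAt_const x (1 : ℝ)).sub (CelC_pw 2 2 x)).add (CelC_pw 4 24 x)).sub (CelC_pw 6 720 x))) ?_
    norm_num
    ring
  · have h := CelC_sin5 hx
    linarith only [h]

private theorem CelC_sin7 {x : ℝ} (hx : 0 ≤ x) : x - x ^ (3 : ℕ) / 6 + x ^ (5 : ℕ) / 120 - x ^ (7 : ℕ) / 5040 ≤ Real.sin x := by
  have h := CelC_mono (F := fun x => Real.sin x - (x - x ^ (3 : ℕ) / 6 + x ^ (5 : ℕ) / 120 - x ^ (7 : ℕ) / 5040)) (F' := fun x => Real.cos x - (1 - x ^ (2 : ℕ) / 2 + x ^ (4 : ℕ) / 24 - x ^ (6 : ℕ) / 720))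
    (fun x => ?_) (by simp) (fun x hx => ?_) hx
  · linarith only [h]
  · refine HasDerivAt.congr_deriv ((Real.hasDerivAt_sin x).sub ((((hasDerivAt_id x).sub (CelC_pw 3 6 x)).add (CelC_pw 5 120 x)).sub (CelC_pw 7 5040 x))) ?_
    norm_num
    ring
  · have h := cos6 hx
    linarith only [h]

theorem cos8 {x : ℝ} (hx : 0 ≤ x) : Real.cos x ≤ 1 - x ^ (2 : ℕ) / 2 + x ^ (4 : ℕ) / 24 - x ^ (6 : ℕ) / 720 + x ^ (8 : ℕ) / 40320 := by
  have h := CelC_mono (F := fun x => (1 - x ^ (2 : ℕ) / 2 + x ^ (4 : ℕ) / 24 - x ^ (6 : ℕ) / 720 + x ^ (8 : ℕ) / 40320) - Real.cos x) (F' := fun x => Real.sin x - (x - x ^ (3 : ℕ) / 6 + x ^ (5 : ℕ) / 120 - x ^ (7 : ℕ) / 5040))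
    (fun x => ?_) (by simp) (fun x hx => ?_) hx
  · linarith only [h]
  · refine HasDerivAt.congr_deriv ((((((hasDerivAt_const x (1 : ℝ)).sub (CelC_pw 2 2 x)).add (CelC_pw 4 24 x)).sub (CelC_pw 6 720 x)).add (CelC_pw 8 40320 x)).sub (Real.hasDerivAt_cos x)) ?_
    norm_num
    ring
  · have h := CelC_sin7 hx
    linarith only [h]

/-- `b(θ) = (1 - cos θ)/θ²` -/
noncomputable def bq (θ : ℝ) : ℝ := (1 - Real.cos θ) / θ ^ (2 : ℕ)

/-- lower polynomial in `x = θ²` -/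
theorem bq_ge {θ X : ℝ} (h0 : 0 < θ) (hX : θ ^ (2 : ℕ) ≤ X) :
    1 / 2 - X / 24 + X ^ (2 : ℕ) / 720 - X ^ (3 : ℕ) / 40320 ≤ bq θ := by
  have h1 := cos8 h0.le
  have h2 : 1 / 2 - θ ^ (2 : ℕ) / 24 + (θ ^ (2 : ℕ)) ^ (2 : ℕ) / 720 - (θ ^ (2 : ℕ)) ^ (3 : ℕ) / 40320 ≤ bq θ := by
    unfold bq
    rw [le_div_iff₀ (by positivity)]
    linarith only [h1]
  refine le_trans ?_ h2
  obtain ⟨x, hx⟩ : ∃ x, x = θ ^ (2 : ℕ) := ⟨_, rfl⟩
  rw [← hx] at hX ⊢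
  have hx0 : 0 ≤ x := by rw [hx]; positivity
  have e : 1 / 2 - x / 24 + x ^ (2 : ℕ) / 720 - x ^ (3 : ℕ) / 40320 - (1 / 2 - X / 24 + X ^ (2 : ℕ) / 720 - X ^ (3 : ℕ) / 40320) =
      (X - x) * (1 / 24 - (X + x) / 720 + (X ^ (2 : ℕ) + X * x + x ^ (2 : ℕ)) / 40320) := by ring
  have h3 : 0 ≤ 1 / 24 - (X + x) / 720 + (X ^ (2 : ℕ) + X * x + x ^ (2 : ℕ)) / 40320 := by
    nlinarith only [sq_nonneg (X + x - 37)]
  have h4 := mul_nonneg (sub_nonneg.2 hX) h3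
  linarith only [h4]

/-- upper polynomial in `x = θ²` -/
theorem bq_le {θ X : ℝ} (h0 : 0 < θ) (hX : X ≤ θ ^ (2 : ℕ)) (h1 : θ ^ (2 : ℕ) ≤ 15) (hX0 : 0 ≤ X) :
    bq θ ≤ 1 / 2 - X / 24 + X ^ (2 : ℕ) / 720 := by
  have h1' := cos6 h0.le
  have h2 : bq θ ≤ 1 / 2 - θ ^ (2 : ℕ) / 24 + (θ ^ (2 : ℕ)) ^ (2 : ℕ) / 720 := by
    unfold bq
    rw [div_le_iff₀ (by positivity)]
    linarith only [h1']
  refine h2.trans ?_
  obtain ⟨x, hx⟩ : ∃ x, x = θ ^ (2 : ℕ) := ⟨_, rfl⟩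
  rw [← hx] at hX h1 ⊢
  have e : (1 / 2 - X / 24 + X ^ (2 : ℕ) / 720) - (1 / 2 - x / 24 + x ^ (2 : ℕ) / 720) =
      (x - X) * (1 / 24 - (x + X) / 720) := by ring
  have h4 := mul_nonneg (sub_nonneg.2 hX) (by linarith : (0 : ℝ) ≤ 1 / 24 - (x + X) / 720)
  linarith only [h4]

theorem bq_pos {θ : ℝ} (h0 : 0 < θ) (h1 : θ < 2 * Real.pi) : 0 < bq θ := by
  unfold bq
  have h2 : Real.cos θ < 1 := by
    have e : Real.cos θ = 1 - 2 * Real.sin (θ / 2) ^ (2 : ℕ) := by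
      have : θ = 2 * (θ / 2) := by ring
      conv_lhs => rw [this]
      rw [Real.cos_two_mul, Real.cos_sq']
      ring
    have hs : 0 < Real.sin (θ / 2) := Real.sin_pos_of_pos_of_lt_pi (by linarith only [h0]) (by linarith only [h1])
    have : 0 < Real.sin (θ / 2) ^ (2 : ℕ) := by positivity
    linarith only [e, this]
  exact div_pos (by linarith only [h2]) (by positivity)

theorem fx_divU (m k : ℕ) (hk : 0 < k) : fx m / k ≤ fx (m / k + 1) := by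
  unfold fx
  have hk' : (0 : ℝ) < k := by exact_mod_cast hk
  have h : m < (m / k + 1) * k := by
    have := Nat.lt_div_mul_add hk (a := m)
    have h2 := Nat.div_add_mod m k
    have h3 := Nat.mod_lt m hk
    linarith only [h2, h3]
  have h2 : (m : ℝ) ≤ ((m / k + 1 : ℕ) : ℝ) * k := by exact_mod_cast h.le
  rw [div_right_comm]
  have : (m : ℝ) / k ≤ ((m / k + 1 : ℕ) : ℝ) := by rwa [div_le_iff₀ hk']
  gcongr

theorem fx_half : fx 549755813888 = 1 / 2 := by unfold fx; norm_num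

/-- lower bound of `b(θ)` for `θ ≤ fx t` -/
def bL (t : ℕ) : ℕ :=
  let x := mU t t
  549755813888 + mL x x / 720 - (x / 24 + 1 + (mU (mU x x) x / 40320 + 1))

theorem bL_le {θ : ℝ} {t : ℕ} (h0 : 0 < θ) (h : θ ≤ fx t)
    (hp : (mU t t / 24 + 1 + (mU (mU (mU t t) (mU t t)) (mU t t) / 40320 + 1)) ≤
      549755813888 + mL (mU t t) (mU t t) / 720) : fx (bL t) ≤ bq θ := by
  have hx : θ ^ (2 : ℕ) ≤ fx (mU t t) := by
    have := mulU h h h0.le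
    linarith only [this]
  refine le_trans ?_ (bq_ge h0 hx)
  unfold bL
  obtain ⟨x, hx'⟩ : ∃ x, x = mU t t := ⟨_, rfl⟩
  simp only [← hx'] at hp ⊢
  have h1 : fx (mL x x / 720) ≤ fx x ^ (2 : ℕ) / 720 := by
    refine (fx_div _ 720 (by norm_num)).trans ?_
    have := mL_le x x
    have h2 : fx x ^ (2 : ℕ) = fx x * fx x := by ring
    rw [h2]
    push_cast
    gcongr
  have h2 : fx x / 24 ≤ fx (x / 24 + 1) := by
    have := fx_divU x 24 (by norm_num)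
    exact_mod_cast this
  have h3 : fx x ^ (3 : ℕ) / 40320 ≤ fx (mU (mU x x) x / 40320 + 1) := by
    have h4 := fx_divU (mU (mU x x) x) 40320 (by norm_num)
    have h5 : fx x ^ (3 : ℕ) ≤ fx (mU (mU x x) x) := by
      have h6 := mulU (le_mU x x) (le_refl (fx x)) (fx_nonneg x)
      calc fx x ^ (3 : ℕ) = fx x * fx x * fx x := by ring
        _ ≤ _ := h6
    refine le_trans ?_ h4
    push_cast
    gcongr
  have h4 : fx 549755813888 = 1 / 2 := fx_half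
  have h5 : fx (549755813888 + mL x x / 720 - (x / 24 + 1 + (mU (mU x x) x / 40320 + 1))) =
      fx (549755813888 + mL x x / 720) - fx (x / 24 + 1 + (mU (mU x x) x / 40320 + 1)) := by
    have : fx (549755813888 + mL x x / 720) =
        fx (549755813888 + mL x x / 720 - (x / 24 + 1 + (mU (mU x x) x / 40320 + 1))) +
        fx (x / 24 + 1 + (mU (mU x x) x / 40320 + 1)) := by
      rw [← fx_add]; congr 1; omega
    linarith only [this]
  rw [h5, fx_add 549755813888, fx_add (x / 24 + 1)]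
  linarith only [h1, h2, h3, h4]

/-- upper bound of `b(θ)` for `fx t ≤ θ` -/
def bU (t : ℕ) : ℕ :=
  let x := mL t t
  549755813888 + (mU x x / 720 + 1) - x / 24

theorem le_bU {θ : ℝ} {t : ℕ} (h0 : 0 < θ) (h : fx t ≤ θ) (h1 : θ ^ (2 : ℕ) ≤ 15) : bq θ ≤ fx (bU t) := by
  have hx : fx (mL t t) ≤ θ ^ (2 : ℕ) := by
    have := mulL h h
    linarith only [this]
  refine (bq_le h0 hx h1 (fx_nonneg _)).trans ?_
  unfold bU
  obtain ⟨x, hx'⟩ : ∃ x, x = mL t t := ⟨_, rfl⟩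
  simp only [← hx']
  have h2 : fx (x / 24) ≤ fx x / 24 := by
    have := fx_div x 24 (by norm_num)
    exact_mod_cast this
  have h3 : fx x ^ (2 : ℕ) / 720 ≤ fx (mU x x / 720 + 1) := by
    have h4 := fx_divU (mU x x) 720 (by norm_num)
    have h5 : fx x ^ (2 : ℕ) ≤ fx (mU x x) := by
      have := le_mU x x
      linarith only [this]
    refine le_trans ?_ h4
    push_cast
    gcongr
  have h4 := subU (a := 1 / 2 + fx x ^ (2 : ℕ) / 720) (b := fx x / 24) (addU (by rw [fx_half]) h3) h2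
  linarith only [h4]

/-! ### lower bound of `exp (-y)` -/

private theorem CelC_em1 {t : ℝ} : 1 - t ≤ Real.exp (-t) := by
  have := Real.add_one_le_exp (-t)
  linarith only [this]

private theorem CelC_em2 {t : ℝ} (ht : 0 ≤ t) : Real.exp (-t) ≤ 1 - t + t ^ (2 : ℕ) / 2 := by
  have h := CelC_mono (F := fun t => (1 - t + t ^ (2 : ℕ) / 2) - Real.exp (-t))
    (F' := fun t => Real.exp (-t) - (1 - t)) (fun x => ?_) (by simp) (fun x hx => ?_) ht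
  · linarith only [h]
  · have hd : HasDerivAt (fun t : ℝ => Real.exp (-t)) (Real.exp (-x) * (-1)) x :=
      (hasDerivAt_neg x).exp
    refine HasDerivAt.congr_deriv ((((hasDerivAt_const x (1 : ℝ)).sub (hasDerivAt_id x)).add
      (CelC_pw 2 2 x)).sub hd) ?_
    norm_num
    ring
  · have := CelC_em1 (t := x)
    linarith only [this]

theorem em3 {t : ℝ} (ht : 0 ≤ t) : 1 - t + t ^ (2 : ℕ) / 2 - t ^ (3 : ℕ) / 6 ≤ Real.exp (-t) := by
  have h := CelC_mono (F := fun t => Real.exp (-t) - (1 - t + t ^ (2 : ℕ) / 2 - t ^ (3 : ℕ) / 6))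
    (F' := fun t => (1 - t + t ^ (2 : ℕ) / 2) - Real.exp (-t)) (fun x => ?_) (by simp) (fun x hx => ?_) ht
  · linarith only [h]
  · have hd : HasDerivAt (fun t : ℝ => Real.exp (-t)) (Real.exp (-x) * (-1)) x :=
      (hasDerivAt_neg x).exp
    refine HasDerivAt.congr_deriv (hd.sub ((((hasDerivAt_const x (1 : ℝ)).sub (hasDerivAt_id x)).add
      (CelC_pw 2 2 x)).sub (CelC_pw 3 6 x))) ?_
    norm_num
    ring
  · have := CelC_em2 hx
    linarith only [this]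

/-- lower bound of `exp (-y)` for `y ≤ fx a` -/
def eNL (a : ℕ) : ℕ :=
  let z := a / 256 + 1
  sqN 8 (SC + mL z z / 2 - (z + (mU (mU z z) z / 6 + 1)))

theorem eNL_le {y : ℝ} {a : ℕ} (h : y ≤ fx a) : fx (eNL a) ≤ Real.exp (-y) := by
  obtain ⟨z, hz⟩ : ∃ z, z = a / 256 + 1 := ⟨_, rfl⟩
  have hz1 : fx a / 256 ≤ fx z := by
    have := fx_divU a 256 (by norm_num)
    rw [hz]
    exact_mod_cast this
  have hz0 := fx_nonneg z
  have key : fx (SC + mL z z / 2 - (z + (mU (mU z z) z / 6 + 1))) ≤ Real.exp (-(fx z)) := by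
    rcases le_total (z + (mU (mU z z) z / 6 + 1)) (SC + mL z z / 2) with hc | hc
    · refine le_trans ?_ (em3 hz0)
      have h1 : fx (mL z z / 2) ≤ fx z ^ (2 : ℕ) / 2 := by
        refine (fx_div _ 2 (by norm_num)).trans ?_
        have := mL_le z z
        have h2 : fx z ^ (2 : ℕ) = fx z * fx z := by ring
        rw [h2]
        push_cast
        gcongr
      have h3 : fx z ^ (3 : ℕ) / 6 ≤ fx (mU (mU z z) z / 6 + 1) := by
        have h4 := fx_divU (mU (mU z z) z) 6 (by norm_num)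
        have h5 : fx z ^ (3 : ℕ) ≤ fx (mU (mU z z) z) := by
          have h6 := mulU (le_mU z z) (le_refl (fx z)) hz0
          calc fx z ^ (3 : ℕ) = fx z * fx z * fx z := by ring
            _ ≤ _ := h6
        refine le_trans ?_ h4
        push_cast
        gcongr
      have h5 : fx (SC + mL z z / 2) = fx (SC + mL z z / 2 - (z + (mU (mU z z) z / 6 + 1))) +
          fx (z + (mU (mU z z) z / 6 + 1)) := by
        rw [← fx_add]; congr 1; omega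
      rw [fx_add SC, fx_one] at h5
      rw [fx_add z] at h5
      linarith only [h1, h3, h5]
    · have e : SC + mL z z / 2 - (z + (mU (mU z z) z / 6 + 1)) = 0 := by omega
      rw [e, fx_zero]
      exact (Real.exp_pos _).le
  have h2 := sqN_le 8 _ _ key
  have e : eNL a = sqN 8 (SC + mL z z / 2 - (z + (mU (mU z z) z / 6 + 1))) := by
    rw [hz]; rfl
  rw [e]
  refine h2.trans (Real.exp_le_exp.2 ?_)
  norm_num
  linarith only [h, hz1]

/-- upper bound of `exp y` for `y ≤ fx a` -/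
theorem expUp {y : ℝ} {a : ℕ} (h : y ≤ fx a) (hp : 0 < eNL a) : Real.exp y ≤ fx (dU SC (eNL a)) := by
  have h1 : Real.exp y = 1 / Real.exp (-y) := by rw [Real.exp_neg, one_div, inv_inv]
  rw [h1]
  exact divU (by rw [fx_one]) (eNL_le h) hp

/-- lower bound of `exp y` for `fx a ≤ y` -/
theorem expLo {y : ℝ} {a : ℕ} (h : fx a ≤ y) : fx (eL a) ≤ Real.exp y :=
  (eL_le a).trans (Real.exp_le_exp.2 h)

end SokamCel

end

/-! ### Lib_MP_af4de1_v3.CelInt -/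

section
namespace SokamFN
end SokamFN
/-!
# Cells, intervals: `Mem x a`, `a = (lower, upper)`, and the operations
-/

set_option autoImplicit false

namespace SokamCel

open SokamFN

/-- an interval -/
abbrev I := ℕ × ℕ

/-- membership -/
def Mem (x : ℝ) (a : I) : Prop := fx a.1 ≤ x ∧ x ≤ fx a.2

theorem Mem.nonneg {x : ℝ} {a : I} (h : Mem x a) : 0 ≤ x := (fx_nonneg _).trans h.1

/-- product -/
def im (a b : I) : I := (mL a.1 b.1, mU a.2 b.2)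
/-- quotient (needs `0 < b.1`) -/
def id' (a b : I) : I := (dL a.1 b.2, dU a.2 b.1)
/-- sum -/
def ia (a b : I) : I := (a.1 + b.1, a.2 + b.2)
/-- difference (for nonnegative values) -/
def is' (a b : I) : I := (a.1 - b.2, a.2 - b.1)
/-- square root -/
def isq (a : I) : I := (sqL a.1, sqU a.2)
/-- `exp (-x)` -/
def ien (a : I) : I := (eNL a.2, eN a.1)
/-- `exp x` (needs `0 < eNL a.2`) -/
def iep (a : I) : I := (eL a.1, dU SC (eNL a.2))
/-- minimum -/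
def imn (a b : I) : I := (min a.1 b.1, min a.2 b.2)
/-- maximum -/
def imx (a b : I) : I := (max a.1 b.1, max a.2 b.2)

theorem Mem.mul {x y : ℝ} {a b : I} (hx : Mem x a) (hy : Mem y b) : Mem (x * y) (im a b) :=
  ⟨mulL hx.1 hy.1, mulU hx.2 hy.2 hy.nonneg⟩

theorem Mem.div {x y : ℝ} {a b : I} (hx : Mem x a) (hy : Mem y b) (h : 0 < b.1) :
    Mem (x / y) (id' a b) :=
  ⟨divL hx.1 hy.2 ((fx_pos h).trans_le hy.1), divU hx.2 hy.1 h⟩

theorem Mem.add {x y : ℝ} {a b : I} (hx : Mem x a) (hy : Mem y b) : Mem (x + y) (ia a b) :=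
  ⟨addL hx.1 hy.1, addU hx.2 hy.2⟩

theorem Mem.sub {x y : ℝ} {a b : I} (hx : Mem x a) (hy : Mem y b) (h : y ≤ x) :
    Mem (x - y) (is' a b) := by
  refine ⟨?_, subU hx.2 hy.1⟩
  rcases le_total b.2 a.1 with h1 | h1
  · exact subL hx.1 hy.2 h1
  · have e : a.1 - b.2 = 0 := by omega
    show fx (a.1 - b.2) ≤ x - y
    rw [e, fx_zero]
    linarith

theorem Mem.sqrt {x : ℝ} {a : I} (hx : Mem x a) : Mem (√x) (isq a) := ⟨sqrtL hx.1, sqrtU hx.2⟩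

theorem Mem.expn {x : ℝ} {a : I} (hx : Mem x a) : Mem (Real.exp (-x)) (ien a) :=
  ⟨eNL_le hx.2, expNegU hx.1⟩

theorem Mem.expp {x : ℝ} {a : I} (hx : Mem x a) (h : 0 < eNL a.2) : Mem (Real.exp x) (iep a) :=
  ⟨expLo hx.1, expUp hx.2 h⟩

theorem Mem.min {x y : ℝ} {a b : I} (hx : Mem x a) (hy : Mem y b) : Mem (min x y) (imn a b) :=
  ⟨minL hx.1 hy.1, minU hx.2 hy.2⟩

theorem Mem.max {x y : ℝ} {a b : I} (hx : Mem x a) (hy : Mem y b) : Mem (max x y) (imx a b) :=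
  ⟨by
    show fx (Max.max a.1 b.1) ≤ Max.max x y
    rcases le_total a.1 b.1 with h | h
    · rw [max_eq_right h]; exact hy.1.trans (le_max_right _ _)
    · rw [max_eq_left h]; exact hx.1.trans (le_max_left _ _), maxU hx.2 hy.2⟩

/-- constants `p / q` -/
def ic (p q : ℕ) : I := (p * SC / q, p * SC / q + 1)

theorem Mem.const (p q : ℕ) (hq : 0 < q) : Mem ((p : ℝ) / q) (ic p q) := by
  have hq' : (0 : ℝ) < q := by exact_mod_cast hq
  constructor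
  · have h := fx_div (p * SC) q hq
    refine h.trans (le_of_eq ?_)
    unfold fx SC
    push_cast
    field_simp
  · have h := fx_divU (p * SC) q hq
    refine le_trans (le_of_eq ?_) h
    unfold fx SC
    push_cast
    field_simp

theorem Mem.nat (p : ℕ) : Mem (p : ℝ) (p * SC, p * SC) := by
  have : fx (p * SC) = p := by unfold fx SC; push_cast; field_simp
  exact ⟨this.le, this.ge⟩

theorem Mem.one : Mem 1 (SC, SC) := by
  rw [Mem, fx_one]; exact ⟨le_rfl, le_rfl⟩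

theorem Mem.sq {x : ℝ} {a : I} (hx : Mem x a) : Mem (x ^ (2 : ℕ)) (im a a) := by
  rw [pow_two]; exact hx.mul hx

/-- `√(1 - x²)` -/
def ico (a : I) : I := isq (is' (SC, SC) (im a a))

theorem Mem.co {x y : ℝ} {a : I} (hx : Mem x a) (h : x ^ (2 : ℕ) + y ^ (2 : ℕ) = 1) (hy : 0 ≤ y) :
    Mem y (ico a) := by
  have e : y = √(1 - x ^ (2 : ℕ)) := by
    rw [show 1 - x ^ (2 : ℕ) = y ^ (2 : ℕ) by linarith, Real.sqrt_sq hy]
  rw [e]
  refine (Mem.one.sub hx.sq ?_).sqrt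
  nlinarith [sq_nonneg y]

/-- `b(θ) = (1 - cos θ)/θ²` -/
def ib (a : I) : I := (bL a.2, bU a.1)

theorem Mem.bq {θ : ℝ} {a : I} (hx : Mem θ a) (h0 : 0 < θ) (h1 : θ ^ (2 : ℕ) ≤ 15)
    (hp : (mU a.2 a.2 / 24 + 1 + (mU (mU (mU a.2 a.2) (mU a.2 a.2)) (mU a.2 a.2) / 40320 + 1)) ≤
      549755813888 + mL (mU a.2 a.2) (mU a.2 a.2) / 720) : Mem (bq θ) (ib a) :=
  ⟨bL_le h0 hx.2 hp, le_bU h0 hx.1 h1⟩

end SokamCel

end

/-! ### Lib_MP_af4de1_v3.CelL1 -/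

section
namespace SokamFN
end SokamFN
/-!
# Cells, left side: main part in scaled variables

`c = 1/√R`, `ν = ρ/√R`, `m = μ √R`, `t = (1+τ) h`, `T = t/m = (1+τ) h c/μ`, `a = ν α = (μ - ν/2)/μ²/max 1 T`
(`A = α c²`), `B = β e^(-σT)`, `Q = a c² + ν B`.
-/

set_option autoImplicit false

namespace SokamCel

open SokamFN

/-- `ν` times the quadratic coefficient over `c²` -/
noncomputable def La (μ ν T : ℝ) : ℝ := (μ - ν / 2) / μ ^ (2 : ℕ) / max 1 T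

/-- exponent over `Γ (1+τ)²` -/
noncomputable def LZ (μ c ν t T β σ : ℝ) : ℝ :=
  1 / (c ^ (2 : ℕ) / (β * Real.exp (-(σ * T))) + ν / La μ ν T) -
    4 / 27 * (1 - σ) ^ (3 : ℕ) * (t * (β * Real.exp (-(σ * T))) / (μ * c))

/-- `Q` -/
noncomputable def LQ (μ c ν T β σ : ℝ) : ℝ := La μ ν T * c ^ (2 : ℕ) + ν * (β * Real.exp (-(σ * T)))

/-- main part, `m0` -/
noncomputable def LM0 (μ q g c ν h τ Γ β σ : ℝ) : ℝ :=
  √(q * (1 + c ^ (2 : ℕ) / μ ^ (2 : ℕ)) / (2 * LQ μ c ν ((1 + τ) * h * c / μ) β σ)) *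
    Real.exp (-(Γ * ((1 + τ) ^ (2 : ℕ) * LZ μ c ν ((1 + τ) * h) ((1 + τ) * h * c / μ) β σ - g / 2 * τ ^ (2 : ℕ))))

/-- weight of the main part (mean of `W R/h²`) -/
noncomputable def LMW (μ kk c ν h τ Γ β σ : ℝ) : ℝ :=
  kk ^ (2 : ℕ) * τ ^ (2 : ℕ) + (1 + τ) ^ (2 : ℕ) *
    ((ν * (β * Real.exp (-(σ * ((1 + τ) * h * c / μ)))) / LQ μ c ν ((1 + τ) * h * c / μ) β σ) ^ (2 : ℕ) / μ ^ (2 : ℕ) +
     (La μ ν ((1 + τ) * h * c / μ) * c / LQ μ c ν ((1 + τ) * h * c / μ) β σ) ^ (2 : ℕ)) +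
    (1 + c ^ (2 : ℕ) / μ ^ (2 : ℕ)) * ν / (2 * Γ * LQ μ c ν ((1 + τ) * h * c / μ) β σ)

/-! ### intervals; `M`, `IM`: intervals of `μ`, `1/μ` -/

/-- constants of a run -/
structure Par where
  /-- `μ` -/
  M : I
  /-- `1/μ` -/
  N : I
  /-- `q` -/
  q : I
  /-- `g/2` -/
  g : I
  /-- `kk` -/
  k : I

/-- the constants are right -/
structure Par.Ok (P : Par) (μ q g kk : ℝ) : Prop where
  hM : Mem μ P.M
  hN : Mem (1 / μ) P.N
  hq : Mem q P.q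
  hg : Mem (g / 2) P.g
  hk : Mem kk P.k
  pos : 0 < μ
  le : 1 ≤ μ

/-- `a` -/
def xa (P : Par) (n T : I) : I :=
  im (im (im (is' P.M (n.1 / 2, n.2 / 2 + 1)) P.N) P.N) (id' (SC, SC) (imx (SC, SC) T))

theorem mem_half {x : ℝ} {a : I} (h : Mem x a) : Mem (x / 2) (a.1 / 2, a.2 / 2 + 1) := by
  constructor
  · have h1 := fx_div a.1 2 (by norm_num)
    have h2 := h.1
    push_cast at h1
    show fx (a.1 / 2) ≤ x / 2
    linarith
  · have h1 := fx_divU a.2 2 (by norm_num)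
    have h2 := h.2
    push_cast at h1
    show x / 2 ≤ fx (a.2 / 2 + 1)
    linarith

theorem mem_xa {P : Par} {μ q g kk ν T : ℝ} {n t : I} (hP : P.Ok μ q g kk) (hn : Mem ν n)
    (hT : Mem T t) (hν : ν ≤ 1) : Mem (La μ ν T) (xa P n t) := by
  have h1 := ((hP.hM.sub (mem_half hn) (by linarith [hP.le])).mul hP.hN).mul hP.hN
  have h2 := Mem.one.div (Mem.one.max hT) (b := imx (SC, SC) t) (by
    show 0 < max SC t.1
    exact lt_of_lt_of_le (by norm_num) (le_max_left _ _))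
  have h3 := h1.mul h2
  have e : La μ ν T = (μ - ν / 2) * (1 / μ) * (1 / μ) * (1 / max 1 T) := by
    unfold La
    have := hP.pos
    have h4 : (0 : ℝ) < max 1 T := lt_max_of_lt_left one_pos
    field_simp
  rw [e]
  exact h3

/-- data of a cell which do not depend on `σ` -/
structure Cl where
  c : I
  n : I
  h : I
  u : I
  t1 : I
  t : I
  T : I
  a : I
  c2 : I

/-- the data of a cell -/
def mk (P : Par) (c n h u : I) : Cl :=
  let t1 := ia (SC, SC) u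
  let t := im t1 h
  let T := im (im t c) P.N
  { c := c, n := n, h := h, u := u, t1 := t1, t := t, T := T, a := xa P n T, c2 := im c c }

/-- the cell contains the point -/
structure Cl.Has (C : Cl) (μ c ν h τ : ℝ) : Prop where
  hc : Mem c C.c
  hn : Mem ν C.n
  hh : Mem h C.h
  hu : Mem τ C.u
  ht1 : Mem (1 + τ) C.t1
  ht : Mem ((1 + τ) * h) C.t
  hT : Mem ((1 + τ) * h * c / μ) C.T
  ha : Mem (La μ ν ((1 + τ) * h * c / μ)) C.a
  hc2 : Mem (c ^ (2 : ℕ)) C.c2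

theorem mk_has {P : Par} {μ q g kk c ν h τ : ℝ} {ci ni hi ui : I} (hP : P.Ok μ q g kk)
    (hc : Mem c ci) (hn : Mem ν ni) (hh : Mem h hi) (hu : Mem τ ui) (hν : ν ≤ 1) :
    (mk P ci ni hi ui).Has μ c ν h τ := by
  have h1 := Mem.one.add hu
  have h2 := h1.mul hh
  have h3 : Mem ((1 + τ) * h * c / μ) (im (im (im (ia (SC, SC) ui) hi) ci) P.N) := by
    have := (h2.mul hc).mul hP.hN
    rwa [mul_one_div] at this
  exact ⟨hc, hn, hh, hu, h1, h2, h3, mem_xa hP hn h3 hν, hc.sq⟩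

/-- `B` -/
def xB (C : Cl) (b : I) (s : ℕ) : I := im b (ien (im (s, s) C.T))

/-- the main part: `(m0, W)`, upper bounds; `G` lower bound of `Γ`, `s` = `σ`, `B` = interval of `B` -/
def xm (P : Par) (C : Cl) (B : I) (s G : ℕ) : Option (ℕ × ℕ) :=
  let Q := ia (im C.a C.c2) (im C.n B)
  let Y := ia (id' C.c2 B) (id' C.n C.a)
  let Z := id' (SC, SC) Y
  let s1 := SC - s
  let pen := bif Nat.ble SC s then 0 else
    mU (mU (mU (mU (mU s1 s1) s1) 162890611523) (mU (mU C.t.2 B.2) P.N.2)) (dU SC C.c.1)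
  let e1 := mL (mL C.t1.1 C.t1.1) (Z.1 - pen)
  let e2 := mU (mU C.u.2 C.u.2) P.g.2
  let V := mU (SC + mU C.c2.2 (mU P.N.2 P.N.2)) (dU SC Q.1)
  bif Nat.blt 0 B.1 && Nat.blt 0 C.a.1 && Nat.blt 0 Y.1 && Nat.blt 0 Q.1 && (Nat.ble SC s || Nat.blt 0 C.c.1) &&
      Nat.ble s SC && Nat.ble pen Z.1 && Nat.ble e2 e1 && Nat.blt 0 G then
    let l := dU (mU C.n.2 B.2) Q.1
    let o := dU (mU C.a.2 C.c.2) Q.1
    some (mU (sqU (mU P.q.2 V / 2 + 1)) (eN (mL G (e1 - e2))),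
      mU (mU P.k.2 C.u.2) (mU P.k.2 C.u.2) +
      mU (mU C.t1.2 C.t1.2) (mU (mU l l) (mU P.N.2 P.N.2) + mU o o) +
      (mU (mU C.n.2 V) (dU SC G) / 2 + 1))
  else none

theorem blt_iff {a b : ℕ} : Nat.blt a b = true ↔ a < b := by
  simp [Nat.blt, Nat.ble_eq]

theorem xm_sound {P : Par} {μ q g kk c ν h τ Γ β σ : ℝ} (hP : P.Ok μ q g kk) {C : Cl}
    (hC : C.Has μ c ν h τ) {B : I} {s G : ℕ} (hB : Mem (β * Real.exp (-(σ * ((1 + τ) * h * c / μ)))) B)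
    (hs : σ = fx s) (hG : fx G ≤ Γ) (hc : 0 < c) (hν : 0 < ν) (hh : 0 < h) (hτ : 0 ≤ τ)
    {a b : ℕ} (hx : xm P C B s G = some (a, b)) :
    LM0 μ q g c ν h τ Γ β σ ≤ fx a ∧ LMW μ kk c ν h τ Γ β σ ≤ fx b := by
  have hμ := hP.pos
  have hμ1 := hP.le
  unfold xm at hx
  simp only at hx
  obtain ⟨Q, hQe⟩ : ∃ Q, Q = ia (im C.a C.c2) (im C.n B) := ⟨_, rfl⟩
  obtain ⟨Y, hYe⟩ : ∃ Y, Y = ia (id' C.c2 B) (id' C.n C.a) := ⟨_, rfl⟩
  rw [← hQe, ← hYe] at hx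
  obtain ⟨Z, hZe⟩ : ∃ Z, Z = id' (SC, SC) Y := ⟨_, rfl⟩
  rw [← hZe] at hx
  obtain ⟨pen, hpe⟩ : ∃ pen, pen = (bif Nat.ble SC s then 0 else
    mU (mU (mU (mU (mU (SC - s) (SC - s)) (SC - s)) 162890611523) (mU (mU C.t.2 B.2) P.N.2))
      (dU SC C.c.1)) := ⟨_, rfl⟩
  rw [← hpe] at hx
  obtain ⟨e1, he1⟩ : ∃ e1, e1 = mL (mL C.t1.1 C.t1.1) (Z.1 - pen) := ⟨_, rfl⟩
  obtain ⟨e2, he2⟩ : ∃ e2, e2 = mU (mU C.u.2 C.u.2) P.g.2 := ⟨_, rfl⟩
  obtain ⟨V, hVe⟩ : ∃ V, V = mU (SC + mU C.c2.2 (mU P.N.2 P.N.2)) (dU SC Q.1) := ⟨_, rfl⟩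
  rw [← he1, ← he2, ← hVe] at hx
  cases hbb : (Nat.blt 0 B.1 && Nat.blt 0 C.a.1 && Nat.blt 0 Y.1 && Nat.blt 0 Q.1 &&
      (Nat.ble SC s || Nat.blt 0 C.c.1) && Nat.ble s SC && Nat.ble pen Z.1 && Nat.ble e2 e1 &&
      Nat.blt 0 G) with
  | false => rw [hbb] at hx; simp at hx
  | true =>
    rw [hbb] at hx
    simp only [cond_true, Option.some.injEq, Prod.mk.injEq] at hx
    obtain ⟨ha', hb'⟩ := hx
    simp only [Bool.and_eq_true, Bool.or_eq_true, blt_iff, Nat.ble_eq] at hbb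
    obtain ⟨⟨⟨⟨⟨⟨⟨⟨hB0, ha0⟩, hY0⟩, hQ0⟩, hsc⟩, hs1⟩, hpZ⟩, he⟩, hG0⟩ := hbb
    -- the real quantities
    obtain ⟨T, hT⟩ : ∃ T, T = (1 + τ) * h * c / μ := ⟨_, rfl⟩
    rw [← hT] at hB
    obtain ⟨b', hb''⟩ : ∃ b', b' = β * Real.exp (-(σ * T)) := ⟨_, rfl⟩
    rw [← hb''] at hB
    obtain ⟨A, hA⟩ : ∃ A, A = La μ ν T := ⟨_, rfl⟩
    have hCa : Mem A C.a := by rw [hA, hT]; exact hC.ha
    have hmQ : Mem (A * c ^ (2 : ℕ) + ν * b') Q := by
      rw [hQe]; exact (hCa.mul hC.hc2).add (hC.hn.mul hB)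
    have hmY : Mem (c ^ (2 : ℕ) / b' + ν / A) Y := by
      rw [hYe]; exact (hC.hc2.div hB hB0).add (hC.hn.div hCa ha0)
    have hmZ : Mem (1 / (c ^ (2 : ℕ) / b' + ν / A)) Z := by
      rw [hZe]; exact Mem.one.div hmY hY0
    have hΓ0 : 0 < Γ := (fx_pos hG0).trans_le hG
    have hA0 : 0 < A := (fx_pos ha0).trans_le hCa.1
    have hb0 : 0 < b' := (fx_pos hB0).trans_le hB.1
    have hQr : 0 < A * c ^ (2 : ℕ) + ν * b' := by (clear * - hA0 hc hν hb0; positivity)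
    have hσ0 : 0 ≤ σ := by rw [hs]; exact fx_nonneg _
    have hσ1 : σ ≤ 1 := by rw [hs, ← fx_one]; exact fx_mono hs1
    -- penalty
    have hpen : 4 / 27 * (1 - σ) ^ (3 : ℕ) * ((1 + τ) * h * b' / (μ * c)) ≤ fx pen := by
      rcases hsc with h1 | h1
      · have h2 : s = SC := le_antisymm hs1 h1
        have h3 : σ = 1 := by rw [hs, h2, fx_one]
        rw [h3]
        simp only [sub_self]
        have := fx_nonneg pen
        norm_num
        exact this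
      · cases hb2 : Nat.ble SC s with
        | true =>
          rw [Nat.ble_eq] at hb2
          have h2 : s = SC := le_antisymm hs1 hb2
          have h3 : σ = 1 := by rw [hs, h2, fx_one]
          rw [h3]
          simp only [sub_self]
          have := fx_nonneg pen
          norm_num
          exact this
        | false =>
          rw [hb2] at hpe
          simp only [cond_false] at hpe
          rw [hpe]
          have k1 : 1 - σ ≤ fx (SC - s) := by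
            rw [hs]
            exact subU (le_of_eq fx_one.symm) le_rfl
          have k0 : 0 ≤ 1 - σ := by linarith
          have k2 := mulU k1 k1 k0
          have k3 := mulU k2 k1 k0
          have k4 : (4 / 27 : ℝ) ≤ fx 162890611523 := by unfold fx; norm_num
          have k5 := mulU k3 k4 (by norm_num)
          have k6 := mulU (mulU hC.ht.2 hB.2 hb0.le) hP.hN.2 (by (clear * - hμ; positivity))
          have k7 := mulU k5 k6 (by (clear * - hτ hh hb0 hμ; positivity))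
          have k8 : 1 / c ≤ fx (dU SC C.c.1) := divU (le_of_eq fx_one.symm) hC.hc.1 h1
          have k9 := mulU k7 k8 (by positivity)
          refine le_trans (le_of_eq ?_) k9
          field_simp
    -- exponent
    have hE1 : fx e1 ≤ (1 + τ) ^ (2 : ℕ) * (1 / (c ^ (2 : ℕ) / b' + ν / A) -
        4 / 27 * (1 - σ) ^ (3 : ℕ) * ((1 + τ) * h * b' / (μ * c))) := by
      rw [he1, pow_two]
      exact mulL (mulL hC.ht1.1 hC.ht1.1) (subL hmZ.1 hpen hpZ)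
    have hE2 : g / 2 * τ ^ (2 : ℕ) ≤ fx e2 := by
      rw [he2, mul_comm]
      have h1 := mulU hC.hu.2 hC.hu.2 hτ
      have hg0 : 0 ≤ g / 2 := (fx_nonneg _).trans hP.hg.1
      have h2 := mulU h1 hP.hg.2 hg0
      rwa [pow_two]
    have hE := subL hE1 hE2 he
    have hE' := mulL hG hE
    have hX := expNegU hE'
    -- prefactor
    have hV : (1 + c ^ (2 : ℕ) / μ ^ (2 : ℕ)) * (1 / (A * c ^ (2 : ℕ) + ν * b')) ≤ fx V := by
      rw [hVe]
      have h1 : 1 + c ^ (2 : ℕ) / μ ^ (2 : ℕ) ≤ fx (SC + mU C.c2.2 (mU P.N.2 P.N.2)) := by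
        refine addU (le_of_eq fx_one.symm) ?_
        have h2 := mulU hC.hc2.2 (mulU hP.hN.2 hP.hN.2 (by (clear * - hμ; positivity))) (by (clear * - hμ; positivity))
        refine le_trans (le_of_eq ?_) h2
        field_simp
      exact mulU h1 (divU (le_of_eq fx_one.symm) hmQ.1 hQ0) (by (clear * - hA0 hc hν hb0; positivity))
    have hq0 : 0 ≤ q := hP.hq.nonneg
    have hS : √(q * (1 + c ^ (2 : ℕ) / μ ^ (2 : ℕ)) / (2 * (A * c ^ (2 : ℕ) + ν * b'))) ≤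
        fx (sqU (mU P.q.2 V / 2 + 1)) := by
      apply sqrtU
      have h1 := mulU hP.hq.2 hV (by (clear * - hc hμ hA0 hν hb0; positivity))
      have h2 := fx_divU (mU P.q.2 V) 2 (by norm_num)
      push_cast at h2
      refine le_trans (le_of_eq ?_) ((div_le_div_of_nonneg_right h1 (by norm_num : (0:ℝ) ≤ 2)).trans h2)
      field_simp
    constructor
    · rw [← ha']
      have h1 := mulU hS hX (Real.exp_pos _).le
      refine le_trans (le_of_eq ?_) h1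
      unfold LM0 LQ LZ
      rw [← hT, ← hb'', ← hA]
    · rw [← hb']
      unfold LMW LQ
      rw [← hT, ← hb'', ← hA]
      have k0 : 0 ≤ kk := hP.hk.nonneg
      have w1 : kk ^ (2 : ℕ) * τ ^ (2 : ℕ) ≤ fx (mU (mU P.k.2 C.u.2) (mU P.k.2 C.u.2)) := by
        have h1 := mulU hP.hk.2 hC.hu.2 hτ
        have h2 := mulU h1 h1 (by (clear * - k0 hτ; positivity))
        refine le_trans (le_of_eq ?_) h2
        ring
      have w2 : (ν * b' / (A * c ^ (2 : ℕ) + ν * b')) ^ (2 : ℕ) / μ ^ (2 : ℕ) ≤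
          fx (mU (mU (dU (mU C.n.2 B.2) Q.1) (dU (mU C.n.2 B.2) Q.1)) (mU P.N.2 P.N.2)) := by
        have h1 := divU (mulU hC.hn.2 hB.2 hb0.le) hmQ.1 hQ0
        have h2 := mulU (mulU h1 h1 (by (clear * - hν hb0 hA0 hc; positivity))) (mulU hP.hN.2 hP.hN.2 (by positivity))
          (by (clear * - hμ; positivity))
        refine le_trans (le_of_eq ?_) h2
        field_simp
      have w3 : (A * c / (A * c ^ (2 : ℕ) + ν * b')) ^ (2 : ℕ) ≤
          fx (mU (dU (mU C.a.2 C.c.2) Q.1) (dU (mU C.a.2 C.c.2) Q.1)) := by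
        have h1 := divU (mulU hCa.2 hC.hc.2 hc.le) hmQ.1 hQ0
        have h2 := mulU h1 h1 (by (clear * - hA0 hc hν hb0; positivity))
        refine le_trans (le_of_eq ?_) h2
        ring
      have w4 : (1 + c ^ (2 : ℕ) / μ ^ (2 : ℕ)) * ν / (2 * Γ * (A * c ^ (2 : ℕ) + ν * b')) ≤
          fx (mU (mU C.n.2 V) (dU SC G) / 2 + 1) := by
        have h1 := mulU (mulU hC.hn.2 hV (by (clear * - hc hμ hA0 hν hb0; positivity)))
          (divU (le_of_eq fx_one.symm) hG hG0) (by (clear * - hΓ0; positivity))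
        have h2 := fx_divU (mU (mU C.n.2 V) (dU SC G)) 2 (by norm_num)
        push_cast at h2
        refine le_trans (le_of_eq ?_)
          ((div_le_div_of_nonneg_right h1 (by norm_num : (0:ℝ) ≤ 2)).trans h2)
        field_simp
      have w5 : (1 + τ) ^ (2 : ℕ) ≤ fx (mU C.t1.2 C.t1.2) := by
        have h1 := mulU hC.ht1.2 hC.ht1.2 (by (clear * - hτ; positivity))
        refine le_trans (le_of_eq ?_) h1
        ring
      exact addU (addU w1 (mulU w5 (addU w2 w3) (by (clear * - hν hb0 hA0 hc hμ; positivity)))) w4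

end SokamCel

end

/-! ### Lib_MP_af4de1_v3.CelRM -/

section
namespace SokamFN
end SokamFN
/-!
# Cells, right side: main part in scaled variables

`c = 1/√R`, `ν = ρ/√R`, `m = μ √R`, `t = (1+τ) h`, `T = t/m = (1+τ) h c/μ`, `A = Ra c²/ν`, `B = β`,
`Q = Ra c² + ν β = ν (A + B)`.  The forms are `g0`, `gW` of `CenDef.lean` (truncated at `t`) with the weight
`e^T κ² + (eS T)²/m² s² + e^T (1+κ) (t-s)²`, `κ = kk τ h c`, times the level factor; `RMW` is divided by `(h c)²`.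
-/

set_option autoImplicit false

namespace SokamCel

open SokamFN

/-- `1 + T/3 + 5T²/48` -/
noncomputable def sS (T : ℝ) : ℝ := 1 + T / 3 + 5 * T ^ (2 : ℕ) / 48

/-- `ν` times the quadratic coefficient over `c²` -/
noncomputable def Ra (μ ν T : ℝ) : ℝ := (μ - ν * sS (min 1 T) / 2) / μ ^ (2 : ℕ) / max 1 T

/-- `Q` -/
noncomputable def RQ (μ c ν T β : ℝ) : ℝ := Ra μ ν T * c ^ (2 : ℕ) + ν * β

/-- exponent over `Γ` -/
noncomputable def Re0 (μ g c ν τ T β : ℝ) : ℝ :=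
  (1 + τ) ^ (2 : ℕ) * (1 / (c ^ (2 : ℕ) / β + ν / Ra μ ν T)) - g / 2 * τ ^ (2 : ℕ)

/-- prefactor -/
noncomputable def RV (μ q c ν T β : ℝ) : ℝ := √(q * (1 + c ^ (2 : ℕ) / μ ^ (2 : ℕ)) / (2 * RQ μ c ν T β))

/-- `(t - v)/gG` over `√Γ` -/
noncomputable def Rk (μ c ν τ T β : ℝ) : ℝ := (1 + τ) * Ra μ ν T * c / √(Real.pi * ν * RQ μ c ν T β)

/-- `e^(-Γ e0)` -/
noncomputable def RX (μ g c ν τ T β Γ : ℝ) : ℝ := Real.exp (-(Γ * Re0 μ g c ν τ T β))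

/-- the part to the right of the centre -/
noncomputable def RY (μ g c ν τ T β Γ : ℝ) : ℝ :=
  min (RX μ g c ν τ T β Γ / 2) (√Γ * Rk μ c ν τ T β * RX μ g c ν τ T β Γ)

/-- main part, `m0` -/
noncomputable def RM0 (μ q g c ν h τ Γ β : ℝ) : ℝ :=
  RV μ q c ν ((1 + τ) * h * c / μ) β *
    (RX μ g c ν τ ((1 + τ) * h * c / μ) β Γ / 2 + RY μ g c ν τ ((1 + τ) * h * c / μ) β Γ)

/-- `(e^T - 1)/T` at `min 1 T` -/
noncomputable def Re1 (T : ℝ) : ℝ := (Real.exp (min 1 T) - 1) / min 1 T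

/-- coefficient of `(e^a - 1)²` in the full integral -/
noncomputable def Rm1 (μ c ν τ T β Γ : ℝ) : ℝ :=
  (1 + τ) ^ (2 : ℕ) * (ν * β / RQ μ c ν T β) ^ (2 : ℕ) / μ ^ (2 : ℕ) + c ^ (2 : ℕ) * (ν / (2 * Γ * RQ μ c ν T β)) / μ ^ (2 : ℕ)

/-- `(1 + τ)(1 - λ)/c` -/
noncomputable def Ro (μ c ν τ T β : ℝ) : ℝ := (1 + τ) * (Ra μ ν T * c / RQ μ c ν T β)

/-- full weighted integral, without prefactor -/
noncomputable def RF (μ kk g c ν h τ T β Γ : ℝ) : ℝ :=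
  RX μ g c ν τ T β Γ * (Real.exp (min 1 T) * (kk * τ) ^ (2 : ℕ) + Re1 T ^ (2 : ℕ) * Rm1 μ c ν τ T β Γ +
    Real.exp (min 1 T) * (1 + kk * τ * (h * c)) *
      (Ro μ c ν τ T β ^ (2 : ℕ) + ν / (2 * Γ * RQ μ c ν T β)))

/-- truncated weighted integral, without prefactor -/
noncomputable def RG (μ kk g c ν h τ T β Γ : ℝ) : ℝ :=
  RX μ g c ν τ T β Γ / 2 * (Real.exp (min 1 T) * (kk * τ) ^ (2 : ℕ) + Re1 T ^ (2 : ℕ) * Rm1 μ c ν τ T β Γ +
    Real.exp (min 1 T) * (1 + kk * τ * (h * c)) *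
      (Ro μ c ν τ T β ^ (2 : ℕ) + 2 * Ro μ c ν τ T β * √(ν / (Real.pi * Γ * RQ μ c ν T β)) +
        ν / (2 * Γ * RQ μ c ν T β))) +
  RY μ g c ν τ T β Γ * (Real.exp (min 1 T) * (kk * τ) ^ (2 : ℕ) + Re1 T ^ (2 : ℕ) * ((1 + τ) ^ (2 : ℕ) / μ ^ (2 : ℕ)) +
    Real.exp (min 1 T) * (1 + kk * τ * (h * c)) * Ro μ c ν τ T β ^ (2 : ℕ))

/-- main part, weight -/
noncomputable def RMW (μ q kk g c ν h τ Γ β : ℝ) : ℝ :=
  RV μ q c ν ((1 + τ) * h * c / μ) β *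
    min (RF μ kk g c ν h τ ((1 + τ) * h * c / μ) β Γ) (RG μ kk g c ν h τ ((1 + τ) * h * c / μ) β Γ)

/-- main part, `e^a` -/
noncomputable def RMe (μ q g c ν h τ Γ β : ℝ) : ℝ :=
  Real.exp (min 1 ((1 + τ) * h * c / μ)) * RM0 μ q g c ν h τ Γ β / Γ

/-! ### elementary bounds -/

/-- `√Γ e^(-Γ e)` decreases for `2 Γ e ≥ 1` -/
theorem sqrt_exp_anti {G Γ e : ℝ} (hG : 0 < G) (h : G ≤ Γ) (he : 1 ≤ 2 * (G * e)) :
    √Γ * Real.exp (-(Γ * e)) ≤ √G * Real.exp (-(G * e)) := by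
  have h1 : √Γ ≤ √G * Real.exp ((Γ - G) * e) := by
    rw [Real.sqrt_le_left (by positivity), mul_pow, Real.sq_sqrt hG.le, ← Real.exp_nat_mul]
    have h2 := Real.add_one_le_exp ((2 : ℕ) * ((Γ - G) * e))
    have h3 : Γ ≤ G * (((2 : ℕ) : ℝ) * ((Γ - G) * e) + 1) := by
      push_cast
      have h4 : (Γ - G) * 1 ≤ (Γ - G) * (2 * (G * e)) :=
        mul_le_mul_of_nonneg_left he (by linarith only [h])
      linarith only [h4]
    exact h3.trans (mul_le_mul_of_nonneg_left h2 hG.le)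
  have h5 : Real.exp ((Γ - G) * e) * Real.exp (-(Γ * e)) = Real.exp (-(G * e)) := by
    rw [← Real.exp_add]
    congr 1
    ring
  calc √Γ * Real.exp (-(Γ * e)) ≤ √G * Real.exp ((Γ - G) * e) * Real.exp (-(Γ * e)) :=
        mul_le_mul_of_nonneg_right h1 (Real.exp_pos _).le
    _ = _ := by rw [mul_assoc, h5]

/-- `(e^T - 1)/T ≤ 1 + T/2 + T²/6 + 0.0517 T³` -/
theorem Re1_le {T : ℝ} (h0 : 0 < T) :
    Re1 T ≤ 1 + min 1 T / 2 + min 1 T ^ (2 : ℕ) / 6 + 517 / 10000 * min 1 T ^ (3 : ℕ) := by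
  have hm0 : 0 < min 1 T := lt_min one_pos h0
  have hm1 : min 1 T ≤ 1 := min_le_left _ _
  unfold Re1
  obtain ⟨x, hx⟩ : ∃ x, x = min 1 T := ⟨_, rfl⟩
  rw [← hx] at hm0 hm1 ⊢
  rw [div_le_iff₀ hm0]
  have h := Real.exp_bound' hm0.le hm1 (n := 8) (by norm_num)
  simp only [Finset.sum_range_succ, Finset.sum_range_zero, Nat.factorial] at h
  norm_num at h
  have a1 : x ^ (5 : ℕ) ≤ x ^ (4 : ℕ) := pow_le_pow_of_le_one hm0.le hm1 (by norm_num)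
  have a2 : x ^ (6 : ℕ) ≤ x ^ (4 : ℕ) := pow_le_pow_of_le_one hm0.le hm1 (by norm_num)
  have a3 : x ^ (7 : ℕ) ≤ x ^ (4 : ℕ) := pow_le_pow_of_le_one hm0.le hm1 (by norm_num)
  have a4 : x ^ (8 : ℕ) ≤ x ^ (4 : ℕ) := pow_le_pow_of_le_one hm0.le hm1 (by norm_num)
  have a0 : 0 ≤ x ^ (4 : ℕ) := by positivity
  nlinarith only [h, a1, a2]

theorem fx_mulN (n k : ℕ) : fx (n * k) = fx n * k := by
  unfold fx
  push_cast
  ring

/-- interval of `sS` -/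
def isS (a : I) : I :=
  (SC + a.1 / 3 + mL a.1 a.1 * 5 / 48, SC + (a.2 / 3 + 1) + (mU a.2 a.2 * 5 / 48 + 1))

theorem Mem.sS {x : ℝ} {a : I} (h : Mem x a) : Mem (sS x) (isS a) := by
  have h0 := h.nonneg
  have h2 := h.sq
  unfold SokamCel.sS isS
  constructor
  · show fx (SC + a.1 / 3 + mL a.1 a.1 * 5 / 48) ≤ 1 + x / 3 + 5 * x ^ (2 : ℕ) / 48
    have h3 := fx_div a.1 3 (by norm_num)
    have h4 := fx_div (mL a.1 a.1 * 5) 48 (by norm_num)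
    rw [fx_mulN] at h4
    have h5 := h.1
    have h6 := h2.1
    change fx (mL a.1 a.1) ≤ x ^ (2 : ℕ) at h6
    rw [fx_add, fx_add, fx_one]
    push_cast at h3 h4
    linarith only [h3, h4, h5, h6]
  · show 1 + x / 3 + 5 * x ^ (2 : ℕ) / 48 ≤ fx (SC + (a.2 / 3 + 1) + (mU a.2 a.2 * 5 / 48 + 1))
    have h3 := fx_divU a.2 3 (by norm_num)
    have h4 := fx_divU (mU a.2 a.2 * 5) 48 (by norm_num)
    rw [fx_mulN] at h4
    have h5 := h.2
    have h6 := h2.2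
    change x ^ (2 : ℕ) ≤ fx (mU a.2 a.2) at h6
    rw [fx_add, fx_add SC, fx_one]
    push_cast at h3 h4
    linarith only [h3, h4, h5, h6]

/-- interval of `Ra` -/
def xaR (P : Par) (n T : I) : I :=
  let y := im n (isS (imn (SC, SC) T))
  im (im (im (is' P.M (y.1 / 2, y.2 / 2 + 1)) P.N) P.N) (id' (SC, SC) (imx (SC, SC) T))

theorem sS_le {T : ℝ} (h : 0 ≤ T) : sS (min 1 T) ≤ 23 / 16 := by
  have h1 : min 1 T ≤ 1 := min_le_left _ _
  have h0 : 0 ≤ min 1 T := le_min one_pos.le h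
  unfold sS
  nlinarith only [h1, h0]

theorem mem_xaR {P : Par} {μ q g kk ν T : ℝ} {n t : I} (hP : P.Ok μ q g kk) (hn : Mem ν n)
    (hT : Mem T t) (hν : ν ≤ 1) : Mem (Ra μ ν T) (xaR P n t) := by
  have hs := (Mem.one.min hT).sS
  have h0 := mem_half (hn.mul hs)
  have hT0 := hT.nonneg
  have hle : ν * sS (min 1 T) / 2 ≤ μ := by
    have h1 := sS_le hT0
    have h2 := hn.nonneg
    have h3 := hs.nonneg
    have h4 : ν * sS (min 1 T) ≤ 1 * (23 / 16) := mul_le_mul hν h1 h3 one_pos.le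
    linarith only [h4, hP.le]
  have h1 := ((hP.hM.sub h0 hle).mul hP.hN).mul hP.hN
  have h2 := Mem.one.div (Mem.one.max hT) (b := imx (SC, SC) t) (by
    show 0 < max SC t.1
    exact lt_of_lt_of_le (by norm_num) (le_max_left _ _))
  have h3 := h1.mul h2
  have e : Ra μ ν T = (μ - ν * sS (min 1 T) / 2) * (1 / μ) * (1 / μ) * (1 / max 1 T) := by
    unfold Ra
    have := hP.pos
    have h4 : (0 : ℝ) < max 1 T := lt_max_of_lt_left one_pos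
    field_simp
  rw [e]
  exact h3

/-- upper bound of `1 + T/2 + T²/6 + 0.0517 T³` -/
def e1U (T : ℕ) : ℕ := SC + (T / 2 + 1) + (mU T T / 6 + 1) + mU 56844751946 (mU (mU T T) T)

theorem e1U_ge {T : ℝ} {n : ℕ} (h0 : 0 < T) (h : min 1 T ≤ fx n) : Re1 T ≤ fx (e1U n) := by
  have hm0 : 0 ≤ min 1 T := le_min one_pos.le h0.le
  refine (Re1_le h0).trans ?_
  obtain ⟨x, hx⟩ : ∃ x, x = min 1 T := ⟨_, rfl⟩
  rw [← hx] at h hm0 ⊢
  have h1 := mulU h h hm0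
  have h2 := mulU h1 h hm0
  have k1 := fx_divU n 2 (by norm_num)
  have k2 := fx_divU (mU n n) 6 (by norm_num)
  have k3 : (517 / 10000 : ℝ) ≤ fx 56844751946 := by unfold fx; norm_num
  have k4 := mulU k3 h2 (by (clear * - hm0; positivity))
  push_cast at k1 k2
  unfold e1U
  refine le_trans (le_of_eq ?_) (addU (addU (addU (le_of_eq fx_one.symm) ((div_le_div_of_nonneg_right h
    (by norm_num : (0:ℝ) ≤ 2)).trans k1)) ((div_le_div_of_nonneg_right h1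
    (by norm_num : (0:ℝ) ≤ 6)).trans k2)) k4)
  ring

/-- lower bound of `π` -/
abbrev piL : ℕ := 3454115778658

theorem piL_le : fx piL ≤ Real.pi := by
  have := Real.pi_gt_d4
  unfold fx piL
  norm_num at this ⊢
  linarith only [this]

end SokamCel

end

/-! ### Lib_MP_af4de1_v3.CelL2 -/

section
namespace SokamFN
end SokamFN
/-!
# Cells, left side: front and behind in scaled variables

Front `0 ≤ s ≤ π - t`: half Gaussian `exp (-r (1 - cos t) - r aR(1) s²)`.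
Behind `v = t + z`: half Gaussian `exp (-r A' t² - Bb z²)`.
-/

set_option autoImplicit false

namespace SokamCel

open SokamFN

/-- `1/π`, upper bound -/
theorem inv_pi_le : 1 / Real.pi ≤ fx 350008700000 := by
  have h := Real.pi_gt_d4
  rw [div_le_iff₀ Real.pi_pos]
  unfold fx
  linarith only [h]

/-- monotonicity used for the front part -/
theorem front_mono {c d a : ℝ} (hc : 0 < c) (hcd : c ≤ d) (p : ℕ) (h : p * d ^ (2 : ℕ) ≤ 2 * a) :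
    (1 / c) ^ p * Real.exp (-(a / c ^ (2 : ℕ))) ≤ (1 / d) ^ p * Real.exp (-(a / d ^ (2 : ℕ))) := by
  have hd : 0 < d := hc.trans_le hcd
  have h1 : (d / c) ^ p ≤ Real.exp (a / c ^ (2 : ℕ) - a / d ^ (2 : ℕ)) := by
    have h2 : d / c ≤ Real.exp (d / c - 1) := by
      have := Real.add_one_le_exp (d / c - 1)
      linarith
    have h3 : (d / c) ^ p ≤ Real.exp (d / c - 1) ^ p := pow_le_pow_left₀ (by positivity) h2 p
    rw [← Real.exp_nat_mul] at h3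
    refine h3.trans (Real.exp_le_exp.2 ?_)
    have hx : 1 ≤ d / c := by rw [le_div_iff₀ hc]; linarith
    have e : a / c ^ (2 : ℕ) - a / d ^ (2 : ℕ) = a / d ^ (2 : ℕ) * ((d / c) ^ (2 : ℕ) - 1) := by
      field_simp
    rw [e]
    have h4 : (p : ℝ) / 2 ≤ a / d ^ (2 : ℕ) := by
      rw [div_le_div_iff₀ (by norm_num) (by (clear * - hd; positivity))]
      linarith
    have h5 : 0 ≤ (d / c) ^ (2 : ℕ) - 1 := by nlinarith only [hx]
    have h6 := mul_le_mul_of_nonneg_right h4 h5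
    have hp : (0 : ℝ) ≤ p := Nat.cast_nonneg p
    linarith only [h6, mul_nonneg hp (sq_nonneg (d / c - 1))]
  have h2 : Real.exp (-(a / d ^ (2 : ℕ))) = Real.exp (a / c ^ (2 : ℕ) - a / d ^ (2 : ℕ)) * Real.exp (-(a / c ^ (2 : ℕ))) := by
    rw [← Real.exp_add]
    congr 1
    ring
  have h3 : (1 / c) ^ p = (1 / d) ^ p * (d / c) ^ p := by
    rw [← mul_pow]
    congr 1
    field_simp
  rw [h2, h3, mul_assoc]
  refine mul_le_mul_of_nonneg_left ?_ (by (clear * - hd; positivity))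
  exact mul_le_mul_of_nonneg_right h1 (Real.exp_pos _).le

theorem front_mono' {c d a Γ B E : ℝ} (hc : 0 < c) (hcd : c ≤ d) (p : ℕ) (ha : a ≤ Γ * B)
    (h : p * d ^ (2 : ℕ) ≤ 2 * a) :
    (1 / c) ^ p * Real.exp (-(Γ * (B / c ^ (2 : ℕ) - E))) ≤ (1 / d) ^ p * Real.exp (-(Γ * (B / d ^ (2 : ℕ) - E))) := by
  have h1 := front_mono hc hcd p (a := Γ * B) (by linarith)
  have e1 : Real.exp (-(Γ * (B / c ^ (2 : ℕ) - E))) = Real.exp (-(Γ * B / c ^ (2 : ℕ))) * Real.exp (Γ * E) := by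
    rw [← Real.exp_add]; congr 1; ring
  have e2 : Real.exp (-(Γ * (B / d ^ (2 : ℕ) - E))) = Real.exp (-(Γ * B / d ^ (2 : ℕ))) * Real.exp (Γ * E) := by
    rw [← Real.exp_add]; congr 1; ring
  rw [e1, e2, ← mul_assoc, ← mul_assoc]
  exact mul_le_mul_of_nonneg_right h1 (Real.exp_pos _).le

/-- front coefficient `a_f = (μ - (23/32) ν)/μ²` -/
noncomputable def Lf (μ ν : ℝ) : ℝ := (μ - 23 / 32 * ν) / μ ^ (2 : ℕ)

/-- front, `F0` -/
noncomputable def LF0 (μ q g c ν h τ Γ : ℝ) : ℝ :=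
  √(q * (1 + c ^ (2 : ℕ) / μ ^ (2 : ℕ)) / (2 * Lf μ ν)) / 2 * (1 / c) *
    Real.exp (-(Γ * ((1 + τ) ^ (2 : ℕ) * bq ((1 + τ) * h) / c ^ (2 : ℕ) - g / 2 * τ ^ (2 : ℕ))))

/-- front, `W R/h²` times `c²` -/
noncomputable def LFW (μ c ν τ Γ : ℝ) : ℝ :=
  (1 + τ) ^ (2 : ℕ) + 2 * (1 + τ) * √(ν / (Γ * Lf μ ν) * (1 / Real.pi)) +
    (1 + 9 / 8 * (c ^ (2 : ℕ) / μ ^ (2 : ℕ))) * (ν / (Γ * Lf μ ν)) / 2

/-- the front part: upper bounds of `F0` and of `F0 W/c²` -/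
def xf (P : Par) (C : Cl) (b : I) (G : ℕ) : Option (ℕ × ℕ) :=
  let f := mL (mL (P.M.1 - mU C.n.2 790273982464) P.N.1) P.N.1
  let a0 := mL (mL C.t1.1 C.t1.1) b.1
  let d2 := mU C.c.2 C.c.2
  let e2 := mU (mU C.u.2 C.u.2) P.g.2
  let x := dL a0 d2
  let Vn := SC + mU C.c2.2 (mU P.N.2 P.N.2)
  let w := dU C.n.2 (mL G f)
  bif Nat.blt 0 f && Nat.blt 0 (mL G f) && Nat.blt 0 C.c.2 && Nat.ble (3 * d2) (2 * mL G a0) &&
      Nat.ble (mU C.n.2 790273982464) P.M.1 && Nat.ble e2 x then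
    let S := sqU (mU P.q.2 (dU Vn f) / 2 + 1) / 2 + 1
    let i1 := dU SC C.c.2
    let E := eN (mL G (x - e2))
    let W := mU C.t1.2 C.t1.2 + 2 * mU C.t1.2 (sqU (mU w 350008700000)) + (mU (Vn + (Vn - SC) / 8 + 1) w / 2 + 1)
    some (mU (mU S i1) E, mU (mU (mU S (mU i1 (mU i1 i1))) E) W)
  else none

theorem half_up {x : ℝ} {a : ℕ} (h : x ≤ fx a) : x / 2 ≤ fx (a / 2 + 1) := by
  have h1 := fx_divU a 2 (by norm_num)
  push_cast at h1
  linarith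

theorem two_up {x : ℝ} {a : ℕ} (h : x ≤ fx a) : 2 * x ≤ fx (2 * a) := by
  rw [two_mul, two_mul, fx_add]
  linarith

theorem xf_sound {P : Par} {μ q g kk c ν h τ Γ : ℝ} (hP : P.Ok μ q g kk) {C : Cl}
    (hC : C.Has μ c ν h τ) {b : I} {G : ℕ} (hb : Mem (bq ((1 + τ) * h)) b)
    (hG : fx G ≤ Γ) (hc : 0 < c) (hν : 0 < ν) (hτ : 0 ≤ τ)
    {a a' : ℕ} (hx : xf P C b G = some (a, a')) :
    LF0 μ q g c ν h τ Γ ≤ fx a ∧ LF0 μ q g c ν h τ Γ * (LFW μ c ν τ Γ / c ^ (2 : ℕ)) ≤ fx a' := by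
  have hμ := hP.pos
  have hμ1 := hP.le
  unfold xf at hx
  simp only at hx
  obtain ⟨f, hfe⟩ : ∃ f, f = mL (mL (P.M.1 - mU C.n.2 790273982464) P.N.1) P.N.1 := ⟨_, rfl⟩
  obtain ⟨a0, ha0⟩ : ∃ a0, a0 = mL (mL C.t1.1 C.t1.1) b.1 := ⟨_, rfl⟩
  obtain ⟨d2, hd2⟩ : ∃ d2, d2 = mU C.c.2 C.c.2 := ⟨_, rfl⟩
  obtain ⟨e2, he2⟩ : ∃ e2, e2 = mU (mU C.u.2 C.u.2) P.g.2 := ⟨_, rfl⟩
  rw [← hfe, ← ha0, ← hd2, ← he2] at hx
  obtain ⟨x, hxe⟩ : ∃ x, x = dL a0 d2 := ⟨_, rfl⟩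
  obtain ⟨Vn, hVn⟩ : ∃ Vn, Vn = SC + mU C.c2.2 (mU P.N.2 P.N.2) := ⟨_, rfl⟩
  obtain ⟨w, hw⟩ : ∃ w, w = dU C.n.2 (mL G f) := ⟨_, rfl⟩
  rw [← hxe, ← hVn, ← hw] at hx
  cases hbb : (Nat.blt 0 f && Nat.blt 0 (mL G f) && Nat.blt 0 C.c.2 &&
      Nat.ble (3 * d2) (2 * mL G a0) && Nat.ble (mU C.n.2 790273982464) P.M.1 && Nat.ble e2 x) with
  | false => rw [hbb] at hx; simp at hx
  | true =>
    rw [hbb] at hx
    simp only [cond_true, Option.some.injEq, Prod.mk.injEq] at hx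
    obtain ⟨ha, ha'⟩ := hx
    simp only [Bool.and_eq_true, blt_iff, Nat.ble_eq] at hbb
    obtain ⟨⟨⟨⟨⟨hf0, hGf⟩, hc1⟩, h3⟩, hnM⟩, he⟩ := hbb
    -- f
    obtain ⟨F, hF⟩ : ∃ F, F = Lf μ ν := ⟨_, rfl⟩
    have hfF : fx f ≤ F := by
      rw [hfe, hF]
      have k1 : (23 / 32 : ℝ) ≤ fx 790273982464 := by unfold fx; norm_num
      have k2 : ν * (23 / 32) ≤ fx (mU C.n.2 790273982464) := mulU hC.hn.2 k1 (by norm_num)
      have k3 := subL hP.hM.1 k2 hnM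
      have k4 := mulL (mulL k3 hP.hN.1) hP.hN.1
      refine k4.trans (le_of_eq ?_)
      unfold Lf
      field_simp
    have hF0 : 0 < F := (fx_pos hf0).trans_le hfF
    have hGpos : 0 < G := by
      rcases Nat.eq_zero_or_pos G with h0 | h0
      · rw [h0] at hGf; simp [mL] at hGf
      · exact h0
    have hΓ0 : 0 < Γ := (fx_pos hGpos).trans_le hG
    obtain ⟨D, hD⟩ : ∃ D, D = fx C.c.2 := ⟨_, rfl⟩
    have hcD : c ≤ D := by rw [hD]; exact hC.hc.2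
    have hD0 : 0 < D := by rw [hD]; exact fx_pos hc1
    obtain ⟨B, hB⟩ : ∃ B, B = (1 + τ) ^ (2 : ℕ) * bq ((1 + τ) * h) := ⟨_, rfl⟩
    have hB1 : fx a0 ≤ B := by
      rw [ha0, hB, pow_two]
      exact mulL (mulL hC.ht1.1 hC.ht1.1) hb.1
    have hD2 : D ^ (2 : ℕ) ≤ fx d2 := by
      rw [hd2, hD, pow_two]
      exact le_mU _ _
    have hGa : fx (mL G a0) ≤ Γ * B := mulL hG hB1
    have hcond : (3 : ℝ) * D ^ (2 : ℕ) ≤ 2 * fx (mL G a0) := by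
      have k1 : fx (3 * d2) ≤ fx (2 * mL G a0) := fx_mono h3
      have k2 : fx (3 * d2) = 3 * fx d2 := by unfold fx; push_cast; ring
      have k3 : fx (2 * mL G a0) = 2 * fx (mL G a0) := by unfold fx; push_cast; ring
      rw [k2, k3] at k1
      linarith
    have m3 := front_mono' (E := g / 2 * τ ^ (2 : ℕ)) hc hcD 3 hGa (by push_cast; exact hcond)
    have m1 := front_mono' (E := g / 2 * τ ^ (2 : ℕ)) hc hcD 1 hGa (by
      push_cast; nlinarith only [hcond])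
    -- exponent
    have hE2 : g / 2 * τ ^ (2 : ℕ) ≤ fx e2 := by
      rw [he2, mul_comm]
      have h1 := mulU hC.hu.2 hC.hu.2 hτ
      have hg0 : 0 ≤ g / 2 := (fx_nonneg _).trans hP.hg.1
      have h2 := mulU h1 hP.hg.2 hg0
      rwa [pow_two]
    have hx1 : fx x ≤ B / D ^ (2 : ℕ) := by
      rw [hxe]
      exact divL hB1 hD2 (by (clear * - hD0; positivity))
    have hE := expNegU (mulL hG (subL hx1 hE2 he))
    have hi1 : 1 / D ≤ fx (dU SC C.c.2) := by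
      rw [hD]; exact divU (le_of_eq fx_one.symm) le_rfl hc1
    -- square root
    have hVn1 : 1 + c ^ (2 : ℕ) / μ ^ (2 : ℕ) ≤ fx Vn := by
      rw [hVn]
      refine addU (le_of_eq fx_one.symm) ?_
      have h2 := mulU hC.hc2.2 (mulU hP.hN.2 hP.hN.2 (by (clear * - hμ; positivity))) (by (clear * - hμ; positivity))
      refine le_trans (le_of_eq ?_) h2
      field_simp
    have hq0 : 0 ≤ q := hP.hq.nonneg
    have hS : √(q * (1 + c ^ (2 : ℕ) / μ ^ (2 : ℕ)) / (2 * F)) / 2 ≤ fx (sqU (mU P.q.2 (dU Vn f) / 2 + 1) / 2 + 1) := by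
      apply half_up
      apply sqrtU
      have k1 := half_up (mulU hP.hq.2 (divU hVn1 hfF hf0) (by (clear * - hc hμ hF0; positivity)))
      refine le_trans (le_of_eq ?_) k1
      field_simp
    have hw1 : ν / (Γ * F) ≤ fx w := by
      rw [hw]
      exact divU hC.hn.2 (mulL hG hfF) hGf
    have hW : LFW μ c ν τ Γ ≤
        fx (mU C.t1.2 C.t1.2 + 2 * mU C.t1.2 (sqU (mU w 350008700000)) +
          (mU (Vn + (Vn - SC) / 8 + 1) w / 2 + 1)) := by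
      have hV8 : 1 + 9 / 8 * (c ^ (2 : ℕ) / μ ^ (2 : ℕ)) ≤ fx (Vn + (Vn - SC) / 8 + 1) := by
        have k1 : c ^ (2 : ℕ) / μ ^ (2 : ℕ) ≤ fx (Vn - SC) := by
          have := subU hVn1 (le_of_eq fx_one)
          linarith
        have k2 := fx_divU (Vn - SC) 8 (by norm_num)
        push_cast at k2
        rw [Nat.add_assoc, fx_add]
        linarith
      unfold LFW
      rw [← hF]
      refine addU (addU ?_ ?_) ?_
      · rw [pow_two]; exact mulU hC.ht1.2 hC.ht1.2 (by (clear * - hτ; positivity))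
      · have k1 := mulU hC.ht1.2 (sqrtU (mulU hw1 inv_pi_le (by positivity))) (Real.sqrt_nonneg _)
        have k2 := two_up k1
        rw [← mul_assoc] at k2
        exact k2
      · exact half_up (mulU hV8 hw1 (by (clear * - hν hΓ0 hF0; positivity)))
    have hW0 : 0 ≤ LFW μ c ν τ Γ := by
      unfold LFW
      rw [← hF]
      (clear * - hτ hν hΓ0 hF0 hc hμ; positivity)
    have e0 : LF0 μ q g c ν h τ Γ = √(q * (1 + c ^ (2 : ℕ) / μ ^ (2 : ℕ)) / (2 * F)) / 2 *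
        ((1 / c) ^ (1 : ℕ) * Real.exp (-(Γ * (B / c ^ (2 : ℕ) - g / 2 * τ ^ (2 : ℕ))))) := by
      unfold LF0
      rw [← hF, ← hB]
      ring
    constructor
    · rw [← ha, e0]
      have k1 := mulU (mulU hS hi1 (by (clear * - hD0; positivity))) hE (Real.exp_pos _).le
      refine le_trans ?_ k1
      rw [mul_assoc]
      refine mul_le_mul_of_nonneg_left ?_ (by (clear * -; positivity))
      rw [pow_one, pow_one] at m1
      rw [pow_one]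
      exact m1
    · rw [← ha', e0]
      have k1 := mulU (mulU (mulU hS (mulU hi1 (mulU hi1 hi1 (by (clear * - hD0; positivity))) (by (clear * - hD0; positivity)))
        (by (clear * - hD0; positivity))) hE (Real.exp_pos _).le) hW hW0
      refine le_trans ?_ k1
      have e1 : √(q * (1 + c ^ (2 : ℕ) / μ ^ (2 : ℕ)) / (2 * F)) / 2 *
          ((1 / c) ^ (1 : ℕ) * Real.exp (-(Γ * (B / c ^ (2 : ℕ) - g / 2 * τ ^ (2 : ℕ))))) * (LFW μ c ν τ Γ / c ^ (2 : ℕ)) =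
          √(q * (1 + c ^ (2 : ℕ) / μ ^ (2 : ℕ)) / (2 * F)) / 2 * ((1 / c) ^ (3 : ℕ) *
            Real.exp (-(Γ * (B / c ^ (2 : ℕ) - g / 2 * τ ^ (2 : ℕ))))) * LFW μ c ν τ Γ := by
        ring
      rw [e1]
      refine mul_le_mul_of_nonneg_right ?_ hW0
      have e2 : 1 / D * (1 / D * (1 / D)) = (1 / D) ^ (3 : ℕ) := by ring
      rw [e2, mul_assoc]
      exact mul_le_mul_of_nonneg_left m3 (by (clear * -; positivity))

/-! ### behind -/

/-- `T2 = (t + 6/5) c/μ` -/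
noncomputable def LT2 (μ c h τ : ℝ) : ℝ := ((1 + τ) * h + 6 / 5) * c / μ

/-- `Qb` -/
noncomputable def LQb (μ c ν h τ : ℝ) : ℝ :=
  La μ ν (LT2 μ c h τ) * c ^ (2 : ℕ) + ν * (11 / 25 * Real.exp (-(LT2 μ c h τ)))

/-- behind, `H0` -/
noncomputable def LB0 (μ q g c ν h τ Γ : ℝ) : ℝ :=
  √(q * (1 + c ^ (2 : ℕ) / μ ^ (2 : ℕ)) / (2 * LQb μ c ν h τ)) / 2 *
    Real.exp (-(Γ * ((1 + τ) ^ (2 : ℕ) * (La μ ν (LT2 μ c h τ) / ν) - g / 2 * τ ^ (2 : ℕ))))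

/-- behind, `W R/h²` -/
noncomputable def LBW (μ c ν h τ Γ : ℝ) : ℝ :=
  (1 + τ) ^ (2 : ℕ) / μ ^ (2 : ℕ) + 2 * (1 + τ) * (c / μ ^ (2 : ℕ) * √(ν / (Γ * LQb μ c ν h τ) * (1 / Real.pi))) +
    (1 + c ^ (2 : ℕ) / μ ^ (2 : ℕ)) * (ν / (Γ * LQb μ c ν h τ)) / 2

/-- the part behind: upper bounds of `H0` and `W` -/
def xh (P : Par) (C : Cl) (G : ℕ) : Option (ℕ × ℕ) :=
  let T := im (im (ia C.t (ic 6 5)) C.c) P.N
  let a := xa P C.n T
  let Q := ia (im a C.c2) (im C.n (im (ic 11 25) (ien T)))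
  let e2 := mU (mU C.u.2 C.u.2) P.g.2
  let x := mL (mL C.t1.1 C.t1.1) (dL a.1 C.n.2)
  let Vn := SC + mU C.c2.2 (mU P.N.2 P.N.2)
  let w := dU C.n.2 (mL G Q.1)
  let N2 := mU P.N.2 P.N.2
  bif Nat.blt 0 Q.1 && Nat.blt 0 (mL G Q.1) && Nat.blt 0 C.n.2 && Nat.ble e2 x then
    some (mU (sqU (mU P.q.2 (dU Vn Q.1) / 2 + 1) / 2 + 1) (eN (mL G (x - e2))),
      mU (mU C.t1.2 C.t1.2) N2 + 2 * mU C.t1.2 (mU (mU C.c.2 N2) (sqU (mU w 350008700000))) +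
        (mU Vn w / 2 + 1))
  else none

theorem xh_sound {P : Par} {μ q g kk c ν h τ Γ : ℝ} (hP : P.Ok μ q g kk) {C : Cl}
    (hC : C.Has μ c ν h τ) {G : ℕ}
    (hG : fx G ≤ Γ) (hc : 0 < c) (hν : 0 < ν) (hτ : 0 ≤ τ) (hν1 : ν ≤ 1)
    {a a' : ℕ} (hx : xh P C G = some (a, a')) :
    LB0 μ q g c ν h τ Γ ≤ fx a ∧ LBW μ c ν h τ Γ ≤ fx a' := by
  have hμ := hP.pos
  have hμ1 := hP.le
  unfold xh at hx
  simp only at hx
  obtain ⟨T, hTe⟩ : ∃ T, T = im (im (ia C.t (ic 6 5)) C.c) P.N := ⟨_, rfl⟩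
  rw [← hTe] at hx
  obtain ⟨α, hα⟩ : ∃ α, α = xa P C.n T := ⟨_, rfl⟩
  rw [← hα] at hx
  obtain ⟨Q, hQe⟩ : ∃ Q, Q = ia (im α C.c2) (im C.n (im (ic 11 25) (ien T))) := ⟨_, rfl⟩
  obtain ⟨e2, he2⟩ : ∃ e2, e2 = mU (mU C.u.2 C.u.2) P.g.2 := ⟨_, rfl⟩
  obtain ⟨x, hxe⟩ : ∃ x, x = mL (mL C.t1.1 C.t1.1) (dL α.1 C.n.2) := ⟨_, rfl⟩
  obtain ⟨Vn, hVn⟩ : ∃ Vn, Vn = SC + mU C.c2.2 (mU P.N.2 P.N.2) := ⟨_, rfl⟩
  rw [← hQe, ← he2, ← hxe, ← hVn] at hx
  obtain ⟨w, hw⟩ : ∃ w, w = dU C.n.2 (mL G Q.1) := ⟨_, rfl⟩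
  rw [← hw] at hx
  cases hbb : (Nat.blt 0 Q.1 && Nat.blt 0 (mL G Q.1) && Nat.blt 0 C.n.2 && Nat.ble e2 x) with
  | false => rw [hbb] at hx; simp at hx
  | true =>
    rw [hbb] at hx
    simp only [cond_true, Option.some.injEq, Prod.mk.injEq] at hx
    obtain ⟨ha, ha'⟩ := hx
    simp only [Bool.and_eq_true, blt_iff, Nat.ble_eq] at hbb
    obtain ⟨⟨⟨hQ0, hGQ⟩, hn0⟩, he⟩ := hbb
    have hT : Mem (LT2 μ c h τ) T := by
      have k1 := ((hC.ht.add (Mem.const 6 5 (by norm_num))).mul hC.hc).mul hP.hN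
      rw [hTe]
      unfold LT2
      rw [mul_one_div] at k1
      exact_mod_cast k1
    obtain ⟨t2, ht2⟩ : ∃ t2, t2 = LT2 μ c h τ := ⟨_, rfl⟩
    rw [← ht2] at hT
    obtain ⟨A, hA⟩ : ∃ A, A = La μ ν t2 := ⟨_, rfl⟩
    have hmA : Mem A α := by rw [hA, hα]; exact mem_xa hP hC.hn hT hν1
    have hmQ : Mem (A * c ^ (2 : ℕ) + ν * (11 / 25 * Real.exp (-t2))) Q := by
      rw [hQe]
      have k1 := (hmA.mul hC.hc2).add (hC.hn.mul ((Mem.const 11 25 (by norm_num)).mul hT.expn))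
      exact_mod_cast k1
    have hA0 : 0 ≤ A := hmA.nonneg
    have hQr : 0 < A * c ^ (2 : ℕ) + ν * (11 / 25 * Real.exp (-t2)) := by (clear * - hA0 hc hν; positivity)
    obtain ⟨R, hR⟩ : ∃ R, R = A * c ^ (2 : ℕ) + ν * (11 / 25 * Real.exp (-t2)) := ⟨_, rfl⟩
    rw [← hR] at hmQ hQr
    have hGpos : 0 < G := by
      rcases Nat.eq_zero_or_pos G with h0 | h0
      · rw [h0] at hGQ; simp [mL] at hGQ
      · exact h0
    have hΓ0 : 0 < Γ := (fx_pos hGpos).trans_le hG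
    have hE2 : g / 2 * τ ^ (2 : ℕ) ≤ fx e2 := by
      rw [he2, mul_comm]
      have h1 := mulU hC.hu.2 hC.hu.2 hτ
      have hg0 : 0 ≤ g / 2 := (fx_nonneg _).trans hP.hg.1
      have h2 := mulU h1 hP.hg.2 hg0
      rwa [pow_two]
    have hx1 : fx x ≤ (1 + τ) ^ (2 : ℕ) * (A / ν) := by
      rw [hxe, pow_two]
      exact mulL (mulL hC.ht1.1 hC.ht1.1) (divL hmA.1 hC.hn.2 hν)
    have hE := expNegU (mulL hG (subL hx1 hE2 he))
    have hVn1 : 1 + c ^ (2 : ℕ) / μ ^ (2 : ℕ) ≤ fx Vn := by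
      rw [hVn]
      refine addU (le_of_eq fx_one.symm) ?_
      have h2 := mulU hC.hc2.2 (mulU hP.hN.2 hP.hN.2 (by (clear * - hμ; positivity))) (by (clear * - hμ; positivity))
      refine le_trans (le_of_eq ?_) h2
      field_simp
    have hq0 : 0 ≤ q := hP.hq.nonneg
    have hS : √(q * (1 + c ^ (2 : ℕ) / μ ^ (2 : ℕ)) / (2 * R)) / 2 ≤ fx (sqU (mU P.q.2 (dU Vn Q.1) / 2 + 1) / 2 + 1) := by
      apply half_up
      apply sqrtU
      have k1 := half_up (mulU hP.hq.2 (divU hVn1 hmQ.1 hQ0) (by (clear * - hc hμ hQr; positivity)))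
      refine le_trans (le_of_eq ?_) k1
      field_simp
    have hw1 : ν / (Γ * R) ≤ fx w := by
      rw [hw]
      exact divU hC.hn.2 (mulL hG hmQ.1) hGQ
    constructor
    · rw [← ha]
      have k1 := mulU hS hE (Real.exp_pos _).le
      refine le_trans (le_of_eq ?_) k1
      unfold LB0 LQb
      rw [← ht2, ← hA, ← hR]
    · rw [← ha']
      unfold LBW LQb
      rw [← ht2, ← hA, ← hR]
      have hN2 : 1 / μ ^ (2 : ℕ) ≤ fx (mU P.N.2 P.N.2) := by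
        have k1 := mulU hP.hN.2 hP.hN.2 (by (clear * - hμ; positivity))
        refine le_trans (le_of_eq ?_) k1
        field_simp
      refine addU (addU ?_ ?_) ?_
      · have k1 := mulU (mulU hC.ht1.2 hC.ht1.2 (by (clear * - hτ; positivity))) hN2 (by positivity)
        refine le_trans (le_of_eq ?_) k1
        field_simp
      · have k1 := mulU hC.ht1.2 (mulU (mulU hC.hc.2 hN2 (by positivity))
          (sqrtU (mulU hw1 inv_pi_le (by positivity))) (Real.sqrt_nonneg _)) (by (clear * - hc hμ hν hΓ0 hQr; positivity))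
        have k2 := two_up k1
        refine le_trans (le_of_eq ?_) k2
        ring
      · exact half_up (mulU hVn1 hw1 (by (clear * - hν hΓ0 hQr; positivity)))

end SokamCel

end

/-! ### Lib_MP_af4de1_v3.CelL3 -/

section
namespace SokamFN
end SokamFN
/-!
# Cells: the image of a left wave (it arrives from the right side), `t' = 2π - t`, `x = t'/h`
-/

set_option autoImplicit false

namespace SokamCel

open SokamFN

/-- clamp of an exponent -/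
def cl (a : ℕ) : ℕ := min a 70368744177664

theorem expCl {y : ℝ} {a : ℕ} (h : fx a ≤ y) : Real.exp (-y) ≤ fx (eN (cl a)) :=
  expNegU ((fx_mono (min_le_left _ _)).trans h)

/-- `x^p e^(-Γ (Z x² - E))` is decreasing -/
theorem img_mono {x x0 Γ Z E : ℝ} (hx0 : 0 < x0) (hx : x0 ≤ x) (p : ℕ)
    (h : p ≤ 2 * (Γ * Z * x0 ^ (2 : ℕ))) :
    x ^ p * Real.exp (-(Γ * (Z * x ^ (2 : ℕ) - E))) ≤ x0 ^ p * Real.exp (-(Γ * (Z * x0 ^ (2 : ℕ) - E))) := by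
  have hx' : 0 < x := hx0.trans_le hx
  have h1 := front_mono' (c := 1 / x) (d := 1 / x0) (a := Γ * Z) (Γ := Γ) (B := Z) (E := E)
    (by positivity) (one_div_le_one_div_of_le hx0 hx) p le_rfl (by
      rw [one_div, inv_pow, ← div_eq_mul_inv, div_le_iff₀ (by (clear * - hx0; positivity))]
      linarith only [h])
  simp only [one_div_one_div] at h1
  have e1 : Z / (1 / x) ^ (2 : ℕ) = Z * x ^ (2 : ℕ) := by field_simp
  have e2 : Z / (1 / x0) ^ (2 : ℕ) = Z * x0 ^ (2 : ℕ) := by field_simp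
  rwa [e1, e2] at h1

/-- `ν` times the quadratic coefficient over `c²`, right side -/
noncomputable def Lr (μ ν T : ℝ) : ℝ :=
  (μ - ν * ((1 + min 1 T / 3 + 5 * min 1 T ^ (2 : ℕ) / 48) / 2)) / μ ^ (2 : ℕ) / max 1 T

/-- interval of `(1 + min 1 T/3 + 5 (min 1 T)²/48)/2` -/
def xs (T : I) : I :=
  let m := imn (SC, SC) T
  let s := im (ia (ia (SC, SC) (im m (ic 1 3))) (im (im m m) (ic 5 48))) (ic 1 2)
  s

theorem mem_xs {T : ℝ} {t : I} (hT : Mem T t) :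
    Mem ((1 + min 1 T / 3 + 5 * min 1 T ^ (2 : ℕ) / 48) / 2) (xs t) := by
  have h1 := Mem.one.min hT
  have h2 := ((Mem.one.add (h1.mul (Mem.const 1 3 (by norm_num)))).add
    ((h1.mul h1).mul (Mem.const 5 48 (by norm_num)))).mul (Mem.const 1 2 (by norm_num))
  have e : (1 + min 1 T / 3 + 5 * min 1 T ^ (2 : ℕ) / 48) / 2 =
      (1 + min 1 T * (((1 : ℕ) : ℝ) / ((3 : ℕ) : ℝ)) +
        min 1 T * min 1 T * (((5 : ℕ) : ℝ) / ((48 : ℕ) : ℝ))) * (((1 : ℕ) : ℝ) / ((2 : ℕ) : ℝ)) := by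
    push_cast
    ring
  rw [e]
  exact h2

/-- interval of `Lr` -/
def xr (P : Par) (n T : I) : I :=
  im (im (im (is' P.M (im n (xs T))) P.N) P.N) (id' (SC, SC) (imx (SC, SC) T))

theorem mem_xr {P : Par} {μ q g kk ν T : ℝ} {n t : I} (hP : P.Ok μ q g kk) (hn : Mem ν n)
    (hT : Mem T t) (hν : ν ≤ 1) (hT0 : 0 ≤ T) : Mem (Lr μ ν T) (xr P n t) := by
  have hm0 : 0 ≤ min 1 T := le_min zero_le_one hT0
  have hm1 : min 1 T ≤ 1 := min_le_left _ _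
  have hs : (1 + min 1 T / 3 + 5 * min 1 T ^ (2 : ℕ) / 48) / 2 ≤ 1 := by nlinarith
  have hs0 : 0 ≤ (1 + min 1 T / 3 + 5 * min 1 T ^ (2 : ℕ) / 48) / 2 := by (clear * - hT0; positivity)
  have hν0 := hn.nonneg
  have hle : ν * ((1 + min 1 T / 3 + 5 * min 1 T ^ (2 : ℕ) / 48) / 2) ≤ μ := by
    have h1 := mul_le_mul hν hs hs0 zero_le_one
    have := hP.le
    linarith only [h1, this]
  have h1 := ((hP.hM.sub (hn.mul (mem_xs hT)) hle).mul hP.hN).mul hP.hN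
  have h2 := Mem.one.div (Mem.one.max hT) (b := imx (SC, SC) t) (by
    show 0 < max SC t.1
    exact lt_of_lt_of_le (by norm_num) (le_max_left _ _))
  have h3 := h1.mul h2
  have e : Lr μ ν T = (μ - ν * ((1 + min 1 T / 3 + 5 * min 1 T ^ (2 : ℕ) / 48) / 2)) * (1 / μ) * (1 / μ) *
      (1 / max 1 T) := by
    unfold Lr
    have := hP.pos
    have h4 : (0 : ℝ) < max 1 T := lt_max_of_lt_left one_pos
    field_simp
  rw [e]
  exact h3

/-- `t'` -/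
noncomputable def Ltp (h τ : ℝ) : ℝ := 2 * Real.pi - (1 + τ) * h

/-- `(t' + 6/5) c/μ` -/
noncomputable def LT3 (μ c h τ : ℝ) : ℝ := (Ltp h τ + 6 / 5) * c / μ

/-- `Qi` -/
noncomputable def LQi (μ c ν T : ℝ) : ℝ := Lr μ ν T * c ^ (2 : ℕ) + ν * (11 / 25)

/-- image, main part, `I0` -/
noncomputable def LI0 (μ q g c ν h τ Γ : ℝ) : ℝ :=
  √(q * (1 + c ^ (2 : ℕ) / μ ^ (2 : ℕ)) / (2 * LQi μ c ν (Ltp h τ * c / μ))) *
    Real.exp (-(Γ * (1 / (c ^ (2 : ℕ) / (11 / 25) + ν / Lr μ ν (Ltp h τ * c / μ)) * (Ltp h τ / h) ^ (2 : ℕ) -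
      g / 2 * τ ^ (2 : ℕ))))

/-- `e^T'`, part behind -/
noncomputable def Le (μ c h τ : ℝ) : ℝ := Real.exp (min 1 (LT3 μ c h τ))

/-- `e^T`, main part -/
noncomputable def Le1 (μ c h τ : ℝ) : ℝ := Real.exp (min 1 (Ltp h τ * c / μ))

/-- image, main part, weight (with `e1 ≤ (1 + e^T')/2`) -/
noncomputable def LIW (μ c ν h τ Γ : ℝ) : ℝ :=
  (Ltp h τ / h) ^ (2 : ℕ) * (((1 + Le1 μ c h τ) / 2) ^ (2 : ℕ) / μ ^ (2 : ℕ) *
      (ν * (11 / 25) / LQi μ c ν (Ltp h τ * c / μ)) ^ (2 : ℕ) +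
    Le1 μ c h τ * (Lr μ ν (Ltp h τ * c / μ) * c / LQi μ c ν (Ltp h τ * c / μ)) ^ (2 : ℕ)) +
  (((1 + Le1 μ c h τ) / 2) ^ (2 : ℕ) / μ ^ (2 : ℕ) * c ^ (2 : ℕ) + Le1 μ c h τ) *
    (ν / (Γ * LQi μ c ν (Ltp h τ * c / μ))) / 2

/-- image, part behind, `H0` -/
noncomputable def LJ0 (μ q g c ν h τ Γ : ℝ) : ℝ :=
  √(q * (1 + c ^ (2 : ℕ) / μ ^ (2 : ℕ)) / (2 * LQi μ c ν (LT3 μ c h τ))) / 2 *
    Real.exp (-(Γ * (Lr μ ν (LT3 μ c h τ) / ν * (Ltp h τ / h) ^ (2 : ℕ) - g / 2 * τ ^ (2 : ℕ))))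

/-- image, part behind, weight -/
noncomputable def LJW (μ c ν h τ Γ : ℝ) : ℝ :=
  ((1 + Le μ c h τ) / 2) ^ (2 : ℕ) / μ ^ (2 : ℕ) * ((Ltp h τ / h) ^ (2 : ℕ) + 2 * (Ltp h τ / h) *
      (c * √(ν / (Γ * LQi μ c ν (LT3 μ c h τ)) * (1 / Real.pi)))) +
  (((1 + Le μ c h τ) / 2) ^ (2 : ℕ) / μ ^ (2 : ℕ) * c ^ (2 : ℕ) + Le μ c h τ) *
    (ν / (Γ * LQi μ c ν (LT3 μ c h τ))) / 2

/-- the image: upper bounds of `I0 + H0`, `I0 W + H0 W`, `e^T I0 + e^T' H0` -/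
def xi (P : Par) (C : Cl) (G : ℕ) : Option (ℕ × ℕ × ℕ) :=
  let tp : I := (6908231557316 - C.t.2, 6908451460481 - C.t.1)
  let T := im (im tp C.c) P.N
  let T3 := im (im (ia tp (ic 6 5)) C.c) P.N
  let a := xr P C.n T
  let a3 := xr P C.n T3
  let Q := ia (im a C.c2) (im C.n (ic 11 25))
  let Q3 := ia (im a3 C.c2) (im C.n (ic 11 25))
  let Y := ia (id' C.c2 (ic 11 25)) (id' C.n a)
  let Z := dL SC Y.2
  let Z3 := dL a3.1 C.n.2
  let e2 := mU (mU C.u.2 C.u.2) P.g.2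
  let x0 := dL tp.1 C.h.2
  let y := mL Z (mL x0 x0)
  let y3 := mL Z3 (mL x0 x0)
  let N2 := mU P.N.2 P.N.2
  let Vn := SC + mU C.c2.2 N2
  let e := dU SC (eNL (min SC T3.2))
  let f := dU SC (eNL (min SC T.2))
  let w := dU C.n.2 (mL G Q.1)
  let w3 := dU C.n.2 (mL G Q3.1)
  let o := mU (mU ((SC + e) / 2 + 1) ((SC + e) / 2 + 1)) N2
  let v := mU (mU ((SC + f) / 2 + 1) ((SC + f) / 2 + 1)) N2
  bif Nat.blt 0 a.1 && Nat.blt 0 Q.1 && Nat.blt 0 Q3.1 && Nat.blt 0 (mL G Q.1) && Nat.blt 0 (mL G Q3.1) &&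
      Nat.blt 0 Y.1 && Nat.blt 0 C.n.2 && Nat.blt 0 C.h.2 && Nat.blt 0 x0 &&
      Nat.ble SC (mL G y) && Nat.ble SC (mL G y3) && Nat.ble e2 y && Nat.ble e2 y3 &&
      Nat.blt 0 (eNL (min SC T3.2)) && Nat.blt 0 (eNL (min SC T.2)) && Nat.ble C.t.2 6908231557316 then
    let I0 := mU (sqU (mU P.q.2 (dU Vn Q.1) / 2 + 1)) (eN (cl (mL G (y - e2))))
    let J0 := mU (sqU (mU P.q.2 (dU Vn Q3.1) / 2 + 1) / 2 + 1) (eN (cl (mL G (y3 - e2))))
    let l := dU (mU C.n.2 (ic 11 25).2) Q.1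
    let k := dU (mU a.2 C.c.2) Q.1
    let IW := mU (mU x0 x0) (mU v (mU l l) + mU f (mU k k)) + (mU (mU v C.c2.2 + f) w / 2 + 1)
    let JW := mU o (mU x0 x0 + mU (2 * x0) (mU C.c.2 (sqU (mU w3 350008700000)))) +
      (mU (mU o C.c2.2 + e) w3 / 2 + 1)
    some (I0 + J0, mU I0 IW + mU J0 JW, mU f I0 + mU e J0)
  else none


theorem two_pi_lo : fx 6908231557316 ≤ 2 * Real.pi := by
  have h := Real.pi_gt_d4
  unfold fx
  linarith only [h]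

theorem two_pi_hi : 2 * Real.pi ≤ fx 6908451460481 := by
  have h := Real.pi_lt_d4
  unfold fx
  linarith only [h]

/-- `Γ (Z x² - E)`-Gaussian with a quadratic weight, decreasing in `x` -/
theorem img_bound {x X Γ Z E w2 w1 w0 : ℝ} (hX : 0 < X) (hx : X ≤ x)
    (h : 1 ≤ Γ * (Z * X ^ (2 : ℕ))) (h2 : 0 ≤ w2) (h1 : 0 ≤ w1) (h0 : 0 ≤ w0) :
    (w2 * x ^ (2 : ℕ) + w1 * x + w0) * Real.exp (-(Γ * (Z * x ^ (2 : ℕ) - E))) ≤
      (w2 * X ^ (2 : ℕ) + w1 * X + w0) * Real.exp (-(Γ * (Z * X ^ (2 : ℕ) - E))) := by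
  have m2 := img_mono (Γ := Γ) (Z := Z) (E := E) hX hx 2 (by push_cast; linarith only [h])
  have m1 := img_mono (Γ := Γ) (Z := Z) (E := E) hX hx 1 (by push_cast; linarith only [h])
  have m0 := img_mono (Γ := Γ) (Z := Z) (E := E) hX hx 0 (by push_cast; linarith only [h])
  simp only [pow_zero, one_mul, pow_one] at m0 m1
  have k2 := mul_le_mul_of_nonneg_left m2 h2
  have k1 := mul_le_mul_of_nonneg_left m1 h1
  have k0 := mul_le_mul_of_nonneg_left m0 h0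
  linarith only [k2, k1, k0]

theorem xi_sound {P : Par} {μ q g kk c ν h τ Γ : ℝ} (hP : P.Ok μ q g kk) {C : Cl}
    (hC : C.Has μ c ν h τ) {G : ℕ}
    (hG : fx G ≤ Γ) (hc : 0 < c) (hν : 0 < ν) (hh : 0 < h) (hτ : 0 ≤ τ) (hν1 : ν ≤ 1)
    (htp : (1 + τ) * h ≤ Real.pi)
    {a0 a1 a2 : ℕ} (hx : xi P C G = some (a0, a1, a2)) :
    LI0 μ q g c ν h τ Γ + LJ0 μ q g c ν h τ Γ ≤ fx a0 ∧
    LI0 μ q g c ν h τ Γ * LIW μ c ν h τ Γ + LJ0 μ q g c ν h τ Γ * LJW μ c ν h τ Γ ≤ fx a1 ∧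
    Le1 μ c h τ * LI0 μ q g c ν h τ Γ + Le μ c h τ * LJ0 μ q g c ν h τ Γ ≤ fx a2 := by
  have hμ := hP.pos
  have hμ1 := hP.le
  have hpi := Real.pi_pos
  unfold xi at hx
  simp only at hx
  obtain ⟨tp, htpe⟩ : ∃ tp : I, tp = (6908231557316 - C.t.2, 6908451460481 - C.t.1) := ⟨_, rfl⟩
  rw [show (6908231557316 - C.t.2, 6908451460481 - C.t.1) = tp from htpe.symm] at hx
  rw [show (6908231557316 - C.t.2 : ℕ) = tp.1 by rw [htpe]] at hx
  obtain ⟨T, hTe⟩ : ∃ T, T = im (im tp C.c) P.N := ⟨_, rfl⟩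
  obtain ⟨T3, hT3e⟩ : ∃ T3, T3 = im (im (ia tp (ic 6 5)) C.c) P.N := ⟨_, rfl⟩
  rw [← hTe, ← hT3e] at hx
  obtain ⟨a, hae⟩ : ∃ a, a = xr P C.n T := ⟨_, rfl⟩
  obtain ⟨a3, ha3e⟩ : ∃ a3, a3 = xr P C.n T3 := ⟨_, rfl⟩
  rw [← hae, ← ha3e] at hx
  obtain ⟨Q, hQe⟩ : ∃ Q, Q = ia (im a C.c2) (im C.n (ic 11 25)) := ⟨_, rfl⟩
  obtain ⟨Q3, hQ3e⟩ : ∃ Q3, Q3 = ia (im a3 C.c2) (im C.n (ic 11 25)) := ⟨_, rfl⟩
  obtain ⟨Y, hYe⟩ : ∃ Y, Y = ia (id' C.c2 (ic 11 25)) (id' C.n a) := ⟨_, rfl⟩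
  rw [← hQe, ← hQ3e, ← hYe] at hx
  obtain ⟨Z, hZe⟩ : ∃ Z, Z = dL SC Y.2 := ⟨_, rfl⟩
  obtain ⟨Z3, hZ3e⟩ : ∃ Z3, Z3 = dL a3.1 C.n.2 := ⟨_, rfl⟩
  obtain ⟨e2, he2⟩ : ∃ e2, e2 = mU (mU C.u.2 C.u.2) P.g.2 := ⟨_, rfl⟩
  obtain ⟨x0, hx0e⟩ : ∃ x0, x0 = dL tp.1 C.h.2 := ⟨_, rfl⟩
  rw [← hZe, ← hZ3e, ← he2, ← hx0e] at hx
  obtain ⟨y, hye⟩ : ∃ y, y = mL Z (mL x0 x0) := ⟨_, rfl⟩
  obtain ⟨y3, hy3e⟩ : ∃ y3, y3 = mL Z3 (mL x0 x0) := ⟨_, rfl⟩
  obtain ⟨N2, hN2e⟩ : ∃ N2, N2 = mU P.N.2 P.N.2 := ⟨_, rfl⟩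
  rw [← hye, ← hy3e, ← hN2e] at hx
  obtain ⟨Vn, hVn⟩ : ∃ Vn, Vn = SC + mU C.c2.2 N2 := ⟨_, rfl⟩
  obtain ⟨ee, hee⟩ : ∃ ee, ee = dU SC (eNL (min SC T3.2)) := ⟨_, rfl⟩
  obtain ⟨w, hwe⟩ : ∃ w, w = dU C.n.2 (mL G Q.1) := ⟨_, rfl⟩
  obtain ⟨w3, hw3e⟩ : ∃ w3, w3 = dU C.n.2 (mL G Q3.1) := ⟨_, rfl⟩
  obtain ⟨ff, hff⟩ : ∃ ff, ff = dU SC (eNL (min SC T.2)) := ⟨_, rfl⟩
  rw [← hVn, ← hee, ← hff, ← hwe, ← hw3e] at hx
  obtain ⟨o, hoe⟩ : ∃ o, o = mU (mU ((SC + ee) / 2 + 1) ((SC + ee) / 2 + 1)) N2 := ⟨_, rfl⟩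
  obtain ⟨v, hve⟩ : ∃ v, v = mU (mU ((SC + ff) / 2 + 1) ((SC + ff) / 2 + 1)) N2 := ⟨_, rfl⟩
  rw [← hoe, ← hve] at hx
  cases hbb : (Nat.blt 0 a.1 && Nat.blt 0 Q.1 && Nat.blt 0 Q3.1 && Nat.blt 0 (mL G Q.1) &&
      Nat.blt 0 (mL G Q3.1) && Nat.blt 0 Y.1 && Nat.blt 0 C.n.2 && Nat.blt 0 C.h.2 &&
      Nat.blt 0 x0 && Nat.ble SC (mL G y) && Nat.ble SC (mL G y3) && Nat.ble e2 y &&
      Nat.ble e2 y3 && Nat.blt 0 (eNL (min SC T3.2)) && Nat.blt 0 (eNL (min SC T.2)) &&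
      Nat.ble C.t.2 6908231557316) with
  | false => rw [hbb] at hx; simp at hx
  | true =>
    rw [hbb] at hx
    simp only [cond_true, Option.some.injEq, Prod.mk.injEq] at hx
    obtain ⟨ha0, ha1, ha2⟩ := hx
    simp only [Bool.and_eq_true, blt_iff, Nat.ble_eq] at hbb
    obtain ⟨⟨⟨⟨⟨⟨⟨⟨⟨⟨⟨⟨⟨⟨⟨haa, hQ0⟩, hQ30⟩, hGQ⟩, hGQ3⟩, hY0⟩, hn0⟩, hh0⟩, hx00⟩, hGy⟩, hGy3⟩, hey⟩, hey3⟩,
      heN⟩, hfN⟩, htle⟩ := hbb
    -- t'
    have hmtp : Mem (Ltp h τ) tp := by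
      rw [htpe]
      unfold Ltp
      exact ⟨subL two_pi_lo hC.ht.2 htle, subU two_pi_hi hC.ht.1⟩
    have htp0 : 0 < Ltp h τ := by unfold Ltp; linarith only [htp, hpi]
    have hmT : Mem (Ltp h τ * c / μ) T := by
      have k := (hmtp.mul hC.hc).mul hP.hN
      rw [mul_one_div] at k
      rw [hTe]; exact k
    have hmT3 : Mem (LT3 μ c h τ) T3 := by
      have k := ((hmtp.add (Mem.const 6 5 (by norm_num))).mul hC.hc).mul hP.hN
      rw [mul_one_div] at k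
      rw [hT3e]
      unfold LT3
      exact_mod_cast k
    have hT30 : 0 ≤ LT3 μ c h τ := by unfold LT3; (clear * - htp0 hc hμ; positivity)
    obtain ⟨t1, ht1⟩ : ∃ t1, t1 = Ltp h τ * c / μ := ⟨_, rfl⟩
    obtain ⟨t3, ht3⟩ : ∃ t3, t3 = LT3 μ c h τ := ⟨_, rfl⟩
    rw [← ht1] at hmT
    rw [← ht3] at hmT3 hT30
    have ht10 : 0 ≤ t1 := by rw [ht1]; (clear * - htp0 hc hμ; positivity)
    obtain ⟨A, hA⟩ : ∃ A, A = Lr μ ν t1 := ⟨_, rfl⟩
    obtain ⟨A3, hA3⟩ : ∃ A3, A3 = Lr μ ν t3 := ⟨_, rfl⟩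
    have hmA : Mem A a := by rw [hA, hae]; exact mem_xr hP hC.hn hmT hν1 ht10
    have hmA3 : Mem A3 a3 := by rw [hA3, ha3e]; exact mem_xr hP hC.hn hmT3 hν1 hT30
    have hm11 : Mem (11 / 25 : ℝ) (ic 11 25) := by exact_mod_cast Mem.const 11 25 (by norm_num)
    have hmQ : Mem (A * c ^ (2 : ℕ) + ν * (11 / 25)) Q := by
      rw [hQe]; exact (hmA.mul hC.hc2).add (hC.hn.mul hm11)
    have hmQ3 : Mem (A3 * c ^ (2 : ℕ) + ν * (11 / 25)) Q3 := by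
      rw [hQ3e]; exact (hmA3.mul hC.hc2).add (hC.hn.mul hm11)
    have hA0 : 0 < A := (fx_pos haa).trans_le hmA.1
    have hA30 : 0 ≤ A3 := hmA3.nonneg
    obtain ⟨R, hR⟩ : ∃ R, R = A * c ^ (2 : ℕ) + ν * (11 / 25) := ⟨_, rfl⟩
    obtain ⟨R3, hR3⟩ : ∃ R3, R3 = A3 * c ^ (2 : ℕ) + ν * (11 / 25) := ⟨_, rfl⟩
    rw [← hR] at hmQ
    rw [← hR3] at hmQ3
    have hR0 : 0 < R := by rw [hR]; (clear * - hA0 hc hν; positivity)
    have hR30 : 0 < R3 := by rw [hR3]; (clear * - hA30 hc hν; positivity)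
    have h11 : 0 < (ic 11 25).1 := by unfold ic SC; norm_num
    have hmY : Mem (c ^ (2 : ℕ) / (11 / 25) + ν / A) Y := by
      rw [hYe]; exact (hC.hc2.div hm11 h11).add (hC.hn.div hmA haa)
    obtain ⟨Zr, hZr⟩ : ∃ Zr, Zr = 1 / (c ^ (2 : ℕ) / (11 / 25) + ν / A) := ⟨_, rfl⟩
    have hZ1 : fx Z ≤ Zr := by
      rw [hZe, hZr]
      exact divL (le_of_eq fx_one) hmY.2 (by (clear * - hc hν hA0; positivity))
    obtain ⟨Zr3, hZr3⟩ : ∃ Zr3, Zr3 = A3 / ν := ⟨_, rfl⟩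
    have hZ31 : fx Z3 ≤ Zr3 := by
      rw [hZ3e, hZr3]
      exact divL hmA3.1 hC.hn.2 hν
    have hZr0 : 0 ≤ Zr := (fx_nonneg _).trans hZ1
    have hZr30 : 0 ≤ Zr3 := (fx_nonneg _).trans hZ31
    have hGpos : 0 < G := by
      rcases Nat.eq_zero_or_pos G with h0 | h0
      · rw [h0] at hGQ; simp [mL] at hGQ
      · exact h0
    have hΓ0 : 0 < Γ := (fx_pos hGpos).trans_le hG
    have hE2 : g / 2 * τ ^ (2 : ℕ) ≤ fx e2 := by
      rw [he2, mul_comm]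
      have h1 := mulU hC.hu.2 hC.hu.2 hτ
      have hg0 : 0 ≤ g / 2 := (fx_nonneg _).trans hP.hg.1
      have h2 := mulU h1 hP.hg.2 hg0
      rwa [pow_two]
    -- x
    obtain ⟨x, hxr⟩ : ∃ x, x = Ltp h τ / h := ⟨_, rfl⟩
    obtain ⟨X, hXr⟩ : ∃ X, X = fx x0 := ⟨_, rfl⟩
    have hX0 : 0 < X := by rw [hXr]; exact fx_pos hx00
    have hXx : X ≤ x := by
      rw [hXr, hxr, hx0e]
      exact divL hmtp.1 hC.hh.2 hh
    have hXX : fx (mL x0 x0) ≤ X ^ (2 : ℕ) := by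
      rw [hXr, pow_two]; exact mL_le _ _
    have hXXu : X ^ (2 : ℕ) ≤ fx (mU x0 x0) := by
      rw [hXr, pow_two]; exact le_mU _ _
    have hy1 : fx y ≤ Zr * X ^ (2 : ℕ) := by rw [hye]; exact mulL hZ1 hXX
    have hy31 : fx y3 ≤ Zr3 * X ^ (2 : ℕ) := by rw [hy3e]; exact mulL hZ31 hXX
    have hΓy : 1 ≤ Γ * (Zr * X ^ (2 : ℕ)) := by
      rw [← fx_one]
      exact (fx_mono hGy).trans (mulL hG hy1)
    have hΓy3 : 1 ≤ Γ * (Zr3 * X ^ (2 : ℕ)) := by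
      rw [← fx_one]
      exact (fx_mono hGy3).trans (mulL hG hy31)
    have hE := expCl (mulL hG (subL hy1 hE2 hey))
    have hE3 := expCl (mulL hG (subL hy31 hE2 hey3))
    -- prefactors
    have hN2 : 1 / μ ^ (2 : ℕ) ≤ fx N2 := by
      have k1 := mulU hP.hN.2 hP.hN.2 (by positivity)
      rw [hN2e]
      refine le_trans (le_of_eq ?_) k1
      field_simp
    have hVn1 : 1 + c ^ (2 : ℕ) / μ ^ (2 : ℕ) ≤ fx Vn := by
      rw [hVn]
      refine addU (le_of_eq fx_one.symm) ?_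
      have h2 := mulU hC.hc2.2 hN2 (by positivity)
      refine le_trans (le_of_eq ?_) h2
      field_simp
    have hq0 : 0 ≤ q := hP.hq.nonneg
    have hS : √(q * (1 + c ^ (2 : ℕ) / μ ^ (2 : ℕ)) / (2 * R)) ≤ fx (sqU (mU P.q.2 (dU Vn Q.1) / 2 + 1)) := by
      apply sqrtU
      have k1 := half_up (mulU hP.hq.2 (divU hVn1 hmQ.1 hQ0) (by (clear * - hc hμ hR0; positivity)))
      refine le_trans (le_of_eq ?_) k1
      field_simp
    have hS3 : √(q * (1 + c ^ (2 : ℕ) / μ ^ (2 : ℕ)) / (2 * R3)) / 2 ≤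
        fx (sqU (mU P.q.2 (dU Vn Q3.1) / 2 + 1) / 2 + 1) := by
      apply half_up
      apply sqrtU
      have k1 := half_up (mulU hP.hq.2 (divU hVn1 hmQ3.1 hQ30) (by (clear * - hc hμ hR30; positivity)))
      refine le_trans (le_of_eq ?_) k1
      field_simp
    have hw1 : ν / (Γ * R) ≤ fx w := by
      rw [hwe]
      exact divU hC.hn.2 (mulL hG hmQ.1) hGQ
    have hw31 : ν / (Γ * R3) ≤ fx w3 := by
      rw [hw3e]
      exact divU hC.hn.2 (mulL hG hmQ3.1) hGQ3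
    -- e^T'
    have hee1 : Le μ c h τ ≤ fx ee := by
      rw [hee]
      unfold Le
      rw [← ht3]
      have k1 : min 1 t3 ≤ fx (min SC T3.2) := minU (le_of_eq fx_one.symm) hmT3.2
      exact expUp k1 heN
    have hff1 : Le1 μ c h τ ≤ fx ff := by
      rw [hff]
      unfold Le1
      rw [← ht1]
      have k1 : min 1 t1 ≤ fx (min SC T.2) := minU (le_of_eq fx_one.symm) hmT.2
      exact expUp k1 hfN
    obtain ⟨F1, hF1⟩ : ∃ F1, F1 = Le1 μ c h τ := ⟨_, rfl⟩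
    rw [← hF1] at hff1
    have hF10 : 0 < F1 := by rw [hF1]; exact Real.exp_pos _
    have hv1 : ((1 + F1) / 2) ^ (2 : ℕ) / μ ^ (2 : ℕ) ≤ fx v := by
      have k1 : (1 + F1) / 2 ≤ fx ((SC + ff) / 2 + 1) := half_up (addU (le_of_eq fx_one.symm) hff1)
      have k2 := mulU (mulU k1 k1 (by (clear * - hF10; positivity))) hN2 (by positivity)
      rw [hve]
      refine le_trans (le_of_eq ?_) k2
      field_simp
    obtain ⟨U, hU⟩ : ∃ U, U = ((1 + F1) / 2) ^ (2 : ℕ) / μ ^ (2 : ℕ) := ⟨_, rfl⟩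
    rw [← hU] at hv1
    have hU0 : 0 ≤ U := by rw [hU]; (clear * - hF10 hμ; positivity)
    have hvc : U * c ^ (2 : ℕ) + F1 ≤ fx (mU v C.c2.2 + ff) := addU (mulU hv1 hC.hc2.2 (by positivity)) hff1
    obtain ⟨E1, hE1⟩ : ∃ E1, E1 = Le μ c h τ := ⟨_, rfl⟩
    rw [← hE1] at hee1
    have hE10 : 0 < E1 := by rw [hE1]; exact Real.exp_pos _
    have ho1 : ((1 + E1) / 2) ^ (2 : ℕ) / μ ^ (2 : ℕ) ≤ fx o := by
      have k1 : (1 + E1) / 2 ≤ fx ((SC + ee) / 2 + 1) := half_up (addU (le_of_eq fx_one.symm) hee1)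
      have k2 := mulU (mulU k1 k1 (by (clear * - hE10; positivity))) hN2 (by positivity)
      rw [hoe]
      refine le_trans (le_of_eq ?_) k2
      field_simp
    obtain ⟨O, hO⟩ : ∃ O, O = ((1 + E1) / 2) ^ (2 : ℕ) / μ ^ (2 : ℕ) := ⟨_, rfl⟩
    rw [← hO] at ho1
    have hO0 : 0 ≤ O := by rw [hO]; (clear * - hE10 hμ; positivity)
    have hoc : O * c ^ (2 : ℕ) + E1 ≤ fx (mU o C.c2.2 + ee) := addU (mulU ho1 hC.hc2.2 (by positivity)) hee1
    have hl : ν * (11 / 25) / R ≤ fx (dU (mU C.n.2 (ic 11 25).2) Q.1) :=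
      divU (mulU hC.hn.2 hm11.2 (by norm_num)) hmQ.1 hQ0
    have hk : A * c / R ≤ fx (dU (mU a.2 C.c.2) Q.1) := divU (mulU hmA.2 hC.hc.2 hc.le) hmQ.1 hQ0
    have hl0 : 0 ≤ ν * (11 / 25) / R := by (clear * - hν hR0; positivity)
    have hk0 : 0 ≤ A * c / R := by (clear * - hA0 hc hR0; positivity)
    have hw0 : 0 ≤ ν / (Γ * R) := by (clear * - hν hΓ0 hR0; positivity)
    have hw30 : 0 ≤ ν / (Γ * R3) := by (clear * - hν hΓ0 hR30; positivity)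
    -- weights at `X`
    have hW : U * (ν * (11 / 25) / R) ^ (2 : ℕ) + F1 * (A * c / R) ^ (2 : ℕ) ≤
        fx (mU v (mU (dU (mU C.n.2 (ic 11 25).2) Q.1) (dU (mU C.n.2 (ic 11 25).2) Q.1)) +
          mU ff (mU (dU (mU a.2 C.c.2) Q.1) (dU (mU a.2 C.c.2) Q.1))) := by
      rw [pow_two, pow_two]
      exact addU (mulU hv1 (mulU hl hl hl0) (by (clear * - hν hR0; positivity))) (mulU hff1 (mulU hk hk hk0) (by (clear * - hA0 hc hR0; positivity)))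
    have hc0' : (U * c ^ (2 : ℕ) + F1) * (ν / (Γ * R)) / 2 ≤ fx (mU (mU v C.c2.2 + ff) w / 2 + 1) :=
      half_up (mulU hvc hw1 hw0)
    have hc3' : (O * c ^ (2 : ℕ) + E1) * (ν / (Γ * R3)) / 2 ≤ fx (mU (mU o C.c2.2 + ee) w3 / 2 + 1) :=
      half_up (mulU hoc hw31 hw30)
    have hIW := addU (mulU hXXu hW (by (clear * - hU0 hν hR0 hF10 hA0 hc; positivity))) hc0'
    have hs3 : √(ν / (Γ * R3) * (1 / Real.pi)) ≤ fx (sqU (mU w3 350008700000)) :=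
      sqrtU (mulU hw31 inv_pi_le (by positivity))
    have hX2 : 2 * X ≤ fx (2 * x0) := two_up (le_of_eq hXr)
    have hJW := addU (mulU ho1 (addU hXXu (mulU hX2 (mulU hC.hc.2 hs3 (Real.sqrt_nonneg _))
      (by (clear * - hc hν hΓ0 hR30; positivity)))) (by (clear * - hX0 hc hν hΓ0 hR30; positivity))) hc3'
    -- the two parts
    have e0 : LI0 μ q g c ν h τ Γ = √(q * (1 + c ^ (2 : ℕ) / μ ^ (2 : ℕ)) / (2 * R)) *
        Real.exp (-(Γ * (Zr * x ^ (2 : ℕ) - g / 2 * τ ^ (2 : ℕ)))) := by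
      unfold LI0 LQi
      rw [← ht1, ← hA, ← hR, ← hZr, ← hxr]
    have e3 : LJ0 μ q g c ν h τ Γ = √(q * (1 + c ^ (2 : ℕ) / μ ^ (2 : ℕ)) / (2 * R3)) / 2 *
        Real.exp (-(Γ * (Zr3 * x ^ (2 : ℕ) - g / 2 * τ ^ (2 : ℕ)))) := by
      unfold LJ0 LQi
      rw [← ht3, ← hA3, ← hR3, ← hZr3, ← hxr]
    have eW : LIW μ c ν h τ Γ = (U * (ν * (11 / 25) / R) ^ (2 : ℕ) + F1 * (A * c / R) ^ (2 : ℕ)) * x ^ (2 : ℕ) + 0 * x +
        (U * c ^ (2 : ℕ) + F1) * (ν / (Γ * R)) / 2 := by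
      unfold LIW LQi
      rw [← ht1, ← hA, ← hR, ← hxr, ← hF1, ← hU]
      ring
    have eJ : LJW μ c ν h τ Γ = O * x ^ (2 : ℕ) + (O * 2 * (c * √(ν / (Γ * R3) * (1 / Real.pi)))) * x +
        (O * c ^ (2 : ℕ) + E1) * (ν / (Γ * R3)) / 2 := by
      unfold LJW LQi
      rw [← ht3, ← hA3, ← hR3, ← hxr, ← hE1, ← hO]
      ring
    have b0 := img_bound (E := g / 2 * τ ^ (2 : ℕ)) (w2 := 0) (w1 := 0) (w0 := 1) hX0 hXx hΓy le_rfl le_rfl zero_le_one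
    have b3 := img_bound (E := g / 2 * τ ^ (2 : ℕ)) (w2 := 0) (w1 := 0) (w0 := 1) hX0 hXx hΓy3 le_rfl le_rfl zero_le_one
    have bW := img_bound (E := g / 2 * τ ^ (2 : ℕ)) (w2 := U * (ν * (11 / 25) / R) ^ (2 : ℕ) + F1 * (A * c / R) ^ (2 : ℕ))
      (w1 := 0) (w0 := (U * c ^ (2 : ℕ) + F1) * (ν / (Γ * R)) / 2) hX0 hXx hΓy (by (clear * - hU0 hν hR0 hF10 hA0 hc; positivity)) le_rfl
      (by (clear * - hU0 hc hF10 hν hΓ0 hR0; positivity))
    have bJ := img_bound (E := g / 2 * τ ^ (2 : ℕ)) (w2 := O)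
      (w1 := O * 2 * (c * √(ν / (Γ * R3) * (1 / Real.pi))))
      (w0 := (O * c ^ (2 : ℕ) + E1) * (ν / (Γ * R3)) / 2) hX0 hXx hΓy3 hO0 (by (clear * - hO0 hc hν hΓ0 hR30; positivity))
      (by (clear * - hO0 hc hE10 hν hΓ0 hR30; positivity))
    simp only [zero_mul, zero_add, one_mul] at b0 b3
    have s0 : 0 ≤ √(q * (1 + c ^ (2 : ℕ) / μ ^ (2 : ℕ)) / (2 * R)) := Real.sqrt_nonneg _
    have s3 : 0 ≤ √(q * (1 + c ^ (2 : ℕ) / μ ^ (2 : ℕ)) / (2 * R3)) / 2 := by (clear * -; positivity)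
    have c0 := mulU hS hE (Real.exp_pos _).le
    have c3 := mulU hS3 hE3 (Real.exp_pos _).le
    refine ⟨?_, ?_, ?_⟩
    · rw [← ha0, e0, e3]
      exact addU ((mul_le_mul_of_nonneg_left b0 s0).trans c0) ((mul_le_mul_of_nonneg_left b3 s3).trans c3)
    · rw [← ha1, e0, e3]
      refine addU ?_ ?_
      · rw [eW]
        have k1 := mulU c0 hIW (by (clear * - hX0 hU0 hν hR0 hF10 hA0 hc hΓ0; positivity))
        refine le_trans ?_ k1
        have k2 := mul_le_mul_of_nonneg_left bW s0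
        refine le_trans (le_of_eq ?_) (k2.trans (le_of_eq ?_)) <;> ring
      · rw [eJ]
        have k1 := mulU c3 hJW (by (clear * - hO0 hX0 hc hν hΓ0 hR30 hE10; positivity))
        refine le_trans ?_ k1
        have k2 := mul_le_mul_of_nonneg_left bJ s3
        refine le_trans (le_of_eq ?_) (k2.trans (le_of_eq ?_)) <;> ring
    · rw [← ha2, ← hE1, ← hF1, e0, e3]
      have j0 : 0 ≤ √(q * (1 + c ^ (2 : ℕ) / μ ^ (2 : ℕ)) / (2 * R)) *
        Real.exp (-(Γ * (Zr * x ^ (2 : ℕ) - g / 2 * τ ^ (2 : ℕ)))) := by (clear * -; positivity)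
      have j3 : 0 ≤ √(q * (1 + c ^ (2 : ℕ) / μ ^ (2 : ℕ)) / (2 * R3)) / 2 *
        Real.exp (-(Γ * (Zr3 * x ^ (2 : ℕ) - g / 2 * τ ^ (2 : ℕ)))) := by (clear * -; positivity)
      exact addU (mulU hff1 ((mul_le_mul_of_nonneg_left b0 s0).trans c0) j0)
        (mulU hee1 ((mul_le_mul_of_nonneg_left b3 s3).trans c3) j3)

end SokamCel

end

/-! ### Lib_MP_af4de1_v3.CelRI -/

section
namespace SokamFN
end SokamFN
/-!
# Cells, right side: the image (it arrives from the left side), `t' = 2π - t`, `x = t'/h`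

Main half: full Gaussian with `A = La c²/ν`, `B = 11/25 e^(-min 1 T')`.  Half behind: no slope.
`RI0`, `RJ0` : level factor times the two integrals; `RI0 RIW`, `RJ0 RJW` : the weighted ones over `(h c)²`.
`xiR` : upper bounds of `RI0 + RJ0` and `RI0 RIW + RJ0 RJW`.
-/

set_option autoImplicit false

namespace SokamCel

open SokamFN

/-- `B` of the image, `11/25 e^(-min 1 T')` -/
noncomputable def RBi (μ c h τ : ℝ) : ℝ := 11 / 25 * Real.exp (-(min 1 (Ltp h τ * c / μ)))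

/-- `Q` of the image -/
noncomputable def RQi (μ c ν h τ : ℝ) : ℝ :=
  La μ ν (Ltp h τ * c / μ) * c ^ (2 : ℕ) + ν * RBi μ c h τ

/-- image, main half -/
noncomputable def RI0 (μ q g c ν h τ Γ : ℝ) : ℝ :=
  √(q * (1 + c ^ (2 : ℕ) / μ ^ (2 : ℕ)) / (2 * RQi μ c ν h τ)) *
    Real.exp (-(Γ * (1 / (c ^ (2 : ℕ) / RBi μ c h τ + ν / La μ ν (Ltp h τ * c / μ)) * (Ltp h τ / h) ^ (2 : ℕ) -
      g / 2 * τ ^ (2 : ℕ))))

/-- image, main half, mean of `W R/h²` -/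
noncomputable def RIW (μ c ν h τ Γ : ℝ) : ℝ :=
  (Ltp h τ / h) ^ (2 : ℕ) * ((ν * RBi μ c h τ / RQi μ c ν h τ) ^ (2 : ℕ) / μ ^ (2 : ℕ) +
    (La μ ν (Ltp h τ * c / μ) * c / RQi μ c ν h τ) ^ (2 : ℕ)) +
  (1 + c ^ (2 : ℕ) / μ ^ (2 : ℕ)) * (ν / (Γ * RQi μ c ν h τ)) / 2

/-- `Q` of the half behind -/
noncomputable def RQj (μ c ν h τ : ℝ) : ℝ :=
  La μ ν (LT3 μ c h τ) * c ^ (2 : ℕ) + ν * (11 / 25 * Real.exp (-(LT3 μ c h τ)))

/-- image, half behind -/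
noncomputable def RJ0 (μ q g c ν h τ Γ : ℝ) : ℝ :=
  √(q * (1 + c ^ (2 : ℕ) / μ ^ (2 : ℕ)) / (2 * RQj μ c ν h τ)) / 2 *
    Real.exp (-(Γ * (La μ ν (LT3 μ c h τ) / ν * (Ltp h τ / h) ^ (2 : ℕ) - g / 2 * τ ^ (2 : ℕ))))

/-- image, half behind, mean of `W R/h²` -/
noncomputable def RJW (μ c ν h τ Γ : ℝ) : ℝ :=
  (Ltp h τ / h) ^ (2 : ℕ) / μ ^ (2 : ℕ) + 2 * (Ltp h τ / h) *
    (c / μ ^ (2 : ℕ) * √(ν / (Γ * RQj μ c ν h τ) * (1 / Real.pi))) +
  (1 + c ^ (2 : ℕ) / μ ^ (2 : ℕ)) * (ν / (Γ * RQj μ c ν h τ)) / 2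

/-- the image, right: upper bounds of `I0 + J0`, `I0 W + J0 W` -/
def xiR (P : Par) (C : Cl) (G : ℕ) : Option (ℕ × ℕ) :=
  let tp : I := (6908231557316 - C.t.2, 6908451460481 - C.t.1)
  let T := im (im tp C.c) P.N
  let T3 := im (im (ia tp (ic 6 5)) C.c) P.N
  let a := xa P C.n T
  let a3 := xa P C.n T3
  let B := im (ic 11 25) (ien (imn (SC, SC) T))
  let Q := ia (im a C.c2) (im C.n B)
  let Q3 := ia (im a3 C.c2) (im C.n (im (ic 11 25) (ien T3)))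
  let Y := ia (id' C.c2 B) (id' C.n a)
  let Z := dL SC Y.2
  let Z3 := dL a3.1 C.n.2
  let e2 := mU (mU C.u.2 C.u.2) P.g.2
  let x0 := dL tp.1 C.h.2
  let y := mL Z (mL x0 x0)
  let y3 := mL Z3 (mL x0 x0)
  let N2 := mU P.N.2 P.N.2
  let Vn := SC + mU C.c2.2 N2
  let w := dU C.n.2 (mL G Q.1)
  let w3 := dU C.n.2 (mL G Q3.1)
  bif Nat.blt 0 a.1 && Nat.blt 0 B.1 && Nat.blt 0 Q.1 && Nat.blt 0 Q3.1 && Nat.blt 0 (mL G Q.1) &&
      Nat.blt 0 (mL G Q3.1) && Nat.blt 0 Y.1 && Nat.blt 0 C.n.2 && Nat.blt 0 C.h.2 && Nat.blt 0 x0 &&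
      Nat.ble SC (mL G y) && Nat.ble SC (mL G y3) && Nat.ble e2 y && Nat.ble e2 y3 &&
      Nat.ble C.t.2 6908231557316 then
    let I0 := mU (sqU (mU P.q.2 (dU Vn Q.1) / 2 + 1)) (eN (cl (mL G (y - e2))))
    let J0 := mU (sqU (mU P.q.2 (dU Vn Q3.1) / 2 + 1) / 2 + 1) (eN (cl (mL G (y3 - e2))))
    let l := dU (mU C.n.2 B.2) Q.1
    let k := dU (mU a.2 C.c.2) Q.1
    let IW := mU (mU x0 x0) (mU (mU l l) N2 + mU k k) + (mU Vn w / 2 + 1)
    let JW := mU (mU x0 x0) N2 + mU (2 * x0) (mU (mU C.c.2 N2) (sqU (mU w3 350008700000))) +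
      (mU Vn w3 / 2 + 1)
    some (I0 + J0, mU I0 IW + mU J0 JW)
  else none

theorem xiR_sound {P : Par} {μ q g kk c ν h τ Γ : ℝ} (hP : P.Ok μ q g kk) {C : Cl}
    (hC : C.Has μ c ν h τ) {G : ℕ}
    (hG : fx G ≤ Γ) (hc : 0 < c) (hν : 0 < ν) (hh : 0 < h) (hτ : 0 ≤ τ) (hν1 : ν ≤ 1)
    (htp : (1 + τ) * h ≤ Real.pi)
    {a0 a1 : ℕ} (hx : xiR P C G = some (a0, a1)) :
    RI0 μ q g c ν h τ Γ + RJ0 μ q g c ν h τ Γ ≤ fx a0 ∧
    RI0 μ q g c ν h τ Γ * RIW μ c ν h τ Γ + RJ0 μ q g c ν h τ Γ * RJW μ c ν h τ Γ ≤ fx a1 := by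
  have hμ := hP.pos
  have hμ1 := hP.le
  have hpi := Real.pi_pos
  unfold xiR at hx
  simp only at hx
  obtain ⟨tp, htpe⟩ : ∃ tp : I, tp = (6908231557316 - C.t.2, 6908451460481 - C.t.1) := ⟨_, rfl⟩
  rw [show (6908231557316 - C.t.2, 6908451460481 - C.t.1) = tp from htpe.symm] at hx
  rw [show (6908231557316 - C.t.2 : ℕ) = tp.1 by rw [htpe]] at hx
  obtain ⟨T, hTe⟩ : ∃ T, T = im (im tp C.c) P.N := ⟨_, rfl⟩
  obtain ⟨T3, hT3e⟩ : ∃ T3, T3 = im (im (ia tp (ic 6 5)) C.c) P.N := ⟨_, rfl⟩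
  rw [← hTe, ← hT3e] at hx
  obtain ⟨a, hae⟩ : ∃ a, a = xa P C.n T := ⟨_, rfl⟩
  obtain ⟨a3, ha3e⟩ : ∃ a3, a3 = xa P C.n T3 := ⟨_, rfl⟩
  obtain ⟨B, hBe⟩ : ∃ B, B = im (ic 11 25) (ien (imn (SC, SC) T)) := ⟨_, rfl⟩
  rw [← hae, ← ha3e, ← hBe] at hx
  obtain ⟨Q, hQe⟩ : ∃ Q, Q = ia (im a C.c2) (im C.n B) := ⟨_, rfl⟩
  obtain ⟨Q3, hQ3e⟩ : ∃ Q3, Q3 = ia (im a3 C.c2) (im C.n (im (ic 11 25) (ien T3))) := ⟨_, rfl⟩
  obtain ⟨Y, hYe⟩ : ∃ Y, Y = ia (id' C.c2 B) (id' C.n a) := ⟨_, rfl⟩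
  rw [← hQe, ← hQ3e, ← hYe] at hx
  obtain ⟨Z, hZe⟩ : ∃ Z, Z = dL SC Y.2 := ⟨_, rfl⟩
  obtain ⟨Z3, hZ3e⟩ : ∃ Z3, Z3 = dL a3.1 C.n.2 := ⟨_, rfl⟩
  obtain ⟨e2, he2⟩ : ∃ e2, e2 = mU (mU C.u.2 C.u.2) P.g.2 := ⟨_, rfl⟩
  obtain ⟨x0, hx0e⟩ : ∃ x0, x0 = dL tp.1 C.h.2 := ⟨_, rfl⟩
  rw [← hZe, ← hZ3e, ← he2, ← hx0e] at hx
  obtain ⟨y, hye⟩ : ∃ y, y = mL Z (mL x0 x0) := ⟨_, rfl⟩
  obtain ⟨y3, hy3e⟩ : ∃ y3, y3 = mL Z3 (mL x0 x0) := ⟨_, rfl⟩
  obtain ⟨N2, hN2e⟩ : ∃ N2, N2 = mU P.N.2 P.N.2 := ⟨_, rfl⟩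
  rw [← hye, ← hy3e, ← hN2e] at hx
  obtain ⟨Vn, hVn⟩ : ∃ Vn, Vn = SC + mU C.c2.2 N2 := ⟨_, rfl⟩
  obtain ⟨w, hwe⟩ : ∃ w, w = dU C.n.2 (mL G Q.1) := ⟨_, rfl⟩
  obtain ⟨w3, hw3e⟩ : ∃ w3, w3 = dU C.n.2 (mL G Q3.1) := ⟨_, rfl⟩
  rw [← hVn, ← hwe, ← hw3e] at hx
  cases hbb : (Nat.blt 0 a.1 && Nat.blt 0 B.1 && Nat.blt 0 Q.1 && Nat.blt 0 Q3.1 &&
      Nat.blt 0 (mL G Q.1) && Nat.blt 0 (mL G Q3.1) && Nat.blt 0 Y.1 && Nat.blt 0 C.n.2 &&
      Nat.blt 0 C.h.2 && Nat.blt 0 x0 && Nat.ble SC (mL G y) && Nat.ble SC (mL G y3) &&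
      Nat.ble e2 y && Nat.ble e2 y3 && Nat.ble C.t.2 6908231557316) with
  | false => rw [hbb] at hx; simp at hx
  | true =>
    rw [hbb] at hx
    simp only [cond_true, Option.some.injEq, Prod.mk.injEq] at hx
    obtain ⟨ha0, ha1⟩ := hx
    simp only [Bool.and_eq_true, blt_iff, Nat.ble_eq] at hbb
    obtain ⟨⟨⟨⟨⟨⟨⟨⟨⟨⟨⟨⟨⟨⟨haa, hB0⟩, hQ0⟩, hQ30⟩, hGQ⟩, hGQ3⟩, hY0⟩, hn0⟩, hh0⟩, hx00⟩, hGy⟩, hGy3⟩, hey⟩, hey3⟩,
      htle⟩ := hbb
    -- t'
    have hmtp : Mem (Ltp h τ) tp := by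
      rw [htpe]
      unfold Ltp
      exact ⟨subL two_pi_lo hC.ht.2 htle, subU two_pi_hi hC.ht.1⟩
    have htp0 : 0 < Ltp h τ := by unfold Ltp; linarith only [htp, hpi]
    have hmT : Mem (Ltp h τ * c / μ) T := by
      have k := (hmtp.mul hC.hc).mul hP.hN
      rw [mul_one_div] at k
      rw [hTe]; exact k
    have hmT3 : Mem (LT3 μ c h τ) T3 := by
      have k := ((hmtp.add (Mem.const 6 5 (by norm_num))).mul hC.hc).mul hP.hN
      rw [mul_one_div] at k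
      rw [hT3e]
      unfold LT3
      exact_mod_cast k
    have hT30 : 0 ≤ LT3 μ c h τ := by unfold LT3; (clear * - htp0 hc hμ; positivity)
    obtain ⟨b, hb⟩ : ∃ b, b = RBi μ c h τ := ⟨_, rfl⟩
    have hmB : Mem b B := by
      rw [hb, hBe]
      unfold RBi
      have k := (Mem.const 11 25 (by norm_num)).mul (Mem.one.min hmT).expn
      exact_mod_cast k
    have hb0 : 0 < b := (fx_pos hB0).trans_le hmB.1
    obtain ⟨t1, ht1⟩ : ∃ t1, t1 = Ltp h τ * c / μ := ⟨_, rfl⟩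
    obtain ⟨t3, ht3⟩ : ∃ t3, t3 = LT3 μ c h τ := ⟨_, rfl⟩
    rw [← ht1] at hmT
    rw [← ht3] at hmT3 hT30
    obtain ⟨A, hA⟩ : ∃ A, A = La μ ν t1 := ⟨_, rfl⟩
    obtain ⟨A3, hA3⟩ : ∃ A3, A3 = La μ ν t3 := ⟨_, rfl⟩
    have hmA : Mem A a := by rw [hA, hae]; exact mem_xa hP hC.hn hmT hν1
    have hmA3 : Mem A3 a3 := by rw [hA3, ha3e]; exact mem_xa hP hC.hn hmT3 hν1
    have hmQ : Mem (A * c ^ (2 : ℕ) + ν * b) Q := by
      rw [hQe]; exact (hmA.mul hC.hc2).add (hC.hn.mul hmB)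
    have hmQ3 : Mem (A3 * c ^ (2 : ℕ) + ν * (11 / 25 * Real.exp (-t3))) Q3 := by
      rw [hQ3e]
      have k := (hmA3.mul hC.hc2).add (hC.hn.mul ((Mem.const 11 25 (by norm_num)).mul hmT3.expn))
      exact_mod_cast k
    have hA0 : 0 < A := (fx_pos haa).trans_le hmA.1
    have hA30 : 0 ≤ A3 := hmA3.nonneg
    obtain ⟨R, hR⟩ : ∃ R, R = A * c ^ (2 : ℕ) + ν * b := ⟨_, rfl⟩
    obtain ⟨R3, hR3⟩ : ∃ R3, R3 = A3 * c ^ (2 : ℕ) + ν * (11 / 25 * Real.exp (-t3)) := ⟨_, rfl⟩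
    rw [← hR] at hmQ
    rw [← hR3] at hmQ3
    have hR0 : 0 < R := by rw [hR]; (clear * - hA0 hc hν hb0; positivity)
    have hR30 : 0 < R3 := by rw [hR3]; (clear * - hA30 hc hν; positivity)
    have hmY : Mem (c ^ (2 : ℕ) / b + ν / A) Y := by
      rw [hYe]; exact (hC.hc2.div hmB hB0).add (hC.hn.div hmA haa)
    obtain ⟨Zr, hZr⟩ : ∃ Zr, Zr = 1 / (c ^ (2 : ℕ) / b + ν / A) := ⟨_, rfl⟩
    have hZ1 : fx Z ≤ Zr := by
      rw [hZe, hZr]
      exact divL (le_of_eq fx_one) hmY.2 (by (clear * - hc hb0 hν hA0; positivity))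
    obtain ⟨Zr3, hZr3⟩ : ∃ Zr3, Zr3 = A3 / ν := ⟨_, rfl⟩
    have hZ31 : fx Z3 ≤ Zr3 := by
      rw [hZ3e, hZr3]
      exact divL hmA3.1 hC.hn.2 hν
    have hZr0 : 0 ≤ Zr := (fx_nonneg _).trans hZ1
    have hZr30 : 0 ≤ Zr3 := (fx_nonneg _).trans hZ31
    have hGpos : 0 < G := by
      rcases Nat.eq_zero_or_pos G with h0 | h0
      · rw [h0] at hGQ; simp [mL] at hGQ
      · exact h0
    have hΓ0 : 0 < Γ := (fx_pos hGpos).trans_le hG
    have hE2 : g / 2 * τ ^ (2 : ℕ) ≤ fx e2 := by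
      rw [he2, mul_comm]
      have h1 := mulU hC.hu.2 hC.hu.2 hτ
      have hg0 : 0 ≤ g / 2 := (fx_nonneg _).trans hP.hg.1
      have h2 := mulU h1 hP.hg.2 hg0
      rwa [pow_two]
    -- x
    obtain ⟨x, hxr⟩ : ∃ x, x = Ltp h τ / h := ⟨_, rfl⟩
    obtain ⟨X, hXr⟩ : ∃ X, X = fx x0 := ⟨_, rfl⟩
    have hX0 : 0 < X := by rw [hXr]; exact fx_pos hx00
    have hXx : X ≤ x := by
      rw [hXr, hxr, hx0e]
      exact divL hmtp.1 hC.hh.2 hh
    have hXX : fx (mL x0 x0) ≤ X ^ (2 : ℕ) := by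
      rw [hXr, pow_two]; exact mL_le _ _
    have hXXu : X ^ (2 : ℕ) ≤ fx (mU x0 x0) := by
      rw [hXr, pow_two]; exact le_mU _ _
    have hy1 : fx y ≤ Zr * X ^ (2 : ℕ) := by rw [hye]; exact mulL hZ1 hXX
    have hy31 : fx y3 ≤ Zr3 * X ^ (2 : ℕ) := by rw [hy3e]; exact mulL hZ31 hXX
    have hΓy : 1 ≤ Γ * (Zr * X ^ (2 : ℕ)) := by
      rw [← fx_one]
      exact (fx_mono hGy).trans (mulL hG hy1)
    have hΓy3 : 1 ≤ Γ * (Zr3 * X ^ (2 : ℕ)) := by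
      rw [← fx_one]
      exact (fx_mono hGy3).trans (mulL hG hy31)
    have hE := expCl (mulL hG (subL hy1 hE2 hey))
    have hE3 := expCl (mulL hG (subL hy31 hE2 hey3))
    -- prefactors
    have hN2 : 1 / μ ^ (2 : ℕ) ≤ fx N2 := by
      have k1 := mulU hP.hN.2 hP.hN.2 (by positivity)
      rw [hN2e]
      refine le_trans (le_of_eq ?_) k1
      field_simp
    have hVn1 : 1 + c ^ (2 : ℕ) / μ ^ (2 : ℕ) ≤ fx Vn := by
      rw [hVn]
      refine addU (le_of_eq fx_one.symm) ?_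
      have h2 := mulU hC.hc2.2 hN2 (by positivity)
      refine le_trans (le_of_eq ?_) h2
      field_simp
    have hq0 : 0 ≤ q := hP.hq.nonneg
    have hS : √(q * (1 + c ^ (2 : ℕ) / μ ^ (2 : ℕ)) / (2 * R)) ≤ fx (sqU (mU P.q.2 (dU Vn Q.1) / 2 + 1)) := by
      apply sqrtU
      have k1 := half_up (mulU hP.hq.2 (divU hVn1 hmQ.1 hQ0) (by (clear * - hc hμ hR0; positivity)))
      refine le_trans (le_of_eq ?_) k1
      field_simp
    have hS3 : √(q * (1 + c ^ (2 : ℕ) / μ ^ (2 : ℕ)) / (2 * R3)) / 2 ≤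
        fx (sqU (mU P.q.2 (dU Vn Q3.1) / 2 + 1) / 2 + 1) := by
      apply half_up
      apply sqrtU
      have k1 := half_up (mulU hP.hq.2 (divU hVn1 hmQ3.1 hQ30) (by (clear * - hc hμ hR30; positivity)))
      refine le_trans (le_of_eq ?_) k1
      field_simp
    have hw1 : ν / (Γ * R) ≤ fx w := by
      rw [hwe]
      exact divU hC.hn.2 (mulL hG hmQ.1) hGQ
    have hw31 : ν / (Γ * R3) ≤ fx w3 := by
      rw [hw3e]
      exact divU hC.hn.2 (mulL hG hmQ3.1) hGQ3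
    have hl : ν * b / R ≤ fx (dU (mU C.n.2 B.2) Q.1) :=
      divU (mulU hC.hn.2 hmB.2 hb0.le) hmQ.1 hQ0
    have hk : A * c / R ≤ fx (dU (mU a.2 C.c.2) Q.1) := divU (mulU hmA.2 hC.hc.2 hc.le) hmQ.1 hQ0
    have hl0 : 0 ≤ ν * b / R := by (clear * - hν hb0 hR0; positivity)
    have hk0 : 0 ≤ A * c / R := by (clear * - hA0 hc hR0; positivity)
    have hw0 : 0 ≤ ν / (Γ * R) := by (clear * - hν hΓ0 hR0; positivity)
    have hw30 : 0 ≤ ν / (Γ * R3) := by (clear * - hν hΓ0 hR30; positivity)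
    -- weights at `X`
    have hW : (ν * b / R) ^ (2 : ℕ) / μ ^ (2 : ℕ) + (A * c / R) ^ (2 : ℕ) ≤
        fx (mU (mU (dU (mU C.n.2 B.2) Q.1) (dU (mU C.n.2 B.2) Q.1)) N2 +
          mU (dU (mU a.2 C.c.2) Q.1) (dU (mU a.2 C.c.2) Q.1)) := by
      refine addU ?_ ?_
      · have k1 := mulU (mulU hl hl hl0) hN2 (by positivity)
        refine le_trans (le_of_eq ?_) k1
        ring
      · rw [pow_two]
        exact mulU hk hk hk0
    have hc0' : (1 + c ^ (2 : ℕ) / μ ^ (2 : ℕ)) * (ν / (Γ * R)) / 2 ≤ fx (mU Vn w / 2 + 1) :=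
      half_up (mulU hVn1 hw1 hw0)
    have hc3' : (1 + c ^ (2 : ℕ) / μ ^ (2 : ℕ)) * (ν / (Γ * R3)) / 2 ≤ fx (mU Vn w3 / 2 + 1) :=
      half_up (mulU hVn1 hw31 hw30)
    have hIW := addU (mulU hXXu hW (by (clear * - hν hb0 hR0 hμ hA0 hc; positivity))) hc0'
    have hs3 : √(ν / (Γ * R3) * (1 / Real.pi)) ≤ fx (sqU (mU w3 350008700000)) :=
      sqrtU (mulU hw31 inv_pi_le (by positivity))
    have hX2 : 2 * X ≤ fx (2 * x0) := two_up (le_of_eq hXr)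
    have hJW := addU (addU (mulU hXXu hN2 (by positivity)) (mulU hX2 (mulU (mulU hC.hc.2 hN2
      (by positivity)) hs3 (Real.sqrt_nonneg _)) (by (clear * - hc hμ hν hΓ0 hR30; positivity)))) hc3'
    -- the two parts
    have e0 : RI0 μ q g c ν h τ Γ = √(q * (1 + c ^ (2 : ℕ) / μ ^ (2 : ℕ)) / (2 * R)) *
        Real.exp (-(Γ * (Zr * x ^ (2 : ℕ) - g / 2 * τ ^ (2 : ℕ)))) := by
      unfold RI0 RQi
      rw [← ht1, ← hb, ← hA, ← hR, ← hZr, ← hxr]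
    have e3 : RJ0 μ q g c ν h τ Γ = √(q * (1 + c ^ (2 : ℕ) / μ ^ (2 : ℕ)) / (2 * R3)) / 2 *
        Real.exp (-(Γ * (Zr3 * x ^ (2 : ℕ) - g / 2 * τ ^ (2 : ℕ)))) := by
      unfold RJ0 RQj
      rw [← ht3, ← hA3, ← hR3, ← hZr3, ← hxr]
    have eW : RIW μ c ν h τ Γ = ((ν * b / R) ^ (2 : ℕ) / μ ^ (2 : ℕ) + (A * c / R) ^ (2 : ℕ)) * x ^ (2 : ℕ) + 0 * x +
        (1 + c ^ (2 : ℕ) / μ ^ (2 : ℕ)) * (ν / (Γ * R)) / 2 := by
      unfold RIW RQi
      rw [← ht1, ← hb, ← hA, ← hR, ← hxr]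
      ring
    have eJ : RJW μ c ν h τ Γ = 1 / μ ^ (2 : ℕ) * x ^ (2 : ℕ) +
        (2 * (c * (1 / μ ^ (2 : ℕ)) * √(ν / (Γ * R3) * (1 / Real.pi)))) * x +
        (1 + c ^ (2 : ℕ) / μ ^ (2 : ℕ)) * (ν / (Γ * R3)) / 2 := by
      unfold RJW RQj
      rw [← ht3, ← hA3, ← hR3, ← hxr]
      ring
    have b0 := img_bound (E := g / 2 * τ ^ (2 : ℕ)) (w2 := 0) (w1 := 0) (w0 := 1) hX0 hXx hΓy le_rfl le_rfl
      zero_le_one
    have b3 := img_bound (E := g / 2 * τ ^ (2 : ℕ)) (w2 := 0) (w1 := 0) (w0 := 1) hX0 hXx hΓy3 le_rfl le_rfl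
      zero_le_one
    have bW := img_bound (E := g / 2 * τ ^ (2 : ℕ)) (w2 := (ν * b / R) ^ (2 : ℕ) / μ ^ (2 : ℕ) + (A * c / R) ^ (2 : ℕ))
      (w1 := 0) (w0 := (1 + c ^ (2 : ℕ) / μ ^ (2 : ℕ)) * (ν / (Γ * R)) / 2) hX0 hXx hΓy (by (clear * - hν hb0 hR0 hμ hA0 hc; positivity)) le_rfl
      (by (clear * - hc hμ hν hΓ0 hR0; positivity))
    have bJ := img_bound (E := g / 2 * τ ^ (2 : ℕ)) (w2 := 1 / μ ^ (2 : ℕ))
      (w1 := 2 * (c * (1 / μ ^ (2 : ℕ)) * √(ν / (Γ * R3) * (1 / Real.pi))))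
      (w0 := (1 + c ^ (2 : ℕ) / μ ^ (2 : ℕ)) * (ν / (Γ * R3)) / 2) hX0 hXx hΓy3 (by positivity) (by (clear * - hc hμ hν hΓ0 hR30; positivity))
      (by (clear * - hc hμ hν hΓ0 hR30; positivity))
    simp only [zero_mul, zero_add, one_mul] at b0 b3
    have s0 : 0 ≤ √(q * (1 + c ^ (2 : ℕ) / μ ^ (2 : ℕ)) / (2 * R)) := Real.sqrt_nonneg _
    have s3 : 0 ≤ √(q * (1 + c ^ (2 : ℕ) / μ ^ (2 : ℕ)) / (2 * R3)) / 2 := by (clear * -; positivity)
    have c0 := mulU hS hE (Real.exp_pos _).le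
    have c3 := mulU hS3 hE3 (Real.exp_pos _).le
    refine ⟨?_, ?_⟩
    · rw [← ha0, e0, e3]
      exact addU ((mul_le_mul_of_nonneg_left b0 s0).trans c0) ((mul_le_mul_of_nonneg_left b3 s3).trans c3)
    · rw [← ha1, e0, e3]
      refine addU ?_ ?_
      · rw [eW]
        have k1 := mulU c0 hIW (by (clear * - hX0 hν hb0 hR0 hμ hA0 hc hΓ0; positivity))
        refine le_trans ?_ k1
        have k2 := mul_le_mul_of_nonneg_left bW s0
        refine le_trans (le_of_eq ?_) (k2.trans (le_of_eq ?_)) <;> ring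
      · rw [eJ]
        have k1 := mulU c3 hJW (by (clear * - hX0 hμ hc hν hΓ0 hR30; positivity))
        refine le_trans ?_ k1
        have k2 := mul_le_mul_of_nonneg_left bJ s3
        refine le_trans (le_of_eq ?_) (k2.trans (le_of_eq ?_)) <;> ring

end SokamCel

end

/-! ### Lib_MP_af4de1_v3.CelRB -/

section
namespace SokamFN
end SokamFN
/-!
# Cells, right side: behind in scaled variables

`s = t + z`, `0 ≤ z ≤ 6/5`: `x = t/m`, `T = min 1 x`, `T' = min 1 ((t + 6/5)/m)`, `AR m ρ t = Ra c²/ν`,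
slope `b = r AR t`, curvature `B = r (11/25) e^T`, `h0 b B = √(π/B)/2 min 1 (1 - X/√π + X²/4)`, `X = b/√B`.
`P I0 = RBK φ`, `P IW R/h² = RBK W`, `P Ie/Γ = e^(T') RBK φ/Γ`, `P` the level factor.
-/

set_option autoImplicit false

namespace SokamCel

open SokamFN

/-- `t/m` -/
noncomputable def Rx (μ c h τ : ℝ) : ℝ := (1 + τ) * h * c / μ

/-- curvature `(11/25) e^T` -/
noncomputable def Rβ (μ c h τ : ℝ) : ℝ := 11 / 25 * Real.exp (min 1 (Rx μ c h τ))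

/-- base of the half Gaussian behind -/
noncomputable def RBK (μ q g c ν h τ Γ : ℝ) : ℝ :=
  √(q * (1 + c ^ (2 : ℕ) / μ ^ (2 : ℕ)) / (2 * (ν * Rβ μ c h τ))) / 2 *
    Real.exp (-(Γ * ((1 + τ) ^ (2 : ℕ) * (Ra μ ν (Rx μ c h τ) / ν) - g / 2 * τ ^ (2 : ℕ))))

/-- slope over the square root of the curvature -/
noncomputable def RbX (μ c ν h τ Γ : ℝ) : ℝ :=
  √Γ * ((1 + τ) * (Ra μ ν (Rx μ c h τ) * c)) / (ν * √(Rβ μ c h τ))

/-- the factor of `h0` -/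
noncomputable def Rφ (X : ℝ) : ℝ := min 1 (1 - X * √(1 / Real.pi) + X ^ (2 : ℕ) / 4)

/-- `(t + 6/5)/m` -/
noncomputable def Ry (μ c h τ : ℝ) : ℝ := ((1 + τ) * h + 6 / 5) * c / μ

/-- `W` without the `φ` part -/
noncomputable def RBR (μ c h τ Γ : ℝ) : ℝ :=
  Re1 (Ry μ c h τ) ^ (2 : ℕ) / μ ^ (2 : ℕ) * (2 * (1 + τ) * (c * √(1 / (Γ * Rβ μ c h τ) * (1 / Real.pi))) +
    c ^ (2 : ℕ) * (1 / (Γ * Rβ μ c h τ)) / 2) + Real.exp (min 1 (Ry μ c h τ)) * (1 / (Γ * Rβ μ c h τ)) / 2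

/-- behind, right: `P I0` -/
noncomputable def RB0 (μ q g c ν h τ Γ : ℝ) : ℝ := RBK μ q g c ν h τ Γ * Rφ (RbX μ c ν h τ Γ)

/-- behind, right: `P IW R/h²` -/
noncomputable def RBW (μ q g c ν h τ Γ : ℝ) : ℝ :=
  Re1 (Ry μ c h τ) ^ (2 : ℕ) / μ ^ (2 : ℕ) * (1 + τ) ^ (2 : ℕ) * RB0 μ q g c ν h τ Γ +
    RBK μ q g c ν h τ Γ * RBR μ c h τ Γ

/-- behind, right: `P Ie/Γ` -/
noncomputable def RBE (μ q g c ν h τ Γ : ℝ) : ℝ :=
  Real.exp (min 1 (Ry μ c h τ)) * RB0 μ q g c ν h τ Γ * (1 / Γ)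

/-! ### real lemmas -/

theorem Re1_nonneg' {T : ℝ} (h : 0 < T) : 0 ≤ Re1 T := by
  unfold Re1
  have h1 : 0 < min 1 T := lt_min one_pos h
  have := Real.add_one_le_exp (min 1 T)
  exact div_nonneg (by linarith only [h1, this]) h1.le

/-- convexity: bound of `φ` from the ends of an interval -/
theorem phi_ends {X a b k : ℝ} (h1 : a ≤ X) (h2 : X ≤ b) :
    1 - X * k + X ^ (2 : ℕ) / 4 ≤ max (1 - a * k + a ^ (2 : ℕ) / 4) (1 - b * k + b ^ (2 : ℕ) / 4) := by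
  rcases le_total (X + a) (4 * k) with h | h
  · refine le_max_of_le_left ?_
    have := mul_nonneg (sub_nonneg.2 h1) (sub_nonneg.2 h)
    nlinarith
  · refine le_max_of_le_right ?_
    have h3 : 4 * k ≤ X + b := by linarith only [h1, h2, h]
    have := mul_nonneg (sub_nonneg.2 h2) (sub_nonneg.2 h3)
    nlinarith

/-- monotonicity in `Γ` -/
theorem phi_mono {G Γ e X k : ℝ} (hG : 0 < G) (hΓ : G ≤ Γ) (he : 1 ≤ G * e) (hXk : X * k ≤ 1) :
    (1 - √(Γ / G) * X * k + (√(Γ / G) * X) ^ (2 : ℕ) / 4) * Real.exp (-(Γ * e)) ≤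
      (1 - X * k + X ^ (2 : ℕ) / 4) * Real.exp (-(G * e)) := by
  have hs0 : 1 ≤ Γ / G := by rwa [le_div_iff₀ hG, one_mul]
  obtain ⟨s, hs⟩ : ∃ s, s = √(Γ / G) := ⟨_, rfl⟩
  have hs1 : 1 ≤ s := by rw [hs]; exact Real.one_le_sqrt.2 hs0
  have hs2 : s ^ (2 : ℕ) = Γ / G := by rw [hs]; exact Real.sq_sqrt (by linarith only [hs0])
  rw [← hs]
  have h1 : 1 - s * X * k + (s * X) ^ (2 : ℕ) / 4 ≤ s ^ (2 : ℕ) * (1 - X * k + X ^ (2 : ℕ) / 4) := by
    have h2 : 0 ≤ (s - 1) * (s * (1 - X * k) + 1) := by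
      refine mul_nonneg (by linarith only [hs1]) ?_
      have := mul_nonneg (by linarith : (0:ℝ) ≤ s) (sub_nonneg.2 hXk)
      linarith only [this]
    nlinarith
  have h3 : s ^ (2 : ℕ) ≤ Real.exp (Γ * e - G * e) := by
    rw [hs2]
    have h4 := Real.add_one_le_exp (Γ / G - 1)
    refine (by linarith : Γ / G ≤ Real.exp (Γ / G - 1)).trans (Real.exp_le_exp.2 ?_)
    have e1 : Γ * e - G * e = (Γ / G - 1) * (G * e) := by field_simp
    rw [e1]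
    nlinarith [mul_nonneg (by linarith : (0:ℝ) ≤ Γ / G - 1) (sub_nonneg.2 he)]
  have h5 : 0 ≤ 1 - X * k + X ^ (2 : ℕ) / 4 := by nlinarith [sq_nonneg X]
  have h6 : Real.exp (-(G * e)) = Real.exp (Γ * e - G * e) * Real.exp (-(Γ * e)) := by
    rw [← Real.exp_add]
    congr 1
    ring
  rw [h6, ← mul_assoc]
  refine mul_le_mul_of_nonneg_right ?_ (Real.exp_pos _).le
  rw [mul_comm (1 - X * k + X ^ (2 : ℕ) / 4)]
  exact h1.trans (mul_le_mul_of_nonneg_right h3 h5)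

/-- monotonicity in `ν` -/
theorem nu_mono {ν d a E : ℝ} (hν : 0 < ν) (hd : ν ≤ d) (h : d ≤ 2 * a) :
    √(1 / ν) * Real.exp (-(a / ν - E)) ≤ √(1 / d) * Real.exp (-(a / d - E)) := by
  have hd0 : 0 < d := hν.trans_le hd
  have h1 := front_mono (Real.sqrt_pos.2 hν) (Real.sqrt_le_sqrt hd) 1 (a := a) (by
    rw [Real.sq_sqrt hd0.le]; push_cast; linarith only [h])
  rw [Real.sq_sqrt hd0.le, Real.sq_sqrt hν.le, pow_one, pow_one] at h1
  have e1 : Real.exp (-(a / ν - E)) = Real.exp (-(a / ν)) * Real.exp E := by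
    rw [← Real.exp_add]; congr 1; ring
  have e2 : Real.exp (-(a / d - E)) = Real.exp (-(a / d)) * Real.exp E := by
    rw [← Real.exp_add]; congr 1; ring
  rw [e1, e2, ← mul_assoc, ← mul_assoc, Real.sqrt_div zero_le_one, Real.sqrt_one,
    Real.sqrt_div zero_le_one, Real.sqrt_one]
  exact mul_le_mul_of_nonneg_right h1 (Real.exp_pos _).le

/-- lower bound of `√(1/π)` -/
theorem sip_ge : fx 620322466595 ≤ √(1 / Real.pi) := by
  refine Real.le_sqrt_of_sq_le ?_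
  rw [le_div_iff₀ Real.pi_pos]
  have h := Real.pi_lt_d4
  have h1 : fx 620322466595 ^ (2 : ℕ) ≤ 3183 / 10000 := by unfold fx; norm_num
  nlinarith [Real.pi_pos]

/-- `X √(1/π) ≤ 1` -/
theorem sip_le {X : ℝ} (h : X ≤ fx 1946135577067) : X * √(1 / Real.pi) ≤ 1 := by
  have h1 : X ≤ 177 / 100 := h.trans (by unfold fx; norm_num)
  have h2 : √(1 / Real.pi) ≤ 100 / 177 := by
    rw [Real.sqrt_le_left (by norm_num), div_le_iff₀ Real.pi_pos]
    have := Real.pi_gt_d4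
    nlinarith
  have h3 : 0 ≤ √(1 / Real.pi) := Real.sqrt_nonneg _
  rcases le_total 0 X with h4 | h4
  · nlinarith
  · nlinarith

/-! ### the evaluator -/

/-- upper bound of `1 - y √(1/π) + y²/4` -/
def xph (y : ℕ) : ℕ := SC + (mU y y / 4 + 1) - mL y 620322466595

theorem xph_le (y : ℕ) : 1 - fx y * √(1 / Real.pi) + fx y ^ (2 : ℕ) / 4 ≤ fx (xph y) := by
  have h1 : fx (mL y 620322466595) ≤ fx y * √(1 / Real.pi) := mulL le_rfl sip_ge
  have h2 : fx y ^ (2 : ℕ) / 4 ≤ fx (mU y y / 4 + 1) := by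
    have k1 := fx_divU (mU y y) 4 (by norm_num)
    have k2 := le_mU y y
    push_cast at k1
    have k3 : fx y ^ (2 : ℕ) = fx y * fx y := by ring
    linarith only [k1, k2]
  have h3 := subU (addU (le_of_eq fx_one.symm) h2) h1
  unfold xph
  linarith only [h3]

/-- the factor of `h0`: `(lo, hi)` is the interval of `X` -/
def xφ (lo hi : ℕ) : ℕ :=
  bif Nat.ble hi 1946135577067 then min SC (max (xph lo) (xph hi)) else SC

/-- behind, right: upper bounds of `RB0`, `RBW`, `RBE` -/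
def xbr (P : Par) (C : Cl) (G : ℕ) : Option (ℕ × ℕ × ℕ) :=
  let T := imn (SC, SC) C.T
  let T2 := imn (SC, SC) (im (im (ia C.t (ic 6 5)) C.c) P.N)
  let A := xaR P C.n C.T
  let B := im (ic 11 25) (iep T)
  let e2 := mU (mU C.u.2 C.u.2) P.g.2
  let a0 := mL (mL C.t1.1 C.t1.1) A.1
  let x0 := dL a0 C.n.2
  let Vn := SC + mU C.c2.2 (mU P.N.2 P.N.2)
  let w := dU SC (mL G B.1)
  let U := dU SC (eNL T2.2)
  let d := mL C.n.1 (sqL B.1)
  bif Nat.blt 0 (eNL T.2) && Nat.blt 0 (mL C.n.2 B.1) && Nat.blt 0 (mL G B.1) &&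
      Nat.blt 0 (eNL T2.2) && Nat.ble e2 x0 && Nat.ble C.n.2 (2 * mL G a0) &&
      Nat.ble SC (mL G (x0 - e2)) then
    let K := mU (sqU (mU P.q.2 (dU Vn (mL C.n.2 B.1)) / 2 + 1) / 2 + 1) (eN (mL G (x0 - e2)))
    let φ := bif Nat.blt 0 d then
        xφ (dL (mL (sqL G) (mL C.t1.1 (mL A.1 C.c.1))) (mU C.n.2 (sqU B.2)))
          (dU (mU (sqU G) (mU C.t1.2 (mU A.2 C.c.2))) d)
      else SC
    let F := mU K φ
    let E1 := e1U T2.2
    let E2 := mU (mU E1 E1) (mU P.N.2 P.N.2)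
    let R := mU E2 (2 * mU C.t1.2 (mU C.c.2 (sqU (mU w 350008700000))) + (mU C.c2.2 w / 2 + 1)) +
      (mU U w / 2 + 1)
    some (F, mU (mU E2 (mU C.t1.2 C.t1.2)) F + mU K R, mU (mU U F) (dU SC G))
  else none

theorem xbr_sound {P : Par} {μ q g kk c ν h τ Γ : ℝ} (hP : P.Ok μ q g kk) {C : Cl}
    (hC : C.Has μ c ν h τ) {G : ℕ}
    (hG : fx G ≤ Γ) (hc : 0 < c) (hν : 0 < ν) (hh : 0 < h) (hτ : 0 ≤ τ) (hν1 : ν ≤ 1)
    {a a' a'' : ℕ} (hx : xbr P C G = some (a, a', a'')) :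
    RB0 μ q g c ν h τ Γ ≤ fx a ∧ RBW μ q g c ν h τ Γ ≤ fx a' ∧ RBE μ q g c ν h τ Γ ≤ fx a'' := by
  have hμ := hP.pos
  have hμ1 := hP.le
  unfold xbr at hx
  simp only at hx
  obtain ⟨T, hTe⟩ : ∃ T, T = imn (SC, SC) C.T := ⟨_, rfl⟩
  obtain ⟨T2, hT2e⟩ : ∃ T2, T2 = imn (SC, SC) (im (im (ia C.t (ic 6 5)) C.c) P.N) := ⟨_, rfl⟩
  obtain ⟨A, hAe⟩ : ∃ A, A = xaR P C.n C.T := ⟨_, rfl⟩
  rw [← hTe, ← hT2e, ← hAe] at hx
  obtain ⟨B, hBe⟩ : ∃ B, B = im (ic 11 25) (iep T) := ⟨_, rfl⟩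
  obtain ⟨e2, he2⟩ : ∃ e2, e2 = mU (mU C.u.2 C.u.2) P.g.2 := ⟨_, rfl⟩
  obtain ⟨a0, ha0⟩ : ∃ a0, a0 = mL (mL C.t1.1 C.t1.1) A.1 := ⟨_, rfl⟩
  obtain ⟨Vn, hVn⟩ : ∃ Vn, Vn = SC + mU C.c2.2 (mU P.N.2 P.N.2) := ⟨_, rfl⟩
  rw [← hBe, ← he2, ← ha0, ← hVn] at hx
  obtain ⟨x0, hx0⟩ : ∃ x0, x0 = dL a0 C.n.2 := ⟨_, rfl⟩
  obtain ⟨w, hw⟩ : ∃ w, w = dU SC (mL G B.1) := ⟨_, rfl⟩
  obtain ⟨U, hU⟩ : ∃ U, U = dU SC (eNL T2.2) := ⟨_, rfl⟩
  obtain ⟨d, hd⟩ : ∃ d, d = mL C.n.1 (sqL B.1) := ⟨_, rfl⟩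
  rw [← hx0, ← hw, ← hU, ← hd] at hx
  cases hbb : (Nat.blt 0 (eNL T.2) && Nat.blt 0 (mL C.n.2 B.1) && Nat.blt 0 (mL G B.1) &&
      Nat.blt 0 (eNL T2.2) && Nat.ble e2 x0 && Nat.ble C.n.2 (2 * mL G a0) &&
      Nat.ble SC (mL G (x0 - e2))) with
  | false => rw [hbb] at hx; simp at hx
  | true =>
    rw [hbb] at hx
    simp only [cond_true, Option.some.injEq, Prod.mk.injEq] at hx
    obtain ⟨K, hK⟩ : ∃ K, K = mU (sqU (mU P.q.2 (dU Vn (mL C.n.2 B.1)) / 2 + 1) / 2 + 1)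
        (eN (mL G (x0 - e2))) := ⟨_, rfl⟩
    obtain ⟨φ, hφ⟩ : ∃ φ, φ = (bif Nat.blt 0 d then
        xφ (dL (mL (sqL G) (mL C.t1.1 (mL A.1 C.c.1))) (mU C.n.2 (sqU B.2)))
          (dU (mU (sqU G) (mU C.t1.2 (mU A.2 C.c.2))) d)
      else SC) := ⟨_, rfl⟩
    obtain ⟨E1, hE1⟩ : ∃ E1, E1 = e1U T2.2 := ⟨_, rfl⟩
    rw [← hK, ← hφ, ← hE1] at hx
    obtain ⟨E2, hE2'⟩ : ∃ E2, E2 = mU (mU E1 E1) (mU P.N.2 P.N.2) := ⟨_, rfl⟩
    rw [← hE2'] at hx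
    obtain ⟨ha, ha', ha''⟩ := hx
    simp only [Bool.and_eq_true, blt_iff, Nat.ble_eq] at hbb
    obtain ⟨⟨⟨⟨⟨⟨gT, gB⟩, gGB⟩, gT2⟩, ge⟩, gn⟩, gS⟩ := hbb
    -- real quantities
    obtain ⟨x, hxr⟩ : ∃ x, x = Rx μ c h τ := ⟨_, rfl⟩
    have hmx : Mem x C.T := by rw [hxr]; exact hC.hT
    have hx0' : 0 < x := by rw [hxr]; unfold Rx; (clear * - hτ hh hc hμ; positivity)
    have hmT : Mem (min 1 x) T := by rw [hTe]; exact Mem.one.min hmx
    have hmA : Mem (Ra μ ν x) A := by rw [hAe]; exact mem_xaR hP hC.hn hmx hν1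
    obtain ⟨α, hα⟩ : ∃ α, α = Ra μ ν x := ⟨_, rfl⟩
    rw [← hα] at hmA
    have hmB : Mem (11 / 25 * Real.exp (min 1 x)) B := by
      rw [hBe]
      have := (Mem.const 11 25 (by norm_num)).mul (hmT.expp gT)
      exact_mod_cast this
    obtain ⟨β, hβ⟩ : ∃ β, β = 11 / 25 * Real.exp (min 1 x) := ⟨_, rfl⟩
    rw [← hβ] at hmB
    have hβ0 : 0 < β := by rw [hβ]; positivity
    obtain ⟨y, hy⟩ : ∃ y, y = Ry μ c h τ := ⟨_, rfl⟩
    have hy0 : 0 < y := by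
      rw [hy]; unfold Ry
      (clear * - hτ hh hc hμ; positivity)
    have hmT2 : Mem (min 1 y) T2 := by
      have k1 := ((hC.ht.add (Mem.const 6 5 (by norm_num))).mul hC.hc).mul hP.hN
      rw [hT2e, hy]
      refine Mem.one.min ?_
      rw [mul_one_div] at k1
      exact_mod_cast k1
    -- `G`
    have hGpos : 0 < G := by
      rcases Nat.eq_zero_or_pos G with h0 | h0
      · rw [h0] at gGB; simp [mL] at gGB
      · exact h0
    obtain ⟨G', hG'⟩ : ∃ G', G' = fx G := ⟨_, rfl⟩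
    have hG'0 : 0 < G' := by rw [hG']; exact fx_pos hGpos
    have hGΓ : G' ≤ Γ := by rw [hG']; exact hG
    have hΓ0 : 0 < Γ := hG'0.trans_le hGΓ
    -- `D`
    obtain ⟨D, hD⟩ : ∃ D, D = fx C.n.2 := ⟨_, rfl⟩
    have hνD : ν ≤ D := by rw [hD]; exact hC.hn.2
    have hD0 : 0 < D := hν.trans_le hνD
    -- exponent
    have hE2 : g / 2 * τ ^ (2 : ℕ) ≤ fx e2 := by
      rw [he2, mul_comm]
      have h1 := mulU hC.hu.2 hC.hu.2 hτ
      have hg0 : 0 ≤ g / 2 := (fx_nonneg _).trans hP.hg.1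
      have h2 := mulU h1 hP.hg.2 hg0
      rwa [pow_two]
    have hA1 : fx a0 ≤ (1 + τ) ^ (2 : ℕ) * α := by
      rw [ha0, pow_two]
      exact mulL (mulL hC.ht1.1 hC.ht1.1) hmA.1
    have hA0 : 0 ≤ (1 + τ) ^ (2 : ℕ) * α := (fx_nonneg _).trans hA1
    have hα0 : 0 ≤ α := hmA.nonneg
    have hx1 : fx x0 ≤ fx a0 / D := by
      rw [hx0]
      exact divL le_rfl (by rw [hD]) hD0
    have hxe : fx (x0 - e2) ≤ fx a0 / D - g / 2 * τ ^ (2 : ℕ) := subL hx1 hE2 ge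
    obtain ⟨e, hee⟩ : ∃ e, e = (1 + τ) ^ (2 : ℕ) * (α / ν) - g / 2 * τ ^ (2 : ℕ) := ⟨_, rfl⟩
    have hxe2 : fx (x0 - e2) ≤ e := by
      refine hxe.trans ?_
      rw [hee]
      have k1 : fx a0 / D ≤ (1 + τ) ^ (2 : ℕ) * (α / ν) := by
        rw [← mul_div_assoc]
        exact div_le_div₀ hA0 hA1 hν hνD
      linarith only [k1]
    have he0 : 0 ≤ e := (fx_nonneg _).trans hxe2
    have hGe : 1 ≤ G' * e := by
      have k1 : fx SC ≤ fx (mL G (x0 - e2)) := fx_mono gS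
      rw [fx_one] at k1
      exact k1.trans (mulL (by rw [hG']) hxe2)
    -- square root
    have hVn1 : 1 + c ^ (2 : ℕ) / μ ^ (2 : ℕ) ≤ fx Vn := by
      rw [hVn]
      refine addU (le_of_eq fx_one.symm) ?_
      have h2 := mulU hC.hc2.2 (mulU hP.hN.2 hP.hN.2 (by (clear * - hμ; positivity))) (by positivity)
      refine le_trans (le_of_eq ?_) h2
      field_simp
    have hq0 : 0 ≤ q := hP.hq.nonneg
    have hV0 : 0 ≤ 1 + c ^ (2 : ℕ) / μ ^ (2 : ℕ) := by (clear * - hc hμ; positivity)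
    have hS : √(q * (1 + c ^ (2 : ℕ) / μ ^ (2 : ℕ)) / (2 * (D * β))) / 2 ≤
        fx (sqU (mU P.q.2 (dU Vn (mL C.n.2 B.1)) / 2 + 1) / 2 + 1) := by
      apply half_up
      apply sqrtU
      have k0 : fx (mL C.n.2 B.1) ≤ D * β := mulL (by rw [hD]) hmB.1
      have k1 := half_up (mulU hP.hq.2 (divU hVn1 k0 gB) (by (clear * - hc hμ hD0 hβ0; positivity)))
      refine le_trans (le_of_eq ?_) k1
      field_simp
    -- `K` at `G'`
    have hKG : √(q * (1 + c ^ (2 : ℕ) / μ ^ (2 : ℕ)) / (2 * (ν * β))) / 2 * Real.exp (-(G' * e)) ≤ fx K := by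
      have k1 := nu_mono (E := G' * (g / 2 * τ ^ (2 : ℕ))) (a := G' * fx a0) hν hνD (by
        have k2 : fx C.n.2 ≤ fx (2 * mL G a0) := fx_mono gn
        have k3 : fx (2 * mL G a0) = 2 * fx (mL G a0) := by unfold fx; push_cast; ring
        have k4 : fx (mL G a0) ≤ G' * fx a0 := mulL (by rw [hG']) le_rfl
        rw [k3, ← hD] at k2
        linarith only [k2, k4])
      have k5 : Real.exp (-(G' * e)) ≤ Real.exp (-(G' * fx a0 / ν - G' * (g / 2 * τ ^ (2 : ℕ)))) := by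
        refine Real.exp_le_exp.2 ?_
        rw [hee]
        have k6 : G' * fx a0 / ν ≤ G' * ((1 + τ) ^ (2 : ℕ) * (α / ν)) := by
          have : G' * ((1 + τ) ^ (2 : ℕ) * (α / ν)) = G' * ((1 + τ) ^ (2 : ℕ) * α) / ν := by ring
          rw [this]
          gcongr
        linarith only [k6]
      have k7 : Real.exp (-(G' * fx a0 / D - G' * (g / 2 * τ ^ (2 : ℕ)))) ≤ fx (eN (mL G (x0 - e2))) := by
        have k8 : fx (mL G (x0 - e2)) ≤ G' * fx a0 / D - G' * (g / 2 * τ ^ (2 : ℕ)) := by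
          have k9 := mulL (a := G') (b := fx a0 / D - g / 2 * τ ^ (2 : ℕ)) (m := G) (n := x0 - e2)
            (by rw [hG']) hxe
          refine k9.trans (le_of_eq ?_)
          ring
        exact expNegU k8
      have s1 : √(q * (1 + c ^ (2 : ℕ) / μ ^ (2 : ℕ)) / (2 * (ν * β))) =
          √(q * (1 + c ^ (2 : ℕ) / μ ^ (2 : ℕ)) / (2 * β)) * √(1 / ν) := by
        rw [← Real.sqrt_mul (by (clear * - hq0 hc hμ hβ0; positivity))]
        congr 1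
        field_simp
      have s2 : √(q * (1 + c ^ (2 : ℕ) / μ ^ (2 : ℕ)) / (2 * (D * β))) =
          √(q * (1 + c ^ (2 : ℕ) / μ ^ (2 : ℕ)) / (2 * β)) * √(1 / D) := by
        rw [← Real.sqrt_mul (by (clear * - hq0 hc hμ hβ0; positivity))]
        congr 1
        field_simp
      rw [s2] at hS
      have k10 := mulU hS k7 (Real.exp_pos _).le
      rw [hK]
      refine le_trans ?_ k10
      rw [s1]
      have k11 : √(1 / ν) * Real.exp (-(G' * e)) ≤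
          √(1 / D) * Real.exp (-(G' * fx a0 / D - G' * (g / 2 * τ ^ (2 : ℕ)))) :=
        (mul_le_mul_of_nonneg_left k5 (Real.sqrt_nonneg _)).trans k1
      have k12 : 0 ≤ √(q * (1 + c ^ (2 : ℕ) / μ ^ (2 : ℕ)) / (2 * β)) / 2 := by (clear * -; positivity)
      have k13 := mul_le_mul_of_nonneg_left k11 k12
      refine le_trans (le_of_eq ?_) (k13.trans (le_of_eq ?_)) <;> ring
    obtain ⟨Kr, hKr⟩ : ∃ Kr, Kr = √(q * (1 + c ^ (2 : ℕ) / μ ^ (2 : ℕ)) / (2 * (ν * β))) / 2 := ⟨_, rfl⟩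
    have hKr0 : 0 ≤ Kr := by rw [hKr]; (clear * -; positivity)
    rw [← hKr] at hKG
    have hKΓ : Kr * Real.exp (-(Γ * e)) ≤ fx K := by
      refine le_trans (mul_le_mul_of_nonneg_left (Real.exp_le_exp.2 ?_) hKr0) hKG
      have := mul_le_mul_of_nonneg_right hGΓ he0
      linarith only [this]
    have hKΓ0 : 0 ≤ Kr * Real.exp (-(Γ * e)) := mul_nonneg hKr0 (Real.exp_pos _).le
    have hφ0 : 0 ≤ Rφ (RbX μ c ν h τ Γ) := by
      unfold Rφ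
      refine le_min zero_le_one ?_
      have k1 : √(1 / Real.pi) ^ (2 : ℕ) ≤ 1 := by
        rw [Real.sq_sqrt (by positivity), div_le_one Real.pi_pos]
        have := Real.pi_gt_three
        linarith only [this]
      have k2 := sq_nonneg (RbX μ c ν h τ Γ / 2 - √(1 / Real.pi))
      have k3 : (RbX μ c ν h τ Γ / 2 - √(1 / Real.pi)) ^ (2 : ℕ) = RbX μ c ν h τ Γ ^ (2 : ℕ) / 4 -
        RbX μ c ν h τ Γ * √(1 / Real.pi) + √(1 / Real.pi) ^ (2 : ℕ) := by ring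
      linarith only [k1, k2]
    -- the factor of `h0`
    obtain ⟨k, hk⟩ : ∃ k, k = √(1 / Real.pi) := ⟨_, rfl⟩
    have hφ1 : Kr * Real.exp (-(Γ * e)) * Rφ (RbX μ c ν h τ Γ) ≤ fx (mU K φ) := by
      have b1 : Kr * Real.exp (-(Γ * e)) * Rφ (RbX μ c ν h τ Γ) ≤ fx K * fx SC := by
        rw [fx_one]
        have : Rφ (RbX μ c ν h τ Γ) ≤ 1 := min_le_left _ _
        exact mul_le_mul hKΓ this hφ0 (fx_nonneg _)
      rw [hφ]
      cases hb2 : Nat.blt 0 d with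
      | false => exact b1.trans (le_mU _ _)
      | true =>
        rw [blt_iff] at hb2
        obtain ⟨lo, hlo⟩ : ∃ lo, lo = dL (mL (sqL G) (mL C.t1.1 (mL A.1 C.c.1)))
          (mU C.n.2 (sqU B.2)) := ⟨_, rfl⟩
        obtain ⟨hi, hhi⟩ : ∃ hi, hi = dU (mU (sqU G) (mU C.t1.2 (mU A.2 C.c.2))) d := ⟨_, rfl⟩
        rw [cond_true, ← hlo, ← hhi]
        unfold xφ
        cases hb3 : Nat.ble hi 1946135577067 with
        | false => exact b1.trans (le_mU _ _)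
        | true =>
          rw [Nat.ble_eq] at hb3
          rw [cond_true]
          obtain ⟨X, hX⟩ : ∃ X, X = √G' * ((1 + τ) * (α * c)) / (ν * √β) := ⟨_, rfl⟩
          have hXlo : fx lo ≤ X := by
            rw [hX, hlo]
            refine divL (mulL (sqrtL (by rw [hG'])) (mulL hC.ht1.1 (mulL hmA.1 hC.hc.1)))
              (mulU hC.hn.2 (sqrtU hmB.2) (Real.sqrt_nonneg _)) ?_
            have := Real.sqrt_pos.2 hβ0
            (clear * - hν hβ0; positivity)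
          have hXhi : X ≤ fx hi := by
            rw [hX, hhi]
            refine divU (mulU (sqrtU (by rw [hG'])) (mulU hC.ht1.2 (mulU hmA.2 hC.hc.2 hc.le)
              (by (clear * - hα0 hc; positivity))) (by (clear * - hτ hα0 hc; positivity))) ?_ hb2
            rw [hd]
            exact mulL hC.hn.1 (sqrtL hmB.1)
          have hXk : X * k ≤ 1 := by
            rw [hk]
            exact sip_le (hXhi.trans (fx_mono hb3))
          have hRX : RbX μ c ν h τ Γ = √(Γ / G') * X := by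
            unfold RbX Rβ
            rw [← hxr, ← hβ, ← hα, hX]
            have : √Γ = √(Γ / G') * √G' := by
              rw [← Real.sqrt_mul (by (clear * - hΓ0 hG'0; positivity))]
              congr 1
              field_simp
            rw [this]
            ring
          have hp := phi_mono hG'0 hGΓ hGe hXk
          rw [← hRX] at hp
          have hends := phi_ends (k := k) hXlo hXhi
          have hlo' := xph_le lo
          have hhi' := xph_le hi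
          rw [← hk] at hlo' hhi'
          have hmax : 1 - X * k + X ^ (2 : ℕ) / 4 ≤ fx (max (xph lo) (xph hi)) :=
            hends.trans (maxU hlo' hhi')
          have hF : Rφ (RbX μ c ν h τ Γ) ≤ 1 - RbX μ c ν h τ Γ * k + RbX μ c ν h τ Γ ^ (2 : ℕ) / 4 := by
            rw [hk]
            exact min_le_right _ _
          have b2 : Kr * Real.exp (-(Γ * e)) * Rφ (RbX μ c ν h τ Γ) ≤
              fx K * fx (max (xph lo) (xph hi)) := by
            have c1 : Rφ (RbX μ c ν h τ Γ) * Real.exp (-(Γ * e)) ≤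
                (1 - X * k + X ^ (2 : ℕ) / 4) * Real.exp (-(G' * e)) :=
              (mul_le_mul_of_nonneg_right hF (Real.exp_pos _).le).trans hp
            have c2 : (1 - X * k + X ^ (2 : ℕ) / 4) * Real.exp (-(G' * e)) ≤
                fx (max (xph lo) (xph hi)) * Real.exp (-(G' * e)) :=
              mul_le_mul_of_nonneg_right hmax (Real.exp_pos _).le
            have c3 := mul_le_mul_of_nonneg_left (c1.trans c2) hKr0
            have c4 := mul_le_mul_of_nonneg_right hKG (fx_nonneg (max (xph lo) (xph hi)))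
            have e1 : Kr * Real.exp (-(Γ * e)) * Rφ (RbX μ c ν h τ Γ) =
              Kr * (Rφ (RbX μ c ν h τ Γ) * Real.exp (-(Γ * e))) := by ring
            have e2 : Kr * (fx (max (xph lo) (xph hi)) * Real.exp (-(G' * e))) =
              Kr * Real.exp (-(G' * e)) * fx (max (xph lo) (xph hi)) := by ring
            rw [e1]
            rw [e2] at c3
            exact c3.trans c4
          rcases le_total SC (max (xph lo) (xph hi)) with h5 | h5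
          · rw [min_eq_left h5]
            exact b1.trans (le_mU _ _)
          · rw [min_eq_right h5]
            exact b2.trans (le_mU _ _)
    have hRBK : RBK μ q g c ν h τ Γ = Kr * Real.exp (-(Γ * e)) := by
      unfold RBK Rβ
      rw [← hxr, ← hβ, ← hα, hKr, hee]
    have hF0 : RB0 μ q g c ν h τ Γ ≤ fx (mU K φ) := by
      unfold RB0
      rw [hRBK]
      exact hφ1
    -- the weights
    have hU1 : Real.exp (min 1 y) ≤ fx U := by rw [hU]; exact expUp hmT2.2 gT2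
    have hRe : Re1 y ≤ fx E1 := by rw [hE1]; exact e1U_ge hy0 hmT2.2
    have hRe0 : 0 ≤ Re1 y := Re1_nonneg' hy0
    have hN2 : 1 / μ ^ (2 : ℕ) ≤ fx (mU P.N.2 P.N.2) := by
      have k1 := mulU hP.hN.2 hP.hN.2 (by positivity)
      refine le_trans (le_of_eq ?_) k1
      field_simp
    have hE : Re1 y ^ (2 : ℕ) / μ ^ (2 : ℕ) ≤ fx E2 := by
      rw [hE2']
      have k1 := mulU (mulU hRe hRe hRe0) hN2 (by positivity)
      refine le_trans (le_of_eq ?_) k1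
      ring
    have hw1 : 1 / (Γ * β) ≤ fx w := by
      rw [hw]
      exact divU (le_of_eq fx_one.symm) (mulL hG hmB.1) gGB
    have hR : RBR μ c h τ Γ ≤ fx (mU E2 (2 * mU C.t1.2 (mU C.c.2 (sqU (mU w 350008700000))) +
        (mU C.c2.2 w / 2 + 1)) + (mU U w / 2 + 1)) := by
      unfold RBR Rβ
      rw [← hxr, ← hβ, ← hy]
      refine addU (mulU hE (addU ?_ ?_) (by (clear * - hτ hc hΓ0 hβ0; positivity))) ?_
      · have k1 := mulU hC.ht1.2 (mulU hC.hc.2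
          (sqrtU (mulU hw1 inv_pi_le (by positivity))) (Real.sqrt_nonneg _)) (by (clear * - hc hΓ0 hβ0; positivity))
        have k2 := two_up k1
        refine le_trans (le_of_eq ?_) k2
        ring
      · exact half_up (mulU hC.hc2.2 hw1 (by (clear * - hΓ0 hβ0; positivity)))
      · exact half_up (mulU hU1 hw1 (by (clear * - hΓ0 hβ0; positivity)))
    have hR0 : 0 ≤ RBR μ c h τ Γ := by
      unfold RBR Rβ
      rw [← hxr, ← hβ, ← hy]
      (clear * - hμ hτ hc hΓ0 hβ0; positivity)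
    have hRB0 : 0 ≤ RB0 μ q g c ν h τ Γ := by
      unfold RB0
      rw [hRBK]
      exact mul_nonneg hKΓ0 hφ0
    refine ⟨?_, ?_, ?_⟩
    · rw [← ha]
      exact hF0
    · rw [← ha']
      unfold RBW
      rw [← hy]
      refine addU (mulU (mulU hE ?_ (by (clear * - hτ; positivity))) hF0 hRB0) ?_
      · rw [pow_two]; exact mulU hC.ht1.2 hC.ht1.2 (by (clear * - hτ; positivity))
      · rw [hRBK]
        exact mulU hKΓ hR hR0
    · rw [← ha'']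
      unfold RBE
      rw [← hy]
      exact mulU (mulU hU1 hF0 hRB0) (divU (le_of_eq fx_one.symm) hG hGpos) (by (clear * - hΓ0; positivity))

end SokamCel

end

/-! ### Lib_MP_af4de1_v3.CelRM2 -/

section
namespace SokamFN
end SokamFN
/-!
# Cells, right side: evaluator of the main part
-/

set_option autoImplicit false

namespace SokamCel

open SokamFN

/-- data of the main part of a cell (right side) -/
structure RD where
  T1 : I
  a : I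
  Q : I
  X : ℕ
  Pf : ℕ
  eT : ℕ
  es2 : ℕ
  m1 : ℕ
  a2 : ℕ
  w0 : ℕ
  gs : ℕ
  oo : ℕ
  cr : ℕ
  Yv : ℕ
  N2 : ℕ
  t2 : ℕ

/-- the numbers -/
def mkR (P : Par) (C : Cl) (B : I) (G : ℕ) : RD :=
  let T1 := imn (SC, SC) C.T
  let a := xaR P C.n C.T
  let Q := ia (im a C.c2) (im C.n B)
  let Y := ia (id' C.c2 B) (id' C.n a)
  let e1 := mL (mL C.t1.1 C.t1.1) (dL SC Y.2)
  let e2 := mU (mU C.u.2 C.u.2) P.g.2
  let X := eN (mL G (e1 - e2))
  let V := mU (SC + mU C.c2.2 (mU P.N.2 P.N.2)) (dU SC Q.1)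
  let eT := dU SC (eNL T1.2)
  let es := e1U T1.2
  let es2 := mU es es
  let l := dU (mU C.n.2 B.2) Q.1
  let o := dU (mU a.2 C.c.2) Q.1
  let gs := mU (mU C.n.2 (dU SC Q.1)) (dU SC G) / 2 + 1
  let N2 := mU P.N.2 P.N.2
  let t2 := mU C.t1.2 C.t1.2
  let kt := mU P.k.2 C.u.2
  let oo := mU C.t1.2 o
  let cr := mU (2 * oo) (sqU (dU (mU C.n.2 (dU SC Q.1)) (mL piL G)))
  let Xh := X / 2 + 1
  let pQ := mL (mL piL C.n.1) Q.1
  { T1 := T1, a := a, Q := Q, X := X, Pf := sqU (mU P.q.2 V / 2 + 1), eT := eT, es2 := es2,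
    m1 := mU (mU t2 (mU l l)) N2 + mU (mU C.c2.2 gs) N2,
    a2 := mU eT (SC + mU kt (mU C.h.2 C.c.2)), w0 := mU eT (mU kt kt), gs := gs, oo := oo, cr := cr,
    Yv := bif Nat.blt 0 pQ then min Xh (mU (mU (mU (mU C.t1.2 a.2) C.c.2) (sqU (dU G pQ))) X) else Xh,
    N2 := N2, t2 := t2 }

/-- admissibility -/
def okR (P : Par) (C : Cl) (B : I) (G : ℕ) : Bool :=
  let a := xaR P C.n C.T
  let Y := ia (id' C.c2 B) (id' C.n a)
  let Q := ia (im a C.c2) (im C.n B)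
  let e1 := mL (mL C.t1.1 C.t1.1) (dL SC Y.2)
  let e2 := mU (mU C.u.2 C.u.2) P.g.2
  Nat.blt 0 B.1 && Nat.blt 0 a.1 && Nat.blt 0 Q.1 && Nat.ble e2 e1 && Nat.ble SC (2 * mL G (e1 - e2)) &&
    Nat.blt 0 (eNL (imn (SC, SC) C.T).2) && Nat.blt 0 (mL piL G) && Nat.blt 0 G

/-- full weight -/
def wF (D : RD) : ℕ := mU D.X (D.w0 + mU D.es2 D.m1 + mU D.a2 (mU D.oo D.oo + D.gs))

/-- truncated weight -/
def wG (D : RD) : ℕ :=
  mU (D.X / 2 + 1) (D.w0 + mU D.es2 D.m1 + mU D.a2 (mU D.oo D.oo + D.cr + D.gs)) +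
    mU D.Yv (D.w0 + mU D.es2 (mU D.t2 D.N2) + mU D.a2 (mU D.oo D.oo))

/-- the main part, right: `(m0, mW, me)` -/
def xmR (P : Par) (C : Cl) (B : I) (G : ℕ) : Option (ℕ × ℕ × ℕ) :=
  let D := mkR P C B G
  let m0 := mU D.Pf (D.X / 2 + 1 + D.Yv)
  bif okR P C B G then some (m0, mU D.Pf (min (wF D) (wG D)), mU (mU D.eT m0) (dU SC G)) else none

/-! ### soundness -/

/-- the real quantities of a cell -/
structure RH (D : RD) (μ q kk g c ν h τ Γ β T : ℝ) : Prop where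
  Q0 : 0 < RQ μ c ν T β
  a0 : 0 < Ra μ ν T
  X : RX μ g c ν τ T β Γ ≤ fx D.X
  V : RV μ q c ν T β ≤ fx D.Pf
  eT : Real.exp (min 1 T) ≤ fx D.eT
  es : Re1 T ^ (2 : ℕ) ≤ fx D.es2
  m1 : Rm1 μ c ν τ T β Γ ≤ fx D.m1
  a2 : Real.exp (min 1 T) * (1 + kk * τ * (h * c)) ≤ fx D.a2
  w0 : Real.exp (min 1 T) * (kk * τ) ^ (2 : ℕ) ≤ fx D.w0
  gs : ν / (2 * Γ * RQ μ c ν T β) ≤ fx D.gs
  oo : Ro μ c ν τ T β ≤ fx D.oo
  cr : 2 * Ro μ c ν τ T β * √(ν / (Real.pi * Γ * RQ μ c ν T β)) ≤ fx D.cr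
  Y : RY μ g c ν τ T β Γ ≤ fx D.Yv
  tN : (1 + τ) ^ (2 : ℕ) / μ ^ (2 : ℕ) ≤ fx (mU D.t2 D.N2)

theorem half_le {x : ℝ} {n : ℕ} (h : x ≤ fx n) : x / 2 ≤ fx (n / 2 + 1) := by
  have h1 := fx_divU n 2 (by norm_num)
  push_cast at h1
  linarith only [h, h1]

theorem R_exp {G E : ℕ} {Γ e : ℝ} (hG : fx G ≤ Γ) (hG0 : 0 < G) (hE : fx E ≤ e)
    (heG : SC ≤ 2 * mL G E) : Real.exp (-(Γ * e)) ≤ fx (eN (mL G E)) ∧
      √Γ * Real.exp (-(Γ * e)) ≤ √(fx G) * fx (eN (mL G E)) := by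
  have hGr : 0 < fx G := fx_pos hG0
  have he0 : 0 ≤ e := (fx_nonneg _).trans hE
  have hGE : fx (mL G E) ≤ fx G * e := mulL le_rfl hE
  have h2G : 1 ≤ 2 * (fx G * e) := by
    have h1 : fx SC ≤ fx (2 * mL G E) := fx_mono heG
    rw [fx_one] at h1
    have h2 : fx (2 * mL G E) = fx (mL G E) * 2 := by rw [mul_comm, fx_mulN]; norm_num
    linarith only [hGE, h1, h2]
  have hXG : Real.exp (-(fx G * e)) ≤ fx (eN (mL G E)) := expNegU hGE
  refine ⟨?_, (sqrt_exp_anti hGr hG h2G).trans (mul_le_mul_of_nonneg_left hXG (Real.sqrt_nonneg _))⟩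
  refine le_trans (Real.exp_le_exp.2 ?_) hXG
  have := mul_le_mul_of_nonneg_right hG he0
  linarith only [this]

theorem R_e0 {t1 u Y g : I} {τ g0 y : ℝ} (ht : Mem (1 + τ) t1) (hu : Mem τ u) (hg : Mem (g0 / 2) g)
    (hy : Mem y Y) (hy0 : 0 < y) (hτ : 0 ≤ τ)
    (hle : mU (mU u.2 u.2) g.2 ≤ mL (mL t1.1 t1.1) (dL SC Y.2)) :
    fx (mL (mL t1.1 t1.1) (dL SC Y.2) - mU (mU u.2 u.2) g.2) ≤ (1 + τ) ^ (2 : ℕ) * (1 / y) - g0 / 2 * τ ^ (2 : ℕ) := by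
  refine subL ?_ ?_ hle
  · rw [pow_two]
    exact mulL (mulL ht.1 ht.1) (divL (le_of_eq fx_one) hy.2 hy0)
  · have h1 := mulU hu.2 hu.2 hτ
    have hg0 : 0 ≤ g0 / 2 := (fx_nonneg _).trans hg.1
    have h2 := mulU h1 hg.2 hg0
    refine le_trans (le_of_eq ?_) h2
    ring

theorem R_V {c2 N q Q : I} {c μ q0 R : ℝ} (hc : Mem (c ^ (2 : ℕ)) c2) (hN : Mem (1 / μ) N) (hq : Mem q0 q)
    (hR : Mem R Q) (hQ0 : 0 < Q.1) (hμ : 0 < μ) :
    √(q0 * (1 + c ^ (2 : ℕ) / μ ^ (2 : ℕ)) / (2 * R)) ≤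
      fx (sqU (mU q.2 (mU (SC + mU c2.2 (mU N.2 N.2)) (dU SC Q.1)) / 2 + 1)) := by
  have hR0 : 0 < R := (fx_pos hQ0).trans_le hR.1
  have h1 : 1 + c ^ (2 : ℕ) / μ ^ (2 : ℕ) ≤ fx (SC + mU c2.2 (mU N.2 N.2)) := by
    refine addU (le_of_eq fx_one.symm) ?_
    have h2 := mulU hc.2 (mulU hN.2 hN.2 (by (clear * - hμ; positivity))) (by (clear * - hμ; positivity))
    refine le_trans (le_of_eq ?_) h2
    field_simp
  have hV := mulU h1 (divU (le_of_eq fx_one.symm) hR.1 hQ0) (by (clear * - hR0; positivity))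
  have h3 := mulU hq.2 hV (by (clear * - hμ hR0; positivity))
  apply sqrtU
  refine le_trans (le_of_eq ?_) (half_le h3)
  field_simp

theorem R_gs {n Q : I} {ν R Γ : ℝ} {G : ℕ} (hn : Mem ν n) (hR : Mem R Q) (hQ0 : 0 < Q.1) (hG : fx G ≤ Γ)
    (hG0 : 0 < G) : ν / (2 * Γ * R) ≤ fx (mU (mU n.2 (dU SC Q.1)) (dU SC G) / 2 + 1) := by
  have hR0 : 0 < R := (fx_pos hQ0).trans_le hR.1
  have hΓ0 : 0 < Γ := (fx_pos hG0).trans_le hG
  have h0 := mulU hn.2 (divU (le_of_eq fx_one.symm) hR.1 hQ0) (by (clear * - hR0; positivity))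
  have h1 := mulU h0 (divU (le_of_eq fx_one.symm) hG hG0) (by (clear * - hΓ0; positivity))
  refine le_trans (le_of_eq ?_) (half_le h1)
  field_simp

theorem R_m1 {t2 l N2 c2 gs : ℕ} {a b d e f : ℝ} (h1 : a ≤ fx t2) (h2 : b ≤ fx l) (h3 : 1 / d ≤ fx N2)
    (h4 : e ≤ fx c2) (h5 : f ≤ fx gs) (hb : 0 ≤ b) (hd : 0 < d) (hf : 0 ≤ f) :
    a * b ^ (2 : ℕ) / d + e * f / d ≤ fx (mU (mU t2 (mU l l)) N2 + mU (mU c2 gs) N2) := by
  refine addU ?_ ?_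
  · have k1 := mulU (mulU h1 (mulU h2 h2 hb) (by (clear * - hb; positivity))) h3 (by (clear * - hd; positivity))
    refine le_trans (le_of_eq ?_) k1
    field_simp
  · have k1 := mulU (mulU h4 h5 hf) h3 (by (clear * - hd; positivity))
    refine le_trans (le_of_eq ?_) k1
    field_simp

theorem R_cr {o n Q : I} {oo : ℕ} {x ν R Γ : ℝ} {G : ℕ} (hx : x ≤ fx oo) (hn : Mem ν n) (hR : Mem R Q)
    (hQ0 : 0 < Q.1) (hG : fx G ≤ Γ) (hG0 : 0 < G) (hpG : 0 < mL piL G) :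
    2 * x * √(ν / (Real.pi * Γ * R)) ≤
      fx (mU (2 * oo) (sqU (dU (mU n.2 (dU SC Q.1)) (mL piL G)))) := by
  have hR0 : 0 < R := (fx_pos hQ0).trans_le hR.1
  have hΓ0 : 0 < Γ := (fx_pos hG0).trans_le hG
  have h0 := mulU hn.2 (divU (le_of_eq fx_one.symm) hR.1 hQ0) (by (clear * - hR0; positivity))
  have h1 : 2 * x ≤ fx (2 * oo) := by
    have h2 : fx (2 * oo) = fx oo * 2 := by rw [mul_comm, fx_mulN]; norm_num
    linarith only [hx, h2]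
  refine mulU h1 (sqrtU ?_) (Real.sqrt_nonneg _)
  have h3 := divU h0 (mulL piL_le hG) hpG
  refine le_trans (le_of_eq ?_) h3
  field_simp

theorem R_Y {X p b : ℕ} {u pν Γ x : ℝ} {G : ℕ} (hp : fx p ≤ pν) (hb : u ≤ fx b) (hu : 0 ≤ u)
    (hx : x ≤ fx X) (hx2 : √Γ * x ≤ √(fx G) * fx X) :
    min (x / 2) (√Γ * (u / √pν) * x) ≤
      fx (bif Nat.blt 0 p then min (X / 2 + 1) (mU (mU b (sqU (dU G p))) X) else X / 2 + 1) := by
  by_cases h0 : 0 < p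
  · have h1 : Nat.blt 0 p = true := by rw [blt_iff]; exact h0
    rw [h1, cond_true]
    refine minU (half_le hx) ?_
    have h2 : √(fx G) / √pν ≤ fx (sqU (dU G p)) := by
      rw [← Real.sqrt_div (fx_nonneg G)]
      exact sqrtU (divU le_rfl hp h0)
    have h4 := mulU (mulU hb h2 (by (clear * -; positivity))) (le_refl (fx X)) (fx_nonneg _)
    refine le_trans ?_ h4
    have h5 : 0 ≤ u / √pν := by (clear * - hu; positivity)
    calc √Γ * (u / √pν) * x = (u / √pν) * (√Γ * x) := by ring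
      _ ≤ (u / √pν) * (√(fx G) * fx X) := mul_le_mul_of_nonneg_left hx2 h5
      _ = _ := by ring
  · have h1 : Nat.blt 0 p = false := by
      cases hh : Nat.blt 0 p with
      | false => rfl
      | true => rw [blt_iff] at hh; exact absurd hh h0
    rw [h1, cond_false]
    exact (min_le_left _ _).trans (half_le hx)

theorem RH_of {P : Par} {μ q g kk c ν h τ Γ β T : ℝ} (hP : P.Ok μ q g kk) {C : Cl}
    (hC : C.Has μ c ν h τ) {B : I} {G : ℕ} (hB : Mem β B) (hT : T = (1 + τ) * h * c / μ)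
    (hG : fx G ≤ Γ) (hc : 0 < c) (hν : 0 < ν) (hν1 : ν ≤ 1) (hh : 0 < h) (hτ : 0 ≤ τ)
    (hok : okR P C B G = true) : RH (mkR P C B G) μ q kk g c ν h τ Γ β T := by
  have hμ := hP.pos
  have hmT : Mem T C.T := by rw [hT]; exact hC.hT
  have hT0 : 0 < T := by rw [hT]; (clear * - hτ hh hc hμ; positivity)
  have hmT1 : Mem (min 1 T) (imn (SC, SC) C.T) := Mem.one.min hmT
  have hCa : Mem (Ra μ ν T) (xaR P C.n C.T) := mem_xaR hP hC.hn hmT hν1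
  unfold okR at hok
  simp only [Bool.and_eq_true, blt_iff, Nat.ble_eq] at hok
  obtain ⟨⟨⟨⟨⟨⟨⟨hB0, ha0⟩, hQ0⟩, hele⟩, heG⟩, hE0⟩, hpG⟩, hG0⟩ := hok
  have hmQ : Mem (RQ μ c ν T β) (ia (im (xaR P C.n C.T) C.c2) (im C.n B)) := by
    unfold RQ; exact (hCa.mul hC.hc2).add (hC.hn.mul hB)
  have hA0 : 0 < Ra μ ν T := (fx_pos ha0).trans_le hCa.1
  have hβ0 : 0 < β := (fx_pos hB0).trans_le hB.1
  have hmY : Mem (c ^ (2 : ℕ) / β + ν / Ra μ ν T) (ia (id' C.c2 B) (id' C.n (xaR P C.n C.T))) :=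
    (hC.hc2.div hB hB0).add (hC.hn.div hCa ha0)
  have hΓ0 : 0 < Γ := (fx_pos hG0).trans_le hG
  have hR0 : 0 < RQ μ c ν T β := (fx_pos hQ0).trans_le hmQ.1
  have hk0 : 0 ≤ kk := hP.hk.nonneg
  have hE := R_e0 hC.ht1 hC.hu hP.hg hmY (by (clear * - hc hβ0 hν hA0; positivity)) hτ hele
  have hX := R_exp hG hG0 hE heG
  have hes : Re1 T ≤ fx (e1U (imn (SC, SC) C.T).2) := e1U_ge hT0 hmT1.2
  have hes0 : 0 ≤ Re1 T := by
    unfold Re1
    have h1 : 0 < min 1 T := lt_min one_pos hT0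
    have h2 := Real.add_one_le_exp (min 1 T)
    exact div_nonneg (by linarith only [h1, h2]) h1.le
  have hN2 : 1 / μ ^ (2 : ℕ) ≤ fx (mU P.N.2 P.N.2) := by
    have h1 := mulU hP.hN.2 hP.hN.2 (by (clear * - hμ; positivity))
    refine le_trans (le_of_eq ?_) h1
    field_simp
  have ht2 : (1 + τ) ^ (2 : ℕ) ≤ fx (mU C.t1.2 C.t1.2) := by
    have h1 := mulU hC.ht1.2 hC.ht1.2 (by (clear * - hτ; positivity))
    rwa [← pow_two] at h1
  have hkt : kk * τ ≤ fx (mU P.k.2 C.u.2) := mulU hP.hk.2 hC.hu.2 hτ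
  have heT : Real.exp (min 1 T) ≤ fx (dU SC (eNL (imn (SC, SC) C.T).2)) := expUp hmT1.2 hE0
  have hgs := R_gs hC.hn hmQ hQ0 hG hG0
  have hto : Ro μ c ν τ T β ≤ fx (mU C.t1.2 (dU (mU (xaR P C.n C.T).2 C.c.2)
      (ia (im (xaR P C.n C.T) C.c2) (im C.n B)).1)) :=
    mulU hC.ht1.2 (divU (mulU hCa.2 hC.hc.2 hc.le) hmQ.1 hQ0) (by (clear * - hA0 hc hR0; positivity))
  have hl := divU (mulU hC.hn.2 hB.2 hβ0.le) hmQ.1 hQ0
  exact {
    Q0 := hR0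
    a0 := hA0
    X := hX.1
    V := R_V hC.hc2 hP.hN hP.hq hmQ hQ0 hμ
    eT := heT
    es := by
      rw [pow_two]
      exact mulU hes hes hes0
    m1 := R_m1 ht2 hl hN2 hC.hc2.2 hgs (by (clear * - hν hβ0 hR0; positivity)) (by (clear * - hμ; positivity)) (by (clear * - hν hΓ0 hR0; positivity))
    a2 := mulU heT (addU (le_of_eq fx_one.symm) (mulU hkt (mulU hC.hh.2 hC.hc.2 hc.le) (by (clear * - hh hc; positivity))))
      (by (clear * - hk0 hτ hh hc; positivity))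
    w0 := by
      rw [pow_two]
      exact mulU heT (mulU hkt hkt (by (clear * - hk0 hτ; positivity))) (by (clear * - hk0 hτ; positivity))
    gs := hgs
    oo := hto
    cr := R_cr (o := C.c) hto hC.hn hmQ hQ0 hG hG0 hpG
    Y := R_Y (mulL (mulL piL_le hC.hn.1) hmQ.1)
      (mulU (mulU hC.ht1.2 hCa.2 hA0.le) hC.hc.2 hc.le) (by (clear * - hτ hA0 hc; positivity)) hX.1 hX.2
    tN := by
      have h1 := mulU ht2 hN2 (by (clear * - hμ; positivity))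
      refine le_trans (le_of_eq ?_) h1
      ring }

theorem xmR_sound {P : Par} {μ q g kk c ν h τ Γ β : ℝ} (hP : P.Ok μ q g kk) {C : Cl}
    (hC : C.Has μ c ν h τ) {B : I} {G : ℕ} (hB : Mem β B)
    (hG : fx G ≤ Γ) (hc : 0 < c) (hν : 0 < ν) (hν1 : ν ≤ 1) (hh : 0 < h) (hτ : 0 ≤ τ)
    {x y z : ℕ} (hx : xmR P C B G = some (x, y, z)) :
    RM0 μ q g c ν h τ Γ β ≤ fx x ∧ RMW μ q kk g c ν h τ Γ β ≤ fx y ∧ RMe μ q g c ν h τ Γ β ≤ fx z := by
  unfold xmR at hx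
  simp only at hx
  cases hok : okR P C B G with
  | false => rw [hok] at hx; simp at hx
  | true =>
    rw [hok] at hx
    simp only [cond_true, Option.some.injEq, Prod.mk.injEq] at hx
    obtain ⟨hx0, hy0, hz0⟩ := hx
    have H := RH_of (T := (1 + τ) * h * c / μ) hP hC hB rfl hG hc hν hν1 hh hτ hok
    have hG0 : 0 < G := by
      unfold okR at hok
      simp only [Bool.and_eq_true, blt_iff] at hok
      exact hok.2
    obtain ⟨D, hD⟩ : ∃ D, D = mkR P C B G := ⟨_, rfl⟩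
    rw [← hD] at H hx0 hy0 hz0
    have hμ := hP.pos
    have hΓ0 : 0 < Γ := (fx_pos hG0).trans_le hG
    obtain ⟨T, hT⟩ : ∃ T, T = (1 + τ) * h * c / μ := ⟨_, rfl⟩
    have hT0 : 0 < T := by rw [hT]; (clear * - hτ hh hc hμ; positivity)
    rw [← hT] at H
    have hk0 : 0 ≤ kk := hP.hk.nonneg
    have hA0 := H.a0
    have hR0 := H.Q0
    have hX0 : 0 ≤ RX μ g c ν τ T β Γ := by unfold RX; exact (Real.exp_pos _).le
    have hV0 : 0 ≤ RV μ q c ν T β := by unfold RV; exact Real.sqrt_nonneg _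
    have hY0 : 0 ≤ RY μ g c ν τ T β Γ := by
      unfold RY Rk
      refine le_min (by linarith only [hX0]) ?_
      have := Real.pi_pos
      (clear * - hΓ0 hτ hA0 hc hν hR0 hX0; positivity)
    have ho0 : 0 ≤ Ro μ c ν τ T β := by
      unfold Ro
      (clear * - hτ hA0 hc hR0; positivity)
    have hm0 : 0 ≤ Rm1 μ c ν τ T β Γ := by
      unfold Rm1
      (clear * - hτ hμ hc hν hΓ0 hR0; positivity)
    have hh2 := half_le H.X
    have h0 : RX μ g c ν τ T β Γ / 2 + RY μ g c ν τ T β Γ ≤ fx (D.X / 2 + 1 + D.Yv) := by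
      rw [fx_add]
      exact add_le_add hh2 H.Y
    have hM0 : RM0 μ q g c ν h τ Γ β ≤ fx x := by
      rw [← hx0]
      unfold RM0
      rw [← hT]
      exact mulU H.V h0 (by (clear * - hX0 hY0; positivity))
    have hg0 : 0 ≤ ν / (2 * Γ * RQ μ c ν T β) := by (clear * - hν hΓ0 hR0; positivity)
    have hoo : Ro μ c ν τ T β ^ (2 : ℕ) ≤ fx (mU D.oo D.oo) := by
      rw [pow_two]
      exact mulU H.oo H.oo ho0
    have hes := H.es
    have q1 := addU H.w0 (mulU H.es H.m1 hm0)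
    refine ⟨hM0, ?_, ?_⟩
    · rw [← hy0]
      unfold RMW
      rw [← hT]
      have hF : RF μ kk g c ν h τ T β Γ ≤ fx (wF D) := by
        unfold RF wF
        exact mulU H.X (addU q1 (mulU H.a2 (addU hoo H.gs) (by (clear * - hν hΓ0 hR0; positivity)))) (by (clear * - hm0 hk0 hτ hh hc hν hΓ0 hR0; positivity))
      have hGG : RG μ kk g c ν h τ T β Γ ≤ fx (wG D) := by
        unfold RG wG
        refine addU (mulU hh2 (addU q1 (mulU H.a2 (addU (addU hoo H.cr) H.gs) (by (clear * - ho0 hν hΓ0 hR0; positivity))))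
          (by (clear * - hm0 hk0 hτ hh hc ho0 hν hΓ0 hR0; positivity))) ?_
        exact mulU H.Y (addU (addU H.w0 (mulU H.es H.tN (by (clear * - hτ hμ; positivity)))) (mulU H.a2 hoo (by (clear * -; positivity))))
          (by (clear * - hτ hμ hk0 hh hc; positivity))
      refine mulU H.V (minU hF hGG) (le_min ?_ ?_)
      · unfold RF; (clear * - hX0 hm0 hk0 hτ hh hc hν hΓ0 hR0; positivity)
      · unfold RG; (clear * - hX0 hm0 hk0 hτ hh hc ho0 hν hΓ0 hR0 hY0 hμ; positivity)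
    · rw [← hz0]
      unfold RMe
      rw [← hT]
      have hM00 : 0 ≤ RM0 μ q g c ν h τ Γ β := by
        unfold RM0
        rw [← hT]
        (clear * - hV0 hX0 hY0; positivity)
      rw [← hx0] at hM0
      have h1 := mulU (mulU H.eT hM0 hM00) (divU (le_of_eq fx_one.symm) hG hG0) (by (clear * - hΓ0; positivity))
      refine le_trans (le_of_eq ?_) h1
      ring

end SokamCel

end

/-! ### Lib_MP_af4de1_v3.CelTree -/

section
namespace SokamFN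
end SokamFN
/-!
# Cells: bisection along a given tree (only the leaves are evaluated) (helper4)

`BT.L` leaf, `BT.X a b`, `BT.Y a b`, `BT.Z a b` : halve the first, second, third side.
-/

set_option autoImplicit false

namespace SokamCel

open SokamFN

/-- a bisection tree of a box in three variables -/
inductive BT : Type
  | L : BT
  | X : BT → BT → BT
  | Y : BT → BT → BT
  | Z : BT → BT → BT

/-- `ok` on all leaves of the tree -/
def bisT (ok : ℕ → ℕ → ℕ → ℕ → ℕ → ℕ → Bool) : BT → ℕ → ℕ → ℕ → ℕ → ℕ → ℕ → Bool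
  | BT.L, x0, x1, y0, y1, z0, z1 => ok x0 x1 y0 y1 z0 z1
  | BT.X a b, x0, x1, y0, y1, z0, z1 =>
    bisT ok a x0 (Nat.div (Nat.add x0 x1) 2) y0 y1 z0 z1 &&
      bisT ok b (Nat.div (Nat.add x0 x1) 2) x1 y0 y1 z0 z1
  | BT.Y a b, x0, x1, y0, y1, z0, z1 =>
    bisT ok a x0 x1 y0 (Nat.div (Nat.add y0 y1) 2) z0 z1 &&
      bisT ok b x0 x1 (Nat.div (Nat.add y0 y1) 2) y1 z0 z1
  | BT.Z a b, x0, x1, y0, y1, z0, z1 =>
    bisT ok a x0 x1 y0 y1 z0 (Nat.div (Nat.add z0 z1) 2) &&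
      bisT ok b x0 x1 y0 y1 (Nat.div (Nat.add z0 z1) 2) z1

theorem bisT_sound {P : ℝ → ℝ → ℝ → Prop} {ok : ℕ → ℕ → ℕ → ℕ → ℕ → ℕ → Bool}
    (hok : ∀ x0 x1 y0 y1 z0 z1, ok x0 x1 y0 y1 z0 z1 = true → ∀ x y z : ℝ, fx x0 ≤ x → x ≤ fx x1 →
      fx y0 ≤ y → y ≤ fx y1 → fx z0 ≤ z → z ≤ fx z1 → P x y z) :
    ∀ (t : BT) (x0 x1 y0 y1 z0 z1 : ℕ), bisT ok t x0 x1 y0 y1 z0 z1 = true → ∀ x y z : ℝ,
      fx x0 ≤ x → x ≤ fx x1 → fx y0 ≤ y → y ≤ fx y1 → fx z0 ≤ z → z ≤ fx z1 → P x y z := by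
  intro t
  induction t with
  | L => intro x0 x1 y0 y1 z0 z1 h; exact hok _ _ _ _ _ _ h
  | X a b iha ihb =>
    intro x0 x1 y0 y1 z0 z1 h x y z h1 h2 h3 h4 h5 h6
    rw [bisT, Bool.and_eq_true] at h
    rcases le_total x (fx (Nat.div (Nat.add x0 x1) 2)) with hx | hx
    · exact iha _ _ _ _ _ _ h.1 x y z h1 hx h3 h4 h5 h6
    · exact ihb _ _ _ _ _ _ h.2 x y z hx h2 h3 h4 h5 h6
  | Y a b iha ihb =>
    intro x0 x1 y0 y1 z0 z1 h x y z h1 h2 h3 h4 h5 h6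
    rw [bisT, Bool.and_eq_true] at h
    rcases le_total y (fx (Nat.div (Nat.add y0 y1) 2)) with hx | hx
    · exact iha _ _ _ _ _ _ h.1 x y z h1 h2 h3 hx h5 h6
    · exact ihb _ _ _ _ _ _ h.2 x y z h1 h2 hx h4 h5 h6
  | Z a b iha ihb =>
    intro x0 x1 y0 y1 z0 z1 h x y z h1 h2 h3 h4 h5 h6
    rw [bisT, Bool.and_eq_true] at h
    rcases le_total z (fx (Nat.div (Nat.add z0 z1) 2)) with hx | hx
    · exact iha _ _ _ _ _ _ h.1 x y z h1 h2 h3 h4 h5 hx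
    · exact ihb _ _ _ _ _ _ h.2 x y z h1 h2 h3 h4 hx h6

end SokamCel

end

/-! ### Lib_MP_af4de1_v3.CelTreeN -/

section
/-!
# Cells: a tree from subtrees (helper10)
-/

set_option autoImplicit false

namespace SokamCel

variable {ok : ℕ → ℕ → ℕ → ℕ → ℕ → ℕ → Bool} {a b : BT} {x0 x1 y0 y1 z0 z1 : ℕ}

theorem bisT_X (m : ℕ) (h1 : bisT ok a x0 m y0 y1 z0 z1 = true) (h2 : bisT ok b m x1 y0 y1 z0 z1 = true)
    (hm : Nat.div (Nat.add x0 x1) 2 = m) : bisT ok (BT.X a b) x0 x1 y0 y1 z0 z1 = true := by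
  subst hm
  rw [bisT, h1, h2]
  rfl

theorem bisT_Y (m : ℕ) (h1 : bisT ok a x0 x1 y0 m z0 z1 = true) (h2 : bisT ok b x0 x1 m y1 z0 z1 = true)
    (hm : Nat.div (Nat.add y0 y1) 2 = m) : bisT ok (BT.Y a b) x0 x1 y0 y1 z0 z1 = true := by
  subst hm
  rw [bisT, h1, h2]
  rfl

theorem bisT_Z (m : ℕ) (h1 : bisT ok a x0 x1 y0 y1 z0 m = true) (h2 : bisT ok b x0 x1 y0 y1 m z1 = true)
    (hm : Nat.div (Nat.add z0 z1) 2 = m) : bisT ok (BT.Z a b) x0 x1 y0 y1 z0 z1 = true := by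
  subst hm
  rw [bisT, h1, h2]
  rfl

end SokamCel

end

/-! ### Lib_MP_af4de1_v3.CelL4 -/

section
namespace SokamFN
end SokamFN
/-!
# Cells: the truncated Gaussian `g0`, `gW` in scaled variables (used for the main part and for the image)

`a = ν α` (`A = α c²`), `Q = a c² + ν B`, `x = t/h`, `m = min 1 (a c x √(4 Γ/(π ν Q)))`:
`P g0 = √(q V/(2 Q)) (1+m)/2 e^(-Γ (Z x² - E))`.
-/

set_option autoImplicit false

namespace SokamCel

open SokamFN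

/-- `Q` -/
noncomputable def gQ (c ν a B : ℝ) : ℝ := a * c ^ (2 : ℕ) + ν * B

/-- relative width to the right of the centre -/
noncomputable def gm (c ν a B x Γ : ℝ) : ℝ := min 1 (a * c * x * √(4 / Real.pi * Γ / (ν * gQ c ν a B)))

/-- `P g0` -/
noncomputable def gF0 (qV c ν a B x Γ Z E : ℝ) : ℝ :=
  √(qV / (2 * gQ c ν a B)) * ((1 + gm c ν a B x Γ) / 2) * Real.exp (-(Γ * (Z * x ^ (2 : ℕ) - E)))

/-- full weight -/
noncomputable def gWf (μ c ν a B x Γ w1 w2 : ℝ) : ℝ :=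
  w1 * (x * (ν * B / gQ c ν a B)) ^ (2 : ℕ) / μ ^ (2 : ℕ) + w2 * (x * (a * c / gQ c ν a B)) ^ (2 : ℕ) +
    (w1 * c ^ (2 : ℕ) / μ ^ (2 : ℕ) + w2) * (ν / (Γ * gQ c ν a B)) / 2

/-- truncated weight -/
noncomputable def gWt (μ c ν a B x Γ w1 w2 : ℝ) : ℝ :=
  (1 + gm c ν a B x Γ) / 2 * (w1 * x ^ (2 : ℕ) / μ ^ (2 : ℕ) + w2 * (x * (a * c / gQ c ν a B)) ^ (2 : ℕ)) +
    (w1 * c ^ (2 : ℕ) / μ ^ (2 : ℕ) + w2) * (ν / (Γ * gQ c ν a B)) / 4 +
    w2 * (x * (a * c / gQ c ν a B)) * √(ν / (Γ * gQ c ν a B) * (1 / Real.pi))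

/-- `P gW R/h²` (upper bound) -/
noncomputable def gFW (qV μ c ν a B x Γ Z E w1 w2 : ℝ) : ℝ :=
  √(qV / (2 * gQ c ν a B)) * Real.exp (-(Γ * (Z * x ^ (2 : ℕ) - E))) *
    min (gWf μ c ν a B x Γ w1 w2) (gWt μ c ν a B x Γ w1 w2)

/-! ### monotonicity in `x` and `Γ` -/

theorem exp_mono_G {Γ Γ0 e : ℝ} (h : Γ0 ≤ Γ) (he : 0 ≤ e) :
    Real.exp (-(Γ * e)) ≤ Real.exp (-(Γ0 * e)) :=
  Real.exp_le_exp.2 (neg_le_neg (mul_le_mul_of_nonneg_right h he))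

theorem sqrt_mono_G {Γ Γ0 e : ℝ} (h0 : 0 < Γ0) (h : Γ0 ≤ Γ) (he : 1 ≤ 2 * (Γ0 * e)) :
    √(Γ / Γ0) * Real.exp (-(Γ * e)) ≤ Real.exp (-(Γ0 * e)) := by
  have h1 : √(Γ / Γ0) ≤ Real.exp ((Γ / Γ0 - 1) / 2) := by
    rw [Real.sqrt_le_left (Real.exp_pos _).le, ← Real.exp_nat_mul]
    have := Real.add_one_le_exp (Γ / Γ0 - 1)
    have e1 : ((2 : ℕ) : ℝ) * ((Γ / Γ0 - 1) / 2) = Γ / Γ0 - 1 := by push_cast; ring
    rw [e1]
    linarith only [this]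
  have h2 : (Γ / Γ0 - 1) / 2 ≤ Γ * e - Γ0 * e := by
    have e1 : Γ * e - Γ0 * e = (Γ / Γ0 - 1) * (Γ0 * e) := by field_simp
    rw [e1]
    have h3 : 0 ≤ Γ / Γ0 - 1 := by
      rw [sub_nonneg, le_div_iff₀ h0]; linarith only [h]
    nlinarith
  have h3 : Real.exp (-(Γ0 * e)) = Real.exp (Γ * e - Γ0 * e) * Real.exp (-(Γ * e)) := by
    rw [← Real.exp_add]; congr 1; ring
  rw [h3]
  exact mul_le_mul_of_nonneg_right (h1.trans (Real.exp_le_exp.2 h2)) (Real.exp_pos _).le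

/-- powers -/
theorem pw_mono {x x0 Γ Γ0 Z E : ℝ} (hx0 : 0 < x0) (hx : x0 ≤ x) (hG : Γ0 ≤ Γ)
    (hZ : 0 ≤ Z) (p : ℕ) (h : p ≤ 2 * (Γ0 * (Z * x0 ^ (2 : ℕ)))) (hE : E ≤ Z * x0 ^ (2 : ℕ)) :
    x ^ p * Real.exp (-(Γ * (Z * x ^ (2 : ℕ) - E))) ≤ x0 ^ p * Real.exp (-(Γ0 * (Z * x0 ^ (2 : ℕ) - E))) := by
  have h1 := img_mono (Γ := Γ) (Z := Z) (E := E) hx0 hx p (by
    have : Γ0 * (Z * x0 ^ (2 : ℕ)) ≤ Γ * (Z * x0 ^ (2 : ℕ)) := mul_le_mul_of_nonneg_right hG (by positivity)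
    nlinarith)
  refine h1.trans (mul_le_mul_of_nonneg_left (exp_mono_G hG (by linarith only [hE])) (by (clear * - hx0; positivity)))

/-- the truncation factor -/
theorem min_scale {f k : ℝ} (hf : 1 ≤ f) : min 1 (f * k) ≤ f * min 1 k := by
  rcases le_total 1 k with h | h
  · rw [min_eq_left h, mul_one]
    exact (min_le_left _ _).trans hf
  · rw [min_eq_right h]
    exact min_le_right _ _

theorem mn_mono {x x0 Γ Γ0 Z E κ : ℝ} (hx0 : 0 < x0) (hx : x0 ≤ x) (hG0 : 0 < Γ0) (hG : Γ0 ≤ Γ)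
    (hZ : 0 ≤ Z) (hκ : 0 ≤ κ) (p : ℕ) (h : p + 1 ≤ 2 * (Γ0 * (Z * x0 ^ (2 : ℕ))))
    (he : 1 ≤ 2 * (Γ0 * (Z * x0 ^ (2 : ℕ) - E))) :
    min 1 (κ * x * √Γ) * (x ^ p * Real.exp (-(Γ * (Z * x ^ (2 : ℕ) - E)))) ≤
      min 1 (κ * x0 * √Γ0) * (x0 ^ p * Real.exp (-(Γ0 * (Z * x0 ^ (2 : ℕ) - E)))) := by
  have hx' : 0 < x := hx0.trans_le hx
  have hG' : 0 < Γ := hG0.trans_le hG
  have hs0 : 0 < √Γ0 := Real.sqrt_pos.2 hG0
  obtain ⟨f, hf⟩ : ∃ f, f = x / x0 * √(Γ / Γ0) := ⟨_, rfl⟩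
  have hf1 : 1 ≤ f := by
    rw [hf]
    have h1 : 1 ≤ x / x0 := by rw [le_div_iff₀ hx0]; linarith only [hx]
    have h2 : 1 ≤ √(Γ / Γ0) := by
      rw [Real.one_le_sqrt, le_div_iff₀ hG0]; linarith only [hG]
    nlinarith
  have e1 : κ * x * √Γ = f * (κ * x0 * √Γ0) := by
    rw [hf, Real.sqrt_div hG'.le]
    field_simp
  have h1 := min_scale (k := κ * x0 * √Γ0) hf1
  rw [← e1] at h1
  have h2 := mul_le_mul_of_nonneg_right h1 (by positivity : 0 ≤ x ^ p * Real.exp (-(Γ * (Z * x ^ (2 : ℕ) - E))))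
  refine h2.trans ?_
  have h3 := img_mono (Γ := Γ) (Z := Z) (E := E) hx0 hx (p + 1) (by
    have : Γ0 * (Z * x0 ^ (2 : ℕ)) ≤ Γ * (Z * x0 ^ (2 : ℕ)) := mul_le_mul_of_nonneg_right hG (by (clear * - hZ hx0; positivity))
    push_cast
    nlinarith)
  have h4 := sqrt_mono_G hG0 hG he
  have hm0 : 0 ≤ min 1 (κ * x0 * √Γ0) := le_min zero_le_one (by (clear * - hκ hx0 hG0; positivity))
  have e2 : f * min 1 (κ * x0 * √Γ0) * (x ^ p * Real.exp (-(Γ * (Z * x ^ (2 : ℕ) - E)))) =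
      min 1 (κ * x0 * √Γ0) * (√(Γ / Γ0) / x0 * (x ^ (p + 1) * Real.exp (-(Γ * (Z * x ^ (2 : ℕ) - E))))) := by
    rw [hf, pow_succ]
    field_simp
    try ring
  rw [e2]
  refine mul_le_mul_of_nonneg_left ?_ hm0
  have h5 := mul_le_mul_of_nonneg_left h3 (by positivity : 0 ≤ √(Γ / Γ0) / x0)
  refine h5.trans ?_
  have e3 : √(Γ / Γ0) / x0 * (x0 ^ (p + 1) * Real.exp (-(Γ * (Z * x0 ^ (2 : ℕ) - E)))) =
      x0 ^ p * (√(Γ / Γ0) * Real.exp (-(Γ * (Z * x0 ^ (2 : ℕ) - E)))) := by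
    rw [pow_succ]
    field_simp
  rw [e3]
  exact mul_le_mul_of_nonneg_left h4 (by (clear * - hx0; positivity))

theorem gm_eq {c ν a b x Γ κ : ℝ} (h : κ = a * c * √(4 / Real.pi / (ν * gQ c ν a b)))
    (h0 : 0 ≤ 4 / Real.pi / (ν * gQ c ν a b)) : gm c ν a b x Γ = min 1 (κ * x * √Γ) := by
  unfold gm
  rw [h]
  congr 1
  have : 4 / Real.pi * Γ / (ν * gQ c ν a b) = 4 / Real.pi / (ν * gQ c ν a b) * Γ := by ring
  rw [this, Real.sqrt_mul h0]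
  ring

/-- conditions of monotonicity -/
structure Mono (x x0 Γ Γ0 Z E : ℝ) : Prop where
  x0p : 0 < x0
  xx : x0 ≤ x
  G0p : 0 < Γ0
  GG : Γ0 ≤ Γ
  Z0 : 0 ≤ Z
  c3 : 3 ≤ 2 * (Γ0 * (Z * x0 ^ (2 : ℕ)))
  c1 : 1 ≤ 2 * (Γ0 * (Z * x0 ^ (2 : ℕ) - E))

theorem Mono.hE {x x0 Γ Γ0 Z E : ℝ} (h : Mono x x0 Γ Γ0 Z E) : E ≤ Z * x0 ^ (2 : ℕ) := by
  by_contra hc
  push Not at hc
  have h1 := h.c1
  have h2 := h.G0p
  nlinarith

theorem gF0_mono {qV c ν a b x x0 Γ Γ0 Z E : ℝ} (h : Mono x x0 Γ Γ0 Z E) (hc : 0 < c) (hν : 0 < ν)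
    (ha : 0 ≤ a) (hb : 0 < b) : gF0 qV c ν a b x Γ Z E ≤ gF0 qV c ν a b x0 Γ0 Z E := by
  have hR : 0 < gQ c ν a b := by unfold gQ; (clear * - ha hc hν hb; positivity)
  obtain ⟨κ, hκ⟩ : ∃ κ, κ = a * c * √(4 / Real.pi / (ν * gQ c ν a b)) := ⟨_, rfl⟩
  have hκ0 : 0 ≤ κ := by rw [hκ]; (clear * - ha hc hν hR; positivity)
  have hx : 0 ≤ x := h.x0p.le.trans h.xx
  have hp : 0 ≤ 4 / Real.pi / (ν * gQ c ν a b) := by (clear * - hν hR; positivity)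
  have c3 := h.c3
  have p0 := pw_mono (E := E) h.x0p h.xx h.GG h.Z0 0 (by push_cast; linarith only [c3]) h.hE
  have m0 := mn_mono (E := E) h.x0p h.xx h.G0p h.GG h.Z0 hκ0 0 (by push_cast; linarith only [c3]) h.c1
  unfold gF0
  rw [gm_eq hκ hp, gm_eq hκ hp]
  simp only [pow_zero, one_mul] at p0 m0
  have hs : 0 ≤ √(qV / (2 * gQ c ν a b)) := Real.sqrt_nonneg _
  generalize Real.exp (-(Γ * (Z * x ^ (2 : ℕ) - E))) = ex at *
  generalize Real.exp (-(Γ0 * (Z * x0 ^ (2 : ℕ) - E))) = Ex at *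
  have k2 : (1 + min 1 (κ * x * √Γ)) / 2 * ex ≤ (1 + min 1 (κ * x0 * √Γ0)) / 2 * Ex := by linarith only [p0, m0]
  have k3 := mul_le_mul_of_nonneg_left k2 hs
  refine le_trans (le_of_eq ?_) (k3.trans (le_of_eq ?_)) <;> ring

theorem gFW_mono {qV μ c ν a b x x0 Γ Γ0 Z E v1 v2 : ℝ} (h : Mono x x0 Γ Γ0 Z E) (hc : 0 < c)
    (hν : 0 < ν) (ha : 0 ≤ a) (hb : 0 < b) (h1 : 0 ≤ v1) (h2 : 0 ≤ v2) :
    gFW qV μ c ν a b x Γ Z E v1 v2 ≤ gFW qV μ c ν a b x0 Γ0 Z E v1 v2 := by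
  have hR : 0 < gQ c ν a b := by unfold gQ; (clear * - ha hc hν hb; positivity)
  obtain ⟨κ, hκ⟩ : ∃ κ, κ = a * c * √(4 / Real.pi / (ν * gQ c ν a b)) := ⟨_, rfl⟩
  have hκ0 : 0 ≤ κ := by rw [hκ]; (clear * - ha hc hν hR; positivity)
  have hx0 := h.x0p
  have hx : 0 < x := hx0.trans_le h.xx
  have hΓ : 0 < Γ := h.G0p.trans_le h.GG
  have hΓ0 := h.G0p
  have hp : 0 ≤ 4 / Real.pi / (ν * gQ c ν a b) := by (clear * - hν hR; positivity)
  have c3 := h.c3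
  have p0 := pw_mono (E := E) h.x0p h.xx h.GG h.Z0 0 (by push_cast; linarith only [c3]) h.hE
  have p1 := pw_mono (E := E) h.x0p h.xx h.GG h.Z0 1 (by push_cast; linarith only [c3]) h.hE
  have p2 := pw_mono (E := E) h.x0p h.xx h.GG h.Z0 2 (by push_cast; linarith only [c3]) h.hE
  have m2 := mn_mono (E := E) h.x0p h.xx h.G0p h.GG h.Z0 hκ0 2 (by push_cast; linarith only [c3]) h.c1
  unfold gFW gWf gWt
  rw [gm_eq hκ hp, gm_eq hκ hp]
  simp only [pow_zero, one_mul, pow_one] at p0 p1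
  have hs : 0 ≤ √(qV / (2 * gQ c ν a b)) := Real.sqrt_nonneg _
  have hex0 : 0 < Real.exp (-(Γ * (Z * x ^ (2 : ℕ) - E))) := Real.exp_pos _
  have hEx0 : 0 < Real.exp (-(Γ0 * (Z * x0 ^ (2 : ℕ) - E))) := Real.exp_pos _
  have hm0 : 0 ≤ min 1 (κ * x * √Γ) := le_min zero_le_one (by (clear * - hκ0 hx hΓ; positivity))
  have hM0 : 0 ≤ min 1 (κ * x0 * √Γ0) := le_min zero_le_one (by (clear * - hκ0 hx0 hΓ0; positivity))
  generalize Real.exp (-(Γ * (Z * x ^ (2 : ℕ) - E))) = ex at *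
  generalize Real.exp (-(Γ0 * (Z * x0 ^ (2 : ℕ) - E))) = Ex at *
  generalize min 1 (κ * x * √Γ) = m at *
  generalize min 1 (κ * x0 * √Γ0) = M at *
  generalize gQ c ν a b = R at *
  obtain ⟨O, hO⟩ : ∃ O, O = a * c / R := ⟨_, rfl⟩
  have hO0 : 0 ≤ O := by rw [hO]; (clear * - ha hc hR; positivity)
  obtain ⟨L, hL⟩ : ∃ L, L = ν * b / R := ⟨_, rfl⟩
  have hL0 : 0 ≤ L := by rw [hL]; (clear * - hν hb hR; positivity)
  obtain ⟨W, hW⟩ : ∃ W, W = ν / (Γ * R) := ⟨_, rfl⟩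
  obtain ⟨W', hW'⟩ : ∃ W', W' = ν / (Γ0 * R) := ⟨_, rfl⟩
  have hWW : W ≤ W' := by
    rw [hW, hW']
    exact div_le_div_of_nonneg_left hν.le (by (clear * - hΓ0 hR; positivity)) (mul_le_mul_of_nonneg_right h.GG hR.le)
  have hWp : 0 ≤ W := by rw [hW]; (clear * - hν hΓ hR; positivity)
  have hW'p : 0 ≤ W' := by rw [hW']; (clear * - hν hΓ0 hR; positivity)
  obtain ⟨v, hve⟩ : ∃ v, v = v1 * c ^ (2 : ℕ) / μ ^ (2 : ℕ) + v2 := ⟨_, rfl⟩
  have hv0 : 0 ≤ v := by rw [hve]; (clear * - h1 hc h2; positivity)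
  rw [← hO, ← hL, ← hW, ← hW', ← hve]
  have kf : ex * (v1 * (x * L) ^ (2 : ℕ) / μ ^ (2 : ℕ) + v2 * (x * O) ^ (2 : ℕ) + v * W / 2) ≤
      Ex * (v1 * (x0 * L) ^ (2 : ℕ) / μ ^ (2 : ℕ) + v2 * (x0 * O) ^ (2 : ℕ) + v * W' / 2) := by
    have u1 := mul_le_mul_of_nonneg_left p2 (by positivity : 0 ≤ v1 * L ^ (2 : ℕ) / μ ^ (2 : ℕ) + v2 * O ^ (2 : ℕ))
    have u2 : v * W / 2 * ex ≤ v * W' / 2 * Ex := by
      have : v * W / 2 ≤ v * W' / 2 := by
        have := mul_le_mul_of_nonneg_left hWW hv0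
        linarith only [this]
      exact mul_le_mul this p0 hex0.le (by (clear * - hv0 hW'p; positivity))
    have e1 : ex * (v1 * (x * L) ^ (2 : ℕ) / μ ^ (2 : ℕ) + v2 * (x * O) ^ (2 : ℕ) + v * W / 2) =
        (v1 * L ^ (2 : ℕ) / μ ^ (2 : ℕ) + v2 * O ^ (2 : ℕ)) * (x ^ (2 : ℕ) * ex) + v * W / 2 * ex := by ring
    have e2 : Ex * (v1 * (x0 * L) ^ (2 : ℕ) / μ ^ (2 : ℕ) + v2 * (x0 * O) ^ (2 : ℕ) + v * W' / 2) =
        (v1 * L ^ (2 : ℕ) / μ ^ (2 : ℕ) + v2 * O ^ (2 : ℕ)) * (x0 ^ (2 : ℕ) * Ex) + v * W' / 2 * Ex := by ring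
    rw [e1, e2]
    linarith only [u1, u2]
  have kt : ex * ((1 + m) / 2 * (v1 * x ^ (2 : ℕ) / μ ^ (2 : ℕ) + v2 * (x * O) ^ (2 : ℕ)) + v * W / 4 +
      v2 * (x * O) * √(W * (1 / Real.pi))) ≤
      Ex * ((1 + M) / 2 * (v1 * x0 ^ (2 : ℕ) / μ ^ (2 : ℕ) + v2 * (x0 * O) ^ (2 : ℕ)) + v * W' / 4 +
      v2 * (x0 * O) * √(W' * (1 / Real.pi))) := by
    have u1 := mul_le_mul_of_nonneg_left (add_le_add p2 m2)
      (by positivity : 0 ≤ (v1 / μ ^ (2 : ℕ) + v2 * O ^ (2 : ℕ)) / 2)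
    have u2 : v * W / 4 * ex ≤ v * W' / 4 * Ex := by
      have : v * W / 4 ≤ v * W' / 4 := by
        have := mul_le_mul_of_nonneg_left hWW hv0
        linarith only [this]
      exact mul_le_mul this p0 hex0.le (by (clear * - hv0 hW'p; positivity))
    have u3 : v2 * O * √(W * (1 / Real.pi)) * (x * ex) ≤
        v2 * O * √(W' * (1 / Real.pi)) * (x0 * Ex) := by
      have k1 : √(W * (1 / Real.pi)) ≤ √(W' * (1 / Real.pi)) :=
        Real.sqrt_le_sqrt (mul_le_mul_of_nonneg_right hWW (by positivity))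
      have k2 : v2 * O * √(W * (1 / Real.pi)) ≤ v2 * O * √(W' * (1 / Real.pi)) :=
        mul_le_mul_of_nonneg_left k1 (by (clear * - h2 hO0; positivity))
      exact mul_le_mul k2 p1 (by (clear * - hx hex0; positivity)) (by (clear * - h2 hO0; positivity))
    have e1 : ex * ((1 + m) / 2 * (v1 * x ^ (2 : ℕ) / μ ^ (2 : ℕ) + v2 * (x * O) ^ (2 : ℕ)) + v * W / 4 +
        v2 * (x * O) * √(W * (1 / Real.pi))) =
        (v1 / μ ^ (2 : ℕ) + v2 * O ^ (2 : ℕ)) / 2 * (x ^ (2 : ℕ) * ex + m * (x ^ (2 : ℕ) * ex)) + v * W / 4 * ex +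
        v2 * O * √(W * (1 / Real.pi)) * (x * ex) := by ring
    have e2 : Ex * ((1 + M) / 2 * (v1 * x0 ^ (2 : ℕ) / μ ^ (2 : ℕ) + v2 * (x0 * O) ^ (2 : ℕ)) + v * W' / 4 +
        v2 * (x0 * O) * √(W' * (1 / Real.pi))) =
        (v1 / μ ^ (2 : ℕ) + v2 * O ^ (2 : ℕ)) / 2 * (x0 ^ (2 : ℕ) * Ex + M * (x0 ^ (2 : ℕ) * Ex)) + v * W' / 4 * Ex +
        v2 * O * √(W' * (1 / Real.pi)) * (x0 * Ex) := by ring
    rw [e1, e2]
    linarith only [u1, u2, u3]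
  rw [mul_assoc, mul_assoc √(qV / (2 * R)) Ex]
  refine mul_le_mul_of_nonneg_left ?_ hs
  rw [mul_min_of_nonneg _ _ hex0.le, mul_min_of_nonneg _ _ hEx0.le]
  exact min_le_min kf kt

/-! ### numbers -/

/-- upper bound of `gm` at `(fx x0, fx G)` -/
def xmm (A c n : I) (Q1 x0 G : ℕ) : ℕ :=
  bif Nat.blt 0 (mL n.1 Q1) then
    min SC (mU (mU (mU A.2 c.2) x0) (mU (sqU (dU 1399983000000 (mL n.1 Q1))) (sqU G)))
  else SC

theorem four_pi_le : 4 / Real.pi ≤ fx 1399983000000 := by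
  have h := Real.pi_gt_d4
  rw [div_le_iff₀ Real.pi_pos]
  unfold fx
  linarith only [h]

theorem kk1 {k : ℝ} {A ci : I} {R x0 G : ℕ} {a c : ℝ} (ha : Mem a A) (hc : Mem c ci)
    (h : k ≤ fx R) : a * c * √k * fx x0 * √(fx G) ≤ fx (mU (mU (mU A.2 ci.2) x0) (mU (sqU R) (sqU G))) := by
  have hc0 := hc.nonneg
  have ha0 := ha.nonneg
  have k2 := mulU (mulU (mulU ha.2 hc.2 hc0) (le_refl (fx x0)) (fx_nonneg _))
    (mulU (sqrtU h) (sqrtU (le_refl (fx G))) (Real.sqrt_nonneg _)) (by (clear * -; positivity))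
  refine le_trans (le_of_eq ?_) k2
  ring

theorem kk2 {ν Q : ℝ} {n : I} {Q1 : ℕ} (hn : Mem ν n) (hQ : fx Q1 ≤ Q) (hbl : 0 < mL n.1 Q1) :
    4 / Real.pi / (ν * Q) ≤ fx (dU 1399983000000 (mL n.1 Q1)) :=
  divU four_pi_le (mulL hn.1 hQ) hbl

theorem kk3 {ν Q : ℝ} {n : I} {Q1 : ℕ} (hn : Mem ν n) (hQ : fx Q1 ≤ Q) : 0 ≤ 4 / Real.pi / (ν * Q) :=
  div_nonneg (by positivity) (mul_nonneg hn.nonneg ((fx_nonneg _).trans hQ))

theorem xmm_le {c ν a b : ℝ} {A ci n : I} {Q1 x0 G : ℕ} (ha : Mem a A) (hc : Mem c ci) (hn : Mem ν n)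
    (hQ : fx Q1 ≤ gQ c ν a b) : gm c ν a b (fx x0) (fx G) ≤ fx (xmm A ci n Q1 x0 G) := by
  unfold xmm
  cases hbl : Nat.blt 0 (mL n.1 Q1) with
  | false =>
    rw [cond_false, fx_one]
    exact min_le_left _ _
  | true =>
    rw [cond_true]
    rw [blt_iff] at hbl
    rw [gm_eq rfl (kk3 hn hQ)]
    exact minU (le_of_eq fx_one.symm) (kk1 ha hc (kk2 hn hQ hbl))

/-- the evaluator; `z` lower bound of `Z`, `x0` lower bound of `x`, `e2` upper bound of `E`, `G` lower bound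
of `Γ`, `w1`, `w2` upper bounds of the weights, `V` upper bound of `1 + c²/μ²`, `N2` of `1/μ²`. -/
def xg (C : Cl) (q V N2 : ℕ) (a B : I) (z x0 e2 G w1 w2 : ℕ) : Option (ℕ × ℕ) :=
  let Q := ia (im a C.c2) (im C.n B)
  let y := mL z (mL x0 x0)
  let w := dU C.n.2 (mL G Q.1)
  let l := dU (mU C.n.2 B.2) Q.1
  let o := dU (mU a.2 C.c.2) Q.1
  bif Nat.blt 0 Q.1 && Nat.blt 0 (mL G Q.1) && Nat.blt 0 x0 && Nat.ble (3 * SC) (2 * mL G y) &&
      Nat.ble e2 y && Nat.ble SC (2 * mL G (y - e2)) then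
    let r := (SC + xmm a C.c C.n Q.1 x0 G) / 2 + 1
    let FE := mU (sqU (mU q (dU V Q.1) / 2 + 1)) (eN (cl (mL G (y - e2))))
    let v := mU (mU w1 C.c2.2) N2 + w2
    let wo := mU w2 (mU (mU x0 o) (mU x0 o))
    let Wf := mU (mU w1 (mU (mU x0 l) (mU x0 l))) N2 + wo + (mU v w / 2 + 1)
    let Wt := mU r (mU (mU w1 (mU x0 x0)) N2 + wo) + (mU v w / 4 + 1) +
      mU (mU w2 (mU x0 o)) (sqU (mU w 350008700000))
    some (mU FE r, mU FE (min Wf Wt))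
  else none

/-- `√(q V/(2 Q)) e^(-..)` -/
theorem FE_le {q c μ R : ℝ} {qn Vn Q1 : ℕ} (hq : q ≤ fx qn)
    (hV : 1 + c ^ (2 : ℕ) / μ ^ (2 : ℕ) ≤ fx Vn) (hR : fx Q1 ≤ R) (hQ0 : 0 < Q1) :
    √(q * (1 + c ^ (2 : ℕ) / μ ^ (2 : ℕ)) / (2 * R)) ≤ fx (sqU (mU qn (dU Vn Q1) / 2 + 1)) := by
  apply sqrtU
  have hR0 : 0 < R := (fx_pos hQ0).trans_le hR
  have k1 := half_up (mulU hq (divU hV hR hQ0) (by (clear * - hR0; positivity)))
  refine le_trans (le_of_eq ?_) k1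
  field_simp

theorem Wf_le {μ c O L W x0 v1 v2 : ℝ} {xn on ln wn w1 w2 N2 cn : ℕ}
    (hx : 0 ≤ x0) (hO0 : 0 ≤ O) (hL0 : 0 ≤ L) (hW0 : 0 ≤ W)
    (hxn : x0 ≤ fx xn) (hO : O ≤ fx on) (hL : L ≤ fx ln) (hW : W ≤ fx wn) (hv1 : v1 ≤ fx w1)
    (hv2 : v2 ≤ fx w2) (hN2 : 1 / μ ^ (2 : ℕ) ≤ fx N2) (hc2 : c ^ (2 : ℕ) ≤ fx cn) :
    v1 * (x0 * L) ^ (2 : ℕ) / μ ^ (2 : ℕ) + v2 * (x0 * O) ^ (2 : ℕ) + (v1 * c ^ (2 : ℕ) / μ ^ (2 : ℕ) + v2) * W / 2 ≤
      fx (mU (mU w1 (mU (mU xn ln) (mU xn ln))) N2 + mU w2 (mU (mU xn on) (mU xn on)) +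
        (mU (mU (mU w1 cn) N2 + w2) wn / 2 + 1)) := by
  have hXO : x0 * O ≤ fx (mU xn on) := mulU hxn hO hO0
  have hXL : x0 * L ≤ fx (mU xn ln) := mulU hxn hL hL0
  refine addU (addU ?_ ?_) (half_up (mulU (addU ?_ hv2) hW hW0))
  · have k1 := mulU (mulU hv1 (mulU hXL hXL (by (clear * - hx hL0; positivity))) (by (clear * - hx hL0; positivity))) hN2 (by (clear * -; positivity))
    refine le_trans (le_of_eq ?_) k1
    ring
  · rw [pow_two]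
    exact mulU hv2 (mulU hXO hXO (by (clear * - hx hO0; positivity))) (by (clear * - hx hO0; positivity))
  · have k1 := mulU (mulU hv1 hc2 (by (clear * -; positivity))) hN2 (by (clear * -; positivity))
    refine le_trans (le_of_eq ?_) k1
    ring

theorem Wt_le {μ c M O W x0 v1 v2 : ℝ} {xn on rn wn w1 w2 N2 cn : ℕ}
    (hx : 0 ≤ x0) (hO0 : 0 ≤ O) (hW0 : 0 ≤ W) (h1 : 0 ≤ v1) (h2 : 0 ≤ v2)
    (hxn : x0 ≤ fx xn) (hO : O ≤ fx on) (hM : (1 + M) / 2 ≤ fx rn) (hW : W ≤ fx wn)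
    (hv1 : v1 ≤ fx w1) (hv2 : v2 ≤ fx w2) (hN2 : 1 / μ ^ (2 : ℕ) ≤ fx N2) (hc2 : c ^ (2 : ℕ) ≤ fx cn) :
    (1 + M) / 2 * (v1 * x0 ^ (2 : ℕ) / μ ^ (2 : ℕ) + v2 * (x0 * O) ^ (2 : ℕ)) + (v1 * c ^ (2 : ℕ) / μ ^ (2 : ℕ) + v2) * W / 4 +
        v2 * (x0 * O) * √(W * (1 / Real.pi)) ≤
      fx (mU rn (mU (mU w1 (mU xn xn)) N2 + mU w2 (mU (mU xn on) (mU xn on))) +
          (mU (mU (mU w1 cn) N2 + w2) wn / 4 + 1) +
          mU (mU w2 (mU xn on)) (sqU (mU wn 350008700000))) := by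
  have hXO : x0 * O ≤ fx (mU xn on) := mulU hxn hO hO0
  refine addU (addU (mulU hM (addU ?_ ?_) (by (clear * - h1 h2; positivity))) ?_) ?_
  · have k1 := mulU (mulU hv1 (mulU hxn hxn hx) (by (clear * - hx; positivity))) hN2 (by (clear * -; positivity))
    refine le_trans (le_of_eq ?_) k1
    ring
  · rw [pow_two]
    exact mulU hv2 (mulU hXO hXO (by (clear * - hx hO0; positivity))) (by (clear * - hx hO0; positivity))
  · have k0 : v1 * c ^ (2 : ℕ) / μ ^ (2 : ℕ) + v2 ≤ fx (mU (mU w1 cn) N2 + w2) := by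
      refine addU ?_ hv2
      have k1 := mulU (mulU hv1 hc2 (by (clear * -; positivity))) hN2 (by (clear * -; positivity))
      refine le_trans (le_of_eq ?_) k1
      ring
    have k1 := mulU k0 hW hW0
    have k2 := fx_divU (mU (mU (mU w1 cn) N2 + w2) wn) 4 (by norm_num)
    push_cast at k2
    exact (div_le_div_of_nonneg_right k1 (by norm_num : (0:ℝ) ≤ 4)).trans k2
  · exact mulU (mulU hv2 hXO (by (clear * - hx hO0; positivity)))
      (sqrtU (mulU hW inv_pi_le (by (clear * -; positivity)))) (Real.sqrt_nonneg _)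

theorem xg_sound {μ q c ν h τ Γ : ℝ} {C : Cl} (hC : C.Has μ c ν h τ)
    {qn Vn N2 : ℕ} {A B : I} {z x0 e2 G w1 w2 : ℕ} {a b x Z E v1 v2 : ℝ}
    (hc : 0 < c) (hν : 0 < ν) (hq : q ≤ fx qn)
    (hV : 1 + c ^ (2 : ℕ) / μ ^ (2 : ℕ) ≤ fx Vn) (hN2 : 1 / μ ^ (2 : ℕ) ≤ fx N2)
    (ha : Mem a A) (hb : Mem b B) (hb0 : 0 < b) (hz : fx z ≤ Z) (hx : fx x0 ≤ x) (hE : E ≤ fx e2)
    (hG : fx G ≤ Γ) (hv10 : 0 ≤ v1) (hv20 : 0 ≤ v2) (hv1 : v1 ≤ fx w1) (hv2 : v2 ≤ fx w2)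
    {r0 r1 : ℕ} (hr : xg C qn Vn N2 A B z x0 e2 G w1 w2 = some (r0, r1)) :
    gF0 (q * (1 + c ^ (2 : ℕ) / μ ^ (2 : ℕ))) c ν a b x Γ Z E ≤ fx r0 ∧
    gFW (q * (1 + c ^ (2 : ℕ) / μ ^ (2 : ℕ))) μ c ν a b x Γ Z E v1 v2 ≤ fx r1 := by
  unfold xg at hr
  simp only at hr
  have hmQ : Mem (gQ c ν a b) (ia (im A C.c2) (im C.n B)) := (ha.mul hC.hc2).add (hC.hn.mul hb)
  generalize hQe : ia (im A C.c2) (im C.n B) = Q at hr hmQ
  generalize hye : mL z (mL x0 x0) = y at hr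
  cases hbb : (Nat.blt 0 Q.1 && Nat.blt 0 (mL G Q.1) && Nat.blt 0 x0 &&
      Nat.ble (3 * SC) (2 * mL G y) && Nat.ble e2 y && Nat.ble SC (2 * mL G (y - e2))) with
  | false => rw [hbb] at hr; simp at hr
  | true =>
    rw [hbb] at hr
    simp only [cond_true, Option.some.injEq, Prod.mk.injEq] at hr
    obtain ⟨hr0, hr1⟩ := hr
    simp only [Bool.and_eq_true, blt_iff, Nat.ble_eq] at hbb
    obtain ⟨⟨⟨⟨⟨hQ0, hGQ⟩, hx00⟩, h3⟩, hey⟩, h1⟩ := hbb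
    have hGpos : 0 < G := by
      rcases Nat.eq_zero_or_pos G with h0 | h0
      · rw [h0] at hGQ; simp [mL] at hGQ
      · exact h0
    have hΓ0 : 0 < fx G := fx_pos hGpos
    have hX0 : 0 < fx x0 := fx_pos hx00
    have ha0 : 0 ≤ a := ha.nonneg
    have hR0 : 0 < gQ c ν a b := (fx_pos hQ0).trans_le hmQ.1
    have hZ0 : 0 ≤ Z := (fx_nonneg _).trans hz
    have hy1 : fx y ≤ Z * fx x0 ^ (2 : ℕ) := by
      rw [← hye, pow_two]
      exact mulL hz (mL_le _ _)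
    have c3 : (3 : ℝ) ≤ 2 * (fx G * (Z * fx x0 ^ (2 : ℕ))) := by
      have k1 : fx (3 * SC) ≤ fx (2 * mL G y) := fx_mono h3
      have k2 : fx (3 * SC) = 3 := by unfold fx SC; norm_num
      have k3 : fx (2 * mL G y) = 2 * fx (mL G y) := by unfold fx; push_cast; ring
      have k4 := mulL (le_refl (fx G)) hy1
      rw [k2, k3] at k1
      linarith only [k1, k4]
    have hyE : fx (y - e2) ≤ Z * fx x0 ^ (2 : ℕ) - E := subL hy1 hE hey
    have hGd : fx (mL G (y - e2)) ≤ fx G * (Z * fx x0 ^ (2 : ℕ) - E) := mulL (le_refl _) hyE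
    have c1 : (1 : ℝ) ≤ 2 * (fx G * (Z * fx x0 ^ (2 : ℕ) - E)) := by
      have k1 : fx SC ≤ fx (2 * mL G (y - e2)) := fx_mono h1
      have k3 : fx (2 * mL G (y - e2)) = 2 * fx (mL G (y - e2)) := by unfold fx; push_cast; ring
      rw [fx_one, k3] at k1
      linarith only [hGd, k1]
    have hM : Mono x (fx x0) Γ (fx G) Z E := ⟨hX0, hx, hΓ0, hG, hZ0, c3, c1⟩
    have hEx1 := expCl hGd
    have hS := FE_le hq hV hmQ.1 hQ0
    have hFE := mulU hS hEx1 (Real.exp_pos _).le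
    have hmn := xmm_le (x0 := x0) (G := G) ha hC.hc hC.hn hmQ.1
    have hρ : (1 + gm c ν a b (fx x0) (fx G)) / 2 ≤ fx ((SC + xmm A C.c C.n Q.1 x0 G) / 2 + 1) :=
      half_up (addU (le_of_eq fx_one.symm) hmn)
    have hm0 : 0 ≤ gm c ν a b (fx x0) (fx G) := by
      unfold gm
      exact le_min zero_le_one (by (clear * - ha0 hc hX0 hΓ0 hν hR0; positivity))
    have hO1 : a * c / gQ c ν a b ≤ fx (dU (mU A.2 C.c.2) Q.1) :=
      divU (mulU ha.2 hC.hc.2 hc.le) hmQ.1 hQ0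
    have hL1 : ν * b / gQ c ν a b ≤ fx (dU (mU C.n.2 B.2) Q.1) :=
      divU (mulU hC.hn.2 hb.2 hb0.le) hmQ.1 hQ0
    have hW1 : ν / (fx G * gQ c ν a b) ≤ fx (dU C.n.2 (mL G Q.1)) :=
      divU hC.hn.2 (mulL (le_refl _) hmQ.1) hGQ
    have hc2 := hC.hc2.2
    constructor
    · refine (gF0_mono hM hc hν ha0 hb0).trans ?_
      rw [← hr0]
      have k1 := mulU hFE hρ (by (clear * - hm0; positivity))
      refine le_trans (le_of_eq ?_) k1
      unfold gF0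
      ring
    · refine (gFW_mono hM hc hν ha0 hb0 hv10 hv20).trans ?_
      rw [← hr1]
      unfold gFW gWf gWt
      refine mulU hFE (minU ?_ ?_) ?_
      · exact Wf_le hX0.le (by (clear * - ha0 hc hR0; positivity)) (by (clear * - hν hb0 hR0; positivity)) (by (clear * - hν hΓ0 hR0; positivity))
          le_rfl hO1 hL1 hW1 hv1 hv2 hN2 hc2
      · exact Wt_le hX0.le (by (clear * - ha0 hc hR0; positivity)) (by (clear * - hν hΓ0 hR0; positivity))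
          hv10 hv20 le_rfl hO1 hρ hW1 hv1 hv2 hN2 hc2
      · exact le_min (by (clear * - hv10 hX0 hν hb0 hR0 hv20 hc hΓ0; positivity)) (by (clear * - hm0 hv10 hX0 hv20 hc hν hΓ0 hR0 ha0; positivity))

end SokamCel

end

/-! ### Lib_MP_af4de1_v3.CelL5 -/

section
namespace SokamFN
end SokamFN
/-!
# Cells, left side: the total and the checker

`tM0, tMW` main part (truncated), `tI0, tIW` image (main part, truncated), `LJ0, LJW` image behind, `LB0, LBW`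
behind, `LF0, LFW` front.
-/

set_option autoImplicit false

namespace SokamCel

open SokamFN

/-- main part, `P I0` -/
noncomputable def tM0 (μ q g c ν h τ Γ β σ : ℝ) : ℝ :=
  gF0 (q * (1 + c ^ (2 : ℕ) / μ ^ (2 : ℕ))) c ν (La μ ν ((1 + τ) * h * c / μ))
    (β * Real.exp (-(σ * ((1 + τ) * h * c / μ)))) (1 + τ) Γ
    (LZ μ c ν ((1 + τ) * h) ((1 + τ) * h * c / μ) β σ) (g / 2 * τ ^ (2 : ℕ))

/-- main part, `P IW R/h²` (base point `1`) -/
noncomputable def tMW (μ q g c ν h τ Γ β σ : ℝ) : ℝ :=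
  gFW (q * (1 + c ^ (2 : ℕ) / μ ^ (2 : ℕ))) μ c ν (La μ ν ((1 + τ) * h * c / μ))
    (β * Real.exp (-(σ * ((1 + τ) * h * c / μ)))) (1 + τ) Γ
    (LZ μ c ν ((1 + τ) * h) ((1 + τ) * h * c / μ) β σ) (g / 2 * τ ^ (2 : ℕ)) 1 1

/-- `α ν` of the image -/
noncomputable def iA (μ c ν h τ : ℝ) : ℝ := Lr μ ν (Ltp h τ * c / μ)

/-- `T'` of the image -/
noncomputable def iT (μ c h τ : ℝ) : ℝ := min 1 (Ltp h τ * c / μ)

/-- image, main part, `P I0` -/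
noncomputable def tI0 (μ q g c ν h τ Γ : ℝ) : ℝ :=
  gF0 (q * (1 + c ^ (2 : ℕ) / μ ^ (2 : ℕ))) c ν (iA μ c ν h τ) (11 / 25) (Ltp h τ / h) Γ
    (1 / (c ^ (2 : ℕ) / (11 / 25) + ν / iA μ c ν h τ)) (g / 2 * τ ^ (2 : ℕ))

/-- image, main part, `P IW R/h²` -/
noncomputable def tIW (μ q g c ν h τ Γ : ℝ) : ℝ :=
  gFW (q * (1 + c ^ (2 : ℕ) / μ ^ (2 : ℕ))) μ c ν (iA μ c ν h τ) (11 / 25) (Ltp h τ / h) Γ
    (1 / (c ^ (2 : ℕ) / (11 / 25) + ν / iA μ c ν h τ)) (g / 2 * τ ^ (2 : ℕ))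
    (((Real.exp (iT μ c h τ) - 1) / iT μ c h τ) ^ (2 : ℕ)) (Real.exp (iT μ c h τ))

/-- sum of the other zones, `P I0` -/
noncomputable def lI (μ q g c ν h τ Γ U : ℝ) : ℝ :=
  LB0 μ q g c ν h τ Γ + (if (1 + τ) * h ≤ 6 / 5 then LF0 μ q g c ν h τ Γ else 0) +
    (tI0 μ q g c ν h τ Γ + LJ0 μ q g c ν h τ Γ) + U

/-- sum of the other zones, `P IW R/h²` -/
noncomputable def lW (μ q g c ν h τ Γ U : ℝ) : ℝ :=
  LB0 μ q g c ν h τ Γ * LBW μ c ν h τ Γ +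
    (if (1 + τ) * h ≤ 6 / 5 then LF0 μ q g c ν h τ Γ * (LFW μ c ν τ Γ / c ^ (2 : ℕ)) else 0) +
    (tIW μ q g c ν h τ Γ + LJ0 μ q g c ν h τ Γ * LJW μ c ν h τ Γ) + U

/-- sum of the other zones, `P Ie/Γ` -/
noncomputable def lE (μ q g c ν h τ Γ U : ℝ) : ℝ :=
  (LB0 μ q g c ν h τ Γ + (if (1 + τ) * h ≤ 6 / 5 then LF0 μ q g c ν h τ Γ else 0) +
    (Real.exp (iT μ c h τ) * tI0 μ q g c ν h τ Γ + Le μ c h τ * LJ0 μ q g c ν h τ Γ)) / Γ + U

/-- the total weight -/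
noncomputable def lT (μ q g kk c ν h τ Γ β σ U0 UW : ℝ) : ℝ :=
  tMW μ q g c ν h τ Γ β σ + (kk * τ) ^ (2 : ℕ) * tM0 μ q g c ν h τ Γ β σ +
    (√(lW μ q g c ν h τ Γ UW) + kk * τ * √(lI μ q g c ν h τ Γ U0)) ^ (2 : ℕ)

/-- the three bounds -/
structure LOk (μ q g kk c ν h τ Γ β σ U0 UW Ue F0 F1 F2 : ℝ) : Prop where
  f0 : tM0 μ q g c ν h τ Γ β σ + lI μ q g c ν h τ Γ U0 ≤ F0
  f1 : √((tM0 μ q g c ν h τ Γ β σ + lI μ q g c ν h τ Γ U0) *
    lT μ q g kk c ν h τ Γ β σ U0 UW) ≤ F1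
  f2 : lT μ q g kk c ν h τ Γ β σ U0 UW + tM0 μ q g c ν h τ Γ β σ / Γ + lE μ q g c ν h τ Γ Ue ≤ F2

end SokamCel

end

/-! ### Lib_MP_af4de1_v3.CelL5a -/

section
namespace SokamFN
end SokamFN
/-!
# Cells, left side: evaluators of the total
-/

set_option autoImplicit false

namespace SokamCel

open SokamFN

theorem bif_some {α : Type*} {b : Bool} {x : Option α} {r : α}
    (h : (bif b then x else none) = some r) : b = true ∧ x = some r := by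
  cases b with
  | false => simp at h
  | true => exact ⟨rfl, h⟩

/-! ### evaluators -/

/-- lower bound of `LZ` -/
def xz (P : Par) (C : Cl) (B : I) (s : ℕ) : Option ℕ :=
  let Y := ia (id' C.c2 B) (id' C.n C.a)
  let Z := dL SC Y.2
  let pen := bif Nat.ble SC s then 0 else
    mU (mU (mU (mU (mU (SC - s) (SC - s)) (SC - s)) 162890611523) (mU (mU C.t.2 B.2) P.N.2)) (dU SC C.c.1)
  bif Nat.blt 0 B.1 && Nat.blt 0 C.a.1 && (Nat.ble SC s || Nat.blt 0 C.c.1) &&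
      Nat.ble s SC && Nat.ble pen Z then some (Z - pen) else none

theorem xz_sound {P : Par} {μ q g kk c ν h τ β σ : ℝ} (hP : P.Ok μ q g kk) {C : Cl}
    (hC : C.Has μ c ν h τ) {B : I} {s : ℕ} (hB : Mem (β * Real.exp (-(σ * ((1 + τ) * h * c / μ)))) B)
    (hs : σ = fx s) (hc : 0 < c) (hν : 0 < ν) (hh : 0 < h) (hτ : 0 ≤ τ)
    {z : ℕ} (hx : xz P C B s = some z) :
    fx z ≤ LZ μ c ν ((1 + τ) * h) ((1 + τ) * h * c / μ) β σ := by
  have hμ := hP.pos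
  unfold xz at hx
  simp only at hx
  obtain ⟨T, hT⟩ : ∃ T, T = (1 + τ) * h * c / μ := ⟨_, rfl⟩
  obtain ⟨A, hA⟩ : ∃ A, A = La μ ν T := ⟨_, rfl⟩
  have hCa : Mem A C.a := by rw [hA, hT]; exact hC.ha
  rw [← hT] at hB
  obtain ⟨b', hb''⟩ : ∃ b', b' = β * Real.exp (-(σ * T)) := ⟨_, rfl⟩
  rw [← hb''] at hB
  generalize hYe : ia (id' C.c2 B) (id' C.n C.a) = Y at hx
  generalize hZe : dL SC Y.2 = Z at hx
  generalize hpe : (bif Nat.ble SC s then 0 else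
    mU (mU (mU (mU (mU (SC - s) (SC - s)) (SC - s)) 162890611523) (mU (mU C.t.2 B.2) P.N.2))
      (dU SC C.c.1)) = pen at hx
  cases hbb : (Nat.blt 0 B.1 && Nat.blt 0 C.a.1 && (Nat.ble SC s || Nat.blt 0 C.c.1) &&
      Nat.ble s SC && Nat.ble pen Z) with
  | false => rw [hbb] at hx; simp at hx
  | true =>
    rw [hbb] at hx
    simp only [cond_true, Option.some.injEq] at hx
    simp only [Bool.and_eq_true, Bool.or_eq_true, blt_iff, Nat.ble_eq] at hbb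
    obtain ⟨⟨⟨⟨hB0, ha0⟩, hsc⟩, hs1⟩, hpZ⟩ := hbb
    have hmY : Mem (c ^ (2 : ℕ) / b' + ν / A) Y := by
      rw [← hYe]; exact (hC.hc2.div hB hB0).add (hC.hn.div hCa ha0)
    have hA0 : 0 < A := (fx_pos ha0).trans_le hCa.1
    have hb0 : 0 < b' := (fx_pos hB0).trans_le hB.1
    have hmZ : fx Z ≤ 1 / (c ^ (2 : ℕ) / b' + ν / A) := by
      rw [← hZe]
      exact divL (le_of_eq fx_one) hmY.2 (by positivity)
    have hσ1 : σ ≤ 1 := by rw [hs, ← fx_one]; exact fx_mono hs1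
    have hpen : 4 / 27 * (1 - σ) ^ (3 : ℕ) * ((1 + τ) * h * b' / (μ * c)) ≤ fx pen := by
      cases hb2 : Nat.ble SC s with
      | true =>
        rw [Nat.ble_eq] at hb2
        have h2 : s = SC := le_antisymm hs1 hb2
        have h3 : σ = 1 := by rw [hs, h2, fx_one]
        rw [h3]
        have := fx_nonneg pen
        norm_num
        exact this
      | false =>
        rw [hb2, cond_false] at hpe
        have h1 : 0 < C.c.1 := by
          rcases hsc with h | h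
          · rw [← Nat.ble_eq] at h; rw [h] at hb2; exact absurd hb2 (by simp)
          · exact h
        rw [← hpe]
        have k1 : 1 - σ ≤ fx (SC - s) := by
          rw [hs]
          exact subU (le_of_eq fx_one.symm) le_rfl
        have k0 : 0 ≤ 1 - σ := by linarith
        have k2 := mulU k1 k1 k0
        have k3 := mulU k2 k1 k0
        have k4 : (4 / 27 : ℝ) ≤ fx 162890611523 := by unfold fx; norm_num
        have k5 := mulU k3 k4 (by norm_num)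
        have k6 := mulU (mulU hC.ht.2 hB.2 hb0.le) hP.hN.2 (by positivity)
        have k7 := mulU k5 k6 (by positivity)
        have k8 : 1 / c ≤ fx (dU SC C.c.1) := divU (le_of_eq fx_one.symm) hC.hc.1 h1
        have k9 := mulU k7 k8 (by positivity)
        refine le_trans (le_of_eq ?_) k9
        field_simp
    have h1 := subL hmZ hpen hpZ
    rw [← hx]
    refine h1.trans (le_of_eq ?_)
    unfold LZ
    rw [← hT, ← hb'', ← hA]

/-- `(e^T - 1)/T ≤ (1 + e^T)/2` -/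
theorem eS_le {T : ℝ} (hT : 0 < T) : (Real.exp T - 1) / T ≤ (1 + Real.exp T) / 2 := by
  have hd : ∀ x, HasDerivAt (fun x : ℝ => (1 + Real.exp x) / 2 * x - (Real.exp x - 1))
      ((1 + Real.exp x * (x - 1)) / 2) x := by
    intro x
    have h1 : HasDerivAt (fun x : ℝ => (1 + Real.exp x) / 2) (Real.exp x / 2) x :=
      ((Real.hasDerivAt_exp x).const_add 1).div_const 2
    have h2 := h1.mul (hasDerivAt_id x)
    have h3 : HasDerivAt (fun x : ℝ => Real.exp x - 1) (Real.exp x) x :=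
      (Real.hasDerivAt_exp x).sub_const 1
    refine HasDerivAt.congr_deriv (h2.sub h3) ?_
    simp only [id_eq]
    ring
  have hm : MonotoneOn (fun x : ℝ => (1 + Real.exp x) / 2 * x - (Real.exp x - 1)) (Set.Ici 0) := by
    refine monotoneOn_of_deriv_nonneg (convex_Ici 0)
      (fun y _ => (hd y).continuousAt.continuousWithinAt)
      (fun y _ => (hd y).differentiableAt.differentiableWithinAt) fun y hy => ?_
    rw [(hd y).deriv]
    have h1 := Real.add_one_le_exp (-y)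
    have h2 : Real.exp y * Real.exp (-y) = 1 := by rw [← Real.exp_add]; simp
    have h3 := Real.exp_pos y
    nlinarith
  have h := hm (Set.mem_Ici.2 le_rfl) (Set.mem_Ici.2 hT.le) hT.le
  simp only [Real.exp_zero] at h
  rw [div_le_iff₀ hT]
  norm_num at h
  linarith

/-- interval of `t'` -/
def xtp (C : Cl) : I := (6908231557316 - C.t.2, 6908451460481 - C.t.1)

theorem mem_xtp {μ c ν h τ : ℝ} {C : Cl} (hC : C.Has μ c ν h τ) (hle : C.t.2 ≤ 6908231557316) :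
    Mem (Ltp h τ) (xtp C) := ⟨subL two_pi_lo hC.ht.2 hle, subU two_pi_hi hC.ht.1⟩

/-- last step of `xjm` -/
def xjg (C : Cl) (qn e2 Vn N2 G : ℕ) (a B : I) (z x0 v f : ℕ) : Option (ℕ × ℕ × ℕ) :=
  match xg C qn Vn N2 a B z x0 e2 G v f with
  | some (i0, iW) => some (i0, iW, mU f i0)
  | none => none

theorem xjg_sound {μ c ν h τ : ℝ} {C : Cl} (hC : C.Has μ c ν h τ) {qn e2 Vn N2 G z x0 v f : ℕ}
    {a B : I} {q A b Z x E Γ w e : ℝ} (hq0 : 0 ≤ q) (hc : 0 < c) (hν : 0 < ν) (hx0' : 0 ≤ x)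
    (hΓ0 : 0 ≤ Γ) (hA0 : 0 ≤ A)
    (hq : q ≤ fx qn) (hV : 1 + c ^ (2 : ℕ) / μ ^ (2 : ℕ) ≤ fx Vn) (hN2 : 1 / μ ^ (2 : ℕ) ≤ fx N2) (ha : Mem A a)
    (hb : Mem b B) (hb0 : 0 < b) (hz : fx z ≤ Z) (hx : fx x0 ≤ x) (hE : E ≤ fx e2) (hG : fx G ≤ Γ)
    (hw : 0 ≤ w) (he : 0 ≤ e) (hwv : w ≤ fx v) (hef : e ≤ fx f)
    {a0 a1 a2 : ℕ} (hr : xjg C qn e2 Vn N2 G a B z x0 v f = some (a0, a1, a2)) :
    gF0 (q * (1 + c ^ (2 : ℕ) / μ ^ (2 : ℕ))) c ν A b x Γ Z E ≤ fx a0 ∧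
    gFW (q * (1 + c ^ (2 : ℕ) / μ ^ (2 : ℕ))) μ c ν A b x Γ Z E w e ≤ fx a1 ∧
    e * gF0 (q * (1 + c ^ (2 : ℕ) / μ ^ (2 : ℕ))) c ν A b x Γ Z E ≤ fx a2 := by
  unfold xjg at hr
  cases hg : xg C qn Vn N2 a B z x0 e2 G v f with
  | none => rw [hg] at hr; simp at hr
  | some r =>
    obtain ⟨i0, iW⟩ := r
    rw [hg] at hr
    simp only [Option.some.injEq, Prod.mk.injEq] at hr
    obtain ⟨h0, h1, h2⟩ := hr
    have hs := xg_sound hC hc hν hq hV hN2 ha hb hb0 hz hx hE hG hw he hwv hef hg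
    refine ⟨?_, ?_, ?_⟩
    · rw [← h0]; exact hs.1
    · rw [← h1]; exact hs.2
    · rw [← h2]
      refine mulU hef hs.1 ?_
      unfold gF0
      have : 0 ≤ gm c ν A b x Γ := by
        unfold gm
        refine le_min zero_le_one ?_
        positivity
      positivity

/-- `(e + 1)/2` squared -/
def sqh (f : ℕ) : ℕ := mU ((SC + f) / 2 + 1) ((SC + f) / 2 + 1)

theorem sqh_sound {T : ℝ} (hT : 0 < T) {f : ℕ} (hf : Real.exp T ≤ fx f) :
    ((Real.exp T - 1) / T) ^ (2 : ℕ) ≤ fx (sqh f) := by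
  have he1 : (Real.exp T - 1) / T ≤ fx ((SC + f) / 2 + 1) :=
    (eS_le hT).trans (half_up (addU (le_of_eq fx_one.symm) hf))
  have he0 : 0 ≤ (Real.exp T - 1) / T := by
    have := Real.add_one_le_exp T
    exact div_nonneg (by linarith) hT.le
  rw [pow_two]; exact mulU he1 he1 he0

/-- the image, main part: `(I0, IW, Ie)` -/
def xjm (P : Par) (C : Cl) (e2 Vn N2 G : ℕ) : Option (ℕ × ℕ × ℕ) :=
  let tp := xtp C
  let T := im (im tp C.c) P.N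
  let a := xr P C.n T
  let Y := ia (id' C.c2 (ic 11 25)) (id' C.n a)
  let f := dU SC (eNL (min SC T.2))
  bif Nat.blt 0 a.1 && Nat.blt 0 (eNL (min SC T.2)) && Nat.ble C.t.2 6908231557316 then
    xjg C P.q.2 e2 Vn N2 G a (ic 11 25) (dL SC Y.2) (dL tp.1 C.h.2) (sqh f) f
  else none

theorem xjm_sound {P : Par} {μ q g kk c ν h τ Γ : ℝ} (hP : P.Ok μ q g kk) {C : Cl}
    (hC : C.Has μ c ν h τ) {e2 Vn N2 G : ℕ} (hE2 : g / 2 * τ ^ (2 : ℕ) ≤ fx e2)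
    (hVn : 1 + c ^ (2 : ℕ) / μ ^ (2 : ℕ) ≤ fx Vn) (hN2 : 1 / μ ^ (2 : ℕ) ≤ fx N2)
    (hG : fx G ≤ Γ) (hc : 0 < c) (hν : 0 < ν) (hh : 0 < h) (hν1 : ν ≤ 1)
    (htp : (1 + τ) * h ≤ Real.pi)
    {a0 a1 a2 : ℕ} (hx : xjm P C e2 Vn N2 G = some (a0, a1, a2)) :
    tI0 μ q g c ν h τ Γ ≤ fx a0 ∧ tIW μ q g c ν h τ Γ ≤ fx a1 ∧
    Real.exp (iT μ c h τ) * tI0 μ q g c ν h τ Γ ≤ fx a2 := by
  have hμ := hP.pos
  have hpi := Real.pi_pos
  have hΓ0 : 0 ≤ Γ := (fx_nonneg G).trans hG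
  unfold xjm at hx
  simp only at hx
  generalize hTe : im (im (xtp C) C.c) P.N = T at hx
  generalize hae : xr P C.n T = a at hx
  generalize hYe : ia (id' C.c2 (ic 11 25)) (id' C.n a) = Y at hx
  generalize hfe : dU SC (eNL (min SC T.2)) = f at hx
  generalize hvf : sqh f = v at hx
  generalize hBe : ic 11 25 = B at hx hYe
  obtain ⟨hbb, hx⟩ := bif_some hx
  · simp only [Bool.and_eq_true, blt_iff, Nat.ble_eq] at hbb
    obtain ⟨⟨haa, hfN⟩, htle⟩ := hbb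
    have hmtp := mem_xtp hC htle
    have htp0 : 0 < Ltp h τ := by unfold Ltp; linarith
    have hmT : Mem (Ltp h τ * c / μ) T := by
      have k := (hmtp.mul hC.hc).mul hP.hN
      rw [mul_one_div] at k
      rw [← hTe]; exact k
    have hT0 : 0 < Ltp h τ * c / μ := by positivity
    have hmA : Mem (iA μ c ν h τ) a := by
      rw [← hae]; exact mem_xr hP hC.hn hmT hν1 hT0.le
    have hA0 : 0 < iA μ c ν h τ := (fx_pos haa).trans_le hmA.1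
    have hm11 : Mem (11 / 25 : ℝ) B := by
      rw [← hBe]; exact_mod_cast Mem.const 11 25 (by norm_num)
    have h11 : 0 < B.1 := by rw [← hBe]; unfold ic SC; norm_num
    have hmY : Mem (c ^ (2 : ℕ) / (11 / 25) + ν / iA μ c ν h τ) Y := by
      rw [← hYe]; exact (hC.hc2.div hm11 h11).add (hC.hn.div hmA haa)
    have hZ1 : fx (dL SC Y.2) ≤ 1 / (c ^ (2 : ℕ) / (11 / 25) + ν / iA μ c ν h τ) :=
      divL (le_of_eq fx_one) hmY.2 (by positivity)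
    have hX : fx (dL (xtp C).1 C.h.2) ≤ Ltp h τ / h := divL hmtp.1 hC.hh.2 hh
    have hf1 : Real.exp (iT μ c h τ) ≤ fx f := by
      rw [← hfe]
      have k1 : min 1 (Ltp h τ * c / μ) ≤ fx (min SC T.2) := minU (le_of_eq fx_one.symm) hmT.2
      exact expUp k1 hfN
    have hiT : 0 < iT μ c h τ := lt_min one_pos hT0
    have hv1 := sqh_sound hiT hf1
    rw [hvf] at hv1
    have hq0 : 0 ≤ q := hP.hq.nonneg
    generalize dL SC Y.2 = z at hx hZ1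
    generalize dL (xtp C).1 C.h.2 = x0 at hx hX
    exact xjg_sound hC hq0 hc hν (by positivity) hΓ0 hA0.le hP.hq.2 hVn hN2 hmA hm11 (by norm_num)
      hZ1 hX hE2 hG (sq_nonneg _) (Real.exp_pos _).le hv1 hf1 hx

/-- the image, part behind: `(J0, J0 JW, e J0)` -/
def xjb (P : Par) (C : Cl) (e2 Vn N2 G : ℕ) : Option (ℕ × ℕ × ℕ) :=
  let tp := xtp C
  let T := im (im (ia tp (ic 6 5)) C.c) P.N
  let a := xr P C.n T
  let Q := ia (im a C.c2) (im C.n (ic 11 25))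
  let x0 := dL tp.1 C.h.2
  let y := mL (dL a.1 C.n.2) (mL x0 x0)
  let e := dU SC (eNL (min SC T.2))
  let w := dU C.n.2 (mL G Q.1)
  let o := mU (mU ((SC + e) / 2 + 1) ((SC + e) / 2 + 1)) N2
  bif Nat.blt 0 Q.1 && Nat.blt 0 (mL G Q.1) &&
      Nat.blt 0 x0 && Nat.ble SC (mL G y) && Nat.ble e2 y &&
      Nat.blt 0 (eNL (min SC T.2)) && Nat.ble C.t.2 6908231557316 then
    let J0 := mU (sqU (mU P.q.2 (dU Vn Q.1) / 2 + 1) / 2 + 1) (eN (cl (mL G (y - e2))))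
    let JW := mU o (mU x0 x0 + mU (2 * x0) (mU C.c.2 (sqU (mU w 350008700000)))) +
        (mU (mU o C.c2.2 + e) w / 2 + 1)
    some (J0, mU J0 JW, mU e J0)
  else none

theorem JW_le {c O E W X : ℝ} {on en xn wn cn c2n : ℕ} (hO0 : 0 ≤ O) (hX0 : 0 ≤ X) (hc0 : 0 ≤ c)
    (hW0 : 0 ≤ W) (hO : O ≤ fx on) (hE : E ≤ fx en) (hX : X ≤ fx xn) (hW : W ≤ fx wn)
    (hc : c ≤ fx cn) (hc2 : c ^ (2 : ℕ) ≤ fx c2n) :
    O * X ^ (2 : ℕ) + (O * 2 * (c * √(W * (1 / Real.pi)))) * X + (O * c ^ (2 : ℕ) + E) * W / 2 ≤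
      fx (mU on (mU xn xn + mU (2 * xn) (mU cn (sqU (mU wn 350008700000)))) +
        (mU (mU on c2n + en) wn / 2 + 1)) := by
  have h1 : X ^ (2 : ℕ) ≤ fx (mU xn xn) := by rw [pow_two]; exact mulU hX hX hX0
  have h2 : √(W * (1 / Real.pi)) ≤ fx (sqU (mU wn 350008700000)) :=
    sqrtU (mulU hW inv_pi_le (by positivity))
  have h3 : 2 * X ≤ fx (2 * xn) := two_up hX
  have h4 := mulU hO (addU h1 (mulU h3 (mulU hc h2 (Real.sqrt_nonneg _)) (by positivity)))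
    (by positivity)
  have h5 := half_up (mulU (addU (mulU hO hc2 (by positivity)) hE) hW hW0)
  refine le_trans (le_of_eq ?_) (addU h4 h5)
  ring

theorem xjb_sound {P : Par} {μ q g kk c ν h τ Γ : ℝ} (hP : P.Ok μ q g kk) {C : Cl}
    (hC : C.Has μ c ν h τ) {e2 Vn N2 G : ℕ} (hE2 : g / 2 * τ ^ (2 : ℕ) ≤ fx e2)
    (hVn : 1 + c ^ (2 : ℕ) / μ ^ (2 : ℕ) ≤ fx Vn) (hN2 : 1 / μ ^ (2 : ℕ) ≤ fx N2)
    (hG : fx G ≤ Γ) (hc : 0 < c) (hν : 0 < ν) (hh : 0 < h) (hν1 : ν ≤ 1)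
    (htp : (1 + τ) * h ≤ Real.pi)
    {a0 a1 a2 : ℕ} (hx : xjb P C e2 Vn N2 G = some (a0, a1, a2)) :
    LJ0 μ q g c ν h τ Γ ≤ fx a0 ∧ LJ0 μ q g c ν h τ Γ * LJW μ c ν h τ Γ ≤ fx a1 ∧
    Le μ c h τ * LJ0 μ q g c ν h τ Γ ≤ fx a2 := by
  have hμ := hP.pos
  have hpi := Real.pi_pos
  unfold xjb at hx
  simp only at hx
  generalize hTe : im (im (ia (xtp C) (ic 6 5)) C.c) P.N = T at hx
  generalize hae : xr P C.n T = a at hx
  generalize hQe : ia (im a C.c2) (im C.n (ic 11 25)) = Q at hx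
  generalize hx0e : dL (xtp C).1 C.h.2 = x0 at hx
  generalize hye : mL (dL a.1 C.n.2) (mL x0 x0) = y at hx
  generalize hee : dU SC (eNL (min SC T.2)) = e at hx
  generalize hwe : dU C.n.2 (mL G Q.1) = w at hx
  generalize hoe : mU (mU ((SC + e) / 2 + 1) ((SC + e) / 2 + 1)) N2 = o at hx
  cases hbb : (Nat.blt 0 Q.1 && Nat.blt 0 (mL G Q.1) &&
      Nat.blt 0 x0 && Nat.ble SC (mL G y) && Nat.ble e2 y &&
      Nat.blt 0 (eNL (min SC T.2)) && Nat.ble C.t.2 6908231557316) with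
  | false => rw [hbb] at hx; simp at hx
  | true =>
    rw [hbb] at hx
    simp only [cond_true, Option.some.injEq, Prod.mk.injEq] at hx
    obtain ⟨ha0, ha1, ha2⟩ := hx
    simp only [Bool.and_eq_true, blt_iff, Nat.ble_eq] at hbb
    obtain ⟨⟨⟨⟨⟨⟨hQ0, hGQ⟩, hx00⟩, hGy⟩, hey⟩, heN⟩, htle⟩ := hbb
    have hmtp := mem_xtp hC htle
    have htp0 : 0 < Ltp h τ := by unfold Ltp; linarith
    have hmT : Mem (LT3 μ c h τ) T := by
      have k := ((hmtp.add (Mem.const 6 5 (by norm_num))).mul hC.hc).mul hP.hN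
      rw [mul_one_div] at k
      rw [← hTe]
      unfold LT3
      exact_mod_cast k
    have hT0 : 0 ≤ LT3 μ c h τ := by unfold LT3; positivity
    have hmA : Mem (Lr μ ν (LT3 μ c h τ)) a := by
      rw [← hae]; exact mem_xr hP hC.hn hmT hν1 hT0
    have hm11 : Mem (11 / 25 : ℝ) (ic 11 25) := by exact_mod_cast Mem.const 11 25 (by norm_num)
    have hmQ : Mem (LQi μ c ν (LT3 μ c h τ)) Q := by
      rw [← hQe]; exact (hmA.mul hC.hc2).add (hC.hn.mul hm11)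
    have hR0 : 0 < LQi μ c ν (LT3 μ c h τ) := (fx_pos hQ0).trans_le hmQ.1
    have hZ1 : fx (dL a.1 C.n.2) ≤ Lr μ ν (LT3 μ c h τ) / ν := divL hmA.1 hC.hn.2 hν
    have hGpos : 0 < G := by
      rcases Nat.eq_zero_or_pos G with h0 | h0
      · rw [h0] at hGQ; simp [mL] at hGQ
      · exact h0
    have hΓ0 : 0 < Γ := (fx_pos hGpos).trans_le hG
    have hX0 : 0 < fx x0 := fx_pos hx00
    have hXx : fx x0 ≤ Ltp h τ / h := by
      rw [← hx0e]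
      exact divL hmtp.1 hC.hh.2 hh
    have hy1 : fx y ≤ Lr μ ν (LT3 μ c h τ) / ν * fx x0 ^ (2 : ℕ) := by
      rw [← hye, pow_two]; exact mulL hZ1 (mL_le _ _)
    have hΓy : 1 ≤ Γ * (Lr μ ν (LT3 μ c h τ) / ν * fx x0 ^ (2 : ℕ)) := by
      rw [← fx_one]
      exact (fx_mono hGy).trans (mulL hG hy1)
    have hE := expCl (mulL hG (subL hy1 hE2 hey))
    have hq0 : 0 ≤ q := hP.hq.nonneg
    have hS : √(q * (1 + c ^ (2 : ℕ) / μ ^ (2 : ℕ)) / (2 * LQi μ c ν (LT3 μ c h τ))) / 2 ≤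
        fx (sqU (mU P.q.2 (dU Vn Q.1) / 2 + 1) / 2 + 1) :=
      half_up (FE_le hP.hq.2 hVn hmQ.1 hQ0)
    have hw1 : ν / (Γ * LQi μ c ν (LT3 μ c h τ)) ≤ fx w := by
      rw [← hwe]
      exact divU hC.hn.2 (mulL hG hmQ.1) hGQ
    have hee1 : Le μ c h τ ≤ fx e := by
      rw [← hee]
      have k1 : min 1 (LT3 μ c h τ) ≤ fx (min SC T.2) := minU (le_of_eq fx_one.symm) hmT.2
      exact expUp k1 heN
    have hE10 : 0 < Le μ c h τ := Real.exp_pos _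
    have ho1 : ((1 + Le μ c h τ) / 2) ^ (2 : ℕ) / μ ^ (2 : ℕ) ≤ fx o := by
      have k1 : (1 + Le μ c h τ) / 2 ≤ fx ((SC + e) / 2 + 1) := half_up (addU (le_of_eq fx_one.symm) hee1)
      have k2 := mulU (mulU k1 k1 (by positivity)) hN2 (by positivity)
      rw [← hoe]
      refine le_trans (le_of_eq ?_) k2
      ring
    obtain ⟨O, hO⟩ : ∃ O, O = ((1 + Le μ c h τ) / 2) ^ (2 : ℕ) / μ ^ (2 : ℕ) := ⟨_, rfl⟩
    rw [← hO] at ho1
    have hO0 : 0 ≤ O := by rw [hO]; positivity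
    have hw0 : 0 ≤ ν / (Γ * LQi μ c ν (LT3 μ c h τ)) := by positivity
    have hJW := JW_le hO0 hX0.le hc.le hw0 ho1 hee1 le_rfl hw1 hC.hc.2 hC.hc2.2
    have b3 := img_bound (E := g / 2 * τ ^ (2 : ℕ)) (w2 := 0) (w1 := 0) (w0 := 1) hX0 hXx hΓy le_rfl le_rfl
      zero_le_one
    have bJ := img_bound (E := g / 2 * τ ^ (2 : ℕ)) (w2 := O)
      (w1 := O * 2 * (c * √(ν / (Γ * LQi μ c ν (LT3 μ c h τ)) * (1 / Real.pi))))
      (w0 := (O * c ^ (2 : ℕ) + Le μ c h τ) * (ν / (Γ * LQi μ c ν (LT3 μ c h τ))) / 2) hX0 hXx hΓy hO0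
      (by positivity) (by positivity)
    simp only [zero_mul, zero_add, one_mul] at b3
    have s3 : 0 ≤ √(q * (1 + c ^ (2 : ℕ) / μ ^ (2 : ℕ)) / (2 * LQi μ c ν (LT3 μ c h τ))) / 2 := by positivity
    have c3 := mulU hS hE (Real.exp_pos _).le
    have k3 := (mul_le_mul_of_nonneg_left b3 s3).trans c3
    have j0 : 0 ≤ LJ0 μ q g c ν h τ Γ := by unfold LJ0; positivity
    have e3 : LJ0 μ q g c ν h τ Γ ≤ fx a0 := by
      rw [← ha0]
      exact k3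
    refine ⟨e3, ?_, ?_⟩
    · rw [← ha1]
      have k1 := mulU c3 hJW (by positivity)
      refine le_trans ?_ k1
      have k2 := mul_le_mul_of_nonneg_left bJ s3
      have eJ : LJW μ c ν h τ Γ = O * (Ltp h τ / h) ^ (2 : ℕ) +
          (O * 2 * (c * √(ν / (Γ * LQi μ c ν (LT3 μ c h τ)) * (1 / Real.pi)))) * (Ltp h τ / h) +
          (O * c ^ (2 : ℕ) + Le μ c h τ) * (ν / (Γ * LQi μ c ν (LT3 μ c h τ))) / 2 := by
        unfold LJW
        rw [← hO]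
        ring
      rw [eJ]
      unfold LJ0
      refine le_trans (le_of_eq ?_) (k2.trans (le_of_eq ?_)) <;> ring
    · rw [← ha2]
      rw [← ha0] at e3
      exact mulU hee1 e3 j0

end SokamCel

end

/-! ### Lib_MP_af4de1_v3.CelL6 -/

section
namespace SokamFN
end SokamFN
/-!
# Cells, left side: the checker `chkL` and its soundness
-/

set_option autoImplicit false

namespace SokamCel

open SokamFN

/-- one step of the choice of `σ` -/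
def sstep (C : Cl) (b : I) (s : ℕ) : ℕ :=
  let x := mU C.n.1 (xB C b s).1
  (3 * dL x (mL C.a.1 C.c2.1 + x) - SC) / 2

/-- interval of `t` cut at `6/5` -/
def tb (C : Cl) : I := (C.t.1, min C.t.2 1319413953332)

/-- interval of `β` -/
def bb (C : Cl) : I := bif Nat.ble C.t.2 1319413953331 then ib (tb C) else ic 11 25

/-- front -/
def lfr (P : Par) (C : Cl) (G : ℕ) : Option (ℕ × ℕ) :=
  bif Nat.ble C.t.1 1319413953331 then xf P C (ib (tb C)) G else some (0, 0)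

/-- main part -/
def xmn (P : Par) (C : Cl) (e2 Vn N2 G s : ℕ) (B : I) : Option (ℕ × ℕ) :=
  (xz P C B s).bind fun z => xg C P.q.2 Vn N2 C.a B z C.t1.1 e2 G SC SC

/-- the other zones -/
def xot (P : Par) (C : Cl) (e2 Vn N2 G r0 rW re : ℕ) : Option (ℕ × ℕ × ℕ) :=
  (xh P C G).bind fun b => (xjm P C e2 Vn N2 G).bind fun i => (xjb P C e2 Vn N2 G).bind fun j =>
    (lfr P C G).bind fun a => some (b.1 + a.1 + (i.1 + j.1) + r0,
      mU b.1 b.2 + a.2 + (i.2.1 + j.2.1) + rW, dU (b.1 + a.1 + (i.2.2 + j.2.2)) G + re)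

/-- the final test -/
def fin6 (F0 F1 F2 G k m0 mW o0 oW eO : ℕ) : Bool :=
  let x := m0 + o0
  let v := sqU oW + mU k (sqU o0)
  let W := mW + mU (mU k k) m0 + mU v v
  Nat.ble x F0 && Nat.ble (sqU (mU x W)) F1 && Nat.ble (W + dU m0 G + eO) F2

/-- the checker, from the data of the cell -/
def chkC (P : Par) (F0 F1 F2 r0 rW re G : ℕ) (C : Cl) (s : ℕ) (B : I) (N2 Vn e2 : ℕ) : Bool :=
  match xmn P C e2 Vn N2 G s B with
  | none => false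
  | some m =>
    match xot P C e2 Vn N2 G r0 rW re with
    | none => false
    | some o => fin6 F0 F1 F2 G (mU C.u.2 P.k.2) m.1 m.2 o.1 o.2.1 o.2.2

/-- **The checker of a cell, left side.** `G` lower bound of `Γ`. -/
def chkL (P : Par) (F0 F1 F2 r0 rW re G : ℕ) (c n h u : I) : Bool :=
  let C := mk P c n h u
  let b := bb C
  let s := min SC (sstep C b (sstep C b SC))
  let N2 := mU P.N.2 P.N.2
  Nat.blt 0 G && chkC P F0 F1 F2 r0 rW re G C s (xB C b s) N2 (SC + mU C.c2.2 N2)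
    (mU (mU C.u.2 C.u.2) P.g.2)

/-! ### soundness -/

theorem mU_mono {a b a' b' : ℕ} (h : a ≤ a') (h' : b ≤ b') : mU a b ≤ mU a' b' := by
  unfold mU
  have := Nat.mul_le_mul h h'
  first
    | exact Nat.add_le_add_right (Nat.div_le_div_right this) 1
    | omega

/-- the condition of `Mem.bq` below `6/5` -/
theorem hp65 {t : ℕ} (h : t ≤ 1319413953332) :
    (mU t t / 24 + 1 + (mU (mU (mU t t) (mU t t)) (mU t t) / 40320 + 1)) ≤
      549755813888 + mL (mU t t) (mU t t) / 720 := by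
  have h1 : mU t t ≤ mU 1319413953332 1319413953332 := mU_mono h h
  have h2 := mU_mono h1 h1
  have h3 := mU_mono h2 h1
  have e1 : mU 1319413953332 1319413953332 / 24 ≤ 70000000000 := by
    norm_num [mU, SC]
  have e2 : mU (mU (mU 1319413953332 1319413953332) (mU 1319413953332 1319413953332))
      (mU 1319413953332 1319413953332) / 40320 ≤ 100000000 := by
    norm_num [mU, SC]
  have k1 := (Nat.div_le_div_right (c := 24) h1).trans e1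
  have k2 := (Nat.div_le_div_right (c := 40320) h3).trans e2
  generalize mU t t / 24 = X at k1 ⊢
  generalize mU (mU (mU t t) (mU t t)) (mU t t) / 40320 = Y at k2 ⊢
  generalize mL (mU t t) (mU t t) / 720 = Z
  omega

theorem mem_tb {μ c ν h τ : ℝ} {C : Cl} (hC : C.Has μ c ν h τ) (ht : (1 + τ) * h ≤ 6 / 5) :
    Mem ((1 + τ) * h) (tb C) := by
  refine ⟨hC.ht.1, ?_⟩
  show (1 + τ) * h ≤ fx (min C.t.2 1319413953332)
  rcases le_total C.t.2 1319413953332 with h1 | h1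
  · rw [min_eq_left h1]; exact hC.ht.2
  · rw [min_eq_right h1]
    refine ht.trans ?_
    unfold fx; norm_num

theorem mem_bb6 {μ c ν h τ : ℝ} {C : Cl} (hC : C.Has μ c ν h τ) (ht0 : 0 < (1 + τ) * h)
    (ht : (1 + τ) * h ≤ 6 / 5) : Mem (bq ((1 + τ) * h)) (ib (tb C)) := by
  refine Mem.bq (mem_tb hC ht) ht0 (by nlinarith) (hp65 ?_)
  exact min_le_right _ _

/-- the value of `β` of a cell -/
theorem exists_beta {μ c ν h τ : ℝ} {C : Cl} (hC : C.Has μ c ν h τ) (ht0 : 0 < (1 + τ) * h) :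
    ∃ β : ℝ, ((β = bq ((1 + τ) * h) ∧ (1 + τ) * h ≤ 6 / 5) ∨ β = 11 / 25) ∧ Mem β (bb C) := by
  unfold bb
  cases hb : Nat.ble C.t.2 1319413953331 with
  | false =>
    refine ⟨11 / 25, Or.inr rfl, ?_⟩
    rw [cond_false]
    exact_mod_cast Mem.const 11 25 (by norm_num)
  | true =>
    rw [Nat.ble_eq] at hb
    have ht : (1 + τ) * h ≤ 6 / 5 := by
      refine hC.ht.2.trans ((fx_mono hb).trans ?_)
      unfold fx; norm_num
    refine ⟨_, Or.inl ⟨rfl, ht⟩, ?_⟩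
    rw [cond_true]
    exact mem_bb6 hC ht0 ht

theorem beta_pos {t β : ℝ} (ht0 : 0 < t)
    (h : (β = bq t ∧ t ≤ 6 / 5) ∨ β = 11 / 25) : 0 < β := by
  rcases h with ⟨h, ht⟩ | h
  · rw [h]
    refine bq_pos ht0 ?_
    have := Real.pi_gt_three
    linarith
  · rw [h]; norm_num

theorem lfr_sound {P : Par} {μ q g kk c ν h τ Γ : ℝ} (hP : P.Ok μ q g kk) {C : Cl}
    (hC : C.Has μ c ν h τ) {G : ℕ} (ht0 : 0 < (1 + τ) * h)
    (hG : fx G ≤ Γ) (hc : 0 < c) (hν : 0 < ν) (hτ : 0 ≤ τ)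
    {a : ℕ × ℕ} (hx : lfr P C G = some a) :
    (if (1 + τ) * h ≤ 6 / 5 then LF0 μ q g c ν h τ Γ else 0) ≤ fx a.1 ∧
    (if (1 + τ) * h ≤ 6 / 5 then LF0 μ q g c ν h τ Γ * (LFW μ c ν τ Γ / c ^ (2 : ℕ)) else 0) ≤ fx a.2 := by
  by_cases ht : (1 + τ) * h ≤ 6 / 5
  · rw [if_pos ht, if_pos ht]
    unfold lfr at hx
    cases hb : Nat.ble C.t.1 1319413953331 with
    | false =>
      exfalso
      have h1 : ¬ (C.t.1 ≤ 1319413953331) := by
        rw [← Nat.ble_eq, hb]; simp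
      have h2 : 1319413953332 ≤ C.t.1 := by omega
      have h3 := (fx_mono h2).trans (hC.ht.1.trans ht)
      unfold fx at h3
      norm_num at h3
    | true =>
      rw [hb, cond_true] at hx
      obtain ⟨a0, a1⟩ := a
      exact xf_sound hP hC (mem_bb6 hC ht0 ht) hG hc hν hτ hx
  · rw [if_neg ht, if_neg ht]
    exact ⟨fx_nonneg _, fx_nonneg _⟩

theorem bind_some' {α β : Type*} {x : Option α} {f : α → Option β} {r : β}
    (h : x.bind f = some r) : ∃ a, x = some a ∧ f a = some r := Option.bind_eq_some_iff.1 h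

theorem xmn_sound {P : Par} {μ q g kk c ν h τ Γ β : ℝ} (hP : P.Ok μ q g kk) {C : Cl}
    (hC : C.Has μ c ν h τ) {e2 Vn N2 G s : ℕ} {B : I} (hE2 : g / 2 * τ ^ (2 : ℕ) ≤ fx e2)
    (hVn : 1 + c ^ (2 : ℕ) / μ ^ (2 : ℕ) ≤ fx Vn) (hN2 : 1 / μ ^ (2 : ℕ) ≤ fx N2)
    (hG : fx G ≤ Γ) (hc : 0 < c) (hν : 0 < ν) (hh : 0 < h) (hτ : 0 ≤ τ) (hβ : 0 < β)
    (hB : Mem (β * Real.exp (-(fx s * ((1 + τ) * h * c / μ)))) B)
    {m : ℕ × ℕ} (hx : xmn P C e2 Vn N2 G s B = some m) :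
    tM0 μ q g c ν h τ Γ β (fx s) ≤ fx m.1 ∧ tMW μ q g c ν h τ Γ β (fx s) ≤ fx m.2 := by
  unfold xmn at hx
  obtain ⟨z, hz, hx⟩ := bind_some' hx
  obtain ⟨m0, mW⟩ := m
  have k1 := xz_sound hP hC hB rfl hc hν hh hτ hz
  have k2 : (1 : ℝ) ≤ fx SC := le_of_eq fx_one.symm
  unfold tM0 tMW
  exact xg_sound hC hc hν hP.hq.2 hVn hN2 hC.ha hB (mul_pos hβ (Real.exp_pos _)) k1 hC.ht1.1 hE2 hG
    zero_le_one zero_le_one k2 k2 hx

theorem xot_sound {P : Par} {μ q g kk c ν h τ Γ U0 UW Ue : ℝ} (hP : P.Ok μ q g kk) {C : Cl}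
    (hC : C.Has μ c ν h τ) {e2 Vn N2 G r0 rW re : ℕ} (hE2 : g / 2 * τ ^ (2 : ℕ) ≤ fx e2)
    (hVn : 1 + c ^ (2 : ℕ) / μ ^ (2 : ℕ) ≤ fx Vn) (hN2 : 1 / μ ^ (2 : ℕ) ≤ fx N2)
    (hG : fx G ≤ Γ) (hG0 : 0 < G) (hc : 0 < c) (hν : 0 < ν) (hh : 0 < h) (hτ : 0 ≤ τ) (hν1 : ν ≤ 1)
    (htp : (1 + τ) * h ≤ Real.pi)
    (hU0 : U0 ≤ fx r0) (hUW : UW ≤ fx rW) (hUe : Ue ≤ fx re)
    {o : ℕ × ℕ × ℕ} (hx : xot P C e2 Vn N2 G r0 rW re = some o) :
    lI μ q g c ν h τ Γ U0 ≤ fx o.1 ∧ lW μ q g c ν h τ Γ UW ≤ fx o.2.1 ∧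
    lE μ q g c ν h τ Γ Ue ≤ fx o.2.2 := by
  have ht0 : 0 < (1 + τ) * h := by (clear * - hτ hh; positivity)
  have hμ := hP.pos
  unfold xot at hx
  obtain ⟨b, hb, hx⟩ := bind_some' hx
  obtain ⟨i, hi, hx⟩ := bind_some' hx
  obtain ⟨j, hj, hx⟩ := bind_some' hx
  obtain ⟨a, ha, hx⟩ := bind_some' hx
  obtain ⟨b0, bW⟩ := b
  obtain ⟨i0, iW, ie⟩ := i
  obtain ⟨j0, jW, je⟩ := j
  obtain ⟨a0, aW⟩ := a
  have kb := xh_sound hP hC hG hc hν hτ hν1 hb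
  have ki := xjm_sound hP hC hE2 hVn hN2 hG hc hν hh hν1 htp hi
  have kj := xjb_sound hP hC hE2 hVn hN2 hG hc hν hh hν1 htp hj
  have ka := lfr_sound hP hC ht0 hG hc hν hτ ha
  simp only [Option.some.injEq] at hx
  rw [← hx]
  have nB : 0 ≤ LBW μ c ν h τ Γ := by
    have hΓ0 : 0 ≤ Γ := (fx_nonneg G).trans hG
    have hπ := Real.pi_pos
    unfold LBW
    have := hP.le
    unfold LQb La
    have h1 : 0 ≤ μ - ν / 2 := by linarith
    (clear * - hτ hμ hc hν hΓ0 h1; positivity)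
  refine ⟨?_, ?_, ?_⟩
  · unfold lI
    exact addU (addU (addU kb.1 ka.1) (addU ki.1 kj.1)) hU0
  · unfold lW
    exact addU (addU (addU (mulU kb.1 kb.2 nB) ka.2) (addU ki.2.1 kj.2.1)) hUW
  · unfold lE
    exact addU (divU (addU (addU kb.1 ka.1) (addU ki.2.2 kj.2.2)) hG hG0) hUe

theorem fin6_sound {F0 F1 F2 G k m0 mW o0 oW eO : ℕ} {kt M0 MW O0 OW OE Γ : ℝ}
    (hG : fx G ≤ Γ) (hG0 : 0 < G)
    (hx : fin6 F0 F1 F2 G k m0 mW o0 oW eO = true) (hk : kt ≤ fx k) (hk0 : 0 ≤ kt)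
    (h1 : M0 ≤ fx m0) (h10 : 0 ≤ M0) (h2 : MW ≤ fx mW) (h3 : O0 ≤ fx o0) (h30 : 0 ≤ O0)
    (h4 : OW ≤ fx oW) (h5 : OE ≤ fx eO) :
    M0 + O0 ≤ fx F0 ∧
    √((M0 + O0) * (MW + kt ^ (2 : ℕ) * M0 + (√OW + kt * √O0) ^ (2 : ℕ))) ≤ fx F1 ∧
    MW + kt ^ (2 : ℕ) * M0 + (√OW + kt * √O0) ^ (2 : ℕ) + M0 / Γ + OE ≤ fx F2 := by
  unfold fin6 at hx
  simp only [Bool.and_eq_true, Nat.ble_eq] at hx
  obtain ⟨⟨hx0, hx1⟩, hx2⟩ := hx
  have k1 := addU h1 h3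
  have k2 := addU (sqrtU h4) (mulU hk (sqrtU h3) (Real.sqrt_nonneg _))
  have k3 := mulU k2 k2 (by (clear * - hk0; positivity))
  have k4 := mulU (mulU hk hk hk0) h1 h10
  have k5 := addU (addU h2 k4) k3
  have e : MW + kt ^ (2 : ℕ) * M0 + (√OW + kt * √O0) ^ (2 : ℕ) =
      MW + kt * kt * M0 + (√OW + kt * √O0) * (√OW + kt * √O0) := by ring
  rw [← e] at k5
  refine ⟨k1.trans (fx_mono hx0), ?_, ?_⟩
  · refine le_trans (sqrtU ?_) (fx_mono hx1)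
    refine (mul_le_mul_of_nonneg_left k5 (by (clear * - h10 h30; positivity))).trans ?_
    exact mulU k1 le_rfl (fx_nonneg _)
  · exact (addU (addU k5 (divU h1 hG hG0)) h5).trans (fx_mono hx2)

theorem gF0_nonneg {V c ν a b x Γ Z E : ℝ} (hc : 0 < c) (ha : 0 ≤ a) (hx : 0 ≤ x) :
    0 ≤ gF0 V c ν a b x Γ Z E := by
  unfold gF0
  have : 0 ≤ gm c ν a b x Γ := by
    unfold gm
    refine le_min zero_le_one ?_
    positivity
  (clear * - this; positivity)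

theorem La_nonneg {μ ν T : ℝ} (hμ : 1 ≤ μ) (hν1 : ν ≤ 1) : 0 ≤ La μ ν T := by
  unfold La
  have : 0 ≤ μ - ν / 2 := by linarith
  have h2 : 0 ≤ max 1 T := zero_le_one.trans (le_max_left _ _)
  positivity

/-- soundness of the checker from the data of the cell -/
theorem chkC_sound {P : Par} {μ q g kk c ν h τ Γ β U0 UW Ue : ℝ} (hP : P.Ok μ q g kk) {C : Cl}
    (hC : C.Has μ c ν h τ) {e2 Vn N2 G s F0 F1 F2 r0 rW re : ℕ} {B : I}
    (hE2 : g / 2 * τ ^ (2 : ℕ) ≤ fx e2)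
    (hVn : 1 + c ^ (2 : ℕ) / μ ^ (2 : ℕ) ≤ fx Vn) (hN2 : 1 / μ ^ (2 : ℕ) ≤ fx N2)
    (hG : fx G ≤ Γ) (hG0 : 0 < G) (hc : 0 < c) (hν : 0 < ν) (hh : 0 < h) (hτ : 0 ≤ τ) (hν1 : ν ≤ 1)
    (htp : (1 + τ) * h ≤ Real.pi) (hβ : 0 < β)
    (hB : Mem (β * Real.exp (-(fx s * ((1 + τ) * h * c / μ)))) B)
    (hO : 0 ≤ lI μ q g c ν h τ Γ U0)
    (hU0 : U0 ≤ fx r0) (hUW : UW ≤ fx rW) (hUe : Ue ≤ fx re)
    (hx : chkC P F0 F1 F2 r0 rW re G C s B N2 Vn e2 = true) :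
    LOk μ q g kk c ν h τ Γ β (fx s) U0 UW Ue (fx F0) (fx F1) (fx F2) := by
  unfold chkC at hx
  cases hm : xmn P C e2 Vn N2 G s B with
  | none => rw [hm] at hx; exact absurd hx (by simp)
  | some m =>
    rw [hm] at hx
    cases ho : xot P C e2 Vn N2 G r0 rW re with
    | none => rw [ho] at hx; exact absurd hx (by simp)
    | some o =>
      rw [ho] at hx
      have k1 := xmn_sound hP hC hE2 hVn hN2 hG hc hν hh hτ hβ hB hm
      have k2 := xot_sound hP hC hE2 hVn hN2 hG hG0 hc hν hh hτ hν1 htp hU0 hUW hUe ho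
      have hk0 : 0 ≤ kk := hP.hk.nonneg
      have hμ := hP.pos
      have hk : kk * τ ≤ fx (mU C.u.2 P.k.2) := by
        rw [mul_comm]
        exact mulU hC.hu.2 hP.hk.2 hk0
      have n1 : 0 ≤ tM0 μ q g c ν h τ Γ β (fx s) := by
        unfold tM0
        exact gF0_nonneg hc (La_nonneg hP.le hν1) (by linarith)
      have k := fin6_sound hG hG0 hx hk (by (clear * - hk0 hτ; positivity)) k1.1 n1 k1.2 k2.1 hO k2.2.1 k2.2.2
      exact ⟨k.1, k.2.1, k.2.2⟩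

theorem lI_nonneg {μ q g c ν h τ Γ U0 : ℝ} (hμ : 1 ≤ μ) (hc : 0 < c) (hν : 0 < ν) (hh : 0 < h)
    (hτ : 0 ≤ τ) (hν1 : ν ≤ 1) (hΓ : 0 ≤ Γ) (htp : (1 + τ) * h ≤ Real.pi)
    (hA : 0 ≤ iA μ c ν h τ) (hU : 0 ≤ U0) : 0 ≤ lI μ q g c ν h τ Γ U0 := by
  have hpi := Real.pi_pos
  have htp0 : 0 < Ltp h τ := by unfold Ltp; linarith
  have h1 : 0 ≤ LB0 μ q g c ν h τ Γ := by unfold LB0; (clear * -; positivity)
  have h2 : 0 ≤ LF0 μ q g c ν h τ Γ := by unfold LF0; (clear * - hc; positivity)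
  have h3 : 0 ≤ LJ0 μ q g c ν h τ Γ := by unfold LJ0; (clear * -; positivity)
  have h4 : 0 ≤ tI0 μ q g c ν h τ Γ := by
    unfold tI0
    exact gF0_nonneg hc hA (by (clear * - htp0 hh; positivity))
  have h5 : 0 ≤ (if (1 + τ) * h ≤ 6 / 5 then LF0 μ q g c ν h τ Γ else 0) := by
    split_ifs
    · exact h2
    · exact le_rfl
  unfold lI
  (clear * - h1 h2 h4 h3 hU; positivity)

/-- **Soundness of `chkL`.** -/
theorem chkL_sound {P : Par} {μ q g kk c ν h τ Γ U0 UW Ue f0 f1 f2 : ℝ} (hP : P.Ok μ q g kk)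
    {F0 F1 F2 r0 rW re G : ℕ} {ci ni hi ui : I}
    (hx : chkL P F0 F1 F2 r0 rW re G ci ni hi ui = true)
    (hG : fx G ≤ Γ) (hc : 0 < c) (hν : 0 < ν) (hν1 : ν ≤ 1) (hh : 0 < h) (hτ : 0 ≤ τ)
    (htp : (1 + τ) * h ≤ Real.pi) (mc : Mem c ci) (mn : Mem ν ni) (mh : Mem h hi) (mu : Mem τ ui)
    (hA : 0 ≤ iA μ c ν h τ)
    (hU : 0 ≤ U0) (hU0 : U0 ≤ fx r0) (hUW : UW ≤ fx rW) (hUe : Ue ≤ fx re)
    (hf0 : fx F0 ≤ f0) (hf1 : fx F1 ≤ f1) (hf2 : fx F2 ≤ f2) :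
    ∃ β σ : ℝ, ((β = bq ((1 + τ) * h) ∧ (1 + τ) * h ≤ 6 / 5) ∨ β = 11 / 25) ∧ 0 < β ∧
      0 ≤ σ ∧ σ ≤ 1 ∧ LOk μ q g kk c ν h τ Γ β σ U0 UW Ue f0 f1 f2 := by
  have hC := mk_has hP mc mn mh mu hν1
  have hμ := hP.pos
  have ht0 : 0 < (1 + τ) * h := by (clear * - hτ hh; positivity)
  unfold chkL at hx
  simp only at hx
  rw [Bool.and_eq_true, blt_iff] at hx
  obtain ⟨hG0, hx⟩ := hx
  generalize mk P ci ni hi ui = C at hx hC
  obtain ⟨β, hβ, hmb⟩ := exists_beta hC ht0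
  have hb0 := beta_pos ht0 hβ
  generalize bb C = b at hx hmb
  have hs1 : min SC (sstep C b (sstep C b SC)) ≤ SC := min_le_left _ _
  generalize min SC (sstep C b (sstep C b SC)) = s at hx hs1
  have hΓ0 : 0 ≤ Γ := (fx_nonneg G).trans hG
  have hB : Mem (β * Real.exp (-(fx s * ((1 + τ) * h * c / μ)))) (xB C b s) := by
    unfold xB
    exact hmb.mul (Mem.mul ⟨le_rfl, le_rfl⟩ hC.hT).expn
  have hN2 : 1 / μ ^ (2 : ℕ) ≤ fx (mU P.N.2 P.N.2) := by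
    refine le_trans (le_of_eq ?_) (mulU hP.hN.2 hP.hN.2 (by (clear * - hμ; positivity)))
    field_simp
  have hVn : 1 + c ^ (2 : ℕ) / μ ^ (2 : ℕ) ≤ fx (SC + mU C.c2.2 (mU P.N.2 P.N.2)) := by
    refine addU (le_of_eq fx_one.symm) ?_
    rw [div_eq_mul_one_div]
    exact mulU hC.hc2.2 hN2 (by (clear * - hμ; positivity))
  have hE2 : g / 2 * τ ^ (2 : ℕ) ≤ fx (mU (mU C.u.2 C.u.2) P.g.2) := by
    rw [mul_comm, pow_two]
    exact mulU (mulU hC.hu.2 hC.hu.2 hτ) hP.hg.2 hP.hg.nonneg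
  have k := chkC_sound hP hC hE2 hVn hN2 hG hG0 hc hν hh hτ hν1 htp hb0 hB
    (lI_nonneg hP.le hc hν hh hτ hν1 hΓ0 htp hA hU) hU0 hUW hUe hx
  refine ⟨β, fx s, hβ, hb0, fx_nonneg s, ?_, k.f0.trans hf0, k.f1.trans hf1, k.f2.trans hf2⟩
  rw [← fx_one]
  exact fx_mono hs1

end SokamCel

end
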