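import Mathlib.Algebra.Order.Floor.Semifield
import Mathlib.Algebra.Ring.IsFormallyReal
import Mathlib.RingTheory.PowerSeries.Inverse
import Mathlib.Data.Rat.Star
import Mathlib.Geometry.Euclidean.Angle.Unoriented.TriangleInequality
import Mathlib.Analysis.Convex.Contractible
import Mathlib.Analysis.Calculus.Deriv.Star
import Mathlib.MeasureTheory.Integral.Gamma
import Mathlib.Analysis.Complex.LocallyUniformLimit
import Mathlib.Topology.Separation.CompletelyRegular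
import Mathlib.RingTheory.Flat.TorsionFree
import Mathlib.MeasureTheory.Order.Group.Lattice
import Mathlib.Data.Int.Star
import Mathlib.LinearAlgebra.Lagrange
import Mathlib.Analysis.Complex.Angle
import Mathlib.Analysis.Complex.BorelCaratheodory
import Mathlib.Analysis.Complex.CoveringMap
import Mathlib.Topology.Homotopy.Lifting
import Mathlib.Analysis.Complex.ExponentialBounds
import Mathlib.Analysis.Complex.HasPrimitives
import Mathlib.NumberTheory.DiophantineApproximation.Basic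
import Mathlib.Analysis.Complex.OpenMapping
import Mathlib.Analysis.SpecialFunctions.Trigonometric.DerivHyp
import Mathlib.RingTheory.SimpleRing.Principal
import Mathlib.Order.CompletePartialOrder
import Mathlib.Analysis.SpecialFunctions.Complex.LogBounds
import Mathlib.Analysis.SpecialFunctions.Gamma.BohrMollerup
import Mathlib.Analysis.SpecialFunctions.Trigonometric.Series
import Mathlib.Topology.MetricSpace.Sequences
import Mathlib.Analysis.Normed.Group.Tannery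
import Mathlib.Analysis.ODE.Gronwall
import Mathlib.Analysis.Real.Pi.Bounds
import Mathlib.Analysis.SpecialFunctions.Gaussian.PoissonSummation
import Mathlib.Analysis.SpecialFunctions.Trigonometric.InverseDeriv
import Mathlib.RingTheory.TotallySplit
import Mathlib.RingTheory.Etale.Weakly
import Mathlib.Tactic

/-! ### Lib_MP_af4de1_fu.M0 -/

section
/-!
# F2, part I (`1 ≤ δ r ≤ 9/2`, `δ ≤ 9/80`): definitions

Board note 2392 (helper35).  `k(g) = exp((i/δ)(g²/2 - ρ e^g) - ψ g/δ)`, `ρ = δ r`.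
`SL`: contour from `-i∞` (`Re < 0`) to `+∞ - i`; `SR`: contour from `+∞ - i` to `+i∞` (`Re > 0`); weight `g^j`.
`F(z; e^(iδ)) = c e^(-iψ²/2δ) (SL 0 + SR 0)` for `iδz e^(-iδ/2) = ρ e^(-iψ)` (file `MRep`).
At a saddle point `g`, `h = g + iψ = ρ e^g`:  `k(g + v) = k(g) exp(EE δ h v)`, `|exp(EE δ h v)| = exp(-ff h v/δ)`.
-/

set_option autoImplicit false

namespace SokamFU

open Complex MeasureTheory Set

/-- the integrand -/
noncomputable def kk (ρ δ ψ : ℝ) (g : ℂ) : ℂ :=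
  cexp (I / δ * (g ^ (2 : ℕ) / 2 - ρ * cexp g) - ψ * g / δ)

/-- the integrand with the weight `g^j` -/
noncomputable def kj (ρ δ ψ : ℝ) (j : ℕ) (g : ℂ) : ℂ := g ^ j * kk ρ δ ψ g

/-- `∫ f(z) dz` over the ray `p + s d`, `s > 0` -/
noncomputable def ray (f : ℂ → ℂ) (p d : ℂ) : ℂ := (∫ s in Ioi (0 : ℝ), f (p + s * d)) * d

/-- right contour -/
noncomputable def SR (ρ δ ψ : ℝ) (j : ℕ) : ℂ :=
  ray (kj ρ δ ψ j) (1 - I) I - ray (kj ρ δ ψ j) (1 - I) 1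

/-- left contour -/
noncomputable def SL (ρ δ ψ : ℝ) (j : ℕ) : ℂ :=
  ray (kj ρ δ ψ j) (1 - I) 1 - ray (kj ρ δ ψ j) (1 - I) (-(1 + I))

/-- the exponent at a saddle point -/
noncomputable def EE (δ : ℝ) (h v : ℂ) : ℂ := I / δ * (v ^ (2 : ℕ) / 2 - h * (cexp v - 1 - v))

/-- the height at a saddle point -/
noncomputable def ff (h v : ℂ) : ℝ := (v ^ (2 : ℕ) / 2 - h * (cexp v - 1 - v)).im

/-- `∫ w(v) exp(EE δ h v) dv`: from `+∞` along the horizontal ray to `p`, then along `p + s d` to infinity -/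
noncomputable def JJ (δ : ℝ) (h p d : ℂ) (w : ℂ → ℂ) : ℂ :=
  ray (fun v => w v * cexp (EE δ h v)) p d - ray (fun v => w v * cexp (EE δ h v)) p 1

theorem norm_kk {ρ δ ψ : ℝ} (g : ℂ) : ‖kk ρ δ ψ g‖ =
    Real.exp (-(g.re * (g.im + ψ) - ρ * Real.exp g.re * Real.sin g.im) / δ) := by
  unfold kk
  rw [Complex.norm_exp]
  congr 1
  rcases eq_or_ne δ 0 with rfl | hδ
  · simp
  have h1 : (I / δ * (g ^ (2 : ℕ) / 2 - ρ * cexp g) - ψ * g / δ) =
      ((1 / δ : ℝ) : ℂ) * (I * (g ^ (2 : ℕ) / 2 - ρ * cexp g) - ψ * g) := by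
    push_cast; ring
  rw [h1, re_ofReal_mul]
  have h2 : (cexp g).re = Real.exp g.re * Real.cos g.im := exp_re g
  have h3 : (cexp g).im = Real.exp g.re * Real.sin g.im := exp_im g
  have h4 : (I * (g ^ (2 : ℕ) / 2 - ρ * cexp g) - ψ * g).re =
      -(g.re * (g.im + ψ) - ρ * Real.exp g.re * Real.sin g.im) := by
    have h5 : (g ^ (2 : ℕ) / 2).im = g.re * g.im := by
      have : g ^ (2 : ℕ) / 2 = ((1 / 2 : ℝ) : ℂ) * (g * g) := by push_cast; ring
      rw [this, im_ofReal_mul, mul_im]; ring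
    rw [sub_re, re_ofReal_mul, I_mul_re, sub_im, h5, im_ofReal_mul, h3]
    ring
  rw [h4]; ring

theorem differentiable_kj (ρ δ ψ : ℝ) (j : ℕ) : Differentiable ℂ (kj ρ δ ψ j) := by
  unfold kj kk
  fun_prop

theorem continuous_kj (ρ δ ψ : ℝ) (j : ℕ) : Continuous (kj ρ δ ψ j) :=
  (differentiable_kj ρ δ ψ j).continuous

theorem exists_prim (ρ δ ψ : ℝ) (j : ℕ) : ∃ P : ℂ → ℂ, ∀ z, HasDerivAt P (kj ρ δ ψ j z) z := by
  obtain ⟨P, hP⟩ := (differentiable_kj ρ δ ψ j).isExactOn_univ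
  exact ⟨P, fun z => hP z (mem_univ z)⟩

theorem norm_EE {δ : ℝ} (h v : ℂ) : ‖cexp (EE δ h v)‖ = Real.exp (-(ff h v) / δ) := by
  unfold EE ff
  rw [Complex.norm_exp]
  congr 1
  have h1 : I / δ * (v ^ (2 : ℕ) / 2 - h * (cexp v - 1 - v)) =
      ((1 / δ : ℝ) : ℂ) * (I * (v ^ (2 : ℕ) / 2 - h * (cexp v - 1 - v))) := by
    push_cast; ring
  rw [h1, re_ofReal_mul, I_mul_re]
  ring

/-- the local form of the integrand at a saddle point -/
theorem kk_saddle {ρ δ ψ : ℝ} {g h : ℂ} (h1 : h = g + ψ * I) (h2 : ρ * cexp g = h) (v : ℂ) :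
    kk ρ δ ψ (g + v) = kk ρ δ ψ g * cexp (EE δ h v) := by
  unfold kk EE
  rw [← Complex.exp_add]
  congr 1
  rw [Complex.exp_add]
  have h3 : ρ * (cexp g * cexp v) = h * cexp v := by rw [← h2]; ring
  rw [h3, h2]
  have h4 : (ψ : ℂ) = -I * (h - g) := by
    rw [h1]; ring_nf; rw [I_sq]; ring
  rw [h4]
  ring

end SokamFU

end

/-! ### Lib_MP_af4de1_fu.MEnd -/

section
/-!
# Rays and primitives [FU-M1]
-/

set_option autoImplicit false

namespace SokamFU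

open Complex MeasureTheory Set Filter Topology

/-- The primitive along a ray. -/
theorem ray_tendsto {f P : ℂ → ℂ} (hf : Continuous f) (hP : ∀ z, HasDerivAt P (f z) z) {p d : ℂ}
    (hi : IntegrableOn (fun s : ℝ => f (p + s * d)) (Ioi 0)) :
    Tendsto (fun T : ℝ => P (p + T * d)) atTop (𝓝 (P p + ray f p d)) := by
  have h1 : ∀ T : ℝ, P (p + T * d) = P p + (∫ s in (0 : ℝ)..T, f (p + s * d)) * d := by
    intro T
    have hd : ∀ s ∈ Set.uIcc 0 T,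
        HasDerivAt (fun s : ℝ => P (p + s * d)) (f (p + s * d) * d) s := by
      intro s _
      have h1 : HasDerivAt (fun z : ℂ => p + z * d) d (s : ℂ) := by
        simpa using ((hasDerivAt_id (s : ℂ)).mul_const d).const_add p
      exact ((hP (p + s * d)).comp (s : ℂ) h1).comp_ofReal
    have hc : Continuous fun s : ℝ => f (p + s * d) * d := by fun_prop
    have h2 := intervalIntegral.integral_eq_sub_of_hasDerivAt hd (hc.intervalIntegrable _ _)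
    rw [← intervalIntegral.integral_mul_const, h2]
    simp
  have h3 := MeasureTheory.intervalIntegral_tendsto_integral_Ioi 0 hi tendsto_id
  have h4 := (h3.mul_const d).const_add (P p)
  refine h4.congr fun T => ?_
  rw [h1 T]; rfl

/-- Two rays with the same end. -/
theorem ray_end {f P : ℂ → ℂ} (hf : Continuous f) (hP : ∀ z, HasDerivAt P (f z) z) {p d p' d' : ℂ}
    (hi : IntegrableOn (fun s : ℝ => f (p + s * d)) (Ioi 0))
    (hi' : IntegrableOn (fun s : ℝ => f (p' + s * d')) (Ioi 0))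
    {e : ℝ → ℝ} (he : Tendsto e atTop (𝓝 0))
    (hb : ∀ᶠ T : ℝ in atTop, ∀ z ∈ segment ℝ (p + T * d) (p' + T * d'),
      ‖f z‖ * ‖(p + T * d) - (p' + T * d')‖ ≤ e T) :
    P p + ray f p d = P p' + ray f p' d' := by
  have h1 := ray_tendsto hf hP hi
  have h2 := ray_tendsto hf hP hi'
  have h3 : Tendsto (fun T : ℝ => P (p + T * d) - P (p' + T * d')) atTop (𝓝 0) := by
    refine squeeze_zero_norm' ?_ he
    filter_upwards [hb] with T hT
    by_cases h0 : (p + T * d) - (p' + T * d') = 0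
    · rw [sub_eq_zero.mp h0, sub_self, norm_zero]
      have h4 := hT _ (left_mem_segment ℝ _ _)
      rw [h0, norm_zero, mul_zero] at h4
      exact h4
    have hpos : 0 < ‖(p + T * d) - (p' + T * d')‖ := norm_pos_iff.mpr h0
    have h4 : ‖P (p + T * d) - P (p' + T * d')‖ ≤
        (e T / ‖(p + T * d) - (p' + T * d')‖) * ‖(p + T * d) - (p' + T * d')‖ :=
      Convex.norm_image_sub_le_of_norm_hasDerivWithin_le (f := P) (f' := f)
        (s := segment ℝ (p + T * d) (p' + T * d'))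
        (fun z _ => (hP z).hasDerivWithinAt)
        (fun z hz => by rw [le_div_iff₀ hpos]; exact hT z hz) (convex_segment _ _)
        (right_mem_segment ℝ _ _) (left_mem_segment ℝ _ _)
    rwa [div_mul_cancel₀ _ hpos.ne'] at h4
  have h5 := tendsto_nhds_unique h3 (h1.sub h2)
  exact (sub_eq_zero.mp h5.symm)

end SokamFU

end

/-! ### Lib_MP_af4de1_fu.MInt -/

section
/-!
# Integrability of `g^j k(g)` on rays [FU-M2]

`norm_kk`: `‖k(g)‖ = exp(-(a(σ+ψ) - ρ e^a sin σ)/δ)`, `g = a + iσ`.  Right ray (`-π < Im p < 0`): `sin σ < 0` is constant, the height is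
`a(σ+ψ) + ρ e^a |sin σ|`, `a → ∞`.  Up (`Re p > 0`): height `≥ a s - C`.  Down with slope `m > 0` (`a = a₀ - s`, `σ = σ₀ - m s`): height
`≥ m s²/2 - C`.  Vertically down (`Re p < 0`): height `≥ |a| s - C`.  The weight `g^j` is polynomial.
-/

set_option autoImplicit false

namespace SokamFU

open Complex MeasureTheory Set

/-- polynomials are dominated by exponentials -/
private theorem mint_poly (j : ℕ) {ε A B : ℝ} (hε : 0 < ε) (hA : 0 ≤ A) (hB : 0 ≤ B) :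
    ∃ C : ℝ, 0 ≤ C ∧ ∀ s : ℝ, 0 < s → (A + s * B) ^ j ≤ C * Real.exp (ε * s) := by
  have hB1 : 0 < B + 1 := by linarith
  refine ⟨((B + 1) / ε) ^ j * (j.factorial * Real.exp (ε * A / (B + 1))), by positivity, ?_⟩
  intro s hs
  have h0 : 0 ≤ ε * (A + s * B) / (B + 1) := by (clear * - hε hA hs hB; positivity)
  have h1 : A + s * B = ((B + 1) / ε) * (ε * (A + s * B) / (B + 1)) := by
    field_simp
  have h2 : (ε * (A + s * B) / (B + 1)) ^ j ≤
      j.factorial * Real.exp (ε * (A + s * B) / (B + 1)) := by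
    have h := Real.pow_div_factorial_le_exp _ h0 j
    rw [div_le_iff₀ (by (clear * -; positivity))] at h
    linarith
  have h3 : ε * (A + s * B) / (B + 1) ≤ ε * A / (B + 1) + ε * s := by
    have h4 : ε * A / (B + 1) + ε * s - ε * (A + s * B) / (B + 1) = ε * s / (B + 1) := by
      field_simp
      ring
    have h5 : 0 ≤ ε * s / (B + 1) := by (clear * - hε hs hB; positivity)
    linarith
  calc (A + s * B) ^ j = ((B + 1) / ε) ^ j * (ε * (A + s * B) / (B + 1)) ^ j := by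
        rw [← mul_pow, ← h1]
    _ ≤ ((B + 1) / ε) ^ j * (j.factorial * Real.exp (ε * A / (B + 1) + ε * s)) := by
        refine mul_le_mul_of_nonneg_left (h2.trans ?_) (by (clear * - hB hε; positivity))
        exact mul_le_mul_of_nonneg_left (Real.exp_le_exp.mpr h3) (by (clear * -; positivity))
    _ = ((B + 1) / ε) ^ j * (j.factorial * Real.exp (ε * A / (B + 1))) * Real.exp (ε * s) := by
        rw [Real.exp_add]
        ring

/-- integrability from a linear lower bound of the height -/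
private theorem mint_main {ρ δ : ℝ} (hδ : 0 < δ) (ψ : ℝ) (j : ℕ) (p d : ℂ) {c C : ℝ} (hc : 0 < c)
    (h : ∀ s : ℝ, 0 < s → c * s - C ≤ (p + s * d).re * ((p + s * d).im + ψ) -
      ρ * Real.exp (p + s * d).re * Real.sin (p + s * d).im) :
    IntegrableOn (fun s : ℝ => kj ρ δ ψ j (p + s * d)) (Ioi 0) := by
  have hε : 0 < c / (2 * δ) := by positivity
  obtain ⟨C1, hC1, h1⟩ := mint_poly j hε (norm_nonneg p) (norm_nonneg d)
  have hi : IntegrableOn (fun s : ℝ => C1 * Real.exp (C / δ) * Real.exp (-(c / (2 * δ)) * s))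
      (Ioi 0) := (exp_neg_integrableOn_Ioi 0 hε).const_mul _
  have hcont : Continuous (fun s : ℝ => kj ρ δ ψ j (p + s * d)) :=
    (continuous_kj ρ δ ψ j).comp (by fun_prop)
  refine Integrable.mono' hi hcont.aestronglyMeasurable ?_
  refine (ae_restrict_iff' measurableSet_Ioi).mpr (Filter.Eventually.of_forall fun s hs => ?_)
  have hs0 : 0 < s := hs
  unfold kj
  rw [norm_mul, norm_pow, norm_kk]
  have h2 : ‖p + s * d‖ ^ j ≤ C1 * Real.exp (c / (2 * δ) * s) := by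
    refine le_trans (pow_le_pow_left₀ (norm_nonneg _) ?_ j) (h1 s hs0)
    refine (norm_add_le _ _).trans ?_
    rw [norm_mul, Complex.norm_real, Real.norm_of_nonneg hs0.le]
  have h3 : Real.exp (-((p + s * d).re * ((p + s * d).im + ψ) -
      ρ * Real.exp (p + s * d).re * Real.sin (p + s * d).im) / δ) ≤
      Real.exp (C / δ - c / δ * s) := by
    refine Real.exp_le_exp.mpr ?_
    rw [show C / δ - c / δ * s = -(c * s - C) / δ by ring]
    exact div_le_div_of_nonneg_right (neg_le_neg (h s hs0)) hδ.le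
  calc _ ≤ C1 * Real.exp (c / (2 * δ) * s) * Real.exp (C / δ - c / δ * s) :=
        mul_le_mul h2 h3 (Real.exp_pos _).le (by (clear * - hC1; positivity))
    _ = C1 * Real.exp (C / δ) * Real.exp (-(c / (2 * δ)) * s) := by
        rw [mul_assoc, mul_assoc, ← Real.exp_add, ← Real.exp_add]
        congr 2
        field_simp
        ring

theorem kj_int_right {ρ δ : ℝ} (hρ : 0 < ρ) (hδ : 0 < δ) (ψ : ℝ) (j : ℕ) {p : ℂ}
    (h1 : -Real.pi < p.im) (h2 : p.im < 0) :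
    IntegrableOn (fun s : ℝ => kj ρ δ ψ j (p + s * 1)) (Ioi 0) := by
  have hsin : Real.sin p.im < 0 := Real.sin_neg_of_neg_of_neg_pi_lt h2 h1
  have hK : 0 < ρ * Real.exp p.re * (-Real.sin p.im) := by
    have := Real.exp_pos p.re
    have h3 : 0 < -Real.sin p.im := by linarith
    (clear * - hρ h3; positivity)
  set K := ρ * Real.exp p.re * (-Real.sin p.im) with hKd
  refine mint_main hδ ψ j p 1 (c := 1)
    (C := (1 - (p.im + ψ)) ^ (2 : ℕ) / (2 * K) - p.re * (p.im + ψ)) one_pos ?_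
  intro s hs
  have e1 : (p + s * 1 : ℂ).re = p.re + s := by simp
  have e2 : (p + s * 1 : ℂ).im = p.im := by simp
  rw [e1, e2, Real.exp_add]
  have h4 : 1 + s + s ^ (2 : ℕ) / 2 ≤ Real.exp s := Real.quadratic_le_exp_of_nonneg hs.le
  have h5 : K * (s ^ (2 : ℕ) / 2) ≤ K * Real.exp s := by
    refine mul_le_mul_of_nonneg_left ?_ hK.le
    linarith
  have h6 : 0 ≤ K / 2 * (s - (1 - (p.im + ψ)) / K) ^ (2 : ℕ) := by (clear * - hK; positivity)
  have h7 : K / 2 * (s - (1 - (p.im + ψ)) / K) ^ (2 : ℕ) =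
      K * (s ^ (2 : ℕ) / 2) - (1 - (p.im + ψ)) * s + (1 - (p.im + ψ)) ^ (2 : ℕ) / (2 * K) := by
    field_simp
    ring
  have h8 : ρ * (Real.exp p.re * Real.exp s) * Real.sin p.im = -(K * Real.exp s) := by
    rw [hKd]
    ring
  rw [h8]
  linarith only [h5, h6, h7]

theorem kj_int_up {ρ δ : ℝ} (hρ : 0 < ρ) (hδ : 0 < δ) (ψ : ℝ) (j : ℕ) {p : ℂ} (hp : 0 < p.re) :
    IntegrableOn (fun s : ℝ => kj ρ δ ψ j (p + s * I)) (Ioi 0) := by
  refine mint_main hδ ψ j p I (c := p.re)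
    (C := ρ * Real.exp p.re - p.re * (p.im + ψ)) hp ?_
  intro s hs
  have e1 : (p + s * I : ℂ).re = p.re := by simp
  have e2 : (p + s * I : ℂ).im = p.im + s := by simp
  rw [e1, e2]
  have h4 : ρ * Real.exp p.re * Real.sin (p.im + s) ≤ ρ * Real.exp p.re * 1 :=
    mul_le_mul_of_nonneg_left (Real.sin_le_one _) (by positivity)
  linarith only [h4]

theorem kj_int_down {ρ δ : ℝ} (hρ : 0 < ρ) (hδ : 0 < δ) (ψ : ℝ) (j : ℕ) {m : ℝ} (hm : 0 < m)
    (p : ℂ) : IntegrableOn (fun s : ℝ => kj ρ δ ψ j (p + s * (-(1 + m * I)))) (Ioi 0) := by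
  refine mint_main hδ ψ j p (-(1 + m * I)) (c := 1)
    (C := ρ * Real.exp p.re - p.re * (p.im + ψ) + (p.im + ψ + m * p.re + 1) ^ (2 : ℕ) / (4 * m))
    one_pos ?_
  intro s hs
  have e1 : (p + s * (-(1 + m * I)) : ℂ).re = p.re - s := by
    simp
    ring
  have e2 : (p + s * (-(1 + m * I)) : ℂ).im = p.im - m * s := by
    simp
    ring
  rw [e1, e2]
  have h3 : Real.exp (p.re - s) ≤ Real.exp p.re := Real.exp_le_exp.mpr (by linarith)
  have h4 : ρ * Real.exp (p.re - s) * Real.sin (p.im - m * s) ≤ ρ * Real.exp (p.re - s) * 1 :=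
    mul_le_mul_of_nonneg_left (Real.sin_le_one _) (by positivity)
  have h5 : ρ * Real.exp (p.re - s) ≤ ρ * Real.exp p.re := mul_le_mul_of_nonneg_left h3 hρ.le
  have h6 : 0 ≤ m * (s - (p.im + ψ + m * p.re + 1) / (2 * m)) ^ (2 : ℕ) := by (clear * - hm; positivity)
  have h7 : m * (s - (p.im + ψ + m * p.re + 1) / (2 * m)) ^ (2 : ℕ) =
      m * s ^ (2 : ℕ) - (p.im + ψ + m * p.re + 1) * s + (p.im + ψ + m * p.re + 1) ^ (2 : ℕ) / (4 * m) := by
    field_simp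
    ring
  linarith only [h5, h6, h7, h4]

theorem kj_int_vert {ρ δ : ℝ} (hρ : 0 < ρ) (hδ : 0 < δ) (ψ : ℝ) (j : ℕ) {p : ℂ} (hp : p.re < 0) :
    IntegrableOn (fun s : ℝ => kj ρ δ ψ j (p + s * (-I))) (Ioi 0) := by
  refine mint_main hδ ψ j p (-I) (c := -p.re)
    (C := ρ * Real.exp p.re - p.re * (p.im + ψ)) (by linarith) ?_
  intro s hs
  have e1 : (p + s * (-I) : ℂ).re = p.re := by simp
  have e2 : (p + s * (-I) : ℂ).im = p.im - s := by
    simp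
    ring
  rw [e1, e2]
  have h4 : ρ * Real.exp p.re * Real.sin (p.im - s) ≤ ρ * Real.exp p.re * 1 :=
    mul_le_mul_of_nonneg_left (Real.sin_le_one _) (by positivity)
  linarith only [h4]

end SokamFU

end

/-! ### Lib_MP_af4de1_fu.MDer -/

section
/-!
# Derivative of the contour integrals in `ψ` [FU-M4]

`∂_ψ k = -(g/δ) k`.  For `|ψ' - ψ| < 1`: `‖g k_ψ'(g)‖ ≤ ‖g k_(ψ+1)(g)‖ + ‖g k_(ψ-1)(g)‖` (`norm_kk`: the exponent is affine in `ψ`), so
`hasDerivAt_integral_of_dominated_loc_of_deriv_le` applies on every ray where all `kj ρ δ ψ j` are integrable.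
-/

set_option autoImplicit false

namespace SokamFU

open Complex MeasureTheory Set

private theorem md_bound {ρ δ : ℝ} (hδ : 0 < δ) {ψ y : ℝ} (h1 : ψ - 1 ≤ y) (h2 : y ≤ ψ + 1) (g : ℂ) :
    ‖kj ρ δ y 1 g‖ ≤ ‖kj ρ δ (ψ + 1) 1 g‖ + ‖kj ρ δ (ψ - 1) 1 g‖ := by
  unfold kj
  rw [norm_mul, norm_mul, norm_mul, ← mul_add]
  refine mul_le_mul_of_nonneg_left ?_ (norm_nonneg _)
  rw [norm_kk, norm_kk, norm_kk]
  rcases le_total 0 g.re with h | h
  · have h3 : Real.exp (-(g.re * (g.im + y) - ρ * Real.exp g.re * Real.sin g.im) / δ) ≤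
        Real.exp (-(g.re * (g.im + (ψ - 1)) - ρ * Real.exp g.re * Real.sin g.im) / δ) := by
      refine Real.exp_le_exp.2 (div_le_div_of_nonneg_right ?_ hδ.le)
      have := mul_le_mul_of_nonneg_left h1 h
      linarith
    have h4 := Real.exp_pos (-(g.re * (g.im + (ψ + 1)) - ρ * Real.exp g.re * Real.sin g.im) / δ)
    linarith
  · have h3 : Real.exp (-(g.re * (g.im + y) - ρ * Real.exp g.re * Real.sin g.im) / δ) ≤
        Real.exp (-(g.re * (g.im + (ψ + 1)) - ρ * Real.exp g.re * Real.sin g.im) / δ) := by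
      refine Real.exp_le_exp.2 (div_le_div_of_nonneg_right ?_ hδ.le)
      have := mul_le_mul_of_nonpos_left h2 h
      linarith
    have h4 := Real.exp_pos (-(g.re * (g.im + (ψ - 1)) - ρ * Real.exp g.re * Real.sin g.im) / δ)
    linarith

private theorem md_deriv {ρ δ : ℝ} (g : ℂ) (y : ℝ) :
    HasDerivAt (fun y : ℝ => kj ρ δ y 0 g) (-(1 / δ : ℂ) * kj ρ δ y 1 g) y := by
  have h0 : HasDerivAt (fun y : ℝ => (y : ℂ)) 1 y := Complex.ofRealCLM.hasDerivAt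
  have h1 : HasDerivAt (fun y : ℝ => I / δ * (g ^ (2 : ℕ) / 2 - ρ * cexp g) - (y : ℂ) * g / δ)
      (-(1 * g / δ)) y := ((h0.mul_const g).div_const (δ : ℂ)).const_sub _
  have h2 := (h1.cexp).const_mul (g ^ (0 : ℕ))
  refine h2.congr_deriv ?_
  unfold kj kk
  ring

theorem hasDerivAt_ray {ρ δ : ℝ} (hδ : 0 < δ) {p d : ℂ}
    (hi : ∀ ψ j, IntegrableOn (fun s : ℝ => kj ρ δ ψ j (p + s * d)) (Ioi 0)) (ψ : ℝ) :
    HasDerivAt (fun ψ : ℝ => ray (kj ρ δ ψ 0) p d) (-(1 / δ : ℂ) * ray (kj ρ δ ψ 1) p d) ψ := by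
  have key := hasDerivAt_integral_of_dominated_loc_of_deriv_le
    (μ := volume.restrict (Set.Ioi (0 : ℝ)))
    (F := fun (y : ℝ) (s : ℝ) => kj ρ δ y 0 (p + s * d))
    (F' := fun (y : ℝ) (s : ℝ) => -(1 / δ : ℂ) * kj ρ δ y 1 (p + s * d))
    (x₀ := ψ) (s := Metric.ball ψ 1)
    (bound := fun s : ℝ => ‖-(1 / δ : ℂ)‖ * (‖kj ρ δ (ψ + 1) 1 (p + s * d)‖ +
      ‖kj ρ δ (ψ - 1) 1 (p + s * d)‖))
    (Metric.ball_mem_nhds ψ one_pos)
    (Filter.Eventually.of_forall fun y => (hi y 0).aestronglyMeasurable)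
    (hi ψ 0)
    ((hi ψ 1).const_mul _).aestronglyMeasurable
    ?_ (((hi (ψ + 1) 1).norm.add (hi (ψ - 1) 1).norm).const_mul _) ?_
  · have h1 := (key.2).mul_const d
    have h2 : (∫ s in Set.Ioi (0 : ℝ), -(1 / δ : ℂ) * kj ρ δ ψ 1 (p + s * d)) * d =
        -(1 / δ : ℂ) * ray (kj ρ δ ψ 1) p d := by
      unfold ray
      rw [integral_const_mul, mul_assoc]
    rw [h2] at h1
    exact h1
  · refine (ae_restrict_iff' measurableSet_Ioi).2 (Filter.Eventually.of_forall fun s _ y hy => ?_)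
    rw [norm_mul]
    refine mul_le_mul_of_nonneg_left ?_ (norm_nonneg _)
    rw [Metric.mem_ball, Real.dist_eq, abs_lt] at hy
    exact md_bound hδ (by linarith) (by linarith) _
  · exact Filter.Eventually.of_forall fun s y _ => md_deriv _ y

theorem hasDerivAt_SR {ρ δ : ℝ} (hρ : 0 < ρ) (hδ : 0 < δ) (ψ : ℝ) :
    HasDerivAt (fun ψ : ℝ => SR ρ δ ψ 0) (-(1 / δ : ℂ) * SR ρ δ ψ 1) ψ := by
  have h1 := hasDerivAt_ray (ρ := ρ) hδ (p := 1 - I) (d := I)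
    (fun ψ j => kj_int_up hρ hδ ψ j (by simp)) ψ
  have h2 := hasDerivAt_ray (ρ := ρ) hδ (p := 1 - I) (d := 1)
    (fun ψ j => kj_int_right hρ hδ ψ j (by simp; linarith [Real.pi_gt_three]) (by simp)) ψ
  have e : -(1 / δ : ℂ) * SR ρ δ ψ 1 = -(1 / δ : ℂ) * ray (kj ρ δ ψ 1) (1 - I) I -
      -(1 / δ : ℂ) * ray (kj ρ δ ψ 1) (1 - I) 1 := by unfold SR; ring
  rw [e]
  exact h1.fun_sub h2

theorem hasDerivAt_SL {ρ δ : ℝ} (hρ : 0 < ρ) (hδ : 0 < δ) (ψ : ℝ) :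
    HasDerivAt (fun ψ : ℝ => SL ρ δ ψ 0) (-(1 / δ : ℂ) * SL ρ δ ψ 1) ψ := by
  have h1 := hasDerivAt_ray (ρ := ρ) hδ (p := 1 - I) (d := -(1 + I))
    (fun ψ j => by simpa using kj_int_down hρ hδ ψ j (m := 1) one_pos (1 - I)) ψ
  have h2 := hasDerivAt_ray (ρ := ρ) hδ (p := 1 - I) (d := 1)
    (fun ψ j => kj_int_right hρ hδ ψ j (by simp; linarith [Real.pi_gt_three]) (by simp)) ψ
  have e : -(1 / δ : ℂ) * SL ρ δ ψ 1 = -(1 / δ : ℂ) * ray (kj ρ δ ψ 1) (1 - I) 1 -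
      -(1 / δ : ℂ) * ray (kj ρ δ ψ 1) (1 - I) (-(1 + I)) := by unfold SL; ring
  rw [e]
  exact h2.fun_sub h1

end SokamFU

end

/-! ### Lib_MP_af4de1_fu.MGen -/

section
/-!
# The general estimate: hypotheses and error terms

`JJ δ h p d w`, `p = -(τ d)`: the main line is `v = t d`, `t > -τ`, the horizontal ray starts at `v = -(τ d)`.
`EE = E2 + O(v³)`, `E2 = (i/δ)(1-h)v²/2`; `‖(∫_ℝ e^(E2(td)) dt) d‖ = √(2πδ/‖1-h‖)`.
Identity (helper13): `(1-h) ∫ v e^EE = h ∫ (e^v - 1 - v) e^EE`.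
-/

set_option autoImplicit false

namespace SokamFU

open Complex MeasureTheory Set

/-- Hypotheses of the general estimate (heights `ff`). -/
structure Hyp (δ : ℝ) (h d : ℂ) (τ T T' cp cm B l b σ K2 K3 : ℝ) : Prop where
  δpos : 0 < δ
  h_ne : h ≠ 1
  d_ne : d ≠ 0
  d_re : d.re ≤ 0
  τpos : 0 < τ
  Tpos : 0 < T
  TT : T ≤ T'
  cppos : 0 < cp
  cmpos : 0 < cm
  lpos : 0 < l
  Bpos : 0 < B
  bpos : 0 < b
  σgt : δ < σ
  K2pos : 0 ≤ K2
  K3pos : 0 ≤ K3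
  quad : ∀ t : ℝ, max cp cm * t ^ (2 : ℕ) ≤ ((1 - h) * (t * d) ^ (2 : ℕ) / 2).im
  right : ∀ t : ℝ, 0 ≤ t → t ≤ τ → cm * t ^ (2 : ℕ) ≤ ff h (-(t * d))
  left : ∀ t : ℝ, 0 ≤ t → t ≤ T → cp * t ^ (2 : ℕ) ≤ ff h (t * d)
  far : ∀ t : ℝ, T ≤ t → B + l * max (t - T') 0 ≤ ff h (t * d)
  side : ∀ u : ℝ, 0 ≤ u → b + σ * u ≤ ff h (-(τ * d) + u)
  k2 : ∀ t : ℝ, 0 ≤ t → t ≤ τ → ‖cexp (-(t * d)) - 1 - -(t * d)‖ ≤ K2 * (t * ‖d‖) ^ (2 : ℕ) / 2
  k3 : ∀ t : ℝ, 0 ≤ t → t ≤ τ →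
    ‖cexp (-(t * d)) - 1 - -(t * d) - (-(t * d)) ^ (2 : ℕ) / 2‖ ≤ K3 * (t * ‖d‖) ^ (3 : ℕ) / 6

/-- error in the lower bound of `‖∫ e^EE‖`; `H = ‖h‖`, `q = ‖d‖` -/
noncomputable def lowErr (δ H q τ T T' cp cm B l b σ K3 : ℝ) : ℝ :=
  H * q ^ (4 : ℕ) / 12 * (1 / cp ^ (2 : ℕ) + K3 / cm ^ (2 : ℕ)) * δ +
    q * (((T' - T) + δ / l) * Real.exp (-B / δ) + δ / (cp * T) * Real.exp (-(cp * T ^ (2 : ℕ)) / δ) +
      δ / (cm * τ) * Real.exp (-(cm * τ ^ (2 : ℕ)) / δ)) + δ / σ * Real.exp (-b / δ)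

/-- upper bound of `∫ ‖e^v - 1 - v‖ ‖e^EE‖ |dv|`; `r = |Re d|` -/
noncomputable def upErr (δ q r τ T T' cp cm B l b σ K2 : ℝ) : ℝ :=
  q ^ (3 : ℕ) * (Real.sqrt Real.pi / 8) * (δ / cp * Real.sqrt (δ / cp) + K2 * (δ / cm) * Real.sqrt (δ / cm)) +
    q ^ (3 : ℕ) / 2 * ((T' ^ (3 : ℕ) - T ^ (3 : ℕ)) / 3 + δ / l * (T' ^ (2 : ℕ) + 2 * T' * (δ / l) + 2 * (δ / l) ^ (2 : ℕ))) *
      Real.exp (-B / δ) +
    Real.exp (τ * r - b / δ) / 2 * ((τ * q) ^ (2 : ℕ) / (σ / δ - 1) + 2 * (τ * q) / (σ / δ - 1) ^ (2 : ℕ) +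
      2 / (σ / δ - 1) ^ (3 : ℕ))

end SokamFU

end

/-! ### Lib_MP_af4de1_fu.MGauss -/

section
/-!
# The complex Gauss integral [FU-M10]

`integral_gaussian_complex`, norm of the square root; `E2(td) = -β t²` with `Re β > 0` (field `quad`).
-/

set_option autoImplicit false

namespace SokamFU

open Complex MeasureTheory Set

/-- `E2 = (i/δ)(1-h)v²/2` -/
noncomputable def E2 (δ : ℝ) (h v : ℂ) : ℂ := I / δ * ((1 - h) * v ^ (2 : ℕ) / 2)

theorem norm_E2 {δ : ℝ} (h v : ℂ) :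
    ‖cexp (E2 δ h v)‖ = Real.exp (-((1 - h) * v ^ (2 : ℕ) / 2).im / δ) := by
  unfold E2
  rw [Complex.norm_exp]
  congr 1
  have h1 : I / δ * ((1 - h) * v ^ (2 : ℕ) / 2) =
      ((1 / δ : ℝ) : ℂ) * (I * ((1 - h) * v ^ (2 : ℕ) / 2)) := by
    push_cast; ring
  rw [h1, re_ofReal_mul, I_mul_re]
  ring

/-- the coefficient of the Gauss integral -/
private noncomputable def bb_mgauss (δ : ℝ) (h d : ℂ) : ℂ := -(I / δ * ((1 - h) * d ^ (2 : ℕ) / 2))

private theorem E2_mgauss (δ : ℝ) (h d : ℂ) (t : ℝ) :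
    E2 δ h (t * d) = -bb_mgauss δ h d * (t : ℂ) ^ (2 : ℕ) := by
  unfold E2 bb_mgauss
  ring

private theorem re_mgauss {δ : ℝ} (hδ : 0 < δ) {h d : ℂ} {c : ℝ} (hc : 0 < c)
    (hQ : ∀ t : ℝ, c * t ^ (2 : ℕ) ≤ ((1 - h) * (t * d) ^ (2 : ℕ) / 2).im) : 0 < (bb_mgauss δ h d).re := by
  have h0 := hQ 1
  rw [Complex.ofReal_one, one_mul, one_pow, mul_one] at h0
  unfold bb_mgauss
  have h1 : I / δ * ((1 - h) * d ^ (2 : ℕ) / 2) =
      ((1 / δ : ℝ) : ℂ) * (I * ((1 - h) * d ^ (2 : ℕ) / 2)) := by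
    push_cast; ring
  rw [neg_re, h1, re_ofReal_mul, I_mul_re]
  have h2 : 0 < 1 / δ := by positivity
  nlinarith

theorem gauss_integrable {δ : ℝ} (hδ : 0 < δ) {h d : ℂ} {c : ℝ} (hc : 0 < c)
    (hQ : ∀ t : ℝ, c * t ^ (2 : ℕ) ≤ ((1 - h) * (t * d) ^ (2 : ℕ) / 2).im) :
    Integrable (fun t : ℝ => cexp (E2 δ h (t * d))) := by
  simp only [E2_mgauss]
  exact integrable_cexp_neg_mul_sq (re_mgauss hδ hc hQ)

theorem gauss_norm {δ : ℝ} (hδ : 0 < δ) {h d : ℂ} {c : ℝ} (hc : 0 < c)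
    (hQ : ∀ t : ℝ, c * t ^ (2 : ℕ) ≤ ((1 - h) * (t * d) ^ (2 : ℕ) / 2).im) :
    ‖(∫ t : ℝ, cexp (E2 δ h (t * d))) * d‖ = Real.sqrt (2 * Real.pi * δ / ‖1 - h‖) := by
  have hre := re_mgauss hδ hc hQ
  simp only [E2_mgauss]
  rw [integral_gaussian_complex hre]
  have hb : bb_mgauss δ h d ≠ 0 := by
    intro h1
    rw [h1, zero_re] at hre
    exact lt_irrefl _ hre
  have hd : d ≠ 0 := by
    rintro rfl
    apply hb
    unfold bb_mgauss
    ring
  have hh : 1 - h ≠ 0 := by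
    intro h1
    apply hb
    unfold bb_mgauss
    rw [h1]
    ring
  have hn : ‖bb_mgauss δ h d‖ = ‖1 - h‖ * ‖d‖ ^ (2 : ℕ) / (2 * δ) := by
    unfold bb_mgauss
    rw [norm_neg, norm_mul, norm_div, norm_div, norm_mul, norm_pow, norm_I, norm_real,
      Real.norm_of_nonneg hδ.le, Complex.norm_ofNat]
    field_simp
  have h1 : ‖(Real.pi / bb_mgauss δ h d : ℂ) ^ (1 / 2 : ℂ)‖ =
      Real.sqrt (Real.pi / ‖bb_mgauss δ h d‖) := by
    have h2 : (1 / 2 : ℂ) = ((1 / 2 : ℝ) : ℂ) := by push_cast; ring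
    rw [h2, Complex.norm_cpow_real, Real.sqrt_eq_rpow, norm_div, norm_real,
      Real.norm_of_nonneg Real.pi_pos.le]
  rw [norm_mul, h1, hn]
  have hdp : 0 < ‖d‖ := norm_pos_iff.2 hd
  have hhp : 0 < ‖1 - h‖ := norm_pos_iff.2 hh
  have h3 : Real.pi / (‖1 - h‖ * ‖d‖ ^ (2 : ℕ) / (2 * δ)) = (2 * Real.pi * δ / ‖1 - h‖) / ‖d‖ ^ (2 : ℕ) := by
    field_simp
  rw [h3, Real.sqrt_div' _ (sq_nonneg _), Real.sqrt_sq hdp.le]
  field_simp

end SokamFU

end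

/-! ### Lib_MP_af4de1_fu.MElem -/

section
/-!
# Elementary bounds for `exp` [FU-M8]
-/

set_option autoImplicit false

namespace SokamFU

open Complex MeasureTheory Set

theorem norm_exp_sub_exp_le (a b : ℂ) :
    ‖cexp a - cexp b‖ ≤ ‖a - b‖ * Real.exp (max a.re b.re) := by
  have hconv : Convex ℝ {c : ℂ | c.re ≤ max a.re b.re} := convex_halfSpace_re_le _
  have h := hconv.norm_image_sub_le_of_norm_hasDerivWithin_le (f := cexp) (f' := cexp)
    (C := Real.exp (max a.re b.re)) (x := b) (y := a)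
    (fun x _ => (Complex.hasDerivAt_exp x).hasDerivWithinAt)
    (fun x hx => by
      rw [Complex.norm_exp]
      exact Real.exp_le_exp.mpr hx)
    (show b.re ≤ max a.re b.re from le_max_right _ _)
    (show a.re ≤ max a.re b.re from le_max_left _ _)
  rw [mul_comm] at h
  exact h

/-- integration of a bound on `[0, 1]` -/
private theorem melem_step {f f' : ℝ → ℂ} (hf : ∀ t, HasDerivAt f (f' t) t) (h0 : f 0 = 0)
    {B B' : ℝ → ℝ} (hB : ∀ t, HasDerivAt B (B' t) t) (hB0 : 0 ≤ B 0)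
    (hb : ∀ t, 0 ≤ t → t ≤ 1 → ‖f' t‖ ≤ B' t) (t : ℝ) (ht : 0 ≤ t) (ht1 : t ≤ 1) :
    ‖f t‖ ≤ B t := by
  have h := image_norm_le_of_norm_deriv_right_le_deriv_boundary (f := f) (f' := f')
    (a := 0) (b := 1) (fun x _ => (hf x).continuousAt.continuousWithinAt)
    (fun x _ => (hf x).hasDerivWithinAt) (B := B) (B' := B')
    (by rw [h0, norm_zero]; exact hB0) hB (fun x hx => hb x hx.1 hx.2.le)
  exact h ⟨ht, ht1⟩

private theorem melem_e0 {v : ℂ} {M : ℝ} (hM : Real.exp (max v.re 0) ≤ M) (t : ℝ) (ht : 0 ≤ t)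
    (ht1 : t ≤ 1) : ‖cexp (t * v) - 1‖ ≤ t * ‖v‖ * M := by
  have h := norm_exp_sub_exp_le (t * v) 0
  rw [Complex.exp_zero, sub_zero, norm_mul, Complex.norm_real, Real.norm_of_nonneg ht] at h
  refine h.trans (mul_le_mul_of_nonneg_left (le_trans (Real.exp_le_exp.mpr ?_) hM)
    (by positivity))
  rw [re_ofReal_mul, zero_re]
  refine max_le ?_ (le_max_right _ _)
  rcases le_total 0 v.re with h1 | h1
  · exact le_trans (mul_le_of_le_one_left h1 ht1) (le_max_left _ _)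
  · exact le_trans (mul_nonpos_of_nonneg_of_nonpos ht h1) (le_max_right _ _)

private theorem melem_d0 (v : ℂ) (t : ℝ) :
    HasDerivAt (fun t : ℝ => cexp (t * v)) (v * cexp (t * v)) t := by
  have h1 : HasDerivAt (fun t : ℝ => (t : ℂ) * v) (1 * v) t :=
    (Complex.ofRealCLM.hasDerivAt (x := t)).mul_const v
  have h2 := h1.cexp
  rwa [one_mul, mul_comm] at h2

private theorem melem_d1 (v : ℂ) (t : ℝ) :
    HasDerivAt (fun t : ℝ => (t : ℂ) * v) v t := by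
  have h1 : HasDerivAt (fun t : ℝ => (t : ℂ) * v) (1 * v) t :=
    (Complex.ofRealCLM.hasDerivAt (x := t)).mul_const v
  rwa [one_mul] at h1

private theorem melem_e1 {v : ℂ} {M : ℝ} (hM : Real.exp (max v.re 0) ≤ M) (t : ℝ) (ht : 0 ≤ t)
    (ht1 : t ≤ 1) : ‖cexp (t * v) - 1 - t * v‖ ≤ t ^ (2 : ℕ) * (‖v‖ ^ (2 : ℕ) * M / 2) := by
  refine melem_step (f := fun t : ℝ => cexp (t * v) - 1 - t * v)
    (f' := fun t : ℝ => v * cexp (t * v) - v)
    (fun t => ((melem_d0 v t).sub_const 1).sub (melem_d1 v t)) ?_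
    (B := fun t => t ^ (2 : ℕ) * (‖v‖ ^ (2 : ℕ) * M / 2)) (B' := fun t => (2 * t) * (‖v‖ ^ (2 : ℕ) * M / 2))
    (fun t => ?_) ?_ ?_ t ht ht1
  · simp
  · have h := (hasDerivAt_pow 2 t).mul_const (‖v‖ ^ (2 : ℕ) * M / 2)
    simpa using h
  · simp
  · intro s hs hs1
    have h := melem_e0 hM s hs hs1
    have e : v * cexp (s * v) - v = v * (cexp (s * v) - 1) := by ring
    show ‖v * cexp (s * v) - v‖ ≤ (2 * s) * (‖v‖ ^ (2 : ℕ) * M / 2)
    rw [e, norm_mul]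
    calc ‖v‖ * ‖cexp (s * v) - 1‖ ≤ ‖v‖ * (s * ‖v‖ * M) :=
          mul_le_mul_of_nonneg_left h (norm_nonneg v)
      _ = (2 * s) * (‖v‖ ^ (2 : ℕ) * M / 2) := by ring

private theorem melem_e2 {v : ℂ} {M : ℝ} (hM : Real.exp (max v.re 0) ≤ M) (t : ℝ) (ht : 0 ≤ t)
    (ht1 : t ≤ 1) :
    ‖cexp (t * v) - 1 - t * v - (t * v) ^ (2 : ℕ) / 2‖ ≤ t ^ (3 : ℕ) * (‖v‖ ^ (3 : ℕ) * M / 6) := by
  refine melem_step (f := fun t : ℝ => cexp (t * v) - 1 - t * v - (t * v) ^ (2 : ℕ) / 2)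
    (f' := fun t : ℝ => v * cexp (t * v) - v - v * (t * v))
    (fun t => ?_) ?_
    (B := fun t => t ^ (3 : ℕ) * (‖v‖ ^ (3 : ℕ) * M / 6)) (B' := fun t => (3 * t ^ (2 : ℕ)) * (‖v‖ ^ (3 : ℕ) * M / 6))
    (fun t => ?_) ?_ ?_ t ht ht1
  · have h := (((melem_d1 v t).pow 2).div_const 2)
    have h2 := (((melem_d0 v t).sub_const 1).sub (melem_d1 v t)).sub h
    have e : v * (t * v) = (((2 : ℕ) : ℂ) * ((t : ℂ) * v) ^ (2 - 1) * v) / 2 := by
      push_cast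
      ring
    rw [e]
    exact h2
  · simp
  · have h := (hasDerivAt_pow 3 t).mul_const (‖v‖ ^ (3 : ℕ) * M / 6)
    simpa using h
  · simp
  · intro s hs hs1
    have h := melem_e1 hM s hs hs1
    have e : v * cexp (s * v) - v - v * (s * v) = v * (cexp (s * v) - 1 - s * v) := by ring
    show ‖v * cexp (s * v) - v - v * (s * v)‖ ≤ (3 * s ^ (2 : ℕ)) * (‖v‖ ^ (3 : ℕ) * M / 6)
    rw [e, norm_mul]
    calc ‖v‖ * ‖cexp (s * v) - 1 - s * v‖ ≤ ‖v‖ * (s ^ (2 : ℕ) * (‖v‖ ^ (2 : ℕ) * M / 2)) :=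
          mul_le_mul_of_nonneg_left h (norm_nonneg v)
      _ = (3 * s ^ (2 : ℕ)) * (‖v‖ ^ (3 : ℕ) * M / 6) := by ring

/-- monotonicity of the remainder of the exponential series divided by the power -/
private theorem melem_ball (k : ℕ) {x r : ℝ} (hx : 0 ≤ x) (hxr : x ≤ r) :
    (Real.exp x - ∑ i ∈ Finset.range k, x ^ i / i.factorial) * r ^ k ≤
      (Real.exp r - ∑ i ∈ Finset.range k, r ^ i / i.factorial) * x ^ k := by
  have hr : 0 ≤ r := hx.trans hxr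
  have h1 : ∀ y : ℝ, HasSum (fun n : ℕ => y ^ (n + k) / (n + k).factorial)
      (Real.exp y - ∑ i ∈ Finset.range k, y ^ i / i.factorial) := by
    intro y
    have h := NormedSpace.expSeries_div_hasSum_exp (y : ℝ)
    rw [← Real.exp_eq_exp_ℝ] at h
    exact (hasSum_nat_add_iff' k).mpr h
  refine hasSum_le (fun n => ?_) ((h1 x).mul_right (r ^ k)) ((h1 r).mul_right (x ^ k))
  have h2 : x ^ n ≤ r ^ n := pow_le_pow_left₀ hx hxr n
  have h3 : x ^ (n + k) / ((n + k).factorial : ℝ) * r ^ k =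
      x ^ n * (x ^ k * r ^ k / (n + k).factorial) := by
    rw [pow_add]
    ring
  have h4 : r ^ (n + k) / ((n + k).factorial : ℝ) * x ^ k =
      r ^ n * (x ^ k * r ^ k / (n + k).factorial) := by
    rw [pow_add]
    ring
  rw [h3, h4]
  exact mul_le_mul_of_nonneg_right h2 (by positivity)

theorem taylor2_left {v : ℂ} (hv : v.re ≤ 0) : ‖cexp v - 1 - v‖ ≤ ‖v‖ ^ (2 : ℕ) / 2 := by
  have hM : Real.exp (max v.re 0) ≤ 1 := by
    rw [max_eq_right hv, Real.exp_zero]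
  have h := melem_e1 hM 1 zero_le_one le_rfl
  simpa using h

theorem taylor3_left {v : ℂ} (hv : v.re ≤ 0) : ‖cexp v - 1 - v - v ^ (2 : ℕ) / 2‖ ≤ ‖v‖ ^ (3 : ℕ) / 6 := by
  have hM : Real.exp (max v.re 0) ≤ 1 := by
    rw [max_eq_right hv, Real.exp_zero]
  have h := melem_e2 hM 1 zero_le_one le_rfl
  simpa using h

theorem taylor2_right {v : ℂ} (hv : 0 ≤ v.re) : ‖cexp v - 1 - v‖ ≤ ‖v‖ ^ (2 : ℕ) / 2 * Real.exp v.re := by
  have hM : Real.exp (max v.re 0) ≤ Real.exp v.re := by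
    rw [max_eq_left hv]
  have h := melem_e1 hM 1 zero_le_one le_rfl
  have e : ‖v‖ ^ (2 : ℕ) / 2 * Real.exp v.re = (1 : ℝ) ^ (2 : ℕ) * (‖v‖ ^ (2 : ℕ) * Real.exp v.re / 2) := by ring
  rw [e]
  simpa using h

/-- `(e^x - 1 - x)/x²` is increasing (power series). -/
theorem taylor2_ball {v : ℂ} {r K : ℝ} (hr : 0 < r) (hv : ‖v‖ ≤ r)
    (hK : Real.exp r - 1 - r ≤ K * r ^ (2 : ℕ) / 2) : ‖cexp v - 1 - v‖ ≤ K * ‖v‖ ^ (2 : ℕ) / 2 := by
  have h1 := Complex.norm_exp_sub_sum_le_exp_norm_sub_sum v 2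
  have h2 := melem_ball 2 (norm_nonneg v) hv
  have e1 : ∀ y : ℝ, ∑ i ∈ Finset.range 2, y ^ i / (i.factorial : ℝ) = 1 + y := by
    intro y
    simp [Finset.sum_range_succ]
  have e2 : ∑ i ∈ Finset.range 2, v ^ i / (i.factorial : ℂ) = 1 + v := by
    simp [Finset.sum_range_succ]
  rw [e1, e2] at h1
  rw [e1, e1] at h2
  have e3 : cexp v - (1 + v) = cexp v - 1 - v := by ring
  rw [e3] at h1
  have hr2 : 0 < r ^ (2 : ℕ) := by positivity
  have h3 : ‖cexp v - 1 - v‖ * r ^ (2 : ℕ) ≤ (K * ‖v‖ ^ (2 : ℕ) / 2) * r ^ (2 : ℕ) := by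
    calc ‖cexp v - 1 - v‖ * r ^ (2 : ℕ) ≤ (Real.exp ‖v‖ - (1 + ‖v‖)) * r ^ (2 : ℕ) :=
          mul_le_mul_of_nonneg_right h1 hr2.le
      _ ≤ (Real.exp r - (1 + r)) * ‖v‖ ^ (2 : ℕ) := h2
      _ ≤ (K * r ^ (2 : ℕ) / 2) * ‖v‖ ^ (2 : ℕ) :=
          mul_le_mul_of_nonneg_right (by linarith) (by positivity)
      _ = (K * ‖v‖ ^ (2 : ℕ) / 2) * r ^ (2 : ℕ) := by ring
  exact le_of_mul_le_mul_right h3 hr2

theorem taylor3_ball {v : ℂ} {r K : ℝ} (hr : 0 < r) (hv : ‖v‖ ≤ r)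
    (hK : Real.exp r - 1 - r - r ^ (2 : ℕ) / 2 ≤ K * r ^ (3 : ℕ) / 6) :
    ‖cexp v - 1 - v - v ^ (2 : ℕ) / 2‖ ≤ K * ‖v‖ ^ (3 : ℕ) / 6 := by
  have h1 := Complex.norm_exp_sub_sum_le_exp_norm_sub_sum v 3
  have h2 := melem_ball 3 (norm_nonneg v) hv
  have e1 : ∀ y : ℝ, ∑ i ∈ Finset.range 3, y ^ i / (i.factorial : ℝ) = 1 + y + y ^ (2 : ℕ) / 2 := by
    intro y
    simp [Finset.sum_range_succ, Nat.factorial]
  have e2 : ∑ i ∈ Finset.range 3, v ^ i / (i.factorial : ℂ) = 1 + v + v ^ (2 : ℕ) / 2 := by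
    simp [Finset.sum_range_succ, Nat.factorial]
  rw [e1, e2] at h1
  rw [e1, e1] at h2
  have e3 : cexp v - (1 + v + v ^ (2 : ℕ) / 2) = cexp v - 1 - v - v ^ (2 : ℕ) / 2 := by ring
  rw [e3] at h1
  have hr3 : 0 < r ^ (3 : ℕ) := by positivity
  have h3 : ‖cexp v - 1 - v - v ^ (2 : ℕ) / 2‖ * r ^ (3 : ℕ) ≤ (K * ‖v‖ ^ (3 : ℕ) / 6) * r ^ (3 : ℕ) := by
    calc ‖cexp v - 1 - v - v ^ (2 : ℕ) / 2‖ * r ^ (3 : ℕ) ≤
          (Real.exp ‖v‖ - (1 + ‖v‖ + ‖v‖ ^ (2 : ℕ) / 2)) * r ^ (3 : ℕ) :=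
          mul_le_mul_of_nonneg_right h1 hr3.le
      _ ≤ (Real.exp r - (1 + r + r ^ (2 : ℕ) / 2)) * ‖v‖ ^ (3 : ℕ) := h2
      _ ≤ (K * r ^ (3 : ℕ) / 6) * ‖v‖ ^ (3 : ℕ) :=
          mul_le_mul_of_nonneg_right (by linarith) (by positivity)
      _ = (K * ‖v‖ ^ (3 : ℕ) / 6) * r ^ (3 : ℕ) := by ring
  exact le_of_mul_le_mul_right h3 hr3

/-- the height in real coordinates -/
theorem ff_eq (a s x y : ℝ) : ff (a + s * I) (x + y * I) =
    x * y - a * (Real.exp x * Real.sin y - y) - s * (Real.exp x * Real.cos y - 1 - x) := by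
  unfold ff
  have e0 : (((x : ℂ) + y * I)).re = x := by simp
  have e1 : (((x : ℂ) + y * I)).im = y := by simp
  have h2 : cexp ((x : ℂ) + y * I) = ((Real.exp x * Real.cos y : ℝ) : ℂ) +
      ((Real.exp x * Real.sin y : ℝ) : ℂ) * I := by
    apply Complex.ext
    · rw [exp_re, e0, e1, add_re, ofReal_re, re_ofReal_mul, I_re]; ring
    · rw [exp_im, e0, e1, add_im, ofReal_im, im_ofReal_mul, I_im]; ring
  rw [h2]
  obtain ⟨A, hA⟩ : ∃ A : ℝ, A = Real.exp x * Real.cos y := ⟨_, rfl⟩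
  obtain ⟨B, hB⟩ : ∃ B : ℝ, B = Real.exp x * Real.sin y := ⟨_, rfl⟩
  rw [← hA, ← hB]
  have h3 : (((x : ℂ) + y * I) ^ (2 : ℕ) / 2 - (a + s * I) * ((A : ℂ) + B * I - 1 - (x + y * I))) =
      (((x ^ (2 : ℕ) - y ^ (2 : ℕ)) / 2 - (a * (A - 1 - x) - s * (B - y)) : ℝ) : ℂ) +
      ((x * y - a * (B - y) - s * (A - 1 - x) : ℝ) : ℂ) * I := by
    push_cast
    linear_combination ((y : ℂ) ^ (2 : ℕ) / 2 - s * (B - y)) * I_sq
  rw [h3, add_im, ofReal_im, im_ofReal_mul, I_im]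
  ring

end SokamFU

end

/-! ### Lib_MP_af4de1_fu.MInteg -/

section
/-!
# Real integrals [FU-M9]
-/

set_option autoImplicit false

namespace SokamFU

open MeasureTheory Set Filter Topology

private theorem fin_m9 {a : ℝ} {G g : ℝ → ℝ} (hd : ∀ x, HasDerivAt G (g x) x)
    (hp : ∀ x ∈ Ioi a, 0 ≤ g x) (hl : Tendsto G atTop (𝓝 0)) :
    IntegrableOn g (Ioi a) ∧ ∫ x in Ioi a, g x = -G a := by
  have h := integral_Ioi_of_hasDerivAt_of_nonneg' (fun x _ => hd x) hp hl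
  rw [zero_sub] at h
  exact ⟨integrableOn_Ioi_deriv_of_nonneg' (fun x _ => hd x) hp hl, h⟩

private theorem lim_pow_m9 {k : ℝ} (hk : 0 < k) (n : ℕ) :
    Tendsto (fun t : ℝ => t ^ n * Real.exp (-(k * t))) atTop (𝓝 0) := by
  have h1 : Tendsto (fun t : ℝ => k * t) atTop atTop := tendsto_id.const_mul_atTop hk
  have h2 := ((Real.tendsto_pow_mul_exp_neg_atTop_nhds_zero n).comp h1).const_mul ((k ^ n)⁻¹)
  rw [mul_zero] at h2
  refine h2.congr fun t => ?_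
  simp only [Function.comp]
  rw [mul_pow, ← mul_assoc, ← mul_assoc, inv_mul_cancel₀ (pow_ne_zero n hk.ne'), one_mul]

/-- quadratic polynomial times exponential -/
private theorem lim_quad_m9 {k : ℝ} (hk : 0 < k) (a b c : ℝ) :
    Tendsto (fun t : ℝ => (a * t ^ (2 : ℕ) + b * t + c) * Real.exp (-(k * t))) atTop (𝓝 0) := by
  have h1 := (((lim_pow_m9 hk 2).const_mul a).add ((lim_pow_m9 hk 1).const_mul b)).add
    ((lim_pow_m9 hk 0).const_mul c)
  rw [mul_zero, mul_zero, mul_zero, add_zero, add_zero] at h1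
  refine h1.congr fun t => ?_
  ring

private theorem lim_sq_m9 {k : ℝ} (hk : 0 < k) (a c : ℝ) :
    Tendsto (fun t : ℝ => (a * t ^ (2 : ℕ) + c) * Real.exp (-(k * t ^ (2 : ℕ)))) atTop (𝓝 0) := by
  have h1 : Tendsto (fun t : ℝ => t ^ (2 : ℕ)) atTop atTop := tendsto_pow_atTop two_ne_zero
  have h2 := (lim_quad_m9 hk 0 a c).comp h1
  refine h2.congr fun t => ?_
  simp only [Function.comp]
  ring_nf

private theorem hasDeriv_gauss_m9 (k x : ℝ) :
    HasDerivAt (fun t : ℝ => Real.exp (-(k * t ^ (2 : ℕ)))) (-(2 * k * x) * Real.exp (-(k * x ^ (2 : ℕ)))) x := by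
  have h1 : HasDerivAt (fun t : ℝ => -(k * t ^ (2 : ℕ))) (-(k * (2 * x))) x := by
    have h0 : HasDerivAt (fun t : ℝ => k * t ^ (2 : ℕ)) (k * (2 * x)) x := by
      have := (hasDerivAt_pow 2 x).const_mul k
      simpa using this
    exact h0.neg
  have h2 := h1.exp
  have e : Real.exp (-(k * x ^ (2 : ℕ))) * -(k * (2 * x)) = -(2 * k * x) * Real.exp (-(k * x ^ (2 : ℕ))) := by ring
  rwa [e] at h2

private theorem hasDeriv_lin_m9 (k m x : ℝ) :
    HasDerivAt (fun t : ℝ => Real.exp (m - k * t)) (-k * Real.exp (m - k * x)) x := by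
  have h1 : HasDerivAt (fun t : ℝ => m - k * t) (-k) x := by
    have := ((hasDerivAt_id x).const_mul k).const_sub m
    simpa using this
  have h2 := h1.exp
  rwa [mul_comm] at h2

private theorem t3_m9 {k : ℝ} (hk : 0 < k) :
    IntegrableOn (fun t : ℝ => t ^ (3 : ℕ) * Real.exp (-(k * t ^ (2 : ℕ)))) (Ioi 0) ∧
    ∫ t in Ioi (0 : ℝ), t ^ (3 : ℕ) * Real.exp (-(k * t ^ (2 : ℕ))) = 1 / (2 * k ^ (2 : ℕ)) := by
  have hd : ∀ x : ℝ, HasDerivAt (fun t : ℝ => (-(1 / (2 * k)) * t ^ (2 : ℕ) + -(1 / (2 * k ^ (2 : ℕ)))) *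
      Real.exp (-(k * t ^ (2 : ℕ)))) (x ^ (3 : ℕ) * Real.exp (-(k * x ^ (2 : ℕ)))) x := by
    intro x
    have h1 : HasDerivAt (fun t : ℝ => -(1 / (2 * k)) * t ^ (2 : ℕ) + -(1 / (2 * k ^ (2 : ℕ))))
        (-(1 / (2 * k)) * (2 * x)) x := by
      have := ((hasDerivAt_pow 2 x).const_mul (-(1 / (2 * k)))).add_const (-(1 / (2 * k ^ (2 : ℕ))))
      simpa using this
    have h2 := h1.mul (hasDeriv_gauss_m9 k x)
    have e : -(1 / (2 * k)) * (2 * x) * Real.exp (-(k * x ^ (2 : ℕ))) +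
        (-(1 / (2 * k)) * x ^ (2 : ℕ) + -(1 / (2 * k ^ (2 : ℕ)))) * (-(2 * k * x) * Real.exp (-(k * x ^ (2 : ℕ)))) =
        x ^ (3 : ℕ) * Real.exp (-(k * x ^ (2 : ℕ))) := by
      field_simp
      ring
    rw [e] at h2
    exact h2
  have h := fin_m9 (a := 0) hd (fun x hx => by
    have : 0 < x := hx
    positivity) (lim_sq_m9 hk _ _)
  refine ⟨h.1, h.2.trans ?_⟩
  simp

theorem int_t3 {c δ : ℝ} (hc : 0 < c) (hδ : 0 < δ) :
    IntegrableOn (fun t : ℝ => t ^ (3 : ℕ) * Real.exp (-(c * t ^ (2 : ℕ)) / δ)) (Ioi 0) ∧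
    ∫ t in Ioi (0 : ℝ), t ^ (3 : ℕ) * Real.exp (-(c * t ^ (2 : ℕ)) / δ) = δ ^ (2 : ℕ) / (2 * c ^ (2 : ℕ)) := by
  have h := t3_m9 (k := c / δ) (by positivity)
  have e : (fun t : ℝ => t ^ (3 : ℕ) * Real.exp (-(c / δ * t ^ (2 : ℕ)))) =
      fun t : ℝ => t ^ (3 : ℕ) * Real.exp (-(c * t ^ (2 : ℕ)) / δ) := by
    funext t
    congr 2
    ring
  rw [e] at h
  refine ⟨h.1, h.2.trans ?_⟩
  field_simp

theorem int_t2 {c δ : ℝ} (hc : 0 < c) (hδ : 0 < δ) :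
    IntegrableOn (fun t : ℝ => t ^ (2 : ℕ) * Real.exp (-(c * t ^ (2 : ℕ)) / δ)) (Ioi 0) ∧
    ∫ t in Ioi (0 : ℝ), t ^ (2 : ℕ) * Real.exp (-(c * t ^ (2 : ℕ)) / δ) =
      Real.sqrt Real.pi / 4 * (δ / c * Real.sqrt (δ / c)) := by
  obtain ⟨k, hk⟩ : ∃ k, k = c / δ := ⟨_, rfl⟩
  have hk0 : 0 < k := by rw [hk]; positivity
  have e : (fun t : ℝ => t ^ (2 : ℕ) * Real.exp (-(c * t ^ (2 : ℕ)) / δ)) =
      fun t : ℝ => t ^ (2 : ℕ) * Real.exp (-(k * t ^ (2 : ℕ))) := by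
    funext t
    rw [hk]
    congr 2
    ring
  have hint : IntegrableOn (fun t : ℝ => t ^ (2 : ℕ) * Real.exp (-(k * t ^ (2 : ℕ)))) (Ioi 0) := by
    have h1 := integrableOn_rpow_mul_exp_neg_mul_sq hk0 (s := 2) (by norm_num)
    refine h1.congr_fun (fun t _ => ?_) measurableSet_Ioi
    simp only [Real.rpow_two, neg_mul]
  have hint0 : IntegrableOn (fun t : ℝ => Real.exp (-(k * t ^ (2 : ℕ)))) (Ioi 0) := by
    have h1 := (integrable_exp_neg_mul_sq hk0).integrableOn (s := Ioi (0 : ℝ))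
    refine h1.congr_fun (fun t _ => ?_) measurableSet_Ioi
    simp only [neg_mul]
  have hd : ∀ x ∈ Ici (0 : ℝ), HasDerivAt (fun t : ℝ => -(1 / (2 * k)) * (t * Real.exp (-(k * t ^ (2 : ℕ)))))
      (x ^ (2 : ℕ) * Real.exp (-(k * x ^ (2 : ℕ))) - 1 / (2 * k) * Real.exp (-(k * x ^ (2 : ℕ)))) x := by
    intro x _
    have h2 := ((hasDerivAt_id x).mul (hasDeriv_gauss_m9 k x)).const_mul (-(1 / (2 * k)))
    have e2 : -(1 / (2 * k)) * (1 * Real.exp (-(k * x ^ (2 : ℕ))) + id x * (-(2 * k * x) * Real.exp (-(k * x ^ (2 : ℕ))))) =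
        x ^ (2 : ℕ) * Real.exp (-(k * x ^ (2 : ℕ))) - 1 / (2 * k) * Real.exp (-(k * x ^ (2 : ℕ))) := by
      simp only [id]
      field_simp
      ring
    rw [e2] at h2
    exact h2
  have hlim : Tendsto (fun t : ℝ => -(1 / (2 * k)) * (t * Real.exp (-(k * t ^ (2 : ℕ))))) atTop (𝓝 0) := by
    have h1 : Tendsto (fun t : ℝ => t * Real.exp (-(k * t ^ (2 : ℕ)))) atTop (𝓝 0) := by
      refine squeeze_zero' (g := fun t : ℝ => (1 * t ^ (2 : ℕ) + 1) * Real.exp (-(k * t ^ (2 : ℕ)))) ?_ ?_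
        (lim_sq_m9 hk0 1 1)
      · filter_upwards [eventually_ge_atTop (0 : ℝ)] with t ht
        (clear * - ht; positivity)
      · filter_upwards with t
        refine mul_le_mul_of_nonneg_right ?_ (Real.exp_pos _).le
        nlinarith only []
    have h2 := h1.const_mul (-(1 / (2 * k)))
    rwa [mul_zero] at h2
  have h3 := integral_Ioi_of_hasDerivAt_of_tendsto' hd (hint.sub (hint0.const_mul _)) hlim
  rw [zero_mul, mul_zero, sub_zero] at h3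
  have h4 : ∫ x in Ioi (0 : ℝ), (x ^ (2 : ℕ) * Real.exp (-(k * x ^ (2 : ℕ))) - 1 / (2 * k) * Real.exp (-(k * x ^ (2 : ℕ)))) =
      (∫ x in Ioi (0 : ℝ), x ^ (2 : ℕ) * Real.exp (-(k * x ^ (2 : ℕ)))) -
        1 / (2 * k) * ∫ x in Ioi (0 : ℝ), Real.exp (-(k * x ^ (2 : ℕ))) := by
    rw [integral_sub hint (hint0.const_mul _), integral_const_mul]
  rw [h4] at h3
  have h5 : ∫ x in Ioi (0 : ℝ), Real.exp (-(k * x ^ (2 : ℕ))) = √(Real.pi / k) / 2 := by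
    rw [← integral_gaussian_Ioi k]
    simp only [neg_mul]
  rw [e]
  refine ⟨hint, ?_⟩
  rw [sub_eq_zero.1 h3, h5]
  have h6 : δ / c = 1 / k := by rw [hk]; field_simp
  have h7 : √(Real.pi / k) = √Real.pi * √(1 / k) := by
    rw [← Real.sqrt_mul Real.pi_pos.le, mul_one_div]
  rw [h6, h7]
  ring

theorem int_tail {c δ T : ℝ} (hc : 0 < c) (hδ : 0 < δ) (hT : 0 < T) :
    IntegrableOn (fun t : ℝ => Real.exp (-(c * t ^ (2 : ℕ)) / δ)) (Ioi T) ∧
    ∫ t in Ioi T, Real.exp (-(c * t ^ (2 : ℕ)) / δ) ≤ δ / (c * T) * Real.exp (-(c * T ^ (2 : ℕ)) / δ) := by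
  obtain ⟨k, hk⟩ : ∃ k, k = c / δ := ⟨_, rfl⟩
  have hk0 : 0 < k := by rw [hk]; positivity
  have e : ∀ t : ℝ, -(c * t ^ (2 : ℕ)) / δ = -(k * t ^ (2 : ℕ)) := by
    intro t
    rw [hk]
    ring
  simp only [e]
  have hint0 : IntegrableOn (fun t : ℝ => Real.exp (-(k * t ^ (2 : ℕ)))) (Ioi T) := by
    have h1 := (integrable_exp_neg_mul_sq hk0).integrableOn (s := Ioi T)
    refine h1.congr_fun (fun t _ => ?_) measurableSet_Ioi
    simp only [neg_mul]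
  refine ⟨hint0, ?_⟩
  have hd : ∀ x : ℝ, HasDerivAt (fun t : ℝ => -(1 / (2 * k * T)) * Real.exp (-(k * t ^ (2 : ℕ))))
      (x / T * Real.exp (-(k * x ^ (2 : ℕ)))) x := by
    intro x
    have h2 := (hasDeriv_gauss_m9 k x).const_mul (-(1 / (2 * k * T)))
    have e2 : -(1 / (2 * k * T)) * (-(2 * k * x) * Real.exp (-(k * x ^ (2 : ℕ)))) =
        x / T * Real.exp (-(k * x ^ (2 : ℕ))) := by
      field_simp
    rw [e2] at h2
    exact h2
  have hlim : Tendsto (fun t : ℝ => -(1 / (2 * k * T)) * Real.exp (-(k * t ^ (2 : ℕ)))) atTop (𝓝 0) := by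
    have h1 := lim_sq_m9 hk0 0 (-(1 / (2 * k * T)))
    refine h1.congr fun t => ?_
    ring
  have h3 := fin_m9 (a := T) hd (fun x hx => by
    have : 0 < x := hT.trans hx
    (clear * - this hT; positivity)) hlim
  have h4 : ∫ t in Ioi T, Real.exp (-(k * t ^ (2 : ℕ))) ≤ ∫ t in Ioi T, t / T * Real.exp (-(k * t ^ (2 : ℕ))) := by
    refine setIntegral_mono_on hint0 h3.1 measurableSet_Ioi fun t ht => ?_
    have h5 : 1 ≤ t / T := by
      rw [le_div_iff₀ hT, one_mul]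
      exact (mem_Ioi.1 ht).le
    calc Real.exp (-(k * t ^ (2 : ℕ))) = 1 * Real.exp (-(k * t ^ (2 : ℕ))) := (one_mul _).symm
      _ ≤ t / T * Real.exp (-(k * t ^ (2 : ℕ))) := mul_le_mul_of_nonneg_right h5 (Real.exp_pos _).le
  refine h4.trans ?_
  rw [h3.2]
  have h6 : δ / (c * T) = 1 / (k * T) := by rw [hk]; field_simp
  rw [h6, neg_mul, neg_neg]
  refine mul_le_mul_of_nonneg_right ?_ (Real.exp_pos _).le
  refine one_div_le_one_div_of_le (by (clear * - hk0 hT; positivity)) ?_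
  linarith only [mul_pos hk0 hT]

private theorem lin_m9 {m k T : ℝ} (hk : 0 < k) :
    IntegrableOn (fun u : ℝ => Real.exp (m - k * u)) (Ioi T) ∧
    ∫ u in Ioi T, Real.exp (m - k * u) = 1 / k * Real.exp (m - k * T) := by
  have hd : ∀ x : ℝ, HasDerivAt (fun t : ℝ => -(1 / k) * Real.exp (m - k * t))
      (Real.exp (m - k * x)) x := by
    intro x
    have h2 := (hasDeriv_lin_m9 k m x).const_mul (-(1 / k))
    have e2 : -(1 / k) * (-k * Real.exp (m - k * x)) = Real.exp (m - k * x) := by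
      field_simp
    rw [e2] at h2
    exact h2
  have hlim : Tendsto (fun t : ℝ => -(1 / k) * Real.exp (m - k * t)) atTop (𝓝 0) := by
    have h1 := lim_quad_m9 hk 0 0 (-(1 / k) * Real.exp m)
    refine h1.congr fun t => ?_
    rw [sub_eq_add_neg, Real.exp_add]
    ring
  have h3 := fin_m9 (a := T) hd (fun x _ => (Real.exp_pos _).le) hlim
  refine ⟨h3.1, h3.2.trans ?_⟩
  ring

theorem int_lin {b σ δ : ℝ} (hσ : 0 < σ) (hδ : 0 < δ) :
    IntegrableOn (fun u : ℝ => Real.exp (-(b + σ * u) / δ)) (Ioi 0) ∧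
    ∫ u in Ioi (0 : ℝ), Real.exp (-(b + σ * u) / δ) = δ / σ * Real.exp (-b / δ) := by
  have h := lin_m9 (m := -b / δ) (k := σ / δ) (T := 0) (by positivity)
  have e : (fun u : ℝ => Real.exp (-b / δ - σ / δ * u)) = fun u : ℝ => Real.exp (-(b + σ * u) / δ) := by
    funext u
    congr 1
    ring
  rw [e] at h
  refine ⟨h.1, h.2.trans ?_⟩
  rw [mul_zero, sub_zero, one_div_div]

/-- splitting the half line at `T'` -/
private theorem split_m9 {T T' : ℝ} (hT : T ≤ T') {f g h : ℝ → ℝ} (hg : Continuous g)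
    (e1 : ∀ t ∈ Ioc T T', f t = g t) (e2 : ∀ t ∈ Ioi T', f t = h t) (hh : IntegrableOn h (Ioi T')) :
    IntegrableOn f (Ioi T) ∧
      ∫ t in Ioi T, f t = (∫ t in T..T', g t) + ∫ t in Ioi T', h t := by
  have h1 : IntegrableOn f (Ioc T T') :=
    ((hg.integrableOn_Icc (a := T) (b := T')).mono_set Ioc_subset_Icc_self).congr_fun
      (fun t ht => (e1 t ht).symm) measurableSet_Ioc
  have h2 : IntegrableOn f (Ioi T') := hh.congr_fun (fun t ht => (e2 t ht).symm) measurableSet_Ioi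
  have h3 : Ioi T = Ioc T T' ∪ Ioi T' := (Ioc_union_Ioi_eq_Ioi hT).symm
  have hdis : Disjoint (Ioc T T') (Ioi T') :=
    Set.disjoint_left.2 fun x hx hx' => absurd hx.2 (not_le.2 hx')
  refine ⟨?_, ?_⟩
  · rw [h3]
    exact h1.union h2
  · rw [h3, setIntegral_union hdis measurableSet_Ioi h1 h2,
      setIntegral_congr_fun measurableSet_Ioc e1, setIntegral_congr_fun measurableSet_Ioi e2,
      intervalIntegral.integral_of_le hT]

theorem int_far0 {B l δ T T' : ℝ} (hl : 0 < l) (hδ : 0 < δ) (hT : T ≤ T') :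
    IntegrableOn (fun t : ℝ => Real.exp (-(B + l * max (t - T') 0) / δ)) (Ioi T) ∧
    ∫ t in Ioi T, Real.exp (-(B + l * max (t - T') 0) / δ) =
      ((T' - T) + δ / l) * Real.exp (-B / δ) := by
  have h := lin_m9 (m := -B / δ + l / δ * T') (k := l / δ) (T := T') (by positivity)
  have h2 := split_m9 hT (f := fun t : ℝ => Real.exp (-(B + l * max (t - T') 0) / δ))
    (g := fun _ => Real.exp (-B / δ)) (h := fun t => Real.exp (-B / δ + l / δ * T' - l / δ * t))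
    continuous_const (fun t ht => by
      have : max (t - T') 0 = 0 := max_eq_right (by linarith only [ht.2])
      simp only [this, mul_zero, add_zero]) (fun t ht => by
      have h3 : T' < t := ht
      have : max (t - T') 0 = t - T' := max_eq_left (by linarith only [h3])
      simp only [this]
      congr 1
      field_simp
      ring) h.1
  refine ⟨h2.1, h2.2.trans ?_⟩
  rw [h.2, intervalIntegral.integral_const, smul_eq_mul, one_div_div]
  have e : -B / δ + l / δ * T' - l / δ * T' = -B / δ := by ring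
  rw [e]
  ring

private theorem quad_m9 {m k T v : ℝ} (hk : 0 < k) :
    IntegrableOn (fun u : ℝ => (v + u) ^ (2 : ℕ) * Real.exp (m - k * u)) (Ioi T) ∧
    ∫ u in Ioi T, (v + u) ^ (2 : ℕ) * Real.exp (m - k * u) =
      ((v + T) ^ (2 : ℕ) / k + 2 * (v + T) / k ^ (2 : ℕ) + 2 / k ^ (3 : ℕ)) * Real.exp (m - k * T) := by
  have hd : ∀ x : ℝ, HasDerivAt (fun t : ℝ => -((v + t) ^ (2 : ℕ) / k + 2 * (v + t) / k ^ (2 : ℕ) + 2 / k ^ (3 : ℕ)) *
      Real.exp (m - k * t)) ((v + x) ^ (2 : ℕ) * Real.exp (m - k * x)) x := by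
    intro x
    have h0 : HasDerivAt (fun t : ℝ => v + t) 1 x := (hasDerivAt_id x).const_add v
    have h1 : HasDerivAt (fun t : ℝ => -((v + t) ^ (2 : ℕ) / k + 2 * (v + t) / k ^ (2 : ℕ) + 2 / k ^ (3 : ℕ)))
        (-(2 * (v + x) / k + 2 / k ^ (2 : ℕ))) x := by
      have h2 := ((((h0.pow 2).div_const k).add ((h0.const_mul 2).div_const (k ^ (2 : ℕ)))).add_const
        (2 / k ^ (3 : ℕ))).neg
      have e2 : -(((2 : ℕ) : ℝ) * (v + x) ^ (2 - 1) * 1 / k + 2 * 1 / k ^ (2 : ℕ)) =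
          -(2 * (v + x) / k + 2 / k ^ (2 : ℕ)) := by
        norm_num
      rw [e2] at h2
      exact h2
    have h2 := h1.mul (hasDeriv_lin_m9 k m x)
    have e2 : -(2 * (v + x) / k + 2 / k ^ (2 : ℕ)) * Real.exp (m - k * x) +
        -((v + x) ^ (2 : ℕ) / k + 2 * (v + x) / k ^ (2 : ℕ) + 2 / k ^ (3 : ℕ)) * (-k * Real.exp (m - k * x)) =
        (v + x) ^ (2 : ℕ) * Real.exp (m - k * x) := by
      field_simp
      ring
    rw [e2] at h2
    exact h2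
  have hlim : Tendsto (fun t : ℝ => -((v + t) ^ (2 : ℕ) / k + 2 * (v + t) / k ^ (2 : ℕ) + 2 / k ^ (3 : ℕ)) *
      Real.exp (m - k * t)) atTop (𝓝 0) := by
    have h1 := (lim_quad_m9 hk (1 / k) (2 * v / k + 2 / k ^ (2 : ℕ))
      (v ^ (2 : ℕ) / k + 2 * v / k ^ (2 : ℕ) + 2 / k ^ (3 : ℕ))).const_mul (-Real.exp m)
    rw [mul_zero] at h1
    refine h1.congr fun t => ?_
    rw [sub_eq_add_neg, Real.exp_add]
    ring
  have h3 := fin_m9 (a := T) hd (fun x _ => by (clear * -; positivity)) hlim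
  refine ⟨h3.1, h3.2.trans ?_⟩
  ring

theorem int_far2 {B l δ T T' : ℝ} (hl : 0 < l) (hδ : 0 < δ) (hT : T ≤ T') :
    IntegrableOn (fun t : ℝ => t ^ (2 : ℕ) * Real.exp (-(B + l * max (t - T') 0) / δ)) (Ioi T) ∧
    ∫ t in Ioi T, t ^ (2 : ℕ) * Real.exp (-(B + l * max (t - T') 0) / δ) =
      ((T' ^ (3 : ℕ) - T ^ (3 : ℕ)) / 3 + δ / l * (T' ^ (2 : ℕ) + 2 * T' * (δ / l) + 2 * (δ / l) ^ (2 : ℕ))) *
        Real.exp (-B / δ) := by
  have h := quad_m9 (m := -B / δ + l / δ * T') (k := l / δ) (T := T') (v := 0) (by positivity)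
  have h2 := split_m9 hT (f := fun t : ℝ => t ^ (2 : ℕ) * Real.exp (-(B + l * max (t - T') 0) / δ))
    (g := fun t => t ^ (2 : ℕ) * Real.exp (-B / δ))
    (h := fun t => (0 + t) ^ (2 : ℕ) * Real.exp (-B / δ + l / δ * T' - l / δ * t))
    (by fun_prop) (fun t ht => by
      have : max (t - T') 0 = 0 := max_eq_right (by linarith only [ht.2])
      simp only [this, mul_zero, add_zero]) (fun t ht => by
      have h3 : T' < t := ht
      have : max (t - T') 0 = t - T' := max_eq_left (by linarith only [h3])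
      simp only [this, zero_add]
      congr 2
      field_simp
      ring) h.1
  refine ⟨h2.1, h2.2.trans ?_⟩
  rw [h.2, intervalIntegral.integral_mul_const, integral_pow]
  have e : -B / δ + l / δ * T' - l / δ * T' = -B / δ := by ring
  rw [e]
  norm_num
  field_simp

theorem int_side {b σ δ v r : ℝ} (hδ : 0 < δ) (hσ : δ < σ) :
    IntegrableOn (fun u : ℝ => (v + u) ^ (2 : ℕ) / 2 * Real.exp (r + u) * Real.exp (-(b + σ * u) / δ)) (Ioi 0) ∧
    ∫ u in Ioi (0 : ℝ), (v + u) ^ (2 : ℕ) / 2 * Real.exp (r + u) * Real.exp (-(b + σ * u) / δ) =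
      Real.exp (r - b / δ) / 2 * (v ^ (2 : ℕ) / (σ / δ - 1) + 2 * v / (σ / δ - 1) ^ (2 : ℕ) +
        2 / (σ / δ - 1) ^ (3 : ℕ)) := by
  have hk : 0 < σ / δ - 1 := by
    rw [sub_pos, lt_div_iff₀ hδ, one_mul]
    exact hσ
  have h := quad_m9 (m := r - b / δ) (k := σ / δ - 1) (T := 0) (v := v) hk
  have e : (fun u : ℝ => (v + u) ^ (2 : ℕ) / 2 * Real.exp (r + u) * Real.exp (-(b + σ * u) / δ)) =
      fun u : ℝ => 1 / 2 * ((v + u) ^ (2 : ℕ) * Real.exp (r - b / δ - (σ / δ - 1) * u)) := by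
    funext u
    rw [mul_assoc, ← Real.exp_add]
    have e2 : r + u + -(b + σ * u) / δ = r - b / δ - (σ / δ - 1) * u := by ring
    rw [e2]
    ring
  rw [e]
  refine ⟨h.1.const_mul _, ?_⟩
  rw [integral_const_mul, h.2, add_zero, mul_zero, sub_zero]
  ring

end SokamFU

end

/-! ### Lib_MP_af4de1_fu.MLow -/

section
/-!
# Lower bound of `∫ e^EE` [FU-M11]

`ray (e^EE) (-(τd)) d = (∫_(t>-τ) e^(EE(td)) dt) d` (translation).  Compare with the Gauss integral: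
`∫_(-τ)^0 + ∫_0^T ‖e^EE - e^E2‖ ≤ (‖h‖/δ)(K3 q³/6 ∫ t³ e^(-cm t²/δ) + q³/6 ∫ t³ e^(-cp t²/δ))` (`norm_exp_sub_exp_le`, `EE - E2 = -(i/δ) h (e^v-1-v-v²/2)`,
`taylor3_left` for `t ≥ 0`, `k3` for `t ≤ 0`); `t > T`: `‖e^EE‖ + ‖e^E2‖` (`int_far0`, `int_tail`); `t < -τ`: `‖e^E2‖` (`int_tail`); the horizontal ray:
`int_lin`.
-/

set_option autoImplicit false

namespace SokamFU

open Complex MeasureTheory Set

private theorem mlow_re_EE {δ : ℝ} (h v : ℂ) : (EE δ h v).re = -(ff h v) / δ :=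
  Real.exp_injective ((Complex.norm_exp _).symm.trans (norm_EE h v))

private theorem mlow_re_E2 {δ : ℝ} (h v : ℂ) :
    (E2 δ h v).re = -((1 - h) * v ^ (2 : ℕ) / 2).im / δ :=
  Real.exp_injective ((Complex.norm_exp _).symm.trans (norm_E2 h v))

/-- the difference of the integrands -/
private theorem mlow_diff {δ : ℝ} (hδ : 0 < δ) {h v : ℂ} {m R : ℝ} (h1 : m ≤ ff h v)
    (h2 : m ≤ ((1 - h) * v ^ (2 : ℕ) / 2).im) (h3 : ‖cexp v - 1 - v - v ^ (2 : ℕ) / 2‖ ≤ R) :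
    ‖cexp (EE δ h v) - cexp (E2 δ h v)‖ ≤ ‖h‖ / δ * R * Real.exp (-m / δ) := by
  have e : EE δ h v - E2 δ h v = I / δ * -(h * (cexp v - 1 - v - v ^ (2 : ℕ) / 2)) := by
    unfold EE E2
    ring
  have hn : ‖EE δ h v - E2 δ h v‖ = ‖h‖ / δ * ‖cexp v - 1 - v - v ^ (2 : ℕ) / 2‖ := by
    rw [e, norm_mul, norm_neg, norm_mul, norm_div, Complex.norm_I, Complex.norm_real,
      Real.norm_of_nonneg hδ.le]
    ring
  refine (norm_exp_sub_exp_le _ _).trans ?_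
  rw [hn]
  have h4 : max (EE δ h v).re (E2 δ h v).re ≤ -m / δ := by
    refine max_le ?_ ?_
    · rw [mlow_re_EE]
      exact div_le_div_of_nonneg_right (neg_le_neg h1) hδ.le
    · rw [mlow_re_E2]
      exact div_le_div_of_nonneg_right (neg_le_neg h2) hδ.le
  exact mul_le_mul (mul_le_mul_of_nonneg_left h3 (by positivity)) (Real.exp_le_exp.mpr h4)
    (Real.exp_pos _).le (mul_nonneg (by positivity) ((norm_nonneg _).trans h3))

private theorem mlow_piece {f : ℝ → ℂ} {c δ C S : ℝ} (hc : 0 < c) (hδ : 0 < δ) (hC : 0 ≤ C)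
    (hf : ∀ t, 0 ≤ t → t ≤ S → ‖f t‖ ≤ C * (t ^ (3 : ℕ) * Real.exp (-(c * t ^ (2 : ℕ)) / δ))) :
    ‖∫ t in Ioc 0 S, f t‖ ≤ C * (δ ^ (2 : ℕ) / (2 * c ^ (2 : ℕ))) := by
  obtain ⟨hi, he⟩ := int_t3 hc hδ
  have hi' : IntegrableOn (fun t : ℝ => C * (t ^ (3 : ℕ) * Real.exp (-(c * t ^ (2 : ℕ)) / δ))) (Ioi 0) :=
    hi.const_mul C
  have hsub : Ioc 0 S ⊆ Ioi (0 : ℝ) := fun t ht => ht.1
  calc ‖∫ t in Ioc 0 S, f t‖
      ≤ ∫ t in Ioc 0 S, C * (t ^ (3 : ℕ) * Real.exp (-(c * t ^ (2 : ℕ)) / δ)) := by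
        refine norm_integral_le_of_norm_le (hi'.mono_set hsub) ?_
        exact (ae_restrict_iff' measurableSet_Ioc).mpr
          (Filter.Eventually.of_forall fun t ht => hf t ht.1.le ht.2)
    _ ≤ ∫ t in Ioi (0 : ℝ), C * (t ^ (3 : ℕ) * Real.exp (-(c * t ^ (2 : ℕ)) / δ)) := by
        refine setIntegral_mono_set hi' ?_ (Filter.Eventually.of_forall hsub)
        refine (ae_restrict_iff' measurableSet_Ioi).mpr (Filter.Eventually.of_forall fun t ht => ?_)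
        have ht0 : (0 : ℝ) < t := ht
        show 0 ≤ C * (t ^ (3 : ℕ) * Real.exp (-(c * t ^ (2 : ℕ)) / δ))
        positivity
    _ = C * (δ ^ (2 : ℕ) / (2 * c ^ (2 : ℕ))) := by rw [integral_const_mul, he]

private theorem mlow_tail {f : ℝ → ℂ} {g : ℝ → ℝ} {a M : ℝ} (hg : IntegrableOn g (Ioi a))
    (hM : ∫ t in Ioi a, g t ≤ M) (hf : ∀ t, a < t → ‖f t‖ ≤ g t) :
    ‖∫ t in Ioi a, f t‖ ≤ M := by
  refine le_trans (norm_integral_le_of_norm_le hg ?_) hM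
  exact (ae_restrict_iff' measurableSet_Ioi).mpr (Filter.Eventually.of_forall fun t ht => hf t ht)

private theorem mlow_shift (F : ℝ → ℂ) (τ : ℝ) :
    ∫ s in Ioi (0 : ℝ), F (s + -τ) = ∫ t in Ioi (-τ), F t := by
  have h := (measurePreserving_add_right (volume : Measure ℝ) (-τ)).setIntegral_preimage_emb
    (measurableEmbedding_addRight _) F (Ioi (-τ))
  rw [← h]
  congr 2
  ext s
  simp

/-- the algebra of the pieces -/
private theorem mlow_alg {q S0 A B C D E S M a b c d' e s : ℝ} (hq : 0 ≤ q)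
    (h0 : M ≤ S0 + (A + B + C + D + E) * q + S) (hA : A ≤ a) (hB : B ≤ b) (hC : C ≤ c)
    (hD : D ≤ d') (hE : E ≤ e) (hS : S ≤ s) : M - ((a + b + c + d' + e) * q + s) ≤ S0 := by
  have h1 : (A + B + C + D + E) * q ≤ (a + b + c + d' + e) * q :=
    mul_le_mul_of_nonneg_right (by linarith only [hA, hB, hC, hD, hE]) hq
  linarith only [h0, hS, h1]

theorem gen_low {δ : ℝ} {h d : ℂ} {τ T T' cp cm B l b σ K2 K3 : ℝ}
    (H : Hyp δ h d τ T T' cp cm B l b σ K2 K3) :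
    Real.sqrt (2 * Real.pi * δ / ‖1 - h‖) - lowErr δ ‖h‖ ‖d‖ τ T T' cp cm B l b σ K3 ≤
      ‖JJ δ h (-(τ * d)) d (fun _ => 1)‖ := by
  have hδ := H.δpos
  have hτ := H.τpos
  have hT := H.Tpos
  have hcp := H.cppos
  have hcm := H.cmpos
  have hl := H.lpos
  have hσ : 0 < σ := hδ.trans H.σgt
  have hq : 0 ≤ ‖d‖ := norm_nonneg d
  obtain ⟨F, hF⟩ : ∃ F : ℝ → ℂ, F = fun t : ℝ => cexp (EE δ h (t * d)) := ⟨_, rfl⟩
  obtain ⟨K, hK⟩ : ∃ K : ℝ → ℂ, K = fun t : ℝ => cexp (E2 δ h (t * d)) := ⟨_, rfl⟩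
  have hFc : Continuous F := by
    rw [hF]
    unfold EE
    fun_prop
  have hKi : Integrable K := by
    rw [hK]
    refine gauss_integrable hδ hcp fun t => le_trans ?_ (H.quad t)
    exact mul_le_mul_of_nonneg_right (le_max_left _ _) (sq_nonneg t)
  have hKn : ‖(∫ t : ℝ, K t) * d‖ = Real.sqrt (2 * Real.pi * δ / ‖1 - h‖) := by
    rw [hK]
    refine gauss_norm hδ hcp fun t => le_trans ?_ (H.quad t)
    exact mul_le_mul_of_nonneg_right (le_max_left _ _) (sq_nonneg t)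
  -- bounds of the integrands
  have hK1 : ∀ t : ℝ, ‖K t‖ ≤ Real.exp (-(cp * t ^ (2 : ℕ)) / δ) := by
    intro t
    rw [hK]
    show ‖cexp (E2 δ h (t * d))‖ ≤ _
    rw [norm_E2]
    refine Real.exp_le_exp.mpr (div_le_div_of_nonneg_right (neg_le_neg ?_) hδ.le)
    exact le_trans (mul_le_mul_of_nonneg_right (le_max_left _ _) (sq_nonneg t)) (H.quad t)
  have hK2 : ∀ t : ℝ, ‖K t‖ ≤ Real.exp (-(cm * t ^ (2 : ℕ)) / δ) := by
    intro t
    rw [hK]
    show ‖cexp (E2 δ h (t * d))‖ ≤ _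
    rw [norm_E2]
    refine Real.exp_le_exp.mpr (div_le_div_of_nonneg_right (neg_le_neg ?_) hδ.le)
    exact le_trans (mul_le_mul_of_nonneg_right (le_max_right _ _) (sq_nonneg t)) (H.quad t)
  have hF1 : ∀ t : ℝ, T < t → ‖F t‖ ≤ Real.exp (-(B + l * max (t - T') 0) / δ) := by
    intro t ht
    rw [hF]
    show ‖cexp (EE δ h (t * d))‖ ≤ _
    rw [norm_EE]
    exact Real.exp_le_exp.mpr (div_le_div_of_nonneg_right (neg_le_neg (H.far t ht.le)) hδ.le)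
  -- integrability
  obtain ⟨hfi, hfe⟩ := int_far0 (B := B) hl hδ H.TT
  have hFi1 : IntegrableOn F (Ioi T) := by
    refine Integrable.mono' hfi hFc.aestronglyMeasurable ?_
    exact (ae_restrict_iff' measurableSet_Ioi).mpr (Filter.Eventually.of_forall hF1)
  have hFi2 : IntegrableOn F (Ioc (-τ) 0) := hFc.integrableOn_Ioc
  have hFi3 : IntegrableOn F (Ioc 0 T) := hFc.integrableOn_Ioc
  have hu1 : Ioc 0 T ∪ Ioi T = Ioi (0 : ℝ) := Ioc_union_Ioi_eq_Ioi hT.le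
  have hu2 : Ioc (-τ) 0 ∪ Ioi (0 : ℝ) = Ioi (-τ) := Ioc_union_Ioi_eq_Ioi (by linarith only [hτ])
  have hd1 : Disjoint (Ioc 0 T) (Ioi T) := Ioc_disjoint_Ioi le_rfl
  have hd2 : Disjoint (Ioc (-τ) 0) (Ioi (0 : ℝ)) := Ioc_disjoint_Ioi le_rfl
  have hFi4 : IntegrableOn F (Ioi 0) := by
    rw [← hu1]
    exact hFi3.union hFi1
  have hFs : ∫ t in Ioi (-τ), F t =
      (∫ t in Ioc (-τ) 0, F t) + ((∫ t in Ioc 0 T, F t) + ∫ t in Ioi T, F t) := by
    rw [← hu2, setIntegral_union hd2 measurableSet_Ioi hFi2 hFi4, ← hu1,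
      setIntegral_union hd1 measurableSet_Ioi hFi3 hFi1]
  have hKs : ∫ t : ℝ, K t = (∫ t in Iic (-τ), K t) +
      ((∫ t in Ioc (-τ) 0, K t) + ((∫ t in Ioc 0 T, K t) + ∫ t in Ioi T, K t)) := by
    rw [← intervalIntegral.integral_Iic_add_Ioi (b := -τ) hKi.integrableOn hKi.integrableOn,
      ← hu2, setIntegral_union hd2 measurableSet_Ioi hKi.integrableOn hKi.integrableOn, ← hu1,
      setIntegral_union hd1 measurableSet_Ioi hKi.integrableOn hKi.integrableOn]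
  -- the pieces
  have hA : ‖∫ t in Ioc (-τ) 0, (F t - K t)‖ ≤
      ‖h‖ / δ * (K3 * ‖d‖ ^ (3 : ℕ) / 6) * (δ ^ (2 : ℕ) / (2 * cm ^ (2 : ℕ))) := by
    have e1 : ∫ t in Ioc (-τ) 0, (F t - K t) = ∫ t in Ioc 0 τ, (F (-t) - K (-t)) := by
      rw [← intervalIntegral.integral_of_le (by linarith only [hτ]), ← intervalIntegral.integral_of_le hτ.le]
      have h := intervalIntegral.integral_comp_neg (fun t => F t - K t) (a := 0) (b := τ)
      rw [neg_zero] at h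
      exact h.symm
    rw [e1]
    refine mlow_piece hcm hδ (by have := H.K3pos; positivity) fun t h0 h1 => ?_
    rw [hF, hK]
    have e2 : ((-t : ℝ) : ℂ) * d = -(t * d) := by
      push_cast
      ring
    show ‖cexp (EE δ h ((-t : ℝ) * d)) - cexp (E2 δ h ((-t : ℝ) * d))‖ ≤ _
    rw [e2]
    have h3 : cm * t ^ (2 : ℕ) ≤ ((1 - h) * (-(t * d)) ^ (2 : ℕ) / 2).im := by
      rw [neg_sq]
      exact le_trans (mul_le_mul_of_nonneg_right (le_max_right _ _) (sq_nonneg t)) (H.quad t)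
    refine (mlow_diff hδ (H.right t h0 h1) h3 (H.k3 t h0 h1)).trans (le_of_eq ?_)
    ring
  have hB : ‖∫ t in Ioc 0 T, (F t - K t)‖ ≤
      ‖h‖ / δ * (‖d‖ ^ (3 : ℕ) / 6) * (δ ^ (2 : ℕ) / (2 * cp ^ (2 : ℕ))) := by
    refine mlow_piece hcp hδ (by positivity) fun t h0 h1 => ?_
    rw [hF, hK]
    show ‖cexp (EE δ h (t * d)) - cexp (E2 δ h (t * d))‖ ≤ _
    have h3 : cp * t ^ (2 : ℕ) ≤ ((1 - h) * (t * d) ^ (2 : ℕ) / 2).im :=
      le_trans (mul_le_mul_of_nonneg_right (le_max_left _ _) (sq_nonneg t)) (H.quad t)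
    have h4 : ((t : ℂ) * d).re ≤ 0 := by
      rw [re_ofReal_mul]
      exact mul_nonpos_of_nonneg_of_nonpos h0 H.d_re
    have h5 : ‖cexp ((t : ℂ) * d) - 1 - t * d - (t * d) ^ (2 : ℕ) / 2‖ ≤ (t * ‖d‖) ^ (3 : ℕ) / 6 := by
      have h6 := taylor3_left h4
      rwa [norm_mul, Complex.norm_real, Real.norm_of_nonneg h0] at h6
    refine (mlow_diff hδ (H.left t h0 h1) h3 h5).trans (le_of_eq ?_)
    ring
  have hC : ‖∫ t in Ioi T, F t‖ ≤ ((T' - T) + δ / l) * Real.exp (-B / δ) :=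
    mlow_tail hfi hfe.le hF1
  have hD : ‖∫ t in Ioi T, K t‖ ≤ δ / (cp * T) * Real.exp (-(cp * T ^ (2 : ℕ)) / δ) :=
    mlow_tail (int_tail hcp hδ hT).1 (int_tail hcp hδ hT).2 fun t _ => hK1 t
  have hE : ‖∫ t in Iic (-τ), K t‖ ≤ δ / (cm * τ) * Real.exp (-(cm * τ ^ (2 : ℕ)) / δ) := by
    rw [← integral_comp_neg_Ioi]
    refine mlow_tail (int_tail hcm hδ hτ).1 (int_tail hcm hδ hτ).2 fun t _ => ?_
    have := hK2 (-t)
    rwa [neg_sq] at this
  have hS : ‖ray (fun v => (1 : ℂ) * cexp (EE δ h v)) (-(τ * d)) 1‖ ≤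
      δ / σ * Real.exp (-b / δ) := by
    unfold ray
    rw [mul_one]
    refine mlow_tail (int_lin hσ hδ).1 (int_lin hσ hδ).2.le fun u hu => ?_
    show ‖(1 : ℂ) * cexp (EE δ h (-(τ * d) + u * 1))‖ ≤ _
    rw [one_mul, mul_one, norm_EE]
    exact Real.exp_le_exp.mpr (div_le_div_of_nonneg_right (neg_le_neg (H.side u hu.le)) hδ.le)
  -- the decomposition
  have hR : ray (fun v => (1 : ℂ) * cexp (EE δ h v)) (-(τ * d)) d =
      (∫ t in Ioi (-τ), F t) * d := by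
    unfold ray
    rw [← mlow_shift F τ]
    congr 2
    funext s
    rw [hF]
    show (1 : ℂ) * cexp (EE δ h (-(τ * d) + s * d)) = cexp (EE δ h ((s + -τ : ℝ) * d))
    rw [one_mul]
    congr 2
    push_cast
    ring
  have hFK1 : ∫ t in Ioc (-τ) 0, (F t - K t) =
      (∫ t in Ioc (-τ) 0, F t) - ∫ t in Ioc (-τ) 0, K t :=
    integral_sub hFi2 hKi.integrableOn
  have hFK2 : ∫ t in Ioc 0 T, (F t - K t) = (∫ t in Ioc 0 T, F t) - ∫ t in Ioc 0 T, K t :=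
    integral_sub hFi3 hKi.integrableOn
  obtain ⟨A, hA'⟩ : ∃ A : ℂ, A = ∫ t in Ioc (-τ) 0, (F t - K t) := ⟨_, rfl⟩
  obtain ⟨B', hB'⟩ : ∃ B' : ℂ, B' = ∫ t in Ioc 0 T, (F t - K t) := ⟨_, rfl⟩
  obtain ⟨C, hC'⟩ : ∃ C : ℂ, C = ∫ t in Ioi T, F t := ⟨_, rfl⟩
  obtain ⟨D, hD'⟩ : ∃ D : ℂ, D = ∫ t in Ioi T, K t := ⟨_, rfl⟩
  obtain ⟨E, hE'⟩ : ∃ E : ℂ, E = ∫ t in Iic (-τ), K t := ⟨_, rfl⟩
  obtain ⟨S, hS'⟩ : ∃ S : ℂ, S = ray (fun v => (1 : ℂ) * cexp (EE δ h v)) (-(τ * d)) 1 :=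
    ⟨_, rfl⟩
  rw [← hA'] at hA hFK1
  rw [← hB'] at hB hFK2
  rw [← hC'] at hC hFs
  rw [← hD'] at hD hKs
  rw [← hE'] at hE hKs
  rw [← hS'] at hS
  have hJ : JJ δ h (-(τ * d)) d (fun _ => 1) = (∫ t in Ioi (-τ), F t) * d - S := by
    unfold JJ
    rw [hR, ← hS']
  have hmain : (∫ t : ℝ, K t) * d = JJ δ h (-(τ * d)) d (fun _ => 1) +
      (-A + -B' + -C + D + E) * d + S := by
    rw [hJ, hFs, hKs, hFK1, hFK2]
    ring
  have hN : Real.sqrt (2 * Real.pi * δ / ‖1 - h‖) ≤ ‖JJ δ h (-(τ * d)) d (fun _ => 1)‖ +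
      (‖A‖ + ‖B'‖ + ‖C‖ + ‖D‖ + ‖E‖) * ‖d‖ + ‖S‖ := by
    rw [← hKn, hmain]
    refine (norm_add₃_le).trans ?_
    have h5 : ‖-A + -B' + -C + D + E‖ ≤ ‖A‖ + ‖B'‖ + ‖C‖ + ‖D‖ + ‖E‖ := by
      refine (norm_add_le _ _).trans (add_le_add_left ?_ _)
      refine (norm_add_le _ _).trans (add_le_add_left ?_ _)
      refine (norm_add_le _ _).trans ?_
      rw [norm_neg C]
      refine add_le_add_left ?_ _
      refine (norm_add_le _ _).trans ?_
      rw [norm_neg, norm_neg]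
    have h6 : ‖(-A + -B' + -C + D + E) * d‖ ≤ (‖A‖ + ‖B'‖ + ‖C‖ + ‖D‖ + ‖E‖) * ‖d‖ := by
      rw [norm_mul]
      exact mul_le_mul_of_nonneg_right h5 hq
    linarith only [h6]
  have hfin := mlow_alg hq hN hA hB hC hD hE hS
  refine le_trans (le_of_eq ?_) hfin
  unfold lowErr
  field_simp
  ring

end SokamFU

end

/-! ### Lib_MP_af4de1_fu.MUp -/

section
/-!
# The identity and the upper bound of `∫ v e^EE` [FU-M12]

`(e^EE)' = (i/δ)((1-h)v - h(e^v-1-v)) e^EE`; `ray_tendsto` on both rays with `f = (e^EE)'`, `P = e^EE`, `P → 0` at both ends (from `far`, `side`), so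
`JJ (w = (1-h)v - h(e^v-1-v)) = 0`.  The bound: `taylor2_left` (`t ≥ 0`), `k2` (`-τ ≤ t ≤ 0`), `taylor2_right` on the horizontal ray
(`‖v‖ ≤ τ q + u`, `Re v = τ |Re d| + u`), `int_t2`, `int_far2`, `int_side`.
-/

set_option autoImplicit false

namespace SokamFU

open Complex MeasureTheory Set Filter Topology

/-! ### General lemmas -/

private theorem up_tend {A c δ : ℝ} (hc : 0 < c) (hδ : 0 < δ) :
    Tendsto (fun x : ℝ => Real.exp (-(A + c * x) / δ)) atTop (𝓝 0) := by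
  apply Real.tendsto_exp_atBot.comp
  have h1 : (fun x : ℝ => -(A + c * x) / δ) = fun x : ℝ => (-(c / δ)) * x + (-(A / δ)) := by
    funext x
    ring
  rw [h1]
  apply tendsto_atBot_add_const_right
  exact tendsto_id.const_mul_atTop_of_neg (by
    have : 0 < c / δ := by positivity
    linarith only [this])

private theorem up_ray_lin {F1 F2 : ℂ → ℂ} {p D : ℂ} (a b c : ℂ)
    (h1 : IntegrableOn (fun s : ℝ => F1 (p + s * D)) (Ioi 0))
    (h2 : IntegrableOn (fun s : ℝ => F2 (p + s * D)) (Ioi 0)) :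
    ray (fun v => c * (a * F1 v - b * F2 v)) p D = c * (a * ray F1 p D - b * ray F2 p D) := by
  unfold ray
  have e : (∫ s in Ioi (0 : ℝ), c * (a * F1 (p + s * D) - b * F2 (p + s * D))) =
      c * (a * (∫ s in Ioi (0 : ℝ), F1 (p + s * D)) - b * ∫ s in Ioi (0 : ℝ), F2 (p + s * D)) := by
    rw [integral_const_mul, integral_sub (h1.const_mul a) (h2.const_mul b), integral_const_mul,
      integral_const_mul]
  rw [e]
  ring

private theorem up_norm_ray {f : ℂ → ℂ} {p D : ℂ} :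
    ‖ray f p D‖ ≤ (∫ s in Ioi (0 : ℝ), ‖f (p + s * D)‖) * ‖D‖ := by
  unfold ray
  rw [norm_mul]
  exact mul_le_mul_of_nonneg_right (norm_integral_le_integral_norm _) (norm_nonneg _)

private theorem up_set_le {f g : ℝ → ℝ} {s t : Set ℝ} (hs : MeasurableSet s) (ht : MeasurableSet t)
    (hst : s ⊆ t) (hfg : ∀ x ∈ s, f x ≤ g x) (hf : IntegrableOn f s) (hg : IntegrableOn g t)
    (hg0 : ∀ x ∈ t, 0 ≤ g x) : ∫ x in s, f x ≤ ∫ x in t, g x := by
  calc ∫ x in s, f x ≤ ∫ x in s, g x := setIntegral_mono_on hf (hg.mono_set hst) hs hfg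
    _ ≤ ∫ x in t, g x :=
        setIntegral_mono_set hg ((ae_restrict_iff' ht).2 (Eventually.of_forall hg0))
          hst.eventuallyLE

private theorem up_shift {E : Type*} [NormedAddCommGroup E] [NormedSpace ℝ E] (f : ℝ → E) (c : ℝ)
    (hf : IntegrableOn f (Ioi (-c))) : IntegrableOn (fun s => f (s - c)) (Ioi 0) ∧
      ∫ s in Ioi (0 : ℝ), f (s - c) = ∫ t in Ioi (-c), f t := by
  have hmp := measurePreserving_add_right (volume : Measure ℝ) (-c)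
  have hme := measurableEmbedding_addRight (-c)
  have hpre : (fun x : ℝ => x + -c) ⁻¹' (Ioi (-c)) = Ioi 0 := by
    ext x
    simp
  constructor
  · have h := (hmp.integrableOn_comp_preimage hme (f := f) (s := Ioi (-c))).2 hf
    rw [hpre] at h
    simpa [Function.comp_def, sub_eq_add_neg] using h
  · have h := hmp.setIntegral_preimage_emb hme f (Ioi (-c))
    rw [hpre] at h
    simpa [sub_eq_add_neg] using h

/-! ### Bounds of the exponential factor -/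

section

variable {δ : ℝ} {h d : ℂ} {τ T T' cp cm B l b σ K2 K3 : ℝ}

private theorem up_exp (hδ : 0 < δ) {v : ℂ} {x : ℝ} (hx : x ≤ ff h v) :
    ‖cexp (EE δ h v)‖ ≤ Real.exp (-x / δ) := by
  rw [norm_EE]
  apply Real.exp_le_exp.2
  apply div_le_div_of_nonneg_right _ hδ.le
  linarith only [hx]

private theorem up_cont_EE : Continuous (fun v : ℂ => cexp (EE δ h v)) := by
  unfold EE
  fun_prop

private theorem up_re_line (H : Hyp δ h d τ T T' cp cm B l b σ K2 K3) {t : ℝ} (ht : 0 ≤ t) :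
    ((t : ℂ) * d).re ≤ 0 := by
  rw [re_ofReal_mul]
  exact mul_nonpos_of_nonneg_of_nonpos ht H.d_re

private theorem up_norm_line (t : ℝ) : ‖(t : ℂ) * d‖ = |t| * ‖d‖ := by
  rw [norm_mul, Complex.norm_real, Real.norm_eq_abs]

private theorem up_pt (s : ℝ) : -((τ : ℂ) * d) + (s : ℂ) * d = ((s - τ : ℝ) : ℂ) * d := by
  push_cast
  ring

/-- weights which grow at most quadratically on the main line and as `taylor2_right` on the side -/
private structure UpW (δ : ℝ) (d : ℂ) (τ T : ℝ) (w : ℂ → ℂ) (A A' : ℝ) : Prop where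
  A0 : 0 ≤ A
  A0' : 0 ≤ A'
  cont : Continuous w
  line : ∀ t : ℝ, T ≤ t → ‖w (t * d)‖ ≤ A * (1 + t ^ (2 : ℕ))
  side : ∀ u : ℝ, 0 ≤ u → ‖w (-(τ * d) + (u : ℂ) * 1)‖ ≤
    A' * (1 + (τ * ‖d‖ + u) ^ (2 : ℕ) / 2 * Real.exp (τ * |d.re| + u))

private theorem up_int_line (H : Hyp δ h d τ T T' cp cm B l b σ K2 K3) {w : ℂ → ℂ} {A A' : ℝ}
    (hw : UpW δ d τ T w A A') :
    IntegrableOn (fun t : ℝ => w (t * d) * cexp (EE δ h (t * d))) (Ioi (-τ)) := by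
  have hcont : Continuous (fun t : ℝ => w (t * d) * cexp (EE δ h (t * d))) := by
    have h1 : Continuous (fun t : ℝ => (t : ℂ) * d) := by fun_prop
    exact (hw.cont.comp h1).mul ((up_cont_EE (δ := δ) (h := h)).comp h1)
  have hτT : -τ ≤ T := by linarith only [H.τpos, H.Tpos]
  rw [← Ioc_union_Ioi_eq_Ioi hτT]
  refine IntegrableOn.union (hcont.integrableOn_Ioc) ?_
  have hi0 := (int_far0 (B := B) (δ := δ) H.lpos H.δpos H.TT).1
  have hi2 := (int_far2 (B := B) (δ := δ) H.lpos H.δpos H.TT).1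
  have hi : IntegrableOn (fun t : ℝ => A * (Real.exp (-(B + l * max (t - T') 0) / δ) +
      t ^ (2 : ℕ) * Real.exp (-(B + l * max (t - T') 0) / δ))) (Ioi T) := (hi0.add hi2).const_mul A
  refine Integrable.mono' hi hcont.aestronglyMeasurable.restrict ?_
  refine (ae_restrict_iff' measurableSet_Ioi).2 (Eventually.of_forall fun t ht => ?_)
  have ht' : T ≤ t := le_of_lt ht
  rw [norm_mul]
  calc ‖w (t * d)‖ * ‖cexp (EE δ h (t * d))‖
      ≤ (A * (1 + t ^ (2 : ℕ))) * Real.exp (-(B + l * max (t - T') 0) / δ) :=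
        mul_le_mul (hw.line t ht') (up_exp H.δpos (H.far t ht')) (norm_nonneg _)
          (mul_nonneg hw.A0 (by positivity))
    _ = _ := by ring

private theorem up_int_side (H : Hyp δ h d τ T T' cp cm B l b σ K2 K3) {w : ℂ → ℂ} {A A' : ℝ}
    (hw : UpW δ d τ T w A A') :
    IntegrableOn (fun u : ℝ => w (-(τ * d) + (u : ℂ) * 1) *
      cexp (EE δ h (-(τ * d) + (u : ℂ) * 1))) (Ioi 0) := by
  have hcont : Continuous (fun u : ℝ => w (-(τ * d) + (u : ℂ) * 1) *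
      cexp (EE δ h (-(τ * d) + (u : ℂ) * 1))) := by
    have h1 : Continuous (fun u : ℝ => -((τ : ℂ) * d) + (u : ℂ) * 1) := by fun_prop
    exact (hw.cont.comp h1).mul ((up_cont_EE (δ := δ) (h := h)).comp h1)
  have hσ : 0 < σ := H.δpos.trans H.σgt
  have hi0 := (int_lin (b := b) hσ H.δpos).1
  have hi2 := (int_side (b := b) (v := τ * ‖d‖) (r := τ * |d.re|) H.δpos H.σgt).1
  have hi : IntegrableOn (fun u : ℝ => A' * (Real.exp (-(b + σ * u) / δ) +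
      (τ * ‖d‖ + u) ^ (2 : ℕ) / 2 * Real.exp (τ * |d.re| + u) * Real.exp (-(b + σ * u) / δ))) (Ioi 0) :=
    (hi0.add hi2).const_mul A'
  refine Integrable.mono' hi hcont.aestronglyMeasurable.restrict ?_
  refine (ae_restrict_iff' measurableSet_Ioi).2 (Eventually.of_forall fun u hu => ?_)
  have hu' : 0 ≤ u := le_of_lt hu
  rw [norm_mul]
  have hs : b + σ * u ≤ ff h (-(τ * d) + (u : ℂ) * 1) := by
    rw [mul_one]
    exact H.side u hu'
  calc ‖w (-(τ * d) + (u : ℂ) * 1)‖ * ‖cexp (EE δ h (-(τ * d) + (u : ℂ) * 1))‖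
      ≤ (A' * (1 + (τ * ‖d‖ + u) ^ (2 : ℕ) / 2 * Real.exp (τ * |d.re| + u))) *
          Real.exp (-(b + σ * u) / δ) :=
        mul_le_mul (hw.side u hu') (up_exp H.δpos hs) (norm_nonneg _)
          (mul_nonneg hw.A0' (by positivity))
    _ = _ := by ring

private theorem up_int_ray (H : Hyp δ h d τ T T' cp cm B l b σ K2 K3) {w : ℂ → ℂ} {A A' : ℝ}
    (hw : UpW δ d τ T w A A') :
    IntegrableOn (fun s : ℝ => w (-(τ * d) + (s : ℂ) * d) *
      cexp (EE δ h (-(τ * d) + (s : ℂ) * d))) (Ioi 0) := by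
  have h1 := (up_shift _ τ (up_int_line H hw)).1
  refine h1.congr_fun (fun s _ => ?_) measurableSet_Ioi
  show w (((s - τ : ℝ) : ℂ) * d) * cexp (EE δ h (((s - τ : ℝ) : ℂ) * d)) = _
  rw [← up_pt]

private theorem up_side_norm (H : Hyp δ h d τ T T' cp cm B l b σ K2 K3) {u : ℝ} (hu : 0 ≤ u) :
    ‖-((τ : ℂ) * d) + (u : ℂ) * 1‖ ≤ τ * ‖d‖ + u ∧
      (-((τ : ℂ) * d) + (u : ℂ) * 1).re = τ * |d.re| + u := by
  constructor
  · refine (norm_add_le _ _).trans ?_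
    rw [norm_neg, up_norm_line, abs_of_pos H.τpos, mul_one, Complex.norm_real, Real.norm_eq_abs,
      abs_of_nonneg hu]
  · rw [add_re, neg_re, re_ofReal_mul, mul_one, ofReal_re, abs_of_nonpos H.d_re]
    ring

private theorem up_w1 (H : Hyp δ h d τ T T' cp cm B l b σ K2 K3) :
    UpW δ d τ T (fun v => v) ‖d‖ 1 where
  A0 := norm_nonneg _
  A0' := zero_le_one
  cont := continuous_id
  line t ht := by
    show ‖(t : ℂ) * d‖ ≤ _
    rw [up_norm_line, mul_comm]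
    apply mul_le_mul_of_nonneg_left _ (norm_nonneg _)
    rw [← sq_abs]
    nlinarith [abs_nonneg t, sq_nonneg (|t| - 1)]
  side u hu := by
    obtain ⟨h1, h2⟩ := up_side_norm H hu
    refine h1.trans ?_
    have h3 : 0 ≤ τ * |d.re| + u := add_nonneg (mul_nonneg H.τpos.le (abs_nonneg _)) hu
    have h4 : 1 ≤ Real.exp (τ * |d.re| + u) := Real.one_le_exp h3
    have h5 : (τ * ‖d‖ + u) ^ (2 : ℕ) / 2 ≤ (τ * ‖d‖ + u) ^ (2 : ℕ) / 2 * Real.exp (τ * |d.re| + u) :=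
      le_mul_of_one_le_right (by positivity) h4
    nlinarith [sq_nonneg (τ * ‖d‖ + u - 1)]

private theorem up_w2_line (H : Hyp δ h d τ T T' cp cm B l b σ K2 K3) {t : ℝ} (ht : 0 ≤ t) :
    ‖cexp ((t : ℂ) * d) - 1 - (t : ℂ) * d‖ ≤ t ^ (2 : ℕ) * ‖d‖ ^ (2 : ℕ) / 2 := by
  refine (taylor2_left (up_re_line H ht)).trans (le_of_eq ?_)
  rw [up_norm_line, abs_of_nonneg ht]
  ring

private theorem up_w2_side (H : Hyp δ h d τ T T' cp cm B l b σ K2 K3) {u : ℝ} (hu : 0 ≤ u) :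
    ‖cexp (-((τ : ℂ) * d) + (u : ℂ) * 1) - 1 - (-((τ : ℂ) * d) + (u : ℂ) * 1)‖ ≤
      (τ * ‖d‖ + u) ^ (2 : ℕ) / 2 * Real.exp (τ * |d.re| + u) := by
  obtain ⟨h1, h2⟩ := up_side_norm H hu
  have h3 : 0 ≤ τ * |d.re| + u := add_nonneg (mul_nonneg H.τpos.le (abs_nonneg _)) hu
  have h4 := taylor2_right (v := -((τ : ℂ) * d) + (u : ℂ) * 1) (by rw [h2]; exact h3)
  rw [h2] at h4
  refine h4.trans ?_
  apply mul_le_mul_of_nonneg_right _ (Real.exp_pos _).le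
  have h5 := pow_le_pow_left₀ (norm_nonneg _) h1 2
  linarith only [h5]

private theorem up_w2 (H : Hyp δ h d τ T T' cp cm B l b σ K2 K3) :
    UpW δ d τ T (fun v => cexp v - 1 - v) (‖d‖ ^ (2 : ℕ) / 2) 1 where
  A0 := by positivity
  A0' := zero_le_one
  cont := by fun_prop
  line t ht := by
    refine (up_w2_line H (H.Tpos.le.trans ht)).trans ?_
    have h1 : 0 ≤ ‖d‖ ^ (2 : ℕ) / 2 := by positivity
    nlinarith
  side u hu := by
    refine (up_w2_side H hu).trans ?_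
    linarith only []

theorem gen_ident {δ : ℝ} {h d : ℂ} {τ T T' cp cm B l b σ K2 K3 : ℝ}
    (H : Hyp δ h d τ T T' cp cm B l b σ K2 K3) :
    (1 - h) * JJ δ h (-(τ * d)) d (fun v => v) =
      h * JJ δ h (-(τ * d)) d (fun v => cexp v - 1 - v) := by
  have hδ := H.δpos
  have hδc : (δ : ℂ) ≠ 0 := by exact_mod_cast hδ.ne'
  set F1 : ℂ → ℂ := fun v => v * cexp (EE δ h v) with hF1
  set F2 : ℂ → ℂ := fun v => (cexp v - 1 - v) * cexp (EE δ h v) with hF2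
  set P : ℂ → ℂ := fun v => cexp (EE δ h v) with hP
  set f : ℂ → ℂ := fun v => I / δ * ((1 - h) * F1 v - h * F2 v) with hf
  have hder : ∀ z, HasDerivAt P (f z) z := by
    intro z
    have h1 : HasDerivAt (fun v : ℂ => EE δ h v) (I / δ * ((1 - h) * z - h * (cexp z - 1 - z))) z := by
      have h2 := ((((hasDerivAt_id z).pow 2).div_const 2).sub
        ((((Complex.hasDerivAt_exp z).sub_const 1).sub (hasDerivAt_id z)).const_mul h)).const_mul
          (I / (δ : ℂ))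
      refine h2.congr_deriv ?_
      simp only [id]
      ring
    refine h1.cexp.congr_deriv ?_
    rw [hf, hF1, hF2]
    ring
  have hcont : Continuous f := by
    rw [hf, hF1, hF2]
    have := up_cont_EE (δ := δ) (h := h)
    fun_prop
  have hi1d : IntegrableOn (fun s : ℝ => F1 (-(τ * d) + s * d)) (Ioi 0) := up_int_ray H (up_w1 H)
  have hi2d : IntegrableOn (fun s : ℝ => F2 (-(τ * d) + s * d)) (Ioi 0) := up_int_ray H (up_w2 H)
  have hi11 : IntegrableOn (fun s : ℝ => F1 (-(τ * d) + s * 1)) (Ioi 0) := up_int_side H (up_w1 H)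
  have hi21 : IntegrableOn (fun s : ℝ => F2 (-(τ * d) + s * 1)) (Ioi 0) := up_int_side H (up_w2 H)
  have hid : IntegrableOn (fun s : ℝ => f (-(τ * d) + s * d)) (Ioi 0) :=
    ((hi1d.const_mul (1 - h)).sub (hi2d.const_mul h)).const_mul (I / δ)
  have hi1 : IntegrableOn (fun s : ℝ => f (-(τ * d) + s * 1)) (Ioi 0) :=
    ((hi11.const_mul (1 - h)).sub (hi21.const_mul h)).const_mul (I / δ)
  have ht1 := ray_tendsto hcont hder hid
  have ht2 := ray_tendsto hcont hder hi1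
  have hz1 : Tendsto (fun T : ℝ => P (-(τ * d) + T * d)) atTop (𝓝 0) := by
    refine squeeze_zero_norm' ?_ (up_tend (A := B + l * (-(τ + T'))) H.lpos hδ)
    filter_upwards [eventually_ge_atTop (T + τ)] with x hx
    show ‖cexp (EE δ h (-(τ * d) + x * d))‖ ≤ _
    rw [up_pt]
    have h1 := H.far (x - τ) (by linarith only [hx])
    have h2 : x - τ - T' ≤ max (x - τ - T') 0 := le_max_left _ _
    have h3 : l * (x - τ - T') ≤ l * max (x - τ - T') 0 := mul_le_mul_of_nonneg_left h2 H.lpos.le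
    refine up_exp hδ (le_trans ?_ h1)
    linarith only [h3]
  have hz2 : Tendsto (fun T : ℝ => P (-(τ * d) + T * 1)) atTop (𝓝 0) := by
    have hσ : 0 < σ := hδ.trans H.σgt
    refine squeeze_zero_norm' ?_ (up_tend (A := b) hσ hδ)
    filter_upwards [eventually_ge_atTop 0] with x hx
    show ‖cexp (EE δ h (-(τ * d) + x * 1))‖ ≤ _
    rw [mul_one]
    exact up_exp hδ (H.side x hx)
  have e1 : P (-(τ * d)) + ray f (-(τ * d)) d = 0 := tendsto_nhds_unique ht1 hz1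
  have e2 : P (-(τ * d)) + ray f (-(τ * d)) 1 = 0 := tendsto_nhds_unique ht2 hz2
  have e3 : ray f (-(τ * d)) d = ray f (-(τ * d)) 1 := by
    have := e1.trans e2.symm
    exact add_left_cancel this
  rw [hf, up_ray_lin (1 - h) h (I / δ) hi1d hi2d, up_ray_lin (1 - h) h (I / δ) hi11 hi21] at e3
  have hne : I / (δ : ℂ) ≠ 0 := div_ne_zero I_ne_zero hδc
  have e4 := mul_left_cancel₀ hne e3
  unfold JJ
  show (1 - h) * (ray F1 (-(τ * d)) d - ray F1 (-(τ * d)) 1) =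
    h * (ray F2 (-(τ * d)) d - ray F2 (-(τ * d)) 1)
  linear_combination e4

theorem gen_bound {δ : ℝ} {h d : ℂ} {τ T T' cp cm B l b σ K2 K3 : ℝ}
    (H : Hyp δ h d τ T T' cp cm B l b σ K2 K3) :
    ‖JJ δ h (-(τ * d)) d (fun v => cexp v - 1 - v)‖ ≤
      upErr δ ‖d‖ |d.re| τ T T' cp cm B l b σ K2 := by
  have hδ := H.δpos
  set q : ℝ := ‖d‖ with hq
  have hq0 : 0 ≤ q := norm_nonneg _
  set G : ℝ → ℂ := fun t => (cexp ((t : ℂ) * d) - 1 - (t : ℂ) * d) * cexp (EE δ h ((t : ℂ) * d))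
    with hG
  have hGc : Continuous G := by
    have h1 : Continuous (fun t : ℝ => (t : ℂ) * d) := by fun_prop
    have h2 := (up_cont_EE (δ := δ) (h := h)).comp h1
    have h3 : Continuous (fun t : ℝ => cexp ((t : ℂ) * d) - 1 - (t : ℂ) * d) := by fun_prop
    exact h3.mul h2
  have hGi : IntegrableOn G (Ioi (-τ)) := up_int_line H (up_w2 H)
  -- the main line
  have hline : (∫ s in Ioi (0 : ℝ), ‖(cexp (-(τ * d) + (s : ℂ) * d) - 1 - (-(τ * d) + (s : ℂ) * d)) *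
      cexp (EE δ h (-(τ * d) + (s : ℂ) * d))‖) = ∫ t in Ioi (-τ), ‖G t‖ := by
    rw [← (up_shift (fun t => ‖G t‖) τ hGi.norm).2]
    apply setIntegral_congr_fun measurableSet_Ioi
    intro s _
    show _ = ‖G (s - τ)‖
    rw [hG]
    show _ = ‖(cexp (((s - τ : ℝ) : ℂ) * d) - 1 - ((s - τ : ℝ) : ℂ) * d) *
      cexp (EE δ h (((s - τ : ℝ) : ℂ) * d))‖
    rw [← up_pt]
  have hsplit : (∫ t in Ioi (-τ), ‖G t‖) = (∫ t in Ioc (-τ) 0, ‖G t‖) +
      ((∫ t in Ioc 0 T, ‖G t‖) + ∫ t in Ioi T, ‖G t‖) := by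
    have h1 : Ioi (-τ) = Ioc (-τ) 0 ∪ Ioi 0 := (Ioc_union_Ioi_eq_Ioi (by linarith only [H.τpos])).symm
    have h2 : Ioi (0 : ℝ) = Ioc 0 T ∪ Ioi T := (Ioc_union_Ioi_eq_Ioi H.Tpos.le).symm
    have hi0 : IntegrableOn (fun t => ‖G t‖) (Ioi (-τ)) := hGi.norm
    have hdj : ∀ x y : ℝ, Disjoint (Ioc x y) (Ioi y) := fun x y =>
      Set.disjoint_left.2 fun z hz hz' => absurd hz.2 (not_le.2 hz')
    rw [h1, setIntegral_union (hdj (-τ) 0)
      measurableSet_Ioi (hi0.mono_set (by rw [h1]; exact subset_union_left))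
      (hi0.mono_set (by rw [h1]; exact subset_union_right))]
    congr 1
    have hi1 : IntegrableOn (fun t => ‖G t‖) (Ioi 0) := hi0.mono_set (by rw [h1]; exact subset_union_right)
    rw [h2, setIntegral_union (hdj 0 T)
      measurableSet_Ioi (hi1.mono_set (by rw [h2]; exact subset_union_left))
      (hi1.mono_set (by rw [h2]; exact subset_union_right))]
  -- piece 1: `-τ ≤ t ≤ 0`
  have hp1 : (∫ t in Ioc (-τ) 0, ‖G t‖) ≤
      K2 * q ^ (2 : ℕ) / 2 * (Real.sqrt Real.pi / 4 * (δ / cm * Real.sqrt (δ / cm))) := by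
    have h1 : (∫ t in Ioc (-τ) 0, ‖G t‖) = ∫ t in Ioc 0 τ, ‖G (-t)‖ := by
      rw [← intervalIntegral.integral_of_le (by linarith only [H.τpos] : -τ ≤ 0),
        ← intervalIntegral.integral_of_le H.τpos.le,
        intervalIntegral.integral_comp_neg (fun t => ‖G t‖), neg_zero]
    obtain ⟨h2, h3⟩ := int_t2 (c := cm) H.cmpos hδ
    rw [h1, ← h3, ← integral_const_mul]
    refine up_set_le measurableSet_Ioc measurableSet_Ioi Ioc_subset_Ioi_self ?_ ?_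
      (h2.const_mul _) ?_
    · intro t ht
      have ht0 : 0 ≤ t := ht.1.le
      rw [hG]
      show ‖(cexp (((-t : ℝ) : ℂ) * d) - 1 - ((-t : ℝ) : ℂ) * d) *
        cexp (EE δ h (((-t : ℝ) : ℂ) * d))‖ ≤ _
      have e : ((-t : ℝ) : ℂ) * d = -(t * d) := by
        push_cast
        ring
      rw [e, norm_mul]
      calc ‖cexp (-(t * d)) - 1 - -(t * d)‖ * ‖cexp (EE δ h (-(t * d)))‖
          ≤ (K2 * (t * ‖d‖) ^ (2 : ℕ) / 2) * Real.exp (-(cm * t ^ (2 : ℕ)) / δ) :=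
            mul_le_mul (H.k2 t ht0 ht.2) (up_exp hδ (H.right t ht0 ht.2)) (norm_nonneg _)
              (div_nonneg (mul_nonneg H.K2pos (sq_nonneg _)) (by norm_num))
        _ = K2 * q ^ (2 : ℕ) / 2 * (t ^ (2 : ℕ) * Real.exp (-(cm * t ^ (2 : ℕ)) / δ)) := by
            rw [hq]
            ring
    · exact ((hGc.comp continuous_neg).norm).integrableOn_Ioc
    · intro t _
      have := H.K2pos
      positivity
  -- piece 2: `0 ≤ t ≤ T`
  have hp2 : (∫ t in Ioc 0 T, ‖G t‖) ≤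
      q ^ (2 : ℕ) / 2 * (Real.sqrt Real.pi / 4 * (δ / cp * Real.sqrt (δ / cp))) := by
    obtain ⟨h2, h3⟩ := int_t2 (c := cp) H.cppos hδ
    rw [← h3, ← integral_const_mul]
    refine up_set_le measurableSet_Ioc measurableSet_Ioi Ioc_subset_Ioi_self ?_ ?_
      (h2.const_mul _) ?_
    · intro t ht
      have ht0 : 0 ≤ t := ht.1.le
      rw [hG]
      show ‖(cexp ((t : ℂ) * d) - 1 - (t : ℂ) * d) * cexp (EE δ h ((t : ℂ) * d))‖ ≤ _
      rw [norm_mul]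
      calc ‖cexp ((t : ℂ) * d) - 1 - (t : ℂ) * d‖ * ‖cexp (EE δ h ((t : ℂ) * d))‖
          ≤ (t ^ (2 : ℕ) * ‖d‖ ^ (2 : ℕ) / 2) * Real.exp (-(cp * t ^ (2 : ℕ)) / δ) :=
            mul_le_mul (up_w2_line H ht0) (up_exp hδ (H.left t ht0 ht.2)) (norm_nonneg _)
              (by positivity)
        _ = q ^ (2 : ℕ) / 2 * (t ^ (2 : ℕ) * Real.exp (-(cp * t ^ (2 : ℕ)) / δ)) := by
            rw [hq]
            ring
    · exact hGc.norm.integrableOn_Ioc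
    · intro t _
      positivity
  -- piece 3: `T ≤ t`
  have hp3 : (∫ t in Ioi T, ‖G t‖) ≤ q ^ (2 : ℕ) / 2 *
      (((T' ^ (3 : ℕ) - T ^ (3 : ℕ)) / 3 + δ / l * (T' ^ (2 : ℕ) + 2 * T' * (δ / l) + 2 * (δ / l) ^ (2 : ℕ))) *
        Real.exp (-B / δ)) := by
    obtain ⟨h2, h3⟩ := int_far2 (B := B) H.lpos hδ H.TT
    rw [← h3, ← integral_const_mul]
    refine up_set_le measurableSet_Ioi measurableSet_Ioi subset_rfl ?_ ?_ (h2.const_mul _) ?_
    · intro t ht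
      have ht' : T ≤ t := le_of_lt ht
      have ht0 : 0 ≤ t := H.Tpos.le.trans ht'
      rw [hG]
      show ‖(cexp ((t : ℂ) * d) - 1 - (t : ℂ) * d) * cexp (EE δ h ((t : ℂ) * d))‖ ≤ _
      rw [norm_mul]
      calc ‖cexp ((t : ℂ) * d) - 1 - (t : ℂ) * d‖ * ‖cexp (EE δ h ((t : ℂ) * d))‖
          ≤ (t ^ (2 : ℕ) * ‖d‖ ^ (2 : ℕ) / 2) * Real.exp (-(B + l * max (t - T') 0) / δ) :=
            mul_le_mul (up_w2_line H ht0) (up_exp hδ (H.far t ht')) (norm_nonneg _)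
              (by positivity)
        _ = q ^ (2 : ℕ) / 2 * (t ^ (2 : ℕ) * Real.exp (-(B + l * max (t - T') 0) / δ)) := by
            rw [hq]
            ring
    · have hi0 : IntegrableOn (fun t => ‖G t‖) (Ioi (-τ)) := hGi.norm
      exact hi0.mono_set (Ioi_subset_Ioi (by linarith only [H.τpos, H.Tpos]))
    · intro t _
      positivity
  -- piece 4: the horizontal ray
  have hp4 : (∫ s in Ioi (0 : ℝ), ‖(cexp (-(τ * d) + (s : ℂ) * 1) - 1 - (-(τ * d) + (s : ℂ) * 1)) *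
      cexp (EE δ h (-(τ * d) + (s : ℂ) * 1))‖) ≤
      Real.exp (τ * |d.re| - b / δ) / 2 * ((τ * q) ^ (2 : ℕ) / (σ / δ - 1) +
        2 * (τ * q) / (σ / δ - 1) ^ (2 : ℕ) + 2 / (σ / δ - 1) ^ (3 : ℕ)) := by
    obtain ⟨h2, h3⟩ := int_side (b := b) (v := τ * q) (r := τ * |d.re|) hδ H.σgt
    rw [← h3]
    refine up_set_le measurableSet_Ioi measurableSet_Ioi subset_rfl ?_ ?_ h2 ?_
    · intro u hu
      have hu' : 0 ≤ u := le_of_lt hu
      have hs : b + σ * u ≤ ff h (-(τ * d) + (u : ℂ) * 1) := by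
        rw [mul_one]
        exact H.side u hu'
      rw [norm_mul]
      exact mul_le_mul (up_w2_side H hu') (up_exp hδ hs) (norm_nonneg _) (by positivity)
    · exact (up_int_side H (up_w2 H)).norm
    · intro t _
      positivity
  have hn1 := up_norm_ray (f := fun v => (cexp v - 1 - v) * cexp (EE δ h v)) (p := -(τ * d)) (D := d)
  have hn2 := up_norm_ray (f := fun v => (cexp v - 1 - v) * cexp (EE δ h v)) (p := -(τ * d)) (D := 1)
  simp only [norm_one, mul_one] at hn2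
  simp only [mul_one] at hp4
  rw [hline, hsplit] at hn1
  unfold JJ
  refine (norm_sub_le _ _).trans ?_
  have hmain : ((∫ t in Ioc (-τ) 0, ‖G t‖) + ((∫ t in Ioc 0 T, ‖G t‖) + ∫ t in Ioi T, ‖G t‖)) * ‖d‖ ≤
      (K2 * q ^ (2 : ℕ) / 2 * (Real.sqrt Real.pi / 4 * (δ / cm * Real.sqrt (δ / cm))) +
      (q ^ (2 : ℕ) / 2 * (Real.sqrt Real.pi / 4 * (δ / cp * Real.sqrt (δ / cp))) + q ^ (2 : ℕ) / 2 *
      (((T' ^ (3 : ℕ) - T ^ (3 : ℕ)) / 3 + δ / l * (T' ^ (2 : ℕ) + 2 * T' * (δ / l) + 2 * (δ / l) ^ (2 : ℕ))) *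
        Real.exp (-B / δ)))) * q :=
    mul_le_mul_of_nonneg_right (add_le_add hp1 (add_le_add hp2 hp3)) hq0
  refine (add_le_add (hn1.trans hmain) (hn2.trans hp4)).trans (le_of_eq ?_)
  unfold upErr
  ring

end

theorem gen_up {δ : ℝ} {h d : ℂ} {τ T T' cp cm B l b σ K2 K3 : ℝ}
    (H : Hyp δ h d τ T T' cp cm B l b σ K2 K3) :
    ‖1 - h‖ * ‖JJ δ h (-(τ * d)) d (fun v => v)‖ ≤
      ‖h‖ * upErr δ ‖d‖ |d.re| τ T T' cp cm B l b σ K2 := by
  rw [← norm_mul, gen_ident H, norm_mul]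
  exact mul_le_mul_of_nonneg_left (gen_bound H) (norm_nonneg _)

end SokamFU

end

/-! ### Lib_MP_af4de1_fu.MMon -/

section
/-!
# Reduction to `δ = 9/80` [FU-M13]

All terms of `lowErr/√δ`, `upErr/√δ` are increasing in `δ` (`e^(-B/δ)/√δ` for `B/δ ≥ 1/2`).
-/

set_option autoImplicit false

namespace SokamFU

open Complex MeasureTheory Set

/-- `e^(-b/δ) ≤ e^(-b/δ₀) √(δ/δ₀)` for `δ ≤ δ₀ ≤ 2b`. -/
theorem exp_small {b δ δ0 : ℝ} (hδ : 0 < δ) (h1 : δ ≤ δ0) (h2 : δ0 ≤ 2 * b) :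
    Real.exp (-b / δ) ≤ Real.exp (-b / δ0) * Real.sqrt (δ / δ0) := by
  have hδ0 : 0 < δ0 := hδ.trans_le h1
  have hx : 0 < δ / δ0 := div_pos hδ hδ0
  have hs : Real.sqrt (δ / δ0) = Real.exp (Real.log (δ / δ0) / 2) := by
    rw [Real.sqrt_eq_rpow, Real.rpow_def_of_pos hx]
    congr 1
    ring
  rw [hs, ← Real.exp_add, Real.exp_le_exp]
  have h3 : 1 - (δ / δ0)⁻¹ ≤ Real.log (δ / δ0) := Real.one_sub_inv_le_log_of_pos hx
  rw [inv_div] at h3
  have h4 : 1 ≤ δ0 / δ := (one_le_div hδ).2 h1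
  have h5 : 1 / 2 ≤ b / δ0 := by
    rw [div_le_div_iff₀ (by norm_num) hδ0]
    linarith only [h1, h2]
  have h6 : -b / δ = -(b / δ0 * (δ0 / δ)) := by
    field_simp
  have h7 : -b / δ0 = -(b / δ0) := by ring
  rw [h6, h7]
  nlinarith

/-- the terms with a factor `δ` -/
private theorem lin_small {a c δ δ0 : ℝ} (hδ : 0 < δ) (h1 : δ ≤ δ0) (ha : 0 ≤ a) (hc : 0 ≤ c) :
    a * δ * Real.exp (-c / δ) ≤ a * δ0 * Real.exp (-c / δ0) * Real.sqrt (δ / δ0) := by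
  have hδ0 : 0 < δ0 := hδ.trans_le h1
  have hx : 0 ≤ δ / δ0 := (div_pos hδ hδ0).le
  have hx1 : δ / δ0 ≤ 1 := (div_le_one hδ0).2 h1
  have hs : δ / δ0 ≤ Real.sqrt (δ / δ0) := by
    apply Real.le_sqrt_of_sq_le
    nlinarith
  have h2 : Real.exp (-c / δ) ≤ Real.exp (-c / δ0) := by
    rw [Real.exp_le_exp, div_le_div_iff₀ hδ hδ0]
    nlinarith
  have h3 : a * δ = a * δ0 * (δ / δ0) := by field_simp
  rw [h3]
  calc a * δ0 * (δ / δ0) * Real.exp (-c / δ) ≤ a * δ0 * Real.sqrt (δ / δ0) * Real.exp (-c / δ0) := by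
        apply mul_le_mul _ h2 (Real.exp_nonneg _) (by positivity)
        exact mul_le_mul_of_nonneg_left hs (by positivity)
    _ = a * δ0 * Real.exp (-c / δ0) * Real.sqrt (δ / δ0) := by ring

private theorem coef_small {a a0 B δ δ0 : ℝ} (hδ : 0 < δ) (h1 : δ ≤ δ0) (hB : δ0 ≤ 2 * B)
    (ha : 0 ≤ a) (haa : a ≤ a0) :
    a * Real.exp (-B / δ) ≤ a0 * Real.exp (-B / δ0) * Real.sqrt (δ / δ0) := by
  rw [mul_assoc]
  exact mul_le_mul haa (exp_small hδ h1 hB) (Real.exp_nonneg _) (ha.trans haa)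

private theorem sqrt_split {δ δ0 c : ℝ} (hδ : 0 < δ) (hδ0 : 0 < δ0) (hc : 0 < c) :
    Real.sqrt (δ / c) = Real.sqrt (δ0 / c) * Real.sqrt (δ / δ0) := by
  rw [← Real.sqrt_mul (by positivity)]
  congr 1
  field_simp

theorem lowErr_mono {δ δ0 H q τ T T' cp cm B l b σ K3 : ℝ} (hδ : 0 < δ) (h1 : δ ≤ δ0)
    (hB : δ0 ≤ 2 * B) (hH : 0 ≤ H) (hq : 0 ≤ q) (hτ : 0 < τ) (hT : 0 < T) (hTT : T ≤ T')
    (hcp : 0 < cp) (hcm : 0 < cm) (hl : 0 < l) (hb : 0 < b) (hσ : 0 < σ) (hK : 0 ≤ K3) :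
    lowErr δ H q τ T T' cp cm B l b σ K3 ≤
      lowErr δ0 H q τ T T' cp cm B l b σ K3 * Real.sqrt (δ / δ0) := by
  have hδ0 : 0 < δ0 := hδ.trans_le h1
  have t1 : H * q ^ (4 : ℕ) / 12 * (1 / cp ^ (2 : ℕ) + K3 / cm ^ (2 : ℕ)) * δ ≤
      H * q ^ (4 : ℕ) / 12 * (1 / cp ^ (2 : ℕ) + K3 / cm ^ (2 : ℕ)) * δ0 * Real.sqrt (δ / δ0) := by
    have := lin_small (a := H * q ^ (4 : ℕ) / 12 * (1 / cp ^ (2 : ℕ) + K3 / cm ^ (2 : ℕ))) (c := 0) hδ h1
      (by positivity) le_rfl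
    simpa using this
  have t2 : ((T' - T) + δ / l) * Real.exp (-B / δ) ≤
      ((T' - T) + δ0 / l) * Real.exp (-B / δ0) * Real.sqrt (δ / δ0) := by
    have h2 : δ / l ≤ δ0 / l := div_le_div_of_nonneg_right h1 hl.le
    have h3 : 0 ≤ δ / l := by positivity
    exact coef_small hδ h1 hB (by linarith only [hTT, h3]) (by linarith only [h2])
  have t3 : δ / (cp * T) * Real.exp (-(cp * T ^ (2 : ℕ)) / δ) ≤
      δ0 / (cp * T) * Real.exp (-(cp * T ^ (2 : ℕ)) / δ0) * Real.sqrt (δ / δ0) := by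
    have := lin_small (a := 1 / (cp * T)) (c := cp * T ^ (2 : ℕ)) hδ h1 (by positivity) (by positivity)
    have e1 : 1 / (cp * T) * δ = δ / (cp * T) := by ring
    have e2 : 1 / (cp * T) * δ0 = δ0 / (cp * T) := by ring
    rwa [e1, e2] at this
  have t4 : δ / (cm * τ) * Real.exp (-(cm * τ ^ (2 : ℕ)) / δ) ≤
      δ0 / (cm * τ) * Real.exp (-(cm * τ ^ (2 : ℕ)) / δ0) * Real.sqrt (δ / δ0) := by
    have := lin_small (a := 1 / (cm * τ)) (c := cm * τ ^ (2 : ℕ)) hδ h1 (by positivity) (by positivity)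
    have e1 : 1 / (cm * τ) * δ = δ / (cm * τ) := by ring
    have e2 : 1 / (cm * τ) * δ0 = δ0 / (cm * τ) := by ring
    rwa [e1, e2] at this
  have t5 : δ / σ * Real.exp (-b / δ) ≤ δ0 / σ * Real.exp (-b / δ0) * Real.sqrt (δ / δ0) := by
    have := lin_small (a := 1 / σ) (c := b) hδ h1 (by positivity) hb.le
    have e1 : 1 / σ * δ = δ / σ := by ring
    have e2 : 1 / σ * δ0 = δ0 / σ := by ring
    rwa [e1, e2] at this
  unfold lowErr
  have t6 := mul_le_mul_of_nonneg_left (add_le_add (add_le_add t2 t3) t4) hq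
  calc _ ≤ _ := add_le_add (add_le_add t1 t6) t5
    _ = _ := by ring

theorem upErr_mono {δ δ0 q r τ T T' cp cm B l b σ K2 : ℝ} (hδ : 0 < δ) (h1 : δ ≤ δ0)
    (hB : δ0 ≤ 2 * B) (hq : 0 ≤ q) (hτ : 0 < τ) (hT : 0 < T) (hTT : T ≤ T')
    (hcp : 0 < cp) (hcm : 0 < cm) (hl : 0 < l) (hb : δ0 ≤ 2 * b) (hσ : δ0 < σ) (hK : 0 ≤ K2) :
    upErr δ q r τ T T' cp cm B l b σ K2 ≤
      upErr δ0 q r τ T T' cp cm B l b σ K2 * Real.sqrt (δ / δ0) := by
  have hδ0 : 0 < δ0 := hδ.trans_le h1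
  have hs0 : 0 ≤ Real.sqrt (δ / δ0) := Real.sqrt_nonneg _
  have hT' : 0 < T' := hT.trans_le hTT
  have g : ∀ c : ℝ, 0 < c → δ / c * Real.sqrt (δ / c) ≤
      δ0 / c * Real.sqrt (δ0 / c) * Real.sqrt (δ / δ0) := by
    intro c hc
    rw [sqrt_split hδ hδ0 hc, ← mul_assoc]
    refine mul_le_mul_of_nonneg_right (mul_le_mul_of_nonneg_right ?_ (Real.sqrt_nonneg _)) hs0
    exact div_le_div_of_nonneg_right h1 hc.le
  have t1 : q ^ (3 : ℕ) * (Real.sqrt Real.pi / 8) *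
        (δ / cp * Real.sqrt (δ / cp) + K2 * (δ / cm) * Real.sqrt (δ / cm)) ≤
      q ^ (3 : ℕ) * (Real.sqrt Real.pi / 8) *
        (δ0 / cp * Real.sqrt (δ0 / cp) + K2 * (δ0 / cm) * Real.sqrt (δ0 / cm)) *
          Real.sqrt (δ / δ0) := by
    have g1 := g cp hcp
    have g2 := mul_le_mul_of_nonneg_left (g cm hcm) hK
    have g3 := mul_le_mul_of_nonneg_left (add_le_add g1 g2)
      (show 0 ≤ q ^ (3 : ℕ) * (Real.sqrt Real.pi / 8) by positivity)
    calc _ = q ^ (3 : ℕ) * (Real.sqrt Real.pi / 8) *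
        (δ / cp * Real.sqrt (δ / cp) + K2 * (δ / cm * Real.sqrt (δ / cm))) := by ring
      _ ≤ _ := g3
      _ = _ := by ring
  have hl1 : δ / l ≤ δ0 / l := div_le_div_of_nonneg_right h1 hl.le
  have hl0 : 0 ≤ δ / l := by positivity
  have hl00 : 0 ≤ δ0 / l := by positivity
  have t2 : q ^ (3 : ℕ) / 2 * ((T' ^ (3 : ℕ) - T ^ (3 : ℕ)) / 3 +
        δ / l * (T' ^ (2 : ℕ) + 2 * T' * (δ / l) + 2 * (δ / l) ^ (2 : ℕ))) * Real.exp (-B / δ) ≤
      q ^ (3 : ℕ) / 2 * ((T' ^ (3 : ℕ) - T ^ (3 : ℕ)) / 3 +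
        δ0 / l * (T' ^ (2 : ℕ) + 2 * T' * (δ0 / l) + 2 * (δ0 / l) ^ (2 : ℕ))) * Real.exp (-B / δ0) *
          Real.sqrt (δ / δ0) := by
    have hTc : T ^ (3 : ℕ) ≤ T' ^ (3 : ℕ) := pow_le_pow_left₀ hT.le hTT 3
    have h3 : δ / l * (T' ^ (2 : ℕ) + 2 * T' * (δ / l) + 2 * (δ / l) ^ (2 : ℕ)) ≤
        δ0 / l * (T' ^ (2 : ℕ) + 2 * T' * (δ0 / l) + 2 * (δ0 / l) ^ (2 : ℕ)) := by
      apply mul_le_mul hl1 _ (by positivity) hl00
      have h4 : 2 * T' * (δ / l) ≤ 2 * T' * (δ0 / l) := mul_le_mul_of_nonneg_left hl1 (by positivity)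
      have h5 : (δ / l) ^ (2 : ℕ) ≤ (δ0 / l) ^ (2 : ℕ) := pow_le_pow_left₀ hl0 hl1 2
      linarith only [h4, h5]
    have h6 : 0 ≤ δ / l * (T' ^ (2 : ℕ) + 2 * T' * (δ / l) + 2 * (δ / l) ^ (2 : ℕ)) := by positivity
    refine coef_small hδ h1 hB ?_ ?_
    · apply mul_nonneg (by positivity)
      linarith only [hTc, h6]
    · apply mul_le_mul_of_nonneg_left _ (by positivity)
      linarith only [h3]
  have hσδ : 0 < σ / δ0 - 1 := by
    rw [sub_pos, one_lt_div hδ0]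
    exact hσ
  have hσδ' : σ / δ0 - 1 ≤ σ / δ - 1 := by
    have : σ / δ0 ≤ σ / δ := div_le_div_of_nonneg_left (by linarith only [hσ, hδ0]) hδ h1
    linarith only [this]
  have t3 : Real.exp (τ * r - b / δ) / 2 * ((τ * q) ^ (2 : ℕ) / (σ / δ - 1) +
        2 * (τ * q) / (σ / δ - 1) ^ (2 : ℕ) + 2 / (σ / δ - 1) ^ (3 : ℕ)) ≤
      Real.exp (τ * r - b / δ0) / 2 * ((τ * q) ^ (2 : ℕ) / (σ / δ0 - 1) +
        2 * (τ * q) / (σ / δ0 - 1) ^ (2 : ℕ) + 2 / (σ / δ0 - 1) ^ (3 : ℕ)) * Real.sqrt (δ / δ0) := by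
    have e1 : Real.exp (τ * r - b / δ) ≤ Real.exp (τ * r - b / δ0) * Real.sqrt (δ / δ0) := by
      have h3 := mul_le_mul_of_nonneg_left (exp_small hδ h1 hb) (Real.exp_nonneg (τ * r))
      rw [← mul_assoc, ← Real.exp_add, ← Real.exp_add] at h3
      have e2 : τ * r + -b / δ = τ * r - b / δ := by ring
      have e3 : τ * r + -b / δ0 = τ * r - b / δ0 := by ring
      rwa [e2, e3] at h3
    have e4 : (τ * q) ^ (2 : ℕ) / (σ / δ - 1) + 2 * (τ * q) / (σ / δ - 1) ^ (2 : ℕ) + 2 / (σ / δ - 1) ^ (3 : ℕ) ≤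
        (τ * q) ^ (2 : ℕ) / (σ / δ0 - 1) + 2 * (τ * q) / (σ / δ0 - 1) ^ (2 : ℕ) + 2 / (σ / δ0 - 1) ^ (3 : ℕ) := by
      have p2 : (σ / δ0 - 1) ^ (2 : ℕ) ≤ (σ / δ - 1) ^ (2 : ℕ) := pow_le_pow_left₀ hσδ.le hσδ' 2
      have p3 : (σ / δ0 - 1) ^ (3 : ℕ) ≤ (σ / δ - 1) ^ (3 : ℕ) := pow_le_pow_left₀ hσδ.le hσδ' 3
      have hpos : 0 < σ / δ - 1 := hσδ.trans_le hσδ'
      refine add_le_add (add_le_add ?_ ?_) ?_
      · exact div_le_div_of_nonneg_left (by positivity) hσδ hσδ'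
      · exact div_le_div_of_nonneg_left (by positivity) (by positivity) p2
      · exact div_le_div_of_nonneg_left (by norm_num) (by positivity) p3
    have hpos : 0 < σ / δ - 1 := hσδ.trans_le hσδ'
    have e5 : 0 ≤ (τ * q) ^ (2 : ℕ) / (σ / δ - 1) + 2 * (τ * q) / (σ / δ - 1) ^ (2 : ℕ) +
        2 / (σ / δ - 1) ^ (3 : ℕ) := by positivity
    calc _ ≤ (Real.exp (τ * r - b / δ0) * Real.sqrt (δ / δ0)) / 2 * ((τ * q) ^ (2 : ℕ) / (σ / δ0 - 1) +
        2 * (τ * q) / (σ / δ0 - 1) ^ (2 : ℕ) + 2 / (σ / δ0 - 1) ^ (3 : ℕ)) :=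
          mul_le_mul (div_le_div_of_nonneg_right e1 (by norm_num)) e4 e5 (by positivity)
      _ = _ := by ring
  unfold upErr
  calc _ ≤ _ := add_le_add (add_le_add t1 t2) t3
    _ = _ := by ring

theorem gen_fin {δ : ℝ} {h d : ℂ} {τ T T' cp cm B l b σ K2 K3 k : ℝ}
    (H : Hyp δ h d τ T T' cp cm B l b σ K2 K3) (hδ : δ ≤ 9 / 80) (hB : 9 / 80 ≤ 2 * B)
    (hb : 9 / 80 ≤ 2 * b) (hσ : 9 / 80 < σ) (hk : 0 ≤ k)
    (hpos : lowErr (9 / 80) ‖h‖ ‖d‖ τ T T' cp cm B l b σ K3 <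
      Real.sqrt (2 * Real.pi * (9 / 80) / ‖1 - h‖))
    (hnum : ‖h‖ * upErr (9 / 80) ‖d‖ |d.re| τ T T' cp cm B l b σ K2 ≤
      k * ‖1 - h‖ * (Real.sqrt (2 * Real.pi * (9 / 80) / ‖1 - h‖) -
        lowErr (9 / 80) ‖h‖ ‖d‖ τ T T' cp cm B l b σ K3)) :
    JJ δ h (-(τ * d)) d (fun _ => 1) ≠ 0 ∧
    ‖JJ δ h (-(τ * d)) d (fun v => v)‖ ≤ k * ‖JJ δ h (-(τ * d)) d (fun _ => 1)‖ := by
  have hδ0 : (0 : ℝ) < 9 / 80 := by norm_num
  have h1h : 0 < ‖1 - h‖ := norm_pos_iff.2 (sub_ne_zero.2 (Ne.symm H.h_ne))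
  have hlow := gen_low H
  have hup := gen_up H
  have m1 := lowErr_mono (H := ‖h‖) (q := ‖d‖) (τ := τ) (T := T) (T' := T') (cp := cp) (cm := cm)
    (B := B) (l := l) (b := b) (σ := σ) (K3 := K3) H.δpos hδ hB (norm_nonneg _) (norm_nonneg _)
    H.τpos H.Tpos H.TT H.cppos H.cmpos H.lpos H.bpos (H.δpos.trans H.σgt) H.K3pos
  have m2 := upErr_mono (q := ‖d‖) (r := |d.re|) (τ := τ) (T := T) (T' := T') (cp := cp) (cm := cm)
    (B := B) (l := l) (b := b) (σ := σ) (K2 := K2) H.δpos hδ hB (norm_nonneg _)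
    H.τpos H.Tpos H.TT H.cppos H.cmpos H.lpos hb hσ H.K2pos
  set s : ℝ := Real.sqrt (δ / (9 / 80)) with hs
  have hs0 : 0 < s := Real.sqrt_pos.2 (div_pos H.δpos hδ0)
  have e1 : Real.sqrt (2 * Real.pi * δ / ‖1 - h‖) =
      Real.sqrt (2 * Real.pi * (9 / 80) / ‖1 - h‖) * s := by
    rw [hs, ← Real.sqrt_mul (by positivity)]
    congr 1
    field_simp
  set G : ℝ := Real.sqrt (2 * Real.pi * (9 / 80) / ‖1 - h‖) -
    lowErr (9 / 80) ‖h‖ ‖d‖ τ T T' cp cm B l b σ K3 with hG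
  have hG0 : 0 < G := by
    rw [hG]
    linarith only [hpos]
  have hJ : G * s ≤ ‖JJ δ h (-(τ * d)) d (fun _ => 1)‖ := by
    refine le_trans ?_ hlow
    rw [e1, hG, sub_mul]
    linarith only [m1]
  have hJ0 : 0 < ‖JJ δ h (-(τ * d)) d (fun _ => 1)‖ := (mul_pos hG0 hs0).trans_le hJ
  refine ⟨norm_pos_iff.1 hJ0, ?_⟩
  have h2 : ‖1 - h‖ * ‖JJ δ h (-(τ * d)) d (fun v => v)‖ ≤
      ‖1 - h‖ * (k * ‖JJ δ h (-(τ * d)) d (fun _ => 1)‖) := by
    calc ‖1 - h‖ * ‖JJ δ h (-(τ * d)) d (fun v => v)‖ ≤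
        ‖h‖ * upErr δ ‖d‖ |d.re| τ T T' cp cm B l b σ K2 := hup
      _ ≤ ‖h‖ * (upErr (9 / 80) ‖d‖ |d.re| τ T T' cp cm B l b σ K2 * s) :=
          mul_le_mul_of_nonneg_left m2 (norm_nonneg _)
      _ = (‖h‖ * upErr (9 / 80) ‖d‖ |d.re| τ T T' cp cm B l b σ K2) * s := by ring
      _ ≤ (k * ‖1 - h‖ * G) * s := mul_le_mul_of_nonneg_right hnum hs0.le
      _ = ‖1 - h‖ * (k * (G * s)) := by ring
      _ ≤ ‖1 - h‖ * (k * ‖JJ δ h (-(τ * d)) d (fun _ => 1)‖) := by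
          apply mul_le_mul_of_nonneg_left _ h1h.le
          exact mul_le_mul_of_nonneg_left hJ hk
  exact le_of_mul_le_mul_left h2 h1h

end SokamFU

end

/-! ### Lib_MP_af4de1_q.QGen -/

section
namespace SokamFU
end SokamFU
/-!
# Reduction to a general `δ₀` (copy of `gen_fin`)
-/

set_option autoImplicit false

namespace SokamQ

open Complex MeasureTheory Set SokamFU

theorem gen_fin0 {δ δ0 : ℝ} {h d : ℂ} {τ T T' cp cm B l b σ K2 K3 k : ℝ}
    (H : Hyp δ h d τ T T' cp cm B l b σ K2 K3) (hδ : δ ≤ δ0) (hB : δ0 ≤ 2 * B)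
    (hb : δ0 ≤ 2 * b) (hσ : δ0 < σ) (hk : 0 ≤ k)
    (hpos : lowErr δ0 ‖h‖ ‖d‖ τ T T' cp cm B l b σ K3 <
      Real.sqrt (2 * Real.pi * δ0 / ‖1 - h‖))
    (hnum : ‖h‖ * upErr δ0 ‖d‖ |d.re| τ T T' cp cm B l b σ K2 ≤
      k * ‖1 - h‖ * (Real.sqrt (2 * Real.pi * δ0 / ‖1 - h‖) -
        lowErr δ0 ‖h‖ ‖d‖ τ T T' cp cm B l b σ K3)) :
    JJ δ h (-(τ * d)) d (fun _ => 1) ≠ 0 ∧
    ‖JJ δ h (-(τ * d)) d (fun v => v)‖ ≤ k * ‖JJ δ h (-(τ * d)) d (fun _ => 1)‖ := by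
  have hδ0 : (0 : ℝ) < δ0 := H.δpos.trans_le hδ
  have h1h : 0 < ‖1 - h‖ := norm_pos_iff.2 (sub_ne_zero.2 (Ne.symm H.h_ne))
  have hlow := gen_low H
  have hup := gen_up H
  have m1 := lowErr_mono (H := ‖h‖) (q := ‖d‖) (τ := τ) (T := T) (T' := T') (cp := cp) (cm := cm)
    (B := B) (l := l) (b := b) (σ := σ) (K3 := K3) H.δpos hδ hB (norm_nonneg _) (norm_nonneg _)
    H.τpos H.Tpos H.TT H.cppos H.cmpos H.lpos H.bpos (H.δpos.trans H.σgt) H.K3pos
  have m2 := upErr_mono (q := ‖d‖) (r := |d.re|) (τ := τ) (T := T) (T' := T') (cp := cp) (cm := cm)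
    (B := B) (l := l) (b := b) (σ := σ) (K2 := K2) H.δpos hδ hB (norm_nonneg _)
    H.τpos H.Tpos H.TT H.cppos H.cmpos H.lpos hb hσ H.K2pos
  set s : ℝ := Real.sqrt (δ / δ0) with hs
  have hs0 : 0 < s := Real.sqrt_pos.2 (div_pos H.δpos hδ0)
  have e1 : Real.sqrt (2 * Real.pi * δ / ‖1 - h‖) =
      Real.sqrt (2 * Real.pi * δ0 / ‖1 - h‖) * s := by
    rw [hs, ← Real.sqrt_mul (by positivity)]
    congr 1
    field_simp
  set G : ℝ := Real.sqrt (2 * Real.pi * δ0 / ‖1 - h‖) -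
    lowErr δ0 ‖h‖ ‖d‖ τ T T' cp cm B l b σ K3 with hG
  have hG0 : 0 < G := by
    rw [hG]
    linarith
  have hJ : G * s ≤ ‖JJ δ h (-(τ * d)) d (fun _ => 1)‖ := by
    refine le_trans ?_ hlow
    rw [e1, hG, sub_mul]
    linarith
  have hJ0 : 0 < ‖JJ δ h (-(τ * d)) d (fun _ => 1)‖ := (mul_pos hG0 hs0).trans_le hJ
  refine ⟨norm_pos_iff.1 hJ0, ?_⟩
  have h2 : ‖1 - h‖ * ‖JJ δ h (-(τ * d)) d (fun v => v)‖ ≤
      ‖1 - h‖ * (k * ‖JJ δ h (-(τ * d)) d (fun _ => 1)‖) := by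
    calc ‖1 - h‖ * ‖JJ δ h (-(τ * d)) d (fun v => v)‖ ≤
        ‖h‖ * upErr δ ‖d‖ |d.re| τ T T' cp cm B l b σ K2 := hup
      _ ≤ ‖h‖ * (upErr δ0 ‖d‖ |d.re| τ T T' cp cm B l b σ K2 * s) :=
          mul_le_mul_of_nonneg_left m2 (norm_nonneg _)
      _ = (‖h‖ * upErr δ0 ‖d‖ |d.re| τ T T' cp cm B l b σ K2) * s := by ring
      _ ≤ (k * ‖1 - h‖ * G) * s := mul_le_mul_of_nonneg_right hnum hs0.le
      _ = ‖1 - h‖ * (k * (G * s)) := by ring
      _ ≤ ‖1 - h‖ * (k * ‖JJ δ h (-(τ * d)) d (fun _ => 1)‖) := by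
          apply mul_le_mul_of_nonneg_left _ h1h.le
          exact mul_le_mul_of_nonneg_left hJ hk
  exact le_of_mul_le_mul_left h2 h1h

end SokamQ

end
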