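import Mathlib.Algebra.Order.Floor.Semifield
import Mathlib.Algebra.Ring.IsFormallyReal
import Mathlib.RingTheory.PowerSeries.Inverse
import Mathlib.Data.Rat.Star
import Mathlib.Geometry.Euclidean.Angle.Unoriented.TriangleInequality
import Mathlib.Analysis.Convex.Contractible
import Mathlib.Analysis.Calculus.Deriv.Star
import Mathlib.MeasureTheory.Integral.Gamma
import Mathlib.Analysis.Complex.LocallyUniformLimit
import Mathlib.Topology.Separation.CompletelyRegular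
import Mathlib.RingTheory.Flat.TorsionFree
import Mathlib.MeasureTheory.Order.Group.Lattice
import Mathlib.Data.Int.Star
import Mathlib.LinearAlgebra.Lagrange
import Mathlib.Analysis.Complex.Angle
import Mathlib.Analysis.Complex.BorelCaratheodory
import Mathlib.Analysis.Complex.CoveringMap
import Mathlib.Topology.Homotopy.Lifting
import Mathlib.Analysis.Complex.ExponentialBounds
import Mathlib.Analysis.Complex.HasPrimitives
import Mathlib.NumberTheory.DiophantineApproximation.Basic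
import Mathlib.Analysis.Complex.OpenMapping
import Mathlib.Analysis.SpecialFunctions.Trigonometric.DerivHyp
import Mathlib.RingTheory.SimpleRing.Principal
import Mathlib.Order.CompletePartialOrder
import Mathlib.Analysis.SpecialFunctions.Complex.LogBounds
import Mathlib.Analysis.SpecialFunctions.Gamma.BohrMollerup
import Mathlib.Analysis.SpecialFunctions.Trigonometric.Series
import Mathlib.Topology.MetricSpace.Sequences
import Mathlib.Analysis.Normed.Group.Tannery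
import Mathlib.Analysis.ODE.Gronwall
import Mathlib.Analysis.Real.Pi.Bounds
import Mathlib.Analysis.SpecialFunctions.Gaussian.PoissonSummation
import Mathlib.Analysis.SpecialFunctions.Trigonometric.InverseDeriv
import Mathlib.RingTheory.TotallySplit
import Mathlib.RingTheory.Etale.Weakly
import Mathlib.Tactic

/-! ### Lib_MP_af4de1_q.QScDef -/

section
/-!
# Left contour, `9/2 ≤ ρ ≤ 8`: the scalar functions

`h = a + i s`, `v = ∓(x/6 + i x)`, `E = e^(-x/6)`.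
-/

set_option autoImplicit false

namespace SokamQ

/-- the scalar function of `left` and `far` -/
noncomputable def fL (a s x : ℝ) : ℝ :=
  x ^ (2 : ℕ) / 6 - a * (x - Real.exp (-(x / 6)) * Real.sin x) +
    s * (1 - x / 6 - Real.exp (-(x / 6)) * Real.cos x)

/-- the scalar function of `right` -/
noncomputable def fR (a s x : ℝ) : ℝ :=
  x ^ (2 : ℕ) / 6 - a * (Real.exp (x / 6) * Real.sin x - x) +
    s * (1 + x / 6 - Real.exp (x / 6) * Real.cos x)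

end SokamQ

end

/-! ### Lib_MP_af4de1_q.QSc -/

section
/-!
# Left contour, `9/2 ≤ ρ ≤ 8`: scalar inequalities [FQ-5a]
-/

set_option autoImplicit false

namespace SokamQ

private theorem mono_QSc {F F' : ℝ → ℝ} (hF : ∀ x, HasDerivAt F (F' x) x) (h0 : F 0 = 0)
    (h : ∀ x, 0 ≤ x → 0 ≤ F' x) {x : ℝ} (hx : 0 ≤ x) : 0 ≤ F x := by
  have hm : MonotoneOn F (Set.Ici 0) := by
    refine monotoneOn_of_deriv_nonneg (convex_Ici 0)
      (fun y _ => (hF y).continuousAt.continuousWithinAt)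
      (fun y _ => (hF y).differentiableAt.differentiableWithinAt) (fun y hy => ?_)
    rw [interior_Ici] at hy
    rw [(hF y).deriv]
    exact h y (le_of_lt hy)
  have h1 := hm (Set.mem_Ici.2 le_rfl) (Set.mem_Ici.2 hx) hx
  rwa [h0] at h1

private theorem pw_QSc (k : ℕ) (c x : ℝ) : HasDerivAt (fun x : ℝ => x ^ k / c) (k * x ^ (k - 1) / c) x :=
  (hasDerivAt_pow k x).div_const c

private theorem sin3_QSc {x : ℝ} (hx : 0 ≤ x) : x - x ^ (3 : ℕ) / 6 ≤ Real.sin x := by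
  have h := mono_QSc (F := fun x => Real.sin x - (x - x ^ (3 : ℕ) / 6)) (F' := fun x => Real.cos x - (1 - x ^ (2 : ℕ) / 2))
    (fun x => ?_) (by simp) (fun x hx => ?_) hx
  · linarith only [h]
  · refine HasDerivAt.congr_deriv ((Real.hasDerivAt_sin x).sub ((hasDerivAt_id x).sub (pw_QSc 3 6 x))) ?_
    norm_num
    ring
  · have h := Real.one_sub_sq_div_two_le_cos (x := x)
    linarith only [h]

private theorem cos4_QSc {x : ℝ} (hx : 0 ≤ x) : Real.cos x ≤ 1 - x ^ (2 : ℕ) / 2 + x ^ (4 : ℕ) / 24 := by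
  have h := mono_QSc (F := fun x => (1 - x ^ (2 : ℕ) / 2 + x ^ (4 : ℕ) / 24) - Real.cos x) (F' := fun x => Real.sin x - (x - x ^ (3 : ℕ) / 6))
    (fun x => ?_) (by simp) (fun x hx => ?_) hx
  · linarith only [h]
  · refine HasDerivAt.congr_deriv ((((hasDerivAt_const x (1 : ℝ)).sub (pw_QSc 2 2 x)).add (pw_QSc 4 24 x)).sub (Real.hasDerivAt_cos x)) ?_
    norm_num
    ring
  · have h := sin3_QSc hx
    linarith only [h]

private theorem sin5_QSc {x : ℝ} (hx : 0 ≤ x) : Real.sin x ≤ x - x ^ (3 : ℕ) / 6 + x ^ (5 : ℕ) / 120 := by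
  have h := mono_QSc (F := fun x => (x - x ^ (3 : ℕ) / 6 + x ^ (5 : ℕ) / 120) - Real.sin x) (F' := fun x => (1 - x ^ (2 : ℕ) / 2 + x ^ (4 : ℕ) / 24) - Real.cos x)
    (fun x => ?_) (by simp) (fun x hx => ?_) hx
  · linarith only [h]
  · refine HasDerivAt.congr_deriv ((((hasDerivAt_id x).sub (pw_QSc 3 6 x)).add (pw_QSc 5 120 x)).sub (Real.hasDerivAt_sin x)) ?_
    norm_num
    ring
  · have h := cos4_QSc hx
    linarith only [h]

private theorem cos6_QSc {x : ℝ} (hx : 0 ≤ x) : 1 - x ^ (2 : ℕ) / 2 + x ^ (4 : ℕ) / 24 - x ^ (6 : ℕ) / 720 ≤ Real.cos x := by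
  have h := mono_QSc (F := fun x => Real.cos x - (1 - x ^ (2 : ℕ) / 2 + x ^ (4 : ℕ) / 24 - x ^ (6 : ℕ) / 720)) (F' := fun x => (x - x ^ (3 : ℕ) / 6 + x ^ (5 : ℕ) / 120) - Real.sin x)
    (fun x => ?_) (by simp) (fun x hx => ?_) hx
  · linarith only [h]
  · refine HasDerivAt.congr_deriv ((Real.hasDerivAt_cos x).sub ((((hasDerivAt_const x (1 : ℝ)).sub (pw_QSc 2 2 x)).add (pw_QSc 4 24 x)).sub (pw_QSc 6 720 x))) ?_
    norm_num
    ring
  · have h := sin5_QSc hx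
    linarith only [h]

private theorem sin7_QSc {x : ℝ} (hx : 0 ≤ x) : x - x ^ (3 : ℕ) / 6 + x ^ (5 : ℕ) / 120 - x ^ (7 : ℕ) / 5040 ≤ Real.sin x := by
  have h := mono_QSc (F := fun x => Real.sin x - (x - x ^ (3 : ℕ) / 6 + x ^ (5 : ℕ) / 120 - x ^ (7 : ℕ) / 5040)) (F' := fun x => Real.cos x - (1 - x ^ (2 : ℕ) / 2 + x ^ (4 : ℕ) / 24 - x ^ (6 : ℕ) / 720))
    (fun x => ?_) (by simp) (fun x hx => ?_) hx
  · linarith only [h]
  · refine HasDerivAt.congr_deriv ((Real.hasDerivAt_sin x).sub ((((hasDerivAt_id x).sub (pw_QSc 3 6 x)).add (pw_QSc 5 120 x)).sub (pw_QSc 7 5040 x))) ?_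
    norm_num
    ring
  · have h := cos6_QSc hx
    linarith only [h]

private theorem cos8_QSc {x : ℝ} (hx : 0 ≤ x) : Real.cos x ≤ 1 - x ^ (2 : ℕ) / 2 + x ^ (4 : ℕ) / 24 - x ^ (6 : ℕ) / 720 + x ^ (8 : ℕ) / 40320 := by
  have h := mono_QSc (F := fun x => (1 - x ^ (2 : ℕ) / 2 + x ^ (4 : ℕ) / 24 - x ^ (6 : ℕ) / 720 + x ^ (8 : ℕ) / 40320) - Real.cos x) (F' := fun x => Real.sin x - (x - x ^ (3 : ℕ) / 6 + x ^ (5 : ℕ) / 120 - x ^ (7 : ℕ) / 5040))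
    (fun x => ?_) (by simp) (fun x hx => ?_) hx
  · linarith only [h]
  · refine HasDerivAt.congr_deriv ((((((hasDerivAt_const x (1 : ℝ)).sub (pw_QSc 2 2 x)).add (pw_QSc 4 24 x)).sub (pw_QSc 6 720 x)).add (pw_QSc 8 40320 x)).sub (Real.hasDerivAt_cos x)) ?_
    norm_num
    ring
  · have h := sin7_QSc hx
    linarith only [h]

private theorem sin9_QSc {x : ℝ} (hx : 0 ≤ x) : Real.sin x ≤ x - x ^ (3 : ℕ) / 6 + x ^ (5 : ℕ) / 120 - x ^ (7 : ℕ) / 5040 + x ^ (9 : ℕ) / 362880 := by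
  have h := mono_QSc (F := fun x => (x - x ^ (3 : ℕ) / 6 + x ^ (5 : ℕ) / 120 - x ^ (7 : ℕ) / 5040 + x ^ (9 : ℕ) / 362880) - Real.sin x) (F' := fun x => (1 - x ^ (2 : ℕ) / 2 + x ^ (4 : ℕ) / 24 - x ^ (6 : ℕ) / 720 + x ^ (8 : ℕ) / 40320) - Real.cos x)
    (fun x => ?_) (by simp) (fun x hx => ?_) hx
  · linarith only [h]
  · refine HasDerivAt.congr_deriv ((((((hasDerivAt_id x).sub (pw_QSc 3 6 x)).add (pw_QSc 5 120 x)).sub (pw_QSc 7 5040 x)).add (pw_QSc 9 362880 x)).sub (Real.hasDerivAt_sin x)) ?_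
    norm_num
    ring
  · have h := cos8_QSc hx
    linarith only [h]

private theorem cos10_QSc {x : ℝ} (hx : 0 ≤ x) : 1 - x ^ (2 : ℕ) / 2 + x ^ (4 : ℕ) / 24 - x ^ (6 : ℕ) / 720 + x ^ (8 : ℕ) / 40320 - x ^ (10 : ℕ) / 3628800 ≤ Real.cos x := by
  have h := mono_QSc (F := fun x => Real.cos x - (1 - x ^ (2 : ℕ) / 2 + x ^ (4 : ℕ) / 24 - x ^ (6 : ℕ) / 720 + x ^ (8 : ℕ) / 40320 - x ^ (10 : ℕ) / 3628800)) (F' := fun x => (x - x ^ (3 : ℕ) / 6 + x ^ (5 : ℕ) / 120 - x ^ (7 : ℕ) / 5040 + x ^ (9 : ℕ) / 362880) - Real.sin x)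
    (fun x => ?_) (by simp) (fun x hx => ?_) hx
  · linarith only [h]
  · refine HasDerivAt.congr_deriv ((Real.hasDerivAt_cos x).sub ((((((hasDerivAt_const x (1 : ℝ)).sub (pw_QSc 2 2 x)).add (pw_QSc 4 24 x)).sub (pw_QSc 6 720 x)).add (pw_QSc 8 40320 x)).sub (pw_QSc 10 3628800 x))) ?_
    norm_num
    ring
  · have h := sin9_QSc hx
    linarith only [h]

private theorem sin11_QSc {x : ℝ} (hx : 0 ≤ x) : x - x ^ (3 : ℕ) / 6 + x ^ (5 : ℕ) / 120 - x ^ (7 : ℕ) / 5040 + x ^ (9 : ℕ) / 362880 - x ^ (11 : ℕ) / 39916800 ≤ Real.sin x := by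
  have h := mono_QSc (F := fun x => Real.sin x - (x - x ^ (3 : ℕ) / 6 + x ^ (5 : ℕ) / 120 - x ^ (7 : ℕ) / 5040 + x ^ (9 : ℕ) / 362880 - x ^ (11 : ℕ) / 39916800)) (F' := fun x => Real.cos x - (1 - x ^ (2 : ℕ) / 2 + x ^ (4 : ℕ) / 24 - x ^ (6 : ℕ) / 720 + x ^ (8 : ℕ) / 40320 - x ^ (10 : ℕ) / 3628800))
    (fun x => ?_) (by simp) (fun x hx => ?_) hx
  · linarith only [h]
  · refine HasDerivAt.congr_deriv ((Real.hasDerivAt_sin x).sub ((((((hasDerivAt_id x).sub (pw_QSc 3 6 x)).add (pw_QSc 5 120 x)).sub (pw_QSc 7 5040 x)).add (pw_QSc 9 362880 x)).sub (pw_QSc 11 39916800 x))) ?_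
    norm_num
    ring
  · have h := cos10_QSc hx
    linarith only [h]

private theorem em2_QSc {t : ℝ} (ht : 0 ≤ t) : Real.exp (-t) ≤ 1 - t + t ^ (2 : ℕ) / 2 := by
  have h := mono_QSc (F := fun t => (1 - t + t ^ (2 : ℕ) / 2) - Real.exp (-t))
    (F' := fun t => Real.exp (-t) - (1 - t)) (fun x => ?_) (by simp) (fun x hx => ?_) ht
  · linarith only [h]
  · have hd : HasDerivAt (fun t : ℝ => Real.exp (-t)) (Real.exp (-x) * (-1)) x :=
      (hasDerivAt_neg x).exp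
    refine HasDerivAt.congr_deriv ((((hasDerivAt_const x (1 : ℝ)).sub (hasDerivAt_id x)).add
      (pw_QSc 2 2 x)).sub hd) ?_
    norm_num
    ring
  · have h := Real.add_one_le_exp (-x)
    linarith only [h]

private theorem em3_QSc {t : ℝ} (ht : 0 ≤ t) : 1 - t + t ^ (2 : ℕ) / 2 - t ^ (3 : ℕ) / 6 ≤ Real.exp (-t) := by
  have h := mono_QSc (F := fun t => Real.exp (-t) - (1 - t + t ^ (2 : ℕ) / 2 - t ^ (3 : ℕ) / 6))
    (F' := fun t => (1 - t + t ^ (2 : ℕ) / 2) - Real.exp (-t)) (fun x => ?_) (by simp) (fun x hx => ?_) ht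
  · linarith only [h]
  · have hd : HasDerivAt (fun t : ℝ => Real.exp (-t)) (Real.exp (-x) * (-1)) x :=
      (hasDerivAt_neg x).exp
    refine HasDerivAt.congr_deriv (hd.sub ((((hasDerivAt_const x (1 : ℝ)).sub (hasDerivAt_id x)).add
      (pw_QSc 2 2 x)).sub (pw_QSc 3 6 x))) ?_
    norm_num
    ring
  · have h := em2_QSc hx
    linarith only [h]

private theorem ep3_QSc {t : ℝ} (ht : 0 ≤ t) : 1 + t + t ^ (2 : ℕ) / 2 + t ^ (3 : ℕ) / 6 ≤ Real.exp t := by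
  have h := Real.sum_le_exp_of_nonneg ht 4
  refine le_trans (le_of_eq ?_) h
  simp [Finset.sum_range_succ, Nat.factorial]

private theorem ep4_QSc {t : ℝ} (ht : 0 ≤ t) (h1 : t ≤ 1) :
    Real.exp t ≤ 1 + t + t ^ (2 : ℕ) / 2 + t ^ (3 : ℕ) / 6 + 5 / 96 * t ^ (4 : ℕ) := by
  have h := Real.exp_bound' ht h1 (n := 4) (by norm_num)
  refine h.trans (le_of_eq ?_)
  simp [Finset.sum_range_succ, Nat.factorial]
  ring

private theorem poly1_QSc {x : ℝ} (h0 : 0 ≤ x) (h1 : x ≤ 3 / 2) :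
    0 ≤ 1 - x / 6 - (1 - x / 6 + (x / 6) ^ (2 : ℕ) / 2) * (1 - x ^ (2 : ℕ) / 2 + x ^ (4 : ℕ) / 24) - 3 / 10 * x ^ (2 : ℕ) := by
  obtain ⟨y, hy⟩ : ∃ y, y = 3 / 2 - x := ⟨_, rfl⟩
  have hy0 : 0 ≤ y := by rw [hy]; linarith only [h1]
  have e : 1 - x / 6 - (1 - x / 6 + (x / 6) ^ (2 : ℕ) / 2) * (1 - x ^ (2 : ℕ) / 2 + x ^ (4 : ℕ) / 24) - 3 / 10 * x ^ (2 : ℕ) =
      x ^ (2 : ℕ) * (134 / 3645 * y ^ (4 : ℕ) +
      446 / 3645 * x ^ (1 : ℕ) * y ^ (3 : ℕ) +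
      637 / 4860 * x ^ (2 : ℕ) * y ^ (2 : ℕ) +
      1363 / 29160 * x ^ (3 : ℕ) * y ^ (1 : ℕ) +
      161 / 233280 * x ^ (4 : ℕ)) := by
    rw [hy]
    ring
  rw [e]
  (clear * - h0 hy0; positivity)

private theorem poly2_QSc {x : ℝ} (h0 : 0 ≤ x) (h1 : x ≤ 3 / 2) :
    0 ≤ x - (1 - x / 6 + (x / 6) ^ (2 : ℕ) / 2) * (x - x ^ (3 : ℕ) / 6 + x ^ (5 : ℕ) / 120) - 1 / 6 * x ^ (2 : ℕ) := by
  obtain ⟨y, hy⟩ : ∃ y, y = 3 / 2 - x := ⟨_, rfl⟩
  have hy0 : 0 ≤ y := by rw [hy]; linarith only [h1]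
  have e : x - (1 - x / 6 + (x / 6) ^ (2 : ℕ) / 2) * (x - x ^ (3 : ℕ) / 6 + x ^ (5 : ℕ) / 120) - 1 / 6 * x ^ (2 : ℕ) =
      x ^ (3 : ℕ) * (22 / 729 * y ^ (4 : ℕ) +
      82 / 729 * x ^ (1 : ℕ) * y ^ (3 : ℕ) +
      83 / 540 * x ^ (2 : ℕ) * y ^ (2 : ℕ) +
      2671 / 29160 * x ^ (3 : ℕ) * y ^ (1 : ℕ) +
      937 / 46656 * x ^ (4 : ℕ)) := by
    rw [hy]
    ring
  rw [e]
  (clear * - h0 hy0; positivity)

private theorem poly3_QSc {x : ℝ} (h0 : 0 ≤ x) (h1 : x ≤ 3 / 2) :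
    0 ≤ 81 / 250 * x ^ (2 : ℕ) - (x - (1 - x / 6 + (x / 6) ^ (2 : ℕ) / 2 - (x / 6) ^ (3 : ℕ) / 6) * (x - x ^ (3 : ℕ) / 6 + x ^ (5 : ℕ) / 120 - x ^ (7 : ℕ) / 5040)) := by
  obtain ⟨y, hy⟩ : ∃ y, y = 3 / 2 - x := ⟨_, rfl⟩
  have hy0 : 0 ≤ y := by rw [hy]; linarith only [h1]
  have e : 81 / 250 * x ^ (2 : ℕ) - (x - (1 - x / 6 + (x / 6) ^ (2 : ℕ) / 2 - (x / 6) ^ (3 : ℕ) / 6) * (x - x ^ (3 : ℕ) / 6 + x ^ (5 : ℕ) / 120 - x ^ (7 : ℕ) / 5040)) =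
      x ^ (2 : ℕ) * (15104 / 2460375 * y ^ (8 : ℕ) +
      32944 / 820125 * x ^ (1 : ℕ) * y ^ (7 : ℕ) +
      824236 / 7381125 * x ^ (2 : ℕ) * y ^ (6 : ℕ) +
      140258 / 820125 * x ^ (3 : ℕ) * y ^ (5 : ℕ) +
      17063 / 109350 * x ^ (4 : ℕ) * y ^ (4 : ℕ) +
      35192707 / 413343000 * x ^ (5 : ℕ) * y ^ (3 : ℕ) +
      14355113 / 551124000 * x ^ (6 : ℕ) * y ^ (2 : ℕ) +
      1344737 / 367416000 * x ^ (7 : ℕ) * y ^ (1 : ℕ) +
      1287829 / 13226976000 * x ^ (8 : ℕ)) := by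
    rw [hy]
    ring
  rw [e]
  (clear * - h0 hy0; positivity)

private theorem poly4_QSc {x : ℝ} (h0 : 0 ≤ x) (h1 : x ≤ 2) :
    0 ≤ 1 + x / 6 - ((1 + x / 6 + (x / 6) ^ (2 : ℕ) / 2 + (x / 6) ^ (3 : ℕ) / 6) * (1 - x ^ (2 : ℕ) / 2 + x ^ (4 : ℕ) / 24 - x ^ (6 : ℕ) / 720 + x ^ (8 : ℕ) / 40320) + 5 / 96 * (x / 6) ^ (4 : ℕ)) - 47 / 100 * x ^ (2 : ℕ) := by
  obtain ⟨y, hy⟩ : ∃ y, y = 2 - x := ⟨_, rfl⟩
  have hy0 : 0 ≤ y := by rw [hy]; linarith only [h1]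
  have e : 1 + x / 6 - ((1 + x / 6 + (x / 6) ^ (2 : ℕ) / 2 + (x / 6) ^ (3 : ℕ) / 6) * (1 - x ^ (2 : ℕ) / 2 + x ^ (4 : ℕ) / 24 - x ^ (6 : ℕ) / 720 + x ^ (8 : ℕ) / 40320) + 5 / 96 * (x / 6) ^ (4 : ℕ)) - 47 / 100 * x ^ (2 : ℕ) =
      x ^ (2 : ℕ) * (29 / 921600 * y ^ (9 : ℕ) +
      157 / 259200 * x ^ (1 : ℕ) * y ^ (8 : ℕ) +
      1370083 / 398131200 * x ^ (2 : ℕ) * y ^ (7 : ℕ) +
      3849877 / 398131200 * x ^ (3 : ℕ) * y ^ (6 : ℕ) +
      2087861 / 132710400 * x ^ (4 : ℕ) * y ^ (5 : ℕ) +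
      2075171 / 132710400 * x ^ (5 : ℕ) * y ^ (4 : ℕ) +
      8779733 / 928972800 * x ^ (6 : ℕ) * y ^ (3 : ℕ) +
      27153323 / 8360755200 * x ^ (7 : ℕ) * y ^ (2 : ℕ) +
      4347337 / 8360755200 * x ^ (8 : ℕ) * y ^ (1 : ℕ) +
      134143 / 8360755200 * x ^ (9 : ℕ)) := by
    rw [hy]
    ring
  rw [e]
  (clear * - hy0 h0; positivity)

private theorem poly5_QSc {x : ℝ} (h0 : 0 ≤ x) (h1 : x ≤ 2) :
    0 ≤ (1 + x / 6 + (x / 6) ^ (2 : ℕ) / 2 + (x / 6) ^ (3 : ℕ) / 6) * (x - x ^ (3 : ℕ) / 6 + x ^ (5 : ℕ) / 120 - x ^ (7 : ℕ) / 5040 + x ^ (9 : ℕ) / 362880 - x ^ (11 : ℕ) / 39916800) - x + 183 / 1000 * x ^ (2 : ℕ) := by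
  obtain ⟨y, hy⟩ : ∃ y, y = 2 - x := ⟨_, rfl⟩
  have hy0 : 0 ≤ y := by rw [hy]; linarith only [h1]
  have e : (1 + x / 6 + (x / 6) ^ (2 : ℕ) / 2 + (x / 6) ^ (3 : ℕ) / 6) * (x - x ^ (3 : ℕ) / 6 + x ^ (5 : ℕ) / 120 - x ^ (7 : ℕ) / 5040 + x ^ (9 : ℕ) / 362880 - x ^ (11 : ℕ) / 39916800) - x + 183 / 1000 * x ^ (2 : ℕ) =
      x ^ (2 : ℕ) * (1049 / 12288000 * y ^ (12 : ℕ) +
      17507 / 18432000 * x ^ (1 : ℕ) * y ^ (11 : ℕ) +
      794159 / 165888000 * x ^ (2 : ℕ) * y ^ (10 : ℕ) +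
      478621 / 33177600 * x ^ (3 : ℕ) * y ^ (9 : ℕ) +
      5747471 / 199065600 * x ^ (4 : ℕ) * y ^ (8 : ℕ) +
      35089867 / 870912000 * x ^ (5 : ℕ) * y ^ (7 : ℕ) +
      69668273 / 1741824000 * x ^ (6 : ℕ) * y ^ (6 : ℕ) +
      24595867 / 870912000 * x ^ (7 : ℕ) * y ^ (5 : ℕ) +
      58099271 / 4180377600 * x ^ (8 : ℕ) * y ^ (4 : ℕ) +
      14910793 / 3284582400 * x ^ (9 : ℕ) * y ^ (3 : ℕ) +
      916587883 / 1034643456000 * x ^ (10 : ℕ) * y ^ (2 : ℕ) +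
      81052121 / 1034643456000 * x ^ (11 : ℕ) * y ^ (1 : ℕ) +
      66211 / 2069286912000 * x ^ (12 : ℕ)) := by
    rw [hy]
    ring
  rw [e]
  (clear * - h0 hy0; positivity)

private theorem poly6_QSc {x : ℝ} (h0 : 0 ≤ x) (h1 : x ≤ 2) :
    0 ≤ x + 1 / 6 * x ^ (2 : ℕ) - (1 + x / 6 + (x / 6) ^ (2 : ℕ) / 2 + (x / 6) ^ (3 : ℕ) / 6 + 5 / 96 * (x / 6) ^ (4 : ℕ)) * (x - x ^ (3 : ℕ) / 6 + x ^ (5 : ℕ) / 120) := by
  obtain ⟨y, hy⟩ : ∃ y, y = 2 - x := ⟨_, rfl⟩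
  have hy0 : 0 ≤ y := by rw [hy]; linarith only [h1]
  have e : x + 1 / 6 * x ^ (2 : ℕ) - (1 + x / 6 + (x / 6) ^ (2 : ℕ) / 2 + (x / 6) ^ (3 : ℕ) / 6 + 5 / 96 * (x / 6) ^ (4 : ℕ)) * (x - x ^ (3 : ℕ) / 6 + x ^ (5 : ℕ) / 120) =
      x ^ (3 : ℕ) * (11 / 4608 * y ^ (6 : ℕ) +
      629 / 41472 * x ^ (1 : ℕ) * y ^ (5 : ℕ) +
      394631 / 9953280 * x ^ (2 : ℕ) * y ^ (4 : ℕ) +
      15071 / 276480 * x ^ (3 : ℕ) * y ^ (3 : ℕ) +
      38701 / 933120 * x ^ (4 : ℕ) * y ^ (2 : ℕ) +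
      61577 / 3732480 * x ^ (5 : ℕ) * y ^ (1 : ℕ) +
      79549 / 29859840 * x ^ (6 : ℕ)) := by
    rw [hy]
    ring
  rw [e]
  (clear * - h0 hy0; positivity)

private theorem sinnn_QSc {x : ℝ} (h0 : 0 ≤ x) (h1 : x ≤ 2) : 0 ≤ Real.sin x :=
  Real.sin_nonneg_of_nonneg_of_le_pi h0 (by linarith only [h1, Real.pi_gt_three])

private theorem A_lo_QSc {x : ℝ} (h0 : 0 ≤ x) (h1 : x ≤ 3 / 2) :
    1 / 6 * x ^ (2 : ℕ) ≤ x - Real.exp (-(x / 6)) * Real.sin x := by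
  have h2 := poly2_QSc h0 h1
  have h3 := em2_QSc (t := x / 6) (by positivity)
  have h4 := sin5_QSc h0
  have h5 : Real.exp (-(x / 6)) * Real.sin x ≤
      (1 - x / 6 + (x / 6) ^ (2 : ℕ) / 2) * (x - x ^ (3 : ℕ) / 6 + x ^ (5 : ℕ) / 120) :=
    mul_le_mul h3 h4 (sinnn_QSc h0 (by linarith only [h0, h1])) ((Real.exp_pos _).le.trans h3)
  linarith only [h2, h5]

private theorem A_up_QSc {x : ℝ} (h0 : 0 ≤ x) (h1 : x ≤ 3 / 2) :
    x - Real.exp (-(x / 6)) * Real.sin x ≤ 81 / 250 * x ^ (2 : ℕ) := by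
  have h2 := poly3_QSc h0 h1
  have h3 := em3_QSc (t := x / 6) (by positivity)
  have h4 := sin7_QSc h0
  have hx2 : x ^ (2 : ℕ) ≤ 4 := by nlinarith only [h0, h1]
  have h6 : 0 ≤ x - x ^ (3 : ℕ) / 6 + x ^ (5 : ℕ) / 120 - x ^ (7 : ℕ) / 5040 := by
    have e : x - x ^ (3 : ℕ) / 6 + x ^ (5 : ℕ) / 120 - x ^ (7 : ℕ) / 5040 =
        x * (1 - x ^ (2 : ℕ) / 6) + x ^ (5 : ℕ) / 120 * (1 - x ^ (2 : ℕ) / 42) := by ring
    rw [e]
    exact add_nonneg (mul_nonneg h0 (by linarith only [hx2])) (mul_nonneg (by (clear * - h0; positivity)) (by linarith only [hx2]))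
  have h5 : (1 - x / 6 + (x / 6) ^ (2 : ℕ) / 2 - (x / 6) ^ (3 : ℕ) / 6) *
      (x - x ^ (3 : ℕ) / 6 + x ^ (5 : ℕ) / 120 - x ^ (7 : ℕ) / 5040) ≤ Real.exp (-(x / 6)) * Real.sin x :=
    mul_le_mul h3 h4 h6 (Real.exp_pos _).le
  linarith only [h2, h5]

private theorem C_QSc {x : ℝ} (h0 : 0 ≤ x) (h1 : x ≤ 3 / 2) :
    3 / 10 * x ^ (2 : ℕ) ≤ 1 - x / 6 - Real.exp (-(x / 6)) * Real.cos x := by
  have h2 := poly1_QSc h0 h1
  have h3 := em2_QSc (t := x / 6) (by positivity)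
  have h4 := cos4_QSc h0
  have h6 : 0 ≤ Real.cos x :=
    Real.cos_nonneg_of_neg_pi_div_two_le_of_le (by linarith only [h0, Real.pi_gt_three])
      (by linarith only [h1, Real.pi_gt_three])
  have h5 : Real.exp (-(x / 6)) * Real.cos x ≤
      (1 - x / 6 + (x / 6) ^ (2 : ℕ) / 2) * (1 - x ^ (2 : ℕ) / 2 + x ^ (4 : ℕ) / 24) :=
    mul_le_mul h3 h4 h6 ((Real.exp_pos _).le.trans h3)
  linarith only [h2, h5]

private theorem C'_QSc {x : ℝ} (h0 : 0 ≤ x) (h1 : x ≤ 2) :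
    47 / 100 * x ^ (2 : ℕ) ≤ 1 + x / 6 - Real.exp (x / 6) * Real.cos x := by
  have h2 := poly4_QSc h0 h1
  have h3 := ep3_QSc (t := x / 6) (by positivity)
  have h3' := ep4_QSc (t := x / 6) (by (clear * - h0; positivity)) (by linarith only [h1])
  have h4 := cos8_QSc h0
  have h5 : (1 + x / 6 + (x / 6) ^ (2 : ℕ) / 2 + (x / 6) ^ (3 : ℕ) / 6) * Real.cos x ≤
      (1 + x / 6 + (x / 6) ^ (2 : ℕ) / 2 + (x / 6) ^ (3 : ℕ) / 6) *
        (1 - x ^ (2 : ℕ) / 2 + x ^ (4 : ℕ) / 24 - x ^ (6 : ℕ) / 720 + x ^ (8 : ℕ) / 40320) :=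
    mul_le_mul_of_nonneg_left h4 (by (clear * - h0; positivity))
  have h6 : (Real.exp (x / 6) - (1 + x / 6 + (x / 6) ^ (2 : ℕ) / 2 + (x / 6) ^ (3 : ℕ) / 6)) * Real.cos x ≤
      (Real.exp (x / 6) - (1 + x / 6 + (x / 6) ^ (2 : ℕ) / 2 + (x / 6) ^ (3 : ℕ) / 6)) * 1 :=
    mul_le_mul_of_nonneg_left (Real.cos_le_one x) (by linarith only [h3])
  rw [sub_mul] at h6
  linarith only [h2, h3', h5, h6]

private theorem A'_lo_QSc {x : ℝ} (h0 : 0 ≤ x) (h1 : x ≤ 2) :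
    -(183 / 1000 * x ^ (2 : ℕ)) ≤ Real.exp (x / 6) * Real.sin x - x := by
  have h2 := poly5_QSc h0 h1
  have h3 := ep3_QSc (t := x / 6) (by positivity)
  have h4 := sin11_QSc h0
  have hx2 : x ^ (2 : ℕ) ≤ 4 := by nlinarith only [h0, h1]
  have h6 : 0 ≤ x - x ^ (3 : ℕ) / 6 + x ^ (5 : ℕ) / 120 - x ^ (7 : ℕ) / 5040 + x ^ (9 : ℕ) / 362880 - x ^ (11 : ℕ) / 39916800 := by
    have e : x - x ^ (3 : ℕ) / 6 + x ^ (5 : ℕ) / 120 - x ^ (7 : ℕ) / 5040 + x ^ (9 : ℕ) / 362880 - x ^ (11 : ℕ) / 39916800 =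
        x * (1 - x ^ (2 : ℕ) / 6) + x ^ (5 : ℕ) / 120 * (1 - x ^ (2 : ℕ) / 42) +
          x ^ (9 : ℕ) / 362880 * (1 - x ^ (2 : ℕ) / 110) := by ring
    rw [e]
    exact add_nonneg (add_nonneg (mul_nonneg h0 (by linarith only [hx2]))
      (mul_nonneg (by (clear * - h0; positivity)) (by linarith only [hx2]))) (mul_nonneg (by (clear * - h0; positivity)) (by linarith only [hx2]))
  have h5 : (1 + x / 6 + (x / 6) ^ (2 : ℕ) / 2 + (x / 6) ^ (3 : ℕ) / 6) *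
      (x - x ^ (3 : ℕ) / 6 + x ^ (5 : ℕ) / 120 - x ^ (7 : ℕ) / 5040 + x ^ (9 : ℕ) / 362880 - x ^ (11 : ℕ) / 39916800) ≤
        Real.exp (x / 6) * Real.sin x :=
    mul_le_mul h3 h4 h6 (Real.exp_pos _).le
  linarith only [h2, h5]

private theorem A'_up_QSc {x : ℝ} (h0 : 0 ≤ x) (h1 : x ≤ 2) :
    Real.exp (x / 6) * Real.sin x - x ≤ 1 / 6 * x ^ (2 : ℕ) := by
  have h2 := poly6_QSc h0 h1
  have h3 := ep4_QSc (t := x / 6) (by positivity) (by linarith only [h1])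
  have h4 := sin5_QSc h0
  have h5 : Real.exp (x / 6) * Real.sin x ≤
      (1 + x / 6 + (x / 6) ^ (2 : ℕ) / 2 + (x / 6) ^ (3 : ℕ) / 6 + 5 / 96 * (x / 6) ^ (4 : ℕ)) *
        (x - x ^ (3 : ℕ) / 6 + x ^ (5 : ℕ) / 120) :=
    mul_le_mul h3 h4 (sinnn_QSc h0 h1) ((Real.exp_pos _).le.trans h3)
  linarith only [h2, h5]

/-- `(1 - x/6 - E cos x)/x² ≥ .3` (true minimum `.3088` at `3/2`), `(x - E sin x)/x² ≤ .322 ≤ 1/3` (at `3/2`). -/
theorem left_scB {a s x : ℝ} (ha : a ≤ 9 / 25) (hs : 0 ≤ s) (h0 : 0 ≤ x) (h1 : x ≤ 3 / 2) :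
    (3 / 10 * s + 1 / 20) * x ^ (2 : ℕ) ≤ fL a s x := by
  have hA0 := A_lo_QSc h0 h1
  have hA := A_up_QSc h0 h1
  have hC := C_QSc h0 h1
  have hx2 : 0 ≤ x ^ (2 : ℕ) := sq_nonneg x
  unfold fL
  have h2 : s * (3 / 10 * x ^ (2 : ℕ)) ≤ s * (1 - x / 6 - Real.exp (-(x / 6)) * Real.cos x) :=
    mul_le_mul_of_nonneg_left hC hs
  have h3 : a * (x - Real.exp (-(x / 6)) * Real.sin x) ≤
      9 / 25 * (x - Real.exp (-(x / 6)) * Real.sin x) :=
    mul_le_mul_of_nonneg_right ha (by linarith only [hA0, hA])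
  linarith only [hA, hx2, h2, h3]

/-- `a ≤ 0`: `(x - E sin x)/x² ≥ 1/6` (value at `0`). -/
theorem left_scA {a s x : ℝ} (ha : a ≤ 0) (hs : 0 ≤ s) (h0 : 0 ≤ x) (h1 : x ≤ 3 / 2) :
    (3 / 10 * s + (1 - a) / 6) * x ^ (2 : ℕ) ≤ fL a s x := by
  have hA0 := A_lo_QSc h0 h1
  have hC := C_QSc h0 h1
  unfold fL
  have h2 : s * (3 / 10 * x ^ (2 : ℕ)) ≤ s * (1 - x / 6 - Real.exp (-(x / 6)) * Real.cos x) :=
    mul_le_mul_of_nonneg_left hC hs
  have h3 : a * (x - Real.exp (-(x / 6)) * Real.sin x) ≤ a * (1 / 6 * x ^ (2 : ℕ)) :=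
    mul_le_mul_of_nonpos_left hA0 ha
  linarith only [h2, h3]

/-- `(1 + x/6 - e^(x/6) cos x)/x² ≥ .47` on `[0,2]`, `-.183 ≤ (e^(x/6) sin x - x)/x² ≤ 1/6`. -/
theorem right_sc {a s x : ℝ} (ha : -(6 / 5) ≤ a) (ha' : a ≤ 9 / 25) (hs : 4 / 5 ≤ s) (h0 : 0 ≤ x)
    (h1 : x ≤ 2) : 2 / 5 * s * x ^ (2 : ℕ) ≤ fR a s x := by
  have hA0 := A'_lo_QSc h0 h1
  have hA := A'_up_QSc h0 h1
  have hC := C'_QSc h0 h1
  have hx2 : 0 ≤ x ^ (2 : ℕ) := sq_nonneg x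
  unfold fR
  have h2 : s * (47 / 100 * x ^ (2 : ℕ)) ≤ s * (1 + x / 6 - Real.exp (x / 6) * Real.cos x) :=
    mul_le_mul_of_nonneg_left hC (by linarith only [hs])
  have h3 : 4 / 5 * x ^ (2 : ℕ) ≤ s * x ^ (2 : ℕ) := mul_le_mul_of_nonneg_right hs hx2
  rcases le_total 0 a with h | h
  · have h4 : a * (Real.exp (x / 6) * Real.sin x - x) ≤ a * (1 / 6 * x ^ (2 : ℕ)) :=
      mul_le_mul_of_nonneg_left hA h
    have h5 : a * x ^ (2 : ℕ) ≤ 9 / 25 * x ^ (2 : ℕ) := mul_le_mul_of_nonneg_right ha' hx2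
    linarith only [hx2, h2, h3, h4, h5]
  · have h4 : a * (Real.exp (x / 6) * Real.sin x - x) ≤ a * (-(183 / 1000 * x ^ (2 : ℕ))) :=
      mul_le_mul_of_nonpos_left hA0 h
    have h5 : -(6 / 5) * x ^ (2 : ℕ) ≤ a * x ^ (2 : ℕ) := mul_le_mul_of_nonneg_right ha hx2
    linarith only [hx2, h2, h3, h4, h5]

/-- `side`: `v = (u + 1/3) + 2i`, `X = u + 1/3`: `2X - a(e^X sin 2 - 2) + s(1 + X - e^X cos 2) ≥ 6/5 + 2u`.  (`a ≤ 0`: `e^X sin 2 ≥ 1.268`, `-2|a| ..`: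
`≥ 2/3 + 2u - .732·6/5 + 1.9 s`; `a ≥ 0`: `s ≥ 9/2`, `s (-cos 2) ≥ a sin 2`.) -/
theorem side_sc {a s u : ℝ} (ha : -(6 / 5) ≤ a) (ha' : a ≤ 9 / 25) (hs : 4 / 5 ≤ s) (h1 : a ≤ 2 / 9 * s - 1)
    (hu : 0 ≤ u) : 6 / 5 + 2 * u ≤ (u + 1 / 3) * 2 -
      a * (Real.exp (u + 1 / 3) * Real.sin 2 - 2) - s * (Real.exp (u + 1 / 3) * Real.cos 2 - 1 - (u + 1 / 3)) := by
  have hsin : (9079 : ℝ) / 10000 ≤ Real.sin 2 := by
    have h := sin7_QSc (x := 2) (by norm_num)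
    refine le_trans ?_ h
    norm_num
  have hcos : Real.cos 2 ≤ -(4158 / 10000) := by
    have h := cos8_QSc (x := 2) (by norm_num)
    refine h.trans ?_
    norm_num
  have he : (1395 : ℝ) / 1000 ≤ Real.exp (u + 1 / 3) := by
    have h := ep3_QSc (t := 1 / 3) (by norm_num)
    have h2 : Real.exp (1 / 3) ≤ Real.exp (u + 1 / 3) := Real.exp_le_exp.2 (by linarith only [hu])
    refine le_trans ?_ (h.trans h2)
    norm_num
  obtain ⟨e, hee⟩ : ∃ e, e = Real.exp (u + 1 / 3) := ⟨_, rfl⟩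
  rw [← hee] at he ⊢
  have hec : e * Real.cos 2 ≤ e * (-(4158 / 10000)) := mul_le_mul_of_nonneg_left hcos (by linarith only [he])
  rcases le_total a 0 with h | h
  · have h2 : 1395 / 1000 * (9079 / 10000) ≤ e * Real.sin 2 :=
      mul_le_mul he hsin (by norm_num) (by linarith only [he])
    have h3 : a * (e * Real.sin 2 - 2) ≤ a * (-(7336 / 10000)) :=
      mul_le_mul_of_nonpos_left (by linarith only [h2]) h
    have h4 : s * (-(19133 / 10000)) ≥ s * (e * Real.cos 2 - 1 - (u + 1 / 3)) :=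
      mul_le_mul_of_nonneg_left (by linarith only [hu, he, hec]) (by linarith only [hs])
    linarith only [ha, hs, h3, h4]
  · have hs9 : 9 / 2 ≤ s := by linarith only [h1, h]
    have h2 : a * (e * Real.sin 2 - 2) ≤ a * e := by
      refine mul_le_mul_of_nonneg_left ?_ h
      have : e * Real.sin 2 ≤ e * 1 := mul_le_mul_of_nonneg_left (Real.sin_le_one 2) (by linarith only [he])
      linarith only [this]
    have h3 : a * e ≤ 9 / 25 * e := mul_le_mul_of_nonneg_right ha' (by linarith only [he])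
    have h4 : s * (e * Real.cos 2 - 1 - (u + 1 / 3)) ≤ s * (-(4158 / 10000 * e)) :=
      mul_le_mul_of_nonneg_left (by linarith only [hu, hec]) (by linarith only [hs9])
    have h5 : 9 / 2 * (4158 / 10000 * e) ≤ s * (4158 / 10000 * e) :=
      mul_le_mul_of_nonneg_right hs9 (by linarith only [he])
    linarith only [he, h2, h3, h4, h5]

end SokamQ

end

/-! ### Lib_MP_af4de1_q.QFar -/

section
/-!
# Left contour, `9/2 ≤ ρ ≤ 8`: the tail [FQ-5b]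
-/

set_option autoImplicit false

namespace SokamQ

private theorem far_einv {u c : ℝ} (hu : 0 ≤ u) (hc : 0 ≤ c)
    (h : 1 ≤ c * (1 + u + u ^ (2 : ℕ) / 2)) : Real.exp (-u) ≤ c := by
  have h1 := Real.quadratic_le_exp_of_nonneg hu
  have h2 : Real.exp (-u) * Real.exp u = 1 := by rw [← Real.exp_add]; simp
  have h3 : 1 ≤ c * Real.exp u := h.trans (mul_le_mul_of_nonneg_left h1 hc)
  calc Real.exp (-u) ≤ Real.exp (-u) * (c * Real.exp u) :=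
        le_mul_of_one_le_right (Real.exp_pos _).le h3
    _ = c * (Real.exp (-u) * Real.exp u) := by ring
    _ = c := by rw [h2, mul_one]

private theorem far_e2 : Real.exp (-(1 / 4)) ≤ 781 / 1000 :=
  far_einv (by norm_num) (by norm_num) (by norm_num)

private theorem far_e3 : Real.exp (-(Real.pi / 3)) ≤ 352 / 1000 := by
  have h1 := Real.exp_neg_one_lt_d9
  have h2 : Real.exp (-(47 / 1000 : ℝ)) ≤ 9542 / 10000 :=
    far_einv (by norm_num) (by norm_num) (by norm_num)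
  have h0 : Real.exp (-(Real.pi / 3)) ≤ Real.exp (-1 + -(47 / 1000)) := by
    apply Real.exp_le_exp.2
    have := Real.pi_gt_d4
    linarith
  rw [Real.exp_add] at h0
  have h4 := mul_le_mul h1.le h2 (Real.exp_pos _).le (by norm_num)
  exact h0.trans (h4.trans (by norm_num))

private theorem far_et {u : ℝ} (h0 : 0 ≤ u) (h1 : u ≤ 1) :
    Real.exp u ≤ 1 + u + 3 / 4 * u ^ (2 : ℕ) := by
  have h := Real.exp_bound' h0 h1 (n := 2) (by norm_num)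
  norm_num [Finset.sum_range_succ, Nat.factorial] at h
  linarith

private theorem far_cos {t : ℝ} (h0 : 0 ≤ t) (h1 : t ≤ 8 / 5) :
    Real.cos t ≤ 1 - 7 / 20 * t ^ (2 : ℕ) := by
  rcases h0.eq_or_lt with h | h
  · rw [← h]; norm_num
  · have h2 : t / 2 - (t / 2) ^ (3 : ℕ) / 6 < Real.sin (t / 2) :=
      Real.sin_gt_sub_cube (by positivity)
    have h3 : Real.cos t = 1 - 2 * Real.sin (t / 2) ^ (2 : ℕ) := by
      have := Real.cos_sq_add_sin_sq (t / 2)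
      have h4 := Real.cos_two_mul (t / 2)
      rw [show 2 * (t / 2) = t by ring] at h4
      rw [h4]
      linarith
    have h5 : 21 / 50 * t ≤ Real.sin (t / 2) := by
      linarith only [h, h2, mul_nonneg h.le (mul_nonneg (sub_nonneg.2 h1) (by linarith : (0:ℝ) ≤ 8 / 5 + t))]
    rw [h3]
    nlinarith only [h, h5]

private theorem far_cs {a s c x : ℝ} (hc : 0 ≤ c) (h : a ^ (2 : ℕ) + s ^ (2 : ℕ) ≤ c ^ (2 : ℕ)) :
    a * Real.sin x + s * Real.cos x ≤ c := by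
  have h1 : (a * Real.sin x + s * Real.cos x) ^ (2 : ℕ) ≤ c ^ (2 : ℕ) := by
    have := Real.sin_sq_add_cos_sq x
    have h2 : (a * Real.sin x + s * Real.cos x) ^ (2 : ℕ) =
        (a ^ (2 : ℕ) + s ^ (2 : ℕ)) * (Real.sin x ^ (2 : ℕ) + Real.cos x ^ (2 : ℕ)) -
          (a * Real.cos x - s * Real.sin x) ^ (2 : ℕ) := by ring
    rw [this] at h2
    nlinarith only [h, h2]
  exact (abs_le.1 (abs_le_of_sq_le_sq h1 hc)).2

/-- `3/2 ≤ x ≤ 47/10` -/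
private theorem far_lo {a s x : ℝ} (ha : 0 ≤ a) (hs : 0 ≤ s) (h0 : 3 / 2 ≤ x)
    (h1 : x ≤ 47 / 10) :
    x ^ (2 : ℕ) / 6 - (a + s / 6) * x + s - 781 / 1000 * (a + 71 / 1000 * s) ≤ fL a s x := by
  have hE : Real.exp (-(x / 6)) ≤ 781 / 1000 :=
    (Real.exp_le_exp.2 (by linarith)).trans far_e2
  have hE0 := Real.exp_pos (-(x / 6))
  have hp := Real.pi_gt_d4
  have hp' := Real.pi_lt_d4
  have hc : Real.cos x ≤ 71 / 1000 := by
    rcases le_total x (Real.pi / 2) with h | h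
    · rw [← Real.sin_pi_div_two_sub]
      exact (Real.sin_le (by linarith)).trans (by linarith)
    · exact (Real.cos_nonpos_of_pi_div_two_le_of_le h (by linarith)).trans (by norm_num)
  have hsn := Real.neg_one_le_sin x
  have h2 : s * Real.cos x - a * Real.sin x ≤ a + 71 / 1000 * s := by
    linarith only [mul_le_mul_of_nonneg_left hc hs, mul_le_mul_of_nonneg_left hsn ha]
  have h3 : Real.exp (-(x / 6)) * (s * Real.cos x - a * Real.sin x) ≤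
      781 / 1000 * (a + 71 / 1000 * s) :=
    (mul_le_mul_of_nonneg_left h2 hE0.le).trans
      (mul_le_mul_of_nonneg_right hE (by (clear * - ha hs; positivity)))
  unfold fL
  linarith

/-- `x ≥ 2π` -/
private theorem far_hi {a s c x : ℝ} (hc : 0 ≤ c) (h : a ^ (2 : ℕ) + s ^ (2 : ℕ) ≤ c ^ (2 : ℕ))
    (h0 : 2 * Real.pi ≤ x) :
    x ^ (2 : ℕ) / 6 - (a + s / 6) * x + s - 352 / 1000 * c ≤ fL a s x := by
  have hE : Real.exp (-(x / 6)) ≤ 352 / 1000 :=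
    (Real.exp_le_exp.2 (by linarith)).trans far_e3
  have hE0 := Real.exp_pos (-(x / 6))
  have h2 : s * Real.cos x - a * Real.sin x ≤ c := by
    have := far_cs (a := -a) (s := s) (x := x) hc (by rw [neg_sq]; exact h)
    linarith
  have h3 : Real.exp (-(x / 6)) * (s * Real.cos x - a * Real.sin x) ≤ 352 / 1000 * c :=
    (mul_le_mul_of_nonneg_left h2 hE0.le).trans (mul_le_mul_of_nonneg_right hE hc)
  unfold fL
  linarith

/-- `x = 2π - t`, `0 ≤ t ≤ 8/5` -/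
private theorem far_md {a s t : ℝ} (ha : 0 ≤ a) (hs : a ≤ s) (h0 : 0 ≤ t) (h1 : t ≤ 8 / 5) :
    (2 * Real.pi - t) ^ (2 : ℕ) / 6 - (a + s / 6) * (2 * Real.pi - t) + s -
      352 / 1000 * (s + (a + s / 6) * t + (a / 6 - 79 / 240 * s) * t ^ (2 : ℕ)) ≤
        fL a s (2 * Real.pi - t) := by
  have hE : Real.exp (-((2 * Real.pi - t) / 6)) =
      Real.exp (-(Real.pi / 3)) * Real.exp (t / 6) := by
    rw [← Real.exp_add]; congr 1; ring
  have hu := far_et (u := t / 6) (by (clear * - h0; positivity)) (by linarith)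
  have hc := far_cos h0 h1
  have hsn : Real.sin t ≤ t := Real.sin_le h0
  have hE0 := Real.exp_pos (-(Real.pi / 3))
  have hs0 : 0 ≤ s := ha.trans hs
  have h2 : a * Real.sin t + s * Real.cos t ≤ a * t + s * (1 - 7 / 20 * t ^ (2 : ℕ)) :=
    add_le_add (mul_le_mul_of_nonneg_left hsn ha) (mul_le_mul_of_nonneg_left hc hs0)
  have hW : 0 ≤ a * t + s * (1 - 7 / 20 * t ^ (2 : ℕ)) :=
    add_nonneg (mul_nonneg ha h0) (mul_nonneg hs0 (by nlinarith only [h0, h1]))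
  have h3 : Real.exp (t / 6) * (a * Real.sin t + s * Real.cos t) ≤
      (1 + t / 6 + 3 / 4 * (t / 6) ^ (2 : ℕ)) * (a * t + s * (1 - 7 / 20 * t ^ (2 : ℕ))) :=
    (mul_le_mul_of_nonneg_left h2 (Real.exp_pos _).le).trans
      (mul_le_mul_of_nonneg_right hu hW)
  have h4 : (1 + t / 6 + 3 / 4 * (t / 6) ^ (2 : ℕ)) * (a * t + s * (1 - 7 / 20 * t ^ (2 : ℕ))) ≤
      s + (a + s / 6) * t + (a / 6 - 79 / 240 * s) * t ^ (2 : ℕ) := by
    have e1 : (1 + t / 6 + 3 / 4 * (t / 6) ^ (2 : ℕ)) * (a * t + s * (1 - 7 / 20 * t ^ (2 : ℕ))) =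
      s + (a + s / 6) * t + (a / 6 - 79 / 240 * s) * t ^ (2 : ℕ) -
        t ^ (3 : ℕ) * (7 / 120 * s - a / 48) - 7 / 960 * (s * t ^ (4 : ℕ)) := by ring
    have e2 : 0 ≤ t ^ (3 : ℕ) * (7 / 120 * s - a / 48) := mul_nonneg (by (clear * - h0; positivity)) (by linarith)
    have e3 : 0 ≤ s * t ^ (4 : ℕ) := by (clear * - hs0; positivity)
    rw [e1]; linarith
  have h0' : 0 ≤ (1 + t / 6 + 3 / 4 * (t / 6) ^ (2 : ℕ)) * (a * t + s * (1 - 7 / 20 * t ^ (2 : ℕ))) :=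
    mul_nonneg (by (clear * - h0; positivity)) hW
  have h5 : Real.exp (-((2 * Real.pi - t) / 6)) * (a * Real.sin t + s * Real.cos t) ≤
      352 / 1000 * (s + (a + s / 6) * t + (a / 6 - 79 / 240 * s) * t ^ (2 : ℕ)) := by
    rw [hE, mul_assoc]
    exact (mul_le_mul_of_nonneg_left (h3.trans h4) hE0.le).trans
      (mul_le_mul_of_nonneg_right far_e3 (h0'.trans h4))
  unfold fL
  rw [Real.sin_two_pi_sub, Real.cos_two_pi_sub]
  linarith

private theorem far_v1 {x : ℝ} (hx : 3 / 2 ≤ x) :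
    11 / 10 + 1 / 2 * max (x - 63 / 10) 0 ≤ fL (-(37 / 45)) (4 / 5) x := by
  have hE : Real.exp (-(x / 6)) ≤ 781 / 1000 :=
    (Real.exp_le_exp.2 (by linarith)).trans far_e2
  have hE0 := Real.exp_pos (-(x / 6))
  have h2 := far_cs (a := 37 / 45) (s := 4 / 5) (c := 1148 / 1000) (x := x) (by norm_num)
    (by norm_num)
  have h3 : Real.exp (-(x / 6)) * (37 / 45 * Real.sin x + 4 / 5 * Real.cos x) ≤
      781 / 1000 * (1148 / 1000) :=
    (mul_le_mul_of_nonneg_left h2 hE0.le).trans (mul_le_mul_of_nonneg_right hE (by norm_num))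
  unfold fL
  rcases le_total (x - 63 / 10) 0 with h | h
  · rw [max_eq_right h]; nlinarith only [hx, h3]
  · rw [max_eq_left h]; nlinarith only [h3, h]

/-- `far_md` with a polynomial in `t` only -/
private theorem far_md' {a s t : ℝ} (ha : 0 ≤ a) (hs : a ≤ s) (hA : a + s / 6 ≤ 2)
    (h0 : 0 ≤ t) (h1 : t ≤ 8 / 5) :
    6283 ^ (2 : ℕ) / 6000000 - (a + s / 6) * (6283 / 1000 - t) - 20944 / 10000 * t + t ^ (2 : ℕ) / 6 + s -
      352 / 1000 * (s + (a + s / 6) * t + (a / 6 - 79 / 240 * s) * t ^ (2 : ℕ)) ≤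
        fL a s (2 * Real.pi - t) := by
  have hp := Real.pi_gt_d4
  have hp' := Real.pi_lt_d4
  have h := far_md ha hs h0 h1
  have k1 : 0 ≤ (2 * Real.pi - 6283 / 1000) *
      ((2 * Real.pi + 6283 / 1000) / 6 - (a + s / 6)) :=
    mul_nonneg (by linarith) (by linarith)
  have k2 : 0 ≤ (62832 / 10000 - 2 * Real.pi) * t := mul_nonneg (by linarith) h0
  linarith only [k1, k2, h]

private theorem far_v2 {x : ℝ} (hx : 3 / 2 ≤ x) :
    11 / 10 + 1 / 2 * max (x - 63 / 10) 0 ≤ fL (713 / 2000) (763 / 125) x := by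
  have hp := Real.pi_gt_d4
  have hp' := Real.pi_lt_d4
  rcases le_total x (47 / 10) with h | h
  · have := far_lo (a := 713 / 2000) (s := 763 / 125) (by norm_num) (by norm_num) hx h
    rw [max_eq_right (by linarith)]
    nlinarith only [h, this]
  rcases le_total (2 * Real.pi) x with h' | h'
  · have := far_hi (a := 713 / 2000) (s := 763 / 125) (c := 12229 / 2000) (by norm_num)
      (by norm_num) h'
    rcases le_total (x - 63 / 10) 0 with h | h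
    · rw [max_eq_right h]; nlinarith only [hp, h', this]
    · rw [max_eq_left h]; nlinarith only [this, h]
  · have := far_md' (a := 713 / 2000) (s := 763 / 125) (t := 2 * Real.pi - x) (by norm_num)
      (by norm_num) (by norm_num) (by linarith) (by linarith)
    rw [show 2 * Real.pi - (2 * Real.pi - x) = x by ring] at this
    rw [max_eq_right (by linarith)]
    refine le_trans ?_ this
    nlinarith only [sq_nonneg (2 * Real.pi - x - 1 / 2)]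

private theorem far_v3 {x : ℝ} (hx : 3 / 2 ≤ x) :
    11 / 10 + 1 / 2 * max (x - 63 / 10) 0 ≤ fL (2133 / 10000) (983 / 100) x := by
  have hp := Real.pi_gt_d4
  have hp' := Real.pi_lt_d4
  rcases le_total x (47 / 10) with h | h
  · have := far_lo (a := 2133 / 10000) (s := 983 / 100) (by norm_num) (by norm_num) hx h
    rw [max_eq_right (by linarith)]
    nlinarith only [h, this]
  rcases le_total (2 * Real.pi) x with h' | h'
  · have := far_hi (a := 2133 / 10000) (s := 983 / 100) (c := 98324 / 10000) (by norm_num)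
      (by norm_num) h'
    rcases le_total (x - 63 / 10) 0 with h | h
    · rw [max_eq_right h]; nlinarith only [hp, h', this]
    · rw [max_eq_left h]; nlinarith only [this, sq_nonneg (x - 63 / 10 - 3 / 4)]
  · have := far_md' (a := 2133 / 10000) (s := 983 / 100) (t := 2 * Real.pi - x) (by norm_num)
      (by norm_num) (by norm_num) (by linarith) (by linarith)
    rw [show 2 * Real.pi - (2 * Real.pi - x) = x by ring] at this
    rw [max_eq_right (by linarith)]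
    refine le_trans ?_ this
    nlinarith only [sq_nonneg (2 * Real.pi - x - 1 / 3)]

/-- `fL` is affine and decreasing in `a`; with `a ≤ 2/9 s - 1` and `a ≤ .5907 - .0384 s` it is at least the smaller of its values at the vertices
`(a,s) = (-37/45, 4/5)`, `V2 = (.3563, 6.104)`, `V3 = (.2133, 9.83)`.
`x ≥ 6.3`: `f ≥ x²/6 - (a + s/6) x + s - E √(a²+s²)`, `E ≤ e^(-1.05) ≤ .35`: at `V3`: `≥ 1.335 + .247 t + t²/6`, `t = x - 6.3`, and
`t²/6 - .253 t + .235 ≥ 0`.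
`3/2 ≤ x ≤ 3π/2`: `cos x ≤ .0708`, `E ≤ .7789`: `E(s cos x - a sin x) ≤ .71` (`V3`), `≤ .62` (`V2`); `x²/6 - (a + s/6) x + s - .. ≥ 2.6`.
`x = 2π - t`, `-.02 ≤ t ≤ 1.5708`: `E = e^(-π/3) e^(t/6)`, `e^(-π/3) ∈ [.3509, .3510]`, `e^(t/6) ≤ 1 + t/6 + .016 t²`, `1 - cos t ≥ .4 t²`:
`V3`: `f ≥ 1.32 - .915 t + 1.49 t² ≥ 1.17`; `V2`: `f ≥ 1.9 - 1.2405 t + .989 t² ≥ 1.5`.
Vertex `(-37/45, 4/5)`: `f ≥ x²/6 + .8 + .6889 x - 1.148 E ≥ 1.31`, increasing with slope `≥ 1/2`. -/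
theorem far_sc {a s x : ℝ} (hs : 4 / 5 ≤ s) (hs' : s ≤ 983 / 100) (h1 : a ≤ 2 / 9 * s - 1)
    (h2 : a + 24 / 625 * s ≤ 5907 / 10000) (hx : 3 / 2 ≤ x) :
    11 / 10 + 1 / 2 * max (x - 63 / 10) 0 ≤ fL a s x := by
  have v1 := far_v1 hx
  have v2 := far_v2 hx
  have v3 := far_v3 hx
  set m := 11 / 10 + 1 / 2 * max (x - 63 / 10) 0 with hm
  have hA : 0 ≤ x - Real.exp (-(x / 6)) * Real.sin x := by
    have e1 : Real.exp (-(x / 6)) ≤ 1 := Real.exp_le_one_iff.2 (by linarith)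
    have e2 := Real.sin_le_one x
    have e3 : Real.exp (-(x / 6)) * Real.sin x ≤ Real.exp (-(x / 6)) * 1 :=
      mul_le_mul_of_nonneg_left e2 (Real.exp_pos _).le
    linarith
  unfold fL at *
  generalize x - Real.exp (-(x / 6)) * Real.sin x = A at *
  generalize 1 - x / 6 - Real.exp (-(x / 6)) * Real.cos x = B at *
  generalize x ^ (2 : ℕ) / 6 = q at *
  clear hm
  rcases le_total s (763 / 125) with h | h
  · have k1 := mul_nonneg (sub_nonneg.2 h) (sub_nonneg.2 v1)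
    have k2 := mul_nonneg (sub_nonneg.2 hs) (sub_nonneg.2 v2)
    have k3 := mul_nonneg (sub_nonneg.2 h1) hA
    linarith only [k1, k2, k3, mul_nonneg (sub_nonneg.2 hs) hA]
  · have k1 := mul_nonneg (sub_nonneg.2 hs') (sub_nonneg.2 v2)
    have k2 := mul_nonneg (sub_nonneg.2 h) (sub_nonneg.2 v3)
    have k3 := mul_nonneg (sub_nonneg.2 h2) hA
    linarith only [k1, k2, k3, mul_nonneg (sub_nonneg.2 h) hA, mul_nonneg (sub_nonneg.2 hs') hA]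

end SokamQ

end
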