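import Mathlib.Algebra.Order.Floor.Semifield
import Mathlib.Algebra.Ring.IsFormallyReal
import Mathlib.RingTheory.PowerSeries.Inverse
import Mathlib.Data.Rat.Star
import Mathlib.Geometry.Euclidean.Angle.Unoriented.TriangleInequality
import Mathlib.Analysis.Convex.Contractible
import Mathlib.Analysis.Calculus.Deriv.Star
import Mathlib.MeasureTheory.Integral.Gamma
import Mathlib.Analysis.Complex.LocallyUniformLimit
import Mathlib.Topology.Separation.CompletelyRegular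
import Mathlib.RingTheory.Flat.TorsionFree
import Mathlib.MeasureTheory.Order.Group.Lattice
import Mathlib.Data.Int.Star
import Mathlib.LinearAlgebra.Lagrange
import Mathlib.Analysis.Complex.Angle
import Mathlib.Analysis.Complex.BorelCaratheodory
import Mathlib.Analysis.Complex.CoveringMap
import Mathlib.Topology.Homotopy.Lifting
import Mathlib.Analysis.Complex.ExponentialBounds
import Mathlib.Analysis.Complex.HasPrimitives
import Mathlib.NumberTheory.DiophantineApproximation.Basic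
import Mathlib.Analysis.Complex.OpenMapping
import Mathlib.Analysis.SpecialFunctions.Trigonometric.DerivHyp
import Mathlib.RingTheory.SimpleRing.Principal
import Mathlib.Order.CompletePartialOrder
import Mathlib.Analysis.SpecialFunctions.Complex.LogBounds
import Mathlib.Analysis.SpecialFunctions.Gamma.BohrMollerup
import Mathlib.Analysis.SpecialFunctions.Trigonometric.Series
import Mathlib.Topology.MetricSpace.Sequences
import Mathlib.Analysis.Normed.Group.Tannery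
import Mathlib.Analysis.ODE.Gronwall
import Mathlib.Analysis.Real.Pi.Bounds
import Mathlib.Analysis.SpecialFunctions.Gaussian.PoissonSummation
import Mathlib.Analysis.SpecialFunctions.Trigonometric.InverseDeriv
import Mathlib.RingTheory.TotallySplit
import Mathlib.RingTheory.Etale.Weakly
import Mathlib.Tactic

/-! ### Lib_MP_af4de1_v.Defs -/

section
/-!
# Full finiteness: definitions

`E_t(y) √(2πt) i = ∫ exp(Ph ζ H / t) dH` over a contour from `-1 - i∞` to `1 + i∞`, `ζ = t y e^{t/2}`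
(`Re t ≥ 0 ≥ Im t`, `t ≠ 0`).  With `1/t = u/|t|` the modulus of the integrand is `exp(Gh u ζ H/|t|)`.
Plan: `/team-store/sokV_plan.md`.
-/

namespace SokamV

open Complex Filter Topology

/-- The phase. -/
noncomputable def Ph (ζ H : ℂ) : ℂ := H ^ (2 : ℕ) / 2 + ζ * cexp H

/-- The height. -/
noncomputable def Gh (u ζ H : ℂ) : ℝ := (u * Ph ζ H).re

/-- The height with `cos` replaced by its positive part: convex in `X`. -/
noncomputable def Gp (u ζ : ℂ) (X T : ℝ) : ℝ :=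
  u.re * (X ^ (2 : ℕ) - T ^ (2 : ℕ)) / 2 - u.im * X * T + Real.exp X * max ((u * ζ * cexp (T * I)).re) 0

/-- `A`, `B` are connected in the set `g < c`. -/
def Conn (g : ℂ → ℝ) (c : ℝ) (A B : ℂ) : Prop :=
  ∃ U : Set ℂ, IsPreconnected U ∧ A ∈ U ∧ B ∈ U ∧ ∀ H ∈ U, g H < c

/-- `S` is a simple saddle point of `Re (u0 Ψ0)` at the height `c`; the segment from `S - v` to
`S + v` is a descent path. -/
structure Sad (u0 : ℂ) (Ψ0 : ℂ → ℂ) (c : ℝ) (S v : ℂ) : Prop where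
  crit : deriv Ψ0 S = 0
  height : (u0 * Ψ0 S).re = c
  desc : (u0 * deriv (deriv Ψ0) S * v ^ (2 : ℕ)).re < 0
  seg : ∀ s : ℝ, |s| ≤ 1 → s ≠ 0 → (u0 * Ψ0 (S + s * v)).re < c

/-- A contour from `A` to `B` below the height `c'` except for the passes over the saddle points in
the list `L`, which have the height `c`. -/
inductive Chain (u0 : ℂ) (Ψ0 : ℂ → ℂ) (c c' : ℝ) : ℂ → List ℂ → ℂ → Prop
  | nil {A B : ℂ} : Conn (fun H => (u0 * Ψ0 H).re) c' A B → Chain u0 Ψ0 c c' A [] B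
  | cons {A B S v : ℂ} {L : List ℂ} : Conn (fun H => (u0 * Ψ0 H).re) c' A (S - v) →
      Sad u0 Ψ0 c S v → Chain u0 Ψ0 c c' (S + v) L B → Chain u0 Ψ0 c c' A (S :: L) B

/-- The contour of `E_t` in the limit direction `u` at `ζ`: below the height `c` except for the
saddle points in the list `L`. -/
def Good (u ζ : ℂ) (c : ℝ) (L : List ℂ) : Prop :=
  ∃ c' < c, ∃ R0 : ℝ, ∀ R : ℝ, R0 ≤ R → Chain u (Ph ζ) c c' (-1 - R * I) L (1 + R * I)

/-- The convexified height has positive infimum on one horizontal line. -/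
def TopPos (u ζ : ℂ) : Prop := ∃ T ε : ℝ, 0 < ε ∧ ∀ X : ℝ, ε ≤ Gp u ζ X T

/-- A convergent family of integrands `w_n exp(u_n Ψ_n/τ_n)` with primitives. -/
structure Fam where
  Ψ : ℕ → ℂ → ℂ
  Ψ0 : ℂ → ℂ
  w : ℕ → ℂ → ℂ
  w0 : ℂ → ℂ
  u : ℕ → ℂ
  u0 : ℂ
  τ : ℕ → ℝ
  P : ℕ → ℂ → ℂ
  Q : ℕ → ℂ → ℂ
  hΨ : ∀ n, Differentiable ℂ (Ψ n)
  hw : ∀ n, Differentiable ℂ (w n)
  hΨlim : TendstoLocallyUniformly Ψ Ψ0 atTop
  hwlim : TendstoLocallyUniformly w w0 atTop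
  hulim : Tendsto u atTop (𝓝 u0)
  hτ : ∀ n, 0 < τ n
  hτlim : Tendsto τ atTop (𝓝 0)
  hP : ∀ n H, HasDerivAt (P n) (cexp (u n * Ψ n H / τ n)) H
  hQ : ∀ n H, HasDerivAt (Q n) (w n H * cexp (u n * Ψ n H / τ n)) H

end SokamV

end

/-! ### Lib_MP_af4de1_v.Conn -/

section
/-!
# Elementary facts on `Conn` and `Chain`
-/

namespace SokamV

open Complex Filter Topology

variable {g g' : ℂ → ℝ} {c c' : ℝ} {A B D : ℂ}

theorem Conn.symm (h : Conn g c A B) : Conn g c B A := by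
  obtain ⟨U, h1, h2, h3, h4⟩ := h
  exact ⟨U, h1, h3, h2, h4⟩

theorem Conn.trans (h : Conn g c A B) (h' : Conn g c B D) : Conn g c A D := by
  obtain ⟨U, h1, h2, h3, h4⟩ := h
  obtain ⟨V, k1, k2, k3, k4⟩ := h'
  refine ⟨U ∪ V, h1.union B h3 k2 k1, Or.inl h2, Or.inr k3, ?_⟩
  rintro H (hH | hH)
  · exact h4 H hH
  · exact k4 H hH

theorem Conn.mono (h : Conn g c A B) (hc : c ≤ c') : Conn g c' A B := by
  obtain ⟨U, h1, h2, h3, h4⟩ := h
  exact ⟨U, h1, h2, h3, fun H hH => (h4 H hH).trans_le hc⟩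

theorem Conn.of_le (h : Conn g c A B) (hg : ∀ H, g' H ≤ g H) : Conn g' c A B := by
  obtain ⟨U, h1, h2, h3, h4⟩ := h
  exact ⟨U, h1, h2, h3, fun H hH => (hg H).trans_lt (h4 H hH)⟩

theorem Conn.refl (h : g A < c) : Conn g c A A :=
  ⟨{A}, isPreconnected_singleton, rfl, rfl, by rintro H rfl; exact h⟩

/-- Along a segment. -/
theorem Conn.segment (h : ∀ s : ℝ, 0 ≤ s → s ≤ 1 → g (A + s * (B - A)) < c) : Conn g c A B := by
  refine ⟨(fun s : ℝ => A + s * (B - A)) '' Set.Icc 0 1, ?_, ⟨0, by simp, by simp⟩,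
    ⟨1, by simp, by simp⟩, ?_⟩
  · refine isPreconnected_Icc.image _ (Continuous.continuousOn ?_)
    fun_prop
  · rintro H ⟨s, hs, rfl⟩
    exact h s hs.1 hs.2

theorem Conn.left (h : Conn g c A B) : g A < c := by
  obtain ⟨U, _, h2, _, h4⟩ := h
  exact h4 A h2

theorem Conn.right (h : Conn g c A B) : g B < c := by
  obtain ⟨U, _, _, h3, h4⟩ := h
  exact h4 B h3

/-- In a small ball. -/
theorem Conn.ball {ρ : ℝ} (h : ∀ H ∈ Metric.ball D ρ, g H < c) (hA : A ∈ Metric.ball D ρ)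
    (hB : B ∈ Metric.ball D ρ) : Conn g c A B :=
  ⟨Metric.ball D ρ, (convex_ball D ρ).isPreconnected, hA, hB, h⟩

variable {u0 : ℂ} {Ψ0 : ℂ → ℂ} {c1 : ℝ} {L L' : List ℂ}

theorem Chain.mono (h : Chain u0 Ψ0 c c' A L B) (hc : c' ≤ c1) : Chain u0 Ψ0 c c1 A L B := by
  induction h with
  | nil h => exact Chain.nil (h.mono hc)
  | cons h1 h2 _ ih => exact Chain.cons (h1.mono hc) h2 ih

theorem Chain.conn_trans (h : Chain u0 Ψ0 c c' B L D)
    (h' : Conn (fun H => (u0 * Ψ0 H).re) c' A B) : Chain u0 Ψ0 c c' A L D := by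
  cases h with
  | nil h => exact Chain.nil (h'.trans h)
  | cons h1 h2 h3 => exact Chain.cons (h'.trans h1) h2 h3

theorem Chain.trans_conn (h : Chain u0 Ψ0 c c' A L B)
    (h' : Conn (fun H => (u0 * Ψ0 H).re) c' B D) : Chain u0 Ψ0 c c' A L D := by
  induction h with
  | nil h => exact Chain.nil (h.trans h')
  | cons h1 h2 _ ih => exact Chain.cons h1 h2 (ih h')

theorem Chain.append (h : Chain u0 Ψ0 c c' A L B) (h' : Chain u0 Ψ0 c c' B L' D) :
    Chain u0 Ψ0 c c' A (L ++ L') D := by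
  induction h with
  | nil h => exact h'.conn_trans h
  | cons h1 h2 _ ih => exact Chain.cons h1 h2 (ih h')

end SokamV

end

/-! ### Lib_MP_af4de1_in.Enum -/

section
/-!
# Sorted enumeration of a discrete set with distinct moduli [IN-EN]

`Z` infinite, finitely many points in every closed ball, distinct moduli.  The image of `Z` under the norm is an infinite set of reals with finitely many points in
`(-∞, R]`; recursion: `z 0` the point of least modulus, `z (n+1)` the point of least modulus among those of modulus `> ‖z n‖` (it exists: infinite minus finite, minimum of a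
nonempty finite set `{w ∈ Z | ‖z n‖ < ‖w‖ ≤ ‖w0‖}`).  A point which is never reached would have infinitely many `z n` below it.
-/

set_option autoImplicit false

namespace SokamIn

open Filter Topology

/-- the next point -/
private theorem enum_next {Z : Set ℂ} (hfin : ∀ R : ℝ, (Z ∩ Metric.closedBall 0 R).Finite)
    (hinf : Z.Infinite) (R : ℝ) :
    ∃ w ∈ Z, R < ‖w‖ ∧ ∀ v ∈ Z, R < ‖v‖ → ‖w‖ ≤ ‖v‖ := by
  obtain ⟨w0, hw0, hw0R⟩ := hinf.exists_notMem_finite (hfin R)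
  have hR : R < ‖w0‖ := by
    by_contra h
    push Not at h
    exact hw0R ⟨hw0, mem_closedBall_zero_iff.2 h⟩
  have hS : ({w ∈ Z | R < ‖w‖ ∧ ‖w‖ ≤ ‖w0‖} : Set ℂ).Finite :=
    (hfin ‖w0‖).subset fun w hw => ⟨hw.1, mem_closedBall_zero_iff.2 hw.2.2⟩
  obtain ⟨w, hw, hmin⟩ := Set.exists_min_image _ (fun w : ℂ => ‖w‖) hS ⟨w0, hw0, hR, le_rfl⟩
  refine ⟨w, hw.1, hw.2.1, fun v hv hRv => ?_⟩
  by_cases h : ‖v‖ ≤ ‖w0‖
  · exact hmin v ⟨hv, hRv, h⟩
  · push Not at h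
    exact hw.2.2.trans h.le

/-- sorted enumeration -/
theorem exists_enum {Z : Set ℂ} (hfin : ∀ R : ℝ, (Z ∩ Metric.closedBall 0 R).Finite)
    (hinj : ∀ z ∈ Z, ∀ w ∈ Z, ‖z‖ = ‖w‖ → z = w) (hinf : Z.Infinite) :
    ∃ z : ℕ → ℂ, (∀ i, z i ∈ Z) ∧ StrictMono (fun i => ‖z i‖) ∧ (∀ w ∈ Z, ∃ i, w = z i) ∧
      Tendsto (fun i => ‖z i‖) atTop atTop := by
  choose nx h1 h2 h3 using enum_next hfin hinf
  let z : ℕ → ℂ := fun i => Nat.rec (nx (-1)) (fun _ w => nx ‖w‖) i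
  have hz0 : z 0 = nx (-1) := rfl
  have hzs : ∀ i, z (i + 1) = nx ‖z i‖ := fun i => rfl
  have hmem : ∀ i, z i ∈ Z := by
    intro i
    cases i with
    | zero => exact h1 _
    | succ i => exact h1 _
  have hmono : StrictMono (fun i => ‖z i‖) := by
    refine strictMono_nat_of_lt_succ fun i => ?_
    rw [hzs]
    exact h2 _
  have hinjz : Function.Injective z := fun i j h => hmono.injective (congrArg norm h)
  -- not all `z i` are in a ball
  have hunb : ∀ R : ℝ, ∃ i, R < ‖z i‖ := by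
    intro R
    by_contra h
    push Not at h
    exact (Set.infinite_range_of_injective hinjz)
      ((hfin R).subset (by
        rintro _ ⟨i, rfl⟩
        exact ⟨hmem i, mem_closedBall_zero_iff.2 (h i)⟩))
  refine ⟨z, hmem, hmono, fun w hw => ?_, ?_⟩
  · by_contra h
    push Not at h
    have hlt : ∀ i, ‖z i‖ < ‖w‖ := by
      intro i
      refine lt_of_le_of_ne ?_ fun h4 => h i (hinj _ hw _ (hmem i) h4.symm)
      induction i with
      | zero =>
        rw [hz0]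
        exact h3 _ w hw (by linarith [norm_nonneg w])
      | succ i ih =>
        rw [hzs]
        exact h3 _ w hw (lt_of_le_of_ne ih fun h4 => h i (hinj _ hw _ (hmem i) h4.symm))
    obtain ⟨i, hi⟩ := hunb ‖w‖
    exact lt_asymm hi (hlt i)
  · refine tendsto_atTop_atTop.2 fun b => ?_
    obtain ⟨i, hi⟩ := hunb b
    exact ⟨i, fun j hij => hi.le.trans (hmono.monotone hij)⟩

end SokamIn

end

/-! ### Lib_MP_af4de1_v.FamRel -/

section
/-!
# Connected points have exponentially comparable primitives [SV-REL]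

`Ψ0`, `w0` are continuous (locally uniform limits).  Let `g H = Re (u0 Ψ0 H)`.  LOCAL STEP: if `g A < c`, there is a
closed ball `K` around `A` with `g < c` on `K`; `K` is compact, so `max_K g < c`, `u_n Ψ_n → u0 Ψ0` uniformly on `K`,
`‖w_n‖ ≤ M` on `K` for large `n`: eventually `‖exp(u_n Ψ_n/τ_n)‖ ≤ exp(c/τ_n)` on `K`, and for `B ∈ K` the mean value
inequality on the segment gives `‖P_n B - P_n A‖ ≤ ‖B - A‖ exp(c/τ_n)`, `‖Q_n B - Q_n A‖ ≤ M ‖B - A‖ exp(c/τ_n)`.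
The relation `∃ C, ∀ᶠ n, …` is symmetric and transitive; `IsPreconnected.induction₂` on the set `U` of `Conn`.
-/

namespace SokamV

open Complex Filter Topology

private theorem FamRel_unif {f : ℕ → ℂ → ℂ} {f0 : ℂ → ℂ} (h : TendstoLocallyUniformly f f0 atTop)
    {K : Set ℂ} (hK : IsCompact K) {ε : ℝ} (hε : 0 < ε) :
    ∀ᶠ n in atTop, ∀ H ∈ K, ‖f n H - f0 H‖ < ε := by
  have h1 := (tendstoLocallyUniformlyOn_iff_tendstoUniformlyOn_of_compact hK).1
    (h.tendstoLocallyUniformlyOn (s := K))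
  have h2 := Metric.tendstoUniformlyOn_iff.1 h1 ε hε
  filter_upwards [h2] with n hn H hH
  rw [← dist_eq_norm, dist_comm]
  exact hn H hH

private theorem FamRel_bd {f : ℂ → ℂ} (hf : Continuous f) {K : Set ℂ} (hK : IsCompact K) :
    ∃ M : ℝ, 0 ≤ M ∧ ∀ H ∈ K, ‖f H‖ ≤ M := by
  obtain ⟨M, hM⟩ := hK.exists_bound_of_continuousOn hf.continuousOn
  exact ⟨max M 0, le_max_right _ _, fun H hH => (hM H hH).trans (le_max_left _ _)⟩

private theorem FamRel_prod (F : Fam) {K : Set ℂ} (hK : IsCompact K) {ε : ℝ} (hε : 0 < ε) :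
    ∀ᶠ n in atTop, ∀ H ∈ K, ‖F.u n * F.Ψ n H - F.u0 * F.Ψ0 H‖ ≤ ε := by
  have hc : Continuous F.Ψ0 :=
    F.hΨlim.continuous (Frequently.of_forall fun n => (F.hΨ n).continuous)
  obtain ⟨M, hM0, hM⟩ := FamRel_bd hc hK
  have hu0 : 0 < ‖F.u0‖ + 1 := by positivity
  have hM1 : 0 < M + 1 := by positivity
  have e1 : ∀ᶠ n in atTop, ‖F.u n‖ < ‖F.u0‖ + 1 :=
    (F.hulim.norm).eventually_lt_const (by linarith)
  have e2 : ∀ᶠ n in atTop, ‖F.u n - F.u0‖ < ε / (2 * (M + 1)) := by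
    have h1 : Tendsto (fun n => ‖F.u n - F.u0‖) atTop (𝓝 0) := by
      have := (F.hulim.sub_const F.u0).norm
      simpa using this
    exact h1.eventually_lt_const (by positivity)
  have e3 := FamRel_unif F.hΨlim hK (ε := ε / (2 * (‖F.u0‖ + 1))) (by positivity)
  filter_upwards [e1, e2, e3] with n h1 h2 h3 H hH
  have h4 : F.u n * F.Ψ n H - F.u0 * F.Ψ0 H
      = F.u n * (F.Ψ n H - F.Ψ0 H) + (F.u n - F.u0) * F.Ψ0 H := by ring
  rw [h4]
  have h5 : ‖F.u n * (F.Ψ n H - F.Ψ0 H)‖ ≤ (‖F.u0‖ + 1) * (ε / (2 * (‖F.u0‖ + 1))) := by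
    rw [norm_mul]
    exact mul_le_mul h1.le (h3 H hH).le (norm_nonneg _) hu0.le
  have h6 : ‖(F.u n - F.u0) * F.Ψ0 H‖ ≤ (ε / (2 * (M + 1))) * (M + 1) := by
    rw [norm_mul]
    exact mul_le_mul h2.le ((hM H hH).trans (by linarith)) (norm_nonneg _) (by positivity)
  have h7 : (‖F.u0‖ + 1) * (ε / (2 * (‖F.u0‖ + 1))) = ε / 2 := by field_simp
  have h8 : (ε / (2 * (M + 1))) * (M + 1) = ε / 2 := by field_simp
  rw [h7] at h5
  rw [h8] at h6
  calc _ ≤ _ := norm_add_le _ _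
    _ ≤ ε / 2 + ε / 2 := add_le_add h5 h6
    _ = ε := by ring

private theorem FamRel_loc (F : Fam) {c : ℝ} {A : ℂ} (hA : (F.u0 * F.Ψ0 A).re < c) :
    ∀ᶠ B in 𝓝 A, ∃ C : ℝ, ∀ᶠ n in atTop, ‖F.P n B - F.P n A‖ ≤ C * Real.exp (c / F.τ n) ∧
      ‖F.Q n B - F.Q n A‖ ≤ C * Real.exp (c / F.τ n) := by
  have hc : Continuous F.Ψ0 :=
    F.hΨlim.continuous (Frequently.of_forall fun n => (F.hΨ n).continuous)
  have hcw : Continuous F.w0 :=
    F.hwlim.continuous (Frequently.of_forall fun n => (F.hw n).continuous)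
  have hg : Continuous fun H => (F.u0 * F.Ψ0 H).re := by fun_prop
  obtain ⟨m, hm1, hm2⟩ := exists_between hA
  have h1 : ∀ᶠ H in 𝓝 A, (F.u0 * F.Ψ0 H).re < m := hg.continuousAt.eventually_lt_const hm1
  obtain ⟨r, hr, hr'⟩ := Metric.nhds_basis_closedBall.eventually_iff.1 h1
  have hK : IsCompact (Metric.closedBall A r) := isCompact_closedBall A r
  obtain ⟨M, hM0, hM⟩ := FamRel_bd hcw hK
  have e1 := FamRel_prod F hK (ε := c - m) (by linarith)
  have e2 := FamRel_unif F.hwlim hK (ε := 1) one_pos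
  filter_upwards [Metric.closedBall_mem_nhds A hr] with B hB
  refine ⟨(M + 1) * ‖B - A‖ + ‖B - A‖, ?_⟩
  filter_upwards [e1, e2] with n h1 h2
  have hτ := F.hτ n
  have hexp : ∀ H ∈ Metric.closedBall A r, ‖cexp (F.u n * F.Ψ n H / F.τ n)‖ ≤ Real.exp (c / F.τ n) := by
    intro H hH
    rw [Complex.norm_exp, Complex.div_ofReal_re]
    refine Real.exp_le_exp.2 (div_le_div_of_nonneg_right ?_ hτ.le)
    have h3 := (Complex.abs_re_le_norm _).trans (h1 H hH)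
    rw [Complex.sub_re] at h3
    have h4 := (le_abs_self _).trans h3
    have h5 := hr' hH
    linarith
  have hw : ∀ H ∈ Metric.closedBall A r, ‖F.w n H‖ ≤ M + 1 := by
    intro H hH
    have h3 := h2 H hH
    have h4 := hM H hH
    have h5 : F.w n H = (F.w n H - F.w0 H) + F.w0 H := by ring
    rw [h5]
    exact (norm_add_le _ _).trans (by linarith)
  have hE : 0 < Real.exp (c / F.τ n) := Real.exp_pos _
  have hAm : A ∈ Metric.closedBall A r := Metric.mem_closedBall_self hr.le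
  have hP := (convex_closedBall A r).norm_image_sub_le_of_norm_hasDerivWithin_le
    (f := F.P n) (f' := fun H => cexp (F.u n * F.Ψ n H / F.τ n))
    (fun H _ => (F.hP n H).hasDerivWithinAt) hexp hAm hB
  have hQ := (convex_closedBall A r).norm_image_sub_le_of_norm_hasDerivWithin_le
    (f := F.Q n) (f' := fun H => F.w n H * cexp (F.u n * F.Ψ n H / F.τ n))
    (C := (M + 1) * Real.exp (c / F.τ n))
    (fun H _ => (F.hQ n H).hasDerivWithinAt) (fun H hH => by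
      rw [norm_mul]
      exact mul_le_mul (hw H hH) (hexp H hH) (norm_nonneg _) (by positivity)) hAm hB
  have hn : 0 ≤ ‖B - A‖ := norm_nonneg _
  constructor
  · refine hP.trans ?_
    have : 0 ≤ (M + 1) * ‖B - A‖ * Real.exp (c / F.τ n) := by positivity
    nlinarith
  · refine hQ.trans ?_
    have : 0 ≤ ‖B - A‖ * Real.exp (c / F.τ n) := by positivity
    nlinarith

theorem Fam.rel (F : Fam) {c : ℝ} {A B : ℂ} (h : Conn (fun H => (F.u0 * F.Ψ0 H).re) c A B) :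
    ∃ C : ℝ, ∀ᶠ n in atTop, ‖F.P n B - F.P n A‖ ≤ C * Real.exp (c / F.τ n) ∧
      ‖F.Q n B - F.Q n A‖ ≤ C * Real.exp (c / F.τ n) := by
  obtain ⟨U, hU, hA, hB, hc⟩ := h
  refine hU.induction₂ (fun A B => ∃ C : ℝ, ∀ᶠ n in atTop,
    ‖F.P n B - F.P n A‖ ≤ C * Real.exp (c / F.τ n) ∧
      ‖F.Q n B - F.Q n A‖ ≤ C * Real.exp (c / F.τ n)) ?_ ?_ ?_ hA hB
  · intro x hx
    exact (FamRel_loc F (hc x hx)).filter_mono nhdsWithin_le_nhds
  · rintro x y z _ _ _ ⟨C, hC⟩ ⟨D, hD⟩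
    refine ⟨C + D, ?_⟩
    filter_upwards [hC, hD] with n h1 h2
    constructor
    · have h3 : F.P n z - F.P n x = (F.P n z - F.P n y) + (F.P n y - F.P n x) := by ring
      rw [h3, add_mul]
      exact (norm_add_le _ _).trans (by linarith [h1.1, h2.1])
    · have h3 : F.Q n z - F.Q n x = (F.Q n z - F.Q n y) + (F.Q n y - F.Q n x) := by ring
      rw [h3, add_mul]
      exact (norm_add_le _ _).trans (by linarith [h1.2, h2.2])
  · rintro x y _ _ ⟨C, hC⟩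
    refine ⟨C, ?_⟩
    filter_upwards [hC] with n h1
    rw [norm_sub_rev (F.P n x), norm_sub_rev (F.Q n x)]
    exact h1

end SokamV

end

/-! ### Lib_MP_af4de1_v.Crit -/

section
/-!
# Perturbed saddle points [SV-CRIT]

First and second derivatives converge locally uniformly (`TendstoLocallyUniformlyOn.deriv`).  `Ψ0''(S) ≠ 0`, so `Ψ0'` has no zero
on a punctured ball around `S`; on its boundary circle `|Ψ_n' - Ψ_n'(S)|` is bounded below for large `n`, `Ψ_n'(S) → 0`, so the open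
mapping estimate `DiffContOnCl.ball_subset_image_closedBall` gives a zero of `Ψ_n'` in the ball.  `S_n` is a nearest zero.
-/

namespace SokamV

open Complex Filter Topology

private lemma crit_near (f : ℕ → ℂ → ℂ) (f0 : ℂ → ℂ) (hf : ∀ n, Differentiable ℂ (f n))
    (hf0 : Differentiable ℂ f0) (hlim : TendstoLocallyUniformly f f0 atTop) {S : ℂ} (h1 : f0 S = 0)
    (h2 : deriv f0 S ≠ 0) {ε : ℝ} (hε : 0 < ε) :
    ∀ᶠ n in atTop, ∃ z ∈ Metric.closedBall S ε, f n z = 0 := by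
  have hne : ∀ᶠ z in 𝓝[≠] S, f0 z ≠ 0 := (hf0 S).hasDerivAt.eventually_ne h2
  rw [eventually_nhdsWithin_iff, Metric.eventually_nhds_iff] at hne
  obtain ⟨δ, hδ, hne⟩ := hne
  -- the radius
  set r : ℝ := min ε (δ / 2) with hr
  have hr0 : 0 < r := lt_min hε (by linarith)
  have hrδ : r < δ := (min_le_right _ _).trans_lt (by linarith)
  have hsph : ∀ z ∈ Metric.sphere S r, 0 < ‖f0 z‖ := by
    intro z hz
    have hz' : dist z S = r := hz
    refine norm_pos_iff.2 (hne (by rw [hz']; exact hrδ) ?_)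
    intro h
    rw [Set.mem_singleton_iff] at h
    rw [h, dist_self] at hz'
    exact hr0.ne hz'
  have hcpt : IsCompact (Metric.sphere S r) := isCompact_sphere S r
  have hnes : (Metric.sphere S r).Nonempty := (NormedSpace.sphere_nonempty).2 hr0.le
  obtain ⟨z0, hz0, hmin⟩ := hcpt.exists_isMinOn hnes (hf0.continuous.norm.continuousOn)
  set m : ℝ := ‖f0 z0‖ with hm
  have hm0 : 0 < m := hsph z0 hz0
  have hlow : ∀ z ∈ Metric.sphere S r, m ≤ ‖f0 z‖ := fun z hz => hmin hz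
  -- uniform convergence on the closed ball
  have hunif : TendstoUniformlyOn f f0 atTop (Metric.closedBall S r) :=
    (tendstoLocallyUniformlyOn_iff_tendstoUniformlyOn_of_compact (isCompact_closedBall S r)).1
      hlim.tendstoLocallyUniformlyOn
  rw [Metric.tendstoUniformlyOn_iff] at hunif
  filter_upwards [hunif (m / 8) (by linarith)] with n hn
  have hS : ‖f n S‖ < m / 8 := by
    have := hn S (Metric.mem_closedBall_self hr0.le)
    rwa [h1, dist_zero_left] at this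
  have hbd : ∀ z ∈ Metric.sphere S r, m / 2 ≤ ‖f n z - f n S‖ := by
    intro z hz
    have a1 := hn z (Metric.sphere_subset_closedBall hz)
    have a2 := hlow z hz
    rw [dist_eq_norm] at a1
    have a3 : ‖f0 z‖ ≤ ‖f0 z - f n z‖ + ‖f n z - f n S‖ + ‖f n S‖ := by
      calc ‖f0 z‖ = ‖(f0 z - f n z) + (f n z - f n S) + f n S‖ := by congr 1; ring
        _ ≤ _ := norm_add₃_le
    linarith
  have hfreq : ∃ᶠ z in 𝓝 S, f n z ≠ f n S := by
    intro h
    have h' : f n =ᶠ[𝓝 S] fun _ => f n S := by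
      filter_upwards [h] with z hz
      exact not_not.1 hz
    have hA : AnalyticOnNhd ℂ (f n) Set.univ := (hf n).differentiableOn.analyticOnNhd isOpen_univ
    have hE := hA.eqOn_of_preconnected_of_eventuallyEq (analyticOnNhd_const) isPreconnected_univ
      (Set.mem_univ S) h'
    have h3 := hbd z0 hz0
    have h4 : f n z0 = f n S := hE (Set.mem_univ z0)
    rw [h4, sub_self, norm_zero] at h3
    linarith
  have hsub := (hf n).diffContOnCl.ball_subset_image_closedBall hr0 hbd hfreq (a := 0) (by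
    rw [Metric.mem_ball, dist_zero_left]
    linarith)
  obtain ⟨z, hz, hz'⟩ := hsub
  exact ⟨z, Metric.closedBall_subset_closedBall (min_le_left _ _) hz, hz'⟩

private lemma crit_seq (f : ℕ → ℂ → ℂ) (hf : ∀ n, Differentiable ℂ (f n)) {S : ℂ}
    (h : ∀ ε : ℝ, 0 < ε → ∀ᶠ n in atTop, ∃ z ∈ Metric.closedBall S ε, f n z = 0) :
    ∃ Sn : ℕ → ℂ, Tendsto Sn atTop (𝓝 S) ∧ ∀ᶠ n in atTop, f n (Sn n) = 0 := by
  classical
  have hcl : ∀ n, IsClosed {z | f n z = 0} := fun n =>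
    isClosed_eq (hf n).continuous continuous_const
  have hex : ∀ n, ∃ w : ℂ, ∀ z, f n z = 0 → f n w = 0 ∧ dist w S ≤ dist z S := by
    intro n
    by_cases hne : ({z | f n z = 0} : Set ℂ).Nonempty
    · obtain ⟨y, hy, hyd⟩ := (hcl n).exists_infDist_eq_dist hne S
      refine ⟨y, fun z hz => ⟨hy, ?_⟩⟩
      rw [dist_comm y, ← hyd, dist_comm z]
      exact Metric.infDist_le_dist_of_mem hz
    · exact ⟨S, fun z hz => (hne ⟨z, hz⟩).elim⟩
  choose Sn hSn using hex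
  refine ⟨Sn, ?_, ?_⟩
  · rw [Metric.tendsto_nhds]
    intro ε hε
    filter_upwards [h (ε / 2) (by linarith)] with n hn
    obtain ⟨z, hz, hz0⟩ := hn
    have h1 := (hSn n z hz0).2
    have h2 : dist z S ≤ ε / 2 := hz
    linarith
  · filter_upwards [h 1 one_pos] with n hn
    obtain ⟨z, _, hz0⟩ := hn
    exact (hSn n z hz0).1

theorem Fam.exists_crit (F : Fam) {S : ℂ} (h1 : deriv F.Ψ0 S = 0) (h2 : deriv (deriv F.Ψ0) S ≠ 0) :
    ∃ Sn : ℕ → ℂ, Tendsto Sn atTop (𝓝 S) ∧ ∀ᶠ n in atTop, deriv (F.Ψ n) (Sn n) = 0 := by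
  have hΨ : TendstoLocallyUniformlyOn F.Ψ F.Ψ0 atTop Set.univ :=
    tendstoLocallyUniformlyOn_univ.2 F.hΨlim
  have hev : ∀ᶠ n in atTop, DifferentiableOn ℂ (F.Ψ n) Set.univ :=
    Eventually.of_forall fun n => (F.hΨ n).differentiableOn
  have hd0 : Differentiable ℂ F.Ψ0 :=
    differentiableOn_univ.1 (hΨ.differentiableOn hev isOpen_univ)
  have hder : TendstoLocallyUniformly (fun n => deriv (F.Ψ n)) (deriv F.Ψ0) atTop :=
    tendstoLocallyUniformlyOn_univ.1 (hΨ.deriv hev isOpen_univ)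
  have hdd : ∀ n, Differentiable ℂ (deriv (F.Ψ n)) := fun n =>
    ((F.hΨ n).contDiff (n := 2)).differentiable_deriv_two
  have hdd0 : Differentiable ℂ (deriv F.Ψ0) := (hd0.contDiff (n := 2)).differentiable_deriv_two
  exact crit_seq _ hdd fun ε hε => crit_near _ _ hdd hdd0 hder h1 h2 hε

end SokamV

end

/-! ### Lib_MP_af4de1_v.Laplace -/

section
/-!
# Laplace's method at a simple saddle point [SV-LAP]

`P_n(S_n+v) - P_n(S_n-v) = ∫_{-1}^1 v exp(u_n Ψ_n(S_n+sv)/τ_n) ds` (derivative of `s ↦ P_n(S_n+sv)`).  Let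
`D_n(s) = u_n (Ψ_n(S_n+sv) - Ψ_n(S_n))`.  CLAIM: there is `κ > 0` with `Re D_n(s) ≤ -κ s²` for `|s| ≤ 1`, `n` large.
Near `0`: `Ψ_n'(S_n) = 0`, so `D_n(s) = s² u_n v² ∫_0^1 (1-θ) Ψ_n''(S_n+θsv) dθ`, the factor of `s²` tends uniformly to
`u0 v² ∫ (1-θ) Ψ0''(S+θsv) dθ`, whose value at `s = 0` has negative real part (`desc`): fine for `|s| ≤ δ0`.  For
`δ0 ≤ |s| ≤ 1`: `Re D_n(s) → Re D_0(s) = Re u0Ψ0(S+sv) - c < 0` uniformly (`seg`, compactness).
Substitute `s = √τ_n σ`: the quotient in the statement is `v ∫_{|σ| ≤ 1/√τ_n} exp(D_n(√τ_n σ)/τ_n) dσ`, the integrand is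
`≤ exp(-κσ²)` and tends to `exp(u0 Ψ0''(S) v² σ²/2)`: dominated convergence;
`c0 = v ∫_ℝ exp(u0 Ψ0''(S) v² σ²/2) dσ ≠ 0` (`integral_gaussian_complex`).  Second statement: the same with the bounded factor
`w_n(S_n+√τ_n σ v) - w0 S → 0`.
-/

namespace SokamV

open Complex Filter Topology

/-- A third order Taylor bound. -/
private lemma taylor2 {f : ℂ → ℂ} (hf : Differentiable ℂ f) {a z : ℂ} {M : ℝ}
    (h0 : deriv f a = 0)
    (hM : ∀ y, ‖y - a‖ ≤ ‖z‖ → ‖deriv (deriv (deriv f)) y‖ ≤ M) :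
    ‖f (a + z) - f a - deriv (deriv f) a * z ^ (2 : ℕ) / 2‖ ≤ M * ‖z‖ ^ (3 : ℕ) := by
  set B := Metric.closedBall a ‖z‖ with hB
  have hconv : Convex ℝ B := convex_closedBall _ _
  have ha : a ∈ B := Metric.mem_closedBall_self (norm_nonneg z)
  have hmem : ∀ y, y ∈ B ↔ ‖y - a‖ ≤ ‖z‖ := fun y => mem_closedBall_iff_norm
  have hM0 : 0 ≤ M := (norm_nonneg _).trans (hM a (by simp))
  have h2 : ∀ y ∈ B, ‖deriv (deriv f) y - deriv (deriv f) a‖ ≤ M * ‖z‖ := by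
    intro y hy
    have h3 := hconv.norm_image_sub_le_of_norm_deriv_le (f := deriv (deriv f))
      (fun x _ => hf.deriv.deriv x) (fun x hx => hM x ((hmem x).1 hx)) ha hy
    exact h3.trans (mul_le_mul_of_nonneg_left ((hmem y).1 hy) hM0)
  have h1 : ∀ y ∈ B, ‖deriv f y - deriv (deriv f) a * (y - a)‖ ≤ M * ‖z‖ * ‖z‖ := by
    intro y hy
    have hd : ∀ x ∈ B, HasDerivWithinAt (fun x => deriv f x - deriv (deriv f) a * (x - a))
        (deriv (deriv f) x - deriv (deriv f) a) B x := by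
      intro x _
      have h3 := (hf.deriv x).hasDerivAt
      have h4 : HasDerivAt (fun x => deriv (deriv f) a * (x - a)) (deriv (deriv f) a) x := by
        simpa using ((hasDerivAt_id x).sub_const a).const_mul (deriv (deriv f) a)
      exact (h3.sub h4).hasDerivWithinAt
    have h5 := hconv.norm_image_sub_le_of_norm_hasDerivWithin_le hd h2 ha hy
    simp only [h0, sub_self, mul_zero, sub_zero] at h5
    exact h5.trans (mul_le_mul_of_nonneg_left ((hmem y).1 hy) (by (clear * - hM0; positivity)))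
  have hd : ∀ x ∈ B, HasDerivWithinAt (fun x => f x - deriv (deriv f) a * (x - a) ^ (2 : ℕ) / 2)
      (deriv f x - deriv (deriv f) a * (x - a)) B x := by
    intro x _
    have h3 := (hf x).hasDerivAt
    have h4 : HasDerivAt (fun x => deriv (deriv f) a * (x - a) ^ (2 : ℕ) / 2)
        (deriv (deriv f) a * (x - a)) x := by
      have h5 := ((((hasDerivAt_id x).sub_const a).pow 2).const_mul (deriv (deriv f) a)).div_const 2
      refine h5.congr_deriv ?_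
      simp only [id, mul_one, Nat.cast_ofNat, Nat.add_one_sub_one, pow_one]
      ring
    exact (h3.sub h4).hasDerivWithinAt
  have hz : a + z ∈ B := by rw [hmem]; simp
  have h5 := hconv.norm_image_sub_le_of_norm_hasDerivWithin_le hd h1 ha hz
  simp only [sub_self, add_sub_cancel_left] at h5
  calc ‖f (a + z) - f a - deriv (deriv f) a * z ^ (2 : ℕ) / 2‖
      = ‖f (a + z) - deriv (deriv f) a * z ^ (2 : ℕ) / 2 -
          (f a - deriv (deriv f) a * 0 ^ (2 : ℕ) / 2)‖ := by congr 1; ring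
    _ ≤ M * ‖z‖ * ‖z‖ * ‖z‖ := h5
    _ = M * ‖z‖ ^ (3 : ℕ) := by ring

private lemma tlu_deriv {Ψ : ℕ → ℂ → ℂ} {Ψ0 : ℂ → ℂ} (h : TendstoLocallyUniformly Ψ Ψ0 atTop)
    (hd : ∀ n, Differentiable ℂ (Ψ n)) :
    TendstoLocallyUniformly (fun n => deriv (Ψ n)) (deriv Ψ0) atTop := by
  have h1 := (tendstoLocallyUniformlyOn_univ.2 h).deriv
    (Eventually.of_forall fun n => (hd n).differentiableOn) isOpen_univ
  exact tendstoLocallyUniformlyOn_univ.1 h1

private lemma tlu_cont {Ψ : ℕ → ℂ → ℂ} {Ψ0 : ℂ → ℂ} (h : TendstoLocallyUniformly Ψ Ψ0 atTop)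
    (hd : ∀ n, Differentiable ℂ (Ψ n)) : Continuous Ψ0 :=
  h.continuous (Frequently.of_forall fun n => (hd n).continuous)

private lemma tlu_comp {ι : Type*} {l : Filter ι} {Ψ : ℕ → ℂ → ℂ} {Ψ0 : ℂ → ℂ}
    (h : TendstoLocallyUniformly Ψ Ψ0 atTop) (hc : Continuous Ψ0) {N : ι → ℕ}
    (hN : Tendsto N l atTop) {g : ι → ℂ} {x : ℂ} (hg : Tendsto g l (𝓝 x)) :
    Tendsto (fun i => Ψ (N i) (g i)) l (𝓝 (Ψ0 x)) := by
  refine tendsto_comp_of_locally_uniform_limit (F := fun i => Ψ (N i)) hc.continuousAt hg ?_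
  intro u hu
  obtain ⟨t, ht, hev⟩ := h u hu x
  exact ⟨t, ht, hN.eventually hev⟩

private lemma tlu_bound {Ψ : ℕ → ℂ → ℂ} {Ψ0 : ℂ → ℂ} (h : TendstoLocallyUniformly Ψ Ψ0 atTop)
    (hc : Continuous Ψ0) {K : Set ℂ} (hK : IsCompact K) :
    ∃ M : ℝ, ∀ᶠ n in atTop, ∀ y ∈ K, ‖Ψ n y‖ ≤ M := by
  obtain ⟨C, hC⟩ := hK.exists_bound_of_continuousOn hc.continuousOn
  have h1 := (tendstoLocallyUniformlyOn_iff_tendstoUniformlyOn_of_compact hK).1
    (h.tendstoLocallyUniformlyOn (s := K))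
  refine ⟨C + 1, ?_⟩
  filter_upwards [Metric.tendstoUniformlyOn_iff.1 h1 1 one_pos] with n hn y hy
  have h2 := hn y hy
  rw [dist_eq_norm] at h2
  calc ‖Ψ n y‖ = ‖Ψ0 y - (Ψ0 y - Ψ n y)‖ := by congr 1; ring
    _ ≤ ‖Ψ0 y‖ + ‖Ψ0 y - Ψ n y‖ := norm_sub_le _ _
    _ ≤ C + 1 := add_le_add (hC y hy) h2.le

private lemma compact_ev {K : Set ℝ} (hK : IsCompact K) {P : ℕ → ℝ → Prop}
    (h : ∀ s ∈ K, ∀ᶠ p : ℕ × ℝ in atTop ×ˢ 𝓝 s, P p.1 p.2) : ∀ᶠ n in atTop, ∀ s ∈ K, P n s := by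
  have h1 : ∀ᶠ p : ℕ × ℝ in atTop ×ˢ 𝓝ˢ K, P p.1 p.2 := by
    rw [hK.prod_nhdsSet_eq_biSup]
    simpa only [eventually_iSup] using h
  exact h1.curry.mono fun n hn s hs => hn.self_of_nhdsSet s hs

/-- uniform Taylor bound -/
private lemma Fam.taylor (F : Fam) {S : ℂ} {Sn : ℕ → ℂ} (hS : Tendsto Sn atTop (𝓝 S))
    (hcrit : ∀ᶠ n in atTop, deriv (F.Ψ n) (Sn n) = 0) (ρ : ℝ) :
    ∃ M : ℝ, 0 ≤ M ∧ ∀ᶠ n in atTop, ∀ z : ℂ, ‖z‖ ≤ ρ →
      ‖F.Ψ n (Sn n + z) - F.Ψ n (Sn n) - deriv (deriv (F.Ψ n)) (Sn n) * z ^ (2 : ℕ) / 2‖ ≤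
        M * ‖z‖ ^ (3 : ℕ) := by
  have h1 := tlu_deriv F.hΨlim F.hΨ
  have h2 := tlu_deriv h1 (fun n => (F.hΨ n).deriv)
  have h3 := tlu_deriv h2 (fun n => (F.hΨ n).deriv.deriv)
  have hc := tlu_cont h3 (fun n => (F.hΨ n).deriv.deriv.deriv)
  obtain ⟨M, hM⟩ := tlu_bound h3 hc (isCompact_closedBall S (ρ + 1))
  refine ⟨max M 0, le_max_right _ _, ?_⟩
  have hS1 : ∀ᶠ n in atTop, ‖Sn n - S‖ < 1 := by
    have := Metric.tendsto_nhds.1 hS 1 one_pos
    simpa [dist_eq_norm] using this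
  filter_upwards [hM, hS1, hcrit] with n hn hn1 hn2 z hz
  refine taylor2 (F.hΨ n) hn2 (fun y hy => (hn y ?_).trans (le_max_left _ _))
  rw [mem_closedBall_iff_norm]
  calc ‖y - S‖ = ‖(y - Sn n) + (Sn n - S)‖ := by congr 1; ring
    _ ≤ ‖y - Sn n‖ + ‖Sn n - S‖ := norm_add_le _ _
    _ ≤ ρ + 1 := add_le_add (hy.trans hz) hn1.le

/-- the second derivative at the critical points converges -/
private lemma Fam.second (F : Fam) {S : ℂ} {Sn : ℕ → ℂ} (hS : Tendsto Sn atTop (𝓝 S)) :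
    Tendsto (fun n => deriv (deriv (F.Ψ n)) (Sn n)) atTop (𝓝 (deriv (deriv F.Ψ0) S)) := by
  have h1 := tlu_deriv F.hΨlim F.hΨ
  have h2 := tlu_deriv h1 (fun n => (F.hΨ n).deriv)
  exact tlu_comp h2 (tlu_cont h2 (fun n => (F.hΨ n).deriv.deriv)) tendsto_id hS

/-- uniform descent along the segment -/
private lemma Fam.descent (F : Fam) {c : ℝ} {S v : ℂ} (h : Sad F.u0 F.Ψ0 c S v) {Sn : ℕ → ℂ}
    (hS : Tendsto Sn atTop (𝓝 S)) (hcrit : ∀ᶠ n in atTop, deriv (F.Ψ n) (Sn n) = 0) :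
    ∃ κ : ℝ, 0 < κ ∧ ∀ᶠ n in atTop, ∀ s : ℝ, |s| ≤ 1 →
      (F.u n * (F.Ψ n (Sn n + s * v) - F.Ψ n (Sn n))).re ≤ -κ * s ^ (2 : ℕ) := by
  obtain ⟨M, hM0, hM⟩ := F.taylor hS hcrit ‖v‖
  set α : ℝ := -(F.u0 * deriv (deriv F.Ψ0) S * v ^ (2 : ℕ)).re with hα
  have hαpos : 0 < α := by
    have := h.desc
    linarith
  -- constants
  set U : ℝ := ‖F.u0‖ + 1 with hU
  have hUpos : 0 < U := by (clear * -; positivity)
  have hUev : ∀ᶠ n in atTop, ‖F.u n‖ ≤ U := by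
    have h1 := F.hulim.norm
    filter_upwards [h1.eventually (gt_mem_nhds (show ‖F.u0‖ < U by rw [hU]; linarith))] with n hn
    exact hn.le
  have hA : Tendsto (fun n => (F.u n * deriv (deriv (F.Ψ n)) (Sn n) * v ^ (2 : ℕ)).re) atTop (𝓝 (-α)) := by
    have h1 := (((F.hulim.mul (F.second hS)).mul_const (v ^ (2 : ℕ))))
    have h2 := (continuous_re.tendsto _).comp h1
    rw [hα, neg_neg]
    exact h2
  have hAev : ∀ᶠ n in atTop, (F.u n * deriv (deriv (F.Ψ n)) (Sn n) * v ^ (2 : ℕ)).re ≤ -(α / 2) :=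
    (hA.eventually (gt_mem_nhds (show -α < -(α / 2) by linarith))).mono fun n hn => hn.le
  set K3 : ℝ := U * M * ‖v‖ ^ (3 : ℕ) with hK3
  have hK30 : 0 ≤ K3 := by (clear * - hM0; positivity)
  set δ : ℝ := min 1 (α / (8 * (K3 + 1))) with hδ
  have hδ0 : 0 < δ := lt_min one_pos (by (clear * - hαpos hM0; positivity))
  have hδ1 : δ ≤ 1 := min_le_left _ _
  have hδK : K3 * δ ≤ α / 8 := by
    have h1 : δ ≤ α / (8 * (K3 + 1)) := min_le_right _ _
    calc K3 * δ ≤ (K3 + 1) * (α / (8 * (K3 + 1))) := by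
          apply mul_le_mul (by linarith) h1 hδ0.le (by (clear * - hM0; positivity))
      _ = α / 8 := by field_simp
  -- near 0
  have near : ∀ᶠ n in atTop, ∀ s : ℝ, |s| ≤ δ →
      (F.u n * (F.Ψ n (Sn n + s * v) - F.Ψ n (Sn n))).re ≤ -(α / 8) * s ^ (2 : ℕ) := by
    filter_upwards [hM, hUev, hAev] with n hn hu ha s hs
    have hz : ‖(s : ℂ) * v‖ ≤ ‖v‖ := by
      rw [norm_mul, norm_real, Real.norm_eq_abs]
      exact mul_le_of_le_one_left (norm_nonneg v) (hs.trans hδ1)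
    have h1 := hn (s * v) hz
    set Rm := F.Ψ n (Sn n + s * v) - F.Ψ n (Sn n) -
      deriv (deriv (F.Ψ n)) (Sn n) * (s * v) ^ (2 : ℕ) / 2 with hRm
    have h2 : F.u n * (F.Ψ n (Sn n + s * v) - F.Ψ n (Sn n)) =
        ((s ^ (2 : ℕ) / 2 : ℝ) : ℂ) * (F.u n * deriv (deriv (F.Ψ n)) (Sn n) * v ^ (2 : ℕ)) + F.u n * Rm := by
      rw [hRm]
      push_cast
      ring
    rw [h2, add_re, re_ofReal_mul]
    have h3 : (F.u n * Rm).re ≤ K3 * |s| ^ (3 : ℕ) := by
      refine (re_le_norm _).trans ?_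
      rw [norm_mul]
      calc ‖F.u n‖ * ‖Rm‖ ≤ U * (M * ‖(s : ℂ) * v‖ ^ (3 : ℕ)) :=
            mul_le_mul hu h1 (norm_nonneg _) hUpos.le
        _ = K3 * |s| ^ (3 : ℕ) := by
            rw [norm_mul, norm_real, Real.norm_eq_abs, hK3]
            ring
    have h4 : |s| ^ (3 : ℕ) = |s| * s ^ (2 : ℕ) := by
      rw [pow_succ, sq_abs]
      ring
    have h5 : K3 * |s| ^ (3 : ℕ) ≤ α / 8 * s ^ (2 : ℕ) := by
      rw [h4]
      calc K3 * (|s| * s ^ (2 : ℕ)) = K3 * |s| * s ^ (2 : ℕ) := by ring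
        _ ≤ K3 * δ * s ^ (2 : ℕ) := by
            apply mul_le_mul_of_nonneg_right _ (sq_nonneg s)
            exact mul_le_mul_of_nonneg_left hs hK30
        _ ≤ α / 8 * s ^ (2 : ℕ) := mul_le_mul_of_nonneg_right hδK (sq_nonneg s)
    have h6 : s ^ (2 : ℕ) / 2 * (F.u n * deriv (deriv (F.Ψ n)) (Sn n) * v ^ (2 : ℕ)).re ≤
        s ^ (2 : ℕ) / 2 * (-(α / 2)) := mul_le_mul_of_nonneg_left ha (by (clear * -; positivity))
    linarith only [h3, h5, h6]
  -- away from 0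
  have hΨc : Continuous F.Ψ0 := tlu_cont F.hΨlim F.hΨ
  set K : Set ℝ := Set.Icc (-1) 1 \ Set.Ioo (-δ) δ with hKdef
  have hK : IsCompact K := isCompact_Icc.diff isOpen_Ioo
  set g : ℝ → ℝ := fun s => (F.u0 * (F.Ψ0 (S + s * v) - F.Ψ0 S)).re with hg
  have hgc : Continuous g := by
    rw [hg]
    fun_prop
  have hgneg : ∀ s ∈ K, g s < 0 := by
    intro s hs
    have hs1 : |s| ≤ 1 := abs_le.2 hs.1
    have hs0 : s ≠ 0 := by
      rintro rfl
      exact hs.2 ⟨by linarith, hδ0⟩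
    have h1 := h.seg s hs1 hs0
    have h2 := h.height
    simp only [hg, mul_sub, sub_re]
    linarith
  obtain ⟨m, hm0, hm⟩ : ∃ m : ℝ, 0 < m ∧ ∀ s ∈ K, g s ≤ -m := by
    rcases K.eq_empty_or_nonempty with he | hne
    · exact ⟨1, one_pos, by rw [he]; simp⟩
    · obtain ⟨s0, hs0, hmax⟩ := hK.exists_isMaxOn hne hgc.continuousOn
      exact ⟨-g s0, by linarith [hgneg s0 hs0], fun s hs => by
        rw [neg_neg]; exact hmax hs⟩
  have away : ∀ᶠ n in atTop, ∀ s ∈ K,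
      (F.u n * (F.Ψ n (Sn n + s * v) - F.Ψ n (Sn n))).re < -(m / 2) := by
    refine compact_ev hK (P := fun n s =>
      (F.u n * (F.Ψ n (Sn n + s * v) - F.Ψ n (Sn n))).re < -(m / 2)) ?_
    intro s hs
    have t1 : Tendsto (fun p : ℕ × ℝ => p.1) (atTop ×ˢ 𝓝 s) atTop := tendsto_fst
    have t2 : Tendsto (fun p : ℕ × ℝ => p.2) (atTop ×ˢ 𝓝 s) (𝓝 s) := tendsto_snd
    have t3 : Tendsto (fun p : ℕ × ℝ => Sn p.1) (atTop ×ˢ 𝓝 s) (𝓝 S) := hS.comp t1
    have t4 : Tendsto (fun p : ℕ × ℝ => Sn p.1 + p.2 * v) (atTop ×ˢ 𝓝 s) (𝓝 (S + s * v)) :=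
      t3.add (((continuous_ofReal.tendsto s).comp t2).mul_const v)
    have t5 := tlu_comp F.hΨlim hΨc t1 t4
    have t6 := tlu_comp F.hΨlim hΨc t1 t3
    have t7 := (F.hulim.comp t1).mul (t5.sub t6)
    have t8 := (continuous_re.tendsto _).comp t7
    have h1 : (F.u0 * (F.Ψ0 (S + s * v) - F.Ψ0 S)).re < -(m / 2) := by
      have := hm s hs
      simp only [hg] at this
      linarith
    exact t8.eventually (gt_mem_nhds h1)
  refine ⟨min (α / 8) (m / 2), lt_min (by linarith) (by linarith), ?_⟩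
  filter_upwards [near, away] with n hn ha s hs
  by_cases hsδ : |s| ≤ δ
  · refine (hn s hsδ).trans ?_
    have := min_le_left (α / 8) (m / 2)
    nlinarith only [this]
  · have hsK : s ∈ K := by
      refine ⟨abs_le.1 hs, fun h2 => hsδ ?_⟩
      exact (abs_lt.2 h2).le
    refine (ha s hsK).le.trans ?_
    have h1 := min_le_right (α / 8) (m / 2)
    have h2 : s ^ (2 : ℕ) ≤ 1 := by
      rw [← sq_abs]
      exact pow_le_one₀ (abs_nonneg s) hs
    nlinarith only [h1, h2, lt_min (show 0 < α / 8 by linarith) (show 0 < m / 2 by linarith)]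

/-- pointwise limit of the scaled phase -/
private lemma Fam.pointwise (F : Fam) {S v : ℂ} {Sn : ℕ → ℂ}
    (hS : Tendsto Sn atTop (𝓝 S)) (hcrit : ∀ᶠ n in atTop, deriv (F.Ψ n) (Sn n) = 0) (σ : ℝ) :
    Tendsto (fun n => F.u n * (F.Ψ n (Sn n + ((√(F.τ n) * σ : ℝ) : ℂ) * v) - F.Ψ n (Sn n)) /
      F.τ n) atTop (𝓝 (F.u0 * deriv (deriv F.Ψ0) S * v ^ (2 : ℕ) / 2 * (σ : ℂ) ^ (2 : ℕ))) := by
  obtain ⟨M, hM0, hM⟩ := F.taylor hS hcrit ‖v‖
  have hsq : Tendsto (fun n => √(F.τ n)) atTop (𝓝 0) := by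
    have := F.hτlim.sqrt
    simpa using this
  have hσ : ∀ᶠ n in atTop, |√(F.τ n) * σ| ≤ 1 := by
    have h1 : Tendsto (fun n => |√(F.τ n) * σ|) atTop (𝓝 0) := by
      have := (hsq.mul_const σ).abs
      simpa using this
    exact (h1.eventually (gt_mem_nhds one_pos)).mono fun n hn => hn.le
  have hmain : Tendsto (fun n => F.u n * deriv (deriv (F.Ψ n)) (Sn n) * v ^ (2 : ℕ) / 2 * (σ : ℂ) ^ (2 : ℕ))
      atTop (𝓝 (F.u0 * deriv (deriv F.Ψ0) S * v ^ (2 : ℕ) / 2 * (σ : ℂ) ^ (2 : ℕ))) :=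
    (((F.hulim.mul (F.second hS)).mul_const (v ^ (2 : ℕ))).div_const 2).mul_const _
  set E : ℕ → ℂ := fun n => F.u n * (F.Ψ n (Sn n + ((√(F.τ n) * σ : ℝ) : ℂ) * v) - F.Ψ n (Sn n)) /
      F.τ n - F.u n * deriv (deriv (F.Ψ n)) (Sn n) * v ^ (2 : ℕ) / 2 * (σ : ℂ) ^ (2 : ℕ) with hE
  have herr : Tendsto E atTop (𝓝 0) := by
    have hb : Tendsto (fun n => ‖F.u n‖ * (M * (√(F.τ n) * (|σ| * ‖v‖) ^ (3 : ℕ)))) atTop (𝓝 0) := by
      have h1 := F.hulim.norm.mul ((hsq.mul_const ((|σ| * ‖v‖) ^ (3 : ℕ))).const_mul M)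
      simpa using h1
    refine squeeze_zero_norm' ?_ hb
    filter_upwards [hM, hσ] with n hn hs
    have hτ := F.hτ n
    have hτ' : (F.τ n : ℂ) ≠ 0 := by exact_mod_cast hτ.ne'
    have hz : ‖((√(F.τ n) * σ : ℝ) : ℂ) * v‖ ≤ ‖v‖ := by
      rw [norm_mul, norm_real, Real.norm_eq_abs]
      exact mul_le_of_le_one_left (norm_nonneg v) hs
    have h1 := hn _ hz
    have hsq2 : ((√(F.τ n) : ℝ) : ℂ) ^ (2 : ℕ) = F.τ n := by
      rw [← ofReal_pow, Real.sq_sqrt hτ.le]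
    have h2 : E n = F.u n * (F.Ψ n (Sn n + ((√(F.τ n) * σ : ℝ) : ℂ) * v) - F.Ψ n (Sn n) -
        deriv (deriv (F.Ψ n)) (Sn n) * (((√(F.τ n) * σ : ℝ) : ℂ) * v) ^ (2 : ℕ) / 2) / F.τ n := by
      have h3 : (((√(F.τ n) * σ : ℝ) : ℂ) * v) ^ (2 : ℕ) = F.τ n * ((σ : ℂ) ^ (2 : ℕ) * v ^ (2 : ℕ)) := by
        rw [← hsq2]
        push_cast
        ring
      rw [h3, hE]
      field_simp
    rw [h2, norm_div, norm_mul, norm_real, Real.norm_eq_abs, abs_of_pos hτ]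
    rw [div_le_iff₀ hτ]
    calc ‖F.u n‖ * ‖F.Ψ n (Sn n + ((√(F.τ n) * σ : ℝ) : ℂ) * v) - F.Ψ n (Sn n) -
          deriv (deriv (F.Ψ n)) (Sn n) * (((√(F.τ n) * σ : ℝ) : ℂ) * v) ^ (2 : ℕ) / 2‖
        ≤ ‖F.u n‖ * (M * ‖((√(F.τ n) * σ : ℝ) : ℂ) * v‖ ^ (3 : ℕ)) :=
          mul_le_mul_of_nonneg_left h1 (norm_nonneg _)
      _ = ‖F.u n‖ * (M * (√(F.τ n) * (|σ| * ‖v‖) ^ (3 : ℕ))) * F.τ n := by
          rw [norm_mul, norm_real, Real.norm_eq_abs, abs_mul, abs_of_nonneg (Real.sqrt_nonneg _)]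
          have h4 : √(F.τ n) ^ (3 : ℕ) = √(F.τ n) * F.τ n := by
            rw [pow_succ, Real.sq_sqrt hτ.le]
            ring
          calc ‖F.u n‖ * (M * (√(F.τ n) * |σ| * ‖v‖) ^ (3 : ℕ))
              = ‖F.u n‖ * (M * (√(F.τ n) ^ (3 : ℕ) * (|σ| * ‖v‖) ^ (3 : ℕ))) := by ring
            _ = _ := by rw [h4]; ring
  have := hmain.add herr
  simp only [hE, add_zero] at this
  refine this.congr fun n => ?_
  ring

/-- Laplace's method with a weight -/
private lemma Fam.core (F : Fam) {c : ℝ} {S v : ℂ} (h : Sad F.u0 F.Ψ0 c S v) {Sn : ℕ → ℂ}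
    (hS : Tendsto Sn atTop (𝓝 S)) (hcrit : ∀ᶠ n in atTop, deriv (F.Ψ n) (Sn n) = 0)
    (W : ℕ → ℂ → ℂ) (W0 : ℂ) (hWc : ∀ n, Continuous (W n)) (C : ℝ)
    (hWb : ∀ᶠ n in atTop, ∀ s : ℝ, |s| ≤ 1 → ‖W n (Sn n + s * v)‖ ≤ C)
    (hWl : ∀ σ : ℝ, Tendsto (fun n => W n (Sn n + ((√(F.τ n) * σ : ℝ) : ℂ) * v)) atTop (𝓝 W0))
    (R : ℕ → ℂ → ℂ)
    (hR : ∀ n H, HasDerivAt (R n) (W n H * cexp (F.u n * F.Ψ n H / F.τ n)) H) :
    Tendsto (fun n => (R n (Sn n + v) - R n (Sn n - v)) /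
      (√(F.τ n) * cexp (F.u n * F.Ψ n (Sn n) / F.τ n))) atTop
      (𝓝 (v * ∫ σ : ℝ, W0 * cexp (-(-(F.u0 * deriv (deriv F.Ψ0) S * v ^ (2 : ℕ) / 2)) * (σ : ℂ) ^ (2 : ℕ)))) := by
  obtain ⟨κ, hκ, hdesc⟩ := F.descent h hS hcrit
  -- the integrand
  set D : ℕ → ℝ → ℂ := fun n s => F.u n * (F.Ψ n (Sn n + s * v) - F.Ψ n (Sn n)) with hD
  set f : ℕ → ℝ → ℂ := fun n s => W n (Sn n + s * v) * cexp (D n s / F.τ n) with hf
  have hfc : ∀ n, Continuous (f n) := by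
    intro n
    have h1 := (F.hΨ n).continuous
    have h2 := hWc n
    simp only [hf, hD]
    fun_prop
  set I : ℕ → ℝ → ℂ := fun n =>
    (Set.Ioc (-(1 / √(F.τ n))) (1 / √(F.τ n))).indicator (fun σ => f n (√(F.τ n) * σ)) with hI
  have hsq : ∀ n, 0 < √(F.τ n) := fun n => Real.sqrt_pos.2 (F.hτ n)
  -- the quotient as an integral
  have key : ∀ n, (R n (Sn n + v) - R n (Sn n - v)) /
      (√(F.τ n) * cexp (F.u n * F.Ψ n (Sn n) / F.τ n)) = v * ∫ σ : ℝ, I n σ := by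
    intro n
    have hτ' : ((√(F.τ n) : ℝ) : ℂ) ≠ 0 := by exact_mod_cast (hsq n).ne'
    have e1 : ∫ σ : ℝ, I n σ = ∫ σ in (-(1 / √(F.τ n)))..(1 / √(F.τ n)), f n (√(F.τ n) * σ) := by
      rw [intervalIntegral.integral_of_le (by
        have := (one_div_pos.2 (hsq n)).le
        linarith), ← MeasureTheory.integral_indicator measurableSet_Ioc]
    have e2 : (√(F.τ n)) • ∫ σ in (-(1 / √(F.τ n)))..(1 / √(F.τ n)), f n (√(F.τ n) * σ) =
        ∫ s in (-1 : ℝ)..1, f n s := by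
      rw [intervalIntegral.smul_integral_comp_mul_left]
      congr 1
      · rw [mul_neg, mul_one_div_cancel (hsq n).ne']
      · rw [mul_one_div_cancel (hsq n).ne']
    have e3 : ∫ s in (-1 : ℝ)..1, W n (Sn n + s * v) * cexp (F.u n * F.Ψ n (Sn n + s * v) / F.τ n) * v
        = R n (Sn n + v) - R n (Sn n - v) := by
      have hd : ∀ s ∈ Set.uIcc (-1 : ℝ) 1, HasDerivAt (fun s : ℝ => R n (Sn n + s * v))
          (W n (Sn n + s * v) * cexp (F.u n * F.Ψ n (Sn n + s * v) / F.τ n) * v) s := by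
        intro s _
        have h1 : HasDerivAt (fun s : ℝ => Sn n + (s : ℂ) * v) v s := by
          have h2 := ((ofRealCLM.hasDerivAt (x := s)).mul_const v).const_add (Sn n)
          simpa using h2
        exact (hR n (Sn n + s * v)).comp s h1
      have hcont : Continuous (fun s : ℝ =>
          W n (Sn n + s * v) * cexp (F.u n * F.Ψ n (Sn n + s * v) / F.τ n) * v) := by
        have h1 := (F.hΨ n).continuous
        have h2 := hWc n
        fun_prop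
      rw [intervalIntegral.integral_eq_sub_of_hasDerivAt hd (hcont.intervalIntegrable _ _)]
      simp [sub_eq_add_neg]
    have e4 : ∫ s in (-1 : ℝ)..1, W n (Sn n + s * v) * cexp (F.u n * F.Ψ n (Sn n + s * v) / F.τ n) * v
        = v * cexp (F.u n * F.Ψ n (Sn n) / F.τ n) * ∫ s in (-1 : ℝ)..1, f n s := by
      rw [← intervalIntegral.integral_const_mul]
      congr 1
      ext s
      have h1 : cexp (F.u n * F.Ψ n (Sn n + s * v) / F.τ n) =
          cexp (F.u n * F.Ψ n (Sn n) / F.τ n) * cexp (D n s / F.τ n) := by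
        rw [← Complex.exp_add]
        congr 1
        simp only [hD]
        ring
      rw [h1]
      simp only [hf]
      ring
    rw [← e3, e4, ← e2, e1, real_smul]
    have h5 := Complex.exp_ne_zero (F.u n * F.Ψ n (Sn n) / F.τ n)
    field_simp
  rw [show (fun n => (R n (Sn n + v) - R n (Sn n - v)) /
      (√(F.τ n) * cexp (F.u n * F.Ψ n (Sn n) / F.τ n))) = fun n => v * ∫ σ : ℝ, I n σ from
    funext key]
  refine Tendsto.const_mul v ?_
  refine MeasureTheory.tendsto_integral_filter_of_dominated_convergence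
    (fun σ => C * Real.exp (-κ * σ ^ (2 : ℕ))) ?_ ?_ ?_ ?_
  · refine Eventually.of_forall fun n => ?_
    refine (Measurable.indicator ?_ measurableSet_Ioc).aestronglyMeasurable
    exact ((hfc n).comp (by fun_prop)).measurable
  · filter_upwards [hdesc, hWb] with n hn hw
    refine Eventually.of_forall fun σ => ?_
    have hC : 0 ≤ C := (norm_nonneg _).trans (hw 0 (by simp))
    simp only [hI]
    by_cases hσ : σ ∈ Set.Ioc (-(1 / √(F.τ n))) (1 / √(F.τ n))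
    · rw [Set.indicator_of_mem hσ]
      have hs1 : |√(F.τ n) * σ| ≤ 1 := by
        rw [abs_mul, abs_of_pos (hsq n)]
        have h1 : |σ| ≤ 1 / √(F.τ n) := abs_le.2 ⟨hσ.1.le, hσ.2⟩
        calc √(F.τ n) * |σ| ≤ √(F.τ n) * (1 / √(F.τ n)) :=
              mul_le_mul_of_nonneg_left h1 (hsq n).le
          _ = 1 := mul_one_div_cancel (hsq n).ne'
      simp only [hf]
      rw [norm_mul]
      refine mul_le_mul (hw _ hs1) ?_ (norm_nonneg _) hC
      rw [norm_exp]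
      refine Real.exp_le_exp.2 ?_
      have h2 := hn _ hs1
      have h3 : (D n (√(F.τ n) * σ) / F.τ n).re = (D n (√(F.τ n) * σ)).re / F.τ n :=
        div_ofReal_re _ _
      rw [h3, div_le_iff₀ (F.hτ n)]
      refine h2.trans (le_of_eq ?_)
      rw [mul_pow, Real.sq_sqrt (F.hτ n).le]
      ring
    · rw [Set.indicator_of_notMem hσ, norm_zero]
      (clear * - hC; positivity)
  · exact (integrable_exp_neg_mul_sq hκ).const_mul C
  · refine Eventually.of_forall fun σ => ?_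
    have hev : ∀ᶠ n in atTop, σ ∈ Set.Ioc (-(1 / √(F.τ n))) (1 / √(F.τ n)) := by
      have h1 : Tendsto (fun n => √(F.τ n)) atTop (𝓝 0) := by
        have := F.hτlim.sqrt
        simpa using this
      have h2 : Tendsto (fun n => √(F.τ n) * (|σ| + 1)) atTop (𝓝 0) := by
        have := h1.mul_const (|σ| + 1)
        simpa using this
      filter_upwards [h2.eventually (gt_mem_nhds one_pos)] with n hn
      have h3 : |σ| + 1 < 1 / √(F.τ n) := by
        rw [lt_div_iff₀ (hsq n)]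
        linarith
      have h4 := neg_abs_le σ
      have h5 := le_abs_self σ
      exact ⟨by linarith, by linarith⟩
    have hlim := (hWl σ).mul ((continuous_exp.tendsto _).comp (F.pointwise (v := v) hS hcrit σ))
    rw [neg_neg]
    refine hlim.congr' ?_
    filter_upwards [hev] with n hn
    simp only [hI]
    rw [Set.indicator_of_mem hn]
    simp only [hf, hD, Function.comp]

theorem Fam.laplace (F : Fam) {c : ℝ} {S v : ℂ} (h : Sad F.u0 F.Ψ0 c S v) {Sn : ℕ → ℂ}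
    (hS : Tendsto Sn atTop (𝓝 S)) (hcrit : ∀ᶠ n in atTop, deriv (F.Ψ n) (Sn n) = 0) :
    ∃ c0 : ℂ, c0 ≠ 0 ∧
      Tendsto (fun n => (F.P n (Sn n + v) - F.P n (Sn n - v)) /
        (√(F.τ n) * cexp (F.u n * F.Ψ n (Sn n) / F.τ n))) atTop (𝓝 c0) ∧
      Tendsto (fun n => (F.Q n (Sn n + v) - F.Q n (Sn n - v) -
        F.w0 S * (F.P n (Sn n + v) - F.P n (Sn n - v))) /
        (√(F.τ n) * cexp (F.u n * F.Ψ n (Sn n) / F.τ n))) atTop (𝓝 0) := by
  set b : ℂ := -(F.u0 * deriv (deriv F.Ψ0) S * v ^ (2 : ℕ) / 2) with hb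
  have hbre : 0 < b.re := by
    have h1 := h.desc
    have h2 : b.re = -(F.u0 * deriv (deriv F.Ψ0) S * v ^ (2 : ℕ)).re / 2 := by
      rw [hb, neg_re]
      have : (F.u0 * deriv (deriv F.Ψ0) S * v ^ (2 : ℕ) / 2).re =
          (F.u0 * deriv (deriv F.Ψ0) S * v ^ (2 : ℕ)).re / 2 := by
        exact div_ofReal_re (F.u0 * deriv (deriv F.Ψ0) S * v ^ (2 : ℕ)) 2
      rw [this]
      ring
    rw [h2]
    linarith
  have hv : v ≠ 0 := by
    rintro rfl
    have := h.desc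
    simp at this
  have hb0 : b ≠ 0 := by
    rintro h0
    rw [h0] at hbre
    simp at hbre
  have hsq : Tendsto (fun n => √(F.τ n)) atTop (𝓝 0) := by
    have := F.hτlim.sqrt
    simpa using this
  refine ⟨v * ∫ σ : ℝ, 1 * cexp (-b * (σ : ℂ) ^ (2 : ℕ)), ?_, ?_, ?_⟩
  · simp only [one_mul]
    rw [integral_gaussian_complex hbre]
    refine mul_ne_zero hv ?_
    rw [Ne, cpow_eq_zero_iff]
    intro h1
    exact (div_ne_zero (by exact_mod_cast Real.pi_ne_zero) hb0) h1.1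
  · refine F.core h hS hcrit (fun _ _ => 1) 1 (fun n => continuous_const) 1
      (Eventually.of_forall fun n s _ => by simp) (fun σ => tendsto_const_nhds) F.P ?_
    intro n H
    simpa using F.hP n H
  · have hw := tlu_cont F.hwlim F.hw
    obtain ⟨C, hC⟩ := tlu_bound F.hwlim hw (isCompact_closedBall S (‖v‖ + 1))
    have hS1 : ∀ᶠ n in atTop, ‖Sn n - S‖ < 1 := by
      have := Metric.tendsto_nhds.1 hS 1 one_pos
      simpa [dist_eq_norm] using this
    have := F.core h hS hcrit (fun n H => F.w n H - F.w0 S) 0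
      (fun n => (F.hw n).continuous.sub continuous_const) (C + ‖F.w0 S‖) ?_ ?_
      (fun n H => F.Q n H - F.w0 S * F.P n H) ?_
    · simp only [zero_mul, MeasureTheory.integral_zero, mul_zero] at this
      refine this.congr fun n => ?_
      congr 1
      ring
    · filter_upwards [hC, hS1] with n hn h1 s hs
      refine (norm_sub_le _ _).trans (add_le_add (hn _ ?_) le_rfl)
      rw [mem_closedBall_iff_norm]
      calc ‖Sn n + s * v - S‖ = ‖s * v + (Sn n - S)‖ := by congr 1; ring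
        _ ≤ ‖(s : ℂ) * v‖ + ‖Sn n - S‖ := norm_add_le _ _
        _ ≤ ‖v‖ + 1 := by
          refine add_le_add ?_ h1.le
          rw [norm_mul, norm_real, Real.norm_eq_abs]
          exact mul_le_of_le_one_left (norm_nonneg v) hs
    · intro σ
      have h1 : Tendsto (fun n => Sn n + ((√(F.τ n) * σ : ℝ) : ℂ) * v) atTop (𝓝 S) := by
        have h2 : Tendsto (fun n => ((√(F.τ n) * σ : ℝ) : ℂ)) atTop (𝓝 ((0 * σ : ℝ) : ℂ)) :=
          (continuous_ofReal.tendsto _).comp (hsq.mul_const σ)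
        have h3 := hS.add (h2.mul_const v)
        simpa using h3
      have h2 := (tlu_comp F.hwlim hw tendsto_id h1).sub_const (F.w0 S)
      simpa using h2
    · intro n H
      have h1 := (F.hQ n H).sub ((F.hP n H).const_mul (F.w0 S))
      refine h1.congr_deriv ?_
      ring

end SokamV

end

/-! ### Lib_MP_af4de1_v.SaddleAs -/

section
/-!
# The contribution of a saddle point [SV-SADAS]

`S_n` from `Fam.exists_crit` (`desc` gives `Ψ0''(S) ≠ 0`), `c0` from `Fam.laplace`.  The endpoints `S ± v` instead of `S_n ± v`: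
`Re u0Ψ0(S ± v) < c`, so on a small ball around `S ± v` the height is `< c1 < c` and (as in `Fam.rel`, local step, or
directly) `‖P_n(S±v) - P_n(S_n±v)‖, ‖Q_n(S±v) - Q_n(S_n±v)‖ ≤ C exp(c1/τ_n)` for large `n`.  As
`Re(u_n Ψ_n(S_n)) → c`, `‖√τ_n cexp(u_nΨ_n(S_n)/τ_n)‖ ≥ √τ_n exp((c-ε)/τ_n)`, and `exp((c1-c+ε)/τ_n)/√τ_n → 0`.
-/

namespace SokamV

open Complex Filter Topology

private lemma Fam.tendsto_prod {Ψ : ℕ → ℂ → ℂ} {Ψ0 : ℂ → ℂ} (hd : ∀ n, Differentiable ℂ (Ψ n))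
    (hl : TendstoLocallyUniformly Ψ Ψ0 atTop) (A : ℂ) :
    Tendsto (fun y : ℕ × ℂ => Ψ y.1 y.2) (atTop ×ˢ 𝓝 A) (𝓝 (Ψ0 A)) := by
  have hc : Continuous Ψ0 := hl.continuous (Frequently.of_forall fun n => (hd n).continuous)
  have h1 := tendstoLocallyUniformly_iff_forall_tendsto.1 hl A
  have h2 : Tendsto (fun y : ℕ × ℂ => Ψ0 y.2) (atTop ×ˢ 𝓝 A) (𝓝 (Ψ0 A)) :=
    (hc.tendsto A).comp tendsto_snd
  exact h2.congr_uniformity h1

private lemma Fam.norm_exp (F : Fam) (n : ℕ) (H : ℂ) :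
    ‖cexp (F.u n * F.Ψ n H / F.τ n)‖ = Real.exp ((F.u n * F.Ψ n H).re / F.τ n) := by
  rw [Complex.norm_exp, Complex.div_ofReal_re]

private lemma Fam.near (F : Fam) {c1 : ℝ} {A : ℂ} (hA : (F.u0 * F.Ψ0 A).re < c1) {An : ℕ → ℂ}
    (hAn : Tendsto An atTop (𝓝 A)) :
    ∃ C : ℝ, ∀ᶠ n in atTop, ‖F.P n (An n) - F.P n A‖ ≤ C * Real.exp (c1 / F.τ n) ∧
      ‖F.Q n (An n) - F.Q n A‖ ≤ C * Real.exp (c1 / F.τ n) := by
  have h1 : Tendsto (fun y : ℕ × ℂ => (F.u y.1 * F.Ψ y.1 y.2).re) (atTop ×ˢ 𝓝 A)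
      (𝓝 ((F.u0 * F.Ψ0 A).re)) :=
    (continuous_re.tendsto _).comp
      ((F.hulim.comp tendsto_fst).mul (Fam.tendsto_prod F.hΨ F.hΨlim A))
  have h2 : Tendsto (fun y : ℕ × ℂ => ‖F.w y.1 y.2‖) (atTop ×ˢ 𝓝 A) (𝓝 ‖F.w0 A‖) :=
    (Fam.tendsto_prod F.hw F.hwlim A).norm
  have h3 := (h1.eventually (gt_mem_nhds hA)).and
    (h2.eventually (gt_mem_nhds (lt_add_one ‖F.w0 A‖)))
  obtain ⟨pa, hpa, pb, hpb, hp⟩ := eventually_prod_iff.1 h3
  obtain ⟨ε, hε, hball⟩ := Metric.eventually_nhds_iff_ball.1 hpb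
  have hM : 0 ≤ ‖F.w0 A‖ + 1 := by positivity
  refine ⟨(‖F.w0 A‖ + 1) * ε, ?_⟩
  filter_upwards [hpa, hAn.eventually (Metric.ball_mem_nhds A hε)] with n hn hAn'
  have hE : 0 < Real.exp (c1 / F.τ n) := Real.exp_pos _
  have hb : ∀ H ∈ Metric.ball A ε, ‖cexp (F.u n * F.Ψ n H / F.τ n)‖ ≤ Real.exp (c1 / F.τ n) := by
    intro H hH
    rw [F.norm_exp]
    exact Real.exp_le_exp.2 (div_le_div_of_nonneg_right (hp hn (hball H hH)).1.le (F.hτ n).le)
  have hb' : ∀ H ∈ Metric.ball A ε, ‖F.w n H * cexp (F.u n * F.Ψ n H / F.τ n)‖ ≤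
      (‖F.w0 A‖ + 1) * Real.exp (c1 / F.τ n) := by
    intro H hH
    rw [norm_mul]
    exact mul_le_mul (hp hn (hball H hH)).2.le (hb H hH) (norm_nonneg _) hM
  have hAA : A ∈ Metric.ball A ε := Metric.mem_ball_self hε
  have hd : ‖An n - A‖ ≤ ε := by
    rw [← dist_eq_norm]
    exact (Metric.mem_ball.1 hAn').le
  have k1 := (convex_ball A ε).norm_image_sub_le_of_norm_hasDerivWithin_le
    (f := F.P n) (fun H _ => (F.hP n H).hasDerivWithinAt) hb hAA hAn'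
  have k2 := (convex_ball A ε).norm_image_sub_le_of_norm_hasDerivWithin_le
    (f := F.Q n) (fun H _ => (F.hQ n H).hasDerivWithinAt) hb' hAA hAn'
  constructor
  · refine k1.trans ?_
    calc Real.exp (c1 / F.τ n) * ‖An n - A‖ ≤ Real.exp (c1 / F.τ n) * ε := by gcongr
      _ ≤ (‖F.w0 A‖ + 1) * ε * Real.exp (c1 / F.τ n) := by
          have := norm_nonneg (F.w0 A)
          nlinarith [mul_nonneg this (mul_pos hε hE).le]
  · refine k2.trans ?_
    calc (‖F.w0 A‖ + 1) * Real.exp (c1 / F.τ n) * ‖An n - A‖ ≤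
        (‖F.w0 A‖ + 1) * Real.exp (c1 / F.τ n) * ε := by gcongr
      _ = (‖F.w0 A‖ + 1) * ε * Real.exp (c1 / F.τ n) := by ring

private lemma Fam.small_quot (F : Fam) {d : ℝ} (hd : 0 < d) :
    Tendsto (fun n => Real.exp (-d / F.τ n) / √(F.τ n)) atTop (𝓝 0) := by
  have h1 : Tendsto (fun n => (F.τ n)⁻¹) atTop atTop := by
    refine Tendsto.inv_tendsto_nhdsGT_zero ?_
    exact tendsto_nhdsWithin_iff.2 ⟨F.hτlim, Eventually.of_forall fun n => F.hτ n⟩
  have h2 := (tendsto_rpow_mul_exp_neg_mul_atTop_nhds_zero (1 / 2) d hd).comp h1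
  refine h2.congr fun n => ?_
  simp only [Function.comp]
  rw [← Real.sqrt_eq_rpow, Real.sqrt_inv]
  rw [div_eq_mul_inv (-d), div_eq_mul_inv (Real.exp _), mul_comm]

theorem Fam.saddle (F : Fam) {c : ℝ} {S v : ℂ} (h : Sad F.u0 F.Ψ0 c S v) :
    ∃ (Sn : ℕ → ℂ) (c0 : ℂ), c0 ≠ 0 ∧ Tendsto Sn atTop (𝓝 S) ∧
      (∀ᶠ n in atTop, deriv (F.Ψ n) (Sn n) = 0) ∧
      Tendsto (fun n => (F.P n (S + v) - F.P n (S - v)) /
        (√(F.τ n) * cexp (F.u n * F.Ψ n (Sn n) / F.τ n))) atTop (𝓝 c0) ∧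
      Tendsto (fun n => (F.Q n (S + v) - F.Q n (S - v) -
        F.w0 S * (F.P n (S + v) - F.P n (S - v))) /
        (√(F.τ n) * cexp (F.u n * F.Ψ n (Sn n) / F.τ n))) atTop (𝓝 0) := by
  have hdd : deriv (deriv F.Ψ0) S ≠ 0 := by
    intro h0
    have := h.desc
    rw [h0] at this
    simp at this
  obtain ⟨Sn, hSn, hcrit⟩ := F.exists_crit h.crit hdd
  obtain ⟨c0, hc0, hP, hQ⟩ := F.laplace h hSn hcrit
  refine ⟨Sn, c0, hc0, hSn, hcrit, ?_⟩
  -- heights of the endpoints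
  have hp1 : (F.u0 * F.Ψ0 (S + v)).re < c := by
    have := h.seg 1 (by simp) one_ne_zero
    simpa using this
  have hm1 : (F.u0 * F.Ψ0 (S - v)).re < c := by
    have := h.seg (-1) (by simp) (by norm_num)
    simpa [sub_eq_add_neg] using this
  obtain ⟨c1, hc1, hc1c⟩ := exists_between (max_lt hp1 hm1)
  obtain ⟨c2, hc12, hc2c⟩ := exists_between hc1c
  have hp : (F.u0 * F.Ψ0 (S + v)).re < c1 := (le_max_left _ _).trans_lt hc1
  have hm : (F.u0 * F.Ψ0 (S - v)).re < c1 := (le_max_right _ _).trans_lt hc1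
  obtain ⟨C1, hC1⟩ := F.near hp (An := fun n => Sn n + v) (hSn.add_const v)
  obtain ⟨C2, hC2⟩ := F.near hm (An := fun n => Sn n - v) (hSn.sub_const v)
  -- the height of the saddle
  have hh : Tendsto (fun n => (F.u n * F.Ψ n (Sn n)).re) atTop (𝓝 c) := by
    have h1 : Tendsto (fun n : ℕ => (n, Sn n)) atTop (atTop ×ˢ 𝓝 S) := tendsto_id.prodMk hSn
    have h2 := (Fam.tendsto_prod F.hΨ F.hΨlim S).comp h1
    have h3 := (continuous_re.tendsto _).comp (F.hulim.mul h2)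
    rw [h.height] at h3
    exact h3
  set D : ℕ → ℂ := fun n => √(F.τ n) * cexp (F.u n * F.Ψ n (Sn n) / F.τ n) with hD
  have hDn : ∀ᶠ n in atTop, √(F.τ n) * Real.exp (c2 / F.τ n) ≤ ‖D n‖ := by
    filter_upwards [hh.eventually (lt_mem_nhds hc2c)] with n hn
    rw [hD]
    simp only
    rw [norm_mul, F.norm_exp, Complex.norm_real, Real.norm_of_nonneg (Real.sqrt_nonneg _)]
    gcongr
    exact (F.hτ n).le
  have key : ∀ (C : ℝ) (X : ℕ → ℂ), (∀ᶠ n in atTop, ‖X n‖ ≤ C * Real.exp (c1 / F.τ n)) →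
      Tendsto (fun n => X n / D n) atTop (𝓝 0) := by
    intro C X hX
    have h1 := (F.small_quot (sub_pos.2 hc12)).const_mul C
    rw [mul_zero] at h1
    refine squeeze_zero_norm' ?_ h1
    filter_upwards [hX, hDn] with n hn hn'
    have hs : 0 < √(F.τ n) := Real.sqrt_pos.2 (F.hτ n)
    have hpos : 0 < √(F.τ n) * Real.exp (c2 / F.τ n) := by positivity
    rw [norm_div]
    have hC : 0 ≤ C * Real.exp (c1 / F.τ n) := (norm_nonneg _).trans hn
    calc ‖X n‖ / ‖D n‖ ≤ (C * Real.exp (c1 / F.τ n)) / (√(F.τ n) * Real.exp (c2 / F.τ n)) :=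
          div_le_div₀ hC hn hpos hn'
      _ = C * (Real.exp (-(c2 - c1) / F.τ n) / √(F.τ n)) := by
          have : -(c2 - c1) / F.τ n = c1 / F.τ n - c2 / F.τ n := by ring
          rw [this, Real.exp_sub]
          field_simp
  have e1 := key C1 (fun n => F.P n (Sn n + v) - F.P n (S + v)) (hC1.mono fun n hn => hn.1)
  have e2 := key C2 (fun n => F.P n (Sn n - v) - F.P n (S - v)) (hC2.mono fun n hn => hn.1)
  have e3 := key C1 (fun n => F.Q n (Sn n + v) - F.Q n (S + v)) (hC1.mono fun n hn => hn.2)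
  have e4 := key C2 (fun n => F.Q n (Sn n - v) - F.Q n (S - v)) (hC2.mono fun n hn => hn.2)
  constructor
  · have := (hP.sub e1).add e2
    simp only [sub_zero, add_zero] at this
    refine this.congr fun n => ?_
    simp only [hD]
    ring
  · have := ((hQ.sub e3).add e4).add ((e1.sub e2).const_mul (F.w0 S))
    simp only [sub_zero, add_zero, mul_zero] at this
    refine this.congr fun n => ?_
    simp only [hD]
    ring

end SokamV

end

/-! ### Lib_MP_af4de1_v.ChainAs -/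

section
/-!
# Asymptotics along a chain [SV-CHA]

`chain_nil`: `Fam.rel`.  `chain_one`: unfold `Chain` (`cases` twice): `A ~ S - v`, `S + v ~ B` by `Fam.rel` at the level `c'`, and
`J n = P_n(S+v) - P_n(S-v)`; `Fam.saddle`: `J n = (c0 + o(1)) √τ_n cexp(u_nΨ_n(S_n)/τ_n)`, `Re(u_nΨ_n(S_n)) → c`
(continuity, locally uniform convergence, `height`): `Big` (`√τ exp((c-ε/2)/τ) ≥ exp((c-ε)/τ)` for small `τ`).  The second
limit of `Fam.saddle` gives `‖ΔQ - w0 S · J‖ ≤ ε ‖J‖`, the errors `C exp(c'/τ_n) ≤ ε‖J n‖` by `Big`.  `chain_two` the same twice.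
`lin_one`: `‖g‖ exp((c-ε)/τ) ≤ ‖g‖‖J‖ = ‖R‖ ≤ C exp(c'/τ)` with `ε = (c-c')/2` is false for small `τ`.
`lin_two`: frequently `‖J1‖ ≥ ‖J2‖` or frequently `‖J2‖ ≥ ‖J1‖`.  First case: subtract `w2` times the first equation:
`a (w1-w2) J1 = w2 R - E`, `‖a (w1-w2)‖ ‖J1‖ ≤ ‖w2‖ C exp(c'/τ) + 2ε‖J1‖`: contradiction with `Big` for small `ε`.
-/

namespace SokamV

open Complex Filter Topology

/-- Of the size of a saddle point contribution at the height `c` (lower bound). -/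
def Big (τ : ℕ → ℝ) (c : ℝ) (J : ℕ → ℂ) : Prop :=
  ∀ ε : ℝ, 0 < ε → ∀ᶠ n in atTop, Real.exp ((c - ε) / τ n) ≤ ‖J n‖

/-- Not larger than a contribution at the height `c`. -/
def Small (τ : ℕ → ℝ) (c : ℝ) (R : ℕ → ℂ) : Prop :=
  ∃ C : ℝ, ∀ᶠ n in atTop, ‖R n‖ ≤ C * Real.exp (c / τ n)

/-- `K √τ exp(δ/τ) ≥ 1` for small `τ`. -/
private theorem ev_sqrt {τ : ℕ → ℝ} (hτ : ∀ n, 0 < τ n) (hτ0 : Tendsto τ atTop (𝓝 0)) {K δ : ℝ}
    (hK : 0 < K) (hδ : 0 < δ) : ∀ᶠ n in atTop, 1 ≤ K * √(τ n) * Real.exp (δ / τ n) := by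
  have h1 : Tendsto (fun n => √(τ n)) atTop (𝓝 0) := by
    have := (Real.continuous_sqrt.tendsto 0).comp hτ0
    simpa [Function.comp_def] using this
  have h2 : ∀ᶠ n in atTop, √(τ n) < K * δ := h1.eventually_lt_const (by positivity)
  filter_upwards [h2] with n hn
  have hs : 0 < √(τ n) := Real.sqrt_pos.2 (hτ n)
  have hsq : √(τ n) * √(τ n) = τ n := Real.mul_self_sqrt (hτ n).le
  have h3 : δ / τ n ≤ Real.exp (δ / τ n) := by
    have := Real.add_one_le_exp (δ / τ n)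
    linarith
  calc (1 : ℝ) ≤ K * δ / √(τ n) := by rw [one_le_div hs]; exact hn.le
    _ = K * √(τ n) * (δ / τ n) := by
        rw [div_eq_iff hs.ne']
        calc K * δ = K * δ * (√(τ n) * √(τ n)) / τ n := by
              rw [hsq, mul_div_assoc, div_self (hτ n).ne', mul_one]
          _ = _ := by ring
    _ ≤ K * √(τ n) * Real.exp (δ / τ n) := by
        apply mul_le_mul_of_nonneg_left h3
        positivity

/-- `C ≤ η exp(δ/τ)` for small `τ`. -/
private theorem ev_exp {τ : ℕ → ℝ} (hτ : ∀ n, 0 < τ n) (hτ0 : Tendsto τ atTop (𝓝 0)) {C η δ : ℝ}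
    (hη : 0 < η) (hδ : 0 < δ) : ∀ᶠ n in atTop, C ≤ η * Real.exp (δ / τ n) := by
  have h2 : ∀ᶠ n in atTop, τ n < η * δ / (|C| + 1) := hτ0.eventually_lt_const (by positivity)
  filter_upwards [h2] with n hn
  have h3 : δ / τ n ≤ Real.exp (δ / τ n) := by
    have := Real.add_one_le_exp (δ / τ n)
    linarith
  have h4 : τ n * (|C| + 1) < η * δ := by
    rwa [lt_div_iff₀ (by positivity)] at hn
  calc C ≤ |C| + 1 := by linarith [le_abs_self C]
    _ ≤ η * (δ / τ n) := by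
        rw [← mul_div_assoc, le_div_iff₀ (hτ n)]
        linarith
    _ ≤ η * Real.exp (δ / τ n) := mul_le_mul_of_nonneg_left h3 hη.le

private theorem small_big {τ : ℕ → ℝ} (hτ : ∀ n, 0 < τ n) (hτ0 : Tendsto τ atTop (𝓝 0))
    {c c' : ℝ} (hc : c' < c) {J R : ℕ → ℂ} (hJ : Big τ c J) (hR : Small τ c' R) {η : ℝ}
    (hη : 0 < η) : ∀ᶠ n in atTop, ‖R n‖ ≤ η * ‖J n‖ := by
  obtain ⟨C, hC⟩ := hR
  have hδ : 0 < (c - c') / 2 := by linarith
  filter_upwards [hC, hJ _ hδ, ev_exp (C := C) hτ hτ0 hη hδ] with n h1 h2 h3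
  have h4 : Real.exp ((c - (c - c') / 2) / τ n) =
      Real.exp (((c - c') / 2) / τ n) * Real.exp (c' / τ n) := by
    rw [← Real.exp_add]
    congr 1
    ring
  calc ‖R n‖ ≤ C * Real.exp (c' / τ n) := h1
    _ ≤ (η * Real.exp (((c - c') / 2) / τ n)) * Real.exp (c' / τ n) :=
        mul_le_mul_of_nonneg_right h3 (Real.exp_pos _).le
    _ = η * Real.exp ((c - (c - c') / 2) / τ n) := by rw [h4]; ring
    _ ≤ η * ‖J n‖ := mul_le_mul_of_nonneg_left h2 hη.le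

private theorem big_pos {τ : ℕ → ℝ} {c : ℝ} {J : ℕ → ℂ} (hJ : Big τ c J) :
    ∀ᶠ n in atTop, 0 < ‖J n‖ := by
  filter_upwards [hJ 1 one_pos] with n hn
  exact (Real.exp_pos _).trans_le hn

private theorem small_add {τ : ℕ → ℝ} {c : ℝ} {R R' : ℕ → ℂ} (h : Small τ c R)
    (h' : Small τ c R') : Small τ c (fun n => R n + R' n) := by
  obtain ⟨C, hC⟩ := h
  obtain ⟨C', hC'⟩ := h'
  refine ⟨C + C', ?_⟩
  filter_upwards [hC, hC'] with n h1 h2
  calc ‖R n + R' n‖ ≤ ‖R n‖ + ‖R' n‖ := norm_add_le _ _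
    _ ≤ (C + C') * Real.exp (c / τ n) := by rw [add_mul]; exact add_le_add h1 h2

private theorem conn_small (F : Fam) {c : ℝ} {A B : ℂ}
    (h : Conn (fun H => (F.u0 * F.Ψ0 H).re) c A B) :
    Small F.τ c (fun n => F.P n B - F.P n A) ∧ Small F.τ c (fun n => F.Q n B - F.Q n A) := by
  obtain ⟨C, hC⟩ := F.rel h
  exact ⟨⟨C, hC.mono fun n hn => hn.1⟩, ⟨C, hC.mono fun n hn => hn.2⟩⟩

private theorem saddle_big (F : Fam) {c : ℝ} {S v : ℂ} (h : Sad F.u0 F.Ψ0 c S v) :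
    Big F.τ c (fun n => F.P n (S + v) - F.P n (S - v)) ∧
    ∀ ε : ℝ, 0 < ε → ∀ᶠ n in atTop,
      ‖F.Q n (S + v) - F.Q n (S - v) - F.w0 S * (F.P n (S + v) - F.P n (S - v))‖ ≤
        ε * ‖F.P n (S + v) - F.P n (S - v)‖ := by
  obtain ⟨Sn, c0, hc0, hSn, -, hl1, hl2⟩ := F.saddle h
  have hc0' : 0 < ‖c0‖ := norm_pos_iff.2 hc0
  have hD : ∀ n, 0 < ‖(√(F.τ n) : ℂ) * cexp (F.u n * F.Ψ n (Sn n) / F.τ n)‖ := by
    intro n
    rw [norm_pos_iff]
    refine mul_ne_zero ?_ (Complex.exp_ne_zero _)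
    have : √(F.τ n) ≠ 0 := (Real.sqrt_pos.2 (F.hτ n)).ne'
    exact_mod_cast this
  have hDn : ∀ n, ‖(√(F.τ n) : ℂ) * cexp (F.u n * F.Ψ n (Sn n) / F.τ n)‖ =
      √(F.τ n) * Real.exp ((F.u n * F.Ψ n (Sn n)).re / F.τ n) := by
    intro n
    rw [norm_mul, Complex.norm_exp, Complex.div_ofReal_re, Complex.norm_real, Real.norm_eq_abs,
      abs_of_nonneg (Real.sqrt_nonneg _)]
  have hJ : ∀ᶠ n in atTop, ‖c0‖ / 2 * ‖(√(F.τ n) : ℂ) * cexp (F.u n * F.Ψ n (Sn n) / F.τ n)‖ ≤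
      ‖F.P n (S + v) - F.P n (S - v)‖ := by
    have h1 : ∀ᶠ n in atTop, ‖c0‖ / 2 < ‖(F.P n (S + v) - F.P n (S - v)) /
        (√(F.τ n) * cexp (F.u n * F.Ψ n (Sn n) / F.τ n))‖ :=
      hl1.norm.eventually_const_lt (by linarith)
    filter_upwards [h1] with n hn
    rw [norm_div, lt_div_iff₀ (hD n)] at hn
    exact hn.le
  refine ⟨?_, ?_⟩
  · intro ε hε
    have hcont : Continuous F.Ψ0 :=
      F.hΨlim.continuous (Eventually.of_forall fun n => (F.hΨ n).continuous).frequently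
    have hlim : Tendsto (fun n => (F.u n * F.Ψ n (Sn n)).re) atTop (𝓝 c) := by
      have h1 : Tendsto (fun n => F.Ψ n (Sn n)) atTop (𝓝 (F.Ψ0 S)) :=
        F.hΨlim.tendsto_comp hcont.continuousAt hSn
      have h2 := (Complex.continuous_re.tendsto _).comp (F.hulim.mul h1)
      rw [h.height] at h2
      exact h2
    have hre : ∀ᶠ n in atTop, c - ε / 2 < (F.u n * F.Ψ n (Sn n)).re :=
      hlim.eventually_const_lt (by linarith)
    filter_upwards [hJ, hre, ev_sqrt F.hτ F.hτlim (K := ‖c0‖ / 2) (δ := ε / 2) (by positivity)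
      (by positivity)] with n h1 h2 h3
    rw [hDn n] at h1
    refine le_trans ?_ h1
    have h4 : Real.exp ((c - ε / 2) / F.τ n) ≤
        Real.exp ((F.u n * F.Ψ n (Sn n)).re / F.τ n) :=
      Real.exp_le_exp.2 (div_le_div_of_nonneg_right h2.le (F.hτ n).le)
    have h5 : Real.exp ((c - ε / 2) / F.τ n) =
        Real.exp (ε / 2 / F.τ n) * Real.exp ((c - ε) / F.τ n) := by
      rw [← Real.exp_add]
      congr 1
      ring
    calc Real.exp ((c - ε) / F.τ n) = 1 * Real.exp ((c - ε) / F.τ n) := (one_mul _).symm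
      _ ≤ (‖c0‖ / 2 * √(F.τ n) * Real.exp (ε / 2 / F.τ n)) * Real.exp ((c - ε) / F.τ n) :=
          mul_le_mul_of_nonneg_right h3 (Real.exp_pos _).le
      _ = ‖c0‖ / 2 * √(F.τ n) * Real.exp ((c - ε / 2) / F.τ n) := by rw [h5]; ring
      _ ≤ ‖c0‖ / 2 * √(F.τ n) * Real.exp ((F.u n * F.Ψ n (Sn n)).re / F.τ n) :=
          mul_le_mul_of_nonneg_left h4 (by positivity)
      _ = _ := by ring
  · intro ε hε
    have h1 : ∀ᶠ n in atTop, ‖(F.Q n (S + v) - F.Q n (S - v) -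
        F.w0 S * (F.P n (S + v) - F.P n (S - v))) /
        (√(F.τ n) * cexp (F.u n * F.Ψ n (Sn n) / F.τ n))‖ < ε * (‖c0‖ / 2) := by
      refine hl2.norm.eventually_lt_const ?_
      rw [norm_zero]
      positivity
    filter_upwards [h1, hJ] with n h2 h3
    rw [norm_div, div_lt_iff₀ (hD n)] at h2
    calc _ ≤ ε * (‖c0‖ / 2) * ‖(√(F.τ n) : ℂ) * cexp (F.u n * F.Ψ n (Sn n) / F.τ n)‖ := h2.le
      _ = ε * (‖c0‖ / 2 * ‖(√(F.τ n) : ℂ) * cexp (F.u n * F.Ψ n (Sn n) / F.τ n)‖) := by ring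
      _ ≤ _ := mul_le_mul_of_nonneg_left h3 hε.le

theorem chain_nil (F : Fam) {c c' : ℝ} {A B : ℂ} (h : Chain F.u0 F.Ψ0 c c' A [] B) :
    Small F.τ c' (fun n => F.P n B - F.P n A) ∧ Small F.τ c' (fun n => F.Q n B - F.Q n A) := by
  cases h with
  | nil h => exact conn_small F h

theorem chain_one (F : Fam) {c c' : ℝ} (hc : c' < c) {A B S : ℂ}
    (h : Chain F.u0 F.Ψ0 c c' A [S] B) : ∃ J : ℕ → ℂ, Big F.τ c J ∧
      Small F.τ c' (fun n => F.P n B - F.P n A - J n) ∧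
      ∀ ε : ℝ, 0 < ε → ∀ᶠ n in atTop, ‖F.Q n B - F.Q n A - F.w0 S * J n‖ ≤ ε * ‖J n‖ := by
  cases h with
  | @cons _ _ _ v _ h1 h2 h3 =>
    cases h3 with
    | nil h4 =>
      obtain ⟨hB, hQ⟩ := saddle_big F h2
      obtain ⟨p1, q1⟩ := conn_small F h1
      obtain ⟨p4, q4⟩ := conn_small F h4
      refine ⟨fun n => F.P n (S + v) - F.P n (S - v), hB, ?_, ?_⟩
      · obtain ⟨C, hC⟩ := small_add p1 p4
        refine ⟨C, ?_⟩
        filter_upwards [hC] with n hn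
        refine le_trans (le_of_eq ?_) hn
        congr 1
        ring
      · intro ε hε
        filter_upwards [hQ (ε / 2) (by positivity),
          small_big F.hτ F.hτlim hc hB (small_add q1 q4) (η := ε / 2) (by positivity)]
          with n k1 k2
        calc ‖F.Q n B - F.Q n A - F.w0 S * (F.P n (S + v) - F.P n (S - v))‖
            = ‖(F.Q n (S + v) - F.Q n (S - v) - F.w0 S * (F.P n (S + v) - F.P n (S - v))) +
                (F.Q n (S - v) - F.Q n A + (F.Q n B - F.Q n (S + v)))‖ := by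
              congr 1
              ring
          _ ≤ _ := norm_add_le _ _
          _ ≤ _ := add_le_add k1 k2
          _ = ε * ‖F.P n (S + v) - F.P n (S - v)‖ := by ring

theorem chain_two (F : Fam) {c c' : ℝ} (hc : c' < c) {A B S S' : ℂ}
    (h : Chain F.u0 F.Ψ0 c c' A [S, S'] B) : ∃ J J' : ℕ → ℂ, Big F.τ c J ∧ Big F.τ c J' ∧
      Small F.τ c' (fun n => F.P n B - F.P n A - J n - J' n) ∧
      ∀ ε : ℝ, 0 < ε → ∀ᶠ n in atTop,
        ‖F.Q n B - F.Q n A - F.w0 S * J n - F.w0 S' * J' n‖ ≤ ε * (‖J n‖ + ‖J' n‖) := by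
  cases h with
  | @cons _ _ _ v _ h1 h2 h3 =>
    cases h3 with
    | @cons _ _ _ v' _ h4 h5 h6 =>
      cases h6 with
      | nil h7 =>
        obtain ⟨hB, hQ⟩ := saddle_big F h2
        obtain ⟨hB', hQ'⟩ := saddle_big F h5
        obtain ⟨p1, q1⟩ := conn_small F h1
        obtain ⟨p4, q4⟩ := conn_small F h4
        obtain ⟨p7, q7⟩ := conn_small F h7
        refine ⟨fun n => F.P n (S + v) - F.P n (S - v),
          fun n => F.P n (S' + v') - F.P n (S' - v'), hB, hB', ?_, ?_⟩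
        · obtain ⟨C, hC⟩ := small_add (small_add p1 p4) p7
          refine ⟨C, ?_⟩
          filter_upwards [hC] with n hn
          refine le_trans (le_of_eq ?_) hn
          congr 1
          ring
        · intro ε hε
          filter_upwards [hQ (ε / 2) (by positivity), hQ' (ε / 2) (by positivity),
            small_big F.hτ F.hτlim hc hB (small_add (small_add q1 q4) q7) (η := ε / 2)
              (by positivity)] with n k1 k1' k2
          calc ‖F.Q n B - F.Q n A - F.w0 S * (F.P n (S + v) - F.P n (S - v)) -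
                F.w0 S' * (F.P n (S' + v') - F.P n (S' - v'))‖
              = ‖(F.Q n (S + v) - F.Q n (S - v) - F.w0 S * (F.P n (S + v) - F.P n (S - v))) +
                  (F.Q n (S' + v') - F.Q n (S' - v') -
                    F.w0 S' * (F.P n (S' + v') - F.P n (S' - v'))) +
                  (F.Q n (S - v) - F.Q n A + (F.Q n (S' - v') - F.Q n (S + v)) +
                    (F.Q n B - F.Q n (S' + v')))‖ := by
                congr 1
                ring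
            _ ≤ _ := norm_add₃_le
            _ ≤ _ := add_le_add (add_le_add k1 k1') k2
            _ ≤ ε * (‖F.P n (S + v) - F.P n (S - v)‖ + ‖F.P n (S' + v') - F.P n (S' - v')‖) := by
                nlinarith [norm_nonneg (F.P n (S + v) - F.P n (S - v)),
                  norm_nonneg (F.P n (S' + v') - F.P n (S' - v'))]

theorem lin_one {τ : ℕ → ℝ} (hτ : ∀ n, 0 < τ n) (hτ0 : Tendsto τ atTop (𝓝 0)) {c c' : ℝ}
    (hc : c' < c) {J R : ℕ → ℂ} (hJ : Big τ c J) (hR : Small τ c' R) {g : ℂ} (hg : g ≠ 0)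
    (h : ∃ᶠ n in atTop, g * J n + R n = 0) : False := by
  have hg' : 0 < ‖g‖ := norm_pos_iff.2 hg
  have h1 := small_big hτ hτ0 hc hJ hR (η := ‖g‖ / 2) (by positivity)
  obtain ⟨n, hn, h2, h3⟩ := (h.and_eventually (h1.and (big_pos hJ))).exists
  have h4 : ‖g‖ * ‖J n‖ = ‖R n‖ := by
    rw [← norm_mul, eq_neg_of_add_eq_zero_left hn, norm_neg]
  nlinarith [mul_pos hg' h3]

theorem lin_two {τ : ℕ → ℝ} (hτ : ∀ n, 0 < τ n) (hτ0 : Tendsto τ atTop (𝓝 0)) {c c' : ℝ}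
    (hc : c' < c) {J J' R E : ℕ → ℂ} (hJ : Big τ c J) (hJ' : Big τ c J') (hR : Small τ c' R)
    (hE : ∀ ε : ℝ, 0 < ε → ∀ᶠ n in atTop, ‖E n‖ ≤ ε * (‖J n‖ + ‖J' n‖))
    {a b w w' : ℂ} (ha : a ≠ 0) (hb : b ≠ 0) (hw : w ≠ w')
    (h : ∃ᶠ n in atTop, a * J n + b * J' n + R n = 0 ∧
      a * w * J n + b * w' * J' n + E n = 0) : False := by
  have hww : w - w' ≠ 0 := sub_ne_zero.2 hw
  have ha' : 0 < ‖a * (w - w')‖ := norm_pos_iff.2 (mul_ne_zero ha hww)
  have hb' : 0 < ‖b * (w - w')‖ := norm_pos_iff.2 (mul_ne_zero hb hww)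
  have hw1 : 0 < ‖w‖ + 3 := by positivity
  have hw2 : 0 < ‖w'‖ + 3 := by positivity
  obtain ⟨η, hη, hη1, hη2⟩ : ∃ η : ℝ, 0 < η ∧ η * (‖w'‖ + 3) ≤ ‖a * (w - w')‖ ∧
      η * (‖w‖ + 3) ≤ ‖b * (w - w')‖ := by
    refine ⟨min (‖a * (w - w')‖ / (‖w'‖ + 3)) (‖b * (w - w')‖ / (‖w‖ + 3)),
      lt_min (div_pos ha' hw2) (div_pos hb' hw1), ?_, ?_⟩
    · rw [← le_div_iff₀ hw2]
      exact min_le_left _ _
    · rw [← le_div_iff₀ hw1]
      exact min_le_right _ _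
  obtain ⟨n, ⟨e1, e2⟩, r1, r2, r3, j1, j2⟩ := (h.and_eventually
    ((small_big hτ hτ0 hc hJ hR hη).and ((small_big hτ hτ0 hc hJ' hR hη).and
      ((hE η hη).and ((big_pos hJ).and (big_pos hJ')))))).exists
  rcases le_total ‖J' n‖ ‖J n‖ with hle | hle
  · have h1 : a * (w - w') * J n = w' * R n - E n := by linear_combination e2 - w' * e1
    have h2 : ‖a * (w - w')‖ * ‖J n‖ ≤ ‖w'‖ * ‖R n‖ + ‖E n‖ := by
      rw [← norm_mul, h1, ← norm_mul]
      exact norm_sub_le _ _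
    have h3 : ‖w'‖ * ‖R n‖ ≤ ‖w'‖ * (η * ‖J n‖) := mul_le_mul_of_nonneg_left r1 (norm_nonneg _)
    have h4 : η * (‖J n‖ + ‖J' n‖) ≤ η * (‖J n‖ + ‖J n‖) :=
      mul_le_mul_of_nonneg_left (by linarith) hη.le
    have h5 : η * (‖w'‖ + 3) * ‖J n‖ ≤ ‖a * (w - w')‖ * ‖J n‖ :=
      mul_le_mul_of_nonneg_right hη1 j1.le
    nlinarith [mul_pos hη j1]
  · have h1 : b * (w - w') * J' n = -(w * R n - E n) := by linear_combination w * e1 - e2
    have h2 : ‖b * (w - w')‖ * ‖J' n‖ ≤ ‖w‖ * ‖R n‖ + ‖E n‖ := by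
      rw [← norm_mul, h1, norm_neg, ← norm_mul]
      exact norm_sub_le _ _
    have h3 : ‖w‖ * ‖R n‖ ≤ ‖w‖ * (η * ‖J' n‖) := mul_le_mul_of_nonneg_left r2 (norm_nonneg _)
    have h4 : η * (‖J n‖ + ‖J' n‖) ≤ η * (‖J' n‖ + ‖J' n‖) :=
      mul_le_mul_of_nonneg_left (by linarith) hη.le
    have h5 : η * (‖w‖ + 3) * ‖J' n‖ ≤ ‖b * (w - w')‖ * ‖J' n‖ :=
      mul_le_mul_of_nonneg_right hη2 j2.le
    nlinarith [mul_pos hη j2]

end SokamV

end

/-! ### Lib_MP_af4de1_v.Tail -/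

section
/-!
# The tails [SV-TAIL]

`1/t = (a+ib)/‖t‖`, `a = Re t/‖t‖ ≥ 0`, `b = -Im t/‖t‖ ≥ 0`, `a²+b² = 1`, so `a + b ≥ 1`.
`‖t‖ Re(Ph ζ (1+sI)/t) = a(1-s²)/2 - bs + Re(u ζ e^{1+sI}) ≤ 1/2 + e‖ζ‖ - s/2` for `s ≥ 1` (`as²/2 + bs ≥ (a+b)s/2`), and
`‖t‖ Re(Ph ζ (-1+sI)/t) ≤ 1/2 + ‖ζ‖ - |s|/2` for `s ≤ -1`.  So for `R ≥ 1` the tails are `≤ 2‖t‖ exp((1/2+e‖ζ‖-R/2)/‖t‖)`, times
`e‖ζ‖` with the factor `ζe^H`.
-/

namespace SokamV

open Complex MeasureTheory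

/-- The integral of an exponentially small function. -/
private lemma int_bound {f : ℝ → ℂ} {A T R K : ℝ} (hT : 0 < T)
    (h : ∀ s : ℝ, R < s → ‖f s‖ ≤ K * Real.exp ((A - s / 2) / T)) :
    ‖∫ s in Set.Ioi R, f s‖ ≤ K * (2 * T * Real.exp ((A - R / 2) / T)) := by
  have ha : -(1 / (2 * T)) < 0 := by
    have : 0 < 1 / (2 * T) := by positivity
    linarith
  have hsplit : ∀ s : ℝ, K * Real.exp ((A - s / 2) / T) =
      (K * Real.exp (A / T)) * Real.exp (-(1 / (2 * T)) * s) := by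
    intro s
    rw [mul_assoc, ← Real.exp_add]
    congr 2
    field_simp
    ring
  have hint : IntegrableOn (fun s : ℝ => (K * Real.exp (A / T)) * Real.exp (-(1 / (2 * T)) * s))
      (Set.Ioi R) := (integrableOn_exp_mul_Ioi ha R).const_mul _
  have h1 : ‖∫ s in Set.Ioi R, f s‖ ≤
      ∫ s in Set.Ioi R, (K * Real.exp (A / T)) * Real.exp (-(1 / (2 * T)) * s) := by
    refine norm_integral_le_of_norm_le hint ?_
    refine (ae_restrict_iff' measurableSet_Ioi).mpr (Filter.Eventually.of_forall fun s hs => ?_)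
    rw [← hsplit]
    exact h s hs
  refine h1.trans (le_of_eq ?_)
  rw [integral_const_mul, integral_exp_mul_Ioi ha]
  have h2 : -Real.exp (-(1 / (2 * T)) * R) / -(1 / (2 * T)) =
      2 * T * Real.exp (-(1 / (2 * T)) * R) := by
    rw [neg_div_neg_eq, div_div_eq_mul_div]
    ring
  have h3 := hsplit R
  rw [h2]
  calc K * Real.exp (A / T) * (2 * T * Real.exp (-(1 / (2 * T)) * R))
      = 2 * T * ((K * Real.exp (A / T)) * Real.exp (-(1 / (2 * T)) * R)) := by ring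
    _ = K * (2 * T * Real.exp ((A - R / 2) / T)) := by
      rw [← h3]
      ring

/-- The height on the two verticals. -/
private lemma re_bound {t ζ H : ℂ} (ht : t ≠ 0) (hre : 0 ≤ t.re) (him : t.im ≤ 0) {s : ℝ}
    (hs : 1 ≤ s) (hH : H ^ (2 : ℕ) = (1 + s * I) ^ (2 : ℕ)) (hH1 : H.re ≤ 1) :
    (Ph ζ H / t).re ≤ (1 / 2 + 3 * ‖ζ‖ - s / 2) / ‖t‖ := by
  have hn : 0 < ‖t‖ := norm_pos_iff.mpr ht
  have he : Real.exp H.re ≤ 3 := by
    have h1 : Real.exp H.re ≤ Real.exp 1 := Real.exp_le_exp.mpr hH1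
    have h2 := Real.exp_one_lt_d9
    linarith
  have h1 : (ζ * cexp H / t).re ≤ 3 * ‖ζ‖ / ‖t‖ := by
    refine (re_le_norm _).trans ?_
    rw [norm_div, norm_mul, norm_exp]
    have h2 : ‖ζ‖ * Real.exp H.re ≤ 3 * ‖ζ‖ := by nlinarith only [he, norm_nonneg ζ]
    exact div_le_div_of_nonneg_right h2 hn.le
  have hsq : ‖t‖ ^ (2 : ℕ) = t.re ^ (2 : ℕ) + t.im ^ (2 : ℕ) := by
    rw [← normSq_eq_norm_sq, normSq_apply]
    ring
  have h2 : (H ^ (2 : ℕ) / 2 / t).re = ((1 - s ^ (2 : ℕ)) / 2 * t.re + s * t.im) / ‖t‖ ^ (2 : ℕ) := by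
    rw [hH]
    have h3 : ((1 + (s : ℂ) * I) ^ (2 : ℕ) / 2 : ℂ) = (((1 - s ^ (2 : ℕ)) / 2 : ℝ) : ℂ) + (s : ℝ) * I := by
      have hI : I ^ (2 : ℕ) = -1 := I_sq
      push_cast
      linear_combination (s : ℂ) ^ (2 : ℕ) / 2 * hI
    rw [h3, div_re]
    simp only [add_re, ofReal_re, mul_re, I_re, mul_zero, ofReal_im, I_im, mul_one, sub_self,
      add_zero, add_im, mul_im, zero_add]
    rw [normSq_eq_norm_sq]
    ring
  have h4 : t.re ≤ ‖t‖ := re_le_norm t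
  have h5 : ‖t‖ ≤ t.re - t.im := by
    refine abs_le_of_sq_le_sq' ?_ (by linarith) |>.2
    rw [hsq]
    linarith only [mul_nonneg hre (neg_nonneg.mpr him)]
  have h6 : (1 - s ^ (2 : ℕ)) / 2 * t.re + s * t.im ≤ (1 / 2 - s / 2) * ‖t‖ := by
    have h7 : 0 ≤ (s - 1) * s * t.re := by
      have : 0 ≤ s - 1 := by linarith
      positivity
    have h8 : 0 ≤ s * (-t.im) := mul_nonneg (by linarith) (by linarith)
    have h9 : s * ‖t‖ ≤ s * (t.re - t.im) := mul_le_mul_of_nonneg_left h5 (by linarith)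
    linarith only [h4, h7, h8, h9]
  have h7 : (H ^ (2 : ℕ) / 2 / t).re ≤ (1 / 2 - s / 2) / ‖t‖ := by
    rw [h2, div_le_div_iff₀ (by positivity) hn]
    have h8 := mul_le_mul_of_nonneg_right h6 hn.le
    linarith only [h8]
  have h8 : Ph ζ H / t = H ^ (2 : ℕ) / 2 / t + ζ * cexp H / t := by
    unfold Ph
    rw [add_div]
  rw [h8, add_re]
  have h9 : (1 / 2 + 3 * ‖ζ‖ - s / 2) / ‖t‖ = (1 / 2 - s / 2) / ‖t‖ + 3 * ‖ζ‖ / ‖t‖ := by
    rw [← add_div]
    ring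
  rw [h9]
  exact add_le_add h7 h1

private lemma two_bounds {t ζ H : ℂ} (ht : t ≠ 0) (hre : 0 ≤ t.re) (him : t.im ≤ 0) {s : ℝ}
    (hs : 1 ≤ s) (hH : H ^ (2 : ℕ) = (1 + s * I) ^ (2 : ℕ)) (hH1 : H.re ≤ 1) :
    ‖cexp (Ph ζ H / t)‖ ≤ 1 * Real.exp ((1 / 2 + 3 * ‖ζ‖ - s / 2) / ‖t‖) ∧
    ‖ζ * cexp H * cexp (Ph ζ H / t)‖ ≤
      3 * ‖ζ‖ * Real.exp ((1 / 2 + 3 * ‖ζ‖ - s / 2) / ‖t‖) := by
  have h1 : ‖cexp (Ph ζ H / t)‖ ≤ Real.exp ((1 / 2 + 3 * ‖ζ‖ - s / 2) / ‖t‖) := by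
    rw [norm_exp]
    exact Real.exp_le_exp.mpr (re_bound ht hre him hs hH hH1)
  have he : Real.exp H.re ≤ 3 := by
    have h1 : Real.exp H.re ≤ Real.exp 1 := Real.exp_le_exp.mpr hH1
    have h2 := Real.exp_one_lt_d9
    linarith
  refine ⟨by rw [one_mul]; exact h1, ?_⟩
  rw [norm_mul]
  refine mul_le_mul ?_ h1 (norm_nonneg _) (by positivity)
  rw [norm_mul, norm_exp]
  nlinarith only [he, norm_nonneg ζ]

theorem tail_pos {t ζ : ℂ} (ht : t ≠ 0) (hre : 0 ≤ t.re) (him : t.im ≤ 0) {R : ℝ} (hR : 1 ≤ R) :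
    ‖∫ s in Set.Ioi R, cexp (Ph ζ (1 + s * I) / t)‖ ≤
      2 * ‖t‖ * Real.exp ((1 / 2 + 3 * ‖ζ‖ - R / 2) / ‖t‖) ∧
    ‖∫ s in Set.Ioi R, ζ * cexp (1 + s * I) * cexp (Ph ζ (1 + s * I) / t)‖ ≤
      6 * ‖ζ‖ * ‖t‖ * Real.exp ((1 / 2 + 3 * ‖ζ‖ - R / 2) / ‖t‖) := by
  have hn : 0 < ‖t‖ := norm_pos_iff.mpr ht
  have hb : ∀ s : ℝ, R < s → _ := fun s hs =>
    two_bounds (ζ := ζ) (H := 1 + s * I) ht hre him (s := s) (by linarith) rfl (by simp)
  constructor
  · have h1 := int_bound (f := fun s : ℝ => cexp (Ph ζ (1 + s * I) / t)) hn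
      fun s hs => (hb s hs).1
    rw [one_mul] at h1
    exact h1
  · have h1 := int_bound (f := fun s : ℝ => ζ * cexp (1 + s * I) * cexp (Ph ζ (1 + s * I) / t)) hn
      fun s hs => (hb s hs).2
    refine h1.trans (le_of_eq ?_)
    ring

theorem tail_neg {t ζ : ℂ} (ht : t ≠ 0) (hre : 0 ≤ t.re) (him : t.im ≤ 0) {R : ℝ} (hR : 1 ≤ R) :
    ‖∫ s in Set.Iio (-R), cexp (Ph ζ (-1 + s * I) / t)‖ ≤
      2 * ‖t‖ * Real.exp ((1 / 2 + 3 * ‖ζ‖ - R / 2) / ‖t‖) ∧
    ‖∫ s in Set.Iio (-R), ζ * cexp (-1 + s * I) * cexp (Ph ζ (-1 + s * I) / t)‖ ≤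
      6 * ‖ζ‖ * ‖t‖ * Real.exp ((1 / 2 + 3 * ‖ζ‖ - R / 2) / ‖t‖) := by
  have hn : 0 < ‖t‖ := norm_pos_iff.mpr ht
  have hb : ∀ s : ℝ, R < s → _ := fun s hs =>
    two_bounds (ζ := ζ) (H := -1 + ((-s : ℝ) : ℂ) * I) ht hre him (s := s) (by linarith)
      (by push_cast; ring) (by simp)
  constructor
  · rw [← integral_Iic_eq_integral_Iio, ← integral_comp_neg_Ioi]
    have h1 := int_bound (f := fun s : ℝ => cexp (Ph ζ (-1 + ((-s : ℝ) : ℂ) * I) / t)) hn
      fun s hs => (hb s hs).1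
    rw [one_mul] at h1
    exact h1
  · rw [← integral_Iic_eq_integral_Iio, ← integral_comp_neg_Ioi]
    have h1 := int_bound (f := fun s : ℝ => ζ * cexp (-1 + ((-s : ℝ) : ℂ) * I) *
        cexp (Ph ζ (-1 + ((-s : ℝ) : ℂ) * I) / t)) hn
      fun s hs => (hb s hs).2
    refine h1.trans (le_of_eq ?_)
    ring

end SokamV

end

/-! ### Lib_MP_af4de1_v.TipDefs -/

section
/-!
# The tip: definitions

At `ζ = -1/e` the saddle point `H = 1` is double: with `h = H - 1`, `v = 1 + eζ`,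
`Ph ζ (1+h) = -1/2 + v + vh - h³/6 + O(|h|⁴ + |v||h|²)`.
-/

namespace SokamV

open Complex Filter Topology MeasureTheory

/-- Upper valley direction of `-u h³/6`. -/
noncomputable def ep (u : ℂ) : ℂ := cexp ((2 * Real.pi / 3 - u.arg / 3) * I)

/-- Lower valley direction. -/
noncomputable def em (u : ℂ) : ℂ := cexp ((-(2 * Real.pi / 3) - u.arg / 3) * I)

/-- The contour from infinity to the tip. -/
def TipConn (u : ℂ) : Prop := ∃ ρ0 : ℝ, 0 < ρ0 ∧ ∀ ρ : ℝ, 0 < ρ → ρ ≤ ρ0 →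
  ∃ c' < -u.re / 2, ∃ R0 : ℝ, ∀ R : ℝ, R0 ≤ R →
    Conn (Gh u (-cexp (-1))) c' (-1 - R * I) (1 + ρ * em u) ∧
    Conn (Gh u (-cexp (-1))) c' (1 + ρ * ep u) (1 + R * I)

/-- The offset from the tip. -/
noncomputable def off (ζ : ℂ) : ℂ := 1 + cexp 1 * ζ

/-- The size at the tip. -/
noncomputable def sz (t ζ : ℂ) : ℂ := cexp ((-1 / 2 + off ζ) / t)

/-- The Airy integral, `2πi Ai`. -/
noncomputable def Ai (x : ℂ) : ℂ :=
  (∫ s in Set.Ioi (0 : ℝ), cexp (x * (cexp (2 * Real.pi * I / 3) * s) - s ^ (3 : ℕ) / 3)) *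
      cexp (2 * Real.pi * I / 3) -
    (∫ s in Set.Ioi (0 : ℝ), cexp (x * (cexp (-(2 * Real.pi * I / 3)) * s) - s ^ (3 : ℕ) / 3)) *
      cexp (-(2 * Real.pi * I / 3))

/-- Its derivative. -/
noncomputable def Ad (x : ℂ) : ℂ :=
  (∫ s in Set.Ioi (0 : ℝ), s * cexp (x * (cexp (2 * Real.pi * I / 3) * s) - s ^ (3 : ℕ) / 3)) *
      cexp (2 * Real.pi * I / 3) ^ (2 : ℕ) -
    (∫ s in Set.Ioi (0 : ℝ), s * cexp (x * (cexp (-(2 * Real.pi * I / 3)) * s) - s ^ (3 : ℕ) / 3)) *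
      cexp (-(2 * Real.pi * I / 3)) ^ (2 : ℕ)

/-- The limit phase at the scale `√|v|`. -/
noncomputable def Cu (v s : ℂ) : ℂ := v * s - s ^ (3 : ℕ) / 6

end SokamV

end

/-! ### Lib_MP_af4de1_v.Airy -/

section
/-!
# Zeros of the Airy integral [SV-AIRY]

`ω = cexp(2πI/3)`, `ω³ = 1`, `Re ω = Re ω⁻¹ = -1/2`.  Differentiation under the integral sign (`|∂| ≤ s exp(R s - s³/3)` locally): `Ai' = Ad`,
`Ad'(x) = (∫ s² e^{xωs-s³/3}) ω³ - (∫ s² e^{xω⁻¹s-s³/3}) ω⁻³`, and `∫_0^∞ (xω - s²) e^{xωs-s³/3} ds = -1` (fundamental theorem), so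
`∫ s² e^{xωs-s³/3} = 1 + xω∫e^{…}`; the two `1`'s cancel: `Ad' = x Ai`.
`Ai 0 = (ω - ω⁻¹)∫_0^∞ e^{-s³/3} ds ≠ 0`.
`airy_simple`: if `Ai x = 0 = Ad x`, Gronwall for the linear system `(y,y')' = (y', xy)` along the segment
from `x` to `0`: contradiction.
`airy_zero`: `y(s) = Ai(x+s)`, `s ≥ 0`; `y, y' → 0`.
`d/ds (conj y · y') = |y'|² + (x+s)|y|²`.  Imaginary part: `d/ds Im(conj y y') = Im x |y|²`; `Im(conj y y')` is `0` at `s = 0` and tends to `0`: it is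
monotone, so `Im x · |y|² = 0`, `y ≠ 0` somewhere: `Im x = 0`.  If `x ≥ 0`: `Re(conj y y')` is nondecreasing, `0` at `0` and at `∞`, so its derivative
`|y'|² + (x+s)|y|²` is `0`: contradiction.
-/

namespace SokamV

open Complex Filter Topology MeasureTheory

private noncomputable def K (c : ℂ) (n : ℕ) (x : ℂ) : ℂ :=
  ∫ s in Set.Ioi (0 : ℝ), (s : ℂ) ^ n * cexp (x * (c * s) - s ^ (3 : ℕ) / 3)

private theorem aux_bound (R : ℝ) (m : ℕ) : ∃ C : ℝ, 0 ≤ C ∧ ∀ s : ℝ, 0 ≤ s →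
    s ^ m * Real.exp (R * s - s ^ (3 : ℕ) / 3) ≤ C * Real.exp (-s) := by
  set A : ℝ := |R| + 2 with hA
  have hA0 : 0 ≤ A := by positivity
  refine ⟨m.factorial * Real.exp (3 * A * (1 + A)), by positivity, fun s hs => ?_⟩
  have h1 : s ^ m ≤ m.factorial * Real.exp s := by
    have := Real.pow_div_factorial_le_exp s hs m
    rw [div_le_iff₀ (by positivity)] at this
    linarith
  have h2 : A * s - s ^ (3 : ℕ) / 3 ≤ 3 * A * (1 + A) := by
    by_cases h : s ≤ 3 * (1 + A)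
    · have h3 : 0 ≤ s ^ (3 : ℕ) := by positivity
      have h4 : A * s ≤ A * (3 * (1 + A)) := mul_le_mul_of_nonneg_left h hA0
      linarith
    · push Not at h
      have h3 : (3 * (1 + A)) ^ (2 : ℕ) ≤ s ^ (2 : ℕ) := by
        apply pow_le_pow_left₀ (by positivity) h.le
      have h4 : A * 3 ≤ s ^ (2 : ℕ) := by nlinarith only [h3]
      have h5 : A * s * 3 ≤ s ^ (3 : ℕ) := by
        have := mul_le_mul_of_nonneg_right h4 hs
        linarith only [this]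
      have h6 : 0 ≤ 3 * A * (1 + A) := by positivity
      linarith
  have h3 : R ≤ |R| := le_abs_self R
  have h4 : R * s + s + s ≤ A * s := by rw [hA]; nlinarith only [hs, h3]
  calc s ^ m * Real.exp (R * s - s ^ (3 : ℕ) / 3)
      ≤ (m.factorial * Real.exp s) * Real.exp (R * s - s ^ (3 : ℕ) / 3) :=
        mul_le_mul_of_nonneg_right h1 (Real.exp_pos _).le
    _ = m.factorial * (Real.exp s * Real.exp (R * s - s ^ (3 : ℕ) / 3)) := by ring
    _ = m.factorial * Real.exp (s + (R * s - s ^ (3 : ℕ) / 3)) := by rw [Real.exp_add]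
    _ ≤ m.factorial * Real.exp (3 * A * (1 + A) + (-s)) := by
        apply mul_le_mul_of_nonneg_left _ (by positivity)
        apply Real.exp_le_exp.2
        linarith
    _ = m.factorial * Real.exp (3 * A * (1 + A)) * Real.exp (-s) := by
        rw [Real.exp_add]; ring

private theorem norm_term (c x : ℂ) (n : ℕ) {s : ℝ} (hs : 0 ≤ s) :
    ‖(s : ℂ) ^ n * cexp (x * (c * s) - s ^ (3 : ℕ) / 3)‖ =
      s ^ n * Real.exp ((x * c).re * s - s ^ (3 : ℕ) / 3) := by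
  rw [norm_mul, norm_pow, Complex.norm_real, Real.norm_eq_abs, abs_of_nonneg hs,
    Complex.norm_exp]
  congr 2
  have h1 : (s : ℂ) ^ (3 : ℕ) / 3 = ((s ^ (3 : ℕ) / 3 : ℝ) : ℂ) := by push_cast; ring
  have h2 : x * (c * s) = (x * c) * (s : ℂ) := by ring
  rw [h1, h2, Complex.sub_re, Complex.ofReal_re, Complex.re_mul_ofReal]

private theorem norm_term_le (c x : ℂ) (n : ℕ) {R s : ℝ} (hs : 0 ≤ s) (hR : ‖x * c‖ ≤ R) :
    ‖(s : ℂ) ^ n * cexp (x * (c * s) - s ^ (3 : ℕ) / 3)‖ ≤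
      s ^ n * Real.exp (R * s - s ^ (3 : ℕ) / 3) := by
  rw [norm_term c x n hs]
  apply mul_le_mul_of_nonneg_left _ (by positivity)
  apply Real.exp_le_exp.2
  have : (x * c).re ≤ R := (Complex.re_le_norm _).trans hR
  nlinarith

private theorem cont_term (c x : ℂ) (n : ℕ) :
    Continuous fun s : ℝ => (s : ℂ) ^ n * cexp (x * (c * s) - s ^ (3 : ℕ) / 3) := by
  fun_prop

private theorem bound_int (R : ℝ) (n : ℕ) :
    IntegrableOn (fun s : ℝ => s ^ n * Real.exp (R * s - s ^ (3 : ℕ) / 3)) (Set.Ioi 0) := by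
  obtain ⟨C, hC, h⟩ := aux_bound R n
  have h1 : IntegrableOn (fun s : ℝ => C * Real.exp (-s)) (Set.Ioi 0) :=
    (integrableOn_exp_neg_Ioi 0).const_mul C
  refine Integrable.mono' h1 ?_ ?_
  · exact (by fun_prop : Continuous fun s : ℝ => s ^ n * Real.exp (R * s - s ^ (3 : ℕ) / 3)).aestronglyMeasurable
  · refine (ae_restrict_iff' measurableSet_Ioi).2 (Eventually.of_forall fun s hs => ?_)
    have hs' : 0 ≤ s := le_of_lt hs
    rw [Real.norm_of_nonneg (by positivity)]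
    exact h s hs'

private theorem term_int (c x : ℂ) (n : ℕ) :
    IntegrableOn (fun s : ℝ => (s : ℂ) ^ n * cexp (x * (c * s) - s ^ (3 : ℕ) / 3)) (Set.Ioi 0) := by
  refine Integrable.mono' (bound_int ‖x * c‖ n) (cont_term c x n).aestronglyMeasurable ?_
  refine (ae_restrict_iff' measurableSet_Ioi).2 (Eventually.of_forall fun s hs => ?_)
  exact norm_term_le c x n (le_of_lt hs) le_rfl

private theorem hasDerivAt_K (c : ℂ) (n : ℕ) (x : ℂ) :
    HasDerivAt (K c n) (c * K c (n + 1) x) x := by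
  have key := hasDerivAt_integral_of_dominated_loc_of_deriv_le
    (μ := volume.restrict (Set.Ioi (0 : ℝ)))
    (F := fun (x : ℂ) (s : ℝ) => (s : ℂ) ^ n * cexp (x * (c * s) - s ^ (3 : ℕ) / 3))
    (F' := fun (x : ℂ) (s : ℝ) => c * ((s : ℂ) ^ (n + 1) * cexp (x * (c * s) - s ^ (3 : ℕ) / 3)))
    (x₀ := x) (s := Metric.ball x 1)
    (bound := fun s : ℝ => ‖c‖ * (s ^ (n + 1) *
      Real.exp (((‖x‖ + 1) * ‖c‖) * s - s ^ (3 : ℕ) / 3)))
    (Metric.ball_mem_nhds x one_pos)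
    (Eventually.of_forall fun y => (cont_term c y n).aestronglyMeasurable)
    (term_int c x n)
    ((cont_term c x (n + 1)).const_smul c).aestronglyMeasurable
    ?_ ((bound_int _ (n + 1)).const_mul ‖c‖) ?_
  · have h : HasDerivAt (K c n) (∫ s in Set.Ioi (0 : ℝ),
        c * ((s : ℂ) ^ (n + 1) * cexp (x * (c * s) - s ^ (3 : ℕ) / 3))) x := key.2
    exact h.congr_deriv (integral_const_mul _ _)
  · refine (ae_restrict_iff' measurableSet_Ioi).2 (Eventually.of_forall fun s hs y hy => ?_)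
    rw [norm_mul]
    apply mul_le_mul_of_nonneg_left _ (norm_nonneg c)
    apply norm_term_le c y (n + 1) (le_of_lt hs)
    rw [norm_mul]
    apply mul_le_mul_of_nonneg_right _ (norm_nonneg c)
    have h1 : ‖y - x‖ < 1 := by simpa [dist_eq_norm] using hy
    have h2 := norm_add_le (y - x) x
    rw [sub_add_cancel] at h2
    linarith
  · refine (ae_restrict_iff' measurableSet_Ioi).2 (Eventually.of_forall fun s hs y hy => ?_)
    have h1 : HasDerivAt (fun y : ℂ => y * (c * s) - (s : ℂ) ^ (3 : ℕ) / 3) (c * s) y := by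
      simpa using ((hasDerivAt_id y).mul_const (c * (s : ℂ))).sub_const ((s : ℂ) ^ (3 : ℕ) / 3)
    have h2 := (h1.cexp).const_mul ((s : ℂ) ^ n)
    refine h2.congr_deriv ?_
    ring

private theorem K_two (c x : ℂ) : K c 2 x = 1 + x * c * K c 0 x := by
  have hd : ∀ s ∈ Set.Ici (0 : ℝ), HasDerivAt (fun s : ℝ => cexp (x * (c * s) - (s : ℂ) ^ (3 : ℕ) / 3))
      ((x * c - (s : ℂ) ^ (2 : ℕ)) * cexp (x * (c * s) - (s : ℂ) ^ (3 : ℕ) / 3)) s := by
    intro s _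
    have h0 : HasDerivAt (fun s : ℝ => (s : ℂ)) 1 s := Complex.ofRealCLM.hasDerivAt
    have h1 : HasDerivAt (fun s : ℝ => x * (c * s) - (s : ℂ) ^ (3 : ℕ) / 3) (x * c - (s : ℂ) ^ (2 : ℕ)) s := by
      have h2 := ((h0.const_mul c).const_mul x).sub ((h0.pow 3).div_const 3)
      refine h2.congr_deriv ?_
      simp
    refine (h1.cexp).congr_deriv ?_
    ring
  have hi0 := term_int c x 0
  have hi2 := term_int c x 2
  have hi : IntegrableOn (fun s : ℝ => (x * c - (s : ℂ) ^ (2 : ℕ)) *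
      cexp (x * (c * s) - (s : ℂ) ^ (3 : ℕ) / 3)) (Set.Ioi 0) := by
    have h3 := (hi0.const_mul (x * c)).sub hi2
    refine h3.congr (Eventually.of_forall fun s => ?_)
    simp
    ring
  have ht : Tendsto (fun s : ℝ => cexp (x * (c * s) - (s : ℂ) ^ (3 : ℕ) / 3)) atTop (𝓝 0) := by
    rw [tendsto_zero_iff_norm_tendsto_zero]
    obtain ⟨C, hC, h⟩ := aux_bound ‖x * c‖ 0
    have h4 : Tendsto (fun s : ℝ => C * Real.exp (-s)) atTop (𝓝 0) := by
      simpa using (Real.tendsto_exp_neg_atTop_nhds_zero).const_mul C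
    refine squeeze_zero' (Eventually.of_forall fun s => norm_nonneg _) ?_ h4
    filter_upwards [eventually_ge_atTop 0] with s hs
    have h5 := (norm_term_le c x 0 hs le_rfl).trans (h s hs)
    simpa using h5
  have hfin := integral_Ioi_of_hasDerivAt_of_tendsto' hd hi ht
  have e1 : (∫ s in Set.Ioi (0 : ℝ), (x * c - (s : ℂ) ^ (2 : ℕ)) *
      cexp (x * (c * s) - (s : ℂ) ^ (3 : ℕ) / 3)) = x * c * K c 0 x - K c 2 x := by
    unfold K
    rw [← integral_const_mul, ← integral_sub (hi0.const_mul (x * c)) hi2]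
    refine integral_congr_ae (Eventually.of_forall fun s => ?_)
    simp
    ring
  rw [e1] at hfin
  have e2 : cexp (x * (c * ((0 : ℝ) : ℂ)) - ((0 : ℝ) : ℂ) ^ (3 : ℕ) / 3) = 1 := by simp
  rw [e2] at hfin
  linear_combination -hfin

private theorem w_cube : cexp (2 * Real.pi * I / 3) ^ (3 : ℕ) = 1 := by
  rw [← Complex.exp_nat_mul]
  have : ((3 : ℕ) : ℂ) * (2 * Real.pi * I / 3) = 2 * Real.pi * I := by push_cast; ring
  rw [this, Complex.exp_two_pi_mul_I]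

private theorem w_cube' : cexp (-(2 * Real.pi * I / 3)) ^ (3 : ℕ) = 1 := by
  rw [Complex.exp_neg, inv_pow, w_cube, inv_one]

private theorem Ai_eq (x : ℂ) : Ai x = K (cexp (2 * Real.pi * I / 3)) 0 x * cexp (2 * Real.pi * I / 3) -
    K (cexp (-(2 * Real.pi * I / 3))) 0 x * cexp (-(2 * Real.pi * I / 3)) := by
  unfold Ai K
  simp

private theorem Ad_eq (x : ℂ) : Ad x =
    K (cexp (2 * Real.pi * I / 3)) 1 x * cexp (2 * Real.pi * I / 3) ^ (2 : ℕ) -
    K (cexp (-(2 * Real.pi * I / 3))) 1 x * cexp (-(2 * Real.pi * I / 3)) ^ (2 : ℕ) := by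
  unfold Ad K
  simp

theorem hasDerivAt_Ai (x : ℂ) : HasDerivAt Ai (Ad x) x := by
  have h : Ai = fun x => K (cexp (2 * Real.pi * I / 3)) 0 x * cexp (2 * Real.pi * I / 3) -
    K (cexp (-(2 * Real.pi * I / 3))) 0 x * cexp (-(2 * Real.pi * I / 3)) := funext Ai_eq
  rw [h, Ad_eq]
  refine (((hasDerivAt_K _ 0 x).mul_const _).sub ((hasDerivAt_K _ 0 x).mul_const _)).congr_deriv ?_
  ring

theorem hasDerivAt_Ad (x : ℂ) : HasDerivAt Ad (x * Ai x) x := by
  have h : Ad = fun x => K (cexp (2 * Real.pi * I / 3)) 1 x * cexp (2 * Real.pi * I / 3) ^ (2 : ℕ) -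
    K (cexp (-(2 * Real.pi * I / 3))) 1 x * cexp (-(2 * Real.pi * I / 3)) ^ (2 : ℕ) := funext Ad_eq
  rw [h, Ai_eq]
  refine (((hasDerivAt_K _ 1 x).mul_const _).sub ((hasDerivAt_K _ 1 x).mul_const _)).congr_deriv ?_
  have e1 := w_cube
  have e2 := w_cube'
  have k1 := K_two (cexp (2 * Real.pi * I / 3)) x
  have k2 := K_two (cexp (-(2 * Real.pi * I / 3))) x
  rw [show (1 + 1 : ℕ) = 2 from rfl, k1, k2]
  linear_combination (1 + x * cexp (2 * Real.pi * I / 3) * K (cexp (2 * Real.pi * I / 3)) 0 x) * e1 -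
    (1 + x * cexp (-(2 * Real.pi * I / 3)) * K (cexp (-(2 * Real.pi * I / 3))) 0 x) * e2

theorem Ai_zero_ne : Ai 0 ≠ 0 := by
  have h1 : Ai 0 = ((∫ s in Set.Ioi (0 : ℝ), Real.exp (-(s ^ (3 : ℕ) / 3)) : ℝ) : ℂ) *
      (cexp (2 * Real.pi * I / 3) - cexp (-(2 * Real.pi * I / 3))) := by
    unfold Ai
    have e : (∫ s in Set.Ioi (0 : ℝ), cexp (-((s : ℂ) ^ (3 : ℕ) / 3))) =
        ((∫ s in Set.Ioi (0 : ℝ), Real.exp (-(s ^ (3 : ℕ) / 3)) : ℝ) : ℂ) := by
      rw [← integral_complex_ofReal]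
      refine integral_congr_ae (Eventually.of_forall fun s => ?_)
      simp
    simp only [zero_mul, zero_sub]
    rw [e]
    ring
  rw [h1]
  refine mul_ne_zero ?_ ?_
  · rw [Complex.ofReal_ne_zero]
    apply ne_of_gt
    have hi : IntegrableOn (fun s : ℝ => Real.exp (-(s ^ (3 : ℕ) / 3))) (Set.Ioi 0) := by
      have := bound_int 0 0
      refine this.congr (Eventually.of_forall fun s => ?_)
      simp
    rw [integral_pos_iff_support_of_nonneg (fun s => (Real.exp_pos _).le) hi]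
    have hs : Function.support (fun s : ℝ => Real.exp (-(s ^ (3 : ℕ) / 3))) = Set.univ := by
      ext s; simp [(Real.exp_pos _).ne']
    rw [hs, Measure.restrict_apply_univ, Real.volume_Ioi]
    exact ENNReal.zero_lt_top
  · have h2 : (cexp (2 * Real.pi * I / 3) - cexp (-(2 * Real.pi * I / 3))) =
        2 * I * Complex.sin (2 * Real.pi / 3) := by
      have e1 : cexp (2 * Real.pi * I / 3) = cexp ((2 * Real.pi / 3) * I) := by congr 1; ring
      have e2 : cexp (-(2 * Real.pi * I / 3)) = cexp (-(2 * Real.pi / 3) * I) := by congr 1; ring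
      rw [e1, e2, Complex.sin]
      ring_nf
      rw [Complex.I_sq]
      ring
    rw [h2]
    refine mul_ne_zero (mul_ne_zero two_ne_zero Complex.I_ne_zero) ?_
    have h3 : Complex.sin (2 * Real.pi / 3) = ((Real.sin (2 * Real.pi / 3) : ℝ) : ℂ) := by
      push_cast; rfl
    rw [h3, Complex.ofReal_ne_zero]
    apply ne_of_gt
    apply Real.sin_pos_of_pos_of_lt_pi
    · positivity
    · linarith [Real.pi_pos]

theorem airy_simple {x : ℂ} (h : Ai x = 0) : Ad x ≠ 0 := by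
  intro h'
  have hpath : ∀ τ : ℝ, HasDerivAt (fun τ : ℝ => x + (τ : ℂ) * (-x)) (-x) τ := by
    intro τ
    have h0 : HasDerivAt (fun τ : ℝ => (τ : ℂ)) 1 τ := Complex.ofRealCLM.hasDerivAt
    simpa using (h0.mul_const (-x)).const_add x
  have hf : ∀ τ : ℝ, HasDerivAt (fun τ : ℝ => (Ai (x + (τ : ℂ) * (-x)), Ad (x + (τ : ℂ) * (-x))))
      (Ad (x + (τ : ℂ) * (-x)) * (-x), ((x + (τ : ℂ) * (-x)) * Ai (x + (τ : ℂ) * (-x))) * (-x)) τ := by
    intro τ
    exact ((hasDerivAt_Ai _).comp τ (hpath τ)).prodMk ((hasDerivAt_Ad _).comp τ (hpath τ))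
  have key := norm_le_gronwallBound_of_norm_deriv_right_le (a := 0) (b := 1) (δ := 0)
    (K := ‖x‖ + ‖x‖ ^ (2 : ℕ)) (ε := 0)
    (f := fun τ : ℝ => (Ai (x + (τ : ℂ) * (-x)), Ad (x + (τ : ℂ) * (-x))))
    (f' := fun τ : ℝ => (Ad (x + (τ : ℂ) * (-x)) * (-x),
      ((x + (τ : ℂ) * (-x)) * Ai (x + (τ : ℂ) * (-x))) * (-x)))
    (fun τ _ => (hf τ).continuousAt.continuousWithinAt)
    (fun τ _ => (hf τ).hasDerivWithinAt) (by simp [h, h']) ?_ 1 (by simp)
  · rw [gronwallBound_ε0_δ0] at key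
    have h1 := norm_le_zero_iff.1 key
    have h2 := congrArg Prod.fst h1
    have h3 : x + ((1 : ℝ) : ℂ) * (-x) = 0 := by push_cast; ring
    simp only at h2
    rw [h3] at h2
    exact Ai_zero_ne h2
  · intro τ hτ
    set y := Ai (x + (τ : ℂ) * (-x)) with hy
    set z := Ad (x + (τ : ℂ) * (-x)) with hz
    have hn : ‖x + (τ : ℂ) * (-x)‖ ≤ ‖x‖ := by
      have e : x + (τ : ℂ) * (-x) = ((1 - τ : ℝ) : ℂ) * x := by push_cast; ring
      rw [e, norm_mul, Complex.norm_real, Real.norm_of_nonneg (by linarith [hτ.2])]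
      have := hτ.1
      nlinarith only [this, norm_nonneg x]
    have hm1 : ‖y‖ ≤ ‖(y, z)‖ := norm_fst_le (y, z)
    have hm2 : ‖z‖ ≤ ‖(y, z)‖ := norm_snd_le (y, z)
    rw [add_zero]
    refine (Prod.norm_def _).le.trans (max_le ?_ ?_)
    · simp only
      rw [norm_mul, norm_neg]
      have h0 := norm_nonneg x
      have h1 := norm_nonneg z
      have h2 := norm_nonneg (y, z)
      have : ‖z‖ * ‖x‖ ≤ ‖(y, z)‖ * ‖x‖ := mul_le_mul_of_nonneg_right hm2 h0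
      nlinarith only [h2, this]
    · simp only
      rw [norm_mul, norm_mul, norm_neg]
      have h0 := norm_nonneg x
      have h1 := norm_nonneg y
      have h2 := norm_nonneg (y, z)
      have h3 : ‖x + (τ : ℂ) * (-x)‖ * ‖y‖ ≤ ‖x‖ * ‖(y, z)‖ := mul_le_mul hn hm1 h1 h0
      have h4 := mul_le_mul_of_nonneg_right h3 h0
      linarith only [h4, mul_nonneg h2 h0]

private theorem K_tendsto (c x : ℂ) (hc : c.re < 0) (n : ℕ) :
    Tendsto (fun s : ℝ => K c n (x + s)) atTop (𝓝 0) := by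
  have key := tendsto_integral_filter_of_dominated_convergence
    (μ := volume.restrict (Set.Ioi (0 : ℝ))) (l := atTop)
    (F := fun (s : ℝ) (r : ℝ) => (r : ℂ) ^ n * cexp ((x + s) * (c * r) - (r : ℂ) ^ (3 : ℕ) / 3))
    (f := fun _ => 0)
    (fun r : ℝ => r ^ n * Real.exp (‖x * c‖ * r - r ^ (3 : ℕ) / 3))
    (Eventually.of_forall fun s => (cont_term c (x + s) n).aestronglyMeasurable) ?_
    (bound_int _ n) ?_
  · simpa [K] using key
  · filter_upwards [eventually_ge_atTop 0] with s hs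
    refine (ae_restrict_iff' measurableSet_Ioi).2 (Eventually.of_forall fun r hr => ?_)
    have hr' : (0 : ℝ) ≤ r := le_of_lt hr
    rw [norm_term c (x + s) n hr']
    apply mul_le_mul_of_nonneg_left _ (by positivity)
    apply Real.exp_le_exp.2
    have h1 : ((x + s) * c).re = (x * c).re + s * c.re := by
      rw [add_mul, Complex.add_re, Complex.re_ofReal_mul]
    rw [h1]
    have h2 : (x * c).re ≤ ‖x * c‖ := Complex.re_le_norm _
    have h3 : s * c.re ≤ 0 := mul_nonpos_of_nonneg_of_nonpos hs hc.le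
    nlinarith only [hr', h2, h3]
  · refine (ae_restrict_iff' measurableSet_Ioi).2 (Eventually.of_forall fun r hr => ?_)
    have hr0 : (0 : ℝ) < r := hr
    rw [tendsto_zero_iff_norm_tendsto_zero]
    have e : (fun s : ℝ => ‖(r : ℂ) ^ n * cexp ((x + s) * (c * r) - (r : ℂ) ^ (3 : ℕ) / 3)‖) =
        fun s : ℝ => (r ^ n * Real.exp ((x * c).re * r - r ^ (3 : ℕ) / 3)) * Real.exp (s * (c.re * r)) := by
      funext s
      rw [norm_term c (x + s) n hr0.le]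
      have h1 : ((x + s) * c).re = (x * c).re + s * c.re := by
        rw [add_mul, Complex.add_re, Complex.re_ofReal_mul]
      rw [h1, mul_assoc, ← Real.exp_add]
      congr 2
      ring
    rw [e]
    have h2 : Tendsto (fun s : ℝ => Real.exp (s * (c.re * r))) atTop (𝓝 0) := by
      apply Real.tendsto_exp_atBot.comp
      exact tendsto_id.atTop_mul_const_of_neg (mul_neg_of_neg_of_pos hc hr0)
    simpa using h2.const_mul (r ^ n * Real.exp ((x * c).re * r - r ^ (3 : ℕ) / 3))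

private theorem w_re__vAiry : (cexp (2 * Real.pi * I / 3)).re < 0 := by
  have e1 : cexp (2 * Real.pi * I / 3) = cexp (((2 * Real.pi / 3 : ℝ) : ℂ) * I) := by
    congr 1; push_cast; ring
  rw [e1, Complex.exp_ofReal_mul_I_re]
  apply Real.cos_neg_of_pi_div_two_lt_of_lt <;> linarith [Real.pi_pos]

private theorem w_re' : (cexp (-(2 * Real.pi * I / 3))).re < 0 := by
  have e1 : cexp (-(2 * Real.pi * I / 3)) = cexp (((-(2 * Real.pi / 3) : ℝ) : ℂ) * I) := by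
    congr 1; push_cast; ring
  rw [e1, Complex.exp_ofReal_mul_I_re, Real.cos_neg]
  apply Real.cos_neg_of_pi_div_two_lt_of_lt <;> linarith [Real.pi_pos]

private theorem Ai_tendsto (x : ℂ) : Tendsto (fun s : ℝ => Ai (x + s)) atTop (𝓝 0) := by
  simp only [Ai_eq]
  simpa using ((K_tendsto _ x w_re__vAiry 0).mul_const _).sub ((K_tendsto _ x w_re' 0).mul_const _)

private theorem Ad_tendsto (x : ℂ) : Tendsto (fun s : ℝ => Ad (x + s)) atTop (𝓝 0) := by
  simp only [Ad_eq]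
  simpa using ((K_tendsto _ x w_re__vAiry 1).mul_const _).sub ((K_tendsto _ x w_re' 1).mul_const _)

private theorem mono_zero {f f' : ℝ → ℝ} (hd : ∀ s, HasDerivAt f (f' s) s)
    (h0 : ∀ s, 0 ≤ s → 0 ≤ f' s) (hf : f 0 = 0) (ht : Tendsto f atTop (𝓝 0)) :
    ∀ s, 0 < s → f' s = 0 := by
  have hmono : MonotoneOn f (Set.Ici 0) := by
    apply monotoneOn_of_deriv_nonneg (convex_Ici 0)
    · exact fun s _ => (hd s).continuousAt.continuousWithinAt
    · exact fun s _ => (hd s).differentiableAt.differentiableWithinAt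
    · intro s hs
      rw [interior_Ici] at hs
      rw [(hd s).deriv]
      exact h0 s (le_of_lt hs)
  have hz : ∀ s, 0 ≤ s → f s = 0 := by
    intro s hs
    apply le_antisymm
    · refine ge_of_tendsto ht ?_
      filter_upwards [eventually_ge_atTop s] with t ht'
      exact hmono hs (hs.trans ht') ht'
    · rw [← hf]
      exact hmono (Set.mem_Ici.2 le_rfl) hs hs
  intro s hs
  have h1 : f =ᶠ[𝓝 s] fun _ => 0 := by
    filter_upwards [lt_mem_nhds hs] with t ht'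
    exact hz t (le_of_lt ht')
  have h2 : HasDerivAt f 0 s := (hasDerivAt_const s (0 : ℝ)).congr_of_eventuallyEq h1
  exact (hd s).unique h2

theorem airy_zero {x : ℂ} (h : Ai x = 0) : x.im = 0 ∧ x.re < 0 := by
  have hp : ∀ s : ℝ, HasDerivAt (fun s : ℝ => x + (s : ℂ)) 1 s := by
    intro s
    have h0 : HasDerivAt (fun s : ℝ => (s : ℂ)) 1 s := Complex.ofRealCLM.hasDerivAt
    exact h0.const_add x
  have hy : ∀ s : ℝ, HasDerivAt (fun s : ℝ => Ai (x + s)) (Ad (x + s)) s := by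
    intro s
    simpa [Function.comp_def] using (hasDerivAt_Ai (x + s)).comp s (hp s)
  have hz : ∀ s : ℝ, HasDerivAt (fun s : ℝ => Ad (x + s)) ((x + s) * Ai (x + s)) s := by
    intro s
    simpa [Function.comp_def] using (hasDerivAt_Ad (x + s)).comp s (hp s)
  have hyr : ∀ s : ℝ, HasDerivAt (fun s : ℝ => (Ai (x + s)).re) (Ad (x + s)).re s := fun s =>
    Complex.reCLM.hasFDerivAt.comp_hasDerivAt s (hy s)
  have hyi : ∀ s : ℝ, HasDerivAt (fun s : ℝ => (Ai (x + s)).im) (Ad (x + s)).im s := fun s =>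
    Complex.imCLM.hasFDerivAt.comp_hasDerivAt s (hy s)
  have hzr : ∀ s : ℝ, HasDerivAt (fun s : ℝ => (Ad (x + s)).re) ((x + s) * Ai (x + s)).re s :=
    fun s => Complex.reCLM.hasFDerivAt.comp_hasDerivAt s (hz s)
  have hzi : ∀ s : ℝ, HasDerivAt (fun s : ℝ => (Ad (x + s)).im) ((x + s) * Ai (x + s)).im s :=
    fun s => Complex.imCLM.hasFDerivAt.comp_hasDerivAt s (hz s)
  have tA := Ai_tendsto x
  have tB := Ad_tendsto x
  have tAr : Tendsto (fun s : ℝ => (Ai (x + s)).re) atTop (𝓝 0) := by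
    simpa [Function.comp_def] using (Complex.continuous_re.tendsto _).comp tA
  have tAi : Tendsto (fun s : ℝ => (Ai (x + s)).im) atTop (𝓝 0) := by
    simpa [Function.comp_def] using (Complex.continuous_im.tendsto _).comp tA
  have tBr : Tendsto (fun s : ℝ => (Ad (x + s)).re) atTop (𝓝 0) := by
    simpa [Function.comp_def] using (Complex.continuous_re.tendsto _).comp tB
  have tBi : Tendsto (fun s : ℝ => (Ad (x + s)).im) atTop (𝓝 0) := by
    simpa [Function.comp_def] using (Complex.continuous_im.tendsto _).comp tB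
  have h00 : Ai (x + ((0 : ℝ) : ℂ)) = 0 := by simpa using h
  have him : x.im = 0 := by
    -- `g = Im (conj y y')`, `g' = Im x |y|²`
    have hg : ∀ s : ℝ, HasDerivAt (fun s : ℝ => x.im * ((Ai (x + s)).re * (Ad (x + s)).im -
        (Ai (x + s)).im * (Ad (x + s)).re))
        (x.im ^ (2 : ℕ) * ((Ai (x + s)).re ^ (2 : ℕ) + (Ai (x + s)).im ^ (2 : ℕ))) s := by
      intro s
      refine ((((hyr s).mul (hzi s)).sub ((hyi s).mul (hzr s))).const_mul x.im).congr_deriv ?_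
      simp only [Complex.mul_re, Complex.mul_im, Complex.add_re, Complex.add_im,
        Complex.ofReal_re, Complex.ofReal_im]
      ring
    have hall := mono_zero hg (fun s _ => by positivity) (by simp [h]) (by
      have := ((tAr.mul tBi).sub (tAi.mul tBr)).const_mul x.im
      simpa using this)
    by_contra hne
    have hy0 : ∀ s : ℝ, 0 < s → Ai (x + s) = 0 := by
      intro s hs
      have h1 := hall s hs
      have h2 : (Ai (x + s)).re ^ (2 : ℕ) + (Ai (x + s)).im ^ (2 : ℕ) = 0 := by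
        rcases mul_eq_zero.1 h1 with h3 | h3
        · exact absurd (pow_eq_zero_iff (two_ne_zero)|>.1 h3) hne
        · exact h3
      apply Complex.ext
      · simp only [Complex.zero_re]; nlinarith only [h2]
      · simp only [Complex.zero_im]; nlinarith only [h2]
    have h1 : (fun s : ℝ => Ai (x + s)) =ᶠ[𝓝 1] fun _ => 0 := by
      filter_upwards [lt_mem_nhds (zero_lt_one : (0 : ℝ) < 1)] with t ht'
      exact hy0 t ht'
    have h2 : HasDerivAt (fun s : ℝ => Ai (x + s)) 0 1 :=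
      (hasDerivAt_const (1 : ℝ) (0 : ℂ)).congr_of_eventuallyEq h1
    exact airy_simple (hy0 1 one_pos) ((hy 1).unique h2)
  refine ⟨him, ?_⟩
  by_contra hre
  push Not at hre
  have hg : ∀ s : ℝ, HasDerivAt (fun s : ℝ => (Ai (x + s)).re * (Ad (x + s)).re +
      (Ai (x + s)).im * (Ad (x + s)).im)
      ((Ad (x + s)).re ^ (2 : ℕ) + (Ad (x + s)).im ^ (2 : ℕ) +
        (x.re + s) * ((Ai (x + s)).re ^ (2 : ℕ) + (Ai (x + s)).im ^ (2 : ℕ))) s := by
    intro s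
    refine (((hyr s).mul (hzr s)).add ((hyi s).mul (hzi s))).congr_deriv ?_
    simp only [Complex.mul_re, Complex.mul_im, Complex.add_re, Complex.add_im,
      Complex.ofReal_re, Complex.ofReal_im, him]
    ring
  have hall := mono_zero hg (fun s hs => by
    have : 0 ≤ x.re + s := add_nonneg hre hs
    positivity) (by simp [h]) (by
      have := (tAr.mul tBr).add (tAi.mul tBi)
      simpa using this)
  have h1 := hall 1 one_pos
  have h2 : 0 < x.re + 1 := by linarith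
  have h3 : (Ad (x + ((1 : ℝ) : ℂ))).re ^ (2 : ℕ) + (Ad (x + ((1 : ℝ) : ℂ))).im ^ (2 : ℕ) = 0 := by
    have := mul_nonneg h2.le (add_nonneg (sq_nonneg (Ai (x + ((1 : ℝ) : ℂ))).re)
      (sq_nonneg (Ai (x + ((1 : ℝ) : ℂ))).im))
    nlinarith only [hre, h1]
  have h4 : (Ai (x + ((1 : ℝ) : ℂ))).re ^ (2 : ℕ) + (Ai (x + ((1 : ℝ) : ℂ))).im ^ (2 : ℕ) = 0 := by
    rw [h3, zero_add] at h1
    exact (mul_eq_zero.1 h1).resolve_left h2.ne'
  have a1 : Ai (x + ((1 : ℝ) : ℂ)) = 0 := by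
    apply Complex.ext
    · simp only [Complex.zero_re]
      nlinarith only [h4]
    · simp only [Complex.zero_im]
      nlinarith only [h4]
  have a2 : Ad (x + ((1 : ℝ) : ℂ)) = 0 := by
    apply Complex.ext
    · simp only [Complex.zero_re]
      nlinarith only [h3]
    · simp only [Complex.zero_im]
      nlinarith only [h3]
  exact airy_simple a1 a2

end SokamV

end

/-! ### Lib_MP_af4de1_in.T5Airy -/

section
/-!
# The zeros of the Airy function [IN-T5]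

`airy_zero`, `airy_simple`, `hasDerivAt_Ai`, `hasDerivAt_Ad` (`Ai' = Ad`, `Ad' = x Ai`) are known.
`Ai_conj`: `Ai (conj x) = -conj (Ai x)` (the two integrals are exchanged), so `y x = Im (Ai x)` satisfies `Ai x = I y(x)` for real `x`, `y'' = x y`.
`airy_unbounded`: if `y` has no zero in `[c, c + π]`, `c + π ≤ -1`, say `y > 0` there (else `-y`); `W = y' sin(x - c) - y cos(x - c)`,
`W' = (x + 1) y sin(x - c) ≤ 0`, so `y(c + π) = W(c + π) ≤ W(c) = -y(c) < 0`: contradiction.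
`airy_enum`: `exists_enum` with `Z = {x | Ai x = 0}`: the zeros are real negative (`airy_zero`), so they have distinct moduli; finitely many in balls (isolated zeros, `Ai` entire and
not `0`: `Ai_zero_ne`); infinite: `airy_unbounded`.
-/

namespace SokamV

open Complex Filter Topology

private theorem conj_w : (starRingEnd ℂ) (cexp (2 * Real.pi * I / 3)) = cexp (-(2 * Real.pi * I / 3)) := by
  rw [← Complex.exp_conj]
  congr 1
  simp only [map_div₀, map_mul, Complex.conj_ofReal, Complex.conj_I, map_ofNat]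
  ring

private theorem conj_w' : (starRingEnd ℂ) (cexp (-(2 * Real.pi * I / 3))) = cexp (2 * Real.pi * I / 3) := by
  rw [← conj_w, Complex.conj_conj]

private theorem conj_int (c x : ℂ) :
    (starRingEnd ℂ) (∫ s in Set.Ioi (0 : ℝ), cexp (x * (c * s) - s ^ (3 : ℕ) / 3)) =
      ∫ s in Set.Ioi (0 : ℝ), cexp ((starRingEnd ℂ) x * ((starRingEnd ℂ) c * s) - s ^ (3 : ℕ) / 3) := by
  rw [← integral_conj]
  refine MeasureTheory.integral_congr_ae (Eventually.of_forall fun s => ?_)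
  show (starRingEnd ℂ) (cexp (x * (c * s) - s ^ (3 : ℕ) / 3)) = _
  rw [← Complex.exp_conj]
  simp only [map_sub, map_div₀, map_mul, map_pow, Complex.conj_ofReal, map_ofNat]

theorem Ai_conj (x : ℂ) : Ai ((starRingEnd ℂ) x) = -(starRingEnd ℂ) (Ai x) := by
  have h1 := conj_int (cexp (2 * Real.pi * I / 3)) x
  have h2 := conj_int (cexp (-(2 * Real.pi * I / 3))) x
  rw [conj_w] at h1
  rw [conj_w'] at h2
  unfold Ai
  rw [map_sub, map_mul, map_mul, h1, h2, conj_w, conj_w']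
  ring

private theorem Ai_re (s : ℝ) : (Ai (s : ℂ)).re = 0 := by
  have h := Ai_conj (s : ℂ)
  rw [Complex.conj_ofReal] at h
  have h1 := congrArg Complex.re h
  rw [Complex.neg_re, Complex.conj_re] at h1
  linarith

private theorem hasDerivAt_yi (s : ℝ) : HasDerivAt (fun s : ℝ => (Ai (s : ℂ)).im) (Ad (s : ℂ)).im s := by
  have h0 : HasDerivAt (fun s : ℝ => (s : ℂ)) 1 s := Complex.ofRealCLM.hasDerivAt
  have h1 : HasDerivAt (fun s : ℝ => Ai (s : ℂ)) (Ad (s : ℂ)) s := by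
    simpa [Function.comp_def] using (hasDerivAt_Ai (s : ℂ)).comp s h0
  exact Complex.imCLM.hasFDerivAt.comp_hasDerivAt s h1

private theorem hasDerivAt_zi (s : ℝ) :
    HasDerivAt (fun s : ℝ => (Ad (s : ℂ)).im) (s * (Ai (s : ℂ)).im) s := by
  have h0 : HasDerivAt (fun s : ℝ => (s : ℂ)) 1 s := Complex.ofRealCLM.hasDerivAt
  have h1 : HasDerivAt (fun s : ℝ => Ad (s : ℂ)) ((s : ℂ) * Ai (s : ℂ)) s := by
    simpa [Function.comp_def] using (hasDerivAt_Ad (s : ℂ)).comp s h0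
  have h2 : HasDerivAt (fun s : ℝ => (Ad (s : ℂ)).im) ((s : ℂ) * Ai (s : ℂ)).im s :=
    Complex.imCLM.hasFDerivAt.comp_hasDerivAt s h1
  refine h2.congr_deriv ?_
  rw [Complex.im_ofReal_mul]

private theorem pos_of_ne {f : ℝ → ℝ} (hf : Continuous f) {a b : ℝ}
    (hne : ∀ x ∈ Set.Icc a b, f x ≠ 0) (ha : 0 < f a) : ∀ x ∈ Set.Icc a b, 0 < f x := by
  intro x hx
  by_contra h
  push Not at h
  obtain ⟨z, hz, hz0⟩ := intermediate_value_Icc' hx.1 hf.continuousOn (show (0 : ℝ) ∈ Set.Icc (f x) (f a) from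
    ⟨h, ha.le⟩)
  exact hne z ⟨hz.1, hz.2.trans hx.2⟩ hz0

/-- comparison with the sine -/
private theorem sturm {f g : ℝ → ℝ} (hf : ∀ s, HasDerivAt f (g s) s)
    (hg : ∀ s, HasDerivAt g (s * f s) s) {c : ℝ} (hc : c + Real.pi ≤ -1)
    (hpos : ∀ x ∈ Set.Icc c (c + Real.pi), 0 < f x) : False := by
  have hpi := Real.pi_pos
  set W : ℝ → ℝ := fun x => g x * Real.sin (x - c) - f x * Real.cos (x - c) with hW
  have hd : ∀ x, HasDerivAt W ((x + 1) * f x * Real.sin (x - c)) x := by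
    intro x
    have h1 : HasDerivAt (fun x : ℝ => x - c) 1 x := (hasDerivAt_id x).sub_const c
    have h2 : HasDerivAt (fun x : ℝ => Real.sin (x - c)) (Real.cos (x - c) * 1) x :=
      h1.sin
    have h3 : HasDerivAt (fun x : ℝ => Real.cos (x - c)) (-Real.sin (x - c) * 1) x :=
      h1.cos
    refine (((hg x).mul h2).sub ((hf x).mul h3)).congr_deriv ?_
    ring
  have hanti : AntitoneOn W (Set.Icc c (c + Real.pi)) := by
    refine antitoneOn_of_deriv_nonpos (convex_Icc _ _) ?_ ?_ ?_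
    · exact fun x _ => (hd x).continuousAt.continuousWithinAt
    · exact fun x _ => (hd x).differentiableAt.differentiableWithinAt
    · intro x hx
      rw [interior_Icc] at hx
      rw [(hd x).deriv]
      have h4 : 0 ≤ Real.sin (x - c) :=
        Real.sin_nonneg_of_nonneg_of_le_pi (by linarith [hx.1]) (by linarith [hx.2])
      have h5 : 0 < f x := hpos x ⟨hx.1.le, hx.2.le⟩
      have h6 : x + 1 ≤ 0 := by linarith [hx.2]
      exact mul_nonpos_of_nonpos_of_nonneg (mul_nonpos_of_nonpos_of_nonneg h6 h5.le) h4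
  have h7 := hanti (Set.left_mem_Icc.2 (by linarith)) (Set.right_mem_Icc.2 (by linarith))
    (show c ≤ c + Real.pi by linarith)
  have h8 : W (c + Real.pi) = f (c + Real.pi) := by
    simp only [hW, add_sub_cancel_left, Real.sin_pi, Real.cos_pi]
    ring
  have h9 : W c = -f c := by
    simp only [hW, sub_self, Real.sin_zero, Real.cos_zero]
    ring
  rw [h8, h9] at h7
  have h10 := hpos c (Set.left_mem_Icc.2 (by linarith))
  have h11 := hpos (c + Real.pi) (Set.right_mem_Icc.2 (by linarith))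
  linarith

theorem airy_unbounded (M : ℝ) : ∃ x : ℝ, x < M ∧ Ai x = 0 := by
  by_contra hno
  push Not at hno
  have hpi := Real.pi_pos
  have hpi4 : Real.pi < 4 := Real.pi_lt_four
  set c : ℝ := min M 0 - 5 with hc
  have hM : c + Real.pi < M := by
    have := min_le_left M (0 : ℝ)
    linarith
  have h0 : c + Real.pi ≤ -1 := by
    have := min_le_right M (0 : ℝ)
    linarith
  have hne : ∀ x ∈ Set.Icc c (c + Real.pi), (Ai (x : ℂ)).im ≠ 0 := by
    intro x hx h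
    exact hno x (hx.2.trans_lt hM) (Complex.ext (by simpa using Ai_re x) (by simpa using h))
  have hcont : Continuous fun s : ℝ => (Ai (s : ℂ)).im :=
    continuous_iff_continuousAt.2 fun s => (hasDerivAt_yi s).continuousAt
  have hmem : c ∈ Set.Icc c (c + Real.pi) := Set.left_mem_Icc.2 (by linarith)
  rcases lt_or_gt_of_ne (hne c hmem) with h | h
  · have hp := pos_of_ne (f := fun s : ℝ => -(Ai (s : ℂ)).im) hcont.neg
      (fun x hx h' => hne x hx (neg_eq_zero.1 h')) (neg_pos.2 h)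
    refine sturm (f := fun s : ℝ => -(Ai (s : ℂ)).im) (g := fun s : ℝ => -(Ad (s : ℂ)).im)
      (fun s => (hasDerivAt_yi s).neg) (fun s => ((hasDerivAt_zi s).neg).congr_deriv ?_) h0 hp
    ring
  · have hp := pos_of_ne hcont hne h
    exact sturm hasDerivAt_yi hasDerivAt_zi h0 hp

private theorem Ai_diff : Differentiable ℂ Ai := fun x => (hasDerivAt_Ai x).differentiableAt

private theorem Ai_fin (R : ℝ) : ({x : ℂ | Ai x = 0} ∩ Metric.closedBall 0 R).Finite := by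
  by_contra hinf
  have hinf' : ({x : ℂ | Ai x = 0} ∩ Metric.closedBall 0 R).Infinite := hinf
  obtain ⟨x, hx, hacc⟩ := hinf'.exists_accPt_of_subset_isCompact (isCompact_closedBall (0 : ℂ) R)
    (fun u hu => hu.2)
  have h1 : ∃ᶠ z in 𝓝[≠] x, Ai z = 0 := by
    rw [accPt_iff_frequently] at hacc
    rw [frequently_nhdsWithin_iff]
    exact hacc.mono fun z hz => ⟨hz.2.1, hz.1⟩
  have han : AnalyticOnNhd ℂ Ai Set.univ := fun z _ => Ai_diff.analyticAt z
  have h2 := han.eqOn_zero_of_preconnected_of_frequently_eq_zero isPreconnected_univ (Set.mem_univ x) h1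
  exact Ai_zero_ne (h2 (Set.mem_univ 0))

private theorem zero_eq {z : ℂ} (h : Ai z = 0) : z = -(‖z‖ : ℂ) := by
  obtain ⟨him, hre⟩ := airy_zero h
  have h1 : z = ((z.re : ℝ) : ℂ) := Complex.ext (by simp) (by simp [him])
  have h2 : ‖z‖ = -z.re := by
    rw [h1, Complex.norm_real, Real.norm_of_nonpos]
    · simp
    · simpa using hre.le
  rw [h2]
  push_cast
  rw [neg_neg]
  exact h1

/-- the zeros of the Airy function are `-a 0, -a 1, …` -/
theorem airy_enum : ∃ a : ℕ → ℝ, 0 < a 0 ∧ StrictMono a ∧ (∀ i, Ai (-(a i : ℂ)) = 0) ∧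
    (∀ x : ℂ, Ai x = 0 → ∃ i, x = -(a i : ℂ)) ∧ Tendsto a atTop atTop := by
  have hinj : ∀ z ∈ {x : ℂ | Ai x = 0}, ∀ w ∈ {x : ℂ | Ai x = 0}, ‖z‖ = ‖w‖ → z = w := by
    intro z hz w hw h
    rw [zero_eq hz, zero_eq hw, h]
  have hinf : {x : ℂ | Ai x = 0}.Infinite := by
    intro hfin
    obtain ⟨m, hm⟩ := (hfin.image Complex.re).bddBelow
    obtain ⟨x, hx, hx0⟩ := airy_unbounded m
    have h1 := hm ⟨(x : ℂ), hx0, rfl⟩
    rw [Complex.ofReal_re] at h1
    linarith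
  obtain ⟨z, hz, hmono, hsurj, htend⟩ := SokamIn.exists_enum Ai_fin hinj hinf
  refine ⟨fun i => ‖z i‖, ?_, hmono, fun i => ?_, fun x hx => ?_, htend⟩
  · rw [norm_pos_iff]
    intro h0
    have h1 : Ai (z 0) = 0 := hz 0
    rw [h0] at h1
    exact Ai_zero_ne h1
  · rw [← zero_eq (hz i)]
    exact hz i
  · obtain ⟨i, hi⟩ := hsurj x hx
    exact ⟨i, by rw [hi]; exact zero_eq (hz i)⟩

end SokamV

end

/-! ### Lib_MP_af4de1_v.N1Defs -/

section
namespace SokamV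
end SokamV
/-!
# The case `N = 1`: coordinates

`u = a + ib`, `a > 0`, `|u| = 1`, `u ζ = r e^{iφ}`.  With `H = Y + i ū s` (so `X = Y + b s`, `T = a s`)
the height is `a g(Y, s)`, `g(Y, s) = (Y² - s²)/2 + ρ(s) e^Y`, `ρ(s) = (r/a) e^{b s} cos(a s + φ)`.
Window 0 is `sL ≤ s ≤ sR` (there `ρ ≤ 0`), its neighbours are the fingers `sLL ≤ s ≤ sL` and
`sR ≤ s ≤ sRR` (there `ρ ≥ 0`).
-/

namespace SokamN

open SokamV Complex Filter Topology Set

/-- `A`, `B` are connected strictly below the height `c`. -/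
def SC (g : ℂ → ℝ) (c : ℝ) (A B : ℂ) : Prop := ∃ c' < c, Conn g c' A B

/-- Parameters. -/
structure Par where
  a : ℝ
  b : ℝ
  r : ℝ
  φ : ℝ
  ha : 0 < a
  hab : a ^ (2 : ℕ) + b ^ (2 : ℕ) = 1
  hr : 0 < r
  h1 : Real.pi / 2 ≤ φ
  h2 : φ ≤ 3 * Real.pi / 2

namespace Par

variable (p : Par)

noncomputable def u : ℂ := ⟨p.a, p.b⟩

noncomputable def ζ : ℂ := (⟨p.a, -p.b⟩ : ℂ) * (p.r * cexp (p.φ * I))

noncomputable def rho (s : ℝ) : ℝ :=
  p.r / p.a * Real.exp (p.b * s) * Real.cos (p.a * s + p.φ)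

noncomputable def rho1 (s : ℝ) : ℝ :=
  p.r / p.a * Real.exp (p.b * s) *
    (p.b * Real.cos (p.a * s + p.φ) - p.a * Real.sin (p.a * s + p.φ))

noncomputable def rho2 (s : ℝ) : ℝ :=
  p.r / p.a * Real.exp (p.b * s) *
    ((p.b ^ (2 : ℕ) - p.a ^ (2 : ℕ)) * Real.cos (p.a * s + p.φ) - 2 * p.a * p.b * Real.sin (p.a * s + p.φ))

noncomputable def g (Y s : ℝ) : ℝ := (Y ^ (2 : ℕ) - s ^ (2 : ℕ)) / 2 + p.rho s * Real.exp Y

noncomputable def pt (Y s : ℝ) : ℂ := ⟨Y + p.b * s, p.a * s⟩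

/-- The height. -/
noncomputable abbrev G : ℂ → ℝ := fun H => (p.u * Ph p.ζ H).re

noncomputable def sL : ℝ := (Real.pi / 2 - p.φ) / p.a

noncomputable def sR : ℝ := (3 * Real.pi / 2 - p.φ) / p.a

noncomputable def sLL : ℝ := (-Real.pi / 2 - p.φ) / p.a

noncomputable def sRR : ℝ := (5 * Real.pi / 2 - p.φ) / p.a

/-- The mirror image (complex conjugation). -/
noncomputable def mirror : Par where
  a := p.a
  b := -p.b
  r := p.r
  φ := 2 * Real.pi - p.φ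
  ha := p.ha
  hab := by have := p.hab; nlinarith
  hr := p.hr
  h1 := by have := p.h2; linarith
  h2 := by have := p.h1; linarith

end Par

/-- The strictly increasing bijection `y e^{-y}` (`y ≤ 1`), `e^{-1} + (y - 1)` (`y ≥ 1`). -/
noncomputable def ke (y : ℝ) : ℝ := if y ≤ 1 then y * Real.exp (-y) else Real.exp (-1) + (y - 1)

/-- The solution `y ≤ 1` of `y e^{-y} = x`, `x ≤ e^{-1}`. -/
noncomputable def Ym (x : ℝ) : ℝ := Function.invFun ke x

/-- The strictly increasing bijection `y - log y` (`y ≥ 1`), `y` (`y ≤ 1`). -/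
noncomputable def kp (y : ℝ) : ℝ := if y ≤ 1 then y else y - Real.log y

/-- The solution `y ≥ 1` of `y e^{-y} = x`, `0 < x ≤ e^{-1}`. -/
noncomputable def Yp (x : ℝ) : ℝ := Function.invFun kp (-Real.log x)

namespace Par

variable (p : Par)

/-- The bottom of the channel. -/
noncomputable def Y (s : ℝ) : ℝ := Ym (-p.rho s)

noncomputable def m (s : ℝ) : ℝ := p.g (p.Y s) s

noncomputable def m1 (s : ℝ) : ℝ := -s + p.rho1 s * Real.exp (p.Y s)

end Par

end SokamN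

end

/-! ### Lib_MP_af4de1_v.TipBound -/

section
/-!
# The phase near the tip [SV-TIPB]

`Ph ζ (1+h) = (1+h)²/2 - (1-v)e^h`, `v = off ζ` (`eζ = v - 1`).  With `e^h = 1+h+h²/2+h³/6+R4`, `‖R4‖ ≤ ‖h‖⁴/12`, `‖e^h-1-h‖ ≤ ‖h‖²` for `‖h‖ ≤ 1/2`:
`Ph ζ (1+h) - (-1/2+v) = vh - h³/6 - R4 + v(e^h-1-h)`.
`tip_exp` is this.  `tip_bound`: `h = y·ep u0` (or `em u0`), `u0 (ep u0)³ = 1` as `‖u0‖ = 1`, so `Re(-u h³/6) ≤ -y³/6 + ‖u-u0‖y³/6`, the other terms are
`≤ ‖v‖y + ‖v‖y² + y⁴/12`.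
`tip_mult`: `ζe^{1+h}+1 = 1-(1-v)e^h = -h + O(‖h‖² + ‖v‖)`.
-/

namespace SokamV

open Complex

private lemma Ph_tip (ζ h : ℂ) :
    Ph ζ (1 + h) = (1 + h) ^ (2 : ℕ) / 2 + (off ζ - 1) * cexp h := by
  unfold Ph off
  rw [exp_add]
  ring

private lemma ep_cube {u0 : ℂ} (hu0 : ‖u0‖ = 1) : u0 * ep u0 ^ (3 : ℕ) = 1 := by
  have h1 : u0 = cexp (u0.arg * I) := by
    have := norm_mul_exp_arg_mul_I u0
    rw [hu0] at this
    simpa using this.symm
  unfold ep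
  nth_rewrite 1 [h1]
  rw [← exp_nat_mul, ← exp_add]
  have h2 : (u0.arg : ℂ) * I + ((3 : ℕ) : ℂ) * ((2 * Real.pi / 3 - u0.arg / 3) * I) =
      2 * Real.pi * I := by push_cast; ring
  rw [h2, exp_two_pi_mul_I]

private lemma em_cube {u0 : ℂ} (hu0 : ‖u0‖ = 1) : u0 * em u0 ^ (3 : ℕ) = 1 := by
  have h1 : u0 = cexp (u0.arg * I) := by
    have := norm_mul_exp_arg_mul_I u0
    rw [hu0] at this
    simpa using this.symm
  unfold em
  nth_rewrite 1 [h1]
  rw [← exp_nat_mul, ← exp_add]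
  have h2 : (u0.arg : ℂ) * I + ((3 : ℕ) : ℂ) * ((-(2 * Real.pi / 3) - u0.arg / 3) * I) =
      -(2 * Real.pi * I) := by push_cast; ring
  rw [h2, exp_neg, exp_two_pi_mul_I, inv_one]

private lemma norm_ep (u : ℂ) : ‖ep u‖ = 1 := by
  unfold ep
  have : (2 * Real.pi / 3 - u.arg / 3 : ℂ) = ((2 * Real.pi / 3 - u.arg / 3 : ℝ) : ℂ) := by
    push_cast; ring
  rw [this, norm_exp_ofReal_mul_I]

private lemma norm_em (u : ℂ) : ‖em u‖ = 1 := by
  unfold em
  have : (-(2 * Real.pi / 3) - u.arg / 3 : ℂ) = ((-(2 * Real.pi / 3) - u.arg / 3 : ℝ) : ℂ) := by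
    push_cast; ring
  rw [this, norm_exp_ofReal_mul_I]

theorem tip_exp (ζ : ℂ) {h : ℂ} (hh : ‖h‖ ≤ 1 / 2) :
    ‖Ph ζ (1 + h) - (-1 / 2 + off ζ) - (off ζ * h - h ^ (3 : ℕ) / 6)‖ ≤
      ‖h‖ ^ (4 : ℕ) / 12 + ‖off ζ‖ * ‖h‖ ^ (2 : ℕ) := by
  have h1 : ‖h‖ ≤ 1 := hh.trans (by norm_num)
  have hE4 := Complex.exp_bound h1 (n := 4) (by norm_num)
  have hE2 := Complex.norm_exp_sub_one_sub_id_le h1
  have hid : Ph ζ (1 + h) - (-1 / 2 + off ζ) - (off ζ * h - h ^ (3 : ℕ) / 6) =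
      -(cexp h - ∑ m ∈ Finset.range 4, h ^ m / (m.factorial : ℂ)) +
        off ζ * (cexp h - 1 - h) := by
    rw [Ph_tip]
    simp only [Finset.sum_range_succ, Finset.sum_range_zero, Nat.factorial]
    push_cast
    ring
  rw [hid]
  refine (norm_add_le _ _).trans ?_
  rw [norm_neg, norm_mul]
  have h2 : ‖cexp h - ∑ m ∈ Finset.range 4, h ^ m / (m.factorial : ℂ)‖ ≤ ‖h‖ ^ (4 : ℕ) / 12 := by
    refine hE4.trans ?_
    have h3 : (0 : ℝ) ≤ ‖h‖ ^ (4 : ℕ) := by (clear * -; positivity)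
    norm_num [Nat.factorial]
    linarith only [h3]
  have h3 : ‖off ζ‖ * ‖cexp h - 1 - h‖ ≤ ‖off ζ‖ * ‖h‖ ^ (2 : ℕ) := by gcongr
  linarith only [h2, h3]

theorem tip_mult (ζ : ℂ) {h : ℂ} (hh : ‖h‖ ≤ 1 / 2) :
    ‖ζ * cexp (1 + h) + 1 + h‖ ≤ ‖h‖ ^ (2 : ℕ) + 2 * ‖off ζ‖ := by
  have h1 : ‖h‖ ≤ 1 := hh.trans (by norm_num)
  have hE2 := Complex.norm_exp_sub_one_sub_id_le h1
  have hid : ζ * cexp (1 + h) + 1 + h = -(cexp h - 1 - h) + off ζ * cexp h := by
    unfold off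
    rw [exp_add]
    ring
  rw [hid]
  refine (norm_add_le _ _).trans ?_
  rw [norm_neg, norm_mul]
  have h2 : ‖cexp h‖ ≤ 2 := by
    rw [norm_exp]
    have h3 : h.re ≤ 1 / 2 := (re_le_norm h).trans hh
    have h4 : Real.exp h.re ≤ Real.exp (1 / 2) := Real.exp_le_exp.2 h3
    have h5 : Real.exp (1 / 2) ≤ 2 := by
      have h6 : Real.exp (1 / 2) ^ (2 : ℕ) = Real.exp 1 := by
        rw [← Real.exp_nat_mul]; norm_num
      have h7 := Real.exp_one_lt_d9
      have h8 := Real.exp_pos (1 / 2)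
      nlinarith only [h6, h7]
    exact h4.trans h5
  have h3 : ‖off ζ‖ * ‖cexp h‖ ≤ ‖off ζ‖ * 2 := by gcongr
  linarith only [hE2, h3]

private lemma tip_bound_aux {u0 E : ℂ} (hE : ‖E‖ = 1) (hc : u0 * E ^ (3 : ℕ) = 1) (hu0 : ‖u0‖ = 1)
    {u ζ : ℂ} {y : ℝ} (hu : ‖u - u0‖ ≤ 1 / 8) (hy : 0 ≤ y) (hy1 : y ≤ 1 / 8) :
    (u * (Ph ζ (1 + y * E) - (-1 / 2 + off ζ))).re ≤ -(y ^ (3 : ℕ) / 8) + 2 * ‖off ζ‖ * y := by
  have hn : ‖(y : ℂ) * E‖ = y := by
    rw [norm_mul, hE, mul_one, norm_real, Real.norm_of_nonneg hy]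
  have h1 := tip_exp ζ (h := y * E) (by rw [hn]; linarith only [hy1])
  rw [hn] at h1
  set W : ℂ := Ph ζ (1 + y * E) - (-1 / 2 + off ζ) - (off ζ * (y * E) - (y * E) ^ (3 : ℕ) / 6) with hW
  have h2 : u * (Ph ζ (1 + y * E) - (-1 / 2 + off ζ)) =
      u * W + u * off ζ * (y * E) - ((y ^ (3 : ℕ) / 6 : ℝ) : ℂ) -
        ((y ^ (3 : ℕ) / 6 : ℝ) : ℂ) * ((u - u0) * E ^ (3 : ℕ)) := by
    have h3 : ((y ^ (3 : ℕ) / 6 : ℝ) : ℂ) = ((y ^ (3 : ℕ) / 6 : ℝ) : ℂ) * (u0 * E ^ (3 : ℕ)) := by rw [hc, mul_one]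
    nth_rewrite 1 [h3]
    rw [hW]
    push_cast
    ring
  rw [h2]
  have hun : ‖u‖ ≤ 9 / 8 := by
    have : u = u0 + (u - u0) := by ring
    rw [this]
    refine (norm_add_le _ _).trans ?_
    rw [hu0]; linarith only [hu]
  have h4 : (u * W).re ≤ 9 / 8 * (y ^ (4 : ℕ) / 12 + ‖off ζ‖ * y ^ (2 : ℕ)) := by
    refine (re_le_norm _).trans ?_
    rw [norm_mul]
    gcongr
  have h5 : (u * off ζ * (y * E)).re ≤ 9 / 8 * ‖off ζ‖ * y := by
    refine (re_le_norm _).trans ?_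
    rw [norm_mul, norm_mul, hn]
    gcongr
  have h6 : -(((y ^ (3 : ℕ) / 6 : ℝ) : ℂ) * ((u - u0) * E ^ (3 : ℕ))).re ≤ y ^ (3 : ℕ) / 6 * (1 / 8) := by
    refine (neg_le_abs _).trans ((abs_re_le_norm _).trans ?_)
    rw [norm_mul, norm_mul, norm_pow, hE, one_pow, mul_one, norm_real,
      Real.norm_of_nonneg (by (clear * - hy; positivity))]
    gcongr
  simp only [sub_re, add_re, ofReal_re]
  have h7 : y ^ (4 : ℕ) ≤ y ^ (3 : ℕ) * (1 / 8) := by
    have : y ^ (4 : ℕ) = y ^ (3 : ℕ) * y := by ring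
    rw [this]; gcongr
  have h8 : ‖off ζ‖ * y ^ (2 : ℕ) ≤ ‖off ζ‖ * y * (1 / 8) := by
    have : ‖off ζ‖ * y ^ (2 : ℕ) = ‖off ζ‖ * y * y := by ring
    rw [this]; gcongr
  have h9 : 0 ≤ ‖off ζ‖ * y := by (clear * - hy; positivity)
  have h10 : 0 ≤ y ^ (3 : ℕ) := by (clear * - hy; positivity)
  linarith only [h4, h5, h6, h7, h8, h9, h10]

theorem tip_bound {u0 : ℂ} (hu0 : ‖u0‖ = 1) : ∃ ρ1 : ℝ, 0 < ρ1 ∧ ρ1 ≤ 1 / 2 ∧ ∀ (u ζ : ℂ) (y : ℝ),
    ‖u - u0‖ ≤ ρ1 → ‖off ζ‖ ≤ ρ1 → 0 ≤ y → y ≤ ρ1 →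
    (u * (Ph ζ (1 + y * ep u0) - (-1 / 2 + off ζ))).re ≤ -(y ^ (3 : ℕ) / 8) + 2 * ‖off ζ‖ * y ∧
    (u * (Ph ζ (1 + y * em u0) - (-1 / 2 + off ζ))).re ≤ -(y ^ (3 : ℕ) / 8) + 2 * ‖off ζ‖ * y := by
  refine ⟨1 / 8, by norm_num, by norm_num, fun u ζ y hu _ hy hy1 => ⟨?_, ?_⟩⟩
  · exact tip_bound_aux (norm_ep u0) (ep_cube hu0) hu0 hu hy hy1
  · exact tip_bound_aux (norm_em u0) (em_cube hu0) hu0 hu hy hy1

end SokamV

end

/-! ### Lib_MP_af4de1_v.Cubic -/

section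
/-!
# The cubic phase: contours [SV-CUB]

`u = e^{iγ}`, `0 ≤ γ ≤ π/2`, `‖v‖ = 1`.  Substitute `s = κσ`, `κ = 2^{1/3}e^{-iγ/3}` (`κ³ = 2ū`): `u Cu v s = Xσ - σ³/3` with
`X = 2^{1/3} v e^{2iγ/3}`, and `R ep u = κ·R 2^{-1/3} e^{2πi/3}`, `R em u = κ·R 2^{-1/3}e^{-2πi/3}`.  Let `Γ(σ) = Re(Xσ - σ³/3)`.
CASE `X ≠ -2^{1/3}` (`v e^{2iγ/3} ≠ -1`): let `p² = X`, `p1 = Re p > 0`.  `Γ(-p+τ) = Γ(-p) + Re(pτ² - τ³/3)`; on `τ = iy`: `Γ(-p) - p1 y²`.
So `σ* = -p` is crossed vertically (`v = κ·5i`), then horizontally to the left: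
`τ = -x+5i`, `0 ≤ x ≤ 4`: `Re(pτ²-τ³/3) = p1(x²-25) + 10p2x + x³/3 - 25x ≤ -p1`, to the ray
`arg σ = 2π/3`, then along the ray, where `Γ ≤ |X|ϱ - ϱ³/3`.  The same below by reflection.
`c = Γ(-p)`, `|c| ≤ (2/3)|X|^{3/2} < 1`, `c' = c - p1`.
CASE `X = -2^{1/3} =: -q²`: with `σ = x+iy`, `Γ = x(y² - q² - x²/3)`.  Saddles `∓iq`, height `0`.  Contour: from the ray `arg = -2π/3`
to `-q-2qi`, through `-iq` to `q`, through `iq` to `-q+2qi`, to the ray `arg = 2π/3`.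
-/

namespace SokamV

open Complex Filter Topology

private theorem conn_map {g g' : ℂ → ℝ} {c : ℝ} {A B : ℂ} {f : ℂ → ℂ} (hf : Continuous f)
    (h : Conn g c A B) (hg : ∀ H, g' (f H) = g H) : Conn g' c (f A) (f B) := by
  obtain ⟨U, h1, h2, h3, h4⟩ := h
  refine ⟨f '' U, h1.image f hf.continuousOn, ⟨A, h2, rfl⟩, ⟨B, h3, rfl⟩, ?_⟩
  rintro _ ⟨H, hH, rfl⟩
  rw [hg]; exact h4 H hH

private theorem chain_conn {u0 : ℂ} {Ψ0 : ℂ → ℂ} {c c' δ : ℝ} {A B : ℂ} {L : List ℂ}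
    (h : Chain u0 Ψ0 c c' A L B) (h1 : c' ≤ δ) (h2 : c < δ) :
    Conn (fun H => (u0 * Ψ0 H).re) δ A B := by
  induction h with
  | nil h => exact h.mono h1
  | @cons A B S v L hc hs _ ih =>
    refine ((hc.mono h1).trans (Conn.segment ?_)).trans ih
    intro s hs0 hs1
    have e : S - v + (s : ℂ) * (S + v - (S - v)) = S + ((2 * s - 1 : ℝ) : ℂ) * v := by
      push_cast; ring
    rw [e]
    by_cases h0 : 2 * s - 1 = 0
    · rw [h0]; simp only [ofReal_zero, zero_mul, add_zero]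
      rw [hs.height]; exact h2
    · exact (hs.seg _ (abs_le.2 ⟨by linarith, by linarith⟩) h0).trans h2

/-- The phase in the scaled coordinate. -/
private noncomputable def ga (X s : ℂ) : ℝ := (X * s - s ^ (3 : ℕ) / 3).re

private theorem ga_scale {u v κ s : ℂ} (h : u * κ ^ (3 : ℕ) = 2) :
    (u * Cu v (κ * s)).re = ga (u * v * κ) s := by
  unfold ga Cu
  congr 1
  have : u * (v * (κ * s) - (κ * s) ^ (3 : ℕ) / 6) = u * v * κ * s - (u * κ ^ (3 : ℕ)) * s ^ (3 : ℕ) / 6 := by ring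
  rw [this, h]; ring

private theorem sad_scale {u v κ S V : ℂ} {c : ℝ} (hκ : κ ≠ 0) (hu0 : u ≠ 0) (h : u * κ ^ (3 : ℕ) = 2)
    (hS : S ^ (2 : ℕ) = u * v * κ) (hc : ga (u * v * κ) S = c) (hd : (S * V ^ (2 : ℕ)).re > 0)
    (hs : ∀ s : ℝ, |s| ≤ 1 → s ≠ 0 → ga (u * v * κ) (S + s * V) < c) :
    Sad u (Cu v) c (κ * S) (κ * V) := by
  have hder : ∀ s : ℂ, deriv (Cu v) s = v - s ^ (2 : ℕ) / 2 := by
    intro s
    have h1 : HasDerivAt (Cu v) (v * 1 - (3 * s ^ (2 : ℕ)) / 6) s := by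
      unfold Cu
      have h2 : HasDerivAt (fun s : ℂ => v * s) (v * 1) s := (hasDerivAt_id s).const_mul v
      have h3 : HasDerivAt (fun s : ℂ => s ^ (3 : ℕ)) (3 * s ^ (2 : ℕ)) s := by
        simpa using hasDerivAt_pow 3 s
      exact h2.sub (h3.div_const 6)
    rw [h1.deriv]; ring
  have hder2 : deriv (deriv (Cu v)) (κ * S) = -(κ * S) := by
    have h1 : deriv (Cu v) = fun s => v - s ^ (2 : ℕ) / 2 := funext hder
    rw [h1]
    have h3 : HasDerivAt (fun s : ℂ => s ^ (2 : ℕ)) (2 * (κ * S)) (κ * S) := by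
      simpa using hasDerivAt_pow 2 (κ * S)
    have h4 : HasDerivAt (fun s : ℂ => v - s ^ (2 : ℕ) / 2) (0 - 2 * (κ * S) / 2) (κ * S) :=
      (hasDerivAt_const _ v).sub (h3.div_const 2)
    rw [h4.deriv]; ring
  refine ⟨?_, ?_, ?_, ?_⟩
  · rw [hder]
    have h1 : u * κ * (v - (κ * S) ^ (2 : ℕ) / 2) = 0 := by
      have : u * κ * (v - (κ * S) ^ (2 : ℕ) / 2) = u * v * κ - (u * κ ^ (3 : ℕ)) * S ^ (2 : ℕ) / 2 := by ring
      rw [this, h, hS]; ring
    rcases mul_eq_zero.1 h1 with h2 | h2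
    · exact absurd h2 (mul_ne_zero hu0 hκ)
    · exact h2
  · rw [ga_scale h]; exact hc
  · rw [hder2]
    have : u * -(κ * S) * (κ * V) ^ (2 : ℕ) = -((u * κ ^ (3 : ℕ)) * (S * V ^ (2 : ℕ))) := by ring
    rw [this, h, neg_re]
    have h2 : (2 * (S * V ^ (2 : ℕ))).re = 2 * (S * V ^ (2 : ℕ)).re := by
      simp [mul_re]
    rw [h2]; linarith
  · intro s h1 h2
    have : κ * S + s * (κ * V) = κ * (S + s * V) := by ring
    rw [this, ga_scale h]
    exact hs s h1 h2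

private theorem ga_shift (p : ℂ) (x y : ℝ) : ga (p ^ (2 : ℕ)) (-p + (x + y * I)) =
    -(2 / 3) * (p ^ (3 : ℕ)).re + p.re * (x ^ (2 : ℕ) - y ^ (2 : ℕ)) - 2 * p.im * x * y - x ^ (3 : ℕ) / 3 + x * y ^ (2 : ℕ) := by
  obtain ⟨a, b⟩ := p
  unfold ga
  have h : ∀ z : ℂ, (z / 3).re = z.re / 3 := fun z => by
    have := Complex.div_ofReal_re z 3
    simpa using this
  rw [sub_re, h]
  simp only [pow_succ, pow_zero, one_mul, mul_re, mul_im, add_re, add_im, neg_re, neg_im,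
    ofReal_re, ofReal_im, I_re, I_im]
  ring

private theorem ga_xy (X : ℝ) (x y : ℝ) : ga (X : ℂ) (x + y * I) =
    x * (y ^ (2 : ℕ) + X - x ^ (2 : ℕ) / 3) := by
  unfold ga
  have h : ∀ z : ℂ, (z / 3).re = z.re / 3 := fun z => by
    have := Complex.div_ofReal_re z 3
    simpa using this
  rw [sub_re, h]
  simp only [pow_succ, pow_zero, one_mul, mul_re, mul_im, add_re, add_im, neg_re, neg_im,
    ofReal_re, ofReal_im, I_re, I_im]
  ring

/-- The upper ray direction. -/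
private noncomputable def om : ℂ := ⟨-1 / 2, Real.sqrt 3 / 2⟩

private theorem om_cube : om ^ (3 : ℕ) = 1 := by
  have h3 : Real.sqrt 3 ^ (2 : ℕ) = 3 := Real.sq_sqrt (by norm_num)
  have h3' : Real.sqrt 3 * Real.sqrt 3 = 3 := by rw [← sq]; exact h3
  apply Complex.ext
  · simp only [om, pow_succ, pow_zero, one_mul, mul_re, mul_im, one_re]
    ring_nf; rw [h3]; norm_num
  · simp only [om, pow_succ, pow_zero, one_mul, mul_re, mul_im, one_im]
    ring_nf
    have : Real.sqrt 3 ^ (3 : ℕ) = 3 * Real.sqrt 3 := by rw [pow_succ, h3]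
    rw [this]; ring

private theorem norm_om : ‖om‖ = 1 := by
  have h := congrArg norm om_cube
  rw [norm_pow, norm_one] at h
  exact (pow_eq_one_iff_of_nonneg (norm_nonneg _) (by norm_num)).1 h

private theorem exp_om : cexp (2 * Real.pi / 3 * I) = om := by
  have e : (2 * Real.pi / 3 * I : ℂ) = ((Real.pi - Real.pi / 3 : ℝ) : ℂ) * I := by
    push_cast; ring
  rw [e, exp_mul_I, ← ofReal_cos, ← ofReal_sin, Real.cos_pi_sub, Real.sin_pi_sub,
    Real.cos_pi_div_three, Real.sin_pi_div_three]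
  apply Complex.ext
  · simp [om]; norm_num
  · simp [om]

private theorem exp_om' : cexp (-(2 * Real.pi / 3) * I) = (starRingEnd ℂ) om := by
  rw [← exp_om, ← exp_conj]
  congr 1
  simp only [map_mul, map_div₀, conj_ofReal, conj_I, map_ofNat]
  ring

private theorem scale_data {u v : ℂ} (hu : ‖u‖ = 1) : ∃ a : ℝ, 0 < a ∧ a ^ (3 : ℕ) = 2 ∧
    ∃ κ : ℂ, κ ≠ 0 ∧ u * κ ^ (3 : ℕ) = 2 ∧ u * v * κ = a * (v * cexp (2 * u.arg / 3 * I)) ∧
      (∀ R : ℝ, (R : ℂ) * ep u = κ * ((R / a : ℝ) * om)) ∧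
      (∀ R : ℝ, (R : ℂ) * em u = κ * ((R / a : ℝ) * (starRingEnd ℂ) om)) := by
  have ha : (0 : ℝ) < (2 : ℝ) ^ ((1 : ℝ) / 3) := Real.rpow_pos_of_pos (by norm_num) _
  have ha3 : ((2 : ℝ) ^ ((1 : ℝ) / 3)) ^ (3 : ℕ) = 2 := by
    rw [← Real.rpow_natCast, ← Real.rpow_mul (by norm_num)]
    norm_num
  generalize (2 : ℝ) ^ ((1 : ℝ) / 3) = a at ha ha3
  have hu' : u = cexp (u.arg * I) := by
    have := Complex.norm_mul_exp_arg_mul_I u
    rw [hu] at this
    simpa using this.symm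
  have ha0 : (a : ℂ) ≠ 0 := by exact_mod_cast ha.ne'
  refine ⟨a, ha, ha3, a * cexp (-(u.arg / 3) * I), mul_ne_zero ha0 (exp_ne_zero _), ?_, ?_, ?_, ?_⟩
  · rw [mul_pow, ← Complex.exp_nat_mul]
    have h1 : (a : ℂ) ^ (3 : ℕ) = 2 := by exact_mod_cast congrArg ((↑) : ℝ → ℂ) ha3
    rw [h1]
    nth_rewrite 1 [hu']
    have : cexp (u.arg * I) * (2 * cexp (((3 : ℕ) : ℂ) * (-(u.arg / 3) * I))) =
        2 * (cexp (u.arg * I) * cexp (((3 : ℕ) : ℂ) * (-(u.arg / 3) * I))) := by ring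
    rw [this, ← Complex.exp_add]
    have h2 : (u.arg * I + ((3 : ℕ) : ℂ) * (-(u.arg / 3) * I) : ℂ) = 0 := by push_cast; ring
    rw [h2, Complex.exp_zero, mul_one]
  · nth_rewrite 1 [hu']
    have : cexp (u.arg * I) * v * (a * cexp (-(u.arg / 3) * I)) =
        a * (v * (cexp (u.arg * I) * cexp (-(u.arg / 3) * I))) := by ring
    rw [this, ← Complex.exp_add]
    congr 3
    ring
  · intro R
    rw [← exp_om]
    unfold ep
    have : (a * cexp (-(u.arg / 3) * I) * ((R / a : ℝ) * cexp (2 * Real.pi / 3 * I)) : ℂ) =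
        (a * (R / a)) * (cexp (2 * Real.pi / 3 * I) * cexp (-(u.arg / 3) * I)) := by
      push_cast; ring
    rw [this, mul_div_cancel₀ _ ha0, ← Complex.exp_add]
    congr 2
    ring
  · intro R
    rw [← exp_om']
    unfold em
    have : (a * cexp (-(u.arg / 3) * I) * ((R / a : ℝ) * cexp (-(2 * Real.pi / 3) * I)) : ℂ) =
        (a * (R / a)) * (cexp (-(2 * Real.pi / 3) * I) * cexp (-(u.arg / 3) * I)) := by
      push_cast; ring
    rw [this, mul_div_cancel₀ _ ha0, ← Complex.exp_add]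
    congr 2
    ring

private theorem ga_conj (X s : ℂ) :
    ga ((starRingEnd ℂ) X) ((starRingEnd ℂ) s) = ga X s := by
  unfold ga
  have : (starRingEnd ℂ) X * (starRingEnd ℂ) s - (starRingEnd ℂ) s ^ (3 : ℕ) / 3 =
      (starRingEnd ℂ) (X * s - s ^ (3 : ℕ) / 3) := by
    simp only [map_sub, map_mul, map_div₀, map_pow, map_ofNat]
  rw [this, conj_re]

private theorem ga_ray (X : ℂ) (r : ℝ) (hr : 0 ≤ r) : ga X (r * om) ≤ ‖X‖ * r - r ^ (3 : ℕ) / 3 := by
  unfold ga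
  have h : ∀ z : ℂ, (z / 3).re = z.re / 3 := fun z => by
    have := Complex.div_ofReal_re z 3
    simpa using this
  rw [sub_re, h, mul_pow, om_cube, mul_one]
  have h1 : ((r : ℂ) ^ (3 : ℕ)).re = r ^ (3 : ℕ) := by rw [← ofReal_pow, ofReal_re]
  rw [h1]
  have h2 : (X * (r * om)).re ≤ ‖X‖ * r := by
    calc (X * (r * om)).re ≤ ‖X * (r * om)‖ := re_le_norm _
      _ = ‖X‖ * r := by
        rw [norm_mul, norm_mul, norm_om, mul_one, norm_real, Real.norm_of_nonneg hr]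
  linarith

/-- The upper half of the contour in the first case. -/
private theorem half_one {a : ℝ} (ha : 0 < a) (ha3 : a ^ (3 : ℕ) = 2) {p : ℂ} (hp : ‖p‖ ^ (2 : ℕ) = a)
    (hp1 : 0 < p.re) {r : ℝ} (hr : 8 ≤ r) :
    Conn (ga (p ^ (2 : ℕ))) (-(2 / 3) * (p ^ (3 : ℕ)).re - p.re) (-p + 5 * I) (r * om) := by
  have ha1 : a < 1.27 := by
    by_contra hcon
    push Not at hcon
    have : (1.27 : ℝ) ^ (3 : ℕ) ≤ a ^ (3 : ℕ) := pow_le_pow_left₀ (by norm_num) hcon 3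
    rw [ha3] at this; norm_num at this
  have hp0 : ‖p‖ ≤ 1.13 := by
    by_contra hcon
    push Not at hcon
    have : (1.13 : ℝ) ^ (2 : ℕ) ≤ ‖p‖ ^ (2 : ℕ) := pow_le_pow_left₀ (by norm_num) hcon.le 2
    rw [hp] at this; norm_num at this
    linarith
  have hp2 := abs_le.1 ((abs_im_le_norm p).trans hp0)
  have hp3 := abs_le.1 ((abs_re_le_norm p).trans hp0)
  have hp4 : |(p ^ (3 : ℕ)).re| ≤ 1.5 := by
    calc |(p ^ (3 : ℕ)).re| ≤ ‖p ^ (3 : ℕ)‖ := abs_re_le_norm _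
      _ = ‖p‖ ^ (3 : ℕ) := norm_pow _ _
      _ ≤ 1.13 ^ (3 : ℕ) := pow_le_pow_left₀ (norm_nonneg _) hp0 3
      _ ≤ 1.5 := by norm_num
  have hp5 := abs_le.1 hp4
  set w : ℝ := Real.sqrt 3 with hw
  have hw2 : w ^ (2 : ℕ) = 3 := Real.sq_sqrt (by norm_num)
  have hw0 : 0 ≤ w := Real.sqrt_nonneg _
  have hw1 : 1.73 ≤ w := by nlinarith only [hw2, hw0]
  have hw3 : w ≤ 1.74 := by nlinarith only [hw2]
  set r0 : ℝ := 2 * (5 - p.im) * w / 3 with hr0
  have hr1 : r0 ≤ 8 := by rw [hr0]; nlinarith only [hp2, hw3]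
  have hr2 : 4 ≤ r0 := by rw [hr0]; nlinarith only [hp2, hw1]
  have hend : (r0 : ℂ) * om - (-p + 5 * I) = ((-(r0 / 2 - p.re) : ℝ) : ℂ) := by
    apply Complex.ext
    · simp [om]; ring
    · simp [om]
      rw [hr0, ← hw]
      have : 2 * (5 - p.im) * w / 3 * (w / 2) = (5 - p.im) * w ^ (2 : ℕ) / 3 := by ring
      rw [this, hw2]; ring
  have hx0 : 0 ≤ r0 / 2 - p.re := by linarith
  have hx1 : r0 / 2 - p.re ≤ 4 := by linarith
  refine Conn.trans (B := (r0 : ℂ) * om) (Conn.segment ?_) (Conn.segment ?_)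
  · intro s hs0 hs1
    rw [hend]
    have e : -p + 5 * I + (s : ℂ) * ((-(r0 / 2 - p.re) : ℝ) : ℂ) =
        -p + (((-(s * (r0 / 2 - p.re)) : ℝ) : ℂ) + ((5 : ℝ) : ℂ) * I) := by
      push_cast; ring
    rw [e, ga_shift]
    have hx2 : 0 ≤ s * (r0 / 2 - p.re) := mul_nonneg hs0 hx0
    have hx3 : s * (r0 / 2 - p.re) ≤ 4 := by nlinarith only [hx1, hs0, hs1]
    generalize s * (r0 / 2 - p.re) = x at hx2 hx3
    have k1 : p.re * (x ^ (2 : ℕ) - 25) < -p.re := by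
      have k0 : x ^ (2 : ℕ) - 25 < -1 := by nlinarith only [hx2, hx3]
      linarith only [mul_pos hp1 (sub_pos.2 k0)]
    have k2 : x * (10 * p.im + x ^ (2 : ℕ) / 3 - 25) ≤ 0 := by
      apply mul_nonpos_of_nonneg_of_nonpos hx2
      nlinarith only [hw1, hw3, hr0, hr2, hx2, hx3]
    linarith only [k1, k2]
  · intro s hs0 hs1
    have e : (r0 : ℂ) * om + (s : ℂ) * ((r : ℂ) * om - (r0 : ℂ) * om) =
        ((r0 + s * (r - r0) : ℝ) : ℂ) * om := by push_cast; ring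
    rw [e]
    have hR : 4 ≤ r0 + s * (r - r0) := by nlinarith only [hr, hr2, hs0, hs1]
    generalize r0 + s * (r - r0) = x at hR
    have h1 := ga_ray (p ^ (2 : ℕ)) x (by linarith)
    rw [norm_pow, hp] at h1
    have h2 : a * x - x ^ (3 : ℕ) / 3 < -3 := by
      have : x * (a - x ^ (2 : ℕ) / 3) ≤ 4 * (-3) := by nlinarith only [ha1, hR]
      linarith only [this]
    have h3 : -(2 / 3) * (p ^ (3 : ℕ)).re - p.re ≥ -3 := by linarith
    linarith

/-- One saddle point. -/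
theorem cubic_one {u v : ℂ} (hu : ‖u‖ = 1) (hre : 0 ≤ u.re) (him : 0 ≤ u.im) (hv : ‖v‖ = 1)
    (h : v * cexp (2 * u.arg / 3 * I) ≠ -1) : ∃ c : ℝ, -1 < c ∧ c < 1 ∧ ∃ S : ℂ, ∃ c' < c, ∃ R1 : ℝ,
      ∀ R : ℝ, R1 ≤ R → Chain u (Cu v) c c' (R * em u) [S] (R * ep u) := by
  obtain ⟨a, ha, ha3, κ, hκ, hκ3, hX, hep, hem⟩ := scale_data (v := v) hu
  have hu0 : u ≠ 0 := by rintro rfl; simp at hu
  have hXn : ‖u * v * κ‖ = a := by
    rw [hX, norm_mul, norm_mul, hv, norm_real, Real.norm_of_nonneg ha.le]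
    have : (2 * u.arg / 3 * I : ℂ) = ((2 * u.arg / 3 : ℝ) : ℂ) * I := by push_cast; ring
    rw [this, norm_exp_ofReal_mul_I]; ring
  obtain ⟨p0, hp0⟩ := IsAlgClosed.exists_pow_nat_eq (u * v * κ) (n := 2) (by norm_num)
  have hp0n : ‖p0‖ ^ (2 : ℕ) = a := by rw [← norm_pow, hp0, hXn]
  obtain ⟨p, hp, hpn, hp1⟩ : ∃ p : ℂ, p ^ (2 : ℕ) = u * v * κ ∧ ‖p‖ ^ (2 : ℕ) = a ∧ 0 < p.re := by
    rcases lt_trichotomy p0.re 0 with h1 | h1 | h1
    · exact ⟨-p0, by rw [neg_sq]; exact hp0, by rw [norm_neg]; exact hp0n,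
        by rw [neg_re]; linarith⟩
    · exfalso
      apply h
      have h2 : p0 = (p0.im : ℂ) * I := by
        apply Complex.ext
        · simp [h1]
        · simp
      have h3 : p0 ^ (2 : ℕ) = -(a : ℂ) := by
        rw [h2, mul_pow, I_sq, ← ofReal_pow]
        have : ‖p0‖ ^ (2 : ℕ) = p0.im ^ (2 : ℕ) := by
          rw [h2]; simp
        rw [← this, hp0n]; ring
      have ha0 : (a : ℂ) ≠ 0 := by exact_mod_cast ha.ne'
      have h4 : (a : ℂ) * (v * cexp (2 * u.arg / 3 * I)) = a * (-1) := by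
        rw [← hX, ← hp0, h3]; ring
      exact mul_left_cancel₀ ha0 h4
    · exact ⟨p0, hp0, hp0n, h1⟩
  have hp6 : (‖p‖ ^ (3 : ℕ)) ^ (2 : ℕ) = 2 := by
    rw [← ha3, ← hpn]; ring
  have hp7 : ‖p‖ ^ (3 : ℕ) < 1.5 := by
    have : 0 ≤ ‖p‖ ^ (3 : ℕ) := by (clear * -; positivity)
    nlinarith only [hp6]
  have hp8 : |(p ^ (3 : ℕ)).re| < 1.5 := by
    calc |(p ^ (3 : ℕ)).re| ≤ ‖p ^ (3 : ℕ)‖ := abs_re_le_norm _
      _ = ‖p‖ ^ (3 : ℕ) := norm_pow _ _
      _ < 1.5 := hp7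
  have hp9 := abs_lt.1 hp8
  refine ⟨-(2 / 3) * (p ^ (3 : ℕ)).re, by linarith, by linarith, κ * (-p),
    -(2 / 3) * (p ^ (3 : ℕ)).re - p.re, by linarith, 8 * a, ?_⟩
  intro R hR
  have hRa : 8 ≤ R / a := by rw [le_div_iff₀ ha]; exact hR
  refine Chain.cons (v := κ * (5 * I)) ?_ ?_ (Chain.nil ?_)
  · rw [hem, ← mul_sub]
    have hc : (p ^ (3 : ℕ)).re = ((starRingEnd ℂ) p ^ (3 : ℕ)).re := by
      rw [← map_pow, conj_re]
    have k := half_one ha ha3 (p := (starRingEnd ℂ) p) (by rw [RCLike.norm_conj]; exact hpn)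
      (by rw [conj_re]; exact hp1) hRa
    rw [← hc, conj_re, ← map_pow] at k
    have k2 := conn_map (g' := ga (p ^ (2 : ℕ))) continuous_conj k (fun H => by
      have := ga_conj (p ^ (2 : ℕ)) ((starRingEnd ℂ) H)
      rw [Complex.conj_conj] at this
      exact this.symm)
    have e1 : (starRingEnd ℂ) (-(starRingEnd ℂ) p + 5 * I) = -p - 5 * I := by
      simp only [map_add, map_neg, map_mul, Complex.conj_conj, conj_I, map_ofNat]; ring
    have e2 : (starRingEnd ℂ) (((R / a : ℝ) : ℂ) * om) = ((R / a : ℝ) : ℂ) * (starRingEnd ℂ) om := by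
      rw [map_mul, conj_ofReal]
    rw [e1, e2] at k2
    exact conn_map (f := fun s => κ * s) (continuous_const.mul continuous_id) k2.symm
      (fun H => by rw [ga_scale hκ3, hp])
  · refine sad_scale hκ hu0 hκ3 (by rw [neg_sq, hp]) ?_ ?_ ?_
    · rw [← hp]
      have := ga_shift p 0 0
      simpa using this
    · have : -p * (5 * I) ^ (2 : ℕ) = 25 * p := by rw [mul_pow, I_sq]; ring
      rw [this]
      have h2 : (25 * p).re = 25 * p.re := by simp [mul_re]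
      rw [h2]; linarith
    · intro s _ hs
      rw [← hp]
      have e : -p + (s : ℂ) * (5 * I) = -p + (((0 : ℝ) : ℂ) + ((5 * s : ℝ) : ℂ) * I) := by
        push_cast; ring
      rw [e, ga_shift]
      have : 0 < s ^ (2 : ℕ) := by (clear * - hs; positivity)
      nlinarith only [hp1, this]
  · rw [hep, ← mul_add]
    have k := half_one ha ha3 hpn hp1 hRa
    exact conn_map (f := fun s => κ * s) (continuous_const.mul continuous_id) k
      (fun H => by rw [ga_scale hκ3, hp])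

/-- The upper half of the contour in the second case. -/
private theorem half_two {a q : ℝ} (hq : 0 < q) (hqa : q ^ (2 : ℕ) = a) (ha3 : a ^ (3 : ℕ) = 2)
    {r : ℝ} (hr : 8 ≤ r) :
    Conn (ga ((-a : ℝ) : ℂ)) (-1) ((-q : ℝ) + (2 * q : ℝ) * I) (r * om) := by
  have hq6 : (q ^ (3 : ℕ)) ^ (2 : ℕ) = 2 := by rw [← ha3, ← hqa]; ring
  have hq3 : 1 ≤ q ^ (3 : ℕ) := by
    have : 0 < q ^ (3 : ℕ) := by positivity
    nlinarith only [hq6, this]
  have hq1 : 1 ≤ q := by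
    by_contra hcon
    push Not at hcon
    have : q ^ (3 : ℕ) < 1 := pow_lt_one₀ hq.le hcon (by norm_num)
    linarith
  have hq2 : q ≤ 1.13 := by
    by_contra hcon
    push Not at hcon
    have : (1.13 : ℝ) ^ (6 : ℕ) ≤ q ^ (6 : ℕ) := pow_le_pow_left₀ (by norm_num) hcon.le 6
    have h6 : q ^ (6 : ℕ) = 2 := by rw [← hq6]; ring
    rw [h6] at this; norm_num at this
  set w : ℝ := Real.sqrt 3 with hw
  have hw2 : w ^ (2 : ℕ) = 3 := Real.sq_sqrt (by norm_num)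
  have hw0 : 0 ≤ w := Real.sqrt_nonneg _
  have hw1 : 1.73 ≤ w := by nlinarith only [hw2, hw0]
  have hw3 : w ≤ 1.74 := by nlinarith only [hw2]
  set r0 : ℝ := 4 * q * w / 3 with hr0
  have hr1 : r0 ≤ 8 := by rw [hr0]; nlinarith only [hq2, hw2, hw0]
  have hr2 : 2.3 * q ≤ r0 := by rw [hr0]; nlinarith only [hq1, hw1]
  have hr3 : r0 ≤ 2.32 * q := by rw [hr0]; nlinarith only [hw1, hw3, hr0, hr2]
  have hend : (r0 : ℂ) * om - ((-q : ℝ) + (2 * q : ℝ) * I) = ((-(r0 / 2 - q) : ℝ) : ℂ) := by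
    apply Complex.ext
    · simp [om]; ring
    · simp [om]
      rw [hr0, ← hw]
      have : 4 * q * w / 3 * (w / 2) = 2 * q * w ^ (2 : ℕ) / 3 := by ring
      rw [this, hw2]; ring
  refine Conn.trans (B := (r0 : ℂ) * om) (Conn.segment ?_) (Conn.segment ?_)
  · intro s hs0 hs1
    rw [hend]
    have e : ((-q : ℝ) : ℂ) + (2 * q : ℝ) * I + (s : ℂ) * ((-(r0 / 2 - q) : ℝ) : ℂ) =
        (((-(q + s * (r0 / 2 - q)) : ℝ) : ℂ) + ((2 * q : ℝ) : ℂ) * I) := by
      push_cast; ring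
    rw [e, ga_xy]
    have hx2 : q ≤ q + s * (r0 / 2 - q) := by nlinarith only [hr2, hr3, hs0]
    have hx3 : q + s * (r0 / 2 - q) ≤ 1.2 * q := by nlinarith only [hr2, hr3, hs1]
    generalize q + s * (r0 / 2 - q) = x at hx2 hx3
    have k1 : (2 * q) ^ (2 : ℕ) + -a - (-x) ^ (2 : ℕ) / 3 ≥ 2 := by nlinarith only [hqa, hq1, hx2, hx3]
    nlinarith only [hq1, hx2, k1]
  · intro s hs0 hs1
    have e : (r0 : ℂ) * om + (s : ℂ) * ((r : ℂ) * om - (r0 : ℂ) * om) =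
        (((-(r0 + s * (r - r0)) / 2 : ℝ) : ℂ) + (((r0 + s * (r - r0)) * w / 2 : ℝ) : ℂ) * I) := by
      apply Complex.ext
      · simp [om]; ring
      · simp [om, ← hw]; ring
    rw [e, ga_xy]
    have hR : 2.3 * q ≤ r0 + s * (r - r0) := by nlinarith only [hr, hr1, hr2, hs0]
    generalize r0 + s * (r - r0) = x at hR
    have k1 : (x * w / 2) ^ (2 : ℕ) + -a - (-x / 2) ^ (2 : ℕ) / 3 = 2 / 3 * x ^ (2 : ℕ) - a := by
      have : (x * w / 2) ^ (2 : ℕ) = x ^ (2 : ℕ) * w ^ (2 : ℕ) / 4 := by ring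
      rw [this, hw2]; ring
    rw [k1]
    have k2 : 2 / 3 * x ^ (2 : ℕ) - a ≥ 2 := by nlinarith only [hqa, hq1, hR]
    nlinarith only [hq1, hR, k2]

/-- Two saddle points at the height `0`. -/
theorem cubic_two {u v : ℂ} (hu : ‖u‖ = 1) (hre : 0 ≤ u.re) (him : 0 ≤ u.im) (hv : ‖v‖ = 1)
    (h : v * cexp (2 * u.arg / 3 * I) = -1) : ∃ S S' : ℂ, S ≠ S' ∧ ∃ c' < (0 : ℝ), ∃ R1 : ℝ,
      ∀ R : ℝ, R1 ≤ R → Chain u (Cu v) 0 c' (R * em u) [S, S'] (R * ep u) := by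
  obtain ⟨a, ha, ha3, κ, hκ, hκ3, hX, hep, hem⟩ := scale_data (v := v) hu
  have hu0 : u ≠ 0 := by rintro rfl; simp at hu
  have hX' : u * v * κ = ((-a : ℝ) : ℂ) := by rw [hX, h]; push_cast; ring
  obtain ⟨q, hq, hqa⟩ : ∃ q : ℝ, 0 < q ∧ q ^ (2 : ℕ) = a :=
    ⟨Real.sqrt a, Real.sqrt_pos.2 ha, Real.sq_sqrt ha.le⟩
  have hq6 : (q ^ (3 : ℕ)) ^ (2 : ℕ) = 2 := by rw [← ha3, ← hqa]; ring
  have hq3 : 1 ≤ q ^ (3 : ℕ) := by
    have : 0 < q ^ (3 : ℕ) := by (clear * - hq; positivity)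
    nlinarith only [hq6, this]
  refine ⟨κ * (-(q * I)), κ * (q * I), ?_, -1, by norm_num, 8 * a, ?_⟩
  · intro hcon
    have h1 := mul_left_cancel₀ hκ hcon
    have h2 := congrArg Complex.im h1
    simp at h2
    linarith
  intro R hR
  have hRa : 8 ≤ R / a := by rw [le_div_iff₀ ha]; exact hR
  have k := half_two hq hqa ha3 hRa
  refine Chain.cons (v := κ * (q + q * I)) ?_ ?_ (Chain.cons (v := κ * (-q + q * I)) ?_ ?_
    (Chain.nil ?_))
  · rw [hem, ← mul_sub]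
    have k2 := conn_map (g' := ga ((-a : ℝ) : ℂ)) continuous_conj k (fun H => by
      have := ga_conj ((-a : ℝ) : ℂ) H
      rw [conj_ofReal] at this
      exact this)
    have e1 : (starRingEnd ℂ) (((-q : ℝ) : ℂ) + (2 * q : ℝ) * I) =
        -(q * I) - (q + q * I) := by
      simp only [map_add, map_mul, conj_ofReal, conj_I]; push_cast; ring
    have e2 : (starRingEnd ℂ) (((R / a : ℝ) : ℂ) * om) = ((R / a : ℝ) : ℂ) * (starRingEnd ℂ) om := by
      rw [map_mul, conj_ofReal]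
    rw [e1, e2] at k2
    exact conn_map (f := fun s => κ * s) (continuous_const.mul continuous_id) k2.symm
      (fun H => by rw [ga_scale hκ3, hX'])
  · refine sad_scale hκ hu0 hκ3 ?_ ?_ ?_ ?_
    · rw [hX', neg_sq, mul_pow, I_sq, ← hqa]; push_cast; ring
    · rw [hX']
      have e : -((q : ℂ) * I) = (((0 : ℝ) : ℂ) + ((-q : ℝ) : ℂ) * I) := by push_cast; ring
      rw [e, ga_xy]; ring
    · have e : -((q : ℂ) * I) * ((q : ℂ) + q * I) ^ (2 : ℕ) = ((2 * q ^ (3 : ℕ) : ℝ) : ℂ) := by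
        push_cast
        linear_combination (-(q : ℂ) ^ (3 : ℕ) * I - 2 * (q : ℂ) ^ (3 : ℕ) + 0) * I_sq
      rw [e, ofReal_re]; (clear * - hq; positivity)
    · intro s hs1 hs
      rw [hX']
      have e : -((q : ℂ) * I) + (s : ℂ) * ((q : ℂ) + q * I) =
          (((s * q : ℝ) : ℂ) + ((-q + s * q : ℝ) : ℂ) * I) := by push_cast; ring
      rw [e, ga_xy, ← hqa]
      have e2 : s * q * ((-q + s * q) ^ (2 : ℕ) + -q ^ (2 : ℕ) - (s * q) ^ (2 : ℕ) / 3) =
          -(q ^ (3 : ℕ) * s ^ (2 : ℕ)) * (2 - 2 / 3 * s) := by ring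
      rw [e2]
      have h1 := abs_le.1 hs1
      have h2 : 0 < q ^ (3 : ℕ) * s ^ (2 : ℕ) := by (clear * - hq hs; positivity)
      nlinarith only [h1, h2]
  · have e : κ * -(q * I) + κ * (q + q * I) = κ * (q * I) - κ * (-q + q * I) := by ring
    rw [e]
    apply Conn.refl
    have e : κ * (q * I) - κ * (-q + q * I) = κ * (((q : ℝ) : ℂ) + ((0 : ℝ) : ℂ) * I) := by
      push_cast; ring
    rw [e, ga_scale hκ3, hX', ga_xy, ← hqa]
    have e2 : q * (0 ^ (2 : ℕ) + -q ^ (2 : ℕ) - q ^ (2 : ℕ) / 3) = -(4 / 3) * q ^ (3 : ℕ) := by ring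
    rw [e2]; linarith
  · refine sad_scale hκ hu0 hκ3 ?_ ?_ ?_ ?_
    · rw [hX', mul_pow, I_sq, ← hqa]; push_cast; ring
    · rw [hX']
      have e : ((q : ℂ) * I) = (((0 : ℝ) : ℂ) + ((q : ℝ) : ℂ) * I) := by push_cast; ring
      rw [e, ga_xy]; ring
    · have e : ((q : ℂ) * I) * (-(q : ℂ) + q * I) ^ (2 : ℕ) = ((2 * q ^ (3 : ℕ) : ℝ) : ℂ) := by
        push_cast
        linear_combination ((q : ℂ) ^ (3 : ℕ) * I - 2 * (q : ℂ) ^ (3 : ℕ) + 0) * I_sq
      rw [e, ofReal_re]; (clear * - hq; positivity)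
    · intro s hs1 hs
      rw [hX']
      have e : ((q : ℂ) * I) + (s : ℂ) * (-(q : ℂ) + q * I) =
          (((-(s * q) : ℝ) : ℂ) + ((q + s * q : ℝ) : ℂ) * I) := by push_cast; ring
      rw [e, ga_xy, ← hqa]
      have e2 : -(s * q) * ((q + s * q) ^ (2 : ℕ) + -q ^ (2 : ℕ) - (-(s * q)) ^ (2 : ℕ) / 3) =
          -(q ^ (3 : ℕ) * s ^ (2 : ℕ)) * (2 + 2 / 3 * s) := by ring
      rw [e2]
      have h1 := abs_le.1 hs1
      have h2 : 0 < q ^ (3 : ℕ) * s ^ (2 : ℕ) := by (clear * - hq hs; positivity)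
      nlinarith only [h1, h2]
  · rw [hep, ← mul_add]
    have e1 : ((-q : ℝ) : ℂ) + (2 * q : ℝ) * I = (q * I) + (-q + q * I) := by push_cast; ring
    rw [e1] at k
    exact conn_map (f := fun s => κ * s) (continuous_const.mul continuous_id) k
      (fun H => by rw [ga_scale hκ3, hX'])

/-- Upper bound in the second case. -/
theorem cubic_two_conn {u v : ℂ} (hu : ‖u‖ = 1) (hre : 0 ≤ u.re) (him : 0 ≤ u.im) (hv : ‖v‖ = 1)
    (h : v * cexp (2 * u.arg / 3 * I) = -1) {δ : ℝ} (hδ : 0 < δ) : ∃ R1 : ℝ, ∀ R : ℝ, R1 ≤ R →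
      Conn (fun H => (u * Cu v H).re) δ (R * em u) (R * ep u) := by
  obtain ⟨S, S', _, c', hc', R1, h1⟩ := cubic_two hu hre him hv h
  exact ⟨R1, fun R hR => chain_conn (h1 R hR) (hc'.le.trans hδ.le) hδ⟩

end SokamV

end
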