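import Pool.Agent.Lib_MP_af4de1_zy.Z89

/-! ### Lib_MP_af4de1_fu.T.Ck0 -/

section
set_option autoImplicit false

namespace SokamFU

theorem ck0 : blkOK goodK blk0 = true ∧ blkOK goodK blk1 = true ∧ blkOK goodK blk2 = true ∧ blkOK goodK blk3 = true ∧ blkOK goodK blk4 = true := by
  refine ⟨by decide +kernel, ?_⟩
  refine ⟨by decide +kernel, ?_⟩
  refine ⟨by decide +kernel, ?_⟩
  refine ⟨by decide +kernel, ?_⟩
  decide +kernel

theorem blk0_ok : blkOK goodK blk0 = true := ck0.1

theorem blk1_ok : blkOK goodK blk1 = true := ck0.2.1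

theorem blk2_ok : blkOK goodK blk2 = true := ck0.2.2.1

theorem blk3_ok : blkOK goodK blk3 = true := ck0.2.2.2.1

theorem blk4_ok : blkOK goodK blk4 = true := ck0.2.2.2.2

end SokamFU

end
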