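import Pool.Agent.Lib_MP_af4de1_zy.Z62

/-! ### Lib_MP_af4de1_ti.CertD2 -/

section
/-!
# Tip certificate: strips, part 2
-/

set_option autoImplicit false

namespace SokamTI

/-- strips from `892 / 1024` to `1228 / 1024` -/
def sd2 : List (ℤ × ℤ × List ℤ) := [
  (940, 356, [402, 452, 506, 563, 626, 693, 752]),
  (988, 376, [422, 472, 526, 585, 645, 712, 779, 791]),
  (1036, 395, [441, 491, 545, 599, 661, 727, 795, 829]),
  (1084, 414, [456, 502, 552, 606, 665, 728, 792, 862, 868]),
  (1132, 433, [475, 521, 571, 625, 679, 736, 798, 860, 906]),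
  (1180, 452, [491, 533, 579, 629, 679, 733, 790, 851, 913, 944]),
  (1228, 472, [508, 547, 589, 635, 681, 731, 784, 846, 932, 983])]

theorem sd2_ok : strips 892 sd2 = true := by decide +kernel

theorem sd2_last : lastS 892 sd2 = 1228 := by decide +kernel

end SokamTI

end

/-! ### Lib_MP_af4de1_ti.CertD4 -/

section
/-!
# Tip certificate: strips, part 4
-/

set_option autoImplicit false

namespace SokamTI

/-- strips from `2300 / 1024` to `3288 / 1024` -/
def sd4 : List (ℤ × ℤ × List ℤ) := [
  (2428, 920, [1176, 1432, 1485]),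
  (2556, 971, [1227, 1483, 1513]),
  (2652, 1022, [1278, 1534]),
  (2780, 1060, [1211, 1467, 1562]),
  (2844, 1112, [1333, 1576]),
  (2940, 1137, [1225, 1481, 1598]),
  (3004, 1176, [1306, 1562, 1612]),
  (3052, 1201, [1331, 1587, 1622]),
  (3100, 1220, [1301, 1557, 1633]),
  (3132, 1240, [1335, 1591, 1640]),
  (3164, 1252, [1302, 1540, 1647]),
  (3188, 1265, [1315, 1553, 1652]),
  (3204, 1275, [1329, 1567, 1656]),
  (3220, 1281, [1308, 1471, 1659]),
  (3232, 1288, [1321, 1497, 1662]),
  (3240, 1292, [1317, 1468, 1664]),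
  (3248, 1296, [1317, 1457, 1665]),
  (3264, 1299, [1305, 1335, 1511, 1669]),
  (3288, 1305, [1322, 1391, 1647, 1674])]

theorem sd4_ok : strips 2300 sd4 = true := by decide +kernel

theorem sd4_last : lastS 2300 sd4 = 3288 := by decide +kernel

end SokamTI

end
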