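import Pool.Agent.Lib_MP_af4de1_zy.Z74

/-! ### Lib_MP_af4de1_ti.Exp -/

section
namespace SokamFU
end SokamFU
/-!
# The tip: expansion of `h_L` at `p = 0`
-/

set_option autoImplicit false

namespace SokamTI

open Complex SokamFU

/-- the error in `h_L = 1 - p/2 + p²/12 + ε` -/
noncomputable def eps (p : ℂ) : ℂ := hL p - (1 - p / 2 + p ^ (2 : ℕ) / 12)

theorem hL_eps (p : ℂ) : hL p = 1 - p / 2 + p ^ (2 : ℕ) / 12 + eps p := by unfold eps; ring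

theorem norm_eps {p : ℂ} (hp : p.re ≠ 0) (h : ‖p‖ ≤ 3 / 10) : ‖eps p‖ ≤ ‖p‖ ^ (4 : ℕ) / 400 := by
  have h1 := exp_ne_one hp
  have hp0 : 0 < ‖p‖ := norm_pos_iff.2 (SokamFU.ne_zero_of_re hp)
  have hn := norm_nonneg p
  have hle1 : ‖p‖ ≤ 1 := by linarith only [h]
  -- the remainder
  set E : ℂ := cexp p - ∑ m ∈ Finset.range 7, p ^ m / (m.factorial : ℂ) with hE
  have hEn : ‖E‖ ≤ ‖p‖ ^ (7 : ℕ) / 4410 := by
    refine (Complex.exp_bound hle1 (n := 7) (by norm_num)).trans (le_of_eq ?_)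
    norm_num [Nat.factorial]
    ring
  have hexp : cexp p = 1 + p + p ^ (2 : ℕ) / 2 + p ^ (3 : ℕ) / 6 + p ^ (4 : ℕ) / 24 + p ^ (5 : ℕ) / 120 + p ^ (6 : ℕ) / 720 + E := by
    rw [hE]
    simp only [Finset.sum_range_succ, Finset.sum_range_zero, Nat.factorial]
    push_cast
    ring
  have hN : (cexp p - 1) * (1 - p / 2 + p ^ (2 : ℕ) / 12) - p =
      p ^ (5 : ℕ) / 720 + p ^ (6 : ℕ) / 1440 + p ^ (8 : ℕ) / 8640 + E * (1 - p / 2 + p ^ (2 : ℕ) / 12) := by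
    rw [hexp]
    ring
  have hNn : ‖(cexp p - 1) * (1 - p / 2 + p ^ (2 : ℕ) / 12) - p‖ ≤ 17 / 10000 * ‖p‖ ^ (5 : ℕ) := by
    rw [hN]
    have e1 : ‖p ^ (5 : ℕ) / 720‖ = ‖p‖ ^ (5 : ℕ) / 720 := by rw [norm_div, norm_pow]; norm_num
    have e2 : ‖p ^ (6 : ℕ) / 1440‖ = ‖p‖ ^ (6 : ℕ) / 1440 := by rw [norm_div, norm_pow]; norm_num
    have e3 : ‖p ^ (8 : ℕ) / 8640‖ = ‖p‖ ^ (8 : ℕ) / 8640 := by rw [norm_div, norm_pow]; norm_num
    have e4 : ‖(1 : ℂ) - p / 2 + p ^ (2 : ℕ) / 12‖ ≤ 2 := by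
      refine (norm_add_le _ _).trans ?_
      have a1 := norm_sub_le (1 : ℂ) (p / 2)
      have a2 : ‖p / 2‖ = ‖p‖ / 2 := by rw [norm_div]; norm_num
      have a3 : ‖p ^ (2 : ℕ) / 12‖ = ‖p‖ ^ (2 : ℕ) / 12 := by rw [norm_div, norm_pow]; norm_num
      rw [norm_one, a2] at a1
      rw [a3]
      nlinarith only [hn, hle1, a1]
    have e5 : ‖E * (1 - p / 2 + p ^ (2 : ℕ) / 12)‖ ≤ ‖p‖ ^ (7 : ℕ) / 4410 * 2 := by
      rw [norm_mul]
      exact mul_le_mul hEn e4 (norm_nonneg _) (by positivity)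
    have b1 := norm_add_le (p ^ (5 : ℕ) / 720 + p ^ (6 : ℕ) / 1440 + p ^ (8 : ℕ) / 8640) (E * (1 - p / 2 + p ^ (2 : ℕ) / 12))
    have b2 := norm_add_le (p ^ (5 : ℕ) / 720 + p ^ (6 : ℕ) / 1440) (p ^ (8 : ℕ) / 8640)
    have b3 := norm_add_le (p ^ (5 : ℕ) / 720) (p ^ (6 : ℕ) / 1440)
    rw [e1, e2] at b3
    rw [e3] at b2
    have c5 : 0 < ‖p‖ ^ (5 : ℕ) := by positivity
    have c6 : ‖p‖ ^ (6 : ℕ) ≤ 3 / 10 * ‖p‖ ^ (5 : ℕ) := by
      have : ‖p‖ ^ (6 : ℕ) = ‖p‖ * ‖p‖ ^ (5 : ℕ) := by ring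
      rw [this]; gcongr
    have c7 : ‖p‖ ^ (7 : ℕ) ≤ 9 / 100 * ‖p‖ ^ (5 : ℕ) := by
      have : ‖p‖ ^ (7 : ℕ) = ‖p‖ ^ (2 : ℕ) * ‖p‖ ^ (5 : ℕ) := by ring
      rw [this]
      have : ‖p‖ ^ (2 : ℕ) ≤ 9 / 100 := by nlinarith only [h, hp0]
      gcongr
    have c8 : ‖p‖ ^ (8 : ℕ) ≤ 27 / 1000 * ‖p‖ ^ (5 : ℕ) := by
      have : ‖p‖ ^ (8 : ℕ) = ‖p‖ ^ (3 : ℕ) * ‖p‖ ^ (5 : ℕ) := by ring
      rw [this]
      have : ‖p‖ ^ (3 : ℕ) ≤ (3 / 10) ^ (3 : ℕ) := pow_le_pow_left₀ hn h 3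
      have : ‖p‖ ^ (3 : ℕ) ≤ 27 / 1000 := by linarith only [this]
      gcongr
    linarith only [e5, b1, b2, b3, c5, c6, c7, c8]
  have hden : 31 / 40 * ‖p‖ ≤ ‖cexp p - 1‖ := by
    have b1 := Complex.exp_bound hle1 (n := 2) (by norm_num)
    have b2 : ∑ m ∈ Finset.range 2, p ^ m / (m.factorial : ℂ) = 1 + p := by
      simp [Finset.sum_range_succ]
    rw [b2] at b1
    have b3 : ‖p‖ ^ (2 : ℕ) * (((2 : ℕ).succ : ℝ) * (((2 : ℕ).factorial : ℝ) * (2 : ℕ))⁻¹) = 3 / 4 * ‖p‖ ^ (2 : ℕ) := by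
      norm_num [Nat.factorial]
      ring
    rw [b3] at b1
    have b4 : p = (cexp p - 1) - (cexp p - (1 + p)) := by ring
    have b5 : ‖p‖ ≤ ‖cexp p - 1‖ + ‖cexp p - (1 + p)‖ := by
      conv_lhs => rw [b4]
      exact norm_sub_le _ _
    nlinarith only [h, hp0, b1, b5]
  have hden0 : 0 < ‖cexp p - 1‖ := norm_pos_iff.2 h1
  have e0 : eps p = -((cexp p - 1) * (1 - p / 2 + p ^ (2 : ℕ) / 12) - p) / (cexp p - 1) := by
    unfold eps hL
    field_simp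
    ring
  rw [e0, norm_div, norm_neg, div_le_iff₀ hden0]
  have c1 : ‖p‖ ^ (4 : ℕ) / 400 * (31 / 40 * ‖p‖) ≤ ‖p‖ ^ (4 : ℕ) / 400 * ‖cexp p - 1‖ := by gcongr
  have c5 : 0 < ‖p‖ ^ (5 : ℕ) := by positivity
  have c2 : ‖p‖ ^ (4 : ℕ) / 400 * (31 / 40 * ‖p‖) = 31 / 16000 * ‖p‖ ^ (5 : ℕ) := by ring
  rw [c2] at c1
  linarith only [hNn, c1, c5]

/-- `B = p³/12 + p ε` -/
theorem Bp_eps {p : ℂ} (hp : p.re ≠ 0) : Bp p = p ^ (3 : ℕ) / 12 + p * eps p := by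
  unfold Bp
  rw [hR_eq_add hp, hL_eps]
  ring

/-- `G = (p²/12 + ε)² - p²/4` -/
theorem Gp_eps {p : ℂ} (hp : p.re ≠ 0) : Gp p = (p ^ (2 : ℕ) / 12 + eps p) ^ (2 : ℕ) - p ^ (2 : ℕ) / 4 := by
  unfold Gp
  rw [hR_eq_add hp, hL_eps]
  ring

/-- the small part of the sector -/
structure Sm (p : ℂ) : Prop where
  v0 : 0 < p.im
  v1 : p.im ≤ 1 / 5
  u0 : 2 / 5 * p.im ≤ p.re
  u1 : p.re ≤ 4 / 5 * p.im

namespace Sm

variable {p : ℂ}

theorem re_pos (h : Sm p) : 0 < p.re := by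
  have := h.v0
  have := h.u0
  linarith

theorem re_ne (h : Sm p) : p.re ≠ 0 := h.re_pos.ne'

theorem norm_sq (p : ℂ) : ‖p‖ ^ (2 : ℕ) = p.re ^ (2 : ℕ) + p.im ^ (2 : ℕ) := by
  rw [← Complex.normSq_eq_norm_sq, Complex.normSq_apply]
  ring

theorem norm_le (h : Sm p) : ‖p‖ ≤ 1281 / 1000 * p.im := by
  have h0 := h.v0
  have h1 := norm_sq p
  have h2 : p.re ^ (2 : ℕ) ≤ (4 / 5 * p.im) ^ (2 : ℕ) := by
    have := h.u1
    have := h.re_pos
    gcongr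
  have h3 : ‖p‖ ^ (2 : ℕ) ≤ (1281 / 1000 * p.im) ^ (2 : ℕ) := by nlinarith only [h1, h2]
  exact abs_le_of_sq_le_sq' h3 (by positivity) |>.2

theorem le_norm (h : Sm p) : 1077 / 1000 * p.im ≤ ‖p‖ := by
  have h0 := h.v0
  have h1 := norm_sq p
  have h2 : (2 / 5 * p.im) ^ (2 : ℕ) ≤ p.re ^ (2 : ℕ) := by
    have := h.u0
    gcongr
  have h3 : (1077 / 1000 * p.im) ^ (2 : ℕ) ≤ ‖p‖ ^ (2 : ℕ) := by nlinarith only [h1, h2]
  exact abs_le_of_sq_le_sq' h3 (norm_nonneg _) |>.2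

theorem norm_eps_le (h : Sm p) : ‖eps p‖ ≤ 27 / 4000 * p.im ^ (4 : ℕ) := by
  have h0 := h.v0
  have h1 := h.v1
  have h2 := h.norm_le
  have h3 : ‖p‖ ≤ 3 / 10 := by linarith only [h1, h2]
  refine (norm_eps h.re_ne h3).trans ?_
  have h4 : ‖p‖ ^ (4 : ℕ) ≤ (1281 / 1000 * p.im) ^ (4 : ℕ) := pow_le_pow_left₀ (norm_nonneg _) h2 4
  have h5 : 0 < p.im ^ (4 : ℕ) := by positivity
  linarith only [h4, h5]

theorem v4 (h : Sm p) : p.im ^ (4 : ℕ) ≤ 1 / 125 * p.im := by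
  have h0 := h.v0
  have : p.im ^ (3 : ℕ) ≤ (1 / 5) ^ (3 : ℕ) := pow_le_pow_left₀ h0.le h.v1 3
  have e : p.im ^ (4 : ℕ) = p.im ^ (3 : ℕ) * p.im := by ring
  rw [e]
  have : p.im ^ (3 : ℕ) ≤ 1 / 125 := by linarith only [this]
  gcongr

theorem er (h : Sm p) : |(eps p).re| ≤ 27 / 500000 * p.im := by
  have := (Complex.abs_re_le_norm (eps p)).trans h.norm_eps_le
  have := h.v4
  linarith

theorem ei (h : Sm p) : |(eps p).im| ≤ 27 / 500000 * p.im := by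
  have := (Complex.abs_im_le_norm (eps p)).trans h.norm_eps_le
  have := h.v4
  linarith

theorem v2 (h : Sm p) : p.im ^ (2 : ℕ) ≤ 1 / 5 * p.im := by
  have h0 := h.v0
  have h1 := h.v1
  nlinarith

theorem ei' (h : Sm p) : |(eps p).im| ≤ 27 / 100000 * p.im ^ (2 : ℕ) := by
  have h1 := (Complex.abs_im_le_norm (eps p)).trans h.norm_eps_le
  have h0 := h.v0
  have : p.im ^ (2 : ℕ) ≤ 1 / 25 := by
    have := h.v1
    nlinarith only [h0, this]
  have e : p.im ^ (4 : ℕ) = p.im ^ (2 : ℕ) * p.im ^ (2 : ℕ) := by ring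
  rw [e] at h1
  nlinarith only [h1, this]

theorem er' (h : Sm p) : |(eps p).re| ≤ 27 / 100000 * p.im ^ (2 : ℕ) := by
  have h1 := (Complex.abs_re_le_norm (eps p)).trans h.norm_eps_le
  have h0 := h.v0
  have : p.im ^ (2 : ℕ) ≤ 1 / 25 := by
    have := h.v1
    nlinarith only [h0, this]
  have e : p.im ^ (4 : ℕ) = p.im ^ (2 : ℕ) * p.im ^ (2 : ℕ) := by ring
  rw [e] at h1
  nlinarith only [h1, this]

theorem hL_re (p : ℂ) : (hL p).re = 1 - p.re / 2 + (p.re ^ (2 : ℕ) - p.im ^ (2 : ℕ)) / 12 + (eps p).re := by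
  rw [hL_eps]
  simp only [Complex.add_re, Complex.sub_re, Complex.one_re]
  have e1 : (p / 2).re = p.re / 2 := by simp
  have e2 : (p ^ (2 : ℕ) / 12).re = (p.re ^ (2 : ℕ) - p.im ^ (2 : ℕ)) / 12 := by
    rw [show p ^ (2 : ℕ) / 12 = ((1 / 12 : ℝ) : ℂ) * p ^ (2 : ℕ) by push_cast; ring, Complex.re_ofReal_mul, pow_two, Complex.mul_re]
    ring
  rw [e1, e2]

theorem hL_im (p : ℂ) : -(hL p).im = p.im / 2 - p.re * p.im / 6 - (eps p).im := by
  rw [hL_eps]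
  simp only [Complex.add_im, Complex.sub_im, Complex.one_im]
  have e1 : (p / 2).im = p.im / 2 := by simp
  have e2 : (p ^ (2 : ℕ) / 12).im = p.re * p.im / 6 := by
    rw [show p ^ (2 : ℕ) / 12 = ((1 / 12 : ℝ) : ℂ) * p ^ (2 : ℕ) by push_cast; ring, Complex.im_ofReal_mul, pow_two, Complex.mul_im]
    ring
  rw [e1, e2]
  ring

theorem hR_re (h : Sm p) : (hR p).re = 1 + p.re / 2 + (p.re ^ (2 : ℕ) - p.im ^ (2 : ℕ)) / 12 + (eps p).re := by
  rw [hR_eq_add h.re_ne, Complex.add_re, hL_re]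
  ring

theorem hR_im (h : Sm p) : (hR p).im = p.im / 2 + p.re * p.im / 6 + (eps p).im := by
  rw [hR_eq_add h.re_ne, Complex.add_im]
  have := hL_im p
  linarith only [this]

theorem uv0 (h : Sm p) : 2 / 5 * p.im ^ (2 : ℕ) ≤ p.re * p.im := by
  have := h.v0
  have := h.u0
  nlinarith

theorem uv1 (h : Sm p) : p.re * p.im ≤ 4 / 25 * p.im := by
  have := h.v0
  have := h.u1
  have := h.v1
  nlinarith

theorem uu0 (h : Sm p) : 4 / 25 * p.im ^ (2 : ℕ) ≤ p.re ^ (2 : ℕ) := by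
  have := h.v0
  have := h.u0
  nlinarith

theorem uu1 (h : Sm p) : p.re ^ (2 : ℕ) ≤ 16 / 25 * p.im ^ (2 : ℕ) := by
  have := h.v0
  have := h.re_pos
  have := h.u1
  nlinarith

theorem sL0 (h : Sm p) : 473 / 1000 * p.im ≤ -(hL p).im := by
  rw [hL_im]
  have h1 := abs_le.1 h.ei
  have := h.uv1
  have := h.v0
  linarith

theorem sL1 (h : Sm p) : -(hL p).im ≤ 1 / 2 * p.im := by
  rw [hL_im]
  have h1 := abs_le.1 h.ei'
  have := h.uv0
  have := sq_nonneg p.im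
  linarith

theorem sR0 (h : Sm p) : 1 / 2 * p.im ≤ (hR p).im := by
  rw [h.hR_im]
  have h1 := abs_le.1 h.ei'
  have := h.uv0
  have := sq_nonneg p.im
  linarith

theorem sR1 (h : Sm p) : (hR p).im ≤ 527 / 1000 * p.im := by
  rw [h.hR_im]
  have h1 := abs_le.1 h.ei
  have := h.uv1
  have := h.v0
  linarith

theorem aR0 (h : Sm p) : p.re / 2 - 143 / 10000 * p.im ≤ (hR p).re - 1 := by
  rw [h.hR_re]
  have h1 := abs_le.1 h.er
  have := h.uu0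
  have := h.v2
  have := h.v0
  linarith

theorem aR1 (h : Sm p) : (hR p).re - 1 ≤ p.re / 2 := by
  rw [h.hR_re]
  have h1 := abs_le.1 h.er'
  have := h.uu1
  have := sq_nonneg p.im
  linarith

/-- `1 - Re h_L ≥ u/2` -/
theorem aL0 (h : Sm p) : p.re / 2 ≤ 1 - (hL p).re := by
  rw [hL_re]
  have h1 := abs_le.1 h.er'
  have := h.uu1
  have := sq_nonneg p.im
  linarith

theorem aL1 (h : Sm p) : 1 - (hL p).re ≤ p.re / 2 + 143 / 10000 * p.im := by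
  rw [hL_re]
  have h1 := abs_le.1 h.er
  have := h.uu0
  have := h.v2
  have := h.v0
  linarith

/-- `|1 - h_L|` -/
theorem mL0 (h : Sm p) : 51 / 100 * p.im ≤ ‖1 - hL p‖ := by
  have h0 := h.v0
  have e1 := norm_sq (1 - hL p)
  rw [Complex.sub_re, Complex.sub_im, Complex.one_re, Complex.one_im] at e1
  have h1 := h.aL0
  have h2 := h.sL0
  have h3 := h.u0
  have h4 : (1 / 5 * p.im) ^ (2 : ℕ) ≤ (1 - (hL p).re) ^ (2 : ℕ) := pow_le_pow_left₀ (by linarith only [h0]) (by linarith only [h1, h3]) 2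
  have h5 : (473 / 1000 * p.im) ^ (2 : ℕ) ≤ (0 - (hL p).im) ^ (2 : ℕ) := pow_le_pow_left₀ (by linarith only [h0]) (by linarith only [h2]) 2
  have h6 : (51 / 100 * p.im) ^ (2 : ℕ) ≤ ‖1 - hL p‖ ^ (2 : ℕ) := by
    rw [e1]
    nlinarith only [h4, h5]
  exact abs_le_of_sq_le_sq' h6 (norm_nonneg _) |>.2

theorem mL1 (h : Sm p) : ‖1 - hL p‖ ≤ 13 / 20 * p.im := by
  have h0 := h.v0
  have e1 := norm_sq (1 - hL p)
  rw [Complex.sub_re, Complex.sub_im, Complex.one_re, Complex.one_im] at e1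
  have h1 := h.aL1
  have h1' := h.aL0
  have h2 := h.sL1
  have h2' := h.sL0
  have h3 := h.u1
  have h3' := h.re_pos
  have h4 : (1 - (hL p).re) ^ (2 : ℕ) ≤ (4143 / 10000 * p.im) ^ (2 : ℕ) := pow_le_pow_left₀ (by linarith only [h1', h3']) (by linarith only [h1, h3]) 2
  have h5 : (0 - (hL p).im) ^ (2 : ℕ) ≤ (1 / 2 * p.im) ^ (2 : ℕ) := pow_le_pow_left₀ (by linarith only [h2', h3, h3']) (by linarith only [h2]) 2
  have h6 : ‖1 - hL p‖ ^ (2 : ℕ) ≤ (13 / 20 * p.im) ^ (2 : ℕ) := by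
    rw [e1]
    nlinarith only [h4, h5]
  exact abs_le_of_sq_le_sq' h6 (by positivity) |>.2

theorem mR0 (h : Sm p) : 53 / 100 * p.im ≤ ‖1 - hR p‖ := by
  have h0 := h.v0
  have e1 := norm_sq (1 - hR p)
  rw [Complex.sub_re, Complex.sub_im, Complex.one_re, Complex.one_im] at e1
  have h1 := h.aR0
  have h2 := h.sR0
  have h3 := h.u0
  have h4 : (1857 / 10000 * p.im) ^ (2 : ℕ) ≤ (1 - (hR p).re) ^ (2 : ℕ) := by
    rw [show (1 - (hR p).re) ^ (2 : ℕ) = ((hR p).re - 1) ^ (2 : ℕ) by ring]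
    exact pow_le_pow_left₀ (by linarith only [h0]) (by linarith only [h1, h3]) 2
  have h5 : (1 / 2 * p.im) ^ (2 : ℕ) ≤ (0 - (hR p).im) ^ (2 : ℕ) := by
    rw [show (0 - (hR p).im) ^ (2 : ℕ) = (hR p).im ^ (2 : ℕ) by ring]
    exact pow_le_pow_left₀ (by linarith only [h0]) (by linarith only [h2]) 2
  have h6 : (53 / 100 * p.im) ^ (2 : ℕ) ≤ ‖1 - hR p‖ ^ (2 : ℕ) := by
    rw [e1]
    nlinarith only [h4, h5]
  exact abs_le_of_sq_le_sq' h6 (norm_nonneg _) |>.2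

theorem mR1 (h : Sm p) : ‖1 - hR p‖ ≤ 67 / 100 * p.im := by
  have h0 := h.v0
  have e1 := norm_sq (1 - hR p)
  rw [Complex.sub_re, Complex.sub_im, Complex.one_re, Complex.one_im] at e1
  have h1 := h.aR0
  have h1' := h.aR1
  have h2 := h.sR0
  have h2' := h.sR1
  have h3 := h.u0
  have h3' := h.u1
  have h4 : (1 - (hR p).re) ^ (2 : ℕ) ≤ (2 / 5 * p.im) ^ (2 : ℕ) := by
    rw [show (1 - (hR p).re) ^ (2 : ℕ) = ((hR p).re - 1) ^ (2 : ℕ) by ring]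
    exact pow_le_pow_left₀ (by linarith only [h1, h3, h3']) (by linarith only [h1', h3']) 2
  have h5 : (0 - (hR p).im) ^ (2 : ℕ) ≤ (527 / 1000 * p.im) ^ (2 : ℕ) := by
    rw [show (0 - (hR p).im) ^ (2 : ℕ) = (hR p).im ^ (2 : ℕ) by ring]
    exact pow_le_pow_left₀ (by linarith only [h0, h2]) (by linarith only [h2']) 2
  have h6 : ‖1 - hR p‖ ^ (2 : ℕ) ≤ (67 / 100 * p.im) ^ (2 : ℕ) := by
    rw [e1]
    nlinarith only [h4, h5]
  exact abs_le_of_sq_le_sq' h6 (by positivity) |>.2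

theorem hLn (h : Sm p) : ‖hL p‖ ≤ 1 := by
  have h0 := h.v0
  have e1 := norm_sq (hL p)
  have h1 := h.aL0
  have h1' := h.aL1
  have h2 := h.sL0
  have h2' := h.sL1
  have h3 := h.u0
  have h4 := h.v1
  have h5 := h.u1
  have i1 : (hL p).re ≤ 1 - 1 / 5 * p.im := by linarith only [h1, h3]
  have i0 : 0 ≤ (hL p).re := by linarith only [h1', h4, h5]
  have i2 : (hL p).re ^ (2 : ℕ) ≤ (1 - 1 / 5 * p.im) ^ (2 : ℕ) := pow_le_pow_left₀ i0 i1 2
  have i3 : (hL p).im ^ (2 : ℕ) ≤ (1 / 2 * p.im) ^ (2 : ℕ) := by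
    rw [show (hL p).im ^ (2 : ℕ) = (-(hL p).im) ^ (2 : ℕ) by ring]
    exact pow_le_pow_left₀ (by linarith only [h2, h2']) h2' 2
  have h6 : ‖hL p‖ ^ (2 : ℕ) ≤ 1 ^ (2 : ℕ) := by
    rw [e1]
    nlinarith only [h2, h2', h4, i2]
  exact abs_le_of_sq_le_sq' h6 (by positivity) |>.2

theorem hRn (h : Sm p) : ‖hR p‖ ≤ 109 / 100 := by
  have h0 := h.v0
  have e1 := norm_sq (hR p)
  have h1 := h.aR0
  have h1' := h.aR1
  have h2 := h.sR0
  have h2' := h.sR1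
  have h3 := h.u0
  have h4 := h.v1
  have h5 := h.u1
  have i1 : (hR p).re ≤ 27 / 25 := by linarith only [h1', h4, h5]
  have i0 : 0 ≤ (hR p).re := by linarith only [h1, h3, h5]
  have i2 : (hR p).re ^ (2 : ℕ) ≤ (27 / 25) ^ (2 : ℕ) := pow_le_pow_left₀ i0 i1 2
  have i3 : (hR p).im ^ (2 : ℕ) ≤ (527 / 5000) ^ (2 : ℕ) := pow_le_pow_left₀ (by linarith only [h2, h2']) (by linarith only [h2', h4]) 2
  have h6 : ‖hR p‖ ^ (2 : ℕ) ≤ (109 / 100) ^ (2 : ℕ) := by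
    rw [e1]
    linarith only [i2, i3]
  exact abs_le_of_sq_le_sq' h6 (by positivity) |>.2

theorem hRn0 (h : Sm p) : 1 ≤ ‖hR p‖ := by
  have h1 := h.aR0
  have h2 := h.u0
  have h3 := h.v0
  have := (Complex.re_le_norm (hR p))
  linarith only [h1, h2, h3, this]

/-- the error of `B` -/
theorem Berr (h : Sm p) : ‖p * eps p‖ ≤ 173 / 500000 * p.im ^ (3 : ℕ) := by
  have h0 := h.v0
  rw [norm_mul]
  have h1 := h.norm_le
  have h2 := h.norm_eps_le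
  have h3 : ‖p‖ * ‖eps p‖ ≤ (1281 / 1000 * p.im) * (27 / 4000 * p.im ^ (4 : ℕ)) :=
    mul_le_mul h1 h2 (norm_nonneg _) (by positivity)
  have h4 : p.im ^ (2 : ℕ) ≤ 1 / 25 := by
    have := h.v1
    nlinarith only [h0, this]
  have h5 : (1281 / 1000 * p.im) * (27 / 4000 * p.im ^ (4 : ℕ)) = 34587 / 4000000 * (p.im ^ (2 : ℕ) * p.im ^ (3 : ℕ)) := by ring
  have h6 : p.im ^ (2 : ℕ) * p.im ^ (3 : ℕ) ≤ 1 / 25 * p.im ^ (3 : ℕ) := by gcongr
  have h7 : 0 < p.im ^ (3 : ℕ) := by positivity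
  rw [h5] at h3
  linarith only [h3, h6, h7]

theorem cube_re (p : ℂ) : (p ^ (3 : ℕ) / 12).re = (p.re ^ (3 : ℕ) - 3 * p.re * p.im ^ (2 : ℕ)) / 12 := by
  rw [show p ^ (3 : ℕ) / 12 = ((1 / 12 : ℝ) : ℂ) * (p * (p * p)) by push_cast; ring, Complex.re_ofReal_mul, Complex.mul_re,
    Complex.mul_re, Complex.mul_im]
  ring

theorem cube_im (p : ℂ) : (p ^ (3 : ℕ) / 12).im = (3 * p.re ^ (2 : ℕ) * p.im - p.im ^ (3 : ℕ)) / 12 := by
  rw [show p ^ (3 : ℕ) / 12 = ((1 / 12 : ℝ) : ℂ) * (p * (p * p)) by push_cast; ring, Complex.im_ofReal_mul, Complex.mul_im,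
    Complex.mul_re, Complex.mul_im]
  ring

theorem Bre (h : Sm p) : |(Bp p).re - (p.re ^ (3 : ℕ) - 3 * p.re * p.im ^ (2 : ℕ)) / 12| ≤ 173 / 500000 * p.im ^ (3 : ℕ) := by
  rw [Bp_eps h.re_ne, Complex.add_re, cube_re, add_sub_cancel_left]
  exact (Complex.abs_re_le_norm _).trans h.Berr

theorem Bim (h : Sm p) : |(Bp p).im - (3 * p.re ^ (2 : ℕ) * p.im - p.im ^ (3 : ℕ)) / 12| ≤ 173 / 500000 * p.im ^ (3 : ℕ) := by
  rw [Bp_eps h.re_ne, Complex.add_im, cube_im, add_sub_cancel_left]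
  exact (Complex.abs_im_le_norm _).trans h.Berr

/-- `-Re B ≤ .2378 u v²` -/
theorem B1 (h : Sm p) : -(Bp p).re ≤ 2378 / 10000 * (p.re * p.im ^ (2 : ℕ)) := by
  have h1 := abs_le.1 h.Bre
  have h0 := h.v0
  have hu := h.u0
  have hup := h.re_pos
  have i1 : p.im ^ (3 : ℕ) ≤ 5 / 2 * (p.re * p.im ^ (2 : ℕ)) := by
    have : p.im ^ (3 : ℕ) = p.im * p.im ^ (2 : ℕ) := by ring
    rw [this]
    nlinarith only [hu]
  have i2 : 4 / 25 * (p.re * p.im ^ (2 : ℕ)) ≤ p.re ^ (3 : ℕ) := by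
    have : p.re ^ (3 : ℕ) = p.re * p.re ^ (2 : ℕ) := by ring
    rw [this]
    have := h.uu0
    nlinarith only [hup, this]
  have := h1.1
  nlinarith only [hup, i1, i2, this]

/-- `-Re B ≤ .1578 v³` -/
theorem B1' (h : Sm p) : -(Bp p).re ≤ 1578 / 10000 * p.im ^ (3 : ℕ) := by
  have h1 := abs_le.1 h.Bre
  have h0 := h.v0
  have hu := h.u1
  have hup := h.re_pos
  -- `3 u v² - u³ ≤ 1.888 v³`
  have i1 : 3 * p.re * p.im ^ (2 : ℕ) - p.re ^ (3 : ℕ) ≤ 236 / 125 * p.im ^ (3 : ℕ) := by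
    have e : 236 / 125 * p.im ^ (3 : ℕ) - (3 * p.re * p.im ^ (2 : ℕ) - p.re ^ (3 : ℕ)) =
        (4 / 5 * p.im - p.re) * (59 / 25 * p.im ^ (2 : ℕ) - 4 / 5 * p.im * p.re - p.re ^ (2 : ℕ)) := by ring
    have f1 : 0 ≤ 4 / 5 * p.im - p.re := by linarith only [hu]
    have f2 : 0 ≤ 59 / 25 * p.im ^ (2 : ℕ) - 4 / 5 * p.im * p.re - p.re ^ (2 : ℕ) := by
      have := h.uu1
      nlinarith only [this]
    have := mul_nonneg f1 f2
    linarith only [this]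
  have := h1.1
  have : 0 < p.im ^ (3 : ℕ) := by positivity
  linarith only [h1, i1]

/-- left side -/
theorem BL (h : Sm p) (hk : p.re = 2 / 5 * p.im) :
    -(Bp p).re ≤ 951 / 10000 * p.im ^ (3 : ℕ) ∧ (Bp p).im ≤ -(429 / 10000 * p.im ^ (3 : ℕ)) := by
  have h1 := abs_le.1 h.Bre
  have h2 := abs_le.1 h.Bim
  have h0 := h.v0
  have h3 : 0 < p.im ^ (3 : ℕ) := by positivity
  rw [hk] at h1 h2
  constructor
  · have := h1.1
    linarith only [h3, this]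
  · have := h2.2
    linarith only [h3, this]

/-- right side -/
theorem BR (h : Sm p) (hk : p.re = 4 / 5 * p.im) : 763 / 10000 * p.im ^ (3 : ℕ) ≤ (Bp p).im := by
  have h2 := abs_le.1 h.Bim
  have h0 := h.v0
  have h3 : 0 < p.im ^ (3 : ℕ) := by positivity
  rw [hk] at h2
  have := h2.1
  linarith only [h3, this]

/-- `|(p²/12 + ε)²|` -/
theorem Gerr (h : Sm p) : ‖(p ^ (2 : ℕ) / 12 + eps p) ^ (2 : ℕ)‖ ≤ 1 / 1000 * p.im ^ (2 : ℕ) := by
  have h0 := h.v0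
  rw [norm_pow]
  have h1 : ‖p ^ (2 : ℕ) / 12 + eps p‖ ≤ 3 / 100 * p.im := by
    refine (norm_add_le _ _).trans ?_
    have e1 : ‖p ^ (2 : ℕ) / 12‖ = ‖p‖ ^ (2 : ℕ) / 12 := by rw [norm_div, norm_pow]; norm_num
    rw [e1]
    have h2 : ‖p‖ ^ (2 : ℕ) ≤ (1281 / 1000 * p.im) ^ (2 : ℕ) := pow_le_pow_left₀ (norm_nonneg _) h.norm_le 2
    have h3 := h.norm_eps_le
    have h4 := h.v4
    have h5 := h.v2
    nlinarith only [h2, h3, h5]
  have h2 : ‖p ^ (2 : ℕ) / 12 + eps p‖ ^ (2 : ℕ) ≤ (3 / 100 * p.im) ^ (2 : ℕ) := pow_le_pow_left₀ (norm_nonneg _) h1 2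
  have := sq_nonneg p.im
  nlinarith only [h2]

theorem G_re (h : Sm p) : |(Gp p).re - (p.im ^ (2 : ℕ) - p.re ^ (2 : ℕ)) / 4| ≤ 1 / 1000 * p.im ^ (2 : ℕ) := by
  have e : (p ^ (2 : ℕ) / 4).re = (p.re ^ (2 : ℕ) - p.im ^ (2 : ℕ)) / 4 := by
    rw [show p ^ (2 : ℕ) / 4 = ((1 / 4 : ℝ) : ℂ) * p ^ (2 : ℕ) by push_cast; ring, Complex.re_ofReal_mul, pow_two, Complex.mul_re]
    ring
  rw [Gp_eps h.re_ne, Complex.sub_re, e]
  have : ((p ^ (2 : ℕ) / 12 + eps p) ^ (2 : ℕ)).re - (p.re ^ (2 : ℕ) - p.im ^ (2 : ℕ)) / 4 - (p.im ^ (2 : ℕ) - p.re ^ (2 : ℕ)) / 4 =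
      ((p ^ (2 : ℕ) / 12 + eps p) ^ (2 : ℕ)).re := by ring
  rw [this]
  exact (Complex.abs_re_le_norm _).trans h.Gerr

theorem G_im (h : Sm p) : |(Gp p).im + p.re * p.im / 2| ≤ 1 / 1000 * p.im ^ (2 : ℕ) := by
  have e : (p ^ (2 : ℕ) / 4).im = p.re * p.im / 2 := by
    rw [show p ^ (2 : ℕ) / 4 = ((1 / 4 : ℝ) : ℂ) * p ^ (2 : ℕ) by push_cast; ring, Complex.im_ofReal_mul, pow_two, Complex.mul_im]
    ring
  rw [Gp_eps h.re_ne, Complex.sub_im, e]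
  have : ((p ^ (2 : ℕ) / 12 + eps p) ^ (2 : ℕ)).im - p.re * p.im / 2 + p.re * p.im / 2 =
      ((p ^ (2 : ℕ) / 12 + eps p) ^ (2 : ℕ)).im := by ring
  rw [this]
  exact (Complex.abs_im_le_norm _).trans h.Gerr

/-- (G1) -/
theorem G1 (h : Sm p) : 0 < (Gp p).re := by
  have h1 := abs_le.1 h.G_re
  have h0 := h.v0
  have h2 := h.uu1
  have h3 : 0 < p.im ^ (2 : ℕ) := by positivity
  linarith only [h1, h2, h3]

/-- (G2) -/
theorem G2 (h : Sm p) : p.re * (Gp p).re < -(Gp p).im * p.im := by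
  have h1 := abs_le.1 h.G_re
  have h2 := abs_le.1 h.G_im
  have h0 := h.v0
  have hu := h.re_pos
  have hu0 := h.u0
  have hu1 := h.u1
  have h3 : 0 < p.im ^ (2 : ℕ) := by positivity
  have i1 : p.re * (Gp p).re ≤ p.re * ((p.im ^ (2 : ℕ) - p.re ^ (2 : ℕ)) / 4 + 1 / 1000 * p.im ^ (2 : ℕ)) :=
    mul_le_mul_of_nonneg_left (by linarith only [h1]) hu.le
  have i2 : (p.re * p.im / 2 - 1 / 1000 * p.im ^ (2 : ℕ)) * p.im ≤ -(Gp p).im * p.im :=
    mul_le_mul_of_nonneg_right (by linarith only [h2]) h0.le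
  have i3 : 0 < p.re ^ (3 : ℕ) := by positivity
  have i4 : p.im ^ (3 : ℕ) ≤ 5 / 2 * (p.re * p.im ^ (2 : ℕ)) := by
    have : p.im ^ (3 : ℕ) = p.im * p.im ^ (2 : ℕ) := by ring
    rw [this]
    nlinarith only [hu0]
  have i5 : 0 < p.re * p.im ^ (2 : ℕ) := by positivity
  linarith only [i1, i2, i3, i4, i5]

end Sm

end SokamTI

end

/-! ### Lib_MP_af4de1_ti.Small -/

section
namespace SokamFU
end SokamFU
/-!
# The tip: the conditions for `v ≤ 1/5`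
-/

set_option autoImplicit false

namespace SokamTI

open Complex SokamFU

/-- `p` small, `πδ ≤ -Re B` -/
structure SmD (p : ℂ) (δ : ℝ) : Prop where
  sm : Sm p
  pos : 0 < δ
  le : Real.pi * δ ≤ -(Bp p).re

namespace SmD

variable {p : ℂ} {δ : ℝ}

theorem d1 (h : SmD p δ) : δ ≤ 757 / 10000 * (p.re * p.im ^ (2 : ℕ)) := by
  have h1 := h.sm.B1
  have h2 := h.le
  have h3 := Real.pi_gt_d4
  have h4 := h.pos
  have h5 : 31415 / 10000 * δ ≤ Real.pi * δ := mul_le_mul_of_nonneg_right (by linarith only [h3]) h4.le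
  have h6 : 0 < p.re * p.im ^ (2 : ℕ) := mul_pos h.sm.re_pos (pow_pos h.sm.v0 2)
  linarith only [h1, h2, h5, h6]

theorem d2 (h : SmD p δ) : δ ≤ 503 / 10000 * p.im ^ (3 : ℕ) := by
  have h1 := h.sm.B1'
  have h2 := h.le
  have h3 := Real.pi_gt_d4
  have h4 := h.pos
  have h5 : 31415 / 10000 * δ ≤ Real.pi * δ := mul_le_mul_of_nonneg_right (by linarith only [h3]) h4.le
  have h6 : 0 < p.im ^ (3 : ℕ) := pow_pos h.sm.v0 3
  linarith only [h1, h2, h5, h6]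

theorem d3 (h : SmD p δ) (hk : p.re = 2 / 5 * p.im) : δ ≤ 303 / 10000 * p.im ^ (3 : ℕ) := by
  have h1 := (h.sm.BL hk).1
  have h2 := h.le
  have h3 := Real.pi_gt_d4
  have h4 := h.pos
  have h5 : 31415 / 10000 * δ ≤ Real.pi * δ := mul_le_mul_of_nonneg_right (by linarith only [h3]) h4.le
  have h6 : 0 < p.im ^ (3 : ℕ) := pow_pos h.sm.v0 3
  linarith only [h1, h2, h4, h5]

/-- `r = √v` -/
noncomputable def r (p : ℂ) : ℝ := √p.im

theorem r_pos (h : SmD p δ) : 0 < r p := Real.sqrt_pos.2 h.sm.v0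

theorem r_sq (h : SmD p δ) : r p ^ (2 : ℕ) = p.im := Real.sq_sqrt h.sm.v0.le

theorem v_eq (h : SmD p δ) : p.im = r p ^ (2 : ℕ) := h.r_sq.symm

theorem r2 (h : SmD p δ) : r p ^ (2 : ℕ) ≤ 1 / 5 := by rw [h.r_sq]; exact h.sm.v1

/-- `√x ≤ c r^n` -/
theorem sqrt_le' {x y : ℝ} (hy : 0 ≤ y) (h : x ≤ y ^ (2 : ℕ)) : √x ≤ y := Real.sqrt_le_iff.2 ⟨hy, h⟩

theorem le_sqrt'' {x y : ℝ} (h : y ^ (2 : ℕ) ≤ x) : y ≤ √x := Real.le_sqrt_of_sq_le h

theorem sd (h : SmD p δ) : √δ ≤ 2243 / 10000 * r p ^ (3 : ℕ) := by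
  have hr := h.r_pos
  refine sqrt_le' (by positivity) ?_
  have h1 := h.d2
  rw [h.v_eq] at h1
  have h2 : 0 < r p ^ (6 : ℕ) := by (clear * - hr; positivity)
  have e : (r p ^ (2 : ℕ)) ^ (3 : ℕ) = r p ^ (6 : ℕ) := by ring
  rw [e] at h1
  have e2 : (2243 / 10000 * r p ^ (3 : ℕ)) ^ (2 : ℕ) = (2243 / 10000) ^ (2 : ℕ) * r p ^ (6 : ℕ) := by ring
  rw [e2]
  linarith only [h1, h2]

theorem smLd (h : SmD p δ) : √(‖1 - hL p‖ * δ) ≤ 181 / 1000 * r p ^ (4 : ℕ) := by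
  have hr := h.r_pos
  refine sqrt_le' (by positivity) ?_
  have h1 := h.d2
  have h2 := h.sm.mL1
  have h3 : ‖1 - hL p‖ * δ ≤ (13 / 20 * p.im) * (503 / 10000 * p.im ^ (3 : ℕ)) :=
    mul_le_mul h2 h1 h.pos.le (by have := h.sm.v0; (clear * - this; positivity))
  rw [h.v_eq] at h3
  have h4 : 0 < r p ^ (8 : ℕ) := by (clear * - hr; positivity)
  have e1 : (13 / 20 * r p ^ (2 : ℕ)) * (503 / 10000 * (r p ^ (2 : ℕ)) ^ (3 : ℕ)) = 6539 / 200000 * r p ^ (8 : ℕ) := by ring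
  have e2 : (181 / 1000 * r p ^ (4 : ℕ)) ^ (2 : ℕ) = (181 / 1000) ^ (2 : ℕ) * r p ^ (8 : ℕ) := by ring
  rw [e1] at h3
  rw [e2]
  nlinarith only [h3, e2]

theorem smRd (h : SmD p δ) : √(‖1 - hR p‖ * δ) ≤ 1836 / 10000 * r p ^ (4 : ℕ) := by
  have hr := h.r_pos
  refine sqrt_le' (by positivity) ?_
  have h1 := h.d2
  have h2 := h.sm.mR1
  have h3 : ‖1 - hR p‖ * δ ≤ (67 / 100 * p.im) * (503 / 10000 * p.im ^ (3 : ℕ)) :=
    mul_le_mul h2 h1 h.pos.le (by have := h.sm.v0; (clear * - this; positivity))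
  rw [h.v_eq] at h3
  have h4 : 0 < r p ^ (8 : ℕ) := by (clear * - hr; positivity)
  have e1 : (67 / 100 * r p ^ (2 : ℕ)) * (503 / 10000 * (r p ^ (2 : ℕ)) ^ (3 : ℕ)) = 33701 / 1000000 * r p ^ (8 : ℕ) := by ring
  have e2 : (1836 / 10000 * r p ^ (4 : ℕ)) ^ (2 : ℕ) = (1836 / 10000) ^ (2 : ℕ) * r p ^ (8 : ℕ) := by ring
  rw [e1] at h3
  rw [e2]
  nlinarith only [h3, e2]

/-- `relL ≤ .485` -/
theorem relL_le (h : SmD p δ) : relL (hL p) δ ≤ 485 / 1000 := by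
  have hr := h.r_pos
  unfold relL
  have hs := h.sm.sL0
  rw [h.v_eq] at hs
  have hs2 : (473 / 1000 * r p ^ (2 : ℕ)) ^ (2 : ℕ) ≤ (hL p).im ^ (2 : ℕ) := by
    rw [show (hL p).im ^ (2 : ℕ) = (-(hL p).im) ^ (2 : ℕ) by ring]
    exact pow_le_pow_left₀ (by positivity) hs 2
  have hs0 : 0 < (hL p).im ^ (2 : ℕ) := lt_of_lt_of_le (by (clear * - hr; positivity)) hs2
  rw [div_le_iff₀ hs0]
  have h1 : 599 / 1000 * ‖hL p‖ * √(‖1 - hL p‖ * δ) ≤ 599 / 1000 * 1 * (181 / 1000 * r p ^ (4 : ℕ)) := by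
    have := h.sm.hLn
    have := h.smLd
    gcongr
  have h4 : 0 < r p ^ (4 : ℕ) := by (clear * - hr; positivity)
  nlinarith only [hs2, h1]

theorem relL_nonneg (_h : SmD p δ) : 0 ≤ relL (hL p) δ := by
  unfold relL
  (clear * -; positivity)

/-- `bL ≤ .334 u` -/
theorem bL_le (h : SmD p δ) : bL (hL p) δ ≤ 334 / 1000 * p.re := by
  have hr := h.r_pos
  have hu := h.sm.re_pos
  unfold bL
  have hs := h.sm.sL0
  rw [h.v_eq] at hs
  have hs0 : 0 < -(hL p).im := lt_of_lt_of_le (by positivity) hs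
  have hs2 : (473 / 1000 * r p ^ (2 : ℕ)) ^ (2 : ℕ) ≤ (hL p).im ^ (2 : ℕ) := by
    rw [show (hL p).im ^ (2 : ℕ) = (-(hL p).im) ^ (2 : ℕ) by ring]
    exact pow_le_pow_left₀ (by (clear * - hr; positivity)) hs 2
  have hs20 : 0 < (hL p).im ^ (2 : ℕ) := lt_of_lt_of_le (by positivity) hs2
  have hss : 6877 / 10000 * r p ≤ √(-(hL p).im) := by
    refine le_sqrt'' ?_
    nlinarith only [hs]
  have hsss : 3252 / 10000 * r p ^ (3 : ℕ) ≤ -(hL p).im * √(-(hL p).im) := by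
    have h1 : (473 / 1000 * r p ^ (2 : ℕ)) * (6877 / 10000 * r p) ≤ -(hL p).im * √(-(hL p).im) :=
      mul_le_mul hs hss (by (clear * - hr; positivity)) hs0.le
    have h3 : 0 < r p ^ (3 : ℕ) := by positivity
    linarith only [h1, h3]
  have hm : 714 / 1000 * r p ≤ √‖1 - hL p‖ := by
    refine le_sqrt'' ?_
    have := h.sm.mL0
    rw [h.v_eq] at this
    nlinarith only [this]
  -- first term
  have t1 : δ / (2 * (-(hL p).im * √(-(hL p).im))) ≤ 1538 / 1000 * (δ / r p ^ (3 : ℕ)) := by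
    rw [div_le_iff₀ (by (clear * - hs0; positivity))]
    have h1 : 1538 / 1000 * (δ / r p ^ (3 : ℕ)) * (2 * (3252 / 10000 * r p ^ (3 : ℕ))) ≤
        1538 / 1000 * (δ / r p ^ (3 : ℕ)) * (2 * (-(hL p).im * √(-(hL p).im))) := by
      have := h.pos
      gcongr
    have h2 : 1538 / 1000 * (δ / r p ^ (3 : ℕ)) * (2 * (3252 / 10000 * r p ^ (3 : ℕ))) = 1538 / 1000 * 2 * (3252 / 10000) * δ := by
      field_simp
    rw [h2] at h1
    have := h.pos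
    linarith only [h1, this]
  have t2 : 399 / 1000 * (δ * √δ) / (hL p).im ^ (2 : ℕ) ≤ 81 / 1000 * (δ / r p ^ (3 : ℕ)) := by
    rw [div_le_iff₀ hs20]
    have h1 : 81 / 1000 * (δ / r p ^ (3 : ℕ)) * (473 / 1000 * r p ^ (2 : ℕ)) ^ (2 : ℕ) ≤
        81 / 1000 * (δ / r p ^ (3 : ℕ)) * (hL p).im ^ (2 : ℕ) := by
      have := h.pos
      gcongr
    have h2 : 81 / 1000 * (δ / r p ^ (3 : ℕ)) * (473 / 1000 * r p ^ (2 : ℕ)) ^ (2 : ℕ) = 81 / 1000 * (473 / 1000) ^ (2 : ℕ) * (δ * r p) := by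
      field_simp
    rw [h2] at h1
    have h3 : δ * √δ ≤ δ * (2243 / 10000 * r p ^ (3 : ℕ)) := by
      have := h.sd
      have := h.pos
      gcongr
    have h4 : δ * (2243 / 10000 * r p ^ (3 : ℕ)) ≤ 2243 / 50000 * (δ * r p) := by
      have h5 : r p ^ (3 : ℕ) ≤ 1 / 5 * r p := by
        have : r p ^ (3 : ℕ) = r p ^ (2 : ℕ) * r p := by ring
        rw [this]
        have := h.r2
        gcongr
      have := h.pos
      nlinarith only [h5, this]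
    have h6 : 0 < δ * r p := mul_pos h.pos hr
    linarith only [h1, h3, h4, h6]
  have t3 : δ / r p ^ (3 : ℕ) ≤ 757 / 10000 * (p.re * r p) := by
    rw [div_le_iff₀ (by positivity)]
    have h1 := h.d1
    rw [h.v_eq] at h1
    calc δ ≤ 757 / 10000 * (p.re * (r p ^ (2 : ℕ)) ^ (2 : ℕ)) := h1
      _ = 757 / 10000 * (p.re * r p) * r p ^ (3 : ℕ) := by ring
  have hsum : δ / (2 * (-(hL p).im * √(-(hL p).im))) + 399 / 1000 * (δ * √δ) / (hL p).im ^ (2 : ℕ) ≤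
      1226 / 10000 * (p.re * r p) := by
    have h6 : 0 < p.re * r p := mul_pos hu hr
    linarith only [t1, t2, t3, h6]
  have hq : ‖hL p‖ / √‖1 - hL p‖ ≤ 1 / (714 / 1000 * r p) := by
    have := h.sm.hLn
    gcongr
  have hsum0 : 0 ≤ δ / (2 * (-(hL p).im * √(-(hL p).im))) + 399 / 1000 * (δ * √δ) / (hL p).im ^ (2 : ℕ) := by
    have := h.pos
    (clear * - this hs0 hs20; positivity)
  have hprod : ‖hL p‖ / √‖1 - hL p‖ * (δ / (2 * (-(hL p).im * √(-(hL p).im))) + 399 / 1000 * (δ * √δ) / (hL p).im ^ (2 : ℕ)) ≤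
      1 / (714 / 1000 * r p) * (1226 / 10000 * (p.re * r p)) :=
    mul_le_mul hq hsum hsum0 (by positivity)
  have hprod2 : 1 / (714 / 1000 * r p) * (1226 / 10000 * (p.re * r p)) = 1226 / 7140 * p.re := by
    field_simp
    ring
  rw [hprod2] at hprod
  have h9 := h.relL_le
  rw [div_le_iff₀ (by linarith only [h9])]
  have h10 : 334 / 1000 * p.re * (515 / 1000) ≤ 334 / 1000 * p.re * (1 - relL (hL p) δ) := by
    have : 515 / 1000 ≤ 1 - relL (hL p) δ := by linarith only [h9]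
    gcongr
  linarith only [hu, hprod, h10]

/-! ### Right saddle -/

theorem q0 (h : SmD p δ) : 2054 / 10000 * r p ^ (2 : ℕ) ≤ qp (hR p) := by
  unfold qp
  have h1 := h.sm.aR0
  have h2 := h.sm.sR0
  have h3 := h.sm.u0
  have h0 := h.sm.v0
  rw [← h.v_eq]
  have h4 : (1732 : ℝ) / 1000 ≤ √3 := by
    refine le_sqrt'' ?_
    norm_num
  have h5 : 1857 / 10000 * p.im ≤ (hR p).re - 1 := by linarith only [h1, h3]
  have h6 : 1732 / 1000 / 4 * (1857 / 10000 * p.im) ≤ √3 / 4 * ((hR p).re - 1) := by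
    have : (1732 : ℝ) / 1000 / 4 ≤ √3 / 4 := by linarith only [h4]
    exact mul_le_mul this h5 (by positivity) (by (clear * -; positivity))
  linarith only [h2, h0, h6]

theorem q_pos (h : SmD p δ) : 0 < qp (hR p) :=
  lt_of_lt_of_le (by have := h.r_pos; positivity) h.q0

theorem xl0 (h : SmD p δ) : 4587 / 10000 * r p ^ (2 : ℕ) ≤ xl (hR p) := by
  unfold xl
  have h1 := h.sm.sR0
  have h2 := h.sm.hRn
  have h3 := h.sm.hRn0
  rw [le_div_iff₀ (by linarith only [h3])]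
  rw [h.v_eq] at h1
  have hr := h.r_pos
  have : 4587 / 10000 * r p ^ (2 : ℕ) * ‖hR p‖ ≤ 4587 / 10000 * r p ^ (2 : ℕ) * (109 / 100) := by gcongr
  have h4 : 0 < r p ^ (2 : ℕ) := by positivity
  linarith only [h1, this, h4]

theorem xl1 (h : SmD p δ) : xl (hR p) ≤ 527 / 1000 * r p ^ (2 : ℕ) := by
  unfold xl
  have h1 := h.sm.sR1
  have h3 := h.sm.hRn0
  rw [div_le_iff₀ (by linarith only [h3])]
  rw [h.v_eq] at h1
  have hr := h.r_pos
  have h4 : 0 < r p ^ (2 : ℕ) := by positivity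
  have : 527 / 1000 * r p ^ (2 : ℕ) * 1 ≤ 527 / 1000 * r p ^ (2 : ℕ) * ‖hR p‖ := by gcongr
  linarith only [h1, this]

theorem xl_pos (h : SmD p δ) : 0 < xl (hR p) :=
  lt_of_lt_of_le (by have := h.r_pos; positivity) h.xl0

theorem sdq (h : SmD p δ) : √(δ / qp (hR p)) ≤ 1 / 10 := by
  refine sqrt_le' (by norm_num) ?_
  rw [div_le_iff₀ h.q_pos]
  have h1 := h.d2
  rw [h.v_eq] at h1
  have h2 := h.q0
  have hr := h.r_pos
  have h3 : (r p ^ (2 : ℕ)) ^ (3 : ℕ) ≤ 1 / 25 * r p ^ (2 : ℕ) := by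
    have h4 := h.r2
    have : (r p ^ (2 : ℕ)) ^ (3 : ℕ) = (r p ^ (2 : ℕ)) ^ (2 : ℕ) * r p ^ (2 : ℕ) := by ring
    rw [this]
    have : (r p ^ (2 : ℕ)) ^ (2 : ℕ) ≤ (1 / 5) ^ (2 : ℕ) := pow_le_pow_left₀ (by positivity) h4 2
    have : (r p ^ (2 : ℕ)) ^ (2 : ℕ) ≤ 1 / 25 := by linarith only [this]
    gcongr
  have h5 : 0 < r p ^ (2 : ℕ) := by positivity
  linarith only [h1, h2, h3, h5]

theorem tf_le (h : SmD p δ) : tf (hR p) δ ≤ 34 / 1000 := by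
  unfold tf
  have hr := h.r_pos
  have h1 : δ / (4 * qp (hR p) * xl (hR p) ^ (2 : ℕ)) ≤ 291 / 1000 := by
    have hq := h.q_pos
    have hx := h.xl_pos
    rw [div_le_iff₀ (by (clear * - hq hx; positivity))]
    have h2 : (4587 / 10000 * r p ^ (2 : ℕ)) ^ (2 : ℕ) ≤ xl (hR p) ^ (2 : ℕ) := pow_le_pow_left₀ (by (clear * - hr; positivity)) h.xl0 2
    have h3 : (2054 / 10000 * r p ^ (2 : ℕ)) * (4587 / 10000 * r p ^ (2 : ℕ)) ^ (2 : ℕ) ≤ qp (hR p) * xl (hR p) ^ (2 : ℕ) :=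
      mul_le_mul h.q0 h2 (by positivity) hq.le
    have h4 := h.d2
    rw [h.v_eq] at h4
    have e1 : (2054 / 10000 * r p ^ (2 : ℕ)) * (4587 / 10000 * r p ^ (2 : ℕ)) ^ (2 : ℕ) = 2054 / 10000 * (4587 / 10000) ^ (2 : ℕ) * r p ^ (6 : ℕ) := by
      ring
    have e2 : (r p ^ (2 : ℕ)) ^ (3 : ℕ) = r p ^ (6 : ℕ) := by ring
    rw [e1] at h3
    rw [e2] at h4
    have h5 : 0 < r p ^ (6 : ℕ) := by (clear * - hr; positivity)
    nlinarith only [h2, h3, h4]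
  have h0 : 0 ≤ δ / (4 * qp (hR p) * xl (hR p) ^ (2 : ℕ)) := by
    have := h.q_pos
    have := h.xl_pos
    have := h.pos
    positivity
  have h2 := pow_le_pow_left₀ h0 h1 4
  linarith only [h2]

theorem tf_nonneg (h : SmD p δ) : 0 ≤ tf (hR p) δ := by
  unfold tf
  have := h.q_pos
  have := h.xl_pos
  have := h.pos
  positivity

theorem smR1 (h : SmD p δ) : √‖1 - hR p‖ ≤ 8186 / 10000 * r p := by
  have hr := h.r_pos
  refine sqrt_le' (by positivity) ?_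
  have := h.sm.mR1
  rw [h.v_eq] at this
  nlinarith only [this]

theorem smR0 (h : SmD p δ) : 728 / 1000 * r p ≤ √‖1 - hR p‖ := by
  refine le_sqrt'' ?_
  have := h.sm.mR0
  rw [h.v_eq] at this
  nlinarith only [this]

theorem smL1 (h : SmD p δ) : √‖1 - hL p‖ ≤ 8063 / 10000 * r p := by
  have hr := h.r_pos
  refine sqrt_le' (by positivity) ?_
  have := h.sm.mL1
  rw [h.v_eq] at this
  nlinarith only [this]

theorem smL0 (h : SmD p δ) : 714 / 1000 * r p ≤ √‖1 - hL p‖ := by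
  refine le_sqrt'' ?_
  have := h.sm.mL0
  rw [h.v_eq] at this
  nlinarith only [this]

theorem sxl0 (h : SmD p δ) : 677 / 1000 * r p ≤ √(xl (hR p)) := by
  refine le_sqrt'' ?_
  have := h.xl0
  nlinarith only [this]

theorem sxl1 (h : SmD p δ) : √(xl (hR p)) ≤ 726 / 1000 * r p := by
  have hr := h.r_pos
  refine sqrt_le' (by positivity) ?_
  have := h.xl1
  nlinarith only [this]

/-- `relR ≤ .33` -/
theorem relR_le (h : SmD p δ) : relR (hR p) δ ≤ 33 / 100 := by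
  have hr := h.r_pos
  have hq := h.q_pos
  have hx := h.xl_pos
  have hsd := h.pos
  unfold relR
  -- first part
  have a1 : 100 / (243 * (hR p).im ^ (2 : ℕ)) ≤ 16461 / 10000 / r p ^ (4 : ℕ) := by
    have h1 := h.sm.sR0
    rw [h.v_eq] at h1
    have h2 : (1 / 2 * r p ^ (2 : ℕ)) ^ (2 : ℕ) ≤ (hR p).im ^ (2 : ℕ) := pow_le_pow_left₀ (by positivity) h1 2
    have h3 : 0 < (hR p).im ^ (2 : ℕ) := lt_of_lt_of_le (by (clear * - hr; positivity)) h2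
    rw [div_le_div_iff₀ (by (clear * - h3; positivity)) (by positivity)]
    have e : (1 / 2 * r p ^ (2 : ℕ)) ^ (2 : ℕ) = 1 / 4 * r p ^ (4 : ℕ) := by ring
    rw [e] at h2
    nlinarith only [h2]
  have a2 : (1 + 27 / 100 * √(δ / qp (hR p))) / (12 * qp (hR p) ^ (2 : ℕ)) ≤ 2029 / 1000 / r p ^ (4 : ℕ) := by
    have h1 := h.q0
    have h2 : (2054 / 10000 * r p ^ (2 : ℕ)) ^ (2 : ℕ) ≤ qp (hR p) ^ (2 : ℕ) := pow_le_pow_left₀ (by (clear * - hr; positivity)) h1 2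
    rw [div_le_div_iff₀ (by positivity) (by positivity)]
    have e : (2054 / 10000 * r p ^ (2 : ℕ)) ^ (2 : ℕ) = (2054 / 10000) ^ (2 : ℕ) * r p ^ (4 : ℕ) := by ring
    rw [e] at h2
    have h3 := h.sdq
    have h4 : 0 < r p ^ (4 : ℕ) := by (clear * - hr; positivity)
    have h5 : (1 + 27 / 100 * √(δ / qp (hR p))) * r p ^ (4 : ℕ) ≤ (1027 / 1000) * r p ^ (4 : ℕ) := by
      have : 1 + 27 / 100 * √(δ / qp (hR p)) ≤ 1027 / 1000 := by linarith only [h3]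
      gcongr
    nlinarith only [h2, e, h3]
  have a3 : 399 / 1000 * ‖hR p‖ * √(‖1 - hR p‖ * δ) ≤ 399 / 1000 * (109 / 100) * (1836 / 10000 * r p ^ (4 : ℕ)) := by
    have := h.sm.hRn
    have := h.smRd
    gcongr
  have a4 : 399 / 1000 * ‖hR p‖ * √(‖1 - hR p‖ * δ) *
      (100 / (243 * (hR p).im ^ (2 : ℕ)) + (1 + 27 / 100 * √(δ / qp (hR p))) / (12 * qp (hR p) ^ (2 : ℕ))) ≤
      399 / 1000 * (109 / 100) * (1836 / 10000 * r p ^ (4 : ℕ)) * (36751 / 10000 / r p ^ (4 : ℕ)) := by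
    refine mul_le_mul a3 ?_ (by (clear * - hsd hq; positivity)) (by positivity)
    refine (add_le_add a1 a2).trans (le_of_eq ?_)
    ring
  have a5 : 399 / 1000 * (109 / 100) * (1836 / 10000 * r p ^ (4 : ℕ)) * (36751 / 10000 / r p ^ (4 : ℕ)) =
      399 / 1000 * (109 / 100) * (1836 / 10000) * (36751 / 10000) := by
    field_simp
  rw [a5] at a4
  -- second part
  have b1 : 3 / 5 / √(xl (hR p)) ≤ 3 / 5 / (677 / 1000 * r p) := by
    have := h.sxl0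
    gcongr
  have b2 : 1 / 10 * √δ / (qp (hR p) * xl (hR p)) ≤
      1 / 10 * (2243 / 10000 * r p ^ (3 : ℕ)) / ((2054 / 10000 * r p ^ (2 : ℕ)) * (4587 / 10000 * r p ^ (2 : ℕ))) := by
    have := h.sd
    have := h.q0
    have := h.xl0
    gcongr
  have b3 : tf (hR p) δ * √‖1 - hR p‖ ≤ 34 / 1000 * (8186 / 10000 * r p) := by
    have := h.tf_le
    have := h.smR1
    have := h.tf_nonneg
    gcongr
  have b4 : tf (hR p) δ * √‖1 - hR p‖ * (3 / 5 / √(xl (hR p)) + 1 / 10 * √δ / (qp (hR p) * xl (hR p))) ≤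
      34 / 1000 * (8186 / 10000 * r p) * (3 / 5 / (677 / 1000 * r p) +
        1 / 10 * (2243 / 10000 * r p ^ (3 : ℕ)) / ((2054 / 10000 * r p ^ (2 : ℕ)) * (4587 / 10000 * r p ^ (2 : ℕ)))) :=
    mul_le_mul b3 (add_le_add b1 b2) (by (clear * - hx hsd hq; positivity)) (by positivity)
  have b5 : 34 / 1000 * (8186 / 10000 * r p) * (3 / 5 / (677 / 1000 * r p) +
        1 / 10 * (2243 / 10000 * r p ^ (3 : ℕ)) / ((2054 / 10000 * r p ^ (2 : ℕ)) * (4587 / 10000 * r p ^ (2 : ℕ)))) =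
      34 / 1000 * (8186 / 10000) * (600 / 677 + 1 / 10 * (2243 / 10000) / (2054 / 10000 * (4587 / 10000))) := by
    field_simp
    norm_num
  rw [b5] at b4
  refine (add_le_add a4 b4).trans ?_
  norm_num

theorem relR_nonneg (h : SmD p δ) : 0 ≤ relR (hR p) δ := by
  have hq := h.q_pos
  have hx := h.xl_pos
  have ht := h.tf_nonneg
  unfold relR
  (clear * - hq ht hx; positivity)

/-- `bR ≤ .46 u` -/
theorem bR_le (h : SmD p δ) : bR (hR p) δ ≤ 46 / 100 * p.re := by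
  have hr := h.r_pos
  have hq := h.q_pos
  have hx := h.xl_pos
  have hd := h.pos
  have hu := h.sm.re_pos
  have ht := h.tf_nonneg
  unfold bR
  have hs := h.sm.sR0
  rw [h.v_eq] at hs
  have hs0 : 0 < (hR p).im := lt_of_lt_of_le (by positivity) hs
  have hss : 7071 / 10000 * r p ≤ √(hR p).im := by
    refine le_sqrt'' ?_
    nlinarith only [hs]
  have hsss : 35355 / 100000 * r p ^ (3 : ℕ) ≤ (hR p).im * √(hR p).im := by
    have h1 : (1 / 2 * r p ^ (2 : ℕ)) * (7071 / 10000 * r p) ≤ (hR p).im * √(hR p).im :=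
      mul_le_mul hs hss (by (clear * - hr; positivity)) hs0.le
    have h3 : 0 < r p ^ (3 : ℕ) := by positivity
    linarith only [h1]
  have hqs : 4532 / 10000 * r p ≤ √(qp (hR p)) := by
    refine le_sqrt'' ?_
    have := h.q0
    nlinarith only [this]
  have hqss : 93 / 1000 * r p ^ (3 : ℕ) ≤ qp (hR p) * √(qp (hR p)) := by
    have h1 : (2054 / 10000 * r p ^ (2 : ℕ)) * (4532 / 10000 * r p) ≤ qp (hR p) * √(qp (hR p)) :=
      mul_le_mul h.q0 hqs (by positivity) hq.le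
    have h3 : 0 < r p ^ (3 : ℕ) := by positivity
    linarith only [h1, h3]
  have t1 : 59 / 200 * δ / ((hR p).im * √(hR p).im) ≤ 8345 / 10000 * (δ / r p ^ (3 : ℕ)) := by
    rw [div_le_iff₀ (by (clear * - hs0; positivity))]
    have h1 : 8345 / 10000 * (δ / r p ^ (3 : ℕ)) * (35355 / 100000 * r p ^ (3 : ℕ)) ≤
        8345 / 10000 * (δ / r p ^ (3 : ℕ)) * ((hR p).im * √(hR p).im) := by gcongr
    have h2 : 8345 / 10000 * (δ / r p ^ (3 : ℕ)) * (35355 / 100000 * r p ^ (3 : ℕ)) = 8345 / 10000 * (35355 / 100000) * δ := by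
      field_simp
    rw [h2] at h1
    linarith only [hd, h1]
  have t2 : 177 / 2000 * δ * (1 + 3 / 10 * √(δ / qp (hR p))) / (qp (hR p) * √(qp (hR p))) ≤
      981 / 1000 * (δ / r p ^ (3 : ℕ)) := by
    rw [div_le_iff₀ (by (clear * - hq; positivity))]
    have h1 : 981 / 1000 * (δ / r p ^ (3 : ℕ)) * (93 / 1000 * r p ^ (3 : ℕ)) ≤
        981 / 1000 * (δ / r p ^ (3 : ℕ)) * (qp (hR p) * √(qp (hR p))) := by gcongr
    have h2 : 981 / 1000 * (δ / r p ^ (3 : ℕ)) * (93 / 1000 * r p ^ (3 : ℕ)) = 981 / 1000 * (93 / 1000) * δ := by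
      field_simp
    rw [h2] at h1
    have h3 : 177 / 2000 * δ * (1 + 3 / 10 * √(δ / qp (hR p))) ≤ 177 / 2000 * δ * (103 / 100) := by
      have := h.sdq
      have : 1 + 3 / 10 * √(δ / qp (hR p)) ≤ 103 / 100 := by linarith only [this]
      gcongr
    linarith only [hd, h1, h3]
  have t3 : δ / r p ^ (3 : ℕ) ≤ 757 / 10000 * (p.re * r p) := by
    rw [div_le_iff₀ (by positivity)]
    have h1 := h.d1
    rw [h.v_eq] at h1
    calc δ ≤ 757 / 10000 * (p.re * (r p ^ (2 : ℕ)) ^ (2 : ℕ)) := h1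
      _ = 757 / 10000 * (p.re * r p) * r p ^ (3 : ℕ) := by ring
  have hq1 : ‖hR p‖ / √‖1 - hR p‖ ≤ (109 / 100) / (728 / 1000 * r p) := by
    have := h.sm.hRn
    have := h.smR0
    gcongr
  have A : ‖hR p‖ / √‖1 - hR p‖ * (59 / 200 * δ / ((hR p).im * √(hR p).im) +
      177 / 2000 * δ * (1 + 3 / 10 * √(δ / qp (hR p))) / (qp (hR p) * √(qp (hR p)))) ≤
      (109 / 100) / (728 / 1000 * r p) * (13744 / 100000 * (p.re * r p)) := by
    refine mul_le_mul hq1 ?_ (by (clear * - hd hs0 hq; positivity)) (by positivity)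
    have h6 : 0 < p.re * r p := mul_pos hu hr
    linarith only [t1, t2, t3, h6]
  have A2 : (109 / 100) / (728 / 1000 * r p) * (13744 / 100000 * (p.re * r p)) =
      (109 / 100) / (728 / 1000) * (13744 / 100000) * p.re := by
    field_simp
  rw [A2] at A
  have c1 : 2 / 5 * √δ / √‖1 - hR p‖ ≤ 2 / 5 * (2243 / 10000 * r p ^ (3 : ℕ)) / (728 / 1000 * r p) := by
    have := h.sd
    have := h.smR0
    gcongr
  have c2 : 27 / 20 * √‖1 - hR p‖ * √(xl (hR p)) ≤ 27 / 20 * (8186 / 10000 * r p) * (726 / 1000 * r p) := by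
    have := h.smR1
    have := h.sxl1
    gcongr
  have c3 : 11 / 20 * √‖1 - hR p‖ * √δ / xl (hR p) ≤
      11 / 20 * (8186 / 10000 * r p) * (2243 / 10000 * r p ^ (3 : ℕ)) / (4587 / 10000 * r p ^ (2 : ℕ)) := by
    have := h.smR1
    have := h.sd
    have := h.xl0
    gcongr
  have e1 : 2 / 5 * (2243 / 10000 * r p ^ (3 : ℕ)) / (728 / 1000 * r p) = 2 / 5 * (2243 / 10000) / (728 / 1000) * r p ^ (2 : ℕ) := by
    field_simp
  have e3 : 11 / 20 * (8186 / 10000 * r p) * (2243 / 10000 * r p ^ (3 : ℕ)) / (4587 / 10000 * r p ^ (2 : ℕ)) =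
      11 / 20 * (8186 / 10000) * (2243 / 10000) / (4587 / 10000) * r p ^ (2 : ℕ) := by
    field_simp
  rw [e1] at c1
  rw [e3] at c3
  have hr2 : 0 < r p ^ (2 : ℕ) := by (clear * - hr; positivity)
  have C : 2 / 5 * √δ / √‖1 - hR p‖ + 27 / 20 * √‖1 - hR p‖ * √(xl (hR p)) +
      11 / 20 * √‖1 - hR p‖ * √δ / xl (hR p) ≤ 1146 / 1000 * r p ^ (2 : ℕ) := by
    nlinarith only [c1, c2, c3]
  have T : tf (hR p) δ * (2 / 5 * √δ / √‖1 - hR p‖ + 27 / 20 * √‖1 - hR p‖ * √(xl (hR p)) +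
      11 / 20 * √‖1 - hR p‖ * √δ / xl (hR p)) ≤ 34 / 1000 * (1146 / 1000 * r p ^ (2 : ℕ)) :=
    mul_le_mul h.tf_le C (by (clear * - hd hx; positivity)) (by norm_num)
  have hv : r p ^ (2 : ℕ) ≤ 5 / 2 * p.re := by
    rw [h.r_sq]
    have := h.sm.u0
    linarith only [this]
  have h9 := h.relR_le
  rw [div_le_iff₀ (by linarith only [h9])]
  have h10 : 46 / 100 * p.re * (67 / 100) ≤ 46 / 100 * p.re * (1 - relR (hR p) δ) := by
    have : 67 / 100 ≤ 1 - relR (hR p) δ := by linarith only [h9]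
    gcongr
  nlinarith only [A, T, hv, h10]

/-! ### The conditions -/

theorem hR_re_pos (h : SmD p δ) : 0 < (hR p).re := by
  have := h.sm.aR0
  have := h.sm.u0
  have := h.sm.v0
  linarith

theorem arg_le (h : SmD p δ) : arg (hR p) ≤ (hR p).im := by
  have hre := h.hR_re_pos
  have him : 0 < (hR p).im := lt_of_lt_of_le (by have := h.sm.v0; positivity) h.sm.sR0
  have h1 : |arg (hR p)| < Real.pi / 2 := Complex.abs_arg_lt_pi_div_two_iff.2 (Or.inl hre)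
  have h2 : 0 ≤ arg (hR p) := Complex.arg_nonneg_iff.2 him.le
  rw [abs_of_nonneg h2] at h1
  have h3 := Real.le_tan h2 h1
  rw [Complex.tan_arg] at h3
  refine h3.trans ?_
  rw [div_le_iff₀ hre]
  have : 1 ≤ (hR p).re := by
    have := h.sm.aR0
    have := h.sm.u0
    have := h.sm.v0
    linarith
  nlinarith only [him, this]

theorem pt (h : SmD p δ) : PtCond p δ := by
  have hv0 := h.sm.v0
  have hv1 := h.sm.v1
  have a1 := h.sm.aR0
  have a2 := h.sm.aR1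
  have a3 := h.sm.u0
  have s1 := h.sm.sR1
  have s0 := h.sm.sR0
  have sL := h.sm.sL0
  have hd := h.d2
  have h3 : p.im ^ (3 : ℕ) ≤ 1 / 25 * p.im := by
    have : p.im ^ (3 : ℕ) = p.im ^ (2 : ℕ) * p.im := by ring
    rw [this]
    have : p.im ^ (2 : ℕ) ≤ 1 / 25 := by nlinarith only [hv0, hv1]
    gcongr
  refine ⟨?_, h.arg_le, ?_, ?_, ?_, h.q_pos, ?_, ?_, ?_⟩
  · linarith only [s1, s0, sL, hd, h3]
  · exact h.arg_le.trans (by linarith only [hv1, s1])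
  · linarith only [a1, a2, a3, s1]
  · linarith only [a1, a2, a3]
  · linarith only [h.relL_le]
  · linarith only [h.relR_le]
  · have b1 := h.bL_le
    have b2 := h.bR_le
    have := h.sm.re_pos
    linarith only [b1, b2, this]

/-- `e^(-X) ≤ 1/(1 + X + X²/2)` -/
theorem exp_neg_le {X : ℝ} (hX : 0 ≤ X) : Real.exp (-X) ≤ 1 / (1 + X + X ^ (2 : ℕ) / 2) := by
  rw [Real.exp_neg, inv_eq_one_div]
  have := Real.quadratic_le_exp_of_nonneg hX
  gcongr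

theorem condL (h : SmD p δ) (hk : p.re = 2 / 5 * p.im) : CondL p δ := by
  unfold CondL
  have hr := h.r_pos
  have hd := h.pos
  have h1 := (h.sm.BL hk).2
  have h2 := h.d3 hk
  have h3 : 0 < p.im ^ (3 : ℕ) := pow_pos h.sm.v0 3
  have hX : (Bp p).im / δ ≤ -(141 / 100) := by
    rw [div_le_iff₀ hd]
    linarith only [h1, h2, h3]
  have h4 : Real.exp ((Bp p).im / δ) ≤ 2945 / 10000 := by
    refine (Real.exp_le_exp.2 hX).trans ((exp_neg_le (by norm_num)).trans ?_)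
    norm_num
  have h5 := h.relL_le
  have h5' := h.relL_nonneg
  have h6 := h.relR_le
  have h7 : Real.exp ((Bp p).im / δ) * (1 + relL (hL p) δ) * √‖1 - hR p‖ ≤
      2945 / 10000 * (1 + 485 / 1000) * (8186 / 10000 * r p) := by
    have := h.smR1
    gcongr
  have h8 : (1 - 33 / 100) * (714 / 1000 * r p) ≤ (1 - relR (hR p) δ) * √‖1 - hL p‖ := by
    have := h.smL0
    have : 0 ≤ 1 - relR (hR p) δ := by linarith only [h6]
    gcongr
  refine lt_of_le_of_lt h7 (lt_of_lt_of_le ?_ h8)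
  linarith only [hr]

theorem condR (h : SmD p δ) (hk : p.re = 4 / 5 * p.im) : CondR p δ := by
  unfold CondR
  have hr := h.r_pos
  have hd := h.pos
  have h1 := h.sm.BR hk
  have h2 := h.d2
  have h3 : 0 < p.im ^ (3 : ℕ) := pow_pos h.sm.v0 3
  have hX : 151 / 100 ≤ (Bp p).im / δ := by
    rw [le_div_iff₀ hd]
    linarith only [h1, h2, h3]
  have h4 : Real.exp (-((Bp p).im / δ)) ≤ 2742 / 10000 := by
    refine (Real.exp_le_exp.2 (neg_le_neg hX)).trans ((exp_neg_le (by norm_num)).trans ?_)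
    norm_num
  have h5 := h.relL_le
  have h5' := h.relR_nonneg
  have h6 := h.relR_le
  have h7 : Real.exp (-((Bp p).im / δ)) * (1 + relR (hR p) δ) * √‖1 - hL p‖ ≤
      2742 / 10000 * (1 + 33 / 100) * (8063 / 10000 * r p) := by
    have := h.smL1
    gcongr
  have h8 : (1 - 485 / 1000) * (728 / 1000 * r p) ≤ (1 - relL (hL p) δ) * √‖1 - hR p‖ := by
    have := h.smR0
    have : 0 ≤ 1 - relL (hL p) δ := by linarith only [h5]
    gcongr
  refine lt_of_le_of_lt h7 (lt_of_lt_of_le ?_ h8)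
  linarith only [hr]

theorem condI (h : SmD p δ) : CondI p δ := by
  have hv0 := h.sm.v0
  have h5 := h.relL_le
  have h5' := h.relL_nonneg
  have h6 := h.relR_le
  have h6' := h.relR_nonneg
  constructor
  · have a1 := h.sm.aL1
    have a2 := h.sm.sL0
    have a3 := h.sm.u1
    have h7 : 0 ≤ (1 - 2 * relL (hL p) δ ^ (2 : ℕ)) * ‖1 - hL p‖ := by
      refine mul_nonneg ?_ (norm_nonneg _)
      nlinarith only [h5, h5']
    linarith only [hv0, a1, a2, a3, h7]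
  · have a1 := h.sm.aR0
    have a2 := h.sm.sR1
    have a3 := h.sm.u0
    have a4 := h.sm.mR0
    have h7 : (7 / 10) * (53 / 100 * p.im) ≤ (1 - 2 * relR (hR p) δ ^ (2 : ℕ)) * ‖1 - hR p‖ := by
      refine mul_le_mul ?_ a4 (by positivity) ?_
      · nlinarith only [h6, h6']
      · nlinarith only [h6, h6']
    linarith only [hv0, a1, a2, a3, h7]

end SmD

theorem sm_of_mem {p : ℂ} (hp : p ∈ DT) (hv : p.im ≤ 1 / 5) : Sm p :=
  ⟨hp.1, hv, hp.2.2.1, hp.2.2.2.trans (Uf_le _)⟩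

/-- (G1), (G2) for `v ≤ 1/5` -/
theorem small_G12 : ∀ p ∈ DT, p.im ≤ 1 / 5 → CondG p := fun _ hp hv =>
  ⟨(sm_of_mem hp hv).G1, (sm_of_mem hp hv).G2⟩

/-- all conditions for `v ≤ 1/5` -/
theorem small_P : ∀ δ : ℝ, 0 < δ → δ ≤ 2 / 25 → ∀ p ∈ PT δ, p.im ≤ 1 / 5 → CondP p δ := by
  intro δ hδ _ p hp hv
  have h : SmD p δ := ⟨sm_of_mem hp.1 hv, hδ, by have := hp.2.1; linarith only [this]⟩
  refine ⟨h.pt, h.condL, fun hk => h.condR ?_, fun _ => h.condI⟩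
  rw [hk, Uf_low (by linarith only [hv])]

/-- `|w| < 1` for `v ≤ 1/5` -/
theorem small_w : ∀ p ∈ DT, p.im ≤ 1 / 5 → ‖wmap p‖ < 1 := by
  intro p hp hv
  have h := sm_of_mem hp hv
  unfold wmap
  rw [norm_mul, Complex.norm_exp, Complex.neg_re]
  have h1 := h.hLn
  have h2 := h.aL1
  have h3 := h.u1
  have h0 := h.v0
  have h4 : 0 < (hL p).re := by linarith only [hv, h2, h3]
  have h5 : Real.exp (-(hL p).re) < 1 := by
    have := Real.exp_lt_exp.2 (show -(hL p).re < 0 by linarith only [h4])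
    rwa [Real.exp_zero] at this
  have h6 := Real.exp_pos (-(hL p).re)
  nlinarith only [h1, h5, h6]

end SokamTI

end
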