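import Pool.Agent.Lib_MP_af4de1_zy.Z65
import Pool.Agent.Lib_MP_af4de1_zy.Z73
import Pool.Agent.Lib_MP_af4de1_zy.Z91

/-! ### Lib_MP_af4de1_ti.Box5b -/

section
namespace SokamFU
end SokamFU
/-!
# Covering: the lists cover
-/

set_option autoImplicit false

namespace SokamTI

open SokamFU Complex

theorem segs_cover {t : ℤ → ℤ → Bool} {a : ℤ} {l : List ℤ} (h : segs t a l = true) (hl : l ≠ []) {x : ℝ}
    (h1 : (a : ℝ) / 1024 ≤ x) (h2 : x ≤ (lastI a l : ℝ) / 1024) :
    ∃ b c : ℤ, t b c = true ∧ (b : ℝ) / 1024 ≤ x ∧ x ≤ (c : ℝ) / 1024 := by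
  induction l generalizing a with
  | nil => exact absurd rfl hl
  | cons b l ih =>
    simp only [segs, Bool.and_eq_true] at h
    by_cases hx : x ≤ (b : ℝ) / 1024
    · exact ⟨a, b, h.1, h1, hx⟩
    · push Not at hx
      have h2' : x ≤ (lastI b l : ℝ) / 1024 := h2
      by_cases hl' : l = []
      · subst hl'
        have : lastI b [] = b := rfl
        rw [this] at h2'
        exact absurd h2' (not_le.mpr hx)
      · exact ih h.2 hl' hx.le h2'

theorem strips_cover {v : ℤ} {L : List (ℤ × ℤ × List ℤ)} (h : strips v L = true) (hL : L ≠ []) {p : ℂ} (hp : p ∈ DT)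
    (h1 : (v : ℝ) / 1024 ≤ p.im) (h2 : p.im ≤ (lastS v L : ℝ) / 1024) :
    ∃ u1 u2 v1 v2 : ℤ, cell u1 u2 v1 v2 = true ∧ (u1 : ℝ) / 1024 ≤ p.re ∧ p.re ≤ (u2 : ℝ) / 1024 ∧
      (v1 : ℝ) / 1024 ≤ p.im ∧ p.im ≤ (v2 : ℝ) / 1024 := by
  induction L generalizing v with
  | nil => exact absurd rfl hL
  | cons c L ih =>
    obtain ⟨v', u0, us⟩ := c
    simp only [strips, Bool.and_eq_true] at h
    by_cases hx : p.im ≤ (v' : ℝ) / 1024
    · obtain ⟨hs, -⟩ := h
      simp only [strip, Bool.and_eq_true, Bool.or_eq_true, decide_eq_true_eq] at hs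
      obtain ⟨⟨hs1, hs2⟩, hs3⟩ := hs
      obtain ⟨p1, p2, p3, p4⟩ := hp
      have hs1R : (5 : ℝ) * u0 ≤ 2 * v := by exact_mod_cast hs1
      have hU1 : p.re ≤ 4 / 5 * p.im := p4.trans (min_le_left _ _)
      have hU2 : p.re ≤ 32 / 25 + 11 / 50 * (p.im - 8 / 5) := p4.trans (min_le_right _ _)
      have hvv : (v : ℝ) ≤ v' := by linarith
      have hv' : (0 : ℝ) < v' := by linarith
      have hus : us ≠ [] := by
        intro hu
        subst hu
        have e : lastI u0 [] = u0 := rfl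
        rw [e] at hs2
        rcases hs2 with h5 | h5
        · have h5R : (4 : ℝ) * v' ≤ 5 * u0 := by exact_mod_cast h5
          linarith
        · have h5R : (22 : ℝ) * v' + 95028 ≤ 100 * u0 := by exact_mod_cast h5
          have h6 : (v : ℝ) ≤ 1024 * (19 / 5) := by linarith
          linarith
      have hlo : (u0 : ℝ) / 1024 ≤ p.re := by linarith
      have hhi : p.re ≤ (lastI u0 us : ℝ) / 1024 := by
        rcases hs2 with h5 | h5
        · have h5R : (4 : ℝ) * v' ≤ 5 * (lastI u0 us : ℝ) := by exact_mod_cast h5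
          linarith
        · have h5R : (22 : ℝ) * v' + 95028 ≤ 100 * (lastI u0 us : ℝ) := by exact_mod_cast h5
          linarith
      obtain ⟨b, c, hbc, hb, hc⟩ := segs_cover hs3 hus hlo hhi
      exact ⟨b, c, v, v', hbc, hb, hc, h1, hx⟩
    · push Not at hx
      have h2' : p.im ≤ (lastS v' L : ℝ) / 1024 := h2
      by_cases hl' : L = []
      · subst hl'
        have : lastS v' [] = v' := rfl
        rw [this] at h2'
        exact absurd h2' (not_le.mpr hx)
      · exact ih h.2 hl' hx.le h2'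

end SokamTI

end

/-! ### Lib_MP_af4de1_ti.CertD3 -/

section
/-!
# Tip certificate: strips, part 3
-/

set_option autoImplicit false

namespace SokamTI

/-- strips from `1228 / 1024` to `2300 / 1024` -/
def sd3 : List (ℤ × ℤ × List ℤ) := [
  (1276, 491, [521, 554, 590, 629, 671, 717, 786, 887, 1011, 1021]),
  (1324, 510, [535, 562, 592, 625, 671, 752, 872, 1021, 1060]),
  (1372, 529, [546, 565, 588, 642, 737, 877, 1053, 1098]),
  (1436, 548, [578, 642, 762, 938, 1149]),
  (1532, 574, [662, 813, 1018, 1211, 1226]),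
  (1660, 612, [763, 984, 1222, 1316]),
  (1788, 664, [885, 1141, 1344]),
  (1916, 715, [971, 1227, 1372]),
  (2044, 766, [1022, 1278, 1400]),
  (2172, 817, [1073, 1329, 1429]),
  (2300, 868, [1124, 1380, 1457])]

theorem sd3_ok : strips 1228 sd3 = true := by decide +kernel

theorem sd3_last : lastS 1228 sd3 = 2300 := by decide +kernel

end SokamTI

end

/-! ### Lib_MP_af4de1_ti.CertD5 -/

section
/-!
# Tip certificate: strips, part 5
-/

set_option autoImplicit false

namespace SokamTI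

/-- strips from `3288 / 1024` to `3892 / 1024` -/
def sd5 : List (ℤ × ℤ × List ℤ) := [
  (3320, 1315, [1345, 1456, 1681]),
  (3368, 1328, [1374, 1504, 1692]),
  (3432, 1347, [1416, 1579, 1706]),
  (3528, 1372, [1467, 1578, 1727]),
  (3624, 1411, [1551, 1650, 1748]),
  (3672, 1449, [1612, 1759]),
  (3736, 1468, [1644, 1746, 1773]),
  (3760, 1494, [1684, 1758, 1778]),
  (3768, 1504, [1694, 1767, 1780]),
  (3784, 1507, [1712, 1773, 1783]),
  (3816, 1513, [1718, 1784, 1790]),
  (3880, 1526, [1747, 1804]),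
  (3892, 1552, [1772, 1807])]

theorem sd5_ok : strips 3288 sd5 = true := by decide +kernel

theorem sd5_last : lastS 3288 sd5 = 3892 := by decide +kernel

end SokamTI

end

/-! ### Lib_MP_af4de1_ti.CertS -/

section
/-!
# Tip certificate: the sides
-/

set_option autoImplicit false

namespace SokamTI

def sgL : List ℤ := [224, 246, 270, 297, 326, 358, 392, 429, 469, 512, 559, 609, 662, 718, 777, 839, 904, 971, 1040, 1111, 1182, 1254, 1325, 1395, 1502, 1655, 1859, 2114, 2414, 2748, 2978, 3206, 3345, 3455, 3638, 3892]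

theorem sgL_ok : segs segL 204 sgL = true := by decide +kernel

theorem sgL_last : lastI 204 sgL = 3892 := by decide +kernel

def sgR : List ℤ := [218, 233, 250, 268, 287, 307, 329, 352, 377, 404, 433, 464, 497, 532, 569, 609, 651, 696, 743, 793, 846, 902, 960, 1021, 1084, 1149, 1195, 1274, 1402, 1583, 1639]

theorem sgR_ok : segs segR 204 sgR = true := by decide +kernel

theorem sgR_last : lastI 204 sgR = 1639 := by decide +kernel

def sgU : List ℤ := [1969, 2280, 2546, 2765, 2944, 3091, 3215, 3321, 3413, 3494, 3565, 3628, 3682, 3727, 3761, 3771, 3792, 3834, 3892]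

theorem sgU_ok : segs segU 1638 sgU = true := by decide +kernel

theorem sgU_last : lastI 1638 sgU = 3892 := by decide +kernel

def sgT : List ℤ := [1786, 1807]

theorem sgT_ok : segs segT 1556 sgT = true := by decide +kernel

theorem sgT_last : lastI 1556 sgT = 1807 := by decide +kernel

end SokamTI

end

/-! ### Lib_MP_af4de1_ti.Box6 -/

section
namespace SokamFU
end SokamFU
/-!
# The numerical facts of the tip: `tipNum : TipNum`
-/

set_option autoImplicit false

namespace SokamTI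

open SokamFU Complex

/-- some cell contains the point -/
theorem exists_cell {p : ℂ} (hp : p ∈ DT) (hv : 1 / 5 ≤ p.im) :
    ∃ u1 u2 v1 v2 : ℤ, cell u1 u2 v1 v2 = true ∧ (u1 : ℝ) / 1024 ≤ p.re ∧ p.re ≤ (u2 : ℝ) / 1024 ∧
      (v1 : ℝ) / 1024 ≤ p.im ∧ p.im ≤ (v2 : ℝ) / 1024 := by
  have hV : p.im ≤ 19 / 5 := hp.2.1
  rcases le_total p.im (476 / 1024) with h1 | h1
  · exact strips_cover sd0_ok (by simp [sd0]) hp (by push_cast; linarith only [hv]) (by rw [sd0_last]; push_cast; linarith only [h1])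
  rcases le_total p.im (892 / 1024) with h2 | h2
  · exact strips_cover sd1_ok (by simp [sd1]) hp (by push_cast; linarith only [h1]) (by rw [sd1_last]; push_cast; linarith only [h2])
  rcases le_total p.im (1228 / 1024) with h3 | h3
  · exact strips_cover sd2_ok (by simp [sd2]) hp (by push_cast; linarith only [h2]) (by rw [sd2_last]; push_cast; linarith only [h3])
  rcases le_total p.im (2300 / 1024) with h4 | h4
  · exact strips_cover sd3_ok (by simp [sd3]) hp (by push_cast; linarith only [h3]) (by rw [sd3_last]; push_cast; linarith only [h4])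
  rcases le_total p.im (3288 / 1024) with h5 | h5
  · exact strips_cover sd4_ok (by simp [sd4]) hp (by push_cast; linarith only [h4]) (by rw [sd4_last]; push_cast; linarith only [h5])
  · exact strips_cover sd5_ok (by simp [sd5]) hp (by push_cast; linarith only [h5]) (by rw [sd5_last]; push_cast; linarith only [hV])

/-- the cell and its consequences -/
theorem cell_at {p : ℂ} (hp : p ∈ DT) (hv : 1 / 5 ≤ p.im) :
    CondG p ∧ (‖wmap p‖ ≤ 1 → ∀ δ : ℝ, 0 < δ → δ ≤ 2 / 25 → (Bp p).re ≤ -(Real.pi * δ) →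
      PtCond p δ ∧ ((Bp p).re = -(Real.pi * δ) → CondI p δ)) := by
  obtain ⟨u1, u2, v1, v2, h, a1, a2, a3, a4⟩ := exists_cell hp hv
  exact cell_sound h hp.1.le a1 a2 a3 (rect_mem a1 a2 a3 a4)

/-- the left side -/
theorem segL_at {p : ℂ} (hp : p ∈ DT) (hv : 1 / 5 ≤ p.im) (hl : p.re = 2 / 5 * p.im) :
    (‖wmap p‖ ≤ 1 → ∀ δ : ℝ, 0 < δ → δ ≤ 2 / 25 → (Bp p).re ≤ -(Real.pi * δ) → CondL p δ) ∧
    (‖wmap p‖ = 1 → (Bp p).re ≤ -(Real.pi * (2 / 25)) ∧ 3 / 4 < psiP p) := by
  have hV : p.im ≤ 19 / 5 := hp.2.1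
  obtain ⟨b, c, h, h1, h2⟩ := segs_cover sgL_ok (by simp [sgL]) (x := p.im) (by push_cast; linarith only [hv])
    (by rw [sgL_last]; push_cast; linarith only [hV])
  exact segL_sound h (segL_mem hl h1 h2)

/-- the right side -/
theorem segR_at {p : ℂ} (hp : p ∈ DT) (hv : 1 / 5 ≤ p.im) (hr : p.re = Uf p.im) :
    ‖wmap p‖ ≤ 1 → ∀ δ : ℝ, 0 < δ → δ ≤ 2 / 25 → (Bp p).re ≤ -(Real.pi * δ) → CondR p δ := by
  have hV : p.im ≤ 19 / 5 := hp.2.1
  rcases le_total p.im (8 / 5) with h8 | h8
  · obtain ⟨b, c, h, h1, h2⟩ := segs_cover sgR_ok (by simp [sgR]) (x := p.im) (by push_cast; linarith only [hv])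
      (by rw [sgR_last]; push_cast; linarith only [h8])
    exact segR_sound h (segR_mem (by rw [hr, Uf_low h8]) h1 h2)
  · obtain ⟨b, c, h, h1, h2⟩ := segs_cover sgU_ok (by simp [sgU]) (x := p.im) (by push_cast; linarith only [h8])
      (by rw [sgU_last]; push_cast; linarith only [hV])
    exact segU_sound h (segU_mem (by rw [hr, Uf_high h8]) h1 h2)

/-- (G4) -/
theorem top_at {p : ℂ} (hp : p ∈ DT) (hv : p.im = 19 / 5) : 1 < ‖wmap p‖ := by
  have h1 : 2 / 5 * p.im ≤ p.re := hp.2.2.1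
  have h2 : p.re ≤ Uf p.im := hp.2.2.2
  rw [hv, Uf_high (by norm_num)] at h2
  rw [hv] at h1
  obtain ⟨b, c, h, h3, h4⟩ := segs_cover sgT_ok (by simp [sgT]) (x := p.re) (by push_cast; linarith only [h1])
    (by rw [sgT_last]; push_cast; linarith only [h2])
  refine segT_sound h (rect_mem h3 h4 ?_ ?_)
  · rw [hv]; push_cast; norm_num
  · rw [hv]; push_cast; norm_num

theorem condG_at {p : ℂ} (hp : p ∈ DT) : CondG p := by
  rcases le_total p.im (1 / 5) with h | h
  · exact small_G12 p hp h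
  · exact (cell_at hp h).1

/-- **The numerical facts of the tip.** -/
theorem tipNum : TipNum := by
  refine ⟨fun p hp => condG_at hp, ?_, fun p hp hv => top_at hp hv, ?_, ?_, ?_⟩
  · intro p hp hv hr
    obtain ⟨g1, g2⟩ := condG_at hp
    have hv0 : 0 < p.im := hp.1
    have hu : 2 / 5 * p.im ≤ p.re := hp.2.2.1
    have hu0 : 0 < p.re := by linarith only [hv0, hu]
    have hgy : 0 < -(Gp p).im := by
      have h1 : 0 < p.re * (Gp p).re := mul_pos hu0 g1
      have h2 : 0 < -(Gp p).im * p.im := h1.trans g2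
      exact (mul_pos_iff_of_pos_right hv0).1 h2
    have hn : 0 < normSq p := by
      rw [normSq_pos]
      intro h0
      rw [h0] at hv0
      simp at hv0
    have e : (Gp p * (11 / 50 + I) / p).re =
        ((Gp p).re * (11 / 50 * p.re + p.im) + (-(Gp p).im) * (p.re - 11 / 50 * p.im)) / normSq p := by
      rw [div_re]
      have e1 : (Gp p * (11 / 50 + I)).re = (Gp p).re * (11 / 50) - (Gp p).im := by
        rw [mul_re, add_re, add_im, I_re, I_im]
        norm_num
      have e2 : (Gp p * (11 / 50 + I)).im = (Gp p).re + (Gp p).im * (11 / 50) := by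
        rw [mul_im, add_re, add_im, I_re, I_im]
        norm_num
      rw [e1, e2]
      field_simp
      ring
    rw [e]
    refine div_pos (add_pos (mul_pos g1 (by linarith only [hv, hr])) (mul_pos hgy ?_)) hn
    linarith only [hu, hu0]
  · intro δ δ0 δ1 p hp
    rcases le_total p.im (1 / 5) with h | h
    · exact small_P δ δ0 δ1 p hp h
    · obtain ⟨hD, hB, hw⟩ := hp
      have hc := (cell_at hD h).2 hw δ δ0 δ1 hB
      exact ⟨hc.1, fun hl => (segL_at hD h hl).1 hw δ δ0 δ1 hB, fun hr => segR_at hD h hr hw δ δ0 δ1 hB, hc.2⟩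
  · intro p hp hl hw
    rcases le_total p.im (1 / 5) with h | h
    · exact absurd (small_w p hp h) (by rw [hw]; exact lt_irrefl _)
    · exact (segL_at hp h hl).2 hw
  · intro p hp _ _
    exact psi_lt_Dtip hp

end SokamTI

end

/-! ### Lib_MP_af4de1_ti.TipFinal -/

section
namespace SokamF
end SokamF
namespace SokamFU
end SokamFU
/-!
# The tip: final form
-/

set_option autoImplicit false

namespace SokamTI

open Complex SokamFU SokamF

/-- Part I on `|w| = 1` -/
theorem oneHyp : OneHyp (fun δ ρ ψ => SL ρ δ ψ 0) (fun δ ρ ψ => SR ρ δ ψ 0)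
    (fun δ ρ ψ => SL ρ δ ψ 1) (fun δ ρ ψ => SR ρ δ ψ 1) := by
  intro δ hδ hδ2 ψ hψ
  obtain ⟨h1, h2, h3⟩ := main_pt (ρ := 1) (δ := δ) (ψ := ψ) hδ (by linarith) le_rfl (by norm_num)
    (by linarith [hψ.1]) (by linarith [hψ.2])
  exact ⟨h1, h2, h3⟩

/-- The tip, from the zeros at `δ = 2/25` (W4). -/
theorem dist_tip (h4 : ∀ w, Zr (2 / 25) w → w ∈ wmap '' PT (2 / 25)) :
    ∀ α r : ℝ, 0 < α → α ≤ 2 / 25 → 0 < r → α * r ≤ 1 → SokamFU.Dist α r :=
  dist_tip_of repData lineHyp tipNum oneHyp h4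

end SokamTI

end
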