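import Pool.Agent.Lib_MP_af4de1_zy.Z95

/-! ### Lib_MP_af4de1_v3.BrR2 -/

section
namespace SokamCen
end SokamCen
namespace SokamF1
end SokamF1
namespace SokamF1M
end SokamF1M
namespace SokamF1S
end SokamF1S
namespace SokamV3
end SokamV3
/-!
# From the total on the right (`CenTR`) to `Shf` in scaled variables

`c = 1/√R`, `ν = ρ/√R`, `h = hst N`, `τ = |η|/h`, `Γ = Gm`, `t = (1+τ) h`; `S0, SW, Se` bound `PF SR0`,
`PF SRW R/h²`, `PF SRe/Γ`.
-/

set_option autoImplicit false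

namespace SokamCel

open Real MeasureTheory Set SokamCen SokamV3 SokamF1 SokamF1S SokamF1M

theorem hst_pos1 {N : ℕ} (hN : 1 ≤ N) : 0 < hst N := by
  unfold hst
  have : (1 : ℝ) ≤ N := by exact_mod_cast hN
  have := Real.pi_pos
  positivity

/-- the data -/
theorem dat {N : ℕ} {r δ : ℝ} (hN : 1 ≤ N) (hr : 0 < r) (hδ : 0 < δ) (η : ℝ) :
    Dat r (r * δ) (√(RR r δ)) (hst N) (|η| / hst N) (Gm N r δ) := by
  have hR : 0 < RR r δ := by unfold RR; positivity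
  have hh := hst_pos1 hN
  refine ⟨hr, by (clear * - hr hδ; positivity), Real.sqrt_pos.2 hR, ?_, hh, by (clear * - hh; positivity), ?_⟩
  · rw [Real.sq_sqrt hR.le]
    rfl
  · rw [Real.sq_sqrt hR.le]
    rfl

theorem PF_eq {N : ℕ} {r δ : ℝ} (hN : 1 ≤ N) (hr : 0 < r) (hδ : 0 < δ) (η g q : ℝ) :
    PF r δ η g q = PS r (r * δ) (√(RR r δ)) g q (|η| / hst N) (Gm N r δ) (5 / 4) := by
  have hh := hst_pos1 hN
  have e1 : Gm N r δ * (|η| / hst N) ^ (2 : ℕ) = r * η ^ (2 : ℕ) / RR r δ := by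
    unfold Gm
    rw [div_pow, sq_abs]
    field_simp
  have e2 : mm (r * δ) = 5 / 4 * √(RR r δ) := rfl
  unfold PF LvF PS
  rw [e1, e2]

private theorem br_gG (q A B : ℝ) : 0 ≤ gG q A B := Real.sqrt_nonneg _

private theorem br_gv {A B t : ℝ} (hA : 0 < A) (hB : 0 < B) (ht : 0 ≤ t) : SokamCen.gv A B t ≤ t := by
  unfold SokamCen.gv
  rw [div_le_iff₀ (by positivity)]
  linarith only [mul_nonneg hA.le ht]

private theorem br_gr {q A B t : ℝ} (hA : 0 < A) (hB : 0 < B) (ht : 0 ≤ t) : 0 ≤ gr q A B t := by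
  have := br_gG q A B
  have := br_gv hA hB ht
  unfold gr
  exact le_min (by positivity) (by linarith)

private theorem br_g0 {q A B t l : ℝ} (hA : 0 < A) (hB : 0 < B) (ht : 0 ≤ t) :
    0 ≤ g0 q A B t l := by
  have := br_gG q A B
  have := br_gr (q := q) hA hB ht
  unfold g0
  positivity

private theorem br_gW {q A B t l a0 a1 a2 : ℝ} (hq : 0 < q) (hA : 0 < A) (hB : 0 < B)
    (ht : 0 ≤ t) (h0 : 0 ≤ a0) (h1 : 0 ≤ a1) (h2 : 0 ≤ a2) : 0 ≤ gW q A B t l a0 a1 a2 := by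
  have hG := br_gG q A B
  have hs : 0 ≤ SokamCen.gs q A B := by unfold SokamCen.gs; positivity
  have hr := br_gr (q := q) hA hB ht
  have hv := br_gv hA hB ht
  have hv' : 0 ≤ t - SokamCen.gv A B t := by linarith
  unfold gW
  refine mul_nonneg (le_min ?_ ?_) (exp_pos _).le
  · (clear * - hG h0 h1 hs h2; positivity)
  · (clear * - hG h0 h1 hs h2 hv hr; positivity)

theorem bet_pos {t : ℝ} (h : 0 < t) : 0 < bet t := (win_bet h).1

/-- THE THREE INEQUALITIES, right side. -/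
theorem shfR_of {N : ℕ} {r δ y η ζ g k q f0 f1 f2 F0 FW Fe S0 SW Se : ℝ} (hN : 1 ≤ N) (hr : 0 < r)
    (hδ : 0 < δ) (hA : At r δ y η) (hL : Lev r δ y η g k q) (hk : 0 ≤ k) (hq : 0 ≤ q)
    (hS0 : 0 ≤ SR0 r (mm (r * δ)) (r * δ) ((1 + |η| / hst N) * hst N) F0)
    (hSW : 0 ≤ SRW r (mm (r * δ)) (r * δ) ((1 + |η| / hst N) * hst N) FW)
    (hSe : 0 ≤ SRe r (mm (r * δ)) (r * δ) ((1 + |η| / hst N) * hst N) Fe)
    (Z : Zone r (mm (r * δ)) (r * δ) (η + ζ) (sK (r * δ) y / (r * δ : ℝ)) univ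
      (TR0 r (mm (r * δ)) (r * δ) ((1 + |η| / hst N) * hst N) F0)
      (TRW r (mm (r * δ)) (r * δ) ((1 + |η| / hst N) * hst N) (k * (|η| / √(RR r δ))) F0 FW)
      (TRe r (mm (r * δ)) (r * δ) ((1 + |η| / hst N) * hst N) Fe))
    (b0 : PF r δ η g q * SR0 r (mm (r * δ)) (r * δ) ((1 + |η| / hst N) * hst N) F0 ≤ S0)
    (bW : PF r δ η g q * SRW r (mm (r * δ)) (r * δ) ((1 + |η| / hst N) * hst N) FW *
      (RR r δ / hst N ^ (2 : ℕ)) ≤ SW)
    (be : PF r δ η g q * SRe r (mm (r * δ)) (r * δ) ((1 + |η| / hst N) * hst N) Fe / Gm N r δ ≤ Se)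
    (hf0 : RM0 (5 / 4) q g (1 / √(RR r δ)) (r * δ / √(RR r δ)) (hst N) (|η| / hst N) (Gm N r δ)
      (bet ((1 + |η| / hst N) * hst N)) + S0 ≤ f0)
    (hf1 : √((RM0 (5 / 4) q g (1 / √(RR r δ)) (r * δ / √(RR r δ)) (hst N) (|η| / hst N)
        (Gm N r δ) (bet ((1 + |η| / hst N) * hst N)) + S0) *
      (RMW (5 / 4) q k g (1 / √(RR r δ)) (r * δ / √(RR r δ)) (hst N) (|η| / hst N)
        (Gm N r δ) (bet ((1 + |η| / hst N) * hst N)) +
        (√SW + k * (|η| / hst N) * √S0) ^ (2 : ℕ))) ≤ f1)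
    (hf2 : RMW (5 / 4) q k g (1 / √(RR r δ)) (r * δ / √(RR r δ)) (hst N) (|η| / hst N)
        (Gm N r δ) (bet ((1 + |η| / hst N) * hst N)) +
        (√SW + k * (|η| / hst N) * √S0) ^ (2 : ℕ) +
      (RMe (5 / 4) q g (1 / √(RR r δ)) (r * δ / √(RR r δ)) (hst N) (|η| / hst N)
        (Gm N r δ) (bet ((1 + |η| / hst N) * hst N)) + Se) ≤ f2) :
    Shf r δ y ζ (HH N r δ) f0 f1 f2 := by
  have D := dat hN hr hδ η
  have hh := D.h0
  have hs := D.s0
  have hs2 : √(RR r δ) ^ (2 : ℕ) = RR r δ := Real.sq_sqrt (by unfold RR; positivity)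
  have hR : 0 < RR r δ := by unfold RR; (clear * - hr hδ; positivity)
  have hΓ := D.Γ0
  have ht : 0 < (1 + |η| / hst N) * hst N := D.t0
  have hβ := bet_pos ht
  have hPF := PF_nonneg r δ η g q
  have em : mm (r * δ) = 5 / 4 * √(RR r δ) := rfl
  have m1 := D.main0 (μ := 5 / 4) (g := g) (q := q) (by norm_num) hβ hq
  have m2 := D.mainW (μ := 5 / 4) (g := g) (q := q) (kk := k) (by norm_num) hβ hq
  have m3 := D.mainE (μ := 5 / 4) (g := g) (q := q) (by norm_num) hβ hq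
  rw [← PF_eq hN hr hδ η g q] at m1 m2 m3
  have eκ : k * (|η| / hst N) * (hst N * (1 / √(RR r δ))) = k * (|η| / √(RR r δ)) := by
    field_simp
  rw [eκ] at m2
  have e0 : PF r δ η g q * mR0 r (mm (r * δ)) (r * δ) ((1 + |η| / hst N) * hst N) =
      RM0 (5 / 4) q g (1 / √(RR r δ)) (r * δ / √(RR r δ)) (hst N) (|η| / hst N)
        (Gm N r δ) (bet ((1 + |η| / hst N) * hst N)) := m1
  have eW : PF r δ η g q * mRW r (mm (r * δ)) (r * δ) ((1 + |η| / hst N) * hst N)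
      (k * (|η| / √(RR r δ))) = (hst N * (1 / √(RR r δ))) ^ (2 : ℕ) *
      RMW (5 / 4) q k g (1 / √(RR r δ)) (r * δ / √(RR r δ)) (hst N) (|η| / hst N)
        (Gm N r δ) (bet ((1 + |η| / hst N) * hst N)) := m2
  have eE : PF r δ η g q * mRe r (mm (r * δ)) (r * δ) ((1 + |η| / hst N) * hst N) =
      Gm N r δ * RMe (5 / 4) q g (1 / √(RR r δ)) (r * δ / √(RR r δ)) (hst N) (|η| / hst N)
        (Gm N r δ) (bet ((1 + |η| / hst N) * hst N)) := m3
  set t := (1 + |η| / hst N) * hst N with htd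
  set M0 := RM0 (5 / 4) q g (1 / √(RR r δ)) (r * δ / √(RR r δ)) (hst N) (|η| / hst N)
        (Gm N r δ) (bet t) with hM0
  set MW := RMW (5 / 4) q k g (1 / √(RR r δ)) (r * δ / √(RR r δ)) (hst N) (|η| / hst N)
        (Gm N r δ) (bet t) with hMW
  set Me := RMe (5 / 4) q g (1 / √(RR r δ)) (r * δ / √(RR r δ)) (hst N) (|η| / hst N)
        (Gm N r δ) (bet t) with hMe
  set P := PF r δ η g q with hP
  set A0 := SR0 r (mm (r * δ)) (r * δ) t F0 with hA0
  set AW := SRW r (mm (r * δ)) (r * δ) t FW with hAW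
  set Ae := SRe r (mm (r * δ)) (r * δ) t Fe with hAe
  have hgG : ∀ q A B : ℝ, 0 ≤ gG q A B := fun q A B => Real.sqrt_nonneg _
  -- nonnegativity of the main part
  have n0 : 0 ≤ mR0 r (mm (r * δ)) (r * δ) t := by
    unfold mR0
    exact br_g0 (AR_pos D.ρ0 (by rw [em]; linarith [D.ρs, D.ρ0]) ht) hβ ht.le
  have nW : 0 ≤ mRW r (mm (r * δ)) (r * δ) t (k * (|η| / √(RR r δ))) := by
    unfold mRW
    have : 0 ≤ k * (|η| / √(RR r δ)) := by (clear * - hk hR; positivity)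
    exact br_gW D.r0 (AR_pos D.ρ0 (by rw [em]; linarith [D.ρs, D.ρ0]) ht) hβ ht.le (by (clear * -; positivity))
      (by (clear * -; positivity)) (by (clear * - hk hR; positivity))
  have nE : 0 ≤ mRe r (mm (r * δ)) (r * δ) t := by
    unfold mRe
    (clear * - n0; positivity)
  have hκ : 0 ≤ k * (|η| / √(RR r δ)) := by (clear * - hk hR; positivity)
  have hkτ : 0 ≤ k * (|η| / hst N) := by (clear * - hk hh; positivity)
  have s0' : 0 ≤ S0 := le_trans (by (clear * - hPF hS0; positivity)) b0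
  have sW' : 0 ≤ SW := le_trans (by (clear * - hPF hSW hR hh; positivity)) bW
  have se' : 0 ≤ Se := le_trans (by (clear * - hPF hSe hΓ; positivity)) be
  have hM0n : 0 ≤ M0 := by rw [← e0]; (clear * - hPF n0; positivity)
  have hMWn : 0 ≤ MW := by
    have h1 : 0 < (hst N * (1 / √(RR r δ))) ^ (2 : ℕ) := by (clear * - hh hR; positivity)
    have h2 : 0 ≤ (hst N * (1 / √(RR r δ))) ^ (2 : ℕ) * MW := by rw [← eW]; (clear * - hPF nW; positivity)
    exact nonneg_of_mul_nonneg_right h2 h1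
  -- the totals in units
  have t0 : P * TR0 r (mm (r * δ)) (r * δ) t F0 ≤ M0 + S0 := by
    unfold TR0
    rw [mul_add, e0]
    linarith
  have tW : P * TRW r (mm (r * δ)) (r * δ) t (k * (|η| / √(RR r δ))) F0 FW *
      (RR r δ / hst N ^ (2 : ℕ)) ≤ MW + (√SW + k * (|η| / hst N) * √S0) ^ (2 : ℕ) := by
    unfold TRW
    rw [← hA0, ← hAW, mul_add, add_mul, eW]
    have e5 : (hst N * (1 / √(RR r δ))) ^ (2 : ℕ) * MW * (RR r δ / hst N ^ (2 : ℕ)) = MW := by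
      have e6 : (hst N * (1 / √(RR r δ))) ^ (2 : ℕ) = hst N ^ (2 : ℕ) / RR r δ := by
        rw [mul_pow, div_pow, hs2]
        ring
      rw [e6]
      field_simp
    rw [e5]
    have e7 : P * (√AW + k * (|η| / √(RR r δ)) * √A0) ^ (2 : ℕ) * (RR r δ / hst N ^ (2 : ℕ)) =
        (√(P * AW * (RR r δ / hst N ^ (2 : ℕ))) + k * (|η| / hst N) * √(P * A0)) ^ (2 : ℕ) := by
      have e8 : √(P * AW * (RR r δ / hst N ^ (2 : ℕ))) = √P * √AW * (√(RR r δ) / hst N) := by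
        rw [Real.sqrt_mul (by (clear * - hPF hSW; positivity)), Real.sqrt_mul hPF, Real.sqrt_div hR.le,
          Real.sqrt_sq hh.le]
      have e9 : √(P * A0) = √P * √A0 := Real.sqrt_mul hPF _
      rw [e8, e9]
      have e10 : √P ^ (2 : ℕ) = P := Real.sq_sqrt hPF
      have e11 : √P * √AW * (√(RR r δ) / hst N) + k * (|η| / hst N) * (√P * √A0) =
          √P * (√(RR r δ) / hst N) * (√AW + k * (|η| / √(RR r δ)) * √A0) := by
        field_simp
      rw [e11, mul_pow, mul_pow, e10, div_pow, hs2]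
      ring
    rw [e7]
    have e12 : √(P * AW * (RR r δ / hst N ^ (2 : ℕ))) ≤ √SW := Real.sqrt_le_sqrt bW
    have e13 : √(P * A0) ≤ √S0 := Real.sqrt_le_sqrt b0
    have e14 : √(P * AW * (RR r δ / hst N ^ (2 : ℕ))) + k * (|η| / hst N) * √(P * A0) ≤
        √SW + k * (|η| / hst N) * √S0 :=
      add_le_add e12 (mul_le_mul_of_nonneg_left e13 hkτ)
    have e15 := pow_le_pow_left₀ (by (clear * - hk hh; positivity)) e14 2
    linarith
  have te : P * TRe r (mm (r * δ)) (r * δ) t Fe / Gm N r δ ≤ Me + Se := by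
    unfold TRe
    rw [mul_add, add_div, eE, ← hAe, mul_div_cancel_left₀ _ hΓ.ne']
    linarith
  have nT0 : 0 ≤ TR0 r (mm (r * δ)) (r * δ) t F0 := by
    unfold TR0
    exact add_nonneg n0 hS0
  have nTW : 0 ≤ TRW r (mm (r * δ)) (r * δ) t (k * (|η| / √(RR r δ))) F0 FW := by
    unfold TRW
    (clear * - nW; positivity)
  have nTe : 0 ≤ TRe r (mm (r * δ)) (r * δ) t Fe := by
    unfold TRe
    exact add_nonneg nE hSe
  refine shf_wK hN hr hδ hA hL nT0 nTW nTe Z (t0.trans hf0) ?_ ?_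
  · refine le_trans (Real.sqrt_le_sqrt ?_) hf1
    exact mul_le_mul t0 tW (by (clear * - hPF nTW hR hh; positivity)) (by (clear * - hM0n s0'; positivity))
  · linarith
 
end SokamCel

end

/-! ### Lib_MP_af4de1_v3.BrRh -/

section
namespace SokamCen
end SokamCen
namespace SokamF1
end SokamF1
namespace SokamF1M
end SokamF1M
namespace SokamF1S
end SokamF1S
namespace SokamV3
end SokamV3
/-!
# From the total on the right (`CenTR`) to `Shf` in scaled variables, REAL `h > 0` (field `e`)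

`BrR2.lean` with a real `h` instead of `hst N`, `Γ = r h²/R`, `H = r h/√R`.
-/

set_option autoImplicit false

namespace SokamCel

open Real MeasureTheory Set SokamCen SokamV3 SokamF1 SokamF1S SokamF1M

/-- the data -/
theorem dath {r δ h : ℝ} (hh : 0 < h) (hr : 0 < r) (hδ : 0 < δ) (η : ℝ) :
    Dat r (r * δ) (√(RR r δ)) (h) (|η| / h) ((r * h ^ (2 : ℕ) / RR r δ)) := by
  have hR : 0 < RR r δ := by unfold RR; positivity
  refine ⟨hr, by positivity, Real.sqrt_pos.2 hR, ?_, hh, by positivity, ?_⟩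
  · rw [Real.sq_sqrt hR.le]
    rfl
  · rw [Real.sq_sqrt hR.le]

theorem PF_eqh {r δ h : ℝ} (hh : 0 < h) (hr : 0 < r) (hδ : 0 < δ) (η g q : ℝ) :
    PF r δ η g q = PS r (r * δ) (√(RR r δ)) g q (|η| / h) ((r * h ^ (2 : ℕ) / RR r δ)) (5 / 4) := by
  have e1 : (r * h ^ (2 : ℕ) / RR r δ) * (|η| / h) ^ (2 : ℕ) = r * η ^ (2 : ℕ) / RR r δ := by
    rw [div_pow, sq_abs]
    field_simp
  have e2 : mm (r * δ) = 5 / 4 * √(RR r δ) := rfl
  unfold PF LvF PS
  rw [e1, e2]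

private theorem brh_gG (q A B : ℝ) : 0 ≤ gG q A B := Real.sqrt_nonneg _

private theorem brh_gv {A B t : ℝ} (hA : 0 < A) (hB : 0 < B) (ht : 0 ≤ t) : SokamCen.gv A B t ≤ t := by
  unfold SokamCen.gv
  rw [div_le_iff₀ (by positivity)]
  linarith only [mul_nonneg hA.le ht]

private theorem brh_gr {q A B t : ℝ} (hA : 0 < A) (hB : 0 < B) (ht : 0 ≤ t) : 0 ≤ gr q A B t := by
  have := brh_gG q A B
  have := brh_gv hA hB ht
  unfold gr
  exact le_min (by positivity) (by linarith only [this])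

private theorem brh_g0 {q A B t l : ℝ} (hA : 0 < A) (hB : 0 < B) (ht : 0 ≤ t) :
    0 ≤ g0 q A B t l := by
  have := brh_gG q A B
  have := brh_gr (q := q) hA hB ht
  unfold g0
  positivity

private theorem brh_gW {q A B t l a0 a1 a2 : ℝ} (hq : 0 < q) (hA : 0 < A) (hB : 0 < B)
    (ht : 0 ≤ t) (h0 : 0 ≤ a0) (h1 : 0 ≤ a1) (h2 : 0 ≤ a2) : 0 ≤ gW q A B t l a0 a1 a2 := by
  have hG := brh_gG q A B
  have hs : 0 ≤ SokamCen.gs q A B := by unfold SokamCen.gs; positivity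
  have hr := brh_gr (q := q) hA hB ht
  have hv := brh_gv hA hB ht
  have hv' : 0 ≤ t - SokamCen.gv A B t := by linarith only [hv]
  unfold gW
  refine mul_nonneg (le_min ?_ ?_) (exp_pos _).le
  · positivity
  · positivity

/-- THE THREE INEQUALITIES, right side. -/
theorem shfR_ofh {r δ y η ζ g k q h f0 f1 f2 F0 FW Fe S0 SW Se : ℝ} (hh : 0 < h) (hr : 0 < r)
    (hδ : 0 < δ) (hA : At r δ y η) (hL : Lev r δ y η g k q) (hk : 0 ≤ k) (hq : 0 ≤ q)
    (hS0 : 0 ≤ SR0 r (mm (r * δ)) (r * δ) ((1 + |η| / h) * h) F0)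
    (hSW : 0 ≤ SRW r (mm (r * δ)) (r * δ) ((1 + |η| / h) * h) FW)
    (hSe : 0 ≤ SRe r (mm (r * δ)) (r * δ) ((1 + |η| / h) * h) Fe)
    (Z : Zone r (mm (r * δ)) (r * δ) (η + ζ) (sK (r * δ) y / (r * δ : ℝ)) univ
      (TR0 r (mm (r * δ)) (r * δ) ((1 + |η| / h) * h) F0)
      (TRW r (mm (r * δ)) (r * δ) ((1 + |η| / h) * h) (k * (|η| / √(RR r δ))) F0 FW)
      (TRe r (mm (r * δ)) (r * δ) ((1 + |η| / h) * h) Fe))
    (b0 : PF r δ η g q * SR0 r (mm (r * δ)) (r * δ) ((1 + |η| / h) * h) F0 ≤ S0)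
    (bW : PF r δ η g q * SRW r (mm (r * δ)) (r * δ) ((1 + |η| / h) * h) FW *
      (RR r δ / h ^ (2 : ℕ)) ≤ SW)
    (be : PF r δ η g q * SRe r (mm (r * δ)) (r * δ) ((1 + |η| / h) * h) Fe / (r * h ^ (2 : ℕ) / RR r δ) ≤ Se)
    (hf0 : RM0 (5 / 4) q g (1 / √(RR r δ)) (r * δ / √(RR r δ)) (h) (|η| / h) ((r * h ^ (2 : ℕ) / RR r δ))
      (bet ((1 + |η| / h) * h)) + S0 ≤ f0)
    (hf1 : √((RM0 (5 / 4) q g (1 / √(RR r δ)) (r * δ / √(RR r δ)) (h) (|η| / h)
        ((r * h ^ (2 : ℕ) / RR r δ)) (bet ((1 + |η| / h) * h)) + S0) *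
      (RMW (5 / 4) q k g (1 / √(RR r δ)) (r * δ / √(RR r δ)) (h) (|η| / h)
        ((r * h ^ (2 : ℕ) / RR r δ)) (bet ((1 + |η| / h) * h)) +
        (√SW + k * (|η| / h) * √S0) ^ (2 : ℕ))) ≤ f1)
    (hf2 : RMW (5 / 4) q k g (1 / √(RR r δ)) (r * δ / √(RR r δ)) (h) (|η| / h)
        ((r * h ^ (2 : ℕ) / RR r δ)) (bet ((1 + |η| / h) * h)) +
        (√SW + k * (|η| / h) * √S0) ^ (2 : ℕ) +
      (RMe (5 / 4) q g (1 / √(RR r δ)) (r * δ / √(RR r δ)) (h) (|η| / h)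
        ((r * h ^ (2 : ℕ) / RR r δ)) (bet ((1 + |η| / h) * h)) + Se) ≤ f2) :
    Shf r δ y ζ ((r * h / √(RR r δ))) f0 f1 f2 := by
  have D := dath hh hr hδ η
  have hs := D.s0
  have hs2 : √(RR r δ) ^ (2 : ℕ) = RR r δ := Real.sq_sqrt (by unfold RR; positivity)
  have hR : 0 < RR r δ := by unfold RR; positivity
  have hΓ := D.Γ0
  have ht : 0 < (1 + |η| / h) * h := D.t0
  have hβ := bet_pos ht
  have hPF := PF_nonneg r δ η g q
  have em : mm (r * δ) = 5 / 4 * √(RR r δ) := rfl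
  have m1 := D.main0 (μ := 5 / 4) (g := g) (q := q) (by norm_num) hβ hq
  have m2 := D.mainW (μ := 5 / 4) (g := g) (q := q) (kk := k) (by norm_num) hβ hq
  have m3 := D.mainE (μ := 5 / 4) (g := g) (q := q) (by norm_num) hβ hq
  rw [← PF_eqh hh hr hδ η g q] at m1 m2 m3
  have eκ : k * (|η| / h) * (h * (1 / √(RR r δ))) = k * (|η| / √(RR r δ)) := by
    field_simp
  rw [eκ] at m2
  have e0 : PF r δ η g q * mR0 r (mm (r * δ)) (r * δ) ((1 + |η| / h) * h) =
      RM0 (5 / 4) q g (1 / √(RR r δ)) (r * δ / √(RR r δ)) (h) (|η| / h)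
        ((r * h ^ (2 : ℕ) / RR r δ)) (bet ((1 + |η| / h) * h)) := m1
  have eW : PF r δ η g q * mRW r (mm (r * δ)) (r * δ) ((1 + |η| / h) * h)
      (k * (|η| / √(RR r δ))) = (h * (1 / √(RR r δ))) ^ (2 : ℕ) *
      RMW (5 / 4) q k g (1 / √(RR r δ)) (r * δ / √(RR r δ)) (h) (|η| / h)
        ((r * h ^ (2 : ℕ) / RR r δ)) (bet ((1 + |η| / h) * h)) := m2
  have eE : PF r δ η g q * mRe r (mm (r * δ)) (r * δ) ((1 + |η| / h) * h) =
      (r * h ^ (2 : ℕ) / RR r δ) * RMe (5 / 4) q g (1 / √(RR r δ)) (r * δ / √(RR r δ)) (h) (|η| / h)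
        ((r * h ^ (2 : ℕ) / RR r δ)) (bet ((1 + |η| / h) * h)) := m3
  set t := (1 + |η| / h) * h with htd
  set M0 := RM0 (5 / 4) q g (1 / √(RR r δ)) (r * δ / √(RR r δ)) (h) (|η| / h)
        ((r * h ^ (2 : ℕ) / RR r δ)) (bet t) with hM0
  set MW := RMW (5 / 4) q k g (1 / √(RR r δ)) (r * δ / √(RR r δ)) (h) (|η| / h)
        ((r * h ^ (2 : ℕ) / RR r δ)) (bet t) with hMW
  set Me := RMe (5 / 4) q g (1 / √(RR r δ)) (r * δ / √(RR r δ)) (h) (|η| / h)
        ((r * h ^ (2 : ℕ) / RR r δ)) (bet t) with hMe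
  set P := PF r δ η g q with hP
  set A0 := SR0 r (mm (r * δ)) (r * δ) t F0 with hA0
  set AW := SRW r (mm (r * δ)) (r * δ) t FW with hAW
  set Ae := SRe r (mm (r * δ)) (r * δ) t Fe with hAe
  have hgG : ∀ q A B : ℝ, 0 ≤ gG q A B := fun q A B => Real.sqrt_nonneg _
  -- nonnegativity of the main part
  have n0 : 0 ≤ mR0 r (mm (r * δ)) (r * δ) t := by
    unfold mR0
    exact brh_g0 (AR_pos D.ρ0 (by rw [em]; linarith only [D.ρs, D.ρ0]) ht) hβ ht.le
  have nW : 0 ≤ mRW r (mm (r * δ)) (r * δ) t (k * (|η| / √(RR r δ))) := by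
    unfold mRW
    have : 0 ≤ k * (|η| / √(RR r δ)) := by positivity
    exact brh_gW D.r0 (AR_pos D.ρ0 (by rw [em]; linarith only [D.ρs, D.ρ0]) ht) hβ ht.le (by positivity)
      (by positivity) (by positivity)
  have nE : 0 ≤ mRe r (mm (r * δ)) (r * δ) t := by
    unfold mRe
    positivity
  have hκ : 0 ≤ k * (|η| / √(RR r δ)) := by positivity
  have hkτ : 0 ≤ k * (|η| / h) := by positivity
  have s0' : 0 ≤ S0 := le_trans (by positivity) b0
  have sW' : 0 ≤ SW := le_trans (by positivity) bW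
  have se' : 0 ≤ Se := le_trans (by positivity) be
  have hM0n : 0 ≤ M0 := by rw [← e0]; positivity
  have hMWn : 0 ≤ MW := by
    have h1 : 0 < (h * (1 / √(RR r δ))) ^ (2 : ℕ) := by positivity
    have h2 : 0 ≤ (h * (1 / √(RR r δ))) ^ (2 : ℕ) * MW := by rw [← eW]; positivity
    exact nonneg_of_mul_nonneg_right h2 h1
  -- the totals in units
  have t0 : P * TR0 r (mm (r * δ)) (r * δ) t F0 ≤ M0 + S0 := by
    unfold TR0
    rw [mul_add, e0]
    linarith only [b0]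
  have tW : P * TRW r (mm (r * δ)) (r * δ) t (k * (|η| / √(RR r δ))) F0 FW *
      (RR r δ / h ^ (2 : ℕ)) ≤ MW + (√SW + k * (|η| / h) * √S0) ^ (2 : ℕ) := by
    unfold TRW
    rw [← hA0, ← hAW, mul_add, add_mul, eW]
    have e5 : (h * (1 / √(RR r δ))) ^ (2 : ℕ) * MW * (RR r δ / h ^ (2 : ℕ)) = MW := by
      have e6 : (h * (1 / √(RR r δ))) ^ (2 : ℕ) = h ^ (2 : ℕ) / RR r δ := by
        rw [mul_pow, div_pow, hs2]
        ring
      rw [e6]
      field_simp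
    rw [e5]
    have e7 : P * (√AW + k * (|η| / √(RR r δ)) * √A0) ^ (2 : ℕ) * (RR r δ / h ^ (2 : ℕ)) =
        (√(P * AW * (RR r δ / h ^ (2 : ℕ))) + k * (|η| / h) * √(P * A0)) ^ (2 : ℕ) := by
      have e8 : √(P * AW * (RR r δ / h ^ (2 : ℕ))) = √P * √AW * (√(RR r δ) / h) := by
        rw [Real.sqrt_mul (by positivity), Real.sqrt_mul hPF, Real.sqrt_div hR.le,
          Real.sqrt_sq hh.le]
      have e9 : √(P * A0) = √P * √A0 := Real.sqrt_mul hPF _
      rw [e8, e9]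
      have e10 : √P ^ (2 : ℕ) = P := Real.sq_sqrt hPF
      have e11 : √P * √AW * (√(RR r δ) / h) + k * (|η| / h) * (√P * √A0) =
          √P * (√(RR r δ) / h) * (√AW + k * (|η| / √(RR r δ)) * √A0) := by
        field_simp
      rw [e11, mul_pow, mul_pow, e10, div_pow, hs2]
      ring
    rw [e7]
    have e12 : √(P * AW * (RR r δ / h ^ (2 : ℕ))) ≤ √SW := Real.sqrt_le_sqrt bW
    have e13 : √(P * A0) ≤ √S0 := Real.sqrt_le_sqrt b0
    have e14 : √(P * AW * (RR r δ / h ^ (2 : ℕ))) + k * (|η| / h) * √(P * A0) ≤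
        √SW + k * (|η| / h) * √S0 :=
      add_le_add e12 (mul_le_mul_of_nonneg_left e13 hkτ)
    have e15 := pow_le_pow_left₀ (by positivity) e14 2
    linarith only [e15]
  have te : P * TRe r (mm (r * δ)) (r * δ) t Fe / (r * h ^ (2 : ℕ) / RR r δ) ≤ Me + Se := by
    unfold TRe
    rw [mul_add, add_div, eE, ← hAe, mul_div_cancel_left₀ _ hΓ.ne']
    linarith only [be]
  have nT0 : 0 ≤ TR0 r (mm (r * δ)) (r * δ) t F0 := by
    unfold TR0
    exact add_nonneg n0 hS0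
  have nTW : 0 ≤ TRW r (mm (r * δ)) (r * δ) t (k * (|η| / √(RR r δ))) F0 FW := by
    unfold TRW
    positivity
  have nTe : 0 ≤ TRe r (mm (r * δ)) (r * δ) t Fe := by
    unfold TRe
    exact add_nonneg nE hSe
  refine shf_wKh hh hr hδ hA hL nT0 nTW nTe Z (t0.trans hf0) ?_ ?_
  · refine le_trans (Real.sqrt_le_sqrt ?_) hf1
    exact mul_le_mul t0 tW (by positivity) (by positivity)
  · linarith only [hf2, tW, te]
 
end SokamCel

end

/-! ### Lib_MP_af4de1_v3.RunRcBc -/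

section
/-!
# Kernel run, field `c`, right, class B, chart `c` (helper4)
-/

set_option autoImplicit false

namespace SokamCel

def rcBc2t : BT := (.X (.Z .L .L) (.X (.Z (.Z .L .L) .L) (.Z (.Z (.X .L .L) .L) (.Z .L .L))))
theorem rcBc2 : bisT (okC KcB) rcBc2t 0 384829069722 0 1151500000000 384829069721 714682558055 = true := by
  decide +kernel

def rcBc4t : BT := (.Z (.X .L (.Z .L .L)) (.Y .L (.Y (.X .L .L) (.Y (.Z .L .L) (.Z (.Y .L (.Z .L
  (.Y .L .L))) (.Y (.Y (.Z .L .L) .L) .L))))))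
theorem rcBc4 : bisT (okC KcB) rcBc4t 0 192414534861 1151500000000 2303000000000 384829069721 714682558055 = true := by
  decide +kernel

def rcBc6t : BT := (.X (.Z (.Z (.X .L .L) .L) (.Z .L .L)) (.X (.Z (.Z (.Z .L .L) (.X .L .L)) (.Z
  .L .L)) (.Z (.Z (.X (.Z .L .L) (.Z .L .L)) (.Z .L .L)) (.Z (.Z .L .L) (.Z .L .L)))))
theorem rcBc6 : bisT (okC KcB) rcBc6t 192414534861 384829069722 1151500000000 1727250000000 384829069721 714682558055 = true := by
  decide +kernel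

def rcBc8t : BT := (.X (.X (.Z (.Z .L .L) (.Z .L .L)) (.Z (.Z (.X .L (.Z .L .L)) (.Z .L .L)) (.X
  (.Z .L .L) (.Y .L (.X (.Y .L .L) .L))))) (.X (.Y (.Z (.Z (.Z .L .L) (.X .L .L)) (.Z (.X .L .L)
  .L)) (.X (.Z .L .L) .L)) (.Y (.Z .L .L) .L)))
theorem rcBc8 : bisT (okC KcB) rcBc8t 192414534861 384829069722 1727250000000 2303000000000 384829069721 549755813888 = true := by
  decide +kernel

def rcBc9t : BT := (.Z (.X (.X (.Y .L (.Y .L (.Z .L (.Y .L (.Y .L .L))))) (.Y .L (.Y (.Z .L .L)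
  (.X (.Z (.X .L .L) (.Y .L (.Y (.Y .L .L) .L))) (.X .L .L))))) (.X (.Y (.Z .L .L) (.Y .L .L)) (.Y
  .L .L))) (.Y (.X (.X .L .L) (.X (.Z .L .L) .L)) (.Y (.X (.X (.X .L .L) (.Z .L (.X .L (.X .L
  .L)))) (.X (.X .L .L) .L)) (.Y (.Y (.Z (.X (.X .L (.X .L .L)) .L) .L) .L) .L))))
theorem rcBc9 : bisT (okC KcB) rcBc9t 192414534861 384829069722 1727250000000 2303000000000 549755813888 714682558055 = true := by
  decide +kernel

def rcBc7t : BT := BT.Z rcBc8t rcBc9t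
theorem rcBc7 : bisT (okC KcB) rcBc7t 192414534861 384829069722 1727250000000 2303000000000 384829069721 714682558055 = true :=
  bisT_Z 549755813888 rcBc8 rcBc9 rfl

def rcBc5t : BT := BT.Y rcBc6t rcBc7t
theorem rcBc5 : bisT (okC KcB) rcBc5t 192414534861 384829069722 1151500000000 2303000000000 384829069721 714682558055 = true :=
  bisT_Y 1727250000000 rcBc6 rcBc7 rfl

def rcBc3t : BT := BT.X rcBc4t rcBc5t
theorem rcBc3 : bisT (okC KcB) rcBc3t 0 384829069722 1151500000000 2303000000000 384829069721 714682558055 = true :=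
  bisT_X 192414534861 rcBc4 rcBc5 rfl

def rcBc1t : BT := BT.Y rcBc2t rcBc3t
theorem rcBc1 : bisT (okC KcB) rcBc1t 0 384829069722 0 2303000000000 384829069721 714682558055 = true :=
  bisT_Y 1151500000000 rcBc2 rcBc3 rfl

def rcBc12t : BT := (.Z (.X (.X (.Z (.X .L .L) .L) (.Z (.Z .L .L) (.X .L .L))) (.Y (.Z .L .L) (.X
  (.Z (.Y .L (.Z .L .L)) (.Z .L .L)) (.Z (.X (.Z .L .L) (.Y .L (.Z .L .L))) (.Y .L (.Z .L .L))))))
  (.X (.Z (.Z .L .L) (.X .L .L)) (.X (.Z (.Z .L .L) (.X .L .L)) (.Y .L (.Z (.Z .L .L) (.Z .L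
  .L))))))
theorem rcBc12 : bisT (okC KcB) rcBc12t 384829069722 577243604583 0 1151500000000 384829069721 714682558055 = true := by
  decide +kernel

def rcBc14t : BT := (.X (.Z (.Z (.X .L .L) .L) (.Z .L .L)) (.X (.Z (.Z .L .L) (.X .L .L)) (.Z (.Z
  .L .L) (.Z .L .L))))
theorem rcBc14 : bisT (okC KcB) rcBc14t 577243604583 769658139444 0 575750000000 384829069721 714682558055 = true := by
  decide +kernel

def rcBc16t : BT := (.Z (.Y (.X (.X (.Z .L .L) (.Z .L .L)) (.Z (.Z .L .L) (.X .L .L))) (.X (.Y (.Z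
  (.Z (.X .L .L) .L) (.Z .L .L)) (.Z .L .L)) (.Y (.X (.Y (.Z (.X .L .L) .L) .L) (.Z .L .L)) .L)))
  (.Z (.X (.X (.Z .L .L) (.Z .L .L)) (.X (.Z .L .L) (.Y .L .L))) (.X (.Y .L (.Z .L .L)) (.X (.Z .L
  .L) (.Y .L .L)))))
theorem rcBc16 : bisT (okC KcB) rcBc16t 577243604583 673450872013 575750000000 1151500000000 384829069721 714682558055 = true := by
  decide +kernel

def rcBc17t : BT := (.Y (.X (.Z (.Z (.X (.X .L .L) (.Z .L .L)) (.Z .L .L)) (.Z (.Z .L .L) (.X .L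
  .L))) (.Z (.X (.Z (.Z .L .L) (.Z .L .L)) (.Z (.Z .L .L) (.Z .L .L))) (.Y (.Z .L .L) (.Z (.Y (.X
  .L .L) .L) (.Z .L .L))))) (.Y (.X (.Z (.Z .L .L) (.Z .L .L)) (.Z .L .L)) (.Z .L .L)))
theorem rcBc17 : bisT (okC KcB) rcBc17t 673450872013 769658139444 575750000000 1151500000000 384829069721 714682558055 = true := by
  decide +kernel

def rcBc15t : BT := BT.X rcBc16t rcBc17t
theorem rcBc15 : bisT (okC KcB) rcBc15t 577243604583 769658139444 575750000000 1151500000000 384829069721 714682558055 = true :=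
  bisT_X 673450872013 rcBc16 rcBc17 rfl

def rcBc13t : BT := BT.Y rcBc14t rcBc15t
theorem rcBc13 : bisT (okC KcB) rcBc13t 577243604583 769658139444 0 1151500000000 384829069721 714682558055 = true :=
  bisT_Y 575750000000 rcBc14 rcBc15 rfl

def rcBc11t : BT := BT.X rcBc12t rcBc13t
theorem rcBc11 : bisT (okC KcB) rcBc11t 384829069722 769658139444 0 1151500000000 384829069721 714682558055 = true :=
  bisT_X 577243604583 rcBc12 rcBc13 rfl

def rcBc18t : BT := (.X (.Y (.Y (.X (.Z (.X (.Z (.Z .L .L) (.X .L .L)) (.Y (.Z (.Z .L .L) (.X .L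
  .L)) (.X (.Z .L .L) .L))) (.X (.X (.Z .L .L) (.Z .L .L)) (.Z (.Z .L .L) (.Y .L .L)))) (.X (.Y
  (.Z (.X (.Z .L .L) (.X .L .L)) (.Z .L .L)) (.Z .L .L)) (.X (.Z .L .L) (.Z .L .L)))) (.X (.X (.Y
  (.Z (.X (.Z .L .L) .L) (.Z .L .L)) (.Z .L .L)) (.Z .L .L)) (.Z .L (.X .L .L)))) (.X (.Y (.X (.Z
  .L .L) (.X (.X .L .L) .L)) .L) .L)) (.X (.Y (.Y (.Y (.Z .L .L) (.X .L .L)) .L) .L) .L))
theorem rcBc18 : bisT (okC KcB) rcBc18t 384829069722 769658139444 1151500000000 2303000000000 384829069721 714682558055 = true := by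
  decide +kernel

def rcBc10t : BT := BT.Y rcBc11t rcBc18t
theorem rcBc10 : bisT (okC KcB) rcBc10t 384829069722 769658139444 0 2303000000000 384829069721 714682558055 = true :=
  bisT_Y 1151500000000 rcBc11 rcBc18 rfl

def rcBc0t : BT := BT.X rcBc1t rcBc10t
theorem rcBc0 : bisT (okC KcB) rcBc0t 0 769658139444 0 2303000000000 384829069721 714682558055 = true :=
  bisT_X 384829069722 rcBc1 rcBc10 rfl

theorem rcBc : bisT (okC KcB) rcBc0t 0 769658139444 0 2303000000000 384829069721 714682558055 = true := rcBc0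

end SokamCel

end
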