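import Pool.Agent.Lib_MP_af4de1_zy.Z02
import Pool.Agent.Lib_MP_af4de1_zy.Z49

/-! ### Lib_MP_af4de1_v3.SadEx -/

section
namespace SokamF1
end SokamF1
namespace SokamF1M
end SokamF1M
namespace SokamF1S
end SokamF1S
namespace SokamU
end SokamU
/-!
# F1, plan v3: `PSad1.ex` (existence of the saddles of regime I)

`eo1² ≤ .3969 R`. Upper end of the domain: `y e^y = ρ`, `η = π/2 + ρ`. Lower end: `y = -9/10` if
`ρ ≥ (9/10) e^(-9/10)`, else `y e^y = -ρ`, `η = ρ - π/2`.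
-/

set_option autoImplicit false

namespace SokamV3

open Complex SokamU SokamF1 SokamF1S SokamF1M

theorem psa_RR_pos (r δ : ℝ) : 0 < RR r δ := by
  unfold RR
  positivity

/-- `Γ R = r h²` -/
theorem psa_Gm_mul (N : ℕ) (r δ : ℝ) : Gm N r δ * RR r δ = r * hst N ^ (2 : ℕ) := by
  have h := (psa_RR_pos r δ).ne'
  unfold Gm
  field_simp

theorem psa_hst_pos {N : ℕ} (hN : 1 ≤ N) : 0 < hst N := by
  unfold hst
  have h1 : (0 : ℝ) < N := by exact_mod_cast hN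
  have := Real.pi_pos
  positivity

/-- `h² ≤ (c/49.9) R` if `Γ ≤ c` -/
theorem psa_hst_sq_le {N : ℕ} {r δ c : ℝ} (hP : Par N r δ) (hG : Gm N r δ ≤ c) :
    499 * hst N ^ (2 : ℕ) ≤ 10 * c * RR r δ := by
  have h1 := psa_Gm_mul N r δ
  have h2 := psa_RR_pos r δ
  have h3 := hP.r0
  have h4 := sq_nonneg (hst N)
  nlinarith only [hG, h1, h2, h3]

/-- all angles which are used: `eo1² ≤ .3969 R` -/
theorem psa_eo1_sq_le {N : ℕ} {r δ : ℝ} (h : Reg1 N r δ) :
    eo1 N r δ ^ (2 : ℕ) ≤ 3969 / 10000 * RR r δ := by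
  have hR := psa_RR_pos r δ
  unfold eo1 om1
  split_ifs with h1 h2
  · have h3 := psa_hst_sq_le h.toPar h1.le
    nlinarith
  · have h3 := psa_hst_sq_le h.toPar h2.le
    nlinarith only [h3]
  · have h3 := h.I
    nlinarith

theorem psa_eo1_nonneg {N : ℕ} {r δ : ℝ} (h : Reg1 N r δ) : 0 ≤ eo1 N r δ := by
  have h1 := (psa_hst_pos (N := N) (le_trans (by norm_num) h.N3)).le
  unfold eo1 om1
  split_ifs <;> positivity

theorem psa_eo1_le_half_pi {N : ℕ} {r δ : ℝ} (h : Reg1 N r δ) : eo1 N r δ ≤ Real.pi / 2 := by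
  have h1 := psa_hst_pos (N := N) (le_trans (by norm_num) h.N3)
  have h2 : hst N ≤ 2 * Real.pi / 3 := by
    unfold hst
    have h3 : (3 : ℝ) ≤ N := by exact_mod_cast h.N3
    exact div_le_div_of_nonneg_left (by positivity) (by norm_num) h3
  unfold eo1 om1
  split_ifs <;> nlinarith

theorem psa_rho_pos {N : ℕ} {r δ : ℝ} (h : Par N r δ) : 0 < r * δ :=
  mul_pos (by linarith only [h.r0]) h.d0

/-- the upper end of the domain -/
theorem psa_exists_top {ρ : ℝ} (hρ : 0 < ρ) :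
    ∃ y, 0 ≤ y ∧ y * Real.exp y = ρ ∧ sE ρ y = Real.pi / 2 + ρ := by
  have hc : Continuous (fun y : ℝ => y * Real.exp y) := by fun_prop
  obtain ⟨y, hy, he⟩ := intermediate_value_Icc hρ.le hc.continuousOn
    (show ρ ∈ Set.Icc ((0 : ℝ) * Real.exp 0) (ρ * Real.exp ρ) from
      ⟨by simpa using hρ.le, le_mul_of_one_le_right hρ.le (Real.one_le_exp hρ.le)⟩)
  refine ⟨y, hy.1, he, ?_⟩
  have he' : y * Real.exp y = ρ := he
  unfold sE sP sx
  rw [he', div_self hρ.ne', Real.arcsin_one, exp_two]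
  have h1 : ρ * Real.exp (-y) = y := by
    rw [← he', mul_assoc, ← Real.exp_add]
    simp
  rw [h1, sub_self, Real.sqrt_zero, sub_zero]

/-- the lower end of the domain for small `ρ` -/
theorem psa_exists_bot {ρ : ℝ} (hρ : 0 < ρ) (h : ρ ≤ 9 / 10 * Real.exp (-(9 / 10))) :
    ∃ y, -(9 / 10) ≤ y ∧ y ≤ 0 ∧ y * Real.exp y = -ρ ∧ sE ρ y = -(Real.pi / 2) + ρ := by
  have hc : Continuous (fun y : ℝ => y * Real.exp y) := by fun_prop
  obtain ⟨y, hy, he⟩ := intermediate_value_Icc (show (-(9 / 10) : ℝ) ≤ 0 by norm_num)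
    hc.continuousOn
    (show -ρ ∈ Set.Icc ((-(9 / 10) : ℝ) * Real.exp (-(9 / 10))) ((0 : ℝ) * Real.exp 0) from
      ⟨by linarith only [h], by simpa using hρ.le⟩)
  refine ⟨y, hy.1, hy.2, he, ?_⟩
  have he' : y * Real.exp y = -ρ := he
  unfold sE sP sx
  rw [he', neg_div, div_self hρ.ne', Real.arcsin_neg, Real.arcsin_one, exp_two]
  have h1 : ρ * Real.exp (-y) = -y := by
    have h2 : ρ = -(y * Real.exp y) := by linarith only [he']
    rw [h2, neg_mul, mul_assoc, ← Real.exp_add]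
    simp
  rw [h1]
  have h3 : (-y) ^ (2 : ℕ) - y ^ (2 : ℕ) = 0 := by ring
  rw [h3, Real.sqrt_zero, sub_zero]

/-- the lower end which is used -/
theorem psa_exists_low {ρ η : ℝ} (hρ : 0 < ρ) (hη : η ^ (2 : ℕ) ≤ 3969 / 10000 * (1 + ρ ^ (2 : ℕ))) :
    ∃ y, -(9 / 10) ≤ y ∧ y ≤ 0 ∧ Dom ρ y ∧ sE ρ y ≤ -|η| := by
  have e1 : (2459 : ℝ) / 1000 ≤ Real.exp (9 / 10) := by
    have h := Real.sum_le_exp_of_nonneg (show (0 : ℝ) ≤ 9 / 10 by norm_num) 8
    simp only [Finset.sum_range_succ, Finset.sum_range_zero, Nat.factorial] at h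
    norm_num at h
    linarith only [h]
  have e2 : Real.exp (9 / 10) ≤ 246 / 100 := by
    have h := Real.exp_bound' (show (0 : ℝ) ≤ 9 / 10 by norm_num) (by norm_num) (n := 8)
      (by norm_num)
    simp only [Finset.sum_range_succ, Finset.sum_range_zero, Nat.factorial] at h
    norm_num at h
    linarith only [h]
  have e3 : (40 : ℝ) / 100 ≤ Real.exp (-(9 / 10)) := by
    rw [Real.exp_neg, le_inv_comm₀ (by norm_num) (Real.exp_pos _)]
    refine e2.trans ?_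
    norm_num
  have e4 : Real.exp (-(9 / 10)) ≤ 407 / 1000 := by
    rw [Real.exp_neg, inv_le_comm₀ (Real.exp_pos _) (by norm_num)]
    refine le_trans ?_ e1
    norm_num
  have ha := abs_nonneg η
  have ha2 : |η| ^ (2 : ℕ) ≤ 3969 / 10000 * (1 + ρ ^ (2 : ℕ)) := by rwa [sq_abs]
  rcases le_total ρ (9 / 10 * Real.exp (-(9 / 10))) with h | h
  · obtain ⟨y, h1, h2, h3, h4⟩ := psa_exists_bot hρ h
    refine ⟨y, h1, h2, ⟨hρ, ?_⟩, ?_⟩
    · rw [abs_of_nonpos h2]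
      linarith only [h3]
    · rw [h4]
      have h5 : ρ ≤ 37 / 100 := by linarith only [e4, h]
      have h6 := Real.pi_gt_d2
      have h7 : |η| ≤ 7 / 10 := by
        refine abs_le_of_sq_le_sq' ?_ (by norm_num) |>.2
        nlinarith only [hρ, ha2, h5]
      linarith only [h5, h6, h7]
  · have hD : Dom ρ (-(9 / 10)) := by
      refine ⟨hρ, ?_⟩
      rw [abs_of_neg (by norm_num)]
      linarith only [h]
    refine ⟨-(9 / 10), le_rfl, by norm_num, hD, ?_⟩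
    have h1 := sE_le_neg hD (by norm_num) (by norm_num)
    have h2 : |η| ≤ ρ * (Real.exp (9 / 10) - 1) +
        (9 / 10 - (9 / 10) ^ (2 : ℕ) / 2) * Real.exp (-(9 / 10)) / ρ := by
      have h3 : 145 / 100 * ρ + (198 / 1000) / ρ ≤ ρ * (Real.exp (9 / 10) - 1) +
          (9 / 10 - (9 / 10) ^ (2 : ℕ) / 2) * Real.exp (-(9 / 10)) / ρ := by
        have h4 : 145 / 100 * ρ ≤ ρ * (Real.exp (9 / 10) - 1) := by nlinarith only [hρ, e1]
        have h5 : (198 / 1000) / ρ ≤ (9 / 10 - (9 / 10) ^ (2 : ℕ) / 2) * Real.exp (-(9 / 10)) / ρ :=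
          div_le_div_of_nonneg_right (by linarith only [e3]) hρ.le
        linarith only [h4, h5]
      refine le_trans ?_ h3
      have h6 : 0 < ρ⁻¹ := inv_pos.2 hρ
      have h7 : ρ * ρ⁻¹ = 1 := mul_inv_cancel₀ hρ.ne'
      rw [div_eq_mul_inv (198 / 1000 : ℝ) ρ]
      refine abs_le_of_sq_le_sq' ?_ (by positivity) |>.2
      have h8 : (145 / 100 * ρ + 198 / 1000 * ρ⁻¹) ^ (2 : ℕ) =
          (145 / 100) ^ (2 : ℕ) * ρ ^ (2 : ℕ) + 2 * (145 / 100) * (198 / 1000) + (198 / 1000 * ρ⁻¹) ^ (2 : ℕ) := by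
        linear_combination (2 * (145 / 100) * (198 / 1000)) * h7
      rw [h8]
      nlinarith only [ha2]
    linarith only [h1, h2]

/-- PIECE `PSad1.ex` -/
theorem psad1_ex (N : ℕ) (r δ η : ℝ) (h : Reg1 N r δ) (hη : |η| ≤ eo1 N r δ) :
    ∃ y, At r δ y η := by
  have hρ := psa_rho_pos h.toPar
  obtain ⟨y2, h1, h2, h3⟩ := psa_exists_top hρ
  have hsq : η ^ (2 : ℕ) ≤ 3969 / 10000 * (1 + (r * δ) ^ (2 : ℕ)) := by
    have h4 := psa_eo1_sq_le h
    have h5 : η ^ (2 : ℕ) ≤ eo1 N r δ ^ (2 : ℕ) := by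
      rw [← sq_abs η]
      exact pow_le_pow_left₀ (abs_nonneg _) hη 2
    exact h5.trans h4
  obtain ⟨y1, g1, g2, g3, g4⟩ := psa_exists_low hρ hsq
  have hD2 : Dom (r * δ) y2 := ⟨hρ, by rw [abs_of_nonneg h1, h2]⟩
  obtain ⟨y, hy, he⟩ := exists_sE (ρ := r * δ) (g2.trans h1) (g4.trans (neg_abs_le η))
    (show η ≤ sE (r * δ) y2 by
      rw [h3]
      have h5 := psa_eo1_le_half_pi h
      have h6 := le_abs_self η
      linarith only [hη, hρ, h5, h6])
  refine ⟨y, ⟨⟨hρ, ?_⟩, by linarith only [g1, hy.1], he⟩⟩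
  rw [dom_iff]
  have a1 := (dom_iff.1 g3.2).1
  have a2 := (dom_iff.1 hD2.2).2
  have b1 : y1 * Real.exp y1 ≤ y * Real.exp y := strictMonoOn_mul_exp.monotoneOn (show y1 ∈ Set.Ici (-1 : ℝ) by
    rw [Set.mem_Ici]; linarith only [g1]) (show y ∈ Set.Ici (-1 : ℝ) by
    rw [Set.mem_Ici]; linarith only [g1, hy.1]) hy.1
  have b2 : y * Real.exp y ≤ y2 * Real.exp y2 := strictMonoOn_mul_exp.monotoneOn (show y ∈ Set.Ici (-1 : ℝ) by
    rw [Set.mem_Ici]; linarith only [g1, hy.1]) (show y2 ∈ Set.Ici (-1 : ℝ) by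
    rw [Set.mem_Ici]; linarith only [h1]) hy.2
  exact ⟨by linarith only [a1, b1], by linarith only [a2, b2]⟩

end SokamV3

end

/-! ### Lib_MP_af4de1_v3.SadA -/

section
namespace SokamF1
end SokamF1
namespace SokamF1M
end SokamF1M
namespace SokamF1S
end SokamF1S
namespace SokamU
end SokamU
/-!
# F1, plan v3: `PSad1.sad` for `Γ < 10` (`SadA`) and `PSad1.inn`

`|η|² ≤ u2 R`, `u2 = 9/16 · 10/49.9 ≤ .11274` (inner angles: `u2 = .01253`).
* `y ≥ 0`: `ρ(1 - e^-y) + (y + y²/2)e^y/ρ ≤ η`; if `y ≥ y0` the left side is at least `a ρ + b/ρ` with `a² ≥ u2`,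
  `2ab > u2`: contradiction. Similarly for `y = -t`.
* `T`: `s = |sin ψ| ≤ .3552`.
-/

set_option autoImplicit false

namespace SokamV3

open Complex SokamU SokamF1 SokamF1S SokamF1M

/-- the contradiction -/
theorem psa_no_big {ρ a b u2 η : ℝ} (hρ : 0 < ρ) (ha : 0 ≤ a) (hb : 0 ≤ b) (h1 : u2 ≤ a ^ (2 : ℕ))
    (h2 : u2 < 2 * a * b) (hη : a * ρ + b / ρ ≤ η) (hs : η ^ (2 : ℕ) ≤ u2 * (1 + ρ ^ (2 : ℕ))) : False := by
  have h6 : 0 < ρ⁻¹ := inv_pos.2 hρ
  have h7 : ρ * ρ⁻¹ = 1 := mul_inv_cancel₀ hρ.ne'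
  rw [div_eq_mul_inv] at hη
  have h0 : 0 ≤ a * ρ + b * ρ⁻¹ := by (clear * - ha hρ hb; positivity)
  have h3 : (a * ρ + b * ρ⁻¹) ^ (2 : ℕ) ≤ η ^ (2 : ℕ) := pow_le_pow_left₀ h0 hη 2
  have h4 : (a * ρ + b * ρ⁻¹) ^ (2 : ℕ) = a ^ (2 : ℕ) * ρ ^ (2 : ℕ) + 2 * a * b + (b * ρ⁻¹) ^ (2 : ℕ) := by
    linear_combination (2 * a * b) * h7
  have h5 := mul_le_mul_of_nonneg_right h1 (sq_nonneg ρ)
  have h8 := sq_nonneg (b * ρ⁻¹)
  nlinarith only [h2, hs, h3, h4, h5]

theorem psa_y_le_of {ρ y y0 a b u2 η : ℝ} (hD : Dom ρ y) (hE : sE ρ y = η) (h0 : 0 ≤ y0)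
    (hs : η ^ (2 : ℕ) ≤ u2 * (1 + ρ ^ (2 : ℕ))) (ha : 0 ≤ a) (hb : 0 ≤ b) (h1 : u2 ≤ a ^ (2 : ℕ))
    (h2 : u2 < 2 * a * b) (hea : a ≤ 1 - Real.exp (-y0))
    (heb : b ≤ (y0 + y0 ^ (2 : ℕ) / 2) * Real.exp y0) : y ≤ y0 := by
  by_contra hcon
  push Not at hcon
  have hρ := hD.1
  have hy : 0 ≤ y := h0.trans hcon.le
  have h3 := sE_ge_pos hD hy
  rw [hE] at h3
  have h4 : Real.exp (-y) ≤ Real.exp (-y0) := Real.exp_le_exp.2 (by linarith only [hcon])
  have h5 : Real.exp y0 ≤ Real.exp y := Real.exp_le_exp.2 hcon.le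
  have h6 : b ≤ (y + y ^ (2 : ℕ) / 2) * Real.exp y := by
    refine heb.trans (mul_le_mul ?_ h5 (Real.exp_pos _).le (by (clear * - hy; positivity)))
    nlinarith only [h0, hcon]
  refine psa_no_big hρ ha hb h1 h2 (le_trans ?_ h3) hs
  have h7 : a * ρ ≤ ρ * (1 - Real.exp (-y)) := by nlinarith only [hea, hρ, h4]
  have h8 : b / ρ ≤ (y + y ^ (2 : ℕ) / 2) * Real.exp y / ρ := div_le_div_of_nonneg_right h6 hρ.le
  linarith only [h7, h8]

/-- `(t - t²/2) e^(-t)` on `[t0, 1]` is at least `min` of the values at the ends -/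
theorem psa_tb_ge {t0 t b : ℝ} (ht0 : t0 ≤ t) (ht1 : t ≤ 1) (hb : b ≤ 18 / 100)
    (heb : b ≤ (t0 - t0 ^ (2 : ℕ) / 2) * Real.exp (-t0)) : b ≤ (t - t ^ (2 : ℕ) / 2) * Real.exp (-t) := by
  -- increasing up to `2 - √2`, decreasing after
  have hd : ∀ u : ℝ, HasDerivAt (fun u : ℝ => (u - u ^ (2 : ℕ) / 2) * Real.exp (-u))
      ((1 - 2 * u + u ^ (2 : ℕ) / 2) * Real.exp (-u)) u := by
    intro u
    have e2 : HasDerivAt (fun u : ℝ => Real.exp (-u)) (-Real.exp (-u)) u := by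
      have := (hasDerivAt_neg u).exp
      simpa using this
    have e3 : HasDerivAt (fun u : ℝ => u - u ^ (2 : ℕ) / 2) (1 - u) u := by
      have h := (hasDerivAt_id u).sub ((hasDerivAt_pow 2 u).div_const 2)
      refine h.congr_deriv ?_
      simp
    refine (e3.mul e2).congr_deriv ?_
    ring
  have hc : Continuous (fun u : ℝ => (u - u ^ (2 : ℕ) / 2) * Real.exp (-u)) := by fun_prop
  rcases le_total t (29 / 50) with h | h
  · have hm : MonotoneOn (fun u : ℝ => (u - u ^ (2 : ℕ) / 2) * Real.exp (-u)) (Set.Icc t0 (29 / 50)) := by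
      refine monotoneOn_of_deriv_nonneg (convex_Icc _ _) hc.continuousOn
        (fun u _ => (hd u).differentiableAt.differentiableWithinAt) (fun u hu => ?_)
      rw [interior_Icc] at hu
      rw [(hd u).deriv]
      have h1 := hu.2
      have h2 := hu.1
      refine mul_nonneg ?_ (Real.exp_pos _).le
      nlinarith only [h1]
    exact heb.trans (hm ⟨le_rfl, ht0.trans h⟩ ⟨ht0, h⟩ ht0)
  · have e1 : Real.exp t ≤ Real.exp 1 := Real.exp_le_exp.2 ht1
    have e1' := Real.exp_one_lt_d9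
    rcases le_total t (9 / 10) with h' | h'
    · -- `t ∈ [.58, .9]`: `t - t²/2 ≥ .4118`, `e^-t ≥ .406`... use `t = .58`: value ≥ .4118·e^(-t)
      have hexp : (40 : ℝ) / 100 ≤ Real.exp (-t) := by
        have h3 : Real.exp (-(9 / 10)) ≤ Real.exp (-t) := Real.exp_le_exp.2 (by linarith only [h'])
        have e2 : Real.exp (9 / 10) ≤ 246 / 100 := by
          have h := Real.exp_bound' (show (0 : ℝ) ≤ 9 / 10 by norm_num) (by norm_num) (n := 8)
            (by norm_num)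
          simp only [Finset.sum_range_succ, Finset.sum_range_zero, Nat.factorial] at h
          norm_num at h
          linarith only [h]
        have e3 : (40 : ℝ) / 100 ≤ Real.exp (-(9 / 10)) := by
          rw [Real.exp_neg, le_inv_comm₀ (by norm_num) (Real.exp_pos _)]
          refine e2.trans ?_
          norm_num
        linarith only [h3, e3]
      rcases le_total t (7 / 10) with h'' | h''
      · have hexp2 : (49 : ℝ) / 100 ≤ Real.exp (-t) := by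
          have h3 : Real.exp (-(7 / 10)) ≤ Real.exp (-t) := Real.exp_le_exp.2 (by linarith only [h''])
          have e2 : Real.exp (7 / 10) ≤ 2014 / 1000 := by
            have h := Real.exp_bound' (show (0 : ℝ) ≤ 7 / 10 by norm_num) (by norm_num) (n := 8)
              (by norm_num)
            simp only [Finset.sum_range_succ, Finset.sum_range_zero, Nat.factorial] at h
            norm_num at h
            linarith only [h]
          have e3 : (49 : ℝ) / 100 ≤ Real.exp (-(7 / 10)) := by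
            rw [Real.exp_neg, le_inv_comm₀ (by norm_num) (Real.exp_pos _)]
            refine e2.trans ?_
            norm_num
          linarith only [h3, e3]
        have h5 : (411 : ℝ) / 1000 ≤ t - t ^ (2 : ℕ) / 2 := by nlinarith only [ht1, h]
        nlinarith only [hb, hexp2, h5]
      · have h5 : (455 : ℝ) / 1000 ≤ t - t ^ (2 : ℕ) / 2 := by nlinarith only [h', h'']
        nlinarith only [hb, hexp, h5]
    · have h5 : (495 : ℝ) / 1000 ≤ t - t ^ (2 : ℕ) / 2 := by nlinarith only [ht1, h']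
      have h6 : (367 : ℝ) / 1000 ≤ Real.exp (-t) := by
        rw [Real.exp_neg, le_inv_comm₀ (by norm_num) (Real.exp_pos _)]
        refine le_trans (e1.trans e1'.le) ?_
        norm_num
      nlinarith only [hb, h5, h6]

theorem psa_t_le_of {ρ t t0 a b u2 η : ℝ} (hD : Dom ρ (-t)) (ht : t ≤ 1) (hE : sE ρ (-t) = η)
    (h0 : 0 ≤ t0) (hs : η ^ (2 : ℕ) ≤ u2 * (1 + ρ ^ (2 : ℕ))) (ha : 0 ≤ a) (hb : 0 ≤ b) (h1 : u2 ≤ a ^ (2 : ℕ))
    (h2 : u2 < 2 * a * b) (hea : a ≤ Real.exp t0 - 1) (hb18 : b ≤ 18 / 100)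
    (heb : b ≤ (t0 - t0 ^ (2 : ℕ) / 2) * Real.exp (-t0)) : t ≤ t0 := by
  by_contra hcon
  push Not at hcon
  have hρ := hD.1
  have hy : 0 ≤ t := h0.trans hcon.le
  have h3 := sE_le_neg hD hy ht
  rw [hE] at h3
  have h5 : Real.exp t0 ≤ Real.exp t := Real.exp_le_exp.2 hcon.le
  have h6 := psa_tb_ge hcon.le ht hb18 heb
  refine psa_no_big (η := -η) hρ ha hb h1 h2 (le_trans ?_ h3) (by rwa [neg_sq])
  have h7 : a * ρ ≤ ρ * (Real.exp t - 1) := by nlinarith only [hea, hρ, h5]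
  have h8 : b / ρ ≤ (t - t ^ (2 : ℕ) / 2) * Real.exp (-t) / ρ := div_le_div_of_nonneg_right h6 hρ.le
  linarith only [h7, h8]

/-! ### the angles for `Γ < 10` -/

theorem psa_eo_sq {N : ℕ} {r δ η : ℝ} (h : Reg1 N r δ) (hG : Gm N r δ < 10)
    (hη : |η| ≤ eo1 N r δ) : η ^ (2 : ℕ) ≤ 11273 / 100000 * (1 + (r * δ) ^ (2 : ℕ)) := by
  have h3 := psa_hst_sq_le h.toPar hG.le
  have h1 : η ^ (2 : ℕ) ≤ eo1 N r δ ^ (2 : ℕ) := by
    rw [← sq_abs η]
    exact pow_le_pow_left₀ (abs_nonneg _) hη 2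
  have h2 : eo1 N r δ = 3 / 4 * hst N := by
    unfold eo1 om1
    rw [if_pos hG]
    norm_num
  have hR : RR r δ = 1 + (r * δ) ^ (2 : ℕ) := rfl
  rw [hR] at h3
  rw [h2] at h1
  nlinarith only [h3, h1]

theorem psa_ei_sq {N : ℕ} {r δ η : ℝ} (h : Reg1 N r δ) (hG : Gm N r δ < 10)
    (hη : |η| ≤ ei1 N r δ) : η ^ (2 : ℕ) ≤ 1253 / 100000 * (1 + (r * δ) ^ (2 : ℕ)) := by
  have h3 := psa_hst_sq_le h.toPar hG.le
  have h1 : η ^ (2 : ℕ) ≤ ei1 N r δ ^ (2 : ℕ) := by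
    rw [← sq_abs η]
    exact pow_le_pow_left₀ (abs_nonneg _) hη 2
  have h2 : ei1 N r δ = 1 / 4 * hst N := by
    unfold ei1 om1
    rw [if_pos hG]
    norm_num
  have hR : RR r δ = 1 + (r * δ) ^ (2 : ℕ) := rfl
  rw [hR] at h3
  rw [h2] at h1
  nlinarith only [h3, h1]

theorem psa_exp_lb (x : ℝ) (hx : 0 ≤ x) :
    1 + x + x ^ (2 : ℕ) / 2 + x ^ (3 : ℕ) / 6 + x ^ (4 : ℕ) / 24 + x ^ (5 : ℕ) / 120 ≤ Real.exp x := by
  have h := Real.sum_le_exp_of_nonneg hx 6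
  simp only [Finset.sum_range_succ, Finset.sum_range_zero, Nat.factorial] at h
  norm_num at h
  linarith only [h]

theorem psa_exp_ub (x : ℝ) (hx : 0 ≤ x) (hx1 : x ≤ 1) :
    Real.exp x ≤ 1 + x + x ^ (2 : ℕ) / 2 + x ^ (3 : ℕ) / 6 + x ^ (4 : ℕ) / 24 + x ^ (5 : ℕ) / 120 + x ^ (6 : ℕ) * (7 / (720 * 6)) := by
  have h := Real.exp_bound' hx hx1 (n := 6) (by norm_num)
  simp only [Finset.sum_range_succ, Finset.sum_range_zero, Nat.factorial] at h
  norm_num at h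
  linarith only [h]

theorem psa_exp_neg_ub {x a b : ℝ} (h : b ≤ Real.exp x) (hb : 0 < b) (hab : 1 ≤ a * b) :
    Real.exp (-x) ≤ a := by
  have ha : 0 < a := by
    by_contra hc
    push Not at hc
    nlinarith only [hb, hab, hc]
  rw [Real.exp_neg, inv_le_comm₀ (Real.exp_pos _) ha]
  refine le_trans ?_ h
  rw [inv_le_iff_one_le_mul₀ ha]
  linarith only [hab]

theorem psa_exp_neg_lb {x a b : ℝ} (h : Real.exp x ≤ b) (ha : 0 < a) (hab : a * b ≤ 1) :
    a ≤ Real.exp (-x) := by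
  rw [Real.exp_neg, le_inv_comm₀ ha (Real.exp_pos _)]
  refine h.trans ?_
  rw [le_inv_comm₀ (lt_of_lt_of_le (Real.exp_pos _) h) ha]
  have hb : 0 < b := lt_of_lt_of_le (Real.exp_pos _) h
  rw [inv_eq_one_div, le_div_iff₀ hb]
  exact hab

theorem psa_e41 : (15068 : ℝ) / 10000 ≤ Real.exp (41 / 100) := by
  refine le_trans ?_ (psa_exp_lb _ (by norm_num))
  norm_num

theorem psa_e41' : Real.exp (41 / 100) ≤ 15069 / 10000 := by
  refine (psa_exp_ub _ (by norm_num) (by norm_num)).trans ?_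
  norm_num

theorem psa_e31 : (1363 : ℝ) / 1000 ≤ Real.exp (31 / 100) := by
  refine le_trans ?_ (psa_exp_lb _ (by norm_num))
  norm_num

theorem psa_e31' : Real.exp (31 / 100) ≤ 13635 / 10000 := by
  refine (psa_exp_ub _ (by norm_num) (by norm_num)).trans ?_
  norm_num

theorem psa_e15 : (1161 : ℝ) / 1000 ≤ Real.exp (3 / 20) := by
  refine le_trans ?_ (psa_exp_lb _ (by norm_num))
  norm_num

theorem psa_e15' : Real.exp (3 / 20) ≤ 1162 / 1000 := by
  refine (psa_exp_ub _ (by norm_num) (by norm_num)).trans ?_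
  norm_num

/-- `hi` -/
theorem psa_hi {ρ y η : ℝ} (hD : Dom ρ y) (hE : sE ρ y = η)
    (hs : η ^ (2 : ℕ) ≤ 11273 / 100000 * (1 + ρ ^ (2 : ℕ))) : y ≤ 41 / 100 := by
  have h1 : Real.exp (-(41 / 100)) ≤ 664 / 1000 :=
    psa_exp_neg_ub psa_e41 (by norm_num) (by norm_num)
  have h2 := psa_e41
  refine psa_y_le_of (a := 336 / 1000) (b := 1 / 2) hD hE (by norm_num) hs (by norm_num)
    (by norm_num) (by norm_num) (by norm_num) (by linarith only [h1]) ?_
  norm_num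
  linarith only [h2]

/-- `lo` -/
theorem psa_lo {ρ y η : ℝ} (hD : Dom ρ y) (hy : -1 < y) (hE : sE ρ y = η)
    (hs : η ^ (2 : ℕ) ≤ 11273 / 100000 * (1 + ρ ^ (2 : ℕ))) : -(31 / 100) ≤ y := by
  have h1 : (7333 : ℝ) / 10000 ≤ Real.exp (-(31 / 100)) :=
    psa_exp_neg_lb psa_e31' (by norm_num) (by norm_num)
  have h2 := psa_e31
  have h3 := psa_t_le_of (ρ := ρ) (t := -y) (t0 := 31 / 100) (a := 36 / 100) (b := 18 / 100)
    (η := η) (by rwa [neg_neg]) (by linarith only [hy]) (by rwa [neg_neg]) (by norm_num) hs (by norm_num)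
    (by norm_num) (by norm_num) (by norm_num) (by linarith only [h2]) (by norm_num) (by
      norm_num
      linarith only [h1])
  linarith only [h3]

/-- inner angles -/
theorem psa_inn {ρ y η : ℝ} (hD : Dom ρ y) (hy : -1 < y) (hE : sE ρ y = η)
    (hs : η ^ (2 : ℕ) ≤ 1253 / 100000 * (1 + ρ ^ (2 : ℕ))) : |y| ≤ 3 / 20 := by
  have h1 : Real.exp (-(3 / 20)) ≤ 8614 / 10000 :=
    psa_exp_neg_ub psa_e15 (by norm_num) (by norm_num)
  have h1' : (860 : ℝ) / 1000 ≤ Real.exp (-(3 / 20)) :=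
    psa_exp_neg_lb psa_e15' (by norm_num) (by norm_num)
  have h2 := psa_e15
  have h4 : y ≤ 3 / 20 := by
    refine psa_y_le_of (a := 138 / 1000) (b := 18 / 100) hD hE (by norm_num) hs (by norm_num)
      (by norm_num) (by norm_num) (by norm_num) (by linarith only [h1]) ?_
    norm_num
    linarith only [h2]
  have h3 := psa_t_le_of (ρ := ρ) (t := -y) (t0 := 3 / 20) (a := 16 / 100) (b := 11 / 100)
    (η := η) (by rwa [neg_neg]) (by linarith only [hy]) (by rwa [neg_neg]) (by norm_num) hs (by norm_num)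
    (by norm_num) (by norm_num) (by norm_num) (by linarith only [h2]) (by norm_num) (by
      norm_num
      linarith only [h1'])
  exact abs_le.2 ⟨by linarith only [h3], h4⟩

/-- `T`, `y ≥ 0` -/
theorem psa_T_pos {ρ y η : ℝ} (hD : Dom ρ y) (hy : 0 ≤ y) (hy1 : y ≤ 41 / 100)
    (hE : sE ρ y = η) (hs : η ^ (2 : ℕ) ≤ 11273 / 100000 * (1 + ρ ^ (2 : ℕ))) :
    y ≤ 19 / 50 * sx ρ y := by
  by_contra hcon
  push Not at hcon
  have hρ := hD.1
  have hx := sx_nonneg ρ y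
  have hx2 := sx_sq_add hD
  have hsin := y_exp_eq hD
  have h3 := sE_ge_pos hD hy
  rw [hE] at h3
  have e1 := exp_mul_neg y
  have hEp := Real.exp_pos y
  have hEn := Real.exp_pos (-y)
  have hE1 : (663 : ℝ) / 1000 ≤ Real.exp (-y) := by
    refine le_trans (psa_exp_neg_lb psa_e41' (by norm_num) (by norm_num)) ?_
    exact Real.exp_le_exp.2 (by linarith only [hy1])
  have hadd := Real.add_one_le_exp y
  set E := Real.exp y with hEdef
  set E' := Real.exp (-y) with hE'def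
  set s := Real.sin (sP ρ y) with hsdef
  -- `s ≥ .3552`
  have h4 : (ρ * E') ^ (2 : ℕ) ≤ 79253 / 10000 * y ^ (2 : ℕ) := by
    rw [← hx2]
    nlinarith only [hcon, hx]
  have h5 : y = ρ * E' * s := y_eq hD
  have hs0 : 0 ≤ s := by
    have h6 : 0 ≤ ρ * s := by
      rw [← hsin]
      (clear * - hy; positivity)
    exact nonneg_of_mul_nonneg_right h6 hρ
  have h6 : 0 < ρ * E' := by (clear * - hρ; positivity)
  have h7 : (3552 : ℝ) / 10000 ≤ s := by
    rw [h5] at h4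
    have h8 : (ρ * E') ^ (2 : ℕ) * 1 ≤ (ρ * E') ^ (2 : ℕ) * (79253 / 10000 * s ^ (2 : ℕ)) := by
      linarith only [h4]
    have h9 := le_of_mul_le_mul_left h8 (by (clear * - hρ; positivity))
    nlinarith only [hs0, h9]
  -- `η ≥ s + .156 ρ²`
  have h8 : (y + y ^ (2 : ℕ) / 2) * E / ρ = (1 + y / 2) * s := by
    rw [div_eq_iff hρ.ne']
    linear_combination (1 + y / 2) * hsin
  rw [h8] at h3
  have h9 : 3552 / 10000 * (663 / 1000) * ρ ≤ y := by
    rw [h5]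
    have : 663 / 1000 * (3552 / 10000) ≤ E' * s := mul_le_mul hE1 h7 (by norm_num) hEn.le
    nlinarith only [hE1, h6, this]
  have h10 : 663 / 1000 * y ≤ 1 - E' := by
    have h11 : 1 - E' = E' * (E - 1) := by linear_combination -e1
    rw [h11]
    nlinarith only [hcon, hx, hadd, hE1]
  have h12 : 3552 / 10000 + 156 / 1000 * ρ ^ (2 : ℕ) ≤ η := by
    have h13 : 156 / 1000 * ρ ≤ 1 - E' := by nlinarith only [h6, h9, h10]
    linarith only [h3, h7, mul_nonneg hy hs0, mul_le_mul_of_nonneg_left h13 hρ.le]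
  have h13 : (3552 / 10000 + 156 / 1000 * ρ ^ (2 : ℕ)) ^ (2 : ℕ) ≤ η ^ (2 : ℕ) :=
    pow_le_pow_left₀ (by (clear * - hρ; positivity)) h12 2
  nlinarith only [hs, h13, sq_nonneg (ρ ^ (2 : ℕ))]

/-- `T`, `y = -t ≤ 0` -/
theorem psa_T_neg {ρ t η : ℝ} (hD : Dom ρ (-t)) (ht : 0 ≤ t) (ht1 : t ≤ 31 / 100)
    (hE : sE ρ (-t) = η) (hs : η ^ (2 : ℕ) ≤ 11273 / 100000 * (1 + ρ ^ (2 : ℕ))) :
    t ≤ 19 / 50 * sx ρ (-t) := by
  by_contra hcon
  push Not at hcon
  have hρ := hD.1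
  have hx := sx_nonneg ρ (-t)
  have hx2 := sx_sq_add hD
  have h3 := sE_le_neg hD ht (by linarith only [ht, ht1])
  rw [hE] at h3
  rw [neg_neg] at hx2
  have e1 := exp_mul_neg t
  have hEp := Real.exp_pos t
  have hEn := Real.exp_pos (-t)
  have hE1 : Real.exp t ≤ 13635 / 10000 := (Real.exp_le_exp.2 ht1).trans psa_e31'
  have hE2 : 1 ≤ Real.exp t := Real.one_le_exp ht
  have hadd := Real.add_one_le_exp t
  have hdom : t * Real.exp (-t) ≤ ρ := by
    have := hD.2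
    rwa [abs_neg, abs_of_nonneg ht] at this
  set E := Real.exp t with hEdef
  set E' := Real.exp (-t) with hE'def
  set s := t * E' / ρ with hsdef
  have hs0 : 0 ≤ s := by (clear * - ht hρ; positivity)
  have hs1 : s ≤ 1 := by
    rw [hsdef, div_le_one hρ]
    exact hdom
  have hsr : s * ρ = t * E' := by
    rw [hsdef]
    field_simp
  have h5 : t = ρ * E * s := by linear_combination (-t) * e1 - E * hsr
  have h4 : (ρ * E) ^ (2 : ℕ) ≤ 79253 / 10000 * t ^ (2 : ℕ) := by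
    rw [← hx2]
    nlinarith only [hcon, hx]
  have h6 : 0 < ρ * E := by (clear * - hρ; positivity)
  have h7 : (3552 : ℝ) / 10000 ≤ s := by
    rw [h5] at h4
    have h8 : (ρ * E) ^ (2 : ℕ) * 1 ≤ (ρ * E) ^ (2 : ℕ) * (79253 / 10000 * s ^ (2 : ℕ)) := by
      linarith only [h4]
    have h9 := le_of_mul_le_mul_left h8 (by (clear * - hρ; positivity))
    nlinarith only [hs0, h9]
  have h8 : (t - t ^ (2 : ℕ) / 2) * E' / ρ = (1 - t / 2) * s := by
    rw [div_eq_iff hρ.ne']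
    linear_combination (-(1 - t / 2)) * hsr
  rw [h8] at h3
  -- `F ≥ s + t (ρ - s/2)`
  have h9 : s + t * (ρ - s / 2) ≤ -η := by
    have : ρ * t ≤ ρ * (E - 1) := mul_le_mul_of_nonneg_left (by linarith only [hadd]) hρ.le
    linarith only [h3, this]
  have h10 : -η ≤ 3358 / 10000 * (1 + ρ ^ (2 : ℕ) / 2) := by
    refine abs_le_of_sq_le_sq' ?_ (by (clear * - hρ; positivity)) |>.2
    rw [neg_sq]
    nlinarith only [hs]
  have h11 : s * ρ ≤ t := by
    rw [hsr]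
    have : E' ≤ 1 := Real.exp_le_one_iff.2 (by linarith only [hcon, hx])
    nlinarith only [hcon, hx, this]
  have h12 : t ≤ 13635 / 10000 * (s * ρ) := by
    have h13 : t = E * (s * ρ) := by linear_combination h5
    rw [h13]
    exact mul_le_mul_of_nonneg_right hE1 (by (clear * - h7 hρ; positivity))
  have hs3 : s ^ (3 : ℕ) ≤ s ^ (2 : ℕ) := by nlinarith only [hs1]
  rcases le_total (s / 2) ρ with h | h
  · have h13 : s * ρ * (ρ - s / 2) ≤ t * (ρ - s / 2) :=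
      mul_le_mul_of_nonneg_right h11 (by linarith only [h])
    have h14 : 0 ≤ 3 / 10 * s * (ρ - s * (5 / 6)) ^ (2 : ℕ) := by (clear * - h7; positivity)
    have h15 : 0 ≤ (7 / 10 * s - 1679 / 10000) * ρ ^ (2 : ℕ) :=
      mul_nonneg (by linarith only [h7]) (sq_nonneg _)
    have h16 : 3358 / 10000 < s - s ^ (3 : ℕ) * (5 / 24) := by
      nlinarith only [mul_nonneg (sub_nonneg.2 h7) (sub_nonneg.2 hs1), mul_nonneg hs0 (mul_nonneg (sub_nonneg.2 h7) (sub_nonneg.2 hs1))]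
    linarith only [h9, h10, h13, h14, h15, h16]
  · have h13 : 13635 / 10000 * (s * ρ) * (ρ - s / 2) ≤ t * (ρ - s / 2) := by
      nlinarith only [h12, h]
    have h14 : 0 ≤ 13635 / 10000 * s * (ρ - s / 4) ^ (2 : ℕ) := by (clear * - h7; positivity)
    have h15 : ρ ^ (2 : ℕ) ≤ s ^ (2 : ℕ) / 4 := by nlinarith only [h7, h11, h12, h]
    have h16 : 3358 / 10000 + 42 / 1000 * s ^ (2 : ℕ) < s - s ^ (3 : ℕ) * (13635 / 160000) := by
      nlinarith only [mul_nonneg (sub_nonneg.2 h7) (sub_nonneg.2 hs1)]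
    nlinarith only [h9, h10, h13, h14, h15, h16]

/-- PIECE `PSad1.sad`, case `Γ < 10` -/
theorem psad1_sadA (N : ℕ) (r δ y η : ℝ) (h : Reg1 N r δ) (hA : At r δ y η)
    (hG : Gm N r δ < 10) (hη : |η| ≤ eo1 N r δ) : SadA N r δ y := by
  have hs := psa_eo_sq h hG hη
  have hD := hA.dom
  have hy1 := hA.y1
  have hE := hA.eta
  have hlo := psa_lo hD hy1 hE hs
  have hhi := psa_hi hD hE hs
  have hT : |y| ≤ 19 / 50 * sx (r * δ) y := by
    rcases le_total 0 y with h0 | h0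
    · rw [abs_of_nonneg h0]
      exact psa_T_pos hD h0 hhi hE hs
    · rw [abs_of_nonpos h0]
      have h1 := psa_T_neg (ρ := r * δ) (t := -y) (η := η) (by rwa [neg_neg]) (by linarith only [h0])
        (by linarith only [hlo]) (by rwa [neg_neg]) hs
      rwa [neg_neg] at h1
  have hx := sx_nonneg (r * δ) y
  have hx2 := sx_sq hD
  refine ⟨hlo, hhi, hT, ?_, ?_⟩
  · unfold sD2
    rcases le_total 0 y with h0 | h0
    · nlinarith only [h0]
    · rw [abs_of_nonpos h0] at hT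
      have h1 : (-y) ^ (2 : ℕ) ≤ (19 / 50 * sx (r * δ) y) ^ (2 : ℕ) := pow_le_pow_left₀ (by linarith only [h0]) hT 2
      nlinarith only [h1, sq_nonneg (y + 1 / 8)]
  · have hHH : 82 / 100 ≤ 1 / 20 * HH N r δ := by
      have h1 := psa_Gm_mul N r δ
      have hR := psa_RR_pos r δ
      have hr := h.r0
      have hG5 := h.G
      have h2 : HH N r δ ^ (2 : ℕ) = r * Gm N r δ := by
        unfold HH Gm
        rw [div_pow, Real.sq_sqrt hR.le]
        ring
      have h3 : 499 / 10 * (27 / 5) ≤ r * Gm N r δ := mul_le_mul hr hG5 (by norm_num) (by linarith only [hr])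
      have h4 : 0 ≤ HH N r δ := by
        have h5 := (psa_hst_pos (N := N) (le_trans (by norm_num) h.N3)).le
        unfold HH
        have : 0 ≤ r := by linarith only [hr]
        (clear * - hr h5 hR; positivity)
      have h5 : 164 / 10 ≤ HH N r δ := by
        refine abs_le_of_sq_le_sq' ?_ h4 |>.2
        rw [h2]
        refine le_trans ?_ h3
        norm_num
      linarith only [h5]
    refine le_trans ?_ hHH
    unfold kD
    have hpos : 0 < sD2 (r * δ) y := sD2_pos hy1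
    rw [norm_sK hD, div_le_iff₀ hpos]
    unfold sD2
    rw [hx2]
    nlinarith only [hlo, sq_nonneg (r * δ * Real.exp (-y) - 61 / 100)]

/-- PIECE `PSad1.inn` -/
theorem psad1_inn (N : ℕ) (r δ y η : ℝ) (h : Reg1 N r δ) (hA : At r δ y η)
    (hG : Gm N r δ < 10) (hη : |η| ≤ ei1 N r δ) : |y| ≤ 3 / 20 :=
  psa_inn hA.dom hA.y1 hA.eta (psa_ei_sq h hG hη)

end SokamV3

end

/-! ### Lib_MP_af4de1_v3.SadB -/

section
namespace SokamF1
end SokamF1
namespace SokamF1S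
end SokamF1S
/-!
# Piece `PSad1.sad`, the case `Γ ≥ 10`
-/

set_option autoImplicit false

namespace SokamV3

open Real Set SokamF1 SokamF1S

theorem sD2_sadB {ρ y : ℝ} (h : Dom ρ y) : sD2 ρ y = 1 + 2 * y + (ρ * Real.exp (-y)) ^ (2 : ℕ) := by
  unfold sD2
  rw [sx_sq h]; ring

theorem kD_sadB {r δ y : ℝ} (h : Dom (r * δ) y) :
    kD r δ y = r * δ * Real.exp (-y) / (1 + 2 * y + (r * δ * Real.exp (-y)) ^ (2 : ℕ)) := by
  unfold kD
  rw [norm_sK h, sD2_sadB h]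

theorem sin_066_sadB : (612 / 1000 : ℝ) ≤ Real.sin (66 / 100) := by
  have := SokamF1G.sin_ge3 (x := 66 / 100) (by norm_num)
  norm_num at this ⊢
  linarith only [this]

/-- `tan ψ > 4/5` implies `ψ > .66` (in the form `4 cos ψ < 5 sin ψ`) -/
theorem psi_gt_sadB {ψ : ℝ} (h0 : 0 ≤ ψ) (h1 : ψ ≤ π / 2) (h : 4 * Real.cos ψ < 5 * Real.sin ψ) :
    66 / 100 < ψ := by
  by_contra hc
  push Not at hc
  have h2 := SokamF1G.sin_le5 (x := 66 / 100) (by norm_num)
  have h3 := SokamF1G.cos_ge2 (x := 66 / 100)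
  have h4 : Real.sin ψ ≤ Real.sin (66 / 100) :=
    Real.sin_le_sin_of_le_of_le_pi_div_two (by linarith only [h0, h1]) (by linarith only [Real.pi_gt_three]) hc
  have h5 : Real.cos (66 / 100) ≤ Real.cos ψ :=
    Real.cos_le_cos_of_nonneg_of_le_pi h0 (by linarith only [Real.pi_gt_three]) hc
  norm_num at h2 h3
  linarith only [h, h4, h5, h2, h3]

/-- the left side -/
theorem coreT_pos {ρ y e : ℝ} (h : Dom ρ y) (hy : 0 ≤ y) (he : sE ρ y ≤ e)
    (hc : e ≤ 6284 / 10000 ∨ (e ≤ ρ + 95 / 1000 ∧ e ≤ 7541 / 10000) ∨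
      (e ≤ ρ - 17 / 100 ∧ e ≤ 13615 / 10000)) : y ≤ 4 / 5 * sx ρ y := by
  by_contra hcon
  push Not at hcon
  have hρ := h.1
  have hψ0 := sP_nonneg (y := y) hρ hy
  have hψ1 := (abs_le.1 (sP_abs_le ρ y)).2
  have hyr := y_eq h
  have hxr := sx_eq h
  have hle := sP_le_sE h hy
  have h2y := two_y_le h hy
  have hη : sE ρ y = sP ρ y + ρ - sx ρ y := rfl
  set ψ := sP ρ y with hψ
  have hp : 0 < ρ * Real.exp (-y) := by have := Real.exp_pos (-y); (clear * - hρ; positivity)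
  have h5 : 4 * Real.cos ψ < 5 * Real.sin ψ := by
    have : ρ * Real.exp (-y) * (4 * Real.cos ψ) < ρ * Real.exp (-y) * (5 * Real.sin ψ) := by
      linarith only [hy, he, hcon, hyr, hxr]
    exact lt_of_mul_lt_mul_left this hp.le
  have h66 := psi_gt_sadB hψ0 hψ1 h5
  rcases hc with hc | ⟨hc1, hc2⟩ | ⟨hc1, hc2⟩
  · linarith only [he, hle, h66, hc]
  · have : 452 / 1000 ≤ y := by linarith only [he, hcon, hη, h66, hc1]
    nlinarith only [he, h2y, hc2, this]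
  · have : 664 / 1000 ≤ y := by linarith only [he, hcon, hη, h66, hc1]
    nlinarith only [hy, he, h2y, hc2, this]

/-- `-sE`, polar form: with `ψ = -sP ρ (-t)`. -/
theorem neg_form_sadB {ρ t : ℝ} (h : Dom ρ (-t)) :
    t = ρ * Real.exp t * Real.sin (-sP ρ (-t)) ∧ sx ρ (-t) = ρ * Real.exp t * Real.cos (-sP ρ (-t)) ∧
      -sE ρ (-t) = -sP ρ (-t) + sx ρ (-t) - ρ := by
  have hyr := y_eq h
  have hxr := sx_eq h
  rw [neg_neg] at hyr hxr
  refine ⟨?_, ?_, ?_⟩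
  · rw [Real.sin_neg]; linear_combination -hyr
  · rw [Real.cos_neg]; exact hxr
  · unfold sE; ring

/-- (a') `t ≤ .53` -/
theorem core_t {ρ t e : ℝ} (h : Dom ρ (-t)) (ht : 0 ≤ t) (ht1 : t < 1) (he : -sE ρ (-t) ≤ e)
    (hc : e ≤ 7541 / 10000 ∨ (e ≤ 9426 / 10000 ∧ 11148 / 10000 ≤ ρ) ∨
      (e ≤ 12567 / 10000 ∧ 1728 / 1000 ≤ ρ) ∨ (e ≤ 13615 / 10000 ∧ 2 ≤ ρ)) : t ≤ 53 / 100 := by
  by_contra hcon
  push Not at hcon
  have hρ := h.1
  have hD : Dom ρ (-(53 / 100)) := by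
    refine ⟨hρ, ?_⟩
    have h1 := h.2
    have h2 := strictMonoOn_mul_exp.monotoneOn (mem_Ici.2 (by linarith : (-1 : ℝ) ≤ -t))
      (mem_Ici.2 (by norm_num : (-1 : ℝ) ≤ -(53 / 100))) (by linarith only [hcon])
    rw [abs_neg, abs_of_nonneg ht] at h1
    rw [abs_neg, abs_of_nonneg (by norm_num : (0 : ℝ) ≤ 53 / 100)]
    linarith only [h1, h2]
  have hmono := (sE_strictMonoOn h (dom_zero hρ) (by linarith only [ht1])).monotoneOn
    (left_mem_Icc.2 (by linarith only [ht])) (show (-(53 / 100) : ℝ) ∈ Icc (-t) 0 from ⟨by linarith only [hcon], by norm_num⟩)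
    (by linarith only [hcon])
  have hE := sE_le_neg hD (by norm_num) (by norm_num)
  have e1 := SokamF1G.e_ge3 (x := 53 / 100) (by norm_num)
  have e2 := SokamF1G.en_ge3 (x := 53 / 100) (by norm_num)
  norm_num at e1 e2
  have h3 : (695 / 1000 : ℝ) * ρ ≤ ρ * (Real.exp (53 / 100) - 1) := by nlinarith only [hρ, e1]
  have h4 : (228 / 1000 : ℝ) / ρ ≤ (53 / 100 - (53 / 100) ^ (2 : ℕ) / 2) * Real.exp (-(53 / 100)) / ρ := by
    apply div_le_div_of_nonneg_right _ hρ.le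
    linarith only [e2]
  have h5 : 695 / 1000 * ρ + 228 / 1000 / ρ ≤ e := by linarith only [he, hmono, hE, h3, h4]
  have h6 : 695 / 1000 * ρ ^ (2 : ℕ) + 228 / 1000 ≤ e * ρ := by
    have := mul_le_mul_of_nonneg_right h5 hρ.le
    have e6 : (695 / 1000 * ρ + 228 / 1000 / ρ) * ρ = 695 / 1000 * ρ ^ (2 : ℕ) + 228 / 1000 := by
      field_simp
    linarith only [this, e6]
  rcases hc with hc | ⟨hc1, hc2⟩ | ⟨hc1, hc2⟩ | ⟨hc1, hc2⟩
  · nlinarith only [hρ, h6, hc, sq_nonneg (ρ - 54 / 100)]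
  · nlinarith only [h6, hc1, hc2]
  · nlinarith only [h6, hc1, hc2]
  · nlinarith only [h6, hc1, hc2]

/-- (b') `t ≤ .8 x` -/
theorem coreT_neg {ρ t e : ℝ} (h : Dom ρ (-t)) (ht : 0 ≤ t) (ht1 : t ≤ 53 / 100)
    (he : -sE ρ (-t) ≤ e) (hc : e ≤ 6284 / 10000 ∨ 6 / 10 ≤ ρ) : t ≤ 4 / 5 * sx ρ (-t) := by
  by_contra hcon
  push Not at hcon
  have hρ := h.1
  have hψ0 := sP_nonpos (y := -t) hρ (by linarith only [ht])
  have hψ1 := (abs_le.1 (sP_abs_le ρ (-t))).1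
  obtain ⟨f1, f2, f3⟩ := neg_form_sadB h
  set ψ := -sP ρ (-t) with hψ
  have hp : 0 < ρ * Real.exp t := by have := Real.exp_pos t; (clear * - hρ; positivity)
  have h0 : 0 ≤ ψ := by rw [hψ]; linarith only [hψ0]
  have h1 : ψ ≤ π / 2 := by rw [hψ]; linarith only [hψ1]
  have h5 : 4 * Real.cos ψ < 5 * Real.sin ψ := by
    have : ρ * Real.exp t * (4 * Real.cos ψ) < ρ * Real.exp t * (5 * Real.sin ψ) := by
      linarith only [hcon, f1, f2]
    exact lt_of_mul_lt_mul_left this hp.le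
  have h66 := psi_gt_sadB h0 h1 h5
  have hs : Real.sin (66 / 100) ≤ Real.sin ψ :=
    Real.sin_le_sin_of_le_of_le_pi_div_two (by linarith only [Real.pi_gt_three]) h1 h66.le
  have hs0 := sin_066_sadB
  have e1 := exp_mul_neg t
  have hen := SokamF1G.en_le2 ht
  -- `ρ sin ψ = t e^{-t}`
  have f4 : ρ * Real.sin ψ = t * Real.exp (-t) := by
    linear_combination (-(Real.exp (-t))) * f1 - (ρ * Real.sin ψ) * e1
  have f5 : t * Real.exp (-t) ≤ t * (1 - t + t ^ (2 : ℕ) / 2) := mul_le_mul_of_nonneg_left hen ht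
  rcases hc with hc | hc
  · have h2t := two_t_le h ht (by linarith only [ht1])
    have ht3 : t ≤ 3906 / 10000 := by nlinarith only [ht1, he, hc, h2t]
    -- `sin ψ (-sE) = ψ sin ψ + t cos ψ - t e^{-t}`
    have f6 : Real.sin ψ * (-sE ρ (-t)) = ψ * Real.sin ψ + t * Real.cos ψ - t * Real.exp (-t) := by
      rw [f3, f2]
      linear_combination (-(Real.cos ψ)) * f1 - f4
    have hsp : 0 < Real.sin ψ := by linarith only [hs, hs0]
    have f7 : Real.sin ψ * (-sE ρ (-t)) ≤ Real.sin ψ * (6284 / 10000) :=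
      mul_le_mul_of_nonneg_left (by linarith only [he, hc]) hsp.le
    have hcos := SokamF1G.cos_ge2 (x := ψ)
    have hc1 := Real.cos_le_one ψ
    have f8 : ψ * Real.sin ψ - (1 - Real.cos ψ) ^ (2 : ℕ) / (32 / 10) ≤ Real.sin ψ * (6284 / 10000) := by
      linarith only [f5, f6, f7, sq_nonneg (t - (1 - Real.cos ψ) / (16 / 10)), mul_nonneg ht (mul_nonneg ht (by linarith : (0 : ℝ) ≤ 4 / 10 - t))]
    have f9 : (1 - Real.cos ψ) ^ (2 : ℕ) ≤ (ψ ^ (2 : ℕ) / 2) ^ (2 : ℕ) :=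
      pow_le_pow_left₀ (by linarith only [hc1]) (by linarith only [hcos]) 2
    have hsin := SokamF1G.sin_ge3 (x := ψ) h0
    have f10 : (ψ - 6284 / 10000) * (ψ - ψ ^ (3 : ℕ) / 6) ≤ ψ ^ (4 : ℕ) / (128 / 10) := by
      have : (ψ - 6284 / 10000) * (ψ - ψ ^ (3 : ℕ) / 6) ≤ (ψ - 6284 / 10000) * Real.sin ψ :=
        mul_le_mul_of_nonneg_left hsin (by linarith only [h66])
      linarith only [f8, f9, this]
    have hψ2 : ψ ≤ 1571 / 1000 := by
      have := Real.pi_lt_d4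
      linarith only [h1, this]
    have hψp : 0 < ψ := by linarith only [h66]
    have f11 : (ψ - 6284 / 10000) * (1 - ψ ^ (2 : ℕ) / 6) ≤ ψ ^ (3 : ℕ) / (128 / 10) := by
      have e11 : ψ * ((ψ - 6284 / 10000) * (1 - ψ ^ (2 : ℕ) / 6)) ≤ ψ * (ψ ^ (3 : ℕ) / (128 / 10)) := by
        linarith only [f10]
      exact le_of_mul_le_mul_left e11 hψp
    nlinarith only [f11, mul_nonneg (by linarith : (0 : ℝ) ≤ ψ - 66 / 100) (by linarith : (0 : ℝ) ≤ 1571 / 1000 - ψ), mul_nonneg (mul_nonneg (by linarith : (0 : ℝ) ≤ ψ - 66 / 100) (by linarith : (0 : ℝ) ≤ 1571 / 1000 - ψ)) hψp.le]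
  · nlinarith only [ht1, hs, hs0, f4, f5, hc]

/-- (c') the case of small `η` -/
theorem coreD_neg {ρ t e : ℝ} (h : Dom ρ (-t)) (ht : 0 ≤ t) (ht1 : t ≤ 53 / 100)
    (he : -sE ρ (-t) ≤ e) (hc : e ≤ 6284 / 10000 ∨ 4354 / 10000 ≤ ρ ^ (2 : ℕ)) :
    13 / 20 ≤ sD2 ρ (-t) := by
  have hρ := h.1
  rw [sD2_sadB h, neg_neg]
  have hE := Real.exp_pos t
  have hp : 0 < ρ * Real.exp t := by (clear * - hρ; positivity)
  rcases hc with hc | hc
  · by_contra hcon
    push Not at hcon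
    set p := ρ * Real.exp t with hpdef
    have hEn := sE_le_neg h ht (by linarith only [ht, ht1, he, hρ, hE])
    have e1 := exp_mul_neg t
    have hen := SokamF1G.en_le2 ht
    have h2t := two_t_le h ht (by linarith only [ht1])
    have ht3 : t ≤ 3906 / 10000 := by nlinarith only [ht1, he, hc, h2t]
    have g1 : ρ * (Real.exp t - 1) = p * (1 - Real.exp (-t)) := by
      rw [hpdef]; linear_combination ρ * e1
    have g2 : (t - t ^ (2 : ℕ) / 2) * Real.exp (-t) / ρ = (t - t ^ (2 : ℕ) / 2) / p := by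
      rw [hpdef, div_eq_div_iff hρ.ne' hp.ne']
      linear_combination ((t - t ^ (2 : ℕ) / 2) * ρ) * e1
    rw [g1, g2] at hEn
    have g3 : p * (t - t ^ (2 : ℕ) / 2) ≤ p * (1 - Real.exp (-t)) :=
      mul_le_mul_of_nonneg_left (by linarith only [hen]) hp.le
    have g4 : p * (t - t ^ (2 : ℕ) / 2) + (t - t ^ (2 : ℕ) / 2) / p ≤ 6284 / 10000 := by linarith only [he, hc, hEn, g3]
    have g5 : (p ^ (2 : ℕ) + 1) * (t - t ^ (2 : ℕ) / 2) ≤ 6284 / 10000 * p := by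
      have := mul_le_mul_of_nonneg_right g4 hp.le
      have e5 : (p * (t - t ^ (2 : ℕ) / 2) + (t - t ^ (2 : ℕ) / 2) / p) * p = (p ^ (2 : ℕ) + 1) * (t - t ^ (2 : ℕ) / 2) := by
        field_simp
      linarith only [this, e5]
    have g6 : (p ^ (2 : ℕ) + 35 / 100) / 2 ≤ t := by linarith only [hcon]
    have g7 : (p ^ (2 : ℕ) + 35 / 100) / 2 - ((p ^ (2 : ℕ) + 35 / 100) / 2) ^ (2 : ℕ) / 2 ≤ t - t ^ (2 : ℕ) / 2 := by
      linarith only [mul_nonneg (sub_nonneg.2 g6) (by nlinarith : (0 : ℝ) ≤ 2 - t - (p ^ (2 : ℕ) + 35 / 100) / 2)]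
    have g8 : (p ^ (2 : ℕ) + 1) * ((p ^ (2 : ℕ) + 35 / 100) / 2 - ((p ^ (2 : ℕ) + 35 / 100) / 2) ^ (2 : ℕ) / 2) ≤
        6284 / 10000 * p := (mul_le_mul_of_nonneg_left g7 (by (clear * - hρ; positivity))).trans g5
    have g9 : p ^ (2 : ℕ) ≤ 4356 / 10000 := by linarith only [ht3, g6]
    have g10 : p ^ (6 : ℕ) ≤ 4356 / 10000 * p ^ (4 : ℕ) := by
      have : p ^ (6 : ℕ) = p ^ (2 : ℕ) * p ^ (4 : ℕ) := by ring
      rw [this]
      exact mul_le_mul_of_nonneg_right g9 (by (clear * - hρ; positivity))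
    nlinarith only [g8, g10, sq_nonneg (p - 4657 / 10000)]
  · have h2 : 1 + 2 * t + 2 * t ^ (2 : ℕ) ≤ Real.exp t ^ (2 : ℕ) := by
      have := Real.quadratic_le_exp_of_nonneg (x := 2 * t) (by (clear * - ht; positivity))
      have e2 : Real.exp (2 * t) = Real.exp t ^ (2 : ℕ) := by
        rw [← Real.exp_nat_mul]; norm_num
      rw [e2] at this
      linarith only [this]
    have h3 : 4354 / 10000 * (1 + 2 * t + 2 * t ^ (2 : ℕ)) ≤ (ρ * Real.exp t) ^ (2 : ℕ) := by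
      rw [mul_pow]
      exact mul_le_mul hc h2 (by (clear * - ht; positivity)) (by positivity)
    nlinarith only [h3]

/-- lower bound of `ρ² e^{2t}` -/
theorem sq_exp_ge_sadB {ρ t : ℝ} (ht : 0 ≤ t) {c : ℝ} (_ : 0 ≤ c) (hc : c ≤ ρ ^ (2 : ℕ)) :
    c * (1 + 2 * t + 2 * t ^ (2 : ℕ)) ≤ (ρ * Real.exp t) ^ (2 : ℕ) := by
  have h2 : 1 + 2 * t + 2 * t ^ (2 : ℕ) ≤ Real.exp t ^ (2 : ℕ) := by
    have := Real.quadratic_le_exp_of_nonneg (x := 2 * t) (by positivity)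
    have e2 : Real.exp (2 * t) = Real.exp t ^ (2 : ℕ) := by
      rw [← Real.exp_nat_mul]; norm_num
    rw [e2] at this
    linarith only [this]
  rw [mul_pow]
  exact mul_le_mul hc h2 (by (clear * - ht; positivity)) (by positivity)

/-- (d') -/
theorem core_kD_neg {r δ t e c : ℝ} (h : Dom (r * δ) (-t)) (ht : 0 ≤ t) (ht1 : t ≤ 53 / 100)
    (he : -sE (r * δ) (-t) ≤ e) (hD : 13 / 20 ≤ sD2 (r * δ) (-t))
    (hc : (e ≤ 6284 / 10000 ∧ c = 126 / 100) ∨ (4354 / 10000 ≤ (r * δ) ^ (2 : ℕ) ∧ c = 126 / 100) ∨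
      (e ≤ 5106 / 10000 ∧ c = 893 / 1000) ∨ (1 ≤ (r * δ) ^ (2 : ℕ) ∧ c = 893 / 1000)) :
    kD r δ (-t) ≤ c := by
  have hρ := h.1
  rw [sD2_sadB h, neg_neg] at hD
  rw [kD_sadB h, neg_neg]
  have hE := Real.exp_pos t
  have hp : 0 < r * δ * Real.exp t := by (clear * - hρ; positivity)
  rw [div_le_iff₀ (by linarith only [hD])]
  have h2t := two_t_le h ht (by linarith only [ht1])
  rcases hc with ⟨hc, rfl⟩ | ⟨hc, rfl⟩ | ⟨hc, rfl⟩ | ⟨hc, rfl⟩
  · have ht3 : t ≤ 3906 / 10000 := by nlinarith only [ht1, he, h2t, hc]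
    nlinarith only [ht3, sq_nonneg (r * δ * Real.exp t - 45 / 100)]
  · have := sq_exp_ge_sadB ht (by norm_num) hc
    nlinarith only [ht1, this, sq_nonneg (r * δ * Real.exp t - 1)]
  · have ht3 : t ≤ 3005 / 10000 := by nlinarith only [ht1, he, h2t, hc]
    nlinarith only [ht3, sq_nonneg (r * δ * Real.exp t - 6 / 10)]
  · have := sq_exp_ge_sadB ht (by norm_num) hc
    nlinarith only [this, sq_nonneg (r * δ * Real.exp t - 12 / 10)]

theorem core_kD_pos {r δ y : ℝ} (h : Dom (r * δ) y) (hy : 0 ≤ y) : kD r δ y ≤ 1 / 2 := by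
  have hρ := h.1
  rw [kD_sadB h]
  have hE := Real.exp_pos (-y)
  have hp : 0 < r * δ * Real.exp (-y) := by (clear * - hρ; positivity)
  rw [div_le_iff₀ (by (clear * - hy hρ; positivity))]
  linarith only [hy, sq_nonneg (r * δ * Real.exp (-y) - 1)]

/-- the numbers -/
theorem cases_B {N : ℕ} {r δ : ℝ} (H : Reg1 N r δ) (hG : 10 ≤ Gm N r δ) :
    ((eo1 N r δ ≤ 6284 / 10000) ∨ (eo1 N r δ ≤ 7541 / 10000 ∧ 4354 / 10000 ≤ (r * δ) ^ (2 : ℕ)) ∨
      (eo1 N r δ ≤ 9426 / 10000 ∧ 12429 / 10000 ≤ (r * δ) ^ (2 : ℕ)) ∨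
      (eo1 N r δ ≤ 12567 / 10000 ∧ 29873 / 10000 ≤ (r * δ) ^ (2 : ℕ)) ∨
      (eo1 N r δ ≤ 13615 / 10000 ∧ 5 ≤ (r * δ) ^ (2 : ℕ))) ∧
    ((126 / 100 ≤ 1 / 25 * HH N r δ) ∨ (893 / 1000 ≤ 1 / 25 * HH N r δ ∧
      (eo1 N r δ ≤ 5106 / 10000 ∨ 1 ≤ (r * δ) ^ (2 : ℕ)))) := by
  have hpi := Real.pi_lt_d4
  have hpi' := Real.pi_gt_d4
  have hr := H.r0
  have hN3 := H.N3
  have hI := H.I
  have hRR : 0 < RR r δ := by unfold RR; (clear * -; positivity)
  have hRRe : RR r δ = 1 + (r * δ) ^ (2 : ℕ) := rfl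
  have hN0 : (0 : ℝ) < N := by
    have : 0 < N := by omega
    exact_mod_cast this
  have hh0 : 0 < hst N := by unfold hst; (clear * - hN3; positivity)
  have hHH : HH N r δ ^ (2 : ℕ) = r * Gm N r δ := by
    unfold HH Gm
    rw [div_pow, Real.sq_sqrt hRR.le]
    ring
  have hHH0 : 0 ≤ HH N r δ := by unfold HH; (clear * - hr hh0 hRR; positivity)
  have hG' : Gm N r δ * RR r δ = r * hst N ^ (2 : ℕ) := by
    unfold Gm; field_simp
  -- lower bound for R in the case Γ < 20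
  have hlow : Gm N r δ < 20 → 499 / 200 * hst N ^ (2 : ℕ) ≤ RR r δ := by
    intro hlt
    have h1 : r * hst N ^ (2 : ℕ) ≤ 20 * RR r δ := by
      rw [← hG']
      exact mul_le_mul_of_nonneg_right hlt.le hRR.le
    nlinarith only [hr, h1]
  have heo : (20 ≤ Gm N r δ ∧ eo1 N r δ = 3 / 5 * hst N) ∨
      (Gm N r δ < 20 ∧ eo1 N r δ = 13 / 20 * hst N) := by
    unfold eo1 om1
    rw [if_neg (not_lt.2 hG)]
    by_cases h : Gm N r δ < 20
    · right
      rw [if_pos h]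
      exact ⟨h, by ring⟩
    · left
      rw [if_neg h]
      exact ⟨not_lt.1 h, by ring⟩
  have hst_eq : hst N = 2 * π / N := rfl
  have hbig : 893 / 1000 ≤ 1 / 25 * HH N r δ := by
    have : 499 ≤ HH N r δ ^ (2 : ℕ) := by rw [hHH]; nlinarith only [hG, hr]
    nlinarith only [hHH0, this]
  by_cases h6 : 8 ≤ N
  · have h6' : (8 : ℝ) ≤ N := by exact_mod_cast h6
    have hst6 : hst N ≤ 7854 / 10000 := by
      rw [hst_eq, div_le_iff₀ hN0]; linarith only [hpi, h6']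
    refine ⟨Or.inl ?_, ?_⟩
    · rcases heo with ⟨_, h⟩ | ⟨_, h⟩ <;> rw [h] <;> linarith
    · rcases heo with ⟨h20, h⟩ | ⟨_, h⟩
      · left
        have : 998 ≤ HH N r δ ^ (2 : ℕ) := by rw [hHH]; nlinarith only [hr, h20]
        nlinarith only [hbig, this]
      · right
        exact ⟨hbig, Or.inl (by rw [h]; linarith only [hst6])⟩
  · have hN7 : N ≤ 7 := by omega
    have key : ∀ lo hi : ℝ, 0 ≤ lo → lo ≤ hst N → hst N ≤ hi → lo ^ (2 : ℕ) ≤ hst N ^ (2 : ℕ) := fun lo hi h0 h1 _ =>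
      pow_le_pow_left₀ h0 h1 2
    rcases heo with ⟨h20, h⟩ | ⟨h20, h⟩
    · have hbig2 : 126 / 100 ≤ 1 / 25 * HH N r δ := by
        have : 998 ≤ HH N r δ ^ (2 : ℕ) := by rw [hHH]; nlinarith only [hr, h20]
        nlinarith only [hbig, this]
      refine ⟨?_, Or.inl hbig2⟩
      rw [h]
      interval_cases N
      · -- N = 3
        right; right; right; left
        have h1 : (20943 / 10000 : ℝ) ≤ hst 3 := by rw [hst_eq]; norm_num; linarith only [hpi']
        have h2 : hst 3 ≤ 20944 / 10000 := by rw [hst_eq]; norm_num; linarith only [hpi]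
        have h3 := key _ _ (by norm_num) h1 h2
        exact ⟨by linarith only [h2], by rw [hRRe] at hI; norm_num at h3; linarith only [hI, h3]⟩
      · right; right; left
        have h1 : (157075 / 100000 : ℝ) ≤ hst 4 := by rw [hst_eq]; norm_num; linarith only [hpi']
        have h2 : hst 4 ≤ 15708 / 10000 := by rw [hst_eq]; norm_num; linarith only [hpi]
        have h3 := key _ _ (by norm_num) h1 h2
        exact ⟨by linarith only [h2], by rw [hRRe] at hI; norm_num at h3; linarith only [hI, h3]⟩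
      · right; left
        have h1 : (12566 / 10000 : ℝ) ≤ hst 5 := by rw [hst_eq]; norm_num; linarith only [hpi']
        have h2 : hst 5 ≤ 125664 / 100000 := by rw [hst_eq]; norm_num; linarith only [hpi]
        have h3 := key _ _ (by norm_num) h1 h2
        exact ⟨by linarith only [h2], by rw [hRRe] at hI; norm_num at h3; linarith only [hI, h3]⟩
      · left
        have h2 : hst 6 ≤ 10472 / 10000 := by rw [hst_eq]; norm_num; linarith only [hpi]
        linarith only [h2]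
      · left
        have h2 : hst 7 ≤ 8977 / 10000 := by rw [hst_eq]; norm_num; linarith only [hpi]
        linarith only [h2]
    · have hlow' := hlow h20
      rw [h]
      interval_cases N
      · have h1 : (20943 / 10000 : ℝ) ≤ hst 3 := by rw [hst_eq]; norm_num; linarith only [hpi']
        have h2 : hst 3 ≤ 20944 / 10000 := by rw [hst_eq]; norm_num; linarith only [hpi]
        have h3 := key _ _ (by norm_num) h1 h2
        norm_num at h3
        have h4 : 5 ≤ (r * δ) ^ (2 : ℕ) := by rw [hRRe] at hlow'; linarith only [hlow', h3]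
        exact ⟨Or.inr (Or.inr (Or.inr (Or.inr ⟨by linarith only [h2], h4⟩))), Or.inr ⟨hbig, Or.inr (by linarith only [h4])⟩⟩
      · have h1 : (157075 / 100000 : ℝ) ≤ hst 4 := by rw [hst_eq]; norm_num; linarith only [hpi']
        have h2 : hst 4 ≤ 15708 / 10000 := by rw [hst_eq]; norm_num; linarith only [hpi]
        have h3 := key _ _ (by norm_num) h1 h2
        norm_num at h3
        have h4 : 5 ≤ (r * δ) ^ (2 : ℕ) := by rw [hRRe] at hlow'; linarith only [hlow', h3]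
        exact ⟨Or.inr (Or.inr (Or.inr (Or.inr ⟨by linarith only [h2], h4⟩))), Or.inr ⟨hbig, Or.inr (by linarith only [h4])⟩⟩
      · have h1 : (12566 / 10000 : ℝ) ≤ hst 5 := by rw [hst_eq]; norm_num; linarith only [hpi']
        have h2 : hst 5 ≤ 125664 / 100000 := by rw [hst_eq]; norm_num; linarith only [hpi]
        have h3 := key _ _ (by norm_num) h1 h2
        norm_num at h3
        have h4 : 29 / 10 ≤ (r * δ) ^ (2 : ℕ) := by rw [hRRe] at hlow'; linarith only [hlow', h3]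
        exact ⟨Or.inr (Or.inr (Or.inl ⟨by linarith only [h2], by linarith only [h4]⟩)), Or.inr ⟨hbig, Or.inr (by linarith only [h4])⟩⟩
      · have h1 : (10471 / 10000 : ℝ) ≤ hst 6 := by rw [hst_eq]; norm_num; linarith only [hpi']
        have h2 : hst 6 ≤ 10472 / 10000 := by rw [hst_eq]; norm_num; linarith only [hpi]
        have h3 := key _ _ (by norm_num) h1 h2
        norm_num at h3
        have h4 : 17 / 10 ≤ (r * δ) ^ (2 : ℕ) := by rw [hRRe] at hlow'; linarith only [hlow', h3]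
        exact ⟨Or.inr (Or.inl ⟨by linarith only [h2], by linarith only [h4]⟩), Or.inr ⟨hbig, Or.inr (by linarith only [h4])⟩⟩
      · have h1 : (89757 / 100000 : ℝ) ≤ hst 7 := by rw [hst_eq]; norm_num; linarith only [hpi']
        have h2 : hst 7 ≤ 8977 / 10000 := by rw [hst_eq]; norm_num; linarith only [hpi]
        have h3 := key _ _ (by norm_num) h1 h2
        norm_num at h3
        have h4 : 1 ≤ (r * δ) ^ (2 : ℕ) := by rw [hRRe] at hlow'; linarith only [hlow', h3]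
        exact ⟨Or.inl (by linarith only [h2]), Or.inr ⟨hbig, Or.inr h4⟩⟩

/-- PIECE `PSad1.sad`, `Γ ≥ 10`. -/
theorem sadB {N : ℕ} {r δ y η : ℝ} (H : Reg1 N r δ) (hA : At r δ y η) (hη : |η| ≤ eo1 N r δ)
    (hG : 10 ≤ Gm N r δ) : SadB N r δ y := by
  obtain ⟨hc1, hc2⟩ := cases_B H hG
  obtain ⟨hdom, hy1, heta⟩ := hA
  have hρ := hdom.1
  rw [← heta] at hη
  obtain ⟨hη1, hη2⟩ := abs_le.1 hη
  set ρ := r * δ with hρdef
  set e := eo1 N r δ with hedef
  have sqrt_low : ∀ c : ℝ, 0 ≤ c → c ^ (2 : ℕ) ≤ ρ ^ (2 : ℕ) → c ≤ ρ := fun c h0 h =>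
    abs_le_of_sq_le_sq' h hρ.le |>.2
  rcases le_total 0 y with hy | hy
  · have h2y := two_y_le hdom hy
    have he13 : e ≤ 13615 / 10000 := by
      rcases hc1 with h | h | h | h | h <;> linarith
    have hT := coreT_pos hdom hy hη2 (by
      rcases hc1 with h | ⟨h1, h2⟩ | ⟨h1, h2⟩ | ⟨h1, h2⟩ | ⟨h1, h2⟩
      · exact Or.inl h
      · have := sqrt_low (6598 / 10000) (by norm_num) (by norm_num; linarith only [h2])
        exact Or.inr (Or.inl ⟨by linarith only [h1, this], h1⟩)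
      · have := sqrt_low (11148 / 10000) (by norm_num) (by norm_num; linarith only [h2])
        exact Or.inr (Or.inr ⟨by linarith only [h1, this], by linarith only [h1]⟩)
      · have := sqrt_low (1728 / 1000) (by norm_num) (by norm_num; linarith only [h2])
        exact Or.inr (Or.inr ⟨by linarith only [h1, this], by linarith only [h1]⟩)
      · have := sqrt_low (22 / 10) (by norm_num) (by norm_num; linarith only [h2])
        exact Or.inr (Or.inr ⟨by linarith only [h1, this], by linarith only [h1]⟩))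
    refine ⟨by linarith only [hy], by nlinarith only [hη2, h2y, he13], by rw [abs_of_nonneg hy]; exact hT, ?_, ?_⟩
    · rw [sD2_sadB hdom]
      nlinarith only [hy]
    · have := core_kD_pos hdom hy
      rcases hc2 with h | ⟨h, _⟩ <;> linarith
  · obtain ⟨t, rfl⟩ : ∃ t, y = -t := ⟨-y, by ring⟩
    have ht : 0 ≤ t := by linarith only [hy]
    have ht1 : t < 1 := by linarith only [hy1]
    have he : -sE ρ (-t) ≤ e := by linarith only [hη1]
    have ht53 := core_t hdom ht ht1 he (by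
      rcases hc1 with h | ⟨h1, h2⟩ | ⟨h1, h2⟩ | ⟨h1, h2⟩ | ⟨h1, h2⟩
      · exact Or.inl (by linarith only [h])
      · exact Or.inl h1
      · have := sqrt_low (11148 / 10000) (by norm_num) (by norm_num; linarith only [h2])
        exact Or.inr (Or.inl ⟨h1, this⟩)
      · have := sqrt_low (1728 / 1000) (by norm_num) (by norm_num; linarith only [h2])
        exact Or.inr (Or.inr (Or.inl ⟨h1, this⟩))
      · have := sqrt_low 2 (by norm_num) (by norm_num; linarith only [h2])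
        exact Or.inr (Or.inr (Or.inr ⟨h1, this⟩)))
    have hc3 : e ≤ 6284 / 10000 ∨ 4354 / 10000 ≤ ρ ^ (2 : ℕ) := by
      rcases hc1 with h | ⟨h1, h2⟩ | ⟨h1, h2⟩ | ⟨h1, h2⟩ | ⟨h1, h2⟩
      · exact Or.inl h
      · exact Or.inr h2
      · exact Or.inr (by linarith only [h2])
      · exact Or.inr (by linarith only [h2])
      · exact Or.inr (by linarith only [h2])
    have hT := coreT_neg hdom ht ht53 he (by
      rcases hc3 with h | h
      · exact Or.inl h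
      · exact Or.inr (sqrt_low (6 / 10) (by norm_num) (by norm_num; linarith only [h])))
    have hD := coreD_neg hdom ht ht53 he hc3
    refine ⟨by linarith only [ht53], by linarith only [ht], by rw [abs_neg, abs_of_nonneg ht]; exact hT, hD, ?_⟩
    rcases hc2 with h | ⟨h, h'⟩
    · refine (core_kD_neg (c := 126 / 100) hdom ht ht53 he hD ?_).trans h
      rcases hc3 with h3 | h3
      · exact Or.inl ⟨h3, rfl⟩
      · exact Or.inr (Or.inl ⟨h3, rfl⟩)
    · refine (core_kD_neg (c := 893 / 1000) hdom ht ht53 he hD ?_).trans h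
      rcases h' with h3 | h3
      · exact Or.inr (Or.inr (Or.inl ⟨h3, rfl⟩))
      · exact Or.inr (Or.inr (Or.inr ⟨h3, rfl⟩))

end SokamV3

end

/-! ### Lib_MP_af4de1_v3.DzNum -/

section
namespace SokamCen
end SokamCen
namespace SokamV3
end SokamV3
/-!
# Fields `d`: the numbers of the reduction (helper48)

`s = i` (real, `≥ 2`), `t = |η|/h`, `X = Γ (s + t)²`; class A: `Γ < 10`, B: `10 ≤ Γ < 20`, C: `Γ ≥ 20`.
-/

set_option autoImplicit false

namespace SokamDz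

open Real SokamCen SokamV3

/-- the constants `(g, k, q)`, the bound of `t` and of `Γ` for one class -/
inductive Cls (Γ t : ℝ) : ℝ → ℝ → ℝ → Prop
  | A (h1 : 27 / 5 ≤ Γ) (h2 : Γ < 10) (h3 : t ≤ 3 / 4) : Cls Γ t (6 / 5) (6 / 5) (27 / 20)
  | B (h1 : 10 ≤ Γ) (h2 : Γ < 20) (h3 : t ≤ 13 / 20) : Cls Γ t (13 / 10) (13 / 10) (71 / 50)
  | C (h1 : 20 ≤ Γ) (h3 : t ≤ 3 / 5) : Cls Γ t (7 / 5) (3 / 2) (3 / 2)

theorem Cls.g0 {Γ t g k q : ℝ} (h : Cls Γ t g k q) : 0 < g := by cases h <;> norm_num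
theorem Cls.k0 {Γ t g k q : ℝ} (h : Cls Γ t g k q) : 0 < k := by cases h <;> norm_num
theorem Cls.q0 {Γ t g k q : ℝ} (h : Cls Γ t g k q) : 0 < q := by cases h <;> norm_num
theorem Cls.G0 {Γ t g k q : ℝ} (h : Cls Γ t g k q) : 27 / 5 ≤ Γ := by
  cases h with
  | A h1 h2 h3 => exact h1
  | B h1 h2 h3 => linarith only [h1]
  | C h1 h3 => linarith only [h1]

/-- `√q (1 + k t)² ≤ 9/2` -/
theorem Cls.pre {Γ t g k q : ℝ} (h : Cls Γ t g k q) (ht : 0 ≤ t) : √q * (1 + k * t) ^ (2 : ℕ) ≤ 9 / 2 := by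
  have h1 : √q ≤ 49 / 40 := by
    rw [Real.sqrt_le_iff]
    cases h <;> norm_num
  have h2 : 0 ≤ k * t ∧ k * t ≤ 9 / 10 := by
    cases h with
    | A h1 h2 h3 => constructor <;> nlinarith
    | B h1 h2 h3 => constructor <;> nlinarith
    | C h1 h3 => constructor <;> nlinarith
  have h3 : (1 + k * t) ^ (2 : ℕ) ≤ (19 / 10) ^ (2 : ℕ) := pow_le_pow_left₀ (by linarith only [h2]) (by linarith only [h2]) 2
  calc √q * (1 + k * t) ^ (2 : ℕ) ≤ 49 / 40 * (19 / 10) ^ (2 : ℕ) :=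
        mul_le_mul h1 h3 (by positivity) (by norm_num)
    _ ≤ 9 / 2 := by norm_num

private theorem two_le_exp : (2 : ℝ) ≤ exp (7 / 10) := by
  refine le_trans ?_ (psa_exp_lb _ (by norm_num))
  norm_num

theorem two_pow_le (i : ℕ) : (2 : ℝ) ^ i ≤ exp (7 / 10 * i) := by
  have h := pow_le_pow_left₀ (by norm_num) two_le_exp i
  rwa [← Real.exp_nat_mul, mul_comm] at h

/-- from the exponent to the claim -/
theorem claim_of {P c E β : ℝ} {i : ℕ} (hP : P ≤ 9 / 2) (hc : 0 ≤ c)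
    (hβ : 450 * c ≤ exp β) (h : 7 / 10 * (i : ℝ) + β + E ≤ 0) :
    P * (c * exp E) ≤ (1 / 2) ^ i / 100 := by
  have h2 := two_pow_le i
  have hE := exp_pos E
  have e1 : exp (7 / 10 * (i : ℝ)) * exp β * exp E ≤ 1 := by
    rw [← exp_add, ← exp_add, exp_le_one_iff]
    exact h
  have e2 : (2 : ℝ) ^ i * (450 * c) * exp E ≤ 1 := by
    refine le_trans ?_ e1
    gcongr
  have h2p : (0 : ℝ) < 2 ^ i := by positivity
  have e3 : P * (c * exp E) ≤ 9 / 2 * (c * exp E) := by gcongr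
  refine e3.trans ?_
  rw [div_pow, one_pow, div_div, le_div_iff₀ (by positivity)]
  calc 9 / 2 * (c * exp E) * (2 ^ i * 100) = 2 ^ i * (450 * c) * exp E := by ring
    _ ≤ 1 := e2

private theorem exp_b1 : (450 : ℝ) * (2 / 25) ≤ exp (18 / 5) := by
  have h := psa_exp_lb (9 / 10) (by norm_num)
  have h2 : exp (18 / 5) = exp (9 / 10) ^ (4 : ℕ) := by
    rw [← Real.exp_nat_mul]
    norm_num
  rw [h2]
  refine le_trans ?_ (pow_le_pow_left₀ (by norm_num) h 4)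
  norm_num

private theorem exp_b2 : (450 : ℝ) * (1 / 2000) ≤ exp (-(7 / 5)) := by
  have h := psa_exp_ub (7 / 10) (by norm_num) (by norm_num)
  have h2 : exp (-(7 / 5)) = (exp (7 / 10) ^ (2 : ℕ))⁻¹ := by
    rw [← Real.exp_nat_mul, ← Real.exp_neg]
    norm_num
  rw [h2, le_inv_comm₀ (by norm_num) (by positivity)]
  refine (pow_le_pow_left₀ (exp_pos _).le h 2).trans ?_
  norm_num

/-! ### `i ≥ 3` -/

theorem b1_ge {Γ t g k q s : ℝ} (h : Cls Γ t g k q) (ht : 0 ≤ t) (hs : 3 ≤ s) :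
    7 / 10 * s + 18 / 5 + (g / 2 * (Γ * t ^ (2 : ℕ)) - 17 / 100 * (Γ * (s + t) ^ (2 : ℕ))) ≤ 0 := by
  have hG := h.G0
  have h1 : 17 / 100 * s ^ (2 : ℕ) ≤ 17 / 100 * (s + t) ^ (2 : ℕ) - g / 2 * t ^ (2 : ℕ) := by
    cases h with
    | A h1 h2 h3 => nlinarith only [mul_nonneg ht (sub_nonneg.2 h3), mul_nonneg ht (sub_nonneg.2 hs)]
    | B h1 h2 h3 => nlinarith only [mul_nonneg ht (sub_nonneg.2 h3), mul_nonneg ht (sub_nonneg.2 hs)]
    | C h1 h3 => nlinarith only [mul_nonneg ht (sub_nonneg.2 h3), mul_nonneg ht (sub_nonneg.2 hs)]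
  have h2 := mul_le_mul_of_nonneg_left h1 (by linarith : 0 ≤ Γ)
  have h3 : 27 / 5 * (17 / 100 * s ^ (2 : ℕ)) ≤ Γ * (17 / 100 * s ^ (2 : ℕ)) := by gcongr
  nlinarith only [hs, h2, h3]

theorem b2_ge {Γ t g k q s : ℝ} (h : Cls Γ t g k q) (ht : 0 ≤ t) (hs : 3 ≤ s) :
    7 / 10 * s + -(7 / 5) + (g / 2 * (Γ * t ^ (2 : ℕ)) - Γ * (s + t) ^ (2 : ℕ) / 25) ≤ 0 := by
  cases h with
  | A h1 h2 h3 =>
    have e1 : s ^ (2 : ℕ) / 25 - 27 / 200 ≤ (s + t) ^ (2 : ℕ) / 25 - 3 / 5 * t ^ (2 : ℕ) := by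
      nlinarith only [mul_nonneg ht (sub_nonneg.2 h3), mul_nonneg ht (sub_nonneg.2 hs)]
    have e2 := mul_le_mul_of_nonneg_left e1 (by linarith : 0 ≤ Γ)
    have e3 : 27 / 5 * (s ^ (2 : ℕ) / 25 - 27 / 200) ≤ Γ * (s ^ (2 : ℕ) / 25 - 27 / 200) :=
      mul_le_mul_of_nonneg_right h1 (by nlinarith only [hs])
    nlinarith only [e2, e3, sq_nonneg (s - 7 / 4)]
  | B h1 h2 h3 =>
    have e1 : s ^ (2 : ℕ) / 25 - 102 / 1000 ≤ (s + t) ^ (2 : ℕ) / 25 - 13 / 20 * t ^ (2 : ℕ) := by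
      linarith only [h3, mul_nonneg ht (sub_nonneg.2 h3), mul_nonneg ht (sub_nonneg.2 hs)]
    have e2 := mul_le_mul_of_nonneg_left e1 (by linarith : 0 ≤ Γ)
    have e3 : 10 * (s ^ (2 : ℕ) / 25 - 102 / 1000) ≤ Γ * (s ^ (2 : ℕ) / 25 - 102 / 1000) :=
      mul_le_mul_of_nonneg_right h1 (by nlinarith only [hs])
    nlinarith only [e2, e3, sq_nonneg (s - 7 / 4)]
  | C h1 h3 =>
    have e1 : s ^ (2 : ℕ) / 25 - 94 / 1000 ≤ (s + t) ^ (2 : ℕ) / 25 - 7 / 10 * t ^ (2 : ℕ) := by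
      linarith only [h3, mul_nonneg ht (sub_nonneg.2 h3), mul_nonneg ht (sub_nonneg.2 hs)]
    have e2 := mul_le_mul_of_nonneg_left e1 (by linarith : 0 ≤ Γ)
    have e3 : 20 * (s ^ (2 : ℕ) / 25 - 94 / 1000) ≤ Γ * (s ^ (2 : ℕ) / 25 - 94 / 1000) :=
      mul_le_mul_of_nonneg_right h1 (by nlinarith only [hs])
    nlinarith only [hs, e2, e3]

theorem b3_ge {Γ t g k q s r : ℝ} (h : Cls Γ t g k q) (ht : 0 ≤ t) (hs : 3 ≤ s)
    (hr : 499 / 10 ≤ r) (hX : 31 / 4 * r < Γ * (s + t) ^ (2 : ℕ)) :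
    7 / 10 * s + -(7 / 5) + (g / 2 * (Γ * t ^ (2 : ℕ)) - Γ * (s + t) ^ (2 : ℕ) / 40) ≤ 0 := by
  have hX' : 386 < Γ * (s + t) ^ (2 : ℕ) := by linarith only [hr, hX]
  cases h with
  | A h1 h2 h3 =>
    have hs6 : 27 / 5 ≤ s := by
      by_contra hc
      push Not at hc
      have : (s + t) ^ (2 : ℕ) ≤ (123 / 20) ^ (2 : ℕ) := pow_le_pow_left₀ (by linarith only [ht, hs]) (by linarith only [h3, hc]) 2
      nlinarith only [hX', h2, this]
    have e1 : s ^ (2 : ℕ) / 40 - 1 / 8 ≤ (s + t) ^ (2 : ℕ) / 40 - 3 / 5 * t ^ (2 : ℕ) := by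
      nlinarith only [mul_nonneg ht (sub_nonneg.2 h3), mul_nonneg ht (sub_nonneg.2 hs6)]
    have e2 := mul_le_mul_of_nonneg_left e1 (by linarith : 0 ≤ Γ)
    have e3 : 27 / 5 * (s ^ (2 : ℕ) / 40 - 1 / 8) ≤ Γ * (s ^ (2 : ℕ) / 40 - 1 / 8) :=
      mul_le_mul_of_nonneg_right h1 (by nlinarith only [hs6])
    nlinarith only [hs6, e2, e3]
  | B h1 h2 h3 =>
    have hs4 : 37 / 10 ≤ s := by
      by_contra hc
      push Not at hc
      have : (s + t) ^ (2 : ℕ) ≤ (87 / 20) ^ (2 : ℕ) := pow_le_pow_left₀ (by linarith only [ht, hs]) (by linarith only [h3, hc]) 2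
      nlinarith only [hX', h2, this]
    have e1 : s ^ (2 : ℕ) / 40 - 15 / 100 ≤ (s + t) ^ (2 : ℕ) / 40 - 13 / 20 * t ^ (2 : ℕ) := by
      nlinarith only [mul_nonneg ht (sub_nonneg.2 h3), mul_nonneg ht (sub_nonneg.2 hs4)]
    have e2 := mul_le_mul_of_nonneg_left e1 (by linarith : 0 ≤ Γ)
    have e3 : 10 * (s ^ (2 : ℕ) / 40 - 15 / 100) ≤ Γ * (s ^ (2 : ℕ) / 40 - 15 / 100) :=
      mul_le_mul_of_nonneg_right h1 (by nlinarith only [hs4])
    nlinarith only [hs4, e2, e3]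
  | C h1 h3 =>
    have e1 : s ^ (2 : ℕ) / 40 - 154 / 1000 ≤ (s + t) ^ (2 : ℕ) / 40 - 7 / 10 * t ^ (2 : ℕ) := by
      linarith only [h3, mul_nonneg ht (sub_nonneg.2 h3), mul_nonneg ht (sub_nonneg.2 hs)]
    have e2 := mul_le_mul_of_nonneg_left e1 (by linarith : 0 ≤ Γ)
    have e3 : 20 * (s ^ (2 : ℕ) / 40 - 154 / 1000) ≤ Γ * (s ^ (2 : ℕ) / 40 - 154 / 1000) :=
      mul_le_mul_of_nonneg_right h1 (by nlinarith only [hs])
    nlinarith only [hs, e2, e3]

/-! ### `i = 2` -/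

private theorem exp_a : (3719 : ℝ) / 100 ≤ exp (459 / 125) := by
  have h := psa_exp_lb (459 / 500) (by norm_num)
  have h2 : exp (459 / 125) = exp (459 / 500) ^ (4 : ℕ) := by
    rw [← Real.exp_nat_mul]
    norm_num
  rw [h2]
  refine le_trans ?_ (pow_le_pow_left₀ (by norm_num) h 4)
  norm_num

/-- class A, `X ≤ 80` -/
theorem two_A {Γ t : ℝ} (h1 : 27 / 5 ≤ Γ) (h3 : t ≤ 3 / 4) (ht : 0 ≤ t) :
    √(27 / 20) * (1 + 6 / 5 * t) ^ (2 : ℕ) * (2 / 25 *
      exp (6 / 5 / 2 * (Γ * t ^ (2 : ℕ)) - 17 / 100 * (Γ * (2 + t) ^ (2 : ℕ)))) ≤ (1 / 2) ^ (2 : ℕ) / 100 := by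
  have hq : √(27 / 20) ≤ 11619 / 10000 := by
    rw [Real.sqrt_le_iff]
    norm_num
  set z := 459 / 250 * t - 1161 / 1000 * t ^ (2 : ℕ) with hz
  have hz0 : 0 ≤ z := by rw [hz]; nlinarith only [h3, ht]
  have e1 : 6 / 5 / 2 * (Γ * t ^ (2 : ℕ)) - 17 / 100 * (Γ * (2 + t) ^ (2 : ℕ)) ≤ -(459 / 125) - 2 * z := by
    have : 0 ≤ 17 / 25 + 17 / 25 * t - 43 / 100 * t ^ (2 : ℕ) := by linarith only [hz, hz0]
    have h2 := mul_le_mul_of_nonneg_right h1 this
    rw [hz]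
    linarith only [h2]
  have e2 : 1 + 6 / 5 * t ≤ exp z := by
    have h2 := Real.quadratic_le_exp_of_nonneg hz0
    refine le_trans ?_ h2
    have h4 : 0 ≤ t * (159 / 250 - 1161 / 1000 * t + t * (459 / 250 - 1161 / 1000 * t) ^ (2 : ℕ) / 2) := by
      refine mul_nonneg ht ?_
      have h5 : 0 ≤ 3 / 4 - t := by linarith only [h3]
      have h6 : (9652 / 10000) ≤ 459 / 250 - 1161 / 1000 * t := by linarith only [h5]
      have h7 : (9652 / 10000 : ℝ) ^ (2 : ℕ) ≤ (459 / 250 - 1161 / 1000 * t) ^ (2 : ℕ) :=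
        pow_le_pow_left₀ (by norm_num) h6 2
      nlinarith only [h3, hz, hz0]
    rw [hz]
    linarith only [h4]
  have e3 : (1 + 6 / 5 * t) ^ (2 : ℕ) ≤ exp z ^ (2 : ℕ) := pow_le_pow_left₀ (by linarith only [ht]) e2 2
  have e4 : exp (6 / 5 / 2 * (Γ * t ^ (2 : ℕ)) - 17 / 100 * (Γ * (2 + t) ^ (2 : ℕ))) ≤
      (exp (459 / 125))⁻¹ * (exp z ^ (2 : ℕ))⁻¹ := by
    refine (exp_le_exp.2 e1).trans (le_of_eq ?_)
    rw [sub_eq_add_neg, exp_add, exp_neg, exp_neg, ← Real.exp_nat_mul]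
    norm_num
  have e5 : (exp (459 / 125))⁻¹ ≤ 100 / 3719 := by
    rw [inv_le_comm₀ (exp_pos _) (by norm_num)]
    refine le_trans (le_of_eq (by norm_num)) exp_a
  have hzp : 0 < exp z ^ (2 : ℕ) := by positivity
  calc √(27 / 20) * (1 + 6 / 5 * t) ^ (2 : ℕ) * (2 / 25 *
      exp (6 / 5 / 2 * (Γ * t ^ (2 : ℕ)) - 17 / 100 * (Γ * (2 + t) ^ (2 : ℕ)))) ≤
      11619 / 10000 * exp z ^ (2 : ℕ) * (2 / 25 * (100 / 3719 * (exp z ^ (2 : ℕ))⁻¹)) := by
        gcongr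
        exact e4.trans (mul_le_mul_of_nonneg_right e5 (by positivity))
    _ = 11619 / 10000 * (2 / 25) * (100 / 3719) := by
        field_simp
    _ ≤ (1 / 2) ^ (2 : ℕ) / 100 := by norm_num

private theorem exp_c : (450 : ℝ) * (2 / 25) ≤ exp (19 / 5) := by
  exact exp_b1.trans (exp_le_exp.2 (by norm_num))

/-- `2 ≤ s ≤ 3`, classes B, C, `X ≤ 80` -/
theorem two_B {Γ t g k q s : ℝ} (h : Cls Γ t g k q) (ht : 0 ≤ t) (hG : 10 ≤ Γ) (hs : 2 ≤ s) :
    7 / 10 * 2 + 18 / 5 + (g / 2 * (Γ * t ^ (2 : ℕ)) - 17 / 100 * (Γ * (s + t) ^ (2 : ℕ))) ≤ 0 := by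
  have h1 : 17 / 25 ≤ 17 / 100 * (s + t) ^ (2 : ℕ) - g / 2 * t ^ (2 : ℕ) := by
    have h0 : (2 + t) ^ (2 : ℕ) ≤ (s + t) ^ (2 : ℕ) := pow_le_pow_left₀ (by linarith only [ht]) (by linarith only [hs]) 2
    cases h with
    | A h1 h2 h3 => linarith only [hG, h2]
    | B h1 h2 h3 => nlinarith only [h0, mul_nonneg ht (sub_nonneg.2 h3)]
    | C h1 h3 => nlinarith only [h0, mul_nonneg ht (sub_nonneg.2 h3)]
  have h2 := mul_le_mul_of_nonneg_left h1 (by linarith : 0 ≤ Γ)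
  linarith only [hG, h2]

/-- `2 ≤ s ≤ 3`, classes B, C, `X > 80` -/
theorem two_C {Γ t g k q s : ℝ} (h : Cls Γ t g k q) (ht : 0 ≤ t) (hG : 10 ≤ Γ) (hs : 2 ≤ s) :
    g / 2 * (Γ * t ^ (2 : ℕ)) - Γ * (s + t) ^ (2 : ℕ) / 25 ≤ 0 := by
  have h0 : (2 + t) ^ (2 : ℕ) ≤ (s + t) ^ (2 : ℕ) := pow_le_pow_left₀ (by linarith only [ht]) (by linarith only [hs]) 2
  cases h with
  | A h1 h2 h3 => linarith only [hG, h2]
  | B h1 h2 h3 =>
    have e1 : 0 ≤ (s + t) ^ (2 : ℕ) / 25 - 13 / 20 * t ^ (2 : ℕ) := by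
      linarith only [h0, h3, mul_nonneg ht (sub_nonneg.2 h3)]
    have e2 := mul_nonneg (by linarith : 0 ≤ Γ) e1
    linarith only [e2]
  | C h1 h3 =>
    have e1 : 0 ≤ (s + t) ^ (2 : ℕ) / 25 - 7 / 10 * t ^ (2 : ℕ) := by
      nlinarith only [h0, mul_nonneg ht (sub_nonneg.2 h3)]
    have e2 := mul_nonneg (by linarith : 0 ≤ Γ) e1
    linarith only [e2]

/-- class A, `X > 80` -/
theorem two_A' {Γ t X : ℝ} (h1 : 27 / 5 ≤ Γ) (h2 : Γ < 10) (h3 : t ≤ 3 / 4) (ht : 0 ≤ t)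
    (hX : 80 < X) :
    √(27 / 20) * (1 + 6 / 5 * t) ^ (2 : ℕ) * (1 / 2000 * exp (6 / 5 / 2 * (Γ * t ^ (2 : ℕ)) - X / 25)) ≤
      (1 / 2) ^ (2 : ℕ) / 100 := by
  have hq : √(27 / 20) ≤ 11619 / 10000 := by
    rw [Real.sqrt_le_iff]
    norm_num
  have h4 : (1 + 6 / 5 * t) ^ (2 : ℕ) ≤ (19 / 10) ^ (2 : ℕ) := pow_le_pow_left₀ (by linarith only [ht]) (by linarith only [h3]) 2
  have h5 : 6 / 5 / 2 * (Γ * t ^ (2 : ℕ)) - X / 25 ≤ 7 / 40 := by
    have : t ^ (2 : ℕ) ≤ (3 / 4) ^ (2 : ℕ) := pow_le_pow_left₀ ht h3 2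
    have h6 : Γ * t ^ (2 : ℕ) ≤ 10 * (3 / 4) ^ (2 : ℕ) := mul_le_mul h2.le this (sq_nonneg _) (by norm_num)
    linarith only [hX, h6]
  have h6 : exp (6 / 5 / 2 * (Γ * t ^ (2 : ℕ)) - X / 25) ≤ 1192 / 1000 := by
    refine (exp_le_exp.2 h5).trans ((psa_exp_ub _ (by norm_num) (by norm_num)).trans ?_)
    norm_num
  calc √(27 / 20) * (1 + 6 / 5 * t) ^ (2 : ℕ) * (1 / 2000 * exp (6 / 5 / 2 * (Γ * t ^ (2 : ℕ)) - X / 25)) ≤
      11619 / 10000 * (19 / 10) ^ (2 : ℕ) * (1 / 2000 * (1192 / 1000)) := by gcongr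
    _ ≤ (1 / 2) ^ (2 : ℕ) / 100 := by norm_num

/-- THE NUMBERS: every real `s ≥ i`. -/
theorem dz_num {Γ t g k q r s Q : ℝ} {i : ℕ} (h : Cls Γ t g k q) (ht : 0 ≤ t) (hi : 2 ≤ i)
    (his : (i : ℝ) ≤ s) (hr : 499 / 10 ≤ r) (hQ : 0 ≤ Q)
    (hXQ : Γ * (s + t) ^ (2 : ℕ) ≤ 987 / 100 * Q) (hηQ : 20 ≤ Γ → Γ * t ^ (2 : ℕ) ≤ 79 / 200 * Q) {F : ℝ}
    (hF : F = if Γ * (s + t) ^ (2 : ℕ) ≤ 80 then 2 / 25 * exp (-(17 / 100 * (Γ * (s + t) ^ (2 : ℕ)))) else
      if Γ * (s + t) ^ (2 : ℕ) ≤ 31 / 4 * r then 1 / 2000 * exp (-(Γ * (s + t) ^ (2 : ℕ) / 25)) else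
        1 / 2000 * exp (-(7 / 25 * Q))) :
    √q * exp (g / 2 * (Γ * t ^ (2 : ℕ))) * (1 + k * t) ^ (2 : ℕ) * F ≤ (1 / 2) ^ i / 100 := by
  have hP := h.pre ht
  have hP0 : 0 ≤ √q * (1 + k * t) ^ (2 : ℕ) := by positivity
  have hG := h.G0
  have hi2 : (2 : ℝ) ≤ i := by exact_mod_cast hi
  have hs2 : 2 ≤ s := hi2.trans his
  have hre : ∀ c E : ℝ, √q * exp (g / 2 * (Γ * t ^ (2 : ℕ))) * (1 + k * t) ^ (2 : ℕ) * (c * exp E) =
      √q * (1 + k * t) ^ (2 : ℕ) * (c * exp (g / 2 * (Γ * t ^ (2 : ℕ)) + E)) := by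
    intro c E
    rw [exp_add]
    ring
  rw [hF]
  split_ifs with h1 h2
  · rw [hre, ← sub_eq_add_neg]
    rcases lt_or_ge s 3 with h3 | h3
    · have h4 : i = 2 := by
        have : (i : ℝ) < 3 := his.trans_lt h3
        have : i < 3 := by exact_mod_cast this
        omega
      subst h4
      cases h with
      | A a b c =>
        refine le_trans ?_ (two_A a c ht)
        have h5 : Γ * (2 + t) ^ (2 : ℕ) ≤ Γ * (s + t) ^ (2 : ℕ) := by
          have : (2 + t) ^ (2 : ℕ) ≤ (s + t) ^ (2 : ℕ) := pow_le_pow_left₀ (by linarith only [ht]) (by linarith only [his, hi2]) 2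
          exact mul_le_mul_of_nonneg_left this (by linarith only [a])
        gcongr
      | B a b c => exact claim_of hP (by norm_num) exp_b1 (by
          have := two_B (.B a b c) ht a hs2
          push_cast
          exact this)
      | C a c => exact claim_of hP (by norm_num) exp_b1 (by
          have := two_B (.C a c) ht (by linarith only [a]) hs2
          push_cast
          exact this)
    · exact claim_of hP (by norm_num) exp_b1 (by
        have := b1_ge h ht h3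
        linarith only [his, this])
  · rw [hre, ← sub_eq_add_neg]
    push Not at h1
    rcases lt_or_ge s 3 with h3 | h3
    · have h4 : i = 2 := by
        have : (i : ℝ) < 3 := his.trans_lt h3
        have : i < 3 := by exact_mod_cast this
        omega
      subst h4
      have key : 10 ≤ Γ → √q * (1 + k * t) ^ (2 : ℕ) * (1 / 2000 * exp (g / 2 * (Γ * t ^ (2 : ℕ)) -
          Γ * (s + t) ^ (2 : ℕ) / 25)) ≤ (1 / 2) ^ (2 : ℕ) / 100 := by
        intro hG10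
        have h6 := exp_le_one_iff.2 (two_C h ht hG10 hs2)
        calc √q * (1 + k * t) ^ (2 : ℕ) * (1 / 2000 * exp (g / 2 * (Γ * t ^ (2 : ℕ)) - Γ * (s + t) ^ (2 : ℕ) / 25)) ≤
            9 / 2 * (1 / 2000 * 1) := by gcongr
          _ ≤ (1 / 2) ^ (2 : ℕ) / 100 := by norm_num
      cases h with
      | A a b c => exact two_A' a b c ht h1
      | B a b c => exact key a
      | C a c => exact key (by linarith only [a])
    · exact claim_of hP (by norm_num) exp_b2 (by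
        have := b2_ge h ht h3
        linarith only [his, this])
  · rw [hre, ← sub_eq_add_neg]
    push Not at h1 h2
    rcases lt_or_ge s 3 with h3 | h3
    · have h4 : i = 2 := by
        have : (i : ℝ) < 3 := his.trans_lt h3
        have : i < 3 := by exact_mod_cast this
        omega
      subst h4
      cases h with
      | A a b c =>
        exfalso
        have : (s + t) ^ (2 : ℕ) ≤ (15 / 4) ^ (2 : ℕ) := pow_le_pow_left₀ (by linarith only [ht, hs2]) (by linarith only [h3, c]) 2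
        nlinarith only [hr, h2, b, this]
      | B a b c =>
        exfalso
        have : (s + t) ^ (2 : ℕ) ≤ (73 / 20) ^ (2 : ℕ) := pow_le_pow_left₀ (by linarith only [ht, hs2]) (by linarith only [h3, c]) 2
        nlinarith only [hr, h2, b, this]
      | C a c =>
        have h6 : exp (7 / 5 / 2 * (Γ * t ^ (2 : ℕ)) - 7 / 25 * Q) ≤ 1 := by
          rw [exp_le_one_iff]
          have := hηQ a
          linarith only [hQ, this]
        calc √(3 / 2) * (1 + 3 / 2 * t) ^ (2 : ℕ) * (1 / 2000 *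
              exp (7 / 5 / 2 * (Γ * t ^ (2 : ℕ)) - 7 / 25 * Q)) ≤ 9 / 2 * (1 / 2000 * 1) := by gcongr
          _ ≤ (1 / 2) ^ (2 : ℕ) / 100 := by norm_num
    · refine claim_of hP (by norm_num) exp_b2 ?_
      have := b3_ge h ht h3 hr h2
      linarith only [his, hQ, hXQ, this]

end SokamDz

end
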