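import Pool.Agent.Lib_MP_af4de1_zy.Z02

/-! ### Lib_MP_af4de1_v3.CenDef -/

section
/-!
# CEN: one wave at the angle `θ = ± t`, `0 < t ≤ π`, on the path through the CENTRE saddle (owner helper66)

Path `a = max (-1) (min 1 (s/m))`, `m = (5/4) √(1+ρ²)`; `Dm = 1 + a + a s/ρ - e^a cos (θ+s) ≥ 0` is the height
divided by `r`; multiplier `r e^(a + i(θ+s))`.  Weight `W = |e^(a + i(θ+s)) - w|²`, `w = K/ρ = e^(-y + i ψ)`.
`Zone q m ρ θ w S I0 IW Ie` : bounds of `∫_S e^(-q Dm)`, `∫_S W e^(-q Dm)`, `∫_S e^a e^(-q Dm)`.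

Zones for `θ = t` (left; for `θ = -t` replace `s` by `-s`):
main `-t ≤ s ≤ 0`, `t + s ≤ 6/5`;  behind `-t - 6/5 ≤ s ≤ -t`;  front `0 ≤ s`, `t + s ≤ 6/5`;
image `|t + s - 2π| ≤ 6/5` (main and behind part with `t' = 2π - t` on the other side);
far `s ≤ -t - 5` or `2π - t + 5 ≤ s`;  rest: `1 - cos (θ+s) ≥ 6336/10000`, there `Dm ≥ 1/2`.
-/

set_option autoImplicit false

namespace SokamCen

open Real MeasureTheory Set

/-- the slope parameter -/
noncomputable def mm (ρ : ℝ) : ℝ := 5 / 4 * √(1 + ρ ^ (2 : ℕ))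

/-- the path -/
noncomputable def pm (m s : ℝ) : ℝ := max (-1) (min 1 (s / m))

/-- one minus the exponent divided by `r` -/
noncomputable def Dm (m ρ θ s : ℝ) : ℝ :=
  1 + pm m s + pm m s * s / ρ - exp (pm m s) * cos (θ + s)

/-- the part of `Dm` without the angle -/
noncomputable def Qm (m ρ s : ℝ) : ℝ := 1 + pm m s + pm m s * s / ρ - exp (pm m s)

/-- `e^(a + i(θ+s))` -/
noncomputable def em (m θ s : ℝ) : ℂ := Complex.exp (pm m s + (θ + s) * Complex.I)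

/-- the weight -/
noncomputable def Wm (m θ : ℝ) (w : ℂ) (s : ℝ) : ℝ := ‖em m θ s - w‖ ^ (2 : ℕ)

/-- bounds of the three integrals over a zone -/
structure Zone (q m ρ θ : ℝ) (w : ℂ) (S : Set ℝ) (I0 IW Ie : ℝ) : Prop where
  i0 : ∫⁻ s in S, ENNReal.ofReal (exp (-(q * Dm m ρ θ s))) ≤ ENNReal.ofReal I0
  iW : ∫⁻ s in S, ENNReal.ofReal (Wm m θ w s * exp (-(q * Dm m ρ θ s))) ≤ ENNReal.ofReal IW
  ie : ∫⁻ s in S, ENNReal.ofReal (exp (pm m s) * exp (-(q * Dm m ρ θ s))) ≤ ENNReal.ofReal Ie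

/-! ## closed forms -/

/-- quadratic coefficient on the right for `0 ≤ a ≤ T ≤ 1` -/
noncomputable def aR (m ρ T : ℝ) : ℝ := (m / ρ - (1 + T / 3 + 5 * T ^ (2 : ℕ) / 48) / 2) / m ^ (2 : ℕ)

/-- quadratic coefficient on the left -/
noncomputable def aL (m ρ : ℝ) : ℝ := (m / ρ - 1 / 2) / m ^ (2 : ℕ)

/-- clipped end of the path -/
noncomputable def cT (m t : ℝ) : ℝ := min 1 (t / m)

/-- `Qm s ≥ AR s²` on `[0, t]` -/
noncomputable def AR (m ρ t : ℝ) : ℝ := aR m ρ (cT m t) * min 1 (m / t)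

/-- `Qm (-v) ≥ AL v²` on `[0, t]` -/
noncomputable def AL (m ρ t : ℝ) : ℝ := aL m ρ * min 1 (m / t)

/-- the full Gaussian -/
noncomputable def gG (q A B : ℝ) : ℝ := √(π / (q * (A + B)))
/-- its centre -/
noncomputable def gv (A B t : ℝ) : ℝ := B * t / (A + B)
/-- its variance -/
noncomputable def gs (q A B : ℝ) : ℝ := 1 / (2 * q * (A + B))
/-- width to the right of the centre, up to `t` -/
noncomputable def gr (q A B t : ℝ) : ℝ := min (gG q A B / 2) (t - gv A B t)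

/-- `∫_[0,t] exp(-q (A s² + B (t-s)² - l))` -/
noncomputable def g0 (q A B t l : ℝ) : ℝ :=
  (gG q A B / 2 + gr q A B t) * exp (-(q * (A * B * t ^ (2 : ℕ) / (A + B) - l)))

/-- the same with the weight `a0 + a1 s² + a2 (t-s)²` -/
noncomputable def gW (q A B t l a0 a1 a2 : ℝ) : ℝ :=
  min (gG q A B * (a0 + a1 * (gv A B t ^ (2 : ℕ) + gs q A B) + a2 * ((t - gv A B t) ^ (2 : ℕ) + gs q A B)))
    (gG q A B / 2 * (a0 + a1 * (gv A B t ^ (2 : ℕ) + gs q A B) +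
        a2 * ((t - gv A B t) ^ (2 : ℕ) + 2 * (t - gv A B t) * √(2 * gs q A B / π) + gs q A B)) +
      gr q A B t * (a0 + a1 * t ^ (2 : ℕ) + a2 * (t - gv A B t) ^ (2 : ℕ))) *
    exp (-(q * (A * B * t ^ (2 : ℕ) / (A + B) - l)))

/-- `∫_[0,∞) exp(-b z - B z²)` -/
noncomputable def h0 (b B : ℝ) : ℝ :=
  min (√(π / B) / 2) (√(π / B) / 2 - b / (2 * B) + b ^ (2 : ℕ) * √(π / B) / (8 * B))
/-- `∫_[0,∞) z exp(-B z²)` -/
noncomputable def h1 (B : ℝ) : ℝ := 1 / (2 * B)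
/-- `∫_[0,∞) z² exp(-B z²)` -/
noncomputable def h2 (B : ℝ) : ℝ := √(π / B) / (4 * B)

/-- `1 - cos` in the window -/
def Win (β t : ℝ) : Prop := 0 < β ∧ ∀ u : ℝ, 0 ≤ u → u ≤ t → u ≤ 6 / 5 → β * u ^ (2 : ℕ) ≤ 1 - cos u

/-- the factor `e^a` on the left: `B`, `l` -/
def Lft (m t β B l : ℝ) : Prop := 0 < B ∧ 0 ≤ l ∧
  ∀ v : ℝ, 0 ≤ v → v ≤ t → B * (t - v) ^ (2 : ℕ) - l ≤ exp (pm m (-v)) * (β * (t - v) ^ (2 : ℕ))

/-- front, left (`θ = t`): `I0` -/
noncomputable def fL0 (q m ρ t : ℝ) : ℝ :=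
  √(π / (q * aR m ρ 1)) / 2 * exp (-(q * (1 - cos t)))

end SokamCen

end

/-! ### Lib_MP_af4de1_v3.ClA -/

section
namespace SokamCen
end SokamCen
/-!
# Far waves with `Γ ≥ 10` (fields `a'`, `c`), I: pointwise facts on the centre path of slope `m ≥ 5ρ/4`

`Dm = Qm + e^a (1 - cos (θ+s))`, quadratic lower bounds of `Qm`, rays, weights `|e^(a+i(θ+s)) - 1|² ≤ 2 C Dm`
with `C = 1` (left) and `C = 14/5` (right).
-/

set_option autoImplicit false

namespace SokamCl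

open Real SokamCen

/-- right side function, `x = s/m` -/
private noncomputable def qr (μ x : ℝ) : ℝ := 1 + min 1 x + μ * min 1 x * x - exp (min 1 x)

/-- left side function, `x = -s/m` -/
private noncomputable def ql (μ x : ℝ) : ℝ := 1 - min 1 x + μ * min 1 x * x - exp (-min 1 x)

theorem Dm_eq (m ρ θ s : ℝ) : Dm m ρ θ s = Qm m ρ s + exp (pm m s) * (1 - cos (θ + s)) := by
  unfold Dm Qm
  ring

private theorem rayr_mono {t x : ℝ} (ht : 0 < t) (htx : t ≤ x) (hx : x ≤ 1) :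
    (exp x - 1) / x - (exp t - 1) / t ≤ x - t := by
  have hd : ∀ y : ℝ, 0 < y → HasDerivAt (fun y : ℝ => y - (exp y - 1) / y)
      (1 - (exp y * y - (exp y - 1) * 1) / y ^ (2 : ℕ)) y := by
    intro y hy
    exact (hasDerivAt_id y).sub (((Real.hasDerivAt_exp y).sub_const 1).div (hasDerivAt_id y) hy.ne')
  have hm : MonotoneOn (fun y : ℝ => y - (exp y - 1) / y) (Set.Icc t 1) := by
    refine monotoneOn_of_deriv_nonneg (convex_Icc t 1) ?_ ?_ ?_
    · intro y hy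
      exact (hd y (ht.trans_le hy.1)).continuousAt.continuousWithinAt
    · intro y hy
      rw [interior_Icc] at hy
      exact (hd y (ht.trans hy.1)).differentiableAt.differentiableWithinAt
    · intro y hy
      rw [interior_Icc] at hy
      have hy0 : 0 < y := ht.trans hy.1
      rw [(hd y hy0).deriv, sub_nonneg, div_le_one (by positivity)]
      have h1 := Real.add_one_le_exp y
      have h2 : 0 ≤ (exp y - (y + 1)) * (1 - y) := mul_nonneg (by linarith only [h1]) (by linarith only [hy.2])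
      linarith only [h2]
  have h := hm ⟨le_rfl, htx.trans hx⟩ ⟨htx, hx⟩ htx
  simp only at h
  linarith only [h]

private theorem rayl_mono {t x : ℝ} (ht : 0 < t) (htx : t ≤ x) (hx : x ≤ 1) :
    (1 - t - exp (-t)) / t + t ≤ (1 - x - exp (-x)) / x + x := by
  have hd : ∀ y : ℝ, 0 < y → HasDerivAt (fun y : ℝ => (1 - y - exp (-y)) / y + y)
      (((-1 - exp (-y) * -1) * y - (1 - y - exp (-y)) * 1) / y ^ (2 : ℕ) + 1) y := by
    intro y hy
    have h1 : HasDerivAt (fun y : ℝ => exp (-y)) (exp (-y) * -1) y :=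
      (hasDerivAt_neg y).exp
    have h2 : HasDerivAt (fun y : ℝ => 1 - y) (-1) y := (hasDerivAt_id y).const_sub 1
    exact ((h2.sub h1).div (hasDerivAt_id y) hy.ne').add (hasDerivAt_id y)
  have hm : MonotoneOn (fun y : ℝ => (1 - y - exp (-y)) / y + y) (Set.Icc t 1) := by
    refine monotoneOn_of_deriv_nonneg (convex_Icc t 1) ?_ ?_ ?_
    · intro y hy
      exact (hd y (ht.trans_le hy.1)).continuousAt.continuousWithinAt
    · intro y hy
      rw [interior_Icc] at hy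
      exact (hd y (ht.trans hy.1)).differentiableAt.differentiableWithinAt
    · intro y hy
      rw [interior_Icc] at hy
      have hy0 : 0 < y := ht.trans hy.1
      rw [(hd y hy0).deriv]
      have h1 := Real.add_one_le_exp (-y)
      have h3 : -1 ≤ ((-1 - exp (-y) * -1) * y - (1 - y - exp (-y)) * 1) / y ^ (2 : ℕ) := by
        rw [le_div_iff₀ (by positivity)]
        have h2 : 0 ≤ (exp (-y) - (-y + 1)) * (1 + y) := mul_nonneg (by linarith only [h1]) (by linarith only [hy0])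
        linarith only [h2]
      linarith only [h3]
  exact hm ⟨le_rfl, htx.trans hx⟩ ⟨htx, hx⟩ htx

private theorem qr_mono {μ t x : ℝ} (hm : 1 ≤ μ) (ht : 0 < t) (htx : t ≤ x) : qr μ t / t ≤ qr μ x / x := by
  have hx0 : 0 < x := ht.trans_le htx
  have hA : ∀ u v : ℝ, 0 < u → u ≤ v → v ≤ 1 → qr μ u / u ≤ qr μ v / v := by
    intro u v hu huv hv
    have hv0 : 0 < v := hu.trans_le huv
    have e : ∀ w : ℝ, 0 < w → w ≤ 1 → qr μ w / w = 1 - (exp w - 1) / w + μ * w := by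
      intro w hw hw1
      unfold qr
      rw [min_eq_right hw1]
      field_simp
      ring
    rw [e u hu (huv.trans hv), e v hv0 hv]
    have h1 := rayr_mono hu huv hv
    have h2 : (v - u) ≤ μ * (v - u) := le_mul_of_one_le_left (by linarith only [huv]) hm
    linarith only [h1, h2]
  have hB : ∀ u v : ℝ, 1 ≤ u → u ≤ v → qr μ u / u ≤ qr μ v / v := by
    intro u v hu huv
    have hu0 : 0 < u := by linarith only [hu]
    have hv0 : 0 < v := by linarith only [hu, huv]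
    have e : ∀ w : ℝ, 1 ≤ w → qr μ w / w = μ - (exp 1 - 2) / w := by
      intro w hw
      have hw0 : 0 < w := by linarith only [hw]
      unfold qr
      rw [min_eq_left hw]
      field_simp
      ring
    rw [e u hu, e v (hu.trans huv)]
    have h1 : 0 ≤ exp 1 - 2 := by
      have := Real.exp_one_gt_d9
      linarith only [this]
    have h2 : (exp 1 - 2) / v ≤ (exp 1 - 2) / u := div_le_div_of_nonneg_left h1 hu0 huv
    linarith only [h2]
  rcases le_total x 1 with h1 | h1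
  · exact hA t x ht htx h1
  · rcases le_total t 1 with h2 | h2
    · exact (hA t 1 ht h2 le_rfl).trans (hB 1 x le_rfl h1)
    · exact hB t x h2 htx

private theorem ql_mono {μ t x : ℝ} (hm : 1 ≤ μ) (ht : 0 < t) (htx : t ≤ x) : ql μ t / t ≤ ql μ x / x := by
  have hx0 : 0 < x := ht.trans_le htx
  have hA : ∀ u v : ℝ, 0 < u → u ≤ v → v ≤ 1 → ql μ u / u ≤ ql μ v / v := by
    intro u v hu huv hv
    have hv0 : 0 < v := hu.trans_le huv
    have e : ∀ w : ℝ, 0 < w → w ≤ 1 → ql μ w / w = (1 - w - exp (-w)) / w + μ * w := by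
      intro w hw hw1
      unfold ql
      rw [min_eq_right hw1]
      field_simp
      ring
    rw [e u hu (huv.trans hv), e v hv0 hv]
    have h1 := rayl_mono hu huv hv
    have h2 : (v - u) ≤ μ * (v - u) := le_mul_of_one_le_left (by linarith only [huv]) hm
    linarith only [h1, h2]
  have hB : ∀ u v : ℝ, 1 ≤ u → u ≤ v → ql μ u / u ≤ ql μ v / v := by
    intro u v hu huv
    have hu0 : 0 < u := by linarith only [hu]
    have hv0 : 0 < v := by linarith only [hu, huv]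
    have e : ∀ w : ℝ, 1 ≤ w → ql μ w / w = μ - exp (-1) / w := by
      intro w hw
      have hw0 : 0 < w := by linarith only [hw]
      unfold ql
      rw [min_eq_left hw]
      field_simp
      ring
    rw [e u hu, e v (hu.trans huv)]
    have h2 : exp (-1) / v ≤ exp (-1) / u := div_le_div_of_nonneg_left (Real.exp_nonneg _) hu0 huv
    linarith only [h2]
  rcases le_total x 1 with h1 | h1
  · exact hA t x ht htx h1
  · rcases le_total t 1 with h2 | h2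
    · exact (hA t 1 ht h2 le_rfl).trans (hB 1 x le_rfl h1)
    · exact hB t x h2 htx

theorem pm_nonneg {m s : ℝ} (hm : 0 < m) (hs : 0 ≤ s) : 0 ≤ pm m s := by
  unfold pm
  exact le_max_of_le_right (le_min one_pos.le (div_nonneg hs hm.le))

theorem pm_nonpos {m s : ℝ} (hm : 0 < m) (hs : s ≤ 0) : pm m s ≤ 0 := by
  unfold pm
  exact max_le (by norm_num) ((min_le_right _ _).trans (div_nonpos_of_nonpos_of_nonneg hs hm.le))

theorem neg_div_le_pm {m u : ℝ} (hm : 0 < m) (hu : 0 ≤ u) : -(u / m) ≤ pm m (-u) := by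
  unfold pm
  rw [neg_div]
  have : 0 ≤ u / m := div_nonneg hu hm.le
  rw [min_eq_right (by linarith only [this])]
  exact le_max_right _ _

private theorem Qm_eq_qr {m ρ s : ℝ} (hm : 0 < m) (hs : 0 ≤ s) : Qm m ρ s = qr (m / ρ) (s / m) := by
  have h1 : pm m s = min 1 (s / m) := by
    unfold pm
    refine max_eq_right ?_
    have : 0 ≤ min 1 (s / m) := le_min one_pos.le (div_nonneg hs hm.le)
    linarith only [this]
  have h2 : s / ρ = m / ρ * (s / m) := by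
    field_simp
  unfold Qm qr
  rw [h1, mul_div_assoc, h2]
  ring

private theorem Qm_eq_ql {m ρ s : ℝ} (hm : 0 < m) (hs : 0 ≤ s) :
    Qm m ρ (-s) = ql (m / ρ) (s / m) := by
  have h1 : pm m (-s) = -min 1 (s / m) := by
    unfold pm
    have h0 : 0 ≤ s / m := div_nonneg hs hm.le
    rw [neg_div, min_eq_right (by linarith only [h0]), ← max_neg_neg]
  have h2 : s / ρ = m / ρ * (s / m) := by
    field_simp
  unfold Qm ql
  rw [h1, mul_div_assoc, neg_div, h2]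
  ring

theorem Qm_ray_right {m ρ s1 s : ℝ} (hm : 0 < m) (hμ : 1 ≤ m / ρ) (hs1 : 0 < s1) (h : s1 ≤ s) :
    Qm m ρ s1 * (s / s1) ≤ Qm m ρ s := by
  have hs : 0 < s := hs1.trans_le h
  have h1 := qr_mono hμ (div_pos hs1 hm) (div_le_div_of_nonneg_right h hm.le)
  rw [← Qm_eq_qr hm hs1.le, ← Qm_eq_qr hm hs.le, div_div_eq_mul_div, div_div_eq_mul_div,
    div_le_div_iff₀ hs1 hs] at h1
  have h2 : Qm m ρ s1 * s ≤ Qm m ρ s * s1 := by
    have h3 : Qm m ρ s1 * m * s = (Qm m ρ s1 * s) * m := by ring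
    have h4 : Qm m ρ s * m * s1 = (Qm m ρ s * s1) * m := by ring
    rw [h3, h4] at h1
    exact le_of_mul_le_mul_right h1 hm
  rw [← mul_div_assoc, div_le_iff₀ hs1]
  exact h2

theorem Qm_ray_left {m ρ s1 s : ℝ} (hm : 0 < m) (hμ : 1 ≤ m / ρ) (hs1 : 0 < s1) (h : s1 ≤ s) :
    Qm m ρ (-s1) * (s / s1) ≤ Qm m ρ (-s) := by
  have hs : 0 < s := hs1.trans_le h
  have h1 := ql_mono hμ (div_pos hs1 hm) (div_le_div_of_nonneg_right h hm.le)
  rw [← Qm_eq_ql hm hs1.le, ← Qm_eq_ql hm hs.le, div_div_eq_mul_div, div_div_eq_mul_div,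
    div_le_div_iff₀ hs1 hs] at h1
  have h2 : Qm m ρ (-s1) * s ≤ Qm m ρ (-s) * s1 := by
    have h3 : Qm m ρ (-s1) * m * s = (Qm m ρ (-s1) * s) * m := by ring
    have h4 : Qm m ρ (-s) * m * s1 = (Qm m ρ (-s) * s1) * m := by ring
    rw [h3, h4] at h1
    exact le_of_mul_le_mul_right h1 hm
  rw [← mul_div_assoc, div_le_iff₀ hs1]
  exact h2

theorem exp_le_quart {a : ℝ} (h0 : 0 ≤ a) (h1 : a ≤ 1) :
    exp a ≤ 1 + a + a ^ (2 : ℕ) / 2 + a ^ (3 : ℕ) / 6 + 5 * a ^ (4 : ℕ) / 96 := by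
  have hexp := Real.exp_bound' h0 h1 (n := 4) (by norm_num)
  refine hexp.trans (le_of_eq ?_)
  norm_num [Finset.sum_range_succ, Nat.factorial]
  ring

/-- the number `γ(T)` -/
noncomputable def gam (T : ℝ) : ℝ := 1 + T / 3 + 5 * T ^ (2 : ℕ) / 48

private theorem qr_mid {μ x T : ℝ} (hx : 0 ≤ x) (hxT : x ≤ T) (hT : T ≤ 1) :
    (μ - gam T / 2) * x ^ (2 : ℕ) ≤ qr μ x := by
  unfold qr gam
  rw [min_eq_right (hxT.trans hT)]
  have h2 := exp_le_quart hx (hxT.trans hT)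
  have h3 : x / 3 + 5 * x ^ (2 : ℕ) / 48 ≤ T / 3 + 5 * T ^ (2 : ℕ) / 48 := by
    have := pow_le_pow_left₀ hx hxT 2
    linarith only [hxT, this]
  have h4 := mul_le_mul_of_nonneg_right h3 (sq_nonneg x)
  linarith only [h2, h4]

theorem gam_le {T : ℝ} (h0 : 0 ≤ T) (h1 : T ≤ 1) : gam T ≤ 69 / 48 := by
  unfold gam
  nlinarith

theorem gam_ge {T : ℝ} (h0 : 0 ≤ T) : 1 ≤ gam T := by
  unfold gam
  nlinarith only [h0]

/-- `Qm s ≥ A s²` on `[0, t]`, right -/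
theorem Qm_right {m ρ t T A : ℝ} (hm : 0 < m) (hμ : 5 / 4 ≤ m / ρ) (ht : 0 < t)
    (hT : min 1 (t / m) ≤ T) (hT1 : T ≤ 1) (hA0 : 0 ≤ A)
    (hA : A * m ^ (2 : ℕ) ≤ (m / ρ - gam T / 2) * min 1 (m / t)) {s : ℝ} (hs : 0 ≤ s) (hst : s ≤ t) :
    A * s ^ (2 : ℕ) ≤ Qm m ρ s := by
  have hT0 : 0 ≤ T := (le_min one_pos.le (div_nonneg ht.le hm.le)).trans hT
  have hk : 0 < m / ρ - gam T / 2 := by
    have := gam_le hT0 hT1
    linarith only [hμ, this]
  have hA1 : A * m ^ (2 : ℕ) ≤ m / ρ - gam T / 2 := by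
    refine hA.trans ?_
    have : min 1 (m / t) ≤ 1 := min_le_left _ _
    nlinarith only [hk, this]
  rcases le_total s m with h1 | h1
  · rw [Qm_eq_qr hm hs]
    have hx : s / m ≤ 1 := by rwa [div_le_one hm]
    have hxT : s / m ≤ T := by
      refine le_trans ?_ hT
      exact le_min hx (div_le_div_of_nonneg_right hst hm.le)
    have h2 := qr_mid (μ := m / ρ) (div_nonneg hs hm.le) hxT hT1
    refine le_trans ?_ h2
    have e : A * s ^ (2 : ℕ) = A * m ^ (2 : ℕ) * (s / m) ^ (2 : ℕ) := by field_simp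
    rw [e]
    exact mul_le_mul_of_nonneg_right hA1 (sq_nonneg _)
  · have hs0 : 0 < s := hm.trans_le h1
    have htm : m ≤ t := h1.trans hst
    have h2 := Qm_ray_right hm (by linarith : 1 ≤ m / ρ) hm h1
    refine le_trans ?_ h2
    have hT' : (1 : ℝ) ≤ T := by
      have : (1 : ℝ) ≤ t / m := by rwa [le_div_iff₀ hm, one_mul]
      rwa [min_eq_left this] at hT
    have h3 := qr_mid (μ := m / ρ) (x := 1) (T := T) zero_le_one hT' hT1
    have h4 : m / ρ - gam T / 2 ≤ Qm m ρ m := by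
      rw [Qm_eq_qr hm hm.le, div_self hm.ne']
      simpa using h3
    have h5 : min 1 (m / t) = m / t := min_eq_right (by rw [div_le_one ht]; exact htm)
    rw [h5] at hA
    have h6 : A * (m * t) ≤ m / ρ - gam T / 2 := by
      have e : A * m ^ (2 : ℕ) = A * (m * t) * (m / t) := by field_simp
      rw [e] at hA
      exact le_of_mul_le_mul_right hA (div_pos hm ht)
    calc A * s ^ (2 : ℕ) = A * (m * s) * (s / m) := by field_simp
      _ ≤ A * (m * t) * (s / m) := by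
          have : 0 ≤ s / m := by positivity
          have h7 : A * (m * s) ≤ A * (m * t) := by
            apply mul_le_mul_of_nonneg_left _ hA0
            nlinarith only [hm, hst]
          exact mul_le_mul_of_nonneg_right h7 this
      _ ≤ Qm m ρ m * (s / m) := by
          have : 0 ≤ s / m := by positivity
          exact mul_le_mul_of_nonneg_right (h6.trans h4) this

private theorem exp_neg_le {b : ℝ} (hb : 0 ≤ b) : exp (-b) ≤ 1 - b + b ^ (2 : ℕ) / 2 := by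
  rw [Real.exp_neg]
  have h3 := Real.quadratic_le_exp_of_nonneg hb
  have h4 : 0 < 1 + b + b ^ (2 : ℕ) / 2 := by positivity
  refine (inv_anti₀ h4 h3).trans ?_
  rw [inv_le_iff_one_le_mul₀ h4]
  nlinarith only []

private theorem ql_mid {μ x : ℝ} (hx : 0 ≤ x) (hT : x ≤ 1) : (μ - 1 / 2) * x ^ (2 : ℕ) ≤ ql μ x := by
  unfold ql
  rw [min_eq_right hT]
  have := exp_neg_le hx
  linarith only [this]

/-- `Qm (-u) ≥ A u²` on `[0, t]`, left -/
theorem Qm_left {m ρ t A : ℝ} (hm : 0 < m) (hμ : 5 / 4 ≤ m / ρ) (ht : 0 < t) (hA0 : 0 ≤ A)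
    (hA : A * m ^ (2 : ℕ) ≤ (m / ρ - 1 / 2) * min 1 (m / t)) {s : ℝ} (hs : 0 ≤ s) (hst : s ≤ t) :
    A * s ^ (2 : ℕ) ≤ Qm m ρ (-s) := by
  have hk : 0 < m / ρ - 1 / 2 := by linarith only [hμ]
  have hA1 : A * m ^ (2 : ℕ) ≤ m / ρ - 1 / 2 := by
    refine hA.trans ?_
    have : min 1 (m / t) ≤ 1 := min_le_left _ _
    nlinarith only [hk, this]
  rcases le_total s m with h1 | h1
  · rw [Qm_eq_ql hm hs]
    have hx : s / m ≤ 1 := by rwa [div_le_one hm]
    have h2 := ql_mid (μ := m / ρ) (div_nonneg hs hm.le) hx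
    refine le_trans ?_ h2
    have e : A * s ^ (2 : ℕ) = A * m ^ (2 : ℕ) * (s / m) ^ (2 : ℕ) := by field_simp
    rw [e]
    exact mul_le_mul_of_nonneg_right hA1 (sq_nonneg _)
  · have hs0 : 0 < s := hm.trans_le h1
    have htm : m ≤ t := h1.trans hst
    have h2 := Qm_ray_left hm (by linarith : 1 ≤ m / ρ) hm h1
    refine le_trans ?_ h2
    have h3 := ql_mid (μ := m / ρ) (x := 1) zero_le_one le_rfl
    have h4 : m / ρ - 1 / 2 ≤ Qm m ρ (-m) := by
      rw [Qm_eq_ql hm hm.le, div_self hm.ne']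
      simpa using h3
    have h5 : min 1 (m / t) = m / t := min_eq_right (by rw [div_le_one ht]; exact htm)
    rw [h5] at hA
    have h6 : A * (m * t) ≤ m / ρ - 1 / 2 := by
      have e : A * m ^ (2 : ℕ) = A * (m * t) * (m / t) := by field_simp
      rw [e] at hA
      exact le_of_mul_le_mul_right hA (div_pos hm ht)
    calc A * s ^ (2 : ℕ) = A * (m * s) * (s / m) := by field_simp
      _ ≤ A * (m * t) * (s / m) := by
          have : 0 ≤ s / m := by positivity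
          have h7 : A * (m * s) ≤ A * (m * t) := by
            apply mul_le_mul_of_nonneg_left _ hA0
            nlinarith only [hm, hst]
          exact mul_le_mul_of_nonneg_right h7 this
      _ ≤ Qm m ρ (-m) * (s / m) := by
          have : 0 ≤ s / m := by positivity
          exact mul_le_mul_of_nonneg_right (h6.trans h4) this

/-! ## weights -/

theorem Wm_one (m θ s : ℝ) :
    Wm m θ 1 s = (exp (pm m s) - 1) ^ (2 : ℕ) + 2 * exp (pm m s) * (1 - cos (θ + s)) := by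
  unfold Wm SokamCen.em
  rw [Complex.sq_norm, Complex.normSq_apply]
  have h1 : (Complex.exp (pm m s + (θ + s) * Complex.I) - 1).re =
      exp (pm m s) * cos (θ + s) - 1 := by
    simp [Complex.exp_re]
  have h2 : (Complex.exp (pm m s + (θ + s) * Complex.I) - 1).im =
      exp (pm m s) * sin (θ + s) := by
    simp [Complex.exp_im]
  rw [h1, h2]
  have h3 := Real.sin_sq_add_cos_sq (θ + s)
  generalize exp (pm m s) = x at *
  generalize cos (θ + s) = c at *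
  generalize sin (θ + s) = d at *
  have h4 : d ^ (2 : ℕ) = 1 - c ^ (2 : ℕ) := by linarith only [h3]
  calc (x * c - 1) * (x * c - 1) + x * d * (x * d) = (x * c - 1) ^ (2 : ℕ) + x ^ (2 : ℕ) * d ^ (2 : ℕ) := by ring
    _ = (x * c - 1) ^ (2 : ℕ) + x ^ (2 : ℕ) * (1 - c ^ (2 : ℕ)) := by rw [h4]
    _ = (x - 1) ^ (2 : ℕ) + 2 * x * (1 - c) := by ring

private theorem Wm_of {m ρ θ s C : ℝ} (hC : 1 ≤ C)
    (h : (exp (pm m s) - 1) ^ (2 : ℕ) ≤ 2 * C * Qm m ρ s) : Wm m θ 1 s ≤ 2 * C * Dm m ρ θ s := by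
  rw [Dm_eq, Wm_one]
  have h1 := Real.exp_pos (pm m s)
  have h2 := Real.cos_le_one (θ + s)
  have h3 : 0 ≤ exp (pm m s) * (1 - cos (θ + s)) := mul_nonneg h1.le (by linarith only [h2])
  nlinarith only [hC, h, h3]

theorem W_left {m ρ θ s : ℝ} (hm : 0 < m) (hμ : 5 / 4 ≤ m / ρ) (hs : s ≤ 0) :
    Wm m θ 1 s ≤ 2 * 1 * Dm m ρ θ s := by
  refine Wm_of le_rfl ?_
  obtain ⟨u, hu⟩ : ∃ u, u = -s := ⟨_, rfl⟩
  have hu0 : 0 ≤ u := by rw [hu]; linarith only [hs]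
  have hsu : s = -u := by rw [hu, neg_neg]
  rw [hsu, Qm_eq_ql hm hu0]
  have h1 : pm m (-u) = -min 1 (u / m) := by
    unfold pm
    have h0 : 0 ≤ u / m := div_nonneg hu0 hm.le
    rw [neg_div, min_eq_right (by linarith only [h0]), ← max_neg_neg]
  rw [h1]
  have hx0 : 0 ≤ u / m := div_nonneg hu0 hm.le
  generalize u / m = x at *
  rcases le_total x 1 with hx | hx
  · have h2 := ql_mid (μ := m / ρ) hx0 hx
    rw [min_eq_right hx]
    have h3 := Real.add_one_le_exp (-x)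
    have h4 : exp (-x) ≤ 1 := Real.exp_le_one_iff.2 (by linarith only [hx0])
    have h5 : (exp (-x) - 1) ^ (2 : ℕ) ≤ x ^ (2 : ℕ) := by
      have h6 : (1 - exp (-x)) ^ (2 : ℕ) ≤ x ^ (2 : ℕ) := pow_le_pow_left₀ (by linarith only [h4]) (by linarith only [h3]) 2
      linarith only [h6]
    have h6 : x ^ (2 : ℕ) ≤ 2 * 1 * ((m / ρ - 1 / 2) * x ^ (2 : ℕ)) := by nlinarith only [hμ]
    linarith only [h2, h5, h6]
  · rw [min_eq_left hx]
    unfold ql
    rw [min_eq_left hx]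
    have h4 : exp (-1) ≤ 1 := Real.exp_le_one_iff.2 (by linarith only [])
    have h3 := Real.exp_pos (-1)
    have h5 : (exp (-1) - 1) ^ (2 : ℕ) ≤ 1 := by nlinarith only [h4, h3]
    have h6 : exp (-1 : ℝ) ≤ 2 / 5 := by
      rw [Real.exp_neg]
      have := Real.exp_one_gt_d9
      rw [inv_le_comm₀ (by positivity) (by norm_num)]
      linarith only [this]
    have h7 : 5 / 4 ≤ m / ρ * 1 * x := by nlinarith only [hμ, hx]
    linarith only [h5, h6, h7]

theorem W_right {m ρ θ s : ℝ} (hm : 0 < m) (hμ : 5 / 4 ≤ m / ρ) (hs : 0 ≤ s) :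
    Wm m θ 1 s ≤ 2 * (14 / 5) * Dm m ρ θ s := by
  refine Wm_of (by norm_num) ?_
  rw [Qm_eq_qr hm hs]
  have h1 : pm m s = min 1 (s / m) := by
    unfold pm
    refine max_eq_right ?_
    have : 0 ≤ min 1 (s / m) := le_min one_pos.le (div_nonneg hs hm.le)
    linarith only [this]
  rw [h1]
  have hx0 : 0 ≤ s / m := div_nonneg hs hm.le
  generalize s / m = x at *
  rcases le_total x 1 with hx | hx
  · have h2 := qr_mid (μ := m / ρ) hx0 le_rfl hx
    rw [min_eq_right hx]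
    have h3 := exp_le_quart hx0 hx
    have h4 : 1 ≤ exp x := Real.one_le_exp hx0
    have h5 : exp x - 1 ≤ x * (55 / 32) := by nlinarith only [h3, mul_nonneg hx0 (sub_nonneg.2 hx)]
    have h6 : (exp x - 1) ^ (2 : ℕ) ≤ (x * (55 / 32)) ^ (2 : ℕ) := pow_le_pow_left₀ (by linarith only [h4]) h5 2
    have h7 := gam_le hx0 hx
    have h8 : 17 / 32 ≤ m / ρ - gam x / 2 := by linarith only [hμ, h7]
    have h9 : 17 / 32 * x ^ (2 : ℕ) ≤ (m / ρ - gam x / 2) * x ^ (2 : ℕ) := mul_le_mul_of_nonneg_right h8 (sq_nonneg x)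
    nlinarith only [h2, h6, h9]
  · rw [min_eq_left hx]
    unfold qr
    rw [min_eq_left hx]
    have h3 := Real.exp_one_lt_d9
    have h4 := Real.exp_one_gt_d9
    have h7 : 5 / 4 ≤ m / ρ * 1 * x := by nlinarith only [hμ, hx]
    nlinarith only [h3, h4, h7]

/-- the exponential trick with `ε = 1/8` -/
theorem trick {r D W C : ℝ} (hr : 0 < r) (hC : 0 ≤ C) (hW : W ≤ 2 * C * D) :
    W * exp (-(r * D)) ≤ 16 * C / (exp 1 * r) * exp (-(7 / 8 * r * D)) := by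
  have h1 := Real.add_one_le_exp (r * D / 8 - 1)
  have h2 : r * D * exp (-(r * D)) ≤ 8 / exp 1 * exp (-(7 / 8 * r * D)) := by
    have e1 : exp (-(7 / 8 * r * D)) = exp (-(r * D)) * exp (r * D / 8) := by
      rw [← Real.exp_add]
      congr 1
      ring
    have e2 : exp (r * D / 8) = exp 1 * exp (r * D / 8 - 1) := by
      rw [← Real.exp_add]
      congr 1
      ring
    rw [e1, e2]
    have h3 := Real.exp_pos (-(r * D))
    have h4 := Real.exp_pos 1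
    have e3 : 8 / exp 1 * (exp (-(r * D)) * (exp 1 * exp (r * D / 8 - 1))) =
        8 * exp (r * D / 8 - 1) * exp (-(r * D)) := by
      field_simp
    rw [e3]
    exact mul_le_mul_of_nonneg_right (by linarith only [h1]) h3.le
  have h3 := Real.exp_pos (-(r * D))
  calc W * exp (-(r * D)) ≤ 2 * C * D * exp (-(r * D)) := mul_le_mul_of_nonneg_right hW h3.le
    _ = 2 * C / r * (r * D * exp (-(r * D))) := by field_simp
    _ ≤ 2 * C / r * (8 / exp 1 * exp (-(7 / 8 * r * D))) := by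
        apply mul_le_mul_of_nonneg_left h2
        positivity
    _ = _ := by
        have h4 := Real.exp_pos 1
        field_simp
        ring

end SokamCl

end

/-! ### Lib_MP_af4de1_v3.CenZ -/

section
/-!
# CEN: closed forms of the zones (definitions) and elementary facts (owner helper66)

Left zones are for `θ = t`, right zones for `θ = -t`; `t > 0` may be larger than `π` (images, `t' = 2π - t`).
`w = e^(c + i d)`: left `c = -y ≤ 0`, `d = ψ ≥ 0`; right `c = n ≥ 0`, `d = -p ≤ 0`.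
-/

set_option autoImplicit false

namespace SokamCen

open Real MeasureTheory Set

/-- the direction of the saddle -/
noncomputable def ww (c d : ℝ) : ℂ := Complex.exp (c + d * Complex.I)

theorem pi_gt_d : (3.1415 : ℝ) < π := Real.pi_gt_d4
theorem pi_lt_d : π < (3.1416 : ℝ) := Real.pi_lt_d4

/-! ### behind, left: `v = t + z`, `0 ≤ z ≤ 6/5` -/

/-- slope -/
noncomputable def bbL (q m ρ t : ℝ) : ℝ := q * (AL m ρ t * t)
/-- curvature -/
noncomputable def BBL (q m t : ℝ) : ℝ := q * (11 / 25 * exp (-cT m (t + 6 / 5)))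
noncomputable def b0L (q m ρ t : ℝ) : ℝ :=
  exp (-(q * (AL m ρ t * t ^ (2 : ℕ)))) * h0 (bbL q m ρ t) (BBL q m t)
noncomputable def bWL (q m ρ t K2 : ℝ) : ℝ :=
  exp (-(q * (AL m ρ t * t ^ (2 : ℕ)))) * (h0 (bbL q m ρ t) (BBL q m t) * (t ^ (2 : ℕ) / m ^ (2 : ℕ) + 5 * K2) +
    h1 (BBL q m t) * (2 * t / m ^ (2 : ℕ)) + h2 (BBL q m t) * (1 / m ^ (2 : ℕ) + 5 / 4))

/-! ### behind, right: `s = t + z` -/

noncomputable def bbR (q m ρ t : ℝ) : ℝ := q * (AR m ρ t * t)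
noncomputable def BBR (q : ℝ) : ℝ := q * (11 / 25)
noncomputable def b0R (q m ρ t : ℝ) : ℝ :=
  exp (-(q * (AR m ρ t * t ^ (2 : ℕ)))) * h0 (bbR q m ρ t) (BBR q)
/-- `e^a` at the end -/
noncomputable def eE (m t : ℝ) : ℝ := exp ((t + 6 / 5) / m)
noncomputable def bWR (q m ρ t n p : ℝ) : ℝ :=
  exp (-(q * (AR m ρ t * t ^ (2 : ℕ)))) * (h0 (bbR q m ρ t) (BBR q) *
      ((exp (t / m) - 1) ^ (2 : ℕ) + (exp n - 1) ^ (2 : ℕ) + 5 * eE m t * exp n * p ^ (2 : ℕ)) +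
    h1 (BBR q) * (((eE m t - 1) ^ (2 : ℕ) - (exp (t / m) - 1) ^ (2 : ℕ)) / (6 / 5)) +
    h2 (BBR q) * (5 / 4 * eE m t * exp n))
noncomputable def beR (q m ρ t : ℝ) : ℝ :=
  exp (-(q * (AR m ρ t * t ^ (2 : ℕ)))) * (h0 (bbR q m ρ t) (BBR q) * exp (t / m) +
    h1 (BBR q) * ((eE m t - exp (t / m)) / (6 / 5)))

/-! ### front, left (`θ = t < 6/5`, `0 ≤ s ≤ 6/5 - t`): slope `q sin t` -/

/-- `min (h0 b B) (1/b)` -/
noncomputable def k0 (b B : ℝ) : ℝ := min (h0 b B) (1 / b)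
/-- `∫ z e^(-bz-Bz²)` -/
noncomputable def k1 (b B : ℝ) : ℝ := min (h1 B) (1 / b ^ (2 : ℕ))
/-- `(e^T - 1)/T`, `T = cT m (6/5)` -/
noncomputable def e1c (m t : ℝ) : ℝ := (exp (cT m t) - 1) / cT m t
noncomputable def BFL (q m ρ : ℝ) : ℝ := q * AR m ρ (6 / 5)
noncomputable def f0L (q m ρ t : ℝ) : ℝ := exp (-(q * (1 - cos t))) * k0 (q * sin t) (BFL q m ρ)
noncomputable def fWL (q m ρ t y : ℝ) : ℝ :=
  exp (-(q * (1 - cos t))) * (k0 (q * sin t) (BFL q m ρ) * (y ^ (2 : ℕ) + t ^ (2 : ℕ)) +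
    k1 (q * sin t) (BFL q m ρ) * (2 * e1c m (6 / 5) * y / m + 2 * t + e1c m (6 / 5) * t ^ (2 : ℕ) / m) +
    h2 (BFL q m ρ) * (e1c m (6 / 5) ^ (2 : ℕ) / m ^ (2 : ℕ) + 1 + 2 * e1c m (6 / 5) * t / m +
      6 / 5 * e1c m (6 / 5) / m))
noncomputable def feL (q m ρ t : ℝ) : ℝ :=
  exp (-(q * (1 - cos t))) * (k0 (q * sin t) (BFL q m ρ) +
    k1 (q * sin t) (BFL q m ρ) * (e1c m (6 / 5) / m))

/-! ### front, right (`θ = -t`, `-(6/5 - t) ≤ s ≤ 0`) -/

noncomputable def BFR (q m ρ : ℝ) : ℝ := q * AL m ρ (6 / 5)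
noncomputable def f0R (q m ρ t : ℝ) : ℝ := exp (-(q * (1 - cos t))) * (√(π / BFR q m ρ) / 2)
noncomputable def fWR (q m ρ t n : ℝ) : ℝ :=
  exp (-(q * (1 - cos t))) * (√(π / BFR q m ρ) / 2 * ((exp n - 1) ^ (2 : ℕ) + exp n * t ^ (2 : ℕ)) +
    h1 (BFR q m ρ) * (2 * (exp n - 1) / m + 2 * exp n * t) +
    h2 (BFR q m ρ) * (1 / m ^ (2 : ℕ) + exp n))

/-! ### far and rest -/

/-- `∫_[S,∞) exp (-q Qm)`, `A = AR m ρ S` or `AL m ρ S` -/
noncomputable def fa0 (q A S : ℝ) : ℝ := exp (-(q * (A * S ^ (2 : ℕ)))) / (q * (A * S))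

/-- `λ` -/
noncomputable def laR (q m ρ ε : ℝ) : ℝ := 2 / 5 * (ε * q * (m / ρ))
noncomputable def re0 (q m ρ ε : ℝ) : ℝ :=
  exp (-((1 - ε) * q / 2)) * (m * (√(π / laR q m ρ ε) + 2 / laR q m ρ ε))

/-! ### elementary facts -/

/-- the weight in real form -/
theorem Wm_eq (m θ c d s : ℝ) : Wm m θ (ww c d) s = (exp (pm m s) - exp c) ^ (2 : ℕ) +
    2 * exp (pm m s + c) * (1 - cos (θ + s - d)) := by
  unfold Wm em ww
  have e : Complex.exp (pm m s + (θ + s) * Complex.I) - Complex.exp (c + d * Complex.I) =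
      ((exp (pm m s) * cos (θ + s) - exp c * cos d : ℝ) : ℂ) +
      ((exp (pm m s) * sin (θ + s) - exp c * sin d : ℝ) : ℂ) * Complex.I := by
    rw [Complex.exp_add, Complex.exp_add, Complex.exp_mul_I, Complex.exp_mul_I]
    push_cast
    ring
  rw [e, Complex.sq_norm, Complex.normSq_add_mul_I, Real.exp_add, Real.cos_sub]
  have h1 := Real.sin_sq_add_cos_sq (θ + s)
  have h2 := Real.sin_sq_add_cos_sq d
  have h3 : exp (pm m s) ^ (2 : ℕ) * (sin (θ + s) ^ (2 : ℕ) + cos (θ + s) ^ (2 : ℕ)) = exp (pm m s) ^ (2 : ℕ) := by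
    rw [h1, mul_one]
  have h4 : exp c ^ (2 : ℕ) * (sin d ^ (2 : ℕ) + cos d ^ (2 : ℕ)) = exp c ^ (2 : ℕ) := by rw [h2, mul_one]
  nlinarith [h3, h4]

theorem Dm_period (m ρ θ s : ℝ) : Dm m ρ (θ - 2 * π) s = Dm m ρ θ s := by
  unfold Dm
  have : θ - 2 * π + s = θ + s - 2 * π := by ring
  rw [this, Real.cos_sub_two_pi]

theorem em_period (m θ s : ℝ) : em m (θ - 2 * π) s = em m θ s := by
  unfold em
  have : (pm m s : ℂ) + (((θ - 2 * π : ℝ) : ℂ) + s) * Complex.I =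
      pm m s + (θ + s) * Complex.I - 2 * π * Complex.I := by
    push_cast
    ring
  rw [this, Complex.exp_sub, Complex.exp_two_pi_mul_I, div_one]

theorem zone_period {q m ρ θ : ℝ} {w : ℂ} {S : Set ℝ} {I0 IW Ie : ℝ}
    (h : Zone q m ρ (θ - 2 * π) w S I0 IW Ie) : Zone q m ρ θ w S I0 IW Ie := by
  have e1 : ∀ s, Dm m ρ (θ - 2 * π) s = Dm m ρ θ s := Dm_period m ρ θ
  have e2 : ∀ s, Wm m (θ - 2 * π) w s = Wm m θ w s := fun s => by
    unfold Wm
    rw [em_period]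
  obtain ⟨h0, h1, h2⟩ := h
  refine ⟨?_, ?_, ?_⟩
  · simpa only [e1] using h0
  · simpa only [e1, e2] using h1
  · simpa only [e1] using h2

end SokamCen

end

/-! ### Lib_MP_af4de1_v3.CenG -/

section
/-!
# CEN: the Gaussian integrals of `CenDef`: `g0`, `gW`, `h0`, `h1`, `h2`

Moments on the half line: `∫_(0,∞) (c0 + c1 z + c2 z²) e^(-b z²) = c0 G/2 + c1/(2b) + c2 G/(4b)`, `G = √(π/b)`.
-/

set_option autoImplicit false

namespace SokamCen

open Real MeasureTheory Set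

/-! ## half line moments -/

private theorem cg_i0 {b : ℝ} (hb : 0 < b) :
    IntegrableOn (fun z : ℝ => exp (-(b * z ^ (2 : ℕ)))) (Ioi 0) := by
  have h := (integrable_exp_neg_mul_sq hb).integrableOn (s := Ioi (0 : ℝ))
  refine h.congr_fun (fun z _ => ?_) measurableSet_Ioi
  simp only [neg_mul]

private theorem cg_v0 (b : ℝ) : ∫ z in Ioi (0 : ℝ), exp (-(b * z ^ (2 : ℕ))) = √(π / b) / 2 := by
  rw [← integral_gaussian_Ioi b]
  refine setIntegral_congr_fun measurableSet_Ioi fun z _ => ?_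
  simp only [neg_mul]

private theorem cg_i1 {b : ℝ} (hb : 0 < b) :
    IntegrableOn (fun z : ℝ => z * exp (-(b * z ^ (2 : ℕ)))) (Ioi 0) := by
  have h := (integrable_rpow_mul_exp_neg_mul_sq hb (s := 1) (by norm_num)).integrableOn
    (s := Ioi (0 : ℝ))
  refine h.congr_fun (fun z _ => ?_) measurableSet_Ioi
  simp only [neg_mul, rpow_one]

private theorem cg_v1 {b : ℝ} (hb : 0 < b) :
    ∫ z in Ioi (0 : ℝ), z * exp (-(b * z ^ (2 : ℕ))) = 1 / (2 * b) := by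
  have h := integral_rpow_mul_exp_neg_mul_rpow (p := 2) (q := 1) (by norm_num) (by norm_num) hb
  have e : ∫ z in Ioi (0 : ℝ), z * exp (-(b * z ^ (2 : ℕ))) =
      ∫ z in Ioi (0 : ℝ), z ^ (1 : ℝ) * exp (-b * z ^ (2 : ℝ)) := by
    refine setIntegral_congr_fun measurableSet_Ioi fun z _ => ?_
    simp only [neg_mul, rpow_one, rpow_two]
  rw [e, h]
  norm_num [Real.Gamma_one]
  rw [rpow_neg_one]

private theorem cg_i2 {b : ℝ} (hb : 0 < b) :
    IntegrableOn (fun z : ℝ => z ^ (2 : ℕ) * exp (-(b * z ^ (2 : ℕ)))) (Ioi 0) := by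
  have h := (integrable_rpow_mul_exp_neg_mul_sq hb (s := 2) (by norm_num)).integrableOn
    (s := Ioi (0 : ℝ))
  refine h.congr_fun (fun z _ => ?_) measurableSet_Ioi
  simp only [neg_mul, rpow_two]

private theorem cg_v2 {b : ℝ} (hb : 0 < b) :
    ∫ z in Ioi (0 : ℝ), z ^ (2 : ℕ) * exp (-(b * z ^ (2 : ℕ))) = √(π / b) / (4 * b) := by
  have h := integral_rpow_mul_exp_neg_mul_rpow (p := 2) (q := 2) (by norm_num) (by norm_num) hb
  have e : ∫ z in Ioi (0 : ℝ), z ^ (2 : ℕ) * exp (-(b * z ^ (2 : ℕ))) =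
      ∫ z in Ioi (0 : ℝ), z ^ (2 : ℝ) * exp (-b * z ^ (2 : ℝ)) := by
    refine setIntegral_congr_fun measurableSet_Ioi fun z _ => ?_
    simp only [neg_mul, rpow_two]
  have hG : Gamma ((2 + 1) / 2) = √π / 2 := by
    have : ((2 : ℝ) + 1) / 2 = 1 / 2 + 1 := by norm_num
    rw [this, Real.Gamma_add_one (by norm_num), Real.Gamma_one_half_eq]
    ring
  have hs : 0 < √b := sqrt_pos.2 hb
  have hr : b ^ (-(2 + 1) / 2 : ℝ) = 1 / (b * √b) := by
    have e1 : (-(2 + 1) / 2 : ℝ) = -(1 + 1 / 2) := by norm_num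
    rw [e1, rpow_neg hb.le, rpow_add hb, rpow_one, ← sqrt_eq_rpow]
    simp
  rw [e, h, hG, hr, sqrt_div pi_pos.le]
  field_simp
  ring

private theorem cg_int {b : ℝ} (c0 c1 c2 : ℝ) (hb : 0 < b) :
    IntegrableOn (fun z : ℝ => (c0 + c1 * z + c2 * z ^ (2 : ℕ)) * exp (-(b * z ^ (2 : ℕ)))) (Ioi 0) ∧
    ∫ z in Ioi (0 : ℝ), (c0 + c1 * z + c2 * z ^ (2 : ℕ)) * exp (-(b * z ^ (2 : ℕ))) =
      c0 * (√(π / b) / 2) + c1 * (1 / (2 * b)) + c2 * (√(π / b) / (4 * b)) := by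
  have i0 := (cg_i0 hb).const_mul c0
  have i1 := (cg_i1 hb).const_mul c1
  have i2 := (cg_i2 hb).const_mul c2
  have i01 : IntegrableOn (fun z : ℝ => c0 * exp (-(b * z ^ (2 : ℕ))) + c1 * (z * exp (-(b * z ^ (2 : ℕ)))))
      (Ioi 0) := Integrable.add i0 i1
  have e : (fun z : ℝ => (c0 + c1 * z + c2 * z ^ (2 : ℕ)) * exp (-(b * z ^ (2 : ℕ)))) =
      fun z : ℝ => (c0 * exp (-(b * z ^ (2 : ℕ))) + c1 * (z * exp (-(b * z ^ (2 : ℕ))))) +
        c2 * (z ^ (2 : ℕ) * exp (-(b * z ^ (2 : ℕ)))) := by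
    funext z
    ring
  rw [e]
  refine ⟨Integrable.add i01 i2, ?_⟩
  rw [integral_add i01 i2, integral_add i0 i1,
    integral_const_mul, integral_const_mul, integral_const_mul, cg_v0, cg_v1 hb, cg_v2 hb]

theorem half_nonneg {b c0 c1 c2 : ℝ} (hb : 0 < b)
    (h0 : ∀ z : ℝ, 0 < z → 0 ≤ c0 + c1 * z + c2 * z ^ (2 : ℕ)) :
    0 ≤ c0 * (√(π / b) / 2) + c1 * (1 / (2 * b)) + c2 * (√(π / b) / (4 * b)) := by
  rw [← (cg_int c0 c1 c2 hb).2]
  exact setIntegral_nonneg measurableSet_Ioi fun z hz => mul_nonneg (h0 z hz) (exp_pos _).le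

/-- THE HALF LINE MOMENTS. -/
theorem half_le {b c0 c1 c2 : ℝ} {F : ℝ → ℝ} (hb : 0 < b)
    (h0 : ∀ z : ℝ, 0 < z → 0 ≤ c0 + c1 * z + c2 * z ^ (2 : ℕ))
    (hF : ∀ z : ℝ, 0 < z → F z ≤ (c0 + c1 * z + c2 * z ^ (2 : ℕ)) * exp (-(b * z ^ (2 : ℕ)))) :
    ∫⁻ z in Ioi (0 : ℝ), ENNReal.ofReal (F z) ≤
      ENNReal.ofReal (c0 * (√(π / b) / 2) + c1 * (1 / (2 * b)) + c2 * (√(π / b) / (4 * b))) := by
  have hi := (cg_int c0 c1 c2 hb).1
  have hv := (cg_int c0 c1 c2 hb).2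
  rw [← hv, ofReal_integral_eq_lintegral_ofReal hi]
  · refine setLIntegral_mono' measurableSet_Ioi fun z hz => ENNReal.ofReal_le_ofReal (hF z hz)
  · refine (ae_restrict_iff' measurableSet_Ioi).2 (Filter.Eventually.of_forall fun z hz => ?_)
    exact mul_nonneg (h0 z hz) (exp_pos _).le

/-! ## transformations -/

theorem lint_neg (F : ℝ → ENNReal) (s : Set ℝ) :
    ∫⁻ x in (fun x : ℝ => -x) ⁻¹' s, F (-x) = ∫⁻ x in s, F x :=
  (Measure.measurePreserving_neg (volume : Measure ℝ)).setLIntegral_comp_preimage_emb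
    (Homeomorph.neg ℝ).isClosedEmbedding.measurableEmbedding F s

theorem lint_shift (F : ℝ → ENNReal) (c : ℝ) (s : Set ℝ) :
    ∫⁻ x in (fun x : ℝ => x + c) ⁻¹' s, F (x + c) = ∫⁻ x in s, F x :=
  (measurePreserving_add_right (volume : Measure ℝ) c).setLIntegral_comp_preimage_emb
    (measurableEmbedding_addRight c) F s

/-- `∫_(c,∞) F(s) = ∫_(0,∞) F(z + c)` -/
theorem lint_Ioi (F : ℝ → ENNReal) (c : ℝ) :
    ∫⁻ s in Ioi c, F s = ∫⁻ z in Ioi (0 : ℝ), F (z + c) := by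
  have h := lint_shift F c (Ioi c)
  have hs : (fun x : ℝ => x + c) ⁻¹' Ioi c = Ioi 0 := by
    ext x
    simp
  rw [hs] at h
  exact h.symm

/-- `∫_(-∞,c) F(s) = ∫_(0,∞) F(c - z)` -/
theorem lint_Iio (F : ℝ → ENNReal) (c : ℝ) :
    ∫⁻ s in Iio c, F s = ∫⁻ z in Ioi (0 : ℝ), F (c - z) := by
  have h := lint_neg F (Iio c)
  have hs : (fun x : ℝ => -x) ⁻¹' Iio c = Ioi (-c) := by
    ext x
    constructor
    · intro hx
      have hx' : -x < c := hx
      show -c < x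
      linarith
    · intro hx
      have hx' : -c < x := hx
      show -x < c
      linarith
  rw [hs, lint_Ioi] at h
  rw [← h]
  refine lintegral_congr fun z => ?_
  congr 1
  ring

/-- `∫_[a,b] F(s) = ∫_[-b,-a] F(-s)` -/
theorem lint_Icc_neg (F : ℝ → ENNReal) (a b : ℝ) :
    ∫⁻ s in Icc a b, F s = ∫⁻ v in Icc (-b) (-a), F (-v) := by
  have h := lint_neg F (Icc a b)
  have hs : (fun x : ℝ => -x) ⁻¹' Icc a b = Icc (-b) (-a) := by
    ext x
    constructor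
    · intro hx
      have hx' : a ≤ -x ∧ -x ≤ b := hx
      exact ⟨by linarith [hx'.2], by linarith [hx'.1]⟩
    · intro hx
      have hx' : -b ≤ x ∧ x ≤ -a := hx
      exact ⟨by linarith [hx'.2], by linarith [hx'.1]⟩
  rw [hs] at h
  exact h.symm

/-! ## the full two-term Gaussian -/

private theorem cg_split {q A B : ℝ} (hA : 0 < A) (hB : 0 < B) (t l v : ℝ) :
    exp (-(q * (A * v ^ (2 : ℕ) + B * (t - v) ^ (2 : ℕ) - l))) =
      exp (-(q * (A * B * t ^ (2 : ℕ) / (A + B) - l))) * exp (-(q * (A + B) * (v - gv A B t) ^ (2 : ℕ))) := by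
  have hAB : 0 < A + B := add_pos hA hB
  rw [← exp_add]
  congr 1
  unfold gv
  field_simp
  ring

theorem gv_nonneg {A B t : ℝ} (hA : 0 < A) (hB : 0 < B) (ht : 0 ≤ t) : 0 ≤ gv A B t := by
  unfold gv
  positivity

theorem gv_le {A B t : ℝ} (hA : 0 < A) (hB : 0 < B) (ht : 0 ≤ t) : gv A B t ≤ t := by
  unfold gv
  rw [div_le_iff₀ (add_pos hA hB)]
  linarith only [mul_nonneg hA.le ht]

private theorem cg_right {q A B t w : ℝ} (hq : 0 < q) (hA : 0 < A) (hB : 0 < B) (ht : 0 ≤ t)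
    (hw : 0 ≤ w) :
    ∫⁻ v in Ioc (gv A B t) t, ENNReal.ofReal (w * exp (-(q * (A + B) * (v - gv A B t) ^ (2 : ℕ)))) ≤
      ENNReal.ofReal (gr q A B t * w) := by
  have hAB : 0 < A + B := add_pos hA hB
  have hb : 0 < q * (A + B) := mul_pos hq hAB
  have hgv := gv_le hA hB ht
  unfold gr
  have h1 : ∫⁻ v in Ioc (gv A B t) t,
      ENNReal.ofReal (w * exp (-(q * (A + B) * (v - gv A B t) ^ (2 : ℕ)))) ≤
        ENNReal.ofReal (gG q A B / 2 * w) := by
    refine (lintegral_mono_set (Ioc_subset_Ioi_self : Ioc (gv A B t) t ⊆ Ioi (gv A B t))).trans ?_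
    rw [lint_Ioi]
    refine (half_le (c0 := w) (c1 := 0) (c2 := 0) hb (fun z hz => by simpa using hw)
      (fun z hz => by simp)).trans (le_of_eq ?_)
    congr 1
    unfold gG
    ring
  have h2 : ∫⁻ v in Ioc (gv A B t) t,
      ENNReal.ofReal (w * exp (-(q * (A + B) * (v - gv A B t) ^ (2 : ℕ)))) ≤
        ENNReal.ofReal ((t - gv A B t) * w) := by
    calc ∫⁻ v in Ioc (gv A B t) t,
          ENNReal.ofReal (w * exp (-(q * (A + B) * (v - gv A B t) ^ (2 : ℕ))))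
        ≤ ∫⁻ v in Ioc (gv A B t) t, ENNReal.ofReal w := by
          refine lintegral_mono fun s => ENNReal.ofReal_le_ofReal ?_
          have h3 : exp (-(q * (A + B) * (s - gv A B t) ^ (2 : ℕ))) ≤ 1 :=
            exp_le_one_iff.2 (by have : 0 ≤ q * (A + B) * (s - gv A B t) ^ (2 : ℕ) := by positivity
                                 linarith)
          nlinarith only [hw, h3]
      _ = ENNReal.ofReal ((t - gv A B t) * w) := by
          rw [setLIntegral_const, Real.volume_Ioc, ← ENNReal.ofReal_mul hw, mul_comm w]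
  rcases le_total (gG q A B / 2) (t - gv A B t) with h | h
  · rwa [min_eq_left h]
  · rwa [min_eq_right h]

/-- the basic form: the weight `W v` on `[0, t]`, majorised on the two halves -/
private theorem cg_main {q A B t l c0 c1 c2 w : ℝ} {W : ℝ → ℝ} (hq : 0 < q) (hA : 0 < A) (hB : 0 < B)
    (ht : 0 ≤ t) (hW : ∀ v, 0 ≤ v → v ≤ t → 0 ≤ W v)
    (hL : ∀ z, 0 < z → 0 ≤ c0 + c1 * z + c2 * z ^ (2 : ℕ))
    (hL' : ∀ z, 0 ≤ z → z ≤ gv A B t → W (gv A B t - z) ≤ c0 + c1 * z + c2 * z ^ (2 : ℕ))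
    (hw : 0 ≤ w) (hR : ∀ v, gv A B t ≤ v → v ≤ t → W v ≤ w) :
    ∫⁻ v in Icc 0 t, ENNReal.ofReal (W v * exp (-(q * (A * v ^ (2 : ℕ) + B * (t - v) ^ (2 : ℕ) - l)))) ≤
      ENNReal.ofReal ((c0 * (gG q A B / 2) + c1 * gs q A B + c2 * (gG q A B / 2 * gs q A B) +
        gr q A B t * w) * exp (-(q * (A * B * t ^ (2 : ℕ) / (A + B) - l)))) := by
  have hAB : 0 < A + B := add_pos hA hB
  have hb : 0 < q * (A + B) := mul_pos hq hAB
  have hgv := gv_le hA hB ht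
  have hgv0 := gv_nonneg hA hB ht
  set K := exp (-(q * (A * B * t ^ (2 : ℕ) / (A + B) - l))) with hK
  have hK0 : 0 < K := exp_pos _
  have hpt : ∀ v : ℝ, ENNReal.ofReal (W v * exp (-(q * (A * v ^ (2 : ℕ) + B * (t - v) ^ (2 : ℕ) - l)))) =
      ENNReal.ofReal K * ENNReal.ofReal (W v * exp (-(q * (A + B) * (v - gv A B t) ^ (2 : ℕ)))) := by
    intro v
    rw [← ENNReal.ofReal_mul hK0.le, cg_split hA hB]
    congr 1
    ring
  have hsub : Icc 0 t ⊆ Icc 0 (gv A B t) ∪ Ioc (gv A B t) t := by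
    intro s hs
    rcases le_or_gt s (gv A B t) with h | h
    · exact Or.inl ⟨hs.1, h⟩
    · exact Or.inr ⟨h, hs.2⟩
  have hleft : ∫⁻ v in Icc 0 (gv A B t),
      ENNReal.ofReal (W v * exp (-(q * (A + B) * (v - gv A B t) ^ (2 : ℕ)))) ≤
        ENNReal.ofReal (c0 * (gG q A B / 2) + c1 * gs q A B + c2 * (gG q A B / 2 * gs q A B)) := by
    have e1 : ∫⁻ v in Icc 0 (gv A B t),
        ENNReal.ofReal (W v * exp (-(q * (A + B) * (v - gv A B t) ^ (2 : ℕ)))) ≤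
          ∫⁻ v in Iic (gv A B t), (Icc 0 (gv A B t)).indicator (fun v =>
            ENNReal.ofReal (W v * exp (-(q * (A + B) * (v - gv A B t) ^ (2 : ℕ))))) v := by
      rw [lintegral_indicator measurableSet_Icc, Measure.restrict_restrict measurableSet_Icc,
        inter_eq_self_of_subset_left Icc_subset_Iic_self]
    refine e1.trans ?_
    rw [setLIntegral_congr (Iio_ae_eq_Iic (μ := volume) (a := gv A B t)).symm, lint_Iio]
    have e2 : ∀ z ∈ Ioi (0 : ℝ), (Icc 0 (gv A B t)).indicator (fun v =>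
        ENNReal.ofReal (W v * exp (-(q * (A + B) * (v - gv A B t) ^ (2 : ℕ))))) (gv A B t - z) ≤
        ENNReal.ofReal ((c0 + c1 * z + c2 * z ^ (2 : ℕ)) * exp (-(q * (A + B) * z ^ (2 : ℕ)))) := by
      intro z hz
      by_cases hin : gv A B t - z ∈ Icc 0 (gv A B t)
      · rw [indicator_of_mem hin]
        refine ENNReal.ofReal_le_ofReal ?_
        have : gv A B t - z - gv A B t = -z := by ring
        rw [this, neg_sq]
        exact mul_le_mul_of_nonneg_right (hL' z (le_of_lt hz) (by linarith [hin.1])) (exp_pos _).le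
      · rw [indicator_of_notMem hin]
        exact zero_le
    refine (setLIntegral_mono' measurableSet_Ioi e2).trans ?_
    refine (half_le (c0 := c0) (c1 := c1) (c2 := c2) hb hL fun z hz => le_rfl).trans (le_of_eq ?_)
    congr 1
    unfold gG gs
    have hne : q * (A + B) ≠ 0 := hb.ne'
    field_simp
    ring
  have hright : ∫⁻ v in Ioc (gv A B t) t,
      ENNReal.ofReal (W v * exp (-(q * (A + B) * (v - gv A B t) ^ (2 : ℕ)))) ≤
        ENNReal.ofReal (gr q A B t * w) := by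
    refine le_trans ?_ (cg_right hq hA hB ht hw)
    refine setLIntegral_mono' measurableSet_Ioc fun v hv => ENNReal.ofReal_le_ofReal ?_
    exact mul_le_mul_of_nonneg_right (hR v hv.1.le hv.2) (exp_pos _).le
  have hc : 0 ≤ c0 * (gG q A B / 2) + c1 * gs q A B + c2 * (gG q A B / 2 * gs q A B) := by
    have h := half_nonneg hb hL
    have e : c0 * (√(π / (q * (A + B))) / 2) + c1 * (1 / (2 * (q * (A + B)))) +
        c2 * (√(π / (q * (A + B))) / (4 * (q * (A + B)))) =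
        c0 * (gG q A B / 2) + c1 * gs q A B + c2 * (gG q A B / 2 * gs q A B) := by
      unfold gG gs
      have hne : q * (A + B) ≠ 0 := hb.ne'
      field_simp
      ring
    rwa [e] at h
  have hgr : 0 ≤ gr q A B t := by
    unfold gr gG
    exact le_min (by positivity) (by linarith)
  calc ∫⁻ v in Icc 0 t, ENNReal.ofReal (W v * exp (-(q * (A * v ^ (2 : ℕ) + B * (t - v) ^ (2 : ℕ) - l))))
      ≤ ∫⁻ v in Icc 0 (gv A B t) ∪ Ioc (gv A B t) t,
          ENNReal.ofReal (W v * exp (-(q * (A * v ^ (2 : ℕ) + B * (t - v) ^ (2 : ℕ) - l)))) :=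
        lintegral_mono_set hsub
    _ = ∫⁻ v in Icc 0 (gv A B t) ∪ Ioc (gv A B t) t, ENNReal.ofReal K *
          ENNReal.ofReal (W v * exp (-(q * (A + B) * (v - gv A B t) ^ (2 : ℕ)))) :=
        lintegral_congr fun v => hpt v
    _ = ENNReal.ofReal K * ∫⁻ v in Icc 0 (gv A B t) ∪ Ioc (gv A B t) t,
          ENNReal.ofReal (W v * exp (-(q * (A + B) * (v - gv A B t) ^ (2 : ℕ)))) :=
        lintegral_const_mul' _ _ ENNReal.ofReal_ne_top
    _ ≤ ENNReal.ofReal K * (ENNReal.ofReal (c0 * (gG q A B / 2) + c1 * gs q A B +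
          c2 * (gG q A B / 2 * gs q A B)) + ENNReal.ofReal (gr q A B t * w)) :=
        mul_le_mul_right ((lintegral_union_le _ _ _).trans (add_le_add hleft hright)) _
    _ = _ := by
        rw [← ENNReal.ofReal_add hc (mul_nonneg hgr hw), ← ENNReal.ofReal_mul hK0.le]
        congr 1
        ring

/-- `∫_[0,t] exp(-q (A v² + B (t-v)² - l)) ≤ g0` -/
theorem g0_le {q A B t l : ℝ} (hq : 0 < q) (hA : 0 < A) (hB : 0 < B) (ht : 0 ≤ t) :
    ∫⁻ v in Icc 0 t, ENNReal.ofReal (exp (-(q * (A * v ^ (2 : ℕ) + B * (t - v) ^ (2 : ℕ) - l)))) ≤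
      ENNReal.ofReal (g0 q A B t l) := by
  have h := cg_main (l := l) (c0 := 1) (c1 := 0) (c2 := 0) (w := 1) (W := fun _ => 1) hq hA hB ht
    (fun v _ _ => by norm_num) (fun z _ => by norm_num) (fun z _ _ => by norm_num) (by norm_num)
    (fun v _ _ => le_rfl)
  simp only [one_mul, zero_mul, add_zero, mul_one] at h
  exact h

private theorem cg_full {q A B t l a0 a1 a2 : ℝ} (hq : 0 < q) (hA : 0 < A) (hB : 0 < B)
    (h0 : 0 ≤ a0) (h1 : 0 ≤ a1) (h2 : 0 ≤ a2) :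
    ∫⁻ v : ℝ, ENNReal.ofReal ((a0 + a1 * v ^ (2 : ℕ) + a2 * (t - v) ^ (2 : ℕ)) *
        exp (-(q * (A * v ^ (2 : ℕ) + B * (t - v) ^ (2 : ℕ) - l)))) ≤
      ENNReal.ofReal (gG q A B * (a0 + a1 * (gv A B t ^ (2 : ℕ) + gs q A B) +
        a2 * ((t - gv A B t) ^ (2 : ℕ) + gs q A B)) * exp (-(q * (A * B * t ^ (2 : ℕ) / (A + B) - l)))) := by
  have hAB : 0 < A + B := add_pos hA hB
  have hb : 0 < q * (A + B) := mul_pos hq hAB
  set K := exp (-(q * (A * B * t ^ (2 : ℕ) / (A + B) - l))) with hK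
  have hK0 : 0 < K := exp_pos _
  set c := gv A B t with hc
  set F : ℝ → ENNReal := fun v => ENNReal.ofReal ((a0 + a1 * v ^ (2 : ℕ) + a2 * (t - v) ^ (2 : ℕ)) *
    exp (-(q * (A + B) * (v - c) ^ (2 : ℕ)))) with hF
  have hpt : ∀ v : ℝ, ENNReal.ofReal ((a0 + a1 * v ^ (2 : ℕ) + a2 * (t - v) ^ (2 : ℕ)) *
      exp (-(q * (A * v ^ (2 : ℕ) + B * (t - v) ^ (2 : ℕ) - l)))) = ENNReal.ofReal K * F v := by
    intro v
    rw [hF, ← ENNReal.ofReal_mul hK0.le, cg_split hA hB]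
    congr 1
    ring
  have hW : ∀ v : ℝ, 0 ≤ a0 + a1 * v ^ (2 : ℕ) + a2 * (t - v) ^ (2 : ℕ) := fun v => by positivity
  have hsp : ∫⁻ v : ℝ, F v ≤ ENNReal.ofReal (gG q A B * (a0 + a1 * (c ^ (2 : ℕ) + gs q A B) +
      a2 * ((t - c) ^ (2 : ℕ) + gs q A B))) := by
    have e1 := lintegral_add_compl (μ := (volume : Measure ℝ)) F (measurableSet_Ioi (a := c))
    rw [compl_Ioi, setLIntegral_congr (Iio_ae_eq_Iic (μ := volume) (a := c)).symm, lint_Iio,
      lint_Ioi] at e1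
    have hm : Measurable fun z : ℝ => F (z + c) := by
      rw [hF]
      fun_prop
    rw [← e1, ← lintegral_add_left hm]
    have e2 : ∀ z ∈ Ioi (0 : ℝ), F (z + c) + F (c - z) =
        ENNReal.ofReal ((2 * (a0 + a1 * c ^ (2 : ℕ) + a2 * (t - c) ^ (2 : ℕ)) + 0 * z + 2 * (a1 + a2) * z ^ (2 : ℕ)) *
          exp (-(q * (A + B) * z ^ (2 : ℕ)))) := by
      intro z _
      rw [hF]
      simp only
      rw [← ENNReal.ofReal_add (mul_nonneg (hW _) (exp_pos _).le) (mul_nonneg (hW _) (exp_pos _).le)]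
      congr 1
      have e3 : z + c - c = z := by ring
      have e4 : c - z - c = -z := by ring
      rw [e3, e4, neg_sq]
      ring
    rw [setLIntegral_congr_fun measurableSet_Ioi e2]
    refine (half_le (c0 := 2 * (a0 + a1 * c ^ (2 : ℕ) + a2 * (t - c) ^ (2 : ℕ))) (c1 := 0) (c2 := 2 * (a1 + a2))
      hb (fun z _ => by positivity) fun z hz => le_rfl).trans (le_of_eq ?_)
    congr 1
    unfold gG gs
    have hne : q * (A + B) ≠ 0 := hb.ne'
    field_simp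
    ring
  calc ∫⁻ v : ℝ, ENNReal.ofReal ((a0 + a1 * v ^ (2 : ℕ) + a2 * (t - v) ^ (2 : ℕ)) *
        exp (-(q * (A * v ^ (2 : ℕ) + B * (t - v) ^ (2 : ℕ) - l)))) = ∫⁻ v : ℝ, ENNReal.ofReal K * F v :=
        lintegral_congr fun v => hpt v
    _ = ENNReal.ofReal K * ∫⁻ v : ℝ, F v := lintegral_const_mul' _ _ ENNReal.ofReal_ne_top
    _ ≤ ENNReal.ofReal K * ENNReal.ofReal (gG q A B * (a0 + a1 * (c ^ (2 : ℕ) + gs q A B) +
      a2 * ((t - c) ^ (2 : ℕ) + gs q A B))) := mul_le_mul_right hsp _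
    _ = _ := by
        rw [← ENNReal.ofReal_mul hK0.le]
        congr 1
        ring

/-- `∫_ℝ (a0 + a1 v² + a2 (t-v)²) exp(-q (A v² + B (t-v)² - l))`: exact second moments -/
theorem gfull_le {q A B t l a0 a1 a2 : ℝ} (hq : 0 < q) (hA : 0 < A) (hB : 0 < B)
    (h0 : 0 ≤ a0) (h1 : 0 ≤ a1) (h2 : 0 ≤ a2) :
    ∫⁻ v : ℝ, ENNReal.ofReal ((a0 + a1 * v ^ (2 : ℕ) + a2 * (t - v) ^ (2 : ℕ)) *
        exp (-(q * (A * v ^ (2 : ℕ) + B * (t - v) ^ (2 : ℕ) - l)))) ≤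
      ENNReal.ofReal (gG q A B * (a0 + a1 * (gv A B t ^ (2 : ℕ) + gs q A B) +
        a2 * ((t - gv A B t) ^ (2 : ℕ) + gs q A B)) * exp (-(q * (A * B * t ^ (2 : ℕ) / (A + B) - l)))) :=
  cg_full hq hA hB h0 h1 h2

/-- `∫_[0,t] (a0 + a1 v² + a2 (t-v)²) exp(-q (A v² + B (t-v)² - l)) ≤ gW` -/
theorem gW_le {q A B t l a0 a1 a2 : ℝ} (hq : 0 < q) (hA : 0 < A) (hB : 0 < B) (ht : 0 ≤ t)
    (h0 : 0 ≤ a0) (h1 : 0 ≤ a1) (h2 : 0 ≤ a2) :
    ∫⁻ v in Icc 0 t, ENNReal.ofReal ((a0 + a1 * v ^ (2 : ℕ) + a2 * (t - v) ^ (2 : ℕ)) *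
        exp (-(q * (A * v ^ (2 : ℕ) + B * (t - v) ^ (2 : ℕ) - l)))) ≤
      ENNReal.ofReal (gW q A B t l a0 a1 a2) := by
  have hAB : 0 < A + B := add_pos hA hB
  have hb : 0 < q * (A + B) := mul_pos hq hAB
  have hgv := gv_le hA hB ht
  have hgv0 := gv_nonneg hA hB ht
  have f1 : ∫⁻ v in Icc 0 t, ENNReal.ofReal ((a0 + a1 * v ^ (2 : ℕ) + a2 * (t - v) ^ (2 : ℕ)) *
        exp (-(q * (A * v ^ (2 : ℕ) + B * (t - v) ^ (2 : ℕ) - l)))) ≤
      ENNReal.ofReal (gG q A B * (a0 + a1 * (gv A B t ^ (2 : ℕ) + gs q A B) +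
        a2 * ((t - gv A B t) ^ (2 : ℕ) + gs q A B)) * exp (-(q * (A * B * t ^ (2 : ℕ) / (A + B) - l)))) :=
    (setLIntegral_le_lintegral _ _).trans (cg_full hq hA hB h0 h1 h2)
  have f2 := cg_main (l := l) (c0 := a0 + a1 * gv A B t ^ (2 : ℕ) + a2 * (t - gv A B t) ^ (2 : ℕ))
    (c1 := 2 * a2 * (t - gv A B t)) (c2 := a1 + a2) (w := a0 + a1 * t ^ (2 : ℕ) + a2 * (t - gv A B t) ^ (2 : ℕ))
    (W := fun v => a0 + a1 * v ^ (2 : ℕ) + a2 * (t - v) ^ (2 : ℕ)) hq hA hB ht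
    (fun v _ _ => by positivity)
    (fun z hz => by
      have : 0 ≤ t - gv A B t := by linarith
      positivity)
    (fun z hz hz2 => by
      have := mul_nonneg h1 (mul_nonneg hgv0 hz)
      linarith only [this])
    (by positivity)
    (fun v hv hv2 => by
      have e1 : v ^ (2 : ℕ) ≤ t ^ (2 : ℕ) := pow_le_pow_left₀ (by linarith) hv2 2
      have e2 : (t - v) ^ (2 : ℕ) ≤ (t - gv A B t) ^ (2 : ℕ) := pow_le_pow_left₀ (by linarith) (by linarith) 2
      have e3 := mul_le_mul_of_nonneg_left e1 h1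
      have e4 := mul_le_mul_of_nonneg_left e2 h2
      linarith)
  have e5 : gs q A B = gG q A B / 2 * (2 * √(2 * gs q A B / π)) / 2 := by
    unfold gG gs
    have e6 : 2 * (1 / (2 * q * (A + B))) / π = 1 / (q * (A + B) * π) := by
      field_simp
    rw [e6, sqrt_div pi_pos.le, sqrt_div zero_le_one, sqrt_one, sqrt_mul hb.le]
    have hs1 : 0 < √(q * (A + B)) := sqrt_pos.2 hb
    have hs2 : 0 < √π := sqrt_pos.2 pi_pos
    have hs3 : √(q * (A + B)) ^ (2 : ℕ) = q * (A + B) := sq_sqrt hb.le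
    field_simp
    rw [hs3]
  have e7 : ((a0 + a1 * gv A B t ^ (2 : ℕ) + a2 * (t - gv A B t) ^ (2 : ℕ)) * (gG q A B / 2) +
      2 * a2 * (t - gv A B t) * gs q A B + (a1 + a2) * (gG q A B / 2 * gs q A B) +
        gr q A B t * (a0 + a1 * t ^ (2 : ℕ) + a2 * (t - gv A B t) ^ (2 : ℕ))) =
      gG q A B / 2 * (a0 + a1 * (gv A B t ^ (2 : ℕ) + gs q A B) +
        a2 * ((t - gv A B t) ^ (2 : ℕ) + 2 * (t - gv A B t) * √(2 * gs q A B / π) + gs q A B)) +
      gr q A B t * (a0 + a1 * t ^ (2 : ℕ) + a2 * (t - gv A B t) ^ (2 : ℕ)) := by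
    linear_combination (2 * a2 * (t - gv A B t)) * e5
  rw [e7] at f2
  unfold gW
  rcases le_total (gG q A B * (a0 + a1 * (gv A B t ^ (2 : ℕ) + gs q A B) +
        a2 * ((t - gv A B t) ^ (2 : ℕ) + gs q A B))) (gG q A B / 2 * (a0 + a1 * (gv A B t ^ (2 : ℕ) + gs q A B) +
        a2 * ((t - gv A B t) ^ (2 : ℕ) + 2 * (t - gv A B t) * √(2 * gs q A B / π) + gs q A B)) +
      gr q A B t * (a0 + a1 * t ^ (2 : ℕ) + a2 * (t - gv A B t) ^ (2 : ℕ))) with h | h
  · rw [min_eq_left h]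
    exact f1
  · rw [min_eq_right h]
    exact f2

/-! ## half Gaussians with a slope -/

/-- `∫_[0,∞) e^(-b z - B z²) ≤ h0` -/
theorem h0_le {b B : ℝ} (hb : 0 ≤ b) (hB : 0 < B) :
    ∫⁻ z in Ioi (0 : ℝ), ENNReal.ofReal (exp (-(b * z + B * z ^ (2 : ℕ)))) ≤
      ENNReal.ofReal (SokamCen.h0 b B) := by
  have f1 : ∫⁻ z in Ioi (0 : ℝ), ENNReal.ofReal (exp (-(b * z + B * z ^ (2 : ℕ)))) ≤
      ENNReal.ofReal (√(π / B) / 2) := by
    refine (half_le (c0 := 1) (c1 := 0) (c2 := 0) hB (fun z _ => by norm_num) fun z hz => ?_).trans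
      (le_of_eq ?_)
    · simp only [zero_mul, add_zero, one_mul]
      refine exp_le_exp.2 ?_
      have := mul_nonneg hb (le_of_lt hz)
      linarith
    · congr 1
      ring
  have f2 : ∫⁻ z in Ioi (0 : ℝ), ENNReal.ofReal (exp (-(b * z + B * z ^ (2 : ℕ)))) ≤
      ENNReal.ofReal (√(π / B) / 2 - b / (2 * B) + b ^ (2 : ℕ) * √(π / B) / (8 * B)) := by
    refine (half_le (c0 := 1) (c1 := -b) (c2 := b ^ (2 : ℕ) / 2) hB (fun z _ => by
      linarith only [sq_nonneg (b * z - 1)]) fun z hz => ?_).trans (le_of_eq ?_)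
    · have h1 := SokamF1G.en_le2 (x := b * z) (mul_nonneg hb (le_of_lt hz))
      have e : exp (-(b * z + B * z ^ (2 : ℕ))) = exp (-(b * z)) * exp (-(B * z ^ (2 : ℕ))) := by
        rw [← exp_add]
        congr 1
        ring
      rw [e]
      refine mul_le_mul_of_nonneg_right (h1.trans (le_of_eq (by ring))) (exp_pos _).le
    · congr 1
      field_simp
      ring
  unfold SokamCen.h0
  rcases le_total (√(π / B) / 2) (√(π / B) / 2 - b / (2 * B) + b ^ (2 : ℕ) * √(π / B) / (8 * B)) with h | h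
  · rwa [min_eq_left h]
  · rwa [min_eq_right h]

/-- `∫_[0,∞) z e^(-B z²) = h1` -/
theorem h1_le {b B : ℝ} (hb : 0 ≤ b) (hB : 0 < B) :
    ∫⁻ z in Ioi (0 : ℝ), ENNReal.ofReal (z * exp (-(b * z + B * z ^ (2 : ℕ)))) ≤
      ENNReal.ofReal (SokamCen.h1 B) := by
  refine (half_le (c0 := 0) (c1 := 1) (c2 := 0) hB (fun z hz => by simpa using le_of_lt hz)
    fun z hz => ?_).trans (le_of_eq ?_)
  · simp only [zero_add, one_mul, zero_mul, add_zero]
    refine mul_le_mul_of_nonneg_left (exp_le_exp.2 ?_) (le_of_lt hz)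
    have := mul_nonneg hb (le_of_lt hz)
    linarith
  · unfold SokamCen.h1
    congr 1
    ring

/-- `∫_[0,∞) z² e^(-B z²) = h2` -/
theorem h2_le {b B : ℝ} (hb : 0 ≤ b) (hB : 0 < B) :
    ∫⁻ z in Ioi (0 : ℝ), ENNReal.ofReal (z ^ (2 : ℕ) * exp (-(b * z + B * z ^ (2 : ℕ)))) ≤
      ENNReal.ofReal (SokamCen.h2 B) := by
  refine (half_le (c0 := 0) (c1 := 0) (c2 := 1) hB (fun z hz => by simpa using sq_nonneg z)
    fun z hz => ?_).trans (le_of_eq ?_)
  · simp only [zero_add, one_mul, zero_mul]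
    refine mul_le_mul_of_nonneg_left (exp_le_exp.2 ?_) (sq_nonneg z)
    have := mul_nonneg hb (le_of_lt hz)
    linarith
  · unfold SokamCen.h2
    congr 1
    ring

/-- all three at once: weight `a0 + a1 z + a2 z²` -/
theorem hW_le {b B a0 a1 a2 : ℝ} (hb : 0 ≤ b) (hB : 0 < B) (h0 : 0 ≤ a0) (h1 : 0 ≤ a1)
    (h2 : 0 ≤ a2) :
    ∫⁻ z in Ioi (0 : ℝ), ENNReal.ofReal ((a0 + a1 * z + a2 * z ^ (2 : ℕ)) *
      exp (-(b * z + B * z ^ (2 : ℕ)))) ≤
      ENNReal.ofReal (a0 * SokamCen.h0 b B + a1 * SokamCen.h1 B + a2 * SokamCen.h2 B) := by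
  have hh0 : 0 ≤ SokamCen.h0 b B := by
    unfold SokamCen.h0
    refine le_min (by positivity) ?_
    have := half_nonneg (c0 := 1) (c1 := -b) (c2 := b ^ (2 : ℕ) / 2) hB (fun z _ => by
      linarith only [sq_nonneg (b * z - 1)])
    refine this.trans (le_of_eq ?_)
    field_simp
    ring
  have hh1 : 0 ≤ SokamCen.h1 B := by
    unfold SokamCen.h1
    positivity
  have hh2 : 0 ≤ SokamCen.h2 B := by
    unfold SokamCen.h2
    positivity
  have hm0 : Measurable fun z : ℝ => ENNReal.ofReal a0 * ENNReal.ofReal (exp (-(b * z + B * z ^ (2 : ℕ)))) := by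
    fun_prop
  have hm1 : Measurable fun z : ℝ => ENNReal.ofReal a0 * ENNReal.ofReal (exp (-(b * z + B * z ^ (2 : ℕ)))) +
      ENNReal.ofReal a1 * ENNReal.ofReal (z * exp (-(b * z + B * z ^ (2 : ℕ)))) := by
    fun_prop
  calc ∫⁻ z in Ioi (0 : ℝ), ENNReal.ofReal ((a0 + a1 * z + a2 * z ^ (2 : ℕ)) *
        exp (-(b * z + B * z ^ (2 : ℕ))))
      = ∫⁻ z in Ioi (0 : ℝ), ((ENNReal.ofReal a0 * ENNReal.ofReal (exp (-(b * z + B * z ^ (2 : ℕ)))) +
          ENNReal.ofReal a1 * ENNReal.ofReal (z * exp (-(b * z + B * z ^ (2 : ℕ))))) +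
          ENNReal.ofReal a2 * ENNReal.ofReal (z ^ (2 : ℕ) * exp (-(b * z + B * z ^ (2 : ℕ))))) := by
        refine setLIntegral_congr_fun measurableSet_Ioi fun z hz => ?_
        have hz' : 0 ≤ z := le_of_lt hz
        have he : 0 ≤ exp (-(b * z + B * z ^ (2 : ℕ))) := (exp_pos _).le
        rw [← ENNReal.ofReal_mul h0, ← ENNReal.ofReal_mul h1, ← ENNReal.ofReal_mul h2,
          ← ENNReal.ofReal_add (by positivity) (by positivity),
          ← ENNReal.ofReal_add (by positivity) (by positivity)]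
        congr 1
        ring
    _ = ENNReal.ofReal a0 * (∫⁻ z in Ioi (0 : ℝ), ENNReal.ofReal (exp (-(b * z + B * z ^ (2 : ℕ))))) +
        ENNReal.ofReal a1 * (∫⁻ z in Ioi (0 : ℝ), ENNReal.ofReal (z * exp (-(b * z + B * z ^ (2 : ℕ))))) +
        ENNReal.ofReal a2 * (∫⁻ z in Ioi (0 : ℝ),
          ENNReal.ofReal (z ^ (2 : ℕ) * exp (-(b * z + B * z ^ (2 : ℕ))))) := by
        rw [lintegral_add_left hm1, lintegral_add_left hm0,
          lintegral_const_mul' _ _ ENNReal.ofReal_ne_top, lintegral_const_mul' _ _ ENNReal.ofReal_ne_top,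
          lintegral_const_mul' _ _ ENNReal.ofReal_ne_top]
    _ ≤ ENNReal.ofReal a0 * ENNReal.ofReal (SokamCen.h0 b B) +
        ENNReal.ofReal a1 * ENNReal.ofReal (SokamCen.h1 B) +
        ENNReal.ofReal a2 * ENNReal.ofReal (SokamCen.h2 B) :=
        add_le_add (add_le_add (mul_le_mul_right (h0_le hb hB) _) (mul_le_mul_right (h1_le hb hB) _))
          (mul_le_mul_right (h2_le hb hB) _)
    _ = _ := by
        rw [← ENNReal.ofReal_mul h0, ← ENNReal.ofReal_mul h1, ← ENNReal.ofReal_mul h2,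
          ← ENNReal.ofReal_add (by positivity) (by positivity),
          ← ENNReal.ofReal_add (by positivity) (by positivity)]

end SokamCen

end

/-! ### Lib_MP_af4de1_v3.CenHalf -/

section
/-!
# CEN: half Gaussians with slope and one-sided zones (helper69)

`Zone.above`, `Zone.below`: a zone `S` on one side of the point `c`, `z = s - c` resp. `z = c - s`,
`Dm ≥ a0 + b z + B z²`, `W ≤ c0 + c1 z + c2 z²`, `e^a ≤ e0`.
`Zone.ray_above`, `Zone.ray_below`: the same with `B = 0`.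
-/

set_option autoImplicit false

namespace SokamCen

open Real MeasureTheory Set

/-! ## integrals over `(0, ∞)` -/

theorem half_z1 {B : ℝ} (hB : 0 < B) : ∫ z in Ioi (0 : ℝ), z * exp (-(B * z ^ (2 : ℕ))) = 1 / (2 * B) := by
  have h := integral_rpow_mul_exp_neg_mul_rpow (p := 2) (q := 1) (b := B) (by norm_num)
    (by norm_num) hB
  have e : ∫ z in Ioi (0 : ℝ), z * exp (-(B * z ^ (2 : ℕ))) =
      ∫ s in Ioi (0 : ℝ), s ^ (1 : ℝ) * Real.exp (-B * s ^ (2 : ℝ)) := by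
    refine setIntegral_congr_fun measurableSet_Ioi fun s _ => ?_
    simp only [Real.rpow_one, Real.rpow_two, neg_mul]
  rw [e, h]
  norm_num
  rw [Real.rpow_neg_one]

theorem half_z0 (B : ℝ) : ∫ z in Ioi (0 : ℝ), exp (-(B * z ^ (2 : ℕ))) = √(π / B) / 2 := by
  rw [← integral_gaussian_Ioi B]
  simp only [neg_mul]

theorem half_z2 {B : ℝ} (hB : 0 < B) :
    ∫ z in Ioi (0 : ℝ), z ^ (2 : ℕ) * exp (-(B * z ^ (2 : ℕ))) = √(π / B) / (4 * B) := by
  have h := integral_rpow_mul_exp_neg_mul_rpow (p := 2) (q := 2) (b := B) (by norm_num)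
    (by norm_num) hB
  have e : ∫ z in Ioi (0 : ℝ), z ^ (2 : ℕ) * exp (-(B * z ^ (2 : ℕ))) =
      ∫ s in Ioi (0 : ℝ), s ^ (2 : ℝ) * Real.exp (-B * s ^ (2 : ℝ)) := by
    refine setIntegral_congr_fun measurableSet_Ioi fun s _ => ?_
    simp only [Real.rpow_two, neg_mul]
  rw [e, h]
  have h3 : Real.Gamma ((2 + 1) / 2) = √π / 2 := by
    have h4 : ((2 + 1) / 2 : ℝ) = 1 / 2 + 1 := by norm_num
    rw [h4, Real.Gamma_add_one (by norm_num), Real.Gamma_one_half_eq]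
    ring
  rw [h3]
  have h5 : (B : ℝ) ^ (-(2 + 1) / 2 : ℝ) = B⁻¹ * (√B)⁻¹ := by
    have h6 : (-(2 + 1) / 2 : ℝ) = -1 + -(1 / 2) := by norm_num
    rw [h6, Real.rpow_add (by positivity), Real.rpow_neg_one, Real.rpow_neg (by positivity),
      ← Real.sqrt_eq_rpow]
  have h7 : √(π / B) = √π * (√B)⁻¹ := by
    rw [Real.sqrt_div Real.pi_pos.le, div_eq_mul_inv]
  rw [h5, h7]
  field_simp
  ring

theorem half_i0 {B : ℝ} (hB : 0 < B) : IntegrableOn (fun z : ℝ => exp (-(B * z ^ (2 : ℕ)))) (Ioi 0) := by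
  have h := (integrable_exp_neg_mul_sq hB).integrableOn (s := Ioi 0)
  simpa only [neg_mul] using h

theorem half_i1 {B : ℝ} (hB : 0 < B) :
    IntegrableOn (fun z : ℝ => z * exp (-(B * z ^ (2 : ℕ)))) (Ioi 0) := by
  have h := (integrable_mul_exp_neg_mul_sq hB).integrableOn (s := Ioi 0)
  simpa only [neg_mul] using h

theorem half_i2 {B : ℝ} (hB : 0 < B) :
    IntegrableOn (fun z : ℝ => z ^ (2 : ℕ) * exp (-(B * z ^ (2 : ℕ)))) (Ioi 0) := by
  have h := integrableOn_rpow_mul_exp_neg_mul_sq hB (s := 2) (by norm_num)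
  simpa only [neg_mul, Real.rpow_two] using h

/-- all three at once -/
theorem half_poly {B : ℝ} (hB : 0 < B) (a0 a1 a2 : ℝ) :
    IntegrableOn (fun z : ℝ => (a0 + a1 * z + a2 * z ^ (2 : ℕ)) * exp (-(B * z ^ (2 : ℕ)))) (Ioi 0) ∧
    ∫ z in Ioi (0 : ℝ), (a0 + a1 * z + a2 * z ^ (2 : ℕ)) * exp (-(B * z ^ (2 : ℕ))) =
      a0 * (√(π / B) / 2) + a1 * (1 / (2 * B)) + a2 * (√(π / B) / (4 * B)) := by
  have i0 := (half_i0 hB).const_mul a0
  have i1 := (half_i1 hB).const_mul a1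
  have i2 := (half_i2 hB).const_mul a2
  have e : (fun z : ℝ => (a0 + a1 * z + a2 * z ^ (2 : ℕ)) * exp (-(B * z ^ (2 : ℕ)))) = fun z =>
      a0 * exp (-(B * z ^ (2 : ℕ))) + a1 * (z * exp (-(B * z ^ (2 : ℕ)))) +
        a2 * (z ^ (2 : ℕ) * exp (-(B * z ^ (2 : ℕ)))) := by
    funext z
    ring
  rw [e]
  refine ⟨(i0.add i1).add i2, ?_⟩
  have h01 : IntegrableOn (fun z : ℝ => a0 * exp (-(B * z ^ (2 : ℕ))) + a1 * (z * exp (-(B * z ^ (2 : ℕ)))))
      (Ioi 0) := i0.add i1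
  rw [integral_add h01 i2, integral_add i0 i1, integral_const_mul, integral_const_mul,
    integral_const_mul, half_z0, half_z1 hB, half_z2 hB]

/-- lintegral of a nonnegative quadratic polynomial times the Gaussian -/
theorem lint_poly {B a0 a1 a2 : ℝ} (hB : 0 < B) (h : ∀ z : ℝ, 0 ≤ z → 0 ≤ a0 + a1 * z + a2 * z ^ (2 : ℕ)) :
    ∫⁻ z in Ioi (0 : ℝ), ENNReal.ofReal ((a0 + a1 * z + a2 * z ^ (2 : ℕ)) * exp (-(B * z ^ (2 : ℕ)))) =
      ENNReal.ofReal (a0 * (√(π / B) / 2) + a1 * (1 / (2 * B)) + a2 * (√(π / B) / (4 * B))) := by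
  obtain ⟨hi, he⟩ := half_poly hB a0 a1 a2
  rw [← he, ofReal_integral_eq_lintegral_ofReal hi]
  filter_upwards [ae_restrict_mem measurableSet_Ioi] with z hz
  exact mul_nonneg (h z (le_of_lt hz)) (exp_pos _).le

private theorem exp_neg_le2 {x : ℝ} (hx : 0 ≤ x) : Real.exp (-x) ≤ 1 - x + x ^ (2 : ℕ) / 2 := by
  have h3 := Real.quadratic_le_exp_of_nonneg hx
  rw [Real.exp_neg]
  have h4 : 0 < 1 + x + x ^ (2 : ℕ) / 2 := by positivity
  refine (inv_anti₀ h4 h3).trans ?_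
  rw [inv_le_iff_one_le_mul₀ h4]
  nlinarith [sq_nonneg (x ^ (2 : ℕ))]

theorem lint_h0 {b B : ℝ} (hb : 0 ≤ b) (hB : 0 < B) :
    ∫⁻ z in Ioi (0 : ℝ), ENNReal.ofReal (exp (-(b * z + B * z ^ (2 : ℕ)))) ≤ ENNReal.ofReal (h0 b B) := by
  unfold h0
  rw [ENNReal.ofReal_min]
  refine le_min ?_ ?_
  · have h := lint_poly (a0 := 1) (a1 := 0) (a2 := 0) hB (fun z hz => by norm_num)
    have e : √(π / B) / 2 = 1 * (√(π / B) / 2) + 0 * (1 / (2 * B)) + 0 * (√(π / B) / (4 * B)) := by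
      ring
    rw [e, ← h]
    refine setLIntegral_mono' measurableSet_Ioi fun z hz => ENNReal.ofReal_le_ofReal ?_
    have hz0 : 0 < z := hz
    have : 0 ≤ b * z := by positivity
    rw [zero_mul, zero_mul, add_zero, add_zero, one_mul]
    apply exp_le_exp.2
    linarith only [this]
  · have h := lint_poly (a0 := 1) (a1 := -b) (a2 := b ^ (2 : ℕ) / 2) hB
      (fun z _ => by nlinarith [sq_nonneg (b * z - 1)])
    have e : √(π / B) / 2 - b / (2 * B) + b ^ (2 : ℕ) * √(π / B) / (8 * B) =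
        1 * (√(π / B) / 2) + -b * (1 / (2 * B)) + b ^ (2 : ℕ) / 2 * (√(π / B) / (4 * B)) := by
      field_simp
      ring
    rw [e, ← h]
    refine setLIntegral_mono' measurableSet_Ioi fun z hz => ENNReal.ofReal_le_ofReal ?_
    have hz0 : 0 < z := hz
    have h1 := exp_neg_le2 (show 0 ≤ b * z by positivity)
    have e2 : exp (-(b * z + B * z ^ (2 : ℕ))) = exp (-(b * z)) * exp (-(B * z ^ (2 : ℕ))) := by
      rw [← Real.exp_add]
      congr 1
      ring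
    rw [e2]
    refine mul_le_mul_of_nonneg_right (h1.trans (le_of_eq ?_)) (exp_pos _).le
    ring

theorem h0_nonneg {b B : ℝ} (_hb : 0 ≤ b) (hB : 0 < B) : 0 ≤ h0 b B := by
  unfold h0
  refine le_min (by positivity) ?_
  obtain ⟨-, he⟩ := half_poly hB 1 (-b) (b ^ (2 : ℕ) / 2)
  have e : √(π / B) / 2 - b / (2 * B) + b ^ (2 : ℕ) * √(π / B) / (8 * B) =
      1 * (√(π / B) / 2) + -b * (1 / (2 * B)) + b ^ (2 : ℕ) / 2 * (√(π / B) / (4 * B)) := by
    field_simp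
    ring
  rw [e, ← he]
  refine setIntegral_nonneg measurableSet_Ioi fun z _ => mul_nonneg ?_ (exp_pos _).le
  nlinarith [sq_nonneg (b * z - 1)]

theorem h1_nonneg {B : ℝ} (hB : 0 < B) : 0 ≤ h1 B := by
  unfold h1
  positivity

theorem h2_nonneg {B : ℝ} (hB : 0 < B) : 0 ≤ h2 B := by
  unfold h2
  positivity

/-- the weighted half Gaussian with slope -/
theorem lint_hW {b B c0 c1 c2 : ℝ} (hb : 0 ≤ b) (hB : 0 < B) (k0 : 0 ≤ c0) (k1 : 0 ≤ c1)
    (k2 : 0 ≤ c2) :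
    ∫⁻ z in Ioi (0 : ℝ), ENNReal.ofReal ((c0 + c1 * z + c2 * z ^ (2 : ℕ)) * exp (-(b * z + B * z ^ (2 : ℕ)))) ≤
      ENNReal.ofReal (c0 * h0 b B + c1 * h1 B + c2 * h2 B) := by
  have n0 := h0_nonneg hb hB
  have n1 := h1_nonneg hB
  have n2 := h2_nonneg hB
  have h := lint_poly (a0 := 0) (a1 := c1) (a2 := c2) hB (fun z hz => by positivity)
  have e : ∀ z ∈ Ioi (0 : ℝ), ENNReal.ofReal ((c0 + c1 * z + c2 * z ^ (2 : ℕ)) *
      exp (-(b * z + B * z ^ (2 : ℕ)))) ≤ ENNReal.ofReal c0 * ENNReal.ofReal (exp (-(b * z + B * z ^ (2 : ℕ)))) +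
        ENNReal.ofReal ((0 + c1 * z + c2 * z ^ (2 : ℕ)) * exp (-(B * z ^ (2 : ℕ)))) := by
    intro z hz
    have hz0 : 0 < z := hz
    rw [← ENNReal.ofReal_mul k0, ← ENNReal.ofReal_add (by positivity) (by positivity)]
    refine ENNReal.ofReal_le_ofReal ?_
    have h3 : exp (-(b * z + B * z ^ (2 : ℕ))) ≤ exp (-(B * z ^ (2 : ℕ))) := by
      apply exp_le_exp.2
      have : 0 ≤ b * z := by positivity
      linarith only [this]
    have h4 : 0 ≤ c1 * z + c2 * z ^ (2 : ℕ) := by positivity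
    have h5 := mul_le_mul_of_nonneg_left h3 h4
    linarith only [h5]
  refine (setLIntegral_mono' measurableSet_Ioi e).trans ?_
  have e3 : c0 * h0 b B + c1 * h1 B + c2 * h2 B = c0 * h0 b B +
      (0 * (√(π / B) / 2) + c1 * (1 / (2 * B)) + c2 * (√(π / B) / (4 * B))) := by
    unfold h1 h2
    ring
  rw [lintegral_add_left (by fun_prop), lintegral_const_mul _ (by fun_prop), h, e3,
    ENNReal.ofReal_add (p := c0 * h0 b B) (by positivity) (by positivity), ENNReal.ofReal_mul k0]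
  exact add_le_add (mul_le_mul_right (lint_h0 hb hB) _) le_rfl

/-- the ray -/
theorem ray_poly {b c0 c1 c2 : ℝ} (hb : 0 < b) (k0 : 0 ≤ c0) (k1 : 0 ≤ c1) (k2 : 0 ≤ c2) :
    ∫⁻ z in Ioi (0 : ℝ), ENNReal.ofReal ((c0 + c1 * z + c2 * z ^ (2 : ℕ)) * exp (-(b * z))) ≤
      ENNReal.ofReal (c0 / b + c1 / b ^ (2 : ℕ) + c2 * (2 / b ^ (3 : ℕ))) := by
  have key : ∀ n : ℕ, IntegrableOn (fun z : ℝ => z ^ n * exp (-(b * z))) (Ioi 0) ∧
      ∫ z in Ioi (0 : ℝ), z ^ n * exp (-(b * z)) = (n.factorial : ℝ) / b ^ (n + 1) := by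
    intro n
    have h1 := integral_rpow_mul_exp_neg_mul_Ioi (a := (n : ℝ) + 1) (r := b) (by positivity) hb
    have h2 := integrableOn_rpow_mul_exp_neg_mul_rpow (p := 1) (s := (n : ℝ)) (b := b)
      (by linarith only []) one_pos hb
    constructor
    · refine h2.congr_fun (fun z _ => ?_) measurableSet_Ioi
      simp only [Real.rpow_natCast, Real.rpow_one]
      congr 2
      ring
    · have e : ∫ z in Ioi (0 : ℝ), z ^ n * exp (-(b * z)) =
          ∫ t in Ioi (0 : ℝ), t ^ ((n : ℝ) + 1 - 1) * exp (-(b * t)) := by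
        refine setIntegral_congr_fun measurableSet_Ioi fun z _ => ?_
        simp only [add_sub_cancel_right, Real.rpow_natCast]
      rw [e, h1, Real.Gamma_nat_eq_factorial]
      have : ((n : ℝ) + 1) = ((n + 1 : ℕ) : ℝ) := by push_cast; ring
      rw [this, Real.rpow_natCast, one_div, inv_pow, div_eq_inv_mul]
  obtain ⟨i0, e0⟩ := key 0
  obtain ⟨i1, e1⟩ := key 1
  obtain ⟨i2, e2⟩ := key 2
  have j0 := i0.const_mul c0
  have j1 := i1.const_mul c1
  have j2 := i2.const_mul c2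
  have j01 : IntegrableOn (fun z : ℝ => c0 * (z ^ (0 : ℕ) * exp (-(b * z))) +
      c1 * (z ^ (1 : ℕ) * exp (-(b * z)))) (Ioi 0) := j0.add j1
  have e : (fun z : ℝ => (c0 + c1 * z + c2 * z ^ (2 : ℕ)) * exp (-(b * z))) = fun z =>
      c0 * (z ^ (0 : ℕ) * exp (-(b * z))) + c1 * (z ^ (1 : ℕ) * exp (-(b * z))) +
        c2 * (z ^ (2 : ℕ) * exp (-(b * z))) := by
    funext z
    ring
  have hi : IntegrableOn (fun z : ℝ => (c0 + c1 * z + c2 * z ^ (2 : ℕ)) * exp (-(b * z))) (Ioi 0) := by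
    rw [e]
    exact j01.add j2
  have he : ∫ z in Ioi (0 : ℝ), (c0 + c1 * z + c2 * z ^ (2 : ℕ)) * exp (-(b * z)) =
      c0 / b + c1 / b ^ (2 : ℕ) + c2 * (2 / b ^ (3 : ℕ)) := by
    rw [e, integral_add j01 j2, integral_add j0 j1, integral_const_mul, integral_const_mul,
      integral_const_mul, e0, e1, e2]
    norm_num [Nat.factorial]
    ring
  rw [← he, ofReal_integral_eq_lintegral_ofReal hi]
  filter_upwards [ae_restrict_mem measurableSet_Ioi] with z hz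
  have hz0 : 0 < z := hz
  positivity

/-! ## one side of a point -/

theorem lint_above {S : Set ℝ} (mS : MeasurableSet S) {F G : ℝ → ℝ} {c : ℝ}
    (h : ∀ s ∈ S, c ≤ s ∧ F s ≤ G (s - c)) :
    ∫⁻ s in S, ENNReal.ofReal (F s) ≤ ∫⁻ z in Ioi (0 : ℝ), ENNReal.ofReal (G z) := by
  rw [setLIntegral_congr (Ioi_ae_eq_Ici (μ := volume) (a := (0 : ℝ))), ← lintegral_indicator mS,
    ← lintegral_add_left_eq_self (μ := volume) _ c, ← lintegral_indicator measurableSet_Ici]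
  refine lintegral_mono fun z => ?_
  by_cases hz : c + z ∈ S
  · obtain ⟨h1, h2⟩ := h _ hz
    have hz0 : z ∈ Ici (0 : ℝ) := by
      simp only [mem_Ici]
      linarith only [h1]
    rw [indicator_of_mem hz, indicator_of_mem hz0]
    rw [add_sub_cancel_left] at h2
    exact ENNReal.ofReal_le_ofReal h2
  · rw [indicator_of_notMem hz]
    exact bot_le

theorem lint_below {S : Set ℝ} (mS : MeasurableSet S) {F G : ℝ → ℝ} {c : ℝ}
    (h : ∀ s ∈ S, s ≤ c ∧ F s ≤ G (c - s)) :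
    ∫⁻ s in S, ENNReal.ofReal (F s) ≤ ∫⁻ z in Ioi (0 : ℝ), ENNReal.ofReal (G z) := by
  rw [setLIntegral_congr (Ioi_ae_eq_Ici (μ := volume) (a := (0 : ℝ))), ← lintegral_indicator mS,
    ← lintegral_sub_left_eq_self (μ := volume) _ c, ← lintegral_indicator measurableSet_Ici]
  refine lintegral_mono fun z => ?_
  by_cases hz : c - z ∈ S
  · obtain ⟨h1, h2⟩ := h _ hz
    have hz0 : z ∈ Ici (0 : ℝ) := by
      simp only [mem_Ici]
      linarith only [h1]
    rw [indicator_of_mem hz, indicator_of_mem hz0]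
    rw [sub_sub_cancel] at h2
    exact ENNReal.ofReal_le_ofReal h2
  · rw [indicator_of_notMem hz]
    exact bot_le

/-- the bounds over `(0, ∞)` from which a zone is made -/
private theorem zone_of {q m ρ θ a0 b B e0 c0 c1 c2 : ℝ} {w : ℂ} {S : Set ℝ} {σ : ℝ → ℝ}
    (hL : ∀ F G : ℝ → ℝ, (∀ s ∈ S, F s ≤ G (σ s)) →
      ∫⁻ s in S, ENNReal.ofReal (F s) ≤ ∫⁻ z in Ioi (0 : ℝ), ENNReal.ofReal (G z))
    (hσ : ∀ s ∈ S, 0 ≤ σ s) (hq : 0 ≤ q) (hb : 0 ≤ q * b) (hB : 0 < q * B) (k0 : 0 ≤ c0)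
    (k1 : 0 ≤ c1) (k2 : 0 ≤ c2) (ke : 0 ≤ e0)
    (hD : ∀ s ∈ S, a0 + b * σ s + B * σ s ^ (2 : ℕ) ≤ Dm m ρ θ s)
    (hW : ∀ s ∈ S, Wm m θ w s ≤ c0 + c1 * σ s + c2 * σ s ^ (2 : ℕ))
    (hE : ∀ s ∈ S, exp (pm m s) ≤ e0) :
    Zone q m ρ θ w S (exp (-(q * a0)) * h0 (q * b) (q * B))
      (exp (-(q * a0)) * (c0 * h0 (q * b) (q * B) + c1 * h1 (q * B) + c2 * h2 (q * B)))
      (e0 * (exp (-(q * a0)) * h0 (q * b) (q * B))) := by
  have hx : ∀ s ∈ S, exp (-(q * Dm m ρ θ s)) ≤ exp (-(q * a0)) *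
      exp (-(q * b * σ s + q * B * σ s ^ (2 : ℕ))) := by
    intro s hs
    rw [← Real.exp_add]
    apply exp_le_exp.2
    have := mul_le_mul_of_nonneg_left (hD s hs) hq
    linarith only [this]
  have hp := exp_pos (-(q * a0))
  have i0 : ∫⁻ s in S, ENNReal.ofReal (exp (-(q * Dm m ρ θ s))) ≤
      ENNReal.ofReal (exp (-(q * a0)) * h0 (q * b) (q * B)) := by
    refine (hL _ (fun z => exp (-(q * a0)) * exp (-(q * b * z + q * B * z ^ (2 : ℕ)))) hx).trans ?_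
    simp_rw [ENNReal.ofReal_mul hp.le]
    rw [lintegral_const_mul _ (by fun_prop)]
    exact mul_le_mul_right (lint_h0 hb hB) _
  refine ⟨i0, ?_, ?_⟩
  · refine (hL _ (fun z => exp (-(q * a0)) * ((c0 + c1 * z + c2 * z ^ (2 : ℕ)) *
      exp (-(q * b * z + q * B * z ^ (2 : ℕ))))) fun s hs => ?_).trans ?_
    · have h1 := hσ s hs
      calc Wm m θ w s * exp (-(q * Dm m ρ θ s)) ≤ (c0 + c1 * σ s + c2 * σ s ^ (2 : ℕ)) *
            (exp (-(q * a0)) * exp (-(q * b * σ s + q * B * σ s ^ (2 : ℕ)))) :=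
            mul_le_mul (hW s hs) (hx s hs) (exp_pos _).le (by positivity)
        _ = _ := by ring
    · simp_rw [ENNReal.ofReal_mul hp.le]
      rw [lintegral_const_mul _ (by fun_prop)]
      exact mul_le_mul_right (lint_hW hb hB k0 k1 k2) _
  · refine (hL _ (fun z => e0 * (exp (-(q * a0)) * exp (-(q * b * z + q * B * z ^ (2 : ℕ)))))
      fun s hs => ?_).trans ?_
    · exact mul_le_mul (hE s hs) (hx s hs) (exp_pos _).le ke
    · simp_rw [ENNReal.ofReal_mul ke, ENNReal.ofReal_mul hp.le]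
      rw [lintegral_const_mul _ (by fun_prop), lintegral_const_mul _ (by fun_prop)]
      exact mul_le_mul_right (mul_le_mul_right (lint_h0 hb hB) _) _

/-- A zone above `c` : `z = s - c`. -/
theorem Zone.above {q m ρ θ c a0 b B e0 c0 c1 c2 : ℝ} {w : ℂ} {S : Set ℝ} (mS : MeasurableSet S)
    (hq : 0 < q) (hb : 0 ≤ b) (hB : 0 < B) (k0 : 0 ≤ c0) (k1 : 0 ≤ c1) (k2 : 0 ≤ c2)
    (ke : 0 ≤ e0) (hS : ∀ s ∈ S, c ≤ s)
    (hD : ∀ s ∈ S, a0 + b * (s - c) + B * (s - c) ^ (2 : ℕ) ≤ Dm m ρ θ s)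
    (hW : ∀ s ∈ S, Wm m θ w s ≤ c0 + c1 * (s - c) + c2 * (s - c) ^ (2 : ℕ))
    (hE : ∀ s ∈ S, exp (pm m s) ≤ e0) :
    Zone q m ρ θ w S (exp (-(q * a0)) * h0 (q * b) (q * B))
      (exp (-(q * a0)) * (c0 * h0 (q * b) (q * B) + c1 * h1 (q * B) + c2 * h2 (q * B)))
      (e0 * (exp (-(q * a0)) * h0 (q * b) (q * B))) :=
  zone_of (σ := fun s => s - c) (fun _ _ h => lint_above mS fun s hs => ⟨hS s hs, h s hs⟩)
    (fun s hs => by have := hS s hs; linarith only [this]) hq.le (by positivity) (by positivity)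
    k0 k1 k2 ke hD hW hE

/-- A zone below `c` : `z = c - s`. -/
theorem Zone.below {q m ρ θ c a0 b B e0 c0 c1 c2 : ℝ} {w : ℂ} {S : Set ℝ} (mS : MeasurableSet S)
    (hq : 0 < q) (hb : 0 ≤ b) (hB : 0 < B) (k0 : 0 ≤ c0) (k1 : 0 ≤ c1) (k2 : 0 ≤ c2)
    (ke : 0 ≤ e0) (hS : ∀ s ∈ S, s ≤ c)
    (hD : ∀ s ∈ S, a0 + b * (c - s) + B * (c - s) ^ (2 : ℕ) ≤ Dm m ρ θ s)
    (hW : ∀ s ∈ S, Wm m θ w s ≤ c0 + c1 * (c - s) + c2 * (c - s) ^ (2 : ℕ))
    (hE : ∀ s ∈ S, exp (pm m s) ≤ e0) :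
    Zone q m ρ θ w S (exp (-(q * a0)) * h0 (q * b) (q * B))
      (exp (-(q * a0)) * (c0 * h0 (q * b) (q * B) + c1 * h1 (q * B) + c2 * h2 (q * B)))
      (e0 * (exp (-(q * a0)) * h0 (q * b) (q * B))) :=
  zone_of (σ := fun s => c - s) (fun _ _ h => lint_below mS fun s hs => ⟨hS s hs, h s hs⟩)
    (fun s hs => by have := hS s hs; linarith only [this]) hq.le (by positivity) (by positivity)
    k0 k1 k2 ke hD hW hE

private theorem zone_ray {q m ρ θ a0 b e0 c0 c1 c2 : ℝ} {w : ℂ} {S : Set ℝ} {σ : ℝ → ℝ}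
    (hL : ∀ F G : ℝ → ℝ, (∀ s ∈ S, F s ≤ G (σ s)) →
      ∫⁻ s in S, ENNReal.ofReal (F s) ≤ ∫⁻ z in Ioi (0 : ℝ), ENNReal.ofReal (G z))
    (hσ : ∀ s ∈ S, 0 ≤ σ s) (hq : 0 ≤ q) (hb : 0 < q * b) (k0 : 0 ≤ c0)
    (k1 : 0 ≤ c1) (k2 : 0 ≤ c2) (ke : 0 ≤ e0)
    (hD : ∀ s ∈ S, a0 + b * σ s ≤ Dm m ρ θ s)
    (hW : ∀ s ∈ S, Wm m θ w s ≤ c0 + c1 * σ s + c2 * σ s ^ (2 : ℕ))
    (hE : ∀ s ∈ S, exp (pm m s) ≤ e0) :
    Zone q m ρ θ w S (exp (-(q * a0)) * (1 / (q * b)))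
      (exp (-(q * a0)) * (c0 / (q * b) + c1 / (q * b) ^ (2 : ℕ) + c2 * (2 / (q * b) ^ (3 : ℕ))))
      (e0 * (exp (-(q * a0)) * (1 / (q * b)))) := by
  have hx : ∀ s ∈ S, exp (-(q * Dm m ρ θ s)) ≤ exp (-(q * a0)) * exp (-(q * b * σ s)) := by
    intro s hs
    rw [← Real.exp_add]
    apply exp_le_exp.2
    have := mul_le_mul_of_nonneg_left (hD s hs) hq
    linarith only [this]
  have hp := exp_pos (-(q * a0))
  have j0 : ∫⁻ z in Ioi (0 : ℝ), ENNReal.ofReal (exp (-(q * b * z))) ≤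
      ENNReal.ofReal (1 / (q * b)) := by
    have h := ray_poly (b := q * b) (c0 := 1) (c1 := 0) (c2 := 0) hb zero_le_one le_rfl le_rfl
    simpa using h
  have i0 : ∫⁻ s in S, ENNReal.ofReal (exp (-(q * Dm m ρ θ s))) ≤
      ENNReal.ofReal (exp (-(q * a0)) * (1 / (q * b))) := by
    refine (hL _ (fun z => exp (-(q * a0)) * exp (-(q * b * z))) hx).trans ?_
    simp_rw [ENNReal.ofReal_mul hp.le]
    rw [lintegral_const_mul _ (by fun_prop)]
    exact mul_le_mul_right j0 _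
  refine ⟨i0, ?_, ?_⟩
  · refine (hL _ (fun z => exp (-(q * a0)) * ((c0 + c1 * z + c2 * z ^ (2 : ℕ)) *
      exp (-(q * b * z)))) fun s hs => ?_).trans ?_
    · have h1 := hσ s hs
      calc Wm m θ w s * exp (-(q * Dm m ρ θ s)) ≤ (c0 + c1 * σ s + c2 * σ s ^ (2 : ℕ)) *
            (exp (-(q * a0)) * exp (-(q * b * σ s))) :=
            mul_le_mul (hW s hs) (hx s hs) (exp_pos _).le (by positivity)
        _ = _ := by ring
    · simp_rw [ENNReal.ofReal_mul hp.le]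
      rw [lintegral_const_mul _ (by fun_prop)]
      exact mul_le_mul_right (ray_poly hb k0 k1 k2) _
  · refine (hL _ (fun z => e0 * (exp (-(q * a0)) * exp (-(q * b * z))))
      fun s hs => ?_).trans ?_
    · exact mul_le_mul (hE s hs) (hx s hs) (exp_pos _).le ke
    · simp_rw [ENNReal.ofReal_mul ke, ENNReal.ofReal_mul hp.le]
      rw [lintegral_const_mul _ (by fun_prop), lintegral_const_mul _ (by fun_prop)]
      exact mul_le_mul_right (mul_le_mul_right j0 _) _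

/-- A ray above `c`. -/
theorem Zone.ray_above {q m ρ θ c a0 b e0 c0 c1 c2 : ℝ} {w : ℂ} {S : Set ℝ}
    (mS : MeasurableSet S) (hq : 0 < q) (hb : 0 < b) (k0 : 0 ≤ c0) (k1 : 0 ≤ c1) (k2 : 0 ≤ c2)
    (ke : 0 ≤ e0) (hS : ∀ s ∈ S, c ≤ s) (hD : ∀ s ∈ S, a0 + b * (s - c) ≤ Dm m ρ θ s)
    (hW : ∀ s ∈ S, Wm m θ w s ≤ c0 + c1 * (s - c) + c2 * (s - c) ^ (2 : ℕ))
    (hE : ∀ s ∈ S, exp (pm m s) ≤ e0) :
    Zone q m ρ θ w S (exp (-(q * a0)) * (1 / (q * b)))
      (exp (-(q * a0)) * (c0 / (q * b) + c1 / (q * b) ^ (2 : ℕ) + c2 * (2 / (q * b) ^ (3 : ℕ))))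
      (e0 * (exp (-(q * a0)) * (1 / (q * b)))) :=
  zone_ray (σ := fun s => s - c) (fun _ _ h => lint_above mS fun s hs => ⟨hS s hs, h s hs⟩)
    (fun s hs => by have := hS s hs; linarith only [this]) hq.le (by positivity)
    k0 k1 k2 ke hD hW hE

/-- A ray below `c`. -/
theorem Zone.ray_below {q m ρ θ c a0 b e0 c0 c1 c2 : ℝ} {w : ℂ} {S : Set ℝ}
    (mS : MeasurableSet S) (hq : 0 < q) (hb : 0 < b) (k0 : 0 ≤ c0) (k1 : 0 ≤ c1) (k2 : 0 ≤ c2)
    (ke : 0 ≤ e0) (hS : ∀ s ∈ S, s ≤ c) (hD : ∀ s ∈ S, a0 + b * (c - s) ≤ Dm m ρ θ s)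
    (hW : ∀ s ∈ S, Wm m θ w s ≤ c0 + c1 * (c - s) + c2 * (c - s) ^ (2 : ℕ))
    (hE : ∀ s ∈ S, exp (pm m s) ≤ e0) :
    Zone q m ρ θ w S (exp (-(q * a0)) * (1 / (q * b)))
      (exp (-(q * a0)) * (c0 / (q * b) + c1 / (q * b) ^ (2 : ℕ) + c2 * (2 / (q * b) ^ (3 : ℕ))))
      (e0 * (exp (-(q * a0)) * (1 / (q * b)))) :=
  zone_ray (σ := fun s => c - s) (fun _ _ h => lint_below mS fun s hs => ⟨hS s hs, h s hs⟩)
    (fun s hs => by have := hS s hs; linarith only [this]) hq.le (by positivity)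
    k0 k1 k2 ke hD hW hE

end SokamCen

end
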