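import Mathlib.Algebra.Order.Floor.Semifield
import Mathlib.Algebra.Ring.IsFormallyReal
import Mathlib.RingTheory.PowerSeries.Inverse
import Mathlib.Data.Rat.Star
import Mathlib.Geometry.Euclidean.Angle.Unoriented.TriangleInequality
import Mathlib.Analysis.Convex.Contractible
import Mathlib.Analysis.Calculus.Deriv.Star
import Mathlib.MeasureTheory.Integral.Gamma
import Mathlib.Analysis.Complex.LocallyUniformLimit
import Mathlib.Topology.Separation.CompletelyRegular
import Mathlib.RingTheory.Flat.TorsionFree
import Mathlib.MeasureTheory.Order.Group.Lattice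
import Mathlib.Data.Int.Star
import Mathlib.LinearAlgebra.Lagrange
import Mathlib.Analysis.Complex.Angle
import Mathlib.Analysis.Complex.BorelCaratheodory
import Mathlib.Analysis.Complex.CoveringMap
import Mathlib.Topology.Homotopy.Lifting
import Mathlib.Analysis.Complex.ExponentialBounds
import Mathlib.Analysis.Complex.HasPrimitives
import Mathlib.NumberTheory.DiophantineApproximation.Basic
import Mathlib.Analysis.Complex.OpenMapping
import Mathlib.Analysis.SpecialFunctions.Trigonometric.DerivHyp
import Mathlib.RingTheory.SimpleRing.Principal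
import Mathlib.Order.CompletePartialOrder
import Mathlib.Analysis.SpecialFunctions.Complex.LogBounds
import Mathlib.Analysis.SpecialFunctions.Gamma.BohrMollerup
import Mathlib.Analysis.SpecialFunctions.Trigonometric.Series
import Mathlib.Topology.MetricSpace.Sequences
import Mathlib.Analysis.Normed.Group.Tannery
import Mathlib.Analysis.ODE.Gronwall
import Mathlib.Analysis.Real.Pi.Bounds
import Mathlib.Analysis.SpecialFunctions.Gaussian.PoissonSummation
import Mathlib.Analysis.SpecialFunctions.Trigonometric.InverseDeriv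
import Mathlib.RingTheory.TotallySplit
import Mathlib.RingTheory.Etale.Weakly
import Mathlib.Tactic

/-! ### Lib_MP_af4de1_u.Basic -/

section
/-!
# Elementary inequalities for `V`
-/

namespace SokamU

open Complex

variable {k : ℝ} {t : ℂ}

theorem re_one_add (k : ℝ) (t : ℂ) : (1 + t * (k : ℂ)).re = 1 + t.re * k := by simp

theorem im_one_add (k : ℝ) (t : ℂ) : (1 + t * (k : ℂ)).im = t.im * k := by simp

theorem one_le_norm (hk : 0 < k) (ht : 0 ≤ t.re) : 1 ≤ ‖1 + t * (k : ℂ)‖ := by
  have h1 : (1 + t * (k : ℂ)).re ≤ ‖1 + t * (k : ℂ)‖ := Complex.re_le_norm _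
  rw [re_one_add] at h1
  have : 0 ≤ t.re * k := by positivity
  linarith only [h1, this]

theorem tk_le (hk : 0 < k) (ht : 0 ≤ t.re) : ‖t‖ * k ≤ ‖1 + t * (k : ℂ)‖ := by
  have h1 : ‖t‖ * k = ‖t * (k : ℂ)‖ := by
    rw [norm_mul, Complex.norm_real, Real.norm_of_nonneg hk.le]
  rw [h1]
  rw [Complex.norm_def, Complex.norm_def]
  apply Real.sqrt_le_sqrt
  rw [Complex.normSq_apply, Complex.normSq_apply, re_one_add, im_one_add]
  have h2 : (t * (k : ℂ)).re = t.re * k := by simp
  have h3 : (t * (k : ℂ)).im = t.im * k := by simp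
  rw [h2, h3]
  have : 0 ≤ t.re * k := by (clear * - ht hk; positivity)
  linarith only [this]

theorem inv_im_nonneg (ht : 0 < t.re) (hti : t.im ≤ 0) : 0 ≤ (t⁻¹).im := by
  rw [Complex.inv_im]
  exact div_nonneg (by linarith only [hti]) (Complex.normSq_nonneg _)

theorem inv_re_pos (ht : 0 < t.re) : 0 < (t⁻¹).re := by
  rw [Complex.inv_re]
  refine div_pos ht (Complex.normSq_pos.2 ?_)
  rintro rfl
  simp at ht

end SokamU

end
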