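import Pool.Agent.Lib_MP_af4de1_zy.Z04

/-! ### Lib_MP_af4de1_u.Defs -/

section
/-!
# Large multiple zeros of `F(z;q)` near the unit circle: definitions

`E t z = F(z; e^{-t})`, `Re t ≥ 0`.  `DE t = z d/dz E t`.  The point `zp t κ = κ e^{tκ - t/2}` has the
saddle point `κ`, `S t κ = κ + t κ²/2` is the exponent there, `V k t` (`1/V = Re k/(1+tk)`) is the
variance of `arg z` and `Md` the size of `E t` at the centre `zp t k`, `k > 0`.
`f` is the integrand of the Gaussian representation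
`E t (zp t κ e^ξ) √(2πt) = e^{S t κ} ∫ f t κ ξ (i s) ds`, and `cc k t` the slope of the path
`h = a(s) + i s`, `a(s) = cc * clamp(s,-s1,s1)`, used when `Im t ≤ 0`.
-/

namespace SokamU

open Complex

/-- `F(z; e^{-t})`. -/
noncomputable def E (t z : ℂ) : ℂ := SokamF.F (cexp (-t)) z

/-- `z (d/dz) F(z; e^{-t}) = z F(e^{-t} z; e^{-t})`. -/
noncomputable def DE (t z : ℂ) : ℂ := z * E t (cexp (-t) * z)

/-- The point with saddle point `κ`. -/
noncomputable def zp (t κ : ℂ) : ℂ := κ * cexp (t * κ - t / 2)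

/-- The exponent at the saddle point. -/
noncomputable def S (t κ : ℂ) : ℂ := κ + t * κ ^ (2 : ℕ) / 2

/-- `V = |1+tk|²/(k(1+k Re t))`. -/
noncomputable def V (k : ℝ) (t : ℂ) : ℝ := ‖1 + t * (k : ℂ)‖ ^ (2 : ℕ) / (k * (1 + t.re * k))

/-- The normalised value. -/
noncomputable def J (t κ : ℂ) : ℂ := E t (zp t κ) * cexp (-(S t κ))

/-- The size of `E t` at the centre. -/
noncomputable def Md (k : ℝ) (t : ℂ) : ℝ := ‖cexp (S t k)‖ / √‖1 + t * (k : ℂ)‖

/-- The integrand. -/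
noncomputable def f (t κ ξ h : ℂ) : ℂ := cexp (h ^ (2 : ℕ) / (2 * t) + κ * (cexp (ξ + h) - 1 - h))

/-- The slope of the path. -/
noncomputable def cc (k : ℝ) (t : ℂ) : ℝ := min (1 / 4) ((t⁻¹).im / (4 * k))

end SokamU

end
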