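import Pool.Agent.Lib_MP_af4de1_zy.Z19
import Pool.Agent.Lib_MP_af4de1_zy.Z23
import Pool.Agent.Lib_MP_af4de1_zy.Z28

/-! ### Lib_MP_af4de1_u.FContour -/

section
/-!
# The contour shift for the integrand `f` with a multiplier [SU-FCONT]

For `|x| ≤ 1`: `‖f t κ ξ (x+iy)‖ = exp(Re((x+iy)²/(2t)) + Re(κ(e^{ξ+x+iy} - 1 - x - iy)))
≤ K exp(-A y²/2 + C|y|)`, `A = Re(1/t) > 0`, with `C = |Im(1/t)| + ‖κ‖`, `K = exp(A/2 + ‖κ‖(e^{Re ξ+1}+2))`
(`Re((x+iy)²/t)/2 = ((x²-y²) A - 2xy Im(1/t))/2`).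
`(1+|y|)² exp(-A y²/2 + C|y|)` is integrable and tends to `0`.
-/

namespace SokamU

open Complex MeasureTheory Filter Topology

private theorem fc_norm_le {t κ ξ : ℂ} (ht : 0 < t.re) {x y : ℝ} (hx : |x| ≤ 1) :
    ‖f t κ ξ (x + y * I)‖ ≤ Real.exp ((t⁻¹).re / 2 + ‖κ‖ * (Real.exp (ξ.re + 1) + 2)) *
      Real.exp (-((t⁻¹).re / 2 * y ^ (2 : ℕ)) + (|(t⁻¹).im| + ‖κ‖) * |y|) := by
  have hA := inv_re_pos ht
  have hx1 := (abs_le.1 hx).1
  have hx2 := (abs_le.1 hx).2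
  unfold f
  rw [Complex.norm_exp, ← Real.exp_add]
  apply Real.exp_le_exp.2
  rw [Complex.add_re]
  have h1 : (((x : ℂ) + y * I) ^ (2 : ℕ) / (2 * t)).re =
      ((x ^ (2 : ℕ) - y ^ (2 : ℕ)) * (t⁻¹).re - 2 * x * y * (t⁻¹).im) / 2 := by
    have h2 : ((x : ℂ) + y * I) ^ (2 : ℕ) / (2 * t) =
        (((x ^ (2 : ℕ) - y ^ (2 : ℕ) : ℝ) : ℂ) + ((2 * x * y : ℝ) : ℂ) * I) * t⁻¹ * ((1 / 2 : ℝ) : ℂ) := by
      have h3 : ((x : ℂ) + y * I) ^ (2 : ℕ) = (x : ℂ) ^ (2 : ℕ) - (y : ℂ) ^ (2 : ℕ) + 2 * x * y * I := by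
        have := Complex.I_sq
        linear_combination (y : ℂ) ^ (2 : ℕ) * this
      rw [h3, div_eq_mul_inv, mul_inv]
      push_cast
      ring
    rw [h2, Complex.re_mul_ofReal, Complex.mul_re]
    simp only [Complex.add_re, Complex.add_im, Complex.ofReal_re, Complex.ofReal_im,
      Complex.mul_re, Complex.mul_im, Complex.I_re, Complex.I_im]
    ring
  have h4 : (κ * (cexp (ξ + (x + y * I)) - 1 - (x + y * I))).re ≤
      ‖κ‖ * (Real.exp (ξ.re + 1) + 2 + |y|) := by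
    refine (Complex.re_le_norm _).trans ?_
    rw [norm_mul]
    refine mul_le_mul_of_nonneg_left ?_ (norm_nonneg _)
    have h5 : ‖cexp (ξ + (x + y * I))‖ ≤ Real.exp (ξ.re + 1) := by
      rw [Complex.norm_exp]
      apply Real.exp_le_exp.2
      simp only [Complex.add_re, Complex.ofReal_re, Complex.mul_re, Complex.ofReal_im,
        Complex.I_re, Complex.I_im]
      linarith only [hx2]
    have h6 : ‖(x : ℂ) + y * I‖ ≤ 1 + |y| := by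
      refine (norm_add_le _ _).trans ?_
      rw [norm_mul, Complex.norm_I, mul_one, Complex.norm_real, Complex.norm_real,
        Real.norm_eq_abs, Real.norm_eq_abs]
      linarith only [hx]
    calc ‖cexp (ξ + (x + y * I)) - 1 - (x + y * I)‖
        ≤ ‖cexp (ξ + (x + y * I)) - 1‖ + ‖(x : ℂ) + y * I‖ := norm_sub_le _ _
      _ ≤ (‖cexp (ξ + (x + y * I))‖ + ‖(1 : ℂ)‖) + ‖(x : ℂ) + y * I‖ := by
          gcongr
          exact norm_sub_le _ _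
      _ ≤ Real.exp (ξ.re + 1) + 2 + |y| := by
          rw [norm_one]
          linarith only [h5, h6]
  have h7 : -(2 * x * y * (t⁻¹).im) ≤ 2 * (|(t⁻¹).im| * |y|) := by
    have h8 : |x * (y * (t⁻¹).im)| ≤ 1 * (|(t⁻¹).im| * |y|) := by
      rw [abs_mul, abs_mul, mul_comm |y|]
      exact mul_le_mul_of_nonneg_right hx (by positivity)
    have h9 := neg_abs_le (x * (y * (t⁻¹).im))
    linarith only [h8, h9]
  have h10 : x ^ (2 : ℕ) ≤ 1 := by nlinarith only [hx1, hx2]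
  have h11 : x ^ (2 : ℕ) * (t⁻¹).re ≤ (t⁻¹).re := by nlinarith only [hA, h10]
  rw [h1]
  linarith only [h4, h7, h11]

private theorem fc_dom {t : ℂ} (κ ξ : ℂ) (ht : 0 < t.re) : ∃ M b : ℝ, 0 ≤ M ∧ 0 < b ∧
    ∀ x y : ℝ, |x| ≤ 1 → (1 + |y|) ^ (2 : ℕ) * ‖f t κ ξ (x + y * I)‖ ≤ M * Real.exp (-b * y ^ (2 : ℕ)) := by
  have hA := inv_re_pos ht
  set A := (t⁻¹).re with hAdef
  set C := |(t⁻¹).im| + ‖κ‖ with hC
  have hC0 : 0 ≤ C := by positivity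
  set K0 := Real.exp (A / 2 + ‖κ‖ * (Real.exp (ξ.re + 1) + 2)) with hK0
  refine ⟨(2 * (1 + 8 / A)) * (K0 * Real.exp (C ^ (2 : ℕ) / A)), A / 8, by positivity, by positivity,
    fun x y hx => ?_⟩
  have h1 := fc_norm_le (κ := κ) (ξ := ξ) ht (y := y) hx
  rw [← hAdef, ← hC, ← hK0] at h1
  -- the linear term is absorbed
  have h2 : -(A / 2 * y ^ (2 : ℕ)) + C * |y| ≤ C ^ (2 : ℕ) / A + -(A / 8) * y ^ (2 : ℕ) + -(A / 8 * y ^ (2 : ℕ)) := by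
    have h3 : 0 ≤ (A * |y| / 2 - C) ^ (2 : ℕ) / A := by positivity
    have h4 : (A * |y| / 2 - C) ^ (2 : ℕ) / A = A / 4 * |y| ^ (2 : ℕ) - C * |y| + C ^ (2 : ℕ) / A := by
      field_simp
      ring
    rw [h4, sq_abs] at h3
    linarith only [h3]
  have h5 : (1 + |y|) ^ (2 : ℕ) ≤ (2 * (1 + 8 / A)) * Real.exp (A / 8 * y ^ (2 : ℕ)) := by
    have h6 : A / 8 * y ^ (2 : ℕ) + 1 ≤ Real.exp (A / 8 * y ^ (2 : ℕ)) := Real.add_one_le_exp _
    have h7 : (1 + |y|) ^ (2 : ℕ) ≤ 2 * (1 + y ^ (2 : ℕ)) := by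
      have := sq_nonneg (1 - |y|)
      have h8 := sq_abs y
      linarith only [this, h8]
    have h9 : 1 + y ^ (2 : ℕ) ≤ (1 + 8 / A) * (A / 8 * y ^ (2 : ℕ) + 1) := by
      have h10 : (1 + 8 / A) * (A / 8 * y ^ (2 : ℕ) + 1) = (1 + y ^ (2 : ℕ)) + (A / 8 * y ^ (2 : ℕ) + 8 / A) := by
        field_simp
        ring
      rw [h10]
      have : 0 ≤ A / 8 * y ^ (2 : ℕ) + 8 / A := by positivity
      linarith only [this]
    calc (1 + |y|) ^ (2 : ℕ) ≤ 2 * (1 + y ^ (2 : ℕ)) := h7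
      _ ≤ 2 * ((1 + 8 / A) * (A / 8 * y ^ (2 : ℕ) + 1)) := by gcongr
      _ ≤ 2 * ((1 + 8 / A) * Real.exp (A / 8 * y ^ (2 : ℕ))) := by gcongr
      _ = _ := by ring
  calc (1 + |y|) ^ (2 : ℕ) * ‖f t κ ξ (x + y * I)‖
      ≤ ((2 * (1 + 8 / A)) * Real.exp (A / 8 * y ^ (2 : ℕ))) *
        (K0 * Real.exp (C ^ (2 : ℕ) / A + -(A / 8) * y ^ (2 : ℕ) + -(A / 8 * y ^ (2 : ℕ)))) := by
        refine mul_le_mul h5 (h1.trans ?_) (norm_nonneg _) (by positivity)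
        gcongr
    _ = _ := by
        rw [Real.exp_add, Real.exp_add, Real.exp_neg (A / 8 * y ^ (2 : ℕ))]
        field_simp

private theorem fc_differentiable (t κ ξ : ℂ) : Differentiable ℂ (f t κ ξ) := by
  unfold f
  fun_prop

theorem f_strip_integrable {t κ ξ : ℂ} (ht : 0 < t.re) {x : ℝ} (hx : |x| ≤ 1) :
    Integrable fun s : ℝ => (1 + |s|) ^ (2 : ℕ) * ‖f t κ ξ (x + s * I)‖ := by
  obtain ⟨M, b, -, hb, hM⟩ := fc_dom κ ξ ht
  refine Integrable.mono' ((integrable_exp_neg_mul_sq hb).const_mul M) ?_ ?_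
  · apply Continuous.aestronglyMeasurable
    have h1 := (fc_differentiable t κ ξ).continuous
    fun_prop
  · filter_upwards with s
    rw [Real.norm_of_nonneg (by positivity)]
    exact hM x s hx

theorem f_contour {t κ ξ : ℂ} (ht : 0 < t.re) {m : ℂ → ℂ} (hm : Differentiable ℂ m)
    {K : ℝ} (hK : ∀ x y : ℝ, |x| ≤ 1 → ‖m (x + y * I)‖ ≤ K * (1 + |y|) ^ (2 : ℕ))
    {c s1 : ℝ} (hc : 0 ≤ c) (hs : 0 < s1) (hcs : c * s1 ≤ 1) :
    ∫ s : ℝ, m (s * I) * f t κ ξ (s * I) =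
      (∫ s in Set.Ioi s1, m (((c * s1 : ℝ) : ℂ) + s * I) * f t κ ξ (((c * s1 : ℝ) : ℂ) + s * I)) +
      (∫ s in Set.Iio (-s1),
        m (-((c * s1 : ℝ) : ℂ) + s * I) * f t κ ξ (-((c * s1 : ℝ) : ℂ) + s * I)) +
      (1 - c * I) * ∫ s in (-s1)..s1, m ((c + I) * s) * f t κ ξ ((c + I) * s) := by
  obtain ⟨M, b, hM0, hb, hM⟩ := fc_dom κ ξ ht
  have hK0 : 0 ≤ K := by
    have h1 := hK 0 0 (by simp)
    have h2 := norm_nonneg (m (((0 : ℝ) : ℂ) + ((0 : ℝ) : ℂ) * I))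
    simp only [abs_zero, add_zero, one_pow, mul_one] at h1
    linarith only [h2, h1]
  have hd : Differentiable ℂ fun h => m h * f t κ ξ h := hm.mul (fc_differentiable t κ ξ)
  have hG : Integrable fun y : ℝ => K * M * Real.exp (-b * y ^ (2 : ℕ)) :=
    (integrable_exp_neg_mul_sq hb).const_mul _
  have hG0 : Tendsto (fun y : ℝ => K * M * Real.exp (-b * y ^ (2 : ℕ))) (cocompact ℝ) (𝓝 0) := by
    have h1 := (tendsto_rpow_abs_mul_exp_neg_mul_sq_cocompact hb 0).const_mul (K * M)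
    simpa only [Real.rpow_zero, one_mul, mul_zero] using h1
  refine contour hd hc hs hG hG0 fun x y hx => ?_
  have hx1 : |x| ≤ 1 := hx.trans hcs
  calc ‖m (x + y * I) * f t κ ξ (x + y * I)‖
      = ‖m (x + y * I)‖ * ‖f t κ ξ (x + y * I)‖ := norm_mul _ _
    _ ≤ K * (1 + |y|) ^ (2 : ℕ) * ‖f t κ ξ (x + y * I)‖ := by
        gcongr
        exact hK x y hx1
    _ = K * ((1 + |y|) ^ (2 : ℕ) * ‖f t κ ξ (x + y * I)‖) := by ring
    _ ≤ K * (M * Real.exp (-b * y ^ (2 : ℕ))) := mul_le_mul_of_nonneg_left (hM x y hx1) hK0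
    _ = K * M * Real.exp (-b * y ^ (2 : ℕ)) := by ring

end SokamU

end
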