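import Pool.Agent.Lib_MP_af4de1_zy.Z39
import Pool.Agent.Lib_MP_af4de1_zy.Z40
import Pool.Agent.Lib_MP_af4de1_zy.Z41

/-! ### Lib_MP_af4de1_fa.PathGen -/

section
namespace SokamU
end SokamU
/-!
# Path formula for `E` and its `D` powers on the imaginary axis `t = -i δ`

Path `h = a + i s`, `a = clamp (c s) (-c s₁) (c s₁)`, with `c s₁ ≤ 1` and `|Im κ| < c s₁/δ`:

`gcst t⁻¹ * Ef j t (zp t κ * e^ξ) = e^(S t κ) * ∫ pv s * (κ e^(ξ+h))^j * f t κ ξ h ds`.
-/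

namespace SokamPG

open Complex MeasureTheory SokamU Filter Topology

/-- Real part of the path. -/
noncomputable def pc (c s1 s : ℝ) : ℝ := max (-(c * s1)) (min (c * s1) (c * s))

/-- The path. -/
noncomputable def pz (c s1 s : ℝ) : ℂ := (pc c s1 s : ℂ) + s * I

/-- Derivative of the path divided by `i`. -/
noncomputable def pv (c s1 s : ℝ) : ℂ := if |s| < s1 then 1 - c * I else 1

section basic

variable {c s1 : ℝ} (hc : 0 < c) (hs : 0 < s1)

include hc in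
theorem pc_mid {s : ℝ} (h1 : -s1 ≤ s) (h2 : s ≤ s1) : pc c s1 s = c * s := by
  unfold pc
  have h3 : c * s ≤ c * s1 := by gcongr
  have h4 : -(c * s1) ≤ c * s := by nlinarith
  rw [min_eq_right h3, max_eq_right h4]

include hc hs in
theorem pc_right {s : ℝ} (h2 : s1 ≤ s) : pc c s1 s = c * s1 := by
  unfold pc
  have h3 : c * s1 ≤ c * s := by gcongr
  have h4 : 0 < c * s1 := by positivity
  rw [min_eq_left h3, max_eq_right (by linarith only [h4])]

include hc hs in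
theorem pc_left {s : ℝ} (h2 : s ≤ -s1) : pc c s1 s = -(c * s1) := by
  unfold pc
  have h3 : c * s ≤ -(c * s1) := by nlinarith
  have h4 : 0 < c * s1 := by positivity
  rw [min_eq_right (by linarith only [h3, h4]), max_eq_left h3]

include hc hs in
theorem pc_abs (s : ℝ) : |pc c s1 s| ≤ c * s1 := by
  have h4 : 0 < c * s1 := by positivity
  unfold pc
  rw [abs_le]
  exact ⟨le_max_left _ _, max_le (by linarith only [h4]) (min_le_left _ _)⟩

include hc hs in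
theorem pc_mul_ge (s : ℝ) : c * s1 * |s| - c * s1 ^ (2 : ℕ) ≤ pc c s1 s * s := by
  rcases le_total s (-s1) with h1 | h1
  · rw [pc_left hc hs h1, abs_of_nonpos (by linarith only [hs, h1])]
    nlinarith [mul_pos hc hs]
  rcases le_total s s1 with h2 | h2
  · rw [pc_mid hc h1 h2]
    have h3 : |s| ≤ s1 := abs_le.2 ⟨h1, h2⟩
    have h4 : 0 ≤ c * s * s := by nlinarith [mul_nonneg hc.le (sq_nonneg s)]
    have h5 : c * s1 * |s| ≤ c * s1 * s1 := by gcongr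
    nlinarith
  · rw [pc_right hc hs h2, abs_of_nonneg (by linarith)]
    nlinarith [mul_pos hc hs]

include hc hs in
theorem pc_mul_nonneg (s : ℝ) : 0 ≤ pc c s1 s * s := by
  rcases le_total s (-s1) with h1 | h1
  · rw [pc_left hc hs h1]
    nlinarith [mul_pos hc hs]
  rcases le_total s s1 with h2 | h2
  · rw [pc_mid hc h1 h2]
    nlinarith [mul_nonneg hc.le (sq_nonneg s)]
  · rw [pc_right hc hs h2]
    nlinarith [mul_pos hc hs]

theorem continuous_pc (c s1 : ℝ) : Continuous (pc c s1) := by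
  unfold pc
  fun_prop

theorem continuous_pz (c s1 : ℝ) : Continuous (pz c s1) := by
  have := continuous_pc c s1
  unfold pz
  fun_prop

theorem pz_re (c s1 s : ℝ) : (pz c s1 s).re = pc c s1 s := by
  unfold pz; simp

theorem pz_im (c s1 s : ℝ) : (pz c s1 s).im = s := by
  unfold pz; simp

theorem measurable_pv (c s1 : ℝ) : Measurable (pv c s1) := by
  unfold pv
  refine Measurable.ite ?_ measurable_const measurable_const
  exact measurableSet_lt (by fun_prop) measurable_const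

theorem norm_pv_le {c s1 : ℝ} (hc : 0 < c) (s : ℝ) : ‖pv c s1 s‖ ≤ 1 + c := by
  unfold pv
  split_ifs
  · refine (norm_sub_le _ _).trans ?_
    rw [norm_mul, Complex.norm_real, Complex.norm_I, norm_one, Real.norm_of_nonneg hc.le, mul_one]
  · rw [norm_one]; linarith only [hc]

end basic

/-- The weight class: entire and of at most quadratic growth in the strip. -/
def Wt (m : ℂ → ℂ) (K : ℝ) : Prop :=
  Differentiable ℂ m ∧ ∀ x y : ℝ, |x| ≤ 1 → ‖m (x + y * I)‖ ≤ K * (1 + |y|) ^ (2 : ℕ)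

/-- Modulus bound of the integrand on a point of the path, for `t⁻¹ = A + i/δ`. -/
theorem norm_f_le {δ A : ℝ} (hA : 0 ≤ A) (κ ξ : ℂ) {t : ℂ}
    (ht : t⁻¹ = A + (1 / δ : ℝ) * I) {a s : ℝ} (ha : |a| ≤ 1) :
    ‖f t κ ξ (a + s * I)‖ ≤ Real.exp (A / 2 + ‖κ‖ * (Real.exp (‖ξ‖ + 1) + 2)) *
      Real.exp (-(a * s / δ) + |κ.im| * |s|) := by
  unfold f
  rw [Complex.norm_exp, ← Real.exp_add]
  apply Real.exp_le_exp.2
  have h1 : ((a : ℂ) + s * I) ^ (2 : ℕ) / (2 * t) =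
      (((a ^ (2 : ℕ) - s ^ (2 : ℕ)) * A / 2 - a * s * (1 / δ) : ℝ) : ℂ) +
      (((a ^ (2 : ℕ) - s ^ (2 : ℕ)) * (1 / δ) / 2 + a * s * A : ℝ) : ℂ) * I := by
    have h2 : ((a : ℂ) + s * I) ^ (2 : ℕ) / (2 * t) = ((a : ℂ) + s * I) ^ (2 : ℕ) * t⁻¹ / 2 := by
      rw [mul_comm (2 : ℂ) t, ← div_div, div_eq_mul_inv _ t]
    rw [h2, ht]
    have h3 := Complex.I_sq
    push_cast
    linear_combination (((s : ℂ) ^ (2 : ℕ) * (A + (1 / δ) * I)) / 2 + (a : ℂ) * s * (1 / δ)) * h3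
  have h4 : (κ * (cexp (ξ + (a + s * I)) - 1 - (a + s * I))).re ≤
      ‖κ‖ * (Real.exp (‖ξ‖ + 1) + 2) + |κ.im| * |s| := by
    have h5 : κ * (cexp (ξ + (a + s * I)) - 1 - (a + s * I)) =
        κ * (cexp (ξ + (a + s * I)) - 1 - a) - κ * (s * I) := by ring
    rw [h5, Complex.sub_re]
    have h6 : (κ * ((s : ℂ) * I)).re = -(κ.im * s) := by simp
    have h7 : (κ * (cexp (ξ + (a + s * I)) - 1 - a)).re ≤ ‖κ‖ * (Real.exp (‖ξ‖ + 1) + 2) := by
      refine (Complex.re_le_norm _).trans ?_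
      rw [norm_mul]
      refine mul_le_mul_of_nonneg_left ?_ (norm_nonneg _)
      have h8 : ‖cexp (ξ + (a + s * I))‖ ≤ Real.exp (‖ξ‖ + 1) := by
        rw [Complex.norm_exp]
        apply Real.exp_le_exp.2
        have h9 : (ξ + ((a : ℂ) + s * I)).re = ξ.re + a := by simp
        rw [h9]
        have h10 := (Complex.re_le_norm ξ)
        have h11 := (abs_le.1 ha).2
        linarith only [h10, h11]
      have h9 : ‖(a : ℂ)‖ ≤ 1 := by rwa [Complex.norm_real, Real.norm_eq_abs]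
      calc ‖cexp (ξ + (a + s * I)) - 1 - a‖ ≤ ‖cexp (ξ + (a + s * I)) - 1‖ + ‖(a : ℂ)‖ :=
            norm_sub_le _ _
        _ ≤ ‖cexp (ξ + (a + s * I))‖ + ‖(1 : ℂ)‖ + ‖(a : ℂ)‖ := by gcongr; exact norm_sub_le _ _
        _ ≤ Real.exp (‖ξ‖ + 1) + 2 := by rw [norm_one]; linarith only [h8, h9]
    have h8 : κ.im * s ≤ |κ.im| * |s| := by rw [← abs_mul]; exact le_abs_self _
    rw [h6]
    linarith only [h7, h8]
  have h8 : ∀ u v : ℝ, ((u : ℂ) + (v : ℂ) * I).re = u := fun u v => by simp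
  rw [Complex.add_re, h1, h8]
  have h6 : a ^ (2 : ℕ) ≤ 1 := by
    rw [← sq_abs]; exact pow_le_one₀ (abs_nonneg _) ha
  have h7 : a * s * (1 / δ) = a * s / δ := by ring
  rw [h7]
  nlinarith [mul_nonneg (sq_nonneg s) hA]

/-- The full integrand. -/
noncomputable def gi (c s1 : ℝ) (m : ℂ → ℂ) (κ ξ t : ℂ) (s : ℝ) : ℂ :=
  pv c s1 s * (m (pz c s1 s) * f t κ ξ (pz c s1 s))

theorem sq_le_exp {b : ℝ} (hb : 0 < b) (s : ℝ) :
    (1 + |s|) ^ (2 : ℕ) ≤ (1 + 4 / b) ^ (2 : ℕ) * Real.exp (b * |s| / 2) := by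
  have h1 : 1 + |s| ≤ (1 + 4 / b) * Real.exp (b * |s| / 4) := by
    have h2 := Real.add_one_le_exp (b * |s| / 4)
    have h3 : 1 ≤ Real.exp (b * |s| / 4) := Real.one_le_exp (by positivity)
    have h4 : |s| ≤ 4 / b * Real.exp (b * |s| / 4) := by
      have : |s| = 4 / b * (b * |s| / 4) := by field_simp
      calc |s| = 4 / b * (b * |s| / 4) := this
        _ ≤ 4 / b * Real.exp (b * |s| / 4) := by gcongr; linarith only [h2]
    linarith only [h3, h4]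
  calc (1 + |s|) ^ (2 : ℕ) ≤ ((1 + 4 / b) * Real.exp (b * |s| / 4)) ^ (2 : ℕ) := by gcongr
    _ = (1 + 4 / b) ^ (2 : ℕ) * Real.exp (b * |s| / 2) := by
      rw [mul_pow, ← Real.exp_nat_mul]
      congr 2
      push_cast
      ring

/-- The dominating constant. -/
noncomputable def domC (c s1 δ K A : ℝ) (κ ξ : ℂ) : ℝ :=
  (1 + c) * K * (1 + 4 / (c * s1 / δ - |κ.im|)) ^ (2 : ℕ) *
    Real.exp (A / 2 + ‖κ‖ * (Real.exp (‖ξ‖ + 1) + 2) + c * s1 ^ (2 : ℕ) / δ)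

theorem norm_gi_le {c s1 δ A K : ℝ} (hc : 0 < c) (hs : 0 < s1) (hcs : c * s1 ≤ 1)
    (hδ : 0 < δ) (hA : 0 ≤ A) (κ ξ : ℂ) {t : ℂ} (ht : t⁻¹ = A + (1 / δ : ℝ) * I)
    (hk : |κ.im| < c * s1 / δ) {m : ℂ → ℂ} (hm : Wt m K) (s : ℝ) :
    ‖gi c s1 m κ ξ t s‖ ≤ domC c s1 δ K A κ ξ * Real.exp (-((c * s1 / δ - |κ.im|) / 2) * |s|) := by
  set b := c * s1 / δ - |κ.im| with hb
  have hb0 : 0 < b := by rw [hb]; linarith only [hk]
  have ha1 : |pc c s1 s| ≤ 1 := (pc_abs hc hs s).trans hcs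
  have h1 := norm_f_le hA κ ξ ht (s := s) ha1
  have h2 := hm.2 (pc c s1 s) s ha1
  have h3 := pc_mul_ge hc hs s
  have hK0 : 0 ≤ K := by
    have h4 := hm.2 0 0 (by simp)
    have h5 := norm_nonneg (m (((0 : ℝ) : ℂ) + ((0 : ℝ) : ℂ) * I))
    simp only [abs_zero, add_zero, one_pow, mul_one] at h4
    linarith only [h5, h4]
  have h4 : Real.exp (-(pc c s1 s * s / δ) + |κ.im| * |s|) ≤
      Real.exp (c * s1 ^ (2 : ℕ) / δ) * Real.exp (-(b * |s|)) := by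
    rw [← Real.exp_add]
    apply Real.exp_le_exp.2
    have h5 : (c * s1 * |s| - c * s1 ^ (2 : ℕ)) / δ ≤ pc c s1 s * s / δ := by gcongr
    have h6 : (c * s1 * |s| - c * s1 ^ (2 : ℕ)) / δ = c * s1 / δ * |s| - c * s1 ^ (2 : ℕ) / δ := by ring
    rw [h6] at h5
    rw [hb]
    linarith only [h5]
  unfold gi
  rw [norm_mul, norm_mul]
  have hpz : pz c s1 s = (pc c s1 s : ℂ) + s * I := rfl
  rw [hpz]
  set N := A / 2 + ‖κ‖ * (Real.exp (‖ξ‖ + 1) + 2) with hN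
  calc ‖pv c s1 s‖ * (‖m (pc c s1 s + s * I)‖ * ‖f t κ ξ (pc c s1 s + s * I)‖)
      ≤ (1 + c) * ((K * (1 + |s|) ^ (2 : ℕ)) *
        (Real.exp N * (Real.exp (c * s1 ^ (2 : ℕ) / δ) * Real.exp (-(b * |s|))))) := by
        have h7 := norm_pv_le (s1 := s1) hc s
        have h8 := h1.trans (mul_le_mul_of_nonneg_left h4 (Real.exp_pos N).le)
        gcongr
    _ ≤ (1 + c) * ((K * ((1 + 4 / b) ^ (2 : ℕ) * Real.exp (b * |s| / 2))) *
        (Real.exp N * (Real.exp (c * s1 ^ (2 : ℕ) / δ) * Real.exp (-(b * |s|))))) := by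
        have h9 := sq_le_exp hb0 s
        gcongr
    _ = domC c s1 δ K A κ ξ * Real.exp (-(b / 2) * |s|) := by
        have h10 : Real.exp (-(b / 2) * |s|) = Real.exp (b * |s| / 2) * Real.exp (-(b * |s|)) := by
          rw [← Real.exp_add]; congr 1; ring
        rw [h10]
        unfold domC
        rw [← hb, ← hN, Real.exp_add N (c * s1 ^ (2 : ℕ) / δ)]
        ring

theorem integrable_exp_abs {b : ℝ} (hb : 0 < b) : Integrable fun s : ℝ => Real.exp (-b * |s|) := by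
  have h1 : IntegrableOn (fun s : ℝ => Real.exp (-b * |s|)) (Set.Ioi 0) := by
    refine (integrableOn_congr_fun (fun s hs => ?_) measurableSet_Ioi).2
      (integrableOn_exp_mul_Ioi (a := -b) (by linarith only [hb]) 0)
    have hs' : (0 : ℝ) < s := hs
    simp only [abs_of_pos hs']
  have h2 : IntegrableOn (fun s : ℝ => Real.exp (-b * |s|)) (Set.Iic 0) := by
    refine (integrableOn_congr_fun (fun s hs => ?_) measurableSet_Iic).2
      (integrableOn_exp_mul_Iic (a := b) hb 0)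
    have hs' : s ≤ (0 : ℝ) := hs
    simp only [abs_of_nonpos hs']
    congr 1
    ring
  have h3 := h2.union h1
  rwa [Set.Iic_union_Ioi, integrableOn_univ] at h3

theorem continuous_f (t κ ξ : ℂ) : Continuous (f t κ ξ) := by
  unfold f
  fun_prop

theorem aesm_gi {c s1 K : ℝ} (κ ξ t : ℂ) {m : ℂ → ℂ} (hm : Wt m K) :
    AEStronglyMeasurable (gi c s1 m κ ξ t) volume := by
  have h1 : Continuous m := hm.1.continuous
  have h2 := continuous_pz c s1
  have h3 : Continuous fun s : ℝ => m (pz c s1 s) * f t κ ξ (pz c s1 s) :=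
    (h1.comp h2).mul ((continuous_f t κ ξ).comp h2)
  exact (measurable_pv c s1).aestronglyMeasurable.mul h3.aestronglyMeasurable

theorem integrable_gi {c s1 δ A K : ℝ} (hc : 0 < c) (hs : 0 < s1) (hcs : c * s1 ≤ 1)
    (hδ : 0 < δ) (hA : 0 ≤ A) (κ ξ : ℂ) {t : ℂ} (ht : t⁻¹ = A + (1 / δ : ℝ) * I)
    (hk : |κ.im| < c * s1 / δ) {m : ℂ → ℂ} (hm : Wt m K) : Integrable (gi c s1 m κ ξ t) := by
  have hb0 : 0 < (c * s1 / δ - |κ.im|) / 2 := by linarith only [hk]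
  refine Integrable.mono' ((integrable_exp_abs hb0).const_mul (domC c s1 δ K A κ ξ))
    (aesm_gi κ ξ t hm) (Eventually.of_forall fun s => ?_)
  exact norm_gi_le hc hs hcs hδ hA κ ξ ht hk hm s

/-- The path integral for `Re t > 0` equals the integral over the vertical line. -/
theorem line_eq_path {c s1 δ A K : ℝ} (hc : 0 < c) (hs : 0 < s1) (hcs : c * s1 ≤ 1)
    (hδ : 0 < δ) (hA : 0 ≤ A) (κ ξ : ℂ) {t : ℂ} (ht : t⁻¹ = A + (1 / δ : ℝ) * I) (ht0 : 0 < t.re)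
    (hk : |κ.im| < c * s1 / δ) {m : ℂ → ℂ} (hm : Wt m K) :
    ∫ y : ℝ, m (y * I) * f t κ ξ (y * I) = ∫ s : ℝ, gi c s1 m κ ξ t s := by
  have hint := integrable_gi hc hs hcs hδ hA κ ξ ht hk hm
  rw [f_contour ht0 hm.1 hm.2 hc.le hs hcs]
  have h1 : ∫ s : ℝ, gi c s1 m κ ξ t s = (∫ s in Set.Iic (-s1), gi c s1 m κ ξ t s) +
      ((∫ s in Set.Ioc (-s1) s1, gi c s1 m κ ξ t s) + ∫ s in Set.Ioi s1, gi c s1 m κ ξ t s) := by
    have e1 : (∫ s in Set.Iic (-s1), gi c s1 m κ ξ t s) + ∫ s in Set.Ioi (-s1), gi c s1 m κ ξ t s =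
        ∫ s : ℝ, gi c s1 m κ ξ t s := by
      rw [← setIntegral_union (Set.Iic_disjoint_Ioi le_rfl) measurableSet_Ioi hint.integrableOn
        hint.integrableOn, Set.Iic_union_Ioi, setIntegral_univ]
    have e2 : (∫ s in Set.Ioc (-s1) s1, gi c s1 m κ ξ t s) + ∫ s in Set.Ioi s1, gi c s1 m κ ξ t s =
        ∫ s in Set.Ioi (-s1), gi c s1 m κ ξ t s := by
      rw [← setIntegral_union (Set.Ioc_disjoint_Ioi le_rfl) measurableSet_Ioi hint.integrableOn
        hint.integrableOn, Set.Ioc_union_Ioi_eq_Ioi (by linarith only [hs])]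
    rw [e2, e1]
  have h2 : ∫ s in Set.Ioi s1, gi c s1 m κ ξ t s = ∫ s in Set.Ioi s1,
      m (((c * s1 : ℝ) : ℂ) + s * I) * f t κ ξ (((c * s1 : ℝ) : ℂ) + s * I) := by
    refine setIntegral_congr_fun measurableSet_Ioi fun s hs' => ?_
    have hs2 : s1 < s := hs'
    have h3 : pv c s1 s = 1 := by
      unfold pv
      rw [if_neg]
      rw [not_lt, abs_of_pos (by linarith only [hs, hs2])]
      exact hs2.le
    have h4 : pz c s1 s = ((c * s1 : ℝ) : ℂ) + s * I := by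
      unfold pz
      rw [pc_right hc hs hs2.le]
    simp only [gi, h3, h4, one_mul]
  have h3 : ∫ s in Set.Iic (-s1), gi c s1 m κ ξ t s = ∫ s in Set.Iio (-s1),
      m (-((c * s1 : ℝ) : ℂ) + s * I) * f t κ ξ (-((c * s1 : ℝ) : ℂ) + s * I) := by
    rw [integral_Iic_eq_integral_Iio]
    refine setIntegral_congr_fun measurableSet_Iio fun s hs' => ?_
    have hs2 : s < -s1 := hs'
    have h3 : pv c s1 s = 1 := by
      unfold pv
      rw [if_neg]
      rw [not_lt, abs_of_neg (by linarith only [hs, hs2])]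
      linarith only [hs2]
    have h4 : pz c s1 s = -((c * s1 : ℝ) : ℂ) + s * I := by
      unfold pz
      rw [pc_left hc hs hs2.le, Complex.ofReal_neg]
    simp only [gi, h3, h4, one_mul]
  have h4 : ∫ s in Set.Ioc (-s1) s1, gi c s1 m κ ξ t s = (1 - c * I) * ∫ s in (-s1)..s1,
      m ((c + I) * s) * f t κ ξ ((c + I) * s) := by
    rw [intervalIntegral.integral_of_le (by linarith only [hs]), integral_Ioc_eq_integral_Ioo,
      integral_Ioc_eq_integral_Ioo, ← integral_const_mul]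
    refine setIntegral_congr_fun measurableSet_Ioo fun s hs' => ?_
    have hs2 : |s| < s1 := abs_lt.2 hs'
    have h3 : pv c s1 s = 1 - c * I := by
      unfold pv
      rw [if_pos hs2]
    have h4 : pz c s1 s = (c + I) * s := by
      unfold pz
      rw [pc_mid hc hs'.1.le hs'.2.le]
      push_cast
      ring
    simp only [gi, h3, h4]
  rw [h1, h2, h3, h4]
  ring

/-- `t` with `1/t = A + i/δ`. -/
noncomputable def tA (δ A : ℝ) : ℂ := ((A : ℂ) + ((1 / δ : ℝ) : ℂ) * I)⁻¹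

theorem tA_inv (δ A : ℝ) : (tA δ A)⁻¹ = A + (1 / δ : ℝ) * I := by
  unfold tA
  rw [inv_inv]

theorem tA_re {δ A : ℝ} (hA : 0 < A) : 0 < (tA δ A).re := by
  unfold tA
  rw [Complex.inv_re]
  have h1 : ((A : ℂ) + ((1 / δ : ℝ) : ℂ) * I).re = A := by simp
  rw [h1]
  refine div_pos hA (Complex.normSq_pos.2 ?_)
  intro h
  rw [h] at h1
  simp only [Complex.zero_re] at h1
  linarith only [hA, h1]

theorem tA_zero {δ : ℝ} (hδ : 0 < δ) : tA δ 0 = -((δ : ℂ) * I) := by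
  unfold tA
  have h2 : ((δ : ℂ)) ≠ 0 := by exact_mod_cast hδ.ne'
  have h3 : ((1 / δ : ℝ) : ℂ) * I ≠ 0 := by
    push_cast
    exact mul_ne_zero (div_ne_zero one_ne_zero h2) I_ne_zero
  rw [Complex.ofReal_zero, zero_add, inv_eq_iff_eq_inv]
  apply eq_inv_of_mul_eq_one_left
  push_cast
  have h4 := Complex.I_sq
  field_simp
  linear_combination -h4

theorem tA_continuousAt {δ : ℝ} (hδ : 0 < δ) : ContinuousAt (fun A : ℝ => tA δ A) 0 := by
  have h2 : ((1 / δ : ℝ) : ℂ) ≠ 0 := by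
    exact_mod_cast (div_pos one_pos hδ).ne'
  unfold tA
  refine ContinuousAt.inv₀ (by fun_prop) ?_
  rw [Complex.ofReal_zero, zero_add]
  exact mul_ne_zero h2 I_ne_zero

theorem tA_tendsto {δ : ℝ} (hδ : 0 < δ) :
    Tendsto (fun A : ℝ => tA δ A) (𝓝[>] 0) (𝓝 (-((δ : ℂ) * I))) := by
  have h3 := (tA_continuousAt hδ).tendsto
  rw [tA_zero hδ] at h3
  exact h3.mono_left nhdsWithin_le_nhds

theorem t0_inv {δ : ℝ} (hδ : 0 < δ) : (-((δ : ℂ) * I))⁻¹ = (0 : ℝ) + (1 / δ : ℝ) * I := by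
  rw [← tA_zero hδ, tA_inv]

theorem t0_ne {δ : ℝ} (hδ : 0 < δ) : (-((δ : ℂ) * I)) ≠ 0 := by
  have h2 : ((δ : ℂ)) ≠ 0 := by exact_mod_cast hδ.ne'
  exact neg_ne_zero.2 (mul_ne_zero h2 I_ne_zero)

/-- The limit of the path integral. -/
theorem tendsto_path {c s1 δ K : ℝ} (hc : 0 < c) (hs : 0 < s1) (hcs : c * s1 ≤ 1)
    (hδ : 0 < δ) (κ ξ : ℂ) (hk : |κ.im| < c * s1 / δ) {m : ℂ → ℂ} (hm : Wt m K) :
    Tendsto (fun A : ℝ => ∫ s : ℝ, gi c s1 m κ ξ (tA δ A) s) (𝓝[>] 0)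
      (𝓝 (∫ s : ℝ, gi c s1 m κ ξ (-((δ : ℂ) * I)) s)) := by
  have hb0 : 0 < (c * s1 / δ - |κ.im|) / 2 := by linarith only [hk]
  refine tendsto_integral_filter_of_dominated_convergence
    (fun s => domC c s1 δ K 1 κ ξ * Real.exp (-((c * s1 / δ - |κ.im|) / 2) * |s|)) ?_ ?_ ?_ ?_
  · exact Eventually.of_forall fun A => aesm_gi κ ξ _ hm
  · have h1 : ∀ᶠ A : ℝ in 𝓝[>] 0, 0 < A ∧ A < 1 := by
      have : Set.Ioo (0 : ℝ) 1 ∈ 𝓝[>] (0 : ℝ) := Ioo_mem_nhdsGT one_pos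
      filter_upwards [this] with A hA using hA
    filter_upwards [h1] with A hA
    refine Eventually.of_forall fun s => ?_
    have h2 := norm_gi_le hc hs hcs hδ hA.1.le κ ξ (tA_inv δ A) hk hm s
    refine h2.trans (mul_le_mul_of_nonneg_right ?_ (Real.exp_pos _).le)
    have hK0 : 0 ≤ K := by
      have h4 := hm.2 0 0 (by simp)
      have h5 := norm_nonneg (m (((0 : ℝ) : ℂ) + ((0 : ℝ) : ℂ) * I))
      simp only [abs_zero, add_zero, one_pow, mul_one] at h4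
      linarith only [h5, h4]
    unfold domC
    have h3 : A / 2 + ‖κ‖ * (Real.exp (‖ξ‖ + 1) + 2) + c * s1 ^ (2 : ℕ) / δ ≤
      1 / 2 + ‖κ‖ * (Real.exp (‖ξ‖ + 1) + 2) + c * s1 ^ (2 : ℕ) / δ := by linarith only [hA.2]
    gcongr
  · exact (integrable_exp_abs hb0).const_mul _
  · refine Eventually.of_forall fun s => ?_
    unfold gi
    refine Tendsto.const_mul _ (Tendsto.const_mul _ ?_)
    have h1 : ContinuousAt (fun t : ℂ => f t κ ξ (pz c s1 s)) (-((δ : ℂ) * I)) := by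
      unfold f
      refine ContinuousAt.cexp (ContinuousAt.add (ContinuousAt.div (by fun_prop) (by fun_prop) ?_)
        (by fun_prop))
      exact mul_ne_zero two_ne_zero (t0_ne hδ)
    exact h1.tendsto.comp (tA_tendsto hδ)

theorem tendsto_gcst {δ : ℝ} (hδ : 0 < δ) :
    Tendsto (fun A : ℝ => gcst (tA δ A)⁻¹) (𝓝[>] 0) (𝓝 (gcst (-((δ : ℂ) * I))⁻¹)) := by
  have h1 : ContinuousAt (fun t : ℂ => (2 * Real.pi * t) ^ (1 / 2 : ℂ)) (-((δ : ℂ) * I)) := by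
    refine ContinuousAt.cpow (by fun_prop) (by fun_prop) ?_
    rw [Complex.mem_slitPlane_iff]
    right
    have : ((2 : ℂ) * Real.pi * -((δ : ℂ) * I)).im = -(2 * Real.pi * δ) := by
      have e : ((2 : ℂ) * Real.pi * -((δ : ℂ) * I)) = ((-(2 * Real.pi * δ) : ℝ) : ℂ) * I := by
        push_cast; ring
      rw [e]; simp
    rw [this]
    have := Real.pi_pos
    have : 0 < 2 * Real.pi * δ := by positivity
    linarith only [this]
  have h2 := h1.tendsto.comp (tA_tendsto hδ)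
  simp only [gcst_inv]
  exact h2

theorem tendsto_Ef {δ : ℝ} (hδ : 0 < δ) (κ ξ : ℂ) (j : ℕ) :
    Tendsto (fun A : ℝ => Ef j (tA δ A) (zp (tA δ A) κ * cexp ξ)) (𝓝[>] 0)
      (𝓝 (Ef j (-((δ : ℂ) * I)) (zp (-((δ : ℂ) * I)) κ * cexp ξ))) := by
  have h0 : 0 ≤ (-((δ : ℂ) * I)).re := by simp
  have hev : ∀ᶠ A : ℝ in 𝓝[>] 0, 0 ≤ (tA δ A).re := by
    filter_upwards [self_mem_nhdsWithin] with A hA
    exact (tA_re hA).le
  have hz : Continuous (fun t : ℂ => zp t κ * cexp ξ) := by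
    unfold zp; fun_prop
  have hw : Continuous (fun t : ℂ => cexp (-(t * j)) * (zp t κ * cexp ξ)) := by
    fun_prop
  have h1 : Tendsto (fun A : ℝ => ((tA δ A, cexp (-(tA δ A * j)) * (zp (tA δ A) κ * cexp ξ)) :
      ℂ × ℂ)) (𝓝[>] 0) (𝓝[{p : ℂ × ℂ | 0 ≤ p.1.re}] (-((δ : ℂ) * I),
        cexp (-(-((δ : ℂ) * I) * j)) * (zp (-((δ : ℂ) * I)) κ * cexp ξ))) := by
    refine tendsto_nhdsWithin_iff.2 ⟨(tA_tendsto hδ).prodMk_nhds ?_, hev⟩
    exact (hw.tendsto _).comp (tA_tendsto hδ)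
  have h2 := (continuousOn_E (-((δ : ℂ) * I),
        cexp (-(-((δ : ℂ) * I) * j)) * (zp (-((δ : ℂ) * I)) κ * cexp ξ)) h0).tendsto.comp h1
  have h3 : Continuous (fun t : ℂ => (zp t κ * cexp ξ) ^ j *
      cexp (-(t * ((j : ℂ) * (j - 1) / 2)))) := by fun_prop
  unfold Ef
  exact ((h3.tendsto _).comp (tA_tendsto hδ)).mul h2

theorem Wt_pow (κ ξ : ℂ) (j : ℕ) : Wt (fun h => (κ * cexp (ξ + h)) ^ j)
    ((‖κ‖ * Real.exp (‖ξ‖ + 1)) ^ j) := by
  refine ⟨by fun_prop, fun x y hx => ?_⟩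
  have h1 : ‖κ * cexp (ξ + (x + y * I))‖ ≤ ‖κ‖ * Real.exp (‖ξ‖ + 1) := by
    rw [norm_mul, Complex.norm_exp]
    have h9 : (ξ + ((x : ℂ) + y * I)).re = ξ.re + x := by simp
    rw [h9]
    have h10 := (Complex.re_le_norm ξ)
    have h11 := (abs_le.1 hx).2
    gcongr
  rw [norm_pow]
  calc ‖κ * cexp (ξ + (x + y * I))‖ ^ j ≤ (‖κ‖ * Real.exp (‖ξ‖ + 1)) ^ j := by gcongr
    _ ≤ (‖κ‖ * Real.exp (‖ξ‖ + 1)) ^ j * (1 + |y|) ^ (2 : ℕ) := by
      refine le_mul_of_one_le_right (by positivity) ?_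
      nlinarith [abs_nonneg y]

/-- THE PATH FORMULA: `D^j`-type functions on `t = -i δ`. -/
theorem path_formula {c s1 δ : ℝ} (hc : 0 < c) (hs : 0 < s1) (hcs : c * s1 ≤ 1)
    (hδ : 0 < δ) (κ ξ : ℂ) (hk : |κ.im| < c * s1 / δ) (j : ℕ) :
    gcst (-((δ : ℂ) * I))⁻¹ * Ef j (-((δ : ℂ) * I)) (zp (-((δ : ℂ) * I)) κ * cexp ξ) =
      cexp (S (-((δ : ℂ) * I)) κ) *
        ∫ s : ℝ, gi c s1 (fun h => (κ * cexp (ξ + h)) ^ j) κ ξ (-((δ : ℂ) * I)) s := by
  have hL := (tendsto_gcst hδ).mul (tendsto_Ef hδ κ ξ j)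
  have hS : Continuous (fun t : ℂ => cexp (S t κ)) := by
    unfold S; fun_prop
  have hR := ((hS.tendsto _).comp (tA_tendsto hδ)).mul
    (tendsto_path hc hs hcs hδ κ ξ hk (Wt_pow κ ξ j))
  refine tendsto_nhds_unique (hL.congr' ?_) hR
  filter_upwards [self_mem_nhdsWithin] with A hA
  have hA' : 0 < A := hA
  have h1 := gauss_gen (tA_re (δ := δ) hA') κ ξ j
  rw [h1]
  simp only [Function.comp_apply]
  congr 1
  exact line_eq_path hc hs hcs hδ hA'.le κ ξ (tA_inv δ A) (tA_re hA') hk (Wt_pow κ ξ j)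

/-- Integrability at `t = -i δ`. -/
theorem integrable_path {c s1 δ K : ℝ} (hc : 0 < c) (hs : 0 < s1) (hcs : c * s1 ≤ 1)
    (hδ : 0 < δ) (κ ξ : ℂ) (hk : |κ.im| < c * s1 / δ) {m : ℂ → ℂ} (hm : Wt m K) :
    Integrable (gi c s1 m κ ξ (-((δ : ℂ) * I))) :=
  integrable_gi hc hs hcs hδ le_rfl κ ξ (t0_inv hδ) hk hm

end SokamPG

end
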