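import Pool.Agent.Lib_MP_af4de1_zy.Z20
import Pool.Agent.Lib_MP_af4de1_zy.Z27
import Pool.Agent.Lib_MP_af4de1_zy.Z48
import Pool.Agent.Lib_MP_af4de1_zy.Z49

/-! ### Lib_MP_af4de1_f1.N1IntB -/

section
/-!
# Auxiliary lemmas for `int_period`  [F1N1-IntB]

Bounds of `1 - cos t` for `|t| ≤ 1.2` and `1.2 ≤ |t| ≤ π`, absolute moments of the Gauss function.
-/

set_option autoImplicit false

namespace SokamF1

open MeasureTheory Set

theorem ip_near {t : ℝ} (ht : |t| ≤ 6 / 5) : 4425 / 10000 * t ^ (2 : ℕ) ≤ 1 - Real.cos t := by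
  set x : ℝ := |t| / 2 with hx
  have hx0 : 0 ≤ x := by (clear * -; positivity)
  have hx1 : x ≤ 3 / 5 := by linarith only [ht, hx]
  have h1 := SokamF1G.sin_ge7 hx0
  have hw0 : 0 ≤ x ^ (2 : ℕ) := sq_nonneg x
  have hw1 : x ^ (2 : ℕ) ≤ 9 / 25 := by nlinarith only [ht, hx, hx0]
  obtain ⟨w, hw⟩ : ∃ w, w = x ^ (2 : ℕ) := ⟨_, rfl⟩
  rw [← hw] at hw0 hw1
  have h2 : x * (941 / 1000) ≤ Real.sin x := by
    refine le_trans ?_ h1
    have h3 : x - x ^ (3 : ℕ) / 6 + x ^ (5 : ℕ) / 120 - x ^ (7 : ℕ) / 5040 =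
        x * (1 - w / 6 + w ^ (2 : ℕ) / 120 - w ^ (3 : ℕ) / 5040) := by rw [hw]; ring
    rw [h3]
    apply mul_le_mul_of_nonneg_left _ hx0
    have h4 : w ^ (3 : ℕ) ≤ 9 / 25 * w ^ (2 : ℕ) := by nlinarith only [hw1]
    nlinarith only [h4, mul_nonneg hw0 (sub_nonneg.2 hw1)]
  have h4 : (x * (941 / 1000)) ^ (2 : ℕ) ≤ Real.sin x ^ (2 : ℕ) :=
    pow_le_pow_left₀ (mul_nonneg hx0 (by norm_num)) h2 2
  have h5 : Real.cos t = 1 - 2 * Real.sin x ^ (2 : ℕ) := by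
    have h6 : Real.cos t = Real.cos (2 * x) := by
      rw [hx, mul_div_cancel₀ _ (two_ne_zero), Real.cos_abs]
    rw [h6, Real.cos_two_mul, Real.cos_sq']
    ring
  rw [h5]
  have h6 : x ^ (2 : ℕ) = t ^ (2 : ℕ) / 4 := by rw [hx, div_pow, sq_abs]; ring
  have h7 : (x * (941 / 1000)) ^ (2 : ℕ) = t ^ (2 : ℕ) / 4 * (941 / 1000) ^ (2 : ℕ) := by
    rw [mul_pow, h6]
  rw [h7] at h4
  nlinarith only [h4]

theorem ip_far {t : ℝ} (h1 : 6 / 5 ≤ |t|) (h2 : |t| ≤ Real.pi) :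
    637 / 1000 ≤ 1 - Real.cos t := by
  have h3 := ip_near (t := 6 / 5) (by rw [abs_of_nonneg] <;> norm_num)
  have h4 : Real.cos |t| ≤ Real.cos (6 / 5) :=
    Real.cos_le_cos_of_nonneg_of_le_pi (by norm_num) h2 h1
  rw [Real.cos_abs] at h4
  norm_num at h3
  linarith only [h4, h3]

/-- zeroth moment -/
theorem ip_m0 {M : ℝ} : ∫ s : ℝ, Real.exp (-(M * s ^ (2 : ℕ) / 2)) = √(2 * Real.pi / M) := by
  have h := integral_gaussian (M / 2)
  have e : (fun s : ℝ => Real.exp (-(M * s ^ (2 : ℕ) / 2))) = fun s => Real.exp (-(M / 2) * s ^ (2 : ℕ)) := by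
    funext s
    congr 1
    ring
  rw [e, h]
  congr 1
  field_simp

theorem ip_m1 {M : ℝ} (hM : 0 < M) : ∫ s : ℝ, |s| * Real.exp (-(M * s ^ (2 : ℕ) / 2)) = 2 / M := by
  have h0 := integral_comp_abs (f := fun s : ℝ => s * Real.exp (-(M * s ^ (2 : ℕ) / 2)))
  simp only [sq_abs] at h0
  rw [h0]
  have h := integral_rpow_mul_exp_neg_mul_rpow (p := 2) (q := 1) (b := M / 2) (by norm_num)
    (by norm_num) (by positivity)
  have e : ∫ s in Ioi (0 : ℝ), s * Real.exp (-(M * s ^ (2 : ℕ) / 2)) =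
      ∫ s in Ioi (0 : ℝ), s ^ (1 : ℝ) * Real.exp (-(M / 2) * s ^ (2 : ℝ)) := by
    refine setIntegral_congr_fun measurableSet_Ioi fun s _ => ?_
    rw [Real.rpow_one, Real.rpow_two]
    congr 2
    ring
  rw [e, h]
  norm_num
  rw [Real.rpow_neg_one]
  field_simp

theorem ip_m2 {M : ℝ} (hM : 0 < M) :
    ∫ s : ℝ, s ^ (2 : ℕ) * Real.exp (-(M * s ^ (2 : ℕ) / 2)) = √(2 * Real.pi / M) / M := by
  have h0 := integral_comp_abs (f := fun s : ℝ => s ^ (2 : ℕ) * Real.exp (-(M * s ^ (2 : ℕ) / 2)))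
  simp only [sq_abs] at h0
  rw [h0]
  have h := integral_rpow_mul_exp_neg_mul_rpow (p := 2) (q := 2) (b := M / 2) (by norm_num)
    (by norm_num) (by positivity)
  have e : ∫ s in Ioi (0 : ℝ), s ^ (2 : ℕ) * Real.exp (-(M * s ^ (2 : ℕ) / 2)) =
      ∫ s in Ioi (0 : ℝ), s ^ (2 : ℝ) * Real.exp (-(M / 2) * s ^ (2 : ℝ)) := by
    refine setIntegral_congr_fun measurableSet_Ioi fun s _ => ?_
    rw [Real.rpow_two]
    congr 2
    ring
  rw [e, h]
  have h3 : Real.Gamma ((2 + 1) / 2) = √Real.pi / 2 := by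
    have h4 : ((2 + 1) / 2 : ℝ) = 1 / 2 + 1 := by norm_num
    rw [h4, Real.Gamma_add_one (by norm_num), Real.Gamma_one_half_eq]
    ring
  rw [h3]
  have h5 : (M / 2 : ℝ) ^ (-(2 + 1) / 2 : ℝ) = (M / 2)⁻¹ * (√(M / 2))⁻¹ := by
    have h6 : (-(2 + 1) / 2 : ℝ) = -1 + -(1 / 2) := by norm_num
    rw [h6, Real.rpow_add (by (clear * - hM; positivity)), Real.rpow_neg_one, Real.rpow_neg (by positivity),
      ← Real.sqrt_eq_rpow]
  rw [h5]
  have h7 : √(2 * Real.pi / M) = √Real.pi * (√(M / 2))⁻¹ := by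
    rw [← Real.sqrt_inv, ← Real.sqrt_mul Real.pi_pos.le]
    congr 1
    field_simp
  rw [h7]
  field_simp

theorem ip_i0 {M : ℝ} (hM : 0 < M) : Integrable fun s : ℝ => Real.exp (-(M * s ^ (2 : ℕ) / 2)) := by
  have h := integrable_exp_neg_mul_sq (b := M / 2) (by positivity)
  refine h.congr (Filter.Eventually.of_forall fun s => ?_)
  simp only
  congr 1
  ring

theorem ip_i1 {M : ℝ} (hM : 0 < M) :
    Integrable fun s : ℝ => |s| * Real.exp (-(M * s ^ (2 : ℕ) / 2)) := by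
  have h := (integrable_mul_exp_neg_mul_sq (b := M / 2) (by positivity)).abs
  refine h.congr (Filter.Eventually.of_forall fun s => ?_)
  simp only [abs_mul, Real.abs_exp]
  congr 2
  ring

theorem ip_i2 {M : ℝ} (hM : 0 < M) :
    Integrable fun s : ℝ => s ^ (2 : ℕ) * Real.exp (-(M * s ^ (2 : ℕ) / 2)) := by
  have h := integrable_rpow_mul_exp_neg_mul_sq (b := M / 2) (by positivity) (s := 2) (by norm_num)
  refine h.congr (Filter.Eventually.of_forall fun s => ?_)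
  simp only [Real.rpow_two]
  congr 2
  ring

end SokamF1

end

/-! ### Lib_MP_af4de1_fa.FarRep -/

section
namespace SokamPG
end SokamPG
namespace SokamU
end SokamU
/-!
# Absolute value bound for `c0 E + c1 DE + c2 D(D-1)E` at `w = r e^(i(θ - ρ + ρ/(2r)))`, `t = -i ρ/r`

Path `h = a + i s`, `a = clamp (s/√R)` in `[-1,1]`, `R = 1 + ρ²`.  The modulus of the integrand is
`exp (-r DD)`, the multiplier of `D` is `kp = r e^(a+i(θ+s))`.
-/

namespace SokamFA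

open Complex MeasureTheory SokamU SokamPG

/-- The real part of the path. -/
noncomputable def pa (ρ s : ℝ) : ℝ := max (-1) (min 1 (s / √(1 + ρ ^ (2 : ℕ))))

/-- One minus the exponent divided by `r`. -/
noncomputable def DD (ρ θ s : ℝ) : ℝ :=
  1 + pa ρ s + pa ρ s * s / ρ - Real.exp (pa ρ s) * Real.cos (θ + s)

/-- The multiplier. -/
noncomputable def kp (r ρ θ s : ℝ) : ℂ := r * cexp (pa ρ s + (θ + s) * I)

/-- The point. -/
noncomputable def wp (r ρ θ : ℝ) : ℂ := r * cexp ((θ - ρ + ρ / (2 * r)) * I)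

theorem sqrt_R_pos (ρ : ℝ) : 0 < √(1 + ρ ^ (2 : ℕ)) := Real.sqrt_pos.2 (by positivity)

theorem sqrt_R_ge (ρ : ℝ) : 1 ≤ √(1 + ρ ^ (2 : ℕ)) := by
  rw [Real.one_le_sqrt]; nlinarith [sq_nonneg ρ]

theorem cs_one (ρ : ℝ) : 1 / √(1 + ρ ^ (2 : ℕ)) * √(1 + ρ ^ (2 : ℕ)) = 1 := by
  have := sqrt_R_pos ρ
  field_simp

theorem pa_mem (ρ s : ℝ) : |pa ρ s| ≤ 1 := by
  unfold pa
  rw [abs_le]
  exact ⟨le_max_left _ _, max_le (by norm_num) (min_le_left _ _)⟩

@[fun_prop]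
theorem continuous_pa (ρ : ℝ) : Continuous (pa ρ) := by
  unfold pa
  fun_prop

theorem pa_mid {ρ s : ℝ} (h1 : -√(1 + ρ ^ (2 : ℕ)) ≤ s) (h2 : s ≤ √(1 + ρ ^ (2 : ℕ))) :
    pa ρ s = s / √(1 + ρ ^ (2 : ℕ)) := by
  have h := sqrt_R_pos ρ
  unfold pa
  have h3 : s / √(1 + ρ ^ (2 : ℕ)) ≤ 1 := by rwa [div_le_one h]
  have h4 : -1 ≤ s / √(1 + ρ ^ (2 : ℕ)) := by rw [le_div_iff₀ h]; linarith
  rw [min_eq_right h3, max_eq_right h4]

theorem pa_right {ρ s : ℝ} (h2 : √(1 + ρ ^ (2 : ℕ)) ≤ s) : pa ρ s = 1 := by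
  have h := sqrt_R_pos ρ
  unfold pa
  have h3 : 1 ≤ s / √(1 + ρ ^ (2 : ℕ)) := by rwa [le_div_iff₀ h, one_mul]
  rw [min_eq_left h3]
  norm_num

theorem pa_left {ρ s : ℝ} (h2 : s ≤ -√(1 + ρ ^ (2 : ℕ))) : pa ρ s = -1 := by
  have h := sqrt_R_pos ρ
  unfold pa
  have h3 : s / √(1 + ρ ^ (2 : ℕ)) ≤ -1 := by rw [div_le_iff₀ h]; linarith
  rw [min_eq_right (by linarith), max_eq_left h3]

theorem norm_gcst (r ρ : ℝ) (hr : 0 < r) (hρ : 0 < ρ) :
    ‖gcst (-(((ρ / r : ℝ) : ℂ) * I))⁻¹‖ = √(2 * Real.pi * (ρ / r)) := by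
  have hδ : 0 < ρ / r := by positivity
  have h2 : ‖2 * (Real.pi : ℂ) * (-(((ρ / r : ℝ) : ℂ) * I))‖ = 2 * Real.pi * (ρ / r) := by
    rw [norm_mul, norm_mul, norm_neg, norm_mul, Complex.norm_real, Complex.norm_real,
      Real.norm_of_nonneg Real.pi_pos.le, Complex.norm_I, Real.norm_of_nonneg hδ.le]
    norm_num
  have h3 : ((1 / 2 : ℝ) : ℂ) = 1 / 2 := by push_cast; ring
  rw [gcst_inv, Real.sqrt_eq_rpow, ← h2, ← h3, Complex.norm_cpow_real]

theorem norm_cexp_S (r ρ : ℝ) : ‖cexp (S (-(((ρ / r : ℝ) : ℂ) * I)) r)‖ = Real.exp r := by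
  rw [Complex.norm_exp]
  congr 1
  unfold S
  have : (-(((ρ / r : ℝ) : ℂ) * I)) * (r : ℂ) ^ (2 : ℕ) / 2 = ((-(ρ / r * r ^ (2 : ℕ) / 2) : ℝ) : ℂ) * I := by
    push_cast; ring
  have h8 : ∀ v : ℝ, ((v : ℂ) * I).re = 0 := fun v => by simp
  rw [this, Complex.add_re, Complex.ofReal_re, h8, add_zero]

theorem zp_wp {r ρ θ : ℝ} (hr : 0 < r) :
    zp (-(((ρ / r : ℝ) : ℂ) * I)) r * cexp (θ * I) = wp r ρ θ := by
  unfold zp wp
  rw [mul_assoc, ← Complex.exp_add]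
  congr 2
  have h1 : ((r : ℂ)) ≠ 0 := by exact_mod_cast hr.ne'
  push_cast
  field_simp
  ring

theorem kp_eq (r ρ θ s : ℝ) : (r : ℂ) * cexp (θ * I + (pa ρ s + s * I)) = kp r ρ θ s := by
  unfold kp
  congr 2
  ring

theorem norm_kp {r : ℝ} (hr : 0 < r) (ρ θ s : ℝ) : ‖kp r ρ θ s‖ = r * Real.exp (pa ρ s) := by
  unfold kp
  rw [norm_mul, Complex.norm_real, Real.norm_of_nonneg hr.le, Complex.norm_exp]
  simp

theorem ofReal_integral_norm_le_lintegral_aux (g : ℝ → ℂ) (b : ℝ → ℝ) (h : ∀ s, ‖g s‖ ≤ b s) :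
    ENNReal.ofReal ‖∫ s : ℝ, g s‖ ≤ ∫⁻ s : ℝ, ENNReal.ofReal (b s) := by
  rw [ofReal_norm]
  refine (enorm_integral_le_lintegral_enorm _).trans ?_
  refine lintegral_mono fun s => ?_
  rw [← ofReal_norm]
  exact ENNReal.ofReal_le_ofReal (h s)

end SokamFA

end

/-! ### Lib_MP_af4de1_fa.FarSum -/

section
namespace SokamPG
end SokamPG
namespace SokamU
end SokamU
/-!
# From the real integrals to the far waves of `SokamF1.dec`

`t = tt del = -i del`, `w_j = SokamF1.wp r del θ_j`, `ρ = r del`, `R = 1 + ρ²`.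
-/

namespace SokamFA

open Complex MeasureTheory SokamU SokamPG

theorem D2E_eq (t z : ℂ) : SokamBPlus.D2E t z = Ef 1 t z + Ef 2 t z := by
  unfold SokamBPlus.D2E
  rw [Ef_one]
  congr 1
  unfold DE Ef
  have e1 : cexp (-t) * (cexp (-t) * z) = cexp (-(t * ((2 : ℕ) : ℂ))) * z := by
    rw [← mul_assoc, ← Complex.exp_add]
    congr 2
    push_cast
    ring
  have e2 : cexp (-(t * (((2 : ℕ) : ℂ) * (((2 : ℕ) : ℂ) - 1) / 2))) = cexp (-t) := by
    congr 1
    push_cast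
    ring
  rw [e1, e2]
  ring

theorem tt_eq {r del : ℝ} (hr : 0 < r) :
    SokamF1.tt del = -(((r * del / r : ℝ) : ℂ) * I) := by
  unfold SokamF1.tt
  have : r * del / r = del := by field_simp
  rw [this]

theorem wp_eq {r del : ℝ} (hr : 0 < r) (θ : ℝ) : SokamF1.wp r del θ = wp r (r * del) θ := by
  unfold SokamF1.wp wp
  congr 3
  have h1 : ((r : ℂ)) ≠ 0 := by exact_mod_cast hr.ne'
  push_cast
  field_simp

/-- Weighted sums with coefficients of modulus `g0`. -/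
theorem coef_bound {ι : Type*} (J : Finset ι) {g0 : ℝ} (hg : 0 ≤ g0) (c : ι → ℂ)
    (hc : ∀ j ∈ J, ‖c j‖ = g0) (P : ι → ℂ) {B : ℝ} (h : ∑ j ∈ J, ‖P j‖ ≤ B) :
    ‖∑ j ∈ J, c j * P j‖ ≤ g0 * B := by
  refine (norm_sum_le _ _).trans ?_
  calc ∑ j ∈ J, ‖c j * P j‖ = ∑ j ∈ J, g0 * ‖P j‖ := by
        refine Finset.sum_congr rfl fun j hj => ?_
        rw [norm_mul, hc j hj]
    _ = g0 * ∑ j ∈ J, ‖P j‖ := by rw [Finset.mul_sum]
    _ ≤ g0 * B := by gcongr

end SokamFA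

end

/-! ### Lib_MP_af4de1_v3.CenA -/

section
namespace SokamFA
end SokamFA
namespace SokamPG
end SokamPG
namespace SokamU
end SokamU
/-!
# CEN: the representation on the centre path with an arbitrary slope `m > 0`
-/

set_option autoImplicit false

open Complex MeasureTheory Filter Topology SokamU SokamPG SokamFA

namespace SokamCen

/-- the multiplier `r e^(a + i(θ+s))` -/
noncomputable def km (r m θ s : ℝ) : ℂ := r * cexp (pm m s + (θ + s) * I)

theorem pc_eq_pm {m : ℝ} (hm : 0 < m) (s : ℝ) : pc (1 / m) m s = pm m s := by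
  unfold pc pm
  have : 1 / m * m = 1 := by field_simp
  rw [this]
  congr 2
  ring

theorem pm_mem (m s : ℝ) : |pm m s| ≤ 1 := by
  unfold pm
  rw [abs_le]
  exact ⟨le_max_left _ _, max_le (by norm_num) (min_le_left _ _)⟩

@[fun_prop]
theorem continuous_pm (m : ℝ) : Continuous (pm m) := by
  unfold pm
  fun_prop

theorem pm_mid {m s : ℝ} (hm : 0 < m) (h1 : -m ≤ s) (h2 : s ≤ m) : pm m s = s / m := by
  unfold pm
  have h3 : s / m ≤ 1 := by rwa [div_le_one hm]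
  have h4 : -1 ≤ s / m := by rw [le_div_iff₀ hm]; linarith only [h1]
  rw [min_eq_right h3, max_eq_right h4]

theorem pm_right {m s : ℝ} (hm : 0 < m) (h2 : m ≤ s) : pm m s = 1 := by
  unfold pm
  have h3 : 1 ≤ s / m := by rwa [le_div_iff₀ hm, one_mul]
  rw [min_eq_left h3]
  norm_num

theorem pm_left {m s : ℝ} (hm : 0 < m) (h2 : s ≤ -m) : pm m s = -1 := by
  unfold pm
  have h3 : s / m ≤ -1 := by rw [div_le_iff₀ hm]; linarith only [h2]
  rw [min_eq_right (by linarith only [h3]), max_eq_left h3]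

theorem norm_pv {m : ℝ} (hm : 0 < m) (s : ℝ) : ‖pv (1 / m) m s‖ ≤ √(1 + 1 / m ^ (2 : ℕ)) := by
  unfold pv
  split_ifs
  · have h1 : 1 / m ^ (2 : ℕ) = (1 / m) ^ (2 : ℕ) := by rw [div_pow]; norm_num
    rw [h1]
    generalize 1 / m = x
    rw [Complex.norm_def]
    apply Real.sqrt_le_sqrt
    rw [Complex.normSq_apply]
    simp only [Complex.sub_re, Complex.one_re, Complex.mul_re, Complex.ofReal_re,
      Complex.I_re, Complex.ofReal_im, Complex.I_im, Complex.sub_im, Complex.one_im,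
      Complex.mul_im]
    apply le_of_eq
    ring
  · rw [norm_one, Real.one_le_sqrt]
    have : (0 : ℝ) ≤ 1 / m ^ (2 : ℕ) := by positivity
    linarith only [this]

/-- The modulus of `f` on the path. -/
theorem norm_f_path {r ρ : ℝ} (hr : 0 < r) (hρ : 0 < ρ) (m θ s : ℝ) :
    ‖f (-(((ρ / r : ℝ) : ℂ) * I)) r (θ * I) (pm m s + s * I)‖ = Real.exp (-(r * Dm m ρ θ s)) := by
  set a := pm m s with hadef
  have hδ : 0 < ρ / r := by positivity
  have ht := t0_inv hδ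
  unfold f
  rw [Complex.norm_exp]
  congr 1
  have h1 : ((a : ℂ) + s * I) ^ (2 : ℕ) / (2 * (-(((ρ / r : ℝ) : ℂ) * I))) =
      ((-(a * s * (r / ρ)) : ℝ) : ℂ) +
      (((a ^ (2 : ℕ) - s ^ (2 : ℕ)) * (r / ρ) / 2 : ℝ) : ℂ) * I := by
    have h2 : ((a : ℂ) + s * I) ^ (2 : ℕ) / (2 * (-(((ρ / r : ℝ) : ℂ) * I))) =
        ((a : ℂ) + s * I) ^ (2 : ℕ) * (-(((ρ / r : ℝ) : ℂ) * I))⁻¹ / 2 := by
      rw [mul_comm (2 : ℂ) _, ← div_div, div_eq_mul_inv _ (-(((ρ / r : ℝ) : ℂ) * I))]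
    have h4 : (1 / (ρ / r) : ℝ) = r / ρ := by field_simp
    rw [h2, ht, h4]
    have h3 := Complex.I_sq
    push_cast
    linear_combination (((s : ℂ) ^ (2 : ℕ) * ((r / ρ) * I)) / 2 + (a : ℂ) * s * (r / ρ)) * h3
  have h4 : ((r : ℂ) * (cexp (θ * I + (a + s * I)) - 1 - (a + s * I))).re =
      r * (Real.exp a * Real.cos (θ + s) - 1 - a) := by
    have h5 : (θ : ℂ) * I + (a + s * I) = (a : ℂ) + ((θ + s : ℝ) : ℂ) * I := by
      push_cast; ring
    rw [h5, Complex.re_ofReal_mul]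
    congr 1
    simp only [Complex.sub_re, Complex.add_re, Complex.one_re, Complex.ofReal_re,
      Complex.mul_re, Complex.I_re, Complex.I_im, Complex.ofReal_im]
    rw [Complex.exp_re]
    simp only [Complex.add_re, Complex.add_im, Complex.mul_re, Complex.mul_im, Complex.ofReal_re,
      Complex.ofReal_im, Complex.I_re, Complex.I_im]
    ring_nf
  have h8 : ∀ u v : ℝ, ((u : ℂ) + (v : ℂ) * I).re = u := fun u v => by simp
  rw [Complex.add_re, h4, h1, h8]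
  unfold Dm
  rw [← hadef]
  field_simp
  ring

theorem km_eq (r m θ s : ℝ) : (r : ℂ) * cexp (θ * I + (pm m s + s * I)) = km r m θ s := by
  unfold km
  congr 2
  ring

theorem norm_km {r : ℝ} (hr : 0 < r) (m θ s : ℝ) : ‖km r m θ s‖ = r * Real.exp (pm m s) := by
  unfold km
  rw [norm_mul, Complex.norm_real, Real.norm_of_nonneg hr.le, Complex.norm_exp]
  simp

/-- THE ABSOLUTE BOUND. -/
theorem abs_cen {r ρ m : ℝ} (hr : 0 < r) (hρ : 0 < ρ) (hm : 0 < m) (θ : ℝ) (c0 c1 c2 : ℂ) :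
    ENNReal.ofReal ‖c0 * Ef 0 (-(((ρ / r : ℝ) : ℂ) * I)) (SokamFA.wp r ρ θ) +
      c1 * Ef 1 (-(((ρ / r : ℝ) : ℂ) * I)) (SokamFA.wp r ρ θ) +
      c2 * Ef 2 (-(((ρ / r : ℝ) : ℂ) * I)) (SokamFA.wp r ρ θ)‖ ≤
    ENNReal.ofReal (√(r / (2 * Real.pi * ρ)) * Real.exp r) *
      ∫⁻ s : ℝ, ENNReal.ofReal (√(1 + 1 / m ^ (2 : ℕ)) *
        ‖c0 + c1 * km r m θ s + c2 * km r m θ s ^ (2 : ℕ)‖ * Real.exp (-(r * Dm m ρ θ s))) := by
  have hδ : 0 < ρ / r := by positivity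
  set t : ℂ := -(((ρ / r : ℝ) : ℂ) * I) with ht
  set c : ℝ := 1 / m with hc
  have hcpos : 0 < c := by positivity
  have hcs1 : c * m = 1 := by rw [hc]; field_simp
  have hcs : c * m ≤ 1 := hcs1.le
  have hk : |((r : ℂ)).im| < c * m / (ρ / r) := by
    rw [Complex.ofReal_im, abs_zero, hcs1]; positivity
  have key : ∀ j : ℕ, gcst t⁻¹ * Ef j t (SokamFA.wp r ρ θ) = cexp (S t r) *
      ∫ s : ℝ, gi c m (fun h => ((r : ℂ) * cexp (θ * I + h)) ^ j) r (θ * I) t s := by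
    intro j
    have h := path_formula hcpos hm hcs hδ (r : ℂ) (θ * I) hk j
    rw [← ht, zp_wp hr] at h
    exact h
  have hint : ∀ j : ℕ, Integrable (gi c m (fun h => ((r : ℂ) * cexp (θ * I + h)) ^ j) r (θ * I) t) :=
    fun j => integrable_path hcpos hm hcs hδ (r : ℂ) (θ * I) hk (Wt_pow (r : ℂ) (θ * I) j)
  have hsum : gcst t⁻¹ * (c0 * Ef 0 t (SokamFA.wp r ρ θ) + c1 * Ef 1 t (SokamFA.wp r ρ θ) +
      c2 * Ef 2 t (SokamFA.wp r ρ θ)) = cexp (S t r) * ∫ s : ℝ,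
      (c0 * gi c m (fun h => ((r : ℂ) * cexp (θ * I + h)) ^ (0 : ℕ)) r (θ * I) t s +
      c1 * gi c m (fun h => ((r : ℂ) * cexp (θ * I + h)) ^ (1 : ℕ)) r (θ * I) t s +
      c2 * gi c m (fun h => ((r : ℂ) * cexp (θ * I + h)) ^ (2 : ℕ)) r (θ * I) t s) := by
    have hA : Integrable fun s =>
        c0 * gi c m (fun h => ((r : ℂ) * cexp (θ * I + h)) ^ (0 : ℕ)) r (θ * I) t s +
        c1 * gi c m (fun h => ((r : ℂ) * cexp (θ * I + h)) ^ (1 : ℕ)) r (θ * I) t s :=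
      ((hint 0).const_mul c0).add ((hint 1).const_mul c1)
    rw [integral_add hA ((hint 2).const_mul c2),
      integral_add ((hint 0).const_mul c0) ((hint 1).const_mul c1),
      integral_const_mul, integral_const_mul, integral_const_mul]
    linear_combination c0 * key 0 + c1 * key 1 + c2 * key 2
  have hpt : ∀ s : ℝ, ‖c0 * gi c m (fun h => ((r : ℂ) * cexp (θ * I + h)) ^ (0 : ℕ)) r (θ * I) t s +
      c1 * gi c m (fun h => ((r : ℂ) * cexp (θ * I + h)) ^ (1 : ℕ)) r (θ * I) t s +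
      c2 * gi c m (fun h => ((r : ℂ) * cexp (θ * I + h)) ^ (2 : ℕ)) r (θ * I) t s‖ ≤
      √(1 + 1 / m ^ (2 : ℕ)) *
        ‖c0 + c1 * km r m θ s + c2 * km r m θ s ^ (2 : ℕ)‖ * Real.exp (-(r * Dm m ρ θ s)) := by
    intro s
    have hpz : pz c m s = (pm m s : ℂ) + s * I := by
      unfold pz
      rw [hc, pc_eq_pm hm]
    have e1 : c0 * gi c m (fun h => ((r : ℂ) * cexp (θ * I + h)) ^ (0 : ℕ)) r (θ * I) t s +
      c1 * gi c m (fun h => ((r : ℂ) * cexp (θ * I + h)) ^ (1 : ℕ)) r (θ * I) t s +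
      c2 * gi c m (fun h => ((r : ℂ) * cexp (θ * I + h)) ^ (2 : ℕ)) r (θ * I) t s =
      pv c m s * (c0 + c1 * km r m θ s + c2 * km r m θ s ^ (2 : ℕ)) *
        f t r (θ * I) (pm m s + s * I) := by
      simp only [gi, hpz, km_eq]
      ring
    rw [e1, norm_mul, norm_mul, ht, norm_f_path hr hρ]
    have h1 := norm_pv hm s
    gcongr
  have hG : ‖gcst t⁻¹‖ = √(2 * Real.pi * (ρ / r)) := norm_gcst r ρ hr hρ
  have hSn : ‖cexp (S t r)‖ = Real.exp r := norm_cexp_S r ρ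
  have hmain : ENNReal.ofReal (√(2 * Real.pi * (ρ / r))) *
      ENNReal.ofReal ‖c0 * Ef 0 t (SokamFA.wp r ρ θ) + c1 * Ef 1 t (SokamFA.wp r ρ θ) +
      c2 * Ef 2 t (SokamFA.wp r ρ θ)‖ ≤ ENNReal.ofReal (Real.exp r) *
      ∫⁻ s : ℝ, ENNReal.ofReal (√(1 + 1 / m ^ (2 : ℕ)) *
        ‖c0 + c1 * km r m θ s + c2 * km r m θ s ^ (2 : ℕ)‖ * Real.exp (-(r * Dm m ρ θ s))) := by
    rw [← ENNReal.ofReal_mul (Real.sqrt_nonneg _), ← hG, ← norm_mul, hsum, norm_mul, hSn,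
      ENNReal.ofReal_mul (Real.exp_pos _).le]
    refine mul_le_mul_right ?_ _
    refine (ofReal_integral_norm_le_lintegral_aux _ _ ?_)
    exact hpt
  have hc2 : √(r / (2 * Real.pi * ρ)) * √(2 * Real.pi * (ρ / r)) = 1 := by
    rw [← Real.sqrt_mul (by positivity)]
    have : r / (2 * Real.pi * ρ) * (2 * Real.pi * (ρ / r)) = 1 := by
      have := Real.pi_pos
      field_simp
    rw [this, Real.sqrt_one]
  calc ENNReal.ofReal ‖c0 * Ef 0 t (SokamFA.wp r ρ θ) + c1 * Ef 1 t (SokamFA.wp r ρ θ) +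
      c2 * Ef 2 t (SokamFA.wp r ρ θ)‖ = ENNReal.ofReal (√(r / (2 * Real.pi * ρ))) *
        (ENNReal.ofReal (√(2 * Real.pi * (ρ / r))) *
      ENNReal.ofReal ‖c0 * Ef 0 t (SokamFA.wp r ρ θ) + c1 * Ef 1 t (SokamFA.wp r ρ θ) +
      c2 * Ef 2 t (SokamFA.wp r ρ θ)‖) := by
        rw [← mul_assoc, ← ENNReal.ofReal_mul (Real.sqrt_nonneg _), hc2, ENNReal.ofReal_one, one_mul]
    _ ≤ _ := by
        rw [ENNReal.ofReal_mul (Real.sqrt_nonneg _),
          mul_assoc (ENNReal.ofReal √(r / (2 * Real.pi * ρ)))]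
        exact mul_le_mul_right hmain _

/-- Absolute bound of one wave, general slope `m`. -/
theorem wave_cen {r del m : ℝ} (hr : 0 < r) (hd : 0 < del) (hm : 0 < m) (θ : ℝ) (c0 c1 c2 : ℂ) :
    ENNReal.ofReal ‖c0 * E (SokamF1.tt del) (SokamF1.wp r del θ) +
      c1 * DE (SokamF1.tt del) (SokamF1.wp r del θ) +
      c2 * SokamBPlus.D2E (SokamF1.tt del) (SokamF1.wp r del θ)‖ ≤
    ENNReal.ofReal (√(r / (2 * Real.pi * (r * del))) * Real.exp r) *
      ∫⁻ s : ℝ, ENNReal.ofReal (√(1 + 1 / m ^ (2 : ℕ)) *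
        ‖c0 + c1 * km r m θ s + c2 * (km r m θ s ^ (2 : ℕ) + km r m θ s)‖ *
          Real.exp (-(r * Dm m (r * del) θ s))) := by
  have h := abs_cen hr (mul_pos hr hd) hm θ c0 (c1 + c2) c2
  rw [← SokamFA.tt_eq hr, ← SokamFA.wp_eq hr] at h
  have e1 : c0 * E (SokamF1.tt del) (SokamF1.wp r del θ) +
      c1 * DE (SokamF1.tt del) (SokamF1.wp r del θ) +
      c2 * SokamBPlus.D2E (SokamF1.tt del) (SokamF1.wp r del θ) =
      c0 * Ef 0 (SokamF1.tt del) (SokamF1.wp r del θ) +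
      (c1 + c2) * Ef 1 (SokamF1.tt del) (SokamF1.wp r del θ) +
      c2 * Ef 2 (SokamF1.tt del) (SokamF1.wp r del θ) := by
    rw [SokamFA.D2E_eq, Ef_zero, Ef_one]
    ring
  rw [e1]
  refine h.trans (le_of_eq ?_)
  congr 1
  refine lintegral_congr fun s => ?_
  congr 3
  ring_nf

end SokamCen

end

/-! ### Lib_MP_af4de1_v3.CenB -/

section
/-!
# CEN: the part `Qm` of the height without the angle (`0 < ρ ≤ m`)
-/

set_option autoImplicit false

namespace SokamCen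

open Real

theorem Dm_eq (m ρ θ s : ℝ) : Dm m ρ θ s = Qm m ρ s + exp (pm m s) * (1 - cos (θ + s)) := by
  unfold Dm Qm
  ring

@[fun_prop]
theorem continuous_Qm (m ρ : ℝ) : Continuous (Qm m ρ) := by
  unfold Qm
  fun_prop

@[fun_prop]
theorem continuous_Dm (m ρ θ : ℝ) : Continuous (Dm m ρ θ) := by
  unfold Dm
  fun_prop

theorem pm_nonneg {m s : ℝ} (hm : 0 < m) (hs : 0 ≤ s) : 0 ≤ pm m s := by
  unfold pm
  exact le_max_of_le_right (le_min one_pos.le (div_nonneg hs hm.le))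

theorem pm_nonpos {m s : ℝ} (hm : 0 < m) (hs : s ≤ 0) : pm m s ≤ 0 := by
  unfold pm
  refine max_le (by norm_num) ((min_le_right _ _).trans ?_)
  exact div_nonpos_of_nonpos_of_nonneg hs hm.le

theorem one_le_mu {m ρ : ℝ} (hρ : 0 < ρ) (hm : ρ ≤ m) : 1 ≤ m / ρ := by
  rwa [le_div_iff₀ hρ, one_mul]

private theorem cb_mu {m ρ s : ℝ} (hρ : 0 < ρ) (hm : 0 < m) : s / m * s / ρ = m / ρ * (s / m) ^ (2 : ℕ) := by
  field_simp

theorem Qm_right {m ρ s T : ℝ} (hρ : 0 < ρ) (hm : 0 < m) (hs : 0 ≤ s) (hT : s / m ≤ T) (hT1 : T ≤ 1) :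
    aR m ρ T * s ^ (2 : ℕ) ≤ Qm m ρ s := by
  have ha0 : 0 ≤ s / m := div_nonneg hs hm.le
  have hpa : pm m s = s / m := by
    unfold pm
    rw [min_eq_right (hT.trans hT1), max_eq_right (by linarith only [ha0])]
  have e1 : aR m ρ T * s ^ (2 : ℕ) = (m / ρ - (1 + T / 3 + 5 * T ^ (2 : ℕ) / 48) / 2) * (s / m) ^ (2 : ℕ) := by
    unfold aR
    field_simp
  unfold Qm
  rw [hpa, e1, cb_mu hρ hm]
  have hexp := Real.exp_bound' ha0 (hT.trans hT1) (n := 4) (by norm_num)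
  generalize s / m = a at *
  generalize m / ρ = mu
  have h2 : Real.exp a ≤ 1 + a + a ^ (2 : ℕ) / 2 + a ^ (3 : ℕ) / 6 + 5 * a ^ (4 : ℕ) / 96 := by
    refine hexp.trans (le_of_eq ?_)
    norm_num [Finset.sum_range_succ, Nat.factorial]
    ring
  have h3 : a / 3 + 5 * a ^ (2 : ℕ) / 48 ≤ T / 3 + 5 * T ^ (2 : ℕ) / 48 := by
    have := pow_le_pow_left₀ ha0 hT 2
    linarith only [hT, this]
  have h4 := mul_le_mul_of_nonneg_right h3 (sq_nonneg a)
  linarith only [h4, h2]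

theorem Qm_left {m ρ s : ℝ} (hρ : 0 < ρ) (hm : 0 < m) (hs : 0 ≤ s) (hT : s / m ≤ 1) :
    aL m ρ * s ^ (2 : ℕ) ≤ Qm m ρ (-s) := by
  have ha0 : 0 ≤ s / m := div_nonneg hs hm.le
  have hpa : pm m (-s) = -(s / m) := by
    unfold pm
    rw [neg_div, min_eq_right (by linarith only [ha0]), max_eq_right (by linarith only [hT])]
  have e1 : aL m ρ * s ^ (2 : ℕ) = (m / ρ - 1 / 2) * (s / m) ^ (2 : ℕ) := by
    unfold aL
    field_simp
  have e2 : -(s / m) * -s / ρ = s / m * s / ρ := by ring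
  unfold Qm
  rw [hpa, e1, e2, cb_mu hρ hm]
  generalize s / m = b at *
  generalize m / ρ = mu
  have h2 : Real.exp (-b) ≤ 1 - b + b ^ (2 : ℕ) / 2 := by
    rw [Real.exp_neg]
    have h3 := Real.quadratic_le_exp_of_nonneg ha0
    have h4 : 0 < 1 + b + b ^ (2 : ℕ) / 2 := by (clear * - ha0; positivity)
    refine (inv_anti₀ h4 h3).trans ?_
    rw [inv_le_iff_one_le_mul₀ h4]
    nlinarith only []
  linarith only [h2]

private theorem rayr_mono {t x : ℝ} (ht : 0 < t) (htx : t ≤ x) (hx : x ≤ 1) :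
    (Real.exp x - 1) / x - (Real.exp t - 1) / t ≤ x - t := by
  have hd : ∀ y : ℝ, 0 < y → HasDerivAt (fun y : ℝ => y - (Real.exp y - 1) / y)
      (1 - (Real.exp y * y - (Real.exp y - 1) * 1) / y ^ (2 : ℕ)) y := by
    intro y hy
    exact (hasDerivAt_id y).sub (((Real.hasDerivAt_exp y).sub_const 1).div (hasDerivAt_id y) hy.ne')
  have hm : MonotoneOn (fun y : ℝ => y - (Real.exp y - 1) / y) (Set.Icc t 1) := by
    refine monotoneOn_of_deriv_nonneg (convex_Icc t 1) ?_ ?_ ?_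
    · intro y hy
      exact (hd y (ht.trans_le hy.1)).continuousAt.continuousWithinAt
    · intro y hy
      rw [interior_Icc] at hy
      exact (hd y (ht.trans hy.1)).differentiableAt.differentiableWithinAt
    · intro y hy
      rw [interior_Icc] at hy
      have hy0 : 0 < y := ht.trans hy.1
      rw [(hd y hy0).deriv, sub_nonneg, div_le_one (by positivity)]
      have h1 := Real.add_one_le_exp y
      have h2 : 0 ≤ (Real.exp y - (y + 1)) * (1 - y) := mul_nonneg (by linarith only [h1]) (by linarith only [hy.2])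
      linarith only [h2]
  have h := hm ⟨le_rfl, htx.trans hx⟩ ⟨htx, hx⟩ htx
  simp only at h
  linarith only [h]

private theorem rayl_mono {t x : ℝ} (ht : 0 < t) (htx : t ≤ x) (hx : x ≤ 1) :
    (1 - t - Real.exp (-t)) / t + t ≤ (1 - x - Real.exp (-x)) / x + x := by
  have hd : ∀ y : ℝ, 0 < y → HasDerivAt (fun y : ℝ => (1 - y - Real.exp (-y)) / y + y)
      (((-1 - Real.exp (-y) * -1) * y - (1 - y - Real.exp (-y)) * 1) / y ^ (2 : ℕ) + 1) y := by
    intro y hy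
    have h1 : HasDerivAt (fun y : ℝ => Real.exp (-y)) (Real.exp (-y) * -1) y :=
      (hasDerivAt_neg y).exp
    have h2 : HasDerivAt (fun y : ℝ => 1 - y) (-1) y := (hasDerivAt_id y).const_sub 1
    exact ((h2.sub h1).div (hasDerivAt_id y) hy.ne').add (hasDerivAt_id y)
  have hm : MonotoneOn (fun y : ℝ => (1 - y - Real.exp (-y)) / y + y) (Set.Icc t 1) := by
    refine monotoneOn_of_deriv_nonneg (convex_Icc t 1) ?_ ?_ ?_
    · intro y hy
      exact (hd y (ht.trans_le hy.1)).continuousAt.continuousWithinAt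
    · intro y hy
      rw [interior_Icc] at hy
      exact (hd y (ht.trans hy.1)).differentiableAt.differentiableWithinAt
    · intro y hy
      rw [interior_Icc] at hy
      have hy0 : 0 < y := ht.trans hy.1
      rw [(hd y hy0).deriv]
      have h1 := Real.add_one_le_exp (-y)
      have h3 : -1 ≤ ((-1 - Real.exp (-y) * -1) * y - (1 - y - Real.exp (-y)) * 1) / y ^ (2 : ℕ) := by
        rw [le_div_iff₀ (by positivity)]
        have h2 : 0 ≤ (Real.exp (-y) - (-y + 1)) * (1 + y) := mul_nonneg (by linarith only [h1]) (by linarith only [hy0])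
        linarith only [h2]
      linarith only [h3]
  exact hm ⟨le_rfl, htx.trans hx⟩ ⟨htx, hx⟩ htx

/-- the function of the right side, `x = s / √R` -/
private noncomputable def qr (m x : ℝ) : ℝ := 1 + min 1 x + m * min 1 x * x - Real.exp (min 1 x)

/-- the function of the left side -/
private noncomputable def ql (m x : ℝ) : ℝ := 1 - min 1 x + m * min 1 x * x - Real.exp (-min 1 x)

private theorem qr_mono {m t x : ℝ} (hm : 1 ≤ m) (ht : 0 < t) (htx : t ≤ x) : qr m t / t ≤ qr m x / x := by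
  have hx0 : 0 < x := ht.trans_le htx
  -- below `1`
  have hA : ∀ u v : ℝ, 0 < u → u ≤ v → v ≤ 1 → qr m u / u ≤ qr m v / v := by
    intro u v hu huv hv
    have hv0 : 0 < v := hu.trans_le huv
    have e : ∀ w : ℝ, 0 < w → w ≤ 1 → qr m w / w = 1 - (Real.exp w - 1) / w + m * w := by
      intro w hw hw1
      unfold qr
      rw [min_eq_right hw1]
      field_simp
      ring
    rw [e u hu (huv.trans hv), e v hv0 hv]
    have h1 := rayr_mono hu huv hv
    have h2 : (v - u) ≤ m * (v - u) := le_mul_of_one_le_left (by linarith only [huv]) hm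
    linarith only [h1, h2]
  -- above `1`
  have hB : ∀ u v : ℝ, 1 ≤ u → u ≤ v → qr m u / u ≤ qr m v / v := by
    intro u v hu huv
    have hu0 : 0 < u := by linarith only [hu]
    have hv0 : 0 < v := by linarith only [hu, huv]
    have e : ∀ w : ℝ, 1 ≤ w → qr m w / w = m - (Real.exp 1 - 2) / w := by
      intro w hw
      have hw0 : 0 < w := by linarith only [hw]
      unfold qr
      rw [min_eq_left hw]
      field_simp
      ring
    rw [e u hu, e v (hu.trans huv)]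
    have h1 : 0 ≤ Real.exp 1 - 2 := by
      have := Real.exp_one_gt_d9
      linarith only [this]
    have h2 : (Real.exp 1 - 2) / v ≤ (Real.exp 1 - 2) / u := div_le_div_of_nonneg_left h1 hu0 huv
    linarith only [h2]
  rcases le_total x 1 with h1 | h1
  · exact hA t x ht htx h1
  · rcases le_total t 1 with h2 | h2
    · exact (hA t 1 ht h2 le_rfl).trans (hB 1 x le_rfl h1)
    · exact hB t x h2 htx

private theorem ql_mono {m t x : ℝ} (hm : 1 ≤ m) (ht : 0 < t) (htx : t ≤ x) : ql m t / t ≤ ql m x / x := by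
  have hx0 : 0 < x := ht.trans_le htx
  have hA : ∀ u v : ℝ, 0 < u → u ≤ v → v ≤ 1 → ql m u / u ≤ ql m v / v := by
    intro u v hu huv hv
    have hv0 : 0 < v := hu.trans_le huv
    have e : ∀ w : ℝ, 0 < w → w ≤ 1 → ql m w / w = (1 - w - Real.exp (-w)) / w + m * w := by
      intro w hw hw1
      unfold ql
      rw [min_eq_right hw1]
      field_simp
      ring
    rw [e u hu (huv.trans hv), e v hv0 hv]
    have h1 := rayl_mono hu huv hv
    have h2 : (v - u) ≤ m * (v - u) := le_mul_of_one_le_left (by linarith only [huv]) hm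
    linarith only [h1, h2]
  have hB : ∀ u v : ℝ, 1 ≤ u → u ≤ v → ql m u / u ≤ ql m v / v := by
    intro u v hu huv
    have hu0 : 0 < u := by linarith only [hu]
    have hv0 : 0 < v := by linarith only [hu, huv]
    have e : ∀ w : ℝ, 1 ≤ w → ql m w / w = m - Real.exp (-1) / w := by
      intro w hw
      have hw0 : 0 < w := by linarith only [hw]
      unfold ql
      rw [min_eq_left hw]
      field_simp
      ring
    rw [e u hu, e v (hu.trans huv)]
    have h2 : Real.exp (-1) / v ≤ Real.exp (-1) / u := div_le_div_of_nonneg_left (Real.exp_nonneg _) hu0 huv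
    linarith only [h2]
  rcases le_total x 1 with h1 | h1
  · exact hA t x ht htx h1
  · rcases le_total t 1 with h2 | h2
    · exact (hA t 1 ht h2 le_rfl).trans (hB 1 x le_rfl h1)
    · exact hB t x h2 htx


private theorem Qm_eq_qr {m ρ s : ℝ} (hρ : 0 < ρ) (hm : 0 < m) (hs : 0 ≤ s) :
    Qm m ρ s = qr (m / ρ) (s / m) := by
  have h1 : pm m s = min 1 (s / m) := by
    unfold pm
    refine max_eq_right ?_
    have : 0 ≤ min 1 (s / m) := le_min one_pos.le (div_nonneg hs hm.le)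
    linarith only [this]
  have h2 : s / ρ = m / ρ * (s / m) := by
    field_simp
  unfold Qm qr
  rw [h1, mul_div_assoc, h2]
  ring

private theorem Qm_eq_ql {m ρ s : ℝ} (hρ : 0 < ρ) (hm : 0 < m) (hs : 0 ≤ s) :
    Qm m ρ (-s) = ql (m / ρ) (s / m) := by
  have h1 : pm m (-s) = -min 1 (s / m) := by
    unfold pm
    have h0 : 0 ≤ s / m := div_nonneg hs hm.le
    rw [neg_div, min_eq_right (by linarith only [h0]), ← max_neg_neg]
  have h2 : s / ρ = m / ρ * (s / m) := by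
    field_simp
  unfold Qm ql
  rw [h1, mul_div_assoc, neg_div, h2]
  ring

theorem Qm_ray_right {m ρ s1 s : ℝ} (hρ : 0 < ρ) (hm : ρ ≤ m) (hs1 : 0 < s1) (h : s1 ≤ s) :
    Qm m ρ s1 * (s / s1) ≤ Qm m ρ s := by
  have hR : 0 < m := hρ.trans_le hm
  have hs : 0 < s := hs1.trans_le h
  have h1 := qr_mono (one_le_mu hρ hm) (div_pos hs1 hR) (div_le_div_of_nonneg_right h hR.le)
  rw [← Qm_eq_qr hρ hR hs1.le, ← Qm_eq_qr hρ hR hs.le, div_div_eq_mul_div, div_div_eq_mul_div,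
    div_le_div_iff₀ hs1 hs] at h1
  have h2 : Qm m ρ s1 * s ≤ Qm m ρ s * s1 := by
    have h3 : Qm m ρ s1 * m * s = (Qm m ρ s1 * s) * m := by ring
    have h4 : Qm m ρ s * m * s1 = (Qm m ρ s * s1) * m := by ring
    rw [h3, h4] at h1
    exact le_of_mul_le_mul_right h1 hR
  rw [← mul_div_assoc, div_le_iff₀ hs1]
  exact h2

theorem Qm_ray_left {m ρ s1 s : ℝ} (hρ : 0 < ρ) (hm : ρ ≤ m) (hs1 : 0 < s1) (h : s1 ≤ s) :
    Qm m ρ (-s1) * (s / s1) ≤ Qm m ρ (-s) := by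
  have hR : 0 < m := hρ.trans_le hm
  have hs : 0 < s := hs1.trans_le h
  have h1 := ql_mono (one_le_mu hρ hm) (div_pos hs1 hR) (div_le_div_of_nonneg_right h hR.le)
  rw [← Qm_eq_ql hρ hR hs1.le, ← Qm_eq_ql hρ hR hs.le, div_div_eq_mul_div, div_div_eq_mul_div,
    div_le_div_iff₀ hs1 hs] at h1
  have h2 : Qm m ρ (-s1) * s ≤ Qm m ρ (-s) * s1 := by
    have h3 : Qm m ρ (-s1) * m * s = (Qm m ρ (-s1) * s) * m := by ring
    have h4 : Qm m ρ (-s) * m * s1 = (Qm m ρ (-s) * s1) * m := by ring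
    rw [h3, h4] at h1
    exact le_of_mul_le_mul_right h1 hR
  rw [← mul_div_assoc, div_le_iff₀ hs1]
  exact h2

theorem aR_pos {m ρ T : ℝ} (hρ : 0 < ρ) (hm : ρ ≤ m) (hT0 : 0 ≤ T) (hT1 : T ≤ 1) : 0 < aR m ρ T := by
  have h1 := one_le_mu hρ hm
  have h2 : 0 < m := hρ.trans_le hm
  unfold aR
  refine div_pos ?_ (by positivity)
  nlinarith only [hT0, hT1, h1]

theorem aL_pos {m ρ : ℝ} (hρ : 0 < ρ) (hm : ρ ≤ m) : 0 < aL m ρ := by
  have h1 := one_le_mu hρ hm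
  have h2 : 0 < m := hρ.trans_le hm
  unfold aL
  exact div_pos (by linarith only [h1]) (by positivity)

theorem cT_nonneg {m t : ℝ} (hm : 0 < m) (ht : 0 ≤ t) : 0 ≤ cT m t :=
  le_min one_pos.le (div_nonneg ht hm.le)

theorem cT_le (m t : ℝ) : cT m t ≤ 1 := min_le_left _ _

theorem cF_pos {m t : ℝ} (hm : 0 < m) (ht : 0 < t) : 0 < min 1 (m / t) :=
  lt_min one_pos (div_pos hm ht)

theorem AR_pos {m ρ t : ℝ} (hρ : 0 < ρ) (hm : ρ ≤ m) (ht : 0 < t) : 0 < AR m ρ t := by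
  have h2 : 0 < m := hρ.trans_le hm
  exact mul_pos (aR_pos hρ hm (cT_nonneg h2 ht.le) (cT_le _ _)) (cF_pos h2 ht)

theorem AL_pos {m ρ t : ℝ} (hρ : 0 < ρ) (hm : ρ ≤ m) (ht : 0 < t) : 0 < AL m ρ t := by
  have h2 : 0 < m := hρ.trans_le hm
  exact mul_pos (aL_pos hρ hm) (cF_pos h2 ht)

/-- `Qm s ≥ AR s²` on `[0, t]` -/
theorem Qm_AR {m ρ s t : ℝ} (hρ : 0 < ρ) (hm : ρ ≤ m) (hs : 0 ≤ s) (h : s ≤ t) (ht : 0 < t) :
    AR m ρ t * s ^ (2 : ℕ) ≤ Qm m ρ s := by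
  have hm0 : 0 < m := hρ.trans_le hm
  have hA := aR_pos hρ hm (cT_nonneg hm0 ht.le) (cT_le m t)
  have hF := cF_pos hm0 ht
  rcases le_total s m with h1 | h1
  · have h2 : s / m ≤ cT m t :=
      le_min ((div_le_one hm0).2 h1) (div_le_div_of_nonneg_right h hm0.le)
    refine le_trans ?_ (Qm_right hρ hm0 hs h2 (cT_le _ _))
    unfold AR
    have h3 : min 1 (m / t) ≤ 1 := min_le_left _ _
    have h4 : 0 ≤ aR m ρ (cT m t) * s ^ (2 : ℕ) := by (clear * - hA; positivity)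
    nlinarith only [h3, h4]
  · have hT : cT m t = 1 := by
      unfold cT
      rw [min_eq_left]
      rw [le_div_iff₀ hm0, one_mul]
      exact h1.trans h
    have h2 := Qm_right hρ hm0 hm0.le (T := 1) (by rw [div_self hm0.ne']) le_rfl
    have h3 := Qm_ray_right hρ hm hm0 h1
    refine le_trans ?_ h3
    unfold AR
    rw [hT] at hA ⊢
    have h5 : min 1 (m / t) ≤ m / t := min_le_right _ _
    have h6 : aR m ρ 1 * min 1 (m / t) * s ^ (2 : ℕ) ≤ aR m ρ 1 * (m / t) * s ^ (2 : ℕ) := by gcongr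
    have h7 : aR m ρ 1 * (m / t) * s ^ (2 : ℕ) ≤ aR m ρ 1 * m * s := by
      have : s ^ (2 : ℕ) / t ≤ s := by
        rw [div_le_iff₀ ht]
        nlinarith only [hs, h]
      have e : aR m ρ 1 * (m / t) * s ^ (2 : ℕ) = aR m ρ 1 * m * (s ^ (2 : ℕ) / t) := by ring
      rw [e]
      gcongr
    have h8 : aR m ρ 1 * m * s ≤ Qm m ρ m * (s / m) := by
      have e : aR m ρ 1 * m * s = aR m ρ 1 * m ^ (2 : ℕ) * (s / m) := by field_simp
      rw [e]
      gcongr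
    linarith only [h6, h7, h8]

/-- `Qm (-v) ≥ AL v²` on `[0, t]` -/
theorem Qm_AL {m ρ s t : ℝ} (hρ : 0 < ρ) (hm : ρ ≤ m) (hs : 0 ≤ s) (h : s ≤ t) (ht : 0 < t) :
    AL m ρ t * s ^ (2 : ℕ) ≤ Qm m ρ (-s) := by
  have hm0 : 0 < m := hρ.trans_le hm
  have hA := aL_pos hρ hm
  have hF := cF_pos hm0 ht
  rcases le_total s m with h1 | h1
  · refine le_trans ?_ (Qm_left hρ hm0 hs ((div_le_one hm0).2 h1))
    unfold AL
    have h3 : min 1 (m / t) ≤ 1 := min_le_left _ _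
    have h4 : 0 ≤ aL m ρ * s ^ (2 : ℕ) := by (clear * - hA; positivity)
    nlinarith only [h3, h4]
  · have h2 := Qm_left hρ hm0 hm0.le (by rw [div_self hm0.ne'])
    have h3 := Qm_ray_left hρ hm hm0 h1
    refine le_trans ?_ h3
    unfold AL
    have h5 : min 1 (m / t) ≤ m / t := min_le_right _ _
    have h6 : aL m ρ * min 1 (m / t) * s ^ (2 : ℕ) ≤ aL m ρ * (m / t) * s ^ (2 : ℕ) := by gcongr
    have h7 : aL m ρ * (m / t) * s ^ (2 : ℕ) ≤ aL m ρ * m * s := by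
      have : s ^ (2 : ℕ) / t ≤ s := by
        rw [div_le_iff₀ ht]
        nlinarith only [hs, h]
      have e : aL m ρ * (m / t) * s ^ (2 : ℕ) = aL m ρ * m * (s ^ (2 : ℕ) / t) := by ring
      rw [e]
      gcongr
    have h8 : aL m ρ * m * s ≤ Qm m ρ (-m) * (s / m) := by
      have e : aL m ρ * m * s = aL m ρ * m ^ (2 : ℕ) * (s / m) := by field_simp
      rw [e]
      gcongr
    linarith only [h6, h7, h8]

theorem Qm_nonneg {m ρ : ℝ} (hρ : 0 < ρ) (hm : ρ ≤ m) (s : ℝ) : 0 ≤ Qm m ρ s := by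
  rcases eq_or_ne s 0 with rfl | h0
  · unfold Qm pm
    simp
  rcases le_total 0 s with hs | hs
  · have h1 : 0 < s := lt_of_le_of_ne hs h0.symm
    have h2 := Qm_AR hρ hm hs le_rfl h1
    have h3 := AR_pos hρ hm h1
    refine le_trans ?_ h2
    positivity
  · have h1 : 0 < -s := by
      have : s < 0 := lt_of_le_of_ne hs h0
      linarith only [this]
    have h2 := Qm_AL hρ hm h1.le le_rfl h1
    have h3 := AL_pos hρ hm h1
    rw [neg_neg] at h2
    refine le_trans ?_ h2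
    (clear * - h3 h1; positivity)

theorem Dm_nonneg {m ρ : ℝ} (hρ : 0 < ρ) (hm : ρ ≤ m) (θ s : ℝ) : 0 ≤ Dm m ρ θ s := by
  rw [Dm_eq]
  have h1 := Qm_nonneg hρ hm s
  have h2 := Real.cos_le_one (θ + s)
  have h3 : 0 ≤ exp (pm m s) * (1 - cos (θ + s)) := mul_nonneg (exp_pos _).le (by linarith only [h2])
  linarith only [h1, h3]

/-- behind, right: `Qm (t+z) ≥ AR t² + AR t z` -/
theorem Qm_beh_R {m ρ t z : ℝ} (hρ : 0 < ρ) (hm : ρ ≤ m) (ht : 0 < t) (hz : 0 ≤ z) :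
    AR m ρ t * t ^ (2 : ℕ) + AR m ρ t * t * z ≤ Qm m ρ (t + z) := by
  have h1 := Qm_ray_right hρ hm ht (by linarith : t ≤ t + z)
  have h2 := Qm_AR hρ hm ht.le le_rfl ht
  refine le_trans ?_ h1
  have e : AR m ρ t * t ^ (2 : ℕ) + AR m ρ t * t * z = AR m ρ t * t ^ (2 : ℕ) * ((t + z) / t) := by
    field_simp
  rw [e]
  gcongr

/-- behind, left -/
theorem Qm_beh_L {m ρ t z : ℝ} (hρ : 0 < ρ) (hm : ρ ≤ m) (ht : 0 < t) (hz : 0 ≤ z) :
    AL m ρ t * t ^ (2 : ℕ) + AL m ρ t * t * z ≤ Qm m ρ (-(t + z)) := by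
  have h1 := Qm_ray_left hρ hm ht (by linarith : t ≤ t + z)
  have h2 := Qm_AL hρ hm ht.le le_rfl ht
  refine le_trans ?_ h1
  have e : AL m ρ t * t ^ (2 : ℕ) + AL m ρ t * t * z = AL m ρ t * t ^ (2 : ℕ) * ((t + z) / t) := by
    field_simp
  rw [e]
  gcongr

end SokamCen

end

/-! ### Lib_MP_af4de1_v3.CenFront -/

section
/-!
# CEN: the front zones (the side away from the wave) and the rest zone, base point `w = 1`

Left, `θ = t`, `0 < t ≤ 6/5`, `S = [0, 6/5 - t]`: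
`q Dm ≥ q (1 - cos t) + frL s + q aR(m,ρ,1) s² + s/m`, `frL = q (sin t + (1 - cos t)/m) - 1/m`, `W ≤ e^(s/m) ((t+s)² + 9 s²/(8 m²))`.

Right, `θ = -t`, `S = [-(6/5 - t), 0]`, `s = -v`:
`q Dm ≥ q (1 - cos t) + frR v + q aL v²`, `frR = q (1 - cos t)/2`, `W ≤ (t+v)² + v²/m²`, `e^a ≤ 1`.

Rest: `1 - cos (θ + s) ≥ 6336/10000`: `Dm ≥ 1/2`.
-/

set_option autoImplicit false

namespace SokamCen

open Real MeasureTheory Set

/-- the weight with the base point `1` -/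
theorem fr_Wm_one (m θ s : ℝ) :
    Wm m θ 1 s = (exp (pm m s) - 1) ^ (2 : ℕ) + 2 * exp (pm m s) * (1 - cos (θ + s)) := by
  unfold Wm em
  set a := pm m s
  have e1 : ((a : ℂ) + ((θ : ℂ) + (s : ℂ)) * Complex.I) = (a : ℂ) + ((θ + s : ℝ) : ℂ) * Complex.I := by
    push_cast
    ring
  rw [e1, ← Complex.normSq_eq_norm_sq, Complex.normSq_apply]
  have h1 : (Complex.exp ((a : ℂ) + ((θ + s : ℝ) : ℂ) * Complex.I) - 1).re =
      exp a * cos (θ + s) - 1 := by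
    rw [Complex.sub_re, Complex.exp_re]
    simp only [Complex.add_re, Complex.add_im, Complex.mul_re, Complex.mul_im, Complex.ofReal_re,
      Complex.ofReal_im, Complex.I_re, Complex.I_im, Complex.one_re]
    ring_nf
  have h2 : (Complex.exp ((a : ℂ) + ((θ + s : ℝ) : ℂ) * Complex.I) - 1).im =
      exp a * sin (θ + s) := by
    rw [Complex.sub_im, Complex.exp_im]
    simp only [Complex.add_re, Complex.add_im, Complex.mul_re, Complex.mul_im, Complex.ofReal_re,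
      Complex.ofReal_im, Complex.I_re, Complex.I_im, Complex.one_im]
    ring_nf
  rw [h1, h2]
  have h3 := sin_sq_add_cos_sq (θ + s)
  linear_combination exp a ^ (2 : ℕ) * h3

/-- the half line integral over `[0, X]` -/
theorem fr_int {X K b B c0 c1 c2 : ℝ} {F : ℝ → ℝ} (hK : 0 ≤ K) (hb : 0 ≤ b) (hB : 0 < B)
    (h0 : 0 ≤ c0) (h1 : 0 ≤ c1) (h2 : 0 ≤ c2)
    (h : ∀ z : ℝ, 0 < z → z ≤ X → F z ≤ K * ((c0 + c1 * z + c2 * z ^ (2 : ℕ)) *
      exp (-(b * z + B * z ^ (2 : ℕ))))) :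
    ∫⁻ z in Icc 0 X, ENNReal.ofReal (F z) ≤
      ENNReal.ofReal (K * (c0 * SokamCen.h0 b B + c1 * SokamCen.h1 B + c2 * SokamCen.h2 B)) := by
  calc ∫⁻ z in Icc 0 X, ENNReal.ofReal (F z) = ∫⁻ z in Ioc 0 X, ENNReal.ofReal (F z) :=
        (setLIntegral_congr Ioc_ae_eq_Icc).symm
    _ ≤ ∫⁻ z in Ioc 0 X, ENNReal.ofReal K * ENNReal.ofReal ((c0 + c1 * z + c2 * z ^ (2 : ℕ)) *
          exp (-(b * z + B * z ^ (2 : ℕ)))) :=
        setLIntegral_mono' measurableSet_Ioc fun z hz => by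
          rw [← ENNReal.ofReal_mul hK]
          exact ENNReal.ofReal_le_ofReal (h z hz.1 hz.2)
    _ ≤ ∫⁻ z in Ioi (0 : ℝ), ENNReal.ofReal K * ENNReal.ofReal ((c0 + c1 * z + c2 * z ^ (2 : ℕ)) *
          exp (-(b * z + B * z ^ (2 : ℕ)))) := lintegral_mono_set Ioc_subset_Ioi_self
    _ = ENNReal.ofReal K * ∫⁻ z in Ioi (0 : ℝ), ENNReal.ofReal ((c0 + c1 * z + c2 * z ^ (2 : ℕ)) *
          exp (-(b * z + B * z ^ (2 : ℕ)))) := lintegral_const_mul' _ _ ENNReal.ofReal_ne_top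
    _ ≤ ENNReal.ofReal K * ENNReal.ofReal (c0 * SokamCen.h0 b B + c1 * SokamCen.h1 B +
          c2 * SokamCen.h2 B) := mul_le_mul_right (hW_le hb hB h0 h1 h2) _
    _ = _ := (ENNReal.ofReal_mul hK).symm

/-- `1 - cos (t+s) ≥ 1 - cos t + s sin t` -/
theorem fr_cos {t s : ℝ} (ht : 0 ≤ t) (hs : 0 ≤ s) (h : t + s ≤ 6 / 5) :
    1 - cos t + s * sin t ≤ 1 - cos (t + s) := by
  rcases eq_or_lt_of_le hs with rfl | hs
  · simp
  have hpi : (6 / 5 : ℝ) ≤ π / 2 := by linarith only [pi_gt_three]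
  obtain ⟨c, hc, hc'⟩ := exists_hasDerivAt_eq_slope (f := cos) (f' := fun x => -sin x)
    (a := t) (b := t + s) (by linarith only [hs]) continuous_cos.continuousOn
    (fun x _ => hasDerivAt_cos x)
  have h1 : sin t ≤ sin c := sin_le_sin_of_le_of_le_pi_div_two (by linarith only [ht, pi_pos])
    (by linarith only [h, hpi, hc.2]) hc.1.le
  have h2 : t + s - t = s := by ring
  rw [h2] at hc'
  have h3 : -sin c * s = cos (t + s) - cos t := by
    rw [hc']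
    field_simp
  nlinarith only [hs, h1, h3]

/-- the slope on the left -/
noncomputable def frL (q m t : ℝ) : ℝ := q * (sin t + (1 - cos t) / m) - 1 / m

/-- the slope on the right -/
noncomputable def frR (q t : ℝ) : ℝ := q * ((1 - cos t) / 2)

theorem frL_nonneg {q m t : ℝ} (hq : 0 < q) (hm : 0 < m) (h : 1 ≤ q * m * sin t) :
    0 ≤ frL q m t := by
  unfold frL
  have h1 := cos_le_one t
  have h2 : 0 ≤ (1 - cos t) / m := div_nonneg (by linarith only [h1]) hm.le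
  have h3 : 1 / m ≤ q * sin t := by
    rw [div_le_iff₀ hm]
    linarith only [h]
  have h4 := mul_nonneg hq.le h2
  linarith only [h3, h4]

theorem frR_nonneg {q t : ℝ} (hq : 0 < q) : 0 ≤ frR q t := by
  unfold frR
  have h1 := cos_le_one t
  exact mul_nonneg hq.le (by linarith only [h1])

private theorem fr_exp {a : ℝ} (h0 : 0 ≤ a) (h1 : a ≤ 1) :
    (exp a - 1) ^ (2 : ℕ) ≤ exp a * (9 / 8 * a ^ (2 : ℕ)) := by
  have e1 := Real.exp_bound' h0 h1 (n := 4) (by norm_num)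
  have e2 : exp a ≤ 1 + a + a ^ (2 : ℕ) / 2 + a ^ (3 : ℕ) / 6 + 5 * a ^ (4 : ℕ) / 96 := by
    refine e1.trans (le_of_eq ?_)
    norm_num [Finset.sum_range_succ, Nat.factorial]
    ring
  have e3 := Real.exp_bound (x := -a) (by rw [abs_neg, abs_of_nonneg h0]; exact h1) (n := 4)
    (by norm_num)
  rw [abs_le] at e3
  have e4 : exp (-a) ≤ 1 - a + a ^ (2 : ℕ) / 2 - a ^ (3 : ℕ) / 6 + 5 * a ^ (4 : ℕ) / 96 := by
    have e5 := e3.2
    rw [abs_neg, abs_of_nonneg h0] at e5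
    norm_num [Finset.sum_range_succ, Nat.factorial] at e5
    linarith only [e5]
  have e6 : exp a * exp (-a) = 1 := by rw [← exp_add]; simp
  have e7 : (exp a - 1) ^ (2 : ℕ) = exp a * (exp a + exp (-a) - 2) := by
    linear_combination (-1 : ℝ) * e6
  rw [e7]
  refine mul_le_mul_of_nonneg_left ?_ (exp_pos a).le
  have h2 : a ^ (2 : ℕ) ≤ 1 := pow_le_one₀ h0 h1
  have h3 : a ^ (4 : ℕ) ≤ a ^ (2 : ℕ) := by nlinarith only [h2]
  nlinarith only [e2, e4, h3]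

/-- FRONT, left. -/
theorem zone_front_L {q m ρ t : ℝ} (hq : 0 < q) (hρ : 0 < ρ) (hm : ρ ≤ m) (hm1 : 5 / 4 ≤ m)
    (ht0 : 0 < t) (ht : t ≤ 6 / 5) (hqm : 1 ≤ q * m * sin t) :
    Zone q m ρ t 1 (Icc 0 (6 / 5 - t))
      (exp (-(q * (1 - cos t))) * h0 (frL q m t) (q * aR m ρ 1))
      (exp (-(q * (1 - cos t))) * (t ^ (2 : ℕ) * h0 (frL q m t) (q * aR m ρ 1) +
        2 * t * h1 (q * aR m ρ 1) + (1 + 9 / (8 * m ^ (2 : ℕ))) * h2 (q * aR m ρ 1)))
      (exp (-(q * (1 - cos t))) * h0 (frL q m t) (q * aR m ρ 1)) := by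
  have hm0 : 0 < m := by linarith only [hρ, hm]
  have hA := aR_pos (T := 1) hρ hm (by norm_num) le_rfl
  have hB : 0 < q * aR m ρ 1 := mul_pos hq hA
  have hb := frL_nonneg hq hm0 hqm
  have hK : 0 ≤ exp (-(q * (1 - cos t))) := (exp_pos _).le
  have hpa : ∀ s : ℝ, 0 < s → s ≤ 6 / 5 - t → pm m s = s / m := by
    intro s hs hs'
    have h1 : s / m ≤ 1 := by
      rw [div_le_one hm0]
      linarith only [hm1, ht0, hs']
    have h2 : 0 ≤ s / m := by positivity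
    unfold pm
    rw [min_eq_right h1, max_eq_right (by linarith only [h2])]
  have hD : ∀ s : ℝ, 0 < s → s ≤ 6 / 5 - t → q * (1 - cos t) + (frL q m t * s +
      q * aR m ρ 1 * s ^ (2 : ℕ)) + s / m ≤ q * Dm m ρ t s := by
    intro s hs hs'
    have h1 : s / m ≤ 1 := by
      rw [div_le_one hm0]
      linarith only [hm1, ht0, hs']
    have h2 := Qm_right (T := 1) hρ hm0 hs.le h1 le_rfl
    have h3 := fr_cos ht0.le hs.le (by linarith only [hs'])
    have h4 := Real.add_one_le_exp (s / m)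
    have h5 : 0 ≤ sin t := sin_nonneg_of_nonneg_of_le_pi ht0.le (by linarith only [hs, hs', pi_gt_three])
    have h6 : 0 ≤ 1 - cos t := by linarith only [cos_le_one t]
    have h7 : 0 ≤ s / m := by positivity
    have h8 : (s / m + 1) * (1 - cos t + s * sin t) ≤ exp (s / m) * (1 - cos (t + s)) :=
      mul_le_mul h4 h3 (by positivity) (exp_pos _).le
    have h9 : 0 ≤ s / m * (s * sin t) := by positivity
    rw [Dm_eq, hpa s hs hs']
    have h10 : frL q m t * s = q * (s * sin t + s / m * (1 - cos t)) - s / m := by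
      unfold frL
      field_simp
    rw [h10]
    have h11 : 1 - cos t + (s * sin t + s / m * (1 - cos t)) + aR m ρ 1 * s ^ (2 : ℕ) ≤
        Qm m ρ s + exp (s / m) * (1 - cos (t + s)) := by linarith only [h2, h8, h9]
    have h12 := mul_le_mul_of_nonneg_left h11 hq.le
    linarith only [h12]
  refine ⟨?_, ?_, ?_⟩
  · refine (fr_int (c0 := 1) (c1 := 0) (c2 := 0) hK hb hB (by norm_num) le_rfl le_rfl
      fun z hz hz' => ?_).trans (le_of_eq ?_)
    · rw [show (1 + 0 * z + 0 * z ^ (2 : ℕ)) = (1 : ℝ) by ring, one_mul, ← exp_add]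
      refine exp_le_exp.2 ?_
      have h1 := hD z hz hz'
      have h2 : 0 ≤ z / m := by positivity
      linarith only [h1, h2]
    · congr 1
      ring
  · refine (fr_int (c0 := t ^ (2 : ℕ)) (c1 := 2 * t) (c2 := 1 + 9 / (8 * m ^ (2 : ℕ))) hK hb hB
      (by positivity) (by positivity) (by positivity) fun z hz hz' => ?_)
    have h1 := hD z hz hz'
    have h0' : 0 ≤ z / m := by positivity
    have h1' : z / m ≤ 1 := by
      rw [div_le_one hm0]
      linarith only [hm1, ht0, hz']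
    have h2 : Wm m t 1 z ≤ exp (z / m) * (t ^ (2 : ℕ) + 2 * t * z + (1 + 9 / (8 * m ^ (2 : ℕ))) * z ^ (2 : ℕ)) := by
      rw [fr_Wm_one, hpa z hz hz']
      have h3 := fr_exp h0' h1'
      have h4 := Real.one_sub_sq_div_two_le_cos (x := t + z)
      have h5 : 2 * exp (z / m) * (1 - cos (t + z)) ≤ exp (z / m) * (t + z) ^ (2 : ℕ) := by
        have := mul_le_mul_of_nonneg_left (by linarith : 2 * (1 - cos (t + z)) ≤ (t + z) ^ (2 : ℕ))
          (exp_pos (z / m)).le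
        linarith only [this]
      refine (add_le_add h3 h5).trans (le_of_eq ?_)
      field_simp
      ring
    have hP : 0 ≤ t ^ (2 : ℕ) + 2 * t * z + (1 + 9 / (8 * m ^ (2 : ℕ))) * z ^ (2 : ℕ) := by positivity
    calc Wm m t 1 z * exp (-(q * Dm m ρ t z))
        ≤ exp (z / m) * (t ^ (2 : ℕ) + 2 * t * z + (1 + 9 / (8 * m ^ (2 : ℕ))) * z ^ (2 : ℕ)) *
          exp (-(q * Dm m ρ t z)) := mul_le_mul_of_nonneg_right h2 (exp_pos _).le
      _ = (t ^ (2 : ℕ) + 2 * t * z + (1 + 9 / (8 * m ^ (2 : ℕ))) * z ^ (2 : ℕ)) *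
          exp (z / m + -(q * Dm m ρ t z)) := by
          rw [exp_add]
          ring
      _ ≤ (t ^ (2 : ℕ) + 2 * t * z + (1 + 9 / (8 * m ^ (2 : ℕ))) * z ^ (2 : ℕ)) *
          exp (-(q * (1 - cos t)) + -(frL q m t * z + q * aR m ρ 1 * z ^ (2 : ℕ))) :=
          mul_le_mul_of_nonneg_left (exp_le_exp.2 (by linarith only [h1])) hP
      _ = _ := by
          rw [exp_add]
          ring
  · refine (fr_int (c0 := 1) (c1 := 0) (c2 := 0) hK hb hB (by norm_num) le_rfl le_rfl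
      fun z hz hz' => ?_).trans (le_of_eq ?_)
    · rw [show (1 + 0 * z + 0 * z ^ (2 : ℕ)) = (1 : ℝ) by ring, one_mul, ← exp_add, ← exp_add,
        hpa z hz hz']
      refine exp_le_exp.2 ?_
      have h1 := hD z hz hz'
      linarith only [h1]
    · congr 1
      ring

/-- `(1 - cos t)(1 + v/2) ≤ e^(-v/m) (1 - cos (t+v))` -/
theorem fr_left {m t v : ℝ} (hm : 5 / 4 ≤ m) (ht : 0 < t) (hv : 0 ≤ v) (h : t + v ≤ 6 / 5) :
    (1 - cos t) * (1 + v / 2) ≤ exp (-(v / m)) * (1 - cos (t + v)) := by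
  have hm0 : 0 < m := by linarith only [hm, ht]
  have hd : ∀ x : ℝ, HasDerivAt (fun x : ℝ => (1 - cos (t + x)) * exp (-(13 / 10 * x)))
      (sin (t + x) * exp (-(13 / 10 * x)) + (1 - cos (t + x)) *
        (exp (-(13 / 10 * x)) * -(13 / 10))) x := by
    intro x
    have h1 : HasDerivAt (fun x : ℝ => t + x) 1 x := (hasDerivAt_id x).const_add t
    have h2 : HasDerivAt (fun x : ℝ => 1 - cos (t + x)) (sin (t + x)) x := by
      have := (h1.cos).const_sub 1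
      simpa using this
    have h3 : HasDerivAt (fun x : ℝ => exp (-(13 / 10 * x))) (exp (-(13 / 10 * x)) * -(13 / 10)) x := by
      have h4 : HasDerivAt (fun x : ℝ => -(13 / 10 * x)) (-(13 / 10)) x := by
        have h5 := (hasDerivAt_id x).const_mul (-(13 / 10) : ℝ)
        rw [mul_one] at h5
        refine h5.congr_of_eventuallyEq (Filter.Eventually.of_forall fun y => ?_)
        simp only [id]
        ring
      exact h4.exp
    exact h2.mul h3
  have hmono : MonotoneOn (fun x : ℝ => (1 - cos (t + x)) * exp (-(13 / 10 * x)))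
      (Icc 0 (6 / 5 - t)) := by
    refine monotoneOn_of_deriv_nonneg (convex_Icc _ _) (fun x _ =>
      (hd x).continuousAt.continuousWithinAt) (fun x _ =>
      (hd x).differentiableAt.differentiableWithinAt) ?_
    intro x hx
    rw [interior_Icc] at hx
    rw [(hd x).deriv]
    have hu0 : 0 < t + x := by linarith only [ht, hx.1]
    have hu1 : t + x ≤ 6 / 5 := by linarith only [hx.2]
    generalize t + x = u at hu0 hu1
    have e1 : sin u = 2 * sin (u / 2) * cos (u / 2) := by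
      rw [← sin_two_mul]
      congr 1
      ring
    have e2 : 1 - cos u = 2 * sin (u / 2) ^ (2 : ℕ) := by
      have h1 : cos u = 2 * cos (u / 2) ^ (2 : ℕ) - 1 := by
        rw [← cos_two_mul]
        congr 1
        ring
      have h2 := sin_sq_add_cos_sq (u / 2)
      rw [h1]
      linarith only [h2]
    have h1 : sin (u / 2) ≤ u / 2 := sin_le (by linarith only [hu0])
    have h2 := Real.one_sub_sq_div_two_le_cos (x := u / 2)
    have h3 : 0 ≤ sin (u / 2) := sin_nonneg_of_nonneg_of_le_pi (by linarith only [hu0])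
      (by linarith only [hu1, pi_gt_three])
    have h4 : 13 / 10 * sin (u / 2) ≤ cos (u / 2) := by nlinarith only [hu1, h1, h2, h3]
    have h5 : 0 ≤ 2 * sin (u / 2) * (cos (u / 2) - 13 / 10 * sin (u / 2)) :=
      mul_nonneg (by linarith only [h3]) (by linarith only [h4])
    have h6 : sin u * exp (-(13 / 10 * x)) + (1 - cos u) * (exp (-(13 / 10 * x)) * -(13 / 10)) =
        exp (-(13 / 10 * x)) * (2 * sin (u / 2) * (cos (u / 2) - 13 / 10 * sin (u / 2))) := by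
      rw [e1, e2]
      ring
    rw [h6]
    exact mul_nonneg (exp_pos _).le h5
  have h1 := hmono (a := 0) (b := v) ⟨le_rfl, by linarith only [hv, h]⟩ ⟨hv, by linarith only [h]⟩ hv
  simp only [add_zero, mul_zero, neg_zero, exp_zero, mul_one] at h1
  have h2 : 1 + v / 2 ≤ exp (13 / 10 * v - v / m) := by
    have h3 := Real.add_one_le_exp (13 / 10 * v - v / m)
    have h4 : v / m ≤ 4 / 5 * v := by
      rw [div_le_iff₀ hm0]
      nlinarith only [hm, hv]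
    linarith only [h3, h4]
  have h6 : 0 ≤ 1 - cos t := by linarith only [cos_le_one t]
  have h7 : 0 ≤ 1 - cos (t + v) := by linarith only [cos_le_one (t + v)]
  calc (1 - cos t) * (1 + v / 2)
      ≤ (1 - cos (t + v)) * exp (-(13 / 10 * v)) * exp (13 / 10 * v - v / m) :=
        mul_le_mul h1 h2 (by positivity) (mul_nonneg h7 (exp_pos _).le)
    _ = exp (-(v / m)) * (1 - cos (t + v)) := by
        rw [mul_assoc, ← exp_add, mul_comm]
        congr 2
        ring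

/-- FRONT, right. -/
theorem zone_front_R {q m ρ t : ℝ} (hq : 0 < q) (hρ : 0 < ρ) (hm : ρ ≤ m) (hm1 : 5 / 4 ≤ m)
    (ht0 : 0 < t) (ht : t ≤ 6 / 5) :
    Zone q m ρ (-t) 1 (Icc (-(6 / 5 - t)) 0)
      (exp (-(q * (1 - cos t))) * h0 (frR q t) (q * aL m ρ))
      (exp (-(q * (1 - cos t))) * (t ^ (2 : ℕ) * h0 (frR q t) (q * aL m ρ) +
        2 * t * h1 (q * aL m ρ) + (1 + 1 / m ^ (2 : ℕ)) * h2 (q * aL m ρ)))
      (exp (-(q * (1 - cos t))) * h0 (frR q t) (q * aL m ρ)) := by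
  have hm0 : 0 < m := by linarith only [hρ, hm]
  have hA := aL_pos hρ hm
  have hB : 0 < q * aL m ρ := mul_pos hq hA
  have hb := frR_nonneg (t := t) hq
  have hK : 0 ≤ exp (-(q * (1 - cos t))) := (exp_pos _).le
  have hpa : ∀ v : ℝ, 0 < v → v ≤ 6 / 5 - t → pm m (-v) = -(v / m) := by
    intro s hs hs'
    have h1 : s / m ≤ 1 := by
      rw [div_le_one hm0]
      linarith only [hm1, ht0, hs']
    have h2 : 0 ≤ s / m := by positivity
    unfold pm
    rw [neg_div, min_eq_right (by linarith only [h2]), max_eq_right (by linarith only [h1])]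
  have hco : ∀ v : ℝ, cos (-t + -v) = cos (t + v) := by
    intro v
    rw [← cos_neg]
    congr 1
    ring
  have hD : ∀ v : ℝ, 0 < v → v ≤ 6 / 5 - t → q * (1 - cos t) + (frR q t * v +
      q * aL m ρ * v ^ (2 : ℕ)) ≤ q * Dm m ρ (-t) (-v) := by
    intro s hs hs'
    have h1 : s / m ≤ 1 := by
      rw [div_le_one hm0]
      linarith only [hm1, ht0, hs']
    have h2 := Qm_left hρ hm0 hs.le h1
    have h3 := fr_left hm1 ht0 hs.le (by linarith only [hs'])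
    rw [Dm_eq, hpa s hs hs', hco]
    unfold frR
    have h12 := mul_le_mul_of_nonneg_left (add_le_add h2 h3) hq.le
    linarith only [h12]
  have hset : ∀ F : ℝ → ENNReal, ∫⁻ s in Icc (-(6 / 5 - t)) 0, F s =
      ∫⁻ v in Icc 0 (6 / 5 - t), F (-v) := by
    intro F
    rw [lint_Icc_neg, neg_zero, neg_neg]
  refine ⟨?_, ?_, ?_⟩
  · rw [hset]
    refine (fr_int (c0 := 1) (c1 := 0) (c2 := 0) hK hb hB (by norm_num) le_rfl le_rfl
      fun z hz hz' => ?_).trans (le_of_eq ?_)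
    · rw [show (1 + 0 * z + 0 * z ^ (2 : ℕ)) = (1 : ℝ) by ring, one_mul, ← exp_add]
      refine exp_le_exp.2 ?_
      have h1 := hD z hz hz'
      linarith only [h1]
    · congr 1
      ring
  · rw [hset]
    refine (fr_int (c0 := t ^ (2 : ℕ)) (c1 := 2 * t) (c2 := 1 + 1 / m ^ (2 : ℕ)) hK hb hB
      (by positivity) (by positivity) (by positivity) fun z hz hz' => ?_)
    have h1 := hD z hz hz'
    have h0' : 0 ≤ z / m := by positivity
    have h2 : Wm m (-t) 1 (-z) ≤ t ^ (2 : ℕ) + 2 * t * z + (1 + 1 / m ^ (2 : ℕ)) * z ^ (2 : ℕ) := by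
      rw [fr_Wm_one, hpa z hz hz', hco]
      have h3 := Real.add_one_le_exp (-(z / m))
      have h3' : exp (-(z / m)) ≤ 1 := exp_le_one_iff.2 (by linarith only [h0'])
      have h4 := Real.one_sub_sq_div_two_le_cos (x := t + z)
      have h5 : 2 * exp (-(z / m)) * (1 - cos (t + z)) ≤ (t + z) ^ (2 : ℕ) := by
        have h7 : 0 ≤ 1 - cos (t + z) := by linarith only [cos_le_one (t + z)]
        linarith only [h4, mul_le_mul_of_nonneg_right h3' h7]
      have h6 : (exp (-(z / m)) - 1) ^ (2 : ℕ) ≤ (z / m) ^ (2 : ℕ) := by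
        rw [sq_le_sq, abs_of_nonneg h0', abs_le]
        constructor <;> linarith
      refine (add_le_add h6 h5).trans (le_of_eq ?_)
      field_simp
      ring
    have hP : 0 ≤ t ^ (2 : ℕ) + 2 * t * z + (1 + 1 / m ^ (2 : ℕ)) * z ^ (2 : ℕ) := by positivity
    calc Wm m (-t) 1 (-z) * exp (-(q * Dm m ρ (-t) (-z)))
        ≤ (t ^ (2 : ℕ) + 2 * t * z + (1 + 1 / m ^ (2 : ℕ)) * z ^ (2 : ℕ)) *
          exp (-(q * Dm m ρ (-t) (-z))) := mul_le_mul_of_nonneg_right h2 (exp_pos _).le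
      _ ≤ (t ^ (2 : ℕ) + 2 * t * z + (1 + 1 / m ^ (2 : ℕ)) * z ^ (2 : ℕ)) *
          exp (-(q * (1 - cos t)) + -(frR q t * z + q * aL m ρ * z ^ (2 : ℕ))) :=
          mul_le_mul_of_nonneg_left (exp_le_exp.2 (by linarith only [h1])) hP
      _ = _ := by
          rw [exp_add]
          ring
  · rw [hset]
    refine (fr_int (c0 := 1) (c1 := 0) (c2 := 0) hK hb hB (by norm_num) le_rfl le_rfl
      fun z hz hz' => ?_).trans (le_of_eq ?_)
    · rw [show (1 + 0 * z + 0 * z ^ (2 : ℕ)) = (1 : ℝ) by ring, one_mul, ← exp_add, ← exp_add,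
        hpa z hz hz']
      refine exp_le_exp.2 ?_
      have h1 := hD z hz hz'
      have h2 : 0 ≤ z / m := by positivity
      linarith only [h1, h2]
    · congr 1
      ring

/-- `h0` without the slope -/
theorem fr_h0_half (b B : ℝ) : h0 b B ≤ √(π / B) / 2 := min_le_left _ _

/-! ## the rest zone -/

private theorem rest_poly {b : ℝ} (h0 : 0 ≤ b) (h1 : b ≤ 1) :
    1 / 2 ≤ 3 / 4 * b ^ (2 : ℕ) + exp (-b) * (6336 / 10000) := by
  have e3 := Real.exp_bound (x := -b) (by rw [abs_neg, abs_of_nonneg h0]; exact h1) (n := 4)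
    (by norm_num)
  rw [abs_le] at e3
  have e4 : 1 - b + b ^ (2 : ℕ) / 2 - b ^ (3 : ℕ) / 6 - 5 * b ^ (4 : ℕ) / 96 ≤ exp (-b) := by
    have e5 := e3.1
    rw [abs_neg, abs_of_nonneg h0] at e5
    norm_num [Finset.sum_range_succ, Nat.factorial] at e5
    linarith only [e5]
  nlinarith only [e4, mul_nonneg (mul_nonneg (mul_nonneg h0 h0) h0) (sub_nonneg.2 h1), sq_nonneg (b * (b - 31 / 100))]

/-- `Dm ≥ 1/2` far from the wave -/
theorem Dm_rest {m ρ θ s : ℝ} (hρ : 0 < ρ) (hm : 5 / 4 * ρ ≤ m)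
    (h : 6336 / 10000 ≤ 1 - cos (θ + s)) : 1 / 2 ≤ Dm m ρ θ s := by
  have hm0 : 0 < m := by linarith only [hρ, hm]
  have hm' : ρ ≤ m := by linarith only [hρ, hm]
  rw [Dm_eq]
  rcases le_total 0 s with hs | hs
  · have h1 := Qm_nonneg hρ hm' s
    have h2 : 1 ≤ exp (pm m s) := one_le_exp (pm_nonneg hm0 hs)
    nlinarith only [h, h1, h2]
  · obtain ⟨v, rfl⟩ : ∃ v, s = -v := ⟨-s, by ring⟩
    have hv : 0 ≤ v := by linarith only [hs]
    rcases le_total v m with h1 | h1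
    · have h2 : v / m ≤ 1 := by rwa [div_le_one hm0]
      have h3 := Qm_left hρ hm0 hv h2
      have h4 : pm m (-v) = -(v / m) := by
        have : 0 ≤ v / m := by positivity
        unfold pm
        rw [neg_div, min_eq_right (by linarith only [this]), max_eq_right (by linarith only [h2])]
      have h5 := rest_poly (b := v / m) (by positivity) h2
      have h6 : 3 / 4 * (v / m) ^ (2 : ℕ) ≤ aL m ρ * v ^ (2 : ℕ) := by
        have h7 : 5 / 4 ≤ m / ρ := by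
          rw [le_div_iff₀ hρ]
          linarith only [hm]
        unfold aL
        have e : (m / ρ - 1 / 2) / m ^ (2 : ℕ) * v ^ (2 : ℕ) = (m / ρ - 1 / 2) * (v / m) ^ (2 : ℕ) := by
          field_simp
        rw [e]
        nlinarith only [h7]
      have h8 : exp (-(v / m)) * (6336 / 10000) ≤ exp (-(v / m)) * (1 - cos (θ + -v)) :=
        mul_le_mul_of_nonneg_left h (exp_pos _).le
      rw [h4]
      linarith only [h3, h5, h6, h8]
    · have h2 := Qm_ray_left hρ hm' hm0 h1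
      have h3 := Qm_left (s := m) hρ hm0 hm0.le (by rw [div_self hm0.ne'])
      have h6 : 3 / 4 ≤ aL m ρ * m ^ (2 : ℕ) := by
        have h7 : 5 / 4 ≤ m / ρ := by
          rw [le_div_iff₀ hρ]
          linarith only [hm]
        unfold aL
        have e : (m / ρ - 1 / 2) / m ^ (2 : ℕ) * m ^ (2 : ℕ) = m / ρ - 1 / 2 := by
          field_simp
        rw [e]
        linarith only [h7]
      have h7 : 1 ≤ v / m := by rwa [one_le_div hm0]
      have h8 : 0 ≤ exp (pm m (-v)) * (1 - cos (θ + -v)) :=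
        mul_nonneg (exp_pos _).le (by linarith only [cos_le_one (θ + -v)])
      nlinarith only [h2, h3, h6, h7, h8]

/-- REST: any set of length `≤ L` on which `1 - cos (θ+s) ≥ 6336/10000`. -/
theorem zone_rest {q m ρ θ a L : ℝ} {S : Set ℝ} (hq : 0 < q) (hρ : 0 < ρ) (hm : 5 / 4 * ρ ≤ m)
    (hL : 0 ≤ L) (hS : MeasurableSet S) (hSI : S ⊆ Icc a (a + L))
    (h : ∀ s ∈ S, 6336 / 10000 ≤ 1 - cos (θ + s)) :
    Zone q m ρ θ 1 S (L * exp (-(q / 2))) (14 * L * exp (-(q / 2))) (11 / 4 * L * exp (-(q / 2))) := by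
  have hvol : volume S ≤ ENNReal.ofReal L := by
    refine (measure_mono hSI).trans (le_of_eq ?_)
    rw [Real.volume_Icc]
    congr 1
    ring
  have key : ∀ (F : ℝ → ℝ) (C : ℝ), 0 ≤ C → (∀ s ∈ S, F s ≤ C * exp (-(q / 2))) →
      ∫⁻ s in S, ENNReal.ofReal (F s) ≤ ENNReal.ofReal (C * L * exp (-(q / 2))) := by
    intro F C hC hF
    calc ∫⁻ s in S, ENNReal.ofReal (F s) ≤ ∫⁻ _ in S, ENNReal.ofReal (C * exp (-(q / 2))) :=
          setLIntegral_mono' hS fun s hs => ENNReal.ofReal_le_ofReal (hF s hs)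
      _ = ENNReal.ofReal (C * exp (-(q / 2))) * volume S := by
          rw [lintegral_const, Measure.restrict_apply MeasurableSet.univ, univ_inter]
      _ ≤ ENNReal.ofReal (C * exp (-(q / 2))) * ENNReal.ofReal L := mul_le_mul_right hvol _
      _ = _ := by
          rw [← ENNReal.ofReal_mul (by positivity)]
          congr 1
          ring
  have hE : ∀ s ∈ S, exp (-(q * Dm m ρ θ s)) ≤ exp (-(q / 2)) := by
    intro s hs
    have h1 := Dm_rest hρ hm (h s hs)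
    refine exp_le_exp.2 ?_
    nlinarith only [hq, h1]
  have hpm : ∀ s, exp (pm m s) ≤ 11 / 4 := by
    intro s
    have h1 : pm m s ≤ 1 := (abs_le.1 (pm_mem m s)).2
    have h2 := Real.exp_one_lt_d9
    refine (exp_le_exp.2 h1).trans ?_
    linarith only [h2]
  refine ⟨?_, ?_, ?_⟩
  · have := key (fun s => exp (-(q * Dm m ρ θ s))) 1 (by norm_num) fun s hs => by
      rw [one_mul]
      exact hE s hs
    rwa [one_mul] at this
  · refine key (fun s => Wm m θ 1 s * exp (-(q * Dm m ρ θ s))) 14 (by norm_num) fun s hs => ?_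
    have h1 : Wm m θ 1 s ≤ 14 := by
      rw [fr_Wm_one]
      have h2 := exp_pos (pm m s)
      have h3 := neg_one_le_cos (θ + s)
      have h4 := hpm s
      have h5 := Real.exp_one_lt_d9
      have h6 : exp (pm m s) ≤ exp 1 := exp_le_exp.2 (abs_le.1 (pm_mem m s)).2
      nlinarith only [h2, h3, h5, h6]
    exact mul_le_mul h1 (hE s hs) (exp_pos _).le (by norm_num)
  · refine key (fun s => exp (pm m s) * exp (-(q * Dm m ρ θ s))) (11 / 4) (by norm_num)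
      fun s hs => mul_le_mul (hpm s) (hE s hs) (exp_pos _).le (by norm_num)

end SokamCen

end

/-! ### Lib_MP_af4de1_v3.CenBehL -/

section
/-!
# CEN: the zone behind the wave, left (helper69)

`θ = t > 0`, `s = -(t + z)`, `0 ≤ z ≤ 6/5`, `A' = AL m ρ (t + 6/5)`:
`Dm ≥ A' (t + z)² + (11/25) e^(-(t+6/5)/m) z²`, `|em - 1|² ≤ ((t+z)/m)² + z²`, `e^a ≤ 1`.
-/

set_option autoImplicit false

namespace SokamCen

open Real MeasureTheory Set

/-- `1 - cos z ≥ 11/25 z²` for `|z| ≤ 6/5` -/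
theorem beh_cos {z : ℝ} (h0 : 0 ≤ z) (h1 : z ≤ 6 / 5) : 11 / 25 * z ^ (2 : ℕ) ≤ 1 - cos z := by
  have h := SokamF1.ip_near (t := z) (by rw [abs_of_nonneg h0]; exact h1)
  nlinarith only [h]

/-- the path on the left -/
theorem beh_pm_ge {m v : ℝ} (hm : 0 < m) (hv : 0 ≤ v) : -(v / m) ≤ pm m (-v) := by
  unfold pm
  refine le_trans ?_ (le_max_right _ _)
  rw [neg_div]
  refine le_min ?_ le_rfl
  have : 0 ≤ v / m := by positivity
  linarith only [this]

theorem beh_pm_le {m v : ℝ} (hm : 0 < m) (hv : 0 ≤ v) : pm m (-v) ≤ 0 :=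
  pm_nonpos hm (by linarith only [hv])

/-- weight with the base point `1`: exact form -/
theorem beh_Wm (m θ s : ℝ) : Wm m θ 1 s = (exp (pm m s) - 1) ^ (2 : ℕ) +
    2 * exp (pm m s) * (1 - cos (θ + s)) := by
  have h : ∀ a φ : ℝ, ‖Complex.exp (a + φ * Complex.I) - 1‖ ^ (2 : ℕ) = (exp a - 1) ^ (2 : ℕ) +
      2 * exp a * (1 - cos φ) := by
    intro a φ
    rw [← Complex.normSq_eq_norm_sq, Complex.normSq_apply]
    have e1 : (Complex.exp (a + φ * Complex.I) - 1).re = exp a * cos φ - 1 := by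
      rw [Complex.sub_re, Complex.exp_re]
      simp
    have e2 : (Complex.exp (a + φ * Complex.I) - 1).im = exp a * sin φ := by
      rw [Complex.sub_im, Complex.exp_im]
      simp
    rw [e1, e2]
    have h3 := sin_sq_add_cos_sq φ
    linear_combination (exp a ^ (2 : ℕ)) * h3
  unfold Wm em
  rw [← h]
  congr 3
  push_cast
  ring

/-- weight on the left: `W ≤ (v/m)² + φ²` -/
theorem beh_Wm_left {m θ v : ℝ} (hm : 0 < m) (hv : 0 ≤ v) :
    Wm m θ 1 (-v) ≤ (v / m) ^ (2 : ℕ) + (θ - v) ^ (2 : ℕ) := by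
  rw [beh_Wm]
  have h1 := beh_pm_ge hm hv
  have h2 := beh_pm_le hm hv
  have h3 : exp (pm m (-v)) ≤ 1 := exp_le_one_iff.2 h2
  have h4 := add_one_le_exp (pm m (-v))
  have h5 : (exp (pm m (-v)) - 1) ^ (2 : ℕ) ≤ (v / m) ^ (2 : ℕ) := by
    apply sq_le_sq'
    · linarith only [h1, h4]
    · have : 0 ≤ v / m := by positivity
      linarith only [h3, this]
  have h6 := one_sub_sq_div_two_le_cos (x := θ + -v)
  have h7 := exp_pos (pm m (-v))
  have h8 := cos_le_one (θ + -v)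
  have h9 : 2 * exp (pm m (-v)) * (1 - cos (θ + -v)) ≤ 2 * 1 * ((θ - v) ^ (2 : ℕ) / 2) := by
    apply mul_le_mul
    · linarith only [h3]
    · have : (θ - v) ^ (2 : ℕ) = (θ + -v) ^ (2 : ℕ) := by ring
      rw [this]
      linarith only [h6]
    · linarith only [h8]
    · norm_num
  linarith only [h5, h9]

/-- closed form: the lower coefficient of `Qm` behind the wave -/
noncomputable def bA (m ρ t : ℝ) : ℝ := AL m ρ (t + 6 / 5)

/-- closed form: coefficient of `z²` behind the wave, left -/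
noncomputable def bB (m ρ t : ℝ) : ℝ := bA m ρ t + 11 / 25 * exp (-((t + 6 / 5) / m))

theorem bA_pos {m ρ t : ℝ} (hρ : 0 < ρ) (hm : ρ ≤ m) (ht : 0 ≤ t) : 0 < bA m ρ t :=
  AL_pos hρ hm (by linarith only [ht])

theorem bB_pos {m ρ t : ℝ} (hρ : 0 < ρ) (hm : ρ ≤ m) (ht : 0 ≤ t) : 0 < bB m ρ t := by
  have := bA_pos hρ hm ht
  unfold bB
  positivity

/-- BEHIND, left, with the slope. -/
theorem zone_behind_L {q m ρ t : ℝ} (hq : 0 < q) (hρ : 0 < ρ) (hm : ρ ≤ m) (ht : 0 ≤ t) :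
    Zone q m ρ t 1 (Icc (-t - 6 / 5) (-t))
      (exp (-(q * (bA m ρ t * t ^ (2 : ℕ)))) * h0 (q * (2 * bA m ρ t * t)) (q * bB m ρ t))
      (exp (-(q * (bA m ρ t * t ^ (2 : ℕ)))) * ((t / m) ^ (2 : ℕ) * h0 (q * (2 * bA m ρ t * t)) (q * bB m ρ t) +
        2 * t / m ^ (2 : ℕ) * h1 (q * bB m ρ t) + (1 / m ^ (2 : ℕ) + 1) * h2 (q * bB m ρ t)))
      (exp (-(q * (bA m ρ t * t ^ (2 : ℕ)))) * h0 (q * (2 * bA m ρ t * t)) (q * bB m ρ t)) := by
  have hm0 : 0 < m := hρ.trans_le hm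
  have hA := bA_pos hρ hm ht
  have hB := bB_pos hρ hm ht
  have h := Zone.below (q := q) (m := m) (ρ := ρ) (θ := t) (w := 1) (c := -t)
    (a0 := bA m ρ t * t ^ (2 : ℕ)) (b := 2 * bA m ρ t * t) (B := bB m ρ t) (e0 := 1)
    (c0 := (t / m) ^ (2 : ℕ)) (c1 := 2 * t / m ^ (2 : ℕ)) (c2 := 1 / m ^ (2 : ℕ) + 1)
    (measurableSet_Icc (a := -t - 6 / 5) (b := -t)) hq (by (clear * - hA ht; positivity)) hB (by (clear * -; positivity))
    (by (clear * - ht hm0; positivity)) (by (clear * - hm0; positivity)) zero_le_one (fun s hs => hs.2) ?_ ?_ ?_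
  · rwa [one_mul] at h
  · intro s hs
    set z := -t - s with hz
    have hz0 : 0 ≤ z := by linarith only [hs.2]
    have hz1 : z ≤ 6 / 5 := by linarith only [hs.1]
    have hs' : s = -(t + z) := by rw [hz]; ring
    rw [Dm_eq, hs']
    have h1 : bA m ρ t * (t + z) ^ (2 : ℕ) ≤ Qm m ρ (-(t + z)) :=
      Qm_AL hρ hm (by linarith only [ht, hz0]) (by linarith only [hz1]) (by linarith only [ht])
    have h2 : exp (-((t + 6 / 5) / m)) * (11 / 25 * z ^ (2 : ℕ)) ≤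
        exp (pm m (-(t + z))) * (1 - cos (t + -(t + z))) := by
      apply mul_le_mul
      · apply exp_le_exp.2
        refine le_trans ?_ (beh_pm_ge hm0 (by linarith : 0 ≤ t + z))
        apply neg_le_neg
        apply div_le_div_of_nonneg_right _ hm0.le
        linarith only [hz1]
      · have e : t + -(t + z) = -z := by ring
        rw [e, cos_neg]
        exact beh_cos hz0 hz1
      · (clear * -; positivity)
      · exact (exp_pos _).le
    unfold bB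
    linarith only [h1, h2]
  · intro s hs
    set z := -t - s with hz
    have hz0 : 0 ≤ z := by linarith only [hs.2]
    have hs' : s = -(t + z) := by rw [hz]; ring
    rw [hs']
    refine (beh_Wm_left hm0 (by linarith only [ht, hz0])).trans (le_of_eq ?_)
    field_simp
    ring
  · intro s hs
    exact exp_le_one_iff.2 (pm_nonpos hm0 (by linarith only [ht, hs.2]))

/-- helper58's closed form: `E √(π/Bb)/2`, `E/(2Bb)`, `E √(π/Bb)/(4Bb)` -/
noncomputable def bH0 (q m ρ t : ℝ) : ℝ :=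
  exp (-(q * bA m ρ t * t ^ (2 : ℕ))) * √(π / (q * bB m ρ t)) / 2
noncomputable def bH1 (q m ρ t : ℝ) : ℝ :=
  exp (-(q * bA m ρ t * t ^ (2 : ℕ))) / (2 * (q * bB m ρ t))
noncomputable def bH2 (q m ρ t : ℝ) : ℝ :=
  exp (-(q * bA m ρ t * t ^ (2 : ℕ))) * √(π / (q * bB m ρ t)) / (4 * (q * bB m ρ t))

/-- BEHIND, left, without the slope. -/
theorem zone_behind_L' {q m ρ t : ℝ} (hq : 0 < q) (hρ : 0 < ρ) (hm : ρ ≤ m) (ht : 0 ≤ t) :
    Zone q m ρ t 1 (Icc (-t - 6 / 5) (-t)) (bH0 q m ρ t)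
      ((t ^ (2 : ℕ) * bH0 q m ρ t + 2 * t * bH1 q m ρ t + bH2 q m ρ t) / m ^ (2 : ℕ) + bH2 q m ρ t)
      (bH0 q m ρ t) := by
  have hm0 : 0 < m := hρ.trans_le hm
  have h := zone_behind_L hq hρ hm ht
  have hl : h0 (q * (2 * bA m ρ t * t)) (q * bB m ρ t) ≤ √(π / (q * bB m ρ t)) / 2 :=
    min_le_left _ _
  have hp := exp_pos (-(q * (bA m ρ t * t ^ (2 : ℕ))))
  have e : -(q * bA m ρ t * t ^ (2 : ℕ)) = -(q * (bA m ρ t * t ^ (2 : ℕ))) := by ring
  have k0 : exp (-(q * (bA m ρ t * t ^ (2 : ℕ)))) * h0 (q * (2 * bA m ρ t * t)) (q * bB m ρ t) ≤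
      bH0 q m ρ t := by
    unfold bH0
    rw [e, mul_div_assoc]
    exact mul_le_mul_of_nonneg_left hl hp.le
  refine ⟨h.i0.trans (ENNReal.ofReal_le_ofReal k0), h.iW.trans (ENNReal.ofReal_le_ofReal ?_),
    h.ie.trans (ENNReal.ofReal_le_ofReal k0)⟩
  have e1 : (t ^ (2 : ℕ) * bH0 q m ρ t + 2 * t * bH1 q m ρ t + bH2 q m ρ t) / m ^ (2 : ℕ) + bH2 q m ρ t =
      (t / m) ^ (2 : ℕ) * bH0 q m ρ t + exp (-(q * (bA m ρ t * t ^ (2 : ℕ)))) *
        (2 * t / m ^ (2 : ℕ) * h1 (q * bB m ρ t) + (1 / m ^ (2 : ℕ) + 1) * h2 (q * bB m ρ t)) := by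
    unfold bH1 bH2 h1 h2
    rw [e]
    field_simp
    ring
  rw [e1]
  have k1 := mul_le_mul_of_nonneg_left k0 (sq_nonneg (t / m))
  linarith only [k1]

end SokamCen

end

/-! ### Lib_MP_af4de1_v3.CenZ6R -/

section
/-!
# The rest zone on the right side for `t ≥ 6/5` and `5/4 ≤ m ≤ 16/5`: `Dm ≥ 3/5`
-/

set_option autoImplicit false

namespace SokamCen

open Real MeasureTheory Set

private theorem z6_cos12 : cos (6 / 5) ≤ 3664 / 10000 := by
  have h := SokamF1G.cos_le4 (x := 6 / 5) (by norm_num)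
  refine h.trans (le_of_eq ?_)
  norm_num

private theorem z6_sin12 : 912 / 1000 ≤ sin (6 / 5) := by
  have h := SokamF1G.sin_ge3 (x := 6 / 5) (by norm_num)
  refine le_trans (le_of_eq ?_) h
  norm_num

private theorem z6_exp : 5487 / 10000 ≤ exp (-(3 / 5)) := by
  have h2 : exp (-(3 / 5)) = exp (-(3 / 10)) ^ (2 : ℕ) := by
    rw [← Real.exp_nat_mul]
    norm_num
  have h0 := Real.exp_bound' (x := 3 / 10) (by norm_num) (by norm_num) (n := 5) (by norm_num)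
  simp only [Finset.sum_range_succ, Finset.sum_range_zero, Nat.factorial] at h0
  norm_num at h0
  have h3 : exp (3 / 10) ≤ 134987 / 100000 := by linarith only [h0]
  have h4 : (74080 / 100000 : ℝ) ≤ exp (-(3 / 10)) := by
    rw [Real.exp_neg, le_inv_comm₀ (by norm_num) (Real.exp_pos _)]
    refine h3.trans ?_
    norm_num
  rw [h2]
  have h5 := pow_le_pow_left₀ (by norm_num) h4 2
  refine le_trans ?_ h5
  norm_num

/-- `1 - cos (t + v) ≥ .6336 + (2/5) v` for `6/5 ≤ t`, `t + v ≤ π` -/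
private theorem z6_C {t v : ℝ} (ht : 6 / 5 ≤ t) (hv : 0 ≤ v) (h : t + v ≤ π) :
    6336 / 10000 + 2 / 5 * v ≤ 1 - cos (t + v) := by
  have hpi := Real.pi_lt_d2
  have h1 : cos (t + v) ≤ cos (6 / 5 + v) :=
    Real.cos_le_cos_of_nonneg_of_le_pi (by linarith only [hv]) h (by linarith only [ht])
  have h2 : cos (6 / 5 + v) = cos (6 / 5) * cos v - sin (6 / 5) * sin v := Real.cos_add _ _
  have hc := z6_cos12
  have hs := z6_sin12
  have hc0 : 0 ≤ cos (6 / 5) :=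
    Real.cos_nonneg_of_mem_Icc ⟨by linarith only [Real.pi_gt_three], by linarith only [Real.pi_gt_three]⟩
  have h3 : cos (6 / 5) * cos v ≤ cos (6 / 5) := by
    have := Real.cos_le_one v
    nlinarith only [hc0, this]
  -- concavity of the sine
  have h4 : 46 / 100 * v ≤ sin v := by
    have hconc := strictConcaveOn_sin_Icc.concaveOn
    set L := π - 6 / 5 with hL
    have hL0 : 0 < L := by
      rw [hL]
      linarith only [Real.pi_gt_three]
    have hvL : v ≤ L := by rw [hL]; linarith only [ht, h]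
    have hmem0 : (0 : ℝ) ∈ Icc 0 π := ⟨le_rfl, Real.pi_pos.le⟩
    have hmemL : L ∈ Icc 0 π := ⟨hL0.le, by rw [hL]; linarith only []⟩
    have hk := hconc.2 hmem0 hmemL
      (show (0 : ℝ) ≤ 1 - v / L by rw [sub_nonneg, div_le_one hL0]; exact hvL)
      (div_nonneg hv hL0.le) (by ring)
    have e1 : (1 - v / L) • (0 : ℝ) + (v / L) • L = v := by
      simp only [smul_eq_mul, mul_zero, zero_add]
      field_simp
    rw [e1] at hk
    simp only [smul_eq_mul, Real.sin_zero, mul_zero, zero_add] at hk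
    have h5 : sin L = sin (6 / 5) := by rw [hL, Real.sin_pi_sub]
    rw [h5] at hk
    refine le_trans ?_ hk
    have h6 : 46 / 100 * L ≤ sin (6 / 5) := by rw [hL]; linarith only [hpi, hs]
    have h7 : 46 / 100 * v = v / L * (46 / 100 * L) := by field_simp
    rw [h7]
    exact mul_le_mul_of_nonneg_left h6 (div_nonneg hv hL0.le)
  have h5 : 0 ≤ sin v := by linarith only [hv, h4]
  have h6 : 912 / 1000 * sin v ≤ sin (6 / 5) * sin v := mul_le_mul_of_nonneg_right hs h5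
  linarith only [h1, h2, hc, h3, h4, h5, h6]

/-- the rest zone, right side -/
theorem Dm_35 {m ρ t s : ℝ} (hρ : 0 < ρ) (hm : 5 / 4 * ρ ≤ m) (hm1 : 5 / 4 ≤ m)
    (hm2 : m ≤ 16 / 5) (ht : 6 / 5 ≤ t) (ht2 : t ≤ π) (h : 6336 / 10000 ≤ 1 - cos (-t + s)) :
    3 / 5 ≤ Dm m ρ (-t) s := by
  have hρm : ρ ≤ m := by linarith only [hρ, hm]
  have hm0 : 0 < m := by linarith only [hm1]
  rw [Dm_eq]
  rcases le_total 0 s with hs | hs
  · have h1 := Qm_nonneg hρ hρm s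
    have h2 : 1 ≤ exp (pm m s) := Real.one_le_exp (pm_nonneg hm0 hs)
    nlinarith only [h, h1, h2]
  obtain ⟨v, rfl⟩ : ∃ v, s = -v := ⟨-s, by ring⟩
  have hv : 0 ≤ v := by linarith only [hs]
  have e1 : cos (-t + -v) = cos (t + v) := by
    rw [← Real.cos_neg]
    ring_nf
  rw [e1] at h ⊢
  have hmu : 3 / 4 ≤ m / ρ - 1 / 2 := by
    have : 5 / 4 ≤ m / ρ := by rwa [le_div_iff₀ hρ]
    linarith only [this]
  rcases le_total m v with h1 | h1
  · have h2 := Qm_left hρ hm0 hm0.le (by rw [div_self hm0.ne'])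
    have h3 := Qm_ray_left hρ hρm hm0 h1
    have h4 : aL m ρ * m ^ (2 : ℕ) = m / ρ - 1 / 2 := by
      unfold aL
      field_simp
    rw [h4] at h2
    have h5 : 1 ≤ v / m := by rwa [le_div_iff₀ hm0, one_mul]
    have h6 : Qm m ρ (-m) ≤ Qm m ρ (-m) * (v / m) := by nlinarith only [hmu, h2, h5]
    have h7 : 0 ≤ exp (pm m (-v)) * (1 - cos (t + v)) :=
      mul_nonneg (exp_pos _).le (by linarith only [h])
    linarith only [hmu, h2, h3, h6, h7]
  have hx1 : v / m ≤ 1 := by rwa [div_le_one hm0]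
  have hx0 : 0 ≤ v / m := div_nonneg hv hm0.le
  have h2 := Qm_left hρ hm0 hv hx1
  have h3 : aL m ρ * v ^ (2 : ℕ) = (m / ρ - 1 / 2) * (v / m) ^ (2 : ℕ) := by
    unfold aL
    field_simp
  rw [h3] at h2
  have h4 : 3 / 4 * (v / m) ^ (2 : ℕ) ≤ Qm m ρ (-v) :=
    (mul_le_mul_of_nonneg_right hmu (sq_nonneg _)).trans h2
  have h5 : pm m (-v) = -(v / m) := by
    unfold pm
    rw [neg_div, min_eq_right (by linarith only [hx0]), max_eq_right (by linarith only [hx1])]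
  rw [h5]
  set x := v / m with hx
  have hE := exp_pos (-x)
  have hv1 : v = m * x := by rw [hx]; field_simp
  set C := 1 - cos (t + v) with hC
  rcases le_total (t + v) π with h6 | h6
  · have h7 := z6_C ht hv h6
    have h8 : 5 / 4 * x ≤ v := by rw [hv1]; exact mul_le_mul_of_nonneg_right hm1 hx0
    have h9 : 6336 / 10000 + 1 / 2 * x ≤ C := by linarith only [h7, h8]
    have h10 : 1 - x ≤ exp (-x) := SokamF1G.en_ge1
    have h11 : (1 - x) * (6336 / 10000 + 1 / 2 * x) ≤ exp (-x) * C := by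
      have h12 : (1 - x) * (6336 / 10000 + 1 / 2 * x) ≤ exp (-x) * (6336 / 10000 + 1 / 2 * x) :=
        mul_le_mul_of_nonneg_right h10 (by linarith only [hx0])
      exact h12.trans (mul_le_mul_of_nonneg_left h9 hE.le)
    nlinarith only [h4, h11, sq_nonneg (x - 67 / 250)]
  · rcases le_total (3 / 4) C with h7 | h7
    · have h10 := SokamF1G.en_ge3 hx0
      have h11 : 3 / 4 * exp (-x) ≤ exp (-x) * C := by nlinarith only [hE, h7]
      have h12 : 4 / 5 ≤ x ^ (2 : ℕ) + (1 - x + x ^ (2 : ℕ) / 2 - x ^ (3 : ℕ) / 6) := by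
        nlinarith only [mul_nonneg hx0 (sq_nonneg (x - 7 / 20)), mul_nonneg (mul_nonneg hx0 hx0) (sub_nonneg.2 hx1)]
      linarith only [h4, h10, h11, h12]
    · -- cos (t+v) ≥ 1/4, so t + v ≥ 3π/2 + 1/4
      have h8 : 1 / 4 ≤ cos (t + v) := by rw [hC] at h7; linarith only [h7]
      have h9 : 3 * π / 2 < t + v := by
        by_contra hc
        push Not at hc
        have : cos (t + v) ≤ 0 :=
          Real.cos_nonpos_of_pi_div_two_le_of_le (by linarith only [h6, Real.pi_pos]) (by linarith only [hc])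
        linarith only [h8, this]
      have h10 : cos (t + v) = sin (t + v - 3 * π / 2) := by
        have e : t + v - 3 * π / 2 = t + v - π - π / 2 := by ring
        rw [e, Real.sin_sub_pi_div_two, Real.cos_sub_pi]
        ring
      have h11 : sin (t + v - 3 * π / 2) ≤ t + v - 3 * π / 2 := Real.sin_le (by linarith only [h9])
      have hpi := Real.pi_gt_d2
      have h12 : 182 / 100 ≤ v := by linarith only [ht2, h8, h10, h11, hpi]
      have h13 : 56875 / 100000 ≤ x := by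
        rw [hx, le_div_iff₀ hm0]
        linarith only [hm2, h12]
      have h14 : 5487 / 10000 * (8 / 5 - x) ≤ exp (-x) := by
        have e : exp (-x) = exp (-(3 / 5)) * exp (3 / 5 - x) := by
          rw [← Real.exp_add]
          ring_nf
        rw [e]
        have h15 := Real.add_one_le_exp (3 / 5 - x)
        have h16 := z6_exp
        have h17 : 0 ≤ 8 / 5 - x := by linarith only [hx1]
        calc 5487 / 10000 * (8 / 5 - x) ≤ exp (-(3 / 5)) * (8 / 5 - x) :=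
              mul_le_mul_of_nonneg_right h16 h17
          _ ≤ exp (-(3 / 5)) * exp (3 / 5 - x) :=
              mul_le_mul_of_nonneg_left (by linarith only [h15]) (exp_pos _).le
      have h18 : 6336 / 10000 * exp (-x) ≤ exp (-x) * C := by nlinarith only [hE, h]
      nlinarith only [h4, h13, h14, h18]

end SokamCen

end

/-! ### Lib_MP_af4de1_v3.DzDefs -/

section
namespace SokamCen
end SokamCen
namespace SokamV3
end SokamV3
/-!
# Fields `d` (`i ≥ 2`): closed forms (helper20)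

Centre path of slope `m = mm ρ = (5/4) √(1+ρ²)`.  `φ` is the angle of a half line: `φ = |θ|` on the side of the wave,
`φ = 2π - |θ|` on the other side.  `q = r` or `q = 8r/9`.
Main, Tail (`|s| > φ`), Far (`1 - cos ≥ .6336`), fronT (`φ > 2π - 6/5`); `r..`: `s > 0`, `l..`: `s < 0`.
-/

set_option autoImplicit false

namespace SokamDz

open Real MeasureTheory Set SokamCen SokamV3

/-- quadratic coefficient, right -/
noncomputable def rA (ρ φ : ℝ) : ℝ := AR (mm ρ) ρ φ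
/-- quadratic coefficient, left -/
noncomputable def lA (ρ φ : ℝ) : ℝ := AL (mm ρ) ρ φ

/-- right, main -/
noncomputable def rM (q ρ φ B : ℝ) : ℝ :=
  √(π / (q * (rA ρ φ + B))) * exp (-(q * (rA ρ φ * B * φ ^ (2 : ℕ) / (rA ρ φ + B))))
/-- right, tail -/
noncomputable def rT (q ρ φ : ℝ) : ℝ := 3 / 2 / √q * exp (-(q * (rA ρ φ * φ ^ (2 : ℕ))))
/-- right, far -/
noncomputable def rF (q ρ φ : ℝ) : ℝ := √(π / (q * rA ρ φ)) / 2 * exp (-(q * (3168 / 5000)))
open scoped Classical in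
/-- right, front -/
noncomputable def rO (q ρ φ : ℝ) : ℝ :=
  if 2 * π - φ < 6 / 5 then
    √(π / (q * (rA ρ φ + 11 / 25))) / 2 * exp (-(q * (11 / 25 * (2 * π - φ) ^ (2 : ℕ)))) else 0

/-- left, main -/
noncomputable def lM (q ρ φ B l : ℝ) : ℝ :=
  √(π / (q * (lA ρ φ + B))) * exp (-(q * (lA ρ φ * B * φ ^ (2 : ℕ) / (lA ρ φ + B) - l)))
/-- left, tail -/
noncomputable def lT (q ρ φ : ℝ) : ℝ := 5 / 2 / √q * exp (-(q * (lA ρ φ * φ ^ (2 : ℕ))))
/-- left, far (`e = 1/2` or `11/20`, see `HE`) -/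
noncomputable def lF (q ρ φ e : ℝ) : ℝ := √(3 * π / (q * lA ρ φ)) / 2 * exp (-(q * e))
open scoped Classical in
/-- left, front -/
noncomputable def lO (q ρ φ : ℝ) : ℝ :=
  if 2 * π - φ < 6 / 5 then
    √(π / (q * lA ρ φ)) / 2 * exp (-(q * (11 / 25 * (2 * π - φ) ^ (2 : ℕ)))) else 0

/-- the constant in front -/
noncomputable def Kc (r ρ : ℝ) : ℝ :=
  √(r / (2 * π * ρ)) * √(√(1 + ρ ^ (2 : ℕ))) * √(1 + 1 / mm ρ ^ (2 : ℕ))

/-- right main, hypothesis on `B` -/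
def HR (φ B : ℝ) : Prop := 0 < B ∧ ∀ u : ℝ, 0 ≤ u → u ≤ φ → u ≤ 6 / 5 → B * u ^ (2 : ℕ) ≤ 1 - cos u

/-- right main, hypothesis on the weight constant (`T ≥ φ/m`, `T ≤ 1`) -/
def HC (ρ φ C : ℝ) : Prop := 14 / 5 ≤ C ∨ ∃ T : ℝ, φ ≤ T * mm ρ ∧ T ≤ 1 ∧ 1 ≤ C ∧
  (1 + T / 2 + 2 * T ^ (2 : ℕ) / 9) ^ (2 : ℕ) ≤ C * (5 / 2 - (1 + T / 3 + 5 * T ^ (2 : ℕ) / 48))

/-- right front, hypothesis on the weight constant -/
def HF (ρ φ C : ℝ) : Prop := 14 / 5 ≤ C ∨ ∃ T : ℝ, 6 / 5 - (2 * π - φ) ≤ T * mm ρ ∧ 0 ≤ T ∧ T ≤ 1 ∧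
  1 ≤ C ∧ (1 + T / 2 + 2 * T ^ (2 : ℕ) / 9) ^ (2 : ℕ) ≤ C * (5 / 2 - (1 + T / 3 + 5 * T ^ (2 : ℕ) / 48))

/-- left far, hypothesis on `e` (`e = 1/2` always holds, `HE_half`) -/
def HE (ρ e : ℝ) : Prop := 0 < e ∧ ∀ x : ℝ, 0 ≤ x → x ≤ 1 →
  e ≤ 3168 / 5000 * exp (-x) + 2 / 3 * ((mm ρ / ρ - 1 / 2) * x ^ (2 : ℕ))

/-- left main, hypothesis on `B`, `l` -/
def HL (ρ φ B l : ℝ) : Prop := 0 < B ∧ 0 ≤ l ∧ ∀ v : ℝ, 0 ≤ v → v ≤ φ → φ - v ≤ 6 / 5 →
  B * (φ - v) ^ (2 : ℕ) - l ≤ exp (pm (mm ρ) (-v)) * (1 - cos (φ - v))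

/-- the sum of the weighted zones divided by `r` -/
noncomputable def SW (r ρ φR φL C Cf B B' l e : ℝ) : ℝ :=
  20 / 3 * (C * rM (8 / 9 * r) ρ φR B + 14 / 5 * rT (8 / 9 * r) ρ φR +
    Cf * rO (8 / 9 * r) ρ φR +
    lM (8 / 9 * r) ρ φL B' l + lT (8 / 9 * r) ρ φL + lO (8 / 9 * r) ρ φL) +
  r * (14 * rF r ρ φR + 4 * lF r ρ φL e) +
  (68 / 25 * (rM r ρ φR B + rT r ρ φR + rF r ρ φR + rO r ρ φR) +
    (lM r ρ φL B' l + lT r ρ φL + lF r ρ φL e + lO r ρ φL))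

open scoped Classical in
/-- the claim as a function of `X = r θ²/R`, `r` and `ρ` -/
noncomputable def Fd (r ρ X : ℝ) : ℝ := if X ≤ 80 then 2 / 25 * exp (-(17 / 100 * X)) else
  if X ≤ 31 / 4 * r then 1 / 2000 * exp (-(X / 25)) else
    1 / 2000 * exp (-(7 / 25 * (r / (1 + ρ ^ (2 : ℕ)))))

/-- the hypotheses of the statement at `y = 0` -/
structure HypD (r ρ t : ℝ) : Prop where
  ρ0 : 0 < ρ
  r0 : 499 / 10 ≤ r
  t0 : 0 < t
  t1 : t ≤ π
  X : 108 / 5 ≤ r * t ^ (2 : ℕ) / (1 + ρ ^ (2 : ℕ))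

/-- REAL INEQUALITY, wave on the left (`θ = t`): owner helper7 -/
def PRealDL : Prop := ∀ r ρ t : ℝ, HypD r ρ t → ∃ C Cf B B' l e : ℝ, HR (2 * π - t) B ∧
  HC ρ (2 * π - t) C ∧ HF ρ (2 * π - t) Cf ∧ HL ρ t B' l ∧ HE ρ e ∧
  l ≤ lA ρ t * B' * t ^ (2 : ℕ) / (lA ρ t + B') ∧
  Kc r ρ * SW r ρ (2 * π - t) t C Cf B B' l e ≤ 27 / 5 * Fd r ρ (r * t ^ (2 : ℕ) / (1 + ρ ^ (2 : ℕ)))

/-- REAL INEQUALITY, wave on the right (`θ = -t`): owner helper48 -/
def PRealDR : Prop := ∀ r ρ t : ℝ, HypD r ρ t → ∃ C Cf B B' l e : ℝ, HR t B ∧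
  HC ρ t C ∧ HF ρ t Cf ∧ HL ρ (2 * π - t) B' l ∧ HE ρ e ∧
  l ≤ lA ρ (2 * π - t) * B' * (2 * π - t) ^ (2 : ℕ) / (lA ρ (2 * π - t) + B') ∧
  Kc r ρ * SW r ρ t (2 * π - t) C Cf B B' l e ≤ 27 / 5 * Fd r ρ (r * t ^ (2 : ℕ) / (1 + ρ ^ (2 : ℕ)))

/-- The statement (S), left. -/
def PDL : Prop := ∀ r δ t H : ℝ, 0 < δ → HypD r (r * δ) t → 0 < H → 27 / 5 * r ≤ H ^ (2 : ℕ) →
  Shf r δ 0 t H (Fd r (r * δ) (r * t ^ (2 : ℕ) / (1 + (r * δ) ^ (2 : ℕ))))
    (Fd r (r * δ) (r * t ^ (2 : ℕ) / (1 + (r * δ) ^ (2 : ℕ)))) (Fd r (r * δ) (r * t ^ (2 : ℕ) / (1 + (r * δ) ^ (2 : ℕ))))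

/-- The statement (S), right. -/
def PDR : Prop := ∀ r δ t H : ℝ, 0 < δ → HypD r (r * δ) t → 0 < H → 27 / 5 * r ≤ H ^ (2 : ℕ) →
  Shf r δ 0 (-t) H (Fd r (r * δ) (r * t ^ (2 : ℕ) / (1 + (r * δ) ^ (2 : ℕ))))
    (Fd r (r * δ) (r * t ^ (2 : ℕ) / (1 + (r * δ) ^ (2 : ℕ)))) (Fd r (r * δ) (r * t ^ (2 : ℕ) / (1 + (r * δ) ^ (2 : ℕ))))

end SokamDz

end

/-! ### Lib_MP_af4de1_v3.DzWt -/

section
namespace SokamCen
end SokamCen
/-!
# Fields `d`: the weights and the pointwise bounds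
-/

set_option autoImplicit false

namespace SokamDz

open Real MeasureTheory Set SokamCen

theorem mm_pos (ρ : ℝ) : 0 < mm ρ := by
  unfold mm
  positivity

theorem sq_mm (ρ : ℝ) : mm ρ ^ (2 : ℕ) = 25 / 16 * (1 + ρ ^ (2 : ℕ)) := by
  unfold mm
  rw [mul_pow, Real.sq_sqrt (by positivity)]
  norm_num

theorem rho_le_sqrt (ρ : ℝ) : ρ ≤ √(1 + ρ ^ (2 : ℕ)) := by
  refine Real.le_sqrt_of_sq_le ?_
  linarith only []

theorem rho_le_mm {ρ : ℝ} (hρ : 0 < ρ) : 5 / 4 * ρ ≤ mm ρ := by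
  unfold mm
  have := rho_le_sqrt ρ
  linarith only [this]

theorem rho_le_mm' {ρ : ℝ} (hρ : 0 < ρ) : ρ ≤ mm ρ := by
  have := rho_le_mm hρ
  linarith only [hρ, this]

theorem mm_div {ρ : ℝ} (hρ : 0 < ρ) : 5 / 4 ≤ mm ρ / ρ := by
  rw [le_div_iff₀ hρ]
  exact rho_le_mm hρ

theorem mm_ge (ρ : ℝ) : 5 / 4 ≤ mm ρ := by
  unfold mm
  have : 1 ≤ √(1 + ρ ^ (2 : ℕ)) := by
    rw [Real.one_le_sqrt]
    nlinarith [sq_nonneg ρ]
  linarith only [this]

/-- the weight at `w = 1` -/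
theorem Wm_one (m θ s : ℝ) : Wm m θ 1 s =
    (exp (pm m s) - 1) ^ (2 : ℕ) + 2 * exp (pm m s) * (1 - cos (θ + s)) := by
  unfold Wm SokamCen.em
  have h : Complex.exp (pm m s + (θ + s) * Complex.I) - 1 =
      ((Real.exp (pm m s) * Real.cos (θ + s) - 1 : ℝ) : ℂ) +
      ((Real.exp (pm m s) * Real.sin (θ + s) : ℝ) : ℂ) * Complex.I := by
    have e : ((pm m s : ℂ) + (θ + s) * Complex.I) =
        ((pm m s : ℝ) : ℂ) + ((θ + s : ℝ) : ℂ) * Complex.I := by push_cast; ring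
    rw [e, Complex.exp_add, Complex.exp_mul_I, ← Complex.ofReal_exp, ← Complex.ofReal_cos,
      ← Complex.ofReal_sin]
    push_cast
    ring
  rw [h, Complex.sq_norm, Complex.normSq_add_mul_I]
  linear_combination (Real.exp (pm m s) ^ (2 : ℕ)) * Real.sin_sq_add_cos_sq (θ + s)

/-- it is enough to bound the radial part -/
theorem Wm_of {m ρ θ s C : ℝ} (hC : 1 ≤ C)
    (h : (exp (pm m s) - 1) ^ (2 : ℕ) ≤ 2 * C * Qm m ρ s) : Wm m θ 1 s ≤ 2 * C * Dm m ρ θ s := by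
  rw [Dm_eq, Wm_one]
  have h1 := exp_pos (pm m s)
  have h2 := cos_le_one (θ + s)
  have h3 : 0 ≤ exp (pm m s) * (1 - cos (θ + s)) := mul_nonneg h1.le (by linarith only [h2])
  nlinarith only [hC, h, h3]

theorem exp_le_cubic {a : ℝ} (h0 : 0 ≤ a) (h1 : a ≤ 1) :
    exp a ≤ 1 + a + a ^ (2 : ℕ) / 2 + 2 * a ^ (3 : ℕ) / 9 := by
  have h := Real.exp_bound' h0 h1 (n := 3) (by norm_num)
  have e : ∑ m ∈ Finset.range 3, a ^ m / (m.factorial : ℝ) + a ^ (3 : ℕ) * ((3 : ℕ) + 1) /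
      (((3 : ℕ).factorial : ℝ) * (3 : ℕ)) = 1 + a + a ^ (2 : ℕ) / 2 + 2 * a ^ (3 : ℕ) / 9 := by
    simp [Finset.sum_range_succ, Nat.factorial]
    ring
  rw [e] at h
  exact h

theorem wR {ρ θ s T C : ℝ} (hρ : 0 < ρ) (hs : 0 < s) (hT : s ≤ T * mm ρ) (hT1 : T ≤ 1)
    (hC : 1 ≤ C)
    (hC2 : (1 + T / 2 + 2 * T ^ (2 : ℕ) / 9) ^ (2 : ℕ) ≤ C * (5 / 2 - (1 + T / 3 + 5 * T ^ (2 : ℕ) / 48))) :
    Wm (mm ρ) θ 1 s ≤ 2 * C * Dm (mm ρ) ρ θ s := by
  have hm := mm_pos ρ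
  have hsT : s / mm ρ ≤ T := by rwa [div_le_iff₀ hm]
  have ha0 : 0 ≤ s / mm ρ := by positivity
  have hQ := Qm_right hρ hm hs.le hsT hT1
  have hpm : pm (mm ρ) s = s / mm ρ :=
    pm_mid hm (by linarith only [hs, hm]) (by nlinarith only [hT, hT1, hm])
  refine Wm_of hC ?_
  rw [hpm]
  have h54 := mm_div hρ
  have e1 : aR (mm ρ) ρ T * s ^ (2 : ℕ) = (mm ρ / ρ - (1 + T / 3 + 5 * T ^ (2 : ℕ) / 48) / 2) *
      (s / mm ρ) ^ (2 : ℕ) := by
    unfold aR
    field_simp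
  rw [e1] at hQ
  set a := s / mm ρ
  have h1 := exp_le_cubic ha0 (hsT.trans hT1)
  have h2 : 1 ≤ exp a := Real.one_le_exp ha0
  have h3 : exp a - 1 ≤ a * (1 + T / 2 + 2 * T ^ (2 : ℕ) / 9) := by
    have h4 : a ^ (2 : ℕ) ≤ T ^ (2 : ℕ) := pow_le_pow_left₀ ha0 hsT 2
    have h5 : a * (a / 2 + 2 * a ^ (2 : ℕ) / 9) ≤ a * (T / 2 + 2 * T ^ (2 : ℕ) / 9) :=
      mul_le_mul_of_nonneg_left (by linarith only [hsT, h4]) ha0
    linarith only [h1, h5]
  have h6 : (exp a - 1) ^ (2 : ℕ) ≤ (a * (1 + T / 2 + 2 * T ^ (2 : ℕ) / 9)) ^ (2 : ℕ) :=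
    pow_le_pow_left₀ (by linarith only [h2]) h3 2
  have h7 : (5 / 4 - (1 + T / 3 + 5 * T ^ (2 : ℕ) / 48) / 2) * a ^ (2 : ℕ) ≤ Qm (mm ρ) ρ s := by
    refine le_trans ?_ hQ
    exact mul_le_mul_of_nonneg_right (by linarith only [h54]) (sq_nonneg a)
  calc (exp a - 1) ^ (2 : ℕ) ≤ (1 + T / 2 + 2 * T ^ (2 : ℕ) / 9) ^ (2 : ℕ) * a ^ (2 : ℕ) := by
        refine h6.trans (le_of_eq ?_)
        ring
    _ ≤ C * (5 / 2 - (1 + T / 3 + 5 * T ^ (2 : ℕ) / 48)) * a ^ (2 : ℕ) :=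
        mul_le_mul_of_nonneg_right hC2 (sq_nonneg a)
    _ = 2 * C * ((5 / 4 - (1 + T / 3 + 5 * T ^ (2 : ℕ) / 48) / 2) * a ^ (2 : ℕ)) := by ring
    _ ≤ 2 * C * Qm (mm ρ) ρ s := mul_le_mul_of_nonneg_left h7 (by linarith only [hC])

theorem wR' {ρ θ s : ℝ} (hρ : 0 < ρ) (hs : 0 < s) :
    Wm (mm ρ) θ 1 s ≤ 2 * (14 / 5) * Dm (mm ρ) ρ θ s := by
  have hm := mm_pos ρ
  rcases le_total s (mm ρ) with h | h
  · exact wR hρ hs (T := 1) (by linarith only [h]) le_rfl (by norm_num) (by norm_num)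
  · refine Wm_of (by norm_num) ?_
    have hpm : pm (mm ρ) s = 1 := pm_right hm h
    have h54 := mm_div hρ
    have h1 : 5 / 4 ≤ s / ρ := h54.trans (by gcongr)
    have he := Real.exp_one_lt_d9
    have he2 := Real.exp_one_gt_d9
    have hQ : Qm (mm ρ) ρ s = 2 + s / ρ - exp 1 := by
      unfold Qm
      rw [hpm]
      ring
    rw [hpm, hQ]
    nlinarith only [h1, he, he2]

theorem pm_neg' {m v : ℝ} (hm : 0 < m) (hv : 0 ≤ v) : pm m (-v) = -min 1 (v / m) := by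
  unfold pm
  have h0 : 0 ≤ v / m := div_nonneg hv hm.le
  rw [neg_div, min_eq_right (by linarith only [h0]), ← max_neg_neg]

theorem Qm_left_x {ρ v : ℝ} (hρ : 0 < ρ) (hv : 0 ≤ v) :
    (mm ρ / ρ - 1 / 2) * (min 1 (v / mm ρ)) ^ (2 : ℕ) ≤ Qm (mm ρ) ρ (-v) := by
  have hm := mm_pos ρ
  rcases le_total v (mm ρ) with h | h
  · have h1 : v / mm ρ ≤ 1 := (div_le_one hm).2 h
    have hQ := Qm_left hρ hm hv h1
    rw [min_eq_right h1]
    refine le_trans (le_of_eq ?_) hQ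
    unfold aL
    field_simp
  · have h1 : 1 ≤ v / mm ρ := (one_le_div hm).2 h
    have hpm := pm_neg' hm hv
    rw [min_eq_left h1] at hpm ⊢
    have hQ : Qm (mm ρ) ρ (-v) = v / ρ - exp (-1) := by
      unfold Qm
      rw [hpm]
      ring
    rw [hQ]
    have h2 : mm ρ / ρ ≤ v / ρ := by gcongr
    have h3 : exp (-1) ≤ 1 / 2 := by
      rw [Real.exp_neg, inv_eq_one_div]
      refine one_div_le_one_div_of_le (by norm_num) ?_
      linarith only [Real.exp_one_gt_d9]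
    linarith only [h2, h3]

theorem wL {ρ θ v : ℝ} (hρ : 0 < ρ) (hv : 0 ≤ v) :
    Wm (mm ρ) θ 1 (-v) ≤ 2 * 1 * Dm (mm ρ) ρ θ (-v) := by
  have hm := mm_pos ρ
  refine Wm_of le_rfl ?_
  have hpm := pm_neg' hm hv
  have hQ := Qm_left_x hρ hv
  have h54 := mm_div hρ
  rw [hpm]
  set x := min 1 (v / mm ρ)
  have hx0 : 0 ≤ x := le_min one_pos.le (div_nonneg hv hm.le)
  have h1 := Real.add_one_le_exp (-x)
  have h2 : exp (-x) ≤ 1 := Real.exp_le_one_iff.2 (by linarith only [hx0])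
  have h3 : (exp (-x) - 1) ^ (2 : ℕ) ≤ x ^ (2 : ℕ) := by
    nlinarith only [h1, h2]
  nlinarith only [h54, hQ, h3]

theorem wFarR {θ v : ℝ} (m : ℝ) : Wm m θ 1 v ≤ 14 := by
  have h := Wm_one m θ v
  have h1 : exp (pm m v) ≤ exp 1 := by
    refine exp_le_exp.2 ?_
    exact (abs_le.1 (pm_mem m v)).2
  have h2 := neg_one_le_cos (θ + v)
  have h3 := exp_pos (pm m v)
  have he := Real.exp_one_lt_d9
  rw [h]
  have h5 : exp (pm m v) * (1 - cos (θ + v)) ≤ exp (pm m v) * 2 :=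
    mul_le_mul_of_nonneg_left (by linarith only [h2]) h3.le
  nlinarith only [h1, h3, he, h5]

theorem wFarL {θ v m : ℝ} (hm : 0 < m) (hv : 0 ≤ v) : Wm m θ 1 (-v) ≤ 4 := by
  have h := Wm_one m θ (-v)
  have h1 : exp (pm m (-v)) ≤ 1 := Real.exp_le_one_iff.2 (pm_nonpos hm (by linarith only [hv]))
  have h2 := neg_one_le_cos (θ + -v)
  have h3 := exp_pos (pm m (-v))
  rw [h]
  have h5 : exp (pm m (-v)) * (1 - cos (θ + -v)) ≤ exp (pm m (-v)) * 2 :=
    mul_le_mul_of_nonneg_left (by linarith only [h2]) h3.le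
  nlinarith only [h1, h2, h3]

/-- the trick -/
theorem ytrick (y : ℝ) : y * exp (-y) ≤ 10 / 3 * exp (-(8 / 9 * y)) := by
  have h1 := Real.add_one_le_exp (y / 9 - 1)
  have h2 : exp (-(8 / 9 * y)) = exp (y / 9 - 1) * exp 1 * exp (-y) := by
    rw [← exp_add, ← exp_add]
    congr 1
    ring
  have he := Real.exp_one_gt_d9
  have h3 := exp_pos (-y)
  have h4 := exp_pos (y / 9 - 1)
  have h5 : y ≤ 10 / 3 * (exp (y / 9 - 1) * exp 1) := by nlinarith only [h1, he, h4]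
  rw [h2]
  nlinarith only [h3, h5]

end SokamDz

end

/-! ### Lib_MP_af4de1_v3.DzHalf -/

section
namespace SokamCen
end SokamCen
/-!
# Fields `d`: the zones of a half line
-/

set_option autoImplicit false

namespace SokamDz

open Real MeasureTheory Set SokamCen

/-- the three integrals over a set, abstract -/
structure HZ (r : ℝ) (D W a : ℝ → ℝ) (S : Set ℝ) (I0 IW Ie : ℝ) : Prop where
  i0 : ∫⁻ v in S, ENNReal.ofReal (exp (-(r * D v))) ≤ ENNReal.ofReal I0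
  iW : ∫⁻ v in S, ENNReal.ofReal (W v * exp (-(r * D v))) ≤ ENNReal.ofReal IW
  ie : ∫⁻ v in S, ENNReal.ofReal (exp (a v) * exp (-(r * D v))) ≤ ENNReal.ofReal Ie

theorem HZ.subset {r : ℝ} {D W a : ℝ → ℝ} {S T : Set ℝ} {I0 IW Ie : ℝ}
    (h : HZ r D W a T I0 IW Ie) (hST : S ⊆ T) : HZ r D W a S I0 IW Ie :=
  ⟨(lintegral_mono_set hST).trans h.i0, (lintegral_mono_set hST).trans h.iW,
    (lintegral_mono_set hST).trans h.ie⟩

theorem HZ.union {r : ℝ} {D W a : ℝ → ℝ} {S T : Set ℝ} {I0 IW Ie J0 JW Je : ℝ}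
    (h : HZ r D W a S I0 IW Ie) (h' : HZ r D W a T J0 JW Je)
    (a0 : 0 ≤ I0) (a1 : 0 ≤ IW) (a2 : 0 ≤ Ie) (b0 : 0 ≤ J0) (b1 : 0 ≤ JW) (b2 : 0 ≤ Je) :
    HZ r D W a (S ∪ T) (I0 + J0) (IW + JW) (Ie + Je) := by
  refine ⟨?_, ?_, ?_⟩
  · rw [ENNReal.ofReal_add a0 b0]
    exact (lintegral_union_le _ _ _).trans (add_le_add h.i0 h'.i0)
  · rw [ENNReal.ofReal_add a1 b1]
    exact (lintegral_union_le _ _ _).trans (add_le_add h.iW h'.iW)
  · rw [ENNReal.ofReal_add a2 b2]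
    exact (lintegral_union_le _ _ _).trans (add_le_add h.ie h'.ie)

/-- weights bounded by constants -/
theorem HZ.const {r w0 e0 I0 : ℝ} {D W a : ℝ → ℝ} {S : Set ℝ} (hS : MeasurableSet S)
    (hw : ∀ v ∈ S, W v ≤ w0) (he : ∀ v ∈ S, exp (a v) ≤ e0) (w00 : 0 ≤ w0) (e00 : 0 ≤ e0)
    (h0 : ∫⁻ v in S, ENNReal.ofReal (exp (-(r * D v))) ≤ ENNReal.ofReal I0) :
    HZ r D W a S I0 (w0 * I0) (e0 * I0) := by
  have key : ∀ (c : ℝ) (f : ℝ → ℝ), 0 ≤ c → (∀ v ∈ S, f v ≤ c) →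
      ∫⁻ v in S, ENNReal.ofReal (f v * exp (-(r * D v))) ≤ ENNReal.ofReal (c * I0) := by
    intro c f hc hf
    calc ∫⁻ v in S, ENNReal.ofReal (f v * exp (-(r * D v)))
        ≤ ∫⁻ v in S, ENNReal.ofReal c * ENNReal.ofReal (exp (-(r * D v))) := by
          refine setLIntegral_mono' hS fun v hv => ?_
          rw [← ENNReal.ofReal_mul hc]
          exact ENNReal.ofReal_le_ofReal (mul_le_mul_of_nonneg_right (hf v hv) (exp_pos _).le)
      _ = ENNReal.ofReal c * ∫⁻ v in S, ENNReal.ofReal (exp (-(r * D v))) :=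
          lintegral_const_mul' _ _ ENNReal.ofReal_ne_top
      _ ≤ ENNReal.ofReal c * ENNReal.ofReal I0 := mul_le_mul_right h0 _
      _ = _ := by rw [← ENNReal.ofReal_mul hc]
  exact ⟨h0, key w0 W w00 hw, key e0 (fun v => exp (a v)) e00 he⟩

/-- the weight by the height -/
theorem HZ.height {r C e0 I0 I1 : ℝ} {D W a : ℝ → ℝ} {S : Set ℝ} (hr : 0 < r) (hC : 0 ≤ C)
    (hS : MeasurableSet S)
    (hw : ∀ v ∈ S, W v ≤ 2 * C * D v) (he : ∀ v ∈ S, exp (a v) ≤ e0) (e00 : 0 ≤ e0)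
    (h0 : ∫⁻ v in S, ENNReal.ofReal (exp (-(r * D v))) ≤ ENNReal.ofReal I0)
    (h1 : ∫⁻ v in S, ENNReal.ofReal (exp (-(8 / 9 * r * D v))) ≤ ENNReal.ofReal I1) :
    HZ r D W a S I0 (20 / 3 * C * I1 / r) (e0 * I0) := by
  have h2 := HZ.const (W := fun _ => 0) (w0 := 0) hS (fun _ _ => le_rfl) he le_rfl e00 h0
  refine ⟨h0, ?_, h2.ie⟩
  have hc : 0 ≤ 20 / 3 * C / r := by positivity
  calc ∫⁻ v in S, ENNReal.ofReal (W v * exp (-(r * D v)))
      ≤ ∫⁻ v in S, ENNReal.ofReal (20 / 3 * C / r) *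
          ENNReal.ofReal (exp (-(8 / 9 * r * D v))) := by
        refine setLIntegral_mono' hS fun v hv => ?_
        rw [← ENNReal.ofReal_mul hc]
        refine ENNReal.ofReal_le_ofReal ?_
        have h3 := mul_le_mul_of_nonneg_right (hw v hv) (exp_pos (-(r * D v))).le
        have h4 := ytrick (r * D v)
        have h5 : 2 * C * D v * exp (-(r * D v)) = 2 * C / r * (r * D v * exp (-(r * D v))) := by
          field_simp
        have h6 : 0 ≤ 2 * C / r := by positivity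
        have h7 := mul_le_mul_of_nonneg_left h4 h6
        rw [h5] at h3
        refine h3.trans (h7.trans (le_of_eq ?_))
        rw [show 8 / 9 * (r * D v) = 8 / 9 * r * D v by ring]
        ring
    _ = ENNReal.ofReal (20 / 3 * C / r) * ∫⁻ v in S, ENNReal.ofReal (exp (-(8 / 9 * r * D v))) :=
        lintegral_const_mul' _ _ ENNReal.ofReal_ne_top
    _ ≤ ENNReal.ofReal (20 / 3 * C / r) * ENNReal.ofReal I1 := mul_le_mul_right h1 _
    _ = _ := by
        rw [← ENNReal.ofReal_mul hc]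
        congr 1
        ring

section

variable {ρ φ : ℝ}

theorem rA_pos (hρ : 0 < ρ) (hφ : 0 < φ) : 0 < rA ρ φ := AR_pos hρ (rho_le_mm' hρ) hφ
theorem lA_pos (hρ : 0 < ρ) (hφ : 0 < φ) : 0 < lA ρ φ := AL_pos hρ (rho_le_mm' hρ) hφ

/-- `1 - cos` far from `0` and `2π` -/
theorem cos_far {u : ℝ} (h1 : 6 / 5 ≤ u) (h2 : u ≤ 2 * π - 6 / 5) : 3168 / 5000 ≤ 1 - cos u := by
  rcases le_total u π with h | h
  · have := SokamFA.cos_split_large h1 h
    linarith only [this]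
  · have := SokamFA.cos_split_large (u := 2 * π - u) (by linarith only [h2]) (by linarith only [h])
    rw [cos_two_pi_sub] at this
    linarith only [this]

/-- `1 - cos` near `2π` -/
theorem cos_near {u : ℝ} (h1 : 2 * π - 6 / 5 ≤ u) (h2 : u ≤ 2 * π) :
    11 / 25 * (2 * π - u) ^ (2 : ℕ) ≤ 1 - cos u := by
  have := SokamFA.cos_split_small (u := 2 * π - u) (by rw [abs_le]; constructor <;> linarith)
  rwa [cos_two_pi_sub] at this

/-- the sets -/
def S1 (φ : ℝ) : Set ℝ := Ioc 0 φ ∩ Ici (φ - 6 / 5)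
def S3 (φ : ℝ) : Set ℝ := Ioc 0 φ ∩ Icc (φ - (2 * π - 6 / 5)) (φ - 6 / 5)
def S4 (φ : ℝ) : Set ℝ := Ioc 0 φ ∩ Iic (φ - (2 * π - 6 / 5))

theorem mS1 (φ : ℝ) : MeasurableSet (S1 φ) := measurableSet_Ioc.inter measurableSet_Ici
theorem mS3 (φ : ℝ) : MeasurableSet (S3 φ) := measurableSet_Ioc.inter measurableSet_Icc
theorem mS4 (φ : ℝ) : MeasurableSet (S4 φ) := measurableSet_Ioc.inter measurableSet_Iic

theorem cover (φ : ℝ) : Ioi (0 : ℝ) ⊆ ((S1 φ ∪ Ioi φ) ∪ (S3 φ ∪ S4 φ)) := by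
  intro v hv
  have hv' : 0 < v := hv
  rcases lt_or_ge φ v with h | h
  · exact Or.inl (Or.inr h)
  · rcases le_total (φ - 6 / 5) v with h1 | h1
    · exact Or.inl (Or.inl ⟨⟨hv', h⟩, h1⟩)
    · rcases le_total (φ - (2 * π - 6 / 5)) v with h2 | h2
      · exact Or.inr (Or.inl ⟨⟨hv', h⟩, ⟨h2, h1⟩⟩)
      · exact Or.inr (Or.inr ⟨⟨hv', h⟩, h2⟩)

/-! ## right -/

section right

variable {θ q B : ℝ}

theorem exp_pm_ge_one {m v : ℝ} (hm : 0 < m) (hv : 0 ≤ v) : 1 ≤ exp (pm m v) :=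
  Real.one_le_exp (pm_nonneg hm hv)

theorem Dm_right_ge {v c : ℝ} (hv : 0 ≤ v) (hcos : cos (θ + v) = cos (φ - v))
    (hc0 : 0 ≤ c) (hc : c ≤ 1 - cos (φ - v)) : Qm (mm ρ) ρ v + c ≤ Dm (mm ρ) ρ θ v := by
  rw [Dm_eq, hcos]
  have h1 := exp_pm_ge_one (mm_pos ρ) hv
  nlinarith only [hc0, hc, h1]

theorem jR1 (hρ : 0 < ρ) (hφ : 0 < φ) (hq : 0 < q) (hB : HR φ B)
    (hcos : ∀ v, cos (θ + v) = cos (φ - v)) :
    ∫⁻ v in S1 φ, ENNReal.ofReal (exp (-(q * Dm (mm ρ) ρ θ v))) ≤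
      ENNReal.ofReal (rM q ρ φ B) := by
  have hA := rA_pos hρ hφ
  have h := base_main (E := fun v => Dm (mm ρ) ρ θ v) (q := q) (A := rA ρ φ) (B := B) (φ := φ)
    (l := 0) hq (add_pos hA hB.1) (mS1 φ) ?_
  · refine h.trans (le_of_eq ?_)
    unfold rM
    rw [sub_zero]
  · rintro v ⟨⟨h0, h1⟩, h2⟩
    have h2' : φ - 6 / 5 ≤ v := h2
    have h3 := hB.2 (φ - v) (by linarith only [h1]) (by linarith only [h0]) (by linarith only [h2'])
    have h4 := Qm_AR hρ (rho_le_mm' hρ) h0.le h1 hφ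
    have h5 := Dm_right_ge (ρ := ρ) h0.le (hcos v) (by have := hB.1; positivity) h3
    unfold rA
    linarith only [h4, h5]

theorem jR2 (hρ : 0 < ρ) (hφ : 0 < φ) (hφ2 : φ ≤ 2 * π) (hq : 15 ≤ q)
    (hY : 6 ≤ q * (rA ρ φ * φ ^ (2 : ℕ))) (hcos : ∀ v, cos (θ + v) = cos (φ - v)) :
    ∫⁻ v in Ioi φ, ENNReal.ofReal (exp (-(q * Dm (mm ρ) ρ θ v))) ≤
      ENNReal.ofReal (rT q ρ φ) := by
  have hq0 : 0 < q := by linarith only [hq]
  refine (base_tail (E := fun v => Dm (mm ρ) ρ θ v) (Q := Qm (mm ρ) ρ) hq0 hq hφ hφ2 hY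
    (mul_le_mul_of_nonneg_left (Qm_AR hρ (rho_le_mm' hρ) hφ.le le_rfl hφ) hq0.le)
    (fun v hv => Qm_ray_right hρ (rho_le_mm' hρ) hφ hv) ?_).trans (le_of_eq rfl)
  intro v hv
  have h1 : cos (φ - v) = cos (v - φ) := by rw [← cos_neg, neg_sub]
  have h2 := cos_le_one (v - φ)
  have h5 := Dm_right_ge (ρ := ρ) (c := 1 - cos (v - φ)) (hφ.le.trans hv.le) (hcos v)
    (by linarith only [h2]) (by rw [h1])
  have := mul_le_mul_of_nonneg_left h5 hq0.le
  linarith only [this]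

theorem jR3 (hρ : 0 < ρ) (hφ : 0 < φ) (hq : 0 < q) (hcos : ∀ v, cos (θ + v) = cos (φ - v)) :
    ∫⁻ v in S3 φ, ENNReal.ofReal (exp (-(q * Dm (mm ρ) ρ θ v))) ≤
      ENNReal.ofReal (rF q ρ φ) := by
  refine (base_half (E := fun v => Dm (mm ρ) ρ θ v) (c := 3168 / 5000) hq (rA_pos hρ hφ) (mS3 φ)
    (fun v hv => hv.1.1) ?_).trans (le_of_eq rfl)
  rintro v ⟨⟨h0, h1⟩, ⟨h2, h3⟩⟩
  have h4 := cos_far (u := φ - v) (by linarith only [h3]) (by linarith only [h2])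
  have h5 := Qm_AR hρ (rho_le_mm' hρ) h0.le h1 hφ
  have h6 := Dm_right_ge (ρ := ρ) h0.le (hcos v) (by norm_num) h4
  unfold rA
  linarith only [h5, h6]

theorem jR4 (hρ : 0 < ρ) (hφ : 0 < φ) (hφ2 : φ < 2 * π) (hq : 0 < q)
    (hcos : ∀ v, cos (θ + v) = cos (φ - v)) :
    ∫⁻ v in S4 φ, ENNReal.ofReal (exp (-(q * Dm (mm ρ) ρ θ v))) ≤
      ENNReal.ofReal (rO q ρ φ) := by
  unfold rO
  split_ifs with hc
  · refine (base_half (E := fun v => Dm (mm ρ) ρ θ v) (c := 11 / 25 * (2 * π - φ) ^ (2 : ℕ)) hq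
      (A := rA ρ φ + 11 / 25) (by have := rA_pos hρ hφ; linarith only [this]) (mS4 φ)
      (fun v hv => hv.1.1) ?_)
    rintro v ⟨⟨h0, h1⟩, h2⟩
    have h2' : v ≤ φ - (2 * π - 6 / 5) := h2
    have h4 := cos_near (u := φ - v) (by linarith only [h2']) (by linarith only [hφ2, h0])
    have h5 := Qm_AR hρ (rho_le_mm' hρ) h0.le h1 hφ
    have h6 := Dm_right_ge (ρ := ρ) h0.le (hcos v) (by positivity) h4
    have h7 : 11 / 25 * (2 * π - (φ - v)) ^ (2 : ℕ) ≥ 11 / 25 * v ^ (2 : ℕ) + 11 / 25 * (2 * π - φ) ^ (2 : ℕ) := by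
      have : 0 ≤ (2 * π - φ) * v := mul_nonneg (by linarith only [hφ2]) h0.le
      linarith only [this]
    unfold rA
    linarith only [h5, h6, h7]
  · have hS : S4 φ = ∅ := by
      ext v
      simp only [S4, mem_inter_iff, mem_Ioc, mem_Iic, mem_empty_iff_false, iff_false]
      rintro ⟨⟨h0, _⟩, h2⟩
      linarith only [hc, h2, h0]
    rw [hS]
    simp

end right

/-! ## left -/

section left

variable {θ q B l e : ℝ}

theorem Dm_left_eq {v : ℝ} (hcos : cos (θ + -v) = cos (φ - v)) :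
    Dm (mm ρ) ρ θ (-v) = Qm (mm ρ) ρ (-v) + exp (pm (mm ρ) (-v)) * (1 - cos (φ - v)) := by
  rw [Dm_eq, hcos]

theorem exp_pm_le_one {m v : ℝ} (hm : 0 < m) (hv : 0 ≤ v) : exp (pm m (-v)) ≤ 1 :=
  Real.exp_le_one_iff.2 (pm_nonpos hm (by linarith only [hv]))

theorem jL1 (hρ : 0 < ρ) (hφ : 0 < φ) (hq : 0 < q) (hB : HL ρ φ B l)
    (hcos : ∀ v, cos (θ + -v) = cos (φ - v)) :
    ∫⁻ v in S1 φ, ENNReal.ofReal (exp (-(q * Dm (mm ρ) ρ θ (-v)))) ≤
      ENNReal.ofReal (lM q ρ φ B l) := by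
  have hA := lA_pos hρ hφ
  refine (base_main (E := fun v => Dm (mm ρ) ρ θ (-v)) (q := q) (A := lA ρ φ) (B := B) (φ := φ)
    (l := l) hq (add_pos hA hB.1) (mS1 φ) ?_).trans (le_of_eq rfl)
  rintro v ⟨⟨h0, h1⟩, h2⟩
  have h2' : φ - 6 / 5 ≤ v := h2
  have h3 := hB.2.2 v h0.le h1 (by linarith only [h2'])
  have h4 := Qm_AL hρ (rho_le_mm' hρ) h0.le h1 hφ
  rw [Dm_left_eq (hcos v)]
  unfold lA
  linarith only [h3, h4]

theorem jL2 (hρ : 0 < ρ) (hφ : 0 < φ) (hφ2 : φ ≤ 2 * π) (hq : 41 ≤ q)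
    (hY : 6 ≤ q * (lA ρ φ * φ ^ (2 : ℕ))) (hcos : ∀ v, cos (θ + -v) = cos (φ - v)) :
    ∫⁻ v in Ioi φ, ENNReal.ofReal (exp (-(q * Dm (mm ρ) ρ θ (-v)))) ≤
      ENNReal.ofReal (lT q ρ φ) := by
  have hq0 : 0 < q := by linarith only [hq]
  have he1 : 367 / 1000 ≤ exp (-1) := by
    rw [Real.exp_neg, inv_eq_one_div, div_le_div_iff₀ (by norm_num) (exp_pos _)]
    have := Real.exp_one_lt_d9
    linarith only [this]
  have hV : 15 ≤ q * exp (-1) := by nlinarith only [hq, he1]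
  refine (base_tail (E := fun v => Dm (mm ρ) ρ θ (-v)) (Q := fun v => Qm (mm ρ) ρ (-v))
    (V := q * exp (-1)) hq0 hV hφ hφ2 hY
    (mul_le_mul_of_nonneg_left (Qm_AL hρ (rho_le_mm' hρ) hφ.le le_rfl hφ) hq0.le)
    (fun v hv => Qm_ray_left hρ (rho_le_mm' hρ) hφ hv) ?_).trans ?_
  · intro v hv
    have h1 : cos (φ - v) = cos (v - φ) := by rw [← cos_neg, neg_sub]
    have h2 := cos_le_one (v - φ)
    have h3 : exp (-1) ≤ exp (pm (mm ρ) (-v)) := exp_le_exp.2 (abs_le.1 (pm_mem _ _)).1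
    rw [Dm_left_eq (hcos v), h1]
    have h4 := mul_le_mul_of_nonneg_right h3 (by linarith : 0 ≤ 1 - cos (v - φ))
    have := mul_le_mul_of_nonneg_left h4 hq0.le
    linarith only [this]
  · refine ENNReal.ofReal_le_ofReal ?_
    unfold lT
    refine mul_le_mul_of_nonneg_right ?_ (exp_pos _).le
    rw [Real.sqrt_mul hq0.le]
    have hs : 0 < √q := Real.sqrt_pos.2 hq0
    have h5 : 3 / 5 ≤ √(exp (-1)) := by
      refine Real.le_sqrt_of_sq_le ?_
      linarith only [he1]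
    rw [div_le_div_iff₀ (by positivity) hs]
    nlinarith only [hs, h5]

theorem jL3 (hρ : 0 < ρ) (hφ : 0 < φ) (hq : 0 < q) (he : HE ρ e)
    (hcos : ∀ v, cos (θ + -v) = cos (φ - v)) :
    ∫⁻ v in S3 φ, ENNReal.ofReal (exp (-(q * Dm (mm ρ) ρ θ (-v)))) ≤
      ENNReal.ofReal (lF q ρ φ e) := by
  have hA := lA_pos hρ hφ
  have key := base_half (E := fun v => Dm (mm ρ) ρ θ (-v)) (c := e) (A := lA ρ φ / 3) hq
    (by positivity) (mS3 φ) (fun v hv => hv.1.1) ?_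
  · refine key.trans (le_of_eq ?_)
    unfold lF
    congr 4
    field_simp
  · rintro v ⟨⟨h0, h1⟩, ⟨h2, h3⟩⟩
    have hm := mm_pos ρ
    have h4 := cos_far (u := φ - v) (by linarith only [h3]) (by linarith only [h2])
    have h5 := Qm_AL hρ (rho_le_mm' hρ) h0.le h1 hφ
    have h6 := Qm_left_x hρ h0.le
    have hpm := pm_neg' hm h0.le
    have h7 := he.2 (min 1 (v / mm ρ)) (le_min one_pos.le (div_nonneg h0.le hm.le))
      (min_le_left _ _)
    rw [Dm_left_eq (hcos v), hpm]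
    have h8 := exp_pos (-min 1 (v / mm ρ))
    have h9 := mul_le_mul_of_nonneg_left h4 h8.le
    unfold lA
    linarith only [h5, h6, h7, h9]

theorem jL4 (hρ : 0 < ρ) (hφ : 0 < φ) (hφ2 : φ < 2 * π) (hq : 0 < q)
    (hcos : ∀ v, cos (θ + -v) = cos (φ - v)) :
    ∫⁻ v in S4 φ, ENNReal.ofReal (exp (-(q * Dm (mm ρ) ρ θ (-v)))) ≤
      ENNReal.ofReal (lO q ρ φ) := by
  unfold lO
  split_ifs with hc
  · refine (base_half (E := fun v => Dm (mm ρ) ρ θ (-v)) (c := 11 / 25 * (2 * π - φ) ^ (2 : ℕ)) hq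
      (A := lA ρ φ) (lA_pos hρ hφ) (mS4 φ) (fun v hv => hv.1.1) ?_)
    rintro v ⟨⟨h0, h1⟩, h2⟩
    have h2' : v ≤ φ - (2 * π - 6 / 5) := h2
    have h4 := cos_near (u := φ - v) (by linarith only [h2']) (by linarith only [hφ2, h0])
    have h5 := Qm_AL hρ (rho_le_mm' hρ) h0.le h1 hφ
    have hm := mm_pos ρ
    have hmg := mm_ge ρ
    have hpm := pm_neg' hm h0.le
    have h8 := exp_pos (-min 1 (v / mm ρ))
    have h9 := mul_le_mul_of_nonneg_left h4 h8.le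
    set ψ := 2 * π - φ with hψ
    have hψ0 : 0 < ψ := by linarith only [hφ2]
    -- `e^x ≤ (1 + v/ψ)²`
    set y := 4 / 5 * v with hy
    have hy0 : 0 ≤ y := by positivity
    have hy1 : y ≤ 1 := by linarith only [h2', hψ0, hy]
    have hxy : min 1 (v / mm ρ) ≤ y := by
      refine (min_le_right _ _).trans ?_
      rw [div_le_iff₀ hm]
      nlinarith only [hmg, hy, hy0]
    have h10 : exp (min 1 (v / mm ρ)) ≤ 1 + y + y ^ (2 : ℕ) := by
      refine (exp_le_exp.2 hxy).trans ?_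
      have := exp_le_cubic hy0 hy1
      nlinarith only [hy1, this]
    have h11 : exp (-min 1 (v / mm ρ)) * exp (min 1 (v / mm ρ)) = 1 := by
      rw [← exp_add, neg_add_cancel, exp_zero]
    have h12 : ψ ^ (2 : ℕ) * exp (min 1 (v / mm ρ)) ≤ (ψ + v) ^ (2 : ℕ) := by
      have h13 : ψ ^ (2 : ℕ) * exp (min 1 (v / mm ρ)) ≤ ψ ^ (2 : ℕ) * (1 + y + y ^ (2 : ℕ)) :=
        mul_le_mul_of_nonneg_left h10 (sq_nonneg ψ)
      refine h13.trans ?_
      have hψ2 : ψ + v ≤ 6 / 5 := by linarith only [h2']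
      have h14 : ψ ^ (2 : ℕ) ≤ 6 / 5 * ψ := by nlinarith only [hc, hψ0]
      have h15 : ψ ^ (2 : ℕ) ≤ 36 / 25 := by nlinarith only [h14]
      have h16 : ψ ^ (2 : ℕ) * y ≤ 6 / 5 * ψ * y := mul_le_mul_of_nonneg_right h14 hy0
      have h17 : ψ ^ (2 : ℕ) * y ^ (2 : ℕ) ≤ 36 / 25 * y ^ (2 : ℕ) := mul_le_mul_of_nonneg_right h15 (sq_nonneg y)
      have h18 : 36 / 25 * y ^ (2 : ℕ) ≤ v ^ (2 : ℕ) := by rw [hy]; nlinarith only []
      have h19 : 6 / 5 * ψ * y ≤ 2 * ψ * v := by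
        rw [hy]
        linarith only [mul_nonneg hψ0.le h0.le]
      linarith only [h16, h17, h18, h19]
    have h20 : ψ ^ (2 : ℕ) ≤ exp (-min 1 (v / mm ρ)) * (ψ + v) ^ (2 : ℕ) := by
      have h21 := mul_le_mul_of_nonneg_left h12 h8.le
      calc ψ ^ (2 : ℕ) = exp (-min 1 (v / mm ρ)) * (ψ ^ (2 : ℕ) * exp (min 1 (v / mm ρ))) := by
            linear_combination (-ψ ^ (2 : ℕ)) * h11
        _ ≤ _ := h21
    have h22 : 2 * π - (φ - v) = ψ + v := by rw [hψ]; ring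
    rw [h22] at h9
    rw [Dm_left_eq (hcos v), hpm]
    unfold lA
    linarith only [h5, h9, h20]
  · have hS : S4 φ = ∅ := by
      ext v
      simp only [S4, mem_inter_iff, mem_Ioc, mem_Iic, mem_empty_iff_false, iff_false]
      rintro ⟨⟨h0, _⟩, h2⟩
      linarith only [hc, h2, h0]
    rw [hS]
    simp

end left

end

end SokamDz

end
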