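import Pool.Agent.Lib_MP_af4de1_zy.Z06
import Pool.Agent.Lib_MP_af4de1_zy.Z64

/-! ### Lib_MP_af4de1_v3.GapA -/

section
namespace SokamF1S
end SokamF1S
/-!
# The drop `P(y) = ρ - x (1 + y) = δ (Φ(0) - Φ)` on both sides

`R = 1 + ρ²`, `a = √R`, `u = η/a`.
Left (`0 ≤ y ≤ 14/25`): `1 - e^(-y) ≤ ρ η/R`, `P ≥ ρ (u²/2 - u³/5)`.
Right (`n = -y ≥ 0`, `v = -η/a`): `ρ |η| ≥ R n - (3 - ρ²) n²/2`, `P ≤ n |η| - (R n²/2 - (3 - ρ²) n³/6)/ρ`.
-/

set_option autoImplicit false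

namespace SokamV3

open SokamF1S Set

theorem nonneg_up {f f' : ℝ → ℝ} {b : ℝ} (hc : ContinuousOn f (Icc 0 b)) (h0 : 0 ≤ f 0)
    (hd : ∀ y ∈ Ioo 0 b, HasDerivAt f (f' y) y) (hn : ∀ y ∈ Ioo 0 b, 0 ≤ f' y) {y : ℝ}
    (hy : y ∈ Icc 0 b) : 0 ≤ f y := by
  have hm : MonotoneOn f (Icc 0 b) := by
    refine monotoneOn_of_deriv_nonneg (convex_Icc 0 b) hc ?_ ?_
    · rw [interior_Icc]
      exact fun z hz => (hd z hz).differentiableAt.differentiableWithinAt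
    · rw [interior_Icc]
      intro z hz
      rw [(hd z hz).deriv]
      exact hn z hz
  exact h0.trans (hm (left_mem_Icc.2 (hy.1.trans hy.2)) hy hy.1)

theorem nonneg_down {f f' : ℝ → ℝ} {a : ℝ} (hc : ContinuousOn f (Icc a 0)) (h0 : 0 ≤ f 0)
    (hd : ∀ y ∈ Ioo a 0, HasDerivAt f (f' y) y) (hn : ∀ y ∈ Ioo a 0, f' y ≤ 0) {y : ℝ}
    (hy : y ∈ Icc a 0) : 0 ≤ f y := by
  have hm : AntitoneOn f (Icc a 0) := by
    refine antitoneOn_of_deriv_nonpos (convex_Icc a 0) hc ?_ ?_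
    · rw [interior_Icc]
      exact fun z hz => (hd z hz).differentiableAt.differentiableWithinAt
    · rw [interior_Icc]
      intro z hz
      rw [(hd z hz).deriv]
      exact hn z hz
  exact h0.trans (hm hy (right_mem_Icc.2 (hy.1.trans hy.2)) hy.2)

theorem sD2_eq {ρ y : ℝ} (h : Dom ρ y) : sD2 ρ y = 1 + 2 * y + (ρ * Real.exp (-y)) ^ (2 : ℕ) := by
  have h1 := sx_sq h
  unfold sD2
  rw [h1]
  ring

theorem hasDerivAt_sD2 {ρ y : ℝ} (hρ : 0 < ρ) (h : |y| * Real.exp y < ρ) :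
    HasDerivAt (sD2 ρ) (2 - 2 * (ρ * Real.exp (-y)) ^ (2 : ℕ)) y := by
  have hx := sx_pos hρ h
  have h1 : HasDerivAt (fun y : ℝ => 1 + y) 1 y := (hasDerivAt_id y).const_add 1
  have h2 := (h1.pow 2).add ((hasDerivAt_sx hρ h).pow 2)
  refine h2.congr_deriv ?_
  have h3 := sx_sq_add ⟨hρ, h.le⟩
  rw [← h3]
  field_simp
  ring

theorem continuous_sD2 (ρ : ℝ) : Continuous (sD2 ρ) := by
  unfold sD2
  have := continuous_sx ρ
  fun_prop

theorem continuousOn_xD {ρ : ℝ} {s : Set ℝ} (hs : ∀ y ∈ s, -1 < y) :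
    ContinuousOn (fun y => sx ρ y / sD2 ρ y) s :=
  (continuous_sx ρ).continuousOn.div (continuous_sD2 ρ).continuousOn fun y hy => (sD2_pos (hs y hy)).ne'

theorem dom_le {ρ b y : ℝ} (h : Dom ρ b) (hy : y ∈ Ioo 0 b) : |y| * Real.exp y < ρ :=
  dom_between (dom_zero h.1) h (by norm_num) hy

theorem dom_ge {ρ a y : ℝ} (h : Dom ρ a) (ha : -1 ≤ a) (hy : y ∈ Ioo a 0) : |y| * Real.exp y < ρ :=
  dom_between h (dom_zero h.1) ha hy

/-! ### the left side -/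

/-- `1 - e^(-y) ≤ ρ η/R` -/
theorem one_sub_exp_le {ρ b : ℝ} (h : Dom ρ b) (hb : 0 ≤ b) :
    1 - Real.exp (-b) ≤ ρ * sE ρ b / (1 + ρ ^ (2 : ℕ)) := by
  have hρ := h.1
  have hR : 0 < 1 + ρ ^ (2 : ℕ) := by positivity
  have key := nonneg_up (f := fun y => ρ * sE ρ y / (1 + ρ ^ (2 : ℕ)) - (1 - Real.exp (-y)))
    (f' := fun y => ρ * (sD2 ρ y / sx ρ y) / (1 + ρ ^ (2 : ℕ)) - Real.exp (-y)) (b := b)
    (by
      have := continuous_sE ρ
      fun_prop)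
    (by simp [sE_zero hρ])
    (fun y hy => by
      have h1 := ((hasDerivAt_sE hρ (dom_le h hy)).const_mul ρ).div_const (1 + ρ ^ (2 : ℕ))
      have h2 : HasDerivAt (fun y : ℝ => 1 - Real.exp (-y)) (Real.exp (-y)) y := by
        have h3 : HasDerivAt (fun y : ℝ => -y) (-1) y := (hasDerivAt_id y).neg
        refine (h3.exp.const_sub 1).congr_deriv ?_
        ring
      exact h1.sub h2)
    (fun y hy => by
      have hd := dom_le h hy
      have hD : Dom ρ y := ⟨hρ, hd.le⟩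
      have hx := sx_pos hρ hd
      have hxle := sx_le hD
      have hE := Real.exp_pos (-y)
      have hE1 : Real.exp (-y) ≤ 1 := Real.exp_le_one_iff.2 (by linarith only [hy.1])
      have hD2 : (1 + ρ ^ (2 : ℕ)) * Real.exp (-y) ^ (2 : ℕ) ≤ sD2 ρ y := by
        rw [sD2_eq hD]
        have : Real.exp (-y) ^ (2 : ℕ) ≤ 1 := pow_le_one₀ hE.le hE1
        linarith only [this, hy.1]
      rw [sub_nonneg, le_div_iff₀ hR, ← mul_div_assoc, le_div_iff₀ hx]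
      calc Real.exp (-y) * (1 + ρ ^ (2 : ℕ)) * sx ρ y ≤ Real.exp (-y) * (1 + ρ ^ (2 : ℕ)) * (ρ * Real.exp (-y)) :=
            mul_le_mul_of_nonneg_left hxle (by positivity)
        _ = ρ * ((1 + ρ ^ (2 : ℕ)) * Real.exp (-y) ^ (2 : ℕ)) := by ring
        _ ≤ ρ * sD2 ρ y := mul_le_mul_of_nonneg_left hD2 hρ.le)
    (right_mem_Icc.2 hb)
  linarith only [key]

/-! ### the right side -/

/-- `ρ η ≤ R y + (3 - ρ²) y²/2` for `y ≤ 0` -/
theorem right_eta {ρ a : ℝ} (h : Dom ρ a) (ha : -1 ≤ a) {y : ℝ} (hy : y ∈ Icc a 0) :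
    ρ * sE ρ y ≤ (1 + ρ ^ (2 : ℕ)) * y + (3 - ρ ^ (2 : ℕ)) * y ^ (2 : ℕ) / 2 := by
  have hρ := h.1
  have key := nonneg_down (f := fun y => (1 + ρ ^ (2 : ℕ)) * y + (3 - ρ ^ (2 : ℕ)) * y ^ (2 : ℕ) / 2 - ρ * sE ρ y)
    (f' := fun y => (1 + ρ ^ (2 : ℕ)) * 1 + (3 - ρ ^ (2 : ℕ)) * (((2 : ℕ) : ℝ) * y ^ (2 - 1) * 1) / 2 -
      ρ * (sD2 ρ y / sx ρ y)) (a := a)
    (by
      have := continuous_sE ρ
      fun_prop)
    (by simp [sE_zero hρ])
    (fun y hy => by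
      have hd := dom_ge h ha hy
      have h1 := (hasDerivAt_id y).const_mul (1 + ρ ^ (2 : ℕ))
      have h2 := (((hasDerivAt_id y).pow 2).const_mul (3 - ρ ^ (2 : ℕ))).div_const 2
      exact (h1.add h2).sub ((hasDerivAt_sE hρ hd).const_mul ρ))
    (fun y hy => by
      have hd := dom_ge h ha hy
      have hD : Dom ρ y := ⟨hρ, hd.le⟩
      have hx := sx_pos hρ hd
      have hxle := sx_le hD
      have hE := Real.exp_pos y
      have hE' := Real.exp_pos (-y)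
      have hEE : Real.exp y * Real.exp (-y) = 1 := by rw [← Real.exp_add]; simp
      have hy0 : y < 0 := hy.2
      -- `(1 + 2y) e^y ≥ 1 + 3y`, `e^(-y) ≥ 1 - y`
      have h1 : 1 + 3 * y ≤ (1 + 2 * y) * Real.exp y := by
        rcases le_total (-(1 / 2)) y with h2 | h2
        · have h3 := Real.add_one_le_exp y
          have h4 : (1 + 2 * y) * (y + 1) ≤ (1 + 2 * y) * Real.exp y :=
            mul_le_mul_of_nonneg_left h3 (by linarith only [h2])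
          nlinarith only [hy0, h4]
        · have h3 : Real.exp y ≤ 1 := Real.exp_le_one_iff.2 hy0.le
          nlinarith only [h2, h3]
      have h5 : 1 - y ≤ Real.exp (-y) := by linarith only [Real.add_one_le_exp (-y)]
      have h6 : (1 + ρ ^ (2 : ℕ)) + (3 - ρ ^ (2 : ℕ)) * y ≤ (1 + 2 * y) * Real.exp y + ρ ^ (2 : ℕ) * Real.exp (-y) := by
        nlinarith only [h1, h5]
      have h7 : (1 + 2 * y) * Real.exp y + ρ ^ (2 : ℕ) * Real.exp (-y) = sD2 ρ y * Real.exp y := by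
        rw [sD2_eq hD]
        have : (1 + 2 * y + (ρ * Real.exp (-y)) ^ (2 : ℕ)) * Real.exp y =
            (1 + 2 * y) * Real.exp y + ρ ^ (2 : ℕ) * Real.exp (-y) * (Real.exp y * Real.exp (-y)) := by ring
        rw [this, hEE, mul_one]
      have hDp := sD2_pos (ρ := ρ) (y := y) (by linarith only [ha, hy.1])
      have h8 : sD2 ρ y * Real.exp y ≤ ρ * (sD2 ρ y / sx ρ y) := by
        rw [← mul_div_assoc, le_div_iff₀ hx]
        calc sD2 ρ y * Real.exp y * sx ρ y ≤ sD2 ρ y * Real.exp y * (ρ * Real.exp (-y)) :=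
              mul_le_mul_of_nonneg_left hxle (by positivity)
          _ = ρ * sD2 ρ y * (Real.exp y * Real.exp (-y)) := by ring
          _ = ρ * sD2 ρ y := by rw [hEE, mul_one]
      have e : (1 + ρ ^ (2 : ℕ)) * 1 + (3 - ρ ^ (2 : ℕ)) * (((2 : ℕ) : ℝ) * y ^ (2 - 1) * 1) / 2 =
          (1 + ρ ^ (2 : ℕ)) + (3 - ρ ^ (2 : ℕ)) * y := by
        push_cast
        ring
      show (1 + ρ ^ (2 : ℕ)) * 1 + (3 - ρ ^ (2 : ℕ)) * (((2 : ℕ) : ℝ) * y ^ (2 - 1) * 1) / 2 -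
        ρ * (sD2 ρ y / sx ρ y) ≤ 0
      rw [e]
      linarith only [h6, h7, h8])
    hy
  linarith

/-- Legendre: `P ≤ y η - (R y²/2 + (3 - ρ²) y³/6)/ρ` for `y ≤ 0` -/
theorem right_drop {ρ a : ℝ} (h : Dom ρ a) (ha : -1 ≤ a) (ha0 : a ≤ 0) :
    ρ - sx ρ a * (1 + a) ≤ a * sE ρ a - ((1 + ρ ^ (2 : ℕ)) * a ^ (2 : ℕ) / 2 + (3 - ρ ^ (2 : ℕ)) * a ^ (3 : ℕ) / 6) / ρ := by
  have hρ := h.1
  have key := nonneg_down (f := fun y => y * sE ρ y - (ρ - sx ρ y * (1 + y)) -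
      ((1 + ρ ^ (2 : ℕ)) * y ^ (2 : ℕ) / 2 + (3 - ρ ^ (2 : ℕ)) * y ^ (3 : ℕ) / 6) / ρ)
    (f' := fun y => (1 * sE ρ y + y * (sD2 ρ y / sx ρ y)) - (-(-(y * (sD2 ρ y / sx ρ y)))) -
      ((1 + ρ ^ (2 : ℕ)) * (((2 : ℕ) : ℝ) * y ^ (2 - 1) * 1) / 2 +
        (3 - ρ ^ (2 : ℕ)) * (((3 : ℕ) : ℝ) * y ^ (3 - 1) * 1) / 6) / ρ) (a := a)
    (by
      have := continuous_sE ρ
      have := continuous_sx ρ
      fun_prop)
    (by
      have h0 : sx ρ 0 = ρ := by unfold sx; simp [Real.sqrt_sq hρ.le]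
      simp [h0])
    (fun y hy => by
      have hd := dom_ge h ha hy
      have h1 := (hasDerivAt_id y).mul (hasDerivAt_sE hρ hd)
      have h2 := (hasDerivAt_sPhi hρ hd).const_sub ρ
      have h3 := (((hasDerivAt_id y).pow 2).const_mul (1 + ρ ^ (2 : ℕ))).div_const 2
      have h4 := (((hasDerivAt_id y).pow 3).const_mul (3 - ρ ^ (2 : ℕ))).div_const 6
      exact (h1.sub h2).sub ((h3.add h4).div_const ρ))
    (fun y hy => by
      have h1 := right_eta h ha (y := y) ⟨hy.1.le, hy.2.le⟩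
      have e : (1 * sE ρ y + y * (sD2 ρ y / sx ρ y)) - (-(-(y * (sD2 ρ y / sx ρ y)))) -
      ((1 + ρ ^ (2 : ℕ)) * (((2 : ℕ) : ℝ) * y ^ (2 - 1) * 1) / 2 +
        (3 - ρ ^ (2 : ℕ)) * (((3 : ℕ) : ℝ) * y ^ (3 - 1) * 1) / 6) / ρ =
          (ρ * sE ρ y - ((1 + ρ ^ (2 : ℕ)) * y + (3 - ρ ^ (2 : ℕ)) * y ^ (2 : ℕ) / 2)) / ρ := by
        push_cast
        field_simp
        ring
      show (1 * sE ρ y + y * (sD2 ρ y / sx ρ y)) - (-(-(y * (sD2 ρ y / sx ρ y)))) -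
      ((1 + ρ ^ (2 : ℕ)) * (((2 : ℕ) : ℝ) * y ^ (2 - 1) * 1) / 2 +
        (3 - ρ ^ (2 : ℕ)) * (((3 : ℕ) : ℝ) * y ^ (3 - 1) * 1) / 6) / ρ ≤ 0
      rw [e]
      exact div_nonpos_of_nonpos_of_nonneg (by linarith only [h1]) hρ.le)
    (left_mem_Icc.2 ha0)
  linarith only [key]

end SokamV3

end

/-! ### Lib_MP_af4de1_v3.Lev -/

section
namespace SokamF1
end SokamF1
namespace SokamF1M
end SokamF1M
namespace SokamF1S
end SokamF1S
namespace SokamU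
end SokamU
/-!
# The level of a saddle relative to `e^r` (centre path)

With `t = |η|`, `τ = t/h`: `r t²/R = Γ τ²`, `r t/√R = τ H`.
-/

set_option autoImplicit false

namespace SokamV3

open Complex SokamU SokamF1 SokamF1S SokamF1M

/-- The level of the saddle `y` at the angle `η`: loss at most `g Γ τ²/2`, `|κ - r| ≤ k τ H`, `D ≤ q √R`. -/
structure Lev (r δ y η g k q : ℝ) : Prop where
  l0 : r - sx (r * δ) y * (1 + y) / δ ≤ g / 2 * (r * η ^ (2 : ℕ) / RR r δ)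
  l1 : ‖kap r δ y - r‖ ≤ k * (r * |η| / √(RR r δ))
  l2 : sD (r * δ) y ≤ q * √(RR r δ)

end SokamV3

end

/-! ### Lib_MP_af4de1_v3.CenRed -/

section
namespace SokamF1
end SokamF1
namespace SokamF1M
end SokamF1M
namespace SokamF1S
end SokamF1S
namespace SokamU
end SokamU
/-!
# SHIFT on the centre path: reduction to three real integrals (both sides)

`cJ ρ r θ w = ∫⁻ √(1+1/R) w(s) exp(-r DD(ρ,θ,s)) ds` with the weights `1`, `r √W2`, `r² W2 + r e^a`.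
`shf_cen`: `f0 = P J0`, `f1 H = P (J1 + k t J0)`, `f2 H² = P (J2 + 2 k t J1 + (k t)² J0)`, `t = r|η|/√R`,
`P = √(r/(2πρ)) √(q √R) exp(g/2 (r η²/R))`.
-/

set_option autoImplicit false

namespace SokamV3

open Complex MeasureTheory SokamU SokamF1 SokamF1S SokamF1M

/-- from the lintegral bound to a bound by the level -/
theorem cen_level {r δ y η g k q P T j f : ℝ} (hr : 0 < r) (hδ : 0 < δ) (hy : -1 < y)
    (hL : Lev r δ y η g k q) (hT : 0 ≤ T) (hj : 0 ≤ j) {J : ENNReal}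
    (h : ENNReal.ofReal T ≤ ENNReal.ofReal (√(r / (2 * Real.pi * (r * δ))) * Real.exp r) * J)
    (hJ : J ≤ ENNReal.ofReal j)
    (hP : √(r / (2 * Real.pi * (r * δ))) * √(q * √(RR r δ)) *
      Real.exp (g / 2 * (r * η ^ (2 : ℕ) / RR r δ)) ≤ P)
    (hf : P * j ≤ f) : T ≤ f * sM r δ y := by
  have hM := sM_pos (r := r) (δ := δ) hy
  have h1 : T ≤ √(r / (2 * Real.pi * (r * δ))) * Real.exp r * j := by
    have h2 := h.trans (mul_le_mul_right hJ _)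
    rw [← ENNReal.ofReal_mul (by positivity)] at h2
    rwa [ENNReal.ofReal_le_ofReal_iff (by (clear * - hr hδ hj; positivity))] at h2
  refine h1.trans ?_
  have h3 : Real.exp r ≤ √(q * √(RR r δ)) * Real.exp (g / 2 * (r * η ^ (2 : ℕ) / RR r δ)) * sM r δ y := by
    have hD : 0 < sD2 (r * δ) y := sD2_pos hy
    have hs : 0 < √(sD (r * δ) y) := by
      unfold sD
      (clear * - hD; positivity)
    have e1 : sM r δ y = Real.exp (sx (r * δ) y * (1 + y) / δ) / √(sD (r * δ) y) := by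
      unfold sM sD
      rw [show √(√(sD2 (r * δ) y)) = (sD2 (r * δ) y) ^ (1 / 4 : ℝ) from by
        rw [Real.sqrt_eq_rpow, Real.sqrt_eq_rpow, ← Real.rpow_mul hD.le]
        norm_num]
    have e2 : √(sD (r * δ) y) ≤ √(q * √(RR r δ)) := Real.sqrt_le_sqrt hL.l2
    have e3 : Real.exp r ≤ Real.exp (g / 2 * (r * η ^ (2 : ℕ) / RR r δ)) *
        Real.exp (sx (r * δ) y * (1 + y) / δ) := by
      rw [← Real.exp_add]
      apply Real.exp_le_exp.2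
      have := hL.l0
      linarith only [this]
    rw [e1]
    calc Real.exp r ≤ Real.exp (g / 2 * (r * η ^ (2 : ℕ) / RR r δ)) *
          Real.exp (sx (r * δ) y * (1 + y) / δ) := e3
      _ = √(sD (r * δ) y) * (Real.exp (g / 2 * (r * η ^ (2 : ℕ) / RR r δ)) *
          (Real.exp (sx (r * δ) y * (1 + y) / δ) / √(sD (r * δ) y))) := by
          field_simp
      _ ≤ √(q * √(RR r δ)) * (Real.exp (g / 2 * (r * η ^ (2 : ℕ) / RR r δ)) *
          (Real.exp (sx (r * δ) y * (1 + y) / δ) / √(sD (r * δ) y))) := by gcongr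
      _ = _ := by ring
  calc √(r / (2 * Real.pi * (r * δ))) * Real.exp r * j
      ≤ √(r / (2 * Real.pi * (r * δ))) * (√(q * √(RR r δ)) *
        Real.exp (g / 2 * (r * η ^ (2 : ℕ) / RR r δ)) * sM r δ y) * j := by gcongr
    _ = (√(r / (2 * Real.pi * (r * δ))) * √(q * √(RR r δ)) *
        Real.exp (g / 2 * (r * η ^ (2 : ℕ) / RR r δ))) * j * sM r δ y := by ring
    _ ≤ P * j * sM r δ y := by gcongr
    _ ≤ f * sM r δ y := by gcongr

end SokamV3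

end

/-! ### Lib_MP_af4de1_v3.CenRedM -/

section
namespace SokamF1
end SokamF1
namespace SokamF1M
end SokamF1M
namespace SokamF1S
end SokamF1S
namespace SokamU
end SokamU
namespace SokamV3
end SokamV3
/-!
# SHIFT on the centre path with slope `m`: reduction to the zones of `CenDef`

`WB r δ θ m` : the absolute bound on the path of slope `m` (helper66, CenA).
`shf_cen` : interface of helper68 (weights `‖kp - κ‖`, `‖(kp-κ)² + kp‖`, `kp = r em`).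
`shf_zone` : from ONE `Zone` over `univ` (`Zone.union`, `Zone.mono`, `Zone.tri`, `Zone.pyth`).
-/

set_option autoImplicit false

namespace SokamCen

open Complex MeasureTheory Set SokamU SokamF1 SokamF1S SokamF1M SokamV3

/-- the absolute bound on the path of slope `m` -/
def WB (r δ θ m : ℝ) : Prop := ∀ c0 c1 c2 : ℂ,
  ENNReal.ofReal ‖c0 * E (tt δ) (wp r δ θ) + c1 * DE (tt δ) (wp r δ θ) +
    c2 * SokamBPlus.D2E (tt δ) (wp r δ θ)‖ ≤
  ENNReal.ofReal (√(r / (2 * Real.pi * (r * δ))) * Real.exp r) *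
    ∫⁻ s : ℝ, ENNReal.ofReal (√(1 + 1 / m ^ (2 : ℕ)) *
      ‖c0 + c1 * (r * em m θ s) + c2 * ((r * em m θ s) ^ (2 : ℕ) + r * em m θ s)‖ *
        Real.exp (-(r * Dm m (r * δ) θ s)))

/-- the level factor -/
noncomputable def LvF (r δ η g q : ℝ) : ℝ := √(r / (2 * Real.pi * (r * δ))) * √(q * √(RR r δ)) *
  Real.exp (g / 2 * (r * η ^ (2 : ℕ) / RR r δ))

theorem LvF_nonneg (r δ η g q : ℝ) : 0 ≤ LvF r δ η g q := by
  unfold LvF
  positivity

/-- THE REDUCTION, interface of helper68. -/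
theorem shf_cen {r δ y η ζ H g k q m f0 f1 f2 L : ℝ} (hr : 0 < r) (hδ : 0 < δ)
    (hA : At r δ y η) (hL : Lev r δ y η g k q) (hW : WB r δ (η + ζ) m) (hL0 : 0 < L)
    (hLv : LvF r δ η g q ≤ L) (hf0 : 0 ≤ f0) (hf1 : 0 ≤ f1 * H) (hf2 : 0 ≤ f2)
    (h0 : ∫⁻ s : ℝ, ENNReal.ofReal (√(1 + 1 / m ^ (2 : ℕ)) * 1 *
      Real.exp (-(r * Dm m (r * δ) (η + ζ) s))) ≤ ENNReal.ofReal (f0 / L))
    (h1 : ∫⁻ s : ℝ, ENNReal.ofReal (√(1 + 1 / m ^ (2 : ℕ)) * ‖r * em m (η + ζ) s - kap r δ y‖ *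
      Real.exp (-(r * Dm m (r * δ) (η + ζ) s))) ≤ ENNReal.ofReal (f1 * H / L))
    (h2 : ∫⁻ s : ℝ, ENNReal.ofReal (√(1 + 1 / m ^ (2 : ℕ)) *
      ‖(r * em m (η + ζ) s - kap r δ y) ^ (2 : ℕ) + r * em m (η + ζ) s‖ *
      Real.exp (-(r * Dm m (r * δ) (η + ζ) s))) ≤ ENNReal.ofReal (f2 * H ^ (2 : ℕ) / L)) :
    Shf r δ y ζ H f0 f1 f2 := by
  unfold LvF at hLv
  refine ⟨?_, ?_, ?_⟩
  · have hw := hW 1 0 0
    refine cen_level hr hδ hA.y1 hL (norm_nonneg _) (by (clear * - hf0 hL0; positivity)) ?_ h0 hLv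
      (mul_div_cancel₀ _ hL0.ne').le
    unfold V0
    rw [hA.eta]
    simpa using hw
  · have hw := hW (-kap r δ y) 1 0
    refine cen_level hr hδ hA.y1 hL (norm_nonneg _) (by (clear * - hf1 hL0; positivity)) ?_ h1 hLv
      (mul_div_cancel₀ _ hL0.ne').le
    unfold V0 V1
    rw [hA.eta]
    have e : DE (tt δ) (wp r δ (η + ζ)) - kap r δ y * E (tt δ) (wp r δ (η + ζ)) =
        -kap r δ y * E (tt δ) (wp r δ (η + ζ)) + 1 * DE (tt δ) (wp r δ (η + ζ)) +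
          0 * SokamBPlus.D2E (tt δ) (wp r δ (η + ζ)) := by ring
    rw [e]
    refine hw.trans (le_of_eq ?_)
    congr 1
    refine lintegral_congr fun s => ?_
    congr 4
    ring
  · have hw := hW (kap r δ y ^ (2 : ℕ)) (-(2 * kap r δ y)) 1
    refine cen_level hr hδ hA.y1 hL (norm_nonneg _) (by (clear * - hf2 hL0; positivity)) ?_ h2 hLv
      (mul_div_cancel₀ _ hL0.ne').le
    unfold V0 V1 V2
    rw [hA.eta]
    have e : SokamBPlus.D2E (tt δ) (wp r δ (η + ζ)) - 2 * kap r δ y * DE (tt δ) (wp r δ (η + ζ)) +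
        kap r δ y ^ (2 : ℕ) * E (tt δ) (wp r δ (η + ζ)) =
        kap r δ y ^ (2 : ℕ) * E (tt δ) (wp r δ (η + ζ)) + -(2 * kap r δ y) * DE (tt δ) (wp r δ (η + ζ)) +
          1 * SokamBPlus.D2E (tt δ) (wp r δ (η + ζ)) := by ring
    rw [e]
    refine hw.trans (le_of_eq ?_)
    congr 1
    refine lintegral_congr fun s => ?_
    congr 4
    ring

/-! ## zones -/

theorem continuous_pm__v3CenRedM (m : ℝ) : Continuous (pm m) := by
  unfold pm
  fun_prop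

theorem continuous_Dm__v3CenRedM (m ρ θ : ℝ) : Continuous (Dm m ρ θ) := by
  have := continuous_pm__v3CenRedM m
  unfold Dm
  fun_prop

theorem continuous_em (m θ : ℝ) : Continuous (em m θ) := by
  have := continuous_pm__v3CenRedM m
  unfold em
  fun_prop

theorem continuous_Wm (m θ : ℝ) (w : ℂ) : Continuous (Wm m θ w) := by
  have := continuous_em m θ
  unfold Wm
  fun_prop

theorem Wm_nonneg (m θ : ℝ) (w : ℂ) (s : ℝ) : 0 ≤ Wm m θ w s := by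
  unfold Wm
  positivity

theorem norm_em (m θ s : ℝ) : ‖em m θ s‖ = Real.exp (pm m s) := by
  unfold em
  rw [Complex.norm_exp]
  simp

theorem Zone.mono {q m ρ θ : ℝ} {w : ℂ} {S : Set ℝ} {I0 IW Ie J0 JW Je : ℝ}
    (h : Zone q m ρ θ w S I0 IW Ie) (h0 : I0 ≤ J0) (h1 : IW ≤ JW) (h2 : Ie ≤ Je) :
    Zone q m ρ θ w S J0 JW Je :=
  ⟨h.i0.trans (ENNReal.ofReal_le_ofReal h0), h.iW.trans (ENNReal.ofReal_le_ofReal h1),
    h.ie.trans (ENNReal.ofReal_le_ofReal h2)⟩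

theorem Zone.subset {q m ρ θ : ℝ} {w : ℂ} {S T : Set ℝ} {I0 IW Ie : ℝ}
    (h : Zone q m ρ θ w T I0 IW Ie) (hST : S ⊆ T) : Zone q m ρ θ w S I0 IW Ie :=
  ⟨(lintegral_mono_set hST).trans h.i0, (lintegral_mono_set hST).trans h.iW,
    (lintegral_mono_set hST).trans h.ie⟩

theorem Zone.union {q m ρ θ : ℝ} {w : ℂ} {S T : Set ℝ} {I0 IW Ie J0 JW Je : ℝ}
    (h : Zone q m ρ θ w S I0 IW Ie) (h' : Zone q m ρ θ w T J0 JW Je)
    (a0 : 0 ≤ I0) (a1 : 0 ≤ IW) (a2 : 0 ≤ Ie) (b0 : 0 ≤ J0) (b1 : 0 ≤ JW) (b2 : 0 ≤ Je) :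
    Zone q m ρ θ w (S ∪ T) (I0 + J0) (IW + JW) (Ie + Je) := by
  refine ⟨?_, ?_, ?_⟩
  · rw [ENNReal.ofReal_add a0 b0]
    exact (lintegral_union_le _ _ _).trans (add_le_add h.i0 h'.i0)
  · rw [ENNReal.ofReal_add a1 b1]
    exact (lintegral_union_le _ _ _).trans (add_le_add h.iW h'.iW)
  · rw [ENNReal.ofReal_add a2 b2]
    exact (lintegral_union_le _ _ _).trans (add_le_add h.ie h'.ie)

/-- Cauchy-Schwarz for a product of square roots -/
theorem lintegral_sqrt_mul {S : Set ℝ} {E W : ℝ → ℝ} (hE : ∀ s, 0 ≤ E s) (hW : ∀ s, 0 ≤ W s)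
    (mE : Measurable E) (mW : Measurable W) {I0 IW : ℝ} (h0 : 0 ≤ I0) (hw : 0 ≤ IW)
    (i0 : ∫⁻ s in S, ENNReal.ofReal (E s) ≤ ENNReal.ofReal I0)
    (iW : ∫⁻ s in S, ENNReal.ofReal (W s * E s) ≤ ENNReal.ofReal IW) :
    ∫⁻ s in S, ENNReal.ofReal (√(W s) * E s) ≤ ENNReal.ofReal √(I0 * IW) := by
  have hh := ENNReal.lintegral_mul_le_Lp_mul_Lq (volume.restrict S)
    (Real.HolderConjugate.two_two) (f := fun s => ENNReal.ofReal √(W s * E s))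
    (g := fun s => ENNReal.ofReal √(E s)) (by fun_prop) (by fun_prop)
  have e1 : ∀ s, ((fun s => ENNReal.ofReal √(W s * E s)) * fun s => ENNReal.ofReal √(E s)) s =
      ENNReal.ofReal (√(W s) * E s) := by
    intro s
    rw [Pi.mul_apply, ← ENNReal.ofReal_mul (Real.sqrt_nonneg _), Real.sqrt_mul (hW s), mul_assoc,
      Real.mul_self_sqrt (hE s)]
  have e2 : ∀ s, (ENNReal.ofReal √(W s * E s)) ^ (2 : ℝ) = ENNReal.ofReal (W s * E s) := by
    intro s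
    have := hW s
    have := hE s
    rw [ENNReal.ofReal_rpow_of_nonneg (Real.sqrt_nonneg _) (by norm_num), Real.rpow_two,
      Real.sq_sqrt (by positivity)]
  have e3 : ∀ s, (ENNReal.ofReal √(E s)) ^ (2 : ℝ) = ENNReal.ofReal (E s) := by
    intro s
    rw [ENNReal.ofReal_rpow_of_nonneg (Real.sqrt_nonneg _) (by norm_num), Real.rpow_two,
      Real.sq_sqrt (hE s)]
  simp only [e1, e2, e3] at hh
  refine hh.trans ?_
  calc (∫⁻ a in S, ENNReal.ofReal (W a * E a)) ^ (1 / 2 : ℝ) *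
        (∫⁻ a in S, ENNReal.ofReal (E a)) ^ (1 / 2 : ℝ)
      ≤ (ENNReal.ofReal IW) ^ (1 / 2 : ℝ) * (ENNReal.ofReal I0) ^ (1 / 2 : ℝ) := by
        gcongr
    _ = ENNReal.ofReal √(I0 * IW) := by
        rw [ENNReal.ofReal_rpow_of_nonneg hw (by norm_num),
          ENNReal.ofReal_rpow_of_nonneg h0 (by norm_num), ← ENNReal.ofReal_mul (by (clear * - hw; positivity)),
          ← Real.sqrt_eq_rpow, ← Real.sqrt_eq_rpow, mul_comm, ← Real.sqrt_mul h0]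

/-- The weight `‖em - w‖` by Cauchy-Schwarz. -/
theorem Zone.i1 {q m ρ θ : ℝ} {w : ℂ} {S : Set ℝ} {I0 IW Ie : ℝ} (h : Zone q m ρ θ w S I0 IW Ie)
    (h0 : 0 ≤ I0) (h1 : 0 ≤ IW) :
    ∫⁻ s in S, ENNReal.ofReal (‖em m θ s - w‖ * Real.exp (-(q * Dm m ρ θ s))) ≤
      ENNReal.ofReal √(I0 * IW) := by
  have mD := (continuous_Dm__v3CenRedM m ρ θ).measurable
  have mW := (continuous_Wm m θ w).measurable
  have key := lintegral_sqrt_mul (S := S) (E := fun s => Real.exp (-(q * Dm m ρ θ s)))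
    (W := Wm m θ w) (fun s => (Real.exp_pos _).le) (Wm_nonneg m θ w) (by fun_prop) mW h0 h1 h.i0 h.iW
  refine le_trans (le_of_eq ?_) key
  refine lintegral_congr fun s => ?_
  unfold Wm
  rw [Real.sqrt_sq (norm_nonneg _)]

/-- Change of the base point of the weight: triangle inequality in `L²`. -/
theorem Zone.tri {q m ρ θ : ℝ} {w w' : ℂ} {S : Set ℝ} {I0 IW Ie κ : ℝ}
    (h : Zone q m ρ θ w S I0 IW Ie) (h0 : 0 ≤ I0) (h1 : 0 ≤ IW) (hκ : ‖w' - w‖ ≤ κ) :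
    Zone q m ρ θ w' S I0 ((√IW + κ * √I0) ^ (2 : ℕ)) Ie := by
  have hκ0 : 0 ≤ κ := (norm_nonneg _).trans hκ
  have mD := (continuous_Dm__v3CenRedM m ρ θ).measurable
  have mW := (continuous_Wm m θ w).measurable
  have mE := (continuous_em m θ).measurable
  refine ⟨h.i0, ?_, h.ie⟩
  have hi := h.i1 h0 h1
  have hb : ∀ s, Wm m θ w' s * Real.exp (-(q * Dm m ρ θ s)) ≤
      Wm m θ w s * Real.exp (-(q * Dm m ρ θ s)) + (2 * κ * (‖em m θ s - w‖ *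
        Real.exp (-(q * Dm m ρ θ s))) + κ ^ (2 : ℕ) * Real.exp (-(q * Dm m ρ θ s))) := by
    intro s
    have e1 : ‖em m θ s - w'‖ ≤ ‖em m θ s - w‖ + κ := by
      have : em m θ s - w' = (em m θ s - w) - (w' - w) := by ring
      rw [this]
      exact (norm_sub_le _ _).trans (by linarith only [hκ])
    have e2 : ‖em m θ s - w'‖ ^ (2 : ℕ) ≤ (‖em m θ s - w‖ + κ) ^ (2 : ℕ) := by
      have := norm_nonneg (em m θ s - w')
      gcongr
    have e3 := Real.exp_pos (-(q * Dm m ρ θ s))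
    unfold Wm
    have e4 := mul_le_mul_of_nonneg_right e2 e3.le
    linarith only [e4]
  refine (lintegral_mono fun s => ENNReal.ofReal_le_ofReal (hb s)).trans ?_
  have n1 : ∀ s, 0 ≤ Wm m θ w s * Real.exp (-(q * Dm m ρ θ s)) := fun s =>
    mul_nonneg (Wm_nonneg m θ w s) (Real.exp_pos _).le
  have n2 : ∀ s, 0 ≤ 2 * κ * (‖em m θ s - w‖ * Real.exp (-(q * Dm m ρ θ s))) := fun s => by
    have := Real.exp_pos (-(q * Dm m ρ θ s))
    (clear * - hκ0; positivity)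
  have n3 : ∀ s, 0 ≤ κ ^ (2 : ℕ) * Real.exp (-(q * Dm m ρ θ s)) := fun s => by
    have := Real.exp_pos (-(q * Dm m ρ θ s))
    (clear * -; positivity)
  have e5 : ∀ s, ENNReal.ofReal (Wm m θ w s * Real.exp (-(q * Dm m ρ θ s)) + (2 * κ *
      (‖em m θ s - w‖ * Real.exp (-(q * Dm m ρ θ s))) + κ ^ (2 : ℕ) * Real.exp (-(q * Dm m ρ θ s)))) =
      ENNReal.ofReal (Wm m θ w s * Real.exp (-(q * Dm m ρ θ s))) + (ENNReal.ofReal (2 * κ) *
        ENNReal.ofReal (‖em m θ s - w‖ * Real.exp (-(q * Dm m ρ θ s))) +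
        ENNReal.ofReal (κ ^ (2 : ℕ)) * ENNReal.ofReal (Real.exp (-(q * Dm m ρ θ s)))) := by
    intro s
    rw [ENNReal.ofReal_add (n1 s) (add_nonneg (n2 s) (n3 s)), ENNReal.ofReal_add (n2 s) (n3 s),
      ENNReal.ofReal_mul (p := 2 * κ) (by (clear * - hκ0; positivity)), ENNReal.ofReal_mul (p := κ ^ (2 : ℕ))
        (by (clear * -; positivity))]
  simp only [e5]
  rw [lintegral_add_left (by fun_prop), lintegral_add_left (by fun_prop),
    lintegral_const_mul _ (by fun_prop), lintegral_const_mul _ (by fun_prop)]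
  calc _ ≤ ENNReal.ofReal IW + (ENNReal.ofReal (2 * κ) * ENNReal.ofReal √(I0 * IW) +
        ENNReal.ofReal (κ ^ (2 : ℕ)) * ENNReal.ofReal I0) :=
        add_le_add h.iW (add_le_add (mul_le_mul_right hi _) (mul_le_mul_right h.i0 _))
    _ = ENNReal.ofReal ((√IW + κ * √I0) ^ (2 : ℕ)) := by
        rw [← ENNReal.ofReal_mul (by (clear * - hκ0; positivity)), ← ENNReal.ofReal_mul (by (clear * -; positivity)),
          ← ENNReal.ofReal_add (by (clear * - hκ0; positivity)) (by (clear * - h0; positivity)),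
          ← ENNReal.ofReal_add h1 (by (clear * - hκ0 h0; positivity))]
        congr 1
        have e1 := Real.sq_sqrt h0
        have e2 := Real.sq_sqrt h1
        rw [Real.sqrt_mul h0]
        linear_combination -e2 - κ ^ (2 : ℕ) * e1

/-- Pythagoras: if `Wm w' ≤ c Wm w + κ²` on `S`. -/
theorem Zone.pyth {q m ρ θ : ℝ} {w w' : ℂ} {S : Set ℝ} {I0 IW Ie c κ2 : ℝ}
    (hS : MeasurableSet S) (h : Zone q m ρ θ w S I0 IW Ie) (h0 : 0 ≤ I0) (h1 : 0 ≤ IW) (hc : 0 ≤ c)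
    (hκ : 0 ≤ κ2) (hb : ∀ s ∈ S, Wm m θ w' s ≤ c * Wm m θ w s + κ2) :
    Zone q m ρ θ w' S I0 (c * IW + κ2 * I0) Ie := by
  have mD := (continuous_Dm__v3CenRedM m ρ θ).measurable
  have mW := (continuous_Wm m θ w).measurable
  refine ⟨h.i0, ?_, h.ie⟩
  have e5 : ∀ s, ENNReal.ofReal (c * (Wm m θ w s * Real.exp (-(q * Dm m ρ θ s))) +
      κ2 * Real.exp (-(q * Dm m ρ θ s))) =
      ENNReal.ofReal c * ENNReal.ofReal (Wm m θ w s * Real.exp (-(q * Dm m ρ θ s))) +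
        ENNReal.ofReal κ2 * ENNReal.ofReal (Real.exp (-(q * Dm m ρ θ s))) := by
    intro s
    have := Wm_nonneg m θ w s
    rw [ENNReal.ofReal_add (by (clear * - hc this; positivity)) (by (clear * - hκ; positivity)), ENNReal.ofReal_mul hc,
      ENNReal.ofReal_mul hκ]
  calc ∫⁻ s in S, ENNReal.ofReal (Wm m θ w' s * Real.exp (-(q * Dm m ρ θ s)))
      ≤ ∫⁻ s in S, ENNReal.ofReal (c * (Wm m θ w s * Real.exp (-(q * Dm m ρ θ s))) +
        κ2 * Real.exp (-(q * Dm m ρ θ s))) := by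
        refine setLIntegral_mono' hS fun s hs => ENNReal.ofReal_le_ofReal ?_
        have := mul_le_mul_of_nonneg_right (hb s hs) (Real.exp_pos (-(q * Dm m ρ θ s))).le
        linarith only [this]
    _ = ENNReal.ofReal c * (∫⁻ s in S, ENNReal.ofReal (Wm m θ w s *
          Real.exp (-(q * Dm m ρ θ s)))) + ENNReal.ofReal κ2 *
          ∫⁻ s in S, ENNReal.ofReal (Real.exp (-(q * Dm m ρ θ s))) := by
        simp only [e5]
        rw [lintegral_add_left (by fun_prop), lintegral_const_mul _ (by fun_prop),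
          lintegral_const_mul _ (by fun_prop)]
    _ ≤ ENNReal.ofReal c * ENNReal.ofReal IW + ENNReal.ofReal κ2 * ENNReal.ofReal I0 :=
        add_le_add (mul_le_mul_right h.iW _) (mul_le_mul_right h.i0 _)
    _ = ENNReal.ofReal (c * IW + κ2 * I0) := by
        rw [← ENNReal.ofReal_mul hc, ← ENNReal.ofReal_mul hκ,
          ← ENNReal.ofReal_add (by (clear * - hc h1; positivity)) (by (clear * - hκ h0; positivity))]

/-- `κ = r w`, `w = K/ρ` -/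
theorem kap_eq {r δ y : ℝ} (hr : 0 < r) : kap r δ y = r * (sK (r * δ) y / (r * δ : ℝ)) := by
  unfold kap
  have h1 : (r : ℂ) ≠ 0 := by exact_mod_cast hr.ne'
  push_cast
  field_simp

/-- FROM ONE ZONE OVER `univ` TO `Shf`. -/
theorem shf_zone {r δ y η ζ H g k q m f0 f1 f2 L I0 IW Ie : ℝ} (hr : 0 < r) (hδ : 0 < δ)
    (hA : At r δ y η) (hL : Lev r δ y η g k q) (hW : WB r δ (η + ζ) m)
    (hLv : LvF r δ η g q ≤ L) (h0 : 0 ≤ I0) (h1 : 0 ≤ IW) (h2 : 0 ≤ Ie)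
    (Z : Zone r m (r * δ) (η + ζ) (sK (r * δ) y / (r * δ : ℝ)) univ I0 IW Ie)
    (hf0 : L * √(1 + 1 / m ^ (2 : ℕ)) * I0 ≤ f0)
    (hf1 : L * √(1 + 1 / m ^ (2 : ℕ)) * (r * √(I0 * IW)) ≤ f1 * H)
    (hf2 : L * √(1 + 1 / m ^ (2 : ℕ)) * (r ^ (2 : ℕ) * IW + r * Ie) ≤ f2 * H ^ (2 : ℕ)) :
    Shf r δ y ζ H f0 f1 f2 := by
  have hc : 0 ≤ √(1 + 1 / m ^ (2 : ℕ)) := Real.sqrt_nonneg _
  have mD := (continuous_Dm__v3CenRedM m (r * δ) (η + ζ)).measurable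
  have mW := (continuous_Wm m (η + ζ) (sK (r * δ) y / (r * δ : ℝ))).measurable
  have mE := (continuous_em m (η + ζ)).measurable
  have mP := (continuous_pm__v3CenRedM m).measurable
  unfold LvF at hLv
  obtain ⟨z0, zW, ze⟩ := Z
  have z1 := (Zone.i1 ⟨z0, zW, ze⟩ h0 h1)
  simp only [Measure.restrict_univ] at z0 zW ze z1
  refine ⟨?_, ?_, ?_⟩
  · have hw := hW 1 0 0
    refine cen_level hr hδ hA.y1 hL (norm_nonneg _) (j := √(1 + 1 / m ^ (2 : ℕ)) * I0) (by (clear * - h0; positivity))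
      (J := ∫⁻ s : ℝ, ENNReal.ofReal (√(1 + 1 / m ^ (2 : ℕ)) * 1 *
        Real.exp (-(r * Dm m (r * δ) (η + ζ) s)))) ?_ ?_ hLv (by linarith only [hf0])
    · unfold V0
      rw [hA.eta]
      simpa using hw
    · rw [ENNReal.ofReal_mul hc]
      simp only [mul_one, ENNReal.ofReal_mul hc]
      rw [lintegral_const_mul _ (by fun_prop)]
      exact mul_le_mul_right z0 _
  · have hw := hW (-kap r δ y) 1 0
    refine cen_level hr hδ hA.y1 hL (norm_nonneg _) (j := √(1 + 1 / m ^ (2 : ℕ)) * (r * √(I0 * IW)))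
      (by (clear * - hr; positivity))
      (J := ∫⁻ s : ℝ, ENNReal.ofReal (√(1 + 1 / m ^ (2 : ℕ)) * ‖r * em m (η + ζ) s - kap r δ y‖ *
        Real.exp (-(r * Dm m (r * δ) (η + ζ) s)))) ?_ ?_ hLv (by linarith only [hf1])
    · unfold V0 V1
      rw [hA.eta]
      have e : DE (tt δ) (wp r δ (η + ζ)) - kap r δ y * E (tt δ) (wp r δ (η + ζ)) =
          -kap r δ y * E (tt δ) (wp r δ (η + ζ)) + 1 * DE (tt δ) (wp r δ (η + ζ)) +
            0 * SokamBPlus.D2E (tt δ) (wp r δ (η + ζ)) := by ring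
      rw [e]
      refine hw.trans (le_of_eq ?_)
      congr 1
      refine lintegral_congr fun s => ?_
      congr 4
      ring
    · have e : ∀ s, ENNReal.ofReal (√(1 + 1 / m ^ (2 : ℕ)) * ‖r * em m (η + ζ) s - kap r δ y‖ *
          Real.exp (-(r * Dm m (r * δ) (η + ζ) s))) = ENNReal.ofReal (√(1 + 1 / m ^ (2 : ℕ)) * r) *
          ENNReal.ofReal (‖em m (η + ζ) s - sK (r * δ) y / (r * δ : ℝ)‖ *
            Real.exp (-(r * Dm m (r * δ) (η + ζ) s))) := by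
        intro s
        rw [← ENNReal.ofReal_mul (by (clear * - hr; positivity))]
        congr 1
        rw [kap_eq hr, ← mul_sub, norm_mul, Complex.norm_real, Real.norm_of_nonneg hr.le]
        ring
      simp only [e]
      rw [lintegral_const_mul _ (by fun_prop), ← mul_assoc,
        ENNReal.ofReal_mul (p := √(1 + 1 / m ^ (2 : ℕ)) * r) (by (clear * - hr; positivity))]
      exact mul_le_mul_right z1 _
  · have hw := hW (kap r δ y ^ (2 : ℕ)) (-(2 * kap r δ y)) 1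
    refine cen_level hr hδ hA.y1 hL (norm_nonneg _) (j := √(1 + 1 / m ^ (2 : ℕ)) *
      (r ^ (2 : ℕ) * IW + r * Ie)) (by (clear * - hr h1 h2; positivity))
      (J := ∫⁻ s : ℝ, ENNReal.ofReal (√(1 + 1 / m ^ (2 : ℕ)) *
        ‖(r * em m (η + ζ) s - kap r δ y) ^ (2 : ℕ) + r * em m (η + ζ) s‖ *
        Real.exp (-(r * Dm m (r * δ) (η + ζ) s)))) ?_ ?_ hLv (by linarith only [hf2])
    · unfold V0 V1 V2
      rw [hA.eta]
      have e : SokamBPlus.D2E (tt δ) (wp r δ (η + ζ)) -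
          2 * kap r δ y * DE (tt δ) (wp r δ (η + ζ)) +
          kap r δ y ^ (2 : ℕ) * E (tt δ) (wp r δ (η + ζ)) =
          kap r δ y ^ (2 : ℕ) * E (tt δ) (wp r δ (η + ζ)) +
            -(2 * kap r δ y) * DE (tt δ) (wp r δ (η + ζ)) +
            1 * SokamBPlus.D2E (tt δ) (wp r δ (η + ζ)) := by ring
      rw [e]
      refine hw.trans (le_of_eq ?_)
      congr 1
      refine lintegral_congr fun s => ?_
      congr 4
      ring
    · have e : ∀ s, ENNReal.ofReal (√(1 + 1 / m ^ (2 : ℕ)) *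
          ‖(r * em m (η + ζ) s - kap r δ y) ^ (2 : ℕ) + r * em m (η + ζ) s‖ *
          Real.exp (-(r * Dm m (r * δ) (η + ζ) s))) ≤ ENNReal.ofReal (√(1 + 1 / m ^ (2 : ℕ))) *
          (ENNReal.ofReal (r ^ (2 : ℕ)) * ENNReal.ofReal (Wm m (η + ζ) (sK (r * δ) y / (r * δ : ℝ)) s *
            Real.exp (-(r * Dm m (r * δ) (η + ζ) s))) + ENNReal.ofReal r *
            ENNReal.ofReal (Real.exp (pm m s) * Real.exp (-(r * Dm m (r * δ) (η + ζ) s)))) := by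
        intro s
        have hWn := Wm_nonneg m (η + ζ) (sK (r * δ) y / (r * δ : ℝ)) s
        have hE := Real.exp_pos (-(r * Dm m (r * δ) (η + ζ) s))
        rw [← ENNReal.ofReal_mul (by positivity), ← ENNReal.ofReal_mul (by positivity),
          ← ENNReal.ofReal_add (by (clear * - hr hWn; positivity)) (by positivity), ← ENNReal.ofReal_mul hc]
        refine ENNReal.ofReal_le_ofReal ?_
        have e1 : ‖(r * em m (η + ζ) s - kap r δ y) ^ (2 : ℕ) + r * em m (η + ζ) s‖ ≤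
            r ^ (2 : ℕ) * Wm m (η + ζ) (sK (r * δ) y / (r * δ : ℝ)) s + r * Real.exp (pm m s) := by
          refine (norm_add_le _ _).trans (add_le_add (le_of_eq ?_) (le_of_eq ?_))
          · rw [kap_eq hr, ← mul_sub, norm_pow, norm_mul, Complex.norm_real,
              Real.norm_of_nonneg hr.le, mul_pow]
            rfl
          · rw [norm_mul, norm_em, Complex.norm_real, Real.norm_of_nonneg hr.le]
        calc _ ≤ √(1 + 1 / m ^ (2 : ℕ)) * (r ^ (2 : ℕ) * Wm m (η + ζ) (sK (r * δ) y / (r * δ : ℝ)) s +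
              r * Real.exp (pm m s)) * Real.exp (-(r * Dm m (r * δ) (η + ζ) s)) := by gcongr
          _ = _ := by ring
      refine (lintegral_mono e).trans ?_
      rw [lintegral_const_mul _ (by fun_prop), lintegral_add_left (by fun_prop),
        lintegral_const_mul _ (by fun_prop), lintegral_const_mul _ (by fun_prop),
        ENNReal.ofReal_mul hc, ENNReal.ofReal_add (by (clear * - hr h1; positivity)) (by (clear * - hr h2; positivity)),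
        ENNReal.ofReal_mul (p := r ^ (2 : ℕ)) (by positivity), ENNReal.ofReal_mul hr.le]
      exact mul_le_mul_right (add_le_add (mul_le_mul_right zW _) (mul_le_mul_right ze _)) _

end SokamCen

end

/-! ### Lib_MP_af4de1_v3.LevL -/

section
namespace SokamF1
end SokamF1
namespace SokamF1M
end SokamF1M
namespace SokamF1S
end SokamF1S
/-!
# The level of a saddle relative to `e^r`, left side

`|dK/dη| = |K|/D ≤ ρ/√R` for `y ≥ 0`, so `|K - ρ| ≤ ρ η/√R`.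
Level: `ρ (ρ - x(1+y)) ≤ ρ² (1 - (1+y) e^(-y)) + (1+y) y² e^y/(1 + cos ψ)` and
`ρ η ≥ ρ² (1 - e^(-y)) + (y + y²/2) e^y` (`sE_ge_pos`); coefficientwise in `ρ²`.
-/

set_option autoImplicit false

namespace SokamV3

open Real Set SokamF1 SokamF1S SokamF1M

private theorem ll_lt {ρ b : ℝ} (h : Dom ρ b) {y : ℝ} (hy : y ∈ Ico 0 b) : |y| * Real.exp y < ρ := by
  rcases hy.1.eq_or_lt with h0 | h0
  · rw [← h0, abs_zero, zero_mul]
    exact h.1
  · exact dom_le h ⟨h0, hy.2⟩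

private theorem ll_deriv {ρ y : ℝ} (hρ : 0 < ρ) (h : |y| * Real.exp y < ρ) :
    HasDerivAt (fun y : ℝ => sK ρ y - ρ) (((-(sx ρ y ^ (2 : ℕ) + y ^ (2 : ℕ) + y) / sx ρ y : ℝ) : ℂ) + Complex.I) y := by
  have h1 := (hasDerivAt_sx hρ h).ofReal_comp
  have h2 := ((hasDerivAt_id y).ofReal_comp).mul_const Complex.I
  have h3 := (h1.add h2).sub_const (ρ : ℂ)
  refine h3.congr_deriv ?_
  simp

/-- `|K - ρ| ≤ ρ η/√R` -/
theorem sK_sub_le {ρ b : ℝ} (h : Dom ρ b) (hb : 0 ≤ b) :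
    ‖sK ρ b - ρ‖ ≤ ρ / √(1 + ρ ^ (2 : ℕ)) * sE ρ b := by
  have hρ := h.1
  have hR : 0 < 1 + ρ ^ (2 : ℕ) := by positivity
  have hs : 0 < √(1 + ρ ^ (2 : ℕ)) := Real.sqrt_pos.2 hR
  have key := image_norm_le_of_norm_deriv_right_le_deriv_boundary' (E := ℂ)
    (f := fun y : ℝ => sK ρ y - ρ)
    (f' := fun y : ℝ => ((-(sx ρ y ^ (2 : ℕ) + y ^ (2 : ℕ) + y) / sx ρ y : ℝ) : ℂ) + Complex.I) (a := 0) (b := b)
    (B := fun y => ρ / √(1 + ρ ^ (2 : ℕ)) * sE ρ y)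
    (B' := fun y => ρ / √(1 + ρ ^ (2 : ℕ)) * (sD2 ρ y / sx ρ y)) ?_ ?_ ?_ ?_ ?_ ?_
  · exact key ⟨hb, le_rfl⟩
  · have hc := continuous_sx ρ
    unfold sK
    fun_prop
  · intro y hy
    exact (ll_deriv hρ (ll_lt h hy)).hasDerivWithinAt
  · show ‖sK ρ 0 - ρ‖ ≤ ρ / √(1 + ρ ^ (2 : ℕ)) * sE ρ 0
    rw [sE_zero hρ, mul_zero]
    unfold sK sx
    simp [Real.sqrt_sq hρ.le]
  · exact (continuous_const.mul (continuous_sE ρ)).continuousOn
  · intro y hy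
    exact ((hasDerivAt_sE hρ (ll_lt h hy)).const_mul _).hasDerivWithinAt
  · intro y hy
    have hlt := ll_lt h hy
    have hD : Dom ρ y := ⟨hρ, hlt.le⟩
    have hx := sx_pos hρ hlt
    have hy0 := hy.1
    have hk := sx_sq_add hD
    have hD2 := sD2_eq hD
    have hD2p : 0 < sD2 ρ y := sD2_pos (by linarith only [hy0])
    refine (pow_le_pow_iff_left₀ (norm_nonneg _) (by (clear * - hρ hD2p hx; positivity)) two_ne_zero).1 ?_
    have e1 : ‖((-(sx ρ y ^ (2 : ℕ) + y ^ (2 : ℕ) + y) / sx ρ y : ℝ) : ℂ) + Complex.I‖ ^ (2 : ℕ) =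
        (sx ρ y ^ (2 : ℕ) + y ^ (2 : ℕ)) * sD2 ρ y / sx ρ y ^ (2 : ℕ) := by
      rw [Complex.sq_norm, Complex.normSq_apply]
      simp only [Complex.add_re, Complex.ofReal_re, Complex.I_re, add_zero, Complex.add_im,
        Complex.ofReal_im, Complex.I_im, zero_add, mul_one]
      unfold sD2
      field_simp
      ring
    have e2 : (ρ / √(1 + ρ ^ (2 : ℕ)) * (sD2 ρ y / sx ρ y)) ^ (2 : ℕ) =
        ρ ^ (2 : ℕ) * sD2 ρ y * sD2 ρ y / ((1 + ρ ^ (2 : ℕ)) * sx ρ y ^ (2 : ℕ)) := by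
      rw [mul_pow, div_pow, Real.sq_sqrt hR.le]
      field_simp
    rw [e1, e2, div_le_div_iff₀ (by (clear * - hx; positivity)) (by (clear * - hρ hx; positivity))]
    have h3 : (sx ρ y ^ (2 : ℕ) + y ^ (2 : ℕ)) * (1 + ρ ^ (2 : ℕ)) ≤ ρ ^ (2 : ℕ) * sD2 ρ y := by
      rw [hk, hD2]
      have hE : Real.exp (-y) ≤ 1 := Real.exp_le_one_iff.2 (by linarith only [hy0])
      have hE0 := Real.exp_pos (-y)
      have hE2 : Real.exp (-y) ^ (2 : ℕ) ≤ 1 := by nlinarith only [hE, hE0]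
      nlinarith only [hE2, mul_nonneg (sq_nonneg ρ) hy0]
    have h4 := mul_le_mul_of_nonneg_right h3 (by positivity : 0 ≤ sD2 ρ y * sx ρ y ^ (2 : ℕ))
    linarith only [h4]

private theorem ll_en5 {x : ℝ} (hx : 0 ≤ x) :
    1 - x + x ^ (2 : ℕ) / 2 - x ^ (3 : ℕ) / 6 + x ^ (4 : ℕ) / 24 - x ^ (5 : ℕ) / 120 ≤ Real.exp (-x) := by
  have h := SokamF1G.nonneg_of_deriv
    (f := fun x => Real.exp (-x) - (1 - x + x ^ (2 : ℕ) / 2 - x ^ (3 : ℕ) / 6 + x ^ (4 : ℕ) / 24 - x ^ (5 : ℕ) / 120))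
    (f' := fun x => 1 - x + x ^ (2 : ℕ) / 2 - x ^ (3 : ℕ) / 6 + x ^ (4 : ℕ) / 24 - Real.exp (-x)) (fun y => by
      have h1 := (SokamF1G.hasDerivAt_expneg y).sub ((((((hasDerivAt_const y (1 : ℝ)).sub (hasDerivAt_id y)).add
        ((hasDerivAt_pow 2 y).div_const 2)).sub ((hasDerivAt_pow 3 y).div_const 6)).add
        ((hasDerivAt_pow 4 y).div_const 24)).sub ((hasDerivAt_pow 5 y).div_const 120))
      refine h1.congr_deriv ?_
      push_cast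
      ring) (by simp) (fun y hy => sub_nonneg.2 (SokamF1G.en_le4 hy)) hx
  simpa using h

/-- `1 - (1+y) e^(-y) ≤ (3/5) (1 - e^(-y))²` -/
private theorem ll_i {y : ℝ} (hy : 0 ≤ y) (hy1 : y ≤ 14 / 25) :
    1 - (1 + y) * Real.exp (-y) ≤ 3 / 5 * (1 - Real.exp (-y)) ^ (2 : ℕ) := by
  set E := Real.exp (-y) with hE
  set T := 1 - y + y ^ (2 : ℕ) / 2 - y ^ (3 : ℕ) / 6 + y ^ (4 : ℕ) / 24 - y ^ (5 : ℕ) / 120 with hT
  have hTE : T ≤ E := ll_en5 hy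
  have y2 : 0 ≤ y ^ (2 : ℕ) := sq_nonneg y
  have y3 : 0 ≤ y ^ (3 : ℕ) := pow_nonneg hy 3
  have y4 : 0 ≤ y ^ (4 : ℕ) := pow_nonneg hy 4
  have hT0 : 2 / 5 ≤ T := by
    have h1 : y ^ (3 : ℕ) ≤ y ^ (2 : ℕ) := by nlinarith only [hy1]
    have h2 : y ^ (5 : ℕ) ≤ y ^ (4 : ℕ) := by nlinarith only [h1]
    rw [hT]
    nlinarith only [hy1, h2]
  have hf : 0 ≤ 3 / 5 * T ^ (2 : ℕ) + (y - 1 / 5) * T - 2 / 5 := by
    have e : 3 / 5 * T ^ (2 : ℕ) + (y - 1 / 5) * T - 2 / 5 = y ^ (2 : ℕ) * ((1 / 10 - 4 / 15 * y + 9 / 40 * y ^ (2 : ℕ) -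
        7 / 60 * y ^ (3 : ℕ) + 179 / 5000 * y ^ (4 : ℕ)) + y ^ (4 : ℕ) * ((113 / 15000 - 1 / 75 * y) + y ^ (2 : ℕ) * (13 / 4800 - 1 / 2400 * y) +
        1 / 24000 * y ^ (4 : ℕ))) := by
      rw [hT]
      ring
    rw [e]
    have h1 : 0 ≤ 113 / 15000 - 1 / 75 * y := by linarith only [hy1]
    have h2 : 0 ≤ 13 / 4800 - 1 / 2400 * y := by linarith only [h1]
    have h3 : 0 ≤ 1 / 10 - 4 / 15 * y + 9 / 40 * y ^ (2 : ℕ) - 7 / 60 * y ^ (3 : ℕ) + 179 / 5000 * y ^ (4 : ℕ) := by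
      nlinarith only [mul_nonneg y2 (sq_nonneg (y - 14 / 25)), mul_nonneg (sub_nonneg.2 hy1) (sq_nonneg (y - 14 / 25))]
    (clear * - h3 h1 h2; positivity)
  linarith only [hf, mul_nonneg (sub_nonneg.2 hTE) (by nlinarith : (0 : ℝ) ≤ 3 / 5 * (E + T) + (y - 1 / 5))]

/-- `k ≤ (3/5) q²` -/
private theorem ll_ii {y : ℝ} (hy : 0 ≤ y) :
    (1 + y) * y ^ (2 : ℕ) * Real.exp y / (89 / 50) ≤ 3 / 5 * ((y + y ^ (2 : ℕ) / 2) * Real.exp y) ^ (2 : ℕ) := by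
  have hW : 1 ≤ Real.exp y := Real.one_le_exp hy
  rw [div_le_iff₀ (by norm_num)]
  have h1 : (1 + y) ≤ 3 / 5 * (1 + y / 2) ^ (2 : ℕ) * Real.exp y * (89 / 50) := by
    nlinarith only [mul_nonneg (sq_nonneg (1 + y / 2)) (sub_nonneg.2 hW), sq_nonneg y]
  have h2 := mul_le_mul_of_nonneg_right h1 (by positivity : 0 ≤ y ^ (2 : ℕ) * Real.exp y)
  linarith only [h2]

/-- `g + k ≤ (6/5) a q` -/
private theorem ll_iii {y : ℝ} (hy : 0 ≤ y) (hy1 : y ≤ 14 / 25) :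
    1 - (1 + y) * Real.exp (-y) + (1 + y) * y ^ (2 : ℕ) * Real.exp y / (89 / 50) ≤
      6 / 5 * ((1 - Real.exp (-y)) * ((y + y ^ (2 : ℕ) / 2) * Real.exp y)) := by
  have hEW := exp_mul_neg y
  have hE := SokamF1G.en_ge3 hy
  have hW := SokamF1G.e_ge3 hy
  have e1 : (1 - Real.exp (-y)) * ((y + y ^ (2 : ℕ) / 2) * Real.exp y) = (y + y ^ (2 : ℕ) / 2) * (Real.exp y - 1) := by
    linear_combination (-(y + y ^ (2 : ℕ) / 2)) * hEW
  rw [e1]
  have h1 : 1 - (1 + y) * Real.exp (-y) ≤ y ^ (2 : ℕ) / 2 - y ^ (3 : ℕ) / 3 + y ^ (4 : ℕ) / 6 := by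
    have := mul_le_mul_of_nonneg_left hE (by linarith : 0 ≤ 1 + y)
    linarith only [this]
  have hC : 0 ≤ 6 / 5 * (y + y ^ (2 : ℕ) / 2) - (1 + y) * y ^ (2 : ℕ) / (89 / 50) := by
    have : 0 ≤ y * (6 / 5 * (1 + y / 2) - (1 + y) * y / (89 / 50)) := by
      refine mul_nonneg hy ?_
      nlinarith only [hy, hy1]
    linarith only [this]
  have h2 := mul_nonneg hC (sub_nonneg.2 hW)
  have h3 : y ^ (2 : ℕ) / 2 - y ^ (3 : ℕ) / 3 + y ^ (4 : ℕ) / 6 ≤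
      (6 / 5 * (y + y ^ (2 : ℕ) / 2) - (1 + y) * y ^ (2 : ℕ) / (89 / 50)) * (1 + y + y ^ (2 : ℕ) / 2 + y ^ (3 : ℕ) / 6) -
        6 / 5 * (y + y ^ (2 : ℕ) / 2) := by
    have y2 : 0 ≤ y ^ (2 : ℕ) := sq_nonneg y
    have y3 : y ^ (3 : ℕ) ≤ 14 / 25 * y ^ (2 : ℕ) := by nlinarith only [hy1]
    have h4 : 0 ≤ y ^ (2 : ℕ) * (1382 / 10000 + 4096 / 10000 * y - 5095 / 10000 * y ^ (2 : ℕ) - 2746 / 10000 * y ^ (3 : ℕ) -
        937 / 10000 * y ^ (4 : ℕ)) := by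
      refine mul_nonneg y2 ?_
      nlinarith only [mul_nonneg y2 (sub_nonneg.2 hy1), mul_nonneg (mul_nonneg y2 hy) (sub_nonneg.2 hy1)]
    nlinarith only [h4, pow_nonneg hy 3]
  have e2 : (1 + y) * y ^ (2 : ℕ) * Real.exp y / (89 / 50) = (1 + y) * y ^ (2 : ℕ) / (89 / 50) * Real.exp y := by ring
  rw [e2]
  linarith only [h1, h2, h3]

/-- the level -/
theorem level_left {ρ y : ℝ} (h : Dom ρ y) (hy : 0 ≤ y) (hy1 : y ≤ 14 / 25) (hT : y ≤ 4 / 5 * sx ρ y) :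
    (ρ - sx ρ y * (1 + y)) * (1 + ρ ^ (2 : ℕ)) ≤ 3 / 5 * ρ * sE ρ y ^ (2 : ℕ) := by
  have hρ := h.1
  have hx := sx_eq h
  have hyr := y_eq h
  have hye := y_exp_eq h
  have hEW := exp_mul_neg y
  have hsc := Real.sin_sq_add_cos_sq (sP ρ y)
  have hη := sE_ge_pos h hy
  have hc0 : 0 ≤ Real.cos (sP ρ y) := by
    have := abs_le.1 (sP_abs_le ρ y)
    exact Real.cos_nonneg_of_mem_Icc ⟨by linarith only [this.1], this.2⟩
  have hc1 := Real.cos_le_one (sP ρ y)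
  have hE0 := Real.exp_pos (-y)
  have hW0 := Real.exp_pos y
  have hs0 : 0 ≤ Real.sin (sP ρ y) := by
    rw [h.sin]
    (clear * - hy hρ; positivity)
  set c := Real.cos (sP ρ y) with hc
  set s := Real.sin (sP ρ y) with hs
  set E := Real.exp (-y) with hE
  set W := Real.exp y with hW
  -- `cos ψ ≥ 39/50`
  have hsc2 : s ≤ 4 / 5 * c := by
    have hρE : 0 < ρ * E := by (clear * - hρ; positivity)
    have h1 : ρ * E * s ≤ ρ * E * (4 / 5 * c) := by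
      calc ρ * E * s = y := hyr.symm
        _ ≤ 4 / 5 * sx ρ y := hT
        _ = ρ * E * (4 / 5 * c) := by rw [hx]; ring
    exact le_of_mul_le_mul_left h1 hρE
  have hc2 : 39 / 50 ≤ c := by
    by_contra hcon
    push Not at hcon
    nlinarith only [hs0, hsc, hsc2, hcon]
  have hi := ll_i hy hy1
  have hii := ll_ii hy
  have hiii := ll_iii hy hy1
  rw [← hE, ← hW] at hiii
  rw [← hE] at hi
  rw [← hW] at hii
  -- upper bound of the level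
  have hP : ρ * (ρ - sx ρ y * (1 + y)) ≤ ρ ^ (2 : ℕ) * (1 - (1 + y) * E) + (1 + y) * y ^ (2 : ℕ) * W / (89 / 50) := by
    have e1 : ρ * (ρ - sx ρ y * (1 + y)) = ρ ^ (2 : ℕ) * (1 - (1 + y) * E) + (1 + y) * E * (ρ ^ (2 : ℕ) * (1 - c)) := by
      rw [hx]
      ring
    have e2 : ρ ^ (2 : ℕ) * (1 - c) * (1 + c) = y ^ (2 : ℕ) * W ^ (2 : ℕ) := by
      calc ρ ^ (2 : ℕ) * (1 - c) * (1 + c) = ρ ^ (2 : ℕ) * (1 - c ^ (2 : ℕ)) := by ring
        _ = (ρ * s) ^ (2 : ℕ) := by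
          have : 1 - c ^ (2 : ℕ) = s ^ (2 : ℕ) := by linarith only [hsc]
          rw [this]
          ring
        _ = y ^ (2 : ℕ) * W ^ (2 : ℕ) := by
          rw [← hye]
          ring
    have e3 : ρ ^ (2 : ℕ) * (1 - c) * (89 / 50) ≤ y ^ (2 : ℕ) * W ^ (2 : ℕ) := by
      rw [← e2]
      exact mul_le_mul_of_nonneg_left (by linarith only [hc2]) (mul_nonneg (sq_nonneg ρ) (by linarith only [hc1]))
    have e4 : ρ ^ (2 : ℕ) * (1 - c) ≤ y ^ (2 : ℕ) * W ^ (2 : ℕ) / (89 / 50) := by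
      rw [le_div_iff₀ (by norm_num)]
      exact e3
    have e5 := mul_le_mul_of_nonneg_left e4 (by positivity : 0 ≤ (1 + y) * E)
    have e6 : (1 + y) * E * (y ^ (2 : ℕ) * W ^ (2 : ℕ) / (89 / 50)) = (1 + y) * y ^ (2 : ℕ) * W / (89 / 50) * (W * E) := by ring
    rw [e6, hEW, mul_one] at e5
    rw [e1]
    linarith only [e5]
  -- lower bound of the angle
  have hA : ρ ^ (2 : ℕ) * (1 - E) + (y + y ^ (2 : ℕ) / 2) * W ≤ ρ * sE ρ y := by
    have := mul_le_mul_of_nonneg_left hη hρ.le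
    have e7 : ρ * (ρ * (1 - E) + (y + y ^ (2 : ℕ) / 2) * W / ρ) = ρ ^ (2 : ℕ) * (1 - E) + (y + y ^ (2 : ℕ) / 2) * W := by
      field_simp
    rwa [e7] at this
  have hE1 : E ≤ 1 := Real.exp_le_one_iff.2 (by linarith only [hy])
  have ha0 : 0 ≤ 1 - E := by linarith only [hE1]
  have hq0 : 0 ≤ (y + y ^ (2 : ℕ) / 2) * W := by (clear * - hy; positivity)
  have hA2 : (ρ ^ (2 : ℕ) * (1 - E) + (y + y ^ (2 : ℕ) / 2) * W) ^ (2 : ℕ) ≤ (ρ * sE ρ y) ^ (2 : ℕ) :=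
    pow_le_pow_left₀ (by (clear * - hρ hE1 hy; positivity)) hA 2
  have hz : 0 ≤ ρ ^ (2 : ℕ) := sq_nonneg ρ
  set g := 1 - (1 + y) * E with hg
  set k := (1 + y) * y ^ (2 : ℕ) * W / (89 / 50) with hk
  set a := 1 - E with ha
  set q := (y + y ^ (2 : ℕ) / 2) * W with hq
  set z := ρ ^ (2 : ℕ) with hzz
  have hmain : (z * g + k) * (1 + z) ≤ 3 / 5 * (z * a + q) ^ (2 : ℕ) := by
    have t1 := mul_le_mul_of_nonneg_left hi (by positivity : 0 ≤ z ^ (2 : ℕ))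
    have t2 := mul_le_mul_of_nonneg_left hiii hz
    linarith only [t1, t2, hii]
  have hfin : ρ * ((ρ - sx ρ y * (1 + y)) * (1 + z)) ≤ ρ * (3 / 5 * ρ * sE ρ y ^ (2 : ℕ)) := by
    calc ρ * ((ρ - sx ρ y * (1 + y)) * (1 + z)) = ρ * (ρ - sx ρ y * (1 + y)) * (1 + z) := by ring
      _ ≤ (z * g + k) * (1 + z) := mul_le_mul_of_nonneg_right hP (by linarith only [hz])
      _ ≤ 3 / 5 * (z * a + q) ^ (2 : ℕ) := hmain
      _ ≤ 3 / 5 * (ρ * sE ρ y) ^ (2 : ℕ) := by linarith only [hA2]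
      _ = ρ * (3 / 5 * ρ * sE ρ y ^ (2 : ℕ)) := by ring
  exact le_of_mul_le_mul_left hfin hρ

/-- `(1+z) y + (3/2 - z/2) y² ≤ ρ η` -/
private theorem ll_eta {ρ y : ℝ} (h : Dom ρ y) (hy : 0 ≤ y) :
    (1 + ρ ^ (2 : ℕ)) * y + (3 / 2 - ρ ^ (2 : ℕ) / 2) * y ^ (2 : ℕ) ≤ ρ * sE ρ y := by
  have hρ := h.1
  have hη := mul_le_mul_of_nonneg_left (sE_ge_pos h hy) hρ.le
  have e7 : ρ * (ρ * (1 - Real.exp (-y)) + (y + y ^ (2 : ℕ) / 2) * Real.exp y / ρ) =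
      ρ ^ (2 : ℕ) * (1 - Real.exp (-y)) + (y + y ^ (2 : ℕ) / 2) * Real.exp y := by
    field_simp
  rw [e7] at hη
  refine le_trans ?_ hη
  have h1 := SokamF1G.en_le2 hy
  have h2 := Real.add_one_le_exp y
  have h3 : ρ ^ (2 : ℕ) * (y - y ^ (2 : ℕ) / 2) ≤ ρ ^ (2 : ℕ) * (1 - Real.exp (-y)) :=
    mul_le_mul_of_nonneg_left (by linarith only [h1]) (sq_nonneg ρ)
  have h4 : (y + y ^ (2 : ℕ) / 2) * (y + 1) ≤ (y + y ^ (2 : ℕ) / 2) * Real.exp y :=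
    mul_le_mul_of_nonneg_left h2 (by (clear * - hy; positivity))
  linarith only [h3, h4, pow_nonneg hy 3]

private theorem ll_D {ρ y : ℝ} (h : Dom ρ y) (hy : 0 ≤ y) :
    sD2 ρ y ≤ 1 + 2 * y + ρ ^ (2 : ℕ) * (1 - 2 * y + 2 * y ^ (2 : ℕ)) := by
  rw [sD2_eq h, mul_pow]
  have h1 := SokamF1G.en_le2 (x := 2 * y) (by linarith only [hy])
  have h2 : Real.exp (-y) ^ (2 : ℕ) = Real.exp (-(2 * y)) := by
    rw [← Real.exp_nat_mul]
    congr 1
    push_cast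
    ring
  rw [h2]
  have h3 := mul_le_mul_of_nonneg_left h1 (sq_nonneg ρ)
  linarith only [h3]

private theorem ll_D1 {ρ y : ℝ} (h : Dom ρ y) (hy : 0 ≤ y) (hy1 : y ≤ 14 / 25)
    (hη : sE ρ y ^ (2 : ℕ) ≤ 396 / 1000 * (1 + ρ ^ (2 : ℕ))) : sD2 ρ y ≤ (23 / 20) ^ (2 : ℕ) * (1 + ρ ^ (2 : ℕ)) := by
  refine (ll_D h hy).trans ?_
  have hA := ll_eta h hy
  have hρ := h.1
  have hz : 0 ≤ ρ ^ (2 : ℕ) := sq_nonneg ρ
  have hA2 : (ρ * sE ρ y) ^ (2 : ℕ) ≤ 396 / 1000 * (ρ ^ (2 : ℕ) * (1 + ρ ^ (2 : ℕ))) := by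
    rw [mul_pow]
    linarith only [mul_le_mul_of_nonneg_left hη hz]
  set z := ρ ^ (2 : ℕ) with hzz
  have hA3 : ρ * sE ρ y ≤ 14 / 100 + 848 / 1000 * z := by
    refine abs_le_of_sq_le_sq' ?_ (by positivity) |>.2
    nlinarith only [hA2, sq_nonneg (z - 245 / 1000)]
  rcases le_total z 1 with h1 | h1
  · have hH : (1 + z) * y + (3 / 2 - z / 2) * y ^ (2 : ℕ) ≤ 14 / 100 + 848 / 1000 * z := hA.trans hA3
    have h2 := mul_le_mul_of_nonneg_left hH (by linarith : 0 ≤ 1 - z / 2)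
    nlinarith only [hH, mul_nonneg hz (sq_nonneg (y - 1 / 4)), mul_nonneg (mul_nonneg hz hy) (sub_nonneg.2 hy1)]
  · nlinarith only [hy, hy1, h1, mul_nonneg (sub_nonneg.2 h1) (mul_nonneg hy (by linarith : 0 ≤ 1 - y))]

private theorem ll_D2 {ρ y : ℝ} (h : Dom ρ y) (hy : 0 ≤ y) (hy1 : y ≤ 41 / 100)
    (hη : sE ρ y ^ (2 : ℕ) ≤ 1128 / 10000 * (1 + ρ ^ (2 : ℕ))) : sD2 ρ y ≤ (11 / 10) ^ (2 : ℕ) * (1 + ρ ^ (2 : ℕ)) := by
  refine (ll_D h hy).trans ?_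
  have hA := ll_eta h hy
  have hρ := h.1
  have hz : 0 ≤ ρ ^ (2 : ℕ) := sq_nonneg ρ
  have hA2 : (ρ * sE ρ y) ^ (2 : ℕ) ≤ 1128 / 10000 * (ρ ^ (2 : ℕ) * (1 + ρ ^ (2 : ℕ))) := by
    rw [mul_pow]
    linarith only [mul_le_mul_of_nonneg_left hη hz]
  set z := ρ ^ (2 : ℕ) with hzz
  have hA3 : ρ * sE ρ y ≤ 675 / 10000 + 488 / 1000 * z := by
    refine abs_le_of_sq_le_sq' ?_ (by positivity) |>.2
    nlinarith only [hA2, sq_nonneg (z - 187 / 1000)]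
  rcases le_total z 1 with h1 | h1
  · have hH : (1 + z) * y + (3 / 2 - z / 2) * y ^ (2 : ℕ) ≤ 675 / 10000 + 488 / 1000 * z := hA.trans hA3
    have h2 := mul_le_mul_of_nonneg_left hH (by linarith : 0 ≤ 13 / 10 - z)
    nlinarith only [h2, mul_nonneg (mul_nonneg hz hz) (sq_nonneg y), mul_nonneg (mul_nonneg hz (sub_nonneg.2 h1)) hy, mul_nonneg (mul_nonneg hz hy) (sub_nonneg.2 hy1)]
  · nlinarith only [hy, hy1, h1, mul_nonneg (sub_nonneg.2 h1) (mul_nonneg hy (by linarith : 0 ≤ 1 - y))]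

private theorem ll_y0 {r δ y η : ℝ} (h : At r δ y η) (hη : 0 ≤ η) : 0 ≤ y := by
  by_contra hcon
  push Not at hcon
  have h1 := sE_strictMonoOn h.dom (dom_zero h.dom.1) h.y1.le ⟨le_rfl, hcon.le⟩ ⟨hcon.le, le_rfl⟩ hcon
  rw [sE_zero h.dom.1, h.eta] at h1
  linarith only [hη, h1]

/-- the level structure from the bounds of the saddle -/
private theorem ll_lev {r δ y η q : ℝ} (hr : 0 < r) (hδ : 0 < δ) (h : At r δ y η) (hη : 0 ≤ η)
    (hy1 : y ≤ 14 / 25) (hT : y ≤ 4 / 5 * sx (r * δ) y) (hq : 0 ≤ q)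
    (hD : sD2 (r * δ) y ≤ q ^ (2 : ℕ) * (1 + (r * δ) ^ (2 : ℕ))) : Lev r δ y η (6 / 5) 1 q := by
  have hy := ll_y0 h hη
  have hR : 0 < RR r δ := by
    unfold RR
    positivity
  have hs : 0 < √(RR r δ) := Real.sqrt_pos.2 hR
  refine ⟨?_, ?_, ?_⟩
  · have h1 := level_left h.dom hy hy1 hT
    rw [h.eta] at h1
    have h2 : (r * δ - sx (r * δ) y * (1 + y)) / δ ≤ 3 / 5 * (r * δ) * η ^ (2 : ℕ) / RR r δ / δ := by
      refine div_le_div_of_nonneg_right ?_ hδ.le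
      rw [le_div_iff₀ hR]
      exact h1
    have e1 : (r * δ - sx (r * δ) y * (1 + y)) / δ = r - sx (r * δ) y * (1 + y) / δ := by
      field_simp
    have e2 : 3 / 5 * (r * δ) * η ^ (2 : ℕ) / RR r δ / δ = 6 / 5 / 2 * (r * η ^ (2 : ℕ) / RR r δ) := by
      field_simp
      ring
    rw [e1, e2] at h2
    exact h2
  · have h1 := sK_sub_le h.dom hy
    rw [h.eta] at h1
    have e1 : kap r δ y - r = (sK (r * δ) y - ((r * δ : ℝ) : ℂ)) / (δ : ℂ) := by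
      have : (δ : ℂ) ≠ 0 := Complex.ofReal_ne_zero.2 hδ.ne'
      unfold kap
      push_cast
      field_simp
    have e2 : 1 * (r * |η| / √(RR r δ)) = r * δ / √(1 + (r * δ) ^ (2 : ℕ)) * η / δ := by
      rw [abs_of_nonneg hη]
      unfold RR
      field_simp
    rw [e1, e2, norm_div, Complex.norm_real, Real.norm_of_nonneg hδ.le]
    exact div_le_div_of_nonneg_right h1 hδ.le
  · unfold sD
    have h1 := Real.sqrt_le_sqrt hD
    rw [Real.sqrt_mul (sq_nonneg q), Real.sqrt_sq hq] at h1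
    exact h1

private theorem ll_sq {a b c : ℝ} (ha : 0 ≤ a) (hab : a ≤ c * b) : a ^ (2 : ℕ) ≤ c ^ (2 : ℕ) * b ^ (2 : ℕ) := by
  rw [← mul_pow]
  exact pow_le_pow_left₀ ha hab 2

private theorem ll_G {N : ℕ} {r δ g : ℝ} (hr : 499 / 10 ≤ r) (h : Gm N r δ < g) :
    499 / 10 * hst N ^ (2 : ℕ) ≤ g * (1 + (r * δ) ^ (2 : ℕ)) := by
  have hR : 0 < RR r δ := by
    unfold RR
    (clear * -; positivity)
  unfold Gm at h
  rw [div_lt_iff₀ hR] at h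
  unfold RR at h
  nlinarith only [hr, h]

/-- PIECE LEVEL, left side, `Γ < 10`. -/
theorem levL_A {N : ℕ} {r δ y η : ℝ} (hR : Reg1 N r δ) (h : At r δ y η) (hS : Sad1 N r δ y)
    (hG : Gm N r δ < 10) (h0 : 0 ≤ η) (h1 : η ≤ eo1 N r δ) : Lev r δ y η (6 / 5) 1 (11 / 10) := by
  rcases hS with ⟨-, hA⟩ | ⟨hG2, -⟩
  swap
  · linarith only [hG, hG2]
  have hy := ll_y0 h h0
  have hT := hA.T
  rw [abs_of_nonneg hy] at hT
  have hx := sx_nonneg (r * δ) y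
  have hr := hR.r0
  have hη : η ≤ 3 / 4 * hst N := by
    unfold eo1 om1 at h1
    rw [if_pos hG] at h1
    linarith only [h1]
  have h2 := ll_sq h0 hη
  have h3 := ll_G hr hG
  refine ll_lev (by linarith only [hr]) hR.d0 h h0 (by linarith only [hA.hi]) (by linarith only [hy, hT]) (by norm_num)
    (ll_D2 h.dom hy hA.hi ?_)
  rw [h.eta]
  linarith only [h2, h3, sq_nonneg (r * δ)]

/-- PIECE LEVEL, left side. -/
theorem levL {N : ℕ} {r δ y η : ℝ} (hR : Reg1 N r δ) (h : At r δ y η) (hS : Sad1 N r δ y)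
    (h0 : 0 ≤ η) (h1 : η ≤ eo1 N r δ) : Lev r δ y η (6 / 5) 1 (23 / 20) := by
  rcases lt_or_ge (Gm N r δ) 10 with hG | hG
  · have := levL_A hR h hS hG h0 h1
    exact ⟨this.l0, this.l1, this.l2.trans (by
      have := Real.sqrt_nonneg (RR r δ)
      linarith only [this])⟩
  rcases hS with ⟨hG2, -⟩ | ⟨-, hB⟩
  · linarith only [hG, hG2]
  have hy := ll_y0 h h0
  have hT := hB.T
  rw [abs_of_nonneg hy] at hT
  have hr := hR.r0
  refine ll_lev (by linarith only [hr]) hR.d0 h h0 hB.hi hT (by norm_num)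
    (ll_D1 h.dom hy hB.hi ?_)
  rw [h.eta]
  rcases lt_or_ge (Gm N r δ) 20 with hG3 | hG3
  · have hη : η ≤ 13 / 20 * hst N := by
      unfold eo1 om1 at h1
      rw [if_neg (not_lt.2 hG), if_pos hG3] at h1
      linarith only [h1]
    have h2 := ll_sq h0 hη
    have h3 := ll_G hr hG3
    nlinarith only [h2, h3]
  · have hη : η ≤ 3 / 5 * hst N := by
      unfold eo1 om1 at h1
      rw [if_neg (not_lt.2 hG), if_neg (not_lt.2 hG3)] at h1
      linarith only [h1]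
    have h2 := ll_sq h0 hη
    have h3 := hR.I
    unfold RR at h3
    linarith only [h2, h3]

end SokamV3

end

/-! ### Lib_MP_af4de1_v3.CenSum -/

section
namespace SokamF1
end SokamF1
namespace SokamF1M
end SokamF1M
namespace SokamF1S
end SokamF1S
namespace SokamU
end SokamU
namespace SokamV3
end SokamV3
/-! # CEN: the wave bound in helper35's form `WB`, the direction `w = K/ρ`, `κ`, the factor `q ≤ 1 + κ` on
the right (owner helper66) -/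

set_option autoImplicit false

namespace SokamCen

open Complex MeasureTheory SokamU SokamF1 SokamF1S SokamF1M SokamV3

theorem wb {r δ θ m : ℝ} (hr : 0 < r) (hδ : 0 < δ) (hm : 0 < m) : WB r δ θ m := by
  intro c0 c1 c2
  exact wave_cen hr hδ hm θ c0 c1 c2

/-- the direction -/
theorem sK_ww {ρ y : ℝ} (h : Dom ρ y) : sK ρ y / (ρ : ℂ) = ww (-y) (sP ρ y) := by
  have h0 : (ρ : ℂ) ≠ 0 := by exact_mod_cast h.1.ne'
  rw [sK_polar h]
  unfold ww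
  rw [Complex.exp_add]
  push_cast
  field_simp

theorem ww_zero : ww 0 0 = 1 := by
  unfold ww
  simp

/-- `|w| = e^(-y)` -/
theorem nrm_w {ρ y : ℝ} (h : Dom ρ y) : ‖sK ρ y / (ρ : ℂ)‖ = Real.exp (-y) := by
  rw [norm_div, norm_sK h, Complex.norm_real, Real.norm_of_nonneg h.1.le]
  field_simp [h.1.ne']

/-- `|w - 1| ≤ κ = k |η|/√R` -/
theorem w_sub {r δ y η g k q : ℝ} (hr : 0 < r) (hL : Lev r δ y η g k q) :
    ‖sK (r * δ) y / ((r * δ : ℝ) : ℂ) - 1‖ ≤ k * |η| / √(RR r δ) := by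
  have h1 := hL.l1
  rw [kap_eq hr] at h1
  have e : (r : ℂ) * (sK (r * δ) y / ((r * δ : ℝ) : ℂ)) - r =
      r * (sK (r * δ) y / ((r * δ : ℝ) : ℂ) - 1) := by ring
  rw [e, norm_mul, Complex.norm_real, Real.norm_of_nonneg hr.le] at h1
  have e2 : k * (r * |η| / √(RR r δ)) = r * (k * |η| / √(RR r δ)) := by ring
  rw [e2] at h1
  exact le_of_mul_le_mul_left h1 hr

/-- `e^(-y) ≤ 1 + κ` -/
theorem exp_le_kap {r δ y η g k q : ℝ} (hr : 0 < r) (hd : Dom (r * δ) y)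
    (hL : Lev r δ y η g k q) : Real.exp (-y) ≤ 1 + k * |η| / √(RR r δ) := by
  have h1 := w_sub hr hL
  have h2 := nrm_w hd
  have h3 : ‖sK (r * δ) y / ((r * δ : ℝ) : ℂ)‖ ≤
      ‖sK (r * δ) y / ((r * δ : ℝ) : ℂ) - 1‖ + 1 := by
    have := norm_add_le (sK (r * δ) y / ((r * δ : ℝ) : ℂ) - 1) 1
    simpa using this
  linarith

/-- `D ≤ e^(-y) √R` for `y ≤ 0` -/
theorem sD_le_exp {r δ y : ℝ} (hd : Dom (r * δ) y) (hy : y ≤ 0) :
    sD (r * δ) y ≤ Real.exp (-y) * √(RR r δ) := by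
  have h1 := sx_sq_add hd
  have h2 := Real.add_one_le_exp (2 * y)
  have h3 : Real.exp (2 * y) ≤ Real.exp (-y) ^ (2 : ℕ) := by
    rw [← Real.exp_nat_mul]
    apply Real.exp_le_exp.2
    push_cast
    linarith
  have h4 : sD2 (r * δ) y ≤ Real.exp (-y) ^ (2 : ℕ) * RR r δ := by
    unfold sD2 RR
    have : (1 + y) ^ (2 : ℕ) + sx (r * δ) y ^ (2 : ℕ) = 1 + 2 * y + (r * δ * Real.exp (-y)) ^ (2 : ℕ) := by
      linear_combination h1
    rw [this, mul_add, mul_pow]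
    linarith
  unfold sD
  calc √(sD2 (r * δ) y) ≤ √(Real.exp (-y) ^ (2 : ℕ) * RR r δ) := Real.sqrt_le_sqrt h4
    _ = _ := by
      rw [Real.sqrt_mul (by positivity), Real.sqrt_sq (Real.exp_pos _).le]

/-- RIGHT: the factor `q` may be replaced by `1 + κ`. -/
theorem Lev.q1 {r δ y η g k q : ℝ} (hr : 0 < r) (hd : Dom (r * δ) y) (hy : y ≤ 0)
    (hL : Lev r δ y η g k q) : Lev r δ y η g k (1 + k * |η| / √(RR r δ)) :=
  ⟨hL.l0, hL.l1, (sD_le_exp hd hy).trans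
    (mul_le_mul_of_nonneg_right (exp_le_kap hr hd hL) (Real.sqrt_nonneg _))⟩

end SokamCen

end

/-! ### Lib_MP_af4de1_v3.ShfW -/

section
namespace SokamF1
end SokamF1
namespace SokamF1M
end SokamF1M
namespace SokamF1S
end SokamF1S
namespace SokamU
end SokamU
namespace SokamV3
end SokamV3
/-!
# SHIFT: from a `Zone` over `univ` with the base point `w = 1` to `Shf`, in units of `H`

`P = LvF r δ η g q √(1+1/m²)`, `m = mm ρ`, `τ = |η|/h`:
`shf_wK`: base point `w = K/ρ`: `f0 = P I0`, `f1 = √(P I0 · P IW R/h²)`, `f2 = P IW R/h² + P Ie/Γ`;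
`shf_w1`: base point `1`: `f0 = P S0`, `f1 = √(P S0 · P SW R/h²) + k τ P S0`, `f2 = (√(P SW R/h²) + k τ √(P S0))² + P SE/Γ`.
-/

set_option autoImplicit false

namespace SokamCen

open MeasureTheory Set SokamU SokamF1 SokamF1S SokamF1M SokamV3

/-- the full prefactor -/
noncomputable def PF (r δ η g q : ℝ) : ℝ := LvF r δ η g q * √(1 + 1 / mm (r * δ) ^ (2 : ℕ))

theorem PF_nonneg (r δ η g q : ℝ) : 0 ≤ PF r δ η g q :=
  mul_nonneg (LvF_nonneg _ _ _ _ _) (Real.sqrt_nonneg _)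

private theorem mmp (ρ : ℝ) : 0 < mm ρ := by
  unfold mm
  have : 0 < √(1 + ρ ^ (2 : ℕ)) := Real.sqrt_pos.2 (by positivity)
  positivity

private theorem RRp (r δ : ℝ) : 0 < RR r δ := by
  unfold RR
  positivity

private theorem hstp {N : ℕ} (hN : 1 ≤ N) : 0 < hst N := by
  unfold hst
  have : (1 : ℝ) ≤ N := by exact_mod_cast hN
  have := Real.pi_pos
  positivity

/-- FROM ONE ZONE (base point `K/ρ`) TO `Shf`, in units of `H`. -/
theorem shf_wK {N : ℕ} {r δ y η ζ g k q I0 IW Ie f0 f1 f2 : ℝ} (hN : 1 ≤ N) (hr : 0 < r)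
    (hδ : 0 < δ) (hA : At r δ y η) (hL : Lev r δ y η g k q)
    (h0 : 0 ≤ I0) (hW : 0 ≤ IW) (hE : 0 ≤ Ie)
    (Z : Zone r (mm (r * δ)) (r * δ) (η + ζ) (sK (r * δ) y / (r * δ : ℝ)) univ I0 IW Ie)
    (hf0 : PF r δ η g q * I0 ≤ f0)
    (hf1 : √(PF r δ η g q * I0 * (PF r δ η g q * IW * (RR r δ / hst N ^ (2 : ℕ)))) ≤ f1)
    (hf2 : PF r δ η g q * IW * (RR r δ / hst N ^ (2 : ℕ)) + PF r δ η g q * Ie / Gm N r δ ≤ f2) :
    Shf r δ y ζ (HH N r δ) f0 f1 f2 := by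
  have hh := hstp hN
  have hR := RRp r δ
  have hsR : 0 < √(RR r δ) := Real.sqrt_pos.2 hR
  have hsq : √(RR r δ) ^ (2 : ℕ) = RR r δ := Real.sq_sqrt hR.le
  have hP := PF_nonneg r δ η g q
  have e1 : LvF r δ η g q * √(1 + 1 / mm (r * δ) ^ (2 : ℕ)) = PF r δ η g q := rfl
  set P := PF r δ η g q with hPd
  refine shf_zone (L := LvF r δ η g q) (m := mm (r * δ)) hr hδ hA hL (wb hr hδ (mmp _)) le_rfl
    h0 hW hE Z ?_ ?_ ?_
  · rwa [e1]
  · rw [e1, Real.sqrt_mul h0]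
    have e2 : √(P * I0 * (P * IW * (RR r δ / hst N ^ (2 : ℕ)))) =
        P * (√I0 * √IW) * (√(RR r δ) / hst N) := by
      have e3 : P * I0 * (P * IW * (RR r δ / hst N ^ (2 : ℕ))) =
          (P * (√I0 * √IW) * (√(RR r δ) / hst N)) ^ (2 : ℕ) := by
        rw [mul_pow, mul_pow, mul_pow, div_pow, hsq, Real.sq_sqrt h0, Real.sq_sqrt hW]
        ring
      rw [e3, Real.sqrt_sq (by positivity)]
    rw [e2] at hf1
    have e4 : P * (r * (√I0 * √IW)) = (P * (√I0 * √IW) * (√(RR r δ) / hst N)) * HH N r δ := by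
      unfold HH
      field_simp
    rw [e4]
    exact mul_le_mul_of_nonneg_right hf1 (by unfold HH; positivity)
  · rw [e1]
    have e4 : P * (r ^ (2 : ℕ) * IW + r * Ie) =
        (P * IW * (RR r δ / hst N ^ (2 : ℕ)) + P * Ie / Gm N r δ) * HH N r δ ^ (2 : ℕ) := by
      unfold HH Gm
      rw [div_pow, hsq]
      field_simp
    rw [e4]
    exact mul_le_mul_of_nonneg_right hf2 (by positivity)

/-- FROM ONE ZONE (base point `1`) TO `Shf`. -/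
theorem shf_w1 {N : ℕ} {r δ y η ζ g k q S0 SW SE f0 f1 f2 : ℝ} (hN : 1 ≤ N) (hr : 0 < r)
    (hδ : 0 < δ) (hA : At r δ y η) (hL : Lev r δ y η g k q) (hk : 0 ≤ k)
    (h0 : 0 ≤ S0) (hW : 0 ≤ SW) (hE : 0 ≤ SE)
    (Z : Zone r (mm (r * δ)) (r * δ) (η + ζ) 1 univ S0 SW SE)
    (hf0 : PF r δ η g q * S0 ≤ f0)
    (hf1 : √(PF r δ η g q * S0 * (PF r δ η g q * SW * (RR r δ / hst N ^ (2 : ℕ)))) +
      k * (|η| / hst N) * (PF r δ η g q * S0) ≤ f1)
    (hf2 : (√(PF r δ η g q * SW * (RR r δ / hst N ^ (2 : ℕ))) +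
      k * (|η| / hst N) * √(PF r δ η g q * S0)) ^ (2 : ℕ) + PF r δ η g q * SE / Gm N r δ ≤ f2) :
    Shf r δ y ζ (HH N r δ) f0 f1 f2 := by
  have hh := hstp hN
  have hR := RRp r δ
  have hsR : 0 < √(RR r δ) := Real.sqrt_pos.2 hR
  have hsq : √(RR r δ) ^ (2 : ℕ) = RR r δ := Real.sq_sqrt hR.le
  have hκ := w_sub hr hL
  have hP := PF_nonneg r δ η g q
  set κ := k * |η| / √(RR r δ) with hκd
  have hκ0 : 0 ≤ κ := by rw [hκd]; positivity
  have Z1 := Z.tri h0 hW hκ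
  have e1 : LvF r δ η g q * √(1 + 1 / mm (r * δ) ^ (2 : ℕ)) = PF r δ η g q := rfl
  set P := PF r δ η g q with hPd
  refine shf_zone (L := LvF r δ η g q) (m := mm (r * δ)) hr hδ hA hL (wb hr hδ (mmp _)) le_rfl
    h0 (by positivity) hE Z1 ?_ ?_ ?_
  · rwa [e1]
  · rw [e1, Real.sqrt_mul h0, Real.sqrt_sq (by positivity)]
    have e2 : √(P * S0 * (P * SW * (RR r δ / hst N ^ (2 : ℕ)))) =
        P * (√S0 * √SW) * (√(RR r δ) / hst N) := by
      have e3 : P * S0 * (P * SW * (RR r δ / hst N ^ (2 : ℕ))) =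
          (P * (√S0 * √SW) * (√(RR r δ) / hst N)) ^ (2 : ℕ) := by
        rw [mul_pow, mul_pow, mul_pow, div_pow, hsq, Real.sq_sqrt h0, Real.sq_sqrt hW]
        ring
      rw [e3, Real.sqrt_sq (by positivity)]
    rw [e2] at hf1
    have e4 : P * (r * (√S0 * (√SW + κ * √S0))) = (P * (√S0 * √SW) * (√(RR r δ) / hst N) +
        k * (|η| / hst N) * (P * S0)) * HH N r δ := by
      unfold HH
      rw [hκd]
      have e5 : √S0 * √S0 = S0 := Real.mul_self_sqrt h0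
      field_simp
      linear_combination (k * |η|) * P * e5
    rw [e4]
    exact mul_le_mul_of_nonneg_right hf1 (by unfold HH; positivity)
  · rw [e1]
    have e2 : √(P * SW * (RR r δ / hst N ^ (2 : ℕ))) = √P * √SW * (√(RR r δ) / hst N) := by
      have e3 : P * SW * (RR r δ / hst N ^ (2 : ℕ)) = (√P * √SW * (√(RR r δ) / hst N)) ^ (2 : ℕ) := by
        rw [mul_pow, mul_pow, div_pow, hsq, Real.sq_sqrt hP, Real.sq_sqrt hW]
      rw [e3, Real.sqrt_sq (by positivity)]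
    have e2' : √(P * S0) = √P * √S0 := Real.sqrt_mul hP _
    rw [e2, e2'] at hf2
    have e4 : P * (r ^ (2 : ℕ) * (√SW + κ * √S0) ^ (2 : ℕ) + r * SE) =
        ((√P * √SW * (√(RR r δ) / hst N) + k * (|η| / hst N) * (√P * √S0)) ^ (2 : ℕ) +
          P * SE / Gm N r δ) * HH N r δ ^ (2 : ℕ) := by
      have e6 : (√P * √SW * (√(RR r δ) / hst N) + k * (|η| / hst N) * (√P * √S0)) ^ (2 : ℕ) =
          P * ((√SW + κ * √S0) ^ (2 : ℕ) * (RR r δ / hst N ^ (2 : ℕ))) := by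
        have e7 : √P * √SW * (√(RR r δ) / hst N) + k * (|η| / hst N) * (√P * √S0) =
            √P * ((√SW + κ * √S0) * (√(RR r δ) / hst N)) := by
          rw [hκd]
          field_simp
        rw [e7, mul_pow, mul_pow, Real.sq_sqrt hP, div_pow, hsq]
      rw [e6]
      unfold HH Gm
      rw [div_pow, hsq]
      field_simp
    rw [e4]
    exact mul_le_mul_of_nonneg_right hf2 (by positivity)

end SokamCen

end

/-! ### Lib_MP_af4de1_v3.ShfH -/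

section
namespace SokamF1
end SokamF1
namespace SokamF1M
end SokamF1M
namespace SokamF1S
end SokamF1S
namespace SokamU
end SokamU
namespace SokamV3
end SokamV3
/-!
# SHIFT, N-free forms (for field `e`): `shf_wK`, `shf_w1`, `shf_TL`, `shfR_cen` with a real `h > 0` instead
of `hst N`; `Shf` is homogeneous in `H` (`shf_scale`) and monotone (`shf_mono`)
-/

set_option autoImplicit false

namespace SokamCen

open MeasureTheory Set SokamU SokamF1 SokamF1S SokamF1M SokamV3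

theorem shf_mono {r δ y ζ H f0 f1 f2 g0 g1 g2 : ℝ} (h : Shf r δ y ζ H f0 f1 f2) (hy : -1 < y)
    (hH : 0 ≤ H) (h0 : f0 ≤ g0) (h1 : f1 ≤ g1) (h2 : f2 ≤ g2) : Shf r δ y ζ H g0 g1 g2 := by
  have hM := sM_pos (r := r) (δ := δ) hy
  refine ⟨h.s0.trans ?_, h.s1.trans ?_, h.s2.trans ?_⟩
  · gcongr
  · gcongr
  · gcongr

/-- homogeneity in `H` -/
theorem shf_scale {r δ y ζ H H' s f0 f1 f2 : ℝ} (h : Shf r δ y ζ H' f0 f1 f2) (hH : H' = s * H) :
    Shf r δ y ζ H f0 (f1 * s) (f2 * s ^ (2 : ℕ)) := by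
  subst hH
  refine ⟨h.s0, h.s1.trans (le_of_eq ?_), h.s2.trans (le_of_eq ?_)⟩
  · ring
  · ring

private theorem sh_mmp (ρ : ℝ) : 0 < mm ρ := by
  unfold mm
  have : 0 < √(1 + ρ ^ (2 : ℕ)) := Real.sqrt_pos.2 (by positivity)
  positivity

private theorem sh_RRp (r δ : ℝ) : 0 < RR r δ := by
  unfold RR
  positivity

/-- base point `K/ρ`, real `h` -/
theorem shf_wKh {r δ y η ζ g k q h I0 IW Ie f0 f1 f2 : ℝ} (hh : 0 < h) (hr : 0 < r)
    (hδ : 0 < δ) (hA : At r δ y η) (hL : Lev r δ y η g k q)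
    (h0 : 0 ≤ I0) (hW : 0 ≤ IW) (hE : 0 ≤ Ie)
    (Z : Zone r (mm (r * δ)) (r * δ) (η + ζ) (sK (r * δ) y / (r * δ : ℝ)) univ I0 IW Ie)
    (hf0 : PF r δ η g q * I0 ≤ f0)
    (hf1 : √(PF r δ η g q * I0 * (PF r δ η g q * IW * (RR r δ / h ^ (2 : ℕ)))) ≤ f1)
    (hf2 : PF r δ η g q * IW * (RR r δ / h ^ (2 : ℕ)) + PF r δ η g q * Ie / (r * h ^ (2 : ℕ) / RR r δ) ≤ f2) :
    Shf r δ y ζ (r * h / √(RR r δ)) f0 f1 f2 := by
  have hR := sh_RRp r δ
  have hsR : 0 < √(RR r δ) := Real.sqrt_pos.2 hR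
  have hsq : √(RR r δ) ^ (2 : ℕ) = RR r δ := Real.sq_sqrt hR.le
  have hP := PF_nonneg r δ η g q
  have e1 : LvF r δ η g q * √(1 + 1 / mm (r * δ) ^ (2 : ℕ)) = PF r δ η g q := rfl
  set P := PF r δ η g q with hPd
  refine shf_zone (L := LvF r δ η g q) (m := mm (r * δ)) hr hδ hA hL (wb hr hδ (sh_mmp _)) le_rfl
    h0 hW hE Z ?_ ?_ ?_
  · rwa [e1]
  · rw [e1, Real.sqrt_mul h0]
    have e2 : √(P * I0 * (P * IW * (RR r δ / h ^ (2 : ℕ)))) =
        P * (√I0 * √IW) * (√(RR r δ) / h) := by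
      have e3 : P * I0 * (P * IW * (RR r δ / h ^ (2 : ℕ))) =
          (P * (√I0 * √IW) * (√(RR r δ) / h)) ^ (2 : ℕ) := by
        rw [mul_pow, mul_pow, mul_pow, div_pow, hsq, Real.sq_sqrt h0, Real.sq_sqrt hW]
        ring
      rw [e3, Real.sqrt_sq (by positivity)]
    rw [e2] at hf1
    have e4 : P * (r * (√I0 * √IW)) = (P * (√I0 * √IW) * (√(RR r δ) / h)) *
        (r * h / √(RR r δ)) := by
      field_simp
    rw [e4]
    exact mul_le_mul_of_nonneg_right hf1 (by positivity)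
  · rw [e1]
    have e4 : P * (r ^ (2 : ℕ) * IW + r * Ie) =
        (P * IW * (RR r δ / h ^ (2 : ℕ)) + P * Ie / (r * h ^ (2 : ℕ) / RR r δ)) * (r * h / √(RR r δ)) ^ (2 : ℕ) := by
      rw [div_pow, hsq]
      field_simp
    rw [e4]
    exact mul_le_mul_of_nonneg_right hf2 (by positivity)

end SokamCen

end

/-! ### Lib_MP_af4de1_v3.CelCov -/

section
namespace SokamCen
end SokamCen
namespace SokamF1
end SokamF1
namespace SokamFN
end SokamFN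
namespace SokamV3
end SokamV3
/-!
# Cells: from `Reg1` and the window to the scaled variables (both sides) (helper6)

`c = 1/√R`, `ν = ρ/√R`, `c² + ν² = 1`, `h = hst N`, `τ = |η|/h`, `Γ = Gm N r δ`, `r = Γ/(h c)²`, `ρ = ν/c`,
`m = mm ρ = (5/4)/c`, `H = HH N r δ = Γ/(h c)`.
-/

set_option autoImplicit false

namespace SokamCel

open SokamFN SokamF1 SokamV3 SokamCen

/-- the scaled variables of a point, without `N` -/
structure Scl0 (r δ η c ν h τ Γ : ℝ) : Prop where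
  c0 : 0 < c
  c1 : c < 1
  n0 : 0 < ν
  n1 : ν < 1
  cn : c ^ (2 : ℕ) + ν ^ (2 : ℕ) = 1
  h0 : 0 < h
  u0 : 0 ≤ τ
  eη : |η| = τ * h
  Gr : Γ = r * (h * c) ^ (2 : ℕ)
  G1 : 499 / 10 * (h * c) ^ (2 : ℕ) ≤ Γ
  er : r = Γ / (h * c) ^ (2 : ℕ)
  eρ : r * δ = ν / c
  eR : √(RR r δ) = 1 / c
  eRR : RR r δ = 1 / c ^ (2 : ℕ)
  em : mm (r * δ) = 5 / 4 / c

/-- the scaled variables of a point of regime I -/
structure Scl (N : ℕ) (r δ η c ν h τ Γ : ℝ) : Prop extends Scl0 r δ η c ν h τ Γ where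
  h1 : h ≤ 2 * Real.pi / 3
  eh : h = hst N
  eG : Γ = Gm N r δ
  G0 : 27 / 5 ≤ Γ
  hc : (h * c) ^ (2 : ℕ) ≤ 11 / 10
  eH : HH N r δ = Γ / (h * c)

theorem hst_pos3 {N : ℕ} (hN : 3 ≤ N) : 0 < hst N := by
  have h : (3 : ℝ) ≤ N := by exact_mod_cast hN
  have := Real.pi_pos
  unfold hst
  positivity

theorem hst_le3 {N : ℕ} (hN : 3 ≤ N) : hst N ≤ 2 * Real.pi / 3 := by
  have h : (3 : ℝ) ≤ N := by exact_mod_cast hN
  have := Real.pi_pos
  unfold hst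
  exact div_le_div_of_nonneg_left (by positivity) (by norm_num) h

/-- the scaled variables for any `h > 0` -/
theorem scl0 {r δ h : ℝ} (hr49 : 499 / 10 ≤ r) (hd : 0 < δ) (h0 : 0 < h) (η : ℝ) :
    Scl0 r δ η (1 / √(RR r δ)) (r * δ / √(RR r δ)) h (|η| / h) (r * (h * (1 / √(RR r δ))) ^ (2 : ℕ)) := by
  have hr : 0 < r := by linarith
  have hρ : 0 < r * δ := mul_pos hr hd
  have hRR : RR r δ = 1 + (r * δ) ^ (2 : ℕ) := rfl
  have hR1 : 1 < RR r δ := by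
    rw [hRR]
    have : 0 < (r * δ) ^ (2 : ℕ) := by positivity
    linarith
  have hR0 : 0 < RR r δ := by linarith
  obtain ⟨S, hS⟩ : ∃ S, S = √(RR r δ) := ⟨_, rfl⟩
  have hS2 : S ^ (2 : ℕ) = RR r δ := by rw [hS]; exact Real.sq_sqrt hR0.le
  have hS0 : 0 < S := by rw [hS]; exact Real.sqrt_pos.2 hR0
  have hS1 : 1 < S := by
    by_contra h
    push Not at h
    nlinarith
  have hρS : r * δ < S := by
    by_contra h
    push Not at h
    nlinarith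
  have hRS : (r * δ) ^ (2 : ℕ) = S ^ (2 : ℕ) - 1 := by rw [hS2, hRR]; ring
  rw [← hS]
  refine ⟨by (clear * - hS0; positivity), ?_, by (clear * - hr49 hd hS0; positivity), ?_, ?_, h0, by (clear * - h0; positivity), ?_, rfl, ?_, ?_, ?_, ?_, ?_, ?_⟩
  · rw [div_lt_one hS0]; exact hS1
  · rw [div_lt_one hS0]; exact hρS
  · rw [div_pow, div_pow, hRS]
    field_simp
    ring
  · field_simp
  · gcongr
  · field_simp
  · field_simp
  · rw [hS]
    simp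
  · rw [← hS2]
    field_simp
  · unfold mm
    rw [← hRR, ← hS]
    field_simp

theorem scl {N : ℕ} {r δ : ℝ} (hR : Reg1 N r δ) (η : ℝ) :
    Scl N r δ η (1 / √(RR r δ)) (r * δ / √(RR r δ)) (hst N) (|η| / hst N) (Gm N r δ) := by
  have hr : 0 < r := by linarith [hR.r0]
  have hd := hR.d0
  have h0 := hst_pos3 hR.N3
  have h1 := scl0 hR.r0 hd h0 η
  have hR0 : 0 < RR r δ := by
    unfold RR
    positivity
  obtain ⟨S, hS⟩ : ∃ S, S = √(RR r δ) := ⟨_, rfl⟩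
  have hS2 : S ^ (2 : ℕ) = RR r δ := by rw [hS]; exact Real.sq_sqrt hR0.le
  have hS0 : 0 < S := by rw [hS]; exact Real.sqrt_pos.2 hR0
  rw [← hS] at h1 ⊢
  have hGe : Gm N r δ = r * (hst N * (1 / S)) ^ (2 : ℕ) := by
    have : Gm N r δ = r * hst N ^ (2 : ℕ) / S ^ (2 : ℕ) := by rw [hS2]; rfl
    rw [this]
    field_simp
  rw [← hGe] at h1
  refine ⟨h1, hst_le3 hR.N3, rfl, rfl, hR.G, ?_, ?_⟩
  · have : (hst N * (1 / S)) ^ (2 : ℕ) = hst N ^ (2 : ℕ) / S ^ (2 : ℕ) := by field_simp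
    rw [this, div_le_iff₀ (by (clear * - hS0; positivity)), hS2]
    exact hR.I
  · rw [hGe]
    unfold HH
    rw [← hS]
    field_simp

section

variable {N : ℕ} {r δ η c ν h τ Γ : ℝ}

theorem Scl0.Gpos (s : Scl0 r δ η c ν h τ Γ) : 0 < Γ := by
  have h1 := s.G1
  have h2 := s.c0
  have h3 := s.h0
  have h4 : 0 < 499 / 10 * (h * c) ^ (2 : ℕ) := by (clear * - h3 h2; positivity)
  linarith

theorem Scl0.rpos (s : Scl0 r δ η c ν h τ Γ) : 0 < r := by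
  have h1 := s.Gpos
  have h2 := s.c0
  have h3 := s.h0
  rw [s.er]
  (clear * - h1 h3 h2; positivity)

theorem Scl0.r49 (s : Scl0 r δ η c ν h τ Γ) : 499 / 10 ≤ r := by
  have h2 := s.c0
  have h3 := s.h0
  rw [s.er, le_div_iff₀ (by positivity)]
  exact s.G1

theorem Scl0.rho0 (s : Scl0 r δ η c ν h τ Γ) : 0 < r * δ := by
  rw [s.eρ]
  exact div_pos s.n0 s.c0

/-- `|η|/√R` -/
theorem Scl0.eηR (s : Scl0 r δ η c ν h τ Γ) : |η| / √(RR r δ) = τ * (h * c) := by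
  have h2 := s.c0
  rw [s.eR, s.eη]
  field_simp

/-- exponent of the level factor -/
theorem Scl0.eηG (s : Scl0 r δ η c ν h τ Γ) : r * η ^ (2 : ℕ) / RR r δ = Γ * τ ^ (2 : ℕ) := by
  have h2 := s.c0
  have h3 := s.h0
  have h4 : η ^ (2 : ℕ) = (τ * h) ^ (2 : ℕ) := by rw [← s.eη, sq_abs]
  rw [h4, s.eRR, s.Gr]
  field_simp

/-- the level factor -/
theorem Scl0.LvF (s : Scl0 r δ η c ν h τ Γ) (g q : ℝ) : LvF r δ η g q =
    √(r * c / (2 * Real.pi * ν)) * √(q / c) * Real.exp (g / 2 * Γ * τ ^ (2 : ℕ)) := by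
  have h2 := s.c0
  have h3 := s.n0
  unfold SokamCen.LvF
  rw [s.eR, s.eηG, s.eρ]
  congr 1
  · congr 1
    · congr 1
      field_simp
    · congr 1
      ring
  · congr 1
    ring

/-- THE IDENTITY of the level factor times a Gaussian -/
theorem Scl0.P (s : Scl0 r δ η c ν h τ Γ) {g q μ X : ℝ} (hq : 0 ≤ q) (hμ : 0 < μ) (hX : 0 < X) :
    SokamCen.LvF r δ η g q * √(1 + 1 / (μ / c) ^ (2 : ℕ)) * √(Real.pi / (r * X)) =
      √(q * (1 + c ^ (2 : ℕ) / μ ^ (2 : ℕ)) / (2 * ν * X)) * Real.exp (g / 2 * Γ * τ ^ (2 : ℕ)) := by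
  have h2 := s.c0
  have h3 := s.n0
  have h4 := s.rpos
  have hpi := Real.pi_pos
  rw [s.LvF g q]
  have e1 : √(r * c / (2 * Real.pi * ν)) * √(q / c) * √(1 + 1 / (μ / c) ^ (2 : ℕ)) *
      √(Real.pi / (r * X)) = √(q * (1 + c ^ (2 : ℕ) / μ ^ (2 : ℕ)) / (2 * ν * X)) := by
    rw [← Real.sqrt_mul (by (clear * - h4 h2 h3; positivity)), ← Real.sqrt_mul (by (clear * - h4 h2 h3 hq; positivity)),
      ← Real.sqrt_mul (by (clear * - h4 h2 h3 hq hμ; positivity))]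
    congr 1
    field_simp
  calc √(r * c / (2 * Real.pi * ν)) * √(q / c) * Real.exp (g / 2 * Γ * τ ^ (2 : ℕ)) *
        √(1 + 1 / (μ / c) ^ (2 : ℕ)) * √(Real.pi / (r * X))
      = (√(r * c / (2 * Real.pi * ν)) * √(q / c) * √(1 + 1 / (μ / c) ^ (2 : ℕ)) *
        √(Real.pi / (r * X))) * Real.exp (g / 2 * Γ * τ ^ (2 : ℕ)) := by ring
    _ = _ := by rw [e1]

/-- the same identity without the Gaussian: `P = (h c)⁻¹ √(q (1 + c²/μ²) Γ/(2 π ν)) e^(g Γ τ²/2)` -/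
theorem Scl0.P' (s : Scl0 r δ η c ν h τ Γ) {g q μ : ℝ} (hq : 0 ≤ q) (hμ : 0 < μ) :
    SokamCen.LvF r δ η g q * √(1 + 1 / (μ / c) ^ (2 : ℕ)) =
      √(q * (1 + c ^ (2 : ℕ) / μ ^ (2 : ℕ)) * Γ / (2 * Real.pi * ν)) / (h * c) *
        Real.exp (g / 2 * Γ * τ ^ (2 : ℕ)) := by
  have h2 := s.c0
  have h3 := s.n0
  have h4 := s.rpos
  have h5 := s.h0
  have h6 := s.Gpos
  have hpi := Real.pi_pos
  rw [s.LvF g q]
  have e1 : √(r * c / (2 * Real.pi * ν)) * √(q / c) * √(1 + 1 / (μ / c) ^ (2 : ℕ)) =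
      √(q * (1 + c ^ (2 : ℕ) / μ ^ (2 : ℕ)) * Γ / (2 * Real.pi * ν)) / (h * c) := by
    rw [eq_div_iff (by (clear * - h5 h2; positivity))]
    have e2 : h * c = √((h * c) ^ (2 : ℕ)) := (Real.sqrt_sq (by (clear * - h5 h2; positivity))).symm
    rw [← Real.sqrt_mul (by (clear * - h4 h2 h3; positivity)), ← Real.sqrt_mul (by (clear * - h4 h2 h3 hq; positivity))]
    conv_lhs => rw [e2]
    rw [← Real.sqrt_mul (by (clear * - h4 h2 h3 hq hμ; positivity)), s.Gr]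
    congr 1
    field_simp
  calc √(r * c / (2 * Real.pi * ν)) * √(q / c) * Real.exp (g / 2 * Γ * τ ^ (2 : ℕ)) *
        √(1 + 1 / (μ / c) ^ (2 : ℕ))
      = (√(r * c / (2 * Real.pi * ν)) * √(q / c) * √(1 + 1 / (μ / c) ^ (2 : ℕ))) *
        Real.exp (g / 2 * Γ * τ ^ (2 : ℕ)) := by ring
    _ = _ := by rw [e1]

/-! ### the window -/

theorem Scl.tau_le (s : Scl N r δ η c ν h τ Γ) {a : ℝ} (h1 : |η| ≤ a * hst N) : τ ≤ a := by
  have h2 := s.h0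
  rw [s.eη, ← s.eh] at h1
  exact le_of_mul_le_mul_right h1 h2

theorem Scl.le_tau (s : Scl N r δ η c ν h τ Γ) {a : ℝ} (h1 : a * hst N ≤ |η|) : a ≤ τ := by
  have h2 := s.h0
  rw [s.eη, ← s.eh] at h1
  exact le_of_mul_le_mul_right h1 h2

/-- `|η| ≤ eo1`, `Γ < 10` -/
theorem Scl.eoA (s : Scl N r δ η c ν h τ Γ) (hG : Gm N r δ < 10) (h1 : |η| ≤ eo1 N r δ) :
    τ ≤ 3 / 4 := by
  apply s.tau_le
  have : om1 N r δ = 1 / 4 := by unfold om1; rw [if_pos hG]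
  unfold eo1 at h1
  rw [this] at h1
  linarith

/-- `|η| ≤ eo1`, `10 ≤ Γ < 20` -/
theorem Scl.eoB (s : Scl N r δ η c ν h τ Γ) (hG : 10 ≤ Gm N r δ) (hG2 : Gm N r δ < 20)
    (h1 : |η| ≤ eo1 N r δ) : τ ≤ 13 / 20 := by
  apply s.tau_le
  have : om1 N r δ = 3 / 20 := by unfold om1; rw [if_neg (not_lt.2 hG), if_pos hG2]
  unfold eo1 at h1
  rw [this] at h1
  linarith

/-- `|η| ≤ eo1`, `20 ≤ Γ` -/
theorem Scl.eoC (s : Scl N r δ η c ν h τ Γ) (hG : 20 ≤ Gm N r δ) (h1 : |η| ≤ eo1 N r δ) :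
    τ ≤ 3 / 5 := by
  apply s.tau_le
  have : om1 N r δ = 1 / 10 := by
    unfold om1; rw [if_neg (not_lt.2 (by linarith)), if_neg (not_lt.2 hG)]
  unfold eo1 at h1
  rw [this] at h1
  linarith

/-- `ei1 ≤ |η|`, `Γ < 10` -/
theorem Scl.eiA (s : Scl N r δ η c ν h τ Γ) (hG : Gm N r δ < 10) (h1 : ei1 N r δ ≤ |η|) :
    1 / 4 ≤ τ := by
  apply s.le_tau
  have : om1 N r δ = 1 / 4 := by unfold om1; rw [if_pos hG]
  unfold ei1 at h1
  rw [this] at h1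
  linarith

theorem Scl.eiB (s : Scl N r δ η c ν h τ Γ) (hG : 10 ≤ Gm N r δ) (hG2 : Gm N r δ < 20)
    (h1 : ei1 N r δ ≤ |η|) : 7 / 20 ≤ τ := by
  apply s.le_tau
  have : om1 N r δ = 3 / 20 := by unfold om1; rw [if_neg (not_lt.2 hG), if_pos hG2]
  unfold ei1 at h1
  rw [this] at h1
  linarith

theorem Scl.eiC (s : Scl N r δ η c ν h τ Γ) (hG : 20 ≤ Gm N r δ) (h1 : ei1 N r δ ≤ |η|) :
    2 / 5 ≤ τ := by
  apply s.le_tau
  have : om1 N r δ = 1 / 10 := by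
    unfold om1; rw [if_neg (not_lt.2 (by linarith)), if_neg (not_lt.2 hG)]
  unfold ei1 at h1
  rw [this] at h1
  linarith

/-- `|η| ≤ ei1`, `Γ < 10` -/
theorem Scl.inA (s : Scl N r δ η c ν h τ Γ) (hG : Gm N r δ < 10) (h1 : |η| ≤ ei1 N r δ) :
    τ ≤ 1 / 4 := by
  apply s.tau_le
  have : om1 N r δ = 1 / 4 := by unfold om1; rw [if_pos hG]
  unfold ei1 at h1
  rw [this] at h1
  linarith

theorem Scl.inB (s : Scl N r δ η c ν h τ Γ) (hG : 10 ≤ Gm N r δ) (hG2 : Gm N r δ < 20)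
    (h1 : |η| ≤ ei1 N r δ) : τ ≤ 7 / 20 := by
  apply s.tau_le
  have : om1 N r δ = 3 / 20 := by unfold om1; rw [if_neg (not_lt.2 hG), if_pos hG2]
  unfold ei1 at h1
  rw [this] at h1
  linarith

theorem Scl.inC (s : Scl N r δ η c ν h τ Γ) (hG : 20 ≤ Gm N r δ) (h1 : |η| ≤ ei1 N r δ) :
    τ ≤ 2 / 5 := by
  apply s.tau_le
  have : om1 N r δ = 1 / 10 := by
    unfold om1; rw [if_neg (not_lt.2 (by linarith)), if_neg (not_lt.2 hG)]
  unfold ei1 at h1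
  rw [this] at h1
  linarith

/-! ### the angle `θ = η + ζ`, `ζ = ± i h` -/

/-- left: `η + i h = t = (i + τ) h ≤ π` -/
theorem Scl.tL (s : Scl N r δ η c ν h τ Γ) (hη : 0 ≤ η) {i : ℝ} :
    η + i * hst N = (i + τ) * h := by
  have h1 := s.eη
  rw [abs_of_nonneg hη] at h1
  rw [h1, ← s.eh]
  ring

/-- right: `η - i h = -t`, `t = (i + τ) h ≤ π` -/
theorem Scl.tR (s : Scl N r δ η c ν h τ Γ) (hη : η ≤ 0) {i : ℝ} :
    η + -(i * hst N) = -((i + τ) * h) := by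
  have h1 := s.eη
  rw [abs_of_nonpos hη] at h1
  rw [← s.eh]
  linarith

end

/-! ### the two charts of the arc `c² + ν² = 1` -/

/-- the arc is covered -/
theorem chart {c ν : ℝ} (h : c ^ (2 : ℕ) + ν ^ (2 : ℕ) = 1) : c ≤ 7 / 10 ∨ ν ≤ 18 / 25 := by
  by_contra hn
  push Not at hn
  obtain ⟨h1, h2⟩ := hn
  nlinarith

/-- the interval of the other variable -/
theorem chart_c {c ν : ℝ} {a : I} (hc : Mem c a) (h : c ^ (2 : ℕ) + ν ^ (2 : ℕ) = 1) (hν : 0 ≤ ν) :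
    Mem ν (ico a) := Mem.co hc h hν

theorem chart_n {c ν : ℝ} {a : I} (hn : Mem ν a) (h : c ^ (2 : ℕ) + ν ^ (2 : ℕ) = 1) (hc : 0 ≤ c) :
    Mem c (ico a) := Mem.co hn (by linarith) hc

/-- REDUCTION, both sides: a statement on the scaled variables gives the statement for `Reg1`. -/
theorem reduce {N : ℕ} {r δ η : ℝ} (hR : Reg1 N r δ) {P : Prop}
    (H : ∀ c ν h τ Γ : ℝ, Scl N r δ η c ν h τ Γ → (c ≤ 7 / 10 ∨ ν ≤ 18 / 25) → P) : P :=
  H _ _ _ _ _ (scl hR η) (chart (scl hR η).cn)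

end SokamCel

end

/-! ### Lib_MP_af4de1_v3.BrG -/

section
namespace SokamCen
end SokamCen
namespace SokamF1
end SokamF1
namespace SokamFN
end SokamFN
namespace SokamV3
end SokamV3
/-!
# Bridge, both sides: the truncated Gaussians of `CenDef.lean` times the level factor in scaled variables (helper6)

`A = a c²/ν`, `Q = a c² + ν B`, `t = u h`, weights `a0 = α0 (h c)²`, `a1 = α1 c²`, `a2 = α2`, `l = λ (h c)²`.
`z0 = PF · g0`, `zW = PF · gW · R/h²`.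
-/

set_option autoImplicit false

namespace SokamCel

open SokamFN SokamF1 SokamV3 SokamCen Real

/-- `e^(-Γ e0)` -/
noncomputable def zX (g c ν τ Γ u a B l : ℝ) : ℝ :=
  exp (-(Γ * (u ^ (2 : ℕ) * (1 / (c ^ (2 : ℕ) / B + ν / a)) - l - g / 2 * τ ^ (2 : ℕ))))

/-- the part beyond the centre -/
noncomputable def zY (g c ν τ Γ u a B l : ℝ) : ℝ :=
  min (zX g c ν τ Γ u a B l / 2)
    (√Γ * (u * a * c / √(π * ν * (a * c ^ (2 : ℕ) + ν * B))) * zX g c ν τ Γ u a B l)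

/-- `PF · g0` -/
noncomputable def z0 (μ q g c ν τ Γ u a B l : ℝ) : ℝ :=
  √(q * (1 + c ^ (2 : ℕ) / μ ^ (2 : ℕ)) / (2 * (a * c ^ (2 : ℕ) + ν * B))) *
    (zX g c ν τ Γ u a B l / 2 + zY g c ν τ Γ u a B l)

/-- `PF · gW · R/h²` -/
noncomputable def zW (μ q g c ν τ Γ u a B l w0 w1 w2 : ℝ) : ℝ :=
  √(q * (1 + c ^ (2 : ℕ) / μ ^ (2 : ℕ)) / (2 * (a * c ^ (2 : ℕ) + ν * B))) *
    min (zX g c ν τ Γ u a B l * (w0 +
        w1 * (u ^ (2 : ℕ) * (ν * B / (a * c ^ (2 : ℕ) + ν * B)) ^ (2 : ℕ) +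
          c ^ (2 : ℕ) * (ν / (2 * Γ * (a * c ^ (2 : ℕ) + ν * B)))) +
        w2 * ((u * (a * c / (a * c ^ (2 : ℕ) + ν * B))) ^ (2 : ℕ) + ν / (2 * Γ * (a * c ^ (2 : ℕ) + ν * B)))))
      (zX g c ν τ Γ u a B l / 2 * (w0 +
        w1 * (u ^ (2 : ℕ) * (ν * B / (a * c ^ (2 : ℕ) + ν * B)) ^ (2 : ℕ) +
          c ^ (2 : ℕ) * (ν / (2 * Γ * (a * c ^ (2 : ℕ) + ν * B)))) +
        w2 * ((u * (a * c / (a * c ^ (2 : ℕ) + ν * B))) ^ (2 : ℕ) +
          2 * (u * (a * c / (a * c ^ (2 : ℕ) + ν * B))) * √(ν / (π * Γ * (a * c ^ (2 : ℕ) + ν * B))) +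
          ν / (2 * Γ * (a * c ^ (2 : ℕ) + ν * B)))) +
      zY g c ν τ Γ u a B l * (w0 + w1 * u ^ (2 : ℕ) + w2 * (u * (a * c / (a * c ^ (2 : ℕ) + ν * B))) ^ (2 : ℕ)))

/-! ### helpers for `min` -/

theorem mul_min_comm {k x y : ℝ} (h : 0 ≤ k) : k * min x y = min (k * x) (k * y) := by
  rcases le_total x y with h1 | h1
  · rw [min_eq_left h1, min_eq_left (mul_le_mul_of_nonneg_left h1 h)]
  · rw [min_eq_right h1, min_eq_right (mul_le_mul_of_nonneg_left h1 h)]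

section

variable {r δ η c ν h τ Γ a B u : ℝ}

/-- `A + B` -/
theorem zAB (hν : 0 < ν) : a * c ^ (2 : ℕ) / ν + B = (a * c ^ (2 : ℕ) + ν * B) / ν := by
  field_simp

theorem Scl0.gG (s : Scl0 r δ η c ν h τ Γ) (ha : 0 < a) (hB : 0 < B) :
    SokamCen.gG r (a * c ^ (2 : ℕ) / ν) B = h * c * √(π * ν / (Γ * (a * c ^ (2 : ℕ) + ν * B))) := by
  have h2 := s.c0
  have h3 := s.n0
  have h4 := s.h0
  have h5 := s.Gpos
  have hQ : 0 < a * c ^ (2 : ℕ) + ν * B := by positivity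
  unfold SokamCen.gG
  have e : h * c = √((h * c) ^ (2 : ℕ)) := (Real.sqrt_sq (by positivity)).symm
  rw [zAB h3]
  conv_rhs => rw [e]
  rw [← Real.sqrt_mul (by positivity), s.er]
  congr 1
  field_simp

/-- `PF · gG` -/
theorem Scl0.PG (s : Scl0 r δ η c ν h τ Γ) (ha : 0 < a) (hB : 0 < B) {g q : ℝ} (hq : 0 ≤ q) :
    PF r δ η g q * SokamCen.gG r (a * c ^ (2 : ℕ) / ν) B =
      √(q * (1 + c ^ (2 : ℕ) / (5 / 4) ^ (2 : ℕ)) / (2 * (a * c ^ (2 : ℕ) + ν * B))) * exp (g / 2 * Γ * τ ^ (2 : ℕ)) := by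
  have h2 := s.c0
  have h3 := s.n0
  have hQ : 0 < a * c ^ (2 : ℕ) + ν * B := by positivity
  have h4 := s.P (g := g) (q := q) (μ := 5 / 4) (X := (a * c ^ (2 : ℕ) + ν * B) / ν) hq (by norm_num)
    (by positivity)
  unfold PF SokamCen.gG
  rw [s.em, zAB h3, h4]
  congr 2
  field_simp

theorem Scl0.gs (s : Scl0 r δ η c ν h τ Γ) (ha : 0 < a) (hB : 0 < B) :
    SokamCen.gs r (a * c ^ (2 : ℕ) / ν) B = (h * c) ^ (2 : ℕ) * (ν / (2 * Γ * (a * c ^ (2 : ℕ) + ν * B))) := by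
  have h2 := s.c0
  have h3 := s.n0
  have h4 := s.h0
  have h5 := s.Gpos
  have hQ : 0 < a * c ^ (2 : ℕ) + ν * B := by positivity
  unfold SokamCen.gs
  rw [zAB h3, s.er]
  field_simp

theorem Scl0.gv (s : Scl0 r δ η c ν h τ Γ) (ha : 0 < a) (hB : 0 < B) :
    SokamCen.gv (a * c ^ (2 : ℕ) / ν) B (u * h) = h * (u * (ν * B / (a * c ^ (2 : ℕ) + ν * B))) := by
  have h2 := s.c0
  have h3 := s.n0
  have hQ : 0 < a * c ^ (2 : ℕ) + ν * B := by positivity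
  unfold SokamCen.gv
  rw [zAB h3]
  field_simp

theorem Scl0.tv (s : Scl0 r δ η c ν h τ Γ) (ha : 0 < a) (hB : 0 < B) :
    u * h - SokamCen.gv (a * c ^ (2 : ℕ) / ν) B (u * h) =
      h * c * (u * (a * c / (a * c ^ (2 : ℕ) + ν * B))) := by
  have h2 := s.c0
  have h3 := s.n0
  have hQ : 0 < a * c ^ (2 : ℕ) + ν * B := by positivity
  rw [s.gv ha hB]
  field_simp
  ring

/-- the Gaussian factors -/
theorem Scl0.ex (s : Scl0 r δ η c ν h τ Γ) (ha : 0 < a) (hB : 0 < B) {g l : ℝ} :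
    exp (g / 2 * Γ * τ ^ (2 : ℕ)) * exp (-(r * (a * c ^ (2 : ℕ) / ν * B * (u * h) ^ (2 : ℕ) / (a * c ^ (2 : ℕ) / ν + B) -
      l * (h * c) ^ (2 : ℕ)))) = zX g c ν τ Γ u a B l := by
  have h2 := s.c0
  have h3 := s.n0
  have h4 := s.h0
  have hQ : 0 < a * c ^ (2 : ℕ) + ν * B := by positivity
  unfold zX
  rw [← exp_add]
  congr 1
  rw [zAB h3, s.er]
  have e : 1 / (c ^ (2 : ℕ) / B + ν / a) = a * B / (a * c ^ (2 : ℕ) + ν * B) := by
    field_simp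
  rw [e]
  field_simp
  ring

/-- `(t - v)/gG` -/
theorem Scl0.rat (s : Scl0 r δ η c ν h τ Γ) (ha : 0 < a) (hB : 0 < B) :
    h * c * (u * (a * c / (a * c ^ (2 : ℕ) + ν * B))) =
      SokamCen.gG r (a * c ^ (2 : ℕ) / ν) B * (√Γ * (u * a * c / √(π * ν * (a * c ^ (2 : ℕ) + ν * B)))) := by
  have h2 := s.c0
  have h3 := s.n0
  have h5 := s.Gpos
  have hQ : 0 < a * c ^ (2 : ℕ) + ν * B := by positivity
  have hpi := pi_pos
  rw [s.gG ha hB]
  obtain ⟨Q, hQe⟩ : ∃ Q, Q = a * c ^ (2 : ℕ) + ν * B := ⟨_, rfl⟩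
  rw [← hQe] at hQ ⊢
  have e1 : √(π * ν / (Γ * Q)) * √Γ = √(π * ν * Q) / Q := by
    rw [← Real.sqrt_mul (by positivity), eq_div_iff hQ.ne']
    have e : Q = √(Q ^ (2 : ℕ)) := (Real.sqrt_sq hQ.le).symm
    conv_lhs => rw [e]
    rw [← Real.sqrt_mul (by positivity), Real.sqrt_sq hQ.le]
    congr 1
    field_simp
  have e2 : √(π * ν * Q) ≠ 0 := (Real.sqrt_pos.2 (by positivity)).ne'
  calc h * c * (u * (a * c / Q)) = h * c * (u * a * c) * (1 / Q) := by ring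
    _ = h * c * (√(π * ν / (Γ * Q)) * √Γ) * (u * a * c / √(π * ν * Q)) := by
        rw [e1]
        field_simp
    _ = _ := by ring

/-- `PF · gr · e^..` -/
theorem Scl0.PY (s : Scl0 r δ η c ν h τ Γ) (ha : 0 < a) (hB : 0 < B) {g q l : ℝ} (hq : 0 ≤ q) :
    PF r δ η g q * (gr r (a * c ^ (2 : ℕ) / ν) B (u * h) *
      exp (-(r * (a * c ^ (2 : ℕ) / ν * B * (u * h) ^ (2 : ℕ) / (a * c ^ (2 : ℕ) / ν + B) - l * (h * c) ^ (2 : ℕ))))) =
      √(q * (1 + c ^ (2 : ℕ) / (5 / 4) ^ (2 : ℕ)) / (2 * (a * c ^ (2 : ℕ) + ν * B))) * zY g c ν τ Γ u a B l := by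
  have hE := s.ex (u := u) ha hB (g := g) (l := l)
  have hP := s.PG ha hB (g := g) hq
  have hR := s.rat (u := u) ha hB
  have hv := s.tv (u := u) ha hB
  unfold gr zY
  rw [hv, hR]
  obtain ⟨G, hG⟩ : ∃ G, G = SokamCen.gG r (a * c ^ (2 : ℕ) / ν) B := ⟨_, rfl⟩
  obtain ⟨K, hK⟩ : ∃ K, K = √Γ * (u * a * c / √(π * ν * (a * c ^ (2 : ℕ) + ν * B))) := ⟨_, rfl⟩
  obtain ⟨E, hEe⟩ : ∃ E, E = exp (-(r * (a * c ^ (2 : ℕ) / ν * B * (u * h) ^ (2 : ℕ) / (a * c ^ (2 : ℕ) / ν + B) -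
      l * (h * c) ^ (2 : ℕ)))) := ⟨_, rfl⟩
  obtain ⟨V, hV⟩ : ∃ V, V = √(q * (1 + c ^ (2 : ℕ) / (5 / 4) ^ (2 : ℕ)) / (2 * (a * c ^ (2 : ℕ) + ν * B))) := ⟨_, rfl⟩
  rw [← hG, ← hV] at hP
  rw [← hEe] at hE
  rw [← hG, ← hK, ← hEe, ← hV, ← hE]
  have hG0 : 0 ≤ G := by rw [hG]; exact Real.sqrt_nonneg _
  have hE0 : 0 < E := by rw [hEe]; exact exp_pos _
  have hV0 : 0 ≤ V := by rw [hV]; exact Real.sqrt_nonneg _
  have hPF := PF_nonneg r δ η g q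
  obtain ⟨P, hPe⟩ : ∃ P, P = PF r δ η g q := ⟨_, rfl⟩
  rw [← hPe] at hP hPF ⊢
  obtain ⟨W, hW⟩ : ∃ W, W = exp (g / 2 * Γ * τ ^ (2 : ℕ)) := ⟨_, rfl⟩
  rw [← hW] at hP ⊢
  rw [mul_min_comm hV0, mul_comm (min (G / 2) (G * K)) E, ← mul_assoc, mul_min_comm (by positivity)]
  congr 1
  · calc P * E * (G / 2) = (P * G) * E / 2 := by ring
      _ = V * W * E / 2 := by rw [hP]
      _ = _ := by ring
  · calc P * E * (G * K) = (P * G) * E * K := by ring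
      _ = V * W * E * K := by rw [hP]
      _ = _ := by ring

/-- `PF · g0` -/
theorem Scl0.g0 (s : Scl0 r δ η c ν h τ Γ) (ha : 0 < a) (hB : 0 < B) {g q l : ℝ} (hq : 0 ≤ q) :
    PF r δ η g q * SokamCen.g0 r (a * c ^ (2 : ℕ) / ν) B (u * h) (l * (h * c) ^ (2 : ℕ)) =
      z0 (5 / 4) q g c ν τ Γ u a B l := by
  have hE := s.ex (u := u) ha hB (g := g) (l := l)
  have hP := s.PG ha hB (g := g) hq
  have hY := s.PY (u := u) ha hB (g := g) (l := l) hq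
  unfold SokamCen.g0 z0
  rw [mul_add, ← hY, ← hE]
  obtain ⟨E, hEe⟩ : ∃ E, E = exp (-(r * (a * c ^ (2 : ℕ) / ν * B * (u * h) ^ (2 : ℕ) / (a * c ^ (2 : ℕ) / ν + B) -
      l * (h * c) ^ (2 : ℕ)))) := ⟨_, rfl⟩
  rw [← hEe]
  linear_combination (E / 2) * hP

/-- `PF · gW · R/h²` -/
theorem Scl0.gW (s : Scl0 r δ η c ν h τ Γ) (ha : 0 < a) (hB : 0 < B) {g q l : ℝ} (hq : 0 ≤ q)
    {w0 w1 w2 : ℝ} :
    PF r δ η g q * SokamCen.gW r (a * c ^ (2 : ℕ) / ν) B (u * h) (l * (h * c) ^ (2 : ℕ)) (w0 * (h * c) ^ (2 : ℕ))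
      (w1 * c ^ (2 : ℕ)) w2 * (RR r δ / h ^ (2 : ℕ)) = zW (5 / 4) q g c ν τ Γ u a B l w0 w1 w2 := by
  have h2 := s.c0
  have h3 := s.n0
  have h4 := s.h0
  have h5 := s.Gpos
  have hpi := pi_pos
  have hQ : 0 < a * c ^ (2 : ℕ) + ν * B := by positivity
  have hE := s.ex (u := u) ha hB (g := g) (l := l)
  have hP := s.PG ha hB (g := g) hq
  have hY := s.PY (u := u) ha hB (g := g) (l := l) hq
  have hPF := PF_nonneg r δ η g q
  have hc : RR r δ / h ^ (2 : ℕ) = 1 / (h * c) ^ (2 : ℕ) := by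
    rw [s.eRR]
    field_simp
  unfold SokamCen.gW zW
  rw [s.gs ha hB, s.tv ha hB, s.gv ha hB, hc]
  have hs : √(2 * ((h * c) ^ (2 : ℕ) * (ν / (2 * Γ * (a * c ^ (2 : ℕ) + ν * B)))) / π) =
      h * c * √(ν / (π * Γ * (a * c ^ (2 : ℕ) + ν * B))) := by
    have e : h * c = √((h * c) ^ (2 : ℕ)) := (Real.sqrt_sq (by positivity)).symm
    conv_rhs => rw [e]
    rw [← Real.sqrt_mul (by positivity)]
    congr 1
    field_simp
  rw [hs]
  obtain ⟨E, hEe⟩ : ∃ E, E = exp (-(r * (a * c ^ (2 : ℕ) / ν * B * (u * h) ^ (2 : ℕ) / (a * c ^ (2 : ℕ) / ν + B) -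
      l * (h * c) ^ (2 : ℕ)))) := ⟨_, rfl⟩
  rw [← hEe] at hE hY ⊢
  obtain ⟨G, hG⟩ : ∃ G, G = SokamCen.gG r (a * c ^ (2 : ℕ) / ν) B := ⟨_, rfl⟩
  obtain ⟨D, hD⟩ : ∃ D, D = SokamCen.gr r (a * c ^ (2 : ℕ) / ν) B (u * h) := ⟨_, rfl⟩
  obtain ⟨Q, hQe⟩ : ∃ Q, Q = a * c ^ (2 : ℕ) + ν * B := ⟨_, rfl⟩
  rw [← hG, ← hQe] at hP
  rw [← hD, ← hQe] at hY
  rw [← hG, ← hD, ← hQe]
  obtain ⟨V, hV⟩ : ∃ V, V = √(q * (1 + c ^ (2 : ℕ) / (5 / 4) ^ (2 : ℕ)) / (2 * Q)) := ⟨_, rfl⟩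
  rw [← hV] at hP hY ⊢
  have hV0 : 0 ≤ V := by rw [hV]; exact Real.sqrt_nonneg _
  have hE0 : 0 < E := by rw [hEe]; exact exp_pos _
  obtain ⟨P, hPe⟩ : ∃ P, P = PF r δ η g q := ⟨_, rfl⟩
  rw [← hPe] at hP hPF hY ⊢
  obtain ⟨X, hX⟩ : ∃ X, X = zX g c ν τ Γ u a B l := ⟨_, rfl⟩
  obtain ⟨Y, hYe⟩ : ∃ Y, Y = zY g c ν τ Γ u a B l := ⟨_, rfl⟩
  obtain ⟨W, hW⟩ : ∃ W, W = exp (g / 2 * Γ * τ ^ (2 : ℕ)) := ⟨_, rfl⟩
  rw [← hX, ← hW] at hE
  rw [← hYe] at hY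
  rw [← hW] at hP
  rw [← hX, ← hYe]
  -- `P G E = V X`, `P D E = V Y`
  have k1 : P * G * E = V * X := by rw [hP, ← hE]; ring
  have k2 : P * D * E = V * Y := by rw [← hY]; ring
  obtain ⟨S, hS⟩ : ∃ S, S = √(ν / (π * Γ * Q)) := ⟨_, rfl⟩
  rw [← hS]
  rw [mul_min_comm hV0]
  have k3 : ∀ x y : ℝ, P * (min x y * E) * (1 / (h * c) ^ (2 : ℕ)) =
      min (P * (x * E) * (1 / (h * c) ^ (2 : ℕ))) (P * (y * E) * (1 / (h * c) ^ (2 : ℕ))) := by
    intro x y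
    have e1 : ∀ z : ℝ, P * (z * E) * (1 / (h * c) ^ (2 : ℕ)) = (P * E * (1 / (h * c) ^ (2 : ℕ))) * z := by
      intro z; ring
    rw [e1, e1, e1]
    exact mul_min_comm (by positivity)
  rw [k3]
  have hhc : (h * c) ≠ 0 := by positivity
  rw [← hQe] at hQ
  congr 1
  · rw [← mul_assoc V X, ← k1]
    field_simp
  · rw [mul_add V, ← mul_assoc V Y, ← k2]
    have e5 : V * (X / 2 * (w0 + w1 * (u ^ (2 : ℕ) * (ν * B / Q) ^ (2 : ℕ) + c ^ (2 : ℕ) * (ν / (2 * Γ * Q))) +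
        w2 * ((u * (a * c / Q)) ^ (2 : ℕ) + 2 * (u * (a * c / Q)) * S + ν / (2 * Γ * Q)))) =
        (V * X) / 2 * (w0 + w1 * (u ^ (2 : ℕ) * (ν * B / Q) ^ (2 : ℕ) + c ^ (2 : ℕ) * (ν / (2 * Γ * Q))) +
        w2 * ((u * (a * c / Q)) ^ (2 : ℕ) + 2 * (u * (a * c / Q)) * S + ν / (2 * Γ * Q))) := by ring
    rw [e5, ← k1]
    field_simp

end

end SokamCel

end

/-! ### Lib_MP_af4de1_v3.CenY0 -/

section
namespace SokamF1
end SokamF1
namespace SokamF1M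
end SokamF1M
namespace SokamF1S
end SokamF1S
namespace SokamU
end SokamU
/-!
# From the centre saddle to the saddle `y`

If the wave at the angle `θ = η + ζ` is controlled from the centre saddle (`y = 0`, level `e^r/√√R`, `κ = r`), it is
controlled from the saddle `y` (`Lev.lean`).
-/

set_option autoImplicit false

namespace SokamV3

open Complex SokamU SokamF1 SokamF1S SokamF1M

theorem sx_y0 {ρ : ℝ} (h : 0 ≤ ρ) : sx ρ 0 = ρ := by
  unfold sx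
  simp [Real.sqrt_sq h]

theorem sE_y0 {ρ : ℝ} (h : 0 ≤ ρ) : sE ρ 0 = 0 := by
  unfold sE sP
  rw [sx_y0 h]
  simp

theorem sD2_y0 {ρ : ℝ} (h : 0 ≤ ρ) : sD2 ρ 0 = 1 + ρ ^ (2 : ℕ) := by
  unfold sD2
  rw [sx_y0 h]
  ring

theorem dom_y0 {ρ : ℝ} (h : 0 < ρ) : Dom ρ 0 := ⟨h, by simpa using h.le⟩

theorem kap_y0 {r δ : ℝ} (hr : 0 < r) (hδ : 0 < δ) : kap r δ 0 = r := by
  unfold kap sK
  rw [sx_y0 (mul_pos hr hδ).le]
  have : (δ : ℂ) ≠ 0 := by exact_mod_cast hδ.ne'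
  push_cast
  field_simp
  ring

theorem sM_y0_le {r δ y η g k q lam : ℝ} (hr : 0 < r) (hδ : 0 < δ) (hy : -1 < y)
    (hL : Lev r δ y η g k q) (hq : 0 ≤ q)
    (hlam : √q * Real.exp (g / 2 * (r * η ^ (2 : ℕ) / RR r δ)) ≤ lam) :
    sM r δ 0 ≤ lam * sM r δ y := by
  have hρ := mul_pos hr hδ
  have hR : 0 < RR r δ := by unfold RR; positivity
  have hD := sD2_pos (ρ := r * δ) hy
  have e0 : sM r δ 0 = Real.exp r / √(√(RR r δ)) := by
    unfold sM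
    rw [sx_y0 hρ.le, sD2_y0 hρ.le]
    have h3 : √(√(RR r δ)) = (1 + (r * δ) ^ (2 : ℕ)) ^ (1 / 4 : ℝ) := by
      rw [Real.sqrt_eq_rpow, Real.sqrt_eq_rpow, ← Real.rpow_mul hR.le]
      norm_num
      rfl
    rw [h3]
    congr 2
    field_simp
    ring
  have e1 : sM r δ y = Real.exp (sx (r * δ) y * (1 + y) / δ) / √(sD (r * δ) y) := by
    unfold sM sD
    have h3 : √(√(sD2 (r * δ) y)) = (sD2 (r * δ) y) ^ (1 / 4 : ℝ) := by
      rw [Real.sqrt_eq_rpow, Real.sqrt_eq_rpow, ← Real.rpow_mul hD.le]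
      norm_num
    rw [h3]
  have hsD : 0 < sD (r * δ) y := Real.sqrt_pos.2 hD
  have hq2 : 0 < √(√(RR r δ)) := Real.sqrt_pos.2 (Real.sqrt_pos.2 hR)
  have hq3 : 0 < √(sD (r * δ) y) := Real.sqrt_pos.2 hsD
  have h1 : √(sD (r * δ) y) ≤ √q * √(√(RR r δ)) := by
    rw [← Real.sqrt_mul hq]
    exact Real.sqrt_le_sqrt hL.l2
  have h2 : Real.exp r ≤ Real.exp (g / 2 * (r * η ^ (2 : ℕ) / RR r δ)) *
      Real.exp (sx (r * δ) y * (1 + y) / δ) := by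
    rw [← Real.exp_add]
    exact Real.exp_le_exp.2 (by linarith [hL.l0])
  rw [e0, e1, div_le_iff₀ hq2]
  have h4 : √q * Real.exp (g / 2 * (r * η ^ (2 : ℕ) / RR r δ)) *
      (Real.exp (sx (r * δ) y * (1 + y) / δ) / √(sD (r * δ) y)) ≤
      lam * (Real.exp (sx (r * δ) y * (1 + y) / δ) / √(sD (r * δ) y)) :=
    mul_le_mul_of_nonneg_right hlam (by positivity)
  refine le_trans ?_ (mul_le_mul_of_nonneg_right h4 hq2.le)
  have h5 : Real.exp (g / 2 * (r * η ^ (2 : ℕ) / RR r δ)) * Real.exp (sx (r * δ) y * (1 + y) / δ) ≤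
      √q * Real.exp (g / 2 * (r * η ^ (2 : ℕ) / RR r δ)) *
      (Real.exp (sx (r * δ) y * (1 + y) / δ) / √(sD (r * δ) y)) * √(√(RR r δ)) := by
    have h6 : √q * Real.exp (g / 2 * (r * η ^ (2 : ℕ) / RR r δ)) *
        (Real.exp (sx (r * δ) y * (1 + y) / δ) / √(sD (r * δ) y)) * √(√(RR r δ)) =
        Real.exp (g / 2 * (r * η ^ (2 : ℕ) / RR r δ)) * Real.exp (sx (r * δ) y * (1 + y) / δ) *
          (√q * √(√(RR r δ)) / √(sD (r * δ) y)) := by ring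
    rw [h6]
    refine le_mul_of_one_le_right (by positivity) ?_
    rw [one_le_div hq3]
    exact h1
  exact h2.trans h5

/-- the transfer from the centre saddle to the saddle `y` -/
theorem shf_of_y0 {r δ y η ζ θ H g k q lam kt f0 f1 f2 : ℝ} (hr : 0 < r) (hδ : 0 < δ)
    (hA : At r δ y η) (hL : Lev r δ y η g k q) (hq : 0 ≤ q) (hθ : η + ζ = θ)
    (hlam : √q * Real.exp (g / 2 * (r * η ^ (2 : ℕ) / RR r δ)) ≤ lam)
    (hH : 0 ≤ H) (hkt0 : 0 ≤ kt) (hkt : k * (r * |η| / √(RR r δ)) ≤ kt * H)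
    (hf0 : 0 ≤ f0) (hf1 : 0 ≤ f1) (hf2 : 0 ≤ f2) (hS : Shf r δ 0 θ H f0 f1 f2) :
    Shf r δ y ζ H (lam * f0) (lam * (f1 + kt * f0)) (lam * (f2 + 2 * kt * f1 + kt ^ (2 : ℕ) * f0)) := by
  have hρ := mul_pos hr hδ
  have eθ : sE (r * δ) y + ζ = sE (r * δ) 0 + θ := by
    rw [hA.eta, sE_y0 hρ.le, zero_add, hθ]
  have e0 : V0 r δ y ζ = V0 r δ 0 θ := by unfold V0; rw [eθ]
  have e1 : V1 r δ y ζ = V1 r δ 0 θ := by unfold V1; rw [eθ]
  have e2 : V2 r δ y ζ = V2 r δ 0 θ := by unfold V2; rw [eθ]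
  have hM := sM_y0_le hr hδ hA.y1 hL hq hlam
  have hd : ‖kap r δ y - r‖ ≤ kt * H := hL.l1.trans hkt
  have s0 := hS.s0
  have s1 := hS.s1
  have s2 := hS.s2
  rw [kap_y0 hr hδ] at s1 s2
  have hM0 : 0 ≤ sM r δ 0 := (sM_pos (by norm_num)).le
  rw [← e0] at s0
  rw [← e1, ← e0] at s1
  rw [← e2, ← e1, ← e0] at s2
  set d : ℂ := kap r δ y - r with hdd
  set A0 := V0 r δ y ζ
  set A1 := V1 r δ y ζ
  set A2 := V2 r δ y ζ
  refine ⟨?_, ?_, ?_⟩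
  · calc ‖A0‖ ≤ f0 * sM r δ 0 := s0
      _ ≤ f0 * (lam * sM r δ y) := mul_le_mul_of_nonneg_left hM hf0
      _ = _ := by ring
  · have h1 : A1 - kap r δ y * A0 = (A1 - r * A0) - d * A0 := by rw [hdd]; ring
    calc ‖A1 - kap r δ y * A0‖ ≤ ‖A1 - r * A0‖ + ‖d * A0‖ := by rw [h1]; exact norm_sub_le _ _
      _ ≤ f1 * H * sM r δ 0 + kt * H * (f0 * sM r δ 0) := by
          rw [norm_mul]
          exact add_le_add s1 (mul_le_mul hd s0 (norm_nonneg _) (by positivity))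
      _ = (f1 + kt * f0) * H * sM r δ 0 := by ring
      _ ≤ (f1 + kt * f0) * H * (lam * sM r δ y) := mul_le_mul_of_nonneg_left hM (by positivity)
      _ = _ := by ring
  · have h1 : A2 - 2 * kap r δ y * A1 + kap r δ y ^ (2 : ℕ) * A0 =
        (A2 - 2 * r * A1 + r ^ (2 : ℕ) * A0) - 2 * d * (A1 - r * A0) + d ^ (2 : ℕ) * A0 := by rw [hdd]; ring
    calc ‖A2 - 2 * kap r δ y * A1 + kap r δ y ^ (2 : ℕ) * A0‖ ≤
        ‖A2 - 2 * r * A1 + r ^ (2 : ℕ) * A0‖ + ‖2 * d * (A1 - r * A0)‖ + ‖d ^ (2 : ℕ) * A0‖ := by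
          rw [h1]
          exact (norm_add_le _ _).trans (add_le_add (norm_sub_le _ _) le_rfl)
      _ ≤ f2 * H ^ (2 : ℕ) * sM r δ 0 + 2 * (kt * H) * (f1 * H * sM r δ 0) +
          (kt * H) ^ (2 : ℕ) * (f0 * sM r δ 0) := by
          rw [norm_mul, norm_mul, norm_mul, norm_pow, Complex.norm_two]
          refine add_le_add (add_le_add s2 ?_) ?_
          · exact mul_le_mul (mul_le_mul_of_nonneg_left hd (by norm_num)) s1 (norm_nonneg _)
              (by positivity)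
          · exact mul_le_mul (pow_le_pow_left₀ (norm_nonneg _) hd 2) s0 (norm_nonneg _)
              (by positivity)
      _ = (f2 + 2 * kt * f1 + kt ^ (2 : ℕ) * f0) * H ^ (2 : ℕ) * sM r δ 0 := by ring
      _ ≤ (f2 + 2 * kt * f1 + kt ^ (2 : ℕ) * f0) * H ^ (2 : ℕ) * (lam * sM r δ y) :=
          mul_le_mul_of_nonneg_left hM (by positivity)
      _ = _ := by ring

end SokamV3

end
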