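import Pool.Agent.Lib_MP_af4de1_zy.Z00
import Pool.Agent.Lib_MP_af4de1_zy.Z57
import Pool.Agent.Lib_MP_af4de1_zy.Z78

/-! ### Lib_MP_af4de1_v3.PSad -/

section
/-!
# F1, plan v3: `PSad1`
-/

set_option autoImplicit false

namespace SokamV3

/-- PIECE SAD (regime I) -/
theorem psad1 : PSad1 where
  ex := psad1_ex
  sad := fun N r δ y η h hA hη => by
    rcases lt_or_ge (Gm N r δ) 10 with hG | hG
    · exact Or.inl ⟨hG, psad1_sadA N r δ y η h hA hG hη⟩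
    · exact Or.inr ⟨hG, sadB h hA hη hG⟩
  inn := psad1_inn

end SokamV3

end

/-! ### Lib_MP_af4de1_v3.GapR -/

section
namespace SokamF1
end SokamF1
namespace SokamF1M
end SokamF1M
namespace SokamF1S
end SokamF1S
/-!
# PIECE GAP, right inner saddle against left outer saddle

`a` on the right (`n = -y_a`, `v = |η_a|/√R ≤ (1/2 - ω) t`), `b` on the left (`u = η_b/√R = (1/2 + ω) t`), `t = h/√R`.
Left drop `≥ r (u²/2 - u³/6)` (all saddles): with `s = 1 - x/ρ`, `ψ = arg K`: `P/ρ = s + (1-s) log(1-s) - (1-s) log cos ψ`,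
`u = θ s + σ ψ`, `(θ, σ) = (ρ, 1)/√R` (helper69).  Right drop `≤ r (v²/2 + v³/6 + v⁴/4)`.
`D_a² ≤ R e^(2n)`, `n ≤ v`, `D_b² ≥ R e^(-2y)`, `y ≤ u + u²/(2(1-u))`.
-/

set_option autoImplicit false

namespace SokamV3

open SokamF1S SokamF1M SokamF1 Set

theorem log_one_sub_le {b : ℝ} (hb : b < 1) {t : ℝ} (ht : t ∈ Icc 0 b) :
    0 ≤ -Real.log (1 - t) - t - t ^ (2 : ℕ) / 2 := by
  refine nonneg_up (f := fun t => -Real.log (1 - t) - t - t ^ (2 : ℕ) / 2)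
    (f' := fun t => -((-1) / (1 - t)) - 1 - (((2 : ℕ) : ℝ) * t ^ (2 - 1) * 1) / 2) ?_ ?_ ?_ ?_ ht
  · have h1 : ContinuousOn (fun t : ℝ => Real.log (1 - t)) (Icc 0 b) :=
      ContinuousOn.log (by fun_prop) (fun t ht => by
        have := ht.2
        linarith only [hb, this])
    exact (h1.neg.sub continuousOn_id).sub (by fun_prop)
  · simp
  · intro t ht
    have h1 : HasDerivAt (fun t : ℝ => 1 - t) (-1) t := by
      simpa using (hasDerivAt_id t).const_sub 1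
    have h2 := h1.log (by linarith only [hb, ht.2])
    exact (h2.neg.sub (hasDerivAt_id t)).sub (((hasDerivAt_id t).pow 2).div_const 2)
  · intro t ht
    have h1 : 0 < 1 - t := by linarith [ht.2]
    have e : -((-1) / (1 - t)) - 1 - (((2 : ℕ) : ℝ) * t ^ (2 - 1) * 1) / 2 = t ^ (2 : ℕ) / (1 - t) := by
      push_cast
      field_simp
      ring
    rw [e]
    (clear * - h1; positivity)

theorem mul_log_ge {b : ℝ} (hb : b < 1) {t : ℝ} (ht : t ∈ Icc 0 b) :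
    0 ≤ t + (1 - t) * Real.log (1 - t) - t ^ (2 : ℕ) / 2 - t ^ (3 : ℕ) / 6 := by
  refine nonneg_up (f := fun t => t + (1 - t) * Real.log (1 - t) - t ^ (2 : ℕ) / 2 - t ^ (3 : ℕ) / 6)
    (f' := fun t => 1 + ((-1) * Real.log (1 - t) + (1 - t) * ((-1) / (1 - t))) -
      (((2 : ℕ) : ℝ) * t ^ (2 - 1) * 1) / 2 - (((3 : ℕ) : ℝ) * t ^ (3 - 1) * 1) / 6) ?_ ?_ ?_ ?_ ht
  · have h1 : ContinuousOn (fun t : ℝ => Real.log (1 - t)) (Icc 0 b) :=
      ContinuousOn.log (by fun_prop) (fun t ht => by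
        have := ht.2
        linarith only [hb, this])
    have h2 : ContinuousOn (fun t : ℝ => (1 - t) * Real.log (1 - t)) (Icc 0 b) :=
      ContinuousOn.mul (by fun_prop) h1
    exact ((continuousOn_id.add h2).sub (by fun_prop)).sub (by fun_prop)
  · simp
  · intro t ht
    have h1 : HasDerivAt (fun t : ℝ => 1 - t) (-1) t := by
      simpa using (hasDerivAt_id t).const_sub 1
    have h2 := h1.mul (h1.log (by linarith only [hb, ht.2]))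
    exact (((hasDerivAt_id t).add h2).sub (((hasDerivAt_id t).pow 2).div_const 2)).sub
      (((hasDerivAt_id t).pow 3).div_const 6)
  · intro t ht
    have h1 : 0 < 1 - t := by linarith [ht.2]
    have h2 := log_one_sub_le hb (t := t) ⟨ht.1.le, ht.2.le⟩
    have e : 1 + ((-1) * Real.log (1 - t) + (1 - t) * ((-1) / (1 - t))) -
      (((2 : ℕ) : ℝ) * t ^ (2 - 1) * 1) / 2 - (((3 : ℕ) : ℝ) * t ^ (3 - 1) * 1) / 6 =
        -Real.log (1 - t) - t - t ^ (2 : ℕ) / 2 := by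
      push_cast
      field_simp
      ring
    rw [e]
    exact h2

theorem neg_log_cos_ge {p : ℝ} (h0 : 0 ≤ p) (h1 : p < Real.pi / 2) : p ^ (2 : ℕ) / 2 ≤ -Real.log (Real.cos p) := by
  have key := nonneg_up (f := fun p => -Real.log (Real.cos p) - p ^ (2 : ℕ) / 2)
    (f' := fun p => -(-Real.sin p / Real.cos p) - (((2 : ℕ) : ℝ) * p ^ (2 - 1) * 1) / 2) (b := p) ?_ ?_ ?_ ?_
    (right_mem_Icc.2 h0)
  · linarith only [key]
  · have h2 : ContinuousOn (fun p : ℝ => Real.log (Real.cos p)) (Icc 0 p) :=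
      ContinuousOn.log (by fun_prop) (fun q hq => by
        have : 0 < Real.cos q := Real.cos_pos_of_mem_Ioo ⟨by linarith only [hq.1, Real.pi_pos], by linarith [hq.2]⟩
        exact this.ne')
    exact h2.neg.sub (by fun_prop)
  · simp
  · intro q hq
    have hc : 0 < Real.cos q := Real.cos_pos_of_mem_Ioo ⟨by linarith only [hq.1, Real.pi_pos], by linarith [hq.2]⟩
    exact ((Real.hasDerivAt_cos q).log hc.ne').neg.sub (((hasDerivAt_id q).pow 2).div_const 2)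
  · intro q hq
    have h3 := Real.lt_tan hq.1 (by linarith [hq.2])
    rw [Real.tan_eq_sin_div_cos] at h3
    have e : -(-Real.sin q / Real.cos q) - (((2 : ℕ) : ℝ) * q ^ (2 - 1) * 1) / 2 =
        Real.sin q / Real.cos q - q := by
      push_cast
      ring
    rw [e]
    linarith only [h3]

/-- The left drop. -/
theorem left_low {ρ y : ℝ} (hρ : 0 < ρ) (h : |y| * Real.exp y < ρ) (hy : 0 ≤ y) :
    ρ * ((sE ρ y / √(1 + ρ ^ (2 : ℕ))) ^ (2 : ℕ) / 2 - (sE ρ y / √(1 + ρ ^ (2 : ℕ))) ^ (3 : ℕ) / 6) ≤ ρ - sx ρ y * (1 + y) := by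
  have hD : Dom ρ y := ⟨hρ, h.le⟩
  have hx := sx_pos hρ h
  have hR : 0 < 1 + ρ ^ (2 : ℕ) := by positivity
  have ha : 0 < √(1 + ρ ^ (2 : ℕ)) := Real.sqrt_pos.2 hR
  have ha2 : √(1 + ρ ^ (2 : ℕ)) ^ (2 : ℕ) = 1 + ρ ^ (2 : ℕ) := Real.sq_sqrt hR.le
  set a := √(1 + ρ ^ (2 : ℕ)) with had
  set p := sP ρ y with hp
  set s : ℝ := 1 - sx ρ y / ρ with hs
  have hxs : sx ρ y = ρ * (1 - s) := by
    rw [hs]
    field_simp
    ring
  have hp0 : 0 ≤ p := sP_nonneg hρ hy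
  have hcos := hD.cos
  have hcp : 0 < Real.cos p := by
    rw [hp, hcos]
    have := Real.exp_pos y
    (clear * - hx hρ; positivity)
  have hp1 : p < Real.pi / 2 := by
    refine lt_of_le_of_ne (abs_le.1 (sP_abs_le ρ y)).2 fun h1 => ?_
    rw [h1, Real.cos_pi_div_two] at hcp
    exact lt_irrefl _ hcp
  have hs1 : s < 1 := by
    rw [hs]
    have : 0 < sx ρ y / ρ := by (clear * - hx hρ; positivity)
    linarith only [this]
  have hs0 : 0 ≤ s := by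
    rw [hs, sub_nonneg, div_le_one hρ]
    refine (sx_le hD).trans ?_
    have : Real.exp (-y) ≤ 1 := Real.exp_le_one_iff.2 (by linarith only [hy])
    nlinarith only [hρ, this]
  -- `y = log cos ψ - log (1 - s)`
  have hylog : y = Real.log (Real.cos p) - Real.log (1 - s) := by
    have h1 : Real.cos p = (1 - s) * Real.exp y := by
      rw [hp, hcos, hxs]
      field_simp
    rw [h1, Real.log_mul (by linarith only [hs1]) (Real.exp_pos y).ne', Real.log_exp]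
    ring
  have hη : sE ρ y = p + ρ * s := by
    unfold sE
    rw [← hp, hxs]
    ring
  have l1 := mul_log_ge hs1 (t := s) ⟨hs0, le_refl s⟩
  have l2 := neg_log_cos_ge hp0 hp1
  have l3 : (1 - s) * (p ^ (2 : ℕ) / 2) ≤ (1 - s) * (-Real.log (Real.cos p)) :=
    mul_le_mul_of_nonneg_left l2 (by linarith only [hs1])
  -- the exact drop
  have hP : ρ - sx ρ y * (1 + y) = ρ * (s + (1 - s) * Real.log (1 - s) + (1 - s) * (-Real.log (Real.cos p))) := by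
    rw [hxs]
    conv_lhs => rw [hylog]
    ring
  rw [hP]
  refine mul_le_mul_of_nonneg_left ?_ hρ.le
  have hlow : (s ^ (2 : ℕ) + p ^ (2 : ℕ)) / 2 + (s ^ (3 : ℕ) - 3 * s * p ^ (2 : ℕ)) / 6 ≤
      s + (1 - s) * Real.log (1 - s) + (1 - s) * (-Real.log (Real.cos p)) := by
    have e : (s ^ (2 : ℕ) + p ^ (2 : ℕ)) / 2 + (s ^ (3 : ℕ) - 3 * s * p ^ (2 : ℕ)) / 6 = s ^ (2 : ℕ) / 2 + s ^ (3 : ℕ) / 6 + (1 - s) * (p ^ (2 : ℕ) / 2) := by
      ring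
    rw [e]
    linarith only [l1, l3]
  refine le_trans ?_ hlow
  -- polar coordinates
  set w : ℝ := sE ρ y / a with hw
  have hw0 : 0 ≤ w := by
    rw [hw, hη]
    (clear * - hp0 hρ hs0; positivity)
  set l : ℝ := √(s ^ (2 : ℕ) + p ^ (2 : ℕ)) with hl
  have hl0 : 0 ≤ l := Real.sqrt_nonneg _
  have hl2 : l ^ (2 : ℕ) = s ^ (2 : ℕ) + p ^ (2 : ℕ) := Real.sq_sqrt (by (clear * -; positivity))
  have hwl : w ≤ l := by
    refine abs_le_of_sq_le_sq' ?_ hl0 |>.2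
    rw [hl2, hw, div_pow, ha2, hη, div_le_iff₀ hR]
    linarith only [sq_nonneg (ρ * p - s)]
  have hl3 : l ≤ 2 := by
    refine abs_le_of_sq_le_sq' ?_ (by norm_num) |>.2
    rw [hl2]
    have : p < 1.6 := by
      have := Real.pi_lt_d2
      linarith only [hp1, this]
    nlinarith only [hp0, hs1, hs0, this]
  have h3 : -(l ^ (3 : ℕ)) ≤ s ^ (3 : ℕ) - 3 * s * p ^ (2 : ℕ) := by
    refine (abs_le_of_sq_le_sq' ?_ (by (clear * -; positivity))).1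
    have e : (l ^ (3 : ℕ)) ^ (2 : ℕ) = (s ^ (2 : ℕ) + p ^ (2 : ℕ)) ^ (3 : ℕ) := by rw [← hl2]; ring
    rw [e]
    linarith only [sq_nonneg (3 * s ^ (2 : ℕ) * p - p ^ (3 : ℕ))]
  have h4 : w ^ (2 : ℕ) / 2 - w ^ (3 : ℕ) / 6 ≤ l ^ (2 : ℕ) / 2 - l ^ (3 : ℕ) / 6 := by
    have e : l ^ (2 : ℕ) / 2 - l ^ (3 : ℕ) / 6 - (w ^ (2 : ℕ) / 2 - w ^ (3 : ℕ) / 6) =
        (l - w) * ((l + w) / 2 - (l ^ (2 : ℕ) + l * w + w ^ (2 : ℕ)) / 6) := by ring
    have : 0 ≤ (l - w) * ((l + w) / 2 - (l ^ (2 : ℕ) + l * w + w ^ (2 : ℕ)) / 6) := by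
      refine mul_nonneg (by linarith only [hwl]) ?_
      have m1 : l ^ (2 : ℕ) ≤ 2 * l := by
        rw [pow_two]
        exact mul_le_mul_of_nonneg_right hl3 hl0
      have m2 : l * w ≤ 2 * w := mul_le_mul_of_nonneg_right hl3 hw0
      have m3 : w ^ (2 : ℕ) ≤ 2 * w := by
        rw [pow_two]
        exact mul_le_mul_of_nonneg_right (hwl.trans hl3) hw0
      linarith only [hwl, m1, m2, m3]
    linarith only [this]
  rw [← hl2]
  linarith only [h3, h4]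

/-! ### the right side -/

theorem s_le {ρ : ℝ} (hρ : 0 < ρ) : ρ * (3 - ρ ^ (2 : ℕ)) ≤ √(1 + ρ ^ (2 : ℕ)) ^ (3 : ℕ) := by
  have hR : 0 < 1 + ρ ^ (2 : ℕ) := by positivity
  have ha : 0 < √(1 + ρ ^ (2 : ℕ)) := Real.sqrt_pos.2 hR
  have ha2 : √(1 + ρ ^ (2 : ℕ)) ^ (2 : ℕ) = 1 + ρ ^ (2 : ℕ) := Real.sq_sqrt hR.le
  refine abs_le_of_sq_le_sq' ?_ (by (clear * - hρ; positivity)) |>.2
  have e : (√(1 + ρ ^ (2 : ℕ)) ^ (3 : ℕ)) ^ (2 : ℕ) = (1 + ρ ^ (2 : ℕ)) ^ (3 : ℕ) := by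
    calc (√(1 + ρ ^ (2 : ℕ)) ^ (3 : ℕ)) ^ (2 : ℕ) = (√(1 + ρ ^ (2 : ℕ)) ^ (2 : ℕ)) ^ (3 : ℕ) := by ring
      _ = _ := by rw [ha2]
  rw [e]
  linarith only [sq_nonneg (1 - 3 * ρ ^ (2 : ℕ))]

/-- The right side: `n ≤ v` and the upper bound of the drop, `v ≤ 21/50`. -/
theorem right_up {ρ y v : ℝ} (h : Dom ρ y) (hy1 : -1 < y) (hy0 : y ≤ 0)
    (hv : v = -sE ρ y / √(1 + ρ ^ (2 : ℕ))) (hv2 : v ≤ 21 / 50) :
    -y ≤ v ∧ ρ - sx ρ y * (1 + y) ≤ ρ * (v ^ (2 : ℕ) / 2 + v ^ (3 : ℕ) / 6 + v ^ (4 : ℕ) / 4) := by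
  have hρ := h.1
  have hR : 0 < 1 + ρ ^ (2 : ℕ) := by (clear * - hρ; positivity)
  have ha : 0 < √(1 + ρ ^ (2 : ℕ)) := Real.sqrt_pos.2 hR
  have ha2 : √(1 + ρ ^ (2 : ℕ)) ^ (2 : ℕ) = 1 + ρ ^ (2 : ℕ) := Real.sq_sqrt hR.le
  have hs1 := s_le hρ
  -- general lower bound of `v`
  have hgen : ∀ z ∈ Icc y 0, (-z * √(1 + ρ ^ (2 : ℕ)) / ρ) - (-z * √(1 + ρ ^ (2 : ℕ)) / ρ) ^ (2 : ℕ) / 2 *
      (ρ * (3 - ρ ^ (2 : ℕ)) / √(1 + ρ ^ (2 : ℕ)) ^ (3 : ℕ)) ≤ -sE ρ z / √(1 + ρ ^ (2 : ℕ)) := by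
    intro z hz
    have h1 := right_eta h hy1.le hz
    rw [le_div_iff₀ ha]
    have e : ((-z * √(1 + ρ ^ (2 : ℕ)) / ρ) - (-z * √(1 + ρ ^ (2 : ℕ)) / ρ) ^ (2 : ℕ) / 2 *
      (ρ * (3 - ρ ^ (2 : ℕ)) / √(1 + ρ ^ (2 : ℕ)) ^ (3 : ℕ))) * √(1 + ρ ^ (2 : ℕ)) =
        -((√(1 + ρ ^ (2 : ℕ)) ^ (2 : ℕ)) * z + (3 - ρ ^ (2 : ℕ)) * z ^ (2 : ℕ) / 2) / ρ := by
      field_simp
      ring
    rw [e, ha2, div_le_iff₀ hρ]
    linarith only [h1]
  set a := √(1 + ρ ^ (2 : ℕ)) with had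
  set s : ℝ := ρ * (3 - ρ ^ (2 : ℕ)) / a ^ (3 : ℕ) with hs
  have hs1' : s ≤ 1 := by
    rw [hs, div_le_one (by (clear * - hρ; positivity))]
    exact hs1
  set w : ℝ := -y * a / ρ with hw
  have hw0 : 0 ≤ w := by
    rw [hw]
    have : 0 ≤ -y := by linarith only [hy0]
    (clear * - this hρ; positivity)
  have hvw : w - w ^ (2 : ℕ) / 2 * s ≤ v := by
    rw [hv]
    exact hgen y ⟨le_refl y, hy0⟩
  have hρa : ρ < a := by
    rw [had]
    exact Real.lt_sqrt_of_sq_lt (by linarith only [])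
  have hw1 : w ≤ 1 := by
    by_contra hcon
    push Not at hcon
    have hy2 : y < -(ρ / a) := by
      rw [hw, lt_div_iff₀ hρ] at hcon
      rw [lt_neg, div_lt_iff₀ ha]
      linarith only [hcon]
    have hz0 : -(ρ / a) < 0 := by
      have : 0 < ρ / a := by (clear * - hρ; positivity)
      linarith only [this]
    have h3 := hgen (-(ρ / a)) ⟨hy2.le, hz0.le⟩
    have e1 : -(-(ρ / a)) * a / ρ = 1 := by field_simp
    rw [e1] at h3
    have hmono := sE_strictMonoOn h (dom_zero hρ) hy1.le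
    have h4 := hmono ⟨le_refl y, hy0⟩ ⟨hy2.le, hz0.le⟩ hy2
    have h5 : -sE ρ (-(ρ / a)) / a ≤ -sE ρ y / a := div_le_div_of_nonneg_right (by linarith only [h4]) ha.le
    rw [← hv] at h5
    linarith only [hv2, hs1', h3, h5]
  have hw6 : w ≤ 3 / 5 := by
    by_contra hcon
    push Not at hcon
    have h1 : w ^ (2 : ℕ) / 2 * s ≤ w ^ (2 : ℕ) / 2 * 1 := mul_le_mul_of_nonneg_left hs1' (by (clear * - hcon; positivity))
    nlinarith only [hv2, hvw, hw1, hcon, h1]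
  have hyw : -y = ρ / a * w := by
    rw [hw]
    field_simp
  have hv0 : 0 ≤ v := by
    have h1 : w ^ (2 : ℕ) / 2 * s ≤ w ^ (2 : ℕ) / 2 * 1 := mul_le_mul_of_nonneg_left hs1' (by (clear * -; positivity))
    nlinarith only [hw0, hvw, hw6, h1]
  constructor
  · -- `θ w ≤ w - s w²/2`
    refine le_trans ?_ hvw
    rw [hyw]
    set θ : ℝ := ρ / a with hθ
    have hθ0 : 0 < θ := by (clear * - hρ; positivity)
    have hθ1 : θ < 1 := by
      rw [hθ, div_lt_one ha]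
      exact hρa
    have hsθ : s = θ * (3 - 4 * θ ^ (2 : ℕ)) := by
      rw [hs, hθ]
      have : (3 - ρ ^ (2 : ℕ)) = 3 * a ^ (2 : ℕ) - 4 * ρ ^ (2 : ℕ) := by rw [ha2]; ring
      rw [this]
      field_simp
    have h1 : θ + w / 2 * s ≤ 1 := by
      rcases le_total 0 s with h2 | h2
      · have h3 : w / 2 * s ≤ 3 / 10 * s := mul_le_mul_of_nonneg_right (by linarith only [hw6]) h2
        rw [hsθ] at h3 ⊢
        nlinarith only [h3, mul_nonneg (sq_nonneg (θ - 73 / 100)) (by linarith : (0 : ℝ) ≤ θ + 146 / 100)]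
      · have h3 : w / 2 * s ≤ 0 := mul_nonpos_of_nonneg_of_nonpos (by (clear * - hw0; positivity)) h2
        linarith only [hθ1, h3]
    have h2 := mul_le_mul_of_nonneg_left h1 hw0
    linarith only [h2]
  · have h1 := right_drop h hy1.le hy0
    have e1 : y * sE ρ y - ((1 + ρ ^ (2 : ℕ)) * y ^ (2 : ℕ) / 2 + (3 - ρ ^ (2 : ℕ)) * y ^ (3 : ℕ) / 6) / ρ =
        ρ * (w * v - w ^ (2 : ℕ) / 2 + s * w ^ (3 : ℕ) / 6) := by
      have hη : sE ρ y = -(a * v) := by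
        rw [hv]
        field_simp
      have hy' : y = -(ρ / a * w) := by linarith only [hyw]
      rw [hη, hs, ← ha2]
      generalize w = W at hy' ⊢
      subst hy'
      field_simp
      ring
    rw [e1] at h1
    refine h1.trans (mul_le_mul_of_nonneg_left ?_ hρ.le)
    have h2 : s * w ^ (3 : ℕ) / 6 ≤ w ^ (3 : ℕ) / 6 := by
      have : s * w ^ (3 : ℕ) ≤ 1 * w ^ (3 : ℕ) := mul_le_mul_of_nonneg_right hs1' (by (clear * - hw0; positivity))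
      linarith only [this]
    have h3 : 0 ≤ (w - v) ^ (2 : ℕ) * (1 / 2 - v / 2 - (w - v) / 6 - 13 / 50) :=
      mul_nonneg (sq_nonneg _) (by linarith only [hv2, hw6])
    have h4 : 0 ≤ 13 / 50 * (w - v) ^ (2 : ℕ) - v ^ (2 : ℕ) * (w - v) / 2 + v ^ (4 : ℕ) / 4 := by
      nlinarith only [sq_nonneg ((w - v) - 25 / 26 * v ^ (2 : ℕ))]
    have e2 : v ^ (2 : ℕ) / 2 + v ^ (3 : ℕ) / 6 + v ^ (4 : ℕ) / 4 - (w * v - w ^ (2 : ℕ) / 2 + w ^ (3 : ℕ) / 6) =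
        (w - v) ^ (2 : ℕ) * (1 / 2 - v / 2 - (w - v) / 6 - 13 / 50) +
        (13 / 50 * (w - v) ^ (2 : ℕ) - v ^ (2 : ℕ) * (w - v) / 2 + v ^ (4 : ℕ) / 4) := by ring
    linarith only [h2, h3, h4]

/-! ### levels -/

theorem sD2_le {ρ y : ℝ} (h : Dom ρ y) (hy : y ≤ 0) : sD2 ρ y ≤ (1 + ρ ^ (2 : ℕ)) * Real.exp (-2 * y) := by
  have e : Real.exp (-2 * y) = Real.exp (-y) ^ (2 : ℕ) := by
    rw [← Real.exp_nat_mul]
    congr 1
    push_cast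
    ring
  rw [sD2_eq h, e, mul_pow]
  have : 1 ≤ Real.exp (-y) ^ (2 : ℕ) := one_le_pow₀ (Real.one_le_exp (by linarith only [hy]))
  linarith only [hy, this]

theorem le_sD2 {ρ y : ℝ} (h : Dom ρ y) (hy : 0 ≤ y) : (1 + ρ ^ (2 : ℕ)) * Real.exp (-2 * y) ≤ sD2 ρ y := by
  have e : Real.exp (-2 * y) = Real.exp (-y) ^ (2 : ℕ) := by
    rw [← Real.exp_nat_mul]
    congr 1
    push_cast
    ring
  rw [sD2_eq h, e, mul_pow]
  have : Real.exp (-y) ^ (2 : ℕ) ≤ 1 := pow_le_one₀ (Real.exp_nonneg _) (Real.exp_le_one_iff.2 (by linarith only [hy]))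
  linarith only [hy, this]

theorem rpow_exp {R z : ℝ} (hR : 0 < R) :
    (R * Real.exp z) ^ (1 / 4 : ℝ) = R ^ (1 / 4 : ℝ) * Real.exp (z / 4) := by
  rw [Real.mul_rpow hR.le (Real.exp_nonneg _), ← Real.exp_mul]
  congr 2
  ring

/-- `y ≤ u + u²/(2(1-u))` if `1 - e^(-y) ≤ u < 1` -/
theorem y_le_of {y u : ℝ} (hy : 0 ≤ y) (hu : u < 1) (h : 1 - Real.exp (-y) ≤ u) :
    y ≤ u + u ^ (2 : ℕ) / (2 * (1 - u)) := by
  have h1 : u + u ^ (2 : ℕ) / (2 * (1 - u)) = (1 / (1 - u) - (1 - u)) / 2 := by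
    have : 1 - u ≠ 0 := by linarith only [hu]
    field_simp
    ring
  have hu' : 0 < 1 - u := by linarith only [hu]
  have h3 : 1 - u ≤ Real.exp (-y) := by linarith only [h]
  have h4 : Real.exp y ≤ 1 / (1 - u) := by
    rw [le_div_iff₀ hu']
    have : Real.exp y * Real.exp (-y) = 1 := by rw [← Real.exp_add]; simp
    calc Real.exp y * (1 - u) ≤ Real.exp y * Real.exp (-y) := mul_le_mul_of_nonneg_left h3 (Real.exp_nonneg _)
      _ = 1 := this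
  have h5 := Real.self_le_sinh_iff.2 hy
  rw [Real.sinh_eq] at h5
  rw [h1]
  linarith only [h3, h4, h5]

/-- the end of the domain is far -/
theorem strict_dom {ρ y : ℝ} (h : Dom ρ y) (hy : 0 ≤ y) (hu : sE ρ y / √(1 + ρ ^ (2 : ℕ)) < 1) :
    |y| * Real.exp y < ρ := by
  refine lt_of_le_of_ne h.2 fun he => ?_
  have hρ := h.1
  have hR : 0 < 1 + ρ ^ (2 : ℕ) := by (clear * - hρ; positivity)
  have ha : 0 < √(1 + ρ ^ (2 : ℕ)) := Real.sqrt_pos.2 hR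
  rw [abs_of_nonneg hy] at he
  have h1 : sP ρ y = Real.pi / 2 := by
    unfold sP
    rw [he, div_self hρ.ne', Real.arcsin_one]
  have h2 : sx ρ y = 0 := by
    have h3 := h.cos
    rw [h1, Real.cos_pi_div_two] at h3
    have h4 := Real.exp_pos y
    have h5 : sx ρ y * Real.exp y = 0 := by
      rcases div_eq_zero_iff.1 h3.symm with h6 | h6
      · exact h6
      · exact absurd h6 hρ.ne'
    rcases mul_eq_zero.1 h5 with h6 | h6
    · exact h6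
    · exact absurd h6 h4.ne'
  have h3 : sE ρ y = Real.pi / 2 + ρ := by
    unfold sE
    rw [h1, h2]
    ring
  rw [h3, div_lt_one ha] at hu
  have h4 : √(1 + ρ ^ (2 : ℕ)) ≤ Real.pi / 2 + ρ := by
    have := Real.pi_gt_three
    refine Real.sqrt_le_iff.2 ⟨by (clear * - hρ; positivity), by nlinarith only [hρ, this]⟩
  linarith only [hu, h4]

/-- the gap from the inequality between numbers -/
theorem gap_of {r δ ya yb u V γ : ℝ} (hδ : 0 < δ) (hr : 0 < r) (hDa : Dom (r * δ) ya) (hya1 : -1 < ya)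
    (hya0 : ya ≤ 0) (hDb : Dom (r * δ) yb) (hyb0 : 0 ≤ yb)
    (hu : u = sE (r * δ) yb / √(1 + (r * δ) ^ (2 : ℕ))) (hu0 : 0 ≤ u) (hu1 : u < 1)
    (hV : -sE (r * δ) ya / √(1 + (r * δ) ^ (2 : ℕ)) ≤ V) (hV2 : V ≤ 21 / 50)
    (hnum : γ + (V + (u + u ^ (2 : ℕ) / (2 * (1 - u)))) / 2 ≤
      r * ((u ^ (2 : ℕ) / 2 - u ^ (3 : ℕ) / 6) - (V ^ (2 : ℕ) / 2 + V ^ (3 : ℕ) / 6 + V ^ (4 : ℕ) / 4))) : Gap r δ ya yb γ := by
  have hρ := hDa.1
  set ρ : ℝ := r * δ with hρd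
  have hR : 0 < 1 + ρ ^ (2 : ℕ) := by positivity
  have ha : 0 < √(1 + ρ ^ (2 : ℕ)) := Real.sqrt_pos.2 hR
  have ha2 : √(1 + ρ ^ (2 : ℕ)) ^ (2 : ℕ) = 1 + ρ ^ (2 : ℕ) := Real.sq_sqrt hR.le
  set v : ℝ := -sE ρ ya / √(1 + ρ ^ (2 : ℕ)) with hv
  obtain ⟨hn, hPa⟩ := right_up hDa hya1 hya0 hv (hV.trans hV2)
  have hv0 : 0 ≤ v := by linarith only [hya1, hya0, hn]
  have hPb := left_low hρ (strict_dom hDb hyb0 (by rw [← hu]; exact hu1)) hyb0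
  rw [← hu] at hPb
  have hyb : yb ≤ u + u ^ (2 : ℕ) / (2 * (1 - u)) := by
    refine y_le_of hyb0 hu1 ((one_sub_exp_le hDb hyb0).trans ?_)
    have h1 : ρ * sE ρ yb / (1 + ρ ^ (2 : ℕ)) = ρ / √(1 + ρ ^ (2 : ℕ)) * u := by
      rw [hu, div_mul_div_comm, ← pow_two, ha2]
    rw [h1]
    have h2 : ρ / √(1 + ρ ^ (2 : ℕ)) ≤ 1 := by
      rw [div_le_one ha]
      exact Real.le_sqrt_of_sq_le (by linarith only [])
    nlinarith only [hu0, h2]
  -- powers of `v`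
  have hPa' : ρ - sx ρ ya * (1 + ya) ≤ ρ * (V ^ (2 : ℕ) / 2 + V ^ (3 : ℕ) / 6 + V ^ (4 : ℕ) / 4) := by
    refine hPa.trans (mul_le_mul_of_nonneg_left ?_ hρ.le)
    have m2 : v ^ (2 : ℕ) ≤ V ^ (2 : ℕ) := pow_le_pow_left₀ hv0 hV 2
    have m3 : v ^ (3 : ℕ) ≤ V ^ (3 : ℕ) := pow_le_pow_left₀ hv0 hV 3
    have m4 : v ^ (4 : ℕ) ≤ V ^ (4 : ℕ) := pow_le_pow_left₀ hv0 hV 4
    linarith only [m2, m3, m4]
  have hδr : ρ / δ = r := by rw [hρd]; field_simp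
  have hmain : γ + (-ya + yb) / 2 + sx ρ yb * (1 + yb) / δ ≤ sx ρ ya * (1 + ya) / δ := by
    have h1 : sx ρ ya * (1 + ya) / δ - sx ρ yb * (1 + yb) / δ =
        ((ρ - sx ρ yb * (1 + yb)) - (ρ - sx ρ ya * (1 + ya))) / δ := by ring
    have h2 : ρ * ((u ^ (2 : ℕ) / 2 - u ^ (3 : ℕ) / 6) - (V ^ (2 : ℕ) / 2 + V ^ (3 : ℕ) / 6 + V ^ (4 : ℕ) / 4)) ≤
        (ρ - sx ρ yb * (1 + yb)) - (ρ - sx ρ ya * (1 + ya)) := by
      rw [mul_sub]
      linarith only [hPb, hPa']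
    have h3 := div_le_div_of_nonneg_right h2 hδ.le
    rw [← h1, mul_div_right_comm, hδr] at h3
    linarith only [hnum, hV, hn, hyb, h3]
  have hg0 : Real.exp γ * sM r δ yb ≤ sM r δ ya := by
    have hDap := sD2_pos (ρ := ρ) hya1
    have hDbp := sD2_pos (ρ := ρ) (y := yb) (by linarith only [hyb0])
    have hR4 : 0 < (1 + ρ ^ (2 : ℕ)) ^ (1 / 4 : ℝ) := Real.rpow_pos_of_pos hR _
    have k1 : (sD2 ρ ya) ^ (1 / 4 : ℝ) ≤ (1 + ρ ^ (2 : ℕ)) ^ (1 / 4 : ℝ) * Real.exp (-ya / 2) := by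
      have := Real.rpow_le_rpow hDap.le (sD2_le hDa hya0) (by norm_num : (0 : ℝ) ≤ 1 / 4)
      rw [rpow_exp hR] at this
      refine this.trans (le_of_eq ?_)
      congr 2
      ring
    have k2 : (1 + ρ ^ (2 : ℕ)) ^ (1 / 4 : ℝ) * Real.exp (-yb / 2) ≤ (sD2 ρ yb) ^ (1 / 4 : ℝ) := by
      have := Real.rpow_le_rpow (by (clear * - hr hδ; positivity)) (le_sD2 hDb hyb0) (by norm_num : (0 : ℝ) ≤ 1 / 4)
      rw [rpow_exp hR] at this
      refine (le_of_eq ?_).trans this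
      congr 2
      ring
    have p1 : 0 < (sD2 ρ ya) ^ (1 / 4 : ℝ) := Real.rpow_pos_of_pos hDap _
    have p2 : 0 < (sD2 ρ yb) ^ (1 / 4 : ℝ) := Real.rpow_pos_of_pos hDbp _
    have q1 : Real.exp (sx ρ ya * (1 + ya) / δ) / ((1 + ρ ^ (2 : ℕ)) ^ (1 / 4 : ℝ) * Real.exp (-ya / 2)) ≤ sM r δ ya := by
      unfold sM
      rw [← hρd]
      exact div_le_div_of_nonneg_left (Real.exp_nonneg _) p1 k1
    have q2 : sM r δ yb ≤ Real.exp (sx ρ yb * (1 + yb) / δ) / ((1 + ρ ^ (2 : ℕ)) ^ (1 / 4 : ℝ) * Real.exp (-yb / 2)) := by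
      unfold sM
      rw [← hρd]
      exact div_le_div_of_nonneg_left (Real.exp_nonneg _) (by positivity) k2
    refine (mul_le_mul_of_nonneg_left q2 (Real.exp_nonneg _)).trans (le_trans ?_ q1)
    have e1 : Real.exp γ * (Real.exp (sx ρ yb * (1 + yb) / δ) /
        ((1 + ρ ^ (2 : ℕ)) ^ (1 / 4 : ℝ) * Real.exp (-yb / 2))) =
        Real.exp (γ + sx ρ yb * (1 + yb) / δ + yb / 2) / (1 + ρ ^ (2 : ℕ)) ^ (1 / 4 : ℝ) := by
      have : Real.exp (-yb / 2) = (Real.exp (yb / 2))⁻¹ := by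
        rw [← Real.exp_neg]
        congr 1
        ring
      rw [this, Real.exp_add, Real.exp_add]
      field_simp
    have e2 : Real.exp (sx ρ ya * (1 + ya) / δ) / ((1 + ρ ^ (2 : ℕ)) ^ (1 / 4 : ℝ) * Real.exp (-ya / 2)) =
        Real.exp (sx ρ ya * (1 + ya) / δ + ya / 2) / (1 + ρ ^ (2 : ℕ)) ^ (1 / 4 : ℝ) := by
      have : Real.exp (-ya / 2) = (Real.exp (ya / 2))⁻¹ := by
        rw [← Real.exp_neg]
        congr 1
        ring
      rw [this, Real.exp_add]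
      field_simp
    rw [e1, e2]
    refine div_le_div_of_nonneg_right (Real.exp_le_exp.2 ?_) hR4.le
    linarith only [hmain]
  refine ⟨hg0, ?_⟩
  have hk : ‖kap r δ yb‖ ≤ ‖kap r δ ya‖ := by
    unfold kap
    rw [← hρd, norm_div, norm_div, norm_sK hDb, norm_sK hDa]
    refine div_le_div_of_nonneg_right (mul_le_mul_of_nonneg_left (Real.exp_le_exp.2 (by linarith only [hya0, hyb0])) hρ.le)
      (norm_nonneg _)
  calc Real.exp γ * (‖kap r δ yb‖ * sM r δ yb) = ‖kap r δ yb‖ * (Real.exp γ * sM r δ yb) := by ring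
    _ ≤ ‖kap r δ ya‖ * sM r δ ya :=
        mul_le_mul hk hg0 (mul_nonneg (Real.exp_nonneg _) (sM_pos (by linarith only [hyb0])).le) (norm_nonneg _)

/-! ### numbers -/

theorem num1 {r t : ℝ} (hr : 499 / 10 ≤ r) (ht : 0 ≤ t) (hG : 27 / 5 ≤ r * t ^ (2 : ℕ)) (hG2 : r * t ^ (2 : ℕ) < 10) :
    17 / 20 + (1 / 4 * t + (3 / 4 * t + (3 / 4 * t) ^ (2 : ℕ) / (2 * (1 - 3 / 4 * t)))) / 2 ≤
      r * (((3 / 4 * t) ^ (2 : ℕ) / 2 - (3 / 4 * t) ^ (3 : ℕ) / 6) -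
        ((1 / 4 * t) ^ (2 : ℕ) / 2 + (1 / 4 * t) ^ (3 : ℕ) / 6 + (1 / 4 * t) ^ (4 : ℕ) / 4)) := by
  have ht2 : t ^ (2 : ℕ) ≤ (9 / 20) ^ (2 : ℕ) := by
    have : 499 / 10 * t ^ (2 : ℕ) ≤ r * t ^ (2 : ℕ) := mul_le_mul_of_nonneg_right hr (sq_nonneg t)
    linarith only [hG2, this]
  have ht1 : t ≤ 9 / 20 := by
    refine abs_le_of_sq_le_sq' ht2 (by norm_num) |>.2
  have e : r * (((3 / 4 * t) ^ (2 : ℕ) / 2 - (3 / 4 * t) ^ (3 : ℕ) / 6) -
        ((1 / 4 * t) ^ (2 : ℕ) / 2 + (1 / 4 * t) ^ (3 : ℕ) / 6 + (1 / 4 * t) ^ (4 : ℕ) / 4)) =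
      (r * t ^ (2 : ℕ)) * (1 / 4 - 7 / 96 * t - t ^ (2 : ℕ) / 1024) := by ring
  rw [e]
  have h1 : 27 / 5 * (217 / 1000) ≤ (r * t ^ (2 : ℕ)) * (1 / 4 - 7 / 96 * t - t ^ (2 : ℕ) / 1024) := by
    refine mul_le_mul hG ?_ (by norm_num) (by linarith only [hG])
    nlinarith only [hr, hG2, ht1]
  have h2 : (3 / 4 * t) ^ (2 : ℕ) / (2 * (1 - 3 / 4 * t)) ≤ 9 / 100 := by
    rw [div_le_iff₀ (by linarith only [ht1])]
    nlinarith only [ht2]
  linarith only [ht1, h1, h2]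

theorem num2 {r t : ℝ} (hr : 499 / 10 ≤ r) (ht : 0 ≤ t) (hG : 10 ≤ r * t ^ (2 : ℕ)) (hG2 : r * t ^ (2 : ℕ) < 20) :
    17 / 20 + (7 / 20 * t + (13 / 20 * t + (13 / 20 * t) ^ (2 : ℕ) / (2 * (1 - 13 / 20 * t)))) / 2 ≤
      r * (((13 / 20 * t) ^ (2 : ℕ) / 2 - (13 / 20 * t) ^ (3 : ℕ) / 6) -
        ((7 / 20 * t) ^ (2 : ℕ) / 2 + (7 / 20 * t) ^ (3 : ℕ) / 6 + (7 / 20 * t) ^ (4 : ℕ) / 4)) := by
  have h0 : 499 / 10 * t ^ (2 : ℕ) ≤ r * t ^ (2 : ℕ) := mul_le_mul_of_nonneg_right hr (sq_nonneg t)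
  have ht2 : t ^ (2 : ℕ) ≤ (16 / 25) ^ (2 : ℕ) := by linarith only [hG2, h0]
  have ht1 : t ≤ 16 / 25 := by
    refine abs_le_of_sq_le_sq' ht2 (by norm_num) |>.2
  have e : r * (((13 / 20 * t) ^ (2 : ℕ) / 2 - (13 / 20 * t) ^ (3 : ℕ) / 6) -
        ((7 / 20 * t) ^ (2 : ℕ) / 2 + (7 / 20 * t) ^ (3 : ℕ) / 6 + (7 / 20 * t) ^ (4 : ℕ) / 4)) =
      (r * t ^ (2 : ℕ)) * (3 / 20 - 127 / 2400 * t - 2401 / 640000 * t ^ (2 : ℕ)) := by ring
  rw [e]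
  rcases le_total t (1 / 2) with h5 | h5
  · have h1 : 10 * (122 / 1000) ≤ (r * t ^ (2 : ℕ)) * (3 / 20 - 127 / 2400 * t - 2401 / 640000 * t ^ (2 : ℕ)) := by
      refine mul_le_mul hG ?_ (by norm_num) (by linarith only [hG])
      linarith only [ht2, h5]
    have h2 : (13 / 20 * t) ^ (2 : ℕ) / (2 * (1 - 13 / 20 * t)) ≤ 8 / 100 := by
      rw [div_le_iff₀ (by linarith only [h5])]
      nlinarith only [ht2, h5]
    linarith only [h5, h1, h2]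
  · have h6 : 1247 / 100 ≤ r * t ^ (2 : ℕ) := by nlinarith only [h0, h5]
    have h1 : 1247 / 100 * (114 / 1000) ≤ (r * t ^ (2 : ℕ)) * (3 / 20 - 127 / 2400 * t - 2401 / 640000 * t ^ (2 : ℕ)) := by
      refine mul_le_mul h6 ?_ (by norm_num) (by linarith only [h6])
      nlinarith only [ht2]
    have h2 : (13 / 20 * t) ^ (2 : ℕ) / (2 * (1 - 13 / 20 * t)) ≤ 15 / 100 := by
      rw [div_le_iff₀ (by linarith only [ht1])]
      nlinarith only [ht1, h5]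
    linarith only [ht1, h1, h2]

theorem num3 {r t : ℝ} (hr : 499 / 10 ≤ r) (ht : 0 ≤ t) (hG : 20 ≤ r * t ^ (2 : ℕ)) (ht2 : t ^ (2 : ℕ) ≤ 11 / 10) :
    17 / 20 + (2 / 5 * t + (3 / 5 * t + (3 / 5 * t) ^ (2 : ℕ) / (2 * (1 - 3 / 5 * t)))) / 2 ≤
      r * (((3 / 5 * t) ^ (2 : ℕ) / 2 - (3 / 5 * t) ^ (3 : ℕ) / 6) -
        ((2 / 5 * t) ^ (2 : ℕ) / 2 + (2 / 5 * t) ^ (3 : ℕ) / 6 + (2 / 5 * t) ^ (4 : ℕ) / 4)) := by
  have h0 : 499 / 10 * t ^ (2 : ℕ) ≤ r * t ^ (2 : ℕ) := mul_le_mul_of_nonneg_right hr (sq_nonneg t)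
  have ht1 : t ≤ 21 / 20 := by
    refine abs_le_of_sq_le_sq' (ht2.trans (by norm_num)) (by norm_num) |>.2
  have e : r * (((3 / 5 * t) ^ (2 : ℕ) / 2 - (3 / 5 * t) ^ (3 : ℕ) / 6) -
        ((2 / 5 * t) ^ (2 : ℕ) / 2 + (2 / 5 * t) ^ (3 : ℕ) / 6 + (2 / 5 * t) ^ (4 : ℕ) / 4)) =
      (r * t ^ (2 : ℕ)) * (1 / 10 - 7 / 150 * t - 4 / 625 * t ^ (2 : ℕ)) := by ring
  rw [e]
  rcases le_total t (16 / 25) with h5 | h5
  · have h1 : 20 * (67 / 1000) ≤ (r * t ^ (2 : ℕ)) * (1 / 10 - 7 / 150 * t - 4 / 625 * t ^ (2 : ℕ)) := by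
      refine mul_le_mul hG ?_ (by norm_num) (by linarith only [hG])
      nlinarith only [ht2, h5]
    have h2 : (3 / 5 * t) ^ (2 : ℕ) / (2 * (1 - 3 / 5 * t)) ≤ 13 / 100 := by
      rw [div_le_iff₀ (by linarith only [h5])]
      nlinarith only [ht2, h5]
    linarith only [h5, h1, h2]
  · have h3 : 0 ≤ 1 / 10 - 7 / 150 * t - 4 / 625 * t ^ (2 : ℕ) := by nlinarith only [ht1, h5]
    have h1 : 499 / 10 * t ^ (2 : ℕ) * (1 / 10 - 7 / 150 * t - 4 / 625 * t ^ (2 : ℕ)) ≤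
        (r * t ^ (2 : ℕ)) * (1 / 10 - 7 / 150 * t - 4 / 625 * t ^ (2 : ℕ)) := mul_le_mul_of_nonneg_right h0 h3
    have h2 : (3 / 5 * t) ^ (2 : ℕ) / (2 * (1 - 3 / 5 * t)) ≤ 49 / 100 * t ^ (2 : ℕ) := by
      rw [div_le_iff₀ (by linarith only [ht1])]
      nlinarith only [mul_nonneg (sq_nonneg t) (by linarith : (0 : ℝ) ≤ 21 / 20 - t)]
    have h4 : 17 / 20 + t / 2 + 49 / 200 * t ^ (2 : ℕ) ≤
        499 / 10 * t ^ (2 : ℕ) * (1 / 10 - 7 / 150 * t - 4 / 625 * t ^ (2 : ℕ)) := by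
      nlinarith only [mul_nonneg (by linarith : (0 : ℝ) ≤ t - 16 / 25) (by linarith : (0 : ℝ) ≤ 21 / 20 - t)]
    linarith only [h1, h2, h4]

/-! ### the field -/

theorem hst_pos_gapR {N : ℕ} (hN : 3 ≤ N) : 0 < hst N := by
  unfold hst
  have := Real.pi_pos
  have : (0 : ℝ) < N := by exact_mod_cast (by omega : 0 < N)
  positivity

/-- the sign of `y` from the sign of `η` -/
theorem y_nonpos {r δ y η : ℝ} (h : At r δ y η) (hη : η ≤ 0) : y ≤ 0 := by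
  by_contra hcon
  push Not at hcon
  have h1 := sE_strictMonoOn (dom_zero h.dom.1) h.dom (by norm_num)
    (left_mem_Icc.2 hcon.le) (right_mem_Icc.2 hcon.le) hcon
  rw [sE_zero h.dom.1, h.eta] at h1
  linarith only [hη, h1]

theorem y_nonneg {r δ y η : ℝ} (h : At r δ y η) (hη : 0 ≤ η) : 0 ≤ y := by
  by_contra hcon
  push Not at hcon
  have h1 := sE_strictMonoOn h.dom (dom_zero h.dom.1) h.y1.le
    (left_mem_Icc.2 hcon.le) (right_mem_Icc.2 hcon.le) hcon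
  rw [sE_zero h.dom.1, h.eta] at h1
  linarith only [hη, h1]

/-- PIECE GAP, `R`. -/
theorem gapR (N : ℕ) (r δ ya yb η : ℝ) (hreg : Reg1 N r δ) (hAa : At r δ ya η)
    (hAb : At r δ yb (eo1 N r δ)) (hη0 : η ≤ 0) (hη1 : -ei1 N r δ ≤ η) : Gap r δ ya yb (17 / 20) := by
  have hr := hreg.r0
  have hr0 : 0 < r := by linarith only [hr]
  have hδ := hreg.d0
  have hh := hst_pos_gapR hreg.N3
  have hR : 0 < 1 + (r * δ) ^ (2 : ℕ) := by (clear * - hr hδ; positivity)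
  have ha : 0 < √(1 + (r * δ) ^ (2 : ℕ)) := Real.sqrt_pos.2 hR
  have ha2 : √(1 + (r * δ) ^ (2 : ℕ)) ^ (2 : ℕ) = 1 + (r * δ) ^ (2 : ℕ) := Real.sq_sqrt hR.le
  set t : ℝ := hst N / √(1 + (r * δ) ^ (2 : ℕ)) with ht
  have ht0 : 0 < t := by (clear * - hh hr hδ; positivity)
  have hGt : Gm N r δ = r * t ^ (2 : ℕ) := by
    unfold Gm RR
    rw [ht, div_pow, ha2]
    ring
  have htI : t ^ (2 : ℕ) ≤ 11 / 10 := by
    have := hreg.I
    unfold RR at this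
    rw [ht, div_pow, ha2, div_le_iff₀ hR]
    exact this
  have hG := hreg.G
  have ht1 : t ≤ 21 / 20 := abs_le_of_sq_le_sq' (htI.trans (by norm_num)) (by norm_num) |>.2
  -- the general step
  have step : ∀ om : ℝ, om1 N r δ = om → 0 ≤ om → om ≤ 1 / 4 → (1 / 2 + om) * t < 1 → (1 / 2 - om) * t ≤ 21 / 50 →
      (17 / 20 + ((1 / 2 - om) * t + ((1 / 2 + om) * t + ((1 / 2 + om) * t) ^ (2 : ℕ) / (2 * (1 - (1 / 2 + om) * t)))) / 2 ≤
      r * ((((1 / 2 + om) * t) ^ (2 : ℕ) / 2 - ((1 / 2 + om) * t) ^ (3 : ℕ) / 6) -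
        (((1 / 2 - om) * t) ^ (2 : ℕ) / 2 + ((1 / 2 - om) * t) ^ (3 : ℕ) / 6 + ((1 / 2 - om) * t) ^ (4 : ℕ) / 4))) →
      Gap r δ ya yb (17 / 20) := by
    intro om hom hom0 hom1 h1 h2 h3
    have heo : eo1 N r δ = (1 / 2 + om) * hst N := by unfold eo1; rw [hom]
    have hei : ei1 N r δ = (1 / 2 - om) * hst N := by unfold ei1; rw [hom]
    have heo0 : 0 ≤ eo1 N r δ := by
      rw [heo]
      (clear * - hom0 hh; positivity)
    refine gap_of hδ hr0 hAa.dom hAa.y1 (y_nonpos hAa hη0) hAb.dom (y_nonneg hAb heo0)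
      (u := (1 / 2 + om) * t) (V := (1 / 2 - om) * t) ?_ (by (clear * - hom0 hh hr hδ; positivity)) h1 ?_ h2 h3
    · rw [hAb.eta, heo, ht]
      ring
    · rw [hAa.eta, ht, ← mul_div_assoc]
      refine div_le_div_of_nonneg_right ?_ ha.le
      rw [← hei]
      linarith only [hη1]
  rw [hGt] at hG
  by_cases c1 : Gm N r δ < 10
  · have c1' := c1
    rw [hGt] at c1'
    have hn := num1 hr ht0.le hG c1'
    have ht2 : t ^ (2 : ℕ) ≤ (9 / 20) ^ (2 : ℕ) := by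
      have : 499 / 10 * t ^ (2 : ℕ) ≤ r * t ^ (2 : ℕ) := mul_le_mul_of_nonneg_right hr (sq_nonneg t)
      linarith only [c1', this]
    have ht3 : t ≤ 9 / 20 := abs_le_of_sq_le_sq' ht2 (by norm_num) |>.2
    refine step (1 / 4) (by unfold om1; rw [if_pos c1]) (by norm_num) (by norm_num) (by linarith only [ht3]) (by linarith only [ht3]) ?_
    norm_num at hn ⊢
    exact hn
  · by_cases c2 : Gm N r δ < 20
    · have c2' := c2
      rw [hGt] at c2'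
      have c1' : 10 ≤ r * t ^ (2 : ℕ) := by rw [← hGt]; exact not_lt.1 c1
      have hn := num2 hr ht0.le c1' c2'
      have ht2 : t ^ (2 : ℕ) ≤ (16 / 25) ^ (2 : ℕ) := by
        have : 499 / 10 * t ^ (2 : ℕ) ≤ r * t ^ (2 : ℕ) := mul_le_mul_of_nonneg_right hr (sq_nonneg t)
        linarith only [c2', this]
      have ht3 : t ≤ 16 / 25 := abs_le_of_sq_le_sq' ht2 (by norm_num) |>.2
      refine step (3 / 20) (by unfold om1; rw [if_neg c1, if_pos c2]) (by norm_num) (by norm_num) (by linarith only [ht3])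
        (by linarith only [ht3]) ?_
      norm_num at hn ⊢
      exact hn
    · have c2' : 20 ≤ r * t ^ (2 : ℕ) := by rw [← hGt]; exact not_lt.1 c2
      have hn := num3 hr ht0.le c2' htI
      refine step (1 / 10) (by unfold om1; rw [if_neg c1, if_neg c2]) (by norm_num) (by norm_num) (by linarith only [ht1])
        (by linarith only [ht1]) ?_
      norm_num at hn ⊢
      exact hn

end SokamV3

end

/-! ### Lib_MP_af4de1_v3.LevR0 -/

section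
namespace SokamF1
end SokamF1
namespace SokamF1M
end SokamF1M
namespace SokamF1S
end SokamF1S
namespace SokamU
end SokamU
/-!
# The level lemma on the right side: fields `l0` and `l1`

`n = -y`, `u = ρ²`, `t = -η`: `ρ t ≥ n (a + u b)` (`SadBase.sE_le_neg`), `K - x ≤ μ n²/(2 K)`, `K = |K| = ρ e^n`,
and the polynomial certificates of `LevRC.lean`.
-/

set_option autoImplicit false

namespace SokamV3

open Complex SokamU SokamF1 SokamF1S SokamF1M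

/-- `ρ t ≥ n (a + u b)`. -/
theorem lr_rt {ρ n : ℝ} (h : Dom ρ (-n)) (h0 : 0 ≤ n) (h1 : n ≤ 53 / 100) :
    n * ((1 - 3 / 2 * n + n ^ (2 : ℕ) - 5 / 12 * n ^ (3 : ℕ)) + ρ ^ (2 : ℕ) * (1 + 1 / 2 * n + 1 / 6 * n ^ (2 : ℕ))) ≤
      ρ * -sE ρ (-n) := by
  have hρ : 0 < ρ := h.1
  have h2 := sE_le_neg h h0 (by linarith)
  have h3 : 1 + n + n ^ (2 : ℕ) / 2 + n ^ (3 : ℕ) / 6 ≤ Real.exp n := SokamF1G.e_ge3 h0
  have h4 : 1 - n + n ^ (2 : ℕ) / 2 - n ^ (3 : ℕ) / 6 ≤ Real.exp (-n) := SokamF1G.en_ge3 h0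
  have h5 := mul_le_mul_of_nonneg_left h2 hρ.le
  have e5 : ρ * (ρ * (Real.exp n - 1) + (n - n ^ (2 : ℕ) / 2) * Real.exp (-n) / ρ) =
      ρ ^ (2 : ℕ) * (Real.exp n - 1) + (n - n ^ (2 : ℕ) / 2) * Real.exp (-n) := by field_simp
  rw [e5] at h5
  refine le_trans ?_ h5
  have h6 : 0 ≤ n - n ^ (2 : ℕ) / 2 := by nlinarith only [h0, h1]
  have h7 := mul_le_mul_of_nonneg_left h4 h6
  have h8 := mul_le_mul_of_nonneg_left h3 (sq_nonneg ρ)
  have h9 : 0 ≤ n ^ (5 : ℕ) := by positivity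
  linarith only [h7, h8, h9]

/-- `2 K (K - x) ≤ μ n²`, `K = ρ e^n`. -/
theorem lr_x {ρ n μ θ : ℝ} (h : Dom ρ (-n)) (h0 : 0 ≤ n) (hT : n ≤ θ * sx ρ (-n))
    (hμ0 : 0 ≤ μ) (hμ : (2 - μ) ^ (2 : ℕ) * (1 + θ ^ (2 : ℕ)) ≤ μ ^ (2 : ℕ)) :
    2 * (ρ * Real.exp n) * (ρ * Real.exp n - sx ρ (-n)) ≤ μ * n ^ (2 : ℕ) := by
  have hρ : 0 < ρ := h.1
  have h1 := sx_sq_add h
  have h2 := sx_nonneg ρ (-n)
  have h3 := sx_le h
  rw [neg_neg] at h1 h3
  set x := sx ρ (-n) with hx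
  set K := ρ * Real.exp n with hK
  have hK0 : 0 < K := by positivity
  have h4 : (-n) ^ (2 : ℕ) = n ^ (2 : ℕ) := by ring
  rw [h4] at h1
  have h5 : n ^ (2 : ℕ) ≤ θ ^ (2 : ℕ) * x ^ (2 : ℕ) := by
    have := mul_self_le_mul_self h0 hT
    linarith only [this]
  have h6 : (2 - μ) * K ≤ μ * x := by
    have h7 : ((2 - μ) * K) ^ (2 : ℕ) ≤ (μ * x) ^ (2 : ℕ) := by
      have e1 : ((2 - μ) * K) ^ (2 : ℕ) = (2 - μ) ^ (2 : ℕ) * K ^ (2 : ℕ) := by ring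
      rw [e1, ← h1]
      have h8 := mul_le_mul_of_nonneg_right hμ (sq_nonneg x)
      have h9 := mul_le_mul_of_nonneg_left h5 (sq_nonneg (2 - μ))
      linarith only [h8, h9]
    exact le_of_abs_le (abs_le_of_sq_le_sq h7 (by positivity))
  have h7 : 0 ≤ K - x := by linarith
  have h8 := mul_le_mul_of_nonneg_right (show 2 * K ≤ μ * (K + x) by linarith) h7
  nlinarith only [h2, h1, hK0, h6]

/-- field `l0` -/
theorem lr_l0 {ρ n μ g : ℝ} (h : Dom ρ (-n)) (h0 : 0 ≤ n) (h1 : n ≤ 53 / 100) (hμ : 0 ≤ μ)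
    (hg : 0 ≤ g)
    (hx : 2 * (ρ * Real.exp n) * (ρ * Real.exp n - sx ρ (-n)) ≤ μ * n ^ (2 : ℕ))
    (hc : (1 + ρ ^ (2 : ℕ)) * (ρ ^ (2 : ℕ) * (1 + 2 / 3 * n + 3 / 10 * n ^ (2 : ℕ)) +
      (μ * (1 - 2 * n + 3 / 2 * n ^ (2 : ℕ) - 1 / 2 * n ^ (3 : ℕ)))) ≤
      g * ((1 - 3 / 2 * n + n ^ (2 : ℕ) - 5 / 12 * n ^ (3 : ℕ)) + ρ ^ (2 : ℕ) * (1 + 1 / 2 * n + 1 / 6 * n ^ (2 : ℕ))) ^ (2 : ℕ)) :
    ρ - (1 - n) * sx ρ (-n) ≤ g / 2 * (ρ * sE ρ (-n) ^ (2 : ℕ) / (1 + ρ ^ (2 : ℕ))) := by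
  have hρ : 0 < ρ := h.1
  have hR : 0 < 1 + ρ ^ (2 : ℕ) := by positivity
  have ht := lr_rt h h0 h1
  have hp0 : 0 ≤ 1 - 3 / 2 * n + n ^ (2 : ℕ) - 5 / 12 * n ^ (3 : ℕ) := by nlinarith only [h1]
  set x := sx ρ (-n) with hxx
  set p := (1 - 3 / 2 * n + n ^ (2 : ℕ) - 5 / 12 * n ^ (3 : ℕ)) + ρ ^ (2 : ℕ) * (1 + 1 / 2 * n + 1 / 6 * n ^ (2 : ℕ)) with hp
  set s := sE ρ (-n) with hs
  have hpp : 0 ≤ p := by positivity
  have ht2 : (n * p) ^ (2 : ℕ) ≤ (ρ * s) ^ (2 : ℕ) := by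
    have h2 : 0 ≤ n * p := by positivity
    have := mul_self_le_mul_self h2 ht
    linarith only [this]
  have hE := Real.exp_pos n
  have hE' := Real.exp_pos (-n)
  have e1 := exp_mul_neg n
  -- 2 ρ (ρ e^n - x) ≤ μ n² e^{-n}
  have h3 : 2 * ρ * (ρ * Real.exp n - x) ≤ μ * n ^ (2 : ℕ) * Real.exp (-n) := by
    have h4 := mul_le_mul_of_nonneg_right hx hE'.le
    have e2 : 2 * (ρ * Real.exp n) * (ρ * Real.exp n - x) * Real.exp (-n) =
        2 * ρ * (ρ * Real.exp n - x) * (Real.exp n * Real.exp (-n)) := by ring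
    rw [e2, e1, mul_one] at h4
    exact h4
  have h5 : 1 + n + n ^ (2 : ℕ) / 2 + n ^ (3 : ℕ) / 6 + n ^ (4 : ℕ) / 24 ≤ Real.exp n := by
    have h := Real.sum_le_exp_of_nonneg h0 5
    simp only [Finset.sum_range_succ, Finset.sum_range_zero, Nat.factorial] at h
    norm_num at h
    linarith
  have h6 : 1 - (1 - n) * Real.exp n ≤ n ^ (2 : ℕ) / 2 * (1 + 2 / 3 * n + 3 / 10 * n ^ (2 : ℕ)) := by
    have h7 := mul_le_mul_of_nonneg_left h5 (show 0 ≤ 1 - n by linarith)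
    have h8 : 0 ≤ n ^ (4 : ℕ) * (3 / 5 - n) := mul_nonneg (by positivity) (by linarith)
    linarith only [h7, h8]
  have h7 : (1 - n) * Real.exp (-n) ≤ 1 - 2 * n + 3 / 2 * n ^ (2 : ℕ) - 1 / 2 * n ^ (3 : ℕ) := by
    have h8 := mul_le_mul_of_nonneg_left (SokamF1G.en_le2 h0) (show 0 ≤ 1 - n by linarith)
    linarith only [h8]
  have h8 : 2 * ρ * (ρ - (1 - n) * x) ≤ n ^ (2 : ℕ) * (ρ ^ (2 : ℕ) * (1 + 2 / 3 * n + 3 / 10 * n ^ (2 : ℕ)) +
      (μ * (1 - 2 * n + 3 / 2 * n ^ (2 : ℕ) - 1 / 2 * n ^ (3 : ℕ)))) := by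
    have h9 := mul_le_mul_of_nonneg_left h3 (show 0 ≤ 1 - n by linarith)
    have h10 := mul_le_mul_of_nonneg_left h6 (show 0 ≤ 2 * ρ ^ (2 : ℕ) by positivity)
    have h11 := mul_le_mul_of_nonneg_left h7 (show 0 ≤ μ * n ^ (2 : ℕ) by positivity)
    linarith only [h9, h10, h11]
  have h9 := mul_le_mul_of_nonneg_left hc (sq_nonneg n)
  have h10 := mul_le_mul_of_nonneg_left ht2 hg
  have h11 := mul_le_mul_of_nonneg_left h8 hR.le
  have h12 : (2 * ρ * (1 + ρ ^ (2 : ℕ))) * (ρ - (1 - n) * x) ≤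
      (2 * ρ * (1 + ρ ^ (2 : ℕ))) * (g / 2 * (ρ * s ^ (2 : ℕ) / (1 + ρ ^ (2 : ℕ)))) := by
    have e3 : (2 * ρ * (1 + ρ ^ (2 : ℕ))) * (g / 2 * (ρ * s ^ (2 : ℕ) / (1 + ρ ^ (2 : ℕ)))) = g * (ρ * s) ^ (2 : ℕ) := by
      field_simp
    rw [e3]
    nlinarith only [h8, h9, h10]
  exact le_of_mul_le_mul_left h12 (by positivity)

/-- field `l1` -/
theorem lr_l1 {ρ n μ k : ℝ} (h : Dom ρ (-n)) (h0 : 0 ≤ n) (h1 : n ≤ 53 / 100) (hμ : 0 ≤ μ)
    (hx : 2 * (ρ * Real.exp n) * (ρ * Real.exp n - sx ρ (-n)) ≤ μ * n ^ (2 : ℕ))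
    (hc : (1 + ρ ^ (2 : ℕ)) * (ρ ^ (2 : ℕ) * (1 + 1 / 2 * n + 1 / 6 * n ^ (2 : ℕ) + 3 / 50 * n ^ (3 : ℕ)) ^ (2 : ℕ) +
      (μ * (1 - n + 1 / 2 * n ^ (2 : ℕ)))) ≤
      k ^ (2 : ℕ) * ((1 - 3 / 2 * n + n ^ (2 : ℕ) - 5 / 12 * n ^ (3 : ℕ)) + ρ ^ (2 : ℕ) * (1 + 1 / 2 * n + 1 / 6 * n ^ (2 : ℕ))) ^ (2 : ℕ)) :
    (1 + ρ ^ (2 : ℕ)) * ((sx ρ (-n) - ρ) ^ (2 : ℕ) + n ^ (2 : ℕ)) ≤ k ^ (2 : ℕ) * (ρ * sE ρ (-n)) ^ (2 : ℕ) := by
  have hρ : 0 < ρ := h.1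
  have hR : 0 < 1 + ρ ^ (2 : ℕ) := by positivity
  have ht := lr_rt h h0 h1
  have hp0 : 0 ≤ 1 - 3 / 2 * n + n ^ (2 : ℕ) - 5 / 12 * n ^ (3 : ℕ) := by nlinarith only [h1]
  have hK := sx_sq_add h
  rw [neg_neg, neg_sq] at hK
  set x := sx ρ (-n) with hxx
  set p := (1 - 3 / 2 * n + n ^ (2 : ℕ) - 5 / 12 * n ^ (3 : ℕ)) + ρ ^ (2 : ℕ) * (1 + 1 / 2 * n + 1 / 6 * n ^ (2 : ℕ)) with hp
  set s := sE ρ (-n) with hs
  have hpp : 0 ≤ p := by positivity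
  have ht2 : (n * p) ^ (2 : ℕ) ≤ (ρ * s) ^ (2 : ℕ) := by
    have h2 : 0 ≤ n * p := by positivity
    have := mul_self_le_mul_self h2 ht
    linarith only [this]
  have hE := Real.exp_pos n
  have hE' := Real.exp_pos (-n)
  have e1 := exp_mul_neg n
  have h3 : 2 * ρ * (ρ * Real.exp n - x) ≤ μ * n ^ (2 : ℕ) * Real.exp (-n) := by
    have h4 := mul_le_mul_of_nonneg_right hx hE'.le
    have e2 : 2 * (ρ * Real.exp n) * (ρ * Real.exp n - x) * Real.exp (-n) =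
        2 * ρ * (ρ * Real.exp n - x) * (Real.exp n * Real.exp (-n)) := by ring
    rw [e2, e1, mul_one] at h4
    exact h4
  -- e^n - 1 ≤ n b'
  have h5 : Real.exp n - 1 ≤ n * (1 + 1 / 2 * n + 1 / 6 * n ^ (2 : ℕ) + 3 / 50 * n ^ (3 : ℕ)) := by
    have h6 := Real.exp_bound' h0 (show n ≤ 1 by linarith) (n := 5) (by norm_num)
    simp only [Finset.sum_range_succ, Finset.sum_range_zero, Nat.factorial] at h6
    norm_num at h6
    have h7 : 0 ≤ n ^ (4 : ℕ) * (1 - n) := mul_nonneg (by positivity) (by linarith)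
    nlinarith only [h6, h7]
  have h5' : 0 ≤ Real.exp n - 1 := by
    have := Real.add_one_le_exp n
    linarith
  have h6 : (Real.exp n - 1) ^ (2 : ℕ) ≤ n ^ (2 : ℕ) * (1 + 1 / 2 * n + 1 / 6 * n ^ (2 : ℕ) + 3 / 50 * n ^ (3 : ℕ)) ^ (2 : ℕ) := by
    have := mul_self_le_mul_self h5' h5
    linarith only [this]
  have h7 := mul_le_mul_of_nonneg_left (SokamF1G.en_le2 h0) (show 0 ≤ μ * n ^ (2 : ℕ) by positivity)
  have h8 : (x - ρ) ^ (2 : ℕ) + n ^ (2 : ℕ) ≤ n ^ (2 : ℕ) * (ρ ^ (2 : ℕ) * (1 + 1 / 2 * n + 1 / 6 * n ^ (2 : ℕ) + 3 / 50 * n ^ (3 : ℕ)) ^ (2 : ℕ) +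
      (μ * (1 - n + 1 / 2 * n ^ (2 : ℕ)))) := by
    have h9 := mul_le_mul_of_nonneg_left h6 (sq_nonneg ρ)
    nlinarith only [hK, h3, h6, h7]
  have h9 := mul_le_mul_of_nonneg_left hc (sq_nonneg n)
  have h10 := mul_le_mul_of_nonneg_left ht2 (sq_nonneg k)
  have h11 := mul_le_mul_of_nonneg_left h8 hR.le
  linarith only [h9, h10, h11]

end SokamV3

end

/-! ### Lib_MP_af4de1_v3.LevRD -/

section
namespace SokamF1
end SokamF1
namespace SokamF1M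
end SokamF1M
namespace SokamF1S
end SokamF1S
namespace SokamU
end SokamU
/-!
# Right side: `D ≤ q √R` for every saddle with `-eo1 ≤ η ≤ 0`

`q = 27/20` (`Γ < 10`), `71/50` (`10 ≤ Γ < 20`), `33/20` (`Γ ≥ 20`).
`y = -t`: `D² = 1 - 2 t + ρ² e^(2t)` and `ρ (e^t - 1) + (t - t²/2) e^(-t)/ρ ≤ -η`.
-/

set_option autoImplicit false

namespace SokamV3

open Complex SokamU SokamF1 SokamF1S SokamF1M

/-- `(t - t²/2) e^(-t)` increases up to `53/100` -/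
theorem lrd_tb_ge {t0 t : ℝ} (h0 : 0 ≤ t0) (ht0 : t0 ≤ t) (ht1 : t ≤ 53 / 100) :
    (t0 - t0 ^ (2 : ℕ) / 2) * Real.exp (-t0) ≤ (t - t ^ (2 : ℕ) / 2) * Real.exp (-t) := by
  have hd : ∀ u : ℝ, HasDerivAt (fun u : ℝ => (u - u ^ (2 : ℕ) / 2) * Real.exp (-u))
      ((1 - 2 * u + u ^ (2 : ℕ) / 2) * Real.exp (-u)) u := by
    intro u
    have e2 : HasDerivAt (fun u : ℝ => Real.exp (-u)) (-Real.exp (-u)) u := by
      have := (hasDerivAt_neg u).exp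
      simpa using this
    have e3 : HasDerivAt (fun u : ℝ => u ^ (2 : ℕ) / 2) u u := by
      have := (hasDerivAt_pow 2 u).div_const 2
      refine this.congr_deriv ?_
      simp
    have e4 := ((hasDerivAt_id u).sub e3).mul e2
    refine e4.congr_deriv ?_
    simp
    ring
  have hm : MonotoneOn (fun u : ℝ => (u - u ^ (2 : ℕ) / 2) * Real.exp (-u)) (Set.Icc 0 (53 / 100)) := by
    refine monotoneOn_of_deriv_nonneg (convex_Icc _ _)
      (fun u _ => (hd u).continuousAt.continuousWithinAt)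
      (fun u _ => (hd u).differentiableAt.differentiableWithinAt) (fun u hu => ?_)
    rw [interior_Icc] at hu
    rw [(hd u).deriv]
    have h1 : 0 ≤ 1 - 2 * u + u ^ (2 : ℕ) / 2 := by nlinarith only [hu.2]
    exact mul_nonneg h1 (Real.exp_pos _).le
  exact hm ⟨h0, by linarith only [ht0, ht1]⟩ ⟨by linarith only [h0, ht0], ht1⟩ ht0

/-- no `t ∈ [t0, 53/100]` -/
theorem lrd_t_le {ρ t t0 a b u2 η : ℝ} (hD : Dom ρ (-t)) (ht : t ≤ 53 / 100)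
    (hE : sE ρ (-t) = η)
    (h0 : 0 ≤ t0) (hs : η ^ (2 : ℕ) ≤ u2 * (1 + ρ ^ (2 : ℕ))) (ha : 0 ≤ a) (hb : 0 ≤ b) (h1 : u2 ≤ a ^ (2 : ℕ))
    (h2 : u2 < 2 * a * b) (hea : a ≤ Real.exp t0 - 1)
    (heb : b ≤ (t0 - t0 ^ (2 : ℕ) / 2) * Real.exp (-t0)) : t ≤ t0 := by
  by_contra hcon
  push Not at hcon
  have hρ := hD.1
  have hy : 0 ≤ t := h0.trans hcon.le
  have h3 := sE_le_neg hD hy (by linarith only [ht])
  rw [hE] at h3
  have h5 : Real.exp t0 ≤ Real.exp t := Real.exp_le_exp.2 hcon.le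
  have h6 := heb.trans (lrd_tb_ge h0 hcon.le ht)
  refine psa_no_big (η := -η) hρ ha hb h1 h2 (le_trans ?_ h3) (by rwa [neg_sq])
  have h7 : a * ρ ≤ ρ * (Real.exp t - 1) := by nlinarith only [hea, hρ, h5]
  have h8 : b / ρ ≤ (t - t ^ (2 : ℕ) / 2) * Real.exp (-t) / ρ := div_le_div_of_nonneg_right h6 hρ.le
  linarith only [h7, h8]

theorem lrd_e30 : Real.exp (3 / 10) ≤ 27 / 20 := by
  refine (psa_exp_ub _ (by norm_num) (by norm_num)).trans ?_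
  norm_num

theorem lrd_e30' : (1349 : ℝ) / 1000 ≤ Real.exp (3 / 10) := by
  refine le_trans ?_ (psa_exp_lb _ (by norm_num))
  norm_num

theorem lrd_e35 : Real.exp (7 / 20) ≤ 71 / 50 := by
  refine (psa_exp_ub _ (by norm_num) (by norm_num)).trans ?_
  norm_num

theorem lrd_e35' : (1419 : ℝ) / 1000 ≤ Real.exp (7 / 20) := by
  refine le_trans ?_ (psa_exp_lb _ (by norm_num))
  norm_num

theorem lrd_e50 : Real.exp (1 / 2) ≤ 33 / 20 := by
  refine (psa_exp_ub _ (by norm_num) (by norm_num)).trans ?_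
  norm_num

theorem lrd_e50' : (16486 : ℝ) / 10000 ≤ Real.exp (1 / 2) := by
  refine le_trans ?_ (psa_exp_lb _ (by norm_num))
  norm_num

theorem lrd_e53 : Real.exp (53 / 100) ≤ 1699 / 1000 := by
  refine (psa_exp_ub _ (by norm_num) (by norm_num)).trans ?_
  norm_num

/-- `D² = 1 - 2t + ρ² e^(2t)` -/
theorem lrd_D2 {ρ t : ℝ} (h : Dom ρ (-t)) :
    sD2 ρ (-t) = 1 - 2 * t + ρ ^ (2 : ℕ) * Real.exp t ^ (2 : ℕ) := by
  rw [sD2_sadB h, neg_neg]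
  ring

theorem lrd_sD_le {ρ t q R : ℝ} (hq : 0 ≤ q) (h : sD2 ρ t ≤ q ^ (2 : ℕ) * R) :
    sD ρ t ≤ q * √R := by
  unfold sD
  calc √(sD2 ρ t) ≤ √(q ^ (2 : ℕ) * R) := Real.sqrt_le_sqrt h
    _ = q * √R := by rw [Real.sqrt_mul (sq_nonneg q), Real.sqrt_sq hq]

/-- trivial case `e^t ≤ q` -/
theorem lrd_triv {ρ t q : ℝ} (h : Dom ρ (-t)) (ht : 0 ≤ t) (hq : 1 ≤ q) (he : Real.exp t ≤ q) :
    sD2 ρ (-t) ≤ q ^ (2 : ℕ) * (1 + ρ ^ (2 : ℕ)) := by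
  rw [lrd_D2 h]
  have h1 : Real.exp t ^ (2 : ℕ) ≤ q ^ (2 : ℕ) := pow_le_pow_left₀ (Real.exp_pos _).le he 2
  have h2 : ρ ^ (2 : ℕ) * Real.exp t ^ (2 : ℕ) ≤ ρ ^ (2 : ℕ) * q ^ (2 : ℕ) := mul_le_mul_of_nonneg_left h1 (sq_nonneg _)
  nlinarith only [ht, hq, h2]

/-- the data of a right saddle -/
theorem lrd_data {N : ℕ} {r δ y η : ℝ} (hR : Reg1 N r δ) (hA : At r δ y η) (hη : η ≤ 0)
    (h1 : -eo1 N r δ ≤ η) : Sad1 N r δ y ∧ y ≤ 0 := by
  have h2 : |η| ≤ eo1 N r δ := abs_le.2 ⟨h1, by linarith only [hη, h1]⟩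
  refine ⟨psad1.sad N r δ y η hR hA h2, ?_⟩
  by_contra hc
  push Not at hc
  have h3 := two_y_le hA.dom hc.le
  rw [hA.eta] at h3
  nlinarith only [hη, hc, h3]

/-- `Γ < 10` -/
theorem levR2_A {N : ℕ} {r δ y η : ℝ} (hR : Reg1 N r δ) (hA : At r δ y η) (hη : η ≤ 0)
    (h1 : -eo1 N r δ ≤ η) (hG : Gm N r δ < 10) :
    sD (r * δ) y ≤ 27 / 20 * √(RR r δ) := by
  obtain ⟨hS, hy⟩ := lrd_data hR hA hη h1
  have hsq := psa_eo_sq hR hG (η := η) (abs_le.2 ⟨h1, by linarith only [hη, h1]⟩)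
  refine lrd_sD_le (by norm_num) ?_
  have hD := hA.dom
  have hEe := hA.eta
  obtain ⟨t, rfl⟩ : ∃ t, y = -t := ⟨-y, by ring⟩
  have ht : t ≤ 53 / 100 := by
    rcases hS with ⟨_, h⟩ | ⟨_, h⟩
    · linarith only [h.lo]
    · linarith only [h.lo]
  have he : (7407 : ℝ) / 10000 ≤ Real.exp (-(3 / 10)) :=
    psa_exp_neg_lb lrd_e30 (by norm_num) (by norm_num)
  have h3 := lrd_t_le (t0 := 3 / 10) (a := 349 / 1000) (b := 188 / 1000) hD ht hEe (by norm_num)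
    hsq (by norm_num) (by norm_num) (by norm_num) (by norm_num) (by linarith only [lrd_e30'])
    (by norm_num; linarith only [he])
  exact lrd_triv hD (by linarith only [hy]) (by norm_num) ((Real.exp_le_exp.2 h3).trans lrd_e30)

/-- `10 ≤ Γ < 20` -/
theorem levR2_B {N : ℕ} {r δ y η : ℝ} (hR : Reg1 N r δ) (hA : At r δ y η) (hη : η ≤ 0)
    (h1 : -eo1 N r δ ≤ η) (hG : 10 ≤ Gm N r δ) (hG2 : Gm N r δ < 20) :
    sD (r * δ) y ≤ 71 / 50 * √(RR r δ) := by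
  obtain ⟨hS, hy⟩ := lrd_data hR hA hη h1
  have hsq : η ^ (2 : ℕ) ≤ 16934 / 100000 * (1 + (r * δ) ^ (2 : ℕ)) := by
    have h3 := psa_hst_sq_le hR.toPar hG2.le
    have h2 : eo1 N r δ = 13 / 20 * hst N := by
      unfold eo1 om1
      rw [if_neg (not_lt.2 hG), if_pos hG2]
      norm_num
    have h4 : η ^ (2 : ℕ) ≤ eo1 N r δ ^ (2 : ℕ) := by
      rw [← neg_sq η]
      exact pow_le_pow_left₀ (by linarith only [hη]) (by linarith only [h1]) 2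
    have hRR : RR r δ = 1 + (r * δ) ^ (2 : ℕ) := rfl
    rw [hRR] at h3
    rw [h2] at h4
    nlinarith only [h3, h4]
  refine lrd_sD_le (by norm_num) ?_
  have hD := hA.dom
  have hEe := hA.eta
  obtain ⟨t, rfl⟩ : ∃ t, y = -t := ⟨-y, by ring⟩
  have ht : t ≤ 53 / 100 := by
    rcases hS with ⟨_, h⟩ | ⟨_, h⟩
    · linarith only [h.lo]
    · linarith only [h.lo]
  have he : (7042 : ℝ) / 10000 ≤ Real.exp (-(7 / 20)) :=
    psa_exp_neg_lb lrd_e35 (by norm_num) (by norm_num)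
  have h3 := lrd_t_le (t0 := 7 / 20) (a := 419 / 1000) (b := 2033 / 10000) hD ht hEe (by norm_num)
    hsq (by norm_num) (by norm_num) (by norm_num) (by norm_num) (by linarith only [lrd_e35'])
    (by norm_num; linarith only [he])
  exact lrd_triv hD (by linarith only [hy]) (by norm_num) ((Real.exp_le_exp.2 h3).trans lrd_e35)

/-- `20 ≤ Γ` -/
theorem levR2_C {N : ℕ} {r δ y η : ℝ} (hR : Reg1 N r δ) (hA : At r δ y η) (hη : η ≤ 0)
    (h1 : -eo1 N r δ ≤ η) (hG : 20 ≤ Gm N r δ) :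
    sD (r * δ) y ≤ 33 / 20 * √(RR r δ) := by
  obtain ⟨hS, hy⟩ := lrd_data hR hA hη h1
  have hsq : η ^ (2 : ℕ) ≤ 396 / 1000 * (1 + (r * δ) ^ (2 : ℕ)) := by
    have h3 := hR.I
    have h2 : eo1 N r δ = 3 / 5 * hst N := by
      unfold eo1 om1
      rw [if_neg (not_lt.2 (by linarith only [hG])), if_neg (not_lt.2 hG)]
      norm_num
    have h4 : η ^ (2 : ℕ) ≤ eo1 N r δ ^ (2 : ℕ) := by
      rw [← neg_sq η]
      exact pow_le_pow_left₀ (by linarith only [hη]) (by linarith only [h1]) 2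
    have hRR : RR r δ = 1 + (r * δ) ^ (2 : ℕ) := rfl
    rw [hRR] at h3
    rw [h2] at h4
    linarith only [h3, h4]
  refine lrd_sD_le (by norm_num) ?_
  have hD := hA.dom
  have hEe := hA.eta
  obtain ⟨t, rfl⟩ : ∃ t, y = -t := ⟨-y, by ring⟩
  have ht : t ≤ 53 / 100 := by
    rcases hS with ⟨_, h⟩ | ⟨_, h⟩
    · linarith only [h.lo]
    · linarith only [h.lo]
  have hρ := hD.1
  rcases le_total t (1 / 2) with h5 | h5
  · exact lrd_triv hD (by linarith only [hy]) (by norm_num) ((Real.exp_le_exp.2 h5).trans lrd_e50)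
  · have h6 : Real.exp t ≤ 1699 / 1000 := (Real.exp_le_exp.2 ht).trans lrd_e53
    have h7 : 16486 / 10000 ≤ Real.exp t := lrd_e50'.trans (Real.exp_le_exp.2 h5)
    rcases le_total ((r * δ) ^ (2 : ℕ)) (33 / 2) with h8 | h8
    · rw [lrd_D2 hD]
      have h9 : Real.exp t ^ (2 : ℕ) ≤ (1699 / 1000) ^ (2 : ℕ) := pow_le_pow_left₀ (Real.exp_pos _).le h6 2
      have h10 := mul_le_mul_of_nonneg_left h9 (sq_nonneg (r * δ))
      have hRR : RR r δ = 1 + (r * δ) ^ (2 : ℕ) := rfl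
      rw [hRR]
      norm_num at h10 ⊢
      linarith only [h5, h8, h10]
    · exfalso
      have h3 := sE_le_neg hD (by linarith only [h5]) (by linarith only [ht])
      rw [hEe] at h3
      have h9 : 0 ≤ (t - t ^ (2 : ℕ) / 2) * Real.exp (-t) / (r * δ) := by
        have : 0 ≤ t - t ^ (2 : ℕ) / 2 := by nlinarith only [hy, ht]
        have := Real.exp_pos (-t)
        positivity
      have h10 : 6486 / 10000 * (r * δ) ≤ -η := by nlinarith only [hρ, h7, h3, h9]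
      have h11 : (6486 / 10000 * (r * δ)) ^ (2 : ℕ) ≤ (-η) ^ (2 : ℕ) := pow_le_pow_left₀ (by positivity) h10 2
      rw [neg_sq] at h11
      linarith only [hsq, h8, h11]
 
end SokamV3

end

/-! ### Lib_MP_af4de1_v3.LevR -/

section
namespace SokamF1
end SokamF1
namespace SokamF1M
end SokamF1M
namespace SokamF1S
end SokamF1S
namespace SokamU
end SokamU
/-!
# The level lemma on the right side

`Reg1 N r δ`, `At r δ y η`, `-eo1 ≤ η ≤ 0`: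
* `Γ < 10`: `Lev r δ y η (6/5) (6/5) (27/20)`
* `10 ≤ Γ < 20`: `Lev r δ y η (13/10) (13/10) (71/50)`
* `20 ≤ Γ`: `Lev r δ y η (17/10) (17/10) (33/20)`
-/

set_option autoImplicit false

namespace SokamV3

open Complex SokamU SokamF1 SokamF1S SokamF1M

/-- constraint `n² p² ≤ κ u (1 + u)` from `η² ≤ κ R` -/
theorem lr_hC {ρ n κ : ℝ} (h : Dom ρ (-n)) (h0 : 0 ≤ n) (h1 : n ≤ 53 / 100)
    (hs : sE ρ (-n) ^ (2 : ℕ) ≤ κ * (1 + ρ ^ (2 : ℕ))) :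
    n ^ (2 : ℕ) * ((1 - 3 / 2 * n + n ^ (2 : ℕ) - 5 / 12 * n ^ (3 : ℕ)) + ρ ^ (2 : ℕ) * (1 + 1 / 2 * n + 1 / 6 * n ^ (2 : ℕ))) ^ (2 : ℕ) ≤
      κ * (ρ ^ (2 : ℕ) * (1 + ρ ^ (2 : ℕ))) := by
  have hρ : 0 < ρ := h.1
  have ht := lr_rt h h0 h1
  have hp0 : 0 ≤ 1 - 3 / 2 * n + n ^ (2 : ℕ) - 5 / 12 * n ^ (3 : ℕ) := by nlinarith only [h1]
  set p := (1 - 3 / 2 * n + n ^ (2 : ℕ) - 5 / 12 * n ^ (3 : ℕ)) + ρ ^ (2 : ℕ) * (1 + 1 / 2 * n + 1 / 6 * n ^ (2 : ℕ)) with hp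
  have hpp : 0 ≤ p := by positivity
  have h2 : 0 ≤ n * p := by positivity
  have h3 := mul_self_le_mul_self h2 ht
  have h4 := mul_le_mul_of_nonneg_left hs (sq_nonneg ρ)
  linarith only [h3, h4]

/-- From the two real inequalities to `Lev`. -/
theorem lev_of {r δ n g k q : ℝ} (hr : 0 < r) (hδ : 0 < δ) (hk : 0 ≤ k)
    (h0 : r * δ - (1 - n) * sx (r * δ) (-n) ≤
      g / 2 * (r * δ * sE (r * δ) (-n) ^ (2 : ℕ) / (1 + (r * δ) ^ (2 : ℕ))))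
    (h1 : (1 + (r * δ) ^ (2 : ℕ)) * ((sx (r * δ) (-n) - r * δ) ^ (2 : ℕ) + n ^ (2 : ℕ)) ≤
      k ^ (2 : ℕ) * (r * δ * sE (r * δ) (-n)) ^ (2 : ℕ))
    (h2 : sD (r * δ) (-n) ≤ q * √(RR r δ)) :
    Lev r δ (-n) (sE (r * δ) (-n)) g k q := by
  set s := sE (r * δ) (-n) with hs
  set x := sx (r * δ) (-n) with hx
  have hR : 0 < RR r δ := by unfold RR; positivity
  have hRe : RR r δ = 1 + (r * δ) ^ (2 : ℕ) := rfl
  refine ⟨?_, ?_, h2⟩
  · rw [← hx, show r - x * (1 + -n) / δ = (r * δ - (1 - n) * x) / δ by field_simp; ring,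
      div_le_iff₀ hδ]
    refine h0.trans (le_of_eq ?_)
    rw [hRe]
    ring
  · have e1 : kap r δ (-n) - r = ((1 / δ : ℝ) : ℂ) * (((x - r * δ : ℝ) : ℂ) + ((-n : ℝ) : ℂ) * I) := by
      unfold kap sK
      rw [← hx]
      have hd : (δ : ℂ) ≠ 0 := by exact_mod_cast hδ.ne'
      push_cast
      field_simp
      ring
    have e2 : ‖((x - r * δ : ℝ) : ℂ) + ((-n : ℝ) : ℂ) * I‖ = √((x - r * δ) ^ (2 : ℕ) + n ^ (2 : ℕ)) := by
      rw [Complex.norm_add_mul_I, neg_sq]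
    rw [e1, norm_mul, e2, Complex.norm_real, Real.norm_eq_abs, abs_of_pos (by positivity)]
    have h3 : √((x - r * δ) ^ (2 : ℕ) + n ^ (2 : ℕ)) ≤ k * (r * δ * |s| / √(RR r δ)) := by
      refine Real.sqrt_le_iff.2 ⟨by positivity, ?_⟩
      have e3 : (k * (r * δ * |s| / √(RR r δ))) ^ (2 : ℕ) =
          k ^ (2 : ℕ) * (r * δ * s) ^ (2 : ℕ) / (1 + (r * δ) ^ (2 : ℕ)) := by
        rw [mul_pow, div_pow, mul_pow, sq_abs, Real.sq_sqrt hR.le, hRe]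
        ring
      rw [e3, le_div_iff₀ (by positivity)]
      linarith only [h1]
    rw [one_div, inv_mul_le_iff₀ hδ]
    refine h3.trans (le_of_eq ?_)
    ring

private theorem y_neg {r δ y η : ℝ} (hA : At r δ y η) (hη : η ≤ 0) : y ≤ 0 := by
  by_contra hc
  push Not at hc
  have h3 := two_y_le hA.dom hc.le
  rw [hA.eta] at h3
  nlinarith

/-- the level on the right side, `Γ < 10` -/
theorem levR_A {N : ℕ} {r δ y η : ℝ} (hR : Reg1 N r δ) (hA : At r δ y η) (hη : η ≤ 0)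
    (h1 : -eo1 N r δ ≤ η) (hG : Gm N r δ < 10) : Lev r δ y η (6 / 5) (6 / 5) (27 / 20) := by
  have hD := levR2_A hR hA hη h1 hG
  obtain ⟨hS, hy⟩ := lrd_data hR hA hη h1
  have hsq := psa_eo_sq hR hG (η := η) (abs_le.2 ⟨h1, by linarith only [hη, h1]⟩)
  have hS' : SadA N r δ y := by
    rcases hS with ⟨_, h⟩ | ⟨h, _⟩
    · exact h
    · exact absurd h (not_le.2 hG)
  have hr : 0 < r := by linarith only [hR.r0]
  have hδ := hR.d0
  have hdom := hA.dom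
  have hE := hA.eta
  obtain ⟨n, rfl⟩ : ∃ n, y = -n := ⟨-y, by ring⟩
  subst hE
  have hn0 : 0 ≤ n := by linarith only [hy]
  have hn1 : n ≤ 31 / 100 := by linarith only [hS'.lo]
  have hT : n ≤ 19 / 50 * sx (r * δ) (-n) := by
    have := hS'.T
    rwa [abs_neg, abs_of_nonneg hn0] at this
  have hx := lr_x (μ := 517 / 500) hdom hn0 hT (by norm_num) (by norm_num)
  have hC := lr_hC (κ := 141 / 1250) hdom hn0 (by linarith only [hn1])
    (hsq.trans (mul_le_mul_of_nonneg_right (by norm_num) (by positivity)))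
  exact lev_of hr hδ (by norm_num)
    (lr_l0 hdom hn0 (by linarith only [hn1]) (by norm_num) (by norm_num) hx
      (lr_A_g hn0 (by linarith only [hn1]) (sq_nonneg _) hC))
    (lr_l1 hdom hn0 (by linarith only [hn1]) (by norm_num) hx
      ((lr_A_k hn0 (by linarith only [hn1]) (sq_nonneg _) hC).trans (le_of_eq (by norm_num)))) hD

/-- the level on the right side, `10 ≤ Γ < 20` -/
theorem levR_B {N : ℕ} {r δ y η : ℝ} (hR : Reg1 N r δ) (hA : At r δ y η) (hη : η ≤ 0)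
    (h1 : -eo1 N r δ ≤ η) (hG : 10 ≤ Gm N r δ) (hG2 : Gm N r δ < 20) :
    Lev r δ y η (13 / 10) (13 / 10) (71 / 50) := by
  have hD := levR2_B hR hA hη h1 hG hG2
  obtain ⟨hS, hy⟩ := lrd_data hR hA hη h1
  have hsq : η ^ (2 : ℕ) ≤ 847 / 5000 * (1 + (r * δ) ^ (2 : ℕ)) := by
    have h3 := psa_hst_sq_le hR.toPar hG2.le
    have h2 : eo1 N r δ = 13 / 20 * hst N := by
      unfold eo1 om1
      rw [if_neg (not_lt.2 hG), if_pos hG2]
      norm_num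
    have h4 : η ^ (2 : ℕ) ≤ eo1 N r δ ^ (2 : ℕ) := by
      rw [← neg_sq η]
      exact pow_le_pow_left₀ (by linarith only [hη]) (by linarith only [h1]) 2
    have hRR : RR r δ = 1 + (r * δ) ^ (2 : ℕ) := rfl
    rw [hRR] at h3
    rw [h2] at h4
    nlinarith only [h3, h4]
  have hS' : SadB N r δ y := by
    rcases hS with ⟨h, _⟩ | ⟨_, h⟩
    · exact absurd h (not_lt.2 hG)
    · exact h
  have hr : 0 < r := by linarith only [hR.r0]
  have hδ := hR.d0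
  have hdom := hA.dom
  have hE := hA.eta
  obtain ⟨n, rfl⟩ : ∃ n, y = -n := ⟨-y, by ring⟩
  subst hE
  have hn0 : 0 ≤ n := by linarith only [hy]
  have hn1 : n ≤ 53 / 100 := by linarith only [hS'.lo]
  have hT : n ≤ 4 / 5 * sx (r * δ) (-n) := by
    have := hS'.T
    rwa [abs_neg, abs_of_nonneg hn0] at this
  have hx := lr_x (μ := 281 / 250) hdom hn0 hT (by norm_num) (by norm_num)
  have hC := lr_hC (κ := 847 / 5000) hdom hn0 (by linarith only [hn1]) hsq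
  exact lev_of hr hδ (by norm_num)
    (lr_l0 hdom hn0 (by linarith only [hn1]) (by norm_num) (by norm_num) hx
      (lr_B_g hn0 (by linarith only [hn1]) (sq_nonneg _) hC))
    (lr_l1 hdom hn0 (by linarith only [hn1]) (by norm_num) hx
      ((lr_B_k hn0 (by linarith only [hn1]) (sq_nonneg _) hC).trans (le_of_eq (by norm_num)))) hD

/-- the level on the right side, `20 ≤ Γ` -/
theorem levR_C {N : ℕ} {r δ y η : ℝ} (hR : Reg1 N r δ) (hA : At r δ y η) (hη : η ≤ 0)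
    (h1 : -eo1 N r δ ≤ η) (hG : 20 ≤ Gm N r δ) : Lev r δ y η (17 / 10) (17 / 10) (33 / 20) := by
  have hD := levR2_C hR hA hη h1 hG
  obtain ⟨hS, hy⟩ := lrd_data hR hA hη h1
  have hsq : η ^ (2 : ℕ) ≤ 99 / 250 * (1 + (r * δ) ^ (2 : ℕ)) := by
    have h3 := hR.I
    have h2 : eo1 N r δ = 3 / 5 * hst N := by
      unfold eo1 om1
      rw [if_neg (not_lt.2 (by linarith only [hG])), if_neg (not_lt.2 hG)]
      norm_num
    have h4 : η ^ (2 : ℕ) ≤ eo1 N r δ ^ (2 : ℕ) := by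
      rw [← neg_sq η]
      exact pow_le_pow_left₀ (by linarith only [hη]) (by linarith only [h1]) 2
    have hRR : RR r δ = 1 + (r * δ) ^ (2 : ℕ) := rfl
    rw [hRR] at h3
    rw [h2] at h4
    linarith only [h3, h4]
  have hS' : SadB N r δ y := by
    rcases hS with ⟨h, _⟩ | ⟨_, h⟩
    · exact absurd h (not_lt.2 (by linarith only [hG]))
    · exact h
  have hr : 0 < r := by linarith only [hR.r0]
  have hδ := hR.d0
  have hdom := hA.dom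
  have hE := hA.eta
  obtain ⟨n, rfl⟩ : ∃ n, y = -n := ⟨-y, by ring⟩
  subst hE
  have hn0 : 0 ≤ n := by linarith only [hy]
  have hn1 : n ≤ 53 / 100 := by linarith only [hS'.lo]
  have hT : n ≤ 4 / 5 * sx (r * δ) (-n) := by
    have := hS'.T
    rwa [abs_neg, abs_of_nonneg hn0] at this
  have hx := lr_x (μ := 281 / 250) hdom hn0 hT (by norm_num) (by norm_num)
  have hC := lr_hC (κ := 99 / 250) hdom hn0 (by linarith only [hn1]) hsq
  exact lev_of hr hδ (by norm_num)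
    (lr_l0 hdom hn0 (by linarith only [hn1]) (by norm_num) (by norm_num) hx
      (lr_C_g hn0 (by linarith only [hn1]) (sq_nonneg _) hC))
    (lr_l1 hdom hn0 (by linarith only [hn1]) (by norm_num) hx
      ((lr_C_k hn0 (by linarith only [hn1]) (sq_nonneg _) hC).trans (le_of_eq (by norm_num)))) hD

end SokamV3

end
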