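import Pool.Agent.Lib_MP_af4de1_zy.Z77
import Pool.Agent.Lib_MP_af4de1_zy.Z78

/-! ### Lib_MP_af4de1_v3.CenZ2R -/

section
/-! # CEN zone 2, right (behind): `s = t+z`, `0 ≤ z ≤ 6/5`.
FINAL FORM (base point `1`): `Z2R1` with `beh0R`, `behWR` (no chords, slope, factor `e^T`, `T = cT m t`).
Older forms (chords): `Z2R`, `Z2Rc`.
`Dm ≥ AR t² + AR t z + (11/25) z²` (`Qm_beh_R`), `e^a ≤ e^((t+z)/m) ≤` chord on `[0, 6/5]` (convex),
the same for `(e^a - 1)²`; `W ≤ (e^a - 1)² + (e^n - 1)² + e^(a+n) ((5/4) z² + 5 p²)`. -/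

set_option autoImplicit false

namespace SokamCen

open Real MeasureTheory Set

private theorem z2r_int {q m ρ θ t a0 b B c0 c1 c2 : ℝ} {S : Set ℝ} (mS : MeasurableSet S)
    (hS : ∀ s ∈ S, t ≤ s) (hq : 0 < q) (hb : 0 ≤ b)
    (hB : 0 < B) (k0 : 0 ≤ c0) (k1 : 0 ≤ c1) (k2 : 0 ≤ c2) (P : ℝ → ℝ)
    (hP : ∀ s ∈ S, P s ≤ c0 + c1 * (s - t) + c2 * (s - t) ^ (2 : ℕ))
    (hD : ∀ s ∈ S, a0 + b * (s - t) + B * (s - t) ^ (2 : ℕ) ≤ Dm m ρ θ s) :
    ∫⁻ s in S, ENNReal.ofReal (P s * exp (-(q * Dm m ρ θ s))) ≤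
      ENNReal.ofReal (exp (-(q * a0)) * (c0 * h0 (q * b) (q * B) + c1 * h1 (q * B) +
        c2 * h2 (q * B))) := by
  have h1 : ∫⁻ s in S, ENNReal.ofReal (P s * exp (-(q * Dm m ρ θ s))) ≤
      ∫⁻ z in Ioi (0 : ℝ), ENNReal.ofReal (exp (-(q * a0)) * ((c0 + c1 * z + c2 * z ^ (2 : ℕ)) *
        exp (-(q * b * z + q * B * z ^ (2 : ℕ))))) := by
    refine lint_above (G := fun z => exp (-(q * a0)) * ((c0 + c1 * z + c2 * z ^ (2 : ℕ)) *
        exp (-(q * b * z + q * B * z ^ (2 : ℕ))))) (c := t) mS fun s hs => ⟨hS s hs, ?_⟩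
    have hst := hS s hs
    have hz : 0 ≤ s - t := by linarith
    have hc : 0 ≤ c0 + c1 * (s - t) + c2 * (s - t) ^ (2 : ℕ) := by positivity
    have e1 : exp (-(q * Dm m ρ θ s)) ≤ exp (-(q * a0)) * exp (-(q * b * (s - t) +
        q * B * (s - t) ^ (2 : ℕ))) := by
      rw [← Real.exp_add]
      refine exp_le_exp.2 ?_
      have := mul_le_mul_of_nonneg_left (hD s hs) hq.le
      linarith
    calc P s * exp (-(q * Dm m ρ θ s))
        ≤ (c0 + c1 * (s - t) + c2 * (s - t) ^ (2 : ℕ)) * exp (-(q * Dm m ρ θ s)) :=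
          mul_le_mul_of_nonneg_right (hP s hs) (exp_pos _).le
      _ ≤ (c0 + c1 * (s - t) + c2 * (s - t) ^ (2 : ℕ)) * (exp (-(q * a0)) *
          exp (-(q * b * (s - t) + q * B * (s - t) ^ (2 : ℕ)))) := mul_le_mul_of_nonneg_left e1 hc
      _ = _ := by ring
  refine h1.trans ?_
  simp only [ENNReal.ofReal_mul (exp_pos (-(q * a0))).le]
  rw [lintegral_const_mul _ (by fun_prop)]
  exact mul_le_mul_right (lint_hW (mul_nonneg hq.le hb) (mul_pos hq hB) k0 k1 k2) _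

private theorem z2r_pm {m s : ℝ} (hm : 0 < m) (hs : 0 ≤ s) : pm m s ≤ s / m := by
  have h : 0 ≤ s / m := div_nonneg hs hm.le
  unfold pm
  exact max_le (by linarith) (min_le_right _ _)

private theorem z2r_chord {m t z : ℝ} (hm : 0 < m) (h0 : 0 ≤ z) (h1 : z ≤ 6 / 5) :
    exp ((t + z) / m) ≤ exp (t / m) + (eE m t - exp (t / m)) / (6 / 5) * z := by
  have h := convexOn_exp.2 (mem_univ (t / m)) (mem_univ ((t + 6 / 5) / m))
    (by linarith : 0 ≤ 1 - z / (6 / 5)) (by positivity : 0 ≤ z / (6 / 5)) (by ring)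
  simp only [smul_eq_mul] at h
  have e : (1 - z / (6 / 5)) * (t / m) + z / (6 / 5) * ((t + 6 / 5) / m) = (t + z) / m := by
    field_simp
    ring
  rw [e] at h
  unfold eE
  linarith

private theorem z2r_eE {m t : ℝ} (hm : 0 < m) : exp (t / m) ≤ eE m t := by
  unfold eE
  refine exp_le_exp.2 ?_
  gcongr
  linarith

private theorem z2r_D {m ρ t s : ℝ} (hρ : 0 < ρ) (hm : ρ ≤ m) (ht : 0 < t) (h0 : t ≤ s)
    (h1 : s ≤ t + 6 / 5) :
    AR m ρ t * t ^ (2 : ℕ) + AR m ρ t * t * (s - t) + 11 / 25 * (s - t) ^ (2 : ℕ) ≤ Dm m ρ (-t) s := by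
  have hm0 : 0 < m := hρ.trans_le hm
  have hz : 0 ≤ s - t := by linarith
  have h2 := Qm_beh_R hρ hm ht hz
  have h3 := beh_cos hz (by linarith : s - t ≤ 6 / 5)
  rw [show t + (s - t) = s by ring] at h2
  rw [Dm_eq, show -t + s = s - t by ring]
  have h4 : 1 ≤ exp (pm m s) := one_le_exp (pm_nonneg hm0 (by linarith))
  have h5 : 0 ≤ 1 - cos (s - t) := by linarith [cos_le_one (s - t)]
  nlinarith only [h2, h3, h4]

private theorem z2r_E {m t s : ℝ} (hm : 0 < m) (ht : 0 < t) (h0 : t ≤ s) (h1 : s ≤ t + 6 / 5) :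
    exp (pm m s) ≤ exp (t / m) + (eE m t - exp (t / m)) / (6 / 5) * (s - t) := by
  have h2 := z2r_pm hm (by linarith : 0 ≤ s)
  have h3 := z2r_chord (m := m) (t := t) hm (by linarith : 0 ≤ s - t) (by linarith : s - t ≤ 6 / 5)
  rw [show t + (s - t) = s by ring] at h3
  exact (exp_le_exp.2 h2).trans h3

private theorem z2r_E1 {m t s : ℝ} (hm : 0 < m) (ht : 0 < t) (h0 : t ≤ s) (h1 : s ≤ t + 6 / 5) :
    exp (pm m s) ≤ eE m t := by
  have h2 := z2r_pm hm (by linarith : 0 ≤ s)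
  unfold eE
  refine exp_le_exp.2 (h2.trans ?_)
  gcongr

private theorem z2r_sq {m t s : ℝ} (hm : 0 < m) (ht : 0 < t) (h0 : t ≤ s) (h1 : s ≤ t + 6 / 5) :
    (exp (pm m s) - 1) ^ (2 : ℕ) ≤ (exp (t / m) - 1) ^ (2 : ℕ) +
      ((eE m t - 1) ^ (2 : ℕ) - (exp (t / m) - 1) ^ (2 : ℕ)) / (6 / 5) * (s - t) := by
  have h2 := z2r_E hm ht h0 h1
  have h3 : 1 ≤ exp (pm m s) := one_le_exp (pm_nonneg hm (by linarith))
  have h4 : 1 ≤ exp (t / m) := one_le_exp (by positivity)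
  have h5 := z2r_eE (t := t) hm
  obtain ⟨l, hl⟩ : ∃ l, l = (s - t) / (6 / 5) := ⟨_, rfl⟩
  have hl0 : 0 ≤ l := by rw [hl]; exact div_nonneg (by linarith) (by norm_num)
  have hl1 : l ≤ 1 := by rw [hl, div_le_one (by norm_num)]; linarith
  have e1 : (eE m t - exp (t / m)) / (6 / 5) * (s - t) = (eE m t - exp (t / m)) * l := by
    rw [hl]; ring
  have e2 : ((eE m t - 1) ^ (2 : ℕ) - (exp (t / m) - 1) ^ (2 : ℕ)) / (6 / 5) * (s - t) =
      ((eE m t - 1) ^ (2 : ℕ) - (exp (t / m) - 1) ^ (2 : ℕ)) * l := by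
    rw [hl]; ring
  rw [e1] at h2
  rw [e2]
  have h6 : (exp (pm m s) - 1) ^ (2 : ℕ) ≤ ((exp (t / m) - 1) + (eE m t - exp (t / m)) * l) ^ (2 : ℕ) := by
    refine pow_le_pow_left₀ (by linarith) (by linarith) 2
  refine h6.trans ?_
  have h7 : 0 ≤ (eE m t - exp (t / m)) ^ (2 : ℕ) * (l * (1 - l)) :=
    mul_nonneg (sq_nonneg _) (mul_nonneg hl0 (by linarith))
  linarith only [h7]

private theorem z2r_c1 {m t : ℝ} (hm : 0 < m) (ht : 0 < t) :
    0 ≤ ((eE m t - 1) ^ (2 : ℕ) - (exp (t / m) - 1) ^ (2 : ℕ)) / (6 / 5) := by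
  have h4 : 1 ≤ exp (t / m) := one_le_exp (by positivity)
  have h5 := z2r_eE (t := t) hm
  have : (exp (t / m) - 1) ^ (2 : ℕ) ≤ (eE m t - 1) ^ (2 : ℕ) := pow_le_pow_left₀ (by linarith) (by linarith) 2
  have : 0 ≤ (eE m t - 1) ^ (2 : ℕ) - (exp (t / m) - 1) ^ (2 : ℕ) := by linarith
  positivity

private theorem z2r_0 {q m ρ t : ℝ} (hq : 0 < q) (hρ : 0 < ρ) (hm : ρ ≤ m) (ht : 0 < t) :
    ∫⁻ s in Icc t (t + 6 / 5), ENNReal.ofReal (exp (-(q * Dm m ρ (-t) s))) ≤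
      ENNReal.ofReal (b0R q m ρ t) := by
  have hA := AR_pos hρ hm ht
  have h := z2r_int (q := q) (m := m) (ρ := ρ) (θ := -t) (t := t) (a0 := AR m ρ t * t ^ (2 : ℕ))
    (b := AR m ρ t * t) (B := 11 / 25) (c0 := 1) (c1 := 0) (c2 := 0) (S := Icc t (t + 6 / 5))
    measurableSet_Icc (fun s hs => hs.1) hq (by positivity) (by norm_num) (by norm_num) le_rfl
    le_rfl (fun _ => 1) (fun s _ => by norm_num) (fun s hs => z2r_D hρ hm ht hs.1 hs.2)
  simp only [one_mul, zero_mul, add_zero] at h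
  exact h

private theorem z2r_e {q m ρ t : ℝ} (hq : 0 < q) (hρ : 0 < ρ) (hm : ρ ≤ m) (ht : 0 < t) :
    ∫⁻ s in Icc t (t + 6 / 5), ENNReal.ofReal (exp (pm m s) * exp (-(q * Dm m ρ (-t) s))) ≤
      ENNReal.ofReal (beR q m ρ t) := by
  have hA := AR_pos hρ hm ht
  have hm0 : 0 < m := hρ.trans_le hm
  have h5 := z2r_eE (t := t) hm0
  have h := z2r_int (q := q) (m := m) (ρ := ρ) (θ := -t) (t := t) (a0 := AR m ρ t * t ^ (2 : ℕ))
    (b := AR m ρ t * t) (B := 11 / 25) (c0 := exp (t / m))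
    (c1 := (eE m t - exp (t / m)) / (6 / 5)) (c2 := 0) (S := Icc t (t + 6 / 5))
    measurableSet_Icc (fun s hs => hs.1) hq (by positivity) (by norm_num) (exp_pos _).le
    (div_nonneg (by linarith) (by norm_num)) le_rfl
    (fun s => exp (pm m s)) (fun s hs => by
      have := z2r_E hm0 ht hs.1 hs.2
      linarith) (fun s hs => z2r_D hρ hm ht hs.1 hs.2)
  refine h.trans (le_of_eq ?_)
  unfold beR bbR BBR
  congr 1
  ring

/-- the zone behind, right, base point `1`: `bWR` with `n = p = 0` and `5/4` replaced by `1` -/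
theorem Z2Rc {q m ρ t : ℝ} (hq : 0 < q) (hρ : 0 < ρ) (hm : ρ ≤ m) (ht : 0 < t) :
    Zone q m ρ (-t) 1 (Icc t (t + 6 / 5)) (b0R q m ρ t)
      (exp (-(q * (AR m ρ t * t ^ (2 : ℕ)))) * (h0 (bbR q m ρ t) (BBR q) * (exp (t / m) - 1) ^ (2 : ℕ) +
        h1 (BBR q) * (((eE m t - 1) ^ (2 : ℕ) - (exp (t / m) - 1) ^ (2 : ℕ)) / (6 / 5)) +
        h2 (BBR q) * eE m t))
      (beR q m ρ t) := by
  have hA := AR_pos hρ hm ht
  have hm0 : 0 < m := hρ.trans_le hm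
  refine ⟨z2r_0 hq hρ hm ht, ?_, z2r_e hq hρ hm ht⟩
  have h := z2r_int (q := q) (m := m) (ρ := ρ) (θ := -t) (t := t) (a0 := AR m ρ t * t ^ (2 : ℕ))
    (b := AR m ρ t * t) (B := 11 / 25) (c0 := (exp (t / m) - 1) ^ (2 : ℕ))
    (c1 := ((eE m t - 1) ^ (2 : ℕ) - (exp (t / m) - 1) ^ (2 : ℕ)) / (6 / 5)) (c2 := eE m t)
    (S := Icc t (t + 6 / 5))
    measurableSet_Icc (fun s hs => hs.1) hq (by positivity) (by norm_num) (sq_nonneg _)
    (z2r_c1 hm0 ht) (exp_pos _).le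
    (Wm m (-t) 1) (fun s hs => by
      have h2 := z2r_sq hm0 ht hs.1 hs.2
      have h3 := z2r_E1 hm0 ht hs.1 hs.2
      have h4 : 1 - cos (-t + s) ≤ (s - t) ^ (2 : ℕ) / 2 := by
        have := one_sub_sq_div_two_le_cos (x := -t + s)
        have e : (-t + s) ^ (2 : ℕ) = (s - t) ^ (2 : ℕ) := by ring
        rw [e] at this
        linarith
      have h5 := mul_le_mul h3 h4 (by linarith [cos_le_one (-t + s)]) (exp_pos _).le
      rw [beh_Wm]
      linarith) (fun s hs => z2r_D hρ hm ht hs.1 hs.2)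
  refine h.trans (le_of_eq ?_)
  unfold bbR BBR
  congr 1
  ring

theorem Z2R {q m ρ t n p : ℝ} (hq : 0 < q) (hρ : 0 < ρ) (hm : ρ ≤ m) (ht : 0 < t)
    (hn : 0 ≤ n) (hp : 0 ≤ p) :
    Zone q m ρ (-t) (ww n (-p)) (Icc t (t + 6 / 5)) (b0R q m ρ t) (bWR q m ρ t n p)
      (beR q m ρ t) := by
  have hA := AR_pos hρ hm ht
  have hm0 : 0 < m := hρ.trans_le hm
  have hn1 : 1 ≤ exp n := one_le_exp hn
  refine ⟨z2r_0 hq hρ hm ht, ?_, z2r_e hq hρ hm ht⟩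
  have h := z2r_int (q := q) (m := m) (ρ := ρ) (θ := -t) (t := t) (a0 := AR m ρ t * t ^ (2 : ℕ))
    (b := AR m ρ t * t) (B := 11 / 25)
    (c0 := (exp (t / m) - 1) ^ (2 : ℕ) + (exp n - 1) ^ (2 : ℕ) + 5 * eE m t * exp n * p ^ (2 : ℕ))
    (c1 := ((eE m t - 1) ^ (2 : ℕ) - (exp (t / m) - 1) ^ (2 : ℕ)) / (6 / 5)) (c2 := 5 / 4 * eE m t * exp n)
    (S := Icc t (t + 6 / 5))
    measurableSet_Icc (fun s hs => hs.1) hq (by positivity) (by norm_num)
    (by unfold eE; positivity) (z2r_c1 hm0 ht) (by unfold eE; positivity)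
    (Wm m (-t) (ww n (-p))) (fun s hs => by
      have h2 := z2r_sq hm0 ht hs.1 hs.2
      have h3 := z2r_E1 hm0 ht hs.1 hs.2
      have h30 : 1 ≤ exp (pm m s) := one_le_exp (pm_nonneg hm0 (by linarith [hs.1]))
      have h4 : 1 - cos (-t + s - -p) ≤ (5 / 4 * (s - t) ^ (2 : ℕ) + 5 * p ^ (2 : ℕ)) / 2 := by
        have := one_sub_sq_div_two_le_cos (x := -t + s - -p)
        linarith only [this, sq_nonneg ((s - t) / 2 - 2 * p)]
      have h6 : exp (pm m s + n) ≤ eE m t * exp n := by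
        rw [Real.exp_add]
        exact mul_le_mul_of_nonneg_right h3 (exp_pos _).le
      have h5 := mul_le_mul h6 h4 (by linarith [cos_le_one (-t + s - -p)])
        (by unfold eE; positivity)
      have h7 : (exp (pm m s) - exp n) ^ (2 : ℕ) ≤ (exp (pm m s) - 1) ^ (2 : ℕ) + (exp n - 1) ^ (2 : ℕ) := by
        linarith only [mul_nonneg (by linarith : 0 ≤ exp (pm m s) - 1) (by linarith : 0 ≤ exp n - 1)]
      rw [Wm_eq]
      linarith) (fun s hs => z2r_D hρ hm ht hs.1 hs.2)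
  refine h.trans (le_of_eq ?_)
  unfold bWR bbR BBR
  congr 1
  ring

/-! ### final form -/

/-- curvature behind, right: `q (11/25) e^T`, `T = cT m t` -/
noncomputable def B2R (q m t : ℝ) : ℝ := q * (11 / 25 * exp (cT m t))

/-- behind, right: `∫ e^(-q Dm)` -/
noncomputable def beh0R (q m ρ t : ℝ) : ℝ :=
  exp (-(q * (AR m ρ t * t ^ (2 : ℕ)))) * h0 (bbR q m ρ t) (B2R q m t)

/-- behind, right: `∫ |em - 1|² e^(-q Dm)` -/
noncomputable def behWR (q m ρ t : ℝ) : ℝ :=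
  exp (-(q * (AR m ρ t * t ^ (2 : ℕ)))) * ((eS (cT m (t + 6 / 5)) / m) ^ (2 : ℕ) *
    (t ^ (2 : ℕ) * h0 (bbR q m ρ t) (B2R q m t) + 2 * t * h1 (B2R q m t) + h2 (B2R q m t)) +
      exp (cT m (t + 6 / 5)) * h2 (B2R q m t))

theorem B2R_pos {q m t : ℝ} (hq : 0 < q) : 0 < B2R q m t := by
  unfold B2R
  positivity

theorem beh0R_nonneg {q m ρ t : ℝ} (hq : 0 < q) (hρ : 0 < ρ) (hm : ρ ≤ m) (ht : 0 < t) :
    0 ≤ beh0R q m ρ t := by
  have hA := AR_pos hρ hm ht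
  have h := h0_nonneg (b := bbR q m ρ t) (by unfold bbR; positivity) (B2R_pos (m := m) (t := t) hq)
  unfold beh0R
  positivity

theorem behWR_nonneg {q m ρ t : ℝ} (hq : 0 < q) (hρ : 0 < ρ) (hm : ρ ≤ m) (ht : 0 < t) :
    0 ≤ behWR q m ρ t := by
  have hA := AR_pos hρ hm ht
  have h := h0_nonneg (b := bbR q m ρ t) (by unfold bbR; positivity) (B2R_pos (m := m) (t := t) hq)
  have h' := h1_nonneg (B2R_pos (m := m) (t := t) hq)
  have h'' := h2_nonneg (B2R_pos (m := m) (t := t) hq)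
  unfold behWR
  positivity

private theorem z2r_T {m t s : ℝ} (hm : 0 < m) (ht : 0 < t) (h0 : t ≤ s) : cT m t ≤ pm m s := by
  unfold cT pm
  refine le_max_of_le_right (min_le_min le_rfl ?_)
  gcongr

private theorem z2r_D' {m ρ t s : ℝ} (hρ : 0 < ρ) (hm : ρ ≤ m) (ht : 0 < t) (h0 : t ≤ s)
    (h1 : s ≤ t + 6 / 5) : AR m ρ t * t ^ (2 : ℕ) + AR m ρ t * t * (s - t) +
      11 / 25 * exp (cT m t) * (s - t) ^ (2 : ℕ) ≤ Dm m ρ (-t) s := by
  have hm0 : 0 < m := hρ.trans_le hm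
  have hz : 0 ≤ s - t := by linarith
  have h2 := Qm_beh_R hρ hm ht hz
  have h3 := beh_cos hz (by linarith : s - t ≤ 6 / 5)
  rw [show t + (s - t) = s by ring] at h2
  rw [Dm_eq, show -t + s = s - t by ring]
  have h4 : exp (cT m t) ≤ exp (pm m s) := exp_le_exp.2 (z2r_T hm0 ht h0)
  have h5 : 0 ≤ 1 - cos (s - t) := by linarith [cos_le_one (s - t)]
  have h6 : exp (cT m t) * (11 / 25 * (s - t) ^ (2 : ℕ)) ≤ exp (pm m s) * (1 - cos (s - t)) :=
    mul_le_mul h4 h3 (by positivity) (exp_pos _).le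
  linarith

/-- THE ZONE BEHIND, RIGHT, base point `1`. -/
theorem Z2R1 {q m ρ t : ℝ} (hq : 0 < q) (hρ : 0 < ρ) (hm : ρ ≤ m) (ht : 0 < t) :
    Zone q m ρ (-t) 1 (Icc t (t + 6 / 5)) (beh0R q m ρ t) (behWR q m ρ t)
      (exp (cT m (t + 6 / 5)) * beh0R q m ρ t) := by
  have hA := AR_pos hρ hm ht
  have hm0 : 0 < m := hρ.trans_le hm
  have hTb : 0 < cT m (t + 6 / 5) := lt_min one_pos (div_pos (by linarith) hm0)
  have h := Zone.above (q := q) (m := m) (ρ := ρ) (θ := -t) (w := 1) (c := t)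
    (a0 := AR m ρ t * t ^ (2 : ℕ)) (b := AR m ρ t * t) (B := 11 / 25 * exp (cT m t))
    (c0 := (eS (cT m (t + 6 / 5)) / m) ^ (2 : ℕ) * t ^ (2 : ℕ))
    (c1 := (eS (cT m (t + 6 / 5)) / m) ^ (2 : ℕ) * (2 * t))
    (c2 := (eS (cT m (t + 6 / 5)) / m) ^ (2 : ℕ) + exp (cT m (t + 6 / 5)))
    (e0 := exp (cT m (t + 6 / 5))) (S := Icc t (t + 6 / 5))
    measurableSet_Icc hq (by positivity) (by positivity) (by positivity) (by positivity)
    (by positivity) (exp_pos _).le (fun s hs => hs.1)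
    (fun s hs => z2r_D' hρ hm ht hs.1 hs.2)
    (fun s hs => by
      have h1 := Wm_one_R (m := m) (θ := -t) hm0 (ht.le.trans hs.1) hs.2 (by linarith)
      refine h1.trans (le_of_eq ?_)
      rw [div_pow]
      ring)
    (fun s hs => exp_le_exp.2 (pm_le_cT hm0 (ht.le.trans hs.1) hs.2))
  refine h.mono (le_of_eq ?_) (le_of_eq ?_) (le_of_eq ?_)
  · unfold beh0R bbR B2R
    ring_nf
  · unfold behWR bbR B2R
    ring
  · unfold beh0R bbR B2R
    ring_nf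

end SokamCen

end

/-! ### Lib_MP_af4de1_v3.CenTR -/

section
namespace SokamF1
end SokamF1
namespace SokamF1M
end SokamF1M
namespace SokamF1S
end SokamF1S
namespace SokamV3
end SokamV3
/-!
# CEN: TOTAL on the RIGHT (`θ = -t`, `0 < t ≤ π`): all zones, `w = K/ρ` (owner helper66)

`t' = 2π - t`.  Main zone with the direction `w` (Pythagoras), everything else with `w = 1` and one triangle.
-/

set_option autoImplicit false

namespace SokamCen

open Real MeasureTheory Set SokamF1 SokamF1S SokamF1M SokamV3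

/-- `β` of the window -/
noncomputable def bet (t : ℝ) : ℝ := if t ≤ 6 / 5 then (1 - cos t) / t ^ (2 : ℕ) else 11 / 25

theorem win_bet {t : ℝ} (h0 : 0 < t) : Win (bet t) t := by
  unfold bet
  split_ifs with h
  · exact win_t h0 (by linarith only [h, pi_gt_three])
  · exact win_all t

/-! ### main, right -/

noncomputable def mR0 (q m ρ t : ℝ) : ℝ := g0 q (AR m ρ t) (bet t) t 0
noncomputable def mRW (q m ρ t κ : ℝ) : ℝ :=
  gW q (AR m ρ t) (bet t) t 0 (exp (cT m t) * κ ^ (2 : ℕ)) (eS (cT m t) ^ (2 : ℕ) / m ^ (2 : ℕ))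
    (exp (cT m t) * (1 + κ))
noncomputable def mRe (q m ρ t : ℝ) : ℝ := exp (cT m t) * mR0 q m ρ t

/-! ### behind, right, `w = 1` -/

noncomputable def c2b (q m ρ t : ℝ) : ℝ := q * (AR m ρ t * t)
noncomputable def c2B (q m t : ℝ) : ℝ := q * (11 / 25 * exp (cT m t))
noncomputable def c2E (q m ρ t : ℝ) : ℝ := exp (-(q * (AR m ρ t * t ^ (2 : ℕ))))
noncomputable def bR0 (q m ρ t : ℝ) : ℝ := c2E q m ρ t * h0 (c2b q m ρ t) (c2B q m t)
noncomputable def bRW (q m ρ t : ℝ) : ℝ := c2E q m ρ t *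
  ((eS (cT m (t + 6 / 5)) / m) ^ (2 : ℕ) * (t ^ (2 : ℕ) * h0 (c2b q m ρ t) (c2B q m t) +
    2 * t * h1 (c2B q m t) + h2 (c2B q m t)) + exp (cT m (t + 6 / 5)) * h2 (c2B q m t))
noncomputable def bRe (q m ρ t : ℝ) : ℝ := exp (cT m (t + 6 / 5)) * bR0 q m ρ t

/-! ### front, right, `w = 1` -/

noncomputable def fR0 (q m ρ t : ℝ) : ℝ :=
  if t < 6 / 5 then exp (-(q * (1 - cos t))) * h0 (frR q t) (q * aL m ρ) else 0
noncomputable def fRW (q m ρ t : ℝ) : ℝ :=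
  if t < 6 / 5 then exp (-(q * (1 - cos t))) * (t ^ (2 : ℕ) * h0 (frR q t) (q * aL m ρ) +
    2 * t * h1 (q * aL m ρ) + (1 + 1 / m ^ (2 : ℕ)) * h2 (q * aL m ρ)) else 0

/-! ### image, right: the left zones at `t' = 2π - t` -/

noncomputable def iB (m t : ℝ) : ℝ := 11 / 25 * exp (-cT m t)
noncomputable def iL0 (q m ρ t : ℝ) : ℝ := g0 q (AL m ρ t) (iB m t) t 0
noncomputable def iLW (q m ρ t : ℝ) : ℝ := gW q (AL m ρ t) (iB m t) t 0 0 (1 / m ^ (2 : ℕ)) 1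
noncomputable def jL0 (q m ρ t : ℝ) : ℝ := bH0 q m ρ t
noncomputable def jLW (q m ρ t : ℝ) : ℝ :=
  (t ^ (2 : ℕ) * bH0 q m ρ t + 2 * t * bH1 q m ρ t + bH2 q m ρ t) / m ^ (2 : ℕ) + bH2 q m ρ t

/-! ### sums of the other zones; `F0 FW Fe`: rest and far -/

noncomputable def SR0 (q m ρ t F0 : ℝ) : ℝ :=
  bR0 q m ρ t + fR0 q m ρ t + iL0 q m ρ (2 * π - t) + jL0 q m ρ (2 * π - t) + F0
noncomputable def SRW (q m ρ t FW : ℝ) : ℝ :=
  bRW q m ρ t + fRW q m ρ t + iLW q m ρ (2 * π - t) + jLW q m ρ (2 * π - t) + FW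
noncomputable def SRe (q m ρ t Fe : ℝ) : ℝ :=
  bRe q m ρ t + fR0 q m ρ t + iL0 q m ρ (2 * π - t) + jL0 q m ρ (2 * π - t) + Fe

/-! ### totals -/

noncomputable def TR0 (q m ρ t F0 : ℝ) : ℝ := mR0 q m ρ t + SR0 q m ρ t F0
noncomputable def TRW (q m ρ t κ F0 FW : ℝ) : ℝ :=
  mRW q m ρ t κ + (√(SRW q m ρ t FW) + κ * √(SR0 q m ρ t F0)) ^ (2 : ℕ)
noncomputable def TRe (q m ρ t Fe : ℝ) : ℝ := mRe q m ρ t + SRe q m ρ t Fe

/-! ### the weight of the main zone -/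

theorem tr_em_zero (m : ℝ) : em m 0 0 = 1 := by
  unfold em pm
  simp

/-- `|w - 1|²` -/
theorem tr_sub_one_sq (c d : ℝ) : ‖ww c d - 1‖ ^ (2 : ℕ) = (exp c - 1) ^ (2 : ℕ) + 2 * exp c * (1 - cos d) := by
  have h := Wm_eq 1 0 c d 0
  unfold Wm at h
  rw [tr_em_zero] at h
  have e1 : pm 1 0 = 0 := by
    unfold pm
    simp
  rw [e1] at h
  have e2 : (0 : ℝ) + 0 - d = -d := by ring
  rw [e2, cos_neg, exp_zero, zero_add] at h
  have e3 : ‖ww c d - 1‖ = ‖1 - ww c d‖ := norm_sub_rev _ _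
  rw [e3, h]
  ring

theorem Wm_main_R {m t κ c d s : ℝ} (hm : 0 < m) (ht : 0 < t) (hc : 0 ≤ c) (hd : d ≤ 0)
    (hd2 : -(π / 2) ≤ d) (hκ : 0 ≤ κ) (hw : ‖ww c d - 1‖ ≤ κ) (hs : s ∈ SmR t) :
    Wm m (-t) (ww c d) s ≤ exp (cT m t) * κ ^ (2 : ℕ) + eS (cT m t) ^ (2 : ℕ) / m ^ (2 : ℕ) * s ^ (2 : ℕ) +
      exp (cT m t) * (1 + κ) * (t - s) ^ (2 : ℕ) := by
  obtain ⟨h1, h2, h3⟩ := hs
  have hT : 0 < cT m t := lt_min one_pos (by positivity)
  have ha0 : 0 ≤ pm m s := pm_nonneg hm h1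
  have haT : pm m s ≤ cT m t := pm_le_cT hm h1 h2
  have hk : (exp c - 1) ^ (2 : ℕ) + 2 * exp c * (1 - cos d) ≤ κ ^ (2 : ℕ) := by
    rw [← tr_sub_one_sq]
    exact pow_le_pow_left₀ (norm_nonneg _) hw 2
  have hec : 1 ≤ exp c := one_le_exp hc
  have hcd : 0 ≤ 1 - cos d := by linarith only [cos_le_one d]
  have hec2 : exp c ≤ 1 + κ := by
    have h4 : (exp c - 1) ^ (2 : ℕ) ≤ κ ^ (2 : ℕ) := by
      have := mul_nonneg (mul_nonneg zero_le_two (exp_pos c).le) hcd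
      linarith only [hk, this]
    have h5 := abs_le_of_sq_le_sq' h4 hκ
    linarith only [h5.2]
  set A := exp (pm m s) with hA
  have hA1 : 1 ≤ A := one_le_exp ha0
  have hAT : A ≤ exp (cT m t) := exp_le_exp.2 haT
  have e1 : A - 1 ≤ eS (cT m t) * (s / m) := by
    refine (eS_ge ha0 haT hT).trans ?_
    exact mul_le_mul_of_nonneg_left (pm_le hm h1) (eS_nonneg hT)
  have e2 : (A - 1) ^ (2 : ℕ) ≤ eS (cT m t) ^ (2 : ℕ) / m ^ (2 : ℕ) * s ^ (2 : ℕ) := by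
    have := pow_le_pow_left₀ (by linarith only [hA1]) e1 2
    calc (A - 1) ^ (2 : ℕ) ≤ (eS (cT m t) * (s / m)) ^ (2 : ℕ) := this
      _ = _ := by
        field_simp
  have hu : 0 ≤ t - s := by linarith only [h2]
  have e3 := one_sub_cos_le (t - s)
  have hcu : 0 ≤ 1 - cos (t - s) := by linarith only [cos_le_one (t - s)]
  have e4 : 1 - cos (-t + s - d) ≤ (1 - cos (t - s)) + (1 - cos d) := by
    have e5 : cos (-t + s - d) = cos (t - s) * cos d - sin (t - s) * sin d := by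
      rw [← cos_add, ← cos_neg]
      congr 1
      ring
    have e6 : 0 ≤ sin (t - s) := sin_nonneg_of_nonneg_of_le_pi hu (by linarith only [h3, pi_gt_three])
    have e7 : sin d ≤ 0 := sin_nonpos_of_nonpos_of_neg_pi_le hd (by linarith only [hd, hd2])
    rw [e5]
    linarith only [mul_nonneg hcu hcd, mul_nonneg e6 (neg_nonneg.2 e7)]
  rw [Wm_eq, ← hA, Real.exp_add, ← hA]
  have e8 : (A - exp c) ^ (2 : ℕ) ≤ (A - 1) ^ (2 : ℕ) + (exp c - 1) ^ (2 : ℕ) := by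
    linarith only [mul_nonneg (sub_nonneg.2 hA1) (sub_nonneg.2 hec)]
  have hAc : 0 ≤ 2 * (A * exp c) := by positivity
  have e9 := mul_le_mul_of_nonneg_left e4 hAc
  -- `2 A e^c (1 - cos u) ≤ e^T (1+κ) u²`
  have e10 : 2 * (A * exp c) * (1 - cos (t - s)) ≤ exp (cT m t) * (1 + κ) * (t - s) ^ (2 : ℕ) := by
    calc 2 * (A * exp c) * (1 - cos (t - s)) = (A * exp c) * (2 * (1 - cos (t - s))) := by ring
      _ ≤ (exp (cT m t) * (1 + κ)) * (t - s) ^ (2 : ℕ) :=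
        mul_le_mul (mul_le_mul hAT hec2 (exp_pos _).le (exp_pos _).le) e3 (by (clear * - hcu; positivity))
          (by (clear * - hκ; positivity))
  have e11 : (exp c - 1) ^ (2 : ℕ) + 2 * (A * exp c) * (1 - cos d) ≤ exp (cT m t) * κ ^ (2 : ℕ) := by
    have e12 : (exp c - 1) ^ (2 : ℕ) ≤ A * (exp c - 1) ^ (2 : ℕ) := le_mul_of_one_le_left (sq_nonneg _) hA1
    have e13 : A * ((exp c - 1) ^ (2 : ℕ) + 2 * exp c * (1 - cos d)) ≤ exp (cT m t) * κ ^ (2 : ℕ) :=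
      mul_le_mul hAT hk (by (clear * - hcd; positivity)) (exp_pos _).le
    linarith only [e12, e13]
  linarith only [e2, e8, e9, e10, e11]

/-! ### the zones cover the line -/

theorem tr_far_cos {u : ℝ} (h1 : 6 / 5 ≤ u) (h2 : u ≤ 5) : 6336 / 10000 ≤ 1 - cos u := by
  rcases le_total u π with h | h
  · exact SokamFA.cos_split_large h1 h
  · have e : cos u = cos (2 * π - u) := by rw [cos_two_pi_sub]
    rw [e]
    exact SokamFA.cos_split_large (by linarith only [h2, pi_gt_d]) (by linarith only [h])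

theorem cov_R {t : ℝ} (h1 : t ≤ π) (s : ℝ) :
    s ∈ SmR t ∨ (s ∈ Icc t (t + 6 / 5) ∨ s ∈ (if t < 6 / 5 then Icc (-(6 / 5 - t)) 0 else ∅) ∨
      s ∈ SmL (2 * π - t) ∨ s ∈ Icc (-(2 * π - t) - 6 / 5) (-(2 * π - t)) ∨
      s ∈ {s | 6336 / 10000 ≤ 1 - cos (-t + s)} ∨ s ∈ Ici (t + 5) ∪ Iic (-(2 * π - t + 5))) := by
  have hp := pi_gt_d
  have hp2 := pi_lt_d
  have hc : ∀ u, cos (-t + s) = cos u → 6 / 5 ≤ u → u ≤ 5 →
      s ∈ {s | 6336 / 10000 ≤ 1 - cos (-t + s)} := fun u hu h2 h3 => by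
    show 6336 / 10000 ≤ 1 - cos (-t + s)
    rw [hu]
    exact tr_far_cos h2 h3
  rcases le_total (t + 5) s with a | a
  · exact Or.inr (Or.inr (Or.inr (Or.inr (Or.inr (Or.inr (Or.inl a))))))
  rcases le_total (t + 6 / 5) s with b | b
  · exact Or.inr (Or.inr (Or.inr (Or.inr (Or.inr (Or.inl (hc (s - t) (by congr 1; ring)
      (by linarith only [b]) (by linarith only [a])))))))
  rcases le_total t s with c | c
  · exact Or.inr (Or.inl ⟨c, b⟩)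
  rcases le_total 0 s with d | d
  · rcases le_total (t - s) (6 / 5) with e | e
    · exact Or.inl ⟨d, c, e⟩
    · refine Or.inr (Or.inr (Or.inr (Or.inr (Or.inr (Or.inl (hc (t - s) ?_ e (by linarith only [h1, hp2, d])))))))
      rw [← cos_neg]
      congr 1
      ring
  rcases le_total (t - s) (6 / 5) with e | e
  · rcases lt_or_ge t (6 / 5) with f | f
    · refine Or.inr (Or.inr (Or.inl ?_))
      rw [if_pos f]
      exact ⟨by linarith only [e], d⟩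
    · have hs : s = 0 := by linarith only [d, e, f]
      have ht : t = 6 / 5 := by linarith only [e, f, hs]
      refine Or.inl ⟨hs.ge, by linarith only [hs, ht], e⟩
  rcases le_total (t - s) 5 with f | f
  · refine Or.inr (Or.inr (Or.inr (Or.inr (Or.inr (Or.inl (hc (t - s) ?_ e f))))))
    rw [← cos_neg]
    congr 1
    ring
  rcases le_total (t - s) (2 * π - 6 / 5) with g | g
  · refine Or.inr (Or.inr (Or.inr (Or.inr (Or.inr (Or.inl (hc (2 * π - (t - s)) ?_ (by linarith only [g])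
      (by linarith only [hp2, f])))))))
    rw [cos_two_pi_sub, ← cos_neg]
    congr 1
    ring
  rcases le_total (t - s) (2 * π) with i | i
  · exact Or.inr (Or.inr (Or.inr (Or.inl ⟨by linarith only [i], d, by linarith only [g]⟩)))
  rcases le_total (t - s) (2 * π + 6 / 5) with j | j
  · exact Or.inr (Or.inr (Or.inr (Or.inr (Or.inl ⟨by linarith only [j], by linarith only [i]⟩))))
  rcases le_total (t - s) (2 * π + 5) with k | k
  · refine Or.inr (Or.inr (Or.inr (Or.inr (Or.inr (Or.inl (hc (t - s - 2 * π) ?_ (by linarith only [j])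
      (by linarith only [k])))))))
    rw [cos_sub_two_pi, ← cos_neg]
    congr 1
    ring
  · refine Or.inr (Or.inr (Or.inr (Or.inr (Or.inr (Or.inr (Or.inr ?_))))))
    show s ≤ -(2 * π - t + 5)
    linarith only [k]

/-! ### nonnegativity -/

theorem tr_gG_nonneg (q A B : ℝ) : 0 ≤ gG q A B := Real.sqrt_nonneg _

theorem tr_gr_nonneg {q A B t : ℝ} (hA : 0 < A) (hB : 0 < B) (ht : 0 ≤ t) : 0 ≤ gr q A B t :=
  le_min (div_nonneg (tr_gG_nonneg _ _ _) zero_le_two) (by linarith only [gv_le hA hB ht])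

theorem tr_gs_nonneg {q A B : ℝ} (hq : 0 < q) (hA : 0 < A) (hB : 0 < B) : 0 ≤ gs q A B := by
  unfold gs
  positivity

theorem tr_g0_nonneg {q A B t l : ℝ} (hA : 0 < A) (hB : 0 < B) (ht : 0 ≤ t) :
    0 ≤ g0 q A B t l := by
  have h1 := tr_gG_nonneg q A B
  have h2 := tr_gr_nonneg (q := q) hA hB ht
  unfold g0
  (clear * - h1 h2; positivity)

theorem tr_gW_nonneg {q A B t l a0 a1 a2 : ℝ} (hq : 0 < q) (hA : 0 < A) (hB : 0 < B) (ht : 0 ≤ t)
    (h0 : 0 ≤ a0) (h1 : 0 ≤ a1) (h2 : 0 ≤ a2) : 0 ≤ gW q A B t l a0 a1 a2 := by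
  have e1 := tr_gG_nonneg q A B
  have e2 := tr_gr_nonneg (q := q) hA hB ht
  have e3 := tr_gs_nonneg hq hA hB
  have e4 : 0 ≤ t - gv A B t := by linarith only [gv_le hA hB ht]
  unfold gW
  refine mul_nonneg (le_min ?_ ?_) (exp_pos _).le <;> positivity

section nn

variable {q m ρ t : ℝ}

theorem tr_bet_pos (h0 : 0 < t) : 0 < bet t := (win_bet h0).1

theorem mR0_nonneg (hρ : 0 < ρ) (hm : ρ ≤ m) (ht : 0 < t) : 0 ≤ mR0 q m ρ t :=
  tr_g0_nonneg (AR_pos hρ hm ht) (tr_bet_pos ht) ht.le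

theorem mRW_nonneg {κ : ℝ} (hq : 0 < q) (hρ : 0 < ρ) (hm : ρ ≤ m) (ht : 0 < t) (hκ : 0 ≤ κ) :
    0 ≤ mRW q m ρ t κ :=
  tr_gW_nonneg hq (AR_pos hρ hm ht) (tr_bet_pos ht) ht.le (by (clear * -; positivity)) (by (clear * -; positivity)) (by (clear * - hκ; positivity))

theorem mRe_nonneg (hρ : 0 < ρ) (hm : ρ ≤ m) (ht : 0 < t) : 0 ≤ mRe q m ρ t :=
  mul_nonneg (exp_pos _).le (mR0_nonneg hρ hm ht)

theorem c2b_nonneg (hq : 0 < q) (hρ : 0 < ρ) (hm : ρ ≤ m) (ht : 0 < t) : 0 ≤ c2b q m ρ t :=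
  mul_nonneg hq.le (mul_nonneg (AR_pos hρ hm ht).le ht.le)

theorem c2B_pos (hq : 0 < q) : 0 < c2B q m t := by
  unfold c2B
  positivity

theorem bR0_nonneg (hq : 0 < q) (hρ : 0 < ρ) (hm : ρ ≤ m) (ht : 0 < t) : 0 ≤ bR0 q m ρ t :=
  mul_nonneg (exp_pos _).le (h0_nonneg (c2b_nonneg hq hρ hm ht) (c2B_pos hq))

theorem bRW_nonneg (hq : 0 < q) (hρ : 0 < ρ) (hm : ρ ≤ m) (ht : 0 < t) : 0 ≤ bRW q m ρ t := by
  have e0 := h0_nonneg (c2b_nonneg hq hρ hm ht) (c2B_pos (m := m) (t := t) hq)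
  have e1 := h1_nonneg (c2B_pos (m := m) (t := t) hq)
  have e2 := h2_nonneg (c2B_pos (m := m) (t := t) hq)
  unfold bRW c2E
  (clear * - ht e0 e1 e2; positivity)

theorem bRe_nonneg (hq : 0 < q) (hρ : 0 < ρ) (hm : ρ ≤ m) (ht : 0 < t) : 0 ≤ bRe q m ρ t :=
  mul_nonneg (exp_pos _).le (bR0_nonneg hq hρ hm ht)

theorem fR0_nonneg (hq : 0 < q) (hρ : 0 < ρ) (hm : ρ ≤ m) : 0 ≤ fR0 q m ρ t := by
  unfold fR0
  split_ifs
  · exact mul_nonneg (exp_pos _).le (h0_nonneg (frR_nonneg hq) (mul_pos hq (aL_pos hρ hm)))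
  · exact le_rfl

theorem fRW_nonneg (hq : 0 < q) (hρ : 0 < ρ) (hm : ρ ≤ m) (ht : 0 < t) : 0 ≤ fRW q m ρ t := by
  have hB := mul_pos hq (aL_pos hρ hm)
  have e0 := h0_nonneg (frR_nonneg (t := t) hq) hB
  have e1 := h1_nonneg hB
  have e2 := h2_nonneg hB
  unfold fRW
  split_ifs
  · (clear * - ht e0 e1 e2; positivity)
  · exact le_rfl

theorem tr_iB_pos : 0 < iB m t := by
  unfold iB
  positivity

theorem iL0_nonneg (hρ : 0 < ρ) (hm : ρ ≤ m) (ht : 0 < t) : 0 ≤ iL0 q m ρ t :=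
  tr_g0_nonneg (AL_pos hρ hm ht) tr_iB_pos ht.le

theorem iLW_nonneg (hq : 0 < q) (hρ : 0 < ρ) (hm : ρ ≤ m) (ht : 0 < t) : 0 ≤ iLW q m ρ t :=
  tr_gW_nonneg hq (AL_pos hρ hm ht) tr_iB_pos ht.le le_rfl (by (clear * -; positivity)) zero_le_one

theorem tr_bH0_nonneg : 0 ≤ bH0 q m ρ t := by
  unfold bH0
  positivity

theorem tr_bH1_nonneg (hq : 0 < q) (hρ : 0 < ρ) (hm : ρ ≤ m) (ht : 0 ≤ t) : 0 ≤ bH1 q m ρ t := by
  have := bB_pos hρ hm ht
  unfold bH1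
  positivity

theorem tr_bH2_nonneg (hq : 0 < q) (hρ : 0 < ρ) (hm : ρ ≤ m) (ht : 0 ≤ t) : 0 ≤ bH2 q m ρ t := by
  have := bB_pos hρ hm ht
  unfold bH2
  (clear * - hq this; positivity)

theorem jL0_nonneg : 0 ≤ jL0 q m ρ t := tr_bH0_nonneg

theorem jLW_nonneg (hq : 0 < q) (hρ : 0 < ρ) (hm : ρ ≤ m) (ht : 0 ≤ t) : 0 ≤ jLW q m ρ t := by
  have e0 := tr_bH0_nonneg (q := q) (m := m) (ρ := ρ) (t := t)
  have e1 := tr_bH1_nonneg hq hρ hm ht
  have e2 := tr_bH2_nonneg hq hρ hm ht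
  unfold jLW
  (clear * - e0 ht e1 e2; positivity)

end nn

/-! ### the zones -/

theorem bR_zone {q m ρ t : ℝ} (hq : 0 < q) (hρ : 0 < ρ) (hm : ρ ≤ m) (ht : 0 < t) :
    Zone q m ρ (-t) 1 (Icc t (t + 6 / 5)) (bR0 q m ρ t) (bRW q m ρ t) (bRe q m ρ t) :=
  Z2R1 hq hρ hm ht

theorem tr_zone_empty (q m ρ θ : ℝ) (w : ℂ) : Zone q m ρ θ w ∅ 0 0 0 := by
  refine ⟨?_, ?_, ?_⟩ <;> simp

theorem fR_zone {q m ρ t : ℝ} (hq : 0 < q) (hρ : 0 < ρ) (hm : ρ ≤ m) (hm1 : 5 / 4 ≤ m)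
    (ht : 0 < t) : Zone q m ρ (-t) 1 (if t < 6 / 5 then Icc (-(6 / 5 - t)) 0 else ∅) (fR0 q m ρ t)
      (fRW q m ρ t) (fR0 q m ρ t) := by
  unfold fR0 fRW
  split_ifs with h
  · exact zone_front_R hq hρ hm hm1 ht h.le
  · exact tr_zone_empty _ _ _ _ _

theorem iL_zone {q m ρ t : ℝ} (hq : 0 < q) (hρ : 0 < ρ) (hm : ρ ≤ m) (ht : 0 < t) :
    Zone q m ρ t 1 (SmL t) (iL0 q m ρ t) (iLW q m ρ t) (iL0 q m ρ t) := by
  have hm0 : 0 < m := hρ.trans_le hm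
  have h := zmain_L (q := q) hq hρ hm ht (win_all t) (lft_cT hm0 (by norm_num : (0 : ℝ) < 11 / 25))
  rw [one_mul] at h
  exact h

/-- MAIN ZONE with the direction `w`. -/
theorem mR_zone {q m ρ t κ c d : ℝ} (hq : 0 < q) (hρ : 0 < ρ) (hm : ρ ≤ m) (ht : 0 < t)
    (hc : 0 ≤ c) (hd : d ≤ 0) (hd2 : -(π / 2) ≤ d) (hκ : 0 ≤ κ) (hw : ‖ww c d - 1‖ ≤ κ) :
    Zone q m ρ (-t) (ww c d) (SmR t) (mR0 q m ρ t) (mRW q m ρ t κ) (mRe q m ρ t) := by
  have hm0 : 0 < m := hρ.trans_le hm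
  exact zmain_of_R hq (AR_pos hρ hm ht) (tr_bet_pos ht) ht.le (measurableSet_SmR t)
    (fun s hs => ⟨hs.1, hs.2.1⟩) (fun s hs => Dm_main_R hρ hm ht (win_bet ht) hs) (by (clear * -; positivity))
    (by (clear * - hm0; positivity)) (by (clear * - hκ; positivity)) (fun s hs => Wm_main_R hm0 ht hc hd hd2 hκ hw hs)
    (exp_pos _).le fun s hs => exp_le_exp.2 (pm_le_cT hm0 hs.1 hs.2.1)

/-- ALL ZONES, right. -/
theorem zoneR {q m ρ t κ c d F0 FW Fe : ℝ} (hq : 0 < q) (hρ : 0 < ρ) (hm : ρ ≤ m)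
    (hm1 : 5 / 4 ≤ m) (ht : 0 < t) (htp : t ≤ π) (hc : 0 ≤ c) (hd : d ≤ 0) (hd2 : -(π / 2) ≤ d)
    (hκ : 0 ≤ κ) (hw : ‖ww c d - 1‖ ≤ κ) (hF0 : 0 ≤ F0) (hFW : 0 ≤ FW) (hFe : 0 ≤ Fe)
    (hF : Zone q m ρ (-t) 1 ({s | 6336 / 10000 ≤ 1 - cos (-t + s)} ∪
      (Ici (t + 5) ∪ Iic (-(2 * π - t + 5)))) F0 FW Fe) :
    Zone q m ρ (-t) (ww c d) univ (TR0 q m ρ t F0) (TRW q m ρ t κ F0 FW) (TRe q m ρ t Fe) := by
  have hp := pi_gt_d
  have ht' : 0 < 2 * π - t := by linarith only [ht, htp]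
  have e : (2 * π - t) - 2 * π = -t := by ring
  -- images
  have zi := (iL_zone hq hρ hm ht').sub_two_pi
  rw [e] at zi
  have zj := (zone_behind_L' hq hρ hm ht'.le).sub_two_pi
  rw [e] at zj
  have n1 := bR0_nonneg hq hρ hm ht
  have n2 := bRW_nonneg hq hρ hm ht
  have n3 := bRe_nonneg hq hρ hm ht
  have n4 := fR0_nonneg (t := t) hq hρ hm
  have n5 := fRW_nonneg hq hρ hm ht
  have n6 := iL0_nonneg (q := q) hρ hm ht'
  have n7 := iLW_nonneg hq hρ hm ht'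
  have n8 := jL0_nonneg (q := q) (m := m) (ρ := ρ) (t := 2 * π - t)
  have n9 := jLW_nonneg hq hρ hm ht'.le
  have z1 := (bR_zone hq hρ hm ht).union (fR_zone hq hρ hm hm1 ht) n1 n2 n3 n4 n5 n4
  have z2 := z1.union zi (by (clear * - n1 n4; positivity)) (by (clear * - n2 n5; positivity)) (by (clear * - n3 n4; positivity)) n6 n7 n6
  have z3 := z2.union zj (by (clear * - n1 n4 n6; positivity)) (by (clear * - n2 n5 n7; positivity)) (by (clear * - n3 n4 n6; positivity)) n8 n9 n8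
  have z4 := z3.union hF (by (clear * - n1 n4 n6 n8; positivity)) (by (clear * - n2 n5 n7 n9; positivity)) (by (clear * - n3 n4 n6 n8; positivity)) hF0 hFW hFe
  have z5 := z4.tri (w' := ww c d) (κ := κ) (by (clear * - n1 n4 n6 n8 hF0; positivity)) (by (clear * - n2 n5 n7 n9 hFW; positivity)) hw
  have z6 := (mR_zone hq hρ hm ht hc hd hd2 hκ hw).union z5 (mR0_nonneg hρ hm ht)
    (mRW_nonneg hq hρ hm ht hκ) (mRe_nonneg hρ hm ht) (by (clear * - n1 n4 n6 n8 hF0; positivity)) (by (clear * -; positivity))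
    (by (clear * - n3 n4 n6 n8 hFe; positivity))
  refine z6.subset fun s _ => ?_
  rcases cov_R htp s with h | h | h | h | h | h | h
  · exact Or.inl h
  · exact Or.inr (Or.inl (Or.inl (Or.inl (Or.inl h))))
  · exact Or.inr (Or.inl (Or.inl (Or.inl (Or.inr h))))
  · exact Or.inr (Or.inl (Or.inl (Or.inr h)))
  · exact Or.inr (Or.inl (Or.inr h))
  · exact Or.inr (Or.inr (Or.inl h))
  · exact Or.inr (Or.inr (Or.inr h))


/-! ### to `Shf` -/

end SokamCen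

end

/-! ### Lib_MP_af4de1_v3.CelRF -/

section
namespace SokamFN
end SokamFN
/-!
# Cells, right side: front in scaled variables

Front `s = -v ≤ 0`: half Gaussian `exp (-r (1 - cos t) - r aL v²)`; `P I0 = RF0`, `P IW R/h² = RF0 RFW/c²`,
`P Ie = RF0`, `P` the level factor.
-/

set_option autoImplicit false

namespace SokamCel

open SokamFN

/-- front coefficient `(μ - ν/2)/μ²` -/
noncomputable def Rf (μ ν : ℝ) : ℝ := (μ - 1 / 2 * ν) / μ ^ (2 : ℕ)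

/-- front, right: `P I0` -/
noncomputable def RF0 (μ q g c ν h τ Γ : ℝ) : ℝ :=
  √(q * (1 + c ^ (2 : ℕ) / μ ^ (2 : ℕ)) / (2 * Rf μ ν)) / 2 * (1 / c) *
    Real.exp (-(Γ * ((1 + τ) ^ (2 : ℕ) * bq ((1 + τ) * h) / c ^ (2 : ℕ) - g / 2 * τ ^ (2 : ℕ))))

/-- front, right: `(IW/I0) (R/h²) c²` -/
noncomputable def RFW (μ c ν τ Γ : ℝ) : ℝ :=
  (1 + τ) ^ (2 : ℕ) + 2 * (1 + τ) * √(ν / (Γ * Rf μ ν) * (1 / Real.pi)) +
    (1 + c ^ (2 : ℕ) / μ ^ (2 : ℕ)) * (ν / (Γ * Rf μ ν)) / 2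

/-- the front part: upper bounds of `F0` and of `F0 W/c²` -/
def xfr (P : Par) (C : Cl) (b : I) (G : ℕ) : Option (ℕ × ℕ) :=
  let f := mL (mL (P.M.1 - mU C.n.2 549755813888) P.N.1) P.N.1
  let a0 := mL (mL C.t1.1 C.t1.1) b.1
  let d2 := mU C.c.2 C.c.2
  let e2 := mU (mU C.u.2 C.u.2) P.g.2
  let x := dL a0 d2
  let Vn := SC + mU C.c2.2 (mU P.N.2 P.N.2)
  let w := dU C.n.2 (mL G f)
  bif Nat.blt 0 f && Nat.blt 0 (mL G f) && Nat.blt 0 C.c.2 && Nat.ble (3 * d2) (2 * mL G a0) &&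
      Nat.ble (mU C.n.2 549755813888) P.M.1 && Nat.ble e2 x then
    let S := sqU (mU P.q.2 (dU Vn f) / 2 + 1) / 2 + 1
    let i1 := dU SC C.c.2
    let E := eN (mL G (x - e2))
    let W := mU C.t1.2 C.t1.2 + 2 * mU C.t1.2 (sqU (mU w 350008700000)) + (mU Vn w / 2 + 1)
    some (mU (mU S i1) E, mU (mU (mU S (mU i1 (mU i1 i1))) E) W)
  else none


theorem xfr_sound {P : Par} {μ q g kk c ν h τ Γ : ℝ} (hP : P.Ok μ q g kk) {C : Cl}
    (hC : C.Has μ c ν h τ) {b : I} {G : ℕ} (hb : Mem (bq ((1 + τ) * h)) b)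
    (hG : fx G ≤ Γ) (hc : 0 < c) (hν : 0 < ν) (hτ : 0 ≤ τ)
    {a a' : ℕ} (hx : xfr P C b G = some (a, a')) :
    RF0 μ q g c ν h τ Γ ≤ fx a ∧ RF0 μ q g c ν h τ Γ * (RFW μ c ν τ Γ / c ^ (2 : ℕ)) ≤ fx a' ∧ 0 < G := by
  have hμ := hP.pos
  have hμ1 := hP.le
  unfold xfr at hx
  simp only at hx
  obtain ⟨f, hfe⟩ : ∃ f, f = mL (mL (P.M.1 - mU C.n.2 549755813888) P.N.1) P.N.1 := ⟨_, rfl⟩
  obtain ⟨a0, ha0⟩ : ∃ a0, a0 = mL (mL C.t1.1 C.t1.1) b.1 := ⟨_, rfl⟩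
  obtain ⟨d2, hd2⟩ : ∃ d2, d2 = mU C.c.2 C.c.2 := ⟨_, rfl⟩
  obtain ⟨e2, he2⟩ : ∃ e2, e2 = mU (mU C.u.2 C.u.2) P.g.2 := ⟨_, rfl⟩
  rw [← hfe, ← ha0, ← hd2, ← he2] at hx
  obtain ⟨x, hxe⟩ : ∃ x, x = dL a0 d2 := ⟨_, rfl⟩
  obtain ⟨Vn, hVn⟩ : ∃ Vn, Vn = SC + mU C.c2.2 (mU P.N.2 P.N.2) := ⟨_, rfl⟩
  obtain ⟨w, hw⟩ : ∃ w, w = dU C.n.2 (mL G f) := ⟨_, rfl⟩
  rw [← hxe, ← hVn, ← hw] at hx
  cases hbb : (Nat.blt 0 f && Nat.blt 0 (mL G f) && Nat.blt 0 C.c.2 &&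
      Nat.ble (3 * d2) (2 * mL G a0) && Nat.ble (mU C.n.2 549755813888) P.M.1 && Nat.ble e2 x) with
  | false => rw [hbb] at hx; simp at hx
  | true =>
    rw [hbb] at hx
    simp only [cond_true, Option.some.injEq, Prod.mk.injEq] at hx
    obtain ⟨ha, ha'⟩ := hx
    simp only [Bool.and_eq_true, blt_iff, Nat.ble_eq] at hbb
    obtain ⟨⟨⟨⟨⟨hf0, hGf⟩, hc1⟩, h3⟩, hnM⟩, he⟩ := hbb
    -- f
    obtain ⟨F, hF⟩ : ∃ F, F = Rf μ ν := ⟨_, rfl⟩
    have hfF : fx f ≤ F := by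
      rw [hfe, hF]
      have k1 : (1 / 2 : ℝ) ≤ fx 549755813888 := by unfold fx; norm_num
      have k2 : ν * (1 / 2) ≤ fx (mU C.n.2 549755813888) := mulU hC.hn.2 k1 (by norm_num)
      have k3 := subL hP.hM.1 k2 hnM
      have k4 := mulL (mulL k3 hP.hN.1) hP.hN.1
      refine k4.trans (le_of_eq ?_)
      unfold Rf
      field_simp
    have hF0 : 0 < F := (fx_pos hf0).trans_le hfF
    have hGpos : 0 < G := by
      rcases Nat.eq_zero_or_pos G with h0 | h0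
      · rw [h0] at hGf; simp [mL] at hGf
      · exact h0
    have hΓ0 : 0 < Γ := (fx_pos hGpos).trans_le hG
    obtain ⟨D, hD⟩ : ∃ D, D = fx C.c.2 := ⟨_, rfl⟩
    have hcD : c ≤ D := by rw [hD]; exact hC.hc.2
    have hD0 : 0 < D := by rw [hD]; exact fx_pos hc1
    obtain ⟨B, hB⟩ : ∃ B, B = (1 + τ) ^ (2 : ℕ) * bq ((1 + τ) * h) := ⟨_, rfl⟩
    have hB1 : fx a0 ≤ B := by
      rw [ha0, hB, pow_two]
      exact mulL (mulL hC.ht1.1 hC.ht1.1) hb.1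
    have hD2 : D ^ (2 : ℕ) ≤ fx d2 := by
      rw [hd2, hD, pow_two]
      exact le_mU _ _
    have hGa : fx (mL G a0) ≤ Γ * B := mulL hG hB1
    have hcond : (3 : ℝ) * D ^ (2 : ℕ) ≤ 2 * fx (mL G a0) := by
      have k1 : fx (3 * d2) ≤ fx (2 * mL G a0) := fx_mono h3
      have k2 : fx (3 * d2) = 3 * fx d2 := by unfold fx; push_cast; ring
      have k3 : fx (2 * mL G a0) = 2 * fx (mL G a0) := by unfold fx; push_cast; ring
      rw [k2, k3] at k1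
      linarith only [hD2, k1]
    have m3 := front_mono' (E := g / 2 * τ ^ (2 : ℕ)) hc hcD 3 hGa (by push_cast; exact hcond)
    have m1 := front_mono' (E := g / 2 * τ ^ (2 : ℕ)) hc hcD 1 hGa (by
      push_cast; nlinarith only [hcond])
    -- exponent
    have hE2 : g / 2 * τ ^ (2 : ℕ) ≤ fx e2 := by
      rw [he2, mul_comm]
      have h1 := mulU hC.hu.2 hC.hu.2 hτ
      have hg0 : 0 ≤ g / 2 := (fx_nonneg _).trans hP.hg.1
      have h2 := mulU h1 hP.hg.2 hg0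
      rwa [pow_two]
    have hx1 : fx x ≤ B / D ^ (2 : ℕ) := by
      rw [hxe]
      exact divL hB1 hD2 (by (clear * - hD0; positivity))
    have hE := expNegU (mulL hG (subL hx1 hE2 he))
    have hi1 : 1 / D ≤ fx (dU SC C.c.2) := by
      rw [hD]; exact divU (le_of_eq fx_one.symm) le_rfl hc1
    -- square root
    have hVn1 : 1 + c ^ (2 : ℕ) / μ ^ (2 : ℕ) ≤ fx Vn := by
      rw [hVn]
      refine addU (le_of_eq fx_one.symm) ?_
      have h2 := mulU hC.hc2.2 (mulU hP.hN.2 hP.hN.2 (by (clear * - hμ; positivity))) (by (clear * - hμ; positivity))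
      refine le_trans (le_of_eq ?_) h2
      field_simp
    have hq0 : 0 ≤ q := hP.hq.nonneg
    have hS : √(q * (1 + c ^ (2 : ℕ) / μ ^ (2 : ℕ)) / (2 * F)) / 2 ≤ fx (sqU (mU P.q.2 (dU Vn f) / 2 + 1) / 2 + 1) := by
      apply half_up
      apply sqrtU
      have k1 := half_up (mulU hP.hq.2 (divU hVn1 hfF hf0) (by (clear * - hc hμ hF0; positivity)))
      refine le_trans (le_of_eq ?_) k1
      field_simp
    have hw1 : ν / (Γ * F) ≤ fx w := by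
      rw [hw]
      exact divU hC.hn.2 (mulL hG hfF) hGf
    have hW : RFW μ c ν τ Γ ≤
        fx (mU C.t1.2 C.t1.2 + 2 * mU C.t1.2 (sqU (mU w 350008700000)) + (mU Vn w / 2 + 1)) := by
      unfold RFW
      rw [← hF]
      refine addU (addU ?_ ?_) ?_
      · rw [pow_two]; exact mulU hC.ht1.2 hC.ht1.2 (by (clear * - hτ; positivity))
      · have k1 := mulU hC.ht1.2 (sqrtU (mulU hw1 inv_pi_le (by positivity))) (Real.sqrt_nonneg _)
        have k2 := two_up k1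
        rw [← mul_assoc] at k2
        exact k2
      · exact half_up (mulU hVn1 hw1 (by (clear * - hν hΓ0 hF0; positivity)))
    have hW0 : 0 ≤ RFW μ c ν τ Γ := by
      unfold RFW
      rw [← hF]
      (clear * - hτ hν hΓ0 hF0 hc hμ; positivity)
    have e0 : RF0 μ q g c ν h τ Γ = √(q * (1 + c ^ (2 : ℕ) / μ ^ (2 : ℕ)) / (2 * F)) / 2 *
        ((1 / c) ^ (1 : ℕ) * Real.exp (-(Γ * (B / c ^ (2 : ℕ) - g / 2 * τ ^ (2 : ℕ))))) := by
      unfold RF0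
      rw [← hF, ← hB]
      ring
    refine ⟨?_, ?_, hGpos⟩
    · rw [← ha, e0]
      have k1 := mulU (mulU hS hi1 (by (clear * - hD0; positivity))) hE (Real.exp_pos _).le
      refine le_trans ?_ k1
      rw [mul_assoc]
      refine mul_le_mul_of_nonneg_left ?_ (by (clear * -; positivity))
      rw [pow_one, pow_one] at m1
      rw [pow_one]
      exact m1
    · rw [← ha', e0]
      have k1 := mulU (mulU (mulU hS (mulU hi1 (mulU hi1 hi1 (by (clear * - hD0; positivity))) (by (clear * - hD0; positivity)))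
        (by (clear * - hD0; positivity))) hE (Real.exp_pos _).le) hW hW0
      refine le_trans ?_ k1
      have e1 : √(q * (1 + c ^ (2 : ℕ) / μ ^ (2 : ℕ)) / (2 * F)) / 2 *
          ((1 / c) ^ (1 : ℕ) * Real.exp (-(Γ * (B / c ^ (2 : ℕ) - g / 2 * τ ^ (2 : ℕ))))) * (RFW μ c ν τ Γ / c ^ (2 : ℕ)) =
          √(q * (1 + c ^ (2 : ℕ) / μ ^ (2 : ℕ)) / (2 * F)) / 2 * ((1 / c) ^ (3 : ℕ) *
            Real.exp (-(Γ * (B / c ^ (2 : ℕ) - g / 2 * τ ^ (2 : ℕ))))) * RFW μ c ν τ Γ := by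
        ring
      rw [e1]
      refine mul_le_mul_of_nonneg_right ?_ hW0
      have e2 : 1 / D * (1 / D * (1 / D)) = (1 / D) ^ (3 : ℕ) := by ring
      rw [e2, mul_assoc]
      exact mul_le_mul_of_nonneg_left m3 (by (clear * -; positivity))

end SokamCel

end

/-! ### Lib_MP_af4de1_v3.RSum -/

section
/-!
# Right side: the sum of the other zones in scaled variables, and the three inequalities of a run

`b0 bW be`: rest and far (`UB` of `CenUReal`).  `RunP` is what a run proves for one point.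
-/

set_option autoImplicit false

namespace SokamCel

/-- front present only for `t < 6/5` -/
noncomputable def XF0 (μ q g c ν h τ Γ : ℝ) : ℝ :=
  if (1 + τ) * h < 6 / 5 then RF0 μ q g c ν h τ Γ else 0

noncomputable def XFW (μ q g c ν h τ Γ : ℝ) : ℝ :=
  if (1 + τ) * h < 6 / 5 then RF0 μ q g c ν h τ Γ * (RFW μ c ν τ Γ / c ^ (2 : ℕ)) else 0

/-- `P SR0` -/
noncomputable def XS0 (μ q g c ν h τ Γ b : ℝ) : ℝ :=
  RB0 μ q g c ν h τ Γ + XF0 μ q g c ν h τ Γ + (RI0 μ q g c ν h τ Γ + RJ0 μ q g c ν h τ Γ) + b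

/-- `P SRW R/h²` -/
noncomputable def XSW (μ q g c ν h τ Γ b : ℝ) : ℝ :=
  RBW μ q g c ν h τ Γ + XFW μ q g c ν h τ Γ +
    (RI0 μ q g c ν h τ Γ * RIW μ c ν h τ Γ + RJ0 μ q g c ν h τ Γ * RJW μ c ν h τ Γ) + b

/-- `P SRe/Γ` -/
noncomputable def XSe (μ q g c ν h τ Γ b : ℝ) : ℝ :=
  RBE μ q g c ν h τ Γ + (XF0 μ q g c ν h τ Γ + (RI0 μ q g c ν h τ Γ + RJ0 μ q g c ν h τ Γ)) / Γ + b

/-- the three inequalities at a point; `β` is the curvature of the window at `t = (1+τ) h` -/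
structure RunP (μ q k g c ν h τ Γ β b0 bW be f0 f1 f2 : ℝ) : Prop where
  i0 : RM0 μ q g c ν h τ Γ β + XS0 μ q g c ν h τ Γ b0 ≤ f0
  i1 : √((RM0 μ q g c ν h τ Γ β + XS0 μ q g c ν h τ Γ b0) *
      (RMW μ q k g c ν h τ Γ β +
        (√(XSW μ q g c ν h τ Γ bW) + k * τ * √(XS0 μ q g c ν h τ Γ b0)) ^ (2 : ℕ))) ≤ f1
  i2 : RMW μ q k g c ν h τ Γ β +
        (√(XSW μ q g c ν h τ Γ bW) + k * τ * √(XS0 μ q g c ν h τ Γ b0)) ^ (2 : ℕ) +
      (RMe μ q g c ν h τ Γ β + XSe μ q g c ν h τ Γ be) ≤ f2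

end SokamCel

end

/-! ### Lib_MP_af4de1_v3.CelRC -/

section
namespace SokamFN
end SokamFN
/-!
# Cells, right side: the CHECKER of one cell (helper15)

`chkR P C G s0 sW se F0 F1 F2`: `G` lower bound of `Γ`, `s0 sW se` constants of rest and far, `F0 F1 F2` targets.
The level constant `q` is replaced by `min q (1 + kk τ h c)`.
-/

set_option autoImplicit false

namespace SokamCel

open SokamFN

/-- `6/5`, lower bound -/
abbrev sxL : ℕ := 1319413953331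
/-- `6/5`, upper bound -/
abbrev sxU : ℕ := 1319413953332

/-- level constant of the cell: `min q (1 + kk τ h c)` -/
def lvP (P : Par) (C : Cl) : Par :=
  ⟨P.M, P.N, imn P.q (ia (SC, SC) (im P.k (im C.u (im C.h C.c)))), P.g, P.k⟩

/-- interval of `(1 - cos t)/t²` for `t ≤ 6/5` -/
def bP (C : Cl) : I := (bL (min C.t.2 sxU), bU C.t.1)

/-- interval of `bet t` -/
def bB (C : Cl) : I :=
  bif Nat.ble sxU C.t.1 then ic 11 25 else
    bif Nat.ble C.t.2 sxL then bP C else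
      (min (bP C).1 (ic 11 25).1, max (bP C).2 (ic 11 25).2)

/-- last step: `kt` upper bound of `kk τ` -/
def finR (kt m0 mW me o0 oW oe F0 F1 F2 : ℕ) : Bool :=
  let d := sqU oW + mU kt (sqU o0)
  let w := mW + mU d d
  Nat.ble (m0 + o0) F0 && Nat.ble (w + (me + oe)) F2 && Nat.ble (mU (m0 + o0) w) (mL F1 F1)

/-- the front, nothing for `6/5 ≤ t` -/
def xfR (P : Par) (C : Cl) (G : ℕ) : Option (ℕ × ℕ) :=
  bif Nat.ble sxU C.t.1 then some (0, 0) else xfr P C (bP C) G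

/-- THE CHECKER of one cell, right side -/
def chkR (P : Par) (C : Cl) (G s0 sW se F0 F1 F2 : ℕ) : Bool :=
  match xmR (lvP P C) C (bB C) G with
  | none => false
  | some (m0, mW, me) =>
    match xbr (lvP P C) C G with
    | none => false
    | some (b0, bW, be) =>
      match xfR (lvP P C) C G with
      | none => false
      | some (f0, fW) =>
        match xiR (lvP P C) C G with
        | none => false
        | some (i0, iW) =>
          finR (mU P.k.2 C.u.2) m0 mW me (b0 + f0 + i0 + s0) (bW + fW + iW + sW)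
            (be + mU (f0 + i0) (dU SC G) + se) F0 F1 F2

/-! ### the real sums -/

/-- front: `P I0` (half Gaussian), nothing for `6/5 ≤ t` -/
noncomputable def RFF (μ q g c ν h τ Γ : ℝ) : ℝ :=
  if (1 + τ) * h < 6 / 5 then RF0 μ q g c ν h τ Γ else 0

/-- front: `P IW R/h²` -/
noncomputable def RFV (μ q g c ν h τ Γ : ℝ) : ℝ :=
  if (1 + τ) * h < 6 / 5 then RF0 μ q g c ν h τ Γ * (RFW μ c ν τ Γ / c ^ (2 : ℕ)) else 0

/-- behind, front, image: `P I0` -/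
noncomputable def RO0 (μ q g c ν h τ Γ : ℝ) : ℝ :=
  RB0 μ q g c ν h τ Γ + RFF μ q g c ν h τ Γ + (RI0 μ q g c ν h τ Γ + RJ0 μ q g c ν h τ Γ)

/-- behind, front, image: `P IW R/h²` -/
noncomputable def ROW (μ q g c ν h τ Γ : ℝ) : ℝ :=
  RBW μ q g c ν h τ Γ + RFV μ q g c ν h τ Γ +
    (RI0 μ q g c ν h τ Γ * RIW μ c ν h τ Γ + RJ0 μ q g c ν h τ Γ * RJW μ c ν h τ Γ)

/-- behind, front, image: `P Ie/Γ` -/
noncomputable def ROe (μ q g c ν h τ Γ : ℝ) : ℝ :=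
  RBE μ q g c ν h τ Γ +
    (RFF μ q g c ν h τ Γ + (RI0 μ q g c ν h τ Γ + RJ0 μ q g c ν h τ Γ)) / Γ

/-! ### soundness -/

theorem sxL_le : fx sxL ≤ 6 / 5 := by unfold fx sxL; norm_num
theorem le_sxU : 6 / 5 < fx sxU := by unfold fx sxU; norm_num

theorem lvP_ok {P : Par} {μ q g kk c ν h τ : ℝ} (hP : P.Ok μ q g kk) {C : Cl}
    (hC : C.Has μ c ν h τ) : (lvP P C).Ok μ (min q (1 + kk * τ * (h * c))) g kk := by
  refine ⟨hP.hM, hP.hN, ?_, hP.hg, hP.hk, hP.pos, hP.le⟩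
  have h1 := Mem.one.add (hP.hk.mul (hC.hu.mul (hC.hh.mul hC.hc)))
  rw [← mul_assoc] at h1
  exact hP.hq.min h1

theorem hp_ok {a : ℕ} (h : a ≤ sxU) :
    (mU a a / 24 + 1 + (mU (mU (mU a a) (mU a a)) (mU a a) / 40320 + 1)) ≤
      549755813888 + mL (mU a a) (mU a a) / 720 := by
  have m1 : ∀ x y x' y' : ℕ, x ≤ x' → y ≤ y' → mU x y ≤ mU x' y' := by
    intro x y x' y' h1 h2
    unfold mU
    exact Nat.add_le_add_right (Nat.div_le_div_right (Nat.mul_le_mul h1 h2)) 1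
  have h1 : mU a a ≤ 1583296744000 := (m1 _ _ _ _ h h).trans (by decide)
  have h2 : mU (mU (mU a a) (mU a a)) (mU a a) ≤ 3283124128370 :=
    (m1 _ _ _ _ (m1 _ _ _ _ h1 h1) h1).trans (by decide)
  omega

theorem mem_bP {C : Cl} {θ : ℝ} (ht : Mem θ C.t) (h0 : 0 < θ) (h1 : θ ≤ 6 / 5) :
    Mem (bq θ) (bP C) := by
  refine ⟨bL_le h0 ?_ (hp_ok (min_le_right _ _)), le_bU h0 ht.1 (by nlinarith)⟩
  rcases le_total C.t.2 sxU with h | h
  · rw [min_eq_left h]; exact ht.2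
  · rw [min_eq_right h]; exact h1.trans le_sxU.le

theorem mem_bB {C : Cl} {θ : ℝ} (ht : Mem θ C.t) (h0 : 0 < θ) : Mem (SokamCen.bet θ) (bB C) := by
  have hc : Mem (11 / 25 : ℝ) (ic 11 25) := by
    have := Mem.const 11 25 (by norm_num)
    exact_mod_cast this
  unfold bB SokamCen.bet
  cases h1 : Nat.ble sxU C.t.1 with
  | true =>
    rw [Nat.ble_eq] at h1
    have h2 : 6 / 5 < θ := le_sxU.trans_le ((fx_mono h1).trans ht.1)
    rw [cond_true, if_neg (not_le.2 h2)]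
    exact hc
  | false =>
    rw [cond_false]
    cases h2 : Nat.ble C.t.2 sxL with
    | true =>
      rw [Nat.ble_eq] at h2
      have h3 : θ ≤ 6 / 5 := ht.2.trans ((fx_mono h2).trans sxL_le)
      rw [cond_true, if_pos h3]
      exact mem_bP ht h0 h3
    | false =>
      rw [cond_false]
      split_ifs with h3
      · have h4 := mem_bP ht h0 h3
        exact ⟨(fx_mono (min_le_left _ _)).trans h4.1, h4.2.trans (fx_mono (le_max_left _ _))⟩
      · exact ⟨(fx_mono (min_le_right _ _)).trans hc.1, hc.2.trans (fx_mono (le_max_right _ _))⟩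

theorem xfR_sound {P : Par} {μ q g kk c ν h τ Γ : ℝ} (hP : P.Ok μ q g kk) {C : Cl}
    (hC : C.Has μ c ν h τ) {G : ℕ} (hG : fx G ≤ Γ) (hc : 0 < c) (hν : 0 < ν) (hh : 0 < h)
    (hτ : 0 ≤ τ) {a a' : ℕ} (hx : xfR P C G = some (a, a')) :
    RFF μ q g c ν h τ Γ ≤ fx a ∧ RFV μ q g c ν h τ Γ ≤ fx a' := by
  unfold xfR at hx
  unfold RFF RFV
  cases h1 : Nat.ble sxU C.t.1 with
  | true =>
    rw [h1, cond_true] at hx
    rw [Nat.ble_eq] at h1
    have h2 : 6 / 5 < (1 + τ) * h := le_sxU.trans_le ((fx_mono h1).trans hC.ht.1)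
    rw [if_neg (not_lt.2 h2.le), if_neg (not_lt.2 h2.le)]
    exact ⟨fx_nonneg _, fx_nonneg _⟩
  | false =>
    rw [h1, cond_false] at hx
    split_ifs with h2
    · have h3 := xfr_sound hP hC (mem_bP hC.ht (by positivity) h2.le) hG hc hν hτ hx
      exact ⟨h3.1, h3.2.1⟩
    · exact ⟨fx_nonneg _, fx_nonneg _⟩

/-! ### nonnegativity of the main part -/

theorem RcA_pos {μ ν T : ℝ} (hμ : 1 ≤ μ) (hν : 0 ≤ ν) (hν1 : ν ≤ 1) (hT : 0 ≤ T) : 0 < Ra μ ν T := by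
  have h1 := sS_le hT
  have h2 : ν * sS (min 1 T) ≤ 23 / 16 := by
    have h3 : 0 ≤ sS (min 1 T) := by
      unfold sS
      have : 0 ≤ min 1 T := le_min one_pos.le hT
      positivity
    nlinarith
  unfold Ra
  have h3 : 0 < μ - ν * sS (min 1 T) / 2 := by linarith
  have h4 : 0 < max 1 T := lt_max_of_lt_left one_pos
  positivity

theorem RcM_nonneg {μ q kk g c ν h τ Γ β : ℝ} (hμ : 1 ≤ μ) (hk : 0 ≤ kk) (hc : 0 < c) (hν : 0 < ν)
    (hν1 : ν ≤ 1) (hh : 0 < h) (hτ : 0 ≤ τ) (hβ : 0 < β) (hΓ : 0 < Γ) :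
    0 ≤ RM0 μ q g c ν h τ Γ β ∧ 0 ≤ RMW μ q kk g c ν h τ Γ β := by
  have hμ0 : 0 < μ := by linarith
  obtain ⟨T, hT⟩ : ∃ T, T = (1 + τ) * h * c / μ := ⟨_, rfl⟩
  have hT0 : 0 < T := by rw [hT]; positivity
  have hA0 := RcA_pos hμ hν.le hν1 hT0.le
  have hR0 : 0 < RQ μ c ν T β := by unfold RQ; positivity
  have hX0 : 0 ≤ RX μ g c ν τ T β Γ := by unfold RX; exact (Real.exp_pos _).le
  have hV0 : 0 ≤ RV μ q c ν T β := by unfold RV; exact Real.sqrt_nonneg _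
  have hY0 : 0 ≤ RY μ g c ν τ T β Γ := by
    unfold RY Rk
    refine le_min (by linarith) ?_
    have := Real.pi_pos
    positivity
  have ho0 : 0 ≤ Ro μ c ν τ T β := by
    unfold Ro
    positivity
  have hm0 : 0 ≤ Rm1 μ c ν τ T β Γ := by
    unfold Rm1
    positivity
  constructor
  · unfold RM0
    rw [← hT]
    positivity
  · unfold RMW
    rw [← hT]
    refine mul_nonneg hV0 (le_min ?_ ?_)
    · unfold RF
      positivity
    · unfold RG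
      positivity

/-- last step -/
theorem finR_sound {kt m0 mW me o0 oW oe F0 F1 F2 : ℕ} {K M0 MW Me O0 OW Oe : ℝ}
    (h : finR kt m0 mW me o0 oW oe F0 F1 F2 = true) (hK : K ≤ fx kt) (hK0 : 0 ≤ K)
    (h1 : M0 ≤ fx m0) (h2 : MW ≤ fx mW) (h3 : Me ≤ fx me) (h4 : O0 ≤ fx o0) (h5 : OW ≤ fx oW)
    (h6 : Oe ≤ fx oe) (hW : 0 ≤ MW) :
    M0 + O0 ≤ fx F0 ∧ √((M0 + O0) * (MW + (√OW + K * √O0) ^ (2 : ℕ))) ≤ fx F1 ∧
      MW + (√OW + K * √O0) ^ (2 : ℕ) + (Me + Oe) ≤ fx F2 := by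
  unfold finR at h
  simp only [Bool.and_eq_true, Nat.ble_eq] at h
  obtain ⟨⟨g1, g2⟩, g3⟩ := h
  have d1 : √OW + K * √O0 ≤ fx (sqU oW + mU kt (sqU o0)) :=
    addU (sqrtU h5) (mulU hK (sqrtU h4) (Real.sqrt_nonneg _))
  have d0 : 0 ≤ √OW + K * √O0 := by positivity
  have w1 : MW + (√OW + K * √O0) ^ (2 : ℕ) ≤
      fx (mW + mU (sqU oW + mU kt (sqU o0)) (sqU oW + mU kt (sqU o0))) := by
    refine addU h2 ?_
    rw [pow_two]
    exact mulU d1 d1 d0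
  have a1 := addU h1 h4
  refine ⟨a1.trans (fx_mono g1), ?_, (addU w1 (addU h3 h6)).trans (fx_mono g2)⟩
  rw [Real.sqrt_le_left (fx_nonneg _)]
  refine (mulU a1 w1 (by positivity)).trans ((fx_mono g3).trans ?_)
  rw [pow_two]
  exact mL_le _ _

/-- THE CHECKER IS RIGHT. `S0 SW Se`: behind, front, image, rest and far. -/
theorem chkR_sound {P : Par} {μ q g kk c ν h τ Γ : ℝ} (hP : P.Ok μ q g kk) {C : Cl}
    (hC : C.Has μ c ν h τ) {G s0 sW se F0 F1 F2 : ℕ} (hG : fx G ≤ Γ) (hc : 0 < c) (hν : 0 < ν)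
    (hν1 : ν ≤ 1) (hh : 0 < h) (hτ : 0 ≤ τ) (htp : (1 + τ) * h ≤ Real.pi)
    (hx : chkR P C G s0 sW se F0 F1 F2 = true) {q' S0 SW Se : ℝ}
    (hq : q' = min q (1 + kk * τ * (h * c)))
    (h0 : S0 ≤ RO0 μ q' g c ν h τ Γ + fx s0) (hW : SW ≤ ROW μ q' g c ν h τ Γ + fx sW)
    (he : Se ≤ ROe μ q' g c ν h τ Γ + fx se) :
    RM0 μ q' g c ν h τ Γ (SokamCen.bet ((1 + τ) * h)) + S0 ≤ fx F0 ∧
    √((RM0 μ q' g c ν h τ Γ (SokamCen.bet ((1 + τ) * h)) + S0) *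
      (RMW μ q' kk g c ν h τ Γ (SokamCen.bet ((1 + τ) * h)) + (√SW + kk * τ * √S0) ^ (2 : ℕ))) ≤ fx F1 ∧
    RMW μ q' kk g c ν h τ Γ (SokamCen.bet ((1 + τ) * h)) + (√SW + kk * τ * √S0) ^ (2 : ℕ) +
      (RMe μ q' g c ν h τ Γ (SokamCen.bet ((1 + τ) * h)) + Se) ≤ fx F2 := by
  have hP' : (lvP P C).Ok μ q' g kk := by rw [hq]; exact lvP_ok hP hC
  have ht0 : 0 < (1 + τ) * h := by positivity
  have hB := mem_bB hC.ht ht0
  have hβ := (SokamCen.win_bet ht0).1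
  unfold chkR at hx
  cases e1 : xmR (lvP P C) C (bB C) G with
  | none => rw [e1] at hx; simp at hx
  | some m =>
    obtain ⟨m0, mW, me⟩ := m
    rw [e1] at hx
    cases e2 : xbr (lvP P C) C G with
    | none => simp [e2] at hx
    | some b =>
      obtain ⟨b0, bW, be⟩ := b
      rw [e2] at hx
      cases e3 : xfR (lvP P C) C G with
      | none => simp [e3] at hx
      | some f =>
        obtain ⟨f0, fW⟩ := f
        rw [e3] at hx
        cases e4 : xiR (lvP P C) C G with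
        | none => simp [e4] at hx
        | some i =>
          obtain ⟨i0, iW⟩ := i
          rw [e4] at hx
          simp only at hx
          obtain ⟨k1, k2, k3⟩ := xmR_sound hP' hC hB hG hc hν hν1 hh hτ e1
          obtain ⟨k4, k5, k6⟩ := xbr_sound hP' hC hG hc hν hh hτ hν1 e2
          obtain ⟨k7, k8⟩ := xfR_sound hP' hC hG hc hν hh hτ e3
          obtain ⟨k9, k10⟩ := xiR_sound hP' hC hG hc hν hh hτ hν1 htp e4
          have hG0 : 0 < G := by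
            unfold xmR at e1
            simp only at e1
            cases hok : okR (lvP P C) C (bB C) G with
            | false => rw [hok] at e1; simp at e1
            | true =>
              unfold okR at hok
              simp only [Bool.and_eq_true, blt_iff] at hok
              exact hok.2
          have hΓ : 0 < Γ := (fx_pos hG0).trans_le hG
          obtain ⟨_, n2⟩ := RcM_nonneg (q := q') (g := g) hP.le hP.hk.nonneg hc hν hν1 hh hτ hβ hΓ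
          have hRFF : 0 ≤ RFF μ q' g c ν h τ Γ := by
            unfold RFF RF0
            split_ifs
            · positivity
            · exact le_rfl
          have hRI : 0 ≤ RI0 μ q' g c ν h τ Γ + RJ0 μ q' g c ν h τ Γ := by
            unfold RI0 RJ0
            positivity
          refine finR_sound hx (mulU hP.hk.2 hC.hu.2 hτ) (mul_nonneg hP.hk.nonneg hτ) k1 k2 k3
            (h0.trans ?_) (hW.trans ?_) (he.trans ?_) n2
          · unfold RO0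
            exact addU (addU (addU k4 k7) k9) le_rfl
          · unfold ROW
            exact addU (addU (addU k5 k8) k10) le_rfl
          · unfold ROe
            refine addU (addU k6 ?_) le_rfl
            have h1 := mulU (addU k7 k9) (divU (le_of_eq fx_one.symm) hG hG0) (by positivity)
            refine le_trans (le_of_eq ?_) h1
            ring

end SokamCel

end

/-! ### Lib_MP_af4de1_v3.CelRC2 -/

section
namespace SokamFN
end SokamFN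
/-!
# Cells, right side: the checker gives `RunP` (helper15)
-/

set_option autoImplicit false

namespace SokamCel

open SokamFN

/-- THE CHECKER GIVES THE THREE INEQUALITIES, `q' = min q (1 + kk τ h c)`. -/
theorem chkR_run {P : Par} {μ q g kk c ν h τ Γ : ℝ} (hP : P.Ok μ q g kk) {C : Cl}
    (hC : C.Has μ c ν h τ) {G s0 sW se F0 F1 F2 : ℕ} (hG : fx G ≤ Γ) (hc : 0 < c) (hν : 0 < ν)
    (hν1 : ν ≤ 1) (hh : 0 < h) (hτ : 0 ≤ τ) (htp : (1 + τ) * h ≤ Real.pi)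
    (hx : chkR P C G s0 sW se F0 F1 F2 = true) {b0 bW be f0 f1 f2 : ℝ}
    (h0 : b0 ≤ fx s0) (hW : bW ≤ fx sW) (he : be ≤ fx se)
    (g0 : fx F0 ≤ f0) (g1 : fx F1 ≤ f1) (g2 : fx F2 ≤ f2) :
    RunP μ (min q (1 + kk * τ * (h * c))) kk g c ν h τ Γ (SokamCen.bet ((1 + τ) * h))
      b0 bW be f0 f1 f2 := by
  obtain ⟨q', hq⟩ : ∃ q', q' = min q (1 + kk * τ * (h * c)) := ⟨_, rfl⟩
  rw [← hq]
  have k := chkR_sound hP hC hG hc hν hν1 hh hτ htp hx hq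
    (S0 := XS0 μ q' g c ν h τ Γ b0) (SW := XSW μ q' g c ν h τ Γ bW)
    (Se := XSe μ q' g c ν h τ Γ be)
    (by unfold XS0 RO0 XF0 RFF; linarith)
    (by unfold XSW ROW XFW RFV; linarith)
    (by unfold XSe ROe XF0 RFF; linarith)
  exact ⟨k.1.trans g0, k.2.1.trans g1, k.2.2.trans g2⟩

end SokamCel

end

/-! ### Lib_MP_af4de1_v3.CelRun -/

section
namespace SokamFN
end SokamFN
namespace SokamV3
end SokamV3
/-!
# Cells, right side: the run over a box, both charts (helper10)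
-/

set_option autoImplicit false

namespace SokamCel

open SokamFN SokamV3

/-- data of a run: constants, lower bound `G0` of `Γ`, upper bound `H` of `(h c)²`, constants of rest and far, targets -/
structure RnD where
  P : Par
  G0 : ℕ
  H : ℕ
  s0 : ℕ
  sW : ℕ
  se : ℕ
  F0 : ℕ
  F1 : ℕ
  F2 : ℕ

/-- lower bound of `499/10` -/
abbrev g49 : ℕ := 54865630226022
/-- upper bound of `π` -/
abbrev piU : ℕ := 3454225729822

theorem g49_le : fx g49 ≤ 499 / 10 := by unfold fx g49; norm_num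

theorem pi_le_piU : Real.pi ≤ fx piU := by
  have h := Real.pi_lt_d4
  unfold fx piU
  norm_num at h ⊢
  linarith

/-- the test of a cell: outside the domain, or the checker -/
def celR (K : RnD) (c n h u : I) : Bool :=
  Nat.blt K.H (mL (mL h.1 c.1) (mL h.1 c.1)) || (Nat.blt piU (mL (SC + u.1) h.1) ||
    chkR K.P (mk K.P c n h u) (max K.G0 (mL g49 (mL (mL h.1 c.1) (mL h.1 c.1)))) K.s0 K.sW K.se K.F0 K.F1 K.F2)

/-- chart `c` -/
def okC (K : RnD) (c0 c1 h0 h1 u0 u1 : ℕ) : Bool := celR K (c0, c1) (ico (c0, c1)) (h0, h1) (u0, u1)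

/-- chart `ν` -/
def okN (K : RnD) (n0 n1 h0 h1 u0 u1 : ℕ) : Bool := celR K (ico (n0, n1)) (n0, n1) (h0, h1) (u0, u1)

/-- the domain of a run -/
structure DmR (K : RnD) (c ν h τ Γ : ℝ) : Prop where
  c0 : 0 < c
  n0 : 0 < ν
  n1 : ν ≤ 1
  cn : c ^ (2 : ℕ) + ν ^ (2 : ℕ) = 1
  h0 : 0 < h
  u0 : 0 ≤ τ
  tp : (1 + τ) * h ≤ Real.pi
  H : (h * c) ^ (2 : ℕ) ≤ fx K.H
  G0 : fx K.G0 ≤ Γ
  G1 : 499 / 10 * (h * c) ^ (2 : ℕ) ≤ Γ

/-- constants and targets of the statement against those of the run -/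
structure RnD.Le (K : RnD) (b0 bW be f0 f1 f2 : ℝ) : Prop where
  b0 : b0 ≤ fx K.s0
  bW : bW ≤ fx K.sW
  be : be ≤ fx K.se
  f0 : fx K.F0 ≤ f0
  f1 : fx K.F1 ≤ f1
  f2 : fx K.F2 ≤ f2

theorem celR_sound {K : RnD} {μ q g kk c ν h τ Γ b0 bW be f0 f1 f2 : ℝ} (hP : K.P.Ok μ q g kk)
    (L : K.Le b0 bW be f0 f1 f2) (D : DmR K c ν h τ Γ)
    {ci ni hi ui : I} (hc : Mem c ci) (hn : Mem ν ni) (hh : Mem h hi) (hu : Mem τ ui)
    (hx : celR K ci ni hi ui = true) :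
    RunP μ (min q (1 + kk * τ * (h * c))) kk g c ν h τ Γ (SokamCen.bet ((1 + τ) * h)) b0 bW be f0 f1 f2 := by
  have hm : fx (mL (mL hi.1 ci.1) (mL hi.1 ci.1)) ≤ (h * c) ^ (2 : ℕ) := by
    have h1 := mulL hh.1 hc.1
    have h2 := mulL h1 h1
    rwa [← pow_two] at h2
  unfold celR at hx
  rw [Bool.or_eq_true, Bool.or_eq_true, blt_iff, blt_iff] at hx
  rcases hx with h1 | h1 | h1
  · exfalso
    have h2 : fx K.H < fx (mL (mL hi.1 ci.1) (mL hi.1 ci.1)) := by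
      unfold fx
      have : (K.H : ℝ) < (mL (mL hi.1 ci.1) (mL hi.1 ci.1) : ℕ) := by exact_mod_cast h1
      gcongr
    linarith [D.H]
  · exfalso
    have h2 : fx piU < fx (mL (SC + ui.1) hi.1) := by
      unfold fx
      have : (piU : ℝ) < (mL (SC + ui.1) hi.1 : ℕ) := by exact_mod_cast h1
      gcongr
    have h3 : fx (SC + ui.1) ≤ 1 + τ := by
      rw [fx_add, fx_one]
      linarith [hu.1]
    have h4 := mulL h3 hh.1
    linarith [D.tp, pi_le_piU]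
  · have hC := mk_has hP hc hn hh hu D.n1
    have hG : fx (max K.G0 (mL g49 (mL (mL hi.1 ci.1) (mL hi.1 ci.1)))) ≤ Γ := by
      rcases max_choice K.G0 (mL g49 (mL (mL hi.1 ci.1) (mL hi.1 ci.1))) with e | e
      · rw [e]; exact D.G0
      · rw [e]; exact (mulL g49_le hm).trans D.G1
    exact chkR_run hP hC hG D.c0 D.n0 D.n1 D.h0 D.u0 D.tp h1 L.b0 L.bW L.be L.f0 L.f1 L.f2

/-- boxes side by side in the first variable -/
def ChB (ok : ℕ → ℕ → ℕ → ℕ → ℕ → ℕ → Bool) (wx wy wz n y0 y1 z0 z1 : ℕ) : ℕ → List ℕ → Prop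
  | _, [] => True
  | a, b :: t => bis ok wx wy wz n a b y0 y1 z0 z1 = true ∧ ChB ok wx wy wz n y0 y1 z0 z1 b t

theorem ChB.sound {P : ℝ → ℝ → ℝ → Prop} {ok : ℕ → ℕ → ℕ → ℕ → ℕ → ℕ → Bool}
    (hok : ∀ x0 x1 y0 y1 z0 z1, ok x0 x1 y0 y1 z0 z1 = true → ∀ x y z : ℝ, fx x0 ≤ x → x ≤ fx x1 →
      fx y0 ≤ y → y ≤ fx y1 → fx z0 ≤ z → z ≤ fx z1 → P x y z) {wx wy wz n y0 y1 z0 z1 : ℕ} :
    ∀ (l : List ℕ) (a : ℕ), ChB ok wx wy wz n y0 y1 z0 z1 a l → ∀ x y z : ℝ, fx a ≤ x →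
      x ≤ fx (l.getLastD a) → fx y0 ≤ y → y ≤ fx y1 → fx z0 ≤ z → z ≤ fx z1 → x ≠ fx a → P x y z := by
  intro l
  induction l with
  | nil =>
    intro a _ x y z h1 h2 _ _ _ _ hne
    exact absurd (le_antisymm h2 h1) hne
  | cons b t ih =>
    intro a h x y z h1 h2 h3 h4 h5 h6 hne
    rcases le_or_gt x (fx b) with hb | hb
    · exact bis_sound hok wx wy wz n _ _ _ _ _ _ h.1 x y z h1 hb h3 h4 h5 h6
    · refine ih b h.2 x y z hb.le ?_ h3 h4 h5 h6 hb.ne'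
      rwa [List.getLastD_cons] at h2

/-- what one cell of chart `c` gives -/
def PtC (K : RnD) (μ q g kk b0 bW be f0 f1 f2 c h τ : ℝ) : Prop :=
  ∀ ν Γ : ℝ, DmR K c ν h τ Γ →
    RunP μ (min q (1 + kk * τ * (h * c))) kk g c ν h τ Γ (SokamCen.bet ((1 + τ) * h)) b0 bW be f0 f1 f2

/-- what one cell of chart `ν` gives -/
def PtN (K : RnD) (μ q g kk b0 bW be f0 f1 f2 ν h τ : ℝ) : Prop :=
  ∀ c Γ : ℝ, DmR K c ν h τ Γ →
    RunP μ (min q (1 + kk * τ * (h * c))) kk g c ν h τ Γ (SokamCen.bet ((1 + τ) * h)) b0 bW be f0 f1 f2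

theorem okC_sound {K : RnD} {μ q g kk b0 bW be f0 f1 f2 : ℝ} (hP : K.P.Ok μ q g kk)
    (L : K.Le b0 bW be f0 f1 f2) (x0 x1 y0 y1 z0 z1 : ℕ) (hx : okC K x0 x1 y0 y1 z0 z1 = true) (x y z : ℝ)
    (a1 : fx x0 ≤ x) (a2 : x ≤ fx x1) (a3 : fx y0 ≤ y) (a4 : y ≤ fx y1) (a5 : fx z0 ≤ z) (a6 : z ≤ fx z1) :
    PtC K μ q g kk b0 bW be f0 f1 f2 x y z := fun _ _ D =>
  celR_sound hP L D ⟨a1, a2⟩ (Mem.co ⟨a1, a2⟩ D.cn D.n0.le) ⟨a3, a4⟩ ⟨a5, a6⟩ hx

theorem okN_sound {K : RnD} {μ q g kk b0 bW be f0 f1 f2 : ℝ} (hP : K.P.Ok μ q g kk)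
    (L : K.Le b0 bW be f0 f1 f2) (x0 x1 y0 y1 z0 z1 : ℕ) (hx : okN K x0 x1 y0 y1 z0 z1 = true) (x y z : ℝ)
    (a1 : fx x0 ≤ x) (a2 : x ≤ fx x1) (a3 : fx y0 ≤ y) (a4 : y ≤ fx y1) (a5 : fx z0 ≤ z) (a6 : z ≤ fx z1) :
    PtN K μ q g kk b0 bW be f0 f1 f2 x y z := fun _ _ D =>
  celR_sound hP L D (Mem.co ⟨a1, a2⟩ (by linarith [D.cn]) D.c0.le) ⟨a1, a2⟩ ⟨a3, a4⟩ ⟨a5, a6⟩ hx

/-- **The run from the two charts**, any certificates: chart `c` up to `7/10`, chart `ν` up to `18/25`. -/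
theorem run_of {K : RnD} {μ q g kk b0 bW be f0 f1 f2 t0 t1 : ℝ}
    (hC : ∀ c h τ : ℝ, 0 < c → c ≤ 7 / 10 → 0 < h → h ≤ 2 * Real.pi / 3 → t0 ≤ τ → τ ≤ t1 →
      PtC K μ q g kk b0 bW be f0 f1 f2 c h τ)
    (hN : ∀ ν h τ : ℝ, 0 < ν → ν ≤ 18 / 25 → 0 < h → h ≤ 2 * Real.pi / 3 → t0 ≤ τ → τ ≤ t1 →
      PtN K μ q g kk b0 bW be f0 f1 f2 ν h τ)
    {c ν h τ Γ : ℝ} (D : DmR K c ν h τ Γ) (hh : h ≤ 2 * Real.pi / 3) (h0 : t0 ≤ τ) (h1 : τ ≤ t1) :
    RunP μ (min q (1 + kk * τ * (h * c))) kk g c ν h τ Γ (SokamCen.bet ((1 + τ) * h)) b0 bW be f0 f1 f2 := by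
  rcases chart D.cn with h2 | h2
  · exact hC c h τ D.c0 h2 D.h0 hh h0 h1 ν Γ D
  · exact hN ν h τ D.n0 h2 D.h0 hh h0 h1 c Γ D

/-- **The run.** Chart `c` up to `7/10`, chart `ν` up to `18/25`. -/
theorem run_sound {K : RnD} {μ q g kk : ℝ} (hP : K.P.Ok μ q g kk) {wx wy wz n wx' wy' wz' n' y1 z0 z1 : ℕ}
    {lc ln : List ℕ} (hC : ChB (okC K) wx wy wz n 0 y1 z0 z1 0 lc) (hN : ChB (okN K) wx' wy' wz' n' 0 y1 z0 z1 0 ln)
    (ec : 7 / 10 ≤ fx (lc.getLastD 0)) (en : 18 / 25 ≤ fx (ln.getLastD 0)) (ey : 2 * Real.pi / 3 ≤ fx y1)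
    {b0 bW be f0 f1 f2 : ℝ} (L : K.Le b0 bW be f0 f1 f2)
    {c ν h τ Γ : ℝ} (D : DmR K c ν h τ Γ) (hh : h ≤ 2 * Real.pi / 3) (h0 : fx z0 ≤ τ) (h1 : τ ≤ fx z1) :
    RunP μ (min q (1 + kk * τ * (h * c))) kk g c ν h τ Γ (SokamCen.bet ((1 + τ) * h)) b0 bW be f0 f1 f2 := by
  refine run_of (t0 := fx z0) (t1 := fx z1) ?_ ?_ D hh h0 h1
  · intro c h τ a1 a2 a3 a4 a5 a6
    exact ChB.sound (okC_sound hP L) lc 0 hC c h τ (by rw [fx_zero]; exact a1.le) (a2.trans ec)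
      (by rw [fx_zero]; exact a3.le) (a4.trans ey) a5 a6 (by rw [fx_zero]; exact a1.ne')
  · intro ν h τ a1 a2 a3 a4 a5 a6
    exact ChB.sound (okN_sound hP L) ln 0 hN ν h τ (by rw [fx_zero]; exact a1.le) (a2.trans en)
      (by rw [fx_zero]; exact a3.le) (a4.trans ey) a5 a6 (by rw [fx_zero]; exact a1.ne')

/-- from the scaled variables of regime I -/
theorem Scl.dmR {N : ℕ} {r δ η c ν h τ Γ : ℝ} (s : Scl N r δ η c ν h τ Γ) {K : RnD}
    (tp : (1 + τ) * h ≤ Real.pi) (H : (h * c) ^ (2 : ℕ) ≤ fx K.H) (G0 : fx K.G0 ≤ Γ) : DmR K c ν h τ Γ :=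
  ⟨s.c0, s.n0, s.n1.le, s.cn, s.h0, s.u0, tp, H, G0, s.G1⟩

end SokamCel

end

/-! ### Lib_MP_af4de1_v3.RunRcB0 -/

section
/-!
# Run `c`, class `10 ≤ Γ < 20`, right: data (helper4)
-/

set_option autoImplicit false

namespace SokamCel

/-- data of the run -/
def KcB : RnD where
  P := ⟨(1374389534720, 1374389534721), (879609302220, 879609302221),
    (1561306511441, 1561306511442), (714682558054, 714682558055), (1429365116108, 1429365116109)⟩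
  G0 := 10995116277760
  H := 440686023157
  s0 := 4398047
  sW := 233938645
  se := 1570732
  F0 := 10995116277
  F1 := 10995116277
  F2 := 10995116277

end SokamCel

end

/-! ### Lib_MP_af4de1_v3.RunRcBn -/

section
/-!
# Kernel run, field `c`, right, class B, chart `ν` (helper4)
-/

set_option autoImplicit false

namespace SokamCel

def rcBn1t : BT := (.Y (.Y (.X (.Z (.Z (.Z .L .L) (.X .L .L)) (.Z .L .L)) (.X (.Z (.Z (.Z .L .L)
  (.X .L .L)) (.Z .L .L)) (.Z (.Z (.Z (.X .L .L) .L) (.X .L .L)) (.X (.Z .L .L) (.Z .L .L))))) (.Y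
  (.Y (.X (.Z .L .L) (.Z (.X .L (.Z .L .L)) (.Z .L .L))) (.Z .L .L)) .L)) .L)
theorem rcBn1 : bisT (okN KcB) rcBn1t 0 395824185999 0 2303000000000 384829069721 714682558055 = true := by
  decide +kernel

def rcBn5t : BT := (.X (.Y (.X (.Z (.X .L .L) .L) (.Z (.X .L .L) .L)) (.Y (.Y (.X (.Z .L .L) (.Z
  .L .L)) .L) .L)) (.Y (.X (.Z (.X .L .L) .L) (.Z (.X .L .L) .L)) (.Y (.Y (.X (.Y (.Z (.X .L .L)
  .L) .L) (.Y (.Z (.Z .L .L) (.X .L .L)) .L)) .L) .L)))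
theorem rcBn5 : bisT (okN KcB) rcBn5t 395824185999 593736278999 0 1151500000000 384829069721 549755813888 = true := by
  decide +kernel

def rcBn6t : BT := (.X (.Y (.X (.Z (.X .L .L) .L) (.Z (.X .L .L) .L)) (.Y (.Y (.X (.Z (.Y (.X .L
  .L) .L) (.Z .L .L)) (.Z (.Z (.X .L .L) .L) (.Z .L .L))) (.Z .L .L)) .L)) (.Y (.X (.Z (.X .L .L)
  .L) (.Z .L .L)) (.Y (.Y (.X (.Z (.Z (.X .L .L) .L) (.X .L .L)) (.Z (.Z .L .L) (.X .L .L))) (.X
  (.Z .L .L) (.X (.Z .L .L) (.Y (.Z .L .L) .L)))) (.Y .L .L))))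
theorem rcBn6 : bisT (okN KcB) rcBn6t 593736278999 791648371999 0 1151500000000 384829069721 549755813888 = true := by
  decide +kernel

def rcBn4t : BT := BT.X rcBn5t rcBn6t
theorem rcBn4 : bisT (okN KcB) rcBn4t 395824185999 791648371999 0 1151500000000 384829069721 549755813888 = true :=
  bisT_X 593736278999 rcBn5 rcBn6 rfl

def rcBn7t : BT := (.X (.Y (.X (.X (.Z .L .L) (.Z .L .L)) (.X (.Z .L .L) (.Z .L .L))) (.Y (.X (.Y
  (.Y (.Z .L .L) .L) .L) (.Y (.X (.Y (.Z .L .L) .L) (.Y (.Z (.X .L .L) .L) .L)) .L)) .L)) (.X (.Y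
  (.X (.Z .L .L) (.Z .L .L)) (.Y (.X (.Y (.Z (.Z .L .L) (.X .L .L)) .L) (.Y (.X (.Z .L .L) (.Z .L
  .L)) .L)) .L)) (.X (.Y (.Z .L .L) (.Y (.Y (.X (.Z .L .L) (.Z .L .L)) (.Z .L .L)) .L)) (.Y (.Z .L
  .L) (.Y (.X (.Y (.Z .L .L) (.Z .L .L)) (.Z (.Z .L .L) (.X .L .L))) .L)))))
theorem rcBn7 : bisT (okN KcB) rcBn7t 395824185999 791648371999 0 1151500000000 549755813888 714682558055 = true := by
  decide +kernel

def rcBn3t : BT := BT.Z rcBn4t rcBn7t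
theorem rcBn3 : bisT (okN KcB) rcBn3t 395824185999 791648371999 0 1151500000000 384829069721 714682558055 = true :=
  bisT_Z 549755813888 rcBn4 rcBn7 rfl

def rcBn8t : BT := BT.L
theorem rcBn8 : bisT (okN KcB) rcBn8t 395824185999 791648371999 1151500000000 2303000000000 384829069721 714682558055 = true := by
  decide +kernel

def rcBn2t : BT := BT.Y rcBn3t rcBn8t
theorem rcBn2 : bisT (okN KcB) rcBn2t 395824185999 791648371999 0 2303000000000 384829069721 714682558055 = true :=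
  bisT_Y 1151500000000 rcBn3 rcBn8 rfl

def rcBn0t : BT := BT.X rcBn1t rcBn2t
theorem rcBn0 : bisT (okN KcB) rcBn0t 0 791648371999 0 2303000000000 384829069721 714682558055 = true :=
  bisT_X 395824185999 rcBn1 rcBn2 rfl

theorem rcBn : bisT (okN KcB) rcBn0t 0 791648371999 0 2303000000000 384829069721 714682558055 = true := rcBn0

end SokamCel

end
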