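import Pool.Agent.Lib_MP_af4de1_zy.Z93
import Pool.Agent.Lib_MP_af4de1_zy.Z94
import Pool.Agent.Lib_MP_af4de1_zy.Z95

/-! ### Lib_MP_af4de1_v3.CenPy -/

section
namespace SokamF1
end SokamF1
namespace SokamF1M
end SokamF1M
namespace SokamF1S
end SokamF1S
namespace SokamU
end SokamU
namespace SokamV3
end SokamV3
/-!
# Pythagoras for the weights of the main zone (both sides)

`|u - w|² ≤ |w| |u - 1|² + |u| |w - 1|²` if `(|u| - 1)(|w| - 1) ≥ 0` and `Im u Im w ≥ 0`.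
-/

set_option autoImplicit false

namespace SokamCen

open Complex MeasureTheory Set SokamU SokamF1 SokamF1S SokamF1M SokamV3

/-- Pythagoras -/
theorem pyth {u w : ℂ} (h : 0 ≤ (‖u‖ - 1) * (‖w‖ - 1)) (him : 0 ≤ u.im * w.im) :
    ‖u - w‖ ^ (2 : ℕ) ≤ ‖w‖ * ‖u - 1‖ ^ (2 : ℕ) + ‖u‖ * ‖w - 1‖ ^ (2 : ℕ) := by
  have hu := norm_nonneg u
  have hw := norm_nonneg w
  have e0 : ∀ z : ℂ, ‖z‖ ^ (2 : ℕ) = z.re ^ (2 : ℕ) + z.im ^ (2 : ℕ) := fun z => by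
    rw [← Complex.normSq_eq_norm_sq, Complex.normSq_apply]
    ring
  have hur : u.re ≤ ‖u‖ := Complex.re_le_norm u
  have hwr : w.re ≤ ‖w‖ := Complex.re_le_norm w
  have eu := e0 u
  have ew := e0 w
  have e1 := e0 (u - w)
  have e2 := e0 (u - 1)
  have e3 := e0 (w - 1)
  simp only [Complex.sub_re, Complex.sub_im, Complex.one_re, Complex.one_im, sub_zero] at e1 e2 e3
  rw [e1, e2, e3]
  set p := ‖u‖ with hp
  set q := ‖w‖ with hq
  have f1 : (u.re - 1) ^ (2 : ℕ) + u.im ^ (2 : ℕ) = p ^ (2 : ℕ) - 2 * u.re + 1 := by rw [eu]; ring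
  have f2 : (w.re - 1) ^ (2 : ℕ) + w.im ^ (2 : ℕ) = q ^ (2 : ℕ) - 2 * w.re + 1 := by rw [ew]; ring
  have f3 : (u.re - w.re) ^ (2 : ℕ) + (u.im - w.im) ^ (2 : ℕ) =
      p ^ (2 : ℕ) + q ^ (2 : ℕ) - 2 * (u.re * w.re + u.im * w.im) := by rw [eu, ew]; ring
  rw [f1, f2, f3]
  have h1 : 0 ≤ (p - u.re) * (q - w.re) := mul_nonneg (by linarith only [hur]) (by linarith only [hwr])
  have h2 : 0 ≤ (p - 1) * (q - 1) * (p + q) := mul_nonneg h (by linarith only [hu, hw])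
  linarith only [him, h1, h2]

theorem Wm_pyth {m θ s : ℝ} {w : ℂ} (h : 0 ≤ (‖em m θ s‖ - 1) * (‖w‖ - 1))
    (him : 0 ≤ (em m θ s).im * w.im) :
    Wm m θ w s ≤ ‖w‖ * Wm m θ 1 s + ‖em m θ s‖ * ‖w - 1‖ ^ (2 : ℕ) := pyth h him

theorem em_im (m θ s : ℝ) : (em m θ s).im = Real.exp (pm m s) * Real.sin (θ + s) := by
  have e : ((pm m s : ℝ) : ℂ) + ((θ : ℂ) + (s : ℂ)) * I =
      ((pm m s : ℝ) : ℂ) + ((θ + s : ℝ) : ℂ) * I := by push_cast; ring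
  unfold em
  rw [e, Complex.exp_im]
  simp

theorem norm_w {ρ y : ℝ} (h : Dom ρ y) : ‖sK ρ y / (ρ : ℂ)‖ = Real.exp (-y) := by
  have hρ : 0 < ρ := h.1
  rw [norm_div, norm_sK h, Complex.norm_real, Real.norm_of_nonneg hρ.le]
  field_simp

theorem im_w (ρ y : ℝ) : (sK ρ y / (ρ : ℂ)).im = y / ρ := by
  unfold sK
  rw [Complex.div_ofReal_im]
  simp

/-- `|w - 1| ≤ κ = k |η|/√R` -/
theorem norm_w_sub {r δ y η g k q : ℝ} (hr : 0 < r) (hL : Lev r δ y η g k q) :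
    ‖sK (r * δ) y / (r * δ : ℝ) - 1‖ ≤ k * (|η| / √(RR r δ)) := by
  have h := hL.l1
  rw [kap_eq hr] at h
  have e : (r : ℂ) * (sK (r * δ) y / (r * δ : ℝ)) - r = r * (sK (r * δ) y / (r * δ : ℝ) - 1) := by
    ring
  rw [e, norm_mul, Complex.norm_real, Real.norm_of_nonneg hr.le] at h
  have e2 : k * (r * |η| / √(RR r δ)) = r * (k * (|η| / √(RR r δ))) := by ring
  rw [e2] at h
  exact le_of_mul_le_mul_left h hr

/-- RIGHT main zone. -/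
theorem Zone.pyth_R {r δ y η g k q m t T I0 IW Ie : ℝ} {S : Set ℝ} (hS : MeasurableSet S)
    (hr : 0 < r) (hm : 0 < m) (hA : At r δ y η) (hy : y ≤ 0) (hL : Lev r δ y η g k q)
    (h0 : 0 ≤ I0) (h1 : 0 ≤ IW)
    (hs0 : ∀ s ∈ S, 0 ≤ s) (hs1 : ∀ s ∈ S, s ≤ t) (hs2 : ∀ s ∈ S, t - s ≤ Real.pi)
    (hs3 : ∀ s ∈ S, pm m s ≤ T)
    (Z : Zone r m (r * δ) (-t) 1 S I0 IW Ie) :
    Zone r m (r * δ) (-t) (sK (r * δ) y / (r * δ : ℝ)) S I0
      ((1 + k * (|η| / √(RR r δ))) * IW + Real.exp T * (k * (|η| / √(RR r δ))) ^ (2 : ℕ) * I0) Ie := by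
  have hw1 := norm_w_sub hr hL
  have hκ : 0 ≤ k * (|η| / √(RR r δ)) := (norm_nonneg _).trans hw1
  have hρ : 0 < r * δ := hA.dom.1
  refine Zone.pyth hS Z h0 h1 (by linarith only [hκ]) (by (clear * -; positivity)) fun s hs => ?_
  have ha : 0 ≤ pm m s := by
    unfold pm
    exact le_max_of_le_right (le_min one_pos.le (div_nonneg (hs0 s hs) hm.le))
  have hu : ‖em m (-t) s‖ = Real.exp (pm m s) := norm_em m (-t) s
  have hu1 : 1 ≤ ‖em m (-t) s‖ := by rw [hu]; exact Real.one_le_exp ha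
  have hw := norm_w hA.dom
  have hw2 : 1 ≤ ‖sK (r * δ) y / ((r * δ : ℝ) : ℂ)‖ := by
    rw [hw]
    exact Real.one_le_exp (by linarith only [hy])
  have him1 : (em m (-t) s).im ≤ 0 := by
    rw [em_im]
    have h2 : Real.sin (-t + s) = -Real.sin (t - s) := by
      rw [← Real.sin_neg]
      ring_nf
    have h3 : 0 ≤ Real.sin (t - s) :=
      Real.sin_nonneg_of_nonneg_of_le_pi (by linarith only [hs1 s hs]) (hs2 s hs)
    rw [h2]
    have := Real.exp_pos (pm m s)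
    nlinarith only [h3, this]
  have him2 : (sK (r * δ) y / ((r * δ : ℝ) : ℂ)).im ≤ 0 := by
    rw [im_w]
    exact div_nonpos_of_nonpos_of_nonneg hy hρ.le
  have hp := Wm_pyth (m := m) (θ := -t) (s := s) (w := sK (r * δ) y / ((r * δ : ℝ) : ℂ))
    (mul_nonneg (by linarith only [hu1]) (by linarith only [hw2])) (mul_nonneg_of_nonpos_of_nonpos him1 him2)
  refine hp.trans (add_le_add ?_ ?_)
  · refine mul_le_mul_of_nonneg_right ?_ (Wm_nonneg _ _ _ _)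
    have h4 : ‖sK (r * δ) y / ((r * δ : ℝ) : ℂ)‖ ≤
        ‖sK (r * δ) y / ((r * δ : ℝ) : ℂ) - 1‖ + ‖(1 : ℂ)‖ := by
      have := norm_add_le (sK (r * δ) y / ((r * δ : ℝ) : ℂ) - 1) 1
      rwa [sub_add_cancel] at this
    rw [norm_one] at h4
    linarith only [hw1, h4]
  · rw [hu]
    have h5 : Real.exp (pm m s) ≤ Real.exp T := Real.exp_le_exp.2 (hs3 s hs)
    have h6 := pow_le_pow_left₀ (norm_nonneg _) hw1 2
    exact mul_le_mul h5 h6 (by (clear * -; positivity)) (Real.exp_pos _).le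

/-- LEFT main zone. -/
theorem Zone.pyth_L {r δ y η g k q m t I0 IW Ie : ℝ} {S : Set ℝ} (hS : MeasurableSet S)
    (hr : 0 < r) (hm : 0 < m) (hA : At r δ y η) (hy : 0 ≤ y) (hL : Lev r δ y η g k q)
    (h0 : 0 ≤ I0) (h1 : 0 ≤ IW)
    (hs0 : ∀ s ∈ S, s ≤ 0) (hs1 : ∀ s ∈ S, -t ≤ s) (hs2 : ∀ s ∈ S, t + s ≤ Real.pi)
    (Z : Zone r m (r * δ) t 1 S I0 IW Ie) :
    Zone r m (r * δ) t (sK (r * δ) y / (r * δ : ℝ)) S I0
      (1 * IW + (k * (|η| / √(RR r δ))) ^ (2 : ℕ) * I0) Ie := by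
  have hw1 := norm_w_sub hr hL
  have hκ : 0 ≤ k * (|η| / √(RR r δ)) := (norm_nonneg _).trans hw1
  have hρ : 0 < r * δ := hA.dom.1
  refine Zone.pyth hS Z h0 h1 (by linarith only []) (by (clear * -; positivity)) fun s hs => ?_
  have ha : pm m s ≤ 0 := by
    unfold pm
    exact max_le (by norm_num)
      ((min_le_right _ _).trans (div_nonpos_of_nonpos_of_nonneg (hs0 s hs) hm.le))
  have hu : ‖em m t s‖ = Real.exp (pm m s) := norm_em m t s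
  have hu1 : ‖em m t s‖ ≤ 1 := by rw [hu]; exact Real.exp_le_one_iff.2 ha
  have hw := norm_w hA.dom
  have hw2 : ‖sK (r * δ) y / ((r * δ : ℝ) : ℂ)‖ ≤ 1 := by
    rw [hw]
    exact Real.exp_le_one_iff.2 (by linarith only [hy])
  have him1 : 0 ≤ (em m t s).im := by
    rw [em_im]
    exact mul_nonneg (Real.exp_pos _).le
      (Real.sin_nonneg_of_nonneg_of_le_pi (by linarith only [hs1 s hs]) (hs2 s hs))
  have him2 : 0 ≤ (sK (r * δ) y / ((r * δ : ℝ) : ℂ)).im := by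
    rw [im_w]
    exact div_nonneg hy hρ.le
  have hp := Wm_pyth (m := m) (θ := t) (s := s) (w := sK (r * δ) y / ((r * δ : ℝ) : ℂ))
    (mul_nonneg_of_nonpos_of_nonpos (by linarith only [hu1]) (by linarith only [hw2])) (mul_nonneg him1 him2)
  refine hp.trans (add_le_add ?_ ?_)
  · exact mul_le_mul_of_nonneg_right hw2 (Wm_nonneg _ _ _ _)
  · have h6 := pow_le_pow_left₀ (norm_nonneg _) hw1 2
    have h7 : ‖em m t s‖ * ‖sK (r * δ) y / ((r * δ : ℝ) : ℂ) - 1‖ ^ (2 : ℕ) ≤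
        1 * ‖sK (r * δ) y / ((r * δ : ℝ) : ℂ) - 1‖ ^ (2 : ℕ) :=
      mul_le_mul_of_nonneg_right hu1 (by (clear * -; positivity))
    linarith only [h6, h7]

end SokamCen

end

/-! ### Lib_MP_af4de1_v3.CenUReal -/

section
namespace SokamF1
end SokamF1
namespace SokamV3
end SokamV3
/-!
# CEN: rest and far as ONE zone, with the bounds in units of `PF`

`UB N r δ η g q θ S b0 bW be` : some zone `(u0, uW, ue)` on `S` (base point `1`) with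
`PF u0 ≤ b0`, `PF uW R/h² ≤ bW`, `PF ue/Γ ≤ be`.
`uL_*` : left set, `θ = t`; `uR_*` : right set, `θ = -t`; `|η| + h ≤ t ≤ π`.
-/

set_option autoImplicit false

namespace SokamCen

open Real MeasureTheory Set SokamV3 SokamF1

/-- A zone on `S` with the three bounds. -/
def UB (N : ℕ) (r δ η g q θ : ℝ) (S : Set ℝ) (b0 bW be : ℝ) : Prop :=
  ∃ u0 uW ue : ℝ, 0 ≤ u0 ∧ 0 ≤ uW ∧ 0 ≤ ue ∧
    Zone r (mm (r * δ)) (r * δ) θ 1 S u0 uW ue ∧
    PF r δ η g q * u0 ≤ b0 ∧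
    PF r δ η g q * uW * (RR r δ / hst N ^ (2 : ℕ)) ≤ bW ∧
    PF r δ η g q * ue / Gm N r δ ≤ be

theorem UB.union {N : ℕ} {r δ η g q θ b0 bW be c0 cW ce : ℝ} {S T : Set ℝ}
    (h : UB N r δ η g q θ S b0 bW be) (h' : UB N r δ η g q θ T c0 cW ce) :
    UB N r δ η g q θ (S ∪ T) (b0 + c0) (bW + cW) (be + ce) := by
  obtain ⟨u0, uW, ue, a0, a1, a2, z, e0, e1, e2⟩ := h
  obtain ⟨v0, vW, ve, b0, b1, b2, z', f0, f1, f2⟩ := h'
  refine ⟨u0 + v0, uW + vW, ue + ve, add_nonneg a0 b0, add_nonneg a1 b1, add_nonneg a2 b2,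
    z.union z' a0 a1 a2 b0 b1 b2, ?_, ?_, ?_⟩
  · rw [mul_add]
    exact add_le_add e0 f0
  · rw [mul_add, add_mul]
    exact add_le_add e1 f1
  · rw [mul_add, add_div]
    exact add_le_add e2 f2

theorem UB.mono {N : ℕ} {r δ η g q θ b0 bW be c0 cW ce : ℝ} {S T : Set ℝ}
    (h : UB N r δ η g q θ T b0 bW be) (hST : S ⊆ T) (h0 : b0 ≤ c0) (h1 : bW ≤ cW)
    (h2 : be ≤ ce) : UB N r δ η g q θ S c0 cW ce := by
  obtain ⟨u0, uW, ue, a0, a1, a2, z, e0, e1, e2⟩ := h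
  exact ⟨u0, uW, ue, a0, a1, a2, z.subset hST, e0.trans h0, e1.trans h1, e2.trans h2⟩

/-- the rest of the line, left -/
def UsL (t : ℝ) : Set ℝ :=
  {s | 6336 / 10000 ≤ 1 - cos (t + s)} ∪ Ici (2 * π - t + 5) ∪ Iic (-(t + 5))

/-- the rest of the line, right -/
def UsR (t : ℝ) : Set ℝ :=
  {s | 6336 / 10000 ≤ 1 - cos (-t + s)} ∪ (Ici (t + 5) ∪ Iic (-(2 * π - t + 5)))

theorem far_UB {N : ℕ} {r δ η g q c1 c2 : ℝ} (hR : Reg1 N r δ) (hη : |η| ≤ 3 / 4 * hst N)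
    (hg : g ≤ 9 / 5) (hq : q ≤ 33 / 20) (h1 : 5 + |η| + hst N ≤ c1)
    (h2 : 5 + |η| + hst N ≤ c2) (θ : ℝ) :
    UB N r δ η g q θ (Ici c1 ∪ Iic (-c2)) (1 / 500000) (1 / 100000) (1 / 2500000) :=
  far_ex hR hη hg hq h1 h2 θ

section

variable {N : ℕ} {r δ η g q : ℝ}

theorem u_h (hR : Reg1 N r δ) : 0 < hst N ∧ hst N ≤ 21 / 10 := by
  have hN3 : (3 : ℝ) ≤ N := by exact_mod_cast hR.N3
  have hN0 : (0 : ℝ) < N := by linarith only [hN3]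
  have hpi := Real.pi_lt_d4
  have hpi0 := Real.pi_pos
  unfold hst
  refine ⟨by positivity, ?_⟩
  have : 2 * π / N ≤ 2 * π / 3 := div_le_div_of_nonneg_left (by positivity) (by norm_num) hN3
  linarith only [hpi, this]

theorem u_m {ρ : ℝ} (hρ : 0 < ρ) : 5 / 4 * ρ ≤ mm ρ := by
  unfold mm
  have : ρ ≤ √(1 + ρ ^ (2 : ℕ)) := Real.le_sqrt_of_sq_le (by linarith only [])
  linarith only [this]

/-- the rest zone from `Zr_gen` -/
private theorem rest_UB {θ d b0 bW be : ℝ} {S : Set ℝ} (mS : MeasurableSet S)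
    (hR : Reg1 N r δ) (hd : ∀ s ∈ S, d ≤ Dm (mm (r * δ)) (r * δ) θ s)
    (h : LvF r δ η g q * √(1 + 1 / mm (r * δ) ^ (2 : ℕ)) * red r (mm (r * δ)) (r * δ) (1 / 20) d ≤ b0 ∧
      LvF r δ η g q * √(1 + 1 / mm (r * δ) ^ (2 : ℕ)) *
        (20 * red r (mm (r * δ)) (r * δ) (1 / 20) d) * (RR r δ / hst N ^ (2 : ℕ)) ≤ bW ∧
      LvF r δ η g q * √(1 + 1 / mm (r * δ) ^ (2 : ℕ)) *
        (3 * red r (mm (r * δ)) (r * δ) (1 / 20) d) / (r * hst N ^ (2 : ℕ) / RR r δ) ≤ be) :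
    UB N r δ η g q θ S b0 bW be := by
  have hr0 : 0 < r := by linarith only [hR.r0]
  have hρ : 0 < r * δ := mul_pos hr0 hR.d0
  have hm := u_m hρ
  have hm0 : 0 < mm (r * δ) := by linarith only [hρ, hm]
  have hre : 0 ≤ red r (mm (r * δ)) (r * δ) (1 / 20) d := by
    unfold red laR
    positivity
  refine ⟨_, _, _, hre, by positivity, by positivity,
    Zr_gen mS hr0 hρ hm (by norm_num) (by norm_num) (by rw [norm_one]; norm_num) hd, h⟩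

theorem mS_rest (θ : ℝ) : MeasurableSet {s : ℝ | 6336 / 10000 ≤ 1 - cos (θ + s)} :=
  measurableSet_le measurable_const (by fun_prop)

/-! ## the two sets -/

theorem u_left {t b0 bW be : ℝ} (hR : Reg1 N r δ) (hη : |η| ≤ 3 / 4 * hst N)
    (hg : g ≤ 9 / 5) (hq : q ≤ 33 / 20) (ht : |η| + hst N ≤ t) (htp : t ≤ π)
    (h : UB N r δ η g q t {s | 6336 / 10000 ≤ 1 - cos (t + s)} b0 bW be) :
    UB N r δ η g q t (UsL t) (b0 + 1 / 500000) (bW + 1 / 100000) (be + 1 / 2500000) := by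
  refine (h.union (far_UB hR hη hg hq (c1 := 2 * π - t + 5) (c2 := t + 5) (by linarith only [ht, htp])
    (by linarith only [ht]) t)).mono ?_ le_rfl le_rfl le_rfl
  unfold UsL
  rw [union_assoc]

theorem u_right {t b0 bW be : ℝ} (hR : Reg1 N r δ) (hη : |η| ≤ 3 / 4 * hst N)
    (hg : g ≤ 9 / 5) (hq : q ≤ 33 / 20) (ht : |η| + hst N ≤ t) (htp : t ≤ π)
    (h : UB N r δ η g q (-t) {s | 6336 / 10000 ≤ 1 - cos (-t + s)} b0 bW be) :
    UB N r δ η g q (-t) (UsR t) (b0 + 1 / 500000) (bW + 1 / 100000) (be + 1 / 2500000) :=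
  h.union (far_UB hR hη hg hq (c1 := t + 5) (c2 := 2 * π - t + 5) (by linarith only [ht])
    (by linarith only [ht, htp]) (-t))

/-! ## `Γ < 10` -/

theorem uA (hR : Reg1 N r δ) (hG : Gm N r δ ≤ 10) (hη : |η| ≤ 3 / 4 * hst N)
    (hg : g ≤ 6 / 5) (hq0 : 0 ≤ q) (hq : q ≤ 33 / 20) (θ : ℝ) :
    UB N r δ η g q θ {s | 6336 / 10000 ≤ 1 - cos (θ + s)} (1 / 1000000) (1 / 10000)
      (1 / 1000000) := by
  obtain ⟨hh0, hh1⟩ := u_h hR
  have hr0 : 0 < r := by linarith only [hR.r0]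
  have hρ : 0 < r * δ := mul_pos hr0 hR.d0
  have h := rest_A (q := q) hR.r0 hR.d0 hq0 (by linarith only [hq]) hg hh0 hh1 hη hR.G hG
  rw [← red_half] at h
  exact rest_UB (mS_rest θ) hR (fun s hs => Dm_half hρ (u_m hρ) hs) h

/-- LEFT, `Γ < 10` -/
theorem uL_A {t : ℝ} (hR : Reg1 N r δ) (hG : Gm N r δ ≤ 10) (hη : |η| ≤ 3 / 4 * hst N)
    (hg : g ≤ 6 / 5) (hq0 : 0 ≤ q) (hq : q ≤ 33 / 20) (ht : |η| + hst N ≤ t) (htp : t ≤ π) :
    UB N r δ η g q t (UsL t) (1 / 300000) (1 / 9000) (1 / 700000) :=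
  (u_left hR hη (by linarith only [hg]) hq ht htp (uA hR hG hη hg hq0 hq t)).mono subset_rfl
    (by norm_num) (by norm_num) (by norm_num)

/-- RIGHT, `Γ < 10` -/
theorem uR_A {t : ℝ} (hR : Reg1 N r δ) (hG : Gm N r δ ≤ 10) (hη : |η| ≤ 3 / 4 * hst N)
    (hg : g ≤ 6 / 5) (hq0 : 0 ≤ q) (hq : q ≤ 33 / 20) (ht : |η| + hst N ≤ t) (htp : t ≤ π) :
    UB N r δ η g q (-t) (UsR t) (1 / 300000) (1 / 9000) (1 / 700000) :=
  (u_right hR hη (by linarith only [hg]) hq ht htp (uA hR hG hη hg hq0 hq (-t))).mono subset_rfl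
    (by norm_num) (by norm_num) (by norm_num)

/-! ## `10 ≤ Γ ≤ 20` -/

theorem uB (hR : Reg1 N r δ) (hG : 10 ≤ Gm N r δ) (hG2 : Gm N r δ ≤ 20)
    (hη : |η| ≤ 13 / 20 * hst N) (hg : g ≤ 13 / 10) (hq0 : 0 ≤ q) (hq : q ≤ 33 / 20) (θ : ℝ) :
    UB N r δ η g q θ {s | 6336 / 10000 ≤ 1 - cos (θ + s)} (1 / 500000) (1 / 5000)
      (1 / 1000000) := by
  obtain ⟨hh0, hh1⟩ := u_h hR
  have hr0 : 0 < r := by linarith only [hR.r0]
  have hρ : 0 < r * δ := mul_pos hr0 hR.d0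
  have h := rest_B (q := q) hR.r0 hR.d0 hq0 (by linarith only [hq]) hg hh0 hh1 hη hG hG2
  rw [← red_half] at h
  exact rest_UB (mS_rest θ) hR (fun s hs => Dm_half hρ (u_m hρ) hs) h

/-- LEFT, `10 ≤ Γ ≤ 20` -/
theorem uL_B {t : ℝ} (hR : Reg1 N r δ) (hG : 10 ≤ Gm N r δ) (hG2 : Gm N r δ ≤ 20)
    (hη : |η| ≤ 13 / 20 * hst N) (hg : g ≤ 13 / 10) (hq0 : 0 ≤ q) (hq : q ≤ 33 / 20)
    (ht : |η| + hst N ≤ t) (htp : t ≤ π) :
    UB N r δ η g q t (UsL t) (1 / 250000) (1 / 4700) (1 / 700000) :=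
  (u_left hR (hη.trans (by linarith only [(u_h hR).1])) (by linarith only [hg]) hq ht htp
    (uB hR hG hG2 hη hg hq0 hq t)).mono subset_rfl (by norm_num) (by norm_num) (by norm_num)

/-- RIGHT, `10 ≤ Γ ≤ 20` -/
theorem uR_B {t : ℝ} (hR : Reg1 N r δ) (hG : 10 ≤ Gm N r δ) (hG2 : Gm N r δ ≤ 20)
    (hη : |η| ≤ 13 / 20 * hst N) (hg : g ≤ 13 / 10) (hq0 : 0 ≤ q) (hq : q ≤ 33 / 20)
    (ht : |η| + hst N ≤ t) (htp : t ≤ π) :
    UB N r δ η g q (-t) (UsR t) (1 / 250000) (1 / 4700) (1 / 700000) :=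
  (u_right hR (hη.trans (by linarith only [(u_h hR).1])) (by linarith only [hg]) hq ht htp
    (uB hR hG hG2 hη hg hq0 hq (-t))).mono subset_rfl (by norm_num) (by norm_num) (by norm_num)

/-! ## `20 ≤ Γ`, left -/

/-- LEFT, `20 ≤ Γ` -/
theorem uL_C {t : ℝ} (hR : Reg1 N r δ) (hG : 20 ≤ Gm N r δ)
    (hη : |η| ≤ 3 / 5 * hst N) (hg0 : 0 ≤ g) (hg : g ≤ 6 / 5) (hq0 : 0 ≤ q) (hq : q ≤ 33 / 20)
    (ht : |η| + hst N ≤ t) (htp : t ≤ π) :
    UB N r δ η g q t (UsL t) (1 / 9000) (18 / 10000) (1 / 40000) := by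
  obtain ⟨hh0, hh1⟩ := u_h hR
  have hr0 : 0 < r := by linarith only [hR.r0]
  have hρ : 0 < r * δ := mul_pos hr0 hR.d0
  have hRp : 0 < RR r δ := by unfold RR; positivity
  have hY : hst N ^ (2 : ℕ) / RR r δ ≤ 11 / 10 := by
    rw [div_le_iff₀ hRp]
    exact hR.I
  have h := rest_CL (q := q) hR.r0 hR.d0 hq0 (by linarith only [hq]) hg0 hg hh0 hh1 hη hG hY
  exact (u_left hR (hη.trans (by linarith only [hh0])) (by linarith only [hg]) hq ht htp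
    (rest_UB (mS_rest t) hR (fun s hs => Dm_53 hρ (u_m hρ) hs) h)).mono subset_rfl
    (by norm_num) (by norm_num) (by norm_num)

end

end SokamCen

end

/-! ### Lib_MP_af4de1_v3.CenCov -/

section
/-! # CEN: the zones cover the line.  `1 - cos u ≥ 1 - cos (6/5) ≥ 6336/10000` for `6/5 ≤ |u| ≤ 2π - 6/5`
(`SokamFA.cos_split_large`), `2π - 6/5 > 5`. -/

set_option autoImplicit false

namespace SokamCen

open Real MeasureTheory Set

/-- `6/5 ≤ u ≤ 2π - 6/5` -/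
theorem cos_rest {u : ℝ} (h1 : 6 / 5 ≤ u) (h2 : u ≤ 2 * π - 6 / 5) :
    6336 / 10000 ≤ 1 - cos u := by
  rcases le_total u π with h | h
  · exact SokamFA.cos_split_large h1 h
  · have h3 := SokamFA.cos_split_large (u := 2 * π - u) (by linarith only [h2]) (by linarith only [h])
    rwa [Real.cos_two_pi_sub] at h3

theorem cover_L {t : ℝ} (h0 : 0 < t) (h1 : t ≤ π) (s : ℝ) :
    s ∈ Icc (-t) (min 0 (6 / 5 - t)) ∨ s ∈ Icc (-(t + 6 / 5)) (-t) ∨ s ∈ Icc 0 (6 / 5 - t) ∨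
      s ∈ Icc (max 0 (2 * π - t - 6 / 5)) (2 * π - t) ∨ s ∈ Icc (2 * π - t) (2 * π - t + 6 / 5) ∨
      s ∈ Ici (2 * π - t + 5) ∨ s ∈ Iic (-(t + 5)) ∨ 6336 / 10000 ≤ 1 - cos (t + s) := by
  have hp := pi_gt_d
  simp only [mem_Icc, mem_Ici, mem_Iic, le_min_iff, max_le_iff]
  by_contra hc
  push Not at hc
  obtain ⟨a1, a2, a3, a4, a5, a6, a7, a8⟩ := hc
  rcases lt_or_ge (t + s) (-(6 / 5)) with h | h
  · have h3 := cos_rest (u := -(t + s)) (by linarith only [h]) (by linarith only [hp, a7])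
    rw [Real.cos_neg] at h3
    linarith only [a8, h3]
  rcases le_or_gt (t + s) 0 with h2 | h2
  · have := a2 (by linarith only [h])
    linarith only [h2, this]
  rcases le_or_gt (t + s) (6 / 5) with h3 | h3
  · rcases le_total s 0 with h4 | h4
    · have := a1 (by linarith only [h2]) h4
      linarith only [h3, this]
    · have := a3 h4
      linarith only [h3, this]
  rcases lt_or_ge (t + s) (2 * π - 6 / 5) with h4 | h4
  · have := cos_rest h3.le h4.le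
    linarith only [a8, this]
  rcases le_or_gt (t + s) (2 * π) with h5 | h5
  · have := a4 ⟨by linarith only [h1, hp, h4], by linarith only [h4]⟩
    linarith only [h5, this]
  rcases le_or_gt (t + s) (2 * π + 6 / 5) with h6 | h6
  · have := a5 (by linarith only [h5])
    linarith only [h6, this]
  have h7 := cos_rest (u := t + s - 2 * π) (by linarith only [h6]) (by linarith only [hp, a6])
  rw [Real.cos_sub_two_pi] at h7
  linarith only [a8, h7]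

theorem cover_R {t : ℝ} (h0 : 0 < t) (h1 : t ≤ π) (s : ℝ) :
    s ∈ Icc (max 0 (t - 6 / 5)) t ∨ s ∈ Icc t (t + 6 / 5) ∨ s ∈ Icc (-(6 / 5 - t)) 0 ∨
      s ∈ Icc (-(2 * π - t)) (min 0 (6 / 5 - (2 * π - t))) ∨
      s ∈ Icc (-(2 * π - t + 6 / 5)) (-(2 * π - t)) ∨
      s ∈ Ici (t + 5) ∨ s ∈ Iic (-(2 * π - t + 5)) ∨ 6336 / 10000 ≤ 1 - cos (-t + s) := by
  have h := cover_L h0 h1 (-s)
  simp only [mem_Icc, mem_Ici, mem_Iic, le_min_iff, max_le_iff] at h ⊢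
  have e : cos (t + -s) = cos (-t + s) := by
    rw [← Real.cos_neg (-t + s)]
    congr 1
    ring
  rw [e] at h
  rcases h with ⟨p1, p2, p3⟩ | ⟨p1, p2⟩ | ⟨p1, p2⟩ | ⟨⟨p1, p2⟩, p3⟩ | ⟨p1, p2⟩ | p | p | p
  · exact Or.inl ⟨⟨by linarith only [p2], by linarith only [p3]⟩, by linarith only [p1]⟩
  · exact Or.inr (Or.inl ⟨by linarith only [p2], by linarith only [p1]⟩)
  · exact Or.inr (Or.inr (Or.inl ⟨by linarith only [p2], by linarith only [p1]⟩))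
  · exact Or.inr (Or.inr (Or.inr (Or.inl ⟨by linarith only [p3], by linarith only [p1], by linarith only [p2]⟩)))
  · exact Or.inr (Or.inr (Or.inr (Or.inr (Or.inl ⟨by linarith only [p2], by linarith only [p1]⟩))))
  · exact Or.inr (Or.inr (Or.inr (Or.inr (Or.inr (Or.inr (Or.inl (by linarith only [p])))))))
  · exact Or.inr (Or.inr (Or.inr (Or.inr (Or.inr (Or.inl (by linarith only [p]))))))
  · exact Or.inr (Or.inr (Or.inr (Or.inr (Or.inr (Or.inr (Or.inr p))))))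

end SokamCen

end

/-! ### Lib_MP_af4de1_v3.CenZ1L -/

section
/-! # CEN zone 1, left (main): `v = -s ∈ [0,t]`, `u = t - v ≤ 6/5`.
`Dm ≥ AL v² + B u² - l` (`Qm_AL`, `Lft`, `Win`), `W ≤ v²/m² + u²` (base point `w = 1`). -/

set_option autoImplicit false

namespace SokamCen

open Real MeasureTheory Set

theorem Icc_sub_SmL (t : ℝ) : Icc (-t) (min 0 (6 / 5 - t)) ⊆ SmL t := by
  intro s hs
  have h1 := hs.2.trans (min_le_left _ _)
  have h2 := hs.2.trans (min_le_right _ _)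
  exact ⟨hs.1, h1, by linarith⟩

theorem Z1L1 {q m ρ t β B l : ℝ} (hq : 0 < q) (hρ : 0 < ρ) (hm : ρ ≤ m) (ht : 0 < t)
    (hW : Win β t) (hL : Lft m t β B l) :
    Zone q m ρ t 1 (Icc (-t) (min 0 (6 / 5 - t))) (g0 q (AL m ρ t) B t l)
      (gW q (AL m ρ t) B t l 0 (1 / m ^ (2 : ℕ)) 1) (g0 q (AL m ρ t) B t l) := by
  have h := (zmain_L hq hρ hm ht hW hL).subset (Icc_sub_SmL t)
  rwa [one_mul] at h

/-- the same with the exact moments over the line -/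
theorem Z1L1' {q m ρ t β B l : ℝ} (hq : 0 < q) (hρ : 0 < ρ) (hm : ρ ≤ m) (ht : 0 < t)
    (hW : Win β t) (hL : Lft m t β B l) :
    Zone q m ρ t 1 (Icc (-t) (min 0 (6 / 5 - t))) (gF q (AL m ρ t) B t l 1 0 0)
      (gF q (AL m ρ t) B t l 0 (1 / m ^ (2 : ℕ)) 1) (gF q (AL m ρ t) B t l 1 0 0) := by
  have h := (zmain_L' hq hρ hm ht hW hL).subset (Icc_sub_SmL t)
  rwa [one_mul] at h

end SokamCen

end

/-! ### Lib_MP_af4de1_v3.CenZ1R -/

section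
/-! # CEN zone 1, right (main): `s ∈ [0,t]`, `u = t - s ≤ 6/5`, `T = cT m t`.
`Dm ≥ AR s² + β u²` (`Qm_AR`, `Win`, `e^a ≥ 1`),
`W ≤ (e^a - 1)² + (e^n - 1)² + e^(a+n) (u² + p²)`, `e^a - 1 ≤ e1c m t * s/m`. -/

set_option autoImplicit false

namespace SokamCen

open Real MeasureTheory Set

theorem eS_cT (m t : ℝ) : eS (cT m t) = e1c m t := rfl

theorem Icc_sub_SmR (t : ℝ) : Icc (max 0 (t - 6 / 5)) t ⊆ SmR t := by
  intro s hs
  have h1 := (le_max_left 0 (t - 6 / 5)).trans hs.1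
  have h2 := (le_max_right 0 (t - 6 / 5)).trans hs.1
  exact ⟨h1, hs.2, by linarith only [h2]⟩

theorem Z1R1 {q m ρ t β : ℝ} (hq : 0 < q) (hρ : 0 < ρ) (hm : ρ ≤ m) (ht : 0 < t)
    (hW : Win β t) :
    Zone q m ρ (-t) 1 (Icc (max 0 (t - 6 / 5)) t) (g0 q (AR m ρ t) β t 0)
      (gW q (AR m ρ t) β t 0 0 (e1c m t ^ (2 : ℕ) / m ^ (2 : ℕ)) (exp (cT m t)))
      (exp (cT m t) * g0 q (AR m ρ t) β t 0) :=
  (zmain_R hq hρ hm ht hW).subset (Icc_sub_SmR t)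

/-- the same with the exact moments over the line -/
theorem Z1R1' {q m ρ t β : ℝ} (hq : 0 < q) (hρ : 0 < ρ) (hm : ρ ≤ m) (ht : 0 < t)
    (hW : Win β t) :
    Zone q m ρ (-t) 1 (Icc (max 0 (t - 6 / 5)) t) (gF q (AR m ρ t) β t 0 1 0 0)
      (gF q (AR m ρ t) β t 0 0 (e1c m t ^ (2 : ℕ) / m ^ (2 : ℕ)) (exp (cT m t)))
      (exp (cT m t) * gF q (AR m ρ t) β t 0 1 0 0) :=
  (zmain_R' hq hρ hm ht hW).subset (Icc_sub_SmR t)

/-- general direction -/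
theorem Z1R {q m ρ t n p β : ℝ} (hq : 0 < q) (hρ : 0 < ρ) (hm : ρ ≤ m) (ht : 0 < t)
    (hn : 0 ≤ n) (hp : 0 ≤ p) (hW : Win β t) :
    Zone q m ρ (-t) (ww n (-p)) (Icc (max 0 (t - 6 / 5)) t) (g0 q (AR m ρ t) β t 0)
      (gW q (AR m ρ t) β t 0 ((exp n - 1) ^ (2 : ℕ) + exp (cT m t + n) * p ^ (2 : ℕ)) (e1c m t ^ (2 : ℕ) / m ^ (2 : ℕ))
        (exp (cT m t + n))) (exp (cT m t) * g0 q (AR m ρ t) β t 0) := by
  have hm0 : 0 < m := hρ.trans_le hm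
  have hT : 0 < cT m t := lt_min one_pos (div_pos ht hm0)
  have hS : MeasurableSet (Icc (max 0 (t - 6 / 5)) t) := measurableSet_Icc
  refine zmain_of_R hq (AR_pos hρ hm ht) hW.1 ht.le hS
    (fun s hs => ⟨(Icc_sub_SmR t hs).1, hs.2⟩) (fun s hs => Dm_main_R hρ hm ht hW (Icc_sub_SmR t hs))
    (by (clear * -; positivity)) (by (clear * - hm0; positivity)) (exp_pos _).le (fun s hs => ?_) (exp_pos _).le
    fun s hs => exp_le_exp.2 (pm_le_cT hm0 (Icc_sub_SmR t hs).1 hs.2)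
  obtain ⟨h0, h1, h2⟩ := Icc_sub_SmR t hs
  rw [Wm_eq]
  have hp0 : 0 ≤ pm m s := pm_nonneg hm0 h0
  have hp1 := pm_le hm0 h0
  have hpT := pm_le_cT hm0 h0 h1
  have hSl := eS_ge hp0 hpT hT
  have hSn := eS_nonneg hT
  have he1 : 1 ≤ exp (pm m s) := one_le_exp hp0
  have hn1 : 1 ≤ exp n := one_le_exp hn
  have hu : 0 ≤ t - s := by linarith only [h1]
  have b1 : (exp (pm m s) - exp n) ^ (2 : ℕ) ≤ (exp (pm m s) - 1) ^ (2 : ℕ) + (exp n - 1) ^ (2 : ℕ) := by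
    linarith only [mul_nonneg (sub_nonneg.2 he1) (sub_nonneg.2 hn1)]
  have b2 : (exp (pm m s) - 1) ^ (2 : ℕ) ≤ (eS (cT m t) * (s / m)) ^ (2 : ℕ) :=
    pow_le_pow_left₀ (by linarith only [he1]) (hSl.trans (mul_le_mul_of_nonneg_left hp1 hSn)) 2
  have b3 : 2 * exp (pm m s + n) * (1 - cos (-t + s - -p)) ≤
      exp (cT m t + n) * ((t - s) ^ (2 : ℕ) + p ^ (2 : ℕ)) := by
    have a1 : exp (pm m s + n) ≤ exp (cT m t + n) := exp_le_exp.2 (by linarith only [hpT])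
    have a2 := one_sub_cos_le (-t + s - -p)
    have a3 : 0 ≤ 1 - cos (-t + s - -p) := by linarith only [cos_le_one (-t + s - -p)]
    have a4 : (-t + s - -p) ^ (2 : ℕ) ≤ (t - s) ^ (2 : ℕ) + p ^ (2 : ℕ) := by linarith only [mul_nonneg hu hp]
    have a5 := exp_pos (pm m s + n)
    calc 2 * exp (pm m s + n) * (1 - cos (-t + s - -p))
        = exp (pm m s + n) * (2 * (1 - cos (-t + s - -p))) := by ring
      _ ≤ exp (cT m t + n) * ((t - s) ^ (2 : ℕ) + p ^ (2 : ℕ)) :=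
          mul_le_mul a1 (a2.trans a4) (by linarith only [a3]) (exp_pos _).le
  have e : e1c m t ^ (2 : ℕ) / m ^ (2 : ℕ) * s ^ (2 : ℕ) = (eS (cT m t) * (s / m)) ^ (2 : ℕ) := by
    rw [eS_cT]
    field_simp
  rw [e]
  linarith only [b2, b3, b1]

end SokamCen

end

/-! ### Lib_MP_af4de1_v3.CenSumL -/

section
/-!
# CEN: the total of the zones, left side (`θ = t`, `0 < t ≤ π`, base point `w = 1`)

Triples `(I0, IW, Ie)`.  `zoneL` : the zone over `univ` is the sum of `tmL` (main), `tbL` (behind), `tfL` (front,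
only for `t ≤ 6/5`), `tiL`, `tjL` (image at `t' = 2π - t`, main part and behind), `trL` (rest), `tgL` (far).
`shf_total` : from a zone over `univ` with `w = 1` to `Shf`, triangle inequality in `L²`.
-/

set_option autoImplicit false

namespace SokamCen

open Real MeasureTheory Set

/-! ## triples -/

/-- a zone with a nonnegative triple -/
def Zn (q m ρ θ : ℝ) (w : ℂ) (S : Set ℝ) (v : ℝ × ℝ × ℝ) : Prop :=
  (0 ≤ v.1 ∧ 0 ≤ v.2.1 ∧ 0 ≤ v.2.2) ∧ Zone q m ρ θ w S v.1 v.2.1 v.2.2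

theorem Zn.add {q m ρ θ : ℝ} {w : ℂ} {S T : Set ℝ} {v u : ℝ × ℝ × ℝ} (h : Zn q m ρ θ w S v)
    (h' : Zn q m ρ θ w T u) : Zn q m ρ θ w (S ∪ T) (v + u) := by
  obtain ⟨⟨a0, a1, a2⟩, hz⟩ := h
  obtain ⟨⟨b0, b1, b2⟩, hz'⟩ := h'
  exact ⟨⟨add_nonneg a0 b0, add_nonneg a1 b1, add_nonneg a2 b2⟩, hz.union hz' a0 a1 a2 b0 b1 b2⟩

theorem Zn.sub {q m ρ θ : ℝ} {w : ℂ} {S T : Set ℝ} {v : ℝ × ℝ × ℝ} (h : Zn q m ρ θ w T v)
    (hS : S ⊆ T) : Zn q m ρ θ w S v := ⟨h.1, h.2.subset hS⟩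

theorem Zn.empty (q m ρ θ : ℝ) (w : ℂ) : Zn q m ρ θ w ∅ 0 := by
  refine ⟨⟨le_rfl, le_rfl, le_rfl⟩, ?_, ?_, ?_⟩ <;> simp

theorem Zn.period {q m ρ θ : ℝ} {w : ℂ} {S : Set ℝ} {v : ℝ × ℝ × ℝ}
    (h : Zn q m ρ (θ - 2 * π) w S v) : Zn q m ρ θ w S v := ⟨h.1, zone_period h.2⟩

/-! ## the closed forms -/

/-- main -/
noncomputable def tmL (q m ρ t B l : ℝ) : ℝ × ℝ × ℝ :=
  (gF q (AL m ρ t) B t l 1 0 0, gF q (AL m ρ t) B t l 0 (1 / m ^ (2 : ℕ)) 1, gF q (AL m ρ t) B t l 1 0 0)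

/-- main, truncated at `t` -/
noncomputable def tmL' (q m ρ t B l : ℝ) : ℝ × ℝ × ℝ :=
  (g0 q (AL m ρ t) B t l, gW q (AL m ρ t) B t l 0 (1 / m ^ (2 : ℕ)) 1, g0 q (AL m ρ t) B t l)

/-- behind -/
noncomputable def tbL (q m ρ t : ℝ) : ℝ × ℝ × ℝ :=
  (bH0 q m ρ t, (t ^ (2 : ℕ) * bH0 q m ρ t + 2 * t * bH1 q m ρ t + bH2 q m ρ t) / m ^ (2 : ℕ) + bH2 q m ρ t,
    bH0 q m ρ t)

/-- front, `t ≤ 6/5` -/
noncomputable def tfL (q m ρ t : ℝ) : ℝ × ℝ × ℝ :=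
  if t ≤ 6 / 5 then
    (exp (-(q * (1 - cos t))) * (√(π / (q * aR m ρ 1)) / 2),
      exp (-(q * (1 - cos t))) * (t ^ (2 : ℕ) * (√(π / (q * aR m ρ 1)) / 2) +
        2 * t * h1 (q * aR m ρ 1) + (1 + 9 / (8 * m ^ (2 : ℕ))) * h2 (q * aR m ρ 1)),
      exp (-(q * (1 - cos t))) * (√(π / (q * aR m ρ 1)) / 2))
  else 0

/-- image, main part: the right main zone at `t'` -/
noncomputable def tiL (q m ρ t' : ℝ) : ℝ × ℝ × ℝ :=
  (g0 q (AR m ρ t') (11 / 25) t' 0,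
    gW q (AR m ρ t') (11 / 25) t' 0 0 (e1c m t' ^ (2 : ℕ) / m ^ (2 : ℕ)) (exp (cT m t')),
    exp (cT m t') * g0 q (AR m ρ t') (11 / 25) t' 0)

/-- slope behind, right -/
noncomputable def jb (q m ρ t : ℝ) : ℝ := q * (AR m ρ t * t)
/-- curvature behind, right -/
noncomputable def jB (q m t : ℝ) : ℝ := q * (11 / 25 * exp (cT m t))
/-- `I0` behind, right -/
noncomputable def j0 (q m ρ t : ℝ) : ℝ :=
  exp (-(q * (AR m ρ t * t ^ (2 : ℕ)))) * h0 (jb q m ρ t) (jB q m t)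

/-- image, behind: the right zone behind at `t'` -/
noncomputable def tjL (q m ρ t' : ℝ) : ℝ × ℝ × ℝ :=
  (j0 q m ρ t',
    exp (-(q * (AR m ρ t' * t' ^ (2 : ℕ)))) * ((e1c m (t' + 6 / 5) / m) ^ (2 : ℕ) *
      (t' ^ (2 : ℕ) * h0 (jb q m ρ t') (jB q m t') + 2 * t' * h1 (jB q m t') + h2 (jB q m t')) +
      exp (cT m (t' + 6 / 5)) * h2 (jB q m t')),
    exp (cT m (t' + 6 / 5)) * j0 q m ρ t')

/-- rest -/
noncomputable def trL (q m ρ ε : ℝ) : ℝ × ℝ × ℝ :=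
  (re0 q m ρ ε, 20 * re0 q m ρ ε, 3 * re0 q m ρ ε)

/-- far, right end -/
noncomputable def tgR (q m ρ S : ℝ) : ℝ × ℝ × ℝ :=
  (fa0 q (AR m ρ S) S, 20 * fa0 q (AR m ρ S) S, 3 * fa0 q (AR m ρ S) S)

/-- far, left end -/
noncomputable def tgL (q m ρ S : ℝ) : ℝ × ℝ × ℝ :=
  (fa0 q (AL m ρ S) S, 20 * fa0 q (AL m ρ S) S, 3 * fa0 q (AL m ρ S) S)

/-- the total, left -/
noncomputable def TL (q m ρ t B l ε : ℝ) : ℝ × ℝ × ℝ :=
  tmL q m ρ t B l + tbL q m ρ t + tfL q m ρ t + tiL q m ρ (2 * π - t) + tjL q m ρ (2 * π - t) +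
    trL q m ρ ε + tgR q m ρ (2 * π - t + 5) + tgL q m ρ (t + 5)

/-! ## nonnegativity -/

theorem gG_nonneg (q A B : ℝ) : 0 ≤ gG q A B := Real.sqrt_nonneg _

theorem gs_nonneg {q A B : ℝ} (hq : 0 < q) (hA : 0 < A) (hB : 0 < B) : 0 ≤ gs q A B := by
  unfold gs
  positivity

theorem gF_nonneg {q A B t l a0 a1 a2 : ℝ} (hq : 0 < q) (hA : 0 < A) (hB : 0 < B) (h0 : 0 ≤ a0)
    (h1 : 0 ≤ a1) (h2 : 0 ≤ a2) : 0 ≤ gF q A B t l a0 a1 a2 := by
  have := gG_nonneg q A B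
  have := gs_nonneg hq hA hB
  unfold gF
  positivity

theorem gr_nonneg {q A B t : ℝ} (hA : 0 < A) (hB : 0 < B) (ht : 0 ≤ t) : 0 ≤ gr q A B t := by
  have := gG_nonneg q A B
  have := gv_le hA hB ht
  unfold gr
  exact le_min (by positivity) (by linarith only [this])

theorem g0_nonneg {q A B t l : ℝ} (hA : 0 < A) (hB : 0 < B) (ht : 0 ≤ t) : 0 ≤ g0 q A B t l := by
  have := gG_nonneg q A B
  have := gr_nonneg (q := q) hA hB ht
  unfold g0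
  positivity

theorem gW_nonneg {q A B t l a0 a1 a2 : ℝ} (hq : 0 < q) (hA : 0 < A) (hB : 0 < B) (ht : 0 ≤ t)
    (h0 : 0 ≤ a0) (h1 : 0 ≤ a1) (h2 : 0 ≤ a2) : 0 ≤ gW q A B t l a0 a1 a2 := by
  have hG := gG_nonneg q A B
  have hs := gs_nonneg hq hA hB
  have hr := gr_nonneg (q := q) hA hB ht
  have hv := gv_le hA hB ht
  have hv' : 0 ≤ t - gv A B t := by linarith only [hv]
  unfold gW
  refine mul_nonneg (le_min ?_ ?_) (exp_pos _).le
  · positivity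
  · positivity

theorem fa0_nonneg {q A S : ℝ} (hq : 0 < q) (hA : 0 < A) (hS : 0 < S) : 0 ≤ fa0 q A S := by
  unfold fa0
  positivity

theorem re0_nonneg {q m ρ ε : ℝ} (hq : 0 < q) (hρ : 0 < ρ) (hm : ρ ≤ m) (hε : 0 < ε) :
    0 ≤ re0 q m ρ ε := by
  have hm0 : 0 < m := hρ.trans_le hm
  have : 0 < laR q m ρ ε := by
    unfold laR
    positivity
  unfold re0
  positivity

/-! ## the zones -/

section zones

variable {q m ρ t : ℝ} (hq : 0 < q) (hρ : 0 < ρ) (hm : ρ ≤ m)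
include hq hρ hm

theorem zn_main {β B l : ℝ} (ht : 0 < t) (hW : Win β t) (hL : Lft m t β B l) :
    Zn q m ρ t 1 (Icc (-t) (min 0 (6 / 5 - t))) (tmL q m ρ t B l) := by
  have hA := AL_pos hρ hm ht
  exact ⟨⟨gF_nonneg hq hA hL.1 zero_le_one le_rfl le_rfl,
    gF_nonneg hq hA hL.1 le_rfl (by positivity) zero_le_one,
    gF_nonneg hq hA hL.1 zero_le_one le_rfl le_rfl⟩, Z1L1' hq hρ hm ht hW hL⟩

theorem zn_main' {β B l : ℝ} (ht : 0 < t) (hW : Win β t) (hL : Lft m t β B l) :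
    Zn q m ρ t 1 (Icc (-t) (min 0 (6 / 5 - t))) (tmL' q m ρ t B l) := by
  have hA := AL_pos hρ hm ht
  exact ⟨⟨g0_nonneg hA hL.1 ht.le, gW_nonneg hq hA hL.1 ht.le le_rfl (by positivity) zero_le_one,
    g0_nonneg hA hL.1 ht.le⟩, Z1L1 hq hρ hm ht hW hL⟩

theorem zn_beh (ht : 0 ≤ t) : Zn q m ρ t 1 (Icc (-(t + 6 / 5)) (-t)) (tbL q m ρ t) := by
  have hm0 : 0 < m := hρ.trans_le hm
  have hB := bB_pos hρ hm ht
  have e : -(t + 6 / 5) = -t - 6 / 5 := by ring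
  have n0 : 0 ≤ bH0 q m ρ t := by
    unfold bH0
    positivity
  have n1 : 0 ≤ bH1 q m ρ t := by
    unfold bH1
    positivity
  have n2 : 0 ≤ bH2 q m ρ t := by
    unfold bH2
    positivity
  rw [e]
  exact ⟨⟨n0, by unfold tbL; positivity, n0⟩, zone_behind_L' hq hρ hm ht⟩

theorem zn_front (hm1 : 5 / 4 ≤ m) (ht : 0 < t) (hs : t ≤ 6 / 5 → 1 ≤ q * m * sin t) :
    Zn q m ρ t 1 (Icc 0 (6 / 5 - t)) (tfL q m ρ t) := by
  have hA := aR_pos (T := 1) hρ hm (by norm_num) le_rfl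
  have hB : 0 < q * aR m ρ 1 := mul_pos hq hA
  have hm0 : 0 < m := hρ.trans_le hm
  unfold tfL
  by_cases h : t ≤ 6 / 5
  · rw [if_pos h]
    have n1 := h1_nonneg hB
    have n2 := h2_nonneg hB
    refine ⟨⟨by positivity, by positivity, by positivity⟩, ?_⟩
    have hl : h0 (frL q m t) (q * aR m ρ 1) ≤ √(π / (q * aR m ρ 1)) / 2 := min_le_left _ _
    have he := exp_pos (-(q * (1 - cos t)))
    refine (zone_front_L hq hρ hm hm1 ht h (hs h)).mono ?_ ?_ ?_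
    · exact mul_le_mul_of_nonneg_left hl he.le
    · refine mul_le_mul_of_nonneg_left ?_ he.le
      have := mul_le_mul_of_nonneg_left hl (sq_nonneg t)
      linarith only [this]
    · exact mul_le_mul_of_nonneg_left hl he.le
  · rw [if_neg h, Icc_eq_empty (by push Not at h ⊢; linarith only [h])]
    exact Zn.empty q m ρ t 1

theorem zn_img (ht : t ≤ π) :
    Zn q m ρ t 1 (Icc (max 0 (2 * π - t - 6 / 5)) (2 * π - t)) (tiL q m ρ (2 * π - t)) := by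
  have hm0 : 0 < m := hρ.trans_le hm
  have ht' : 0 < 2 * π - t := by linarith only [ht, pi_pos]
  have hA := AR_pos hρ hm ht'
  have hB : (0 : ℝ) < 11 / 25 := by norm_num
  refine Zn.period ?_
  have e : t - 2 * π = -(2 * π - t) := by ring
  rw [e]
  exact ⟨⟨g0_nonneg hA hB ht'.le, gW_nonneg hq hA hB ht'.le le_rfl (by positivity) (exp_pos _).le,
    mul_nonneg (exp_pos _).le (g0_nonneg hA hB ht'.le)⟩, Z1R1 hq hρ hm ht' (win_any _)⟩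

omit hq hρ hm in
/-- the path beyond `t` -/
private theorem sl_pm_ge {m t s : ℝ} (hm : 0 < m) (h : t ≤ s) : cT m t ≤ pm m s := by
  unfold pm cT
  have h1 : t / m ≤ s / m := div_le_div_of_nonneg_right h hm.le
  exact (min_le_min le_rfl h1).trans (le_max_right _ _)

/-- BEHIND, right, `w = 1`: slope `AR t`, curvature `(11/25) e^T`, quadratic weight. -/
theorem zbeh_R (ht : 0 < t) : Zn q m ρ (-t) 1 (Icc t (t + 6 / 5)) (tjL q m ρ t) := by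
  have hm0 : 0 < m := hρ.trans_le hm
  have hA := AR_pos hρ hm ht
  have ht5 : 0 < t + 6 / 5 := by linarith only [ht]
  have hT : 0 < cT m (t + 6 / 5) := lt_min one_pos (div_pos ht5 hm0)
  have he := eS_nonneg hT
  have h := Zone.above (q := q) (m := m) (ρ := ρ) (θ := -t) (w := 1) (c := t)
    (S := Icc t (t + 6 / 5)) (a0 := AR m ρ t * t ^ (2 : ℕ)) (b := AR m ρ t * t)
    (B := 11 / 25 * exp (cT m t)) (e0 := exp (cT m (t + 6 / 5)))
    (c0 := (eS (cT m (t + 6 / 5)) / m) ^ (2 : ℕ) * t ^ (2 : ℕ)) (c1 := (eS (cT m (t + 6 / 5)) / m) ^ (2 : ℕ) * (2 * t))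
    (c2 := (eS (cT m (t + 6 / 5)) / m) ^ (2 : ℕ) + exp (cT m (t + 6 / 5)))
    measurableSet_Icc hq (by positivity) (by positivity) (by positivity) (by positivity)
    (by positivity) (exp_pos _).le (fun s hs => hs.1) (fun s hs => ?_) (fun s hs => ?_)
    (fun s hs => exp_le_exp.2 (pm_le_cT hm0 (ht.le.trans hs.1) hs.2))
  · have n0 := h0_nonneg (b := jb q m ρ t) (B := jB q m t) (by unfold jb; positivity)
      (by unfold jB; positivity)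
    have n1 := h1_nonneg (B := jB q m t) (by unfold jB; positivity)
    have n2 := h2_nonneg (B := jB q m t) (by unfold jB; positivity)
    have nj : 0 ≤ j0 q m ρ t := by
      unfold j0
      positivity
    refine ⟨⟨nj, by unfold tjL; positivity, by unfold tjL; positivity⟩, ?_⟩
    have e1 : (exp (-(q * (AR m ρ t * t ^ (2 : ℕ)))) * ((eS (cT m (t + 6 / 5)) / m) ^ (2 : ℕ) * t ^ (2 : ℕ) *
        h0 (q * (AR m ρ t * t)) (q * (11 / 25 * exp (cT m t))) +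
        (eS (cT m (t + 6 / 5)) / m) ^ (2 : ℕ) * (2 * t) * h1 (q * (11 / 25 * exp (cT m t))) +
        ((eS (cT m (t + 6 / 5)) / m) ^ (2 : ℕ) + exp (cT m (t + 6 / 5))) *
          h2 (q * (11 / 25 * exp (cT m t))))) = (tjL q m ρ t).2.1 := by
      show _ = exp (-(q * (AR m ρ t * t ^ (2 : ℕ)))) * ((eS (cT m (t + 6 / 5)) / m) ^ (2 : ℕ) *
        (t ^ (2 : ℕ) * h0 (q * (AR m ρ t * t)) (q * (11 / 25 * exp (cT m t))) +
          2 * t * h1 (q * (11 / 25 * exp (cT m t))) + h2 (q * (11 / 25 * exp (cT m t)))) +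
        exp (cT m (t + 6 / 5)) * h2 (q * (11 / 25 * exp (cT m t))))
      ring
    rw [e1] at h
    exact h
  · obtain ⟨z, rfl⟩ : ∃ z, s = t + z := ⟨s - t, by ring⟩
    have hz0 : 0 ≤ z := by linarith only [hs.1]
    have hz1 : z ≤ 6 / 5 := by linarith only [hs.2]
    have b1 := Qm_beh_R hρ hm ht hz0
    have b2 := (win_all z).2 z hz0 le_rfl hz1
    have b3 : exp (cT m t) ≤ exp (pm m (t + z)) := exp_le_exp.2 (sl_pm_ge hm0 (by linarith only [hz0]))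
    have e1 : -t + (t + z) = z := by ring
    have e2 : t + z - t = z := by ring
    rw [Dm_eq, e1, e2]
    have b4 : 11 / 25 * exp (cT m t) * z ^ (2 : ℕ) ≤ exp (pm m (t + z)) * (1 - cos z) := by
      calc 11 / 25 * exp (cT m t) * z ^ (2 : ℕ) = exp (cT m t) * (11 / 25 * z ^ (2 : ℕ)) := by ring
        _ ≤ exp (pm m (t + z)) * (1 - cos z) :=
          mul_le_mul b3 b2 (by positivity) (exp_pos _).le
    linarith only [b1, b4]
  · obtain ⟨z, rfl⟩ : ∃ z, s = t + z := ⟨s - t, by ring⟩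
    have hz0 : 0 ≤ z := by linarith only [hs.1]
    have b1 := Wm_one_R (θ := -t) hm0 (by linarith : 0 ≤ t + z) hs.2 ht5
    have e1 : -t + (t + z) = z := by ring
    have e2 : t + z - t = z := by ring
    rw [e1] at b1
    rw [e2]
    refine b1.trans (le_of_eq ?_)
    field_simp
    ring

theorem zn_imgb (ht : t ≤ π) :
    Zn q m ρ t 1 (Icc (2 * π - t) (2 * π - t + 6 / 5)) (tjL q m ρ (2 * π - t)) := by
  refine Zn.period ?_
  have e : t - 2 * π = -(2 * π - t) := by ring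
  rw [e]
  exact zbeh_R hq hρ hm (by linarith only [ht, pi_pos])

end zones

end SokamCen

end

/-! ### Lib_MP_af4de1_v3.CenTL -/

section
namespace SokamF1
end SokamF1
namespace SokamF1M
end SokamF1M
namespace SokamF1S
end SokamF1S
namespace SokamU
end SokamU
namespace SokamV3
end SokamV3
/-!
# CEN: the total on the left with the direction `w = K/ρ`

Main zone: truncated (`g0`, `gW`) and Pythagoras (`Zone.pyth_L`).  All the other zones: base point `w = 1`, ONE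
triangle inequality.  `TL0 TLW TLE`; the part behind of the image is a parameter `v` (`tkL` of helper82,
`tjL` with slope), `zoneTL`, `shf_TL`.  Rest and far: parameter `u` (`uF`: helper82's far zones, uniform in
`r`; `uL`: rays, only for bounded `r`).
-/

set_option autoImplicit false

namespace SokamCen

open MeasureTheory Set SokamU SokamF1 SokamF1S SokamF1M SokamV3

/-- `b` of the image part behind -/
noncomputable def kb (q m ρ t' : ℝ) : ℝ := q * (AR m ρ (t' + 6 / 5) + 11 / 25)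

/-- `E` of the image part behind -/
noncomputable def kE (q m ρ t' : ℝ) : ℝ := Real.exp (-(q * (AR m ρ (t' + 6 / 5) * t' ^ (2 : ℕ))))

/-- image, behind: helper82's closed form without the slope -/
noncomputable def tkL (q m ρ t' : ℝ) : ℝ × ℝ × ℝ :=
  (kE q m ρ t' * (√(Real.pi / kb q m ρ t') / 2),
    eS (cT m (t' + 6 / 5)) ^ (2 : ℕ) / m ^ (2 : ℕ) * (t' ^ (2 : ℕ) * (kE q m ρ t' * (√(Real.pi / kb q m ρ t') / 2)) +
      2 * t' * (kE q m ρ t' * (1 / (2 * kb q m ρ t'))) +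
      kE q m ρ t' * (√(Real.pi / kb q m ρ t') / (4 * kb q m ρ t'))) +
      Real.exp (cT m (t' + 6 / 5)) * (kE q m ρ t' * (√(Real.pi / kb q m ρ t') / (4 * kb q m ρ t'))),
    Real.exp (cT m (t' + 6 / 5)) * (kE q m ρ t' * (√(Real.pi / kb q m ρ t') / 2)))

theorem kb_pos {q m ρ t' : ℝ} (hq : 0 < q) (hρ : 0 < ρ) (hm : ρ ≤ m) (ht : 0 < t') :
    0 < kb q m ρ t' := by
  have := AR_pos hρ hm (by linarith : 0 < t' + 6 / 5)
  unfold kb
  positivity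

theorem zn_imgk {q m ρ t : ℝ} (hq : 0 < q) (hρ : 0 < ρ) (hm : ρ ≤ m) (ht : t ≤ Real.pi) :
    Zn q m ρ t 1 (Icc (2 * Real.pi - t) (2 * Real.pi - t + 6 / 5)) (tkL q m ρ (2 * Real.pi - t)) := by
  have hm0 : 0 < m := hρ.trans_le hm
  have ht' : 0 < 2 * Real.pi - t := by linarith only [ht, Real.pi_pos]
  have hb := kb_pos hq hρ hm ht'
  have hE : 0 < kE q m ρ (2 * Real.pi - t) := by
    unfold kE
    exact Real.exp_pos _
  exact ⟨⟨by unfold tkL; positivity, by unfold tkL; positivity, by unfold tkL; positivity⟩,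
    imgL_beh hq hρ hm rfl ht' rfl rfl rfl⟩

/-- the other zones, base point `1`; `v` = image behind, `u` = rest and far -/
noncomputable def oL (q m ρ t : ℝ) (v u : ℝ × ℝ × ℝ) : ℝ × ℝ × ℝ :=
  tbL q m ρ t + tfL q m ρ t + tiL q m ρ (2 * Real.pi - t) + v + u

/-- rest and far -/
noncomputable def uL (q m ρ t ε : ℝ) : ℝ × ℝ × ℝ :=
  trL q m ρ ε + tgR q m ρ (2 * Real.pi - t + 5) + tgL q m ρ (t + 5)

/-- far, right end (helper82) -/
noncomputable def tFR (q m ρ c : ℝ) : ℝ × ℝ × ℝ :=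
  (8 * Real.exp (-(q * (AR m ρ c * c ^ (2 : ℕ)))) / √q,
    (24 * (c / m) ^ (2 : ℕ) / √q + 54 / (q * √q)) * Real.exp (-(q * (AR m ρ c * c ^ (2 : ℕ)))),
    22 * Real.exp (-(q * (AR m ρ c * c ^ (2 : ℕ)))) / √q)

/-- far, left end (helper82) -/
noncomputable def tFL (q m ρ c : ℝ) : ℝ × ℝ × ℝ :=
  (8 * Real.exp (-(q * (AL m ρ c * c ^ (2 : ℕ)))) / √q,
    (8 * (c / m) ^ (2 : ℕ) / √q + 54 / (q * √q)) * Real.exp (-(q * (AL m ρ c * c ^ (2 : ℕ)))),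
    8 * Real.exp (-(q * (AL m ρ c * c ^ (2 : ℕ)))) / √q)

/-- rest and far, uniform in `q` -/
noncomputable def uF (q m ρ t ε : ℝ) : ℝ × ℝ × ℝ :=
  trL q m ρ ε + tFR q m ρ (2 * Real.pi - t + 5) + tFL q m ρ (t + 5)

/-- total `I0` -/
noncomputable def TL0 (q m ρ t B l : ℝ) (v u : ℝ × ℝ × ℝ) : ℝ :=
  (tmL' q m ρ t B l).1 + (oL q m ρ t v u).1
/-- total `IW` with the direction `w`, `κ ≥ |w - 1|` -/
noncomputable def TLW (q m ρ t B l : ℝ) (v u : ℝ × ℝ × ℝ) (κ : ℝ) : ℝ :=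
  (1 * (tmL' q m ρ t B l).2.1 + κ ^ (2 : ℕ) * (tmL' q m ρ t B l).1) +
    (√(oL q m ρ t v u).2.1 + κ * √(oL q m ρ t v u).1) ^ (2 : ℕ)
/-- total `Ie` -/
noncomputable def TLE (q m ρ t B l : ℝ) (v u : ℝ × ℝ × ℝ) : ℝ :=
  (tmL' q m ρ t B l).2.2 + (oL q m ρ t v u).2.2

/-- the set of the other zones -/
def So (t : ℝ) : Set ℝ := Icc (-(t + 6 / 5)) (-t) ∪ Icc 0 (6 / 5 - t) ∪
  Icc (max 0 (2 * Real.pi - t - 6 / 5)) (2 * Real.pi - t) ∪
  Icc (2 * Real.pi - t) (2 * Real.pi - t + 6 / 5) ∪ ({s | 6336 / 10000 ≤ 1 - Real.cos (t + s)} ∪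
  Ici (2 * Real.pi - t + 5) ∪ Iic (-(t + 5)))

theorem cov_So {t : ℝ} (h0 : 0 < t) (h1 : t ≤ Real.pi) (s : ℝ) :
    s ∈ Icc (-t) (min 0 (6 / 5 - t)) ∪ So t := by
  have hc := cover_L h0 h1 s
  unfold So
  simp only [mem_union]
  rcases hc with h | h | h | h | h | h | h | h
  · tauto
  · tauto
  · tauto
  · tauto
  · tauto
  · tauto
  · tauto
  · have : s ∈ {s | 6336 / 10000 ≤ 1 - Real.cos (t + s)} := h
    tauto

theorem zn_o {q m ρ t : ℝ} {v u : ℝ × ℝ × ℝ} (hq : 0 < q) (hρ : 0 < ρ) (hm : ρ ≤ m)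
    (hm1 : 5 / 4 ≤ m) (h0 : 0 < t) (h1 : t ≤ Real.pi) (hs : t ≤ 6 / 5 → 1 ≤ q * m * Real.sin t)
    (hv : Zn q m ρ t 1 (Icc (2 * Real.pi - t) (2 * Real.pi - t + 6 / 5)) v)
    (hu : Zn q m ρ t 1 ({s | 6336 / 10000 ≤ 1 - Real.cos (t + s)} ∪ Ici (2 * Real.pi - t + 5) ∪
      Iic (-(t + 5))) u) : Zn q m ρ t 1 (So t) (oL q m ρ t v u) :=
  ((((zn_beh hq hρ hm h0.le).add (zn_front hq hρ hm hm1 h0 hs)).add (zn_img hq hρ hm h1)).add hv).add hu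

/-- THE TOTAL, LEFT, direction `w = K/ρ`. -/
theorem zoneTL {r δ y η g k q m t β B l : ℝ} {v u : ℝ × ℝ × ℝ} (hr : 0 < r) (hA : At r δ y η)
    (hy : 0 ≤ y) (hL : Lev r δ y η g k q) (hm' : r * δ ≤ m) (hm1 : 5 / 4 ≤ m)
    (h0 : 0 < t) (h1 : t ≤ Real.pi) (hW : Win β t) (hLf : Lft m t β B l)
    (hs : t ≤ 6 / 5 → 1 ≤ r * m * Real.sin t)
    (hv : Zn r m (r * δ) t 1 (Icc (2 * Real.pi - t) (2 * Real.pi - t + 6 / 5)) v)
    (hu : Zn r m (r * δ) t 1 ({s | 6336 / 10000 ≤ 1 - Real.cos (t + s)} ∪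
      Ici (2 * Real.pi - t + 5) ∪ Iic (-(t + 5))) u) :
    0 ≤ TL0 r m (r * δ) t B l v u ∧ 0 ≤ TLW r m (r * δ) t B l v u (k * (|η| / √(RR r δ))) ∧
      0 ≤ TLE r m (r * δ) t B l v u ∧
    Zone r m (r * δ) t (sK (r * δ) y / (r * δ : ℝ)) univ (TL0 r m (r * δ) t B l v u)
      (TLW r m (r * δ) t B l v u (k * (|η| / √(RR r δ)))) (TLE r m (r * δ) t B l v u) := by
  have hρ : 0 < r * δ := hA.dom.1
  have hm0 : 0 < m := by linarith only [hm1]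
  have hw := norm_w_sub hr hL
  have hκ : 0 ≤ k * (|η| / √(RR r δ)) := (norm_nonneg _).trans hw
  obtain ⟨⟨a0, a1, a2⟩, zm⟩ := zn_main' hr hρ hm' h0 hW hLf
  obtain ⟨⟨b0, b1, b2⟩, zo⟩ := zn_o hr hρ hm' hm1 h0 h1 hs hv hu
  have hp := Real.pi_gt_three
  have Z1 := Zone.pyth_L measurableSet_Icc hr hm0 hA hy hL a0 a1
    (fun s hs => hs.2.trans (min_le_left _ _)) (fun s hs => hs.1)
    (fun s hs => by
      have := hs.2.trans (min_le_right _ _)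
      linarith only [hp, this]) zm
  have Z2 := zo.tri b0 b1 hw
  have n1 : 0 ≤ 1 * (tmL' r m (r * δ) t B l).2.1 +
      (k * (|η| / √(RR r δ))) ^ (2 : ℕ) * (tmL' r m (r * δ) t B l).1 := by positivity
  have n2 : 0 ≤ (√(oL r m (r * δ) t v u).2.1 +
      k * (|η| / √(RR r δ)) * √(oL r m (r * δ) t v u).1) ^ (2 : ℕ) := sq_nonneg _
  have Z3 := (Z1.union Z2 a0 n1 a2 b0 n2 b2).subset (fun s _ => cov_So h0 h1 s : univ ⊆ _)
  exact ⟨add_nonneg a0 b0, add_nonneg n1 n2, add_nonneg a2 b2, Z3⟩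

theorem mm_ge {ρ : ℝ} : 5 / 4 ≤ mm ρ := by
  unfold mm
  have : (1 : ℝ) ≤ √(1 + ρ ^ (2 : ℕ)) := by
    rw [Real.one_le_sqrt]
    linarith only [sq_nonneg ρ]
  linarith only [this]

theorem mm_ge' {ρ : ℝ} : 5 / 4 * ρ ≤ mm ρ := by
  unfold mm
  have : ρ ≤ √(1 + ρ ^ (2 : ℕ)) := Real.le_sqrt_of_sq_le (by linarith only [])
  linarith only [this]

end SokamCen

end

/-! ### Lib_MP_af4de1_v3.CenURealR -/

section
namespace SokamF1
end SokamF1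
namespace SokamV3
end SokamV3
/-!
# CEN: rest and far as ONE zone, right side, `Γ ≥ 20` (and the constants of helper4's cells)
-/

set_option autoImplicit false

namespace SokamCen

open Real MeasureTheory Set SokamV3 SokamF1

variable {N : ℕ} {r δ η g q : ℝ}

/-- the rest zone from `Zr_one` -/
theorem rest_UB1 {θ d b0 bW be : ℝ} {S : Set ℝ} (mS : MeasurableSet S)
    (hR : Reg1 N r δ) (hd : ∀ s ∈ S, d ≤ Dm (mm (r * δ)) (r * δ) θ s)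
    (h : LvF r δ η g q * √(1 + 1 / mm (r * δ) ^ (2 : ℕ)) * red r (mm (r * δ)) (r * δ) (1 / 20) d ≤ b0 ∧
      LvF r δ η g q * √(1 + 1 / mm (r * δ) ^ (2 : ℕ)) *
        (14 * red r (mm (r * δ)) (r * δ) (1 / 20) d) * (RR r δ / hst N ^ (2 : ℕ)) ≤ bW ∧
      LvF r δ η g q * √(1 + 1 / mm (r * δ) ^ (2 : ℕ)) *
        (3 * red r (mm (r * δ)) (r * δ) (1 / 20) d) / (r * hst N ^ (2 : ℕ) / RR r δ) ≤ be) :
    UB N r δ η g q θ S b0 bW be := by
  have hr0 : 0 < r := by linarith only [hR.r0]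
  have hρ : 0 < r * δ := mul_pos hr0 hR.d0
  have hm := u_m hρ
  have hm0 : 0 < mm (r * δ) := by linarith only [hρ, hm]
  have hre : 0 ≤ red r (mm (r * δ)) (r * δ) (1 / 20) d := by
    unfold red laR
    (clear * - hm0 hr0 hρ; positivity)
  exact ⟨_, _, _, hre, by (clear * - hre; positivity), by (clear * - hre; positivity),
    Zr_one mS hr0 hρ hm (by norm_num) (by norm_num) hd, h⟩

/-- RIGHT, inner own angles, `20 ≤ Γ` -/
theorem uR_Ci {t : ℝ} (hR : Reg1 N r δ) (hG : 20 ≤ Gm N r δ)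
    (hη : |η| ≤ 2 / 5 * hst N) (hg0 : 0 ≤ g) (hg : g ≤ 17 / 10) (hq0 : 0 ≤ q) (hq : q ≤ 33 / 20)
    (ht : |η| + hst N ≤ t) (htp : t ≤ π) :
    UB N r δ η g q (-t) (UsR t) (7 / 1000000) (7 / 100000) (2 / 1000000) := by
  obtain ⟨hh0, hh1⟩ := u_h hR
  have hr0 : 0 < r := by linarith only [hR.r0]
  have hρ : 0 < r * δ := mul_pos hr0 hR.d0
  have hRp : 0 < RR r δ := by unfold RR; (clear * - hρ; positivity)
  have hY : hst N ^ (2 : ℕ) / RR r δ ≤ 11 / 10 := by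
    rw [div_le_iff₀ hRp]
    exact hR.I
  have h := restR_i (q := q) hR.r0 hR.d0 hq0 hq hg0 hg hh0 hh1 hη hG hY
  exact (u_right hR (hη.trans (by linarith only [hh0])) (by linarith only [hg]) hq ht htp
    (rest_UB1 (mS_rest (-t)) hR (fun s hs => Dm_half hρ (u_m hρ) hs) h)).mono subset_rfl
    (by norm_num) (by norm_num) (by norm_num)

/-- RIGHT, `20 ≤ Γ`, `h²/R ≤ 2/5` -/
theorem uR_C0 {t : ℝ} (hR : Reg1 N r δ) (hG : 20 ≤ Gm N r δ)
    (hη : |η| ≤ 3 / 5 * hst N) (hg0 : 0 ≤ g) (hg : g ≤ 17 / 10) (hq0 : 0 ≤ q) (hq : q ≤ 33 / 20)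
    (ht : |η| + hst N ≤ t) (htp : t ≤ π) (hY : hst N ^ (2 : ℕ) / RR r δ ≤ 2 / 5) :
    UB N r δ η g q (-t) (UsR t) (4 / 1000000) (6 / 100000) (1 / 1000000) := by
  obtain ⟨hh0, hh1⟩ := u_h hR
  have hr0 : 0 < r := by linarith only [hR.r0]
  have hρ : 0 < r * δ := mul_pos hr0 hR.d0
  have h := restR_1 (q := q) hR.r0 hR.d0 hq0 hq hg0 hg hh0 hh1 hη hG hY
  exact (u_right hR (hη.trans (by linarith only [hh0])) (by linarith only [hg]) hq ht htp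
    (rest_UB1 (mS_rest (-t)) hR (fun s hs => Dm_half hρ (u_m hρ) hs) h)).mono subset_rfl
    (by norm_num) (by norm_num) (by norm_num)

/-- RIGHT, `20 ≤ Γ`, `h²/R ≤ 37/50` -/
theorem uR_C1 {t : ℝ} (hR : Reg1 N r δ) (hG : 20 ≤ Gm N r δ)
    (hη : |η| ≤ 3 / 5 * hst N) (hg0 : 0 ≤ g) (hg : g ≤ 17 / 10) (hq0 : 0 ≤ q) (hq : q ≤ 33 / 20)
    (ht : |η| + hst N ≤ t) (htp : t ≤ π) (hY : hst N ^ (2 : ℕ) / RR r δ ≤ 37 / 50) :
    UB N r δ η g q (-t) (UsR t) (17 / 100000) (32 / 10000) (3 / 100000) := by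
  obtain ⟨hh0, hh1⟩ := u_h hR
  have hr0 : 0 < r := by linarith only [hR.r0]
  have hρ : 0 < r * δ := mul_pos hr0 hR.d0
  have h := restR_2 (q := q) hR.r0 hR.d0 hq0 hq hg0 hg hh0 hh1 hη hG hY
  exact (u_right hR (hη.trans (by linarith only [hh0])) (by linarith only [hg]) hq ht htp
    (rest_UB1 (mS_rest (-t)) hR (fun s hs => Dm_half hρ (u_m hρ) hs) h)).mono subset_rfl
    (by norm_num) (by norm_num) (by norm_num)

/-- `Dm ≥ 3/5` on the rest zone when `h²/R ≥ 7/10`, `t ≥ 6/5` -/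
theorem u_35 {t : ℝ} (hR : Reg1 N r δ) (htp : t ≤ π) (h65 : 6 / 5 ≤ t)
    (hY : 7 / 10 ≤ hst N ^ (2 : ℕ) / RR r δ) :
    ∀ s, 6336 / 10000 ≤ 1 - cos (-t + s) → 3 / 5 ≤ Dm (mm (r * δ)) (r * δ) (-t) s := by
  obtain ⟨hh0, hh1⟩ := u_h hR
  have hr0 : 0 < r := by linarith only [hR.r0]
  have hρ : 0 < r * δ := mul_pos hr0 hR.d0
  have hRp : 0 < RR r δ := by unfold RR; (clear * - hρ; positivity)
  have hR1 : 1 ≤ RR r δ := by
    unfold RR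
    have := sq_nonneg (r * δ)
    linarith only [this]
  have hR2 : RR r δ ≤ 63 / 10 := by
    rw [le_div_iff₀ hRp] at hY
    nlinarith only [hY, hh0, hh1]
  have hmm : mm (r * δ) = 5 / 4 * √(RR r δ) := rfl
  have hs1 : 1 ≤ √(RR r δ) := Real.one_le_sqrt.2 hR1
  have hs2 : √(RR r δ) ≤ 64 / 25 := by
    rw [Real.sqrt_le_left (by norm_num)]
    linarith only [hR2]
  intro s hs
  exact Dm_35 hρ (u_m hρ) (by rw [hmm]; linarith only [hs1]) (by rw [hmm]; linarith only [hs2]) h65 htp hs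

/-- RIGHT, `20 ≤ Γ`, `h²/R ≥ 37/50`, `t ≥ 6/5` -/
theorem uR_C2 {t : ℝ} (hR : Reg1 N r δ) (hG : 20 ≤ Gm N r δ)
    (hη : |η| ≤ 3 / 5 * hst N) (hg0 : 0 ≤ g) (hg : g ≤ 17 / 10) (hq0 : 0 ≤ q) (hq : q ≤ 33 / 20)
    (ht : |η| + hst N ≤ t) (htp : t ≤ π) (h65 : 6 / 5 ≤ t)
    (hY : 37 / 50 ≤ hst N ^ (2 : ℕ) / RR r δ) :
    UB N r δ η g q (-t) (UsR t) (151 / 500000) (38 / 10000) (6 / 100000) := by
  obtain ⟨hh0, hh1⟩ := u_h hR
  have hRp : 0 < RR r δ := by unfold RR; (clear * -; positivity)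
  have hY1 : hst N ^ (2 : ℕ) / RR r δ ≤ 11 / 10 := by
    rw [div_le_iff₀ hRp]
    exact hR.I
  have h := restR_3 (q := q) hR.r0 hR.d0 hq0 hq hg0 hg hh0 hh1 hη hG hY1
  exact (u_right hR (hη.trans (by linarith only [hh0])) (by linarith only [hg]) hq ht htp
    (rest_UB1 (mS_rest (-t)) hR (fun s hs => u_35 hR htp h65 (by linarith only [hY]) s hs) h)).mono subset_rfl
    (by norm_num) (by norm_num) (by norm_num)

/-- RIGHT, window, `20 ≤ Γ`, `h²/R ≥ 37/50` -/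
theorem uR_Cw {t : ℝ} (hR : Reg1 N r δ) (hG : 20 ≤ Gm N r δ)
    (hη0 : 2 / 5 * hst N ≤ |η|) (hη : |η| ≤ 3 / 5 * hst N) (hg0 : 0 ≤ g) (hg : g ≤ 17 / 10)
    (hq0 : 0 ≤ q) (hq : q ≤ 33 / 20)
    (ht : |η| + hst N ≤ t) (htp : t ≤ π) (hY : 37 / 50 ≤ hst N ^ (2 : ℕ) / RR r δ) :
    UB N r δ η g q (-t) (UsR t) (151 / 500000) (38 / 10000) (6 / 100000) := by
  refine uR_C2 hR hG hη hg0 hg hq0 hq ht htp ?_ hY
  obtain ⟨hh0, hh1⟩ := u_h hR
  have hRp : 0 < RR r δ := by unfold RR; (clear * -; positivity)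
  have hR1 : 1 ≤ RR r δ := by
    unfold RR
    have := sq_nonneg (r * δ)
    linarith only [this]
  rw [le_div_iff₀ hRp] at hY
  have h1 : (6 / 7 : ℝ) ≤ hst N := by
    by_contra hcon
    push Not at hcon
    nlinarith only [hY, hh0, hR1, hcon]
  linarith only [hη0, ht, h1]

end SokamCen

end

/-! ### Lib_MP_af4de1_v3.ShfE0 -/

section
namespace SokamF1
end SokamF1
namespace SokamF1M
end SokamF1M
namespace SokamF1S
end SokamF1S
namespace SokamU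
end SokamU
namespace SokamV3
end SokamV3
/-!
# SHIFT, field `e` (both sides): reduction

`ζ ≥ 2h`: the general `d` (every real shift), `DGL`, `DGR`.
`h ≤ |ζ| ≤ 2h`: `E1L`, `E1R` are the estimates in the units `h' = |ζ|`, `H' = r h'/√R`, with the targets
`3/200`, `(3/100) h/h'`, `(h/h')²`.  With `τ' = eo1/h' = τ0 h/h'`, `Γ' = r h'²/R` the point
`(c, ν, h', τ', Γ')` lies in `DomE τ0 G0`.
-/

set_option autoImplicit false

namespace SokamCen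

open SokamU SokamF1 SokamF1S SokamF1M SokamV3

/-- general `d`, left: every real shift -/
def DGL : Prop := ∀ (N i : ℕ) (r δ y η ζ : ℝ), Reg1 N r δ → At r δ y η → Sad1 N r δ y →
  0 ≤ η → η ≤ eo1 N r δ → 2 ≤ i → i * hst N ≤ ζ → η + ζ ≤ Real.pi →
  Shf r δ y ζ (HH N r δ) ((1 / 2) ^ i / 100) ((1 / 2) ^ i / 100) ((1 / 2) ^ i / 100)

/-- general `d`, right: every real shift -/
def DGR : Prop := ∀ (N i : ℕ) (r δ y η ζ : ℝ), Reg1 N r δ → At r δ y η → Sad1 N r δ y →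
  η ≤ 0 → -eo1 N r δ ≤ η → 2 ≤ i → ζ ≤ -(i * hst N) → -Real.pi ≤ η + ζ →
  Shf r δ y ζ (HH N r δ) ((1 / 2) ^ i / 100) ((1 / 2) ^ i / 100) ((1 / 2) ^ i / 100)

/-- `h ≤ ζ ≤ 2h`, left, in the units of `ζ` -/
def E1L : Prop := ∀ (N : ℕ) (r δ y ζ : ℝ), Reg1 N r δ → At r δ y (eo1 N r δ) → Sad1 N r δ y →
  hst N ≤ ζ → ζ ≤ 2 * hst N → eo1 N r δ + ζ ≤ Real.pi →
  Shf r δ y ζ (r * ζ / √(RR r δ)) (3 / 200) (3 / 100 * (hst N / ζ)) ((hst N / ζ) ^ (2 : ℕ))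

/-- `h ≤ |ζ| ≤ 2h`, right (`ζ = -z`), in the units of `z` -/
def E1R : Prop := ∀ (N : ℕ) (r δ y z : ℝ), Reg1 N r δ → At r δ y (-eo1 N r δ) → Sad1 N r δ y →
  hst N ≤ z → z ≤ 2 * hst N → eo1 N r δ + z ≤ Real.pi →
  Shf r δ y (-z) (r * z / √(RR r δ)) (3 / 200) (3 / 100 * (hst N / z)) ((hst N / z) ^ (2 : ℕ))

private theorem hst_pos {N : ℕ} (hN : N ≠ 0) : 0 < hst N := by
  have h : (1 : ℝ) ≤ N := by exact_mod_cast Nat.one_le_iff_ne_zero.2 hN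
  have := Real.pi_pos
  unfold hst
  positivity

private theorem two_pi_hst {N : ℕ} (hN : N ≠ 0) : (N : ℝ) * hst N = 2 * Real.pi := by
  have h : (N : ℝ) ≠ 0 := by exact_mod_cast hN
  unfold hst
  field_simp

private theorem HH_pos {N : ℕ} {r δ : ℝ} (hN : N ≠ 0) (hr : 0 < r) : 0 < HH N r δ := by
  have h := hst_pos hN
  have hR : 0 < RR r δ := by unfold RR; (clear * -; positivity)
  unfold HH
  (clear * - hr h hR; positivity)

private theorem om1_pos {N : ℕ} {r δ : ℝ} : 0 < om1 N r δ := by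
  unfold om1; split_ifs <;> norm_num

private theorem she_unit {N : ℕ} {r δ y ζ z : ℝ} (hR : Reg1 N r δ) (hz : hst N ≤ z)
    (h : Shf r δ y ζ (r * z / √(RR r δ)) (3 / 200) (3 / 100 * (hst N / z)) ((hst N / z) ^ (2 : ℕ))) :
    Shf r δ y ζ (HH N r δ) (3 / 200) (3 / 100) 1 := by
  have hh := hst_pos (N := N) (by have := hR.N3; omega)
  have hz0 : 0 < z := hh.trans_le hz
  have h1 := shf_scale (H := HH N r δ) (s := z / hst N) h (by
    unfold HH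
    field_simp)
  have e1 : 3 / 100 * (hst N / z) * (z / hst N) = 3 / 100 := by field_simp
  have e2 : (hst N / z) ^ (2 : ℕ) * (z / hst N) ^ (2 : ℕ) = 1 := by field_simp
  rwa [e1, e2] at h1

private theorem she_half (i : ℕ) (hi : 1 ≤ i) : (0 : ℝ) < (1 / 2) ^ i ∧ ((1 / 2 : ℝ)) ^ i ≤ 1 / 2 := by
  refine ⟨by positivity, ?_⟩
  calc ((1 / 2 : ℝ)) ^ i ≤ (1 / 2) ^ (1 : ℕ) := pow_le_pow_of_le_one (by norm_num) (by norm_num) hi
    _ = 1 / 2 := by norm_num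

private theorem eo1_nonneg {N : ℕ} {r δ : ℝ} (hR : Reg1 N r δ) : 0 ≤ eo1 N r δ := by
  have hh := hst_pos (N := N) (by have := hR.N3; omega)
  have ho := om1_pos (N := N) (r := r) (δ := δ)
  unfold eo1
  positivity

/-- FIELD e, LEFT -/
theorem shfL_e_of (D : DGL) (E : E1L) : ∀ (N i : ℕ) (r δ y ζ : ℝ), Reg1 N r δ →
    At r δ y (eo1 N r δ) → Sad1 N r δ y → 1 ≤ i → i * hst N ≤ ζ → eo1 N r δ + ζ ≤ Real.pi →
    Shf r δ y ζ (HH N r δ) ((1 / 2) ^ i * (3 / 100)) ((1 / 2) ^ i * (3 / 50)) 1 := by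
  intro N i r δ y ζ hR hA hS hi h1 h2
  have hh := hst_pos (N := N) (by have := hR.N3; omega)
  have hH := HH_pos (N := N) (r := r) (δ := δ) (by have := hR.N3; omega) (by have := hR.r0; linarith only [this])
  have he := eo1_nonneg hR
  rcases Nat.lt_or_ge i 2 with h | h
  · have hi1 : i = 1 := by omega
    subst hi1
    rw [Nat.cast_one, one_mul] at h1
    rcases le_total ζ (2 * hst N) with h3 | h3
    · exact shf_mono (she_unit hR h1 (E N r δ y ζ hR hA hS h1 h3 h2)) hA.y1 hH.le (by norm_num)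
        (by norm_num) le_rfl
    · exact shf_mono (D N 2 r δ y _ ζ hR hA hS he le_rfl le_rfl (by exact_mod_cast h3) h2) hA.y1
        hH.le (by norm_num) (by norm_num) (by norm_num)
  · obtain ⟨p0, p1⟩ := she_half i hi
    exact shf_mono (D N i r δ y _ ζ hR hA hS he le_rfl h h1 h2) hA.y1 hH.le (by linarith only [p0])
      (by linarith only [p0]) (by linarith only [p1])

/-- FIELD e, RIGHT -/
theorem shfR_e_of (D : DGR) (E : E1R) : ∀ (N i : ℕ) (r δ y ζ : ℝ), Reg1 N r δ →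
    At r δ y (-eo1 N r δ) → Sad1 N r δ y → 1 ≤ i → ζ ≤ -(i * hst N) →
    -Real.pi ≤ -eo1 N r δ + ζ →
    Shf r δ y ζ (HH N r δ) ((1 / 2) ^ i * (3 / 100)) ((1 / 2) ^ i * (3 / 50)) 1 := by
  intro N i r δ y ζ hR hA hS hi h1 h2
  have hh := hst_pos (N := N) (by have := hR.N3; omega)
  have hH := HH_pos (N := N) (r := r) (δ := δ) (by have := hR.N3; omega) (by have := hR.r0; linarith only [this])
  have he := eo1_nonneg hR
  rcases Nat.lt_or_ge i 2 with h | h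
  · have hi1 : i = 1 := by omega
    subst hi1
    rw [Nat.cast_one, one_mul] at h1
    rcases le_total (-ζ) (2 * hst N) with h3 | h3
    · have h4 := E N r δ y (-ζ) hR hA hS (by linarith only [h1]) h3 (by linarith only [h2])
      rw [neg_neg] at h4
      exact shf_mono (she_unit hR (by linarith only [h1]) h4) hA.y1 hH.le (by norm_num)
        (by norm_num) le_rfl
    · exact shf_mono (D N 2 r δ y _ ζ hR hA hS (by linarith only [he]) le_rfl le_rfl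
        (by push_cast; linarith only [h3]) h2) hA.y1
        hH.le (by norm_num) (by norm_num) (by norm_num)
  · obtain ⟨p0, p1⟩ := she_half i hi
    exact shf_mono (D N i r δ y _ ζ hR hA hS (by linarith only [he]) le_rfl h h1 h2) hA.y1 hH.le (by linarith only [p0])
      (by linarith only [p0]) (by linarith only [p1])

/-! ### the domain of the scaled variables -/

/-- the scaled variables of `e`, `i = 1`: `h = |ζ|`, `τ = eo1/|ζ|`, `Γ = r ζ²/R` -/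
structure DomE (τ0 G0 c ν h τ Γ : ℝ) : Prop where
  c0 : 0 < c
  n0 : 0 < ν
  cn : c ^ (2 : ℕ) + ν ^ (2 : ℕ) = 1
  h0 : 0 < h
  u1 : τ0 / 2 ≤ τ
  u2 : τ ≤ τ0
  t : (1 + τ) * h ≤ Real.pi
  /-- `N ≥ 4` -/
  N4 : τ * h ≤ τ0 * (Real.pi / 2)
  G : G0 * τ0 ^ (2 : ℕ) ≤ Γ * τ ^ (2 : ℕ)
  R : 499 / 10 * (h * c) ^ (2 : ℕ) ≤ Γ
  I : (τ * h * c) ^ (2 : ℕ) ≤ 11 / 10 * τ0 ^ (2 : ℕ)

theorem eoe_A {N : ℕ} {r δ : ℝ} (h : Gm N r δ < 10) : eo1 N r δ = 3 / 4 * hst N := by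
  unfold eo1 om1
  rw [if_pos h]
  ring

theorem eoe_B {N : ℕ} {r δ : ℝ} (h : 10 ≤ Gm N r δ) (h2 : Gm N r δ < 20) :
    eo1 N r δ = 13 / 20 * hst N := by
  unfold eo1 om1
  rw [if_neg (not_lt.2 h), if_pos h2]
  ring

theorem eoe_C {N : ℕ} {r δ : ℝ} (h : 20 ≤ Gm N r δ) : eo1 N r δ = 3 / 5 * hst N := by
  unfold eo1 om1
  rw [if_neg (not_lt.2 (by linarith only [h])), if_neg (not_lt.2 h)]
  ring

/-- `N ≥ 4` -/
theorem N4_of {N : ℕ} {r δ z : ℝ} (hR : Reg1 N r δ) (h1 : hst N ≤ z)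
    (h3 : eo1 N r δ + z ≤ Real.pi) : 4 ≤ N ∧ hst N ≤ Real.pi / 2 := by
  have hh := hst_pos (N := N) (by have := hR.N3; omega)
  have h2 := two_pi_hst (N := N) (by have := hR.N3; omega)
  have ho := om1_pos (N := N) (r := r) (δ := δ)
  have hN : 4 ≤ N := by
    by_contra hc
    have h4 : N = 3 := by have := hR.N3; omega
    have h5 : (N : ℝ) = 3 := by exact_mod_cast h4
    rw [h5] at h2
    have h6 : 1 / 2 * hst N < eo1 N r δ := by
      unfold eo1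
      nlinarith only [hh, ho]
    linarith only [h1, h3, h2, h6]
  refine ⟨hN, ?_⟩
  have h5 : (4 : ℝ) ≤ N := by exact_mod_cast hN
  nlinarith only [hh, h2, h5]

theorem domE {N : ℕ} {r δ z τ0 G0 : ℝ} (hR : Reg1 N r δ) (hτ0 : 0 < τ0)
    (hτ : eo1 N r δ = τ0 * hst N) (hG : G0 ≤ Gm N r δ) (h1 : hst N ≤ z) (h2 : z ≤ 2 * hst N)
    (h3 : eo1 N r δ + z ≤ Real.pi) :
    DomE τ0 G0 (1 / √(RR r δ)) (r * δ / √(RR r δ)) z (eo1 N r δ / z) (r * z ^ (2 : ℕ) / RR r δ) := by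
  have hr : 0 < r := by linarith only [hR.r0]
  have hd := hR.d0
  have hh := hst_pos (N := N) (by have := hR.N3; omega)
  have hz : 0 < z := hh.trans_le h1
  obtain ⟨_, hN4⟩ := N4_of hR h1 h3
  have hRR : RR r δ = 1 + (r * δ) ^ (2 : ℕ) := rfl
  have hR0 : 0 < RR r δ := by rw [hRR]; (clear * - hr hd; positivity)
  have hS0 : 0 < √(RR r δ) := Real.sqrt_pos.2 hR0
  have hS2 : √(RR r δ) ^ (2 : ℕ) = RR r δ := Real.sq_sqrt hR0.le
  have hI := hR.I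
  have hGm : Gm N r δ = r * hst N ^ (2 : ℕ) / RR r δ := rfl
  refine ⟨by (clear * - hR0; positivity), by (clear * - hr hd hR0; positivity), ?_, hz, ?_, ?_, ?_, ?_, ?_, ?_, ?_⟩
  · rw [div_pow, div_pow, hS2, ← add_div, div_eq_one_iff_eq hR0.ne', hRR]
    ring
  · rw [hτ, div_le_div_iff₀ (by norm_num) hz]
    nlinarith only [hτ0, h2]
  · rw [hτ, div_le_iff₀ hz]
    exact mul_le_mul_of_nonneg_left h1 hτ0.le
  · have : (1 + eo1 N r δ / z) * z = eo1 N r δ + z := by field_simp; ring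
    rw [this]
    exact h3
  · have : eo1 N r δ / z * z = eo1 N r δ := by field_simp
    rw [this, hτ]
    exact mul_le_mul_of_nonneg_left hN4 hτ0.le
  · have : r * z ^ (2 : ℕ) / RR r δ * (eo1 N r δ / z) ^ (2 : ℕ) = Gm N r δ * τ0 ^ (2 : ℕ) := by
      rw [hτ, hGm]
      field_simp
    rw [this]
    exact mul_le_mul_of_nonneg_right hG (sq_nonneg _)
  · have : (z * (1 / √(RR r δ))) ^ (2 : ℕ) = z ^ (2 : ℕ) / RR r δ := by
      rw [mul_pow, div_pow, hS2]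
      ring
    rw [this, mul_div_assoc]
    exact mul_le_mul_of_nonneg_right hR.r0 (by (clear * - hz hR0; positivity))
  · have : (eo1 N r δ / z * z * (1 / √(RR r δ))) ^ (2 : ℕ) = hst N ^ (2 : ℕ) / RR r δ * τ0 ^ (2 : ℕ) := by
      have e : eo1 N r δ / z * z = τ0 * hst N := by rw [← hτ]; field_simp
      rw [e, mul_pow, mul_pow, div_pow, hS2]
      ring
    rw [this]
    refine mul_le_mul_of_nonneg_right ?_ (sq_nonneg _)
    rw [div_le_iff₀ hR0]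
    exact hI

end SokamCen

end

/-! ### Lib_MP_af4de1_v3.ShfRe0 -/

section
namespace SokamCen
end SokamCen
/-!
# Field `e`, right: the statement of the runs
-/

set_option autoImplicit false

namespace SokamCel

open SokamCen

/-- a run for `E1R`: class with level `(g, k, q)`, `eo1 = τ0 h`, `Γ ≥ G0`; `h = |ζ|`, `τ = eo1/|ζ|` -/
def RunE (q k g τ0 G0 b0 bW be : ℝ) : Prop := ∀ c ν h τ Γ : ℝ, DomE τ0 G0 c ν h τ Γ →
  RunP (5 / 4) (min q (1 + k * τ * (h * c))) k g c ν h τ Γ (bet ((1 + τ) * h)) b0 bW be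
    (3 / 200) (3 / 100 * (τ / τ0)) ((τ / τ0) ^ (2 : ℕ))

end SokamCel

end

/-! ### Lib_MP_af4de1_v3.CelOkE -/

section
namespace SokamFN
end SokamFN
/-!
# Cells, right side: the test of a box of the runs of field `e`, and the constants of the classes (helper4)
-/

set_option autoImplicit false

namespace SokamCel

open SokamFN

/-- the interval of `c` -/
def chC (ch : Bool) (x0 x1 : ℕ) : I := bif ch then (x0, x1) else ico (x0, x1)
/-- the interval of `ν` -/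
def chN (ch : Bool) (x0 x1 : ℕ) : I := bif ch then ico (x0, x1) else (x0, x1)

/-- `π`, upper bound -/
abbrev piX : ℕ := 3454225729823

/-- one box of a run of `e`; `U0`, `U1`: `τ0`, `E` : lower bound of `G0` -/
def okE (P : Par) (U0 U1 E s0 sW se : ℕ) (ch : Bool) (x0 x1 y0 y1 z0 z1 : ℕ) : Bool :=
  let c := chC ch x0 x1
  let C := mk P c (chN ch x0 x1) (y0, y1) (z0, z1)
  let hc := mL y0 c.1
  let v := dL z0 U1
  let w := dU z1 U0
  Nat.blt piX C.t.1 || Nat.blt (ic 11 10).2 (mL (mL v hc) (mL v hc)) ||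
    Nat.blt (piX / 2 + 1) (mL v y0) ||
    chkR P C (max (dL E (mU w w)) (mL (ic 499 10).1 (mL hc hc))) s0 sW se
      16492674416 (mL 32985348833 v) (mL v v)

/-- class `Γ < 10` -/
abbrev pRA : Par := ⟨(1374389534720, 1374389534721), (879609302220, 879609302221),
  (1484340697497, 1484340697498), (659706976665, 659706976666), (1319413953331, 1319413953332)⟩
/-- class `10 ≤ Γ < 20` -/
abbrev pRB : Par := ⟨(1374389534720, 1374389534721), (879609302220, 879609302221),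
  (1561306511441, 1561306511442), (714682558054, 714682558055), (1429365116108, 1429365116109)⟩
/-- class `20 ≤ Γ` -/
abbrev pRC : Par := ⟨(1374389534720, 1374389534721), (879609302220, 879609302221),
  (1814194185830, 1814194185831), (934584883609, 934584883610), (1869169767219, 1869169767220)⟩

end SokamCel

end

/-! ### Lib_MP_af4de1_v3.CelRunE -/

section
namespace SokamFN
end SokamFN
/-!
# Cells, right side: the wrapper of the runs of field `e` (helper4)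

`okE`: one box in (`x` = `c` or `ν`, `h`, `τ`), `Γ ≥ max (G0 τ0²/τ²) (49.9 (h c)²)`, targets `3/200`,
`(3/100) τ/τ0`, `(τ/τ0)²`.
-/

set_option autoImplicit false

namespace SokamCel

open SokamFN

theorem mem_chC {ch : Bool} {x0 x1 : ℕ} {c ν : ℝ} (h : c ^ (2 : ℕ) + ν ^ (2 : ℕ) = 1) (hc : 0 ≤ c)
    (h0 : fx x0 ≤ (bif ch then c else ν)) (h1 : (bif ch then c else ν) ≤ fx x1) :
    Mem c (chC ch x0 x1) := by
  cases ch with
  | true => exact ⟨h0, h1⟩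
  | false => exact chart_n (a := (x0, x1)) ⟨h0, h1⟩ h hc

theorem mem_chN {ch : Bool} {x0 x1 : ℕ} {c ν : ℝ} (h : c ^ (2 : ℕ) + ν ^ (2 : ℕ) = 1) (hν : 0 ≤ ν)
    (h0 : fx x0 ≤ (bif ch then c else ν)) (h1 : (bif ch then c else ν) ≤ fx x1) :
    Mem ν (chN ch x0 x1) := by
  cases ch with
  | true => exact chart_c (a := (x0, x1)) ⟨h0, h1⟩ h hν
  | false => exact ⟨h0, h1⟩

theorem pi_leX : Real.pi ≤ fx piX := by
  have h := Real.pi_lt_d4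
  unfold fx piX
  norm_num at h ⊢
  linarith only [h]

theorem le_piX {x : ℝ} {a : ℕ} (ha : fx a ≤ x) (hx : x ≤ Real.pi) : Nat.blt piX a = false := by
  cases h : Nat.blt piX a with
  | false => rfl
  | true =>
    rw [blt_iff] at h
    have h1 : fx piX < fx a := by
      unfold fx
      have : (piX : ℝ) < (a : ℝ) := by exact_mod_cast h
      gcongr
    linarith only [ha, hx, h1, pi_leX]

theorem blt_false {x y : ℝ} {a b : ℕ} (ha : fx a ≤ x) (hb : y ≤ fx b) (hxy : x ≤ y) :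
    Nat.blt b a = false := by
  cases h : Nat.blt b a with
  | false => rfl
  | true =>
    rw [blt_iff] at h
    have h1 : fx b < fx a := by
      unfold fx
      have : (b : ℝ) < (a : ℝ) := by exact_mod_cast h
      gcongr
    linarith only [ha, hb, hxy, h1]

/-- what a run of `e` proves for a point -/
def PtE (q g kk τ0 G0 b0 bW be : ℝ) (c ν h τ : ℝ) : Prop :=
  ∀ Γ : ℝ, SokamCen.DomE τ0 G0 c ν h τ Γ →
    RunP (5 / 4) (min q (1 + kk * τ * (h * c))) kk g c ν h τ Γ (SokamCen.bet ((1 + τ) * h)) b0 bW be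
      (3 / 200) (3 / 100 * (τ / τ0)) ((τ / τ0) ^ (2 : ℕ))

theorem okE_sound {P : Par} {q g kk τ0 G0 b0 bW be : ℝ} (hP : P.Ok (5 / 4) q g kk)
    {U0 U1 E s0 sW se : ℕ} (hτ0 : 0 < τ0) (hU : fx U0 ≤ τ0) (hU0 : 0 < U0) (hU1 : τ0 ≤ fx U1)
    (hE : fx E ≤ G0) (h0 : b0 ≤ fx s0) (hW : bW ≤ fx sW) (he : be ≤ fx se) {ch : Bool}
    {x0 x1 y0 y1 z0 z1 : ℕ} (hx : okE P U0 U1 E s0 sW se ch x0 x1 y0 y1 z0 z1 = true)
    {c ν h τ : ℝ} (a0 : fx x0 ≤ (bif ch then c else ν)) (a1 : (bif ch then c else ν) ≤ fx x1)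
    (a2 : fx y0 ≤ h) (a3 : h ≤ fx y1) (a4 : fx z0 ≤ τ) (a5 : τ ≤ fx z1) :
    PtE q g kk τ0 G0 b0 bW be c ν h τ := by
  intro Γ D
  have hc := D.c0
  have hν := D.n0
  have hcn := D.cn
  have hh := D.h0
  have hτ : 0 < τ := by linarith only [hτ0, D.u1]
  have hν1 : ν ≤ 1 := by nlinarith only [hcn]
  have mc := mem_chC hcn hc.le a0 a1
  have mn := mem_chN hcn hν.le a0 a1
  have mh : Mem h (y0, y1) := ⟨a2, a3⟩
  have mt : Mem τ (z0, z1) := ⟨a4, a5⟩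
  have hC := mk_has hP mc mn mh mt hν1
  unfold okE at hx
  simp only at hx
  obtain ⟨hcL, ehc⟩ : ∃ x, x = mL y0 (chC ch x0 x1).1 := ⟨_, rfl⟩
  obtain ⟨v, ev⟩ : ∃ x, x = dL z0 U1 := ⟨_, rfl⟩
  obtain ⟨w, ew⟩ : ∃ x, x = dU z1 U0 := ⟨_, rfl⟩
  rw [← ehc, ← ev, ← ew] at hx
  have k1 : fx hcL ≤ h * c := by rw [ehc]; exact mulL a2 mc.1
  have k2 : fx v ≤ τ / τ0 := by rw [ev]; exact divL a4 hU1 hτ0
  have k3 : τ / τ0 ≤ fx w := by rw [ew]; exact divU a5 hU hU0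
  have q1 : Nat.blt piX (mk P (chC ch x0 x1) (chN ch x0 x1) (y0, y1) (z0, z1)).t.1 = false :=
    le_piX hC.ht.1 D.t
  have q2 : Nat.blt (ic 11 10).2 (mL (mL v hcL) (mL v hcL)) = false := by
    have m1 := mulL k2 k1
    have m2 := mulL m1 m1
    have m3 : ((11 : ℕ) : ℝ) / ((10 : ℕ) : ℝ) ≤ fx (ic 11 10).2 := (Mem.const 11 10 (by norm_num)).2
    refine blt_false m2 m3 ?_
    have hI := D.I
    have e : τ / τ0 * (h * c) * (τ / τ0 * (h * c)) = (τ * h * c) ^ (2 : ℕ) / τ0 ^ (2 : ℕ) := by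
      field_simp
    rw [e, div_le_iff₀ (by positivity)]
    push_cast
    exact hI
  have q3 : Nat.blt (piX / 2 + 1) (mL v y0) = false := by
    have m1 := mulL k2 a2
    have m2 := half_up pi_leX
    refine blt_false m1 m2 ?_
    have hN := D.N4
    rw [div_mul_eq_mul_div, div_le_iff₀ hτ0]
    linarith only [hN]
  rw [q1, q2, q3] at hx
  simp only [Bool.false_or] at hx
  have hG : fx (max (dL E (mU w w)) (mL (ic 499 10).1 (mL hcL hcL))) ≤ Γ := by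
    rcases max_cases (dL E (mU w w)) (mL (ic 499 10).1 (mL hcL hcL)) with ⟨e, _⟩ | ⟨e, _⟩
    · rw [e]
      have m1 := mulU k3 k3 (by (clear * - hτ hτ0; positivity))
      have m2 : fx (dL E (mU w w)) ≤ G0 / (τ / τ0 * (τ / τ0)) := divL hE m1 (by (clear * - hτ hτ0; positivity))
      refine m2.trans ?_
      have hGG := D.G
      rw [div_le_iff₀ (by (clear * - hτ hτ0; positivity))]
      have e2 : Γ * (τ / τ0 * (τ / τ0)) = Γ * τ ^ (2 : ℕ) / τ0 ^ (2 : ℕ) := by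
        field_simp
      rw [e2, le_div_iff₀ (by positivity)]
      exact hGG
    · rw [e]
      have m1 := mulL k1 k1
      have m2 := mulL (Mem.const 499 10 (by norm_num)).1 m1
      refine m2.trans ?_
      have hRR := D.R
      push_cast
      rw [← pow_two]
      exact hRR
  refine chkR_run hP hC hG hc hν hν1 hh hτ.le D.t hx h0 hW he ?_ ?_ ?_
  · unfold fx
    norm_num
  · have m1 : fx 32985348833 ≤ 3 / 100 := by unfold fx; norm_num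
    exact mulL m1 k2
  · rw [pow_two]
    exact mulL k2 k2

/-- A RUN of `e`: the two charts, along trees. -/
theorem runE_of {P : Par} {q g kk τ0 G0 b0 bW be : ℝ} (hP : P.Ok (5 / 4) q g kk)
    {U0 U1 E s0 sW se : ℕ} (hτ0 : 0 < τ0) (hU : fx U0 ≤ τ0) (hU0 : 0 < U0) (hU1 : τ0 ≤ fx U1)
    (hE : fx E ≤ G0) (h0 : b0 ≤ fx s0) (hW : bW ≤ fx sW) (he : be ≤ fx se)
    {Y Z : ℕ} {t1 t2 : BT} (hY : Real.pi / (1 + τ0 / 2) ≤ fx Y) (hZ : fx Z ≤ τ0 / 2)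
    (H1 : bisT (okE P U0 U1 E s0 sW se true) t1 0 769658139444 0 Y Z U1 = true)
    (H2 : bisT (okE P U0 U1 E s0 sW se false) t2 0 791648371999 0 Y Z U1 = true) :
    RunE q kk g τ0 G0 b0 bW be := by
  intro c ν h τ Γ D
  have hc := D.c0
  have hν := D.n0
  have hh := D.h0
  have hτ : 0 < τ := by linarith only [hτ0, hν, hh, D.u1]
  have y1 : h ≤ fx Y := by
    refine le_trans ?_ hY
    rw [le_div_iff₀ (by positivity)]
    nlinarith only [hh, D.t, D.u1]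
  have z0 : fx Z ≤ τ := hZ.trans D.u1
  have z1 : τ ≤ fx U1 := D.u2.trans hU1
  have o0 : fx 0 = 0 := fx_zero
  rcases chart D.cn with hx | hx
  · have e1 : (7 : ℝ) / 10 ≤ fx 769658139444 := by unfold fx; norm_num
    exact bisT_sound (P := fun x y z => ∀ ν', ν' = ν → PtE q g kk τ0 G0 b0 bW be x ν' y z)
      (fun x0 x1 y0 y1 z0 z1 hk x y z b0' b1' b2 b3 b4 b5 ν' _ =>
        okE_sound (ch := true) (c := x) (ν := ν') hP hτ0 hU hU0 hU1 hE h0 hW he hk b0' b1' b2 b3 b4 b5)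
      t1 _ _ _ _ _ _ H1 c h τ (by rw [o0]; exact hc.le) (hx.trans e1)
      (by rw [o0]; exact hh.le) y1 z0 z1 ν rfl Γ D
  · have e1 : (18 : ℝ) / 25 ≤ fx 791648371999 := by unfold fx; norm_num
    exact bisT_sound (P := fun x y z => ∀ c', c' = c → PtE q g kk τ0 G0 b0 bW be c' x y z)
      (fun x0 x1 y0 y1 z0 z1 hk x y z b0' b1' b2 b3 b4 b5 c' _ =>
        okE_sound (ch := false) (c := c') (ν := x) hP hτ0 hU hU0 hU1 hE h0 hW he hk b0' b1' b2 b3 b4 b5)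
      t2 _ _ _ _ _ _ H2 ν h τ (by rw [o0]; exact hν.le) (hx.trans e1)
      (by rw [o0]; exact hh.le) y1 z0 z1 c rfl Γ D

end SokamCel

end

/-! ### Lib_MP_af4de1_v3.RunECc -/

section
/-!
# Kernel run, field `e`, right, class C, chart `c` (helper4)
-/

set_option autoImplicit false

namespace SokamCel

def rECc0t : BT := (.X (.Y .L (.Z .L (.Y .L (.Y .L .L)))) (.Y (.Z .L (.X .L .L)) (.Y (.X (.Z .L
  (.X .L .L)) (.Z .L (.Z .L (.Y .L .L)))) (.Y (.X (.Z .L (.Z (.X .L .L) .L)) (.Z .L (.Z (.X .L .L)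
  .L))) (.Z (.X (.X .L (.X .L .L)) (.Y .L (.Z .L (.Y .L .L)))) .L)))))
theorem rECc0 : bisT (okE pRC 659706976665 659706976666 21990232555520 332052512 4178144186 65970698 true) rECc0t 0 769658139444 0 2657189750847 329853488332 659706976666 = true := by
  decide +kernel

theorem rECc : bisT (okE pRC 659706976665 659706976666 21990232555520 332052512 4178144186 65970698 true) rECc0t 0 769658139444 0 2657189750847 329853488332 659706976666 = true := rECc0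

end SokamCel

end

/-! ### Lib_MP_af4de1_v3.BrL1 -/

section
namespace SokamCen
end SokamCen
namespace SokamF1
end SokamF1
namespace SokamFN
end SokamFN
namespace SokamV3
end SokamV3
/-!
# Bridge, left side: behind, front, image behind (helper6)

`PF · I0`, `PF · IW · R/h²` of the zones in helper58's scaled forms.
-/

set_option autoImplicit false

namespace SokamCel

open SokamFN SokamF1 SokamV3 SokamCen Real

/-! ### the half Gaussian -/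

theorem hg1 {B : ℝ} (hB : 0 < B) : 1 / (2 * B) = √(π / B) / 2 * √(1 / (π * B)) := by
  have hpi := pi_pos
  have e : √(π / B) * √(1 / (π * B)) = 1 / B := by
    rw [← Real.sqrt_mul (by positivity)]
    have e1 : π / B * (1 / (π * B)) = (1 / B) ^ (2 : ℕ) := by
      field_simp
    rw [e1, Real.sqrt_sq (by (clear * - hB; positivity))]
  have e2 : √(π / B) / 2 * √(1 / (π * B)) = (√(π / B) * √(1 / (π * B))) / 2 := by ring
  rw [e2, e]
  field_simp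

theorem hg2 {B : ℝ} (hB : 0 < B) : √(π / B) / (4 * B) = √(π / B) / 2 * (1 / (2 * B)) := by
  field_simp
  norm_num

section

variable {r δ η c ν h τ Γ Y : ℝ}

theorem Scl0.s1 (s : Scl0 r δ η c ν h τ Γ) (hY : 0 < Y) :
    √(1 / (π * (r * (Y / ν)))) = h * c * √(ν / (Γ * Y) * (1 / π)) := by
  have h2 := s.c0
  have h3 := s.n0
  have h4 := s.h0
  have h5 := s.Gpos
  have hpi := pi_pos
  have e : h * c = √((h * c) ^ (2 : ℕ)) := (Real.sqrt_sq (by (clear * - h4 h2; positivity))).symm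
  rw [e, ← Real.sqrt_mul (by (clear * - h4 h2; positivity)), s.er]
  congr 1
  field_simp

theorem Scl0.s2 (s : Scl0 r δ η c ν h τ Γ) (hY : 0 < Y) :
    1 / (2 * (r * (Y / ν))) = (h * c) ^ (2 : ℕ) * (ν / (Γ * Y)) / 2 := by
  have h2 := s.c0
  have h3 := s.n0
  have h4 := s.h0
  have h5 := s.Gpos
  rw [s.er]
  field_simp

/-- `PF √(π/(r Y/ν))` -/
theorem Scl0.PH (s : Scl0 r δ η c ν h τ Γ) (hY : 0 < Y) {g q : ℝ} (hq : 0 ≤ q) :
    PF r δ η g q * √(π / (r * (Y / ν))) =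
      √(q * (1 + c ^ (2 : ℕ) / (5 / 4) ^ (2 : ℕ)) / (2 * Y)) * exp (g / 2 * Γ * τ ^ (2 : ℕ)) := by
  have h3 := s.n0
  have h4 := s.P (g := g) (q := q) (μ := 5 / 4) (X := Y / ν) hq (by norm_num) (by positivity)
  unfold PF
  rw [s.em, h4]
  congr 2
  field_simp

theorem Scl0.hR (s : Scl0 r δ η c ν h τ Γ) : RR r δ / h ^ (2 : ℕ) = 1 / (h * c) ^ (2 : ℕ) := by
  have h2 := s.c0
  have h4 := s.h0
  rw [s.eRR]
  field_simp

end

/-! ### the slopes -/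

theorem max_inv {x : ℝ} (hx : 0 < x) : min 1 (1 / x) = 1 / max 1 x := by
  rcases le_total 1 x with h | h
  · rw [max_eq_right h, min_eq_right]
    rw [div_le_one hx]
    exact h
  · rw [max_eq_left h, min_eq_left, div_one]
    rw [le_div_iff₀ hx, one_mul]
    exact h

theorem AL_eq {μ c ν t : ℝ} (hμ : 0 < μ) (hc : 0 < c) (hν : 0 < ν) (ht : 0 < t) :
    AL (μ / c) (ν / c) t = La μ ν (t * c / μ) * c ^ (2 : ℕ) / ν := by
  have e1 : μ / c / t = 1 / (t * c / μ) := by field_simp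
  have hm : (0 : ℝ) < max 1 (t * c / μ) := lt_max_of_lt_left one_pos
  unfold AL aL La
  rw [e1, max_inv (by positivity)]
  field_simp

theorem cT_eq {μ c t : ℝ} (hμ : 0 < μ) (hc : 0 < c) : cT (μ / c) t = min 1 (t * c / μ) := by
  unfold cT
  congr 1
  field_simp

theorem AR_eq' {μ c ν t : ℝ} (hμ : 0 < μ) (hc : 0 < c) (hν : 0 < ν) (ht : 0 < t) :
    AR (μ / c) (ν / c) t = Lr μ ν (t * c / μ) * c ^ (2 : ℕ) / ν := by
  have e1 : μ / c / t = 1 / (t * c / μ) := by field_simp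
  have hm : (0 : ℝ) < max 1 (t * c / μ) := lt_max_of_lt_left one_pos
  unfold AR aR Lr
  rw [e1, max_inv (by positivity), cT_eq hμ hc]
  field_simp

theorem La_pos {μ ν T : ℝ} (hμ : 1 ≤ μ) (h1 : ν < 1) : 0 < La μ ν T := by
  have hm : (0 : ℝ) < max 1 T := lt_max_of_lt_left one_pos
  unfold La
  have : 0 < μ - ν / 2 := by linarith
  (clear * - this hμ; positivity)

theorem Lr_pos {μ ν T : ℝ} (hμ : 1 ≤ μ) (h0 : 0 < ν) (h1 : ν < 1) (hT : 0 ≤ T) : 0 < Lr μ ν T := by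
  have hm : (0 : ℝ) < max 1 T := lt_max_of_lt_left one_pos
  obtain ⟨x, hx⟩ : ∃ x, x = min 1 T := ⟨_, rfl⟩
  have x0 : 0 ≤ x := by rw [hx]; exact le_min one_pos.le hT
  have x1 : x ≤ 1 := by rw [hx]; exact min_le_left _ _
  unfold Lr
  rw [← hx]
  have h2 : (1 + x / 3 + 5 * x ^ (2 : ℕ) / 48) / 2 ≤ 23 / 32 := by nlinarith only [x0, x1]
  have h3 : 0 ≤ (1 + x / 3 + 5 * x ^ (2 : ℕ) / 48) / 2 := by (clear * - x0; positivity)
  have h4 : ν * ((1 + x / 3 + 5 * x ^ (2 : ℕ) / 48) / 2) ≤ 1 * (23 / 32) :=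
    mul_le_mul h1.le h2 h3 one_pos.le
  have : 0 < μ - ν * ((1 + x / 3 + 5 * x ^ (2 : ℕ) / 48) / 2) := by linarith
  (clear * - this hμ; positivity)

section

variable {r δ η c ν h τ Γ : ℝ}

/-! ### behind -/

theorem Scl0.bA (s : Scl0 r δ η c ν h τ Γ) :
    SokamCen.bA (mm (r * δ)) (r * δ) ((1 + τ) * h) = La (5 / 4) ν (LT2 (5 / 4) c h τ) * c ^ (2 : ℕ) / ν := by
  have h2 := s.c0
  have h3 := s.n0
  have h4 := s.h0
  have h5 := s.u0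
  unfold SokamCen.bA LT2
  rw [s.em, s.eρ, AL_eq (by norm_num) h2 h3 (by (clear * - h5 h4; positivity))]

theorem Scl0.bB (s : Scl0 r δ η c ν h τ Γ) :
    SokamCen.bB (mm (r * δ)) (r * δ) ((1 + τ) * h) = LQb (5 / 4) c ν h τ / ν := by
  have h2 := s.c0
  have h3 := s.n0
  unfold SokamCen.bB LQb
  rw [s.bA]
  have e : ((1 + τ) * h + 6 / 5) / mm (r * δ) = LT2 (5 / 4) c h τ := by
    unfold LT2
    rw [s.em]
    field_simp
  rw [e]
  field_simp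

theorem LQb_pos {μ c ν h τ : ℝ} (hμ : 1 ≤ μ) (hc : 0 < c) (h0 : 0 < ν) (h1 : ν < 1) :
    0 < LQb μ c ν h τ := by
  have := La_pos (T := LT2 μ c h τ) hμ h1
  unfold LQb
  positivity

theorem Scl0.beh0 (s : Scl0 r δ η c ν h τ Γ) {g q : ℝ} (hq : 0 ≤ q) :
    PF r δ η g q * bH0 r (mm (r * δ)) (r * δ) ((1 + τ) * h) = LB0 (5 / 4) q g c ν h τ Γ := by
  have h2 := s.c0
  have h3 := s.n0
  have h4 := s.h0
  have hY := LQb_pos (μ := 5 / 4) (h := h) (τ := τ) (by norm_num) h2 h3 s.n1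
  have hP := s.PH (g := g) hY hq
  unfold bH0 LB0
  rw [s.bA, s.bB]
  have e1 : exp (-(r * (La (5 / 4) ν (LT2 (5 / 4) c h τ) * c ^ (2 : ℕ) / ν) * ((1 + τ) * h) ^ (2 : ℕ))) *
      exp (g / 2 * Γ * τ ^ (2 : ℕ)) = exp (-(Γ * ((1 + τ) ^ (2 : ℕ) * (La (5 / 4) ν (LT2 (5 / 4) c h τ) / ν) -
        g / 2 * τ ^ (2 : ℕ)))) := by
    rw [← exp_add, s.er]
    congr 1
    field_simp
    ring
  rw [← e1]
  linear_combination (exp (-(r * (La (5 / 4) ν (LT2 (5 / 4) c h τ) * c ^ (2 : ℕ) / ν) *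
    ((1 + τ) * h) ^ (2 : ℕ))) / 2) * hP

theorem Scl0.beh1 (s : Scl0 r δ η c ν h τ Γ) :
    bH1 r (mm (r * δ)) (r * δ) ((1 + τ) * h) = bH0 r (mm (r * δ)) (r * δ) ((1 + τ) * h) *
      (h * c * √(ν / (Γ * LQb (5 / 4) c ν h τ) * (1 / π))) := by
  have h2 := s.c0
  have h3 := s.n0
  have hY := LQb_pos (μ := 5 / 4) (h := h) (τ := τ) (by norm_num) h2 h3 s.n1
  have hr := s.rpos
  have k1 := hg1 (B := r * (LQb (5 / 4) c ν h τ / ν)) (by (clear * - hr hY h3; positivity))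
  rw [s.s1 hY] at k1
  unfold bH1 bH0
  rw [s.bB]
  obtain ⟨E, hE⟩ : ∃ E, E = exp (-(r * SokamCen.bA (mm (r * δ)) (r * δ) ((1 + τ) * h) *
    ((1 + τ) * h) ^ (2 : ℕ))) := ⟨_, rfl⟩
  rw [← hE, div_eq_mul_one_div E, k1]
  ring

theorem Scl0.beh2 (s : Scl0 r δ η c ν h τ Γ) :
    bH2 r (mm (r * δ)) (r * δ) ((1 + τ) * h) = bH0 r (mm (r * δ)) (r * δ) ((1 + τ) * h) *
      ((h * c) ^ (2 : ℕ) * (ν / (Γ * LQb (5 / 4) c ν h τ)) / 2) := by
  have h2 := s.c0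
  have h3 := s.n0
  have hY := LQb_pos (μ := 5 / 4) (h := h) (τ := τ) (by norm_num) h2 h3 s.n1
  have hr := s.rpos
  have k1 := hg2 (B := r * (LQb (5 / 4) c ν h τ / ν)) (by (clear * - hr hY h3; positivity))
  rw [s.s2 hY] at k1
  unfold bH2 bH0
  rw [s.bB]
  obtain ⟨E, hE⟩ : ∃ E, E = exp (-(r * SokamCen.bA (mm (r * δ)) (r * δ) ((1 + τ) * h) *
    ((1 + τ) * h) ^ (2 : ℕ))) := ⟨_, rfl⟩
  rw [← hE, mul_div_assoc E, k1]
  ring

/-- BEHIND: `PF · I0`, `PF · IW · R/h²`, `PF · Ie` -/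
theorem Scl0.beh (s : Scl0 r δ η c ν h τ Γ) {g q : ℝ} (hq : 0 ≤ q) :
    PF r δ η g q * (tbL r (mm (r * δ)) (r * δ) ((1 + τ) * h)).1 = LB0 (5 / 4) q g c ν h τ Γ ∧
    PF r δ η g q * (tbL r (mm (r * δ)) (r * δ) ((1 + τ) * h)).2.1 * (RR r δ / h ^ (2 : ℕ)) =
      LB0 (5 / 4) q g c ν h τ Γ * LBW (5 / 4) c ν h τ Γ ∧
    PF r δ η g q * (tbL r (mm (r * δ)) (r * δ) ((1 + τ) * h)).2.2 = LB0 (5 / 4) q g c ν h τ Γ := by
  have h2 := s.c0
  have h4 := s.h0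
  refine ⟨s.beh0 hq, ?_, s.beh0 hq⟩
  unfold tbL
  show PF r δ η g q * ((((1 + τ) * h) ^ (2 : ℕ) * bH0 r (mm (r * δ)) (r * δ) ((1 + τ) * h) +
    2 * ((1 + τ) * h) * bH1 r (mm (r * δ)) (r * δ) ((1 + τ) * h) +
    bH2 r (mm (r * δ)) (r * δ) ((1 + τ) * h)) / mm (r * δ) ^ (2 : ℕ) +
    bH2 r (mm (r * δ)) (r * δ) ((1 + τ) * h)) * (RR r δ / h ^ (2 : ℕ)) = _
  rw [s.beh1, s.beh2, ← s.beh0 hq, s.hR, s.em]
  unfold LBW
  field_simp
  ring

/-! ### front -/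

theorem Lf_pos {μ ν : ℝ} (hμ : 1 ≤ μ) (h1 : ν < 1) : 0 < Lf μ ν := by
  unfold Lf
  have : 0 < μ - 23 / 32 * ν := by linarith
  positivity

theorem Scl0.aR1 (s : Scl0 r δ η c ν h τ Γ) :
    aR (mm (r * δ)) (r * δ) 1 = (Lf (5 / 4) ν * c ^ (2 : ℕ)) / ν := by
  have h2 := s.c0
  have h3 := s.n0
  unfold aR Lf
  rw [s.em, s.eρ]
  field_simp
  ring

/-- FRONT, `t ≤ 6/5` -/
theorem Scl0.fro (s : Scl0 r δ η c ν h τ Γ) {g q : ℝ} (hq : 0 ≤ q) (ht : (1 + τ) * h ≤ 6 / 5) :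
    PF r δ η g q * (tfL r (mm (r * δ)) (r * δ) ((1 + τ) * h)).1 = LF0 (5 / 4) q g c ν h τ Γ ∧
    PF r δ η g q * (tfL r (mm (r * δ)) (r * δ) ((1 + τ) * h)).2.1 * (RR r δ / h ^ (2 : ℕ)) =
      LF0 (5 / 4) q g c ν h τ Γ * (LFW (5 / 4) c ν τ Γ / c ^ (2 : ℕ)) ∧
    PF r δ η g q * (tfL r (mm (r * δ)) (r * δ) ((1 + τ) * h)).2.2 = LF0 (5 / 4) q g c ν h τ Γ := by
  have h2 := s.c0
  have h3 := s.n0
  have h4 := s.h0
  have h5 := s.u0
  have h6 := s.Gpos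
  have hL := Lf_pos (μ := 5 / 4) (by norm_num) s.n1
  have hY : 0 < Lf (5 / 4) ν * c ^ (2 : ℕ) := by (clear * - hL h2; positivity)
  have hr := s.rpos
  have hP := s.PH (g := g) hY hq
  have ht0 : 0 < (1 + τ) * h := by (clear * - h5 h4; positivity)
  have e0 : √(q * (1 + c ^ (2 : ℕ) / (5 / 4) ^ (2 : ℕ)) / (2 * (Lf (5 / 4) ν * c ^ (2 : ℕ)))) =
      √(q * (1 + c ^ (2 : ℕ) / (5 / 4) ^ (2 : ℕ)) / (2 * Lf (5 / 4) ν)) * (1 / c) := by
    have e : 1 / c = √((1 / c) ^ (2 : ℕ)) := (Real.sqrt_sq (by (clear * - h2; positivity))).symm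
    rw [e, ← Real.sqrt_mul (by (clear * - hq h2 hL; positivity))]
    congr 1
    field_simp
  have e1 : exp (-(r * (1 - cos ((1 + τ) * h)))) * exp (g / 2 * Γ * τ ^ (2 : ℕ)) =
      exp (-(Γ * ((1 + τ) ^ (2 : ℕ) * bq ((1 + τ) * h) / c ^ (2 : ℕ) - g / 2 * τ ^ (2 : ℕ)))) := by
    rw [← exp_add, s.er]
    congr 1
    unfold bq
    field_simp
    ring
  have key : PF r δ η g q * (exp (-(r * (1 - cos ((1 + τ) * h)))) *
      (√(π / (r * (Lf (5 / 4) ν * c ^ (2 : ℕ) / ν))) / 2)) = LF0 (5 / 4) q g c ν h τ Γ := by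
    unfold LF0
    rw [← e1]
    rw [e0] at hP
    linear_combination (exp (-(r * (1 - cos ((1 + τ) * h)))) / 2) * hP
  unfold tfL
  rw [if_pos ht, s.aR1]
  refine ⟨key, ?_, key⟩
  show PF r δ η g q * (exp (-(r * (1 - cos ((1 + τ) * h)))) * (((1 + τ) * h) ^ (2 : ℕ) *
    (√(π / (r * (Lf (5 / 4) ν * c ^ (2 : ℕ) / ν))) / 2) + 2 * ((1 + τ) * h) *
    h1 (r * (Lf (5 / 4) ν * c ^ (2 : ℕ) / ν)) + (1 + 9 / (8 * mm (r * δ) ^ (2 : ℕ))) *
    SokamCen.h2 (r * (Lf (5 / 4) ν * c ^ (2 : ℕ) / ν)))) * (RR r δ / h ^ (2 : ℕ)) = _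
  unfold h1 SokamCen.h2
  have hB : 0 < r * (Lf (5 / 4) ν * c ^ (2 : ℕ) / ν) := by (clear * - hr hL h2 h3; positivity)
  have k1 := hg1 hB
  rw [s.s1 hY] at k1
  have k2 := hg2 hB
  rw [s.s2 hY] at k2
  rw [k2, k1, s.hR, s.em, ← key]
  have e2 : √(ν / (Γ * (Lf (5 / 4) ν * c ^ (2 : ℕ))) * (1 / π)) =
      √(ν / (Γ * Lf (5 / 4) ν) * (1 / π)) * (1 / c) := by
    have hpi := pi_pos
    have e : 1 / c = √((1 / c) ^ (2 : ℕ)) := (Real.sqrt_sq (by (clear * - h2; positivity))).symm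
    rw [e, ← Real.sqrt_mul (by (clear * - h3 h6 hL; positivity))]
    congr 1
    field_simp
  rw [e2]
  unfold LFW
  field_simp

/-! ### image, behind -/

theorem brS_le {T : ℝ} (h0 : 0 < T) : eS T ≤ (1 + exp T) / 2 := by
  unfold eS
  rw [div_le_iff₀ h0]
  -- `(exp T - 1) ≤ (1 + exp T)/2 * T`
  have key : ∀ x : ℝ, 0 ≤ x → 0 ≤ (1 + exp x) / 2 * x - (exp x - 1) := by
    intro x hx
    have hm : MonotoneOn (fun x : ℝ => (1 + exp x) / 2 * x - (exp x - 1)) (Set.Ici 0) := by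
      apply monotoneOn_of_deriv_nonneg (convex_Ici 0)
      · fun_prop
      · fun_prop
      · intro z hz
        rw [interior_Ici] at hz
        have hz0 : 0 < z := hz
        have hd : HasDerivAt (fun x : ℝ => (1 + exp x) / 2 * x - (exp x - 1))
            ((exp z / 2) * z + (1 + exp z) / 2 * 1 - exp z) z := by
          have h1 := (((Real.hasDerivAt_exp z).const_add 1).div_const 2).mul (hasDerivAt_id z)
          have h2 := (Real.hasDerivAt_exp z).sub_const 1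
          exact h1.sub h2
        rw [hd.deriv]
        -- `1 + z e^z - e^z ≥ 0`
        have h3 : (1 - z) * exp z ≤ 1 := by
          have h4 := Real.add_one_le_exp (-z)
          have h5 : exp (-z) * exp z = 1 := by rw [← exp_add]; simp
          nlinarith only [h4, h5, exp_pos z]
        linarith only [h3]
    have := hm (Set.mem_Ici.2 le_rfl) (Set.mem_Ici.2 hx) hx
    simpa using this
  have := key T h0.le
  linarith

theorem Ltp_pos {h τ : ℝ} (ht : (1 + τ) * h ≤ π) : 0 < Ltp h τ := by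
  unfold Ltp
  linarith [pi_pos]

theorem LQi_pos {μ c ν T : ℝ} (hμ : 1 ≤ μ) (hc : 0 < c) (h0 : 0 < ν) (h1 : ν < 1) (hT : 0 ≤ T) :
    0 < LQi μ c ν T := by
  have := Lr_pos hμ h0 h1 hT
  unfold LQi
  positivity

theorem Scl0.kb (s : Scl0 r δ η c ν h τ Γ) (ht : (1 + τ) * h ≤ π) :
    SokamCen.kb r (mm (r * δ)) (r * δ) (Ltp h τ) = r * (LQi (5 / 4) c ν (LT3 (5 / 4) c h τ) / ν) := by
  have h2 := s.c0
  have h3 := s.n0
  have h4 := Ltp_pos ht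
  unfold SokamCen.kb LQi LT3
  rw [s.em, s.eρ, AR_eq' (by norm_num) h2 h3 (by positivity)]
  field_simp

theorem Scl0.cT3 (s : Scl0 r δ η c ν h τ Γ) :
    cT (mm (r * δ)) (Ltp h τ + 6 / 5) = min 1 (LT3 (5 / 4) c h τ) := by
  have h2 := s.c0
  unfold LT3
  rw [s.em, cT_eq (by norm_num) h2]

/-- IMAGE, BEHIND -/
theorem Scl0.imb (s : Scl0 r δ η c ν h τ Γ) {g q : ℝ} (hq : 0 ≤ q) (ht : (1 + τ) * h ≤ π) :
    PF r δ η g q * (tkL r (mm (r * δ)) (r * δ) (Ltp h τ)).1 = LJ0 (5 / 4) q g c ν h τ Γ ∧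
    PF r δ η g q * (tkL r (mm (r * δ)) (r * δ) (Ltp h τ)).2.1 * (RR r δ / h ^ (2 : ℕ)) ≤
      LJ0 (5 / 4) q g c ν h τ Γ * LJW (5 / 4) c ν h τ Γ ∧
    PF r δ η g q * (tkL r (mm (r * δ)) (r * δ) (Ltp h τ)).2.2 =
      Le (5 / 4) c h τ * LJ0 (5 / 4) q g c ν h τ Γ := by
  have h2 := s.c0
  have h3 := s.n0
  have h4 := s.h0
  have h5 := s.u0
  have h6 := s.Gpos
  have htp := Ltp_pos ht
  have hr := s.rpos
  have hT3 : 0 < LT3 (5 / 4) c h τ := by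
    unfold LT3
    (clear * - htp h2; positivity)
  have hY := LQi_pos (μ := 5 / 4) (T := LT3 (5 / 4) c h τ) (by norm_num) h2 h3 s.n1 hT3.le
  have hA := Lr_pos (μ := 5 / 4) (T := LT3 (5 / 4) c h τ) (by norm_num) h3 s.n1 hT3.le
  have hP := s.PH (g := g) hY hq
  have hB : 0 < r * (LQi (5 / 4) c ν (LT3 (5 / 4) c h τ) / ν) := by (clear * - hr hY h3; positivity)
  have eA : AR (mm (r * δ)) (r * δ) (Ltp h τ + 6 / 5) =
      Lr (5 / 4) ν (LT3 (5 / 4) c h τ) * c ^ (2 : ℕ) / ν := by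
    unfold LT3
    rw [s.em, s.eρ, AR_eq' (by norm_num) h2 h3 (by (clear * - htp; positivity))]
  have e1 : kE r (mm (r * δ)) (r * δ) (Ltp h τ) * exp (g / 2 * Γ * τ ^ (2 : ℕ)) =
      exp (-(Γ * (Lr (5 / 4) ν (LT3 (5 / 4) c h τ) / ν * (Ltp h τ / h) ^ (2 : ℕ) - g / 2 * τ ^ (2 : ℕ)))) := by
    unfold kE
    rw [eA, ← exp_add, s.er]
    congr 1
    field_simp
    ring
  have key : PF r δ η g q * (kE r (mm (r * δ)) (r * δ) (Ltp h τ) *
      (√(π / (r * (LQi (5 / 4) c ν (LT3 (5 / 4) c h τ) / ν))) / 2)) =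
      LJ0 (5 / 4) q g c ν h τ Γ := by
    unfold LJ0
    rw [← e1]
    linear_combination (kE r (mm (r * δ)) (r * δ) (Ltp h τ) / 2) * hP
  have k1 := hg1 hB
  rw [s.s1 hY] at k1
  have k2 := hg2 hB
  rw [s.s2 hY] at k2
  have eL : exp (cT (mm (r * δ)) (Ltp h τ + 6 / 5)) = Le (5 / 4) c h τ := by
    rw [s.cT3]
    rfl
  have hm0 : 0 < min 1 (LT3 (5 / 4) c h τ) := lt_min one_pos hT3
  have hS : eS (cT (mm (r * δ)) (Ltp h τ + 6 / 5)) ≤ (1 + Le (5 / 4) c h τ) / 2 := by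
    rw [s.cT3]
    exact brS_le hm0
  have hS0 : 0 ≤ eS (cT (mm (r * δ)) (Ltp h τ + 6 / 5)) := by
    rw [s.cT3]
    exact eS_nonneg hm0
  unfold tkL
  rw [s.kb ht]
  refine ⟨key, ?_, ?_⟩
  · show PF r δ η g q * (eS (cT (mm (r * δ)) (Ltp h τ + 6 / 5)) ^ (2 : ℕ) / mm (r * δ) ^ (2 : ℕ) *
      ((Ltp h τ) ^ (2 : ℕ) * (kE r (mm (r * δ)) (r * δ) (Ltp h τ) *
        (√(π / (r * (LQi (5 / 4) c ν (LT3 (5 / 4) c h τ) / ν))) / 2)) +
      2 * (Ltp h τ) * (kE r (mm (r * δ)) (r * δ) (Ltp h τ) *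
        (1 / (2 * (r * (LQi (5 / 4) c ν (LT3 (5 / 4) c h τ) / ν))))) +
      kE r (mm (r * δ)) (r * δ) (Ltp h τ) *
        (√(π / (r * (LQi (5 / 4) c ν (LT3 (5 / 4) c h τ) / ν))) /
          (4 * (r * (LQi (5 / 4) c ν (LT3 (5 / 4) c h τ) / ν))))) +
      exp (cT (mm (r * δ)) (Ltp h τ + 6 / 5)) * (kE r (mm (r * δ)) (r * δ) (Ltp h τ) *
        (√(π / (r * (LQi (5 / 4) c ν (LT3 (5 / 4) c h τ) / ν))) /
          (4 * (r * (LQi (5 / 4) c ν (LT3 (5 / 4) c h τ) / ν)))))) * (RR r δ / h ^ (2 : ℕ)) ≤ _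
    rw [k2, k1, eL, s.hR, s.em]
    obtain ⟨S, hSe⟩ : ∃ S, S = eS (cT (5 / 4 / c) (Ltp h τ + 6 / 5)) := ⟨_, rfl⟩
    rw [s.em] at hS hS0
    rw [← hSe] at hS hS0 ⊢
    obtain ⟨L, hLe⟩ : ∃ L, L = Le (5 / 4) c h τ := ⟨_, rfl⟩
    rw [← hLe] at hS
    unfold LJW
    rw [← hLe, ← key]
    rw [s.em] at key ⊢
    obtain ⟨Q, hQ⟩ : ∃ Q, Q = LQi (5 / 4) c ν (LT3 (5 / 4) c h τ) := ⟨_, rfl⟩
    rw [← hQ] at hY ⊢
    obtain ⟨R, hRe⟩ : ∃ R, R = √(ν / (Γ * Q) * (1 / π)) := ⟨_, rfl⟩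
    have hR0 : 0 ≤ R := by rw [hRe]; exact Real.sqrt_nonneg _
    rw [← hRe]
    obtain ⟨K, hK⟩ : ∃ K, K = kE r (5 / 4 / c) (r * δ) (Ltp h τ) * (√(π / (r * (Q / ν))) / 2) :=
      ⟨_, rfl⟩
    have hK0 : 0 ≤ K := by
      rw [hK]
      unfold kE
      (clear * - hr hY h3; positivity)
    have hPF := PF_nonneg r δ η g q
    obtain ⟨P, hPe⟩ : ∃ P, P = PF r δ η g q := ⟨_, rfl⟩
    rw [← hPe] at hPF ⊢
    have e5 : P * (S ^ (2 : ℕ) / (5 / 4 / c) ^ (2 : ℕ) * (Ltp h τ ^ (2 : ℕ) * (kE r (5 / 4 / c) (r * δ) (Ltp h τ) *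
        (√(π / (r * (Q / ν))) / 2)) + 2 * Ltp h τ * (kE r (5 / 4 / c) (r * δ) (Ltp h τ) *
        (√(π / (r * (Q / ν))) / 2 * (h * c * R))) + kE r (5 / 4 / c) (r * δ) (Ltp h τ) *
        (√(π / (r * (Q / ν))) / 2 * ((h * c) ^ (2 : ℕ) * (ν / (Γ * Q)) / 2))) +
        L * (kE r (5 / 4 / c) (r * δ) (Ltp h τ) *
        (√(π / (r * (Q / ν))) / 2 * ((h * c) ^ (2 : ℕ) * (ν / (Γ * Q)) / 2)))) * (1 / (h * c) ^ (2 : ℕ)) =
        P * K * (S ^ (2 : ℕ) / (5 / 4) ^ (2 : ℕ) * ((Ltp h τ / h) ^ (2 : ℕ) + 2 * (Ltp h τ / h) * (c * R)) +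
          (S ^ (2 : ℕ) / (5 / 4) ^ (2 : ℕ) * c ^ (2 : ℕ) + L) * (ν / (Γ * Q)) / 2) := by
      rw [hK]
      field_simp
      ring
    rw [e5, ← hK]
    refine mul_le_mul_of_nonneg_left ?_ (by (clear * - hPF hK0; positivity))
    have h7 : S ^ (2 : ℕ) ≤ ((1 + L) / 2) ^ (2 : ℕ) := pow_le_pow_left₀ hS0 hS 2
    have h8 : S ^ (2 : ℕ) / (5 / 4) ^ (2 : ℕ) ≤ ((1 + L) / 2) ^ (2 : ℕ) / (5 / 4) ^ (2 : ℕ) := by gcongr
    gcongr
  · show PF r δ η g q * (exp (cT (mm (r * δ)) (Ltp h τ + 6 / 5)) *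
      (kE r (mm (r * δ)) (r * δ) (Ltp h τ) *
        (√(π / (r * (LQi (5 / 4) c ν (LT3 (5 / 4) c h τ) / ν))) / 2))) = _
    rw [eL, ← key]
    ring

end

end SokamCel

end

/-! ### Lib_MP_af4de1_v3.BrL2 -/

section
namespace SokamCen
end SokamCen
namespace SokamF1
end SokamF1
namespace SokamF1M
end SokamF1M
namespace SokamF1S
end SokamF1S
namespace SokamFN
end SokamFN
namespace SokamU
end SokamU
namespace SokamV3
end SokamV3
/-!
# Bridge, left side: from numbers to `Shf` (helper6)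

`brL_num` : the total `TL0 TLW TLE` of `CenTL.lean` (any rest/far triple `u`) with bounds of the main part
`M0 MW` and of the others `O0 OW OE` (scaled: times `PF`, `R/h²`, `1/Γ`).  Any real `h`; `H = r h c`.
-/

set_option autoImplicit false

namespace SokamCel

open SokamFN SokamU SokamF1 SokamF1S SokamF1M SokamV3 SokamCen Real MeasureTheory Set

section

variable {r δ η c ν h τ Γ : ℝ}

/-- FROM ONE ZONE TO `Shf`, any `h`. -/
theorem Scl0.shf (s : Scl0 r δ η c ν h τ Γ) {y ζ g k q I0 IW Ie f0 f1 f2 : ℝ} (hδ : 0 < δ)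
    (hA : At r δ y η) (hL : Lev r δ y η g k q) (h0 : 0 ≤ I0) (hW : 0 ≤ IW) (hE : 0 ≤ Ie)
    (Z : Zone r (mm (r * δ)) (r * δ) (η + ζ) (sK (r * δ) y / (r * δ : ℝ)) univ I0 IW Ie)
    (hf0 : PF r δ η g q * I0 ≤ f0)
    (hf1 : √(PF r δ η g q * I0 * (PF r δ η g q * IW * (RR r δ / h ^ (2 : ℕ)))) ≤ f1)
    (hf2 : PF r δ η g q * IW * (RR r δ / h ^ (2 : ℕ)) + PF r δ η g q * Ie / Γ ≤ f2) :
    Shf r δ y ζ (r * (h * c)) f0 f1 f2 := by
  have h2 := s.c0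
  have h3 := s.n0
  have h4 := s.h0
  have h6 := s.Gpos
  have hr := s.rpos
  have hP := PF_nonneg r δ η g q
  have hm : 0 < mm (r * δ) := by rw [s.em]; (clear * - h2; positivity)
  have e1 : SokamCen.LvF r δ η g q * √(1 + 1 / mm (r * δ) ^ (2 : ℕ)) = PF r δ η g q := rfl
  rw [s.hR] at hf1 hf2
  obtain ⟨P, hPe⟩ : ∃ P, P = PF r δ η g q := ⟨_, rfl⟩
  rw [← hPe] at hf0 hf1 hf2 hP
  refine shf_zone (L := SokamCen.LvF r δ η g q) (m := mm (r * δ)) hr hδ hA hL (wb hr hδ hm) le_rfl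
    h0 hW hE Z ?_ ?_ ?_
  · rwa [e1, ← hPe]
  · rw [e1, ← hPe]
    have e3 : √(P * I0 * (P * IW * (1 / (h * c) ^ (2 : ℕ)))) = P * √(I0 * IW) * (1 / (h * c)) := by
      have e4 : P * I0 * (P * IW * (1 / (h * c) ^ (2 : ℕ))) = (P * √(I0 * IW) * (1 / (h * c))) ^ (2 : ℕ) := by
        have e5 : √(I0 * IW) ^ (2 : ℕ) = I0 * IW := Real.sq_sqrt (mul_nonneg h0 hW)
        have e6 : (P * √(I0 * IW) * (1 / (h * c))) ^ (2 : ℕ) =
          P ^ (2 : ℕ) * √(I0 * IW) ^ (2 : ℕ) * (1 / (h * c) ^ (2 : ℕ)) := by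
          field_simp
        rw [e6, e5]
        ring
      rw [e4, Real.sqrt_sq (by (clear * - hP h4 h2; positivity))]
    rw [e3] at hf1
    have e4 : P * (r * √(I0 * IW)) = P * √(I0 * IW) * (1 / (h * c)) * (r * (h * c)) := by
      field_simp
    rw [e4]
    exact mul_le_mul_of_nonneg_right hf1 (by (clear * - hr h4 h2; positivity))
  · rw [e1, ← hPe]
    have e4 : P * (r ^ (2 : ℕ) * IW + r * Ie) =
        (P * IW * (1 / (h * c) ^ (2 : ℕ)) + P * Ie / Γ) * (r * (h * c)) ^ (2 : ℕ) := by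
      rw [s.Gr]
      field_simp
    rw [e4]
    exact mul_le_mul_of_nonneg_right hf2 (by (clear * - hr h4 h2; positivity))

/-- the weight with the triangle inequality, scaled -/
theorem tri_scale {P W I κ H : ℝ} (hP : 0 ≤ P) (hW : 0 ≤ W) (hH : 0 < H) :
    P * (√W + κ * H * √I) ^ (2 : ℕ) * (1 / H ^ (2 : ℕ)) = (√(P * W * (1 / H ^ (2 : ℕ))) + κ * √(P * I)) ^ (2 : ℕ) := by
  have e1 : √(P * W * (1 / H ^ (2 : ℕ))) = √P * √W * (1 / H) := by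
    have : P * W * (1 / H ^ (2 : ℕ)) = P * (W * (1 / H) ^ (2 : ℕ)) := by ring
    rw [this, Real.sqrt_mul hP, Real.sqrt_mul hW, Real.sqrt_sq (by positivity)]
    ring
  have e2 : √(P * I) = √P * √I := Real.sqrt_mul hP _
  have e3 : √P ^ (2 : ℕ) = P := Real.sq_sqrt hP
  rw [e1, e2]
  have e4 : √P * √W * (1 / H) + κ * (√P * √I) = √P * ((√W + κ * H * √I) * (1 / H)) := by
    field_simp
  rw [e4, mul_pow, e3, mul_pow]
  ring

/-- THE BRIDGE, LEFT, with numbers. -/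
theorem brL_num (s : Scl0 r δ η c ν h τ Γ) {y ζ g k q β B l f0 f1 f2 M0 MW O0 OW OE : ℝ}
    {v u : ℝ × ℝ × ℝ} (hδ : 0 < δ) (hA : At r δ y η) (hy : 0 ≤ y)
    (hL : Lev r δ y η g k q) (hk : 0 ≤ k) (hθ : η + ζ = (1 + τ) * h) (hπ : (1 + τ) * h ≤ π)
    (hW : Win β ((1 + τ) * h)) (hLf : Lft (mm (r * δ)) ((1 + τ) * h) β B l)
    (hs : (1 + τ) * h ≤ 6 / 5 → 1 ≤ r * mm (r * δ) * Real.sin ((1 + τ) * h))
    (hv : Zn r (mm (r * δ)) (r * δ) ((1 + τ) * h) 1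
      (Icc (2 * π - (1 + τ) * h) (2 * π - (1 + τ) * h + 6 / 5)) v)
    (hu : Zn r (mm (r * δ)) (r * δ) ((1 + τ) * h) 1
      ({x | 6336 / 10000 ≤ 1 - Real.cos ((1 + τ) * h + x)} ∪
        Ici (2 * π - (1 + τ) * h + 5) ∪ Iic (-((1 + τ) * h + 5))) u)
    (hM0 : PF r δ η g q * (tmL' r (mm (r * δ)) (r * δ) ((1 + τ) * h) B l).1 ≤ M0)
    (hMW : PF r δ η g q * (tmL' r (mm (r * δ)) (r * δ) ((1 + τ) * h) B l).2.1 * (RR r δ / h ^ (2 : ℕ)) ≤ MW)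
    (hO0 : PF r δ η g q * (oL r (mm (r * δ)) (r * δ) ((1 + τ) * h) v u).1 ≤ O0)
    (hOW : PF r δ η g q * (oL r (mm (r * δ)) (r * δ) ((1 + τ) * h) v u).2.1 * (RR r δ / h ^ (2 : ℕ)) ≤ OW)
    (hOE : PF r δ η g q * (oL r (mm (r * δ)) (r * δ) ((1 + τ) * h) v u).2.2 / Γ ≤ OE)
    (hf0 : M0 + O0 ≤ f0)
    (hf1 : √((M0 + O0) * (MW + (k * τ) ^ (2 : ℕ) * M0 + (√OW + k * τ * √O0) ^ (2 : ℕ))) ≤ f1)
    (hf2 : MW + (k * τ) ^ (2 : ℕ) * M0 + (√OW + k * τ * √O0) ^ (2 : ℕ) + M0 / Γ + OE ≤ f2) :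
    Shf r δ y ζ (r * (h * c)) f0 f1 f2 := by
  have h2 := s.c0
  have h3 := s.n0
  have h4 := s.h0
  have h5 := s.u0
  have h6 := s.Gpos
  have hr := s.rpos
  have hρ := s.rho0
  have hP := PF_nonneg r δ η g q
  have ht0 : 0 < (1 + τ) * h := by (clear * - h5 h4; positivity)
  have hm5 : 5 / 4 * (r * δ) ≤ mm (r * δ) := mm_ge'
  have hm : r * δ ≤ mm (r * δ) := by linarith only [hρ, hm5]
  have hm1 : 5 / 4 ≤ mm (r * δ) := mm_ge
  have e0 : k * (|η| / √(RR r δ)) = k * τ * (h * c) := by rw [s.eηR]; ring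
  obtain ⟨n0, n1, n2, Z⟩ := zoneTL (v := v) (u := u) hr hA hy hL hm hm1 ht0 hπ hW hLf hs hv hu
  obtain ⟨⟨a0, a1, a2⟩, -⟩ := zn_main' hr hρ hm ht0 hW hLf
  obtain ⟨⟨b0, b1, b2⟩, -⟩ := zn_o hr hρ hm hm1 ht0 hπ hs hv hu
  rw [← hθ] at Z n0 n1 n2
  rw [s.hR] at hMW hOW
  have k1 : PF r δ η g q * TL0 r (mm (r * δ)) (r * δ) (η + ζ) B l v u ≤ M0 + O0 := by
    rw [hθ]
    unfold TL0
    rw [mul_add]
    exact add_le_add hM0 hO0
  have k2 : PF r δ η g q * TLW r (mm (r * δ)) (r * δ) (η + ζ) B l v u (k * (|η| / √(RR r δ))) *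
      (RR r δ / h ^ (2 : ℕ)) ≤ MW + (k * τ) ^ (2 : ℕ) * M0 + (√OW + k * τ * √O0) ^ (2 : ℕ) := by
    rw [hθ, e0, s.hR]
    unfold TLW
    have e1 : PF r δ η g q * (1 * (tmL' r (mm (r * δ)) (r * δ) ((1 + τ) * h) B l).2.1 +
        (k * τ * (h * c)) ^ (2 : ℕ) * (tmL' r (mm (r * δ)) (r * δ) ((1 + τ) * h) B l).1 +
        (√(oL r (mm (r * δ)) (r * δ) ((1 + τ) * h) v u).2.1 +
          k * τ * (h * c) * √(oL r (mm (r * δ)) (r * δ) ((1 + τ) * h) v u).1) ^ (2 : ℕ)) *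
        (1 / (h * c) ^ (2 : ℕ)) =
        PF r δ η g q * (tmL' r (mm (r * δ)) (r * δ) ((1 + τ) * h) B l).2.1 * (1 / (h * c) ^ (2 : ℕ)) +
        (k * τ) ^ (2 : ℕ) * (PF r δ η g q * (tmL' r (mm (r * δ)) (r * δ) ((1 + τ) * h) B l).1) +
        PF r δ η g q * (√(oL r (mm (r * δ)) (r * δ) ((1 + τ) * h) v u).2.1 +
          k * τ * (h * c) * √(oL r (mm (r * δ)) (r * δ) ((1 + τ) * h) v u).1) ^ (2 : ℕ) *
        (1 / (h * c) ^ (2 : ℕ)) := by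
      field_simp
    rw [e1, tri_scale hP b1 (by (clear * - h4 h2; positivity))]
    have k3 := Real.sqrt_le_sqrt hOW
    have k4 := Real.sqrt_le_sqrt hO0
    have k5 : 0 ≤ k * τ := by (clear * - hk h5; positivity)
    gcongr
  have k3 : PF r δ η g q * TLE r (mm (r * δ)) (r * δ) (η + ζ) B l v u / Γ ≤ M0 / Γ + OE := by
    rw [hθ]
    unfold TLE
    have e1 : PF r δ η g q * ((tmL' r (mm (r * δ)) (r * δ) ((1 + τ) * h) B l).2.2 +
        (oL r (mm (r * δ)) (r * δ) ((1 + τ) * h) v u).2.2) / Γ =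
        PF r δ η g q * (tmL' r (mm (r * δ)) (r * δ) ((1 + τ) * h) B l).1 / Γ +
        PF r δ η g q * (oL r (mm (r * δ)) (r * δ) ((1 + τ) * h) v u).2.2 / Γ := by
      have : (tmL' r (mm (r * δ)) (r * δ) ((1 + τ) * h) B l).2.2 =
        (tmL' r (mm (r * δ)) (r * δ) ((1 + τ) * h) B l).1 := rfl
      rw [this]
      ring
    rw [e1]
    exact add_le_add (div_le_div_of_nonneg_right hM0 h6.le) hOE
  have m0 : 0 ≤ PF r δ η g q * TL0 r (mm (r * δ)) (r * δ) (η + ζ) B l v u := by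
    exact mul_nonneg hP n0
  have m1 : 0 ≤ PF r δ η g q * TLW r (mm (r * δ)) (r * δ) (η + ζ) B l v u (k * (|η| / √(RR r δ))) *
      (RR r δ / h ^ (2 : ℕ)) := by
    rw [s.hR]
    exact mul_nonneg (mul_nonneg hP n1) (by (clear * - h4 h2; positivity))
  refine s.shf hδ hA hL n0 n1 n2 Z
    (k1.trans hf0) ?_ ?_
  · refine le_trans (Real.sqrt_le_sqrt ?_) hf1
    exact mul_le_mul k1 k2 m1 (m0.trans k1)
  · have := add_le_add k2 k3
    linarith only [hf2, this]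

end

end SokamCel

end

/-! ### Lib_MP_af4de1_v3.BrL3 -/

section
namespace SokamCen
end SokamCen
namespace SokamF1
end SokamF1
namespace SokamF1M
end SokamF1M
namespace SokamF1S
end SokamF1S
namespace SokamFN
end SokamFN
namespace SokamU
end SokamU
namespace SokamV3
end SokamV3
/-!
# Bridge, left side: main part and main part of the image (helper6)
-/

set_option autoImplicit false

namespace SokamCel

open SokamFN SokamU SokamF1 SokamF1S SokamF1M SokamV3 SokamCen Real MeasureTheory Set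

/-- `T = t/m` -/
noncomputable def LT (μ c h τ : ℝ) : ℝ := (1 + τ) * h * c / μ

/-- `B` of the main part -/
noncomputable def LB (μ c h τ β σ : ℝ) : ℝ := β * exp (-(σ * LT μ c h τ))

/-- `l/(h c)²` of the main part -/
noncomputable def Ll (μ c h τ β σ : ℝ) : ℝ :=
  (1 + τ) ^ (2 : ℕ) * (4 / 27 * (1 - σ) ^ (3 : ℕ) * ((1 + τ) * h * LB μ c h τ β σ / (μ * c)))

section

variable {r δ η c ν h τ Γ : ℝ}

theorem Scl0.tm (s : Scl0 r δ η c ν h τ Γ) : (1 + τ) * h / mm (r * δ) = LT (5 / 4) c h τ := by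
  have h2 := s.c0
  unfold LT
  rw [s.em]
  field_simp

/-- `Lft` in scaled form -/
theorem Scl0.lft (s : Scl0 r δ η c ν h τ Γ) {β σ : ℝ} (hβ : 0 < β) (h0 : 0 ≤ σ) (h1 : σ ≤ 1) :
    Lft (mm (r * δ)) ((1 + τ) * h) β (LB (5 / 4) c h τ β σ) (Ll (5 / 4) c h τ β σ * (h * c) ^ (2 : ℕ)) := by
  have h2 := s.c0
  have h4 := s.h0
  have h5 := s.u0
  have hm : 0 < mm (r * δ) := by rw [s.em]; positivity
  have hl := lft_sigma (m := mm (r * δ)) (t := (1 + τ) * h) hm (by positivity) hβ h0 h1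
  rw [s.tm] at hl
  have e : 4 / 27 * (1 - σ) ^ (3 : ℕ) * LT (5 / 4) c h τ * (β * exp (-(σ * LT (5 / 4) c h τ))) *
      ((1 + τ) * h) ^ (2 : ℕ) = Ll (5 / 4) c h τ β σ * (h * c) ^ (2 : ℕ) := by
    unfold Ll LB LT
    field_simp
  rw [e] at hl
  exact hl

/-- MAIN -/
theorem Scl0.mainL (s : Scl0 r δ η c ν h τ Γ) {g q B l : ℝ} (hq : 0 ≤ q) (hB : 0 < B) :
    PF r δ η g q * (tmL' r (mm (r * δ)) (r * δ) ((1 + τ) * h) B (l * (h * c) ^ (2 : ℕ))).1 =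
      z0 (5 / 4) q g c ν τ Γ (1 + τ) (La (5 / 4) ν (LT (5 / 4) c h τ)) B l ∧
    PF r δ η g q * (tmL' r (mm (r * δ)) (r * δ) ((1 + τ) * h) B (l * (h * c) ^ (2 : ℕ))).2.1 *
      (RR r δ / h ^ (2 : ℕ)) =
      zW (5 / 4) q g c ν τ Γ (1 + τ) (La (5 / 4) ν (LT (5 / 4) c h τ)) B l 0 (1 / (5 / 4) ^ (2 : ℕ)) 1 := by
  have h2 := s.c0
  have h3 := s.n0
  have h4 := s.h0
  have h5 := s.u0
  have hA : AL (mm (r * δ)) (r * δ) ((1 + τ) * h) =
      La (5 / 4) ν (LT (5 / 4) c h τ) * c ^ (2 : ℕ) / ν := by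
    unfold LT
    rw [s.em, s.eρ, AL_eq (by norm_num) h2 h3 (by positivity)]
  have ha := La_pos (μ := 5 / 4) (T := LT (5 / 4) c h τ) (by norm_num) s.n1
  unfold tmL'
  rw [hA]
  refine ⟨s.g0 ha hB hq, ?_⟩
  have e := s.gW (u := 1 + τ) ha hB (g := g) (l := l) hq (w0 := 0) (w1 := 1 / (5 / 4) ^ (2 : ℕ)) (w2 := 1)
  rw [← e]
  have e1 : (0 : ℝ) * (h * c) ^ (2 : ℕ) = 0 := by ring
  have e2 : 1 / mm (r * δ) ^ (2 : ℕ) = 1 / (5 / 4) ^ (2 : ℕ) * c ^ (2 : ℕ) := by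
    rw [s.em]
    field_simp
  rw [e1]
  show PF r δ η g q * SokamCen.gW r (La (5 / 4) ν (LT (5 / 4) c h τ) * c ^ (2 : ℕ) / ν) B ((1 + τ) * h)
    (l * (h * c) ^ (2 : ℕ)) 0 (1 / mm (r * δ) ^ (2 : ℕ)) 1 * (RR r δ / h ^ (2 : ℕ)) = _
  rw [e2]

/-- `T'` -/
noncomputable def LTp (μ c h τ : ℝ) : ℝ := Ltp h τ * c / μ

/-- IMAGE, MAIN -/
theorem Scl0.imgL (s : Scl0 r δ η c ν h τ Γ) {g q : ℝ} (hq : 0 ≤ q) (hπ : (1 + τ) * h ≤ π) :
    PF r δ η g q * (tiL r (mm (r * δ)) (r * δ) (Ltp h τ)).1 =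
      z0 (5 / 4) q g c ν τ Γ (Ltp h τ / h) (Lr (5 / 4) ν (LTp (5 / 4) c h τ)) (11 / 25) 0 ∧
    PF r δ η g q * (tiL r (mm (r * δ)) (r * δ) (Ltp h τ)).2.1 * (RR r δ / h ^ (2 : ℕ)) =
      zW (5 / 4) q g c ν τ Γ (Ltp h τ / h) (Lr (5 / 4) ν (LTp (5 / 4) c h τ)) (11 / 25) 0 0
        (eS (min 1 (LTp (5 / 4) c h τ)) ^ (2 : ℕ) / (5 / 4) ^ (2 : ℕ)) (exp (min 1 (LTp (5 / 4) c h τ))) ∧
    PF r δ η g q * (tiL r (mm (r * δ)) (r * δ) (Ltp h τ)).2.2 =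
      exp (min 1 (LTp (5 / 4) c h τ)) *
        z0 (5 / 4) q g c ν τ Γ (Ltp h τ / h) (Lr (5 / 4) ν (LTp (5 / 4) c h τ)) (11 / 25) 0 := by
  have h2 := s.c0
  have h3 := s.n0
  have h4 := s.h0
  have h5 := s.u0
  have htp := Ltp_pos hπ
  have hT : 0 < LTp (5 / 4) c h τ := by
    unfold LTp
    positivity
  have hA : AR (mm (r * δ)) (r * δ) (Ltp h τ) =
      Lr (5 / 4) ν (LTp (5 / 4) c h τ) * c ^ (2 : ℕ) / ν := by
    unfold LTp
    rw [s.em, s.eρ, AR_eq' (by norm_num) h2 h3 htp]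
  have hc : cT (mm (r * δ)) (Ltp h τ) = min 1 (LTp (5 / 4) c h τ) := by
    unfold LTp
    rw [s.em, cT_eq (by norm_num) h2]
  have ha := Lr_pos (μ := 5 / 4) (T := LTp (5 / 4) c h τ) (by norm_num) h3 s.n1 hT.le
  have hB : (0 : ℝ) < 11 / 25 := by norm_num
  have ht : Ltp h τ = Ltp h τ / h * h := by field_simp
  have he : e1c (mm (r * δ)) (Ltp h τ) = eS (min 1 (LTp (5 / 4) c h τ)) := by
    unfold e1c eS
    rw [hc]
  have k0 := s.g0 (u := Ltp h τ / h) ha hB (g := g) (l := 0) hq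
  rw [← ht, zero_mul] at k0
  have kW := s.gW (u := Ltp h τ / h) ha hB (g := g) (l := 0) hq (w0 := 0)
    (w1 := eS (min 1 (LTp (5 / 4) c h τ)) ^ (2 : ℕ) / (5 / 4) ^ (2 : ℕ)) (w2 := exp (min 1 (LTp (5 / 4) c h τ)))
  rw [← ht, zero_mul] at kW
  unfold tiL
  rw [hA, hc, he]
  refine ⟨k0, ?_, ?_⟩
  · rw [← kW]
    have e2 : eS (min 1 (LTp (5 / 4) c h τ)) ^ (2 : ℕ) / mm (r * δ) ^ (2 : ℕ) =
        eS (min 1 (LTp (5 / 4) c h τ)) ^ (2 : ℕ) / (5 / 4) ^ (2 : ℕ) * c ^ (2 : ℕ) := by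
      rw [s.em]
      field_simp
    show PF r δ η g q * SokamCen.gW r (Lr (5 / 4) ν (LTp (5 / 4) c h τ) * c ^ (2 : ℕ) / ν) (11 / 25)
      (Ltp h τ) 0 0 (eS (min 1 (LTp (5 / 4) c h τ)) ^ (2 : ℕ) / mm (r * δ) ^ (2 : ℕ))
      (exp (min 1 (LTp (5 / 4) c h τ))) * (RR r δ / h ^ (2 : ℕ)) = _
    rw [e2]
  · rw [← k0]
    show PF r δ η g q * (exp (min 1 (LTp (5 / 4) c h τ)) *
      SokamCen.g0 r (Lr (5 / 4) ν (LTp (5 / 4) c h τ) * c ^ (2 : ℕ) / ν) (11 / 25) (Ltp h τ) 0) = _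
    ring

/-! ### the sum of the other zones -/

/-- OTHERS: bounds of the sums from bounds of the pieces (front `F0`, `FW`; rest and far `U0`, `UW`, `UE`) -/
theorem Scl0.oth (s : Scl0 r δ η c ν h τ Γ) {g q F0 FW U0 UW UE : ℝ} {u : ℝ × ℝ × ℝ}
    (hq : 0 ≤ q) (hπ : (1 + τ) * h ≤ π)
    (n0 : 0 ≤ F0) (n1 : 0 ≤ FW)
    (hF : (1 + τ) * h ≤ 6 / 5 → LF0 (5 / 4) q g c ν h τ Γ ≤ F0 ∧
      LF0 (5 / 4) q g c ν h τ Γ * (LFW (5 / 4) c ν τ Γ / c ^ (2 : ℕ)) ≤ FW)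
    (hU0 : PF r δ η g q * u.1 ≤ U0) (hUW : PF r δ η g q * u.2.1 * (RR r δ / h ^ (2 : ℕ)) ≤ UW)
    (hUE : PF r δ η g q * u.2.2 / Γ ≤ UE) :
    PF r δ η g q * (oL r (mm (r * δ)) (r * δ) ((1 + τ) * h)
        (tkL r (mm (r * δ)) (r * δ) (2 * π - (1 + τ) * h)) u).1 ≤
      LB0 (5 / 4) q g c ν h τ Γ + F0 +
        z0 (5 / 4) q g c ν τ Γ (Ltp h τ / h) (Lr (5 / 4) ν (LTp (5 / 4) c h τ)) (11 / 25) 0 +
        LJ0 (5 / 4) q g c ν h τ Γ + U0 ∧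
    PF r δ η g q * (oL r (mm (r * δ)) (r * δ) ((1 + τ) * h)
        (tkL r (mm (r * δ)) (r * δ) (2 * π - (1 + τ) * h)) u).2.1 * (RR r δ / h ^ (2 : ℕ)) ≤
      LB0 (5 / 4) q g c ν h τ Γ * LBW (5 / 4) c ν h τ Γ + FW +
        zW (5 / 4) q g c ν τ Γ (Ltp h τ / h) (Lr (5 / 4) ν (LTp (5 / 4) c h τ)) (11 / 25) 0 0
          (eS (min 1 (LTp (5 / 4) c h τ)) ^ (2 : ℕ) / (5 / 4) ^ (2 : ℕ)) (exp (min 1 (LTp (5 / 4) c h τ))) +
        LJ0 (5 / 4) q g c ν h τ Γ * LJW (5 / 4) c ν h τ Γ + UW ∧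
    PF r δ η g q * (oL r (mm (r * δ)) (r * δ) ((1 + τ) * h)
        (tkL r (mm (r * δ)) (r * δ) (2 * π - (1 + τ) * h)) u).2.2 / Γ ≤
      (LB0 (5 / 4) q g c ν h τ Γ + F0 +
        exp (min 1 (LTp (5 / 4) c h τ)) *
          z0 (5 / 4) q g c ν τ Γ (Ltp h τ / h) (Lr (5 / 4) ν (LTp (5 / 4) c h τ)) (11 / 25) 0 +
        Le (5 / 4) c h τ * LJ0 (5 / 4) q g c ν h τ Γ) / Γ + UE := by
  have h6 := s.Gpos
  obtain ⟨b0, b1, b2⟩ := s.beh (g := g) hq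
  obtain ⟨i0, i1, i2⟩ := s.imgL (g := g) hq hπ
  obtain ⟨j0, j1, j2⟩ := s.imb (g := g) hq hπ
  have hf : PF r δ η g q * (tfL r (mm (r * δ)) (r * δ) ((1 + τ) * h)).1 ≤ F0 ∧
      PF r δ η g q * (tfL r (mm (r * δ)) (r * δ) ((1 + τ) * h)).2.1 * (RR r δ / h ^ (2 : ℕ)) ≤ FW ∧
      PF r δ η g q * (tfL r (mm (r * δ)) (r * δ) ((1 + τ) * h)).2.2 ≤ F0 := by
    by_cases ht : (1 + τ) * h ≤ 6 / 5
    · obtain ⟨f0, f1, f2⟩ := s.fro (g := g) hq ht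
      obtain ⟨k0, k1⟩ := hF ht
      exact ⟨f0.le.trans k0, f1.le.trans k1, f2.le.trans k0⟩
    · unfold tfL
      rw [if_neg ht]
      simp only [Prod.fst_zero, Prod.snd_zero, mul_zero, zero_mul]
      exact ⟨n0, n1, n0⟩
  obtain ⟨f0, f1, f2⟩ := hf
  have eT : Ltp h τ = 2 * π - (1 + τ) * h := rfl
  rw [← eT]
  unfold oL
  rw [← eT]
  refine ⟨?_, ?_, ?_⟩
  · show PF r δ η g q * ((tbL r (mm (r * δ)) (r * δ) ((1 + τ) * h)).1 +
      (tfL r (mm (r * δ)) (r * δ) ((1 + τ) * h)).1 + (tiL r (mm (r * δ)) (r * δ) (Ltp h τ)).1 +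
      (tkL r (mm (r * δ)) (r * δ) (Ltp h τ)).1 + u.1) ≤ _
    linarith
  · show PF r δ η g q * ((tbL r (mm (r * δ)) (r * δ) ((1 + τ) * h)).2.1 +
      (tfL r (mm (r * δ)) (r * δ) ((1 + τ) * h)).2.1 + (tiL r (mm (r * δ)) (r * δ) (Ltp h τ)).2.1 +
      (tkL r (mm (r * δ)) (r * δ) (Ltp h τ)).2.1 + u.2.1) * (RR r δ / h ^ (2 : ℕ)) ≤ _
    linarith
  · show PF r δ η g q * ((tbL r (mm (r * δ)) (r * δ) ((1 + τ) * h)).2.2 +
      (tfL r (mm (r * δ)) (r * δ) ((1 + τ) * h)).2.2 + (tiL r (mm (r * δ)) (r * δ) (Ltp h τ)).2.2 +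
      (tkL r (mm (r * δ)) (r * δ) (Ltp h τ)).2.2 + u.2.2) / Γ ≤ _
    have e : PF r δ η g q * ((tbL r (mm (r * δ)) (r * δ) ((1 + τ) * h)).2.2 +
      (tfL r (mm (r * δ)) (r * δ) ((1 + τ) * h)).2.2 + (tiL r (mm (r * δ)) (r * δ) (Ltp h τ)).2.2 +
      (tkL r (mm (r * δ)) (r * δ) (Ltp h τ)).2.2 + u.2.2) / Γ =
      (PF r δ η g q * (tbL r (mm (r * δ)) (r * δ) ((1 + τ) * h)).2.2 +
      PF r δ η g q * (tfL r (mm (r * δ)) (r * δ) ((1 + τ) * h)).2.2 +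
      PF r δ η g q * (tiL r (mm (r * δ)) (r * δ) (Ltp h τ)).2.2 +
      PF r δ η g q * (tkL r (mm (r * δ)) (r * δ) (Ltp h τ)).2.2) / Γ +
      PF r δ η g q * u.2.2 / Γ := by ring
    rw [e, b2, i2, j2]
    refine add_le_add ?_ hUE
    refine div_le_div_of_nonneg_right ?_ h6.le
    linarith

end

end SokamCel

end

/-! ### Lib_MP_af4de1_v3.BrL4 -/

section
namespace SokamCen
end SokamCen
namespace SokamF1
end SokamF1
namespace SokamF1M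
end SokamF1M
namespace SokamF1S
end SokamF1S
namespace SokamFN
end SokamFN
namespace SokamU
end SokamU
namespace SokamV3
end SokamV3
/-!
# Bridge, left side: the last step from the scaled numbers to `Shf` (helper6)

`brL_reg` : regime I, `0 ≤ η`, any shift `ζ ≥ hst N` with `η + ζ ≤ π`; the scaled variables are taken with `h = ζ`.
`brL_h` : `ζ = hst N`, `H = HH N r δ`.
-/

set_option autoImplicit false

namespace SokamCel

open SokamFN SokamU SokamF1 SokamF1S SokamF1M SokamV3 SokamCen Real MeasureTheory Set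

theorem y_nonneg {r δ y η : ℝ} (h : At r δ y η) (hη : 0 ≤ η) : 0 ≤ y := by
  by_contra hcon
  push Not at hcon
  have h1 := sE_strictMonoOn h.dom (dom_zero h.dom.1) h.y1.le ⟨le_rfl, hcon.le⟩ ⟨hcon.le, le_rfl⟩ hcon
  rw [sE_zero h.dom.1, h.eta] at h1
  linarith only [hη, h1]

/-- `1 ≤ r m sin t` for `h ≤ t ≤ 6/5` -/
theorem front_sin {N : ℕ} {r δ t : ℝ} (hR : Reg1 N r δ) (h1 : hst N ≤ t) (h2 : t ≤ 6 / 5) :
    1 ≤ r * mm (r * δ) * Real.sin t := by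
  have hh := hst_pos3 hR.N3
  have hr : 0 < r := by linarith only [hR.r0]
  have hm : 5 / 4 ≤ mm (r * δ) := mm_ge
  have ht : 0 < t := by linarith only [h1, hh]
  have hpi := Real.pi_gt_three
  have hpi4 := Real.pi_lt_four
  have hs := Real.mul_le_sin ht.le (by linarith only [h2, hpi])
  have hs2 : 1 / 2 * t ≤ Real.sin t := by
    refine le_trans ?_ hs
    refine mul_le_mul_of_nonneg_right ?_ ht.le
    rw [div_le_div_iff₀ (by norm_num) (by linarith only [hpi])]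
    linarith only [hpi4]
  have hRR : 1 ≤ RR r δ := by
    unfold RR
    nlinarith only []
  have hG := hR.G
  unfold Gm at hG
  rw [le_div_iff₀ (by linarith only [hRR])] at hG
  have k1 : 27 / 5 ≤ r * hst N ^ (2 : ℕ) := by linarith only [hRR, hG]
  have k2 : r * hst N ^ (2 : ℕ) ≤ r * hst N * (6 / 5) := by
    have : hst N ≤ 6 / 5 := by linarith only [h1, h2]
    nlinarith only [this, mul_pos hr hh]
  have k3 : 9 / 2 ≤ r * hst N := by linarith only [k1, k2]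
  have k4 : r * hst N ≤ r * t := mul_le_mul_of_nonneg_left h1 hr.le
  have k5 : r * (5 / 4) ≤ r * mm (r * δ) := mul_le_mul_of_nonneg_left hm hr.le
  have hs0 : 0 ≤ Real.sin t := le_trans (by positivity) hs2
  calc (1 : ℝ) ≤ r * (5 / 4) * (1 / 2 * t) := by linarith only [k3, k4]
    _ ≤ r * mm (r * δ) * Real.sin t := mul_le_mul k5 hs2 (by (clear * - ht; positivity)) (by (clear * - hr hm; positivity))

theorem win_b {t : ℝ} (h0 : 0 < t) (h1 : t ≤ π) : Win (bq t) t := win_t h0 h1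

/-- THE BRIDGE, LEFT, regime I, any shift `ζ ≥ hst N` (scaled variables with `h = ζ`). -/
theorem brL_reg {N : ℕ} {r δ y η ζ g k q c ν τ Γ β σ F0 FW U0 UW UE M0 MW O0 OW OE f0 f1 f2 : ℝ}
    (hR : Reg1 N r δ) (hA : At r δ y η) (hη : 0 ≤ η) (hL : Lev r δ y η g k q) (hk : 0 ≤ k)
    (hq : 0 ≤ q) (hζ : hst N ≤ ζ) (hπ : η + ζ ≤ π) (s : Scl0 r δ η c ν ζ τ Γ)
    (hβ : 0 < β) (hW : Win β ((1 + τ) * ζ)) (hσ0 : 0 ≤ σ) (hσ1 : σ ≤ 1)
    (hu : UB N r δ η g q (η + ζ) (UsL (η + ζ)) U0 UW UE)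
    (n0 : 0 ≤ F0) (n1 : 0 ≤ FW)
    (hF : (1 + τ) * ζ ≤ 6 / 5 → LF0 (5 / 4) q g c ν ζ τ Γ ≤ F0 ∧
      LF0 (5 / 4) q g c ν ζ τ Γ * (LFW (5 / 4) c ν τ Γ / c ^ (2 : ℕ)) ≤ FW)
    (hM0 : z0 (5 / 4) q g c ν τ Γ (1 + τ) (La (5 / 4) ν (LT (5 / 4) c ζ τ))
      (LB (5 / 4) c ζ τ β σ) (Ll (5 / 4) c ζ τ β σ) ≤ M0)
    (hMW : zW (5 / 4) q g c ν τ Γ (1 + τ) (La (5 / 4) ν (LT (5 / 4) c ζ τ))
      (LB (5 / 4) c ζ τ β σ) (Ll (5 / 4) c ζ τ β σ) 0 (1 / (5 / 4) ^ (2 : ℕ)) 1 ≤ MW)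
    (hO0 : LB0 (5 / 4) q g c ν ζ τ Γ + F0 +
        z0 (5 / 4) q g c ν τ Γ (Ltp ζ τ / ζ) (Lr (5 / 4) ν (LTp (5 / 4) c ζ τ)) (11 / 25) 0 +
        LJ0 (5 / 4) q g c ν ζ τ Γ + U0 ≤ O0)
    (hOW : LB0 (5 / 4) q g c ν ζ τ Γ * LBW (5 / 4) c ν ζ τ Γ + FW +
        zW (5 / 4) q g c ν τ Γ (Ltp ζ τ / ζ) (Lr (5 / 4) ν (LTp (5 / 4) c ζ τ)) (11 / 25) 0 0
          (eS (min 1 (LTp (5 / 4) c ζ τ)) ^ (2 : ℕ) / (5 / 4) ^ (2 : ℕ)) (exp (min 1 (LTp (5 / 4) c ζ τ))) +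
        LJ0 (5 / 4) q g c ν ζ τ Γ * LJW (5 / 4) c ν ζ τ Γ + UW ≤ OW)
    (hOE : (LB0 (5 / 4) q g c ν ζ τ Γ + F0 +
        exp (min 1 (LTp (5 / 4) c ζ τ)) *
          z0 (5 / 4) q g c ν τ Γ (Ltp ζ τ / ζ) (Lr (5 / 4) ν (LTp (5 / 4) c ζ τ)) (11 / 25) 0 +
        Le (5 / 4) c ζ τ * LJ0 (5 / 4) q g c ν ζ τ Γ) / Γ + UE ≤ OE)
    (hf0 : M0 + O0 ≤ f0)
    (hf1 : √((M0 + O0) * (MW + (k * τ) ^ (2 : ℕ) * M0 + (√OW + k * τ * √O0) ^ (2 : ℕ))) ≤ f1)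
    (hf2 : MW + (k * τ) ^ (2 : ℕ) * M0 + (√OW + k * τ * √O0) ^ (2 : ℕ) + M0 / Γ + OE ≤ f2) :
    Shf r δ y ζ (r * (ζ * c)) f0 f1 f2 := by
  have hh := hst_pos3 hR.N3
  have h4 := s.h0
  have h5 := s.u0
  have hr := s.rpos
  have hΓ := s.Gpos
  have hρ := s.rho0
  have hη' : η = τ * ζ := by rw [← s.eη, abs_of_nonneg hη]
  have hθ : η + ζ = (1 + τ) * ζ := by rw [hη']; ring
  have hm5 : 5 / 4 * (r * δ) ≤ mm (r * δ) := mm_ge'
  have hm : r * δ ≤ mm (r * δ) := by linarith only [hρ, hm5]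
  have hP := PF_nonneg r δ η g q
  obtain ⟨u0, uW, ue, a0, a1, a2, Z, e0, e1, e2⟩ := hu
  rw [hθ] at Z hπ
  unfold UsL at Z
  -- the units
  have hRp : 0 < RR r δ := by unfold RR; (clear * - hρ; positivity)
  have k1 : PF r δ η g q * uW * (RR r δ / ζ ^ (2 : ℕ)) ≤ UW := by
    refine le_trans ?_ e1
    refine mul_le_mul_of_nonneg_left ?_ (mul_nonneg hP a1)
    refine div_le_div_of_nonneg_left hRp.le (by (clear * - hh; positivity)) ?_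
    exact pow_le_pow_left₀ hh.le hζ 2
  have hG : Gm N r δ ≤ Γ := by
    rw [s.Gr]
    unfold Gm
    rw [s.eRR]
    have hc := s.c0
    have e : r * hst N ^ (2 : ℕ) / (1 / c ^ (2 : ℕ)) = r * (hst N * c) ^ (2 : ℕ) := by field_simp
    rw [e]
    refine mul_le_mul_of_nonneg_left ?_ hr.le
    exact pow_le_pow_left₀ (by (clear * - hh hc; positivity)) (mul_le_mul_of_nonneg_right hζ hc.le) 2
  have hG0 : 0 < Gm N r δ := by linarith only [hR.G]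
  have k2 : PF r δ η g q * ue / Γ ≤ UE := by
    refine le_trans ?_ e2
    exact div_le_div_of_nonneg_left (mul_nonneg hP a2) hG0 hG
  obtain ⟨o0, oW, oE⟩ := s.oth (u := (u0, uW, ue)) (g := g) hq hπ n0 n1 hF e0 k1 k2
  obtain ⟨m0, mW⟩ := s.mainL (g := g) (q := q) (B := LB (5 / 4) c ζ τ β σ)
    (l := Ll (5 / 4) c ζ τ β σ) hq (by unfold LB; positivity)
  exact brL_num s hR.d0 hA (y_nonneg hA hη) hL hk hθ hπ hW (s.lft hβ hσ0 hσ1)
    (fun h => front_sin hR (by rw [← hθ]; linarith only [hη, hζ]) h)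
    (zn_imgk hr hρ hm hπ) ⟨⟨a0, a1, a2⟩, Z⟩ (m0.le.trans hM0) (mW.le.trans hMW) (o0.trans hO0)
    (oW.trans hOW) (oE.trans hOE) hf0 hf1 hf2

end SokamCel

end

/-! ### Lib_MP_af4de1_v3.BrL5 -/

section
namespace SokamFN
end SokamFN
/-!
# Bridge, left side: `z0 = gF0`, `zW ≤ gFW` (helper6)
-/

set_option autoImplicit false

namespace SokamCel

open SokamFN Real

section

variable {μ q g c ν τ Γ u a B l Z w1 w2 : ℝ}

/-- the truncation factor -/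
theorem zY_eq (hc : 0 < c) (hν : 0 < ν) (hΓ : 0 < Γ) (ha : 0 < a) (hB : 0 < B) :
    zY g c ν τ Γ u a B l = zX g c ν τ Γ u a B l / 2 * gm c ν a B u Γ := by
  have hpi := pi_pos
  have hQ : 0 < a * c ^ (2 : ℕ) + ν * B := by positivity
  have hX : 0 < zX g c ν τ Γ u a B l := by unfold zX; exact exp_pos _
  unfold zY gm gQ
  obtain ⟨X, hXe⟩ : ∃ X, X = zX g c ν τ Γ u a B l := ⟨_, rfl⟩
  rw [← hXe] at hX ⊢
  obtain ⟨Q, hQe⟩ : ∃ Q, Q = a * c ^ (2 : ℕ) + ν * B := ⟨_, rfl⟩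
  rw [← hQe] at hQ ⊢
  have e1 : √(4 / π * Γ / (ν * Q)) = 2 * √Γ / √(π * ν * Q) := by
    have e2 : 4 / π * Γ / (ν * Q) = 2 ^ (2 : ℕ) * Γ / (π * ν * Q) := by
      field_simp
      norm_num
    rw [e2, Real.sqrt_div (by (clear * - hΓ; positivity)), Real.sqrt_mul (by positivity),
      Real.sqrt_sq (by norm_num)]
  rw [e1, mul_min_comm (by (clear * - hX; positivity))]
  congr 1
  · ring
  · ring

theorem z0_eq (hc : 0 < c) (hν : 0 < ν) (hΓ : 0 < Γ) (ha : 0 < a) (hB : 0 < B)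
    (hZ : u ^ (2 : ℕ) * (1 / (c ^ (2 : ℕ) / B + ν / a)) - l = Z * u ^ (2 : ℕ)) :
    z0 μ q g c ν τ Γ u a B l =
      gF0 (q * (1 + c ^ (2 : ℕ) / μ ^ (2 : ℕ))) c ν a B u Γ Z (g / 2 * τ ^ (2 : ℕ)) := by
  unfold z0 gF0
  rw [zY_eq hc hν hΓ ha hB]
  have eX : zX g c ν τ Γ u a B l = exp (-(Γ * (Z * u ^ (2 : ℕ) - g / 2 * τ ^ (2 : ℕ)))) := by
    unfold zX
    rw [hZ]
  rw [eX]
  unfold gQ
  ring

theorem zW_le (hμ : 0 < μ) (hc : 0 < c) (hν : 0 < ν) (hΓ : 0 < Γ) (ha : 0 < a) (hB : 0 < B)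
    (h1 : 0 ≤ w1)
    (hZ : u ^ (2 : ℕ) * (1 / (c ^ (2 : ℕ) / B + ν / a)) - l = Z * u ^ (2 : ℕ)) :
    zW μ q g c ν τ Γ u a B l 0 (w1 / μ ^ (2 : ℕ)) w2 ≤
      gFW (q * (1 + c ^ (2 : ℕ) / μ ^ (2 : ℕ))) μ c ν a B u Γ Z (g / 2 * τ ^ (2 : ℕ)) w1 w2 := by
  have hpi := pi_pos
  have hQ : 0 < a * c ^ (2 : ℕ) + ν * B := by (clear * - ha hc hν hB; positivity)
  have eX : zX g c ν τ Γ u a B l = exp (-(Γ * (Z * u ^ (2 : ℕ) - g / 2 * τ ^ (2 : ℕ)))) := by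
    unfold zX
    rw [hZ]
  unfold zW gFW
  rw [zY_eq hc hν hΓ ha hB, eX]
  obtain ⟨X, hXe⟩ : ∃ X, X = exp (-(Γ * (Z * u ^ (2 : ℕ) - g / 2 * τ ^ (2 : ℕ)))) := ⟨_, rfl⟩
  have hX : 0 < X := by rw [hXe]; exact exp_pos _
  rw [← hXe]
  have hV : √(q * (1 + c ^ (2 : ℕ) / μ ^ (2 : ℕ)) / (2 * (a * c ^ (2 : ℕ) + ν * B))) =
      √(q * (1 + c ^ (2 : ℕ) / μ ^ (2 : ℕ)) / (2 * gQ c ν a B)) := rfl
  rw [hV]
  refine le_trans ?_ (le_of_eq (mul_assoc _ _ _).symm)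
  refine mul_le_mul_of_nonneg_left ?_ (Real.sqrt_nonneg _)
  rw [mul_min_comm hX.le]
  have hS : √(ν / (π * Γ * (a * c ^ (2 : ℕ) + ν * B))) = √(ν / (Γ * (a * c ^ (2 : ℕ) + ν * B)) * (1 / π)) := by
    congr 1
    field_simp
  refine min_le_min ?_ ?_
  · refine le_of_eq ?_
    unfold gWf gQ
    field_simp
    ring
  · rw [hS]
    unfold gWt gQ
    obtain ⟨m, hm⟩ : ∃ m, m = gm c ν a B u Γ := ⟨_, rfl⟩
    rw [← hm]
    obtain ⟨S, hSe⟩ : ∃ S, S = √(ν / (Γ * (a * c ^ (2 : ℕ) + ν * B)) * (1 / π)) := ⟨_, rfl⟩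
    rw [← hSe]
    obtain ⟨Q, hQe⟩ : ∃ Q, Q = a * c ^ (2 : ℕ) + ν * B := ⟨_, rfl⟩
    have hk : (ν * B / Q) ^ (2 : ℕ) ≤ 1 := by
      have h3 : ν * B / Q ≤ 1 := by
        rw [div_le_one (by rw [hQe]; exact hQ), hQe]
        have : 0 < a * c ^ (2 : ℕ) := by (clear * - ha hc; positivity)
        linarith only [this]
      have h4 : 0 ≤ ν * B / Q := div_nonneg (by (clear * - hν hB; positivity)) (by rw [hQe]; exact hQ.le)
      nlinarith only [h3, h4]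
    rw [← hQe] at hQ ⊢
    have hk2 : X / 2 * (w1 / μ ^ (2 : ℕ) * (u ^ (2 : ℕ) * (ν * B / Q) ^ (2 : ℕ))) ≤ X / 2 * (w1 / μ ^ (2 : ℕ) * u ^ (2 : ℕ)) := by
      refine mul_le_mul_of_nonneg_left ?_ (by (clear * - hX; positivity))
      refine mul_le_mul_of_nonneg_left ?_ (by (clear * - h1 hμ; positivity))
      nlinarith only [hk]
    have e1 : X / 2 * (0 + w1 / μ ^ (2 : ℕ) * (u ^ (2 : ℕ) * (ν * B / Q) ^ (2 : ℕ) + c ^ (2 : ℕ) * (ν / (2 * Γ * Q))) +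
        w2 * ((u * (a * c / Q)) ^ (2 : ℕ) + 2 * (u * (a * c / Q)) * S + ν / (2 * Γ * Q))) +
        X / 2 * m * (0 + w1 / μ ^ (2 : ℕ) * u ^ (2 : ℕ) + w2 * (u * (a * c / Q)) ^ (2 : ℕ)) =
        X / 2 * (w1 / μ ^ (2 : ℕ) * (u ^ (2 : ℕ) * (ν * B / Q) ^ (2 : ℕ))) +
        (X / 2 * (w1 / μ ^ (2 : ℕ) * (c ^ (2 : ℕ) * (ν / (2 * Γ * Q))) +
        w2 * ((u * (a * c / Q)) ^ (2 : ℕ) + 2 * (u * (a * c / Q)) * S + ν / (2 * Γ * Q))) +
        X / 2 * m * (w1 / μ ^ (2 : ℕ) * u ^ (2 : ℕ) + w2 * (u * (a * c / Q)) ^ (2 : ℕ))) := by ring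
    rw [e1]
    refine (add_le_add_left hk2 _).trans (le_of_eq ?_)
    field_simp
    ring

end

/-- `Z` of the main part -/
theorem LZ_id {c ν h τ β σ μ : ℝ} :
    (1 + τ) ^ (2 : ℕ) * (1 / (c ^ (2 : ℕ) / LB μ c h τ β σ + ν / La μ ν (LT μ c h τ))) - Ll μ c h τ β σ =
      LZ μ c ν ((1 + τ) * h) (LT μ c h τ) β σ * (1 + τ) ^ (2 : ℕ) := by
  unfold LZ Ll LB
  ring

end SokamCel

end

/-! ### Lib_MP_af4de1_v3.CelRunG -/

section
namespace SokamFN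
end SokamFN
namespace SokamV3
end SokamV3
/-!
# Cells: the run over a box for ANY cell test (helper6)
-/

set_option autoImplicit false

namespace SokamCel

open SokamFN SokamV3

/-- chart `c` -/
def okGC (cel : I → I → I → I → Bool) (c0 c1 h0 h1 u0 u1 : ℕ) : Bool :=
  cel (c0, c1) (ico (c0, c1)) (h0, h1) (u0, u1)

/-- chart `ν` -/
def okGN (cel : I → I → I → I → Bool) (n0 n1 h0 h1 u0 u1 : ℕ) : Bool :=
  cel (ico (n0, n1)) (n0, n1) (h0, h1) (u0, u1)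

/-- the box is outside of the domain, or the checker `chk G c n h u` -/
def celG (K : RnD) (chk : ℕ → I → I → I → I → Bool) (c n h u : I) : Bool :=
  Nat.blt K.H (mL (mL h.1 c.1) (mL h.1 c.1)) || (Nat.blt piU (mL (SC + u.1) h.1) ||
    chk (max K.G0 (mL g49 (mL (mL h.1 c.1) (mL h.1 c.1)))) c n h u)

/-- **The run, generic.** `chk G c n h u` proves `P` at every point of the box with `fx G ≤ Γ`. -/
theorem run_gen {K : RnD} {chk : ℕ → I → I → I → I → Bool} {P : ℝ → ℝ → ℝ → ℝ → ℝ → Prop}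
    (hs : ∀ (G : ℕ) (ci ni hi ui : I), chk G ci ni hi ui = true → ∀ c ν h τ Γ : ℝ,
      DmR K c ν h τ Γ → fx G ≤ Γ → Mem c ci → Mem ν ni → Mem h hi → Mem τ ui → P c ν h τ Γ)
    {wx wy wz n wx' wy' wz' n' y1 z0 z1 : ℕ} {lc ln : List ℕ}
    (hC : ChB (okGC (celG K chk)) wx wy wz n 0 y1 z0 z1 0 lc)
    (hN : ChB (okGN (celG K chk)) wx' wy' wz' n' 0 y1 z0 z1 0 ln)
    (ec : 7 / 10 ≤ fx (lc.getLastD 0)) (en : 18 / 25 ≤ fx (ln.getLastD 0)) (ey : 2 * Real.pi / 3 ≤ fx y1)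
    {c ν h τ Γ : ℝ} (D : DmR K c ν h τ Γ) (hh : h ≤ 2 * Real.pi / 3) (h0 : fx z0 ≤ τ) (h1 : τ ≤ fx z1) :
    P c ν h τ Γ := by
  have key : ∀ (ci ni hi ui : I), celG K chk ci ni hi ui = true → ∀ c ν h τ Γ : ℝ,
      DmR K c ν h τ Γ → Mem c ci → Mem ν ni → Mem h hi → Mem τ ui → P c ν h τ Γ := by
    intro ci ni hi ui hx c ν h τ Γ D hc hn hh hu
    have hm : fx (mL (mL hi.1 ci.1) (mL hi.1 ci.1)) ≤ (h * c) ^ (2 : ℕ) := by
      have h1 := mulL hh.1 hc.1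
      have h2 := mulL h1 h1
      rwa [← pow_two] at h2
    unfold celG at hx
    rw [Bool.or_eq_true, Bool.or_eq_true, blt_iff, blt_iff] at hx
    rcases hx with h1 | h1 | h1
    · exfalso
      have h2 : fx K.H < fx (mL (mL hi.1 ci.1) (mL hi.1 ci.1)) := by
        unfold fx
        have : (K.H : ℝ) < (mL (mL hi.1 ci.1) (mL hi.1 ci.1) : ℕ) := by exact_mod_cast h1
        gcongr
      linarith [D.H]
    · exfalso
      have h2 : fx piU < fx (mL (SC + ui.1) hi.1) := by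
        unfold fx
        have : (piU : ℝ) < (mL (SC + ui.1) hi.1 : ℕ) := by exact_mod_cast h1
        gcongr
      have h3 : fx (SC + ui.1) ≤ 1 + τ := by
        rw [fx_add, fx_one]
        linarith [hu.1]
      have h4 := mulL h3 hh.1
      linarith [D.tp, pi_le_piU]
    · have hG : fx (max K.G0 (mL g49 (mL (mL hi.1 ci.1) (mL hi.1 ci.1)))) ≤ Γ := by
        rcases max_choice K.G0 (mL g49 (mL (mL hi.1 ci.1) (mL hi.1 ci.1))) with e | e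
        · rw [e]; exact D.G0
        · rw [e]; exact (mulL g49_le hm).trans D.G1
      exact hs _ ci ni hi ui h1 c ν h τ Γ D hG hc hn hh hu
  have hh0 : fx 0 ≤ h := by rw [fx_zero]; exact D.h0.le
  rcases chart D.cn with h2 | h2
  · have k2 := ChB.sound (P := fun c h τ => ∀ ν Γ : ℝ, DmR K c ν h τ Γ → P c ν h τ Γ)
      (fun x0 x1 y0 y1 z0 z1 hx x y z a1 a2 a3 a4 a5 a6 ν Γ D =>
        key _ _ _ _ hx x ν y z Γ D ⟨a1, a2⟩ (Mem.co ⟨a1, a2⟩ D.cn D.n0.le) ⟨a3, a4⟩ ⟨a5, a6⟩) lc 0 hC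
    refine k2 c h τ (by rw [fx_zero]; exact D.c0.le) (h2.trans ec) hh0 (hh.trans ey) h0 h1 ?_ ν Γ D
    rw [fx_zero]; exact D.c0.ne'
  · have k2 := ChB.sound (P := fun ν h τ => ∀ c Γ : ℝ, DmR K c ν h τ Γ → P c ν h τ Γ)
      (fun x0 x1 y0 y1 z0 z1 hx x y z a1 a2 a3 a4 a5 a6 c Γ D =>
        key _ _ _ _ hx c x y z Γ D (Mem.co ⟨a1, a2⟩ (by linarith [D.cn]) D.c0.le) ⟨a1, a2⟩ ⟨a3, a4⟩
          ⟨a5, a6⟩) ln 0 hN
    refine k2 ν h τ (by rw [fx_zero]; exact D.n0.le) (h2.trans en) hh0 (hh.trans ey) h0 h1 ?_ c Γ D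
    rw [fx_zero]; exact D.n0.ne'

end SokamCel

end

/-! ### Lib_MP_af4de1_v3.CelRunL -/

section
namespace SokamCen
end SokamCen
namespace SokamF1
end SokamF1
namespace SokamF1M
end SokamF1M
namespace SokamF1S
end SokamF1S
namespace SokamFN
end SokamFN
namespace SokamU
end SokamU
namespace SokamV3
end SokamV3
/-!
# Cells, left side: from the runs to the fields `a`, `a'`, `b`, `c` of `PShfL` (helper6)

`RunL` : the numerical hypotheses of `brL_reg` at a point; `RunsL` : `RunL` at all points of the domain of a run.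
-/

set_option autoImplicit false

namespace SokamCel

open SokamFN SokamU SokamF1 SokamF1S SokamF1M SokamV3 SokamCen Real MeasureTheory Set

/-- the numerical hypotheses of the left bridge -/
def RunL (μ q g k c ν h τ Γ U0 UW UE f0 f1 f2 : ℝ) : Prop :=
  ∃ β σ F0 FW M0 MW O0 OW OE : ℝ, 0 < β ∧ Win β ((1 + τ) * h) ∧ 0 ≤ σ ∧ σ ≤ 1 ∧ 0 ≤ F0 ∧ 0 ≤ FW ∧
    ((1 + τ) * h ≤ 6 / 5 → LF0 μ q g c ν h τ Γ ≤ F0 ∧
      LF0 μ q g c ν h τ Γ * (LFW μ c ν τ Γ / c ^ (2 : ℕ)) ≤ FW) ∧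
    z0 μ q g c ν τ Γ (1 + τ) (La μ ν (LT μ c h τ)) (LB μ c h τ β σ) (Ll μ c h τ β σ) ≤ M0 ∧
    zW μ q g c ν τ Γ (1 + τ) (La μ ν (LT μ c h τ)) (LB μ c h τ β σ) (Ll μ c h τ β σ) 0
      (1 / μ ^ (2 : ℕ)) 1 ≤ MW ∧
    LB0 μ q g c ν h τ Γ + F0 +
      z0 μ q g c ν τ Γ (Ltp h τ / h) (Lr μ ν (LTp μ c h τ)) (11 / 25) 0 +
      LJ0 μ q g c ν h τ Γ + U0 ≤ O0 ∧
    LB0 μ q g c ν h τ Γ * LBW μ c ν h τ Γ + FW +
      zW μ q g c ν τ Γ (Ltp h τ / h) (Lr μ ν (LTp μ c h τ)) (11 / 25) 0 0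
        (eS (min 1 (LTp μ c h τ)) ^ (2 : ℕ) / μ ^ (2 : ℕ)) (exp (min 1 (LTp μ c h τ))) +
      LJ0 μ q g c ν h τ Γ * LJW μ c ν h τ Γ + UW ≤ OW ∧
    (LB0 μ q g c ν h τ Γ + F0 + exp (min 1 (LTp μ c h τ)) *
        z0 μ q g c ν τ Γ (Ltp h τ / h) (Lr μ ν (LTp μ c h τ)) (11 / 25) 0 +
      Le μ c h τ * LJ0 μ q g c ν h τ Γ) / Γ + UE ≤ OE ∧
    M0 + O0 ≤ f0 ∧
    √((M0 + O0) * (MW + (k * τ) ^ (2 : ℕ) * M0 + (√OW + k * τ * √O0) ^ (2 : ℕ))) ≤ f1 ∧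
    MW + (k * τ) ^ (2 : ℕ) * M0 + (√OW + k * τ * √O0) ^ (2 : ℕ) + M0 / Γ + OE ≤ f2

theorem RunL.shf {N : ℕ} {r δ y η ζ g k q c ν τ Γ U0 UW UE f0 f1 f2 : ℝ}
    (hR : Reg1 N r δ) (hA : At r δ y η) (hη : 0 ≤ η) (hL : Lev r δ y η g k q) (hk : 0 ≤ k)
    (hq : 0 ≤ q) (hζ : hst N ≤ ζ) (hπ : η + ζ ≤ π) (s : Scl0 r δ η c ν ζ τ Γ)
    (hu : UB N r δ η g q (η + ζ) (UsL (η + ζ)) U0 UW UE)
    (h : RunL (5 / 4) q g k c ν ζ τ Γ U0 UW UE f0 f1 f2) : Shf r δ y ζ (r * (ζ * c)) f0 f1 f2 := by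
  obtain ⟨β, σ, F0, FW, M0, MW, O0, OW, OE, a1, a2, a3, a4, a5, a6, a7, a8, a9, a10, a11, a12, a13,
    a14, a15⟩ := h
  exact brL_reg hR hA hη hL hk hq hζ hπ s a1 a2 a3 a4 hu a5 a6 a7 a8 a9 a10 a11 a12 a13 a14 a15

/-- `RunL` on the domain of a run -/
def RunsL (K : RnD) (q g k U0 UW UE f0 f1 f2 t0 t1 : ℝ) : Prop :=
  ∀ c ν h τ Γ : ℝ, DmR K c ν h τ Γ → h ≤ 2 * Real.pi / 3 → t0 ≤ τ → τ ≤ t1 →
    RunL (5 / 4) q g k c ν h τ Γ U0 UW UE f0 f1 f2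

/-- the step common to the fields, `ζ = hst N` -/
theorem RunsL.field {K : RnD} {q g k U0 UW UE f0 f1 f2 t0 t1 : ℝ}
    (H : RunsL K q g k U0 UW UE f0 f1 f2 t0 t1) {N : ℕ} {r δ y η : ℝ}
    (hR : Reg1 N r δ) (hA : At r δ y η) (hη : 0 ≤ η) (hL : Lev r δ y η g k q) (hk : 0 ≤ k)
    (hq : 0 ≤ q) (hπ : η + hst N ≤ π)
    (hu : UB N r δ η g q (η + hst N) (UsL (η + hst N)) U0 UW UE)
    (h0 : t0 * hst N ≤ η) (h1 : η ≤ t1 * hst N) (hG : fx K.G0 ≤ Gm N r δ)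
    (hH : hst N ^ (2 : ℕ) / RR r δ ≤ fx K.H) : Shf r δ y (hst N) (HH N r δ) f0 f1 f2 := by
  have s := scl hR η
  have hh := s.h0
  have e0 : |η| = η := abs_of_nonneg hη
  have hπ' : (1 + |η| / hst N) * hst N ≤ π := by
    have : (1 + |η| / hst N) * hst N = η + hst N := by
      rw [e0]
      field_simp
      ring
    rw [this]
    exact hπ
  have hHc : (hst N * (1 / √(RR r δ))) ^ (2 : ℕ) ≤ fx K.H := by
    have hRp : 0 < RR r δ := by unfold RR; (clear * -; positivity)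
    have : (hst N * (1 / √(RR r δ))) ^ (2 : ℕ) = hst N ^ (2 : ℕ) / RR r δ := by
      rw [mul_one_div, div_pow, Real.sq_sqrt hRp.le]
    rw [this]
    exact hH
  have D : DmR K (1 / √(RR r δ)) (r * δ / √(RR r δ)) (hst N) (|η| / hst N) (Gm N r δ) :=
    s.dmR hπ' hHc hG
  have k0 : t0 ≤ |η| / hst N := by
    rw [e0, le_div_iff₀ hh]
    exact h0
  have k1 : |η| / hst N ≤ t1 := by
    rw [e0, div_le_iff₀ hh]
    exact h1
  have := (H _ _ _ _ _ D s.h1 k0 k1).shf hR hA hη hL hk hq le_rfl hπ s.toScl0 hu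
  have e : r * (hst N * (1 / √(RR r δ))) = HH N r δ := by
    unfold HH
    ring
  rwa [e] at this

/-! ### units -/

theorem H10 {N : ℕ} {r δ G : ℝ} (hR : Reg1 N r δ) (hG : Gm N r δ ≤ G) :
    hst N ^ (2 : ℕ) / RR r δ ≤ G * (10 / 499) := by
  have hr := hR.r0
  have hRp : 0 < RR r δ := by unfold RR; (clear * -; positivity)
  have e : Gm N r δ = r * (hst N ^ (2 : ℕ) / RR r δ) := by
    unfold Gm
    ring
  have h1 : 0 ≤ hst N ^ (2 : ℕ) / RR r δ := by (clear * - hRp; positivity)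
  rw [e] at hG
  nlinarith only [hG, hr, h1]

theorem H11 {N : ℕ} {r δ : ℝ} (hR : Reg1 N r δ) : hst N ^ (2 : ℕ) / RR r δ ≤ 11 / 10 := by
  have hRp : 0 < RR r δ := by unfold RR; (clear * -; positivity)
  rw [div_le_iff₀ hRp]
  exact hR.I

theorem om1_A {N : ℕ} {r δ : ℝ} (h : Gm N r δ < 10) : om1 N r δ = 1 / 4 := by
  unfold om1
  rw [if_pos h]

theorem om1_B {N : ℕ} {r δ : ℝ} (h : 10 ≤ Gm N r δ) (h2 : Gm N r δ < 20) : om1 N r δ = 3 / 20 := by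
  unfold om1
  rw [if_neg (not_lt.2 h), if_pos h2]

theorem om1_C {N : ℕ} {r δ : ℝ} (h : 20 ≤ Gm N r δ) : om1 N r δ = 1 / 10 := by
  unfold om1
  rw [if_neg (not_lt.2 (by linarith only [h])), if_neg (not_lt.2 h)]

/-! ### the fields -/

/-- class `Γ < 10` -/
theorem fieldL_A {K : RnD} {f0 f1 f2 t0 t1 : ℝ} (ht : t1 ≤ 3 / 4)
    (H : RunsL K (11 / 10) (6 / 5) 1 (1 / 300000) (1 / 9000) (1 / 700000) f0 f1 f2 t0 t1)
    (hG0 : fx K.G0 ≤ 27 / 5) (hH : 100 / 499 ≤ fx K.H) {N : ℕ} {r δ y η : ℝ} (hR : Reg1 N r δ)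
    (hA : At r δ y η) (hS : Sad1 N r δ y) (hG : Gm N r δ < 10) (hη : 0 ≤ η)
    (h0 : t0 * hst N ≤ η) (h1 : η ≤ t1 * hst N) (hπ : η + hst N ≤ π) :
    Shf r δ y (hst N) (HH N r δ) f0 f1 f2 := by
  have hh := hst_pos3 hR.N3
  have k1 : η ≤ 3 / 4 * hst N := h1.trans (mul_le_mul_of_nonneg_right ht hh.le)
  have k2 : η ≤ eo1 N r δ := by
    unfold eo1
    rw [om1_A hG]
    linarith only [k1]
  have e0 : |η| = η := abs_of_nonneg hη
  refine H.field hR hA hη (levL_A hR hA hS hG hη k2) (by norm_num) (by norm_num) hπ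
    (uL_A hR hG.le (by rw [e0]; exact k1) le_rfl (by norm_num) (by norm_num)
      (by rw [e0]) hπ) h0 h1 (hG0.trans hR.G) ?_
  refine (H10 hR hG.le).trans ?_
  linarith only [hH]

/-- class `10 ≤ Γ < 20` -/
theorem fieldL_B {K : RnD} {f0 f1 f2 t0 t1 : ℝ} (ht : t1 ≤ 13 / 20)
    (H : RunsL K (23 / 20) (6 / 5) 1 (1 / 250000) (1 / 4700) (1 / 700000) f0 f1 f2 t0 t1)
    (hG0 : fx K.G0 ≤ 10) (hH : 200 / 499 ≤ fx K.H) {N : ℕ} {r δ y η : ℝ} (hR : Reg1 N r δ)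
    (hA : At r δ y η) (hS : Sad1 N r δ y) (hG : 10 ≤ Gm N r δ) (hG2 : Gm N r δ < 20) (hη : 0 ≤ η)
    (h0 : t0 * hst N ≤ η) (h1 : η ≤ t1 * hst N) (hπ : η + hst N ≤ π) :
    Shf r δ y (hst N) (HH N r δ) f0 f1 f2 := by
  have hh := hst_pos3 hR.N3
  have k1 : η ≤ 13 / 20 * hst N := h1.trans (mul_le_mul_of_nonneg_right ht hh.le)
  have k2 : η ≤ eo1 N r δ := by
    unfold eo1
    rw [om1_B hG hG2]
    linarith only [k1]
  have e0 : |η| = η := abs_of_nonneg hη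
  refine H.field hR hA hη (levL hR hA hS hη k2) (by norm_num) (by norm_num) hπ
    (uL_B hR hG hG2.le (by rw [e0]; exact k1) (by norm_num) (by norm_num) (by norm_num)
      (by rw [e0]) hπ) h0 h1 (hG0.trans hG) ?_
  refine (H10 hR hG2.le).trans ?_
  linarith only [hH]

/-- class `20 ≤ Γ` -/
theorem fieldL_C {K : RnD} {f0 f1 f2 t0 t1 : ℝ} (ht : t1 ≤ 3 / 5)
    (H : RunsL K (23 / 20) (6 / 5) 1 (1 / 9000) (18 / 10000) (1 / 40000) f0 f1 f2 t0 t1)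
    (hG0 : fx K.G0 ≤ 20) (hH : 11 / 10 ≤ fx K.H) {N : ℕ} {r δ y η : ℝ} (hR : Reg1 N r δ)
    (hA : At r δ y η) (hS : Sad1 N r δ y) (hG : 20 ≤ Gm N r δ) (hη : 0 ≤ η)
    (h0 : t0 * hst N ≤ η) (h1 : η ≤ t1 * hst N) (hπ : η + hst N ≤ π) :
    Shf r δ y (hst N) (HH N r δ) f0 f1 f2 := by
  have hh := hst_pos3 hR.N3
  have k1 : η ≤ 3 / 5 * hst N := h1.trans (mul_le_mul_of_nonneg_right ht hh.le)
  have k2 : η ≤ eo1 N r δ := by
    unfold eo1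
    rw [om1_C hG]
    linarith only [k1]
  have e0 : |η| = η := abs_of_nonneg hη
  exact H.field hR hA hη (levL hR hA hS hη k2) (by norm_num) (by norm_num) hπ
    (uL_C hR hG (by rw [e0]; exact k1) (by norm_num) le_rfl (by norm_num) (by norm_num)
      (by rw [e0]) hπ) h0 h1 (hG0.trans hG) ((H11 hR).trans hH)

/-- FIELD `a` -/
theorem shfL_a_of {K : RnD} (hG0 : fx K.G0 ≤ 27 / 5) (hH : 100 / 499 ≤ fx K.H)
    (H : RunsL K (11 / 10) (6 / 5) 1 (1 / 300000) (1 / 9000) (1 / 700000) (1 / 5) (1 / 5) 1 0 (1 / 4)) :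
    ∀ (N : ℕ) (r δ y η : ℝ), Reg1 N r δ → At r δ y η → Sad1 N r δ y → Gm N r δ < 10 →
    0 ≤ η → η ≤ ei1 N r δ → η + hst N ≤ Real.pi →
    Shf r δ y (hst N) (HH N r δ) (1 / 5) (1 / 5) 1 := by
  intro N r δ y η hR hA hS hG h0 h1 hπ
  refine fieldL_A (by norm_num) H hG0 hH hR hA hS hG h0 (by linarith only [h0]) ?_ hπ
  unfold ei1 at h1
  rw [om1_A hG] at h1
  linarith only [h1]

/-- FIELD `b` -/
theorem shfL_b_of {K : RnD} (hG0 : fx K.G0 ≤ 27 / 5) (hH : 100 / 499 ≤ fx K.H)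
    (H : RunsL K (11 / 10) (6 / 5) 1 (1 / 300000) (1 / 9000) (1 / 700000) (2 / 25) (2 / 25) (13 / 100)
      (1 / 4) (3 / 4)) :
    ∀ (N : ℕ) (r δ y η : ℝ), Reg1 N r δ → At r δ y η → Sad1 N r δ y → Gm N r δ < 10 →
    ei1 N r δ ≤ η → η ≤ eo1 N r δ → η + hst N ≤ Real.pi →
    Shf r δ y (hst N) (HH N r δ) (2 / 25) (2 / 25) (13 / 100) := by
  intro N r δ y η hR hA hS hG h0 h1 hπ
  have hh := hst_pos3 hR.N3
  unfold ei1 at h0
  unfold eo1 at h1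
  rw [om1_A hG] at h0 h1
  exact fieldL_A (by norm_num) H hG0 hH hR hA hS hG (by linarith only [h0, hh]) (by linarith only [h0]) (by linarith only [h1]) hπ

/-- FIELD `a'` -/
theorem shfL_a'_of {K K' : RnD} (hG0 : fx K.G0 ≤ 10) (hH : 200 / 499 ≤ fx K.H)
    (H : RunsL K (23 / 20) (6 / 5) 1 (1 / 250000) (1 / 4700) (1 / 700000) (3 / 50) (3 / 50) 1 0 (7 / 20))
    (hG0' : fx K'.G0 ≤ 20) (hH' : 11 / 10 ≤ fx K'.H)
    (H' : RunsL K' (23 / 20) (6 / 5) 1 (1 / 9000) (18 / 10000) (1 / 40000) (3 / 50) (3 / 50) 1 0 (2 / 5)) :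
    ∀ (N : ℕ) (r δ y η : ℝ), Reg1 N r δ → At r δ y η → Sad1 N r δ y → 10 ≤ Gm N r δ →
    0 ≤ η → η ≤ ei1 N r δ → η + hst N ≤ Real.pi →
    Shf r δ y (hst N) (HH N r δ) (3 / 50) (3 / 50) 1 := by
  intro N r δ y η hR hA hS hG h0 h1 hπ
  unfold ei1 at h1
  rcases lt_or_ge (Gm N r δ) 20 with hG2 | hG2
  · rw [om1_B hG hG2] at h1
    exact fieldL_B (by norm_num) H hG0 hH hR hA hS hG hG2 h0 (by linarith only [h0]) (by linarith only [h1]) hπ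
  · rw [om1_C hG2] at h1
    exact fieldL_C (by norm_num) H' hG0' hH' hR hA hS hG2 h0 (by linarith only [h0]) (by linarith only [h1]) hπ

/-- FIELD `c` -/
theorem shfL_c_of {K K' : RnD} (hG0 : fx K.G0 ≤ 10) (hH : 200 / 499 ≤ fx K.H)
    (H : RunsL K (23 / 20) (6 / 5) 1 (1 / 250000) (1 / 4700) (1 / 700000) (1 / 100) (1 / 100) (1 / 100)
      (7 / 20) (13 / 20))
    (hG0' : fx K'.G0 ≤ 20) (hH' : 11 / 10 ≤ fx K'.H)
    (H' : RunsL K' (23 / 20) (6 / 5) 1 (1 / 9000) (18 / 10000) (1 / 40000) (1 / 100) (1 / 100) (1 / 100)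
      (2 / 5) (3 / 5)) :
    ∀ (N : ℕ) (r δ y η : ℝ), Reg1 N r δ → At r δ y η → Sad1 N r δ y → 10 ≤ Gm N r δ →
    ei1 N r δ ≤ η → η ≤ eo1 N r δ → η + hst N ≤ Real.pi →
    Shf r δ y (hst N) (HH N r δ) (1 / 100) (1 / 100) (1 / 100) := by
  intro N r δ y η hR hA hS hG h0 h1 hπ
  have hh := hst_pos3 hR.N3
  unfold ei1 at h0
  unfold eo1 at h1
  rcases lt_or_ge (Gm N r δ) 20 with hG2 | hG2
  · rw [om1_B hG hG2] at h0 h1
    exact fieldL_B (by norm_num) H hG0 hH hR hA hS hG hG2 (by linarith only [h0, h1]) (by linarith only [h0]) (by linarith only [h1]) hπ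
  · rw [om1_C hG2] at h0 h1
    exact fieldL_C (by norm_num) H' hG0' hH' hR hA hS hG2 (by linarith only [h0, h1]) (by linarith only [h0]) (by linarith only [h1]) hπ

end SokamCel

end

/-! ### Lib_MP_af4de1_v3.CelRunT -/

section
namespace SokamFN
end SokamFN
namespace SokamV3
end SokamV3
/-!
# Cells: the run along trees for ANY cell test (helper6)
-/

set_option autoImplicit false

namespace SokamCel

open SokamFN SokamV3

/-- soundness of the cell test `celG` -/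
theorem celG_sound {K : RnD} {chk : ℕ → I → I → I → I → Bool} {P : ℝ → ℝ → ℝ → ℝ → ℝ → Prop}
    (hs : ∀ (G : ℕ) (ci ni hi ui : I), chk G ci ni hi ui = true → ∀ c ν h τ Γ : ℝ,
      DmR K c ν h τ Γ → fx G ≤ Γ → Mem c ci → Mem ν ni → Mem h hi → Mem τ ui → P c ν h τ Γ)
    (ci ni hi ui : I) (hx : celG K chk ci ni hi ui = true) (c ν h τ Γ : ℝ) (D : DmR K c ν h τ Γ)
    (hc : Mem c ci) (hn : Mem ν ni) (hh : Mem h hi) (hu : Mem τ ui) : P c ν h τ Γ := by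
  have hm : fx (mL (mL hi.1 ci.1) (mL hi.1 ci.1)) ≤ (h * c) ^ (2 : ℕ) := by
    have h1 := mulL hh.1 hc.1
    have h2 := mulL h1 h1
    rwa [← pow_two] at h2
  unfold celG at hx
  rw [Bool.or_eq_true, Bool.or_eq_true, blt_iff, blt_iff] at hx
  rcases hx with h1 | h1 | h1
  · exfalso
    have h2 : fx K.H < fx (mL (mL hi.1 ci.1) (mL hi.1 ci.1)) := by
      unfold fx
      have : (K.H : ℝ) < (mL (mL hi.1 ci.1) (mL hi.1 ci.1) : ℕ) := by exact_mod_cast h1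
      gcongr
    linarith [D.H]
  · exfalso
    have h2 : fx piU < fx (mL (SC + ui.1) hi.1) := by
      unfold fx
      have : (piU : ℝ) < (mL (SC + ui.1) hi.1 : ℕ) := by exact_mod_cast h1
      gcongr
    have h3 : fx (SC + ui.1) ≤ 1 + τ := by
      rw [fx_add, fx_one]
      linarith [hu.1]
    have h4 := mulL h3 hh.1
    linarith [D.tp, pi_le_piU]
  · have hG : fx (max K.G0 (mL g49 (mL (mL hi.1 ci.1) (mL hi.1 ci.1)))) ≤ Γ := by
      rcases max_choice K.G0 (mL g49 (mL (mL hi.1 ci.1) (mL hi.1 ci.1))) with e | e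
      · rw [e]; exact D.G0
      · rw [e]; exact (mulL g49_le hm).trans D.G1
    exact hs _ ci ni hi ui h1 c ν h τ Γ D hG hc hn hh hu

/-- **The run, generic, along two trees** (chart `c` on `[0, xc]`, chart `ν` on `[0, xn]`). -/
theorem run_tree {K : RnD} {chk : ℕ → I → I → I → I → Bool} {P : ℝ → ℝ → ℝ → ℝ → ℝ → Prop}
    (hs : ∀ (G : ℕ) (ci ni hi ui : I), chk G ci ni hi ui = true → ∀ c ν h τ Γ : ℝ,
      DmR K c ν h τ Γ → fx G ≤ Γ → Mem c ci → Mem ν ni → Mem h hi → Mem τ ui → P c ν h τ Γ)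
    {tc tn : BT} {xc xn y0 y1 z0 z1 : ℕ}
    (hC : bisT (okGC (celG K chk)) tc 0 xc y0 y1 z0 z1 = true)
    (hN : bisT (okGN (celG K chk)) tn 0 xn y0 y1 z0 z1 = true)
    (ec : 7 / 10 ≤ fx xc) (en : 18 / 25 ≤ fx xn)
    {c ν h τ Γ : ℝ} (D : DmR K c ν h τ Γ) (hh0 : fx y0 ≤ h) (hh : h ≤ fx y1) (h0 : fx z0 ≤ τ)
    (h1 : τ ≤ fx z1) : P c ν h τ Γ := by
  have key := celG_sound hs
  rcases chart D.cn with h2 | h2
  · have k2 := bisT_sound (P := fun c h τ => ∀ ν Γ : ℝ, DmR K c ν h τ Γ → P c ν h τ Γ)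
      (fun x0 x1 y0 y1 z0 z1 hx x y z a1 a2 a3 a4 a5 a6 ν Γ D =>
        key _ _ _ _ hx x ν y z Γ D ⟨a1, a2⟩ (Mem.co ⟨a1, a2⟩ D.cn D.n0.le) ⟨a3, a4⟩ ⟨a5, a6⟩)
      tc 0 xc y0 y1 z0 z1 hC
    exact k2 c h τ (by rw [fx_zero]; exact D.c0.le) (h2.trans ec) hh0 hh h0 h1 ν Γ D
  · have k2 := bisT_sound (P := fun ν h τ => ∀ c Γ : ℝ, DmR K c ν h τ Γ → P c ν h τ Γ)
      (fun x0 x1 y0 y1 z0 z1 hx x y z a1 a2 a3 a4 a5 a6 c Γ D =>
        key _ _ _ _ hx c x y z Γ D (Mem.co ⟨a1, a2⟩ (by linarith [D.cn]) D.c0.le) ⟨a1, a2⟩ ⟨a3, a4⟩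
          ⟨a5, a6⟩) tn 0 xn y0 y1 z0 z1 hN
    exact k2 ν h τ (by rw [fx_zero]; exact D.n0.le) (h2.trans en) hh0 hh h0 h1 c Γ D

end SokamCel

end

/-! ### Lib_MP_af4de1_v3.BrL6 -/

section
namespace SokamCen
end SokamCen
namespace SokamFN
end SokamFN
namespace SokamV3
end SokamV3
/-!
# Bridge, left side: `LOk → RunL` (helper6)
-/

set_option autoImplicit false

namespace SokamCel

open SokamFN SokamV3 SokamCen Real

/-- `LOk → RunL` -/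
theorem LOk.run {μ q g k c ν h τ Γ β σ U0 UW UE f0 f1 f2 : ℝ} (hμ : 1 ≤ μ) (hc : 0 < c)
    (hν : 0 < ν) (hν1 : ν < 1) (hh : 0 < h) (hτ : 0 ≤ τ) (hΓ : 0 < Γ) (hπ : (1 + τ) * h ≤ π)
    (hβ : 0 < β) (hW : Win β ((1 + τ) * h)) (hσ0 : 0 ≤ σ) (hσ1 : σ ≤ 1)
    (H : LOk μ q g k c ν h τ Γ β σ U0 UW UE f0 f1 f2) : RunL μ q g k c ν h τ Γ U0 UW UE f0 f1 f2 := by
  have hμ0 : 0 < μ := by linarith
  have htp := Ltp_pos hπ
  have hB : 0 < LB μ c h τ β σ := by unfold LB; positivity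
  have ha := La_pos (T := LT μ c h τ) hμ hν1
  have hT' : 0 ≤ LTp μ c h τ := by unfold LTp; positivity
  have ha' := Lr_pos (T := LTp μ c h τ) hμ hν hν1 hT'
  have hB' : (0 : ℝ) < 11 / 25 := by norm_num
  have hLf := Lf_pos hμ hν1
  have hF : 0 ≤ LF0 μ q g c ν h τ Γ := by
    unfold LF0
    positivity
  have hFW : 0 ≤ LFW μ c ν τ Γ := by
    unfold LFW
    have hpi := pi_pos
    positivity
  -- the four zones
  have m0 : z0 μ q g c ν τ Γ (1 + τ) (La μ ν (LT μ c h τ)) (LB μ c h τ β σ) (Ll μ c h τ β σ) =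
      tM0 μ q g c ν h τ Γ β σ := z0_eq hc hν hΓ ha hB LZ_id
  have mW : zW μ q g c ν τ Γ (1 + τ) (La μ ν (LT μ c h τ)) (LB μ c h τ β σ) (Ll μ c h τ β σ) 0
      (1 / μ ^ (2 : ℕ)) 1 ≤ tMW μ q g c ν h τ Γ β σ := zW_le hμ0 hc hν hΓ ha hB zero_le_one LZ_id
  have hZ : (Ltp h τ / h) ^ (2 : ℕ) * (1 / (c ^ (2 : ℕ) / (11 / 25) + ν / Lr μ ν (LTp μ c h τ))) - 0 =
      1 / (c ^ (2 : ℕ) / (11 / 25) + ν / Lr μ ν (LTp μ c h τ)) * (Ltp h τ / h) ^ (2 : ℕ) := by ring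
  have i0 : z0 μ q g c ν τ Γ (Ltp h τ / h) (Lr μ ν (LTp μ c h τ)) (11 / 25) 0 =
      tI0 μ q g c ν h τ Γ := z0_eq hc hν hΓ ha' hB' hZ
  have iW : zW μ q g c ν τ Γ (Ltp h τ / h) (Lr μ ν (LTp μ c h τ)) (11 / 25) 0 0
      (eS (min 1 (LTp μ c h τ)) ^ (2 : ℕ) / μ ^ (2 : ℕ)) (exp (min 1 (LTp μ c h τ))) ≤
      tIW μ q g c ν h τ Γ := zW_le hμ0 hc hν hΓ ha' hB' (sq_nonneg _) hZ
  refine ⟨β, σ, if (1 + τ) * h ≤ 6 / 5 then LF0 μ q g c ν h τ Γ else 0,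
    if (1 + τ) * h ≤ 6 / 5 then LF0 μ q g c ν h τ Γ * (LFW μ c ν τ Γ / c ^ (2 : ℕ)) else 0,
    tM0 μ q g c ν h τ Γ β σ, tMW μ q g c ν h τ Γ β σ, lI μ q g c ν h τ Γ U0,
    lW μ q g c ν h τ Γ UW, lE μ q g c ν h τ Γ UE, hβ, hW, hσ0, hσ1, ?_, ?_, ?_, m0.le, mW, ?_, ?_, ?_,
    H.f0, H.f1, H.f2⟩
  · split_ifs
    · exact hF
    · exact le_rfl
  · split_ifs
    · positivity
    · exact le_rfl
  · intro ht
    rw [if_pos ht, if_pos ht]
    exact ⟨le_rfl, le_rfl⟩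
  · rw [i0]
    unfold lI
    linarith
  · unfold lW
    linarith
  · rw [i0]
    refine le_of_eq ?_
    unfold lE
    have : LTp μ c h τ = Ltp h τ * c / μ := rfl
    unfold iT
    rw [this]
    ring

/-- from `LOk` on a domain to `RunsL` -/
theorem runsL_of {K : RnD} {q g k U0 UW UE f0 f1 f2 t0 t1 : ℝ}
    (H : ∀ c ν h τ Γ : ℝ, DmR K c ν h τ Γ → h ≤ 2 * π / 3 → t0 ≤ τ → τ ≤ t1 →
      ∃ β σ : ℝ, ((β = bq ((1 + τ) * h) ∧ (1 + τ) * h ≤ 6 / 5) ∨ β = 11 / 25) ∧ 0 ≤ σ ∧ σ ≤ 1 ∧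
        LOk (5 / 4) q g k c ν h τ Γ β σ U0 UW UE f0 f1 f2) :
    RunsL K q g k U0 UW UE f0 f1 f2 t0 t1 := by
  intro c ν h τ Γ D hh h0 h1
  obtain ⟨β, σ, hb, s0, s1, L⟩ := H c ν h τ Γ D hh h0 h1
  have hc := D.c0
  have hν := D.n0
  have hh0 := D.h0
  have hτ := D.u0
  have ht : 0 < (1 + τ) * h := by positivity
  have hν1 : ν < 1 := by
    have := D.cn
    have h2 : 0 < c ^ (2 : ℕ) := by positivity
    nlinarith only [this, h2]
  have hΓ : 0 < Γ := by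
    have := D.G1
    have h2 : 0 < 499 / 10 * (h * c) ^ (2 : ℕ) := by positivity
    linarith
  have hW : Win β ((1 + τ) * h) := by
    rcases hb with ⟨e, _⟩ | e
    · rw [e]; exact win_b ht D.tp
    · rw [e]; exact win_all _
  exact L.run (by norm_num) hc hν hν1 hh0 hτ hΓ D.tp hW.1 hW s0 s1

end SokamCel

end

/-! ### Lib_MP_af4de1_v3.ShfLe0 -/

section
namespace SokamCen
end SokamCen
namespace SokamF1
end SokamF1
namespace SokamF1M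
end SokamF1M
namespace SokamF1S
end SokamF1S
namespace SokamFN
end SokamFN
namespace SokamU
end SokamU
namespace SokamV3
end SokamV3
/-!
# SHIFT, field `e`, left side: from the three runs to `E1L` (helper93)
-/

set_option autoImplicit false

namespace SokamCel

open SokamFN SokamU SokamF1 SokamF1S SokamF1M SokamV3 SokamCen Real MeasureTheory Set

/-- a run of `e`, `i = 1`, left -/
def RunLE (q g k τ0 G0 U0 UW UE : ℝ) : Prop :=
  ∀ c ν h τ Γ : ℝ, DomE τ0 G0 c ν h τ Γ →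
    RunL (5 / 4) q g k c ν h τ Γ U0 UW UE (3 / 200) (3 / 100 * (τ / τ0)) ((τ / τ0) ^ (2 : ℕ))

/-- one class -/
theorem RunLE.shf {q g k τ0 G0 U0 UW UE : ℝ} (H : RunLE q g k τ0 G0 U0 UW UE) {N : ℕ}
    {r δ y z : ℝ} (hR : Reg1 N r δ) (hA : At r δ y (eo1 N r δ)) (hτ0 : 0 < τ0)
    (hτ : eo1 N r δ = τ0 * hst N) (hG : G0 ≤ Gm N r δ) (hL : Lev r δ y (eo1 N r δ) g k q)
    (hk : 0 ≤ k) (hq : 0 ≤ q) (h1 : hst N ≤ z) (h2 : z ≤ 2 * hst N) (h3 : eo1 N r δ + z ≤ π)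
    (hu : UB N r δ (eo1 N r δ) g q (eo1 N r δ + z) (UsL (eo1 N r δ + z)) U0 UW UE) :
    Shf r δ y z (r * z / √(RR r δ)) (3 / 200) (3 / 100 * (hst N / z)) ((hst N / z) ^ (2 : ℕ)) := by
  have hh := hst_pos3 hR.N3
  have hz : 0 < z := hh.trans_le h1
  have he : 0 ≤ eo1 N r δ := by rw [hτ]; positivity
  have D := domE hR hτ0 hτ hG h1 h2 h3
  have s := scl0 hR.r0 hR.d0 hz (eo1 N r δ)
  rw [abs_of_nonneg he] at s
  have eΓ : r * (z * (1 / √(RR r δ))) ^ (2 : ℕ) = r * z ^ (2 : ℕ) / RR r δ := by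
    have hRp : 0 < RR r δ := by unfold RR; positivity
    rw [mul_one_div, div_pow, Real.sq_sqrt hRp.le]
    ring
  rw [eΓ] at s
  have k1 := (H _ _ _ _ _ D).shf hR hA he hL hk hq h1 h3 s hu
  have e1 : eo1 N r δ / z / τ0 = hst N / z := by
    rw [hτ]
    field_simp
  have e2 : r * (z * (1 / √(RR r δ))) = r * z / √(RR r δ) := by ring
  rw [e1, e2] at k1
  exact k1

/-- `E1L` from three runs -/
theorem e1L_of (A : RunLE (11 / 10) (6 / 5) 1 (3 / 4) (27 / 5) (1 / 300000) (1 / 9000) (1 / 700000))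
    (B : RunLE (23 / 20) (6 / 5) 1 (13 / 20) 10 (1 / 250000) (1 / 4700) (1 / 700000))
    (C : RunLE (23 / 20) (6 / 5) 1 (3 / 5) 20 (1 / 9000) (18 / 10000) (1 / 40000)) : E1L := by
  intro N r δ y z hR hA hS h1 h2 h3
  have hh := hst_pos3 hR.N3
  rcases lt_or_ge (Gm N r δ) 10 with hG | hG
  · have e := eoe_A hG
    have he : 0 ≤ eo1 N r δ := by rw [e]; positivity
    have ha := abs_of_nonneg he
    exact A.shf hR hA (by norm_num) e hR.G (levL_A hR hA hS hG he le_rfl) (by norm_num)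
      (by norm_num) h1 h2 h3
      (uL_A hR hG.le (by rw [ha, e]) le_rfl (by norm_num) (by norm_num)
        (by rw [ha]; linarith) h3)
  · rcases lt_or_ge (Gm N r δ) 20 with hG2 | hG2
    · have e := eoe_B hG hG2
      have he : 0 ≤ eo1 N r δ := by rw [e]; positivity
      have ha := abs_of_nonneg he
      exact B.shf hR hA (by norm_num) e hG (levL hR hA hS he le_rfl) (by norm_num)
        (by norm_num) h1 h2 h3
        (uL_B hR hG hG2.le (by rw [ha, e]) (by norm_num) (by norm_num) (by norm_num)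
          (by rw [ha]; linarith) h3)
    · have e := eoe_C hG2
      have he : 0 ≤ eo1 N r δ := by rw [e]; positivity
      have ha := abs_of_nonneg he
      exact C.shf hR hA (by norm_num) e hG2 (levL hR hA hS he le_rfl) (by norm_num)
        (by norm_num) h1 h2 h3
        (uL_C hR hG2 (by rw [ha, e]) (by norm_num) le_rfl (by norm_num) (by norm_num)
          (by rw [ha]; linarith) h3)

end SokamCel

end

/-! ### Lib_MP_af4de1_v3.CelRunLE -/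

section
namespace SokamFN
end SokamFN
/-!
# Cells, left side: the wrapper of the runs of field `e` (helper93)

`okLE`: one box in (`x` = `c` or `ν`, `h`, `τ`), `Γ ≥ max (G0 τ0²/τ²) (49.9 (h c)²)`, targets `3/200`,
`(3/100) τ/τ0`, `(τ/τ0)²`, for any sound left checker `chk F1 F2 G c n h u`.
-/

set_option autoImplicit false

namespace SokamCel

open SokamFN

/-- a sound left checker with the target `3/200` -/
def SndL (chk : ℕ → ℕ → ℕ → I → I → I → I → Bool) (q g k U0 UW UE : ℝ) : Prop :=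
  ∀ (F1 F2 G : ℕ) (ci ni hi ui : I), chk F1 F2 G ci ni hi ui = true → ∀ c ν h τ Γ f1 f2 : ℝ,
    0 < c → 0 < ν → c ^ (2 : ℕ) + ν ^ (2 : ℕ) = 1 → 0 < h → 0 ≤ τ → (1 + τ) * h ≤ Real.pi → fx G ≤ Γ →
    499 / 10 * (h * c) ^ (2 : ℕ) ≤ Γ → Mem c ci → Mem ν ni → Mem h hi → Mem τ ui →
    fx F1 ≤ f1 → fx F2 ≤ f2 → RunL (5 / 4) q g k c ν h τ Γ U0 UW UE (3 / 200) f1 f2

/-- one box of a run of `e`, left; `V0 ≤ τ0 ≤ V1`, `E` : lower bound of `G0` -/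
def okLE (chk : ℕ → ℕ → ℕ → I → I → I → I → Bool) (V0 V1 E : ℕ) (ch : Bool)
    (x0 x1 y0 y1 z0 z1 : ℕ) : Bool :=
  let c := chC ch x0 x1
  let hc := mL y0 c.1
  let v := dL z0 V1
  let w := dU z1 V0
  Nat.blt piX (mL (SC + z0) y0) || Nat.blt (ic 11 10).2 (mL (mL v hc) (mL v hc)) ||
    Nat.blt (piX / 2 + 1) (mL v y0) ||
    chk (mL 32985348833 v) (mL v v) (max (dL E (mU w w)) (mL (ic 499 10).1 (mL hc hc)))
      c (chN ch x0 x1) (y0, y1) (z0, z1)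

/-- what a run of `e` proves for a point -/
def PtLE (q g k τ0 G0 U0 UW UE : ℝ) (c ν h τ : ℝ) : Prop :=
  ∀ Γ : ℝ, SokamCen.DomE τ0 G0 c ν h τ Γ →
    RunL (5 / 4) q g k c ν h τ Γ U0 UW UE (3 / 200) (3 / 100 * (τ / τ0)) ((τ / τ0) ^ (2 : ℕ))

theorem okLE_sound {chk : ℕ → ℕ → ℕ → I → I → I → I → Bool} {q g k τ0 G0 U0 UW UE : ℝ}
    (hs : SndL chk q g k U0 UW UE) {V0 V1 E : ℕ} (hτ0 : 0 < τ0) (hV : fx V0 ≤ τ0) (hV0 : 0 < V0)
    (hV1 : τ0 ≤ fx V1) (hE : fx E ≤ G0) {ch : Bool} {x0 x1 y0 y1 z0 z1 : ℕ}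
    (hx : okLE chk V0 V1 E ch x0 x1 y0 y1 z0 z1 = true)
    {c ν h τ : ℝ} (a0 : fx x0 ≤ (bif ch then c else ν)) (a1 : (bif ch then c else ν) ≤ fx x1)
    (a2 : fx y0 ≤ h) (a3 : h ≤ fx y1) (a4 : fx z0 ≤ τ) (a5 : τ ≤ fx z1) :
    PtLE q g k τ0 G0 U0 UW UE c ν h τ := by
  intro Γ D
  have hc := D.c0
  have hν := D.n0
  have hcn := D.cn
  have hh := D.h0
  have hτ : 0 < τ := by linarith [D.u1]
  have mc := mem_chC hcn hc.le a0 a1
  have mn := mem_chN hcn hν.le a0 a1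
  have mh : Mem h (y0, y1) := ⟨a2, a3⟩
  have mt : Mem τ (z0, z1) := ⟨a4, a5⟩
  unfold okLE at hx
  simp only at hx
  obtain ⟨hcL, ehc⟩ : ∃ x, x = mL y0 (chC ch x0 x1).1 := ⟨_, rfl⟩
  obtain ⟨v, ev⟩ : ∃ x, x = dL z0 V1 := ⟨_, rfl⟩
  obtain ⟨w, ew⟩ : ∃ x, x = dU z1 V0 := ⟨_, rfl⟩
  rw [← ehc, ← ev, ← ew] at hx
  have k1 : fx hcL ≤ h * c := by rw [ehc]; exact mulL a2 mc.1
  have k2 : fx v ≤ τ / τ0 := by rw [ev]; exact divL a4 hV1 hτ0
  have k3 : τ / τ0 ≤ fx w := by rw [ew]; exact divU a5 hV hV0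
  have q1 : Nat.blt piX (mL (SC + z0) y0) = false := by
    refine le_piX (mulL ?_ a2) D.t
    rw [fx_add, fx_one]
    linarith
  have q2 : Nat.blt (ic 11 10).2 (mL (mL v hcL) (mL v hcL)) = false := by
    have m1 := mulL k2 k1
    have m2 := mulL m1 m1
    have m3 : ((11 : ℕ) : ℝ) / ((10 : ℕ) : ℝ) ≤ fx (ic 11 10).2 := (Mem.const 11 10 (by norm_num)).2
    refine blt_false m2 m3 ?_
    have hI := D.I
    have e : τ / τ0 * (h * c) * (τ / τ0 * (h * c)) = (τ * h * c) ^ (2 : ℕ) / τ0 ^ (2 : ℕ) := by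
      field_simp
    rw [e, div_le_iff₀ (by positivity)]
    push_cast
    exact hI
  have q3 : Nat.blt (piX / 2 + 1) (mL v y0) = false := by
    have m1 := mulL k2 a2
    have m2 := half_up pi_leX
    refine blt_false m1 m2 ?_
    have hN := D.N4
    rw [div_mul_eq_mul_div, div_le_iff₀ hτ0]
    linarith
  rw [q1, q2, q3] at hx
  simp only [Bool.false_or] at hx
  have hG : fx (max (dL E (mU w w)) (mL (ic 499 10).1 (mL hcL hcL))) ≤ Γ := by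
    rcases max_cases (dL E (mU w w)) (mL (ic 499 10).1 (mL hcL hcL)) with ⟨e, _⟩ | ⟨e, _⟩
    · rw [e]
      have m1 := mulU k3 k3 (by positivity)
      have m2 : fx (dL E (mU w w)) ≤ G0 / (τ / τ0 * (τ / τ0)) := divL hE m1 (by positivity)
      refine m2.trans ?_
      have hGG := D.G
      rw [div_le_iff₀ (by positivity)]
      have e2 : Γ * (τ / τ0 * (τ / τ0)) = Γ * τ ^ (2 : ℕ) / τ0 ^ (2 : ℕ) := by
        field_simp
      rw [e2, le_div_iff₀ (by positivity)]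
      exact hGG
    · rw [e]
      have m1 := mulL k1 k1
      have m2 := mulL (Mem.const 499 10 (by norm_num)).1 m1
      refine m2.trans ?_
      have hRR := D.R
      push_cast
      rw [← pow_two]
      exact hRR
  refine hs _ _ _ _ _ _ _ hx c ν h τ Γ _ _ hc hν hcn hh hτ.le D.t hG D.R mc mn mh mt ?_ ?_
  · have m1 : fx 32985348833 ≤ 3 / 100 := by unfold fx; norm_num
    exact mulL m1 k2
  · rw [pow_two]
    exact mulL k2 k2

/-- A RUN of `e`, left: the two charts. -/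
theorem runLE_of {chk : ℕ → ℕ → ℕ → I → I → I → I → Bool} {q g k τ0 G0 U0 UW UE : ℝ}
    (hs : SndL chk q g k U0 UW UE) {V0 V1 E : ℕ} (hτ0 : 0 < τ0) (hV : fx V0 ≤ τ0) (hV0 : 0 < V0)
    (hV1 : τ0 ≤ fx V1) (hE : fx E ≤ G0) {T1 T2 : BT} {Y Z : ℕ}
    (hY : Real.pi / (1 + τ0 / 2) ≤ fx Y) (hZ : fx Z ≤ τ0 / 2)
    (H1 : bisT (okLE chk V0 V1 E true) T1 0 769658139444 0 Y Z V1 = true)
    (H2 : bisT (okLE chk V0 V1 E false) T2 0 791648371999 0 Y Z V1 = true) :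
    RunLE q g k τ0 G0 U0 UW UE := by
  intro c ν h τ Γ D
  have hc := D.c0
  have hν := D.n0
  have hh := D.h0
  have hτ : 0 < τ := by linarith [D.u1]
  have y1 : h ≤ fx Y := by
    refine le_trans ?_ hY
    rw [le_div_iff₀ (by positivity)]
    nlinarith [D.t, D.u1]
  have z0 : fx Z ≤ τ := hZ.trans D.u1
  have z1 : τ ≤ fx V1 := D.u2.trans hV1
  have o0 : fx 0 = 0 := fx_zero
  rcases chart D.cn with hx | hx
  · have e1 : (7 : ℝ) / 10 ≤ fx 769658139444 := by unfold fx; norm_num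
    exact bisT_sound (P := fun x y z => ∀ ν', ν' = ν → PtLE q g k τ0 G0 U0 UW UE x ν' y z)
      (fun x0 x1 y0 y1 z0 z1 hk x y z b0' b1' b2 b3 b4 b5 ν' _ =>
        okLE_sound (ch := true) (c := x) (ν := ν') hs hτ0 hV hV0 hV1 hE hk b0' b1' b2 b3 b4 b5)
      T1 _ _ _ _ _ _ H1 c h τ (by rw [o0]; exact hc.le) (hx.trans e1)
      (by rw [o0]; exact hh.le) y1 z0 z1 ν rfl Γ D
  · have e1 : (18 : ℝ) / 25 ≤ fx 791648371999 := by unfold fx; norm_num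
    exact bisT_sound (P := fun x y z => ∀ c', c' = c → PtLE q g k τ0 G0 U0 UW UE c' x y z)
      (fun x0 x1 y0 y1 z0 z1 hk x y z b0' b1' b2 b3 b4 b5 c' _ =>
        okLE_sound (ch := false) (c := c') (ν := x) hs hτ0 hV hV0 hV1 hE hk b0' b1' b2 b3 b4 b5)
      T2 _ _ _ _ _ _ H2 ν h τ (by rw [o0]; exact hν.le) (hx.trans e1)
      (by rw [o0]; exact hh.le) y1 z0 z1 c rfl Γ D

end SokamCel

end

/-! ### Lib_MP_af4de1_v3.CelRunLG -/

section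
namespace SokamCen
end SokamCen
namespace SokamFN
end SokamFN
namespace SokamV3
end SokamV3
/-!
# Cells, left side: `chkL` gives `RunL`; runs of the left side along trees (helper93)
-/

set_option autoImplicit false

namespace SokamCel

open SokamFN SokamV3 SokamCen Real

/-- `chkL` gives `RunL` -/
theorem chkL_runE {P : Par} {q g kk c ν h τ Γ U0 UW UE f0 f1 f2 : ℝ} (hP : P.Ok (5 / 4) q g kk)
    {F0 F1 F2 r0 rW re G : ℕ} {ci ni hi ui : I}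
    (hx : chkL P F0 F1 F2 r0 rW re G ci ni hi ui = true)
    (hc : 0 < c) (hν : 0 < ν) (hcn : c ^ (2 : ℕ) + ν ^ (2 : ℕ) = 1) (hh : 0 < h) (hτ : 0 ≤ τ)
    (htp : (1 + τ) * h ≤ π) (hG : fx G ≤ Γ) (hR : 499 / 10 * (h * c) ^ (2 : ℕ) ≤ Γ)
    (mc : Mem c ci) (mn : Mem ν ni) (mh : Mem h hi) (mu : Mem τ ui)
    (hU : 0 ≤ U0) (hU0 : U0 ≤ fx r0) (hUW : UW ≤ fx rW) (hUE : UE ≤ fx re)
    (hf0 : fx F0 ≤ f0) (hf1 : fx F1 ≤ f1) (hf2 : fx F2 ≤ f2) :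
    RunL (5 / 4) q g kk c ν h τ Γ U0 UW UE f0 f1 f2 := by
  have hν1 : ν < 1 := by
    have h2 : 0 < c ^ (2 : ℕ) := by positivity
    nlinarith only [hx, hc, hcn]
  have ht : 0 < (1 + τ) * h := by (clear * - hτ hh; positivity)
  have hΓ : 0 < Γ := by
    have h2 : 0 < 499 / 10 * (h * c) ^ (2 : ℕ) := by (clear * - hh hc; positivity)
    linarith only [hR, h2]
  have htp' := Ltp_pos htp
  have hT' : 0 ≤ LTp (5 / 4) c h τ := by unfold LTp; (clear * - htp' hc; positivity)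
  have hA : 0 ≤ iA (5 / 4) c ν h τ := (Lr_pos (by norm_num) hν hν1 hT').le
  obtain ⟨β, σ, hb, hb0, s0, s1, L⟩ := chkL_sound hP hx hG hc hν hν1.le hh hτ htp mc mn mh mu hA hU
    hU0 hUW hUE hf0 hf1 hf2
  have hW : Win β ((1 + τ) * h) := by
    rcases hb with ⟨e, _⟩ | e
    · rw [e]; exact win_b ht htp
    · rw [e]; exact win_all _
  exact L.run (by norm_num) hc hν hν1 hh hτ hΓ htp hb0 hW s0 s1

/-- the checker of `e` is sound -/
theorem sndL_of {P : Par} {q g kk U0 UW UE : ℝ} (hP : P.Ok (5 / 4) q g kk) {r0 rW re : ℕ}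
    (hU : 0 ≤ U0) (hU0 : U0 ≤ fx r0) (hUW : UW ≤ fx rW) (hUE : UE ≤ fx re) :
    SndL (fun F1 F2 G c n h u => chkL P 16492674416 F1 F2 r0 rW re G c n h u) q g kk U0 UW UE := by
  intro F1 F2 G ci ni hi ui hx c ν h τ Γ f1 f2 hc hν hcn hh hτ htp hG hR mc mn mh mu hf1 hf2
  refine chkL_runE hP hx hc hν hcn hh hτ htp hG hR mc mn mh mu hU hU0 hUW hUE ?_ hf1 hf2
  unfold fx
  norm_num

/-- the checker of the fields `a`, `b` (data of the run `K`) -/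
def chkK (K : RnD) (G : ℕ) (c n h u : I) : Bool :=
  chkL K.P K.F0 K.F1 K.F2 K.s0 K.sW K.se G c n h u

/-- A RUN of the left side along two trees. -/
theorem runsL_by {K : RnD} {q g kk U0 UW UE f0 f1 f2 t0 t1 : ℝ} (hP : K.P.Ok (5 / 4) q g kk)
    (hU : 0 ≤ U0) (hU0 : U0 ≤ fx K.s0) (hUW : UW ≤ fx K.sW) (hUE : UE ≤ fx K.se)
    (hf0 : fx K.F0 ≤ f0) (hf1 : fx K.F1 ≤ f1) (hf2 : fx K.F2 ≤ f2)
    {tc tn : BT} {xc xn y1 z0 z1 : ℕ}
    (hC : bisT (okGC (celG K (chkK K))) tc 0 xc 0 y1 z0 z1 = true)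
    (hN : bisT (okGN (celG K (chkK K))) tn 0 xn 0 y1 z0 z1 = true)
    (ec : 7 / 10 ≤ fx xc) (en : 18 / 25 ≤ fx xn) (ey : 2 * π / 3 ≤ fx y1)
    (e0 : fx z0 ≤ t0) (e1 : t1 ≤ fx z1) : RunsL K q g kk U0 UW UE f0 f1 f2 t0 t1 := by
  intro c ν h τ Γ D hh h0 h1
  refine run_tree (P := fun c ν h τ Γ => RunL (5 / 4) q g kk c ν h τ Γ U0 UW UE f0 f1 f2) ?_ hC hN ec
    en D (by rw [fx_zero]; exact D.h0.le) (hh.trans ey) (e0.trans h0) (h1.trans e1)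
  intro G ci ni hi ui hx c ν h τ Γ D hG mc mn mh mu
  exact chkL_runE hP hx D.c0 D.n0 D.cn D.h0 D.u0 D.tp hG D.G1 mc mn mh mu hU hU0 hUW hUE hf0 hf1 hf2

end SokamCel

end

/-! ### Lib_MP_af4de1_v3.RunLE0 -/

section
namespace SokamFN
end SokamFN
/-!
# The left runs: constants (helper93)
-/

set_option autoImplicit false

namespace SokamCel

open SokamFN

/-- constants of the class `Γ < 10` -/
def PLA : Par := ⟨ic 5 4, ic 4 5, ic 11 10, ic 3 5, ic 1 1⟩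

/-- constants of the classes `10 ≤ Γ` -/
def PLB : Par := ⟨ic 5 4, ic 4 5, ic 23 20, ic 3 5, ic 1 1⟩

theorem PLA_ok : PLA.Ok (5 / 4) (11 / 10) (6 / 5) 1 where
  hM := by exact_mod_cast Mem.const 5 4 (by norm_num)
  hN := by
    have h := Mem.const 4 5 (by norm_num)
    norm_num at h ⊢
    exact h
  hq := by exact_mod_cast Mem.const 11 10 (by norm_num)
  hg := by
    have h := Mem.const 3 5 (by norm_num)
    norm_num at h ⊢
    exact h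
  hk := by
    have h := Mem.const 1 1 (by norm_num)
    norm_num at h ⊢
    exact h
  pos := by norm_num
  le := by norm_num

theorem PLB_ok : PLB.Ok (5 / 4) (23 / 20) (6 / 5) 1 where
  hM := by exact_mod_cast Mem.const 5 4 (by norm_num)
  hN := by
    have h := Mem.const 4 5 (by norm_num)
    norm_num at h ⊢
    exact h
  hq := by exact_mod_cast Mem.const 23 20 (by norm_num)
  hg := by
    have h := Mem.const 3 5 (by norm_num)
    norm_num at h ⊢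
    exact h
  hk := by
    have h := Mem.const 1 1 (by norm_num)
    norm_num at h ⊢
    exact h
  pos := by norm_num
  le := by norm_num

/-- checker of `e`, `Γ < 10` -/
def chkLA (F1 F2 G : ℕ) (c n h u : I) : Bool :=
  chkL PLA 16492674416 F1 F2 3665039 122167959 1570731 G c n h u

/-- checker of `e`, `10 ≤ Γ < 20` -/
def chkLB (F1 F2 G : ℕ) (c n h u : I) : Bool :=
  chkL PLB 16492674416 F1 F2 4398047 233938645 1570731 G c n h u

/-- checker of `e`, `20 ≤ Γ` -/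
def chkLC (F1 F2 G : ℕ) (c n h u : I) : Bool :=
  chkL PLB 16492674416 F1 F2 122167959 1979120930 27487791 G c n h u

theorem chkLA_snd : SndL chkLA (11 / 10) (6 / 5) 1 (1 / 300000) (1 / 9000) (1 / 700000) :=
  sndL_of (r0 := 3665039) (rW := 122167959) (re := 1570731) PLA_ok (by norm_num)
    (by unfold fx; norm_num) (by unfold fx; norm_num) (by unfold fx; norm_num)

theorem chkLB_snd : SndL chkLB (23 / 20) (6 / 5) 1 (1 / 250000) (1 / 4700) (1 / 700000) :=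
  sndL_of (r0 := 4398047) (rW := 233938645) (re := 1570731) PLB_ok (by norm_num)
    (by unfold fx; norm_num) (by unfold fx; norm_num) (by unfold fx; norm_num)

theorem chkLC_snd : SndL chkLC (23 / 20) (6 / 5) 1 (1 / 9000) (18 / 10000) (1 / 40000) :=
  sndL_of (r0 := 122167959) (rW := 1979120930) (re := 27487791) PLB_ok (by norm_num)
    (by unfold fx; norm_num) (by unfold fx; norm_num) (by unfold fx; norm_num)

end SokamCel

end

/-! ### Lib_MP_af4de1_v3.RunLab0 -/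

section
namespace SokamFN
end SokamFN
/-!
# The left runs of the fields `a`, `b`: constants (helper93)
-/

set_option autoImplicit false

namespace SokamCel

open SokamFN

/-- data of the run of `a` -/
def KLa : RnD where
  P := PLA
  G0 := 5937362789990
  H := 220343011579
  s0 := 3665039
  sW := 122167959
  se := 1570731
  F0 := 219902325555
  F1 := 219902325555
  F2 := 1099511627776

/-- data of the run of `b` -/
def KLb : RnD where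
  P := PLA
  G0 := 5937362789990
  H := 220343011579
  s0 := 3665039
  sW := 122167959
  se := 1570731
  F0 := 87960930222
  F1 := 87960930222
  F2 := 142936511610

end SokamCel

end

/-! ### Lib_MP_af4de1_v3.LevC2a -/

section
/-!
# Polynomial certificates for the level lemma on the right side, `|η| ≤ π/5`

`n = -y`, `u = ρ²`; `hC` is the constraint `(ρ t)² ≤ (79/200) u`.
-/

set_option autoImplicit false
set_option linter.unusedVariables false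

namespace SokamV3

private theorem lc2_g_0_0 {n : ℝ} (h0 : 0 ≤ n) (h1 : n ≤ (6 / 25)) :
    0 ≤ ((7 / 5) + 1 * n ^ (2 : ℕ)) * (1 - 3 / 2 * n + n ^ (2 : ℕ) - 5 / 12 * n ^ (3 : ℕ)) ^ (2 : ℕ) - ((281 / 250) * (1 - 2 * n + 3 / 2 * n ^ (2 : ℕ) - 1 / 2 * n ^ (3 : ℕ))) - 0 * (((7 / 5) + 1 * n ^ (2 : ℕ)) * (1 + 1 / 2 * n + 1 / 6 * n ^ (2 : ℕ)) ^ (2 : ℕ) - (1 + 2 / 3 * n + 3 / 10 * n ^ (2 : ℕ))) := by
  obtain ⟨v, hv, rfl⟩ : ∃ v : ℝ, 0 ≤ v ∧ n = 0 + v := ⟨n - 0, by linarith only [h0], by ring⟩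
  obtain ⟨w, hw, e⟩ : ∃ w : ℝ, 0 ≤ w ∧ w = (6 / 25) - v := ⟨_, by linarith only [h1], rfl⟩
  have key : (0 : ℝ) ≤ (28076171875 / 1119744) * w ^ (8 : ℕ) +
      (7373046875 / 46656) * v * w ^ (7 : ℕ) +
      (120845703125 / 279936) * v ^ (2 : ℕ) * w ^ (6 : ℕ) +
      (186392890625 / 279936) * v ^ (3 : ℕ) * w ^ (5 : ℕ) +
      (13104453125 / 20736) * v ^ (4 : ℕ) * w ^ (4 : ℕ) +
      (26312734375 / 69984) * v ^ (5 : ℕ) * w ^ (3 : ℕ) +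
      (38018288125 / 279936) * v ^ (6 : ℕ) * w ^ (2 : ℕ) +
      (2505800375 / 93312) * v ^ (7 : ℕ) * w +
      (2425630775 / 1119744) * v ^ (8 : ℕ) := by positivity
  refine key.trans (le_of_eq ?_)
  rw [e]
  ring

private theorem lc2_g_0_1 {n : ℝ} (h0 : 0 ≤ n) (h1 : n ≤ (6 / 25)) :
    0 ≤ 2 * ((7 / 5) + 1 * n ^ (2 : ℕ)) * ((1 - 3 / 2 * n + n ^ (2 : ℕ) - 5 / 12 * n ^ (3 : ℕ)) * (1 + 1 / 2 * n + 1 / 6 * n ^ (2 : ℕ))) - (1 + 2 / 3 * n + 3 / 10 * n ^ (2 : ℕ)) - ((281 / 250) * (1 - 2 * n + 3 / 2 * n ^ (2 : ℕ) - 1 / 2 * n ^ (3 : ℕ))) - (79 / 200) + 0 * (((7 / 5) + 1 * n ^ (2 : ℕ)) * (1 + 1 / 2 * n + 1 / 6 * n ^ (2 : ℕ)) ^ (2 : ℕ) - (1 + 2 / 3 * n + 3 / 10 * n ^ (2 : ℕ))) := by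
  obtain ⟨v, hv, rfl⟩ : ∃ v : ℝ, 0 ≤ v ∧ n = 0 + v := ⟨n - 0, by linarith only [h0], by ring⟩
  obtain ⟨w, hw, e⟩ : ∃ w : ℝ, 0 ≤ w ∧ w = (6 / 25) - v := ⟨_, by linarith only [h1], rfl⟩
  have key : (0 : ℝ) ≤ (13720703125 / 2239488) * w ^ (7 : ℕ) +
      (81763671875 / 2239488) * v * w ^ (6 : ℕ) +
      (68589296875 / 746496) * v ^ (2 : ℕ) * w ^ (5 : ℕ) +
      (281323334375 / 2239488) * v ^ (3 : ℕ) * w ^ (4 : ℕ) +
      (222779359375 / 2239488) * v ^ (4 : ℕ) * w ^ (3 : ℕ) +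
      (33245381875 / 746496) * v ^ (5 : ℕ) * w ^ (2 : ℕ) +
      (22124429275 / 2239488) * v ^ (6 : ℕ) * w +
      (1568919485 / 2239488) * v ^ (7 : ℕ) := by positivity
  refine key.trans (le_of_eq ?_)
  rw [e]
  ring

private theorem lc2_g_0_2 {n : ℝ} (h0 : 0 ≤ n) (h1 : n ≤ (6 / 25)) :
    0 ≤ ((7 / 5) + 1 * n ^ (2 : ℕ)) * (1 + 1 / 2 * n + 1 / 6 * n ^ (2 : ℕ)) ^ (2 : ℕ) - (1 + 2 / 3 * n + 3 / 10 * n ^ (2 : ℕ)) := by
  obtain ⟨v, hv, rfl⟩ : ∃ v : ℝ, 0 ≤ v ∧ n = 0 + v := ⟨n - 0, by linarith only [h0], by ring⟩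
  obtain ⟨w, hw, e⟩ : ∃ w : ℝ, 0 ≤ w ∧ w = (6 / 25) - v := ⟨_, by linarith only [h1], rfl⟩
  have key : (0 : ℝ) ≤ (48828125 / 23328) * w ^ (6 : ℕ) +
      (314453125 / 23328) * v * w ^ (5 : ℕ) +
      (1701015625 / 46656) * v ^ (2 : ℕ) * w ^ (4 : ℕ) +
      (618071875 / 11664) * v ^ (3 : ℕ) * w ^ (3 : ℕ) +
      (508872875 / 11664) * v ^ (4 : ℕ) * w ^ (2 : ℕ) +
      (449810825 / 23328) * v ^ (5 : ℕ) * w +
      (55551107 / 15552) * v ^ (6 : ℕ) := by positivity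
  refine key.trans (le_of_eq ?_)
  rw [e]
  ring

private theorem lc2_g_1_0 {n : ℝ} (h0 : (6 / 25) ≤ n) (h1 : n ≤ (9 / 25)) :
    0 ≤ ((7 / 5) + (3 / 2) * n ^ (2 : ℕ)) * (1 - 3 / 2 * n + n ^ (2 : ℕ) - 5 / 12 * n ^ (3 : ℕ)) ^ (2 : ℕ) - ((281 / 250) * (1 - 2 * n + 3 / 2 * n ^ (2 : ℕ) - 1 / 2 * n ^ (3 : ℕ))) - (1 / 100) * (((7 / 5) + (3 / 2) * n ^ (2 : ℕ)) * (1 + 1 / 2 * n + 1 / 6 * n ^ (2 : ℕ)) ^ (2 : ℕ) - (1 + 2 / 3 * n + 3 / 10 * n ^ (2 : ℕ))) := by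
  obtain ⟨v, hv, rfl⟩ : ∃ v : ℝ, 0 ≤ v ∧ n = (6 / 25) + v := ⟨n - (6 / 25), by linarith only [h0], by ring⟩
  obtain ⟨w, hw, e⟩ : ∃ w : ℝ, 0 ≤ w ∧ w = (3 / 25) - v := ⟨_, by linarith only [h1], rfl⟩
  have key : (0 : ℝ) ≤ (6192264875 / 8748) * w ^ (8 : ℕ) +
      (60170718175 / 13122) * v * w ^ (7 : ℕ) +
      (1342561875725 / 104976) * v ^ (2 : ℕ) * w ^ (6 : ℕ) +
      (38776802125 / 1944) * v ^ (3 : ℕ) * w ^ (5 : ℕ) +
      (3959055672125 / 209952) * v ^ (4 : ℕ) * w ^ (4 : ℕ) +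
      (1143093143125 / 104976) * v ^ (5 : ℕ) * w ^ (3 : ℕ) +
      (254167470275 / 69984) * v ^ (6 : ℕ) * w ^ (2 : ℕ) +
      (3866597525 / 6561) * v ^ (7 : ℕ) * w +
      (5247390625 / 209952) * v ^ (8 : ℕ) := by positivity
  refine key.trans (le_of_eq ?_)
  rw [e]
  ring

private theorem lc2_g_1_1 {n : ℝ} (h0 : (6 / 25) ≤ n) (h1 : n ≤ (9 / 25)) :
    0 ≤ 2 * ((7 / 5) + (3 / 2) * n ^ (2 : ℕ)) * ((1 - 3 / 2 * n + n ^ (2 : ℕ) - 5 / 12 * n ^ (3 : ℕ)) * (1 + 1 / 2 * n + 1 / 6 * n ^ (2 : ℕ))) - (1 + 2 / 3 * n + 3 / 10 * n ^ (2 : ℕ)) - ((281 / 250) * (1 - 2 * n + 3 / 2 * n ^ (2 : ℕ) - 1 / 2 * n ^ (3 : ℕ))) - (237 / 400) + (1 / 5) * (((7 / 5) + (3 / 2) * n ^ (2 : ℕ)) * (1 + 1 / 2 * n + 1 / 6 * n ^ (2 : ℕ)) ^ (2 : ℕ) - (1 + 2 / 3 * n + 3 / 10 * n ^ (2 : ℕ))) := by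
  obtain ⟨v, hv, rfl⟩ : ∃ v : ℝ, 0 ≤ v ∧ n = (6 / 25) + v := ⟨n - (6 / 25), by linarith only [h0], by ring⟩
  obtain ⟨w, hw, e⟩ : ∃ w : ℝ, 0 ≤ w ∧ w = (3 / 25) - v := ⟨_, by linarith only [h1], rfl⟩
  have key : (0 : ℝ) ≤ (255188275 / 3888) * w ^ (7 : ℕ) +
      (4529057855 / 11664) * v * w ^ (6 : ℕ) +
      (3870835415 / 3888) * v ^ (2 : ℕ) * w ^ (5 : ℕ) +
      (5608186525 / 3888) * v ^ (3 : ℕ) * w ^ (4 : ℕ) +
      (14961867025 / 11664) * v ^ (4 : ℕ) * w ^ (3 : ℕ) +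
      (2734479125 / 3888) * v ^ (5 : ℕ) * w ^ (2 : ℕ) +
      (10585715 / 48) * v ^ (6 : ℕ) * w +
      (355209605 / 11664) * v ^ (7 : ℕ) := by positivity
  refine key.trans (le_of_eq ?_)
  rw [e]
  ring

private theorem lc2_g_1_2 {n : ℝ} (h0 : (6 / 25) ≤ n) (h1 : n ≤ (9 / 25)) :
    0 ≤ ((7 / 5) + (3 / 2) * n ^ (2 : ℕ)) * (1 + 1 / 2 * n + 1 / 6 * n ^ (2 : ℕ)) ^ (2 : ℕ) - (1 + 2 / 3 * n + 3 / 10 * n ^ (2 : ℕ)) := by
  obtain ⟨v, hv, rfl⟩ : ∃ v : ℝ, 0 ≤ v ∧ n = (6 / 25) + v := ⟨n - (6 / 25), by linarith only [h0], by ring⟩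
  obtain ⟨w, hw, e⟩ : ∃ w : ℝ, 0 ≤ w ∧ w = (3 / 25) - v := ⟨_, by linarith only [h1], rfl⟩
  have key : (0 : ℝ) ≤ (58541723 / 243) * w ^ (6 : ℕ) +
      (1113977596 / 729) * v * w ^ (5 : ℕ) +
      (11792907815 / 2916) * v ^ (2 : ℕ) * w ^ (4 : ℕ) +
      (4166802220 / 729) * v ^ (3 : ℕ) * w ^ (3 : ℕ) +
      (26532053105 / 5832) * v ^ (4 : ℕ) * w ^ (2 : ℕ) +
      (2818758697 / 1458) * v ^ (5 : ℕ) * w +
      (249800434 / 729) * v ^ (6 : ℕ) := by positivity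
  refine key.trans (le_of_eq ?_)
  rw [e]
  ring

private theorem lc2_g_2_0 {n : ℝ} (h0 : (9 / 25) ≤ n) (h1 : n ≤ (2 / 5)) :
    0 ≤ ((7 / 5) + 2 * n ^ (2 : ℕ)) * (1 - 3 / 2 * n + n ^ (2 : ℕ) - 5 / 12 * n ^ (3 : ℕ)) ^ (2 : ℕ) - ((281 / 250) * (1 - 2 * n + 3 / 2 * n ^ (2 : ℕ) - 1 / 2 * n ^ (3 : ℕ))) - (49 / 2500) * (((7 / 5) + 2 * n ^ (2 : ℕ)) * (1 + 1 / 2 * n + 1 / 6 * n ^ (2 : ℕ)) ^ (2 : ℕ) - (1 + 2 / 3 * n + 3 / 10 * n ^ (2 : ℕ))) := by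
  obtain ⟨v, hv, rfl⟩ : ∃ v : ℝ, 0 ≤ v ∧ n = (9 / 25) + v := ⟨n - (9 / 25), by linarith only [h0], by ring⟩
  obtain ⟨w, hw, e⟩ : ∃ w : ℝ, 0 ≤ w ∧ w = (1 / 25) - v := ⟨_, by linarith only [h1], rfl⟩
  have key : (0 : ℝ) ≤ (25594869323 / 16) * w ^ (8 : ℕ) +
      (287585250049 / 24) * v * w ^ (7 : ℕ) +
      (156761151247 / 4) * v ^ (2 : ℕ) * w ^ (6 : ℕ) +
      (292268565655 / 4) * v ^ (3 : ℕ) * w ^ (5 : ℕ) +
      (6112801167875 / 72) * v ^ (4 : ℕ) * w ^ (4 : ℕ) +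
      (1132582653125 / 18) * v ^ (5 : ℕ) * w ^ (3 : ℕ) +
      (1393288740625 / 48) * v ^ (6 : ℕ) * w ^ (2 : ℕ) +
      (68529690625 / 9) * v ^ (7 : ℕ) * w +
      (10424359375 / 12) * v ^ (8 : ℕ) := by positivity
  refine key.trans (le_of_eq ?_)
  rw [e]
  ring

private theorem lc2_g_2_1 {n : ℝ} (h0 : (9 / 25) ≤ n) (h1 : n ≤ (2 / 5)) :
    0 ≤ 2 * ((7 / 5) + 2 * n ^ (2 : ℕ)) * ((1 - 3 / 2 * n + n ^ (2 : ℕ) - 5 / 12 * n ^ (3 : ℕ)) * (1 + 1 / 2 * n + 1 / 6 * n ^ (2 : ℕ))) - (1 + 2 / 3 * n + 3 / 10 * n ^ (2 : ℕ)) - ((281 / 250) * (1 - 2 * n + 3 / 2 * n ^ (2 : ℕ) - 1 / 2 * n ^ (3 : ℕ))) - (79 / 100) + (7 / 25) * (((7 / 5) + 2 * n ^ (2 : ℕ)) * (1 + 1 / 2 * n + 1 / 6 * n ^ (2 : ℕ)) ^ (2 : ℕ) - (1 + 2 / 3 * n + 3 / 10 * n ^ (2 : ℕ))) := by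
  obtain ⟨v, hv, rfl⟩ : ∃ v : ℝ, 0 ≤ v ∧ n = (9 / 25) + v := ⟨n - (9 / 25), by linarith only [h0], by ring⟩
  obtain ⟨w, hw, e⟩ : ∃ w : ℝ, 0 ≤ w ∧ w = (1 / 25) - v := ⟨_, by linarith only [h1], rfl⟩
  have key : (0 : ℝ) ≤ (250323151 / 4) * w ^ (7 : ℕ) +
      (7562952803 / 12) * v * w ^ (6 : ℕ) +
      (7442265130 / 3) * v ^ (2 : ℕ) * w ^ (5 : ℕ) +
      (61676219875 / 12) * v ^ (3 : ℕ) * w ^ (4 : ℕ) +
      (55492015625 / 9) * v ^ (4 : ℕ) * w ^ (3 : ℕ) +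
      (155782203125 / 36) * v ^ (5 : ℕ) * w ^ (2 : ℕ) +
      (6622415625 / 4) * v ^ (6 : ℕ) * w +
      (9630171875 / 36) * v ^ (7 : ℕ) := by positivity
  refine key.trans (le_of_eq ?_)
  rw [e]
  ring

private theorem lc2_g_2_2 {n : ℝ} (h0 : (9 / 25) ≤ n) (h1 : n ≤ (2 / 5)) :
    0 ≤ ((7 / 5) + 2 * n ^ (2 : ℕ)) * (1 + 1 / 2 * n + 1 / 6 * n ^ (2 : ℕ)) ^ (2 : ℕ) - (1 + 2 / 3 * n + 3 / 10 * n ^ (2 : ℕ)) := by
  obtain ⟨v, hv, rfl⟩ : ∃ v : ℝ, 0 ≤ v ∧ n = (9 / 25) + v := ⟨n - (9 / 25), by linarith only [h0], by ring⟩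
  obtain ⟨w, hw, e⟩ : ∃ w : ℝ, 0 ≤ w ∧ w = (1 / 25) - v := ⟨_, by linarith only [h1], rfl⟩
  have key : (0 : ℝ) ≤ (545284949 / 2) * w ^ (6 : ℕ) +
      (5015044465 / 3) * v * w ^ (5 : ℕ) +
      (51253535875 / 12) * v ^ (2 : ℕ) * w ^ (4 : ℕ) +
      (34923696875 / 6) * v ^ (3 : ℕ) * w ^ (3 : ℕ) +
      (160641340625 / 36) * v ^ (4 : ℕ) * w ^ (2 : ℕ) +
      (16421668750 / 9) * v ^ (5 : ℕ) * w +
      (2798078125 / 9) * v ^ (6 : ℕ) := by positivity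
  refine key.trans (le_of_eq ?_)
  rw [e]
  ring

theorem lc2_g {n u : ℝ} (h0 : 0 ≤ n) (h1 : n ≤ (2 / 5)) (hu : 0 ≤ u)
    (hC : n ^ (2 : ℕ) * ((1 - 3 / 2 * n + n ^ (2 : ℕ) - 5 / 12 * n ^ (3 : ℕ)) + u * (1 + 1 / 2 * n + 1 / 6 * n ^ (2 : ℕ))) ^ (2 : ℕ) ≤ (79 / 200) * u) :
    (1 + u) * (u * (1 + 2 / 3 * n + 3 / 10 * n ^ (2 : ℕ)) + ((281 / 250) * (1 - 2 * n + 3 / 2 * n ^ (2 : ℕ) - 1 / 2 * n ^ (3 : ℕ)))) ≤
      (7 / 5) * ((1 - 3 / 2 * n + n ^ (2 : ℕ) - 5 / 12 * n ^ (3 : ℕ)) + u * (1 + 1 / 2 * n + 1 / 6 * n ^ (2 : ℕ))) ^ (2 : ℕ) := by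
  rcases le_total n (6 / 25) with h | h
  · have c0 := lc2_g_0_0 (n := n) (by linarith only [h0]) (by linarith only [h])
    have c1 := lc2_g_0_1 (n := n) (by linarith only [h0]) (by linarith only [h])
    have c2 := lc2_g_0_2 (n := n) (by linarith only [h0]) (by linarith only [h])
    linarith only [mul_nonneg (by norm_num : (0 : ℝ) ≤ 1) (sub_nonneg.2 hC), c0, mul_nonneg c1 hu, mul_nonneg c2 (sq_nonneg (u - 0))]
  rcases le_total n (9 / 25) with h | h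
  · have c0 := lc2_g_1_0 (n := n) (by linarith) (by linarith only [h])
    have c1 := lc2_g_1_1 (n := n) (by linarith) (by linarith only [h])
    have c2 := lc2_g_1_2 (n := n) (by linarith) (by linarith only [h])
    linarith only [mul_nonneg (by norm_num : (0 : ℝ) ≤ (3 / 2)) (sub_nonneg.2 hC), c0, mul_nonneg c1 hu, mul_nonneg c2 (sq_nonneg (u - (1 / 10)))]
  have c0 := lc2_g_2_0 (n := n) (by linarith only [h]) (by linarith only [h1])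
  have c1 := lc2_g_2_1 (n := n) (by linarith only [h]) (by linarith only [h1])
  have c2 := lc2_g_2_2 (n := n) (by linarith only [h]) (by linarith only [h1])
  linarith only [mul_nonneg (by norm_num : (0 : ℝ) ≤ 2) (sub_nonneg.2 hC), c0, mul_nonneg c1 hu, mul_nonneg c2 (sq_nonneg (u - (7 / 50)))]

private theorem lc2_k_0_0 {n : ℝ} (h0 : 0 ≤ n) (h1 : n ≤ (2 / 5)) :
    0 ≤ ((9 / 4) + 3 * n ^ (2 : ℕ)) * (1 - 3 / 2 * n + n ^ (2 : ℕ) - 5 / 12 * n ^ (3 : ℕ)) ^ (2 : ℕ) - ((281 / 250) * (1 - n + 1 / 2 * n ^ (2 : ℕ))) - 0 * (((9 / 4) + 3 * n ^ (2 : ℕ)) * (1 + 1 / 2 * n + 1 / 6 * n ^ (2 : ℕ)) ^ (2 : ℕ) - (1 + 1 / 2 * n + 1 / 6 * n ^ (2 : ℕ) + 3 / 50 * n ^ (3 : ℕ)) ^ (2 : ℕ)) := by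
  obtain ⟨v, hv, rfl⟩ : ∃ v : ℝ, 0 ≤ v ∧ n = 0 + v := ⟨n - 0, by linarith only [h0], by ring⟩
  obtain ⟨w, hw, e⟩ : ∃ w : ℝ, 0 ≤ w ∧ w = (2 / 5) - v := ⟨_, by linarith only [h1], rfl⟩
  have key : (0 : ℝ) ≤ (1759375 / 1024) * w ^ (8 : ℕ) +
      (5279375 / 512) * v * w ^ (7 : ℕ) +
      (27648875 / 1024) * v ^ (2 : ℕ) * w ^ (6 : ℕ) +
      (2557625 / 64) * v ^ (3 : ℕ) * w ^ (5 : ℕ) +
      (36989375 / 1024) * v ^ (4 : ℕ) * w ^ (4 : ℕ) +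
      (10234875 / 512) * v ^ (5 : ℕ) * w ^ (3 : ℕ) +
      (6476825 / 1024) * v ^ (6 : ℕ) * w ^ (2 : ℕ) +
      (235625 / 256) * v ^ (7 : ℕ) * w +
      (28625 / 1536) * v ^ (8 : ℕ) := by positivity
  refine key.trans (le_of_eq ?_)
  rw [e]
  ring

private theorem lc2_k_0_1 {n : ℝ} (h0 : 0 ≤ n) (h1 : n ≤ (2 / 5)) :
    0 ≤ 2 * ((9 / 4) + 3 * n ^ (2 : ℕ)) * ((1 - 3 / 2 * n + n ^ (2 : ℕ) - 5 / 12 * n ^ (3 : ℕ)) * (1 + 1 / 2 * n + 1 / 6 * n ^ (2 : ℕ))) - (1 + 1 / 2 * n + 1 / 6 * n ^ (2 : ℕ) + 3 / 50 * n ^ (3 : ℕ)) ^ (2 : ℕ) - ((281 / 250) * (1 - n + 1 / 2 * n ^ (2 : ℕ))) - (237 / 200) + 0 * (((9 / 4) + 3 * n ^ (2 : ℕ)) * (1 + 1 / 2 * n + 1 / 6 * n ^ (2 : ℕ)) ^ (2 : ℕ) - (1 + 1 / 2 * n + 1 / 6 * n ^ (2 : ℕ) + 3 / 50 * n ^ (3 : ℕ)) ^ (2 : ℕ)) := by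
  obtain ⟨v, hv, rfl⟩ : ∃ v : ℝ, 0 ≤ v ∧ n = 0 + v := ⟨n - 0, by linarith only [h0], by ring⟩
  obtain ⟨w, hw, e⟩ : ∃ w : ℝ, 0 ≤ w ∧ w = (2 / 5) - v := ⟨_, by linarith only [h1], rfl⟩
  have key : (0 : ℝ) ≤ (744375 / 1024) * w ^ (7 : ℕ) +
      (4116625 / 1024) * v * w ^ (6 : ℕ) +
      (29222525 / 3072) * v ^ (2 : ℕ) * w ^ (5 : ℕ) +
      (38179475 / 3072) * v ^ (3 : ℕ) * w ^ (4 : ℕ) +
      (88312685 / 9216) * v ^ (4 : ℕ) * w ^ (3 : ℕ) +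
      (13083001 / 3072) * v ^ (5 : ℕ) * w ^ (2 : ℕ) +
      (365502419 / 384000) * v ^ (6 : ℕ) * w +
      (76350007 / 1152000) * v ^ (7 : ℕ) := by positivity
  refine key.trans (le_of_eq ?_)
  rw [e]
  ring

private theorem lc2_k_0_2 {n : ℝ} (h0 : 0 ≤ n) (h1 : n ≤ (2 / 5)) :
    0 ≤ ((9 / 4) + 3 * n ^ (2 : ℕ)) * (1 + 1 / 2 * n + 1 / 6 * n ^ (2 : ℕ)) ^ (2 : ℕ) - (1 + 1 / 2 * n + 1 / 6 * n ^ (2 : ℕ) + 3 / 50 * n ^ (3 : ℕ)) ^ (2 : ℕ) := by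
  obtain ⟨v, hv, rfl⟩ : ∃ v : ℝ, 0 ≤ v ∧ n = 0 + v := ⟨n - 0, by linarith only [h0], by ring⟩
  obtain ⟨w, hw, e⟩ : ∃ w : ℝ, 0 ≤ w ∧ w = (2 / 5) - v := ⟨_, by linarith only [h1], rfl⟩
  have key : (0 : ℝ) ≤ (78125 / 256) * w ^ (6 : ℕ) +
      (15625 / 8) * v * w ^ (5 : ℕ) +
      (2048125 / 384) * v ^ (2 : ℕ) * w ^ (4 : ℕ) +
      (254565 / 32) * v ^ (3 : ℕ) * w ^ (3 : ℕ) +
      (15731501 / 2304) * v ^ (4 : ℕ) * w ^ (2 : ℕ) +
      (4595923 / 1440) * v ^ (5 : ℕ) * w +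
      (56990801 / 90000) * v ^ (6 : ℕ) := by positivity
  refine key.trans (le_of_eq ?_)
  rw [e]
  ring

theorem lc2_k {n u : ℝ} (h0 : 0 ≤ n) (h1 : n ≤ (2 / 5)) (hu : 0 ≤ u)
    (hC : n ^ (2 : ℕ) * ((1 - 3 / 2 * n + n ^ (2 : ℕ) - 5 / 12 * n ^ (3 : ℕ)) + u * (1 + 1 / 2 * n + 1 / 6 * n ^ (2 : ℕ))) ^ (2 : ℕ) ≤ (79 / 200) * u) :
    (1 + u) * (u * (1 + 1 / 2 * n + 1 / 6 * n ^ (2 : ℕ) + 3 / 50 * n ^ (3 : ℕ)) ^ (2 : ℕ) + ((281 / 250) * (1 - n + 1 / 2 * n ^ (2 : ℕ)))) ≤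
      (9 / 4) * ((1 - 3 / 2 * n + n ^ (2 : ℕ) - 5 / 12 * n ^ (3 : ℕ)) + u * (1 + 1 / 2 * n + 1 / 6 * n ^ (2 : ℕ))) ^ (2 : ℕ) := by
  have c0 := lc2_k_0_0 (n := n) (by linarith only [h0]) (by linarith only [h1])
  have c1 := lc2_k_0_1 (n := n) (by linarith only [h0]) (by linarith only [h1])
  have c2 := lc2_k_0_2 (n := n) (by linarith only [h0]) (by linarith only [h1])
  linarith only [mul_nonneg (by norm_num : (0 : ℝ) ≤ 3) (sub_nonneg.2 hC), c0, mul_nonneg c1 hu, mul_nonneg c2 (sq_nonneg (u - 0))]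

end SokamV3

end

/-! ### Lib_MP_af4de1_v3.LevC2 -/

section
namespace SokamF1
end SokamF1
namespace SokamF1M
end SokamF1M
namespace SokamF1S
end SokamF1S
namespace SokamU
end SokamU
/-!
# The level on the right side for `|η| ≤ π/5`, `Γ ≥ 20` (needed for the waves `i ≥ 2`)
-/

set_option autoImplicit false

namespace SokamV3

open Complex SokamU SokamF1 SokamF1S SokamF1M

private theorem lc2_e40 : Real.exp (2 / 5) ≤ 3 / 2 := by
  refine (psa_exp_ub _ (by norm_num) (by norm_num)).trans ?_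
  norm_num

private theorem lc2_e40' : (14918 : ℝ) / 10000 ≤ Real.exp (2 / 5) := by
  refine le_trans ?_ (psa_exp_lb _ (by norm_num))
  norm_num

private theorem lc2_en40 : (6666 : ℝ) / 10000 ≤ Real.exp (-(2 / 5)) :=
  psa_exp_neg_lb lc2_e40 (by norm_num) (by norm_num)

private theorem lc2_t {ρ t η : ℝ} (hD : Dom ρ (-t)) (ht : t ≤ 53 / 100)
    (hE : sE ρ (-t) = η) (hs : η ^ (2 : ℕ) ≤ 79 / 200) : t ≤ 2 / 5 := by
  by_contra hcon
  push Not at hcon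
  have hρ := hD.1
  have h3 := sE_le_neg hD (by linarith) (by linarith)
  rw [hE] at h3
  have h4 : (4918 : ℝ) / 10000 ≤ Real.exp t - 1 := by
    have := lc2_e40'.trans (Real.exp_le_exp.2 hcon.le)
    linarith
  have h5 : (2133 : ℝ) / 10000 ≤ (t - t ^ (2 : ℕ) / 2) * Real.exp (-t) := by
    refine le_trans ?_ (lrd_tb_ge (t0 := 2 / 5) (by norm_num) hcon.le ht)
    have := lc2_en40
    norm_num
    linarith
  have h6 : 4918 / 10000 * ρ + 2133 / 10000 / ρ ≤ -η := by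
    refine le_trans (add_le_add ?_ ?_) h3
    · rw [mul_comm]
      exact mul_le_mul_of_nonneg_left h4 hρ.le
    · exact div_le_div_of_nonneg_right h5 hρ.le
  have h7 : 0 ≤ 4918 / 10000 * ρ + 2133 / 10000 / ρ := by positivity
  have h8 := mul_self_le_mul_self h7 h6
  have h9 : 4 * (4918 / 10000) * (2133 / 10000) ≤
      (4918 / 10000 * ρ + 2133 / 10000 / ρ) * (4918 / 10000 * ρ + 2133 / 10000 / ρ) := by
    have e : (4918 / 10000 * ρ + 2133 / 10000 / ρ) * (4918 / 10000 * ρ + 2133 / 10000 / ρ) =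
        (4918 / 10000 * ρ - 2133 / 10000 / ρ) ^ (2 : ℕ) + 4 * (4918 / 10000) * (2133 / 10000) := by
      field_simp
      ring
    rw [e]
    have := sq_nonneg (4918 / 10000 * ρ - 2133 / 10000 / ρ)
    linarith
  linarith only [hs, h8, h9]

/-- the level on the right side, `20 ≤ Γ`, `|η| ≤ π/5` -/
theorem levR_C2 {N : ℕ} {r δ y η : ℝ} (hR : Reg1 N r δ) (hA : At r δ y η) (hη : η ≤ 0)
    (h1 : -eo1 N r δ ≤ η) (h2 : -(Real.pi / 5) ≤ η) (hG : 20 ≤ Gm N r δ) :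
    Lev r δ y η (7 / 5) (3 / 2) (3 / 2) := by
  obtain ⟨hS, hy⟩ := lrd_data hR hA hη h1
  have hsq : η ^ (2 : ℕ) ≤ 79 / 200 := by
    have hp := Real.pi_lt_d4
    have hp0 := Real.pi_pos
    have h4 : η ^ (2 : ℕ) ≤ (Real.pi / 5) ^ (2 : ℕ) := by
      rw [← neg_sq η]
      exact pow_le_pow_left₀ (by linarith) (by linarith) 2
    nlinarith only [hp, hp0, h4]
  have hS' : SadB N r δ y := by
    rcases hS with ⟨h, _⟩ | ⟨_, h⟩
    · exact absurd h (not_lt.2 (by linarith))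
    · exact h
  have hr : 0 < r := by linarith [hR.r0]
  have hδ := hR.d0
  have hdom := hA.dom
  have hE := hA.eta
  obtain ⟨n, rfl⟩ : ∃ n, y = -n := ⟨-y, by ring⟩
  have hn0 : 0 ≤ n := by linarith
  have hn1 : n ≤ 53 / 100 := by linarith [hS'.lo]
  have hn2 := lc2_t hdom hn1 hE hsq
  subst hE
  have hT : n ≤ 4 / 5 * sx (r * δ) (-n) := by
    have := hS'.T
    rwa [abs_neg, abs_of_nonneg hn0] at this
  have hx := lr_x (μ := 281 / 250) hdom hn0 hT (by norm_num) (by norm_num)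
  have hC : n ^ (2 : ℕ) * ((1 - 3 / 2 * n + n ^ (2 : ℕ) - 5 / 12 * n ^ (3 : ℕ)) +
      (r * δ) ^ (2 : ℕ) * (1 + 1 / 2 * n + 1 / 6 * n ^ (2 : ℕ))) ^ (2 : ℕ) ≤ 79 / 200 * (r * δ) ^ (2 : ℕ) := by
    have hρ : 0 < r * δ := hdom.1
    have ht := lr_rt hdom hn0 hn1
    have hp0 : 0 ≤ 1 - 3 / 2 * n + n ^ (2 : ℕ) - 5 / 12 * n ^ (3 : ℕ) := by nlinarith only [hn2]
    set p := (1 - 3 / 2 * n + n ^ (2 : ℕ) - 5 / 12 * n ^ (3 : ℕ)) +
      (r * δ) ^ (2 : ℕ) * (1 + 1 / 2 * n + 1 / 6 * n ^ (2 : ℕ)) with hp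
    have hpp : 0 ≤ p := by (clear * - hp0 hr hδ hn0; positivity)
    have h3 := mul_self_le_mul_self (mul_nonneg hn0 hpp) ht
    have h4 := mul_le_mul_of_nonneg_left hsq (sq_nonneg (r * δ))
    linarith only [h3, h4]
  have hD : sD (r * δ) (-n) ≤ 3 / 2 * √(RR r δ) :=
    lrd_sD_le (by norm_num) (lrd_triv hdom hn0 (by norm_num)
      ((Real.exp_le_exp.2 hn2).trans lc2_e40))
  exact lev_of hr hδ (by norm_num)
    (lr_l0 hdom hn0 hn1 (by norm_num) (by norm_num) hx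
      (lc2_g hn0 hn2 (sq_nonneg _) hC))
    (lr_l1 hdom hn0 hn1 (by norm_num) hx
      ((lc2_k hn0 hn2 (sq_nonneg _) hC).trans (le_of_eq (by norm_num)))) hD

end SokamV3

end

/-! ### Lib_MP_af4de1_v3.DzFin -/

section
namespace SokamCen
end SokamCen
namespace SokamF1
end SokamF1
namespace SokamF1M
end SokamF1M
namespace SokamF1S
end SokamF1S
namespace SokamU
end SokamU
namespace SokamV3
end SokamV3
/-!
# Fields `d`: from the statement (S) at `y = 0` to `DGL`, `DGR` (every real shift) (helper48)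
-/

set_option autoImplicit false

namespace SokamDz

open SokamU SokamF1 SokamF1S SokamF1M SokamV3 SokamCen

theorem lev_mono {r δ y η g k q g' k' q' : ℝ} (hr : 0 ≤ r) (h : Lev r δ y η g k q) (hg : g ≤ g')
    (hk : k ≤ k') (hq : q ≤ q') : Lev r δ y η g' k' q' := by
  have hR : 0 < RR r δ := by unfold RR; (clear * -; positivity)
  refine ⟨h.l0.trans ?_, h.l1.trans ?_, h.l2.trans ?_⟩
  · exact mul_le_mul_of_nonneg_right (by linarith only [hg]) (by (clear * - hr hR; positivity))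
  · exact mul_le_mul_of_nonneg_right hk (by (clear * - hr hR; positivity))
  · exact mul_le_mul_of_nonneg_right hq (Real.sqrt_nonneg _)

theorem abs_le_pi5 {N : ℕ} (hN : 3 ≤ N) {a : ℝ} (h1 : a ≤ 3 / 5 * hst N)
    (h2 : a + 2 * hst N ≤ Real.pi) : a ≤ Real.pi / 5 := by
  have hpi := Real.pi_pos
  have hN0 : (0 : ℝ) < N := by exact_mod_cast (by omega : 0 < N)
  have hh : (N : ℝ) * hst N = 2 * Real.pi := by
    unfold hst
    field_simp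
  have hh0 : 0 < hst N := by
    unfold hst
    positivity
  rcases Nat.lt_or_ge N 6 with h | h
  · have h3 : (N : ℝ) ≤ 5 := by exact_mod_cast (by omega : N ≤ 5)
    have h4 : 2 * Real.pi ≤ 5 * hst N := by
      rw [← hh]
      exact mul_le_mul_of_nonneg_right h3 hh0.le
    linarith only [h2, h4]
  · have h3 : (6 : ℝ) ≤ N := by exact_mod_cast h
    have h4 : 6 * hst N ≤ 2 * Real.pi := by
      rw [← hh]
      exact mul_le_mul_of_nonneg_right h3 hh0.le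
    linarith only [h1, h4]

theorem shf_mono' {r δ y ζ H f0 f1 f2 g0 g1 g2 : ℝ} (h : Shf r δ y ζ H f0 f1 f2) (hy : -1 < y)
    (hH : 0 ≤ H) (h0 : f0 ≤ g0) (h1 : f1 ≤ g1) (h2 : f2 ≤ g2) : Shf r δ y ζ H g0 g1 g2 := by
  have hM := (sM_pos (r := r) (δ := δ) hy).le
  refine ⟨h.s0.trans ?_, h.s1.trans ?_, h.s2.trans ?_⟩
  · exact mul_le_mul_of_nonneg_right h0 hM
  · exact mul_le_mul_of_nonneg_right (mul_le_mul_of_nonneg_right h1 hH) hM
  · exact mul_le_mul_of_nonneg_right (mul_le_mul_of_nonneg_right h2 (by (clear * -; positivity))) hM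

theorem Fd_nonneg (r ρ X : ℝ) : 0 ≤ Fd r ρ X := by
  unfold Fd
  split_ifs <;> positivity

/-- the common part of both sides -/
theorem dz_core {N i : ℕ} {r δ y η ζ θ a z g k q : ℝ} (hR : Reg1 N r δ) (hA : At r δ y η)
    (hθ : η + ζ = θ) (ha : |η| = a) (hi : 2 ≤ i) (hz : i * hst N ≤ z) (haz : a + z ≤ Real.pi)
    (hcls : Cls (Gm N r δ) (a / hst N) g k q) (hL : Lev r δ y η g k q)
    (h5 : 20 ≤ Gm N r δ → a ≤ Real.pi / 5)
    (hS : Shf r δ 0 θ (HH N r δ) (Fd r (r * δ) (r * (a + z) ^ (2 : ℕ) / (1 + (r * δ) ^ (2 : ℕ))))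
      (Fd r (r * δ) (r * (a + z) ^ (2 : ℕ) / (1 + (r * δ) ^ (2 : ℕ))))
      (Fd r (r * δ) (r * (a + z) ^ (2 : ℕ) / (1 + (r * δ) ^ (2 : ℕ))))) :
    Shf r δ y ζ (HH N r δ) ((1 / 2) ^ i / 100) ((1 / 2) ^ i / 100) ((1 / 2) ^ i / 100) := by
  have hpi := Real.pi_pos
  have hr : 0 < r := by linarith only [hR.r0]
  have hδ := hR.d0
  have hh := psa_hst_pos (N := N) (le_trans (by norm_num) hR.N3)
  have hRR : 0 < RR r δ := by unfold RR; (clear * - hr hδ; positivity)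
  have hH : 0 < HH N r δ := by
    unfold HH
    (clear * - hr hh hRR; positivity)
  have ha0 : 0 ≤ a := by rw [← ha]; exact abs_nonneg _
  have hi2 : (2 : ℝ) ≤ i := by exact_mod_cast hi
  have hz0 : 0 ≤ z := le_trans (by (clear * - hi hh; positivity)) hz
  set t := a / hst N with ht
  set s := z / hst N with hs
  have ht0 : 0 ≤ t := by (clear * - ha0 hh; positivity)
  have his : (i : ℝ) ≤ s := by rwa [hs, le_div_iff₀ hh]
  have eX : Gm N r δ * (s + t) ^ (2 : ℕ) = r * (a + z) ^ (2 : ℕ) / (1 + (r * δ) ^ (2 : ℕ)) := by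
    unfold Gm RR
    rw [hs, ht]
    field_simp
    ring
  have eη : Gm N r δ * t ^ (2 : ℕ) = r * η ^ (2 : ℕ) / RR r δ := by
    unfold Gm
    rw [ht, ← sq_abs η, ha]
    field_simp
  have hπ2 : Real.pi ^ (2 : ℕ) ≤ 987 / 100 := by
    have := Real.pi_lt_d4
    nlinarith only [hpi, this]
  have hXQ : Gm N r δ * (s + t) ^ (2 : ℕ) ≤ 987 / 100 * (r / (1 + (r * δ) ^ (2 : ℕ))) := by
    rw [eX, mul_div_assoc']
    refine div_le_div_of_nonneg_right ?_ (by (clear * - hr hδ; positivity))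
    have h1 : (a + z) ^ (2 : ℕ) ≤ Real.pi ^ (2 : ℕ) := pow_le_pow_left₀ (by (clear * - ha0 hz0; positivity)) haz 2
    nlinarith only [hr, hπ2, h1]
  have hηQ : 20 ≤ Gm N r δ → Gm N r δ * t ^ (2 : ℕ) ≤ 79 / 200 * (r / (1 + (r * δ) ^ (2 : ℕ))) := by
    intro hG
    rw [eη, mul_div_assoc']
    refine div_le_div_of_nonneg_right ?_ (by (clear * - hRR; positivity))
    have h1 : η ^ (2 : ℕ) ≤ (Real.pi / 5) ^ (2 : ℕ) := by
      rw [← sq_abs η, ha]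
      exact pow_le_pow_left₀ ha0 (h5 hG) 2
    nlinarith only [hr, hπ2, h1]
  have hnum := dz_num (F := Fd r (r * δ) (r * (a + z) ^ (2 : ℕ) / (1 + (r * δ) ^ (2 : ℕ)))) hcls ht0 hi his
    hR.r0 (by positivity : 0 ≤ r / (1 + (r * δ) ^ (2 : ℕ))) hXQ hηQ (by
      unfold Fd
      rw [eX])
  set F := Fd r (r * δ) (r * (a + z) ^ (2 : ℕ) / (1 + (r * δ) ^ (2 : ℕ))) with hF
  have hF0 : 0 ≤ F := Fd_nonneg _ _ _
  have hk0 := hcls.k0
  have hq0 := hcls.q0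
  have key := shf_of_y0 (lam := √q * Real.exp (g / 2 * (Gm N r δ * t ^ (2 : ℕ)))) (kt := k * t)
    hr hδ hA hL hq0.le hθ (by rw [eη]) hH.le (by (clear * - hk0 ha0 hh; positivity)) (by
      refine le_of_eq ?_
      unfold HH
      rw [ha, ht]
      field_simp) hF0 hF0 hF0 hS
  have hlam : 0 ≤ √q * Real.exp (g / 2 * (Gm N r δ * t ^ (2 : ℕ))) := by (clear * - hq0; positivity)
  have hkt : 0 ≤ k * t := by (clear * - hk0 ha0 hh; positivity)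
  refine shf_mono' key hA.y1 hH.le (le_trans ?_ hnum) (le_trans ?_ hnum) (le_trans ?_ hnum)
  · rw [mul_assoc _ ((1 + k * t) ^ (2 : ℕ))]
    refine mul_le_mul_of_nonneg_left ?_ hlam
    nlinarith only [hkt, mul_nonneg hkt hF0]
  · rw [mul_assoc _ ((1 + k * t) ^ (2 : ℕ))]
    refine mul_le_mul_of_nonneg_left ?_ hlam
    nlinarith only [hkt, mul_nonneg hkt hF0]
  · rw [mul_assoc _ ((1 + k * t) ^ (2 : ℕ))]
    refine mul_le_mul_of_nonneg_left (le_of_eq ?_) hlam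
    ring

private theorem eo1_A {N : ℕ} {r δ : ℝ} (hG : Gm N r δ < 10) : eo1 N r δ = 3 / 4 * hst N := by
  unfold eo1 om1
  rw [if_pos hG]
  norm_num

private theorem eo1_B {N : ℕ} {r δ : ℝ} (hG : 10 ≤ Gm N r δ) (hG2 : Gm N r δ < 20) :
    eo1 N r δ = 13 / 20 * hst N := by
  unfold eo1 om1
  rw [if_neg (not_lt.2 hG), if_pos hG2]
  norm_num

private theorem eo1_C {N : ℕ} {r δ : ℝ} (hG : 20 ≤ Gm N r δ) : eo1 N r δ = 3 / 5 * hst N := by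
  unfold eo1 om1
  rw [if_neg (not_lt.2 (by linarith only [hG])), if_neg (not_lt.2 hG)]
  norm_num

/-- the hypotheses of (S) -/
theorem hypD_of {N i : ℕ} {r δ a z : ℝ} (hR : Reg1 N r δ) (ha0 : 0 ≤ a) (hi : 2 ≤ i)
    (hz : i * hst N ≤ z) (haz : a + z ≤ Real.pi) : HypD r (r * δ) (a + z) ∧
      0 < HH N r δ ∧ 27 / 5 * r ≤ HH N r δ ^ (2 : ℕ) := by
  have hr : 0 < r := by linarith only [hR.r0]
  have hδ := hR.d0
  have hh := psa_hst_pos (N := N) (le_trans (by norm_num) hR.N3)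
  have hRR : 0 < RR r δ := by unfold RR; positivity
  have hi2 : (2 : ℝ) ≤ i := by exact_mod_cast hi
  have hz2 : 2 * hst N ≤ z := le_trans (mul_le_mul_of_nonneg_right hi2 hh.le) hz
  have hG := hR.G
  refine ⟨⟨by (clear * - hr hδ; positivity), hR.r0, by linarith only [ha0, hh, hz2], haz, ?_⟩, ?_, ?_⟩
  · have h1 : (2 * hst N) ^ (2 : ℕ) ≤ (a + z) ^ (2 : ℕ) := pow_le_pow_left₀ (by (clear * - hh; positivity)) (by linarith only [ha0, hz2]) 2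
    have h2 : r * (2 * hst N) ^ (2 : ℕ) / RR r δ ≤ r * (a + z) ^ (2 : ℕ) / RR r δ := by gcongr
    have h3 : r * (2 * hst N) ^ (2 : ℕ) / RR r δ = 4 * Gm N r δ := by
      unfold Gm
      ring
    rw [h3] at h2
    have e : RR r δ = 1 + (r * δ) ^ (2 : ℕ) := rfl
    rw [← e]
    linarith only [hG, h2]
  · unfold HH
    (clear * - hr hh hRR; positivity)
  · have e : HH N r δ ^ (2 : ℕ) = r * Gm N r δ := by
      unfold HH Gm
      rw [div_pow, Real.sq_sqrt hRR.le]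
      ring
    rw [e]
    nlinarith only [hG, e]

/-- LEFT -/
theorem dgl (hP : PDL) : DGL := by
  intro N i r δ y η ζ hR hA hS h0 h1 hi h2 h3
  have hr : 0 < r := by linarith only [hR.r0]
  have hh := psa_hst_pos (N := N) (le_trans (by norm_num) hR.N3)
  have hi2 : (2 : ℝ) ≤ i := by exact_mod_cast hi
  have hz2 : 2 * hst N ≤ ζ := le_trans (mul_le_mul_of_nonneg_right hi2 hh.le) h2
  obtain ⟨H1, H2, H3⟩ := hypD_of hR h0 hi h2 h3
  have hSh := hP r δ (η + ζ) (HH N r δ) hR.d0 H1 H2 H3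
  have hlev := levL hR hA hS h0 h1
  have hG := hR.G
  rcases lt_or_ge (Gm N r δ) 10 with g1 | g1
  · have e := eo1_A g1
    exact dz_core hR hA rfl (abs_of_nonneg h0) hi h2 h3
      (Cls.A hG g1 (by rw [div_le_iff₀ hh]; linarith only [h1, e]))
      (lev_mono hr.le hlev (by norm_num) (by norm_num) (by norm_num))
      (fun h => absurd h (by linarith only [g1])) hSh
  rcases lt_or_ge (Gm N r δ) 20 with g2 | g2
  · have e := eo1_B g1 g2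
    exact dz_core hR hA rfl (abs_of_nonneg h0) hi h2 h3
      (Cls.B g1 g2 (by rw [div_le_iff₀ hh]; linarith only [h1, e]))
      (lev_mono hr.le hlev (by norm_num) (by norm_num) (by norm_num))
      (fun h => absurd h (by linarith only [g2])) hSh
  · have e := eo1_C g2
    exact dz_core hR hA rfl (abs_of_nonneg h0) hi h2 h3
      (Cls.C g2 (by rw [div_le_iff₀ hh]; linarith only [h1, e]))
      (lev_mono hr.le hlev (by norm_num) (by norm_num) (by norm_num))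
      (fun _ => abs_le_pi5 hR.N3 (by linarith only [h1, e]) (by linarith only [h3, hz2])) hSh

/-- RIGHT -/
theorem dgr (hP : PDR) : DGR := by
  intro N i r δ y η ζ hR hA hS h0 h1 hi h2 h3
  have hr : 0 < r := by linarith only [hR.r0]
  have hh := psa_hst_pos (N := N) (le_trans (by norm_num) hR.N3)
  have hi2 : (2 : ℝ) ≤ i := by exact_mod_cast hi
  have h2' : i * hst N ≤ -ζ := by linarith only [h2]
  have hz2 : 2 * hst N ≤ -ζ := le_trans (mul_le_mul_of_nonneg_right hi2 hh.le) h2'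
  have h3' : -η + -ζ ≤ Real.pi := by linarith only [h3]
  have h0' : 0 ≤ -η := by linarith only [h0]
  obtain ⟨H1, H2, H3⟩ := hypD_of hR h0' hi h2' h3'
  have hSh := hP r δ (-η + -ζ) (HH N r δ) hR.d0 H1 H2 H3
  have hθ : η + ζ = -(-η + -ζ) := by ring
  have hab : |η| = -η := abs_of_nonpos h0
  have hG := hR.G
  rcases lt_or_ge (Gm N r δ) 10 with g1 | g1
  · have e := eo1_A g1
    exact dz_core hR hA hθ hab hi h2' h3'
      (Cls.A hG g1 (by rw [div_le_iff₀ hh]; linarith only [h1, e]))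
      (levR_A hR hA h0 h1 g1) (fun h => absurd h (by linarith only [g1])) hSh
  rcases lt_or_ge (Gm N r δ) 20 with g2 | g2
  · have e := eo1_B g1 g2
    exact dz_core hR hA hθ hab hi h2' h3'
      (Cls.B g1 g2 (by rw [div_le_iff₀ hh]; linarith only [h1, e]))
      (levR_B hR hA h0 h1 g1 g2) (fun h => absurd h (by linarith only [g2])) hSh
  · have e := eo1_C g2
    have h5 : -η ≤ Real.pi / 5 := abs_le_pi5 hR.N3 (by linarith only [h1, e]) (by linarith only [h3, hz2])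
    exact dz_core hR hA hθ hab hi h2' h3'
      (Cls.C g2 (by rw [div_le_iff₀ hh]; linarith only [h1, e]))
      (levR_C2 hR hA h0 h1 (by linarith only [h5]) g2) (fun _ => h5) hSh

end SokamDz

end
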