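import Mathlib.Algebra.Order.Floor.Semifield
import Mathlib.Algebra.Ring.IsFormallyReal
import Mathlib.RingTheory.PowerSeries.Inverse
import Mathlib.Data.Rat.Star
import Mathlib.Geometry.Euclidean.Angle.Unoriented.TriangleInequality
import Mathlib.Analysis.Convex.Contractible
import Mathlib.Analysis.Calculus.Deriv.Star
import Mathlib.MeasureTheory.Integral.Gamma
import Mathlib.Analysis.Complex.LocallyUniformLimit
import Mathlib.Topology.Separation.CompletelyRegular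
import Mathlib.RingTheory.Flat.TorsionFree
import Mathlib.MeasureTheory.Order.Group.Lattice
import Mathlib.Data.Int.Star
import Mathlib.LinearAlgebra.Lagrange
import Mathlib.Analysis.Complex.Angle
import Mathlib.Analysis.Complex.BorelCaratheodory
import Mathlib.Analysis.Complex.CoveringMap
import Mathlib.Topology.Homotopy.Lifting
import Mathlib.Analysis.Complex.ExponentialBounds
import Mathlib.Analysis.Complex.HasPrimitives
import Mathlib.NumberTheory.DiophantineApproximation.Basic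
import Mathlib.Analysis.Complex.OpenMapping
import Mathlib.Analysis.SpecialFunctions.Trigonometric.DerivHyp
import Mathlib.RingTheory.SimpleRing.Principal
import Mathlib.Order.CompletePartialOrder
import Mathlib.Analysis.SpecialFunctions.Complex.LogBounds
import Mathlib.Analysis.SpecialFunctions.Gamma.BohrMollerup
import Mathlib.Analysis.SpecialFunctions.Trigonometric.Series
import Mathlib.Topology.MetricSpace.Sequences
import Mathlib.Analysis.Normed.Group.Tannery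
import Mathlib.Analysis.ODE.Gronwall
import Mathlib.Analysis.Real.Pi.Bounds
import Mathlib.Analysis.SpecialFunctions.Gaussian.PoissonSummation
import Mathlib.Analysis.SpecialFunctions.Trigonometric.InverseDeriv
import Mathlib.RingTheory.TotallySplit
import Mathlib.RingTheory.Etale.Weakly
import Mathlib.Tactic

/-! ### Lib_MP_af4de1_f1.N1Defs -/

section
/-!
# N = 1, large `rho`: definitions

`h = a + i s` a saddle (`w e^h = h`), `v` the distance from it, `E(v) = (i/δ)(v²/2 - h (e^v - 1 - v))`,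
`|e^{E(x + iy)}| = e^{-Ht a s x y / δ}`.
`AR`, `AL`: the moments `∫ v^j e^E dv` over the two paths
R: `+∞ - 2i → -2i → 2i → b + 2i → b + i∞`, L: `-b - i∞ → -b - 2i → -2i → (8/5)i → +∞ + (8/5)i`.
-/

set_option autoImplicit false

namespace SokamN1

open Complex Set MeasureTheory

/-- the exponent -/
noncomputable def EE (δ : ℝ) (h v : ℂ) : ℂ := (v ^ (2 : ℕ) / 2 - h * (cexp v - 1 - v)) * I / δ

/-- the height -/
noncomputable def Ht (a s x y : ℝ) : ℝ :=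
  x * y + a * (y - Real.exp x * Real.sin y) + s * (1 + x - Real.exp x * Real.cos y)

theorem re_EE (δ a s x y : ℝ) : (EE δ (a + s * I) (x + y * I)).re = -Ht a s x y / δ := by
  unfold EE Ht
  have h1 : cexp ((x : ℂ) + y * I) = (Real.exp x * Real.cos y : ℝ) + (Real.exp x * Real.sin y : ℝ) * I := by
    rw [Complex.exp_add, Complex.exp_mul_I, ← Complex.ofReal_exp, ← Complex.ofReal_cos, ← Complex.ofReal_sin]
    push_cast
    ring
  rw [h1, Complex.div_ofReal_re]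
  congr 1
  simp only [Complex.mul_re, Complex.mul_im, Complex.sub_re, Complex.sub_im, Complex.add_re, Complex.add_im,
    Complex.ofReal_re, Complex.ofReal_im, Complex.I_re, Complex.I_im, Complex.one_re, Complex.one_im, pow_two,
    Complex.div_ofNat_re, Complex.div_ofNat_im]
  ring

/-- the integrand `v^j e^{E(v)}` at `v = x + iy` -/
noncomputable def Wt (δ : ℝ) (h : ℂ) (j : ℕ) (x y : ℝ) : ℂ :=
  ((x : ℂ) + y * I) ^ j * cexp (EE δ h (x + y * I))

theorem norm_Wt (δ a s : ℝ) (j : ℕ) (x y : ℝ) :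
    ‖Wt δ (a + s * I) j x y‖ = √(x ^ (2 : ℕ) + y ^ (2 : ℕ)) ^ j * Real.exp (-Ht a s x y / δ) := by
  unfold Wt
  rw [norm_mul, norm_pow, Complex.norm_exp, re_EE, Complex.norm_add_mul_I]

theorem continuous_EE (δ : ℝ) (h : ℂ) : Continuous (EE δ h) := by
  unfold EE
  fun_prop

theorem continuous_Wt_x (δ : ℝ) (h : ℂ) (j : ℕ) (y : ℝ) : Continuous fun x => Wt δ h j x y := by
  unfold Wt
  have := continuous_EE δ h
  fun_prop

theorem continuous_Wt_y (δ : ℝ) (h : ℂ) (j : ℕ) (x : ℝ) : Continuous fun y => Wt δ h j x y := by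
  unfold Wt
  have := continuous_EE δ h
  fun_prop

/-- moments over the path R -/
noncomputable def AR (δ b : ℝ) (h : ℂ) (j : ℕ) : ℂ :=
  -(∫ u in Ioi (0 : ℝ), Wt δ h j u (-2)) + (∫ y in (-2 : ℝ)..2, Wt δ h j 0 y) * I +
    (∫ x in (0 : ℝ)..b, Wt δ h j x 2) + (∫ y in Ioi (2 : ℝ), Wt δ h j b y) * I

/-- moments over the path L -/
noncomputable def AL (δ b : ℝ) (h : ℂ) (j : ℕ) : ℂ :=
  (∫ y in Ioi (2 : ℝ), Wt δ h j (-b) (-y)) * I + (∫ x in (-b)..0, Wt δ h j x (-2)) +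
    (∫ y in (-2 : ℝ)..(8 / 5), Wt δ h j 0 y) * I + ∫ u in Ioi (0 : ℝ), Wt δ h j u (8 / 5)

end SokamN1

end

/-! ### Lib_MP_af4de1_f1.N1G1 -/

section
/-!
# N = 1, large `rho`: the main part, lower bound
-/

set_option autoImplicit false

namespace SokamN1

open Complex Set MeasureTheory

private theorem tay1 (t : ℝ) : ‖cexp (t * I) - 1‖ ≤ |t| := by
  have h := Real.norm_exp_I_mul_ofReal_sub_one_le (x := t)
  rwa [mul_comm, Real.norm_eq_abs] at h

private theorem hd1 (t : ℝ) : HasDerivAt (fun y : ℝ => (y : ℂ) * I) I t := by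
  have h1 : HasDerivAt (fun y : ℝ => (y : ℂ)) 1 t := by simpa using (hasDerivAt_id t).ofReal_comp
  simpa using h1.mul_const I

private theorem hd2 (t : ℝ) : HasDerivAt (fun y : ℝ => cexp (y * I)) (cexp (t * I) * I) t :=
  (hd1 t).cexp

private theorem tay2 {y : ℝ} (hy : 0 ≤ y) : ‖cexp (y * I) - 1 - y * I‖ ≤ y ^ (2 : ℕ) / 2 := by
  have key : ∀ t : ℝ, HasDerivAt (fun t : ℝ => cexp (t * I) - 1 - t * I) (cexp (t * I) * I - I) t :=
    fun t => ((hd2 t).sub_const 1).sub (hd1 t)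
  refine image_norm_le_of_norm_deriv_right_le_deriv_boundary
    (f := fun t : ℝ => cexp (t * I) - 1 - t * I) (f' := fun t => cexp (t * I) * I - I) (a := 0) (b := y)
    (B := fun t => t ^ (2 : ℕ) / 2) (B' := fun t => t)
    (fun t _ => (key t).continuousAt.continuousWithinAt) (fun t _ => (key t).hasDerivWithinAt)
    (by simp) (fun t => ?_) (fun t ht => ?_) ⟨hy, le_rfl⟩
  · have h := (hasDerivAt_pow 2 t).div_const 2
    refine h.congr_deriv ?_
    push_cast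
    ring
  · have h1 : cexp (t * I) * I - I = (cexp (t * I) - 1) * I := by ring
    show ‖cexp (t * I) * I - I‖ ≤ t
    rw [h1, norm_mul, Complex.norm_I, mul_one]
    have := tay1 t
    rwa [abs_of_nonneg ht.1] at this

private theorem tay3 {y : ℝ} (hy : 0 ≤ y) : ‖cexp (y * I) - 1 - y * I + (y : ℂ) ^ (2 : ℕ) / 2‖ ≤ y ^ (3 : ℕ) / 6 := by
  have hsq : ∀ t : ℝ, HasDerivAt (fun t : ℝ => (t : ℂ) ^ (2 : ℕ) / 2) (t : ℂ) t := by
    intro t
    have h1 : HasDerivAt (fun y : ℝ => (y : ℂ)) 1 t := by simpa using (hasDerivAt_id t).ofReal_comp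
    have h2 := (h1.pow 2).div_const 2
    refine h2.congr_deriv ?_
    push_cast
    ring
  have key : ∀ t : ℝ, HasDerivAt (fun t : ℝ => cexp (t * I) - 1 - t * I + (t : ℂ) ^ (2 : ℕ) / 2)
      (cexp (t * I) * I - I + t) t :=
    fun t => (((hd2 t).sub_const 1).sub (hd1 t)).add (hsq t)
  refine image_norm_le_of_norm_deriv_right_le_deriv_boundary
    (f := fun t : ℝ => cexp (t * I) - 1 - t * I + (t : ℂ) ^ (2 : ℕ) / 2)
    (f' := fun t => cexp (t * I) * I - I + t) (a := 0) (b := y)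
    (B := fun t => t ^ (3 : ℕ) / 6) (B' := fun t => t ^ (2 : ℕ) / 2)
    (fun t _ => (key t).continuousAt.continuousWithinAt) (fun t _ => (key t).hasDerivWithinAt)
    (by simp) (fun t => ?_) (fun t ht => ?_) ⟨hy, le_rfl⟩
  · have h := (hasDerivAt_pow 3 t).div_const 6
    refine h.congr_deriv ?_
    push_cast
    ring
  · have h1 : cexp (t * I) * I - I + t = (cexp (t * I) - 1 - t * I) * I := by
      linear_combination (t : ℂ) * I_sq
    show ‖cexp (t * I) * I - I + t‖ ≤ t ^ (2 : ℕ) / 2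
    rw [h1, norm_mul, Complex.norm_I, mul_one]
    exact tay2 ht.1

private theorem tay3' (y : ℝ) : ‖cexp (y * I) - 1 - y * I + (y : ℂ) ^ (2 : ℕ) / 2‖ ≤ |y| ^ (3 : ℕ) / 6 := by
  rcases le_total 0 y with hy | hy
  · rw [abs_of_nonneg hy]
    exact tay3 hy
  · have h := tay3 (y := -y) (by linarith)
    have e1 : (starRingEnd ℂ) (cexp (y * I) - 1 - y * I + (y : ℂ) ^ (2 : ℕ) / 2) =
        cexp (((-y : ℝ) : ℂ) * I) - 1 - ((-y : ℝ) : ℂ) * I + (((-y : ℝ) : ℂ)) ^ (2 : ℕ) / 2 := by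
      simp only [map_add, map_sub, map_mul, map_one, map_div₀, map_pow, Complex.conj_ofReal, Complex.conj_I,
        ← Complex.exp_conj, map_ofNat]
      push_cast
      ring_nf
    rw [← Complex.norm_conj, e1, abs_of_nonpos hy]
    exact h

/-- `|E - E₂| ≤ |h||y|³/(6δ)` on `v = iy`, `E₂(iy) = -(s + i(1 - a)) y²/(2δ)`:
`|e^{iy} - 1 - iy + y²/2| ≤ |y|³/6`. -/
theorem EE_sub_gauss {δ a s y : ℝ} (hδ : 0 < δ) :
    ‖EE δ (a + s * I) ((0 : ℝ) + y * I) - -((s + (1 - a) * I) / (2 * δ)) * y ^ (2 : ℕ)‖ ≤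
      ‖(a : ℂ) + s * I‖ * |y| ^ (3 : ℕ) / (6 * δ) := by
  have hδc : (δ : ℂ) ≠ 0 := by exact_mod_cast hδ.ne'
  have e1 : EE δ (a + s * I) ((0 : ℝ) + y * I) - -((s + (1 - a) * I) / (2 * δ)) * y ^ (2 : ℕ) =
      -((a : ℂ) + s * I) * (cexp (y * I) - 1 - y * I + (y : ℂ) ^ (2 : ℕ) / 2) * (I / δ) := by
    unfold EE
    rw [Complex.ofReal_zero, zero_add]
    field_simp
    linear_combination ((y : ℂ) ^ (2 : ℕ) * I + (s : ℂ) * (y : ℂ) ^ (2 : ℕ)) * I_sq
  rw [e1, norm_mul, norm_mul, norm_neg, norm_div, Complex.norm_I, Complex.norm_real,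
    Real.norm_of_nonneg hδ.le]
  have h := tay3' y
  have h2 := mul_le_mul_of_nonneg_left h (norm_nonneg ((a : ℂ) + s * I))
  have h3 : ‖(a : ℂ) + s * I‖ * |y| ^ (3 : ℕ) / (6 * δ) = ‖(a : ℂ) + s * I‖ * (|y| ^ (3 : ℕ) / 6) * (1 / δ) := by
    field_simp
  rw [h3]
  exact mul_le_mul_of_nonneg_right h2 (by positivity)

private theorem exp_diff {z w : ℂ} {M : ℝ} (hz : z.re ≤ M) (hw : w.re ≤ M) :
    ‖cexp z - cexp w‖ ≤ Real.exp M * ‖z - w‖ := by
  refine Convex.norm_image_sub_le_of_norm_deriv_le (𝕜 := ℂ) (f := cexp) (s := {c : ℂ | c.re ≤ M})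
    (fun x _ => Complex.differentiableAt_exp) (fun x hx => ?_) (convex_halfSpace_re_le M) hw hz
  rw [Complex.deriv_exp, Complex.norm_exp]
  exact Real.exp_le_exp.2 hx

private theorem int_cube {κ δ Y : ℝ} (hκ : 0 < κ) (hδ : 0 < δ) (hY : 0 ≤ Y) :
    ∫ y in (0 : ℝ)..Y, y ^ (3 : ℕ) * Real.exp (-κ * y ^ (2 : ℕ) / δ) ≤ δ ^ (2 : ℕ) / (2 * κ ^ (2 : ℕ)) := by
  have hF : ∀ y : ℝ, HasDerivAt (fun y : ℝ => -(δ ^ (2 : ℕ) / (2 * κ ^ (2 : ℕ))) * (1 + κ * y ^ (2 : ℕ) / δ) *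
      Real.exp (-κ * y ^ (2 : ℕ) / δ)) (y ^ (3 : ℕ) * Real.exp (-κ * y ^ (2 : ℕ) / δ)) y := by
    intro y
    have h1 : HasDerivAt (fun y : ℝ => y ^ (2 : ℕ)) (2 * y) y := by simpa using hasDerivAt_pow 2 y
    have h2 : HasDerivAt (fun y : ℝ => -κ * y ^ (2 : ℕ) / δ) (-κ * (2 * y) / δ) y :=
      (h1.const_mul (-κ)).div_const δ
    have h3 : HasDerivAt (fun y : ℝ => 1 + κ * y ^ (2 : ℕ) / δ) (κ * (2 * y) / δ) y :=
      ((h1.const_mul κ).div_const δ).const_add 1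
    have h4 := (h3.const_mul (-(δ ^ (2 : ℕ) / (2 * κ ^ (2 : ℕ))))).mul h2.exp
    refine h4.congr_deriv ?_
    field_simp
    ring
  rw [intervalIntegral.integral_eq_sub_of_hasDerivAt (fun y _ => hF y)
    (Continuous.intervalIntegrable (by fun_prop) _ _)]
  have h5 : 0 ≤ δ ^ (2 : ℕ) / (2 * κ ^ (2 : ℕ)) * (1 + κ * Y ^ (2 : ℕ) / δ) * Real.exp (-κ * Y ^ (2 : ℕ) / δ) := by
    positivity
  have h6 : -(δ ^ (2 : ℕ) / (2 * κ ^ (2 : ℕ))) * (1 + κ * 0 ^ (2 : ℕ) / δ) * Real.exp (-κ * 0 ^ (2 : ℕ) / δ) =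
      -(δ ^ (2 : ℕ) / (2 * κ ^ (2 : ℕ))) := by simp
  rw [h6]
  linarith

/-- one side of the error -/
private theorem side_err {κ δ Y A : ℝ} {f : ℝ → ℂ} (hκ : 0 < κ) (hδ : 0 < δ) (hY : 0 ≤ Y) (hA : 0 ≤ A)
    (hf : ∀ y : ℝ, 0 ≤ y → y ≤ Y → ‖f y‖ ≤ A * (y ^ (3 : ℕ) * Real.exp (-κ * y ^ (2 : ℕ) / δ))) :
    ‖∫ y in (0 : ℝ)..Y, f y‖ ≤ A * (δ ^ (2 : ℕ) / (2 * κ ^ (2 : ℕ))) := by
  have h1 : ‖∫ y in (0 : ℝ)..Y, f y‖ ≤ ∫ y in (0 : ℝ)..Y, A * (y ^ (3 : ℕ) * Real.exp (-κ * y ^ (2 : ℕ) / δ)) := by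
    apply intervalIntegral.norm_integral_le_of_norm_le hY
    · exact Filter.Eventually.of_forall fun y hy => hf y hy.1.le hy.2
    · exact Continuous.intervalIntegrable (by fun_prop) _ _
  rw [intervalIntegral.integral_const_mul] at h1
  exact h1.trans (mul_le_mul_of_nonneg_left (int_cube hκ hδ hY) hA)

/-- the tail of the Gaussian -/
private theorem tail_gauss {c Y : ℝ} (hc : 0 < c) (hY : 8 / 5 ≤ Y) :
    ∫ y in Ioi Y, Real.exp (-c * y ^ (2 : ℕ)) ≤ 5 / (16 * c) * Real.exp (-(64 / 25 * c)) := by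
  have hF : ∀ y : ℝ, HasDerivAt (fun y : ℝ => -(5 / (16 * c)) * Real.exp (-c * y ^ (2 : ℕ)))
      (5 / 8 * (y * Real.exp (-c * y ^ (2 : ℕ)))) y := by
    intro y
    have h1 : HasDerivAt (fun y : ℝ => y ^ (2 : ℕ)) (2 * y) y := by simpa using hasDerivAt_pow 2 y
    have h2 : HasDerivAt (fun y : ℝ => -c * y ^ (2 : ℕ)) (-c * (2 * y)) y := h1.const_mul (-c)
    have h4 := h2.exp.const_mul (-(5 / (16 * c)))
    refine h4.congr_deriv ?_
    field_simp
    ring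
  have hint : IntegrableOn (fun y : ℝ => 5 / 8 * (y * Real.exp (-c * y ^ (2 : ℕ)))) (Ioi (8 / 5)) :=
    ((integrable_mul_exp_neg_mul_sq hc).const_mul _).integrableOn
  have hlim : Filter.Tendsto (fun y : ℝ => -(5 / (16 * c)) * Real.exp (-c * y ^ (2 : ℕ))) Filter.atTop
      (nhds 0) := by
    have h1 : Filter.Tendsto (fun y : ℝ => -c * y ^ (2 : ℕ)) Filter.atTop Filter.atBot := by
      have h2 : Filter.Tendsto (fun y : ℝ => y ^ (2 : ℕ)) Filter.atTop Filter.atTop :=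
        Filter.tendsto_pow_atTop (by norm_num)
      exact h2.const_mul_atTop_of_neg (by linarith)
    have h3 := (Real.tendsto_exp_atBot.comp h1).const_mul (-(5 / (16 * c)))
    rw [mul_zero] at h3
    exact h3
  have hval := MeasureTheory.integral_Ioi_of_hasDerivAt_of_tendsto
    (f := fun y : ℝ => -(5 / (16 * c)) * Real.exp (-c * y ^ (2 : ℕ)))
    (f' := fun y : ℝ => 5 / 8 * (y * Real.exp (-c * y ^ (2 : ℕ)))) (a := 8 / 5) (m := 0)
    (hF (8 / 5)).continuousAt.continuousWithinAt (fun y _ => hF y) hint hlim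
  have h1 : ∫ y in Ioi Y, Real.exp (-c * y ^ (2 : ℕ)) ≤ ∫ y in Ioi (8 / 5 : ℝ), Real.exp (-c * y ^ (2 : ℕ)) := by
    apply setIntegral_mono_set (integrable_exp_neg_mul_sq hc).integrableOn
    · exact Filter.Eventually.of_forall fun y => (Real.exp_pos _).le
    · exact (Ioi_subset_Ioi hY).eventuallyLE
  have h2 : ∫ y in Ioi (8 / 5 : ℝ), Real.exp (-c * y ^ (2 : ℕ)) ≤
      ∫ y in Ioi (8 / 5 : ℝ), 5 / 8 * (y * Real.exp (-c * y ^ (2 : ℕ))) := by
    apply setIntegral_mono_on (integrable_exp_neg_mul_sq hc).integrableOn hint measurableSet_Ioi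
    intro y hy
    have hy' : 8 / 5 < y := hy
    have := Real.exp_pos (-c * y ^ (2 : ℕ))
    nlinarith only [hy', this]
  rw [hval] at h2
  refine h1.trans (h2.trans (le_of_eq ?_))
  have h3 : -c * (8 / 5 : ℝ) ^ (2 : ℕ) = -(64 / 25 * c) := by ring
  rw [h3]
  ring

/-- The main part against the Gaussian.  Proof: `‖e^E - e^{E₂}‖ ≤ ‖E - E₂‖ max(‖e^E‖, ‖e^{E₂}‖)`,
both are `≤ e^{-κ_i y²/δ}`; `∫_0^∞ y³ e^{-κy²/δ} = δ²/(2κ²)`; `∫_ℝ e^{E₂}` has modulus
`√(2πδ/‖1-h‖)` (`integral_gaussian_complex`); `∫_{y > 8/5} e^{-sy²/(2δ)} ≤ (5/8)(δ/s) e^{-(32/25)s/δ}`. -/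
theorem main_low {δ κ1 κ2 a s y1 y2 : ℝ} (hδ : 0 < δ) (hs : 0 < s) (hκ1 : 0 < κ1) (hκ2 : 0 < κ2)
    (hκ1s : κ1 ≤ s / 2) (hκ2s : κ2 ≤ s / 2) (hy1 : 8 / 5 ≤ y1) (hy2 : 8 / 5 ≤ y2)
    (h1 : ∀ y : ℝ, 0 ≤ y → y ≤ y1 → κ1 * y ^ (2 : ℕ) ≤ Ht a s 0 (-y))
    (h2 : ∀ y : ℝ, 0 ≤ y → y ≤ y2 → κ2 * y ^ (2 : ℕ) ≤ Ht a s 0 y) :
    √(2 * Real.pi * δ / ‖1 - ((a : ℂ) + s * I)‖) -
        ‖(a : ℂ) + s * I‖ * δ / 12 * (1 / κ1 ^ (2 : ℕ) + 1 / κ2 ^ (2 : ℕ)) -
        5 / 4 * (δ / s) * Real.exp (-(32 / 25 * s / δ)) ≤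
      ‖∫ y in (-y1)..y2, Wt δ (a + s * I) 0 0 y‖ := by
  have hδc : (δ : ℂ) ≠ 0 := by exact_mod_cast hδ.ne'
  set h : ℂ := (a : ℂ) + s * I with hh
  set b : ℂ := (s + (1 - a) * I) / (2 * δ) with hb
  have hbre : b.re = s / (2 * δ) := by
    have e1 : b = ((s : ℂ) + (((1 - a : ℝ) : ℂ)) * I) / ((2 * δ : ℝ) : ℂ) := by
      rw [hb]
      push_cast
      ring
    rw [e1, Complex.div_ofReal_re]
    simp
  have hbpos : 0 < b.re := by rw [hbre]; positivity
  set c : ℝ := s / (2 * δ) with hc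
  have hcpos : 0 < c := by positivity
  set G : ℝ → ℂ := fun y => cexp (-b * (y : ℂ) ^ (2 : ℕ)) with hG
  have hGcont : Continuous G := by
    rw [hG]
    fun_prop
  have hGnorm : ∀ y : ℝ, ‖G y‖ = Real.exp (-c * y ^ (2 : ℕ)) := by
    intro y
    show ‖cexp (-b * (y : ℂ) ^ (2 : ℕ))‖ = _
    rw [Complex.norm_exp]
    congr 1
    have : ((y : ℂ)) ^ (2 : ℕ) = ((y ^ (2 : ℕ) : ℝ) : ℂ) := by push_cast; ring
    rw [this, Complex.re_mul_ofReal, Complex.neg_re, hbre]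
  have hGint : Integrable G := by
    rw [← integrable_norm_iff hGcont.aestronglyMeasurable]
    simp only [hGnorm]
    exact integrable_exp_neg_mul_sq hcpos
  -- the full integral
  have hfull : ‖∫ y : ℝ, G y‖ = √(2 * Real.pi * δ / ‖1 - h‖) := by
    have e1 : ∫ y : ℝ, G y = (Real.pi / b) ^ (1 / 2 : ℂ) := integral_gaussian_complex hbpos
    have e2 : (∫ y : ℝ, G y) ^ (2 : ℕ) = Real.pi / b := by
      rw [e1]
      have := Complex.cpow_nat_inv_pow (Real.pi / b) (n := 2) (by norm_num)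
      rw [one_div]
      exact_mod_cast this
    have e3 : ‖∫ y : ℝ, G y‖ ^ (2 : ℕ) = 2 * Real.pi * δ / ‖1 - h‖ := by
      rw [← norm_pow, e2, norm_div, Complex.norm_real, Real.norm_of_nonneg Real.pi_pos.le]
      have e4 : ‖b‖ = ‖1 - h‖ / (2 * δ) := by
        have e5 : b = I * (1 - h) / ((2 * δ : ℝ) : ℂ) := by
          rw [hb, hh]
          push_cast
          congr 1
          linear_combination (s : ℂ) * I_sq
        rw [e5, norm_div, norm_mul, Complex.norm_I, one_mul, Complex.norm_real,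
          Real.norm_of_nonneg (by positivity)]
      rw [e4]
      have hne : ‖1 - h‖ ≠ 0 := by
        rw [norm_ne_zero_iff]
        intro h0
        have := congrArg Complex.im h0
        rw [hh] at this
        simp at this
        exact hs.ne' this
      field_simp
    rw [← e3, Real.sqrt_sq (norm_nonneg _)]
  -- the tails
  have htail : ∀ Y : ℝ, 8 / 5 ≤ Y → ‖∫ y in Ioi Y, G y‖ ≤ 5 / 8 * (δ / s) * Real.exp (-(32 / 25 * s / δ)) := by
    intro Y hY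
    refine (norm_integral_le_integral_norm _).trans ?_
    simp only [hGnorm]
    refine (tail_gauss hcpos hY).trans (le_of_eq ?_)
    have e1 : -(64 / 25 * c) = -(32 / 25 * s / δ) := by rw [hc]; field_simp; ring
    have e2 : 5 / (16 * c) = 5 / 8 * (δ / s) := by rw [hc]; field_simp; ring
    rw [e1, e2]
  have hGeven : ∀ y : ℝ, G (-y) = G y := by
    intro y
    show cexp (-b * (((-y : ℝ) : ℂ)) ^ (2 : ℕ)) = cexp (-b * (y : ℂ) ^ (2 : ℕ))
    congr 1
    push_cast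
    ring
  have htail2 : ‖∫ y in Iic (-y1), G y‖ ≤ 5 / 8 * (δ / s) * Real.exp (-(32 / 25 * s / δ)) := by
    have e1 : ∫ y in Iic (-y1), G y = ∫ y in Ioi y1, G y := by
      have e2 := integral_comp_neg_Iic (-y1) G
      rw [neg_neg] at e2
      rw [← e2]
      simp only [hGeven]
    rw [e1]
    exact htail y1 hy1
  have hsplit : ∫ y : ℝ, G y = (∫ y in Iic (-y1), G y) + (∫ y in (-y1)..y2, G y) + ∫ y in Ioi y2, G y := by
    have e1 := intervalIntegral.integral_Iic_add_Ioi (b := -y1) (f := G) hGint.integrableOn hGint.integrableOn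
    have e2 := intervalIntegral.integral_interval_add_Ioi (a := -y1) (b := y2) (f := G) hGint.integrableOn
      hGint.integrableOn
    rw [← e1, ← e2]
    ring
  have hlow : √(2 * Real.pi * δ / ‖1 - h‖) - 5 / 4 * (δ / s) * Real.exp (-(32 / 25 * s / δ)) ≤
      ‖∫ y in (-y1)..y2, G y‖ := by
    have e1 : (∫ y in (-y1)..y2, G y) = (∫ y : ℝ, G y) - ((∫ y in Iic (-y1), G y) + ∫ y in Ioi y2, G y) := by
      rw [hsplit]
      ring
    have e2 := norm_sub_norm_le (∫ y : ℝ, G y) ((∫ y in Iic (-y1), G y) + ∫ y in Ioi y2, G y)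
    rw [← e1, hfull] at e2
    have e3 := norm_add_le (∫ y in Iic (-y1), G y) (∫ y in Ioi y2, G y)
    have e4 := htail y2 hy2
    linarith
  -- the error
  have hW : ∀ y : ℝ, Wt δ h 0 0 y = cexp (EE δ h ((0 : ℝ) + y * I)) := by
    intro y
    unfold Wt
    rw [pow_zero, one_mul]
  have herr : ∀ (κ y : ℝ), 0 ≤ |y| → κ ≤ s / 2 → κ * y ^ (2 : ℕ) ≤ Ht a s 0 y →
      ‖Wt δ h 0 0 y - G y‖ ≤ ‖h‖ / (6 * δ) * (|y| ^ (3 : ℕ) * Real.exp (-κ * y ^ (2 : ℕ) / δ)) := by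
    intro κ y _ hκs hHt
    rw [hW]
    show ‖cexp (EE δ h ((0 : ℝ) + y * I)) - cexp (-b * (y : ℂ) ^ (2 : ℕ))‖ ≤ _
    have e1 : (EE δ h ((0 : ℝ) + y * I)).re ≤ -κ * y ^ (2 : ℕ) / δ := by
      rw [hh, re_EE]
      apply div_le_div_of_nonneg_right _ hδ.le
      linarith
    have e2 : (-b * (y : ℂ) ^ (2 : ℕ)).re ≤ -κ * y ^ (2 : ℕ) / δ := by
      have : ((y : ℂ)) ^ (2 : ℕ) = ((y ^ (2 : ℕ) : ℝ) : ℂ) := by push_cast; ring
      rw [this, Complex.re_mul_ofReal, Complex.neg_re, hbre, hc]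
      have e3 : -(s / (2 * δ)) * y ^ (2 : ℕ) = -(s / 2) * y ^ (2 : ℕ) / δ := by field_simp
      rw [e3]
      apply div_le_div_of_nonneg_right _ hδ.le
      nlinarith only [hκs]
    refine (exp_diff e1 e2).trans ?_
    have e3 := EE_sub_gauss (a := a) (s := s) (y := y) hδ
    rw [← hh, ← hb] at e3
    calc Real.exp (-κ * y ^ (2 : ℕ) / δ) * ‖EE δ h ((0 : ℝ) + y * I) - -b * (y : ℂ) ^ (2 : ℕ)‖
        ≤ Real.exp (-κ * y ^ (2 : ℕ) / δ) * (‖h‖ * |y| ^ (3 : ℕ) / (6 * δ)) :=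
          mul_le_mul_of_nonneg_left e3 (Real.exp_pos _).le
      _ = _ := by ring
  have hWcont : Continuous fun y : ℝ => Wt δ h 0 0 y := continuous_Wt_y δ h 0 0
  have hDcont : Continuous fun y : ℝ => Wt δ h 0 0 y - G y := hWcont.sub hGcont
  have hA : 0 ≤ ‖h‖ / (6 * δ) := by positivity
  have hright : ‖∫ y in (0 : ℝ)..y2, (Wt δ h 0 0 y - G y)‖ ≤ ‖h‖ / (6 * δ) * (δ ^ (2 : ℕ) / (2 * κ2 ^ (2 : ℕ))) := by
    apply side_err hκ2 hδ (by linarith) hA
    intro y hy hyY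
    have := herr κ2 y (abs_nonneg _) hκ2s (h2 y hy hyY)
    rwa [abs_of_nonneg hy] at this
  have hleft : ‖∫ y in (-y1)..(0 : ℝ), (Wt δ h 0 0 y - G y)‖ ≤ ‖h‖ / (6 * δ) * (δ ^ (2 : ℕ) / (2 * κ1 ^ (2 : ℕ))) := by
    have e1 := intervalIntegral.integral_comp_neg (a := 0) (b := y1) (fun y : ℝ => Wt δ h 0 0 y - G y)
    rw [neg_zero] at e1
    rw [← e1]
    apply side_err hκ1 hδ (by linarith) hA
    intro y hy hyY
    have e2 := herr κ1 (-y) (abs_nonneg _) hκ1s (by rw [neg_sq]; exact h1 y hy hyY)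
    rwa [abs_neg, abs_of_nonneg hy, neg_sq] at e2
  have hsum : (∫ y in (-y1)..y2, Wt δ h 0 0 y) - ∫ y in (-y1)..y2, G y =
      (∫ y in (-y1)..(0 : ℝ), (Wt δ h 0 0 y - G y)) + ∫ y in (0 : ℝ)..y2, (Wt δ h 0 0 y - G y) := by
    rw [← intervalIntegral.integral_sub (hWcont.intervalIntegrable _ _) (hGcont.intervalIntegrable _ _)]
    exact (intervalIntegral.integral_add_adjacent_intervals (hDcont.intervalIntegrable _ _)
      (hDcont.intervalIntegrable _ _)).symm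
  have hfin : ‖∫ y in (-y1)..y2, G y‖ - (‖h‖ / (6 * δ) * (δ ^ (2 : ℕ) / (2 * κ1 ^ (2 : ℕ))) +
      ‖h‖ / (6 * δ) * (δ ^ (2 : ℕ) / (2 * κ2 ^ (2 : ℕ)))) ≤ ‖∫ y in (-y1)..y2, Wt δ h 0 0 y‖ := by
    have e1 := norm_sub_norm_le (∫ y in (-y1)..y2, G y) (∫ y in (-y1)..y2, Wt δ h 0 0 y)
    have e2 := norm_add_le (∫ y in (-y1)..(0 : ℝ), (Wt δ h 0 0 y - G y))
      (∫ y in (0 : ℝ)..y2, (Wt δ h 0 0 y - G y))
    rw [← hsum] at e2
    rw [norm_sub_rev] at e1
    linarith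
  have hconst : ‖h‖ * δ / 12 * (1 / κ1 ^ (2 : ℕ) + 1 / κ2 ^ (2 : ℕ)) =
      ‖h‖ / (6 * δ) * (δ ^ (2 : ℕ) / (2 * κ1 ^ (2 : ℕ))) + ‖h‖ / (6 * δ) * (δ ^ (2 : ℕ) / (2 * κ2 ^ (2 : ℕ))) := by
    field_simp
    ring
  rw [hconst]
  linarith

end SokamN1

end

/-! ### Lib_MP_af4de1_f1.N1G2 -/

section
/-!
# N = 1, large `rho`: the main part, upper bounds for the moments

`‖Wt δ h j 0 y‖ = |y|^j e^{-Ht/δ} ≤ |y|^j e^{-κ y²/δ}`.
-/

set_option autoImplicit false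

namespace SokamN1

open Complex Set MeasureTheory

private theorem int_one {κ δ Y : ℝ} (hκ : 0 < κ) (hδ : 0 < δ) :
    ∫ y in (0 : ℝ)..Y, y * Real.exp (-κ * y ^ (2 : ℕ) / δ) ≤ δ / 2 * (1 / κ) := by
  have hF : ∀ y : ℝ, HasDerivAt (fun y : ℝ => -(δ / (2 * κ)) * Real.exp (-κ * y ^ (2 : ℕ) / δ))
      (y * Real.exp (-κ * y ^ (2 : ℕ) / δ)) y := by
    intro y
    have h1 : HasDerivAt (fun y : ℝ => y ^ (2 : ℕ)) (2 * y) y := by simpa using hasDerivAt_pow 2 y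
    have h2 : HasDerivAt (fun y : ℝ => -κ * y ^ (2 : ℕ) / δ) (-κ * (2 * y) / δ) y :=
      (h1.const_mul (-κ)).div_const δ
    have h4 := h2.exp.const_mul (-(δ / (2 * κ)))
    refine h4.congr_deriv ?_
    field_simp
  rw [intervalIntegral.integral_eq_sub_of_hasDerivAt (fun y _ => hF y)
    (Continuous.intervalIntegrable (by fun_prop) _ _)]
  have h5 : 0 ≤ δ / (2 * κ) * Real.exp (-κ * Y ^ (2 : ℕ) / δ) := by positivity
  have h6 : -(δ / (2 * κ)) * Real.exp (-κ * 0 ^ (2 : ℕ) / δ) = -(δ / 2 * (1 / κ)) := by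
    simp
    field_simp
  rw [h6]
  linarith

private theorem int_two {κ δ Y : ℝ} (hκ : 0 < κ) (hδ : 0 < δ) (hY : 0 ≤ Y) :
    ∫ y in (0 : ℝ)..Y, y ^ (2 : ℕ) * Real.exp (-κ * y ^ (2 : ℕ) / δ) ≤ √Real.pi / 4 * (δ / κ * √(δ / κ)) := by
  have hF : ∀ y : ℝ, HasDerivAt (fun y : ℝ => -(δ / (2 * κ)) * (y * Real.exp (-κ * y ^ (2 : ℕ) / δ)))
      (y ^ (2 : ℕ) * Real.exp (-κ * y ^ (2 : ℕ) / δ) - δ / (2 * κ) * Real.exp (-κ * y ^ (2 : ℕ) / δ)) y := by
    intro y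
    have h1 : HasDerivAt (fun y : ℝ => y ^ (2 : ℕ)) (2 * y) y := by simpa using hasDerivAt_pow 2 y
    have h2 : HasDerivAt (fun y : ℝ => -κ * y ^ (2 : ℕ) / δ) (-κ * (2 * y) / δ) y :=
      (h1.const_mul (-κ)).div_const δ
    have h4 := ((hasDerivAt_id y).mul h2.exp).const_mul (-(δ / (2 * κ)))
    refine h4.congr_deriv ?_
    simp only [id]
    field_simp
    ring
  have hc1 : Continuous fun y : ℝ => y ^ (2 : ℕ) * Real.exp (-κ * y ^ (2 : ℕ) / δ) := by fun_prop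
  have hc2 : Continuous fun y : ℝ => δ / (2 * κ) * Real.exp (-κ * y ^ (2 : ℕ) / δ) := by fun_prop
  have h1 := intervalIntegral.integral_eq_sub_of_hasDerivAt (a := 0) (b := Y) (fun y _ => hF y)
    ((hc1.sub hc2).intervalIntegrable _ _)
  rw [intervalIntegral.integral_sub (hc1.intervalIntegrable _ _) (hc2.intervalIntegrable _ _)] at h1
  have h5 : 0 ≤ δ / (2 * κ) * (Y * Real.exp (-κ * Y ^ (2 : ℕ) / δ)) := by positivity
  have h6 : ∫ y in (0 : ℝ)..Y, y ^ (2 : ℕ) * Real.exp (-κ * y ^ (2 : ℕ) / δ) ≤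
      ∫ y in (0 : ℝ)..Y, δ / (2 * κ) * Real.exp (-κ * y ^ (2 : ℕ) / δ) := by
    have h7 : -(δ / (2 * κ)) * ((0 : ℝ) * Real.exp (-κ * 0 ^ (2 : ℕ) / δ)) = 0 := by simp
    rw [h7] at h1
    linarith
  refine h6.trans ?_
  rw [intervalIntegral.integral_const_mul]
  have hb : 0 < κ / δ := by positivity
  have e1 : ∀ y : ℝ, Real.exp (-κ * y ^ (2 : ℕ) / δ) = Real.exp (-(κ / δ) * y ^ (2 : ℕ)) := by
    intro y
    congr 1
    ring
  simp only [e1]
  have h8 : ∫ y in (0 : ℝ)..Y, Real.exp (-(κ / δ) * y ^ (2 : ℕ)) ≤ √(Real.pi / (κ / δ)) / 2 := by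
    rw [← integral_gaussian_Ioi, intervalIntegral.integral_of_le hY]
    apply setIntegral_mono_set (integrable_exp_neg_mul_sq hb).integrableOn
    · exact Filter.Eventually.of_forall fun y => (Real.exp_pos _).le
    · exact Ioc_subset_Ioi_self.eventuallyLE
  have h9 : √(Real.pi / (κ / δ)) = √Real.pi * √(δ / κ) := by
    rw [← Real.sqrt_mul Real.pi_pos.le]
    congr 1
    field_simp
  rw [h9] at h8
  calc δ / (2 * κ) * ∫ y in (0 : ℝ)..Y, Real.exp (-(κ / δ) * y ^ (2 : ℕ))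
      ≤ δ / (2 * κ) * (√Real.pi * √(δ / κ) / 2) := mul_le_mul_of_nonneg_left h8 (by positivity)
    _ = √Real.pi / 4 * (δ / κ * √(δ / κ)) := by ring

private theorem norm_le_of {δ κ a s y : ℝ} {j : ℕ} (hδ : 0 < δ) (h : κ * y ^ (2 : ℕ) ≤ Ht a s 0 y) :
    ‖Wt δ (a + s * I) j 0 y‖ ≤ |y| ^ j * Real.exp (-κ * y ^ (2 : ℕ) / δ) := by
  rw [norm_Wt]
  have e1 : √((0 : ℝ) ^ (2 : ℕ) + y ^ (2 : ℕ)) = |y| := by
    rw [zero_pow two_ne_zero, zero_add, Real.sqrt_sq_eq_abs]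
  rw [e1]
  apply mul_le_mul_of_nonneg_left _ (by positivity)
  apply Real.exp_le_exp.2
  apply div_le_div_of_nonneg_right _ hδ.le
  linarith

private theorem both {δ κ1 κ2 a s y1 y2 B1 B2 : ℝ} {j : ℕ} (hδ : 0 < δ)
    (hy1 : 0 ≤ y1) (hy2 : 0 ≤ y2)
    (h1 : ∀ y : ℝ, 0 ≤ y → y ≤ y1 → κ1 * y ^ (2 : ℕ) ≤ Ht a s 0 (-y))
    (h2 : ∀ y : ℝ, 0 ≤ y → y ≤ y2 → κ2 * y ^ (2 : ℕ) ≤ Ht a s 0 y)
    (hB1 : ∫ y in (0 : ℝ)..y1, y ^ j * Real.exp (-κ1 * y ^ (2 : ℕ) / δ) ≤ B1)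
    (hB2 : ∫ y in (0 : ℝ)..y2, y ^ j * Real.exp (-κ2 * y ^ (2 : ℕ) / δ) ≤ B2) :
    ‖∫ y in (-y1)..y2, Wt δ (a + s * I) j 0 y‖ ≤ B1 + B2 := by
  have hcont : Continuous fun y : ℝ => Wt δ (a + s * I) j 0 y := continuous_Wt_y δ _ j 0
  rw [← intervalIntegral.integral_add_adjacent_intervals (hcont.intervalIntegrable (-y1) 0)
    (hcont.intervalIntegrable 0 y2)]
  refine (norm_add_le _ _).trans (add_le_add ?_ ?_)
  · have e1 := intervalIntegral.integral_comp_neg (a := 0) (b := y1)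
      (fun y : ℝ => Wt δ (a + s * I) j 0 y)
    rw [neg_zero] at e1
    rw [← e1]
    refine le_trans ?_ hB1
    apply intervalIntegral.norm_integral_le_of_norm_le hy1
    · refine Filter.Eventually.of_forall fun y hy => ?_
      have e2 := norm_le_of (δ := δ) (κ := κ1) (a := a) (s := s) (y := -y) (j := j) hδ
        (by rw [neg_sq]; exact h1 y hy.1.le hy.2)
      rwa [abs_neg, abs_of_nonneg hy.1.le, neg_sq] at e2
    · exact Continuous.intervalIntegrable (by fun_prop) _ _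
  · refine le_trans ?_ hB2
    apply intervalIntegral.norm_integral_le_of_norm_le hy2
    · refine Filter.Eventually.of_forall fun y hy => ?_
      have e2 := norm_le_of (δ := δ) (κ := κ2) (a := a) (s := s) (y := y) (j := j) hδ
        (h2 y hy.1.le hy.2)
      rwa [abs_of_nonneg hy.1.le] at e2
    · exact Continuous.intervalIntegrable (by fun_prop) _ _

theorem main_up1 {δ κ1 κ2 a s y1 y2 : ℝ} (hδ : 0 < δ) (hκ1 : 0 < κ1) (hκ2 : 0 < κ2)
    (hy1 : 0 ≤ y1) (hy2 : 0 ≤ y2)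
    (h1 : ∀ y : ℝ, 0 ≤ y → y ≤ y1 → κ1 * y ^ (2 : ℕ) ≤ Ht a s 0 (-y))
    (h2 : ∀ y : ℝ, 0 ≤ y → y ≤ y2 → κ2 * y ^ (2 : ℕ) ≤ Ht a s 0 y) :
    ‖∫ y in (-y1)..y2, Wt δ (a + s * I) 1 0 y‖ ≤ δ / 2 * (1 / κ1 + 1 / κ2) := by
  rw [mul_add]
  refine both hδ hy1 hy2 h1 h2 ?_ ?_
  · simp only [pow_one]
    exact int_one hκ1 hδ
  · simp only [pow_one]
    exact int_one hκ2 hδ

theorem main_up2 {δ κ1 κ2 a s y1 y2 : ℝ} (hδ : 0 < δ) (hκ1 : 0 < κ1) (hκ2 : 0 < κ2)
    (hy1 : 0 ≤ y1) (hy2 : 0 ≤ y2)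
    (h1 : ∀ y : ℝ, 0 ≤ y → y ≤ y1 → κ1 * y ^ (2 : ℕ) ≤ Ht a s 0 (-y))
    (h2 : ∀ y : ℝ, 0 ≤ y → y ≤ y2 → κ2 * y ^ (2 : ℕ) ≤ Ht a s 0 y) :
    ‖∫ y in (-y1)..y2, Wt δ (a + s * I) 2 0 y‖ ≤
      √Real.pi / 4 * (δ / κ1 * √(δ / κ1) + δ / κ2 * √(δ / κ2)) := by
  rw [mul_add]
  exact both hδ hy1 hy2 h1 h2 (int_two hκ1 hδ hy1) (int_two hκ2 hδ hy2)

end SokamN1

end

/-! ### Lib_MP_af4de1_fu.N2S -/

section
namespace SokamF
end SokamF
/-!
# `N = 2`, `q = -e^(iδ)`: the real series of the tie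

`S r δ η = ∑ (2 r cos (η + m δ))^(2m+1)/(2m+1)! = (|E(w)|² - |E(-w)|²)/2`, `w = r e^(iη)`, `E = F(·; e^(iδ))`.
`F(z; -e^(iδ)) = 0`, `w = i z`, implies `S = 0`; `∂S/∂η = -2 r J`.
-/

set_option autoImplicit false

namespace SokamFU.N2

open Filter Topology Set SokamF Real

/-- the terms of `S` -/
noncomputable def yy (r δ η : ℝ) (m : ℕ) : ℝ :=
  (2 * r * cos (η + m * δ)) ^ (2 * m + 1) / ((2 * m + 1).factorial : ℝ)

/-- the weights of `J` -/
noncomputable def uu (r δ η : ℝ) (m : ℕ) : ℝ :=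
  (2 * r * cos (η + m * δ)) ^ (2 * m) / ((2 * m).factorial : ℝ)

/-- the real series of the tie -/
noncomputable def S (r δ η : ℝ) : ℝ := ∑' m, yy r δ η m

/-- `-∂S/∂η / (2r)` -/
noncomputable def J (r δ η : ℝ) : ℝ := ∑' m : ℕ, sin (η + m * δ) * uu r δ η m

theorem abs_term_le {r : ℝ} (hr : 0 ≤ r) (x : ℝ) (n : ℕ) :
    |(2 * r * cos x) ^ n / (n.factorial : ℝ)| ≤ (2 * r) ^ n / (n.factorial : ℝ) := by
  rw [abs_div, abs_pow, abs_of_nonneg (by positivity : (0 : ℝ) ≤ (n.factorial : ℝ))]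
  gcongr
  rw [abs_mul, abs_of_nonneg (by positivity : (0 : ℝ) ≤ 2 * r)]
  exact mul_le_of_le_one_right (by positivity) (abs_cos_le_one x)

theorem summable_even (x : ℝ) : Summable fun m : ℕ => x ^ (2 * m) / ((2 * m).factorial : ℝ) :=
  (Real.summable_pow_div_factorial x).comp_injective (fun a b h => by simpa using h : Function.Injective fun m : ℕ => 2 * m)

theorem summable_odd (x : ℝ) : Summable fun m : ℕ => x ^ (2 * m + 1) / ((2 * m + 1).factorial : ℝ) :=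
  (Real.summable_pow_div_factorial x).comp_injective
    (fun a b h => by simpa using h : Function.Injective fun m : ℕ => 2 * m + 1)

theorem summable_yy {r : ℝ} (hr : 0 ≤ r) (δ η : ℝ) : Summable (yy r δ η) :=
  Summable.of_norm_bounded (summable_odd (2 * r)) (fun _ => abs_term_le hr _ _)

theorem uu_nonneg (r δ η : ℝ) (m : ℕ) : 0 ≤ uu r δ η m := by
  unfold uu
  rw [pow_mul]
  positivity

theorem summable_uu {r : ℝ} (hr : 0 ≤ r) (δ η : ℝ) : Summable (uu r δ η) :=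
  Summable.of_norm_bounded (summable_even (2 * r)) (fun _ => abs_term_le hr _ _)

theorem abs_sin_uu_le {r : ℝ} (hr : 0 ≤ r) (δ η : ℝ) (m : ℕ) :
    ‖sin (η + m * δ) * uu r δ η m‖ ≤ (2 * r) ^ (2 * m) / ((2 * m).factorial : ℝ) := by
  rw [norm_mul]
  calc ‖sin (η + m * δ)‖ * ‖uu r δ η m‖ ≤ 1 * ((2 * r) ^ (2 * m) / ((2 * m).factorial : ℝ)) := by
        gcongr
        · exact abs_sin_le_one _
        · exact abs_term_le hr _ _
    _ = _ := one_mul _

theorem summable_J {r : ℝ} (hr : 0 ≤ r) (δ η : ℝ) : Summable fun m : ℕ => sin (η + m * δ) * uu r δ η m :=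
  Summable.of_norm_bounded (summable_even (2 * r)) (abs_sin_uu_le hr δ η)

theorem S_add_pi (r δ η : ℝ) : S r δ (η + π) = -S r δ η := by
  unfold S
  rw [← tsum_neg]
  refine tsum_congr fun m => ?_
  unfold yy
  have h : cos (η + π + m * δ) = -cos (η + m * δ) := by
    rw [← cos_add_pi]; ring_nf
  rw [h, mul_neg, Odd.neg_pow ⟨m, rfl⟩, neg_div]

theorem J_add_pi (r δ η : ℝ) : J r δ (η + π) = -J r δ η := by
  unfold J
  rw [← tsum_neg]
  refine tsum_congr fun m => ?_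
  unfold uu
  have h : cos (η + π + m * δ) = -cos (η + m * δ) := by
    rw [← cos_add_pi]; ring_nf
  have h2 : sin (η + π + m * δ) = -sin (η + m * δ) := by
    rw [← sin_add_pi]; ring_nf
  rw [h, h2, mul_neg, Even.neg_pow ⟨m, by ring⟩]
  ring

theorem hasDerivAt_S {r : ℝ} (hr : 0 ≤ r) (δ η : ℝ) : HasDerivAt (S r δ) (-(2 * r) * J r δ η) η := by
  have h := hasDerivAt_tsum (𝕜 := ℝ) (F := ℝ) (g := fun (m : ℕ) (x : ℝ) => yy r δ x m)
    (g' := fun (m : ℕ) (x : ℝ) => -(2 * r) * (sin (x + m * δ) * uu r δ x m))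
    (u := fun m : ℕ => (2 * r) * ((2 * r) ^ (2 * m) / ((2 * m).factorial : ℝ))) (y₀ := η)
    ((summable_even (2 * r)).mul_left _)
    (by
      intro m x
      have h1 : HasDerivAt (fun x : ℝ => 2 * r * cos (x + m * δ)) (2 * r * (-sin (x + m * δ) * 1)) x :=
        (HasDerivAt.cos ((hasDerivAt_id x).add_const (m * δ))).const_mul _
      have h2 := (h1.fun_pow (2 * m + 1)).div_const ((2 * m + 1).factorial : ℝ)
      refine h2.congr_deriv ?_
      unfold uu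
      rw [Nat.factorial_succ, Nat.add_sub_cancel]
      have h3 : ((2 * m).factorial : ℝ) ≠ 0 := by positivity
      have h4 : (((2 * m : ℕ) : ℝ) + 1) ≠ 0 := by positivity
      push_cast at h4 ⊢
      field_simp)
    (by
      intro m x
      rw [norm_mul, norm_neg, Real.norm_of_nonneg (by positivity : (0 : ℝ) ≤ 2 * r)]
      exact mul_le_mul_of_nonneg_left (abs_sin_uu_le hr δ x m) (by positivity))
    (summable_yy hr δ η) η
  have h5 : (∑' m : ℕ, -(2 * r) * (sin (η + m * δ) * uu r δ η m)) = -(2 * r) * J r δ η := by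
    rw [tsum_mul_left]; rfl
  rw [h5] at h
  exact h

/-! ### At most one zero in a half circle -/

theorem unique_of {r δ c : ℝ} (hr : 0 < r) (h : ∀ η ∈ Ico c (c + π), S r δ η = 0 → 0 < J r δ η) {η₁ η₂ : ℝ}
    (h1 : η₁ ∈ Ico c (c + π)) (h2 : η₂ ∈ Ico c (c + π)) (hlt : η₁ < η₂) (e1 : S r δ η₁ = 0) (e2 : S r δ η₂ = 0) :
    False := by
  have hcont : Continuous (S r δ) := continuous_iff_continuousAt.2 fun x => (hasDerivAt_S hr.le δ x).continuousAt
  have hneg : ∀ η ∈ Ico c (c + π), S r δ η = 0 → -(2 * r) * J r δ η < 0 := fun η hη h0 => by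
    have := h η hη h0
    nlinarith [mul_pos hr this]
  -- a point to the left of `η₂` with positive value
  have hd2 := hasDerivAt_S hr.le δ η₂
  have hp : ∃ x₂ ∈ Ioo η₁ η₂, 0 < S r δ x₂ := by
    have h3 : ∀ᶠ x in 𝓝[<] η₂, slope (S r δ) η₂ x < 0 := by
      have := (hasDerivAt_iff_tendsto_slope.1 hd2).mono_left (nhdsWithin_mono η₂ (fun x (hx : x < η₂) => ne_of_lt hx))
      exact this.eventually_lt_const (hneg η₂ h2 e2)
    have h4 : ∀ᶠ x in 𝓝[<] η₂, x ∈ Ioo η₁ η₂ := Ioo_mem_nhdsLT hlt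
    obtain ⟨x, hx1, hx2⟩ := (h3.and h4).exists
    refine ⟨x, hx2, ?_⟩
    rw [slope_def_field, e2, sub_zero] at hx1
    have h5 : x - η₂ < 0 := by linarith [hx2.2]
    by_contra h6
    rw [not_lt] at h6
    have := div_nonneg_of_nonpos h6 h5.le
    linarith
  obtain ⟨x₂, hx2, hx2p⟩ := hp
  set T : Set ℝ := Icc η₁ x₂ ∩ {x | S r δ x ≤ 0} with hT
  have hTc : IsCompact T := isCompact_Icc.inter_right (isClosed_le hcont continuous_const)
  have hTn : T.Nonempty := ⟨η₁, ⟨le_rfl, hx2.1.le⟩, e1.le⟩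
  obtain ⟨x₃, hx3, hmax⟩ := hTc.exists_isGreatest hTn
  have hx3lt : x₃ < x₂ := lt_of_le_of_ne hx3.1.2 (fun e => by
    have := hx3.2
    rw [e] at this
    exact absurd this (not_le.2 hx2p))
  have hx3mem : x₃ ∈ Ico c (c + π) := ⟨h1.1.trans hx3.1.1, (hx3lt.trans hx2.2).trans h2.2⟩
  have hex : ∃ x ∈ Ioo x₃ x₂, S r δ x ≤ 0 := by
    have h4 : ∀ᶠ x in 𝓝[>] x₃, x ∈ Ioo x₃ x₂ := Ioo_mem_nhdsGT hx3lt
    rcases lt_or_eq_of_le (show S r δ x₃ ≤ 0 from hx3.2) with h5 | h5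
    · have h6 : ∀ᶠ x in 𝓝[>] x₃, S r δ x < 0 :=
        (hcont.continuousAt.eventually_lt continuousAt_const h5).filter_mono nhdsWithin_le_nhds
      obtain ⟨x, hx1, hx2⟩ := (h6.and h4).exists
      exact ⟨x, hx2, hx1.le⟩
    · have h3 : ∀ᶠ x in 𝓝[>] x₃, slope (S r δ) x₃ x < 0 := by
        have := (hasDerivAt_iff_tendsto_slope.1 (hasDerivAt_S hr.le δ x₃)).mono_left
          (nhdsWithin_mono x₃ (fun x (hx : x₃ < x) => ne_of_gt hx))
        exact this.eventually_lt_const (hneg x₃ hx3mem h5)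
      obtain ⟨x, hx1, hx2⟩ := (h3.and h4).exists
      refine ⟨x, hx2, ?_⟩
      rw [slope_def_field, h5, sub_zero] at hx1
      have h7 : 0 < x - x₃ := by linarith [hx2.1]
      by_contra h6
      rw [not_le] at h6
      have := div_nonneg h6.le h7.le
      linarith
  obtain ⟨x, hx, hxS⟩ := hex
  have := hmax ⟨⟨hx3.1.1.trans hx.1.le, hx.2.le⟩, hxS⟩
  linarith [hx.1]

end SokamFU.N2

end

/-! ### Lib_MP_af4de1_fu.N2E -/

section
/-!
# `N = 2`: elementary estimates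
-/

set_option autoImplicit false

namespace SokamFU.N2

open Filter Topology Set Real

/-! ### Factorials -/

theorem pow_fact_le {x : ℝ} (hx : 0 ≤ x) (κ : ℝ) (n : ℕ) :
    x ^ n / (n.factorial : ℝ) ≤ exp (-(κ * n)) * exp (x * exp κ) := by
  have h1 := Real.pow_div_factorial_le_exp (x * exp κ) (by positivity) n
  have h2 : x ^ n / (n.factorial : ℝ) = exp (-(κ * n)) * ((x * exp κ) ^ n / (n.factorial : ℝ)) := by
    rw [mul_pow, ← exp_nat_mul, exp_neg, mul_comm (n : ℝ) κ]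
    field_simp
  rw [h2]
  exact mul_le_mul_of_nonneg_left h1 (exp_pos _).le

theorem fact_le (n : ℕ) : ((n + 1).factorial : ℝ) ≤ exp 1 * (n + 1 : ℕ) * ((n + 1 : ℕ) / exp 1) ^ (n + 1) := by
  induction n with
  | zero =>
    simp only [zero_add, Nat.factorial_one, Nat.cast_one, mul_one, pow_one]
    rw [mul_div_cancel₀ _ (exp_pos 1).ne']
  | succ n ih =>
    have he := exp_pos 1
    have hn : (0 : ℝ) < (n + 1 : ℕ) := by positivity
    have h1 : exp 1 * ((n + 1 : ℕ) : ℝ) ^ (n + 1 + 1) ≤ ((n + 1 + 1 : ℕ) : ℝ) ^ (n + 1 + 1) := by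
      have h2 : exp 1 ≤ (((n + 1 + 1 : ℕ) : ℝ) / (n + 1 : ℕ)) ^ (n + 1 + 1) := by
        have h3 : (0 : ℝ) < ((n + 1 + 1 : ℕ) : ℝ) / (n + 1 : ℕ) := by positivity
        have h4 := Real.one_sub_inv_le_log_of_pos h3
        have h5 : 1 - (((n + 1 + 1 : ℕ) : ℝ) / (n + 1 : ℕ))⁻¹ = 1 / ((n + 1 + 1 : ℕ) : ℝ) := by
          push_cast
          field_simp
          ring
        rw [h5] at h4
        calc exp 1 = exp (((n + 1 + 1 : ℕ) : ℝ) * (1 / ((n + 1 + 1 : ℕ) : ℝ))) := by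
              congr 1
              have : ((n + 1 + 1 : ℕ) : ℝ) ≠ 0 := by positivity
              field_simp
          _ ≤ exp (((n + 1 + 1 : ℕ) : ℝ) * log (((n + 1 + 1 : ℕ) : ℝ) / (n + 1 : ℕ))) := by
              apply exp_le_exp.2
              exact mul_le_mul_of_nonneg_left h4 (by positivity)
          _ = _ := by
              rw [exp_nat_mul, exp_log h3]
      rw [div_pow, le_div_iff₀ (by positivity)] at h2
      exact h2
    rw [Nat.factorial_succ]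
    push_cast
    push_cast at ih h1
    calc ((n : ℝ) + 1 + 1) * (((n + 1).factorial : ℕ) : ℝ)
        ≤ ((n : ℝ) + 1 + 1) * (exp 1 * ((n : ℝ) + 1) * (((n : ℝ) + 1) / exp 1) ^ (n + 1)) := by
          gcongr
      _ = ((n : ℝ) + 1 + 1) / exp 1 ^ (n + 1) * (exp 1 * ((n : ℝ) + 1) ^ (n + 1 + 1)) := by
          rw [div_pow]
          field_simp
          ring
      _ ≤ ((n : ℝ) + 1 + 1) / exp 1 ^ (n + 1) * (((n : ℝ) + 1 + 1) ^ (n + 1 + 1)) := by
          gcongr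
      _ = exp 1 * ((n : ℝ) + 1 + 1) * (((n : ℝ) + 1 + 1) / exp 1) ^ (n + 1 + 1) := by
          rw [div_pow]
          field_simp
          ring

/-- lower bound of `x^n/n!` -/
theorem le_pow_fact {x b : ℝ} {n : ℕ} (hn : 1 ≤ n) (hb : 0 ≤ b) (h : b * n ≤ x * exp 1) :
    b ^ n / (exp 1 * n) ≤ x ^ n / (n.factorial : ℝ) := by
  obtain ⟨k, rfl⟩ : ∃ k, n = k + 1 := ⟨n - 1, by omega⟩
  have he := exp_pos 1
  have h1 := fact_le k
  have hx : b * ((k + 1 : ℕ) : ℝ) / exp 1 ≤ x := by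
    rw [div_le_iff₀ he]; exact h
  have hx0 : 0 ≤ b * ((k + 1 : ℕ) : ℝ) / exp 1 := by positivity
  rw [div_le_div_iff₀ (by positivity) (by positivity)]
  calc b ^ (k + 1) * ((k + 1).factorial : ℝ)
      ≤ b ^ (k + 1) * (exp 1 * (k + 1 : ℕ) * ((k + 1 : ℕ) / exp 1) ^ (k + 1)) := by gcongr
    _ = (b * ((k + 1 : ℕ) : ℝ) / exp 1) ^ (k + 1) * (exp 1 * (k + 1 : ℕ)) := by
        rw [mul_div_assoc, mul_pow]; ring
    _ ≤ x ^ (k + 1) * (exp 1 * (k + 1 : ℕ)) := by gcongr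

end SokamFU.N2

end

/-! ### Lib_MP_af4de1_fu.N2F -/

section
/-!
# `N = 2`: the zone `η ∈ [-π/2, 0]`: `S > 0`
-/

set_option autoImplicit false

namespace SokamFU.N2

open Filter Topology Set Real

/-! ### Geometric sums and the general lower bound -/

theorem geo_lt {a : ℝ} (ha : 0 < a) : exp (-a) < 1 := by
  rw [exp_lt_one_iff]; linarith only [ha]

theorem exp_geo (a : ℝ) (m : ℕ) : exp (-(a * m)) = exp (-a) ^ m := by
  rw [← exp_nat_mul]; ring_nf

theorem summable_geo {a : ℝ} (ha : 0 < a) : Summable fun m : ℕ => exp (-(a * m)) := by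
  simp only [exp_geo]
  exact summable_geometric_of_lt_one (exp_pos _).le (geo_lt ha)

theorem tsum_geo_le {a : ℝ} (ha : 0 < a) : ∑' m : ℕ, exp (-(a * m)) ≤ (1 + a) / a := by
  simp only [exp_geo]
  rw [tsum_geometric_of_lt_one (exp_pos _).le (geo_lt ha)]
  have h1 : 1 + a ≤ exp a := by linarith only [add_one_le_exp a]
  have h2 : exp (-a) ≤ 1 / (1 + a) := by
    rw [exp_neg, ← one_div]
    exact one_div_le_one_div_of_le (by linarith only [ha]) h1
  have h3 : a / (1 + a) ≤ 1 - exp (-a) := by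
    have : a / (1 + a) = 1 - 1 / (1 + a) := by field_simp; ring
    linarith only [h2, this]
  rw [← inv_div a (1 + a)]
  exact inv_anti₀ (by positivity) h3

theorem S_ge {r δ η : ℝ} (hr : 0 ≤ r) {C a : ℝ} (hC : 0 ≤ C) (ha : 0 < a)
    (h : ∀ m : ℕ, -(C * exp (-(a * m))) ≤ yy r δ η m) (k : ℕ) :
    yy r δ η k - C * ((1 + a) / a) ≤ S r δ η := by
  have hs := summable_yy hr δ η
  have hg := (summable_geo ha).mul_left C
  have h1 := (hs.add hg).le_tsum k (fun j _ => by linarith only [h j])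
  rw [hs.tsum_add hg, tsum_mul_left] at h1
  have h2 := mul_le_mul_of_nonneg_left (tsum_geo_le ha) hC
  have h3 : 0 ≤ C * exp (-(a * k)) := by positivity
  have h4 : S r δ η = ∑' m, yy r δ η m := rfl
  linarith only [h1, h2, h3, h4]

/-! ### The terms -/

theorem yy_nonneg {r δ η : ℝ} (hr : 0 ≤ r) {m : ℕ} (h : 0 ≤ cos (η + m * δ)) : 0 ≤ yy r δ η m := by
  unfold yy; positivity

theorem yy_nonpos {r δ η : ℝ} (hr : 0 ≤ r) {m : ℕ} (h : cos (η + m * δ) ≤ 0) : yy r δ η m ≤ 0 := by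
  unfold yy
  apply div_nonpos_of_nonpos_of_nonneg _ (by positivity)
  exact Odd.pow_nonpos ⟨m, rfl⟩ (mul_nonpos_of_nonneg_of_nonpos (by positivity) h)

theorem abs_yy_le {r : ℝ} (hr : 0 ≤ r) (δ η κ : ℝ) (m : ℕ) :
    |yy r δ η m| ≤ exp (-(κ * (2 * m + 1)) + 2 * r * |cos (η + m * δ)| * exp κ) := by
  have h := pow_fact_le (x := 2 * r * |cos (η + m * δ)|) (by positivity) κ (2 * m + 1)
  unfold yy
  rw [abs_div, abs_pow, abs_of_nonneg (by positivity : (0 : ℝ) ≤ ((2 * m + 1).factorial : ℝ)), abs_mul,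
    abs_of_nonneg (by positivity : (0 : ℝ) ≤ 2 * r), exp_add]
  push_cast at h
  exact h

theorem sin_le_cos {x t : ℝ} (h : |x| ≤ π / 2 - t) (ht : -(π / 2) ≤ t) : sin t ≤ cos x := by
  rw [← cos_abs x, ← cos_pi_div_two_sub t]
  exact cos_le_cos_of_nonneg_of_le_pi (abs_nonneg _) (by linarith only [ht]) h

theorem exp_neg_le {x : ℝ} (hx : 0 < x) : exp (-x) ≤ 6 / x ^ (3 : ℕ) := by
  have h := Real.pow_div_factorial_le_exp x hx.le 3
  have h2 : x ^ (3 : ℕ) / 6 ≤ exp x := by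
    have : ((3 : ℕ).factorial : ℝ) = 6 := by norm_num [Nat.factorial]
    rwa [this] at h
  rw [exp_neg, ← one_div, div_le_div_iff₀ (exp_pos _) (by positivity)]
  have : 0 < x ^ (3 : ℕ) := by positivity
  linarith only [h2]

/-! ### Case A: `ρ ≤ 1/2` -/

theorem Z1A {r δ η : ℝ} (hr : 40 ≤ r) (hδ : 0 < δ) (hρ : r * δ ≤ 1 / 2) (h1 : -(π / 2) ≤ η) (h2 : η ≤ 0) :
    0 < S r δ η := by
  have hπ := Real.pi_gt_d6
  have hπ2 := Real.pi_lt_d6
  have hδ2 : δ ≤ 0.0125 := by nlinarith only [hr, hρ]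
  have hr0 : 0 ≤ r := by linarith only [hr]
  -- lower bound of the terms
  have hb : ∀ m : ℕ, -(exp (-(0.26 / δ)) * exp (-(0.1 * m))) ≤ yy r δ η m := by
    intro m
    by_cases hm : η + m * δ ≤ π / 2
    · have : 0 ≤ yy r δ η m := yy_nonneg hr0 (cos_nonneg_of_mem_Icc ⟨by nlinarith only [hδ, h1], hm⟩)
      have : 0 ≤ exp (-(0.26 / δ)) * exp (-(0.1 * m)) := by positivity
      linarith
    · rw [not_le] at hm
      have h3 := abs_yy_le hr0 δ η 1 m
      have h4 : -(1 * (2 * (m : ℝ) + 1)) + 2 * r * |cos (η + m * δ)| * exp 1 ≤ -(0.26 / δ) + -(0.1 * m) := by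
        have h5 : 2 * r * |cos (η + m * δ)| * exp 1 ≤ 2 * r * 1 * 2.7183 := by
          have := Real.exp_one_lt_d9
          gcongr
          · exact abs_cos_le_one _
          · linarith only [this]
        have h6 : π / 2 ≤ m * δ := by linarith only [h2, hm]
        have h7 : π * r ≤ m := by
          have : π * (r * δ) ≤ m * δ := by nlinarith only [hρ, hπ, h6]
          have h8 : (π * r) * δ ≤ m * δ := by linarith only [this]
          exact le_of_mul_le_mul_right h8 hδ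
        have h8 : 0.26 / δ ≤ 0.169 * m := by
          rw [div_le_iff₀ hδ]
          linarith only [hπ, h6]
        have h9 : 3.141592 * r ≤ m := by nlinarith only [hπ, h7]
        linarith only [h5, h8, h9]
      have h10 := (exp_le_exp.2 h4)
      rw [exp_add (-(0.26 / δ))] at h10
      have := neg_abs_le (yy r δ η m)
      linarith only [h3, h10, this]
  have h3 := S_ge hr0 (exp_pos _).le (by norm_num : (0 : ℝ) < 0.1) hb 1
  -- the main term
  have h4 : (79.2 * δ) ^ (3 : ℕ) / 6 ≤ yy r δ η 1 := by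
    unfold yy
    have e1 : ((2 * 1 + 1 : ℕ).factorial : ℝ) = 6 := by norm_num [Nat.factorial]
    rw [e1]
    have e2 : 79.2 * δ ≤ 2 * r * cos (η + ((1 : ℕ) : ℝ) * δ) := by
      have h5 : sin δ ≤ cos (η + ((1 : ℕ) : ℝ) * δ) := by
        apply sin_le_cos _ (by linarith only [hδ, hπ])
        rw [abs_le]
        constructor <;> push_cast <;> linarith
      have h6 := Real.sin_gt_sub_cube hδ
      have h7 : 0.99 * δ ≤ sin δ := by nlinarith only [hr, hδ, hρ, h6, mul_pos hδ hδ]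
      have h8 : 0.99 * δ ≤ cos (η + ((1 : ℕ) : ℝ) * δ) := h7.trans h5
      nlinarith only [hr, hδ, h8]
    have e3 : 0 ≤ 79.2 * δ := by positivity
    exact div_le_div_of_nonneg_right (pow_le_pow_left₀ e3 e2 3) (by norm_num)
  have h5 : exp (-(0.26 / δ)) ≤ 342 * δ ^ (3 : ℕ) := by
    have := exp_neg_le (x := 0.26 / δ) (by positivity)
    refine this.trans ?_
    rw [div_pow, div_div_eq_mul_div, div_le_iff₀ (by norm_num)]
    have : 0 < δ ^ (3 : ℕ) := by positivity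
    linarith only [this]
  have h6 : 0 < δ ^ (3 : ℕ) := by positivity
  have h7 : (79.2 * δ) ^ (3 : ℕ) / 6 = (79.2 ^ (3 : ℕ) / 6) * δ ^ (3 : ℕ) := by ring
  rw [h7] at h4
  have h8 : exp (-(0.26 / δ)) * ((1 + 0.1) / 0.1) ≤ 342 * δ ^ (3 : ℕ) * ((1 + 0.1) / 0.1) := by gcongr
  norm_num at h4 h8 h3
  linarith only [h6, h4, h8, h3]

/-! ### The tail for `ρ ≤ 1.4` -/

theorem hmax {θ : ℝ} (h : π / 2 ≤ θ) : 2.1171 * |cos θ| - 0.52857 * θ ≤ 0.5303 := by
  have hπ := Real.pi_gt_d6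
  have hπ2 := Real.pi_lt_d6
  by_cases h1 : θ ≤ π - 1
  · have h2 : |cos θ| ≤ 5 / 9 := by
      rw [← abs_neg, ← cos_pi_sub, abs_of_nonneg (cos_nonneg_of_mem_Icc ⟨by linarith only [hπ, h1], by linarith only [h]⟩)]
      exact (cos_le_cos_of_nonneg_of_le_pi (by norm_num) (by linarith only [h, hπ]) (by linarith only [h1])).trans Real.cos_one_le
    linarith only [h, hπ, h2]
  · rw [not_le] at h1
    by_cases h2 : π + 1 ≤ θ
    · have := abs_cos_le_one θ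
      linarith only [hπ, h2, this]
    · rw [not_le] at h2
      obtain ⟨y, hy⟩ : ∃ y, y = π - θ := ⟨_, rfl⟩
      have hy1 : |y| ≤ 1 := by rw [abs_le]; constructor <;> linarith
      have h3 : |cos θ| ≤ 1 - 0.4479 * y ^ (2 : ℕ) := by
        rw [← abs_neg, ← cos_pi_sub, ← hy]
        have h4 := Real.cos_bound hy1
        have h5 : |y| ^ (4 : ℕ) ≤ y ^ (2 : ℕ) := by
          have : |y| ^ (4 : ℕ) = |y| ^ (2 : ℕ) * |y| ^ (2 : ℕ) := by ring
          rw [this, sq_abs]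
          have h6 : y ^ (2 : ℕ) ≤ 1 := by rw [← sq_abs]; nlinarith only [hy1, abs_nonneg y]
          nlinarith only [h6]
        have h7 : 0 ≤ cos y := cos_nonneg_of_mem_Icc (by
          rw [abs_le] at hy1
          constructor <;> linarith)
        rw [abs_of_nonneg h7]
        have := (abs_le.1 h4).2
        nlinarith only [h5, this]
      have h8 : θ = π - y := by linarith only [hy]
      rw [h8] at h3 ⊢
      nlinarith only [hπ, h3, sq_nonneg (y - 0.2787)]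

theorem exp_34 : exp 0.75 ≤ 2.1171 := by
  have h := Real.exp_bound' (x := 0.75) (by norm_num) (by norm_num) (n := 8) (by norm_num)
  refine h.trans ?_
  norm_num [Finset.sum_range_succ, Nat.factorial]

theorem tail1 {r δ η β : ℝ} {m : ℕ} (hr : 0 < r) (hδ : 0 < δ) (hρ : r * δ ≤ 1.4)
    (hη : η ≤ -(β * (r * δ))) (hθ : π / 2 ≤ η + m * δ) :
    |yy r δ η m| ≤ exp ((1.0606 - 1.48 * β) * r) * exp (-(0.02 * m)) := by
  have hπ := Real.pi_gt_d6
  refine (abs_yy_le hr.le δ η 0.75 m).trans ?_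
  rw [← exp_add]
  apply exp_le_exp.2
  set θ : ℝ := η + m * δ with hθd
  have h1 := hmax hθ
  have h2 : 2 * r * |cos θ| * exp 0.75 ≤ 2 * r * |cos θ| * 2.1171 :=
    mul_le_mul_of_nonneg_left exp_34 (by positivity)
  have h3 : r * (2.1171 * |cos θ| - 0.52857 * θ) ≤ r * 0.5303 := mul_le_mul_of_nonneg_left h1 hr.le
  have h4 : θ ≤ (m - β * r) * δ := by linarith only [hη]
  have h5 : 0 < (m : ℝ) - β * r := by
    by_contra h6
    rw [not_lt] at h6
    have := mul_nonpos_of_nonpos_of_nonneg h6 hδ.le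
    linarith only [hπ, hθ, h4, this]
  have h6 : r * θ ≤ 1.4 * (m - β * r) := by
    calc r * θ ≤ r * ((m - β * r) * δ) := mul_le_mul_of_nonneg_left h4 hr.le
      _ = (r * δ) * (m - β * r) := by ring
      _ ≤ 1.4 * (m - β * r) := mul_le_mul_of_nonneg_right hρ h5.le
  have h7 : 0 < r * θ := mul_pos hr (by linarith only [hπ, hθ])
  linarith only [h2, h3, h5, h6]

end SokamFU.N2

end

/-! ### Lib_MP_af4de1_fu.N2K -/

section
/-!
# `N = 2`, `ρ ≤ 3.2`: factorial weights and the block of small angles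
-/

set_option autoImplicit false

namespace SokamFU.N2

open Filter Topology Set Real

/-- `(2r)^(2m)/(2m)!` -/
noncomputable def V (r : ℝ) (m : ℕ) : ℝ := (2 * r) ^ (2 * m) / ((2 * m).factorial : ℝ)

theorem V_pos {r : ℝ} (hr : 0 < r) (m : ℕ) : 0 < V r m := by unfold V; positivity

theorem uu_eq (r δ η : ℝ) (m : ℕ) : uu r δ η m = V r m * |cos (η + m * δ)| ^ (2 * m) := by
  unfold uu V
  rw [mul_pow, Even.pow_abs ⟨m, by ring⟩]
  ring

theorem fact_pair (k : ℕ) : ∀ N : ℕ, (2 * N).factorial * (4 * N * (N + k)) ^ k ≤ (2 * N + 2 * k).factorial := by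
  induction k using Nat.twoStepInduction with
  | zero => intro N; simp
  | one =>
    intro N
    have e : (2 * N + 2 * 1).factorial = (2 * N + 2) * ((2 * N + 1) * (2 * N).factorial) := by
      rw [show 2 * N + 2 * 1 = (2 * N + 1) + 1 by ring, Nat.factorial_succ, Nat.factorial_succ]
    rw [e, pow_one]
    have h : 4 * N * (N + 1) ≤ (2 * N + 2) * (2 * N + 1) := by linarith only []
    calc (2 * N).factorial * (4 * N * (N + 1)) ≤ (2 * N).factorial * ((2 * N + 2) * (2 * N + 1)) :=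
          Nat.mul_le_mul_left _ h
      _ = _ := by ring
  | more k ih _ =>
    intro N
    have ih' := ih (N + 1)
    have e1 : (2 * (N + 1)).factorial = (2 * N + 2) * ((2 * N + 1) * (2 * N).factorial) := by
      rw [show 2 * (N + 1) = (2 * N + 1) + 1 by ring, Nat.factorial_succ, Nat.factorial_succ]
    have e2 : (2 * N + 2 * (k + 2)).factorial =
        (2 * N + 2 * k + 4) * ((2 * N + 2 * k + 3) * (2 * (N + 1) + 2 * k).factorial) := by
      rw [show 2 * N + 2 * (k + 2) = (2 * (N + 1) + 2 * k + 1) + 1 by ring, Nat.factorial_succ, Nat.factorial_succ]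
      ring
    rw [e2]
    rw [e1] at ih'
    have h1 : 4 * N * (N + (k + 2)) ≤ 4 * (N + 1) * (N + 1 + k) := by linarith only []
    have h2 : (4 * N * (N + (k + 2))) * (4 * N * (N + (k + 2))) ≤
        ((2 * N + 2 * k + 4) * (2 * N + 2 * k + 3)) * ((2 * N + 2) * (2 * N + 1)) := by
      have a1 : 4 * N * (N + (k + 2)) ≤ (2 * N + 2 * k + 4) * (2 * N + 2) := by linarith only []
      have a2 : 4 * N * (N + (k + 2)) ≤ (2 * N + 2 * k + 3) * (2 * N + 1) := by linarith only []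
      calc _ ≤ ((2 * N + 2 * k + 4) * (2 * N + 2)) * ((2 * N + 2 * k + 3) * (2 * N + 1)) := Nat.mul_le_mul a1 a2
        _ = _ := by ring
    calc (2 * N).factorial * (4 * N * (N + (k + 2))) ^ (k + 2)
        = ((4 * N * (N + (k + 2))) * (4 * N * (N + (k + 2)))) * ((2 * N).factorial * (4 * N * (N + (k + 2))) ^ k) := by
          ring
      _ ≤ (((2 * N + 2 * k + 4) * (2 * N + 2 * k + 3)) * ((2 * N + 2) * (2 * N + 1))) *
          ((2 * N).factorial * (4 * (N + 1) * (N + 1 + k)) ^ k) := by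
          gcongr
      _ = ((2 * N + 2 * k + 4) * (2 * N + 2 * k + 3)) *
          ((2 * N + 2) * ((2 * N + 1) * (2 * N).factorial) * (4 * (N + 1) * (N + 1 + k)) ^ k) := by ring
      _ ≤ ((2 * N + 2 * k + 4) * (2 * N + 2 * k + 3)) * (2 * (N + 1) + 2 * k).factorial :=
          Nat.mul_le_mul_left _ ih'
      _ = _ := by ring

theorem V_pair {r : ℝ} (hr : 0 < r) {N k : ℕ} (hN : 1 ≤ N) :
    V r (N + k) ≤ V r N * (r ^ (2 : ℕ) / ((N : ℝ) * (N + k))) ^ k := by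
  have h : ((2 * N).factorial : ℝ) * (4 * (N : ℝ) * (N + k)) ^ k ≤ ((2 * N + 2 * k).factorial : ℝ) := by
    exact_mod_cast fact_pair k N
  have hN0 : (0 : ℝ) < N := by exact_mod_cast hN
  unfold V
  rw [show 2 * (N + k) = 2 * N + 2 * k by ring]
  calc (2 * r) ^ (2 * N + 2 * k) / ((2 * N + 2 * k).factorial : ℝ)
      ≤ (2 * r) ^ (2 * N + 2 * k) / (((2 * N).factorial : ℝ) * (4 * (N : ℝ) * (N + k)) ^ k) := by gcongr
    _ = (2 * r) ^ (2 * N) / ((2 * N).factorial : ℝ) * (r ^ (2 : ℕ) / ((N : ℝ) * (N + k))) ^ k := by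
        rw [pow_add, pow_mul (2 * r) 2 k, div_pow (r ^ (2 : ℕ)), mul_pow 2 r 2]
        rw [show (4 : ℝ) * N * (N + k) = 4 * (N * (N + k)) by ring, mul_pow 4 ((N : ℝ) * (N + k)) k,
          mul_pow (2 ^ (2 : ℕ) : ℝ) (r ^ (2 : ℕ)) k]
        have : ((2 : ℝ) ^ (2 : ℕ)) ^ k = 4 ^ k := by norm_num
        rw [this]
        field_simp

/-! ### The block of small angles -/

theorem V_down {r q : ℝ} (hr : 0 < r) {p j : ℕ} (hj : j ≤ p) (hq : (p : ℝ) ≤ q * r) :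
    V r (p - j) ≤ V r p * q ^ (2 * j) := by
  obtain ⟨i, rfl⟩ : ∃ i, p = i + j := ⟨p - j, by omega⟩
  rw [Nat.add_sub_cancel]
  have h1 : (2 * (i + j)).factorial ≤ (2 * i).factorial * (2 * (i + j)) ^ (2 * j) := by
    have h2 := Nat.factorial_mul_descFactorial (n := 2 * (i + j)) (k := 2 * j) (by omega)
    rw [show 2 * (i + j) - 2 * j = 2 * i by omega] at h2
    rw [← h2]
    exact Nat.mul_le_mul_left _ (Nat.descFactorial_le_pow _ _)
  have h3 : ((2 * (i + j)).factorial : ℝ) ≤ ((2 * i).factorial : ℝ) * (2 * ((i + j : ℕ) : ℝ)) ^ (2 * j) := by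
    exact_mod_cast h1
  have h4 : ((2 * (i + j)).factorial : ℝ) ≤ ((2 * i).factorial : ℝ) * (2 * (q * r)) ^ (2 * j) := by
    refine h3.trans ?_
    gcongr
  unfold V
  rw [div_mul_eq_mul_div, div_le_div_iff₀ (by positivity) (by (clear * -; positivity))]
  calc (2 * r) ^ (2 * i) * ((2 * (i + j)).factorial : ℝ)
      ≤ (2 * r) ^ (2 * i) * (((2 * i).factorial : ℝ) * (2 * (q * r)) ^ (2 * j)) := by gcongr
    _ = (2 * r) ^ (2 * (i + j)) * q ^ (2 * j) * ((2 * i).factorial : ℝ) := by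
        rw [show 2 * (i + j) = 2 * i + 2 * j by ring, pow_add, show 2 * (q * r) = (2 * r) * q by ring, mul_pow (2 * r) q]
        ring

theorem V_up2 {r : ℝ} (hr : 49 ≤ r) {p : ℕ} (hp : (p : ℝ) ≤ 0.72 * r) : 3.2 * V r p ≤ V r (p + 2) := by
  have h0 : (0 : ℝ) ≤ p := by positivity
  have hr0 : 0 < r := by linarith only [hr]
  have e : ((2 * (p + 2)).factorial : ℝ) = (2 * p + 4) * (2 * p + 3) * (2 * p + 2) * (2 * p + 1) * ((2 * p).factorial : ℝ) := by
    rw [show 2 * (p + 2) = 2 * p + 1 + 1 + 1 + 1 by ring]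
    simp only [Nat.factorial_succ]
    push_cast
    ring
  have hf : (0 : ℝ) < ((2 * p).factorial : ℝ) := by (clear * -; positivity)
  unfold V
  rw [e, ← mul_div_assoc, div_le_div_iff₀ hf (by (clear * -; positivity))]
  have h1 : (2 * p + 4) * (2 * p + 3) * (2 * p + 2) * (2 * p + 1) * 3.2 ≤ (2 * r) ^ (4 : ℕ) := by
    have a1 : (2 * p + 4 : ℝ) ≤ 1.5217 * r := by linarith only [hr, hp]
    have a2 : (2 * p + 3 : ℝ) ≤ 1.5013 * r := by linarith only [hr, hp]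
    have a3 : (2 * p + 2 : ℝ) ≤ 1.4809 * r := by linarith only [hr, hp]
    have a4 : (2 * p + 1 : ℝ) ≤ 1.4605 * r := by linarith only [hr, hp]
    calc (2 * p + 4) * (2 * p + 3) * (2 * p + 2) * (2 * p + 1) * 3.2
        ≤ (1.5217 * r) * (1.5013 * r) * (1.4809 * r) * (1.4605 * r) * 3.2 := by gcongr
      _ = (1.5217 * 1.5013 * 1.4809 * 1.4605 * 3.2) * r ^ (4 : ℕ) := by ring
      _ ≤ 16 * r ^ (4 : ℕ) := by gcongr; norm_num
      _ = (2 * r) ^ (4 : ℕ) := by ring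
  have h2 : (2 * r) ^ (2 * (p + 2)) = (2 * r) ^ (2 * p) * (2 * r) ^ (4 : ℕ) := by rw [← pow_add]; ring_nf
  rw [h2]
  have h3 : 0 < (2 * r) ^ (2 * p) * ((2 * p).factorial : ℝ) := by (clear * - hr; positivity)
  calc 3.2 * (2 * r) ^ (2 * p) * ((2 * p + 4) * (2 * p + 3) * (2 * p + 2) * (2 * p + 1) * ((2 * p).factorial : ℝ))
      = ((2 * r) ^ (2 * p) * ((2 * p).factorial : ℝ)) * ((2 * p + 4) * (2 * p + 3) * (2 * p + 2) * (2 * p + 1) * 3.2) := by ring
    _ ≤ ((2 * r) ^ (2 * p) * ((2 * p).factorial : ℝ)) * (2 * r) ^ (4 : ℕ) := by gcongr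
    _ = _ := by ring

theorem V_up3 {r : ℝ} (hr : 49 ≤ r) {p : ℕ} (hp : (p : ℝ) ≤ 0.72 * r) : 5.3 * V r p ≤ V r (p + 3) := by
  have h0 : (0 : ℝ) ≤ p := by positivity
  have hr0 : 0 < r := by linarith only [hr]
  have e : ((2 * (p + 3)).factorial : ℝ) = (2 * p + 6) * (2 * p + 5) * ((2 * p + 4) * (2 * p + 3)) *
      ((2 * p + 2) * (2 * p + 1)) * ((2 * p).factorial : ℝ) := by
    rw [show 2 * (p + 3) = 2 * p + 1 + 1 + 1 + 1 + 1 + 1 by ring]
    simp only [Nat.factorial_succ]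
    push_cast
    ring
  have hf : (0 : ℝ) < ((2 * p).factorial : ℝ) := by (clear * -; positivity)
  unfold V
  rw [e, ← mul_div_assoc, div_le_div_iff₀ hf (by (clear * -; positivity))]
  have h1 : (2 * p + 6) * (2 * p + 5) * ((2 * p + 4) * (2 * p + 3)) * ((2 * p + 2) * (2 * p + 1)) * 5.3 ≤ (2 * r) ^ (6 : ℕ) := by
    have a1 : (2 * p + 6 : ℝ) ≤ 1.5625 * r := by linarith only [hr, hp]
    have a2 : (2 * p + 5 : ℝ) ≤ 1.5421 * r := by linarith only [hr, hp]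
    have a3 : (2 * p + 4 : ℝ) ≤ 1.5217 * r := by linarith only [hr, hp]
    have a4 : (2 * p + 3 : ℝ) ≤ 1.5013 * r := by linarith only [hr, hp]
    have a5 : (2 * p + 2 : ℝ) ≤ 1.4809 * r := by linarith only [hr, hp]
    have a6 : (2 * p + 1 : ℝ) ≤ 1.4605 * r := by linarith only [hr, hp]
    calc (2 * p + 6) * (2 * p + 5) * ((2 * p + 4) * (2 * p + 3)) * ((2 * p + 2) * (2 * p + 1)) * 5.3
        ≤ (1.5625 * r) * (1.5421 * r) * ((1.5217 * r) * (1.5013 * r)) * ((1.4809 * r) * (1.4605 * r)) * 5.3 := by gcongr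
      _ = (1.5625 * 1.5421 * 1.5217 * 1.5013 * 1.4809 * 1.4605 * 5.3) * r ^ (6 : ℕ) := by ring
      _ ≤ 64 * r ^ (6 : ℕ) := by gcongr; norm_num
      _ = (2 * r) ^ (6 : ℕ) := by ring
  have h2 : (2 * r) ^ (2 * (p + 3)) = (2 * r) ^ (2 * p) * (2 * r) ^ (6 : ℕ) := by rw [← pow_add]; ring_nf
  rw [h2]
  calc 5.3 * (2 * r) ^ (2 * p) * ((2 * p + 6) * (2 * p + 5) * ((2 * p + 4) * (2 * p + 3)) *
        ((2 * p + 2) * (2 * p + 1)) * ((2 * p).factorial : ℝ))
      = ((2 * r) ^ (2 * p) * ((2 * p).factorial : ℝ)) *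
        ((2 * p + 6) * (2 * p + 5) * ((2 * p + 4) * (2 * p + 3)) * ((2 * p + 2) * (2 * p + 1)) * 5.3) := by ring
    _ ≤ ((2 * r) ^ (2 * p) * ((2 * p).factorial : ℝ)) * (2 * r) ^ (6 : ℕ) := by gcongr
    _ = _ := by ring

end SokamFU.N2

end

/-! ### Lib_MP_af4de1_fu.N2M -/

section
/-!
# `N = 2`, `ρ ∈ [1.4, 3.2]`: the block of angles near `π`
-/

set_option autoImplicit false

namespace SokamFU.N2

open Filter Topology Set Real

theorem exp_quad {x : ℝ} (h0 : 0 ≤ x) (h1 : x ≤ 1) : exp x ≤ 1 + x + 0.75 * x ^ (2 : ℕ) := by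
  have h := Real.exp_bound' h0 h1 (n := 2) (by norm_num)
  refine h.trans (le_of_eq ?_)
  norm_num [Finset.sum_range_succ, Nat.factorial]
  ring

theorem exp_3735 : exp 0.3735 ≤ 1.4529 := by
  have h := Real.exp_bound' (x := 0.3735) (by norm_num) (by norm_num) (n := 6) (by norm_num)
  refine h.trans ?_
  norm_num [Finset.sum_range_succ, Nat.factorial]

theorem cos_ratio {D D' : ℝ} (h0 : 0 ≤ D) (h1 : D ≤ D') (h2 : D' ≤ 0.5654) :
    cos D ≤ cos D' * exp ((D' ^ (2 : ℕ) - D ^ (2 : ℕ)) / 1.68) := by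
  have hπ := Real.pi_gt_d6
  have h3 : cos D - cos D' ≤ (D' ^ (2 : ℕ) - D ^ (2 : ℕ)) / 2 := by
    have e1 : cos D - cos D' = 2 * sin ((D' + D) / 2) * sin ((D' - D) / 2) := by
      rw [cos_sub_cos]
      have : sin ((D' - D) / 2) = -sin ((D - D') / 2) := by rw [← sin_neg]; ring_nf
      rw [this, add_comm D' D]; ring
    have e2 : sin ((D' + D) / 2) ≤ (D' + D) / 2 := sin_le (by linarith only [h0, h1])
    have e3 : sin ((D' - D) / 2) ≤ (D' - D) / 2 := sin_le (by linarith only [h1])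
    have e4 : 0 ≤ sin ((D' - D) / 2) := sin_nonneg_of_nonneg_of_le_pi (by linarith only [h1]) (by linarith only [h0, h2, hπ])
    have e5 : 0 ≤ sin ((D' + D) / 2) := sin_nonneg_of_nonneg_of_le_pi (by linarith only [h0, h1]) (by linarith only [h1, h2, hπ])
    rw [e1]
    calc 2 * sin ((D' + D) / 2) * sin ((D' - D) / 2) ≤ 2 * ((D' + D) / 2) * ((D' - D) / 2) := by
          gcongr
          linarith only [e2, e5]
      _ = _ := by ring
  have h4 : 0.84 ≤ cos D' := by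
    have := Real.one_sub_sq_div_two_le_cos (x := D')
    nlinarith only [h0, h1, h2, this]
  have h5 := add_one_le_exp ((D' ^ (2 : ℕ) - D ^ (2 : ℕ)) / 1.68)
  have h6 : 0 ≤ D' ^ (2 : ℕ) - D ^ (2 : ℕ) := by nlinarith only [h0, h1]
  calc cos D ≤ cos D' + (D' ^ (2 : ℕ) - D ^ (2 : ℕ)) / 2 := by linarith only [h3]
    _ ≤ cos D' * ((D' ^ (2 : ℕ) - D ^ (2 : ℕ)) / 1.68 + 1) := by
      have h7 := mul_le_mul_of_nonneg_right h4 (div_nonneg h6 (by norm_num : (0 : ℝ) ≤ 1.68))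
      have h8 : 0.84 * ((D' ^ (2 : ℕ) - D ^ (2 : ℕ)) / 1.68) = (D' ^ (2 : ℕ) - D ^ (2 : ℕ)) / 2 := by ring
      linarith only [h7, h8]
    _ ≤ _ := by
      apply mul_le_mul_of_nonneg_left h5 (by linarith only [h4])

/-- the rate of the pairing -/
theorem rate {r δ Λ : ℝ} (hr : 49 ≤ r) (hρ1 : 1.4 ≤ r * δ) (hρ2 : r * δ ≤ 3.2)
    (hΛ1 : 1.3 * (r * δ) ≤ Λ) (hΛ2 : Λ ≤ π + 0.72 * (r * δ)) :
    (r * δ) ^ (2 : ℕ) * exp (Λ * δ / 0.84 + 0.05) ≤ (Λ - δ / 2) ^ (2 : ℕ) - 0.2838 := by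
  have hπ := Real.pi_lt_d6
  have hr0 : 0 < r := by linarith only [hr]
  obtain ⟨ρ, hρ⟩ : ∃ ρ, ρ = r * δ := ⟨_, rfl⟩
  rw [← hρ] at hρ1 hρ2 hΛ1 hΛ2 ⊢
  have hρ0 : 0 < ρ := by linarith only [hρ1]
  have hδ : δ ≤ ρ * (1 / 49) := by
    have : δ = ρ / r := by rw [hρ]; field_simp
    rw [this, div_eq_mul_one_div]
    apply mul_le_mul_of_nonneg_left _ hρ0.le
    exact one_div_le_one_div_of_le (by norm_num) hr
  have hδ0 : 0 < δ := by
    by_contra h
    rw [not_lt] at h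
    have := mul_nonpos_of_nonneg_of_nonpos hr0.le h
    linarith only [hρ1, hρ, this]
  obtain ⟨x, hx⟩ : ∃ x, Λ = ρ * (1.3 + x) := ⟨Λ / ρ - 1.3, by field_simp; ring⟩
  have hx0 : 0 ≤ x := by
    rw [hx] at hΛ1
    have : ρ * 1.3 ≤ ρ * (1.3 + x) := by linarith only [hΛ1]
    linarith only [le_of_mul_le_mul_left this hρ0]
  have hx1 : x ≤ 1.665 := by
    rw [hx] at hΛ2
    by_contra h
    rw [not_le] at h
    nlinarith only [hπ, hρ1, hΛ2, h]
  have h1 : Λ * δ / 0.84 + 0.05 ≤ 0.3735 + 0.2489 * x := by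
    have : Λ * δ ≤ (1.3 + x) * 0.209 := by
      calc Λ * δ ≤ (ρ * (1.3 + x)) * (ρ * (1 / 49)) := by rw [hx]; gcongr
        _ = (1.3 + x) * (ρ ^ (2 : ℕ) / 49) := by ring
        _ ≤ (1.3 + x) * (3.2 ^ (2 : ℕ) / 49) := by gcongr
        _ ≤ (1.3 + x) * 0.209 := by gcongr; norm_num
    have h4 : Λ * δ / 0.84 ≤ (1.3 + x) * 0.209 / 0.84 := by gcongr
    have h5 : (1.3 + x) * 0.209 / 0.84 ≤ 0.32346 + 0.24885 * x := by
      rw [div_le_iff₀ (by norm_num)]
      linarith only [hx0]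
    linarith only [hx0, h4, h5]
  have h2 : exp (Λ * δ / 0.84 + 0.05) ≤ 1.4529 * (1 + 0.2489 * x * 1.3109) := by
    calc exp (Λ * δ / 0.84 + 0.05) ≤ exp (0.3735 + 0.2489 * x) := exp_le_exp.2 h1
      _ = exp 0.3735 * exp (0.2489 * x) := exp_add _ _
      _ ≤ 1.4529 * (1 + 0.2489 * x + 0.75 * (0.2489 * x) ^ (2 : ℕ)) := by
          gcongr
          · exact exp_3735
          · exact exp_quad (by positivity) (by linarith only [hx1])
      _ ≤ 1.4529 * (1 + 0.2489 * x * 1.3109) := by nlinarith only [hx0, hx1]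
  have h3 : (ρ * (1.2897 + x)) ^ (2 : ℕ) ≤ (Λ - δ / 2) ^ (2 : ℕ) := by
    apply pow_le_pow_left₀ (by positivity)
    rw [hx]
    linarith only [hρ0, hδ]
  calc ρ ^ (2 : ℕ) * exp (Λ * δ / 0.84 + 0.05) ≤ ρ ^ (2 : ℕ) * (1.4529 * (1 + 0.2489 * x * 1.3109)) := by gcongr
    _ ≤ ρ ^ (2 : ℕ) * ((1.2897 + x) ^ (2 : ℕ)) - 0.2838 := by
        have e1 : (1.4529 * (1 + 0.2489 * x * 1.3109)) + 0.145 ≤ (1.2897 + x) ^ (2 : ℕ) := by nlinarith only [hx0]
        nlinarith only [hρ1, mul_le_mul_of_nonneg_left e1 (sq_nonneg ρ)]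
    _ = (ρ * (1.2897 + x)) ^ (2 : ℕ) - 0.2838 := by ring
    _ ≤ _ := by linarith only [h3]

/-- the pairing -/
theorem pairB {r δ Λ : ℝ} {N k : ℕ} (hr : 49 ≤ r) (hδ : 0 < δ) (hρ1 : 1.4 ≤ r * δ) (hρ2 : r * δ ≤ 3.2)
    (hΛ1 : 1.3 * (r * δ) ≤ Λ) (hΛ2 : Λ ≤ π + 0.72 * (r * δ)) (hN : 1 ≤ N) (hk : 1 ≤ k)
    (h0 : 0 ≤ (N + k) * δ - Λ) (h1 : (N + k) * δ - Λ ≤ Λ - N * δ) (h2 : Λ - N * δ ≤ (N + k) * δ - Λ + δ)
    (h3 : (N + k) * δ - Λ ≤ 0.5) :
    |sin (π - Λ + ((N + k : ℕ) : ℝ) * δ) * uu r δ (π - Λ) (N + k)| ≤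
      exp (-0.05) * (sin (π - Λ + (N : ℝ) * δ) * uu r δ (π - Λ) N) := by
  have hπ := Real.pi_gt_d6
  have hr0 : 0 < r := by linarith only [hr]
  have hδ2 : δ ≤ 0.0654 := by nlinarith only [hr, hρ2]
  obtain ⟨D, hD⟩ : ∃ D, D = (N + k) * δ - Λ := ⟨_, rfl⟩
  obtain ⟨D', hD'⟩ : ∃ D', D' = Λ - N * δ := ⟨_, rfl⟩
  rw [← hD] at h0 h1 h2 h3
  rw [← hD'] at h1 h2
  have hk0 : (0 : ℝ) < k := by exact_mod_cast hk
  have hN0 : (0 : ℝ) < N := by exact_mod_cast hN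
  have e1 : π - Λ + ((N + k : ℕ) : ℝ) * δ = D + π := by push_cast; linarith only [hD]
  have e2 : π - Λ + (N : ℝ) * δ = π - D' := by linarith only [hD']
  rw [uu_eq, uu_eq, e1, e2, sin_add_pi, cos_add_pi, sin_pi_sub, cos_pi_sub, abs_neg, abs_neg]
  have hcD : 0 ≤ cos D := cos_nonneg_of_mem_Icc ⟨by linarith only [hπ, h0], by linarith only [hπ, h3]⟩
  have hcD' : 0 < cos D' := cos_pos_of_mem_Ioo ⟨by linarith only [hπ, h0, h1], by linarith only [hπ, hδ2, h3, h2]⟩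
  have hsD : 0 ≤ sin D := sin_nonneg_of_nonneg_of_le_pi h0 (by linarith only [hπ, h3])
  have hsD' : 0 ≤ sin D' := sin_nonneg_of_nonneg_of_le_pi (by linarith only [h0, h1]) (by linarith only [hπ, hδ2, h3, h2])
  have hss : sin D ≤ sin D' := sin_le_sin_of_le_of_le_pi_div_two (by linarith only [hπ, h0]) (by linarith only [hπ, hδ2, h3, h2]) h1
  have hV := V_pos hr0 (N + k)
  have hVN := V_pos hr0 N
  rw [abs_of_nonneg hcD, abs_of_nonneg hcD'.le, abs_mul, abs_neg, abs_of_nonneg hsD,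
    abs_of_nonneg (by positivity : 0 ≤ V r (N + k) * cos D ^ (2 * (N + k)))]
  -- the weights
  have hkδ : k * δ = D + D' := by linarith only [hD, e2]
  have e3 : V r (N + k) * cos D ^ (2 * (N + k)) ≤ exp (-0.05) * (V r N * cos D' ^ (2 * N)) := by
    have e4 : cos D ^ (2 * (N + k)) ≤ cos D' ^ (2 * N) * exp (Λ * δ / 0.84) ^ k := by
      calc cos D ^ (2 * (N + k)) = cos D ^ (2 * N) * cos D ^ (2 * k) := by rw [← pow_add]; ring_nf
        _ ≤ cos D ^ (2 * N) * 1 := by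
            gcongr
            exact pow_le_one₀ hcD (cos_le_one _)
        _ ≤ (cos D' * exp ((D' ^ (2 : ℕ) - D ^ (2 : ℕ)) / 1.68)) ^ (2 * N) := by
            rw [mul_one]
            exact pow_le_pow_left₀ hcD (cos_ratio h0 h1 (by linarith only [hδ2, h3, h2])) _
        _ = cos D' ^ (2 * N) * exp ((2 * N : ℕ) * ((D' ^ (2 : ℕ) - D ^ (2 : ℕ)) / 1.68)) := by rw [mul_pow, exp_nat_mul]
        _ ≤ cos D' ^ (2 * N) * exp (k * (Λ * δ / 0.84)) := by
            apply mul_le_mul_of_nonneg_left (exp_le_exp.2 _) (by positivity)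
            have e5 : D' ^ (2 : ℕ) - D ^ (2 : ℕ) = (D' - D) * (k * δ) := by rw [hkδ]; ring
            have e6 : (D' - D) * (k * δ) ≤ δ * (k * δ) := by
              have : 0 ≤ k * δ := by positivity
              apply mul_le_mul_of_nonneg_right (by linarith only [h2]) this
            have e7 : N * δ ≤ Λ := by linarith only [h0, hD, h1, hkδ]
            have e8 : (N * δ) * (k * δ) ≤ Λ * (k * δ) := by
              have : 0 ≤ k * δ := by positivity
              gcongr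
            push_cast
            rw [e5]
            have e9 : (N : ℝ) * ((D' - D) * (k * δ)) ≤ N * (δ * (k * δ)) := by gcongr
            have e10 : 2 * (N : ℝ) * ((D' - D) * (k * δ) / 1.68) = (N * ((D' - D) * (k * δ))) / 0.84 := by ring
            have e11 : (k : ℝ) * (Λ * δ / 0.84) = (Λ * (k * δ)) / 0.84 := by ring
            rw [e10, e11]
            apply div_le_div_of_nonneg_right _ (by norm_num)
            linarith only [e8, e9]
        _ = _ := by rw [exp_nat_mul]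
    have e12 : r ^ (2 : ℕ) / ((N : ℝ) * (N + k)) * exp (Λ * δ / 0.84) ≤ exp (-0.05) := by
      have hrate := rate hr hρ1 hρ2 hΛ1 hΛ2
      have e13 : (Λ - δ / 2) ^ (2 : ℕ) - 0.2838 ≤ ((N : ℝ) * δ) * ((N + k) * δ) := by
        have e14 : (N : ℝ) * δ = Λ - D' := by linarith only [e2]
        have e15 : ((N : ℝ) + k) * δ = Λ + D := by linarith only [hkδ, e14]
        rw [e14, e15]
        have e16 : D + D' ≤ 1.0654 := by linarith only [hδ2, h3, h2]
        have e17 : (Λ - D') * (Λ + D) = (Λ - (D' - D) / 2) ^ (2 : ℕ) - ((D + D') / 2) ^ (2 : ℕ) := by ring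
        rw [e17]
        have e18 : (Λ - δ / 2) ^ (2 : ℕ) ≤ (Λ - (D' - D) / 2) ^ (2 : ℕ) := by
          apply pow_le_pow_left₀ (by nlinarith only [hr, hδ, hΛ1])
          linarith only [h2]
        have e19 : ((D + D') / 2) ^ (2 : ℕ) ≤ 0.2838 := by nlinarith only [hδ2, h3, h0, h2, h1]
        linarith only [e18, e19]
      have hNk : 0 < (N : ℝ) * (N + k) := by positivity
      have e20 : r ^ (2 : ℕ) * exp (Λ * δ / 0.84 + 0.05) ≤ (N : ℝ) * (N + k) := by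
        have : (r ^ (2 : ℕ) * exp (Λ * δ / 0.84 + 0.05)) * δ ^ (2 : ℕ) ≤ ((N : ℝ) * (N + k)) * δ ^ (2 : ℕ) := by linarith only [hrate, e13]
        exact le_of_mul_le_mul_right this (by positivity)
      rw [exp_add] at e20
      rw [div_mul_eq_mul_div, div_le_iff₀ hNk, exp_neg, inv_mul_eq_div, le_div_iff₀ (exp_pos _)]
      linarith only [e20]
    have e21 : exp (-0.05) ^ k ≤ exp (-0.05) := by
      have : exp (-0.05) ^ k ≤ exp (-0.05) ^ (1 : ℕ) := pow_le_pow_of_le_one (exp_pos _).le (by rw [exp_le_one_iff]; norm_num) hk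
      rwa [pow_one] at this
    calc V r (N + k) * cos D ^ (2 * (N + k))
        ≤ (V r N * (r ^ (2 : ℕ) / ((N : ℝ) * (N + k))) ^ k) * (cos D' ^ (2 * N) * exp (Λ * δ / 0.84) ^ k) := by
          apply mul_le_mul (V_pair hr0 hN) e4 (by positivity) (by positivity)
      _ = (V r N * cos D' ^ (2 * N)) * (r ^ (2 : ℕ) / ((N : ℝ) * (N + k)) * exp (Λ * δ / 0.84)) ^ k := by
          rw [mul_pow]; ring
      _ ≤ (V r N * cos D' ^ (2 * N)) * exp (-0.05) ^ k := by gcongr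
      _ ≤ (V r N * cos D' ^ (2 * N)) * exp (-0.05) := by gcongr
      _ = _ := by ring
  calc sin D * (V r (N + k) * cos D ^ (2 * (N + k))) ≤ sin D' * (exp (-0.05) * (V r N * cos D' ^ (2 * N))) := by
        apply mul_le_mul hss e3 (by positivity) hsD'
    _ = _ := by ring

end SokamFU.N2

end
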