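import Pool.Agent.Lib_MP_af4de1_zy.Z78

/-! ### Lib_MP_af4de1_fa.FrE -/

section
/-!
# FAR, stage 1: Gaussian integrals

PLAN.
* `gauss_main`: `A s² + B (f-s)² = (A+B)(s - s0)² + A B f²/(A+B)`, `s0 = B f/(A+B)`, `f - s0 = A f/(A+B)`.
  `Ioc 0 S0 ⊆ Iic s0 ∪ Ioc s0 (s0 + A f/(A+B))` since `S0 ≤ f`.
  `∫_{s ≤ s0} exp(-q(A+B)(s-s0)²) = √(π/(q(A+B)))/2` (`integral_gaussian_Ioi` after the reflection),
  and `∫_{s0}^{f}` is `≤` both `√(..)/2` and the length `A f/(A+B)`.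
* `gauss_half`: `Ioc 0 S0 ⊆ Ioi 0`.
* `lintegral_sym`: `∫⁻ f = ∫⁻_{Ioi 0} f + ∫⁻_{Iic 0} f`, reflection `s ↦ -s`, `Iic 0` vs `Iio 0`.
-/

namespace SokamFA

open Real MeasureTheory Set

/-- the Gaussian bound of a region -/
noncomputable def gI (q A B f : ℝ) : ℝ :=
  (√(π / (q * (A + B))) / 2 + min (√(π / (q * (A + B))) / 2) (A * f / (A + B))) *
    exp (-(q * (A * B * f ^ (2 : ℕ) / (A + B))))

private theorem fre_half {b : ℝ} (hb : 0 < b) :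
    ∫⁻ s in Ioi (0 : ℝ), ENNReal.ofReal (exp (-(b * s ^ (2 : ℕ)))) = ENNReal.ofReal (√(π / b) / 2) := by
  have h1 : (fun s : ℝ => exp (-(b * s ^ (2 : ℕ)))) = fun s : ℝ => exp (-b * s ^ (2 : ℕ)) := by
    funext s
    rw [neg_mul]
  have h2 : Integrable (fun s : ℝ => exp (-(b * s ^ (2 : ℕ)))) (volume.restrict (Ioi 0)) := by
    rw [h1]
    exact (integrable_exp_neg_mul_sq hb).integrableOn
  rw [← ofReal_integral_eq_lintegral_ofReal h2
    (Filter.Eventually.of_forall fun s => (exp_pos _).le), h1, integral_gaussian_Ioi]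

private theorem fre_neg (F : ℝ → ENNReal) (s : Set ℝ) :
    ∫⁻ x in (fun x : ℝ => -x) ⁻¹' s, F (-x) = ∫⁻ x in s, F x :=
  (Measure.measurePreserving_neg (volume : Measure ℝ)).setLIntegral_comp_preimage_emb
    (Homeomorph.neg ℝ).isClosedEmbedding.measurableEmbedding F s

private theorem fre_shift (F : ℝ → ENNReal) (c : ℝ) (s : Set ℝ) :
    ∫⁻ x in (fun x : ℝ => x + c) ⁻¹' s, F (x + c) = ∫⁻ x in s, F x :=
  (measurePreserving_add_right (volume : Measure ℝ) c).setLIntegral_comp_preimage_emb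
    (measurableEmbedding_addRight c) F s

private theorem fre_right {b : ℝ} (hb : 0 < b) (s0 : ℝ) :
    ∫⁻ s in Ioi s0, ENNReal.ofReal (exp (-(b * (s - s0) ^ (2 : ℕ)))) =
      ENNReal.ofReal (√(π / b) / 2) := by
  have h := fre_shift (fun s => ENNReal.ofReal (exp (-(b * (s - s0) ^ (2 : ℕ))))) s0 (Ioi s0)
  have hs : (fun x : ℝ => x + s0) ⁻¹' Ioi s0 = Ioi 0 := by
    ext x
    simp
  rw [← h, hs]
  simp only [add_sub_cancel_right]
  exact fre_half hb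

private theorem fre_left {b : ℝ} (hb : 0 < b) (s0 : ℝ) :
    ∫⁻ s in Iio s0, ENNReal.ofReal (exp (-(b * (s - s0) ^ (2 : ℕ)))) =
      ENNReal.ofReal (√(π / b) / 2) := by
  have h := fre_neg (fun s => ENNReal.ofReal (exp (-(b * (s - s0) ^ (2 : ℕ))))) (Iio s0)
  have hs : (fun x : ℝ => -x) ⁻¹' Iio s0 = Ioi (-s0) := by
    ext x
    constructor
    · intro hx
      have hx' : -x < s0 := hx
      show -s0 < x
      linarith
    · intro hx
      have hx' : -s0 < x := hx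
      show -x < s0
      linarith
  rw [← h, hs, ← fre_right hb (-s0)]
  refine lintegral_congr fun x => ?_
  congr 3
  ring

theorem gauss_main {q A B f S0 : ℝ} (hq : 0 < q) (hA : 0 < A) (hB : 0 < B) (hf : 0 ≤ f)
    (hS : S0 ≤ f) :
    ∫⁻ s in Ioc 0 S0, ENNReal.ofReal (exp (-(q * (A * s ^ (2 : ℕ) + B * (f - s) ^ (2 : ℕ))))) ≤
      ENNReal.ofReal (gI q A B f) := by
  have hAB : 0 < A + B := add_pos hA hB
  have hc : 0 < q * (A + B) := mul_pos hq hAB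
  obtain ⟨s0, hs0⟩ : ∃ s0 : ℝ, s0 = B * f / (A + B) := ⟨_, rfl⟩
  obtain ⟨K, hK⟩ : ∃ K : ℝ, K = exp (-(q * (A * B * f ^ (2 : ℕ) / (A + B)))) := ⟨_, rfl⟩
  have hK0 : 0 ≤ K := by
    rw [hK]
    exact (exp_pos _).le
  have hfs : f - s0 = A * f / (A + B) := by
    rw [hs0]
    field_simp
    ring
  have hpt : ∀ s : ℝ, ENNReal.ofReal (exp (-(q * (A * s ^ (2 : ℕ) + B * (f - s) ^ (2 : ℕ))))) =
      ENNReal.ofReal K * ENNReal.ofReal (exp (-(q * (A + B) * (s - s0) ^ (2 : ℕ)))) := by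
    intro s
    rw [← ENNReal.ofReal_mul hK0, hK, ← exp_add]
    congr 2
    rw [hs0]
    field_simp
    ring
  obtain ⟨Φ, hΦ⟩ : ∃ Φ : ℝ → ENNReal,
      Φ = fun s => ENNReal.ofReal (exp (-(q * (A + B) * (s - s0) ^ (2 : ℕ)))) := ⟨_, rfl⟩
  have hR : ∫⁻ s in Ioc s0 f, Φ s ≤ ENNReal.ofReal (√(π / (q * (A + B))) / 2) := by
    refine (lintegral_mono_set (fun s hs => hs.1 : Ioc s0 f ⊆ Ioi s0)).trans (le_of_eq ?_)
    rw [hΦ]
    exact fre_right hc s0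
  have hR' : ∫⁻ s in Ioc s0 f, Φ s ≤ ENNReal.ofReal (A * f / (A + B)) := by
    calc ∫⁻ s in Ioc s0 f, Φ s ≤ ∫⁻ s in Ioc s0 f, 1 := by
          refine lintegral_mono fun s => ?_
          rw [hΦ]
          show ENNReal.ofReal (exp (-(q * (A + B) * (s - s0) ^ (2 : ℕ)))) ≤ 1
          rw [← ENNReal.ofReal_one]
          refine ENNReal.ofReal_le_ofReal (exp_le_one_iff.mpr ?_)
          have : 0 ≤ q * (A + B) * (s - s0) ^ (2 : ℕ) := by positivity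
          linarith
      _ = ENNReal.ofReal (A * f / (A + B)) := by
          rw [setLIntegral_const, one_mul, Real.volume_Ioc, hfs]
  have hL : ∫⁻ s in Iic s0, Φ s = ENNReal.ofReal (√(π / (q * (A + B))) / 2) := by
    rw [setLIntegral_congr (Iio_ae_eq_Iic (μ := volume) (a := s0)).symm, hΦ]
    exact fre_left hc s0
  have hsub : Ioc 0 S0 ⊆ Iic s0 ∪ Ioc s0 f := by
    intro s hs
    rcases le_or_gt s s0 with h | h
    · exact Or.inl h
    · exact Or.inr ⟨h, hs.2.trans hS⟩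
  calc ∫⁻ s in Ioc 0 S0, ENNReal.ofReal (exp (-(q * (A * s ^ (2 : ℕ) + B * (f - s) ^ (2 : ℕ)))))
      ≤ ∫⁻ s in Iic s0 ∪ Ioc s0 f, ENNReal.ofReal (exp (-(q * (A * s ^ (2 : ℕ) + B * (f - s) ^ (2 : ℕ))))) :=
        lintegral_mono_set hsub
    _ = ∫⁻ s in Iic s0 ∪ Ioc s0 f, ENNReal.ofReal K * Φ s := by
        refine lintegral_congr fun s => ?_
        rw [hpt s, hΦ]
    _ = ENNReal.ofReal K * ∫⁻ s in Iic s0 ∪ Ioc s0 f, Φ s :=
        lintegral_const_mul' _ _ ENNReal.ofReal_ne_top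
    _ ≤ ENNReal.ofReal K * ((∫⁻ s in Iic s0, Φ s) + ∫⁻ s in Ioc s0 f, Φ s) :=
        mul_le_mul_right (lintegral_union_le _ _ _) _
    _ ≤ ENNReal.ofReal K * (ENNReal.ofReal (√(π / (q * (A + B))) / 2) +
          ENNReal.ofReal (min (√(π / (q * (A + B))) / 2) (A * f / (A + B)))) := by
        refine mul_le_mul_right (add_le_add hL.le ?_) _
        rcases le_total (√(π / (q * (A + B))) / 2) (A * f / (A + B)) with h | h
        · rwa [min_eq_left h]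
        · rwa [min_eq_right h]
    _ = ENNReal.ofReal (gI q A B f) := by
        have h1 : 0 ≤ √(π / (q * (A + B))) / 2 := by positivity
        have h2 : 0 ≤ min (√(π / (q * (A + B))) / 2) (A * f / (A + B)) :=
          le_min h1 (by positivity)
        rw [← ENNReal.ofReal_add h1 h2, ← ENNReal.ofReal_mul hK0, hK]
        congr 1
        unfold gI
        ring

theorem gauss_half {q A S0 : ℝ} (hq : 0 < q) (hA : 0 < A) :
    ∫⁻ s in Ioc 0 S0, ENNReal.ofReal (exp (-(q * (A * s ^ (2 : ℕ))))) ≤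
      ENNReal.ofReal (√(π / (q * A)) / 2) := by
  refine (lintegral_mono_set (fun s hs => hs.1 : Ioc 0 S0 ⊆ Ioi (0 : ℝ))).trans (le_of_eq ?_)
  rw [← fre_half (mul_pos hq hA)]
  refine lintegral_congr fun s => ?_
  rw [mul_assoc]

theorem lintegral_sym (F : ℝ → ENNReal) :
    ∫⁻ s, F s = (∫⁻ s in Ioi (0 : ℝ), F s) + ∫⁻ s in Ioi (0 : ℝ), F (-s) := by
  have h1 := lintegral_add_compl (μ := (volume : Measure ℝ)) F (measurableSet_Ioi (a := (0 : ℝ)))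
  have h2 := fre_neg F (Iio 0)
  have hs : (fun x : ℝ => -x) ⁻¹' Iio 0 = Ioi 0 := by
    ext x
    constructor
    · intro hx
      have hx' : -x < 0 := hx
      show 0 < x
      linarith
    · intro hx
      have hx' : 0 < x := hx
      show -x < 0
      linarith
  rw [hs, setLIntegral_congr (Iio_ae_eq_Iic (μ := volume) (a := (0 : ℝ)))] at h2
  rw [h2, ← h1, compl_Ioi]

theorem lintegral_three (F : ℝ → ENNReal) {a b : ℝ} (h0 : 0 ≤ a) (hab : a ≤ b) :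
    ∫⁻ s in Ioi (0 : ℝ), F s = (∫⁻ s in Ioc 0 a, F s) + (∫⁻ s in Ioc a b, F s) +
      ∫⁻ s in Ioi b, F s := by
  have h1 : Ioc 0 a ∪ Ioi a = Ioi (0 : ℝ) := Ioc_union_Ioi_eq_Ioi h0
  have h2 : Ioc a b ∪ Ioi b = Ioi a := Ioc_union_Ioi_eq_Ioi hab
  have d1 : Disjoint (Ioc 0 a) (Ioi a) := Ioc_disjoint_Ioi le_rfl
  have d2 : Disjoint (Ioc a b) (Ioi b) := Ioc_disjoint_Ioi le_rfl
  rw [← h1, lintegral_union measurableSet_Ioi d1, ← h2, lintegral_union measurableSet_Ioi d2,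
    add_assoc]

end SokamFA

end

/-! ### Lib_MP_af4de1_v3.DzZone -/

section
namespace SokamCen
end SokamCen
namespace SokamV3
end SokamV3
/-!
# Fields `d`: the zone over `univ` and the statement at `y = 0`
-/

set_option autoImplicit false

namespace SokamDz

open Real MeasureTheory Set SokamCen SokamV3

section

variable {r ρ θ φ C Cf B l e : ℝ}

theorem rM_nonneg (q ρ φ B : ℝ) : 0 ≤ rM q ρ φ B := by unfold rM; positivity
theorem rT_nonneg (q ρ φ : ℝ) : 0 ≤ rT q ρ φ := by unfold rT; positivity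
theorem rF_nonneg (q ρ φ : ℝ) : 0 ≤ rF q ρ φ := by unfold rF; positivity
theorem rO_nonneg (q ρ φ : ℝ) : 0 ≤ rO q ρ φ := by
  unfold rO
  split_ifs
  · positivity
  · exact le_rfl
theorem lM_nonneg (q ρ φ B l : ℝ) : 0 ≤ lM q ρ φ B l := by unfold lM; positivity
theorem lT_nonneg (q ρ φ : ℝ) : 0 ≤ lT q ρ φ := by unfold lT; positivity
theorem lF_nonneg (q ρ φ e : ℝ) : 0 ≤ lF q ρ φ e := by unfold lF; positivity
theorem lO_nonneg (q ρ φ : ℝ) : 0 ≤ lO q ρ φ := by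
  unfold lO
  split_ifs
  · positivity
  · exact le_rfl

theorem exp_pm_le (m v : ℝ) : exp (pm m v) ≤ 68 / 25 := by
  have h1 : exp (pm m v) ≤ exp 1 := exp_le_exp.2 (abs_le.1 (pm_mem m v)).2
  linarith [Real.exp_one_lt_d9]

/-- right half line -/
theorem hzR (hρ : 0 < ρ) (hr : 499 / 10 ≤ r) (hφ : 0 < φ) (hφ2 : φ < 2 * π) (hB : HR φ B)
    (hC : HC ρ φ C) (hCf : HF ρ φ Cf) (hY : 6 ≤ 8 / 9 * r * (rA ρ φ * φ ^ (2 : ℕ)))
    (hcos : ∀ v, cos (θ + v) = cos (φ - v)) :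
    HZ r (fun v => Dm (mm ρ) ρ θ v) (fun v => Wm (mm ρ) θ 1 v) (fun v => pm (mm ρ) v) (Ioi 0)
      (rM r ρ φ B + rT r ρ φ + (rF r ρ φ + rO r ρ φ))
      (20 / 3 * C * rM (8 / 9 * r) ρ φ B / r + 20 / 3 * (14 / 5) * rT (8 / 9 * r) ρ φ / r +
        (14 * rF r ρ φ + 20 / 3 * Cf * rO (8 / 9 * r) ρ φ / r))
      (68 / 25 * rM r ρ φ B + 68 / 25 * rT r ρ φ + (68 / 25 * rF r ρ φ + 68 / 25 * rO r ρ φ)) := by
  have hr0 : 0 < r := by linarith
  have hq0 : 0 < 8 / 9 * r := by linarith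
  have hC0 : 0 ≤ C := by rcases hC with h | ⟨T, _, _, h, _⟩ <;> linarith
  have hCf0 : 0 ≤ Cf := by rcases hCf with h | ⟨T, _, _, _, h, _⟩ <;> linarith
  have hY' : 6 ≤ r * (rA ρ φ * φ ^ (2 : ℕ)) := by
    have : 0 ≤ rA ρ φ * φ ^ (2 : ℕ) := by have := rA_pos hρ hφ; positivity
    linarith only [hY]
  have hD : ∀ v, 0 ≤ Dm (mm ρ) ρ θ v := fun v => Dm_nonneg hρ (rho_le_mm' hρ) θ v
  have z1 : HZ r (fun v => Dm (mm ρ) ρ θ v) (fun v => Wm (mm ρ) θ 1 v) (fun v => pm (mm ρ) v)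
      (S1 φ) (rM r ρ φ B) (20 / 3 * C * rM (8 / 9 * r) ρ φ B / r) (68 / 25 * rM r ρ φ B) := by
    refine HZ.height hr0 hC0 (mS1 φ) ?_ (fun v _ => exp_pm_le _ v) (by norm_num)
      (jR1 hρ hφ hr0 hB hcos) (jR1 hρ hφ hq0 hB hcos)
    rintro v ⟨⟨h0, h1⟩, _⟩
    rcases hC with h | ⟨T, h2, h3, h4, h5⟩
    · exact (wR' hρ h0).trans (mul_le_mul_of_nonneg_right (by linarith) (hD v))
    · exact wR hρ h0 (h1.trans h2) h3 h4 h5
  have z2 : HZ r (fun v => Dm (mm ρ) ρ θ v) (fun v => Wm (mm ρ) θ 1 v) (fun v => pm (mm ρ) v)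
      (Ioi φ) (rT r ρ φ) (20 / 3 * (14 / 5) * rT (8 / 9 * r) ρ φ / r) (68 / 25 * rT r ρ φ) := by
    refine HZ.height hr0 (by norm_num) measurableSet_Ioi ?_ (fun v _ => exp_pm_le _ v)
      (by norm_num) (jR2 hρ hφ hφ2.le (by linarith) hY' hcos)
      (jR2 hρ hφ hφ2.le (by linarith) hY hcos)
    intro v hv
    exact wR' hρ (hφ.trans hv)
  have z3 : HZ r (fun v => Dm (mm ρ) ρ θ v) (fun v => Wm (mm ρ) θ 1 v) (fun v => pm (mm ρ) v)
      (S3 φ) (rF r ρ φ) (14 * rF r ρ φ) (68 / 25 * rF r ρ φ) :=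
    HZ.const (mS3 φ) (fun v _ => wFarR _) (fun v _ => exp_pm_le _ v) (by norm_num) (by norm_num)
      (jR3 hρ hφ hr0 hcos)
  have z4 : HZ r (fun v => Dm (mm ρ) ρ θ v) (fun v => Wm (mm ρ) θ 1 v) (fun v => pm (mm ρ) v)
      (S4 φ) (rO r ρ φ) (20 / 3 * Cf * rO (8 / 9 * r) ρ φ / r) (68 / 25 * rO r ρ φ) := by
    refine HZ.height hr0 hCf0 (mS4 φ) ?_ (fun v _ => exp_pm_le _ v) (by norm_num)
      (jR4 hρ hφ hφ2 hr0 hcos) (jR4 hρ hφ hφ2 hq0 hcos)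
    rintro v ⟨⟨h0, h1⟩, h2⟩
    have h2' : v ≤ φ - (2 * π - 6 / 5) := h2
    rcases hCf with h | ⟨T, h3, _, h5, h6, h7⟩
    · exact (wR' hρ h0).trans (mul_le_mul_of_nonneg_right (by linarith) (hD v))
    · exact wR hρ h0 (by linarith) h5 h6 h7
  have a1 := rM_nonneg r ρ φ B
  have a2 := rM_nonneg (8 / 9 * r) ρ φ B
  have a3 := rT_nonneg r ρ φ
  have a4 := rT_nonneg (8 / 9 * r) ρ φ
  have a5 := rF_nonneg r ρ φ
  have a6 := rO_nonneg r ρ φ
  have a7 := rO_nonneg (8 / 9 * r) ρ φ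
  exact ((z1.union z2 a1 (by positivity) (by positivity) a3 (by positivity) (by positivity)).union
    (z3.union z4 a5 (by positivity) (by positivity) a6 (by positivity) (by positivity))
    (by positivity) (by positivity) (by positivity) (by positivity) (by positivity)
    (by positivity)).subset (cover φ)

/-- left half line -/
theorem hzL (hρ : 0 < ρ) (hr : 499 / 10 ≤ r) (hφ : 0 < φ) (hφ2 : φ < 2 * π) (hB : HL ρ φ B l)
    (he : HE ρ e) (hY : 6 ≤ 8 / 9 * r * (lA ρ φ * φ ^ (2 : ℕ)))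
    (hcos : ∀ v, cos (θ + -v) = cos (φ - v)) :
    HZ r (fun v => Dm (mm ρ) ρ θ (-v)) (fun v => Wm (mm ρ) θ 1 (-v)) (fun v => pm (mm ρ) (-v))
      (Ioi 0)
      (lM r ρ φ B l + lT r ρ φ + (lF r ρ φ e + lO r ρ φ))
      (20 / 3 * 1 * lM (8 / 9 * r) ρ φ B l / r + 20 / 3 * 1 * lT (8 / 9 * r) ρ φ / r +
        (4 * lF r ρ φ e + 20 / 3 * 1 * lO (8 / 9 * r) ρ φ / r))
      (1 * lM r ρ φ B l + 1 * lT r ρ φ + (1 * lF r ρ φ e + 1 * lO r ρ φ)) := by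
  have hr0 : 0 < r := by linarith
  have hq0 : 0 < 8 / 9 * r := by linarith
  have hY' : 6 ≤ r * (lA ρ φ * φ ^ (2 : ℕ)) := by
    have : 0 ≤ lA ρ φ * φ ^ (2 : ℕ) := by have := lA_pos hρ hφ; positivity
    linarith only [hY]
  have hm := mm_pos ρ
  have z1 : HZ r (fun v => Dm (mm ρ) ρ θ (-v)) (fun v => Wm (mm ρ) θ 1 (-v))
      (fun v => pm (mm ρ) (-v))
      (S1 φ) (lM r ρ φ B l) (20 / 3 * 1 * lM (8 / 9 * r) ρ φ B l / r) (1 * lM r ρ φ B l) := by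
    refine HZ.height hr0 zero_le_one (mS1 φ) ?_ (fun v hv => exp_pm_le_one hm hv.1.1.le)
      (by norm_num) (jL1 hρ hφ hr0 hB hcos) (jL1 hρ hφ hq0 hB hcos)
    rintro v ⟨⟨h0, h1⟩, _⟩
    exact wL hρ h0.le
  have z2 : HZ r (fun v => Dm (mm ρ) ρ θ (-v)) (fun v => Wm (mm ρ) θ 1 (-v))
      (fun v => pm (mm ρ) (-v))
      (Ioi φ) (lT r ρ φ) (20 / 3 * 1 * lT (8 / 9 * r) ρ φ / r) (1 * lT r ρ φ) := by
    refine HZ.height hr0 (by norm_num) measurableSet_Ioi ?_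
      (fun v hv => exp_pm_le_one hm (hφ.trans hv).le)
      (by norm_num) (jL2 hρ hφ hφ2.le (by linarith) hY' hcos)
      (jL2 hρ hφ hφ2.le (by linarith) hY hcos)
    intro v hv
    exact wL hρ (hφ.trans hv).le
  have z3 : HZ r (fun v => Dm (mm ρ) ρ θ (-v)) (fun v => Wm (mm ρ) θ 1 (-v))
      (fun v => pm (mm ρ) (-v))
      (S3 φ) (lF r ρ φ e) (4 * lF r ρ φ e) (1 * lF r ρ φ e) :=
    HZ.const (mS3 φ) (fun v hv => wFarL hm hv.1.1.le) (fun v hv => exp_pm_le_one hm hv.1.1.le)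
      (by norm_num) (by norm_num) (jL3 hρ hφ hr0 he hcos)
  have z4 : HZ r (fun v => Dm (mm ρ) ρ θ (-v)) (fun v => Wm (mm ρ) θ 1 (-v))
      (fun v => pm (mm ρ) (-v))
      (S4 φ) (lO r ρ φ) (20 / 3 * 1 * lO (8 / 9 * r) ρ φ / r) (1 * lO r ρ φ) := by
    refine HZ.height hr0 zero_le_one (mS4 φ) ?_ (fun v hv => exp_pm_le_one hm hv.1.1.le)
      (by norm_num) (jL4 hρ hφ hφ2 hr0 hcos) (jL4 hρ hφ hφ2 hq0 hcos)
    rintro v ⟨⟨h0, h1⟩, _⟩
    exact wL hρ h0.le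
  have a1 := lM_nonneg r ρ φ B l
  have a2 := lM_nonneg (8 / 9 * r) ρ φ B l
  have a3 := lT_nonneg r ρ φ
  have a4 := lT_nonneg (8 / 9 * r) ρ φ
  have a5 := lF_nonneg r ρ φ e
  have a6 := lO_nonneg r ρ φ
  have a7 := lO_nonneg (8 / 9 * r) ρ φ
  exact ((z1.union z2 a1 (by positivity) (by positivity) a3 (by positivity) (by positivity)).union
    (z3.union z4 a5 (by positivity) (by positivity) a6 (by positivity) (by positivity))
    (by positivity) (by positivity) (by positivity) (by positivity) (by positivity)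
    (by positivity)).subset (cover φ)

end

/-- from the two half lines to `univ` -/
theorem zone_of_halves {r m ρ θ : ℝ} {w : ℂ} {I0 IW Ie J0 JW Je : ℝ}
    (hR : HZ r (fun v => Dm m ρ θ v) (fun v => Wm m θ w v) (fun v => pm m v) (Ioi 0) I0 IW Ie)
    (hL : HZ r (fun v => Dm m ρ θ (-v)) (fun v => Wm m θ w (-v)) (fun v => pm m (-v)) (Ioi 0)
      J0 JW Je)
    (a0 : 0 ≤ I0) (a1 : 0 ≤ IW) (a2 : 0 ≤ Ie) (b0 : 0 ≤ J0) (b1 : 0 ≤ JW) (b2 : 0 ≤ Je) :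
    Zone r m ρ θ w univ (I0 + J0) (IW + JW) (Ie + Je) := by
  refine ⟨?_, ?_, ?_⟩
  · rw [Measure.restrict_univ, SokamFA.lintegral_sym, ENNReal.ofReal_add a0 b0]
    exact add_le_add hR.i0 hL.i0
  · rw [Measure.restrict_univ, SokamFA.lintegral_sym, ENNReal.ofReal_add a1 b1]
    exact add_le_add hR.iW hL.iW
  · rw [Measure.restrict_univ, SokamFA.lintegral_sym, ENNReal.ofReal_add a2 b2]
    exact add_le_add hR.ie hL.ie

section

variable {r ρ θ φR φL C Cf B B' l e : ℝ}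

theorem sqrt_div_mono {a q : ℝ} (hq : 0 < q) (ha : 0 < a) :
    √(π / (q * a)) ≤ √(π / (8 / 9 * q * a)) := by
  refine Real.sqrt_le_sqrt ?_
  have := Real.pi_pos
  refine div_le_div_of_nonneg_left (by positivity) (by positivity) ?_
  linarith only [mul_pos hq ha]

/-- THE STATEMENT AT `y = 0`, general form. -/
theorem shf_dz {δ θ H F : ℝ} (hδ : 0 < δ) (hr : 499 / 10 ≤ r) (hH : 0 < H)
    (hH2 : 27 / 5 * r ≤ H ^ (2 : ℕ)) (hρ : ρ = r * δ)
    (hR0 : 0 < φR) (hR2 : φR < 2 * π) (hL0 : 0 < φL) (hL2 : φL < 2 * π)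
    (hB : HR φR B) (hC : HC ρ φR C) (hCf : HF ρ φR Cf) (hB' : HL ρ φL B' l) (he : HE ρ e)
    (hYR : 6 ≤ 8 / 9 * r * (rA ρ φR * φR ^ (2 : ℕ))) (hYL : 6 ≤ 8 / 9 * r * (lA ρ φL * φL ^ (2 : ℕ)))
    (hlA : 0 ≤ lA ρ φL * B' * φL ^ (2 : ℕ) / (lA ρ φL + B') - l)
    (hcR : ∀ v, cos (θ + v) = cos (φR - v)) (hcL : ∀ v, cos (θ + -v) = cos (φL - v))
    (hF : Kc r ρ * SW r ρ φR φL C Cf B B' l e ≤ 27 / 5 * F) :
    Shf r δ 0 θ H F F F := by
  have hr0 : 0 < r := by linarith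
  have hρ0 : 0 < ρ := by rw [hρ]; positivity
  have hm := mm_pos ρ
  have hC0 : 1 ≤ C := by rcases hC with h | ⟨T, _, _, h, _⟩ <;> linarith
  have hCf0 : 1 ≤ Cf := by rcases hCf with h | ⟨T, _, _, _, h, _⟩ <;> linarith
  have zR := hzR (θ := θ) hρ0 hr hR0 hR2 hB hC hCf hYR hcR
  have zL := hzL (θ := θ) hρ0 hr hL0 hL2 hB' he hYL hcL
  have a1 := rM_nonneg r ρ φR B
  have a2 := rM_nonneg (8 / 9 * r) ρ φR B
  have a3 := rT_nonneg r ρ φR
  have a4 := rT_nonneg (8 / 9 * r) ρ φR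
  have a5 := rF_nonneg r ρ φR
  have a6 := rO_nonneg r ρ φR
  have a7 := rO_nonneg (8 / 9 * r) ρ φR
  have b1 := lM_nonneg r ρ φL B' l
  have b2 := lM_nonneg (8 / 9 * r) ρ φL B' l
  have b3 := lT_nonneg r ρ φL
  have b4 := lT_nonneg (8 / 9 * r) ρ φL
  have b5 := lF_nonneg r ρ φL e
  have b6 := lO_nonneg r ρ φL
  have b7 := lO_nonneg (8 / 9 * r) ρ φL
  have Z := zone_of_halves zR zL (by positivity) (by positivity) (by positivity) (by positivity)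
    (by positivity) (by positivity)
  set I0 := rM r ρ φR B + rT r ρ φR + (rF r ρ φR + rO r ρ φR) +
    (lM r ρ φL B' l + lT r ρ φL + (lF r ρ φL e + lO r ρ φL)) with hI0
  set IW := 20 / 3 * C * rM (8 / 9 * r) ρ φR B / r + 20 / 3 * (14 / 5) * rT (8 / 9 * r) ρ φR / r +
        (14 * rF r ρ φR + 20 / 3 * Cf * rO (8 / 9 * r) ρ φR / r) +
      (20 / 3 * 1 * lM (8 / 9 * r) ρ φL B' l / r + 20 / 3 * 1 * lT (8 / 9 * r) ρ φL / r +
        (4 * lF r ρ φL e + 20 / 3 * 1 * lO (8 / 9 * r) ρ φL / r)) with hIW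
  set Ie := 68 / 25 * rM r ρ φR B + 68 / 25 * rT r ρ φR +
      (68 / 25 * rF r ρ φR + 68 / 25 * rO r ρ φR) +
      (1 * lM r ρ φL B' l + 1 * lT r ρ φL + (1 * lF r ρ φL e + 1 * lO r ρ φL)) with hIe
  have hI0n : 0 ≤ I0 := by positivity
  have hIWn : 0 ≤ IW := by positivity
  have hIen : 0 ≤ Ie := by positivity
  -- the sum
  have eW : r ^ (2 : ℕ) * IW + r * Ie = r * SW r ρ φR φL C Cf B B' l e := by
    rw [hIW, hIe]
    unfold SW
    field_simp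
    ring
  -- monotonicity in `q`
  have mR1 : rM r ρ φR B ≤ rM (8 / 9 * r) ρ φR B := by
    have h1 := rA_pos hρ0 hR0
    have h2 := hB.1
    unfold rM
    refine mul_le_mul (sqrt_div_mono hr0 (by positivity)) ?_ (exp_pos _).le (by positivity)
    refine exp_le_exp.2 ?_
    have : 0 ≤ rA ρ φR * B * φR ^ (2 : ℕ) / (rA ρ φR + B) := by positivity
    nlinarith only [hr0, this]
  have mT : ∀ c A φ : ℝ, 0 ≤ c → 0 ≤ A * φ ^ (2 : ℕ) →
      c / √r * exp (-(r * (A * φ ^ (2 : ℕ)))) ≤ c / √(8 / 9 * r) * exp (-(8 / 9 * r * (A * φ ^ (2 : ℕ)))) := by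
    intro c A φ hc hA
    refine mul_le_mul ?_ (exp_le_exp.2 (by nlinarith only [hr0, hA])) (exp_pos _).le (by positivity)
    refine div_le_div_of_nonneg_left hc (Real.sqrt_pos.2 (by linarith)) (Real.sqrt_le_sqrt ?_)
    linarith
  have mR2 : rT r ρ φR ≤ rT (8 / 9 * r) ρ φR := by
    unfold rT
    have h1 := rA_pos hρ0 hR0
    exact mT (3 / 2) _ _ (by norm_num) (by positivity)
  have mR4 : rO r ρ φR ≤ rO (8 / 9 * r) ρ φR := by
    have h1 := rA_pos hρ0 hR0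
    unfold rO
    split_ifs
    · refine mul_le_mul ?_ ?_ (exp_pos _).le (by positivity)
      · have := sqrt_div_mono hr0 (a := rA ρ φR + 11 / 25) (by positivity)
        linarith
      · refine exp_le_exp.2 ?_
        have : 0 ≤ 11 / 25 * (2 * π - φR) ^ (2 : ℕ) := by positivity
        nlinarith only [hr0]
    · exact le_rfl
  have mL1 : lM r ρ φL B' l ≤ lM (8 / 9 * r) ρ φL B' l := by
    have h1 := lA_pos hρ0 hL0
    have h2 := hB'.1
    unfold lM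
    refine mul_le_mul (sqrt_div_mono hr0 (by positivity)) ?_ (exp_pos _).le (by positivity)
    refine exp_le_exp.2 ?_
    nlinarith only [hlA, hr0]
  have mL2 : lT r ρ φL ≤ lT (8 / 9 * r) ρ φL := by
    unfold lT
    have h1 := lA_pos hρ0 hL0
    exact mT (5 / 2) _ _ (by norm_num) (by positivity)
  have mL4 : lO r ρ φL ≤ lO (8 / 9 * r) ρ φL := by
    have h1 := lA_pos hρ0 hL0
    unfold lO
    split_ifs
    · refine mul_le_mul ?_ ?_ (exp_pos _).le (by positivity)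
      · have := sqrt_div_mono hr0 h1
        linarith
      · refine exp_le_exp.2 ?_
        have : 0 ≤ 11 / 25 * (2 * π - φL) ^ (2 : ℕ) := by positivity
        nlinarith only [hr0]
    · exact le_rfl
  have hI0W : 20 / 3 * I0 ≤ SW r ρ φR φL C Cf B B' l e := by
    rw [hI0]
    unfold SW
    have c1 : rM (8 / 9 * r) ρ φR B ≤ C * rM (8 / 9 * r) ρ φR B := le_mul_of_one_le_left a2 hC0
    have c2 : rO (8 / 9 * r) ρ φR ≤ Cf * rO (8 / 9 * r) ρ φR := le_mul_of_one_le_left a7 hCf0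
    have c3 : 20 / 3 * rF r ρ φR ≤ r * (14 * rF r ρ φR) := by nlinarith only [hr, a5]
    have c4 : 20 / 3 * lF r ρ φL e ≤ r * (4 * lF r ρ φL e) := by nlinarith only [hr, b5]
    linarith
  have hKn : 0 ≤ Kc r ρ := by unfold Kc; positivity
  have hFn : 0 ≤ F := by
    have : 0 ≤ Kc r ρ * SW r ρ φR φL C Cf B B' l e :=
      mul_nonneg hKn ((by positivity : 0 ≤ 20 / 3 * I0).trans hI0W)
    linarith
  -- the level
  have hA : At r δ 0 0 := ⟨dom_y0 (by positivity), by norm_num, sE_y0 (by positivity)⟩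
  have hRR : RR r δ = 1 + ρ ^ (2 : ℕ) := by unfold RR; rw [hρ]
  have hLev : Lev r δ 0 0 0 0 1 := by
    refine ⟨?_, ?_, ?_⟩
    · rw [sx_y0 (by positivity)]
      have : r - r * δ * (1 + 0) / δ = 0 := by field_simp; ring
      rw [this]
      simp
    · rw [kap_y0 hr0 hδ]
      simp
    · unfold sD
      rw [sD2_y0 (by positivity)]
      unfold RR
      rw [one_mul]
  have hLv : LvF r δ 0 0 1 ≤ √(r / (2 * π * ρ)) * √(√(1 + ρ ^ (2 : ℕ))) := by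
    unfold LvF
    rw [hRR, hρ]
    simp
  have hK : √(r / (2 * π * ρ)) * √(√(1 + ρ ^ (2 : ℕ))) * √(1 + 1 / mm ρ ^ (2 : ℕ)) = Kc r ρ := rfl
  have hw : (SokamF1S.sK (r * δ) 0 / (r * δ : ℝ) : ℂ) = 1 := by
    unfold SokamF1S.sK
    rw [sx_y0 (by positivity)]
    have h1 : (r : ℂ) ≠ 0 := by exact_mod_cast hr0.ne'
    have h2 : (δ : ℂ) ≠ 0 := by exact_mod_cast hδ.ne'
    push_cast
    field_simp
    ring
  have hbase : Kc r ρ * I0 ≤ F := by
    have h1 := mul_le_mul_of_nonneg_left hI0W hKn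
    linarith
  have hbase2 : Kc r ρ * (r ^ (2 : ℕ) * IW + r * Ie) ≤ F * H ^ (2 : ℕ) := by
    rw [eW]
    have h1 : Kc r ρ * (r * SW r ρ φR φL C Cf B B' l e) =
        r * (Kc r ρ * SW r ρ φR φL C Cf B B' l e) := by ring
    rw [h1]
    have h2 := mul_le_mul_of_nonneg_left hF hr0.le
    have h3 := mul_le_mul_of_nonneg_left hH2 hFn
    linarith
  refine shf_zone (m := mm ρ) (L := √(r / (2 * π * ρ)) * √(√(1 + ρ ^ (2 : ℕ)))) (g := 0) (k := 0)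
    (q := 1) (η := 0) hr0 hδ hA hLev (wb hr0 hδ hm) hLv hI0n hIWn hIen ?_ ?_ ?_ ?_
  · rw [hw, zero_add, ← hρ]
    exact Z
  · rw [hK]
    exact hbase
  · rw [hK]
    have h1 : (Kc r ρ * (r * √(I0 * IW))) ^ (2 : ℕ) ≤ (F * H) ^ (2 : ℕ) := by
      have h2 : √(I0 * IW) ^ (2 : ℕ) = I0 * IW := Real.sq_sqrt (mul_nonneg hI0n hIWn)
      have h3 : (Kc r ρ * (r * √(I0 * IW))) ^ (2 : ℕ) = (Kc r ρ * I0) * (Kc r ρ * (r ^ (2 : ℕ) * IW)) := by
        rw [mul_pow, mul_pow, h2]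
        ring
      rw [h3]
      have h4 : Kc r ρ * (r ^ (2 : ℕ) * IW) ≤ F * H ^ (2 : ℕ) := by
        have : 0 ≤ Kc r ρ * (r * Ie) := by positivity
        linarith
      calc (Kc r ρ * I0) * (Kc r ρ * (r ^ (2 : ℕ) * IW)) ≤ F * (F * H ^ (2 : ℕ)) :=
            mul_le_mul hbase h4 (by positivity) hFn
        _ = (F * H) ^ (2 : ℕ) := by ring
    exact (abs_le_of_sq_le_sq' h1 (by positivity)).2
  · rw [hK]
    exact hbase2

end

end SokamDz

end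

/-! ### Lib_MP_af4de1_v3.DzS -/

section
namespace SokamCen
end SokamCen
namespace SokamV3
end SokamV3
/-!
# Fields `d`: from the real inequalities to the statements at `y = 0`, and the free parameters
-/

set_option autoImplicit false

namespace SokamDz

open Real MeasureTheory Set SokamCen SokamV3

section

variable {r ρ t φ : ℝ}

/-- `r φ²/R ≥ 108/5` for every angle above `t` -/
theorem HypD.U (h : HypD r ρ t) (hφ : t ≤ φ) : 108 / 5 ≤ r * φ ^ (2 : ℕ) / (1 + ρ ^ (2 : ℕ)) := by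
  refine h.X.trans ?_
  have h1 := h.t0
  have h2 := h.r0
  have h3 : t ^ (2 : ℕ) ≤ φ ^ (2 : ℕ) := pow_le_pow_left₀ h1.le hφ 2
  gcongr

theorem tail_R (h : HypD r ρ t) (hφ : t ≤ φ) : 6 ≤ 8 / 9 * r * (rA ρ φ * φ ^ (2 : ℕ)) := by
  have hU := h.U hφ
  have hρ := h.ρ0
  have hr := h.r0
  have hφ0 : 0 < φ := h.t0.trans_le hφ
  have hm := mm_pos ρ
  have hm2 := sq_mm ρ
  have h54 := mm_div hρ
  have hR : 0 < 1 + ρ ^ (2 : ℕ) := by positivity
  rw [le_div_iff₀ hR] at hU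
  unfold rA AR cT aR
  rcases le_total φ (mm ρ) with hc | hc
  · have hT1 : φ / mm ρ ≤ 1 := (div_le_one hm).2 hc
    have hT2 : 1 ≤ mm ρ / φ := (one_le_div hφ0).2 hc
    have hT0 : 0 < φ / mm ρ := div_pos hφ0 hm
    rw [min_eq_right hT1, min_eq_left hT2, mul_one]
    set T := φ / mm ρ with hT
    have e1 : (mm ρ / ρ - (1 + T / 3 + 5 * T ^ (2 : ℕ) / 48) / 2) / mm ρ ^ (2 : ℕ) * φ ^ (2 : ℕ) =
        (mm ρ / ρ - (1 + T / 3 + 5 * T ^ (2 : ℕ) / 48) / 2) * T ^ (2 : ℕ) := by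
      rw [hT]; field_simp
    rw [e1]
    have h1 : (5 / 4 - (1 + T / 3 + 5 * T ^ (2 : ℕ) / 48) / 2) * T ^ (2 : ℕ) ≤
        (mm ρ / ρ - (1 + T / 3 + 5 * T ^ (2 : ℕ) / 48) / 2) * T ^ (2 : ℕ) :=
      mul_le_mul_of_nonneg_right (by linarith only [h54]) (sq_nonneg T)
    have h2 : φ ^ (2 : ℕ) = T ^ (2 : ℕ) * mm ρ ^ (2 : ℕ) := by rw [hT]; field_simp
    rw [h2, hm2] at hU
    have h3 : 108 / 5 ≤ r * T ^ (2 : ℕ) * (25 / 16) := by
      have : 108 / 5 * (1 + ρ ^ (2 : ℕ)) ≤ r * T ^ (2 : ℕ) * (25 / 16) * (1 + ρ ^ (2 : ℕ)) := by linarith only [hU]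
      exact le_of_mul_le_mul_right this hR
    have h4 : 6 ≤ 8 / 9 * r * ((5 / 4 - (1 + T / 3 + 5 * T ^ (2 : ℕ) / 48) / 2) * T ^ (2 : ℕ)) := by
      have e2 : 8 / 9 * r * ((5 / 4 - (1 + T / 3 + 5 * T ^ (2 : ℕ) / 48) / 2) * T ^ (2 : ℕ)) =
          8 / 9 * (r * T ^ (2 : ℕ)) * (3 / 4 - T / 6 - 5 * T ^ (2 : ℕ) / 96) := by ring
      rw [e2]
      rcases le_total T (3 / 5) with h5 | h5
      · have h6 : 63 / 100 ≤ 3 / 4 - T / 6 - 5 * T ^ (2 : ℕ) / 96 := by nlinarith only [hT0, h5]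
        nlinarith only [h3, h6]
      · have h6 : 53 / 100 ≤ 3 / 4 - T / 6 - 5 * T ^ (2 : ℕ) / 96 := by nlinarith only [hT1, hT0]
        have h7 : 9 / 25 ≤ T ^ (2 : ℕ) := by nlinarith only [h5]
        have h8 : 499 / 10 * (9 / 25) ≤ r * T ^ (2 : ℕ) := by nlinarith only [hr, h7]
        nlinarith only [h6, h8]
    refine h4.trans ?_
    exact mul_le_mul_of_nonneg_left h1 (by linarith only [hr])
  · have hT1 : 1 ≤ φ / mm ρ := (one_le_div hm).2 hc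
    have hT2 : mm ρ / φ ≤ 1 := (div_le_one hφ0).2 hc
    rw [min_eq_left hT1, min_eq_right hT2]
    have e1 : (mm ρ / ρ - (1 + 1 / 3 + 5 * 1 ^ (2 : ℕ) / 48) / 2) / mm ρ ^ (2 : ℕ) * (mm ρ / φ) * φ ^ (2 : ℕ) =
        (mm ρ / ρ - (1 + 1 / 3 + 5 * 1 ^ (2 : ℕ) / 48) / 2) * (φ / mm ρ) := by field_simp
    rw [e1]
    have h1 : 53 / 100 * 1 ≤ (mm ρ / ρ - (1 + 1 / 3 + 5 * 1 ^ (2 : ℕ) / 48) / 2) * (φ / mm ρ) :=
      mul_le_mul (by linarith only [h54]) hT1 (by norm_num) (by linarith only [h54])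
    nlinarith only [hr, h1]

theorem tail_L (h : HypD r ρ t) (hφ : t ≤ φ) : 6 ≤ 8 / 9 * r * (lA ρ φ * φ ^ (2 : ℕ)) := by
  have hU := h.U hφ
  have hρ := h.ρ0
  have hr := h.r0
  have hφ0 : 0 < φ := h.t0.trans_le hφ
  have hm := mm_pos ρ
  have hm2 := sq_mm ρ
  have h54 := mm_div hρ
  have hR : 0 < 1 + ρ ^ (2 : ℕ) := by positivity
  rw [le_div_iff₀ hR] at hU
  unfold lA AL aL
  rcases le_total φ (mm ρ) with hc | hc
  · have hT2 : 1 ≤ mm ρ / φ := (one_le_div hφ0).2 hc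
    have hT0 : 0 < φ / mm ρ := div_pos hφ0 hm
    rw [min_eq_left hT2, mul_one]
    set T := φ / mm ρ with hT
    have e1 : (mm ρ / ρ - 1 / 2) / mm ρ ^ (2 : ℕ) * φ ^ (2 : ℕ) = (mm ρ / ρ - 1 / 2) * T ^ (2 : ℕ) := by
      rw [hT]; field_simp
    rw [e1]
    have h1 : (3 / 4) * T ^ (2 : ℕ) ≤ (mm ρ / ρ - 1 / 2) * T ^ (2 : ℕ) :=
      mul_le_mul_of_nonneg_right (by linarith only [h54]) (sq_nonneg T)
    have h2 : φ ^ (2 : ℕ) = T ^ (2 : ℕ) * mm ρ ^ (2 : ℕ) := by rw [hT]; field_simp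
    rw [h2, hm2] at hU
    have h3 : 108 / 5 ≤ r * T ^ (2 : ℕ) * (25 / 16) := by
      have : 108 / 5 * (1 + ρ ^ (2 : ℕ)) ≤ r * T ^ (2 : ℕ) * (25 / 16) * (1 + ρ ^ (2 : ℕ)) := by linarith only [hU]
      exact le_of_mul_le_mul_right this hR
    have h4 : 6 ≤ 8 / 9 * r * (3 / 4 * T ^ (2 : ℕ)) := by linarith only [h3]
    exact h4.trans (mul_le_mul_of_nonneg_left h1 (by linarith only [hr]))
  · have hT1 : 1 ≤ φ / mm ρ := (one_le_div hm).2 hc
    have hT2 : mm ρ / φ ≤ 1 := (div_le_one hφ0).2 hc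
    rw [min_eq_right hT2]
    have e1 : (mm ρ / ρ - 1 / 2) / mm ρ ^ (2 : ℕ) * (mm ρ / φ) * φ ^ (2 : ℕ) =
        (mm ρ / ρ - 1 / 2) * (φ / mm ρ) := by field_simp
    rw [e1]
    have h1 : 3 / 4 * 1 ≤ (mm ρ / ρ - 1 / 2) * (φ / mm ρ) :=
      mul_le_mul (by linarith only [h54]) hT1 (by norm_num) (by linarith only [h54])
    nlinarith only [hr, h1]

end

/-- (S), left -/
theorem pDL (hP : PRealDL) : PDL := by
  intro r δ t H hδ h hH hH2
  obtain ⟨C, Cf, B, B', l, e, hB, hC, hCf, hB', he, hl, hF⟩ := hP r (r * δ) t h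
  have hpi := Real.pi_pos
  have h0 := h.t0
  have h1 := h.t1
  refine shf_dz (φR := 2 * π - t) (φL := t) (ρ := r * δ) hδ h.r0 hH hH2 rfl (by linarith only [h0, h1]) (by linarith only [h0]) h0
    (by linarith only [h0, h1]) hB hC hCf hB' he (tail_R h (by linarith only [h1])) (tail_L h le_rfl) (by linarith only [hl]) ?_ ?_ hF
  · intro v
    rw [show 2 * π - t - v = 2 * π - (t + v) by ring, cos_two_pi_sub]
  · intro v
    rw [← sub_eq_add_neg]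

/-- (S), right -/
theorem pDR (hP : PRealDR) : PDR := by
  intro r δ t H hδ h hH hH2
  obtain ⟨C, Cf, B, B', l, e, hB, hC, hCf, hB', he, hl, hF⟩ := hP r (r * δ) t h
  have hpi := Real.pi_pos
  have h0 := h.t0
  have h1 := h.t1
  refine shf_dz (φR := t) (φL := 2 * π - t) (ρ := r * δ) hδ h.r0 hH hH2 rfl h0 (by linarith only [h0, h1])
    (by linarith only [h0, h1]) (by linarith only [h0]) hB hC hCf hB' he (tail_R h le_rfl) (tail_L h (by linarith only [h1]))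
    (by linarith only [hl]) ?_ ?_ hF
  · intro v
    rw [← cos_neg, show -(-t + v) = t - v by ring]
  · intro v
    rw [show 2 * π - t - v = 2 * π - (t + v) by ring, cos_two_pi_sub, ← cos_neg]
    congr 1
    ring

/-! ## free parameters -/

section par

variable {ρ φ : ℝ}

theorem HR_11_25 (φ : ℝ) : HR φ (11 / 25) := by
  refine ⟨by norm_num, fun u h0 _ h2 => ?_⟩
  exact SokamFA.cos_split_small (by rw [abs_of_nonneg h0]; exact h2)

/-- `1/2 - φ²/24` for `φ ≤ 3` -/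
theorem HR_quad (h0 : 0 ≤ φ) (h1 : φ ≤ 3) : HR φ (1 / 2 - φ ^ (2 : ℕ) / 24) := by
  refine ⟨by nlinarith, fun u hu0 hu1 _ => ?_⟩
  have h2 : cos u ≤ 1 - u ^ (2 : ℕ) / 2 + u ^ (4 : ℕ) / 24 := SokamF1G.cos_le4 hu0
  have h3 : u ^ (2 : ℕ) ≤ φ ^ (2 : ℕ) := pow_le_pow_left₀ hu0 hu1 2
  have h4 : u ^ (2 : ℕ) * u ^ (2 : ℕ) ≤ φ ^ (2 : ℕ) * u ^ (2 : ℕ) := mul_le_mul_of_nonneg_right h3 (sq_nonneg u)
  nlinarith only [h2, h3]

/-- left, `B = β e^(-σT)`, `l = (4/27)(1-σ)³ T B φ²`, `T = φ/m` -/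
theorem HL_sig {β σ : ℝ} (hφ : 0 < φ) (hβ : HR φ β) (_hσ0 : 0 ≤ σ) (hσ1 : σ ≤ 1) :
    HL ρ φ (β * exp (-(σ * (φ / mm ρ))))
      (4 / 27 * (1 - σ) ^ (3 : ℕ) * (φ / mm ρ) * (β * exp (-(σ * (φ / mm ρ)))) * φ ^ (2 : ℕ)) := by
  have hm := mm_pos ρ
  have hβ0 := hβ.1
  have hs : 0 ≤ 1 - σ := by linarith only [hσ1]
  refine ⟨by positivity, by positivity, fun v h0 h1 h2 => ?_⟩
  have hc := hβ.2 (φ - v) (by linarith only [h1]) (by linarith only [h0]) (by linarith only [h2])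
  have hpm := pm_neg' hm h0
  have hE : exp (-(v / mm ρ)) ≤ exp (pm (mm ρ) (-v)) := by
    rw [hpm]
    exact exp_le_exp.2 (by linarith only [min_le_right 1 (v / mm ρ)])
  have hsq : 0 ≤ β * (φ - v) ^ (2 : ℕ) := by positivity
  have h3 : exp (-(v / mm ρ)) * (β * (φ - v) ^ (2 : ℕ)) ≤ exp (pm (mm ρ) (-v)) * (1 - cos (φ - v)) :=
    mul_le_mul hE hc hsq (exp_pos _).le
  refine le_trans ?_ h3
  set Eσ := exp (-(σ * (φ / mm ρ))) with hEσ
  have hEσ0 : 0 < Eσ := exp_pos _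
  have h4 : exp (-(v / mm ρ)) = Eσ * exp (-((v - σ * φ) / mm ρ)) := by
    rw [hEσ, ← exp_add]
    congr 1
    field_simp
    ring
  have h5 : 1 - (v - σ * φ) / mm ρ ≤ exp (-((v - σ * φ) / mm ρ)) := by
    have := Real.add_one_le_exp (-((v - σ * φ) / mm ρ))
    linarith only [this]
  have h6 : (v - σ * φ) * (φ - v) ^ (2 : ℕ) ≤ 4 / 27 * ((1 - σ) * φ) ^ (3 : ℕ) := by
    have h7 : 0 ≤ (1 - σ) * φ := by positivity
    set a := (1 - σ) * φ with ha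
    have h8 : v - σ * φ = a - (φ - v) := by rw [ha]; ring
    have h9 : 0 ≤ φ - v := by linarith only [h1]
    rw [h8]
    set z := φ - v
    -- `4/27 a³ - (a - z) z² = (z - 2a/3)² (z + a/3)`
    have h10 : 4 / 27 * a ^ (3 : ℕ) - (a - z) * z ^ (2 : ℕ) = (z - 2 / 3 * a) ^ (2 : ℕ) * (z + a / 3) := by ring
    have h11 : 0 ≤ (z - 2 / 3 * a) ^ (2 : ℕ) * (z + a / 3) := by positivity
    linarith only [h11]
  have h7 : (φ - v) ^ (2 : ℕ) - 4 / 27 * (1 - σ) ^ (3 : ℕ) * (φ / mm ρ) * φ ^ (2 : ℕ) ≤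
      exp (-((v - σ * φ) / mm ρ)) * (φ - v) ^ (2 : ℕ) := by
    have h8 := mul_le_mul_of_nonneg_right h5 (sq_nonneg (φ - v))
    refine le_trans ?_ h8
    have h9 : (1 - (v - σ * φ) / mm ρ) * (φ - v) ^ (2 : ℕ) =
        (φ - v) ^ (2 : ℕ) - (v - σ * φ) * (φ - v) ^ (2 : ℕ) / mm ρ := by ring
    rw [h9]
    have h10 : (v - σ * φ) * (φ - v) ^ (2 : ℕ) / mm ρ ≤ 4 / 27 * ((1 - σ) * φ) ^ (3 : ℕ) / mm ρ :=
      div_le_div_of_nonneg_right h6 hm.le
    have h11 : 4 / 27 * ((1 - σ) * φ) ^ (3 : ℕ) / mm ρ =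
        4 / 27 * (1 - σ) ^ (3 : ℕ) * (φ / mm ρ) * φ ^ (2 : ℕ) := by ring
    linarith only [h10, h11]
  have h8 := mul_le_mul_of_nonneg_left h7 (mul_pos hβ0 hEσ0).le
  rw [h4]
  calc _ = β * Eσ * ((φ - v) ^ (2 : ℕ) - 4 / 27 * (1 - σ) ^ (3 : ℕ) * (φ / mm ρ) * φ ^ (2 : ℕ)) := by ring
    _ ≤ _ := h8
    _ = _ := by ring

/-- left, clipped: `B = β e^(-1)`, `l = 0` -/
theorem HL_clip {β : ℝ} (hβ : HR φ β) : HL ρ φ (β * exp (-1)) 0 := by
  have hβ0 := hβ.1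
  refine ⟨by positivity, le_rfl, fun v h0 h1 h2 => ?_⟩
  have hc := hβ.2 (φ - v) (by linarith only [h1]) (by linarith only [h0]) (by linarith only [h2])
  have hE : exp (-1) ≤ exp (pm (mm ρ) (-v)) := exp_le_exp.2 (abs_le.1 (pm_mem _ _)).1
  have h3 : exp (-1) * (β * (φ - v) ^ (2 : ℕ)) ≤ exp (pm (mm ρ) (-v)) * (1 - cos (φ - v)) :=
    mul_le_mul hE hc (by positivity) (exp_pos _).le
  rw [sub_zero]
  refine le_trans (le_of_eq ?_) h3
  ring

theorem HC_big (ρ φ : ℝ) : HC ρ φ (14 / 5) := Or.inl le_rfl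
theorem HF_big (ρ φ : ℝ) : HF ρ φ (14 / 5) := Or.inl le_rfl

/-- `T ≤ 66/125 = .528` -/
theorem HC_34_25 (h : φ ≤ 66 / 125 * mm ρ) : HC ρ φ (34 / 25) :=
  Or.inr ⟨66 / 125, h, by norm_num, by norm_num, by norm_num⟩

/-- `T ≤ 3/5` -/
theorem HC_38_25 (h : φ ≤ 3 / 5 * mm ρ) : HC ρ φ (38 / 25) :=
  Or.inr ⟨3 / 5, h, by norm_num, by norm_num, by norm_num⟩

/-- `e = 1/2` -/
theorem HE_half (hρ : 0 < ρ) : HE ρ (1 / 2) := by
  refine ⟨by norm_num, fun x h0 h1 => ?_⟩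
  have h54 := mm_div hρ
  have h2 : 3 / 4 * x ^ (2 : ℕ) ≤ (mm ρ / ρ - 1 / 2) * x ^ (2 : ℕ) :=
    mul_le_mul_of_nonneg_right (by linarith only [h54]) (sq_nonneg x)
  -- tangent at `x = 2/5`
  have h3 : exp (-(2 / 5)) * (1 - (x - 2 / 5)) ≤ exp (-x) := by
    have h4 := Real.add_one_le_exp (-(x - 2 / 5))
    have h5 : exp (-x) = exp (-(2 / 5)) * exp (-(x - 2 / 5)) := by rw [← exp_add]; congr 1; ring
    rw [h5]
    exact mul_le_mul_of_nonneg_left (by linarith only [h4]) (exp_pos _).le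
  have h4 : 67 / 100 ≤ exp (-(2 / 5)) := by
    have h5 := Real.exp_bound' (x := 2 / 5) (by norm_num) (by norm_num) (n := 4) (by norm_num)
    norm_num [Finset.sum_range_succ, Nat.factorial] at h5
    rw [Real.exp_neg, ← one_div, div_le_div_iff₀ (by norm_num) (exp_pos _)]
    linarith only [h5]
  have h6 : 67 / 100 * (7 / 5 - x) ≤ exp (-x) := by nlinarith only [h1, h3, h4]
  nlinarith only [h2, h6, sq_nonneg (x - 212 / 500)]

/-- `e = 11/20` when `m/ρ ≥ 19/10` -/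
theorem HE_11_20 (h : 19 / 10 ≤ mm ρ / ρ) : HE ρ (11 / 20) := by
  refine ⟨by norm_num, fun x h0 h1 => ?_⟩
  have h2 : 7 / 5 * x ^ (2 : ℕ) ≤ (mm ρ / ρ - 1 / 2) * x ^ (2 : ℕ) :=
    mul_le_mul_of_nonneg_right (by linarith only [h]) (sq_nonneg x)
  -- tangent at `x = 1/4`
  have h3 : exp (-(1 / 4)) * (1 - (x - 1 / 4)) ≤ exp (-x) := by
    have h4 := Real.add_one_le_exp (-(x - 1 / 4))
    have h5 : exp (-x) = exp (-(1 / 4)) * exp (-(x - 1 / 4)) := by rw [← exp_add]; congr 1; ring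
    rw [h5]
    exact mul_le_mul_of_nonneg_left (by linarith only [h4]) (exp_pos _).le
  have h4 : 7787 / 10000 ≤ exp (-(1 / 4)) := by
    have h5 := Real.exp_bound' (x := 1 / 4) (by norm_num) (by norm_num) (n := 5) (by norm_num)
    norm_num [Finset.sum_range_succ, Nat.factorial] at h5
    rw [Real.exp_neg, ← one_div, div_le_div_iff₀ (by norm_num) (exp_pos _)]
    linarith only [h5]
  have h6 : 7787 / 10000 * (5 / 4 - x) ≤ exp (-x) := by nlinarith only [h1, h3, h4]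
  nlinarith only [h2, h6, sq_nonneg (x - 264 / 1000)]

end par

end SokamDz

end
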