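import Pool.Agent.Lib_MP_af4de1_zy.Z76
import Pool.Agent.Lib_MP_af4de1_zy.Z96

/-! ### Lib_MP_af4de1_v3.DzRL1 -/

section
namespace SokamCen
end SokamCen
namespace SokamV3
end SokamV3
/-!
# `PRealDL`, `X ≤ 80`, stage 1: the main term, general lemmas (helper7)
-/

set_option autoImplicit false

namespace SokamDz

open Real MeasureTheory Set SokamCen SokamV3

variable {r ρ t p y x : ℝ}

theorem ex_neg {E c : ℝ} (n : ℕ) (f : ℝ) (hE : n + f ≤ E) (hf : 0 ≤ f) (hc0 : 0 ≤ c)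
    (hc : 1 ≤ c * ((2718281828 / 1000000000) ^ n * (1 + f + f ^ (2 : ℕ) / 2 + f ^ (3 : ℕ) / 6 + f ^ (4 : ℕ) / 24 +
      f ^ (5 : ℕ) / 120 + f ^ (6 : ℕ) / 720))) :
    exp (-E) ≤ c := by
  have h1 : (2718281828 / 1000000000 : ℝ) ≤ exp 1 := by linarith [Real.exp_one_gt_d9]
  have h2 : (2718281828 / 1000000000 : ℝ) ^ n ≤ exp n := by
    have := pow_le_pow_left₀ (by norm_num) h1 n
    rwa [← Real.exp_nat_mul, mul_one] at this
  have h3 : 1 + f + f ^ (2 : ℕ) / 2 + f ^ (3 : ℕ) / 6 + f ^ (4 : ℕ) / 24 + f ^ (5 : ℕ) / 120 + f ^ (6 : ℕ) / 720 ≤ exp f := by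
    have := Real.sum_le_exp_of_nonneg hf 7
    simp only [Finset.sum_range_succ, Finset.sum_range_zero, Nat.factorial] at this
    norm_num at this
    linarith
  have h4 : (2718281828 / 1000000000 : ℝ) ^ n * (1 + f + f ^ (2 : ℕ) / 2 + f ^ (3 : ℕ) / 6 + f ^ (4 : ℕ) / 24 +
      f ^ (5 : ℕ) / 120 + f ^ (6 : ℕ) / 720) ≤
      exp E := by
    calc _ ≤ exp n * exp f := mul_le_mul h2 h3 (by positivity) (exp_pos _).le
      _ = exp (n + f) := by rw [Real.exp_add]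
      _ ≤ exp E := Real.exp_le_exp.2 hE
  have h5 : 1 ≤ c * exp E := hc.trans (mul_le_mul_of_nonneg_left h4 hc0)
  have h6 := Real.exp_pos (-E)
  have h7 : exp E * exp (-E) = 1 := by rw [← Real.exp_add, add_neg_cancel, Real.exp_zero]
  calc exp (-E) = 1 * exp (-E) := (one_mul _).symm
    _ ≤ c * exp E * exp (-E) := mul_le_mul_of_nonneg_right h5 h6.le
    _ = c := by rw [mul_assoc, h7, mul_one]

theorem HL_scale {φ B l c : ℝ} (h : HL ρ φ B l) (hc0 : 0 < c) (hc1 : c ≤ 1) :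
    HL ρ φ (c * B) (c * l) := by
  obtain ⟨h1, h2, h3⟩ := h
  refine ⟨by positivity, by positivity, fun v h0 h4 h5 => ?_⟩
  have h6 := h3 v h0 h4 h5
  have h7 : 0 ≤ exp (pm (mm ρ) (-v)) * (1 - cos (φ - v)) :=
    mul_nonneg (exp_pos _).le (by linarith [cos_le_one (φ - v)])
  nlinarith only [hc0, hc1, h6, h7]

/-- any smaller coefficient -/
theorem HL_c {φ β σ B : ℝ} (hφ : 0 < φ) (hβ : HR φ β) (hσ0 : 0 ≤ σ) (hσ1 : σ ≤ 1) (hB : 0 < B)
    (hB1 : B ≤ β * exp (-(σ * (φ / mm ρ)))) :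
    HL ρ φ B (4 / 27 * (1 - σ) ^ (3 : ℕ) * (φ / mm ρ) * B * φ ^ (2 : ℕ)) := by
  have h := HL_sig (ρ := ρ) hφ hβ hσ0 hσ1
  set D := β * exp (-(σ * (φ / mm ρ))) with hD
  have hD0 : 0 < D := hB.trans_le hB1
  have h1 := HL_scale h (div_pos hB hD0) ((div_le_one hD0).2 hB1)
  have e1 : B / D * D = B := by field_simp
  have e2 : B / D * (4 / 27 * (1 - σ) ^ (3 : ℕ) * (φ / mm ρ) * D * φ ^ (2 : ℕ)) =
      4 / 27 * (1 - σ) ^ (3 : ℕ) * (φ / mm ρ) * B * φ ^ (2 : ℕ) := by field_simp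
  rwa [e1, e2] at h1

/-- The exponent of the main term: `lA = a y k`, `h' ≥ 1/(a k)`, condition (★). -/
theorem Pr.expM (h : Pr ρ t p y x) (hr : 0 < r) {B q lam k h' : ℝ} (hB : 0 < B)
    (hk : 0 < k) (hlA : SokamDz.lA ρ t = aa p * y * k) (hh : 1 ≤ h' * (aa p * k))
    (hst : (y + B * h') * (lam * x * B + q * y) ≤ B * y) :
    r * x ^ (2 : ℕ) * q ≤ r * (SokamDz.lA ρ t * B * t ^ (2 : ℕ) / (SokamDz.lA ρ t + B) -
      5 / 4 * lam * (t / mm ρ) * B * t ^ (2 : ℕ)) := by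
  have ha := aa_pos h.p0 h.p1
  have hy := h.y0
  have hak : 0 < aa p * k := mul_pos (by linarith) hk
  have ht2 : t ^ (2 : ℕ) = x ^ (2 : ℕ) / y := by rw [eq_div_iff hy.ne', h.ts]
  rw [hlA, h.tm, ht2]
  have hh' : 0 < h' := by
    by_contra hn
    nlinarith only [hh, hak, hn]
  have e : r * (aa p * y * k * B * (x ^ (2 : ℕ) / y) / (aa p * y * k + B) -
      5 / 4 * lam * (4 / 5 * x) * B * (x ^ (2 : ℕ) / y)) =
      r * x ^ (2 : ℕ) * (aa p * k * B / (aa p * y * k + B) - lam * x * B / y) := by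
    field_simp
  rw [e]
  have hx := h.x0
  refine mul_le_mul_of_nonneg_left ?_ (by positivity)
  have hD : 0 < aa p * y * k + B := by positivity
  have h1 : B / (y + B * h') ≤ aa p * k * B / (aa p * y * k + B) := by
    rw [div_le_div_iff₀ (by positivity) hD]
    have : B * (aa p * k * B * h') = (aa p * k * h') * B ^ (2 : ℕ) := by ring
    linarith only [mul_le_mul_of_nonneg_right hh (sq_nonneg B)]
  have h2 : q + lam * x * B / y ≤ B / (y + B * h') := by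
    rw [le_div_iff₀ (by positivity)]
    have e2 : (q + lam * x * B / y) * (y + B * h') =
        (y + B * h') * (lam * x * B + q * y) / y := by
      field_simp
      ring
    rw [e2, div_le_iff₀ hy]
    exact hst
  linarith

/-- from the polynomial inequality to (★) -/
theorem star_of {p y B kap L q : ℝ} (hp1 : p < 1)
    (hN : (y * (20 - 8 * p) + 25 * B * p * kap) * (L + q * y) ≤ B * y * (20 - 8 * p)) :
    (y + B * (kap * (25 * p / (20 - 8 * p)))) * (L + q * y) ≤ B * y := by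
  have hg : 0 < 20 - 8 * p := by linarith
  obtain ⟨g, hgd⟩ : ∃ g, g = 20 - 8 * p := ⟨_, rfl⟩
  rw [← hgd] at hg hN ⊢
  have e : (y + B * (kap * (25 * p / g))) * (L + q * y) =
      (y * g + 25 * B * p * kap) * (L + q * y) / g := by
    field_simp
  rw [e, div_le_iff₀ hg]
  exact hN

theorem aa_h {p k kap : ℝ} (h0 : 0 < p) (h1 : p < 1) (hk : 1 ≤ kap * k) :
    1 ≤ kap * (25 * p / (20 - 8 * p)) * (aa p * k) := by
  have hg : 0 < 20 - 8 * p := by linarith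
  unfold aa
  have e3 : 4 / (5 * p) - 8 / 25 = (20 - 8 * p) / (25 * p) := by
    field_simp
    ring
  rw [e3]
  obtain ⟨g, hgd⟩ : ∃ g, g = 20 - 8 * p := ⟨_, rfl⟩
  rw [← hgd] at hg ⊢
  have e : kap * (25 * p / g) * (g / (25 * p) * k) = kap * k := by
    field_simp
  rw [e]
  exact hk

/-- scaling of (★) from `x0` to `x ≥ x0` -/
theorem star_scale {y B0 B h lam x0 x q0 q nu kap : ℝ} (hy : 0 < y) (hB : 0 < B) (hB0 : B ≤ B0)
    (hh : 0 ≤ h) (hlam : 0 ≤ lam) (hx0 : 0 < x0) (hx : x0 ≤ x) (hq : 0 ≤ q) (hq0 : 0 < q0)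
    (hkap : 1 ≤ kap)
    (H : (y + B0 * h) * (lam * x0 * B0 + q0 * y) ≤ B0 * y)
    (hnu : lam * x0 * B0 ≤ nu * q0 * y)
    (hqq : kap * B0 * q * x0 ≤ B * q0 * (x0 - nu * (kap * x - x0))) :
    (y + B * (kap * h)) * (lam * x * B + q * y) ≤ B * y := by
  have hB00 : 0 < B0 := hB.trans_le hB0
  have hxx : 0 < x := hx0.trans_le hx
  have hw : 0 ≤ lam * x * B + q * y := by positivity
  have h1 : y + B * (kap * h) ≤ kap * (y + B0 * h) := by linarith only [mul_nonneg (sub_nonneg.2 hkap) hy.le, mul_nonneg (mul_nonneg (by linarith : (0:ℝ) ≤ kap) hh) (sub_nonneg.2 hB0)]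
  have hW0 : 0 < lam * x0 * B0 + q0 * y := by positivity
  -- `kap B0 (lam x B + q y) ≤ B (lam x0 B0 + q0 y)`
  have h2 : kap * B0 * (lam * x * B + q * y) ≤ B * (lam * x0 * B0 + q0 * y) := by
    have h3 : kap * B0 * q * x0 * y ≤ B * q0 * (x0 - nu * (kap * x - x0)) * y :=
      mul_le_mul_of_nonneg_right hqq hy.le
    have h4 : 0 ≤ kap * x - x0 := by nlinarith only [hx0, hx, hkap]
    have h5 : B * (kap * x - x0) * (lam * x0 * B0) ≤ B * (kap * x - x0) * (nu * q0 * y) :=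
      mul_le_mul_of_nonneg_left hnu (by positivity)
    have h6 : x0 * (kap * B0 * (lam * x * B + q * y)) ≤ x0 * (B * (lam * x0 * B0 + q0 * y)) := by
      linarith only [h3, h5]
    exact le_of_mul_le_mul_left h6 hx0
  have h7 : (y + B * (kap * h)) * (lam * x * B + q * y) * B0 ≤ B * y * B0 := by
    calc (y + B * (kap * h)) * (lam * x * B + q * y) * B0
        ≤ kap * (y + B0 * h) * (lam * x * B + q * y) * B0 :=
          mul_le_mul_of_nonneg_right (mul_le_mul_of_nonneg_right h1 hw) hB00.le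
      _ = (y + B0 * h) * (kap * B0 * (lam * x * B + q * y)) := by ring
      _ ≤ (y + B0 * h) * (B * (lam * x0 * B0 + q0 * y)) :=
          mul_le_mul_of_nonneg_left h2 (by positivity)
      _ = B * ((y + B0 * h) * (lam * x0 * B0 + q0 * y)) := by ring
      _ ≤ B * (B0 * y) := mul_le_mul_of_nonneg_left H hB.le
      _ = B * y * B0 := by ring
  exact le_of_mul_le_mul_right h7 hB00

/-- the factor in front -/
theorem PP_le {p y A B k S2 lo : ℝ} (h0 : 0 < p) (hA : A = aa p * y * k) (hAB : 0 < A + B)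
    (hS : 0 ≤ lo) (hlo : S2 ≤ lo ^ (2 : ℕ))
    (hN : 1 + 16 / 25 * y ≤ S2 * ((4 / 5 - 8 / 25 * p) * y * k + B * p)) :
    √(PP p y / (A + B)) ≤ lo := by
  rw [Real.sqrt_le_left hS]
  refine le_trans ?_ hlo
  unfold PP
  rw [div_le_iff₀ hAB, div_le_iff₀ h0]
  refine hN.trans (le_of_eq ?_)
  rw [hA]
  unfold aa
  field_simp

/-- the group of the main term, left -/
theorem Pr.GlM (h : Pr ρ t p y x) (hr : 0 < r) {B l E d S : ℝ} (hA : 0 < SokamDz.lA ρ t)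
    (hB : 0 < B) (hE : E ≤ r * (SokamDz.lA ρ t * B * t ^ (2 : ℕ) / (SokamDz.lA ρ t + B) - l))
    (hd : exp (-(E / 9)) ≤ d) (hS : √(PP p y / (SokamDz.lA ρ t + B)) ≤ S) :
    SokamDz.Kc r ρ * (20 / 3 * lM (8 / 9 * r) ρ t B l + lM r ρ t B l) ≤
      (5 + 7072 / 10000 * d) * S * exp (-(8 / 9 * E)) := by
  have hg := h.gauss hr (A := SokamDz.lA ρ t + B) (a := 20 / 3) (b := 1)
    (e := SokamDz.lA ρ t * B * t ^ (2 : ℕ) / (SokamDz.lA ρ t + B) - l) (by positivity) (by norm_num)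
    (by norm_num) hE hd
  have hd0 : 0 ≤ d := (exp_pos _).le.trans hd
  unfold lM
  rw [one_mul] at hg
  refine hg.trans ?_
  have h1 : (3 / 4 * (20 / 3) + 7072 / 10000 * 1 * d : ℝ) = 5 + 7072 / 10000 * d := by ring
  rw [h1]
  exact mul_le_mul_of_nonneg_right (mul_le_mul_of_nonneg_left hS (by positivity)) (exp_pos _).le

end SokamDz

end

/-! ### Lib_MP_af4de1_v3.DzRLc -/

section
/-!
# `PRealDL`, `X ≤ 80`, polynomial certificates in `p` (Bernstein form; helper7)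
-/

set_option autoImplicit false

namespace SokamDz

theorem cA1 {p : ℝ} (h0 : 0 ≤ p) (h1 : p ≤ 331/500) :
    ((1 - p ^ (2 : ℕ)) * (20 - 8 * p) + 25 * (467/1000) * p * (1)) * ((5137/140625) + 3621/10000 * (1 - p ^ (2 : ℕ))) ≤
      467/1000 * (1 - p ^ (2 : ℕ)) * (20 - 8 * p) := by
  obtain ⟨s, hs⟩ : ∃ s, s = p - 0 := ⟨_, rfl⟩
  obtain ⟨w, hw⟩ : ∃ w, w = 331/500 - p := ⟨_, rfl⟩
  have s0 : 0 ≤ s := by rw [hs]; linarith only [h0]
  have w0 : 0 ≤ w := by rw [hw]; linarith only [h1]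
  have e : 467/1000 * (1 - p ^ (2 : ℕ)) * (20 - 8 * p) -
    (((1 - p ^ (2 : ℕ)) * (20 - 8 * p) + 25 * (467/1000) * p * (1)) * ((5137/140625) + 3621/10000 * (1 - p ^ (2 : ℕ)))) =
      384582500000000/35758762295859 * s ^ (0 : ℕ) * w ^ (5 : ℕ) +
      954557934568750/35758762295859 * s ^ (1 : ℕ) * w ^ (4 : ℕ) +
      232162207465000/11919587431953 * s ^ (2 : ℕ) * w ^ (3 : ℕ) +
      963060112227619/95356699455624 * s ^ (3 : ℕ) * w ^ (2 : ℕ) +
      182624960394727/47678349727812 * s ^ (4 : ℕ) * w ^ (1 : ℕ) +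
      29591743277912381/178793811479295000 * s ^ (5 : ℕ) * w ^ (0 : ℕ) := by
    rw [hs, hw]; ring
  have hp : 0 ≤ 467/1000 * (1 - p ^ (2 : ℕ)) * (20 - 8 * p) -
    (((1 - p ^ (2 : ℕ)) * (20 - 8 * p) + 25 * (467/1000) * p * (1)) * ((5137/140625) + 3621/10000 * (1 - p ^ (2 : ℕ)))) := by rw [e]; positivity
  linarith only [hp]

theorem cB1 {p : ℝ} (h0 : 6619/10000 ≤ p) (h1 : p ≤ 913/1000) :
    ((1 - p ^ (2 : ℕ)) * (20 - 8 * p) + 25 * (771/2000) * p * (1)) * ((25443/2000000) + 3621/10000 * (1 - p ^ (2 : ℕ))) ≤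
      771/2000 * (1 - p ^ (2 : ℕ)) * (20 - 8 * p) := by
  obtain ⟨s, hs⟩ : ∃ s, s = p - 6619/10000 := ⟨_, rfl⟩
  obtain ⟨w, hw⟩ : ∃ w, w = 913/1000 - p := ⟨_, rfl⟩
  have s0 : 0 ≤ s := by rw [hs]; linarith only [h0]
  have w0 : 0 ≤ w := by rw [hw]; linarith only [h1]
  have e : 771/2000 * (1 - p ^ (2 : ℕ)) * (20 - 8 * p) -
    (((1 - p ^ (2 : ℕ)) * (20 - 8 * p) + 25 * (771/2000) * p * (1)) * ((25443/2000000) + 3621/10000 * (1 - p ^ (2 : ℕ)))) =
      92383457829684319027/4621466533364516250 * s ^ (0 : ℕ) * w ^ (5 : ℕ) +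
      29648001311429151079/92429330667290325 * s ^ (1 : ℕ) * w ^ (4 : ℕ) +
      17383031263688417707/18485866133458065 * s ^ (2 : ℕ) * w ^ (3 : ℕ) +
      3713013665822307878/3697173226691613 * s ^ (3 : ℕ) * w ^ (2 : ℕ) +
      1404881920682206780/3697173226691613 * s ^ (4 : ℕ) * w ^ (1 : ℕ) +
      67171192807244120/3697173226691613 * s ^ (5 : ℕ) * w ^ (0 : ℕ) := by
    rw [hs, hw]; ring
  have hp : 0 ≤ 771/2000 * (1 - p ^ (2 : ℕ)) * (20 - 8 * p) -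
    (((1 - p ^ (2 : ℕ)) * (20 - 8 * p) + 25 * (771/2000) * p * (1)) * ((25443/2000000) + 3621/10000 * (1 - p ^ (2 : ℕ)))) := by rw [e]; positivity
  linarith only [hp]

theorem cA0 {p : ℝ} (h0 : 0 ≤ p) (h1 : p ≤ 119/500) :
    ((1 - p ^ (2 : ℕ)) * (20 - 8 * p) + 25 * (239/500) * p * (1)) * ((3346/84375) + 1933/5000 * (1 - p ^ (2 : ℕ))) ≤
      239/500 * (1 - p ^ (2 : ℕ)) * (20 - 8 * p) := by
  obtain ⟨s, hs⟩ : ∃ s, s = p - 0 := ⟨_, rfl⟩
  obtain ⟨w, hw⟩ : ∃ w, w = 119/500 - p := ⟨_, rfl⟩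
  have s0 : 0 ≤ s := by rw [hs]; linarith only [h0]
  have w0 : 0 ≤ w := by rw [hw]; linarith only [h1]
  have e : 239/500 * (1 - p ^ (2 : ℕ)) * (20 - 8 * p) -
    (((1 - p ^ (2 : ℕ)) * (20 - 8 * p) + 25 * (239/500) * p * (1)) * ((3346/84375) + 1933/5000 * (1 - p ^ (2 : ℕ)))) =
      873175000000000/644315488173 * s ^ (0 : ℕ) * w ^ (5 : ℕ) +
      1086619169875000/214771829391 * s ^ (1 : ℕ) * w ^ (4 : ℕ) +
      4627758289300000/644315488173 * s ^ (2 : ℕ) * w ^ (3 : ℕ) +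
      6155917130723635/1288630976346 * s ^ (3 : ℕ) * w ^ (2 : ℕ) +
      925265169581813/644315488173 * s ^ (4 : ℕ) * w ^ (1 : ℕ) +
      112968903546021193/805394360216250 * s ^ (5 : ℕ) * w ^ (0 : ℕ) := by
    rw [hs, hw]; ring
  have hp : 0 ≤ 239/500 * (1 - p ^ (2 : ℕ)) * (20 - 8 * p) -
    (((1 - p ^ (2 : ℕ)) * (20 - 8 * p) + 25 * (239/500) * p * (1)) * ((3346/84375) + 1933/5000 * (1 - p ^ (2 : ℕ)))) := by rw [e]; positivity
  linarith only [hp]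

theorem cT1_0 {p : ℝ} (h0 : 0 ≤ p) (h1 : p ≤ 913/2000) :
    ((1 - p ^ (2 : ℕ)) * (20 - 8 * p) + 25 * (49 / 100) * p * 1) * (4 / 75 * (1 - p ^ (2 : ℕ) + 1 / 4) * (49 / 100) + 397 / 1000 * (1 - p ^ (2 : ℕ))) ≤
      49 / 100 * (1 - p ^ (2 : ℕ)) * (20 - 8 * p) := by
  obtain ⟨s, hs⟩ : ∃ s, s = p - 0 := ⟨_, rfl⟩
  obtain ⟨w, hw⟩ : ∃ w, w = 913/2000 - p := ⟨_, rfl⟩
  have s0 : 0 ≤ s := by rw [hs]; linarith only [h0]
  have w0 : 0 ≤ w := by rw [hw]; linarith only [h1]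
  have e : 49 / 100 * (1 - p ^ (2 : ℕ)) * (20 - 8 * p) -
    (((1 - p ^ (2 : ℕ)) * (20 - 8 * p) + 25 * (49 / 100) * p * 1) * (4 / 75 * (1 - p ^ (2 : ℕ) + 1 / 4) * (49 / 100) + 397 / 1000 * (1 - p ^ (2 : ℕ)))) =
      115840000000000000/1903159303787379 * s ^ (0 : ℕ) * w ^ (5 : ℕ) +
      327383644000000000/1903159303787379 * s ^ (1 : ℕ) * w ^ (4 : ℕ) +
      98765205312000000/634386434595793 * s ^ (2 : ℕ) * w ^ (3 : ℕ) +
      103816251058184600/1903159303787379 * s ^ (3 : ℕ) * w ^ (2 : ℕ) +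
      13799172692776664/1903159303787379 * s ^ (4 : ℕ) * w ^ (1 : ℕ) +
      735759181999538171/1189474564867111875 * s ^ (5 : ℕ) * w ^ (0 : ℕ) := by
    rw [hs, hw]; ring
  have hp : 0 ≤ 49 / 100 * (1 - p ^ (2 : ℕ)) * (20 - 8 * p) -
    (((1 - p ^ (2 : ℕ)) * (20 - 8 * p) + 25 * (49 / 100) * p * 1) * (4 / 75 * (1 - p ^ (2 : ℕ) + 1 / 4) * (49 / 100) + 397 / 1000 * (1 - p ^ (2 : ℕ)))) := by rw [e]; positivity
  linarith only [hp]

theorem cT1_1 {p : ℝ} (h0 : 913/2000 ≤ p) (h1 : p ≤ 913/1000) :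
    ((1 - p ^ (2 : ℕ)) * (20 - 8 * p) + 25 * (49 / 100) * p * 1) * (4 / 75 * (1 - p ^ (2 : ℕ) + 1 / 4) * (49 / 100) + 397 / 1000 * (1 - p ^ (2 : ℕ))) ≤
      49 / 100 * (1 - p ^ (2 : ℕ)) * (20 - 8 * p) := by
  obtain ⟨s, hs⟩ : ∃ s, s = p - 913/2000 := ⟨_, rfl⟩
  obtain ⟨w, hw⟩ : ∃ w, w = 913/1000 - p := ⟨_, rfl⟩
  have s0 : 0 ≤ s := by rw [hs]; linarith only [h0]
  have w0 : 0 ≤ w := by rw [hw]; linarith only [h1]
  have e : 49 / 100 * (1 - p ^ (2 : ℕ)) * (20 - 8 * p) -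
    (((1 - p ^ (2 : ℕ)) * (20 - 8 * p) + 25 * (49 / 100) * p * 1) * (4 / 75 * (1 - p ^ (2 : ℕ) + 1 / 4) * (49 / 100) + 397 / 1000 * (1 - p ^ (2 : ℕ)))) =
      4708858764797044294400/1586414597698741725651 * s ^ (0 : ℕ) * w ^ (7 : ℕ) +
      1309614406457875532800/1586414597698741725651 * s ^ (1 : ℕ) * w ^ (6 : ℕ) +
      150538481174291541958400/1586414597698741725651 * s ^ (2 : ℕ) * w ^ (5 : ℕ) +
      674379238518031834048000/1586414597698741725651 * s ^ (3 : ℕ) * w ^ (4 : ℕ) +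
      347078855213415558144000/528804865899580575217 * s ^ (4 : ℕ) * w ^ (3 : ℕ) +
      687830180001763024076800/1586414597698741725651 * s ^ (5 : ℕ) * w ^ (2 : ℕ) +
      57223628789541198131200/528804865899580575217 * s ^ (6 : ℕ) * w ^ (1 : ℕ) +
      4635759021706121420800/1586414597698741725651 * s ^ (7 : ℕ) * w ^ (0 : ℕ) := by
    rw [hs, hw]; ring
  have hp : 0 ≤ 49 / 100 * (1 - p ^ (2 : ℕ)) * (20 - 8 * p) -
    (((1 - p ^ (2 : ℕ)) * (20 - 8 * p) + 25 * (49 / 100) * p * 1) * (4 / 75 * (1 - p ^ (2 : ℕ) + 1 / 4) * (49 / 100) + 397 / 1000 * (1 - p ^ (2 : ℕ)))) := by rw [e]; positivity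
  linarith only [hp]

theorem cT1 {p : ℝ} (h0 : 0 ≤ p) (h1 : p ≤ 913/1000) :
    ((1 - p ^ (2 : ℕ)) * (20 - 8 * p) + 25 * (49 / 100) * p * 1) * (4 / 75 * (1 - p ^ (2 : ℕ) + 1 / 4) * (49 / 100) + 397 / 1000 * (1 - p ^ (2 : ℕ))) ≤
      49 / 100 * (1 - p ^ (2 : ℕ)) * (20 - 8 * p) := by
  rcases le_total p (913/2000) with h | h
  · exact cT1_0 (by linarith only [h0]) h
  exact cT1_1 (by linarith only [h]) h1

theorem sA1 {p : ℝ} (h0 : 0 ≤ p) (h1 : p ≤ 331/500) :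
    1 + 16 / 25 * (1 - p ^ (2 : ℕ)) ≤
      213/100 * ((4 / 5 - 8 / 25 * p) * (1 - p ^ (2 : ℕ)) * (1) + 467/1000 * p) := by
  obtain ⟨s, hs⟩ : ∃ s, s = p - 0 := ⟨_, rfl⟩
  obtain ⟨w, hw⟩ : ∃ w, w = 331/500 - p := ⟨_, rfl⟩
  have s0 : 0 ≤ s := by rw [hs]; linarith only [h0]
  have w0 : 0 ≤ w := by rw [hw]; linarith only [h1]
  have e : 213/100 * ((4 / 5 - 8 / 25 * p) * (1 - p ^ (2 : ℕ)) * (1) + 467/1000 * p) -
    (1 + 16 / 25 * (1 - p ^ (2 : ℕ))) =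
      8000000/36264691 * s ^ (0 : ℕ) * w ^ (3 : ℕ) +
      99819705/72529382 * s ^ (1 : ℕ) * w ^ (2 : ℕ) +
      17533253/36264691 * s ^ (2 : ℕ) * w ^ (1 : ℕ) +
      426767357/45330863750 * s ^ (3 : ℕ) * w ^ (0 : ℕ) := by
    rw [hs, hw]; ring
  have hp : 0 ≤ 213/100 * ((4 / 5 - 8 / 25 * p) * (1 - p ^ (2 : ℕ)) * (1) + 467/1000 * p) -
    (1 + 16 / 25 * (1 - p ^ (2 : ℕ))) := by rw [e]; positivity
  linarith only [hp]

theorem sA2 {p : ℝ} (h0 : 0 ≤ p) (h1 : p ≤ 331/500) :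
    1 + 16 / 25 * (1 - p ^ (2 : ℕ)) ≤
      221/100 * ((4 / 5 - 8 / 25 * p) * (1 - p ^ (2 : ℕ)) * (987/1000) + 11/25 * p) := by
  obtain ⟨s, hs⟩ : ∃ s, s = p - 0 := ⟨_, rfl⟩
  obtain ⟨w, hw⟩ : ∃ w, w = 331/500 - p := ⟨_, rfl⟩
  have s0 : 0 ≤ s := by rw [hs]; linarith only [h0]
  have w0 : 0 ≤ w := by rw [hw]; linarith only [h1]
  have e : 221/100 * ((4 / 5 - 8 / 25 * p) * (1 - p ^ (2 : ℕ)) * (987/1000) + 11/25 * p) -
    (1 + 16 / 25 * (1 - p ^ (2 : ℕ))) =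
      13127000/36264691 * s ^ (0 : ℕ) * w ^ (3 : ℕ) +
      310435352/181323455 * s ^ (1 : ℕ) * w ^ (2 : ℕ) +
      6064952953/9066172750 * s ^ (2 : ℕ) * w ^ (1 : ℕ) +
      191477445007/11332715937500 * s ^ (3 : ℕ) * w ^ (0 : ℕ) := by
    rw [hs, hw]; ring
  have hp : 0 ≤ 221/100 * ((4 / 5 - 8 / 25 * p) * (1 - p ^ (2 : ℕ)) * (987/1000) + 11/25 * p) -
    (1 + 16 / 25 * (1 - p ^ (2 : ℕ))) := by rw [e]; positivity
  linarith only [hp]

theorem sB1 {p : ℝ} (h0 : 6619/10000 ≤ p) (h1 : p ≤ 913/1000) :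
    1 + 16 / 25 * (1 - p ^ (2 : ℕ)) ≤
      127/50 * ((4 / 5 - 8 / 25 * p) * (1 - p ^ (2 : ℕ)) * (1) + 771/2000 * p) := by
  obtain ⟨s, hs⟩ : ∃ s, s = p - 6619/10000 := ⟨_, rfl⟩
  obtain ⟨w, hw⟩ : ∃ w, w = 913/1000 - p := ⟨_, rfl⟩
  have s0 : 0 ≤ s := by rw [hs]; linarith only [h0]
  have w0 : 0 ≤ w := by rw [hw]; linarith only [h1]
  have e : 127/50 * ((4 / 5 - 8 / 25 * p) * (1 - p ^ (2 : ℕ)) * (1) + 771/2000 * p) -
    (1 + 16 / 25 * (1 - p ^ (2 : ℕ))) =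
      79981014601772/9895099269375 * s ^ (0 : ℕ) * w ^ (3 : ℕ) +
      9634288852888/659673284625 * s ^ (1 : ℕ) * w ^ (2 : ℕ) +
      771107589752/131934656925 * s ^ (2 : ℕ) * w ^ (1 : ℕ) +
      10739901808/79160794155 * s ^ (3 : ℕ) * w ^ (0 : ℕ) := by
    rw [hs, hw]; ring
  have hp : 0 ≤ 127/50 * ((4 / 5 - 8 / 25 * p) * (1 - p ^ (2 : ℕ)) * (1) + 771/2000 * p) -
    (1 + 16 / 25 * (1 - p ^ (2 : ℕ))) := by rw [e]; positivity
  linarith only [hp]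

theorem sB2 {p : ℝ} (h0 : 6619/10000 ≤ p) (h1 : p ≤ 913/1000) :
    1 + 16 / 25 * (1 - p ^ (2 : ℕ)) ≤
      283/100 * ((4 / 5 - 8 / 25 * p) * (1 - p ^ (2 : ℕ)) * (987/1000) + 1693/5000 * p) := by
  obtain ⟨s, hs⟩ : ∃ s, s = p - 6619/10000 := ⟨_, rfl⟩
  obtain ⟨w, hw⟩ : ∃ w, w = 913/1000 - p := ⟨_, rfl⟩
  have s0 : 0 ≤ s := by rw [hs]; linarith only [h0]
  have w0 : 0 ≤ w := by rw [hw]; linarith only [h1]
  have e : 283/100 * ((4 / 5 - 8 / 25 * p) * (1 - p ^ (2 : ℕ)) * (987/1000) + 1693/5000 * p) -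
    (1 + 16 / 25 * (1 - p ^ (2 : ℕ))) =
      61812561230301539/4947549634687500 * s ^ (0 : ℕ) * w ^ (3 : ℕ) +
      3901241711917253/164918321156250 * s ^ (1 : ℕ) * w ^ (2 : ℕ) +
      173964842244731/16491832115625 * s ^ (2 : ℕ) * w ^ (1 : ℕ) +
      2774033966074/9895099269375 * s ^ (3 : ℕ) * w ^ (0 : ℕ) := by
    rw [hs, hw]; ring
  have hp : 0 ≤ 283/100 * ((4 / 5 - 8 / 25 * p) * (1 - p ^ (2 : ℕ)) * (987/1000) + 1693/5000 * p) -
    (1 + 16 / 25 * (1 - p ^ (2 : ℕ))) := by rw [e]; positivity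
  linarith only [hp]

theorem sA0 {p : ℝ} (h0 : 0 ≤ p) (h1 : p ≤ 119/500) :
    1 + 16 / 25 * (1 - p ^ (2 : ℕ)) ≤
      103/50 * ((4 / 5 - 8 / 25 * p) * (1 - p ^ (2 : ℕ)) * (1) + 239/500 * p) := by
  obtain ⟨s, hs⟩ : ∃ s, s = p - 0 := ⟨_, rfl⟩
  obtain ⟨w, hw⟩ : ∃ w, w = 119/500 - p := ⟨_, rfl⟩
  have s0 : 0 ≤ s := by rw [hs]; linarith only [h0]
  have w0 : 0 ≤ w := by rw [hw]; linarith only [h1]
  have e : 103/50 * ((4 / 5 - 8 / 25 * p) * (1 - p ^ (2 : ℕ)) * (1) + 239/500 * p) -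
    (1 + 16 / 25 * (1 - p ^ (2 : ℕ))) =
      1000000/1685159 * s ^ (0 : ℕ) * w ^ (3 : ℕ) +
      12683030/1685159 * s ^ (1 : ℕ) * w ^ (2 : ℕ) +
      15228916/1685159 * s ^ (2 : ℕ) * w ^ (1 : ℕ) +
      2910464258/1053224375 * s ^ (3 : ℕ) * w ^ (0 : ℕ) := by
    rw [hs, hw]; ring
  have hp : 0 ≤ 103/50 * ((4 / 5 - 8 / 25 * p) * (1 - p ^ (2 : ℕ)) * (1) + 239/500 * p) -
    (1 + 16 / 25 * (1 - p ^ (2 : ℕ))) := by rw [e]; positivity
  linarith only [hp]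

theorem sT1_0 {p : ℝ} (h0 : 0 ≤ p) (h1 : p ≤ 913/2000) :
    1 + 16 / 25 * (1 - p ^ (2 : ℕ)) ≤
      21/10 * ((4 / 5 - 8 / 25 * p) * (1 - p ^ (2 : ℕ)) * (1) + 49/100 * p) := by
  obtain ⟨s, hs⟩ : ∃ s, s = p - 0 := ⟨_, rfl⟩
  obtain ⟨w, hw⟩ : ∃ w, w = 913/2000 - p := ⟨_, rfl⟩
  have s0 : 0 ≤ s := by rw [hs]; linarith only [h0]
  have w0 : 0 ≤ w := by rw [hw]; linarith only [h1]
  have e : 21/10 * ((4 / 5 - 8 / 25 * p) * (1 - p ^ (2 : ℕ)) * (1) + 49/100 * p) -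
    (1 + 16 / 25 * (1 - p ^ (2 : ℕ))) =
      320000000/761048497 * s ^ (0 : ℕ) * w ^ (3 : ℕ) +
      2263764000/761048497 * s ^ (1 : ℕ) * w ^ (2 : ℕ) +
      1833704480/761048497 * s ^ (2 : ℕ) * w ^ (1 : ℕ) +
      50170633748/95131062125 * s ^ (3 : ℕ) * w ^ (0 : ℕ) := by
    rw [hs, hw]; ring
  have hp : 0 ≤ 21/10 * ((4 / 5 - 8 / 25 * p) * (1 - p ^ (2 : ℕ)) * (1) + 49/100 * p) -
    (1 + 16 / 25 * (1 - p ^ (2 : ℕ))) := by rw [e]; positivity
  linarith only [hp]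

theorem sT1_1 {p : ℝ} (h0 : 913/2000 ≤ p) (h1 : p ≤ 913/1000) :
    1 + 16 / 25 * (1 - p ^ (2 : ℕ)) ≤
      21/10 * ((4 / 5 - 8 / 25 * p) * (1 - p ^ (2 : ℕ)) * (1) + 49/100 * p) := by
  obtain ⟨s, hs⟩ : ∃ s, s = p - 913/2000 := ⟨_, rfl⟩
  obtain ⟨w, hw⟩ : ∃ w, w = 913/1000 - p := ⟨_, rfl⟩
  have s0 : 0 ≤ s := by rw [hs]; linarith only [h0]
  have w0 : 0 ≤ w := by rw [hw]; linarith only [h1]
  have e : 21/10 * ((4 / 5 - 8 / 25 * p) * (1 - p ^ (2 : ℕ)) * (1) + 49/100 * p) -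
    (1 + 16 / 25 * (1 - p ^ (2 : ℕ))) =
      6421841119744000000000/528804865899580575217 * s ^ (0 : ℕ) * w ^ (7 : ℕ) +
      34879139517440000000000/528804865899580575217 * s ^ (1 : ℕ) * w ^ (6 : ℕ) +
      71223377589248000000000/528804865899580575217 * s ^ (2 : ℕ) * w ^ (5 : ℕ) +
      65877027815424000000000/528804865899580575217 * s ^ (3 : ℕ) * w ^ (4 : ℕ) +
      24092686526976000000000/528804865899580575217 * s ^ (4 : ℕ) * w ^ (3 : ℕ) +
      921239333888000000000/528804865899580575217 * s ^ (5 : ℕ) * w ^ (2 : ℕ) +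
      1277591668736000000000/528804865899580575217 * s ^ (6 : ℕ) * w ^ (1 : ℕ) +
      1338090237952000000000/528804865899580575217 * s ^ (7 : ℕ) * w ^ (0 : ℕ) := by
    rw [hs, hw]; ring
  have hp : 0 ≤ 21/10 * ((4 / 5 - 8 / 25 * p) * (1 - p ^ (2 : ℕ)) * (1) + 49/100 * p) -
    (1 + 16 / 25 * (1 - p ^ (2 : ℕ))) := by rw [e]; positivity
  linarith only [hp]

theorem sT1 {p : ℝ} (h0 : 0 ≤ p) (h1 : p ≤ 913/1000) :
    1 + 16 / 25 * (1 - p ^ (2 : ℕ)) ≤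
      21/10 * ((4 / 5 - 8 / 25 * p) * (1 - p ^ (2 : ℕ)) * (1) + 49/100 * p) := by
  rcases le_total p (913/2000) with h | h
  · exact sT1_0 (by linarith only [h0]) h
  exact sT1_1 (by linarith only [h]) h1

end SokamDz

end

/-! ### Lib_MP_af4de1_v3.DzRL2 -/

section
namespace SokamCen
end SokamCen
namespace SokamV3
end SokamV3
/-!
# `PRealDL`, `X ≤ 80`, stage 2: the main term for `t ≤ 14/5` (helper7)
-/

set_option autoImplicit false

namespace SokamDz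

open Real MeasureTheory Set SokamCen SokamV3

variable {r ρ t p y x X : ℝ}

/-- The main term is at most `c` times the claim. -/
def LMok (r ρ t X c : ℝ) : Prop := ∃ B l : ℝ, HL ρ t B l ∧
  l ≤ lA ρ t * B * t ^ (2 : ℕ) / (lA ρ t + B) ∧
  Kc r ρ * (20 / 3 * lM (8 / 9 * r) ρ t B l + lM r ρ t B l) ≤
    c * (54 / 125 * exp (-(17 / 100 * X)))

theorem LMok.mono {c c' : ℝ} (h : LMok r ρ t X c) (hc : c ≤ c') : LMok r ρ t X c' := by
  obtain ⟨B, l, h1, h2, h3⟩ := h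
  exact ⟨B, l, h1, h2, h3.trans (mul_le_mul_of_nonneg_right hc (by positivity))⟩

theorem Pr.k_pos (h : Pr ρ t p y x) : 0 < min 1 (mm ρ / t) :=
  lt_min one_pos (div_pos h.m0 h.t0)

theorem Pr.k_one (h : Pr ρ t p y x) (hx : x ≤ 5 / 4) : min 1 (mm ρ / t) = 1 := by
  refine min_eq_left ?_
  have hx0 := h.x0
  rw [h.mt, le_div_iff₀ (by positivity)]
  linarith only [hx]

theorem Pr.k_ge (h : Pr ρ t p y x) (hx : x ≤ 6331 / 5000) : 987 / 1000 ≤ min 1 (mm ρ / t) := by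
  refine le_min (by norm_num) ?_
  have hx0 := h.x0
  rw [h.mt, le_div_iff₀ (by positivity)]
  linarith only [hx]

theorem Pr.lmF (h : Pr ρ t p y x) (hr : 0 < r) {β σ B q h' S E0 ex c : ℝ} (hX : X = r * x ^ (2 : ℕ))
    (hβ : HR t β) (hσ0 : 0 ≤ σ) (hσ1 : σ ≤ 1) (hB : 0 < B) (hB1 : B ≤ β * exp (-(σ * (4 / 5 * x))))
    (hh : 1 ≤ h' * (aa p * min 1 (mm ρ / t)))
    (hst : (y + B * h') * ((4 / 5 * (4 / 27 * (1 - σ) ^ (3 : ℕ))) * x * B + q * y) ≤ B * y)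
    (hq : 0 ≤ q) (hS0 : 0 ≤ S) (hS : √(PP p y / (SokamDz.lA ρ t + B)) ≤ S)
    (hE : E0 ≤ (8 / 9 * q - 17 / 100) * X) (hex : exp (-E0) ≤ ex)
    (hc : (5 + 7072 / 10000) * S * ex ≤ c * (54 / 125)) : LMok r ρ t X c := by
  have hk := h.k_pos
  have ha := aa_pos h.p0 h.p1
  have hy := h.y0
  have hx := h.x0
  have hlA := h.lA
  have hA : 0 < SokamDz.lA ρ t := by
    rw [hlA]
    exact mul_pos (mul_pos (by linarith only [ha]) hy) hk
  have hHL := HL_c (ρ := ρ) h.t0 hβ hσ0 hσ1 hB (by rw [h.tm]; exact hB1)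
  have hE1 := h.expM hr hB hk hlA hh hst
  have e1 : 5 / 4 * (4 / 5 * (4 / 27 * (1 - σ) ^ (3 : ℕ))) * (t / mm ρ) * B * t ^ (2 : ℕ) =
      4 / 27 * (1 - σ) ^ (3 : ℕ) * (t / mm ρ) * B * t ^ (2 : ℕ) := by ring
  rw [e1, ← hX] at hE1
  have hX0 : 0 < X := by rw [hX]; (clear * - hr hx; positivity)
  have hXq : 0 ≤ X * q := by (clear * - hX0 hq; positivity)
  refine ⟨B, _, hHL, ?_, ?_⟩
  · have h2 : 0 ≤ r * (SokamDz.lA ρ t * B * t ^ (2 : ℕ) / (SokamDz.lA ρ t + B) -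
        4 / 27 * (1 - σ) ^ (3 : ℕ) * (t / mm ρ) * B * t ^ (2 : ℕ)) := hXq.trans hE1
    have h3 := (mul_nonneg_iff_of_pos_left hr).1 h2
    linarith only [h3]
  · have hd : exp (-(X * q / 9)) ≤ 1 := exp_le_one_iff.2 (by linarith only [hXq])
    have h4 := h.GlM hr (d := 1) hA hB hE1 hd hS
    refine h4.trans ?_
    have h5 : exp (-(8 / 9 * (X * q))) ≤ ex * exp (-(17 / 100 * X)) := by
      calc exp (-(8 / 9 * (X * q))) ≤ exp (-E0) * exp (-(17 / 100 * X)) := by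
            rw [← Real.exp_add]
            exact Real.exp_le_exp.2 (by linarith only [hE])
        _ ≤ _ := mul_le_mul_of_nonneg_right hex (exp_pos _).le
    calc (5 + 7072 / 10000 * 1) * S * exp (-(8 / 9 * (X * q))) ≤
        (5 + 7072 / 10000 * 1) * S * (ex * exp (-(17 / 100 * X))) :=
          mul_le_mul_of_nonneg_left h5 (by (clear * - hS0; positivity))
      _ = (5 + 7072 / 10000) * S * ex * exp (-(17 / 100 * X)) := by ring
      _ ≤ c * (54 / 125) * exp (-(17 / 100 * X)) := mul_le_mul_of_nonneg_right hc (exp_pos _).le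
      _ = _ := by ring

theorem PP_le' {p y A B k k' S2 lo : ℝ} (h0 : 0 < p) (h1 : p < 1) (hy : 0 < y)
    (hA : A = aa p * y * k) (hk : k' ≤ k) (hk0 : 0 < k') (hB : 0 < B) (hS2 : 0 ≤ S2)
    (hS : 0 ≤ lo) (hlo : S2 ≤ lo ^ (2 : ℕ))
    (hN : 1 + 16 / 25 * y ≤ S2 * ((4 / 5 - 8 / 25 * p) * y * k' + B * p)) :
    √(PP p y / (A + B)) ≤ lo := by
  have ha := aa_pos h0 h1
  have hA0 : 0 < A := by rw [hA]; exact mul_pos (mul_pos (by linarith only [ha]) hy) (by linarith only [hk, hk0])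
  refine PP_le h0 hA (by linarith only [hB, hA0]) hS hlo (hN.trans ?_)
  refine mul_le_mul_of_nonneg_left ?_ hS2
  have : (4 / 5 - 8 / 25 * p) * y * k' ≤ (4 / 5 - 8 / 25 * p) * y * k :=
    mul_le_mul_of_nonneg_left hk (mul_nonneg (by linarith only [h1]) hy.le)
  linarith only [this]

/-- `HR t (1/2 - x²/(24 y))`-type bounds -/
theorem Pr.HRq (h : Pr ρ t p y x) {β : ℝ} (hβ0 : 0 < β) (ht : t ≤ 3)
    (hβ : β ≤ 1 / 2 - t ^ (2 : ℕ) / 24) : HR t β := by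
  have h1 := HR_quad h.t0.le ht
  refine ⟨hβ0, fun u h0 h2 h3 => le_trans ?_ (h1.2 u h0 h2 h3)⟩
  exact mul_le_mul_of_nonneg_right hβ (sq_nonneg u)

/-- the range of `p` from the range of `y` -/
theorem Pr.p_le (h : Pr ρ t p y x) {a : ℝ} (ha : 0 ≤ a) (hy : 1 - a ^ (2 : ℕ) ≤ y) : p ≤ a := by
  have := h.hy
  exact abs_le_of_sq_le_sq' (by linarith only [hy, this]) ha |>.2

theorem Pr.le_p (h : Pr ρ t p y x) {a : ℝ} (hy : y ≤ 1 - a ^ (2 : ℕ)) : a ≤ p := by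
  have := h.hy
  exact abs_le_of_sq_le_sq' (by linarith only [hy, this]) h.p0.le |>.2

/-- `t < 9/20`, `y ≥ 1/6` -/
theorem Pr.lmT (h : Pr ρ t p y x) (hr : 499 / 10 ≤ r) (hX : X = r * x ^ (2 : ℕ)) (hX1 : 108 / 5 ≤ X)
    (ht : t ≤ 9 / 20) (hy : 1 / 6 ≤ y) : LMok r ρ t X (369 / 1000) := by
  have hr0 : 0 < r := by linarith only [hr, hX]
  have hy0 := h.y0
  have hx0 := h.x0
  have ht0 := h.t0
  have hp0 := h.p0
  have hp : p ≤ 913 / 1000 := h.p_le (by norm_num) (by linarith only [hy])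
  have hts := h.ts
  have hx1 : x ≤ 9 / 20 * (y + 1 / 4) := by
    refine abs_le_of_sq_le_sq' ?_ (by positivity) |>.2
    rw [← hts]
    have h1 : t ^ (2 : ℕ) ≤ (9 / 20) ^ (2 : ℕ) := pow_le_pow_left₀ ht0.le ht 2
    nlinarith only [h1, sq_nonneg (y - 1 / 4)]
  have hx2 : x ≤ 5 / 4 := by
    have := h.y1
    linarith only [hx1, this]
  have hk1 := h.k_one hx2
  have hc := cT1 hp0.le hp
  rw [← h.hy] at hc
  refine h.lmF hr0 (β := 1 / 2 - t ^ (2 : ℕ) / 24) (σ := 0) (B := 49 / 100) (q := 397 / 1000)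
    (h' := 1 * (25 * p / (20 - 8 * p))) (S := 14492 / 10000) (E0 := 39503 / 10000)
    (ex := 1926 / 100000) hX (HR_quad ht0.le (by linarith only [ht])) le_rfl zero_le_one (by norm_num) ?_ ?_ ?_
    (by norm_num) (by norm_num) ?_ ?_ ?_ (by norm_num)
  · rw [zero_mul, neg_zero, Real.exp_zero, mul_one]
    nlinarith only [ht, ht0]
  · rw [hk1]
    exact aa_h hp0 h.p1 (by norm_num)
  · refine star_of h.p1 (le_trans ?_ hc)
    have h20 : 0 < 20 - 8 * p := by linarith only [h.p1]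
    refine mul_le_mul_of_nonneg_left ?_ (by (clear * - hy h20 hp0; positivity))
    linarith only [hx1]
  · have hs := sT1 hp0.le hp
    rw [← h.hy] at hs
    refine PP_le' hp0 h.p1 hy0 h.lA (le_of_eq hk1.symm) one_pos (by norm_num)
      (by norm_num : (0 : ℝ) ≤ 21 / 10) (by norm_num) (by norm_num) ?_
    exact hs
  · linarith only [hX1]
  · exact ex_neg 3 (9503 / 10000) (by norm_num) (by norm_num) (by norm_num) (by norm_num)

/-- `y ≥ 4717/5000` (`R ≤ 1.06`), `x ≤ 7/10` -/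
theorem Pr.lmA0 (h : Pr ρ t p y x) (hr : 499 / 10 ≤ r) (hX : X = r * x ^ (2 : ℕ)) (hX1 : 108 / 5 ≤ X)
    (hx : x ≤ 7 / 10) (hy : 4717 / 5000 ≤ y) : LMok r ρ t X (447 / 1000) := by
  have hr0 : 0 < r := by linarith only [hr, hX]
  have hy0 := h.y0
  have hx0 := h.x0
  have ht0 := h.t0
  have hp0 := h.p0
  have hp : p ≤ 119 / 500 := h.p_le (by norm_num) (by norm_num; linarith only [hy])
  have hts := h.ts
  have hk1 := h.k_one (by linarith : x ≤ 5 / 4)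
  have ht2 : t ^ (2 : ℕ) ≤ 52 / 100 := by
    have h1 : x ^ (2 : ℕ) ≤ (7 / 10) ^ (2 : ℕ) := pow_le_pow_left₀ hx0.le hx 2
    nlinarith only [hy, hts, h1]
  have ht3 : t ≤ 3 := by nlinarith only [ht2]
  have hc := cA0 hp0.le hp
  rw [← h.hy] at hc
  refine h.lmF hr0 (β := 1 / 2 - t ^ (2 : ℕ) / 24) (σ := 0) (B := 239 / 500) (q := 1933 / 5000)
    (h' := 1 * (25 * p / (20 - 8 * p))) (S := 14353 / 10000) (E0 := 375 / 100)
    (ex := 2353 / 100000) hX (HR_quad ht0.le ht3) le_rfl zero_le_one (by norm_num) ?_ ?_ ?_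
    (by norm_num) (by norm_num) ?_ ?_ ?_ (by norm_num)
  · rw [zero_mul, neg_zero, Real.exp_zero, mul_one]
    linarith only [ht2]
  · rw [hk1]
    exact aa_h hp0 h.p1 (by norm_num)
  · refine star_of h.p1 (le_trans ?_ hc)
    have h20 : 0 < 20 - 8 * p := by linarith only [h.p1]
    refine mul_le_mul_of_nonneg_left ?_ (by (clear * - hy h20 hp0; positivity))
    linarith only [hx]
  · have hs := sA0 hp0.le hp
    rw [← h.hy] at hs
    exact PP_le' hp0 h.p1 hy0 h.lA (le_of_eq hk1.symm) one_pos (by norm_num)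
      (by norm_num : (0 : ℝ) ≤ 103 / 50) (by norm_num) (by norm_num) hs
  · linarith only [hX1]
  · exact ex_neg 3 (75 / 100) (by norm_num) (by norm_num) (by norm_num) (by norm_num)

end SokamDz

end

/-! ### Lib_MP_af4de1_v3.DzRL3 -/

section
namespace SokamCen
end SokamCen
namespace SokamV3
end SokamV3
/-!
# `PRealDL`, `X ≤ 80`, stage 3: the main term for `t ≤ 14/5`, the other cases (helper7)
-/

set_option autoImplicit false

namespace SokamDz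

open Real MeasureTheory Set SokamCen SokamV3

variable {r ρ t p y x X : ℝ}

theorem ex328 : exp (-(328 / 100)) ≤ 3764 / 100000 :=
  ex_neg 3 (28 / 100) (by norm_num) (by norm_num) (by norm_num) (by norm_num)

/-- `y ≥ 2809/5000`, `x ≤ 33/50` -/
theorem Pr.lmA1a (h : Pr ρ t p y x) (hr : 499 / 10 ≤ r) (hX : X = r * x ^ (2 : ℕ)) (hX1 : 108 / 5 ≤ X)
    (hx : x ≤ 33 / 50) (hy : 2809 / 5000 ≤ y) : LMok r ρ t X (726 / 1000) := by
  have hr0 : 0 < r := by linarith only [hr, hX]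
  have hy0 := h.y0
  have hx0 := h.x0
  have ht0 := h.t0
  have hp0 := h.p0
  have hp : p ≤ 331 / 500 := h.p_le (by norm_num) (by norm_num; linarith only [hy])
  have hts := h.ts
  have hk1 := h.k_one (by linarith : x ≤ 5 / 4)
  have ht2 : t ^ (2 : ℕ) ≤ 7754 / 10000 := by
    have h1 : x ^ (2 : ℕ) ≤ (33 / 50) ^ (2 : ℕ) := pow_le_pow_left₀ hx0.le hx 2
    nlinarith only [hy, hts, h1]
  have ht3 : t ≤ 3 := by nlinarith only [ht2]
  have hc := cA1 hp0.le hp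
  rw [← h.hy] at hc
  refine h.lmF hr0 (β := 1 / 2 - t ^ (2 : ℕ) / 24) (σ := 0) (B := 467 / 1000) (q := 3621 / 10000)
    (h' := 1 * (25 * p / (20 - 8 * p))) (S := 14595 / 10000) (E0 := 328 / 100)
    (ex := 3764 / 100000) hX (HR_quad ht0.le ht3) le_rfl zero_le_one (by norm_num) ?_ ?_ ?_
    (by norm_num) (by norm_num) ?_ ?_ ex328 (by norm_num)
  · rw [zero_mul, neg_zero, Real.exp_zero, mul_one]
    linarith only [ht2]
  · rw [hk1]
    exact aa_h hp0 h.p1 (by norm_num)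
  · refine star_of h.p1 (le_trans ?_ hc)
    have h20 : 0 < 20 - 8 * p := by linarith only [h.p1]
    refine mul_le_mul_of_nonneg_left ?_ (by positivity)
    linarith only [hx]
  · have hs := sA1 hp0.le hp
    rw [← h.hy] at hs
    exact PP_le' hp0 h.p1 hy0 h.lA (le_of_eq hk1.symm) one_pos (by norm_num)
      (by norm_num : (0 : ℝ) ≤ 213 / 100) (by norm_num) (by norm_num) hs
  · linarith only [hX1]

/-- the exponent for `x ≥ 33/50` -/
theorem E_lin (hr : 499 / 10 ≤ r) (hX : X = r * x ^ (2 : ℕ)) (h0 : 33 / 50 ≤ x) (h1 : x ≤ 6331 / 5000) :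
    328 / 100 ≤ (8 / 9 * (4941 / 10000 - x / 5) - 17 / 100) * X := by
  have h2 : 0 ≤ 8 / 9 * (4941 / 10000 - x / 5) - 17 / 100 := by linarith only [h1]
  have h3 : 499 / 10 * x ^ (2 : ℕ) ≤ X := by
    rw [hX]
    exact mul_le_mul_of_nonneg_right hr (sq_nonneg x)
  refine le_trans ?_ (mul_le_mul_of_nonneg_left h3 h2)
  have h4 : 0 ≤ (x - 33 / 50) * (6331 / 5000 - x) := mul_nonneg (by linarith only [h0]) (by linarith only [h1])
  nlinarith only [h4]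

/-- `(★)` at `x ≥ 33/50` for the two families -/
theorem Pr.star_x (h : Pr ρ t p y x) {B0 B lam q nu kap : ℝ} (hB : 0 < B) (hBB : B ≤ B0)
    (hlam : 0 ≤ lam) (h0 : 33 / 50 ≤ x) (hq : 0 ≤ q) (hkap : 1 ≤ kap)
    (H : (y * (20 - 8 * p) + 25 * B0 * p * 1) * (lam * (33 / 50) * B0 + 3621 / 10000 * y) ≤
      B0 * y * (20 - 8 * p))
    (hnu : lam * (33 / 50) * B0 ≤ nu * (3621 / 10000) * y)
    (hqq : kap * B0 * q * (33 / 50) ≤ B * (3621 / 10000) * (33 / 50 - nu * (kap * x - 33 / 50))) :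
    (y + B * (kap * (25 * p / (20 - 8 * p)))) * (lam * x * B + q * y) ≤ B * y := by
  have hp0 := h.p0
  have h20 : 0 < 20 - 8 * p := by linarith only [h.p1]
  refine star_scale h.y0 hB hBB (by positivity) hlam (by norm_num) h0 hq (by norm_num) hkap ?_ hnu hqq
  have := star_of h.p1 H
  rwa [one_mul] at this

/-- `y ≥ 2809/5000`, `x ≥ 33/50` -/
theorem Pr.lmA1b (h : Pr ρ t p y x) (hr : 499 / 10 ≤ r) (hX : X = r * x ^ (2 : ℕ))
    (h0 : 33 / 50 ≤ x) (h1 : x ≤ 6331 / 5000) (hy : 2809 / 5000 ≤ y) :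
    LMok r ρ t X (740 / 1000) := by
  have hr0 : 0 < r := by linarith only [hr, hX]
  have hy0 := h.y0
  have hx0 := h.x0
  have ht0 := h.t0
  have hp0 := h.p0
  have hp : p ≤ 331 / 500 := h.p_le (by norm_num) (by norm_num; linarith only [hy])
  have hts := h.ts
  have hk0 := h.k_pos
  have hkge := h.k_ge h1
  have hc := cA1 hp0.le hp
  rw [← h.hy] at hc
  -- the common part
  have key : ∀ B β kap : ℝ, 11 / 25 ≤ B → B ≤ 467 / 1000 → B ≤ β → HR t β → 1 ≤ kap →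
      1 ≤ kap * min 1 (mm ρ / t) →
      kap * (467 / 1000) * (4941 / 10000 - x / 5) * (33 / 50) ≤
        B * (3621 / 10000) * (33 / 50 - 18 / 100 * (kap * x - 33 / 50)) →
      LMok r ρ t X (740 / 1000) := by
    intro B β kap hB0 hB1 hBβ hβ hkap hkk hqq
    have hB : 0 < B := by linarith only [hB0]
    have hq : 0 ≤ 4941 / 10000 - x / 5 := by linarith only [h1]
    refine h.lmF hr0 (β := β) (σ := 0) (B := B) (q := 4941 / 10000 - x / 5)
      (h' := kap * (25 * p / (20 - 8 * p))) (S := 14867 / 10000) (E0 := 328 / 100)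
      (ex := 3764 / 100000) hX hβ le_rfl zero_le_one hB ?_ ?_ ?_
      hq (by norm_num) ?_ (E_lin hr hX h0 h1) ex328 (by norm_num)
    · rw [zero_mul, neg_zero, Real.exp_zero, mul_one]
      exact hBβ
    · exact aa_h hp0 h.p1 hkk
    · refine h.star_x (B0 := 467 / 1000) (nu := 18 / 100) hB hB1 (by norm_num) h0 hq hkap ?_ ?_ hqq
      · refine le_trans (le_of_eq ?_) (hc.trans (le_of_eq ?_)) <;> ring
      · linarith only [hy]
    · have hs := sA2 hp0.le hp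
      rw [← h.hy] at hs
      refine PP_le' hp0 h.p1 hy0 h.lA hkge (by norm_num) hB
        (by norm_num : (0 : ℝ) ≤ 221 / 100) (by norm_num) (by norm_num) (hs.trans ?_)
      have : 11 / 25 * p ≤ B * p := mul_le_mul_of_nonneg_right hB0 hp0.le
      linarith only [this]
  have e2 : t ^ (2 : ℕ) ≤ 17802 / 10000 * x ^ (2 : ℕ) := by
    have : t ^ (2 : ℕ) * (2809 / 5000) ≤ x ^ (2 : ℕ) := by
      rw [← hts]
      exact mul_le_mul_of_nonneg_left hy (sq_nonneg t)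
    linarith only [this, sq_nonneg x]
  rcases le_total x (177 / 200) with hxa | hxa
  · have hk1 := h.k_one (by linarith : x ≤ 5 / 4)
    have ht3 : t ≤ 3 := by nlinarith only [hx0, e2, hxa]
    refine key (467 / 1000 - 12 / 100 * (x - 33 / 50)) (1 / 2 - t ^ (2 : ℕ) / 24) 1 (by linarith only [hxa])
      (by linarith only [h0]) ?_ (HR_quad ht0.le ht3) le_rfl (by rw [hk1]; norm_num) ?_
    · nlinarith only [e2, mul_nonneg (sub_nonneg.2 h0) (sub_nonneg.2 hxa)]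
    · nlinarith only [e2, hxa, mul_nonneg (sub_nonneg.2 h0) (sub_nonneg.2 hxa)]
  · rcases le_total x (5 / 4) with hxb | hxb
    · have hk1 := h.k_one hxb
      refine key (11 / 25) (11 / 25) 1 le_rfl (by norm_num) le_rfl (HR_11_25 t) le_rfl
        (by rw [hk1]; norm_num) ?_
      linarith only [hxa]
    · refine key (11 / 25) (11 / 25) (10132 / 10000) le_rfl (by norm_num) le_rfl (HR_11_25 t)
        (by norm_num) ?_ ?_
      · linarith only [hkge]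
      · linarith only [hxb]

theorem exp_x5 (hx : 33 / 50 ≤ x) : 3855 / 10000 - 772 / 10000 * (x - 33 / 50) ≤
    11 / 25 * exp (-(1 / 4 * (4 / 5 * x))) := by
  have h1 : exp (132 / 1000) ≤ 114125 / 100000 := by
    have := Real.exp_bound' (x := 132 / 1000) (by norm_num) (by norm_num) (n := 3) (by norm_num)
    simp only [Finset.sum_range_succ, Finset.sum_range_zero, Nat.factorial] at this
    norm_num at this
    linarith only [this]
  have h2 : 8762 / 10000 ≤ exp (-(132 / 1000)) := by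
    rw [Real.exp_neg, ← one_div, le_div_iff₀ (exp_pos _)]
    linarith only [h1]
  have h3 : 1 - (x - 33 / 50) / 5 ≤ exp (-((x - 33 / 50) / 5)) := by
    have := Real.add_one_le_exp (-((x - 33 / 50) / 5))
    linarith only [this]
  have e : exp (-(1 / 4 * (4 / 5 * x))) = exp (-(132 / 1000)) * exp (-((x - 33 / 50) / 5)) := by
    rw [← Real.exp_add]
    congr 1
    ring
  rw [e]
  rcases le_total 0 (1 - (x - 33 / 50) / 5) with h4 | h4
  · have h5 := mul_le_mul h2 h3 h4 (exp_pos _).le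
    linarith only [hx, h5]
  · have := mul_pos (exp_pos (-(132 / 1000))) (exp_pos (-((x - 33 / 50) / 5)))
    linarith only [h4, this]

/-- `1/6 ≤ y ≤ 2810/5000`, `x ≤ 33/50` -/
theorem Pr.lmBa (h : Pr ρ t p y x) (hr : 499 / 10 ≤ r) (hX : X = r * x ^ (2 : ℕ)) (hX1 : 108 / 5 ≤ X)
    (hx : x ≤ 33 / 50) (hy : 1 / 6 ≤ y) (hy2 : y ≤ 2809 / 5000) : LMok r ρ t X (793 / 1000) := by
  have hr0 : 0 < r := by linarith only [hr, hX]
  have hy0 := h.y0
  have hx0 := h.x0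
  have ht0 := h.t0
  have hp0 := h.p0
  have hp : p ≤ 913 / 1000 := h.p_le (by norm_num) (by norm_num; linarith only [hy])
  have hp' : 6619 / 10000 ≤ p := h.le_p (by norm_num; linarith only [hy2])
  have hk1 := h.k_one (by linarith : x ≤ 5 / 4)
  have hc := cB1 hp' hp
  rw [← h.hy] at hc
  refine h.lmF hr0 (β := 11 / 25) (σ := 1 / 4) (B := 771 / 2000) (q := 3621 / 10000)
    (h' := 1 * (25 * p / (20 - 8 * p))) (S := 15938 / 10000) (E0 := 328 / 100)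
    (ex := 3764 / 100000) hX (HR_11_25 t) (by norm_num) (by norm_num) (by norm_num) ?_ ?_ ?_
    (by norm_num) (by norm_num) ?_ ?_ ex328 (by norm_num)
  · have h1 := exp_x5 (x := 33 / 50) le_rfl
    have h2 : exp (-(1 / 4 * (4 / 5 * (33 / 50)))) ≤ exp (-(1 / 4 * (4 / 5 * x))) :=
      Real.exp_le_exp.2 (by linarith only [hx])
    linarith only [h1, h2]
  · rw [hk1]
    exact aa_h hp0 h.p1 (by norm_num)
  · refine star_of h.p1 (le_trans ?_ hc)
    have h20 : 0 < 20 - 8 * p := by linarith only [h.p1]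
    refine mul_le_mul_of_nonneg_left ?_ (by positivity)
    linarith only [hx]
  · have hs := sB1 hp' hp
    rw [← h.hy] at hs
    exact PP_le' hp0 h.p1 hy0 h.lA (le_of_eq hk1.symm) one_pos (by norm_num)
      (by norm_num : (0 : ℝ) ≤ 127 / 50) (by norm_num) (by norm_num) hs
  · linarith only [hX1]

/-- `1/6 ≤ y ≤ 2809/5000`, `x ≥ 33/50` -/
theorem Pr.lmBb (h : Pr ρ t p y x) (hr : 499 / 10 ≤ r) (hX : X = r * x ^ (2 : ℕ))
    (h0 : 33 / 50 ≤ x) (h1 : x ≤ 6331 / 5000) (hy : 1 / 6 ≤ y) (hy2 : y ≤ 2809 / 5000) :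
    LMok r ρ t X (837 / 1000) := by
  have hr0 : 0 < r := by linarith only [hr, hX]
  have hy0 := h.y0
  have hx0 := h.x0
  have ht0 := h.t0
  have hp0 := h.p0
  have hp : p ≤ 913 / 1000 := h.p_le (by norm_num) (by norm_num; linarith only [hy])
  have hp' : 6619 / 10000 ≤ p := h.le_p (by norm_num; linarith only [hy2])
  have hk0 := h.k_pos
  have hkge := h.k_ge h1
  have hc := cB1 hp' hp
  rw [← h.hy] at hc
  have key : ∀ kap : ℝ, 1 ≤ kap → 1 ≤ kap * min 1 (mm ρ / t) →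
      kap * (771 / 2000) * (4941 / 10000 - x / 5) * (33 / 50) ≤
        (3855 / 10000 - 772 / 10000 * (x - 33 / 50)) * (3621 / 10000) *
          (33 / 50 - 211 / 1000 * (kap * x - 33 / 50)) →
      LMok r ρ t X (837 / 1000) := by
    intro kap hkap hkk hqq
    have hB0 : 1693 / 5000 ≤ 3855 / 10000 - 772 / 10000 * (x - 33 / 50) := by linarith only [h1]
    have hB : 0 < 3855 / 10000 - 772 / 10000 * (x - 33 / 50) := by linarith only [hB0]
    have hq : 0 ≤ 4941 / 10000 - x / 5 := by linarith only [hB0]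
    refine h.lmF hr0 (β := 11 / 25) (σ := 1 / 4)
      (B := 3855 / 10000 - 772 / 10000 * (x - 33 / 50)) (q := 4941 / 10000 - x / 5)
      (h' := kap * (25 * p / (20 - 8 * p))) (S := 16823 / 10000) (E0 := 328 / 100)
      (ex := 3764 / 100000) hX (HR_11_25 t) (by norm_num) (by norm_num) hB (exp_x5 h0) ?_ ?_
      hq (by norm_num) ?_ (E_lin hr hX h0 h1) ex328 (by norm_num)
    · exact aa_h hp0 h.p1 hkk
    · refine h.star_x (B0 := 771 / 2000) (nu := 211 / 1000) hB (by linarith only [h0]) (by norm_num) h0 hq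
        hkap ?_ ?_ hqq
      · refine le_trans (le_of_eq ?_) (hc.trans (le_of_eq ?_)) <;> ring
      · linarith only [hy]
    · have hs := sB2 hp' hp
      rw [← h.hy] at hs
      refine PP_le' hp0 h.p1 hy0 h.lA hkge (by norm_num) hB
        (by norm_num : (0 : ℝ) ≤ 283 / 100) (by norm_num) (by norm_num) (hs.trans ?_)
      have : 1693 / 5000 * p ≤ (3855 / 10000 - 772 / 10000 * (x - 33 / 50)) * p :=
        mul_le_mul_of_nonneg_right hB0 hp0.le
      linarith only [this]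
  rcases le_total x (5 / 4) with hxb | hxb
  · have hk1 := h.k_one hxb
    refine key 1 le_rfl (by rw [hk1]; norm_num) ?_
    nlinarith only [h0]
  · refine key (10132 / 10000) (by norm_num) (by linarith only [hkge]) ?_
    nlinarith only [hxb]

end SokamDz

end

/-! ### Lib_MP_af4de1_v3.DzRL6 -/

section
namespace SokamCen
end SokamCen
namespace SokamV3
end SokamV3
/-!
# `PRealDL`, `X ≤ 80`, stage 6: the groups for `t ≤ 14/5` (helper7)
-/

set_option autoImplicit false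

namespace SokamDz

open Real MeasureTheory Set SokamCen SokamV3

variable {r ρ t p y x X : ℝ}

theorem Pr.u_ge (h : Pr ρ t p y x) (hp : p ≤ 913 / 1000) : 952 / 10000 ≤ 1 / p - 1 := by
  have hp0 := h.p0
  have : 10952 / 10000 ≤ 1 / p := by
    rw [le_div_iff₀ hp0]
    linarith only [hp]
  linarith only [this]

/-- left tail, `y ≥ 1/6` -/
theorem Pr.glT1 (h : Pr ρ t p y x) (hr : 0 < r) (hX : X = r * x ^ (2 : ℕ)) (hX1 : 108 / 5 ≤ X)
    (hx : x ≤ 6331 / 5000) (hy : 1 / 6 ≤ y) :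
    SokamDz.Kc r ρ * (20 / 3 * lT (8 / 9 * r) ρ t + lT r ρ t) ≤
      263 / 10000 * (54 / 125 * exp (-(17 / 100 * X))) := by
  have hp0 := h.p0
  have hp : p ≤ 913 / 1000 := h.p_le (by norm_num) (by linarith only [hy])
  have hu := h.u_ge hp
  have hk := h.k_ge hx
  have ha := aa_u hp0
  have ha0 := aa_pos hp0 h.p1
  have hE : X * (aa p * (987 / 1000)) ≤ r * (SokamDz.lA ρ t * t ^ (2 : ℕ)) := by
    rw [h.lAt hX]
    exact mul_le_mul_of_nonneg_left (mul_le_mul_of_nonneg_left hk (by linarith only [ha0])) (by linarith only [hX1])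
  have hXa : 0 ≤ X * (aa p * (987 / 1000)) := mul_nonneg (by linarith only [hX1]) (by linarith only [ha0])
  have hd : exp (-(X * (aa p * (987 / 1000)) / 9)) ≤ 1 := exp_le_one_iff.2 (by linarith only [hXa])
  refine closeU (h.GlT hr hE hd) (by norm_num) (by norm_num : (0 : ℝ) ≤ 1281 / 1000) h.sPP
    (E0 := 6819 / 1000) (ex := 10938 / 10000000) ?_ ?_ (by norm_num)
  · rw [ha]
    nlinarith only [hX1, hu]
  · exact ex_neg 6 (819 / 1000) (by norm_num) (by norm_num) (by norm_num) (by norm_num)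

/-- left tail, `y ≤ 1/6`, `x ≤ 5/4` -/
theorem Pr.glT2 (h : Pr ρ t p y x) (hr : 0 < r) (hX : X = r * x ^ (2 : ℕ)) (hX1 : 108 / 5 ≤ X)
    (hx : x ≤ 5 / 4) (hy : y ≤ 1 / 6) :
    SokamDz.Kc r ρ * (20 / 3 * lT (8 / 9 * r) ρ t + lT r ρ t) ≤
      81 / 1000 * (54 / 125 * exp (-(17 / 100 * X))) := by
  have hp0 := h.p0
  have hp : 1141 / 1250 ≤ p := h.le_p (by norm_num; linarith only [hy])
  have ha0 := aa_pos hp0 h.p1
  have hE : X * (12 / 25) ≤ r * (SokamDz.lA ρ t * t ^ (2 : ℕ)) := by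
    rw [h.lAt hX, h.k_one hx]
    exact mul_le_mul_of_nonneg_left (by linarith only [ha0]) (by linarith only [hX1])
  have hd : exp (-(X * (12 / 25) / 9)) ≤ 1 := exp_le_one_iff.2 (by linarith only [hX1])
  refine closeW (h.GlT hr hE hd) (by norm_num) (Real.sqrt_nonneg _)
    (E0 := 5544 / 1000) (ex := 3914 / 1000000) ?_ ?_ ?_
  · linarith only [hX1]
  · exact ex_neg 5 (544 / 1000) (by norm_num) (by norm_num) (by norm_num) (by norm_num)
  · have hs : √(PP p y) ≤ 11012 / 10000 := by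
      refine h.sPP2 (S2 := 121264 / 100000) (by norm_num) (by norm_num) ?_
      rw [h.hy]
      nlinarith only [hp]
    linarith only [hs]

/-- front, `C = 14/5` -/
theorem Pr.grO1 (h : Pr ρ t p y x) (hr : 0 < r) (hX : X = r * x ^ (2 : ℕ)) (hX1 : 108 / 5 ≤ X)
    (ht : t ≤ π) :
    SokamDz.Kc r ρ * (20 / 3 * (14 / 5 * rO (8 / 9 * r) ρ (2 * π - t)) +
      68 / 25 * rO r ρ (2 * π - t)) ≤ 1 / 2 * (54 / 125 * exp (-(17 / 100 * X))) := by
  have hp0 := h.p0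
  have hpi := Real.pi_pos
  have ht0 := h.t0
  have hs := SrA_p0 hp0.le h.p1.le
  rw [← h.hy] at hs
  have hS := h.SrA (φ := 2 * π - t) (by linarith only [ht, ht0]) (by linarith only [ht0]) (by norm_num)
    (by norm_num : (0 : ℝ) ≤ 3211 / 1000) (by norm_num) hs
  have hy0 := h.y0
  have hy1 := h.y1
  have hXy : X ≤ X / y := by
    rw [le_div_iff₀ hy0]
    nlinarith only [hX1, hy1]
  refine closeW (h.GrO hr hX (by linarith only [ht, hpi]) (by norm_num) hS) (by norm_num) (by norm_num)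
    (E0 := 4776 / 1000) (ex := 8436 / 1000000) ?_ ?_ (by norm_num)
  · linarith only [hX1, hXy]
  · exact ex_neg 4 (776 / 1000) (by norm_num) (by norm_num) (by norm_num) (by norm_num)

/-- front, `C = 38/25`, factor `S`, exponent `E0` -/
theorem Pr.grO2 (h : Pr ρ t p y x) (hr : 0 < r) (hX : X = r * x ^ (2 : ℕ))
    (ht : t ≤ π) {S2 S E0 ex c : ℝ} (hS2 : 0 ≤ S2) (hS : 0 ≤ S) (hlo : S2 ≤ S ^ (2 : ℕ))
    (hN : 1 + 16 / 25 * y ≤ S2 * ((4 / 5 - 23 / 50 * p) * y * (1989 / 10000) + 11 / 25 * p))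
    (hE : E0 ≤ 8 / 9 * (11 / 25 * (X / y)) - 17 / 100 * X) (hex : exp (-E0) ≤ ex)
    (hc : (3 / 4 * (10 / 3 * (38 / 25)) + 7072 / 10000 * (34 / 25) * 1) * S * ex ≤ c * (54 / 125)) :
    SokamDz.Kc r ρ * (20 / 3 * (38 / 25 * rO (8 / 9 * r) ρ (2 * π - t)) +
      68 / 25 * rO r ρ (2 * π - t)) ≤ c * (54 / 125 * exp (-(17 / 100 * X))) := by
  have hpi := Real.pi_pos
  have ht0 := h.t0
  have hS' := h.SrA (φ := 2 * π - t) (by linarith only [ht, hpi]) (by linarith only [ht0]) hS2 hS hlo hN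
  exact closeW (h.GrO hr hX (by linarith only [ht, hpi]) (by norm_num) hS') (by norm_num) hS hE hex hc

theorem Pr.grO3 (h : Pr ρ t p y x) (hr : 0 < r) (hX : X = r * x ^ (2 : ℕ)) (hX1 : 108 / 5 ≤ X)
    (ht : t ≤ π) :
    SokamDz.Kc r ρ * (20 / 3 * (38 / 25 * rO (8 / 9 * r) ρ (2 * π - t)) +
      68 / 25 * rO r ρ (2 * π - t)) ≤ 3 / 10 * (54 / 125 * exp (-(17 / 100 * X))) := by
  have hs := SrA_p0 h.p0.le h.p1.le
  rw [← h.hy] at hs
  have hy0 := h.y0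
  have hy1 := h.y1
  have hXy : X ≤ X / y := by
    rw [le_div_iff₀ hy0]
    nlinarith only [hX1, hy1]
  refine h.grO2 hr hX ht (by norm_num) (by norm_num : (0 : ℝ) ≤ 3211 / 1000) (by norm_num) hs
    (E0 := 4776 / 1000) (ex := 8436 / 1000000) ?_ ?_ (by norm_num)
  · linarith only [hX1, hXy]
  · exact ex_neg 4 (776 / 1000) (by norm_num) (by norm_num) (by norm_num) (by norm_num)

theorem Pr.grO4 (h : Pr ρ t p y x) (hr : 499 / 10 ≤ r) (hX : X = r * x ^ (2 : ℕ))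
    (hx : 7 / 10 ≤ x) (ht : t ≤ π) :
    SokamDz.Kc r ρ * (20 / 3 * (38 / 25 * rO (8 / 9 * r) ρ (2 * π - t)) +
      68 / 25 * rO r ρ (2 * π - t)) ≤ 16 / 100 * (54 / 125 * exp (-(17 / 100 * X))) := by
  have hs := SrA_p0 h.p0.le h.p1.le
  rw [← h.hy] at hs
  have hy0 := h.y0
  have hy1 := h.y1
  have hX2 : 24451 / 1000 ≤ X := by
    rw [hX]
    have h1 : (7 / 10 : ℝ) ^ (2 : ℕ) ≤ x ^ (2 : ℕ) := pow_le_pow_left₀ (by norm_num) hx 2
    nlinarith only [hr, hx]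
  have hXy : X ≤ X / y := by
    rw [le_div_iff₀ hy0]
    nlinarith only [hy1, hX2]
  refine h.grO2 (by linarith only [hr]) hX ht (by norm_num) (by norm_num : (0 : ℝ) ≤ 3211 / 1000)
    (by norm_num) hs
    (E0 := 5406 / 1000) (ex := 4493 / 1000000) ?_ ?_ (by norm_num)
  · linarith only [hX2, hXy]
  · exact ex_neg 5 (406 / 1000) (by norm_num) (by norm_num) (by norm_num) (by norm_num)

theorem Pr.grO5 (h : Pr ρ t p y x) (hr : 0 < r) (hX : X = r * x ^ (2 : ℕ)) (hX1 : 108 / 5 ≤ X)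
    (hy : y ≤ 4717 / 5000) (ht : t ≤ π) :
    SokamDz.Kc r ρ * (20 / 3 * (38 / 25 * rO (8 / 9 * r) ρ (2 * π - t)) +
      68 / 25 * rO r ρ (2 * π - t)) ≤ 148 / 1000 * (54 / 125 * exp (-(17 / 100 * X))) := by
  have hp : 2379 / 10000 ≤ p := h.le_p (by norm_num; linarith only [hy])
  have hs := SrA_p1 hp h.p1.le
  rw [← h.hy] at hs
  have hy0 := h.y0
  have hXy : 10599 / 10000 * X ≤ X / y := by
    rw [le_div_iff₀ hy0]
    nlinarith only [hX1, hy]
  refine h.grO2 hr hX ht (by norm_num) (by norm_num : (0 : ℝ) ≤ 26173 / 10000) (by norm_num) hs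
    (E0 := 5282 / 1000) (ex := 5086 / 1000000) ?_ ?_ (by norm_num)
  · linarith only [hX1, hXy]
  · exact ex_neg 5 (282 / 1000) (by norm_num) (by norm_num) (by norm_num) (by norm_num)

theorem Pr.grO6 (h : Pr ρ t p y x) (hr : 0 < r) (hX : X = r * x ^ (2 : ℕ)) (hX1 : 108 / 5 ≤ X)
    (hy : y ≤ 2809 / 5000) (ht : t ≤ π) :
    SokamDz.Kc r ρ * (20 / 3 * (14 / 5 * rO (8 / 9 * r) ρ (2 * π - t)) +
      68 / 25 * rO r ρ (2 * π - t)) ≤ 1 / 1000 * (54 / 125 * exp (-(17 / 100 * X))) := by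
  have hp0 := h.p0
  have hpi := Real.pi_pos
  have ht0 := h.t0
  have hs := SrA_p0 hp0.le h.p1.le
  rw [← h.hy] at hs
  have hS := h.SrA (φ := 2 * π - t) (by linarith only [ht, ht0]) (by linarith only [ht0]) (by norm_num)
    (by norm_num : (0 : ℝ) ≤ 3211 / 1000) (by norm_num) hs
  have hy0 := h.y0
  have hXy : 1779 / 1000 * X ≤ X / y := by
    rw [le_div_iff₀ hy0]
    nlinarith only [hX1, hy]
  refine closeW (h.GrO hr hX (by linarith only [ht, ht0]) (by norm_num) hS) (by norm_num) (by norm_num)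
    (E0 := 1135 / 100) (ex := 12 / 1000000) ?_ ?_ (by norm_num)
  · linarith only [hX1, hXy]
  · exact ex_neg 11 (35 / 100) (by norm_num) (by norm_num) (by norm_num) (by norm_num)

/-- `Y` for `φ > m` -/
theorem Pr.Ybig (h : Pr ρ t p y x) (hr : 0 < r) {φ : ℝ} (hφ : 0 < φ) (hm : mm ρ ≤ φ) :
    r * (25 / 16 * (17 / 50 + 4 / 5 * (1 / p - 1))) ≤ r * (SokamDz.rA ρ φ * φ ^ (2 : ℕ)) := by
  refine mul_le_mul_of_nonneg_left ?_ hr.le
  have h1 := h.rA_ge hφ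
  have hm0 := h.m0
  have hm2 := h.m2
  have hy := h.y0
  have hk : min 1 (mm ρ / φ) = mm ρ / φ := min_eq_right (by rwa [div_le_one hφ])
  rw [hk] at h1
  have ha0 := aa_pos h.p0 h.p1
  have h2 : (aa p - 7 / 50) * (y * (mm ρ / φ)) * φ ^ (2 : ℕ) ≤ SokamDz.rA ρ φ * φ ^ (2 : ℕ) :=
    mul_le_mul_of_nonneg_right h1 (sq_nonneg φ)
  refine le_trans ?_ h2
  have e1 : (aa p - 7 / 50) * (y * (mm ρ / φ)) * φ ^ (2 : ℕ) = (aa p - 7 / 50) * (y * mm ρ * φ) := by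
    field_simp
  have e2 : 17 / 50 + 4 / 5 * (1 / p - 1) = aa p - 7 / 50 := by
    rw [aa_u h.p0]
    ring
  rw [e1, e2]
  have h3 : 25 / 16 ≤ y * mm ρ * φ := by
    have : y * mm ρ * mm ρ ≤ y * mm ρ * φ := mul_le_mul_of_nonneg_left hm (by positivity)
    nlinarith only [hm, hm0, hm2]
  calc 25 / 16 * (aa p - 7 / 50) = (aa p - 7 / 50) * (25 / 16) := by ring
    _ ≤ _ := mul_le_mul_of_nonneg_left h3 (by linarith only [ha0])

/-- images, `y ≥ 1/6` -/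
theorem Pr.img1 (h : Pr ρ t p y x) (hr : 499 / 10 ≤ r) (hX2 : X ≤ 80)
    (hy : 1 / 6 ≤ y) (ht : t ≤ 14 / 5) :
    SokamDz.Kc r ρ * (20 / 3 * (14 / 5 * rM (8 / 9 * r) ρ (2 * π - t) (11 / 25)) +
      68 / 25 * rM r ρ (2 * π - t) (11 / 25)) +
    SokamDz.Kc r ρ * (20 / 3 * (14 / 5 * rT (8 / 9 * r) ρ (2 * π - t)) +
      68 / 25 * rT r ρ (2 * π - t)) ≤ 1 / 1000 * (54 / 125 * exp (-(17 / 100 * X))) := by
  have hr0 : 0 < r := by linarith only [hr, hX2]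
  have hp0 := h.p0
  have hpi := Real.pi_gt_d4
  have ht0 := h.t0
  have hp : p ≤ 913 / 1000 := h.p_le (by norm_num) (by linarith only [hy])
  have hu := h.u_ge hp
  have hm0 := h.m0
  have hm2 := h.m2
  obtain ⟨φ, hφd⟩ : ∃ φ, φ = 2 * π - t := ⟨_, rfl⟩
  rw [← hφd]
  have hφ1 : 3483 / 1000 ≤ φ := by rw [hφd]; linarith only [ht, hpi]
  have hφ2 : φ ≤ 2 * π := by rw [hφd]; linarith only [ht0]
  have hφ0 : 0 < φ := by linarith only [hφ1]
  have hm : mm ρ ≤ φ := by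
    refine le_trans ?_ hφ1
    refine abs_le_of_sq_le_sq' ?_ (by norm_num) |>.2
    nlinarith only [hy, hm2]
  have hY := h.Ybig hr0 hφ0 hm
  set u := 1 / p - 1 with hud
  have hY1 : 265 / 10 + 623 / 10 * u ≤ r * (SokamDz.rA ρ φ * φ ^ (2 : ℕ)) := by
    refine le_trans ?_ hY
    nlinarith only [hr, hu]
  have hZ : 266 ≤ r * (11 / 25 * φ ^ (2 : ℕ)) := by nlinarith only [hr, hφ1]
  have hE := Elow (c := 288 / 10) (Y := 324 / 10) (Z := 266) hr0 (h.rA0 hφ0)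
    (by norm_num : (0 : ℝ) < 11 / 25) hφ0 (by linarith only [hu, hY1]) hZ (by norm_num) (by norm_num) (by norm_num)
  have hs := SrA_p0 hp0.le h.p1.le
  rw [← h.hy] at hs
  have hS := h.SrA (φ := φ) hφ0 hφ2 (by norm_num)
    (by norm_num : (0 : ℝ) ≤ 3211 / 1000) (by norm_num) hs
  have h1 : exp (-(288 / 10 / 9 : ℝ)) ≤ 1 := exp_le_one_iff.2 (by norm_num)
  have g1 := closeW (X := X) (E0 := 12) (ex := 615 / 100000000) (c := 8 / 10000)
    (h.GrM hr0 hφ0 (by norm_num : (0 : ℝ) ≤ 14 / 5) (by norm_num) hE h1 hS)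
    (by norm_num) (by norm_num) (by linarith only [hX2])
    (ex_neg 12 0 (by norm_num) (by norm_num) (by norm_num) (by norm_num)) (by norm_num)
  have h2 : exp (-((265 / 10 + 623 / 10 * u) / 9)) ≤ 1 := exp_le_one_iff.2 (by linarith only [hu])
  have g2 := closeU (X := X) (E0 := 15) (ex := 31 / 100000000) (c := 2 / 10000)
    (h.GrT hr0 hY1 h2) (by norm_num) (by norm_num : (0 : ℝ) ≤ 1281 / 1000) h.sPP
    (by linarith only [hX2, hu])
    (ex_neg 15 0 (by norm_num) (by norm_num) (by norm_num) (by norm_num)) (by norm_num)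
  linarith only [g1, g2]

/-- images, `y ≤ 1/6` -/
theorem Pr.img2 (h : Pr ρ t p y x) (hr : 499 / 10 ≤ r) (hX : X = r * x ^ (2 : ℕ)) (hX1 : 108 / 5 ≤ X)
    (hX2 : X ≤ 80) (hy : y ≤ 1 / 6) (ht : t ≤ 14 / 5) :
    SokamDz.Kc r ρ * (20 / 3 * (14 / 5 * rM (8 / 9 * r) ρ (2 * π - t) (11 / 25)) +
      68 / 25 * rM r ρ (2 * π - t) (11 / 25)) +
    SokamDz.Kc r ρ * (20 / 3 * (14 / 5 * rT (8 / 9 * r) ρ (2 * π - t)) +
      68 / 25 * rT r ρ (2 * π - t)) ≤ 22 / 100 * (54 / 125 * exp (-(17 / 100 * X))) := by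
  have hr0 : 0 < r := by linarith only [hr, hX]
  have hp0 := h.p0
  have hy0 := h.y0
  have hpi := Real.pi_gt_d4
  have ht0 := h.t0
  have hp : 1141 / 1250 ≤ p := h.le_p (by norm_num; linarith only [hy])
  have hu := h.u0
  have hm0 := h.m0
  have hm2 := h.m2
  have ha0 := aa_pos hp0 h.p1
  have hts := h.ts
  obtain ⟨φ, hφd⟩ : ∃ φ, φ = 2 * π - t := ⟨_, rfl⟩
  rw [← hφd]
  have hφ1 : 3483 / 1000 ≤ φ := by rw [hφd]; linarith only [ht, hpi]
  have hφ0 : 0 < φ := by linarith only [hφ1]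
  have hZ : 266 ≤ r * (11 / 25 * φ ^ (2 : ℕ)) := by nlinarith only [hr, hφ1]
  have hA := h.rA0 hφ0
  -- the two exponents
  have key : (9 / 8 * (64 / 10 + 17 / 100 * X) ≤ r * (SokamDz.rA ρ φ * φ ^ (2 : ℕ))) ∧
      (9 / 8 * (599 / 100 + 17 / 100 * X) ≤
        r * (SokamDz.rA ρ φ * (11 / 25) * φ ^ (2 : ℕ) / (SokamDz.rA ρ φ + 11 / 25))) := by
    rcases le_total (mm ρ) φ with hm | hm
    · have hY := h.Ybig hr0 hφ0 hm
      have hY1 : 265 / 10 ≤ r * (SokamDz.rA ρ φ * φ ^ (2 : ℕ)) := by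
        refine le_trans ?_ hY
        nlinarith only [hr, hu]
      refine ⟨by linarith only [hX2, hY1], ?_⟩
      exact Elow (Y := 265 / 10) (Z := 266) hr0 hA (by norm_num : (0 : ℝ) < 11 / 25) hφ0 hY1 hZ
        (by norm_num) (by norm_num) (by linarith only [hX2])
    · have hY1 : 525 / 1000 * X ≤ r * (SokamDz.rA ρ φ * φ ^ (2 : ℕ)) := by
        have h1 := h.rA_ge hφ0
        have hk : min 1 (mm ρ / φ) = 1 := min_eq_left (by rwa [le_div_iff₀ hφ0, one_mul])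
        rw [hk, mul_one] at h1
        have h2 : 17 / 50 * y ≤ SokamDz.rA ρ φ :=
          le_trans (mul_le_mul_of_nonneg_right (by linarith only [ha0]) hy0.le) h1
        have h3 : 1547 / 1000 * t ^ (2 : ℕ) ≤ φ ^ (2 : ℕ) := by
          have : (12437 / 10000 * t) ^ (2 : ℕ) ≤ φ ^ (2 : ℕ) := by
            refine pow_le_pow_left₀ (by positivity) ?_ 2
            rw [hφd]
            linarith only [ht, hpi]
          nlinarith only [ht, ht0, hφ1]
        have h4 : 17 / 50 * y * (1547 / 1000 * t ^ (2 : ℕ)) ≤ SokamDz.rA ρ φ * φ ^ (2 : ℕ) :=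
          mul_le_mul h2 h3 (by positivity) hA.le
        have h5 : r * (17 / 50 * y * (1547 / 1000 * t ^ (2 : ℕ))) ≤ r * (SokamDz.rA ρ φ * φ ^ (2 : ℕ)) :=
          mul_le_mul_of_nonneg_left h4 hr0.le
        refine le_trans ?_ h5
        have e : r * (17 / 50 * y * (1547 / 1000 * t ^ (2 : ℕ))) = 17 / 50 * (1547 / 1000) * X := by
          rw [hX]
          linear_combination 17 / 50 * (1547 / 1000) * r * hts
        rw [e]
        linarith only [hX1]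
      refine ⟨by linarith only [hX1, hY1], ?_⟩
      exact Elow (Y := 525 / 1000 * X) (Z := 266) hr0 hA (by norm_num : (0 : ℝ) < 11 / 25) hφ0 hY1 hZ
        (by linarith only [hX1]) (by norm_num) (by nlinarith only [mul_nonneg (sub_nonneg.2 hX1) (sub_nonneg.2 hX2)])
  obtain ⟨k1, k2⟩ := key
  have hP : PP p y ≤ 121264 / 100000 := by
    unfold PP
    rw [div_le_iff₀ hp0, h.hy]
    nlinarith only [hp]
  have hs : √(PP p y) ≤ 11012 / 10000 := by
    rw [Real.sqrt_le_left (by norm_num)]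
    norm_num
    linarith only [hP]
  have hS : √(PP p y / (SokamDz.rA ρ φ + 11 / 25)) ≤ 16602 / 10000 := by
    rw [Real.sqrt_le_left (by norm_num), div_le_iff₀ (by linarith only [hA])]
    linarith only [hA, hP]
  have h1 : exp (-(9 / 8 * (599 / 100 + 17 / 100 * X) / 9)) ≤ 1 := exp_le_one_iff.2 (by linarith only [hX1])
  have g1 := closeW (X := X) (E0 := 599 / 100) (ex := 2506 / 1000000) (c := 154 / 1000)
    (h.GrM hr0 hφ0 (by norm_num : (0 : ℝ) ≤ 14 / 5) (by norm_num) k2 h1 hS)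
    (by norm_num) (by norm_num) (by linarith only [])
    (ex_neg 5 (99 / 100) (by norm_num) (by norm_num) (by norm_num) (by norm_num)) (by norm_num)
  have h2 : exp (-(9 / 8 * (64 / 10 + 17 / 100 * X) / 9)) ≤ 1 := exp_le_one_iff.2 (by linarith only [hX1])
  have g2 := closeW (X := X) (E0 := 64 / 10) (ex := 1664 / 1000000) (c := 6 / 100)
    (h.GrT hr0 k1 h2) (by norm_num) (Real.sqrt_nonneg _)
    (by linarith only [])
    (ex_neg 6 (4 / 10) (by norm_num) (by norm_num) (by norm_num) (by norm_num))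
    (by linarith only [hs])
  have hW := exp_pos (-(17 / 100 * X))
  linarith only [g1, g2, hW]

end SokamDz

end

/-! ### Lib_MP_af4de1_v3.DzRL8 -/

section
namespace SokamCen
end SokamCen
namespace SokamV3
end SokamV3
/-!
# `PRealDL`, `X ≤ 80`, stage 8: the images and the left tail for `t ≥ 14/5` (helper7)
-/

set_option autoImplicit false

namespace SokamDz

open Real MeasureTheory Set SokamCen SokamV3

variable {r ρ t p y x X : ℝ}

/-- `1/p - 1 ≥ y/2` -/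
theorem Pr.u_y (h : Pr ρ t p y x) : y / 2 ≤ 1 / p - 1 := by
  have hp := h.p0
  have hp1 := h.p1
  have : 1 + y / 2 ≤ 1 / p := by
    rw [le_div_iff₀ hp, h.hy]
    nlinarith only [hp1, mul_nonneg hp.le (sub_nonneg.2 hp1.le)]
  linarith only [this]

/-- `√PP ≤ exp (57 u/50)` -/
theorem Pr.sPP3 (h : Pr ρ t p y x) : √(PP p y) ≤ 1 * exp ((228 / 100 * (1 / p - 1)) / 2) := by
  have hp := h.p0
  have hu := h.u0
  rw [one_mul, Real.sqrt_le_left (by positivity), ← Real.exp_nat_mul]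
  have e : ((2 : ℕ) : ℝ) * ((228 / 100 * (1 / p - 1)) / 2) =
      128 / 100 * (1 / p - 1) + (1 / p - 1) := by
    push_cast
    ring
  rw [e, Real.exp_add]
  have h1 := Real.add_one_le_exp (1 / p - 1)
  have h3 := Real.add_one_le_exp (128 / 100 * (1 / p - 1))
  have h2 : PP p y = (1 + 16 / 25 * y) * (1 / p) := by
    unfold PP
    ring
  rw [h2]
  have hy : y ≤ 2 * (1 / p - 1) := by
    have h4 : 1 / p - 1 = (1 - p) / p := by field_simp
    rw [h4, h.hy]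
    have h5 : (1 - p) * p ≤ 1 - p := by nlinarith only [h.p1]
    have h6 : 1 - p ≤ (1 - p) / p := by rwa [le_div_iff₀ hp]
    have : 1 - p ^ (2 : ℕ) ≤ 2 * (1 - p) := by linarith only [sq_nonneg (1 - p)]
    linarith only [h6, this]
  have hy0 := h.y0
  refine mul_le_mul ?_ (by linarith only [h1]) (by positivity) (exp_pos _).le
  linarith only [h3, hy]

/-- left tail, all `y` -/
theorem Pr.glT3 (h : Pr ρ t p y x) (hr : 499 / 10 ≤ r) (hX : X = r * x ^ (2 : ℕ)) (hX1 : 108 / 5 ≤ X)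
    (hx : x ≤ 6331 / 5000) :
    SokamDz.Kc r ρ * (20 / 3 * lT (8 / 9 * r) ρ t + lT r ρ t) ≤
      67 / 1000 * (54 / 125 * exp (-(17 / 100 * X))) := by
  have hr0 : 0 < r := by linarith only [hr]
  have hp0 := h.p0
  have hu := h.u0
  have ha := aa_u hp0
  have ha0 := aa_pos hp0 h.p1
  have hk0 := h.k_pos
  have hE := h.lAt hX
  set k := min 1 (mm ρ / t) with hkd
  have hk1 : 987 / 1000 ≤ k := h.k_ge hx
  -- `X aa k ≥ X' (12/25 + 4/5 u)`, `X' ≥ 21.6`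
  have hXk : 108 / 5 ≤ X * k := by
    rcases le_total x (5 / 4) with hx5 | hx5
    · have := h.k_one hx5
      rw [hkd, this, mul_one]
      exact hX1
    · have : 779 / 10 ≤ X := by
        rw [hX]
        have h1 : (5 / 4 : ℝ) ^ (2 : ℕ) ≤ x ^ (2 : ℕ) := pow_le_pow_left₀ (by norm_num) hx5 2
        nlinarith only [hr, h1]
      nlinarith only [hk1, this]
  have hkX : 17 / 100 * X ≤ 173 / 1000 * (X * k) := by nlinarith only [hk1, hXk]
  have hkX' : 5544 / 1000 ≤ 8 / 9 * (X * k * (12 / 25)) - 17 / 100 * X := by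
    rcases le_total x (5 / 4) with hx5 | hx5
    · have := h.k_one hx5
      rw [hkd, this, mul_one]
      linarith only [hX1]
    · have : 779 / 10 ≤ X := by
        rw [hX]
        have h1 : (5 / 4 : ℝ) ^ (2 : ℕ) ≤ x ^ (2 : ℕ) := pow_le_pow_left₀ (by norm_num) hx5 2
        nlinarith only [hr, h1]
      linarith only [hkX, this]
  have hd : exp (-(X * (aa p * k) / 9)) ≤ 3162 / 10000 := by
    refine ex_neg 1 (152 / 1000) ?_ (by norm_num) (by norm_num) (by norm_num)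
    have : X * k * (12 / 25) ≤ X * k * aa p := mul_le_mul_of_nonneg_left ha0.le (by linarith only [hXk])
    norm_num
    linarith only [hXk, this]
  refine closeU (h.GlT hr0 hE.ge hd) (by norm_num) (by norm_num : (0 : ℝ) ≤ 1) h.sPP3
    (E0 := 5544 / 1000) (ex := 3914 / 1000000) ?_ ?_ (by norm_num)
  · have e : X * (aa p * k) = X * k * (12 / 25) + X * k * (4 / 5 * (1 / p - 1)) := by
      rw [ha]
      ring
    rw [e]
    have : 108 / 5 * (4 / 5 * (1 / p - 1)) ≤ X * k * (4 / 5 * (1 / p - 1)) :=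
      mul_le_mul_of_nonneg_right hXk (by linarith only [hu])
    linarith only [ha, ha0, hkX', this]
  · exact ex_neg 5 (544 / 1000) (by norm_num) (by norm_num) (by norm_num) (by norm_num)

/-- `Y` as a function of `w = φ/t` -/
theorem Pr.Yw (h : Pr ρ t p y x) (hX : X = r * x ^ (2 : ℕ)) {φ w : ℝ} (hw0 : 0 < w)
    (hw : w * t = φ) (hm : φ ≤ mm ρ) :
    r * (SokamDz.rA ρ φ * φ ^ (2 : ℕ)) = X * (w ^ (2 : ℕ) * (aa p - 8 / 25 *
      ((4 / 5 * (w * x)) / 3 + 5 * (4 / 5 * (w * x)) ^ (2 : ℕ) / 48))) := by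
  have hm0 := h.m0
  have ht0 := h.t0
  have hφ0 : 0 < φ := by rw [← hw]; positivity
  have hT : cT (mm ρ) φ = 4 / 5 * (w * x) := by
    unfold cT
    rw [min_eq_right (by rwa [div_le_one hm0]), ← hw, mul_div_assoc, h.tm]
    ring
  have hk : min 1 (mm ρ / φ) = 1 := min_eq_left (by rwa [le_div_iff₀ hφ0, one_mul])
  rw [h.rA, hT, hk, ← hw, hX]
  linear_combination r * w ^ (2 : ℕ) * (aa p - 8 / 25 *
      ((4 / 5 * (w * x)) / 3 + 5 * (4 / 5 * (w * x)) ^ (2 : ℕ) / 48)) * h.ts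

/-- `w ≥ 1` -/
theorem Pr.Yeta (h : Pr ρ t p y x) (hX0 : 0 ≤ X) (hX : X = r * x ^ (2 : ℕ)) {φ w : ℝ} (hw1 : 1 ≤ w)
    (hw : w * t = φ) (hm : φ ≤ mm ρ) (ht1 : t ≤ π) :
    X * (12 / 25 - 853334 / 10000000 * x + 191 / 10000 * x ^ (2 : ℕ)) ≤
      r * (SokamDz.rA ρ φ * φ ^ (2 : ℕ)) := by
  have hm0 := h.m0
  have ht0 := h.t0
  have hx0 := h.x0
  have hpi := Real.pi_lt_d4
  rw [h.Yw hX (by linarith only [hw1]) hw hm]
  refine mul_le_mul_of_nonneg_left ?_ hX0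
  have hwx : w * x ≤ 5 / 4 := by
    have h1 : φ / mm ρ ≤ 1 := by rwa [div_le_one hm0]
    rw [← hw, mul_div_assoc, h.tm] at h1
    linarith only [h1]
  have hyx : 10131 / 100000 * x ^ (2 : ℕ) ≤ y := by
    rw [← h.ts]
    have : t ^ (2 : ℕ) ≤ (31416 / 10000) ^ (2 : ℕ) := pow_le_pow_left₀ ht0.le (by linarith only [ht1, hpi]) 2
    have hy0 := h.y0
    nlinarith only [this, hy0]
  have ha : 12 / 25 + 405 / 10000 * x ^ (2 : ℕ) ≤ aa p := by
    rw [aa_u h.p0]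
    have := h.u_y
    nlinarith only [hyx, this]
  have hxx : x ≤ 5 / 4 := by nlinarith only [hw1, hwx]
  have h1 : w ^ (2 : ℕ) * (12 / 25 + 405 / 10000 * x ^ (2 : ℕ) - 8 / 25 *
      ((4 / 5 * (w * x)) / 3 + 5 * (4 / 5 * (w * x)) ^ (2 : ℕ) / 48)) ≤ w ^ (2 : ℕ) * (aa p - 8 / 25 *
      ((4 / 5 * (w * x)) / 3 + 5 * (4 / 5 * (w * x)) ^ (2 : ℕ) / 48)) :=
    mul_le_mul_of_nonneg_left (by linarith only [ha]) (sq_nonneg w)
  refine le_trans ?_ h1
  -- bracket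
  have hb : 0 ≤ (12 / 25 + 405 / 10000 * x ^ (2 : ℕ)) * (w + 1) - 32 / 375 * x * (w ^ (2 : ℕ) + w + 1) -
      8 / 375 * x ^ (2 : ℕ) * (w ^ (3 : ℕ) + w ^ (2 : ℕ) + w + 1) := by
    have e1 : x * (w ^ (2 : ℕ) + w + 1) ≤ 5 / 4 * (w + 2) := by nlinarith only [hw1, hwx]
    have e2 : x ^ (2 : ℕ) * (w ^ (3 : ℕ) + w ^ (2 : ℕ) + w + 1) ≤ 25 / 16 * (w + 1) + x ^ (2 : ℕ) * (w + 1) := by
      have : (w * x) ^ (2 : ℕ) ≤ (5 / 4) ^ (2 : ℕ) := pow_le_pow_left₀ (by positivity) hwx 2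
      nlinarith only [hw1, this]
    nlinarith only [hw1, e1, e2]
  have hF := mul_nonneg (sub_nonneg.2 hw1) hb
  have e3 : w ^ (2 : ℕ) * (12 / 25 + 405 / 10000 * x ^ (2 : ℕ) - 8 / 25 *
      ((4 / 5 * (w * x)) / 3 + 5 * (4 / 5 * (w * x)) ^ (2 : ℕ) / 48)) =
      (w - 1) * ((12 / 25 + 405 / 10000 * x ^ (2 : ℕ)) * (w + 1) - 32 / 375 * x * (w ^ (2 : ℕ) + w + 1) -
      8 / 375 * x ^ (2 : ℕ) * (w ^ (3 : ℕ) + w ^ (2 : ℕ) + w + 1)) +
      (12 / 25 + 405 / 10000 * x ^ (2 : ℕ) - 32 / 375 * x - 8 / 375 * x ^ (2 : ℕ)) := by ring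
  rw [e3]
  nlinarith only [hx0, hF]

end SokamDz

end
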