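import Pool.Agent.Lib_MP_af4de1_zy.Z76
import Pool.Agent.Lib_MP_af4de1_zy.Z96

/-! ### Lib_MP_af4de1_v3.DzRX0 -/

section
namespace SokamCel
end SokamCel
namespace SokamFN
end SokamFN
/-!
# `PRealDR`, `X ≤ 80`: the machine (helper48)

`s = 1/√R`, `p = ρ/√R`, `x = t/√R`, `y = s²`; `p` times the quadratic coefficients over `y` are `wR`, `wL`.
Two kinds of terms, `gM` (main) and `gT` (tail, front), and their bounds on a box.
-/

set_option autoImplicit false

namespace SokamDR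

open Real SokamFN SokamCel

/-- main term -/
noncomputable def gM (N w y p b q X : ℝ) : ℝ :=
  √(N / (w * y + p * b)) * exp (-(8 / 9 * (X * (q * (w * b / (w * y + p * b))))))
/-- tail term -/
noncomputable def gT (N w p q X : ℝ) : ℝ := √(N / p) * exp (-(8 / 9 * (X * (q * (w / p)))))

/-- upper bound of `17/100` -/
def kU : ℕ := 186916976722
/-- lower bound of `8/9` -/
def c89 : ℕ := 977343669134
/-- `1/2` -/
def hf : ℕ := 549755813888

theorem kU_ge : (17 : ℝ) / 100 ≤ fx kU := by unfold fx kU; norm_num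
theorem c89_le : fx c89 ≤ 8 / 9 := by unfold fx c89; norm_num
theorem hf_eq : fx hf = 1 / 2 := by unfold fx hf; norm_num

/-- lower bound of `q w b/(w y + p b)` -/
def vM (w0 y1 p1 b0 q0 : ℕ) : ℕ := mL q0 (dL SC (dU y1 b0 + dU p1 w0))

theorem vM_le {w y p b q : ℝ} {w0 y1 p1 b0 q0 : ℕ} (hw : fx w0 ≤ w) (hw0 : 0 < w0) (hb : fx b0 ≤ b)
    (hb0 : 0 < b0) (hy : 0 < y) (hy1 : y ≤ fx y1) (hp : 0 < p) (hp1 : p ≤ fx p1) (hq : fx q0 ≤ q) :
    fx (vM w0 y1 p1 b0 q0) ≤ q * (w * b / (w * y + p * b)) := by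
  have w1 : 0 < w := (fx_pos hw0).trans_le hw
  have b1 : 0 < b := (fx_pos hb0).trans_le hb
  have e : w * b / (w * y + p * b) = 1 / (y / b + p / w) := by
    field_simp
  rw [e]
  have h1 : y / b + p / w ≤ fx (dU y1 b0 + dU p1 w0) :=
    addU (divU hy1 hb hb0) (divU hp1 hw hw0)
  exact mulL hq (divL (by rw [fx_one]) h1 (by positivity))

/-- the bound of `gM e^(κX)` -/
def uM (N1 w0 y0 p0 b0 V X0 : ℕ) : ℕ :=
  mU (sqU (dU N1 (mL w0 y0 + mL p0 b0))) (eN (mL (mL V c89 - kU) X0))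

theorem uM_le {N w y p b q X : ℝ} {N1 w0 y0 p0 b0 V X0 : ℕ} (hN0 : 0 ≤ N) (hN : N ≤ fx N1)
    (hw : fx w0 ≤ w) (hy : fx y0 ≤ y) (hp : fx p0 ≤ p) (hb : fx b0 ≤ b) (hD : 0 < mL w0 y0 + mL p0 b0)
    (hV : fx V ≤ q * (w * b / (w * y + p * b))) (hk : kU ≤ mL V c89) (hX : fx X0 ≤ X) :
    gM N w y p b q X ≤ fx (uM N1 w0 y0 p0 b0 V X0) * exp (-(17 / 100 * X)) := by
  have hX0 : 0 ≤ X := (fx_nonneg _).trans hX
  obtain ⟨v, hv⟩ : ∃ v, v = q * (w * b / (w * y + p * b)) := ⟨_, rfl⟩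
  have h1 : fx (mL w0 y0 + mL p0 b0) ≤ w * y + p * b := addL (mulL hw hy) (mulL hp hb)
  have h2 : √(N / (w * y + p * b)) ≤ fx (sqU (dU N1 (mL w0 y0 + mL p0 b0))) := sqrtU (divU hN h1 hD)
  have h3 : fx (mL V c89 - kU) ≤ v * (8 / 9) - 17 / 100 :=
    subL (mulL (by rw [hv]; exact hV) c89_le) kU_ge hk
  have h4 : exp (-((v * (8 / 9) - 17 / 100) * X)) ≤ fx (eN (mL (mL V c89 - kU) X0)) :=
    expNegU (mulL h3 hX)
  have h5 : exp (-(8 / 9 * (X * v))) = exp (-((v * (8 / 9) - 17 / 100) * X)) * exp (-(17 / 100 * X)) := by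
    rw [← exp_add]; congr 1; ring
  unfold gM uM
  rw [← hv, h5, ← mul_assoc]
  exact mul_le_mul_of_nonneg_right (mulU h2 h4 (exp_pos _).le) (exp_pos _).le

/-- the bound of `gT e^(κX)` -/
def uT (N1 w0 p1 q0 X0 : ℕ) : ℕ :=
  mU (sqU N1) (eN (dL (mL (mL (mL q0 w0) c89) X0 - hf) p1 + hf - mU kU X0))

/-- the conditions -/
def cT' (w0 p1 q0 X0 : ℕ) : Bool :=
  Nat.ble hf (mL (mL (mL q0 w0) c89) X0) && Nat.ble (mU kU X0) (dL (mL (mL (mL q0 w0) c89) X0 - hf) p1 + hf) &&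
    Nat.ble kU (dL (mL (mL q0 w0) c89) p1)

theorem uT_le {N w p q X : ℝ} {N1 w0 p1 q0 X0 : ℕ} (hN0 : 0 ≤ N) (hN : N ≤ fx N1)
    (hw : fx w0 ≤ w) (hp0 : 0 < p) (hp : p ≤ fx p1) (hq : fx q0 ≤ q) (hX : fx X0 ≤ X)
    (h : cT' w0 p1 q0 X0 = true) :
    gT N w p q X ≤ fx (uT N1 w0 p1 q0 X0) * exp (-(17 / 100 * X)) := by
  unfold cT' at h
  simp only [Bool.and_eq_true, Nat.ble_eq] at h
  obtain ⟨⟨a1, a2⟩, a3⟩ := h
  have hX0 : 0 ≤ fx X0 := fx_nonneg _
  have hm := mulL (mulL hq hw) c89_le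
  obtain ⟨z, hz⟩ : ∃ z, z = q * w * (8 / 9) := ⟨_, rfl⟩
  rw [← hz] at hm
  have h1 : 17 / 100 ≤ z / p := kU_ge.trans ((fx_mono a3).trans (divL hm hp hp0))
  have h2 : fx (mL (mL (mL q0 w0) c89) X0) ≤ z * fx X0 := mulL hm le_rfl
  have h3 : fx (mL (mL (mL q0 w0) c89) X0 - hf) ≤ z * fx X0 - 1 / 2 := subL h2 hf_eq.ge a1
  have h4 : fx (dL (mL (mL (mL q0 w0) c89) X0 - hf) p1 + hf) ≤ (z * fx X0 - 1 / 2) / p + 1 / 2 :=
    addL (divL h3 hp hp0) hf_eq.le
  have h5 : 17 / 100 * fx X0 ≤ fx (mU kU X0) := mulU kU_ge le_rfl hX0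
  have h6 := subL h4 h5 a2
  have h7 : exp (-((z * fx X0 - 1 / 2) / p + 1 / 2 - 17 / 100 * fx X0)) ≤
      fx (eN (dL (mL (mL (mL q0 w0) c89) X0 - hf) p1 + hf - mU kU X0)) := expNegU h6
  have h8 : √N ≤ fx (sqU N1) := sqrtU hN
  have h9 : √(1 / p) ≤ exp ((1 / p - 1) / 2) := by
    rw [Real.sqrt_le_left (exp_pos _).le, ← exp_nat_mul]
    have := Real.add_one_le_exp (1 / p - 1)
    refine le_trans (by linarith only []) (this.trans (le_of_eq ?_))
    congr 1
    push_cast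
    ring
  have h10 : √(N / p) ≤ √N * exp ((1 / p - 1) / 2) := by
    rw [div_eq_mul_one_div, Real.sqrt_mul hN0]
    exact mul_le_mul_of_nonneg_left h9 (Real.sqrt_nonneg _)
  have h11 : exp ((1 / p - 1) / 2) * exp (-(8 / 9 * (X * (q * (w / p))))) ≤
      exp (-((z * fx X0 - 1 / 2) / p + 1 / 2 - 17 / 100 * fx X0)) * exp (-(17 / 100 * X)) := by
    rw [← exp_add, ← exp_add, exp_le_exp]
    have e1 : 8 / 9 * (X * (q * (w / p))) = z / p * X := by rw [hz]; field_simp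
    have e2 : (z * fx X0 - 1 / 2) / p = z / p * fx X0 - 1 / p / 2 := by field_simp
    rw [e1, e2]
    linarith only [mul_nonneg (sub_nonneg.2 h1) (sub_nonneg.2 hX)]
  unfold gT uT
  calc √(N / p) * exp (-(8 / 9 * (X * (q * (w / p))))) ≤
      √N * exp ((1 / p - 1) / 2) * exp (-(8 / 9 * (X * (q * (w / p))))) :=
        mul_le_mul_of_nonneg_right h10 (exp_pos _).le
    _ = √N * (exp ((1 / p - 1) / 2) * exp (-(8 / 9 * (X * (q * (w / p)))))) := by ring
    _ ≤ √N * (exp (-((z * fx X0 - 1 / 2) / p + 1 / 2 - 17 / 100 * fx X0)) * exp (-(17 / 100 * X))) :=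
        mul_le_mul_of_nonneg_left h11 (Real.sqrt_nonneg _)
    _ = √N * exp (-((z * fx X0 - 1 / 2) / p + 1 / 2 - 17 / 100 * fx X0)) * exp (-(17 / 100 * X)) := by
        ring
    _ ≤ _ := mul_le_mul_of_nonneg_right (mulU h8 h7 (exp_pos _).le) (exp_pos _).le

/-! ### the weight constant -/

/-- `HC` in the variable `x` (`t/m = 4x/5`) -/
def HCx (x C : ℝ) : Prop := 14 / 5 ≤ C ∨ ∃ T : ℝ, 4 / 5 * x ≤ T ∧ T ≤ 1 ∧ 1 ≤ C ∧
  (1 + T / 2 + 2 * T ^ (2 : ℕ) / 9) ^ (2 : ℕ) ≤ C * (5 / 2 - (1 + T / 3 + 5 * T ^ (2 : ℕ) / 48))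

theorem HCx.mono {x x' C : ℝ} (h : HCx x' C) (hx : x ≤ x') : HCx x C := by
  rcases h with h | ⟨T, h1, h2⟩
  · exact Or.inl h
  · exact Or.inr ⟨T, by linarith only [hx, h1], h2⟩

/-- upper bound of `5 C + 7695/10000` -/
def kC (x1 : ℕ) : ℕ :=
  bif Nat.ble x1 725677674332 then 8322753266451 else
  bif Nat.ble x1 769658139443 then 8707582336173 else
  bif Nat.ble x1 824633720832 then 9202362568672 else
  bif Nat.ble x1 962072674304 then 10521776522003 else 16239236986438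

theorem kC_spec (x1 : ℕ) : ∃ C : ℝ, HCx (fx x1) C ∧ 0 < C ∧ 5 * C + 7695 / 10000 ≤ fx (kC x1) := by
  unfold kC
  cases h1 : Nat.ble x1 725677674332 with
  | true =>
    rw [Nat.ble_eq] at h1
    refine ⟨34 / 25, Or.inr ⟨66 / 125, ?_, by norm_num, by norm_num, by norm_num⟩, by norm_num, ?_⟩
    · have := fx_mono h1
      have e : fx 725677674332 ≤ 33 / 50 := by unfold fx; norm_num
      linarith only [this, e]
    · simp only [cond_true]
      unfold fx
      norm_num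
  | false =>
    simp only [cond_false]
    cases h2 : Nat.ble x1 769658139443 with
    | true =>
      rw [Nat.ble_eq] at h2
      refine ⟨143 / 100, Or.inr ⟨14 / 25, ?_, by norm_num, by norm_num, by norm_num⟩, by norm_num, ?_⟩
      · have := fx_mono h2
        have e : fx 769658139443 ≤ 7 / 10 := by unfold fx; norm_num
        linarith only [this, e]
      · simp only [cond_true]
        unfold fx
        norm_num
    | false =>
      simp only [cond_false]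
      cases h3 : Nat.ble x1 824633720832 with
      | true =>
        rw [Nat.ble_eq] at h3
        refine ⟨38 / 25, Or.inr ⟨3 / 5, ?_, by norm_num, by norm_num, by norm_num⟩, by norm_num, ?_⟩
        · have := fx_mono h3
          have e : fx 824633720832 ≤ 3 / 4 := by unfold fx; norm_num
          linarith only [this, e]
        · simp only [cond_true]
          unfold fx
          norm_num
      | false =>
        simp only [cond_false]
        cases h4 : Nat.ble x1 962072674304 with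
        | true =>
          rw [Nat.ble_eq] at h4
          refine ⟨44 / 25, Or.inr ⟨7 / 10, ?_, by norm_num, by norm_num, by norm_num⟩, by norm_num, ?_⟩
          · have := fx_mono h4
            have e : fx 962072674304 ≤ 7 / 8 := by unfold fx; norm_num
            linarith only [this, e]
          · simp only [cond_true]
            unfold fx
            norm_num
        | false =>
          refine ⟨14 / 5, Or.inl le_rfl, by norm_num, ?_⟩
          simp only [cond_false]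
          unfold fx
          norm_num

end SokamDR

end

/-! ### Lib_MP_af4de1_v3.DzRX1 -/

section
namespace SokamCel
end SokamCel
namespace SokamFN
end SokamFN
/-!
# `PRealDR`, `X ≤ 80`: the test of a box, its soundness, and the run (helper48)
-/

set_option autoImplicit false

namespace SokamDR

open Real SokamFN SokamCel

/-! ### the test -/

/-- lower bound of `p` times the coefficient, right -/
def fR (p1 x1 : ℕ) : ℕ :=
  mL (879609302220 - mU (mU 351843720889 p1) (SC + mU (min SC (mU x1 879609302221)) 366503875926 +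
    mU (mU (min SC (mU x1 879609302221)) (min SC (mU x1 879609302221))) 114532461227))
    (dL SC (max SC (mU x1 879609302221)))
/-- lower bound of `p` times the coefficient, left -/
def fL (p1 xh : ℕ) : ℕ :=
  mL (879609302220 - mU 351843720889 p1) (dL SC (max SC (mU xh 879609302221)))
/-- lower bound of `B'` -/
def fB (xh : ℕ) : ℕ := mL 483785116221 (eNL (min SC (mU xh 879609302221)))
/-- lower bound of `ψ = (x'/x)²` -/
def fQ (s0 x1 : ℕ) : ℕ :=
  max SC (mL (dL (mL s0 6908231557316 - x1) x1) (dL (mL s0 6908231557316 - x1) x1))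

/-- conditions of a main term -/
def okM (w0 y0 p0 b0 V X0 : ℕ) : Bool :=
  Nat.blt 0 w0 && Nat.blt 0 b0 && Nat.blt 0 (mL w0 y0 + mL p0 b0) && Nat.ble kU (mL V c89) &&
    Nat.ble 9070970929152 (mL V X0)

/-- the sum -/
def smY (y0 y1 p0 p1 N1 X0 wr wl bl q0 kc Vr Vl : ℕ) (fr : Bool) : ℕ :=
  mU kc (uM N1 wr y0 p0 483785116221 Vr X0) + mU 13744994858828 (uT N1 wr p1 SC X0) +
    mU 5816416510936 (uM N1 wl y0 p0 bl Vl X0) + mU 8194660161815 (uT N1 wl p1 q0 X0) +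
    (bif fr then 0 else mU 2913705813607 (uT (dU N1 wl) 483785116221 y1 SC X0))

/-- the test, data given -/
def okY (y0 y1 p0 p1 N1 X0 wr wl bl q0 kc Vr Vl : ℕ) (fr : Bool) : Bool :=
  okM wr y0 p0 483785116221 Vr X0 && okM wl y0 p0 bl Vl X0 && cT' wr p1 SC X0 && cT' wl p1 q0 X0 &&
    (fr || cT' 483785116221 y1 SC X0) &&
    Nat.ble (smY y0 y1 p0 p1 N1 X0 wr wl bl q0 kc Vr Vl fr) 427490120879

/-- the test, some data given -/
def okZ (y0 y1 p0 p1 X0 xh q0 kc : ℕ) (x1 : ℕ) (fr : Bool) : Bool :=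
  okY y0 y1 p0 p1 (SC + mU 703687441777 y1) X0 (fR p1 x1) (fL p1 xh) (fB xh) q0 kc
    (vM (fR p1 x1) y1 p1 483785116221 SC) (vM (fL p1 xh) y1 p1 (fB xh) q0) fr

/-- the test of a box -/
def okX (s0 s1 x0 x1 _z0 _z1 : ℕ) : Bool :=
  Nat.blt (mU s1 3454225729822) x0 ||
    okZ (mL s0 s0) (min SC (mU s1 s1)) (sqL (SC - min SC (mU s1 s1))) (min SC (sqU (SC - mL s0 s0)))
      (max 23749451159961 (mL 54865630226022 (mL x0 x0))) (mU s1 6908451459643 - x0) (fQ s0 x1) (kC x1) x1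
      (Nat.ble (mU s1 1319413953332) x0)

/-! ### soundness -/

/-- `1 + 16/25 y` -/
noncomputable def NN (s : ℝ) : ℝ := 1 + 16 / 25 * s ^ (2 : ℕ)
/-- `p` times the coefficient, right -/
noncomputable def wR (p x : ℝ) : ℝ :=
  (4 / 5 - 8 / 25 * p * (1 + min 1 (4 / 5 * x) / 3 + 5 * min 1 (4 / 5 * x) ^ (2 : ℕ) / 48)) *
    (1 / max 1 (4 / 5 * x))
/-- `p` times the coefficient, left -/
noncomputable def wL (p x : ℝ) : ℝ := (4 / 5 - 8 / 25 * p) * (1 / max 1 (4 / 5 * x))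
/-- `B'` -/
noncomputable def bL' (x : ℝ) : ℝ := 11 / 25 * exp (-(min 1 (4 / 5 * x)))

open scoped Classical in
/-- the sum of the five terms -/
noncomputable def S5 (C N w w' y p b ψ X : ℝ) (fr : Prop) : ℝ :=
  (5 * C + 7695 / 10000) * gM N w y p (11 / 25) 1 X + 12501 / 1000 * gT N w p 1 X +
    529 / 100 * gM N w' y p b ψ X + 7453 / 1000 * gT N w' p ψ X +
    (if fr then 265 / 100 * gT (N / w') (11 / 25) y 1 X else 0)

/-- the inequality at one point -/
def PX (s x : ℝ) : Prop := ∀ p X : ℝ, 0 < s → 0 < p → p ^ (2 : ℕ) + s ^ (2 : ℕ) = 1 → 0 < x → x ≤ π * s →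
  108 / 5 ≤ X → 499 / 10 * x ^ (2 : ℕ) ≤ X → ∃ C : ℝ, HCx x C ∧ 0 < C ∧
    33 / 4 ≤ X * (1 * (wR p x * (11 / 25) / (wR p x * s ^ (2 : ℕ) + p * (11 / 25)))) ∧
    33 / 4 ≤ X * (((2 * π * s - x) / x) ^ (2 : ℕ) * (wL p (2 * π * s - x) * bL' (2 * π * s - x) /
      (wL p (2 * π * s - x) * s ^ (2 : ℕ) + p * bL' (2 * π * s - x)))) ∧
    S5 C (NN s) (wR p x) (wL p (2 * π * s - x)) (s ^ (2 : ℕ)) p (bL' (2 * π * s - x))
      (((2 * π * s - x) / x) ^ (2 : ℕ)) X (x < 6 / 5 * s) ≤ 243 / 625 * exp (-(17 / 100 * X))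

theorem c45U : (4 / 5 : ℝ) ≤ fx 879609302221 := by unfold fx; norm_num
theorem c45L : fx 879609302220 ≤ (4 / 5 : ℝ) := by unfold fx; norm_num
theorem c825U : (8 / 25 : ℝ) ≤ fx 351843720889 := by unfold fx; norm_num
theorem c13U : (1 / 3 : ℝ) ≤ fx 366503875926 := by unfold fx; norm_num
theorem c548U : (5 / 48 : ℝ) ≤ fx 114532461227 := by unfold fx; norm_num
theorem c1125L : fx 483785116221 ≤ (11 / 25 : ℝ) := by unfold fx; norm_num

theorem fR_le {p x : ℝ} {p1 x1 : ℕ} (hp0 : 0 < p) (hp : p ≤ fx p1) (hx0 : 0 < x) (hx : x ≤ fx x1)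
    (h0 : 0 < fR p1 x1) : fx (fR p1 x1) ≤ wR p x := by
  have h1 : 4 / 5 * x ≤ fx (mU x1 879609302221) := by
    rw [mul_comm]; exact mulU hx c45U (by norm_num)
  have hT : min 1 (4 / 5 * x) ≤ fx (min SC (mU x1 879609302221)) := minU (by rw [fx_one]) h1
  have hT0 : 0 ≤ min 1 (4 / 5 * x) := le_min zero_le_one (by positivity)
  have hM : max 1 (4 / 5 * x) ≤ fx (max SC (mU x1 879609302221)) := maxU (by rw [fx_one]) h1
  have hM0 : 0 < max 1 (4 / 5 * x) := lt_max_of_lt_left one_pos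
  have h2 : fx (dL SC (max SC (mU x1 879609302221))) ≤ 1 / max 1 (4 / 5 * x) :=
    divL (by rw [fx_one]) hM hM0
  have h3 : 1 + min 1 (4 / 5 * x) / 3 + 5 * min 1 (4 / 5 * x) ^ (2 : ℕ) / 48 ≤
      fx (SC + mU (min SC (mU x1 879609302221)) 366503875926 +
        mU (mU (min SC (mU x1 879609302221)) (min SC (mU x1 879609302221))) 114532461227) := by
    refine addU (addU (by rw [fx_one]) ?_) ?_
    · rw [div_eq_mul_one_div]
      exact mulU hT c13U (by norm_num)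
    · have := mulU (mulU hT hT hT0) c548U (by norm_num)
      refine le_trans (le_of_eq ?_) this
      ring
  have h30 : 0 ≤ 1 + min 1 (4 / 5 * x) / 3 + 5 * min 1 (4 / 5 * x) ^ (2 : ℕ) / 48 := by positivity
  have h4 := mulU (mulU c825U hp hp0.le) h3 h30
  unfold fR at h0 ⊢
  unfold wR
  refine mulL (subL c45L h4 ?_) h2
  by_contra hc
  rw [Nat.sub_eq_zero_of_le (by omega)] at h0
  simp [mL] at h0

theorem fL_le {p x : ℝ} {p1 x1 : ℕ} (hp0 : 0 < p) (hp : p ≤ fx p1) (hx : x ≤ fx x1)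
    (h0 : 0 < fL p1 x1) : fx (fL p1 x1) ≤ wL p x := by
  have h1 : 4 / 5 * x ≤ fx (mU x1 879609302221) := by
    rw [mul_comm]; exact mulU hx c45U (by norm_num)
  have hM : max 1 (4 / 5 * x) ≤ fx (max SC (mU x1 879609302221)) := maxU (by rw [fx_one]) h1
  have hM0 : 0 < max 1 (4 / 5 * x) := lt_max_of_lt_left one_pos
  have h2 : fx (dL SC (max SC (mU x1 879609302221))) ≤ 1 / max 1 (4 / 5 * x) :=
    divL (by rw [fx_one]) hM hM0
  have h4 := mulU c825U hp hp0.le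
  unfold fL at h0 ⊢
  unfold wL
  refine mulL (subL c45L h4 ?_) h2
  by_contra hc
  rw [Nat.sub_eq_zero_of_le (by omega)] at h0
  simp [mL] at h0

theorem fB_le {x : ℝ} {xh : ℕ} (hx : x ≤ fx xh) : fx (fB xh) ≤ bL' x := by
  have h1 : 4 / 5 * x ≤ fx (mU xh 879609302221) := by
    rw [mul_comm]; exact mulU hx c45U (by norm_num)
  have hT : min 1 (4 / 5 * x) ≤ fx (min SC (mU xh 879609302221)) := minU (by rw [fx_one]) h1
  exact mulL c1125L (eNL_le hT)

theorem fQ_le {s x : ℝ} {s0 x1 : ℕ} (hs : fx s0 ≤ s) (hs0 : 0 < s) (hx0 : 0 < x) (hx : x ≤ fx x1)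
    (hxs : x ≤ π * s) : fx (fQ s0 x1) ≤ ((2 * π * s - x) / x) ^ (2 : ℕ) := by
  have h1 : 1 ≤ (2 * π * s - x) / x := by
    rw [one_le_div hx0]
    linarith
  have h2 : fx (mL s0 6908231557316 - x1) ≤ 2 * π * s - x := by
    rcases le_total x1 (mL s0 6908231557316) with h | h
    · refine subL ?_ hx h
      rw [mul_comm]
      refine mulL hs ?_
      have := Real.pi_gt_d4
      unfold fx
      norm_num at this ⊢
      linarith
    · rw [Nat.sub_eq_zero_of_le h, fx_zero]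
      have := mul_pos Real.pi_pos hs0
      linarith
  have h3 := divL h2 hx hx0
  unfold fQ
  rcases max_choice SC (mL (dL (mL s0 6908231557316 - x1) x1) (dL (mL s0 6908231557316 - x1) x1)) with
    e | e
  · rw [e, fx_one]
    nlinarith
  · rw [e, pow_two]
    exact mulL h3 h3

theorem bltI {a b : ℕ} : Nat.blt a b = true ↔ a < b := by
  simp [Nat.blt, Nat.ble_eq]

theorem okM_spec {w y p b q X : ℝ} {w0 y0 p0 b0 V X0 : ℕ} (h : okM w0 y0 p0 b0 V X0 = true)
    (hV : fx V ≤ q * (w * b / (w * y + p * b))) (hX : fx X0 ≤ X) :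
    0 < w0 ∧ 0 < b0 ∧ 0 < mL w0 y0 + mL p0 b0 ∧ kU ≤ mL V c89 ∧
      33 / 4 ≤ X * (q * (w * b / (w * y + p * b))) := by
  unfold okM at h
  simp only [Bool.and_eq_true, bltI, Nat.ble_eq] at h
  obtain ⟨⟨⟨⟨a1, a2⟩, a3⟩, a4⟩, a5⟩ := h
  refine ⟨a1, a2, a3, a4, ?_⟩
  have h1 := mulL hV hX
  have h2 : (33 / 4 : ℝ) ≤ fx 9070970929152 := by unfold fx; norm_num
  have h3 := fx_mono a5
  rw [mul_comm] at h1
  linarith

end SokamDR

end

/-! ### Lib_MP_af4de1_v3.DzRX2 -/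

section
namespace SokamCel
end SokamCel
namespace SokamFN
end SokamFN
/-!
# `PRealDR`, `X ≤ 80`: the inequality at every point (helper48)
-/

set_option autoImplicit false

namespace SokamDR

open Real SokamFN SokamCel

theorem gM_nonneg (N w y p b q X : ℝ) : 0 ≤ gM N w y p b q X := by unfold gM; positivity
theorem gT_nonneg (N w p q X : ℝ) : 0 ≤ gT N w p q X := by unfold gT; positivity

/-- one term of the sum -/
theorem term_le {c g e : ℝ} {a u : ℕ} (hc : c ≤ fx a) (hg : g ≤ fx u * e) (hg0 : 0 ≤ g) (he : 0 ≤ e) :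
    c * g ≤ fx (mU a u) * e := by
  calc c * g ≤ fx a * (fx u * e) := mul_le_mul hc hg hg0 (fx_nonneg _)
    _ = (fx a * fx u) * e := by ring
    _ ≤ fx (mU a u) * e := mul_le_mul_of_nonneg_right (le_mU a u) he

open scoped Classical in
theorem okY_sound {C N w w' y p b ψ X : ℝ} {fr : Prop} {y0 y1 p0 p1 N1 X0 wr wl bl q0 kc Vr Vl : ℕ}
    {f : Bool} (h : okY y0 y1 p0 p1 N1 X0 wr wl bl q0 kc Vr Vl f = true) (hN0 : 0 ≤ N) (hN : N ≤ fx N1)
    (hw : 0 < wr → fx wr ≤ w) (hw' : 0 < wl → fx wl ≤ w') (hb : fx bl ≤ b) (hy0 : 0 < y) (hy : fx y0 ≤ y)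
    (hy1 : y ≤ fx y1) (hp0 : 0 < p) (hp : fx p0 ≤ p) (hp1 : p ≤ fx p1) (hψ : fx q0 ≤ ψ) (hX : fx X0 ≤ X)
    (hVr : 0 < wr → fx Vr ≤ 1 * (w * (11 / 25) / (w * y + p * (11 / 25))))
    (hVl : 0 < wl → 0 < bl → fx Vl ≤ ψ * (w' * b / (w' * y + p * b))) (hC : 5 * C + 7695 / 10000 ≤ fx kc)
    (hf : f = true → ¬fr) :
    33 / 4 ≤ X * (1 * (w * (11 / 25) / (w * y + p * (11 / 25)))) ∧
      33 / 4 ≤ X * (ψ * (w' * b / (w' * y + p * b))) ∧
      S5 C N w w' y p b ψ X fr ≤ 243 / 625 * exp (-(17 / 100 * X)) := by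
  unfold okY at h
  simp only [Bool.and_eq_true, Bool.or_eq_true, Nat.ble_eq] at h
  obtain ⟨⟨⟨⟨⟨h1, h2⟩, h3⟩, h4⟩, h5⟩, h6⟩ := h
  have hwr : 0 < wr := by
    unfold okM at h1
    simp only [Bool.and_eq_true, bltI] at h1
    exact h1.1.1.1.1
  have hwl : 0 < wl := by
    unfold okM at h2
    simp only [Bool.and_eq_true, bltI] at h2
    exact h2.1.1.1.1
  have hbl : 0 < bl := by
    unfold okM at h2
    simp only [Bool.and_eq_true, bltI] at h2
    exact h2.1.1.1.2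
  obtain ⟨_, _, a3, a4, a5⟩ := okM_spec h1 (hVr hwr) hX
  obtain ⟨_, _, b3, b4, b5⟩ := okM_spec h2 (hVl hwl hbl) hX
  refine ⟨a5, b5, ?_⟩
  have hE : 0 ≤ exp (-(17 / 100 * X)) := (exp_pos _).le
  have one_ : fx SC ≤ (1 : ℝ) := by rw [fx_one]
  have t1 := uM_le hN0 hN (hw hwr) hy hp c1125L a3 (hVr hwr) a4 hX
  have t2 := uT_le hN0 hN (hw hwr) hp0 hp1 one_ hX h3
  have t3 := uM_le hN0 hN (hw' hwl) hy hp hb b3 (hVl hwl hbl) b4 hX
  have t4 := uT_le hN0 hN (hw' hwl) hp0 hp1 hψ hX h4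
  have e1 := term_le hC t1 (gM_nonneg _ _ _ _ _ _ _) hE
  have e2 := term_le (c := 12501 / 1000) (a := 13744994858828) (by unfold fx; norm_num) t2
    (gT_nonneg _ _ _ _ _) hE
  have e3 := term_le (c := 529 / 100) (a := 5816416510936) (by unfold fx; norm_num) t3
    (gM_nonneg _ _ _ _ _ _ _) hE
  have e4 := term_le (c := 7453 / 1000) (a := 8194660161815) (by unfold fx; norm_num) t4
    (gT_nonneg _ _ _ _ _) hE
  have e5 : (if fr then 265 / 100 * gT (N / w') (11 / 25) y 1 X else 0) ≤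
      fx (bif f then 0 else mU 2913705813607 (uT (dU N1 wl) 483785116221 y1 SC X0)) *
        exp (-(17 / 100 * X)) := by
    cases f with
    | true =>
      rw [if_neg (hf rfl)]
      exact mul_nonneg (fx_nonneg _) hE
    | false =>
      simp only [cond_false]
      split_ifs with hfr
      · have hw0 : 0 < w' := (fx_pos hwl).trans_le (hw' hwl)
        have h5' : cT' 483785116221 y1 SC X0 = true := by
          rcases h5 with h5 | h5
          · exact absurd h5 (by decide)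
          · exact h5
        have t5 := uT_le (N := N / w') (by positivity) (divU hN (hw' hwl) hwl) c1125L hy0 hy1 one_ hX h5'
        exact term_le (by unfold fx; norm_num) t5 (gT_nonneg _ _ _ _ _) hE
      · exact mul_nonneg (fx_nonneg _) hE
  have h7 := fx_mono h6
  have h8 : fx 427490120879 ≤ 243 / 625 := by unfold fx; norm_num
  unfold S5
  unfold smY at h7
  rw [fx_add, fx_add, fx_add, fx_add] at h7
  calc _ ≤ fx (mU kc (uM N1 wr y0 p0 483785116221 Vr X0)) * exp (-(17 / 100 * X)) +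
        fx (mU 13744994858828 (uT N1 wr p1 SC X0)) * exp (-(17 / 100 * X)) +
        fx (mU 5816416510936 (uM N1 wl y0 p0 bl Vl X0)) * exp (-(17 / 100 * X)) +
        fx (mU 8194660161815 (uT N1 wl p1 q0 X0)) * exp (-(17 / 100 * X)) +
        fx (bif f then 0 else mU 2913705813607 (uT (dU N1 wl) 483785116221 y1 SC X0)) *
          exp (-(17 / 100 * X)) := add_le_add (add_le_add (add_le_add (add_le_add e1 e2) e3) e4) e5
    _ = (fx (mU kc (uM N1 wr y0 p0 483785116221 Vr X0)) +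
        fx (mU 13744994858828 (uT N1 wr p1 SC X0)) +
        fx (mU 5816416510936 (uM N1 wl y0 p0 bl Vl X0)) +
        fx (mU 8194660161815 (uT N1 wl p1 q0 X0)) +
        fx (bif f then 0 else mU 2913705813607 (uT (dU N1 wl) 483785116221 y1 SC X0))) *
          exp (-(17 / 100 * X)) := by ring
    _ ≤ 243 / 625 * exp (-(17 / 100 * X)) := mul_le_mul_of_nonneg_right (h7.trans h8) hE

theorem okX_sound (s0 s1 x0 x1 z0 z1 : ℕ) (h : okX s0 s1 x0 x1 z0 z1 = true) (s x z : ℝ)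
    (hs0 : fx s0 ≤ s) (hs1 : s ≤ fx s1) (hx0 : fx x0 ≤ x) (hx1 : x ≤ fx x1) (_ : fx z0 ≤ z)
    (_ : z ≤ fx z1) : PX s x := by
  intro p X hs hp hps hx hxs hX1 hX2
  unfold okX at h
  rw [Bool.or_eq_true, bltI] at h
  rcases h with h | h
  · exfalso
    have h1 : s * π ≤ fx (mU s1 3454225729822) := mulU hs1 (by
      have := Real.pi_lt_d4
      unfold fx
      norm_num at this ⊢
      linarith) Real.pi_pos.le
    have h2 : fx (mU s1 3454225729822) < fx x0 := by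
      unfold fx
      have : ((mU s1 3454225729822 : ℕ) : ℝ) < (x0 : ℕ) := by exact_mod_cast h
      gcongr
    linarith
  · have hp1 : p < 1 := by nlinarith only [hs, hps]
    have hs1' : s < 1 := by nlinarith only [hp, hps]
    have y0 : fx (mL s0 s0) ≤ s ^ (2 : ℕ) := by rw [pow_two]; exact mulL hs0 hs0
    have y1 : s ^ (2 : ℕ) ≤ fx (min SC (mU s1 s1)) := by
      refine le_trans (le_of_eq (min_eq_right (by nlinarith only [hps])).symm)
        (minU (a := 1) (by rw [fx_one]) ?_)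
      rw [pow_two]
      exact mulU hs1 hs1 hs.le
    have ep : p = √(1 - s ^ (2 : ℕ)) := by
      rw [show 1 - s ^ (2 : ℕ) = p ^ (2 : ℕ) by linarith, Real.sqrt_sq hp.le]
    have p0 : fx (sqL (SC - min SC (mU s1 s1))) ≤ p := by
      rw [ep]
      exact sqrtL (subL (by rw [fx_one]) y1 (min_le_left _ _))
    have p1 : p ≤ fx (min SC (sqU (SC - mL s0 s0))) := by
      refine le_trans (le_of_eq (min_eq_right hp1.le).symm) (minU (a := 1) (by rw [fx_one]) ?_)
      rw [ep]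
      exact sqrtU (subU (by rw [fx_one]) y0)
    have hXX : fx (max 23749451159961 (mL 54865630226022 (mL x0 x0))) ≤ X := by
      rcases max_choice 23749451159961 (mL 54865630226022 (mL x0 x0)) with e | e
      · rw [e]
        refine le_trans ?_ hX1
        unfold fx
        norm_num
      · rw [e]
        refine le_trans (mulL (a := 499 / 10) ?_ (mulL hx0 hx0)) ?_
        · unfold fx
          norm_num
        · rw [← pow_two]
          exact hX2
    have hxh : 2 * π * s - x ≤ fx (mU s1 6908451459643 - x0) := by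
      refine subU ?_ hx0
      rw [mul_comm]
      refine mulU hs1 ?_ (by positivity)
      have := Real.pi_lt_d4
      unfold fx
      norm_num at this ⊢
      linarith
    have hxx : 0 < 2 * π * s - x := by
      have := mul_pos Real.pi_pos hs
      linarith
    have hN : NN s ≤ fx (SC + mU 703687441777 (min SC (mU s1 s1))) := by
      unfold NN
      refine addU (by rw [fx_one]) (mulU ?_ y1 (by positivity))
      unfold fx
      norm_num
    have hN0 : 0 ≤ NN s := by unfold NN; positivity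
    obtain ⟨C, hC, hC0, hCk⟩ := kC_spec x1
    unfold okZ at h
    refine ⟨C, hC.mono hx1, hC0, ?_⟩
    have hfr : Nat.ble (mU s1 1319413953332) x0 = true → ¬x < 6 / 5 * s := by
      intro h1 h2
      rw [Nat.ble_eq] at h1
      have h3 : s * (6 / 5) ≤ fx (mU s1 1319413953332) := mulU hs1 (by unfold fx; norm_num) (by norm_num)
      have h4 := fx_mono h1
      linarith
    have hwR := fR_le hp p1 hx hx1
    have hwL := fL_le hp p1 hxh
    refine okY_sound h hN0 hN hwR hwL (fB_le hxh) (by positivity) y0 y1 hp p0 p1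
      (fQ_le hs0 hs hx hx1 hxs) hXX ?_ ?_ hCk hfr
    · intro h0
      exact vM_le (hwR h0) h0 c1125L (by norm_num) (by positivity) y1 hp p1 (by rw [fx_one])
    · intro h0 h1
      exact vM_le (hwL h0) h0 (fB_le hxh) h1 (by positivity) y1 hp p1 (fQ_le hs0 hs hx hx1 hxs)

theorem runX : bis okX 8 1 0 16 0 SC 0 1392201623090 0 0 = true := by decide +kernel

/-- the inequality at every point -/
theorem pX {s x : ℝ} (hs0 : 0 ≤ s) (hs1 : s ≤ 1) (hx0 : 0 ≤ x) (hx1 : x ≤ 12662 / 10000) : PX s x := by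
  refine bis_sound (P := fun s x _ => PX s x) (fun a b c d e f hk x y z h1 h2 h3 h4 h5 h6 =>
    okX_sound a b c d e f hk x y z h1 h2 h3 h4 h5 h6) 8 1 0 16 _ _ _ _ _ _ runX s x 0
    (by rw [fx_zero]; exact hs0) (by rw [fx_one]; exact hs1) (by rw [fx_zero]; exact hx0) ?_
    (by rw [fx_zero]) (by rw [fx_zero])
  refine hx1.trans ?_
  unfold fx
  norm_num

end SokamDR

end

/-! ### Lib_MP_af4de1_v3.DzRX3 -/

section
namespace SokamCen
end SokamCen
namespace SokamDz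
end SokamDz
namespace SokamV3
end SokamV3
/-!
# `PRealDR`, `X ≤ 80` (helper48)
-/

set_option autoImplicit false

namespace SokamDR

open Real MeasureTheory Set SokamCen SokamV3 SokamDz

variable {r ρ t p y x : ℝ}

theorem min_inv {z : ℝ} (hz : 0 < z) : min 1 (5 / (4 * z)) = 1 / max 1 (4 / 5 * z) := by
  rcases le_total (4 / 5 * z) 1 with h | h
  · rw [max_eq_left h, min_eq_left, div_one]
    rw [one_le_div (by positivity)]
    linarith only [h]
  · rw [max_eq_right h, min_eq_right]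
    · field_simp
    · rw [div_le_one (by positivity)]
      linarith only [h]

theorem prR (h : Pr ρ t p y x) : rA ρ t = wR p x / p * y := by
  have hp := h.p0
  rw [h.rA, h.mt, min_inv h.x0]
  have e : cT (mm ρ) t = min 1 (4 / 5 * x) := by
    unfold cT
    rw [h.tm]
    try rw [min_comm]
  rw [e]
  unfold aa wR
  field_simp
  ring

theorem prL (h : Pr ρ t p y x) : SokamDz.lA ρ t = wL p x / p * y := by
  have hp := h.p0
  rw [h.lA, h.mt, min_inv h.x0]
  unfold aa wL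
  field_simp

theorem wR_pos (hp : 0 < p) (hp1 : p < 1) (hx : 0 < x) : 0 < wR p x := by
  have hM : 0 < max 1 (4 / 5 * x) := lt_max_of_lt_left one_pos
  have hT0 : 0 ≤ min 1 (4 / 5 * x) := le_min zero_le_one (by positivity)
  have hT1 : min 1 (4 / 5 * x) ≤ 1 := min_le_left _ _
  unfold wR
  refine mul_pos ?_ (by positivity)
  obtain ⟨T, hT⟩ : ∃ T, T = min 1 (4 / 5 * x) := ⟨_, rfl⟩
  rw [← hT] at hT0 hT1 ⊢
  have h1 : 1 + T / 3 + 5 * T ^ (2 : ℕ) / 48 ≤ 69 / 48 := by nlinarith only [hT1, hT0]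
  have h2 : 8 / 25 * p * (1 + T / 3 + 5 * T ^ (2 : ℕ) / 48) ≤ 8 / 25 * p * (69 / 48) :=
    mul_le_mul_of_nonneg_left h1 (by positivity)
  linarith only [hp1, h2]

theorem wR_ge (hp : 0 < p) (hp1 : p < 1) (hx : 0 < x) (hx1 : x ≤ 12662 / 10000) : 33 / 100 ≤ wR p x := by
  have hM : 0 < max 1 (4 / 5 * x) := lt_max_of_lt_left one_pos
  have hT0 : 0 ≤ min 1 (4 / 5 * x) := le_min zero_le_one (by positivity)
  have hT1 : min 1 (4 / 5 * x) ≤ 1 := min_le_left _ _
  have hM1 : max 1 (4 / 5 * x) ≤ 1013 / 1000 := max_le (by norm_num) (by linarith only [hx1])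
  unfold wR
  obtain ⟨T, hT⟩ : ∃ T, T = min 1 (4 / 5 * x) := ⟨_, rfl⟩
  rw [← hT] at hT0 hT1 ⊢
  have h1 : 1 + T / 3 + 5 * T ^ (2 : ℕ) / 48 ≤ 69 / 48 := by nlinarith only [hT1, hT0]
  have h2 : 8 / 25 * p * (1 + T / 3 + 5 * T ^ (2 : ℕ) / 48) ≤ 8 / 25 * p * (69 / 48) :=
    mul_le_mul_of_nonneg_left h1 (by positivity)
  have h3 : 34 / 100 ≤ 4 / 5 - 8 / 25 * p * (1 + T / 3 + 5 * T ^ (2 : ℕ) / 48) := by linarith only [hp1, h2]
  have h4 : 98 / 100 ≤ 1 / max 1 (4 / 5 * x) := by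
    rw [le_div_iff₀ hM]
    linarith only [hM1]
  calc (33 / 100 : ℝ) ≤ 34 / 100 * (98 / 100) := by norm_num
    _ ≤ _ := mul_le_mul h3 h4 (by norm_num) (by linarith only [h3])

theorem wL_pos (hp : 0 < p) (hp1 : p < 1) : 0 < wL p x := by
  have hM : 0 < max 1 (4 / 5 * x) := lt_max_of_lt_left one_pos
  unfold wL
  exact mul_pos (by linarith only [hp1]) (by positivity)

theorem wL_ge (hp : 0 < p) (hp1 : p < 1) (hx : x ≤ 62832 / 10000) : 95 / 1000 ≤ wL p x := by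
  have hM : 0 < max 1 (4 / 5 * x) := lt_max_of_lt_left one_pos
  have hM1 : max 1 (4 / 5 * x) ≤ 503 / 100 := max_le (by norm_num) (by linarith only [hx])
  have h3 : 48 / 100 ≤ 4 / 5 - 8 / 25 * p := by linarith only [hp1]
  have h4 : 1 / (503 / 100) ≤ 1 / max 1 (4 / 5 * x) := one_div_le_one_div_of_le hM hM1
  unfold wL
  calc (95 / 1000 : ℝ) ≤ 48 / 100 * (1 / (503 / 100)) := by norm_num
    _ ≤ _ := mul_le_mul h3 h4 (by norm_num) (by linarith only [h3])

/-- `e^(-E/9) ≤ 2/5` -/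
theorem d25 {E : ℝ} (h : 33 / 4 ≤ E) : exp (-(E / 9)) ≤ 2 / 5 := by
  have h1 : exp (-(E / 9)) ≤ exp (-(11 / 12)) := exp_le_exp.2 (by linarith only [h])
  refine h1.trans ?_
  have h2 := Real.sum_le_exp_of_nonneg (x := 11 / 12) (by norm_num) 7
  norm_num [Finset.sum_range_succ, Nat.factorial] at h2
  rw [exp_neg, inv_le_comm₀ (exp_pos _) (by norm_num)]
  linarith only [h2]

theorem e11 : exp (-11) ≤ 1 / 59854 := by
  have h1 := Real.exp_one_gt_d9
  have h2 : exp 11 = exp 1 ^ (11 : ℕ) := by rw [← exp_nat_mul]; norm_num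
  have h3 : (59854 : ℝ) ≤ exp 11 := by
    rw [h2]
    have h4 : (2.7182 : ℝ) ^ (11 : ℕ) ≤ exp 1 ^ (11 : ℕ) := pow_le_pow_left₀ (by norm_num) (by linarith only [h1]) 11
    refine le_trans ?_ h4
    norm_num
  rw [exp_neg, ← one_div]
  exact one_div_le_one_div_of_le (by norm_num) h3

/-- the far terms -/
theorem far_le {r X a b : ℝ} (hr : 499 / 10 ≤ r) (hX : X ≤ 80) (ha : a ≤ 11 / 50 * r)
    (hb : b ≤ 7 / 10 * r) :
    (7 * r + 34 / 25) * (7072 / 10000 * a) * exp (-(r * (3168 / 5000))) +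
      (2 * r + 1 / 2) * (7072 / 10000 * b) * exp (-(r * (1 / 2))) ≤ 27 / 625 * exp (-(17 / 100 * X)) := by
  obtain ⟨E, hE⟩ : ∃ E, E = exp (-(r * (1 / 2))) := ⟨_, rfl⟩
  have hE0 : 0 < E := by rw [hE]; exact exp_pos _
  have h1 : exp (-(r * (3168 / 5000))) ≤ 1 / 100 * E := by
    have h2 : exp (-(r * (3168 / 5000))) = exp (-(r * (668 / 5000))) * E := by
      rw [hE, ← exp_add]; congr 1; ring
    rw [h2]
    refine mul_le_mul_of_nonneg_right ?_ hE0.le
    have h3 : exp (-(r * (668 / 5000))) ≤ exp (-6) := exp_le_exp.2 (by linarith only [hr])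
    refine h3.trans ?_
    have h4 : exp 6 = exp 1 ^ (6 : ℕ) := by rw [← exp_nat_mul]; norm_num
    have h5 : (100 : ℝ) ≤ exp 6 := by
      rw [h4]
      have h1 := Real.exp_one_gt_d9
      have h6 : (2.7 : ℝ) ^ (6 : ℕ) ≤ exp 1 ^ (6 : ℕ) := pow_le_pow_left₀ (by norm_num) (by linarith only [h1]) 6
      refine le_trans ?_ h6
      norm_num
    rw [exp_neg, ← one_div]
    exact one_div_le_one_div_of_le (by norm_num) h5
  have h2 : (7 * r + 34 / 25) * (7072 / 10000 * a) ≤ 11 / 10 * r ^ (2 : ℕ) := by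
    have : (7 * r + 34 / 25) * (7072 / 10000 * a) ≤ (7 * r + 34 / 25) * (7072 / 10000 * (11 / 50 * r)) :=
      mul_le_mul_of_nonneg_left (by linarith only [ha]) (by linarith only [hr])
    nlinarith only [hr, ha]
  have h3 : (2 * r + 1 / 2) * (7072 / 10000 * b) ≤ 1 * r ^ (2 : ℕ) := by
    have : (2 * r + 1 / 2) * (7072 / 10000 * b) ≤ (2 * r + 1 / 2) * (7072 / 10000 * (7 / 10 * r)) :=
      mul_le_mul_of_nonneg_left (by linarith only [hb]) (by linarith only [hr])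
    nlinarith only [hr, hb]
  have h4 : (7 * r + 34 / 25) * (7072 / 10000 * a) * exp (-(r * (3168 / 5000))) ≤
      11 / 10 * r ^ (2 : ℕ) * (1 / 100 * E) := mul_le_mul h2 h1 (exp_pos _).le (by positivity)
  have h5 : (2 * r + 1 / 2) * (7072 / 10000 * b) * E ≤ 1 * r ^ (2 : ℕ) * E :=
    mul_le_mul_of_nonneg_right h3 hE0.le
  -- `r² e^{-r/2} ≤ 2490.01 e^{-24.95}`
  obtain ⟨u, hu⟩ : ∃ u, u = (r - 499 / 10) / 2 := ⟨_, rfl⟩
  have hu0 : 0 ≤ u := by rw [hu]; linarith only [hr]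
  have hru : r = 499 / 10 + 2 * u := by rw [hu]; ring
  have h6 : r ^ (2 : ℕ) ≤ 249001 / 100 * exp u := by
    have h7 := Real.quadratic_le_exp_of_nonneg hu0
    have h8 : r ^ (2 : ℕ) ≤ 249001 / 100 * (1 + u + u ^ (2 : ℕ) / 2) := by rw [hru]; nlinarith only [hu0]
    refine h8.trans (mul_le_mul_of_nonneg_left h7 (by norm_num))
  have h7 : exp u * E ≤ exp (-11) * exp (-(17 / 100 * X)) := by
    rw [hE, ← exp_add, ← exp_add, exp_le_exp, hu]
    linarith only [hX]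
  have h8 : r ^ (2 : ℕ) * E ≤ 249001 / 100 * (1 / 59854 * exp (-(17 / 100 * X))) := by
    calc r ^ (2 : ℕ) * E ≤ 249001 / 100 * exp u * E := mul_le_mul_of_nonneg_right h6 hE0.le
      _ = 249001 / 100 * (exp u * E) := by ring
      _ ≤ 249001 / 100 * (exp (-11) * exp (-(17 / 100 * X))) :=
        mul_le_mul_of_nonneg_left h7 (by norm_num)
      _ ≤ _ := by
        refine mul_le_mul_of_nonneg_left ?_ (by norm_num)
        exact mul_le_mul_of_nonneg_right e11 (exp_pos _).le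
  have h9 : 0 < exp (-(17 / 100 * X)) := exp_pos _
  rw [← hE]
  linarith only [h4, h5, h8, h9]

end SokamDR

end

/-! ### Lib_MP_af4de1_v3.DzRX4 -/

section
namespace SokamCen
end SokamCen
namespace SokamDz
end SokamDz
namespace SokamV3
end SokamV3
/-!
# `PRealDR`, `X ≤ 80`: the statement (helper48)
-/

set_option autoImplicit false

namespace SokamDR

open Real MeasureTheory Set SokamCen SokamV3 SokamDz

variable {r ρ t p y x : ℝ}

theorem kc_nonneg (h : Pr ρ t p y x) (hr : 0 < r) : 0 ≤ Kc r ρ := by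
  rw [h.Kc hr]; (clear * -; positivity)

/-- a main term -/
theorem main_le (h : Pr ρ t p y x) (hr : 0 < r) {s w b a c X q A θ : ℝ} (hs : s ^ (2 : ℕ) = y) (hw : 0 < w)
    (hb : 0 < b) (ha : 0 ≤ a) (hc : 0 ≤ c) (hA : A = w / p * y) (hX : r * θ ^ (2 : ℕ) * y = X * q)
    (hE : 33 / 4 ≤ X * (q * (w * b / (w * s ^ (2 : ℕ) + p * b)))) :
    Kc r ρ * (a * (√(π / (8 / 9 * r * (A + b))) * exp (-(8 / 9 * r * (A * b * θ ^ (2 : ℕ) / (A + b))))) +
      c * (√(π / (r * (A + b))) * exp (-(r * (A * b * θ ^ (2 : ℕ) / (A + b)))))) ≤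
      (3 / 4 * a + 7072 / 10000 * c * (2 / 5)) * gM (NN s) w (s ^ (2 : ℕ)) p b q X := by
  have hp := h.p0
  have hy := h.y0
  have hA0 : 0 < A := by rw [hA]; (clear * - hw hp hy; positivity)
  have hD : 0 < w * y + p * b := by (clear * - hw hy hp hb; positivity)
  have e1 : r * (A * b * θ ^ (2 : ℕ) / (A + b)) = X * (q * (w * b / (w * s ^ (2 : ℕ) + p * b))) := by
    have e2 : A * b * θ ^ (2 : ℕ) / (A + b) = θ ^ (2 : ℕ) * y * (w * b / (w * y + p * b)) := by
      rw [hA]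
      field_simp
    rw [e2, hs]
    calc r * (θ ^ (2 : ℕ) * y * (w * b / (w * y + p * b))) = (r * θ ^ (2 : ℕ) * y) * (w * b / (w * y + p * b)) := by ring
      _ = _ := by rw [hX]; ring
  have h1 := h.gauss hr (A := A + b) (e := A * b * θ ^ (2 : ℕ) / (A + b))
    (E := X * (q * (w * b / (w * s ^ (2 : ℕ) + p * b)))) (a := a) (b := c) (d := 2 / 5) (by (clear * - hA0 hb; positivity)) ha hc
    e1.ge (d25 hE)
  refine h1.trans (le_of_eq ?_)
  have e3 : PP p y / (A + b) = NN s / (w * s ^ (2 : ℕ) + p * b) := by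
    unfold PP NN
    rw [hA, hs]
    field_simp
  unfold gM
  rw [e3]
  ring

/-- a tail term -/
theorem tail_le (h : Pr ρ t p y x) (hr : 0 < r) {s w a c X q A θ k : ℝ} (hs : s ^ (2 : ℕ) = y)
    (ha : 0 ≤ a) (hc : 0 ≤ c) (hk : 0 ≤ k) (hA : A = w / p * y) (hX : r * θ ^ (2 : ℕ) * y = X * q)
    (hE : 33 / 4 ≤ X * (q * (w / p))) :
    Kc r ρ * (a * (k / √(8 / 9 * r) * exp (-(8 / 9 * r * (A * θ ^ (2 : ℕ))))) +
      c * (k / √r * exp (-(r * (A * θ ^ (2 : ℕ)))))) ≤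
      k * (4232 / 10000 * a + 399 / 1000 * c * (2 / 5)) * gT (NN s) w p q X := by
  have e1 : r * (A * θ ^ (2 : ℕ)) = X * (q * (w / p)) := by
    rw [hA]
    calc r * (w / p * y * θ ^ (2 : ℕ)) = (r * θ ^ (2 : ℕ) * y) * (w / p) := by ring
      _ = _ := by rw [hX]; ring
  have h1 := h.tail hr (c := k) (e := A * θ ^ (2 : ℕ)) (E := X * (q * (w / p))) (a := a) (b := c) (d := 2 / 5)
    hk ha hc e1.ge (d25 hE)
  refine h1.trans (le_of_eq ?_)
  have e3 : PP p y = NN s / p := by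
    unfold PP NN
    rw [hs]
  unfold gT
  rw [e3]
  ring

/-- the front term -/
theorem front_le (h : Pr ρ t p y x) (hr : 0 < r) {s w a c X A θ : ℝ} (hs : s ^ (2 : ℕ) = y) (hw : 0 < w)
    (ha : 0 ≤ a) (hc : 0 ≤ c) (hA : A = w / p * y) (hX : r * θ ^ (2 : ℕ) * y = X)
    (hE : 33 / 4 ≤ X * (11 / 25 / y)) :
    Kc r ρ * (a * (√(π / (8 / 9 * r * A)) * exp (-(8 / 9 * r * (11 / 25 * θ ^ (2 : ℕ))))) +
      c * (√(π / (r * A)) * exp (-(r * (11 / 25 * θ ^ (2 : ℕ)))))) ≤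
      (3 / 4 * a + 7072 / 10000 * c * (2 / 5)) * gT (NN s / w) (11 / 25) (s ^ (2 : ℕ)) 1 X := by
  have hp := h.p0
  have hy := h.y0
  have hA0 : 0 < A := by rw [hA]; (clear * - hw hp hy; positivity)
  have e1 : r * (11 / 25 * θ ^ (2 : ℕ)) = X * (11 / 25 / y) := by
    rw [← hX]
    field_simp
  have h1 := h.gauss hr (A := A) (e := 11 / 25 * θ ^ (2 : ℕ)) (E := X * (11 / 25 / y)) (a := a) (b := c)
    (d := 2 / 5) hA0 ha hc e1.ge (d25 hE)
  refine h1.trans (le_of_eq ?_)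
  have e3 : PP p y / A = NN s / w / s ^ (2 : ℕ) := by
    unfold PP NN
    rw [hA, hs]
    field_simp
  unfold gT
  rw [e3, hs, one_mul]
  ring

/-- `√(P/A)`, right and left -/
theorem far_R (h : Pr ρ t p y x) {w c A : ℝ} (hw : 33 / 100 ≤ w) (hA : A = w / p * y)
    (hr : 499 / 10 ≤ r) (hy : 1 / y ≤ 46 / 100 * r) (hc : c = 1) :
    √(PP p y / A) ≤ 11 / 50 * r * c := by
  have hp := h.p0
  have hy0 := h.y0
  have hy1 := h.y1
  rw [hc, mul_one, Real.sqrt_le_left (by linarith only [hr])]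
  have hw0 : 0 < w := by linarith only [hw]
  have e : PP p y / A = (1 + 16 / 25 * y) * (1 / w) * (1 / y) := by
    unfold PP
    rw [hA]
    field_simp
  have h1 : 1 / w ≤ 1 / (33 / 100) := one_div_le_one_div_of_le (by norm_num) hw
  rw [e]
  calc (1 + 16 / 25 * y) * (1 / w) * (1 / y) ≤ (41 / 25) * (1 / (33 / 100)) * (46 / 100 * r) :=
        mul_le_mul (mul_le_mul (by linarith only [hy1]) h1 (by positivity) (by norm_num)) hy (by (clear * - hy0; positivity))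
          (by norm_num)
    _ ≤ _ := by nlinarith

theorem far_L (h : Pr ρ t p y x) {w A : ℝ} (hw : 95 / 1000 ≤ w) (hA : A = w / p * y)
    (hr : 499 / 10 ≤ r) (hy : 1 / y ≤ 46 / 100 * r) :
    √(PP p y / (A / 3)) ≤ 7 / 10 * r := by
  have hp := h.p0
  have hy0 := h.y0
  have hy1 := h.y1
  rw [Real.sqrt_le_left (by linarith only [hr])]
  have hw0 : 0 < w := by linarith only [hw]
  have e : PP p y / (A / 3) = 3 * (1 + 16 / 25 * y) * (1 / w) * (1 / y) := by
    unfold PP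
    rw [hA]
    field_simp
  have h1 : 1 / w ≤ 1 / (95 / 1000) := one_div_le_one_div_of_le (by norm_num) hw
  rw [e]
  calc 3 * (1 + 16 / 25 * y) * (1 / w) * (1 / y) ≤ 3 * (41 / 25) * (1 / (95 / 1000)) * (46 / 100 * r) :=
        mul_le_mul (mul_le_mul (by linarith only [hy1]) h1 (by positivity) (by norm_num)) hy (by (clear * - hy0; positivity))
          (by norm_num)
    _ ≤ _ := by nlinarith

/-- **Right side, `X ≤ 80`.** -/
theorem realB_R (h : HypD r ρ t) (hX80 : r * t ^ (2 : ℕ) / (1 + ρ ^ (2 : ℕ)) ≤ 80) :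
    ∃ C Cf B B' l e : ℝ, HR t B ∧ HC ρ t C ∧ HF ρ t Cf ∧ HL ρ (2 * π - t) B' l ∧ HE ρ e ∧
      l ≤ lA ρ (2 * π - t) * B' * (2 * π - t) ^ (2 : ℕ) / (lA ρ (2 * π - t) + B') ∧
      Kc r ρ * SW r ρ t (2 * π - t) C Cf B B' l e ≤ 27 / 5 * Fd r ρ (r * t ^ (2 : ℕ) / (1 + ρ ^ (2 : ℕ))) := by
  have hr49 := h.r0
  have hr : 0 < r := by linarith only [hr49]
  have hρ := h.ρ0
  have ht := h.t0
  have htπ := h.t1
  have hX21 := h.X
  have hpi := Real.pi_pos
  have hpi1 := Real.pi_gt_three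
  have hpi2 := Real.pi_lt_d4
  have hφ : 0 < 2 * π - t := by linarith only [htπ, hpi]
  have P1 := Pr.ex hρ ht
  have P2 := Pr.ex hρ hφ
  obtain ⟨p, hpd⟩ : ∃ p, p = ρ / √(1 + ρ ^ (2 : ℕ)) := ⟨_, rfl⟩
  obtain ⟨y, hyd⟩ : ∃ y, y = 1 / (1 + ρ ^ (2 : ℕ)) := ⟨_, rfl⟩
  obtain ⟨s, hsd⟩ : ∃ s, s = 1 / √(1 + ρ ^ (2 : ℕ)) := ⟨_, rfl⟩
  have ex1 : t / √(1 + ρ ^ (2 : ℕ)) = t * s := by rw [hsd]; ring
  have ex2 : (2 * π - t) / √(1 + ρ ^ (2 : ℕ)) = (2 * π - t) * s := by rw [hsd]; ring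
  rw [← hpd, ← hyd, ex1] at P1
  rw [← hpd, ← hyd, ex2] at P2
  have hp := P1.p0
  have hp1 := P1.p1
  have hy := P1.y0
  have hy1 := P1.y1
  have hS := P1.s0
  have hs : 0 < s := by rw [hsd]; positivity
  have hs2 : s ^ (2 : ℕ) = y := by
    rw [hsd, hyd, div_pow, P1.ss, one_pow]
  have hps : p ^ (2 : ℕ) + s ^ (2 : ℕ) = 1 := by rw [hs2, P1.hy]; ring
  have hs1 : s ≤ 1 := by nlinarith only [hps, hp, hs]
  obtain ⟨X, hXd⟩ : ∃ X, X = r * t ^ (2 : ℕ) / (1 + ρ ^ (2 : ℕ)) := ⟨_, rfl⟩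
  rw [← hXd] at hX80 hX21
  have hXy : X = r * t ^ (2 : ℕ) * y := by rw [hXd, hyd]; ring
  have hx : 0 < t * s := by (clear * - ht hs; positivity)
  have hX2 : r * (t * s) ^ (2 : ℕ) = X := by rw [hXy, mul_pow, hs2]; ring
  have hX3 : 499 / 10 * (t * s) ^ (2 : ℕ) ≤ X := by
    rw [← hX2]
    exact mul_le_mul_of_nonneg_right hr49 (sq_nonneg _)
  have hx1 : t * s ≤ 12662 / 10000 := by
    by_contra hc
    push Not at hc
    have : (12662 / 10000 : ℝ) ^ (2 : ℕ) < (t * s) ^ (2 : ℕ) := pow_lt_pow_left₀ hc (by norm_num) (by norm_num)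
    linarith only [hX80, hX3, this]
  have hxs : t * s ≤ π * s := mul_le_mul_of_nonneg_right htπ hs.le
  obtain ⟨C, hC, hC0, hER, hEL, hS5⟩ := pX hs.le hs1 hx.le hx1 p X hs hp hps hx hxs hX21 hX3
  have exx : 2 * π * s - t * s = (2 * π - t) * s := by ring
  rw [exx] at hEL hS5
  have hxx : 0 < (2 * π - t) * s := by (clear * - hφ hs; positivity)
  obtain ⟨w, hwd⟩ : ∃ w, w = wR p (t * s) := ⟨_, rfl⟩
  obtain ⟨w', hwd'⟩ : ∃ w', w' = wL p ((2 * π - t) * s) := ⟨_, rfl⟩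
  obtain ⟨b, hbd⟩ : ∃ b, b = bL' ((2 * π - t) * s) := ⟨_, rfl⟩
  obtain ⟨ψ, hψd⟩ : ∃ ψ, ψ = ((2 * π - t) * s / (t * s)) ^ (2 : ℕ) := ⟨_, rfl⟩
  rw [← hwd] at hER hS5
  rw [← hwd', ← hbd, ← hψd] at hEL hS5
  have hw0 : 0 < w := by rw [hwd]; exact wR_pos hp hp1 hx
  have hw0' : 0 < w' := by rw [hwd']; exact wL_pos hp hp1
  have hb0 : 0 < b := by rw [hbd]; unfold bL'; positivity
  have hwg : 33 / 100 ≤ w := by rw [hwd]; exact wR_ge hp hp1 hx hx1
  have hwg' : 95 / 1000 ≤ w' := by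
    rw [hwd']
    refine wL_ge hp hp1 ?_
    have h0 : (2 * π - t) * s ≤ (2 * π - t) * 1 := mul_le_mul_of_nonneg_left hs1 hφ.le
    linarith only [ht, hpi2, h0]
  have hψ1 : 1 ≤ ψ := by
    have h1 : 1 ≤ (2 * π - t) * s / (t * s) := by
      rw [one_le_div hx]
      exact mul_le_mul_of_nonneg_right (by linarith only [htπ]) hs.le
    rw [hψd]
    exact one_le_pow₀ h1
  have hAR : rA ρ t = w / p * y := by rw [hwd]; exact prR P1
  have hAL : SokamDz.lA ρ (2 * π - t) = w' / p * y := by rw [hwd']; exact prL P2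
  have hXR : r * t ^ (2 : ℕ) * y = X * 1 := by rw [hXy]; ring
  have hXL : r * (2 * π - t) ^ (2 : ℕ) * y = X * ψ := by
    rw [hψd, hXy]
    field_simp
  have hX0 : 0 < X := by linarith only [hX21]
  -- the parameters
  have hTm : (2 * π - t) / mm ρ = 4 / 5 * ((2 * π - t) * s) := P2.tm
  have hHL : HL ρ (2 * π - t) b 0 := by
    rw [hbd]
    unfold bL'
    rcases le_total (4 / 5 * ((2 * π - t) * s)) 1 with hc | hc
    · rw [min_eq_right hc]
      have := HL_sig (ρ := ρ) (β := 11 / 25) (σ := 1) hφ (HR_11_25 _) (by norm_num) le_rfl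
      rw [hTm, one_mul] at this
      simpa using this
    · rw [min_eq_left hc]
      exact HL_clip (HR_11_25 _)
  have hHC : HC ρ t C := by
    rcases hC with hC | ⟨T, h1, h2, h3, h4⟩
    · exact Or.inl hC
    · refine Or.inr ⟨T, ?_, h2, h3, h4⟩
      have h5 : t / mm ρ = 4 / 5 * (t * s) := P1.tm
      have h6 : t = t / mm ρ * mm ρ := by
        have := P1.m0
        field_simp
      rw [h6, h5]
      exact mul_le_mul_of_nonneg_right h1 P1.m0.le
  refine ⟨C, 14 / 5, 11 / 25, b, 0, 1 / 2, HR_11_25 t, hHC, HF_big _ _, hHL, HE_half hρ, ?_, ?_⟩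
  · have : 0 < SokamDz.lA ρ (2 * π - t) := by rw [hAL]; (clear * - hw0' hp hy; positivity)
    (clear * - this hb0 hφ; positivity)
  -- the inequality
  have hER2 : 33 / 4 ≤ X * (1 * (w / p)) := by
    refine hER.trans ?_
    have : w * (11 / 25) / (w * s ^ (2 : ℕ) + p * (11 / 25)) ≤ w / p := by
      rw [div_le_div_iff₀ (by (clear * - hw0 hs hp; positivity)) hp]
      have : 0 ≤ w * (w * s ^ (2 : ℕ)) := by (clear * - hw0 hs; positivity)
      linarith only [this]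
    gcongr
  have hEL2 : 33 / 4 ≤ X * (ψ * (w' / p)) := by
    refine hEL.trans ?_
    have : w' * b / (w' * s ^ (2 : ℕ) + p * b) ≤ w' / p := by
      rw [div_le_div_iff₀ (by (clear * - hw0' hs hp hb0; positivity)) hp]
      have : 0 ≤ w' * (w' * s ^ (2 : ℕ)) := by (clear * - hw0' hs; positivity)
      linarith only [this]
    gcongr
  have hEO : 33 / 4 ≤ X * (11 / 25 / y) := by
    have : 11 / 25 ≤ 11 / 25 / y := by
      rw [le_div_iff₀ hy]
      linarith only [hy1]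
    have h2 := mul_le_mul hX21 this (by norm_num) hX0.le
    linarith only [h2]
  have g1 := main_le P1 hr (a := 20 / 3 * C) (c := 68 / 25) hs2 hw0 (by norm_num) (by (clear * - hC0; positivity))
    (by norm_num) hAR hXR hER
  have g2 := tail_le P1 hr (a := 20 / 3 * (14 / 5)) (c := 68 / 25) (k := 3 / 2) hs2 (by norm_num)
    (by norm_num) (by norm_num) hAR hXR hER2
  have g3 := main_le P2 hr (a := 20 / 3) (c := 1) hs2 hw0' hb0 (by norm_num) (by norm_num) hAL hXL hEL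
  have g4 := tail_le P2 hr (a := 20 / 3) (c := 1) (k := 5 / 2) hs2 (by norm_num) (by norm_num)
    (by norm_num) hAL hXL hEL2
  have g5 := front_le P2 hr (θ := t) (a := 10 / 3) (c := 1 / 2) (X := X) hs2 hw0' (by norm_num)
    (by norm_num) hAL (by rw [hXR, mul_one]) hEO
  -- far
  have hyi : 1 / y ≤ 46 / 100 * r := by
    rw [div_le_iff₀ hy]
    have h0 : t ≤ 31416 / 10000 := by linarith only [htπ, hpi2]
    have h1 : t ^ (2 : ℕ) ≤ 98697 / 10000 := by nlinarith only [h0, ht]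
    have h2 : 108 / 5 ≤ r * t ^ (2 : ℕ) * y := by rw [← hXy]; exact hX21
    have h3 : r * t ^ (2 : ℕ) * y ≤ r * (98697 / 10000) * y := by gcongr
    nlinarith only [mul_pos hr hy, h2, h3]
  have fR1 := far_R P1 (c := 1) hwg hAR hr49 hyi rfl
  have fL1 := far_L P2 hwg' hAL hr49 hyi
  have hAR0 : 0 < rA ρ t := by rw [hAR]; (clear * - hw0 hp hy; positivity)
  have hAL0 : 0 < SokamDz.lA ρ (2 * π - t) := by rw [hAL]; (clear * - hw0' hp hy; positivity)
  rw [mul_one] at fR1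
  have hfar := far_le (r := r) (X := X) hr49 hX80 fR1 fL1
  have k1 := P1.K1 hr hAR0
  have k2 := P2.K1 (r := r) hr (A := SokamDz.lA ρ (2 * π - t) / 3) (by (clear * - hAL0; positivity))
  have e3 : π / (r * (SokamDz.lA ρ (2 * π - t) / 3)) = 3 * π / (r * SokamDz.lA ρ (2 * π - t)) := by
    field_simp
  rw [e3] at k2
  have f1 : Kc r ρ * ((14 * r + 68 / 25) * rF r ρ t) ≤
      (7 * r + 34 / 25) * (7072 / 10000 * √(PP p y / rA ρ t)) * exp (-(r * (3168 / 5000))) := by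
    unfold rF
    calc _ = (7 * r + 34 / 25) * (Kc r ρ * √(π / (r * rA ρ t))) * exp (-(r * (3168 / 5000))) := by ring
      _ ≤ _ := by gcongr
  have f2 : Kc r ρ * ((4 * r + 1) * lF r ρ (2 * π - t) (1 / 2)) ≤
      (2 * r + 1 / 2) * (7072 / 10000 * √(PP p y / (SokamDz.lA ρ (2 * π - t) / 3))) *
        exp (-(r * (1 / 2))) := by
    unfold lF
    calc _ = (2 * r + 1 / 2) * (Kc r ρ * √(3 * π / (r * SokamDz.lA ρ (2 * π - t)))) *
          exp (-(r * (1 / 2))) := by ring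
      _ ≤ _ := by gcongr
  -- front
  have hKc := kc_nonneg P1 hr
  have hrO : ∀ q, rO q ρ t = 0 := fun q => by
    unfold rO
    rw [if_neg (by linarith only [htπ, hpi1])]
  have hgT0 : 0 ≤ gT (NN s / w') (11 / 25) (s ^ (2 : ℕ)) 1 X := gT_nonneg _ _ _ _ _
  have hlO : Kc r ρ * (20 / 3 * lO (8 / 9 * r) ρ (2 * π - t) + lO r ρ (2 * π - t)) ≤
      (if t * s < 6 / 5 * s then 265 / 100 * gT (NN s / w') (11 / 25) (s ^ (2 : ℕ)) 1 X else 0) := by
    have e4 : 2 * π - (2 * π - t) = t := by ring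
    unfold lO
    rw [e4]
    by_cases hc : t < 6 / 5
    · rw [if_pos hc, if_pos hc, if_pos (mul_lt_mul_of_pos_right hc hs)]
      calc _ = Kc r ρ * (10 / 3 * (√(π / (8 / 9 * r * SokamDz.lA ρ (2 * π - t))) *
            exp (-(8 / 9 * r * (11 / 25 * t ^ (2 : ℕ))))) +
            1 / 2 * (√(π / (r * SokamDz.lA ρ (2 * π - t))) * exp (-(r * (11 / 25 * t ^ (2 : ℕ)))))) := by ring
        _ ≤ _ := g5
        _ ≤ _ := mul_le_mul_of_nonneg_right (by norm_num) hgT0
    · rw [if_neg hc, if_neg hc, if_neg (by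
        intro h1
        exact hc (lt_of_mul_lt_mul_right h1 hs.le))]
      simp
  -- the sum
  have hFd : Fd r ρ (r * t ^ (2 : ℕ) / (1 + ρ ^ (2 : ℕ))) = 2 / 25 * exp (-(17 / 100 * X)) := by
    rw [← hXd]
    unfold Fd
    rw [if_pos hX80]
  rw [hFd]
  have hgM1 := gM_nonneg (NN s) w (s ^ (2 : ℕ)) p (11 / 25) 1 X
  have hgM2 := gM_nonneg (NN s) w' (s ^ (2 : ℕ)) p b ψ X
  have hgT1 := gT_nonneg (NN s) w p 1 X
  have hgT2 := gT_nonneg (NN s) w' p ψ X
  have G1 : Kc r ρ * (20 / 3 * C * rM (8 / 9 * r) ρ t (11 / 25) + 68 / 25 * rM r ρ t (11 / 25)) ≤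
      (5 * C + 7695 / 10000) * gM (NN s) w (s ^ (2 : ℕ)) p (11 / 25) 1 X := by
    unfold rM
    exact g1.trans (mul_le_mul_of_nonneg_right (by linarith only []) hgM1)
  have G2 : Kc r ρ * (20 / 3 * (14 / 5) * rT (8 / 9 * r) ρ t + 68 / 25 * rT r ρ t) ≤
      12501 / 1000 * gT (NN s) w p 1 X := by
    unfold rT
    exact g2.trans (mul_le_mul_of_nonneg_right (by norm_num) hgT1)
  have G3 : Kc r ρ * (20 / 3 * lM (8 / 9 * r) ρ (2 * π - t) b 0 + lM r ρ (2 * π - t) b 0) ≤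
      529 / 100 * gM (NN s) w' (s ^ (2 : ℕ)) p b ψ X := by
    unfold lM
    rw [sub_zero]
    refine le_trans (le_of_eq ?_) (g3.trans (mul_le_mul_of_nonneg_right (by norm_num) hgM2))
    ring
  have G4 : Kc r ρ * (20 / 3 * lT (8 / 9 * r) ρ (2 * π - t) + lT r ρ (2 * π - t)) ≤
      7453 / 1000 * gT (NN s) w' p ψ X := by
    unfold lT
    refine le_trans (le_of_eq ?_) (g4.trans (mul_le_mul_of_nonneg_right (by norm_num) hgT2))
    ring
  unfold S5 at hS5
  unfold SW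
  rw [hrO, hrO]
  calc _ = Kc r ρ * (20 / 3 * C * rM (8 / 9 * r) ρ t (11 / 25) + 68 / 25 * rM r ρ t (11 / 25)) +
        Kc r ρ * (20 / 3 * (14 / 5) * rT (8 / 9 * r) ρ t + 68 / 25 * rT r ρ t) +
        Kc r ρ * (20 / 3 * lM (8 / 9 * r) ρ (2 * π - t) b 0 + lM r ρ (2 * π - t) b 0) +
        Kc r ρ * (20 / 3 * lT (8 / 9 * r) ρ (2 * π - t) + lT r ρ (2 * π - t)) +
        Kc r ρ * (20 / 3 * lO (8 / 9 * r) ρ (2 * π - t) + lO r ρ (2 * π - t)) +
        (Kc r ρ * ((14 * r + 68 / 25) * rF r ρ t) +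
          Kc r ρ * ((4 * r + 1) * lF r ρ (2 * π - t) (1 / 2))) := by ring
    _ ≤ _ := by
      by_cases hfr : t * s < 6 / 5 * s
      · rw [if_pos hfr] at hS5 hlO
        linarith only [G1, G2, G3, G4, hS5, hlO, f1, f2, hfar]
      · rw [if_neg hfr] at hS5 hlO
        linarith only [G1, G2, G3, G4, hS5, hlO, f1, f2, hfar]

end SokamDR

end
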