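import Mathlib.Algebra.Order.Floor.Semifield
import Mathlib.Algebra.Ring.IsFormallyReal
import Mathlib.RingTheory.PowerSeries.Inverse
import Mathlib.Data.Rat.Star
import Mathlib.Geometry.Euclidean.Angle.Unoriented.TriangleInequality
import Mathlib.Analysis.Convex.Contractible
import Mathlib.Analysis.Calculus.Deriv.Star
import Mathlib.MeasureTheory.Integral.Gamma
import Mathlib.Analysis.Complex.LocallyUniformLimit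
import Mathlib.Topology.Separation.CompletelyRegular
import Mathlib.RingTheory.Flat.TorsionFree
import Mathlib.MeasureTheory.Order.Group.Lattice
import Mathlib.Data.Int.Star
import Mathlib.LinearAlgebra.Lagrange
import Mathlib.Analysis.Complex.Angle
import Mathlib.Analysis.Complex.BorelCaratheodory
import Mathlib.Analysis.Complex.CoveringMap
import Mathlib.Topology.Homotopy.Lifting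
import Mathlib.Analysis.Complex.ExponentialBounds
import Mathlib.Analysis.Complex.HasPrimitives
import Mathlib.NumberTheory.DiophantineApproximation.Basic
import Mathlib.Analysis.Complex.OpenMapping
import Mathlib.Analysis.SpecialFunctions.Trigonometric.DerivHyp
import Mathlib.RingTheory.SimpleRing.Principal
import Mathlib.Order.CompletePartialOrder
import Mathlib.Analysis.SpecialFunctions.Complex.LogBounds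
import Mathlib.Analysis.SpecialFunctions.Gamma.BohrMollerup
import Mathlib.Analysis.SpecialFunctions.Trigonometric.Series
import Mathlib.Topology.MetricSpace.Sequences
import Mathlib.Analysis.Normed.Group.Tannery
import Mathlib.Analysis.ODE.Gronwall
import Mathlib.Analysis.Real.Pi.Bounds
import Mathlib.Analysis.SpecialFunctions.Gaussian.PoissonSummation
import Mathlib.Analysis.SpecialFunctions.Trigonometric.InverseDeriv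
import Mathlib.RingTheory.TotallySplit
import Mathlib.RingTheory.Etale.Weakly
import Mathlib.Tactic

/-! ### Lib_MP_af4de1_f1.GCertB -/

section
/-!
# G-lemmas: polynomial certificates (B)
-/

set_option autoImplicit false

namespace SokamF1G

namespace Cert

theorem g3pu_z0_0_c {p q u v : ℝ} (hp : 0 ≤ p) (hq : 0 ≤ q) (hu : 0 ≤ u) (hv : 0 ≤ v) :
    0 ≤ (256 / 405) * q ^ (5 : ℕ) * u * v ^ (5 : ℕ) +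
    (704 / 243) * q ^ (5 : ℕ) * u ^ (2 : ℕ) * v ^ (4 : ℕ) +
    (1280 / 243) * q ^ (5 : ℕ) * u ^ (3 : ℕ) * v ^ (3 : ℕ) +
    (128 / 27) * q ^ (5 : ℕ) * u ^ (4 : ℕ) * v ^ (2 : ℕ) +
    (512 / 243) * q ^ (5 : ℕ) * u ^ (5 : ℕ) * v +
    (448 / 1215) * q ^ (5 : ℕ) * u ^ (6 : ℕ) +
    (2176 / 1215) * p * q ^ (4 : ℕ) * u * v ^ (5 : ℕ) +
    (1888 / 243) * p * q ^ (4 : ℕ) * u ^ (2 : ℕ) * v ^ (4 : ℕ) +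
    (3248 / 243) * p * q ^ (4 : ℕ) * u ^ (3 : ℕ) * v ^ (3 : ℕ) +
    (2768 / 243) * p * q ^ (4 : ℕ) * u ^ (4 : ℕ) * v ^ (2 : ℕ) +
    (1168 / 243) * p * q ^ (4 : ℕ) * u ^ (5 : ℕ) * v +
    (976 / 1215) * p * q ^ (4 : ℕ) * u ^ (6 : ℕ) +
    (1856 / 1215) * p ^ (2 : ℕ) * q ^ (3 : ℕ) * u * v ^ (5 : ℕ) +
    (160 / 27) * p ^ (2 : ℕ) * q ^ (3 : ℕ) * u ^ (2 : ℕ) * v ^ (4 : ℕ) +
    (2216 / 243) * p ^ (2 : ℕ) * q ^ (3 : ℕ) * u ^ (3 : ℕ) * v ^ (3 : ℕ) +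
    (1702 / 243) * p ^ (2 : ℕ) * q ^ (3 : ℕ) * u ^ (4 : ℕ) * v ^ (2 : ℕ) +
    (220 / 81) * p ^ (2 : ℕ) * q ^ (3 : ℕ) * u ^ (5 : ℕ) * v +
    (526 / 1215) * p ^ (2 : ℕ) * q ^ (3 : ℕ) * u ^ (6 : ℕ) +
    (1184 / 3645) * p ^ (3 : ℕ) * q ^ (2 : ℕ) * u * v ^ (5 : ℕ) +
    (560 / 729) * p ^ (3 : ℕ) * q ^ (2 : ℕ) * u ^ (2 : ℕ) * v ^ (4 : ℕ) +
    (448 / 729) * p ^ (3 : ℕ) * q ^ (2 : ℕ) * u ^ (3 : ℕ) * v ^ (3 : ℕ) +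
    (217 / 729) * p ^ (3 : ℕ) * q ^ (2 : ℕ) * u ^ (4 : ℕ) * v ^ (2 : ℕ) +
    (319 / 1458) * p ^ (3 : ℕ) * q ^ (2 : ℕ) * u ^ (5 : ℕ) * v +
    (673 / 7290) * p ^ (3 : ℕ) * q ^ (2 : ℕ) * u ^ (6 : ℕ) +
    (32 / 1215) * p ^ (4 : ℕ) * q * u * v ^ (5 : ℕ) +
    (28 / 243) * p ^ (4 : ℕ) * q * u ^ (2 : ℕ) * v ^ (4 : ℕ) +
    (44 / 81) * p ^ (4 : ℕ) * q * u ^ (3 : ℕ) * v ^ (3 : ℕ) +
    (521 / 486) * p ^ (4 : ℕ) * q * u ^ (4 : ℕ) * v ^ (2 : ℕ) +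
    (847 / 972) * p ^ (4 : ℕ) * q * u ^ (5 : ℕ) * v +
    (1081 / 4320) * p ^ (4 : ℕ) * q * u ^ (6 : ℕ) +
    (256 / 3645) * p ^ (5 : ℕ) * u * v ^ (5 : ℕ) +
    (298 / 729) * p ^ (5 : ℕ) * u ^ (2 : ℕ) * v ^ (4 : ℕ) +
    (716 / 729) * p ^ (5 : ℕ) * u ^ (3 : ℕ) * v ^ (3 : ℕ) +
    (3407 / 2916) * p ^ (5 : ℕ) * u ^ (4 : ℕ) * v ^ (2 : ℕ) +
    (1993 / 2916) * p ^ (5 : ℕ) * u ^ (5 : ℕ) * v +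
    (36619 / 233280) * p ^ (5 : ℕ) * u ^ (6 : ℕ) := by
  positivity

theorem g3pu_z0_0 {c s : ℝ} (h1 : 0 ≤ c) (h2 : c ≤ 1 / 2) (h3 : 0 ≤ s) (h4 : s ≤ 3 / 2) :
    0 ≤ c ^ (2 : ℕ) * s ^ (2 : ℕ) + (1 - c) * (1 - c * s) + 0 * s - (1 - c) * ((1 - c * s + (c * s) ^ (2 : ℕ) / 2 - (c * s) ^ (3 : ℕ) / 6 + (c * s) ^ (4 : ℕ) / 24) * (1 - s ^ (2 : ℕ) / 2 + s ^ (4 : ℕ) / 24)) - 0 * ((1 - c * s + (c * s) ^ (2 : ℕ) / 2 - (c * s) ^ (3 : ℕ) / 6 + (c * s) ^ (4 : ℕ) / 24) * (s - s ^ (3 : ℕ) / 6 + s ^ (5 : ℕ) / 120)) -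
      (1 - 3 / 10 * s) * s ^ (2 : ℕ) * ((1 - c) ^ (2 : ℕ) * (1 + c) / 2 + c ^ (2 : ℕ) + c * 0) := by
  have hp : 0 ≤ c - 0 := sub_nonneg.2 h1
  have hq : 0 ≤ 1 / 2 - c := sub_nonneg.2 h2
  have hu : 0 ≤ s - 0 := sub_nonneg.2 h3
  have hv : 0 ≤ 3 / 2 - s := sub_nonneg.2 h4
  have h := g3pu_z0_0_c hp hq hu hv
  have h5 := mul_nonneg (sq_nonneg s) h
  refine h5.trans (le_of_eq ?_)
  ring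

theorem g3pu_z0_1_c {p q u v : ℝ} (hp : 0 ≤ p) (hq : 0 ≤ q) (hu : 0 ≤ u) (hv : 0 ≤ v) :
    0 ≤ (256 / 3645) * q ^ (5 : ℕ) * u * v ^ (5 : ℕ) +
    (298 / 729) * q ^ (5 : ℕ) * u ^ (2 : ℕ) * v ^ (4 : ℕ) +
    (716 / 729) * q ^ (5 : ℕ) * u ^ (3 : ℕ) * v ^ (3 : ℕ) +
    (3407 / 2916) * q ^ (5 : ℕ) * u ^ (4 : ℕ) * v ^ (2 : ℕ) +
    (1993 / 2916) * q ^ (5 : ℕ) * u ^ (5 : ℕ) * v +
    (36619 / 233280) * q ^ (5 : ℕ) * u ^ (6 : ℕ) +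
    (2464 / 3645) * p * q ^ (4 : ℕ) * u * v ^ (5 : ℕ) +
    (2896 / 729) * p * q ^ (4 : ℕ) * u ^ (2 : ℕ) * v ^ (4 : ℕ) +
    (6764 / 729) * p * q ^ (4 : ℕ) * u ^ (3 : ℕ) * v ^ (3 : ℕ) +
    (7736 / 729) * p * q ^ (4 : ℕ) * u ^ (4 : ℕ) * v ^ (2 : ℕ) +
    (17389 / 2916) * p * q ^ (4 : ℕ) * u ^ (5 : ℕ) * v +
    (38477 / 29160) * p * q ^ (4 : ℕ) * u ^ (6 : ℕ) +
    (1184 / 405) * p ^ (2 : ℕ) * q ^ (3 : ℕ) * u * v ^ (5 : ℕ) +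
    (1312 / 81) * p ^ (2 : ℕ) * q ^ (3 : ℕ) * u ^ (2 : ℕ) * v ^ (4 : ℕ) +
    (320 / 9) * p ^ (2 : ℕ) * q ^ (3 : ℕ) * u ^ (3 : ℕ) * v ^ (3 : ℕ) +
    (3115 / 81) * p ^ (2 : ℕ) * q ^ (3 : ℕ) * u ^ (4 : ℕ) * v ^ (2 : ℕ) +
    (3335 / 162) * p ^ (2 : ℕ) * q ^ (3 : ℕ) * u ^ (5 : ℕ) * v +
    (1573 / 360) * p ^ (2 : ℕ) * q ^ (3 : ℕ) * u ^ (6 : ℕ) +
    (19712 / 3645) * p ^ (3 : ℕ) * q ^ (2 : ℕ) * u * v ^ (5 : ℕ) +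
    (20864 / 729) * p ^ (3 : ℕ) * q ^ (2 : ℕ) * u ^ (2 : ℕ) * v ^ (4 : ℕ) +
    (43816 / 729) * p ^ (3 : ℕ) * q ^ (2 : ℕ) * u ^ (3 : ℕ) * v ^ (3 : ℕ) +
    (45580 / 729) * p ^ (3 : ℕ) * q ^ (2 : ℕ) * u ^ (4 : ℕ) * v ^ (2 : ℕ) +
    (23591 / 729) * p ^ (3 : ℕ) * q ^ (2 : ℕ) * u ^ (5 : ℕ) * v +
    (48649 / 7290) * p ^ (3 : ℕ) * q ^ (2 : ℕ) * u ^ (6 : ℕ) +
    (15872 / 3645) * p ^ (4 : ℕ) * q * u * v ^ (5 : ℕ) +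
    (16256 / 729) * p ^ (4 : ℕ) * q * u ^ (2 : ℕ) * v ^ (4 : ℕ) +
    (33136 / 729) * p ^ (4 : ℕ) * q * u ^ (3 : ℕ) * v ^ (3 : ℕ) +
    (33616 / 729) * p ^ (4 : ℕ) * q * u ^ (4 : ℕ) * v ^ (2 : ℕ) +
    (17030 / 729) * p ^ (4 : ℕ) * q * u ^ (5 : ℕ) * v +
    (68963 / 14580) * p ^ (4 : ℕ) * q * u ^ (6 : ℕ) +
    (512 / 405) * p ^ (5 : ℕ) * u * v ^ (5 : ℕ) +
    (512 / 81) * p ^ (5 : ℕ) * u ^ (2 : ℕ) * v ^ (4 : ℕ) +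
    (1024 / 81) * p ^ (5 : ℕ) * u ^ (3 : ℕ) * v ^ (3 : ℕ) +
    (1024 / 81) * p ^ (5 : ℕ) * u ^ (4 : ℕ) * v ^ (2 : ℕ) +
    (512 / 81) * p ^ (5 : ℕ) * u ^ (5 : ℕ) * v +
    (512 / 405) * p ^ (5 : ℕ) * u ^ (6 : ℕ) := by
  positivity

theorem g3pu_z0_1 {c s : ℝ} (h1 : 1 / 2 ≤ c) (h2 : c ≤ 1) (h3 : 0 ≤ s) (h4 : s ≤ 3 / 2) :
    0 ≤ c ^ (2 : ℕ) * s ^ (2 : ℕ) + (1 - c) * (1 - c * s) + 0 * s - (1 - c) * ((1 - c * s + (c * s) ^ (2 : ℕ) / 2 - (c * s) ^ (3 : ℕ) / 6 + (c * s) ^ (4 : ℕ) / 24) * (1 - s ^ (2 : ℕ) / 2 + s ^ (4 : ℕ) / 24)) - 0 * ((1 - c * s + (c * s) ^ (2 : ℕ) / 2 - (c * s) ^ (3 : ℕ) / 6 + (c * s) ^ (4 : ℕ) / 24) * (s - s ^ (3 : ℕ) / 6 + s ^ (5 : ℕ) / 120)) -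
      (1 - 3 / 10 * s) * s ^ (2 : ℕ) * ((1 - c) ^ (2 : ℕ) * (1 + c) / 2 + c ^ (2 : ℕ) + c * 0) := by
  have hp : 0 ≤ c - 1 / 2 := sub_nonneg.2 h1
  have hq : 0 ≤ 1 - c := sub_nonneg.2 h2
  have hu : 0 ≤ s - 0 := sub_nonneg.2 h3
  have hv : 0 ≤ 3 / 2 - s := sub_nonneg.2 h4
  have h := g3pu_z0_1_c hp hq hu hv
  have h5 := mul_nonneg (sq_nonneg s) h
  refine h5.trans (le_of_eq ?_)
  ring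

theorem g3pu_z0 {c s : ℝ} (h1 : 0 ≤ c) (h2 : c ≤ 1) (h3 : 0 ≤ s) (h4 : s ≤ 3 / 2) :
    0 ≤ c ^ (2 : ℕ) * s ^ (2 : ℕ) + (1 - c) * (1 - c * s) + 0 * s - (1 - c) * ((1 - c * s + (c * s) ^ (2 : ℕ) / 2 - (c * s) ^ (3 : ℕ) / 6 + (c * s) ^ (4 : ℕ) / 24) * (1 - s ^ (2 : ℕ) / 2 + s ^ (4 : ℕ) / 24)) - 0 * ((1 - c * s + (c * s) ^ (2 : ℕ) / 2 - (c * s) ^ (3 : ℕ) / 6 + (c * s) ^ (4 : ℕ) / 24) * (s - s ^ (3 : ℕ) / 6 + s ^ (5 : ℕ) / 120)) -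
      (1 - 3 / 10 * s) * s ^ (2 : ℕ) * ((1 - c) ^ (2 : ℕ) * (1 + c) / 2 + c ^ (2 : ℕ) + c * 0) := by
  rcases le_total c (1 / 2) with h5 | h5
  · exact g3pu_z0_0 (by linarith) h5 h3 h4
  exact g3pu_z0_1 (by linarith) h2 h3 h4

theorem g3pu_zp_c {p q u v : ℝ} (hp : 0 ≤ p) (hq : 0 ≤ q) (hu : 0 ≤ u) (hv : 0 ≤ v) :
    0 ≤ (16 / 1215) * q ^ (5 : ℕ) * u * v ^ (6 : ℕ) +
    (268 / 3645) * q ^ (5 : ℕ) * u ^ (2 : ℕ) * v ^ (5 : ℕ) +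
    (124 / 729) * q ^ (5 : ℕ) * u ^ (3 : ℕ) * v ^ (4 : ℕ) +
    (152 / 729) * q ^ (5 : ℕ) * u ^ (4 : ℕ) * v ^ (3 : ℕ) +
    (104 / 729) * q ^ (5 : ℕ) * u ^ (5 : ℕ) * v ^ (2 : ℕ) +
    (188 / 3645) * q ^ (5 : ℕ) * u ^ (6 : ℕ) * v +
    (28 / 3645) * q ^ (5 : ℕ) * u ^ (7 : ℕ) +
    (352 / 18225) * p * q ^ (4 : ℕ) * u * v ^ (6 : ℕ) +
    (1712 / 18225) * p * q ^ (4 : ℕ) * u ^ (2 : ℕ) * v ^ (5 : ℕ) +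
    (17042 / 91125) * p * q ^ (4 : ℕ) * u ^ (3 : ℕ) * v ^ (4 : ℕ) +
    (17768 / 91125) * p * q ^ (4 : ℕ) * u ^ (4 : ℕ) * v ^ (3 : ℕ) +
    (10252 / 91125) * p * q ^ (4 : ℕ) * u ^ (5 : ℕ) * v ^ (2 : ℕ) +
    (3128 / 91125) * p * q ^ (4 : ℕ) * u ^ (6 : ℕ) * v +
    (134 / 30375) * p * q ^ (4 : ℕ) * u ^ (7 : ℕ) +
    (656 / 30375) * p ^ (2 : ℕ) * q ^ (3 : ℕ) * u * v ^ (6 : ℕ) +
    (128 / 1125) * p ^ (2 : ℕ) * q ^ (3 : ℕ) * u ^ (2 : ℕ) * v ^ (5 : ℕ) +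
    (298 / 1125) * p ^ (2 : ℕ) * q ^ (3 : ℕ) * u ^ (3 : ℕ) * v ^ (4 : ℕ) +
    (21221 / 60750) * p ^ (2 : ℕ) * q ^ (3 : ℕ) * u ^ (4 : ℕ) * v ^ (3 : ℕ) +
    (613 / 2250) * p ^ (2 : ℕ) * q ^ (3 : ℕ) * u ^ (5 : ℕ) * v ^ (2 : ℕ) +
    (791 / 6750) * p ^ (2 : ℕ) * q ^ (3 : ℕ) * u ^ (6 : ℕ) * v +
    (1297 / 60750) * p ^ (2 : ℕ) * q ^ (3 : ℕ) * u ^ (7 : ℕ) +
    (20992 / 273375) * p ^ (3 : ℕ) * q ^ (2 : ℕ) * u * v ^ (6 : ℕ) +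
    (13888 / 30375) * p ^ (3 : ℕ) * q ^ (2 : ℕ) * u ^ (2 : ℕ) * v ^ (5 : ℕ) +
    (104542 / 91125) * p ^ (3 : ℕ) * q ^ (2 : ℕ) * u ^ (3 : ℕ) * v ^ (4 : ℕ) +
    (422507 / 273375) * p ^ (3 : ℕ) * q ^ (2 : ℕ) * u ^ (4 : ℕ) * v ^ (3 : ℕ) +
    (142793 / 121500) * p ^ (3 : ℕ) * q ^ (2 : ℕ) * u ^ (5 : ℕ) * v ^ (2 : ℕ) +
    (87029 / 182250) * p ^ (3 : ℕ) * q ^ (2 : ℕ) * u ^ (6 : ℕ) * v +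
    (88561 / 1093500) * p ^ (3 : ℕ) * q ^ (2 : ℕ) * u ^ (7 : ℕ) +
    (23392 / 273375) * p ^ (4 : ℕ) * q * u * v ^ (6 : ℕ) +
    (45904 / 91125) * p ^ (4 : ℕ) * q * u ^ (2 : ℕ) * v ^ (5 : ℕ) +
    (37846 / 30375) * p ^ (4 : ℕ) * q * u ^ (3 : ℕ) * v ^ (4 : ℕ) +
    (453014 / 273375) * p ^ (4 : ℕ) * q * u ^ (4 : ℕ) * v ^ (3 : ℕ) +
    (455617 / 364500) * p ^ (4 : ℕ) * q * u ^ (5 : ℕ) * v ^ (2 : ℕ) +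
    (10943 / 21600) * p ^ (4 : ℕ) * q * u ^ (6 : ℕ) * v +
    (752147 / 8748000) * p ^ (4 : ℕ) * q * u ^ (7 : ℕ) +
    (736 / 30375) * p ^ (5 : ℕ) * u * v ^ (6 : ℕ) +
    (1472 / 10125) * p ^ (5 : ℕ) * u ^ (2 : ℕ) * v ^ (5 : ℕ) +
    (3728 / 10125) * p ^ (5 : ℕ) * u ^ (3 : ℕ) * v ^ (4 : ℕ) +
    (3034 / 6075) * p ^ (5 : ℕ) * u ^ (4 : ℕ) * v ^ (3 : ℕ) +
    (3851 / 10125) * p ^ (5 : ℕ) * u ^ (5 : ℕ) * v ^ (2 : ℕ) +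
    (6251 / 40500) * p ^ (5 : ℕ) * u ^ (6 : ℕ) * v +
    (25397 / 972000) * p ^ (5 : ℕ) * u ^ (7 : ℕ) := by
  positivity

theorem g3pu_zp {c s : ℝ} (h1 : 0 ≤ c) (h2 : c ≤ 1) (h3 : 0 ≤ s) (h4 : s ≤ 3 / 2) :
    0 ≤ c ^ (2 : ℕ) * s ^ (2 : ℕ) + (1 - c) * (1 - c * s) + (18 / 25 * c) * s - (1 - c) * ((1 - c * s + (c * s) ^ (2 : ℕ) / 2 - (c * s) ^ (3 : ℕ) / 6 + (c * s) ^ (4 : ℕ) / 24) * (1 - s ^ (2 : ℕ) / 2 + s ^ (4 : ℕ) / 24)) - (18 / 25 * c) * ((1 - c * s + (c * s) ^ (2 : ℕ) / 2 - (c * s) ^ (3 : ℕ) / 6 + (c * s) ^ (4 : ℕ) / 24) * (s - s ^ (3 : ℕ) / 6 + s ^ (5 : ℕ) / 120)) -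
      (1 - 3 / 10 * s) * s ^ (2 : ℕ) * ((1 - c) ^ (2 : ℕ) * (1 + c) / 2 + c ^ (2 : ℕ) + c * (18 / 25 * c)) := by
  have hp : 0 ≤ c - 0 := sub_nonneg.2 h1
  have hq : 0 ≤ 1 - c := sub_nonneg.2 h2
  have hu : 0 ≤ s - 0 := sub_nonneg.2 h3
  have hv : 0 ≤ 3 / 2 - s := sub_nonneg.2 h4
  have h := g3pu_zp_c hp hq hu hv
  have h5 := mul_nonneg (sq_nonneg s) h
  refine h5.trans (le_of_eq ?_)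
  ring

theorem g3pc_z0_c {p q u v : ℝ} (hp : 0 ≤ p) (hq : 0 ≤ q) (hu : 0 ≤ u) (hv : 0 ≤ v) :
    0 ≤ (484519 / 5000) * q ^ (3 : ℕ) * v ^ (4 : ℕ) +
    (1065223 / 2500) * q ^ (3 : ℕ) * u * v ^ (3 : ℕ) +
    (6943559 / 10000) * q ^ (3 : ℕ) * u ^ (2 : ℕ) * v ^ (2 : ℕ) +
    (5056557 / 10000) * q ^ (3 : ℕ) * u ^ (3 : ℕ) * v +
    (11227779 / 80000) * q ^ (3 : ℕ) * u ^ (4 : ℕ) +
    (948519 / 2500) * p * q ^ (2 : ℕ) * v ^ (4 : ℕ) +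
    (2021223 / 1250) * p * q ^ (2 : ℕ) * u * v ^ (3 : ℕ) +
    (12803559 / 5000) * p * q ^ (2 : ℕ) * u ^ (2 : ℕ) * v ^ (2 : ℕ) +
    (9082557 / 5000) * p * q ^ (2 : ℕ) * u ^ (3 : ℕ) * v +
    (19723779 / 40000) * p * q ^ (2 : ℕ) * u ^ (4 : ℕ) +
    (2088519 / 5000) * p ^ (2 : ℕ) * q * v ^ (4 : ℕ) +
    (4286223 / 2500) * p ^ (2 : ℕ) * q * u * v ^ (3 : ℕ) +
    (26153559 / 10000) * p ^ (2 : ℕ) * q * u ^ (2 : ℕ) * v ^ (2 : ℕ) +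
    (17947557 / 10000) * p ^ (2 : ℕ) * q * u ^ (3 : ℕ) * v +
    (38083779 / 80000) * p ^ (2 : ℕ) * q * u ^ (4 : ℕ) +
    (648 / 5) * p ^ (3 : ℕ) * v ^ (4 : ℕ) +
    (2484 / 5) * p ^ (3 : ℕ) * u * v ^ (3 : ℕ) +
    702 * p ^ (3 : ℕ) * u ^ (2 : ℕ) * v ^ (2 : ℕ) +
    (2241 / 5) * p ^ (3 : ℕ) * u ^ (3 : ℕ) * v +
    (567 / 5) * p ^ (3 : ℕ) * u ^ (4 : ℕ) := by
  positivity

theorem g3pc_z0 {c s : ℝ} (h1 : 2 / 3 ≤ c) (h2 : c ≤ 1) (h3 : 1 ≤ s) (h4 : s ≤ 3 / 2) :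
    0 ≤ c * s + 0 * s - (1 - c) * ((3679 / 10000) * (1 - s ^ (2 : ℕ) / 2 + s ^ (4 : ℕ) / 24)) - 0 * ((3679 / 10000) * (s - s ^ (3 : ℕ) / 6 + s ^ (5 : ℕ) / 120)) -
      (1 - 3 / 10 * s) * s ^ (2 : ℕ) * ((1 - c) ^ (2 : ℕ) * (1 + c) / 2 + c ^ (2 : ℕ) + c * 0) := by
  have hp : 0 ≤ c - 2 / 3 := sub_nonneg.2 h1
  have hq : 0 ≤ 1 - c := sub_nonneg.2 h2
  have hu : 0 ≤ s - 1 := sub_nonneg.2 h3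
  have hv : 0 ≤ 3 / 2 - s := sub_nonneg.2 h4
  have h := g3pc_z0_c hp hq hu hv
  refine h.trans (le_of_eq ?_)
  ring

theorem g3pc_zp_c {p q u v : ℝ} (hp : 0 ≤ p) (hq : 0 ≤ q) (hu : 0 ≤ u) (hv : 0 ≤ v) :
    0 ≤ (89554343 / 312500) * q ^ (3 : ℕ) * v ^ (5 : ℕ) +
    (19047387 / 12500) * q ^ (3 : ℕ) * u * v ^ (4 : ℕ) +
    (404178543 / 125000) * q ^ (3 : ℕ) * u ^ (2 : ℕ) * v ^ (3 : ℕ) +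
    (215651761 / 62500) * q ^ (3 : ℕ) * u ^ (3 : ℕ) * v ^ (2 : ℕ) +
    (372438483 / 200000) * q ^ (3 : ℕ) * u ^ (4 : ℕ) * v +
    (2039678937 / 5000000) * q ^ (3 : ℕ) * u ^ (5 : ℕ) +
    (77088222 / 78125) * p * q ^ (2 : ℕ) * v ^ (5 : ℕ) +
    (63815217 / 12500) * p * q ^ (2 : ℕ) * u * v ^ (4 : ℕ) +
    (329812497 / 31250) * p * q ^ (2 : ℕ) * u ^ (2 : ℕ) * v ^ (3 : ℕ) +
    (1375225977 / 125000) * p * q ^ (2 : ℕ) * u ^ (3 : ℕ) * v ^ (2 : ℕ) +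
    (18209052 / 3125) * p * q ^ (2 : ℕ) * u ^ (4 : ℕ) * v +
    (6302307717 / 5000000) * p * q ^ (2 : ℕ) * u ^ (5 : ℕ) +
    (301422747 / 312500) * p ^ (2 : ℕ) * q * v ^ (5 : ℕ) +
    (59699073 / 12500) * p ^ (2 : ℕ) * q * u * v ^ (4 : ℕ) +
    (1180210347 / 125000) * p ^ (2 : ℕ) * q * u ^ (2 : ℕ) * v ^ (3 : ℕ) +
    (295287597 / 31250) * p ^ (2 : ℕ) * q * u ^ (3 : ℕ) * v ^ (2 : ℕ) +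
    (970486407 / 200000) * p ^ (2 : ℕ) * q * u ^ (4 : ℕ) * v +
    (5166898623 / 5000000) * p ^ (2 : ℕ) * q * u ^ (5 : ℕ) +
    (39562101 / 156250) * p ^ (3 : ℕ) * v ^ (5 : ℕ) +
    (14121243 / 12500) * p ^ (3 : ℕ) * u * v ^ (4 : ℕ) +
    (123344451 / 62500) * p ^ (3 : ℕ) * u ^ (2 : ℕ) * v ^ (3 : ℕ) +
    (216552933 / 125000) * p ^ (3 : ℕ) * u ^ (3 : ℕ) * v ^ (2 : ℕ) +
    (79652781 / 100000) * p ^ (3 : ℕ) * u ^ (4 : ℕ) * v +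
    (805269843 / 5000000) * p ^ (3 : ℕ) * u ^ (5 : ℕ) := by
  positivity

theorem g3pc_zp {c s : ℝ} (h1 : 2 / 3 ≤ c) (h2 : c ≤ 1) (h3 : 1 ≤ s) (h4 : s ≤ 3 / 2) :
    0 ≤ c * s + (18 / 25 * c) * s - (1 - c) * ((3679 / 10000) * (1 - s ^ (2 : ℕ) / 2 + s ^ (4 : ℕ) / 24)) - (18 / 25 * c) * ((3679 / 10000) * (s - s ^ (3 : ℕ) / 6 + s ^ (5 : ℕ) / 120)) -
      (1 - 3 / 10 * s) * s ^ (2 : ℕ) * ((1 - c) ^ (2 : ℕ) * (1 + c) / 2 + c ^ (2 : ℕ) + c * (18 / 25 * c)) := by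
  have hp : 0 ≤ c - 2 / 3 := sub_nonneg.2 h1
  have hq : 0 ≤ 1 - c := sub_nonneg.2 h2
  have hu : 0 ≤ s - 1 := sub_nonneg.2 h3
  have hv : 0 ≤ 3 / 2 - s := sub_nonneg.2 h4
  have h := g3pc_zp_c hp hq hu hv
  refine h.trans (le_of_eq ?_)
  ring

end Cert

end SokamF1G

end
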