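import Mathlib.Algebra.Order.Floor.Semifield
import Mathlib.Algebra.Ring.IsFormallyReal
import Mathlib.RingTheory.PowerSeries.Inverse
import Mathlib.Data.Rat.Star
import Mathlib.Geometry.Euclidean.Angle.Unoriented.TriangleInequality
import Mathlib.Analysis.Convex.Contractible
import Mathlib.Analysis.Calculus.Deriv.Star
import Mathlib.MeasureTheory.Integral.Gamma
import Mathlib.Analysis.Complex.LocallyUniformLimit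
import Mathlib.Topology.Separation.CompletelyRegular
import Mathlib.RingTheory.Flat.TorsionFree
import Mathlib.MeasureTheory.Order.Group.Lattice
import Mathlib.Data.Int.Star
import Mathlib.LinearAlgebra.Lagrange
import Mathlib.Analysis.Complex.Angle
import Mathlib.Analysis.Complex.BorelCaratheodory
import Mathlib.Analysis.Complex.CoveringMap
import Mathlib.Topology.Homotopy.Lifting
import Mathlib.Analysis.Complex.ExponentialBounds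
import Mathlib.Analysis.Complex.HasPrimitives
import Mathlib.NumberTheory.DiophantineApproximation.Basic
import Mathlib.Analysis.Complex.OpenMapping
import Mathlib.Analysis.SpecialFunctions.Trigonometric.DerivHyp
import Mathlib.RingTheory.SimpleRing.Principal
import Mathlib.Order.CompletePartialOrder
import Mathlib.Analysis.SpecialFunctions.Complex.LogBounds
import Mathlib.Analysis.SpecialFunctions.Gamma.BohrMollerup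
import Mathlib.Analysis.SpecialFunctions.Trigonometric.Series
import Mathlib.Topology.MetricSpace.Sequences
import Mathlib.Analysis.Normed.Group.Tannery
import Mathlib.Analysis.ODE.Gronwall
import Mathlib.Analysis.Real.Pi.Bounds
import Mathlib.Analysis.SpecialFunctions.Gaussian.PoissonSummation
import Mathlib.Analysis.SpecialFunctions.Trigonometric.InverseDeriv
import Mathlib.RingTheory.TotallySplit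
import Mathlib.RingTheory.Etale.Weakly
import Mathlib.Tactic

/-! ### Lib_MP_af4de1_f1.GCertD -/

section
/-!
# G-lemmas: polynomial certificates (D)
-/

set_option autoImplicit false

namespace SokamF1G

namespace Cert

theorem g2mu_z0_c {p q u v : ℝ} (hp : 0 ≤ p) (hq : 0 ≤ q) (hu : 0 ≤ u) (hv : 0 ≤ v) :
    0 ≤ (152 / 15) * q ^ (5 : ℕ) * v ^ (6 : ℕ) +
    (872 / 15) * q ^ (5 : ℕ) * u * v ^ (5 : ℕ) +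
    138 * q ^ (5 : ℕ) * u ^ (2 : ℕ) * v ^ (4 : ℕ) +
    (520 / 3) * q ^ (5 : ℕ) * u ^ (3 : ℕ) * v ^ (3 : ℕ) +
    (364 / 3) * q ^ (5 : ℕ) * u ^ (4 : ℕ) * v ^ (2 : ℕ) +
    (224 / 5) * q ^ (5 : ℕ) * u ^ (5 : ℕ) * v +
    (34 / 5) * q ^ (5 : ℕ) * u ^ (6 : ℕ) +
    (1048 / 15) * p * q ^ (4 : ℕ) * v ^ (6 : ℕ) +
    (6308 / 15) * p * q ^ (4 : ℕ) * u * v ^ (5 : ℕ) +
    1050 * p * q ^ (4 : ℕ) * u ^ (2 : ℕ) * v ^ (4 : ℕ) +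
    (4175 / 3) * p * q ^ (4 : ℕ) * u ^ (3 : ℕ) * v ^ (3 : ℕ) +
    (3097 / 3) * p * q ^ (4 : ℕ) * u ^ (4 : ℕ) * v ^ (2 : ℕ) +
    (2031 / 5) * p * q ^ (4 : ℕ) * u ^ (5 : ℕ) * v +
    (331 / 5) * p * q ^ (4 : ℕ) * u ^ (6 : ℕ) +
    (2644 / 15) * p ^ (2 : ℕ) * q ^ (3 : ℕ) * v ^ (6 : ℕ) +
    (16364 / 15) * p ^ (2 : ℕ) * q ^ (3 : ℕ) * u * v ^ (5 : ℕ) +
    (8408 / 3) * p ^ (2 : ℕ) * q ^ (3 : ℕ) * u ^ (2 : ℕ) * v ^ (4 : ℕ) +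
    3825 * p ^ (2 : ℕ) * q ^ (3 : ℕ) * u ^ (3 : ℕ) * v ^ (3 : ℕ) +
    (11697 / 4) * p ^ (2 : ℕ) * q ^ (3 : ℕ) * u ^ (4 : ℕ) * v ^ (2 : ℕ) +
    (11871 / 10) * p ^ (2 : ℕ) * q ^ (3 : ℕ) * u ^ (5 : ℕ) * v +
    (3997 / 20) * p ^ (2 : ℕ) * q ^ (3 : ℕ) * u ^ (6 : ℕ) +
    (9148 / 45) * p ^ (3 : ℕ) * q ^ (2 : ℕ) * v ^ (6 : ℕ) +
    (57298 / 45) * p ^ (3 : ℕ) * q ^ (2 : ℕ) * u * v ^ (5 : ℕ) +
    (9946 / 3) * p ^ (3 : ℕ) * q ^ (2 : ℕ) * u ^ (2 : ℕ) * v ^ (4 : ℕ) +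
    4592 * p ^ (3 : ℕ) * q ^ (2 : ℕ) * u ^ (3 : ℕ) * v ^ (3 : ℕ) +
    (14269 / 4) * p ^ (3 : ℕ) * q ^ (2 : ℕ) * u ^ (4 : ℕ) * v ^ (2 : ℕ) +
    (176773 / 120) * p ^ (3 : ℕ) * q ^ (2 : ℕ) * u ^ (5 : ℕ) * v +
    (10101 / 40) * p ^ (3 : ℕ) * q ^ (2 : ℕ) * u ^ (6 : ℕ) +
    (84392 / 765) * p ^ (4 : ℕ) * q * v ^ (6 : ℕ) +
    (524522 / 765) * p ^ (4 : ℕ) * q * u * v ^ (5 : ℕ) +
    (90628 / 51) * p ^ (4 : ℕ) * q * u ^ (2 : ℕ) * v ^ (4 : ℕ) +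
    (125336 / 51) * p ^ (4 : ℕ) * q * u ^ (3 : ℕ) * v ^ (3 : ℕ) +
    (65011 / 34) * p ^ (4 : ℕ) * q * u ^ (4 : ℕ) * v ^ (2 : ℕ) +
    (1618037 / 2040) * p ^ (4 : ℕ) * q * u ^ (5 : ℕ) * v +
    (23281 / 170) * p ^ (4 : ℕ) * q * u ^ (6 : ℕ) +
    (128 / 5) * p ^ (5 : ℕ) * v ^ (6 : ℕ) +
    (768 / 5) * p ^ (5 : ℕ) * u * v ^ (5 : ℕ) +
    384 * p ^ (5 : ℕ) * u ^ (2 : ℕ) * v ^ (4 : ℕ) +
    512 * p ^ (5 : ℕ) * u ^ (3 : ℕ) * v ^ (3 : ℕ) +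
    384 * p ^ (5 : ℕ) * u ^ (4 : ℕ) * v ^ (2 : ℕ) +
    (768 / 5) * p ^ (5 : ℕ) * u ^ (5 : ℕ) * v +
    (128 / 5) * p ^ (5 : ℕ) * u ^ (6 : ℕ) := by
  positivity

theorem g2mu_z0 {c s : ℝ} (h1 : 0 ≤ c) (h2 : c ≤ 1) (h3 : 1 ≤ s) (h4 : s ≤ 3 / 2) :
    0 ≤ c ^ (2 : ℕ) * s ^ (2 : ℕ) + (1 - c) * (1 + c * s) - 0 * s - (1 - c) * ((1 + c * s + (c * s) ^ (2 : ℕ) / 2 + (c * s) ^ (3 : ℕ) / 6 + (c * s) ^ (4 : ℕ) / 17) * (1 - s ^ (2 : ℕ) / 2 + s ^ (4 : ℕ) / 24)) + 0 * ((1 + c * s + (c * s) ^ (2 : ℕ) / 2 + (c * s) ^ (3 : ℕ) / 6 + (c * s) ^ (4 : ℕ) / 17) * (s - s ^ (3 : ℕ) / 6 + s ^ (5 : ℕ) / 120)) -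
      (3 / 5) * s ^ (2 : ℕ) * ((1 - c) ^ (2 : ℕ) * (1 + c) / 2 + c ^ (2 : ℕ) + c * 0) := by
  have hp : 0 ≤ c - 0 := sub_nonneg.2 h1
  have hq : 0 ≤ 1 - c := sub_nonneg.2 h2
  have hu : 0 ≤ s - 1 := sub_nonneg.2 h3
  have hv : 0 ≤ 3 / 2 - s := sub_nonneg.2 h4
  have h := g2mu_z0_c hp hq hu hv
  have h5 := mul_nonneg (sq_nonneg s) h
  refine h5.trans (le_of_eq ?_)
  ring

theorem g2mu_zm_c {p q u v : ℝ} (hp : 0 ≤ p) (hq : 0 ≤ q) (hu : 0 ≤ u) (hv : 0 ≤ v) :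
    0 ≤ (194560000 / 1113879) * q ^ (5 : ℕ) * v ^ (7 : ℕ) +
    (1310720000 / 1113879) * q ^ (5 : ℕ) * u * v ^ (6 : ℕ) +
    (3765760000 / 1113879) * q ^ (5 : ℕ) * u ^ (2 : ℕ) * v ^ (5 : ℕ) +
    (5977600000 / 1113879) * q ^ (5 : ℕ) * u ^ (3 : ℕ) * v ^ (4 : ℕ) +
    (435200000 / 85683) * q ^ (5 : ℕ) * u ^ (4 : ℕ) * v ^ (3 : ℕ) +
    (3189760000 / 1113879) * q ^ (5 : ℕ) * u ^ (5 : ℕ) * v ^ (2 : ℕ) +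
    (330240000 / 371293) * q ^ (5 : ℕ) * u ^ (6 : ℕ) * v +
    (43520000 / 371293) * q ^ (5 : ℕ) * u ^ (7 : ℕ) +
    (437862400 / 371293) * p * q ^ (4 : ℕ) * v ^ (7 : ℕ) +
    (9167411200 / 1113879) * p * q ^ (4 : ℕ) * u * v ^ (6 : ℕ) +
    (9111500800 / 371293) * p * q ^ (4 : ℕ) * u ^ (2 : ℕ) * v ^ (5 : ℕ) +
    (45132070400 / 1113879) * p * q ^ (4 : ℕ) * u ^ (3 : ℕ) * v ^ (4 : ℕ) +
    (3427379200 / 85683) * p * q ^ (4 : ℕ) * u ^ (4 : ℕ) * v ^ (3 : ℕ) +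
    (8764851200 / 371293) * p * q ^ (4 : ℕ) * u ^ (5 : ℕ) * v ^ (2 : ℕ) +
    (8586444800 / 1113879) * p * q ^ (4 : ℕ) * u ^ (6 : ℕ) * v +
    (398809600 / 371293) * p * q ^ (4 : ℕ) * u ^ (7 : ℕ) +
    (3193233920 / 1113879) * p ^ (2 : ℕ) * q ^ (3 : ℕ) * v ^ (7 : ℕ) +
    (7608985600 / 371293) * p ^ (2 : ℕ) * q ^ (3 : ℕ) * u * v ^ (6 : ℕ) +
    (23245952000 / 371293) * p ^ (2 : ℕ) * q ^ (3 : ℕ) * u ^ (2 : ℕ) * v ^ (5 : ℕ) +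
    (118024378240 / 1113879) * p ^ (2 : ℕ) * q ^ (3 : ℕ) * u ^ (3 : ℕ) * v ^ (4 : ℕ) +
    (3063948960 / 28561) * p ^ (2 : ℕ) * q ^ (3 : ℕ) * u ^ (4 : ℕ) * v ^ (3 : ℕ) +
    (24122626400 / 371293) * p ^ (2 : ℕ) * q ^ (3 : ℕ) * u ^ (5 : ℕ) * v ^ (2 : ℕ) +
    (24271066400 / 1113879) * p ^ (2 : ℕ) * q ^ (3 : ℕ) * u ^ (6 : ℕ) * v +
    (1158983840 / 371293) * p ^ (2 : ℕ) * q ^ (3 : ℕ) * u ^ (7 : ℕ) +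
    (10469579008 / 3341637) * p ^ (3 : ℕ) * q ^ (2 : ℕ) * v ^ (7 : ℕ) +
    (76222533056 / 3341637) * p ^ (3 : ℕ) * q ^ (2 : ℕ) * u * v ^ (6 : ℕ) +
    (237175934848 / 3341637) * p ^ (3 : ℕ) * q ^ (2 : ℕ) * u ^ (2 : ℕ) * v ^ (5 : ℕ) +
    (136288897760 / 1113879) * p ^ (3 : ℕ) * q ^ (2 : ℕ) * u ^ (3 : ℕ) * v ^ (4 : ℕ) +
    (10813150160 / 85683) * p ^ (3 : ℕ) * q ^ (2 : ℕ) * u ^ (4 : ℕ) * v ^ (3 : ℕ) +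
    (86740198564 / 1113879) * p ^ (3 : ℕ) * q ^ (2 : ℕ) * u ^ (5 : ℕ) * v ^ (2 : ℕ) +
    (29645955608 / 1113879) * p ^ (3 : ℕ) * q ^ (2 : ℕ) * u ^ (6 : ℕ) * v +
    (1442934988 / 371293) * p ^ (3 : ℕ) * q ^ (2 : ℕ) * u ^ (7 : ℕ) +
    (425789782624 / 284039145) * p ^ (4 : ℕ) * q * v ^ (7 : ℕ) +
    (629360691376 / 56807829) * p ^ (4 : ℕ) * q * u * v ^ (6 : ℕ) +
    (1104877045824 / 31559905) * p ^ (4 : ℕ) * q * u ^ (2 : ℕ) * v ^ (5 : ℕ) +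
    (3483080105608 / 56807829) * p ^ (4 : ℕ) * q * u ^ (3 : ℕ) * v ^ (4 : ℕ) +
    (93616402762 / 1456611) * p ^ (4 : ℕ) * q * u ^ (4 : ℕ) * v ^ (3 : ℕ) +
    (3817193219237 / 94679715) * p ^ (4 : ℕ) * q * u ^ (5 : ℕ) * v ^ (2 : ℕ) +
    (265332526633 / 18935943) * p ^ (4 : ℕ) * q * u ^ (6 : ℕ) * v +
    (65676221166 / 31559905) * p ^ (4 : ℕ) * q * u ^ (7 : ℕ) +
    (107527819888 / 473398575) * p ^ (5 : ℕ) * v ^ (7 : ℕ) +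
    (802831148944 / 473398575) * p ^ (5 : ℕ) * u * v ^ (6 : ℕ) +
    (7699764228964 / 1420195725) * p ^ (5 : ℕ) * u ^ (2 : ℕ) * v ^ (5 : ℕ) +
    (2732028233804 / 284039145) * p ^ (5 : ℕ) * u ^ (3 : ℕ) * v ^ (4 : ℕ) +
    (74468510269 / 7283055) * p ^ (5 : ℕ) * u ^ (4 : ℕ) * v ^ (3 : ℕ) +
    (3082513919467 / 473398575) * p ^ (5 : ℕ) * u ^ (5 : ℕ) * v ^ (2 : ℕ) +
    (1451381601283 / 631198100) * p ^ (5 : ℕ) * u ^ (6 : ℕ) * v +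
    (219172827901 / 631198100) * p ^ (5 : ℕ) * u ^ (7 : ℕ) := by
  positivity

theorem g2mu_zm {c s : ℝ} (h1 : 0 ≤ c) (h2 : c ≤ 13 / 20) (h3 : 1 ≤ s) (h4 : s ≤ 3 / 2) :
    0 ≤ c ^ (2 : ℕ) * s ^ (2 : ℕ) + (1 - c) * (1 + c * s) - (-(4 / 5) * c) * s - (1 - c) * ((1 + c * s + (c * s) ^ (2 : ℕ) / 2 + (c * s) ^ (3 : ℕ) / 6 + (c * s) ^ (4 : ℕ) / 17) * (1 - s ^ (2 : ℕ) / 2 + s ^ (4 : ℕ) / 24)) + (-(4 / 5) * c) * ((1 + c * s + (c * s) ^ (2 : ℕ) / 2 + (c * s) ^ (3 : ℕ) / 6 + (c * s) ^ (4 : ℕ) / 17) * (s - s ^ (3 : ℕ) / 6 + s ^ (5 : ℕ) / 120)) -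
      (3 / 5) * s ^ (2 : ℕ) * ((1 - c) ^ (2 : ℕ) * (1 + c) / 2 + c ^ (2 : ℕ) + c * (-(4 / 5) * c)) := by
  have hp : 0 ≤ c - 0 := sub_nonneg.2 h1
  have hq : 0 ≤ 13 / 20 - c := sub_nonneg.2 h2
  have hu : 0 ≤ s - 1 := sub_nonneg.2 h3
  have hv : 0 ≤ 3 / 2 - s := sub_nonneg.2 h4
  have h := g2mu_zm_c hp hq hu hv
  have h5 := mul_nonneg (sq_nonneg s) h
  refine h5.trans (le_of_eq ?_)
  ring

theorem g2mu_zL_c {p q u v : ℝ} (hp : 0 ≤ p) (hq : 0 ≤ q) (hu : 0 ≤ u) (hv : 0 ≤ v) :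
    0 ≤ (430111279552 / 30000495) * q ^ (6 : ℕ) * v ^ (7 : ℕ) +
    (3211324595776 / 30000495) * q ^ (6 : ℕ) * u * v ^ (6 : ℕ) +
    (30799056915856 / 90001485) * q ^ (6 : ℕ) * u ^ (2 : ℕ) * v ^ (5 : ℕ) +
    (10928112935216 / 18000297) * q ^ (6 : ℕ) * u ^ (3 : ℕ) * v ^ (4 : ℕ) +
    (3872362533988 / 6000099) * q ^ (6 : ℕ) * u ^ (4 : ℕ) * v ^ (3 : ℕ) +
    (12330055677868 / 30000495) * q ^ (6 : ℕ) * u ^ (5 : ℕ) * v ^ (2 : ℕ) +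
    (1451381601283 / 10000165) * q ^ (6 : ℕ) * u ^ (6 : ℕ) * v +
    (219172827901 / 10000165) * q ^ (6 : ℕ) * u ^ (7 : ℕ) +
    (174462969965948 / 2250037125) * p * q ^ (5 : ℕ) * v ^ (7 : ℕ) +
    (1304581477324474 / 2250037125) * p * q ^ (5 : ℕ) * u * v ^ (6 : ℕ) +
    (4181414301380723 / 2250037125) * p * q ^ (5 : ℕ) * u ^ (2 : ℕ) * v ^ (5 : ℕ) +
    (330855996543229 / 100001650) * p * q ^ (5 : ℕ) * u ^ (3 : ℕ) * v ^ (4 : ℕ) +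
    (2119386954782411 / 600009900) * p * q ^ (5 : ℕ) * u ^ (4 : ℕ) * v ^ (3 : ℕ) +
    (13564145540595077 / 6000099000) * p * q ^ (5 : ℕ) * u ^ (5 : ℕ) * v ^ (2 : ℕ) +
    (9633116562406147 / 12000198000) * p * q ^ (5 : ℕ) * u ^ (6 : ℕ) * v +
    (975613413019331 / 8000132000) * p * q ^ (5 : ℕ) * u ^ (7 : ℕ) +
    (76527998303368 / 450007425) * p ^ (2 : ℕ) * q ^ (4 : ℕ) * v ^ (7 : ℕ) +
    (114193296846904 / 90001485) * p ^ (2 : ℕ) * q ^ (4 : ℕ) * u * v ^ (6 : ℕ) +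
    (1829202040811702 / 450007425) * p ^ (2 : ℕ) * q ^ (4 : ℕ) * u ^ (2 : ℕ) * v ^ (5 : ℕ) +
    (652064080024376 / 90001485) * p ^ (2 : ℕ) * q ^ (4 : ℕ) * u ^ (3 : ℕ) * v ^ (4 : ℕ) +
    (155102846245883 / 20000330) * p ^ (2 : ℕ) * q ^ (4 : ℕ) * u ^ (4 : ℕ) * v ^ (3 : ℕ) +
    (1494702158228693 / 300004950) * p ^ (2 : ℕ) * q ^ (4 : ℕ) * u ^ (5 : ℕ) * v ^ (2 : ℕ) +
    (426682923848651 / 240003960) * p ^ (2 : ℕ) * q ^ (4 : ℕ) * u ^ (6 : ℕ) * v +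
    (54326280756133 / 200003300) * p ^ (2 : ℕ) * q ^ (4 : ℕ) * u ^ (7 : ℕ) +
    (1947782078752 / 10000165) * p ^ (3 : ℕ) * q ^ (3 : ℕ) * v ^ (7 : ℕ) +
    (43192858353488 / 30000495) * p ^ (3 : ℕ) * q ^ (3 : ℕ) * u * v ^ (6 : ℕ) +
    (412453819876016 / 90001485) * p ^ (3 : ℕ) * q ^ (3 : ℕ) * u ^ (2 : ℕ) * v ^ (5 : ℕ) +
    (146476258128136 / 18000297) * p ^ (3 : ℕ) * q ^ (3 : ℕ) * u ^ (3 : ℕ) * v ^ (4 : ℕ) +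
    (52195962583838 / 6000099) * p ^ (3 : ℕ) * q ^ (3 : ℕ) * u ^ (4 : ℕ) * v ^ (3 : ℕ) +
    (167832524699429 / 30000495) * p ^ (3 : ℕ) * q ^ (3 : ℕ) * u ^ (5 : ℕ) * v ^ (2 : ℕ) +
    (60063785276312 / 30000495) * p ^ (3 : ℕ) * q ^ (3 : ℕ) * u ^ (6 : ℕ) * v +
    (3073011629836 / 10000165) * p ^ (3 : ℕ) * q ^ (3 : ℕ) * u ^ (7 : ℕ) +
    (2256247530368 / 18000297) * p ^ (4 : ℕ) * q ^ (2 : ℕ) * v ^ (7 : ℕ) +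
    (16321648864576 / 18000297) * p ^ (4 : ℕ) * q ^ (2 : ℕ) * u * v ^ (6 : ℕ) +
    (51032154023936 / 18000297) * p ^ (4 : ℕ) * q ^ (2 : ℕ) * u ^ (2 : ℕ) * v ^ (5 : ℕ) +
    (29788563688672 / 6000099) * p ^ (4 : ℕ) * q ^ (2 : ℕ) * u ^ (3 : ℕ) * v ^ (4 : ℕ) +
    (10510957616984 / 2000033) * p ^ (4 : ℕ) * q ^ (2 : ℕ) * u ^ (4 : ℕ) * v ^ (3 : ℕ) +
    (20158650196700 / 6000099) * p ^ (4 : ℕ) * q ^ (2 : ℕ) * u ^ (5 : ℕ) * v ^ (2 : ℕ) +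
    (7197903110548 / 6000099) * p ^ (4 : ℕ) * q ^ (2 : ℕ) * u ^ (6 : ℕ) * v +
    (368601994548 / 2000033) * p ^ (4 : ℕ) * q ^ (2 : ℕ) * u ^ (7 : ℕ) +
    (810943516160 / 18000297) * p ^ (5 : ℕ) * q * v ^ (7 : ℕ) +
    (5645127665920 / 18000297) * p ^ (5 : ℕ) * q * u * v ^ (6 : ℕ) +
    (17023598844160 / 18000297) * p ^ (5 : ℕ) * q * u ^ (2 : ℕ) * v ^ (5 : ℕ) +
    (28858205632640 / 18000297) * p ^ (5 : ℕ) * q * u ^ (3 : ℕ) * v ^ (4 : ℕ) +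
    (3301731733280 / 2000033) * p ^ (5 : ℕ) * q * u ^ (4 : ℕ) * v ^ (3 : ℕ) +
    (6194972934800 / 6000099) * p ^ (5 : ℕ) * q * u ^ (5 : ℕ) * v ^ (2 : ℕ) +
    (725760644720 / 2000033) * p ^ (5 : ℕ) * q * u ^ (6 : ℕ) * v +
    (110412365640 / 2000033) * p ^ (5 : ℕ) * q * u ^ (7 : ℕ) +
    (15260569600 / 2000033) * p ^ (6 : ℕ) * v ^ (7 : ℕ) +
    (101269580800 / 2000033) * p ^ (6 : ℕ) * u * v ^ (6 : ℕ) +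
    (289920345600 / 2000033) * p ^ (6 : ℕ) * u ^ (2 : ℕ) * v ^ (5 : ℕ) +
    (465445760000 / 2000033) * p ^ (6 : ℕ) * u ^ (3 : ℕ) * v ^ (4 : ℕ) +
    (453886380800 / 2000033) * p ^ (6 : ℕ) * u ^ (4 : ℕ) * v ^ (3 : ℕ) +
    (269592628800 / 2000033) * p ^ (6 : ℕ) * u ^ (5 : ℕ) * v ^ (2 : ℕ) +
    (5323325600 / 117649) * p ^ (6 : ℕ) * u ^ (6 : ℕ) * v +
    (13255638400 / 2000033) * p ^ (6 : ℕ) * u ^ (7 : ℕ) := by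
  positivity

theorem g2mu_zL {c s : ℝ} (h1 : 13 / 20 ≤ c) (h2 : c ≤ 1) (h3 : 1 ≤ s) (h4 : s ≤ 3 / 2) :
    0 ≤ c ^ (2 : ℕ) * s ^ (2 : ℕ) + (1 - c) * (1 + c * s) - ((-(4 / 5) + 109 / 100 * (c - 13 / 20)) * c) * s - (1 - c) * ((1 + c * s + (c * s) ^ (2 : ℕ) / 2 + (c * s) ^ (3 : ℕ) / 6 + (c * s) ^ (4 : ℕ) / 17) * (1 - s ^ (2 : ℕ) / 2 + s ^ (4 : ℕ) / 24)) + ((-(4 / 5) + 109 / 100 * (c - 13 / 20)) * c) * ((1 + c * s + (c * s) ^ (2 : ℕ) / 2 + (c * s) ^ (3 : ℕ) / 6 + (c * s) ^ (4 : ℕ) / 17) * (s - s ^ (3 : ℕ) / 6 + s ^ (5 : ℕ) / 120)) -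
      (3 / 5) * s ^ (2 : ℕ) * ((1 - c) ^ (2 : ℕ) * (1 + c) / 2 + c ^ (2 : ℕ) + c * ((-(4 / 5) + 109 / 100 * (c - 13 / 20)) * c)) := by
  have hp : 0 ≤ c - 13 / 20 := sub_nonneg.2 h1
  have hq : 0 ≤ 1 - c := sub_nonneg.2 h2
  have hu : 0 ≤ s - 1 := sub_nonneg.2 h3
  have hv : 0 ≤ 3 / 2 - s := sub_nonneg.2 h4
  have h := g2mu_zL_c hp hq hu hv
  have h5 := mul_nonneg (sq_nonneg s) h
  refine h5.trans (le_of_eq ?_)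
  ring

theorem g2mc_z0_c {p q u v : ℝ} (hp : 0 ≤ p) (hq : 0 ≤ q) (hu : 0 ≤ u) (hv : 0 ≤ v) :
    0 ≤ (112359 / 500) * q ^ (3 : ℕ) * v ^ (4 : ℕ) +
    (266703 / 250) * q ^ (3 : ℕ) * u * v ^ (3 : ℕ) +
    (1841799 / 1000) * q ^ (3 : ℕ) * u ^ (2 : ℕ) * v ^ (2 : ℕ) +
    (1373877 / 1000) * q ^ (3 : ℕ) * u ^ (3 : ℕ) * v +
    (2985219 / 8000) * q ^ (3 : ℕ) * u ^ (4 : ℕ) +
    (167559 / 250) * p * q ^ (2 : ℕ) * v ^ (4 : ℕ) +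
    (377703 / 125) * p * q ^ (2 : ℕ) * u * v ^ (3 : ℕ) +
    (2484999 / 500) * p * q ^ (2 : ℕ) * u ^ (2 : ℕ) * v ^ (2 : ℕ) +
    (1769877 / 500) * p * q ^ (2 : ℕ) * u ^ (3 : ℕ) * v +
    (3676419 / 4000) * p * q ^ (2 : ℕ) * u ^ (4 : ℕ) +
    (311559 / 500) * p ^ (2 : ℕ) * q * v ^ (4 : ℕ) +
    (656703 / 250) * p ^ (2 : ℕ) * q * u * v ^ (3 : ℕ) +
    (4014999 / 1000) * p ^ (2 : ℕ) * q * u ^ (2 : ℕ) * v ^ (2 : ℕ) +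
    (2633877 / 1000) * p ^ (2 : ℕ) * q * u ^ (3 : ℕ) * v +
    (4972419 / 8000) * p ^ (2 : ℕ) * q * u ^ (4 : ℕ) +
    (864 / 5) * p ^ (3 : ℕ) * v ^ (4 : ℕ) +
    648 * p ^ (3 : ℕ) * u * v ^ (3 : ℕ) +
    (4212 / 5) * p ^ (3 : ℕ) * u ^ (2 : ℕ) * v ^ (2 : ℕ) +
    432 * p ^ (3 : ℕ) * u ^ (3 : ℕ) * v +
    (324 / 5) * p ^ (3 : ℕ) * u ^ (4 : ℕ) := by
  positivity

theorem g2mc_z0 {c s : ℝ} (h1 : 2 / 3 ≤ c) (h2 : c ≤ 1) (h3 : 1 ≤ s) (h4 : s ≤ 3 / 2) :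
    0 ≤ c * s + 2 * (1 - c) - 0 * s - (1 - c) * ((2719 / 1000) * (1 - s ^ (2 : ℕ) / 2 + s ^ (4 : ℕ) / 24)) + 0 * ((2719 / 1000) * (s - s ^ (3 : ℕ) / 6 + s ^ (5 : ℕ) / 120)) -
      (3 / 5) * s ^ (2 : ℕ) * ((1 - c) ^ (2 : ℕ) * (1 + c) / 2 + c ^ (2 : ℕ) + c * 0) := by
  have hp : 0 ≤ c - 2 / 3 := sub_nonneg.2 h1
  have hq : 0 ≤ 1 - c := sub_nonneg.2 h2
  have hu : 0 ≤ s - 1 := sub_nonneg.2 h3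
  have hv : 0 ≤ 3 / 2 - s := sub_nonneg.2 h4
  have h := g2mc_z0_c hp hq hu hv
  refine h.trans (le_of_eq ?_)
  ring

theorem g2mc_zL_c {p q u v : ℝ} (hp : 0 ≤ p) (hq : 0 ≤ q) (hu : 0 ≤ u) (hv : 0 ≤ v) :
    0 ≤ (61645271 / 1250000) * q ^ (3 : ℕ) * v ^ (5 : ℕ) +
    (65613793 / 100000) * q ^ (3 : ℕ) * u * v ^ (4 : ℕ) +
    (1141656721 / 500000) * q ^ (3 : ℕ) * u ^ (2 : ℕ) * v ^ (3 : ℕ) +
    (3402715743 / 1000000) * q ^ (3 : ℕ) * u ^ (3 : ℕ) * v ^ (2 : ℕ) +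
    (1862587071 / 800000) * q ^ (3 : ℕ) * u ^ (4 : ℕ) * v +
    (24067638153 / 40000000) * q ^ (3 : ℕ) * u ^ (5 : ℕ) +
    (540158737 / 2500000) * p * q ^ (2 : ℕ) * v ^ (5 : ℕ) +
    (415074911 / 200000) * p * q ^ (2 : ℕ) * u * v ^ (4 : ℕ) +
    (6540298487 / 1000000) * p * q ^ (2 : ℕ) * u ^ (2 : ℕ) * v ^ (3 : ℕ) +
    (18670739121 / 2000000) * p * q ^ (2 : ℕ) * u ^ (3 : ℕ) * v ^ (2 : ℕ) +
    (10011627657 / 1600000) * p * q ^ (2 : ℕ) * u ^ (4 : ℕ) * v +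
    (128153383191 / 80000000) * p * q ^ (2 : ℕ) * u ^ (5 : ℕ) +
    (183704817 / 625000) * p ^ (2 : ℕ) * q * v ^ (5 : ℕ) +
    (106537011 / 50000) * p ^ (2 : ℕ) * q * u * v ^ (4 : ℕ) +
    (1466468967 / 250000) * p ^ (2 : ℕ) * q * u ^ (2 : ℕ) * v ^ (3 : ℕ) +
    (3886175061 / 500000) * p ^ (2 : ℕ) * q * u ^ (3 : ℕ) * v ^ (2 : ℕ) +
    (1995722217 / 400000) * p ^ (2 : ℕ) * q * u ^ (4 : ℕ) * v +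
    (24902275131 / 20000000) * p ^ (2 : ℕ) * q * u ^ (5 : ℕ) +
    (241631073 / 2500000) * p ^ (3 : ℕ) * v ^ (5 : ℕ) +
    (105667119 / 200000) * p ^ (3 : ℕ) * u * v ^ (4 : ℕ) +
    (1173866823 / 1000000) * p ^ (3 : ℕ) * u ^ (2 : ℕ) * v ^ (3 : ℕ) +
    (2656704609 / 2000000) * p ^ (3 : ℕ) * u ^ (3 : ℕ) * v ^ (2 : ℕ) +
    (1220198553 / 1600000) * p ^ (3 : ℕ) * u ^ (4 : ℕ) * v +
    (14095953639 / 80000000) * p ^ (3 : ℕ) * u ^ (5 : ℕ) := by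
  positivity

theorem g2mc_zL {c s : ℝ} (h1 : 2 / 3 ≤ c) (h2 : c ≤ 1) (h3 : 1 ≤ s) (h4 : s ≤ 3 / 2) :
    0 ≤ c * s + 2 * (1 - c) - ((-(4 / 5) + 109 / 100 * (c - 13 / 20)) * c) * s - (1 - c) * ((2719 / 1000) * (1 - s ^ (2 : ℕ) / 2 + s ^ (4 : ℕ) / 24)) + ((-(4 / 5) + 109 / 100 * (c - 13 / 20)) * c) * ((2719 / 1000) * (s - s ^ (3 : ℕ) / 6 + s ^ (5 : ℕ) / 120)) -
      (3 / 5) * s ^ (2 : ℕ) * ((1 - c) ^ (2 : ℕ) * (1 + c) / 2 + c ^ (2 : ℕ) + c * ((-(4 / 5) + 109 / 100 * (c - 13 / 20)) * c)) := by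
  have hp : 0 ≤ c - 2 / 3 := sub_nonneg.2 h1
  have hq : 0 ≤ 1 - c := sub_nonneg.2 h2
  have hu : 0 ≤ s - 1 := sub_nonneg.2 h3
  have hv : 0 ≤ 3 / 2 - s := sub_nonneg.2 h4
  have h := g2mc_zL_c hp hq hu hv
  refine h.trans (le_of_eq ?_)
  ring

end Cert

end SokamF1G

end
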