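import Pool.Agent.Lib_MP_af4de1_zy.Z02
import Pool.Agent.Lib_MP_af4de1_zy.Z05
import Pool.Agent.Lib_MP_af4de1_zy.Z13
import Pool.Agent.Lib_MP_af4de1_zy.Z14
import Pool.Agent.Lib_MP_af4de1_zy.Z16
import Pool.Agent.Lib_MP_af4de1_zy.Z22

/-! ### Lib_MP_af4de1_f1.GLem -/

section
/-!
# G-lemmas (piece C of note 2398): lower bounds for the height along the path, `|s| ≤ 3/2`

`c = 1/(1+x)`, `a = clamp (c s)`, `|f| = exp (- Hf x y s / δ)` on the path `a + i s`, `K = x + i y`.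
`Qf x y` is the coefficient of `s²` of `Hf`.
-/

set_option autoImplicit false

namespace SokamF1G

open Real

/-- real part of the path `a(s) + i s`, `c = 1/(1+x)` -/
noncomputable def ga (x s : ℝ) : ℝ := max (-1) (min 1 (s / (1 + x)))

/-- the height for a given real part `a` -/
noncomputable def Ha (x y a s : ℝ) : ℝ :=
  a * s - x * (exp a * cos s - 1 - a) + y * (exp a * sin s - s)

/-- the height on the path -/
noncomputable def Hf (x y s : ℝ) : ℝ := Ha x y (ga x s) s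

/-- coefficient of `s²` -/
noncomputable def Qf (x y : ℝ) : ℝ := (1 + y) / (1 + x) + x * (1 - (1 / (1 + x)) ^ (2 : ℕ)) / 2

/-- The domain: `x ≥ 0`, `-4/5 ≤ y ≤ 18/25`, `(1+y)² + x² ≥ 17/50`. -/
structure DomG (x y : ℝ) : Prop where
  x0 : 0 ≤ x
  y0 : -(4 / 5) ≤ y
  y1 : y ≤ 18 / 25
  D2 : 17 / 50 ≤ (1 + y) ^ (2 : ℕ) + x ^ (2 : ℕ)

/-! ### Reduction to `c` -/

theorem aff {A B z0 z1 z : ℝ} (h0 : 0 ≤ A + B * z0) (h1 : 0 ≤ A + B * z1) (hz0 : z0 ≤ z)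
    (hz1 : z ≤ z1) : 0 ≤ A + B * z := by
  rcases le_total 0 B with hB | hB
  · have := mul_le_mul_of_nonneg_left hz0 hB
    linarith
  · have := mul_le_mul_of_nonpos_left hz1 hB
    linarith

theorem c_facts {x : ℝ} (hx : 0 ≤ x) : 0 < 1 / (1 + x) ∧ 1 / (1 + x) ≤ 1 ∧
    1 / (1 + x) * x = 1 - 1 / (1 + x) := by
  have h1 : 0 < 1 + x := by linarith
  refine ⟨by positivity, ?_, ?_⟩
  · rw [div_le_one h1]
    linarith
  · field_simp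
    ring

theorem red {x y a s κ c : ℝ} (hx : 0 ≤ x) (hc : c = 1 / (1 + x)) :
    c * (Ha x y a s - κ * Qf x y * s ^ (2 : ℕ)) =
      c * a * s + (1 - c) * (1 + a) - (1 - c) * (exp a * cos s) + (y * c) * (exp a * sin s) -
        (y * c) * s - κ * s ^ (2 : ℕ) * ((1 - c) ^ (2 : ℕ) * (1 + c) / 2 + c ^ (2 : ℕ) + c * (y * c)) := by
  obtain ⟨h1, h2, h3⟩ := c_facts hx
  rw [← hc] at h1 h2 h3
  have hq : Qf x y = (1 + y) * c + x * (1 - c ^ (2 : ℕ)) / 2 := by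
    unfold Qf
    rw [hc]
    ring
  unfold Ha
  rw [hq]
  linear_combination (-(exp a * cos s - 1 - a) - κ * s ^ (2 : ℕ) * (1 - c ^ (2 : ℕ)) / 2) * h3

theorem le_of_red {x y a s κ c : ℝ} (hx : 0 ≤ x) (hc : c = 1 / (1 + x))
    (h : 0 ≤ c * a * s + (1 - c) * (1 + a) - (1 - c) * (exp a * cos s) +
        (y * c) * (exp a * sin s) -
        (y * c) * s - κ * s ^ (2 : ℕ) * ((1 - c) ^ (2 : ℕ) * (1 + c) / 2 + c ^ (2 : ℕ) + c * (y * c))) :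
    κ * Qf x y * s ^ (2 : ℕ) ≤ Ha x y a s := by
  rw [← red hx hc] at h
  have h1 := (c_facts hx).1
  rw [← hc] at h1
  have := nonneg_of_mul_nonneg_right h h1
  linarith

theorem ga_mid {x s c : ℝ} (hc : c = 1 / (1 + x)) (h1 : -1 ≤ c * s) (h2 : c * s ≤ 1) :
    ga x s = c * s := by
  unfold ga
  have e : s / (1 + x) = c * s := by
    rw [hc]
    ring
  rw [e, min_eq_right h2, max_eq_right h1]

theorem ga_hi {x s c : ℝ} (hc : c = 1 / (1 + x)) (h2 : 1 ≤ c * s) : ga x s = 1 := by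
  unfold ga
  have e : s / (1 + x) = c * s := by
    rw [hc]
    ring
  rw [e, min_eq_left h2, max_eq_right (by norm_num)]

theorem ga_lo {x s c : ℝ} (hc : c = 1 / (1 + x)) (h2 : c * s ≤ -1) : ga x s = -1 := by
  unfold ga
  have e : s / (1 + x) = c * s := by
    rw [hc]
    ring
  rw [e, min_eq_right (by linarith), max_eq_left h2]

/-- the lower end of the domain for `c ≥ 13/20` -/
theorem DomG.low {x y c : ℝ} (h : DomG x y) (hc : c = 1 / (1 + x)) (h1 : 13 / 20 ≤ c) :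
    -(4 / 5) + 109 / 100 * (c - 13 / 20) ≤ y := by
  obtain ⟨k1, k2, k3⟩ := c_facts h.x0
  rw [← hc] at k1 k2 k3
  by_contra hn
  push Not at hn
  have hy := h.y0
  have h2 : (1 + y) ^ (2 : ℕ) < (1 / 5 + 109 / 100 * (c - 13 / 20)) ^ (2 : ℕ) :=
    pow_lt_pow_left₀ (by linarith) (by linarith) two_ne_zero
  have h3 : 17 / 50 * c ^ (2 : ℕ) ≤ c ^ (2 : ℕ) * (1 + y) ^ (2 : ℕ) + (1 - c) ^ (2 : ℕ) := by
    have := mul_le_mul_of_nonneg_left h.D2 (sq_nonneg c)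
    have e : (c * x) ^ (2 : ℕ) = (1 - c) ^ (2 : ℕ) := by rw [k3]
    linarith only [this, e]
  have h4 : c ^ (2 : ℕ) * (1 / 5 + 109 / 100 * (c - 13 / 20)) ^ (2 : ℕ) + (1 - c) ^ (2 : ℕ) ≤ 17 / 50 * c ^ (2 : ℕ) := by
    have p : 0 ≤ c - 13 / 20 := by linarith
    have q : 0 ≤ 1 - c := by linarith
    have e : 17 / 50 * c ^ (2 : ℕ) - (c ^ (2 : ℕ) * (1 / 5 + 109 / 100 * (c - 13 / 20)) ^ (2 : ℕ) + (1 - c) ^ (2 : ℕ)) =
        (680 / 2401) * (c - 13 / 20) ^ (0 : ℕ) * (1 - c) ^ (4 : ℕ) +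
        (1336106 / 60025) * (c - 13 / 20) ^ (1 : ℕ) * (1 - c) ^ (3 : ℕ) +
        (1215847839 / 24010000) * (c - 13 / 20) ^ (2 : ℕ) * (1 - c) ^ (2 : ℕ) +
        (17992603 / 600250) * (c - 13 / 20) ^ (3 : ℕ) * (1 - c) ^ (1 : ℕ) +
        (7431 / 60025) * (c - 13 / 20) ^ (4 : ℕ) * (1 - c) ^ (0 : ℕ) := by
      ring
    have e2 : 0 ≤ (680 / 2401) * (c - 13 / 20) ^ (0 : ℕ) * (1 - c) ^ (4 : ℕ) +
        (1336106 / 60025) * (c - 13 / 20) ^ (1 : ℕ) * (1 - c) ^ (3 : ℕ) +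
        (1215847839 / 24010000) * (c - 13 / 20) ^ (2 : ℕ) * (1 - c) ^ (2 : ℕ) +
        (17992603 / 600250) * (c - 13 / 20) ^ (3 : ℕ) * (1 - c) ^ (1 : ℕ) +
        (7431 / 60025) * (c - 13 / 20) ^ (4 : ℕ) * (1 - c) ^ (0 : ℕ) := by
      (clear * - h1 k2; positivity)
    linarith
  have h5 : c ^ (2 : ℕ) * (1 + y) ^ (2 : ℕ) < c ^ (2 : ℕ) * (1 / 5 + 109 / 100 * (c - 13 / 20)) ^ (2 : ℕ) :=
    mul_lt_mul_of_pos_left h2 (by (clear * - h1; positivity))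
  linarith

/-! ### Bounds for the products -/

theorem C4_nonneg {s : ℝ} (h0 : 0 ≤ s) (h1 : s ≤ 3 / 2) : 0 ≤ 1 - s ^ (2 : ℕ) / 2 + s ^ (4 : ℕ) / 24 := by
  have h2 : s ^ (2 : ℕ) ≤ 9 / 4 := by nlinarith
  nlinarith only [h2]

theorem S3_nonneg {s : ℝ} (h0 : 0 ≤ s) (h1 : s ≤ 3 / 2) : 0 ≤ s - s ^ (3 : ℕ) / 6 := by
  have h2 : s ^ (2 : ℕ) ≤ 9 / 4 := by nlinarith
  linarith only [h0, mul_nonneg h0 (sub_nonneg.2 h2)]

theorem ec_le {E a s : ℝ} (h0 : 0 ≤ s) (h1 : s ≤ 3 / 2) (hE : exp a ≤ E) :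
    exp a * cos s ≤ E * (1 - s ^ (2 : ℕ) / 2 + s ^ (4 : ℕ) / 24) :=
  (mul_le_mul_of_nonneg_left (cos_le4 h0) (exp_pos _).le).trans
    (mul_le_mul_of_nonneg_right hE (C4_nonneg h0 h1))

theorem es_le {E a s : ℝ} (h0 : 0 ≤ s) (h1 : s ≤ 3 / 2) (hE : exp a ≤ E) :
    exp a * sin s ≤ E * (s - s ^ (3 : ℕ) / 6 + s ^ (5 : ℕ) / 120) := by
  have h2 := S3_nonneg h0 h1
  have h3 : 0 ≤ s - s ^ (3 : ℕ) / 6 + s ^ (5 : ℕ) / 120 := by (clear * - h2 h0; positivity)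
  exact (mul_le_mul_of_nonneg_left (sin_le5 h0) (exp_pos _).le).trans
    (mul_le_mul_of_nonneg_right hE h3)

theorem es_ge {E a s : ℝ} (h0 : 0 ≤ s) (h1 : s ≤ 3 / 2) (hE : E ≤ exp a) (hE0 : 0 ≤ E) :
    E * (s - s ^ (3 : ℕ) / 6) ≤ exp a * sin s :=
  (mul_le_mul_of_nonneg_left (sin_ge3 h0) hE0).trans
    (mul_le_mul_of_nonneg_right hE ((S3_nonneg h0 h1).trans (sin_ge3 h0)))

theorem es_ge7 {E a s : ℝ} (h0 : 0 ≤ s) (h1 : s ≤ 3 / 2) (hE : E ≤ exp a) (hE0 : 0 ≤ E) :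
    E * (s - s ^ (3 : ℕ) / 6 + s ^ (5 : ℕ) / 120 - s ^ (7 : ℕ) / 5040) ≤ exp a * sin s :=
  (mul_le_mul_of_nonneg_left (sin_ge7 h0) hE0).trans
    (mul_le_mul_of_nonneg_right hE ((S3_nonneg h0 h1).trans (sin_ge3 h0)))

theorem e1_lo : (2718 / 1000 : ℝ) ≤ exp 1 := by
  have := Real.exp_one_gt_d9
  linarith

theorem e1_hi : exp 1 ≤ (2719 / 1000 : ℝ) := by
  have := Real.exp_one_lt_d9
  linarith

theorem em1_lo : (3678 / 10000 : ℝ) ≤ exp (-1) := by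
  rw [exp_neg, le_inv_comm₀ (by norm_num) (exp_pos _)]
  have := Real.exp_one_lt_d9
  refine this.le.trans (by norm_num)

theorem em1_hi : exp (-1) ≤ (3679 / 10000 : ℝ) := by
  rw [exp_neg, inv_le_comm₀ (exp_pos _) (by norm_num)]
  have := Real.exp_one_gt_d9
  refine le_trans (by norm_num) this.le

theorem en_le4' {c s : ℝ} (h : 0 ≤ c * s) :
    exp (-(c * s)) ≤ 1 - c * s + (c * s) ^ (2 : ℕ) / 2 - (c * s) ^ (3 : ℕ) / 6 + (c * s) ^ (4 : ℕ) / 24 := en_le4 h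

theorem en3_nonneg {b : ℝ} (h0 : 0 ≤ b) (h1 : b ≤ 3 / 2) : 0 ≤ 1 - b + b ^ (2 : ℕ) / 2 - b ^ (3 : ℕ) / 6 := by
  have h2 : b ^ (2 : ℕ) ≤ 9 / 4 := by nlinarith
  nlinarith only [mul_nonneg h0 (sub_nonneg.2 h1), mul_nonneg (sq_nonneg b) (sub_nonneg.2 h1)]

/-- (G1), `y ≥ 0`. -/
theorem G1_pos {x y s : ℝ} (h : DomG x y) (hy : 0 ≤ y) (h0 : 0 ≤ s) (h1 : s ≤ 1) :
    (1 - s ^ (2 : ℕ) / 11) * Qf x y * s ^ (2 : ℕ) ≤ Hf x y s := by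
  obtain ⟨k1, k2, k3⟩ := c_facts h.x0
  obtain ⟨c, hc⟩ : ∃ c, c = 1 / (1 + x) := ⟨_, rfl⟩
  rw [← hc] at k1 k2 k3
  have hcs : 0 ≤ c * s := mul_nonneg k1.le h0
  have hcs1 : c * s ≤ 1 := by nlinarith only [h1, k2, k1]
  unfold Hf
  rw [ga_mid hc (by linarith) hcs1]
  refine le_of_red h.x0 hc ?_
  have z0 : 0 ≤ y * c := mul_nonneg hy k1.le
  have z1 : y * c ≤ 18 / 25 * c := mul_le_mul_of_nonneg_right h.y1 k1.le
  have h15 : s ≤ 3 / 2 := by linarith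
  have A1 := ec_le h0 h15 (e_le3 hcs hcs1)
  have A2 := es_ge h0 h15 (e_ge3 hcs) (by (clear * - k1 h0; positivity))
  have B1 := mul_le_mul_of_nonneg_left A1 (sub_nonneg.2 k2)
  have B2 := mul_le_mul_of_nonneg_left A2 z0
  have key := aff (A := c ^ (2 : ℕ) * s ^ (2 : ℕ) + (1 - c) * (1 + c * s) - (1 - c) *
      ((1 + c * s + (c * s) ^ (2 : ℕ) / 2 + (c * s) ^ (3 : ℕ) / 6 + (c * s) ^ (4 : ℕ) / 19) *
        (1 - s ^ (2 : ℕ) / 2 + s ^ (4 : ℕ) / 24)) -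
      (1 - s ^ (2 : ℕ) / 11) * s ^ (2 : ℕ) * ((1 - c) ^ (2 : ℕ) * (1 + c) / 2 + c ^ (2 : ℕ)))
    (B := -s + (1 + c * s + (c * s) ^ (2 : ℕ) / 2 + (c * s) ^ (3 : ℕ) / 6) * (s - s ^ (3 : ℕ) / 6) -
      (1 - s ^ (2 : ℕ) / 11) * s ^ (2 : ℕ) * c) (z0 := 0) (z1 := 18 / 25 * c) (z := y * c)
    ((Cert.g1p_z0 k1.le k2 h0 h1).trans_eq (by ring))
    ((Cert.g1p_zp k1.le k2 h0 h1).trans_eq (by ring)) z0 z1
  linarith

/-- (G1), `y ≤ 0`. -/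
theorem G1_neg {x y s : ℝ} (h : DomG x y) (hy : y ≤ 0) (h0 : 0 ≤ s) (h1 : s ≤ 1) :
    (1 - s / 4) * Qf x y * s ^ (2 : ℕ) ≤ Hf x y s := by
  obtain ⟨k1, k2, k3⟩ := c_facts h.x0
  obtain ⟨c, hc⟩ : ∃ c, c = 1 / (1 + x) := ⟨_, rfl⟩
  rw [← hc] at k1 k2 k3
  have hcs : 0 ≤ c * s := mul_nonneg k1.le h0
  have hcs1 : c * s ≤ 1 := by nlinarith only [h1, k2, k1]
  unfold Hf
  rw [ga_mid hc (by linarith) hcs1]
  refine le_of_red h.x0 hc ?_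
  have z0 : y * c ≤ 0 := mul_nonpos_of_nonpos_of_nonneg hy k1.le
  have h15 : s ≤ 3 / 2 := by linarith
  have A1 := ec_le h0 h15 (e_le3 hcs hcs1)
  have A2 := es_le h0 h15 (e_le3 hcs hcs1)
  have B1 := mul_le_mul_of_nonneg_left A1 (sub_nonneg.2 k2)
  have B2 := mul_le_mul_of_nonpos_left A2 z0
  have key : 0 ≤ (c ^ (2 : ℕ) * s ^ (2 : ℕ) + (1 - c) * (1 + c * s) - (1 - c) *
      ((1 + c * s + (c * s) ^ (2 : ℕ) / 2 + (c * s) ^ (3 : ℕ) / 6 + (c * s) ^ (4 : ℕ) / 19) *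
        (1 - s ^ (2 : ℕ) / 2 + s ^ (4 : ℕ) / 24)) -
      (1 - s / 4) * s ^ (2 : ℕ) * ((1 - c) ^ (2 : ℕ) * (1 + c) / 2 + c ^ (2 : ℕ))) +
    (-s + (1 + c * s + (c * s) ^ (2 : ℕ) / 2 + (c * s) ^ (3 : ℕ) / 6 + (c * s) ^ (4 : ℕ) / 19) *
      (s - s ^ (3 : ℕ) / 6 + s ^ (5 : ℕ) / 120) - (1 - s / 4) * s ^ (2 : ℕ) * c) * (y * c) := by
    rcases le_total c (13 / 20) with hcc | hcc
    · refine aff (z0 := -(4 / 5) * c) (z1 := 0) ?_ ?_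
        (mul_le_mul_of_nonneg_right h.y0 k1.le) z0
      · exact (Cert.g1m_zm k1.le hcc h0 h1).trans_eq (by ring)
      · exact (Cert.g1m_z0 k1.le k2 h0 h1).trans_eq (by ring)
    · refine aff (z0 := (-(4 / 5) + 109 / 100 * (c - 13 / 20)) * c) (z1 := 0) ?_ ?_
        (mul_le_mul_of_nonneg_right (h.low hc hcc) k1.le) z0
      · exact (Cert.g1m_zL hcc k2 h0 h1).trans_eq (by ring)
      · exact (Cert.g1m_z0 k1.le k2 h0 h1).trans_eq (by ring)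
  linarith

/-- (G1), `y ≤ 0`, `|T| = |y|/x ≤ 2.05`. -/
theorem G1_negT {x y s : ℝ} (h : DomG x y) (hy : y ≤ 0) (hT : -(41 / 20) * x ≤ y) (h0 : 0 ≤ s)
    (h1 : s ≤ 1) : 9 / 10 * Qf x y * s ^ (2 : ℕ) ≤ Hf x y s := by
  obtain ⟨k1, k2, k3⟩ := c_facts h.x0
  obtain ⟨c, hc⟩ : ∃ c, c = 1 / (1 + x) := ⟨_, rfl⟩
  rw [← hc] at k1 k2 k3
  have hcs : 0 ≤ c * s := mul_nonneg k1.le h0
  have hcs1 : c * s ≤ 1 := by nlinarith only [hy, hT, h1, k3]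
  unfold Hf
  rw [ga_mid hc (by linarith) hcs1]
  refine le_of_red h.x0 hc ?_
  have z0 : y * c ≤ 0 := mul_nonpos_of_nonpos_of_nonneg hy k1.le
  have zT : -(41 / 20) * (1 - c) ≤ y * c := by
    rw [← k3]
    have := mul_le_mul_of_nonneg_right hT k1.le
    linarith
  have h15 : s ≤ 3 / 2 := by linarith
  have A1 := ec_le h0 h15 (e_le3 hcs hcs1)
  have A2 := es_le h0 h15 (e_le3 hcs hcs1)
  have B1 := mul_le_mul_of_nonneg_left A1 (sub_nonneg.2 k2)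
  have B2 := mul_le_mul_of_nonpos_left A2 z0
  have key : 0 ≤ (c ^ (2 : ℕ) * s ^ (2 : ℕ) + (1 - c) * (1 + c * s) - (1 - c) *
      ((1 + c * s + (c * s) ^ (2 : ℕ) / 2 + (c * s) ^ (3 : ℕ) / 6 + (c * s) ^ (4 : ℕ) / 19) *
        (1 - s ^ (2 : ℕ) / 2 + s ^ (4 : ℕ) / 24)) -
      (9 / 10) * s ^ (2 : ℕ) * ((1 - c) ^ (2 : ℕ) * (1 + c) / 2 + c ^ (2 : ℕ))) +
    (-s + (1 + c * s + (c * s) ^ (2 : ℕ) / 2 + (c * s) ^ (3 : ℕ) / 6 + (c * s) ^ (4 : ℕ) / 19) *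
      (s - s ^ (3 : ℕ) / 6 + s ^ (5 : ℕ) / 120) - (9 / 10) * s ^ (2 : ℕ) * c) * (y * c) := by
    rcases le_total c (18 / 25) with hcc | hcc
    · refine aff (z0 := -(4 / 5) * c) (z1 := 0) ?_ ?_
        (mul_le_mul_of_nonneg_right h.y0 k1.le) z0
      · exact (Cert.g1r_zm k1.le hcc h0 h1).trans_eq (by ring)
      · exact (Cert.g1r_z0 k1.le k2 h0 h1).trans_eq (by ring)
    · refine aff (z0 := -(41 / 20) * (1 - c)) (z1 := 0) ?_ ?_ zT z0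
      · exact (Cert.g1r_zT hcc k2 h0 h1).trans_eq (by ring)
      · exact (Cert.g1r_z0 k1.le k2 h0 h1).trans_eq (by ring)
  linarith

/-- (G2). -/
theorem G2 {x y s : ℝ} (h : DomG x y) (h0 : 1 ≤ s) (h1 : s ≤ 3 / 2) :
    3 / 5 * Qf x y * s ^ (2 : ℕ) ≤ Hf x y s := by
  obtain ⟨k1, k2, k3⟩ := c_facts h.x0
  obtain ⟨c, hc⟩ : ∃ c, c = 1 / (1 + x) := ⟨_, rfl⟩
  rw [← hc] at k1 k2 k3
  have hs0 : 0 ≤ s := by linarith
  have hcs : 0 ≤ c * s := mul_nonneg k1.le hs0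
  have hcs2 : c * s ≤ 3 / 2 := by nlinarith only [h0, h1, k2]
  unfold Hf
  rcases le_total (c * s) 1 with hcs1 | hcs1
  · rw [ga_mid hc (by linarith) hcs1]
    refine le_of_red h.x0 hc ?_
    have A1 := ec_le hs0 h1 (e_le3' hcs hcs2)
    have B1 := mul_le_mul_of_nonneg_left A1 (sub_nonneg.2 k2)
    rcases le_total 0 y with hy | hy
    · have z0 : 0 ≤ y * c := mul_nonneg hy k1.le
      have z1 : y * c ≤ 18 / 25 * c := mul_le_mul_of_nonneg_right h.y1 k1.le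
      have A2 := es_ge hs0 h1 (e_ge3 hcs) (by (clear * - k1 h0; positivity))
      have B2 := mul_le_mul_of_nonneg_left A2 z0
      have key := aff (A := c ^ (2 : ℕ) * s ^ (2 : ℕ) + (1 - c) * (1 + c * s) - (1 - c) *
          ((1 + c * s + (c * s) ^ (2 : ℕ) / 2 + (c * s) ^ (3 : ℕ) / 6 + (c * s) ^ (4 : ℕ) / 17) *
            (1 - s ^ (2 : ℕ) / 2 + s ^ (4 : ℕ) / 24)) -
          (3 / 5) * s ^ (2 : ℕ) * ((1 - c) ^ (2 : ℕ) * (1 + c) / 2 + c ^ (2 : ℕ)))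
        (B := -s + (1 + c * s + (c * s) ^ (2 : ℕ) / 2 + (c * s) ^ (3 : ℕ) / 6) * (s - s ^ (3 : ℕ) / 6) -
          (3 / 5) * s ^ (2 : ℕ) * c) (z0 := 0) (z1 := 18 / 25 * c) (z := y * c)
        ((Cert.g2pu_z0 k1.le k2 h0 h1).trans_eq (by ring))
        ((Cert.g2pu_zp k1.le k2 h0 h1).trans_eq (by ring)) z0 z1
      linarith
    · have z0 : y * c ≤ 0 := mul_nonpos_of_nonpos_of_nonneg hy k1.le
      have A2 := es_le hs0 h1 (e_le3' hcs hcs2)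
      have B2 := mul_le_mul_of_nonpos_left A2 z0
      have key : 0 ≤ (c ^ (2 : ℕ) * s ^ (2 : ℕ) + (1 - c) * (1 + c * s) - (1 - c) *
          ((1 + c * s + (c * s) ^ (2 : ℕ) / 2 + (c * s) ^ (3 : ℕ) / 6 + (c * s) ^ (4 : ℕ) / 17) *
            (1 - s ^ (2 : ℕ) / 2 + s ^ (4 : ℕ) / 24)) -
          (3 / 5) * s ^ (2 : ℕ) * ((1 - c) ^ (2 : ℕ) * (1 + c) / 2 + c ^ (2 : ℕ))) +
        (-s + (1 + c * s + (c * s) ^ (2 : ℕ) / 2 + (c * s) ^ (3 : ℕ) / 6 + (c * s) ^ (4 : ℕ) / 17) *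
          (s - s ^ (3 : ℕ) / 6 + s ^ (5 : ℕ) / 120) - (3 / 5) * s ^ (2 : ℕ) * c) * (y * c) := by
        rcases le_total c (13 / 20) with hcc | hcc
        · refine aff (z0 := -(4 / 5) * c) (z1 := 0) ?_ ?_
            (mul_le_mul_of_nonneg_right h.y0 k1.le) z0
          · exact (Cert.g2mu_zm k1.le hcc h0 h1).trans_eq (by ring)
          · exact (Cert.g2mu_z0 k1.le k2 h0 h1).trans_eq (by ring)
        · refine aff (z0 := (-(4 / 5) + 109 / 100 * (c - 13 / 20)) * c) (z1 := 0) ?_ ?_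
            (mul_le_mul_of_nonneg_right (h.low hc hcc) k1.le) z0
          · exact (Cert.g2mu_zL hcc k2 h0 h1).trans_eq (by ring)
          · exact (Cert.g2mu_z0 k1.le k2 h0 h1).trans_eq (by ring)
      linarith
  · rw [ga_hi hc hcs1]
    refine le_of_red h.x0 hc ?_
    have hc23 : 2 / 3 ≤ c := by nlinarith only [h0, h1, hcs1]
    have A1 := ec_le hs0 h1 e1_hi
    have B1 := mul_le_mul_of_nonneg_left A1 (sub_nonneg.2 k2)
    rcases le_total 0 y with hy | hy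
    · have z0 : 0 ≤ y * c := mul_nonneg hy k1.le
      have z1 : y * c ≤ 18 / 25 * c := mul_le_mul_of_nonneg_right h.y1 k1.le
      have A2 := es_ge7 hs0 h1 e1_lo (by norm_num)
      have B2 := mul_le_mul_of_nonneg_left A2 z0
      have key := aff (A := c * s + 2 * (1 - c) - (1 - c) *
          ((2719 / 1000) * (1 - s ^ (2 : ℕ) / 2 + s ^ (4 : ℕ) / 24)) -
          (3 / 5) * s ^ (2 : ℕ) * ((1 - c) ^ (2 : ℕ) * (1 + c) / 2 + c ^ (2 : ℕ)))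
        (B := -s + (2718 / 1000) * (s - s ^ (3 : ℕ) / 6 + s ^ (5 : ℕ) / 120 - s ^ (7 : ℕ) / 5040) -
          (3 / 5) * s ^ (2 : ℕ) * c) (z0 := 0) (z1 := 18 / 25 * c) (z := y * c)
        ((Cert.g2pc_z0 hc23 k2 h0 h1).trans_eq (by ring))
        ((Cert.g2pc_zp hc23 k2 h0 h1).trans_eq (by ring)) z0 z1
      linarith
    · have z0 : y * c ≤ 0 := mul_nonpos_of_nonpos_of_nonneg hy k1.le
      have A2 := es_le hs0 h1 e1_hi
      have B2 := mul_le_mul_of_nonpos_left A2 z0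
      have key : 0 ≤ (c * s + 2 * (1 - c) - (1 - c) *
          ((2719 / 1000) * (1 - s ^ (2 : ℕ) / 2 + s ^ (4 : ℕ) / 24)) -
          (3 / 5) * s ^ (2 : ℕ) * ((1 - c) ^ (2 : ℕ) * (1 + c) / 2 + c ^ (2 : ℕ))) +
        (-s + (2719 / 1000) * (s - s ^ (3 : ℕ) / 6 + s ^ (5 : ℕ) / 120) -
          (3 / 5) * s ^ (2 : ℕ) * c) * (y * c) := by
        refine aff (z0 := (-(4 / 5) + 109 / 100 * (c - 13 / 20)) * c) (z1 := 0) ?_ ?_
          (mul_le_mul_of_nonneg_right (h.low hc (by linarith)) k1.le) z0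
        · exact (Cert.g2mc_zL hc23 k2 h0 h1).trans_eq (by ring)
        · exact (Cert.g2mc_z0 hc23 k2 h0 h1).trans_eq (by ring)
      linarith

/-- (G3), `y ≥ 0`. -/
theorem G3_pos {x y s : ℝ} (h : DomG x y) (hy : 0 ≤ y) (h0 : -(3 / 2) ≤ s) (h1 : s ≤ 0) :
    (1 + 3 / 10 * s) * Qf x y * s ^ (2 : ℕ) ≤ Hf x y s := by
  obtain ⟨k1, k2, k3⟩ := c_facts h.x0
  obtain ⟨c, hc⟩ : ∃ c, c = 1 / (1 + x) := ⟨_, rfl⟩
  rw [← hc] at k1 k2 k3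
  obtain ⟨u, rfl⟩ : ∃ u, s = -u := ⟨-s, by ring⟩
  have hu0 : 0 ≤ u := by linarith
  have hu1 : u ≤ 3 / 2 := by linarith
  have hcs : 0 ≤ c * u := mul_nonneg k1.le hu0
  have hcs2 : c * u ≤ 3 / 2 := by nlinarith only [k2, hu0, hu1]
  have z0 : 0 ≤ y * c := mul_nonneg hy k1.le
  have z1 : y * c ≤ 18 / 25 * c := mul_le_mul_of_nonneg_right h.y1 k1.le
  unfold Hf
  rcases le_total (c * u) 1 with hcs1 | hcs1
  · rw [ga_mid hc (by linarith) (by linarith)]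
    refine le_of_red h.x0 hc ?_
    rw [cos_neg, sin_neg, show c * -u = -(c * u) by ring]
    have A1 := ec_le hu0 hu1 (en_le4' hcs)
    have A2 := es_le hu0 hu1 (en_le4' hcs)
    have B1 := mul_le_mul_of_nonneg_left A1 (sub_nonneg.2 k2)
    have B2 := mul_le_mul_of_nonneg_left A2 z0
    have key := aff (A := c ^ (2 : ℕ) * u ^ (2 : ℕ) + (1 - c) * (1 - c * u) - (1 - c) *
        ((1 - c * u + (c * u) ^ (2 : ℕ) / 2 - (c * u) ^ (3 : ℕ) / 6 + (c * u) ^ (4 : ℕ) / 24) *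
          (1 - u ^ (2 : ℕ) / 2 + u ^ (4 : ℕ) / 24)) -
        (1 - 3 / 10 * u) * u ^ (2 : ℕ) * ((1 - c) ^ (2 : ℕ) * (1 + c) / 2 + c ^ (2 : ℕ)))
      (B := u - (1 - c * u + (c * u) ^ (2 : ℕ) / 2 - (c * u) ^ (3 : ℕ) / 6 + (c * u) ^ (4 : ℕ) / 24) *
        (u - u ^ (3 : ℕ) / 6 + u ^ (5 : ℕ) / 120) -
        (1 - 3 / 10 * u) * u ^ (2 : ℕ) * c) (z0 := 0) (z1 := 18 / 25 * c) (z := y * c)
      ((Cert.g3pu_z0 k1.le k2 hu0 hu1).trans_eq (by ring))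
      ((Cert.g3pu_zp k1.le k2 hu0 hu1).trans_eq (by ring)) z0 z1
    linarith
  · rw [ga_lo hc (by linarith)]
    refine le_of_red h.x0 hc ?_
    rw [cos_neg, sin_neg]
    have hc23 : 2 / 3 ≤ c := by nlinarith only [hu1, z0, z1, hcs1]
    have hu2 : 1 ≤ u := by nlinarith only [k2, k1, hcs1]
    have A1 := ec_le hu0 hu1 em1_hi
    have A2 := es_le hu0 hu1 em1_hi
    have B1 := mul_le_mul_of_nonneg_left A1 (sub_nonneg.2 k2)
    have B2 := mul_le_mul_of_nonneg_left A2 z0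
    have key := aff (A := c * u - (1 - c) *
        ((3679 / 10000) * (1 - u ^ (2 : ℕ) / 2 + u ^ (4 : ℕ) / 24)) -
        (1 - 3 / 10 * u) * u ^ (2 : ℕ) * ((1 - c) ^ (2 : ℕ) * (1 + c) / 2 + c ^ (2 : ℕ)))
      (B := u - (3679 / 10000) * (u - u ^ (3 : ℕ) / 6 + u ^ (5 : ℕ) / 120) -
        (1 - 3 / 10 * u) * u ^ (2 : ℕ) * c) (z0 := 0) (z1 := 18 / 25 * c) (z := y * c)
      ((Cert.g3pc_z0 hc23 k2 hu2 hu1).trans_eq (by ring))
      ((Cert.g3pc_zp hc23 k2 hu2 hu1).trans_eq (by ring)) z0 z1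
    linarith

/-- (G3), `y ≤ 0`. -/
theorem G3_neg {x y s : ℝ} (h : DomG x y) (hy : y ≤ 0) (h0 : -(3 / 2) ≤ s) (h1 : s ≤ 0) :
    (1 + 14 / 25 * s + s ^ (2 : ℕ) / 10) * Qf x y * s ^ (2 : ℕ) ≤ Hf x y s := by
  obtain ⟨k1, k2, k3⟩ := c_facts h.x0
  obtain ⟨c, hc⟩ : ∃ c, c = 1 / (1 + x) := ⟨_, rfl⟩
  rw [← hc] at k1 k2 k3
  obtain ⟨u, rfl⟩ : ∃ u, s = -u := ⟨-s, by ring⟩
  have hu0 : 0 ≤ u := by linarith
  have hu1 : u ≤ 3 / 2 := by linarith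
  have hcs : 0 ≤ c * u := mul_nonneg k1.le hu0
  have hcs2 : c * u ≤ 3 / 2 := by nlinarith only [k2, hu0, hu1]
  have z0 : y * c ≤ 0 := mul_nonpos_of_nonpos_of_nonneg hy k1.le
  unfold Hf
  rcases le_total (c * u) 1 with hcs1 | hcs1
  · rw [ga_mid hc (by linarith) (by linarith)]
    refine le_of_red h.x0 hc ?_
    rw [cos_neg, sin_neg, show c * -u = -(c * u) by ring]
    have A1 := ec_le hu0 hu1 (en_le4' hcs)
    have A2 := es_ge hu0 hu1 (en_ge3 hcs) (en3_nonneg hcs hcs2)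
    have B1 := mul_le_mul_of_nonneg_left A1 (sub_nonneg.2 k2)
    have B2 := mul_le_mul_of_nonpos_left A2 z0
    have key : 0 ≤ (c ^ (2 : ℕ) * u ^ (2 : ℕ) + (1 - c) * (1 - c * u) - (1 - c) *
        ((1 - c * u + (c * u) ^ (2 : ℕ) / 2 - (c * u) ^ (3 : ℕ) / 6 + (c * u) ^ (4 : ℕ) / 24) *
          (1 - u ^ (2 : ℕ) / 2 + u ^ (4 : ℕ) / 24)) -
        (1 - 14 / 25 * u + u ^ (2 : ℕ) / 10) * u ^ (2 : ℕ) * ((1 - c) ^ (2 : ℕ) * (1 + c) / 2 + c ^ (2 : ℕ))) +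
      (u - (1 - c * u + (c * u) ^ (2 : ℕ) / 2 - (c * u) ^ (3 : ℕ) / 6) * (u - u ^ (3 : ℕ) / 6) -
        (1 - 14 / 25 * u + u ^ (2 : ℕ) / 10) * u ^ (2 : ℕ) * c) * (y * c) := by
      rcases le_total c (13 / 20) with hcc | hcc
      · refine aff (z0 := -(4 / 5) * c) (z1 := 0) ?_ ?_
          (mul_le_mul_of_nonneg_right h.y0 k1.le) z0
        · exact (Cert.g3mu_zm k1.le hcc hu0 hu1).trans_eq (by ring)
        · exact (Cert.g3mu_z0 k1.le k2 hu0 hu1).trans_eq (by ring)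
      · refine aff (z0 := (-(4 / 5) + 109 / 100 * (c - 13 / 20)) * c) (z1 := 0) ?_ ?_
          (mul_le_mul_of_nonneg_right (h.low hc hcc) k1.le) z0
        · exact (Cert.g3mu_zL hcc k2 hu0 hu1).trans_eq (by ring)
        · exact (Cert.g3mu_z0 k1.le k2 hu0 hu1).trans_eq (by ring)
    linarith
  · rw [ga_lo hc (by linarith)]
    refine le_of_red h.x0 hc ?_
    rw [cos_neg, sin_neg]
    have hc23 : 2 / 3 ≤ c := by nlinarith only [k1, hu1, hcs1]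
    have hu2 : 1 ≤ u := by nlinarith only [k2, hcs1, hc23]
    have A1 := ec_le hu0 hu1 em1_hi
    have A2 := es_ge hu0 hu1 em1_lo (by norm_num)
    have B1 := mul_le_mul_of_nonneg_left A1 (sub_nonneg.2 k2)
    have B2 := mul_le_mul_of_nonpos_left A2 z0
    have key : 0 ≤ (c * u - (1 - c) *
        ((3679 / 10000) * (1 - u ^ (2 : ℕ) / 2 + u ^ (4 : ℕ) / 24)) -
        (1 - 14 / 25 * u + u ^ (2 : ℕ) / 10) * u ^ (2 : ℕ) * ((1 - c) ^ (2 : ℕ) * (1 + c) / 2 + c ^ (2 : ℕ))) +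
      (u - (3678 / 10000) * (u - u ^ (3 : ℕ) / 6) -
        (1 - 14 / 25 * u + u ^ (2 : ℕ) / 10) * u ^ (2 : ℕ) * c) * (y * c) := by
      refine aff (z0 := (-(4 / 5) + 109 / 100 * (c - 13 / 20)) * c) (z1 := 0) ?_ ?_
        (mul_le_mul_of_nonneg_right (h.low hc (by linarith)) k1.le) z0
      · exact (Cert.g3mc_zL hc23 k2 hu2 hu1).trans_eq (by ring)
      · exact (Cert.g3mc_z0 hc23 k2 hu2 hu1).trans_eq (by ring)
    linarith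

end SokamF1G

end
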