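import Pool.Agent.Lib_MP_af4de1_zy.Z01
import Pool.Agent.Lib_MP_af4de1_zy.Z37

/-! ### Lib_MP_af4de1_f1.MainS1 -/

section
namespace SokamF1G
end SokamF1G
/-!
# Structural constants of LEMMA MAIN, `y ≥ 0`

`K = √(x² + y²)`, `D = √((1+y)² + x²)`, `c = 1/(1+x)`, `Qf x y` the coefficient of `s²` (GLem.lean).
No condition on `x` besides `x ≥ 0`.
-/

set_option autoImplicit false

namespace SokamF1B

open Real SokamF1G

/-! ### Bernstein certificates -/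

private theorem s1c_la_c {p q u v : ℝ} (hp : 0 ≤ p) (hq : 0 ≤ q) (hu : 0 ≤ u) (hv : 0 ≤ v) :
    0 ≤ (404 / 81) * q ^ (6 : ℕ) * v ^ (2 : ℕ) +
      (808 / 81) * q ^ (6 : ℕ) * u * v +
      (404 / 81) * q ^ (6 : ℕ) * u ^ (2 : ℕ) +
      (2020 / 81) * p * q ^ (5 : ℕ) * v ^ (2 : ℕ) +
      (4040 / 81) * p * q ^ (5 : ℕ) * u * v +
      (2020 / 81) * p * q ^ (5 : ℕ) * u ^ (2 : ℕ) +
      (1843 / 81) * p ^ (2 : ℕ) * q ^ (4 : ℕ) * v ^ (2 : ℕ) +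
      (189422 / 2025) * p ^ (2 : ℕ) * q ^ (4 : ℕ) * u * v +
      (110947 / 2025) * p ^ (2 : ℕ) * q ^ (4 : ℕ) * u ^ (2 : ℕ) +
      (28 / 9) * p ^ (3 : ℕ) * q ^ (3 : ℕ) * v ^ (2 : ℕ) +
      (34228 / 225) * p ^ (3 : ℕ) * q ^ (3 : ℕ) * u * v +
      (6376 / 75) * p ^ (3 : ℕ) * q ^ (3 : ℕ) * u ^ (2 : ℕ) +
      (251 / 324) * p ^ (4 : ℕ) * q ^ (2 : ℕ) * v ^ (2 : ℕ) +
      (615359 / 4050) * p ^ (4 : ℕ) * q ^ (2 : ℕ) * u * v +
      (12921971 / 202500) * p ^ (4 : ℕ) * q ^ (2 : ℕ) * u ^ (2 : ℕ) +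
      (1363 / 324) * p ^ (5 : ℕ) * q * v ^ (2 : ℕ) +
      (12181 / 162) * p ^ (5 : ℕ) * q * u * v +
      (4916167 / 202500) * p ^ (5 : ℕ) * q * u ^ (2 : ℕ) +
      (2449 / 1296) * p ^ (6 : ℕ) * v ^ (2 : ℕ) +
      (247129 / 16200) * p ^ (6 : ℕ) * u * v +
      (4059409 / 810000) * p ^ (6 : ℕ) * u ^ (2 : ℕ) := by
  positivity

private theorem s1c_la {c y : ℝ} (h1 : 0 ≤ c) (h2 : c ≤ 1 / 2) (h3 : 0 ≤ y) (h4 : y ≤ 18 / 25) :
    0 ≤ (51 / 25) ^ (2 : ℕ) * (c ^ (2 : ℕ) * (1 + y) + (1 - c) ^ (2 : ℕ) * (1 + c) / 2) ^ (2 : ℕ) -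
      (1 + c ^ (2 : ℕ)) ^ (2 : ℕ) * (c ^ (2 : ℕ) * (1 + y) ^ (2 : ℕ) + (1 - c) ^ (2 : ℕ)) := by
  have h := s1c_la_c (sub_nonneg.2 h1) (sub_nonneg.2 h2) (sub_nonneg.2 h3) (sub_nonneg.2 h4)
  refine le_of_le_of_eq h ?_
  ring

private theorem s1c_lb_c {p q u v : ℝ} (hp : 0 ≤ p) (hq : 0 ≤ q) (hu : 0 ≤ u) (hv : 0 ≤ v) :
    0 ≤ (2449 / 1296) * q ^ (6 : ℕ) * v ^ (2 : ℕ) +
      (247129 / 16200) * q ^ (6 : ℕ) * u * v +
      (4059409 / 810000) * q ^ (6 : ℕ) * u ^ (2 : ℕ) +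
      (1496 / 81) * p * q ^ (5 : ℕ) * v ^ (2 : ℕ) +
      (218431 / 2025) * p * q ^ (5 : ℕ) * u * v +
      (363103 / 10125) * p * q ^ (5 : ℕ) * u ^ (2 : ℕ) +
      (5839 / 81) * p ^ (2 : ℕ) * q ^ (4 : ℕ) * v ^ (2 : ℕ) +
      (638522 / 2025) * p ^ (2 : ℕ) * q ^ (4 : ℕ) * u * v +
      (6162859 / 50625) * p ^ (2 : ℕ) * q ^ (4 : ℕ) * u ^ (2 : ℕ) +
      (11110 / 81) * p ^ (3 : ℕ) * q ^ (3 : ℕ) * v ^ (2 : ℕ) +
      (1005464 / 2025) * p ^ (3 : ℕ) * q ^ (3 : ℕ) * u * v +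
      (12972562 / 50625) * p ^ (3 : ℕ) * q ^ (3 : ℕ) * u ^ (2 : ℕ) +
      (11312 / 81) * p ^ (4 : ℕ) * q ^ (2 : ℕ) * v ^ (2 : ℕ) +
      (958288 / 2025) * p ^ (4 : ℕ) * q ^ (2 : ℕ) * u * v +
      (17050496 / 50625) * p ^ (4 : ℕ) * q ^ (2 : ℕ) * u ^ (2 : ℕ) +
      (6464 / 81) * p ^ (5 : ℕ) * q * v ^ (2 : ℕ) +
      (555904 / 2025) * p ^ (5 : ℕ) * q * u * v +
      (11951936 / 50625) * p ^ (5 : ℕ) * q * u ^ (2 : ℕ) +
      (1616 / 81) * p ^ (6 : ℕ) * v ^ (2 : ℕ) +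
      (138976 / 2025) * p ^ (6 : ℕ) * u * v +
      (2987984 / 50625) * p ^ (6 : ℕ) * u ^ (2 : ℕ) := by
  positivity

private theorem s1c_lb {c y : ℝ} (h1 : 1 / 2 ≤ c) (h2 : c ≤ 1) (h3 : 0 ≤ y) (h4 : y ≤ 18 / 25) :
    0 ≤ (51 / 25) ^ (2 : ℕ) * (c ^ (2 : ℕ) * (1 + y) + (1 - c) ^ (2 : ℕ) * (1 + c) / 2) ^ (2 : ℕ) -
      (1 + c ^ (2 : ℕ)) ^ (2 : ℕ) * (c ^ (2 : ℕ) * (1 + y) ^ (2 : ℕ) + (1 - c) ^ (2 : ℕ)) := by
  have h := s1c_lb_c (sub_nonneg.2 h1) (sub_nonneg.2 h2) (sub_nonneg.2 h3) (sub_nonneg.2 h4)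
  refine le_of_le_of_eq h ?_
  ring

private theorem s1c_g_c {p q u v : ℝ} (hp : 0 ≤ p) (hq : 0 ≤ q) (hu : 0 ≤ u) (hv : 0 ≤ v) :
    0 ≤ (25 / 64) * q ^ (8 : ℕ) * v ^ (2 : ℕ) +
      (25 / 32) * q ^ (8 : ℕ) * u * v +
      (25 / 64) * q ^ (8 : ℕ) * u ^ (2 : ℕ) +
      (75 / 32) * p * q ^ (7 : ℕ) * v ^ (2 : ℕ) +
      (75 / 16) * p * q ^ (7 : ℕ) * u * v +
      (75 / 32) * p * q ^ (7 : ℕ) * u ^ (2 : ℕ) +
      (425 / 64) * p ^ (2 : ℕ) * q ^ (6 : ℕ) * v ^ (2 : ℕ) +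
      (461 / 32) * p ^ (2 : ℕ) * q ^ (6 : ℕ) * u * v +
      (497 / 64) * p ^ (2 : ℕ) * q ^ (6 : ℕ) * u ^ (2 : ℕ) +
      (25 / 2) * p ^ (3 : ℕ) * q ^ (5 : ℕ) * v ^ (2 : ℕ) +
      (245 / 8) * p ^ (3 : ℕ) * q ^ (5 : ℕ) * u * v +
      (145 / 8) * p ^ (3 : ℕ) * q ^ (5 : ℕ) * u ^ (2 : ℕ) +
      (5833 / 648) * p ^ (4 : ℕ) * q ^ (4 : ℕ) * v ^ (2 : ℕ) +
      (19685 / 648) * p ^ (4 : ℕ) * q ^ (4 : ℕ) * u * v +
      (179711 / 8100) * p ^ (4 : ℕ) * q ^ (4 : ℕ) * u ^ (2 : ℕ) +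
      (1057 / 1296) * p ^ (5 : ℕ) * q ^ (3 : ℕ) * v ^ (2 : ℕ) +
      (1499 / 81) * p ^ (5 : ℕ) * q ^ (3 : ℕ) * u * v +
      (678151 / 32400) * p ^ (5 : ℕ) * q ^ (3 : ℕ) * u ^ (2 : ℕ) +
      (5591 / 1296) * p ^ (6 : ℕ) * q ^ (2 : ℕ) * v ^ (2 : ℕ) +
      (15797 / 648) * p ^ (6 : ℕ) * q ^ (2 : ℕ) * u * v +
      (16751159 / 810000) * p ^ (6 : ℕ) * q ^ (2 : ℕ) * u ^ (2 : ℕ) +
      (25 / 4) * p ^ (7 : ℕ) * q * v ^ (2 : ℕ) +
      (43 / 2) * p ^ (7 : ℕ) * q * u * v +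
      (25007 / 2500) * p ^ (7 : ℕ) * q * u ^ (2 : ℕ) +
      (25 / 16) * p ^ (8 : ℕ) * v ^ (2 : ℕ) +
      (43 / 8) * p ^ (8 : ℕ) * u * v +
      (3789 / 10000) * p ^ (8 : ℕ) * u ^ (2 : ℕ) := by
  positivity

private theorem s1c_g {c y : ℝ} (h1 : 0 ≤ c) (h2 : c ≤ 1) (h3 : 0 ≤ y) (h4 : y ≤ 18 / 25) :
    0 ≤ (9 / 10) ^ (2 : ℕ) * (c ^ (2 : ℕ) * (1 + y) + (1 - c) ^ (2 : ℕ) * (1 + c) / 2) ^ (2 : ℕ) -
      (103 / 50) ^ (2 : ℕ) * (c ^ (4 : ℕ) * ((1 - c) ^ (2 : ℕ) + c ^ (2 : ℕ) * y ^ (2 : ℕ))) := by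
  have h := s1c_g_c (sub_nonneg.2 h1) (sub_nonneg.2 h2) (sub_nonneg.2 h3) (sub_nonneg.2 h4)
  refine le_of_le_of_eq h ?_
  ring

private theorem s1c_b_c {p q u v : ℝ} (hp : 0 ≤ p) (hq : 0 ≤ q) (hu : 0 ≤ u) (hv : 0 ≤ v) :
    0 ≤ (8189 / 5184) * q ^ (6 : ℕ) * v ^ (2 : ℕ) +
      (8189 / 2592) * q ^ (6 : ℕ) * u * v +
      (8189 / 5184) * q ^ (6 : ℕ) * u ^ (2 : ℕ) +
      (8189 / 1296) * p * q ^ (5 : ℕ) * v ^ (2 : ℕ) +
      (8189 / 648) * p * q ^ (5 : ℕ) * u * v +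
      (8189 / 1296) * p * q ^ (5 : ℕ) * u ^ (2 : ℕ) +
      (3133 / 108) * p ^ (2 : ℕ) * q ^ (4 : ℕ) * v ^ (2 : ℕ) +
      (18607 / 216) * p ^ (2 : ℕ) * q ^ (4 : ℕ) * u * v +
      (7140239 / 135000) * p ^ (2 : ℕ) * q ^ (4 : ℕ) * u ^ (2 : ℕ) +
      (109439 / 1296) * p ^ (3 : ℕ) * q ^ (3 : ℕ) * v ^ (2 : ℕ) +
      (82057 / 324) * p ^ (3 : ℕ) * q ^ (3 : ℕ) * u * v +
      (122993861 / 810000) * p ^ (3 : ℕ) * q ^ (3 : ℕ) * u ^ (2 : ℕ) +
      (70633 / 648) * p ^ (4 : ℕ) * q ^ (2 : ℕ) * v ^ (2 : ℕ) +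
      (107083 / 324) * p ^ (4 : ℕ) * q ^ (2 : ℕ) * u * v +
      (87597427 / 405000) * p ^ (4 : ℕ) * q ^ (2 : ℕ) * u ^ (2 : ℕ) +
      (625 / 8) * p ^ (5 : ℕ) * q * v ^ (2 : ℕ) +
      (1075 / 4) * p ^ (5 : ℕ) * q * u * v +
      (1070753 / 5000) * p ^ (5 : ℕ) * q * u ^ (2 : ℕ) +
      (625 / 16) * p ^ (6 : ℕ) * v ^ (2 : ℕ) +
      (1075 / 8) * p ^ (6 : ℕ) * u * v +
      (1113189 / 10000) * p ^ (6 : ℕ) * u ^ (2 : ℕ) := by
  positivity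

private theorem s1c_b {c y : ℝ} (h1 : 0 ≤ c) (h2 : c ≤ 1) (h3 : 0 ≤ y) (h4 : y ≤ 18 / 25) :
    0 ≤ (9 / 2) ^ (2 : ℕ) * (c ^ (2 : ℕ) * (1 + y) + (1 - c) ^ (2 : ℕ) * (1 + c) / 2) ^ (2 : ℕ) -
      (103 / 50) ^ (2 : ℕ) * ((1 - c) ^ (2 : ℕ) + c ^ (2 : ℕ) * y ^ (2 : ℕ)) := by
  have h := s1c_b_c (sub_nonneg.2 h1) (sub_nonneg.2 h2) (sub_nonneg.2 h3) (sub_nonneg.2 h4)
  refine le_of_le_of_eq h ?_
  ring

/-! ### Reduction to `c` -/

private theorem s1q {x y c : ℝ} (hx : 0 ≤ x) (hc : c = 1 / (1 + x)) :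
    c * Qf x y = c ^ (2 : ℕ) * (1 + y) + (1 - c) ^ (2 : ℕ) * (1 + c) / 2 := by
  obtain ⟨-, -, h3⟩ := c_facts hx
  rw [← hc] at h3
  have hq : Qf x y = (1 + y) * c + x * (1 - c ^ (2 : ℕ)) / 2 := by
    unfold Qf
    rw [hc]
    ring
  rw [hq]
  linear_combination ((1 - c ^ (2 : ℕ)) / 2) * h3

private theorem s1exp0 : exp (18 / 25) ≤ 103 / 50 := by
  have h1 : exp 1 < 27182818286 / 10000000000 := by
    have := Real.exp_one_lt_d9
    norm_num at this ⊢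
    exact this
  have h2 : exp (18 / 25) ^ (25 : ℕ) = exp 1 ^ (18 : ℕ) := by
    rw [← Real.exp_nat_mul, ← Real.exp_nat_mul]
    norm_num
  have h3 : exp (18 / 25) ^ (25 : ℕ) ≤ (103 / 50) ^ (25 : ℕ) := by
    rw [h2]
    refine (pow_le_pow_left₀ (exp_pos 1).le h1.le 18).trans ?_
    norm_num
  exact le_of_pow_le_pow_left₀ (by norm_num) (by norm_num) h3

private theorem s1exp {y : ℝ} (hy1 : y ≤ 18 / 25) : exp y ≤ 103 / 50 :=
  (exp_le_exp.mpr hy1).trans s1exp0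

private theorem s1exp2 {y : ℝ} (hy : 0 ≤ y) (hy1 : y ≤ 18 / 25) : exp y ≤ 6 / 5 * (1 + y) := by
  have ha : 0 ≤ 1 - y / (18 / 25) := by
    rw [sub_nonneg, div_le_one (by norm_num)]
    exact hy1
  have hb : 0 ≤ y / (18 / 25) := by positivity
  have h2 := convexOn_exp.2 (Set.mem_univ 0) (Set.mem_univ (18 / 25)) ha hb (by ring)
  simp only [smul_eq_mul, Real.exp_zero, mul_zero, mul_one, zero_add] at h2
  have h3 : y / (18 / 25) * (18 / 25) = y := by field_simp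
  rw [h3] at h2
  have h4 : y / (18 / 25) * exp (18 / 25) ≤ y / (18 / 25) * (103 / 50) :=
    mul_le_mul_of_nonneg_left s1exp0 hb
  have h5 : 1 - y / (18 / 25) + y / (18 / 25) * (103 / 50) ≤ 6 / 5 * (1 + y) := by
    have h6 : 1 - y / (18 / 25) + y / (18 / 25) * (103 / 50) = 1 + 53 / 36 * y := by ring
    rw [h6]
    linarith
  linarith

private theorem s1Q0 {x y c : ℝ} (hx : 0 ≤ x) (hy : 0 ≤ y) (hc : c = 1 / (1 + x)) :
    0 ≤ Qf x y := by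
  obtain ⟨h1, h2, h3⟩ := c_facts hx
  rw [← hc] at h1 h2 h3
  have h4 : 0 ≤ c * Qf x y := by
    rw [s1q hx hc]
    positivity
  exact nonneg_of_mul_nonneg_right h4 h1

/-- steepness; true supremum `1.0164` -/
theorem s1_l {x y : ℝ} (hx : 0 ≤ x) (hy : 0 ≤ y) (hy1 : y ≤ 18 / 25) :
    (1 + (1 / (1 + x)) ^ (2 : ℕ)) * √((1 + y) ^ (2 : ℕ) + x ^ (2 : ℕ)) ≤ 2 * (51 / 50) * Qf x y := by
  obtain ⟨c, hc⟩ : ∃ c, c = 1 / (1 + x) := ⟨_, rfl⟩
  obtain ⟨h1, h2, h3⟩ := c_facts hx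
  rw [← hc] at h1 h2 h3 ⊢
  have hQ := s1q (y := y) hx hc
  have hQ0 := s1Q0 hx hy hc
  have hP : 0 ≤ (51 / 25) ^ (2 : ℕ) * (c ^ (2 : ℕ) * (1 + y) + (1 - c) ^ (2 : ℕ) * (1 + c) / 2) ^ (2 : ℕ) -
      (1 + c ^ (2 : ℕ)) ^ (2 : ℕ) * (c ^ (2 : ℕ) * (1 + y) ^ (2 : ℕ) + (1 - c) ^ (2 : ℕ)) := by
    rcases le_total c (1 / 2) with h | h
    · exact s1c_la h1.le h hy hy1
    · exact s1c_lb h h2 hy hy1
  refine (abs_le_of_sq_le_sq' ?_ (by positivity)).2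
  have hc2 : 0 < c ^ (2 : ℕ) := by positivity
  refine le_of_mul_le_mul_left ?_ hc2
  have e1 : c ^ (2 : ℕ) * ((1 + c ^ (2 : ℕ)) * √((1 + y) ^ (2 : ℕ) + x ^ (2 : ℕ))) ^ (2 : ℕ) =
      (1 + c ^ (2 : ℕ)) ^ (2 : ℕ) * (c ^ (2 : ℕ) * (1 + y) ^ (2 : ℕ) + (1 - c) ^ (2 : ℕ)) := by
    rw [mul_pow, Real.sq_sqrt (by positivity), ← h3]
    ring
  have e2 : c ^ (2 : ℕ) * (2 * (51 / 50) * Qf x y) ^ (2 : ℕ) =
      (51 / 25) ^ (2 : ℕ) * (c ^ (2 : ℕ) * (1 + y) + (1 - c) ^ (2 : ℕ) * (1 + c) / 2) ^ (2 : ℕ) := by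
    rw [← hQ]
    ring
  rw [e1, e2]
  linarith

theorem s1_mu {x y : ℝ} (hx : 0 ≤ x) (hy : 0 ≤ y) (hy1 : y ≤ 18 / 25) :
    √(x ^ (2 : ℕ) + y ^ (2 : ℕ)) ^ (3 : ℕ) * exp y ≤ 103 / 50 * √((1 + y) ^ (2 : ℕ) + x ^ (2 : ℕ)) ^ (3 : ℕ) := by
  have h1 : √(x ^ (2 : ℕ) + y ^ (2 : ℕ)) ≤ √((1 + y) ^ (2 : ℕ) + x ^ (2 : ℕ)) := Real.sqrt_le_sqrt (by nlinarith)
  have h2 : √(x ^ (2 : ℕ) + y ^ (2 : ℕ)) ^ (3 : ℕ) ≤ √((1 + y) ^ (2 : ℕ) + x ^ (2 : ℕ)) ^ (3 : ℕ) :=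
    pow_le_pow_left₀ (Real.sqrt_nonneg _) h1 3
  calc √(x ^ (2 : ℕ) + y ^ (2 : ℕ)) ^ (3 : ℕ) * exp y ≤ √((1 + y) ^ (2 : ℕ) + x ^ (2 : ℕ)) ^ (3 : ℕ) * (103 / 50) :=
        mul_le_mul h2 (s1exp hy1) (exp_pos y).le (by positivity)
    _ = 103 / 50 * √((1 + y) ^ (2 : ℕ) + x ^ (2 : ℕ)) ^ (3 : ℕ) := mul_comm _ _

/-- true supremum `.385` -/
theorem s1_nu {x y : ℝ} (hx : 0 ≤ x) (hy : 0 ≤ y) (hy1 : y ≤ 18 / 25) :
    √(x ^ (2 : ℕ) + y ^ (2 : ℕ)) * exp y ≤ 3 / 5 * √((1 + y) ^ (2 : ℕ) + x ^ (2 : ℕ)) ^ (3 : ℕ) := by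
  have hkd : 2 * √(x ^ (2 : ℕ) + y ^ (2 : ℕ)) ≤ (1 + y) ^ (2 : ℕ) + x ^ (2 : ℕ) := by
    refine (abs_le_of_sq_le_sq' ?_ (by positivity)).2
    rw [mul_pow, Real.sq_sqrt (by positivity)]
    nlinarith [sq_nonneg (x ^ (2 : ℕ) - (2 - (1 + y) ^ (2 : ℕ))), hy]
  have hD2 : √((1 + y) ^ (2 : ℕ) + x ^ (2 : ℕ)) ^ (2 : ℕ) = (1 + y) ^ (2 : ℕ) + x ^ (2 : ℕ) := Real.sq_sqrt (by positivity)
  have hYD : 1 + y ≤ √((1 + y) ^ (2 : ℕ) + x ^ (2 : ℕ)) := Real.le_sqrt_of_sq_le (by nlinarith)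
  have hK0 : 0 ≤ √(x ^ (2 : ℕ) + y ^ (2 : ℕ)) := Real.sqrt_nonneg _
  have he := s1exp2 hy hy1
  calc √(x ^ (2 : ℕ) + y ^ (2 : ℕ)) * exp y ≤ √(x ^ (2 : ℕ) + y ^ (2 : ℕ)) * (6 / 5 * (1 + y)) :=
        mul_le_mul_of_nonneg_left he hK0
    _ = 3 / 5 * ((2 * √(x ^ (2 : ℕ) + y ^ (2 : ℕ))) * (1 + y)) := by ring
    _ ≤ 3 / 5 * (((1 + y) ^ (2 : ℕ) + x ^ (2 : ℕ)) * √((1 + y) ^ (2 : ℕ) + x ^ (2 : ℕ))) :=
        mul_le_mul_of_nonneg_left (mul_le_mul hkd hYD (by linarith) (by positivity)) (by norm_num)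
    _ = 3 / 5 * √((1 + y) ^ (2 : ℕ) + x ^ (2 : ℕ)) ^ (3 : ℕ) := by
        rw [pow_succ (√((1 + y) ^ (2 : ℕ) + x ^ (2 : ℕ))) 2, hD2]

theorem s1_kd {x y : ℝ} (hx : 0 ≤ x) (hy : 0 ≤ y) (hy1 : y ≤ 18 / 25) :
    2 * √(x ^ (2 : ℕ) + y ^ (2 : ℕ)) ≤ (1 + y) ^ (2 : ℕ) + x ^ (2 : ℕ) := by
  refine (abs_le_of_sq_le_sq' ?_ (by positivity)).2
  rw [mul_pow, Real.sq_sqrt (by positivity)]
  nlinarith [sq_nonneg (x ^ (2 : ℕ) - (2 - (1 + y) ^ (2 : ℕ))), hy]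

/-- true supremum `.86` -/
theorem s1_gam {x y : ℝ} (hx : 0 ≤ x) (hy : 0 ≤ y) (hy1 : y ≤ 18 / 25) :
    (1 / (1 + x)) ^ (2 : ℕ) * (√(x ^ (2 : ℕ) + y ^ (2 : ℕ)) * exp y) ≤ 9 / 10 * Qf x y := by
  obtain ⟨c, hc⟩ : ∃ c, c = 1 / (1 + x) := ⟨_, rfl⟩
  obtain ⟨h1, h2, h3⟩ := c_facts hx
  rw [← hc] at h1 h2 h3 ⊢
  have hQ := s1q (y := y) hx hc
  have hQ0 := s1Q0 hx hy hc
  have hP := s1c_g h1.le h2 hy hy1
  have hK0 : 0 ≤ √(x ^ (2 : ℕ) + y ^ (2 : ℕ)) := Real.sqrt_nonneg _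
  have hs : c ^ (2 : ℕ) * (√(x ^ (2 : ℕ) + y ^ (2 : ℕ)) * exp y) ≤ c ^ (2 : ℕ) * (√(x ^ (2 : ℕ) + y ^ (2 : ℕ)) * (103 / 50)) :=
    mul_le_mul_of_nonneg_left (mul_le_mul_of_nonneg_left (s1exp hy1) hK0) (by positivity)
  refine hs.trans ?_
  refine (abs_le_of_sq_le_sq' ?_ (by positivity)).2
  have hc2 : 0 < c ^ (2 : ℕ) := by positivity
  refine le_of_mul_le_mul_left ?_ hc2
  have e1 : c ^ (2 : ℕ) * (c ^ (2 : ℕ) * (√(x ^ (2 : ℕ) + y ^ (2 : ℕ)) * (103 / 50))) ^ (2 : ℕ) =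
      (103 / 50) ^ (2 : ℕ) * (c ^ (4 : ℕ) * ((1 - c) ^ (2 : ℕ) + c ^ (2 : ℕ) * y ^ (2 : ℕ))) := by
    rw [mul_pow, mul_pow, Real.sq_sqrt (by positivity), ← h3]
    ring
  have e2 : c ^ (2 : ℕ) * (9 / 10 * Qf x y) ^ (2 : ℕ) =
      (9 / 10) ^ (2 : ℕ) * (c ^ (2 : ℕ) * (1 + y) + (1 - c) ^ (2 : ℕ) * (1 + c) / 2) ^ (2 : ℕ) := by
    rw [← hQ]
    ring
  rw [e1, e2]
  linarith

/-- true supremum `4.11` -/
theorem s1_B {x y : ℝ} (hx : 0 ≤ x) (hy : 0 ≤ y) (hy1 : y ≤ 18 / 25) :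
    √(x ^ (2 : ℕ) + y ^ (2 : ℕ)) * exp y ≤ 9 / 2 * Qf x y := by
  obtain ⟨c, hc⟩ : ∃ c, c = 1 / (1 + x) := ⟨_, rfl⟩
  obtain ⟨h1, h2, h3⟩ := c_facts hx
  rw [← hc] at h1 h2 h3
  have hQ := s1q (y := y) hx hc
  have hQ0 := s1Q0 hx hy hc
  have hP := s1c_b h1.le h2 hy hy1
  have hK0 : 0 ≤ √(x ^ (2 : ℕ) + y ^ (2 : ℕ)) := Real.sqrt_nonneg _
  refine (mul_le_mul_of_nonneg_left (s1exp hy1) hK0).trans ?_
  refine (abs_le_of_sq_le_sq' ?_ (by positivity)).2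
  have hc2 : 0 < c ^ (2 : ℕ) := by positivity
  refine le_of_mul_le_mul_left ?_ hc2
  have e1 : c ^ (2 : ℕ) * (√(x ^ (2 : ℕ) + y ^ (2 : ℕ)) * (103 / 50)) ^ (2 : ℕ) =
      (103 / 50) ^ (2 : ℕ) * ((1 - c) ^ (2 : ℕ) + c ^ (2 : ℕ) * y ^ (2 : ℕ)) := by
    rw [mul_pow, Real.sq_sqrt (by positivity), ← h3]
    ring
  have e2 : c ^ (2 : ℕ) * (9 / 2 * Qf x y) ^ (2 : ℕ) =
      (9 / 2) ^ (2 : ℕ) * (c ^ (2 : ℕ) * (1 + y) + (1 - c) ^ (2 : ℕ) * (1 + c) / 2) ^ (2 : ℕ) := by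
    rw [← hQ]
    ring
  rw [e1, e2]
  linarith

end SokamF1B

end

/-! ### Lib_MP_af4de1_v3o.OCL -/

section
namespace SokamF1G
end SokamF1G
set_option autoImplicit false

namespace SokamV3O

open Real SokamF1G

private theorem cosb {v : ℝ} (h0 : 3 / 2 ≤ v) (h1 : v ≤ 2 * π - 3 / 2) : cos v ≤ 86 / 1000 := by
  have h3 : cos (3 / 2) ≤ 1 - (3 / 2 : ℝ) ^ (2 : ℕ) / 2 + (3 / 2 : ℝ) ^ (4 : ℕ) / 24 := cos_le4 (by norm_num)
  norm_num at h3
  rcases le_total v π with hv | hv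
  · have h2 : cos v ≤ cos (3 / 2) := Real.cos_le_cos_of_nonneg_of_le_pi (by norm_num) hv h0
    linarith only [h3, h2]
  · have h2 : cos (2 * π - v) ≤ cos (3 / 2) :=
      Real.cos_le_cos_of_nonneg_of_le_pi (by norm_num) (by linarith only [hv]) (by linarith only [h1])
    rw [Real.cos_two_pi_sub] at h2
    linarith only [h3, h2]

private theorem expc {a : ℝ} (h0 : 0 ≤ a) (h1 : a ≤ 1) : exp a ≤ 1 + 172 / 100 * a := by
  have h2 := convexOn_exp.2 (Set.mem_univ (1 : ℝ)) (Set.mem_univ (0 : ℝ)) h0 (sub_nonneg.2 h1)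
    (by ring)
  simp only [smul_eq_mul, mul_one, mul_zero, add_zero, exp_zero] at h2
  have h3 := mul_le_mul_of_nonneg_left e1_hi h0
  linarith only [h0, h2, h3]

private theorem expy {y : ℝ} (h0 : 0 ≤ y) (h1 : y ≤ 14 / 25) : exp y ≤ 1 + 1342 / 1000 * y := by
  have h2 := e_le3 h0 (by linarith only [h1])
  have h3 : y ^ (2 : ℕ) ≤ 14 / 25 * y := by nlinarith only [h0, h1]
  have h4 : y ^ (3 : ℕ) ≤ (14 / 25) ^ (2 : ℕ) * y := by nlinarith only [h3]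
  have h5 : y ^ (4 : ℕ) ≤ (14 / 25) ^ (3 : ℕ) * y := by nlinarith only [h3]
  nlinarith only [h2, h3]

/-- facts on `k` -/
private theorem kfacts {x y k ψ : ℝ} (x0 : 0 < x) (y0 : 0 ≤ y) (T : y ≤ 4 / 5 * x) (k0 : 0 < k)
    (hx : x = k * cos ψ) (hy : y = k * sin ψ) : x ≤ k ∧ k ≤ x + 351 / 1000 * y := by
  have h1 : k ^ (2 : ℕ) = x ^ (2 : ℕ) + y ^ (2 : ℕ) := by
    rw [hx, hy]
    have := Real.cos_sq_add_sin_sq ψ
    calc k ^ (2 : ℕ) = k ^ (2 : ℕ) * (cos ψ ^ (2 : ℕ) + sin ψ ^ (2 : ℕ)) := by rw [this, mul_one]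
      _ = _ := by ring
  constructor
  · nlinarith only [k0, h1]
  · have h2 : 0 ≤ x + 351 / 1000 * y := by (clear * - x0 y0; positivity)
    refine le_of_sq_le_sq ?_ h2
    rw [h1]
    nlinarith only [mul_nonneg y0 (sub_nonneg.2 T)]

/-- the upper bound on `(1 + ρ) / 4` -/
private theorem rhs {x y k : ℝ} (x0 : 0 < x) (y0 : 0 ≤ y) (y1 : y ≤ 14 / 25) (k1 : x ≤ k)
    (k2 : k ≤ x + 351 / 1000 * y) :
    k * exp y ≤ 1752 / 1000 * k ∧
      k * exp y ≤ x + 1342 / 1000 * (x * y) + 351 / 1000 * y + 4711 / 10000 * y ^ (2 : ℕ) := by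
  have h1 := expy y0 y1
  have hk : 0 ≤ k := by linarith only [x0, k1]
  have h2 := mul_le_mul_of_nonneg_left h1 hk
  constructor
  · have h3 := mul_le_mul_of_nonneg_left y1 hk
    linarith only [hk, h2, h3]
  · have h3 : k * (1 + 1342 / 1000 * y) ≤ (x + 351 / 1000 * y) * (1 + 1342 / 1000 * y) :=
      mul_le_mul_of_nonneg_right k2 (by linarith only [y0])
    nlinarith only [h2, h3]

/-- `|s| ≥ 3/2` up to the lump at `2π`, left side, `s > 0` (true `.53`) -/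
theorem cLr {x y z τ k ψ s : ℝ} (h : ShL x y z τ k ψ) (h0 : 3 / 2 ≤ s)
    (h1 : s + τ + ψ ≤ 2 * π - 3 / 2) :
    1 / 4 * (1 + k * exp y) ≤ Hc x y z τ (pa x s) s := by
  obtain ⟨x0, y0, y1, T, z0, τ0, zτ, ζ, τ1, k0, ψ0, ψ1, hx, hy⟩ := h
  obtain ⟨k1, k2⟩ := kfacts x0 y0 T k0 hx hy
  obtain ⟨r1, r2⟩ := rhs x0 y0 y1 k1 k2
  have hz : z ≤ 21 / 25 := by linarith only [τ0, ζ]
  have hc : cos (s + τ + ψ) ≤ 86 / 1000 := cosb (by linarith only [h0, τ0, ψ0]) h1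
  have hform : x * cos (s + τ) - y * sin (s + τ) = k * cos (s + τ + ψ) := by
    rw [cos_add (s + τ) ψ]
    nth_rw 1 [hx]
    nth_rw 1 [hy]
    ring
  have hπ := Real.pi_lt_d4
  have hs1 : s ≤ 4784 / 1000 := by linarith only [h1, τ0, ψ0, hπ]
  have hkc : k * cos (s + τ + ψ) ≤ 86 / 1000 * k := by
    have := mul_le_mul_of_nonneg_left hc k0.le
    linarith only [this]
  have h1x : 0 < 1 + x := by linarith only [x0]
  have hy2 : y ≤ 1 := by linarith only [y1]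
  -- bound for a given `a`
  have key : ∀ a : ℝ, exp a * (x * cos (s + τ) - y * sin (s + τ)) ≤ exp a * (86 / 1000 * k) := by
    intro a
    rw [hform]
    exact mul_le_mul_of_nonneg_left hkc (exp_pos a).le
  have k3 : k ≤ x + 197 / 1000 := by linarith only [y1, k2]
  have k4 : k ≤ 1281 / 1000 * x := by linarith only [T, k1, k2]
  unfold pa
  rcases le_total (s / (1 + x)) (a4 x) with ha | ha
  · -- the middle part
    rw [min_eq_left ha]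
    obtain ⟨a, had⟩ : ∃ a, a = s / (1 + x) := ⟨_, rfl⟩
    rw [← had] at ha ⊢
    have hsa : s = a * (1 + x) := by rw [had]; field_simp
    have ha0 : 0 ≤ a := by rw [had]; positivity
    have ha1 : a ≤ 1 := ha.trans (min_le_left _ _)
    have hxs : s ≤ 1 + x := by nlinarith only [h1x, hsa, ha1]
    unfold Hc
    have e1 := key a
    have e2 := expc ha0 ha1
    have e3 : exp a * (86 / 1000 * k) ≤ (1 + 172 / 100 * a) * (86 / 1000 * k) :=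
      mul_le_mul_of_nonneg_right e2 (by (clear * - k0; positivity))
    have e4 : a * z ≤ a * (21 / 25) := mul_le_mul_of_nonneg_left hz ha0
    have e5 : y * s ≤ 14 / 25 * s := mul_le_mul_of_nonneg_right y1 (by linarith only [h0])
    have e6 : 0 ≤ y * z := mul_nonneg y0 z0
    have e7 : a * k ≤ a * (x + 197 / 1000) := mul_le_mul_of_nonneg_left k3 ha0
    have main : 0 ≤ a * s - 21 / 25 * a - 14 / 25 * s + x + x * a - 86 / 1000 * (x + 197 / 1000)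
        - 148 / 1000 * (a * (x + 197 / 1000)) - 1 / 4 - 438 / 1000 * (x + 197 / 1000) := by
      have h2 : 0 ≤ (a * s - 21 / 25 * a - 14 / 25 * s + x + x * a - 86 / 1000 * (x + 197 / 1000)
        - 148 / 1000 * (a * (x + 197 / 1000)) - 1 / 4 - 438 / 1000 * (x + 197 / 1000)) *
        (1 + x) := by
        have h3 : (a * s - 21 / 25 * a - 14 / 25 * s + x + x * a - 86 / 1000 * (x + 197 / 1000)
          - 148 / 1000 * (a * (x + 197 / 1000)) - 1 / 4 - 438 / 1000 * (x + 197 / 1000)) *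
          (1 + x) = s ^ (2 : ℕ) - 21 / 25 * s - 14 / 25 * s * (1 + x) + x * (1 + x) + x * s
          - 148 / 1000 * (s * (x + 197 / 1000)) - (86 / 1000 * (x + 197 / 1000)
          + 1 / 4 + 438 / 1000 * (x + 197 / 1000)) * (1 + x) := by
          have : a * (1 + x) = s := hsa.symm
          linear_combination (s - 21 / 25 + x - 148 / 1000 * (x + 197 / 1000)) * this
        rw [h3]
        nlinarith only [h0, hxs]
      exact nonneg_of_mul_nonneg_left h2 h1x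
    nlinarith only [k0, r1, k3, ha0, e1, e3, e4, e5, e6, main]
  · rw [min_eq_right ha]
    rcases le_total 1 (4 / (1 + x)) with h4 | h4
    · -- `a = 1`
      have ea : a4 x = 1 := min_eq_left h4
      rw [ea] at ha ⊢
      unfold Hc
      have e1 := key 1
      have e3 : exp 1 * (86 / 1000 * k) ≤ 2719 / 1000 * (86 / 1000 * k) :=
        mul_le_mul_of_nonneg_right e1_hi (by (clear * - k0; positivity))
      have e4 : (1 - y) * (3 / 2 - 21 / 25) ≤ (1 - y) * (s - z) :=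
        mul_le_mul_of_nonneg_left (by linarith only [h0, τ0, ζ]) (by linarith only [hy2])
      linarith only [y0, T, r1, k4, e1, e3, e4]
    · -- `a = 4 / (1 + x)`, `3 ≤ x`
      have ea : a4 x = 4 / (1 + x) := min_eq_right h4
      rw [ea] at ha ⊢
      have hx3 : 3 ≤ x := by
        rw [div_le_one h1x] at h4
        linarith only [h4]
      obtain ⟨a, had⟩ : ∃ a, a = 4 / (1 + x) := ⟨_, rfl⟩
      rw [← had] at ha h4 ⊢
      have ha0 : 0 ≤ a := by rw [had]; (clear * - x0; positivity)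
      have hax : a * (1 + x) = 4 := by rw [had]; field_simp
      have hs4 : 4 ≤ s := by
        rw [le_div_iff₀ h1x] at ha
        linarith only [ha, hax]
      unfold Hc
      have e1 := key a
      have e2 : exp a ≤ 2719 / 1000 := (exp_le_exp.2 h4).trans e1_hi
      have e3 : exp a * (86 / 1000 * k) ≤ 2719 / 1000 * (86 / 1000 * k) :=
        mul_le_mul_of_nonneg_right e2 (by (clear * - k0; positivity))
      have e4 : 0 ≤ a * (s - z) := mul_nonneg ha0 (by linarith only [h0, τ0, ζ])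
      have e5 : y * (s - z) ≤ 14 / 25 * (4784 / 1000) :=
        mul_le_mul y1 (by linarith only [z0, hs1]) (by linarith only [h0, τ0, ζ]) (by norm_num)
      have e6 : x * (1 + a) = x + 4 - a := by linarith only [hax]
      nlinarith only [k0, k2, r1, hz, hs4, e1, e3, e4, e5, e6]

/-- left side, `s = -v < 0` (true `.43`) -/
theorem cLl {x y z τ k ψ v : ℝ} (h : ShL x y z τ k ψ) (h0 : 3 / 2 ≤ v)
    (h1 : v - τ - ψ ≤ 2 * π - 3 / 2) :
    1 / 4 * (1 + k * exp y) ≤ Hc x y z τ (-(pa x v)) (-v) := by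
  obtain ⟨x0, y0, y1, T, z0, τ0, zτ, ζ, τ1, k0, ψ0, ψ1, hx, hy⟩ := h
  obtain ⟨k1, k2⟩ := kfacts x0 y0 T k0 hx hy
  obtain ⟨r1, r2⟩ := rhs x0 y0 y1 k1 k2
  have h1x : 0 < 1 + x := by linarith only [x0]
  have k4 : k ≤ 1281 / 1000 * x := by linarith only [T, k1, k2]
  have hH : ∀ a : ℝ, Hc x y z τ (-a) (-v) = (a + y) * (v + z) + x * (1 - a) -
      exp (-a) * (x * cos (v - τ) + y * sin (v - τ)) := by
    intro a
    unfold Hc
    rw [show -v + τ = -(v - τ) by ring, cos_neg, sin_neg]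
    ring
  rw [hH]
  have hform : x * cos (v - τ) + y * sin (v - τ) = k * cos (v - τ - ψ) := by
    rw [cos_sub (v - τ) ψ]
    nth_rw 1 [hx]
    nth_rw 1 [hy]
    ring
  have hyv : 3 / 2 * y ≤ y * v := by nlinarith only [h0, y0]
  rcases le_total (3 / 2) (v - τ - ψ) with hB | hB
  · -- `k cos` form
    have hc := cosb hB h1
    have hkc : k * cos (v - τ - ψ) ≤ 86 / 1000 * k := by
      have := mul_le_mul_of_nonneg_left hc k0.le
      linarith only [this]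
    have key : ∀ a : ℝ, 0 ≤ a →
        exp (-a) * (x * cos (v - τ) + y * sin (v - τ)) ≤ 86 / 1000 * k := by
      intro a ha
      rw [hform]
      have e1 : exp (-a) ≤ 1 := Real.exp_le_one_iff.2 (by linarith only [ha])
      have e2 := exp_pos (-a)
      calc exp (-a) * (k * cos (v - τ - ψ)) ≤ exp (-a) * (86 / 1000 * k) :=
            mul_le_mul_of_nonneg_left hkc e2.le
        _ ≤ 1 * (86 / 1000 * k) := mul_le_mul_of_nonneg_right e1 (by positivity)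
        _ = _ := one_mul _
    -- reduce to an inequality in `a`, `v`, `x`
    have red : ∀ a : ℝ, 0 ≤ a → 0 ≤ a * v - a * x + 476 / 1000 * x - 1 / 4 →
        1 / 4 * (1 + k * exp y) ≤ (a + y) * (v + z) + x * (1 - a) -
          exp (-a) * (x * cos (v - τ) + y * sin (v - τ)) := by
      intro a ha hm
      have e1 := key a ha
      have e2 : 0 ≤ (a + y) * z := by (clear * - ha y0 z0; positivity)
      linarith only [k1, k2, r1, hyv, hm, e1, e2]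
    unfold pa
    rcases le_total (v / (1 + x)) (a4 x) with ha | ha
    · rw [min_eq_left ha]
      obtain ⟨a, had⟩ : ∃ a, a = v / (1 + x) := ⟨_, rfl⟩
      rw [← had] at ha ⊢
      have hsa : a * (1 + x) = v := by rw [had]; field_simp
      have ha0 : 0 ≤ a := by rw [had]; (clear * - h0 x0; positivity)
      have ha1 : a ≤ 1 := ha.trans (min_le_left _ _)
      have hxs : v ≤ 1 + x := by nlinarith only [h1x, hsa, ha1]
      refine red a ha0 ?_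
      have h2 : 0 ≤ (a * v - a * x + 476 / 1000 * x - 1 / 4) * (1 + x) := by
        have h3 : (a * v - a * x + 476 / 1000 * x - 1 / 4) * (1 + x) =
            (v - x / 2) ^ (2 : ℕ) + 226 / 1000 * x ^ (2 : ℕ) + 226 / 1000 * x - 1 / 4 := by
          linear_combination (v - x) * hsa
        rw [h3]
        rcases le_total x 1 with hx1 | hx1
        · have h5 : 1 ≤ v - x / 2 := by linarith only [h0, hx1]
          nlinarith only [hxs, h5]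
        · nlinarith only [hx1]
      exact nonneg_of_mul_nonneg_left h2 h1x
    · rw [min_eq_right ha]
      rcases le_total 1 (4 / (1 + x)) with h4 | h4
      · have ea : a4 x = 1 := min_eq_left h4
        rw [ea] at ha ⊢
        have hv : 1 + x ≤ v := by
          rw [le_div_iff₀ h1x] at ha
          linarith only [ha]
        refine red 1 zero_le_one ?_
        linarith only [h1x, hv]
      · have ea : a4 x = 4 / (1 + x) := min_eq_right h4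
        rw [ea] at ha ⊢
        obtain ⟨a, had⟩ : ∃ a, a = 4 / (1 + x) := ⟨_, rfl⟩
        rw [← had] at ha h4 ⊢
        have ha0 : 0 < a := by rw [had]; (clear * - x0; positivity)
        have hax : a * (1 + x) = 4 := by rw [had]; field_simp
        have hs4 : 4 ≤ v := by
          rw [le_div_iff₀ h1x] at ha
          linarith only [ha, hax]
        refine red a ha0.le ?_
        have e1 : a * 4 ≤ a * v := mul_le_mul_of_nonneg_left hs4 ha0.le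
        have e2 : 0 ≤ 5 * a + 476 / 1000 * x - 17 / 4 := by
          have e3 : 0 ≤ (5 * a + 476 / 1000 * x - 17 / 4) * (1 + x) := by
            have e4 : (5 * a + 476 / 1000 * x - 17 / 4) * (1 + x) =
                20 + (476 / 1000 * x - 17 / 4) * (1 + x) := by
              linear_combination 5 * hax
            rw [e4]
            nlinarith only [sq_nonneg (x - 4)]
          exact nonneg_of_mul_nonneg_left e3 h1x
        linarith only [hax, e1, e2]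
  · -- `v < 27/10`
    have hv27 : v ≤ 27 / 10 := by linarith only [τ1, ψ1, hB]
    have hxτ : x * τ ≤ 28 / 100 := by
      have e1 : τ * (1 + x + x ^ (2 : ℕ)) ≤ 21 / 25 := by linarith only [zτ, ζ]
      have e2 : 0 ≤ τ * (1 - x) ^ (2 : ℕ) := by (clear * - τ0; positivity)
      linarith only [e1, e2]
    have hcv : cos (v - τ) ≤ 86 / 1000 + τ := by
      have hπ := Real.pi_gt_d2
      have e1 : cos v ≤ 86 / 1000 := cosb h0 (by linarith only [hv27, hπ])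
      have e2 : cos (v - τ) - cos v ≤ τ := by
        have h5 := Real.abs_cos_sub_cos_le (v - τ) v
        have h6 : |v - τ - v| = τ := by
          rw [show v - τ - v = -τ by ring, abs_neg, abs_of_nonneg τ0]
        rw [h6] at h5
        exact (le_abs_self _).trans h5
      linarith only [e1, e2]
    have key : ∀ a : ℝ, 0 ≤ a →
        exp (-a) * (x * cos (v - τ) + y * sin (v - τ)) ≤ exp (-a) * (86 / 1000 * x + 28 / 100 + y) := by
      intro a ha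
      refine mul_le_mul_of_nonneg_left ?_ (exp_pos _).le
      have e1 := mul_le_mul_of_nonneg_left hcv x0.le
      have e2 := mul_le_mul_of_nonneg_left (sin_le_one (v - τ)) y0
      linarith only [hxτ, e1, e2]
    unfold pa
    rcases le_total (v / (1 + x)) (a4 x) with ha | ha
    · rw [min_eq_left ha]
      obtain ⟨a, had⟩ : ∃ a, a = v / (1 + x) := ⟨_, rfl⟩
      rw [← had] at ha ⊢
      have hsa : a * (1 + x) = v := by rw [had]; field_simp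
      have ha0 : 0 ≤ a := by rw [had]; (clear * - h0 x0; positivity)
      have ha1 : a ≤ 1 := ha.trans (min_le_left _ _)
      have hxs : v ≤ 1 + x := by nlinarith only [h1x, hsa, ha1]
      have e1 := key a ha0
      have e2 : exp (-a) ≤ 1 := Real.exp_le_one_iff.2 (by linarith only [ha0])
      have e3 : exp (-a) * (86 / 1000 * x + 28 / 100 + y) ≤ 1 * (86 / 1000 * x + 28 / 100 + y) :=
        mul_le_mul_of_nonneg_right e2 (by (clear * - x0 y0; positivity))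
      have e4 : 0 ≤ (a + y) * z := by (clear * - ha0 y0 z0; positivity)
      have e5 : y ^ (2 : ℕ) ≤ 14 / 25 * y := by nlinarith only [y0, y1]
      -- linear in `y`
      have main : 0 ≤ (a * v - a * x + 664 / 1000 * x - 530 / 1000) +
          (v - 1154 / 1000 - 3355 / 10000 * x) * y := by
        refine aff (z0 := 0) (z1 := 14 / 25) ?_ ?_ y0 y1
        · have h2 : 0 ≤ (a * v - a * x + 664 / 1000 * x - 530 / 1000) * (1 + x) := by
            have h3 : (a * v - a * x + 664 / 1000 * x - 530 / 1000) * (1 + x) =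
                v * (v - x) + (664 / 1000 * x - 530 / 1000) * (1 + x) := by
              linear_combination (v - x) * hsa
            rw [h3]
            rcases le_total x 1 with hx1 | hx1
            · nlinarith only [h0, hx1]
            · nlinarith only [hx1, sq_nonneg (v - x / 2)]
          have h4 := nonneg_of_mul_nonneg_left h2 h1x
          linarith only [h4]
        · have h2 : 0 ≤ (a * v - a * x + 664 / 1000 * x - 530 / 1000 +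
              (v - 1154 / 1000 - 3355 / 10000 * x) * (14 / 25)) * (1 + x) := by
            have h3 : (a * v - a * x + 664 / 1000 * x - 530 / 1000 +
              (v - 1154 / 1000 - 3355 / 10000 * x) * (14 / 25)) * (1 + x) =
                v * (v - x) + (664 / 1000 * x - 530 / 1000 +
                (v - 1154 / 1000 - 3355 / 10000 * x) * (14 / 25)) * (1 + x) := by
              linear_combination (v - x) * hsa
            rw [h3]
            rcases le_total x 3 with hx1 | hx1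
            · nlinarith only [hsa, ha0, hx1, mul_nonneg (sub_nonneg.2 h0) (sub_nonneg.2 h0), mul_nonneg (sub_nonneg.2 h0) (sub_nonneg.2 hx1), sq_nonneg (x - 3 / 2)]
            · nlinarith only [hsa, ha0, hx1, sq_nonneg (v - 22 / 100 * x)]
          exact nonneg_of_mul_nonneg_left h2 h1x
      nlinarith only [r2, e1, e3, e4, e5, main]
    · have hx3 : x ≤ 2 := by
        by_contra hcon
        push Not at hcon
        have e1 : v / (1 + x) < a4 x := by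
          unfold a4
          rw [lt_min_iff]
          constructor
          · rw [div_lt_one h1x]; linarith only [hv27, hcon]
          · rw [div_lt_div_iff_of_pos_right h1x]; linarith only [hv27]
        linarith only [ha, e1]
      have h4 : 1 ≤ 4 / (1 + x) := by
        rw [le_div_iff₀ h1x]
        linarith only [hx3]
      have ea : a4 x = 1 := min_eq_left h4
      rw [min_eq_right ha]
      rw [ea] at ha ⊢
      have hv : 1 + x ≤ v := by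
        rw [le_div_iff₀ h1x] at ha
        linarith only [ha]
      have e1 := key 1 zero_le_one
      have e3 : exp (-1) * (86 / 1000 * x + 28 / 100 + y) ≤
          3679 / 10000 * (86 / 1000 * x + 28 / 100 + y) :=
        mul_le_mul_of_nonneg_right em1_hi (by (clear * - x0 y0; positivity))
      have e4 : 0 ≤ (1 + y) * z := by (clear * - y0 z0; positivity)
      linarith only [k1, k2, r1, k4, hyv, hv, e1, e3, e4]

end SokamV3O

end
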