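import Pool.Agent.Lib_MP_af4de1_zy.Z06
import Pool.Agent.Lib_MP_af4de1_zy.Z64

/-! ### Lib_MP_af4de1_v3.TailInt -/

section
/-!
# Integrals over the lumps: `∫ exp (-(m u + κ (1 - cos u)))`

`lump`: everything beyond `137/25` with the weight `e^(69/100 |s - 2π|)`.
-/

set_option autoImplicit false

namespace SokamV3T

open Real MeasureTheory Set

/-- `e^(-(m u + κ (1 - cos u)))` -/
noncomputable def gl (m κ u : ℝ) : ℝ := exp (-(m * u + κ * (1 - cos u)))

theorem gl_pos (m κ u : ℝ) : 0 < gl m κ u := exp_pos _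

theorem continuous_gl (m κ : ℝ) : Continuous (gl m κ) := by
  unfold gl
  fun_prop

theorem gl_le {m κ : ℝ} (hκ : 0 ≤ κ) (u : ℝ) : gl m κ u ≤ exp (-m * u) := by
  unfold gl
  apply exp_le_exp.2
  have := mul_nonneg hκ (sub_nonneg.2 (cos_le_one u))
  linarith only [this]

theorem ii_gl {m κ : ℝ} (hm : 0 < m) (hκ : 0 ≤ κ) (c : ℝ) : IntegrableOn (gl m κ) (Ioi c) := by
  refine (integrableOn_exp_mul_Ioi (neg_lt_zero.2 hm) c).mono' (continuous_gl m κ).aestronglyMeasurable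
    (Filter.Eventually.of_forall fun u => ?_)
  rw [norm_of_nonneg (gl_pos m κ u).le]
  exact gl_le hκ u

theorem gl_shift (m κ u : ℝ) : gl m κ (u + 2 * π) = exp (-(2 * π * m)) * gl m κ u := by
  unfold gl
  rw [← exp_add, cos_add_two_pi]
  congr 1
  ring

theorem shift_Ioi (f : ℝ → ℝ) (c t : ℝ) : ∫ u in Ioi (c + t), f u = ∫ u in Ioi c, f (u + t) := by
  rw [← integral_indicator measurableSet_Ioi, ← integral_indicator measurableSet_Ioi,
    ← integral_add_right_eq_self _ t]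
  congr 1
  funext u
  simp only [indicator, mem_Ioi, add_lt_add_iff_right]

/-- summation over the periods -/
theorem gl_period {m κ : ℝ} (hm : 0 < m) (hκ : 0 ≤ κ) :
    ∫ u in Ioi (0 : ℝ), gl m κ u = (∫ u in Ioc (0 : ℝ) (2 * π), gl m κ u) / (1 - exp (-(2 * π * m))) := by
  have hp := pi_pos
  have h1 : Ioi (0 : ℝ) = Ioc 0 (2 * π) ∪ Ioi (2 * π) := (Ioc_union_Ioi_eq_Ioi (by positivity)).symm
  have h2 : ∫ u in Ioi (0 : ℝ), gl m κ u =
      (∫ u in Ioc (0 : ℝ) (2 * π), gl m κ u) + ∫ u in Ioi (2 * π), gl m κ u := by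
    conv_lhs => rw [h1]
    exact setIntegral_union (Ioc_disjoint_Ioi le_rfl) measurableSet_Ioi
      ((ii_gl hm hκ 0).mono_set Ioc_subset_Ioi_self) (ii_gl hm hκ _)
  have h3 : ∫ u in Ioi (2 * π), gl m κ u = exp (-(2 * π * m)) * ∫ u in Ioi (0 : ℝ), gl m κ u := by
    have := shift_Ioi (gl m κ) 0 (2 * π)
    rw [zero_add] at this
    rw [this, ← integral_const_mul]
    congr 1
    funext u
    exact gl_shift m κ u
  have h4 : exp (-(2 * π * m)) < 1 := by
    rw [exp_lt_one_iff]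
    have : 0 < 2 * π * m := by positivity
    linarith only [this]
  rw [eq_div_iff (by linarith : (1 - exp (-(2 * π * m))) ≠ 0)]
  linarith only [h2, h3]

/-- the two halves of a period -/
theorem gl_two {m κ : ℝ} (hm : 0 < m) :
    ∫ u in Ioc (0 : ℝ) (2 * π), gl m κ u ≤
      (1 + exp (-(π * m))) * ∫ u in Ioc (0 : ℝ) π, gl 0 κ u := by
  have hp := pi_pos
  have hint : ∀ (m' a b : ℝ), IntervalIntegrable (gl m' κ) volume a b := fun m' a b =>
    (continuous_gl m' κ).intervalIntegrable a b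
  rw [← intervalIntegral.integral_of_le (by positivity), ← intervalIntegral.integral_of_le hp.le,
    ← intervalIntegral.integral_add_adjacent_intervals (hint m 0 π) (hint m π (2 * π))]
  have h1 : ∫ u in (0 : ℝ)..π, gl m κ u ≤ ∫ u in (0 : ℝ)..π, gl 0 κ u := by
    refine intervalIntegral.integral_mono_on hp.le (hint _ _ _) (hint _ _ _) fun u hu => ?_
    unfold gl
    apply exp_le_exp.2
    have := mul_nonneg hm.le hu.1
    linarith only [this]
  have h2 : ∫ u in π..(2 * π), gl m κ u ≤ exp (-(π * m)) * ∫ u in (0 : ℝ)..π, gl 0 κ u := by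
    have e1 : ∫ u in (0 : ℝ)..π, gl 0 κ u = ∫ u in π..(2 * π), gl 0 κ (2 * π - u) := by
      rw [intervalIntegral.integral_comp_sub_left]
      congr 1 <;> ring
    rw [e1, ← intervalIntegral.integral_const_mul]
    refine intervalIntegral.integral_mono_on (by linarith only [hp]) (hint _ _ _)
      (((continuous_gl 0 κ).comp (by fun_prop)).const_mul _ |>.intervalIntegrable _ _) fun u hu => ?_
    unfold gl
    rw [← exp_add, cos_two_pi_sub]
    apply exp_le_exp.2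
    have := mul_le_mul_of_nonneg_left hu.1 hm.le
    linarith only [this]
  linarith

/-! ### bounds of the cosine -/

theorem cos_le_quart {x : ℝ} (hx : 0 ≤ x) : cos x ≤ 1 - x ^ (2 : ℕ) / 2 + x ^ (4 : ℕ) / 24 := by
  have hsin : ∀ y : ℝ, 0 ≤ y → y - y ^ (3 : ℕ) / 6 ≤ sin y := by
    intro y hy
    have hm : MonotoneOn (fun x : ℝ => sin x - (x - x ^ (3 : ℕ) / 6)) (Ici 0) := by
      refine monotoneOn_of_deriv_nonneg (convex_Ici 0) (by fun_prop) (by fun_prop) fun z _ => ?_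
      have h1 : HasDerivAt (fun x : ℝ => sin x - (x - x ^ (3 : ℕ) / 6)) (cos z - (1 - z ^ (2 : ℕ) / 2)) z := by
        refine ((hasDerivAt_sin z).sub ((hasDerivAt_id z).sub
          ((hasDerivAt_pow 3 z).div_const 6))).congr_deriv ?_
        push_cast
        ring
      rw [h1.deriv]
      have := one_sub_sq_div_two_le_cos (x := z)
      linarith only [this]
    have := hm (mem_Ici.2 le_rfl) (mem_Ici.2 hy) hy
    simp at this
    linarith only [this]
  have hm : MonotoneOn (fun x : ℝ => 1 - x ^ (2 : ℕ) / 2 + x ^ (4 : ℕ) / 24 - cos x) (Ici 0) := by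
    refine monotoneOn_of_deriv_nonneg (convex_Ici 0) (by fun_prop) (by fun_prop) fun z hz => ?_
    rw [interior_Ici] at hz
    have h1 : HasDerivAt (fun x : ℝ => 1 - x ^ (2 : ℕ) / 2 + x ^ (4 : ℕ) / 24 - cos x)
        (sin z - (z - z ^ (3 : ℕ) / 6)) z := by
      refine ((((hasDerivAt_const z (1 : ℝ)).sub ((hasDerivAt_pow 2 z).div_const 2)).add
        ((hasDerivAt_pow 4 z).div_const 24)).sub (hasDerivAt_cos z)).congr_deriv ?_
      push_cast
      ring
    rw [h1.deriv]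
    have := hsin z (le_of_lt hz)
    linarith
  have := hm (mem_Ici.2 le_rfl) (mem_Ici.2 hx) hx
  simp at this
  linarith only [this]

/-- `1 - cos u ≥ 2/5 u²` on `[0, 3/2]` -/
theorem one_sub_cos_ge {u : ℝ} (h0 : 0 ≤ u) (h1 : u ≤ 3 / 2) : 2 / 5 * u ^ (2 : ℕ) ≤ 1 - cos u := by
  have h := cos_le_quart h0
  have h3 : u ^ (2 : ℕ) ≤ 9 / 4 := by nlinarith only [h0, h1]
  have h2 : u ^ (4 : ℕ) ≤ 9 / 4 * u ^ (2 : ℕ) := by linarith only [mul_nonneg (sq_nonneg u) (sub_nonneg.2 h3)]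
  nlinarith only [h, h3]

theorem one_sub_cos_ge' {u : ℝ} (h0 : 3 / 2 ≤ u) (h1 : u ≤ π) : 9 / 10 ≤ 1 - cos u := by
  have h := cos_le_quart (x := 3 / 2) (by norm_num)
  have h2 : cos u ≤ cos (3 / 2) := cos_le_cos_of_nonneg_of_le_pi (by norm_num) h1 h0
  norm_num at h
  linarith only [h2, h]

theorem int_gauss {b : ℝ} : ∫ u in Ioi (0 : ℝ), exp (-b * u ^ (2 : ℕ)) = √(π / b) / 2 :=
  integral_gaussian_Ioi b

theorem ii_gauss {b : ℝ} (hb : 0 < b) (c : ℝ) : IntegrableOn (fun u : ℝ => exp (-b * u ^ (2 : ℕ))) (Ioi c) :=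
  (integrable_exp_neg_mul_sq hb).integrableOn

/-- half a period -/
theorem gl_half {κ : ℝ} (hκ : 0 < κ) :
    ∫ u in Ioc (0 : ℝ) π, gl 0 κ u ≤ √(π / (2 / 5 * κ)) / 2 + π * exp (-(9 / 10 * κ)) := by
  have hp := pi_pos
  have hb : 0 < 2 / 5 * κ := by positivity
  have i1 : IntegrableOn (fun u : ℝ => exp (-(2 / 5 * κ) * u ^ (2 : ℕ))) (Ioc 0 π) :=
    (ii_gauss hb 0).mono_set Ioc_subset_Ioi_self
  have i2 : IntegrableOn (fun _ : ℝ => exp (-(9 / 10 * κ))) (Ioc 0 π) :=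
    integrableOn_const (by simp)
  have h1 : ∫ u in Ioc (0 : ℝ) π, gl 0 κ u ≤
      ∫ u in Ioc (0 : ℝ) π, (exp (-(2 / 5 * κ) * u ^ (2 : ℕ)) + exp (-(9 / 10 * κ))) := by
    refine setIntegral_mono_on ((continuous_gl 0 κ).integrableOn_Ioc) (i1.add i2) measurableSet_Ioc
      fun u hu => ?_
    unfold gl
    rcases le_total u (3 / 2) with h | h
    · refine le_trans (exp_le_exp.2 ?_) (le_add_of_nonneg_right (exp_pos _).le)
      have := mul_le_mul_of_nonneg_left (one_sub_cos_ge hu.1.le h) hκ.le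
      linarith only [this]
    · refine le_trans (exp_le_exp.2 ?_) (le_add_of_nonneg_left (exp_pos _).le)
      have := mul_le_mul_of_nonneg_left (one_sub_cos_ge' h hu.2) hκ.le
      linarith only [this]
  have h2 : ∫ u in Ioc (0 : ℝ) π, (exp (-(2 / 5 * κ) * u ^ (2 : ℕ)) + exp (-(9 / 10 * κ))) =
      (∫ u in Ioc (0 : ℝ) π, exp (-(2 / 5 * κ) * u ^ (2 : ℕ))) + π * exp (-(9 / 10 * κ)) := by
    rw [integral_add i1 i2]
    congr 1
    rw [setIntegral_const]
    simp [hp.le]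
  have h3 : ∫ u in Ioc (0 : ℝ) π, exp (-(2 / 5 * κ) * u ^ (2 : ℕ)) ≤ √(π / (2 / 5 * κ)) / 2 := by
    rw [← int_gauss]
    exact setIntegral_mono_set (ii_gauss hb 0) (Filter.Eventually.of_forall fun u => (exp_pos _).le)
      (Filter.Eventually.of_forall Ioc_subset_Ioi_self)
  linarith only [h1, h2, h3]

theorem exp47 : 100 ≤ exp (47 / 10) := by
  have h1 := exp_one_gt_d9
  have h2 : exp (47 / 10) = exp 1 ^ (4 : ℕ) * exp (7 / 10) := by
    rw [← exp_nat_mul, ← exp_add]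
    norm_num
  have h3 := Real.sum_le_exp_of_nonneg (x := 7 / 10) (by norm_num) 4
  norm_num [Finset.sum_range_succ, Nat.factorial] at h3
  have h4 : (27 / 10 : ℝ) ^ (4 : ℕ) ≤ exp 1 ^ (4 : ℕ) := pow_le_pow_left₀ (by norm_num) (by linarith only [h1]) 4
  rw [h2]
  calc (100 : ℝ) ≤ (27 / 10) ^ (4 : ℕ) * (12013 / 6000) := by norm_num
    _ ≤ exp 1 ^ (4 : ℕ) * exp (7 / 10) := by gcongr

theorem pow5_exp {t : ℝ} (ht : 0 ≤ t) : t ^ (5 : ℕ) ≤ 120 * exp t := by
  have h3 := Real.sum_le_exp_of_nonneg ht 6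
  norm_num [Finset.sum_range_succ, Nat.factorial] at h3
  nlinarith only [ht, h3]

/-- right part: all lumps -/
theorem lump_right {m κ : ℝ} (hm : 3 / 2 ≤ m) (hκ : 10 ≤ κ) :
    ∫ u in Ioi (0 : ℝ), gl m κ u ≤ 29 / 20 / √κ := by
  have hp := pi_pos
  have hp1 := pi_gt_d4
  have hp2 := pi_lt_d4
  have hκ0 : 0 < κ := by linarith only [hκ]
  have hm0 : 0 < m := by linarith only [hm]
  have hs : 0 < √κ := sqrt_pos.2 hκ0
  have hss : √κ ^ (2 : ℕ) = κ := sq_sqrt hκ0.le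
  have hs3 : 3 ≤ √κ := by
    rw [le_sqrt' (by norm_num)]
    linarith only [hκ]
  -- q = exp (-(π m))
  have hq : exp (-(π * m)) ≤ 1 / 100 := by
    have h1 : 100 ≤ exp (π * m) := exp47.trans (exp_le_exp.2 (by nlinarith only [hm, hp1]))
    rw [exp_neg, one_div]
    exact inv_anti₀ (by norm_num) h1
  have hq2 : exp (-(2 * π * m)) = exp (-(π * m)) ^ (2 : ℕ) := by
    rw [← exp_nat_mul]
    congr 1
    push_cast
    ring
  set q := exp (-(π * m)) with hqd
  have hq0 : 0 < q := exp_pos _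
  set J := ∫ u in Ioc (0 : ℝ) π, gl 0 κ u with hJ
  have hJ0 : 0 ≤ J := setIntegral_nonneg measurableSet_Ioc fun u _ => (gl_pos _ _ _).le
  have h1 : ∫ u in Ioi (0 : ℝ), gl m κ u ≤ 100 / 99 * J := by
    rw [gl_period hm0 hκ0.le, hq2, div_le_iff₀ (by nlinarith only [hq, hq0])]
    refine (gl_two hm0).trans ?_
    have h5 : 1 + q ≤ 100 / 99 * (1 - q ^ (2 : ℕ)) := by nlinarith only [hq, hq0]
    calc (1 + q) * J ≤ (100 / 99 * (1 - q ^ (2 : ℕ))) * J := mul_le_mul_of_nonneg_right h5 hJ0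
      _ = 100 / 99 * J * (1 - q ^ (2 : ℕ)) := by ring
  have h2 : J * √κ ≤ 1425 / 1000 := by
    have h3 := mul_le_mul_of_nonneg_right (gl_half hκ0) hs.le
    have h4 : √(π / (2 / 5 * κ)) / 2 * √κ ≤ 14025 / 10000 := by
      have h5 : √(π / (2 / 5 * κ)) * √κ = √(5 / 2 * π) := by
        rw [← sqrt_mul (by positivity)]
        congr 1
        field_simp
      have h6 : √(5 / 2 * π) ≤ 2805 / 1000 := by
        rw [sqrt_le_left (by norm_num)]
        linarith only [hp2]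
      linarith only [h5, h6]
    have h5 : exp (-(9 / 10 * κ)) * √κ ≤ 7 / 1000 := by
      have h6 := pow5_exp (t := 9 / 10 * κ) (by positivity)
      rw [exp_neg, inv_mul_le_iff₀ (exp_pos _)]
      have h7 : √κ ≤ κ / 3 := by nlinarith only [hss, hs3]
      have h8 : 10 ^ (4 : ℕ) * κ ≤ κ ^ (5 : ℕ) := by
        have : (10 : ℝ) ^ (4 : ℕ) ≤ κ ^ (4 : ℕ) := pow_le_pow_left₀ (by norm_num) hκ 4
        nlinarith only [hs3, h7, this]
      have h9 : (9 / 10 * κ) ^ (5 : ℕ) = 59049 / 100000 * κ ^ (5 : ℕ) := by ring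
      rw [h9] at h6
      linarith only [hs3, h6, h7, h8]
    have h6 : π * exp (-(9 / 10 * κ)) * √κ ≤ 22 / 1000 := by
      rw [mul_assoc]
      have := mul_le_mul_of_nonneg_left h5 hp.le
      linarith only [hp2, this]
    have h7 : (√(π / (2 / 5 * κ)) / 2 + π * exp (-(9 / 10 * κ))) * √κ =
        √(π / (2 / 5 * κ)) / 2 * √κ + π * exp (-(9 / 10 * κ)) * √κ := by ring
    rw [h7] at h3
    linarith only [h3, h4, h6]
  rw [le_div_iff₀ hs]
  have := mul_le_mul_of_nonneg_right h1 hs.le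
  linarith only [h2, this]

/-- left part: half a lump with a tilt -/
theorem lump_left {μ κ b : ℝ} (hκ : 0 < κ) (hb : b ≤ 3 / 2) :
    ∫ u in Ioc (0 : ℝ) b, exp (μ * u - κ * (1 - cos u)) ≤
      2 * exp (μ ^ (2 : ℕ) / (4 / 5 * κ)) / √κ := by
  have hp := pi_pos
  have hp2 := pi_lt_d4
  have hs : 0 < √κ := sqrt_pos.2 hκ
  have hc : 0 < 1 / 5 * κ := by positivity
  have i1 : IntegrableOn (fun u : ℝ => exp (μ ^ (2 : ℕ) / (4 / 5 * κ)) * exp (-(1 / 5 * κ) * u ^ (2 : ℕ)))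
      (Ioi 0) := (ii_gauss hc 0).const_mul _
  have h1 : ∫ u in Ioc (0 : ℝ) b, exp (μ * u - κ * (1 - cos u)) ≤
      ∫ u in Ioc (0 : ℝ) b, exp (μ ^ (2 : ℕ) / (4 / 5 * κ)) * exp (-(1 / 5 * κ) * u ^ (2 : ℕ)) := by
    refine setIntegral_mono_on (Continuous.integrableOn_Ioc (by fun_prop))
      (i1.mono_set Ioc_subset_Ioi_self) measurableSet_Ioc fun u hu => ?_
    rw [← exp_add]
    apply exp_le_exp.2
    have h2 := mul_le_mul_of_nonneg_left (one_sub_cos_ge hu.1.le (hu.2.trans hb)) hκ.le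
    have h3 : μ * u ≤ μ ^ (2 : ℕ) / (4 / 5 * κ) + 1 / 5 * κ * u ^ (2 : ℕ) := by
      have h4 : 0 ≤ (μ - 2 / 5 * κ * u) ^ (2 : ℕ) / (4 / 5 * κ) := by positivity
      have h5 : (μ - 2 / 5 * κ * u) ^ (2 : ℕ) / (4 / 5 * κ) =
          μ ^ (2 : ℕ) / (4 / 5 * κ) + 1 / 5 * κ * u ^ (2 : ℕ) - μ * u := by
        field_simp
        ring
      linarith only [h4, h5]
    linarith only [h2, h3]
  have h2 : ∫ u in Ioc (0 : ℝ) b, exp (μ ^ (2 : ℕ) / (4 / 5 * κ)) * exp (-(1 / 5 * κ) * u ^ (2 : ℕ)) ≤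
      exp (μ ^ (2 : ℕ) / (4 / 5 * κ)) * (√(π / (1 / 5 * κ)) / 2) := by
    rw [← int_gauss, ← integral_const_mul]
    exact setIntegral_mono_set i1 (Filter.Eventually.of_forall fun u => by positivity)
      (Filter.Eventually.of_forall Ioc_subset_Ioi_self)
  have h3 : √(π / (1 / 5 * κ)) ≤ 4 / √κ := by
    rw [le_div_iff₀ hs, ← sqrt_mul (by positivity)]
    have e : π / (1 / 5 * κ) * κ = 5 * π := by field_simp
    rw [e, sqrt_le_left (by norm_num)]
    linarith only [hp2]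
  calc _ ≤ _ := h1
    _ ≤ _ := h2
    _ ≤ exp (μ ^ (2 : ℕ) / (4 / 5 * κ)) * (4 / √κ / 2) := by gcongr
    _ = _ := by ring

/-- the weight times the integrand beyond `137/25` -/
noncomputable def lf (F μ κ c0 s : ℝ) : ℝ :=
  exp (69 / 100 * |s - 2 * π| - (F + μ * (s - c0) + κ * (1 - cos (s - c0))))

theorem lf_pos (F μ κ c0 s : ℝ) : 0 < lf F μ κ c0 s := exp_pos _

theorem continuous_lf (F μ κ c0 : ℝ) : Continuous (lf F μ κ c0) := by
  unfold lf
  fun_prop

theorem lf_right {F μ κ c0 s : ℝ} (h : c0 ≤ s) :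
    lf F μ κ c0 s ≤ exp (-F + 69 / 100 * |2 * π - c0|) * gl (μ - 69 / 100) κ (s - c0) := by
  unfold lf gl
  rw [← exp_add]
  apply exp_le_exp.2
  have h1 : |s - 2 * π| ≤ (s - c0) + |2 * π - c0| := by
    have := abs_add_le (s - c0) (-(2 * π - c0))
    rw [abs_neg, abs_of_nonneg (sub_nonneg.2 h)] at this
    have e : s - c0 + -(2 * π - c0) = s - 2 * π := by ring
    rwa [e] at this
  linarith only [h1]

theorem lf_left {F μ κ c0 s : ℝ} (h : s ≤ c0) :
    lf F μ κ c0 s ≤ exp (-F + 69 / 100 * |2 * π - c0|) *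
      exp ((μ + 69 / 100) * (c0 - s) - κ * (1 - cos (c0 - s))) := by
  unfold lf
  rw [← exp_add]
  apply exp_le_exp.2
  have h1 : |s - 2 * π| ≤ (c0 - s) + |2 * π - c0| := by
    have := abs_add_le (s - c0) (-(2 * π - c0))
    rw [abs_neg, abs_of_nonpos (sub_nonpos.2 h)] at this
    have e : s - c0 + -(2 * π - c0) = s - 2 * π := by ring
    rw [e] at this
    linarith only [this]
  have h2 : cos (c0 - s) = cos (s - c0) := by rw [← cos_neg]; congr 1; ring
  rw [h2]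
  linarith only [h1]

theorem ii_lf {F μ κ c0 : ℝ} (hμ : 69 / 100 < μ) (hκ : 0 ≤ κ) (c : ℝ) :
    IntegrableOn (lf F μ κ c0) (Ioi c) := by
  have h1 : IntegrableOn (fun s => exp (-F + 69 / 100 * |2 * π - c0|) *
      gl (μ - 69 / 100) κ (s - c0)) (Ioi c0) := by
    have h2 : IntegrableOn (fun s => gl (μ - 69 / 100) κ (s - c0)) (Ioi c0) := by
      refine (integrableOn_exp_mul_Ioi (a := -(μ - 69 / 100)) (by linarith only [hμ]) c0).const_mul
        (exp ((μ - 69 / 100) * c0)) |>.mono'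
        ((continuous_gl _ _).comp (by fun_prop)).aestronglyMeasurable
        (Filter.Eventually.of_forall fun u => ?_)
      rw [norm_of_nonneg (gl_pos _ _ _).le, ← exp_add]
      refine (gl_le hκ _).trans (exp_le_exp.2 ?_)
      linarith only []
    exact h2.const_mul _
  have h2 : IntegrableOn (lf F μ κ c0) (Ioi c0) := by
    refine h1.mono' (continuous_lf _ _ _ _).aestronglyMeasurable
      ((ae_restrict_iff' measurableSet_Ioi).2 (Filter.Eventually.of_forall fun u hu => ?_))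
    rw [norm_of_nonneg (lf_pos _ _ _ _ _).le]
    exact lf_right (le_of_lt hu)
  rcases le_total c0 c with h | h
  · exact h2.mono_set (Ioi_subset_Ioi h)
  · rw [← Ioc_union_Ioi_eq_Ioi h]
    exact (continuous_lf _ _ _ _).integrableOn_Ioc.union h2

/-- THE LUMPS: everything beyond `137/25`. -/
theorem lump {F μ κ c0 : ℝ} (hμ : 11 / 5 ≤ μ) (hκ : 10 ≤ κ) (h1 : 137 / 25 ≤ c0)
    (h2 : c0 ≤ 137 / 25 + 3 / 2) :
    ∫ s in Ioi (137 / 25 : ℝ), lf F μ κ c0 s ≤
      69 / 20 * exp (-F + 69 / 100 * |2 * π - c0| + (μ + 69 / 100) ^ (2 : ℕ) / (4 / 5 * κ)) / √κ := by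
  have hκ0 : 0 < κ := by linarith only [hκ]
  have hs : 0 < √κ := sqrt_pos.2 hκ0
  have hi := ii_lf (F := F) (κ := κ) (c0 := c0) (by linarith : 69 / 100 < μ) hκ0.le
  set B := exp (-F + 69 / 100 * |2 * π - c0|) with hB
  have hB0 : 0 < B := exp_pos _
  have e1 : ∫ s in Ioi (137 / 25 : ℝ), lf F μ κ c0 s =
      (∫ s in Ioc (137 / 25 : ℝ) c0, lf F μ κ c0 s) + ∫ s in Ioi c0, lf F μ κ c0 s := by
    conv_lhs => rw [← Ioc_union_Ioi_eq_Ioi h1]
    exact setIntegral_union (Ioc_disjoint_Ioi le_rfl) measurableSet_Ioi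
      ((hi _).mono_set Ioc_subset_Ioi_self) (hi _)
  have r1 : ∫ s in Ioi c0, lf F μ κ c0 s ≤ B * (29 / 20 / √κ) := by
    have h3 : ∫ s in Ioi c0, lf F μ κ c0 s = ∫ u in Ioi (0 : ℝ), lf F μ κ c0 (u + c0) := by
      have := shift_Ioi (lf F μ κ c0) 0 c0
      rwa [zero_add] at this
    have h4 : IntegrableOn (fun u => lf F μ κ c0 (u + c0)) (Ioi 0) := by
      have h5 := (hi c0)
      rw [← integrable_indicator_iff measurableSet_Ioi] at h5 ⊢
      refine (h5.comp_add_right c0).congr (Filter.Eventually.of_forall fun u => ?_)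
      simp only [indicator, mem_Ioi, lt_add_iff_pos_left]
    rw [h3]
    calc ∫ u in Ioi (0 : ℝ), lf F μ κ c0 (u + c0) ≤
        ∫ u in Ioi (0 : ℝ), B * gl (μ - 69 / 100) κ u := by
          refine setIntegral_mono_on h4 ((ii_gl (by linarith only [hμ]) hκ0.le 0).const_mul _)
            measurableSet_Ioi fun u hu => ?_
          have := lf_right (F := F) (μ := μ) (κ := κ) (c0 := c0) (s := u + c0)
            (by linarith only [mem_Ioi.1 hu])
          rwa [add_sub_cancel_right] at this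
      _ = B * ∫ u in Ioi (0 : ℝ), gl (μ - 69 / 100) κ u := integral_const_mul _ _
      _ ≤ _ := mul_le_mul_of_nonneg_left (lump_right (by linarith only [hμ]) hκ) hB0.le
  have l1 : ∫ s in Ioc (137 / 25 : ℝ) c0, lf F μ κ c0 s ≤
      B * (2 * exp ((μ + 69 / 100) ^ (2 : ℕ) / (4 / 5 * κ)) / √κ) := by
    rw [← intervalIntegral.integral_of_le h1]
    have h3 : ∫ s in (137 / 25 : ℝ)..c0, lf F μ κ c0 s =
        ∫ u in (0 : ℝ)..(c0 - 137 / 25), lf F μ κ c0 (c0 - u) := by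
      rw [intervalIntegral.integral_comp_sub_left]
      congr 1 <;> ring
    have h5 : (0 : ℝ) ≤ c0 - 137 / 25 := by linarith only [h1]
    rw [h3, intervalIntegral.integral_of_le h5]
    calc ∫ u in Ioc (0 : ℝ) (c0 - 137 / 25), lf F μ κ c0 (c0 - u) ≤
        ∫ u in Ioc (0 : ℝ) (c0 - 137 / 25), B *
          exp ((μ + 69 / 100) * u - κ * (1 - cos u)) := by
          refine setIntegral_mono_on
            (((continuous_lf F μ κ c0).comp (by fun_prop)).integrableOn_Ioc)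
            (Continuous.integrableOn_Ioc (by fun_prop)) measurableSet_Ioc fun u hu => ?_
          have := lf_left (F := F) (μ := μ) (κ := κ) (c0 := c0) (s := c0 - u)
            (by linarith only [hu.1])
          rwa [sub_sub_cancel] at this
      _ = B * ∫ u in Ioc (0 : ℝ) (c0 - 137 / 25),
          exp ((μ + 69 / 100) * u - κ * (1 - cos u)) := integral_const_mul _ _
      _ ≤ _ := mul_le_mul_of_nonneg_left (lump_left hκ0 (by linarith only [h2])) hB0.le
  rw [e1, exp_add, ← hB]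
  set E := exp ((μ + 69 / 100) ^ (2 : ℕ) / (4 / 5 * κ)) with hE
  have hE1 : 1 ≤ E := by
    rw [hE]
    apply one_le_exp
    positivity
  have h6 : B * (29 / 20 / √κ) ≤ B * (29 / 20 * E / √κ) := by
    apply mul_le_mul_of_nonneg_left _ hB0.le
    apply div_le_div_of_nonneg_right _ hs.le
    linarith only [hE1]
  calc _ ≤ B * (2 * E / √κ) + B * (29 / 20 * E / √κ) := by linarith only [r1, l1, h6]
    _ = 69 / 20 * (B * E) / √κ := by ring

end SokamV3T

end

/-! ### Lib_MP_af4de1_v3.CenZ1 -/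

section
/-!
# CEN, zone Z1: the main zone, both sides

Left `θ = t`, `s = -v`; right `θ = -t`, `s = v`; `0 ≤ v ≤ t`, `u = t - v`.
`zmain_of_L`, `zmain_of_R` : general hypotheses (two-term Gaussian on `[0,t]`);
`zgauss_L`, `zgauss_R` : the same over any set, with the exact moments over the line;
`zmain_L`, `zmain_R` : the closed forms of `CenDef` with `w = 1`.
-/

set_option autoImplicit false

namespace SokamCen

open Real MeasureTheory Set

/-! ## the window -/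

theorem win_t {t : ℝ} (h0 : 0 < t) (h1 : t ≤ π) : Win ((1 - cos t) / t ^ (2 : ℕ)) t := by
  have hc : cos t < 1 := by
    have := Real.cos_lt_cos_of_nonneg_of_le_pi le_rfl h1 h0
    rwa [cos_zero] at this
  refine ⟨div_pos (by linarith only [hc]) (by positivity), fun u hu hut _ => ?_⟩
  rw [div_mul_eq_mul_div, div_le_iff₀ (by positivity)]
  have hx : 0 ≤ t / 2 := by linarith only [h0]
  have hs0 : 0 ≤ sin (t / 2) := sin_nonneg_of_nonneg_of_le_pi hx (by linarith only [h0, h1])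
  have hsu : 0 ≤ sin (u / 2) := sin_nonneg_of_nonneg_of_le_pi (by linarith only [hu]) (by linarith only [h1, hut, hx])
  -- concavity of the sine
  have hcon := strictConcaveOn_sin_Icc.concaveOn.2 (left_mem_Icc.2 pi_pos.le)
    (⟨hx, by linarith only [h0, h1]⟩ : t / 2 ∈ Icc 0 π)
    (show 0 ≤ 1 - u / t by rw [sub_nonneg, div_le_one h0]; exact hut)
    (show 0 ≤ u / t by positivity) (by ring)
  simp only [smul_eq_mul, sin_zero, mul_zero, zero_add] at hcon
  have e1 : u / t * (t / 2) = u / 2 := by field_simp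
  rw [e1] at hcon
  have h2 : u * sin (t / 2) ≤ t * sin (u / 2) := by
    have := mul_le_mul_of_nonneg_left hcon h0.le
    rwa [← mul_assoc, mul_div_cancel₀ _ h0.ne'] at this
  have h3 : (u * sin (t / 2)) ^ (2 : ℕ) ≤ (t * sin (u / 2)) ^ (2 : ℕ) :=
    pow_le_pow_left₀ (mul_nonneg hu hs0) h2 2
  have e2 : 1 - cos t = 2 * sin (t / 2) ^ (2 : ℕ) := by
    have h5 := Real.cos_two_mul (t / 2)
    rw [mul_div_cancel₀ _ (two_ne_zero' ℝ)] at h5
    have h4 := Real.sin_sq_add_cos_sq (t / 2)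
    linarith only [h5, h4]
  have e3 : 1 - cos u = 2 * sin (u / 2) ^ (2 : ℕ) := by
    have h5 := Real.cos_two_mul (u / 2)
    rw [mul_div_cancel₀ _ (two_ne_zero' ℝ)] at h5
    have h4 := Real.sin_sq_add_cos_sq (u / 2)
    linarith only [h5, h4]
  rw [e2, e3]
  rw [mul_pow, mul_pow] at h3
  linarith only [h3]

private theorem cz_cos {u : ℝ} (h0 : 0 ≤ u) (h1 : u ≤ 6 / 5) : 11 / 25 * u ^ (2 : ℕ) ≤ 1 - cos u := by
  have h := SokamV3T.cos_le_quart h0
  have h2 : u ^ (2 : ℕ) ≤ 36 / 25 := by nlinarith only [h0, h1]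
  nlinarith only [h, h2]

theorem win_all (t : ℝ) : Win (11 / 25) t :=
  ⟨by norm_num, fun _ hu _ hu2 => cz_cos hu hu2⟩

/-! ## the factor `e^a` on the left -/

theorem pm_ge {m v : ℝ} (hm : 0 < m) (_ : 0 ≤ v) : -(v / m) ≤ pm m (-v) := by
  unfold pm
  refine le_max_of_le_right (le_min ?_ ?_)
  · have : 0 ≤ v / m := by positivity
    linarith only [this]
  · rw [neg_div]

theorem lft_sigma {m t β σ : ℝ} (hm : 0 < m) (ht : 0 ≤ t) (hβ : 0 < β) (h0 : 0 ≤ σ) (h1 : σ ≤ 1) :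
    Lft m t β (β * exp (-(σ * (t / m))))
      (4 / 27 * (1 - σ) ^ (3 : ℕ) * (t / m) * (β * exp (-(σ * (t / m)))) * t ^ (2 : ℕ)) := by
  have h1' : 0 ≤ 1 - σ := by linarith only [h1]
  refine ⟨by positivity, by positivity, fun v hv hvt => ?_⟩
  have hp := pm_ge hm hv
  have hE := exp_pos (-(σ * (t / m)))
  have h2 : exp (-(v / m)) ≤ exp (pm m (-v)) := exp_le_exp.2 hp
  have hsq : 0 ≤ β * (t - v) ^ (2 : ℕ) := by positivity
  refine le_trans ?_ (mul_le_mul_of_nonneg_right h2 hsq)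
  have h3 : exp (-(σ * (t / m))) * (1 - (v / m - σ * (t / m))) ≤ exp (-(v / m)) := by
    have h4 := add_one_le_exp (-(v / m - σ * (t / m)))
    have e : exp (-(v / m)) = exp (-(σ * (t / m))) * exp (-(v / m - σ * (t / m))) := by
      rw [← exp_add]
      congr 1
      ring
    rw [e]
    exact mul_le_mul_of_nonneg_left (by linarith only [h4]) hE.le
  refine le_trans ?_ (mul_le_mul_of_nonneg_right h3 hsq)
  -- `(t-v)² (v - σ t) ≤ (4/27) (1-σ)³ t³`
  have h5 : (t - v) ^ (2 : ℕ) * (v - σ * t) ≤ 4 / 27 * (1 - σ) ^ (3 : ℕ) * t ^ (3 : ℕ) := by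
    have hx : 0 ≤ t - v := by linarith only [hvt]
    have hst : 0 ≤ (1 - σ) * t := mul_nonneg h1' ht
    have e : 4 / 27 * (1 - σ) ^ (3 : ℕ) * t ^ (3 : ℕ) - (t - v) ^ (2 : ℕ) * (v - σ * t) =
        ((t - v) - 2 / 3 * ((1 - σ) * t)) ^ (2 : ℕ) * ((t - v) + 1 / 3 * ((1 - σ) * t)) := by ring
    have : 0 ≤ ((t - v) - 2 / 3 * ((1 - σ) * t)) ^ (2 : ℕ) * ((t - v) + 1 / 3 * ((1 - σ) * t)) := by
      positivity
    linarith only [this]
  have h6 : 0 ≤ β * exp (-(σ * (t / m))) / m := by positivity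
  have h7 := mul_le_mul_of_nonneg_left h5 h6
  have e1 : exp (-(σ * (t / m))) * (1 - (v / m - σ * (t / m))) * (β * (t - v) ^ (2 : ℕ)) =
      β * exp (-(σ * (t / m))) * (t - v) ^ (2 : ℕ) -
        β * exp (-(σ * (t / m))) / m * ((t - v) ^ (2 : ℕ) * (v - σ * t)) := by
    ring
  have e2 : 4 / 27 * (1 - σ) ^ (3 : ℕ) * (t / m) * (β * exp (-(σ * (t / m)))) * t ^ (2 : ℕ) =
      β * exp (-(σ * (t / m))) / m * (4 / 27 * (1 - σ) ^ (3 : ℕ) * t ^ (3 : ℕ)) := by
    ring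
  rw [e1, e2]
  linarith only [h7]

theorem lft_one {m t β : ℝ} (hm : 0 < m) (ht : 0 ≤ t) (hβ : 0 < β) :
    Lft m t β (β * exp (-(t / m))) 0 := by
  have h := lft_sigma (σ := 1) hm ht hβ (by norm_num) le_rfl
  simpa using h

/-! ## the weight with `w = 1` -/

theorem Wm_one (m θ s : ℝ) : Wm m θ 1 s =
    (exp (pm m s) - 1) ^ (2 : ℕ) + 2 * exp (pm m s) * (1 - cos (θ + s)) := by
  unfold Wm em
  have h : Complex.exp (pm m s + (θ + s) * Complex.I) - 1 =
      ((exp (pm m s) * cos (θ + s) - 1 : ℝ) : ℂ) +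
      ((exp (pm m s) * sin (θ + s) : ℝ) : ℂ) * Complex.I := by
    have e : ((pm m s : ℝ) : ℂ) + (θ + s) * Complex.I = (pm m s : ℂ) + ((θ + s : ℝ) : ℂ) * Complex.I := by
      push_cast
      ring
    rw [e, Complex.exp_add, Complex.exp_mul_I, ← Complex.ofReal_exp, ← Complex.ofReal_cos,
      ← Complex.ofReal_sin]
    push_cast
    ring
  rw [h, Complex.sq_norm, Complex.normSq_add_mul_I]
  linear_combination (exp (pm m s) ^ (2 : ℕ)) * Real.sin_sq_add_cos_sq (θ + s)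

theorem one_sub_cos_le (u : ℝ) : 2 * (1 - cos u) ≤ u ^ (2 : ℕ) := by
  have := Real.one_sub_sq_div_two_le_cos (x := u)
  linarith only [this]

theorem Wm_one_L {m θ s : ℝ} (hm : 0 < m) (hs : s ≤ 0) :
    Wm m θ 1 s ≤ 1 / m ^ (2 : ℕ) * s ^ (2 : ℕ) + (θ + s) ^ (2 : ℕ) := by
  rw [Wm_one]
  have hp0 : pm m s ≤ 0 := pm_nonpos hm hs
  have hp := pm_ge hm (neg_nonneg.2 hs)
  rw [neg_neg, neg_div, neg_neg] at hp
  have he1 : exp (pm m s) ≤ 1 := exp_le_one_iff.2 hp0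
  have he0 := exp_pos (pm m s)
  have h1 := add_one_le_exp (pm m s)
  have h2 : (exp (pm m s) - 1) ^ (2 : ℕ) ≤ (s / m) ^ (2 : ℕ) := by
    rw [← neg_sq (exp (pm m s) - 1), ← neg_sq (s / m)]
    exact pow_le_pow_left₀ (by linarith only [he1]) (by linarith only [hp, h1]) 2
  have e : 1 / m ^ (2 : ℕ) * s ^ (2 : ℕ) = (s / m) ^ (2 : ℕ) := by
    field_simp
  rw [e]
  have h3 := one_sub_cos_le (θ + s)
  have h4 : 0 ≤ 1 - cos (θ + s) := by
    have := cos_le_one (θ + s)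
    linarith only [this]
  nlinarith only [he1, h2, h3, h4]

/-- slope of `e^a - 1` on `[0, T]` -/
noncomputable def eS (T : ℝ) : ℝ := (exp T - 1) / T

theorem eS_ge {a T : ℝ} (h0 : 0 ≤ a) (h : a ≤ T) (hT : 0 < T) : exp a - 1 ≤ eS T * a := by
  have hcon := convexOn_exp.2 (mem_univ 0) (mem_univ T)
    (show 0 ≤ 1 - a / T by rw [sub_nonneg, div_le_one hT]; exact h)
    (show 0 ≤ a / T by positivity) (by ring)
  simp only [smul_eq_mul, mul_zero, zero_add, exp_zero, mul_one] at hcon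
  rw [div_mul_cancel₀ _ hT.ne'] at hcon
  unfold eS
  have e : (exp T - 1) / T * a = a / T * exp T - a / T := by
    field_simp
  rw [e]
  linarith only [hcon]

theorem eS_nonneg {T : ℝ} (hT : 0 < T) : 0 ≤ eS T := by
  unfold eS
  have := add_one_le_exp T
  exact div_nonneg (by linarith only [hT, this]) hT.le

theorem pm_le {m s : ℝ} (hm : 0 < m) (hs : 0 ≤ s) : pm m s ≤ s / m := by
  unfold pm
  refine max_le ?_ (min_le_right _ _)
  have : 0 ≤ s / m := by positivity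
  linarith only [this]

theorem pm_le_cT {m s t : ℝ} (hm : 0 < m) (hs : 0 ≤ s) (h : s ≤ t) : pm m s ≤ cT m t := by
  unfold pm cT
  have h1 : s / m ≤ t / m := div_le_div_of_nonneg_right h hm.le
  refine max_le ?_ (min_le_min le_rfl h1)
  refine le_min (by norm_num) ?_
  have : 0 ≤ s / m := by positivity
  linarith only [h1, this]

theorem Wm_one_R {m θ s t : ℝ} (hm : 0 < m) (hs : 0 ≤ s) (h : s ≤ t) (ht : 0 < t) :
    Wm m θ 1 s ≤ eS (cT m t) ^ (2 : ℕ) / m ^ (2 : ℕ) * s ^ (2 : ℕ) + exp (cT m t) * (θ + s) ^ (2 : ℕ) := by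
  rw [Wm_one]
  have hp0 : 0 ≤ pm m s := pm_nonneg hm hs
  have hp := pm_le hm hs
  have hpT := pm_le_cT hm hs h
  have hT : 0 < cT m t := lt_min one_pos (div_pos ht hm)
  have he := exp_le_exp.2 hpT
  have he0 := exp_pos (pm m s)
  have h1 := eS_ge hp0 hpT hT
  have hS := eS_nonneg hT
  have he1 : 1 ≤ exp (pm m s) := one_le_exp hp0
  have h2 : (exp (pm m s) - 1) ^ (2 : ℕ) ≤ (eS (cT m t) * (s / m)) ^ (2 : ℕ) :=
    pow_le_pow_left₀ (by linarith only [he1]) (h1.trans (mul_le_mul_of_nonneg_left hp hS)) 2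
  have e : eS (cT m t) ^ (2 : ℕ) / m ^ (2 : ℕ) * s ^ (2 : ℕ) = (eS (cT m t) * (s / m)) ^ (2 : ℕ) := by
    field_simp
  rw [e]
  have h3 := one_sub_cos_le (θ + s)
  have h4 : 0 ≤ 1 - cos (θ + s) := by
    have := cos_le_one (θ + s)
    linarith only [this]
  linarith only [h2, mul_le_mul_of_nonneg_left h3 he0.le, mul_le_mul_of_nonneg_right he (sq_nonneg (θ + s))]

/-! ## the zones -/

private theorem cz_mono {S T : Set ℝ} {F G : ℝ → ℝ} (hS : MeasurableSet S) (hST : S ⊆ T)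
    (h : ∀ s ∈ S, F s ≤ G s) :
    ∫⁻ s in S, ENNReal.ofReal (F s) ≤ ∫⁻ s in T, ENNReal.ofReal (G s) :=
  (setLIntegral_mono' hS fun s hs => ENNReal.ofReal_le_ofReal (h s hs)).trans (lintegral_mono_set hST)

private theorem cz_ee {S : Set ℝ} {F G : ℝ → ℝ} {ee J : ℝ} (hS : MeasurableSet S) (hee : 0 ≤ ee)
    (h : ∀ s ∈ S, G s ≤ ee) (hF : ∀ s, 0 ≤ F s)
    (hJ : ∫⁻ s in S, ENNReal.ofReal (F s) ≤ ENNReal.ofReal J) :
    ∫⁻ s in S, ENNReal.ofReal (G s * F s) ≤ ENNReal.ofReal (ee * J) := by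
  calc ∫⁻ s in S, ENNReal.ofReal (G s * F s)
      ≤ ∫⁻ s in S, ENNReal.ofReal ee * ENNReal.ofReal (F s) := by
        refine setLIntegral_mono' hS fun s hs => ?_
        rw [← ENNReal.ofReal_mul hee]
        exact ENNReal.ofReal_le_ofReal (mul_le_mul_of_nonneg_right (h s hs) (hF s))
    _ = ENNReal.ofReal ee * ∫⁻ s in S, ENNReal.ofReal (F s) :=
        lintegral_const_mul' _ _ ENNReal.ofReal_ne_top
    _ ≤ ENNReal.ofReal ee * ENNReal.ofReal J := mul_le_mul_right hJ _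
    _ = ENNReal.ofReal (ee * J) := (ENNReal.ofReal_mul hee).symm

/-- MAIN ZONE, right, general hypotheses. -/
theorem zmain_of_R {q m ρ t A B l a0 a1 a2 ee : ℝ} {w : ℂ} {S : Set ℝ} (hq : 0 < q) (hA : 0 < A)
    (hB : 0 < B) (ht : 0 ≤ t) (hS : MeasurableSet S) (hSt : ∀ s ∈ S, 0 ≤ s ∧ s ≤ t)
    (hD : ∀ s ∈ S, A * s ^ (2 : ℕ) + B * (t - s) ^ (2 : ℕ) - l ≤ Dm m ρ (-t) s)
    (h0 : 0 ≤ a0) (h1 : 0 ≤ a1) (h2 : 0 ≤ a2)
    (hW : ∀ s ∈ S, Wm m (-t) w s ≤ a0 + a1 * s ^ (2 : ℕ) + a2 * (t - s) ^ (2 : ℕ))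
    (hee : 0 ≤ ee) (he : ∀ s ∈ S, exp (pm m s) ≤ ee) :
    Zone q m ρ (-t) w S (g0 q A B t l) (gW q A B t l a0 a1 a2) (ee * g0 q A B t l) := by
  have hST : S ⊆ Icc 0 t := fun s hs => ⟨(hSt s hs).1, (hSt s hs).2⟩
  have hE : ∀ s ∈ S, exp (-(q * Dm m ρ (-t) s)) ≤
      exp (-(q * (A * s ^ (2 : ℕ) + B * (t - s) ^ (2 : ℕ) - l))) := fun s hs => by
    refine exp_le_exp.2 ?_
    have := mul_le_mul_of_nonneg_left (hD s hs) hq.le
    linarith only [this]
  have i0 := (cz_mono hS hST hE).trans (g0_le hq hA hB ht)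
  refine ⟨i0, ?_, cz_ee hS hee he (fun s => (exp_pos _).le) i0⟩
  refine (cz_mono hS hST fun s hs => ?_).trans (gW_le (a0 := a0) (a1 := a1) (a2 := a2) hq hA hB ht
    h0 h1 h2)
  exact mul_le_mul (hW s hs) (hE s hs) (exp_pos _).le (by positivity)

/-- MAIN ZONE, left, general hypotheses. -/
theorem zmain_of_L {q m ρ t A B l a0 a1 a2 ee : ℝ} {w : ℂ} {S : Set ℝ} (hq : 0 < q) (hA : 0 < A)
    (hB : 0 < B) (ht : 0 ≤ t) (hS : MeasurableSet S) (hSt : ∀ s ∈ S, -t ≤ s ∧ s ≤ 0)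
    (hD : ∀ s ∈ S, A * s ^ (2 : ℕ) + B * (t + s) ^ (2 : ℕ) - l ≤ Dm m ρ t s)
    (h0 : 0 ≤ a0) (h1 : 0 ≤ a1) (h2 : 0 ≤ a2)
    (hW : ∀ s ∈ S, Wm m t w s ≤ a0 + a1 * s ^ (2 : ℕ) + a2 * (t + s) ^ (2 : ℕ))
    (hee : 0 ≤ ee) (he : ∀ s ∈ S, exp (pm m s) ≤ ee) :
    Zone q m ρ t w S (g0 q A B t l) (gW q A B t l a0 a1 a2) (ee * g0 q A B t l) := by
  have hST : S ⊆ Icc (-t) 0 := fun s hs => ⟨(hSt s hs).1, (hSt s hs).2⟩
  have hE : ∀ s ∈ S, exp (-(q * Dm m ρ t s)) ≤
      exp (-(q * (A * s ^ (2 : ℕ) + B * (t + s) ^ (2 : ℕ) - l))) := fun s hs => by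
    refine exp_le_exp.2 ?_
    have := mul_le_mul_of_nonneg_left (hD s hs) hq.le
    linarith only [this]
  have i0 : ∫⁻ s in S, ENNReal.ofReal (exp (-(q * Dm m ρ t s))) ≤ ENNReal.ofReal (g0 q A B t l) := by
    refine (cz_mono hS hST hE).trans ?_
    rw [lint_Icc_neg, neg_zero, neg_neg]
    refine le_trans (le_of_eq ?_) (g0_le (l := l) hq hA hB ht)
    refine lintegral_congr fun v => ?_
    rw [neg_sq, ← sub_eq_add_neg]
  refine ⟨i0, ?_, cz_ee hS hee he (fun s => (exp_pos _).le) i0⟩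
  refine (cz_mono hS hST (G := fun s => (a0 + a1 * s ^ (2 : ℕ) + a2 * (t + s) ^ (2 : ℕ)) *
    exp (-(q * (A * s ^ (2 : ℕ) + B * (t + s) ^ (2 : ℕ) - l)))) fun s hs => ?_).trans ?_
  · exact mul_le_mul (hW s hs) (hE s hs) (exp_pos _).le (by positivity)
  · rw [lint_Icc_neg, neg_zero, neg_neg]
    refine le_trans (le_of_eq ?_) (gW_le (l := l) (a0 := a0) (a1 := a1) (a2 := a2) hq hA hB ht
      h0 h1 h2)
    refine lintegral_congr fun v => ?_
    rw [neg_sq, ← sub_eq_add_neg]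

/-- the value of the full two-term Gaussian with the weight `a0 + a1 v² + a2 (t-v)²` -/
noncomputable def gF (q A B t l a0 a1 a2 : ℝ) : ℝ :=
  gG q A B * (a0 + a1 * (gv A B t ^ (2 : ℕ) + gs q A B) + a2 * ((t - gv A B t) ^ (2 : ℕ) + gs q A B)) *
    exp (-(q * (A * B * t ^ (2 : ℕ) / (A + B) - l)))

/-- ANY set, right, exact moments over the line. -/
theorem zgauss_R {q m ρ t A B l a0 a1 a2 ee : ℝ} {w : ℂ} {S : Set ℝ} (hq : 0 < q) (hA : 0 < A)
    (hB : 0 < B) (hS : MeasurableSet S)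
    (hD : ∀ s ∈ S, A * s ^ (2 : ℕ) + B * (t - s) ^ (2 : ℕ) - l ≤ Dm m ρ (-t) s)
    (h0 : 0 ≤ a0) (h1 : 0 ≤ a1) (h2 : 0 ≤ a2)
    (hW : ∀ s ∈ S, Wm m (-t) w s ≤ a0 + a1 * s ^ (2 : ℕ) + a2 * (t - s) ^ (2 : ℕ))
    (hee : 0 ≤ ee) (he : ∀ s ∈ S, exp (pm m s) ≤ ee) :
    Zone q m ρ (-t) w S (gF q A B t l 1 0 0) (gF q A B t l a0 a1 a2) (ee * gF q A B t l 1 0 0) := by
  have hE : ∀ s ∈ S, exp (-(q * Dm m ρ (-t) s)) ≤
      exp (-(q * (A * s ^ (2 : ℕ) + B * (t - s) ^ (2 : ℕ) - l))) := fun s hs => by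
    refine exp_le_exp.2 ?_
    have := mul_le_mul_of_nonneg_left (hD s hs) hq.le
    linarith only [this]
  have i0 : ∫⁻ s in S, ENNReal.ofReal (exp (-(q * Dm m ρ (-t) s))) ≤
      ENNReal.ofReal (gF q A B t l 1 0 0) := by
    refine (cz_mono hS (subset_univ S) (G := fun s => (1 + 0 * s ^ (2 : ℕ) + 0 * (t - s) ^ (2 : ℕ)) *
      exp (-(q * (A * s ^ (2 : ℕ) + B * (t - s) ^ (2 : ℕ) - l)))) fun s hs => ?_).trans ?_
    · simp only [zero_mul, add_zero, one_mul]
      exact hE s hs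
    · rw [Measure.restrict_univ]
      exact gfull_le hq hA hB zero_le_one le_rfl le_rfl
  refine ⟨i0, ?_, cz_ee hS hee he (fun s => (exp_pos _).le) i0⟩
  refine (cz_mono hS (subset_univ S) (G := fun s => (a0 + a1 * s ^ (2 : ℕ) + a2 * (t - s) ^ (2 : ℕ)) *
    exp (-(q * (A * s ^ (2 : ℕ) + B * (t - s) ^ (2 : ℕ) - l)))) fun s hs => ?_).trans ?_
  · exact mul_le_mul (hW s hs) (hE s hs) (exp_pos _).le (by positivity)
  · rw [Measure.restrict_univ]
    exact gfull_le hq hA hB h0 h1 h2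

/-- ANY set, left, exact moments over the line. -/
theorem zgauss_L {q m ρ t A B l a0 a1 a2 ee : ℝ} {w : ℂ} {S : Set ℝ} (hq : 0 < q) (hA : 0 < A)
    (hB : 0 < B) (hS : MeasurableSet S)
    (hD : ∀ s ∈ S, A * s ^ (2 : ℕ) + B * (t + s) ^ (2 : ℕ) - l ≤ Dm m ρ t s)
    (h0 : 0 ≤ a0) (h1 : 0 ≤ a1) (h2 : 0 ≤ a2)
    (hW : ∀ s ∈ S, Wm m t w s ≤ a0 + a1 * s ^ (2 : ℕ) + a2 * (t + s) ^ (2 : ℕ))
    (hee : 0 ≤ ee) (he : ∀ s ∈ S, exp (pm m s) ≤ ee) :
    Zone q m ρ t w S (gF q A B t l 1 0 0) (gF q A B t l a0 a1 a2) (ee * gF q A B t l 1 0 0) := by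
  have hE : ∀ s ∈ S, exp (-(q * Dm m ρ t s)) ≤
      exp (-(q * (A * s ^ (2 : ℕ) + B * (t + s) ^ (2 : ℕ) - l))) := fun s hs => by
    refine exp_le_exp.2 ?_
    have := mul_le_mul_of_nonneg_left (hD s hs) hq.le
    linarith only [this]
  have hneg : ∀ F : ℝ → ENNReal, ∫⁻ s, F s = ∫⁻ v, F (-v) := fun F => by
    have := lint_neg F univ
    simpa using this.symm
  have i0 : ∫⁻ s in S, ENNReal.ofReal (exp (-(q * Dm m ρ t s))) ≤
      ENNReal.ofReal (gF q A B t l 1 0 0) := by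
    refine (cz_mono hS (subset_univ S) (G := fun s => (1 + 0 * s ^ (2 : ℕ) + 0 * (t + s) ^ (2 : ℕ)) *
      exp (-(q * (A * s ^ (2 : ℕ) + B * (t + s) ^ (2 : ℕ) - l)))) fun s hs => ?_).trans ?_
    · simp only [zero_mul, add_zero, one_mul]
      exact hE s hs
    · rw [Measure.restrict_univ, hneg]
      refine le_trans (le_of_eq ?_) (gfull_le (t := t) (l := l) hq hA hB zero_le_one le_rfl le_rfl)
      refine lintegral_congr fun v => ?_
      rw [neg_sq, ← sub_eq_add_neg]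
  refine ⟨i0, ?_, cz_ee hS hee he (fun s => (exp_pos _).le) i0⟩
  refine (cz_mono hS (subset_univ S) (G := fun s => (a0 + a1 * s ^ (2 : ℕ) + a2 * (t + s) ^ (2 : ℕ)) *
    exp (-(q * (A * s ^ (2 : ℕ) + B * (t + s) ^ (2 : ℕ) - l)))) fun s hs => ?_).trans ?_
  · exact mul_le_mul (hW s hs) (hE s hs) (exp_pos _).le (by positivity)
  · rw [Measure.restrict_univ, hneg]
    refine le_trans (le_of_eq ?_) (gfull_le (t := t) (l := l) hq hA hB h0 h1 h2)
    refine lintegral_congr fun v => ?_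
    rw [neg_sq, ← sub_eq_add_neg]

/-- the set of the main zone, left -/
def SmL (t : ℝ) : Set ℝ := {s | -t ≤ s ∧ s ≤ 0 ∧ t + s ≤ 6 / 5}

/-- the set of the main zone, right -/
def SmR (t : ℝ) : Set ℝ := {s | 0 ≤ s ∧ s ≤ t ∧ t - s ≤ 6 / 5}

theorem measurableSet_SmL (t : ℝ) : MeasurableSet (SmL t) := by
  unfold SmL
  measurability

theorem measurableSet_SmR (t : ℝ) : MeasurableSet (SmR t) := by
  unfold SmR
  measurability

theorem Dm_main_L {m ρ t β B l s : ℝ} (hρ : 0 < ρ) (hm : ρ ≤ m) (ht : 0 < t) (hW : Win β t)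
    (hL : Lft m t β B l) (hs : s ∈ SmL t) :
    AL m ρ t * s ^ (2 : ℕ) + B * (t + s) ^ (2 : ℕ) - l ≤ Dm m ρ t s := by
  obtain ⟨h1, h2, h3⟩ := hs
  have hv : 0 ≤ -s := by linarith only [h2]
  have hvt : -s ≤ t := by linarith only [h1]
  have e1 := Qm_AL hρ hm hv hvt ht
  rw [neg_neg, neg_sq] at e1
  have e2 := hL.2.2 (-s) hv hvt
  rw [neg_neg, sub_neg_eq_add] at e2
  have e3 := hW.2 (t + s) (by linarith only [hvt]) (by linarith only [hv]) h3
  have e4 := mul_le_mul_of_nonneg_left e3 (exp_pos (pm m s)).le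
  rw [Dm_eq]
  linarith only [e1, e2, e4]

theorem Dm_main_R {m ρ t β s : ℝ} (hρ : 0 < ρ) (hm : ρ ≤ m) (ht : 0 < t) (hW : Win β t)
    (hs : s ∈ SmR t) : AR m ρ t * s ^ (2 : ℕ) + β * (t - s) ^ (2 : ℕ) - 0 ≤ Dm m ρ (-t) s := by
  obtain ⟨h1, h2, h3⟩ := hs
  have hm0 : 0 < m := hρ.trans_le hm
  have e1 := Qm_AR hρ hm h1 h2 ht
  have e3 := hW.2 (t - s) (by linarith only [h2]) (by linarith only [h1]) h3
  have e5 : cos (-t + s) = cos (t - s) := by
    rw [← cos_neg]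
    congr 1
    ring
  have e6 : 1 ≤ exp (pm m s) := one_le_exp (pm_nonneg hm0 h1)
  have e7 : 0 ≤ 1 - cos (t - s) := by
    have := cos_le_one (t - s)
    linarith only [this]
  have e8 : 1 - cos (t - s) ≤ exp (pm m s) * (1 - cos (t - s)) := le_mul_of_one_le_left e7 e6
  rw [Dm_eq, e5]
  linarith only [e1, e3, e8]

/-- Z1 LEFT, `w = 1`, closed forms of `CenDef`. -/
theorem zmain_L {q m ρ t β B l : ℝ} (hq : 0 < q) (hρ : 0 < ρ) (hm : ρ ≤ m) (ht : 0 < t)
    (hW : Win β t) (hL : Lft m t β B l) :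
    Zone q m ρ t 1 (SmL t) (g0 q (AL m ρ t) B t l) (gW q (AL m ρ t) B t l 0 (1 / m ^ (2 : ℕ)) 1)
      (1 * g0 q (AL m ρ t) B t l) := by
  have hm0 : 0 < m := hρ.trans_le hm
  refine zmain_of_L hq (AL_pos hρ hm ht) hL.1 ht.le (measurableSet_SmL t)
    (fun s hs => ⟨hs.1, hs.2.1⟩) (fun s hs => Dm_main_L hρ hm ht hW hL hs) le_rfl (by positivity)
    zero_le_one (fun s hs => ?_) zero_le_one fun s hs => exp_le_one_iff.2 (pm_nonpos hm0 hs.2.1)
  have := Wm_one_L (θ := t) hm0 hs.2.1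
  linarith only [this]

/-- Z1 RIGHT, `w = 1`, closed forms of `CenDef`. -/
theorem zmain_R {q m ρ t β : ℝ} (hq : 0 < q) (hρ : 0 < ρ) (hm : ρ ≤ m) (ht : 0 < t)
    (hW : Win β t) :
    Zone q m ρ (-t) 1 (SmR t) (g0 q (AR m ρ t) β t 0)
      (gW q (AR m ρ t) β t 0 0 (eS (cT m t) ^ (2 : ℕ) / m ^ (2 : ℕ)) (exp (cT m t)))
      (exp (cT m t) * g0 q (AR m ρ t) β t 0) := by
  have hm0 : 0 < m := hρ.trans_le hm
  refine zmain_of_R hq (AR_pos hρ hm ht) hW.1 ht.le (measurableSet_SmR t)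
    (fun s hs => ⟨hs.1, hs.2.1⟩) (fun s hs => Dm_main_R hρ hm ht hW hs) le_rfl (by positivity)
    (exp_pos _).le (fun s hs => ?_) (exp_pos _).le
    fun s hs => exp_le_exp.2 (pm_le_cT hm0 hs.1 hs.2.1)
  have h1 := Wm_one_R (θ := -t) hm0 hs.1 hs.2.1 ht
  have e : (-t + s) ^ (2 : ℕ) = (t - s) ^ (2 : ℕ) := by ring
  rw [e] at h1
  linarith only [h1]

/-- Z1 LEFT with the exact moments over the line. -/
theorem zmain_L' {q m ρ t β B l : ℝ} (hq : 0 < q) (hρ : 0 < ρ) (hm : ρ ≤ m) (ht : 0 < t)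
    (hW : Win β t) (hL : Lft m t β B l) :
    Zone q m ρ t 1 (SmL t) (gF q (AL m ρ t) B t l 1 0 0) (gF q (AL m ρ t) B t l 0 (1 / m ^ (2 : ℕ)) 1)
      (1 * gF q (AL m ρ t) B t l 1 0 0) := by
  have hm0 : 0 < m := hρ.trans_le hm
  refine zgauss_L hq (AL_pos hρ hm ht) hL.1 (measurableSet_SmL t)
    (fun s hs => Dm_main_L hρ hm ht hW hL hs) le_rfl (by positivity)
    zero_le_one (fun s hs => ?_) zero_le_one fun s hs => exp_le_one_iff.2 (pm_nonpos hm0 hs.2.1)
  have := Wm_one_L (θ := t) hm0 hs.2.1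
  linarith only [this]

/-- Z1 RIGHT with the exact moments over the line. -/
theorem zmain_R' {q m ρ t β : ℝ} (hq : 0 < q) (hρ : 0 < ρ) (hm : ρ ≤ m) (ht : 0 < t)
    (hW : Win β t) :
    Zone q m ρ (-t) 1 (SmR t) (gF q (AR m ρ t) β t 0 1 0 0)
      (gF q (AR m ρ t) β t 0 0 (eS (cT m t) ^ (2 : ℕ) / m ^ (2 : ℕ)) (exp (cT m t)))
      (exp (cT m t) * gF q (AR m ρ t) β t 0 1 0 0) := by
  have hm0 : 0 < m := hρ.trans_le hm
  refine zgauss_R hq (AR_pos hρ hm ht) hW.1 (measurableSet_SmR t)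
    (fun s hs => Dm_main_R hρ hm ht hW hs) le_rfl (by positivity)
    (exp_pos _).le (fun s hs => ?_) (exp_pos _).le
    fun s hs => exp_le_exp.2 (pm_le_cT hm0 hs.1 hs.2.1)
  have h1 := Wm_one_R (θ := -t) hm0 hs.1 hs.2.1 ht
  have e : (-t + s) ^ (2 : ℕ) = (t - s) ^ (2 : ℕ) := by ring
  rw [e] at h1
  linarith only [h1]

end SokamCen

end

/-! ### Lib_MP_af4de1_v3.CenFar -/

section
/-!
# CEN, far zones: all images beyond `c`, uniform in `q = r`

`farR` : `S = Ici c`, any `θ`; `farL` : `S = Iic (-c)`.  Period trick: for `f ≥ 0` of period `2π` and `λ > 0`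
`∫_c^∞ e^(-λ(s-c)) f = (1 - e^(-2πλ))⁻¹ ∫_c^(c+2π) e^(-λ(s-c)) f`.
-/

set_option autoImplicit false

namespace SokamCen

open Real MeasureTheory Set

/-! ## the period trick -/

/-- `∫_c^∞ e^(-λ(s-c)) f(s) ds ≤ P/(1 - e^(-2πλ))` -/
theorem period_lint {lam c P M : ℝ} {f : ℝ → ℝ} (hl : 0 < lam) (hP : 0 ≤ P)
    (hf0 : ∀ s, 0 ≤ f s) (hfM : ∀ s, f s ≤ M) (hper : ∀ s, f (s + 2 * π) = f s)
    (hI : ∫⁻ s in Icc c (c + 2 * π), ENNReal.ofReal (f s) ≤ ENNReal.ofReal P) :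
    ∫⁻ s in Ici c, ENNReal.ofReal (exp (-(lam * (s - c))) * f s) ≤
      ENNReal.ofReal (P / (1 - exp (-(2 * π * lam)))) := by
  set J := ∫⁻ s in Ici c, ENNReal.ofReal (exp (-(lam * (s - c))) * f s) with hJ
  have hM : 0 ≤ M := (hf0 0).trans (hfM 0)
  -- finite
  have hfin : J ≠ ⊤ := by
    have h1 : J ≤ ∫⁻ s in Ici c, ENNReal.ofReal (M * exp (-(lam * (s - c)))) := by
      refine setLIntegral_mono' measurableSet_Ici fun s _ => ENNReal.ofReal_le_ofReal ?_
      rw [mul_comm]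
      exact mul_le_mul_of_nonneg_right (hfM s) (exp_pos _).le
    have h2 : IntegrableOn (fun s : ℝ => M * exp (-(lam * (s - c)))) (Ici c) := by
      rw [integrableOn_Ici_iff_integrableOn_Ioi]
      have h3 : IntegrableOn (fun s : ℝ => M * exp (lam * c) * exp (-lam * s)) (Ioi c) :=
        (integrableOn_exp_mul_Ioi (a := -lam) (by linarith only [hl]) c).const_mul (M * exp (lam * c))
      refine IntegrableOn.congr_fun h3 (fun s _ => ?_) measurableSet_Ioi
      show M * exp (lam * c) * exp (-lam * s) = M * exp (-(lam * (s - c)))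
      rw [mul_assoc, ← exp_add]
      congr 2
      ring
    have h3 : ∫⁻ s in Ici c, ENNReal.ofReal (M * exp (-(lam * (s - c)))) < ⊤ := by
      have h4 := h2.2
      rw [hasFiniteIntegral_iff_ofReal] at h4
      · exact h4
      · exact Filter.Eventually.of_forall fun s => mul_nonneg hM (exp_pos _).le
    exact (h1.trans_lt h3).ne
  -- the recursion
  have hle : J ≤ ENNReal.ofReal P + ENNReal.ofReal (exp (-(2 * π * lam))) * J := by
    have h1 : Ici c ⊆ Icc c (c + 2 * π) ∪ Ici (c + 2 * π) := fun s hs => by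
      rcases le_total s (c + 2 * π) with h | h
      · exact Or.inl ⟨hs, h⟩
      · exact Or.inr h
    refine (lintegral_mono_set h1).trans ((lintegral_union_le _ _ _).trans (add_le_add ?_ ?_))
    · refine le_trans (setLIntegral_mono' measurableSet_Icc fun s hs => ENNReal.ofReal_le_ofReal ?_) hI
      refine mul_le_of_le_one_left (hf0 s) (exp_le_one_iff.2 ?_)
      have : 0 ≤ lam * (s - c) := mul_nonneg hl.le (by linarith only [hs.1])
      linarith only [this]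
    · have h2 := lint_shift (fun s => ENNReal.ofReal (exp (-(lam * (s - c))) * f s)) (2 * π)
        (Ici (c + 2 * π))
      have h3 : (fun x : ℝ => x + 2 * π) ⁻¹' Ici (c + 2 * π) = Ici c := by
        ext x
        simp
      rw [h3] at h2
      rw [← h2, hJ, ← lintegral_const_mul' _ _ ENNReal.ofReal_ne_top]
      refine le_of_eq (lintegral_congr fun s => ?_)
      rw [← ENNReal.ofReal_mul (exp_pos _).le, hper, ← mul_assoc, ← exp_add]
      congr 3
      ring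
  have he : exp (-(2 * π * lam)) < 1 := by
    have := pi_pos
    have h2 : 0 < 2 * π * lam := by positivity
    rw [← exp_zero]
    exact exp_lt_exp.2 (by linarith only [h2])
  have h5 : J.toReal ≤ P + exp (-(2 * π * lam)) * J.toReal := by
    have h6 := ENNReal.toReal_mono (by
      exact ENNReal.add_ne_top.2 ⟨ENNReal.ofReal_ne_top, ENNReal.mul_ne_top ENNReal.ofReal_ne_top hfin⟩) hle
    rw [ENNReal.toReal_add ENNReal.ofReal_ne_top (ENNReal.mul_ne_top ENNReal.ofReal_ne_top hfin),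
      ENNReal.toReal_mul, ENNReal.toReal_ofReal hP, ENNReal.toReal_ofReal (exp_pos _).le] at h6
    exact h6
  rw [← ENNReal.ofReal_toReal hfin]
  refine ENNReal.ofReal_le_ofReal ?_
  rw [le_div_iff₀ (by linarith only [he])]
  linarith only [h5]

/-- the integral over a period of `e^(-k (1 - cos))` -/
theorem period_cos {k θ c : ℝ} (hk : 0 < k) :
    ∫⁻ s in Icc c (c + 2 * π), ENNReal.ofReal (exp (-(k * (1 - cos (θ + s))))) ≤
      ENNReal.ofReal √(π ^ (3 : ℕ) / (2 * k)) := by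
  have hcont : Continuous fun s : ℝ => exp (-(k * (1 - cos (θ + s)))) := by fun_prop
  have hcont' : Continuous fun s : ℝ => exp (-(k * (1 - cos s))) := by fun_prop
  have hπ := pi_pos
  have hle : c ≤ c + 2 * π := by linarith only [hπ]
  have h1 : ∫⁻ s in Icc c (c + 2 * π), ENNReal.ofReal (exp (-(k * (1 - cos (θ + s))))) =
      ENNReal.ofReal (∫ s in c..(c + 2 * π), exp (-(k * (1 - cos (θ + s))))) := by
    rw [intervalIntegral.integral_of_le hle, ofReal_integral_eq_lintegral_ofReal]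
    · exact setLIntegral_congr Ioc_ae_eq_Icc.symm
    · exact (hcont.integrableOn_Icc (a := c) (b := c + 2 * π)).mono_set Ioc_subset_Icc_self
    · exact Filter.Eventually.of_forall fun s => (exp_pos _).le
  rw [h1]
  refine ENNReal.ofReal_le_ofReal ?_
  have h2 : ∫ s in c..(c + 2 * π), exp (-(k * (1 - cos (θ + s)))) =
      ∫ s in (θ + c)..(θ + c + 2 * π), exp (-(k * (1 - cos s))) := by
    have := intervalIntegral.integral_comp_add_left (a := c) (b := c + 2 * π)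
      (fun s : ℝ => exp (-(k * (1 - cos s)))) θ
    rw [this, add_assoc]
  have hper : Function.Periodic (fun s : ℝ => exp (-(k * (1 - cos s)))) (2 * π) := fun s => by
    simp only [cos_add_two_pi]
  have h3 := hper.intervalIntegral_add_eq (θ + c) (-π)
  rw [h2, h3, show -π + 2 * π = π by ring]
  have h4 : ∫ s in (-π)..π, exp (-(k * (1 - cos s))) ≤
      ∫ s in (-π)..π, exp (-(2 * k / π ^ (2 : ℕ)) * s ^ (2 : ℕ)) := by
    refine intervalIntegral.integral_mono_on (by linarith only [hle]) (hcont'.intervalIntegrable _ _)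
      ((by fun_prop : Continuous fun s : ℝ => exp (-(2 * k / π ^ (2 : ℕ)) * s ^ (2 : ℕ))).intervalIntegrable _ _)
      fun s hs => exp_le_exp.2 ?_
    have h5 := cos_le_one_sub_mul_cos_sq (abs_le.2 ⟨hs.1, hs.2⟩)
    have h6 := mul_le_mul_of_nonneg_left (show 2 / π ^ (2 : ℕ) * s ^ (2 : ℕ) ≤ 1 - cos s by linarith only [h5]) hk.le
    have e : k * (2 / π ^ (2 : ℕ) * s ^ (2 : ℕ)) = 2 * k / π ^ (2 : ℕ) * s ^ (2 : ℕ) := by ring
    rw [e] at h6
    linarith only [h6]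
  have hb : 0 < 2 * k / π ^ (2 : ℕ) := by positivity
  have h5 : ∫ s in (-π)..π, exp (-(2 * k / π ^ (2 : ℕ)) * s ^ (2 : ℕ)) ≤
      ∫ s : ℝ, exp (-(2 * k / π ^ (2 : ℕ)) * s ^ (2 : ℕ)) := by
    rw [intervalIntegral.integral_of_le (by linarith only [hle])]
    exact setIntegral_le_integral (integrable_exp_neg_mul_sq hb)
      (Filter.Eventually.of_forall fun s => (exp_pos _).le)
  rw [integral_gaussian] at h5
  refine h4.trans (h5.trans (le_of_eq ?_))
  congr 1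
  field_simp

/-- the same with the weight `2 (1 - cos)` -/
theorem period_cos2 {k θ c : ℝ} (hk : 0 < k) :
    ∫⁻ s in Icc c (c + 2 * π), ENNReal.ofReal
      (2 * (1 - cos (θ + s)) * exp (-(k * (1 - cos (θ + s))))) ≤
      ENNReal.ofReal (3 / 2 / k * √(π ^ (3 : ℕ) / k)) := by
  have h1 : ∀ s : ℝ, 2 * (1 - cos (θ + s)) * exp (-(k * (1 - cos (θ + s)))) ≤
      3 / 2 / k * exp (-(k / 2 * (1 - cos (θ + s)))) := by
    intro s
    obtain ⟨u, hu⟩ : ∃ u, u = k / 2 * (1 - cos (θ + s)) := ⟨_, rfl⟩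
    have e1 : k * (1 - cos (θ + s)) = u + u := by rw [hu]; ring
    have e2 : 2 * (1 - cos (θ + s)) = 4 / k * u := by
      rw [hu]
      field_simp
      ring
    rw [e1, ← hu, e2, neg_add, exp_add, ← mul_assoc]
    refine mul_le_mul_of_nonneg_right ?_ (exp_pos _).le
    -- `u e^{-u} ≤ 3/8`
    have h2 : u * exp (-u) ≤ 3 / 8 := by
      have h3 := add_one_le_exp (u - 1)
      have h4 : u ≤ exp (u - 1) := by linarith only [h3]
      have h5 := mul_le_mul_of_nonneg_right h4 (exp_pos (-u)).le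
      rw [← exp_add, show u - 1 + -u = -1 by ring] at h5
      have h6 : exp (-1) ≤ 3 / 8 := by
        have h7 := Real.exp_one_gt_d9
        rw [exp_neg, inv_le_comm₀ (exp_pos _) (by norm_num)]
        norm_num
        linarith only [h7]
      linarith only [h5, h6]
    have h3 : 0 ≤ 4 / k := by positivity
    calc 4 / k * u * exp (-u) = 4 / k * (u * exp (-u)) := by ring
      _ ≤ 4 / k * (3 / 8) := mul_le_mul_of_nonneg_left h2 h3
      _ = 3 / 2 / k := by ring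
  have hk2 : 0 ≤ 3 / 2 / k := by (clear * - hk; positivity)
  calc ∫⁻ s in Icc c (c + 2 * π), ENNReal.ofReal (2 * (1 - cos (θ + s)) * exp (-(k * (1 - cos (θ + s)))))
      ≤ ∫⁻ s in Icc c (c + 2 * π), ENNReal.ofReal (3 / 2 / k) *
        ENNReal.ofReal (exp (-(k / 2 * (1 - cos (θ + s))))) := by
        refine setLIntegral_mono' measurableSet_Icc fun s _ => ?_
        rw [← ENNReal.ofReal_mul hk2]
        exact ENNReal.ofReal_le_ofReal (h1 s)
    _ = ENNReal.ofReal (3 / 2 / k) * ∫⁻ s in Icc c (c + 2 * π),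
        ENNReal.ofReal (exp (-(k / 2 * (1 - cos (θ + s))))) :=
        lintegral_const_mul' _ _ ENNReal.ofReal_ne_top
    _ ≤ ENNReal.ofReal (3 / 2 / k) * ENNReal.ofReal √(π ^ (3 : ℕ) / (2 * (k / 2))) :=
        mul_le_mul_right (period_cos (by positivity)) _
    _ = ENNReal.ofReal (3 / 2 / k * √(π ^ (3 : ℕ) / k)) := by
        rw [← ENNReal.ofReal_mul hk2]
        congr 4
        ring

/-! ## one-sided integrals -/

private theorem fac_le {lam P : ℝ} (hl : 1 / 2 ≤ lam) (hP : 0 ≤ P) :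
    P / (1 - exp (-(2 * π * lam))) ≤ 20 / 19 * P := by
  have hπ := pi_gt_three
  have h1 : exp (-(2 * π * lam)) ≤ 1 / 20 := by
    have h2 : exp (-(2 * π * lam)) ≤ exp (-3) := exp_le_exp.2 (by nlinarith)
    refine h2.trans ?_
    rw [exp_neg, inv_le_comm₀ (exp_pos _) (by norm_num)]
    have h3 := Real.exp_one_gt_d9
    have h4 : exp 3 = exp 1 ^ (3 : ℕ) := by
      rw [← exp_nat_mul]
      norm_num
    rw [h4]
    have h5 : (2.7182818283 : ℝ) ^ (3 : ℕ) ≤ exp 1 ^ (3 : ℕ) := pow_le_pow_left₀ (by norm_num) h3.le 3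
    refine le_trans ?_ h5
    norm_num
  rw [div_le_iff₀ (by linarith only [h1])]
  nlinarith

theorem far_J0 {lam c θ k : ℝ} (hl : 1 / 2 ≤ lam) (hk : 0 < k) :
    ∫⁻ s in Ici c, ENNReal.ofReal (exp (-(lam * (s - c))) * exp (-(k * (1 - cos (θ + s))))) ≤
      ENNReal.ofReal (20 / 19 * √(π ^ (3 : ℕ) / (2 * k))) := by
  refine (period_lint (M := 1) (by linarith only [hl]) (sqrt_nonneg _) (fun s => (exp_pos _).le) (fun s => ?_)
    (fun s => ?_) (period_cos hk)).trans (ENNReal.ofReal_le_ofReal (fac_le hl (sqrt_nonneg _)))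
  · refine exp_le_one_iff.2 ?_
    have h1 := cos_le_one (θ + s)
    have : 0 ≤ k * (1 - cos (θ + s)) := mul_nonneg hk.le (by linarith only [h1])
    linarith only [this]
  · rw [← add_assoc, cos_add_two_pi]

theorem far_J2 {lam c θ k : ℝ} (hl : 1 / 2 ≤ lam) (hk : 0 < k) :
    ∫⁻ s in Ici c, ENNReal.ofReal (exp (-(lam * (s - c))) *
        (2 * (1 - cos (θ + s)) * exp (-(k * (1 - cos (θ + s)))))) ≤
      ENNReal.ofReal (20 / 19 * (3 / 2 / k * √(π ^ (3 : ℕ) / k))) := by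
  have h0 : 0 ≤ 3 / 2 / k * √(π ^ (3 : ℕ) / k) := by positivity
  have hc : ∀ s, 0 ≤ 1 - cos (θ + s) := fun s => by
    have := cos_le_one (θ + s)
    linarith only [this]
  refine (period_lint (M := 4) (by linarith only [hl]) h0
    (fun s => mul_nonneg (by linarith only [hc s]) (exp_pos _).le) (fun s => ?_)
    (fun s => ?_) (period_cos2 hk)).trans (ENNReal.ofReal_le_ofReal (fac_le hl h0))
  · have h1 := neg_one_le_cos (θ + s)
    have h2 : exp (-(k * (1 - cos (θ + s)))) ≤ 1 := by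
      refine exp_le_one_iff.2 ?_
      have := mul_nonneg hk.le (hc s)
      linarith only [this]
    have h3 := mul_le_mul (show 2 * (1 - cos (θ + s)) ≤ 4 by linarith only [h1]) h2 (exp_pos _).le
      (by norm_num)
    linarith only [h3]
  · rw [← add_assoc, cos_add_two_pi]

theorem far_comb {lam c θ k E a b : ℝ} {F : ℝ → ℝ} (hl : 1 / 2 ≤ lam) (hk : 0 < k) (hE : 0 ≤ E)
    (ha : 0 ≤ a) (hb : 0 ≤ b)
    (hF : ∀ s, c ≤ s → F s ≤ E * (exp (-(lam * (s - c))) * (a * exp (-(k * (1 - cos (θ + s)))) +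
      b * (2 * (1 - cos (θ + s)) * exp (-(k * (1 - cos (θ + s)))))))) :
    ∫⁻ s in Ici c, ENNReal.ofReal (F s) ≤
      ENNReal.ofReal (E * (a * (20 / 19 * √(π ^ (3 : ℕ) / (2 * k))) +
        b * (20 / 19 * (3 / 2 / k * √(π ^ (3 : ℕ) / k))))) := by
  have j0 := far_J0 (c := c) (θ := θ) hl hk
  have j2 := far_J2 (c := c) (θ := θ) hl hk
  set f0 : ℝ → ℝ := fun s => exp (-(lam * (s - c))) * exp (-(k * (1 - cos (θ + s)))) with hf0
  set f2 : ℝ → ℝ := fun s => exp (-(lam * (s - c))) *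
    (2 * (1 - cos (θ + s)) * exp (-(k * (1 - cos (θ + s))))) with hf2
  have p0 : ∀ s, 0 ≤ f0 s := fun s => mul_nonneg (exp_pos _).le (exp_pos _).le
  have p2 : ∀ s, 0 ≤ f2 s := fun s => by
    have := cos_le_one (θ + s)
    exact mul_nonneg (exp_pos _).le (mul_nonneg (by linarith only [this]) (exp_pos _).le)
  have m0 : Measurable fun s => ENNReal.ofReal (E * a) * ENNReal.ofReal (f0 s) := by
    have : Continuous f0 := by rw [hf0]; fun_prop
    exact this.measurable.ennreal_ofReal.const_mul _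
  calc ∫⁻ s in Ici c, ENNReal.ofReal (F s)
      ≤ ∫⁻ s in Ici c, (ENNReal.ofReal (E * a) * ENNReal.ofReal (f0 s) +
          ENNReal.ofReal (E * b) * ENNReal.ofReal (f2 s)) := by
        refine setLIntegral_mono' measurableSet_Ici fun s hs => ?_
        rw [← ENNReal.ofReal_mul (mul_nonneg hE ha), ← ENNReal.ofReal_mul (mul_nonneg hE hb),
          ← ENNReal.ofReal_add (mul_nonneg (mul_nonneg hE ha) (p0 s))
            (mul_nonneg (mul_nonneg hE hb) (p2 s))]
        refine ENNReal.ofReal_le_ofReal ((hF s hs).trans (le_of_eq ?_))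
        rw [hf0, hf2]
        ring
    _ = ENNReal.ofReal (E * a) * (∫⁻ s in Ici c, ENNReal.ofReal (f0 s)) +
          ENNReal.ofReal (E * b) * (∫⁻ s in Ici c, ENNReal.ofReal (f2 s)) := by
        rw [lintegral_add_left m0, lintegral_const_mul' _ _ ENNReal.ofReal_ne_top,
          lintegral_const_mul' _ _ ENNReal.ofReal_ne_top]
    _ ≤ ENNReal.ofReal (E * a) * ENNReal.ofReal (20 / 19 * √(π ^ (3 : ℕ) / (2 * k))) +
          ENNReal.ofReal (E * b) * ENNReal.ofReal (20 / 19 * (3 / 2 / k * √(π ^ (3 : ℕ) / k))) :=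
        add_le_add (mul_le_mul_right j0 _) (mul_le_mul_right j2 _)
    _ = _ := by
        rw [← ENNReal.ofReal_mul (mul_nonneg hE ha), ← ENNReal.ofReal_mul (mul_nonneg hE hb),
          ← ENNReal.ofReal_add (by (clear * - hE ha hk; positivity)) (by (clear * - hE hb hk; positivity))]
        congr 1
        ring

private theorem pi3_lt : π ^ (3 : ℕ) < 32 := by
  have h := Real.pi_lt_d2
  have h1 := pi_pos
  calc π ^ (3 : ℕ) < 3.15 ^ (3 : ℕ) := pow_lt_pow_left₀ h h1.le (by norm_num)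
    _ < 32 := by norm_num

private theorem sqrt_div_le {K q n : ℝ} (hq : 0 < q) (hn : 0 ≤ n) (h : K ≤ n ^ (2 : ℕ)) :
    √(K / q) ≤ n / √q := by
  have h1 : √(K / q) ≤ √(n ^ (2 : ℕ) / q) := Real.sqrt_le_sqrt (div_le_div_of_nonneg_right h hq.le)
  rwa [Real.sqrt_div (sq_nonneg n), Real.sqrt_sq hn] at h1

/-- `s² e^(-2(s-c)/c) ≤ c²` -/
private theorem sq_far {s c : ℝ} (hc : 0 < c) (hs : c ≤ s) :
    s ^ (2 : ℕ) ≤ c ^ (2 : ℕ) * exp (2 / c * (s - c)) := by
  have h1 := add_one_le_exp ((s - c) / c)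
  have h2 : s / c ≤ exp ((s - c) / c) := by
    have e : s / c = (s - c) / c + 1 := by
      field_simp
      ring
    rw [e]
    exact h1
  have h3 : (s / c) ^ (2 : ℕ) ≤ exp ((s - c) / c) ^ (2 : ℕ) :=
    pow_le_pow_left₀ (div_nonneg (hc.le.trans hs) hc.le) h2 2
  have h4 : exp ((s - c) / c) ^ (2 : ℕ) = exp (2 / c * (s - c)) := by
    rw [← exp_nat_mul]
    congr 1
    push_cast
    ring
  rw [h4, div_pow, div_le_iff₀ (by positivity)] at h3
  linarith only [h3]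

private theorem lam_facts {q A c : ℝ} (hc : 4 ≤ c) (h1 : 1 ≤ q * A * c) :
    1 / 2 ≤ q * A * c - 2 / c ∧ q * A * c - 2 / c ≤ q * A * c := by
  have h2 : 2 / c ≤ 1 / 2 := by
    rw [div_le_iff₀ (by linarith only [hc])]
    linarith only [hc]
  have h3 : 0 ≤ 2 / c := by positivity
  exact ⟨by linarith only [h1, h2], by linarith only [h3]⟩

theorem Wm_nonneg' (m θ s : ℝ) : 0 ≤ Wm m θ 1 s := by
  unfold Wm
  positivity

/-- FAR ZONE, right: all `s ≥ c`, any `θ`, `w = 1`. -/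
theorem farR {q m ρ θ c A E : ℝ} (hq : 0 < q) (hρ : 0 < ρ) (hm : ρ ≤ m) (hc : 4 ≤ c)
    (hA : A = AR m ρ c) (h1 : 1 ≤ q * A * c) (hE : E = exp (-(q * (A * c ^ (2 : ℕ))))) :
    Zone q m ρ θ 1 (Ici c) (8 * E / √q) ((24 * (c / m) ^ (2 : ℕ) / √q + 54 / (q * √q)) * E)
      (22 * E / √q) := by
  have hm0 : 0 < m := hρ.trans_le hm
  have hc0 : 0 < c := by linarith only [hc]
  obtain ⟨hl, hl2⟩ := lam_facts hc h1
  have hE0 : 0 < E := by rw [hE]; exact exp_pos _
  have hsq : 0 < √q := Real.sqrt_pos.2 hq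
  -- pointwise
  have hD : ∀ s, c ≤ s → exp (-(q * Dm m ρ θ s)) ≤
      E * (exp (-(q * A * c * (s - c))) * exp (-(q * (1 - cos (θ + s))))) := by
    intro s hs
    rw [hE, ← exp_add, ← exp_add]
    refine exp_le_exp.2 ?_
    have e1 := Qm_ray_right hρ hm hc0 hs
    have e2 := Qm_AR hρ hm hc0.le le_rfl hc0
    rw [← hA] at e2
    have e3 : A * c ^ (2 : ℕ) * (s / c) ≤ Qm m ρ s :=
      (mul_le_mul_of_nonneg_right e2 (div_nonneg (hc0.le.trans hs) hc0.le)).trans e1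
    have e4 : A * c ^ (2 : ℕ) * (s / c) = A * c ^ (2 : ℕ) + A * c * (s - c) := by
      field_simp
      ring
    have e5 : 1 ≤ exp (pm m s) := one_le_exp (pm_nonneg hm0 (by linarith only [hc0, hs]))
    have e6 : 0 ≤ 1 - cos (θ + s) := by
      have := cos_le_one (θ + s)
      linarith only [this]
    have e7 : 1 - cos (θ + s) ≤ exp (pm m s) * (1 - cos (θ + s)) := le_mul_of_one_le_left e6 e5
    have e8 : A * c ^ (2 : ℕ) + A * c * (s - c) + (1 - cos (θ + s)) ≤ Dm m ρ θ s := by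
      rw [Dm_eq]
      linarith only [e3, e4, e7]
    have e9 := mul_le_mul_of_nonneg_left e8 hq.le
    linarith only [e9]
  have hX : ∀ s, c ≤ s → exp (-(q * A * c * (s - c))) ≤ exp (-((q * A * c - 2 / c) * (s - c))) := by
    intro s hs
    refine exp_le_exp.2 ?_
    have := mul_le_mul_of_nonneg_right hl2 (show 0 ≤ s - c by linarith only [hs])
    linarith only [this]
  have hXs : ∀ s, c ≤ s → s ^ (2 : ℕ) * exp (-(q * A * c * (s - c))) ≤
      c ^ (2 : ℕ) * exp (-((q * A * c - 2 / c) * (s - c))) := by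
    intro s hs
    have h2 := mul_le_mul_of_nonneg_right (sq_far hc0 hs) (exp_pos (-(q * A * c * (s - c)))).le
    refine h2.trans (le_of_eq ?_)
    rw [mul_assoc, ← exp_add]
    congr 2
    ring
  have s0 : √(π ^ (3 : ℕ) / (2 * q)) ≤ 4 / √q := by
    have e : π ^ (3 : ℕ) / (2 * q) = π ^ (3 : ℕ) / 2 / q := by
      field_simp
    rw [e]
    exact sqrt_div_le hq (by norm_num) (by linarith only [pi3_lt])
  have s2 : √(π ^ (3 : ℕ) / q) ≤ 6 / √q := sqrt_div_le hq (by norm_num) (by linarith only [pi3_lt])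
  have he1 : exp 1 ≤ 2.7182818286 := Real.exp_one_lt_d9.le
  have hpe : ∀ s : ℝ, exp (pm m s) ≤ exp 1 := fun s =>
    exp_le_exp.2 ((le_abs_self _).trans (pm_mem m s))
  refine ⟨?_, ?_, ?_⟩
  · refine (far_comb (θ := θ) (k := q) (E := E) (a := 1) (b := 0) hl hq hE0.le zero_le_one le_rfl
      fun s hs => ?_).trans (ENNReal.ofReal_le_ofReal ?_)
    · refine (hD s hs).trans (mul_le_mul_of_nonneg_left ?_ hE0.le)
      have := mul_le_mul_of_nonneg_right (hX s hs) (exp_pos (-(q * (1 - cos (θ + s))))).le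
      linarith only [this]
    · have h5 : E * (1 * (20 / 19 * √(π ^ (3 : ℕ) / (2 * q)))) ≤ E * (8 / √q) := by
        refine mul_le_mul_of_nonneg_left ?_ hE0.le
        have h6 : 20 / 19 * (4 / √q) ≤ 8 / √q := by
          rw [← mul_div_assoc]
          exact div_le_div_of_nonneg_right (by norm_num) hsq.le
        linarith only [h6, mul_le_mul_of_nonneg_left s0 (show (0 : ℝ) ≤ 20 / 19 by norm_num)]
      have e : 8 * E / √q = E * (8 / √q) := by ring
      rw [e]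
      linarith only [h5]
  · have hF : ∀ s, c ≤ s → Wm m θ 1 s * exp (-(q * Dm m ρ θ s)) ≤
        E * (exp (-((q * A * c - 2 / c) * (s - c))) * (3 / m ^ (2 : ℕ) * c ^ (2 : ℕ) *
          exp (-(q * (1 - cos (θ + s)))) + exp 1 * (2 * (1 - cos (θ + s)) *
          exp (-(q * (1 - cos (θ + s))))))) := by
      intro s hs
      have hs0 : 0 ≤ s := by linarith only [hc0, hs]
      have e6 : 0 ≤ 1 - cos (θ + s) := by
        have := cos_le_one (θ + s)
        linarith only [this]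
      have hW : Wm m θ 1 s ≤ 3 / m ^ (2 : ℕ) * s ^ (2 : ℕ) + exp 1 * (2 * (1 - cos (θ + s))) := by
        rw [Wm_one]
        have hp0 : 0 ≤ pm m s := pm_nonneg hm0 hs0
        have hp := pm_le hm0 hs0
        have hp1 : pm m s ≤ 1 := (le_abs_self _).trans (pm_mem m s)
        have g1 := eS_ge hp0 hp1 one_pos
        have hS : eS 1 = exp 1 - 1 := by
          unfold eS
          rw [div_one]
        have hS0 := eS_nonneg one_pos
        have he : 1 ≤ exp (pm m s) := one_le_exp hp0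
        have g2 : (exp (pm m s) - 1) ^ (2 : ℕ) ≤ (eS 1 * (s / m)) ^ (2 : ℕ) :=
          pow_le_pow_left₀ (by linarith only [he]) (g1.trans (mul_le_mul_of_nonneg_left hp hS0)) 2
        have g3 : (eS 1) ^ (2 : ℕ) ≤ 3 := by
          rw [hS]
          have : exp 1 - 1 ≤ 1.7182818286 := by linarith only [he1]
          have h0 : 0 ≤ exp 1 - 1 := by
            rw [← hS]
            exact hS0
          calc (exp 1 - 1) ^ (2 : ℕ) ≤ 1.7182818286 ^ (2 : ℕ) := pow_le_pow_left₀ h0 this 2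
            _ ≤ 3 := by norm_num
        have g4 : (eS 1 * (s / m)) ^ (2 : ℕ) ≤ 3 / m ^ (2 : ℕ) * s ^ (2 : ℕ) := by
          rw [mul_pow, div_pow]
          have : 0 ≤ s ^ (2 : ℕ) / m ^ (2 : ℕ) := by (clear * - hm0; positivity)
          have g5 := mul_le_mul_of_nonneg_right g3 this
          refine g5.trans (le_of_eq ?_)
          ring
        have g6 := mul_le_mul_of_nonneg_right (hpe s) (show 0 ≤ 2 * (1 - cos (θ + s)) by linarith only [e6])
        linarith only [g2, g4, g6]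
      have hX0 := hX s hs
      have hXs0 := hXs s hs
      have hx := exp_pos (-(q * A * c * (s - c)))
      have hg := exp_pos (-(q * (1 - cos (θ + s))))
      have hW0 := Wm_nonneg' m θ s
      calc Wm m θ 1 s * exp (-(q * Dm m ρ θ s))
          ≤ (3 / m ^ (2 : ℕ) * s ^ (2 : ℕ) + exp 1 * (2 * (1 - cos (θ + s)))) *
            (E * (exp (-(q * A * c * (s - c))) * exp (-(q * (1 - cos (θ + s)))))) :=
            mul_le_mul hW (hD s hs) (exp_pos _).le (by (clear * - hm0 e6; positivity))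
        _ = E * ((3 / m ^ (2 : ℕ) * exp (-(q * (1 - cos (θ + s))))) *
              (s ^ (2 : ℕ) * exp (-(q * A * c * (s - c)))) +
            (exp 1 * (2 * (1 - cos (θ + s)) * exp (-(q * (1 - cos (θ + s)))))) *
              exp (-(q * A * c * (s - c)))) := by ring
        _ ≤ E * ((3 / m ^ (2 : ℕ) * exp (-(q * (1 - cos (θ + s))))) *
              (c ^ (2 : ℕ) * exp (-((q * A * c - 2 / c) * (s - c)))) +
            (exp 1 * (2 * (1 - cos (θ + s)) * exp (-(q * (1 - cos (θ + s)))))) *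
              exp (-((q * A * c - 2 / c) * (s - c)))) := by
            refine mul_le_mul_of_nonneg_left (add_le_add ?_ ?_) hE0.le
            · exact mul_le_mul_of_nonneg_left hXs0 (by positivity)
            · exact mul_le_mul_of_nonneg_left hX0
                (mul_nonneg (exp_pos _).le (mul_nonneg (by linarith only [e6]) hg.le))
        _ = _ := by ring
    refine (far_comb (θ := θ) (k := q) (E := E) (a := 3 / m ^ (2 : ℕ) * c ^ (2 : ℕ)) (b := exp 1) hl hq hE0.le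
      (by (clear * - hm0 hc; positivity)) (exp_pos _).le hF).trans (ENNReal.ofReal_le_ofReal ?_)
    have h3 : 3 / m ^ (2 : ℕ) * c ^ (2 : ℕ) * (20 / 19 * √(π ^ (3 : ℕ) / (2 * q))) ≤ 24 * (c / m) ^ (2 : ℕ) / √q := by
      have e : 24 * (c / m) ^ (2 : ℕ) / √q = 3 / m ^ (2 : ℕ) * c ^ (2 : ℕ) * (8 / √q) := by
        rw [div_pow]
        ring
      rw [e]
      refine mul_le_mul_of_nonneg_left ?_ (by (clear * - hm0 hc; positivity))
      have h6 : 20 / 19 * (4 / √q) ≤ 8 / √q := by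
        rw [← mul_div_assoc]
        exact div_le_div_of_nonneg_right (by norm_num) hsq.le
      linarith only [h6, mul_le_mul_of_nonneg_left s0 (show (0 : ℝ) ≤ 20 / 19 by norm_num)]
    have h4 : exp 1 * (20 / 19 * (3 / 2 / q * √(π ^ (3 : ℕ) / q))) ≤ 54 / (q * √q) := by
      have h5 : 3 / 2 / q * √(π ^ (3 : ℕ) / q) ≤ 3 / 2 / q * (6 / √q) :=
        mul_le_mul_of_nonneg_left s2 (by positivity)
      have e : 3 / 2 / q * (6 / √q) = 9 / (q * √q) := by
        field_simp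
        norm_num
      rw [e] at h5
      have h7 : 0 ≤ 9 / (q * √q) := by positivity
      calc exp 1 * (20 / 19 * (3 / 2 / q * √(π ^ (3 : ℕ) / q)))
          ≤ 3 * (20 / 19 * (9 / (q * √q))) := by
            refine mul_le_mul (by linarith only [he1]) (mul_le_mul_of_nonneg_left h5 (by norm_num))
              (by positivity) (by norm_num)
        _ = (540 / 19) / (q * √q) := by ring
        _ ≤ 54 / (q * √q) := div_le_div_of_nonneg_right (by norm_num) (by positivity)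
    have h5 := mul_le_mul_of_nonneg_left (add_le_add h3 h4) hE0.le
    rw [mul_comm _ E]
    exact h5
  · refine (far_comb (θ := θ) (k := q) (E := E) (a := exp 1) (b := 0) hl hq hE0.le (exp_pos _).le
      le_rfl fun s hs => ?_).trans (ENNReal.ofReal_le_ofReal ?_)
    · have h2 := mul_le_mul (hpe s) (hD s hs) (exp_pos _).le (exp_pos _).le
      refine h2.trans ?_
      have h3 := mul_le_mul_of_nonneg_right (hX s hs) (exp_pos (-(q * (1 - cos (θ + s))))).le
      have h4 := mul_le_mul_of_nonneg_left h3 (mul_nonneg (exp_pos 1).le hE0.le)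
      linarith only [h4]
    · have h6 : exp 1 * (20 / 19 * (4 / √q)) ≤ 22 / √q := by
        calc exp 1 * (20 / 19 * (4 / √q)) ≤ 3 * (20 / 19 * (4 / √q)) :=
              mul_le_mul_of_nonneg_right (by linarith only [he1]) (by positivity)
          _ = (240 / 19) / √q := by ring
          _ ≤ 22 / √q := div_le_div_of_nonneg_right (by norm_num) hsq.le
      have h7 := mul_le_mul_of_nonneg_left (mul_le_mul_of_nonneg_left s0
        (show (0 : ℝ) ≤ 20 / 19 by norm_num)) (exp_pos 1).le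
      have h8 := mul_le_mul_of_nonneg_left (h7.trans h6) hE0.le
      have e : 22 * E / √q = E * (22 / √q) := by ring
      rw [e]
      linarith only [h8]

/-- FAR ZONE, left: all `s ≤ -c`, any `θ`, `w = 1`. -/
theorem farL {q m ρ θ c A E : ℝ} (hq : 0 < q) (hρ : 0 < ρ) (hm : ρ ≤ m) (hc : 4 ≤ c)
    (hA : A = AL m ρ c) (h1 : 1 ≤ q * A * c) (hE : E = exp (-(q * (A * c ^ (2 : ℕ))))) :
    Zone q m ρ θ 1 (Iic (-c)) (8 * E / √q) ((8 * (c / m) ^ (2 : ℕ) / √q + 54 / (q * √q)) * E)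
      (8 * E / √q) := by
  have hm0 : 0 < m := hρ.trans_le hm
  have hc0 : 0 < c := by linarith only [hc]
  obtain ⟨hl, hl2⟩ := lam_facts hc h1
  have hE0 : 0 < E := by rw [hE]; exact exp_pos _
  have hsq : 0 < √q := Real.sqrt_pos.2 hq
  have hneg : ∀ F : ℝ → ENNReal, ∫⁻ s in Iic (-c), F s = ∫⁻ v in Ici c, F (-v) := fun F => by
    have h := lint_neg F (Iic (-c))
    have hs : (fun x : ℝ => -x) ⁻¹' Iic (-c) = Ici c := by
      ext x
      simp
    rw [hs] at h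
    exact h.symm
  have hcos : ∀ v : ℝ, cos (θ + -v) = cos (-θ + v) := fun v => by
    rw [← cos_neg]
    congr 1
    ring
  obtain ⟨k, hk⟩ : ∃ k, k = q * exp (-1) := ⟨_, rfl⟩
  have hk0 : 0 < k := by rw [hk]; positivity
  -- pointwise
  have hD : ∀ v, c ≤ v → exp (-(q * Dm m ρ θ (-v))) ≤
      E * (exp (-(q * A * c * (v - c))) * exp (-(k * (1 - cos (-θ + v))))) := by
    intro v hs
    rw [hE, ← exp_add, ← exp_add]
    refine exp_le_exp.2 ?_
    have e1 := Qm_ray_left hρ hm hc0 hs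
    have e2 := Qm_AL hρ hm hc0.le le_rfl hc0
    rw [← hA] at e2
    have e3 : A * c ^ (2 : ℕ) * (v / c) ≤ Qm m ρ (-v) :=
      (mul_le_mul_of_nonneg_right e2 (div_nonneg (hc0.le.trans hs) hc0.le)).trans e1
    have e4 : A * c ^ (2 : ℕ) * (v / c) = A * c ^ (2 : ℕ) + A * c * (v - c) := by
      field_simp
      ring
    have e5 : exp (-1) ≤ exp (pm m (-v)) := exp_le_exp.2 (le_max_left _ _)
    have e6 : 0 ≤ 1 - cos (-θ + v) := by
      have := cos_le_one (-θ + v)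
      linarith only [this]
    have e7 := mul_le_mul_of_nonneg_right e5 e6
    have e8 : A * c ^ (2 : ℕ) + A * c * (v - c) + exp (-1) * (1 - cos (-θ + v)) ≤ Dm m ρ θ (-v) := by
      rw [Dm_eq, hcos]
      linarith only [e3, e4, e7]
    have e9 := mul_le_mul_of_nonneg_left e8 hq.le
    rw [hk]
    linarith only [e9]
  have hX : ∀ v, c ≤ v → exp (-(q * A * c * (v - c))) ≤ exp (-((q * A * c - 2 / c) * (v - c))) := by
    intro s hs
    refine exp_le_exp.2 ?_
    have := mul_le_mul_of_nonneg_right hl2 (show 0 ≤ s - c by linarith only [hs])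
    linarith only [this]
  have hXs : ∀ s, c ≤ s → s ^ (2 : ℕ) * exp (-(q * A * c * (s - c))) ≤
      c ^ (2 : ℕ) * exp (-((q * A * c - 2 / c) * (s - c))) := by
    intro s hs
    have h2 := mul_le_mul_of_nonneg_right (sq_far hc0 hs) (exp_pos (-(q * A * c * (s - c)))).le
    refine h2.trans (le_of_eq ?_)
    rw [mul_assoc, ← exp_add]
    congr 2
    ring
  have he1 : exp 1 ≤ 2.7182818286 := Real.exp_one_lt_d9.le
  have hke : ∀ K : ℝ, K / k = K * exp 1 / q := fun K => by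
    rw [hk, exp_neg]
    field_simp
  have s0 : √(π ^ (3 : ℕ) / (2 * k)) ≤ 7 / √q := by
    have e : π ^ (3 : ℕ) / (2 * k) = π ^ (3 : ℕ) / 2 * exp 1 / q := by
      rw [← hke]
      field_simp
    rw [e]
    refine sqrt_div_le hq (by norm_num) ?_
    have h2 : π ^ (3 : ℕ) / 2 * exp 1 ≤ 16 * 2.7182818286 := by
      refine mul_le_mul (by linarith only [pi3_lt]) he1 (exp_pos _).le (by norm_num)
    refine h2.trans (by norm_num)
  have s2 : √(π ^ (3 : ℕ) / k) ≤ 19 / 2 / √q := by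
    rw [hke]
    refine sqrt_div_le hq (by norm_num) ?_
    have h2 : π ^ (3 : ℕ) * exp 1 ≤ 32 * 2.7182818286 := by
      refine mul_le_mul (by linarith only [pi3_lt]) he1 (exp_pos _).le (by norm_num)
    refine h2.trans (by norm_num)
  have h68 : 20 / 19 * √(π ^ (3 : ℕ) / (2 * k)) ≤ 8 / √q := by
    have h6 : 20 / 19 * (7 / √q) ≤ 8 / √q := by
      rw [← mul_div_assoc]
      exact div_le_div_of_nonneg_right (by norm_num) hsq.le
    linarith only [h6, mul_le_mul_of_nonneg_left s0 (show (0 : ℝ) ≤ 20 / 19 by norm_num)]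
  have hp0 : ∀ v : ℝ, c ≤ v → pm m (-v) ≤ 0 := fun v hv => pm_nonpos hm0 (by linarith only [hc0, hv])
  refine ⟨?_, ?_, ?_⟩
  · rw [hneg]
    refine (far_comb (θ := -θ) (k := k) (E := E) (a := 1) (b := 0)
      (F := fun v => exp (-(q * Dm m ρ θ (-v)))) hl hk0 hE0.le zero_le_one le_rfl
      fun s hs => ?_).trans (ENNReal.ofReal_le_ofReal ?_)
    · refine (hD s hs).trans (mul_le_mul_of_nonneg_left ?_ hE0.le)
      have := mul_le_mul_of_nonneg_right (hX s hs) (exp_pos (-(k * (1 - cos (-θ + s))))).le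
      linarith only [this]
    · have h5 := mul_le_mul_of_nonneg_left h68 hE0.le
      have e : 8 * E / √q = E * (8 / √q) := by ring
      rw [e]
      linarith only [h5]
  · have hF : ∀ s, c ≤ s → Wm m θ 1 (-s) * exp (-(q * Dm m ρ θ (-s))) ≤
        E * (exp (-((q * A * c - 2 / c) * (s - c))) * (1 / m ^ (2 : ℕ) * c ^ (2 : ℕ) *
          exp (-(k * (1 - cos (-θ + s)))) + 1 * (2 * (1 - cos (-θ + s)) *
          exp (-(k * (1 - cos (-θ + s))))))) := by
      intro s hs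
      have hs0 : 0 ≤ s := by linarith only [hc0, hs]
      have e6 : 0 ≤ 1 - cos (-θ + s) := by
        have := cos_le_one (-θ + s)
        linarith only [this]
      have hW : Wm m θ 1 (-s) ≤ 1 / m ^ (2 : ℕ) * s ^ (2 : ℕ) + 2 * (1 - cos (-θ + s)) := by
        rw [Wm_one, hcos]
        have hp := pm_ge hm0 hs0
        have he1 : exp (pm m (-s)) ≤ 1 := exp_le_one_iff.2 (hp0 s hs)
        have he0 := exp_pos (pm m (-s))
        have g1 := add_one_le_exp (pm m (-s))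
        have g2 : (exp (pm m (-s)) - 1) ^ (2 : ℕ) ≤ (s / m) ^ (2 : ℕ) := by
          rw [← neg_sq (exp (pm m (-s)) - 1)]
          exact pow_le_pow_left₀ (by linarith only [he1]) (by linarith only [hp, g1]) 2
        have e : 1 / m ^ (2 : ℕ) * s ^ (2 : ℕ) = (s / m) ^ (2 : ℕ) := by
          field_simp
        rw [e]
        have g3 := mul_le_mul_of_nonneg_right he1 e6
        linarith only [g2, g3]
      have hX0 := hX s hs
      have hXs0 := hXs s hs
      have hx := exp_pos (-(q * A * c * (s - c)))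
      have hg := exp_pos (-(k * (1 - cos (-θ + s))))
      have hW0 := Wm_nonneg' m θ (-s)
      calc Wm m θ 1 (-s) * exp (-(q * Dm m ρ θ (-s)))
          ≤ (1 / m ^ (2 : ℕ) * s ^ (2 : ℕ) + 2 * (1 - cos (-θ + s))) *
            (E * (exp (-(q * A * c * (s - c))) * exp (-(k * (1 - cos (-θ + s)))))) :=
            mul_le_mul hW (hD s hs) (exp_pos _).le (by (clear * - hm0 e6; positivity))
        _ = E * ((1 / m ^ (2 : ℕ) * exp (-(k * (1 - cos (-θ + s))))) *
              (s ^ (2 : ℕ) * exp (-(q * A * c * (s - c)))) +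
            (2 * (1 - cos (-θ + s)) * exp (-(k * (1 - cos (-θ + s))))) *
              exp (-(q * A * c * (s - c)))) := by ring
        _ ≤ E * ((1 / m ^ (2 : ℕ) * exp (-(k * (1 - cos (-θ + s))))) *
              (c ^ (2 : ℕ) * exp (-((q * A * c - 2 / c) * (s - c)))) +
            (2 * (1 - cos (-θ + s)) * exp (-(k * (1 - cos (-θ + s))))) *
              exp (-((q * A * c - 2 / c) * (s - c)))) := by
            refine mul_le_mul_of_nonneg_left (add_le_add ?_ ?_) hE0.le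
            · exact mul_le_mul_of_nonneg_left hXs0 (by positivity)
            · exact mul_le_mul_of_nonneg_left hX0 (mul_nonneg (by linarith only [e6]) hg.le)
        _ = _ := by ring
    rw [hneg]
    refine (far_comb (θ := -θ) (k := k) (E := E) (a := 1 / m ^ (2 : ℕ) * c ^ (2 : ℕ)) (b := 1)
      (F := fun v => Wm m θ 1 (-v) * exp (-(q * Dm m ρ θ (-v)))) hl hk0 hE0.le
      (by (clear * - hm0 hc; positivity)) zero_le_one hF).trans (ENNReal.ofReal_le_ofReal ?_)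
    have h3 : 1 / m ^ (2 : ℕ) * c ^ (2 : ℕ) * (20 / 19 * √(π ^ (3 : ℕ) / (2 * k))) ≤ 8 * (c / m) ^ (2 : ℕ) / √q := by
      have e : 8 * (c / m) ^ (2 : ℕ) / √q = 1 / m ^ (2 : ℕ) * c ^ (2 : ℕ) * (8 / √q) := by
        rw [div_pow]
        ring
      rw [e]
      exact mul_le_mul_of_nonneg_left h68 (by (clear * - hm0 hc; positivity))
    have h4 : 1 * (20 / 19 * (3 / 2 / k * √(π ^ (3 : ℕ) / k))) ≤ 54 / (q * √q) := by
      have hk3 : 3 / 2 / k ≤ 4.08 / q := by
        rw [hke]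
        exact div_le_div_of_nonneg_right (by linarith only [he1]) hq.le
      have h5 : 3 / 2 / k * √(π ^ (3 : ℕ) / k) ≤ 4.08 / q * (19 / 2 / √q) :=
        mul_le_mul hk3 s2 (Real.sqrt_nonneg _) (by positivity)
      have e : 4.08 / q * (19 / 2 / √q) = 38.76 / (q * √q) := by
        field_simp
        norm_num
      rw [e] at h5
      calc 1 * (20 / 19 * (3 / 2 / k * √(π ^ (3 : ℕ) / k)))
          ≤ 20 / 19 * (38.76 / (q * √q)) := by linarith only [h5]
        _ = 40.8 / (q * √q) := by ring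
        _ ≤ 54 / (q * √q) := div_le_div_of_nonneg_right (by norm_num) (by positivity)
    have h5 := mul_le_mul_of_nonneg_left (add_le_add h3 h4) hE0.le
    rw [mul_comm _ E]
    exact h5
  · rw [hneg]
    refine (far_comb (θ := -θ) (k := k) (E := E) (a := 1) (b := 0)
      (F := fun v => exp (pm m (-v)) * exp (-(q * Dm m ρ θ (-v)))) hl hk0 hE0.le zero_le_one
      le_rfl fun s hs => ?_).trans (ENNReal.ofReal_le_ofReal ?_)
    · have h2 := mul_le_mul (exp_le_one_iff.2 (hp0 s hs)) (hD s hs) (exp_pos _).le zero_le_one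
      refine h2.trans ?_
      have h3 := mul_le_mul_of_nonneg_right (hX s hs) (exp_pos (-(k * (1 - cos (-θ + s))))).le
      have h4 := mul_le_mul_of_nonneg_left h3 hE0.le
      linarith only [h4]
    · have h5 := mul_le_mul_of_nonneg_left h68 hE0.le
      have e : 8 * E / √q = E * (8 / √q) := by ring
      rw [e]
      linarith only [h5]

end SokamCen

end

/-! ### Lib_MP_af4de1_v3.CenImg -/

section
/-!
# CEN, zone Z4: the image (both halves, both sides), `w = 1`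

`t' = 2π - t`.  Left `θ = t`: `s` near `t'` (the right side of the path); right `θ = -t`: `s` near `-t'`.
`Zone.add_two_pi`, `Zone.sub_two_pi` : zones are `2π`-periodic in `θ`.
-/

set_option autoImplicit false

namespace SokamCen

open Real MeasureTheory Set

theorem Dm_two_pi (m ρ θ s : ℝ) : Dm m ρ (θ + 2 * π) s = Dm m ρ θ s := by
  unfold Dm
  rw [show θ + 2 * π + s = θ + s + 2 * π by ring, cos_add_two_pi]

theorem em_two_pi (m θ s : ℝ) : em m (θ + 2 * π) s = em m θ s := by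
  unfold em
  have e : ((pm m s : ℝ) : ℂ) + ((θ + 2 * π : ℝ) + s) * Complex.I =
      ((pm m s : ℝ) : ℂ) + (θ + s) * Complex.I + 2 * π * Complex.I := by
    push_cast
    ring
  rw [e, Complex.exp_add, Complex.exp_two_pi_mul_I, mul_one]

theorem Wm_two_pi (m θ : ℝ) (w : ℂ) (s : ℝ) : Wm m (θ + 2 * π) w s = Wm m θ w s := by
  unfold Wm
  rw [em_two_pi]

/-- zones are periodic -/
theorem Zone.add_two_pi {q m ρ θ : ℝ} {w : ℂ} {S : Set ℝ} {I0 IW Ie : ℝ}
    (h : Zone q m ρ θ w S I0 IW Ie) : Zone q m ρ (θ + 2 * π) w S I0 IW Ie := by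
  refine ⟨?_, ?_, ?_⟩
  · simp only [Dm_two_pi]
    exact h.i0
  · simp only [Dm_two_pi, Wm_two_pi]
    exact h.iW
  · simp only [Dm_two_pi]
    exact h.ie

theorem Zone.sub_two_pi {q m ρ θ : ℝ} {w : ℂ} {S : Set ℝ} {I0 IW Ie : ℝ}
    (h : Zone q m ρ θ w S I0 IW Ie) : Zone q m ρ (θ - 2 * π) w S I0 IW Ie := by
  have e1 : ∀ s, Dm m ρ (θ - 2 * π) s = Dm m ρ θ s := fun s => by
    have := Dm_two_pi m ρ (θ - 2 * π) s
    rw [sub_add_cancel] at this
    exact this.symm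
  have e2 : ∀ s, Wm m (θ - 2 * π) w s = Wm m θ w s := fun s => by
    have := Wm_two_pi m (θ - 2 * π) w s
    rw [sub_add_cancel] at this
    exact this.symm
  refine ⟨?_, ?_, ?_⟩
  · simp only [e1]
    exact h.i0
  · simp only [e1, e2]
    exact h.iW
  · simp only [e1]
    exact h.ie

/-! ## the half next to the path -/

/-- IMAGE, `θ = t`, `s ∈ [t' - 6/5, t']`, `t' = 2π - t`. -/
theorem imgL_main {q m ρ t t' : ℝ} (hq : 0 < q) (hρ : 0 < ρ) (hm : ρ ≤ m) (ht' : t' = 2 * π - t)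
    (h0 : 0 < t') :
    Zone q m ρ t 1 (SmR t') (gF q (AR m ρ t') (11 / 25) t' 0 1 0 0)
      (gF q (AR m ρ t') (11 / 25) t' 0 0 (eS (cT m t') ^ (2 : ℕ) / m ^ (2 : ℕ)) (exp (cT m t')))
      (exp (cT m t') * gF q (AR m ρ t') (11 / 25) t' 0 1 0 0) := by
  have h := (zmain_R' hq hρ hm h0 (win_all t')).add_two_pi
  have e : -t' + 2 * π = t := by rw [ht']; ring
  rwa [e] at h

/-- IMAGE, `θ = -t`, `s ∈ [-t', -(t' - 6/5)]`, `t' = 2π - t`; `B = 11/25 e^(-t'/m)`. -/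
theorem imgR_main {q m ρ t t' : ℝ} (hq : 0 < q) (hρ : 0 < ρ) (hm : ρ ≤ m) (ht' : t' = 2 * π - t)
    (h0 : 0 < t') {B l : ℝ} (hL : Lft m t' (11 / 25) B l) :
    Zone q m ρ (-t) 1 (SmL t') (gF q (AL m ρ t') B t' l 1 0 0)
      (gF q (AL m ρ t') B t' l 0 (1 / m ^ (2 : ℕ)) 1)
      (1 * gF q (AL m ρ t') B t' l 1 0 0) := by
  have h := (zmain_L' hq hρ hm h0 (win_all t') hL).sub_two_pi
  have e : t' - 2 * π = -t := by rw [ht']; ring
  rwa [e] at h

theorem pm_ge_one {m v : ℝ} : -1 ≤ pm m (-v) := le_max_left _ _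

theorem pm_ge_cT {m v t : ℝ} (hm : 0 < m) (hv : 0 ≤ v) (hvt : v ≤ t) : -cT m t ≤ pm m (-v) := by
  unfold cT
  rw [neg_le_iff_add_nonneg]
  rcases min_choice 1 (t / m) with h | h
  · rw [h]
    have := pm_ge_one (m := m) (v := v)
    linarith only [this]
  · rw [h]
    have h2 := pm_ge hm hv
    have h3 : v / m ≤ t / m := div_le_div_of_nonneg_right hvt hm.le
    linarith only [h2, h3]

/-- the factor `e^a` on the left with the clipped path -/
theorem lft_cT {m t β : ℝ} (hm : 0 < m) (hβ : 0 < β) : Lft m t β (β * exp (-cT m t)) 0 := by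
  refine ⟨by positivity, le_rfl, fun v hv hvt => ?_⟩
  have h1 := pm_ge_cT hm hv hvt
  have h2 := exp_le_exp.2 h1
  have h3 := mul_le_mul_of_nonneg_right h2 (show 0 ≤ β * (t - v) ^ (2 : ℕ) by positivity)
  linarith only [h3]

/-! ## the half behind -/

private theorem cos_img {t t' s : ℝ} (ht' : t' = 2 * π - t) : cos (t + s) = cos (s - t') := by
  rw [ht', show s - (2 * π - t) = t + s - 2 * π by ring, cos_sub_two_pi]

private theorem img_cos {z : ℝ} (h0 : 0 ≤ z) (h1 : z ≤ 6 / 5) : 11 / 25 * z ^ (2 : ℕ) ≤ 1 - cos z :=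
  (win_all z).2 z h0 le_rfl h1

private theorem img_half {c Z b K c0 c1 c2 J : ℝ} {F : ℝ → ℝ} (hb : 0 < b)
    (h0 : ∀ z : ℝ, 0 < z → 0 ≤ c0 + c1 * z + c2 * z ^ (2 : ℕ))
    (hF : ∀ z : ℝ, 0 < z → z ≤ Z → F (z + c) ≤ (c0 + c1 * z + c2 * z ^ (2 : ℕ)) * exp (-(b * z ^ (2 : ℕ))))
    (hJ : c0 * (√(π / b) / 2) + c1 * (1 / (2 * b)) + c2 * (√(π / b) / (4 * b)) ≤ J) (hK : K = c + Z) :
    ∫⁻ s in Icc c K, ENNReal.ofReal (F s) ≤ ENNReal.ofReal J := by
  have h1 : ∫⁻ s in Icc c K, ENNReal.ofReal (F s) = ∫⁻ s in Ioc c K, ENNReal.ofReal (F s) :=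
    setLIntegral_congr Ioc_ae_eq_Icc.symm
  have h2 : ∫⁻ s in Ioc c K, ENNReal.ofReal (F s) ≤
      ∫⁻ s in Ioi c, ENNReal.ofReal ((c0 + c1 * (s - c) + c2 * (s - c) ^ (2 : ℕ)) *
        exp (-(b * (s - c) ^ (2 : ℕ)))) := by
    refine le_trans (setLIntegral_mono' measurableSet_Ioc fun s hs => ENNReal.ofReal_le_ofReal ?_)
      (lintegral_mono_set fun s hs => hs.1)
    have h3 := hF (s - c) (by linarith only [hs.1]) (by linarith only [hK, hs.2])
    rwa [sub_add_cancel] at h3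
  rw [h1]
  refine h2.trans ?_
  rw [lint_Ioi]
  refine (half_le hb h0 fun z _ => ?_).trans (ENNReal.ofReal_le_ofReal hJ)
  rw [add_sub_cancel_right]

/-- IMAGE, behind, `θ = t`, `s ∈ [t', t' + 6/5]`. -/
theorem imgL_beh {q m ρ t t' Z b E : ℝ} (hq : 0 < q) (hρ : 0 < ρ) (hm : ρ ≤ m)
    (ht' : t' = 2 * π - t) (h0 : 0 < t') (hZ : Z = t' + 6 / 5) (hb : b = q * (AR m ρ Z + 11 / 25))
    (hE : E = exp (-(q * (AR m ρ Z * t' ^ (2 : ℕ))))) :
    Zone q m ρ t 1 (Icc t' Z) (E * (√(π / b) / 2))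
      (eS (cT m Z) ^ (2 : ℕ) / m ^ (2 : ℕ) * (t' ^ (2 : ℕ) * (E * (√(π / b) / 2)) + 2 * t' * (E * (1 / (2 * b))) +
        E * (√(π / b) / (4 * b))) + exp (cT m Z) * (E * (√(π / b) / (4 * b))))
      (exp (cT m Z) * (E * (√(π / b) / 2))) := by
  have hm0 : 0 < m := hρ.trans_le hm
  have hZ0 : 0 < Z := by rw [hZ]; linarith only [h0]
  have hA := AR_pos hρ hm hZ0
  have hb0 : 0 < b := by rw [hb]; positivity
  have hE0 : 0 < E := by rw [hE]; exact exp_pos _
  have hEx : ∀ z : ℝ, 0 < z → z ≤ 6 / 5 → exp (-(q * Dm m ρ t (z + t'))) ≤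
      E * exp (-(b * z ^ (2 : ℕ))) := by
    intro z hz hz1
    rw [hE, ← exp_add]
    refine exp_le_exp.2 ?_
    have e1 := Qm_AR hρ hm (show 0 ≤ z + t' by linarith only [h0, hz]) (show z + t' ≤ Z by linarith only [hZ, hz1]) hZ0
    have e2 := img_cos hz.le hz1
    have e3 : 1 ≤ exp (pm m (z + t')) := one_le_exp (pm_nonneg hm0 (by linarith only [h0, hz]))
    have e4 : 0 ≤ 1 - cos z := by
      have := cos_le_one z
      linarith only [this]
    have e5 : 1 - cos z ≤ exp (pm m (z + t')) * (1 - cos z) := le_mul_of_one_le_left e4 e3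
    have e6 : AR m ρ Z * t' ^ (2 : ℕ) + (AR m ρ Z + 11 / 25) * z ^ (2 : ℕ) ≤ Dm m ρ t (z + t') := by
      rw [Dm_eq, cos_img ht', add_sub_cancel_right]
      nlinarith only [e1, e2, e3, mul_pos (mul_pos hA hz) h0]
    have e7 := mul_le_mul_of_nonneg_left e6 hq.le
    rw [hb]
    linarith only [e7]
  have hS : MeasurableSet (Icc t' Z) := measurableSet_Icc
  have hk : 0 ≤ eS (cT m Z) ^ (2 : ℕ) / m ^ (2 : ℕ) := by positivity
  have hT := exp_pos (cT m Z)
  refine ⟨?_, ?_, ?_⟩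
  · refine img_half (c0 := E) (c1 := 0) (c2 := 0) hb0 (fun z _ => by linarith only [hE0])
      (fun z hz hz1 => ?_) (by linarith only []) hZ
    have := hEx z hz hz1
    linarith only [this]
  · refine img_half (c0 := E * (eS (cT m Z) ^ (2 : ℕ) / m ^ (2 : ℕ)) * t' ^ (2 : ℕ))
      (c1 := 2 * (E * (eS (cT m Z) ^ (2 : ℕ) / m ^ (2 : ℕ))) * t')
      (c2 := E * (eS (cT m Z) ^ (2 : ℕ) / m ^ (2 : ℕ) + exp (cT m Z))) hb0 (fun z hz => by positivity)
      (fun z hz hz1 => ?_) (le_of_eq ?_) hZ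
    · have h1 := hEx z hz hz1
      have h2 := Wm_one_R (θ := t) hm0 (show 0 ≤ z + t' by linarith only [h0, hz])
        (show z + t' ≤ Z by linarith only [hZ, hz1]) hZ0
      have h3 : Wm m t 1 (z + t') ≤ eS (cT m Z) ^ (2 : ℕ) / m ^ (2 : ℕ) * (z + t') ^ (2 : ℕ) +
          exp (cT m Z) * z ^ (2 : ℕ) := by
        rw [Wm_one]
        have hp0 : 0 ≤ pm m (z + t') := pm_nonneg hm0 (by linarith only [h0, hz])
        have hp := pm_le hm0 (show 0 ≤ z + t' by linarith only [h0, hz])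
        have hpT := pm_le_cT hm0 (show 0 ≤ z + t' by linarith only [h0, hz]) (show z + t' ≤ Z by linarith only [hZ, hz1])
        have hT0 : 0 < cT m Z := lt_min one_pos (div_pos hZ0 hm0)
        have he := exp_le_exp.2 hpT
        have he0 := exp_pos (pm m (z + t'))
        have g1 := eS_ge hp0 hpT hT0
        have hS := eS_nonneg hT0
        have he1 : 1 ≤ exp (pm m (z + t')) := one_le_exp hp0
        have g2 : (exp (pm m (z + t')) - 1) ^ (2 : ℕ) ≤ (eS (cT m Z) * ((z + t') / m)) ^ (2 : ℕ) :=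
          pow_le_pow_left₀ (by linarith only [he1]) (g1.trans (mul_le_mul_of_nonneg_left hp hS)) 2
        have e : eS (cT m Z) ^ (2 : ℕ) / m ^ (2 : ℕ) * (z + t') ^ (2 : ℕ) = (eS (cT m Z) * ((z + t') / m)) ^ (2 : ℕ) := by
          field_simp
        rw [e, cos_img ht', add_sub_cancel_right]
        have g3 := one_sub_cos_le z
        have g4 : 0 ≤ 1 - cos z := by
          have := cos_le_one z
          linarith only [this]
        linarith only [g2, mul_le_mul_of_nonneg_left g3 he0.le, mul_le_mul_of_nonneg_right he (sq_nonneg z)]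
      have h4 := mul_le_mul h3 h1 (exp_pos _).le (by positivity)
      refine h4.trans (le_of_eq ?_)
      ring
    · ring
  · refine img_half (c0 := exp (cT m Z) * E) (c1 := 0) (c2 := 0) hb0 (fun z _ => by linarith only [mul_pos hT hE0])
      (fun z hz hz1 => ?_) (by linarith only []) hZ
    have h1 := hEx z hz hz1
    have h2 := exp_le_exp.2 (pm_le_cT hm0 (show 0 ≤ z + t' by linarith only [h0, hz]) (show z + t' ≤ Z by linarith only [hZ, hz1]))
    have h3 := mul_le_mul h2 h1 (exp_pos _).le hT.le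
    refine h3.trans (le_of_eq ?_)
    ring

private theorem cos_img' {t t' z : ℝ} (ht' : t' = 2 * π - t) : cos (-t + -(z + t')) = cos z := by
  rw [ht', show -t + -(z + (2 * π - t)) = -(z + 2 * π) by ring, cos_neg, cos_add_two_pi]

/-- IMAGE, behind, `θ = -t`, `s ∈ [-(t' + 6/5), -t']`. -/
theorem imgR_beh {q m ρ t t' Z b E : ℝ} (hq : 0 < q) (hρ : 0 < ρ) (hm : ρ ≤ m)
    (ht' : t' = 2 * π - t) (h0 : 0 < t') (hZ : Z = t' + 6 / 5)
    (hb : b = q * (AL m ρ Z + 11 / 25 * exp (-cT m Z)))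
    (hE : E = exp (-(q * (AL m ρ Z * t' ^ (2 : ℕ))))) :
    Zone q m ρ (-t) 1 (Icc (-Z) (-t')) (E * (√(π / b) / 2))
      (1 / m ^ (2 : ℕ) * (t' ^ (2 : ℕ) * (E * (√(π / b) / 2)) + 2 * t' * (E * (1 / (2 * b))) +
        E * (√(π / b) / (4 * b))) + E * (√(π / b) / (4 * b)))
      (E * (√(π / b) / 2)) := by
  have hm0 : 0 < m := hρ.trans_le hm
  have hZ0 : 0 < Z := by rw [hZ]; linarith only [h0]
  have hA := AL_pos hρ hm hZ0
  have hb0 : 0 < b := by rw [hb]; positivity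
  have hE0 : 0 < E := by rw [hE]; exact exp_pos _
  have hEx : ∀ z : ℝ, 0 < z → z ≤ 6 / 5 → exp (-(q * Dm m ρ (-t) (-(z + t')))) ≤
      E * exp (-(b * z ^ (2 : ℕ))) := by
    intro z hz hz1
    rw [hE, ← exp_add]
    refine exp_le_exp.2 ?_
    have e1 := Qm_AL hρ hm (show 0 ≤ z + t' by linarith only [h0, hz]) (show z + t' ≤ Z by linarith only [hZ, hz1]) hZ0
    have e2 := img_cos hz.le hz1
    have e3 : exp (-cT m Z) ≤ exp (pm m (-(z + t'))) :=
      exp_le_exp.2 (pm_ge_cT hm0 (by linarith only [h0, hz]) (by linarith only [hZ, hz1]))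
    have e4 : 0 ≤ 1 - cos z := by
      have := cos_le_one z
      linarith only [this]
    have e5 := mul_le_mul_of_nonneg_right e3 e4
    have e5' := mul_le_mul_of_nonneg_left e2 (exp_pos (-cT m Z)).le
    have e6 : AL m ρ Z * t' ^ (2 : ℕ) + (AL m ρ Z + 11 / 25 * exp (-cT m Z)) * z ^ (2 : ℕ) ≤
        Dm m ρ (-t) (-(z + t')) := by
      rw [Dm_eq, cos_img' ht']
      linarith only [e1, e5, e5', mul_pos (mul_pos hA hz) h0]
    have e7 := mul_le_mul_of_nonneg_left e6 hq.le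
    rw [hb]
    linarith only [e7]
  have hk : 0 ≤ 1 / m ^ (2 : ℕ) := by positivity
  refine ⟨?_, ?_, ?_⟩
  · rw [lint_Icc_neg, neg_neg, neg_neg]
    refine img_half (F := fun v => exp (-(q * Dm m ρ (-t) (-v)))) (c0 := E) (c1 := 0) (c2 := 0) hb0
      (fun z _ => by linarith only [hE0]) (fun z hz hz1 => ?_) (by linarith only []) hZ
    have := hEx z hz hz1
    linarith only [this]
  · rw [lint_Icc_neg, neg_neg, neg_neg]
    refine img_half (F := fun v => Wm m (-t) 1 (-v) * exp (-(q * Dm m ρ (-t) (-v))))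
      (c0 := E * (1 / m ^ (2 : ℕ)) * t' ^ (2 : ℕ))
      (c1 := 2 * (E * (1 / m ^ (2 : ℕ))) * t')
      (c2 := E * (1 / m ^ (2 : ℕ) + 1)) hb0 (fun z hz => by positivity)
      (fun z hz hz1 => ?_) (le_of_eq ?_) hZ
    · have h1 := hEx z hz hz1
      have h3 : Wm m (-t) 1 (-(z + t')) ≤ 1 / m ^ (2 : ℕ) * (z + t') ^ (2 : ℕ) + z ^ (2 : ℕ) := by
        rw [Wm_one, cos_img' ht']
        have hp0 : pm m (-(z + t')) ≤ 0 := pm_nonpos hm0 (by linarith only [h0, hz])
        have hp := pm_ge hm0 (show 0 ≤ z + t' by linarith only [h0, hz])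
        have he1 : exp (pm m (-(z + t'))) ≤ 1 := exp_le_one_iff.2 hp0
        have he0 := exp_pos (pm m (-(z + t')))
        have g1 := add_one_le_exp (pm m (-(z + t')))
        have g2 : (exp (pm m (-(z + t'))) - 1) ^ (2 : ℕ) ≤ ((z + t') / m) ^ (2 : ℕ) := by
          rw [← neg_sq (exp (pm m (-(z + t'))) - 1)]
          exact pow_le_pow_left₀ (by linarith only [he1]) (by linarith only [hp, g1]) 2
        have e : 1 / m ^ (2 : ℕ) * (z + t') ^ (2 : ℕ) = ((z + t') / m) ^ (2 : ℕ) := by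
          field_simp
        rw [e]
        have g3 := one_sub_cos_le z
        have g4 : 0 ≤ 1 - cos z := by
          have := cos_le_one z
          linarith only [this]
        nlinarith only [he1, he0, g2, g3]
      have h4 := mul_le_mul h3 h1 (exp_pos _).le (by positivity)
      refine h4.trans (le_of_eq ?_)
      ring
    · ring
  · rw [lint_Icc_neg, neg_neg, neg_neg]
    refine img_half (F := fun v => exp (pm m (-v)) * exp (-(q * Dm m ρ (-t) (-v)))) (c0 := E) (c1 := 0)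
      (c2 := 0) hb0 (fun z _ => by linarith only [hE0]) (fun z hz hz1 => ?_) (by linarith only []) hZ
    have h1 := hEx z hz hz1
    have h2 : exp (pm m (-(z + t'))) ≤ 1 := exp_le_one_iff.2 (pm_nonpos hm0 (by linarith only [h0, hz]))
    have h3 := mul_le_mul h2 h1 (exp_pos _).le zero_le_one
    refine h3.trans (le_of_eq ?_)
    ring

end SokamCen

end

/-! ### Lib_MP_af4de1_v3.BrR1 -/

section
namespace SokamCen
end SokamCen
/-!
# BRIDGE, right side, main part: closed forms of `CenDef` times `PF` = scaled forms of `CelRM`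

`s = √R`, `c = 1/s`, `ν = ρ/s`, `m = μ s`, `t = (1+τ) h`, `Γ = r h²/R`, `κ = kk τ (h c)`.
-/

set_option autoImplicit false

namespace SokamCel

open Real SokamCen

/-- the prefactor in scaled variables -/
noncomputable def PS (r ρ s g q τ Γ μ : ℝ) : ℝ :=
  √(r / (2 * π * ρ)) * √(q * s) * exp (g / 2 * (Γ * τ ^ (2 : ℕ))) * √(1 + 1 / (μ * s) ^ (2 : ℕ))

theorem min_inv_max {m t : ℝ} (hm : 0 < m) (ht : 0 < t) : min 1 (m / t) = 1 / max 1 (t / m) := by
  rcases le_total (t / m) 1 with h | h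
  · rw [max_eq_left h, min_eq_left, div_one]
    rw [div_le_one hm] at h
    rwa [le_div_iff₀ ht, one_mul]
  · rw [max_eq_right h, min_eq_right, one_div_div]
    rw [one_le_div hm] at h
    rwa [div_le_one ht]

theorem AR_eq {ρ s μ t : ℝ} (hρ : 0 < ρ) (hs : 0 < s) (hμ : 0 < μ) (ht : 0 < t) :
    AR (μ * s) ρ t = Ra μ (ρ / s) (t / (μ * s)) * (1 / s) ^ (2 : ℕ) / (ρ / s) := by
  have hm : 0 < μ * s := mul_pos hμ hs
  have hM : 0 < max 1 (t / (μ * s)) := lt_max_of_lt_left one_pos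
  unfold AR
  rw [min_inv_max hm ht]
  unfold aR cT Ra sS
  set T := min 1 (t / (μ * s)) with hT
  field_simp

theorem Ra_pos {μ ν T : ℝ} (hμ : 1 ≤ μ) (hν0 : 0 < ν) (hν : ν ≤ 1) (hT : 0 < T) : 0 < Ra μ ν T := by
  unfold Ra
  have hM : 0 < max 1 T := lt_max_of_lt_left one_pos
  have h1 : sS (min 1 T) ≤ 23 / 16 := sS_le hT.le
  have h2 : 0 < sS (min 1 T) := by
    have h3 : 0 < min 1 T := lt_min one_pos hT
    unfold sS
    positivity
  have h4 : ν * sS (min 1 T) ≤ 1 * (23 / 16) := mul_le_mul hν h1 h2.le zero_le_one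
  have h5 : 0 < μ - ν * sS (min 1 T) / 2 := by linarith
  positivity

/-- data -/
structure Dat (r ρ s h τ Γ : ℝ) : Prop where
  r0 : 0 < r
  ρ0 : 0 < ρ
  s0 : 0 < s
  s2 : s ^ (2 : ℕ) = 1 + ρ ^ (2 : ℕ)
  h0 : 0 < h
  τ0 : 0 ≤ τ
  G : Γ = r * h ^ (2 : ℕ) / s ^ (2 : ℕ)

section

variable {r ρ s h τ Γ : ℝ} (D : Dat r ρ s h τ Γ)

include D

theorem Dat.ρs : ρ ≤ s := by
  have h1 := D.s2
  have h2 := D.s0
  have h3 := D.ρ0
  nlinarith

theorem Dat.ν0 : 0 < ρ / s := div_pos D.ρ0 D.s0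

theorem Dat.ν1 : ρ / s ≤ 1 := by
  rw [div_le_one D.s0]
  exact D.ρs

theorem Dat.t0 : 0 < (1 + τ) * h := mul_pos (by linarith [D.τ0]) D.h0

theorem Dat.Γ0 : 0 < Γ := by
  rw [D.G]
  have := D.r0
  have := D.h0
  have := D.s0
  positivity

theorem Dat.Te {μ : ℝ} (hμ : 0 < μ) : (1 + τ) * h * (1 / s) / μ = (1 + τ) * h / (μ * s) := by
  have := D.s0
  field_simp

theorem Dat.T0 {μ : ℝ} (hμ : 0 < μ) : 0 < (1 + τ) * h * (1 / s) / μ := by
  have h1 := D.t0
  have h2 := D.s0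
  positivity

/-- `A + B = Q/ν` -/
theorem Dat.AB {μ β : ℝ} (hμ : 0 < μ) :
    AR (μ * s) ρ ((1 + τ) * h) + β =
      RQ μ (1 / s) (ρ / s) ((1 + τ) * h * (1 / s) / μ) β / (ρ / s) := by
  have h1 := D.ρ0
  have h2 := D.s0
  rw [AR_eq D.ρ0 D.s0 hμ D.t0, ← D.Te hμ]
  unfold RQ
  field_simp

theorem Dat.RQ_pos {μ β : ℝ} (hμ : 1 ≤ μ) (hβ : 0 < β) :
    0 < RQ μ (1 / s) (ρ / s) ((1 + τ) * h * (1 / s) / μ) β := by
  have h1 := Ra_pos hμ D.ν0 D.ν1 (D.T0 (μ := μ) (by linarith))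
  have h2 := D.ν0
  have h3 := D.s0
  unfold RQ
  positivity

/-- prefactor times the full Gaussian -/
theorem Dat.PG {μ β g q : ℝ} (hμ : 1 ≤ μ) (hβ : 0 < β) (hq : 0 ≤ q) :
    PS r ρ s g q τ Γ μ * gG r (AR (μ * s) ρ ((1 + τ) * h)) β =
      RV μ q (1 / s) (ρ / s) ((1 + τ) * h * (1 / s) / μ) β * exp (g / 2 * (Γ * τ ^ (2 : ℕ))) := by
  have hμ0 : 0 < μ := by linarith
  have hQ := D.RQ_pos hμ hβ
  have h1 := D.ρ0
  have h2 := D.s0
  have h3 := D.r0
  have hpi := Real.pi_pos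
  unfold gG PS RV
  rw [D.AB hμ0]
  set Q := RQ μ (1 / s) (ρ / s) ((1 + τ) * h * (1 / s) / μ) β with hQd
  have e1 : √(r / (2 * π * ρ)) * √(q * s) * √(1 + 1 / (μ * s) ^ (2 : ℕ)) *
      √(π / (r * (Q / (ρ / s)))) = √(q * (1 + (1 / s) ^ (2 : ℕ) / μ ^ (2 : ℕ)) / (2 * Q)) := by
    rw [← Real.sqrt_mul (by positivity), ← Real.sqrt_mul (by positivity),
      ← Real.sqrt_mul (by positivity)]
    congr 1
    field_simp
  rw [← e1]
  ring

/-- exponent -/
theorem Dat.ex {μ β g : ℝ} (hμ : 1 ≤ μ) (hβ : 0 < β) :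
    exp (g / 2 * (Γ * τ ^ (2 : ℕ))) * exp (-(r * (AR (μ * s) ρ ((1 + τ) * h) * β * ((1 + τ) * h) ^ (2 : ℕ) /
      (AR (μ * s) ρ ((1 + τ) * h) + β) - 0))) =
      RX μ g (1 / s) (ρ / s) τ ((1 + τ) * h * (1 / s) / μ) β Γ := by
  have hμ0 : 0 < μ := by linarith
  have hA := Ra_pos hμ D.ν0 D.ν1 (D.T0 (μ := μ) hμ0)
  have hQ := D.RQ_pos hμ hβ
  have h1 := D.ρ0
  have h2 := D.s0
  have h3 := D.h0
  rw [← Real.exp_add, D.AB hμ0, AR_eq D.ρ0 D.s0 hμ0 D.t0, ← D.Te hμ0, D.G]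
  unfold RX Re0
  congr 1
  set T := (1 + τ) * h * (1 / s) / μ with hT
  unfold RQ at hQ ⊢
  set A := Ra μ (ρ / s) T with hAd
  have hQ' : A * (1 / s) ^ (2 : ℕ) + ρ / s * β ≠ 0 := hQ.ne'
  have e2 : (1 / s) ^ (2 : ℕ) / β + ρ / s / A = (A * (1 / s) ^ (2 : ℕ) + ρ / s * β) / (A * β) := by
    field_simp
  rw [e2]
  set QQ := A * (1 / s) ^ (2 : ℕ) + ρ / s * β with hQQ
  field_simp
  ring

/-- `(t - gv)/gG` -/
theorem Dat.gv {μ β : ℝ} (hμ : 1 ≤ μ) (hβ : 0 < β) :
    (1 + τ) * h - gv (AR (μ * s) ρ ((1 + τ) * h)) β ((1 + τ) * h) =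
      h * (1 / s) * Ro μ (1 / s) (ρ / s) τ ((1 + τ) * h * (1 / s) / μ) β := by
  have hμ0 : 0 < μ := by linarith
  have hA := Ra_pos hμ D.ν0 D.ν1 (D.T0 (μ := μ) hμ0)
  have hQ := D.RQ_pos hμ hβ
  have h1 := D.ρ0
  have h2 := D.s0
  have h3 := D.h0
  unfold SokamCen.gv Ro
  rw [D.AB hμ0]
  set T := (1 + τ) * h * (1 / s) / μ with hT
  unfold RQ at hQ ⊢
  set A := Ra μ (ρ / s) T with hAd
  set QQ := A * (1 / s) ^ (2 : ℕ) + ρ / s * β with hQQ
  have e3 : A = (QQ - ρ / s * β) * s ^ (2 : ℕ) := by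
    rw [hQQ]
    field_simp
    ring
  rw [e3]
  field_simp

theorem Dat.gvn {μ β : ℝ} (hμ : 1 ≤ μ) (hβ : 0 < β) :
    0 ≤ Ro μ (1 / s) (ρ / s) τ ((1 + τ) * h * (1 / s) / μ) β := by
  have hA := Ra_pos hμ D.ν0 D.ν1 (D.T0 (μ := μ) (by linarith))
  have hQ := D.RQ_pos hμ hβ
  have h2 := D.s0
  have h3 := D.τ0
  unfold Ro
  positivity

/-- `gs` -/
theorem Dat.gs {μ β : ℝ} (hμ : 1 ≤ μ) (hβ : 0 < β) :
    gs r (AR (μ * s) ρ ((1 + τ) * h)) β =
      (h * (1 / s)) ^ (2 : ℕ) * (ρ / s / (2 * Γ * RQ μ (1 / s) (ρ / s) ((1 + τ) * h * (1 / s) / μ) β)) := by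
  have hμ0 : 0 < μ := by linarith
  have hQ := D.RQ_pos hμ hβ
  have h1 := D.ρ0
  have h2 := D.s0
  have h3 := D.h0
  have h4 := D.r0
  have h5 := D.Γ0
  unfold SokamCen.gs
  have e : (2 : ℝ) * r * (AR (μ * s) ρ ((1 + τ) * h) + β) = 2 * r *
      (RQ μ (1 / s) (ρ / s) ((1 + τ) * h * (1 / s) / μ) β / (ρ / s)) := by rw [D.AB hμ0]
  rw [e, D.G]
  set Q := RQ μ (1 / s) (ρ / s) ((1 + τ) * h * (1 / s) / μ) β with hQd
  field_simp

theorem Dat.cTe {μ : ℝ} (hμ : 0 < μ) :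
    cT (μ * s) ((1 + τ) * h) = min 1 ((1 + τ) * h * (1 / s) / μ) := by
  rw [D.Te hμ]
  rfl

/-- truncation -/
theorem Dat.Pgr {μ β g q : ℝ} (hμ : 1 ≤ μ) (hβ : 0 < β) (hq : 0 ≤ q) :
    PS r ρ s g q τ Γ μ * (gr r (AR (μ * s) ρ ((1 + τ) * h)) β ((1 + τ) * h) *
      exp (-(r * (AR (μ * s) ρ ((1 + τ) * h) * β * ((1 + τ) * h) ^ (2 : ℕ) /
      (AR (μ * s) ρ ((1 + τ) * h) + β) - 0)))) =
      RV μ q (1 / s) (ρ / s) ((1 + τ) * h * (1 / s) / μ) β *
        RY μ g (1 / s) (ρ / s) τ ((1 + τ) * h * (1 / s) / μ) β Γ := by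
  have hμ0 : 0 < μ := by linarith
  have hQ := D.RQ_pos hμ hβ
  have hA := Ra_pos hμ D.ν0 D.ν1 (D.T0 (μ := μ) hμ0)
  have h1 := D.ρ0
  have h2 := D.s0
  have h3 := D.h0
  have h4 := D.r0
  have h5 := D.Γ0
  have hτ := D.τ0
  have hpi := Real.pi_pos
  have hPG := D.PG (g := g) (q := q) hμ hβ hq
  have hex := D.ex (g := g) hμ hβ
  have hgv := D.gv hμ hβ
  have hg0 : 0 < gG r (AR (μ * s) ρ ((1 + τ) * h)) β := by
    unfold gG
    rw [D.AB hμ0]
    have := D.ν0
    positivity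
  have hk : (1 + τ) * h - SokamCen.gv (AR (μ * s) ρ ((1 + τ) * h)) β ((1 + τ) * h) =
      gG r (AR (μ * s) ρ ((1 + τ) * h)) β * (√Γ * Rk μ (1 / s) (ρ / s) τ
        ((1 + τ) * h * (1 / s) / μ) β) := by
    rw [hgv]
    unfold gG Ro Rk
    rw [D.AB hμ0]
    set Q := RQ μ (1 / s) (ρ / s) ((1 + τ) * h * (1 / s) / μ) β with hQd
    set A := Ra μ (ρ / s) ((1 + τ) * h * (1 / s) / μ) with hAd
    have e1 : √(π / (r * (Q / (ρ / s)))) * √Γ = h * (1 / s) * √(π * (ρ / s) * Q) / Q := by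
      rw [← Real.sqrt_mul (by positivity), D.G]
      have e2 : π / (r * (Q / (ρ / s))) * (r * h ^ (2 : ℕ) / s ^ (2 : ℕ)) =
          (π * (ρ / s) * Q) * (h * (1 / s) / Q) ^ (2 : ℕ) := by
        field_simp
      rw [e2, Real.sqrt_mul (by positivity), Real.sqrt_sq (by positivity)]
      ring
    have e3 : 0 < √(π * (ρ / s) * Q) := Real.sqrt_pos.2 (by positivity)
    calc h * (1 / s) * ((1 + τ) * (A * (1 / s) / Q)) =
        (h * (1 / s) * √(π * (ρ / s) * Q) / Q) * ((1 + τ) * A * (1 / s) / √(π * (ρ / s) * Q)) := by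
          field_simp
      _ = _ := by
          rw [← e1]
          ring
  unfold gr
  rw [hk]
  set G := gG r (AR (μ * s) ρ ((1 + τ) * h)) β with hG
  set X := exp (-(r * (AR (μ * s) ρ ((1 + τ) * h) * β * ((1 + τ) * h) ^ (2 : ℕ) /
      (AR (μ * s) ρ ((1 + τ) * h) + β) - 0))) with hX
  set κ := √Γ * Rk μ (1 / s) (ρ / s) τ ((1 + τ) * h * (1 / s) / μ) β with hκ
  set V := RV μ q (1 / s) (ρ / s) ((1 + τ) * h * (1 / s) / μ) β with hV
  have hV0 : 0 ≤ V := Real.sqrt_nonneg _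
  have hX0 : 0 < X := exp_pos _
  unfold RY
  rw [← hex]
  have e4 : min (G / 2) (G * κ) = G * min (1 / 2) κ := by
    rw [mul_min_of_nonneg _ _ hg0.le]
    congr 1
    ring
  have hE0 : 0 < exp (g / 2 * (Γ * τ ^ (2 : ℕ))) := exp_pos _
  have e5 : min (exp (g / 2 * (Γ * τ ^ (2 : ℕ))) * X / 2) (√Γ * Rk μ (1 / s) (ρ / s) τ
      ((1 + τ) * h * (1 / s) / μ) β * (exp (g / 2 * (Γ * τ ^ (2 : ℕ))) * X)) =
      (exp (g / 2 * (Γ * τ ^ (2 : ℕ))) * X) * min (1 / 2) κ := by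
    rw [mul_min_of_nonneg _ _ (by positivity)]
    congr 1
    · ring
    · rw [hκ]
      ring
  rw [e4, e5]
  calc PS r ρ s g q τ Γ μ * (G * min (1 / 2) κ * X) =
      (PS r ρ s g q τ Γ μ * G) * (min (1 / 2) κ * X) := by ring
    _ = _ := by
      rw [hPG]
      ring

theorem Dat.PgG {μ β g q : ℝ} (hμ : 1 ≤ μ) (hβ : 0 < β) (hq : 0 ≤ q) :
    PS r ρ s g q τ Γ μ * (gG r (AR (μ * s) ρ ((1 + τ) * h)) β *
      exp (-(r * (AR (μ * s) ρ ((1 + τ) * h) * β * ((1 + τ) * h) ^ (2 : ℕ) /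
      (AR (μ * s) ρ ((1 + τ) * h) + β) - 0)))) =
      RV μ q (1 / s) (ρ / s) ((1 + τ) * h * (1 / s) / μ) β *
        RX μ g (1 / s) (ρ / s) τ ((1 + τ) * h * (1 / s) / μ) β Γ := by
  rw [← D.ex hμ hβ, ← mul_assoc, D.PG hμ hβ hq]
  ring

/-- main part, `m0` -/
theorem Dat.main0 {μ β g q : ℝ} (hμ : 1 ≤ μ) (hβ : 0 < β) (hq : 0 ≤ q) :
    PS r ρ s g q τ Γ μ * g0 r (AR (μ * s) ρ ((1 + τ) * h)) β ((1 + τ) * h) 0 =
      RM0 μ q g (1 / s) (ρ / s) h τ Γ β := by
  have e1 := D.PgG (g := g) (q := q) hμ hβ hq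
  have e2 := D.Pgr (g := g) (q := q) hμ hβ hq
  unfold g0 RM0
  linear_combination e1 / 2 + e2

/-- main part, weight -/
theorem Dat.mainW {μ β g q kk : ℝ} (hμ : 1 ≤ μ) (hβ : 0 < β) (hq : 0 ≤ q) :
    PS r ρ s g q τ Γ μ * gW r (AR (μ * s) ρ ((1 + τ) * h)) β ((1 + τ) * h) 0
      (exp (cT (μ * s) ((1 + τ) * h)) * (kk * τ * (h * (1 / s))) ^ (2 : ℕ))
      (SokamCen.eS (cT (μ * s) ((1 + τ) * h)) ^ (2 : ℕ) / (μ * s) ^ (2 : ℕ))
      (exp (cT (μ * s) ((1 + τ) * h)) * (1 + kk * τ * (h * (1 / s)))) =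
      (h * (1 / s)) ^ (2 : ℕ) * RMW μ q kk g (1 / s) (ρ / s) h τ Γ β := by
  have hμ0 : 0 < μ := by linarith
  have h2 := D.s0
  have h3 := D.h0
  have hρ := D.ρ0
  have h5 := D.Γ0
  have hpi := Real.pi_pos
  have hQ := D.RQ_pos hμ hβ
  have e1 := D.PgG (g := g) (q := q) hμ hβ hq
  have e2 := D.Pgr (g := g) (q := q) hμ hβ hq
  have hgv := D.gv hμ hβ
  have hgn := D.gvn hμ hβ
  have hgs := D.gs hμ hβ
  have hcT := D.cTe hμ0
  have hAB := D.AB (β := β) hμ0
  have hgv1 : SokamCen.gv (AR (μ * s) ρ ((1 + τ) * h)) β ((1 + τ) * h) =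
      (1 + τ) * h * (ρ / s * β / RQ μ (1 / s) (ρ / s) ((1 + τ) * h * (1 / s) / μ) β) := by
    unfold SokamCen.gv
    rw [hAB]
    field_simp
  have hsg : √(2 * (SokamCen.gs r (AR (μ * s) ρ ((1 + τ) * h)) β) / π) = (h * (1 / s)) *
      √(ρ / s / (π * Γ * RQ μ (1 / s) (ρ / s) ((1 + τ) * h * (1 / s) / μ) β)) := by
    rw [hgs]
    have e : 2 * ((h * (1 / s)) ^ (2 : ℕ) * (ρ / s / (2 * Γ * RQ μ (1 / s) (ρ / s)
        ((1 + τ) * h * (1 / s) / μ) β))) / π = (h * (1 / s)) ^ (2 : ℕ) *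
        (ρ / s / (π * Γ * RQ μ (1 / s) (ρ / s) ((1 + τ) * h * (1 / s) / μ) β)) := by
      field_simp
    rw [e, Real.sqrt_mul (by positivity), Real.sqrt_sq (by positivity)]
  unfold gW RMW
  rw [hsg, hgs, hgv, hgv1, hcT]
  unfold RF RG Rm1
  have hR1 : SokamCen.eS (min 1 ((1 + τ) * h * (1 / s) / μ)) = Re1 ((1 + τ) * h * (1 / s) / μ) := rfl
  rw [hR1]
  set Q := RQ μ (1 / s) (ρ / s) ((1 + τ) * h * (1 / s) / μ) β with hQd
  set T := (1 + τ) * h * (1 / s) / μ with hT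
  set V := RV μ q (1 / s) (ρ / s) T β with hV
  set o := Ro μ (1 / s) (ρ / s) τ T β with ho
  set X := exp (-(r * (AR (μ * s) ρ ((1 + τ) * h) * β * ((1 + τ) * h) ^ (2 : ℕ) /
      (AR (μ * s) ρ ((1 + τ) * h) + β) - 0))) with hX
  set G := gG r (AR (μ * s) ρ ((1 + τ) * h)) β with hG
  set P := PS r ρ s g q τ Γ μ with hP
  set S := √(ρ / s / (π * Γ * Q)) with hS
  have hX0 : 0 ≤ X := (exp_pos _).le
  have hP0 : 0 ≤ P := by rw [hP]; unfold PS; positivity
  have hV0 : 0 ≤ V := Real.sqrt_nonneg _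
  set RXX := RX μ g (1 / s) (ρ / s) τ T β Γ with hRX
  set RYY := RY μ g (1 / s) (ρ / s) τ T β Γ with hRY
  set gg := gr r (AR (μ * s) ρ ((1 + τ) * h)) β ((1 + τ) * h) with hgg
  set E := exp (min 1 T) with hE
  set K := kk * τ * (h * (1 / s)) with hK
  set e1' := Re1 T with he1
  -- push everything into the minimum
  have step : ∀ a b : ℝ, P * (min a b * X) = min (P * (a * X)) (P * (b * X)) := fun a b => by
    rw [min_mul_of_nonneg _ _ hX0, mul_min_of_nonneg _ _ hP0]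
  have step2 : ∀ a b : ℝ, (h * (1 / s)) ^ (2 : ℕ) * (V * min a b) =
      min ((h * (1 / s)) ^ (2 : ℕ) * (V * a)) ((h * (1 / s)) ^ (2 : ℕ) * (V * b)) := fun a b => by
    rw [mul_min_of_nonneg _ _ hV0, mul_min_of_nonneg _ _ (by positivity)]
  rw [step, step2]
  congr 1
  · have key : ∀ w w' : ℝ, w = (h * (1 / s)) ^ (2 : ℕ) * w' → P * (G * w * X) =
        (h * (1 / s)) ^ (2 : ℕ) * (V * (RXX * w')) := fun w w' hw => by
      rw [hw]
      linear_combination ((h * (1 / s)) ^ (2 : ℕ) * w') * e1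
    refine key _ _ ?_
    rw [hK]
    field_simp
  · have key : ∀ w w' z z' : ℝ, w = (h * (1 / s)) ^ (2 : ℕ) * w' → z = (h * (1 / s)) ^ (2 : ℕ) * z' →
        P * ((G / 2 * w + gg * z) * X) =
        (h * (1 / s)) ^ (2 : ℕ) * (V * (RXX / 2 * w' + RYY * z')) := fun w w' z z' hw hz => by
      rw [hw, hz]
      linear_combination ((h * (1 / s)) ^ (2 : ℕ) * w' / 2) * e1 + ((h * (1 / s)) ^ (2 : ℕ) * z') * e2
    refine key _ _ _ _ ?_ ?_
    · rw [hK]
      field_simp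
    · rw [hK]
      field_simp

/-- main part, `e^a` -/
theorem Dat.mainE {μ β g q : ℝ} (hμ : 1 ≤ μ) (hβ : 0 < β) (hq : 0 ≤ q) :
    PS r ρ s g q τ Γ μ * (exp (cT (μ * s) ((1 + τ) * h)) *
      g0 r (AR (μ * s) ρ ((1 + τ) * h)) β ((1 + τ) * h) 0) = Γ * RMe μ q g (1 / s) (ρ / s) h τ Γ β := by
  have h5 := D.Γ0
  have e1 := D.main0 (g := g) (q := q) hμ hβ hq
  rw [D.cTe (by linarith : 0 < μ)]
  unfold RMe
  rw [← e1]
  field_simp

end

end SokamCel

end

/-! ### Lib_MP_af4de1_v3.CenF -/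

section
/-! # CEN: the hypotheses `Win`, `Lft` and the change of the direction `w` -/

set_option autoImplicit false

namespace SokamCen

open Real MeasureTheory Set

/-- `(1 - cos u)/u²` decreases on `(0, π]`. -/
theorem win_small {t : ℝ} (h0 : 0 < t) (h1 : t ≤ 6 / 5) : Win ((1 - cos t) / t ^ (2 : ℕ)) t :=
  win_t h0 (by linarith [pi_gt_three])

theorem win_any (t : ℝ) : Win (11 / 25) t := win_all t

/-- `e^(-v/m) (t-v)² ≥ e^(-σt/m) ((t-v)² - (4/27) (1-σ)³ t³/m)`: `e^(-(v-σt)/m) ≥ 1 - (v-σt)/m`, and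
`x (L-x)² ≤ (4/27) L³` for `0 ≤ x ≤ L = (1-σ) t`. -/
theorem lft_small {m t β σ : ℝ} (hm : 0 < m) (ht : 0 < t) (_htm : t ≤ m) (hβ : 0 < β) (h0 : 0 ≤ σ)
    (h1 : σ ≤ 1) : Lft m t β (β * exp (-(σ * t / m)))
      (β * exp (-(σ * t / m)) * (4 / 27 * ((1 - σ) ^ (3 : ℕ) * t ^ (3 : ℕ) / m))) := by
  have h := lft_sigma hm ht.le hβ h0 h1
  have e1 : σ * (t / m) = σ * t / m := by ring
  rw [e1] at h
  have e2 : 4 / 27 * (1 - σ) ^ (3 : ℕ) * (t / m) * (β * exp (-(σ * t / m))) * t ^ (2 : ℕ) =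
      β * exp (-(σ * t / m)) * (4 / 27 * ((1 - σ) ^ (3 : ℕ) * t ^ (3 : ℕ) / m)) := by ring
  rwa [e2] at h

theorem lft_any {m t β : ℝ} (_hm : 0 < m) (_ht : 0 < t) (hβ : 0 < β) :
    Lft m t β (β * exp (-1)) 0 := by
  refine ⟨by positivity, le_rfl, fun v _ _ => ?_⟩
  have h1 : exp (-1) ≤ exp (pm m (-v)) := by
    refine exp_le_exp.2 ?_
    unfold pm
    exact le_max_left _ _
  have h2 := mul_le_mul_of_nonneg_right h1 (by positivity : 0 ≤ β * (t - v) ^ (2 : ℕ))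
  linarith

end SokamCen

end

/-! ### Lib_MP_af4de1_v3o.OZone -/

section
namespace SokamV3T
end SokamV3T
/-!
# Generic zones of the tails beyond `3/2`

`zoneB`: the lumps, `zoneL`: linear lower bound of the height, `zoneA`: the flat bound `(1 + ρ)/4` of the height.
-/

set_option autoImplicit false

open MeasureTheory Set SokamV3T

namespace SokamV3O

/-- the integrand of the lumps -/
noncomputable def zb (F m κ c0 s : ℝ) : ℝ :=
  Real.exp (-(F + m * (s - c0) + κ * (1 - Real.cos (s - c0))))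

theorem zb_pos (F m κ c0 s : ℝ) : 0 < zb F m κ c0 s := Real.exp_pos _

theorem continuous_zb (F m κ c0 : ℝ) : Continuous (zb F m κ c0) := by
  unfold zb
  fun_prop

theorem zb_add (F m κ c0 u : ℝ) : zb F m κ c0 (u + c0) = Real.exp (-F) * gl m κ u := by
  unfold zb gl
  rw [← Real.exp_add, add_sub_cancel_right]
  congr 1
  ring

theorem ii_zb {F m κ c0 : ℝ} (hm : 0 < m) (hκ : 0 ≤ κ) (c : ℝ) :
    IntegrableOn (zb F m κ c0) (Ioi c) := by
  refine (integrableOn_exp_mul_Ioi (a := -m) (by linarith only [hm]) c).const_mul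
    (Real.exp (-F + m * c0)) |>.mono' (continuous_zb F m κ c0).aestronglyMeasurable
    (Filter.Eventually.of_forall fun u => ?_)
  rw [Real.norm_of_nonneg (zb_pos _ _ _ _ _).le, ← Real.exp_add]
  refine Real.exp_le_exp.2 ?_
  have := mul_nonneg hκ (sub_nonneg.2 (Real.cos_le_one (u - c0)))
  linarith only [this]

/-- THE LUMPS: `exp (-F)` at `c0`, slope `m`, everything beyond `c0 - 3/2`. -/
theorem zoneB' {F m κ c0 : ℝ} (hm : 3 / 2 ≤ m) (hκ : 10 ≤ κ) :
    ∫ s in Ioi (c0 - 3 / 2), zb F m κ c0 s ≤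
      Real.exp (-F) * (29 / 20 + 2 * Real.exp (m ^ (2 : ℕ) / (4 / 5 * κ))) / √κ := by
  have hκ0 : 0 < κ := by linarith only [hκ]
  have hm0 : 0 < m := by linarith only [hm]
  have hs : 0 < √κ := Real.sqrt_pos.2 hκ0
  have e1 : ∫ s in Ioi (c0 - 3 / 2), zb F m κ c0 s =
      Real.exp (-F) * ∫ u in Ioi (-(3 / 2) : ℝ), gl m κ u := by
    have := shift_Ioi (zb F m κ c0) (-(3 / 2)) c0
    rw [show -(3 / 2) + c0 = c0 - 3 / 2 by ring] at this
    rw [this, ← integral_const_mul]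
    refine setIntegral_congr_fun measurableSet_Ioi fun u _ => ?_
    exact zb_add F m κ c0 u
  have e2 : ∫ u in Ioi (-(3 / 2) : ℝ), gl m κ u =
      (∫ u in Ioc (-(3 / 2) : ℝ) 0, gl m κ u) + ∫ u in Ioi (0 : ℝ), gl m κ u := by
    conv_lhs => rw [← Ioc_union_Ioi_eq_Ioi (show (-(3 / 2) : ℝ) ≤ 0 by norm_num)]
    exact setIntegral_union (Ioc_disjoint_Ioi le_rfl) measurableSet_Ioi
      (continuous_gl m κ).integrableOn_Ioc (ii_gl hm0 hκ0.le 0)
  have e3 : ∫ u in Ioc (-(3 / 2) : ℝ) 0, gl m κ u ≤ 2 * Real.exp (m ^ (2 : ℕ) / (4 / 5 * κ)) / √κ := by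
    have h3 : ∫ u in Ioc (-(3 / 2) : ℝ) 0, gl m κ u =
        ∫ u in Ioc (0 : ℝ) (3 / 2), Real.exp (m * u - κ * (1 - Real.cos u)) := by
      rw [← intervalIntegral.integral_of_le (by norm_num),
        ← intervalIntegral.integral_of_le (by norm_num)]
      have := intervalIntegral.integral_comp_neg (a := 0) (b := 3 / 2) (gl m κ)
      rw [neg_zero] at this
      rw [← this]
      refine intervalIntegral.integral_congr fun u _ => ?_
      unfold gl
      simp only [Real.cos_neg]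
      congr 1
      ring
    rw [h3]
    exact lump_left hκ0 le_rfl
  have e4 := lump_right hm hκ
  rw [e1, e2]
  set E := Real.exp (m ^ (2 : ℕ) / (4 / 5 * κ)) with hE
  have hF := Real.exp_pos (-F)
  have h7 : (∫ u in Ioc (-(3 / 2) : ℝ) 0, gl m κ u) + ∫ u in Ioi (0 : ℝ), gl m κ u ≤
      (29 / 20 + 2 * E) / √κ := by
    calc _ ≤ 2 * E / √κ + 29 / 20 / √κ := by linarith only [e4, e3]
      _ = (29 / 20 + 2 * E) / √κ := by ring
  calc _ ≤ Real.exp (-F) * ((29 / 20 + 2 * E) / √κ) := mul_le_mul_of_nonneg_left h7 hF.le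
    _ = _ := by ring

theorem zoneB {F m κ c0 : ℝ} (hm : 3 / 2 ≤ m) (hκ : 10 ≤ κ) :
    ∫ s in Ioi (c0 - 3 / 2), zb F m κ c0 s ≤
      69 / 20 * Real.exp (-F + m ^ (2 : ℕ) / (4 / 5 * κ)) / √κ := by
  have hκ0 : 0 < κ := by linarith only [hκ]
  have hs : 0 < √κ := Real.sqrt_pos.2 hκ0
  refine (zoneB' hm hκ).trans ?_
  rw [Real.exp_add]
  set E := Real.exp (m ^ (2 : ℕ) / (4 / 5 * κ)) with hE
  have hE1 : 1 ≤ E := by
    rw [hE]
    apply Real.one_le_exp
    positivity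
  have hF := Real.exp_pos (-F)
  apply div_le_div_of_nonneg_right _ hs.le
  have h8 : Real.exp (-F) * (29 / 20 + 2 * E) ≤ Real.exp (-F) * (69 / 20 * E) :=
    mul_le_mul_of_nonneg_left (by linarith only [hE1]) hF.le
  linarith only [h8]

/-- linear lower bound of the height -/
theorem ii_lin {E m c : ℝ} (hm : 0 < m) :
    IntegrableOn (fun s => Real.exp (-(E + m * (s - c)))) (Ioi c) := by
  refine (integrableOn_exp_mul_Ioi (a := -m) (by linarith only [hm]) c).const_mul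
    (Real.exp (-E + m * c)) |>.congr (Filter.Eventually.of_forall fun u => ?_)
  show Real.exp (-E + m * c) * Real.exp (-m * u) = Real.exp (-(E + m * (u - c)))
  rw [← Real.exp_add]
  congr 1
  ring

theorem zoneL {E m c : ℝ} (hm : 0 < m) :
    ∫ s in Ioi c, Real.exp (-(E + m * (s - c))) = Real.exp (-E) / m := by
  have h1 : (fun s : ℝ => Real.exp (-(E + m * (s - c)))) =
      fun s => Real.exp (-E + m * c) * Real.exp (-m * s) := by
    funext s
    rw [← Real.exp_add]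
    congr 1
    ring
  rw [h1, integral_const_mul, integral_exp_mul_Ioi (by linarith only [hm]) c]
  rw [neg_div_neg_eq, mul_div_assoc', ← Real.exp_add]
  congr 2
  ring

/-- splitting of a tail -/
theorem zone_split {W g : ℝ → ℝ} {c1 A : ℝ} (hi : IntegrableOn W (Ioi (3 / 2))) (h1 : 3 / 2 ≤ c1)
    (hA : ∀ s, 3 / 2 < s → s ≤ c1 → W s ≤ A) (hg : ∀ s, c1 < s → W s ≤ g s)
    (hgi : IntegrableOn g (Ioi c1)) :
    ∫ s in Ioi (3 / 2 : ℝ), W s ≤ (c1 - 3 / 2) * A + ∫ s in Ioi c1, g s := by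
  have i1 : IntegrableOn W (Ioc (3 / 2) c1) := hi.mono_set Ioc_subset_Ioi_self
  have i2 := hi.mono_set (Ioi_subset_Ioi h1)
  have e1 : ∫ s in Ioi (3 / 2 : ℝ), W s =
      (∫ s in Ioc (3 / 2 : ℝ) c1, W s) + ∫ s in Ioi c1, W s := by
    conv_lhs => rw [← Ioc_union_Ioi_eq_Ioi h1]
    exact setIntegral_union (Ioc_disjoint_Ioi le_rfl) measurableSet_Ioi i1 i2
  have e2 : ∫ s in Ioc (3 / 2 : ℝ) c1, W s ≤ (c1 - 3 / 2) * A := by
    calc _ ≤ ∫ _ in Ioc (3 / 2 : ℝ) c1, A := setIntegral_mono_on i1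
          (integrableOn_const (by simp)) measurableSet_Ioc fun s hs => hA s hs.1 hs.2
      _ = _ := by
        rw [setIntegral_const]
        simp [h1]
  have e3 : ∫ s in Ioi c1, W s ≤ ∫ s in Ioi c1, g s :=
    setIntegral_mono_on i2 hgi measurableSet_Ioi fun s hs => hg s hs
  linarith only [e1, e2, e3]

theorem exp25 : (60000000000 : ℝ) ≤ Real.exp (2495 / 100) := by
  have h1 := Real.exp_one_gt_d9
  have h2 : Real.exp (2495 / 100) = Real.exp 1 ^ (24 : ℕ) * Real.exp (95 / 100) := by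
    rw [← Real.exp_nat_mul, ← Real.exp_add]
    norm_num
  have h3 := Real.sum_le_exp_of_nonneg (x := 95 / 100) (by norm_num) 4
  norm_num [Finset.sum_range_succ, Nat.factorial] at h3
  have h4 : (2718 / 1000 : ℝ) ^ (24 : ℕ) ≤ Real.exp 1 ^ (24 : ℕ) := pow_le_pow_left₀ (by norm_num) (by linarith only [h1]) 24
  rw [h2]
  calc (60000000000 : ℝ) ≤ (2718 / 1000) ^ (24 : ℕ) * (254 / 100) := by norm_num
    _ ≤ Real.exp 1 ^ (24 : ℕ) * Real.exp (95 / 100) := by
      refine mul_le_mul h4 (by linarith only [h3]) (by norm_num) (by positivity)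

/-- the number of zone A -/
theorem zoneA {r ρ q : ℝ} (hr : 499 / 10 ≤ r) (hρ : 0 < ρ) (hq0 : 0 < q) (hq : q ≤ 2 * (1 + ρ)) :
    18 * Real.exp (-(1 / 4 * (1 + ρ) / (ρ / r))) ≤ 1 / 3000 * √(2 * Real.pi * (ρ / r) / q) := by
  have hr0 : 0 < r := by linarith only [hr]
  have hpi : 3.1415 < Real.pi := Real.pi_gt_d4
  obtain ⟨u, hu⟩ : ∃ u, u = r * (1 + ρ) / ρ := ⟨_, rfl⟩
  have hu1 : r ≤ u := by
    rw [hu, le_div_iff₀ hρ]
    linarith only [hr0]
  have hu0 : 0 < u := by linarith only [hr0, hu1]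
  have e1 : -(1 / 4 * (1 + ρ) / (ρ / r)) = -(u / 4) := by
    rw [hu]
    field_simp
  rw [e1]
  have h1 : (1 / 3000 * √(2 * Real.pi * (ρ / r) / q)) = √((1 / 3000) ^ (2 : ℕ) * (2 * Real.pi * (ρ / r) / q)) := by
    rw [Real.sqrt_mul (by positivity), Real.sqrt_sq (by norm_num)]
  rw [h1]
  apply Real.le_sqrt_of_sq_le
  have h2 : (18 * Real.exp (-(u / 4))) ^ (2 : ℕ) = 324 / Real.exp (u / 2) := by
    rw [mul_pow, ← Real.exp_nat_mul, show ((2 : ℕ) : ℝ) * -(u / 4) = -(u / 2) by push_cast; ring,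
      Real.exp_neg]
    ring
  rw [h2]
  -- `exp (u/2) ≥ 1.2e9 u`
  have h3 : 1200000000 * u ≤ Real.exp (u / 2) := by
    have h4 : Real.exp (u / 2) = Real.exp (2495 / 100) * Real.exp (u / 2 - 2495 / 100) := by
      rw [← Real.exp_add]
      congr 1
      ring
    have h5 := Real.add_one_le_exp (u / 2 - 2495 / 100)
    have h6 : u / (499 / 10) ≤ Real.exp (u / 2 - 2495 / 100) := by
      refine le_trans ?_ h5
      rw [div_le_iff₀ (by norm_num)]
      linarith only [hr, hu1]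
    rw [h4]
    calc 1200000000 * u ≤ 60000000000 * (u / (499 / 10)) := by
          rw [mul_div_assoc']
          rw [le_div_iff₀ (by norm_num)]
          linarith only [hu0]
      _ ≤ _ := mul_le_mul exp25 h6 (by (clear * - hu0; positivity)) (Real.exp_pos _).le
  have h7 : 1 / (2 * u) ≤ ρ / r / q := by
    rw [div_div, div_le_div_iff₀ (by (clear * - hu0; positivity)) (by (clear * - hr hq0; positivity)), one_mul]
    have h8 : r * q ≤ r * (2 * (1 + ρ)) := mul_le_mul_of_nonneg_left hq hr0.le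
    have h9 : ρ * (2 * u) = r * (2 * (1 + ρ)) := by
      rw [hu]
      field_simp
    rw [h9]
    exact h8
  have h10 : 324 / Real.exp (u / 2) ≤ 324 / (1200000000 * u) :=
    div_le_div_of_nonneg_left (by norm_num) (by (clear * - hu0; positivity)) h3
  refine h10.trans ?_
  have h11 : (1 / 3000 : ℝ) ^ (2 : ℕ) * (2 * Real.pi * (ρ / r) / q) = (1 / 3000) ^ (2 : ℕ) * (2 * Real.pi) * (ρ / r / q) := by
    ring
  rw [h11]
  calc 324 / (1200000000 * u) = 54 / 100000000 * (1 / (2 * u)) := by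
        field_simp
        norm_num
    _ ≤ (1 / 3000) ^ (2 : ℕ) * (2 * Real.pi) * (ρ / r / q) := by
        refine mul_le_mul ?_ h7 (by (clear * - hu0; positivity)) (by positivity)
        linarith only [hpi]

end SokamV3O

end
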