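import Pool.Agent.Lib_MP_af4de1_zy.Z01
import Pool.Agent.Lib_MP_af4de1_zy.Z68

/-! ### Lib_MP_af4de1_f1.MainB3 -/

section
namespace SokamF1G
end SokamF1G
namespace SokamF1M
end SokamF1M
namespace SokamPG
end SokamPG
namespace SokamU
end SokamU
/-!
# LEMMA MAIN: the absolute integrals over `|s| < 3/2`
-/

set_option autoImplicit false

open Complex MeasureTheory Set SokamU SokamPG SokamF1G SokamF1M

namespace SokamF1B

/-! ### generic integral bounds -/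

theorem split_bound {h φ ψ : ℝ → ℝ} (hi : IntegrableOn h (Ioo (-1) 1))
    (hφ : IntegrableOn φ (Ioi 0)) (hφ0 : ∀ s, 0 < s → 0 ≤ φ s) (hψ : IntegrableOn ψ (Ioo 0 1))
    (h1 : ∀ s ∈ Ioo (0 : ℝ) 1, h s ≤ φ s) (h2 : ∀ s ∈ Ioo (0 : ℝ) 1, h (-s) ≤ ψ s) :
    ∫ s in Ioo (-1) 1, h s ≤ (∫ s in Ioi 0, φ s) + ∫ s in Ioo 0 1, ψ s := by
  have i0 : IntegrableOn h (Ioo (0 : ℝ) 1) := hi.mono_set (Ioo_subset_Ioo_left (by norm_num))
  have i1 : IntegrableOn h (Ioo (-1 : ℝ) 0) := hi.mono_set (Ioo_subset_Ioo_right (by norm_num))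
  have v0 : IntervalIntegrable h volume 0 1 := by
    rw [intervalIntegrable_iff_integrableOn_Ioo_of_le zero_le_one]
    exact i0
  have v1 : IntervalIntegrable h volume (-1) 0 := by
    rw [intervalIntegrable_iff_integrableOn_Ioo_of_le (by norm_num)]
    exact i1
  have e1 : ∫ s in Ioo (-1 : ℝ) 1, h s = (∫ s in (-1 : ℝ)..0, h s) + ∫ s in (0 : ℝ)..1, h s := by
    rw [intervalIntegral.integral_add_adjacent_intervals v1 v0,
      intervalIntegral.integral_of_le (by norm_num), integral_Ioc_eq_integral_Ioo]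
  have e2 : ∫ s in (-1 : ℝ)..0, h s = ∫ s in Ioo (0 : ℝ) 1, h (-s) := by
    have h3 := intervalIntegral.integral_comp_neg (a := 0) (b := 1) h
    rw [neg_zero] at h3
    rw [← h3, intervalIntegral.integral_of_le zero_le_one, integral_Ioc_eq_integral_Ioo]
  have e3 : ∫ s in (0 : ℝ)..1, h s = ∫ s in Ioo (0 : ℝ) 1, h s := by
    rw [intervalIntegral.integral_of_le zero_le_one, integral_Ioc_eq_integral_Ioo]
  have i2 : IntegrableOn (fun s => h (-s)) (Ioo (0 : ℝ) 1) := by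
    have h4 := (v1.comp_sub_left 0).symm
    simp only [zero_sub, neg_neg, neg_zero] at h4
    rwa [intervalIntegrable_iff_integrableOn_Ioo_of_le zero_le_one] at h4
  rw [e1, e2, e3, add_comm]
  refine add_le_add ?_ ?_
  · calc ∫ s in Ioo (0 : ℝ) 1, h s ≤ ∫ s in Ioo (0 : ℝ) 1, φ s :=
          setIntegral_mono_on i0 (hφ.mono_set Ioo_subset_Ioi_self) measurableSet_Ioo h1
      _ ≤ _ := by
        refine setIntegral_mono_set hφ ?_ (Ioo_subset_Ioi_self).eventuallyLE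
        filter_upwards [self_mem_ae_restrict measurableSet_Ioi] with s hs
        exact hφ0 s hs
  · exact setIntegral_mono_on i2 hψ measurableSet_Ioo h2

theorem gauss_int {ν : ℝ} (hν : 0 < ν) : Integrable fun s : ℝ => Real.exp (-(ν * s ^ (2 : ℕ))) := by
  have := integrable_exp_neg_mul_sq hν
  refine this.congr (Filter.Eventually.of_forall fun s => ?_)
  simp only [neg_mul]

theorem mem_out {s : ℝ} (hs : s ∉ Ioo (-1 : ℝ) 1) : 1 ≤ |s| := by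
  by_contra h
  push Not at h
  exact hs (abs_lt.1 h)

theorem outer_bound {h : ℝ → ℝ}
    (hi : IntegrableOn h (Ioo (-(3 / 2)) (3 / 2) \ Ioo (-1 : ℝ) 1)) {C ν : ℝ} (hC : 0 ≤ C)
    (hν : 0 < ν) (hb : ∀ s, 1 ≤ |s| → |s| < 3 / 2 → h s ≤ C * Real.exp (-(ν * s ^ (2 : ℕ)))) :
    ∫ s in Ioo (-(3 / 2)) (3 / 2) \ Ioo (-1 : ℝ) 1, h s ≤ C * (Real.exp (-ν) / ν) := by
  have hm : MeasurableSet (Ioo (-(3 / 2) : ℝ) (3 / 2) \ Ioo (-1 : ℝ) 1) :=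
    measurableSet_Ioo.diff measurableSet_Ioo
  have i1 : Integrable fun s : ℝ => C * Real.exp (-(ν * s ^ (2 : ℕ))) := (gauss_int hν).const_mul C
  calc ∫ s in Ioo (-(3 / 2)) (3 / 2) \ Ioo (-1 : ℝ) 1, h s ≤
        ∫ s in Ioo (-(3 / 2)) (3 / 2) \ Ioo (-1 : ℝ) 1, C * Real.exp (-(ν * s ^ (2 : ℕ))) :=
        setIntegral_mono_on hi i1.integrableOn hm fun s hs =>
          hb s (mem_out hs.2) (abs_lt.2 hs.1)
    _ ≤ ∫ s in (Ioo (-1 : ℝ) 1)ᶜ, C * Real.exp (-(ν * s ^ (2 : ℕ))) := by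
        refine setIntegral_mono_set i1.integrableOn ?_ ?_
        · exact Filter.Eventually.of_forall fun s => by positivity
        · have hsub : Ioo (-(3 / 2) : ℝ) (3 / 2) \ Ioo (-1 : ℝ) 1 ⊆ (Ioo (-1 : ℝ) 1)ᶜ :=
            fun s hs => hs.2
          exact hsub.eventuallyLE
    _ = C * ∫ s in (Ioo (-1 : ℝ) 1)ᶜ, Real.exp (-(ν * s ^ (2 : ℕ))) := integral_const_mul _ _
    _ ≤ _ := mul_le_mul_of_nonneg_left (int_gtail hν) hC

theorem split3 {h : ℝ → ℝ} (hi : Integrable h) :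
    ∫ s, h s = (∫ s in Ioo (-1 : ℝ) 1, h s) +
      (∫ s in Ioo (-(3 / 2)) (3 / 2) \ Ioo (-1 : ℝ) 1, h s) + ∫ s in {s | 3 / 2 ≤ |s|}, h s := by
  have e1 : (Ioo (-(3 / 2) : ℝ) (3 / 2))ᶜ = {s | 3 / 2 ≤ |s|} := by
    ext s
    rw [mem_compl_iff, mem_Ioo, ← abs_lt, not_lt]
    rfl
  have e2 : Ioo (-1 : ℝ) 1 ∪ (Ioo (-(3 / 2)) (3 / 2) \ Ioo (-1 : ℝ) 1) =
      Ioo (-(3 / 2)) (3 / 2) :=
    union_diff_cancel (Ioo_subset_Ioo (by norm_num) (by norm_num))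
  rw [← integral_add_compl (measurableSet_Ioo (a := -(3 / 2 : ℝ)) (b := 3 / 2)) hi, e1]
  congr 1
  rw [← setIntegral_union disjoint_sdiff_right
    (measurableSet_Ioo.diff measurableSet_Ioo) hi.integrableOn hi.integrableOn, e2]

/-! ### pointwise bounds of `gi` -/

theorem pc_eq {x s : ℝ} (hx : 0 ≤ x) : pc (1 + x)⁻¹ (1 + x) s = ga x s := by
  unfold pc ga
  have h : (1 + x)⁻¹ * (1 + x) = 1 := inv_mul_cancel₀ (by linarith)
  rw [h, inv_mul_eq_div]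

/-- the factor `√(1+c²)` -/
noncomputable def Wc (x : ℝ) : ℝ := √(1 + ((1 + x)⁻¹) ^ (2 : ℕ))

theorem Wc_sq (x : ℝ) : Wc x ^ (2 : ℕ) = 1 + ((1 + x)⁻¹) ^ (2 : ℕ) := Real.sq_sqrt (by positivity)

theorem Wc_pos (x : ℝ) : 0 < Wc x := Real.sqrt_pos.2 (by positivity)

theorem Wc_ge (x : ℝ) : 1 ≤ Wc x := by
  unfold Wc
  rw [Real.one_le_sqrt]
  nlinarith [sq_nonneg ((1 + x)⁻¹)]

theorem norm_slope (x : ℝ) : ‖(1 - ((1 + x)⁻¹ : ℝ) * I : ℂ)‖ = Wc x := by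
  unfold Wc
  generalize (1 + x)⁻¹ = c
  rw [Complex.norm_def, Complex.normSq_apply]
  congr 1
  simp
  ring

theorem norm_slope' (x : ℝ) : ‖(((1 + x)⁻¹ : ℝ) + I : ℂ)‖ = Wc x := by
  unfold Wc
  generalize (1 + x)⁻¹ = c
  rw [Complex.norm_def, Complex.normSq_apply]
  congr 1
  simp
  ring

theorem norm_pv' (x s : ℝ) : ‖pv (1 + x)⁻¹ (1 + x) s‖ ≤ Wc x := by
  unfold pv
  split_ifs
  · exact (norm_slope x).le
  · rw [norm_one]
    exact Wc_ge x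

theorem ga_abs {x s : ℝ} (hx : 0 ≤ x) : |ga x s| ≤ (1 + x)⁻¹ * |s| := by
  have h1 : 0 < 1 + x := by linarith
  have e : s / (1 + x) = (1 + x)⁻¹ * s := by rw [inv_mul_eq_div]
  have h2 : (1 + x)⁻¹ * |s| = |(1 + x)⁻¹ * s| := by
    rw [abs_mul, abs_of_pos (inv_pos.2 h1)]
  unfold ga
  rw [e, h2]
  generalize (1 + x)⁻¹ * s = u
  rcases le_total 0 u with hu | hu
  · rw [abs_of_nonneg hu]
    rw [abs_le]
    constructor
    · exact le_trans (by linarith) (le_max_right _ _ |>.trans' (le_min (by linarith) hu) )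
    · exact max_le (by linarith) (min_le_right _ _)
  · rw [abs_of_nonpos hu, abs_le]
    constructor
    · rw [neg_neg]
      exact le_trans (le_min (by linarith) le_rfl) (le_max_right _ _)
    · refine max_le_iff.2 ⟨by linarith, (min_le_right _ _).trans (by linarith)⟩ |>.trans' le_rfl

theorem norm_gi {x y δ : ℝ} (hx : 0 ≤ x) (hδ : 0 < δ) (w : ℂ → ℂ) (s : ℝ) :
    ‖gi (1 + x)⁻¹ (1 + x) w (((x : ℂ) + y * I) / δ) 0 (-((δ : ℂ) * I)) s‖ =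
      ‖pv (1 + x)⁻¹ (1 + x) s‖ * (‖w (pz (1 + x)⁻¹ (1 + x) s)‖ * Real.exp (-(Hf x y s / δ))) := by
  unfold gi
  rw [norm_mul, norm_mul]
  have h : pz (1 + x)⁻¹ (1 + x) s = ((ga x s : ℝ) : ℂ) + s * I := by
    unfold pz
    rw [pc_eq hx]
  rw [h, norm_f_K hδ]
  rfl

theorem norm_gi_le' {x y δ : ℝ} (hx : 0 ≤ x) (hδ : 0 < δ) (w : ℂ → ℂ) (s : ℝ) {A m : ℝ}
    (hA : ‖w (pz (1 + x)⁻¹ (1 + x) s)‖ ≤ A) (hm : m ≤ Hf x y s / δ) :
    ‖gi (1 + x)⁻¹ (1 + x) w (((x : ℂ) + y * I) / δ) 0 (-((δ : ℂ) * I)) s‖ ≤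
      Wc x * (A * Real.exp (-m)) := by
  rw [norm_gi hx hδ]
  have h1 := norm_pv' x s
  have h2 := Wc_pos x
  have h3 : 0 ≤ A := (norm_nonneg _).trans hA
  gcongr

theorem norm_pz {x : ℝ} (hx : 0 ≤ x) (s : ℝ) : ‖pz (1 + x)⁻¹ (1 + x) s‖ ≤ Wc x * |s| := by
  have h0 := ga_abs (s := s) hx
  have h1 : pz (1 + x)⁻¹ (1 + x) s = ((ga x s : ℝ) : ℂ) + s * I := by
    unfold pz
    rw [pc_eq hx]
  have hW := Wc_pos x
  rw [h1, ← pow_le_pow_iff_left₀ (norm_nonneg _) (by positivity) two_ne_zero, Complex.sq_norm,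
    Complex.normSq_add_mul_I, mul_pow, Wc_sq, sq_abs]
  have h2 : ga x s ^ (2 : ℕ) ≤ ((1 + x)⁻¹ * |s|) ^ (2 : ℕ) := by
    rw [← sq_abs (ga x s)]
    exact pow_le_pow_left₀ (abs_nonneg _) h0 2
  rw [mul_pow, sq_abs] at h2
  linarith

theorem ga_le_one (x s : ℝ) : ga x s ≤ 1 := by
  unfold ga
  exact max_le (by norm_num) (min_le_left _ _)

theorem norm_gs {x : ℝ} (hx : 0 ≤ x) (s : ℝ) : ‖gs (pz (1 + x)⁻¹ (1 + x) s)‖ ≤
    Wc x ^ (2 : ℕ) * s ^ (2 : ℕ) * (1 / 2 + 36 / 125 * max (ga x s) 0) := by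
  have h1 : (pz (1 + x)⁻¹ (1 + x) s).re = ga x s := by rw [pz_re, pc_eq hx]
  have h2 := taylor2 (v := pz (1 + x)⁻¹ (1 + x) s) (by rw [h1]; exact ga_le_one x s)
  rw [h1] at h2
  have h3 := norm_pz hx s
  have h4 : 0 ≤ max (ga x s) 0 := le_max_right _ _
  unfold gs
  calc ‖cexp (pz (1 + x)⁻¹ (1 + x) s) - 1 - pz (1 + x)⁻¹ (1 + x) s‖ ≤ _ := h2
    _ ≤ (Wc x * |s|) ^ (2 : ℕ) * (1 / 2 + 36 / 125 * max (ga x s) 0) := by gcongr
    _ = _ := by rw [mul_pow, sq_abs]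

theorem norm_hgs {x : ℝ} (hx : 0 ≤ x) (s : ℝ) :
    ‖pz (1 + x)⁻¹ (1 + x) s * gs (pz (1 + x)⁻¹ (1 + x) s)‖ ≤
    Wc x ^ (3 : ℕ) * |s| ^ (3 : ℕ) * (1 / 2 + 36 / 125 * max (ga x s) 0) := by
  have h1 := norm_gs hx s
  have h3 := norm_pz hx s
  have h4 : 0 ≤ max (ga x s) 0 := le_max_right _ _
  have hW := Wc_pos x
  rw [norm_mul]
  calc ‖pz (1 + x)⁻¹ (1 + x) s‖ * ‖gs (pz (1 + x)⁻¹ (1 + x) s)‖ ≤
        (Wc x * |s|) * (Wc x ^ (2 : ℕ) * s ^ (2 : ℕ) * (1 / 2 + 36 / 125 * max (ga x s) 0)) := by gcongr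
    _ = Wc x ^ (3 : ℕ) * (|s| * s ^ (2 : ℕ)) * (1 / 2 + 36 / 125 * max (ga x s) 0) := by ring
    _ = _ := by
      rw [← sq_abs s]
      ring

theorem max_ga_nonneg {x s : ℝ} (hx : 0 ≤ x) (hs : 0 ≤ s) : max (ga x s) 0 ≤ (1 + x)⁻¹ * s := by
  have h := ga_abs (s := s) hx
  rw [abs_of_nonneg hs] at h
  have h1 : 0 ≤ (1 + x)⁻¹ * s := mul_nonneg (inv_nonneg.2 (by linarith)) hs
  exact max_le ((le_abs_self _).trans h) h1

theorem max_ga_nonpos {x s : ℝ} (hx : 0 ≤ x) (hs : s ≤ 0) : max (ga x s) 0 = 0 := by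
  refine max_eq_right ?_
  unfold ga
  have h : s / (1 + x) ≤ 0 := div_nonpos_of_nonpos_of_nonneg hs (by linarith)
  exact max_le (by norm_num) ((min_le_right _ _).trans h)

theorem max_ga_one (x s : ℝ) : max (ga x s) 0 ≤ 1 := max_le (ga_le_one x s) zero_le_one

/-! ### the hypotheses -/

/-- Lower bounds of the height on `|s| < 3/2` with `B = Qf/δ`. -/
structure HypH (x y δ la μ j2 j3 : ℝ) (hl : ℝ → ℝ) : Prop where
  hx : 0 ≤ x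
  hδ : 0 < δ
  hy : |y| < 1
  hq : 0 < Qf x y
  hla : 0 < la
  hμ : 0 < μ
  hR : ∀ s, 0 ≤ s → s ≤ 1 → la * Qf x y * s ^ (2 : ℕ) ≤ Hf x y s
  hL : ∀ s, 0 ≤ s → s ≤ 1 → hl s * Qf x y ≤ Hf x y (-s)
  hlc : Continuous hl
  hO : ∀ s, 1 ≤ |s| → |s| < 3 / 2 → μ * Qf x y * s ^ (2 : ℕ) ≤ Hf x y s
  hj2 : ∫ s in Ioo (0 : ℝ) 1, s ^ (2 : ℕ) * Real.exp (-(Qf x y / δ * hl s)) ≤
    j2 / (Qf x y / δ * √(Qf x y / δ))
  hj3 : ∫ s in Ioo (0 : ℝ) 1, s ^ (3 : ℕ) * Real.exp (-(Qf x y / δ * hl s)) ≤ j3 / (Qf x y / δ) ^ (2 : ℕ)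

section

variable {x y δ la μ j2 j3 : ℝ} {hl : ℝ → ℝ} (h : HypH x y δ la μ j2 j3 hl)

include h

theorem HypH.cs : (1 + x)⁻¹ * (1 + x) = 1 := inv_mul_cancel₀ (by linarith [h.hx])

theorem HypH.c0 : 0 < (1 + x)⁻¹ := inv_pos.2 (by linarith [h.hx])

theorem HypH.s0 : 0 < 1 + x := by linarith [h.hx]

theorem HypH.hB : 0 < Qf x y / δ := div_pos h.hq h.hδ

theorem HypH.hk : |(((x : ℂ) + y * I) / δ).im| < (1 + x)⁻¹ * (1 + x) / δ := by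
  have hδ := h.hδ
  have e : ((x : ℂ) + y * I) / δ = ((1 / δ : ℝ) : ℂ) * (x + y * I) := by push_cast; ring
  have e2 : ((x : ℂ) + y * I).im = y := by simp
  rw [e, Complex.im_ofReal_mul, e2, abs_mul, abs_of_pos (by positivity : 0 < 1 / δ), one_div,
    inv_mul_eq_div, h.cs]
  have := h.hy
  gcongr

theorem HypH.int {w : ℂ → ℂ} {K : ℝ} (hw : Wt w K) : Integrable
    (gi (1 + x)⁻¹ (1 + x) w (((x : ℂ) + y * I) / δ) 0 (-((δ : ℂ) * I))) :=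
  integrable_path h.c0 h.s0 h.cs.le h.hδ _ 0 h.hk hw

theorem HypH.R {s : ℝ} (h0 : 0 ≤ s) (h1 : s ≤ 1) : la * (Qf x y / δ) * s ^ (2 : ℕ) ≤ Hf x y s / δ := by
  have h2 := h.hR s h0 h1
  have h3 := h.hδ
  rw [le_div_iff₀ h3]
  refine le_trans (le_of_eq ?_) h2
  field_simp

theorem HypH.L {s : ℝ} (h0 : 0 ≤ s) (h1 : s ≤ 1) : Qf x y / δ * hl s ≤ Hf x y (-s) / δ := by
  have h2 := h.hL s h0 h1
  have h3 := h.hδ
  rw [le_div_iff₀ h3]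
  refine le_trans (le_of_eq ?_) h2
  field_simp

theorem HypH.O {s : ℝ} (h0 : 1 ≤ |s|) (h1 : |s| < 3 / 2) :
    μ * (Qf x y / δ) * s ^ (2 : ℕ) ≤ Hf x y s / δ := by
  have h2 := h.hO s h0 h1
  have h3 := h.hδ
  rw [le_div_iff₀ h3]
  refine le_trans (le_of_eq ?_) h2
  field_simp

theorem HypH.iL (k : ℕ) :
    IntegrableOn (fun s : ℝ => s ^ k * Real.exp (-(Qf x y / δ * hl s))) (Ioo 0 1) := by
  have hc := h.hlc
  have h1 : Continuous fun s : ℝ => s ^ k * Real.exp (-(Qf x y / δ * hl s)) := by fun_prop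
  exact (h1.integrableOn_Icc (a := 0) (b := 1)).mono_set Ioo_subset_Icc_self

/-- `M1` on `|s| < 1` -/
theorem HypH.M1 : ∫ s in Ioo (-1 : ℝ) 1,
    ‖gi (1 + x)⁻¹ (1 + x) gs (((x : ℂ) + y * I) / δ) 0 (-((δ : ℂ) * I)) s‖ ≤
      Wc x ^ (3 : ℕ) * (1 / 2 * (√(Real.pi / (la * (Qf x y / δ))) / (4 * (la * (Qf x y / δ)))) +
        36 / 125 * (1 + x)⁻¹ * (1 / (2 * (la * (Qf x y / δ)) ^ (2 : ℕ))) +
        1 / 2 * (j2 / (Qf x y / δ * √(Qf x y / δ)))) := by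
  have hB := h.hB
  have hla := h.hla
  have hx := h.hx
  have hδ := h.hδ
  have hW := Wc_pos x
  have hν : 0 < la * (Qf x y / δ) := by positivity
  have hc0 := h.c0
  have iA := (ii_m2 hν).const_mul (Wc x ^ (3 : ℕ) * (1 / 2))
  have iB := (ii_m3 hν).const_mul (Wc x ^ (3 : ℕ) * (36 / 125 * (1 + x)⁻¹))
  have key := split_bound
    (h := fun s => ‖gi (1 + x)⁻¹ (1 + x) gs (((x : ℂ) + y * I) / δ) 0 (-((δ : ℂ) * I)) s‖)
    (φ := fun s => Wc x ^ (3 : ℕ) * (1 / 2) * (s ^ (2 : ℕ) * Real.exp (-(la * (Qf x y / δ) * s ^ (2 : ℕ)))) +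
      Wc x ^ (3 : ℕ) * (36 / 125 * (1 + x)⁻¹) * (s ^ (3 : ℕ) * Real.exp (-(la * (Qf x y / δ) * s ^ (2 : ℕ)))))
    (ψ := fun s => Wc x ^ (3 : ℕ) * (1 / 2) * (s ^ (2 : ℕ) * Real.exp (-(Qf x y / δ * hl s))))
    (h.int wt_gs).norm.integrableOn
    (iA.fun_add iB)
    (fun s hs => by positivity)
    ((h.iL 2).const_mul _)
    (fun s hs => by
      refine (norm_gi_le' hx hδ gs s (norm_gs hx s) (h.R hs.1.le hs.2.le)).trans ?_
      have h1 := max_ga_nonneg hx hs.1.le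
      have hs0 := hs.1
      calc Wc x * (Wc x ^ (2 : ℕ) * s ^ (2 : ℕ) * (1 / 2 + 36 / 125 * max (ga x s) 0) *
            Real.exp (-(la * (Qf x y / δ) * s ^ (2 : ℕ)))) ≤
          Wc x * (Wc x ^ (2 : ℕ) * s ^ (2 : ℕ) * (1 / 2 + 36 / 125 * ((1 + x)⁻¹ * s)) *
            Real.exp (-(la * (Qf x y / δ) * s ^ (2 : ℕ)))) := by gcongr
        _ = _ := by ring)
    (fun s hs => by
      refine (norm_gi_le' hx hδ gs (-s) (norm_gs hx (-s)) (h.L hs.1.le hs.2.le)).trans ?_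
      rw [max_ga_nonpos hx (by linarith [hs.1])]
      refine le_of_eq ?_
      ring)
  refine key.trans ?_
  rw [integral_add iA iB, integral_const_mul,
    integral_const_mul, integral_const_mul, int_m2 hν, int_m3 hν]
  have h2 := h.hj2
  have h3 : Wc x ^ (3 : ℕ) * (1 / 2) *
      ∫ s in Ioo (0 : ℝ) 1, s ^ (2 : ℕ) * Real.exp (-(Qf x y / δ * hl s)) ≤
      Wc x ^ (3 : ℕ) * (1 / 2) * (j2 / (Qf x y / δ * √(Qf x y / δ))) := by gcongr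
  refine (add_le_add_right h3 _).trans (le_of_eq ?_)
  ring

end

end SokamF1B

end
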