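import Pool.Agent.Lib_MP_af4de1_zy.Z54
import Pool.Agent.Lib_MP_af4de1_zy.Z82

/-! ### Lib_MP_af4de1_f1.MonA -/

section
namespace SokamF1
end SokamF1
namespace SokamF1S
end SokamF1S
namespace SokamPG
end SokamPG
namespace SokamU
end SokamU
/-!
# The wave at the angle `sE (r δ) y + θ` on the path through the saddle point of `sE (r δ) y`

`Ht x y θ a s = a s - x (e^a cos (s+θ) - 1 - a) + y (e^a sin (s+θ) - s)`, `|f| = exp (- Ht/δ)`.
-/

set_option autoImplicit false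

open Complex MeasureTheory Filter Topology SokamU SokamPG SokamF1 SokamF1S

namespace SokamF1M

/-- the height of the shifted path -/
noncomputable def Ht (x y θ a s : ℝ) : ℝ :=
  a * s - x * (Real.exp a * Real.cos (s + θ) - 1 - a) + y * (Real.exp a * Real.sin (s + θ) - s)

theorem Ht_zero (x y a s : ℝ) : Ht x y 0 a s = SokamF1G.Ha x y a s := by
  unfold Ht SokamF1G.Ha
  rw [add_zero]

theorem pc_ga {x s : ℝ} (hx : 0 ≤ x) : pc (1 + x)⁻¹ (1 + x) s = SokamF1G.ga x s := by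
  unfold pc SokamF1G.ga
  have h : (1 + x)⁻¹ * (1 + x) = 1 := inv_mul_cancel₀ (by linarith)
  rw [h, inv_mul_eq_div]

/-- The modulus of the integrand. -/
theorem norm_f_shift {δ : ℝ} (ρ y θ a s : ℝ) :
    ‖f (-((δ : ℂ) * I)) (sK ρ y / δ) (θ * I) (a + s * I)‖ =
      Real.exp (-(Ht (sx ρ y) y θ a s / δ)) := by
  unfold f
  rw [Complex.norm_exp]
  congr 1
  have e1 : ((a : ℂ) + s * I) ^ (2 : ℕ) / (2 * -((δ : ℂ) * I)) =
      ((-(a * s / δ) : ℝ) : ℂ) + (((a ^ (2 : ℕ) - s ^ (2 : ℕ)) / (2 * δ) : ℝ) : ℂ) * I := by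
    rcases eq_or_ne δ 0 with rfl | hδ
    · simp
    have hd : (δ : ℂ) ≠ 0 := by exact_mod_cast hδ
    push_cast
    field_simp
    ring_nf
    rw [Complex.I_sq]
    ring
  have e2 : cexp (θ * I + (a + s * I)) =
      ((Real.exp a * Real.cos (s + θ) : ℝ) : ℂ) + ((Real.exp a * Real.sin (s + θ) : ℝ) : ℂ) * I := by
    have : (θ : ℂ) * I + (a + s * I) = (a : ℂ) + ((s + θ : ℝ) : ℂ) * I := by push_cast; ring
    rw [this, Complex.exp_add, Complex.exp_mul_I, ← Complex.ofReal_exp, ← Complex.ofReal_cos,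
      ← Complex.ofReal_sin]
    push_cast
    ring
  rw [e1, e2]
  have e3 : sK ρ y / δ = ((1 / δ : ℝ) : ℂ) * sK ρ y := by push_cast; ring
  rw [e3]
  unfold sK Ht
  simp only [Complex.add_re, Complex.mul_re, Complex.sub_re, Complex.add_im, Complex.mul_im,
    Complex.sub_im, Complex.ofReal_re, Complex.ofReal_im, Complex.I_re, Complex.I_im,
    Complex.one_re, Complex.one_im]
  ring

/-- The absolute integral on the path with weight `e^(j a)`. -/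
noncomputable def mI (c s1 r δ y θ : ℝ) (j : ℕ) : ℝ :=
  ∫ s : ℝ, ‖pv c s1 s‖ * (Real.exp (j * pc c s1 s) *
    Real.exp (-(Ht (sx (r * δ) y) y θ (pc c s1 s) s / δ)))

theorem wp_add {r δ y : ℝ} (hδ : 0 < δ) (hD : Dom (r * δ) y) (θ : ℝ) :
    wp r δ (sE (r * δ) y + θ) = zp (-((δ : ℂ) * I)) (sK (r * δ) y / δ) * cexp (θ * I) := by
  rw [← wp_eq_zp hδ hD]
  unfold wp
  rw [mul_assoc, ← Complex.exp_add]
  congr 2
  push_cast
  ring

theorem norm_gi_shift {c s1 δ : ℝ} (a : ℂ) (ρ y θ : ℝ) (j : ℕ) (s : ℝ) :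
    ‖gi c s1 (fun h => (a * cexp (θ * I + h)) ^ j) (sK ρ y / δ) (θ * I)
      (-((δ : ℂ) * I)) s‖ = ‖a‖ ^ j * (‖pv c s1 s‖ * (Real.exp (j * pc c s1 s) *
        Real.exp (-(Ht (sx ρ y) y θ (pc c s1 s) s / δ)))) := by
  unfold gi
  rw [norm_mul, norm_mul, show pz c s1 s = (pc c s1 s : ℂ) + s * I from rfl,
    norm_f_shift, norm_pow, norm_mul, Complex.norm_exp, mul_pow, ← Real.exp_nat_mul]
  have e : ((θ : ℂ) * I + ((pc c s1 s : ℂ) + s * I)).re = pc c s1 s := by simp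
  rw [e]
  ring

theorem im_kappa {ρ δ y c s1 : ℝ} (hδ : 0 < δ) (hk : |y| < c * s1) :
    |(sK ρ y / δ : ℂ).im| < c * s1 / δ := by
  have e : (sK ρ y / δ : ℂ) = ((1 / δ : ℝ) : ℂ) * sK ρ y := by push_cast; ring
  have e2 : (sK ρ y).im = y := by unfold sK; simp
  rw [e, Complex.im_ofReal_mul, e2, abs_mul, abs_of_pos (by positivity : 0 < 1 / δ), one_div,
    inv_mul_eq_div]
  gcongr

theorem integrable_mI {ρ δ y c s1 : ℝ} (hc : 0 < c) (hs : 0 < s1) (hcs : c * s1 ≤ 1)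
    (hδ : 0 < δ) (hk : |y| < c * s1) (θ : ℝ) (j : ℕ) :
    Integrable fun s : ℝ => ‖pv c s1 s‖ * (Real.exp (j * pc c s1 s) *
      Real.exp (-(Ht (sx ρ y) y θ (pc c s1 s) s / δ))) := by
  have h1 := (integrable_path hc hs hcs hδ (sK ρ y / δ) (θ * I) (im_kappa hδ hk)
    (Wt_pow 1 (θ * I) j)).norm
  refine h1.congr (Eventually.of_forall fun s => ?_)
  simp only
  rw [norm_gi_shift, norm_one, one_pow, one_mul]

theorem Ef_shift_le {r δ y c s1 : ℝ} (hc : 0 < c) (hs : 0 < s1) (hcs : c * s1 ≤ 1)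
    (hδ : 0 < δ) (hD : Dom (r * δ) y) (hy : -1 < y) (hk : |y| < c * s1) (θ : ℝ) (j : ℕ) :
    ‖Ef j (tt δ) (wp r δ (sE (r * δ) y + θ))‖ ≤
      ‖sK (r * δ) y / δ‖ ^ j * sM r δ y * mI c s1 r δ y θ j / sG r δ y := by
  have hk' := im_kappa (ρ := r * δ) hδ hk
  have h1 := congrArg norm (path_formula hc hs hcs hδ (sK (r * δ) y / δ) (θ * I) hk' j)
  rw [← wp_add hδ hD, norm_mul, norm_mul, norm_gcst hδ, Complex.norm_exp, S_re hδ] at h1
  have h2 : 0 < √(2 * Real.pi * δ) := Real.sqrt_pos.2 (by have := Real.pi_pos; positivity)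
  have h3 := sM_sG (r := r) hδ hy
  have h4 : ‖∫ s : ℝ, gi c s1 (fun h => (sK (r * δ) y / δ * cexp (θ * I + h)) ^ j)
      (sK (r * δ) y / δ) (θ * I) (-((δ : ℂ) * I)) s‖ ≤
      ‖sK (r * δ) y / δ‖ ^ j * mI c s1 r δ y θ j := by
    refine (norm_integral_le_integral_norm _).trans (le_of_eq ?_)
    unfold mI
    rw [← integral_const_mul]
    refine integral_congr_ae (Eventually.of_forall fun s => ?_)
    exact norm_gi_shift _ _ _ _ _ _
  have h5 : ‖Ef j (tt δ) (wp r δ (sE (r * δ) y + θ))‖ =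
      Real.exp (sx (r * δ) y * (1 + y) / δ) / √(2 * Real.pi * δ) *
        ‖∫ s : ℝ, gi c s1 (fun h => (sK (r * δ) y / δ * cexp (θ * I + h)) ^ j)
          (sK (r * δ) y / δ) (θ * I) (-((δ : ℂ) * I)) s‖ := by
    rw [div_mul_eq_mul_div, eq_div_iff h2.ne', ← h1, mul_comm]
    rfl
  rw [h5, h3]
  have h6 : 0 ≤ sM r δ y / sG r δ y := by
    rw [← h3]
    positivity
  calc sM r δ y / sG r δ y * ‖∫ s : ℝ, gi c s1 (fun h => (sK (r * δ) y / δ *
        cexp (θ * I + h)) ^ j) (sK (r * δ) y / δ) (θ * I) (-((δ : ℂ) * I)) s‖ ≤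
      sM r δ y / sG r δ y * (‖sK (r * δ) y / δ‖ ^ j * mI c s1 r δ y θ j) :=
        mul_le_mul_of_nonneg_left h4 h6
    _ = _ := by ring

end SokamF1M

end

/-! ### Lib_MP_af4de1_f1.TopMonI -/

section
namespace SokamF1
end SokamF1
namespace SokamF1B
end SokamF1B
namespace SokamF1G
end SokamF1G
namespace SokamF1M
end SokamF1M
namespace SokamF1S
end SokamF1S
namespace SokamPG
end SokamPG
namespace SokamU
end SokamU
/-!
# The crude integral bound for a wave on a shifted path (owner helper31)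

If for every `s` the height `Ht` is `≥ 19/50 Qf s²` or `≥ |s|/25 + δ max(a,0)`, then the absolute integrals
(weights `1`, `e^a`) are at most `15` times the Gaussian.
-/

set_option autoImplicit false

namespace SokamF1T

open Complex SokamU SokamPG SokamF1 SokamF1S SokamF1M SokamF1G SokamF1B MeasureTheory

theorem exp_c0 : Real.exp (5 / 11) ≤ 158 / 100 := by
  have h := Real.exp_bound' (x := 5 / 11) (by norm_num) (by norm_num) (n := 5) (by norm_num)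
  refine h.trans ?_
  norm_num [Finset.sum_range_succ, Nat.factorial]

theorem lin_le_quad {B s : ℝ} (hB : 11 ≤ B) : |s| ≤ 1 / 20 * B * s ^ (2 : ℕ) + 5 / 11 := by
  have h1 : |s| ≤ 11 / 20 * |s| ^ (2 : ℕ) + 5 / 11 := by linarith only [sq_nonneg (|s| - 10 / 11)]
  rw [sq_abs] at h1
  nlinarith only [hB, h1]

theorem integral_abs_exp {μ : ℝ} (hμ : 0 < μ) :
    (∫ s : ℝ, Real.exp (-(μ * |s|))) = 2 / μ ∧ Integrable fun s : ℝ => Real.exp (-(μ * |s|)) := by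
  have h1 : (∫ s : ℝ, Real.exp (-(μ * |s|))) = 2 * ∫ s in Set.Ioi (0 : ℝ), Real.exp (-(μ * s)) :=
    integral_comp_abs (f := fun s => Real.exp (-(μ * s)))
  have h2 : ∫ s in Set.Ioi (0 : ℝ), Real.exp (-(μ * s)) = 1 / μ := by
    have := integral_exp_mul_Ioi (a := -μ) (by linarith only [hμ]) 0
    simp only [mul_zero, Real.exp_zero] at this
    rw [show (fun s : ℝ => Real.exp (-(μ * s))) = fun s => Real.exp (-μ * s) by
      ext s; congr 1; ring]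
    rw [this]
    field_simp
  refine ⟨by rw [h1, h2]; ring, ?_⟩
  by_contra hni
  have h3 := integral_undef hni
  rw [h1, h2] at h3
  have : 0 < 2 * (1 / μ) := by positivity
  linarith only [h3, this]

theorem mI_le {r δ y θ : ℝ} {j : ℕ} (hj : j ≤ 1) (hδ : 0 < δ) (hy : -1 < y)
    (hq : 0 < SokamF1G.Qf (sx (r * δ) y) y) (hB : 11 ≤ SokamF1G.Qf (sx (r * δ) y) y / δ)
    (hl : (1 + (1 / (1 + sx (r * δ) y)) ^ (2 : ℕ)) * √((1 + y) ^ (2 : ℕ) + sx (r * δ) y ^ (2 : ℕ)) ≤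
      2 * (129 / 100) * SokamF1G.Qf (sx (r * δ) y) y)
    (hd : (1 + (1 / (1 + sx (r * δ) y)) ^ (2 : ℕ)) * √((1 + y) ^ (2 : ℕ) + sx (r * δ) y ^ (2 : ℕ)) * δ ≤ 1 / 5)
    (hpt : ∀ s, 19 / 50 * SokamF1G.Qf (sx (r * δ) y) y * s ^ (2 : ℕ) ≤
        Ht (sx (r * δ) y) y θ (ga (sx (r * δ) y) s) s ∨
      |s| / 25 + δ * max (ga (sx (r * δ) y) s) 0 ≤
        Ht (sx (r * δ) y) y θ (ga (sx (r * δ) y) s) s) :
    mI (1 + sx (r * δ) y)⁻¹ (1 + sx (r * δ) y) r δ y θ j ≤ 15 * sG r δ y := by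
  have hx : 0 ≤ sx (r * δ) y := sx_nonneg _ _
  have hGe : sG r δ y = √(2 * Real.pi * δ / √((1 + y) ^ (2 : ℕ) + sx (r * δ) y ^ (2 : ℕ))) := rfl
  unfold mI
  rw [hGe]
  set x := sx (r * δ) y with hxd
  set D := √((1 + y) ^ (2 : ℕ) + x ^ (2 : ℕ)) with hD
  set q := SokamF1G.Qf x y with hqd
  set B := q / δ with hBd
  have hD0 : 0 < D := Real.sqrt_pos.2 (by nlinarith only [hy])
  have hW := Wc_pos x
  have hc : 1 / (1 + x) = (1 + x)⁻¹ := one_div _
  rw [hc, ← Wc_sq] at hl hd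
  set W := Wc x with hWd
  have hB0 : 0 < B := by linarith only [hB]
  have hν : 0 < 33 / 100 * B := by positivity
  have hμ : 0 < 1 / (25 * δ) := by positivity
  obtain ⟨i1, i2⟩ := integral_abs_exp hμ
  have i3 : Integrable fun s : ℝ => Real.exp (-(33 / 100 * B) * s ^ (2 : ℕ)) := integrable_exp_neg_mul_sq hν
  have i4 : (∫ s : ℝ, Real.exp (-(33 / 100 * B) * s ^ (2 : ℕ))) = √(Real.pi / (33 / 100 * B)) := integral_gaussian _
  have hga1 : ∀ s, (j : ℝ) * ga x s ≤ max (ga x s) 0 := by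
    intro s
    rcases Nat.le_one_iff_eq_zero_or_eq_one.1 hj with rfl | rfl
    · simp
    · simp
  have hpw : ∀ s : ℝ, ‖pv (1 + x)⁻¹ (1 + x) s‖ * (Real.exp (j * pc (1 + x)⁻¹ (1 + x) s) *
      Real.exp (-(Ht x y θ (pc (1 + x)⁻¹ (1 + x) s) s / δ))) ≤
      W * (158 / 100 * Real.exp (-(33 / 100 * B) * s ^ (2 : ℕ)) + Real.exp (-(1 / (25 * δ) * |s|))) := by
    intro s
    rw [pc_eq hx]
    have h1 := norm_pv' x s
    have h2 := hga1 s
    have h3 : Real.exp (j * ga x s) * Real.exp (-(Ht x y θ (ga x s) s / δ)) ≤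
        158 / 100 * Real.exp (-(33 / 100 * B) * s ^ (2 : ℕ)) + Real.exp (-(1 / (25 * δ) * |s|)) := by
      rw [← Real.exp_add]
      rcases hpt s with h | h
      · have h4 : 19 / 50 * B * s ^ (2 : ℕ) ≤ Ht x y θ (ga x s) s / δ := by
          rw [le_div_iff₀ hδ]
          calc 19 / 50 * B * s ^ (2 : ℕ) * δ = 19 / 50 * (B * δ) * s ^ (2 : ℕ) := by ring
            _ = 19 / 50 * q * s ^ (2 : ℕ) := by rw [hBd, div_mul_cancel₀ _ hδ.ne']
            _ ≤ _ := h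
        have h5 : max (ga x s) 0 ≤ |s| := by
          refine max_le ?_ (abs_nonneg s)
          refine (le_abs_self _).trans ((ga_abs hx).trans ?_)
          have h6 : (1 + x)⁻¹ ≤ 1 := inv_le_one_of_one_le₀ (by linarith only [hx])
          exact mul_le_of_le_one_left (abs_nonneg s) h6
        have h7 := lin_le_quad (s := s) hB
        have h8 : j * ga x s + -(Ht x y θ (ga x s) s / δ) ≤ 5 / 11 + -(33 / 100 * B) * s ^ (2 : ℕ) := by
          linarith only [h2, h4, h5, h7]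
        have h9 : 0 ≤ Real.exp (-(1 / (25 * δ) * |s|)) := (Real.exp_pos _).le
        calc Real.exp (j * ga x s + -(Ht x y θ (ga x s) s / δ)) ≤
              Real.exp (5 / 11 + -(33 / 100 * B) * s ^ (2 : ℕ)) := Real.exp_le_exp.2 h8
          _ = Real.exp (5 / 11) * Real.exp (-(33 / 100 * B) * s ^ (2 : ℕ)) := Real.exp_add _ _
          _ ≤ 158 / 100 * Real.exp (-(33 / 100 * B) * s ^ (2 : ℕ)) :=
            mul_le_mul_of_nonneg_right exp_c0 (Real.exp_pos _).le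
          _ ≤ _ := by linarith only [h9]
      · have h4 : 1 / (25 * δ) * |s| + max (ga x s) 0 ≤ Ht x y θ (ga x s) s / δ := by
          rw [le_div_iff₀ hδ]
          calc (1 / (25 * δ) * |s| + max (ga x s) 0) * δ = |s| / 25 + δ * max (ga x s) 0 := by
                field_simp
            _ ≤ _ := h
        have h9 : 0 ≤ 158 / 100 * Real.exp (-(33 / 100 * B) * s ^ (2 : ℕ)) := by positivity
        have h8 : Real.exp (j * ga x s + -(Ht x y θ (ga x s) s / δ)) ≤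
            Real.exp (-(1 / (25 * δ) * |s|)) := Real.exp_le_exp.2 (by linarith only [h2, h4])
        linarith only [h9, h8]
    exact mul_le_mul h1 h3 (by positivity) hW.le
  have hI : (∫ s : ℝ, ‖pv (1 + x)⁻¹ (1 + x) s‖ * (Real.exp (j * pc (1 + x)⁻¹ (1 + x) s) *
      Real.exp (-(Ht x y θ (pc (1 + x)⁻¹ (1 + x) s) s / δ)))) ≤
      W * (158 / 100 * √(Real.pi / (33 / 100 * B)) + 2 / (1 / (25 * δ))) := by
    have h1 := integral_mono_of_nonneg (μ := volume)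
      (f := fun s : ℝ => ‖pv (1 + x)⁻¹ (1 + x) s‖ * (Real.exp (j * pc (1 + x)⁻¹ (1 + x) s) *
      Real.exp (-(Ht x y θ (pc (1 + x)⁻¹ (1 + x) s) s / δ))))
      (g := fun s => W * (158 / 100 * Real.exp (-(33 / 100 * B) * s ^ (2 : ℕ)) +
        Real.exp (-(1 / (25 * δ) * |s|))))
      (Filter.Eventually.of_forall fun s => by positivity)
      (((i3.const_mul _).add i2).const_mul _) (Filter.Eventually.of_forall hpw)
    refine h1.trans (le_of_eq ?_)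
    rw [integral_const_mul, integral_add (i3.const_mul _) i2, integral_const_mul, i4, i1]
  refine hI.trans ?_
  set G := √(2 * Real.pi * δ / D) with hG
  have hG0 : 0 ≤ G := Real.sqrt_nonneg _
  have hG2 : G ^ (2 : ℕ) = 2 * Real.pi * δ / D := Real.sq_sqrt (by positivity)
  have hpi := Real.pi_gt_three
  -- the Gaussian part
  have k1 : W * √(Real.pi / (33 / 100 * B)) ≤ 198 / 100 * G := by
    apply le_of_sq_le_sq _ (by positivity)
    rw [mul_pow, mul_pow, hG2, Real.sq_sqrt (by positivity)]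
    have e1 : W ^ (2 : ℕ) * (Real.pi / (33 / 100 * B)) = (W ^ (2 : ℕ) * D) * (Real.pi * δ / (33 / 100 * q * D)) := by
      rw [hBd]
      field_simp
    have h5 : (W ^ (2 : ℕ) * D) * (Real.pi * δ / (33 / 100 * q * D)) ≤
        (2 * (129 / 100) * q) * (Real.pi * δ / (33 / 100 * q * D)) :=
      mul_le_mul_of_nonneg_right hl (by positivity)
    have e2 : (2 * (129 / 100) * q) * (Real.pi * δ / (33 / 100 * q * D)) =
        (129 / 33) * (2 * Real.pi * δ / D) := by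
      field_simp
    rw [e1]
    refine h5.trans ?_
    rw [e2]
    have h6 : 0 ≤ 2 * Real.pi * δ / D := by positivity
    linarith only [h6]
  have k2 : W * (2 / (1 / (25 * δ))) ≤ 92 / 10 * G := by
    apply le_of_sq_le_sq _ (by positivity)
    rw [mul_pow, mul_pow, hG2]
    have e1 : W ^ (2 : ℕ) * (2 / (1 / (25 * δ))) ^ (2 : ℕ) = 2500 * (W ^ (2 : ℕ) * D * δ) * (δ / D) := by
      field_simp
      ring
    have h5 : 2500 * (W ^ (2 : ℕ) * D * δ) * (δ / D) ≤ 2500 * (1 / 5) * (δ / D) := by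
      apply mul_le_mul_of_nonneg_right _ (by positivity)
      linarith only [hd]
    have e2 : 2 * Real.pi * δ / D = 2 * Real.pi * (δ / D) := by ring
    rw [e1, e2]
    refine h5.trans ?_
    have h6 : 0 ≤ δ / D := by positivity
    nlinarith only [hpi, h6]
  calc W * (158 / 100 * √(Real.pi / (33 / 100 * B)) + 2 / (1 / (25 * δ))) =
        158 / 100 * (W * √(Real.pi / (33 / 100 * B))) + W * (2 / (1 / (25 * δ))) := by ring
    _ ≤ 158 / 100 * (198 / 100 * G) + 92 / 10 * G := by linarith only [k1, k2]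
    _ ≤ 15 * G := by linarith only [hG0]

/-- from the integral to the two waves -/
theorem waves_of_mI {r ρ y θ : ℝ} (hr : 0 < r) (hD : Dom ρ y) (hy : -1 < y) (hy1 : |y| < 1)
    (h : ∀ j : ℕ, j ≤ 1 → mI (1 + sx ρ y)⁻¹ (1 + sx ρ y) r (ρ / r) y θ j ≤ 15 * sG r (ρ / r) y) :
    ‖W0 r (ρ / r) (sE ρ y + θ)‖ ≤ 15 * Mm r ρ y ∧
      ‖W1 r (ρ / r) (sE ρ y + θ)‖ ≤ 15 * (r * Real.exp (-y)) * Mm r ρ y := by
  have hρ := hD.1
  have hδ : 0 < ρ / r := by positivity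
  have e : r * (ρ / r) = ρ := by field_simp
  have hx : 0 ≤ sx ρ y := sx_nonneg _ _
  have hs : 0 < 1 + sx ρ y := by linarith only [hx]
  have hcs : (1 + sx ρ y)⁻¹ * (1 + sx ρ y) = 1 := inv_mul_cancel₀ hs.ne'
  have hG := sG_pos (r := r) (δ := ρ / r) hδ hy
  have hMe : sM r (ρ / r) y = Mm r ρ y := by
    unfold sM Mm ph
    rw [e]
    have h1 := sD2_pos (ρ := ρ) hy
    have h3 : √(√(sD2 ρ y)) = (sD2 ρ y) ^ (1 / 4 : ℝ) := by
      rw [Real.sqrt_eq_rpow, Real.sqrt_eq_rpow, ← Real.rpow_mul h1.le]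
      norm_num
    rw [h3]
    congr 2
    field_simp
  have hM : 0 < Mm r ρ y := by
    have := sD2_pos (ρ := ρ) hy
    unfold Mm
    positivity
  have key : ∀ j : ℕ, j ≤ 1 → ‖Ef j (tt (ρ / r)) (wp r (ρ / r) (sE ρ y + θ))‖ ≤
      15 * (r * Real.exp (-y)) ^ j * Mm r ρ y := by
    intro j hj
    have h1 := Ef_shift_le (r := r) (δ := ρ / r) (y := y) (c := (1 + sx ρ y)⁻¹) (s1 := 1 + sx ρ y)
      (inv_pos.2 hs) hs hcs.le hδ (by rw [e]; exact hD) hy (by rw [hcs]; exact hy1) θ j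
    rw [e, hMe] at h1
    have h2 : ‖sK ρ y / ((ρ / r : ℝ) : ℂ)‖ = r * Real.exp (-y) := by
      rw [norm_div, norm_sK hD, Complex.norm_real, Real.norm_of_nonneg hδ.le]
      field_simp
    rw [h2] at h1
    refine h1.trans ?_
    rw [div_le_iff₀ hG]
    calc (r * Real.exp (-y)) ^ j * Mm r ρ y * mI (1 + sx ρ y)⁻¹ (1 + sx ρ y) r (ρ / r) y θ j ≤
          (r * Real.exp (-y)) ^ j * Mm r ρ y * (15 * sG r (ρ / r) y) :=
          mul_le_mul_of_nonneg_left (h j hj) (by positivity)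
      _ = _ := by ring
  constructor
  · have h0 := key 0 (by norm_num)
    rw [SokamF1M.Ef_zero, pow_zero, mul_one] at h0
    exact h0
  · have h1 := key 1 le_rfl
    rw [SokamF1M.Ef_one, pow_one] at h1
    exact h1

end SokamF1T

end

/-! ### Lib_MP_af4de1_v3.Fix -/

section
namespace SokamF1
end SokamF1
namespace SokamF1M
end SokamF1M
namespace SokamF1S
end SokamF1S
namespace SokamPG
end SokamPG
namespace SokamU
end SokamU
/-!
# The wave at the angle `sE (r δ) y + ζ` on the fixed path of the saddle point `y`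

The path does not depend on `ζ`; the absolute integral `mF` is a convex function of `ζ`.
-/

set_option autoImplicit false

open Complex MeasureTheory Filter Topology SokamU SokamPG SokamF1 SokamF1S SokamF1M

namespace SokamV3F

/-- the height on the fixed path -/
noncomputable def Hz (x y ζ a s : ℝ) : ℝ := SokamF1G.Ha x y a s + (y - a) * ζ

/-- The absolute integral on the fixed path with weight `e^(j a)`. -/
noncomputable def mF (c s1 r δ y ζ : ℝ) (j : ℕ) : ℝ :=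
  ∫ s : ℝ, ‖pv c s1 s‖ * (Real.exp (j * pc c s1 s) *
    Real.exp (-(Hz (sx (r * δ) y) y ζ (pc c s1 s) s / δ)))

/-- modulus of the integrand for the base point `(K - ζ)/δ` -/
theorem norm_fix {δ : ℝ} (hδ : 0 < δ) (x y ζ a s : ℝ) (hK : (x : ℂ) - ζ + y * I ≠ 0)
    (hK0 : (x : ℂ) + y * I ≠ 0) :
    ‖cexp (S (-((δ : ℂ) * I)) (((x : ℂ) - ζ + y * I) / δ))‖ *
      ‖f (-((δ : ℂ) * I)) (((x : ℂ) - ζ + y * I) / δ)
        (Complex.log (((x : ℂ) + y * I) / ((x : ℂ) - ζ + y * I))) (a + s * I)‖ =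
      Real.exp (x * (1 + y) / δ) * Real.exp (-(Hz x y ζ a s / δ)) := by
  have hd : (δ : ℂ) ≠ 0 := by exact_mod_cast hδ.ne'
  unfold f S
  rw [Complex.norm_exp, Complex.norm_exp, ← Real.exp_add, ← Real.exp_add]
  congr 1
  rw [Complex.exp_add, Complex.exp_log (div_ne_zero hK0 hK)]
  have e1 : ((a : ℂ) + s * I) ^ (2 : ℕ) / (2 * -((δ : ℂ) * I)) =
      ((-(a * s / δ) : ℝ) : ℂ) + (((a ^ (2 : ℕ) - s ^ (2 : ℕ)) / (2 * δ) : ℝ) : ℂ) * I := by
    push_cast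
    field_simp
    ring_nf
    rw [Complex.I_sq]
    ring
  have e2 : cexp (a + s * I) =
      ((Real.exp a * Real.cos s : ℝ) : ℂ) + ((Real.exp a * Real.sin s : ℝ) : ℂ) * I := by
    rw [Complex.exp_add, Complex.exp_mul_I, ← Complex.ofReal_exp, ← Complex.ofReal_cos,
      ← Complex.ofReal_sin]
    push_cast
    ring
  have e3 : ((x : ℂ) - ζ + y * I) / δ * (((x : ℂ) + y * I) / ((x : ℂ) - ζ + y * I) *
      cexp (a + s * I) - 1 - (a + s * I)) = ((1 / δ : ℝ) : ℂ) *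
      (((x : ℂ) + y * I) * cexp (a + s * I) - ((x : ℂ) - ζ + y * I) * (1 + (a + s * I))) := by
    push_cast
    field_simp
    ring
  have e4 : ((x : ℂ) - ζ + y * I) / δ + -((δ : ℂ) * I) * (((x : ℂ) - ζ + y * I) / δ) ^ (2 : ℕ) / 2 =
      ((1 / δ : ℝ) : ℂ) * (((x : ℂ) - ζ + y * I) - I * ((x : ℂ) - ζ + y * I) ^ (2 : ℕ) / 2) := by
    push_cast
    field_simp
    ring
  have e5 : (((x : ℂ) - ζ + y * I) - I * ((x : ℂ) - ζ + y * I) ^ (2 : ℕ) / 2) =
      (((x - ζ) + (x - ζ) * y : ℝ) : ℂ) + ((y - ((x - ζ) ^ (2 : ℕ) - y ^ (2 : ℕ)) / 2 : ℝ) : ℂ) * I := by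
    push_cast
    ring_nf
    rw [show (I : ℂ) ^ (3 : ℕ) = -I by rw [pow_succ, Complex.I_sq]; ring, Complex.I_sq]
    ring
  rw [e1, e3, e2, e4, e5]
  unfold Hz SokamF1G.Ha
  simp only [Complex.add_re, Complex.mul_re, Complex.sub_re, Complex.add_im, Complex.mul_im,
    Complex.sub_im, Complex.ofReal_re, Complex.ofReal_im, Complex.I_re, Complex.I_im,
    Complex.one_re, Complex.one_im]
  ring

theorem norm_gi_fix {c s1 δ : ℝ} (hδ : 0 < δ) (x y ζ : ℝ) (hK : (x : ℂ) - ζ + y * I ≠ 0)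
    (hK0 : (x : ℂ) + y * I ≠ 0) (j : ℕ) (s : ℝ) :
    ‖cexp (S (-((δ : ℂ) * I)) (((x : ℂ) - ζ + y * I) / δ))‖ *
      ‖gi c s1 (fun h => (((x : ℂ) - ζ + y * I) / δ *
        cexp (Complex.log (((x : ℂ) + y * I) / ((x : ℂ) - ζ + y * I)) + h)) ^ j)
        (((x : ℂ) - ζ + y * I) / δ)
        (Complex.log (((x : ℂ) + y * I) / ((x : ℂ) - ζ + y * I))) (-((δ : ℂ) * I)) s‖ =
      Real.exp (x * (1 + y) / δ) * ‖((x : ℂ) + y * I) / δ‖ ^ j * (‖pv c s1 s‖ *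
        (Real.exp (j * pc c s1 s) * Real.exp (-(Hz x y ζ (pc c s1 s) s / δ)))) := by
  have hd : (δ : ℂ) ≠ 0 := by exact_mod_cast hδ.ne'
  have h1 := norm_fix hδ x y ζ (pc c s1 s) s hK hK0
  have h2 : ((x : ℂ) - ζ + y * I) / δ *
      cexp (Complex.log (((x : ℂ) + y * I) / ((x : ℂ) - ζ + y * I)) + pz c s1 s) =
      ((x : ℂ) + y * I) / δ * cexp (pz c s1 s) := by
    rw [Complex.exp_add, Complex.exp_log (div_ne_zero hK0 hK)]
    field_simp
  have h3 : ‖cexp (pz c s1 s)‖ = Real.exp (pc c s1 s) := by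
    rw [Complex.norm_exp, pz_re]
  unfold gi
  beta_reduce
  rw [norm_mul, norm_mul, h2, norm_pow, norm_mul, h3, mul_pow, ← Real.exp_nat_mul]
  have h4 : pz c s1 s = (pc c s1 s : ℂ) + s * I := rfl
  rw [h4]
  calc _ = (‖cexp (S (-((δ : ℂ) * I)) (((x : ℂ) - ζ + y * I) / δ))‖ *
      ‖f (-((δ : ℂ) * I)) (((x : ℂ) - ζ + y * I) / δ)
        (Complex.log (((x : ℂ) + y * I) / ((x : ℂ) - ζ + y * I))) (pc c s1 s + s * I)‖) *
        (‖pv c s1 s‖ * (‖((x : ℂ) + y * I) / δ‖ ^ j * Real.exp (j * pc c s1 s))) := by ring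
    _ = _ := by rw [h1]; ring

theorem im_base {x y ζ δ a : ℝ} (hδ : 0 < δ) (hk : |y| < a) :
    |(((x : ℂ) - ζ + y * I) / δ).im| < a / δ := by
  have e : ((x : ℂ) - ζ + y * I) / δ = ((1 / δ : ℝ) : ℂ) * ((x : ℂ) - ζ + y * I) := by
    push_cast; ring
  have e2 : ((x : ℂ) - ζ + y * I).im = y := by simp
  rw [e, Complex.im_ofReal_mul, e2, abs_mul, abs_of_pos (by positivity : 0 < 1 / δ), one_div,
    inv_mul_eq_div]
  gcongr

theorem base_ne {x y ζ : ℝ} (hy : y ≠ 0) : (x : ℂ) - ζ + y * I ≠ 0 := by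
  intro h
  have := congrArg Complex.im h
  simp at this
  exact hy this

theorem integrable_mF' {x δ y c s1 : ℝ} (hc : 0 < c) (hs : 0 < s1) (hcs : c * s1 ≤ 1)
    (hδ : 0 < δ) (hk : |y| < c * s1) (hy : y ≠ 0) (ζ : ℝ) (j : ℕ) :
    Integrable fun s : ℝ => ‖pv c s1 s‖ * (Real.exp (j * pc c s1 s) *
      Real.exp (-(Hz x y ζ (pc c s1 s) s / δ))) := by
  have hK := base_ne (x := x) (ζ := ζ) hy
  have hK0 : (x : ℂ) + y * I ≠ 0 := by
    have := base_ne (x := x) (ζ := 0) hy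
    simpa using this
  have hd : (δ : ℂ) ≠ 0 := by exact_mod_cast hδ.ne'
  have h1 := ((integrable_path hc hs hcs hδ (((x : ℂ) - ζ + y * I) / δ)
    (Complex.log (((x : ℂ) + y * I) / ((x : ℂ) - ζ + y * I))) (im_base hδ hk)
    (Wt_pow (((x : ℂ) - ζ + y * I) / δ)
      (Complex.log (((x : ℂ) + y * I) / ((x : ℂ) - ζ + y * I))) j)).norm).const_mul
      (‖cexp (S (-((δ : ℂ) * I)) (((x : ℂ) - ζ + y * I) / δ))‖)
  have hn : 0 < Real.exp (x * (1 + y) / δ) * ‖((x : ℂ) + y * I) / δ‖ ^ j := by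
    have : 0 < ‖((x : ℂ) + y * I) / δ‖ := norm_pos_iff.2 (div_ne_zero hK0 hd)
    positivity
  have h2 := h1.const_mul (Real.exp (x * (1 + y) / δ) * ‖((x : ℂ) + y * I) / δ‖ ^ j)⁻¹
  refine h2.congr (Eventually.of_forall fun s => ?_)
  simp only
  rw [norm_gi_fix hδ x y ζ hK hK0]
  field_simp

theorem integrable_mF {r δ y c s1 : ℝ} (hc : 0 < c) (hs : 0 < s1) (hcs : c * s1 ≤ 1)
    (hδ : 0 < δ) (hk : |y| < c * s1) (hy : y ≠ 0) (ζ : ℝ) (j : ℕ) :
    Integrable fun s : ℝ => ‖pv c s1 s‖ * (Real.exp (j * pc c s1 s) *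
      Real.exp (-(Hz (sx (r * δ) y) y ζ (pc c s1 s) s / δ))) :=
  integrable_mF' hc hs hcs hδ hk hy ζ j

theorem Ef_fix_le {r δ y c s1 : ℝ} (hc : 0 < c) (hs : 0 < s1) (hcs : c * s1 ≤ 1)
    (hδ : 0 < δ) (hD : Dom (r * δ) y) (hy : -1 < y) (hk : |y| < c * s1) (hy0 : y ≠ 0) (ζ : ℝ)
    (j : ℕ) :
    ‖Ef j (tt δ) (wp r δ (sE (r * δ) y + ζ))‖ ≤
      ‖sK (r * δ) y / δ‖ ^ j * sM r δ y * (mF c s1 r δ y ζ j / sG r δ y) := by
  set x := sx (r * δ) y with hx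
  have hK := base_ne (x := x) (ζ := ζ) hy0
  have hK0 : (x : ℂ) + y * I ≠ 0 := by
    have := base_ne (x := x) (ζ := 0) hy0
    simpa using this
  have hd : (δ : ℂ) ≠ 0 := by exact_mod_cast hδ.ne'
  have h0 : zp (-((δ : ℂ) * I)) (((x : ℂ) - ζ + y * I) / δ) *
      cexp (Complex.log (((x : ℂ) + y * I) / ((x : ℂ) - ζ + y * I))) =
      wp r δ (sE (r * δ) y + ζ) := by
    rw [wp_add hδ hD, Complex.exp_log (div_ne_zero hK0 hK)]
    unfold zp
    have e1 : cexp (-((δ : ℂ) * I) * (((x : ℂ) - ζ + y * I) / δ) - -((δ : ℂ) * I) / 2) =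
        cexp (-((δ : ℂ) * I) * (sK (r * δ) y / δ) - -((δ : ℂ) * I) / 2) * cexp (ζ * I) := by
      rw [← Complex.exp_add]
      congr 1
      unfold sK
      rw [← hx]
      field_simp
      ring
    rw [e1]
    unfold sK
    rw [← hx]
    field_simp
  have h1 := congrArg norm (path_formula hc hs hcs hδ (((x : ℂ) - ζ + y * I) / δ)
    (Complex.log (((x : ℂ) + y * I) / ((x : ℂ) - ζ + y * I))) (im_base hδ hk) j)
  rw [h0, norm_mul, norm_mul, norm_gcst hδ] at h1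
  have h2 : 0 < √(2 * Real.pi * δ) := Real.sqrt_pos.2 (by have := Real.pi_pos; positivity)
  have h3 := sM_sG (r := r) hδ hy
  have h4 : ‖cexp (S (-((δ : ℂ) * I)) (((x : ℂ) - ζ + y * I) / δ))‖ *
      ‖∫ s : ℝ, gi c s1 (fun h => (((x : ℂ) - ζ + y * I) / δ *
        cexp (Complex.log (((x : ℂ) + y * I) / ((x : ℂ) - ζ + y * I)) + h)) ^ j)
        (((x : ℂ) - ζ + y * I) / δ)
        (Complex.log (((x : ℂ) + y * I) / ((x : ℂ) - ζ + y * I))) (-((δ : ℂ) * I)) s‖ ≤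
      Real.exp (x * (1 + y) / δ) * ‖((x : ℂ) + y * I) / δ‖ ^ j * mF c s1 r δ y ζ j := by
    refine (mul_le_mul_of_nonneg_left (norm_integral_le_integral_norm _) (norm_nonneg _)).trans
      (le_of_eq ?_)
    unfold mF
    rw [← integral_const_mul, ← integral_const_mul]
    refine integral_congr_ae (Eventually.of_forall fun s => ?_)
    exact norm_gi_fix hδ x y ζ hK hK0 j s
  have h5 : ‖Ef j (tt δ) (wp r δ (sE (r * δ) y + ζ))‖ * √(2 * Real.pi * δ) ≤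
      Real.exp (x * (1 + y) / δ) * ‖((x : ℂ) + y * I) / δ‖ ^ j * mF c s1 r δ y ζ j := by
    refine le_trans (le_of_eq ?_) h4
    rw [← h1, mul_comm]
    rfl
  have h6 : Real.exp (x * (1 + y) / δ) = sM r δ y / sG r δ y * √(2 * Real.pi * δ) := by
    rw [← h3, hx]
    field_simp
  rw [h6] at h5
  have h7 : ‖Ef j (tt δ) (wp r δ (sE (r * δ) y + ζ))‖ * √(2 * Real.pi * δ) ≤
      (‖((x : ℂ) + y * I) / δ‖ ^ j * sM r δ y * (mF c s1 r δ y ζ j / sG r δ y)) *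
        √(2 * Real.pi * δ) := by
    refine h5.trans (le_of_eq ?_)
    ring
  exact le_of_mul_le_mul_right h7 h2

/-- Convexity in `ζ`. -/
theorem mF_convex {r δ y c s1 Z ζ θ : ℝ} (hc : 0 < c) (hs : 0 < s1) (hcs : c * s1 ≤ 1)
    (hδ : 0 < δ) (hk : |y| < c * s1) (hy : y ≠ 0) (h0 : 0 ≤ θ) (h1 : θ ≤ 1) (hζ : ζ = θ * Z)
    (j : ℕ) : mF c s1 r δ y ζ j ≤ (1 - θ) * mF c s1 r δ y 0 j + θ * mF c s1 r δ y Z j := by
  unfold mF
  rw [← integral_const_mul, ← integral_const_mul, ← integral_add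
    ((integrable_mF hc hs hcs hδ hk hy 0 j).const_mul _)
    ((integrable_mF hc hs hcs hδ hk hy Z j).const_mul _)]
  refine integral_mono (integrable_mF hc hs hcs hδ hk hy ζ j)
    (((integrable_mF hc hs hcs hδ hk hy 0 j).const_mul _).add
    ((integrable_mF hc hs hcs hδ hk hy Z j).const_mul _)) fun s => ?_
  simp only
  set a := pc c s1 s
  set x := sx (r * δ) y
  have e1 : -(Hz x y ζ a s / δ) = (1 - θ) * (-(Hz x y 0 a s / δ)) + θ * (-(Hz x y Z a s / δ)) := by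
    rw [hζ]
    unfold Hz
    field_simp
    ring
  have h2 : Real.exp (-(Hz x y ζ a s / δ)) ≤ (1 - θ) * Real.exp (-(Hz x y 0 a s / δ)) +
      θ * Real.exp (-(Hz x y Z a s / δ)) := by
    rw [e1]
    have := convexOn_exp.2 (Set.mem_univ (-(Hz x y 0 a s / δ)))
      (Set.mem_univ (-(Hz x y Z a s / δ))) (sub_nonneg.2 h1) h0 (by ring)
    simpa using this
  have h3 : 0 ≤ ‖pv c s1 s‖ * Real.exp (j * a) := by positivity
  calc ‖pv c s1 s‖ * (Real.exp (j * a) * Real.exp (-(Hz x y ζ a s / δ))) =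
        ‖pv c s1 s‖ * Real.exp (j * a) * Real.exp (-(Hz x y ζ a s / δ)) := by ring
    _ ≤ ‖pv c s1 s‖ * Real.exp (j * a) * ((1 - θ) * Real.exp (-(Hz x y 0 a s / δ)) +
      θ * Real.exp (-(Hz x y Z a s / δ))) := mul_le_mul_of_nonneg_left h2 h3
    _ = _ := by ring

/-- Only the two ends matter. -/
theorem mF_le_max {r δ y c s1 Z ζ C : ℝ} (hc : 0 < c) (hs : 0 < s1) (hcs : c * s1 ≤ 1)
    (hδ : 0 < δ) (hk : |y| < c * s1) (hy : y ≠ 0) (hζ : 0 ≤ ζ * Z) (hζ2 : |ζ| ≤ |Z|)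
    {j : ℕ} (h0 : mF c s1 r δ y 0 j ≤ C) (hZ : mF c s1 r δ y Z j ≤ C) :
    mF c s1 r δ y ζ j ≤ C := by
  rcases eq_or_ne Z 0 with rfl | hZ0
  · have : ζ = 0 := by simpa using hζ2
    rwa [this]
  have hZp : 0 < Z ^ (2 : ℕ) := by positivity
  have hθ : ζ = (ζ * Z / Z ^ (2 : ℕ)) * Z := by field_simp
  have h1 : ζ * Z / Z ^ (2 : ℕ) ≤ 1 := by
    rw [div_le_one hZp]
    calc ζ * Z ≤ |ζ| * |Z| := by rw [← abs_mul]; exact le_abs_self _
      _ ≤ |Z| * |Z| := by gcongr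
      _ = Z ^ (2 : ℕ) := by rw [← abs_mul, ← sq, abs_of_pos hZp]
  have h2 : 0 ≤ ζ * Z / Z ^ (2 : ℕ) := by positivity
  refine (mF_convex hc hs hcs hδ hk hy h2 h1 hθ j).trans ?_
  have := mul_le_mul_of_nonneg_left h0 (sub_nonneg.2 h1)
  have := mul_le_mul_of_nonneg_left hZ h2
  linarith

/-- `Out` from two bounds. -/
theorem out_of {r δ y ζ C : ℝ} (h0 : ‖Ef 0 (tt δ) (wp r δ (sE (r * δ) y + ζ))‖ ≤ C * sM r δ y)
    (h1 : ‖Ef 1 (tt δ) (wp r δ (sE (r * δ) y + ζ))‖ ≤ C * ‖sK (r * δ) y / δ‖ * sM r δ y) :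
    SokamV3.Out r δ y ζ C := by
  intro m hm
  unfold SokamV3.V0 SokamV3.V1 SokamV3.kap
  rw [SokamF1M.Ef_zero] at h0
  rw [SokamF1M.Ef_one] at h1
  refine (norm_add_le _ _).trans ?_
  rw [norm_mul, Complex.norm_real, Real.norm_of_nonneg hm]
  have := mul_le_mul_of_nonneg_left h0 hm
  linarith

/-- `Out` from the two absolute integrals at the two ends. -/
theorem out_of_mF {r δ y c s1 Z ζ C : ℝ} (hc : 0 < c) (hs : 0 < s1) (hcs : c * s1 ≤ 1)
    (hδ : 0 < δ) (hD : Dom (r * δ) y) (hy : -1 < y) (hk : |y| < c * s1) (hy0 : y ≠ 0)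
    (hζ : 0 ≤ ζ * Z) (hζ2 : |ζ| ≤ |Z|)
    (h00 : mF c s1 r δ y 0 0 ≤ C * sG r δ y) (h0Z : mF c s1 r δ y Z 0 ≤ C * sG r δ y)
    (h10 : mF c s1 r δ y 0 1 ≤ C * sG r δ y) (h1Z : mF c s1 r δ y Z 1 ≤ C * sG r δ y) :
    SokamV3.Out r δ y ζ C := by
  have hG := sG_pos (r := r) hδ hy
  have hM := sM_pos (r := r) (δ := δ) hy
  have a0 := mF_le_max hc hs hcs hδ hk hy0 hζ hζ2 h00 h0Z
  have a1 := mF_le_max hc hs hcs hδ hk hy0 hζ hζ2 h10 h1Z
  have b0 : mF c s1 r δ y ζ 0 / sG r δ y ≤ C := by rwa [div_le_iff₀ hG]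
  have b1 : mF c s1 r δ y ζ 1 / sG r δ y ≤ C := by rwa [div_le_iff₀ hG]
  refine out_of ?_ ?_
  · refine (Ef_fix_le hc hs hcs hδ hD hy hk hy0 ζ 0).trans ?_
    rw [pow_zero, one_mul, mul_comm C]
    exact mul_le_mul_of_nonneg_left b0 hM.le
  · refine (Ef_fix_le hc hs hcs hδ hD hy hk hy0 ζ 1).trans ?_
    rw [pow_one]
    have : 0 ≤ ‖sK (r * δ) y / δ‖ * sM r δ y := by positivity
    have := mul_le_mul_of_nonneg_left b1 this
    linarith

end SokamV3F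

end

/-! ### Lib_MP_af4de1_v3o.OWt -/

section
namespace SokamF1
end SokamF1
namespace SokamF1M
end SokamF1M
namespace SokamF1S
end SokamF1S
namespace SokamPG
end SokamPG
namespace SokamU
end SokamU
/-!
# The integrand on the centred path, and the facts about the parameters
-/

set_option autoImplicit false

open Complex MeasureTheory Set SokamU SokamPG SokamF1 SokamF1S SokamF1M

namespace SokamV3O

/-- break point -/
noncomputable def ss (x : ℝ) : ℝ := min 4 (1 + x)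

/-- real part of the path -/
noncomputable def pr (x s : ℝ) : ℝ := pc (1 + x)⁻¹ (ss x) s

/-- absolute value of the integrand, weight `e^(j a)` -/
noncomputable def Wt (x y z τ δ : ℝ) (j : ℕ) (s : ℝ) : ℝ :=
  ‖pv (1 + x)⁻¹ (ss x) s‖ * (Real.exp (j * pr x s) * Real.exp (-(Hc x y z τ (pr x s) s / δ)))

/-- the Gaussian -/
noncomputable def Gn (x y δ : ℝ) : ℝ := √(2 * Real.pi * δ / √((1 + y) ^ (2 : ℕ) + x ^ (2 : ℕ)))

theorem ss_pos {x : ℝ} (hx : 0 ≤ x) : 0 < ss x := lt_min (by norm_num) (by linarith)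

theorem ss_le (x : ℝ) : ss x ≤ 1 + x := min_le_right _ _

theorem c_ss {x : ℝ} (hx : 0 ≤ x) : (1 + x)⁻¹ * ss x = a4 x := by
  have h : 0 < 1 + x := by linarith
  unfold ss a4
  rw [inv_mul_eq_div]
  rcases le_total 4 (1 + x) with h1 | h1
  · rw [min_eq_left h1, min_eq_right]
    rw [div_le_one h]
    exact h1
  · rw [min_eq_right h1, div_self h.ne', min_eq_left]
    rw [le_div_iff₀ h]
    linarith

theorem a4_pos {x : ℝ} (hx : 0 ≤ x) : 0 < a4 x := by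
  rw [← c_ss hx]
  have := ss_pos hx
  have h : 0 < 1 + x := by linarith
  positivity

theorem a4_le (x : ℝ) : a4 x ≤ 1 := min_le_left _ _

theorem pa_nonneg {x s : ℝ} (hx : 0 ≤ x) (hs : 0 ≤ s) : 0 ≤ pa x s := by
  have h : 0 < 1 + x := by linarith
  exact le_min (by positivity) (a4_pos hx).le

theorem pa_le (x s : ℝ) : pa x s ≤ a4 x := min_le_right _ _

/-- right part of the path -/
theorem pr_pos {x s : ℝ} (hx : 0 ≤ x) (hs : 0 ≤ s) : pr x s = pa x s := by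
  have h : 0 < 1 + x := by linarith
  have h1 := pa_nonneg hx hs
  have h2 := a4_pos hx
  unfold pr pc pa at *
  rw [c_ss hx, inv_mul_eq_div, min_comm, max_eq_right]
  linarith

/-- left part of the path -/
theorem pr_neg {x v : ℝ} (hx : 0 ≤ x) (hv : 0 ≤ v) : pr x (-v) = -(pa x v) := by
  have h : 0 < 1 + x := by linarith
  have h2 := a4_pos hx
  have h3 : 0 ≤ v / (1 + x) := by (clear * - hv hx; positivity)
  unfold pr pc pa
  rw [c_ss hx, inv_mul_eq_div, neg_div, min_eq_right (by linarith : -(v / (1 + x)) ≤ a4 x)]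
  rcases le_total (v / (1 + x)) (a4 x) with h4 | h4
  · rw [min_eq_left h4, max_eq_right (by linarith)]
  · rw [min_eq_right h4, max_eq_left (by linarith)]

/-- flat part of the path -/
theorem pa_flat {x s : ℝ} (hx : 0 ≤ x) (hs : ss x ≤ s) : pa x s = a4 x := by
  have h : 0 < 1 + x := by linarith
  unfold pa
  refine min_eq_right ?_
  rw [← c_ss hx, inv_mul_eq_div]
  gcongr

theorem pv_flat {x s : ℝ} (hs : ss x ≤ |s|) : ‖pv (1 + x)⁻¹ (ss x) s‖ = 1 := by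
  unfold pv
  rw [if_neg (not_lt.2 hs), norm_one]

theorem pv_le {x : ℝ} (hx : 0 ≤ x) (s : ℝ) :
    ‖pv (1 + x)⁻¹ (ss x) s‖ ≤ √(1 + ((1 + x)⁻¹) ^ (2 : ℕ)) := by
  unfold pv
  have h : 0 ≤ (1 + x)⁻¹ := by positivity
  generalize (1 + x)⁻¹ = c at h ⊢
  split_ifs
  · rw [Complex.norm_def]
    refine Real.sqrt_le_sqrt (le_of_eq ?_)
    simp [Complex.normSq_apply]
    ring
  · rw [norm_one]
    exact Real.one_le_sqrt.2 (by nlinarith only [])

/-- All facts of the left side, `y ≥ 0`. -/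
structure FL (x y z τ k ψ ρ r δ : ℝ) : Prop where
  sh : ShL x y z τ k ψ
  rho : ρ = k * Real.exp y
  r0 : 499 / 10 ≤ r
  del : δ = ρ / r
  G : 27 / 5 * (1 + ρ ^ (2 : ℕ)) ≤ r * (2 * Real.pi / 3) ^ (2 : ℕ)
  η : ψ + ρ - x ≤ Real.pi / 2
  ηζ : ψ + ρ - x + (z + τ) ≤ 2 * Real.pi / 3
  /-- height of the saddle point against the width -/
  w1 : 5 / 4 * δ ≤ y
  w2 : ρ ≤ 17 / 10 → 4 * δ ≤ y
  yx : y * (1 + x) < 4

/-- All facts of the right side, `n = -y ≥ 0`. -/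
structure FR (x n z τ k ψ ρ r δ : ℝ) : Prop where
  sh : ShR x n z τ k ψ
  rho : ρ = k * Real.exp (-n)
  r0 : 499 / 10 ≤ r
  del : δ = ρ / r
  D : 13 / 20 ≤ (1 - n) ^ (2 : ℕ) + x ^ (2 : ℕ)
  G : 27 / 5 * (1 + ρ ^ (2 : ℕ)) ≤ r * (2 * Real.pi / 3) ^ (2 : ℕ)
  η : ψ + x - ρ ≤ Real.pi / 2
  ηζ : ψ + x - ρ + (z + τ) ≤ 2 * Real.pi / 3
  w1 : 5 / 4 * δ ≤ n
  w2 : ρ ≤ 17 / 10 → 4 * δ ≤ n
  yx : n * (1 + x) < 4

end SokamV3O

end

/-! ### Lib_MP_af4de1_v3o.OFm -/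

section
namespace SokamF1
end SokamF1
namespace SokamF1M
end SokamF1M
namespace SokamF1S
end SokamF1S
namespace SokamPG
end SokamPG
namespace SokamU
end SokamU
/-!
# The wave at the angle `sE (r δ) y + (z + τ)` on the centred path
-/

set_option autoImplicit false

open Complex MeasureTheory Filter Topology SokamU SokamPG SokamF1 SokamF1S SokamF1M

namespace SokamV3O

/-- the shift of the path -/
noncomputable def xc (x y z τ : ℝ) : ℂ :=
  Complex.log (((x : ℂ) + y * I) / ((x : ℂ) - z + y * I)) + τ * I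

theorem exp_xc {x y z τ : ℝ} (hK : (x : ℂ) - z + y * I ≠ 0) (hK0 : (x : ℂ) + y * I ≠ 0) :
    cexp (xc x y z τ) = ((x : ℂ) + y * I) / ((x : ℂ) - z + y * I) * cexp (τ * I) := by
  unfold xc
  rw [Complex.exp_add, Complex.exp_log (div_ne_zero hK0 hK)]

/-- modulus of the integrand for the base point `(K - z)/δ` -/
theorem norm_cen {δ : ℝ} (hδ : 0 < δ) (x y z τ a s : ℝ) (hK : (x : ℂ) - z + y * I ≠ 0)
    (hK0 : (x : ℂ) + y * I ≠ 0) :
    ‖cexp (S (-((δ : ℂ) * I)) (((x : ℂ) - z + y * I) / δ))‖ *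
      ‖f (-((δ : ℂ) * I)) (((x : ℂ) - z + y * I) / δ) (xc x y z τ) (a + s * I)‖ =
      Real.exp (x * (1 + y) / δ) * Real.exp (-(Hc x y z τ a s / δ)) := by
  have hd : (δ : ℂ) ≠ 0 := by exact_mod_cast hδ.ne'
  unfold f S
  rw [Complex.norm_exp, Complex.norm_exp, ← Real.exp_add, ← Real.exp_add]
  congr 1
  rw [Complex.exp_add, exp_xc hK hK0]
  have e1 : ((a : ℂ) + s * I) ^ (2 : ℕ) / (2 * -((δ : ℂ) * I)) =
      ((-(a * s / δ) : ℝ) : ℂ) + (((a ^ (2 : ℕ) - s ^ (2 : ℕ)) / (2 * δ) : ℝ) : ℂ) * I := by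
    push_cast
    field_simp
    ring_nf
    rw [Complex.I_sq]
    ring
  have e2 : cexp (τ * I) * cexp (a + s * I) =
      ((Real.exp a * Real.cos (s + τ) : ℝ) : ℂ) +
        ((Real.exp a * Real.sin (s + τ) : ℝ) : ℂ) * I := by
    rw [← Complex.exp_add, show (τ : ℂ) * I + (a + s * I) = a + ((s + τ : ℝ) : ℂ) * I by
      push_cast; ring, Complex.exp_add, Complex.exp_mul_I, ← Complex.ofReal_exp,
      ← Complex.ofReal_cos, ← Complex.ofReal_sin]
    push_cast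
    ring
  have e3 : ((x : ℂ) - z + y * I) / δ * (((x : ℂ) + y * I) / ((x : ℂ) - z + y * I) *
      cexp (τ * I) * cexp (a + s * I) - 1 - (a + s * I)) = ((1 / δ : ℝ) : ℂ) *
      (((x : ℂ) + y * I) * (cexp (τ * I) * cexp (a + s * I)) -
        ((x : ℂ) - z + y * I) * (1 + (a + s * I))) := by
    push_cast
    field_simp
    ring
  have e4 : ((x : ℂ) - z + y * I) / δ + -((δ : ℂ) * I) * (((x : ℂ) - z + y * I) / δ) ^ (2 : ℕ) / 2 =
      ((1 / δ : ℝ) : ℂ) * (((x : ℂ) - z + y * I) - I * ((x : ℂ) - z + y * I) ^ (2 : ℕ) / 2) := by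
    push_cast
    field_simp
    ring
  have e5 : (((x : ℂ) - z + y * I) - I * ((x : ℂ) - z + y * I) ^ (2 : ℕ) / 2) =
      (((x - z) + (x - z) * y : ℝ) : ℂ) + ((y - ((x - z) ^ (2 : ℕ) - y ^ (2 : ℕ)) / 2 : ℝ) : ℂ) * I := by
    push_cast
    ring_nf
    rw [show (I : ℂ) ^ (3 : ℕ) = -I by rw [pow_succ, Complex.I_sq]; ring, Complex.I_sq]
    ring
  rw [e1, e3, e2, e4, e5]
  unfold Hc
  simp only [Complex.add_re, Complex.mul_re, Complex.sub_re, Complex.add_im, Complex.mul_im,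
    Complex.sub_im, Complex.ofReal_re, Complex.ofReal_im, Complex.I_re, Complex.I_im,
    Complex.one_re, Complex.one_im]
  ring

theorem norm_gi_cen {c s1 δ : ℝ} (hδ : 0 < δ) (x y z τ : ℝ) (hK : (x : ℂ) - z + y * I ≠ 0)
    (hK0 : (x : ℂ) + y * I ≠ 0) (j : ℕ) (s : ℝ) :
    ‖cexp (S (-((δ : ℂ) * I)) (((x : ℂ) - z + y * I) / δ))‖ *
      ‖gi c s1 (fun h => (((x : ℂ) - z + y * I) / δ * cexp (xc x y z τ + h)) ^ j)
        (((x : ℂ) - z + y * I) / δ) (xc x y z τ) (-((δ : ℂ) * I)) s‖ =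
      Real.exp (x * (1 + y) / δ) * ‖((x : ℂ) + y * I) / δ‖ ^ j * (‖pv c s1 s‖ *
        (Real.exp (j * pc c s1 s) * Real.exp (-(Hc x y z τ (pc c s1 s) s / δ)))) := by
  have hd : (δ : ℂ) ≠ 0 := by exact_mod_cast hδ.ne'
  have h1 := norm_cen hδ x y z τ (pc c s1 s) s hK hK0
  have h2 : ((x : ℂ) - z + y * I) / δ * cexp (xc x y z τ + SokamPG.pz c s1 s) =
      ((x : ℂ) + y * I) / δ * (cexp (τ * I) * cexp (SokamPG.pz c s1 s)) := by
    rw [Complex.exp_add, exp_xc hK hK0]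
    field_simp
  have h3 : ‖cexp (SokamPG.pz c s1 s)‖ = Real.exp (pc c s1 s) := by
    rw [Complex.norm_exp, pz_re]
  have h5 : ‖cexp ((τ : ℂ) * I)‖ = 1 := Complex.norm_exp_ofReal_mul_I τ
  unfold gi
  beta_reduce
  rw [norm_mul, norm_mul, h2, norm_pow, norm_mul, norm_mul, h5, one_mul, h3, mul_pow,
    ← Real.exp_nat_mul]
  have h4 : SokamPG.pz c s1 s = (pc c s1 s : ℂ) + s * I := rfl
  rw [h4]
  calc _ = (‖cexp (S (-((δ : ℂ) * I)) (((x : ℂ) - z + y * I) / δ))‖ *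
      ‖f (-((δ : ℂ) * I)) (((x : ℂ) - z + y * I) / δ) (xc x y z τ) (pc c s1 s + s * I)‖) *
        (‖pv c s1 s‖ * (‖((x : ℂ) + y * I) / δ‖ ^ j * Real.exp (j * pc c s1 s))) := by ring
    _ = _ := by rw [h1]; ring

theorem K_ne {x y : ℝ} (hy : y ≠ 0) : (x : ℂ) + y * I ≠ 0 := by
  have := SokamV3F.base_ne (x := x) (ζ := 0) hy
  simpa using this

theorem integrable_Wt {x y δ : ℝ} (hx : 0 ≤ x) (hδ : 0 < δ) (hk : |y| < a4 x) (hy : y ≠ 0)
    (z τ : ℝ) (j : ℕ) : Integrable (Wt x y z τ δ j) := by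
  have hK := SokamV3F.base_ne (x := x) (ζ := z) hy
  have hK0 := K_ne (x := x) hy
  have hd : (δ : ℂ) ≠ 0 := by exact_mod_cast hδ.ne'
  have h : 0 < (1 + x)⁻¹ := by (clear * - hx; positivity)
  have hcs : (1 + x)⁻¹ * ss x ≤ 1 := by
    rw [c_ss hx]
    exact a4_le x
  have hk' : |y| < (1 + x)⁻¹ * ss x := by rwa [c_ss hx]
  have h1 := ((integrable_path h (ss_pos hx) hcs hδ (((x : ℂ) - z + y * I) / δ)
    (xc x y z τ) (SokamV3F.im_base hδ hk')
    (Wt_pow (((x : ℂ) - z + y * I) / δ) (xc x y z τ) j)).norm).const_mul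
      (‖cexp (S (-((δ : ℂ) * I)) (((x : ℂ) - z + y * I) / δ))‖)
  have hn : 0 < Real.exp (x * (1 + y) / δ) * ‖((x : ℂ) + y * I) / δ‖ ^ j := by
    have : 0 < ‖((x : ℂ) + y * I) / δ‖ := norm_pos_iff.2 (div_ne_zero hK0 hd)
    (clear * - this; positivity)
  have h2 := h1.const_mul (Real.exp (x * (1 + y) / δ) * ‖((x : ℂ) + y * I) / δ‖ ^ j)⁻¹
  refine h2.congr (Eventually.of_forall fun s => ?_)
  simp only
  rw [norm_gi_cen hδ x y z τ hK hK0]
  unfold Wt pr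
  field_simp

theorem Ef_cen_le {r δ y : ℝ} (hδ : 0 < δ) (hD : Dom (r * δ) y) (hy : -1 < y)
    (hk : |y| < a4 (sx (r * δ) y)) (hy0 : y ≠ 0) (z τ : ℝ) (j : ℕ) :
    ‖Ef j (tt δ) (wp r δ (sE (r * δ) y + (z + τ)))‖ ≤
      ‖sK (r * δ) y / δ‖ ^ j * sM r δ y *
        ((∫ s : ℝ, Wt (sx (r * δ) y) y z τ δ j s) / sG r δ y) := by
  set x := sx (r * δ) y with hx
  have hx0 : 0 ≤ x := sx_nonneg _ _
  have hK := SokamV3F.base_ne (x := x) (ζ := z) hy0
  have hK0 := K_ne (x := x) hy0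
  have hd : (δ : ℂ) ≠ 0 := by exact_mod_cast hδ.ne'
  have h : 0 < (1 + x)⁻¹ := by (clear * - hx0; positivity)
  have hcs : (1 + x)⁻¹ * ss x ≤ 1 := by
    rw [c_ss hx0]
    exact a4_le x
  have hk' : |y| < (1 + x)⁻¹ * ss x := by rwa [c_ss hx0]
  have h0 : zp (-((δ : ℂ) * I)) (((x : ℂ) - z + y * I) / δ) * cexp (xc x y z τ) =
      wp r δ (sE (r * δ) y + (z + τ)) := by
    rw [wp_add hδ hD, exp_xc hK hK0]
    unfold zp
    have e1 : cexp (-((δ : ℂ) * I) * (((x : ℂ) - z + y * I) / δ) - -((δ : ℂ) * I) / 2) =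
        cexp (-((δ : ℂ) * I) * (sK (r * δ) y / δ) - -((δ : ℂ) * I) / 2) * cexp (z * I) := by
      rw [← Complex.exp_add]
      congr 1
      unfold sK
      rw [← hx]
      field_simp
      ring
    have e2 : cexp (((z + τ : ℝ) : ℂ) * I) = cexp (z * I) * cexp (τ * I) := by
      rw [← Complex.exp_add]
      congr 1
      push_cast
      ring
    rw [e1, e2]
    unfold sK
    rw [← hx]
    field_simp
  have h1 := congrArg norm (path_formula h (ss_pos hx0) hcs hδ (((x : ℂ) - z + y * I) / δ)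
    (xc x y z τ) (SokamV3F.im_base hδ hk') j)
  rw [h0, norm_mul, norm_mul, norm_gcst hδ] at h1
  have h2 : 0 < √(2 * Real.pi * δ) := Real.sqrt_pos.2 (by have := Real.pi_pos; (clear * - hδ; positivity))
  have h3 := sM_sG (r := r) hδ hy
  have h4 : ‖cexp (S (-((δ : ℂ) * I)) (((x : ℂ) - z + y * I) / δ))‖ *
      ‖∫ s : ℝ, gi (1 + x)⁻¹ (ss x) (fun h => (((x : ℂ) - z + y * I) / δ *
        cexp (xc x y z τ + h)) ^ j)
        (((x : ℂ) - z + y * I) / δ) (xc x y z τ) (-((δ : ℂ) * I)) s‖ ≤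
      Real.exp (x * (1 + y) / δ) * ‖((x : ℂ) + y * I) / δ‖ ^ j *
        ∫ s : ℝ, Wt x y z τ δ j s := by
    refine (mul_le_mul_of_nonneg_left (norm_integral_le_integral_norm _) (norm_nonneg _)).trans
      (le_of_eq ?_)
    rw [← integral_const_mul, ← integral_const_mul]
    refine integral_congr_ae (Eventually.of_forall fun s => ?_)
    exact norm_gi_cen hδ x y z τ hK hK0 j s
  have h5 : ‖Ef j (tt δ) (wp r δ (sE (r * δ) y + (z + τ)))‖ * √(2 * Real.pi * δ) ≤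
      Real.exp (x * (1 + y) / δ) * ‖((x : ℂ) + y * I) / δ‖ ^ j *
        ∫ s : ℝ, Wt x y z τ δ j s := by
    refine le_trans (le_of_eq ?_) h4
    rw [← h1, mul_comm]
    rfl
  have h6 : Real.exp (x * (1 + y) / δ) = sM r δ y / sG r δ y * √(2 * Real.pi * δ) := by
    rw [← h3, hx]
    field_simp
  rw [h6] at h5
  have h7 : ‖Ef j (tt δ) (wp r δ (sE (r * δ) y + (z + τ)))‖ * √(2 * Real.pi * δ) ≤
      (‖((x : ℂ) + y * I) / δ‖ ^ j * sM r δ y *
        ((∫ s : ℝ, Wt x y z τ δ j s) / sG r δ y)) * √(2 * Real.pi * δ) := by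
    refine h5.trans (le_of_eq ?_)
    ring
  exact le_of_mul_le_mul_right h7 h2

/-- `Out` from two bounds for the absolute integral. -/
theorem out_of_Wt {r δ y z τ C : ℝ} (hδ : 0 < δ) (hD : Dom (r * δ) y) (hy : -1 < y)
    (hk : |y| < a4 (sx (r * δ) y)) (hy0 : y ≠ 0)
    (h0 : ∫ s : ℝ, Wt (sx (r * δ) y) y z τ δ 0 s ≤ C * sG r δ y)
    (h1 : ∫ s : ℝ, Wt (sx (r * δ) y) y z τ δ 1 s ≤ C * sG r δ y) :
    SokamV3.Out r δ y (z + τ) C := by
  have hG := sG_pos (r := r) hδ hy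
  have hM := sM_pos (r := r) (δ := δ) hy
  have b0 : (∫ s : ℝ, Wt (sx (r * δ) y) y z τ δ 0 s) / sG r δ y ≤ C := by
    rwa [div_le_iff₀ hG]
  have b1 : (∫ s : ℝ, Wt (sx (r * δ) y) y z τ δ 1 s) / sG r δ y ≤ C := by
    rwa [div_le_iff₀ hG]
  refine SokamV3F.out_of ?_ ?_
  · refine (Ef_cen_le hδ hD hy hk hy0 z τ 0).trans ?_
    rw [pow_zero, one_mul, mul_comm C]
    exact mul_le_mul_of_nonneg_left b0 hM.le
  · refine (Ef_cen_le hδ hD hy hk hy0 z τ 1).trans ?_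
    rw [pow_one]
    have : 0 ≤ ‖sK (r * δ) y / δ‖ * sM r δ y := by (clear * - hM; positivity)
    have := mul_le_mul_of_nonneg_left b1 this
    linarith only [this]

theorem sG_eq_Gn (r δ y : ℝ) : sG r δ y = Gn (sx (r * δ) y) y δ := rfl

end SokamV3O

end

/-! ### Lib_MP_af4de1_v3o.ONum -/

section
namespace SokamPG
end SokamPG
/-!
# The core `|s| ≤ 3/2`: splitting of the integral and the numbers
-/

set_option autoImplicit false

open Complex MeasureTheory Set SokamPG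

namespace SokamV3O

theorem split_half {G : ℝ → ℝ} (hG : Integrable G) :
    ∫ s in Ioi (0 : ℝ), G s = (∫ s in (0 : ℝ)..1, G s) + (∫ s in (1 : ℝ)..(3 / 2), G s) +
      ∫ s in Ioi (3 / 2 : ℝ), G s := by
  rw [intervalIntegral.integral_add_adjacent_intervals hG.intervalIntegrable
    hG.intervalIntegrable, intervalIntegral.integral_of_le (by norm_num),
    ← setIntegral_union (Ioc_disjoint_Ioi le_rfl) measurableSet_Ioi hG.integrableOn
      hG.integrableOn, Ioc_union_Ioi_eq_Ioi (by norm_num)]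

theorem split_all {G : ℝ → ℝ} (hG : Integrable G) :
    ∫ s : ℝ, G s = (∫ s in Ioi (0 : ℝ), G s) + ∫ v in Ioi (0 : ℝ), G (-v) := by
  rw [integral_comp_neg_Ioi (0 : ℝ) G, neg_zero, add_comm,
    intervalIntegral.integral_Iic_add_Ioi hG.integrableOn hG.integrableOn]

theorem half_r' {b c t w C : ℝ} {j : ℕ} {F : ℝ → ℝ} (hC : 0 < C) (hb : 0 < b) (hc : 0 ≤ c)
    (hc1 : c ≤ 1) (hj : j ≤ 1) (t0 : 0 < t) (t1 : t ≤ 1) (hw : Real.exp (-w) ≤ t * √t)
    (hFi : IntervalIntegrable F volume 0 1)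
    (hF : ∀ s : ℝ, 0 ≤ s → s ≤ 1 →
      F s ≤ C * (Real.exp (j * (c * s)) * Real.exp (-(w + t * (b * s ^ (2 : ℕ)))))) :
    ∫ s in (0 : ℝ)..1, F s ≤ C * Ab b (j * c) (j * (18 / 25 * c ^ (2 : ℕ))) := by
  have h := half_r (F := fun s => C⁻¹ * F s) hb hc hc1 hj t0 t1 hw (hFi.const_mul _) ?_
  · rw [intervalIntegral.integral_const_mul, inv_mul_le_iff₀ hC] at h
    exact h
  · intro s h0 h1
    rw [inv_mul_le_iff₀ hC]
    exact hF s h0 h1

theorem half_l' {b t w α β C : ℝ} {F q g g' : ℝ → ℝ} (hC : 0 < C) (hb : 0 < b) (hα : 0 ≤ α)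
    (hβ : 0 ≤ β) (t0 : 0 < t) (t1 : t ≤ 1) (hw : Real.exp (-w) ≤ t * √t)
    (hg : ∀ v, HasDerivAt g (g' v) v) (hg' : Continuous g') (hg0 : g 0 = 0)
    (hgp : ∀ v : ℝ, 0 ≤ v → v ≤ 1 → 0 ≤ g v)
    (hgq : ∀ v : ℝ, 0 ≤ v → v ≤ 1 → g v ^ (2 : ℕ) ≤ q v)
    (hg1 : ∀ v : ℝ, 0 ≤ v → v ≤ 1 → 1 ≤ (1 + α * g v + β * g v ^ (2 : ℕ)) * g' v)
    (hFi : IntervalIntegrable F volume 0 1)
    (hF : ∀ v : ℝ, 0 ≤ v → v ≤ 1 → F v ≤ C * Real.exp (-(w + t * (b * q v)))) :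
    ∫ v in (0 : ℝ)..1, F v ≤ C * Ab b α β := by
  have h := half_l (F := fun s => C⁻¹ * F s) hb hα hβ t0 t1 hw hg hg' hg0 hgp hgq hg1
    (hFi.const_mul _) ?_
  · rw [intervalIntegral.integral_const_mul, inv_mul_le_iff₀ hC] at h
    exact h
  · intro s h0 h1
    rw [inv_mul_le_iff₀ hC]
    exact hF s h0 h1

/-- left half, `y ≥ 0` -/
theorem half_L {b t w C : ℝ} {F : ℝ → ℝ} (hC : 0 < C) (hb : 0 < b)
    (t0 : 0 < t) (t1 : t ≤ 1) (hw : Real.exp (-w) ≤ t * √t)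
    (hFi : IntervalIntegrable F volume 0 1)
    (hF : ∀ v : ℝ, 0 ≤ v → v ≤ 1 →
      F v ≤ C * Real.exp (-(w + t * (b * ((1 - 3 / 10 * v) * v ^ (2 : ℕ)))))) :
    ∫ v in (0 : ℝ)..1, F v ≤ C * Ab b (3 / 10) (2 / 5) := by
  refine half_l' (q := fun v => (1 - 3 / 10 * v) * v ^ (2 : ℕ))
    (g := fun v => v - 3 / 20 * v ^ (2 : ℕ) - 3 / 200 * v ^ (3 : ℕ))
    (g' := fun v => 1 - 3 / 20 * (2 * v) - 3 / 200 * (3 * v ^ (2 : ℕ)))
    hC hb (by norm_num) (by norm_num) t0 t1 hw ?_ (by fun_prop) (by norm_num) ?_ ?_ ?_ hFi hF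
  · intro v
    have h2 := (hasDerivAt_pow 2 v).const_mul (3 / 20 : ℝ)
    have h3 := (hasDerivAt_pow 3 v).const_mul (3 / 200 : ℝ)
    refine (((hasDerivAt_id v).sub h2).sub h3).congr_deriv ?_
    push_cast
    ring
  · intro v h0 h1
    have h2 : v ^ (2 : ℕ) ≤ v := by nlinarith only [h0, h1]
    have h3 : v ^ (3 : ℕ) ≤ v := by nlinarith only [mul_nonneg h0 (sub_nonneg.2 h1), sq_nonneg v]
    nlinarith only [h2]
  · intro v h0 h1
    have h2 : v ^ (2 : ℕ) ≤ v := by nlinarith only [h0, h1]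
    have e : (1 - 3 / 10 * v) * v ^ (2 : ℕ) - (v - 3 / 20 * v ^ (2 : ℕ) - 3 / 200 * v ^ (3 : ℕ)) ^ (2 : ℕ) =
        v ^ (4 : ℕ) * (75 / 10000 - 45 / 10000 * v - 225 / 1000000 * v ^ (2 : ℕ)) := by ring
    have h4 : 0 ≤ 75 / 10000 - 45 / 10000 * v - 225 / 1000000 * v ^ (2 : ℕ) := by nlinarith only [h0, h1]
    have := mul_nonneg (by positivity : 0 ≤ v ^ (4 : ℕ)) h4
    linarith only [this]
  · intro v h0 h1
    have e : (1 + 3 / 10 * (v - 3 / 20 * v ^ (2 : ℕ) - 3 / 200 * v ^ (3 : ℕ)) +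
        2 / 5 * (v - 3 / 20 * v ^ (2 : ℕ) - 3 / 200 * v ^ (3 : ℕ)) ^ (2 : ℕ)) *
        (1 - 3 / 20 * (2 * v) - 3 / 200 * (3 * v ^ (2 : ℕ))) - 1 =
        v ^ (2 : ℕ) * (11 / 50 - 489 / 2000 * v + 147 / 8000 * v ^ (2 : ℕ) + 3321 / 400000 * v ^ (3 : ℕ)
          - 63 / 200000 * v ^ (4 : ℕ) - 27 / 250000 * v ^ (5 : ℕ) - 81 / 20000000 * v ^ (6 : ℕ)) := by ring
    have p2 : v ^ (2 : ℕ) ≤ 1 := pow_le_one₀ h0 h1
    have p3 : v ^ (3 : ℕ) ≤ 1 := pow_le_one₀ h0 h1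
    have p4 : v ^ (4 : ℕ) ≤ v ^ (2 : ℕ) := by nlinarith only [p2]
    have p5 : v ^ (5 : ℕ) ≤ v ^ (2 : ℕ) := by nlinarith only [p3]
    have p6 : v ^ (6 : ℕ) ≤ v ^ (2 : ℕ) := by nlinarith only [p4]
    have p33 : 0 ≤ v ^ (3 : ℕ) := by positivity
    have h4 : 0 ≤ 11 / 50 - 489 / 2000 * v + 147 / 8000 * v ^ (2 : ℕ) + 3321 / 400000 * v ^ (3 : ℕ)
          - 63 / 200000 * v ^ (4 : ℕ) - 27 / 250000 * v ^ (5 : ℕ) - 81 / 20000000 * v ^ (6 : ℕ) := by
      nlinarith only [p6, mul_nonneg h0 (mul_nonneg (sub_nonneg.2 h1) (sub_nonneg.2 h1))]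
    have := mul_nonneg (sq_nonneg v) h4
    linarith only [this]

/-- left half, `y ≤ 0` -/
theorem half_R {b t w C : ℝ} {F : ℝ → ℝ} (hC : 0 < C) (hb : 0 < b)
    (t0 : 0 < t) (t1 : t ≤ 1) (hw : Real.exp (-w) ≤ t * √t)
    (hFi : IntervalIntegrable F volume 0 1)
    (hF : ∀ v : ℝ, 0 ≤ v → v ≤ 1 →
      F v ≤ C * Real.exp (-(w + t * (b * ((1 - 14 / 25 * v + v ^ (2 : ℕ) / 10) * v ^ (2 : ℕ)))))) :
    ∫ v in (0 : ℝ)..1, F v ≤ C * Ab b (14 / 25) (42 / 25) := by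
  refine half_l' (q := fun v => (1 - 14 / 25 * v + v ^ (2 : ℕ) / 10) * v ^ (2 : ℕ))
    (g := fun v => v - 7 / 25 * v ^ (2 : ℕ))
    (g' := fun v => 1 - 7 / 25 * (2 * v))
    hC hb (by norm_num) (by norm_num) t0 t1 hw ?_ (by fun_prop) (by norm_num) ?_ ?_ ?_ hFi hF
  · intro v
    have h2 := (hasDerivAt_pow 2 v).const_mul (7 / 25 : ℝ)
    refine ((hasDerivAt_id v).sub h2).congr_deriv ?_
    push_cast
    ring
  · intro v h0 h1
    nlinarith only [h0, h1]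
  · intro v h0 h1
    have e : (1 - 14 / 25 * v + v ^ (2 : ℕ) / 10) * v ^ (2 : ℕ) - (v - 7 / 25 * v ^ (2 : ℕ)) ^ (2 : ℕ) =
        v ^ (4 : ℕ) * (27 / 1250) := by ring
    have := mul_nonneg (by positivity : 0 ≤ v ^ (4 : ℕ)) (by norm_num : (0 : ℝ) ≤ 27 / 1250)
    linarith only [this]
  · intro v h0 h1
    have e : (1 + 14 / 25 * (v - 7 / 25 * v ^ (2 : ℕ)) + 42 / 25 * (v - 7 / 25 * v ^ (2 : ℕ)) ^ (2 : ℕ)) *
        (1 - 7 / 25 * (2 * v)) - 1 =
        v ^ (2 : ℕ) * (756 / 625 - 28028 / 15625 * v + 2058 / 3125 * v ^ (2 : ℕ)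
          - 28812 / 390625 * v ^ (3 : ℕ)) := by ring
    have h4 : 0 ≤ 756 / 625 - 28028 / 15625 * v + 2058 / 3125 * v ^ (2 : ℕ)
          - 28812 / 390625 * v ^ (3 : ℕ) := by
      nlinarith only [mul_nonneg h0 (mul_nonneg (sub_nonneg.2 h1) (sub_nonneg.2 h1)), mul_nonneg h0 (sub_nonneg.2 h1)]
    have := mul_nonneg (sq_nonneg v) h4
    linarith only [this]

theorem Ab_num {B μ ν α β n : ℝ} (hB : 0 < B) (hμ : 0 < μ) (hν0 : 0 ≤ ν) (hν : 1 ≤ ν ^ (2 : ℕ) * μ)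
    (hβ : 0 ≤ β)
    (h : ν / 2 + α * √(Real.pi / B) / (2 * Real.pi * μ) + β * ν / (4 * μ * B) ≤ n) :
    Ab (μ * B) α β ≤ n * √(Real.pi / B) := by
  have hp := Real.pi_pos
  have hq : 0 < √(Real.pi / B) := Real.sqrt_pos.2 (by positivity)
  have hqq : √(Real.pi / B) ^ (2 : ℕ) = Real.pi / B := Real.sq_sqrt (by positivity)
  have h1 : √(Real.pi / (μ * B)) ≤ ν * √(Real.pi / B) := by
    rw [Real.sqrt_le_left (by positivity), mul_pow, hqq]
    rw [div_le_iff₀ (by positivity)]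
    calc Real.pi = Real.pi * 1 := by ring
      _ ≤ Real.pi * (ν ^ (2 : ℕ) * μ) := by gcongr
      _ = ν ^ (2 : ℕ) * (Real.pi / B) * (μ * B) := by field_simp
  have h2 : α / (2 * (μ * B)) =
      α * √(Real.pi / B) / (2 * Real.pi * μ) * √(Real.pi / B) := by
    have : α * √(Real.pi / B) / (2 * Real.pi * μ) * √(Real.pi / B) =
        α * √(Real.pi / B) ^ (2 : ℕ) / (2 * Real.pi * μ) := by ring
    rw [this, hqq]
    field_simp
  have h3 := mul_le_mul_of_nonneg_right h hq.le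
  unfold Ab
  rw [h2]
  have h4 : β * (√(Real.pi / (μ * B)) / (4 * (μ * B))) ≤
      β * ν / (4 * μ * B) * √(Real.pi / B) := by
    have : β * ν / (4 * μ * B) * √(Real.pi / B) =
        β * (ν * √(Real.pi / B) / (4 * (μ * B))) := by ring
    rw [this]
    gcongr
  linarith only [h1, h3, h4]

/-- the Gaussian against the path -/
theorem V_le {x y δ l B : ℝ} (hδ : 0 < δ) (hQ : 0 < SokamF1G.Qf x y)
    (hB : B = SokamF1G.Qf x y / δ) (hD : 0 < √((1 + y) ^ (2 : ℕ) + x ^ (2 : ℕ)))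
    (hl : (1 + (1 / (1 + x)) ^ (2 : ℕ)) * √((1 + y) ^ (2 : ℕ) + x ^ (2 : ℕ)) ≤ 2 * l ^ (2 : ℕ) * SokamF1G.Qf x y)
    (l0 : 0 ≤ l) :
    √(1 + ((1 + x)⁻¹) ^ (2 : ℕ)) * √(Real.pi / B) ≤ l * Gn x y δ := by
  have hp := Real.pi_pos
  have hG : 0 ≤ Gn x y δ := Real.sqrt_nonneg _
  rw [one_div] at hl
  have h1 : 0 ≤ 1 + ((1 + x)⁻¹) ^ (2 : ℕ) := by positivity
  rw [← Real.sqrt_mul h1, Real.sqrt_le_left (by positivity), mul_pow]
  unfold Gn
  rw [Real.sq_sqrt (by positivity), hB]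
  have e1 : (1 + ((1 + x)⁻¹) ^ (2 : ℕ)) * (Real.pi / (SokamF1G.Qf x y / δ)) =
      (1 + ((1 + x)⁻¹) ^ (2 : ℕ)) * √((1 + y) ^ (2 : ℕ) + x ^ (2 : ℕ)) *
        (Real.pi * δ / (SokamF1G.Qf x y * √((1 + y) ^ (2 : ℕ) + x ^ (2 : ℕ)))) := by
    field_simp
  have e2 : l ^ (2 : ℕ) * (2 * Real.pi * δ / √((1 + y) ^ (2 : ℕ) + x ^ (2 : ℕ))) =
      (2 * l ^ (2 : ℕ) * SokamF1G.Qf x y) *
        (Real.pi * δ / (SokamF1G.Qf x y * √((1 + y) ^ (2 : ℕ) + x ^ (2 : ℕ)))) := by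
    field_simp
  rw [e1, e2]
  gcongr

/-- `e^(-11 B/20) ≤ 1/226 √(π/B)` for `B ≥ 11` -/
theorem mid_num {B : ℝ} (hB : 11 ≤ B) :
    Real.exp (-(11 / 20 * B)) ≤ 45 / 10000 * √(Real.pi / B) := by
  have hp := Real.pi_gt_d2
  have hB0 : 0 < B := by linarith only [hB]
  have h1 : Real.exp (-(11 / 20 * B)) ^ (2 : ℕ) ≤ (45 / 10000 * √(Real.pi / B)) ^ (2 : ℕ) := by
    rw [mul_pow, Real.sq_sqrt (by positivity), ← Real.exp_nat_mul]
    have e : ((2 : ℕ) : ℝ) * -(11 / 20 * B) = -(11 / 10 * 11) + -(11 / 10 * (B - 11)) := by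
      push_cast
      ring
    rw [e, Real.exp_add]
    have h2 : Real.exp (-(11 / 10 * (B - 11))) ≤ 11 / B := by
      rw [Real.exp_neg, ← one_div, div_le_div_iff₀ (Real.exp_pos _) hB0]
      have := Real.add_one_le_exp (11 / 10 * (B - 11))
      linarith only [hB, this]
    have h3 : Real.exp (-(11 / 10 * 11 : ℝ)) ≤ 56 / 10000000 := by
      have h5 : Real.exp (-(11 / 10 * 11 : ℝ)) = (Real.exp (-(121 / 120 : ℝ))) ^ (12 : ℕ) := by
        rw [← Real.exp_nat_mul]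
        norm_num
      have h6 : Real.exp (-(121 / 120 : ℝ)) ≤ 3649 / 10000 := by
        have h7 := Real.sum_le_exp_of_nonneg (x := 121 / 120) (by norm_num) 7
        norm_num [Finset.sum_range_succ, Nat.factorial] at h7
        rw [Real.exp_neg, inv_le_comm₀ (Real.exp_pos _) (by norm_num)]
        refine le_trans ?_ h7
        norm_num
      rw [h5]
      refine (pow_le_pow_left₀ (Real.exp_pos _).le h6 12).trans ?_
      norm_num
    calc Real.exp (-(11 / 10 * 11)) * Real.exp (-(11 / 10 * (B - 11))) ≤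
          56 / 10000000 * (11 / B) := by gcongr
      _ ≤ (45 / 10000) ^ (2 : ℕ) * (Real.pi / B) := by
          rw [← mul_div_assoc, ← mul_div_assoc]
          exact div_le_div_of_nonneg_right (by linarith only [hp]) hB0.le
  exact (sq_le_sq₀ (Real.exp_pos _).le (by positivity)).1 h1

end SokamV3O

end

/-! ### Lib_MP_af4de1_v3o.ODR -/

section
namespace SokamF1G
end SokamF1G
set_option autoImplicit false

namespace SokamV3O

open Real SokamF1G

private theorem hc_haR (x n z τ a s : ℝ) : Hc x (-n) (-z) (-τ) a s = Ha x (-n) a s + (z * (a + n) +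
    exp a * (x * (cos s - cos (s - τ)) + n * (sin s - sin (s - τ)))) := by
  unfold Hc Ha
  rw [← sub_eq_add_neg s τ]
  ring

private theorem cosR {τ s : ℝ} (τ0 : 0 ≤ τ) (τ1 : τ ≤ 1 / 2) (h0 : 0 ≤ s) (h1 : s ≤ 1) :
    τ * s - τ * s ^ (2 : ℕ) / 6 ≤ cos s - cos (s + τ) := by
  have h2 := sin_ge3 h0
  have h3 := sin_ge3 τ0
  have h4 := cos_ge2 (x := s)
  have h5 := cos_le4 τ0
  have h6 : cos s - cos (s + τ) = sin s * sin τ + cos s * (1 - cos τ) := by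
    rw [cos_add]
    ring
  have hs2 : s ^ (2 : ℕ) ≤ 1 := by nlinarith only [h0, h1]
  have hτ2 : τ ^ (2 : ℕ) ≤ 1 / 4 := by nlinarith only [τ0, τ1]
  have h7 : 0 ≤ s - s ^ (3 : ℕ) / 6 := by nlinarith only [h0, hs2]
  have h8 : 0 ≤ τ - τ ^ (3 : ℕ) / 6 := by nlinarith only [τ0, hτ2]
  have h9 : (s - s ^ (3 : ℕ) / 6) * (τ - τ ^ (3 : ℕ) / 6) ≤ sin s * sin τ :=
    mul_le_mul h2 h3 h8 (h7.trans h2)
  have h10 : 0 ≤ τ ^ (2 : ℕ) / 2 - τ ^ (4 : ℕ) / 24 := by nlinarith only [hτ2]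
  have h11 : 1 / 2 * (τ ^ (2 : ℕ) / 2 - τ ^ (4 : ℕ) / 24) ≤ cos s * (1 - cos τ) :=
    mul_le_mul (by linarith) (by linarith) h10 (by linarith)
  have h12 : 0 ≤ s ^ (2 : ℕ) * τ * (1 - s) := by
    have : 0 ≤ 1 - s := by linarith
    positivity
  have h13 : 0 ≤ s ^ (3 : ℕ) * τ ^ (3 : ℕ) := by positivity
  have h14 : 0 ≤ τ ^ (2 : ℕ) * (1 - τ * s) := by
    have : τ * s ≤ 1 := by nlinarith only [hs2, hτ2]
    exact mul_nonneg (sq_nonneg _) (by linarith)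
  have h15 : 0 ≤ τ ^ (2 : ℕ) * (1 / 4 - τ ^ (2 : ℕ)) := mul_nonneg (sq_nonneg _) (by linarith)
  have h16 : s * τ ^ (3 : ℕ) = τ ^ (2 : ℕ) * (τ * s) := by ring
  rw [h6]
  nlinarith only [h9, h11, h12, h13, h14, h15]

/-- `e^(c s) - 1 ≤ (e^c - 1) s` -/
private theorem exp_chord {c s : ℝ} (h0 : 0 ≤ s) (h1 : s ≤ 1) :
    exp (s * c) - 1 ≤ (exp c - 1) * s := by
  have h := convexOn_exp.2 (Set.mem_univ (0 : ℝ)) (Set.mem_univ c)
    (show 0 ≤ 1 - s by linarith) h0 (by ring)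
  simp only [smul_eq_mul, mul_zero, zero_add, exp_zero, mul_one] at h
  linarith

/-- core `|s| ≤ 1`, right side, `s ≥ 0` -/
theorem dRr {x n z τ k ψ s : ℝ} (h : ShR x n z τ k ψ) (h0 : 0 ≤ s) (h1 : s ≤ 1) :
    Ha x (-n) (s / (1 + x)) s + n * (z + τ / 2) -
      1 / (1 + x) * (exp (1 / (1 + x)) - 1) * z * s ^ (2 : ℕ) ≤ Hc x (-n) (-z) (-τ) (s / (1 + x)) s := by
  obtain ⟨x0, y0, y1, T, z0, τ0, zτ, ζ, τ1, k0, ψ0, ψ1, hx, hy⟩ := h
  have hx1 : 0 < 1 + x := by linarith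
  have e1 : z * (s / (1 + x)) = x * τ * s := by
    rw [zτ]
    field_simp
  have e2 : 1 / (1 + x) * (exp (1 / (1 + x)) - 1) * z * s ^ (2 : ℕ) =
      x * τ * s * ((exp (1 / (1 + x)) - 1) * s) := by
    rw [zτ]
    field_simp
  have he : 1 ≤ exp (s / (1 + x)) := by
    rw [one_le_exp_iff]
    positivity
  have hch : exp (s / (1 + x)) - 1 ≤ (exp (1 / (1 + x)) - 1) * s := by
    have h2 := exp_chord (c := 1 / (1 + x)) h0 h1
    rwa [mul_one_div] at h2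
  have hpi := pi_gt_three
  have hs2 : 0 ≤ sin (τ / 2) := sin_nonneg_of_nonneg_of_le_pi (by linarith) (by linarith)
  have hs3 : sin (τ / 2) ≤ τ / 2 := sin_le (by linarith)
  have hC : -(τ * s) ≤ cos s - cos (s - τ) := by
    have h2 : cos s - cos (s - τ) = -(2 * sin (s - τ / 2) * sin (τ / 2)) := by
      rw [cos_sub_cos]
      have e3 : (s + (s - τ)) / 2 = s - τ / 2 := by ring
      have e4 : (s - (s - τ)) / 2 = τ / 2 := by ring
      rw [e3, e4]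
      ring
    rw [h2]
    rcases le_total s (τ / 2) with h5 | h5
    · have h6 : 0 ≤ sin (τ / 2 - s) := sin_nonneg_of_nonneg_of_le_pi (by linarith) (by linarith)
      have h7 : sin (s - τ / 2) = -sin (τ / 2 - s) := by
        rw [← sin_neg]
        congr 1
        ring
      have h8 : 0 ≤ sin (τ / 2 - s) * sin (τ / 2) := mul_nonneg h6 hs2
      have h9 : 0 ≤ τ * s := mul_nonneg τ0 h0
      rw [h7]
      linarith
    · have h6 : sin (s - τ / 2) ≤ s - τ / 2 := sin_le (by linarith)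
      have h7 : 0 ≤ sin (s - τ / 2) := sin_nonneg_of_nonneg_of_le_pi (by linarith) (by linarith)
      have h9 : sin (s - τ / 2) * sin (τ / 2) ≤ s * (τ / 2) :=
        mul_le_mul (by linarith) hs3 hs2 h0
      linarith
  have hS : 1 / 2 * τ ≤ sin s - sin (s - τ) := by
    have h2 : sin s - sin (s - τ) = 2 * sin (τ / 2) * cos (s - τ / 2) := by
      rw [sin_sub_sin]
      congr 3
      · ring
      · ring
    have h3 := sin_ge3 (x := τ / 2) (by linarith)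
    have h4 : 54 / 100 ≤ cos 1 := by
      have := cos_ge6 (x := 1) (by norm_num)
      norm_num at this ⊢
      linarith
    have h5 : cos 1 ≤ cos (s - τ / 2) := by
      rw [← cos_abs (s - τ / 2)]
      apply cos_le_cos_of_nonneg_of_le_pi (abs_nonneg _) (by linarith)
      rw [abs_le]
      constructor <;> linarith
    have hτ2 : τ ^ (2 : ℕ) ≤ 1 / 4 := by nlinarith only [τ0, τ1]
    have h6 : 98 / 200 * τ ≤ sin (τ / 2) := by nlinarith only [hs2, h3, hτ2]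
    have h7 : 98 / 200 * τ * (54 / 100) ≤ sin (τ / 2) * cos (s - τ / 2) :=
      mul_le_mul h6 (by linarith) (by norm_num) hs2
    rw [h2]
    linarith
  have hxE : -(x * τ * s) * exp (s / (1 + x)) ≤
      exp (s / (1 + x)) * (x * (cos s - cos (s - τ))) := by
    have h2 := mul_le_mul_of_nonneg_left hC x0.le
    have h3 := mul_le_mul_of_nonneg_left h2 (exp_pos (s / (1 + x))).le
    refine le_trans (le_of_eq ?_) h3
    ring
  have hyS : n * (1 / 2 * τ) ≤ n * (sin s - sin (s - τ)) := mul_le_mul_of_nonneg_left hS y0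
  have hp2 : 0 ≤ n * (1 / 2 * τ) := by positivity
  have hyE : n * (sin s - sin (s - τ)) ≤ exp (s / (1 + x)) * (n * (sin s - sin (s - τ))) :=
    le_mul_of_one_le_left (by linarith) he
  have hk : x * τ * s * (exp (s / (1 + x)) - 1) ≤ x * τ * s * ((exp (1 / (1 + x)) - 1) * s) :=
    mul_le_mul_of_nonneg_left hch (by positivity)
  rw [hc_haR, e2, mul_add z, e1, mul_add (exp (s / (1 + x)))]
  linarith

/-- core, right side, `s = -v ≤ 0` -/
theorem dRl {x n z τ k ψ v : ℝ} (h : ShR x n z τ k ψ) (h0 : 0 ≤ v) (h1 : v ≤ 1) :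
    Ha x (-n) (-(v / (1 + x))) (-v) + n * z -
      ((1 / (1 + x)) ^ (2 : ℕ) + 1 / (6 * (1 + x))) * z * v ^ (2 : ℕ) ≤
      Hc x (-n) (-z) (-τ) (-(v / (1 + x))) (-v) := by
  obtain ⟨x0, y0, y1, T, z0, τ0, zτ, ζ, τ1, k0, ψ0, ψ1, hx, hy⟩ := h
  have hx1 : 0 < 1 + x := by linarith
  have e1 : z * -(v / (1 + x)) = -(x * τ * v) := by
    rw [zτ]
    field_simp
  have e2 : ((1 / (1 + x)) ^ (2 : ℕ) + 1 / (6 * (1 + x))) * z * v ^ (2 : ℕ) =
      x * τ * v * (v / (1 + x)) + x * τ * v ^ (2 : ℕ) / 6 := by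
    rw [zτ]
    field_simp
  have he := add_one_le_exp (-(v / (1 + x)))
  have he0 := exp_pos (-(v / (1 + x)))
  have hw : 0 ≤ v / (1 + x) := by positivity
  have hpi := pi_gt_three
  have hC := cosR τ0 τ1 h0 h1
  have eC : cos (-v) - cos (-v - τ) = cos v - cos (v + τ) := by
    rw [cos_neg, show -v - τ = -(v + τ) by ring, cos_neg]
  have eS : sin (-v) - sin (-v - τ) = 2 * sin (τ / 2) * cos (v + τ / 2) := by
    rw [sin_neg, show -v - τ = -(v + τ) by ring, sin_neg]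
    have h2 : sin (v + τ) - sin v = 2 * sin (τ / 2) * cos (v + τ / 2) := by
      rw [sin_sub_sin]
      congr 3
      · ring
      · ring
    linarith
  have hS : 0 ≤ sin (-v) - sin (-v - τ) := by
    have h4 : 0 ≤ sin (τ / 2) := sin_nonneg_of_nonneg_of_le_pi (by linarith) (by linarith)
    have h5 : 0 ≤ cos (v + τ / 2) := cos_nonneg_of_neg_pi_div_two_le_of_le (by linarith) (by linarith)
    rw [eS]
    positivity
  have hp : 0 ≤ τ * v - τ * v ^ (2 : ℕ) / 6 := by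
    have h2 : 0 ≤ τ * v * (1 - v / 6) := by
      have : 0 ≤ 1 - v / 6 := by linarith
      positivity
    linarith only [h2]
  have hxC : x * (τ * v - τ * v ^ (2 : ℕ) / 6) ≤ x * (cos v - cos (v + τ)) :=
    mul_le_mul_of_nonneg_left hC x0.le
  have hxE : (1 - v / (1 + x)) * (x * (τ * v - τ * v ^ (2 : ℕ) / 6)) ≤
      exp (-(v / (1 + x))) * (x * (cos v - cos (v + τ))) := by
    have h2 : exp (-(v / (1 + x))) * (x * (τ * v - τ * v ^ (2 : ℕ) / 6)) ≤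
        exp (-(v / (1 + x))) * (x * (cos v - cos (v + τ))) := mul_le_mul_of_nonneg_left hxC he0.le
    have h3 : (1 - v / (1 + x)) * (x * (τ * v - τ * v ^ (2 : ℕ) / 6)) ≤
        exp (-(v / (1 + x))) * (x * (τ * v - τ * v ^ (2 : ℕ) / 6)) :=
      mul_le_mul_of_nonneg_right (by linarith) (mul_nonneg x0.le hp)
    exact h3.trans h2
  have hyE : 0 ≤ exp (-(v / (1 + x))) * (n * (sin (-v) - sin (-v - τ))) :=
    mul_nonneg he0.le (mul_nonneg y0 hS)
  have h6 : 0 ≤ v / (1 + x) * (x * (τ * v ^ (2 : ℕ) / 6)) := by positivity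
  have e5 : (1 - v / (1 + x)) * (x * (τ * v - τ * v ^ (2 : ℕ) / 6)) = x * τ * v - x * τ * v ^ (2 : ℕ) / 6 -
      x * τ * v * (v / (1 + x)) + v / (1 + x) * (x * (τ * v ^ (2 : ℕ) / 6)) := by ring
  rw [hc_haR, e2, mul_add z, e1, mul_add (exp (-(v / (1 + x)))), eC]
  linarith

end SokamV3O

end

/-! ### Lib_MP_af4de1_v3o.OSR -/

section
namespace SokamF1G
end SokamF1G
set_option autoImplicit false

open Real SokamF1G

namespace SokamV3O

private theorem or_log {v w : ℝ} (hv0 : 0 < v) (hv1 : v ≤ 1) (h : 3 / 4 * ((1 - v ^ (2 : ℕ)) / v) ≤ w) :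
    Real.exp (-w) ≤ v * √v := by
  have hL : Real.log v ≤ 0 := Real.log_nonpos hv0.le hv1
  have e1 : Real.exp (Real.log v) = v := Real.exp_log hv0
  have h1 : -Real.log v ≤ Real.sinh (-Real.log v) := Real.self_le_sinh_iff.2 (by linarith only [hL])
  rw [Real.sinh_eq, neg_neg, Real.exp_neg, e1] at h1
  have h2 : (1 - v ^ (2 : ℕ)) / v = v⁻¹ - v := by
    field_simp
  rw [h2] at h
  have h3 : v * √v = Real.exp (3 / 2 * Real.log v) := by
    have h4 : √v = Real.exp (Real.log v / 2) := by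
      rw [Real.exp_half, e1]
    rw [h4]
    nth_rewrite 1 [← e1]
    rw [← Real.exp_add]
    congr 1
    ring
  rw [h3, Real.exp_le_exp]
  linarith only [h, h1]

private theorem or_u77 {x n z τ : ℝ} (x0 : 0 < x) (y1 : n ≤ 53 / 100)
    (T : n ≤ 4 / 5 * x) (zτ : z = x * (1 + x) * τ) (ζ : z + τ ≤ 21 / 25) :
    z * (1 + x + x ^ (2 : ℕ)) ≤ 21 / 25 * (x * (1 + x)) ∧
    50 * (7 + x) * z ≤ 77 / 100 * (81 * (2 * (1 - n) * (1 + x) + x ^ (3 : ℕ) + 2 * x ^ (2 : ℕ))) := by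
  have h1 : τ * (1 + x + x ^ (2 : ℕ)) ≤ 21 / 25 := by
    have : z + τ = τ * (1 + x + x ^ (2 : ℕ)) := by
      rw [zτ]
      ring
    linarith only [zτ, ζ]
  have h2 : z * (1 + x + x ^ (2 : ℕ)) ≤ 21 / 25 * (x * (1 + x)) := by
    have h3 := mul_le_mul_of_nonneg_left h1 (show 0 ≤ x * (1 + x) by positivity)
    rw [zτ]
    linarith only [h3]
  refine ⟨h2, ?_⟩
  have hq : 0 < 1 + x + x ^ (2 : ℕ) := by (clear * - x0; positivity)
  have h3 : 42 * ((7 + x) * (x * (1 + x))) ≤ 6237 / 100 * ((1 + x + x ^ (2 : ℕ)) *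
      (2 * (1 - n) * (1 + x) + x ^ (3 : ℕ) + 2 * x ^ (2 : ℕ))) := by
    rcases le_total x (53 / 80) with hx | hx
    · have hP : 2 + 2 / 5 * x + 2 / 5 * x ^ (2 : ℕ) + x ^ (3 : ℕ) ≤
          2 * (1 - n) * (1 + x) + x ^ (3 : ℕ) + 2 * x ^ (2 : ℕ) := by
        have := mul_nonneg (show 0 ≤ 4 / 5 * x - n by linarith only [T]) (show 0 ≤ 1 + x by linarith only [x0])
        linarith only [this]
      have h4 := mul_le_mul_of_nonneg_left hP hq.le
      have h5 : 0 ≤ 6237 / 100 * ((1 + x + x ^ (2 : ℕ)) * (2 + 2 / 5 * x + 2 / 5 * x ^ (2 : ℕ) + x ^ (3 : ℕ))) -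
          42 * ((7 + x) * (x * (1 + x))) := by
        have q : 0 ≤ 53 / 80 - x := by linarith only [hx]
        have e : 6237 / 100 * ((1 + x + x ^ (2 : ℕ)) * (2 + 2 / 5 * x + 2 / 5 * x ^ (2 : ℕ) + x ^ (3 : ℕ))) -
            42 * ((7 + x) * (x * (1 + x))) =
            (408748032000 / 418195493) * (x ^ (0 : ℕ) * (53 / 80 - x) ^ (5 : ℕ)) +
            (1730456125440 / 418195493) * (x ^ (1 : ℕ) * (53 / 80 - x) ^ (4 : ℕ)) +
            (2602269186048 / 418195493) * (x ^ (2 : ℕ) * (53 / 80 - x) ^ (3 : ℕ)) +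
            (7892507348544 / 2090977465) * (x ^ (3 : ℕ) * (53 / 80 - x) ^ (2 : ℕ)) +
            (7084955115756 / 10454887325) * (x ^ (4 : ℕ) * (53 / 80 - x) ^ (1 : ℕ)) +
            (230813608557 / 8363909860) * (x ^ (5 : ℕ) * (53 / 80 - x) ^ (0 : ℕ)) := by
          ring
        rw [e]
        (clear * - x0 hx; positivity)
      linarith only [h4, h5]
    · have hP : 47 / 50 + 47 / 50 * x + 2 * x ^ (2 : ℕ) + x ^ (3 : ℕ) ≤
          2 * (1 - n) * (1 + x) + x ^ (3 : ℕ) + 2 * x ^ (2 : ℕ) := by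
        have := mul_nonneg (show 0 ≤ 53 / 100 - n by linarith only [y1]) (show 0 ≤ 1 + x by linarith only [hx])
        linarith only [this]
      have h4 := mul_le_mul_of_nonneg_left hP hq.le
      have h5 : 0 ≤ 6237 / 100 * ((1 + x + x ^ (2 : ℕ)) * (47 / 50 + 47 / 50 * x + 2 * x ^ (2 : ℕ) + x ^ (3 : ℕ))) -
          42 * ((7 + x) * (x * (1 + x))) := by
        have q : 0 ≤ x - 53 / 80 := by linarith only [hx]
        have e : 6237 / 100 * ((1 + x + x ^ (2 : ℕ)) * (47 / 50 + 47 / 50 * x + 2 * x ^ (2 : ℕ) + x ^ (3 : ℕ))) -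
            42 * ((7 + x) * (x * (1 + x))) =
            (230813608557 / 65536000000) * (x - 53 / 80) ^ (0 : ℕ) +
            (1002157924929 / 4096000000) * (x - 53 / 80) ^ (1 : ℕ) +
            (25216603629 / 25600000) * (x - 53 / 80) ^ (2 : ℕ) +
            (311464041 / 320000) * (x - 53 / 80) ^ (3 : ℕ) +
            (629937 / 1600) * (x - 53 / 80) ^ (4 : ℕ) +
            (6237 / 100) * (x - 53 / 80) ^ (5 : ℕ) := by
          ring
        rw [e]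
        (clear * - hx; positivity)
      linarith only [h4, h5]
  have h4 : 50 * (7 + x) * z * (1 + x + x ^ (2 : ℕ)) ≤
      77 / 100 * (81 * (2 * (1 - n) * (1 + x) + x ^ (3 : ℕ) + 2 * x ^ (2 : ℕ))) * (1 + x + x ^ (2 : ℕ)) := by
    have h5 := mul_le_mul_of_nonneg_left h2 (show 0 ≤ 50 * (7 + x) by positivity)
    linarith only [h3, h5]
  exact le_of_mul_le_mul_right h4 hq

private theorem or_A {x n z : ℝ} (x0 : 0 < x) (n1 : n ≤ 1 / 10)
    (h2 : z * (1 + x + x ^ (2 : ℕ)) ≤ 21 / 25 * (x * (1 + x)))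
    (h77 : 50 * (7 + x) * z ≤ 77 / 100 * (81 * (2 * (1 - n) * (1 + x) + x ^ (3 : ℕ) + 2 * x ^ (2 : ℕ)))) :
    3 * (50 * (7 + x)) * (2 * (81 * (2 * (1 - n) * (1 + x) + x ^ (3 : ℕ) + 2 * x ^ (2 : ℕ))) -
      50 * (7 + x) * z) ≤ 16 * (81 * (2 * (1 - n) * (1 + x) + x ^ (3 : ℕ) + 2 * x ^ (2 : ℕ))) *
      (81 * (2 * (1 - n) * (1 + x) + x ^ (3 : ℕ) + 2 * x ^ (2 : ℕ)) - 50 * (7 + x) * z) := by
  have hq : 0 < 1 + x + x ^ (2 : ℕ) := by positivity
  obtain ⟨A, hA⟩ : ∃ A, A = 50 * (7 + x) := ⟨_, rfl⟩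
  obtain ⟨B, hB⟩ : ∃ B, B = 81 * (2 * (1 - n) * (1 + x) + x ^ (3 : ℕ) + 2 * x ^ (2 : ℕ)) := ⟨_, rfl⟩
  obtain ⟨B1, hB1⟩ : ∃ B1, B1 = 81 * (9 / 5 + 9 / 5 * x + 2 * x ^ (2 : ℕ) + x ^ (3 : ℕ)) := ⟨_, rfl⟩
  rw [← hA, ← hB] at h77
  rw [← hA, ← hB]
  have hBB : B1 ≤ B := by
    rw [hB, hB1]
    have := mul_nonneg (show 0 ≤ 1 / 10 - n by linarith only [n1]) (show 0 ≤ 1 + x by linarith only [x0])
    linarith only [this]
  have hx2 : 0 ≤ x ^ (2 : ℕ) := by (clear * - x0; positivity)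
  have hx3 : 0 ≤ x ^ (3 : ℕ) := by positivity
  have hA0 : 0 < A := by rw [hA]; (clear * - x0; positivity)
  have hB10 : 0 < B1 := by rw [hB1]; (clear * - x0; positivity)
  have hAB : 6 * A ≤ 16 * B1 := by
    rw [hA, hB1]
    nlinarith only [hx3]
  have hAB2 : 3 * A ≤ 16 * B1 := by linarith only [hB10, hAB]
  have h3 : 0 ≤ (B - B1) * (16 * (B + B1) - 16 * (A * z) - 6 * A) :=
    mul_nonneg (by linarith only [hBB]) (by linarith only [h77, hBB, hB10, hAB])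
  have h4 : 0 ≤ (16 * B1 ^ (2 : ℕ) - 6 * (A * B1)) * (1 + x + x ^ (2 : ℕ)) -
      (16 * (A * B1) - 3 * A ^ (2 : ℕ)) * (21 / 25 * (x * (1 + x))) := by
    rw [hA, hB1]
    have h5 : 0 ≤ 33000 - 12876480 / 1000 * x + 3512 * x ^ (2 : ℕ) := by nlinarith only []
    have e : (16 * (81 * (9 / 5 + 9 / 5 * x + 2 * x ^ (2 : ℕ) + x ^ (3 : ℕ))) ^ (2 : ℕ) - 6 * (50 * (7 + x) *
        (81 * (9 / 5 + 9 / 5 * x + 2 * x ^ (2 : ℕ) + x ^ (3 : ℕ))))) * (1 + x + x ^ (2 : ℕ)) -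
        (16 * (50 * (7 + x) * (81 * (9 / 5 + 9 / 5 * x + 2 * x ^ (2 : ℕ) + x ^ (3 : ℕ)))) -
          3 * (50 * (7 + x)) ^ (2 : ℕ)) * (21 / 25 * (x * (1 + x))) =
        (848556 / 25) * x ^ (0 : ℕ) + (-321912 / 25) * x ^ (1 : ℕ) + (87804 / 25) * x ^ (2 : ℕ) + (10200708 / 25) * x ^ (3 : ℕ) + (26423856 / 25) * x ^ (4 : ℕ) + (7820712 / 5) * x ^ (5 : ℕ) + (6219828 / 5) * x ^ (6 : ℕ) + 524880 * x ^ (7 : ℕ) + 104976 * x ^ (8 : ℕ) := by ring
    rw [e]
    have p3 := pow_nonneg x0.le 3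
    have p4 := pow_nonneg x0.le 4
    have p5 := pow_nonneg x0.le 5
    have p6 := pow_nonneg x0.le 6
    have p7 := pow_nonneg x0.le 7
    have p8 := pow_nonneg x0.le 8
    linarith only [hx2, h5, p3, p4, p5, p6, p7, p8]
  have h5 : (16 * (A * B1) - 3 * A ^ (2 : ℕ)) * (z * (1 + x + x ^ (2 : ℕ))) ≤
      (16 * (A * B1) - 3 * A ^ (2 : ℕ)) * (21 / 25 * (x * (1 + x))) := by
    apply mul_le_mul_of_nonneg_left h2
    have : 0 ≤ A * (16 * B1 - 3 * A) := mul_nonneg hA0.le (by linarith only [hAB2])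
    linarith only [this]
  have h6 : 0 ≤ (16 * B1 ^ (2 : ℕ) - 6 * (A * B1) - (16 * (A * B1) - 3 * A ^ (2 : ℕ)) * z) *
      (1 + x + x ^ (2 : ℕ)) := by linarith only [h4, h5]
  have h7 : 0 ≤ 16 * B1 ^ (2 : ℕ) - 6 * (A * B1) - (16 * (A * B1) - 3 * A ^ (2 : ℕ)) * z :=
    nonneg_of_mul_nonneg_left h6 hq
  linarith only [h3, h7]

private theorem or_B {x n ρ : ℝ} (x0 : 0 < x) (y0 : 0 ≤ n) (y1 : n ≤ 53 / 100)
    (T : n ≤ 4 / 5 * x) (hρ : ρ ≤ x + 2 / 5 * n - 147 / 200 * (x * n)) :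
    (7 + x) * ρ ≤ 2 * (2 * (1 - n) * (1 + x) + x ^ (3 : ℕ) + 2 * x ^ (2 : ℕ)) := by
  have h1 := mul_le_mul_of_nonneg_left hρ (show 0 ≤ 7 + x by linarith only [x0])
  refine h1.trans ?_
  have key : 0 ≤ (2 * (2 * (1 + x) + x ^ (3 : ℕ) + 2 * x ^ (2 : ℕ)) - (7 + x) * x) +
      (-(4 * (1 + x)) - (7 + x) * (2 / 5 - 147 / 200 * x)) * n := by
    have k0 : 0 ≤ (2 * (2 * (1 + x) + x ^ (3 : ℕ) + 2 * x ^ (2 : ℕ)) - (7 + x) * x) +
        (-(4 * (1 + x)) - (7 + x) * (2 / 5 - 147 / 200 * x)) * 0 := by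
      linarith only [sq_nonneg (x - 1 / 2), pow_nonneg x0.le 3]
    rcases le_total x (53 / 80) with hx | hx
    · refine aff (z0 := 0) (z1 := 4 / 5 * x) k0 ?_ y0 T
      have q : 0 ≤ 53 / 80 - x := by linarith only [hx]
      nlinarith only [mul_nonneg q (mul_nonneg q x0.le)]
    · refine aff (z0 := 0) (z1 := 53 / 100) k0 ?_ y0 y1
      have q : 0 ≤ x - 53 / 80 := by linarith only [hx]
      nlinarith only [mul_nonneg q (mul_nonneg q q)]
  linarith only [key]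

private theorem or_k {x n k ψ : ℝ} (x0 : 0 < x) (y0 : 0 ≤ n) (T : n ≤ 4 / 5 * x)
    (hx : x = k * Real.cos ψ) (hy : n = k * Real.sin ψ) : k ≤ x + 2 / 5 * n := by
  have hk : k ^ (2 : ℕ) = x ^ (2 : ℕ) + n ^ (2 : ℕ) := by
    rw [hx, hy]
    linear_combination (-(k ^ (2 : ℕ))) * Real.sin_sq_add_cos_sq ψ
  by_contra hc
  push Not at hc
  have h1 := pow_lt_pow_left₀ hc (by (clear * - x0 y0; positivity)) two_ne_zero
  have h3 : 0 ≤ n * (4 / 5 * x - 21 / 25 * n) := mul_nonneg y0 (by linarith only [y0, T])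
  linarith only [hk, h1, h3]

private theorem or_ρ {x n k : ℝ} (x0 : 0 < x) (y0 : 0 ≤ n) (y1 : n ≤ 53 / 100)
    (hk : k ≤ x + 2 / 5 * n) :
    k * Real.exp (-n) ≤ x + 2 / 5 * n - 147 / 200 * (x * n) := by
  have hE : Real.exp (-n) ≤ 1 - 147 / 200 * n := by
    have h1 := en_le2 y0
    have h3 : 0 ≤ n * (53 / 100 - n) := mul_nonneg y0 (by linarith only [y1])
    linarith only [h1, h3]
  have h5 : k * Real.exp (-n) ≤ (x + 2 / 5 * n) * (1 - 147 / 200 * n) :=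
    mul_le_mul hk hE (Real.exp_pos _).le (by positivity)
  linarith only [h5, mul_nonneg y0 y0]

private theorem or_Q {x n : ℝ} (x0 : 0 < x) : Qf x (-n) =
    (2 * (1 - n) * (1 + x) + x ^ (3 : ℕ) + 2 * x ^ (2 : ℕ)) / (2 * (1 + x) ^ (2 : ℕ)) := by
  unfold Qf
  field_simp
  ring

/-- the main inequality -/
private theorem or_main {x n z τ k ψ ρ r δ : ℝ} (h : FR x n z τ k ψ ρ r δ) :
    0 < 2 * (1 - n) * (1 + x) + x ^ (3 : ℕ) + 2 * x ^ (2 : ℕ) ∧ 0 < δ ∧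
    50 * (7 + x) * z ≤ 77 / 100 * (81 * (2 * (1 - n) * (1 + x) + x ^ (3 : ℕ) + 2 * x ^ (2 : ℕ))) ∧
    3 * (50 * (7 + x)) * (2 * (81 * (2 * (1 - n) * (1 + x) + x ^ (3 : ℕ) + 2 * x ^ (2 : ℕ))) -
      50 * (7 + x) * z) ≤ 4 * (n / δ) * (81 * (2 * (1 - n) * (1 + x) + x ^ (3 : ℕ) + 2 * x ^ (2 : ℕ))) *
      (81 * (2 * (1 - n) * (1 + x) + x ^ (3 : ℕ) + 2 * x ^ (2 : ℕ)) - 50 * (7 + x) * z) := by
  obtain ⟨sh, rho, r0, del, D, G, η, ηζ, w1, w2, yx⟩ := h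
  obtain ⟨x0, y0, y1, T, z0, τ0, zτ, ζ, τ1, k0, ψ0, ψ1, hx, hy⟩ := sh
  obtain ⟨h2, h77⟩ := or_u77 x0 y1 T zτ ζ
  have hk := or_k x0 y0 T hx hy
  have hρ := or_ρ x0 y0 y1 hk
  rw [← rho] at hρ
  have hρ0 : 0 < ρ := by
    rw [rho]
    have := Real.exp_pos (-n)
    (clear * - k0; positivity)
  have hr0 : 0 < r := by linarith only [r0]
  have hδ : 0 < δ := by
    rw [del]
    (clear * - hρ0 r0; positivity)
  have hP : 0 < 2 * (1 - n) * (1 + x) + x ^ (3 : ℕ) + 2 * x ^ (2 : ℕ) := by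
    have : 0 < 1 - n := by linarith only [y1]
    (clear * - this x0; positivity)
  refine ⟨hP, hδ, h77, ?_⟩
  obtain ⟨P, hPe⟩ : ∃ P, P = 2 * (1 - n) * (1 + x) + x ^ (3 : ℕ) + 2 * x ^ (2 : ℕ) := ⟨_, rfl⟩
  have hBz : 0 < 81 * P - 50 * (7 + x) * z := by
    rw [hPe]
    linarith only [h77, hP]
  rcases le_total n (1 / 10) with hn | hn
  · rcases le_total ρ (17 / 10) with hr | hr
    · have hN : 4 ≤ n / δ := by
        rw [le_div_iff₀ hδ]
        exact w2 hr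
      refine (or_A x0 hn h2 h77).trans ?_
      rw [← hPe] at hP ⊢
      have h3 : 0 ≤ (n / δ - 4) * ((81 * P) * (81 * P - 50 * (7 + x) * z)) :=
        mul_nonneg (by linarith only [hN]) (by (clear * - hP hBz; positivity))
      linarith only [h3]
    · have hN : 5 / 4 ≤ n / δ := by
        rw [le_div_iff₀ hδ]
        exact w1
      have hx1 : 166 / 100 ≤ x := by
        have : 0 ≤ x * n := mul_nonneg x0.le y0
        linarith only [hρ, hn, hr, this]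
      have hz1 : z ≤ 21 / 25 := by linarith only [τ0, ζ]
      have hAB : 50 * (7 + x) ≤ 2 / 5 * (81 * P) := by
        rw [hPe]
        have h4 := mul_nonneg (show 0 ≤ 1 / 10 - n by linarith only [hn]) (show 0 ≤ 1 + x by linarith only [hx1])
        nlinarith only [hn, hx1]
      rw [← hPe] at hP ⊢
      have hA0 : 0 < 50 * (7 + x) := by linarith only [hx1]
      have h3 : 0 ≤ (n / δ - 5 / 4) * ((81 * P) * (81 * P - 50 * (7 + x) * z)) :=
        mul_nonneg (by linarith only [hN]) (by (clear * - hP hBz; positivity))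
      have h4 : 50 * (7 + x) * z ≤ 2 / 5 * (81 * P) * (21 / 25) :=
        mul_le_mul hAB hz1 z0 (by (clear * - hP; positivity))
      have h5 : 50 * (7 + x) * (2 * (81 * P) - 50 * (7 + x) * z) ≤
          2 / 5 * (81 * P) * (2 * (81 * P)) := by
        apply mul_le_mul hAB _ _ (by (clear * - hP; positivity))
        · have : 0 ≤ 50 * (7 + x) * z := by (clear * - x0 z0; positivity)
          linarith only [this]
        · linarith only [hAB, hA0, h4]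
      have h6 : (81 * P) * (664 / 1000 * (81 * P)) ≤ (81 * P) * (81 * P - 50 * (7 + x) * z) :=
        mul_le_mul_of_nonneg_left (by linarith only [h4]) (by (clear * - hP; positivity))
      have h7 : 0 ≤ (81 * P) * (81 * P) := by (clear * - hP; positivity)
      linarith only [h3, h5, h6, h7]
  · have hNρ : n / δ * ρ = n * r := by
      rw [del]
      field_simp
    have h5 := or_B x0 y0 y1 T hρ
    rw [← hPe] at hP h5 h77 ⊢
    have hNr : 499 / 100 ≤ n / δ * ρ := by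
      rw [hNρ]
      nlinarith only [r0, hn]
    have h6 : 16044 / 1000 * (50 * (7 + x)) ≤ 4 * (n / δ) * (81 * P) := by
      have h7 : 16044 / 1000 * (50 * (7 + x)) * ρ ≤ 4 * (n / δ) * (81 * P) * ρ := by
        have h8 : 499 / 100 * (81 * P) ≤ n / δ * ρ * (81 * P) :=
          mul_le_mul_of_nonneg_right hNr (by (clear * - hP; positivity))
        linarith only [hP, h5, h8]
      exact le_of_mul_le_mul_right h7 hρ0
    have hA0 : 0 < 50 * (7 + x) := by linarith only [y0, T]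
    have h9 : 3 * (50 * (7 + x)) * (2 * (81 * P) - 50 * (7 + x) * z) ≤
        16044 / 1000 * (50 * (7 + x)) * (81 * P - 50 * (7 + x) * z) := by
      have h10 : 2 * (81 * P) - 50 * (7 + x) * z ≤ 5348 / 1000 * (81 * P - 50 * (7 + x) * z) := by
        linarith only [h77, hP]
      have h11 := mul_le_mul_of_nonneg_left h10 hA0.le
      linarith only [h11]
    exact h9.trans (mul_le_mul_of_nonneg_right h6 hBz.le)

/-- `u = (c² + c/6) z/(27/50 Q)` -/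
private theorem or_core {x n z τ k ψ ρ r δ : ℝ} (h : FR x n z τ k ψ ρ r δ) :
    0 < Qf x (-n) ∧ 0 < δ ∧
    0 ≤ ((1 / (1 + x)) ^ (2 : ℕ) + 1 / (6 * (1 + x))) * z / (27 / 50 * Qf x (-n)) ∧
    ((1 / (1 + x)) ^ (2 : ℕ) + 1 / (6 * (1 + x))) * z / (27 / 50 * Qf x (-n)) ≤ 77 / 100 ∧
    Real.exp (-(n * z / δ)) ≤
      (1 - ((1 / (1 + x)) ^ (2 : ℕ) + 1 / (6 * (1 + x))) * z / (27 / 50 * Qf x (-n))) *
      √(1 - ((1 / (1 + x)) ^ (2 : ℕ) + 1 / (6 * (1 + x))) * z / (27 / 50 * Qf x (-n))) := by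
  obtain ⟨hP, hδ, h77, hm⟩ := or_main h
  have x0 := h.sh.x0
  have z0 := h.sh.z0
  have hx1 : 0 < 1 + x := by linarith only [x0]
  have hQ := or_Q (x := x) (n := n) x0
  obtain ⟨P, hPe⟩ : ∃ P, P = 2 * (1 - n) * (1 + x) + x ^ (3 : ℕ) + 2 * x ^ (2 : ℕ) := ⟨_, rfl⟩
  rw [← hPe] at hP h77 hm hQ
  have hu : ((1 / (1 + x)) ^ (2 : ℕ) + 1 / (6 * (1 + x))) * z / (27 / 50 * Qf x (-n)) =
      50 * (7 + x) * z / (81 * P) := by
    rw [hQ]
    field_simp
    ring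
  have hQ0 : 0 < Qf x (-n) := by
    rw [hQ]
    (clear * - hP x0; positivity)
  rw [hu]
  have hB : 0 < 81 * P := by (clear * - hP; positivity)
  have hu1 : 50 * (7 + x) * z / (81 * P) ≤ 77 / 100 := by
    rw [div_le_iff₀ hB]
    exact h77
  have hu0 : 0 ≤ 50 * (7 + x) * z / (81 * P) := by (clear * - x0 z0 hP; positivity)
  refine ⟨hQ0, hδ, hu0, hu1, ?_⟩
  apply or_log (by linarith only [hu1]) (by linarith only [hu0])
  have hBz : 0 < 81 * P - 50 * (7 + x) * z := by linarith only [h77, hP]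
  have e1 : 1 - 50 * (7 + x) * z / (81 * P) = (81 * P - 50 * (7 + x) * z) / (81 * P) := by
    field_simp
  have e2 : 3 / 4 * ((1 - (1 - 50 * (7 + x) * z / (81 * P)) ^ (2 : ℕ)) /
      (1 - 50 * (7 + x) * z / (81 * P))) =
      3 * (50 * (7 + x)) * (2 * (81 * P) - 50 * (7 + x) * z) * z /
        (4 * (81 * P) * (81 * P - 50 * (7 + x) * z)) := by
    rw [e1]
    field_simp
    ring
  rw [e2, div_le_iff₀ (by (clear * - hP hBz; positivity))]
  have h3 := mul_le_mul_of_nonneg_right hm z0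
  have e3 : n * z / δ = n / δ * z := by ring
  rw [e3]
  linarith only [h3]

private theorem or_dom {x n z τ k ψ ρ r δ : ℝ} (h : FR x n z τ k ψ ρ r δ) : DomG x (-n) := by
  have h1 := h.sh.y0
  have h2 := h.sh.y1
  have h3 := h.D
  refine ⟨h.sh.x0.le, by linarith only [h2], by linarith only [h1], ?_⟩
  have e : (1 + -n) ^ (2 : ℕ) + x ^ (2 : ℕ) = (1 - n) ^ (2 : ℕ) + x ^ (2 : ℕ) := by ring
  rw [e]
  linarith only [h3]

private theorem or_chord {c : ℝ} (h0 : 0 ≤ c) (h1 : c ≤ 1) : Real.exp c - 1 ≤ (Real.exp 1 - 1) * c := by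
  have h := convexOn_exp.2 (Set.mem_univ (0 : ℝ)) (Set.mem_univ (1 : ℝ))
    (show 0 ≤ 1 - c by linarith only [h1]) h0 (by ring)
  simp only [smul_eq_mul, mul_zero, zero_add, Real.exp_zero, mul_one] at h
  linarith only [h]

/-- core, right side, `s ≥ 0`: `t = 1 - c (e^c - 1) z/(9/10 Q)`, `w = n (z + τ/2)/δ` -/
theorem shRr {x n z τ k ψ ρ r δ : ℝ} (h : FR x n z τ k ψ ρ r δ) :
    ∃ t w : ℝ, 0 < t ∧ t ≤ 1 ∧ 0 ≤ w ∧ exp (-w) ≤ t * √t ∧ ∀ s : ℝ, 0 ≤ s → s ≤ 1 →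
      w + t * (9 / 10 * (Qf x (-n) / δ) * s ^ (2 : ℕ)) ≤
        Hc x (-n) (-z) (-τ) (s / (1 + x)) s / δ := by
  obtain ⟨hQ, hδ, hu0, hu1, hexp⟩ := or_core h
  have hdom := or_dom h
  have x0 := h.sh.x0
  have y0 := h.sh.y0
  have z0 := h.sh.z0
  have τ0 := h.sh.τ0
  have T := h.sh.T
  have hsh := h.sh
  have hx1 : 0 < 1 + x := by linarith only [x0]
  have hc0 : 0 < 1 / (1 + x) := by (clear * - x0; positivity)
  have hc1 : 1 / (1 + x) ≤ 1 := by
    rw [div_le_one hx1]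
    linarith only [y0, T]
  have hE0 : 0 ≤ Real.exp (1 / (1 + x)) - 1 := by
    have := Real.one_le_exp hc0.le
    linarith only [this]
  have hE1 : Real.exp (1 / (1 + x)) - 1 ≤ 10 / 6 * (1 / (1 + x)) + 10 / 36 := by
    have h1 := or_chord hc0.le hc1
    have h2 := Real.exp_one_lt_d9
    nlinarith only [hc0, hc1, h1, h2]
  have hu' : 1 / (1 + x) * (Real.exp (1 / (1 + x)) - 1) * z / (9 / 10 * Qf x (-n)) ≤
      ((1 / (1 + x)) ^ (2 : ℕ) + 1 / (6 * (1 + x))) * z / (27 / 50 * Qf x (-n)) := by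
    rw [div_le_div_iff₀ (by (clear * - hQ; positivity)) (by positivity)]
    have h3 : 1 / (1 + x) * (Real.exp (1 / (1 + x)) - 1) ≤
        10 / 6 * ((1 / (1 + x)) ^ (2 : ℕ) + 1 / (6 * (1 + x))) := by
      have h4 := mul_le_mul_of_nonneg_left hE1 hc0.le
      have h5 : 1 / (6 * (1 + x)) = 1 / 6 * (1 / (1 + x)) := by
        field_simp
      rw [h5]
      linarith only [h4]
    have h6 : 0 ≤ z * (27 / 50 * Qf x (-n)) := by (clear * - z0 hQ; positivity)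
    have h7 := mul_le_mul_of_nonneg_right h3 h6
    linarith only [h7]
  have hu'0 : 0 ≤ 1 / (1 + x) * (Real.exp (1 / (1 + x)) - 1) * z / (9 / 10 * Qf x (-n)) := by
    (clear * - x0 hE0 z0 hQ; positivity)
  refine ⟨1 - 1 / (1 + x) * (Real.exp (1 / (1 + x)) - 1) * z / (9 / 10 * Qf x (-n)),
    n * (z + τ / 2) / δ, by linarith only [hu1, hu'], by linarith only [hu'0], by (clear * - y0 z0 τ0 hδ; positivity), ?_, ?_⟩
  · have h1 : Real.exp (-(n * (z + τ / 2) / δ)) ≤ Real.exp (-(n * z / δ)) := by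
      rw [Real.exp_le_exp, neg_le_neg_iff]
      apply div_le_div_of_nonneg_right _ hδ.le
      apply mul_le_mul_of_nonneg_left _ y0
      linarith only [τ0]
    refine (h1.trans hexp).trans ?_
    apply mul_le_mul (by linarith only [hu']) (Real.sqrt_le_sqrt (by linarith only [hu'])) (Real.sqrt_nonneg _)
      (by linarith only [hu1, hu'])
  · intro s hs0 hs1
    have h1 := dRr hsh hs0 hs1
    have h2 := G1_negT hdom (by linarith only [y0]) (by linarith only [y0, T]) hs0 hs1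
    have hcs : 1 / (1 + x) * s ≤ 1 := by nlinarith only [hc0, hc1, hs1]
    have hcs0 : 0 ≤ 1 / (1 + x) * s := by (clear * - x0 hs0; positivity)
    unfold Hf at h2
    rw [ga_mid rfl (by linarith only [hcs0]) hcs, one_div_mul_eq_div] at h2
    have e : n * (z + τ / 2) / δ + (1 - 1 / (1 + x) * (Real.exp (1 / (1 + x)) - 1) * z /
        (9 / 10 * Qf x (-n))) * (9 / 10 * (Qf x (-n) / δ) * s ^ (2 : ℕ)) =
        (n * (z + τ / 2) + 9 / 10 * Qf x (-n) * s ^ (2 : ℕ) -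
          1 / (1 + x) * (Real.exp (1 / (1 + x)) - 1) * z * s ^ (2 : ℕ)) / δ := by
      field_simp
      ring
    rw [e]
    apply div_le_div_of_nonneg_right _ hδ.le
    linarith only [h1, h2]

/-- core, right side, `s = -v ≤ 0`: `t = 1 - (c² + c/6) z/(27/50 Q)`, `w = n z/δ` -/
theorem shRl {x n z τ k ψ ρ r δ : ℝ} (h : FR x n z τ k ψ ρ r δ) :
    ∃ t w : ℝ, 0 < t ∧ t ≤ 1 ∧ 0 ≤ w ∧ exp (-w) ≤ t * √t ∧ ∀ v : ℝ, 0 ≤ v → v ≤ 1 →
      w + t * ((Qf x (-n) / δ) * ((1 - 14 / 25 * v + v ^ (2 : ℕ) / 10) * v ^ (2 : ℕ))) ≤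
        Hc x (-n) (-z) (-τ) (-(v / (1 + x))) (-v) / δ := by
  obtain ⟨hQ, hδ, hu0, hu1, hexp⟩ := or_core h
  have hdom := or_dom h
  have x0 := h.sh.x0
  have y0 := h.sh.y0
  have z0 := h.sh.z0
  have hsh := h.sh
  have hx1 : 0 < 1 + x := by linarith only [x0]
  have hc0 : 0 < 1 / (1 + x) := by (clear * - x0; positivity)
  have hc1 : 1 / (1 + x) ≤ 1 := by
    rw [div_le_one hx1]
    linarith only [x0]
  refine ⟨1 - ((1 / (1 + x)) ^ (2 : ℕ) + 1 / (6 * (1 + x))) * z / (27 / 50 * Qf x (-n)),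
    n * z / δ, by linarith only [hu1], by linarith only [hu0], by (clear * - y0 z0 hδ; positivity), hexp, ?_⟩
  intro v hv0 hv1
  have h1 := dRl hsh hv0 hv1
  have h2 := G3_neg hdom (by linarith only [y0]) (show -(3 / 2) ≤ -v by linarith only [hv1]) (by linarith only [hv0])
  have hcs : 1 / (1 + x) * -v ≤ 1 := by nlinarith only [hc0, hv0]
  have hcs0 : -1 ≤ 1 / (1 + x) * -v := by nlinarith only [hc1, hv0, hv1]
  have e0 : 1 / (1 + x) * -v = -(v / (1 + x)) := by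
    field_simp
  unfold Hf at h2
  rw [ga_mid rfl hcs0 hcs, e0] at h2
  have hq : 27 / 50 ≤ 1 - 14 / 25 * v + v ^ (2 : ℕ) / 10 := by nlinarith only [hv1]
  have e : n * z / δ + (1 - ((1 / (1 + x)) ^ (2 : ℕ) + 1 / (6 * (1 + x))) * z / (27 / 50 * Qf x (-n))) *
      ((Qf x (-n) / δ) * ((1 - 14 / 25 * v + v ^ (2 : ℕ) / 10) * v ^ (2 : ℕ))) =
      (n * z + Qf x (-n) * ((1 - 14 / 25 * v + v ^ (2 : ℕ) / 10) * v ^ (2 : ℕ)) -
        ((1 / (1 + x)) ^ (2 : ℕ) + 1 / (6 * (1 + x))) * z * (50 / 27 *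
          (1 - 14 / 25 * v + v ^ (2 : ℕ) / 10)) * v ^ (2 : ℕ)) / δ := by
    field_simp
    ring
  rw [e]
  apply div_le_div_of_nonneg_right _ hδ.le
  have h3 : 0 ≤ ((1 / (1 + x)) ^ (2 : ℕ) + 1 / (6 * (1 + x))) * z * v ^ (2 : ℕ) *
      (50 / 27 * (1 - 14 / 25 * v + v ^ (2 : ℕ) / 10) - 1) := by
    apply mul_nonneg (by (clear * - x0 z0; positivity))
    linarith only [hq]
  linarith only [h1, h2, h3]

end SokamV3O

end
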