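import Pool.Agent.Lib_MP_af4de1_zy.Z43
import Pool.Agent.Lib_MP_af4de1_zy.Z45
import Pool.Agent.Lib_MP_af4de1_zy.Z77
import Pool.Agent.Lib_MP_af4de1_zy.Z97

/-! ### Lib_MP_af4de1_v3o.OTLa -/

section
namespace SokamF1G
end SokamF1G
/-!
# Levels beyond the first zone, left side, `s > 0`
-/

set_option autoImplicit false

namespace SokamV3O

open Real SokamF1G

/-- concave quadratic, end points -/
theorem conc {a b c p X x : ℝ} (ha : 0 ≤ a) (hp : p < X) (h1 : p ≤ x) (h2 : x ≤ X)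
    (f1 : 0 ≤ b * p - a * p ^ (2 : ℕ) + c) (f2 : 0 ≤ b * X - a * X ^ (2 : ℕ) + c) :
    0 ≤ b * x - a * x ^ (2 : ℕ) + c := by
  have e : (X - p) * (b * x - a * x ^ (2 : ℕ) + c) = (X - x) * (b * p - a * p ^ (2 : ℕ) + c) +
      (x - p) * (b * X - a * X ^ (2 : ℕ) + c) + a * ((x - p) * (X - x) * (X - p)) := by ring
  have g1 := mul_nonneg (sub_nonneg.2 h2) f1
  have g2 := mul_nonneg (sub_nonneg.2 h1) f2
  have g3 := mul_nonneg ha (mul_nonneg (mul_nonneg (sub_nonneg.2 h1) (sub_nonneg.2 h2))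
    (sub_nonneg.2 hp.le))
  by_contra hh
  push Not at hh
  have := mul_neg_of_pos_of_neg (sub_pos.2 hp) hh
  linarith only [g1, g2, g3, this]

/-- `e - (λ - y) e^y`, upper bound -/
noncomputable def Cp (l y : ℝ) : ℝ := 27183 / 10000 - (l - y) * (1 + y + y ^ (2 : ℕ) / 2 + y ^ (3 : ℕ) / 6)

theorem poly1 {x y : ℝ} (hx : 9 / 10 ≤ x) (hx3 : x ≤ 3) (hy : 0 ≤ y) (hy1 : y ≤ 14 / 25)
    (hC : x * (y + y ^ (2 : ℕ) / 2 + y ^ (3 : ℕ) / 6) ≤ 15708 / 10000) :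
    0 ≤ 2 * x * (1 - y) * (418878 / 100000) + 2 * x ^ (2 : ℕ) * (1 + y) -
      Cp (8597 / 10000) y * (2 * x ^ (2 : ℕ) + y ^ (2 : ℕ)) := by
  have hy2 : 0 ≤ y ^ (2 : ℕ) := sq_nonneg y
  have hA : 0 ≤ Cp (8597 / 10000) y - (1 + y) := by
    unfold Cp
    nlinarith only [mul_nonneg hy (sub_nonneg.2 hy1), mul_nonneg hy2 (sub_nonneg.2 hy1)]
  have e : 2 * x * (1 - y) * (418878 / 100000) + 2 * x ^ (2 : ℕ) * (1 + y) -
      Cp (8597 / 10000) y * (2 * x ^ (2 : ℕ) + y ^ (2 : ℕ)) =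
      (2 * (1 - y) * (418878 / 100000)) * x - (2 * (Cp (8597 / 10000) y - (1 + y))) * x ^ (2 : ℕ) +
        (- (Cp (8597 / 10000) y * y ^ (2 : ℕ))) := by ring
  rw [e]
  have g1 : 0 ≤ (2 * (1 - y) * (418878 / 100000)) * (9 / 10) -
      (2 * (Cp (8597 / 10000) y - (1 + y))) * (9 / 10) ^ (2 : ℕ) +
        (- (Cp (8597 / 10000) y * y ^ (2 : ℕ))) := by
    unfold Cp
    nlinarith only [mul_nonneg hy (sub_nonneg.2 hy1), mul_nonneg (mul_nonneg hy2 hy) (sub_nonneg.2 hy1)]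
  rcases le_total y (48 / 100) with h48 | h48
  · refine conc (X := 3) (by linarith only [hA]) (by norm_num) hx hx3 g1 ?_
    unfold Cp
    nlinarith only [mul_nonneg (mul_nonneg hy2 hy) (sub_nonneg.2 h48), mul_nonneg (mul_nonneg hy2 hy2) (sub_nonneg.2 h48), mul_nonneg (mul_nonneg (mul_nonneg hy2 hy2) hy) (sub_nonneg.2 h48)]
  · have hX : x ≤ 64 / 25 := by
      have h1 : (48 / 100 : ℝ) + (48 / 100) ^ (2 : ℕ) / 2 + (48 / 100) ^ (3 : ℕ) / 6 ≤
          y + y ^ (2 : ℕ) / 2 + y ^ (3 : ℕ) / 6 := by gcongr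
      have h2 := mul_le_mul_of_nonneg_left h1 (by linarith : (0 : ℝ) ≤ x)
      norm_num at h2
      linarith only [hC, h2]
    refine conc (X := 64 / 25) (by linarith only [hA]) (by norm_num) hx hX g1 ?_
    have h0 : 0 ≤ y - 48 / 100 := by linarith only [h48]
    unfold Cp
    nlinarith only [mul_nonneg (mul_nonneg hy2 hy) (sub_nonneg.2 hy1), mul_nonneg (mul_nonneg hy2 hy2) (sub_nonneg.2 hy1), mul_nonneg (mul_nonneg (mul_nonneg hy2 hy2) hy) (sub_nonneg.2 hy1)]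

theorem poly2 {x y : ℝ} (hx : 9 / 10 ≤ x) (hx3 : x ≤ 3) (hy : 0 ≤ y) (hy1 : y ≤ 14 / 25) :
    0 ≤ 2 * x * (1 - y) * (418878 / 100000) + 2 * x ^ (2 : ℕ) * (1 + y) -
      Cp 1 y * (2 * x ^ (2 : ℕ) + y ^ (2 : ℕ)) - 2 * x * (1704 / 1000 * (1 - y) ^ (2 : ℕ)) := by
  have hy2 : 0 ≤ y ^ (2 : ℕ) := sq_nonneg y
  have hA : 0 ≤ Cp 1 y - (1 + y) := by
    unfold Cp
    nlinarith only [mul_nonneg hy (sub_nonneg.2 hy1), mul_nonneg (mul_nonneg hy2 hy) (sub_nonneg.2 hy1)]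
  have e : 2 * x * (1 - y) * (418878 / 100000) + 2 * x ^ (2 : ℕ) * (1 + y) -
      Cp 1 y * (2 * x ^ (2 : ℕ) + y ^ (2 : ℕ)) - 2 * x * (1704 / 1000 * (1 - y) ^ (2 : ℕ)) =
      (2 * (1 - y) * (418878 / 100000) - 2 * (1704 / 1000 * (1 - y) ^ (2 : ℕ))) * x -
        (2 * (Cp 1 y - (1 + y))) * x ^ (2 : ℕ) + (- (Cp 1 y * y ^ (2 : ℕ))) := by ring
  rw [e]
  refine conc (p := 9 / 10) (X := 3) (by linarith only [hA]) (by norm_num) hx hx3 ?_ ?_
  · unfold Cp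
    nlinarith only [mul_nonneg (mul_nonneg hy2 hy) (sub_nonneg.2 hy1), mul_nonneg (mul_nonneg hy2 hy2) (sub_nonneg.2 hy1)]
  · unfold Cp
    nlinarith only [mul_nonneg (mul_nonneg hy2 hy) (sub_nonneg.2 hy1), mul_nonneg (mul_nonneg (mul_nonneg hy2 hy2) hy) (sub_nonneg.2 hy1)]

theorem poly3 {x y : ℝ} (hx : 5 / 4 * y ≤ x) (hx3 : x ≤ 9 / 10) (hy : 0 ≤ y)
    (hy1 : y ≤ 14 / 25) :
    0 ≤ 2 * x * (1 - y) * (268878 / 100000) + 2 * x ^ (2 : ℕ) * (1 + y) -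
      Cp (8997 / 10000) y * (2 * x ^ (2 : ℕ) + y ^ (2 : ℕ)) := by
  have hy2 : 0 ≤ y ^ (2 : ℕ) := sq_nonneg y
  have hA : 0 ≤ Cp (8997 / 10000) y - (1 + y) := by
    unfold Cp
    nlinarith only [mul_nonneg hy (sub_nonneg.2 hy1), mul_nonneg (mul_nonneg hy2 hy) (sub_nonneg.2 hy1)]
  have e : 2 * x * (1 - y) * (268878 / 100000) + 2 * x ^ (2 : ℕ) * (1 + y) -
      Cp (8997 / 10000) y * (2 * x ^ (2 : ℕ) + y ^ (2 : ℕ)) =
      (2 * (1 - y) * (268878 / 100000)) * x - (2 * (Cp (8997 / 10000) y - (1 + y))) * x ^ (2 : ℕ) +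
        (- (Cp (8997 / 10000) y * y ^ (2 : ℕ))) := by ring
  rw [e]
  refine conc (p := 5 / 4 * y) (X := 9 / 10) (by linarith only [hA]) (by linarith only [hy1]) hx hx3 ?_ ?_
  · have e2 : 2 * (1 - y) * (268878 / 100000) * (5 / 4 * y) -
        2 * (Cp (8997 / 10000) y - (1 + y)) * (5 / 4 * y) ^ (2 : ℕ) + -(Cp (8997 / 10000) y * y ^ (2 : ℕ)) =
        y * (2 * (1 - y) * (268878 / 100000) * (5 / 4) -
        2 * (Cp (8997 / 10000) y - (1 + y)) * (5 / 4) ^ (2 : ℕ) * y - Cp (8997 / 10000) y * y) := by ring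
    rw [e2]
    apply mul_nonneg hy
    unfold Cp
    nlinarith only [mul_nonneg hy (sub_nonneg.2 hy1), mul_nonneg (mul_nonneg hy2 hy) (sub_nonneg.2 hy1)]
  · unfold Cp
    nlinarith only [mul_nonneg (mul_nonneg hy2 hy) (sub_nonneg.2 hy1), mul_nonneg (mul_nonneg hy2 hy2) (sub_nonneg.2 hy1), mul_nonneg (mul_nonneg (mul_nonneg hy2 hy2) hy) (sub_nonneg.2 hy1)]

theorem lo_chain {x y k ρ t l E : ℝ} (hx : 0 < x) (hy : 0 ≤ y) (hy1 : y ≤ 14 / 25) (hk : 0 < k)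
    (hk2 : 2 * x * k ≤ 2 * x ^ (2 : ℕ) + y ^ (2 : ℕ)) (hρ : ρ = k * exp y) (hl : y ≤ l) (hl1 : l ≤ 1)
    (hP : 0 ≤ 2 * x * (1 - y) * t + 2 * x ^ (2 : ℕ) * (1 + y) - Cp l y * (2 * x ^ (2 : ℕ) + y ^ (2 : ℕ)) -
      2 * x * E) :
    (1 - l) * ρ + E ≤ (1 - y) * (t + (ρ - x)) + 2 * x - exp 1 * k := by
  have h2 : exp 1 * k ≤ 27183 / 10000 * k := by
    apply mul_le_mul_of_nonneg_right _ hk.le
    have := Real.exp_one_lt_d9
    linarith only [this]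
  have h3 : k * (1 + y + y ^ (2 : ℕ) / 2 + y ^ (3 : ℕ) / 6) ≤ ρ := by
    rw [hρ]
    exact mul_le_mul_of_nonneg_left (e_ge3 hy) hk.le
  have h4 : (l - y) * (k * (1 + y + y ^ (2 : ℕ) / 2 + y ^ (3 : ℕ) / 6)) ≤ (l - y) * ρ :=
    mul_le_mul_of_nonneg_left h3 (by linarith only [hl])
  have hC0 : 0 ≤ Cp l y := by
    have e1 : (l - y) * (1 + y + y ^ (2 : ℕ) / 2 + y ^ (3 : ℕ) / 6) ≤ 1 * (5 / 2) := by
      apply mul_le_mul (by linarith only [hy, hl1]) _ (by (clear * - hy; positivity)) (by norm_num)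
      have : y ^ (2 : ℕ) ≤ 1 := by nlinarith only [hy, hy1]
      have : y ^ (3 : ℕ) ≤ 1 := pow_le_one₀ hy (by linarith only [hy1])
      linarith
    unfold Cp
    linarith only [e1]
  have h6 : Cp l y * (2 * x * k) ≤ Cp l y * (2 * x ^ (2 : ℕ) + y ^ (2 : ℕ)) := mul_le_mul_of_nonneg_left hk2 hC0
  have h7 : 0 ≤ 2 * x * ((1 - y) * (t - x) + 2 * x - Cp l y * k - E) := by
    have e : 2 * x * ((1 - y) * (t - x) + 2 * x - Cp l y * k - E) =
      2 * x * (1 - y) * t + 2 * x ^ (2 : ℕ) * (1 + y) - Cp l y * (2 * x * k) - 2 * x * E := by ring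
    rw [e]
    linarith only [hP, h6]
  have h8 : 0 ≤ (1 - y) * (t - x) + 2 * x - Cp l y * k - E := by
    by_contra hh
    push Not at hh
    have := mul_neg_of_pos_of_neg (by linarith : 0 < 2 * x) hh
    linarith only [h7, this]
  have e9 : Cp l y * k = 27183 / 10000 * k -
      (l - y) * (k * (1 + y + y ^ (2 : ℕ) / 2 + y ^ (3 : ℕ) / 6)) := by
    unfold Cp
    ring
  linarith only [h2, h4, h8, e9]

/-- level at the lump, `s > 0` -/
noncomputable def Lv (x y z τ k ψ : ℝ) : ℝ :=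
  (a4 x - y) * (2 * π - ψ - τ - z) + x * (1 + a4 x) - exp (a4 x) * k

/-- level at the lump, `s < 0` -/
noncomputable def Ln (x y z τ k ψ : ℝ) : ℝ :=
  (a4 x + y) * (2 * π + ψ + τ + z) + x * (1 - a4 x) - exp (-(a4 x)) * k

/-- common facts -/
theorem fl_basic {x y z τ k ψ ρ r δ : ℝ} (h : FL x y z τ k ψ ρ r δ) :
    0 < ρ ∧ 0 < r ∧ 0 < δ ∧ x ≤ k ∧ 2 * x * k ≤ 2 * x ^ (2 : ℕ) + y ^ (2 : ℕ) ∧ k ≤ ρ ∧
      ρ ≤ x + 15708 / 10000 ∧ x * (y + y ^ (2 : ℕ) / 2 + y ^ (3 : ℕ) / 6) ≤ 15708 / 10000 ∧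
      418878 / 100000 + (ρ - x) ≤ 2 * π - ψ - τ - z ∧ ψ * x ≤ y ∧ δ * r = ρ := by
  obtain ⟨hxk, hk2⟩ := shp_basic h.sh
  have hr : 0 < r := by linarith only [h.r0]
  have hk := h.sh.k0
  have hy := h.sh.y0
  have hρ : 0 < ρ := by
    rw [h.rho]
    exact mul_pos hk (exp_pos y)
  have hδ : 0 < δ := by
    rw [h.del]
    exact div_pos hρ hr
  have hπ0 := Real.pi_gt_d6
  have hπ1 := Real.pi_lt_d6
  have hψ0 := h.sh.ψ0
  have hη := h.η
  have hηζ := h.ηζ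
  have he := e_ge3 hy
  have h1 : k * (1 + y + y ^ (2 : ℕ) / 2 + y ^ (3 : ℕ) / 6) ≤ ρ := by
    rw [h.rho]
    exact mul_le_mul_of_nonneg_left he hk.le
  have h2 : x * (1 + y + y ^ (2 : ℕ) / 2 + y ^ (3 : ℕ) / 6) ≤ k * (1 + y + y ^ (2 : ℕ) / 2 + y ^ (3 : ℕ) / 6) :=
    mul_le_mul_of_nonneg_right hxk (by (clear * - hy; positivity))
  have h3 : k * 1 ≤ k * (1 + y + y ^ (2 : ℕ) / 2 + y ^ (3 : ℕ) / 6) := by
    apply mul_le_mul_of_nonneg_left _ hk.le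
    have : 0 ≤ y + y ^ (2 : ℕ) / 2 + y ^ (3 : ℕ) / 6 := by (clear * - hy; positivity)
    linarith only [this]
  refine ⟨hρ, hr, hδ, hxk, hk2, by linarith only [h1, h3], by linarith only [hπ1, hψ0, hη], by linarith only [hπ1, hψ0, hη, h1, h2], by linarith only [hπ0, hηζ], ?_, ?_⟩
  · have hc : 0 < cos ψ := by
      apply cos_pos_of_mem_Ioo
      constructor
      · linarith only [hπ0, hψ0]
      · linarith only [hπ0, h.sh.ψ1]
    have h5 : ψ * cos ψ ≤ sin ψ := by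
      have h6 := Real.le_tan hψ0 (by linarith only [hπ0, h.sh.ψ1])
      rw [Real.tan_eq_sin_div_cos, le_div_iff₀ hc] at h6
      exact h6
    rw [h.sh.hx, h.sh.hy]
    calc ψ * (k * cos ψ) = k * (ψ * cos ψ) := by ring
      _ ≤ k * sin ψ := mul_le_mul_of_nonneg_left h5 hk.le
  · rw [h.del]
    field_simp

/-- the clamp lies in the first zone -/
theorem flat_r {x y z τ k ψ ρ r δ : ℝ} (h : FL x y z τ k ψ ρ r δ) :
    ss x ≤ 2 * π - 3 / 2 - τ - ψ := by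
  obtain ⟨hρ, hr, hδ, hxk, hk2, hkρ, hρx, hxy, hT, hψx, hδr⟩ := fl_basic h
  have hπ0 := Real.pi_gt_d6
  have hx0 := h.sh.x0
  rcases le_total x 2 with h2 | h2
  · have := ss_le x
    linarith only [hπ0, h2, this, h.sh.τ1, h.sh.ψ1]
  · have h3 : ss x ≤ 4 := min_le_left _ _
    have h4 : ψ ≤ 7 / 25 := by
      have hy1 : y ≤ 14 / 25 := h.sh.y1
      have : ψ * 2 ≤ ψ * x := mul_le_mul_of_nonneg_left h2 h.sh.ψ0
      linarith only [hψx, hy1, this]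
    have h5 : τ ≤ 3 / 25 := by
      have hz := h.sh.zτ
      have hζ := h.sh.ζ
      have hτ := h.sh.τ0
      have h6 : 2 * (1 + 2) * τ ≤ x * (1 + x) * τ := by gcongr
      linarith only [hz, hζ, h6]
    linarith only [hπ0, h3, h4, h5]

/-- level, `9/10 ≤ x ≤ 3` -/
theorem lev_mid {x y z τ k ψ ρ r δ : ℝ} (h : FL x y z τ k ψ ρ r δ) (h1 : 9 / 10 ≤ x) (h3 : x ≤ 3) :
    1403 / 10000 * ρ ≤ Lv x y z τ k ψ ∧ 1704 / 1000 * (1 - y) ^ (2 : ℕ) ≤ Lv x y z τ k ψ := by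
  obtain ⟨hρ, hr, hδ, hxk, hk2, hkρ, hρx, hxy, hT, hψx, hδr⟩ := fl_basic h
  have hy0 := h.sh.y0
  have hy1 : y ≤ 14 / 25 := h.sh.y1
  have hx0 := h.sh.x0
  have hm : (1 - y) * (418878 / 100000 + (ρ - x)) ≤ (1 - y) * (2 * π - ψ - τ - z) :=
    mul_le_mul_of_nonneg_left hT (by linarith only [hy1])
  unfold Lv
  rw [a4_lo hx0 h3]
  constructor
  · have := lo_chain (t := 418878 / 100000) (l := 8597 / 10000) (E := 0) hx0 hy0 hy1 h.sh.k0 hk2
      h.rho (by linarith only [hy1]) (by norm_num) (by linarith only [poly1 h1 h3 hy0 hy1 hxy])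
    linarith only [hm, this]
  · have := lo_chain (t := 418878 / 100000) (l := 1) (E := 1704 / 1000 * (1 - y) ^ (2 : ℕ)) hx0 hy0 hy1
      h.sh.k0 hk2 h.rho (by linarith only [hy1]) le_rfl (by linarith only [poly2 h1 h3 hy0 hy1])
    linarith only [hm, this]

/-- level at the end of the first zone, `x ≤ 9/10` -/
theorem lev_small {x y z τ k ψ ρ r δ : ℝ} (h : FL x y z τ k ψ ρ r δ) (h1 : x ≤ 9 / 10) :
    1003 / 10000 * ρ ≤ (1 - y) * (2 * π - 3 / 2 - ψ - τ - z) + 2 * x - exp 1 * k := by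
  obtain ⟨hρ, hr, hδ, hxk, hk2, hkρ, hρx, hxy, hT, hψx, hδr⟩ := fl_basic h
  have hy0 := h.sh.y0
  have hy1 : y ≤ 14 / 25 := h.sh.y1
  have hx0 := h.sh.x0
  have hm : (1 - y) * (268878 / 100000 + (ρ - x)) ≤ (1 - y) * (2 * π - 3 / 2 - ψ - τ - z) :=
    mul_le_mul_of_nonneg_left (by linarith only [hT]) (by linarith only [hy1])
  have := lo_chain (t := 268878 / 100000) (l := 8997 / 10000) (E := 0) hx0 hy0 hy1 h.sh.k0 hk2
      h.rho (by linarith only [hy1]) (by norm_num) (by linarith only [poly3 (by linarith only [h.sh.T]) h1 hy0 hy1, hy1])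
  linarith only [hm, this]

/-- level, `x ≥ 3` -/
theorem lev_hi {x y z τ k ψ ρ r δ : ℝ} (h : FL x y z τ k ψ ρ r δ) (hx3 : 3 ≤ x) :
    ∃ c v : ℝ, a4 x = 4 * c ∧ 0 < c ∧ c ≤ 1 / 4 ∧ x * c = 1 - c ∧ 0 ≤ v ∧ y = v * c ∧
      v ≤ 15708 / 10000 + 65 / 100 * c ∧ c * Dp c v ≤ Lv x y z τ k ψ := by
  obtain ⟨hρ, hr, hδ, hxk, hk2, hkρ, hρx, hxy, hT, hψx, hδr⟩ := fl_basic h
  obtain ⟨c, v, ha, hc0, hc1, hxc, hv0, hyc, hvv, hw, hq, hkx, hk0, hrb, hρ0⟩ :=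
      hi_data h.sh h.rho h.r0 h.G h.η hx3
  refine ⟨c, v, ha, hc0, hc1, hxc, hv0, hyc, hvv, ?_⟩
  have hπ0 := Real.pi_gt_d6
  have hηζ := h.ηζ
  have hx0 := h.sh.x0
  have hang : 41887 / 10000 + (ρ - x) ≤ 2 * π - ψ - τ - z := by linarith only [hπ0, hηζ]
  unfold Lv
  rw [ha]
  have hcy : 0 ≤ 4 * c - y := by
    have := mul_nonneg (by linarith : 0 ≤ 4 - v) hc0.le
    rw [hyc]
    linarith only [this]
  have h1 : (4 * c - y) * (41887 / 10000 + (ρ - x)) ≤ (4 * c - y) * (2 * π - ψ - τ - z) := by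
    apply mul_le_mul_of_nonneg_left hang hcy
  have h2 : (4 * c - y) * ((1 - c) * (v + v ^ (2 : ℕ) * c / 2)) ≤ (4 * c - y) * (ρ - x) := by
    apply mul_le_mul_of_nonneg_left hw hcy
  have h3 : exp (4 * c) ≤ 1 + 4 * c + (4 * c) ^ (2 : ℕ) / 2 + (4 * c) ^ (3 : ℕ) / 6 + (4 * c) ^ (4 : ℕ) / 19 :=
    e_le3 (by linarith only [hc0]) (by linarith only [hc1])
  have h4 : exp (4 * c) ≤ 2719 / 1000 := by
    refine le_trans ?_ e1_hi
    exact exp_le_exp.2 (by linarith only [hc1])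
  have h5 : exp (4 * c) * x ≤
      (1 + 4 * c + (4 * c) ^ (2 : ℕ) / 2 + (4 * c) ^ (3 : ℕ) / 6 + (4 * c) ^ (4 : ℕ) / 19) * x :=
    mul_le_mul_of_nonneg_right h3 hx0.le
  have h6 : exp (4 * c) * (k - x) ≤ 2719 / 1000 * (2 / 3 * v ^ (2 : ℕ) * c ^ (3 : ℕ)) :=
    mul_le_mul h4 hkx hk0 (by norm_num)
  have e5 : (1 + 4 * c + (4 * c) ^ (2 : ℕ) / 2 + (4 * c) ^ (3 : ℕ) / 6 + (4 * c) ^ (4 : ℕ) / 19) * x =
      x * (1 + 4 * c) + (1 - c) * (8 * c + 32 / 3 * c ^ (2 : ℕ) + 256 / 19 * c ^ (3 : ℕ)) := by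
    rw [← hxc]
    ring
  have e7 : (4 * c - y) * (41887 / 10000) = c * (4 - v) * (41887 / 10000) := by
    rw [hyc]
    ring
  have e8 : (4 * c - y) * ((1 - c) * (v + v ^ (2 : ℕ) * c / 2)) =
      c * ((4 - v) * ((1 - c) * (v + v ^ (2 : ℕ) * c / 2))) := by
    rw [hyc]
    ring
  have h9 : c * Dp c v ≤ c * (4 - v) * (41887 / 10000) +
      c * ((4 - v) * ((1 - c) * (v + v ^ (2 : ℕ) * c / 2))) -
      (1 - c) * (8 * c + 32 / 3 * c ^ (2 : ℕ) + 256 / 19 * c ^ (3 : ℕ)) -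
      2719 / 1000 * (2 / 3 * v ^ (2 : ℕ) * c ^ (3 : ℕ)) := by
    have := poly_hi hc0.le hc1 v
    linarith only [this]
  linarith only [h1, h2, h5, h6, e5, e7, e8, h9]

theorem Dp_four {c v : ℝ} (c0 : 0 ≤ c) (c1 : c ≤ 1 / 4) (v0 : 0 ≤ v)
    (hv : v ≤ 15708 / 10000 + 65 / 100 * c) : 4 ≤ Dp c v := by
  refine le_trans ?_ (Dp_mono c0 c1 v0 hv)
  have hc2 : 0 ≤ c ^ (2 : ℕ) := sq_nonneg c
  have : 598 / 100 - 785 / 100 * c ≤ Dp c (15708 / 10000 + 65 / 100 * c) := by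
    unfold Dp
    nlinarith only [mul_nonneg c0 (sub_nonneg.2 c1), mul_nonneg hc2 (sub_nonneg.2 c1)]
  linarith only [c1, this]

theorem Dp_five {c v : ℝ} (c0 : 0 ≤ c) (c1 : c ≤ 1 / 5) (v0 : 0 ≤ v)
    (hv : v ≤ 15708 / 10000 + 65 / 100 * c) : 818 / 100 - 216 / 100 * v ≤ Dp c v := by
  have hv1 : v ≤ 1701 / 1000 := by linarith only [c1, hv]
  have hc2 : 0 ≤ c ^ (2 : ℕ) := sq_nonneg c
  have hv2 : 0 ≤ v ^ (2 : ℕ) := sq_nonneg v
  have hv3 : 0 ≤ v ^ (3 : ℕ) := pow_nonneg v0 3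
  have e : Dp c v - Dp (1 / 5) v = (1 / 5 - c) * (285 / 100 + 4 * v - 3 * v ^ (2 : ℕ) +
      3813 / 1000 * (1 / 5 + c) * v ^ (2 : ℕ) + (4 / 5 - c) / 2 * v ^ (3 : ℕ)) := by
    unfold Dp
    ring
  have h1 : 0 ≤ 285 / 100 + 4 * v - 3 * v ^ (2 : ℕ) +
      3813 / 1000 * (1 / 5 + c) * v ^ (2 : ℕ) + (4 / 5 - c) / 2 * v ^ (3 : ℕ) := by
    have a1 : 0 ≤ c * v ^ (2 : ℕ) := mul_nonneg c0 hv2
    have a2 : 0 ≤ (4 / 5 - c) * v ^ (3 : ℕ) := mul_nonneg (by linarith only [c1]) hv3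
    nlinarith only [a1, mul_nonneg v0 (sub_nonneg.2 hv1)]
  have h2 := mul_nonneg (sub_nonneg.2 c1) h1
  have h3 : 818 / 100 - 216 / 100 * v ≤ Dp (1 / 5) v := by
    unfold Dp
    nlinarith only [mul_nonneg v0 (sub_nonneg.2 hv1)]
  linarith only [e, h2, h3]

/-- everything at the lump, `9/10 ≤ x ≤ 4` -/
theorem lump_a {x y z τ k ψ ρ r δ : ℝ} (h : FL x y z τ k ψ ρ r δ) (h1 : 9 / 10 ≤ x) (h4 : x ≤ 4) :
    7 * δ ≤ Lv x y z τ k ψ ∧
      (a4 x - y) ^ (2 : ℕ) ≤ 24 / 100 * (exp (a4 x) * k * Lv x y z τ k ψ) := by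
  obtain ⟨hρ, hr, hδ, hxk, hk2, hkρ, hρx, hxy, hT, hψx, hδr⟩ := fl_basic h
  have hr0 := h.r0
  have hk := h.sh.k0
  have hy0 := h.sh.y0
  have hx0 := h.sh.x0
  have hδρ : 499 / 10 * δ ≤ ρ := by
    rw [← hδr]
    nlinarith only [hkρ, hδr, hr0, hk]
  rcases le_total x 3 with h3 | h3
  · obtain ⟨l1, l2⟩ := lev_mid h h1 h3
    refine ⟨by linarith only [hkρ, hk, hδρ, l1], ?_⟩
    rw [a4_lo hx0 h3]
    have he := Real.exp_one_gt_d9
    have a1 : 2446 / 1000 ≤ exp 1 * k := by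
      have : (27182 / 10000 : ℝ) * (9 / 10) ≤ exp 1 * k := by
        apply mul_le_mul (by linarith only [he]) (by linarith only [h1, hxk]) (by norm_num) (exp_pos 1).le
      linarith only [this]
    have a2 : 2446 / 1000 * (1704 / 1000 * (1 - y) ^ (2 : ℕ)) ≤ exp 1 * k * Lv x y z τ k ψ :=
      mul_le_mul a1 l2 (by (clear * -; positivity)) (by (clear * - hk; positivity))
    nlinarith only [a2]
  · obtain ⟨c, v, ha, hc0, hc1, hxc, hv0, hyc, hvv, hL⟩ := lev_hi h h3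
    have hD := Dp_four hc0.le hc1 hv0 hvv
    have hc5 : 1 / 5 ≤ c := by nlinarith only [h1, h4, hxc]
    have hL4 : c * 4 ≤ Lv x y z τ k ψ := (mul_le_mul_of_nonneg_left hD hc0.le).trans hL
    constructor
    · have hρ4 : ρ ≤ 558 / 100 := by linarith only [h4, hρx]
      linarith only [hδρ, hc5, hL4, hρ4]
    · rw [ha]
      have a1 : 1 + 4 * c ≤ exp (4 * c) := by
        have := add_one_le_exp (4 * c)
        linarith only [this]
      have a2 : (1 + 4 * c) * x ≤ exp (4 * c) * k := by gcongr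
      have a3 : (1 + 4 * c) * x * (c * 4) ≤ exp (4 * c) * k * Lv x y z τ k ψ :=
        mul_le_mul a2 hL4 (by (clear * - hc0; positivity)) (by (clear * - hk; positivity))
      have e3 : (1 + 4 * c) * x * (c * 4) = (1 + 4 * c) * 4 * (1 - c) := by
        rw [← hxc]
        ring
      have a5 : (4 * c - y) ^ (2 : ℕ) ≤ (4 * c) ^ (2 : ℕ) := by
        have : 0 ≤ 4 * c - y := by
          have := mul_nonneg (by linarith : 0 ≤ 4 - v) hc0.le
          rw [hyc]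
          linarith only [this]
        exact pow_le_pow_left₀ this (by linarith only [hy0]) 2
      nlinarith only [hc1, hc5, a3, e3, a5]

/-- everything at the lump, `x ≥ 4` -/
theorem lump_b {x y z τ k ψ ρ r δ : ℝ} (h : FL x y z τ k ψ ρ r δ) (h4 : 4 ≤ x) :
    5 * δ ≤ Lv x y z τ k ψ ∧
      (a4 x - y) ^ (2 : ℕ) ≤ 4 / 75 * (exp (a4 x) * k * Lv x y z τ k ψ) := by
  obtain ⟨hρ, hr, hδ, hxk, hk2, hkρ, hρx, hxy, hT, hψx, hδr⟩ := fl_basic h
  have hx0 := h.sh.x0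
  have hk := h.sh.k0
  constructor
  · obtain ⟨f1, f2⟩ := fLr h.sh h.rho h.r0 h.G h.η h.ηζ
    have : r * (5 * δ) ≤ r * Lv x y z τ k ψ := by
      unfold Lv
      calc r * (5 * δ) = 5 * (δ * r) := by ring
        _ = 5 * ρ := by rw [hδr]
        _ ≤ _ := f1
    exact le_of_mul_le_mul_left this hr
  · obtain ⟨c, v, ha, hc0, hc1, hxc, hv0, hyc, hvv, hL⟩ := lev_hi h (by linarith only [h4])
    have hc5 : c ≤ 1 / 5 := by nlinarith only [h4, hxc]
    have hD := Dp_five hc0.le hc5 hv0 hvv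
    have hv1 : v ≤ 1701 / 1000 := by linarith only [hvv, hc5]
    rw [ha]
    have a1 : 1 + 4 * c + 8 * c ^ (2 : ℕ) ≤ exp (4 * c) := by
      have := Real.quadratic_le_exp_of_nonneg (x := 4 * c) (by (clear * - hc0; positivity))
      linarith only [this]
    have a2 : (1 + 4 * c + 8 * c ^ (2 : ℕ)) * x ≤ exp (4 * c) * k := by gcongr
    have a0 : 0 ≤ c * (818 / 100 - 216 / 100 * v) := mul_nonneg hc0.le (by linarith only [hv1])
    have a3 : (1 + 4 * c + 8 * c ^ (2 : ℕ)) * x * (c * (818 / 100 - 216 / 100 * v)) ≤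
        exp (4 * c) * k * Lv x y z τ k ψ :=
      mul_le_mul a2 ((mul_le_mul_of_nonneg_left hD hc0.le).trans hL) a0 (by (clear * - hk; positivity))
    have e3 : (1 + 4 * c + 8 * c ^ (2 : ℕ)) * x * (c * (818 / 100 - 216 / 100 * v)) =
        (1 + 4 * c + 8 * c ^ (2 : ℕ)) * (1 - c) * (818 / 100 - 216 / 100 * v) := by
      rw [← hxc]
      ring
    have a4' : 1 + 3 * c ≤ (1 + 4 * c + 8 * c ^ (2 : ℕ)) * (1 - c) := by
      have : 0 ≤ c ^ (2 : ℕ) * (4 - 8 * c) := mul_nonneg (sq_nonneg c) (by linarith only [hc5])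
      linarith only [this]
    have a5 : (1 + 3 * c) * (818 / 100 - 216 / 100 * v) ≤
        (1 + 4 * c + 8 * c ^ (2 : ℕ)) * (1 - c) * (818 / 100 - 216 / 100 * v) :=
      mul_le_mul_of_nonneg_right a4' (by linarith only [hv1])
    have e6 : (4 * c - y) ^ (2 : ℕ) = c ^ (2 : ℕ) * (4 - v) ^ (2 : ℕ) := by
      rw [hyc]
      ring
    rw [e6]
    have a6 : (4 - v) ^ (2 : ℕ) ≤ 16 - 6299 / 1000 * v := by
      linarith only [mul_nonneg hv0 (sub_nonneg.2 hv1)]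
    have a7 : c ^ (2 : ℕ) ≤ c / 5 := by nlinarith only [hc5, hv1, a0]
    have a8 : c ^ (2 : ℕ) * (4 - v) ^ (2 : ℕ) ≤ c / 5 * (16 - 6299 / 1000 * v) :=
      mul_le_mul a7 a6 (sq_nonneg _) (by (clear * - hc0; positivity))
    have a9 : c / 5 * (16 - 6299 / 1000 * v) ≤
        4 / 75 * ((1 + 3 * c) * (818 / 100 - 216 / 100 * v)) := by
      have b1 := mul_nonneg (sub_nonneg.2 hc5) (sub_nonneg.2 hv1)
      have b2 := mul_nonneg hc0.le hv0
      linarith only [hc5, b1, b2]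
    linarith only [a3, e3, a5, a8, a9]

end SokamV3O

end

/-! ### Lib_MP_af4de1_v3o.OTL -/

section
namespace SokamF1
end SokamF1
namespace SokamF1M
end SokamF1M
namespace SokamF1S
end SokamF1S
namespace SokamPG
end SokamPG
namespace SokamU
end SokamU
/-!
# The tails beyond `3/2`, left side
-/

set_option autoImplicit false

open Complex MeasureTheory Set SokamU SokamPG SokamF1 SokamF1S SokamF1M

namespace SokamV3O

theorem fl_lt {x y z τ k ψ ρ r δ : ℝ} (h : FL x y z τ k ψ ρ r δ) : 0 < y ∧ y < a4 x := by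
  obtain ⟨hρ, hr, hδ, -⟩ := fl_basic h
  have hx := h.sh.x0
  have hw := h.w1
  have hy1 : y ≤ 14 / 25 := h.sh.y1
  refine ⟨by linarith only [hδ, hw], lt_min (by linarith only [hy1]) ?_⟩
  rw [lt_div_iff₀ (by linarith only [hx])]
  exact h.yx

theorem int_W {x y z τ k ψ ρ r δ : ℝ} (h : FL x y z τ k ψ ρ r δ) (j : ℕ) :
    Integrable (Wt x y z τ δ j) := by
  obtain ⟨hρ, hr, hδ, -⟩ := fl_basic h
  obtain ⟨h0, h1⟩ := fl_lt h
  exact integrable_Wt h.sh.x0.le hδ (by rwa [abs_of_pos h0]) h0.ne' z τ j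

theorem Hc_flat {x y z τ k ψ : ℝ} (hx : x = k * Real.cos ψ) (hy : y = k * Real.sin ψ) (a s : ℝ) :
    Hc x y z τ a s =
      (a - y) * (s - z) + x * (1 + a) - Real.exp a * (k * Real.cos (s + τ + ψ)) := by
  have e : x * Real.cos (s + τ) - y * Real.sin (s + τ) = k * Real.cos (s + τ + ψ) := by
    rw [Real.cos_add (s + τ) ψ, hx, hy]
    ring
  unfold Hc
  rw [e]

/-- the Gaussian against the amplitude -/
theorem amp {w κ δ D Q : ℝ} (hw : 0 ≤ w) (hκ : 0 < κ) (hδ : 0 < δ) (hD : 0 < D) (hQ : 0 ≤ Q)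
    (h : w ^ (2 : ℕ) * D ≤ Q ^ (2 : ℕ) * (2 * Real.pi) * (κ * δ)) :
    w / √κ ≤ Q * √(2 * Real.pi * δ / D) := by
  have hs : 0 < √κ := Real.sqrt_pos.2 hκ
  have hp := Real.pi_pos
  rw [div_le_iff₀ hs]
  have e : Q * √(2 * Real.pi * δ / D) * √κ = √(Q ^ (2 : ℕ) * (2 * Real.pi * δ / D * κ)) := by
    rw [Real.sqrt_mul (sq_nonneg Q), Real.sqrt_sq hQ, Real.sqrt_mul (by positivity)]
    ring
  rw [e]
  apply Real.le_sqrt_of_sq_le
  have e2 : Q ^ (2 : ℕ) * (2 * Real.pi * δ / D * κ) = Q ^ (2 : ℕ) * (2 * Real.pi) * (κ * δ) / D := by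
    field_simp
  rw [e2, le_div_iff₀ hD]
  exact h

/-- `δ` against the Gaussian -/
theorem del_Gn {x y δ Q : ℝ} (hδ : 0 < δ) (hQ : 0 ≤ Q) (hD : 0 < √((1 + y) ^ (2 : ℕ) + x ^ (2 : ℕ)))
    (h : δ * √((1 + y) ^ (2 : ℕ) + x ^ (2 : ℕ)) ≤ Q ^ (2 : ℕ) * (2 * Real.pi)) : δ ≤ Q * Gn x y δ := by
  unfold Gn
  have hp := Real.pi_pos
  have e : Q * √(2 * Real.pi * δ / √((1 + y) ^ (2 : ℕ) + x ^ (2 : ℕ))) =
      √(Q ^ (2 : ℕ) * (2 * Real.pi * δ / √((1 + y) ^ (2 : ℕ) + x ^ (2 : ℕ)))) := by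
    rw [Real.sqrt_mul (sq_nonneg Q), Real.sqrt_sq hQ]
  rw [e]
  apply Real.le_sqrt_of_sq_le
  rw [mul_div_assoc', le_div_iff₀ hD]
  have := mul_le_mul_of_nonneg_left h hδ.le
  linarith only [this]

theorem D_facts {x y z τ k ψ ρ r δ : ℝ} (h : FL x y z τ k ψ ρ r δ) :
    0 < √((1 + y) ^ (2 : ℕ) + x ^ (2 : ℕ)) ∧ √((1 + y) ^ (2 : ℕ) + x ^ (2 : ℕ)) ≤ 1 + ρ := by
  obtain ⟨hρ, hr, hδ, hxk, hk2, hkρ, -⟩ := fl_basic h
  have hx := h.sh.x0
  have hk := h.sh.k0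
  have hk1 : k ^ (2 : ℕ) = x ^ (2 : ℕ) + y ^ (2 : ℕ) := by
    rw [h.sh.hx, h.sh.hy]
    have := Real.sin_sq_add_cos_sq ψ
    nlinarith only [this]
  have hyk : y ≤ k := by nlinarith only [hk, hk1]
  refine ⟨Real.sqrt_pos.2 (by (clear * - hx; positivity)), ?_⟩
  rw [Real.sqrt_le_left (by linarith only [hkρ, hk])]
  nlinarith only [hkρ, hk, hk1, hyk]

/-- zone A, pointwise -/
theorem wA {x y z τ k ψ ρ r δ : ℝ} {j : ℕ} (h : FL x y z τ k ψ ρ r δ) (hj : j ≤ 1) {s : ℝ}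
    (h0 : 3 / 2 < s) (h1 : s ≤ 2 * Real.pi - 3 / 2 - τ - ψ) :
    Wt x y z τ δ j s ≤ √2 * (Real.exp 1 * Real.exp (-(1 / 4 * (1 + ρ) / (ρ / r)))) := by
  obtain ⟨hρ, hr, hδ, -⟩ := fl_basic h
  have hx := h.sh.x0
  have hc : ‖pv (1 + x)⁻¹ (ss x) s‖ ≤ √2 := by
    refine (pv_le hx.le s).trans (Real.sqrt_le_sqrt ?_)
    have h3 : (1 + x)⁻¹ ≤ 1 := inv_le_one_of_one_le₀ (by linarith only [hx])
    have h4 : 0 ≤ (1 + x)⁻¹ := by (clear * - hx; positivity)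
    nlinarith only [h3, h4]
  have hp : pr x s = pa x s := pr_pos hx.le (by linarith only [h0])
  have hpa := pa_nonneg (x := x) (s := s) hx.le (by linarith only [h0])
  have hpa1 : pa x s ≤ 1 := (pa_le x s).trans (a4_le x)
  have hj1 : (j : ℝ) ≤ 1 := by exact_mod_cast hj
  have he : Real.exp (j * pr x s) ≤ Real.exp 1 := by
    apply Real.exp_le_exp.2
    rw [hp]
    have := mul_le_mul hj1 hpa1 hpa (by norm_num)
    linarith only [this]
  have hH := cLr h.sh h0.le (by linarith only [h1])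
  rw [← h.rho] at hH
  unfold Wt
  rw [hp] at he ⊢
  apply mul_le_mul hc _ (by positivity) (by positivity)
  apply mul_le_mul he _ (by positivity) (by positivity)
  apply Real.exp_le_exp.2
  rw [h.del]
  have : 0 < ρ / r := div_pos hρ hr
  gcongr

theorem wAn {x y z τ k ψ ρ r δ : ℝ} {j : ℕ} (h : FL x y z τ k ψ ρ r δ) {v : ℝ}
    (h0 : 3 / 2 < v) (h1 : v ≤ 2 * Real.pi - 3 / 2 + τ + ψ) :
    Wt x y z τ δ j (-v) ≤ √2 * (1 * Real.exp (-(1 / 4 * (1 + ρ) / (ρ / r)))) := by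
  obtain ⟨hρ, hr, hδ, -⟩ := fl_basic h
  have hx := h.sh.x0
  have hc : ‖pv (1 + x)⁻¹ (ss x) (-v)‖ ≤ √2 := by
    refine (pv_le hx.le _).trans (Real.sqrt_le_sqrt ?_)
    have h3 : (1 + x)⁻¹ ≤ 1 := inv_le_one_of_one_le₀ (by linarith only [hx])
    have h4 : 0 ≤ (1 + x)⁻¹ := by (clear * - hx; positivity)
    nlinarith only [h3, h4]
  have hp : pr x (-v) = -(pa x v) := pr_neg hx.le (by linarith only [h0])
  have hpa := pa_nonneg (x := x) (s := v) hx.le (by linarith only [h0])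
  have he : Real.exp (j * pr x (-v)) ≤ 1 := by
    apply Real.exp_le_one_iff.2
    rw [hp]
    have : 0 ≤ (j : ℝ) * pa x v := by (clear * - hpa; positivity)
    linarith only [this]
  have hH := cLl h.sh h0.le (by linarith only [h1])
  rw [← h.rho] at hH
  unfold Wt
  rw [hp] at he ⊢
  apply mul_le_mul hc _ (by positivity) (by positivity)
  apply mul_le_mul he _ (by positivity) (by positivity)
  apply Real.exp_le_exp.2
  rw [h.del]
  have : 0 < ρ / r := div_pos hρ hr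
  gcongr

/-- zone A, integrated -/
theorem zA {x y z τ k ψ ρ r δ : ℝ} (h : FL x y z τ k ψ ρ r δ) :
    18 * Real.exp (-(1 / 4 * (1 + ρ) / (ρ / r))) ≤ 1 / 3000 * Gn x y δ := by
  obtain ⟨hρ, hr, hδ, -⟩ := fl_basic h
  obtain ⟨d0, d1⟩ := D_facts h
  have := zoneA h.r0 hρ d0 (by linarith)
  unfold Gn
  rwa [← h.del] at *

theorem sqrt2_le : √2 ≤ (1415 / 1000 : ℝ) := by
  rw [Real.sqrt_le_left (by norm_num)]
  norm_num

theorem Gn_nonneg (x y δ : ℝ) : 0 ≤ Gn x y δ := Real.sqrt_nonneg _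

/-- flat part, pointwise -/
theorem wB {x y z τ k ψ ρ r δ : ℝ} {j : ℕ} (h : FL x y z τ k ψ ρ r δ) (hj : j ≤ 1) {s : ℝ}
    (h0 : ss x ≤ s) :
    Wt x y z τ δ j s ≤ Real.exp (a4 x) * Real.exp (-(Hc x y z τ (a4 x) s / δ)) := by
  obtain ⟨hρ, hr, hδ, -⟩ := fl_basic h
  have hx := h.sh.x0
  have hs := ss_pos hx.le
  have hp : pr x s = a4 x := by rw [pr_pos hx.le (by linarith only [h0, hs]), pa_flat hx.le h0]
  have ha := a4_pos hx.le
  have hj1 : (j : ℝ) ≤ 1 := by exact_mod_cast hj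
  unfold Wt
  rw [pv_flat (by rwa [abs_of_pos (by linarith only [h0, hs])]), hp, one_mul]
  apply mul_le_mul_of_nonneg_right _ (by positivity)
  apply Real.exp_le_exp.2
  have := mul_le_mul_of_nonneg_right hj1 ha.le
  linarith only [this]

theorem wBn {x y z τ k ψ ρ r δ : ℝ} {j : ℕ} (h : FL x y z τ k ψ ρ r δ) {v : ℝ}
    (h0 : ss x ≤ v) :
    Wt x y z τ δ j (-v) ≤ Real.exp (-(Hc x y z τ (-(a4 x)) (-v) / δ)) := by
  obtain ⟨hρ, hr, hδ, -⟩ := fl_basic h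
  have hx := h.sh.x0
  have hs := ss_pos hx.le
  have hp : pr x (-v) = -(a4 x) := by rw [pr_neg hx.le (by linarith only [h0, hs]), pa_flat hx.le h0]
  have ha := a4_pos hx.le
  unfold Wt
  rw [pv_flat (by rwa [abs_neg, abs_of_pos (by linarith only [h0, hs])]), hp, one_mul]
  have : Real.exp (j * -(a4 x)) ≤ 1 := by
    apply Real.exp_le_one_iff.2
    have : 0 ≤ (j : ℝ) * a4 x := by (clear * - ha; positivity)
    linarith only [this]
  calc _ ≤ 1 * Real.exp (-(Hc x y z τ (-(a4 x)) (-v) / δ)) :=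
        mul_le_mul_of_nonneg_right this (by positivity)
    _ = _ := one_mul _

/-- the height around the lump -/
theorem Hc_lump {x y z τ k ψ : ℝ} (hx : x = k * Real.cos ψ) (hy : y = k * Real.sin ψ) (s : ℝ) :
    Hc x y z τ (a4 x) s = Lv x y z τ k ψ + (a4 x - y) * (s - (2 * Real.pi - τ - ψ)) +
      Real.exp (a4 x) * k * (1 - Real.cos (s - (2 * Real.pi - τ - ψ))) := by
  rw [Hc_flat hx hy]
  have e : s - (2 * Real.pi - τ - ψ) = s + τ + ψ - 2 * Real.pi := by ring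
  rw [e, Real.cos_sub_two_pi]
  unfold Lv
  ring

theorem Hc_lumpn {x y z τ k ψ : ℝ} (hx : x = k * Real.cos ψ) (hy : y = k * Real.sin ψ) (v : ℝ) :
    Hc x y z τ (-(a4 x)) (-v) = Ln x y z τ k ψ + (a4 x + y) * (v - (2 * Real.pi + τ + ψ)) +
      Real.exp (-(a4 x)) * k * (1 - Real.cos (v - (2 * Real.pi + τ + ψ))) := by
  rw [Hc_flat hx hy]
  have e : v - (2 * Real.pi + τ + ψ) = v - τ - ψ - 2 * Real.pi := by ring
  have e2 : -v + τ + ψ = -(v - τ - ψ) := by ring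
  rw [e, Real.cos_sub_two_pi, e2, Real.cos_neg]
  unfold Ln
  ring

/-- numbers -/
theorem num7 : Real.exp (-7) ≤ 1 / 1000 ∧ Real.exp (-(49 / 10)) ≤ 76 / 10000 := by
  have h1 := Real.exp_one_gt_d9
  have h4 : (2718 / 1000 : ℝ) ^ (5 : ℕ) ≤ Real.exp 1 ^ (5 : ℕ) := pow_le_pow_left₀ (by norm_num) (by linarith only [h1]) 5
  have h5 : (2718 / 1000 : ℝ) ^ (7 : ℕ) ≤ Real.exp 1 ^ (7 : ℕ) := pow_le_pow_left₀ (by norm_num) (by linarith only [h1]) 7
  constructor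
  · have e : Real.exp (-7) = (Real.exp 1 ^ (7 : ℕ))⁻¹ := by
      rw [← Real.exp_nat_mul, ← Real.exp_neg]
      norm_num
    rw [e, one_div]
    apply inv_anti₀ (by norm_num)
    refine le_trans (by norm_num) h5
  · have e : Real.exp (-(49 / 10)) = (Real.exp 1 ^ (5 : ℕ) * Real.exp (-(1 / 10)))⁻¹ := by
      rw [← Real.exp_nat_mul, ← Real.exp_add, ← Real.exp_neg]
      norm_num
    have h6 := Real.add_one_le_exp (-(1 / 10) : ℝ)
    rw [e, inv_le_comm₀ (by positivity) (by norm_num)]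
    calc (76 / 10000 : ℝ)⁻¹ ≤ (2718 / 1000) ^ (5 : ℕ) * (9 / 10) := by norm_num
      _ ≤ Real.exp 1 ^ (5 : ℕ) * Real.exp (-(1 / 10)) :=
        mul_le_mul h4 (by linarith only [h6]) (by norm_num) (by positivity)

theorem num5 : Real.exp (-5) ≤ 68 / 10000 ∧ Real.exp (-(14 / 3)) ≤ 95 / 10000 ∧
    Real.exp (-4) ≤ 19 / 1000 := by
  have h1 := Real.exp_one_gt_d9
  have h4 : (2718 / 1000 : ℝ) ^ (5 : ℕ) ≤ Real.exp 1 ^ (5 : ℕ) := pow_le_pow_left₀ (by norm_num) (by linarith only [h1]) 5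
  have h5 : (2718 / 1000 : ℝ) ^ (4 : ℕ) ≤ Real.exp 1 ^ (4 : ℕ) := pow_le_pow_left₀ (by norm_num) (by linarith only [h1]) 4
  refine ⟨?_, ?_, ?_⟩
  · have e : Real.exp (-5) = (Real.exp 1 ^ (5 : ℕ))⁻¹ := by
      rw [← Real.exp_nat_mul, ← Real.exp_neg]
      norm_num
    rw [e, inv_le_comm₀ (by positivity) (by norm_num)]
    refine le_trans (by norm_num) h4
  · have e : Real.exp (-(14 / 3)) = (Real.exp 1 ^ (4 : ℕ) * Real.exp (2 / 3))⁻¹ := by
      rw [← Real.exp_nat_mul, ← Real.exp_add, ← Real.exp_neg]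
      norm_num
    have h6 := Real.sum_le_exp_of_nonneg (x := 2 / 3) (by norm_num) 4
    norm_num [Finset.sum_range_succ, Nat.factorial] at h6
    rw [e, inv_le_comm₀ (by positivity) (by norm_num)]
    calc (95 / 10000 : ℝ)⁻¹ ≤ (2718 / 1000) ^ (4 : ℕ) * (193 / 100) := by norm_num
      _ ≤ Real.exp 1 ^ (4 : ℕ) * Real.exp (2 / 3) :=
        mul_le_mul h5 (by linarith only [h6]) (by norm_num) (by positivity)
  · have e : Real.exp (-4) = (Real.exp 1 ^ (4 : ℕ))⁻¹ := by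
      rw [← Real.exp_nat_mul, ← Real.exp_neg]
      norm_num
    rw [e, inv_le_comm₀ (by positivity) (by norm_num)]
    refine le_trans (by norm_num) h5

theorem num8 : Real.exp (-8) ≤ 34 / 100000 ∧ Real.exp (-10) ≤ 5 / 100000 := by
  have h1 := Real.exp_one_gt_d9
  have h4 : (2718 / 1000 : ℝ) ^ (8 : ℕ) ≤ Real.exp 1 ^ (8 : ℕ) := pow_le_pow_left₀ (by norm_num) (by linarith only [h1]) 8
  have h5 : (2718 / 1000 : ℝ) ^ (10 : ℕ) ≤ Real.exp 1 ^ (10 : ℕ) :=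
    pow_le_pow_left₀ (by norm_num) (by linarith only [h1]) 10
  constructor
  · have e : Real.exp (-8) = (Real.exp 1 ^ (8 : ℕ))⁻¹ := by
      rw [← Real.exp_nat_mul, ← Real.exp_neg]
      norm_num
    rw [e, inv_le_comm₀ (by positivity) (by norm_num)]
    refine le_trans (by norm_num) h4
  · have e : Real.exp (-10) = (Real.exp 1 ^ (10 : ℕ))⁻¹ := by
      rw [← Real.exp_nat_mul, ← Real.exp_neg]
      norm_num
    rw [e, inv_le_comm₀ (by positivity) (by norm_num)]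
    refine le_trans (by norm_num) h5

/-- the lumps against the Gaussian -/
theorem lumps {w F m κ c0 δ D Q L c : ℝ} (hw : 0 ≤ w) (hδ : 0 < δ) (hD : 0 < D) (hQ : 0 ≤ Q)
    (hL0 : 0 ≤ L) (hF : L ≤ F) (hc : c ≤ 1) (hm : 3 / 2 ≤ m) (hκ : 10 ≤ κ)
    (hb : m ^ (2 : ℕ) ≤ 4 / 5 * c * (κ * F)) (hA : w ^ (2 : ℕ) * D ≤ Q ^ (2 : ℕ) * (2 * Real.pi) * (κ * δ)) :
    w * ∫ s in Ioi (c0 - 3 / 2), zb F m κ c0 s ≤
      Q * (29 / 20 * Real.exp (-L) + 2 * Real.exp (-((1 - c) * L))) *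
        √(2 * Real.pi * δ / D) := by
  have hκ0 : 0 < κ := by linarith only [hκ]
  have hs : 0 < √κ := Real.sqrt_pos.2 hκ0
  have h1 := mul_le_mul_of_nonneg_left (zoneB' (F := F) (c0 := c0) hm hκ) hw
  have h2 := amp hw hκ0 hδ hD hQ hA
  have hb2 : m ^ (2 : ℕ) / (4 / 5 * κ) ≤ c * F := by
    rw [div_le_iff₀ (by positivity)]
    linarith only [hb]
  have e1 : Real.exp (-F) * Real.exp (m ^ (2 : ℕ) / (4 / 5 * κ)) ≤ Real.exp (-((1 - c) * L)) := by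
    rw [← Real.exp_add]
    apply Real.exp_le_exp.2
    have : (1 - c) * L ≤ (1 - c) * F := mul_le_mul_of_nonneg_left hF (by linarith only [hc])
    linarith only [hb2, this]
  have e2 : Real.exp (-F) ≤ Real.exp (-L) := Real.exp_le_exp.2 (by linarith only [hF])
  have e3 : Real.exp (-F) * (29 / 20 + 2 * Real.exp (m ^ (2 : ℕ) / (4 / 5 * κ))) ≤
      29 / 20 * Real.exp (-L) + 2 * Real.exp (-((1 - c) * L)) := by
    linarith only [e1, e2]
  have e4 : 0 ≤ Real.exp (-F) * (29 / 20 + 2 * Real.exp (m ^ (2 : ℕ) / (4 / 5 * κ))) := by (clear * -; positivity)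
  have e5 : 0 ≤ w / √κ := by (clear * - hw hκ; positivity)
  calc _ ≤ w * (Real.exp (-F) * (29 / 20 + 2 * Real.exp (m ^ (2 : ℕ) / (4 / 5 * κ))) / √κ) := h1
    _ = (Real.exp (-F) * (29 / 20 + 2 * Real.exp (m ^ (2 : ℕ) / (4 / 5 * κ)))) * (w / √κ) := by ring
    _ ≤ (29 / 20 * Real.exp (-L) + 2 * Real.exp (-((1 - c) * L))) *
        (Q * √(2 * Real.pi * δ / D)) := mul_le_mul e3 h2 e5 (e4.trans e3)
    _ = _ := by ring

/-- `s > 0`, with the lumps -/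
theorem tail_lump {x y z τ k ψ ρ r δ Q L c : ℝ} {j : ℕ} (h : FL x y z τ k ψ ρ r δ) (hj : j ≤ 1)
    (hQ : 0 ≤ Q) (hL0 : 0 ≤ L) (hc : c ≤ 1) (hL : L * δ ≤ Lv x y z τ k ψ)
    (hb : (a4 x - y) ^ (2 : ℕ) ≤ 4 / 5 * c * (Real.exp (a4 x) * k * Lv x y z τ k ψ))
    (hD : Real.exp (a4 x) * √((1 + y) ^ (2 : ℕ) + x ^ (2 : ℕ)) ≤ Q ^ (2 : ℕ) * (2 * Real.pi) * k) :
    ∫ s in Ioi (3 / 2 : ℝ), Wt x y z τ δ j s ≤
      (1 / 3000 + Q * (29 / 20 * Real.exp (-L) + 2 * Real.exp (-((1 - c) * L)))) * Gn x y δ := by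
  obtain ⟨hρ, hr, hδ, hxk, hk2, hkρ, hρx, hxy, hT, hψx, hδr⟩ := fl_basic h
  obtain ⟨d0, d1⟩ := D_facts h
  obtain ⟨y0, y1⟩ := fl_lt h
  have hx := h.sh.x0
  have hk := h.sh.k0
  have hr0 := h.r0
  have hp0 := Real.pi_gt_d6
  have hp1 := Real.pi_lt_d6
  have hτ := h.sh.τ0
  have hτ1 := h.sh.τ1
  have hψ := h.sh.ψ0
  have hψ1 := h.sh.ψ1
  have hfl := flat_r h
  have he := Real.exp_pos (a4 x)
  have hκ : 10 ≤ Real.exp (a4 x) * k / δ := by
    have e1 : Real.exp (a4 x) * k / δ = r * Real.exp (a4 x - y) := by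
      rw [h.del, h.rho, Real.exp_sub]
      have := Real.exp_pos y
      field_simp
    rw [e1]
    have e2 : 1 ≤ Real.exp (a4 x - y) := Real.one_le_exp (by linarith only [y1])
    nlinarith only [hr0, e2]
  have hm : 3 / 2 ≤ (a4 x - y) / δ := by
    have h2 := (fLr h.sh h.rho h.r0 h.G h.η h.ηζ).2
    rw [le_div_iff₀ hδ]
    rw [← hδr] at h2
    have h3 : r * (3 / 2 * δ) ≤ r * (a4 x - y) := by
      have : 0 < δ * r := by positivity
      linarith only [h2, this]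
    exact le_of_mul_le_mul_left h3 hr
  have hF : L ≤ Lv x y z τ k ψ / δ := by rwa [le_div_iff₀ hδ]
  have hb' : ((a4 x - y) / δ) ^ (2 : ℕ) ≤
      4 / 5 * c * (Real.exp (a4 x) * k / δ * (Lv x y z τ k ψ / δ)) := by
    have e1 : 4 / 5 * c * (Real.exp (a4 x) * k / δ * (Lv x y z τ k ψ / δ)) =
        4 / 5 * c * (Real.exp (a4 x) * k * Lv x y z τ k ψ) / δ ^ (2 : ℕ) := by
      field_simp
    rw [e1, div_pow]
    gcongr
  have hA : Real.exp (a4 x) ^ (2 : ℕ) * √((1 + y) ^ (2 : ℕ) + x ^ (2 : ℕ)) ≤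
      Q ^ (2 : ℕ) * (2 * Real.pi) * (Real.exp (a4 x) * k / δ * δ) := by
    have e1 : Real.exp (a4 x) * k / δ * δ = Real.exp (a4 x) * k := by field_simp
    rw [e1]
    have := mul_le_mul_of_nonneg_left hD he.le
    linarith only [this]
  have hlump := lumps (c0 := 2 * Real.pi - τ - ψ) he.le hδ d0 hQ hL0 hF hc hm hκ hb' hA
  have hz := zA h
  have hi := (int_W h j).integrableOn (s := Ioi (3 / 2 : ℝ))
  have hgi := (ii_zb (F := Lv x y z τ k ψ / δ) (m := (a4 x - y) / δ)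
    (κ := Real.exp (a4 x) * k / δ) (c0 := 2 * Real.pi - τ - ψ) (by linarith only [hm]) (by linarith only [hκ])
    (2 * Real.pi - τ - ψ - 3 / 2)).const_mul (Real.exp (a4 x))
  have hs := zone_split (c1 := 2 * Real.pi - τ - ψ - 3 / 2) hi (by linarith only [hp0, hτ1, hψ1])
    (fun s h0 h1 => wA h hj h0 (by linarith only [h1]))
    (fun s h0 => by
      show Wt x y z τ δ j s ≤ Real.exp (a4 x) * zb (Lv x y z τ k ψ / δ) ((a4 x - y) / δ)
        (Real.exp (a4 x) * k / δ) (2 * Real.pi - τ - ψ) s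
      refine (wB h hj (by linarith only [hfl, h0])).trans (le_of_eq ?_)
      unfold zb
      rw [Hc_lump h.sh.hx h.sh.hy]
      congr 3
      field_simp) hgi
  rw [integral_const_mul] at hs
  have hE : 0 ≤ Real.exp (-(1 / 4 * (1 + ρ) / (ρ / r))) := (Real.exp_pos _).le
  have hA2 : (2 * Real.pi - τ - ψ - 3 / 2 - 3 / 2) *
      (√2 * (Real.exp 1 * Real.exp (-(1 / 4 * (1 + ρ) / (ρ / r))))) ≤
      18 * Real.exp (-(1 / 4 * (1 + ρ) / (ρ / r))) := by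
    have q1 : √2 * Real.exp 1 ≤ 1415 / 1000 * (2719 / 1000) := by
      apply mul_le_mul sqrt2_le _ (Real.exp_pos 1).le (by norm_num)
      have := Real.exp_one_lt_d9
      linarith only [this]
    have q2 : (2 * Real.pi - τ - ψ - 3 / 2 - 3 / 2) * (√2 * Real.exp 1) ≤
        (33 / 10) * (1415 / 1000 * (2719 / 1000)) :=
      mul_le_mul (by linarith only [hp1, hτ, hψ]) q1 (by positivity) (by norm_num)
    have q3 : (2 * Real.pi - τ - ψ - 3 / 2 - 3 / 2) * (√2 * Real.exp 1) ≤ 18 :=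
      q2.trans (by norm_num)
    calc _ = ((2 * Real.pi - τ - ψ - 3 / 2 - 3 / 2) * (√2 * Real.exp 1)) *
        Real.exp (-(1 / 4 * (1 + ρ) / (ρ / r))) := by ring
      _ ≤ _ := mul_le_mul_of_nonneg_right q3 hE
  have hG : Gn x y δ = √(2 * Real.pi * δ / √((1 + y) ^ (2 : ℕ) + x ^ (2 : ℕ))) := rfl
  rw [← hG] at hlump
  linarith only [hlump, hz, hs, hA2]

theorem D_mid {x y : ℝ} (h1 : 9 / 10 ≤ x) (hy : 0 ≤ y) (hy1 : y ≤ 14 / 25) :
    √((1 + y) ^ (2 : ℕ) + x ^ (2 : ℕ)) ≤ 2003 / 1000 * x := by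
  rw [Real.sqrt_le_left (by positivity)]
  nlinarith

theorem D_big {x y : ℝ} (h1 : 4 ≤ x) (hy : 0 ≤ y) (hy1 : y ≤ 14 / 25) :
    √((1 + y) ^ (2 : ℕ) + x ^ (2 : ℕ)) ≤ 11 / 10 * x := by
  rw [Real.sqrt_le_left (by positivity)]
  nlinarith

/-- `s > 0`, `x ≤ 9/10` -/
theorem tail_lin {x y z τ k ψ ρ r δ : ℝ} {j : ℕ} (h : FL x y z τ k ψ ρ r δ) (hj : j ≤ 1)
    (hx9 : x ≤ 9 / 10) :
    ∫ s in Ioi (3 / 2 : ℝ), Wt x y z τ δ j s ≤ 1 / 50 * Gn x y δ := by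
  obtain ⟨hρ, hr, hδ, hxk, hk2, hkρ, hρx, hxy, hT, hψx, hδr⟩ := fl_basic h
  obtain ⟨d0, d1⟩ := D_facts h
  obtain ⟨y0, y1⟩ := fl_lt h
  have hx := h.sh.x0
  have hk := h.sh.k0
  have hy1 : y ≤ 14 / 25 := h.sh.y1
  have hr0 := h.r0
  have hp0 := Real.pi_gt_d6
  have hp1 := Real.pi_lt_d6
  have hτ := h.sh.τ0
  have hτ1 := h.sh.τ1
  have hψ := h.sh.ψ0
  have hψ1 := h.sh.ψ1
  have hfl := flat_r h
  have ha : a4 x = 1 := a4_lo hx (by linarith only [hx9])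
  have hδρ : 499 / 10 * δ ≤ ρ := by
    rw [← hδr]
    nlinarith only [hδ, hr0]
  have hlev := lev_small h hx9
  set M : ℝ := (1 - y) * (2 * Real.pi - 3 / 2 - ψ - τ - z) + 2 * x - Real.exp 1 * k with hM
  have hm : 0 < (1 - y) / δ := div_pos (by linarith only [hy1]) hδ
  have hz := zA h
  have hi := (int_W h j).integrableOn (s := Ioi (3 / 2 : ℝ))
  have hgi := (ii_lin (E := M / δ) (m := (1 - y) / δ) (c := 2 * Real.pi - τ - ψ - 3 / 2) hm).const_mul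
    (Real.exp 1)
  have hs := zone_split (c1 := 2 * Real.pi - τ - ψ - 3 / 2) hi (by linarith only [hp0, hτ1, hψ1])
    (fun s h0 h1 => wA h hj h0 (by linarith only [h1]))
    (fun s h0 => by
      show Wt x y z τ δ j s ≤ Real.exp 1 * Real.exp (-(M / δ + (1 - y) / δ *
        (s - (2 * Real.pi - τ - ψ - 3 / 2))))
      refine (wB h hj (by linarith only [hfl, h0])).trans ?_
      rw [ha]
      apply mul_le_mul_of_nonneg_left _ (Real.exp_pos 1).le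
      apply Real.exp_le_exp.2
      rw [Hc_flat h.sh.hx h.sh.hy, neg_le_neg_iff]
      have e1 : M / δ + (1 - y) / δ * (s - (2 * Real.pi - τ - ψ - 3 / 2)) =
          (M + (1 - y) * (s - (2 * Real.pi - τ - ψ - 3 / 2))) / δ := by field_simp
      rw [e1]
      apply div_le_div_of_nonneg_right _ hδ.le
      have e2 : Real.exp 1 * (k * Real.cos (s + τ + ψ)) ≤ Real.exp 1 * k := by
        apply mul_le_mul_of_nonneg_left _ (Real.exp_pos 1).le
        have := mul_le_mul_of_nonneg_left (Real.cos_le_one (s + τ + ψ)) hk.le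
        linarith only [this]
      rw [hM]
      linarith only [e2]) hgi
  rw [integral_const_mul, zoneL hm] at hs
  have hE : 0 ≤ Real.exp (-(1 / 4 * (1 + ρ) / (ρ / r))) := (Real.exp_pos _).le
  have hA2 : (2 * Real.pi - τ - ψ - 3 / 2 - 3 / 2) *
      (√2 * (Real.exp 1 * Real.exp (-(1 / 4 * (1 + ρ) / (ρ / r))))) ≤
      18 * Real.exp (-(1 / 4 * (1 + ρ) / (ρ / r))) := by
    have q1 : √2 * Real.exp 1 ≤ 1415 / 1000 * (2719 / 1000) := by
      apply mul_le_mul sqrt2_le _ (Real.exp_pos 1).le (by norm_num)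
      have := Real.exp_one_lt_d9
      linarith only [this]
    have q2 : (2 * Real.pi - τ - ψ - 3 / 2 - 3 / 2) * (√2 * Real.exp 1) ≤
        (33 / 10) * (1415 / 1000 * (2719 / 1000)) :=
      mul_le_mul (by linarith only [hp1, hτ, hψ]) q1 (by positivity) (by norm_num)
    have q3 : (2 * Real.pi - τ - ψ - 3 / 2 - 3 / 2) * (√2 * Real.exp 1) ≤ 18 :=
      q2.trans (by norm_num)
    calc _ = ((2 * Real.pi - τ - ψ - 3 / 2 - 3 / 2) * (√2 * Real.exp 1)) *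
        Real.exp (-(1 / 4 * (1 + ρ) / (ρ / r))) := by ring
      _ ≤ _ := mul_le_mul_of_nonneg_right q3 hE
  have hB : Real.exp 1 * (Real.exp (-(M / δ)) / ((1 - y) / δ)) ≤
      19 / 1000 * (25 / 11) * δ := by
    have f1 : 5 ≤ M / δ := by
      rw [le_div_iff₀ hδ]
      linarith only [hδ, hδρ, hlev]
    have f2 : Real.exp 1 * Real.exp (-(M / δ)) ≤ 19 / 1000 := by
      rw [← Real.exp_add]
      refine le_trans (Real.exp_le_exp.2 ?_) num5.2.2
      linarith only [f1]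
    have f3 : δ / (1 - y) ≤ 25 / 11 * δ := by
      rw [div_le_iff₀ (by linarith only [hy1])]
      nlinarith only [hδ, hy1]
    have f4 : Real.exp 1 * (Real.exp (-(M / δ)) / ((1 - y) / δ)) =
        (Real.exp 1 * Real.exp (-(M / δ))) * (δ / (1 - y)) := by
      have : 1 - y ≠ 0 := by
        have : 0 < 1 - y := by linarith only [hy1]
        exact this.ne'
      field_simp
    rw [f4]
    calc _ ≤ 19 / 1000 * (25 / 11 * δ) :=
          mul_le_mul f2 f3 (div_nonneg hδ.le (by linarith only [hy1])) (by norm_num)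
      _ = _ := by ring
  have hd : δ ≤ 1 / 5 * Gn x y δ := by
    apply del_Gn hδ (by norm_num) d0
    have g1 : δ * √((1 + y) ^ (2 : ℕ) + x ^ (2 : ℕ)) ≤ δ * (1 + ρ) := mul_le_mul_of_nonneg_left d1 hδ.le
    have g2 : ρ ≤ 25 / 10 := by linarith only [hx9, hρx]
    have g3 : δ * (1 + ρ) ≤ (25 / 499) * (35 / 10) := by
      apply mul_le_mul (by linarith only [hδρ, g2]) (by linarith only [g2]) (by linarith only [d0, d1]) (by norm_num)
    linarith only [hp0, g1, g3]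
  have hG := Gn_nonneg x y δ
  linarith only [hz, hs, hE, hA2, hB, hd]

/-- tail, left side, `s > 0` (true `.0016`).  `s ≤ 2π - 3/2 - τ - ψ`: `cLr`; then `k ≥ 1/2`: `fLr`, `lump_right`,
`lump_left`; `k ≤ 1/2`: linear lower bound of `Hc`. -/
theorem tailLr {x y z τ k ψ ρ r δ : ℝ} {j : ℕ} (h : FL x y z τ k ψ ρ r δ) (hj : j ≤ 1) :
    IntegrableOn (Wt x y z τ δ j) (Ioi (3 / 2)) ∧
      ∫ s in Ioi (3 / 2 : ℝ), Wt x y z τ δ j s ≤ 1 / 50 * Gn x y δ := by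
  refine ⟨(int_W h j).integrableOn, ?_⟩
  obtain ⟨hρ, hr, hδ, hxk, -⟩ := fl_basic h
  have hx := h.sh.x0
  have hk := h.sh.k0
  have hy0 := h.sh.y0
  have hy1 : y ≤ 14 / 25 := h.sh.y1
  have hp0 := Real.pi_gt_d6
  have hG := Gn_nonneg x y δ
  rcases le_total x (9 / 10) with h9 | h9
  · exact tail_lin h hj h9
  rcases le_total x 4 with h4 | h4
  · obtain ⟨l1, l2⟩ := lump_a h h9 h4
    have hD := D_mid h9 hy0 hy1
    have he : Real.exp (a4 x) ≤ 27183 / 10000 := by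
      refine le_trans (Real.exp_le_exp.2 (a4_le x)) ?_
      have := Real.exp_one_lt_d9
      linarith only [this]
    have hDD : Real.exp (a4 x) * √((1 + y) ^ (2 : ℕ) + x ^ (2 : ℕ)) ≤ (94 / 100) ^ (2 : ℕ) * (2 * Real.pi) * k := by
      have e1 : Real.exp (a4 x) * √((1 + y) ^ (2 : ℕ) + x ^ (2 : ℕ)) ≤
          27183 / 10000 * (2003 / 1000 * x) :=
        mul_le_mul he hD (Real.sqrt_nonneg _) (by norm_num)
      have e2 : 2 * (3141592 / 1000000) * x ≤ 2 * Real.pi * k := by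
        apply mul_le_mul (by linarith only [hp0]) hxk hx.le (by positivity)
      linarith only [h9, e1, e2]
    have := tail_lump (Q := 94 / 100) (L := 7) (c := 3 / 10) h hj (by norm_num) (by norm_num)
      (by norm_num) l1 (by linarith only [l2]) hDD
    refine this.trans (mul_le_mul_of_nonneg_right ?_ hG)
    have n1 := num7.1
    have n2 := num7.2
    have e : (-((1 - 3 / 10) * 7) : ℝ) = -(49 / 10) := by norm_num
    rw [e]
    linarith only [n1, n2]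
  · obtain ⟨l1, l2⟩ := lump_b h h4
    have hD := D_big h4 hy0 hy1
    have ha : a4 x ≤ 4 / 5 := by
      refine (min_le_right _ _).trans ?_
      rw [div_le_iff₀ (by linarith only [h4])]
      linarith only [h4]
    have he : Real.exp (a4 x) ≤ 2227 / 1000 := by
      refine le_trans (Real.exp_le_exp.2 ha) ?_
      have := SokamF1G.e_le3 (x := 4 / 5) (by norm_num) (by norm_num)
      refine this.trans (by norm_num)
    have hDD : Real.exp (a4 x) * √((1 + y) ^ (2 : ℕ) + x ^ (2 : ℕ)) ≤ (63 / 100) ^ (2 : ℕ) * (2 * Real.pi) * k := by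
      have e1 : Real.exp (a4 x) * √((1 + y) ^ (2 : ℕ) + x ^ (2 : ℕ)) ≤
          2227 / 1000 * (11 / 10 * x) :=
        mul_le_mul he hD (Real.sqrt_nonneg _) (by norm_num)
      have e2 : 2 * (3141592 / 1000000) * x ≤ 2 * Real.pi * k := by
        apply mul_le_mul (by linarith only [hp0]) hxk hx.le (by positivity)
      linarith only [h4, e1, e2]
    have := tail_lump (Q := 63 / 100) (L := 5) (c := 1 / 15) h hj (by norm_num) (by norm_num)
      (by norm_num) l1 (by linarith only [l2]) hDD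
    refine this.trans (mul_le_mul_of_nonneg_right ?_ hG)
    have n1 := num5.1
    have n2 := num5.2.1
    have e : (-((1 - 1 / 15) * 5) : ℝ) = -(14 / 3) := by norm_num
    rw [e]
    linarith only [n1, n2]

/-- facts at the lump, `s < 0` -/
theorem neg_facts {x y z τ k ψ ρ r δ : ℝ} (h : FL x y z τ k ψ ρ r δ) :
    a4 x * x ≤ 4 ∧ (x ≤ 5 → a4 x * x ≤ 10 / 3 ∧ 2 / 3 ≤ a4 x) ∧
      (5 ≤ x → a4 x ≤ 2 / 3) ∧
      Real.exp (-(a4 x)) * k ≤ x * (1 - a4 x) + a4 x * (a4 x * x) / 2 + 2 / 5 * y := by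
  obtain ⟨hρ, hr, hδ, hxk, hk2, hkρ, hρx, hxy, hT, hψx, hδr⟩ := fl_basic h
  have hx := h.sh.x0
  have hk := h.sh.k0
  have hy0 := h.sh.y0
  have ha0 := a4_pos hx.le
  have ha1 := a4_le x
  have h1 : 0 < 1 + x := by linarith only [hx]
  have ha : a4 x * (1 + x) ≤ 4 := by
    have := min_le_right 1 (4 / (1 + x))
    have h2 : a4 x ≤ 4 / (1 + x) := this
    rwa [le_div_iff₀ h1] at h2
  refine ⟨by linarith only [ha0, ha], ?_, ?_, ?_⟩
  · intro h5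
    have h6 : 2 / 3 ≤ a4 x := by
      refine le_min (by norm_num) ?_
      rw [le_div_iff₀ h1]
      linarith only [h5]
    refine ⟨by linarith only [ha, h6], h6⟩
  · intro h5
    refine (min_le_right _ _).trans ?_
    rw [div_le_iff₀ h1]
    linarith only [h5]
  · have hk3 : k ≤ x + 2 / 5 * y := by
      have e1 : 2 * x * k ≤ 2 * x * (x + 2 / 5 * y) := by
        have := h.sh.T
        nlinarith only [hk2, hy0, this]
      exact le_of_mul_le_mul_left e1 (by linarith only [hx])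
    have e2 := SokamF1G.en_le2 ha0.le
    have e3 : 1 - a4 x + a4 x ^ (2 : ℕ) / 2 ≤ 1 := by nlinarith only [ha0, ha1]
    have e4 : 0 ≤ Real.exp (-(a4 x)) := (Real.exp_pos _).le
    have e5 : Real.exp (-(a4 x)) * k ≤ Real.exp (-(a4 x)) * (x + 2 / 5 * y) :=
      mul_le_mul_of_nonneg_left hk3 e4
    have e6 : Real.exp (-(a4 x)) * x ≤ (1 - a4 x + a4 x ^ (2 : ℕ) / 2) * x :=
      mul_le_mul_of_nonneg_right e2 hx.le
    have e7 : Real.exp (-(a4 x)) * (2 / 5 * y) ≤ 1 * (2 / 5 * y) :=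
      mul_le_mul_of_nonneg_right (e2.trans e3) (by (clear * - hy0; positivity))
    linarith only [e5, e6, e7]

/-- `s < 0`, `x ≤ 5` -/
theorem tail_linn {x y z τ k ψ ρ r δ : ℝ} {j : ℕ} (h : FL x y z τ k ψ ρ r δ) (hx5 : x ≤ 5)
    (hi : IntegrableOn (fun v => Wt x y z τ δ j (-v)) (Ioi (3 / 2))) :
    ∫ v in Ioi (3 / 2 : ℝ), Wt x y z τ δ j (-v) ≤ 1 / 1000 * Gn x y δ := by
  obtain ⟨hρ, hr, hδ, hxk, hk2, hkρ, hρx, hxy, hT, hψx, hδr⟩ := fl_basic h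
  obtain ⟨d0, d1⟩ := D_facts h
  obtain ⟨y0, y1⟩ := fl_lt h
  obtain ⟨n1, n2, n3, n4⟩ := neg_facts h
  obtain ⟨n5, n6⟩ := n2 hx5
  have hx := h.sh.x0
  have hk := h.sh.k0
  have hy1 : y ≤ 14 / 25 := h.sh.y1
  have hr0 := h.r0
  have hp0 := Real.pi_gt_d6
  have hp1 := Real.pi_lt_d6
  have hτ := h.sh.τ0
  have hτ1 := h.sh.τ1
  have hψ := h.sh.ψ0
  have hψ1 := h.sh.ψ1
  have hz0 := h.sh.z0
  have ha1 := a4_le x
  have hfl : ss x ≤ 2 * Real.pi + τ + ψ - 3 / 2 := by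
    have : ss x ≤ 4 := min_le_left _ _
    linarith only [hp0, hτ, hψ, this]
  have hδρ : 499 / 10 * δ ≤ ρ := by
    rw [← hδr]
    nlinarith only [hδ, hr0]
  set M : ℝ := (a4 x + y) * (2 * Real.pi - 3 / 2 + ψ + τ + z) + x * (1 - a4 x) -
    Real.exp (-(a4 x)) * k with hM
  have hM8 : 8 * δ ≤ M := by
    have e1 : (a4 x + y) * (478 / 100) ≤ (a4 x + y) * (2 * Real.pi - 3 / 2 + ψ + τ + z) :=
      mul_le_mul_of_nonneg_left (by linarith only [hp0, hτ, hψ, hz0]) (by linarith only [y0, y1])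
    have e2 : a4 x * (a4 x * x) ≤ a4 x * (10 / 3) := mul_le_mul_of_nonneg_left n5 (by linarith only [n6])
    linarith only [hx5, hρx, y0, n4, n6, hδρ, hM, e1, e2]
  have hm : 0 < (a4 x + y) / δ := div_pos (by linarith only [y0, y1]) hδ
  have hz := zA h
  have hgi := ii_lin (E := M / δ) (m := (a4 x + y) / δ) (c := 2 * Real.pi + τ + ψ - 3 / 2) hm
  have hs := zone_split (c1 := 2 * Real.pi + τ + ψ - 3 / 2) hi (by linarith only [hp0, hτ, hψ])
    (fun s h0 h1 => wAn (j := j) h h0 (by linarith only [h1]))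
    (fun v h0 => by
      show Wt x y z τ δ j (-v) ≤ Real.exp (-(M / δ + (a4 x + y) / δ *
        (v - (2 * Real.pi + τ + ψ - 3 / 2))))
      refine (wBn h (by linarith only [hfl, h0])).trans ?_
      apply Real.exp_le_exp.2
      rw [Hc_flat h.sh.hx h.sh.hy, neg_le_neg_iff]
      have e1 : M / δ + (a4 x + y) / δ * (v - (2 * Real.pi + τ + ψ - 3 / 2)) =
          (M + (a4 x + y) * (v - (2 * Real.pi + τ + ψ - 3 / 2))) / δ := by field_simp
      rw [e1]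
      apply div_le_div_of_nonneg_right _ hδ.le
      have e2 : Real.exp (-(a4 x)) * (k * Real.cos (-v + τ + ψ)) ≤ Real.exp (-(a4 x)) * k := by
        apply mul_le_mul_of_nonneg_left _ (Real.exp_pos _).le
        have := mul_le_mul_of_nonneg_left (Real.cos_le_one (-v + τ + ψ)) hk.le
        linarith only [this]
      rw [hM]
      linarith only [e2]) hgi
  rw [zoneL hm] at hs
  have hE : 0 ≤ Real.exp (-(1 / 4 * (1 + ρ) / (ρ / r))) := (Real.exp_pos _).le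
  have hA2 : (2 * Real.pi + τ + ψ - 3 / 2 - 3 / 2) *
      (√2 * (1 * Real.exp (-(1 / 4 * (1 + ρ) / (ρ / r))))) ≤
      9 * Real.exp (-(1 / 4 * (1 + ρ) / (ρ / r))) := by
    have q2 : (2 * Real.pi + τ + ψ - 3 / 2 - 3 / 2) * √2 ≤ (446 / 100) * (1415 / 1000) :=
      mul_le_mul (by linarith only [hp1, hτ1, hψ1]) sqrt2_le (Real.sqrt_nonneg _) (by norm_num)
    have q3 : (2 * Real.pi + τ + ψ - 3 / 2 - 3 / 2) * √2 ≤ 9 := q2.trans (by norm_num)
    calc _ = ((2 * Real.pi + τ + ψ - 3 / 2 - 3 / 2) * √2) *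
        Real.exp (-(1 / 4 * (1 + ρ) / (ρ / r))) := by ring
      _ ≤ _ := mul_le_mul_of_nonneg_right q3 hE
  have hB : Real.exp (-(M / δ)) / ((a4 x + y) / δ) ≤ 34 / 100000 * (3 / 2) * δ := by
    have f1 : 8 ≤ M / δ := by rwa [le_div_iff₀ hδ]
    have f2 : Real.exp (-(M / δ)) ≤ 34 / 100000 :=
      le_trans (Real.exp_le_exp.2 (by linarith only [f1])) num8.1
    have hay : 0 < a4 x + y := by linarith only [y0, y1]
    have f3 : δ / (a4 x + y) ≤ 3 / 2 * δ := by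
      rw [div_le_iff₀ hay]
      nlinarith only [hδ, y0, n6]
    have f4 : Real.exp (-(M / δ)) / ((a4 x + y) / δ) =
        (Real.exp (-(M / δ))) * (δ / (a4 x + y)) := by
      field_simp
    rw [f4]
    calc _ ≤ 34 / 100000 * (3 / 2 * δ) :=
          mul_le_mul f2 f3 (div_nonneg hδ.le hay.le) (by norm_num)
      _ = _ := by ring
  have hd : δ ≤ 1 / 2 * Gn x y δ := by
    apply del_Gn hδ (by norm_num) d0
    have g1 : δ * √((1 + y) ^ (2 : ℕ) + x ^ (2 : ℕ)) ≤ δ * (1 + ρ) := mul_le_mul_of_nonneg_left d1 hδ.le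
    have g2 : ρ ≤ 66 / 10 := by linarith only [hx5, hρx]
    have g3 : δ * (1 + ρ) ≤ (66 / 499) * (76 / 10) := by
      apply mul_le_mul (by linarith only [hδρ, g2]) (by linarith only [g2]) (by linarith only [d0, d1]) (by norm_num)
    linarith only [hp0, g1, g3]
  have hG := Gn_nonneg x y δ
  linarith only [hz, hs, hA2, hB, hd, hG]

/-- `s < 0`, `x ≥ 5` -/
theorem tail_lumpn {x y z τ k ψ ρ r δ : ℝ} {j : ℕ} (h : FL x y z τ k ψ ρ r δ) (hx5 : 5 ≤ x)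
    (hi : IntegrableOn (fun v => Wt x y z τ δ j (-v)) (Ioi (3 / 2))) :
    ∫ v in Ioi (3 / 2 : ℝ), Wt x y z τ δ j (-v) ≤ 1 / 1000 * Gn x y δ := by
  obtain ⟨hρ, hr, hδ, hxk, hk2, hkρ, hρx, hxy, hT, hψx, hδr⟩ := fl_basic h
  obtain ⟨d0, d1⟩ := D_facts h
  obtain ⟨y0, y1⟩ := fl_lt h
  obtain ⟨n1, n2, n3, n4⟩ := neg_facts h
  have n5 := n3 hx5
  have hx := h.sh.x0
  have hk := h.sh.k0
  have hy1 : y ≤ 14 / 25 := h.sh.y1
  have hr0 := h.r0
  have hp0 := Real.pi_gt_d6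
  have hp1 := Real.pi_lt_d6
  have hτ := h.sh.τ0
  have hτ1 := h.sh.τ1
  have hψ := h.sh.ψ0
  have hψ1 := h.sh.ψ1
  have hz0 := h.sh.z0
  have ha1 := a4_le x
  have ha0 := a4_pos hx.le
  have hfl : ss x ≤ 2 * Real.pi + τ + ψ - 3 / 2 := by
    have : ss x ≤ 4 := min_le_left _ _
    linarith only [hp0, hτ, hψ, this]
  have he : 1 / 2 ≤ Real.exp (-(a4 x)) := by
    have h1 := SokamF1G.en_ge3 (x := 2 / 3) (by norm_num)
    have h2 : Real.exp (-(2 / 3)) ≤ Real.exp (-(a4 x)) := Real.exp_le_exp.2 (by linarith only [n5])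
    refine le_trans ?_ h2
    refine le_trans (by norm_num) h1
  obtain ⟨f1, f2⟩ := fLl h.sh h.rho h.r0 h.G h.η
  have hL : 10 * δ ≤ Ln x y z τ k ψ := by
    have : r * (10 * δ) ≤ r * Ln x y z τ k ψ := by
      unfold Ln
      calc r * (10 * δ) = 10 * (δ * r) := by ring
        _ = 10 * ρ := by rw [hδr]
        _ ≤ _ := f1
    exact le_of_mul_le_mul_left this hr
  have hL2 : 428 / 100 * (a4 x + y) ≤ Ln x y z τ k ψ := by
    have e1 : (a4 x + y) * (628 / 100) ≤ (a4 x + y) * (2 * Real.pi + ψ + τ + z) :=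
      mul_le_mul_of_nonneg_left (by linarith only [hp0, hτ, hψ, hz0]) (by linarith only [y0, y1])
    have e2 : a4 x * (a4 x * x) ≤ a4 x * 4 := mul_le_mul_of_nonneg_left n1 (by linarith only [ha0])
    unfold Ln
    linarith only [y0, n4, e1, e2]
  have hκ : 10 ≤ Real.exp (-(a4 x)) * k / δ := by
    have e1 : Real.exp (-(a4 x)) * k / δ = r * (Real.exp (-(a4 x)) * Real.exp (-y)) := by
      rw [h.del, h.rho, Real.exp_neg y]
      have := Real.exp_pos y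
      field_simp
    rw [e1]
    have e2 := SokamF1G.en_ge1 (x := y)
    have e3 : (1 / 2 : ℝ) * (44 / 100) ≤ Real.exp (-(a4 x)) * Real.exp (-y) :=
      mul_le_mul he (by linarith only [hy1, e2]) (by norm_num) (by positivity)
    calc (10 : ℝ) ≤ 499 / 10 * (1 / 2 * (44 / 100)) := by norm_num
      _ ≤ _ := mul_le_mul hr0 e3 (by norm_num) hr.le
  have hm : 3 / 2 ≤ (a4 x + y) / δ := by
    rw [le_div_iff₀ hδ]
    rw [← hδr] at f2
    have h3 : r * (3 / 2 * δ) ≤ r * (a4 x + y) := by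
      have : 0 < δ * r := by (clear * - hδ hr; positivity)
      linarith only [f2, this]
    exact le_of_mul_le_mul_left h3 hr
  have hF : 10 ≤ Ln x y z τ k ψ / δ := by rwa [le_div_iff₀ hδ]
  have hb : (a4 x + y) ^ (2 : ℕ) ≤ 4 / 5 * (1 / 5) * (Real.exp (-(a4 x)) * k * Ln x y z τ k ψ) := by
    have e1 : (1 / 2 : ℝ) * 5 ≤ Real.exp (-(a4 x)) * k :=
      mul_le_mul he (by linarith only [hx5, hxk]) (by norm_num) (by positivity)
    have e2 : 1 / 2 * 5 * (428 / 100 * (a4 x + y)) ≤ Real.exp (-(a4 x)) * k * Ln x y z τ k ψ :=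
      mul_le_mul e1 hL2 (by (clear * - ha0 y0; positivity)) (by (clear * - hk; positivity))
    have e3 : (a4 x + y) ^ (2 : ℕ) ≤ 13 / 10 * (a4 x + y) := by
      have : a4 x + y ≤ 13 / 10 := by linarith only [n5, hy1]
      rw [sq]
      exact mul_le_mul_of_nonneg_right this (by linarith only [y0, y1])
    linarith only [y0, y1, e2, e3]
  have hb' : ((a4 x + y) / δ) ^ (2 : ℕ) ≤
      4 / 5 * (1 / 5) * (Real.exp (-(a4 x)) * k / δ * (Ln x y z τ k ψ / δ)) := by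
    have e1 : 4 / 5 * (1 / 5) * (Real.exp (-(a4 x)) * k / δ * (Ln x y z τ k ψ / δ)) =
        4 / 5 * (1 / 5) * (Real.exp (-(a4 x)) * k * Ln x y z τ k ψ) / δ ^ (2 : ℕ) := by
      field_simp
    rw [e1, div_pow]
    gcongr
  have hA : (1 : ℝ) ^ (2 : ℕ) * √((1 + y) ^ (2 : ℕ) + x ^ (2 : ℕ)) ≤
      (60 / 100) ^ (2 : ℕ) * (2 * Real.pi) * (Real.exp (-(a4 x)) * k / δ * δ) := by
    have e1 : Real.exp (-(a4 x)) * k / δ * δ = Real.exp (-(a4 x)) * k := by field_simp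
    rw [e1]
    have hD := D_big (by linarith : 4 ≤ x) y0.le hy1
    have e3 : 1 / 2 * x ≤ Real.exp (-(a4 x)) * k := mul_le_mul he hxk hx.le (by positivity)
    have e4 : 2 * (3141592 / 1000000) * (1 / 2 * x) ≤ 2 * Real.pi * (Real.exp (-(a4 x)) * k) :=
      mul_le_mul (by linarith only [hp0]) e3 (by positivity) (by positivity)
    linarith only [hx, hD, e4]
  have hlump := lumps (c0 := 2 * Real.pi + τ + ψ) (L := 10) zero_le_one hδ d0 (by norm_num)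
    (by norm_num) hF (by norm_num) hm hκ hb' hA
  have hz := zA h
  have hgi := (ii_zb (F := Ln x y z τ k ψ / δ) (m := (a4 x + y) / δ)
    (κ := Real.exp (-(a4 x)) * k / δ) (c0 := 2 * Real.pi + τ + ψ) (by linarith only [hm]) (by linarith only [hκ])
    (2 * Real.pi + τ + ψ - 3 / 2))
  have hs := zone_split (c1 := 2 * Real.pi + τ + ψ - 3 / 2) hi (by linarith only [hp0, hτ, hψ])
    (fun s h0 h1 => wAn (j := j) h h0 (by linarith only [h1]))
    (fun v h0 => by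
      show Wt x y z τ δ j (-v) ≤ zb (Ln x y z τ k ψ / δ) ((a4 x + y) / δ)
        (Real.exp (-(a4 x)) * k / δ) (2 * Real.pi + τ + ψ) v
      refine (wBn h (by linarith only [hfl, h0])).trans (le_of_eq ?_)
      unfold zb
      rw [Hc_lumpn h.sh.hx h.sh.hy]
      congr 2
      field_simp) hgi
  have hE : 0 ≤ Real.exp (-(1 / 4 * (1 + ρ) / (ρ / r))) := (Real.exp_pos _).le
  have hA2 : (2 * Real.pi + τ + ψ - 3 / 2 - 3 / 2) *
      (√2 * (1 * Real.exp (-(1 / 4 * (1 + ρ) / (ρ / r))))) ≤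
      9 * Real.exp (-(1 / 4 * (1 + ρ) / (ρ / r))) := by
    have q2 : (2 * Real.pi + τ + ψ - 3 / 2 - 3 / 2) * √2 ≤ (446 / 100) * (1415 / 1000) :=
      mul_le_mul (by linarith only [hp1, hτ1, hψ1]) sqrt2_le (Real.sqrt_nonneg _) (by norm_num)
    have q3 : (2 * Real.pi + τ + ψ - 3 / 2 - 3 / 2) * √2 ≤ 9 := q2.trans (by norm_num)
    calc _ = ((2 * Real.pi + τ + ψ - 3 / 2 - 3 / 2) * √2) *
        Real.exp (-(1 / 4 * (1 + ρ) / (ρ / r))) := by ring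
      _ ≤ _ := mul_le_mul_of_nonneg_right q3 hE
  have hG : Gn x y δ = √(2 * Real.pi * δ / √((1 + y) ^ (2 : ℕ) + x ^ (2 : ℕ))) := rfl
  rw [← hG, one_mul] at hlump
  have hG0 := Gn_nonneg x y δ
  have m1 := num8.1
  have m2 := num8.2
  have e : (-((1 - 1 / 5) * 10) : ℝ) = -8 := by norm_num
  rw [e] at hlump
  have e7 : 60 / 100 * (29 / 20 * Real.exp (-10) + 2 * Real.exp (-8)) * Gn x y δ ≤
      (60 / 100 * (29 / 20 * (5 / 100000) + 2 * (34 / 100000))) * Gn x y δ :=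
    mul_le_mul_of_nonneg_right (by linarith only [m1, m2]) hG0
  linarith only [hlump, hz, hs, hE, hA2, e7]

/-- tail, left side, `s < 0` (true `3e-9`) -/
theorem tailLl {x y z τ k ψ ρ r δ : ℝ} {j : ℕ} (h : FL x y z τ k ψ ρ r δ) (hj : j ≤ 1) :
    IntegrableOn (fun v => Wt x y z τ δ j (-v)) (Ioi (3 / 2)) ∧
      ∫ v in Ioi (3 / 2 : ℝ), Wt x y z τ δ j (-v) ≤ 1 / 1000 * Gn x y δ := by
  have hi : IntegrableOn (fun v => Wt x y z τ δ j (-v)) (Ioi (3 / 2)) :=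
    (int_W h j).comp_neg.integrableOn
  refine ⟨hi, ?_⟩
  rcases le_total x 5 with h5 | h5
  · exact tail_linn h h5 hi
  · exact tail_lumpn h h5 hi

end SokamV3O

end
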