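import Mathlib.Algebra.Order.Floor.Semifield
import Mathlib.Algebra.Ring.IsFormallyReal
import Mathlib.RingTheory.PowerSeries.Inverse
import Mathlib.Data.Rat.Star
import Mathlib.Geometry.Euclidean.Angle.Unoriented.TriangleInequality
import Mathlib.Analysis.Convex.Contractible
import Mathlib.Analysis.Calculus.Deriv.Star
import Mathlib.MeasureTheory.Integral.Gamma
import Mathlib.Analysis.Complex.LocallyUniformLimit
import Mathlib.Topology.Separation.CompletelyRegular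
import Mathlib.RingTheory.Flat.TorsionFree
import Mathlib.MeasureTheory.Order.Group.Lattice
import Mathlib.Data.Int.Star
import Mathlib.LinearAlgebra.Lagrange
import Mathlib.Analysis.Complex.Angle
import Mathlib.Analysis.Complex.BorelCaratheodory
import Mathlib.Analysis.Complex.CoveringMap
import Mathlib.Topology.Homotopy.Lifting
import Mathlib.Analysis.Complex.ExponentialBounds
import Mathlib.Analysis.Complex.HasPrimitives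
import Mathlib.NumberTheory.DiophantineApproximation.Basic
import Mathlib.Analysis.Complex.OpenMapping
import Mathlib.Analysis.SpecialFunctions.Trigonometric.DerivHyp
import Mathlib.RingTheory.SimpleRing.Principal
import Mathlib.Order.CompletePartialOrder
import Mathlib.Analysis.SpecialFunctions.Complex.LogBounds
import Mathlib.Analysis.SpecialFunctions.Gamma.BohrMollerup
import Mathlib.Analysis.SpecialFunctions.Trigonometric.Series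
import Mathlib.Topology.MetricSpace.Sequences
import Mathlib.Analysis.Normed.Group.Tannery
import Mathlib.Analysis.ODE.Gronwall
import Mathlib.Analysis.Real.Pi.Bounds
import Mathlib.Analysis.SpecialFunctions.Gaussian.PoissonSummation
import Mathlib.Analysis.SpecialFunctions.Trigonometric.InverseDeriv
import Mathlib.RingTheory.TotallySplit
import Mathlib.RingTheory.Etale.Weakly
import Mathlib.Tactic

/-! ### Lib_MP_af4de1_fu.MSad -/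

section
/-!
# The saddle points

`Sad ρ y a σ`: `g = a + iσ`, `ρ e^g = a + i(σ+y)`.  R: `y = ψ`, `g_R = a + iσ`.  L, `ψ ≥ π`: `y = ψ - 2π`, `g_L = a + i(σ - 2π)`.
L, `ψ ≤ π`: `y = -ψ`, `g_L = a - iσ`.
-/

set_option autoImplicit false

namespace SokamFU

open Real

/-- saddle point in the coordinates `(a,σ)` -/
structure Sad (ρ y a σ : ℝ) : Prop where
  σ0 : 0 ≤ σ
  σπ : σ ≤ π
  C : ρ * exp a * cos σ = a
  S : ρ * exp a * sin σ = σ + y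

/-- Existence: with `W e^W = ρ`, the function `Ψ(a) = ρ e^a √(1 - (a e^(-a)/ρ)²) - arccos (a e^(-a)/ρ)` is continuous on `[-W, 3]`, `Ψ(-W) = -π`,
`Ψ(3) ≥ ρ - 3/8 + 2π`; intermediate value theorem, `σ = arccos (a e^(-a)/ρ)`. -/
theorem exists_sad {ρ y : ℝ} (h1 : 1 ≤ ρ) (h2 : ρ ≤ 9 / 2) (hy : -π ≤ y)
    (hy' : y ≤ ρ - 3 / 8 + 2 * π) : ∃ a σ : ℝ, Sad ρ y a σ := by
  have hρ : 0 < ρ := by linarith
  -- the number `W`
  obtain ⟨W, hW, hWρ⟩ : ∃ W : ℝ, 0 ≤ W ∧ W * exp W = ρ := by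
    have hc : ContinuousOn (fun x : ℝ => x * exp x) (Set.Icc 0 ρ) := by fun_prop
    have h := intermediate_value_Icc hρ.le hc
    have hm : ρ ∈ Set.Icc ((fun x : ℝ => x * exp x) 0) ((fun x : ℝ => x * exp x) ρ) := by
      refine ⟨by simp [hρ.le], ?_⟩
      have : 1 ≤ exp ρ := one_le_exp hρ.le
      show ρ ≤ ρ * exp ρ
      nlinarith
    obtain ⟨W, hW, h3⟩ := h hm
    exact ⟨W, hW.1, h3⟩
  let c : ℝ → ℝ := fun a => a * exp (-a) / ρ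
  let Ψ : ℝ → ℝ := fun a => ρ * exp a * √(1 - c a ^ (2 : ℕ)) - arccos (c a)
  have hΨc : ContinuousOn Ψ (Set.Icc (-W) 3) := by
    have h3 : Continuous c := by
      show Continuous fun a : ℝ => a * exp (-a) / ρ
      fun_prop
    have h4 : Continuous fun a => arccos (c a) := continuous_arccos.comp h3
    have h5 : Continuous fun a => √(1 - c a ^ (2 : ℕ)) :=
      continuous_sqrt.comp (continuous_const.sub (h3.pow 2))
    exact ((((continuous_const.mul continuous_exp).mul h5)).sub h4).continuousOn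
  have hl : Ψ (-W) = -π := by
    have h3 : c (-W) = -1 := by
      show -W * exp (- -W) / ρ = -1
      rw [neg_neg, neg_mul, hWρ, neg_div, div_self hρ.ne']
    show ρ * exp (-W) * √(1 - c (-W) ^ (2 : ℕ)) - arccos (c (-W)) = -π
    rw [h3]
    norm_num
  have hr : ρ - 3 / 8 + 2 * π ≤ Ψ 3 := by
    have e3 : (16 : ℝ) ≤ exp 3 := by
      have h3 : exp (3 : ℝ) = exp 1 ^ (3 : ℕ) := by
        rw [← exp_nat_mul]; norm_num
      have h4 : (2.7 : ℝ) ≤ exp 1 := by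
        have := exp_one_gt_d9
        linarith
      rw [h3]
      calc (16 : ℝ) ≤ 2.7 ^ (3 : ℕ) := by norm_num
        _ ≤ exp 1 ^ (3 : ℕ) := pow_le_pow_left₀ (by norm_num) h4 3
    have hc0 : 0 ≤ c 3 := by
      show 0 ≤ 3 * exp (-3) / ρ
      positivity
    have hc1 : c 3 ≤ 3 / 16 := by
      show 3 * exp (-3) / ρ ≤ 3 / 16
      rw [div_le_iff₀ hρ, exp_neg]
      have h5 : (exp 3)⁻¹ ≤ (16 : ℝ)⁻¹ := inv_anti₀ (by norm_num) e3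
      nlinarith
    have hs : (3 / 4 : ℝ) ≤ √(1 - c 3 ^ (2 : ℕ)) := by
      apply le_sqrt_of_sq_le
      nlinarith
    have ha : arccos (c 3) ≤ π / 2 := arccos_le_pi_div_two.2 hc0
    have hpi : π < 3.15 := pi_lt_d2
    have h6 : 12 * ρ ≤ ρ * exp 3 * √(1 - c 3 ^ (2 : ℕ)) := by
      have h7 : ρ * 16 ≤ ρ * exp 3 := mul_le_mul_of_nonneg_left e3 hρ.le
      calc 12 * ρ = (ρ * 16) * (3 / 4) := by ring
        _ ≤ ρ * exp 3 * √(1 - c 3 ^ (2 : ℕ)) := mul_le_mul h7 hs (by norm_num) (by positivity)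
    show ρ - 3 / 8 + 2 * π ≤ ρ * exp 3 * √(1 - c 3 ^ (2 : ℕ)) - arccos (c 3)
    linarith
  obtain ⟨a, ha, hΨ⟩ := intermediate_value_Icc (by linarith) hΨc
    (show y ∈ Set.Icc (Ψ (-W)) (Ψ 3) from ⟨by rw [hl]; exact hy, hy'.trans hr⟩)
  have hcl : -1 ≤ c a := by
    show -1 ≤ a * exp (-a) / ρ
    rw [le_div_iff₀ hρ, ← hWρ]
    rcases le_or_gt 0 a with h0 | h0
    · have : 0 ≤ a * exp (-a) := by positivity
      have : 0 ≤ W * exp W := by positivity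
      linarith
    · have h3 : -a ≤ W := by linarith [ha.1]
      have h4 : exp (-a) ≤ exp W := exp_le_exp.2 h3
      have h5 : -a * exp (-a) ≤ W * exp W := mul_le_mul h3 h4 (exp_nonneg _) hW
      linarith
  have hcu : c a ≤ 1 := by
    show a * exp (-a) / ρ ≤ 1
    rw [div_le_one hρ]
    have h3 : a ≤ exp a := by linarith [add_one_le_exp a]
    have h4 : a * exp (-a) ≤ exp a * exp (-a) := mul_le_mul_of_nonneg_right h3 (exp_nonneg _)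
    rw [← exp_add, add_neg_cancel, exp_zero] at h4
    linarith
  refine ⟨a, arccos (c a), arccos_nonneg _, arccos_le_pi _, ?_, ?_⟩
  · rw [cos_arccos hcl hcu]
    show ρ * exp a * (a * exp (-a) / ρ) = a
    rw [exp_neg]
    have := exp_ne_zero a
    field_simp
  · rw [sin_arccos]
    have h3 : ρ * exp a * √(1 - c a ^ (2 : ℕ)) - arccos (c a) = y := hΨ
    linarith

end SokamFU

end

/-! ### Lib_MP_af4de1_fu.MReg -/

section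
/-!
# Position of the saddle points [FU-M23]

`s = σ + y = ρ e^a sin σ ≥ 0`, `a² + s² = ρ² e^(2a)`.
-/

set_option autoImplicit false

namespace SokamFU

open Real

variable {ρ y a σ : ℝ}

private theorem exp_lb_m23 {x l : ℝ} (hx : 0 ≤ x) (h : l ≤ 1 + x + x ^ (2 : ℕ) / 2 + x ^ (3 : ℕ) / 6 + x ^ (4 : ℕ) / 24 + x ^ (5 : ℕ) / 120) :
    l ≤ exp x := by
  refine h.trans ?_
  have h1 := Real.sum_le_exp_of_nonneg hx 6
  simp only [Finset.sum_range_succ, Finset.sum_range_zero, Nat.factorial] at h1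
  norm_num at h1
  linarith only [h1]

private theorem exp_ub_m23 {x u : ℝ} (hx : 0 ≤ x) (hx1 : x ≤ 1)
    (h : 1 + x + x ^ (2 : ℕ) / 2 + x ^ (3 : ℕ) / 6 + x ^ (4 : ℕ) * 5 / 96 ≤ u) : exp x ≤ u := by
  refine le_trans ?_ h
  have h1 := Real.exp_bound' hx hx1 (n := 4) (by norm_num)
  simp only [Finset.sum_range_succ, Finset.sum_range_zero, Nat.factorial] at h1
  norm_num at h1
  linarith only [h1]

theorem Sad.s_nonneg (H : Sad ρ y a σ) (h1 : 1 ≤ ρ) : 0 ≤ σ + y := by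
  rw [← H.S]
  have h2 := sin_nonneg_of_nonneg_of_le_pi H.σ0 H.σπ
  have h3 := exp_pos a
  have h4 : 0 < ρ := by linarith only [h1]
  positivity

theorem Sad.sq (H : Sad ρ y a σ) : a ^ (2 : ℕ) + (σ + y) ^ (2 : ℕ) = ρ ^ (2 : ℕ) * exp (2 * a) := by
  have h1 : exp (2 * a) = exp a ^ (2 : ℕ) := by
    rw [← exp_nat_mul]
    norm_num
  have h2 : a ^ (2 : ℕ) + (σ + y) ^ (2 : ℕ) = (ρ * exp a) ^ (2 : ℕ) * (sin σ ^ (2 : ℕ) + cos σ ^ (2 : ℕ)) := by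
    have e1 := H.C
    have e2 := H.S
    calc a ^ (2 : ℕ) + (σ + y) ^ (2 : ℕ) = (ρ * exp a * cos σ) ^ (2 : ℕ) + (ρ * exp a * sin σ) ^ (2 : ℕ) := by rw [e1, e2]
      _ = _ := by ring
  rw [h2, sin_sq_add_cos_sq, h1]
  ring

private theorem E_pos_m23 (h1 : 1 ≤ ρ) : 0 < ρ * exp a :=
  mul_pos (by linarith only [h1]) (exp_pos a)

private theorem s_le_m23 (H : Sad ρ y a σ) (h1 : 1 ≤ ρ) : σ + y ≤ ρ * exp a := by
  rw [← H.S]
  have h2 := sin_le_one σ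
  have h3 : 0 < ρ * exp a := E_pos_m23 h1
  calc ρ * exp a * sin σ ≤ ρ * exp a * 1 := mul_le_mul_of_nonneg_left h2 h3.le
    _ = ρ * exp a := mul_one _

/-- `|a| e^|a| ≤ 9/2` for `a ≤ 0`. -/
theorem Sad.a_ge (H : Sad ρ y a σ) (h1 : 1 ≤ ρ) (h2 : ρ ≤ 9 / 2) : -(127 / 100) ≤ a := by
  by_contra hc
  push Not at hc
  have h3 : 0 < ρ * exp a := E_pos_m23 h1
  have h4 : -a ≤ ρ * exp a := by
    have h5 := neg_one_le_cos σ
    have h6 := mul_le_mul_of_nonneg_left h5 h3.le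
    rw [H.C] at h6
    linarith only [h6]
  have h7 : -a * exp (-a) ≤ ρ := by
    have h8 := mul_le_mul_of_nonneg_right h4 (exp_pos (-a)).le
    have h9 : ρ * exp a * exp (-a) = ρ := by
      rw [mul_assoc, ← exp_add, add_neg_cancel, exp_zero, mul_one]
    rwa [h9] at h8
  have h10 : 3545 / 1000 ≤ exp (127 / 100) := exp_lb_m23 (by norm_num) (by norm_num)
  have h11 : exp (127 / 100) ≤ exp (-a) := exp_le_exp.2 (by linarith only [hc])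
  have h12 : (127 / 100 : ℝ) * (3545 / 1000) ≤ -a * exp (-a) :=
    mul_le_mul (by linarith only [hc]) (h10.trans h11) (by norm_num) (by linarith only [hc])
  norm_num at h12
  linarith only [h2, h7, h12]

private theorem half_pi_le_m23 (H : Sad ρ y a σ) (h1 : 1 ≤ ρ) (ha : a ≤ 0) : π / 2 ≤ σ := by
  by_contra hc
  push Not at hc
  have h3 : 0 < ρ * exp a := E_pos_m23 h1
  have h4 : 0 < cos σ := cos_pos_of_mem_Ioo ⟨by linarith only [H.σ0, pi_pos], hc⟩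
  have h5 := mul_pos h3 h4
  rw [H.C] at h5
  linarith only [ha, h5]

theorem Sad.neg_s (H : Sad ρ y a σ) (h1 : 1 ≤ ρ) (h2 : ρ ≤ 9 / 2) (ha : a ≤ 0) :
    σ + y ≤ 9 / 2 ∧ π / 2 ≤ σ := by
  refine ⟨?_, half_pi_le_m23 H h1 ha⟩
  have h3 := s_le_m23 H h1
  have h4 : exp a ≤ 1 := exp_le_one_iff.2 ha
  have h5 : ρ * exp a ≤ ρ * 1 := mul_le_mul_of_nonneg_left h4 (by linarith only [h1])
  linarith only [h2, h3, h5]

private theorem cos_le_m23 (H : Sad ρ y a σ) (h1 : 1 ≤ ρ) (ha : 0 ≤ a) : cos σ ≤ 36789 / 100000 := by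
  have h3 : 0 < ρ * exp a := E_pos_m23 h1
  have h4 : a ≤ exp a * exp (-1) := by
    rw [← exp_add]
    have := add_one_le_exp (a + -1)
    linarith only [this]
  have h5 : exp (-1) ≤ 36789 / 100000 := by
    have h6 := exp_one_gt_d9
    rw [exp_neg]
    rw [inv_le_comm₀ (exp_pos 1) (by norm_num)]
    norm_num at h6 ⊢
    linarith only [h6]
  have h7 : ρ * exp a * cos σ ≤ ρ * exp a * (36789 / 100000) := by
    rw [H.C]
    have h8 : exp a * exp (-1) ≤ exp a * (36789 / 100000) := mul_le_mul_of_nonneg_left h5 (exp_pos a).le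
    have h9 : exp a * (36789 / 100000) ≤ ρ * exp a * (36789 / 100000) :=
      mul_le_mul_of_nonneg_right (le_mul_of_one_le_left (exp_pos a).le h1) (by norm_num)
    linarith only [h4, h8, h9]
  exact le_of_mul_le_mul_left h7 h3

private theorem le_half_pi_m23 (H : Sad ρ y a σ) (h1 : 1 ≤ ρ) (ha : 0 ≤ a) : σ ≤ π / 2 := by
  by_contra hc
  push Not at hc
  have h3 : 0 < ρ * exp a := E_pos_m23 h1
  have h4 : cos σ < 0 := cos_neg_of_pi_div_two_lt_of_lt hc (by linarith only [H.σπ, pi_pos])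
  have h5 := mul_neg_of_pos_of_neg h3 h4
  rw [H.C] at h5
  linarith only [ha, h5]

/-- `cos σ = a e^(-a)/ρ ∈ [0, 1/e]`, `sin σ ≥ .9298`, `σ ≥ 1.19`; `s² = ρ² e^(2a) - a² ≥ 1`. -/
theorem Sad.pos_facts (H : Sad ρ y a σ) (h1 : 1 ≤ ρ) (ha : 0 ≤ a) :
    119 / 100 ≤ σ ∧ σ ≤ π / 2 ∧ a ≤ 2 / 5 * (σ + y) ∧ 1 ≤ σ + y ∧
      929 / 1000 * (ρ * exp a) ≤ σ + y ∧ σ + y ≤ ρ * exp a := by
  have hE : 0 < ρ * exp a := E_pos_m23 h1
  have hc := cos_le_m23 H h1 ha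
  have hσ := le_half_pi_m23 H h1 ha
  have hc0 : 0 ≤ cos σ := cos_nonneg_of_mem_Icc ⟨by linarith only [hσ, H.σ0], hσ⟩
  have hs0 := sin_nonneg_of_nonneg_of_le_pi H.σ0 H.σπ
  have hs : 929 / 1000 ≤ sin σ := by
    have h2 := sin_sq_add_cos_sq σ
    by_contra hn
    push Not at hn
    have a1 : sin σ ^ (2 : ℕ) ≤ (929 / 1000) ^ (2 : ℕ) := pow_le_pow_left₀ hs0 hn.le 2
    have a2 : cos σ ^ (2 : ℕ) ≤ (36789 / 100000) ^ (2 : ℕ) := pow_le_pow_left₀ hc0 hc 2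
    norm_num at a1 a2
    linarith only [h2, a1, a2]
  have h5 : 929 / 1000 * (ρ * exp a) ≤ σ + y := by
    rw [← H.S]
    have a1 := mul_le_mul_of_nonneg_left hs hE.le
    linarith only [a1]
  refine ⟨?_, hσ, ?_, ?_, h5, s_le_m23 H h1⟩
  · by_contra hn
    push Not at hn
    have h2 : cos (119 / 100) < cos σ :=
      cos_lt_cos_of_nonneg_of_le_pi H.σ0 (by linarith only [pi_gt_d2]) hn
    have h3 : sin (38 / 100) ≤ cos (119 / 100) := by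
      rw [← sin_pi_div_two_sub]
      refine sin_le_sin_of_le_of_le_pi_div_two (by linarith only [pi_gt_d2]) (by linarith only []) ?_
      linarith only [pi_gt_d4]
    have h4 := abs_le.1 (sin_bound (x := 38 / 100) (by rw [abs_of_pos] <;> norm_num))
    have h6 : |(38 / 100 : ℝ)| = 38 / 100 := abs_of_pos (by norm_num)
    rw [h6] at h4
    norm_num at h4
    linarith only [hc, h2, h3, h4.1]
  · have h2 := H.C
    have a1 := mul_le_mul_of_nonneg_left hc hE.le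
    rw [h2] at a1
    linarith only [hE, h5, a1]
  · have h2 := H.sq
    have h3 : exp (2 * a) = exp a ^ (2 : ℕ) := by
      rw [← exp_nat_mul]
      norm_num
    have h4 := add_one_le_exp a
    have h6 := H.s_nonneg h1
    have h7 : 1 + a ^ (2 : ℕ) ≤ exp a ^ (2 : ℕ) := by
      have a1 : (a + 1) ^ (2 : ℕ) ≤ exp a ^ (2 : ℕ) := pow_le_pow_left₀ (by linarith only [ha]) h4 2
      have a2 : (a + 1) ^ (2 : ℕ) = 1 + a ^ (2 : ℕ) + 2 * a := by ring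
      linarith only [ha, a1]
    have h8 : exp a ^ (2 : ℕ) ≤ ρ ^ (2 : ℕ) * exp a ^ (2 : ℕ) :=
      le_mul_of_one_le_left (sq_nonneg (exp a)) (one_le_pow₀ h1)
    rw [h3] at h2
    by_contra hn
    push Not at hn
    have h9 := pow_lt_one₀ h6 hn two_ne_zero
    linarith only [h2, h7, h8, h9]

/-- `σ ≥ π/2 - (π/2) a e^(-a)/ρ`, multiplied by `ρ`. -/
private theorem sig_lb_m23 (H : Sad ρ y a σ) (h1 : 1 ≤ ρ) (ha : 0 ≤ a) :
    ρ * (π / 2 - σ) ≤ π / 2 * (a * exp (-a)) := by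
  have hσ := le_half_pi_m23 H h1 ha
  have h2 := mul_le_sin (x := π / 2 - σ) (by linarith only [hσ]) (by linarith only [H.σ0])
  rw [sin_pi_div_two_sub] at h2
  have h3 : ρ * cos σ = a * exp (-a) := by
    have h4 : ρ * exp a * cos σ * exp (-a) = ρ * cos σ := by
      have : exp a * exp (-a) = 1 := by rw [← exp_add, add_neg_cancel, exp_zero]
      calc ρ * exp a * cos σ * exp (-a) = ρ * cos σ * (exp a * exp (-a)) := by ring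
        _ = _ := by rw [this, mul_one]
    rw [← h4, H.C]
  rw [← h3]
  have hπ := pi_pos
  have h5 : π / 2 - σ ≤ π / 2 * cos σ := by
    have h6 : π / 2 * (2 / π * (π / 2 - σ)) = π / 2 - σ := by field_simp
    have h7 := mul_le_mul_of_nonneg_left h2 (by positivity : 0 ≤ π / 2)
    rwa [h6] at h7
  have h8 := mul_le_mul_of_nonneg_left h5 (by linarith : 0 ≤ ρ)
  calc ρ * (π / 2 - σ) ≤ ρ * (π / 2 * cos σ) := h8
    _ = _ := by ring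

private theorem a_nonneg_m23 (H : Sad ρ y a σ) (h1 : 1 ≤ ρ) (hy : ρ - 3 / 8 ≤ y) : 0 ≤ a := by
  by_contra hc
  push Not at hc
  have h2 := s_le_m23 H h1
  have h3 := half_pi_le_m23 H h1 hc.le
  have h4 : exp a ≤ 1 := exp_le_one_iff.2 hc.le
  have h5 : ρ * exp a ≤ ρ * 1 := mul_le_mul_of_nonneg_left h4 (by linarith only [h1])
  linarith only [hy, h2, h3, h5, pi_gt_d2]

/-- common part of the lower bounds of `a` -/
private theorem low_m23 (H : Sad ρ y a σ) (h1 : 1 ≤ ρ) (hy : ρ - 3 / 8 ≤ y) {α e m R : ℝ} (ha : 0 ≤ a)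
    (haα : a < α) (hα : exp α ≤ 1 + e) (hm : a * exp (-a) ≤ m) (hR : ρ ≤ R)
    (hone : e + 15709 / 10000 * m < 119 / 100)
    (hR2 : e * R ^ (2 : ℕ) + 15709 / 10000 * m < 119 / 100 * R) : False := by
  have h2 := s_le_m23 H h1
  have h3 := sig_lb_m23 H h1 ha
  have h4 : exp a ≤ 1 + e := (exp_le_exp.2 haα.le).trans hα
  have h5 : 0 ≤ a * exp (-a) := mul_nonneg ha (exp_pos _).le
  have hπ1 := pi_gt_d4
  have hπ2 := pi_lt_d4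
  -- `ρ - 3/8 ≤ y = s - σ ≤ ρ e^a - σ`
  have h6 : π / 2 - 3 / 8 ≤ ρ * (exp a - 1) + (π / 2 - σ) := by linarith only [hy, h2]
  have h7 : ρ * (exp a - 1) ≤ ρ * e := mul_le_mul_of_nonneg_left (by linarith only [h4]) (by linarith only [h1])
  have h8 : ρ * (π / 2 - 3 / 8) ≤ ρ * (ρ * e) + ρ * (π / 2 - σ) := by
    rw [← mul_add]
    exact mul_le_mul_of_nonneg_left (by linarith only [h6, h7]) (by linarith only [h1])
  have h9 : π / 2 * (a * exp (-a)) ≤ 15709 / 10000 * m := by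
    have : π / 2 ≤ 15709 / 10000 := by linarith only [hπ2]
    exact mul_le_mul this hm h5 (by norm_num)
  have h10 : ρ * (119 / 100) ≤ ρ * (π / 2 - 3 / 8) := mul_le_mul_of_nonneg_left (by linarith only [hπ1]) (by linarith only [h1])
  -- convexity in `ρ`
  have h11 : 0 ≤ e := by
    have := one_le_exp ha
    linarith only [h4, this]
  have h12 : 119 / 100 * ρ ≤ e * ρ ^ (2 : ℕ) + 15709 / 10000 * m := by
    have a1 : ρ * (ρ * e) = e * ρ ^ (2 : ℕ) := by ring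
    linarith only [h3, h8, h9, h10]
  have h13 : 0 ≤ (ρ - 1) * (R - ρ) := mul_nonneg (by linarith only [h1]) (by linarith only [hR])
  by_cases hR1 : R = 1
  · have : ρ = 1 := le_antisymm (hR1 ▸ hR) h1
    rw [this] at h12
    norm_num at h12
    linarith only [hone, h12]
  · have hR3 : 1 < R := lt_of_le_of_ne (h1.trans hR) (Ne.symm hR1)
    -- chord
    have h14 : (R - 1) * (e * ρ ^ (2 : ℕ) + 15709 / 10000 * m - 119 / 100 * ρ) ≤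
        (R - ρ) * (e + 15709 / 10000 * m - 119 / 100) + (ρ - 1) * (e * R ^ (2 : ℕ) + 15709 / 10000 * m - 119 / 100 * R) := by
      have h15 : (R - ρ) * (e + 15709 / 10000 * m - 119 / 100) + (ρ - 1) * (e * R ^ (2 : ℕ) + 15709 / 10000 * m - 119 / 100 * R) -
          (R - 1) * (e * ρ ^ (2 : ℕ) + 15709 / 10000 * m - 119 / 100 * ρ) = e * (R - 1) * ((ρ - 1) * (R - ρ)) := by ring
      have h16 : 0 ≤ e * (R - 1) * ((ρ - 1) * (R - ρ)) := mul_nonneg (mul_nonneg h11 (by linarith only [hR3])) h13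
      linarith only [h16]
    have h17 : 0 ≤ (R - 1) * (e * ρ ^ (2 : ℕ) + 15709 / 10000 * m - 119 / 100 * ρ) :=
      mul_nonneg (by linarith only [hR3]) (by linarith only [h12])
    have h18 : 0 ≤ R - ρ := by linarith only [hR]
    have h19 : 0 ≤ ρ - 1 := by linarith only [h1]
    rcases h19.eq_or_lt with h20 | h20
    · have h21 : ρ = 1 := by linarith only [h20]
      rw [h21, sub_self, zero_mul, add_zero] at h14
      have h22 : (R - 1) * (e + 15709 / 10000 * m - 119 / 100) < 0 :=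
        mul_neg_of_pos_of_neg (by linarith only [hR3]) (by linarith only [hone])
      rw [h21] at h17
      linarith only [h17, h22]
    · have h22 : (R - ρ) * (e + 15709 / 10000 * m - 119 / 100) ≤ 0 :=
        mul_nonpos_of_nonneg_of_nonpos h18 (by linarith only [hone])
      have h23 : (ρ - 1) * (e * R ^ (2 : ℕ) + 15709 / 10000 * m - 119 / 100 * R) < 0 :=
        mul_neg_of_pos_of_neg h20 (by linarith only [hR2])
      linarith only [h14, h17, h22, h23]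

/-- `a < 0 ⇒ s ≤ ρ, σ ≥ π/2, y ≤ ρ - π/2 < ρ - 3/8`; `0 ≤ a < .22 ⇒ y = s - σ ≤ ρ e^a - π/2 + 1.01 a e^(-a)/ρ < ρ - 3/8`
(`ρ(e^a - 1) + 1.01 a e^(-a)/ρ` is convex in `ρ`; `ρ = 4.5`: `1.147 < π/2 - 3/8 = 1.1957`). -/
theorem Sad.right_facts (H : Sad ρ y a σ) (h1 : 1 ≤ ρ) (h2 : ρ ≤ 9 / 2) (hy : ρ - 3 / 8 ≤ y)
    (hy' : y ≤ ρ - 3 / 8 + 2 * π) :
    22 / 100 ≤ a ∧ 9 / 5 ≤ σ + y ∧ σ + y ≤ 12 := by
  have ha := a_nonneg_m23 H h1 hy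
  obtain ⟨g1, g2, g3, g4, g5, g6⟩ := H.pos_facts h1 ha
  refine ⟨?_, by linarith only [h1, hy, g1], by linarith only [h2, hy', g2, pi_lt_d4]⟩
  by_contra hc
  push Not at hc
  have h3 : exp (22 / 100) ≤ 1 + 2462 / 10000 := exp_ub_m23 (by norm_num) (by norm_num) (by norm_num)
  have h4 : a * exp (-a) ≤ 22 / 100 := by
    have h5 : exp (-a) ≤ 1 := exp_le_one_iff.2 (by linarith only [ha])
    have h6 : a * exp (-a) ≤ a * 1 := mul_le_mul_of_nonneg_left h5 ha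
    linarith only [hc, h6]
  exact low_m23 H h1 hy ha hc h3 h4 h2 (by norm_num) (by norm_num)

/-- the same with `ρ ≤ 3.52`: `3.52(e^.27 - 1) + 1.01·.27 e^(-.27)/3.52 = 1.15 < 1.1957`. -/
theorem Sad.right_a (H : Sad ρ y a σ) (h1 : 1 ≤ ρ) (h2 : ρ ≤ 352 / 100) (hy : ρ - 3 / 8 ≤ y) :
    27 / 100 ≤ a := by
  have ha := a_nonneg_m23 H h1 hy
  by_contra hc
  push Not at hc
  have h3 : exp (27 / 100) ≤ 1 + 3101 / 10000 := exp_ub_m23 (by norm_num) (by norm_num) (by norm_num)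
  have h4 : a * exp (-a) ≤ 2126 / 10000 := by
    -- `e^a ≥ 1 + a`
    have h5 := add_one_le_exp a
    have h6 : exp a * exp (-a) = 1 := by rw [← exp_add, add_neg_cancel, exp_zero]
    have h7 := exp_pos (-a)
    have h8 : (1 + a) * exp (-a) ≤ 1 := by
      have a1 := mul_le_mul_of_nonneg_right h5 h7.le
      linarith only [h6, a1]
    have h9 : exp (-a) ≤ 1 / (1 + a) := by
      rw [le_div_iff₀ (by linarith only [ha])]
      linarith only [h8]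
    have h10 : a * exp (-a) ≤ a * (1 / (1 + a)) := mul_le_mul_of_nonneg_left h9 ha
    refine h10.trans ?_
    rw [mul_one_div, div_le_iff₀ (by linarith only [ha])]
    linarith only [hc]
  exact low_m23 H h1 hy ha hc h3 h4 h2 (by norm_num) (by norm_num)

/-- one range of `s` -/
private theorem rng_m23 {E s a l u α ε : ℝ} (hl : l ≤ s) (hu : s ≤ u) (hl0 : 0 < l) (hα0 : 0 ≤ α) (hαa : α ≤ a)
    (hE : 0 < E) (hE2 : E ≤ 10771 / 10000 * s) (hε : exp (-a) ≤ ε) (hε1 : 10771 / 10000 * ε ≤ 1)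
    (hfin : 11960 / 10000 < l * (1 - 10771 / 10000 * ε) + α / (10771 / 10000 * u)) :
    11960 / 10000 < s + a / E - E * exp (-a) := by
  have h1 : E * exp (-a) ≤ 10771 / 10000 * s * ε :=
    mul_le_mul hE2 hε (exp_pos _).le (by linarith only [hE, hE2])
  have h2 : α / (10771 / 10000 * u) ≤ a / E :=
    div_le_div₀ (hα0.trans hαa) hαa hE (by linarith only [hu, hE2])
  have h3 : l * (1 - 10771 / 10000 * ε) ≤ s * (1 - 10771 / 10000 * ε) :=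
    mul_le_mul_of_nonneg_right hl (by linarith only [hε1])
  have h4 : s * (1 - 10771 / 10000 * ε) = s - 10771 / 10000 * s * ε := by ring
  linarith only [hfin, h1, h2, h3]

private theorem exp_neg_m23 {a α ε : ℝ} (h : α ≤ a) (h0 : 0 ≤ α) (hε : 0 < ε)
    (h1 : 1 / ε ≤ 1 + α + α ^ (2 : ℕ) / 2 + α ^ (3 : ℕ) / 6 + α ^ (4 : ℕ) / 24 + α ^ (5 : ℕ) / 120) : exp (-a) ≤ ε := by
  have h2 : 1 / ε ≤ exp α := exp_lb_m23 h0 h1
  have h3 : exp α ≤ exp a := exp_le_exp.2 h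
  rw [exp_neg, inv_le_comm₀ (exp_pos a) hε, ← one_div]
  exact h2.trans h3

/-- `σ ≤ π/2 - a/√(a²+s²)`, so `s + a/√(a²+s²) - √(a²+s²) e^(-a) ≤ π/2 - 3/8 = 1.1958`; if `a > 1 - s/8` then the left side is larger
(`s = 1.905, a = .762`: `1.319`; `s ≥ 2.4`: already `s(1 - e^(-(1-s/8))) ≥ 1.22`). -/
theorem Sad.left_facts (H : Sad ρ y a σ) (h1 : 1 ≤ ρ) (h2 : ρ ≤ 9 / 2) (ha : 0 ≤ a)
    (hy : y ≤ ρ - 3 / 8) : σ + y ≤ 57 / 10 ∧ a ≤ 1 - (σ + y) / 8 := by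
  obtain ⟨g1, g2, g3, g4, g5, g6⟩ := H.pos_facts h1 ha
  have hs57 : σ + y ≤ 57 / 10 := by linarith only [h2, hy, g2, pi_lt_d4]
  refine ⟨hs57, ?_⟩
  by_contra hc
  push Not at hc
  obtain ⟨s, hs⟩ : ∃ s, s = σ + y := ⟨_, rfl⟩
  obtain ⟨E, hE⟩ : ∃ E, E = ρ * exp a := ⟨_, rfl⟩
  rw [← hs] at g3 g4 g5 g6 hs57 hc
  rw [← hE] at g5 g6
  have hE0 : 0 < E := by rw [hE]; exact E_pos_m23 h1
  have hsq : a ^ (2 : ℕ) + s ^ (2 : ℕ) = E ^ (2 : ℕ) := by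
    have h3 := H.sq
    have h4 : exp (2 * a) = exp a ^ (2 : ℕ) := by
      rw [← exp_nat_mul]
      norm_num
    rw [h4] at h3
    rw [hs, hE, h3]
    ring
  have hρ : E * exp (-a) = ρ := by
    rw [hE, mul_assoc, ← exp_add, add_neg_cancel, exp_zero, mul_one]
  -- `a / E = cos σ = sin (π/2 - σ) ≤ π/2 - σ`
  have hcos : a / E = cos σ := by
    rw [div_eq_iff hE0.ne', ← H.C, ← hE]
    ring
  have hθ : a / E ≤ π / 2 - σ := by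
    rw [hcos, ← sin_pi_div_two_sub]
    exact sin_le (by linarith only [g2])
  have hmain : s + a / E - E * exp (-a) ≤ 11959 / 10000 := by
    rw [hρ]
    linarith only [hy, hs, hθ, pi_lt_d4]
  have hE2 : E ≤ 10771 / 10000 * s := by
    refine abs_le_of_sq_le_sq' ?_ (by linarith only [g6, g5]) |>.2
    have a1 : a ^ (2 : ℕ) ≤ (2 / 5 * s) ^ (2 : ℕ) := pow_le_pow_left₀ ha g3 2
    have a2 : (2 / 5 * s) ^ (2 : ℕ) = 4 / 25 * s ^ (2 : ℕ) := by ring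
    have a3 : (10771 / 10000 * s) ^ (2 : ℕ) = 116014441 / 100000000 * s ^ (2 : ℕ) := by ring
    rw [a3]
    linarith only [hsq, a1, sq_nonneg s]
  have hs19 : 19 / 10 ≤ s := by linarith only [hc, g3]
  rcases le_total s (21 / 10) with c1 | c1
  · have h3 : exp (-a) ≤ 479 / 1000 :=
      exp_neg_m23 (α := 7375 / 10000) (by linarith only [hc, c1]) (by norm_num) (by norm_num) (by norm_num)
    have h4 := rng_m23 hs19 c1 (by norm_num) (α := 7375 / 10000) (by norm_num) (by linarith only [hc, c1]) hE0 hE2 h3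
      (by norm_num) (by norm_num)
    linarith only [hmain, h4]
  rcases le_total s (24 / 10) with c2 | c2
  · have h3 : exp (-a) ≤ 497 / 1000 :=
      exp_neg_m23 (α := 7 / 10) (by linarith only [hc, c2]) (by norm_num) (by norm_num) (by norm_num)
    have h4 := rng_m23 c1 c2 (by norm_num) (α := 7 / 10) (by norm_num) (by linarith only [hc, c2]) hE0 hE2 h3
      (by norm_num) (by norm_num)
    linarith only [hmain, h4]
  rcases le_total s 3 with c3 | c3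
  · have h3 : exp (-a) ≤ 5355 / 10000 :=
      exp_neg_m23 (α := 625 / 1000) (by linarith only [hc, c3]) (by norm_num) (by norm_num) (by norm_num)
    have h4 := rng_m23 c2 c3 (by norm_num) (α := 625 / 1000) (by norm_num) (by linarith only [hc, c3]) hE0 hE2 h3
      (by norm_num) (by norm_num)
    linarith only [hmain, h4]
  · -- `s ≥ 3`
    have h3 : 0 ≤ a / E - (E - s) * exp (-a) := by
      -- `(E - s)(E + s) = a²`, `a e^(-a) ≤ 1`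
      have h4 : a * exp (-a) ≤ 1 := by
        have h5 := add_one_le_exp a
        have h6 : exp a * exp (-a) = 1 := by rw [← exp_add, add_neg_cancel, exp_zero]
        have h7 := exp_pos (-a)
        have a1 := mul_le_mul_of_nonneg_right h5 h7.le
        linarith only [h6, h7, a1]
      have h5 : (E - s) * (E + s) = a ^ (2 : ℕ) := by linarith only [hsq]
      have h6 : E - s = a ^ (2 : ℕ) / (E + s) := by
        rw [eq_div_iff (by linarith only [hE0, hE2])]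
        exact h5
      have h7 : a ^ (2 : ℕ) / (E + s) * exp (-a) ≤ a / E := by
        have h8 : a ^ (2 : ℕ) / (E + s) * exp (-a) = a * (a * exp (-a)) / (E + s) := by ring
        rw [h8]
        refine div_le_div₀ ha ?_ hE0 (by linarith only [c3])
        have a1 := mul_le_mul_of_nonneg_left h4 ha
        linarith only [a1]
      rw [h6]
      linarith only [h7]
    -- `s (1 - e^(-a)) > 1.196`
    obtain ⟨b, hb⟩ : ∃ b, b = 1 - s / 8 := ⟨_, rfl⟩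
    have hb0 : 2875 / 10000 ≤ b := by rw [hb]; linarith only [hs57]
    have hb1 : b ≤ 625 / 1000 := by rw [hb]; linarith only [c3]
    have h4 : exp b ≤ exp a := exp_le_exp.2 (by rw [hb]; exact hc.le)
    have h5 := quadratic_le_exp_of_nonneg (by linarith : 0 ≤ b)
    have h6 : exp a * exp (-a) = 1 := by rw [← exp_add, add_neg_cancel, exp_zero]
    have h7 := exp_pos (-a)
    have h8 : (1 + b + b ^ (2 : ℕ) / 2) * exp (-a) ≤ 1 := by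
      have a1 := mul_le_mul_of_nonneg_right (h5.trans h4) h7.le
      linarith only [h6, a1]
    have h9 : s = 8 * (1 - b) := by rw [hb]; ring
    have h10 : 11960 / 10000 < s * (1 - exp (-a)) := by
      -- polynomial inequality
      have hpoly : 11960 / 10000 * (1 + b + b ^ (2 : ℕ) / 2) < 8 * (1 - b) * (b + b ^ (2 : ℕ) / 2) := by
        have t1 : 0 ≤ (b - 2875 / 10000) * (625 / 1000 - b) := mul_nonneg (by linarith only [hb0]) (by linarith only [hb1])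
        have t2 : 0 ≤ (b - 2875 / 10000) * (625 / 1000 - b) * b := mul_nonneg t1 (by linarith only [hb0])
        linarith only [hb1, t1, t2]
      have hq : 0 < 1 + b + b ^ (2 : ℕ) / 2 := by positivity
      have h11 : exp (-a) ≤ 1 / (1 + b + b ^ (2 : ℕ) / 2) := by
        rw [le_div_iff₀ hq]
        linarith only [h8]
      have h12 : 8 * (1 - b) * (1 - 1 / (1 + b + b ^ (2 : ℕ) / 2)) ≤ s * (1 - exp (-a)) := by
        rw [h9]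
        exact mul_le_mul_of_nonneg_left (by linarith only [h11]) (by linarith only [hb1])
      refine lt_of_lt_of_le ?_ h12
      have h13 : 8 * (1 - b) * (1 - 1 / (1 + b + b ^ (2 : ℕ) / 2)) = 8 * (1 - b) * (b + b ^ (2 : ℕ) / 2) / (1 + b + b ^ (2 : ℕ) / 2) := by
        field_simp
        ring
      rw [h13, lt_div_iff₀ hq]
      exact hpoly
    have h11 : s * (1 - exp (-a)) + (a / E - (E - s) * exp (-a)) = s + a / E - E * exp (-a) := by ring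
    linarith only [hmain, h3, h10]

/-- `a > 0 ⇒ s ≥ 1`, `σ ≤ π/2`, `y = s - σ ≥ 1 - π/2 > -5/8`. -/
theorem Sad.low_facts (H : Sad ρ y a σ) (h1 : 1 ≤ ρ) (hy : y ≤ -(5 / 8)) : a ≤ 0 := by
  by_contra hc
  push Not at hc
  obtain ⟨g1, g2, g3, g4, g5, g6⟩ := H.pos_facts h1 hc.le
  linarith only [hy, g2, g4, pi_lt_d4]

end SokamFU

end

/-! ### Lib_MP_af4de1_v3o.OTRc -/

section
/-!
# The level of the lump `-2π` on the right side: certificates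
-/

set_option autoImplicit false

namespace SokamV3O

/-- lower bound of (level - tilt) divided by `a`, `w = n (1 + x)` -/
noncomputable def fV (κ c a w : ℝ) : ℝ :=
  41887 / 10000 * (1 - w / 4) - (2 - a / 3) * w ^ (2 : ℕ) / 16 -
    (1 - w / 4) ^ (2 : ℕ) * ((4 - a) / 2 * (1 - κ * w * a / 4) + c * a ^ (2 : ℕ))

/-- `5 ≤ x ≤ 8` -/
theorem lv5 {a t : ℝ} (h0 : 4 / 9 ≤ a) (h1 : a ≤ 2 / 3) (t0 : 0 ≤ t) (t1 : t ≤ 1) :
    53 / 100 ≤ a * fV (797 / 1000) (1461 / 2000) a ((13857 / 10000 + 13454 / 10000 * a) * t) := by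
  have h2 : 0 ≤ 2 / 3 - a := by linarith only [h1]
  have h3 : 0 ≤ a - 4 / 9 := by linarith only [h0]
  have h4 : 0 ≤ 1 - t := by linarith only [t1]
  have h5 : 0 ≤ (317130309 / 80000) * ((a - 4 / 9) ^ (0 : ℕ) * (2 / 3 - a) ^ (6 : ℕ)) * (t ^ (0 : ℕ) * (1 - t) ^ (3 : ℕ)) +
      (79451629053057 / 6400000000) * ((a - 4 / 9) ^ (0 : ℕ) * (2 / 3 - a) ^ (6 : ℕ)) * (t ^ (1 : ℕ) * (1 - t) ^ (2 : ℕ)) +
      (26777080387117053 / 3200000000000) * ((a - 4 / 9) ^ (0 : ℕ) * (2 / 3 - a) ^ (6 : ℕ)) * (t ^ (2 : ℕ) * (1 - t) ^ (1 : ℕ)) +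
      (3217467823573286533 / 16000000000000000) * ((a - 4 / 9) ^ (0 : ℕ) * (2 / 3 - a) ^ (6 : ℕ)) * (t ^ (3 : ℕ) * (1 - t) ^ (0 : ℕ)) +
      (8910356319 / 320000) * ((a - 4 / 9) ^ (1 : ℕ) * (2 / 3 - a) ^ (5 : ℕ)) * (t ^ (0 : ℕ) * (1 - t) ^ (3 : ℕ)) +
      (1121683289162229 / 12800000000) * ((a - 4 / 9) ^ (1 : ℕ) * (2 / 3 - a) ^ (5 : ℕ)) * (t ^ (1 : ℕ) * (1 - t) ^ (2 : ℕ)) +
      (385239378267658143 / 6400000000000) * ((a - 4 / 9) ^ (1 : ℕ) * (2 / 3 - a) ^ (5 : ℕ)) * (t ^ (2 : ℕ) * (1 - t) ^ (1 : ℕ)) +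
      (640397336343754802931 / 256000000000000000) * ((a - 4 / 9) ^ (1 : ℕ) * (2 / 3 - a) ^ (5 : ℕ)) * (t ^ (3 : ℕ) * (1 - t) ^ (0 : ℕ)) +
      (1018470591 / 12800) * ((a - 4 / 9) ^ (2 : ℕ) * (2 / 3 - a) ^ (4 : ℕ)) * (t ^ (0 : ℕ) * (1 - t) ^ (3 : ℕ)) +
      (3224348032284999 / 12800000000) * ((a - 4 / 9) ^ (2 : ℕ) * (2 / 3 - a) ^ (4 : ℕ)) * (t ^ (1 : ℕ) * (1 - t) ^ (2 : ℕ)) +
      (2237340306843622269 / 12800000000000) * ((a - 4 / 9) ^ (2 : ℕ) * (2 / 3 - a) ^ (4 : ℕ)) * (t ^ (2 : ℕ) * (1 - t) ^ (1 : ℕ)) +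
      (227116268136756973629 / 25600000000000000) * ((a - 4 / 9) ^ (2 : ℕ) * (2 / 3 - a) ^ (4 : ℕ)) * (t ^ (3 : ℕ) * (1 - t) ^ (0 : ℕ)) +
      (152370477 / 1280) * ((a - 4 / 9) ^ (3 : ℕ) * (2 / 3 - a) ^ (3 : ℕ)) * (t ^ (0 : ℕ) * (1 - t) ^ (3 : ℕ)) +
      (2428735821067323 / 6400000000) * ((a - 4 / 9) ^ (3 : ℕ) * (2 / 3 - a) ^ (3 : ℕ)) * (t ^ (1 : ℕ) * (1 - t) ^ (2 : ℕ)) +
      (6770658550666249773 / 25600000000000) * ((a - 4 / 9) ^ (3 : ℕ) * (2 / 3 - a) ^ (3 : ℕ)) * (t ^ (2 : ℕ) * (1 - t) ^ (1 : ℕ)) +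
      (14791868741136822630939 / 1024000000000000000) * ((a - 4 / 9) ^ (3 : ℕ) * (2 / 3 - a) ^ (3 : ℕ)) * (t ^ (3 : ℕ) * (1 - t) ^ (0 : ℕ)) +
      (25266411 / 256) * ((a - 4 / 9) ^ (4 : ℕ) * (2 / 3 - a) ^ (2 : ℕ)) * (t ^ (0 : ℕ) * (1 - t) ^ (3 : ℕ)) +
      (1014925845878631 / 3200000000) * ((a - 4 / 9) ^ (4 : ℕ) * (2 / 3 - a) ^ (2 : ℕ)) * (t ^ (1 : ℕ) * (1 - t) ^ (2 : ℕ)) +
      (1132093316598680583 / 5120000000000) * ((a - 4 / 9) ^ (4 : ℕ) * (2 / 3 - a) ^ (2 : ℕ)) * (t ^ (2 : ℕ) * (1 - t) ^ (1 : ℕ)) +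
      (12399970760384815530261 / 1024000000000000000) * ((a - 4 / 9) ^ (4 : ℕ) * (2 / 3 - a) ^ (2 : ℕ)) * (t ^ (3 : ℕ) * (1 - t) ^ (0 : ℕ)) +
      (13794574671 / 320000) * ((a - 4 / 9) ^ (5 : ℕ) * (2 / 3 - a) ^ (1 : ℕ)) * (t ^ (0 : ℕ) * (1 - t) ^ (3 : ℕ)) +
      (357877414518129 / 2560000000) * ((a - 4 / 9) ^ (5 : ℕ) * (2 / 3 - a) ^ (1 : ℕ)) * (t ^ (1 : ℕ) * (1 - t) ^ (2 : ℕ)) +
      (497638625728385151 / 5120000000000) * ((a - 4 / 9) ^ (5 : ℕ) * (2 / 3 - a) ^ (1 : ℕ)) * (t ^ (2 : ℕ) * (1 - t) ^ (1 : ℕ)) +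
      (5190411048153149325069 / 1024000000000000000) * ((a - 4 / 9) ^ (5 : ℕ) * (2 / 3 - a) ^ (1 : ℕ)) * (t ^ (3 : ℕ) * (1 - t) ^ (0 : ℕ)) +
      (2484250479 / 320000) * ((a - 4 / 9) ^ (6 : ℕ) * (2 / 3 - a) ^ (0 : ℕ)) * (t ^ (0 : ℕ) * (1 - t) ^ (3 : ℕ)) +
      (325587329981883 / 12800000000) * ((a - 4 / 9) ^ (6 : ℕ) * (2 / 3 - a) ^ (0 : ℕ)) * (t ^ (1 : ℕ) * (1 - t) ^ (2 : ℕ)) +
      (450445352601224223 / 25600000000000) * ((a - 4 / 9) ^ (6 : ℕ) * (2 / 3 - a) ^ (0 : ℕ)) * (t ^ (2 : ℕ) * (1 - t) ^ (1 : ℕ)) +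
      (170662836112800904107 / 204800000000000000) * ((a - 4 / 9) ^ (6 : ℕ) * (2 / 3 - a) ^ (0 : ℕ)) * (t ^ (3 : ℕ) * (1 - t) ^ (0 : ℕ)) := by (clear * - t1 t0 h0 h1; positivity)
  have e : a * fV (797 / 1000) (1461 / 2000) a ((13857 / 10000 + 13454 / 10000 * a) * t) - 53 / 100 = (317130309 / 80000) * ((a - 4 / 9) ^ (0 : ℕ) * (2 / 3 - a) ^ (6 : ℕ)) * (t ^ (0 : ℕ) * (1 - t) ^ (3 : ℕ)) +
      (79451629053057 / 6400000000) * ((a - 4 / 9) ^ (0 : ℕ) * (2 / 3 - a) ^ (6 : ℕ)) * (t ^ (1 : ℕ) * (1 - t) ^ (2 : ℕ)) +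
      (26777080387117053 / 3200000000000) * ((a - 4 / 9) ^ (0 : ℕ) * (2 / 3 - a) ^ (6 : ℕ)) * (t ^ (2 : ℕ) * (1 - t) ^ (1 : ℕ)) +
      (3217467823573286533 / 16000000000000000) * ((a - 4 / 9) ^ (0 : ℕ) * (2 / 3 - a) ^ (6 : ℕ)) * (t ^ (3 : ℕ) * (1 - t) ^ (0 : ℕ)) +
      (8910356319 / 320000) * ((a - 4 / 9) ^ (1 : ℕ) * (2 / 3 - a) ^ (5 : ℕ)) * (t ^ (0 : ℕ) * (1 - t) ^ (3 : ℕ)) +
      (1121683289162229 / 12800000000) * ((a - 4 / 9) ^ (1 : ℕ) * (2 / 3 - a) ^ (5 : ℕ)) * (t ^ (1 : ℕ) * (1 - t) ^ (2 : ℕ)) +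
      (385239378267658143 / 6400000000000) * ((a - 4 / 9) ^ (1 : ℕ) * (2 / 3 - a) ^ (5 : ℕ)) * (t ^ (2 : ℕ) * (1 - t) ^ (1 : ℕ)) +
      (640397336343754802931 / 256000000000000000) * ((a - 4 / 9) ^ (1 : ℕ) * (2 / 3 - a) ^ (5 : ℕ)) * (t ^ (3 : ℕ) * (1 - t) ^ (0 : ℕ)) +
      (1018470591 / 12800) * ((a - 4 / 9) ^ (2 : ℕ) * (2 / 3 - a) ^ (4 : ℕ)) * (t ^ (0 : ℕ) * (1 - t) ^ (3 : ℕ)) +
      (3224348032284999 / 12800000000) * ((a - 4 / 9) ^ (2 : ℕ) * (2 / 3 - a) ^ (4 : ℕ)) * (t ^ (1 : ℕ) * (1 - t) ^ (2 : ℕ)) +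
      (2237340306843622269 / 12800000000000) * ((a - 4 / 9) ^ (2 : ℕ) * (2 / 3 - a) ^ (4 : ℕ)) * (t ^ (2 : ℕ) * (1 - t) ^ (1 : ℕ)) +
      (227116268136756973629 / 25600000000000000) * ((a - 4 / 9) ^ (2 : ℕ) * (2 / 3 - a) ^ (4 : ℕ)) * (t ^ (3 : ℕ) * (1 - t) ^ (0 : ℕ)) +
      (152370477 / 1280) * ((a - 4 / 9) ^ (3 : ℕ) * (2 / 3 - a) ^ (3 : ℕ)) * (t ^ (0 : ℕ) * (1 - t) ^ (3 : ℕ)) +
      (2428735821067323 / 6400000000) * ((a - 4 / 9) ^ (3 : ℕ) * (2 / 3 - a) ^ (3 : ℕ)) * (t ^ (1 : ℕ) * (1 - t) ^ (2 : ℕ)) +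
      (6770658550666249773 / 25600000000000) * ((a - 4 / 9) ^ (3 : ℕ) * (2 / 3 - a) ^ (3 : ℕ)) * (t ^ (2 : ℕ) * (1 - t) ^ (1 : ℕ)) +
      (14791868741136822630939 / 1024000000000000000) * ((a - 4 / 9) ^ (3 : ℕ) * (2 / 3 - a) ^ (3 : ℕ)) * (t ^ (3 : ℕ) * (1 - t) ^ (0 : ℕ)) +
      (25266411 / 256) * ((a - 4 / 9) ^ (4 : ℕ) * (2 / 3 - a) ^ (2 : ℕ)) * (t ^ (0 : ℕ) * (1 - t) ^ (3 : ℕ)) +
      (1014925845878631 / 3200000000) * ((a - 4 / 9) ^ (4 : ℕ) * (2 / 3 - a) ^ (2 : ℕ)) * (t ^ (1 : ℕ) * (1 - t) ^ (2 : ℕ)) +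
      (1132093316598680583 / 5120000000000) * ((a - 4 / 9) ^ (4 : ℕ) * (2 / 3 - a) ^ (2 : ℕ)) * (t ^ (2 : ℕ) * (1 - t) ^ (1 : ℕ)) +
      (12399970760384815530261 / 1024000000000000000) * ((a - 4 / 9) ^ (4 : ℕ) * (2 / 3 - a) ^ (2 : ℕ)) * (t ^ (3 : ℕ) * (1 - t) ^ (0 : ℕ)) +
      (13794574671 / 320000) * ((a - 4 / 9) ^ (5 : ℕ) * (2 / 3 - a) ^ (1 : ℕ)) * (t ^ (0 : ℕ) * (1 - t) ^ (3 : ℕ)) +
      (357877414518129 / 2560000000) * ((a - 4 / 9) ^ (5 : ℕ) * (2 / 3 - a) ^ (1 : ℕ)) * (t ^ (1 : ℕ) * (1 - t) ^ (2 : ℕ)) +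
      (497638625728385151 / 5120000000000) * ((a - 4 / 9) ^ (5 : ℕ) * (2 / 3 - a) ^ (1 : ℕ)) * (t ^ (2 : ℕ) * (1 - t) ^ (1 : ℕ)) +
      (5190411048153149325069 / 1024000000000000000) * ((a - 4 / 9) ^ (5 : ℕ) * (2 / 3 - a) ^ (1 : ℕ)) * (t ^ (3 : ℕ) * (1 - t) ^ (0 : ℕ)) +
      (2484250479 / 320000) * ((a - 4 / 9) ^ (6 : ℕ) * (2 / 3 - a) ^ (0 : ℕ)) * (t ^ (0 : ℕ) * (1 - t) ^ (3 : ℕ)) +
      (325587329981883 / 12800000000) * ((a - 4 / 9) ^ (6 : ℕ) * (2 / 3 - a) ^ (0 : ℕ)) * (t ^ (1 : ℕ) * (1 - t) ^ (2 : ℕ)) +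
      (450445352601224223 / 25600000000000) * ((a - 4 / 9) ^ (6 : ℕ) * (2 / 3 - a) ^ (0 : ℕ)) * (t ^ (2 : ℕ) * (1 - t) ^ (1 : ℕ)) +
      (170662836112800904107 / 204800000000000000) * ((a - 4 / 9) ^ (6 : ℕ) * (2 / 3 - a) ^ (0 : ℕ)) * (t ^ (3 : ℕ) * (1 - t) ^ (0 : ℕ)) := by
    unfold fV
    ring
  linarith

/-- `8 ≤ x` -/
theorem lv8 {a t : ℝ} (h0 : 0 ≤ a) (h1 : a ≤ 4 / 9) (t0 : 0 ≤ t) (t1 : t ≤ 1) :
    3412 / 1000 ≤ fV (88 / 100) (5485 / 10000) a ((1571 / 1000 + 9272 / 10000 * a) * t) * (4 - 2571 / 1000 * a) := by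
  have h2 : 0 ≤ 4 / 9 - a := by linarith only [h1]
  have h3 : 0 ≤ a := by linarith only [h0]
  have h4 : 0 ≤ 1 - t := by linarith only [t1]
  have h5 : 0 ≤ (7098457437 / 10240000) * (a ^ (0 : ℕ) * (4 / 9 - a) ^ (6 : ℕ)) * (t ^ (0 : ℕ) * (1 - t) ^ (3 : ℕ)) +
      (83606044622643 / 40960000000) * (a ^ (0 : ℕ) * (4 / 9 - a) ^ (6 : ℕ)) * (t ^ (1 : ℕ) * (1 - t) ^ (2 : ℕ)) +
      (17228604557619 / 10240000000) * (a ^ (0 : ℕ) * (4 / 9 - a) ^ (6 : ℕ)) * (t ^ (2 : ℕ) * (1 - t) ^ (1 : ℕ)) +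
      (13702203355833 / 40960000000) * (a ^ (0 : ℕ) * (4 / 9 - a) ^ (6 : ℕ)) * (t ^ (3 : ℕ) * (1 - t) ^ (0 : ℕ)) +
      (40448950176627 / 10240000000) * (a ^ (1 : ℕ) * (4 / 9 - a) ^ (5 : ℕ)) * (t ^ (0 : ℕ) * (1 - t) ^ (3 : ℕ)) +
      (478791617409308583 / 40960000000000) * (a ^ (1 : ℕ) * (4 / 9 - a) ^ (5 : ℕ)) * (t ^ (1 : ℕ) * (1 - t) ^ (2 : ℕ)) +
      (96612291397737189 / 10240000000000) * (a ^ (1 : ℕ) * (4 / 9 - a) ^ (5 : ℕ)) * (t ^ (2 : ℕ) * (1 - t) ^ (1 : ℕ)) +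
      (352303649711437923 / 204800000000000) * (a ^ (1 : ℕ) * (4 / 9 - a) ^ (5 : ℕ)) * (t ^ (3 : ℕ) * (1 - t) ^ (0 : ℕ)) +
      (18970945869627 / 2048000000) * (a ^ (2 : ℕ) * (4 / 9 - a) ^ (4 : ℕ)) * (t ^ (0 : ℕ) * (1 - t) ^ (3 : ℕ)) +
      (5650225948350368343 / 204800000000000) * (a ^ (2 : ℕ) * (4 / 9 - a) ^ (4 : ℕ)) * (t ^ (1 : ℕ) * (1 - t) ^ (2 : ℕ)) +
      (4450926643009308387 / 204800000000000) * (a ^ (2 : ℕ) * (4 / 9 - a) ^ (4 : ℕ)) * (t ^ (2 : ℕ) * (1 - t) ^ (1 : ℕ)) +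
      (362472483297349679949 / 102400000000000000) * (a ^ (2 : ℕ) * (4 / 9 - a) ^ (4 : ℕ)) * (t ^ (3 : ℕ) * (1 - t) ^ (0 : ℕ)) +
      (11706304933611 / 1024000000) * (a ^ (3 : ℕ) * (4 / 9 - a) ^ (3 : ℕ)) * (t ^ (0 : ℕ) * (1 - t) ^ (3 : ℕ)) +
      (3515306678593083711 / 102400000000000) * (a ^ (3 : ℕ) * (4 / 9 - a) ^ (3 : ℕ)) * (t ^ (1 : ℕ) * (1 - t) ^ (2 : ℕ)) +
      (53833254568845130827 / 2048000000000000) * (a ^ (3 : ℕ) * (4 / 9 - a) ^ (3 : ℕ)) * (t ^ (2 : ℕ) * (1 - t) ^ (1 : ℕ)) +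
      (1879574149310956185537 / 512000000000000000) * (a ^ (3 : ℕ) * (4 / 9 - a) ^ (3 : ℕ)) * (t ^ (3 : ℕ) * (1 - t) ^ (0 : ℕ)) +
      (8007341213079 / 1024000000) * (a ^ (4 : ℕ) * (4 / 9 - a) ^ (2 : ℕ)) * (t ^ (0 : ℕ) * (1 - t) ^ (3 : ℕ)) +
      (2429602976059795539 / 102400000000000) * (a ^ (4 : ℕ) * (4 / 9 - a) ^ (2 : ℕ)) * (t ^ (1 : ℕ) * (1 - t) ^ (2 : ℕ)) +
      (179888964820061455953 / 10240000000000000) * (a ^ (4 : ℕ) * (4 / 9 - a) ^ (2 : ℕ)) * (t ^ (2 : ℕ) * (1 - t) ^ (1 : ℕ)) +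
      (5011080417650802010617 / 2560000000000000000) * (a ^ (4 : ℕ) * (4 / 9 - a) ^ (2 : ℕ)) * (t ^ (3 : ℕ) * (1 - t) ^ (0 : ℕ)) +
      (5744517476931 / 2048000000) * (a ^ (5 : ℕ) * (4 / 9 - a) ^ (1 : ℕ)) * (t ^ (0 : ℕ) * (1 - t) ^ (3 : ℕ)) +
      (1765866529528728687 / 204800000000000) * (a ^ (5 : ℕ) * (4 / 9 - a) ^ (1 : ℕ)) * (t ^ (1 : ℕ) * (1 - t) ^ (2 : ℕ)) +
      (313867774815591083553 / 51200000000000000) * (a ^ (5 : ℕ) * (4 / 9 - a) ^ (1 : ℕ)) * (t ^ (2 : ℕ) * (1 - t) ^ (1 : ℕ)) +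
      (5974214666314945076919 / 12800000000000000000) * (a ^ (5 : ℕ) * (4 / 9 - a) ^ (1 : ℕ)) * (t ^ (3 : ℕ) * (1 - t) ^ (0 : ℕ)) +
      (4207987981467 / 10240000000) * (a ^ (6 : ℕ) * (4 / 9 - a) ^ (0 : ℕ)) * (t ^ (0 : ℕ) * (1 - t) ^ (3 : ℕ)) +
      (262975850178264603 / 204800000000000) * (a ^ (6 : ℕ) * (4 / 9 - a) ^ (0 : ℕ)) * (t ^ (1 : ℕ) * (1 - t) ^ (2 : ℕ)) +
      (44441088384675922713 / 51200000000000000) * (a ^ (6 : ℕ) * (4 / 9 - a) ^ (0 : ℕ)) * (t ^ (2 : ℕ) * (1 - t) ^ (1 : ℕ)) +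
      (168162901155847666419 / 6400000000000000000) * (a ^ (6 : ℕ) * (4 / 9 - a) ^ (0 : ℕ)) * (t ^ (3 : ℕ) * (1 - t) ^ (0 : ℕ)) := by (clear * - t1 t0 h0 h1; positivity)
  have e : fV (88 / 100) (5485 / 10000) a ((1571 / 1000 + 9272 / 10000 * a) * t) * (4 - 2571 / 1000 * a) - 3412 / 1000 = (7098457437 / 10240000) * (a ^ (0 : ℕ) * (4 / 9 - a) ^ (6 : ℕ)) * (t ^ (0 : ℕ) * (1 - t) ^ (3 : ℕ)) +
      (83606044622643 / 40960000000) * (a ^ (0 : ℕ) * (4 / 9 - a) ^ (6 : ℕ)) * (t ^ (1 : ℕ) * (1 - t) ^ (2 : ℕ)) +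
      (17228604557619 / 10240000000) * (a ^ (0 : ℕ) * (4 / 9 - a) ^ (6 : ℕ)) * (t ^ (2 : ℕ) * (1 - t) ^ (1 : ℕ)) +
      (13702203355833 / 40960000000) * (a ^ (0 : ℕ) * (4 / 9 - a) ^ (6 : ℕ)) * (t ^ (3 : ℕ) * (1 - t) ^ (0 : ℕ)) +
      (40448950176627 / 10240000000) * (a ^ (1 : ℕ) * (4 / 9 - a) ^ (5 : ℕ)) * (t ^ (0 : ℕ) * (1 - t) ^ (3 : ℕ)) +
      (478791617409308583 / 40960000000000) * (a ^ (1 : ℕ) * (4 / 9 - a) ^ (5 : ℕ)) * (t ^ (1 : ℕ) * (1 - t) ^ (2 : ℕ)) +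
      (96612291397737189 / 10240000000000) * (a ^ (1 : ℕ) * (4 / 9 - a) ^ (5 : ℕ)) * (t ^ (2 : ℕ) * (1 - t) ^ (1 : ℕ)) +
      (352303649711437923 / 204800000000000) * (a ^ (1 : ℕ) * (4 / 9 - a) ^ (5 : ℕ)) * (t ^ (3 : ℕ) * (1 - t) ^ (0 : ℕ)) +
      (18970945869627 / 2048000000) * (a ^ (2 : ℕ) * (4 / 9 - a) ^ (4 : ℕ)) * (t ^ (0 : ℕ) * (1 - t) ^ (3 : ℕ)) +
      (5650225948350368343 / 204800000000000) * (a ^ (2 : ℕ) * (4 / 9 - a) ^ (4 : ℕ)) * (t ^ (1 : ℕ) * (1 - t) ^ (2 : ℕ)) +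
      (4450926643009308387 / 204800000000000) * (a ^ (2 : ℕ) * (4 / 9 - a) ^ (4 : ℕ)) * (t ^ (2 : ℕ) * (1 - t) ^ (1 : ℕ)) +
      (362472483297349679949 / 102400000000000000) * (a ^ (2 : ℕ) * (4 / 9 - a) ^ (4 : ℕ)) * (t ^ (3 : ℕ) * (1 - t) ^ (0 : ℕ)) +
      (11706304933611 / 1024000000) * (a ^ (3 : ℕ) * (4 / 9 - a) ^ (3 : ℕ)) * (t ^ (0 : ℕ) * (1 - t) ^ (3 : ℕ)) +
      (3515306678593083711 / 102400000000000) * (a ^ (3 : ℕ) * (4 / 9 - a) ^ (3 : ℕ)) * (t ^ (1 : ℕ) * (1 - t) ^ (2 : ℕ)) +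
      (53833254568845130827 / 2048000000000000) * (a ^ (3 : ℕ) * (4 / 9 - a) ^ (3 : ℕ)) * (t ^ (2 : ℕ) * (1 - t) ^ (1 : ℕ)) +
      (1879574149310956185537 / 512000000000000000) * (a ^ (3 : ℕ) * (4 / 9 - a) ^ (3 : ℕ)) * (t ^ (3 : ℕ) * (1 - t) ^ (0 : ℕ)) +
      (8007341213079 / 1024000000) * (a ^ (4 : ℕ) * (4 / 9 - a) ^ (2 : ℕ)) * (t ^ (0 : ℕ) * (1 - t) ^ (3 : ℕ)) +
      (2429602976059795539 / 102400000000000) * (a ^ (4 : ℕ) * (4 / 9 - a) ^ (2 : ℕ)) * (t ^ (1 : ℕ) * (1 - t) ^ (2 : ℕ)) +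
      (179888964820061455953 / 10240000000000000) * (a ^ (4 : ℕ) * (4 / 9 - a) ^ (2 : ℕ)) * (t ^ (2 : ℕ) * (1 - t) ^ (1 : ℕ)) +
      (5011080417650802010617 / 2560000000000000000) * (a ^ (4 : ℕ) * (4 / 9 - a) ^ (2 : ℕ)) * (t ^ (3 : ℕ) * (1 - t) ^ (0 : ℕ)) +
      (5744517476931 / 2048000000) * (a ^ (5 : ℕ) * (4 / 9 - a) ^ (1 : ℕ)) * (t ^ (0 : ℕ) * (1 - t) ^ (3 : ℕ)) +
      (1765866529528728687 / 204800000000000) * (a ^ (5 : ℕ) * (4 / 9 - a) ^ (1 : ℕ)) * (t ^ (1 : ℕ) * (1 - t) ^ (2 : ℕ)) +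
      (313867774815591083553 / 51200000000000000) * (a ^ (5 : ℕ) * (4 / 9 - a) ^ (1 : ℕ)) * (t ^ (2 : ℕ) * (1 - t) ^ (1 : ℕ)) +
      (5974214666314945076919 / 12800000000000000000) * (a ^ (5 : ℕ) * (4 / 9 - a) ^ (1 : ℕ)) * (t ^ (3 : ℕ) * (1 - t) ^ (0 : ℕ)) +
      (4207987981467 / 10240000000) * (a ^ (6 : ℕ) * (4 / 9 - a) ^ (0 : ℕ)) * (t ^ (0 : ℕ) * (1 - t) ^ (3 : ℕ)) +
      (262975850178264603 / 204800000000000) * (a ^ (6 : ℕ) * (4 / 9 - a) ^ (0 : ℕ)) * (t ^ (1 : ℕ) * (1 - t) ^ (2 : ℕ)) +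
      (44441088384675922713 / 51200000000000000) * (a ^ (6 : ℕ) * (4 / 9 - a) ^ (0 : ℕ)) * (t ^ (2 : ℕ) * (1 - t) ^ (1 : ℕ)) +
      (168162901155847666419 / 6400000000000000000) * (a ^ (6 : ℕ) * (4 / 9 - a) ^ (0 : ℕ)) * (t ^ (3 : ℕ) * (1 - t) ^ (0 : ℕ)) := by
    unfold fV
    ring
  linarith

/-- `4 ≤ x ≤ 5` -/
theorem lv4 {a t : ℝ} (h0 : 2 / 3 ≤ a) (h1 : a ≤ 4 / 5) (t0 : 0 ≤ t) (t1 : t ≤ 1) :
    451 / 1000 ≤ a * fV (728 / 1000) (8695 / 10000) a ((1145 / 1000 + 17065 / 10000 * a) * t) := by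
  have h2 : 0 ≤ 4 / 5 - a := by linarith only [h1]
  have h3 : 0 ≤ a - 2 / 3 := by linarith only [h0]
  have h4 : 0 ≤ 1 - t := by linarith only [t1]
  have h5 : 0 ≤ (44319825 / 256) * ((a - 2 / 3) ^ (0 : ℕ) * (4 / 5 - a) ^ (6 : ℕ)) * (t ^ (0 : ℕ) * (1 - t) ^ (3 : ℕ)) +
      (363877713 / 640) * ((a - 2 / 3) ^ (0 : ℕ) * (4 / 5 - a) ^ (6 : ℕ)) * (t ^ (1 : ℕ) * (1 - t) ^ (2 : ℕ)) +
      (13030604181 / 32000) * ((a - 2 / 3) ^ (0 : ℕ) * (4 / 5 - a) ^ (6 : ℕ)) * (t ^ (2 : ℕ) * (1 - t) ^ (1 : ℕ)) +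
      (1480419829 / 50000) * ((a - 2 / 3) ^ (0 : ℕ) * (4 / 5 - a) ^ (6 : ℕ)) * (t ^ (3 : ℕ) * (1 - t) ^ (0 : ℕ)) +
      (552444705 / 512) * ((a - 2 / 3) ^ (1 : ℕ) * (4 / 5 - a) ^ (5 : ℕ)) * (t ^ (0 : ℕ) * (1 - t) ^ (3 : ℕ)) +
      (1461250022013 / 409600) * ((a - 2 / 3) ^ (1 : ℕ) * (4 / 5 - a) ^ (5 : ℕ)) * (t ^ (1 : ℕ) * (1 - t) ^ (2 : ℕ)) +
      (12999866839917 / 5120000) * ((a - 2 / 3) ^ (1 : ℕ) * (4 / 5 - a) ^ (5 : ℕ)) * (t ^ (2 : ℕ) * (1 - t) ^ (1 : ℕ)) +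
      (216703819633329 / 1280000000) * ((a - 2 / 3) ^ (1 : ℕ) * (4 / 5 - a) ^ (5 : ℕ)) * (t ^ (3 : ℕ) * (1 - t) ^ (0 : ℕ)) +
      (1430621595 / 512) * ((a - 2 / 3) ^ (2 : ℕ) * (4 / 5 - a) ^ (4 : ℕ)) * (t ^ (0 : ℕ) * (1 - t) ^ (3 : ℕ)) +
      (9529558585137 / 1024000) * ((a - 2 / 3) ^ (2 : ℕ) * (4 / 5 - a) ^ (4 : ℕ)) * (t ^ (1 : ℕ) * (1 - t) ^ (2 : ℕ)) +
      (2694240865001523 / 409600000) * ((a - 2 / 3) ^ (2 : ℕ) * (4 / 5 - a) ^ (4 : ℕ)) * (t ^ (2 : ℕ) * (1 - t) ^ (1 : ℕ)) +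
      (4043918846194203 / 10240000000) * ((a - 2 / 3) ^ (2 : ℕ) * (4 / 5 - a) ^ (4 : ℕ)) * (t ^ (3 : ℕ) * (1 - t) ^ (0 : ℕ)) +
      (985322259 / 256) * ((a - 2 / 3) ^ (3 : ℕ) * (4 / 5 - a) ^ (3 : ℕ)) * (t ^ (0 : ℕ) * (1 - t) ^ (3 : ℕ)) +
      (2646174716487 / 204800) * ((a - 2 / 3) ^ (3 : ℕ) * (4 / 5 - a) ^ (3 : ℕ)) * (t ^ (1 : ℕ) * (1 - t) ^ (2 : ℕ)) +
      (18563861039215977 / 2048000000) * ((a - 2 / 3) ^ (3 : ℕ) * (4 / 5 - a) ^ (3 : ℕ)) * (t ^ (2 : ℕ) * (1 - t) ^ (1 : ℕ)) +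
      (98024631853879107 / 204800000000) * ((a - 2 / 3) ^ (3 : ℕ) * (4 / 5 - a) ^ (3 : ℕ)) * (t ^ (3 : ℕ) * (1 - t) ^ (0 : ℕ)) +
      (380764071 / 128) * ((a - 2 / 3) ^ (4 : ℕ) * (4 / 5 - a) ^ (2 : ℕ)) * (t ^ (0 : ℕ) * (1 - t) ^ (3 : ℕ)) +
      (2578372115877 / 256000) * ((a - 2 / 3) ^ (4 : ℕ) * (4 / 5 - a) ^ (2 : ℕ)) * (t ^ (1 : ℕ) * (1 - t) ^ (2 : ℕ)) +
      (35886305532590379 / 5120000000) * ((a - 2 / 3) ^ (4 : ℕ) * (4 / 5 - a) ^ (2 : ℕ)) * (t ^ (2 : ℕ) * (1 - t) ^ (1 : ℕ)) +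
      (3228796562125149 / 10240000000) * ((a - 2 / 3) ^ (4 : ℕ) * (4 / 5 - a) ^ (2 : ℕ)) * (t ^ (3 : ℕ) * (1 - t) ^ (0 : ℕ)) +
      (626279769 / 512) * ((a - 2 / 3) ^ (5 : ℕ) * (4 / 5 - a) ^ (1 : ℕ)) * (t ^ (0 : ℕ) * (1 - t) ^ (3 : ℕ)) +
      (8560382579793 / 2048000) * ((a - 2 / 3) ^ (5 : ℕ) * (4 / 5 - a) ^ (1 : ℕ)) * (t ^ (1 : ℕ) * (1 - t) ^ (2 : ℕ)) +
      (36914353365871431 / 12800000000) * ((a - 2 / 3) ^ (5 : ℕ) * (4 / 5 - a) ^ (1 : ℕ)) * (t ^ (2 : ℕ) * (1 - t) ^ (1 : ℕ)) +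
      (135069310519842339 / 1280000000000) * ((a - 2 / 3) ^ (5 : ℕ) * (4 / 5 - a) ^ (1 : ℕ)) * (t ^ (3 : ℕ) * (1 - t) ^ (0 : ℕ)) +
      (107051463 / 512) * ((a - 2 / 3) ^ (6 : ℕ) * (4 / 5 - a) ^ (0 : ℕ)) * (t ^ (0 : ℕ) * (1 - t) ^ (3 : ℕ)) +
      (738938537919 / 1024000) * ((a - 2 / 3) ^ (6 : ℕ) * (4 / 5 - a) ^ (0 : ℕ)) * (t ^ (1 : ℕ) * (1 - t) ^ (2 : ℕ)) +
      (3157559712795123 / 6400000000) * ((a - 2 / 3) ^ (6 : ℕ) * (4 / 5 - a) ^ (0 : ℕ)) * (t ^ (2 : ℕ) * (1 - t) ^ (1 : ℕ)) +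
      (27248233436127657 / 2000000000000) * ((a - 2 / 3) ^ (6 : ℕ) * (4 / 5 - a) ^ (0 : ℕ)) * (t ^ (3 : ℕ) * (1 - t) ^ (0 : ℕ)) := by (clear * - t1 t0 h0 h1; positivity)
  have e : a * fV (728 / 1000) (8695 / 10000) a ((1145 / 1000 + 17065 / 10000 * a) * t) - 451 / 1000 = (44319825 / 256) * ((a - 2 / 3) ^ (0 : ℕ) * (4 / 5 - a) ^ (6 : ℕ)) * (t ^ (0 : ℕ) * (1 - t) ^ (3 : ℕ)) +
      (363877713 / 640) * ((a - 2 / 3) ^ (0 : ℕ) * (4 / 5 - a) ^ (6 : ℕ)) * (t ^ (1 : ℕ) * (1 - t) ^ (2 : ℕ)) +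
      (13030604181 / 32000) * ((a - 2 / 3) ^ (0 : ℕ) * (4 / 5 - a) ^ (6 : ℕ)) * (t ^ (2 : ℕ) * (1 - t) ^ (1 : ℕ)) +
      (1480419829 / 50000) * ((a - 2 / 3) ^ (0 : ℕ) * (4 / 5 - a) ^ (6 : ℕ)) * (t ^ (3 : ℕ) * (1 - t) ^ (0 : ℕ)) +
      (552444705 / 512) * ((a - 2 / 3) ^ (1 : ℕ) * (4 / 5 - a) ^ (5 : ℕ)) * (t ^ (0 : ℕ) * (1 - t) ^ (3 : ℕ)) +
      (1461250022013 / 409600) * ((a - 2 / 3) ^ (1 : ℕ) * (4 / 5 - a) ^ (5 : ℕ)) * (t ^ (1 : ℕ) * (1 - t) ^ (2 : ℕ)) +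
      (12999866839917 / 5120000) * ((a - 2 / 3) ^ (1 : ℕ) * (4 / 5 - a) ^ (5 : ℕ)) * (t ^ (2 : ℕ) * (1 - t) ^ (1 : ℕ)) +
      (216703819633329 / 1280000000) * ((a - 2 / 3) ^ (1 : ℕ) * (4 / 5 - a) ^ (5 : ℕ)) * (t ^ (3 : ℕ) * (1 - t) ^ (0 : ℕ)) +
      (1430621595 / 512) * ((a - 2 / 3) ^ (2 : ℕ) * (4 / 5 - a) ^ (4 : ℕ)) * (t ^ (0 : ℕ) * (1 - t) ^ (3 : ℕ)) +
      (9529558585137 / 1024000) * ((a - 2 / 3) ^ (2 : ℕ) * (4 / 5 - a) ^ (4 : ℕ)) * (t ^ (1 : ℕ) * (1 - t) ^ (2 : ℕ)) +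
      (2694240865001523 / 409600000) * ((a - 2 / 3) ^ (2 : ℕ) * (4 / 5 - a) ^ (4 : ℕ)) * (t ^ (2 : ℕ) * (1 - t) ^ (1 : ℕ)) +
      (4043918846194203 / 10240000000) * ((a - 2 / 3) ^ (2 : ℕ) * (4 / 5 - a) ^ (4 : ℕ)) * (t ^ (3 : ℕ) * (1 - t) ^ (0 : ℕ)) +
      (985322259 / 256) * ((a - 2 / 3) ^ (3 : ℕ) * (4 / 5 - a) ^ (3 : ℕ)) * (t ^ (0 : ℕ) * (1 - t) ^ (3 : ℕ)) +
      (2646174716487 / 204800) * ((a - 2 / 3) ^ (3 : ℕ) * (4 / 5 - a) ^ (3 : ℕ)) * (t ^ (1 : ℕ) * (1 - t) ^ (2 : ℕ)) +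
      (18563861039215977 / 2048000000) * ((a - 2 / 3) ^ (3 : ℕ) * (4 / 5 - a) ^ (3 : ℕ)) * (t ^ (2 : ℕ) * (1 - t) ^ (1 : ℕ)) +
      (98024631853879107 / 204800000000) * ((a - 2 / 3) ^ (3 : ℕ) * (4 / 5 - a) ^ (3 : ℕ)) * (t ^ (3 : ℕ) * (1 - t) ^ (0 : ℕ)) +
      (380764071 / 128) * ((a - 2 / 3) ^ (4 : ℕ) * (4 / 5 - a) ^ (2 : ℕ)) * (t ^ (0 : ℕ) * (1 - t) ^ (3 : ℕ)) +
      (2578372115877 / 256000) * ((a - 2 / 3) ^ (4 : ℕ) * (4 / 5 - a) ^ (2 : ℕ)) * (t ^ (1 : ℕ) * (1 - t) ^ (2 : ℕ)) +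
      (35886305532590379 / 5120000000) * ((a - 2 / 3) ^ (4 : ℕ) * (4 / 5 - a) ^ (2 : ℕ)) * (t ^ (2 : ℕ) * (1 - t) ^ (1 : ℕ)) +
      (3228796562125149 / 10240000000) * ((a - 2 / 3) ^ (4 : ℕ) * (4 / 5 - a) ^ (2 : ℕ)) * (t ^ (3 : ℕ) * (1 - t) ^ (0 : ℕ)) +
      (626279769 / 512) * ((a - 2 / 3) ^ (5 : ℕ) * (4 / 5 - a) ^ (1 : ℕ)) * (t ^ (0 : ℕ) * (1 - t) ^ (3 : ℕ)) +
      (8560382579793 / 2048000) * ((a - 2 / 3) ^ (5 : ℕ) * (4 / 5 - a) ^ (1 : ℕ)) * (t ^ (1 : ℕ) * (1 - t) ^ (2 : ℕ)) +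
      (36914353365871431 / 12800000000) * ((a - 2 / 3) ^ (5 : ℕ) * (4 / 5 - a) ^ (1 : ℕ)) * (t ^ (2 : ℕ) * (1 - t) ^ (1 : ℕ)) +
      (135069310519842339 / 1280000000000) * ((a - 2 / 3) ^ (5 : ℕ) * (4 / 5 - a) ^ (1 : ℕ)) * (t ^ (3 : ℕ) * (1 - t) ^ (0 : ℕ)) +
      (107051463 / 512) * ((a - 2 / 3) ^ (6 : ℕ) * (4 / 5 - a) ^ (0 : ℕ)) * (t ^ (0 : ℕ) * (1 - t) ^ (3 : ℕ)) +
      (738938537919 / 1024000) * ((a - 2 / 3) ^ (6 : ℕ) * (4 / 5 - a) ^ (0 : ℕ)) * (t ^ (1 : ℕ) * (1 - t) ^ (2 : ℕ)) +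
      (3157559712795123 / 6400000000) * ((a - 2 / 3) ^ (6 : ℕ) * (4 / 5 - a) ^ (0 : ℕ)) * (t ^ (2 : ℕ) * (1 - t) ^ (1 : ℕ)) +
      (27248233436127657 / 2000000000000) * ((a - 2 / 3) ^ (6 : ℕ) * (4 / 5 - a) ^ (0 : ℕ)) * (t ^ (3 : ℕ) * (1 - t) ^ (0 : ℕ)) := by
    unfold fV
    ring
  linarith

/-- `3 ≤ x ≤ 4`, `n = 53/100 t` -/
theorem lv3 {a t : ℝ} (h0 : 4 / 5 ≤ a) (h1 : a ≤ 1) (t0 : 0 ≤ t) (t1 : t ≤ 1) :
    902 / 10000 * (4 - a) * (1 - 7 / 10 * (53 / 100 * t)) ≤ 41887 / 10000 * a * (a - 53 / 100 * t) - (2 - a / 3) * (53 / 100 * t) ^ (2 : ℕ) - (a - 53 / 100 * t) ^ (2 : ℕ) * ((4 - a) / 2 * (1 - 7 / 10 * (53 / 100 * t)) + 1133 / 1000 * a ^ (2 : ℕ)) := by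
  have h2 : 0 ≤ 1 - a := by linarith only [h1]
  have h3 : 0 ≤ a - 4 / 5 := by linarith only [h0]
  have h4 : 0 ≤ 1 - t := by linarith only [t1]
  have h5 : 0 ≤ (70629 / 125) * ((a - 4 / 5) ^ (0 : ℕ) * (1 - a) ^ (4 : ℕ)) * (t ^ (0 : ℕ) * (1 - t) ^ (3 : ℕ)) +
      (848709 / 400) * ((a - 4 / 5) ^ (0 : ℕ) * (1 - a) ^ (4 : ℕ)) * (t ^ (1 : ℕ) * (1 - t) ^ (2 : ℕ)) +
      (114099659 / 75000) * ((a - 4 / 5) ^ (0 : ℕ) * (1 - a) ^ (4 : ℕ)) * (t ^ (2 : ℕ) * (1 - t) ^ (1 : ℕ)) +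
      (1290041 / 18750) * ((a - 4 / 5) ^ (0 : ℕ) * (1 - a) ^ (4 : ℕ)) * (t ^ (3 : ℕ) * (1 - t) ^ (0 : ℕ)) +
      (507819 / 200) * ((a - 4 / 5) ^ (1 : ℕ) * (1 - a) ^ (3 : ℕ)) * (t ^ (0 : ℕ) * (1 - t) ^ (3 : ℕ)) +
      (47967109 / 5000) * ((a - 4 / 5) ^ (1 : ℕ) * (1 - a) ^ (3 : ℕ)) * (t ^ (1 : ℕ) * (1 - t) ^ (2 : ℕ)) +
      (2210309167 / 300000) * ((a - 4 / 5) ^ (1 : ℕ) * (1 - a) ^ (3 : ℕ)) * (t ^ (2 : ℕ) * (1 - t) ^ (1 : ℕ)) +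
      (1736910371 / 2400000) * ((a - 4 / 5) ^ (1 : ℕ) * (1 - a) ^ (3 : ℕ)) * (t ^ (3 : ℕ) * (1 - t) ^ (0 : ℕ)) +
      (1681217 / 400) * ((a - 4 / 5) ^ (2 : ℕ) * (1 - a) ^ (2 : ℕ)) * (t ^ (0 : ℕ) * (1 - t) ^ (3 : ℕ)) +
      (160437077 / 10000) * ((a - 4 / 5) ^ (2 : ℕ) * (1 - a) ^ (2 : ℕ)) * (t ^ (1 : ℕ) * (1 - t) ^ (2 : ℕ)) +
      (5212953723 / 400000) * ((a - 4 / 5) ^ (2 : ℕ) * (1 - a) ^ (2 : ℕ)) * (t ^ (2 : ℕ) * (1 - t) ^ (1 : ℕ)) +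
      (1437969921 / 800000) * ((a - 4 / 5) ^ (2 : ℕ) * (1 - a) ^ (2 : ℕ)) * (t ^ (3 : ℕ) * (1 - t) ^ (0 : ℕ)) +
      (30333 / 10) * ((a - 4 / 5) ^ (3 : ℕ) * (1 - a) ^ (1 : ℕ)) * (t ^ (0 : ℕ) * (1 - t) ^ (3 : ℕ)) +
      (58762167 / 5000) * ((a - 4 / 5) ^ (3 : ℕ) * (1 - a) ^ (1 : ℕ)) * (t ^ (1 : ℕ) * (1 - t) ^ (2 : ℕ)) +
      (1201231547 / 120000) * ((a - 4 / 5) ^ (3 : ℕ) * (1 - a) ^ (1 : ℕ)) * (t ^ (2 : ℕ) * (1 - t) ^ (1 : ℕ)) +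
      (810453593 / 480000) * ((a - 4 / 5) ^ (3 : ℕ) * (1 - a) ^ (1 : ℕ)) * (t ^ (3 : ℕ) * (1 - t) ^ (0 : ℕ)) +
      (12851 / 16) * ((a - 4 / 5) ^ (4 : ℕ) * (1 - a) ^ (0 : ℕ)) * (t ^ (0 : ℕ) * (1 - t) ^ (3 : ℕ)) +
      (397122 / 125) * ((a - 4 / 5) ^ (4 : ℕ) * (1 - a) ^ (0 : ℕ)) * (t ^ (1 : ℕ) * (1 - t) ^ (2 : ℕ)) +
      (27080141 / 9600) * ((a - 4 / 5) ^ (4 : ℕ) * (1 - a) ^ (0 : ℕ)) * (t ^ (2 : ℕ) * (1 - t) ^ (1 : ℕ)) +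
      (10459393 / 19200) * ((a - 4 / 5) ^ (4 : ℕ) * (1 - a) ^ (0 : ℕ)) * (t ^ (3 : ℕ) * (1 - t) ^ (0 : ℕ)) := by (clear * - t1 t0 h0 h1; positivity)
  have e : 41887 / 10000 * a * (a - 53 / 100 * t) - (2 - a / 3) * (53 / 100 * t) ^ (2 : ℕ) - (a - 53 / 100 * t) ^ (2 : ℕ) * ((4 - a) / 2 * (1 - 7 / 10 * (53 / 100 * t)) + 1133 / 1000 * a ^ (2 : ℕ)) - 902 / 10000 * (4 - a) * (1 - 7 / 10 * (53 / 100 * t)) = (70629 / 125) * ((a - 4 / 5) ^ (0 : ℕ) * (1 - a) ^ (4 : ℕ)) * (t ^ (0 : ℕ) * (1 - t) ^ (3 : ℕ)) +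
      (848709 / 400) * ((a - 4 / 5) ^ (0 : ℕ) * (1 - a) ^ (4 : ℕ)) * (t ^ (1 : ℕ) * (1 - t) ^ (2 : ℕ)) +
      (114099659 / 75000) * ((a - 4 / 5) ^ (0 : ℕ) * (1 - a) ^ (4 : ℕ)) * (t ^ (2 : ℕ) * (1 - t) ^ (1 : ℕ)) +
      (1290041 / 18750) * ((a - 4 / 5) ^ (0 : ℕ) * (1 - a) ^ (4 : ℕ)) * (t ^ (3 : ℕ) * (1 - t) ^ (0 : ℕ)) +
      (507819 / 200) * ((a - 4 / 5) ^ (1 : ℕ) * (1 - a) ^ (3 : ℕ)) * (t ^ (0 : ℕ) * (1 - t) ^ (3 : ℕ)) +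
      (47967109 / 5000) * ((a - 4 / 5) ^ (1 : ℕ) * (1 - a) ^ (3 : ℕ)) * (t ^ (1 : ℕ) * (1 - t) ^ (2 : ℕ)) +
      (2210309167 / 300000) * ((a - 4 / 5) ^ (1 : ℕ) * (1 - a) ^ (3 : ℕ)) * (t ^ (2 : ℕ) * (1 - t) ^ (1 : ℕ)) +
      (1736910371 / 2400000) * ((a - 4 / 5) ^ (1 : ℕ) * (1 - a) ^ (3 : ℕ)) * (t ^ (3 : ℕ) * (1 - t) ^ (0 : ℕ)) +
      (1681217 / 400) * ((a - 4 / 5) ^ (2 : ℕ) * (1 - a) ^ (2 : ℕ)) * (t ^ (0 : ℕ) * (1 - t) ^ (3 : ℕ)) +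
      (160437077 / 10000) * ((a - 4 / 5) ^ (2 : ℕ) * (1 - a) ^ (2 : ℕ)) * (t ^ (1 : ℕ) * (1 - t) ^ (2 : ℕ)) +
      (5212953723 / 400000) * ((a - 4 / 5) ^ (2 : ℕ) * (1 - a) ^ (2 : ℕ)) * (t ^ (2 : ℕ) * (1 - t) ^ (1 : ℕ)) +
      (1437969921 / 800000) * ((a - 4 / 5) ^ (2 : ℕ) * (1 - a) ^ (2 : ℕ)) * (t ^ (3 : ℕ) * (1 - t) ^ (0 : ℕ)) +
      (30333 / 10) * ((a - 4 / 5) ^ (3 : ℕ) * (1 - a) ^ (1 : ℕ)) * (t ^ (0 : ℕ) * (1 - t) ^ (3 : ℕ)) +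
      (58762167 / 5000) * ((a - 4 / 5) ^ (3 : ℕ) * (1 - a) ^ (1 : ℕ)) * (t ^ (1 : ℕ) * (1 - t) ^ (2 : ℕ)) +
      (1201231547 / 120000) * ((a - 4 / 5) ^ (3 : ℕ) * (1 - a) ^ (1 : ℕ)) * (t ^ (2 : ℕ) * (1 - t) ^ (1 : ℕ)) +
      (810453593 / 480000) * ((a - 4 / 5) ^ (3 : ℕ) * (1 - a) ^ (1 : ℕ)) * (t ^ (3 : ℕ) * (1 - t) ^ (0 : ℕ)) +
      (12851 / 16) * ((a - 4 / 5) ^ (4 : ℕ) * (1 - a) ^ (0 : ℕ)) * (t ^ (0 : ℕ) * (1 - t) ^ (3 : ℕ)) +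
      (397122 / 125) * ((a - 4 / 5) ^ (4 : ℕ) * (1 - a) ^ (0 : ℕ)) * (t ^ (1 : ℕ) * (1 - t) ^ (2 : ℕ)) +
      (27080141 / 9600) * ((a - 4 / 5) ^ (4 : ℕ) * (1 - a) ^ (0 : ℕ)) * (t ^ (2 : ℕ) * (1 - t) ^ (1 : ℕ)) +
      (10459393 / 19200) * ((a - 4 / 5) ^ (4 : ℕ) * (1 - a) ^ (0 : ℕ)) * (t ^ (3 : ℕ) * (1 - t) ^ (0 : ℕ)) := by
    ring
  linarith only [h5]

end SokamV3O

end

/-! ### Lib_MP_af4de1_q.QRegA -/

section
namespace SokamFU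
end SokamFU
/-!
# Position of the saddle points, `9/2 ≤ ρ ≤ 8` [FQ-2a]

`s = σ + y`, `a² + s² = ρ² e^(2a)` (`Sad.sq`), `s ≤ ρ e^a`, `Sad.pos_facts` (all in `MReg`).
-/

set_option autoImplicit false

namespace SokamQ

open Real SokamFU

variable {ρ y a σ : ℝ}

private theorem qra_E_pos (h1 : 9 / 2 ≤ ρ) : 0 < ρ * exp a := mul_pos (by linarith) (exp_pos a)

private theorem qra_half_pi (H : Sad ρ y a σ) (h1 : 9 / 2 ≤ ρ) (ha : a ≤ 0) : π / 2 ≤ σ := by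
  by_contra hc
  push Not at hc
  have h3 : 0 < ρ * exp a := qra_E_pos h1
  have h4 : 0 < cos σ := cos_pos_of_mem_Ioo ⟨by linarith [H.σ0, pi_pos], hc⟩
  have h5 := mul_pos h3 h4
  rw [H.C] at h5
  linarith

private theorem qra_s_le (H : Sad ρ y a σ) (h1 : 9 / 2 ≤ ρ) : σ + y ≤ ρ * exp a := by
  rw [← H.S]
  have h3 : 0 < ρ * exp a := qra_E_pos h1
  calc ρ * exp a * sin σ ≤ ρ * exp a * 1 := mul_le_mul_of_nonneg_left (sin_le_one σ) h3.le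
    _ = ρ * exp a := mul_one _

/-- `ρ cos σ = a e^(-a)` -/
private theorem qra_cos (H : Sad ρ y a σ) : ρ * cos σ = a * exp (-a) := by
  have h4 : ρ * exp a * cos σ * exp (-a) = ρ * cos σ := by
    have : exp a * exp (-a) = 1 := by rw [← exp_add, add_neg_cancel, exp_zero]
    calc ρ * exp a * cos σ * exp (-a) = ρ * cos σ * (exp a * exp (-a)) := by ring
      _ = _ := by rw [this, mul_one]
  rw [← h4, H.C]

private theorem qra_aexp (a : ℝ) : a * exp (-a) ≤ 36789 / 100000 := by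
  have h4 : a ≤ exp a * exp (-1) := by
    rw [← exp_add]
    have := add_one_le_exp (a + -1)
    linarith
  have h5 : exp (-1) ≤ 36789 / 100000 := by
    have h6 := exp_one_gt_d9
    rw [exp_neg]
    rw [inv_le_comm₀ (exp_pos 1) (by norm_num)]
    norm_num at h6 ⊢
    linarith
  have h6 : exp a * exp (-a) = 1 := by rw [← exp_add, add_neg_cancel, exp_zero]
  have h7 := exp_pos (-a)
  calc a * exp (-a) ≤ exp a * exp (-1) * exp (-a) := mul_le_mul_of_nonneg_right h4 h7.le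
    _ = exp (-1) * (exp a * exp (-a)) := by ring
    _ = exp (-1) := by rw [h6, mul_one]
    _ ≤ _ := h5

/-- `cos σ = a e^(-a)/ρ ≤ 1/(e ρ) ≤ .0818`, `cos σ ≥ 1 - (2/π) σ`, so `σ ≥ 1.44`; `sin σ ≥ .9966`; `a = ρ e^a cos σ ≤ .0818 ρ e^a`,
`s = ρ e^a sin σ`, so `a ≤ s/12`. -/
theorem posQ (H : Sad ρ y a σ) (h1 : 9 / 2 ≤ ρ) (ha : 0 ≤ a) :
    144 / 100 ≤ σ ∧ σ ≤ π / 2 ∧ a ≤ (σ + y) / 12 ∧ ρ * exp a ≤ 1004 / 1000 * (σ + y) := by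
  have hE : 0 < ρ * exp a := qra_E_pos h1
  obtain ⟨-, hσ, -, -, -, -⟩ := H.pos_facts (by linarith) ha
  have hc0 : 0 ≤ cos σ := cos_nonneg_of_mem_Icc ⟨by linarith [H.σ0, pi_pos], hσ⟩
  have hc : cos σ ≤ 8176 / 100000 := by
    have h2 := qra_cos H
    have h3 := qra_aexp a
    nlinarith only [h1, h2, h3]
  have hs0 := sin_nonneg_of_nonneg_of_le_pi H.σ0 H.σπ
  have hs : 9966 / 10000 ≤ sin σ := by
    have h2 := sin_sq_add_cos_sq σ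
    by_contra hn
    push Not at hn
    nlinarith only [hc0, hc, hs0, h2, hn]
  have h5 : 9966 / 10000 * (ρ * exp a) ≤ σ + y := by
    rw [← H.S]
    nlinarith only [hE, hs]
  refine ⟨?_, hσ, ?_, by linarith⟩
  · by_contra hn
    push Not at hn
    have h2 : cos (144 / 100) < cos σ :=
      cos_lt_cos_of_nonneg_of_le_pi H.σ0 (by linarith [pi_gt_d2]) hn
    have h3 : sin (13 / 100) ≤ cos (144 / 100) := by
      rw [← sin_pi_div_two_sub]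
      refine sin_le_sin_of_le_of_le_pi_div_two (by linarith [pi_gt_d2]) (by linarith [pi_gt_d2]) ?_
      linarith [pi_gt_d4]
    have h4 := sin_ge_sub_cube (x := 13 / 100) (by norm_num)
    norm_num at h4
    linarith
  · have h2 := H.C
    nlinarith only [hE, hc, h5, h2]

/-- `a ≤ 0`: `σ ≥ π/2`; else `posQ`. -/
theorem sigQ (H : Sad ρ y a σ) (h1 : 9 / 2 ≤ ρ) : 144 / 100 ≤ σ := by
  rcases le_total a 0 with h | h
  · have := qra_half_pi H h1 h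
    linarith [pi_gt_d2]
  · exact (posQ H h1 h).1

/-- right saddle: if `a < 1/5`: `a ≤ 0` gives `σ ≥ π/2`, `s ≤ ρ`, `y ≤ ρ - π/2`; `0 < a < 1/5`: `s ≤ ρ e^(1/5) ≤ 1.2215 ρ`, so `σ = s - y ≤ .2215 ρ - 1/4 ≤ 1.522`,
but `cos σ = a e^(-a)/ρ ≤ .1638/ρ` and `σ ≥ (π/2)(1 - .1638/ρ)` which is `≥ 1.538` at `ρ = 8`, `≥ 1.5136` always, and `.2215·7 - .25 = 1.3005`.
`s = σ + y ≥ 1.44 + 4.75`, `s ≤ π/2 + ρ + 1/4 + 2π ≤ 16.11`. -/
theorem rightQ (H : Sad ρ y a σ) (h1 : 9 / 2 ≤ ρ) (h2 : ρ ≤ 8) (hy : ρ + 1 / 4 ≤ y)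
    (hy' : y ≤ ρ + 1 / 4 + 2 * π) : 1 / 5 ≤ a ∧ 6 ≤ σ + y ∧ σ + y ≤ 1615 / 100 := by
  have hs := qra_s_le H h1
  have ha : 0 < a := by
    by_contra hc
    push Not at hc
    have h3 := qra_half_pi H h1 hc
    have h4 : exp a ≤ 1 := exp_le_one_iff.2 hc
    have h5 : ρ * exp a ≤ ρ * 1 := mul_le_mul_of_nonneg_left h4 (by linarith)
    linarith [pi_gt_d2]
  obtain ⟨g1, g2, g3, g4⟩ := posQ H h1 ha.le
  refine ⟨?_, by linarith, by linarith [pi_lt_d4]⟩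
  by_contra hc
  push Not at hc
  -- `e^a ≤ 1.2215`
  have h3 : exp a ≤ 12215 / 10000 := by
    refine (exp_le_exp.2 hc.le).trans ?_
    have h4 := Real.exp_bound' (x := 1 / 5) (by norm_num) (by norm_num) (n := 5) (by norm_num)
    refine h4.trans ?_
    norm_num [Finset.sum_range_succ, Nat.factorial]
  have h4 : ρ * exp a ≤ ρ * (12215 / 10000) := mul_le_mul_of_nonneg_left h3 (by linarith)
  -- `a e^(-a) ≤ .1645`
  have h5 : a * exp (-a) ≤ 1645 / 10000 := by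
    have h6 := quadratic_le_exp_of_nonneg ha.le
    have h7 : exp a * exp (-a) = 1 := by rw [← exp_add, add_neg_cancel, exp_zero]
    have h8 := exp_pos (-a)
    have h9 : (1 + a + a ^ (2 : ℕ) / 2) * exp (-a) ≤ 1 := by
      have h11 := mul_le_mul_of_nonneg_right h6 h8.le
      linarith
    have h10 : a ≤ 1645 / 10000 * (1 + a + a ^ (2 : ℕ) / 2) := by nlinarith only [mul_nonneg ha.le (sub_nonneg.2 hc.le)]
    calc a * exp (-a) ≤ 1645 / 10000 * (1 + a + a ^ (2 : ℕ) / 2) * exp (-a) := mul_le_mul_of_nonneg_right h10 h8.le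
      _ = 1645 / 10000 * ((1 + a + a ^ (2 : ℕ) / 2) * exp (-a)) := by ring
      _ ≤ 1645 / 10000 * 1 := mul_le_mul_of_nonneg_left h9 (by norm_num)
      _ = _ := mul_one _
  -- `ρ (π/2 - σ) ≤ (π/2) a e^(-a)`
  have h6 : π / 2 - σ ≤ π / 2 * cos σ := by
    have h7 := mul_le_sin (x := π / 2 - σ) (by linarith) (by linarith [H.σ0])
    rw [sin_pi_div_two_sub] at h7
    have hπ := pi_pos
    have h8 : π / 2 * (2 / π * (π / 2 - σ)) = π / 2 - σ := by field_simp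
    have h9 := mul_le_mul_of_nonneg_left h7 (by positivity : 0 ≤ π / 2)
    rwa [h8] at h9
  have h7 : ρ * (π / 2 - σ) ≤ π / 2 * (1645 / 10000) := by
    have h8 := mul_le_mul_of_nonneg_left h6 (by linarith : 0 ≤ ρ)
    have h9 : ρ * (π / 2 * cos σ) = π / 2 * (ρ * cos σ) := by ring
    rw [h9, qra_cos H] at h8
    exact h8.trans (mul_le_mul_of_nonneg_left h5 (by linarith [pi_pos]))
  have h8 : σ ≤ 2215 / 10000 * ρ - 1 / 4 := by linarith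
  have hπ1 := pi_gt_d4
  have hπ2 := pi_lt_d4
  have h9 : ρ * (15707 / 10000 - (2215 / 10000 * ρ - 1 / 4)) ≤ ρ * (π / 2 - σ) :=
    mul_le_mul_of_nonneg_left (by linarith) (by linarith)
  nlinarith only [h7, hπ2, h9, mul_nonneg (sub_nonneg.2 h1) (sub_nonneg.2 h2)]

end SokamQ

end

/-! ### Lib_MP_af4de1_q.QRegB -/

section
namespace SokamFU
end SokamFU
/-!
# Position of the saddle points, `9/2 ≤ ρ ≤ 8` [FQ-2b]

`s = σ + y`, `a² + s² = ρ² e^(2a)` (`Sad.sq`), `s ≤ ρ e^a`, `Sad.pos_facts` (all in `MReg`).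
-/

set_option autoImplicit false

namespace SokamQ

open Real SokamFU

variable {ρ y a σ : ℝ}

private theorem E_pos_qb (h1 : 9 / 2 ≤ ρ) : 0 < ρ * exp a :=
  mul_pos (by linarith only [h1]) (exp_pos a)

private theorem exp_two_qb (a : ℝ) : exp (2 * a) = exp a ^ (2 : ℕ) := by
  rw [← exp_nat_mul]
  norm_num

private theorem exp_lb_qb {x l : ℝ} (hx : 0 ≤ x)
    (h : l ≤ 1 + x + x ^ (2 : ℕ) / 2 + x ^ (3 : ℕ) / 6 + x ^ (4 : ℕ) / 24 + x ^ (5 : ℕ) / 120) : l ≤ exp x := by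
  refine h.trans ?_
  have h1 := Real.sum_le_exp_of_nonneg hx 6
  simp only [Finset.sum_range_succ, Finset.sum_range_zero, Nat.factorial] at h1
  norm_num at h1
  linarith only [h1]

private theorem exp_cubic_qb {x : ℝ} (h0 : -1 ≤ x) (h1 : x ≤ 0) :
    1 + x + x ^ (2 : ℕ) / 2 + x ^ (3 : ℕ) / 6 ≤ exp x := by
  have h := Real.exp_bound (x := x) (abs_le.2 ⟨h0, by linarith only [h1]⟩) (n := 5) (by norm_num)
  simp only [Finset.sum_range_succ, Finset.sum_range_zero, Nat.factorial] at h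
  norm_num at h
  have h2 := (abs_le.1 h).1
  rw [abs_of_nonpos h1] at h2
  have h3 : (-x) ^ (5 : ℕ) ≤ x ^ (4 : ℕ) := by
    have h4 : (-x) ^ (5 : ℕ) = x ^ (4 : ℕ) * (-x) := by ring
    rw [h4]
    exact mul_le_of_le_one_right (by (clear * -; positivity)) (by linarith only [h0])
  have h6 : 0 ≤ x ^ (4 : ℕ) := by (clear * -; positivity)
  linarith only [h2, h3, h6]

private theorem left1_qb (H : Sad ρ y a σ) (h1 : 9 / 2 ≤ ρ) (hy : ρ + 1 / 4 - 2 * π ≤ y) :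
    -(6 / 5) ≤ a := by
  by_contra hc
  push Not at hc
  have hE := E_pos_qb (a := a) h1
  -- `e^(6/5) ≥ 3.31`
  have e1 : 331 / 100 ≤ exp (6 / 5) := exp_lb_qb (by norm_num) (by norm_num)
  have e2 : exp (6 / 5) ≤ exp (-a) := exp_le_exp.2 (by linarith only [hc])
  have e3 : exp a * exp (-a) = 1 := by rw [← exp_add, add_neg_cancel, exp_zero]
  have ea := exp_pos a
  have e4 : exp a ≤ 100 / 331 := by
    have h2 : exp a * (331 / 100) ≤ exp a * exp (-a) :=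
      mul_le_mul_of_nonneg_left (e1.trans e2) ea.le
    rw [e3] at h2
    linarith only [h2]
  -- `ρ cos σ = a e^(-a) ≤ -3.972`
  have hC : ρ * cos σ ≤ -(3972 / 1000) := by
    have h2 : ρ * cos σ = a * exp (-a) := by
      calc ρ * cos σ = ρ * exp a * cos σ * exp (-a) := by
            calc ρ * cos σ = ρ * cos σ * (exp a * exp (-a)) := by rw [e3, mul_one]
              _ = _ := by ring
        _ = a * exp (-a) := by rw [H.C]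
    rw [h2]
    have h3 : (6 / 5 : ℝ) * (331 / 100) ≤ -a * exp (-a) :=
      mul_le_mul (by linarith only [hc]) (e1.trans e2) (by norm_num) (by linarith only [hc])
    norm_num at h3
    linarith only [h3]
  have hρ : 0 < ρ := by linarith only [h1]
  have hs0 : 0 ≤ σ + y := H.s_nonneg (by linarith only [h1])
  -- `s² ≤ .0913 (ρ² - 15.77)`
  have hS : (σ + y) ^ (2 : ℕ) ≤ (100 / 331) ^ (2 : ℕ) * (ρ ^ (2 : ℕ) - (3972 / 1000) ^ (2 : ℕ)) := by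
    have h2 : (σ + y) ^ (2 : ℕ) = exp a ^ (2 : ℕ) * (ρ ^ (2 : ℕ) - (ρ * cos σ) ^ (2 : ℕ)) := by
      have h3 := sin_sq_add_cos_sq σ
      rw [← H.S]
      have h4 : sin σ ^ (2 : ℕ) = 1 - cos σ ^ (2 : ℕ) := by linarith only [h3]
      calc (ρ * exp a * sin σ) ^ (2 : ℕ) = exp a ^ (2 : ℕ) * (ρ ^ (2 : ℕ) * sin σ ^ (2 : ℕ)) := by ring
        _ = _ := by rw [h4]; ring
    have h5 : (3972 / 1000) ^ (2 : ℕ) ≤ (ρ * cos σ) ^ (2 : ℕ) := by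
      rw [← neg_sq (ρ * cos σ)]
      exact pow_le_pow_left₀ (by norm_num) (by linarith only [hC]) 2
    have h6 : exp a ^ (2 : ℕ) ≤ (100 / 331) ^ (2 : ℕ) := pow_le_pow_left₀ ea.le e4 2
    have h7 : 0 ≤ ρ ^ (2 : ℕ) - (3972 / 1000) ^ (2 : ℕ) :=
      sub_nonneg.2 (pow_le_pow_left₀ (by norm_num) (by linarith only [h1]) 2)
    rw [h2]
    calc exp a ^ (2 : ℕ) * (ρ ^ (2 : ℕ) - (ρ * cos σ) ^ (2 : ℕ)) ≤ exp a ^ (2 : ℕ) * (ρ ^ (2 : ℕ) - (3972 / 1000) ^ (2 : ℕ)) :=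
          mul_le_mul_of_nonneg_left (by linarith only [h5]) (by positivity)
      _ ≤ _ := mul_le_mul_of_nonneg_right h6 h7
  -- `σ ≥ π/2 + 3.972/ρ`
  have hcos : cos σ ≤ 0 := by
    by_contra h2
    push Not at h2
    have := mul_pos hρ h2
    linarith only [hC, this]
  have hσ : π / 2 ≤ σ := by
    by_contra h2
    push Not at h2
    have h3 : 0 < cos σ := cos_pos_of_mem_Ioo ⟨by linarith only [h2, H.σ0], h2⟩
    linarith only [hcos, h3]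
  have hτ : 3972 / 1000 ≤ ρ * (σ - π / 2) := by
    have h2 : sin (σ - π / 2) ≤ σ - π / 2 := sin_le (by linarith only [hσ])
    rw [sin_sub_pi_div_two] at h2
    have h3 := mul_le_mul_of_nonneg_left h2 hρ.le
    linarith only [hC, h3]
  have hπ := pi_lt_d4
  obtain ⟨τ, hτd⟩ : ∃ τ, τ = σ - π / 2 := ⟨_, rfl⟩
  obtain ⟨s, hs⟩ : ∃ s, s = σ + y := ⟨_, rfl⟩
  rw [← hτd] at hτ
  rw [← hs] at hS hs0
  have h2 : ρ - 44624 / 10000 + τ ≤ s := by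
    rw [hs, hτd]
    linarith only [hy, hπ]
  have hτ0 : 0 ≤ τ := by
    rw [hτd]
    linarith only [hσ]
  have h3 : 17824 / 10000 ≤ 2 / 10 * ρ + τ := by
    by_contra h4
    push Not at h4
    have h5 : (2 / 10 * ρ + τ) ^ (2 : ℕ) < (17824 / 10000) ^ (2 : ℕ) :=
      pow_lt_pow_left₀ h4 (by (clear * - h1 hτ0; positivity)) two_ne_zero
    have h6 : (2 / 10 * ρ + τ) ^ (2 : ℕ) = (2 / 10 * ρ - τ) ^ (2 : ℕ) + 8 / 10 * (ρ * τ) := by ring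
    norm_num at h5
    linarith only [hτ, h5, sq_nonneg (2 / 10 * ρ - τ)]
  have h5 : 8 / 10 * ρ - 268 / 100 ≤ s := by linarith only [h2, h3]
  have h6 : 0 ≤ 8 / 10 * ρ - 268 / 100 := by linarith only [h1]
  have h7 : (8 / 10 * ρ - 268 / 100) ^ (2 : ℕ) ≤ s ^ (2 : ℕ) := pow_le_pow_left₀ h6 h5 2
  linarith only [hS, h6, h7, sq_nonneg (ρ - 391 / 100)]

private theorem left2_qb (H : Sad ρ y a σ) (h1 : 9 / 2 ≤ ρ) (hy : ρ + 1 / 4 - 2 * π ≤ y) :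
    4 / 5 ≤ σ + y := by
  by_contra hc
  push Not at hc
  have ha6 := left1_qb H h1 hy
  have hE := E_pos_qb (a := a) h1
  have ha0 : a < 0 := by
    by_contra h2
    push Not at h2
    have h3 := (H.pos_facts (by linarith only [h1]) h2).2.2.2.1
    linarith only [hc, h3]
  have hs0 : 0 ≤ σ + y := H.s_nonneg (by linarith only [h1])
  have ha11 : a < -(11 / 10) := by
    by_contra h2
    push Not at h2
    have h3 := H.sq
    have h4 : exp (2 * (-(11 / 10))) ≤ exp (2 * a) := exp_le_exp.2 (by linarith only [h2])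
    have h5 : 10 / 94 ≤ exp (2 * (-(11 / 10))) := by
      have h6 : exp (11 / 10) ≤ 306 / 100 := by
        have h7 : exp (11 / 10) = exp 1 * exp (1 / 10) := by
          rw [← exp_add]
          norm_num
        have h8 := exp_one_lt_d9
        have h9 : exp (1 / 10) ≤ 1106 / 1000 := by
          have h10 := Real.exp_bound' (x := 1 / 10) (by norm_num) (by norm_num) (n := 3) (by norm_num)
          simp only [Finset.sum_range_succ, Finset.sum_range_zero, Nat.factorial] at h10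
          norm_num at h10
          linarith only [h10]
        rw [h7]
        have h11 := exp_pos (1 / 10)
        have h12 : exp 1 * exp (1 / 10) ≤ 272 / 100 * (1106 / 1000) :=
          mul_le_mul (by linarith only [h8]) h9 h11.le (by norm_num)
        norm_num at h12
        linarith only [h12]
      have h12 : exp (2 * (-(11 / 10))) * (exp (11 / 10)) ^ (2 : ℕ) = 1 := by
        rw [← exp_nat_mul, ← exp_add]
        norm_num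
      have h13 : (exp (11 / 10)) ^ (2 : ℕ) ≤ (306 / 100) ^ (2 : ℕ) :=
        pow_le_pow_left₀ (exp_pos _).le h6 2
      have h14 := exp_pos (2 * (-(11 / 10)) : ℝ)
      have h15 := mul_le_mul_of_nonneg_left h13 h14.le
      rw [h12] at h15
      linarith only [h15]
    have h15 : 81 / 4 ≤ ρ ^ (2 : ℕ) := by
      have := pow_le_pow_left₀ (by norm_num) h1 2
      linarith only [this]
    have h16 : 81 / 4 * (10 / 94) ≤ ρ ^ (2 : ℕ) * exp (2 * a) :=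
      mul_le_mul h15 (h5.trans h4) (by norm_num) (by positivity)
    have h17 : a ^ (2 : ℕ) ≤ (11 / 10) ^ (2 : ℕ) := by
      rw [← neg_sq a]
      exact pow_le_pow_left₀ (by linarith only [ha0]) (by linarith only [h2]) 2
    have h18 : (σ + y) ^ (2 : ℕ) ≤ (4 / 5) ^ (2 : ℕ) := pow_le_pow_left₀ hs0 hc.le 2
    norm_num at h16 h17 h18
    linarith only [h3, h16, h17, h18]
  -- `t = π - σ`
  have ht0 : 0 ≤ π - σ := by linarith only [H.σπ]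
  have ht : (π - σ) * (-a) ≤ σ + y := by
    rcases ht0.eq_or_lt with h2 | h2
    · rw [← h2, zero_mul]
      exact hs0
    · have hcos : cos σ < 0 := by
        by_contra h3
        push Not at h3
        have := mul_nonneg hE.le h3
        rw [H.C] at this
        linarith only [ha11, this]
      have h4 : π - σ < π / 2 := by
        by_contra h5
        push Not at h5
        have h6 : 0 ≤ cos σ := cos_nonneg_of_mem_Icc ⟨by linarith only [h5, H.σ0], by linarith only [h5]⟩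
        linarith only [hcos, h6]
      have h7 := lt_tan h2 h4
      rw [tan_eq_sin_div_cos, sin_pi_sub, cos_pi_sub, lt_div_iff₀ (by linarith only [hcos])] at h7
      have h8 := mul_lt_mul_of_pos_left h7 hE
      have h9 : ρ * exp a * ((π - σ) * -cos σ) = (π - σ) * (-(ρ * exp a * cos σ)) := by ring
      rw [h9, H.C, H.S] at h8
      exact h8.le
  have hπ1 := pi_gt_d4
  have hπ2 := pi_lt_d4
  have h10 : (π - σ) * (11 / 10) ≤ (π - σ) * (-a) := mul_le_mul_of_nonneg_left (by linarith only [ha11]) ht0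
  linarith only [h1, hy, hc, ht, hπ2, h10]

/-- `a ≥ -6/5`: if `a < -6/5`: `a e^(-a) ≤ -(6/5) e^(6/5) ≤ -3.972`, `cos σ ≤ -3.984/ρ`, `s ≤ ρ e^(-6/5) sin σ`, `s² ≤ .0908 (ρ² - 15.87)`, `σ ≥ π/2 + 3.984/ρ`
(`arccos(-x) ≥ π/2 + x`); `y = s - σ < ρ + 1/4 - 2π` (at `ρ = 9/2`: `.630 - 1.571 - .885 = -1.826 < -1.533`; the difference grows with `ρ`).
`s ≥ 4/5`: if `s < 4/5`, then `a < 0`; `|a| ≤ 1.1` would give `a² + s² ≤ 1.85 < 2.24 ≤ ρ² e^(-2.2)`; so `|a| ≥ 1.1` and, with `t = π - σ ∈ [0, π/2)`,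
`t ≤ tan t = s/|a| ≤ 8/11`, `y = s - π + t ≤ -1.614 < -1.5333`. -/
theorem leftQ (H : Sad ρ y a σ) (h1 : 9 / 2 ≤ ρ) (h2 : ρ ≤ 8) (hy : ρ + 1 / 4 - 2 * π ≤ y) :
    -(6 / 5) ≤ a ∧ 4 / 5 ≤ σ + y :=
  ⟨left1_qb H h1 hy, left2_qb H h1 hy⟩

/-- `s² = ρ² e^(2a) - a² ≥ ρ² (1+a)²` for `-6/5 ≤ a` (`e^(2a) - (1+a)² ≥ a²/20.25`; e.g. from `e^(2a) ≥ 1+2a+2a²+4a³/3` and, for `a ≤ -2/3`, `(1+a)² ≤ 1/9`),
`ρ ≥ 9/2`, `s ≥ 0`. -/
theorem lineQ (H : Sad ρ y a σ) (h1 : 9 / 2 ≤ ρ) (ha : -(6 / 5) ≤ a) : a ≤ 2 / 9 * (σ + y) - 1 := by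
  have hs0 : 0 ≤ σ + y := H.s_nonneg (by linarith only [h1])
  rcases le_total a (-1) with h2 | h2
  · linarith only [hs0, h2]
  · have hsq := H.sq
    rw [exp_two_qb] at hsq
    obtain ⟨s, hs⟩ : ∃ s, s = σ + y := ⟨_, rfl⟩
    rw [← hs] at hs0 hsq ⊢
    have hρ2 : 81 / 4 ≤ ρ ^ (2 : ℕ) := by
      have := pow_le_pow_left₀ (by norm_num) h1 2
      linarith only [this]
    -- `(1+a)² + a²/20.25 ≤ e^(2a)`
    have key : (1 + a) ^ (2 : ℕ) + a ^ (2 : ℕ) * (4 / 81) ≤ exp a ^ (2 : ℕ) := by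
      rcases le_total a 0 with h3 | h3
      · have h4 := exp_cubic_qb h2 h3
        obtain ⟨P, hP⟩ : ∃ P, P = 1 + a + a ^ (2 : ℕ) / 2 + a ^ (3 : ℕ) / 6 := ⟨_, rfl⟩
        rw [← hP] at h4
        have h5 : 1 / 3 ≤ 1 / 2 + a / 6 := by linarith only [h2]
        have h6 : 1 / 3 ≤ 2 + 2 * a + a ^ (2 : ℕ) / 2 + a ^ (3 : ℕ) / 6 := by
          have h7 : 2 + 2 * a + a ^ (2 : ℕ) / 2 + a ^ (3 : ℕ) / 6 - 1 / 3 =
              (a + 1) * (5 / 3 + a / 3 + a ^ (2 : ℕ) / 6) := by ring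
          have h8 : 0 ≤ (a + 1) * (5 / 3 + a / 3 + a ^ (2 : ℕ) / 6) :=
            mul_nonneg (by linarith only [h5]) (by linarith only [h5, sq_nonneg a])
          linarith only [h8]
        have h9 : 1 / 3 * (1 / 3) ≤ (1 / 2 + a / 6) * (2 + 2 * a + a ^ (2 : ℕ) / 2 + a ^ (3 : ℕ) / 6) :=
          mul_le_mul h5 h6 (by norm_num) (by linarith only [h5])
        have h10 : P ^ (2 : ℕ) - (1 + a) ^ (2 : ℕ) =
            a ^ (2 : ℕ) * ((1 / 2 + a / 6) * (2 + 2 * a + a ^ (2 : ℕ) / 2 + a ^ (3 : ℕ) / 6)) := by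
          rw [hP]
          ring
        have h11 : a ^ (2 : ℕ) * (1 / 3 * (1 / 3)) ≤
            a ^ (2 : ℕ) * ((1 / 2 + a / 6) * (2 + 2 * a + a ^ (2 : ℕ) / 2 + a ^ (3 : ℕ) / 6)) :=
          mul_le_mul_of_nonneg_left h9 (sq_nonneg a)
        have hP0 : 0 ≤ P := by
          have h12 : P = (1 + a) + a ^ (2 : ℕ) * (1 / 2 + a / 6) := by
            rw [hP]
            ring
          rw [h12]
          have := mul_nonneg (sq_nonneg a) (by linarith : (0 : ℝ) ≤ 1 / 2 + a / 6)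
          linarith only [h6, this]
        have h13 : P ^ (2 : ℕ) ≤ exp a ^ (2 : ℕ) := pow_le_pow_left₀ hP0 h4 2
        rw [← h10] at h11
        linarith only [h11, h13, sq_nonneg a]
      · have h4 := quadratic_le_exp_of_nonneg h3
        have h5 : (1 + a + a ^ (2 : ℕ) / 2) ^ (2 : ℕ) ≤ exp a ^ (2 : ℕ) :=
          pow_le_pow_left₀ (by (clear * - h3; positivity)) h4 2
        have h6 : 0 ≤ a ^ (3 : ℕ) := by (clear * - h3; positivity)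
        have h7 : (1 + a + a ^ (2 : ℕ) / 2) ^ (2 : ℕ) = (1 + a) ^ (2 : ℕ) + a ^ (2 : ℕ) + a ^ (3 : ℕ) + (a ^ (2 : ℕ)) ^ (2 : ℕ) / 4 := by ring
        linarith only [h5, h6, sq_nonneg a, sq_nonneg (a ^ (2 : ℕ))]
    have h3 : (9 / 2 * (1 + a)) ^ (2 : ℕ) ≤ s ^ (2 : ℕ) := by
      have h4 : s ^ (2 : ℕ) = ρ ^ (2 : ℕ) * exp a ^ (2 : ℕ) - a ^ (2 : ℕ) := by linarith only [hsq]
      have h5 : 81 / 4 * ((1 + a) ^ (2 : ℕ) + a ^ (2 : ℕ) * (4 / 81)) ≤ ρ ^ (2 : ℕ) * exp a ^ (2 : ℕ) :=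
        mul_le_mul hρ2 key (by (clear * -; positivity)) (by positivity)
      rw [h4]
      have h6 : (9 / 2 * (1 + a)) ^ (2 : ℕ) + a ^ (2 : ℕ) = 81 / 4 * ((1 + a) ^ (2 : ℕ) + a ^ (2 : ℕ) * (4 / 81)) := by ring
      linarith only [h5]
    have h4 : 9 / 2 * (1 + a) ≤ s := le_of_sq_le_sq h3 hs0
    linarith only [h4]

/-- left saddle, `y ≤ ρ + 1/4`: if `a ≤ 0`: `s ≤ ρ`.  If `a > 0`: `σ ≤ π/2`, `s ≤ ρ + 1.8208`; `ρ e^a ≤ s + a²/(2s)`, `s ≥ ρ`, `e^a ≥ 1+a+a²/2`: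
`ρ a + (ρ/2 - 1/9) a² ≤ 1.8208`; then `a ≤ 7/20`, and `a + .0384 s ≤ a + .0384 ρ + .0700 ≤ .5907`
(at `a = .5207 - .0384 ρ` the left side of the quadratic inequality is `≥ 1.8225` for `9/2 ≤ ρ ≤ 8`; it is concave in `ρ` there). -/
theorem topQ (H : Sad ρ y a σ) (h1 : 9 / 2 ≤ ρ) (h2 : ρ ≤ 8) (hy : y ≤ ρ + 1 / 4) :
    σ + y ≤ 983 / 100 ∧ a + 24 / 625 * (σ + y) ≤ 5907 / 10000 := by
  have hρ : 0 < ρ := by linarith only [h1, h2]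
  have hπ := pi_lt_d4
  rcases le_total a 0 with h3 | h3
  · have h4 : σ + y ≤ 8 := by
      have h5 : exp a ≤ 1 := exp_le_one_iff.2 h3
      have h6 := sin_le_one σ
      have h7 : ρ * exp a * sin σ ≤ ρ * exp a * 1 := mul_le_mul_of_nonneg_left h6 (E_pos_qb h1).le
      have h8 : ρ * exp a ≤ ρ * 1 := mul_le_mul_of_nonneg_left h5 hρ.le
      rw [H.S] at h7
      linarith only [h2, h7, h8]
    exact ⟨by linarith only [h4], by linarith only [h3, h4]⟩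
  · obtain ⟨g1, g2, g3, g4, g5, g6⟩ := H.pos_facts (by linarith only [h1]) h3
    have hsc : σ + y ≤ ρ + 18208 / 10000 := by linarith only [hy, hπ, g2]
    refine ⟨by linarith only [h2, hsc], ?_⟩
    by_contra hc
    push Not at hc
    have hsq := H.sq
    rw [exp_two_qb] at hsq
    obtain ⟨s, hs⟩ : ∃ s, s = σ + y := ⟨_, rfl⟩
    rw [← hs] at hsc hc hsq g4
    have hq := quadratic_le_exp_of_nonneg h3
    obtain ⟨E, hE⟩ : ∃ E, E = ρ * exp a := ⟨_, rfl⟩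
    have hsq2 : a ^ (2 : ℕ) + s ^ (2 : ℕ) = E ^ (2 : ℕ) := by
      rw [hsq, hE]
      ring
    have hE1 : ρ * (1 + a + a ^ (2 : ℕ) / 2) ≤ E := by
      rw [hE]
      exact mul_le_mul_of_nonneg_left hq hρ.le
    -- `s ≥ ρ`
    have hsρ : ρ ≤ s := by
      by_contra h4
      push Not at h4
      have h5 : ρ ^ (2 : ℕ) * (1 + a + a ^ (2 : ℕ) / 2) ^ (2 : ℕ) ≤ E ^ (2 : ℕ) := by
        rw [← mul_pow]
        exact pow_le_pow_left₀ (by (clear * - h1 h3; positivity)) hE1 2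
      have h6 : s ^ (2 : ℕ) < ρ ^ (2 : ℕ) := pow_lt_pow_left₀ h4 (by linarith only [g4]) two_ne_zero
      have h7 : ρ ^ (2 : ℕ) * (1 + a ^ (2 : ℕ)) ≤ ρ ^ (2 : ℕ) * (1 + a + a ^ (2 : ℕ) / 2) ^ (2 : ℕ) := by
        refine mul_le_mul_of_nonneg_left ?_ (by (clear * - h1; positivity))
        have : 0 ≤ a ^ (3 : ℕ) := by (clear * - h3; positivity)
        have h8 : (1 + a + a ^ (2 : ℕ) / 2) ^ (2 : ℕ) = 1 + a ^ (2 : ℕ) + (2 * a + a ^ (2 : ℕ) + a ^ (3 : ℕ) + (a ^ (2 : ℕ)) ^ (2 : ℕ) / 4) := by ring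
        linarith only [h3, this, sq_nonneg (a ^ (2 : ℕ)), sq_nonneg a]
      have h8 : a ^ (2 : ℕ) ≤ ρ ^ (2 : ℕ) * a ^ (2 : ℕ) :=
        le_mul_of_one_le_left (sq_nonneg a) (one_le_pow₀ (by linarith only [h1]))
      have h9 : ρ ^ (2 : ℕ) * (1 + a ^ (2 : ℕ)) = ρ ^ (2 : ℕ) + ρ ^ (2 : ℕ) * a ^ (2 : ℕ) := by ring
      linarith only [hsq2, h5, h6, h7, h8]
    have hE2 : E ≤ s + a ^ (2 : ℕ) / 9 := by
      by_contra h4
      push Not at h4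
      have h5 : 0 ≤ s + a ^ (2 : ℕ) / 9 := by (clear * - g4; positivity)
      have h6 : (s + a ^ (2 : ℕ) / 9) ^ (2 : ℕ) < E ^ (2 : ℕ) := pow_lt_pow_left₀ h4 h5 (by norm_num)
      have h7 := mul_le_mul_of_nonneg_right (h1.trans hsρ) (sq_nonneg a)
      have h8 : (s + a ^ (2 : ℕ) / 9) ^ (2 : ℕ) = s ^ (2 : ℕ) + 2 / 9 * (s * a ^ (2 : ℕ)) + (a ^ (2 : ℕ)) ^ (2 : ℕ) / 81 := by ring
      linarith only [hsq2, h6, h7, sq_nonneg (a ^ (2 : ℕ))]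
    have h4 : ρ * a + (ρ / 2 - 1 / 9) * a ^ (2 : ℕ) ≤ 18208 / 10000 := by
      have h5 : ρ * (1 + a + a ^ (2 : ℕ) / 2) = ρ + ρ * a + ρ / 2 * a ^ (2 : ℕ) := by ring
      rw [h5] at hE1
      have h6 : (ρ / 2 - 1 / 9) * a ^ (2 : ℕ) = ρ / 2 * a ^ (2 : ℕ) - a ^ (2 : ℕ) / 9 := by ring
      linarith only [hsc, hE1, hE2]
    obtain ⟨b, hb⟩ : ∃ b, b = 5207 / 10000 - 384 / 10000 * ρ := ⟨_, rfl⟩
    have hba : b ≤ a := by
      rw [hb]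
      linarith only [hc, hsc]
    have hb0 : 0 ≤ b := by
      rw [hb]
      linarith only [h2]
    have h5 : ρ * b + (ρ / 2 - 1 / 9) * b ^ (2 : ℕ) ≤ 18208 / 10000 := by
      have h6 : ρ * b ≤ ρ * a := mul_le_mul_of_nonneg_left hba hρ.le
      have h7 : b ^ (2 : ℕ) ≤ a ^ (2 : ℕ) := pow_le_pow_left₀ hb0 hba 2
      have h8 : (ρ / 2 - 1 / 9) * b ^ (2 : ℕ) ≤ (ρ / 2 - 1 / 9) * a ^ (2 : ℕ) :=
        mul_le_mul_of_nonneg_left h7 (by linarith only [h1])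
      linarith only [h4, h6, h8]
    obtain ⟨d, hd⟩ : ∃ d, d = ρ - 9 / 2 := ⟨_, rfl⟩
    have hd0 : 0 ≤ d := by linarith only [h1, hd]
    have hd1 : d ≤ 7 / 2 := by linarith only [h2, hd]
    have hρd : ρ = 9 / 2 + d := by linarith only [hd]
    rw [hb, hρd] at h5
    have h6 : 0 ≤ d * (7 / 2 - d) := mul_nonneg hd0 (by linarith only [hd1])
    have h7 : 0 ≤ d ^ (3 : ℕ) := by (clear * - hd0; positivity)
    have h8 : (9 / 2 + d) * (5207 / 10000 - 384 / 10000 * (9 / 2 + d)) +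
        ((9 / 2 + d) / 2 - 1 / 9) * (5207 / 10000 - 384 / 10000 * (9 / 2 + d)) ^ (2 : ℕ) =
        18208 / 10000 + 13064957 / 3600000000 + 107081299 / 600000000 * d -
          37973 / 781250 * d ^ (2 : ℕ) + 288 / 390625 * d ^ (3 : ℕ) := by
      ring
    rw [h8] at h5
    have h9 : d * (7 / 2 - d) = 7 / 2 * d - d ^ (2 : ℕ) := by ring
    rw [h9] at h6
    linarith only [h5, hd0, h6, h7]

end SokamQ

end
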