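import Pool.Agent.Lib_MP_af4de1_zy.Z01
import Pool.Agent.Lib_MP_af4de1_zy.Z18
import Pool.Agent.Lib_MP_af4de1_zy.Z37

/-! ### Lib_MP_af4de1_v3o.OFR -/

section
namespace SokamF1G
end SokamF1G
set_option autoImplicit false

namespace SokamV3O

open Real SokamF1G

theorem ofr_a_lo {x : ℝ} (h0 : 0 < x) (h : x ≤ 3) : a4 x = 1 := by
  unfold a4
  rw [min_eq_left]
  rw [le_div_iff₀ (by linarith only [h0])]
  linarith only [h]

theorem ofr_a_hi {x : ℝ} (h : 3 ≤ x) : a4 x = 4 / (1 + x) := by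
  unfold a4
  rw [min_eq_right]
  rw [div_le_one (by linarith only [h])]
  linarith only [h]

theorem ofr_k2 {x n z τ k ψ Y : ℝ} (h : Shp x n z τ k ψ Y) : k ^ (2 : ℕ) = x ^ (2 : ℕ) + n ^ (2 : ℕ) := by
  have e := Real.sin_sq_add_cos_sq ψ
  have h1 : x ^ (2 : ℕ) = k ^ (2 : ℕ) * cos ψ ^ (2 : ℕ) := by rw [← mul_pow, ← h.hx]
  have h2 : n ^ (2 : ℕ) = k ^ (2 : ℕ) * sin ψ ^ (2 : ℕ) := by rw [← mul_pow, ← h.hy]
  rw [h1, h2]
  linear_combination -k ^ (2 : ℕ) * e

theorem ofr_psi {x n z τ k ψ Y : ℝ} (h : Shp x n z τ k ψ Y) : n ≤ k * ψ := by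
  have h1 := Real.sin_le h.ψ0
  have h2 := mul_le_mul_of_nonneg_left h1 h.k0.le
  rw [← h.hy] at h2
  exact h2

theorem ofr_exp {u : ℝ} (h0 : 0 ≤ u) (h1 : u ≤ 1) : exp u ≤ 1 + u + 18 / 25 * u ^ (2 : ℕ) := by
  have h := e_le3 h0 h1
  have h3 : u ^ (3 : ℕ) ≤ u ^ (2 : ℕ) := pow_le_pow_of_le_one h0 h1 (by norm_num)
  have h4 : u ^ (4 : ℕ) ≤ u ^ (2 : ℕ) := pow_le_pow_of_le_one h0 h1 (by norm_num)
  have h5 := sq_nonneg u
  linarith only [h, h3, h4, h5]

/-- `x (1 - e^(-n)) ≤ π/2` and the bounds of `ρ` -/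
theorem ofr_n {x n z τ k ψ ρ : ℝ} (h : ShR x n z τ k ψ) (hx : 3 ≤ x) (hρ : ρ = k * exp (-n))
    (hη : ψ + x - ρ ≤ π / 2) : n * (x - 87 / 100) ≤ 1571 / 1000 ∧ ρ ≤ x ∧
      ρ ≤ x * (1 - n) + x * n ^ (2 : ℕ) / 2 + n ^ (2 : ℕ) / 6 ∧ x - 1571 / 1000 ≤ ρ := by
  have hn0 := h.y0
  have hn1 := h.y1
  have hx0 : 0 < x := by linarith only [hx]
  have hk2 := ofr_k2 h
  have hk0 := h.k0
  have hpsi := ofr_psi h
  have hψ0 := h.ψ0
  have hpi := Real.pi_lt_d6
  obtain ⟨q, hq⟩ : ∃ q, q = n ^ (2 : ℕ) / (2 * x) := ⟨_, rfl⟩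
  have hqx : q * x = n ^ (2 : ℕ) / 2 := by
    rw [hq]
    field_simp
  have hq0 : 0 ≤ q := by rw [hq]; positivity
  have hq6 : q ≤ n ^ (2 : ℕ) / 6 := by
    have : q * 3 ≤ q * x := mul_le_mul_of_nonneg_left hx hq0
    linarith only [hqx, this]
  have hkx : k ≤ x + q := by
    refine le_of_sq_le_sq ?_ (by positivity)
    nlinarith only [hk2, hqx, hq0]
  have hnn : n ^ (2 : ℕ) ≤ 53 / 100 * n := by nlinarith only [hn0, hn1]
  have hqn : q ≤ ψ := by
    have h1 : k * q ≤ n := by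
      have h2 : k * q ≤ (x + q) * q := mul_le_mul_of_nonneg_right hkx hq0
      have h3 : q * q ≤ q * 1 := mul_le_mul_of_nonneg_left (by nlinarith only [hq6, hnn]) hq0
      nlinarith only [hqx, hq0, hq6, hnn, h2]
    exact le_of_mul_le_mul_left (h1.trans hpsi) hk0
  have hE2 : exp (-n) ≤ 1 - n + n ^ (2 : ℕ) / 2 := en_le2 hn0
  have hE4 : exp (-n) ≤ 1 - n + n ^ (2 : ℕ) / 2 - n ^ (3 : ℕ) / 6 + n ^ (4 : ℕ) / 24 := en_le4 hn0
  have hE0 := exp_pos (-n)
  have hE1 : exp (-n) ≤ 1 := Real.exp_le_one_iff.2 (by linarith only [hq0, hq6, hnn])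
  have hρ1 : ρ ≤ (x + q) * exp (-n) := by
    rw [hρ]
    exact mul_le_mul_of_nonneg_right hkx hE0.le
  have hqE : q * exp (-n) ≤ q * 1 := mul_le_mul_of_nonneg_left hE1 hq0
  have hxE : x * exp (-n) ≤ x * (1 - n + n ^ (2 : ℕ) / 2) := mul_le_mul_of_nonneg_left hE2 hx0.le
  have hxE4 : x * exp (-n) ≤ x * (1 - n + n ^ (2 : ℕ) / 2 - n ^ (3 : ℕ) / 6 + n ^ (4 : ℕ) / 24) :=
    mul_le_mul_of_nonneg_left hE4 hx0.le
  have r3 : ρ ≤ x * (1 - n) + x * n ^ (2 : ℕ) / 2 + n ^ (2 : ℕ) / 6 := by linarith only [hq6, hρ1, hqE, hxE]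
  refine ⟨?_, ?_, r3, by linarith only [hη, hψ0, hpi]⟩
  · have h5 : x * (n - n ^ (2 : ℕ) / 2 + n ^ (3 : ℕ) / 6 - n ^ (4 : ℕ) / 24) ≤ π / 2 := by linarith only [hη, hqn, hρ1, hqE, hxE4]
    by_contra hc
    push Not at hc
    have hQ : 0 < 1 - n / 2 + n ^ (2 : ℕ) / 6 - n ^ (3 : ℕ) / 24 := by
      have : n ^ (3 : ℕ) ≤ n ^ (2 : ℕ) := pow_le_pow_of_le_one hn0 (by linarith only [hn1]) (by norm_num)
      nlinarith only [this]
    have h6 : (1571 / 1000 + 87 / 100 * n) * (1 - n / 2 + n ^ (2 : ℕ) / 6 - n ^ (3 : ℕ) / 24) ≤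
        (x * n) * (1 - n / 2 + n ^ (2 : ℕ) / 6 - n ^ (3 : ℕ) / 24) := by
      refine mul_le_mul_of_nonneg_right ?_ hQ.le
      linarith only [hc]
    have h7 : 0 ≤ n * (845 / 10000 - 17317 / 100000 * n + 79 / 1000 * n ^ (2 : ℕ) - 37 / 1000 * n ^ (3 : ℕ)) := by
      refine mul_nonneg hn0 ?_
      have : n ^ (3 : ℕ) ≤ 53 / 100 * n ^ (2 : ℕ) := by nlinarith only [hnn]
      nlinarith only [this, sq_nonneg (n - 53 / 100)]
    nlinarith only [hpi, h5, hQ, h6, h7]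
  · have : n ^ (2 : ℕ) * x ≤ 53 / 100 * n * x := mul_le_mul_of_nonneg_right hnn hx0.le
    have h8 : n * 3 ≤ n * x := mul_le_mul_of_nonneg_left hx hn0
    nlinarith only [hnn, r3, h8]

theorem ofr_pA {a p : ℝ} (h0 : 0 ≤ a) (h1 : a ≤ 4 / 9) (hp : p = 4 - 187 / 100 * a) :
    114 / 100 * p ^ (2 : ℕ) ≤ p ^ (2 : ℕ) * (21887 / 10000 + a / 2) -
      1571 / 1000 * (1887 / 10000 + a) * p - 2468041 / 1000000 * (4 - 5 / 6 * a) := by
  have h2 : 0 ≤ 4 / 9 - a := by linarith only [h1]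
  have h3 : 0 ≤ (10426969377 / 160000000) * (a ^ (0 : ℕ) * (4 / 9 - a) ^ (3 : ℕ)) +
      (2207809801719 / 16000000000) * (a ^ (1 : ℕ) * (4 / 9 - a) ^ (2 : ℕ)) +
      (628013837709 / 8000000000) * (a ^ (2 : ℕ) * (4 / 9 - a) ^ (1 : ℕ)) +
      (118890011399 / 16000000000) * (a ^ (3 : ℕ) * (4 / 9 - a) ^ (0 : ℕ)) := by positivity
  have e : p ^ (2 : ℕ) * (21887 / 10000 + a / 2) -
      1571 / 1000 * (1887 / 10000 + a) * p - 2468041 / 1000000 * (4 - 5 / 6 * a) -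
      114 / 100 * p ^ (2 : ℕ) = (10426969377 / 160000000) * (a ^ (0 : ℕ) * (4 / 9 - a) ^ (3 : ℕ)) +
      (2207809801719 / 16000000000) * (a ^ (1 : ℕ) * (4 / 9 - a) ^ (2 : ℕ)) +
      (628013837709 / 8000000000) * (a ^ (2 : ℕ) * (4 / 9 - a) ^ (1 : ℕ)) +
      (118890011399 / 16000000000) * (a ^ (3 : ℕ) * (4 / 9 - a) ^ (0 : ℕ)) := by
    rw [hp]
    ring
  linarith only [h3, e]

theorem ofr_pB {a p : ℝ} (h0 : 4 / 9 ≤ a) (h1 : a ≤ 4 / 5) (hp : p = 4 - 187 / 100 * a) :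
    505 / 1000 * p ^ (2 : ℕ) ≤ a * (p ^ (2 : ℕ) * (21887 / 10000 + a / 2) -
      1571 / 1000 * (1887 / 10000 + a) * p - 2468041 / 1000000 * (4 - 5 / 6 * a)) := by
  have h2 : 0 ≤ 4 / 5 - a := by linarith only [h1]
  have h4 : 0 ≤ a - 4 / 9 := by linarith only [h0]
  have h3 : 0 ≤ (125752992899 / 6553600000) * ((a - 4 / 9) ^ (0 : ℕ) * (4 / 5 - a) ^ (4 : ℕ)) +
      (1931043773673 / 8192000000) * ((a - 4 / 9) ^ (1 : ℕ) * (4 / 5 - a) ^ (3 : ℕ)) +
      (32973103361637 / 81920000000) * ((a - 4 / 9) ^ (2 : ℕ) * (4 / 5 - a) ^ (2 : ℕ)) +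
      (7867791454473 / 40960000000) * ((a - 4 / 9) ^ (3 : ℕ) * (4 / 5 - a) ^ (1 : ℕ)) +
      (1288475793603 / 163840000000) * ((a - 4 / 9) ^ (4 : ℕ) * (4 / 5 - a) ^ (0 : ℕ)) := by positivity
  have e : a * (p ^ (2 : ℕ) * (21887 / 10000 + a / 2) -
      1571 / 1000 * (1887 / 10000 + a) * p - 2468041 / 1000000 * (4 - 5 / 6 * a)) -
      505 / 1000 * p ^ (2 : ℕ) = (125752992899 / 6553600000) * ((a - 4 / 9) ^ (0 : ℕ) * (4 / 5 - a) ^ (4 : ℕ)) +
      (1931043773673 / 8192000000) * ((a - 4 / 9) ^ (1 : ℕ) * (4 / 5 - a) ^ (3 : ℕ)) +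
      (32973103361637 / 81920000000) * ((a - 4 / 9) ^ (2 : ℕ) * (4 / 5 - a) ^ (2 : ℕ)) +
      (7867791454473 / 40960000000) * ((a - 4 / 9) ^ (3 : ℕ) * (4 / 5 - a) ^ (1 : ℕ)) +
      (1288475793603 / 163840000000) * ((a - 4 / 9) ^ (4 : ℕ) * (4 / 5 - a) ^ (0 : ℕ)) := by
    rw [hp]
    ring
  linarith only [h3, e]

/-- lower bound of the level (divided by `r`) -/
noncomputable def ofrV (x n a : ℝ) : ℝ :=
  21887 / 10000 * a + a ^ (2 : ℕ) / 2 - (1887 / 10000 + a) * n - (x + 1 / 6) * n ^ (2 : ℕ)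

theorem ofr_V {x n a : ℝ} (hx : 4 ≤ x) (ha : a * (1 + x) = 4) (hn : 0 ≤ n)
    (hnx : n * (x - 87 / 100) ≤ 1571 / 1000) :
    (8 ≤ x → 114 / 100 * a ≤ ofrV x n a ∧ 3 / 8 * (114 / 100 * a) ≤ a - n) ∧
    (x ≤ 8 → 505 / 1000 ≤ ofrV x n a ∧ 3 / 8 * (505 / 1000) ≤ a - n) := by
  have hx1 : 0 < 1 + x := by linarith only [hx]
  have ha0 : 0 < a := by
    by_contra hc
    push Not at hc
    nlinarith only [ha, hx1, hc]
  have ha1 : a ≤ 4 / 5 := by nlinarith only [hx, ha]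
  obtain ⟨p, hp⟩ : ∃ p, p = 4 - 187 / 100 * a := ⟨_, rfl⟩
  have hp0 : 0 < p := by rw [hp]; linarith only [ha1]
  have hxa : x * a = 4 - a := by linarith only [ha]
  have hnp : n * p ≤ 1571 / 1000 * a := by
    have h1 := mul_le_mul_of_nonneg_right hnx ha0.le
    have e : n * (x - 87 / 100) * a = n * p := by
      rw [hp]
      linear_combination n * hxa
    linarith only [h1, e]
  have hnp0 : 0 ≤ n * p := by positivity
  have hnp2 : (n * p) ^ (2 : ℕ) ≤ (1571 / 1000 * a) ^ (2 : ℕ) := pow_le_pow_left₀ hnp0 hnp 2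
  have key : a ^ (2 : ℕ) * (p ^ (2 : ℕ) * (21887 / 10000 + a / 2) -
      1571 / 1000 * (1887 / 10000 + a) * p - 2468041 / 1000000 * (4 - 5 / 6 * a)) ≤
      a * p ^ (2 : ℕ) * ofrV x n a := by
    have e : a * p ^ (2 : ℕ) * ofrV x n a = a ^ (2 : ℕ) * p ^ (2 : ℕ) * (21887 / 10000 + a / 2) -
        (1887 / 10000 + a) * a * p * (n * p) - (4 - 5 / 6 * a) * (n * p) ^ (2 : ℕ) := by
      unfold ofrV
      linear_combination -(n * p) ^ (2 : ℕ) * hxa
    have h1 : (1887 / 10000 + a) * a * p * (n * p) ≤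
        (1887 / 10000 + a) * a * p * (1571 / 1000 * a) :=
      mul_le_mul_of_nonneg_left hnp (by positivity)
    have h2 : (4 - 5 / 6 * a) * (n * p) ^ (2 : ℕ) ≤ (4 - 5 / 6 * a) * (1571 / 1000 * a) ^ (2 : ℕ) :=
      mul_le_mul_of_nonneg_left hnp2 (by linarith only [ha1])
    rw [e]
    linarith only [h1, h2]
  refine ⟨fun h8 => ?_, fun h8 => ?_⟩
  · have ha2 : a ≤ 4 / 9 := by nlinarith only [hxa, h8]
    have hA := ofr_pA ha0.le ha2 hp
    constructor
    · have h1 : a ^ (2 : ℕ) * (114 / 100 * p ^ (2 : ℕ)) ≤ a * p ^ (2 : ℕ) * ofrV x n a :=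
        (mul_le_mul_of_nonneg_left hA (sq_nonneg a)).trans key
      have h2 : 0 < a * p ^ (2 : ℕ) := by positivity
      refine le_of_mul_le_mul_left ?_ h2
      linarith only [h1]
    · refine le_of_mul_le_mul_right ?_ hp0
      have e : (a - n) * p = a * p - n * p := by ring
      rw [e]
      have h3 : 0 ≤ a * (719 / 1000 - 107065 / 100000 * a) := mul_nonneg ha0.le (by linarith only [ha2])
      rw [hp] at hnp ⊢
      nlinarith only [hnp, h3]
  · have ha2 : 4 / 9 ≤ a := by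
      by_contra hc
      push Not at hc
      nlinarith only [hxa, hnp, hnp0, h8, hc]
    have hB := ofr_pB ha2 ha1 hp
    constructor
    · have h1 : a * (505 / 1000 * p ^ (2 : ℕ)) ≤ a * p ^ (2 : ℕ) * ofrV x n a := by
        refine le_trans ?_ key
        have := mul_le_mul_of_nonneg_left hB ha0.le
        refine this.trans (le_of_eq ?_)
        ring
      have h2 : 0 < a * p ^ (2 : ℕ) := by positivity
      refine le_of_mul_le_mul_left ?_ h2
      linarith only [h1]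
    · refine le_of_mul_le_mul_right ?_ hp0
      have e : (a - n) * p = a * p - n * p := by ring
      rw [e]
      rw [hp] at hnp ⊢
      nlinarith only [hnp, mul_nonneg (sub_nonneg.2 ha2) (sub_nonneg.2 ha1)]

/-- the common level `T` -/
theorem ofr_T {x n z τ k ψ ρ r : ℝ} (h : ShR x n z τ k ψ) (hx : 3 ≤ x) (hρ : ρ = k * exp (-n))
    (hr : 499 / 10 ≤ r) (hR : 27 / 5 * (1 + ρ ^ (2 : ℕ)) ≤ r * (2 * π / 3) ^ (2 : ℕ))
    (hη : ψ + x - ρ ≤ π / 2) {a : ℝ} (ha : a * (1 + x) = 4) :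
    ∃ T, 0 ≤ T ∧ 4 * ρ ≤ r * T ∧ T ≤ ofrV x n a ∧ T ≤ 17 / 10 * a ∧ 3 / 8 * T ≤ a - n := by
  obtain ⟨g1, g2, g3, g4⟩ := ofr_n h hx hρ hη
  have hn0 := h.y0
  have hn1 := h.y1
  have hr0 : 0 < r := by linarith only [hx, hρ, hr]
  have ha0 : 0 < a := by
    by_contra hc
    push Not at hc
    nlinarith only [hx, ha, hc]
  have hr1 : 1231 / 1000 * (1 + ρ ^ (2 : ℕ)) ≤ r := by
    have hp := Real.pi_gt_d6
    have hq := Real.pi_lt_d6
    have h1 : (2 * π / 3) ^ (2 : ℕ) ≤ 4386500 / 1000000 := by nlinarith only [hp, hq]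
    have h2 := mul_le_mul_of_nonneg_left h1 hr0.le
    nlinarith only [hR, h2]
  rcases le_total x 4 with h4 | h4
  · have ha1 : 4 / 5 ≤ a := by
      by_contra hc
      push Not at hc
      nlinarith only [ha, ha0, h4, hc]
    refine ⟨33 / 100, by norm_num, by linarith only [hr, g2, h4], ?_, by linarith only [ha1], by linarith only [hn1, ha1]⟩
    unfold ofrV
    have h5 : (1887 / 10000 + a) * n ≤ (1887 / 10000 + a) * (53 / 100) :=
      mul_le_mul_of_nonneg_left hn1 (by linarith only [ha1])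
    have h6 : n ^ (2 : ℕ) ≤ (53 / 100) ^ (2 : ℕ) := pow_le_pow_left₀ hn0 hn1 2
    have h7 : (x + 1 / 6) * n ^ (2 : ℕ) ≤ (4 + 1 / 6) * (53 / 100) ^ (2 : ℕ) :=
      mul_le_mul (by linarith only [h4]) h6 (sq_nonneg n) (by norm_num)
    nlinarith only [h4, ha1, h5, h6]
  · obtain ⟨v1, v2⟩ := ofr_V h4 ha hn0 g1
    rcases le_total 8 x with h8 | h8
    · obtain ⟨w1, w2⟩ := v1 h8
      refine ⟨114 / 100 * a, by positivity, ?_, w1, by linarith only [ha0], w2⟩
      have hρ0 : 0 < ρ := by linarith only [hx, g4]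
      have h9 : 1231 / 1000 * ρ ^ (2 : ℕ) ≤ r := by linarith only [hr1]
      have h10 : (1231 / 1000 * ρ ^ (2 : ℕ)) * (114 / 100 * a) ≤ r * (114 / 100 * a) :=
        mul_le_mul_of_nonneg_right h9 (by positivity)
      refine le_trans ?_ h10
      have h11 : 4 ≤ 1231 / 1000 * ρ * (114 / 100 * a) := by
        have h12 : 1 + x ≤ 1231 / 1000 * ρ * (114 / 100) := by linarith only [g4, h8]
        have h13 := mul_le_mul_of_nonneg_left h12 ha0.le
        linarith only [ha, h13]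
      have := mul_le_mul_of_nonneg_right h11 hρ0.le
      linarith only [this]
    · obtain ⟨w1, w2⟩ := v2 h8
      have ha2 : 4 / 9 ≤ a := by
        by_contra hc
        push Not at hc
        nlinarith only [ha, g1, h8, w2, hc]
      refine ⟨505 / 1000, by norm_num, ?_, w1, by linarith only [ha2], w2⟩
      nlinarith only [hr, hr1]

/-- level and slope at the lump `2π`, right side, `s > 0` (true `18.4`, `4.37`) -/
theorem fRr {x n z τ k ψ ρ r : ℝ} (h : ShR x n z τ k ψ) (hρ : ρ = k * exp (-n))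
    (hD : 13 / 20 ≤ (1 - n) ^ (2 : ℕ) + x ^ (2 : ℕ)) (hr : 499 / 10 ≤ r)
    (hR : 27 / 5 * (1 + ρ ^ (2 : ℕ)) ≤ r * (2 * π / 3) ^ (2 : ℕ)) (hη : ψ + x - ρ ≤ π / 2) :
    8 * ρ ≤ r * ((a4 x + n) * (2 * π + ψ + τ + z) + x * (1 + a4 x) - exp (a4 x) * k) ∧
      3 / 2 * ρ ≤ r * (a4 x + n) := by
  have hn0 := h.y0
  have hn1 := h.y1
  have hx0 := h.x0
  have hk0 := h.k0
  have hk2 := ofr_k2 h
  have hT := h.T
  have hψ0 := h.ψ0
  have hτ0 := h.τ0
  have hz0 := h.z0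
  have hpi := Real.pi_gt_d6
  have hr0 : 0 < r := by linarith only [hr]
  rcases le_total x 3 with h3 | h3
  · rw [ofr_a_lo hx0 h3]
    have hk : k ≤ x + 2 / 5 * n := by
      refine le_of_sq_le_sq ?_ (by positivity)
      nlinarith only [hk2, mul_nonneg hn0 (sub_nonneg.2 hT)]
    have hE1 : exp (-n) ≤ 1 := Real.exp_le_one_iff.2 (by linarith only [hn0])
    have hρk : ρ ≤ k := by
      rw [hρ]
      have := mul_le_mul_of_nonneg_left hE1 hk0.le
      linarith only [this]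
    have he := e1_hi
    have hek : exp 1 * k ≤ 2719 / 1000 * (x + 2 / 5 * n) := mul_le_mul he hk hk0.le (by norm_num)
    have hA : (1 + n) * (6283 / 1000) ≤ (1 + n) * (2 * π + ψ + τ + z) :=
      mul_le_mul_of_nonneg_left (by linarith only [hψ0, hτ0, hz0, hpi]) (by linarith only [hn0])
    have hL : 41 / 10 ≤ (1 + n) * (2 * π + ψ + τ + z) + x * (1 + 1) - exp 1 * k := by linarith only [hn0, h3, hek, hA]
    constructor
    · have : 499 / 10 * (41 / 10) ≤
          r * ((1 + n) * (2 * π + ψ + τ + z) + x * (1 + 1) - exp 1 * k) :=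
        mul_le_mul hr hL (by norm_num) hr0.le
      linarith only [hT, h3, hk, hρk, this]
    · have : r * 1 ≤ r * (1 + n) := mul_le_mul_of_nonneg_left (by linarith only [hn0]) hr0.le
      linarith only [hr, hn1, h3, hk, hρk, this]
  · rw [ofr_a_hi h3]
    have hx1 : 0 < 1 + x := by linarith only [h3]
    obtain ⟨a, hadef⟩ : ∃ a, a = 4 / (1 + x) := ⟨_, rfl⟩
    rw [← hadef]
    have ha : a * (1 + x) = 4 := by
      rw [hadef]
      field_simp
    have ha0 : 0 < a := by rw [hadef]; positivity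
    have ha1 : a ≤ 1 := by rw [hadef, div_le_one hx1]; linarith only [h3]
    obtain ⟨T, T0, T1, T2, T3, T4⟩ := ofr_T h h3 hρ hr hR hη ha
    have hk : k ≤ x + n ^ (2 : ℕ) / 6 := by
      refine le_of_sq_le_sq ?_ (by positivity)
      nlinarith only [hk2, mul_nonneg (sq_nonneg n) (sub_nonneg.2 h3)]
    have hE := ofr_exp ha0.le ha1
    have he : exp a ≤ 2719 / 1000 := (Real.exp_le_exp.2 ha1).trans e1_hi
    have hxa : x * a = 4 - a := by linarith only [ha]
    have hek : exp a * k ≤ (1 + a + 18 / 25 * a ^ (2 : ℕ)) * x + 2719 / 1000 * (n ^ (2 : ℕ) / 6) := by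
      have h1 : exp a * k ≤ exp a * (x + n ^ (2 : ℕ) / 6) :=
        mul_le_mul_of_nonneg_left hk (exp_pos a).le
      have h2 : exp a * x ≤ (1 + a + 18 / 25 * a ^ (2 : ℕ)) * x := mul_le_mul_of_nonneg_right hE hx0.le
      have h4 : exp a * (n ^ (2 : ℕ) / 6) ≤ 2719 / 1000 * (n ^ (2 : ℕ) / 6) :=
        mul_le_mul_of_nonneg_right he (by positivity)
      linarith only [h1, h2, h4]
    have hA : (a + n) * (6283 / 1000) ≤ (a + n) * (2 * π + ψ + τ + z) :=
      mul_le_mul_of_nonneg_left (by linarith only [hψ0, hτ0, hz0, hpi]) (by linarith only [hn0, ha0])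
    have hL : 34 / 10 * a ≤ (a + n) * (2 * π + ψ + τ + z) + x * (1 + a) - exp a * k := by
      have h5 : a ^ (2 : ℕ) * x = a * (4 - a) := by rw [← hxa]; ring
      nlinarith only [ha0, hek, hA, h5, mul_nonneg hn0 (sub_nonneg.2 hn1)]
    constructor
    · have h6 := mul_le_mul_of_nonneg_left hL hr0.le
      have h7 := mul_le_mul_of_nonneg_left T3 hr0.le
      linarith only [T1, h6, h7]
    · have h6 := mul_le_mul_of_nonneg_left T4 hr0.le
      have h7 : r * (a - n) ≤ r * (a + n) := mul_le_mul_of_nonneg_left (by linarith only [hn0]) hr0.le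
      linarith only [T1, h6, h7]

/-- right side, `s < 0` (true `5.17`, `1.88`) -/
theorem fRl {x n z τ k ψ ρ r : ℝ} (h : ShR x n z τ k ψ) (hρ : ρ = k * exp (-n))
    (hD : 13 / 20 ≤ (1 - n) ^ (2 : ℕ) + x ^ (2 : ℕ)) (hr : 499 / 10 ≤ r)
    (hR : 27 / 5 * (1 + ρ ^ (2 : ℕ)) ≤ r * (2 * π / 3) ^ (2 : ℕ)) (hη : ψ + x - ρ ≤ π / 2)
    (hζ : ψ + x - ρ + (z + τ) ≤ 2 * π / 3) :
    4 * ρ ≤ r * ((a4 x - n) * (2 * π - ψ - τ - z) + x * (1 - a4 x) - exp (-(a4 x)) * k) ∧
      3 / 2 * ρ ≤ r * (a4 x - n) := by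
  have hn0 := h.y0
  have hn1 := h.y1
  have hx0 := h.x0
  have hk0 := h.k0
  have hk2 := ofr_k2 h
  have hT := h.T
  have hψ0 := h.ψ0
  have hψ1 := h.ψ1
  have hζ1 := h.ζ
  have hτ0 := h.τ0
  have hz0 := h.z0
  have hpi := Real.pi_gt_d6
  have hr0 : 0 < r := by linarith only [hr]
  rcases le_total x 3 with h3 | h3
  · rw [ofr_a_lo hx0 h3]
    have hk : k ≤ x + 2 / 5 * n := by
      refine le_of_sq_le_sq ?_ (by positivity)
      nlinarith only [hn0, hk2, hT]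
    have hE1 : exp (-n) ≤ 1 := Real.exp_le_one_iff.2 (by linarith only [hn0])
    have hρk : ρ ≤ k := by
      rw [hρ]
      have := mul_le_mul_of_nonneg_left hE1 hk0.le
      linarith only [this]
    have he : exp (-1 : ℝ) ≤ 3679 / 10000 := em1_hi
    have hek : exp (-1 : ℝ) * k ≤ 3679 / 10000 * (x + 2 / 5 * n) :=
      mul_le_mul he hk hk0.le (by norm_num)
    have hA : (47 / 100) * (4768 / 1000) ≤ (1 - n) * (2 * π - ψ - τ - z) :=
      mul_le_mul (by linarith only [hn1]) (by linarith only [hψ1, hζ1, hpi]) (by norm_num) (by linarith only [hn1])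
    have hL : 1 ≤ (1 - n) * (2 * π - ψ - τ - z) + x * (1 - 1) - exp (-1) * k := by linarith only [hn1, h3, hek, hA]
    constructor
    · have : 499 / 10 * 1 ≤
          r * ((1 - n) * (2 * π - ψ - τ - z) + x * (1 - 1) - exp (-1) * k) :=
        mul_le_mul hr hL (by norm_num) hr0.le
      linarith only [hT, h3, hk, hρk, this]
    · have : r * (47 / 100) ≤ r * (1 - n) := mul_le_mul_of_nonneg_left (by linarith only [hn1]) hr0.le
      linarith only [hr, hT, h3, hk, hρk, this]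
  · rw [ofr_a_hi h3]
    have hx1 : 0 < 1 + x := by linarith only [h3]
    obtain ⟨a, hadef⟩ : ∃ a, a = 4 / (1 + x) := ⟨_, rfl⟩
    rw [← hadef]
    have ha : a * (1 + x) = 4 := by
      rw [hadef]
      field_simp
    have ha0 : 0 < a := by rw [hadef]; positivity
    obtain ⟨g1, g2, g3, g4⟩ := ofr_n h h3 hρ hη
    obtain ⟨T, T0, T1, T2, T3, T4⟩ := ofr_T h h3 hρ hr hR hη ha
    have hxa : x * a = 4 - a := by linarith only [ha]
    have hb0 : 0 ≤ a - n := by linarith only [T0, T4]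
    have hρ0 : 0 ≤ ρ := by linarith only [h3, g4]
    obtain ⟨b, hb⟩ : ∃ b, b = a - n := ⟨_, rfl⟩
    rw [← hb] at hb0 T4 ⊢
    have hek : exp (-a) * k = ρ * exp (-b) := by
      rw [hρ, mul_assoc, ← Real.exp_add, hb, show -n + -(a - n) = -a by ring]
      ring
    have hEb : exp (-b) ≤ 1 - b + b ^ (2 : ℕ) / 2 := en_le2 hb0
    have h1 : ρ * exp (-b) ≤ ρ * (1 - b) + ρ * (b ^ (2 : ℕ) / 2) := by
      have := mul_le_mul_of_nonneg_left hEb hρ0
      linarith only [this]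
    have h2 : ρ * (b ^ (2 : ℕ) / 2) ≤ x * (b ^ (2 : ℕ) / 2) := mul_le_mul_of_nonneg_right g2 (by positivity)
    have h4 : b * (41887 / 10000) ≤ b * (2 * π - (ψ + x - ρ) - (z + τ)) :=
      mul_le_mul_of_nonneg_left (by linarith only [hζ, hpi]) hb0
    have hL : T ≤ b * (2 * π - ψ - τ - z) + x * (1 - a) - exp (-a) * k := by
      refine T2.trans ?_
      rw [hek]
      have e1 : x * (b ^ (2 : ℕ) / 2) = a * (4 - a) / 2 - n * (4 - a) + x * n ^ (2 : ℕ) / 2 := by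
        rw [hb]
        linear_combination (a / 2 - n) * hxa
      have e2 : b * (2 * π - ψ - τ - z) = b * (2 * π - (ψ + x - ρ) - (z + τ)) + b * x - b * ρ := by
        ring
      have e3 : ofrV x n a = b * (41887 / 10000) - (a * (4 - a) / 2 - n * (4 - a) + x * n ^ (2 : ℕ) / 2) -
          x * n ^ (2 : ℕ) / 2 - n ^ (2 : ℕ) / 6 := by
        unfold ofrV
        rw [hb]
        ring
      have e4 : x * (1 - a) = x * (1 - n) - b * x := by
        rw [hb]
        ring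
      rw [e2, e3, e4]
      linarith only [g3, h1, h2, h4, e1]
    constructor
    · have h6 := mul_le_mul_of_nonneg_left hL hr0.le
      linarith only [T1, h6]
    · have h6 := mul_le_mul_of_nonneg_left T4 hr0.le
      linarith only [T1, h6]

end SokamV3O

end

/-! ### Lib_MP_af4de1_v3o.OTRl -/

section
namespace SokamF1G
end SokamF1G
/-!
# Levels of the lumps on the right side, tilt included, `3 ≤ x`
-/

set_option autoImplicit false

namespace SokamV3O

open Real SokamF1G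

theorem otr_r {ρ r : ℝ} (hr : 499 / 10 ≤ r) (hR : 27 / 5 * (1 + ρ ^ (2 : ℕ)) ≤ r * (2 * π / 3) ^ (2 : ℕ)) :
    1231 / 1000 * (1 + ρ ^ (2 : ℕ)) ≤ r := by
  have hr0 : 0 < r := by linarith only [hr]
  have hp := Real.pi_gt_d6
  have hq := Real.pi_lt_d6
  have h1 : (2 * π / 3) ^ (2 : ℕ) ≤ 4386500 / 1000000 := by nlinarith only [hp, hq]
  have h2 := mul_le_mul_of_nonneg_left h1 hr0.le
  linarith only [hR, h2, sq_nonneg ρ]

theorem otr_r2 {ρ r : ℝ} (hr : 499 / 10 ≤ r) (hR : 1231 / 1000 * (1 + ρ ^ (2 : ℕ)) ≤ r) :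
    793 / 100 * ρ ≤ r := by
  linarith only [hr, hR, sq_nonneg (ρ - 6442 / 1000)]

theorem otr_psi {x n z τ k ψ Y : ℝ} (h : Shp x n z τ k ψ Y) : ψ * x ≤ n := by
  have h0 := h.ψ0
  have h1 := h.ψ1
  have hp := Real.pi_gt_d6
  have h2 : ψ < π / 2 := by linarith only [h1, hp]
  have h3 := Real.le_tan h0 h2
  have h4 : 0 < cos ψ := Real.cos_pos_of_mem_Ioo ⟨by linarith only [h0, hp], h2⟩
  rw [Real.tan_eq_sin_div_cos, le_div_iff₀ h4] at h3
  have h5 := mul_le_mul_of_nonneg_left h3 h.k0.le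
  rw [h.hx, h.hy]
  linarith only [h5]

/-- the lower bound of (level - tilt), `s < 0` -/
theorem otr_base {x n z τ k ψ ρ a C : ℝ} (h : ShR x n z τ k ψ) (hx : 3 ≤ x)
    (hρ : ρ = k * exp (-n)) (hη : ψ + x - ρ ≤ π / 2)
    (hζ : ψ + x - ρ + (z + τ) ≤ 2 * π / 3) (hb : 0 ≤ a - n) (hC : 5 / 4 * exp a ≤ C * x)
    (hC0 : 0 ≤ C) :
    41887 / 10000 * (a - n) - (x / 2 + 1 / 6) * n ^ (2 : ℕ) - (a - n) ^ (2 : ℕ) * (ρ / 2 + C) ≤
      (a - n) * (2 * π - ψ - τ - z) + x * (1 - a) - exp (-a) * k -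
        5 / 4 * (a - n) ^ (2 : ℕ) * exp a / k := by
  have hn0 := h.y0
  have hk0 := h.k0
  have hx0 := h.x0
  have hpi := Real.pi_gt_d6
  obtain ⟨g1, g2, g3, g4⟩ := ofr_n h hx hρ hη
  have hρ0 : 0 ≤ ρ := by linarith only [hx, g4]
  obtain ⟨b, hbd⟩ : ∃ b, b = a - n := ⟨_, rfl⟩
  rw [← hbd] at hb ⊢
  have hek : exp (-a) * k = ρ * exp (-b) := by
    rw [hρ, mul_assoc, ← Real.exp_add, hbd, show -n + -(a - n) = -a by ring]
    ring
  have hEb : exp (-b) ≤ 1 - b + b ^ (2 : ℕ) / 2 := en_le2 hb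
  have h1 : ρ * exp (-b) ≤ ρ * (1 - b) + ρ * (b ^ (2 : ℕ) / 2) := by
    have := mul_le_mul_of_nonneg_left hEb hρ0
    linarith only [this]
  have h4 : b * (41887 / 10000) ≤ b * (2 * π - (ψ + x - ρ) - (z + τ)) :=
    mul_le_mul_of_nonneg_left (by linarith only [hζ, hpi]) hb
  have hxk : x ≤ k := by
    have := ofr_k2 h
    refine le_of_sq_le_sq ?_ hk0.le
    linarith only [this, sq_nonneg n]
  have h5 : 5 / 4 * b ^ (2 : ℕ) * exp a / k ≤ b ^ (2 : ℕ) * C := by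
    rw [div_le_iff₀ hk0]
    have h6 : C * x ≤ C * k := mul_le_mul_of_nonneg_left hxk hC0
    have h7 := mul_le_mul_of_nonneg_left (hC.trans h6) (sq_nonneg b)
    linarith only [h7]
  rw [hek]
  have e2 : b * (2 * π - ψ - τ - z) = b * (2 * π - (ψ + x - ρ) - (z + τ)) + b * x - b * ρ := by
    ring
  have e4 : x * (1 - a) = x * (1 - n) - b * x := by
    rw [hbd]
    ring
  rw [e2, e4]
  linarith only [g3, h1, h4, h5]

theorem otr_toV {x n ρ a κ c w : ℝ} (ha : a * (1 + x) = 4) (hw : w = n * (1 + x))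
    (hρ : ρ ≤ x * (1 - κ * n)) :
    a * fV κ c a w ≤
      41887 / 10000 * (a - n) - (x / 2 + 1 / 6) * n ^ (2 : ℕ) - (a - n) ^ (2 : ℕ) * (ρ / 2 + c * a) := by
  have hxa : x * a = 4 - a := by linarith only [ha]
  have hn : n = w * a / 4 := by
    rw [hw]
    linear_combination -(n / 4) * ha
  have e : a * fV κ c a w = 41887 / 10000 * (a - n) - (x / 2 + 1 / 6) * n ^ (2 : ℕ) -
      (a - n) ^ (2 : ℕ) * (x * (1 - κ * n) / 2 + c * a) := by
    rw [hn]
    unfold fV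
    linear_combination (w ^ (2 : ℕ) * a / 32 + a * (1 - w / 4) ^ (2 : ℕ) * (1 - κ * w * a / 4) / 2) * hxa
  rw [e]
  have := mul_le_mul_of_nonneg_left hρ (sq_nonneg (a - n))
  linarith only [this]

/-- the bound of `ρ` -/
theorem otr_rho {x n ρ κ : ℝ} (hx : 3 ≤ x) (hn : 0 ≤ n) (g1 : n * (x - 87 / 100) ≤ 1571 / 1000)
    (g3 : ρ ≤ x * (1 - n) + x * n ^ (2 : ℕ) / 2 + n ^ (2 : ℕ) / 6)
    (hκ : 1571 / 1000 * (x / 2 + 1 / 6) ≤ (1 - κ) * x * (x - 87 / 100)) : ρ ≤ x * (1 - κ * n) := by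
  have h1 : 0 < x - 87 / 100 := by linarith only [hx]
  have h2 : n * (x / 2 + 1 / 6) ≤ (1 - κ) * x := by
    refine le_of_mul_le_mul_right ?_ h1
    have h3 : n * (x - 87 / 100) * (x / 2 + 1 / 6) ≤ 1571 / 1000 * (x / 2 + 1 / 6) :=
      mul_le_mul_of_nonneg_right g1 (by positivity)
    linarith only [hκ, h3]
  have h3 := mul_le_mul_of_nonneg_left h2 hn
  linarith only [g3, h3]

theorem otr_w {x n a w W : ℝ} (ha : a * (1 + x) = 4) (ha1 : a ≤ 1)
    (g1 : n * (x - 87 / 100) ≤ 1571 / 1000)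
    (hw : w = n * (1 + x)) (hW : 6284 / 1000 ≤ W * (4 - 187 / 100 * a)) : w ≤ W := by
  have h1 : 0 < 4 - 187 / 100 * a := by linarith only [ha1]
  refine le_of_mul_le_mul_right ?_ h1
  have h2 : w * (4 - 187 / 100 * a) = 4 * (n * (x - 87 / 100)) := by
    rw [hw]
    linear_combination -(187 / 100 * n) * ha
  rw [h2]
  linarith only [g1, hW]

theorem otr_exp {u : ℝ} (h0 : 0 ≤ u) (h1 : u ≤ 1) :
    exp u ≤ 1 + u + u ^ (2 : ℕ) / 2 + u ^ (3 : ℕ) / 6 + u ^ (4 : ℕ) / 24 + u ^ (5 : ℕ) / 100 := by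
  have ha : |u| ≤ 1 := by rw [abs_of_nonneg h0]; exact h1
  have e1 := Real.exp_bound ha (n := 5) (by norm_num)
  rw [abs_of_nonneg h0] at e1
  simp only [Finset.sum_range_succ, Finset.sum_range_zero, Nat.factorial, Nat.succ_eq_add_one] at e1
  norm_num at e1
  rw [abs_le] at e1
  linarith only [e1.2]

theorem otr_e23 : exp (2 / 3) ≤ 1948 / 1000 := by
  have := otr_exp (u := 2 / 3) (by norm_num) (by norm_num)
  norm_num at this
  linarith only [this]

theorem otr_e49 : exp (4 / 9) ≤ 156 / 100 := by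
  have := otr_exp (u := 4 / 9) (by norm_num) (by norm_num)
  norm_num at this
  linarith only [this]

theorem otr_e45 : exp (4 / 5) ≤ 22258 / 10000 := by
  have := otr_exp (u := 4 / 5) (by norm_num) (by norm_num)
  norm_num at this
  linarith only [this]

/-- LEVEL, right side, `s < 0`, tilt included (true `5.0`) -/
theorem otr_lev_l {x n z τ k ψ ρ r a : ℝ} (h : ShR x n z τ k ψ) (hx : 3 ≤ x)
    (hρ : ρ = k * exp (-n)) (hr : 499 / 10 ≤ r)
    (hR : 27 / 5 * (1 + ρ ^ (2 : ℕ)) ≤ r * (2 * π / 3) ^ (2 : ℕ)) (hη : ψ + x - ρ ≤ π / 2)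
    (hζ : ψ + x - ρ + (z + τ) ≤ 2 * π / 3) (ha : a * (1 + x) = 4) (hb : 0 ≤ a - n) :
    (5 ≤ x → 21 / 5 * ρ ≤ r * ((a - n) * (2 * π - ψ - τ - z) + x * (1 - a) - exp (-a) * k -
        5 / 4 * (a - n) ^ (2 : ℕ) * exp a / k)) ∧
    (x ≤ 5 → 9 / 2 * ρ ≤ r * ((a - n) * (2 * π - ψ - τ - z) + x * (1 - a) - exp (-a) * k -
        5 / 4 * (a - n) ^ (2 : ℕ) * exp a / k)) := by
  have hR' := otr_r hr hR
  have hr0 : 0 < r := by linarith only [hx, hρ, hr]
  have hn0 := h.y0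
  have hn1 := h.y1
  obtain ⟨g1, g2, g3, g4⟩ := ofr_n h hx hρ hη
  have hρ0 : 0 < ρ := by linarith only [hx, g4]
  have hxa : x * a = 4 - a := by linarith only [ha]
  have ha0 : 0 < a := by
    by_contra hc
    push Not at hc
    nlinarith only [g2, hρ0, hxa, hc]
  have ha1 : a ≤ 1 := by nlinarith only [hx, ha]
  obtain ⟨w, hw⟩ : ∃ w, w = n * (1 + x) := ⟨_, rfl⟩
  have hw0 : 0 ≤ w := by rw [hw]; positivity
  have hbase := fun C hC hC0 => otr_base (C := C) h hx hρ hη hζ hb hC hC0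
  set F := (a - n) * (2 * π - ψ - τ - z) + x * (1 - a) - exp (-a) * k -
        5 / 4 * (a - n) ^ (2 : ℕ) * exp a / k with hF
  constructor
  · intro h5
    rcases le_total x 8 with h8 | h8
    · have a1 : 4 / 9 ≤ a := by nlinarith only [hxa, h5, h8]
      have a2 : a ≤ 2 / 3 := by nlinarith only [hxa, h5]
      have b1 := hbase (1461 / 2000 * a) (by
        have h1 : exp a ≤ 1948 / 1000 := (Real.exp_le_exp.2 a2).trans otr_e23
        have h2 : 1461 / 2000 * a * x = 1461 / 2000 * (4 - a) := by rw [← hxa]; ring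
        rw [h2]
        linarith only [a2, h1]) (by positivity)
      have b2 := otr_rho (κ := 797 / 1000) hx hn0 g1 g3 (by nlinarith only [h5])
      have b3 := otr_toV (c := 1461 / 2000) ha hw b2
      have b4 := otr_w (W := 13857 / 10000 + 13454 / 10000 * a) ha ha1 g1 hw (by
        linarith only [a2, mul_nonneg (sub_nonneg.2 a1) (sub_nonneg.2 a2)])
      have hW : 0 < 13857 / 10000 + 13454 / 10000 * a := by positivity
      have b5 := lv5 (t := w / (13857 / 10000 + 13454 / 10000 * a)) a1 a2 (by positivity)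
        (by rw [div_le_one hW]; exact b4)
      rw [mul_div_cancel₀ _ hW.ne'] at b5
      have b6 : 53 / 100 ≤ F := by linarith only [b1, b3, b5]
      have b7 := otr_r2 hr hR'
      nlinarith only [hρ0, b6, b7]
    · have a2 : a ≤ 4 / 9 := by nlinarith only [hxa, h8]
      have b1 := hbase (5485 / 10000 * a) (by
        have h1 : exp a ≤ 156 / 100 := (Real.exp_le_exp.2 a2).trans otr_e49
        have h2 : 5485 / 10000 * a * x = 5485 / 10000 * (4 - a) := by rw [← hxa]; ring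
        rw [h2]
        linarith only [a2, h1]) (by positivity)
      have b2 := otr_rho (κ := 88 / 100) hx hn0 g1 g3 (by nlinarith only [h8])
      have b3 := otr_toV (c := 5485 / 10000) ha hw b2
      have b4 := otr_w (W := 1571 / 1000 + 9272 / 10000 * a) ha ha1 g1 hw (by
        linarith only [ha0, mul_nonneg ha0.le (sub_nonneg.2 a2)])
      have hW : 0 < 1571 / 1000 + 9272 / 10000 * a := by positivity
      have b5 := lv8 (t := w / (1571 / 1000 + 9272 / 10000 * a)) ha0.le a2 (by positivity)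
        (by rw [div_le_one hW]; exact b4)
      rw [mul_div_cancel₀ _ hW.ne'] at b5
      obtain ⟨f, hf⟩ : ∃ f, f = fV (88 / 100) (5485 / 10000) a w := ⟨_, rfl⟩
      rw [← hf] at b5 b3
      have hD : 0 < 4 - 2571 / 1000 * a := by linarith only [a2]
      have hf0 : 0 ≤ f := by
        by_contra hc
        push Not at hc
        have := mul_neg_of_neg_of_pos hc hD
        linarith only [b5, this]
      have b6 : a * f ≤ F := b3.trans b1
      have b7 : f * (4 - 2571 / 1000 * a) ≤ f * (ρ * a) := by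
        refine mul_le_mul_of_nonneg_left ?_ hf0
        have := mul_le_mul_of_nonneg_right g4 ha0.le
        linarith only [hxa, this]
      have b8 : 3412 / 1000 ≤ ρ * F := by
        have := mul_le_mul_of_nonneg_left b6 hρ0.le
        linarith only [b5, b7, this]
      have b9 : 1231 / 1000 * ρ ^ (2 : ℕ) ≤ r := by linarith only [hR']
      have hF0 : 0 ≤ F := le_trans (by positivity) b6
      have b10 := mul_le_mul_of_nonneg_right b9 hF0
      have b11 := mul_le_mul_of_nonneg_left b8 hρ0.le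
      linarith only [hρ0, b10, b11]
  · intro h5
    rcases le_total x 4 with h4 | h4
    · have a1 : 4 / 5 ≤ a := by nlinarith only [hxa, ha0, h4]
      have b1 := hbase (1133 / 1000 * a) (by
        have h1 : exp a ≤ 2719 / 1000 := (Real.exp_le_exp.2 ha1).trans e1_hi
        have h2 : 1133 / 1000 * a * x = 1133 / 1000 * (4 - a) := by rw [← hxa]; ring
        rw [h2]
        linarith only [ha1, h1]) (by positivity)
      have b2 : ρ ≤ x * (1 - 7 / 10 * n) := by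
        have h1 : n * (x / 2 + 1 / 6) ≤ 3 / 10 * x := by nlinarith only [hx, hn1]
        have h3 := mul_le_mul_of_nonneg_left h1 hn0
        linarith only [g3, h3]
      have b5 := lv3 (t := n / (53 / 100)) a1 ha1 (by positivity)
        (by rw [div_le_one (by norm_num)]; exact hn1)
      rw [mul_div_cancel₀ _ (by norm_num : (53 / 100 : ℝ) ≠ 0)] at b5
      have b6 : a * (902 / 10000 * ρ) ≤ a * F := by
        have c1 : a * ρ ≤ (4 - a) * (1 - 7 / 10 * n) := by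
          have := mul_le_mul_of_nonneg_left b2 ha0.le
          rw [← hxa]
          linarith only [this]
        have c2 := mul_le_mul_of_nonneg_left b1 ha0.le
        have c3 : a * (41887 / 10000 * (a - n) - (x / 2 + 1 / 6) * n ^ (2 : ℕ) -
            (a - n) ^ (2 : ℕ) * (ρ / 2 + 1133 / 1000 * a)) = 41887 / 10000 * a * (a - n) -
            (2 - a / 3) * n ^ (2 : ℕ) - (a - n) ^ (2 : ℕ) * (a * ρ / 2 + 1133 / 1000 * a ^ (2 : ℕ)) := by
          linear_combination -(n ^ (2 : ℕ) / 2) * hxa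
        have c4 := mul_le_mul_of_nonneg_left c1 (sq_nonneg (a - n))
        linarith only [b5, c1, c2, c3, c4]
      have b7 := le_of_mul_le_mul_left b6 ha0
      have b8 := mul_le_mul_of_nonneg_left b7 hr0.le
      nlinarith only [hr, hρ0, b8]
    · have a1 : 2 / 3 ≤ a := by nlinarith only [hxa, h5, h4]
      have a2 : a ≤ 4 / 5 := by nlinarith only [hxa, h4]
      have b1 := hbase (8695 / 10000 * a) (by
        have h1 : exp a ≤ 22258 / 10000 := (Real.exp_le_exp.2 a2).trans otr_e45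
        have h2 : 8695 / 10000 * a * x = 8695 / 10000 * (4 - a) := by rw [← hxa]; ring
        rw [h2]
        linarith only [a2, h1]) (by positivity)
      have b2 := otr_rho (κ := 728 / 1000) hx hn0 g1 g3 (by nlinarith only [h4])
      have b3 := otr_toV (c := 8695 / 10000) ha hw b2
      have b4 := otr_w (W := 1145 / 1000 + 17065 / 10000 * a) ha ha1 g1 hw (by
        linarith only [a1, mul_nonneg (sub_nonneg.2 a1) (sub_nonneg.2 a2)])
      have hW : 0 < 1145 / 1000 + 17065 / 10000 * a := by positivity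
      have b5 := lv4 (t := w / (1145 / 1000 + 17065 / 10000 * a)) a1 a2 (by positivity)
        (by rw [div_le_one hW]; exact b4)
      rw [mul_div_cancel₀ _ hW.ne'] at b5
      have b6 : 451 / 1000 ≤ F := by linarith only [b1, b3, b5]
      have b7 : 499 / 10 * (451 / 1000) ≤ r * F := mul_le_mul hr b6 (by norm_num) hr0.le
      linarith only [g2, h5, b7]

/-- LEVEL, right side, `s > 0`, tilt included -/
theorem otr_lev_r {x n z τ k ψ ρ r a : ℝ} (h : ShR x n z τ k ψ) (hx : 3 ≤ x)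
    (hρ : ρ = k * exp (-n)) (hr : 499 / 10 ≤ r)
    (hR : 27 / 5 * (1 + ρ ^ (2 : ℕ)) ≤ r * (2 * π / 3) ^ (2 : ℕ)) (hη : ψ + x - ρ ≤ π / 2)
    (ha : a * (1 + x) = 4) :
    8 * ρ ≤ r * ((a + n) * (2 * π + ψ + τ + z) + x * (1 + a) - exp a * k -
        5 / 4 * (a + n) ^ (2 : ℕ) * exp (-a) / k) := by
  have hR' := otr_r hr hR
  have hr0 : 0 < r := by linarith only [hr]
  have hn0 := h.y0
  have hn1 := h.y1
  have hk0 := h.k0
  have hx0 := h.x0
  have hτ0 := h.τ0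
  have hz0 := h.z0
  have hψ0 := h.ψ0
  have hpi := Real.pi_gt_d6
  have hk2 := ofr_k2 h
  obtain ⟨g1, g2, g3, g4⟩ := ofr_n h hx hρ hη
  have hρ0 : 0 < ρ := by linarith only [hx, g4]
  have hxa : x * a = 4 - a := by linarith only [ha]
  have ha0 : 0 < a := by
    by_contra hc
    push Not at hc
    nlinarith only [g2, hρ0, hxa, hc]
  have ha1 : a ≤ 1 := by nlinarith only [hx, ha]
  have hk : k ≤ x + n ^ (2 : ℕ) / 6 := by
    refine le_of_sq_le_sq ?_ (by positivity)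
    linarith only [hk2, mul_nonneg (sq_nonneg n) (sub_nonneg.2 hx), sq_nonneg (n ^ (2 : ℕ))]
  have hE := ofr_exp ha0.le ha1
  have he : exp a ≤ 2719 / 1000 := (Real.exp_le_exp.2 ha1).trans e1_hi
  have hek : exp a * k ≤ (1 + a + 18 / 25 * a ^ (2 : ℕ)) * x + 2719 / 1000 * (n ^ (2 : ℕ) / 6) := by
    have h1 : exp a * k ≤ exp a * (x + n ^ (2 : ℕ) / 6) :=
      mul_le_mul_of_nonneg_left hk (exp_pos a).le
    have h2 : exp a * x ≤ (1 + a + 18 / 25 * a ^ (2 : ℕ)) * x := mul_le_mul_of_nonneg_right hE hx0.le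
    have h4 : exp a * (n ^ (2 : ℕ) / 6) ≤ 2719 / 1000 * (n ^ (2 : ℕ) / 6) :=
      mul_le_mul_of_nonneg_right he (by positivity)
    linarith only [h1, h2, h4]
  have hA : (a + n) * (6283 / 1000) ≤ (a + n) * (2 * π + ψ + τ + z) :=
    mul_le_mul_of_nonneg_left (by linarith only [hτ0, hz0, hψ0, hpi]) (by linarith only [hn0, ha0])
  have hnn : n ^ (2 : ℕ) ≤ 53 / 100 * n := by nlinarith only [hn0, hn1]
  have hL : 34 / 10 * a + 6 * n ≤ (a + n) * (2 * π + ψ + τ + z) + x * (1 + a) - exp a * k := by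
    have h5 : a ^ (2 : ℕ) * x = a * (4 - a) := by rw [← hxa]; ring
    linarith only [hn0, ha0, hek, hA, hnn, h5, sq_nonneg a]
  have hxk : x ≤ k := by
    refine le_of_sq_le_sq ?_ hk0.le
    linarith only [hk2, sq_nonneg n]
  have hM : 5 / 4 * (a + n) ^ (2 : ℕ) * exp (-a) / k ≤ 7 / 10 * (a + n) := by
    rw [div_le_iff₀ hk0]
    have e1 : exp (-a) ≤ 1 := Real.exp_le_one_iff.2 (by linarith only [ha0])
    have e2 : (a + n) ^ (2 : ℕ) * exp (-a) ≤ (a + n) ^ (2 : ℕ) * 1 :=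
      mul_le_mul_of_nonneg_left e1 (sq_nonneg _)
    have e3 : (a + n) * (a + n) ≤ (153 / 100) * (a + n) :=
      mul_le_mul_of_nonneg_right (by linarith only [hn1, ha1]) (by linarith only [ha0, hk, hnn, hxk])
    have e4 : (a + n) * 3 ≤ (a + n) * k := mul_le_mul_of_nonneg_left (by linarith only [hx, hxk]) (by linarith only [ha0, hk, hnn, hxk])
    linarith only [ha0, hk, hnn, hxk, e2, e3, e4]
  have hF : 27 / 10 * a ≤ (a + n) * (2 * π + ψ + τ + z) + x * (1 + a) - exp a * k -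
        5 / 4 * (a + n) ^ (2 : ℕ) * exp (-a) / k := by linarith only [hk, hnn, hL, hxk, hM]
  have hra : 35 / 10 * ρ ≤ r * a := by
    have h1 : 4 ≤ a * (ρ + 2571 / 1000) := by
      have := mul_le_mul_of_nonneg_left (by linarith : 1 + x ≤ ρ + 2571 / 1000) ha0.le
      linarith only [hxa, this]
    have h2 : 35 / 10 * ρ * (ρ + 2571 / 1000) ≤ 4 * r := by
      linarith only [hr, hR', sq_nonneg (ρ - 484 / 100)]
    have h3 : 0 < ρ + 2571 / 1000 := by linarith only [hρ0]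
    refine le_of_mul_le_mul_right ?_ h3
    have h4 := mul_le_mul_of_nonneg_left h1 hr0.le
    linarith only [h2, h4]
  have h6 := mul_le_mul_of_nonneg_left hF hr0.le
  linarith only [hρ0, hra, h6]

end SokamV3O

end
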