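import Pool.Agent.Lib_MP_af4de1_zy.Z25
import Pool.Agent.Lib_MP_af4de1_zy.Z47
import Pool.Agent.Lib_MP_af4de1_zy.Z77
import Pool.Agent.Lib_MP_af4de1_zy.Z97

/-! ### Lib_MP_af4de1_v3o.OTR -/

section
namespace SokamF1
end SokamF1
namespace SokamF1M
end SokamF1M
namespace SokamF1S
end SokamF1S
namespace SokamPG
end SokamPG
namespace SokamU
end SokamU
set_option autoImplicit false

open Complex MeasureTheory Set SokamU SokamPG SokamF1 SokamF1S SokamF1M

namespace SokamV3O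

/-- elementary facts of the right side -/
theorem FR.pos {x n z τ k ψ ρ r δ : ℝ} (h : FR x n z τ k ψ ρ r δ) :
    0 < r ∧ 0 < ρ ∧ 0 < δ ∧ 0 < n ∧ n < a4 x ∧ x ≤ k ∧ ρ ≤ k ∧ k ≤ x + 2 / 5 * n ∧ x ≤ 2 * ρ := by
  have hr0 : 0 < r := by linarith only [h.r0]
  have hk0 := h.sh.k0
  have hn0 := h.sh.y0
  have hn1 := h.sh.y1
  have hx0 := h.sh.x0
  have hρ0 : 0 < ρ := by
    rw [h.rho]
    positivity
  have hδ : 0 < δ := by
    rw [h.del]
    (clear * - hρ0 hr0; positivity)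
  have hn : 0 < n := by linarith only [hδ, h.w1]
  have hk2 := ofr_k2 h.sh
  have hxk : x ≤ k := by
    refine le_of_sq_le_sq ?_ hk0.le
    nlinarith only [hk2]
  have hE1 : Real.exp (-n) ≤ 1 := Real.exp_le_one_iff.2 (by linarith only [hn])
  have hE2 := Real.add_one_le_exp (-n)
  have hE3 : 1 / 2 ≤ Real.exp (-n) := by
    have h1 := Real.exp_pos n
    have h2 : Real.exp n ≤ 2 := by
      have := otr_exp (u := 53 / 100) (by norm_num) (by norm_num)
      have h3 := Real.exp_le_exp.2 hn1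
      norm_num at this
      linarith only [h3, this]
    rw [Real.exp_neg, one_div]
    exact inv_anti₀ h1 h2
  refine ⟨hr0, hρ0, hδ, hn, ?_, hxk, ?_, ?_, ?_⟩
  · refine lt_min (by linarith only [hn1]) ?_
    rw [lt_div_iff₀ (by linarith only [hx0])]
    exact h.yx
  · rw [h.rho]
    have := mul_le_mul_of_nonneg_left hE1 hk0.le
    linarith only [this]
  · refine le_of_sq_le_sq ?_ (by (clear * - hx0 hn; positivity))
    nlinarith only [hk2, mul_nonneg hn0 (sub_nonneg.2 h.sh.T)]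
  · rw [h.rho]
    have := mul_le_mul hxk hE3 (by norm_num) hk0.le
    linarith only [this]

theorem FR.q {x n z τ k ψ ρ r δ : ℝ} (h : FR x n z τ k ψ ρ r δ) :
    0 < √((1 + -n) ^ (2 : ℕ) + x ^ (2 : ℕ)) ∧ √((1 + -n) ^ (2 : ℕ) + x ^ (2 : ℕ)) ≤ 2 * (1 + ρ) ∧
      √((1 + -n) ^ (2 : ℕ) + x ^ (2 : ℕ)) ≤ √(1 + x ^ (2 : ℕ)) := by
  obtain ⟨hr0, hρ0, hδ, hn, hn4, hxk, hρk, hkx, hx2⟩ := h.pos
  have hn1 := h.sh.y1
  have hx0 := h.sh.x0
  refine ⟨Real.sqrt_pos.2 (by (clear * - hx0; positivity)), ?_, ?_⟩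
  · rw [Real.sqrt_le_left (by linarith only [hρ0])]
    nlinarith only [hxk, hkx, hx2, hn1, hx0]
  · apply Real.sqrt_le_sqrt
    nlinarith only [hn, hn1]

/-- zone A against the Gaussian -/
theorem FR.zoneA {x n z τ k ψ ρ r δ : ℝ} (h : FR x n z τ k ψ ρ r δ) :
    18 * Real.exp (-(1 / 4 * (1 + k * Real.exp (-n)) / δ)) ≤ 1 / 3000 * Gn x (-n) δ := by
  obtain ⟨hr0, hρ0, -⟩ := h.pos
  obtain ⟨q0, q1, -⟩ := h.q
  have := SokamV3O.zoneA h.r0 hρ0 q0 q1
  rw [← h.rho]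
  unfold Gn
  rw [h.del]
  exact this

/-- the linear zone against the Gaussian, `x ≤ 3` -/
theorem otr_lin {x n δ c A B : ℝ} (hx0 : 0 < x) (hx : x ≤ 3) (hn : 0 ≤ n) (hn1 : n ≤ 1)
    (hδ : 0 < δ) (hδ1 : δ ≤ 13 / 200) (hA : 0 ≤ A) (hB : 0 < B) (hAB : A * (13 / 50) ≤ B * (7 / 5))
    (hc : c = A * δ) : c ≤ B * Gn x (-n) δ := by
  have hpi : 3.1415 < Real.pi := Real.pi_gt_d4
  have q0 : 0 < √((1 + -n) ^ (2 : ℕ) + x ^ (2 : ℕ)) := Real.sqrt_pos.2 (by (clear * - hx0; positivity))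
  have q1 : √((1 + -n) ^ (2 : ℕ) + x ^ (2 : ℕ)) ≤ 317 / 100 := by
    rw [Real.sqrt_le_left (by norm_num)]
    nlinarith only [hx0, hx, hn, hn1]
  have h1 : 7 / 5 * √δ ≤ Gn x (-n) δ := by
    unfold Gn
    apply Real.le_sqrt_of_sq_le
    rw [mul_pow, Real.sq_sqrt hδ.le, le_div_iff₀ q0]
    have := mul_le_mul_of_nonneg_left q1 (by positivity : 0 ≤ (7 / 5) ^ (2 : ℕ) * δ)
    nlinarith only [hδ, hpi, this]
  have h2 : √δ ≤ 13 / 50 := by
    rw [Real.sqrt_le_left (by norm_num)]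
    linarith only [hδ1]
  have h3 : δ = √δ * √δ := (Real.mul_self_sqrt hδ.le).symm
  have h4 := Real.sqrt_nonneg δ
  rw [hc]
  calc A * δ = A * √δ * √δ := by rw [mul_assoc, ← h3]
    _ ≤ A * (13 / 50) * √δ := by gcongr
    _ ≤ B * (7 / 5) * √δ := by gcongr
    _ = B * (7 / 5 * √δ) := by ring
    _ ≤ _ := by gcongr

/-- the lumps against the Gaussian -/
theorem otr_lump {x n δ k κ Λ F m M B q : ℝ} (hδ : 0 < δ) (hκ : 0 < κ)
    (hq0 : 0 < q) (hq : q = √((1 + -n) ^ (2 : ℕ) + x ^ (2 : ℕ))) (hB : 0 ≤ B) (hM : 0 ≤ M)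
    (hΛ : Λ ≤ F - m ^ (2 : ℕ) / (4 / 5 * κ))
    (hk : M ^ (2 : ℕ) * (69 / 20) ^ (2 : ℕ) * Real.exp (-(2 * Λ)) * q ≤ B ^ (2 : ℕ) * 6283 / 1000 * δ * κ) :
    M * (69 / 20 * Real.exp (-F + m ^ (2 : ℕ) / (4 / 5 * κ)) / √κ) ≤ B * Gn x (-n) δ := by
  have hpi := Real.pi_gt_d6
  have hs : 0 < √κ := Real.sqrt_pos.2 hκ
  have h1 : Real.exp (-F + m ^ (2 : ℕ) / (4 / 5 * κ)) ≤ Real.exp (-Λ) := Real.exp_le_exp.2 (by linarith only [hΛ])
  have h2 : M * (69 / 20 * Real.exp (-F + m ^ (2 : ℕ) / (4 / 5 * κ)) / √κ) ≤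
      M * (69 / 20 * Real.exp (-Λ) / √κ) := by gcongr
  refine h2.trans ?_
  have h3 : B * Gn x (-n) δ = √(B ^ (2 : ℕ) * (2 * Real.pi * δ / q)) := by
    unfold Gn
    rw [Real.sqrt_mul (by (clear * -; positivity)), Real.sqrt_sq hB, hq]
  rw [h3]
  apply Real.le_sqrt_of_sq_le
  have h4 : (M * (69 / 20 * Real.exp (-Λ) / √κ)) ^ (2 : ℕ) =
      M ^ (2 : ℕ) * (69 / 20) ^ (2 : ℕ) * Real.exp (-(2 * Λ)) / κ := by
    rw [mul_pow, div_pow, mul_pow, Real.sq_sqrt hκ.le, ← Real.exp_nat_mul,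
      show ((2 : ℕ) : ℝ) * -Λ = -(2 * Λ) by push_cast; ring]
    ring
  rw [h4, div_le_iff₀ hκ]
  have h5 : B ^ (2 : ℕ) * (2 * Real.pi * δ / q) * κ = (B ^ (2 : ℕ) * (2 * Real.pi) * δ * κ) / q := by ring
  rw [h5, le_div_iff₀ hq0]
  refine hk.trans ?_
  have : B ^ (2 : ℕ) * 6283 / 1000 * δ * κ = B ^ (2 : ℕ) * (6283 / 1000) * δ * κ := by ring
  rw [this]
  gcongr
  linarith only [hpi]

theorem pv_two {x : ℝ} (hx : 0 ≤ x) (s : ℝ) : ‖pv (1 + x)⁻¹ (ss x) s‖ ≤ 14143 / 10000 := by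
  refine (pv_le hx s).trans ?_
  rw [Real.sqrt_le_left (by norm_num)]
  have h1 : (1 + x)⁻¹ ≤ 1 := inv_le_one_of_one_le₀ (by linarith only [hx])
  have h2 : 0 ≤ (1 + x)⁻¹ := by positivity
  nlinarith only [h1, h2]

/-- the path is flat beyond `c1` -/
theorem ss_flat {x n z τ k ψ Y : ℝ} (h : Shp x n z τ k ψ Y) (hn1 : n ≤ 53 / 100) :
    ss x ≤ 2 * Real.pi - ψ - τ - 3 / 2 := by
  have hpi := Real.pi_gt_d6
  have hx0 := h.x0
  have hψ1 := h.ψ1
  have hτ1 := h.τ1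
  have hτ0 := h.τ0
  have hψ := otr_psi h
  have hz := h.zτ
  have hζ := h.ζ
  rcases le_total x (13 / 5) with h3 | h3
  · refine (ss_le x).trans ?_
    linarith only [hpi, hψ1, hτ1, h3]
  · refine (min_le_left _ _).trans ?_
    have h1 : τ ≤ 9 / 100 := by
      rw [hz] at hζ
      nlinarith only [hζ, mul_nonneg hτ0 (sub_nonneg.2 h3)]
    have h2 : ψ ≤ 21 / 100 := by
      have := h.ψ0
      nlinarith only [hn1, hψ, h3]
    linarith only [hpi, h1, h2]

theorem Hc_l {x n z τ k ψ Y a v : ℝ} (h : Shp x n z τ k ψ Y) :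
    Hc x (-n) (-z) (-τ) (-a) (-v) = ((a - n) * (2 * Real.pi - ψ - τ - z) + x * (1 - a) -
      Real.exp (-a) * k) + (a - n) * (v - (2 * Real.pi - ψ - τ)) +
      Real.exp (-a) * k * (1 - Real.cos (v - (2 * Real.pi - ψ - τ))) := by
  have e1 : Real.cos (v - (2 * Real.pi - ψ - τ)) = Real.cos (v + τ + ψ) := by
    rw [show v - (2 * Real.pi - ψ - τ) = v + τ + ψ - 2 * Real.pi by ring, Real.cos_sub_two_pi]
  have e2 : k * Real.cos (v + τ + ψ) = x * Real.cos (v + τ) - n * Real.sin (v + τ) := by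
    rw [Real.cos_add (v + τ) ψ, h.hx, h.hy]
    ring
  have e3 : Real.exp (-a) * k * Real.cos (v + τ + ψ) =
      Real.exp (-a) * (x * Real.cos (v + τ) - n * Real.sin (v + τ)) := by rw [← e2]; ring
  rw [e1]
  unfold Hc
  rw [show -v + -τ = -(v + τ) by ring, Real.cos_neg, Real.sin_neg]
  linarith only [e3]

theorem Hc_r {x n z τ k ψ Y a s : ℝ} (h : Shp x n z τ k ψ Y) :
    Hc x (-n) (-z) (-τ) a s = ((a + n) * (2 * Real.pi + ψ + τ + z) + x * (1 + a) -
      Real.exp a * k) + (a + n) * (s - (2 * Real.pi + ψ + τ)) +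
      Real.exp a * k * (1 - Real.cos (s - (2 * Real.pi + ψ + τ))) := by
  have e1 : Real.cos (s - (2 * Real.pi + ψ + τ)) = Real.cos (s - τ - ψ) := by
    rw [show s - (2 * Real.pi + ψ + τ) = s - τ - ψ - 2 * Real.pi by ring, Real.cos_sub_two_pi]
  have e2 : k * Real.cos (s - τ - ψ) = x * Real.cos (s - τ) + n * Real.sin (s - τ) := by
    rw [Real.cos_sub (s - τ) ψ, h.hx, h.hy]
    ring
  have e3 : Real.exp a * k * Real.cos (s - τ - ψ) =
      Real.exp a * (x * Real.cos (s - τ) + n * Real.sin (s - τ)) := by rw [← e2]; ring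
  rw [e1]
  unfold Hc
  rw [show s + -τ = s - τ by ring]
  linarith only [e3]

theorem exp84 : (4348 : ℝ) ≤ Real.exp (42 / 5) := by
  have h1 := Real.exp_one_gt_d9
  have h2 : Real.exp (42 / 5) = Real.exp 1 ^ (8 : ℕ) * Real.exp (2 / 5) := by
    rw [← Real.exp_nat_mul, ← Real.exp_add]
    norm_num
  have h3 := Real.sum_le_exp_of_nonneg (x := 2 / 5) (by norm_num) 4
  norm_num [Finset.sum_range_succ, Nat.factorial] at h3
  have h4 : (2718 / 1000 : ℝ) ^ (8 : ℕ) ≤ Real.exp 1 ^ (8 : ℕ) := pow_le_pow_left₀ (by norm_num) (by linarith only [h1]) 8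
  rw [h2]
  calc (4348 : ℝ) ≤ (2718 / 1000) ^ (8 : ℕ) * (149 / 100) := by norm_num
    _ ≤ Real.exp 1 ^ (8 : ℕ) * Real.exp (2 / 5) := by
      refine mul_le_mul h4 (by linarith only [h3]) (by norm_num) (by positivity)

theorem exp9 : (8000 : ℝ) ≤ Real.exp 9 := by
  have h1 := Real.exp_one_gt_d9
  have h2 : Real.exp 9 = Real.exp 1 ^ (9 : ℕ) := by
    rw [← Real.exp_nat_mul]
    norm_num
  rw [h2]
  calc (8000 : ℝ) ≤ (2718 / 1000) ^ (9 : ℕ) := by norm_num
    _ ≤ Real.exp 1 ^ (9 : ℕ) := pow_le_pow_left₀ (by norm_num) (by linarith only [h1]) 9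

theorem exp16 : (7000000 : ℝ) ≤ Real.exp 16 := by
  have h1 := Real.exp_one_gt_d9
  have h2 : Real.exp 16 = Real.exp 1 ^ (16 : ℕ) := by
    rw [← Real.exp_nat_mul]
    norm_num
  rw [h2]
  calc (7000000 : ℝ) ≤ (27 / 10) ^ (16 : ℕ) := by norm_num
    _ ≤ Real.exp 1 ^ (16 : ℕ) := pow_le_pow_left₀ (by norm_num) (by linarith only [h1]) 16

theorem exp_neg_le {t B : ℝ} (hB : 0 < B) (h : B ≤ Real.exp t) : Real.exp (-t) ≤ 1 / B := by
  rw [Real.exp_neg, one_div]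
  exact inv_anti₀ hB h

/-- `q ≤ c k` -/
theorem q_le_k {x n k c : ℝ} (hx : 0 < x) (hn : 0 ≤ n) (hn1 : n ≤ 1) (hxk : x ≤ k) (hc : 0 ≤ c)
    (h : 1 + x ^ (2 : ℕ) ≤ c ^ (2 : ℕ) * x ^ (2 : ℕ)) : √((1 + -n) ^ (2 : ℕ) + x ^ (2 : ℕ)) ≤ c * k := by
  have hk : 0 < k := by linarith only [hx, hxk]
  rw [Real.sqrt_le_left (by (clear * - hc hk; positivity))]
  have h1 : x ^ (2 : ℕ) ≤ k ^ (2 : ℕ) := by gcongr
  have h2 := mul_le_mul_of_nonneg_left h1 (sq_nonneg c)
  nlinarith only [hn, hn1, h, h2]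

/-- tail, right side, `s < 0` (true `.0105`) -/
theorem tailRl {x n z τ k ψ ρ r δ : ℝ} {j : ℕ} (h : FR x n z τ k ψ ρ r δ) (hj : j ≤ 1) :
    IntegrableOn (fun v => Wt x (-n) (-z) (-τ) δ j (-v)) (Ioi (3 / 2)) ∧
      ∫ v in Ioi (3 / 2 : ℝ), Wt x (-n) (-z) (-τ) δ j (-v) ≤ 3 / 100 * Gn x (-n) δ := by
  have _ := hj
  have hpi := Real.pi_gt_d6
  have hpi2 := Real.pi_lt_d6
  obtain ⟨hr0, hρ0, hδ, hn, hn4, hxk, hρk, hkx, hx2⟩ := h.pos
  obtain ⟨q0, q1, q2⟩ := h.q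
  have hx0 := h.sh.x0
  have hn1 := h.sh.y1
  have hτ0 := h.sh.τ0
  have hz0 := h.sh.z0
  have hψ0 := h.sh.ψ0
  have hψ1 := h.sh.ψ1
  have hζ := h.sh.ζ
  have hτ1 := h.sh.τ1
  have hk0 := h.sh.k0
  have hi : Integrable (Wt x (-n) (-z) (-τ) δ j) :=
    integrable_Wt hx0.le hδ (by rw [abs_neg, abs_of_pos hn]; exact hn4) (by
      simpa using hn.ne') _ _ _
  have hiv : IntegrableOn (fun v => Wt x (-n) (-z) (-τ) δ j (-v)) (Ioi (3 / 2)) :=
    hi.comp_neg.integrableOn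
  refine ⟨hiv, ?_⟩
  have hfl := ss_flat h.sh hn1
  have hw : ∀ v : ℝ, 0 ≤ v → Real.exp (j * pr x (-v)) ≤ 1 := by
    intro v hv
    rw [pr_neg hx0.le hv]
    refine Real.exp_le_one_iff.2 ?_
    have := pa_nonneg hx0.le hv
    have hj0 : (0 : ℝ) ≤ j := j.cast_nonneg
    nlinarith only [this]
  -- zone A
  obtain ⟨A, hA⟩ : ∃ A, A = Real.exp (-(1 / 4 * (1 + k * Real.exp (-n)) / δ)) := ⟨_, rfl⟩
  have hA0 : 0 < A := by rw [hA]; exact Real.exp_pos _
  have zA : ∀ v, 3 / 2 < v → v ≤ 2 * Real.pi - ψ - τ - 3 / 2 →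
      Wt x (-n) (-z) (-τ) δ j (-v) ≤ 14143 / 10000 * A := by
    intro v hv hv1
    have h1 := cRl h.sh h.D hv.le (by linarith only [hv1])
    have h2 := hw v (by linarith only [hv])
    have h3 := pv_two hx0.le (-v)
    unfold Wt
    rw [pr_neg hx0.le (by linarith)] at h2 ⊢
    have h4 : Real.exp (-(Hc x (-n) (-z) (-τ) (-(pa x v)) (-v) / δ)) ≤ A := by
      rw [hA]
      refine Real.exp_le_exp.2 (neg_le_neg ?_)
      gcongr
    calc _ ≤ 14143 / 10000 * (1 * A) := by gcongr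
      _ = _ := by ring
  have hAG : 18 * A ≤ 1 / 3000 * Gn x (-n) δ := by
    rw [hA]
    exact h.zoneA
  have hG0 : 0 ≤ Gn x (-n) δ := by
    unfold Gn
    (clear * - hδ hx0; positivity)
  -- the flat zone
  have zF : ∀ v, 2 * Real.pi - ψ - τ - 3 / 2 < v → Wt x (-n) (-z) (-τ) δ j (-v) ≤
      Real.exp (-(Hc x (-n) (-z) (-τ) (-(a4 x)) (-v) / δ)) := by
    intro v hv
    have h0 : 0 < ss x := ss_pos hx0.le
    have h1 : ss x ≤ v := by linarith only [hfl, hv]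
    have h2 := hw v (by linarith only [h0, h1])
    unfold Wt
    rw [pv_flat (by rw [abs_neg, abs_of_nonneg (by linarith only [h0, h1])]; exact h1), one_mul]
    rw [pr_neg hx0.le (by linarith), pa_flat hx0.le h1] at h2 ⊢
    have h3 := Real.exp_pos (-(Hc x (-n) (-z) (-τ) (-(a4 x)) (-v) / δ))
    nlinarith only [h2, h3]
  have hlen : (2 * Real.pi - ψ - τ - 3 / 2 - 3 / 2) * (14143 / 10000 * A) ≤ 18 * A := by
    nlinarith only [hpi2, hτ0, hψ0, hA0]
  rcases le_total x 3 with h3 | h3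
  · -- linear
    have ha : a4 x = 1 := ofr_a_lo hx0 h3
    rw [ha] at zF
    have hδ1 : δ ≤ 13 / 200 := by
      rw [h.del, div_le_iff₀ hr0]
      linarith only [hρk, hkx, hn1, h3, h.r0]
    have hm : 0 < 47 / 100 / δ := by (clear * - hδ; positivity)
    have zL : ∀ v, 2 * Real.pi - ψ - τ - 3 / 2 < v → Wt x (-n) (-z) (-τ) δ j (-v) ≤
        Real.exp (-(7 / 20 / δ + 47 / 100 / δ * (v - (2 * Real.pi - ψ - τ - 3 / 2)))) := by
      intro v hv
      refine (zF v hv).trans (Real.exp_le_exp.2 (neg_le_neg ?_))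
      have h5 : 7 / 20 / δ + 47 / 100 / δ * (v - (2 * Real.pi - ψ - τ - 3 / 2)) =
          (7 / 20 + 47 / 100 * (v - (2 * Real.pi - ψ - τ - 3 / 2))) / δ := by ring
      rw [h5]
      gcongr
      rw [Hc_l h.sh]
      have he : Real.exp (-1 : ℝ) ≤ 3679 / 10000 := SokamF1G.em1_hi
      have hek : Real.exp (-1 : ℝ) * k ≤ 3679 / 10000 * (x + 2 / 5 * n) :=
        mul_le_mul he hkx hk0.le (by norm_num)
      have hE := Real.exp_pos (-1)
      have hc := mul_nonneg (mul_nonneg hE.le hk0.le)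
        (sub_nonneg.2 (Real.cos_le_one (v - (2 * Real.pi - ψ - τ))))
      have h6 : 47 / 100 * (v - (2 * Real.pi - ψ - τ - 3 / 2)) ≤
          (1 - n) * (v - (2 * Real.pi - ψ - τ - 3 / 2)) :=
        mul_le_mul_of_nonneg_right (by linarith only [hn1]) (by linarith only [hv])
      have h7 : 47 / 100 * (3268 / 1000) ≤ (1 - n) * (2 * Real.pi - ψ - τ - 3 / 2 - z) :=
        mul_le_mul (by linarith only [hn1]) (by linarith only [hpi, hψ1, hζ]) (by norm_num) (by linarith only [hn1])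
      nlinarith only [h3, hv, hek, hc, h6, h7]
    have := zone_split hiv (by linarith only [hpi, hψ1, hτ1]) zA zL (ii_lin hm)
    rw [zoneL hm] at this
    have h5 : Real.exp (-(7 / 20 / δ)) ≤ 1 / 100 := by
      refine exp_neg_le (by norm_num) (SokamV3T.exp47.trans (Real.exp_le_exp.2 ?_))
      rw [le_div_iff₀ hδ]
      linarith only [hδ1]
    have h6 : Real.exp (-(7 / 20 / δ)) / (47 / 100 / δ) ≤ 1 / 47 * δ := by
      rw [div_le_iff₀ hm]
      have : 1 / 47 * δ * (47 / 100 / δ) = 1 / 100 := by field_simp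
      rw [this]
      exact h5
    have h7 := otr_lin (x := x) (n := n) (c := 1 / 47 * δ) (A := 1 / 47) (B := 29 / 1000) hx0 h3 hn.le
      (by linarith only [hn1]) hδ hδ1 (by norm_num) (by norm_num) (by norm_num) rfl
    linarith only [hAG, hG0, hlen, this, h6, h7]
  · -- lumps
    obtain ⟨a, hadef⟩ : ∃ a, a = a4 x := ⟨_, rfl⟩
    rw [← hadef] at zF hn4
    have hx1 : 0 < 1 + x := by linarith only [h3]
    have ha : a * (1 + x) = 4 := by
      rw [hadef, ofr_a_hi h3]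
      field_simp
    have hL := otr_lev_l h.sh h3 h.rho h.r0 h.G h.η h.ηζ ha (by linarith only [hn4])
    obtain ⟨-, hm1⟩ := fRl h.sh h.rho h.D h.r0 h.G h.η h.ηζ
    rw [← hadef] at hm1
    have ha0 : 0 < a := by linarith only [hn, hn4]
    have ha1 : a ≤ 1 := by rw [hadef]; exact a4_le x
    obtain ⟨F, hF⟩ : ∃ F, F = (a - n) * (2 * Real.pi - ψ - τ - z) + x * (1 - a) -
      Real.exp (-a) * k := ⟨_, rfl⟩
    rw [← hF] at hL
    have hE0 := Real.exp_pos (-a)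
    have hκ0 : 0 < Real.exp (-a) * k / δ := by (clear * - hk0 hδ; positivity)
    have hκ : 10 ≤ Real.exp (-a) * k / δ := by
      have e1 : Real.exp (-a) * k / δ = Real.exp (n - a) * r := by
        rw [h.del, h.rho, show n - a = -a + n by ring, Real.exp_add, Real.exp_neg n]
        field_simp
      rw [e1]
      have e2 : (3678 / 10000 : ℝ) ≤ Real.exp (n - a) :=
        SokamF1G.em1_lo.trans (Real.exp_le_exp.2 (by linarith only [hn, ha1]))
      have := mul_le_mul e2 h.r0 (by norm_num) (Real.exp_pos _).le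
      linarith only [this]
    have hm : 3 / 2 ≤ (a - n) / δ := by
      rw [le_div_iff₀ hδ, h.del, mul_div_assoc', div_le_iff₀ hr0]
      linarith only [hm1]
    have zB : ∀ v, 2 * Real.pi - ψ - τ - 3 / 2 < v → Wt x (-n) (-z) (-τ) δ j (-v) ≤
        zb (F / δ) ((a - n) / δ) (Real.exp (-a) * k / δ) (2 * Real.pi - ψ - τ) v := by
      intro v hv
      refine (zF v hv).trans (le_of_eq ?_)
      unfold zb
      rw [Hc_l h.sh, ← hF]
      congr 1
      field_simp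
    have hs := zone_split hiv (by linarith only [hpi, hz0, hψ1, hζ]) zA zB (ii_zb (by linarith only [hm]) hκ0.le _)
    have hB := zoneB (F := F / δ) (m := (a - n) / δ) (κ := Real.exp (-a) * k / δ)
      (c0 := 2 * Real.pi - ψ - τ) hm hκ
    have hfm : F / δ - ((a - n) / δ) ^ (2 : ℕ) / (4 / 5 * (Real.exp (-a) * k / δ)) =
        (F - 5 / 4 * (a - n) ^ (2 : ℕ) * Real.exp a / k) / δ := by
      rw [Real.exp_neg]
      have := Real.exp_pos a
      field_simp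
    have hδκ : δ * (Real.exp (-a) * k / δ) = Real.exp (-a) * k := by field_simp
    have hEa : Real.exp a * Real.exp (-a) = 1 := by rw [← Real.exp_add]; simp
    have hfin : ∀ Λ X c E : ℝ, Λ * ρ ≤ r * (F - 5 / 4 * (a - n) ^ (2 : ℕ) * Real.exp a / k) →
        Real.exp (-(2 * Λ)) ≤ X → √((1 + -n) ^ (2 : ℕ) + x ^ (2 : ℕ)) ≤ c * k → Real.exp a ≤ E → 0 ≤ c → 0 ≤ X →
        (69 / 20) ^ (2 : ℕ) * X * c * E ≤ (89 / 3000) ^ (2 : ℕ) * 6283 / 1000 →
        69 / 20 * Real.exp (-(F / δ) + ((a - n) / δ) ^ (2 : ℕ) / (4 / 5 * (Real.exp (-a) * k / δ))) /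
          √(Real.exp (-a) * k / δ) ≤ 89 / 3000 * Gn x (-n) δ := by
      intro Λ X c E h1 h2 h4 h5 h6 h7 h8
      have h9 : Λ ≤ F / δ - ((a - n) / δ) ^ (2 : ℕ) / (4 / 5 * (Real.exp (-a) * k / δ)) := by
        rw [hfm, le_div_iff₀ hδ, h.del, mul_div_assoc', div_le_iff₀ hr0]
        linarith only [h1]
      have := otr_lump (x := x) (n := n) (k := k) (M := 1) (B := 89 / 3000) hδ hκ0 q0 rfl (by norm_num)
        (by norm_num) h9 (by
          have e1 : (89 / 3000 : ℝ) ^ (2 : ℕ) * 6283 / 1000 * δ * (Real.exp (-a) * k / δ) =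
              (89 / 3000 : ℝ) ^ (2 : ℕ) * 6283 / 1000 * (Real.exp (-a) * k) := by
            rw [mul_assoc, hδκ]
          rw [e1]
          have e2 : (1 : ℝ) ^ (2 : ℕ) * (69 / 20) ^ (2 : ℕ) * Real.exp (-(2 * Λ)) * √((1 + -n) ^ (2 : ℕ) + x ^ (2 : ℕ)) ≤
              (1 : ℝ) ^ (2 : ℕ) * (69 / 20) ^ (2 : ℕ) * X * (c * k) := by gcongr
          refine e2.trans ?_
          have e3 : (1 : ℝ) ^ (2 : ℕ) * (69 / 20) ^ (2 : ℕ) * X * (c * k) =
              ((69 / 20) ^ (2 : ℕ) * X * c * Real.exp a) * (Real.exp (-a) * k) := by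
            linear_combination (-((69 / 20) ^ (2 : ℕ) * X * c * k)) * hEa
          rw [e3]
          have e4 : (69 / 20) ^ (2 : ℕ) * X * c * Real.exp a ≤ (69 / 20) ^ (2 : ℕ) * X * c * E := by gcongr
          exact mul_le_mul_of_nonneg_right (e4.trans h8) (by positivity))
      rwa [one_mul] at this
    have hmain : 69 / 20 * Real.exp (-(F / δ) + ((a - n) / δ) ^ (2 : ℕ) / (4 / 5 * (Real.exp (-a) * k / δ))) /
          √(Real.exp (-a) * k / δ) ≤ 89 / 3000 * Gn x (-n) δ := by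
      rcases le_total x 5 with h5 | h5
      · refine hfin (9 / 2) (1 / 8000) (1055 / 1000) (2719 / 1000) (hL.2 h5) ?_ ?_ ?_ (by norm_num)
          (by norm_num) (by norm_num)
        · exact exp_neg_le (by norm_num) (exp9.trans (Real.exp_le_exp.2 (by norm_num)))
        · exact q_le_k hx0 hn.le (by linarith only [hn4, ha1]) hxk (by norm_num) (by nlinarith only [h3])
        · exact (Real.exp_le_exp.2 ha1).trans SokamF1G.e1_hi
      · refine hfin (21 / 5) (1 / 4348) (102 / 100) (1948 / 1000) (hL.1 h5) ?_ ?_ ?_ (by norm_num)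
          (by norm_num) (by norm_num)
        · exact exp_neg_le (by norm_num) (exp84.trans (Real.exp_le_exp.2 (by norm_num)))
        · exact q_le_k hx0 hn.le (by linarith only [hn4, ha1]) hxk (by norm_num) (by nlinarith only [h5])
        · refine (Real.exp_le_exp.2 ?_).trans otr_e23
          nlinarith only [ha, h5]
    linarith only [hAG, hlen, hs, hB, hmain]

/-- tail, right side, `s > 0` (true `4e-8`) -/
theorem tailRr {x n z τ k ψ ρ r δ : ℝ} {j : ℕ} (h : FR x n z τ k ψ ρ r δ) (hj : j ≤ 1) :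
    IntegrableOn (Wt x (-n) (-z) (-τ) δ j) (Ioi (3 / 2)) ∧
      ∫ s in Ioi (3 / 2 : ℝ), Wt x (-n) (-z) (-τ) δ j s ≤ 1 / 500 * Gn x (-n) δ := by
  have hpi := Real.pi_gt_d6
  have hpi2 := Real.pi_lt_d6
  obtain ⟨hr0, hρ0, hδ, hn, hn4, hxk, hρk, hkx, hx2⟩ := h.pos
  obtain ⟨q0, q1, q2⟩ := h.q
  have hx0 := h.sh.x0
  have hn1 := h.sh.y1
  have hτ0 := h.sh.τ0
  have hz0 := h.sh.z0
  have hψ0 := h.sh.ψ0
  have hψ1 := h.sh.ψ1
  have hζ := h.sh.ζ
  have hτ1 := h.sh.τ1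
  have hk0 := h.sh.k0
  have hi : Integrable (Wt x (-n) (-z) (-τ) δ j) :=
    integrable_Wt hx0.le hδ (by rw [abs_neg, abs_of_pos hn]; exact hn4) (by
      simpa using hn.ne') _ _ _
  have hiv : IntegrableOn (Wt x (-n) (-z) (-τ) δ j) (Ioi (3 / 2)) := hi.integrableOn
  refine ⟨hiv, ?_⟩
  have hfl := ss_flat h.sh hn1
  have hw : ∀ v : ℝ, 0 ≤ v → Real.exp (j * pr x v) ≤ Real.exp (a4 x) := by
    intro v hv
    rw [pr_pos hx0.le hv]
    refine Real.exp_le_exp.2 ?_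
    have h1 := pa_nonneg hx0.le hv
    have h2 := pa_le x v
    have hj0 : (0 : ℝ) ≤ j := j.cast_nonneg
    have hj1 : (j : ℝ) ≤ 1 := by exact_mod_cast hj
    nlinarith only [h1, h2, hj1]
  have ha1 : a4 x ≤ 1 := a4_le x
  have he1 : Real.exp (a4 x) ≤ 2719 / 1000 := (Real.exp_le_exp.2 ha1).trans SokamF1G.e1_hi
  -- zone A
  obtain ⟨A, hA⟩ : ∃ A, A = Real.exp (-(1 / 4 * (1 + k * Real.exp (-n)) / δ)) := ⟨_, rfl⟩
  have hA0 : 0 < A := by rw [hA]; exact Real.exp_pos _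
  have zA : ∀ v, 3 / 2 < v → v ≤ 2 * Real.pi + ψ + τ - 3 / 2 →
      Wt x (-n) (-z) (-τ) δ j v ≤ 14143 / 10000 * (2719 / 1000 * A) := by
    intro v hv hv1
    have h1 := cRr h.sh hv.le (by linarith only [hv1])
    have h2 := (hw v (by linarith only [hv])).trans he1
    have h3 := pv_two hx0.le v
    unfold Wt
    rw [pr_pos hx0.le (by linarith)] at h2 ⊢
    have h4 : Real.exp (-(Hc x (-n) (-z) (-τ) (pa x v) v / δ)) ≤ A := by
      rw [hA]
      refine Real.exp_le_exp.2 (neg_le_neg ?_)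
      gcongr
    gcongr
  have hAG : 18 * A ≤ 1 / 3000 * Gn x (-n) δ := by
    rw [hA]
    exact h.zoneA
  have hG0 : 0 ≤ Gn x (-n) δ := by
    unfold Gn
    (clear * - hδ hx0; positivity)
  -- the flat zone
  have zF : ∀ v, 2 * Real.pi + ψ + τ - 3 / 2 < v → Wt x (-n) (-z) (-τ) δ j v ≤
      Real.exp (a4 x) * Real.exp (-(Hc x (-n) (-z) (-τ) (a4 x) v / δ)) := by
    intro v hv
    have h0 : 0 < ss x := ss_pos hx0.le
    have h1 : ss x ≤ v := by linarith only [hτ0, hψ0, hfl, hv]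
    have h2 := hw v (by linarith only [h0, h1])
    unfold Wt
    rw [pv_flat (by rw [abs_of_nonneg (by linarith only [h0, h1])]; exact h1), one_mul]
    rw [pr_pos hx0.le (by linarith), pa_flat hx0.le h1] at h2 ⊢
    gcongr
  have hlen : (2 * Real.pi + ψ + τ - 3 / 2 - 3 / 2) * (14143 / 10000 * (2719 / 1000 * A)) ≤ 18 * A := by
    nlinarith only [hpi2, hψ1, hτ1, hA0]
  rcases le_total x 3 with h3 | h3
  · -- linear
    have ha : a4 x = 1 := ofr_a_lo hx0 h3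
    rw [ha] at zF
    have hδ1 : δ ≤ 13 / 200 := by
      rw [h.del, div_le_iff₀ hr0]
      linarith only [hρk, hkx, hn1, h3, h.r0]
    have hm : 0 < 1 / δ := by (clear * - hδ; positivity)
    have zL : ∀ v, 2 * Real.pi + ψ + τ - 3 / 2 < v → Wt x (-n) (-z) (-τ) δ j v ≤
        2719 / 1000 * Real.exp (-(13 / 5 / δ + 1 / δ * (v - (2 * Real.pi + ψ + τ - 3 / 2)))) := by
      intro v hv
      refine (zF v hv).trans ?_
      have h4 : Real.exp (-(Hc x (-n) (-z) (-τ) 1 v / δ)) ≤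
          Real.exp (-(13 / 5 / δ + 1 / δ * (v - (2 * Real.pi + ψ + τ - 3 / 2)))) := by
        refine Real.exp_le_exp.2 (neg_le_neg ?_)
        have h5 : 13 / 5 / δ + 1 / δ * (v - (2 * Real.pi + ψ + τ - 3 / 2)) =
            (13 / 5 + 1 * (v - (2 * Real.pi + ψ + τ - 3 / 2))) / δ := by ring
        rw [h5]
        gcongr
        rw [Hc_r h.sh]
        have he : Real.exp (1 : ℝ) ≤ 2719 / 1000 := SokamF1G.e1_hi
        have hek : Real.exp (1 : ℝ) * k ≤ 2719 / 1000 * (x + 2 / 5 * n) :=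
          mul_le_mul he hkx hk0.le (by norm_num)
        have hE := Real.exp_pos 1
        have hc := mul_nonneg (mul_nonneg hE.le hk0.le)
          (sub_nonneg.2 (Real.cos_le_one (v - (2 * Real.pi + ψ + τ))))
        have h6 : 1 * (v - (2 * Real.pi + ψ + τ - 3 / 2)) ≤
            (1 + n) * (v - (2 * Real.pi + ψ + τ - 3 / 2)) :=
          mul_le_mul_of_nonneg_right (by linarith only [hn]) (by linarith only [hv])
        have h7 : (1 + n) * (4783 / 1000) ≤ (1 + n) * (2 * Real.pi + ψ + τ - 3 / 2 + z) :=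
          mul_le_mul_of_nonneg_left (by linarith only [hpi, hτ0, hz0, hψ0]) (by linarith only [hn])
        nlinarith only [h3, hv, hek, hc, h6, h7]
      rw [ha] at he1
      gcongr
    have := zone_split hiv (by linarith only [hpi, hτ0, hψ0]) zA zL ((ii_lin hm).const_mul _)
    rw [integral_const_mul, zoneL hm] at this
    have h5 : Real.exp (-(13 / 5 / δ)) ≤ 1 / 8000 := by
      refine exp_neg_le (by norm_num) (exp9.trans (Real.exp_le_exp.2 ?_))
      rw [le_div_iff₀ hδ]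
      linarith only [hδ1]
    have h6 : 2719 / 1000 * (Real.exp (-(13 / 5 / δ)) / (1 / δ)) ≤ 1 / 2500 * δ := by
      have e1 : Real.exp (-(13 / 5 / δ)) / (1 / δ) = Real.exp (-(13 / 5 / δ)) * δ := by field_simp
      rw [e1]
      nlinarith only [hδ, h5]
    have h7 := otr_lin (x := x) (n := n) (c := 1 / 2500 * δ) (A := 1 / 2500) (B := 1 / 1000) hx0 h3 hn.le
      (by linarith only [hn1]) hδ hδ1 (by norm_num) (by norm_num) (by norm_num) rfl
    linarith only [hAG, hG0, hlen, this, h6, h7]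
  · -- lumps
    obtain ⟨a, hadef⟩ : ∃ a, a = a4 x := ⟨_, rfl⟩
    rw [← hadef] at zF hn4 ha1 he1
    have hx1 : 0 < 1 + x := by linarith only [h3]
    have ha : a * (1 + x) = 4 := by
      rw [hadef, ofr_a_hi h3]
      field_simp
    have hL := otr_lev_r h.sh h3 h.rho h.r0 h.G h.η ha
    obtain ⟨-, hm1⟩ := fRr h.sh h.rho h.D h.r0 h.G h.η
    rw [← hadef] at hm1
    have ha0 : 0 < a := by linarith only [hn, hn4]
    obtain ⟨F, hF⟩ : ∃ F, F = (a + n) * (2 * Real.pi + ψ + τ + z) + x * (1 + a) -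
      Real.exp a * k := ⟨_, rfl⟩
    rw [← hF] at hL
    have hE0 := Real.exp_pos a
    have hκ0 : 0 < Real.exp a * k / δ := by (clear * - hk0 hδ; positivity)
    have hκ : 10 ≤ Real.exp a * k / δ := by
      rw [le_div_iff₀ hδ, h.del, mul_div_assoc', div_le_iff₀ hr0]
      have e1 : 1 ≤ Real.exp a := Real.one_le_exp ha0.le
      have e2 : 1 * ρ ≤ Real.exp a * k := mul_le_mul e1 hρk hρ0.le hE0.le
      have e3 := mul_le_mul e2 h.r0 (by norm_num) (by (clear * - hk0; positivity))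
      linarith only [hρ0, e3]
    have hm : 3 / 2 ≤ (a + n) / δ := by
      rw [le_div_iff₀ hδ, h.del, mul_div_assoc', div_le_iff₀ hr0]
      linarith only [hm1]
    have zB : ∀ v, 2 * Real.pi + ψ + τ - 3 / 2 < v → Wt x (-n) (-z) (-τ) δ j v ≤
        Real.exp a * zb (F / δ) ((a + n) / δ) (Real.exp a * k / δ) (2 * Real.pi + ψ + τ) v := by
      intro v hv
      refine (zF v hv).trans (le_of_eq ?_)
      unfold zb
      rw [Hc_r h.sh, ← hF]
      congr 2
      field_simp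
    have hs := zone_split hiv (by linarith only [hpi, hτ0, hψ0]) zA zB ((ii_zb (by linarith only [hm]) hκ0.le _).const_mul _)
    rw [integral_const_mul] at hs
    have hB := zoneB (F := F / δ) (m := (a + n) / δ) (κ := Real.exp a * k / δ)
      (c0 := 2 * Real.pi + ψ + τ) hm hκ
    have hfm : F / δ - ((a + n) / δ) ^ (2 : ℕ) / (4 / 5 * (Real.exp a * k / δ)) =
        (F - 5 / 4 * (a + n) ^ (2 : ℕ) * Real.exp (-a) / k) / δ := by
      rw [Real.exp_neg]
      field_simp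
    have h9 : (8 : ℝ) ≤ F / δ - ((a + n) / δ) ^ (2 : ℕ) / (4 / 5 * (Real.exp a * k / δ)) := by
      rw [hfm, le_div_iff₀ hδ, h.del, mul_div_assoc', div_le_iff₀ hr0]
      linarith only [hL]
    have hq : √((1 + -n) ^ (2 : ℕ) + x ^ (2 : ℕ)) ≤ 1055 / 1000 * k :=
      q_le_k hx0 hn.le (by linarith only [ha1, hn4]) hxk (by norm_num) (by nlinarith only [h3])
    have hmain := otr_lump (x := x) (n := n) (k := k) (M := Real.exp a) (B := 1 / 600) hδ hκ0 q0 rfl
      (by norm_num) hE0.le h9 (by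
        have e1 : (1 / 600 : ℝ) ^ (2 : ℕ) * 6283 / 1000 * δ * (Real.exp a * k / δ) =
            (1 / 600 : ℝ) ^ (2 : ℕ) * 6283 / 1000 * (Real.exp a * k) := by
          field_simp
        rw [e1]
        have e0 : Real.exp (-(2 * 8)) ≤ 1 / 7000000 :=
          exp_neg_le (by norm_num) (exp16.trans (Real.exp_le_exp.2 (by norm_num)))
        have e2 : Real.exp a ^ (2 : ℕ) * (69 / 20) ^ (2 : ℕ) * Real.exp (-(2 * 8)) * √((1 + -n) ^ (2 : ℕ) + x ^ (2 : ℕ)) ≤
            Real.exp a ^ (2 : ℕ) * (69 / 20) ^ (2 : ℕ) * (1 / 7000000) * (1055 / 1000 * k) := by gcongr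
        refine e2.trans ?_
        have e3 : Real.exp a ^ (2 : ℕ) * (69 / 20) ^ (2 : ℕ) * (1 / 7000000) * (1055 / 1000 * k) =
            (Real.exp a * ((69 / 20) ^ (2 : ℕ) * (1 / 7000000) * (1055 / 1000))) * (Real.exp a * k) := by
          ring
        rw [e3]
        refine mul_le_mul_of_nonneg_right ?_ (by (clear * - hk0; positivity))
        linarith only [he1])
    have hB' := mul_le_mul_of_nonneg_left hB hE0.le
    linarith only [hAG, hlen, hs, hmain, hB']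

end SokamV3O

end
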