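import Pool.Agent.Lib_MP_af4de1_zy.Z98

/-! ### Lib_MP_af4de1_f1.MainB5 -/

section
namespace SokamF1G
end SokamF1G
namespace SokamF1M
end SokamF1M
namespace SokamPG
end SokamPG
namespace SokamU
end SokamU
/-!
# LEMMA MAIN: the three brackets, with numbers as parameters
-/

set_option autoImplicit false

open Complex MeasureTheory Set SokamU SokamPG SokamF1G SokamF1M

namespace SokamF1B

/-- `D` -/
noncomputable def Dn (x y : ℝ) : ℝ := √((1 + y) ^ (2 : ℕ) + x ^ (2 : ℕ))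

theorem norm_Dn (x y : ℝ) : ‖1 - I * ((x : ℂ) + y * I)‖ = Dn x y := by
  unfold Dn
  rw [Complex.norm_def]
  congr 1
  have e : 1 - I * ((x : ℂ) + y * I) = ((1 + y : ℝ) : ℂ) + ((-x : ℝ) : ℂ) * I := by
    push_cast
    linear_combination (-(y : ℂ)) * Complex.I_sq
  rw [e, Complex.normSq_add_mul_I]
  ring

theorem norm_K (x y : ℝ) : ‖(x : ℂ) + y * I‖ = √(x ^ (2 : ℕ) + y ^ (2 : ℕ)) := by
  rw [Complex.norm_def, Complex.normSq_add_mul_I]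

theorem Wc_le {x : ℝ} (hx : 0 ≤ x) : Wc x ≤ 14143 / 10000 := by
  have h : (1 + x)⁻¹ ≤ 1 := inv_le_one_of_one_le₀ (by linarith)
  have h0 : 0 ≤ (1 + x)⁻¹ := inv_nonneg.2 (by linarith)
  unfold Wc
  rw [Real.sqrt_le_left (by norm_num)]
  nlinarith

/-- The size of the Gaussian. -/
noncomputable def Gn (x y δ : ℝ) : ℝ := √(2 * Real.pi * δ / Dn x y)

section

variable {x y δ la μ j2 j3 : ℝ} {hl : ℝ → ℝ} (h : HypH x y δ la μ j2 j3 hl)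

include h

theorem HypH.D0 : 0 < Dn x y := by
  unfold Dn
  have := (abs_lt.1 h.hy).1
  have : 0 < (1 + y) ^ (2 : ℕ) := by
    have : 0 < 1 + y := by linarith
    positivity
  positivity

theorem HypH.int_gau : ‖∫ s : ℝ, gau x y δ s‖ = Gn x y δ := by
  have hδ := h.hδ
  have hD := h.D0
  have hn := norm_Dn x y
  have h1 := gauss_norm (c := (1 + x)⁻¹) hδ (K := (x : ℂ) + y * I)
    (norm_pos_iff.1 (by rw [hn]; exact hD)) (by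
      have h2 := gauss_re (x := x) (y := y) hδ 1
      rw [one_div, Complex.ofReal_one, mul_one, one_pow, mul_one] at h2
      have h3 : (I / δ * (1 - I * ((x : ℂ) + y * I)) * ((((1 + x)⁻¹ : ℝ) : ℂ) + I) ^ (2 : ℕ)).re =
          2 * (I / δ * (1 - I * ((x : ℂ) + y * I)) * ((((1 + x)⁻¹ : ℝ) : ℂ) + I) ^ (2 : ℕ) / 2).re := by
        have e : I / δ * (1 - I * ((x : ℂ) + y * I)) * ((((1 + x)⁻¹ : ℝ) : ℂ) + I) ^ (2 : ℕ) =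
            ((2 : ℝ) : ℂ) *
              (I / δ * (1 - I * ((x : ℂ) + y * I)) * ((((1 + x)⁻¹ : ℝ) : ℂ) + I) ^ (2 : ℕ) / 2) := by
          push_cast
          ring
        conv_lhs => rw [e, Complex.re_ofReal_mul]
      rw [h3, h2]
      have := h.hB
      linarith)
  rw [hn] at h1
  unfold Gn
  rw [← h1]
  rfl

theorem HypH.i_gau : Integrable (gau x y δ) := by
  have hδ := h.hδ
  have hgc : Continuous (gau x y δ) := by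
    unfold gau
    fun_prop
  refine ((gauss_int h.hB).const_mul (Wc x)).mono' hgc.aestronglyMeasurable
    (Filter.Eventually.of_forall fun s => ?_)
  rw [norm_gau hδ]

theorem HypH.gau_out : ∫ s in (Ioo (-1 : ℝ) 1)ᶜ, ‖gau x y δ s‖ ≤
    Wc x * (Real.exp (-(Qf x y / δ)) / (Qf x y / δ)) := by
  have hδ := h.hδ
  simp_rw [norm_gau hδ]
  rw [integral_const_mul]
  exact mul_le_mul_of_nonneg_left (int_gtail h.hB) (Wc_pos x).le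

theorem HypH.br0 : ‖br (1 + x)⁻¹ (1 + x) δ (((x : ℂ) + y * I) / δ) (fun _ => 1) -
    ∫ s : ℝ, gau x y δ s‖ ≤
    (∫ s in Ioo (-1 : ℝ) 1,
      ‖gi (1 + x)⁻¹ (1 + x) (fun _ => 1) (((x : ℂ) + y * I) / δ) 0 (-((δ : ℂ) * I)) s -
        gau x y δ s‖) +
    (∫ s in Ioo (-(3 / 2)) (3 / 2) \ Ioo (-1 : ℝ) 1,
      ‖gi (1 + x)⁻¹ (1 + x) (fun _ => 1) (((x : ℂ) + y * I) / δ) 0 (-((δ : ℂ) * I)) s‖) +
    (∫ s in {s | 3 / 2 ≤ |s|},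
      ‖gi (1 + x)⁻¹ (1 + x) (fun _ => 1) (((x : ℂ) + y * I) / δ) 0 (-((δ : ℂ) * I)) s‖) +
    ∫ s in (Ioo (-1 : ℝ) 1)ᶜ, ‖gau x y δ s‖ := by
  have i1 := h.int (wt_const 1)
  have i2 := h.i_gau
  set F := gi (1 + x)⁻¹ (1 + x) (fun _ => 1) (((x : ℂ) + y * I) / δ) 0 (-((δ : ℂ) * I)) with hF
  have e1 : br (1 + x)⁻¹ (1 + x) δ (((x : ℂ) + y * I) / δ) (fun _ => 1) -
      ∫ s : ℝ, gau x y δ s = ∫ s : ℝ, (F s - gau x y δ s) := by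
    rw [integral_sub i1 i2]
    rfl
  rw [e1]
  refine (norm_integral_le_integral_norm _).trans ?_
  have i3 : Integrable fun s => ‖F s - gau x y δ s‖ := (i1.sub i2).norm
  have hm := measurableSet_Ioo (a := -(1 : ℝ)) (b := 1)
  rw [← integral_add_compl hm i3]
  have e2 : ∫ s in (Ioo (-1 : ℝ) 1)ᶜ, ‖F s - gau x y δ s‖ ≤
      (∫ s in (Ioo (-1 : ℝ) 1)ᶜ, ‖F s‖) + ∫ s in (Ioo (-1 : ℝ) 1)ᶜ, ‖gau x y δ s‖ := by
    rw [← integral_add i1.norm.integrableOn i2.norm.integrableOn]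
    exact integral_mono i3.integrableOn (i1.norm.integrableOn.fun_add i2.norm.integrableOn)
      fun s => norm_sub_le _ _
  have e3 := split3 i1.norm
  have e4 := integral_add_compl hm i1.norm
  linarith

theorem HypH.brw {w : ℂ → ℂ} {K : ℝ} (hw : Wt w K) :
    ‖br (1 + x)⁻¹ (1 + x) δ (((x : ℂ) + y * I) / δ) w‖ ≤
    (∫ s in Ioo (-1 : ℝ) 1,
      ‖gi (1 + x)⁻¹ (1 + x) w (((x : ℂ) + y * I) / δ) 0 (-((δ : ℂ) * I)) s‖) +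
    (∫ s in Ioo (-(3 / 2)) (3 / 2) \ Ioo (-1 : ℝ) 1,
      ‖gi (1 + x)⁻¹ (1 + x) w (((x : ℂ) + y * I) / δ) 0 (-((δ : ℂ) * I)) s‖) +
    (∫ s in {s | 3 / 2 ≤ |s|},
      ‖gi (1 + x)⁻¹ (1 + x) w (((x : ℂ) + y * I) / δ) 0 (-((δ : ℂ) * I)) s‖) := by
  have i1 := h.int hw
  rw [← split3 i1.norm]
  exact norm_integral_le_integral_norm _

/-- numeric parameters -/
structure Num (x y δ la μ j2 j3 l γ θ θ2 d0 B0 g1 k0 ka kb kc k2 : ℝ) : Prop where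
  l0 : 0 ≤ l
  γ0 : 0 ≤ γ
  j20 : 0 ≤ j2
  j30 : 0 ≤ j3
  d00 : 0 < d0
  B00 : 0 < B0
  g10 : 0 ≤ g1
  k00 : 0 ≤ k0
  ka0 : 0 ≤ ka
  kb0 : 0 ≤ kb
  kc0 : 0 ≤ kc
  k20 : 0 ≤ k2
  hL : Wc x ^ (2 : ℕ) * Dn x y ≤ 2 * l * Qf x y
  hγ : (1 + x)⁻¹ ^ (2 : ℕ) * δ ≤ γ * Qf x y
  hθ : ‖(x : ℂ) + y * I‖ ^ (2 : ℕ) * δ ≤ θ * Dn x y ^ (3 : ℕ)
  hθ2 : δ ≤ θ2 * Dn x y ^ (3 : ℕ)
  hd0 : d0 ≤ Dn x y
  hB0 : B0 ≤ Qf x y / δ
  n0 : 16 * l ^ (4 : ℕ) * (1 / 2 * ((1 / 6 + 63 / 12500) * ((1 / la ^ (2 : ℕ) + 1) / 2) +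
    9 / 35 * γ * (1 / la ^ (3 : ℕ) + 1) + 1 / 6 * (j3 + 1 / 2))) ^ (2 : ℕ) * θ ≤ 2 * Real.pi * k0 ^ (2 : ℕ)
  na : l ^ (3 : ℕ) ≤ 16 * ka ^ (2 : ℕ) * la ^ (3 : ℕ)
  nb : 8 * l ^ (3 : ℕ) * ((18 / 125) ^ (2 : ℕ) * γ / la ^ (4 : ℕ)) ≤ 2 * Real.pi * kb ^ (2 : ℕ)
  nc : 8 * l ^ (3 : ℕ) * (j2 ^ (2 : ℕ) / 4) ≤ 2 * Real.pi * kc ^ (2 : ℕ)
  n2 : 16 * l ^ (4 : ℕ) * ((1 / 2 + 63 / 3125) / (2 * la ^ (2 : ℕ)) + 36 / 35 * γ / la ^ (3 : ℕ) + j3 / 2) ^ (2 : ℕ) * θ2 ≤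
    2 * Real.pi * k2 ^ (2 : ℕ)
  nE : l * (Qf x y / δ) * Real.exp (-(2 * (μ * (Qf x y / δ)))) ≤ Real.pi * g1 ^ (2 : ℕ) * μ ^ (2 : ℕ)
  nG : l * (Qf x y / δ) * Real.exp (-(2 * (1 * (Qf x y / δ)))) ≤
    Real.pi * (1 / 1000) ^ (2 : ℕ) * 1 ^ (2 : ℕ)

variable {l γ θ θ2 d0 B0 g1 k0 ka kb kc k2 : ℝ}
  (n : Num x y δ la μ j2 j3 l γ θ θ2 d0 B0 g1 k0 ka kb kc k2)

include n

theorem HypH.i0 : (∫ s in Ioo (-1 : ℝ) 1,
      ‖gi (1 + x)⁻¹ (1 + x) (fun _ => 1) (((x : ℂ) + y * I) / δ) 0 (-((δ : ℂ) * I)) s -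
        gau x y δ s‖) +
    (∫ s in Ioo (-(3 / 2)) (3 / 2) \ Ioo (-1 : ℝ) 1,
      ‖gi (1 + x)⁻¹ (1 + x) (fun _ => 1) (((x : ℂ) + y * I) / δ) 0 (-((δ : ℂ) * I)) s‖) +
    (∫ s in (Ioo (-1 : ℝ) 1)ᶜ, ‖gau x y δ s‖) ≤
    (k0 + g1 / B0 + 1 / (1000 * B0)) * Gn x y δ := by
  have hB := h.hB
  have hla := h.hla
  have hμ := h.hμ
  have hδ := h.hδ
  have hq := h.hq
  have hD := h.D0
  have hW := Wc_pos x
  have hG : 0 ≤ Gn x y δ := Real.sqrt_nonneg _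
  have hγB : (1 + x)⁻¹ ^ (2 : ℕ) ≤ γ * (Qf x y / δ) := by
    rw [mul_div_assoc', le_div_iff₀ hδ]
    exact n.hγ
  set B := Qf x y / δ with hBd
  set C0 : ℝ := 1 / 2 * ((1 / 6 + 63 / 12500) * ((1 / la ^ (2 : ℕ) + 1) / 2) +
    9 / 35 * γ * (1 / la ^ (3 : ℕ) + 1) + 1 / 6 * (j3 + 1 / 2)) with hC0
  have hC00 : 0 ≤ C0 := by
    have := n.γ0
    have := n.j30
    positivity
  have t1 : ∫ s in Ioo (-1 : ℝ) 1,
      ‖gi (1 + x)⁻¹ (1 + x) (fun _ => 1) (((x : ℂ) + y * I) / δ) 0 (-((δ : ℂ) * I)) s -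
        gau x y δ s‖ ≤ k0 * Gn x y δ := by
    refine h.M0.trans ?_
    refine le_trans ?_ (redA hW hD hq hδ n.hL (X := ‖(x : ℂ) + y * I‖ / δ * C0) (k := k0)
      (by positivity) n.k00 ?_)
    · rw [← hBd]
      have e1 : Wc x ^ (4 : ℕ) * (‖(x : ℂ) + y * I‖ / δ * C0) / B ^ (2 : ℕ) =
          Wc x ^ (4 : ℕ) * (‖(x : ℂ) + y * I‖ / δ) * (C0 / B ^ (2 : ℕ)) := by ring
      rw [e1]
      refine mul_le_mul_of_nonneg_left ?_ (by positivity)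
      have e2 : C0 / B ^ (2 : ℕ) = 1 / 2 * ((1 / 6 + 63 / 12500) *
          (1 / (2 * (la * B) ^ (2 : ℕ)) + 1 / (2 * B ^ (2 : ℕ))) +
          9 / 35 * (γ * B) * (1 / (la * B) ^ (3 : ℕ) + 1 / B ^ (3 : ℕ)) +
          1 / 6 * (j3 / B ^ (2 : ℕ) + 1 / (2 * B ^ (2 : ℕ)))) := by
        rw [hC0]
        field_simp
      rw [e2]
      gcongr
    · have h1 := n.n0
      rw [← hC0] at h1
      have h2 := n.hθ
      have e3 : 16 * l ^ (4 : ℕ) * (‖(x : ℂ) + y * I‖ / δ * C0) ^ (2 : ℕ) * δ ^ (3 : ℕ) =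
          16 * l ^ (4 : ℕ) * C0 ^ (2 : ℕ) * (‖(x : ℂ) + y * I‖ ^ (2 : ℕ) * δ) := by
        field_simp
      rw [e3]
      have hl0 := n.l0
      calc 16 * l ^ (4 : ℕ) * C0 ^ (2 : ℕ) * (‖(x : ℂ) + y * I‖ ^ (2 : ℕ) * δ) ≤
            16 * l ^ (4 : ℕ) * C0 ^ (2 : ℕ) * (θ * Dn x y ^ (3 : ℕ)) := by gcongr
        _ = 16 * l ^ (4 : ℕ) * C0 ^ (2 : ℕ) * θ * Dn x y ^ (3 : ℕ) := by ring
        _ ≤ 2 * Real.pi * k0 ^ (2 : ℕ) * Dn x y ^ (3 : ℕ) := by gcongr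
  have t2 := h.O0
  have t3 := redE hW hD hq hδ n.hL hμ n.g10 n.nE
  have t4 := h.gau_out
  have t5 := redE hW hD hq hδ n.hL one_pos (by norm_num : (0 : ℝ) ≤ 1 / 1000) n.nG
  rw [one_mul] at t5
  rw [← hBd] at t2 t3 t4 t5
  have hB0 := n.B00
  have hB1 := n.hB0
  have t6 : Wc x * (Real.exp (-(μ * B)) / (μ * B)) ≤ g1 / B0 * Gn x y δ := by
    rw [div_mul_eq_mul_div, le_div_iff₀ hB0]
    refine le_trans ?_ t3
    rw [mul_comm]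
    exact mul_le_mul_of_nonneg_right hB1 (by positivity)
  have t7 : Wc x * (Real.exp (-B) / B) ≤ 1 / (1000 * B0) * Gn x y δ := by
    have e : 1 / (1000 * B0) * Gn x y δ = (1 / 1000 * Gn x y δ) / B0 := by
      field_simp
    rw [e, le_div_iff₀ hB0]
    refine le_trans ?_ t5
    rw [mul_comm]
    exact mul_le_mul_of_nonneg_right hB1 (by positivity)
  have : (k0 + g1 / B0 + 1 / (1000 * B0)) * Gn x y δ =
    k0 * Gn x y δ + g1 / B0 * Gn x y δ + 1 / (1000 * B0) * Gn x y δ := by ring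
  linarith

theorem HypH.b0 : ‖br (1 + x)⁻¹ (1 + x) δ (((x : ℂ) + y * I) / δ) (fun _ => 1) -
    ∫ s : ℝ, gau x y δ s‖ ≤ (k0 + g1 / B0 + 1 / (1000 * B0)) * Gn x y δ +
    ∫ s in {s | 3 / 2 ≤ |s|},
      ‖gi (1 + x)⁻¹ (1 + x) (fun _ => 1) (((x : ℂ) + y * I) / δ) 0 (-((δ : ℂ) * I)) s‖ := by
  have key := h.br0
  have := h.i0 n
  linarith

theorem HypH.i1 : (∫ s in Ioo (-1 : ℝ) 1,
      ‖gi (1 + x)⁻¹ (1 + x) gs (((x : ℂ) + y * I) / δ) 0 (-((δ : ℂ) * I)) s‖) +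
    (∫ s in Ioo (-(3 / 2)) (3 / 2) \ Ioo (-1 : ℝ) 1,
      ‖gi (1 + x)⁻¹ (1 + x) gs (((x : ℂ) + y * I) / δ) 0 (-((δ : ℂ) * I)) s‖) ≤
    (ka + kb + kc + 3546 / 1000 * l * g1) * (δ / Dn x y) * Gn x y δ := by
  have hB := h.hB
  have hla := h.hla
  have hμ := h.hμ
  have hδ := h.hδ
  have hq := h.hq
  have hD := h.D0
  have hW := Wc_pos x
  have hc0 := h.c0
  have hG : 0 ≤ Gn x y δ := Real.sqrt_nonneg _
  have hγB : (1 + x)⁻¹ ^ (2 : ℕ) ≤ γ * (Qf x y / δ) := by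
    rw [mul_div_assoc', le_div_iff₀ hδ]
    exact n.hγ
  have hp := Real.pi_pos
  have j20 := n.j20
  have hγ0 := n.γ0
  have a1 := redB hW hD hq hδ n.hL
    (a := 1 / 2 * (√(Real.pi / (la * (Qf x y / δ))) / (4 * (la * (Qf x y / δ)))))
    (y := Real.pi / (64 * la ^ (3 : ℕ))) (k := ka) (by positivity) n.ka0 (by positivity)
    (by
      have e0 := Real.sq_sqrt (show 0 ≤ Real.pi / (la * (Qf x y / δ)) by positivity)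
      have e1 : (1 / 2 * (√(Real.pi / (la * (Qf x y / δ))) / (4 * (la * (Qf x y / δ))))) ^ (2 : ℕ) =
          √(Real.pi / (la * (Qf x y / δ))) ^ (2 : ℕ) / (64 * (la * (Qf x y / δ)) ^ (2 : ℕ)) := by ring
      rw [e1, e0]
      refine le_of_eq ?_
      field_simp)
    (by
      have := n.na
      have e : 8 * l ^ (3 : ℕ) * (Real.pi / (64 * la ^ (3 : ℕ))) = Real.pi / (8 * la ^ (3 : ℕ)) * l ^ (3 : ℕ) := by
        ring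
      rw [e]
      calc Real.pi / (8 * la ^ (3 : ℕ)) * l ^ (3 : ℕ) ≤ Real.pi / (8 * la ^ (3 : ℕ)) * (16 * ka ^ (2 : ℕ) * la ^ (3 : ℕ)) := by
            gcongr
        _ = 2 * Real.pi * ka ^ (2 : ℕ) := by
          field_simp
          ring)
  have a2 := redB hW hD hq hδ n.hL
    (a := 36 / 125 * (1 + x)⁻¹ * (1 / (2 * (la * (Qf x y / δ)) ^ (2 : ℕ))))
    (y := (18 / 125) ^ (2 : ℕ) * γ / la ^ (4 : ℕ)) (k := kb) (by positivity) n.kb0 (by positivity)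
    (by
      calc (36 / 125 * (1 + x)⁻¹ * (1 / (2 * (la * (Qf x y / δ)) ^ (2 : ℕ)))) ^ (2 : ℕ) =
            (18 / 125) ^ (2 : ℕ) * (1 + x)⁻¹ ^ (2 : ℕ) / (la * (Qf x y / δ)) ^ (4 : ℕ) := by
            ring
        _ ≤ (18 / 125) ^ (2 : ℕ) * (γ * (Qf x y / δ)) / (la * (Qf x y / δ)) ^ (4 : ℕ) := by gcongr
        _ = (18 / 125) ^ (2 : ℕ) * γ / la ^ (4 : ℕ) / (Qf x y / δ) ^ (3 : ℕ) := by
            field_simp)
    n.nb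
  have a3 := redB hW hD hq hδ n.hL
    (a := 1 / 2 * (j2 / (Qf x y / δ * √(Qf x y / δ))))
    (y := j2 ^ (2 : ℕ) / 4) (k := kc) (by positivity) n.kc0 (by positivity)
    (by
      have e0 := Real.sq_sqrt hB.le
      have e1 : (1 / 2 * (j2 / (Qf x y / δ * √(Qf x y / δ)))) ^ (2 : ℕ) =
          j2 ^ (2 : ℕ) / (4 * ((Qf x y / δ) ^ (2 : ℕ) * √(Qf x y / δ) ^ (2 : ℕ))) := by ring
      rw [e1, e0]
      refine le_of_eq ?_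
      field_simp)
    n.nc
  have t1 := h.M1
  have t2 := h.O1
  have t3 := redE hW hD hq hδ n.hL hμ n.g10 n.nE
  have t8 := wB hD hq hδ n.hL
  have t9 : (Wc x ^ (2 : ℕ) * (1773 / 1000)) *
        (Wc x * (Real.exp (-(μ * (Qf x y / δ))) / (μ * (Qf x y / δ)))) ≤
      3546 / 1000 * l * g1 * (δ / Dn x y) * Gn x y δ := by
    have hl0 := n.l0
    calc (Wc x ^ (2 : ℕ) * (1773 / 1000)) *
        (Wc x * (Real.exp (-(μ * (Qf x y / δ))) / (μ * (Qf x y / δ)))) ≤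
        (2 * l * (Qf x y / δ) * (δ / Dn x y) * (1773 / 1000)) *
        (Wc x * (Real.exp (-(μ * (Qf x y / δ))) / (μ * (Qf x y / δ)))) := by gcongr
      _ = 3546 / 1000 * l * (δ / Dn x y) * (Qf x y / δ *
        (Wc x * (Real.exp (-(μ * (Qf x y / δ))) / (μ * (Qf x y / δ))))) := by ring
      _ ≤ 3546 / 1000 * l * (δ / Dn x y) * (g1 * Gn x y δ) := by
        refine mul_le_mul_of_nonneg_left t3 (by positivity)
      _ = _ := by ring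
  have e1 : (ka + kb + kc + 3546 / 1000 * l * g1) * (δ / Dn x y) * Gn x y δ =
    ka * (δ / Dn x y) * Gn x y δ + kb * (δ / Dn x y) * Gn x y δ + kc * (δ / Dn x y) * Gn x y δ +
    3546 / 1000 * l * g1 * (δ / Dn x y) * Gn x y δ := by ring
  have e2 : Wc x ^ (3 : ℕ) * (1 / 2 * (√(Real.pi / (la * (Qf x y / δ))) / (4 * (la * (Qf x y / δ)))) +
        36 / 125 * (1 + x)⁻¹ * (1 / (2 * (la * (Qf x y / δ)) ^ (2 : ℕ))) +
        1 / 2 * (j2 / (Qf x y / δ * √(Qf x y / δ)))) =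
      Wc x ^ (3 : ℕ) * (1 / 2 * (√(Real.pi / (la * (Qf x y / δ))) / (4 * (la * (Qf x y / δ))))) +
      Wc x ^ (3 : ℕ) * (36 / 125 * (1 + x)⁻¹ * (1 / (2 * (la * (Qf x y / δ)) ^ (2 : ℕ)))) +
      Wc x ^ (3 : ℕ) * (1 / 2 * (j2 / (Qf x y / δ * √(Qf x y / δ)))) := by ring
  rw [e2] at t1
  have a1' : Wc x ^ (3 : ℕ) * (1 / 2 * (√(Real.pi / (la * (Qf x y / δ))) / (4 * (la * (Qf x y / δ))))) ≤
    ka * (δ / Dn x y) * Gn x y δ := a1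
  have a2' : Wc x ^ (3 : ℕ) * (36 / 125 * (1 + x)⁻¹ * (1 / (2 * (la * (Qf x y / δ)) ^ (2 : ℕ)))) ≤
    kb * (δ / Dn x y) * Gn x y δ := a2
  have a3' : Wc x ^ (3 : ℕ) * (1 / 2 * (j2 / (Qf x y / δ * √(Qf x y / δ)))) ≤
    kc * (δ / Dn x y) * Gn x y δ := a3
  linarith

theorem HypH.b1 : ‖br (1 + x)⁻¹ (1 + x) δ (((x : ℂ) + y * I) / δ) gs‖ ≤
    (ka + kb + kc + 3546 / 1000 * l * g1) * (δ / Dn x y) * Gn x y δ +
    ∫ s in {s | 3 / 2 ≤ |s|},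
      ‖gi (1 + x)⁻¹ (1 + x) gs (((x : ℂ) + y * I) / δ) 0 (-((δ : ℂ) * I)) s‖ := by
  have key := h.brw wt_gs
  have := h.i1 n
  linarith

theorem HypH.i2 : (∫ s in Ioo (-1 : ℝ) 1,
      ‖gi (1 + x)⁻¹ (1 + x) (fun σ => σ * gs σ) (((x : ℂ) + y * I) / δ) 0 (-((δ : ℂ) * I)) s‖) +
    (∫ s in Ioo (-(3 / 2)) (3 / 2) \ Ioo (-1 : ℝ) 1,
      ‖gi (1 + x)⁻¹ (1 + x) (fun σ => σ * gs σ) (((x : ℂ) + y * I) / δ) 0
        (-((δ : ℂ) * I)) s‖) ≤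
    (k2 + 5319 / 1000 * (14143 / 10000) * l * g1 / d0) * δ * Gn x y δ := by
  have hB := h.hB
  have hla := h.hla
  have hμ := h.hμ
  have hδ := h.hδ
  have hq := h.hq
  have hD := h.D0
  have hW := Wc_pos x
  have hc0 := h.c0
  have hG : 0 ≤ Gn x y δ := Real.sqrt_nonneg _
  have hγB : (1 + x)⁻¹ ^ (2 : ℕ) ≤ γ * (Qf x y / δ) := by
    rw [mul_div_assoc', le_div_iff₀ hδ]
    exact n.hγ
  have hp := Real.pi_pos
  have j30 := n.j30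
  have hγ0 := n.γ0
  have hl0 := n.l0
  have hd0 := n.d00
  have g10 := n.g10
  set C2 : ℝ := (1 / 2 + 63 / 3125) / (2 * la ^ (2 : ℕ)) + 36 / 35 * γ / la ^ (3 : ℕ) + j3 / 2 with hC2
  have a1 := redA hW hD hq hδ n.hL (X := C2) (k := k2 * δ) (by positivity)
    (mul_nonneg n.k20 hδ.le) (by
      have h1 := n.n2
      rw [← hC2] at h1
      have h2 := n.hθ2
      calc 16 * l ^ (4 : ℕ) * C2 ^ (2 : ℕ) * δ ^ (3 : ℕ) = 16 * l ^ (4 : ℕ) * C2 ^ (2 : ℕ) * δ ^ (2 : ℕ) * δ := by ring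
        _ ≤ 16 * l ^ (4 : ℕ) * C2 ^ (2 : ℕ) * δ ^ (2 : ℕ) * (θ2 * Dn x y ^ (3 : ℕ)) := by gcongr
        _ = (16 * l ^ (4 : ℕ) * C2 ^ (2 : ℕ) * θ2) * (δ ^ (2 : ℕ) * Dn x y ^ (3 : ℕ)) := by ring
        _ ≤ (2 * Real.pi * k2 ^ (2 : ℕ)) * (δ ^ (2 : ℕ) * Dn x y ^ (3 : ℕ)) := by gcongr
        _ = _ := by ring)
  have a2 : Wc x ^ (4 : ℕ) * ((1 / 2 + 63 / 3125) * (1 / (2 * (la * (Qf x y / δ)) ^ (2 : ℕ))) +
        36 / 35 * (1 + x)⁻¹ ^ (2 : ℕ) * (1 / (la * (Qf x y / δ)) ^ (3 : ℕ)) +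
        1 / 2 * (j3 / (Qf x y / δ) ^ (2 : ℕ))) ≤ Wc x ^ (4 : ℕ) * C2 / (Qf x y / δ) ^ (2 : ℕ) := by
    have e1 : Wc x ^ (4 : ℕ) * C2 / (Qf x y / δ) ^ (2 : ℕ) = Wc x ^ (4 : ℕ) *
        ((1 / 2 + 63 / 3125) * (1 / (2 * (la * (Qf x y / δ)) ^ (2 : ℕ))) +
        36 / 35 * (γ * (Qf x y / δ)) * (1 / (la * (Qf x y / δ)) ^ (3 : ℕ)) +
        1 / 2 * (j3 / (Qf x y / δ) ^ (2 : ℕ))) := by
      rw [hC2]
      field_simp
    rw [e1]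
    gcongr
  have t1 := h.M2
  have t2 := h.O2
  have t3 := redE hW hD hq hδ n.hL hμ n.g10 n.nE
  have t8 := wB hD hq hδ n.hL
  have t9 : (Wc x ^ (3 : ℕ) * (5319 / 2000)) *
        (Wc x * (Real.exp (-(μ * (Qf x y / δ))) / (μ * (Qf x y / δ)))) ≤
      5319 / 1000 * (14143 / 10000) * l * g1 / d0 * δ * Gn x y δ := by
    have hw := Wc_le h.hx
    have hdd := n.hd0
    calc (Wc x ^ (3 : ℕ) * (5319 / 2000)) *
        (Wc x * (Real.exp (-(μ * (Qf x y / δ))) / (μ * (Qf x y / δ)))) =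
        (Wc x * Wc x ^ (2 : ℕ) * (5319 / 2000)) *
        (Wc x * (Real.exp (-(μ * (Qf x y / δ))) / (μ * (Qf x y / δ)))) := by ring
      _ ≤ (14143 / 10000 * (2 * l * (Qf x y / δ) * (δ / Dn x y)) * (5319 / 2000)) *
        (Wc x * (Real.exp (-(μ * (Qf x y / δ))) / (μ * (Qf x y / δ)))) := by gcongr
      _ = 5319 / 1000 * (14143 / 10000) * l * (δ / Dn x y) * (Qf x y / δ *
        (Wc x * (Real.exp (-(μ * (Qf x y / δ))) / (μ * (Qf x y / δ))))) := by ring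
      _ ≤ 5319 / 1000 * (14143 / 10000) * l * (δ / Dn x y) * (g1 * Gn x y δ) := by
        refine mul_le_mul_of_nonneg_left t3 (by positivity)
      _ ≤ 5319 / 1000 * (14143 / 10000) * l * (δ / d0) * (g1 * Gn x y δ) := by gcongr
      _ = _ := by ring
  have a1' : Wc x ^ (4 : ℕ) * C2 / (Qf x y / δ) ^ (2 : ℕ) ≤ k2 * δ * Gn x y δ := a1
  have e1 : (k2 + 5319 / 1000 * (14143 / 10000) * l * g1 / d0) * δ * Gn x y δ =
    k2 * δ * Gn x y δ + 5319 / 1000 * (14143 / 10000) * l * g1 / d0 * δ * Gn x y δ := by ring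
  linarith

theorem HypH.b2 : ‖br (1 + x)⁻¹ (1 + x) δ (((x : ℂ) + y * I) / δ) (fun σ => σ * gs σ)‖ ≤
    (k2 + 5319 / 1000 * (14143 / 10000) * l * g1 / d0) * δ * Gn x y δ +
    ∫ s in {s | 3 / 2 ≤ |s|},
      ‖gi (1 + x)⁻¹ (1 + x) (fun σ => σ * gs σ) (((x : ℂ) + y * I) / δ) 0 (-((δ : ℂ) * I)) s‖ := by
  have key := h.brw wt_mul_gs
  have := h.i2 n
  linarith

end

end SokamF1B

end
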