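import Pool.Agent.Lib_MP_af4de1_zy.Z108
import Pool.Agent.Lib_MP_af4de1_zy.Z109
import Pool.Agent.Lib_MP_af4de1_zy.Z110
import Pool.Agent.Lib_MP_af4de1_zy.Z111

/-! ### Lib_MP_af4de1_fu.T.Ck1 -/

section
set_option autoImplicit false

namespace SokamFU

theorem ck1 : blkOK goodK blk5 = true ∧ blkOK goodK blk6 = true ∧ blkOK goodK blk7 = true ∧ blkOK goodK blk8 = true ∧ blkOK goodK blk9 = true := by
  refine ⟨by decide +kernel, ?_⟩
  refine ⟨by decide +kernel, ?_⟩
  refine ⟨by decide +kernel, ?_⟩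
  refine ⟨by decide +kernel, ?_⟩
  decide +kernel

theorem blk5_ok : blkOK goodK blk5 = true := ck1.1

theorem blk6_ok : blkOK goodK blk6 = true := ck1.2.1

theorem blk7_ok : blkOK goodK blk7 = true := ck1.2.2.1

theorem blk8_ok : blkOK goodK blk8 = true := ck1.2.2.2.1

theorem blk9_ok : blkOK goodK blk9 = true := ck1.2.2.2.2

end SokamFU

end

/-! ### Lib_MP_af4de1_fu.T.Ck2 -/

section
set_option autoImplicit false

namespace SokamFU

theorem ck2 : blkOK goodK blk10 = true ∧ blkOK goodK blk11 = true ∧ blkOK goodK blk12 = true ∧ blkOK goodK blk13 = true ∧ blkOK goodK blk14 = true := by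
  refine ⟨by decide +kernel, ?_⟩
  refine ⟨by decide +kernel, ?_⟩
  refine ⟨by decide +kernel, ?_⟩
  refine ⟨by decide +kernel, ?_⟩
  decide +kernel

theorem blk10_ok : blkOK goodK blk10 = true := ck2.1

theorem blk11_ok : blkOK goodK blk11 = true := ck2.2.1

theorem blk12_ok : blkOK goodK blk12 = true := ck2.2.2.1

theorem blk13_ok : blkOK goodK blk13 = true := ck2.2.2.2.1

theorem blk14_ok : blkOK goodK blk14 = true := ck2.2.2.2.2

end SokamFU

end

/-! ### Lib_MP_af4de1_fu.T.Ck5 -/

section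
set_option autoImplicit false

namespace SokamFU

theorem ck5 : blkOK goodK blk25 = true ∧ blkOK goodK blk26 = true ∧ blkOK goodK blk27 = true ∧ blkOK goodK blk28 = true ∧ blkOK goodK blk29 = true := by
  refine ⟨by decide +kernel, ?_⟩
  refine ⟨by decide +kernel, ?_⟩
  refine ⟨by decide +kernel, ?_⟩
  refine ⟨by decide +kernel, ?_⟩
  decide +kernel

theorem blk25_ok : blkOK goodK blk25 = true := ck5.1

theorem blk26_ok : blkOK goodK blk26 = true := ck5.2.1

theorem blk27_ok : blkOK goodK blk27 = true := ck5.2.2.1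

theorem blk28_ok : blkOK goodK blk28 = true := ck5.2.2.2.1

theorem blk29_ok : blkOK goodK blk29 = true := ck5.2.2.2.2

end SokamFU

end

/-! ### Lib_MP_af4de1_fu.T.Ck7 -/

section
set_option autoImplicit false

namespace SokamFU

theorem ck7 : blkOK goodK blk35 = true ∧ blkOK goodK blk36 = true ∧ blkOK goodK blk37 = true ∧ blkOK goodK blk38 = true ∧ blkOK goodK blk39 = true := by
  refine ⟨by decide +kernel, ?_⟩
  refine ⟨by decide +kernel, ?_⟩
  refine ⟨by decide +kernel, ?_⟩
  refine ⟨by decide +kernel, ?_⟩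
  decide +kernel

theorem blk35_ok : blkOK goodK blk35 = true := ck7.1

theorem blk36_ok : blkOK goodK blk36 = true := ck7.2.1

theorem blk37_ok : blkOK goodK blk37 = true := ck7.2.2.1

theorem blk38_ok : blkOK goodK blk38 = true := ck7.2.2.2.1

theorem blk39_ok : blkOK goodK blk39 = true := ck7.2.2.2.2

end SokamFU

end

/-! ### Lib_MP_af4de1_fu.T.Ck12 -/

section
set_option autoImplicit false

namespace SokamFU

theorem ck12 : blkOK goodK blk60 = true ∧ blkOK goodK blk61 = true ∧ blkOK goodK blk62 = true ∧ blkOK goodK blk63 = true ∧ blkOK goodK blk64 = true := by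
  refine ⟨by decide +kernel, ?_⟩
  refine ⟨by decide +kernel, ?_⟩
  refine ⟨by decide +kernel, ?_⟩
  refine ⟨by decide +kernel, ?_⟩
  decide +kernel

theorem blk60_ok : blkOK goodK blk60 = true := ck12.1

theorem blk61_ok : blkOK goodK blk61 = true := ck12.2.1

theorem blk62_ok : blkOK goodK blk62 = true := ck12.2.2.1

theorem blk63_ok : blkOK goodK blk63 = true := ck12.2.2.2.1

theorem blk64_ok : blkOK goodK blk64 = true := ck12.2.2.2.2

end SokamFU

end

/-! ### Lib_MP_af4de1_fu.T.Ck14 -/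

section
set_option autoImplicit false

namespace SokamFU

theorem ck14 : blkOK goodK blk70 = true ∧ blkOK goodK blk71 = true ∧ blkOK goodK blk72 = true ∧ blkOK goodK blk73 = true ∧ blkOK goodK blk74 = true := by
  refine ⟨by decide +kernel, ?_⟩
  refine ⟨by decide +kernel, ?_⟩
  refine ⟨by decide +kernel, ?_⟩
  refine ⟨by decide +kernel, ?_⟩
  decide +kernel

theorem blk70_ok : blkOK goodK blk70 = true := ck14.1

theorem blk71_ok : blkOK goodK blk71 = true := ck14.2.1

theorem blk72_ok : blkOK goodK blk72 = true := ck14.2.2.1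

theorem blk73_ok : blkOK goodK blk73 = true := ck14.2.2.2.1

theorem blk74_ok : blkOK goodK blk74 = true := ck14.2.2.2.2

end SokamFU

end

/-! ### Lib_MP_af4de1_fu.T.ClsOk -/

section
set_option autoImplicit false

namespace SokamFU

theorem blks_ok : ∀ b ∈ blks, blkOK goodK b = true := by
  simp only [blks, List.forall_mem_cons, List.not_mem_nil, false_imp_iff, implies_true, and_true]
  exact ⟨blk0_ok, blk1_ok, blk2_ok, blk3_ok, blk4_ok, blk5_ok, blk6_ok, blk7_ok, blk8_ok, blk9_ok, blk10_ok, blk11_ok, blk12_ok, blk13_ok, blk14_ok, blk15_ok, blk16_ok, blk17_ok, blk18_ok, blk19_ok, blk20_ok, blk21_ok, blk22_ok, blk23_ok, blk24_ok, blk25_ok, blk26_ok, blk27_ok, blk28_ok, blk29_ok, blk30_ok, blk31_ok, blk32_ok, blk33_ok, blk34_ok, blk35_ok, blk36_ok, blk37_ok, blk38_ok, blk39_ok, blk40_ok, blk41_ok, blk42_ok, blk43_ok, blk44_ok, blk45_ok, blk46_ok, blk47_ok, blk48_ok, blk49_ok, blk50_ok, blk51_ok, blk52_ok, blk53_ok, blk54_ok, blk55_ok, blk56_ok, blk57_ok, blk58_ok, blk59_ok,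 blk60_ok, blk61_ok, blk62_ok, blk63_ok, blk64_ok, blk65_ok, blk66_ok, blk67_ok, blk68_ok, blk69_ok, blk70_ok, blk71_ok, blk72_ok, blk73_ok, blk74_ok, blk75_ok, blk76_ok⟩

end SokamFU

end
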