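import Pool.Agent.Lib_MP_af4de1_zy.Z119

/-! ### Lib_MP_af4de1_v3.RunLbc -/

section
/-!
# Left runs: tree tLbc (helper93)
-/

set_option autoImplicit false

namespace SokamCel

def tLbc3t : BT := (.Z (.X (.Y (.Z .L .L) (.Z .L .L)) (.Y (.Z (.X .L .L) .L) (.Z (.X .L (.Y (.Z .L
  .L) (.Z .L .L))) (.X .L .L)))) (.X .L (.Y (.Z .L .L) (.Z .L .L))))
theorem tLbc3 : bisT (okGC (celG KLb (chkK KLb))) tLbc3t 0 384829069722 0 575750000000 274877906944 824633720832 = true := by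
  decide +kernel

def tLbc4t : BT := (.Z (.X (.Y (.Z .L .L) (.Z .L .L)) (.Y (.Z (.X .L (.Y (.Z .L .L) (.Z (.X .L .L)
  .L))) (.X .L (.Y .L (.Z .L .L)))) (.Z (.X (.Y (.Z .L .L) (.Z .L .L)) (.Y (.Z (.X .L .L) .L) (.Z
  (.X .L (.Y .L (.Z .L .L))) (.X .L .L)))) (.X .L (.Y (.Z .L .L) (.Z .L .L)))))) (.X (.Y .L (.Z .L
  .L)) (.Y (.Z (.X .L .L) .L) (.Z (.X .L .L) (.X .L .L)))))
theorem tLbc4 : bisT (okGC (celG KLb (chkK KLb))) tLbc4t 0 384829069722 575750000000 1151500000000 274877906944 824633720832 = true := by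
  decide +kernel

def tLbc2t : BT := BT.Y tLbc3t tLbc4t
theorem tLbc2 : bisT (okGC (celG KLb (chkK KLb))) tLbc2t 0 384829069722 0 1151500000000 274877906944 824633720832 = true :=
  bisT_Y 575750000000 tLbc3 tLbc4 rfl

def tLbc7t : BT := (.X (.Y (.Z (.X (.Y .L (.Z .L .L)) (.Y .L (.Z .L .L))) (.X .L .L)) (.Z (.X (.Y
  (.Z .L .L) (.Z (.X .L .L) .L)) (.Y (.Z .L .L) (.Z (.X .L .L) .L))) (.X .L (.Y .L (.Z .L .L)))))
  (.Y (.Z (.X (.Y (.Z .L .L) (.Z .L .L)) (.Y (.Z .L .L) (.Z (.X .L .L) .L))) (.X .L .L)) (.Z (.X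
  (.Y (.Z (.X .L .L) .L) (.Z (.X .L .L) (.X .L .L))) (.Y (.Z (.X .L .L) (.X .L .L)) (.Z (.X .L (.Y
  .L (.Z .L .L))) (.X .L .L)))) (.X (.Y (.Z .L .L) (.Z .L .L)) (.Y (.Z .L .L) (.Z (.X .L .L) (.X
  .L .L)))))))
theorem tLbc7 : bisT (okGC (celG KLb (chkK KLb))) tLbc7t 384829069722 769658139444 0 575750000000 274877906944 549755813888 = true := by
  decide +kernel

def tLbc8t : BT := (.X (.Y (.Z (.X .L .L) .L) (.Z (.X .L .L) (.X .L .L))) (.Y (.Z (.X .L .L) (.X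
  .L .L)) (.Z (.X (.Y .L (.Z .L .L)) (.Y (.Z .L .L) (.Z (.X .L .L) (.X .L .L)))) (.X (.Y .L (.Z .L
  .L)) (.Y (.Z .L .L) (.Z (.X .L .L) (.X .L .L)))))))
theorem tLbc8 : bisT (okGC (celG KLb (chkK KLb))) tLbc8t 384829069722 769658139444 0 575750000000 549755813888 824633720832 = true := by
  decide +kernel

def tLbc6t : BT := BT.Z tLbc7t tLbc8t
theorem tLbc6 : bisT (okGC (celG KLb (chkK KLb))) tLbc6t 384829069722 769658139444 0 575750000000 274877906944 824633720832 = true :=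
  bisT_Z 549755813888 tLbc7 tLbc8 rfl

def tLbc11t : BT := (.Y (.Z (.X (.Y (.Z (.X .L .L) .L) (.Z (.X .L (.Y .L .L)) (.X .L .L))) (.Y (.Z
  (.X .L .L) (.X .L .L)) (.Z (.X (.Y .L (.Z .L .L)) (.Y (.Z .L .L) .L)) (.X .L .L)))) (.X (.Y (.Z
  .L .L) (.Z .L .L)) (.Y (.Z .L .L) (.Z (.X .L .L) (.X .L .L))))) (.Z (.X (.Y (.Z (.X (.Y .L (.Z
  .L .L)) (.Y (.Z .L .L) .L)) (.X .L .L)) (.Z (.X (.Y (.Z .L .L) .L) .L) (.X .L .L))) (.Y (.Z (.X
  .L .L) (.X .L .L)) .L)) (.X (.Y (.Z (.X .L .L) .L) (.Z (.X .L .L) (.X .L .L))) (.Y (.Z .L .L)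
  .L))))
theorem tLbc11 : bisT (okGC (celG KLb (chkK KLb))) tLbc11t 384829069722 577243604583 575750000000 1151500000000 274877906944 549755813888 = true := by
  decide +kernel

def tLbc12t : BT := (.Y (.Z (.X (.Y (.Z (.X (.Y .L (.Z .L .L)) (.Y .L .L)) (.X .L .L)) (.Z (.X .L
  .L) (.X .L .L))) (.Y (.Z (.X (.Y (.Z .L .L) .L) .L) (.X (.Y .L .L) .L)) .L)) (.X (.Y (.Z (.X .L
  .L) (.X .L .L)) (.Z (.X .L .L) (.X .L .L))) (.Y (.Z (.X .L .L) (.X .L .L)) .L))) (.Z (.X .L .L)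
  (.X .L .L)))
theorem tLbc12 : bisT (okGC (celG KLb (chkK KLb))) tLbc12t 577243604583 769658139444 575750000000 1151500000000 274877906944 549755813888 = true := by
  decide +kernel

def tLbc10t : BT := BT.X tLbc11t tLbc12t
theorem tLbc10 : bisT (okGC (celG KLb (chkK KLb))) tLbc10t 384829069722 769658139444 575750000000 1151500000000 274877906944 549755813888 = true :=
  bisT_X 577243604583 tLbc11 tLbc12 rfl

def tLbc13t : BT := (.X (.Y (.Z (.X (.Y .L (.Z .L .L)) (.Y (.Z .L .L) (.Z (.X .L .L) .L))) (.X .L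
  (.Y (.Z .L .L) (.Z .L .L)))) (.Z (.X (.Y (.Z .L .L) (.Z .L .L)) (.Y (.Z .L .L) .L)) (.X (.Y (.Z
  .L .L) (.Z .L .L)) (.Y (.Z .L .L) .L)))) (.Y (.Z (.X (.Y (.Z (.X .L .L) (.X .L .L)) (.Z (.X .L
  .L) (.X .L .L))) (.Y (.Z (.X .L .L) (.X .L .L)) .L)) (.X (.Y (.Z (.X .L .L) (.X .L .L)) (.Z (.X
  .L .L) (.X .L .L))) (.Y (.Z (.X .L .L) (.X .L .L)) .L))) (.Z (.X .L .L) (.X .L .L))))
theorem tLbc13 : bisT (okGC (celG KLb (chkK KLb))) tLbc13t 384829069722 769658139444 575750000000 1151500000000 549755813888 824633720832 = true := by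
  decide +kernel

def tLbc9t : BT := BT.Z tLbc10t tLbc13t
theorem tLbc9 : bisT (okGC (celG KLb (chkK KLb))) tLbc9t 384829069722 769658139444 575750000000 1151500000000 274877906944 824633720832 = true :=
  bisT_Z 549755813888 tLbc10 tLbc13 rfl

def tLbc5t : BT := BT.Y tLbc6t tLbc9t
theorem tLbc5 : bisT (okGC (celG KLb (chkK KLb))) tLbc5t 384829069722 769658139444 0 1151500000000 274877906944 824633720832 = true :=
  bisT_Y 575750000000 tLbc6 tLbc9 rfl

def tLbc1t : BT := BT.X tLbc2t tLbc5t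
theorem tLbc1 : bisT (okGC (celG KLb (chkK KLb))) tLbc1t 0 769658139444 0 1151500000000 274877906944 824633720832 = true :=
  bisT_X 384829069722 tLbc2 tLbc5 rfl

def tLbc17t : BT := (.X (.Y (.Z .L .L) (.Z .L .L)) (.Y (.Z (.X (.Y (.Z .L .L) (.Z .L .L)) (.Y (.Z
  (.X .L (.Y (.Z .L .L) .L)) (.X .L .L)) (.Z (.X (.Y .L (.Z .L .L)) .L) (.X .L .L)))) (.X .L (.Y
  (.Z .L .L) (.Z (.X .L .L) .L)))) (.Z (.X (.Y (.Z (.X .L .L) .L) (.Z (.X .L .L) .L)) (.Y (.Z (.X
  .L .L) .L) .L)) (.X (.Y .L (.Z .L .L)) (.Y (.Z .L .L) .L)))))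
theorem tLbc17 : bisT (okGC (celG KLb (chkK KLb))) tLbc17t 0 384829069722 1151500000000 1727250000000 274877906944 549755813888 = true := by
  decide +kernel

def tLbc18t : BT := (.X (.Y (.Z .L .L) (.Z .L .L)) (.Y (.Z (.X .L (.Y (.Z .L .L) (.Z .L .L))) (.X
  .L (.Y .L (.Z .L .L)))) (.Z (.X .L (.Y .L .L)) (.X .L (.Y .L .L)))))
theorem tLbc18 : bisT (okGC (celG KLb (chkK KLb))) tLbc18t 0 384829069722 1151500000000 1727250000000 549755813888 824633720832 = true := by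
  decide +kernel

def tLbc16t : BT := BT.Z tLbc17t tLbc18t
theorem tLbc16 : bisT (okGC (celG KLb (chkK KLb))) tLbc16t 0 384829069722 1151500000000 1727250000000 274877906944 824633720832 = true :=
  bisT_Z 549755813888 tLbc17 tLbc18 rfl

def tLbc21t : BT := (.Y (.Z (.X .L .L) .L) (.Z (.X .L (.Y (.Z .L .L) (.Z .L (.X .L .L)))) (.X .L
  (.Y (.Z .L .L) (.Z (.X .L (.Y .L (.Z .L .L))) (.X (.Y .L (.Z .L .L)) (.Y (.Z .L .L) (.Z (.X .L
  (.Y .L (.Z .L .L))) (.X (.Y .L (.Z .L .L)) (.Y (.Z .L .L) (.Z (.X .L .L) (.X (.Y .L (.Z .L (.X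
  .L (.Y .L .L)))) .L))))))))))))
theorem tLbc21 : bisT (okGC (celG KLb (chkK KLb))) tLbc21t 0 192414534861 1727250000000 2303000000000 274877906944 549755813888 = true := by
  decide +kernel

def tLbc22t : BT := (.Y (.Z (.X (.Y (.Z (.X .L .L) .L) (.Z (.X .L .L) (.X .L .L))) .L) (.X (.Y (.Z
  .L .L) (.Z (.X .L .L) (.X .L .L))) .L)) (.Z (.X (.Y (.Z (.X .L .L) (.X .L .L)) (.Z (.X .L .L)
  (.X .L .L))) .L) (.X (.Y (.Z (.X .L .L) (.X (.Y .L .L) .L)) (.Z (.X (.Y .L .L) .L) (.X (.Y .L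
  .L) .L))) .L)))
theorem tLbc22 : bisT (okGC (celG KLb (chkK KLb))) tLbc22t 192414534861 384829069722 1727250000000 2303000000000 274877906944 549755813888 = true := by
  decide +kernel

def tLbc20t : BT := BT.X tLbc21t tLbc22t
theorem tLbc20 : bisT (okGC (celG KLb (chkK KLb))) tLbc20t 0 384829069722 1727250000000 2303000000000 274877906944 549755813888 = true :=
  bisT_X 192414534861 tLbc21 tLbc22 rfl

def tLbc25t : BT := (.Z .L (.X .L (.Y .L (.Z .L (.X .L (.Y .L (.Z .L (.X .L (.Y .L (.Z .L (.X .L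
  (.Y .L .L))))))))))))
theorem tLbc25 : bisT (okGC (celG KLb (chkK KLb))) tLbc25t 0 192414534861 1727250000000 2015125000000 549755813888 824633720832 = true := by
  decide +kernel

def tLbc28t : BT := (.Y .L (.Z (.X .L (.Y .L (.Z .L (.X .L .L)))) (.X (.Y .L .L) (.Y (.Z .L (.X .L
  (.Y .L .L))) .L))))
theorem tLbc28 : bisT (okGC (celG KLb (chkK KLb))) tLbc28t 0 96207267430 2015125000000 2303000000000 549755813888 687194767360 = true := by
  decide +kernel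

def tLbc30t : BT := (.Z (.X .L .L) (.X .L (.Y .L (.Z (.X .L .L) (.X (.Y .L (.Z .L .L)) (.Y .L (.Z
  (.X .L (.Y .L .L)) (.X (.Y .L (.Z .L .L)) (.Y .L (.Z (.X .L .L) .L))))))))))
theorem tLbc30 : bisT (okGC (celG KLb (chkK KLb))) tLbc30t 96207267430 192414534861 2015125000000 2159062500000 549755813888 687194767360 = true := by
  decide +kernel

def tLbc33t : BT := (.Y .L (.Z (.X .L (.Y .L (.Z .L (.X .L (.Y .L .L))))) (.X (.Y .L .L) (.Y (.Z
  .L (.X .L (.Y .L .L))) .L))))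
theorem tLbc33 : bisT (okGC (celG KLb (chkK KLb))) tLbc33t 96207267430 144310901145 2159062500000 2303000000000 549755813888 618475290624 = true := by
  decide +kernel

def tLbc35t : BT := (.Z (.X .L (.Y .L (.Z .L .L))) (.X (.Y .L (.Z .L .L)) (.Y .L (.Z (.X .L (.Y .L
  .L)) (.X (.Y .L (.Z .L (.X .L (.Y .L .L)))) (.Y (.Z .L .L) (.Z (.X .L .L) (.X (.Y .L .L)
  .L))))))))
theorem tLbc35 : bisT (okGC (celG KLb (chkK KLb))) tLbc35t 144310901145 192414534861 2159062500000 2231031250000 549755813888 618475290624 = true := by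
  decide +kernel

def tLbc38t : BT := (.Y (.Z .L .L) (.Z (.X .L (.Y .L (.Z .L (.X (.Y .L .L) (.Y .L .L))))) (.X (.Y
  .L .L) (.Y (.Z .L (.X (.Y .L .L) (.Y .L .L))) .L))))
theorem tLbc38 : bisT (okGC (celG KLb (chkK KLb))) tLbc38t 144310901145 168362718003 2231031250000 2303000000000 549755813888 584115552256 = true := by
  decide +kernel

def tLbc39t : BT := (.Y (.Z (.X .L .L) (.X (.Y .L (.Z .L (.X .L (.Y .L (.Z .L (.X .L .L)))))) (.Y
  .L .L))) (.Z (.X (.Y (.Z .L (.X .L (.Y .L (.Z .L (.X .L .L))))) (.Z (.X (.Y .L (.Z .L (.X .L (.Y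
  .L .L)))) (.Y .L (.Z .L (.X .L .L)))) (.X (.Y (.Z .L .L) .L) (.Y (.Z (.X .L .L) .L) .L)))) .L)
  (.X (.Y (.Z (.X (.Y .L (.Z .L .L)) (.Y (.Z .L (.X .L .L)) (.Z (.X (.Y .L .L) .L) .L))) (.X (.Y
  (.Z .L .L) .L) (.Y (.Z (.X (.Y .L .L) .L) .L) .L))) .L) (.Y .L .L))))
theorem tLbc39 : bisT (okGC (celG KLb (chkK KLb))) tLbc39t 168362718003 192414534861 2231031250000 2303000000000 549755813888 584115552256 = true := by
  decide +kernel

def tLbc37t : BT := BT.X tLbc38t tLbc39t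
theorem tLbc37 : bisT (okGC (celG KLb (chkK KLb))) tLbc37t 144310901145 192414534861 2231031250000 2303000000000 549755813888 584115552256 = true :=
  bisT_X 168362718003 tLbc38 tLbc39 rfl

def tLbc40t : BT := (.X (.Y (.Z (.X .L (.Y .L (.Z .L .L))) (.X (.Y .L .L) (.Y (.Z .L .L) .L))) .L)
  (.Y (.Z (.X (.Y (.Z .L (.X .L (.Y .L (.Z .L .L)))) (.Z (.X (.Y .L .L) (.Y (.Z .L (.X .L .L))
  .L)) .L)) (.Y (.Z .L .L) (.Z .L .L))) (.X (.Y (.Z (.X (.Y .L .L) (.Y (.Z .L .L) .L)) .L) .L) (.Y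
  (.Z (.X .L .L) .L) .L))) .L))
theorem tLbc40 : bisT (okGC (celG KLb (chkK KLb))) tLbc40t 144310901145 192414534861 2231031250000 2303000000000 584115552256 618475290624 = true := by
  decide +kernel

def tLbc36t : BT := BT.Z tLbc37t tLbc40t
theorem tLbc36 : bisT (okGC (celG KLb (chkK KLb))) tLbc36t 144310901145 192414534861 2231031250000 2303000000000 549755813888 618475290624 = true :=
  bisT_Z 584115552256 tLbc37 tLbc40 rfl

def tLbc34t : BT := BT.Y tLbc35t tLbc36t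
theorem tLbc34 : bisT (okGC (celG KLb (chkK KLb))) tLbc34t 144310901145 192414534861 2159062500000 2303000000000 549755813888 618475290624 = true :=
  bisT_Y 2231031250000 tLbc35 tLbc36 rfl

def tLbc32t : BT := BT.X tLbc33t tLbc34t
theorem tLbc32 : bisT (okGC (celG KLb (chkK KLb))) tLbc32t 96207267430 192414534861 2159062500000 2303000000000 549755813888 618475290624 = true :=
  bisT_X 144310901145 tLbc33 tLbc34 rfl

def tLbc41t : BT := (.X (.Y (.Z (.X .L (.Y .L (.Z .L .L))) (.X (.Y .L .L) (.Y (.Z .L .L) .L))) .L)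
  (.Y (.Z (.X (.Y (.Z .L .L) (.Z (.X .L (.Y .L .L)) .L)) (.Y (.Z (.X .L (.Y .L (.Z .L .L))) (.X
  (.Y .L (.Z .L (.X .L (.Y .L .L)))) (.Y (.Z .L .L) (.Z (.X .L .L) (.X (.Y .L .L) .L))))) (.Z (.X
  (.Y (.Z .L (.X .L (.Y .L .L))) .L) (.Y (.Z (.X .L .L) (.X (.Y .L .L) .L)) .L)) .L))) (.X (.Y (.Z
  (.X .L (.Y .L .L)) .L) .L) (.Y (.Z (.X (.Y (.Z .L .L) .L) (.Y (.Z (.X .L .L) .L) .L)) .L) .L)))
  .L))
theorem tLbc41 : bisT (okGC (celG KLb (chkK KLb))) tLbc41t 96207267430 192414534861 2159062500000 2303000000000 618475290624 687194767360 = true := by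
  decide +kernel

def tLbc31t : BT := BT.Z tLbc32t tLbc41t
theorem tLbc31 : bisT (okGC (celG KLb (chkK KLb))) tLbc31t 96207267430 192414534861 2159062500000 2303000000000 549755813888 687194767360 = true :=
  bisT_Z 618475290624 tLbc32 tLbc41 rfl

def tLbc29t : BT := BT.Y tLbc30t tLbc31t
theorem tLbc29 : bisT (okGC (celG KLb (chkK KLb))) tLbc29t 96207267430 192414534861 2015125000000 2303000000000 549755813888 687194767360 = true :=
  bisT_Y 2159062500000 tLbc30 tLbc31 rfl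

def tLbc27t : BT := BT.X tLbc28t tLbc29t
theorem tLbc27 : bisT (okGC (celG KLb (chkK KLb))) tLbc27t 0 192414534861 2015125000000 2303000000000 549755813888 687194767360 = true :=
  bisT_X 96207267430 tLbc28 tLbc29 rfl

def tLbc43t : BT := (.Y (.Z (.X .L (.Y .L (.Z .L .L))) (.X (.Y .L .L) (.Y (.Z .L .L) .L))) .L)
theorem tLbc43 : bisT (okGC (celG KLb (chkK KLb))) tLbc43t 0 96207267430 2015125000000 2303000000000 687194767360 824633720832 = true := by
  decide +kernel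

def tLbc44t : BT := (.Y (.Z (.X (.Y .L (.Z (.X .L (.Y .L (.Z .L .L))) .L)) (.Y (.Z .L (.X .L (.Y
  .L (.Z .L (.X (.Y .L .L) (.Y .L .L)))))) (.Z (.X (.Y .L (.Z (.X .L (.Y .L .L)) .L)) (.Y (.Z (.X
  .L .L) (.X (.Y .L (.Z .L .L)) (.Y .L (.Z (.X .L (.Y .L .L)) .L)))) (.Z (.X (.Y (.Z .L .L) .L)
  (.Y (.Z (.X .L (.Y .L .L)) .L) .L)) .L))) .L))) (.X (.Y (.Z (.X .L (.Y .L .L)) .L) .L) (.Y (.Z
  (.X (.Y .L .L) (.Y (.Z .L (.X .L (.Y .L .L))) .L)) .L) .L))) .L)
theorem tLbc44 : bisT (okGC (celG KLb (chkK KLb))) tLbc44t 96207267430 192414534861 2015125000000 2303000000000 687194767360 824633720832 = true := by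
  decide +kernel

def tLbc42t : BT := BT.X tLbc43t tLbc44t
theorem tLbc42 : bisT (okGC (celG KLb (chkK KLb))) tLbc42t 0 192414534861 2015125000000 2303000000000 687194767360 824633720832 = true :=
  bisT_X 96207267430 tLbc43 tLbc44 rfl

def tLbc26t : BT := BT.Z tLbc27t tLbc42t
theorem tLbc26 : bisT (okGC (celG KLb (chkK KLb))) tLbc26t 0 192414534861 2015125000000 2303000000000 549755813888 824633720832 = true :=
  bisT_Z 687194767360 tLbc27 tLbc42 rfl

def tLbc24t : BT := BT.Y tLbc25t tLbc26t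
theorem tLbc24 : bisT (okGC (celG KLb (chkK KLb))) tLbc24t 0 192414534861 1727250000000 2303000000000 549755813888 824633720832 = true :=
  bisT_Y 2015125000000 tLbc25 tLbc26 rfl

def tLbc46t : BT := (.Z (.X (.Y (.Z .L .L) (.Z (.X .L .L) (.X .L .L))) .L) (.X (.Y (.Z .L (.X .L
  .L)) (.Z (.X (.Y .L (.Z .L (.X .L .L))) .L) (.X (.Y (.Z .L .L) (.Z (.X (.Y .L (.Z .L .L)) .L)
  (.X (.Y .L (.Z (.X .L .L) (.X (.Y .L .L) (.Y .L .L)))) .L))) .L))) (.Y .L .L)))
theorem tLbc46 : bisT (okGC (celG KLb (chkK KLb))) tLbc46t 192414534861 384829069722 1727250000000 2015125000000 549755813888 824633720832 = true := by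
  decide +kernel

def tLbc48t : BT := (.X (.Y (.Z (.X (.Y .L (.Z .L (.X .L .L))) .L) (.X (.Y (.Z .L (.X .L .L)) (.Z
  (.X (.Y .L .L) .L) (.X (.Y (.Z .L .L) (.Z .L (.X .L .L))) .L))) .L)) (.Z (.X (.Y (.Z (.X .L .L)
  (.X .L .L)) (.Z (.X .L .L) (.X (.Y .L .L) .L))) .L) (.X (.Y (.Z (.X (.Y .L (.Z .L .L)) .L) (.X
  (.Y (.Z (.X .L .L) .L) .L) .L)) .L) .L))) .L)
theorem tLbc48 : bisT (okGC (celG KLb (chkK KLb))) tLbc48t 192414534861 384829069722 2015125000000 2303000000000 549755813888 687194767360 = true := by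
  decide +kernel

def tLbc49t : BT := (.X (.Y (.Z (.X (.Y (.Z (.X (.Y .L (.Z .L (.X .L .L))) .L) (.X (.Y (.Z .L (.X
  .L .L)) (.Z (.X (.Y .L (.Z .L (.X .L .L))) .L) (.X (.Y (.Z .L (.X .L .L)) .L) .L))) .L)) (.Z (.X
  (.Y (.Z (.X .L .L) (.X (.Y .L (.Z .L .L)) .L)) (.Z (.X (.Y .L .L) .L) .L)) .L) .L)) (.Y .L .L))
  (.X (.Y (.Z (.X (.Y (.Z (.X (.Y .L (.Z .L .L)) .L) (.X (.Y .L .L) .L)) .L) (.Y .L .L)) .L) .L)
  (.Y .L .L))) .L) .L)
theorem tLbc49 : bisT (okGC (celG KLb (chkK KLb))) tLbc49t 192414534861 384829069722 2015125000000 2303000000000 687194767360 824633720832 = true := by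
  decide +kernel

def tLbc47t : BT := BT.Z tLbc48t tLbc49t
theorem tLbc47 : bisT (okGC (celG KLb (chkK KLb))) tLbc47t 192414534861 384829069722 2015125000000 2303000000000 549755813888 824633720832 = true :=
  bisT_Z 687194767360 tLbc48 tLbc49 rfl

def tLbc45t : BT := BT.Y tLbc46t tLbc47t
theorem tLbc45 : bisT (okGC (celG KLb (chkK KLb))) tLbc45t 192414534861 384829069722 1727250000000 2303000000000 549755813888 824633720832 = true :=
  bisT_Y 2015125000000 tLbc46 tLbc47 rfl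

def tLbc23t : BT := BT.X tLbc24t tLbc45t
theorem tLbc23 : bisT (okGC (celG KLb (chkK KLb))) tLbc23t 0 384829069722 1727250000000 2303000000000 549755813888 824633720832 = true :=
  bisT_X 192414534861 tLbc24 tLbc45 rfl

def tLbc19t : BT := BT.Z tLbc20t tLbc23t
theorem tLbc19 : bisT (okGC (celG KLb (chkK KLb))) tLbc19t 0 384829069722 1727250000000 2303000000000 274877906944 824633720832 = true :=
  bisT_Z 549755813888 tLbc20 tLbc23 rfl

def tLbc15t : BT := BT.Y tLbc16t tLbc19t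
theorem tLbc15 : bisT (okGC (celG KLb (chkK KLb))) tLbc15t 0 384829069722 1151500000000 2303000000000 274877906944 824633720832 = true :=
  bisT_Y 1727250000000 tLbc16 tLbc19 rfl

def tLbc50t : BT := (.Y (.Z (.X (.Y (.Z (.X .L .L) (.X .L .L)) .L) .L) (.X (.Y (.Z (.X .L .L) (.X
  .L .L)) .L) .L)) .L)
theorem tLbc50 : bisT (okGC (celG KLb (chkK KLb))) tLbc50t 384829069722 769658139444 1151500000000 2303000000000 274877906944 824633720832 = true := by
  decide +kernel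

def tLbc14t : BT := BT.X tLbc15t tLbc50t
theorem tLbc14 : bisT (okGC (celG KLb (chkK KLb))) tLbc14t 0 769658139444 1151500000000 2303000000000 274877906944 824633720832 = true :=
  bisT_X 384829069722 tLbc15 tLbc50 rfl

def tLbc0t : BT := BT.Y tLbc1t tLbc14t
theorem tLbc0 : bisT (okGC (celG KLb (chkK KLb))) tLbc0t 0 769658139444 0 2303000000000 274877906944 824633720832 = true :=
  bisT_Y 1151500000000 tLbc1 tLbc14 rfl

theorem tLbc : bisT (okGC (celG KLb (chkK KLb))) tLbc0t 0 769658139444 0 2303000000000 274877906944 824633720832 = true := tLbc0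

end SokamCel

end
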