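import Pool.Agent.Lib_MP_af4de1_zy.Z119

/-! ### Lib_MP_af4de1_v3.RunEAc -/

section
/-!
# Kernel run, field `e`, right, class A, chart `c` (helper4)
-/

set_option autoImplicit false

namespace SokamCel

def rEAc2t : BT := (.Y (.Z .L .L) (.Y (.X .L (.Z .L .L)) (.Y (.X .L (.Z .L (.X .L (.X .L .L))))
  (.Z (.X .L (.X .L .L)) (.Y (.X .L (.X (.Z .L .L) .L)) .L)))))
theorem rEAc2 : bisT (okE pRA 824633720832 824633720832 5937362789990 3665039 122167959 1570732 true) rEAc2t 0 384829069722 0 2512274118306 412316860416 618475290624 = true := by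
  decide +kernel

def rEAc4t : BT := (.Y (.X .L (.Z .L .L)) (.Y (.X .L (.X (.Z .L .L) (.Z .L (.X .L (.Y .L .L)))))
  (.Y (.X (.Y .L (.Z .L (.Y .L (.Z .L .L)))) (.X (.Z .L (.X (.Y .L (.Y .L (.Z .L .L))) (.Y .L
  .L))) (.X .L .L))) (.Y (.Y (.Z (.X .L (.X (.Z .L .L) .L)) .L) .L) .L))))
theorem rEAc4 : bisT (okE pRA 824633720832 824633720832 5937362789990 3665039 122167959 1570732 true) rEAc4t 0 384829069722 0 2512274118306 618475290624 721554505728 = true := by
  decide +kernel

def rEAc6t : BT := (.X (.Z .L .L) (.X (.Z .L (.X .L (.Z .L .L))) (.Y (.Z .L .L) (.X (.Z .L (.Z .L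
  (.Z .L .L))) (.Z .L (.X (.Z .L (.Z .L .L)) (.Z .L (.Y .L (.Z .L (.X .L .L))))))))))
theorem rEAc6 : bisT (okE pRA 824633720832 824633720832 5937362789990 3665039 122167959 1570732 true) rEAc6t 0 384829069722 0 1256137059153 721554505728 824633720832 = true := by
  decide +kernel

def rEAc7t : BT := (.Y (.X (.X .L (.Z .L (.X .L (.Z .L .L)))) (.X (.X (.Z .L (.Z .L (.Y .L (.X .L
  (.Y .L (.Y .L .L)))))) (.Y (.Z .L (.Z .L (.X .L (.X .L .L)))) (.X (.Z .L (.Z .L (.Y (.X .L .L)
  .L))) (.Y (.Z .L .L) .L)))) (.Y (.Y (.X (.Z .L (.Z .L (.Z .L (.X .L (.X .L .L))))) (.X (.Z .L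
  .L) .L)) (.X (.X (.Z .L (.Z .L .L)) .L) .L)) (.X (.X .L .L) .L)))) (.Y (.Y (.Z (.X (.Y .L (.Z .L
  .L)) (.X (.X (.Y .L (.Z .L .L)) .L) .L)) .L) .L) .L))
theorem rEAc7 : bisT (okE pRA 824633720832 824633720832 5937362789990 3665039 122167959 1570732 true) rEAc7t 0 384829069722 1256137059153 2512274118306 721554505728 824633720832 = true := by
  decide +kernel

def rEAc5t : BT := BT.Y rEAc6t rEAc7t
theorem rEAc5 : bisT (okE pRA 824633720832 824633720832 5937362789990 3665039 122167959 1570732 true) rEAc5t 0 384829069722 0 2512274118306 721554505728 824633720832 = true :=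
  bisT_Y 1256137059153 rEAc6 rEAc7 rfl

def rEAc3t : BT := BT.Z rEAc4t rEAc5t
theorem rEAc3 : bisT (okE pRA 824633720832 824633720832 5937362789990 3665039 122167959 1570732 true) rEAc3t 0 384829069722 0 2512274118306 618475290624 824633720832 = true :=
  bisT_Z 721554505728 rEAc4 rEAc5 rfl

def rEAc1t : BT := BT.Z rEAc2t rEAc3t
theorem rEAc1 : bisT (okE pRA 824633720832 824633720832 5937362789990 3665039 122167959 1570732 true) rEAc1t 0 384829069722 0 2512274118306 412316860416 824633720832 = true :=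
  bisT_Z 618475290624 rEAc2 rEAc3 rfl

def rEAc9t : BT := (.Y (.X (.Z .L (.X .L .L)) (.Z .L (.X .L (.X .L .L)))) (.X (.Y (.Z .L (.X (.X
  .L .L) .L)) (.Y (.X .L .L) (.Y (.X .L .L) (.Z .L .L)))) (.Y (.X .L .L) (.Y .L (.Y .L (.Z .L
  .L))))))
theorem rEAc9 : bisT (okE pRA 824633720832 824633720832 5937362789990 3665039 122167959 1570732 true) rEAc9t 384829069722 769658139444 0 2512274118306 412316860416 618475290624 = true := by
  decide +kernel

def rEAc12t : BT := (.X (.X (.Z .L (.X .L .L)) (.Z .L (.X .L (.X .L .L)))) (.Y (.Z .L (.X .L .L))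
  (.X (.Y (.Z .L (.X .L .L)) .L) (.Y (.Y (.Z .L (.X .L .L)) .L) .L))))
theorem rEAc12 : bisT (okE pRA 824633720832 824633720832 5937362789990 3665039 122167959 1570732 true) rEAc12t 384829069722 769658139444 0 1256137059153 618475290624 721554505728 = true := by
  decide +kernel

def rEAc14t : BT := (.X (.Y (.Z .L (.X .L .L)) (.X (.Y (.Z .L (.Z .L (.X .L .L))) (.Y (.Z .L (.Z
  .L (.Z .L (.X .L .L)))) (.X (.Z .L .L) .L))) (.Y (.Z .L (.Z .L (.X .L (.X .L .L)))) (.Y (.Y (.Z
  .L (.Z .L .L)) .L) .L)))) (.Z (.Y .L (.Y (.Z .L (.X .L .L)) (.X .L .L))) (.Y (.Z .L (.X .L .L))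
  (.X (.Y (.X (.Z .L (.Z .L .L)) (.Z .L (.Z .L (.X .L .L)))) .L) (.Y (.Y (.Z .L (.X .L (.X .L
  .L))) (.X .L .L)) .L)))))
theorem rEAc14 : bisT (okE pRA 824633720832 824633720832 5937362789990 3665039 122167959 1570732 true) rEAc14t 384829069722 577243604583 0 1256137059153 721554505728 824633720832 = true := by
  decide +kernel

def rEAc15t : BT := (.X (.Y (.X (.Z .L (.Z .L (.X .L .L))) (.Z .L (.Z .L (.X .L .L)))) (.Y (.Y (.Z
  (.Z .L (.X .L .L)) (.X (.X (.Z .L (.Y .L .L)) (.Y (.Z .L .L) .L)) (.Y (.X (.Y (.Z .L .L) .L) (.X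
  .L .L)) .L))) (.X .L .L)) .L)) (.Y (.X (.Z .L (.Z .L (.X .L (.X .L .L)))) (.X (.Z .L (.Z .L (.X
  .L .L))) (.Z .L (.Y .L (.Z .L (.X .L .L)))))) (.Y (.X (.Y (.Y (.X (.Z .L .L) .L) .L) .L) (.Z .L
  .L)) .L)))
theorem rEAc15 : bisT (okE pRA 824633720832 824633720832 5937362789990 3665039 122167959 1570732 true) rEAc15t 577243604583 769658139444 0 1256137059153 721554505728 824633720832 = true := by
  decide +kernel

def rEAc13t : BT := BT.X rEAc14t rEAc15t
theorem rEAc13 : bisT (okE pRA 824633720832 824633720832 5937362789990 3665039 122167959 1570732 true) rEAc13t 384829069722 769658139444 0 1256137059153 721554505728 824633720832 = true :=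
  bisT_X 577243604583 rEAc14 rEAc15 rfl

def rEAc11t : BT := BT.Z rEAc12t rEAc13t
theorem rEAc11 : bisT (okE pRA 824633720832 824633720832 5937362789990 3665039 122167959 1570732 true) rEAc11t 384829069722 769658139444 0 1256137059153 618475290624 824633720832 = true :=
  bisT_Z 721554505728 rEAc12 rEAc13 rfl

def rEAc16t : BT := (.Y (.X (.X (.Y (.X (.Z .L .L) .L) .L) (.Y .L .L)) (.X (.X .L .L) (.X .L .L)))
  (.Y (.Z (.X (.X .L .L) (.X .L .L)) (.Y (.Z (.X .L .L) .L) .L)) (.Y (.Y (.Z (.Z (.X .L .L) .L)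
  .L) .L) .L)))
theorem rEAc16 : bisT (okE pRA 824633720832 824633720832 5937362789990 3665039 122167959 1570732 true) rEAc16t 384829069722 769658139444 1256137059153 2512274118306 618475290624 824633720832 = true := by
  decide +kernel

def rEAc10t : BT := BT.Y rEAc11t rEAc16t
theorem rEAc10 : bisT (okE pRA 824633720832 824633720832 5937362789990 3665039 122167959 1570732 true) rEAc10t 384829069722 769658139444 0 2512274118306 618475290624 824633720832 = true :=
  bisT_Y 1256137059153 rEAc11 rEAc16 rfl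

def rEAc8t : BT := BT.Z rEAc9t rEAc10t
theorem rEAc8 : bisT (okE pRA 824633720832 824633720832 5937362789990 3665039 122167959 1570732 true) rEAc8t 384829069722 769658139444 0 2512274118306 412316860416 824633720832 = true :=
  bisT_Z 618475290624 rEAc9 rEAc10 rfl

def rEAc0t : BT := BT.X rEAc1t rEAc8t
theorem rEAc0 : bisT (okE pRA 824633720832 824633720832 5937362789990 3665039 122167959 1570732 true) rEAc0t 0 769658139444 0 2512274118306 412316860416 824633720832 = true :=
  bisT_X 384829069722 rEAc1 rEAc8 rfl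

theorem rEAc : bisT (okE pRA 824633720832 824633720832 5937362789990 3665039 122167959 1570732 true) rEAc0t 0 769658139444 0 2512274118306 412316860416 824633720832 = true := rEAc0

end SokamCel

end

/-! ### Lib_MP_af4de1_v3.RunLEAn -/

section
/-!
# Left runs: tree tLEAn (helper93)
-/

set_option autoImplicit false

namespace SokamCel

def tLEAn4t : BT := (.X (.Y .L (.Z .L .L)) (.Y .L (.Z .L .L)))
theorem tLEAn4 : bisT (okLE chkLA 824633720832 824633720832 5937362789990 false) tLEAn4t 0 395824185999 0 628041250000 412316860416 618475290624 = true := by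
  decide +kernel

def tLEAn5t : BT := (.X (.Y (.Z .L (.X (.Y .L (.Z .L .L)) (.Y (.Z .L .L) (.Z .L .L)))) (.Z (.X .L
  (.Y .L .L)) (.X (.Y (.Z .L .L) .L) (.Y (.Z .L (.X (.Y .L .L) (.Y .L .L))) .L)))) (.Y (.Z (.X .L
  .L) (.X (.Y (.Z .L .L) (.Z .L (.X .L .L))) (.Y (.Z .L .L) (.Z .L (.X .L (.Y .L (.Z .L .L)))))))
  (.Z (.X (.Y .L .L) (.Y (.Z .L .L) .L)) (.X (.Y (.Z .L (.X (.Y .L .L) (.Y (.Z .L .L) .L))) .L)
  (.Y (.Z (.X .L .L) (.X (.Y (.Z .L .L) (.Z .L .L)) (.Y (.Z .L (.X .L .L)) (.Z .L (.X .L (.Y .L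
  .L)))))) .L)))))
theorem tLEAn5 : bisT (okLE chkLA 824633720832 824633720832 5937362789990 false) tLEAn5t 0 395824185999 0 628041250000 618475290624 824633720832 = true := by
  decide +kernel

def tLEAn3t : BT := BT.Z tLEAn4t tLEAn5t
theorem tLEAn3 : bisT (okLE chkLA 824633720832 824633720832 5937362789990 false) tLEAn3t 0 395824185999 0 628041250000 412316860416 824633720832 = true :=
  bisT_Z 618475290624 tLEAn4 tLEAn5 rfl

def tLEAn6t : BT := (.Z (.X .L (.Y .L .L)) (.X (.Y .L .L) (.Y (.Z .L .L) .L)))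
theorem tLEAn6 : bisT (okLE chkLA 824633720832 824633720832 5937362789990 false) tLEAn6t 0 395824185999 628041250000 1256082500000 412316860416 824633720832 = true := by
  decide +kernel

def tLEAn2t : BT := BT.Y tLEAn3t tLEAn6t
theorem tLEAn2 : bisT (okLE chkLA 824633720832 824633720832 5937362789990 false) tLEAn2t 0 395824185999 0 1256082500000 412316860416 824633720832 = true :=
  bisT_Y 628041250000 tLEAn3 tLEAn6 rfl

def tLEAn9t : BT := (.X (.Y (.Z .L .L) (.Z .L (.X .L .L))) (.Y (.Z .L .L) (.Z .L (.X .L .L))))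
theorem tLEAn9 : bisT (okLE chkLA 824633720832 824633720832 5937362789990 false) tLEAn9t 395824185999 791648371999 0 628041250000 412316860416 618475290624 = true := by
  decide +kernel

def tLEAn12t : BT := (.Z (.X .L .L) (.X (.Y (.Z .L .L) (.Z .L (.X (.Y .L (.Z .L .L)) (.Y .L (.Z .L
  .L))))) (.Y (.Z .L (.X .L .L)) (.Z .L (.X (.Y .L (.Z .L .L)) (.Y .L (.Z .L .L)))))))
theorem tLEAn12 : bisT (okLE chkLA 824633720832 824633720832 5937362789990 false) tLEAn12t 395824185999 593736278999 0 314020625000 618475290624 824633720832 = true := by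
  decide +kernel

def tLEAn14t : BT := (.X (.Y (.Z .L .L) (.Z .L (.X .L .L))) (.Y (.Z .L .L) (.Z .L (.X .L .L))))
theorem tLEAn14 : bisT (okLE chkLA 824633720832 824633720832 5937362789990 false) tLEAn14t 395824185999 593736278999 314020625000 628041250000 618475290624 721554505728 = true := by
  decide +kernel

def tLEAn16t : BT := (.Y (.Z (.X .L .L) (.X (.Y (.Z .L (.X .L .L)) (.Z (.X .L .L) (.X (.Y (.Z .L
  .L) .L) (.Y (.Z .L .L) .L)))) (.Y (.Z .L (.X .L .L)) (.Z (.X .L .L) (.X (.Y (.Z .L .L) .L) (.Y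
  (.Z .L .L) .L)))))) (.Z .L .L))
theorem tLEAn16 : bisT (okLE chkLA 824633720832 824633720832 5937362789990 false) tLEAn16t 395824185999 494780232499 314020625000 628041250000 721554505728 824633720832 = true := by
  decide +kernel

def tLEAn17t : BT := (.Y (.Z (.X (.Y .L (.Z .L .L)) (.Y .L (.Z .L .L))) (.X (.Y (.Z .L (.X .L (.Y
  .L (.Z .L .L)))) (.Z (.X .L .L) (.X (.Y (.Z .L (.X .L .L)) .L) (.Y (.Z .L (.X .L .L)) .L)))) (.Y
  (.Z .L (.X (.Y .L (.Z .L .L)) (.Y .L (.Z .L .L)))) (.Z (.X .L .L) (.X (.Y (.Z .L (.X .L .L)) (.Z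
  .L .L)) (.Y (.Z .L (.X .L .L)) (.Z .L (.X .L .L)))))))) (.Z (.X .L (.Y (.Z .L .L) .L)) (.X .L
  (.Y .L .L))))
theorem tLEAn17 : bisT (okLE chkLA 824633720832 824633720832 5937362789990 false) tLEAn17t 494780232499 593736278999 314020625000 628041250000 721554505728 824633720832 = true := by
  decide +kernel

def tLEAn15t : BT := BT.X tLEAn16t tLEAn17t
theorem tLEAn15 : bisT (okLE chkLA 824633720832 824633720832 5937362789990 false) tLEAn15t 395824185999 593736278999 314020625000 628041250000 721554505728 824633720832 = true :=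
  bisT_X 494780232499 tLEAn16 tLEAn17 rfl

def tLEAn13t : BT := BT.Z tLEAn14t tLEAn15t
theorem tLEAn13 : bisT (okLE chkLA 824633720832 824633720832 5937362789990 false) tLEAn13t 395824185999 593736278999 314020625000 628041250000 618475290624 824633720832 = true :=
  bisT_Z 721554505728 tLEAn14 tLEAn15 rfl

def tLEAn11t : BT := BT.Y tLEAn12t tLEAn13t
theorem tLEAn11 : bisT (okLE chkLA 824633720832 824633720832 5937362789990 false) tLEAn11t 395824185999 593736278999 0 628041250000 618475290624 824633720832 = true :=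
  bisT_Y 314020625000 tLEAn12 tLEAn13 rfl

def tLEAn19t : BT := (.Z (.X .L .L) (.X (.Y (.Z .L (.X .L .L)) (.Z .L (.X (.Y .L (.Z .L .L)) (.Y
  .L (.Z .L .L))))) (.Y (.Z .L (.X .L .L)) (.Z .L (.X (.Y .L (.Z .L .L)) (.Y .L (.Z .L .L)))))))
theorem tLEAn19 : bisT (okLE chkLA 824633720832 824633720832 5937362789990 false) tLEAn19t 593736278999 791648371999 0 314020625000 618475290624 824633720832 = true := by
  decide +kernel

def tLEAn21t : BT := (.X (.Y (.Z .L .L) (.Z .L (.X .L .L))) (.Y (.Z .L .L) (.Z .L (.X .L .L))))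
theorem tLEAn21 : bisT (okLE chkLA 824633720832 824633720832 5937362789990 false) tLEAn21t 593736278999 791648371999 314020625000 628041250000 618475290624 721554505728 = true := by
  decide +kernel

def tLEAn24t : BT := (.Z (.X (.Y .L (.Z .L .L)) (.Y .L (.Z .L .L))) (.X (.Y (.Z .L (.X .L .L)) (.Z
  (.X .L .L) (.X (.Y (.Z .L (.X .L .L)) (.Z .L (.X (.Y .L .L) (.Y .L .L)))) (.Y (.Z .L .L) (.Z .L
  (.X (.Y .L .L) .L)))))) (.Y (.Z .L (.X .L .L)) (.Z (.X .L .L) (.X (.Y (.Z .L .L) (.Z .L (.X .L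
  .L))) (.Y (.Z .L .L) (.Z .L (.X .L .L))))))))
theorem tLEAn24 : bisT (okLE chkLA 824633720832 824633720832 5937362789990 false) tLEAn24t 593736278999 692692325499 314020625000 471030937500 721554505728 824633720832 = true := by
  decide +kernel

def tLEAn25t : BT := (.Z (.X (.Y (.Z .L (.X .L .L)) .L) (.Y (.Z .L (.X .L .L)) .L)) (.X (.Y (.Z
  (.X .L .L) (.X .L .L)) .L) (.Y (.Z (.X (.Y .L .L) (.Y .L .L)) (.X (.Y .L .L) (.Y (.Z (.X .L .L)
  (.X .L .L)) .L))) .L)))
theorem tLEAn25 : bisT (okLE chkLA 824633720832 824633720832 5937362789990 false) tLEAn25t 593736278999 692692325499 471030937500 628041250000 721554505728 824633720832 = true := by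
  decide +kernel

def tLEAn23t : BT := BT.Y tLEAn24t tLEAn25t
theorem tLEAn23 : bisT (okLE chkLA 824633720832 824633720832 5937362789990 false) tLEAn23t 593736278999 692692325499 314020625000 628041250000 721554505728 824633720832 = true :=
  bisT_Y 471030937500 tLEAn24 tLEAn25 rfl

def tLEAn27t : BT := (.Z (.X .L .L) (.X (.Y (.Z .L (.X .L .L)) (.Z (.X .L .L) (.X (.Y (.Z .L .L)
  (.Z .L (.X .L .L))) (.Y .L (.Z .L .L))))) (.Y (.Z .L (.X .L .L)) (.Z .L (.X (.Y .L (.Z .L .L))
  .L)))))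
theorem tLEAn27 : bisT (okLE chkLA 824633720832 824633720832 5937362789990 false) tLEAn27t 692692325499 791648371999 314020625000 471030937500 721554505728 824633720832 = true := by
  decide +kernel

def tLEAn28t : BT := (.Z (.X (.Y (.Z .L .L) .L) (.Y (.Z .L .L) (.Z .L (.X .L .L)))) (.X (.Y (.Z
  (.X (.Y .L .L) (.Y .L .L)) (.X (.Y (.Z .L (.X (.Y .L .L) (.Y .L .L))) .L) (.Y (.Z .L (.X .L .L))
  .L))) .L) (.Y (.Z (.X .L .L) (.X (.Y (.Z .L (.X .L .L)) (.Z (.X .L .L) (.X .L .L))) (.Y (.Z .L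
  .L) (.Z .L (.X .L .L))))) (.Z (.X .L .L) (.X .L .L)))))
theorem tLEAn28 : bisT (okLE chkLA 824633720832 824633720832 5937362789990 false) tLEAn28t 692692325499 791648371999 471030937500 628041250000 721554505728 824633720832 = true := by
  decide +kernel

def tLEAn26t : BT := BT.Y tLEAn27t tLEAn28t
theorem tLEAn26 : bisT (okLE chkLA 824633720832 824633720832 5937362789990 false) tLEAn26t 692692325499 791648371999 314020625000 628041250000 721554505728 824633720832 = true :=
  bisT_Y 471030937500 tLEAn27 tLEAn28 rfl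

def tLEAn22t : BT := BT.X tLEAn23t tLEAn26t
theorem tLEAn22 : bisT (okLE chkLA 824633720832 824633720832 5937362789990 false) tLEAn22t 593736278999 791648371999 314020625000 628041250000 721554505728 824633720832 = true :=
  bisT_X 692692325499 tLEAn23 tLEAn26 rfl

def tLEAn20t : BT := BT.Z tLEAn21t tLEAn22t
theorem tLEAn20 : bisT (okLE chkLA 824633720832 824633720832 5937362789990 false) tLEAn20t 593736278999 791648371999 314020625000 628041250000 618475290624 824633720832 = true :=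
  bisT_Z 721554505728 tLEAn21 tLEAn22 rfl

def tLEAn18t : BT := BT.Y tLEAn19t tLEAn20t
theorem tLEAn18 : bisT (okLE chkLA 824633720832 824633720832 5937362789990 false) tLEAn18t 593736278999 791648371999 0 628041250000 618475290624 824633720832 = true :=
  bisT_Y 314020625000 tLEAn19 tLEAn20 rfl

def tLEAn10t : BT := BT.X tLEAn11t tLEAn18t
theorem tLEAn10 : bisT (okLE chkLA 824633720832 824633720832 5937362789990 false) tLEAn10t 395824185999 791648371999 0 628041250000 618475290624 824633720832 = true :=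
  bisT_X 593736278999 tLEAn11 tLEAn18 rfl

def tLEAn8t : BT := BT.Z tLEAn9t tLEAn10t
theorem tLEAn8 : bisT (okLE chkLA 824633720832 824633720832 5937362789990 false) tLEAn8t 395824185999 791648371999 0 628041250000 412316860416 824633720832 = true :=
  bisT_Z 618475290624 tLEAn9 tLEAn10 rfl

def tLEAn29t : BT := (.Z (.X (.Y (.Z .L (.X .L .L)) .L) (.Y (.Z .L (.X (.Y .L .L) (.Y .L .L))) (.Z
  .L .L))) (.X (.Y (.Z (.X .L .L) (.X .L .L)) (.Z .L (.X .L .L))) (.Y (.Z (.X (.Y .L .L) (.Y (.Z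
  (.X .L .L) (.X .L .L)) .L)) (.X (.Y .L .L) (.Y (.Z (.X .L .L) (.X .L .L)) .L))) (.Z (.X .L .L)
  (.X .L .L)))))
theorem tLEAn29 : bisT (okLE chkLA 824633720832 824633720832 5937362789990 false) tLEAn29t 395824185999 791648371999 628041250000 1256082500000 412316860416 824633720832 = true := by
  decide +kernel

def tLEAn7t : BT := BT.Y tLEAn8t tLEAn29t
theorem tLEAn7 : bisT (okLE chkLA 824633720832 824633720832 5937362789990 false) tLEAn7t 395824185999 791648371999 0 1256082500000 412316860416 824633720832 = true :=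
  bisT_Y 628041250000 tLEAn8 tLEAn29 rfl

def tLEAn1t : BT := BT.X tLEAn2t tLEAn7t
theorem tLEAn1 : bisT (okLE chkLA 824633720832 824633720832 5937362789990 false) tLEAn1t 0 791648371999 0 1256082500000 412316860416 824633720832 = true :=
  bisT_X 395824185999 tLEAn2 tLEAn7 rfl

def tLEAn30t : BT := (.X (.Y (.Z (.X .L .L) (.X .L (.Y (.Z .L .L) (.Z .L .L)))) (.Z (.X .L (.Y (.Z
  .L .L) (.Z .L .L))) .L)) (.Y (.Z (.X (.Y .L .L) (.Y (.Z .L .L) (.Z .L .L))) (.X (.Y (.Z .L (.X
  .L .L)) (.Z (.X .L .L) .L)) (.Y (.Z (.X .L .L) (.X .L .L)) (.Z (.X .L .L) (.X (.Y .L .L) (.Y .L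
  .L)))))) (.Z (.X (.Y (.Z .L .L) (.Z .L .L)) (.Y (.Z .L .L) (.Z .L (.X .L .L)))) (.X .L (.Y (.Z
  (.X .L .L) (.X .L (.Y (.Z .L .L) .L))) (.Z (.X .L (.Y (.Z .L .L) .L)) .L))))))
theorem tLEAn30 : bisT (okLE chkLA 824633720832 824633720832 5937362789990 false) tLEAn30t 0 791648371999 1256082500000 2512165000000 412316860416 824633720832 = true := by
  decide +kernel

def tLEAn0t : BT := BT.Y tLEAn1t tLEAn30t
theorem tLEAn0 : bisT (okLE chkLA 824633720832 824633720832 5937362789990 false) tLEAn0t 0 791648371999 0 2512165000000 412316860416 824633720832 = true :=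
  bisT_Y 1256082500000 tLEAn1 tLEAn30 rfl

theorem tLEAn : bisT (okLE chkLA 824633720832 824633720832 5937362789990 false) tLEAn0t 0 791648371999 0 2512165000000 412316860416 824633720832 = true := tLEAn0

end SokamCel

end
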