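import Pool.Agent.Lib_MP_af4de1_zy.Z117
import Pool.Agent.Lib_MP_af4de1_zy.Z119

/-! ### Lib_MP_af4de1_v3.LevQ -/

section
namespace SokamF1
end SokamF1
namespace SokamF1M
end SokamF1M
namespace SokamF1S
end SokamF1S
namespace SokamU
end SokamU
/-!
# `D ≤ (1 + κ) √R`, `κ = k |η|/√R`, from field `l1` of `Lev` (both sides)
-/

set_option autoImplicit false

namespace SokamV3

open Complex SokamU SokamF1 SokamF1S SokamF1M

theorem Lev.q1 {r δ y η g k q : ℝ} (hr : 0 < r) (hδ : 0 < δ) (h : Lev r δ y η g k q) :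
    sD (r * δ) y ≤ (1 + k * (|η| / √(RR r δ))) * √(RR r δ) := by
  have hρ : 0 < r * δ := by positivity
  have hR : 0 < RR r δ := by unfold RR; positivity
  have hRe : RR r δ = 1 + (r * δ) ^ (2 : ℕ) := rfl
  set s := √(RR r δ) with hs
  have hs0 : 0 < s := Real.sqrt_pos.2 hR
  have hs2 : s ^ (2 : ℕ) = 1 + (r * δ) ^ (2 : ℕ) := by rw [hs, Real.sq_sqrt hR.le, hRe]
  have hρs : r * δ ≤ s := by
    refine abs_le_of_sq_le_sq' ?_ hs0.le |>.2
    rw [hs2]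
    linarith
  have h1 := h.l1
  -- |K - ρ| ≤ κ ρ
  have e1 : kap r δ y - r = ((1 / δ : ℝ) : ℂ) * (sK (r * δ) y - (r * δ : ℝ)) := by
    unfold kap
    have hd : (δ : ℂ) ≠ 0 := by exact_mod_cast hδ.ne'
    push_cast
    field_simp
  rw [e1, norm_mul, Complex.norm_real, Real.norm_of_nonneg (by positivity)] at h1
  have h2 : ‖sK (r * δ) y - (r * δ : ℝ)‖ ≤ k * (|η| / s) * (r * δ) := by
    have h3 := mul_le_mul_of_nonneg_left h1 hδ.le
    have e2 : δ * (1 / δ * ‖sK (r * δ) y - (r * δ : ℝ)‖) = ‖sK (r * δ) y - (r * δ : ℝ)‖ := by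
      field_simp
    rw [e2] at h3
    refine h3.trans (le_of_eq ?_)
    ring
  have hκ : 0 ≤ k * (|η| / s) := by
    have h3 := (norm_nonneg _).trans h2
    exact nonneg_of_mul_nonneg_left h3 hρ
  have h4 : sD (r * δ) y = ‖1 - I * sK (r * δ) y‖ := by
    unfold sD
    rw [← norm_one_sub, Real.sqrt_sq (norm_nonneg _)]
  have h5 : ‖1 - I * ((r * δ : ℝ) : ℂ)‖ = s := by
    rw [hs, hRe, Complex.norm_def, Complex.normSq_apply]
    congr 1
    simp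
    ring
  have e3 : 1 - I * sK (r * δ) y =
      (1 - I * ((r * δ : ℝ) : ℂ)) - I * (sK (r * δ) y - ((r * δ : ℝ) : ℂ)) := by ring
  have h6 : ‖1 - I * sK (r * δ) y‖ ≤ s + k * (|η| / s) * (r * δ) := by
    rw [e3]
    refine (norm_sub_le _ _).trans ?_
    rw [h5, norm_mul, Complex.norm_I, one_mul]
    linarith
  rw [h4]
  refine h6.trans ?_
  have h7 := mul_le_mul_of_nonneg_left hρs hκ
  linarith

/-- `Lev` with `q` replaced by `1 + κ` -/
theorem Lev.toQ {r δ y η g k q : ℝ} (hr : 0 < r) (hδ : 0 < δ) (h : Lev r δ y η g k q) :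
    Lev r δ y η g k (1 + k * (|η| / √(RR r δ))) :=
  ⟨h.l0, h.l1, h.q1 hr hδ⟩

end SokamV3

end

/-! ### Lib_MP_af4de1_v3.BrRI -/

section
namespace SokamCen
end SokamCen
/-!
# BRIDGE, right side, image: `iL0 iLW jL0 jLW` of `CenTR` at `t' = 2π - t` against `CelRI`

`PS iL0 ≤ RI0`, `PS iLW ≤ (h c)² RI0 RIW`, `PS jL0 = RJ0`, `PS jLW = (h c)² RJ0 RJW`.
`Dat.imI0 imIW` : the sums, in the form of the evaluator `xiR`.
-/

set_option autoImplicit false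

namespace SokamCel

open Real SokamCen

theorem AL_eqL {ρ s μ t : ℝ} (hρ : 0 < ρ) (hs : 0 < s) (hμ : 0 < μ) (ht : 0 < t) :
    AL (μ * s) ρ t = La μ (ρ / s) (t / (μ * s)) * (1 / s) ^ (2 : ℕ) / (ρ / s) := by
  have hm : 0 < μ * s := mul_pos hμ hs
  have hM : 0 < max 1 (t / (μ * s)) := lt_max_of_lt_left one_pos
  unfold AL
  rw [min_inv_max hm ht]
  unfold aL La
  field_simp

theorem La_posL {μ ν T : ℝ} (hμ : 1 ≤ μ) (hν : ν ≤ 1) : 0 < La μ ν T := by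
  unfold La
  have hM : 0 < max 1 T := lt_max_of_lt_left one_pos
  have h5 : 0 < μ - ν / 2 := by linarith only [hμ, hν]
  positivity

theorem RBi_pos (μ c h τ : ℝ) : 0 < RBi μ c h τ := by
  unfold RBi
  positivity

theorem PS_nonneg (r ρ s g q τ Γ μ : ℝ) : 0 ≤ PS r ρ s g q τ Γ μ := by
  unfold PS
  positivity

section

variable {r ρ s h τ Γ : ℝ} (D : Dat r ρ s h τ Γ)

include D

/-- prefactor times a Gaussian -/
theorem Dat.PQ {μ Q g q : ℝ} (hμ : 1 ≤ μ) (hQ : 0 < Q) (hq : 0 ≤ q) :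
    PS r ρ s g q τ Γ μ * √(π / (r * (Q / (ρ / s)))) =
      √(q * (1 + (1 / s) ^ (2 : ℕ) / μ ^ (2 : ℕ)) / (2 * Q)) * exp (g / 2 * (Γ * τ ^ (2 : ℕ))) := by
  have hμ0 : 0 < μ := by linarith only [hμ]
  have h1 := D.ρ0
  have h2 := D.s0
  have h3 := D.r0
  have hpi := Real.pi_pos
  unfold PS
  have e1 : √(r / (2 * π * ρ)) * √(q * s) * √(1 + 1 / (μ * s) ^ (2 : ℕ)) *
      √(π / (r * (Q / (ρ / s)))) = √(q * (1 + (1 / s) ^ (2 : ℕ) / μ ^ (2 : ℕ)) / (2 * Q)) := by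
    rw [← Real.sqrt_mul (by positivity), ← Real.sqrt_mul (by positivity),
      ← Real.sqrt_mul (by positivity)]
    congr 1
    field_simp
  rw [← e1]
  ring

theorem Dat.tpe {μ : ℝ} (hμ : 0 < μ) : Ltp h τ / (μ * s) = Ltp h τ * (1 / s) / μ := by
  have := D.s0
  field_simp

/-- `A + B` of the image -/
theorem Dat.ABi {μ : ℝ} (hμ : 0 < μ) (ht : 0 < Ltp h τ) :
    AL (μ * s) ρ (Ltp h τ) + RBi μ (1 / s) h τ = RQi μ (1 / s) (ρ / s) h τ / (ρ / s) := by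
  have h1 := D.ρ0
  have h2 := D.s0
  rw [AL_eqL D.ρ0 D.s0 hμ ht, D.tpe hμ]
  unfold RQi
  field_simp

theorem Dat.iBe {μ : ℝ} (hμ : 0 < μ) : iB (μ * s) (Ltp h τ) = RBi μ (1 / s) h τ := by
  unfold iB RBi cT
  rw [D.tpe hμ]

theorem Dat.RQi_pos {μ : ℝ} (hμ : 1 ≤ μ) : 0 < RQi μ (1 / s) (ρ / s) h τ := by
  have h1 := La_posL (T := Ltp h τ * (1 / s) / μ) hμ D.ν1
  have h2 := D.ν0
  have h3 := D.s0
  have h4 := RBi_pos μ (1 / s) h τ
  unfold RQi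
  positivity

/-- exponent of the main half -/
theorem Dat.exi {μ g : ℝ} (hμ : 1 ≤ μ) (ht : 0 < Ltp h τ) :
    exp (g / 2 * (Γ * τ ^ (2 : ℕ))) * exp (-(r * (AL (μ * s) ρ (Ltp h τ) * RBi μ (1 / s) h τ *
      Ltp h τ ^ (2 : ℕ) / (AL (μ * s) ρ (Ltp h τ) + RBi μ (1 / s) h τ) - 0))) =
      exp (-(Γ * (1 / ((1 / s) ^ (2 : ℕ) / RBi μ (1 / s) h τ + ρ / s / La μ (ρ / s)
        (Ltp h τ * (1 / s) / μ)) * (Ltp h τ / h) ^ (2 : ℕ) - g / 2 * τ ^ (2 : ℕ)))) := by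
  have hμ0 : 0 < μ := by linarith only [hμ]
  have hA := La_posL (T := Ltp h τ * (1 / s) / μ) hμ D.ν1
  have hQ := D.RQi_pos hμ
  have hB := RBi_pos μ (1 / s) h τ
  have h1 := D.ρ0
  have h2 := D.s0
  have h3 := D.h0
  rw [← Real.exp_add, D.ABi hμ0 ht, AL_eqL D.ρ0 D.s0 hμ0 ht, D.tpe hμ0, D.G]
  congr 1
  unfold RQi at hQ ⊢
  set B := RBi μ (1 / s) h τ with hBd
  set A := La μ (ρ / s) (Ltp h τ * (1 / s) / μ) with hAd
  have hQ' : A * (1 / s) ^ (2 : ℕ) + ρ / s * B ≠ 0 := hQ.ne'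
  have e2 : (1 / s) ^ (2 : ℕ) / B + ρ / s / A = (A * (1 / s) ^ (2 : ℕ) + ρ / s * B) / (A * B) := by
    field_simp
  rw [e2]
  set QQ := A * (1 / s) ^ (2 : ℕ) + ρ / s * B with hQQ
  field_simp
  ring

/-- full Gaussian, main half -/
theorem Dat.PGi {μ g q : ℝ} (hμ : 1 ≤ μ) (hq : 0 ≤ q) (ht : 0 < Ltp h τ) :
    PS r ρ s g q τ Γ μ * (gG r (AL (μ * s) ρ (Ltp h τ)) (RBi μ (1 / s) h τ) *
      exp (-(r * (AL (μ * s) ρ (Ltp h τ) * RBi μ (1 / s) h τ * Ltp h τ ^ (2 : ℕ) /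
        (AL (μ * s) ρ (Ltp h τ) + RBi μ (1 / s) h τ) - 0)))) =
      RI0 μ q g (1 / s) (ρ / s) h τ Γ := by
  have hμ0 : 0 < μ := by linarith only [hμ]
  have hQ := D.RQi_pos hμ
  have e := D.exi (g := g) hμ ht
  have e1 := D.PQ (g := g) (q := q) hμ hQ hq
  unfold RI0
  rw [← e, ← mul_assoc]
  unfold gG
  have e2 : π / (r * (AL (μ * s) ρ (Ltp h τ) + RBi μ (1 / s) h τ)) =
      π / (r * (RQi μ (1 / s) (ρ / s) h τ / (ρ / s))) := by rw [D.ABi hμ0 ht]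
  rw [e2, e1]
  ring

/-- image, main half, `I0` -/
theorem Dat.iI0 {μ g q : ℝ} (hμ : 1 ≤ μ) (hq : 0 ≤ q) (ht : 0 < Ltp h τ) :
    PS r ρ s g q τ Γ μ * iL0 r (μ * s) ρ (Ltp h τ) ≤ RI0 μ q g (1 / s) (ρ / s) h τ Γ := by
  have hμ0 : 0 < μ := by linarith only [hμ]
  rw [← D.PGi hμ hq ht]
  refine mul_le_mul_of_nonneg_left ?_ (PS_nonneg _ _ _ _ _ _ _ _)
  unfold iL0 g0
  rw [D.iBe hμ0]
  refine mul_le_mul_of_nonneg_right ?_ (exp_pos _).le
  have h1 : gr r (AL (μ * s) ρ (Ltp h τ)) (RBi μ (1 / s) h τ) (Ltp h τ) ≤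
      gG r (AL (μ * s) ρ (Ltp h τ)) (RBi μ (1 / s) h τ) / 2 := min_le_left _ _
  linarith only [h1]

/-- image, main half, weight -/
theorem Dat.iIW {μ g q : ℝ} (hμ : 1 ≤ μ) (hq : 0 ≤ q) (ht : 0 < Ltp h τ) :
    PS r ρ s g q τ Γ μ * iLW r (μ * s) ρ (Ltp h τ) ≤
      (h * (1 / s)) ^ (2 : ℕ) * (RI0 μ q g (1 / s) (ρ / s) h τ Γ * RIW μ (1 / s) (ρ / s) h τ Γ) := by
  have hμ0 : 0 < μ := by linarith only [hμ]
  have hQ := D.RQi_pos hμ
  have hB := RBi_pos μ (1 / s) h τ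
  have hA := La_posL (T := Ltp h τ * (1 / s) / μ) hμ D.ν1
  have h1 := D.ρ0
  have h2 := D.s0
  have h3 := D.h0
  have h4 := D.r0
  have h5 := D.Γ0
  have hAB := D.ABi hμ0 ht
  have e1 : SokamCen.gv (AL (μ * s) ρ (Ltp h τ)) (RBi μ (1 / s) h τ) (Ltp h τ) =
      Ltp h τ * (ρ / s * RBi μ (1 / s) h τ / RQi μ (1 / s) (ρ / s) h τ) := by
    unfold SokamCen.gv
    rw [hAB]
    field_simp
  have e2 : Ltp h τ - Ltp h τ * (ρ / s * RBi μ (1 / s) h τ / RQi μ (1 / s) (ρ / s) h τ) =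
      h * (1 / s) * (Ltp h τ / h * (La μ (ρ / s) (Ltp h τ * (1 / s) / μ) * (1 / s) /
        RQi μ (1 / s) (ρ / s) h τ)) := by
    have e3 : La μ (ρ / s) (Ltp h τ * (1 / s) / μ) =
        (RQi μ (1 / s) (ρ / s) h τ - ρ / s * RBi μ (1 / s) h τ) * s ^ (2 : ℕ) := by
      unfold RQi
      field_simp
      ring
    rw [e3]
    field_simp
  have e4 : SokamCen.gs r (AL (μ * s) ρ (Ltp h τ)) (RBi μ (1 / s) h τ) =
      (h * (1 / s)) ^ (2 : ℕ) * (ρ / s / (Γ * RQi μ (1 / s) (ρ / s) h τ) / 2) := by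
    unfold SokamCen.gs
    have e : (2 : ℝ) * r * (AL (μ * s) ρ (Ltp h τ) + RBi μ (1 / s) h τ) = 2 * r *
      (RQi μ (1 / s) (ρ / s) h τ / (ρ / s)) := by rw [hAB]
    rw [e, D.G]
    field_simp
  rw [← D.PGi hμ hq ht]
  have hP := PS_nonneg r ρ s g q τ Γ μ
  unfold iLW gW
  rw [D.iBe hμ0, e1, e2, e4]
  set X := exp (-(r * (AL (μ * s) ρ (Ltp h τ) * RBi μ (1 / s) h τ * Ltp h τ ^ (2 : ℕ) /
        (AL (μ * s) ρ (Ltp h τ) + RBi μ (1 / s) h τ) - 0))) with hX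
  have hX0 : 0 ≤ X := (exp_pos _).le
  set G := gG r (AL (μ * s) ρ (Ltp h τ)) (RBi μ (1 / s) h τ) with hG
  refine (mul_le_mul_of_nonneg_left (mul_le_mul_of_nonneg_right (min_le_left _ _) hX0) hP).trans
    (le_of_eq ?_)
  unfold RIW
  field_simp
  ring

/-- `bB` -/
theorem Dat.bBe {μ : ℝ} (hμ : 0 < μ) (ht : 0 < Ltp h τ) :
    bA (μ * s) ρ (Ltp h τ) = La μ (ρ / s) (LT3 μ (1 / s) h τ) * (1 / s) ^ (2 : ℕ) / (ρ / s) ∧
    SokamCen.bB (μ * s) ρ (Ltp h τ) = RQj μ (1 / s) (ρ / s) h τ / (ρ / s) := by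
  have h1 := D.ρ0
  have h2 := D.s0
  have e0 : (Ltp h τ + 6 / 5) / (μ * s) = LT3 μ (1 / s) h τ := by
    unfold LT3
    field_simp
  have e1 : bA (μ * s) ρ (Ltp h τ) = La μ (ρ / s) (LT3 μ (1 / s) h τ) * (1 / s) ^ (2 : ℕ) / (ρ / s) := by
    unfold bA
    rw [AL_eqL D.ρ0 D.s0 hμ (by linarith only [ht]), e0]
  refine ⟨e1, ?_⟩
  unfold SokamCen.bB
  rw [e1, e0]
  unfold RQj
  field_simp

theorem Dat.RQj_pos {μ : ℝ} (hμ : 1 ≤ μ) : 0 < RQj μ (1 / s) (ρ / s) h τ := by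
  have h1 := La_posL (T := LT3 μ (1 / s) h τ) hμ D.ν1
  have h2 := D.ν0
  have h3 := D.s0
  unfold RQj
  positivity

/-- image, half behind, `I0` -/
theorem Dat.jI0 {μ g q : ℝ} (hμ : 1 ≤ μ) (hq : 0 ≤ q) (ht : 0 < Ltp h τ) :
    PS r ρ s g q τ Γ μ * jL0 r (μ * s) ρ (Ltp h τ) = RJ0 μ q g (1 / s) (ρ / s) h τ Γ := by
  have hμ0 : 0 < μ := by linarith only [hμ]
  have hQ := D.RQj_pos hμ
  obtain ⟨e1, e2⟩ := D.bBe hμ0 ht
  have e3 := D.PQ (g := g) (q := q) hμ hQ hq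
  have h1 := D.ρ0
  have h2 := D.s0
  have h3 := D.h0
  have e4 : exp (g / 2 * (Γ * τ ^ (2 : ℕ))) * exp (-(r * bA (μ * s) ρ (Ltp h τ) * Ltp h τ ^ (2 : ℕ))) =
      exp (-(Γ * (La μ (ρ / s) (LT3 μ (1 / s) h τ) / (ρ / s) * (Ltp h τ / h) ^ (2 : ℕ) -
        g / 2 * τ ^ (2 : ℕ)))) := by
    rw [← Real.exp_add, e1, D.G]
    congr 1
    field_simp
    ring
  unfold jL0 bH0 RJ0
  rw [← e4, e2]
  calc _ = (PS r ρ s g q τ Γ μ * √(π / (r * (RQj μ (1 / s) (ρ / s) h τ / (ρ / s))))) *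
        (exp (-(r * bA (μ * s) ρ (Ltp h τ) * Ltp h τ ^ (2 : ℕ))) / 2) := by ring
    _ = _ := by
        rw [e3]
        ring

/-- image, half behind, weight -/
theorem Dat.jIW {μ g q : ℝ} (hμ : 1 ≤ μ) (hq : 0 ≤ q) (ht : 0 < Ltp h τ) :
    PS r ρ s g q τ Γ μ * jLW r (μ * s) ρ (Ltp h τ) =
      (h * (1 / s)) ^ (2 : ℕ) * (RJ0 μ q g (1 / s) (ρ / s) h τ Γ * RJW μ (1 / s) (ρ / s) h τ Γ) := by
  have hμ0 : 0 < μ := by linarith only [hμ]
  have hQ := D.RQj_pos hμ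
  obtain ⟨e1, e2⟩ := D.bBe hμ0 ht
  have e3 := D.jI0 (g := g) (q := q) hμ hq ht
  have h1 := D.ρ0
  have h2 := D.s0
  have h3 := D.h0
  have h4 := D.r0
  have h5 := D.Γ0
  have hpi := Real.pi_pos
  rw [← e3]
  unfold jLW jL0 bH2 bH1 bH0 RJW
  rw [e2]
  set Q := RQj μ (1 / s) (ρ / s) h τ with hQd
  set X := exp (-(r * bA (μ * s) ρ (Ltp h τ) * Ltp h τ ^ (2 : ℕ))) with hX
  set P := PS r ρ s g q τ Γ μ with hP
  set W := √(π / (r * (Q / (ρ / s)))) with hW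
  have hW2 : W ^ (2 : ℕ) = π / (r * (Q / (ρ / s))) := Real.sq_sqrt (by positivity)
  -- the square root of `RJW`
  have e4 : √(ρ / s / (Γ * Q) * (1 / π)) = W * (s / (π * h)) := by
    rw [hW, D.G]
    have e5 : ρ / s / (r * h ^ (2 : ℕ) / s ^ (2 : ℕ) * Q) * (1 / π) =
        (π / (r * (Q / (ρ / s)))) * (s / (π * h)) ^ (2 : ℕ) := by
      field_simp
    rw [e5, Real.sqrt_mul (by positivity), Real.sqrt_sq (by positivity)]
  rw [e4]
  have e6 : r = π / (W ^ (2 : ℕ) * (Q / (ρ / s))) := by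
    rw [hW2]
    field_simp
  have hWpos : 0 < W := Real.sqrt_pos.2 (by positivity)
  have e7 : Γ = π / (W ^ (2 : ℕ) * (Q / (ρ / s))) * h ^ (2 : ℕ) / s ^ (2 : ℕ) := by
    rw [← e6]
    exact D.G
  have e8 : (1 : ℝ) / (r * (Q / (ρ / s))) = W ^ (2 : ℕ) / π := by
    rw [hW2]
    field_simp
  have e9 : ρ / s / (Γ * Q) = W ^ (2 : ℕ) * s ^ (2 : ℕ) / (π * h ^ (2 : ℕ)) := by
    rw [e7]
    field_simp
  have e10 : X / (2 * (r * (Q / (ρ / s)))) = X / 2 * (W ^ (2 : ℕ) / π) := by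
    rw [← e8]
    field_simp
  have e11 : X * W / (4 * (r * (Q / (ρ / s)))) = X * W / 4 * (W ^ (2 : ℕ) / π) := by
    rw [← e8]
    field_simp
  rw [e9, e10, e11]
  field_simp
  ring

/-- THE IMAGE, in the form of `xiR` -/
theorem Dat.imI0 {μ g q : ℝ} (hμ : 1 ≤ μ) (hq : 0 ≤ q) (ht : 0 < Ltp h τ) :
    PS r ρ s g q τ Γ μ * (iL0 r (μ * s) ρ (Ltp h τ) + jL0 r (μ * s) ρ (Ltp h τ)) ≤
      RI0 μ q g (1 / s) (ρ / s) h τ Γ + RJ0 μ q g (1 / s) (ρ / s) h τ Γ := by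
  have h1 := D.iI0 (g := g) (q := q) hμ hq ht
  have h2 := D.jI0 (g := g) (q := q) hμ hq ht
  rw [mul_add]
  linarith only [h1, h2]

theorem Dat.imIW {μ g q : ℝ} (hμ : 1 ≤ μ) (hq : 0 ≤ q) (ht : 0 < Ltp h τ) :
    PS r ρ s g q τ Γ μ * (iLW r (μ * s) ρ (Ltp h τ) + jLW r (μ * s) ρ (Ltp h τ)) ≤
      (h * (1 / s)) ^ (2 : ℕ) * (RI0 μ q g (1 / s) (ρ / s) h τ Γ * RIW μ (1 / s) (ρ / s) h τ Γ +
        RJ0 μ q g (1 / s) (ρ / s) h τ Γ * RJW μ (1 / s) (ρ / s) h τ Γ) := by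
  have h1 := D.iIW (g := g) (q := q) hμ hq ht
  have h2 := D.jIW (g := g) (q := q) hμ hq ht
  rw [mul_add, mul_add]
  linarith only [h1, h2]

end

end SokamCel

end

/-! ### Lib_MP_af4de1_v3.ShfR0 -/

section
namespace SokamCen
end SokamCen
namespace SokamF1
end SokamF1
namespace SokamF1M
end SokamF1M
namespace SokamF1S
end SokamF1S
namespace SokamV3
end SokamV3
/-!
# Right side: from the run (`RunP`), the level (`Lev`) and rest + far (`UB`) to `Shf`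
-/

set_option autoImplicit false

namespace SokamCel

open Real MeasureTheory Set SokamCen SokamV3 SokamF1 SokamF1S SokamF1M

/-- the bounds of behind and front (to be given by the bridge) -/
structure BFr (r ρ s g q τ Γ μ h : ℝ) : Prop where
  b0 : PS r ρ s g q τ Γ μ * bR0 r (μ * s) ρ ((1 + τ) * h) ≤ RB0 μ q g (1 / s) (ρ / s) h τ Γ
  bW : PS r ρ s g q τ Γ μ * bRW r (μ * s) ρ ((1 + τ) * h) ≤
    (h * (1 / s)) ^ (2 : ℕ) * RBW μ q g (1 / s) (ρ / s) h τ Γ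
  be : PS r ρ s g q τ Γ μ * bRe r (μ * s) ρ ((1 + τ) * h) ≤ Γ * RBE μ q g (1 / s) (ρ / s) h τ Γ
  f0 : PS r ρ s g q τ Γ μ * fR0 r (μ * s) ρ ((1 + τ) * h) ≤ XF0 μ q g (1 / s) (ρ / s) h τ Γ
  fW : PS r ρ s g q τ Γ μ * fRW r (μ * s) ρ ((1 + τ) * h) ≤
    (h * (1 / s)) ^ (2 : ℕ) * XFW μ q g (1 / s) (ρ / s) h τ Γ

theorem shfR_run0 {N : ℕ} {r δ y η g k q f0 f1 f2 b0 bW be : ℝ} (hR : Reg1 N r δ)
    (hA : At r δ y η) (hη : η ≤ 0) (hp : -π ≤ η - hst N) (hL : Lev r δ y η g k q) (hk : 0 ≤ k)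
    (hq : 0 ≤ q)
    (B : BFr r (r * δ) (√(RR r δ)) g q (|η| / hst N) (Gm N r δ) (5 / 4) (hst N))
    (U : UB N r δ η g q (-((1 + |η| / hst N) * hst N)) (UsR ((1 + |η| / hst N) * hst N)) b0 bW be)
    (X : RunP (5 / 4) q k g (1 / √(RR r δ)) (r * δ / √(RR r δ)) (hst N) (|η| / hst N)
      (Gm N r δ) (bet ((1 + |η| / hst N) * hst N)) b0 bW be f0 f1 f2) :
    Shf r δ y (-hst N) (HH N r δ) f0 f1 f2 := by
  have hN : 1 ≤ N := by
    have := hR.N3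
    omega
  have hr : 0 < r := by linarith [hR.r0]
  have hδ := hR.d0
  have D := dat hN hr hδ η
  have hh := D.h0
  have hs := D.s0
  have hΓ := D.Γ0
  have hρ : 0 < r * δ := mul_pos hr hδ
  have hRR : 0 < RR r δ := by unfold RR; positivity
  have hs2 : √(RR r δ) ^ (2 : ℕ) = RR r δ := Real.sq_sqrt hRR.le
  have ht : 0 < (1 + |η| / hst N) * hst N := D.t0
  have hte : (1 + |η| / hst N) * hst N = |η| + hst N := by
    field_simp
    ring
  have htp : (1 + |η| / hst N) * hst N ≤ π := by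
    rw [hte, abs_of_nonpos hη]
    linarith
  have hθ : η + -hst N = -((1 + |η| / hst N) * hst N) := by
    rw [hte, abs_of_nonpos hη]
    ring
  have em : mm (r * δ) = 5 / 4 * √(RR r δ) := rfl
  obtain ⟨F0, FW, Fe, n0, nW, ne, ZF, e0, eW, ee⟩ := U
  have hsqρ : r * δ ≤ √(RR r δ) := by
    refine Real.le_sqrt_of_sq_le ?_
    unfold RR
    linarith
  have hsq1 : 1 ≤ √(RR r δ) := by
    refine Real.le_sqrt_of_sq_le ?_
    unfold RR
    nlinarith only []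
  have hm : r * δ ≤ mm (r * δ) := by
    rw [em]
    linarith
  have hm1 : 5 / 4 ≤ mm (r * δ) := by
    rw [em]
    linarith
  have hy : y ≤ 0 := y_nonpos hA hη
  have hκ : 0 ≤ k * (|η| / √(RR r δ)) := by positivity
  have hw := w_sub hr hL
  rw [sK_ww hA.dom, mul_div_assoc] at hw
  have hc : 0 ≤ -y := by linarith
  have hd : sP (r * δ) y ≤ 0 := sP_nonpos hρ hy
  have hd2 : -(π / 2) ≤ sP (r * δ) y := (abs_le.1 (sP_abs_le (r * δ) y)).1
  have Z := zoneR hr hρ hm hm1 ht htp hc hd hd2 hκ hw n0 nW ne ZF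
  rw [← sK_ww hA.dom, ← hθ] at Z
  have ht' : 0 < 2 * π - (1 + |η| / hst N) * hst N := by linarith [pi_pos]
  have m1 := bR0_nonneg hr hρ hm ht
  have m2 := bRW_nonneg hr hρ hm ht
  have m3 := bRe_nonneg hr hρ hm ht
  have m4 := fR0_nonneg (t := (1 + |η| / hst N) * hst N) hr hρ hm
  have m5 := fRW_nonneg hr hρ hm ht
  have m6 := iL0_nonneg (q := r) hρ hm ht'
  have m7 := iLW_nonneg hr hρ hm ht'
  have m8 := jL0_nonneg (q := r) (m := mm (r * δ)) (ρ := r * δ)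
    (t := 2 * π - (1 + |η| / hst N) * hst N)
  have m9 := jLW_nonneg hr hρ hm ht'.le
  have hLt : Ltp (hst N) (|η| / hst N) = 2 * π - (1 + |η| / hst N) * hst N := rfl
  have hLt0 : 0 < Ltp (hst N) (|η| / hst N) := by rw [hLt]; exact ht'
  have i1 := D.imI0 (μ := 5 / 4) (g := g) (q := q) (by norm_num) hq hLt0
  have i2 := D.imIW (μ := 5 / 4) (g := g) (q := q) (by norm_num) hq hLt0
  obtain ⟨B0, BW, Be, f0', fW'⟩ := B
  rw [← PF_eq hN hr hδ η g q] at i1 i2 B0 BW Be f0' fW'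
  rw [hLt] at i1 i2
  have hP := PF_nonneg r δ η g q
  have hRh : 0 < RR r δ / hst N ^ (2 : ℕ) := by positivity
  have e1 : (hst N * (1 / √(RR r δ))) ^ (2 : ℕ) * (RR r δ / hst N ^ (2 : ℕ)) = 1 := by
    rw [mul_pow, div_pow, hs2]
    field_simp
  have conv : ∀ A V : ℝ, PF r δ η g q * A ≤ (hst N * (1 / √(RR r δ))) ^ (2 : ℕ) * V →
      PF r δ η g q * A * (RR r δ / hst N ^ (2 : ℕ)) ≤ V := by
    intro A V hAV
    have h1 := mul_le_mul_of_nonneg_right hAV hRh.le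
    have h2 : (hst N * (1 / √(RR r δ))) ^ (2 : ℕ) * V * (RR r δ / hst N ^ (2 : ℕ)) = V := by
      calc (hst N * (1 / √(RR r δ))) ^ (2 : ℕ) * V * (RR r δ / hst N ^ (2 : ℕ))
          = (hst N * (1 / √(RR r δ))) ^ (2 : ℕ) * (RR r δ / hst N ^ (2 : ℕ)) * V := by ring
        _ = V := by rw [e1, one_mul]
    linarith
  have c1 := conv _ _ BW
  have c2 := conv _ _ fW'
  have c3 := conv _ _ i2
  refine shfR_of (F0 := F0) (FW := FW) (Fe := Fe) hN hr hδ hA hL hk hq ?_ ?_ ?_ Z ?_ ?_ ?_ X.i0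
    X.i1 X.i2
  · unfold SR0
    positivity
  · unfold SRW
    positivity
  · unfold SRe
    positivity
  · unfold SR0 XS0
    rw [← em] at B0 f0' i1
    linarith only [e0, i1, B0, f0']
  · unfold SRW XSW
    rw [← em] at c1 c2 c3
    have h1 : PF r δ η g q * (bRW r (mm (r * δ)) (r * δ) ((1 + |η| / hst N) * hst N) +
        fRW r (mm (r * δ)) (r * δ) ((1 + |η| / hst N) * hst N) +
        iLW r (mm (r * δ)) (r * δ) (2 * π - (1 + |η| / hst N) * hst N) +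
        jLW r (mm (r * δ)) (r * δ) (2 * π - (1 + |η| / hst N) * hst N) + FW) *
        (RR r δ / hst N ^ (2 : ℕ)) =
        PF r δ η g q * bRW r (mm (r * δ)) (r * δ) ((1 + |η| / hst N) * hst N) *
          (RR r δ / hst N ^ (2 : ℕ)) +
        PF r δ η g q * fRW r (mm (r * δ)) (r * δ) ((1 + |η| / hst N) * hst N) *
          (RR r δ / hst N ^ (2 : ℕ)) +
        PF r δ η g q * (iLW r (mm (r * δ)) (r * δ) (2 * π - (1 + |η| / hst N) * hst N) +
          jLW r (mm (r * δ)) (r * δ) (2 * π - (1 + |η| / hst N) * hst N)) *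
          (RR r δ / hst N ^ (2 : ℕ)) + PF r δ η g q * FW * (RR r δ / hst N ^ (2 : ℕ)) := by ring
    rw [h1]
    linarith
  · unfold SRe XSe
    rw [← em] at Be f0' i1
    have h1 : PF r δ η g q * (bRe r (mm (r * δ)) (r * δ) ((1 + |η| / hst N) * hst N) +
        fR0 r (mm (r * δ)) (r * δ) ((1 + |η| / hst N) * hst N) +
        iL0 r (mm (r * δ)) (r * δ) (2 * π - (1 + |η| / hst N) * hst N) +
        jL0 r (mm (r * δ)) (r * δ) (2 * π - (1 + |η| / hst N) * hst N) + Fe) / Gm N r δ =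
        PF r δ η g q * bRe r (mm (r * δ)) (r * δ) ((1 + |η| / hst N) * hst N) / Gm N r δ +
        (PF r δ η g q * fR0 r (mm (r * δ)) (r * δ) ((1 + |η| / hst N) * hst N) +
        PF r δ η g q * (iL0 r (mm (r * δ)) (r * δ) (2 * π - (1 + |η| / hst N) * hst N) +
          jL0 r (mm (r * δ)) (r * δ) (2 * π - (1 + |η| / hst N) * hst N))) / Gm N r δ +
        PF r δ η g q * Fe / Gm N r δ := by ring
    rw [h1]
    have h2 : PF r δ η g q * bRe r (mm (r * δ)) (r * δ) ((1 + |η| / hst N) * hst N) / Gm N r δ ≤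
        RBE (5 / 4) q g (1 / √(RR r δ)) (r * δ / √(RR r δ)) (hst N) (|η| / hst N) (Gm N r δ) := by
      rw [div_le_iff₀ hΓ, mul_comm (RBE _ _ _ _ _ _ _ _)]
      exact Be
    have h3 : (PF r δ η g q * fR0 r (mm (r * δ)) (r * δ) ((1 + |η| / hst N) * hst N) +
        PF r δ η g q * (iL0 r (mm (r * δ)) (r * δ) (2 * π - (1 + |η| / hst N) * hst N) +
          jL0 r (mm (r * δ)) (r * δ) (2 * π - (1 + |η| / hst N) * hst N))) / Gm N r δ ≤
        (XF0 (5 / 4) q g (1 / √(RR r δ)) (r * δ / √(RR r δ)) (hst N) (|η| / hst N) (Gm N r δ) +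
        (RI0 (5 / 4) q g (1 / √(RR r δ)) (r * δ / √(RR r δ)) (hst N) (|η| / hst N) (Gm N r δ) +
          RJ0 (5 / 4) q g (1 / √(RR r δ)) (r * δ / √(RR r δ)) (hst N) (|η| / hst N)
            (Gm N r δ))) / Gm N r δ :=
      div_le_div_of_nonneg_right (add_le_add f0' i1) hΓ.le
    linarith

end SokamCel

end

/-! ### Lib_MP_af4de1_v3.ShfR1 -/

section
namespace SokamCen
end SokamCen
namespace SokamF1
end SokamF1
namespace SokamF1M
end SokamF1M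
namespace SokamF1S
end SokamF1S
namespace SokamV3
end SokamV3
/-!
# Right side: from the run (`RunP`), the level (`Lev`) and rest + far to `Shf`, REAL `h > 0`
-/

set_option autoImplicit false

namespace SokamV3

/-- `Lev` with the minimum of the two bounds of `D` -/
theorem Lev.qmin {r δ y η g k q : ℝ} (hr : 0 < r) (hδ : 0 < δ) (h : Lev r δ y η g k q) :
    Lev r δ y η g k (min q (1 + k * (|η| / √(RR r δ)))) := by
  refine ⟨h.l0, h.l1, ?_⟩
  rw [min_mul_of_nonneg _ _ (Real.sqrt_nonneg _)]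
  exact le_min h.l2 (h.q1 hr hδ)

end SokamV3

namespace SokamCel

open Real MeasureTheory Set SokamCen SokamV3 SokamF1 SokamF1S SokamF1M

/-- `UB` of `CenUReal` with a real `h` -/
def UBh (h r δ η g q θ : ℝ) (S : Set ℝ) (b0 bW be : ℝ) : Prop :=
  ∃ u0 uW ue : ℝ, 0 ≤ u0 ∧ 0 ≤ uW ∧ 0 ≤ ue ∧
    Zone r (mm (r * δ)) (r * δ) θ 1 S u0 uW ue ∧
    PF r δ η g q * u0 ≤ b0 ∧
    PF r δ η g q * uW * (RR r δ / h ^ (2 : ℕ)) ≤ bW ∧
    PF r δ η g q * ue / (r * h ^ (2 : ℕ) / RR r δ) ≤ be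

theorem UB.toh {N : ℕ} {h r δ η g q θ b0 bW be : ℝ} {S : Set ℝ} (hN : 1 ≤ N) (hr : 0 < r)
    (hh : hst N ≤ h) (U : UB N r δ η g q θ S b0 bW be) : UBh h r δ η g q θ S b0 bW be := by
  obtain ⟨u0, uW, ue, n0, nW, ne, Z, e0, eW, ee⟩ := U
  have h0 := hst_pos1 hN
  have hR : 0 < RR r δ := by unfold RR; positivity
  have hP := PF_nonneg r δ η g q
  refine ⟨u0, uW, ue, n0, nW, ne, Z, e0, le_trans ?_ eW, le_trans ?_ ee⟩
  · refine mul_le_mul_of_nonneg_left ?_ (by positivity)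
    gcongr
  · unfold Gm
    gcongr

theorem shfR_runh {r δ y η g k q h f0 f1 f2 b0 bW be : ℝ} (hh : 0 < h) (hr : 0 < r)
    (hδ : 0 < δ) (hA : At r δ y η) (hη : η ≤ 0) (hp : -π ≤ η - h) (hL : Lev r δ y η g k q)
    (hk : 0 ≤ k) (hq : 0 ≤ q)
    (B : BFr r (r * δ) (√(RR r δ)) g q (|η| / h) (r * h ^ (2 : ℕ) / RR r δ) (5 / 4) (h))
    (U : UBh h r δ η g q (-((1 + |η| / h) * h)) (UsR ((1 + |η| / h) * h)) b0 bW be)
    (X : RunP (5 / 4) q k g (1 / √(RR r δ)) (r * δ / √(RR r δ)) (h) (|η| / h)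
      (r * h ^ (2 : ℕ) / RR r δ) (bet ((1 + |η| / h) * h)) b0 bW be f0 f1 f2) :
    Shf r δ y (-h) ((r * h / √(RR r δ))) f0 f1 f2 := by
  have D := dath hh hr hδ η
  have hs := D.s0
  have hΓ := D.Γ0
  have hρ : 0 < r * δ := mul_pos hr hδ
  have hRR : 0 < RR r δ := by unfold RR; positivity
  have hs2 : √(RR r δ) ^ (2 : ℕ) = RR r δ := Real.sq_sqrt hRR.le
  have ht : 0 < (1 + |η| / h) * h := D.t0
  have hte : (1 + |η| / h) * h = |η| + h := by
    field_simp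
    ring
  have htp : (1 + |η| / h) * h ≤ π := by
    rw [hte, abs_of_nonpos hη]
    linarith
  have hθ : η + -h = -((1 + |η| / h) * h) := by
    rw [hte, abs_of_nonpos hη]
    ring
  have em : mm (r * δ) = 5 / 4 * √(RR r δ) := rfl
  obtain ⟨F0, FW, Fe, n0, nW, ne, ZF, e0, eW, ee⟩ := U
  have hsqρ : r * δ ≤ √(RR r δ) := by
    refine Real.le_sqrt_of_sq_le ?_
    unfold RR
    linarith
  have hsq1 : 1 ≤ √(RR r δ) := by
    refine Real.le_sqrt_of_sq_le ?_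
    unfold RR
    nlinarith only []
  have hm : r * δ ≤ mm (r * δ) := by
    rw [em]
    linarith
  have hm1 : 5 / 4 ≤ mm (r * δ) := by
    rw [em]
    linarith
  have hy : y ≤ 0 := y_nonpos hA hη
  have hκ : 0 ≤ k * (|η| / √(RR r δ)) := by positivity
  have hw := w_sub hr hL
  rw [sK_ww hA.dom, mul_div_assoc] at hw
  have hc : 0 ≤ -y := by linarith
  have hd : sP (r * δ) y ≤ 0 := sP_nonpos hρ hy
  have hd2 : -(π / 2) ≤ sP (r * δ) y := (abs_le.1 (sP_abs_le (r * δ) y)).1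
  have Z := zoneR hr hρ hm hm1 ht htp hc hd hd2 hκ hw n0 nW ne ZF
  rw [← sK_ww hA.dom, ← hθ] at Z
  have ht' : 0 < 2 * π - (1 + |η| / h) * h := by linarith [pi_pos]
  have m1 := bR0_nonneg hr hρ hm ht
  have m2 := bRW_nonneg hr hρ hm ht
  have m3 := bRe_nonneg hr hρ hm ht
  have m4 := fR0_nonneg (t := (1 + |η| / h) * h) hr hρ hm
  have m5 := fRW_nonneg hr hρ hm ht
  have m6 := iL0_nonneg (q := r) hρ hm ht'
  have m7 := iLW_nonneg hr hρ hm ht'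
  have m8 := jL0_nonneg (q := r) (m := mm (r * δ)) (ρ := r * δ)
    (t := 2 * π - (1 + |η| / h) * h)
  have m9 := jLW_nonneg hr hρ hm ht'.le
  have hLt : Ltp (h) (|η| / h) = 2 * π - (1 + |η| / h) * h := rfl
  have hLt0 : 0 < Ltp (h) (|η| / h) := by rw [hLt]; exact ht'
  have i1 := D.imI0 (μ := 5 / 4) (g := g) (q := q) (by norm_num) hq hLt0
  have i2 := D.imIW (μ := 5 / 4) (g := g) (q := q) (by norm_num) hq hLt0
  obtain ⟨B0, BW, Be, f0', fW'⟩ := B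
  rw [← PF_eqh hh hr hδ η g q] at i1 i2 B0 BW Be f0' fW'
  rw [hLt] at i1 i2
  have hP := PF_nonneg r δ η g q
  have hRh : 0 < RR r δ / h ^ (2 : ℕ) := by positivity
  have e1 : (h * (1 / √(RR r δ))) ^ (2 : ℕ) * (RR r δ / h ^ (2 : ℕ)) = 1 := by
    rw [mul_pow, div_pow, hs2]
    field_simp
  have conv : ∀ A V : ℝ, PF r δ η g q * A ≤ (h * (1 / √(RR r δ))) ^ (2 : ℕ) * V →
      PF r δ η g q * A * (RR r δ / h ^ (2 : ℕ)) ≤ V := by
    intro A V hAV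
    have h1 := mul_le_mul_of_nonneg_right hAV hRh.le
    have h2 : (h * (1 / √(RR r δ))) ^ (2 : ℕ) * V * (RR r δ / h ^ (2 : ℕ)) = V := by
      calc (h * (1 / √(RR r δ))) ^ (2 : ℕ) * V * (RR r δ / h ^ (2 : ℕ))
          = (h * (1 / √(RR r δ))) ^ (2 : ℕ) * (RR r δ / h ^ (2 : ℕ)) * V := by ring
        _ = V := by rw [e1, one_mul]
    linarith
  have c1 := conv _ _ BW
  have c2 := conv _ _ fW'
  have c3 := conv _ _ i2
  refine shfR_ofh (F0 := F0) (FW := FW) (Fe := Fe) hh hr hδ hA hL hk hq ?_ ?_ ?_ Z ?_ ?_ ?_ X.i0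
    X.i1 X.i2
  · unfold SR0
    positivity
  · unfold SRW
    positivity
  · unfold SRe
    positivity
  · unfold SR0 XS0
    rw [← em] at B0 f0' i1
    linarith only [e0, i1, B0, f0']
  · unfold SRW XSW
    rw [← em] at c1 c2 c3
    have h1 : PF r δ η g q * (bRW r (mm (r * δ)) (r * δ) ((1 + |η| / h) * h) +
        fRW r (mm (r * δ)) (r * δ) ((1 + |η| / h) * h) +
        iLW r (mm (r * δ)) (r * δ) (2 * π - (1 + |η| / h) * h) +
        jLW r (mm (r * δ)) (r * δ) (2 * π - (1 + |η| / h) * h) + FW) *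
        (RR r δ / h ^ (2 : ℕ)) =
        PF r δ η g q * bRW r (mm (r * δ)) (r * δ) ((1 + |η| / h) * h) *
          (RR r δ / h ^ (2 : ℕ)) +
        PF r δ η g q * fRW r (mm (r * δ)) (r * δ) ((1 + |η| / h) * h) *
          (RR r δ / h ^ (2 : ℕ)) +
        PF r δ η g q * (iLW r (mm (r * δ)) (r * δ) (2 * π - (1 + |η| / h) * h) +
          jLW r (mm (r * δ)) (r * δ) (2 * π - (1 + |η| / h) * h)) *
          (RR r δ / h ^ (2 : ℕ)) + PF r δ η g q * FW * (RR r δ / h ^ (2 : ℕ)) := by ring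
    rw [h1]
    linarith
  · unfold SRe XSe
    rw [← em] at Be f0' i1
    have h1 : PF r δ η g q * (bRe r (mm (r * δ)) (r * δ) ((1 + |η| / h) * h) +
        fR0 r (mm (r * δ)) (r * δ) ((1 + |η| / h) * h) +
        iL0 r (mm (r * δ)) (r * δ) (2 * π - (1 + |η| / h) * h) +
        jL0 r (mm (r * δ)) (r * δ) (2 * π - (1 + |η| / h) * h) + Fe) / (r * h ^ (2 : ℕ) / RR r δ) =
        PF r δ η g q * bRe r (mm (r * δ)) (r * δ) ((1 + |η| / h) * h) / (r * h ^ (2 : ℕ) / RR r δ) +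
        (PF r δ η g q * fR0 r (mm (r * δ)) (r * δ) ((1 + |η| / h) * h) +
        PF r δ η g q * (iL0 r (mm (r * δ)) (r * δ) (2 * π - (1 + |η| / h) * h) +
          jL0 r (mm (r * δ)) (r * δ) (2 * π - (1 + |η| / h) * h))) / (r * h ^ (2 : ℕ) / RR r δ) +
        PF r δ η g q * Fe / (r * h ^ (2 : ℕ) / RR r δ) := by ring
    rw [h1]
    have h2 : PF r δ η g q * bRe r (mm (r * δ)) (r * δ) ((1 + |η| / h) * h) / (r * h ^ (2 : ℕ) / RR r δ) ≤
        RBE (5 / 4) q g (1 / √(RR r δ)) (r * δ / √(RR r δ)) (h) (|η| / h) (r * h ^ (2 : ℕ) / RR r δ) := by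
      rw [div_le_iff₀ hΓ, mul_comm (RBE _ _ _ _ _ _ _ _)]
      exact Be
    have h3 : (PF r δ η g q * fR0 r (mm (r * δ)) (r * δ) ((1 + |η| / h) * h) +
        PF r δ η g q * (iL0 r (mm (r * δ)) (r * δ) (2 * π - (1 + |η| / h) * h) +
          jL0 r (mm (r * δ)) (r * δ) (2 * π - (1 + |η| / h) * h))) / (r * h ^ (2 : ℕ) / RR r δ) ≤
        (XF0 (5 / 4) q g (1 / √(RR r δ)) (r * δ / √(RR r δ)) (h) (|η| / h) (r * h ^ (2 : ℕ) / RR r δ) +
        (RI0 (5 / 4) q g (1 / √(RR r δ)) (r * δ / √(RR r δ)) (h) (|η| / h) (r * h ^ (2 : ℕ) / RR r δ) +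
          RJ0 (5 / 4) q g (1 / √(RR r δ)) (r * δ / √(RR r δ)) (h) (|η| / h)
            (r * h ^ (2 : ℕ) / RR r δ))) / (r * h ^ (2 : ℕ) / RR r δ) :=
      div_le_div_of_nonneg_right (add_le_add f0' i1) hΓ.le
    linarith

end SokamCel

end

/-! ### Lib_MP_af4de1_v3.ShfR2 -/

section
namespace SokamCen
end SokamCen
namespace SokamF1
end SokamF1
namespace SokamF1M
end SokamF1M
namespace SokamF1S
end SokamF1S
namespace SokamFN
end SokamFN
namespace SokamV3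
end SokamV3
/-!
# Right side: the fields `a`, `a'`, `b`, `c` from the runs

`RunOK q k g τ0 τ1 G0 Hc b0 bW be f0 f1 f2`: what a run proves for all points of regime I.
`BFrAll`: the bridge of behind and front.
-/

set_option autoImplicit false

namespace SokamCel

open Real MeasureTheory Set SokamCen SokamV3 SokamF1 SokamF1S SokamF1M SokamFN

/-- the bridge of behind and front -/
def BFrAll : Prop := ∀ r ρ s g q τ Γ μ h : ℝ, Dat r ρ s h τ Γ → 1 ≤ μ → 0 ≤ q →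
  BFr r ρ s g q τ Γ μ h

/-- the statement of a run -/
def RunOK (q k g τ0 τ1 G0 Hc b0 bW be f0 f1 f2 : ℝ) : Prop :=
  ∀ (N : ℕ) (r δ η c ν h τ Γ : ℝ), Scl N r δ η c ν h τ Γ → (1 + τ) * h ≤ π → τ0 ≤ τ → τ ≤ τ1 →
    G0 ≤ Γ → (h * c) ^ (2 : ℕ) ≤ Hc →
    RunP (5 / 4) (min q (1 + k * τ * (h * c))) k g c ν h τ Γ (bet ((1 + τ) * h)) b0 bW be f0 f1 f2

/-- `RunOK` from a run of `CelRun` -/
theorem runOK_of {K : RnD} {q k g τ0 τ1 G0 Hc b0 bW be f0 f1 f2 : ℝ}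
    (hP : K.P.Ok (5 / 4) q g k) {wx wy wz n wx' wy' wz' n' y1 z0 z1 : ℕ}
    {lc ln : List ℕ} (hC : ChB (okC K) wx wy wz n 0 y1 z0 z1 0 lc)
    (hN : ChB (okN K) wx' wy' wz' n' 0 y1 z0 z1 0 ln)
    (ec : 7 / 10 ≤ fx (lc.getLastD 0)) (en : 18 / 25 ≤ fx (ln.getLastD 0))
    (ey : 2 * π / 3 ≤ fx y1) (L : K.Le b0 bW be f0 f1 f2) (hG : fx K.G0 ≤ G0) (hH : Hc ≤ fx K.H)
    (h0 : fx z0 ≤ τ0) (h1 : τ1 ≤ fx z1) : RunOK q k g τ0 τ1 G0 Hc b0 bW be f0 f1 f2 :=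
  fun _ _ _ _ _ _ _ _ _ s tp t0 t1 g0 hc =>
    run_sound hP hC hN ec en ey L (s.dmR tp (hc.trans hH) (hG.trans g0)) s.h1 (h0.trans t0)
      (t1.trans h1)

/-- two ranges of `τ` -/
theorem RunOK.glue {q k g τ0 τ1 τ2 G0 Hc b0 bW be f0 f1 f2 : ℝ}
    (h1 : RunOK q k g τ0 τ1 G0 Hc b0 bW be f0 f1 f2)
    (h2 : RunOK q k g τ1 τ2 G0 Hc b0 bW be f0 f1 f2) :
    RunOK q k g τ0 τ2 G0 Hc b0 bW be f0 f1 f2 := by
  intro N r δ η c ν h τ Γ s tp t0 t1 g0 hc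
  rcases le_total τ τ1 with h | h
  · exact h1 N r δ η c ν _ τ Γ s tp t0 h g0 hc
  · exact h2 N r δ η c ν _ τ Γ s tp h t1 g0 hc

/-- ALL FIELDS with `ζ = -h`: one point. -/
theorem shfR_pt {N : ℕ} {r δ y η g k q τ0 τ1 G0 Hc f0 f1 f2 b0 bW be : ℝ} (hB : BFrAll)
    (X : RunOK q k g τ0 τ1 G0 Hc b0 bW be f0 f1 f2) (hR : Reg1 N r δ) (hA : At r δ y η)
    (hη : η ≤ 0) (hp : -π ≤ η - hst N) (hL : Lev r δ y η g k q) (hk : 0 ≤ k) (hq : 0 ≤ q)
    (h0 : τ0 * hst N ≤ |η|) (h1 : |η| ≤ τ1 * hst N) (hG : G0 ≤ Gm N r δ)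
    (hc : hst N ^ (2 : ℕ) / RR r δ ≤ Hc)
    (U : ∀ q', 0 ≤ q' → q' ≤ q → UB N r δ η g q' (-(|η| + hst N)) (UsR (|η| + hst N)) b0 bW be) :
    Shf r δ y (-hst N) (HH N r δ) f0 f1 f2 := by
  have hN : 1 ≤ N := by
    have := hR.N3
    omega
  have hr : 0 < r := by linarith only [hR.r0]
  have hδ := hR.d0
  have hh := hst_pos1 hN
  have hRR : 0 < RR r δ := by unfold RR; (clear * - hr hδ; positivity)
  have hs := scl hR η
  have hte : (1 + |η| / hst N) * hst N = |η| + hst N := by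
    field_simp
    ring
  have htp : (1 + |η| / hst N) * hst N ≤ π := by
    rw [hte, abs_of_nonpos hη]
    linarith only [hp]
  have hcc : (hst N * (1 / √(RR r δ))) ^ (2 : ℕ) = hst N ^ (2 : ℕ) / RR r δ := by
    rw [mul_pow, div_pow, Real.sq_sqrt hRR.le]
    ring
  have R := X N r δ η _ _ _ _ _ hs htp (hs.le_tau h0) (hs.tau_le h1) hG (by rw [hcc]; exact hc)
  have e1 : 1 + k * (|η| / hst N) * (hst N * (1 / √(RR r δ))) = 1 + k * (|η| / √(RR r δ)) := by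
    field_simp
  rw [e1] at R
  have hL' := hL.qmin hr hδ
  have hq' : 0 ≤ min q (1 + k * (|η| / √(RR r δ))) := le_min hq (by (clear * - hk hRR; positivity))
  have hU := U _ hq' (min_le_left _ _)
  rw [← hte] at hU
  exact shfR_run0 hR hA hη hp hL' hk hq'
    (hB _ _ _ _ _ _ _ _ _ (dat hN hr hδ η) (by norm_num) hq') hU R

private theorem h2_of_G {N : ℕ} {r δ G : ℝ} (hR : Reg1 N r δ) (hG : Gm N r δ ≤ G) :
    hst N ^ (2 : ℕ) / RR r δ ≤ G / (499 / 10) := by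
  have hr := hR.r0
  have hRR : 0 < RR r δ := by unfold RR; (clear * -; positivity)
  have h1 : 499 / 10 * (hst N ^ (2 : ℕ) / RR r δ) ≤ Gm N r δ := by
    unfold Gm
    rw [mul_div_assoc]
    exact mul_le_mul_of_nonneg_right hr (by (clear * - hRR; positivity))
  rw [le_div_iff₀ (by norm_num)]
  linarith only [hG, h1]

/-- field `a` -/
theorem shfR_a_of (hB : BFrAll)
    (X : RunOK (27 / 20) (6 / 5) (6 / 5) 0 (1 / 4) (27 / 5) (100 / 499) (1 / 300000) (1 / 9000)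
      (1 / 700000) (1 / 5) (1 / 5) 1) :
    ∀ (N : ℕ) (r δ y η : ℝ), Reg1 N r δ → At r δ y η → Sad1 N r δ y → Gm N r δ < 10 →
    η ≤ 0 → -ei1 N r δ ≤ η → -Real.pi ≤ η - hst N →
    Shf r δ y (-hst N) (HH N r δ) (1 / 5) (1 / 5) 1 := by
  intro N r δ y η hR hA _ hG hη h1 hp
  have e1 : ei1 N r δ = 1 / 4 * hst N := by
    unfold ei1 om1
    rw [if_pos hG]
    norm_num
  have e2 : eo1 N r δ = 3 / 4 * hst N := by
    unfold eo1 om1
    rw [if_pos hG]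
    norm_num
  have hh := hst_pos3 hR.N3
  have ha : |η| = -η := abs_of_nonpos hη
  have hL := levR_A hR hA hη (by rw [e2]; rw [e1] at h1; linarith only [hη, h1]) hG
  refine shfR_pt hB X hR hA hη hp hL (by norm_num) (by norm_num) (by rw [ha]; linarith only [hη])
    (by rw [ha]; linarith only [h1, e1]) hR.G ((h2_of_G hR hG.le).trans (by norm_num)) fun q' h2 h3 => ?_
  refine uR_A hR hG.le (by rw [ha]; rw [e1] at h1; linarith only [hη, h1]) le_rfl h2 (h3.trans (by norm_num))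
    le_rfl (by rw [ha]; linarith only [hp])

/-- field `b` -/
theorem shfR_b_of (hB : BFrAll)
    (X : RunOK (27 / 20) (6 / 5) (6 / 5) (1 / 4) (3 / 4) (27 / 5) (100 / 499) (1 / 300000)
      (1 / 9000) (1 / 700000) (3 / 50) (7 / 100) (3 / 20)) :
    ∀ (N : ℕ) (r δ y η : ℝ), Reg1 N r δ → At r δ y η → Sad1 N r δ y → Gm N r δ < 10 →
    η ≤ -ei1 N r δ → -eo1 N r δ ≤ η → -Real.pi ≤ η - hst N →
    Shf r δ y (-hst N) (HH N r δ) (3 / 50) (7 / 100) (3 / 20) := by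
  intro N r δ y η hR hA _ hG h1 h2 hp
  have e1 : ei1 N r δ = 1 / 4 * hst N := by
    unfold ei1 om1
    rw [if_pos hG]
    norm_num
  have e2 : eo1 N r δ = 3 / 4 * hst N := by
    unfold eo1 om1
    rw [if_pos hG]
    norm_num
  have hh := hst_pos3 hR.N3
  have hη : η ≤ 0 := by linarith only [h1, e1, hh]
  have ha : |η| = -η := abs_of_nonpos hη
  have hL := levR_A hR hA hη h2 hG
  refine shfR_pt hB X hR hA hη hp hL (by norm_num) (by norm_num) (by rw [ha]; linarith only [h1, e1])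
    (by rw [ha]; linarith only [h2, e2]) hR.G ((h2_of_G hR hG.le).trans (by norm_num)) fun q' h3 h4 => ?_
  refine uR_A hR hG.le (by rw [ha]; linarith only [h2, e2]) le_rfl h3 (h4.trans (by norm_num))
    le_rfl (by rw [ha]; linarith only [hp])

/-- field `a'` -/
theorem shfR_a'_of (hB : BFrAll)
    (XB : RunOK (71 / 50) (13 / 10) (13 / 10) 0 (7 / 20) 10 (200 / 499) (1 / 250000) (1 / 4700)
      (1 / 700000) (3 / 50) (3 / 50) 1)
    (XC : RunOK (33 / 20) (17 / 10) (17 / 10) 0 (2 / 5) 20 (11 / 10) (7 / 1000000) (7 / 100000)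
      (2 / 1000000) (3 / 50) (3 / 50) 1) :
    ∀ (N : ℕ) (r δ y η : ℝ), Reg1 N r δ → At r δ y η → Sad1 N r δ y → 10 ≤ Gm N r δ →
    η ≤ 0 → -ei1 N r δ ≤ η → -Real.pi ≤ η - hst N →
    Shf r δ y (-hst N) (HH N r δ) (3 / 50) (3 / 50) 1 := by
  intro N r δ y η hR hA _ hG hη h1 hp
  have hh := hst_pos3 hR.N3
  have ha : |η| = -η := abs_of_nonpos hη
  rcases lt_or_ge (Gm N r δ) 20 with hG2 | hG2
  · have e1 : ei1 N r δ = 7 / 20 * hst N := by
      unfold ei1 om1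
      rw [if_neg (not_lt.2 hG), if_pos hG2]
      norm_num
    have e2 : eo1 N r δ = 13 / 20 * hst N := by
      unfold eo1 om1
      rw [if_neg (not_lt.2 hG), if_pos hG2]
      norm_num
    have hL := levR_B hR hA hη (by rw [e2]; rw [e1] at h1; linarith only [hη, h1]) hG hG2
    refine shfR_pt hB XB hR hA hη hp hL (by norm_num) (by norm_num) (by rw [ha]; linarith only [hη])
      (by rw [ha]; linarith only [h1, e1]) hG ((h2_of_G hR hG2.le).trans (by norm_num)) fun q' h3 h4 => ?_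
    refine uR_B hR hG hG2.le (by rw [ha]; rw [e1] at h1; linarith only [hη, h1]) le_rfl h3
      (h4.trans (by norm_num)) le_rfl (by rw [ha]; linarith only [hp])
  · have e1 : ei1 N r δ = 2 / 5 * hst N := by
      unfold ei1 om1
      rw [if_neg (not_lt.2 hG), if_neg (not_lt.2 hG2)]
      norm_num
    have e2 : eo1 N r δ = 3 / 5 * hst N := by
      unfold eo1 om1
      rw [if_neg (not_lt.2 hG), if_neg (not_lt.2 hG2)]
      norm_num
    have hRR : 0 < RR r δ := by unfold RR; (clear * -; positivity)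
    have hY : hst N ^ (2 : ℕ) / RR r δ ≤ 11 / 10 := by
      rw [div_le_iff₀ hRR]
      exact hR.I
    have hL := levR_C hR hA hη (by rw [e2]; rw [e1] at h1; linarith only [hη, h1]) hG2
    refine shfR_pt hB XC hR hA hη hp hL (by norm_num) (by norm_num) (by rw [ha]; linarith only [hη])
      (by rw [ha]; linarith only [h1, e1]) hG2 hY fun q' h3 h4 => ?_
    refine uR_Ci hR hG2 (by rw [ha]; rw [e1] at h1; linarith only [h1]) (by norm_num) le_rfl h3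
      h4 le_rfl (by rw [ha]; linarith only [hp])

/-- field `c` -/
theorem shfR_c_of (hB : BFrAll)
    (XB : RunOK (71 / 50) (13 / 10) (13 / 10) (7 / 20) (13 / 20) 10 (200 / 499) (1 / 250000)
      (1 / 4700) (1 / 700000) (1 / 100) (1 / 100) (1 / 100))
    (XC1 : RunOK (33 / 20) (17 / 10) (17 / 10) (2 / 5) (3 / 5) 20 (37 / 50) (17 / 100000)
      (32 / 10000) (3 / 100000) (1 / 100) (1 / 100) (1 / 100))
    (XC2 : RunOK (33 / 20) (17 / 10) (17 / 10) (2 / 5) (3 / 5) (18463 / 500) (11 / 10)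
      (151 / 500000) (38 / 10000) (6 / 100000) (1 / 100) (1 / 100) (1 / 100)) :
    ∀ (N : ℕ) (r δ y η : ℝ), Reg1 N r δ → At r δ y η → Sad1 N r δ y → 10 ≤ Gm N r δ →
    η ≤ -ei1 N r δ → -eo1 N r δ ≤ η → -Real.pi ≤ η - hst N →
    Shf r δ y (-hst N) (HH N r δ) (1 / 100) (1 / 100) (1 / 100) := by
  intro N r δ y η hR hA _ hG h1 h2 hp
  have hh := hst_pos3 hR.N3
  rcases lt_or_ge (Gm N r δ) 20 with hG2 | hG2
  · have e1 : ei1 N r δ = 7 / 20 * hst N := by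
      unfold ei1 om1
      rw [if_neg (not_lt.2 hG), if_pos hG2]
      norm_num
    have e2 : eo1 N r δ = 13 / 20 * hst N := by
      unfold eo1 om1
      rw [if_neg (not_lt.2 hG), if_pos hG2]
      norm_num
    have hη : η ≤ 0 := by linarith only [h1, hh, e1]
    have ha : |η| = -η := abs_of_nonpos hη
    have hL := levR_B hR hA hη h2 hG hG2
    refine shfR_pt hB XB hR hA hη hp hL (by norm_num) (by norm_num) (by rw [ha]; linarith only [h1, e1])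
      (by rw [ha]; linarith only [h2, e2]) hG ((h2_of_G hR hG2.le).trans (by norm_num)) fun q' h3 h4 => ?_
    refine uR_B hR hG hG2.le (by rw [ha]; linarith only [h2, e2]) le_rfl h3
      (h4.trans (by norm_num)) le_rfl (by rw [ha]; linarith only [hp])
  · have e1 : ei1 N r δ = 2 / 5 * hst N := by
      unfold ei1 om1
      rw [if_neg (not_lt.2 hG), if_neg (not_lt.2 hG2)]
      norm_num
    have e2 : eo1 N r δ = 3 / 5 * hst N := by
      unfold eo1 om1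
      rw [if_neg (not_lt.2 hG), if_neg (not_lt.2 hG2)]
      norm_num
    have hη : η ≤ 0 := by linarith only [h1, hh, e1]
    have ha : |η| = -η := abs_of_nonpos hη
    have hRR : 0 < RR r δ := by unfold RR; (clear * -; positivity)
    have hY : hst N ^ (2 : ℕ) / RR r δ ≤ 11 / 10 := by
      rw [div_le_iff₀ hRR]
      exact hR.I
    have hL := levR_C hR hA hη h2 hG2
    rcases le_total (hst N ^ (2 : ℕ) / RR r δ) (37 / 50) with hY2 | hY2
    · refine shfR_pt hB XC1 hR hA hη hp hL (by norm_num) (by norm_num) (by rw [ha]; linarith only [h1, e1])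
        (by rw [ha]; linarith only [h2, e2]) hG2 hY2 fun q' h3 h4 => ?_
      exact uR_C1 hR hG2 (by rw [ha]; linarith only [h2, e2]) (by norm_num) le_rfl h3
        h4 le_rfl (by rw [ha]; linarith only [hp]) hY2
    · have hG3 : 18463 / 500 ≤ Gm N r δ := by
        have h3 : 499 / 10 * (hst N ^ (2 : ℕ) / RR r δ) ≤ Gm N r δ := by
          unfold Gm
          rw [mul_div_assoc]
          exact mul_le_mul_of_nonneg_right hR.r0 (by (clear * - hh hRR; positivity))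
        linarith only [hY2, h3]
      refine shfR_pt hB XC2 hR hA hη hp hL (by norm_num) (by norm_num) (by rw [ha]; linarith only [h1, e1])
        (by rw [ha]; linarith only [h2, e2]) hG3 hY fun q' h3 h4 => ?_
      exact uR_Cw hR hG2 (by rw [ha]; linarith only [h1, e1]) (by rw [ha]; linarith only [h2, e2]) (by norm_num) le_rfl h3
        h4 le_rfl (by rw [ha]; linarith only [hp]) hY2

end SokamCel

end

/-! ### Lib_MP_af4de1_v3.BrRb -/

section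
namespace SokamCen
end SokamCen
/-!
# BRIDGE, right side, behind: `bR0 bRW bRe` of `CenTR` against `RB0 RBW RBE` of `CelRB`

`PS bR0 = RB0`, `PS bRW = (h c)² RBW`, `PS bRe = Γ RBE`.
-/

set_option autoImplicit false

namespace SokamCel

open Real SokamCen

theorem Rβ_pos (μ c h τ : ℝ) : 0 < Rβ μ c h τ := by
  unfold Rβ
  positivity

section

variable {r ρ s h τ Γ : ℝ} (D : Dat r ρ s h τ Γ)

include D

/-- the curvature -/
theorem Dat.c2Be {μ : ℝ} (hμ : 0 < μ) :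
    c2B r (μ * s) ((1 + τ) * h) = r * Rβ μ (1 / s) h τ := by
  unfold c2B Rβ
  rw [D.cTe hμ]
  rfl

/-- the weight arguments -/
theorem Dat.cTy {μ : ℝ} (hμ : 0 < μ) :
    cT (μ * s) ((1 + τ) * h + 6 / 5) = min 1 (Ry μ (1 / s) h τ) := by
  have := D.s0
  unfold cT Ry
  congr 1
  field_simp

/-- `b = X √B` -/
theorem Dat.c2be {μ : ℝ} (hμ : 1 ≤ μ) :
    c2b r (μ * s) ρ ((1 + τ) * h) =
      RbX μ (1 / s) (ρ / s) h τ Γ * √(r * Rβ μ (1 / s) h τ) := by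
  have hμ0 : 0 < μ := by linarith
  have h1 := D.ρ0
  have h2 := D.s0
  have h3 := D.h0
  have h4 := D.r0
  have h5 := D.Γ0
  have hβ := Rβ_pos μ (1 / s) h τ
  unfold c2b RbX
  rw [AR_eq D.ρ0 D.s0 hμ0 D.t0, ← D.Te hμ0]
  have e0 : Rx μ (1 / s) h τ = (1 + τ) * h * (1 / s) / μ := rfl
  rw [e0]
  set A := Ra μ (ρ / s) ((1 + τ) * h * (1 / s) / μ) with hA
  set β := Rβ μ (1 / s) h τ with hβd
  have e1 : √Γ = √r * (h / s) := by
    rw [D.G]
    have e2 : r * h ^ (2 : ℕ) / s ^ (2 : ℕ) = r * (h / s) ^ (2 : ℕ) := by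
      field_simp
    rw [e2, Real.sqrt_mul h4.le, Real.sqrt_sq (by positivity)]
  have e3 : √(r * β) = √r * √β := Real.sqrt_mul h4.le _
  have e4 : √r ^ (2 : ℕ) = r := Real.sq_sqrt h4.le
  have e5 : 0 < √β := Real.sqrt_pos.2 hβ
  have e6 : 0 < √r := Real.sqrt_pos.2 h4
  rw [e1, e3]
  have e7 : r = √r * √r := by
    rw [← pow_two]
    exact e4.symm
  calc r * (A * (1 / s) ^ (2 : ℕ) / (ρ / s) * ((1 + τ) * h))
      = √r * √r * (A * (1 / s) ^ (2 : ℕ) / (ρ / s) * ((1 + τ) * h)) := by rw [← e7]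
    _ = _ := by
        field_simp

/-- prefactor, exponent and the half Gaussian -/
theorem Dat.PbK {μ g q : ℝ} (hμ : 1 ≤ μ) (hq : 0 ≤ q) :
    PS r ρ s g q τ Γ μ * (c2E r (μ * s) ρ ((1 + τ) * h) *
      (√(π / (r * Rβ μ (1 / s) h τ)) / 2)) = RBK μ q g (1 / s) (ρ / s) h τ Γ := by
  have hμ0 : 0 < μ := by linarith
  have h1 := D.ρ0
  have h2 := D.s0
  have h3 := D.h0
  have hν := D.ν0
  have hβ := Rβ_pos μ (1 / s) h τ
  have e := D.PQ (μ := μ) (g := g) (q := q) hμ (mul_pos hν hβ) hq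
  have e1 : ρ / s * Rβ μ (1 / s) h τ / (ρ / s) = Rβ μ (1 / s) h τ := by
    field_simp
  rw [e1] at e
  have e2 : exp (g / 2 * (Γ * τ ^ (2 : ℕ))) * c2E r (μ * s) ρ ((1 + τ) * h) =
      exp (-(Γ * ((1 + τ) ^ (2 : ℕ) * (Ra μ (ρ / s) (Rx μ (1 / s) h τ) / (ρ / s)) - g / 2 * τ ^ (2 : ℕ)))) := by
    unfold c2E
    rw [← Real.exp_add, AR_eq D.ρ0 D.s0 hμ0 D.t0, ← D.Te hμ0, D.G]
    have e0 : Rx μ (1 / s) h τ = (1 + τ) * h * (1 / s) / μ := rfl
    rw [e0]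
    congr 1
    field_simp
    ring
  unfold RBK
  rw [← e2]
  calc _ = (PS r ρ s g q τ Γ μ * √(π / (r * Rβ μ (1 / s) h τ))) *
        (c2E r (μ * s) ρ ((1 + τ) * h) / 2) := by ring
    _ = _ := by
        rw [e]
        ring

/-- `h0` -/
theorem Dat.bh0 {μ : ℝ} (hμ : 1 ≤ μ) :
    SokamCen.h0 (c2b r (μ * s) ρ ((1 + τ) * h)) (c2B r (μ * s) ((1 + τ) * h)) =
      √(π / (r * Rβ μ (1 / s) h τ)) / 2 * Rφ (RbX μ (1 / s) (ρ / s) h τ Γ) := by
  have hμ0 : 0 < μ := by linarith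
  have h4 := D.r0
  have hβ := Rβ_pos μ (1 / s) h τ
  have hpi := Real.pi_pos
  rw [D.c2Be hμ0, D.c2be hμ]
  unfold SokamCen.h0 Rφ
  have hB : 0 < r * Rβ μ (1 / s) h τ := mul_pos h4 hβ
  set B := r * Rβ μ (1 / s) h τ with hBd
  set X := RbX μ (1 / s) (ρ / s) h τ Γ with hX
  have hSB : 0 < √B := Real.sqrt_pos.2 hB
  have hSp : 0 < √π := Real.sqrt_pos.2 hpi
  have e1 : √(π / B) = √π / √B := Real.sqrt_div hpi.le _
  have e2 : √(1 / π) = 1 / √π := by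
    rw [Real.sqrt_div zero_le_one, Real.sqrt_one]
  have e3 : √B ^ (2 : ℕ) = B := Real.sq_sqrt hB.le
  have e4 : √π ^ (2 : ℕ) = π := Real.sq_sqrt hpi.le
  rw [e1, e2, mul_min_of_nonneg _ _ (by positivity), mul_one]
  congr 1
  have e5 : X * √B / (2 * B) = X / (2 * √B) := by
    rw [div_eq_div_iff (by positivity) (by positivity)]
    linear_combination (2 * X) * e3
  have e6 : (X * √B) ^ (2 : ℕ) * (√π / √B) / (8 * B) = X ^ (2 : ℕ) * (√π / √B) / 8 := by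
    rw [mul_pow, e3]
    field_simp
  rw [e5, e6]
  field_simp
  ring

/-- `P I0` -/
theorem Dat.bb0 {μ g q : ℝ} (hμ : 1 ≤ μ) (hq : 0 ≤ q) :
    PS r ρ s g q τ Γ μ * bR0 r (μ * s) ρ ((1 + τ) * h) = RB0 μ q g (1 / s) (ρ / s) h τ Γ := by
  have e := D.PbK (g := g) (q := q) hμ hq
  unfold bR0 RB0
  rw [D.bh0 hμ, ← e]
  ring

/-- `P Ie` -/
theorem Dat.bbe {μ g q : ℝ} (hμ : 1 ≤ μ) (hq : 0 ≤ q) :
    PS r ρ s g q τ Γ μ * bRe r (μ * s) ρ ((1 + τ) * h) = Γ * RBE μ q g (1 / s) (ρ / s) h τ Γ := by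
  have hμ0 : 0 < μ := by linarith
  have e := D.bb0 (g := g) (q := q) hμ hq
  have h5 := D.Γ0
  unfold bRe RBE
  rw [D.cTy hμ0, ← e]
  field_simp

/-- `P IW` -/
theorem Dat.bbW {μ g q : ℝ} (hμ : 1 ≤ μ) (hq : 0 ≤ q) :
    PS r ρ s g q τ Γ μ * bRW r (μ * s) ρ ((1 + τ) * h) =
      (h * (1 / s)) ^ (2 : ℕ) * RBW μ q g (1 / s) (ρ / s) h τ Γ := by
  have hμ0 : 0 < μ := by linarith
  have h1 := D.ρ0
  have h2 := D.s0
  have h3 := D.h0
  have h4 := D.r0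
  have h5 := D.Γ0
  have hβ := Rβ_pos μ (1 / s) h τ
  have hpi := Real.pi_pos
  have e0 := D.bb0 (g := g) (q := q) hμ hq
  have eK := D.PbK (g := g) (q := q) hμ hq
  unfold bRW RBW RBR
  rw [D.cTy hμ0]
  have hR1 : SokamCen.eS (min 1 (Ry μ (1 / s) h τ)) = Re1 (Ry μ (1 / s) h τ) := rfl
  rw [hR1, ← e0, ← eK]
  unfold bR0
  rw [D.c2Be hμ0]
  set β := Rβ μ (1 / s) h τ with hβd
  set e1 := Re1 (Ry μ (1 / s) h τ) with he1
  set P := PS r ρ s g q τ Γ μ with hP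
  set E := c2E r (μ * s) ρ ((1 + τ) * h) with hE
  set H := SokamCen.h0 (c2b r (μ * s) ρ ((1 + τ) * h)) (r * β) with hH
  set U := exp (min 1 (Ry μ (1 / s) h τ)) with hU
  have hB : 0 < r * β := mul_pos h4 hβ
  set W := √(π / (r * β)) with hW
  have hW0 : 0 < W := Real.sqrt_pos.2 (by positivity)
  have hW2 : W ^ (2 : ℕ) = π / (r * β) := Real.sq_sqrt (by positivity)
  -- `√(1/(Γ β π)) = s/(h W r β)`
  have e3 : √(1 / (Γ * β) * (1 / π)) = W * (s / (π * h)) := by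
    rw [hW, D.G]
    have e5 : 1 / (r * h ^ (2 : ℕ) / s ^ (2 : ℕ) * β) * (1 / π) = (π / (r * β)) * (s / (π * h)) ^ (2 : ℕ) := by
      field_simp
    rw [e5, Real.sqrt_mul (by positivity), Real.sqrt_sq (by positivity)]
  have e4 : 1 / (Γ * β) = s ^ (2 : ℕ) * W ^ (2 : ℕ) / (π * h ^ (2 : ℕ)) := by
    rw [hW2, D.G]
    field_simp
  have e6 : SokamCen.h1 (r * β) = W ^ (2 : ℕ) / (2 * π) := by
    unfold SokamCen.h1
    rw [hW2]
    field_simp
  have e7 : SokamCen.h2 (r * β) = W * W ^ (2 : ℕ) / (4 * π) := by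
    unfold SokamCen.h2
    rw [← hW, hW2]
    field_simp
  rw [e3, e4, e6, e7]
  field_simp
  ring

end

end SokamCel

end

/-! ### Lib_MP_af4de1_v3.RunRa -/

section
namespace SokamFN
end SokamFN
/-!
# Right side, the run of the field `a` (`27/5 ≤ Γ`, `τ ≤ 1/4`; targets `1/5, 1/5, 1`)
-/

set_option autoImplicit false

namespace SokamCel

open SokamFN

/-- data of the run -/
def KRa : RnD where
  P := ⟨ic 5 4, ic 4 5, ic 27 20, ic 3 5, ic 6 5⟩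
  G0 := 5937362789990
  H := 220343011579
  s0 := 3665039
  sW := 122167959
  se := 1570732
  F0 := 219902325555
  F1 := 219902325555
  F2 := 1099511627776

theorem KRa_ok : KRa.P.Ok (5 / 4) (27 / 20) (6 / 5) (6 / 5) where
  hM := by exact_mod_cast Mem.const 5 4 (by norm_num)
  hN := by
    have h := Mem.const 4 5 (by norm_num)
    norm_num at h ⊢
    exact h
  hq := by exact_mod_cast Mem.const 27 20 (by norm_num)
  hg := by
    have h := Mem.const 3 5 (by norm_num)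
    norm_num at h ⊢
    exact h
  hk := by exact_mod_cast Mem.const 6 5 (by norm_num)
  pos := by norm_num
  le := by norm_num

theorem KRa_c : bis (okC KRa) 3 1 2 12 0 769658139444 0 2303000000000 0 274877906944 = true := by
  decide +kernel

theorem KRa_n : bis (okN KRa) 3 1 2 12 0 791648371999 0 2303000000000 0 274877906944 = true := by
  decide +kernel

theorem runR_a : RunOK (27 / 20) (6 / 5) (6 / 5) 0 (1 / 4) (27 / 5) (100 / 499) (1 / 300000)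
    (1 / 9000) (1 / 700000) (1 / 5) (1 / 5) 1 := by
  refine runOK_of (K := KRa) KRa_ok (lc := [769658139444]) (ln := [791648371999])
    ⟨KRa_c, trivial⟩ ⟨KRa_n, trivial⟩ ?_ ?_ ?_ ⟨?_, ?_, ?_, ?_, ?_, ?_⟩ ?_ ?_ ?_ ?_
  · show (7 / 10 : ℝ) ≤ fx 769658139444
    unfold fx; norm_num
  · show (18 / 25 : ℝ) ≤ fx 791648371999
    unfold fx; norm_num
  · have h := Real.pi_lt_d4
    unfold fx
    norm_num at h ⊢
    linarith
  · show (1 / 300000 : ℝ) ≤ fx 3665039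
    unfold fx; norm_num
  · show (1 / 9000 : ℝ) ≤ fx 122167959
    unfold fx; norm_num
  · show (1 / 700000 : ℝ) ≤ fx 1570732
    unfold fx; norm_num
  · show fx 219902325555 ≤ (1 / 5 : ℝ)
    unfold fx; norm_num
  · show fx 219902325555 ≤ (1 / 5 : ℝ)
    unfold fx; norm_num
  · show fx 1099511627776 ≤ (1 : ℝ)
    unfold fx; norm_num
  · show fx 5937362789990 ≤ (27 / 5 : ℝ)
    unfold fx; norm_num
  · show (100 / 499 : ℝ) ≤ fx 220343011579
    unfold fx; norm_num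
  · exact (fx_zero).le
  · show (1 / 4 : ℝ) ≤ fx 274877906944
    unfold fx; norm_num

end SokamCel

end

/-! ### Lib_MP_af4de1_v3.CelRunTR -/

section
namespace SokamFN
end SokamFN
namespace SokamV3
end SokamV3
/-!
# Cells, right side: runs along trees (`CelRun` with `bisT`) (helper4)
-/

set_option autoImplicit false

namespace SokamCel

open SokamFN SokamV3

/-- **The run along trees.** Chart `c` up to `7/10`, chart `ν` up to `18/25`. -/
theorem runT_sound {K : RnD} {μ q g kk : ℝ} (hP : K.P.Ok μ q g kk) {xc xn y1 z0 z1 : ℕ}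
    {tc tn : BT} (hC : bisT (okC K) tc 0 xc 0 y1 z0 z1 = true)
    (hN : bisT (okN K) tn 0 xn 0 y1 z0 z1 = true)
    (ec : 7 / 10 ≤ fx xc) (en : 18 / 25 ≤ fx xn) (ey : 2 * Real.pi / 3 ≤ fx y1)
    {b0 bW be f0 f1 f2 : ℝ} (L : K.Le b0 bW be f0 f1 f2)
    {c ν h τ Γ : ℝ} (D : DmR K c ν h τ Γ) (hh : h ≤ 2 * Real.pi / 3) (h0 : fx z0 ≤ τ) (h1 : τ ≤ fx z1) :
    RunP μ (min q (1 + kk * τ * (h * c))) kk g c ν h τ Γ (SokamCen.bet ((1 + τ) * h)) b0 bW be f0 f1 f2 := by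
  have hh0 : fx 0 ≤ h := by rw [fx_zero]; exact D.h0.le
  rcases chart D.cn with h2 | h2
  · have key := bisT_sound (P := fun c h τ => ∀ ν Γ : ℝ, DmR K c ν h τ Γ →
      RunP μ (min q (1 + kk * τ * (h * c))) kk g c ν h τ Γ (SokamCen.bet ((1 + τ) * h)) b0 bW be f0 f1 f2)
      (fun x0 x1 y0 y1 z0 z1 hx x y z a1 a2 a3 a4 a5 a6 ν Γ D =>
        celR_sound hP L D ⟨a1, a2⟩ (Mem.co ⟨a1, a2⟩ D.cn D.n0.le) ⟨a3, a4⟩ ⟨a5, a6⟩ hx)
      tc _ _ _ _ _ _ hC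
    exact key c h τ (by rw [fx_zero]; exact D.c0.le) (h2.trans ec) hh0 (hh.trans ey) h0 h1 ν Γ D
  · have key := bisT_sound (P := fun ν h τ => ∀ c Γ : ℝ, DmR K c ν h τ Γ →
      RunP μ (min q (1 + kk * τ * (h * c))) kk g c ν h τ Γ (SokamCen.bet ((1 + τ) * h)) b0 bW be f0 f1 f2)
      (fun x0 x1 y0 y1 z0 z1 hx x y z a1 a2 a3 a4 a5 a6 c Γ D =>
        celR_sound hP L D (Mem.co ⟨a1, a2⟩ (by linarith [D.cn]) D.c0.le) ⟨a1, a2⟩ ⟨a3, a4⟩ ⟨a5, a6⟩ hx)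
      tn _ _ _ _ _ _ hN
    exact key ν h τ (by rw [fx_zero]; exact D.n0.le) (h2.trans en) hh0 (hh.trans ey) h0 h1 c Γ D

/-- `RunOK` from a run along trees -/
theorem runOK_ofT {K : RnD} {q k g τ0 τ1 G0 Hc b0 bW be f0 f1 f2 : ℝ}
    (hP : K.P.Ok (5 / 4) q g k) {xc xn y1 z0 z1 : ℕ} {tc tn : BT}
    (hC : bisT (okC K) tc 0 xc 0 y1 z0 z1 = true) (hN : bisT (okN K) tn 0 xn 0 y1 z0 z1 = true)
    (ec : 7 / 10 ≤ fx xc) (en : 18 / 25 ≤ fx xn) (ey : 2 * Real.pi / 3 ≤ fx y1)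
    (L : K.Le b0 bW be f0 f1 f2) (hG : fx K.G0 ≤ G0) (hH : Hc ≤ fx K.H)
    (h0 : fx z0 ≤ τ0) (h1 : τ1 ≤ fx z1) : RunOK q k g τ0 τ1 G0 Hc b0 bW be f0 f1 f2 :=
  fun _ _ _ _ _ _ _ _ _ s tp t0 t1 g0 hc =>
    runT_sound hP hC hN ec en ey L (s.dmR tp (hc.trans hH) (hG.trans g0)) s.h1 (h0.trans t0)
      (t1.trans h1)

end SokamCel

end

/-! ### Lib_MP_af4de1_v3.RunRcB -/

section
namespace SokamFN
end SokamFN
/-!
# The run of field `c`, class `10 ≤ Γ < 20`, right: `runR_cB` (helper4)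
-/

set_option autoImplicit false

namespace SokamCel

open SokamFN

theorem KcB_ok : KcB.P.Ok (5 / 4) (71 / 50) (13 / 10) (13 / 10) := by
  refine ⟨?_, ?_, ?_, ?_, ?_, by norm_num, by norm_num⟩ <;>
    · unfold Mem fx KcB
      norm_num

theorem runR_cB : RunOK (71 / 50) (13 / 10) (13 / 10) (7 / 20) (13 / 20) 10 (200 / 499)
    (1 / 250000) (1 / 4700) (1 / 700000) (1 / 100) (1 / 100) (1 / 100) := by
  have h := Real.pi_lt_d4
  refine runOK_ofT (K := KcB) KcB_ok rcBc rcBn ?_ ?_ ?_ ⟨?_, ?_, ?_, ?_, ?_, ?_⟩ ?_ ?_ ?_ ?_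
  all_goals unfold fx
  all_goals try unfold KcB
  all_goals norm_num at h ⊢
  linarith

end SokamCel

end
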