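import Pool.Agent.Lib_MP_af4de1_zy.Z120

/-! ### Lib_MP_af4de1_v3.DzRLg -/

section
/-!
# `PRealDL`, `X ≤ 80`, polynomial certificates in `p`, `y ≤ 1/6` (Bernstein form; helper7)
-/

set_option autoImplicit false

namespace SokamDz

theorem cG1 {p : ℝ} (h0 : 1141/1250 ≤ p) (h1 : p ≤ 1) :
    163/400 * ((1 - p ^ (2 : ℕ)) * (20 - 8 * p) + 25 * (1297/5000) * p) ≤
      1297/5000 * (20 - 8 * p) := by
  obtain ⟨s, hs⟩ : ∃ s, s = p - 1141/1250 := ⟨_, rfl⟩
  obtain ⟨w, hw⟩ : ∃ w, w = 1 - p := ⟨_, rfl⟩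
  have s0 : 0 ≤ s := by rw [hs]; linarith only [h0]
  have w0 : 0 ≤ w := by rw [hw]; linarith only [h1]
  have e : 1297/5000 * (20 - 8 * p) -
    (163/400 * ((1 - p ^ (2 : ℕ)) * (20 - 8 * p) + 25 * (1297/5000) * p)) =
      28920671257/1036023200 * s ^ (0 : ℕ) * w ^ (3 : ℕ) +
      8050814075/10360232 * s ^ (1 : ℕ) * w ^ (2 : ℕ) +
      60566683125/41440928 * s ^ (2 : ℕ) * w ^ (1 : ℕ) +
      14692578125/20720464 * s ^ (3 : ℕ) * w ^ (0 : ℕ) := by
    rw [hs, hw]; ring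
  have hp : 0 ≤ 1297/5000 * (20 - 8 * p) -
    (163/400 * ((1 - p ^ (2 : ℕ)) * (20 - 8 * p) + 25 * (1297/5000) * p)) := by rw [e]; (clear * - w0 s0; positivity)
  linarith only [hp]

theorem cG2 {p : ℝ} (h0 : 1141/1250 ≤ p) (h1 : p ≤ 1) :
    39/100 * ((1 - p ^ (2 : ℕ)) * (20 - 8 * p) + 25 * (2229/10000) * p) ≤
      2229/10000 * (20 - 8 * p) := by
  obtain ⟨s, hs⟩ : ∃ s, s = p - 1141/1250 := ⟨_, rfl⟩
  obtain ⟨w, hw⟩ : ∃ w, w = 1 - p := ⟨_, rfl⟩
  have s0 : 0 ≤ s := by rw [hs]; linarith only [h0]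
  have w0 : 0 ≤ w := by rw [hw]; linarith only [h1]
  have e : 2229/10000 * (20 - 8 * p) -
    (39/100 * ((1 - p ^ (2 : ℕ)) * (20 - 8 * p) + 25 * (2229/10000) * p)) =
      16050281817/518011600 * s ^ (0 : ℕ) * w ^ (3 : ℕ) +
      4299517575/5180116 * s ^ (1 : ℕ) * w ^ (2 : ℕ) +
      32293363125/20720464 * s ^ (2 : ℕ) * w ^ (1 : ℕ) +
      7836328125/10360232 * s ^ (3 : ℕ) * w ^ (0 : ℕ) := by
    rw [hs, hw]; ring
  have hp : 0 ≤ 2229/10000 * (20 - 8 * p) -
    (39/100 * ((1 - p ^ (2 : ℕ)) * (20 - 8 * p) + 25 * (2229/10000) * p)) := by rw [e]; (clear * - w0 s0; positivity)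
  linarith only [hp]

theorem cG3 {p : ℝ} (h0 : 1141/1250 ≤ p) (h1 : p ≤ 1) :
    29/80 * ((1 - p ^ (2 : ℕ)) * (20 - 8 * p) + 25 * (1763/10000) * p) ≤
      1763/10000 * (20 - 8 * p) := by
  obtain ⟨s, hs⟩ : ∃ s, s = p - 1141/1250 := ⟨_, rfl⟩
  obtain ⟨w, hw⟩ : ∃ w, w = 1 - p := ⟨_, rfl⟩
  have s0 : 0 ≤ s := by rw [hs]; linarith only [h0]
  have w0 : 0 ≤ w := by rw [hw]; linarith only [h1]
  have e : 1763/10000 * (20 - 8 * p) -
    (29/80 * ((1 - p ^ (2 : ℕ)) * (20 - 8 * p) + 25 * (1763/10000) * p)) =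
      7779060037/414409280 * s ^ (0 : ℕ) * w ^ (3 : ℕ) +
      17186065375/20720464 * s ^ (1 : ℕ) * w ^ (2 : ℕ) +
      132163963125/82881856 * s ^ (2 : ℕ) * w ^ (1 : ℕ) +
      32367578125/41440928 * s ^ (3 : ℕ) * w ^ (0 : ℕ) := by
    rw [hs, hw]; ring
  have hp : 0 ≤ 1763/10000 * (20 - 8 * p) -
    (29/80 * ((1 - p ^ (2 : ℕ)) * (20 - 8 * p) + 25 * (1763/10000) * p)) := by rw [e]; (clear * - w0 s0; positivity)
  linarith only [hp]

theorem sG1 {p : ℝ} (h0 : 1141/1250 ≤ p) (h1 : p ≤ 1) :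
    1 + 16 / 25 * (1 - p ^ (2 : ℕ)) ≤
      193/50 * ((4 / 5 - 8 / 25 * p) * (1 - p ^ (2 : ℕ)) * (1) + 1297/5000 * p) := by
  obtain ⟨s, hs⟩ : ∃ s, s = p - 1141/1250 := ⟨_, rfl⟩
  obtain ⟨w, hw⟩ : ∃ w, w = 1 - p := ⟨_, rfl⟩
  have s0 : 0 ≤ s := by rw [hs]; linarith only [h0]
  have w0 : 0 ≤ w := by rw [hw]; linarith only [h1]
  have e : 193/50 * ((4 / 5 - 8 / 25 * p) * (1 - p ^ (2 : ℕ)) * (1) + 1297/5000 * p) -
    (1 + 16 / 25 * (1 - p ^ (2 : ℕ))) =
      655409858573/3237572500 * s ^ (0 : ℕ) * w ^ (3 : ℕ) +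
      511358007/1295029 * s ^ (1 : ℕ) * w ^ (2 : ℕ) +
      1000409025/5180116 * s ^ (2 : ℕ) * w ^ (1 : ℕ) +
      5015625/2590058 * s ^ (3 : ℕ) * w ^ (0 : ℕ) := by
    rw [hs, hw]; ring
  have hp : 0 ≤ 193/50 * ((4 / 5 - 8 / 25 * p) * (1 - p ^ (2 : ℕ)) * (1) + 1297/5000 * p) -
    (1 + 16 / 25 * (1 - p ^ (2 : ℕ))) := by rw [e]; (clear * - w0 s0; positivity)
  linarith only [hp]

theorem sG2 {p : ℝ} (h0 : 1141/1250 ≤ p) (h1 : p ≤ 1) :
    1 + 16 / 25 * (1 - p ^ (2 : ℕ)) ≤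
      449/100 * ((4 / 5 - 8 / 25 * p) * (1 - p ^ (2 : ℕ)) * (1) + 2229/10000 * p) := by
  obtain ⟨s, hs⟩ : ∃ s, s = p - 1141/1250 := ⟨_, rfl⟩
  obtain ⟨w, hw⟩ : ∃ w, w = 1 - p := ⟨_, rfl⟩
  have s0 : 0 ≤ s := by rw [hs]; linarith only [h0]
  have w0 : 0 ≤ w := by rw [hw]; linarith only [h1]
  have e : 449/100 * ((4 / 5 - 8 / 25 * p) * (1 - p ^ (2 : ℕ)) * (1) + 2229/10000 * p) -
    (1 + 16 / 25 * (1 - p ^ (2 : ℕ))) =
      3655794293953/12950290000 * s ^ (0 : ℕ) * w ^ (3 : ℕ) +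
      2865239327/5180116 * s ^ (1 : ℕ) * w ^ (2 : ℕ) +
      5607571525/20720464 * s ^ (2 : ℕ) * w ^ (1 : ℕ) +
      12828125/10360232 * s ^ (3 : ℕ) * w ^ (0 : ℕ) := by
    rw [hs, hw]; ring
  have hp : 0 ≤ 449/100 * ((4 / 5 - 8 / 25 * p) * (1 - p ^ (2 : ℕ)) * (1) + 2229/10000 * p) -
    (1 + 16 / 25 * (1 - p ^ (2 : ℕ))) := by rw [e]; (clear * - w0 s0; positivity)
  linarith only [hp]

theorem sG3 {p : ℝ} (h0 : 1141/1250 ≤ p) (h1 : p ≤ 1) :
    1 + 16 / 25 * (1 - p ^ (2 : ℕ)) ≤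
      142/25 * ((4 / 5 - 8 / 25 * p) * (1 - p ^ (2 : ℕ)) * (1) + 1763/10000 * p) := by
  obtain ⟨s, hs⟩ : ∃ s, s = p - 1141/1250 := ⟨_, rfl⟩
  obtain ⟨w, hw⟩ : ∃ w, w = 1 - p := ⟨_, rfl⟩
  have s0 : 0 ≤ s := by rw [hs]; linarith only [h0]
  have w0 : 0 ≤ w := by rw [hw]; linarith only [h1]
  have e : 142/25 * ((4 / 5 - 8 / 25 * p) * (1 - p ^ (2 : ℕ)) * (1) + 1763/10000 * p) -
    (1 + 16 / 25 * (1 - p ^ (2 : ℕ))) =
      704353354737/1618786250 * s ^ (0 : ℕ) * w ^ (3 : ℕ) +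
      1111374566/1295029 * s ^ (1 : ℕ) * w ^ (2 : ℕ) +
      1096482325/2590058 * s ^ (2 : ℕ) * w ^ (1 : ℕ) +
      2703125/1295029 * s ^ (3 : ℕ) * w ^ (0 : ℕ) := by
    rw [hs, hw]; ring
  have hp : 0 ≤ 142/25 * ((4 / 5 - 8 / 25 * p) * (1 - p ^ (2 : ℕ)) * (1) + 1763/10000 * p) -
    (1 + 16 / 25 * (1 - p ^ (2 : ℕ))) := by rw [e]; (clear * - w0 s0; positivity)
  linarith only [hp]

end SokamDz

end

/-! ### Lib_MP_af4de1_v3.DzRL4 -/

section
namespace SokamCen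
end SokamCen
namespace SokamV3
end SokamV3
/-!
# `PRealDL`, `X ≤ 80`, stage 4: the main term for `R ≥ 6`, `t ≤ 14/5` (helper7)
-/

set_option autoImplicit false

namespace SokamDz

open Real MeasureTheory Set SokamCen SokamV3

variable {r ρ t p y x X : ℝ}

theorem exp_neg_ge {a b : ℝ} (hb : 0 < b) (h : exp a ≤ 1 / b) : b ≤ exp (-a) := by
  rw [Real.exp_neg, ← one_div, le_div_iff₀ (exp_pos _)]
  rw [le_div_iff₀ hb] at h
  linarith only [h]

theorem ex528 : 1297 / 5000 ≤ 11 / 25 * exp (-(528 / 1000)) := by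
  have h1 : exp (528 / 1000) ≤ 1 / (5896 / 10000) := by
    have := Real.exp_bound' (x := 528 / 1000) (by norm_num) (by norm_num) (n := 5) (by norm_num)
    simp only [Finset.sum_range_succ, Finset.sum_range_zero, Nat.factorial] at this
    norm_num at this ⊢
    linarith only [this]
  have := exp_neg_ge (by norm_num) h1
  linarith only [this]

theorem ex680 : 2229 / 10000 ≤ 11 / 25 * exp (-(68 / 100)) := by
  have h1 : exp (68 / 100) ≤ 1 / (50660 / 100000) := by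
    have := Real.exp_bound' (x := 68 / 100) (by norm_num) (by norm_num) (n := 7) (by norm_num)
    simp only [Finset.sum_range_succ, Finset.sum_range_zero, Nat.factorial] at this
    norm_num at this ⊢
    linarith only [this]
  have := exp_neg_ge (by norm_num) h1
  linarith only [this]

theorem ex914 : 1763 / 10000 ≤ 11 / 25 * exp (-(91448 / 100000)) := by
  have h1 : exp (91448 / 100000) ≤ 1 / (4007 / 10000) := by
    have := Real.exp_bound' (x := 91448 / 100000) (by norm_num) (by norm_num) (n := 8) (by norm_num)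
    simp only [Finset.sum_range_succ, Finset.sum_range_zero, Nat.factorial] at this
    norm_num at this ⊢
    linarith only [this]
  have := exp_neg_ge (by norm_num) h1
  linarith only [this]

/-- general step for `σ = 1` -/
theorem Pr.lmS1 (h : Pr ρ t p y x) (hr : 0 < r) {B q S S2 E0 ex c x1 : ℝ} (hX : X = r * x ^ (2 : ℕ))
    (hx1 : x ≤ x1) (hx54 : x ≤ 5 / 4) (hB : 0 < B) (hB1 : B ≤ 11 / 25 * exp (-(4 / 5 * x1)))
    (hG : q * (y * (20 - 8 * p) + 25 * B * p) ≤ B * (20 - 8 * p))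
    (hq : 0 ≤ q) (hS0 : 0 ≤ S) (hS20 : 0 ≤ S2) (hlo : S2 ≤ S ^ (2 : ℕ))
    (hN : 1 + 16 / 25 * y ≤ S2 * ((4 / 5 - 8 / 25 * p) * y * 1 + B * p))
    (hE : E0 ≤ (8 / 9 * q - 17 / 100) * X) (hex : exp (-E0) ≤ ex)
    (hc : (5 + 7072 / 10000) * S * ex ≤ c * (54 / 125)) : LMok r ρ t X c := by
  have hk1 := h.k_one hx54
  have hp0 := h.p0
  have hy0 := h.y0
  refine h.lmF hr (β := 11 / 25) (σ := 1) (B := B) (q := q)
    (h' := 1 * (25 * p / (20 - 8 * p))) (S := S) (E0 := E0)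
    (ex := ex) hX (HR_11_25 t) (by norm_num) le_rfl hB ?_ ?_ ?_ hq hS0 ?_ hE hex hc
  · have h2 : exp (-(4 / 5 * x1)) ≤ exp (-(1 * (4 / 5 * x))) := Real.exp_le_exp.2 (by linarith only [hx1])
    linarith only [hB1, h2]
  · rw [hk1]
    exact aa_h hp0 h.p1 (by norm_num)
  · refine star_of h.p1 ?_
    have e : (y * (20 - 8 * p) + 25 * B * p * 1) *
        (4 / 5 * (4 / 27 * (1 - 1) ^ (3 : ℕ)) * x * B + q * y) =
        y * (q * (y * (20 - 8 * p) + 25 * B * p)) := by ring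
    rw [e]
    calc y * (q * (y * (20 - 8 * p) + 25 * B * p)) ≤ y * (B * (20 - 8 * p)) :=
          mul_le_mul_of_nonneg_left hG hy0.le
      _ = _ := by ring
  · exact PP_le' hp0 h.p1 hy0 h.lA (le_of_eq hk1.symm) one_pos hB hS20 hS0 hlo hN

/-- `y ≤ 1/6`, `t ≤ 14/5` -/
theorem Pr.lmG (h : Pr ρ t p y x) (hr : 499 / 10 ≤ r) (hX : X = r * x ^ (2 : ℕ)) (hX1 : 108 / 5 ≤ X)
    (ht : t ≤ 14 / 5) (hy : y ≤ 1 / 6) : LMok r ρ t X (603 / 1000) := by
  have hr0 : 0 < r := by linarith only [hr, hX]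
  have hy0 := h.y0
  have hx0 := h.x0
  have ht0 := h.t0
  have hp0 := h.p0
  have hp' : 1141 / 1250 ≤ p := h.le_p (by norm_num; linarith only [hy])
  have hts := h.ts
  have hx2 : x ≤ 11431 / 10000 := by
    refine abs_le_of_sq_le_sq' ?_ (by norm_num) |>.2
    rw [← hts]
    have h1 : t ^ (2 : ℕ) ≤ (14 / 5) ^ (2 : ℕ) := pow_le_pow_left₀ ht0.le ht 2
    linarith only [hy, mul_le_mul_of_nonneg_right h1 hy0.le]
  have hXx : 499 / 10 * x ^ (2 : ℕ) ≤ X := by
    rw [hX]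
    exact mul_le_mul_of_nonneg_right hr (sq_nonneg x)
  rcases le_total x (33 / 50) with ha | ha
  · have hc := cG1 hp' h.p1.le
    have hs := sG1 hp' h.p1.le
    rw [← h.hy] at hc hs
    refine (h.lmS1 hr0 (B := 1297 / 5000) (q := 163 / 400) (S := 19647 / 10000) (S2 := 193 / 50)
      (E0 := 415 / 100) (ex := 1577 / 100000) (c := 41 / 100) hX ha (by linarith only [ha]) (by norm_num) ?_ hc
      (by norm_num) (by norm_num) (by norm_num) (by norm_num) hs ?_ ?_ (by norm_num)).mono (by norm_num)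
    · have := ex528
      rw [show (4 / 5 * (33 / 50) : ℝ) = 528 / 1000 by norm_num]
      exact this
    · linarith only [hX1]
    · exact ex_neg 4 (15 / 100) (by norm_num) (by norm_num) (by norm_num) (by norm_num)
  · rcases le_total x (17 / 20) with hb | hb
    · have hc := cG2 hp' h.p1.le
      have hs := sG2 hp' h.p1.le
      rw [← h.hy] at hc hs
      refine (h.lmS1 hr0 (B := 2229 / 10000) (q := 39 / 100) (S := 21190 / 10000) (S2 := 449 / 100)
        (E0 := 384 / 100) (ex := 2152 / 100000) (c := 603 / 1000) hX hb (by linarith only [hb]) (by norm_num) ?_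
        hc (by norm_num) (by norm_num) (by norm_num) (by norm_num) hs ?_ ?_ (by norm_num)).mono
        (by norm_num)
      · have := ex680
        rw [show (4 / 5 * (17 / 20) : ℝ) = 68 / 100 by norm_num]
        exact this
      · nlinarith only [hXx, ha]
      · exact ex_neg 3 (84 / 100) (by norm_num) (by norm_num) (by norm_num) (by norm_num)
    · have hc := cG3 hp' h.p1.le
      have hs := sG3 hp' h.p1.le
      rw [← h.hy] at hc hs
      refine (h.lmS1 hr0 (B := 1763 / 10000) (q := 29 / 80) (S := 23833 / 10000) (S2 := 142 / 25)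
        (E0 := 54 / 10) (ex := 453 / 100000) (c := 2 / 10) hX hx2 (by linarith only [hx2]) (by norm_num) ?_ hc
        (by norm_num) (by norm_num) (by norm_num) (by norm_num) hs ?_ ?_ (by norm_num)).mono
        (by norm_num)
      · have := ex914
        rw [show (4 / 5 * (11431 / 10000) : ℝ) = 91448 / 100000 by norm_num]
        exact this
      · nlinarith only [hXx, hb]
      · exact ex_neg 5 (4 / 10) (by norm_num) (by norm_num) (by norm_num) (by norm_num)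

end SokamDz

end

/-! ### Lib_MP_af4de1_v3.DzRL7 -/

section
namespace SokamCen
end SokamCen
namespace SokamV3
end SokamV3
/-!
# `PRealDL`, `X ≤ 80`, stage 7: the sum, and the case `t ≤ 14/5` (helper7)
-/

set_option autoImplicit false

namespace SokamDz

open Real MeasureTheory Set SokamCen SokamV3

variable {r ρ t p y x X : ℝ}

/-- the statement for one point -/
def GoalL (r ρ t : ℝ) : Prop := ∃ C Cf B B' l e : ℝ, HR (2 * π - t) B ∧
  HC ρ (2 * π - t) C ∧ HF ρ (2 * π - t) Cf ∧ HL ρ t B' l ∧ HE ρ e ∧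
  l ≤ lA ρ t * B' * t ^ (2 : ℕ) / (lA ρ t + B') ∧
  Kc r ρ * SW r ρ (2 * π - t) t C Cf B B' l e ≤ 27 / 5 * Fd r ρ (r * t ^ (2 : ℕ) / (1 + ρ ^ (2 : ℕ)))

/-- the far groups -/
def gFok (r ρ t X c : ℝ) : Prop :=
  (4 * r + 1) * (Kc r ρ * lF r ρ t (1 / 2)) + (14 * r + 68 / 25) * (Kc r ρ * rF r ρ (2 * π - t)) ≤
    c * (54 / 125 * exp (-(17 / 100 * X)))

/-- the images -/
def gIok (r ρ t C X c : ℝ) : Prop :=
  Kc r ρ * (20 / 3 * (C * rM (8 / 9 * r) ρ (2 * π - t) (11 / 25)) +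
      68 / 25 * rM r ρ (2 * π - t) (11 / 25)) +
    Kc r ρ * (20 / 3 * (14 / 5 * rT (8 / 9 * r) ρ (2 * π - t)) +
      68 / 25 * rT r ρ (2 * π - t)) ≤ c * (54 / 125 * exp (-(17 / 100 * X)))

theorem asmW {c1 c2 c3 c4 c5 C Cf : ℝ} (hρ : 0 < ρ) (ht : t ≤ π)
    (hXe : r * t ^ (2 : ℕ) / (1 + ρ ^ (2 : ℕ)) = X) (hX2 : X ≤ 80)
    (hC : HC ρ (2 * π - t) C) (hCf : HF ρ (2 * π - t) Cf)
    (gM : LMok r ρ t X c1)
    (gT : Kc r ρ * (20 / 3 * lT (8 / 9 * r) ρ t + lT r ρ t) ≤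
      c2 * (54 / 125 * exp (-(17 / 100 * X))))
    (gO : Kc r ρ * (20 / 3 * (Cf * rO (8 / 9 * r) ρ (2 * π - t)) +
      68 / 25 * rO r ρ (2 * π - t)) ≤ c3 * (54 / 125 * exp (-(17 / 100 * X))))
    (gI : gIok r ρ t C X c4) (gF : gFok r ρ t X c5)
    (hs : c1 + c2 + c3 + c4 + c5 ≤ 1) : GoalL r ρ t := by
  obtain ⟨B', l, m1, m2, m3⟩ := gM
  refine ⟨C, Cf, 11 / 25, B', l, 1 / 2, HR_11_25 _, hC, hCf, m1, HE_half hρ, m2, ?_⟩
  rw [hXe]
  have hpi := Real.pi_gt_d4
  have hO : ∀ q : ℝ, lO q ρ t = 0 := by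
    intro q
    unfold lO
    rw [if_neg (by linarith)]
  have hFd : Fd r ρ X = 2 / 25 * exp (-(17 / 100 * X)) := by
    unfold Fd
    rw [if_pos hX2]
  rw [hFd]
  unfold gIok at gI
  unfold gFok at gF
  have hW := exp_pos (-(17 / 100 * X))
  calc Kc r ρ * SW r ρ (2 * π - t) t C Cf (11 / 25) B' l (1 / 2) =
      Kc r ρ * (20 / 3 * lM (8 / 9 * r) ρ t B' l + lM r ρ t B' l) +
      Kc r ρ * (20 / 3 * lT (8 / 9 * r) ρ t + lT r ρ t) +
      Kc r ρ * (20 / 3 * (Cf * rO (8 / 9 * r) ρ (2 * π - t)) + 68 / 25 * rO r ρ (2 * π - t)) +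
      (Kc r ρ * (20 / 3 * (C * rM (8 / 9 * r) ρ (2 * π - t) (11 / 25)) +
        68 / 25 * rM r ρ (2 * π - t) (11 / 25)) +
      Kc r ρ * (20 / 3 * (14 / 5 * rT (8 / 9 * r) ρ (2 * π - t)) +
        68 / 25 * rT r ρ (2 * π - t))) +
      ((4 * r + 1) * (Kc r ρ * lF r ρ t (1 / 2)) +
        (14 * r + 68 / 25) * (Kc r ρ * rF r ρ (2 * π - t))) := by
        unfold SW
        rw [hO, hO]
        ring
    _ ≤ (c1 + c2 + c3 + c4 + c5) * (54 / 125 * exp (-(17 / 100 * X))) := by linarith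
    _ ≤ 1 * (54 / 125 * exp (-(17 / 100 * X))) := mul_le_mul_of_nonneg_right hs (by positivity)
    _ = _ := by ring

theorem HypD.X' (h : HypD r ρ t) (H : Pr ρ t p y x) : r * t ^ (2 : ℕ) / (1 + ρ ^ (2 : ℕ)) = r * x ^ (2 : ℕ) := by
  rw [← H.ts, div_eq_iff (by positivity)]
  linear_combination (-(r * t ^ (2 : ℕ))) * H.hR

theorem Pr.x_le (h : Pr ρ t p y x) (hr : 499 / 10 ≤ r) (hX : X = r * x ^ (2 : ℕ)) (hX2 : X ≤ 80) :
    x ≤ 6331 / 5000 := by
  refine abs_le_of_sq_le_sq' ?_ (by norm_num) |>.2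
  have h1 : 499 / 10 * x ^ (2 : ℕ) ≤ r * x ^ (2 : ℕ) := mul_le_mul_of_nonneg_right hr (sq_nonneg x)
  rw [← hX] at h1
  linarith only [hX2, h1]

theorem HF_front (h : Pr ρ t p y x) (ht : 9 / 20 ≤ t) : HF ρ (2 * π - t) (38 / 25) := by
  refine Or.inr ⟨3 / 5, ?_, by norm_num, by norm_num, by norm_num, by norm_num⟩
  have := h.m1
  linarith

/-- the case `t ≤ 14/5` -/
theorem goalL_lo (h : Pr ρ t p y x) (hr : 499 / 10 ≤ r) (hXe : r * t ^ (2 : ℕ) / (1 + ρ ^ (2 : ℕ)) = X)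
    (hX : X = r * x ^ (2 : ℕ)) (hX1 : 108 / 5 ≤ X) (hX2 : X ≤ 80) (ht : t ≤ 14 / 5)
    (gF : gFok r ρ t X (31 / 1000)) : GoalL r ρ t := by
  have hr0 : 0 < r := by linarith
  have hx1 := h.x_le hr hX hX2
  have hpi := Real.pi_gt_d4
  have htp : t ≤ π := by linarith
  have ht0 := h.t0
  have hy0 := h.y0
  have hx0 := h.x0
  have hρ := h.ρ0
  have hC := HC_big ρ (2 * π - t)
  have hF := HF_big ρ (2 * π - t)
  rcases le_total y (1 / 6) with hy | hy
  · have hx2 : x ≤ 5 / 4 := by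
      refine abs_le_of_sq_le_sq' ?_ (by norm_num) |>.2
      rw [← h.ts]
      have h1 : t ^ (2 : ℕ) ≤ (14 / 5) ^ (2 : ℕ) := pow_le_pow_left₀ ht0.le ht 2
      nlinarith only [hy, h1]
    exact asmW hρ htp hXe hX2 hC hF (h.lmG hr hX hX1 ht hy) (h.glT2 hr0 hX hX1 hx2 hy)
      (h.grO6 hr0 hX hX1 (by linarith) htp) (h.img2 hr hX hX1 hX2 hy ht) gF (by norm_num)
  · have gI := h.img1 hr hX2 hy ht
    have gT := h.glT1 hr0 hX hX1 hx1 hy
    rcases le_total y (2809 / 5000) with hy2 | hy2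
    · have gO := h.grO6 hr0 hX hX1 hy2 htp
      rcases le_total x (33 / 50) with ha | ha
      · exact asmW hρ htp hXe hX2 hC hF (h.lmBa hr hX hX1 ha hy hy2) gT gO gI gF (by norm_num)
      · exact asmW hρ htp hXe hX2 hC hF (h.lmBb hr hX ha hx1 hy hy2) gT gO gI gF (by norm_num)
    · rcases le_total t (9 / 20) with h9 | h9
      · exact asmW hρ htp hXe hX2 hC hF (h.lmT hr hX hX1 h9 hy) gT (h.grO1 hr0 hX hX1 htp) gI gF
          (by norm_num)
      · have hF' := HF_front h h9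
        rcases le_total y (4717 / 5000) with hy3 | hy3
        · have gO := h.grO5 hr0 hX hX1 hy3 htp
          rcases le_total x (33 / 50) with ha | ha
          · exact asmW hρ htp hXe hX2 hC hF' (h.lmA1a hr hX hX1 ha hy2) gT gO gI gF (by norm_num)
          · exact asmW hρ htp hXe hX2 hC hF' (h.lmA1b hr hX ha hx1 hy2) gT gO gI gF (by norm_num)
        · rcases le_total x (7 / 10) with ha | ha
          · exact asmW hρ htp hXe hX2 hC hF' (h.lmA0 hr hX hX1 ha hy3) gT (h.grO3 hr0 hX hX1 htp)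
              gI gF (by norm_num)
          · exact asmW hρ htp hXe hX2 hC hF' (h.lmA1b hr hX (by linarith) hx1 hy2) gT
              (h.grO4 hr hX ha htp) gI gF (by norm_num)

end SokamDz

end

/-! ### Lib_MP_af4de1_v3.DzRL9 -/

section
namespace SokamCen
end SokamCen
namespace SokamV3
end SokamV3
/-!
# `PRealDL`, `X ≤ 80`, stage 9: the images for `t ≥ 14/5` (helper7)
-/

set_option autoImplicit false

namespace SokamDz

open Real MeasureTheory Set SokamCen SokamV3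

variable {r ρ t p y x X : ℝ}

/-- general step for the images -/
theorem Pr.imgX (h : Pr ρ t p y x) (hr : 0 < r)
    {η ζ τ X0 C S1 S2 d1 d2 E1 E2 ex1 ex2 c1 c2 : ℝ} (ht1 : t ≤ π) (hX0 : 0 < X0) (hX : X0 ≤ X)
    (hη : 0 < η) (hζ : 0 < ζ) (hC : 0 ≤ C)
    (hY : η * X ≤ r * (SokamDz.rA ρ (2 * π - t) * (2 * π - t) ^ (2 : ℕ)))
    (hZ : ζ * X ≤ r * (11 / 25 * (2 * π - t) ^ (2 : ℕ))) (hτ : τ * (η + ζ) ≤ η * ζ)
    (hS1 : √(PP p y / (SokamDz.rA ρ (2 * π - t) + 11 / 25)) ≤ S1) (hS2 : √(PP p y) ≤ S2)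
    (h1 : 17 / 100 ≤ 8 / 9 * τ) (h2 : 17 / 100 ≤ 8 / 9 * η)
    (hd1 : exp (-(τ * X0 / 9)) ≤ d1) (hd2 : exp (-(η * X0 / 9)) ≤ d2)
    (hE1 : E1 ≤ (8 / 9 * τ - 17 / 100) * X0) (hE2 : E2 ≤ (8 / 9 * η - 17 / 100) * X0)
    (hex1 : exp (-E1) ≤ ex1) (hex2 : exp (-E2) ≤ ex2)
    (hc1 : (5 * C + 7072 / 10000 * (68 / 25) * d1) * S1 * ex1 ≤ c1 * (54 / 125))
    (hc2 : 3 / 2 * (4232 / 10000 * (56 / 3) + 399 / 1000 * (68 / 25) * d2) * S2 * ex2 ≤
      c2 * (54 / 125)) : gIok r ρ t C X (c1 + c2) := by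
  have hpi := Real.pi_pos
  obtain ⟨φ, hφd⟩ : ∃ φ, φ = 2 * π - t := ⟨_, rfl⟩
  have hφ0 : 0 < φ := by rw [hφd]; linarith only [ht1, hpi]
  unfold gIok
  rw [← hφd] at hY hZ hS1 ⊢
  have hA := h.rA0 hφ0
  have hXp : 0 < X := lt_of_lt_of_le hX0 hX
  have hE : τ * X ≤ r * (SokamDz.rA ρ φ * (11 / 25) * φ ^ (2 : ℕ) / (SokamDz.rA ρ φ + 11 / 25)) := by
    refine Elow (Y := η * X) (Z := ζ * X) hr hA (by norm_num) hφ0 hY hZ (by (clear * - hη hXp; positivity))
      (by (clear * - hζ hXp; positivity)) ?_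
    have := mul_le_mul_of_nonneg_right hτ (by positivity : (0 : ℝ) ≤ X * X)
    linarith only [this]
  have hd1' : exp (-(τ * X / 9)) ≤ d1 := by
    refine le_trans (Real.exp_le_exp.2 ?_) hd1
    have : τ * X0 ≤ τ * X := mul_le_mul_of_nonneg_left hX (by linarith only [h1])
    linarith only [this]
  have hd2' : exp (-(η * X / 9)) ≤ d2 := by
    refine le_trans (Real.exp_le_exp.2 ?_) hd2
    have : η * X0 ≤ η * X := mul_le_mul_of_nonneg_left hX (by linarith only [h2])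
    linarith only [this]
  have hd10 : 0 ≤ d1 := (exp_pos _).le.trans hd1
  have hd20 : 0 ≤ d2 := (exp_pos _).le.trans hd2
  have hS10 : 0 ≤ S1 := (Real.sqrt_nonneg _).trans hS1
  have hS20 : 0 ≤ S2 := (Real.sqrt_nonneg _).trans hS2
  have g1 := closeW (X := X) (E0 := E1) (ex := ex1) (c := c1)
    (h.GrM hr hφ0 hC (by norm_num) hE hd1' hS1)
    (by (clear * - hC hd10; positivity)) hS10 (by
      have : (8 / 9 * τ - 17 / 100) * X0 ≤ (8 / 9 * τ - 17 / 100) * X :=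
        mul_le_mul_of_nonneg_left hX (by linarith only [h1])
      linarith only [hE1, this]) hex1 hc1
  have hT := h.GrT hr hY hd2'
  have hT' : SokamDz.Kc r ρ * (20 / 3 * (14 / 5 * rT (8 / 9 * r) ρ φ) + 68 / 25 * rT r ρ φ) ≤
      3 / 2 * (4232 / 10000 * (56 / 3) + 399 / 1000 * (68 / 25) * d2) * S2 *
        exp (-(8 / 9 * (η * X))) :=
    hT.trans (mul_le_mul_of_nonneg_right (mul_le_mul_of_nonneg_left hS2 (by (clear * - hd20; positivity)))
      (exp_pos _).le)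
  have g2 := closeW (X := X) (E0 := E2) (ex := ex2) (c := c2) hT'
    (by (clear * - hd20; positivity)) hS20 (by
      have : (8 / 9 * η - 17 / 100) * X0 ≤ (8 / 9 * η - 17 / 100) * X :=
        mul_le_mul_of_nonneg_left hX (by linarith only [h2])
      linarith only [hE2, this]) hex2 hc2
  linarith only [g1, g2]

theorem gIok.mono {C X' c c' : ℝ} (h : gIok r ρ t C X' c) (hc0 : 0 ≤ c) (hX : X ≤ X')
    (hc : c ≤ c') : gIok r ρ t C X c' := by
  unfold gIok at *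
  refine h.trans ?_
  have h1 : exp (-(17 / 100 * X')) ≤ exp (-(17 / 100 * X)) := Real.exp_le_exp.2 (by linarith only [hX])
  have h2 := exp_pos (-(17 / 100 * X))
  calc c * (54 / 125 * exp (-(17 / 100 * X'))) ≤ c * (54 / 125 * exp (-(17 / 100 * X))) :=
        mul_le_mul_of_nonneg_left (by linarith only [h1]) hc0
    _ ≤ _ := mul_le_mul_of_nonneg_right hc (by positivity)

theorem Pr.phi2 (_h : Pr ρ t p y x) (ht1 : t ≤ π) :
    434236 / 100000 ≤ 11 / 25 * (2 * π - t) ^ (2 : ℕ) := by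
  have hpi := Real.pi_gt_d4
  have : (31415 / 10000 : ℝ) ^ (2 : ℕ) ≤ (2 * π - t) ^ (2 : ℕ) :=
    pow_le_pow_left₀ (by norm_num) (by linarith only [ht1, hpi]) 2
  linarith only [this]

theorem Pr.y_le (h : Pr ρ t p y x) (ht : 14 / 5 ≤ t) {x1 : ℝ} (hx : x ≤ x1) :
    784 / 100 * y ≤ x1 ^ (2 : ℕ) := by
  have h1 : (14 / 5 : ℝ) ^ (2 : ℕ) ≤ t ^ (2 : ℕ) := pow_le_pow_left₀ (by norm_num) ht 2
  have h2 : x ^ (2 : ℕ) ≤ x1 ^ (2 : ℕ) := pow_le_pow_left₀ h.x0.le hx 2
  have h3 := h.ts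
  have h4 := h.y0
  nlinarith only [h1, h2, h3]

/-- crude `S1` -/
theorem Pr.S1c (h : Pr ρ t p y x) (ht1 : t ≤ π) {P S1 : ℝ} (hP : PP p y ≤ P) (hS : 0 ≤ S1)
    (hPS : P ≤ 11 / 25 * S1 ^ (2 : ℕ)) :
    √(PP p y / (SokamDz.rA ρ (2 * π - t) + 11 / 25)) ≤ S1 := by
  have hpi := Real.pi_pos
  have hA := h.rA0 (φ := 2 * π - t) (by linarith only [ht1, hpi])
  rw [Real.sqrt_le_left hS, div_le_iff₀ (by linarith only [hA])]
  nlinarith only [hP, hPS, hA]

/-- finer `S1` -/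
theorem Pr.S1f (h : Pr ρ t p y x) (ht1 : t ≤ π) (hm : 2 * π - t ≤ mm ρ) {S1 S : ℝ} (hS : 0 ≤ S1)
    (hS0 : 0 ≤ S) (hSS : S ≤ S1 ^ (2 : ℕ)) (hN : 1 + 16 / 25 * y ≤ S * ((17 / 50 * y + 11 / 25) * p)) :
    √(PP p y / (SokamDz.rA ρ (2 * π - t) + 11 / 25)) ≤ S1 := by
  have hpi := Real.pi_pos
  have hφ0 : 0 < 2 * π - t := by linarith only [ht1, hpi]
  have hA := h.rA_ge hφ0
  have hp := h.p0
  have ha := aa_pos hp h.p1
  have hy := h.y0
  have hk : min 1 (mm ρ / (2 * π - t)) = 1 := min_eq_left (by rwa [le_div_iff₀ hφ0, one_mul])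
  rw [hk, mul_one] at hA
  have h2 : 17 / 50 * y ≤ SokamDz.rA ρ (2 * π - t) :=
    le_trans (mul_le_mul_of_nonneg_right (by linarith only [ha]) hy.le) hA
  rw [Real.sqrt_le_left hS]
  refine le_trans ?_ hSS
  unfold PP
  rw [div_le_iff₀ (by linarith only [hy, h2]), div_le_iff₀ hp]
  refine hN.trans ?_
  rw [mul_assoc]
  refine mul_le_mul_of_nonneg_left ?_ hS0
  exact mul_le_mul_of_nonneg_right (by linarith only [h2]) hp.le

/-- the inputs `hY`, `hZ` -/
theorem Pr.inY (h : Pr ρ t p y x) (hr : 0 < r) (hX : X = r * x ^ (2 : ℕ)) (ht1 : t ≤ π)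
    (hm : 2 * π - t ≤ mm ρ) {x1 η : ℝ} (hx1 : x ≤ x1) (hx2 : x1 ≤ 5 / 4)
    (hη : η ≤ 12 / 25 - 853334 / 10000000 * x1 + 191 / 10000 * x1 ^ (2 : ℕ)) :
    η * X ≤ r * (SokamDz.rA ρ (2 * π - t) * (2 * π - t) ^ (2 : ℕ)) := by
  have ht0 := h.t0
  have hx0 := h.x0
  have hX0 : 0 ≤ X := by rw [hX]; (clear * - hr hx0; positivity)
  have h1 := h.Yeta hX0 hX (φ := 2 * π - t) (w := (2 * π - t) / t)
    (by rw [le_div_iff₀ ht0]; linarith only [ht1]) (by field_simp) hm ht1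
  refine le_trans ?_ h1
  have h2 : η ≤ 12 / 25 - 853334 / 10000000 * x + 191 / 10000 * x ^ (2 : ℕ) := by nlinarith only [hx1, hx2, hη]
  nlinarith only [hX0, h2]

theorem Pr.inZ (h : Pr ρ t p y x) (hr : 0 < r) (hX : X = r * x ^ (2 : ℕ)) (ht1 : t ≤ π)
    {x1 ζ : ℝ} (hx1 : x ≤ x1) (hζ0 : 0 ≤ ζ) (hζ : ζ * x1 ^ (2 : ℕ) ≤ 434236 / 100000) :
    ζ * X ≤ r * (11 / 25 * (2 * π - t) ^ (2 : ℕ)) := by
  have h2 : x ^ (2 : ℕ) ≤ x1 ^ (2 : ℕ) := pow_le_pow_left₀ h.x0.le hx1 2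
  have h3 := h.phi2 ht1
  have h4 : ζ * x ^ (2 : ℕ) ≤ ζ * x1 ^ (2 : ℕ) := mul_le_mul_of_nonneg_left h2 hζ0
  calc ζ * X = r * (ζ * x ^ (2 : ℕ)) := by rw [hX]; ring
    _ ≤ _ := mul_le_mul_of_nonneg_left (by linarith only [hζ, h3, h4]) hr.le

theorem Pr.PPle (h : Pr ρ t p y x) {y1 p1 P : ℝ} (hy : y ≤ y1) (hp1 : y1 ≤ 1 - p1 ^ (2 : ℕ))
    (hp0 : 0 < p1) (hP : 1 + 16 / 25 * y1 ≤ P * p1) : PP p y ≤ P := by
  have hp := h.p0
  have h1 : p1 ≤ p := h.le_p (by linarith only [hy, hp1])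
  have hy0 := h.y0
  have hP0 : 0 < P := by
    by_contra hn
    nlinarith only [hy, hp0, hP, hy0, hn]
  unfold PP
  rw [div_le_iff₀ hp]
  nlinarith only [hy, hP, h1, hP0]

/-- `φ ≤ 3m/5` -/
theorem Pr.imgA (h : Pr ρ t p y x) (hr : 499 / 10 ≤ r) (hX : X = r * x ^ (2 : ℕ)) (hX1 : 108 / 5 ≤ X)
    (ht : 14 / 5 ≤ t) (ht1 : t ≤ π) (hT : 2 * π - t ≤ 3 / 5 * mm ρ) :
    gIok r ρ t (38 / 25) X (71 / 100) := by
  have hr0 : 0 < r := by linarith only [hr, hX]
  have ht0 := h.t0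
  have hx0 := h.x0
  have hy0 := h.y0
  have hp0 := h.p0
  have hm0 := h.m0
  have hpi := Real.pi_gt_d4
  have hm : 2 * π - t ≤ mm ρ := by linarith only [ht, ht1, hT]
  have hx75 : x ≤ 3 / 4 := by
    have h1 := h.tm
    rw [div_eq_iff hm0.ne'] at h1
    have : 4 / 5 * x * mm ρ ≤ 3 / 5 * mm ρ := by linarith only [ht1, hT, h1]
    have := le_of_mul_le_mul_right this hm0
    linarith only [this]
  have hXx : 499 / 10 * x ^ (2 : ℕ) ≤ X := by
    rw [hX]
    exact mul_le_mul_of_nonneg_right hr (sq_nonneg x)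
  rcases le_total x (33 / 50) with ha | ha
  · have hy := h.y_le ht ha
    have hp1 : 971817 / 1000000 ≤ p := h.le_p (by norm_num; linarith only [hy])
    have hP := h.PPle (y1 := 5557 / 100000) (p1 := 971817 / 1000000) (P := 10657 / 10000)
      (by linarith only [hy]) (by norm_num) (by norm_num) (by norm_num)
    refine (h.imgX hr0 (η := 4319 / 10000) (ζ := 9968 / 1000) (τ := 4139 / 10000) (X0 := 108 / 5)
      (S1 := 1524 / 1000) (S2 := 10324 / 10000) (d1 := 371 / 1000) (d2 := 3552 / 10000)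
      (E1 := 42748 / 10000) (E2 := 46204 / 10000) (ex1 := 13923 / 1000000) (ex2 := 9855 / 1000000)
      (c1 := 4095 / 10000) (c2 := 2935 / 10000)
      ht1 (by norm_num) hX1 (by norm_num) (by norm_num) (by norm_num)
      (h.inY hr0 hX ht1 hm ha (by norm_num) (by norm_num))
      (h.inZ hr0 hX ht1 ha (by norm_num) (by norm_num)) (by norm_num)
      (h.S1f ht1 hm (S := 23225 / 10000) (by norm_num) (by norm_num) (by norm_num) ?_) ?_
      (by norm_num) (by norm_num)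
      (ex_neg 0 (9933 / 10000) (by norm_num) (by norm_num) (by norm_num) (by norm_num))
      (ex_neg 1 (365 / 10000) (by norm_num) (by norm_num) (by norm_num) (by norm_num))
      (by norm_num) (by norm_num)
      (ex_neg 4 (2748 / 10000) (by norm_num) (by norm_num) (by norm_num) (by norm_num))
      (ex_neg 4 (6204 / 10000) (by norm_num) (by norm_num) (by norm_num) (by norm_num))
      (by norm_num) (by norm_num)).mono (by norm_num) le_rfl (by norm_num)
    · rw [h.hy]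
      nlinarith only [mul_nonneg (sub_nonneg.2 hp1) (sub_nonneg.2 h.p1.le), mul_nonneg (mul_nonneg (sub_nonneg.2 hp1) (sub_nonneg.2 h.p1.le)) hp0.le]
    · rw [Real.sqrt_le_left (by norm_num)]
      linarith only [hP]
  · rcases le_total x (17 / 25) with hb | hb
    · have hy := h.y_le ht hb
      have hp1 : 970061 / 1000000 ≤ p := h.le_p (by norm_num; linarith only [hy])
      have hP := h.PPle (y1 := 58981 / 1000000) (p1 := 970061 / 1000000) (P := 10698 / 10000)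
        (by linarith only [hy]) (by norm_num) (by norm_num) (by norm_num)
      refine (h.imgX hr0 (η := 4308 / 10000) (ζ := 939 / 100) (τ := 4119 / 10000)
        (X0 := 21736 / 1000)
        (S1 := 15251 / 10000) (S2 := 10344 / 10000) (d1 := 3703 / 10000) (d2 := 3539 / 10000)
        (E1 := 42630 / 10000) (E2 := 46282 / 10000) (ex1 := 14088 / 1000000)
        (ex2 := 9779 / 1000000)
        (c1 := 4140 / 10000) (c2 := 2920 / 10000)
        ht1 (by norm_num) ?_ (by norm_num) (by norm_num) (by norm_num)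
        (h.inY hr0 hX ht1 hm hb (by norm_num) (by norm_num))
        (h.inZ hr0 hX ht1 hb (by norm_num) (by norm_num)) (by norm_num)
        (h.S1f ht1 hm (S := 23258 / 10000) (by norm_num) (by norm_num) (by norm_num) ?_) ?_
        (by norm_num) (by norm_num)
        (ex_neg 0 (9947 / 10000) (by norm_num) (by norm_num) (by norm_num) (by norm_num))
        (ex_neg 1 (404 / 10000) (by norm_num) (by norm_num) (by norm_num) (by norm_num))
        (by norm_num) (by norm_num)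
        (ex_neg 4 (2630 / 10000) (by norm_num) (by norm_num) (by norm_num) (by norm_num))
        (ex_neg 4 (6282 / 10000) (by norm_num) (by norm_num) (by norm_num) (by norm_num))
        (by norm_num) (by norm_num)).mono (by norm_num) le_rfl (by norm_num)
      · have h1 : (33 / 50 : ℝ) ^ (2 : ℕ) ≤ x ^ (2 : ℕ) := pow_le_pow_left₀ (by norm_num) ha 2
        linarith only [hXx, h1]
      · rw [h.hy]
        nlinarith only [mul_nonneg (sub_nonneg.2 hp1) (sub_nonneg.2 h.p1.le), mul_nonneg (mul_nonneg (sub_nonneg.2 hp1) (sub_nonneg.2 h.p1.le)) hp0.le]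
      · rw [Real.sqrt_le_left (by norm_num)]
        linarith only [hP]
    · have hy := h.y_le ht hx75
      have hP := h.PPle (y1 := 7175 / 100000) (p1 := 963457 / 1000000) (P := 1086 / 1000)
        (by linarith only [hy]) (by norm_num) (by norm_num) (by norm_num)
      refine (h.imgX hr0 (η := 4267 / 10000) (ζ := 7719 / 1000) (τ := 4043 / 10000)
        (X0 := 2307 / 100)
        (S1 := 1572 / 1000) (S2 := 1043 / 1000) (d1 := 1) (d2 := 1)
        (E1 := 4368 / 1000) (E2 := 4828 / 1000) (ex1 := 12685 / 1000000)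
        (ex2 := 8008 / 1000000)
        (c1 := 44 / 100) (c2 := 262 / 1000)
        ht1 (by norm_num) ?_ (by norm_num) (by norm_num) (by norm_num)
        (h.inY hr0 hX ht1 hm hx75 (by norm_num) (by norm_num))
        (h.inZ hr0 hX ht1 hx75 (by norm_num) (by norm_num)) (by norm_num)
        (h.S1c ht1 hP (by norm_num) (by norm_num)) ?_
        (by norm_num) (by norm_num)
        (exp_le_one_iff.2 (by norm_num)) (exp_le_one_iff.2 (by norm_num))
        (by norm_num) (by norm_num)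
        (ex_neg 4 (368 / 1000) (by norm_num) (by norm_num) (by norm_num) (by norm_num))
        (ex_neg 4 (828 / 1000) (by norm_num) (by norm_num) (by norm_num) (by norm_num))
        (by norm_num) (by norm_num)).mono (by norm_num) le_rfl (by norm_num)
      · have h1 : (17 / 25 : ℝ) ^ (2 : ℕ) ≤ x ^ (2 : ℕ) := pow_le_pow_left₀ (by norm_num) hb 2
        linarith only [hXx, h1]
      · rw [Real.sqrt_le_left (by norm_num)]
        linarith only [hP]

/-- `φ > 3m/5` -/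
theorem Pr.imgB (h : Pr ρ t p y x) (hr : 499 / 10 ≤ r) (hX : X = r * x ^ (2 : ℕ)) (hX1 : 108 / 5 ≤ X)
    (hX2 : X ≤ 80) (ht : 14 / 5 ≤ t) (ht1 : t ≤ π) (hT : 3 / 5 * mm ρ ≤ 2 * π - t) :
    gIok r ρ t (14 / 5) X (71 / 100) := by
  have hr0 : 0 < r := by linarith only [hr, hX]
  have ht0 := h.t0
  have hx0 := h.x0
  have hy0 := h.y0
  have hp0 := h.p0
  have hm0 := h.m0
  have hpi := Real.pi_gt_d4
  have hx1 := h.x_le hr hX hX2
  have hφ0 : 0 < 2 * π - t := by linarith only [ht, ht1]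
  have hXx : 499 / 10 * x ^ (2 : ℕ) ≤ X := by
    rw [hX]
    exact mul_le_mul_of_nonneg_right hr (sq_nonneg x)
  have hy1 : y ≤ 2045 / 10000 := by
    have := h.y_le ht hx1
    norm_num at this
    linarith only [this]
  rcases le_total (mm ρ) (2 * π - t) with hm | hm
  · -- `φ > m`
    have hY := h.Ybig hr0 hφ0 hm
    have hu := h.u0
    have hY1 : 331 / 1000 * (80 : ℝ) ≤ r * (SokamDz.rA ρ (2 * π - t) * (2 * π - t) ^ (2 : ℕ)) := by
      refine le_trans ?_ hY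
      linarith only [hr, mul_pos hr0 hu]
    have hZ1 : 2708 / 1000 * (80 : ℝ) ≤ r * (11 / 25 * (2 * π - t) ^ (2 : ℕ)) := by
      have := h.phi2 ht1
      nlinarith only [hr, this]
    have hP := h.PPle (y1 := 2045 / 10000) (p1 := 8919 / 10000) (P := 1268 / 1000)
      hy1 (by norm_num) (by norm_num) (by norm_num)
    refine (h.imgX hr0 (X := 80) (η := 331 / 1000) (ζ := 2708 / 1000) (τ := 294 / 1000) (X0 := 80)
      (S1 := 17 / 10) (S2 := 1127 / 1000) (d1 := 1) (d2 := 1)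
      (E1 := 73 / 10) (E2 := 99 / 10) (ex1 := 7 / 10000)
      (ex2 := 1 / 10000)
      (c1 := 1 / 10) (c2 := 1 / 10)
      ht1 (by norm_num) le_rfl (by norm_num) (by norm_num) (by norm_num) hY1 hZ1 (by norm_num)
      (h.S1c ht1 hP (by norm_num) (by norm_num)) ?_
      (by norm_num) (by norm_num)
      (exp_le_one_iff.2 (by norm_num)) (exp_le_one_iff.2 (by norm_num))
      (by norm_num) (by norm_num)
      (ex_neg 7 (3 / 10) (by norm_num) (by norm_num) (by norm_num) (by norm_num))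
      (ex_neg 9 (9 / 10) (by norm_num) (by norm_num) (by norm_num) (by norm_num))
      (by norm_num) (by norm_num)).mono (by norm_num) hX2 (by norm_num)
    rw [Real.sqrt_le_left (by norm_num)]
    linarith only [hP]
  · have hwx : 2 * π - t = (2 * π - t) / t * t := by field_simp
    obtain ⟨w, hwd⟩ : ∃ w, w = (2 * π - t) / t := ⟨_, rfl⟩
    rw [← hwd] at hwx
    have hw0 : 0 < w := by rw [hwd]; (clear * - hφ0 ht; positivity)
    have hw1 : 1 ≤ w := by
      rw [hwd, le_div_iff₀ ht0]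
      linarith only [ht1]
    have hz : w * x * mm ρ = 5 / 4 * (2 * π - t) := by
      have h1 := h.tm
      rw [div_eq_iff hm0.ne'] at h1
      rw [hwx]
      linear_combination (-(5 / 4) * w) * h1
    have hz1 : 3 / 4 ≤ w * x := by
      have : 3 / 4 * mm ρ ≤ w * x * mm ρ := by linarith only [hT, hz]
      exact le_of_mul_le_mul_right this hm0
    have hz2 : w * x ≤ 5 / 4 := by
      have : w * x * mm ρ ≤ 5 / 4 * mm ρ := by linarith only [hm, hz]
      exact le_of_mul_le_mul_right this hm0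
    have hx5 : x ≤ 5 / 4 := by nlinarith only [hw1, hz2]
    rcases le_total x (3 / 4) with ha | ha
    · -- `X' = (9/16) r`
      have hY1 : 404 / 1000 * (9 / 16 * r) ≤
          r * (SokamDz.rA ρ (2 * π - t) * (2 * π - t) ^ (2 : ℕ)) := by
        rw [h.Yw hX hw0 hwx.symm hm, hX]
        have e : r * x ^ (2 : ℕ) * (w ^ (2 : ℕ) * (aa p - 8 / 25 *
            ((4 / 5 * (w * x)) / 3 + 5 * (4 / 5 * (w * x)) ^ (2 : ℕ) / 48))) =
            r * ((w * x) ^ (2 : ℕ) * (aa p - 8 / 25 *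
            ((4 / 5 * (w * x)) / 3 + 5 * (4 / 5 * (w * x)) ^ (2 : ℕ) / 48))) := by ring
        rw [e]
        have ha0 := aa_pos hp0 h.p1
        generalize w * x = z at hz1 hz2
        have h2 : z ^ (2 : ℕ) * (12 / 25 - 8 / 25 * ((4 / 5 * z) / 3 + 5 * (4 / 5 * z) ^ (2 : ℕ) / 48)) ≤
            z ^ (2 : ℕ) * (aa p - 8 / 25 * ((4 / 5 * z) / 3 + 5 * (4 / 5 * z) ^ (2 : ℕ) / 48)) :=
          mul_le_mul_of_nonneg_left (by linarith only [ha0]) (sq_nonneg z)
        have h3 : 404 / 1000 * (9 / 16) ≤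
            z ^ (2 : ℕ) * (12 / 25 - 8 / 25 * ((4 / 5 * z) / 3 + 5 * (4 / 5 * z) ^ (2 : ℕ) / 48)) := by
          nlinarith only [mul_nonneg (sub_nonneg.2 hz1) (sub_nonneg.2 hz2), mul_nonneg (mul_nonneg (sub_nonneg.2 hz1) (sub_nonneg.2 hz2)) (sq_nonneg z), mul_nonneg (mul_nonneg (sub_nonneg.2 hz1) (sub_nonneg.2 hz2)) (sub_nonneg.2 hz1)]
        have h5 : r * (404 / 1000 * (9 / 16)) ≤ r * (z ^ (2 : ℕ) * (aa p - 8 / 25 *
            ((4 / 5 * z) / 3 + 5 * (4 / 5 * z) ^ (2 : ℕ) / 48))) :=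
          mul_le_mul_of_nonneg_left (h3.trans h2) hr0.le
        linarith only [h5]
      have hZ1 : 7719 / 1000 * (9 / 16 * r) ≤ r * (11 / 25 * (2 * π - t) ^ (2 : ℕ)) := by
        have := h.phi2 ht1
        nlinarith only [hr0, this]
      have hy := h.y_le ht ha
      have hP := h.PPle (y1 := 7175 / 100000) (p1 := 963457 / 1000000) (P := 1086 / 1000)
        (by linarith only [hy]) (by norm_num) (by norm_num) (by norm_num)
      refine (h.imgX hr0 (X := 9 / 16 * r) (η := 404 / 1000) (ζ := 7719 / 1000) (τ := 383 / 1000)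
        (X0 := 28)
        (S1 := 1572 / 1000) (S2 := 1043 / 1000) (d1 := 1) (d2 := 1)
        (E1 := 477 / 100) (E2 := 529 / 100) (ex1 := 85 / 10000)
        (ex2 := 505 / 100000)
        (c1 := 50 / 100) (c2 := 17 / 100)
        ht1 (by norm_num) (by linarith only [hr]) (by norm_num) (by norm_num) (by norm_num) hY1 hZ1
        (by norm_num)
        (h.S1c ht1 hP (by norm_num) (by norm_num)) ?_
        (by norm_num) (by norm_num)
        (exp_le_one_iff.2 (by norm_num)) (exp_le_one_iff.2 (by norm_num))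
        (by norm_num) (by norm_num)
        (ex_neg 4 (77 / 100) (by norm_num) (by norm_num) (by norm_num) (by norm_num))
        (ex_neg 5 (29 / 100) (by norm_num) (by norm_num) (by norm_num) (by norm_num))
        (by norm_num) (by norm_num)).mono (by norm_num) ?_ (by norm_num)
      · rw [Real.sqrt_le_left (by norm_num)]
        linarith only [hP]
      · rw [hX]
        have : x ^ (2 : ℕ) ≤ (3 / 4) ^ (2 : ℕ) := pow_le_pow_left₀ hx0.le ha 2
        nlinarith only [hr0, this]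
    · rcases le_total x (19 / 20) with hb | hb
      · have hy := h.y_le ht hb
        have hP := h.PPle (y1 := 1152 / 10000) (p1 := 9406 / 10000) (P := 11416 / 10000)
          (by linarith only [hy]) (by norm_num) (by norm_num) (by norm_num)
        refine (h.imgX hr0 (η := 416 / 1000) (ζ := 481 / 100) (τ := 3828 / 10000)
          (X0 := 28)
          (S1 := 1612 / 1000) (S2 := 1069 / 1000) (d1 := 1) (d2 := 1)
          (E1 := 476 / 100) (E2 := 559 / 100) (ex1 := 86 / 10000)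
          (ex2 := 38 / 10000)
          (c1 := 52 / 100) (c2 := 13 / 100)
          ht1 (by norm_num) ?_ (by norm_num) (by norm_num) (by norm_num)
          (h.inY hr0 hX ht1 hm hb (by norm_num) (by norm_num))
          (h.inZ hr0 hX ht1 hb (by norm_num) (by norm_num)) (by norm_num)
          (h.S1c ht1 hP (by norm_num) (by norm_num)) ?_
          (by norm_num) (by norm_num)
          (exp_le_one_iff.2 (by norm_num)) (exp_le_one_iff.2 (by norm_num))
          (by norm_num) (by norm_num)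
          (ex_neg 4 (76 / 100) (by norm_num) (by norm_num) (by norm_num) (by norm_num))
          (ex_neg 5 (59 / 100) (by norm_num) (by norm_num) (by norm_num) (by norm_num))
          (by norm_num) (by norm_num)).mono (by norm_num) le_rfl (by norm_num)
        · have h1 : (3 / 4 : ℝ) ^ (2 : ℕ) ≤ x ^ (2 : ℕ) := pow_le_pow_left₀ (by norm_num) ha 2
          linarith only [hXx, h1]
        · rw [Real.sqrt_le_left (by norm_num)]
          linarith only [hP]
      · have hP := h.PPle (y1 := 2045 / 10000) (p1 := 8919 / 10000) (P := 1268 / 1000)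
          hy1 (by norm_num) (by norm_num) (by norm_num)
        refine (h.imgX hr0 (η := 403 / 1000) (ζ := 2779 / 1000) (τ := 3519 / 10000)
          (X0 := 45)
          (S1 := 17 / 10) (S2 := 1127 / 1000) (d1 := 1) (d2 := 1)
          (E1 := 64 / 10) (E2 := 84 / 10) (ex1 := 17 / 10000)
          (ex2 := 3 / 10000)
          (c1 := 2 / 10) (c2 := 1 / 10)
          ht1 (by norm_num) ?_ (by norm_num) (by norm_num) (by norm_num)
          (h.inY hr0 hX ht1 hm hx5 (by norm_num) (by norm_num))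
          (h.inZ hr0 hX ht1 hx5 (by norm_num) (by norm_num)) (by norm_num)
          (h.S1c ht1 hP (by norm_num) (by norm_num)) ?_
          (by norm_num) (by norm_num)
          (exp_le_one_iff.2 (by norm_num)) (exp_le_one_iff.2 (by norm_num))
          (by norm_num) (by norm_num)
          (ex_neg 6 (4 / 10) (by norm_num) (by norm_num) (by norm_num) (by norm_num))
          (ex_neg 8 (4 / 10) (by norm_num) (by norm_num) (by norm_num) (by norm_num))
          (by norm_num) (by norm_num)).mono (by norm_num) le_rfl (by norm_num)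
        · have h1 : (19 / 20 : ℝ) ^ (2 : ℕ) ≤ x ^ (2 : ℕ) := pow_le_pow_left₀ (by norm_num) hb 2
          linarith only [hXx, h1]
        · rw [Real.sqrt_le_left (by norm_num)]
          linarith only [hP]

end SokamDz

end
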