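import Pool.Agent.Lib_MP_af4de1_zy.Z45
import Pool.Agent.Lib_MP_af4de1_zy.Z125

/-! ### Lib_MP_af4de1_f1.MainB6 -/

section
namespace SokamF1G
end SokamF1G
namespace SokamF1M
end SokamF1M
namespace SokamPG
end SokamPG
namespace SokamU
end SokamU
/-!
# LEMMA MAIN: the numbers for `0 ≤ y`
-/

set_option autoImplicit false

open Complex MeasureTheory Set SokamU SokamPG SokamF1G SokamF1M

namespace SokamF1B

theorem mul_exp_neg_le {B a : ℝ} (ha : 0 < a) : B * Real.exp (-(B / a)) ≤ a * Real.exp (-1) := by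
  have h := Real.add_one_le_exp (B / a - 1)
  have h1 : B / a ≤ Real.exp (B / a - 1) := by linarith
  have h2 : B ≤ a * Real.exp (B / a - 1) := by
    rw [div_le_iff₀ ha] at h1
    linarith
  have h3 : Real.exp (B / a - 1) * Real.exp (-(B / a)) = Real.exp (-1) := by
    rw [← Real.exp_add]
    congr 1
    ring
  calc B * Real.exp (-(B / a)) ≤ a * Real.exp (B / a - 1) * Real.exp (-(B / a)) :=
        mul_le_mul_of_nonneg_right h2 (Real.exp_pos _).le
    _ = a * Real.exp (-1) := by rw [mul_assoc, h3]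

theorem mul_exp_mono {B b c a : ℝ} (ha : 0 < a) (hb : b ≤ B) (hc : 1 / a ≤ c) :
    B * Real.exp (-(c * B)) ≤ a * Real.exp (-1) * Real.exp (-((c - 1 / a) * b)) := by
  have h1 := mul_exp_neg_le (B := B) ha
  have h2 : Real.exp (-(c * B)) = Real.exp (-(B / a)) * Real.exp (-((c - 1 / a) * B)) := by
    rw [← Real.exp_add]
    congr 1
    ring
  have h3 : Real.exp (-((c - 1 / a) * B)) ≤ Real.exp (-((c - 1 / a) * b)) := by
    apply Real.exp_le_exp.2
    have := mul_le_mul_of_nonneg_left hb (sub_nonneg.2 hc)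
    linarith
  rw [h2, ← mul_assoc]
  exact mul_le_mul h1 h3 (Real.exp_pos _).le (by positivity)

theorem exp_neg_nat_le {n : ℕ} {a : ℝ} (ha : 0 < a) (h : a ≤ (2718 / 1000 : ℝ) ^ n) :
    Real.exp (-(n : ℝ)) ≤ 1 / a := by
  rw [Real.exp_neg, ← one_div]
  refine one_div_le_one_div_of_le ha (h.trans ?_)
  have h1 := Real.exp_one_gt_d9
  have h2 : Real.exp (n : ℝ) = Real.exp 1 ^ n := by
    rw [← Real.exp_nat_mul, mul_one]
  rw [h2]
  exact pow_le_pow_left₀ (by norm_num) (by linarith) n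

section

variable {x y δ r : ℝ}

theorem dl {k : ℝ} (hr : 499 / 10 ≤ r) (hδ : 0 < δ) (hrd : r * δ = k) : δ ≤ k / (499 / 10) := by
  rw [le_div_iff₀ (by norm_num), ← hrd, mul_comm]
  exact mul_le_mul_of_nonneg_right hr hδ.le

theorem j2_pos {B : ℝ} (hB : 0 < B) :
    ∫ s in Ioo (0 : ℝ) 1, s ^ (2 : ℕ) * Real.exp (-(B * (7 / 10 * s ^ (2 : ℕ)))) ≤
      757 / 1000 / (B * √B) := by
  have hm : (0 : ℝ) < 7 / 10 * B := by positivity
  have h1 : ∫ s in Ioo (0 : ℝ) 1, s ^ (2 : ℕ) * Real.exp (-(B * (7 / 10 * s ^ (2 : ℕ)))) ≤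
      ∫ s in Ioi (0 : ℝ), s ^ (2 : ℕ) * Real.exp (-(7 / 10 * B * s ^ (2 : ℕ))) := by
    have e : ∀ s : ℝ, s ^ (2 : ℕ) * Real.exp (-(B * (7 / 10 * s ^ (2 : ℕ)))) =
        s ^ (2 : ℕ) * Real.exp (-(7 / 10 * B * s ^ (2 : ℕ))) := by
      intro s
      congr 3
      ring
    simp_rw [e]
    refine setIntegral_mono_set (ii_m2 hm) ?_ ?_
    · exact Filter.Eventually.of_forall fun s => by positivity
    · have : Ioo (0 : ℝ) 1 ⊆ Ioi 0 := fun s hs => hs.1
      exact this.eventuallyLE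
  refine h1.trans ?_
  rw [int_m2 hm]
  have hs : 0 < √B := Real.sqrt_pos.2 hB
  have h2 : √(Real.pi / (7 / 10 * B)) ≤ 21196 / 10000 / √B := by
    rw [Real.sqrt_le_left (by positivity), div_pow, Real.sq_sqrt hB.le,
      div_le_div_iff₀ hm hB]
    have hp := Real.pi_lt_d4
    have hp2 : Real.pi ≤ 31416 / 10000 := by
      norm_num at hp ⊢
      linarith
    have := mul_le_mul_of_nonneg_right hp2 hB.le
    linarith
  calc √(Real.pi / (7 / 10 * B)) / (4 * (7 / 10 * B)) ≤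
        21196 / 10000 / √B / (4 * (7 / 10 * B)) := by gcongr
    _ = 757 / 1000 / (B * √B) := by
        field_simp
        norm_num

theorem j3_pos {B : ℝ} (hB : 0 < B) :
    ∫ s in Ioo (0 : ℝ) 1, s ^ (3 : ℕ) * Real.exp (-(B * (7 / 10 * s ^ (2 : ℕ)))) ≤ 50 / 49 / B ^ (2 : ℕ) := by
  have hm : (0 : ℝ) < 7 / 10 * B := by positivity
  have h1 : ∫ s in Ioo (0 : ℝ) 1, s ^ (3 : ℕ) * Real.exp (-(B * (7 / 10 * s ^ (2 : ℕ)))) ≤
      ∫ s in Ioi (0 : ℝ), s ^ (3 : ℕ) * Real.exp (-(7 / 10 * B * s ^ (2 : ℕ))) := by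
    have e : ∀ s : ℝ, s ^ (3 : ℕ) * Real.exp (-(B * (7 / 10 * s ^ (2 : ℕ)))) =
        s ^ (3 : ℕ) * Real.exp (-(7 / 10 * B * s ^ (2 : ℕ))) := by
      intro s
      congr 3
      ring
    simp_rw [e]
    refine setIntegral_mono_set (ii_m3 hm) ?_ ?_
    · refine (ae_restrict_iff' measurableSet_Ioi).2 (Filter.Eventually.of_forall fun s hs => ?_)
      have : (0 : ℝ) < s := hs
      simp only [Pi.zero_apply]
      positivity
    · have : Ioo (0 : ℝ) 1 ⊆ Ioi 0 := fun s hs => hs.1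
      exact this.eventuallyLE
  refine h1.trans ?_
  rw [int_m3 hm]
  apply le_of_eq
  field_simp
  norm_num

/-- `HypH` for `0 ≤ y`. -/
theorem hyp_pos (hx : 0 ≤ x) (hy : 0 ≤ y) (hy1 : y ≤ 18 / 25) (hδ : 0 < δ) :
    HypH x y δ (10 / 11) (11 / 20) (757 / 1000) (50 / 49) (fun s => 7 / 10 * s ^ (2 : ℕ)) := by
  have hD : DomG x y := ⟨hx, by linarith, hy1, by nlinarith [sq_nonneg x]⟩
  have hq : 0 < Qf x y := by
    unfold Qf
    have h1 : (1 / (1 + x)) ^ (2 : ℕ) ≤ 1 := by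
      have h2 : 1 / (1 + x) ≤ 1 := by
        rw [div_le_one (by linarith)]
        linarith
      have h3 : 0 ≤ 1 / (1 + x) := by positivity
      nlinarith
    have h4 : 0 < (1 + y) / (1 + x) := by positivity
    have h5 : 0 ≤ x * (1 - (1 / (1 + x)) ^ (2 : ℕ)) / 2 := by
      have : 0 ≤ 1 - (1 / (1 + x)) ^ (2 : ℕ) := by linarith
      positivity
    have h6 : (1 / (1 + x)) ^ (2 : ℕ) = 1 / (1 + x) ^ (2 : ℕ) := by
      rw [div_pow, one_pow]
    linarith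
  have hB : 0 < Qf x y / δ := by positivity
  refine ⟨hx, hδ, ?_, hq, by norm_num, by norm_num, ?_, ?_, by fun_prop, ?_, j2_pos hB, j3_pos hB⟩
  · rw [abs_of_nonneg hy]
    linarith
  · intro s h0 h1
    refine le_trans ?_ (G1_pos hD hy h0 h1)
    have h2 : 10 / 11 ≤ 1 - s ^ (2 : ℕ) / 11 := by nlinarith
    gcongr
  · intro s h0 h1
    have h2 := G3_pos hD hy (s := -s) (by linarith) (by linarith)
    refine le_trans ?_ h2
    have h3 : 7 / 10 * s ^ (2 : ℕ) ≤ (1 + 3 / 10 * (-s)) * (-s) ^ (2 : ℕ) := by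
      have : 0 ≤ (1 - s) * s ^ (2 : ℕ) := mul_nonneg (by linarith) (sq_nonneg s)
      nlinarith
    calc 7 / 10 * s ^ (2 : ℕ) * Qf x y ≤ (1 + 3 / 10 * (-s)) * (-s) ^ (2 : ℕ) * Qf x y :=
          mul_le_mul_of_nonneg_right h3 hq.le
      _ = _ := by ring
  · intro s h0 h1
    rcases le_total 0 s with h | h
    · rw [abs_of_nonneg h] at h0 h1
      refine le_trans ?_ (G2 hD h0 h1.le)
      have := mul_nonneg hq.le (sq_nonneg s)
      nlinarith
    · rw [abs_of_nonpos h] at h0 h1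
      refine le_trans ?_ (G3_pos hD hy (by linarith) h)
      have h2 : 11 / 20 ≤ 1 + 3 / 10 * s := by linarith
      gcongr

theorem num_pos (hx : 0 ≤ x) (hy : 0 ≤ y) (hy1 : y ≤ 18 / 25) (hδ : 0 < δ) (hr : 499 / 10 ≤ r)
    (hrd : r * δ = √(x ^ (2 : ℕ) + y ^ (2 : ℕ)) * Real.exp y) :
    Num x y δ (10 / 11) (11 / 20) (757 / 1000) (50 / 49) (51 / 50) (9 / 499) (103 / 2495)
      (6 / 499) 1 11 (82 / 10000) (766 / 10000) (2972 / 10000) (273 / 10000) (44 / 100)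
      (155 / 1000) := by
  have hdl := dl hr hδ hrd
  have H := hyp_pos hx hy hy1 hδ
  have hq := H.hq
  have hp : (31415 / 10000 : ℝ) ≤ Real.pi := by
    have := Real.pi_gt_d4
    norm_num at this ⊢
    linarith
  have hc : (1 + x)⁻¹ = 1 / (1 + x) := by rw [one_div]
  have hB : 11 ≤ Qf x y / δ := by
    rw [le_div_iff₀ hδ]
    have h1 := s1_B hx hy hy1
    linarith
  refine ⟨by norm_num, by norm_num, by norm_num, by norm_num, by norm_num, by norm_num,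
    by norm_num, by norm_num, by norm_num, by norm_num, by norm_num, by norm_num,
    ?_, ?_, ?_, ?_, ?_, hB, ?_, ?_, ?_, ?_, ?_, ?_, ?_⟩
  · rw [Wc_sq, hc]
    exact s1_l hx hy hy1
  · rw [hc]
    have h1 := s1_gam hx hy hy1
    have h2 := mul_le_mul_of_nonneg_left hdl (sq_nonneg (1 / (1 + x)))
    calc (1 / (1 + x)) ^ (2 : ℕ) * δ ≤ (1 / (1 + x)) ^ (2 : ℕ) * (√(x ^ (2 : ℕ) + y ^ (2 : ℕ)) * Real.exp y / (499 / 10)) := h2
      _ = (1 / (1 + x)) ^ (2 : ℕ) * (√(x ^ (2 : ℕ) + y ^ (2 : ℕ)) * Real.exp y) / (499 / 10) := by ring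
      _ ≤ 9 / 10 * Qf x y / (499 / 10) := by gcongr
      _ = 9 / 499 * Qf x y := by ring
  · rw [norm_K]
    have h1 := s1_mu hx hy hy1
    have h2 := mul_le_mul_of_nonneg_left hdl (sq_nonneg (√(x ^ (2 : ℕ) + y ^ (2 : ℕ))))
    calc √(x ^ (2 : ℕ) + y ^ (2 : ℕ)) ^ (2 : ℕ) * δ ≤
        √(x ^ (2 : ℕ) + y ^ (2 : ℕ)) ^ (2 : ℕ) * (√(x ^ (2 : ℕ) + y ^ (2 : ℕ)) * Real.exp y / (499 / 10)) := h2
      _ = √(x ^ (2 : ℕ) + y ^ (2 : ℕ)) ^ (3 : ℕ) * Real.exp y / (499 / 10) := by ring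
      _ ≤ 103 / 50 * √((1 + y) ^ (2 : ℕ) + x ^ (2 : ℕ)) ^ (3 : ℕ) / (499 / 10) := by gcongr
      _ = 103 / 2495 * Dn x y ^ (3 : ℕ) := by unfold Dn; ring
  · have h1 := s1_nu hx hy hy1
    calc δ ≤ √(x ^ (2 : ℕ) + y ^ (2 : ℕ)) * Real.exp y / (499 / 10) := hdl
      _ ≤ 3 / 5 * √((1 + y) ^ (2 : ℕ) + x ^ (2 : ℕ)) ^ (3 : ℕ) / (499 / 10) := by gcongr
      _ = 6 / 499 * Dn x y ^ (3 : ℕ) := by unfold Dn; ring
  · unfold Dn
    apply Real.le_sqrt_of_sq_le
    nlinarith [sq_nonneg x]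
  · norm_num
    linarith
  · norm_num
  · norm_num
    linarith
  · norm_num
    linarith
  · norm_num
    linarith
  · have h1 := mul_exp_mono (B := Qf x y / δ) (b := 11) (c := 11 / 10) (a := 10) (by norm_num) hB
      (by norm_num)
    have h2 : 10 * Real.exp (-1) * Real.exp (-((11 / 10 - 1 / 10) * 11)) =
        10 * Real.exp (-((12 : ℕ) : ℝ)) := by
      rw [mul_assoc, ← Real.exp_add]
      norm_num
    have h3 := exp_neg_nat_le (n := 12) (a := (2718 / 1000 : ℝ) ^ (12 : ℕ)) (by norm_num) le_rfl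
    rw [h2] at h1
    have h4 : Real.exp (-(2 * (11 / 20 * (Qf x y / δ)))) =
        Real.exp (-(11 / 10 * (Qf x y / δ))) := by
      congr 1
      ring
    rw [h4, mul_assoc]
    calc 51 / 50 * (Qf x y / δ * Real.exp (-(11 / 10 * (Qf x y / δ)))) ≤
          51 / 50 * (10 * (1 / (2718 / 1000 : ℝ) ^ (12 : ℕ))) := by
          refine mul_le_mul_of_nonneg_left (h1.trans ?_) (by norm_num)
          linarith
      _ ≤ 31415 / 10000 * (82 / 10000) ^ (2 : ℕ) * (11 / 20) ^ (2 : ℕ) := by norm_num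
      _ ≤ Real.pi * (82 / 10000) ^ (2 : ℕ) * (11 / 20) ^ (2 : ℕ) := by gcongr
  · have h1 := mul_exp_mono (B := Qf x y / δ) (b := 11) (c := 2) (a := 11) (by norm_num) hB
      (by norm_num)
    have h2 : 11 * Real.exp (-1) * Real.exp (-((2 - 1 / 11) * 11)) =
        11 * Real.exp (-((22 : ℕ) : ℝ)) := by
      rw [mul_assoc, ← Real.exp_add]
      norm_num
    have h3 := exp_neg_nat_le (n := 22) (a := (2718 / 1000 : ℝ) ^ (22 : ℕ)) (by norm_num) le_rfl
    rw [h2] at h1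
    have h4 : Real.exp (-(2 * (1 * (Qf x y / δ)))) = Real.exp (-(2 * (Qf x y / δ))) := by
      congr 1
      ring
    rw [h4, mul_assoc]
    calc 51 / 50 * (Qf x y / δ * Real.exp (-(2 * (Qf x y / δ)))) ≤
          51 / 50 * (11 * (1 / (2718 / 1000 : ℝ) ^ (22 : ℕ))) := by
          refine mul_le_mul_of_nonneg_left (h1.trans ?_) (by norm_num)
          linarith
      _ ≤ 31415 / 10000 * (1 / 1000) ^ (2 : ℕ) * 1 ^ (2 : ℕ) := by norm_num
      _ ≤ Real.pi * (1 / 1000) ^ (2 : ℕ) * 1 ^ (2 : ℕ) := by gcongr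

end

end SokamF1B

end
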