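import Pool.Agent.Lib_MP_af4de1_zy.Z83
import Pool.Agent.Lib_MP_af4de1_zy.Z85
import Pool.Agent.Lib_MP_af4de1_zy.Z86
import Pool.Agent.Lib_MP_af4de1_zy.Z88
import Pool.Agent.Lib_MP_af4de1_zy.Z99
import Pool.Agent.Lib_MP_af4de1_zy.Z100
import Pool.Agent.Lib_MP_af4de1_zy.Z101
import Pool.Agent.Lib_MP_af4de1_zy.Z102
import Pool.Agent.Lib_MP_af4de1_zy.Z103
import Pool.Agent.Lib_MP_af4de1_zy.Z104
import Pool.Agent.Lib_MP_af4de1_zy.Z105
import Pool.Agent.Lib_MP_af4de1_zy.Z106
import Pool.Agent.Lib_MP_af4de1_zy.Z107
import Pool.Agent.Lib_MP_af4de1_zy.Z112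
import Pool.Agent.Lib_MP_af4de1_zy.Z113
import Pool.Agent.Lib_MP_af4de1_zy.Z114
import Pool.Agent.Lib_MP_af4de1_zy.Z115
import Pool.Agent.Lib_MP_af4de1_zy.Z126
import Pool.Agent.Lib_MP_af4de1_zy.Z127
import Pool.Agent.Lib_MP_af4de1_zy.Z128
import Pool.Agent.Lib_MP_af4de1_zy.Z129

/-! ### Lib_MP_af4de1_fu.T.Or0 -/

section
set_option autoImplicit false

namespace SokamFU

theorem or1 : ordN 4000 dat1 dat2 = true := by decide +kernel

theorem or2 : ordN 4000 dat2 dat3 = true := by decide +kernel

theorem or3 : ordN 4000 dat3 dat4 = true := by decide +kernel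

theorem or4 : ordN 4000 dat4 dat5 = true := by decide +kernel

theorem or5 : ordN 4000 dat5 dat6 = true := by decide +kernel

theorem or6 : ordN 4000 dat6 dat7 = true := by decide +kernel

theorem or7 : ordN 4000 dat7 dat8 = true := by decide +kernel

theorem or8 : ordN 4000 dat8 dat9 = true := by decide +kernel

theorem or9 : ordN 4000 dat9 dat10 = true := by decide +kernel

theorem or10 : ordN 4000 dat10 dat11 = true := by decide +kernel

theorem or11 : ordN 4000 dat11 dat12 = true := by decide +kernel

theorem or12 : ordN 4000 dat12 dat13 = true := by decide +kernel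

theorem or13 : ordN 4000 dat13 dat14 = true := by decide +kernel

theorem or14 : ordN 4000 dat14 dat15 = true := by decide +kernel

theorem or15 : ordN 4000 dat15 dat16 = true := by decide +kernel

theorem or16 : ordN 4000 dat16 dat17 = true := by decide +kernel

theorem or17 : ordN 4000 dat17 dat18 = true := by decide +kernel

theorem or18 : ordN 4000 dat18 dat19 = true := by decide +kernel

theorem or19 : ordN 4000 dat19 dat20 = true := by decide +kernel

theorem or20 : ordN 4000 dat20 dat21 = true := by decide +kernel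

theorem or21 : ordN 4000 dat21 dat22 = true := by decide +kernel

end SokamFU

end

/-! ### Lib_MP_af4de1_fu.T.Or1 -/

section
set_option autoImplicit false

namespace SokamFU

theorem or22 : ordN 4000 dat22 dat23 = true := by decide +kernel

theorem or23 : ordN 4000 dat23 dat24 = true := by decide +kernel

theorem or24 : ordN 4000 dat24 dat25 = true := by decide +kernel

theorem or25 : ordN 4000 dat25 dat26 = true := by decide +kernel

theorem or26 : ordN 4000 dat26 dat27 = true := by decide +kernel

theorem or27 : ordN 4000 dat27 dat28 = true := by decide +kernel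

theorem or28 : ordN 4000 dat28 dat29 = true := by decide +kernel

theorem or29 : ordN 4000 dat29 dat30 = true := by decide +kernel

theorem or30 : ordN 4000 dat30 dat31 = true := by decide +kernel

end SokamFU

end

/-! ### Lib_MP_af4de1_fu.T.Or2 -/

section
set_option autoImplicit false

namespace SokamFU

theorem or31 : ordN 4000 dat31 dat32 = true := by decide +kernel

theorem or32 : ordN 4000 dat32 dat33 = true := by decide +kernel

theorem or33 : ordN 4000 dat33 dat34 = true := by decide +kernel

theorem or34 : ordN 4000 dat34 dat35 = true := by decide +kernel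

theorem or35 : ordN 4000 dat35 dat36 = true := by decide +kernel

theorem or36 : ordN 4000 dat36 dat37 = true := by decide +kernel

end SokamFU

end

/-! ### Lib_MP_af4de1_fu.T.Or3 -/

section
set_option autoImplicit false

namespace SokamFU

theorem or37 : ordN 4000 dat37 dat38 = true := by decide +kernel

theorem or38 : ordN 4000 dat38 dat39 = true := by decide +kernel

theorem or39 : ordN 4000 dat39 dat40 = true := by decide +kernel

theorem or40 : ordN 4000 dat40 dat41 = true := by decide +kernel

theorem or41 : ordN 4000 dat41 dat42 = true := by decide +kernel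

end SokamFU

end

/-! ### Lib_MP_af4de1_fu.T.Or4 -/

section
set_option autoImplicit false

namespace SokamFU

theorem or42 : ordN 4000 dat42 dat43 = true := by decide +kernel

theorem or43 : ordN 4000 dat43 dat44 = true := by decide +kernel

theorem or44 : ordN 4000 dat44 dat45 = true := by decide +kernel

theorem or45 : ordN 4000 dat45 dat46 = true := by decide +kernel

theorem or46 : ordN 4000 dat46 dat47 = true := by decide +kernel

end SokamFU

end

/-! ### Lib_MP_af4de1_fu.T.Or5 -/

section
set_option autoImplicit false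

namespace SokamFU

theorem or47 : ordN 4000 dat47 dat48 = true := by decide +kernel

theorem or48 : ordN 4000 dat48 dat49 = true := by decide +kernel

theorem or49 : ordN 4000 dat49 dat50 = true := by decide +kernel

theorem or50 : ordN 4000 dat50 dat51 = true := by decide +kernel

end SokamFU

end

/-! ### Lib_MP_af4de1_fu.T.Or6 -/

section
set_option autoImplicit false

namespace SokamFU

theorem or51 : ordN 4000 dat51 dat52 = true := by decide +kernel

theorem or52 : ordN 4000 dat52 dat53 = true := by decide +kernel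

theorem or53 : ordN 4000 dat53 dat54 = true := by decide +kernel

end SokamFU

end

/-! ### Lib_MP_af4de1_fu.T.Or7 -/

section
set_option autoImplicit false

namespace SokamFU

theorem or54 : ordN 4000 dat54 dat55 = true := by decide +kernel

end SokamFU

end

/-! ### Lib_MP_af4de1_fu.F3 -/

section
namespace SokamF
end SokamF
/-!
# F3: the zeros of modulus at most 50 over `[2/25, π]`
-/

set_option autoImplicit false

namespace SokamFU

open Set SokamF

/-- the table of all tubes -/
def tbl : List (List ℕ) := [dat1, dat2, dat3, dat4, dat5, dat6, dat7, dat8, dat9, dat10, dat11, dat12, dat13, dat14, dat15, dat16, dat17, dat18, dat19, dat20, dat21, dat22, dat23, dat24, dat25, dat26, dat27, dat28, dat29, dat30, dat31, dat32, dat33, dat34, dat35, dat36, dat37, dat38, dat39, dat40, dat41, dat42, dat43, dat44, dat45, dat46, dat47, dat48, dat49, dat50, dat51, dat52, dat53, dat54, dat55]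

theorem tbl_T : ∀ L ∈ tbl, ∀ x ∈ L, (Pc.dec x).T := by
  simp only [tbl, List.forall_mem_cons, List.not_mem_nil, false_imp_iff, implies_true, and_true]
  exact ⟨flats_T goodK_spec blks_ok tu1, flats_T goodK_spec blks_ok tu2, flats_T goodK_spec blks_ok tu3, flats_T goodK_spec blks_ok tu4, flats_T goodK_spec blks_ok tu5, flats_T goodK_spec blks_ok tu6, flats_T goodK_spec blks_ok tu7, flats_T goodK_spec blks_ok tu8, flats_T goodK_spec blks_ok tu9, flats_T goodK_spec blks_ok tu10, flats_T goodK_spec blks_ok tu11, flats_T goodK_spec blks_ok tu12, flats_T goodK_spec blks_ok tu13, flats_T goodK_spec blks_ok tu14, flats_T goodK_spec blks_ok tu15, flats_T goodK_spec blks_ok tu16, flats_T goodK_spec blks_ok tu17, flats_T goodK_spec blks_ok tu18, flats_T goodK_spec blks_ok tu19, flats_T goodK_spec blks_ok tu20, flats_T goodK_spec blks_ok tu21, flats_T goodK_spec blks_ok tu22, flats_T goodK_spec blks_ok tu23, flats_T goodK_spec blks_ok tu24, flats_T goodK_spec blks_ok tu25, flats_T goodK_spec blks_ok tu26, flats_T goodK_spec blks_ok tu27, flats_T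 goodK_spec blks_ok tu28, flats_T goodK_spec blks_ok tu29, flats_T goodK_spec blks_ok tu30, flats_T goodK_spec blks_ok tu31, flats_T goodK_spec blks_ok tu32, flats_T goodK_spec blks_ok tu33, flats_T goodK_spec blks_ok tu34, flats_T goodK_spec blks_ok tu35, flats_T goodK_spec blks_ok tu36, flats_T goodK_spec blks_ok tu37, flats_T goodK_spec blks_ok tu38, flats_T goodK_spec blks_ok tu39, flats_T goodK_spec blks_ok tu40, flats_T goodK_spec blks_ok tu41, flats_T goodK_spec blks_ok tu42, flats_T goodK_spec blks_ok tu43, flats_T goodK_spec blks_ok tu44, flats_T goodK_spec blks_ok tu45, flats_T goodK_spec blks_ok tu46, flats_T goodK_spec blks_ok tu47, flats_T goodK_spec blks_ok tu48, flats_T goodK_spec blks_ok tu49, flats_T goodK_spec blks_ok tu50, flats_T goodK_spec blks_ok tu51, flats_T goodK_spec blks_ok tu52, flats_T goodK_spec blks_ok tu53, flats_T goodK_spec blks_ok tu54, flats_T goodK_spec blks_ok tu55⟩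

theorem tbl_C : ∀ L ∈ tbl, chainOK (L.map Pc.dec) = true := by
  simp only [tbl, List.forall_mem_cons, List.not_mem_nil, false_imp_iff, implies_true, and_true]
  exact ⟨chainN_spec _ ch1, chainN_spec _ ch2, chainN_spec _ ch3, chainN_spec _ ch4, chainN_spec _ ch5, chainN_spec _ ch6, chainN_spec _ ch7, chainN_spec _ ch8, chainN_spec _ ch9, chainN_spec _ ch10, chainN_spec _ ch11, chainN_spec _ ch12, chainN_spec _ ch13, chainN_spec _ ch14, chainN_spec _ ch15, chainN_spec _ ch16, chainN_spec _ ch17, chainN_spec _ ch18, chainN_spec _ ch19, chainN_spec _ ch20, chainN_spec _ ch21, chainN_spec _ ch22, chainN_spec _ ch23, chainN_spec _ ch24, chainN_spec _ ch25, chainN_spec _ ch26, chainN_spec _ ch27, chainN_spec _ ch28, chainN_spec _ ch29, chainN_spec _ ch30, chainN_spec _ ch31, chainN_spec _ ch32, chainN_spec _ ch33, chainN_spec _ ch34, chainN_spec _ ch35, chainN_spec _ ch36, chainN_spec _ ch37, chainN_spec _ ch38, chainN_spec _ ch39, chainN_spec _ ch40, chainN_spec _ ch41, chainN_spec _ ch42, chainN_spec _ ch43, chainN_spec _ ch44, chainN_spec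 _ ch45, chainN_spec _ ch46, chainN_spec _ ch47, chainN_spec _ ch48, chainN_spec _ ch49, chainN_spec _ ch50, chainN_spec _ ch51, chainN_spec _ ch52, chainN_spec _ ch53, chainN_spec _ ch54, chainN_spec _ ch55⟩

theorem tbl_E : ∀ L ∈ tbl, endsOK 87960930000 3454217652358 L = true := by
  simp only [tbl, List.forall_mem_cons, List.not_mem_nil, false_imp_iff, implies_true, and_true]
  exact ⟨en1, en2, en3, en4, en5, en6, en7, en8, en9, en10, en11, en12, en13, en14, en15, en16, en17, en18, en19, en20, en21, en22, en23, en24, en25, en26, en27, en28, en29, en30, en31, en32, en33, en34, en35, en36, en37, en38, en39, en40, en41, en42, en43, en44, en45, en46, en47, en48, en49, en50, en51, en52, en53, en54, en55⟩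

theorem tbl_ord : tbl.IsChain (fun a b => ordN 4000 a b = true) := by
  simp only [tbl, List.isChain_cons_cons, List.isChain_singleton, and_true]
  exact ⟨or1, or2, or3, or4, or5, or6, or7, or8, or9, or10, or11, or12, or13, or14, or15, or16, or17, or18, or19, or20, or21, or22, or23, or24, or25, or26, or27, or28, or29, or30, or31, or32, or33, or34, or35, or36, or37, or38, or39, or40, or41, or42, or43, or44, or45, or46, or47, or48, or49, or50, or51, or52, or53, or54⟩

theorem tbl_ok : ListsOK 54975581388800 95805945686261 87960930000 3454217652358 3454217652357 55 4000 (fun k => tbl.getD k []) :=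
  listsOK_of_tbl (last := dat55) rfl (by norm_num) (by norm_num) (by norm_num) (by unfold rv; norm_num) rv_hi rv_hi'
    tbl_T tbl_C tbl_E tbl_ord rfl last_ok

/-- **F3.** -/
theorem dist_F3 (H : ∀ α r : ℝ, 2 / 25 ≤ α → α ≤ Real.pi → 50 ≤ r → Dist α r) :
    ∀ α r : ℝ, 2 / 25 ≤ α → α ≤ Real.pi → r ≤ 50 → Dist α r := by
  have h := tbl_ok.dist (β := 2 / 25) rv_lo.le (fun α r h1 h2 h3 => H α r h1 h2 (by rwa [rv_R0] at h3))
  intro α r h1 h2 h3
  exact h α r h1 h2 (by rwa [rv_R0])

end SokamFU

end

/-! ### Lib_MP_af4de1_ti.W4m -/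

section
namespace SokamFU
end SokamFU
/-!
# The 12 pieces over `2/25` of `W4b` are in the lists `dat1 .. dat12`
-/

set_option autoImplicit false

namespace SokamTI

open SokamFU

theorem w4x_mem0 : w4x 0 ∈ dat1 := by decide +kernel
theorem w4x_mem1 : w4x 1 ∈ dat2 := by decide +kernel
theorem w4x_mem2 : w4x 2 ∈ dat3 := by decide +kernel
theorem w4x_mem3 : w4x 3 ∈ dat4 := by decide +kernel
theorem w4x_mem4 : w4x 4 ∈ dat5 := by decide +kernel
theorem w4x_mem5 : w4x 5 ∈ dat6 := by decide +kernel
theorem w4x_mem6 : w4x 6 ∈ dat7 := by decide +kernel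
theorem w4x_mem7 : w4x 7 ∈ dat8 := by decide +kernel
theorem w4x_mem8 : w4x 8 ∈ dat9 := by decide +kernel
theorem w4x_mem9 : w4x 9 ∈ dat10 := by decide +kernel
theorem w4x_mem10 : w4x 10 ∈ dat11 := by decide +kernel
theorem w4x_mem11 : w4x 11 ∈ dat12 := by decide +kernel

/-- the pieces over `2/25` are in every table which begins with `dat1, .., dat12` (hypothesis `hx` of `w4_of_lists`) -/
theorem w4x_mem {t : List (List ℕ)} : ∀ k < 12, w4x k ∈ (dat1 :: dat2 :: dat3 :: dat4 :: dat5 :: dat6 :: dat7 :: dat8 ::
    dat9 :: dat10 :: dat11 :: dat12 :: t).getD k [] := by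
  intro k hk
  interval_cases k
  · exact w4x_mem0
  · exact w4x_mem1
  · exact w4x_mem2
  · exact w4x_mem3
  · exact w4x_mem4
  · exact w4x_mem5
  · exact w4x_mem6
  · exact w4x_mem7
  · exact w4x_mem8
  · exact w4x_mem9
  · exact w4x_mem10
  · exact w4x_mem11

end SokamTI

end

/-! ### Lib_MP_af4de1_ti.W4 -/

section
namespace SokamF
end SokamF
namespace SokamFU
end SokamFU
/-!
# (W4) from the table of F3
-/

set_option autoImplicit false

namespace SokamTI

open SokamFU SokamF Set

/-- (W4), given the statement for `r ≥ 50` -/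
theorem w4_F3 (H : ∀ α r : ℝ, 2 / 25 ≤ α → α ≤ Real.pi → 50 ≤ r → Dist α r) :
    ∀ w, Zr (2 / 25) w → w ∈ wmap '' Ptip (2 / 25) := by
  have hx : ∀ k < 12, w4x k ∈ (fun k => tbl.getD k []) k := w4x_mem (t := [dat13, dat14, dat15, dat16, dat17, dat18, dat19, dat20, dat21, dat22, dat23, dat24, dat25, dat26, dat27, dat28, dat29, dat30, dat31, dat32, dat33, dat34, dat35, dat36, dat37, dat38, dat39, dat40, dat41, dat42, dat43, dat44, dat45, dat46, dat47, dat48, dat49, dat50, dat51, dat52, dat53, dat54, dat55])
  exact w4_of_lists tbl_ok (by norm_num) (by rw [rv_R0]; norm_num) rv_lo.le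
    (fun α r h1 h2 h3 => H α r h1 h2 (by rwa [rv_R0] at h3)) hx

end SokamTI

end
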