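import Pool.Agent.Lib_MP_af4de1_zy.Z130

/-! ### Lib_MP_af4de1_v3.RunLac -/

section
/-!
# Left runs: tree tLac (helper93)
-/

set_option autoImplicit false

namespace SokamCel

def tLac1t : BT := (.Y (.X .L (.Y (.Z .L .L) (.Z (.X .L (.Y .L (.Z .L .L))) .L))) (.X (.Y .L (.Z
  .L .L)) (.Y (.Z (.X .L (.Y (.Z (.X .L .L) .L) .L)) (.X .L .L)) (.Z (.X (.Y (.Z .L .L) (.Z (.X .L
  .L) .L)) .L) (.X .L .L)))))
theorem tLac1 : bisT (okGC (celG KLa (chkK KLa))) tLac1t 0 384829069722 0 2303000000000 0 274877906944 = true := by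
  decide +kernel

def tLac2t : BT := (.Y (.X (.Y (.Z (.X .L (.Y .L (.Z .L .L))) .L) (.Z (.X (.Y (.Z .L .L) (.Z (.X
  .L .L) .L)) (.Y (.Z (.X .L .L) .L) (.Z .L .L))) (.X .L (.Y .L .L)))) (.Y (.Z (.X (.Y .L (.Z .L
  .L)) (.Y .L (.Z (.X .L .L) .L))) (.X .L .L)) (.Z (.X (.Y (.Z (.X .L .L) .L) .L) (.Y (.Z (.X .L
  .L) (.X .L .L)) .L)) (.X (.Y .L .L) (.Y (.Z .L .L) .L))))) (.X (.Y (.Z (.X .L .L) (.X .L .L))
  .L) .L))
theorem tLac2 : bisT (okGC (celG KLa (chkK KLa))) tLac2t 384829069722 769658139444 0 2303000000000 0 274877906944 = true := by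
  decide +kernel

def tLac0t : BT := BT.X tLac1t tLac2t
theorem tLac0 : bisT (okGC (celG KLa (chkK KLa))) tLac0t 0 769658139444 0 2303000000000 0 274877906944 = true :=
  bisT_X 384829069722 tLac1 tLac2 rfl

theorem tLac : bisT (okGC (celG KLa (chkK KLa))) tLac0t 0 769658139444 0 2303000000000 0 274877906944 = true := tLac0

end SokamCel

end

/-! ### Lib_MP_af4de1_v3.RunLan -/

section
/-!
# Left runs: tree tLan (helper93)
-/

set_option autoImplicit false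

namespace SokamCel

def tLan0t : BT := (.X (.Y (.X (.Y (.Z (.X .L .L) .L) .L) (.Y (.Z (.X (.Y .L (.Z .L .L)) (.Y .L
  (.Z .L .L))) (.X .L .L)) .L)) .L) (.Y (.X (.Y (.Z (.X (.Y .L (.Z (.X .L .L) .L)) (.Y .L (.Z (.X
  .L .L) .L))) (.X .L .L)) .L) (.Y (.Z (.X (.Y .L (.Z (.X .L .L) .L)) (.Y .L (.Z (.X .L .L) .L)))
  (.X .L .L)) (.Z (.X .L (.Y .L .L)) (.X .L .L)))) .L))
theorem tLan0 : bisT (okGN (celG KLa (chkK KLa))) tLan0t 0 791648371999 0 2303000000000 0 274877906944 = true := by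
  decide +kernel

theorem tLan : bisT (okGN (celG KLa (chkK KLa))) tLan0t 0 791648371999 0 2303000000000 0 274877906944 = true := tLan0

end SokamCel

end

/-! ### Lib_MP_af4de1_v3.RunLbn -/

section
/-!
# Left runs: tree tLbn (helper93)
-/

set_option autoImplicit false

namespace SokamCel

def tLbn3t : BT := (.X (.Y (.Z (.X (.Y .L (.Z (.X .L .L) .L)) (.Y (.Z .L .L) (.Z (.X (.Y .L .L)
  (.Y .L .L)) (.X .L .L)))) (.X (.Y .L (.Z .L .L)) (.Y .L (.Z .L .L)))) .L) (.Y (.Z (.X (.Y (.Z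
  (.X .L .L) .L) (.Z (.X (.Y (.Z .L .L) .L) (.Y (.Z .L .L) .L)) (.X .L (.Y .L .L)))) (.Y (.Z (.X
  .L .L) .L) (.Z (.X (.Y (.Z .L .L) .L) (.Y (.Z .L .L) .L)) (.X (.Y .L .L) (.Y .L .L))))) (.X (.Y
  .L (.Z (.X .L .L) (.X .L .L))) (.Y (.Z .L .L) (.Z (.X .L .L) (.X .L .L))))) .L))
theorem tLbn3 : bisT (okGN (celG KLb (chkK KLb))) tLbn3t 0 395824185999 0 1151500000000 274877906944 549755813888 = true := by
  decide +kernel

def tLbn4t : BT := (.X (.Y (.Z (.X (.Y .L (.Z .L .L)) (.Y .L (.Z .L .L))) (.X .L (.Y .L (.Z .L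
  .L)))) .L) (.Y (.Z (.X (.Y .L (.Z .L .L)) (.Y .L (.Z (.X .L .L) (.X .L .L)))) (.X (.Y .L (.Z .L
  .L)) (.Y .L (.Z (.X .L .L) (.X .L .L))))) .L))
theorem tLbn4 : bisT (okGN (celG KLb (chkK KLb))) tLbn4t 0 395824185999 0 1151500000000 549755813888 824633720832 = true := by
  decide +kernel

def tLbn2t : BT := BT.Z tLbn3t tLbn4t
theorem tLbn2 : bisT (okGN (celG KLb (chkK KLb))) tLbn2t 0 395824185999 0 1151500000000 274877906944 824633720832 = true :=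
  bisT_Z 549755813888 tLbn3 tLbn4 rfl

def tLbn5t : BT := BT.L
theorem tLbn5 : bisT (okGN (celG KLb (chkK KLb))) tLbn5t 0 395824185999 1151500000000 2303000000000 274877906944 824633720832 = true := by
  decide +kernel

def tLbn1t : BT := BT.Y tLbn2t tLbn5t
theorem tLbn1 : bisT (okGN (celG KLb (chkK KLb))) tLbn1t 0 395824185999 0 2303000000000 274877906944 824633720832 = true :=
  bisT_Y 1151500000000 tLbn2 tLbn5 rfl

def tLbn9t : BT := (.Y (.Z (.X (.Y (.Z (.X .L .L) .L) (.Z (.X (.Y (.Z .L .L) .L) (.Y (.Z .L .L)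
  .L)) (.X (.Y .L .L) (.Y .L .L)))) (.Y (.Z (.X .L .L) .L) (.Z (.X (.Y (.Z .L .L) .L) (.Y (.Z .L
  .L) (.Z (.X .L .L) .L))) (.X (.Y .L .L) (.Y .L (.Z .L .L)))))) (.X (.Y (.Z .L .L) (.Z (.X .L .L)
  (.X .L .L))) (.Y (.Z .L .L) (.Z (.X .L .L) (.X .L .L))))) (.Z (.X .L .L) (.X .L .L)))
theorem tLbn9 : bisT (okGN (celG KLb (chkK KLb))) tLbn9t 395824185999 593736278999 0 1151500000000 274877906944 549755813888 = true := by
  decide +kernel

def tLbn10t : BT := (.Y (.Z (.X (.Y (.Z (.X .L .L) .L) (.Z (.X (.Y (.Z .L .L) (.Z (.X .L .L) (.X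
  .L .L))) (.Y .L (.Z (.X .L .L) .L))) (.X (.Y .L (.Z .L .L)) (.Y .L (.Z .L .L))))) (.Y (.Z (.X .L
  .L) .L) (.Z (.X (.Y .L (.Z (.X .L .L) .L)) (.Y .L (.Z (.X .L .L) .L))) (.X (.Y .L (.Z .L .L))
  .L)))) (.X (.Y (.Z .L .L) (.Z (.X .L .L) (.X .L .L))) (.Y (.Z .L .L) (.Z (.X .L .L) (.X .L
  .L))))) (.Z (.X (.Y .L .L) (.Y (.Z (.X .L .L) (.X .L .L)) .L)) (.X (.Y .L .L) (.Y (.Z (.X .L .L)
  (.X .L .L)) .L))))
theorem tLbn10 : bisT (okGN (celG KLb (chkK KLb))) tLbn10t 593736278999 791648371999 0 1151500000000 274877906944 549755813888 = true := by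
  decide +kernel

def tLbn8t : BT := BT.X tLbn9t tLbn10t
theorem tLbn8 : bisT (okGN (celG KLb (chkK KLb))) tLbn8t 395824185999 791648371999 0 1151500000000 274877906944 549755813888 = true :=
  bisT_X 593736278999 tLbn9 tLbn10 rfl

def tLbn11t : BT := (.X (.Y (.Z (.X (.Y .L (.Z (.X .L .L) (.X .L .L))) (.Y .L (.Z (.X .L .L) (.X
  .L .L)))) (.X (.Y .L (.Z (.X .L .L) (.X .L .L))) (.Y .L (.Z (.X .L .L) (.X .L .L))))) (.Z (.X .L
  (.Y .L .L)) (.X .L (.Y .L .L)))) (.Y (.Z (.X (.Y .L (.Z (.X .L .L) (.X .L .L))) (.Y .L (.Z (.X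
  .L .L) (.X .L .L)))) (.X (.Y .L (.Z (.X .L .L) (.X .L .L))) (.Y .L (.Z (.X .L .L) (.X .L .L)))))
  (.Z (.X (.Y .L .L) (.Y (.Z (.X .L .L) (.X .L .L)) .L)) (.X (.Y .L .L) (.Y (.Z (.X .L .L) (.X .L
  .L)) .L)))))
theorem tLbn11 : bisT (okGN (celG KLb (chkK KLb))) tLbn11t 395824185999 791648371999 0 1151500000000 549755813888 824633720832 = true := by
  decide +kernel

def tLbn7t : BT := BT.Z tLbn8t tLbn11t
theorem tLbn7 : bisT (okGN (celG KLb (chkK KLb))) tLbn7t 395824185999 791648371999 0 1151500000000 274877906944 824633720832 = true :=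
  bisT_Z 549755813888 tLbn8 tLbn11 rfl

def tLbn12t : BT := BT.L
theorem tLbn12 : bisT (okGN (celG KLb (chkK KLb))) tLbn12t 395824185999 791648371999 1151500000000 2303000000000 274877906944 824633720832 = true := by
  decide +kernel

def tLbn6t : BT := BT.Y tLbn7t tLbn12t
theorem tLbn6 : bisT (okGN (celG KLb (chkK KLb))) tLbn6t 395824185999 791648371999 0 2303000000000 274877906944 824633720832 = true :=
  bisT_Y 1151500000000 tLbn7 tLbn12 rfl

def tLbn0t : BT := BT.X tLbn1t tLbn6t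
theorem tLbn0 : bisT (okGN (celG KLb (chkK KLb))) tLbn0t 0 791648371999 0 2303000000000 274877906944 824633720832 = true :=
  bisT_X 395824185999 tLbn1 tLbn6 rfl

theorem tLbn : bisT (okGN (celG KLb (chkK KLb))) tLbn0t 0 791648371999 0 2303000000000 274877906944 824633720832 = true := tLbn0

end SokamCel

end

/-! ### Lib_MP_af4de1_v3.RunLab -/

section
namespace SokamF1
end SokamF1
namespace SokamF1M
end SokamF1M
namespace SokamF1S
end SokamF1S
namespace SokamFN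
end SokamFN
namespace SokamU
end SokamU
namespace SokamV3
end SokamV3
/-!
# The left fields `a` and `b` (helper93)
-/

set_option autoImplicit false

namespace SokamCel

open SokamFN SokamV3 SokamF1 SokamF1S SokamF1M SokamU

theorem runL_a : RunsL KLa (11 / 10) (6 / 5) 1 (1 / 300000) (1 / 9000) (1 / 700000) (1 / 5) (1 / 5) 1 0
    (1 / 4) := by
  refine runsL_by (K := KLa) PLA_ok (by norm_num) ?_ ?_ ?_ ?_ ?_ ?_ tLac tLan ?_ ?_ ?_ ?_ ?_
  · show (1 / 300000 : ℝ) ≤ fx 3665039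
    unfold fx; norm_num
  · show (1 / 9000 : ℝ) ≤ fx 122167959
    unfold fx; norm_num
  · show (1 / 700000 : ℝ) ≤ fx 1570731
    unfold fx; norm_num
  · show fx 219902325555 ≤ (1 / 5 : ℝ)
    unfold fx; norm_num
  · show fx 219902325555 ≤ (1 / 5 : ℝ)
    unfold fx; norm_num
  · show fx 1099511627776 ≤ (1 : ℝ)
    unfold fx; norm_num
  · unfold fx; norm_num
  · unfold fx; norm_num
  · have h := Real.pi_lt_d4
    unfold fx
    norm_num at h ⊢
    linarith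
  · exact (fx_zero).le
  · unfold fx; norm_num

theorem runL_b : RunsL KLb (11 / 10) (6 / 5) 1 (1 / 300000) (1 / 9000) (1 / 700000) (2 / 25) (2 / 25)
    (13 / 100) (1 / 4) (3 / 4) := by
  refine runsL_by (K := KLb) PLA_ok (by norm_num) ?_ ?_ ?_ ?_ ?_ ?_ tLbc tLbn ?_ ?_ ?_ ?_ ?_
  · show (1 / 300000 : ℝ) ≤ fx 3665039
    unfold fx; norm_num
  · show (1 / 9000 : ℝ) ≤ fx 122167959
    unfold fx; norm_num
  · show (1 / 700000 : ℝ) ≤ fx 1570731
    unfold fx; norm_num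
  · show fx 87960930222 ≤ (2 / 25 : ℝ)
    unfold fx; norm_num
  · show fx 87960930222 ≤ (2 / 25 : ℝ)
    unfold fx; norm_num
  · show fx 142936511610 ≤ (13 / 100 : ℝ)
    unfold fx; norm_num
  · unfold fx; norm_num
  · unfold fx; norm_num
  · have h := Real.pi_lt_d4
    unfold fx
    norm_num at h ⊢
    linarith
  · unfold fx; norm_num
  · unfold fx; norm_num

/-- FIELD `a`, LEFT -/
theorem shfL_a : ∀ (N : ℕ) (r δ y η : ℝ), Reg1 N r δ → At r δ y η → Sad1 N r δ y → Gm N r δ < 10 →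
    0 ≤ η → η ≤ ei1 N r δ → η + hst N ≤ Real.pi →
    Shf r δ y (hst N) (HH N r δ) (1 / 5) (1 / 5) 1 :=
  shfL_a_of (K := KLa) (by show fx 5937362789990 ≤ (27 / 5 : ℝ); unfold fx; norm_num)
    (by show (100 / 499 : ℝ) ≤ fx 220343011579; unfold fx; norm_num) runL_a

/-- FIELD `b`, LEFT -/
theorem shfL_b : ∀ (N : ℕ) (r δ y η : ℝ), Reg1 N r δ → At r δ y η → Sad1 N r δ y → Gm N r δ < 10 →
    ei1 N r δ ≤ η → η ≤ eo1 N r δ → η + hst N ≤ Real.pi →
    Shf r δ y (hst N) (HH N r δ) (2 / 25) (2 / 25) (13 / 100) :=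
  shfL_b_of (K := KLb) (by show fx 5937362789990 ≤ (27 / 5 : ℝ); unfold fx; norm_num)
    (by show (100 / 499 : ℝ) ≤ fx 220343011579; unfold fx; norm_num) runL_b

end SokamCel

end
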