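import Pool.Agent.Lib_MP_af4de1_zy.Z131

/-! ### Lib_MP_af4de1_v3.RunLEAc -/

section
/-!
# Left runs: tree tLEAc (helper93)
-/

set_option autoImplicit false

namespace SokamCel

def tLEAc2t : BT := (.Y (.Z .L (.X (.Y (.Z .L .L) (.Z .L .L)) (.Y (.Z .L (.X .L .L)) (.Z .L (.X .L
  (.Y .L (.Z .L .L))))))) (.Z .L (.X (.Y (.Z .L .L) (.Z .L .L)) (.Y (.Z .L (.X (.Y .L (.Z .L .L))
  (.Y (.Z .L .L) (.Z .L .L)))) (.Z .L (.X (.Y (.Z .L .L) (.Z .L .L)) (.Y (.Z .L (.X .L .L)) (.Z .L
  (.X .L .L)))))))))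
theorem tLEAc2 : bisT (okLE chkLA 824633720832 824633720832 5937362789990 true) tLEAc2t 0 384829069722 0 1256082500000 412316860416 824633720832 = true := by
  decide +kernel

def tLEAc5t : BT := (.X (.Y .L (.Z .L .L)) (.Y (.Z .L .L) (.Z .L .L)))
theorem tLEAc5 : bisT (okLE chkLA 824633720832 824633720832 5937362789990 true) tLEAc5t 384829069722 769658139444 0 628041250000 412316860416 618475290624 = true := by
  decide +kernel

def tLEAc7t : BT := (.Y (.Z .L (.X (.Y .L (.Z .L .L)) (.Y .L (.Z .L .L)))) (.Z (.X .L .L) (.X (.Y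
  (.Z .L .L) (.Z .L .L)) (.Y (.Z .L (.X .L .L)) (.Z .L (.X .L .L))))))
theorem tLEAc7 : bisT (okLE chkLA 824633720832 824633720832 5937362789990 true) tLEAc7t 384829069722 577243604583 0 628041250000 618475290624 824633720832 = true := by
  decide +kernel

def tLEAc9t : BT := (.Z (.X .L .L) (.X (.Y (.Z .L .L) (.Z .L .L)) (.Y (.Z .L .L) (.Z .L (.X .L
  .L)))))
theorem tLEAc9 : bisT (okLE chkLA 824633720832 824633720832 5937362789990 true) tLEAc9t 577243604583 769658139444 0 314020625000 618475290624 824633720832 = true := by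
  decide +kernel

def tLEAc11t : BT := (.X (.Y .L (.Z .L .L)) (.Y (.Z .L .L) (.Z .L (.X .L .L))))
theorem tLEAc11 : bisT (okLE chkLA 824633720832 824633720832 5937362789990 true) tLEAc11t 577243604583 769658139444 314020625000 628041250000 618475290624 721554505728 = true := by
  decide +kernel

def tLEAc12t : BT := (.X (.Y (.Z .L (.X .L (.Y .L (.Z .L .L)))) (.Z (.X .L .L) (.X (.Y (.Z .L .L)
  (.Z .L .L)) (.Y (.Z .L .L) (.Z .L (.X .L .L)))))) (.Y (.Z (.X .L .L) (.X (.Y .L (.Z .L .L)) (.Y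
  (.Z .L .L) (.Z .L (.X .L .L))))) (.Z (.X .L (.Y .L (.Z .L .L))) (.X (.Y (.Z .L (.X .L .L)) (.Z
  (.X .L .L) (.X (.Y .L (.Z .L .L)) (.Y (.Z .L .L) .L)))) (.Y (.Z (.X .L .L) (.X (.Y .L (.Z .L
  .L)) (.Y (.Z .L .L) (.Z .L (.X .L .L))))) (.Z (.X .L (.Y .L .L)) (.X (.Y (.Z .L (.X .L .L)) .L)
  (.Y .L .L))))))))
theorem tLEAc12 : bisT (okLE chkLA 824633720832 824633720832 5937362789990 true) tLEAc12t 577243604583 769658139444 314020625000 628041250000 721554505728 824633720832 = true := by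
  decide +kernel

def tLEAc10t : BT := BT.Z tLEAc11t tLEAc12t
theorem tLEAc10 : bisT (okLE chkLA 824633720832 824633720832 5937362789990 true) tLEAc10t 577243604583 769658139444 314020625000 628041250000 618475290624 824633720832 = true :=
  bisT_Z 721554505728 tLEAc11 tLEAc12 rfl

def tLEAc8t : BT := BT.Y tLEAc9t tLEAc10t
theorem tLEAc8 : bisT (okLE chkLA 824633720832 824633720832 5937362789990 true) tLEAc8t 577243604583 769658139444 0 628041250000 618475290624 824633720832 = true :=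
  bisT_Y 314020625000 tLEAc9 tLEAc10 rfl

def tLEAc6t : BT := BT.X tLEAc7t tLEAc8t
theorem tLEAc6 : bisT (okLE chkLA 824633720832 824633720832 5937362789990 true) tLEAc6t 384829069722 769658139444 0 628041250000 618475290624 824633720832 = true :=
  bisT_X 577243604583 tLEAc7 tLEAc8 rfl

def tLEAc4t : BT := BT.Z tLEAc5t tLEAc6t
theorem tLEAc4 : bisT (okLE chkLA 824633720832 824633720832 5937362789990 true) tLEAc4t 384829069722 769658139444 0 628041250000 412316860416 824633720832 = true :=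
  bisT_Z 618475290624 tLEAc5 tLEAc6 rfl

def tLEAc14t : BT := (.X (.Y (.Z .L .L) (.Z .L (.X .L .L))) (.Y (.Z .L (.X .L .L)) (.Z .L (.X .L
  .L))))
theorem tLEAc14 : bisT (okLE chkLA 824633720832 824633720832 5937362789990 true) tLEAc14t 384829069722 769658139444 628041250000 1256082500000 412316860416 618475290624 = true := by
  decide +kernel

def tLEAc16t : BT := (.Y (.Z (.X .L (.Y (.Z .L .L) (.Z .L .L))) (.X (.Y (.Z .L (.X .L .L)) (.Z .L
  (.X .L (.Y .L (.Z .L .L))))) (.Y (.Z (.X .L .L) (.X (.Y .L (.Z .L .L)) (.Y (.Z .L .L) (.Z .L (.X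
  .L .L))))) (.Z (.X .L .L) (.X (.Y (.Z .L .L) .L) (.Y .L .L)))))) (.Z (.X (.Y .L (.Z .L .L)) (.Y
  (.Z .L (.X .L .L)) .L)) (.X (.Y (.Z .L (.X .L .L)) (.Z (.X .L .L) (.X .L .L))) (.Y (.Z .L .L)
  .L))))
theorem tLEAc16 : bisT (okLE chkLA 824633720832 824633720832 5937362789990 true) tLEAc16t 384829069722 577243604583 628041250000 1256082500000 618475290624 824633720832 = true := by
  decide +kernel

def tLEAc17t : BT := (.Y (.Z (.X (.Y (.Z .L (.X .L .L)) (.Z .L (.X .L .L))) (.Y (.Z .L (.X .L (.Y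
  .L .L))) .L)) (.X (.Y (.Z (.X .L (.Y .L .L)) (.X (.Y (.Z .L (.X .L .L)) (.Z (.X .L .L) (.X .L
  .L))) (.Y (.Z (.X .L .L) (.X (.Y .L .L) .L)) .L))) (.Z (.X .L .L) (.X .L .L))) (.Y (.Z (.X (.Y
  (.Z .L .L) .L) .L) (.X (.Y (.Z .L .L) .L) .L)) .L))) (.Z (.X .L .L) (.X .L .L)))
theorem tLEAc17 : bisT (okLE chkLA 824633720832 824633720832 5937362789990 true) tLEAc17t 577243604583 769658139444 628041250000 1256082500000 618475290624 824633720832 = true := by
  decide +kernel

def tLEAc15t : BT := BT.X tLEAc16t tLEAc17t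
theorem tLEAc15 : bisT (okLE chkLA 824633720832 824633720832 5937362789990 true) tLEAc15t 384829069722 769658139444 628041250000 1256082500000 618475290624 824633720832 = true :=
  bisT_X 577243604583 tLEAc16 tLEAc17 rfl

def tLEAc13t : BT := BT.Z tLEAc14t tLEAc15t
theorem tLEAc13 : bisT (okLE chkLA 824633720832 824633720832 5937362789990 true) tLEAc13t 384829069722 769658139444 628041250000 1256082500000 412316860416 824633720832 = true :=
  bisT_Z 618475290624 tLEAc14 tLEAc15 rfl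

def tLEAc3t : BT := BT.Y tLEAc4t tLEAc13t
theorem tLEAc3 : bisT (okLE chkLA 824633720832 824633720832 5937362789990 true) tLEAc3t 384829069722 769658139444 0 1256082500000 412316860416 824633720832 = true :=
  bisT_Y 628041250000 tLEAc4 tLEAc13 rfl

def tLEAc1t : BT := BT.X tLEAc2t tLEAc3t
theorem tLEAc1 : bisT (okLE chkLA 824633720832 824633720832 5937362789990 true) tLEAc1t 0 769658139444 0 1256082500000 412316860416 824633720832 = true :=
  bisT_X 384829069722 tLEAc2 tLEAc3 rfl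

def tLEAc20t : BT := (.Z (.X .L (.Y .L (.Z .L .L))) (.X (.Y (.Z .L .L) (.Z .L (.X .L (.Y .L (.Z .L
  .L))))) (.Y (.Z (.X .L .L) (.X (.Y (.Z .L .L) (.Z .L .L)) (.Y (.Z .L (.X .L .L)) (.Z .L (.X .L
  .L))))) (.Z (.X .L (.Y .L .L)) (.X (.Y (.Z .L (.X .L .L)) (.Z .L (.X (.Y .L (.Z .L .L)) (.Y .L
  .L)))) (.Y .L .L))))))
theorem tLEAc20 : bisT (okLE chkLA 824633720832 824633720832 5937362789990 true) tLEAc20t 0 384829069722 1256082500000 1884123750000 412316860416 824633720832 = true := by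
  decide +kernel

def tLEAc22t : BT := (.X (.Y .L (.Z .L (.X (.Y .L .L) (.Y .L .L)))) (.Y (.Z .L (.X .L (.Y .L .L)))
  (.Z (.X .L (.Y .L .L)) (.X (.Y (.Z .L (.X .L (.Y .L .L))) .L) (.Y (.Z .L .L) .L)))))
theorem tLEAc22 : bisT (okLE chkLA 824633720832 824633720832 5937362789990 true) tLEAc22t 0 384829069722 1884123750000 2512165000000 412316860416 618475290624 = true := by
  decide +kernel

def tLEAc24t : BT := (.Y (.Z (.X .L (.Y .L (.Z .L (.X (.Y .L (.Z .L .L)) (.Y .L (.Z .L .L))))))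
  (.X (.Y (.Z .L .L) .L) (.Y (.Z (.X .L (.Y .L (.Z .L .L))) .L) .L))) (.Z (.X (.Y (.Z (.X .L (.Y
  .L .L)) .L) .L) (.Y (.Z (.X (.Y .L .L) (.Y .L .L)) .L) .L)) .L))
theorem tLEAc24 : bisT (okLE chkLA 824633720832 824633720832 5937362789990 true) tLEAc24t 0 192414534861 1884123750000 2512165000000 618475290624 824633720832 = true := by
  decide +kernel

def tLEAc25t : BT := (.Y (.Z (.X (.Y (.Z .L .L) (.Z (.X .L (.Y .L .L)) (.X (.Y (.Z .L .L) (.Z (.X
  .L (.Y .L .L)) .L)) (.Y .L (.Z .L .L))))) (.Y .L (.Z .L (.X .L .L)))) (.X (.Y (.Z (.X (.Y .L (.Z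
  .L .L)) (.Y .L .L)) .L) .L) (.Y (.Z .L .L) .L))) (.Z (.X (.Y (.Z (.X (.Y (.Z .L .L) .L) (.Y .L
  .L)) .L) .L) (.Y (.Z (.X .L .L) .L) .L)) .L))
theorem tLEAc25 : bisT (okLE chkLA 824633720832 824633720832 5937362789990 true) tLEAc25t 192414534861 384829069722 1884123750000 2512165000000 618475290624 824633720832 = true := by
  decide +kernel

def tLEAc23t : BT := BT.X tLEAc24t tLEAc25t
theorem tLEAc23 : bisT (okLE chkLA 824633720832 824633720832 5937362789990 true) tLEAc23t 0 384829069722 1884123750000 2512165000000 618475290624 824633720832 = true :=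
  bisT_X 192414534861 tLEAc24 tLEAc25 rfl

def tLEAc21t : BT := BT.Z tLEAc22t tLEAc23t
theorem tLEAc21 : bisT (okLE chkLA 824633720832 824633720832 5937362789990 true) tLEAc21t 0 384829069722 1884123750000 2512165000000 412316860416 824633720832 = true :=
  bisT_Z 618475290624 tLEAc22 tLEAc23 rfl

def tLEAc19t : BT := BT.Y tLEAc20t tLEAc21t
theorem tLEAc19 : bisT (okLE chkLA 824633720832 824633720832 5937362789990 true) tLEAc19t 0 384829069722 1256082500000 2512165000000 412316860416 824633720832 = true :=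
  bisT_Y 1884123750000 tLEAc20 tLEAc21 rfl

def tLEAc27t : BT := (.Z (.X (.Y (.Z .L (.X .L .L)) (.Z .L (.X .L .L))) (.Y (.Z .L (.X .L .L)) (.Z
  .L .L))) (.X (.Y (.Z (.X .L .L) (.X .L .L)) (.Z (.X .L .L) (.X .L .L))) (.Y (.Z (.X .L .L) (.X
  .L .L)) (.Z (.X .L .L) (.X .L .L)))))
theorem tLEAc27 : bisT (okLE chkLA 824633720832 824633720832 5937362789990 true) tLEAc27t 384829069722 769658139444 1256082500000 1884123750000 412316860416 824633720832 = true := by
  decide +kernel

def tLEAc28t : BT := (.Z (.X (.Y (.Z .L (.X .L .L)) (.Z (.X .L .L) (.X (.Y .L .L) .L))) (.Y (.Z .L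
  (.X .L .L)) (.Z .L (.X .L .L)))) (.X (.Y (.Z (.X (.Y .L .L) .L) (.X (.Y .L .L) (.Y .L .L))) (.Z
  (.X (.Y (.Z .L .L) .L) (.Y .L .L)) .L)) (.Y (.Z (.X .L .L) (.X (.Y .L .L) (.Y .L .L))) (.Z (.X
  (.Y .L .L) (.Y .L .L)) .L))))
theorem tLEAc28 : bisT (okLE chkLA 824633720832 824633720832 5937362789990 true) tLEAc28t 384829069722 769658139444 1884123750000 2512165000000 412316860416 824633720832 = true := by
  decide +kernel

def tLEAc26t : BT := BT.Y tLEAc27t tLEAc28t
theorem tLEAc26 : bisT (okLE chkLA 824633720832 824633720832 5937362789990 true) tLEAc26t 384829069722 769658139444 1256082500000 2512165000000 412316860416 824633720832 = true :=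
  bisT_Y 1884123750000 tLEAc27 tLEAc28 rfl

def tLEAc18t : BT := BT.X tLEAc19t tLEAc26t
theorem tLEAc18 : bisT (okLE chkLA 824633720832 824633720832 5937362789990 true) tLEAc18t 0 769658139444 1256082500000 2512165000000 412316860416 824633720832 = true :=
  bisT_X 384829069722 tLEAc19 tLEAc26 rfl

def tLEAc0t : BT := BT.Y tLEAc1t tLEAc18t
theorem tLEAc0 : bisT (okLE chkLA 824633720832 824633720832 5937362789990 true) tLEAc0t 0 769658139444 0 2512165000000 412316860416 824633720832 = true :=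
  bisT_Y 1256082500000 tLEAc1 tLEAc18 rfl

theorem tLEAc : bisT (okLE chkLA 824633720832 824633720832 5937362789990 true) tLEAc0t 0 769658139444 0 2512165000000 412316860416 824633720832 = true := tLEAc0

end SokamCel

end

/-! ### Lib_MP_af4de1_v3.RunLEBc -/

section
/-!
# Left runs: tree tLEBc (helper93)
-/

set_option autoImplicit false

namespace SokamCel

def tLEBc1t : BT := (.X (.Y (.Z .L .L) (.Z .L .L)) (.Y (.Z .L (.X .L (.Y .L (.Z .L .L)))) (.Z (.X
  .L .L) (.X (.Y .L (.Z .L .L)) (.Y (.Z .L (.X .L .L)) (.Z .L (.X .L .L)))))))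
theorem tLEBc1 : bisT (okLE chkLB 714682558054 714682558055 10995116277760 true) tLEBc1t 0 769658139444 0 1303482000000 357341279027 714682558055 = true := by
  decide +kernel

def tLEBc3t : BT := (.Y (.Z .L (.X .L (.Y .L .L))) (.Z (.X .L (.Y .L (.Z .L (.X .L (.Y .L (.Z .L
  .L)))))) (.X (.Y (.Z .L .L) (.Z (.X (.Y .L .L) (.Y .L .L)) .L)) (.Y (.Z (.X .L .L) (.X (.Y .L
  .L) (.Y .L .L))) (.Z (.X (.Y .L .L) (.Y (.Z .L .L) .L)) .L)))))
theorem tLEBc3 : bisT (okLE chkLB 714682558054 714682558055 10995116277760 true) tLEBc3t 0 384829069722 1303482000000 2606964000000 357341279027 714682558055 = true := by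
  decide +kernel

def tLEBc4t : BT := (.Y (.Z (.X .L (.Y (.Z .L .L) (.Z .L .L))) (.X (.Y (.Z .L (.X .L .L)) (.Z (.X
  .L .L) (.X .L .L))) (.Y (.Z .L (.X .L .L)) (.Z .L (.X .L .L))))) (.Z (.X (.Y (.Z .L .L) (.Z .L
  (.X .L .L))) (.Y (.Z .L .L) (.Z .L .L))) (.X (.Y (.Z (.X .L .L) (.X (.Y .L .L) .L)) (.Z (.X (.Y
  .L .L) (.Y .L .L)) .L)) (.Y (.Z (.X .L .L) (.X .L .L)) (.Z (.X (.Y .L .L) .L) .L)))))
theorem tLEBc4 : bisT (okLE chkLB 714682558054 714682558055 10995116277760 true) tLEBc4t 384829069722 769658139444 1303482000000 2606964000000 357341279027 714682558055 = true := by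
  decide +kernel

def tLEBc2t : BT := BT.X tLEBc3t tLEBc4t
theorem tLEBc2 : bisT (okLE chkLB 714682558054 714682558055 10995116277760 true) tLEBc2t 0 769658139444 1303482000000 2606964000000 357341279027 714682558055 = true :=
  bisT_X 384829069722 tLEBc3 tLEBc4 rfl

def tLEBc0t : BT := BT.Y tLEBc1t tLEBc2t
theorem tLEBc0 : bisT (okLE chkLB 714682558054 714682558055 10995116277760 true) tLEBc0t 0 769658139444 0 2606964000000 357341279027 714682558055 = true :=
  bisT_Y 1303482000000 tLEBc1 tLEBc2 rfl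

theorem tLEBc : bisT (okLE chkLB 714682558054 714682558055 10995116277760 true) tLEBc0t 0 769658139444 0 2606964000000 357341279027 714682558055 = true := tLEBc0

end SokamCel

end

/-! ### Lib_MP_af4de1_v3.RunLEBn -/

section
/-!
# Left runs: tree tLEBn (helper93)
-/

set_option autoImplicit false

namespace SokamCel

def tLEBn1t : BT := (.X (.Y (.Z .L (.X .L (.Y .L (.Z .L .L)))) (.Z (.X .L (.Y .L .L)) (.X .L (.Y
  .L .L)))) (.Y (.Z (.X .L .L) (.X (.Y .L (.Z .L .L)) (.Y .L (.Z .L .L)))) (.Z (.X (.Y .L .L) (.Y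
  .L (.Z .L .L))) (.X (.Y (.Z .L (.X .L .L)) (.Z .L .L)) (.Y (.Z .L (.X .L .L)) (.Z .L (.X .L
  .L)))))))
theorem tLEBn1 : bisT (okLE chkLB 714682558054 714682558055 10995116277760 false) tLEBn1t 0 791648371999 0 1303482000000 357341279027 714682558055 = true := by
  decide +kernel

def tLEBn2t : BT := (.X (.Y (.Z .L (.X .L (.Y .L (.Z .L .L)))) (.Z (.X .L (.Y .L (.Z .L .L))) .L))
  (.Y (.Z (.X (.Y .L .L) (.Y .L .L)) (.X (.Y (.Z .L .L) (.Z .L .L)) (.Y (.Z .L .L) (.Z .L (.X .L
  .L))))) (.Z (.X (.Y .L .L) (.Y .L (.Z .L .L))) (.X .L (.Y (.Z (.X .L .L) .L) .L)))))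
theorem tLEBn2 : bisT (okLE chkLB 714682558054 714682558055 10995116277760 false) tLEBn2t 0 791648371999 1303482000000 2606964000000 357341279027 714682558055 = true := by
  decide +kernel

def tLEBn0t : BT := BT.Y tLEBn1t tLEBn2t
theorem tLEBn0 : bisT (okLE chkLB 714682558054 714682558055 10995116277760 false) tLEBn0t 0 791648371999 0 2606964000000 357341279027 714682558055 = true :=
  bisT_Y 1303482000000 tLEBn1 tLEBn2 rfl

theorem tLEBn : bisT (okLE chkLB 714682558054 714682558055 10995116277760 false) tLEBn0t 0 791648371999 0 2606964000000 357341279027 714682558055 = true := tLEBn0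

end SokamCel

end

/-! ### Lib_MP_af4de1_v3.RunLECc -/

section
/-!
# Left runs: tree tLECc (helper93)
-/

set_option autoImplicit false

namespace SokamCel

def tLECc0t : BT := (.Y (.X .L (.Y (.Z .L .L) (.Z .L (.X .L .L)))) (.X (.Y .L (.Z .L (.X (.Y .L
  .L) (.Y .L .L)))) (.Y (.Z (.X .L .L) (.X .L (.Y (.Z .L .L) (.Z .L (.X .L .L))))) (.Z (.X (.Y .L
  (.Z .L .L)) (.Y .L (.Z .L .L))) (.X (.Y (.Z .L .L) .L) (.Y (.Z .L .L) .L))))))
theorem tLECc0 : bisT (okLE chkLC 659706976665 659706976666 21990232555520 true) tLECc0t 0 769658139444 0 2657098000000 329853488332 659706976666 = true := by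
  decide +kernel

theorem tLECc : bisT (okLE chkLC 659706976665 659706976666 21990232555520 true) tLECc0t 0 769658139444 0 2657098000000 329853488332 659706976666 = true := tLECc0

end SokamCel

end

/-! ### Lib_MP_af4de1_v3.RunLECn -/

section
/-!
# Left runs: tree tLECn (helper93)
-/

set_option autoImplicit false

namespace SokamCel

def tLECn0t : BT := (.Y (.X (.Y .L (.Z .L (.X .L .L))) (.Y (.Z .L .L) (.Z .L (.X (.Y .L .L) (.Y .L
  (.Z .L .L)))))) (.X (.Y (.Z .L (.X .L (.Y .L .L))) (.Z (.X .L (.Y .L (.Z .L .L))) .L)) (.Y (.Z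
  (.X .L (.Y .L .L)) (.X (.Y .L (.Z .L .L)) (.Y (.Z .L .L) (.Z .L .L)))) (.Z (.X .L (.Y .L .L))
  (.X .L (.Y (.Z .L .L) .L))))))
theorem tLECn0 : bisT (okLE chkLC 659706976665 659706976666 21990232555520 false) tLECn0t 0 791648371999 0 2657098000000 329853488332 659706976666 = true := by
  decide +kernel

theorem tLECn : bisT (okLE chkLC 659706976665 659706976666 21990232555520 false) tLECn0t 0 791648371999 0 2657098000000 329853488332 659706976666 = true := tLECn0

end SokamCel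

end

/-! ### Lib_MP_af4de1_v3.RunLE -/

section
namespace SokamFN
end SokamFN
/-!
# The left runs of field `e`: `E1L` (helper93)
-/

set_option autoImplicit false

namespace SokamCel

open SokamFN

theorem runLE_A : RunLE (11 / 10) (6 / 5) 1 (3 / 4) (27 / 5) (1 / 300000) (1 / 9000) (1 / 700000) := by
  refine runLE_of chkLA_snd (by norm_num) ?_ (by norm_num) ?_ ?_ ?_ ?_ tLEAc tLEAn
  · unfold fx; norm_num
  · unfold fx; norm_num
  · unfold fx; norm_num
  · have h := Real.pi_lt_d4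
    rw [div_le_iff₀ (by norm_num)]
    unfold fx
    norm_num at h ⊢
    linarith
  · unfold fx; norm_num

theorem runLE_B : RunLE (23 / 20) (6 / 5) 1 (13 / 20) 10 (1 / 250000) (1 / 4700) (1 / 700000) := by
  refine runLE_of chkLB_snd (by norm_num) ?_ (by norm_num) ?_ ?_ ?_ ?_ tLEBc tLEBn
  · unfold fx; norm_num
  · unfold fx; norm_num
  · unfold fx; norm_num
  · have h := Real.pi_lt_d4
    rw [div_le_iff₀ (by norm_num)]
    unfold fx
    norm_num at h ⊢
    linarith
  · unfold fx; norm_num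

theorem runLE_C : RunLE (23 / 20) (6 / 5) 1 (3 / 5) 20 (1 / 9000) (18 / 10000) (1 / 40000) := by
  refine runLE_of chkLC_snd (by norm_num) ?_ (by norm_num) ?_ ?_ ?_ ?_ tLECc tLECn
  · unfold fx; norm_num
  · unfold fx; norm_num
  · unfold fx; norm_num
  · have h := Real.pi_lt_d4
    rw [div_le_iff₀ (by norm_num)]
    unfold fx
    norm_num at h ⊢
    linarith
  · unfold fx; norm_num

/-- `h ≤ ζ ≤ 2h`, left -/
theorem e1L : SokamCen.E1L := e1L_of runLE_A runLE_B runLE_C

end SokamCel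

end
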