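import Pool.Agent.Lib_MP_af4de1_zy.Z75
import Pool.Agent.Lib_MP_af4de1_zy.Z131
import Pool.Agent.Lib_MP_af4de1_zy.Z132

/-! ### Lib_MP_af4de1_v3.BrRf -/

section
namespace SokamCen
end SokamCen
/-!
# BRIDGE, right side, front: `fR0 fRW` of `CenTR` against `RF0 RFW` of `CelRF` (helper15)
-/

set_option autoImplicit false

namespace SokamCel

open Real SokamCen

theorem Rf_pos {μ ν : ℝ} (hμ : 1 ≤ μ) (hν : ν ≤ 1) : 0 < Rf μ ν := by
  unfold Rf
  have h1 : 0 < μ - 1 / 2 * ν := by linarith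
  positivity

theorem aL_eqf {ρ s μ : ℝ} (hρ : 0 < ρ) (hs : 0 < s) (hμ : 0 < μ) :
    aL (μ * s) ρ = Rf μ (ρ / s) * (1 / s) ^ (2 : ℕ) / (ρ / s) := by
  unfold aL Rf
  field_simp

section

variable {r ρ s h τ Γ : ℝ} (D : Dat r ρ s h τ Γ)

include D

/-- `r aL = Γ Rf/(ν h²)` -/
theorem Dat.fB {μ : ℝ} (hμ : 1 ≤ μ) :
    r * aL (μ * s) ρ = Γ * Rf μ (ρ / s) / (ρ / s * h ^ (2 : ℕ)) := by
  have hμ0 : 0 < μ := by linarith
  have h1 := D.ρ0
  have h2 := D.s0
  have h3 := D.h0
  rw [aL_eqf h1 h2 hμ0, D.G]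
  field_simp

/-- exponent -/
theorem Dat.fE {g : ℝ} :
    exp (g / 2 * (Γ * τ ^ (2 : ℕ))) * exp (-(r * (1 - cos ((1 + τ) * h)))) =
      exp (-(Γ * ((1 + τ) ^ (2 : ℕ) * bq ((1 + τ) * h) / (1 / s) ^ (2 : ℕ) - g / 2 * τ ^ (2 : ℕ)))) := by
  have h2 := D.s0
  have h3 := D.h0
  have ht : 0 < 1 + τ := by linarith [D.τ0]
  rw [← Real.exp_add, D.G]
  congr 1
  unfold bq
  obtain ⟨C, hC⟩ : ∃ C, C = 1 - cos ((1 + τ) * h) := ⟨_, rfl⟩
  obtain ⟨u, hu⟩ : ∃ u, u = 1 + τ := ⟨_, rfl⟩
  rw [← hC]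
  rw [← hu] at ht ⊢
  field_simp
  ring

/-- prefactor times the half Gaussian -/
theorem Dat.fH {μ g q : ℝ} (hμ : 1 ≤ μ) (hq : 0 ≤ q) :
    PS r ρ s g q τ Γ μ * (exp (-(r * (1 - cos ((1 + τ) * h)))) *
      (√(π / (r * aL (μ * s) ρ)) / 2)) = RF0 μ q g (1 / s) (ρ / s) h τ Γ := by
  have hμ0 : 0 < μ := by linarith
  have h1 := D.ρ0
  have h2 := D.s0
  have hRf := Rf_pos hμ D.ν1
  have hQ : 0 < Rf μ (ρ / s) * (1 / s) ^ (2 : ℕ) := by positivity
  have k1 := D.PQ (g := g) hμ hQ hq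
  rw [← aL_eqf h1 h2 hμ0] at k1
  have k2 : √(q * (1 + (1 / s) ^ (2 : ℕ) / μ ^ (2 : ℕ)) / (2 * (Rf μ (ρ / s) * (1 / s) ^ (2 : ℕ)))) =
      √(q * (1 + (1 / s) ^ (2 : ℕ) / μ ^ (2 : ℕ)) / (2 * Rf μ (ρ / s))) * (1 / (1 / s)) := by
    have e : (1 / (1 / s)) = √((1 / (1 / s)) ^ (2 : ℕ)) := (Real.sqrt_sq (by positivity)).symm
    rw [e, ← Real.sqrt_mul (by positivity)]
    congr 1
    field_simp
  have k3 := D.fE (g := g)
  unfold RF0
  rw [← k3]
  calc PS r ρ s g q τ Γ μ * (exp (-(r * (1 - cos ((1 + τ) * h)))) *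
        (√(π / (r * aL (μ * s) ρ)) / 2)) =
      (PS r ρ s g q τ Γ μ * √(π / (r * aL (μ * s) ρ))) *
        exp (-(r * (1 - cos ((1 + τ) * h)))) / 2 := by ring
    _ = _ := by
      rw [k1, k2]
      ring

/-- FRONT, `I0` -/
theorem Dat.frF0 {μ g q : ℝ} (hμ : 1 ≤ μ) (hq : 0 ≤ q) :
    PS r ρ s g q τ Γ μ * fR0 r (μ * s) ρ ((1 + τ) * h) ≤ XF0 μ q g (1 / s) (ρ / s) h τ Γ := by
  unfold fR0 XF0
  split_ifs with h1
  · rw [← D.fH hμ hq]
    refine mul_le_mul_of_nonneg_left ?_ (PS_nonneg r ρ s g q τ Γ μ)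
    exact mul_le_mul_of_nonneg_left (min_le_left _ _) (exp_pos _).le
  · rw [mul_zero]

/-- FRONT, `IW` -/
theorem Dat.frFW {μ g q : ℝ} (hμ : 1 ≤ μ) (hq : 0 ≤ q) :
    PS r ρ s g q τ Γ μ * fRW r (μ * s) ρ ((1 + τ) * h) ≤
      (h * (1 / s)) ^ (2 : ℕ) * XFW μ q g (1 / s) (ρ / s) h τ Γ := by
  unfold fRW XFW
  split_ifs with h1
  · rw [← D.fH hμ hq]
    have hμ0 : 0 < μ := by linarith
    have h1 := D.ρ0
    have h2 := D.s0
    have h3 := D.h0
    have h4 := D.r0
    have hΓ := D.Γ0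
    have hν := D.ν0
    have hRf := Rf_pos hμ D.ν1
    have hB0 : 0 < r * aL (μ * s) ρ := by
      rw [aL_eqf h1 h2 hμ0]
      positivity
    obtain ⟨B, hB⟩ : ∃ B, B = r * aL (μ * s) ρ := ⟨_, rfl⟩
    have hBe := D.fB hμ
    rw [← hB] at hBe hB0 ⊢
    obtain ⟨H, hH⟩ : ∃ H, H = √(π / B) / 2 := ⟨_, rfl⟩
    rw [← hH]
    have hπ := Real.pi_pos
    have hH0 : 0 < H := by rw [hH]; positivity
    -- the three integrals
    have e0 : SokamCen.h0 (frR r ((1 + τ) * h)) B ≤ H := by rw [hH]; exact min_le_left _ _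
    have e1 : SokamCen.h1 B = H * (h * √(ρ / s / (Γ * Rf μ (ρ / s)) * (1 / π))) := by
      unfold SokamCen.h1
      have k1 : h * √(ρ / s / (Γ * Rf μ (ρ / s)) * (1 / π)) = √(1 / (π * B)) := by
        have e : h = √(h ^ (2 : ℕ)) := (Real.sqrt_sq h3.le).symm
        conv_lhs => rw [e]
        rw [← Real.sqrt_mul (by positivity), hBe]
        congr 1
        field_simp
      rw [k1, hH]
      have k2 : √(π / B) * √(1 / (π * B)) = 1 / B := by
        rw [← Real.sqrt_mul (by positivity)]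
        have : π / B * (1 / (π * B)) = (1 / B) ^ (2 : ℕ) := by field_simp
        rw [this, Real.sqrt_sq (by positivity)]
      calc 1 / (2 * B) = (1 / B) / 2 := by field_simp
        _ = (√(π / B) * √(1 / (π * B))) / 2 := by rw [k2]
        _ = _ := by ring
    have e2 : SokamCen.h2 B = H * (h ^ (2 : ℕ) * (ρ / s / (Γ * Rf μ (ρ / s))) / 2) := by
      unfold SokamCen.h2
      rw [hH]
      have k1 : h ^ (2 : ℕ) * (ρ / s / (Γ * Rf μ (ρ / s))) = 1 / B := by
        rw [hBe]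
        field_simp
      rw [k1]
      field_simp
      ring
    obtain ⟨S, hS⟩ : ∃ S, S = √(ρ / s / (Γ * Rf μ (ρ / s)) * (1 / π)) := ⟨_, rfl⟩
    obtain ⟨V, hV⟩ : ∃ V, V = ρ / s / (Γ * Rf μ (ρ / s)) := ⟨_, rfl⟩
    rw [← hS] at e1
    rw [← hV] at e2
    rw [e1, e2]
    have eW : (h * (1 / s)) ^ (2 : ℕ) * (RFW μ (1 / s) (ρ / s) τ Γ / (1 / s) ^ (2 : ℕ)) =
        ((1 + τ) * h) ^ (2 : ℕ) + 2 * ((1 + τ) * h) * (h * S) +
          (1 + 1 / (μ * s) ^ (2 : ℕ)) * (h ^ (2 : ℕ) * V / 2) := by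
      unfold RFW
      rw [← hS, ← hV]
      field_simp
    have hP := PS_nonneg r ρ s g q τ Γ μ
    obtain ⟨E, hE⟩ : ∃ E, E = exp (-(r * (1 - cos ((1 + τ) * h)))) := ⟨_, rfl⟩
    rw [← hE]
    have hE0 : 0 ≤ E := by rw [hE]; exact (exp_pos _).le
    have e3 : (h * (1 / s)) ^ (2 : ℕ) * (PS r ρ s g q τ Γ μ * (E * H) *
        (RFW μ (1 / s) (ρ / s) τ Γ / (1 / s) ^ (2 : ℕ))) = PS r ρ s g q τ Γ μ * (E *
        (H * ((h * (1 / s)) ^ (2 : ℕ) * (RFW μ (1 / s) (ρ / s) τ Γ / (1 / s) ^ (2 : ℕ))))) := by ring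
    rw [e3, eW]
    refine mul_le_mul_of_nonneg_left (mul_le_mul_of_nonneg_left ?_ hE0) hP
    have e4 := mul_le_mul_of_nonneg_left e0 (sq_nonneg ((1 + τ) * h))
    refine le_trans (add_le_add_left (add_le_add_left e4 _) _) (le_of_eq ?_)
    ring
  · rw [mul_zero, mul_zero]

end

end SokamCel

end

/-! ### Lib_MP_af4de1_v3.ShfR3 -/

section
/-!
# The bridge of behind and front, all points (right side)
-/

set_option autoImplicit false

namespace SokamCel

theorem bfrAll : BFrAll := fun _ _ _ _ _ _ _ _ _ D hμ hq =>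
  ⟨(D.bb0 hμ hq).le, (D.bbW hμ hq).le, (D.bbe hμ hq).le, D.frF0 hμ hq, D.frFW hμ hq⟩

end SokamCel

end

/-! ### Lib_MP_af4de1_v3.RunRaB -/

section
namespace SokamFN
end SokamFN
/-!
# Right side, the run of the field `a'`, `10 ≤ Γ < 20` (`τ ≤ 7/20`; targets `3/50, 3/50, 1`)
-/

set_option autoImplicit false

namespace SokamCel

open SokamFN

/-- data of the run -/
def KRaB : RnD where
  P := ⟨ic 5 4, ic 4 5, ic 71 50, ic 13 20, ic 13 10⟩
  G0 := 10995116277760
  H := 440686023157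
  s0 := 4398047
  sW := 233938645
  se := 1570731
  F0 := 65970697666
  F1 := 65970697666
  F2 := 1099511627776

theorem KRaB_ok : KRaB.P.Ok (5 / 4) (71 / 50) (13 / 10) (13 / 10) where
  hM := by exact_mod_cast Mem.const 5 4 (by norm_num)
  hN := by
    have h := Mem.const 4 5 (by norm_num)
    norm_num at h ⊢
    exact h
  hq := by exact_mod_cast Mem.const 71 50 (by norm_num)
  hg := by
    have h := Mem.const 13 20 (by norm_num)
    norm_num at h ⊢
    exact h
  hk := by exact_mod_cast Mem.const 13 10 (by norm_num)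
  pos := by norm_num
  le := by norm_num

theorem KRaB_c : bis (okC KRaB) 3 1 4 12 0 769658139444 0 2303000000000 0 384829069722 = true := by
  decide +kernel

theorem KRaB_n : bis (okN KRaB) 2 1 3 12 0 791648371999 0 2303000000000 0 384829069722 = true := by
  decide +kernel

theorem runR_aB : RunOK (71 / 50) (13 / 10) (13 / 10) 0 (7 / 20) 10 (200 / 499) (1 / 250000)
    (1 / 4700) (1 / 700000) (3 / 50) (3 / 50) 1 := by
  refine runOK_of (K := KRaB) KRaB_ok (lc := [769658139444]) (ln := [791648371999])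
    ⟨KRaB_c, trivial⟩ ⟨KRaB_n, trivial⟩ ?_ ?_ ?_ ⟨?_, ?_, ?_, ?_, ?_, ?_⟩ ?_ ?_ ?_ ?_
  · show (7 / 10 : ℝ) ≤ fx 769658139444
    unfold fx; norm_num
  · show (18 / 25 : ℝ) ≤ fx 791648371999
    unfold fx; norm_num
  · have h := Real.pi_lt_d4
    unfold fx
    norm_num at h ⊢
    linarith
  · show (1 / 250000 : ℝ) ≤ fx 4398047
    unfold fx; norm_num
  · show (1 / 4700 : ℝ) ≤ fx 233938645
    unfold fx; norm_num
  · show (1 / 700000 : ℝ) ≤ fx 1570731
    unfold fx; norm_num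
  · show fx 65970697666 ≤ (3 / 50 : ℝ)
    unfold fx; norm_num
  · show fx 65970697666 ≤ (3 / 50 : ℝ)
    unfold fx; norm_num
  · show fx 1099511627776 ≤ (1 : ℝ)
    unfold fx; norm_num
  · show fx 10995116277760 ≤ (10 : ℝ)
    unfold fx; norm_num
  · show (200 / 499 : ℝ) ≤ fx 440686023157
    unfold fx; norm_num
  · show fx 0 ≤ (0 : ℝ)
    unfold fx; norm_num
  · show (7 / 20 : ℝ) ≤ fx 384829069722
    unfold fx; norm_num

end SokamCel

end

/-! ### Lib_MP_af4de1_v3.RunRaC -/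

section
namespace SokamFN
end SokamFN
/-!
# Right side, the run of the field `a'`, `20 ≤ Γ` (`τ ≤ 2/5`; targets `3/50, 3/50, 1`)
-/

set_option autoImplicit false

namespace SokamCel

open SokamFN

/-- data of the run -/
def KRaC : RnD where
  P := ⟨ic 5 4, ic 4 5, ic 33 20, ic 17 20, ic 17 10⟩
  G0 := 21990232555520
  H := 1209462790554
  s0 := 7696582
  sW := 76965814
  se := 2199024
  F0 := 65970697666
  F1 := 65970697666
  F2 := 1099511627776

theorem KRaC_ok : KRaC.P.Ok (5 / 4) (33 / 20) (17 / 10) (17 / 10) where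
  hM := by exact_mod_cast Mem.const 5 4 (by norm_num)
  hN := by
    have h := Mem.const 4 5 (by norm_num)
    norm_num at h ⊢
    exact h
  hq := by exact_mod_cast Mem.const 33 20 (by norm_num)
  hg := by
    have h := Mem.const 17 20 (by norm_num)
    norm_num at h ⊢
    exact h
  hk := by exact_mod_cast Mem.const 17 10 (by norm_num)
  pos := by norm_num
  le := by norm_num

theorem KRaC_c : bis (okC KRaC) 3 1 3 12 0 769658139444 0 2303000000000 0 439804651111 = true := by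
  decide +kernel

theorem KRaC_n : bis (okN KRaC) 3 1 3 12 0 791648371999 0 2303000000000 0 439804651111 = true := by
  decide +kernel

theorem runR_aC : RunOK (33 / 20) (17 / 10) (17 / 10) 0 (2 / 5) 20 (11 / 10) (7 / 1000000)
    (7 / 100000) (2 / 1000000) (3 / 50) (3 / 50) 1 := by
  refine runOK_of (K := KRaC) KRaC_ok (lc := [769658139444]) (ln := [791648371999])
    ⟨KRaC_c, trivial⟩ ⟨KRaC_n, trivial⟩ ?_ ?_ ?_ ⟨?_, ?_, ?_, ?_, ?_, ?_⟩ ?_ ?_ ?_ ?_
  · show (7 / 10 : ℝ) ≤ fx 769658139444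
    unfold fx; norm_num
  · show (18 / 25 : ℝ) ≤ fx 791648371999
    unfold fx; norm_num
  · have h := Real.pi_lt_d4
    unfold fx
    norm_num at h ⊢
    linarith
  · show (7 / 1000000 : ℝ) ≤ fx 7696582
    unfold fx; norm_num
  · show (7 / 100000 : ℝ) ≤ fx 76965814
    unfold fx; norm_num
  · show (2 / 1000000 : ℝ) ≤ fx 2199024
    unfold fx; norm_num
  · show fx 65970697666 ≤ (3 / 50 : ℝ)
    unfold fx; norm_num
  · show fx 65970697666 ≤ (3 / 50 : ℝ)
    unfold fx; norm_num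
  · show fx 1099511627776 ≤ (1 : ℝ)
    unfold fx; norm_num
  · show fx 21990232555520 ≤ (20 : ℝ)
    unfold fx; norm_num
  · show (11 / 10 : ℝ) ≤ fx 1209462790554
    unfold fx; norm_num
  · show fx 0 ≤ (0 : ℝ)
    unfold fx; norm_num
  · show (2 / 5 : ℝ) ≤ fx 439804651111
    unfold fx; norm_num

end SokamCel

end

/-! ### Lib_MP_af4de1_v3.ShfR -/

section
namespace SokamF1
end SokamF1
namespace SokamF1M
end SokamF1M
namespace SokamF1S
end SokamF1S
namespace SokamV3
end SokamV3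
/-!
# Right side, regime I: the fields `a`, `a'` of `PShfRw`
-/

set_option autoImplicit false

namespace SokamCel

open SokamV3 SokamF1 SokamF1S SokamF1M

/-- field `a` -/
theorem shfR_a : ∀ (N : ℕ) (r δ y η : ℝ), Reg1 N r δ → At r δ y η → Sad1 N r δ y → Gm N r δ < 10 →
    η ≤ 0 → -ei1 N r δ ≤ η → -Real.pi ≤ η - hst N →
    Shf r δ y (-hst N) (HH N r δ) (1 / 5) (1 / 5) 1 :=
  shfR_a_of bfrAll runR_a

/-- field `a'` -/
theorem shfR_a' : ∀ (N : ℕ) (r δ y η : ℝ), Reg1 N r δ → At r δ y η → Sad1 N r δ y →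
    10 ≤ Gm N r δ → η ≤ 0 → -ei1 N r δ ≤ η → -Real.pi ≤ η - hst N →
    Shf r δ y (-hst N) (HH N r δ) (3 / 50) (3 / 50) 1 :=
  shfR_a'_of bfrAll runR_aB runR_aC

end SokamCel

end

/-! ### Lib_MP_af4de1_v3.RunRcC -/

section
namespace SokamFN
end SokamFN
/-!
# Right side, the runs of the field `c`, class `20 ≤ Γ` (`2/5 ≤ τ ≤ 3/5`; targets `1/100`)
-/

set_option autoImplicit false

namespace SokamCel

open SokamFN

/-- data of the run -/
def KRc1 : RnD where
  P := ⟨ic 5 4, ic 4 5, ic 33 20, ic 17 20, ic 17 10⟩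
  G0 := 21990232555520
  H := 813638604555
  s0 := 186916977
  sW := 3518437209
  se := 32985349
  F0 := 10995116277
  F1 := 10995116277
  F2 := 10995116277

theorem KRc1_ok : KRc1.P.Ok (5 / 4) (33 / 20) (17 / 10) (17 / 10) where
  hM := by exact_mod_cast Mem.const 5 4 (by norm_num)
  hN := by
    have h := Mem.const 4 5 (by norm_num)
    norm_num at h ⊢
    exact h
  hq := by exact_mod_cast Mem.const 33 20 (by norm_num)
  hg := by
    have h := Mem.const 17 20 (by norm_num)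
    norm_num at h ⊢
    exact h
  hk := by exact_mod_cast Mem.const 17 10 (by norm_num)
  pos := by norm_num
  le := by norm_num

theorem KRc1_c : bis (okC KRc1) 3 1 2 13 0 769658139444 0 2303000000000 439804651110 659706976666 = true := by
  decide +kernel

theorem KRc1_n : bis (okN KRc1) 3 1 2 13 0 791648371999 0 2303000000000 439804651110 659706976666 = true := by
  decide +kernel

theorem runR_cC1 : RunOK (33 / 20) (17 / 10) (17 / 10) (2 / 5) (3 / 5) 20 (37 / 50) (17 / 100000)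
    (32 / 10000) (3 / 100000) (1 / 100) (1 / 100) (1 / 100) := by
  refine runOK_of (K := KRc1) KRc1_ok (lc := [769658139444]) (ln := [791648371999])
    ⟨KRc1_c, trivial⟩ ⟨KRc1_n, trivial⟩ ?_ ?_ ?_ ⟨?_, ?_, ?_, ?_, ?_, ?_⟩ ?_ ?_ ?_ ?_
  · show (7 / 10 : ℝ) ≤ fx 769658139444
    unfold fx; norm_num
  · show (18 / 25 : ℝ) ≤ fx 791648371999
    unfold fx; norm_num
  · have h := Real.pi_lt_d4
    unfold fx
    norm_num at h ⊢
    linarith
  · show (17 / 100000 : ℝ) ≤ fx 186916977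
    unfold fx; norm_num
  · show (32 / 10000 : ℝ) ≤ fx 3518437209
    unfold fx; norm_num
  · show (3 / 100000 : ℝ) ≤ fx 32985349
    unfold fx; norm_num
  · show fx 10995116277 ≤ (1 / 100 : ℝ)
    unfold fx; norm_num
  · show fx 10995116277 ≤ (1 / 100 : ℝ)
    unfold fx; norm_num
  · show fx 10995116277 ≤ (1 / 100 : ℝ)
    unfold fx; norm_num
  · show fx 21990232555520 ≤ (20 : ℝ)
    unfold fx; norm_num
  · show (37 / 50 : ℝ) ≤ fx 813638604555
    unfold fx; norm_num
  · show fx 439804651110 ≤ (2 / 5 : ℝ)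
    unfold fx; norm_num
  · show (3 / 5 : ℝ) ≤ fx 659706976666
    unfold fx; norm_num

/-- data of the run -/
def KRc2 : RnD where
  P := ⟨ic 5 4, ic 4 5, ic 33 20, ic 17 20, ic 17 10⟩
  G0 := 40600566367256
  H := 1209462790554
  s0 := 332052512
  sW := 4178144186
  se := 65970698
  F0 := 10995116277
  F1 := 10995116277
  F2 := 10995116277

theorem KRc2_ok : KRc2.P.Ok (5 / 4) (33 / 20) (17 / 10) (17 / 10) where
  hM := by exact_mod_cast Mem.const 5 4 (by norm_num)
  hN := by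
    have h := Mem.const 4 5 (by norm_num)
    norm_num at h ⊢
    exact h
  hq := by exact_mod_cast Mem.const 33 20 (by norm_num)
  hg := by
    have h := Mem.const 17 20 (by norm_num)
    norm_num at h ⊢
    exact h
  hk := by exact_mod_cast Mem.const 17 10 (by norm_num)
  pos := by norm_num
  le := by norm_num

theorem KRc2_c : bis (okC KRc2) 3 1 2 13 0 769658139444 0 2303000000000 439804651110 659706976666 = true := by
  decide +kernel

theorem KRc2_n : bis (okN KRc2) 3 1 2 13 0 791648371999 0 2303000000000 439804651110 659706976666 = true := by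
  decide +kernel

theorem runR_cC2 : RunOK (33 / 20) (17 / 10) (17 / 10) (2 / 5) (3 / 5) (18463 / 500) (11 / 10) (151 / 500000)
    (38 / 10000) (6 / 100000) (1 / 100) (1 / 100) (1 / 100) := by
  refine runOK_of (K := KRc2) KRc2_ok (lc := [769658139444]) (ln := [791648371999])
    ⟨KRc2_c, trivial⟩ ⟨KRc2_n, trivial⟩ ?_ ?_ ?_ ⟨?_, ?_, ?_, ?_, ?_, ?_⟩ ?_ ?_ ?_ ?_
  · show (7 / 10 : ℝ) ≤ fx 769658139444
    unfold fx; norm_num
  · show (18 / 25 : ℝ) ≤ fx 791648371999
    unfold fx; norm_num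
  · have h := Real.pi_lt_d4
    unfold fx
    norm_num at h ⊢
    linarith
  · show (151 / 500000 : ℝ) ≤ fx 332052512
    unfold fx; norm_num
  · show (38 / 10000 : ℝ) ≤ fx 4178144186
    unfold fx; norm_num
  · show (6 / 100000 : ℝ) ≤ fx 65970698
    unfold fx; norm_num
  · show fx 10995116277 ≤ (1 / 100 : ℝ)
    unfold fx; norm_num
  · show fx 10995116277 ≤ (1 / 100 : ℝ)
    unfold fx; norm_num
  · show fx 10995116277 ≤ (1 / 100 : ℝ)
    unfold fx; norm_num
  · show fx 40600566367256 ≤ (18463 / 500 : ℝ)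
    unfold fx; norm_num
  · show (11 / 10 : ℝ) ≤ fx 1209462790554
    unfold fx; norm_num
  · show fx 439804651110 ≤ (2 / 5 : ℝ)
    unfold fx; norm_num
  · show (3 / 5 : ℝ) ≤ fx 659706976666
    unfold fx; norm_num

end SokamCel

end

/-! ### Lib_MP_af4de1_v3.ShfRe -/

section
namespace SokamCen
end SokamCen
namespace SokamF1
end SokamF1
namespace SokamF1M
end SokamF1M
namespace SokamF1S
end SokamF1S
namespace SokamFN
end SokamFN
namespace SokamV3
end SokamV3
/-!
# Field `e`, right: `E1R` from the runs `RunE`, the bridge `BFrAll`, the levels and rest + far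
-/

set_option autoImplicit false

namespace SokamCel

open Real MeasureTheory Set SokamCen SokamV3 SokamF1 SokamF1S SokamF1M SokamFN

/-- one point: `h = z = |ζ|`, `η = -eo1` -/
theorem e1R_pt {N : ℕ} {r δ y z g k q τ0 G0 b0 bW be : ℝ} (hB : BFrAll)
    (X : RunE q k g τ0 G0 b0 bW be) (hR : Reg1 N r δ) (hA : At r δ y (-eo1 N r δ))
    (hτ0 : 0 < τ0) (hτ : eo1 N r δ = τ0 * hst N) (hL : Lev r δ y (-eo1 N r δ) g k q)
    (hk : 0 ≤ k) (hq : 0 ≤ q) (hG : G0 ≤ Gm N r δ) (h1 : hst N ≤ z) (h2 : z ≤ 2 * hst N)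
    (h3 : eo1 N r δ + z ≤ π)
    (U : ∀ q', 0 ≤ q' → q' ≤ q →
      UB N r δ (-eo1 N r δ) g q' (-(eo1 N r δ + z)) (UsR (eo1 N r δ + z)) b0 bW be) :
    Shf r δ y (-z) (r * z / √(RR r δ)) (3 / 200) (3 / 100 * (hst N / z)) ((hst N / z) ^ (2 : ℕ)) := by
  have hN : 1 ≤ N := by
    have := hR.N3
    omega
  have hr : 0 < r := by linarith only [hR.r0]
  have hδ := hR.d0
  have hh := hst_pos1 hN
  have hz : 0 < z := hh.trans_le h1
  have he : 0 ≤ eo1 N r δ := by rw [hτ]; (clear * - hτ0 hh; positivity)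
  have ha : |(-eo1 N r δ)| = eo1 N r δ := by rw [abs_neg, abs_of_nonneg he]
  have hRR : 0 < RR r δ := by unfold RR; (clear * - hr hδ; positivity)
  have hs := domE hR hτ0 hτ hG h1 h2 h3
  have hte : (1 + eo1 N r δ / z) * z = eo1 N r δ + z := by
    field_simp
    ring
  have R := X _ _ _ _ _ hs
  have e1 : 1 + k * (eo1 N r δ / z) * (z * (1 / √(RR r δ))) =
      1 + k * (|(-eo1 N r δ)| / √(RR r δ)) := by
    rw [ha]
    field_simp
  have e2 : eo1 N r δ / z / τ0 = hst N / z := by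
    rw [hτ]
    field_simp
  rw [e1, e2] at R
  have hL' := hL.qmin hr hδ
  have hq' : 0 ≤ min q (1 + k * (|(-eo1 N r δ)| / √(RR r δ))) := le_min hq (by (clear * - hk hRR; positivity))
  have hU := UB.toh hN hr h1 (U _ hq' (min_le_left _ _))
  rw [← hte] at hU
  have R' := R
  have hU' := hU
  rw [show eo1 N r δ / z = |(-eo1 N r δ)| / z by rw [ha]] at R' hU'
  exact shfR_runh hz hr hδ hA (by linarith only [he]) (by linarith only [h3]) hL' hk hq'
    (hB _ _ _ _ _ _ _ _ _ (dath hz hr hδ _) (by norm_num) hq') hU' R'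

/-- `E1R` from the runs -/
theorem e1R_of (hB : BFrAll)
    (A : RunE (27 / 20) (6 / 5) (6 / 5) (3 / 4) (27 / 5) (1 / 300000) (1 / 9000) (1 / 700000))
    (B : RunE (71 / 50) (13 / 10) (13 / 10) (13 / 20) 10 (1 / 250000) (1 / 4700) (1 / 700000))
    (C : RunE (33 / 20) (17 / 10) (17 / 10) (3 / 5) 20 (151 / 500000) (38 / 10000)
      (6 / 100000)) : E1R := by
  intro N r δ y z hR hA _ h1 h2 h3
  have hh := hst_pos3 hR.N3
  rcases lt_or_ge (Gm N r δ) 10 with hG | hG
  · have e := eoe_A hG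
    have he : 0 ≤ eo1 N r δ := by rw [e]; (clear * - hh; positivity)
    have ha : |(-eo1 N r δ)| = eo1 N r δ := by rw [abs_neg, abs_of_nonneg he]
    have hL := levR_A hR hA (by linarith only [he]) le_rfl hG
    refine e1R_pt hB A hR hA (by norm_num) e hL (by norm_num) (by norm_num) hR.G h1 h2 h3
      fun q' h4 h5 => ?_
    exact uR_A hR hG.le (by rw [ha, e]) le_rfl h4 (h5.trans (by norm_num))
      (by rw [ha]; linarith only [h1]) h3
  rcases lt_or_ge (Gm N r δ) 20 with hG2 | hG2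
  · have e := eoe_B hG hG2
    have he : 0 ≤ eo1 N r δ := by rw [e]; (clear * - hh; positivity)
    have ha : |(-eo1 N r δ)| = eo1 N r δ := by rw [abs_neg, abs_of_nonneg he]
    have hL := levR_B hR hA (by linarith only [he]) le_rfl hG hG2
    refine e1R_pt hB B hR hA (by norm_num) e hL (by norm_num) (by norm_num) hG h1 h2 h3
      fun q' h4 h5 => ?_
    exact uR_B hR hG hG2.le (by rw [ha, e]) le_rfl h4 (h5.trans (by norm_num))
      (by rw [ha]; linarith only [h1]) h3
  · have e := eoe_C hG2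
    have he : 0 ≤ eo1 N r δ := by rw [e]; (clear * - hh; positivity)
    have ha : |(-eo1 N r δ)| = eo1 N r δ := by rw [abs_neg, abs_of_nonneg he]
    have hL := levR_C hR hA (by linarith only [he]) le_rfl hG2
    refine e1R_pt hB C hR hA (by norm_num) e hL (by norm_num) (by norm_num) hG2 h1 h2 h3
      fun q' h4 h5 => ?_
    rcases le_total (hst N ^ (2 : ℕ) / RR r δ) (37 / 50) with hY | hY
    · exact (uR_C1 hR hG2 (by rw [ha, e]) (by norm_num) le_rfl h4 h5
        (by rw [ha]; linarith only [h1]) h3 hY).mono subset_rfl (by norm_num) (by norm_num) (by norm_num)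
    · exact uR_Cw hR hG2 (by rw [ha, e]; linarith only [e, he]) (by rw [ha, e]) (by norm_num) le_rfl h4 h5
        (by rw [ha]; linarith only [h1]) h3 hY

end SokamCel

end

/-! ### Lib_MP_af4de1_v3.ShfRAll -/

section
namespace SokamCen
end SokamCen
namespace SokamF1
end SokamF1
namespace SokamF1M
end SokamF1M
namespace SokamF1S
end SokamF1S
namespace SokamV3
end SokamV3
/-!
# Right side, regime I: `PShfRw` from the open pieces

`Xb`: run of the field `b`; `XcB`: run of the field `c`, `10 ≤ Γ < 20`; `EA EB EC`: runs of the field `e`;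
`D`: the general field `d`; `o`: the outer waves.
-/

set_option autoImplicit false

namespace SokamCel

open SokamV3 SokamF1 SokamF1S SokamF1M SokamCen

/-- field `b` -/
theorem shfR_b' (X : RunOK (27 / 20) (6 / 5) (6 / 5) (1 / 4) (3 / 4) (27 / 5) (100 / 499)
      (1 / 300000) (1 / 9000) (1 / 700000) (3 / 50) (7 / 100) (3 / 20)) :
    ∀ (N : ℕ) (r δ y η : ℝ), Reg1 N r δ → At r δ y η → Sad1 N r δ y → Gm N r δ < 10 →
    η ≤ -ei1 N r δ → -eo1 N r δ ≤ η → -Real.pi ≤ η - hst N →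
    Shf r δ y (-hst N) (HH N r δ) (3 / 50) (7 / 100) (3 / 20) :=
  shfR_b_of bfrAll X

/-- field `d` -/
theorem shfR_d_of (D : DGR) : ∀ (N i : ℕ) (r δ y η : ℝ), Reg1 N r δ → At r δ y η →
    Sad1 N r δ y → η ≤ 0 → -eo1 N r δ ≤ η → 2 ≤ i → -Real.pi ≤ η - i * hst N →
    Shf r δ y (-(i * hst N)) (HH N r δ) ((1 / 2) ^ i / 100) ((1 / 2) ^ i / 100)
      ((1 / 2) ^ i / 100) :=
  fun N i r δ y η hR hA hS h0 h1 hi hp => D N i r δ y η _ hR hA hS h0 h1 hi le_rfl
    (by linarith)

end SokamCel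

end

/-! ### Lib_MP_af4de1_v3.RunEAn -/

section
/-!
# Kernel run, field `e`, right, class A, chart `ν` (helper4)
-/

set_option autoImplicit false

namespace SokamCel

def rEAn3t : BT := (.X (.Z .L .L) (.Z .L (.X .L (.X .L .L))))
theorem rEAn3 : bisT (okE pRA 824633720832 824633720832 5937362789990 3665039 122167959 1570732 false) rEAn3t 0 791648371999 0 628068529576 412316860416 618475290624 = true := by
  decide +kernel

def rEAn5t : BT := (.X (.X (.X .L .L) (.Z .L (.X .L .L))) (.X (.Z .L (.X .L .L)) (.X (.Z .L (.X .L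
  .L)) (.Z .L (.X .L .L)))))
theorem rEAn5 : bisT (okE pRA 824633720832 824633720832 5937362789990 3665039 122167959 1570732 false) rEAn5t 0 791648371999 0 628068529576 618475290624 721554505728 = true := by
  decide +kernel

def rEAn7t : BT := (.X (.X (.Z .L .L) (.X (.Z .L .L) (.Z .L (.X .L .L)))) (.X (.X (.Z .L (.X .L
  .L)) (.X (.Z .L .L) (.Z .L .L))) (.X (.X (.Z .L .L) (.X .L .L)) (.X (.X .L .L) (.X .L .L)))))
theorem rEAn7 : bisT (okE pRA 824633720832 824633720832 5937362789990 3665039 122167959 1570732 false) rEAn7t 0 791648371999 0 628068529576 721554505728 773094113280 = true := by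
  decide +kernel

def rEAn9t : BT := (.Y (.X .L (.X (.X .L .L) (.X .L .L))) (.Y (.X (.X .L (.Z .L .L)) (.X (.Y (.Z
  .L .L) .L) (.X (.Y (.X .L .L) .L) (.Z .L (.X .L .L))))) .L))
theorem rEAn9 : bisT (okE pRA 824633720832 824633720832 5937362789990 3665039 122167959 1570732 false) rEAn9t 0 395824185999 0 628068529576 773094113280 824633720832 = true := by
  decide +kernel

def rEAn10t : BT := (.X (.X (.Y (.X .L .L) (.Y (.X (.Z .L (.X .L .L)) (.Z .L (.X .L .L))) .L)) (.X
  (.Y .L (.Y (.Z .L (.X .L .L)) .L)) (.Y .L (.Y (.Z .L (.X .L .L)) .L)))) (.X (.Y (.X .L .L) (.Y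
  (.X (.Z .L (.X .L .L)) (.Z .L (.X .L .L))) (.Y (.X .L (.X .L (.Z .L .L))) .L))) (.Z (.X (.X .L
  .L) (.X .L .L)) (.Y (.X .L .L) (.Y (.X (.X .L .L) (.X .L .L)) (.X (.Y (.X (.X .L .L) .L) .L) (.Y
  (.X .L .L) .L)))))))
theorem rEAn10 : bisT (okE pRA 824633720832 824633720832 5937362789990 3665039 122167959 1570732 false) rEAn10t 395824185999 791648371999 0 628068529576 773094113280 824633720832 = true := by
  decide +kernel

def rEAn8t : BT := BT.X rEAn9t rEAn10t
theorem rEAn8 : bisT (okE pRA 824633720832 824633720832 5937362789990 3665039 122167959 1570732 false) rEAn8t 0 791648371999 0 628068529576 773094113280 824633720832 = true :=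
  bisT_X 395824185999 rEAn9 rEAn10 rfl

def rEAn6t : BT := BT.Z rEAn7t rEAn8t
theorem rEAn6 : bisT (okE pRA 824633720832 824633720832 5937362789990 3665039 122167959 1570732 false) rEAn6t 0 791648371999 0 628068529576 721554505728 824633720832 = true :=
  bisT_Z 773094113280 rEAn7 rEAn8 rfl

def rEAn4t : BT := BT.Z rEAn5t rEAn6t
theorem rEAn4 : bisT (okE pRA 824633720832 824633720832 5937362789990 3665039 122167959 1570732 false) rEAn4t 0 791648371999 0 628068529576 618475290624 824633720832 = true :=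
  bisT_Z 721554505728 rEAn5 rEAn6 rfl

def rEAn2t : BT := BT.Z rEAn3t rEAn4t
theorem rEAn2 : bisT (okE pRA 824633720832 824633720832 5937362789990 3665039 122167959 1570732 false) rEAn2t 0 791648371999 0 628068529576 412316860416 824633720832 = true :=
  bisT_Z 618475290624 rEAn3 rEAn4 rfl

def rEAn11t : BT := (.X (.Y (.Z .L .L) .L) (.X (.Y (.Z (.Z .L .L) (.X .L .L)) (.X .L .L)) (.Y (.Z
  (.Z .L (.X .L .L)) (.X (.X .L .L) (.X (.Z .L .L) (.Y (.Z .L .L) .L)))) (.Z .L (.X .L .L)))))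
theorem rEAn11 : bisT (okE pRA 824633720832 824633720832 5937362789990 3665039 122167959 1570732 false) rEAn11t 0 791648371999 628068529576 1256137059153 412316860416 824633720832 = true := by
  decide +kernel

def rEAn1t : BT := BT.Y rEAn2t rEAn11t
theorem rEAn1 : bisT (okE pRA 824633720832 824633720832 5937362789990 3665039 122167959 1570732 false) rEAn1t 0 791648371999 0 1256137059153 412316860416 824633720832 = true :=
  bisT_Y 628068529576 rEAn2 rEAn11 rfl

def rEAn12t : BT := (.X (.Y (.X .L .L) (.Z (.Y .L (.Z .L .L)) .L)) (.X (.Y (.Y .L .L) (.Z (.Y .L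
  (.Z .L .L)) .L)) (.Y (.Z .L (.Y .L .L)) (.Y (.Z .L (.X (.Y (.Z .L .L) .L) (.Z .L (.Y .L .L))))
  (.Z (.Y .L (.Z .L .L)) (.X .L (.Y (.Z (.Z .L .L) .L) .L)))))))
theorem rEAn12 : bisT (okE pRA 824633720832 824633720832 5937362789990 3665039 122167959 1570732 false) rEAn12t 0 791648371999 1256137059153 2512274118306 412316860416 824633720832 = true := by
  decide +kernel

def rEAn0t : BT := BT.Y rEAn1t rEAn12t
theorem rEAn0 : bisT (okE pRA 824633720832 824633720832 5937362789990 3665039 122167959 1570732 false) rEAn0t 0 791648371999 0 2512274118306 412316860416 824633720832 = true :=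
  bisT_Y 1256137059153 rEAn1 rEAn12 rfl

theorem rEAn : bisT (okE pRA 824633720832 824633720832 5937362789990 3665039 122167959 1570732 false) rEAn0t 0 791648371999 0 2512274118306 412316860416 824633720832 = true := rEAn0

end SokamCel

end

/-! ### Lib_MP_af4de1_v3.RunEBc -/

section
/-!
# Kernel run, field `e`, right, class B, chart `c` (helper4)
-/

set_option autoImplicit false

namespace SokamCel

def rEBc0t : BT := (.Y (.X (.Z .L .L) (.X (.Z .L (.Z .L .L)) (.Z .L (.Z .L (.X .L (.X .L .L))))))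
  (.Y (.X (.Z .L (.X .L (.Z .L .L))) (.X (.Z .L (.X (.Y (.X .L .L) .L) (.X .L .L))) (.X (.Z .L (.X
  .L .L)) (.Z .L .L)))) (.Y (.Z (.X .L (.X (.X .L .L) .L)) (.Z (.X .L (.X (.X .L .L) (.X .L .L)))
  (.Y (.Z (.X .L (.X .L .L)) .L) .L))) (.Z (.X (.X .L (.Z .L .L)) (.X (.X .L .L) (.X .L .L))) (.Y
  (.Z (.Z (.X .L (.X .L .L)) .L) .L) .L)))))
theorem rEBc0 : bisT (okE pRB 714682558054 714682558055 10995116277760 4398047 233938645 1570732 true) rEBc0t 0 769658139444 0 2607052020620 357341279027 714682558055 = true := by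
  decide +kernel

theorem rEBc : bisT (okE pRB 714682558054 714682558055 10995116277760 4398047 233938645 1570732 true) rEBc0t 0 769658139444 0 2607052020620 357341279027 714682558055 = true := rEBc0

end SokamCel

end

/-! ### Lib_MP_af4de1_v3.RunEBn -/

section
/-!
# Kernel run, field `e`, right, class B, chart `ν` (helper4)
-/

set_option autoImplicit false

namespace SokamCel

def rEBn0t : BT := (.X (.Y (.Z .L (.Z .L (.Y .L .L))) (.Y .L (.Z (.Y .L (.Z .L .L)) .L))) (.Y (.Z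
  (.X .L .L) (.Y (.Z .L (.X .L .L)) (.X (.X .L (.Y .L .L)) (.Y (.Z .L (.X .L .L)) .L)))) (.Y (.X
  .L (.X .L (.Y .L .L))) (.Y (.Z .L (.X .L (.Z (.X .L .L) .L))) (.Z (.Z .L (.X .L (.X .L .L)))
  .L)))))
theorem rEBn0 : bisT (okE pRB 714682558054 714682558055 10995116277760 4398047 233938645 1570732 false) rEBn0t 0 791648371999 0 2607052020620 357341279027 714682558055 = true := by
  decide +kernel

theorem rEBn : bisT (okE pRB 714682558054 714682558055 10995116277760 4398047 233938645 1570732 false) rEBn0t 0 791648371999 0 2607052020620 357341279027 714682558055 = true := rEBn0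

end SokamCel

end

/-! ### Lib_MP_af4de1_v3.RunECn -/

section
/-!
# Kernel run, field `e`, right, class C, chart `ν` (helper4)
-/

set_option autoImplicit false

namespace SokamCel

def rECn0t : BT := (.Y (.X (.Z .L .L) (.Z .L (.X .L (.X .L .L)))) (.Y (.X .L (.X (.Y .L .L) (.Z .L
  (.Y .L .L)))) (.Y (.Z (.Z .L (.X .L .L)) (.X .L (.X .L (.X .L (.Z .L .L))))) (.Z (.Z (.Y .L (.X
  .L .L)) (.X .L (.X .L (.Y .L (.Z .L .L))))) .L))))
theorem rECn0 : bisT (okE pRC 659706976665 659706976666 21990232555520 332052512 4178144186 65970698 false) rECn0t 0 791648371999 0 2657189750847 329853488332 659706976666 = true := by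
  decide +kernel

theorem rECn : bisT (okE pRC 659706976665 659706976666 21990232555520 332052512 4178144186 65970698 false) rECn0t 0 791648371999 0 2657189750847 329853488332 659706976666 = true := rECn0

end SokamCel

end

/-! ### Lib_MP_af4de1_v3.RunE -/

section
namespace SokamFN
end SokamFN
/-!
# The runs of field `e`, right: `runE_A`, `runE_B`, `runE_C` (helper4)
-/

set_option autoImplicit false

namespace SokamCel

open SokamFN

theorem pRA_ok : pRA.Ok (5 / 4) (27 / 20) (6 / 5) (6 / 5) := by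
  refine ⟨?_, ?_, ?_, ?_, ?_, by norm_num, by norm_num⟩ <;>
    · unfold Mem fx pRA
      norm_num

theorem pRB_ok : pRB.Ok (5 / 4) (71 / 50) (13 / 10) (13 / 10) := by
  refine ⟨?_, ?_, ?_, ?_, ?_, by norm_num, by norm_num⟩ <;>
    · unfold Mem fx pRB
      norm_num

theorem pRC_ok : pRC.Ok (5 / 4) (33 / 20) (17 / 10) (17 / 10) := by
  refine ⟨?_, ?_, ?_, ?_, ?_, by norm_num, by norm_num⟩ <;>
    · unfold Mem fx pRC
      norm_num

theorem runE_A : RunE (27 / 20) (6 / 5) (6 / 5) (3 / 4) (27 / 5) (1 / 300000) (1 / 9000)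
    (1 / 700000) := by
  have h := Real.pi_lt_d4
  refine runE_of pRA_ok (by norm_num) ?_ (by norm_num) ?_ ?_ ?_ ?_ ?_ ?_ ?_ rEAc rEAn
  all_goals unfold fx
  all_goals norm_num at h ⊢
  linarith

theorem runE_B : RunE (71 / 50) (13 / 10) (13 / 10) (13 / 20) 10 (1 / 250000) (1 / 4700)
    (1 / 700000) := by
  have h := Real.pi_lt_d4
  refine runE_of pRB_ok (by norm_num) ?_ (by norm_num) ?_ ?_ ?_ ?_ ?_ ?_ ?_ rEBc rEBn
  all_goals unfold fx
  all_goals norm_num at h ⊢
  linarith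

theorem runE_C : RunE (33 / 20) (17 / 10) (17 / 10) (3 / 5) 20 (151 / 500000) (38 / 10000)
    (6 / 100000) := by
  have h := Real.pi_lt_d4
  refine runE_of pRC_ok (by norm_num) ?_ (by norm_num) ?_ ?_ ?_ ?_ ?_ ?_ ?_ rECc rECn
  all_goals unfold fx
  all_goals norm_num at h ⊢
  linarith

end SokamCel

end

/-! ### Lib_MP_af4de1_v3.ShfRAll2 -/

section
namespace SokamCen
end SokamCen
namespace SokamF1
end SokamF1
namespace SokamF1M
end SokamF1M
namespace SokamF1S
end SokamF1S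
namespace SokamV3
end SokamV3
/-!
# Right side, regime I: `PShfRw` from the run of `b`, the general `d` and `o`
-/

set_option autoImplicit false

namespace SokamCel

open SokamV3 SokamF1 SokamF1S SokamF1M SokamCen

/-- field `c` -/
theorem shfR_c : ∀ (N : ℕ) (r δ y η : ℝ), Reg1 N r δ → At r δ y η → Sad1 N r δ y →
    10 ≤ Gm N r δ → η ≤ -ei1 N r δ → -eo1 N r δ ≤ η → -Real.pi ≤ η - hst N →
    Shf r δ y (-hst N) (HH N r δ) (1 / 100) (1 / 100) (1 / 100) :=
  shfR_c_of bfrAll runR_cB runR_cC1 runR_cC2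

/-- the first far wave at the boundary saddle -/
theorem e1R : E1R := e1R_of bfrAll runE_A runE_B runE_C

/-- PIECE SHIFT, right side, from the open pieces. -/
theorem pShfRw_of2
    (Xb : RunOK (27 / 20) (6 / 5) (6 / 5) (1 / 4) (3 / 4) (27 / 5) (100 / 499)
      (1 / 300000) (1 / 9000) (1 / 700000) (3 / 50) (7 / 100) (3 / 20))
    (D : DGR)
    (o : ∀ (N : ℕ) (r δ y ζ : ℝ), Reg1 N r δ → At r δ y (-eo1 N r δ) → Sad1 N r δ y →
      ζ ≤ 0 → -ei1 N r δ ≤ ζ → Out r δ y ζ (5 / 4)) : PShfRw where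
  a := shfR_a
  a' := shfR_a'
  b := shfR_b' Xb
  c := shfR_c
  d := shfR_d_of D
  e := shfR_e_of D e1R
  o := o

end SokamCel

end
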