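import Pool.Agent.Lib_MP_af4de1_zy.Z118
import Pool.Agent.Lib_MP_af4de1_zy.Z132

/-! ### Lib_MP_af4de1_v3.RunRbX1 -/

section
namespace SokamFN
end SokamFN
/-!
# Right side, the run of the field `b`: the trees of chart `ν`
-/

set_option autoImplicit false

namespace SokamCel

open SokamFN

def rbn4t : BT := (.Y (.Z (.Z (.X (.Z .L .L) (.Z (.Z (.X .L .L) .L) .L)) (.Z .L .L)) (.Z (.X .L
  .L) .L)) (.Y (.Z (.X (.Z (.Z (.Z (.X .L .L) .L) .L) (.Z .L .L)) (.Z (.Z (.X (.Z (.X .L .L) .L)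
  (.Z (.X .L (.X .L .L)) .L)) (.Z .L .L)) (.Z (.X .L .L) .L))) (.Z (.X (.X .L .L) (.Z .L .L)) (.Z
  .L .L))) (.Z (.Z .L .L) (.Z .L .L))))
theorem rbn4 : bisT (okN KRb) rbn4t 0 197912092999 0 575750000000 274877906944 824633720832 = true := by
  decide +kernel

def rbn6t : BT := (.Y (.Z (.Z (.X (.Z (.Z .L .L) .L) (.Z (.Z .L .L) .L)) (.Z .L .L)) (.Z (.X .L
  .L) .L)) (.Y (.Z (.X (.Z (.Z (.Z (.Z (.X .L .L) .L) (.X .L .L)) (.X .L .L)) (.Z .L .L)) (.Z (.Z
  (.X (.Z (.Z .L .L) .L) (.Z (.Z .L .L) .L)) (.Z .L .L)) (.Z .L .L))) (.Z (.Z .L .L) (.Z .L .L)))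
  (.Z (.Z .L .L) (.Z .L .L))))
theorem rbn6 : bisT (okN KRb) rbn6t 197912092999 296868139499 0 575750000000 274877906944 824633720832 = true := by
  decide +kernel

def rbn7t : BT := (.Y (.Z (.Z (.X (.Z (.Z (.X .L .L) .L) .L) (.Z (.Z (.X .L .L) .L) .L)) (.Z .L
  .L)) (.X (.Z .L .L) (.Z .L .L))) (.Y (.Z (.X (.Z (.Z (.X (.Z (.Y .L (.Z .L .L)) .L) (.Z (.Z (.X
  .L .L) .L) .L)) (.Z .L .L)) (.Z .L .L)) (.Z (.Z (.X (.Z (.Y .L (.Z .L .L)) .L) (.Z (.Z .L .L)
  .L)) (.Z .L .L)) (.Z .L .L))) (.Z (.X (.Z .L .L) (.Z .L .L)) (.Z .L .L))) (.Z (.Y (.Z .L .L) .L)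
  (.Z .L .L))))
theorem rbn7 : bisT (okN KRb) rbn7t 296868139499 395824185999 0 575750000000 274877906944 824633720832 = true := by
  decide +kernel

def rbn5t : BT := BT.X rbn6t rbn7t
theorem rbn5 : bisT (okN KRb) rbn5t 197912092999 395824185999 0 575750000000 274877906944 824633720832 = true :=
  bisT_X 296868139499 rbn6 rbn7 rfl

def rbn3t : BT := BT.X rbn4t rbn5t
theorem rbn3 : bisT (okN KRb) rbn3t 0 395824185999 0 575750000000 274877906944 824633720832 = true :=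
  bisT_X 197912092999 rbn4 rbn5 rfl

def rbn8t : BT := BT.L
theorem rbn8 : bisT (okN KRb) rbn8t 0 395824185999 575750000000 1151500000000 274877906944 824633720832 = true := by
  decide +kernel

def rbn2t : BT := BT.Y rbn3t rbn8t
theorem rbn2 : bisT (okN KRb) rbn2t 0 395824185999 0 1151500000000 274877906944 824633720832 = true :=
  bisT_Y 575750000000 rbn3 rbn8 rfl

def rbn12t : BT := (.Y (.Z (.Z (.X (.Z (.Z (.X .L .L) .L) .L) (.Z (.Z .L .L) .L)) (.Z .L .L)) (.X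
  (.Z .L .L) (.Z .L .L))) (.Y (.X (.Z (.Z (.Z (.X (.Z (.Z .L .L) .L) (.Z (.X .L .L) .L)) (.Z .L
  .L)) (.Z .L .L)) (.Z (.Z .L .L) (.X .L .L))) (.Z (.Z (.X (.Z (.Z (.X .L .L) .L) .L) (.Z (.Z (.X
  .L .L) .L) .L)) (.Z .L .L)) (.Z (.Z .L .L) (.X .L .L)))) (.Z (.Z (.X (.X .L .L) (.Z .L .L)) (.Z
  .L .L)) (.Z (.Z .L .L) (.X .L .L)))))
theorem rbn12 : bisT (okN KRb) rbn12t 395824185999 494780232499 0 575750000000 274877906944 824633720832 = true := by
  decide +kernel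

def rbn13t : BT := (.Z (.Z (.Y (.X (.Z (.X .L .L) .L) (.Z (.X .L .L) .L)) (.Y (.X (.X (.Z (.Z (.X
  .L .L) .L) .L) (.Z (.Z .L .L) .L)) (.X (.Z (.Z .L .L) .L) (.Z (.Z .L .L) .L))) (.Y (.Z (.Y (.X
  .L (.X .L (.Z .L .L))) .L) (.X .L (.X .L .L))) .L))) (.Z (.Y .L (.X (.Y .L .L) (.Z .L .L))) (.X
  (.Z .L .L) (.X .L .L)))) (.X (.Z (.Z (.Z .L .L) (.X .L .L)) (.X (.Z .L .L) (.Z .L .L))) (.X (.Z
  (.Z .L .L) (.Z .L .L)) (.Z (.Z .L .L) (.Z .L .L)))))
theorem rbn13 : bisT (okN KRb) rbn13t 494780232499 593736278999 0 575750000000 274877906944 824633720832 = true := by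
  decide +kernel

def rbn11t : BT := BT.X rbn12t rbn13t
theorem rbn11 : bisT (okN KRb) rbn11t 395824185999 593736278999 0 575750000000 274877906944 824633720832 = true :=
  bisT_X 494780232499 rbn12 rbn13 rfl

def rbn15t : BT := (.Z (.Z (.Z (.Z (.Y (.X .L .L) (.Y (.X (.X .L .L) (.X .L .L)) (.Y (.X (.X (.X
  .L .L) .L) (.X .L .L)) .L))) (.X (.X (.X .L .L) (.X .L .L)) (.X (.X .L .L) .L))) (.X (.X (.Z .L
  .L) (.Z .L .L)) (.X (.Z .L .L) (.X .L .L)))) (.X (.X (.Z .L .L) (.Z .L .L)) (.X (.Z .L .L) (.Z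
  .L .L)))) (.X (.X (.Z (.Z .L .L) (.Z .L .L)) (.Z (.Z .L .L) (.Z .L .L))) (.X (.Z (.Z .L .L) (.Z
  .L .L)) (.Z (.Z .L .L) (.Z .L .L)))))
theorem rbn15 : bisT (okN KRb) rbn15t 593736278999 692692325499 0 575750000000 274877906944 824633720832 = true := by
  decide +kernel

def rbn16t : BT := (.X (.Z (.Z (.Z (.X (.Z (.X .L .L) .L) (.Z (.X .L .L) .L)) (.Z (.X .L .L) .L))
  (.X (.Z .L .L) (.Z .L .L))) (.Y (.Z .L .L) (.Z (.Z .L .L) (.Z .L .L)))) (.Z (.Z (.Z (.X (.Z (.X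
  .L .L) .L) (.Z (.X .L .L) .L)) (.Y .L (.X .L .L))) (.Z (.X .L .L) .L)) (.Z (.Z .L .L) (.Z .L
  .L))))
theorem rbn16 : bisT (okN KRb) rbn16t 692692325499 791648371999 0 575750000000 274877906944 824633720832 = true := by
  decide +kernel

def rbn14t : BT := BT.X rbn15t rbn16t
theorem rbn14 : bisT (okN KRb) rbn14t 593736278999 791648371999 0 575750000000 274877906944 824633720832 = true :=
  bisT_X 692692325499 rbn15 rbn16 rfl

def rbn10t : BT := BT.X rbn11t rbn14t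
theorem rbn10 : bisT (okN KRb) rbn10t 395824185999 791648371999 0 575750000000 274877906944 824633720832 = true :=
  bisT_X 593736278999 rbn11 rbn14 rfl

def rbn17t : BT := (.Y (.Y (.X (.X .L (.Z .L .L)) (.X (.Z (.Z .L .L) (.Z .L .L)) (.X (.Z (.Z .L
  .L) (.Z .L .L)) (.Z (.Y (.Z .L .L) .L) (.Z .L .L))))) .L) .L)
theorem rbn17 : bisT (okN KRb) rbn17t 395824185999 791648371999 575750000000 1151500000000 274877906944 824633720832 = true := by
  decide +kernel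

def rbn9t : BT := BT.Y rbn10t rbn17t
theorem rbn9 : bisT (okN KRb) rbn9t 395824185999 791648371999 0 1151500000000 274877906944 824633720832 = true :=
  bisT_Y 575750000000 rbn10 rbn17 rfl

def rbn1t : BT := BT.X rbn2t rbn9t
theorem rbn1 : bisT (okN KRb) rbn1t 0 791648371999 0 1151500000000 274877906944 824633720832 = true :=
  bisT_X 395824185999 rbn2 rbn9 rfl

def rbn18t : BT := BT.L
theorem rbn18 : bisT (okN KRb) rbn18t 0 791648371999 1151500000000 2303000000000 274877906944 824633720832 = true := by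
  decide +kernel

def rbn0t : BT := BT.Y rbn1t rbn18t
theorem rbn0 : bisT (okN KRb) rbn0t 0 791648371999 0 2303000000000 274877906944 824633720832 = true :=
  bisT_Y 1151500000000 rbn1 rbn18 rfl

theorem rbn : bisT (okN KRb) rbn0t 0 791648371999 0 2303000000000 274877906944 824633720832 = true := rbn0

end SokamCel

end

/-! ### Lib_MP_af4de1_v3.RunRbX -/

section
namespace SokamFN
end SokamFN
/-!
# Right side, the run of the field `b` (`27/5 ≤ Γ`, `1/4 ≤ τ ≤ 3/4`; targets `3/50, 7/100, 3/20`)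
-/

set_option autoImplicit false

namespace SokamCel

open SokamFN

theorem KRb_ok : KRb.P.Ok (5 / 4) (27 / 20) (6 / 5) (6 / 5) where
  hM := by exact_mod_cast Mem.const 5 4 (by norm_num)
  hN := by
    have h := Mem.const 4 5 (by norm_num)
    norm_num at h ⊢
    exact h
  hq := by exact_mod_cast Mem.const 27 20 (by norm_num)
  hg := by
    have h := Mem.const 3 5 (by norm_num)
    norm_num at h ⊢
    exact h
  hk := by exact_mod_cast Mem.const 6 5 (by norm_num)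
  pos := by norm_num
  le := by norm_num

theorem runR_b : RunOK (27 / 20) (6 / 5) (6 / 5) (1 / 4) (3 / 4) (27 / 5) (100 / 499) (1 / 300000)
    (1 / 9000) (1 / 700000) (3 / 50) (7 / 100) (3 / 20) := by
  have L : KRb.Le (1 / 300000) (1 / 9000) (1 / 700000) (3 / 50) (7 / 100) (3 / 20) := by
    refine ⟨?_, ?_, ?_, ?_, ?_, ?_⟩
    · show (1 / 300000 : ℝ) ≤ fx 3665039
      unfold fx; norm_num
    · show (1 / 9000 : ℝ) ≤ fx 122167959
      unfold fx; norm_num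
    · show (1 / 700000 : ℝ) ≤ fx 1570732
      unfold fx; norm_num
    · show fx 65970697666 ≤ (3 / 50 : ℝ)
      unfold fx; norm_num
    · show fx 76965813944 ≤ (7 / 100 : ℝ)
      unfold fx; norm_num
    · show fx 164926744166 ≤ (3 / 20 : ℝ)
      unfold fx; norm_num
  have ey : 2 * Real.pi / 3 ≤ fx 2303000000000 := by
    have h := Real.pi_lt_d4
    unfold fx
    norm_num at h ⊢
    linarith
  have ez0 : fx 274877906944 ≤ (1 / 4 : ℝ) := by unfold fx; norm_num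
  have ez1 : (3 / 4 : ℝ) ≤ fx 824633720832 := by unfold fx; norm_num
  have ec : (7 / 10 : ℝ) ≤ fx 769658139444 := by unfold fx; norm_num
  have en : (18 / 25 : ℝ) ≤ fx 791648371999 := by unfold fx; norm_num
  have eH : (100 / 499 : ℝ) ≤ fx KRb.H := by
    show (100 / 499 : ℝ) ≤ fx 220343011579
    unfold fx; norm_num
  have eG : fx KRb.G0 ≤ (27 / 5 : ℝ) := by
    show fx 5937362789990 ≤ (27 / 5 : ℝ)
    unfold fx; norm_num
  intro N r δ η c ν h τ Γ s tp t0 t1 g0 hc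
  refine run_of (K := KRb) (t0 := 1 / 4) (t1 := 3 / 4) ?_ ?_ (s.dmR tp (hc.trans eH) (eG.trans g0)) s.h1
    t0 t1
  · intro c h τ a1 a2 a3 a4 a5 a6
    exact bisT_sound (okC_sound KRb_ok L) _ _ _ _ _ _ _ rbc c h τ (by rw [fx_zero]; exact a1.le)
      (a2.trans ec) (by rw [fx_zero]; exact a3.le) (a4.trans ey) (ez0.trans a5) (a6.trans ez1)
  · intro ν h τ a1 a2 a3 a4 a5 a6
    exact bisT_sound (okN_sound KRb_ok L) _ _ _ _ _ _ _ rbn ν h τ (by rw [fx_zero]; exact a1.le)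
      (a2.trans en) (by rw [fx_zero]; exact a3.le) (a4.trans ey) (ez0.trans a5) (a6.trans ez1)

end SokamCel

end
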