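import Pool.Agent.Lib_MP_af4de1_zy.Z119
import Pool.Agent.Lib_MP_af4de1_zy.Z121
import Pool.Agent.Lib_MP_af4de1_zy.Z122
import Pool.Agent.Lib_MP_af4de1_zy.Z133

/-! ### Lib_MP_af4de1_v3.DzRLk -/

section
namespace SokamCen
end SokamCen
namespace SokamV3
end SokamV3
/-!
# `PRealDL`, `X ≤ 80`, the far groups (helper25)
-/

set_option autoImplicit false

namespace SokamDz

open Real MeasureTheory Set SokamCen SokamV3

variable {r ρ t p y x X : ℝ}

theorem fk_sqrt {r : ℝ} (hr : 0 ≤ r) : √r ≤ 7072 / 100000 * (r + 50) := by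
  rw [Real.sqrt_le_left (by positivity)]
  nlinarith [sq_nonneg (r - 50)]

/-- `1/y ≤ .457 r` -/
theorem Pr.ry (h : Pr ρ t p y x) (hr : 0 < r) (hX : X = r * x ^ (2 : ℕ)) (hX1 : 108 / 5 ≤ X)
    (ht : t ≤ π) : 1000 / 457 ≤ r * y := by
  have hy := h.y0
  have ht0 := h.t0
  have h1 : t ^ (2 : ℕ) ≤ 3.1416 ^ (2 : ℕ) := pow_le_pow_left₀ ht0.le (by linarith only [ht, Real.pi_lt_d4]) 2
  have h2 : x ^ (2 : ℕ) ≤ 3.1416 ^ (2 : ℕ) * y := by
    rw [← h.ts]
    exact mul_le_mul_of_nonneg_right h1 hy.le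
  have h3 : r * x ^ (2 : ℕ) ≤ r * (3.1416 ^ (2 : ℕ) * y) := mul_le_mul_of_nonneg_left h2 hr.le
  rw [← hX] at h3
  have h4 : 108 / 5 ≤ 3.1416 ^ (2 : ℕ) * (r * y) := by linarith only [hX1, h3]
  linarith only [h4]

theorem Pr.paa (h : Pr ρ t p y x) : p * aa p = 4 / 5 - 8 / 25 * p := by
  have hp := h.p0
  unfold aa
  field_simp

theorem Pr.fk_l (h : Pr ρ t p y x) (hr : 0 < r) (hX : X = r * x ^ (2 : ℕ)) (hX1 : 108 / 5 ≤ X)
    (hx : x ≤ 6331 / 5000) (ht : t ≤ π) :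
    √(PP p y / SokamDz.lA ρ t) ≤ √(27 / 25 * r) := by
  have hp := h.p0
  have hp1 := h.p1
  have hy := h.y0
  have hk := h.k_ge hx
  have hry := h.ry hr hX hX1 ht
  have ha := aa_pos hp hp1
  have hyp := h.hy
  have hA : 0 < SokamDz.lA ρ t := by
    rw [h.lA]
    exact mul_pos (mul_pos (by linarith only [ha]) hy) (by linarith only [hk])
  refine Real.sqrt_le_sqrt ?_
  rw [div_le_iff₀ hA]
  unfold PP
  rw [div_le_iff₀ hp, h.lA]
  have e : 27 / 25 * r * (aa p * y * min 1 (mm ρ / t)) * p =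
      27 / 25 * (r * y) * min 1 (mm ρ / t) * (p * aa p) := by ring
  rw [e, h.paa]
  have h0 : 0 < 4 / 5 - 8 / 25 * p := by linarith only [hp1]
  have h1 : 23325 / 10000 ≤ 27 / 25 * (r * y) * min 1 (mm ρ / t) := by
    have h2 : 27 / 25 * (1000 / 457) * (987 / 1000) ≤ 27 / 25 * (r * y) * min 1 (mm ρ / t) :=
      mul_le_mul (by linarith only [hry]) hk (by norm_num) (by positivity)
    have h3 : (23325 : ℝ) / 10000 ≤ 27 / 25 * (1000 / 457) * (987 / 1000) := by norm_num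
    linarith only [h2]
  refine le_trans ?_ (mul_le_mul_of_nonneg_right h1 h0.le)
  rw [hyp]
  nlinarith only [sq_nonneg (p - 583 / 1000)]

theorem Pr.fk_r (h : Pr ρ t p y x) (hr : 0 < r) (hX : X = r * x ^ (2 : ℕ)) (hX1 : 108 / 5 ≤ X)
    (ht : t ≤ π) : √(PP p y / SokamDz.rA ρ (2 * π - t)) ≤ √(7 * r) := by
  have hp := h.p0
  have hp1 := h.p1
  have hy := h.y0
  have ht0 := h.t0
  have hpi := Real.pi_pos
  have hφ : 0 < 2 * π - t := by linarith only [ht, hpi]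
  have hry := h.ry hr hX hX1 ht
  have ha := aa_pos hp hp1
  have hA := h.rA_ge hφ
  have hA0 := h.rA0 hφ
  have hyp := h.hy
  have hk : 1989 / 10000 ≤ min 1 (mm ρ / (2 * π - t)) := by
    refine le_min (by norm_num) ?_
    rw [le_div_iff₀ hφ]
    have := h.m1
    have := Real.pi_lt_d4
    nlinarith
  have h1 : (aa p - 7 / 50) * (y * (1989 / 10000)) ≤ SokamDz.rA ρ (2 * π - t) :=
    le_trans (mul_le_mul_of_nonneg_left (mul_le_mul_of_nonneg_left hk hy.le) (by linarith only [ha])) hA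
  refine Real.sqrt_le_sqrt ?_
  rw [div_le_iff₀ hA0]
  unfold PP
  rw [div_le_iff₀ hp]
  have h2 : 7 * r * ((aa p - 7 / 50) * (y * (1989 / 10000))) * p ≤
      7 * r * SokamDz.rA ρ (2 * π - t) * p :=
    mul_le_mul_of_nonneg_right (mul_le_mul_of_nonneg_left h1 (by positivity)) hp.le
  refine le_trans ?_ h2
  have e : 7 * r * ((aa p - 7 / 50) * (y * (1989 / 10000))) * p =
      7 * (r * y) * (1989 / 10000) * (p * aa p - 7 / 50 * p) := by ring
  rw [e, h.paa]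
  have h0 : 0 < 4 / 5 - 8 / 25 * p - 7 / 50 * p := by linarith only [hp1]
  have h3 : 3 ≤ 7 * (r * y) * (1989 / 10000) := by linarith only [hry]
  refine le_trans ?_ (mul_le_mul_of_nonneg_right h3 h0.le)
  rw [hyp]
  nlinarith only [sq_nonneg (p - 1078 / 1000)]

/-- decay -/
theorem fk_exp {w w0 z k : ℝ} (hz : 0 ≤ z) (hk : 0 ≤ k) (hw : w0 + k * z ≤ w) :
    exp (-w) * (1 + k * z + (k * z) ^ (2 : ℕ) / 2) ≤ exp (-w0) := by
  have h1 : 0 ≤ k * z := mul_nonneg hk hz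
  have h2 := Real.quadratic_le_exp_of_nonneg h1
  have h3 : exp (-w) ≤ exp (-w0) * exp (-(k * z)) := by
    rw [← Real.exp_add]
    exact Real.exp_le_exp.2 (by linarith only [hw])
  have h4 : exp (-(k * z)) * exp (k * z) = 1 := by
    rw [← Real.exp_add, neg_add_cancel, Real.exp_zero]
  have h5 := exp_pos (-(k * z))
  have h6 := exp_pos (-w0)
  calc exp (-w) * (1 + k * z + (k * z) ^ (2 : ℕ) / 2) ≤
      exp (-w0) * exp (-(k * z)) * (1 + k * z + (k * z) ^ (2 : ℕ) / 2) :=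
        mul_le_mul_of_nonneg_right h3 (by positivity)
    _ ≤ exp (-w0) * exp (-(k * z)) * exp (k * z) :=
        mul_le_mul_of_nonneg_left h2 (by positivity)
    _ = exp (-w0) := by rw [mul_assoc, h4, mul_one]

/-- the far groups -/
theorem Pr.gF (h : Pr ρ t p y x) (hr : 499 / 10 ≤ r) (hX : X = r * x ^ (2 : ℕ)) (hX1 : 108 / 5 ≤ X)
    (hX2 : X ≤ 80) (ht : t ≤ π) : gFok r ρ t X (31 / 1000) := by
  have hr0 : 0 < r := by linarith only [hr, hX]
  have hx := h.x_le hr hX hX2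
  have hy := h.y0
  have ht0 := h.t0
  have hpi := Real.pi_pos
  have ha := aa_pos h.p0 h.p1
  have hk := h.k_ge hx
  have hφ : 0 < 2 * π - t := by linarith only [ht, hpi]
  have hA : 0 < SokamDz.lA ρ t := by
    rw [h.lA]
    exact mul_pos (mul_pos (by linarith only [ha]) hy) (by linarith only [hk])
  have hB := h.rA0 hφ
  have hs := fk_sqrt hr0.le
  have hs0 : 0 ≤ √r := Real.sqrt_nonneg r
  have hP := h.PP0
  -- left
  have l1 : SokamDz.Kc r ρ * √(3 * π / (r * SokamDz.lA ρ t)) ≤ 1273 / 1000 * √r := by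
    have e1 : √(3 * π / (r * SokamDz.lA ρ t)) = √3 * √(π / (r * SokamDz.lA ρ t)) := by
      rw [← Real.sqrt_mul (by norm_num)]
      congr 1
      ring
    have h1 := h.K1 hr0 hA
    have h2 := h.fk_l hr0 hX hX1 hx ht
    have e2 : √3 * √(27 / 25 * r) = 9 / 5 * √r := by
      rw [← Real.sqrt_mul (by norm_num)]
      have : (3 : ℝ) * (27 / 25 * r) = (9 / 5) ^ (2 : ℕ) * r := by ring
      rw [this, Real.sqrt_mul (by positivity), Real.sqrt_sq (by norm_num)]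
    have h3 : √3 * (SokamDz.Kc r ρ * √(π / (r * SokamDz.lA ρ t))) ≤
        √3 * (7072 / 10000 * √(27 / 25 * r)) :=
      mul_le_mul_of_nonneg_left (h1.trans (mul_le_mul_of_nonneg_left h2 (by norm_num)))
        (Real.sqrt_nonneg _)
    calc SokamDz.Kc r ρ * √(3 * π / (r * SokamDz.lA ρ t)) =
        √3 * (SokamDz.Kc r ρ * √(π / (r * SokamDz.lA ρ t))) := by rw [e1]; ring
      _ ≤ √3 * (7072 / 10000 * √(27 / 25 * r)) := h3
      _ = 7072 / 10000 * (√3 * √(27 / 25 * r)) := by ring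
      _ = 7072 / 10000 * (9 / 5 * √r) := by rw [e2]
      _ ≤ _ := by linarith only [hs0]
  have r1 : SokamDz.Kc r ρ * √(π / (r * SokamDz.rA ρ (2 * π - t))) ≤ 1872 / 1000 * √r := by
    have h1 := h.K1 hr0 hB
    have h2 := h.fk_r hr0 hX hX1 ht
    have e2 : √(7 * r) ≤ 2646 / 1000 * √r := by
      rw [Real.sqrt_mul (by norm_num)]
      refine mul_le_mul_of_nonneg_right ?_ hs0
      rw [Real.sqrt_le_left (by norm_num)]
      norm_num
    refine h1.trans ((mul_le_mul_of_nonneg_left (h2.trans e2) (by norm_num)).trans ?_)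
    linarith only [hs0]
  obtain ⟨z, hz⟩ : ∃ z, z = r - 499 / 10 := ⟨_, rfl⟩
  have hz0 : 0 ≤ z := by rw [hz]; linarith only [hr]
  have hrz : r = 499 / 10 + z := by rw [hz]; ring
  have hD := exp_pos (-(68 / 5))
  -- exponentials
  have x1 : exp (-(r * (1 / 2))) = exp (-(68 / 5)) * exp (-(r / 2 - 68 / 5)) := by
    rw [← Real.exp_add]
    congr 1
    ring
  have x2 : exp (-(r * (3168 / 5000))) =
      exp (-(68 / 5)) * exp (-(r * (3168 / 5000) - 68 / 5)) := by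
    rw [← Real.exp_add]
    congr 1
    ring
  have y1 := fk_exp (w := r / 2 - 68 / 5) (w0 := 1135 / 100) (k := 1 / 2) hz0 (by norm_num)
    (by rw [hrz]; linarith only [])
  have y2 := fk_exp (w := r * (3168 / 5000) - 68 / 5) (w0 := 18) (k := 3 / 5) hz0 (by norm_num)
    (by rw [hrz]; linarith only [hz0])
  have v1 : exp (-(1135 / 100)) ≤ 118 / 10000000 :=
    ex_neg 11 (35 / 100) (by norm_num) (by norm_num) (by norm_num) (by norm_num)
  have v2 : exp (-18) ≤ 16 / 1000000000 :=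
    ex_neg 18 0 (by norm_num) (by norm_num) (by norm_num) (by norm_num)
  have w1 := exp_pos (-(r / 2 - 68 / 5))
  have w2 := exp_pos (-(r * (3168 / 5000) - 68 / 5))
  have g1 : (4 * r + 1) * (SokamDz.Kc r ρ * lF r ρ t (1 / 2)) ≤
      30 / 1000 * (54 / 125 * exp (-(68 / 5))) := by
    unfold lF
    have e : (4 * r + 1) * (SokamDz.Kc r ρ * (√(3 * π / (r * SokamDz.lA ρ t)) / 2 *
        exp (-(r * (1 / 2))))) = (SokamDz.Kc r ρ * √(3 * π / (r * SokamDz.lA ρ t))) *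
        ((4 * r + 1) / 2 * exp (-(r * (1 / 2)))) := by ring
    rw [e]
    have h2 : SokamDz.Kc r ρ * √(3 * π / (r * SokamDz.lA ρ t)) ≤
        1273 / 1000 * (7072 / 100000 * (r + 50)) :=
      l1.trans (mul_le_mul_of_nonneg_left hs (by norm_num))
    refine (mul_le_mul_of_nonneg_right h2 (by positivity)).trans ?_
    rw [x1]
    have h3 : 1273 / 1000 * (7072 / 100000 * (r + 50)) * ((4 * r + 1) / 2) *
        exp (-(r / 2 - 68 / 5)) ≤ 30 / 1000 * (54 / 125) := by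
      have h4 : 1273 / 1000 * (7072 / 100000 * (r + 50)) * ((4 * r + 1) / 2) ≤
          903 * (1 + 1 / 2 * z + (1 / 2 * z) ^ (2 : ℕ) / 2) := by
        rw [hrz]
        nlinarith only [hz0]
      calc _ ≤ 903 * (1 + 1 / 2 * z + (1 / 2 * z) ^ (2 : ℕ) / 2) * exp (-(r / 2 - 68 / 5)) :=
            mul_le_mul_of_nonneg_right h4 w1.le
        _ = 903 * (exp (-(r / 2 - 68 / 5)) * (1 + 1 / 2 * z + (1 / 2 * z) ^ (2 : ℕ) / 2)) := by ring
        _ ≤ 903 * exp (-(1135 / 100)) := mul_le_mul_of_nonneg_left y1 (by norm_num)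
        _ ≤ _ := by linarith only [v1]
    calc _ = exp (-(68 / 5)) * (1273 / 1000 * (7072 / 100000 * (r + 50)) * ((4 * r + 1) / 2) *
        exp (-(r / 2 - 68 / 5))) := by ring
      _ ≤ exp (-(68 / 5)) * (30 / 1000 * (54 / 125)) := mul_le_mul_of_nonneg_left h3 hD.le
      _ = _ := by ring
  have g2 : (14 * r + 68 / 25) * (SokamDz.Kc r ρ * rF r ρ (2 * π - t)) ≤
      1 / 1000 * (54 / 125 * exp (-(68 / 5))) := by
    unfold rF
    have e : (14 * r + 68 / 25) * (SokamDz.Kc r ρ * (√(π / (r * SokamDz.rA ρ (2 * π - t))) / 2 *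
        exp (-(r * (3168 / 5000))))) = (SokamDz.Kc r ρ * √(π / (r * SokamDz.rA ρ (2 * π - t)))) *
        ((14 * r + 68 / 25) / 2 * exp (-(r * (3168 / 5000)))) := by ring
    rw [e]
    have h2 : SokamDz.Kc r ρ * √(π / (r * SokamDz.rA ρ (2 * π - t))) ≤
        1872 / 1000 * (7072 / 100000 * (r + 50)) :=
      r1.trans (mul_le_mul_of_nonneg_left hs (by norm_num))
    refine (mul_le_mul_of_nonneg_right h2 (by positivity)).trans ?_
    rw [x2]
    have h3 : 1872 / 1000 * (7072 / 100000 * (r + 50)) * ((14 * r + 68 / 25) / 2) *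
        exp (-(r * (3168 / 5000) - 68 / 5)) ≤ 1 / 1000 * (54 / 125) := by
      have h4 : 1872 / 1000 * (7072 / 100000 * (r + 50)) * ((14 * r + 68 / 25) / 2) ≤
          4640 * (1 + 3 / 5 * z + (3 / 5 * z) ^ (2 : ℕ) / 2) := by
        rw [hrz]
        nlinarith only [hz0]
      calc _ ≤ 4640 * (1 + 3 / 5 * z + (3 / 5 * z) ^ (2 : ℕ) / 2) *
            exp (-(r * (3168 / 5000) - 68 / 5)) := mul_le_mul_of_nonneg_right h4 w2.le
        _ = 4640 * (exp (-(r * (3168 / 5000) - 68 / 5)) *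
            (1 + 3 / 5 * z + (3 / 5 * z) ^ (2 : ℕ) / 2)) := by ring
        _ ≤ 4640 * exp (-18) := mul_le_mul_of_nonneg_left y2 (by norm_num)
        _ ≤ _ := by linarith only [v2]
    calc _ = exp (-(68 / 5)) * (1872 / 1000 * (7072 / 100000 * (r + 50)) *
        ((14 * r + 68 / 25) / 2) * exp (-(r * (3168 / 5000) - 68 / 5))) := by ring
      _ ≤ exp (-(68 / 5)) * (1 / 1000 * (54 / 125)) := mul_le_mul_of_nonneg_left h3 hD.le
      _ = _ := by ring
  unfold gFok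
  have hX3 : exp (-(68 / 5)) ≤ exp (-(17 / 100 * X)) := Real.exp_le_exp.2 (by linarith only [hX2])
  calc _ ≤ 31 / 1000 * (54 / 125 * exp (-(68 / 5))) := by linarith only [g1, g2]
    _ ≤ _ := by
        refine mul_le_mul_of_nonneg_left ?_ (by norm_num)
        exact mul_le_mul_of_nonneg_left hX3 (by norm_num)

end SokamDz

end

/-! ### Lib_MP_af4de1_v3.DzRLm -/

section
namespace SokamCen
end SokamCen
namespace SokamV3
end SokamV3
/-!
# `PRealDL`, `X ≤ 80`, the main term for `t ≥ 14/5` (helper25)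
-/

set_option autoImplicit false

namespace SokamDz

open Real MeasureTheory Set SokamCen SokamV3

variable {r ρ t p y x X : ℝ}

theorem cM1 {p : ℝ} (h0 : 4859 / 5000 ≤ p) (h1 : p ≤ 1) :
    2271 / 5000 * ((1 - p ^ (2 : ℕ)) * (20 - 8 * p) + 25 * (519 / 2000) * p) ≤
      519 / 2000 * (20 - 8 * p) := by
  obtain ⟨s, hs⟩ : ∃ s, s = p - 4859 / 5000 := ⟨_, rfl⟩
  obtain ⟨w, hw⟩ : ∃ w, w = 1 - p := ⟨_, rfl⟩
  have s0 : 0 ≤ s := by rw [hs]; linarith only [h0]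
  have w0 : 0 ≤ w := by rw [hw]; linarith only [h1]
  have e : 519 / 2000 * (20 - 8 * p) -
    (2271 / 5000 * ((1 - p ^ (2 : ℕ)) * (20 - 8 * p) + 25 * (519 / 2000) * p)) =
      4333137823 / 389336250 * s ^ (0 : ℕ) * w ^ (3 : ℕ) +
      2349423569 / 311469 * s ^ (1 : ℕ) * w ^ (2 : ℕ) +
      9343552625 / 622938 * s ^ (2 : ℕ) * w ^ (1 : ℕ) +
      2324687500 / 311469 * s ^ (3 : ℕ) * w ^ (0 : ℕ) := by
    rw [hs, hw]; ring
  have hp : 0 ≤ 519 / 2000 * (20 - 8 * p) -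
    (2271 / 5000 * ((1 - p ^ (2 : ℕ)) * (20 - 8 * p) + 25 * (519 / 2000) * p)) := by
    rw [e]; (clear * - w0 s0; positivity)
  linarith only [hp]

theorem sM1 {p : ℝ} (h0 : 4859 / 5000 ≤ p) (h1 : p ≤ 1) :
    1 + 16 / 25 * (1 - p ^ (2 : ℕ)) ≤
      1927 / 500 * ((4 / 5 - 8 / 25 * p) * (1 - p ^ (2 : ℕ)) * (1) + 519 / 2000 * p) := by
  obtain ⟨s, hs⟩ : ∃ s, s = p - 4859 / 5000 := ⟨_, rfl⟩
  obtain ⟨w, hw⟩ : ∃ w, w = 1 - p := ⟨_, rfl⟩
  have s0 : 0 ≤ s := by rw [hs]; linarith only [h0]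
  have w0 : 0 ≤ w := by rw [hw]; linarith only [h1]
  have e : 1927 / 500 * ((4 / 5 - 8 / 25 * p) * (1 - p ^ (2 : ℕ)) * (1) + 519 / 2000 * p) -
    (1 + 16 / 25 * (1 - p ^ (2 : ℕ))) =
      16062880680641 / 8760065625 * s ^ (0 : ℕ) * w ^ (3 : ℕ) +
      16960611082 / 4672035 * s ^ (1 : ℕ) * w ^ (2 : ℕ) +
      560768075 / 311469 * s ^ (2 : ℕ) * w ^ (1 : ℕ) +
      14125000 / 2803221 * s ^ (3 : ℕ) * w ^ (0 : ℕ) := by
    rw [hs, hw]; ring
  have hp : 0 ≤ 1927 / 500 * ((4 / 5 - 8 / 25 * p) * (1 - p ^ (2 : ℕ)) * (1) + 519 / 2000 * p) -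
    (1 + 16 / 25 * (1 - p ^ (2 : ℕ))) := by
    rw [e]; (clear * - w0 s0; positivity)
  linarith only [hp]

theorem eM1 : 519 / 2000 ≤ 11 / 25 * exp (-(4 / 5 * (33 / 50))) := by
  have h1 : exp (4 / 5 * (33 / 50)) ≤ 1 / (519 / 880) := by
    have := Real.exp_bound' (x := 4 / 5 * (33 / 50)) (by norm_num) (by norm_num) (n := 8)
      (by norm_num)
    simp only [Finset.sum_range_succ, Finset.sum_range_zero, Nat.factorial] at this
    norm_num at this ⊢
    linarith only [this]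
  have := exp_neg_ge (by norm_num) h1
  linarith only [this]

theorem cM2 {p : ℝ} (h0 : 4841 / 5000 ≤ p) (h1 : p ≤ 1) :
    899 / 2000 * ((1 - p ^ (2 : ℕ)) * (20 - 8 * p) + 25 * (2513 / 10000) * p) ≤
      2513 / 10000 * (20 - 8 * p) := by
  obtain ⟨s, hs⟩ : ∃ s, s = p - 4841 / 5000 := ⟨_, rfl⟩
  obtain ⟨w, hw⟩ : ∃ w, w = 1 - p := ⟨_, rfl⟩
  have s0 : 0 ≤ s := by rw [hs]; linarith only [h0]
  have w0 : 0 ≤ w := by rw [hw]; linarith only [h1]
  have e : 2513 / 10000 * (20 - 8 * p) -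
    (899 / 2000 * ((1 - p ^ (2 : ℕ)) * (20 - 8 * p) + 25 * (2513 / 10000) * p)) =
      36792615967 / 2009839500 * s ^ (0 : ℕ) * w ^ (3 : ℕ) +
      16198378915 / 2679786 * s ^ (1 : ℕ) * w ^ (2 : ℕ) +
      64253958875 / 5359572 * s ^ (2 : ℕ) * w ^ (1 : ℕ) +
      23952031250 / 4019679 * s ^ (3 : ℕ) * w ^ (0 : ℕ) := by
    rw [hs, hw]; ring
  have hp : 0 ≤ 2513 / 10000 * (20 - 8 * p) -
    (899 / 2000 * ((1 - p ^ (2 : ℕ)) * (20 - 8 * p) + 25 * (2513 / 10000) * p)) := by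
    rw [e]; (clear * - w0 s0; positivity)
  linarith only [hp]

theorem sM2 {p : ℝ} (h0 : 4841 / 5000 ≤ p) (h1 : p ≤ 1) :
    1 + 16 / 25 * (1 - p ^ (2 : ℕ)) ≤
      199 / 50 * ((4 / 5 - 8 / 25 * p) * (1 - p ^ (2 : ℕ)) * (1) + 2513 / 10000 * p) := by
  obtain ⟨s, hs⟩ : ∃ s, s = p - 4841 / 5000 := ⟨_, rfl⟩
  obtain ⟨w, hw⟩ : ∃ w, w = 1 - p := ⟨_, rfl⟩
  have s0 : 0 ≤ s := by rw [hs]; linarith only [h0]
  have w0 : 0 ≤ w := by rw [hw]; linarith only [h1]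
  have e : 199 / 50 * ((4 / 5 - 8 / 25 * p) * (1 - p ^ (2 : ℕ)) * (1) + 2513 / 10000 * p) -
    (1 + 16 / 25 * (1 - p ^ (2 : ℕ))) =
      1312919331422 / 837433125 * s ^ (0 : ℕ) * w ^ (3 : ℕ) +
      1386068956 / 446631 * s ^ (1 : ℕ) * w ^ (2 : ℕ) +
      229231050 / 148877 * s ^ (2 : ℕ) * w ^ (1 : ℕ) +
      7250000 / 1339893 * s ^ (3 : ℕ) * w ^ (0 : ℕ) := by
    rw [hs, hw]; ring
  have hp : 0 ≤ 199 / 50 * ((4 / 5 - 8 / 25 * p) * (1 - p ^ (2 : ℕ)) * (1) + 2513 / 10000 * p) -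
    (1 + 16 / 25 * (1 - p ^ (2 : ℕ))) := by
    rw [e]; (clear * - w0 s0; positivity)
  linarith only [hp]

theorem eM2 : 2513 / 10000 ≤ 11 / 25 * exp (-(4 / 5 * (7 / 10))) := by
  have h1 : exp (4 / 5 * (7 / 10)) ≤ 1 / (2513 / 4400) := by
    have := Real.exp_bound' (x := 4 / 5 * (7 / 10)) (by norm_num) (by norm_num) (n := 8)
      (by norm_num)
    simp only [Finset.sum_range_succ, Finset.sum_range_zero, Nat.factorial] at this
    norm_num at this ⊢
    linarith only [this]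
  have := exp_neg_ge (by norm_num) h1
  linarith only [this]

theorem cM3 {p : ℝ} (h0 : 4817 / 5000 ≤ p) (h1 : p ≤ 1) :
    443 / 1000 * ((1 - p ^ (2 : ℕ)) * (20 - 8 * p) + 25 * (1207 / 5000) * p) ≤
      1207 / 5000 * (20 - 8 * p) := by
  obtain ⟨s, hs⟩ : ∃ s, s = p - 4817 / 5000 := ⟨_, rfl⟩
  obtain ⟨w, hw⟩ : ∃ w, w = 1 - p := ⟨_, rfl⟩
  have s0 : 0 ≤ s := by rw [hs]; linarith only [h0]
  have w0 : 0 ≤ w := by rw [hw]; linarith only [h1]
  have e : 1207 / 5000 * (20 - 8 * p) -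
    (443 / 1000 * ((1 - p ^ (2 : ℕ)) * (20 - 8 * p) + 25 * (1207 / 5000) * p)) =
      7750899116 / 766060875 * s ^ (0 : ℕ) * w ^ (3 : ℕ) +
      9429721070 / 2042829 * s ^ (1 : ℕ) * w ^ (2 : ℕ) +
      6240083375 / 680943 * s ^ (2 : ℕ) * w ^ (1 : ℕ) +
      27911875000 / 6128487 * s ^ (3 : ℕ) * w ^ (0 : ℕ) := by
    rw [hs, hw]; ring
  have hp : 0 ≤ 1207 / 5000 * (20 - 8 * p) -
    (443 / 1000 * ((1 - p ^ (2 : ℕ)) * (20 - 8 * p) + 25 * (1207 / 5000) * p)) := by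
    rw [e]; (clear * - w0 s0; positivity)
  linarith only [hp]

theorem sM3 {p : ℝ} (h0 : 4817 / 5000 ≤ p) (h1 : p ≤ 1) :
    1 + 16 / 25 * (1 - p ^ (2 : ℕ)) ≤
      4143 / 1000 * ((4 / 5 - 8 / 25 * p) * (1 - p ^ (2 : ℕ)) * (1) + 1207 / 5000 * p) := by
  obtain ⟨s, hs⟩ : ∃ s, s = p - 4817 / 5000 := ⟨_, rfl⟩
  obtain ⟨w, hw⟩ : ∃ w, w = 1 - p := ⟨_, rfl⟩
  have s0 : 0 ≤ s := by rw [hs]; linarith only [h0]
  have w0 : 0 ≤ w := by rw [hw]; linarith only [h1]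
  have e : 4143 / 1000 * ((4 / 5 - 8 / 25 * p) * (1 - p ^ (2 : ℕ)) * (1) + 1207 / 5000 * p) -
    (1 + 16 / 25 * (1 - p ^ (2 : ℕ))) =
      24967396636484 / 19151521875 * s ^ (0 : ℕ) * w ^ (3 : ℕ) +
      2924490354 / 1134905 * s ^ (1 : ℕ) * w ^ (2 : ℕ) +
      2603193695 / 2042829 * s ^ (2 : ℕ) * w ^ (1 : ℕ) +
      15025000 / 6128487 * s ^ (3 : ℕ) * w ^ (0 : ℕ) := by
    rw [hs, hw]; ring
  have hp : 0 ≤ 4143 / 1000 * ((4 / 5 - 8 / 25 * p) * (1 - p ^ (2 : ℕ)) * (1) + 1207 / 5000 * p) -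
    (1 + 16 / 25 * (1 - p ^ (2 : ℕ))) := by
    rw [e]; (clear * - w0 s0; positivity)
  linarith only [hp]

theorem eM3 : 1207 / 5000 ≤ 11 / 25 * exp (-(4 / 5 * (3 / 4))) := by
  have h1 : exp (4 / 5 * (3 / 4)) ≤ 1 / (1207 / 2200) := by
    have := Real.exp_bound' (x := 4 / 5 * (3 / 4)) (by norm_num) (by norm_num) (n := 8)
      (by norm_num)
    simp only [Finset.sum_range_succ, Finset.sum_range_zero, Nat.factorial] at this
    norm_num at this ⊢
    linarith only [this]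
  have := exp_neg_ge (by norm_num) h1
  linarith only [this]

theorem cM4 {p : ℝ} (h0 : 9469 / 10000 ≤ p) (h1 : p ≤ 1) :
    4187 / 10000 * ((1 - p ^ (2 : ℕ)) * (20 - 8 * p) + 25 * (2141 / 10000) * p) ≤
      2141 / 10000 * (20 - 8 * p) := by
  obtain ⟨s, hs⟩ : ∃ s, s = p - 9469 / 10000 := ⟨_, rfl⟩
  obtain ⟨w, hw⟩ : ∃ w, w = 1 - p := ⟨_, rfl⟩
  have s0 : 0 ≤ s := by rw [hs]; linarith only [h0]
  have w0 : 0 ≤ w := by rw [hw]; linarith only [h1]
  have e : 2141 / 10000 * (20 - 8 * p) -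
    (4187 / 10000 * ((1 - p ^ (2 : ℕ)) * (20 - 8 * p) + 25 * (2141 / 10000) * p)) =
      309806916667 / 187151613750 * s ^ (0 : ℕ) * w ^ (3 : ℕ) +
      110774403674 / 49907097 * s ^ (1 : ℕ) * w ^ (2 : ℕ) +
      220228373975 / 49907097 * s ^ (2 : ℕ) * w ^ (1 : ℕ) +
      328108250000 / 149721291 * s ^ (3 : ℕ) * w ^ (0 : ℕ) := by
    rw [hs, hw]; ring
  have hp : 0 ≤ 2141 / 10000 * (20 - 8 * p) -
    (4187 / 10000 * ((1 - p ^ (2 : ℕ)) * (20 - 8 * p) + 25 * (2141 / 10000) * p)) := by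
    rw [e]; (clear * - w0 s0; positivity)
  linarith only [hp]

theorem sM4 {p : ℝ} (h0 : 9469 / 10000 ≤ p) (h1 : p ≤ 1) :
    1 + 16 / 25 * (1 - p ^ (2 : ℕ)) ≤
      4671 / 1000 * ((4 / 5 - 8 / 25 * p) * (1 - p ^ (2 : ℕ)) * (1) + 2141 / 10000 * p) := by
  obtain ⟨s, hs⟩ : ∃ s, s = p - 9469 / 10000 := ⟨_, rfl⟩
  obtain ⟨w, hw⟩ : ∃ w, w = 1 - p := ⟨_, rfl⟩
  have s0 : 0 ≤ s := by rw [hs]; linarith only [h0]
  have w0 : 0 ≤ w := by rw [hw]; linarith only [h1]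
  have e : 4671 / 1000 * ((4 / 5 - 8 / 25 * p) * (1 - p ^ (2 : ℕ)) * (1) + 2141 / 10000 * p) -
    (1 + 16 / 25 * (1 - p ^ (2 : ℕ))) =
      377458669723489 / 467879034375 * s ^ (0 : ℕ) * w ^ (3 : ℕ) +
      396950695516 / 249535485 * s ^ (1 : ℕ) * w ^ (2 : ℕ) +
      39073650530 / 49907097 * s ^ (2 : ℕ) * w ^ (1 : ℕ) +
      61100000 / 149721291 * s ^ (3 : ℕ) * w ^ (0 : ℕ) := by
    rw [hs, hw]; ring
  have hp : 0 ≤ 4671 / 1000 * ((4 / 5 - 8 / 25 * p) * (1 - p ^ (2 : ℕ)) * (1) + 2141 / 10000 * p) -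
    (1 + 16 / 25 * (1 - p ^ (2 : ℕ))) := by
    rw [e]; (clear * - w0 s0; positivity)
  linarith only [hp]

theorem eM4 : 2141 / 10000 ≤ 11 / 25 * exp (-(4 / 5 * (9 / 10))) := by
  have h1 : exp (4 / 5 * (9 / 10)) ≤ 1 / (2141 / 4400) := by
    have := Real.exp_bound' (x := 4 / 5 * (9 / 10)) (by norm_num) (by norm_num) (n := 8)
      (by norm_num)
    simp only [Finset.sum_range_succ, Finset.sum_range_zero, Nat.factorial] at this
    norm_num at this ⊢
    linarith only [this]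
  have := exp_neg_ge (by norm_num) h1
  linarith only [this]

theorem cM5 {p : ℝ} (h0 : 927 / 1000 ≤ p) (h1 : p ≤ 1) :
    242 / 625 * ((1 - p ^ (2 : ℕ)) * (20 - 8 * p) + 25 * (1899 / 10000) * p) ≤
      1899 / 10000 * (20 - 8 * p) := by
  obtain ⟨s, hs⟩ : ∃ s, s = p - 927 / 1000 := ⟨_, rfl⟩
  obtain ⟨w, hw⟩ : ∃ w, w = 1 - p := ⟨_, rfl⟩
  have s0 : 0 ≤ s := by rw [hs]; linarith only [h0]
  have w0 : 0 ≤ w := by rw [hw]; linarith only [h1]
  have e : 1899 / 10000 * (20 - 8 * p) -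
    (242 / 625 * ((1 - p ^ (2 : ℕ)) * (20 - 8 * p) + 25 * (1899 / 10000) * p)) =
      148499912 / 243135625 * s ^ (0 : ℕ) * w ^ (3 : ℕ) +
      2234433584 / 1945085 * s ^ (1 : ℕ) * w ^ (2 : ℕ) +
      888422136 / 389017 * s ^ (2 : ℕ) * w ^ (1 : ℕ) +
      440568000 / 389017 * s ^ (3 : ℕ) * w ^ (0 : ℕ) := by
    rw [hs, hw]; ring
  have hp : 0 ≤ 1899 / 10000 * (20 - 8 * p) -
    (242 / 625 * ((1 - p ^ (2 : ℕ)) * (20 - 8 * p) + 25 * (1899 / 10000) * p)) := by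
    rw [e]; (clear * - w0 s0; positivity)
  linarith only [hp]

theorem sM5 {p : ℝ} (h0 : 927 / 1000 ≤ p) (h1 : p ≤ 1) :
    1 + 16 / 25 * (1 - p ^ (2 : ℕ)) ≤
      2633 / 500 * ((4 / 5 - 8 / 25 * p) * (1 - p ^ (2 : ℕ)) * (1) + 1899 / 10000 * p) := by
  obtain ⟨s, hs⟩ : ∃ s, s = p - 927 / 1000 := ⟨_, rfl⟩
  obtain ⟨w, hw⟩ : ∃ w, w = 1 - p := ⟨_, rfl⟩
  have s0 : 0 ≤ s := by rw [hs]; linarith only [h0]
  have w0 : 0 ≤ w := by rw [hw]; linarith only [h1]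
  have e : 2633 / 500 * ((4 / 5 - 8 / 25 * p) * (1 - p ^ (2 : ℕ)) * (1) + 1899 / 10000 * p) -
    (1 + 16 / 25 * (1 - p ^ (2 : ℕ))) =
      655808511603 / 1215678125 * s ^ (0 : ℕ) * w ^ (3 : ℕ) +
      10328534146 / 9725425 * s ^ (1 : ℕ) * w ^ (2 : ℕ) +
      1013202509 / 1945085 * s ^ (2 : ℕ) * w ^ (1 : ℕ) +
      13400 / 389017 * s ^ (3 : ℕ) * w ^ (0 : ℕ) := by
    rw [hs, hw]; ring
  have hp : 0 ≤ 2633 / 500 * ((4 / 5 - 8 / 25 * p) * (1 - p ^ (2 : ℕ)) * (1) + 1899 / 10000 * p) -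
    (1 + 16 / 25 * (1 - p ^ (2 : ℕ))) := by
    rw [e]; (clear * - w0 s0; positivity)
  linarith only [hp]

theorem eM5 : 1899 / 10000 ≤ 11 / 25 * exp (-(4 / 5 * (21 / 20))) := by
  have h1 : exp (4 / 5 * (21 / 20)) ≤ 1 / (1899 / 4400) := by
    have := Real.exp_bound' (x := 4 / 5 * (21 / 20)) (by norm_num) (by norm_num) (n := 8)
      (by norm_num)
    simp only [Finset.sum_range_succ, Finset.sum_range_zero, Nat.factorial] at this
    norm_num at this ⊢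
    linarith only [this]
  have := exp_neg_ge (by norm_num) h1
  linarith only [this]

theorem cM6 {p : ℝ} (h0 : 8919 / 10000 ≤ p) (h1 : p ≤ 1) :
    3293 / 10000 * ((1 - p ^ (2 : ℕ)) * (20 - 8 * p) + 25 * (1597 / 10000) * p * (1000 / 987)) ≤
      1597 / 10000 * (20 - 8 * p) := by
  obtain ⟨s, hs⟩ : ∃ s, s = p - 8919 / 10000 := ⟨_, rfl⟩
  obtain ⟨w, hw⟩ : ∃ w, w = 1 - p := ⟨_, rfl⟩
  have s0 : 0 ≤ s := by rw [hs]; linarith only [h0]
  have w0 : 0 ≤ w := by rw [hw]; linarith only [h1]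
  have e : 1597 / 10000 * (20 - 8 * p) -
    (3293 / 10000 * ((1 - p ^ (2 : ℕ)) * (20 - 8 * p) + 25 * (1597 / 10000) * p * (1000 / 987))) =
      22854370901077 / 519496938861250 * s ^ (0 : ℕ) * w ^ (3 : ℕ) +
      585489335629396 / 1246792653267 * s ^ (1 : ℕ) * w ^ (2 : ℕ) +
      1165475585705000 / 1246792653267 * s ^ (2 : ℕ) * w ^ (1 : ℕ) +
      576756550000000 / 1246792653267 * s ^ (3 : ℕ) * w ^ (0 : ℕ) := by
    rw [hs, hw]; ring
  have hp : 0 ≤ 1597 / 10000 * (20 - 8 * p) -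
    (3293 / 10000 * ((1 - p ^ (2 : ℕ)) * (20 - 8 * p) + 25 * (1597 / 10000) * p * (1000 / 987))) := by
    rw [e]; (clear * - w0 s0; positivity)
  linarith only [hp]

theorem sM6 {p : ℝ} (h0 : 8919 / 10000 ≤ p) (h1 : p ≤ 1) :
    1 + 16 / 25 * (1 - p ^ (2 : ℕ)) ≤
      3131 / 500 * ((4 / 5 - 8 / 25 * p) * (1 - p ^ (2 : ℕ)) * (987 / 1000) + 1597 / 10000 * p) := by
  obtain ⟨s, hs⟩ : ∃ s, s = p - 8919 / 10000 := ⟨_, rfl⟩
  obtain ⟨w, hw⟩ : ∃ w, w = 1 - p := ⟨_, rfl⟩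
  have s0 : 0 ≤ s := by rw [hs]; linarith only [h0]
  have w0 : 0 ≤ w := by rw [hw]; linarith only [h1]
  have e : 3131 / 500 * ((4 / 5 - 8 / 25 * p) * (1 - p ^ (2 : ℕ)) * (987 / 1000) + 1597 / 10000 * p) -
    (1 + 16 / 25 * (1 - p ^ (2 : ℕ))) =
      27955333341172001 / 85816198437500 * s ^ (0 : ℕ) * w ^ (3 : ℕ) +
      21983927374358 / 34326479375 * s ^ (1 : ℕ) * w ^ (2 : ℕ) +
      17176045548 / 54922367 * s ^ (2 : ℕ) * w ^ (1 : ℕ) +
      1800000 / 54922367 * s ^ (3 : ℕ) * w ^ (0 : ℕ) := by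
    rw [hs, hw]; ring
  have hp : 0 ≤ 3131 / 500 * ((4 / 5 - 8 / 25 * p) * (1 - p ^ (2 : ℕ)) * (987 / 1000) + 1597 / 10000 * p) -
    (1 + 16 / 25 * (1 - p ^ (2 : ℕ))) := by
    rw [e]; (clear * - w0 s0; positivity)
  linarith only [hp]

theorem eM6 : 1597 / 10000 ≤ 11 / 25 * exp (-(4 / 5 * (6331 / 5000))) := by
  have h1 : exp (4 / 5 * (6331 / 5000)) ≤ 1 / (1597 / 4400) := by
    have e : (4 : ℝ) / 5 * (6331 / 5000) = 1 + 162 / 12500 := by norm_num
    have h2 := Real.exp_one_lt_d9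
    have h3 : exp (162 / 12500) ≤ 1 + 162 / 12500 + (162 / 12500) ^ (2 : ℕ) := by
      have := Real.exp_bound' (x := 162 / 12500) (by norm_num) (by norm_num) (n := 2)
        (by norm_num)
      simp only [Finset.sum_range_succ, Finset.sum_range_zero, Nat.factorial] at this
      norm_num at this ⊢
      linarith only [this]
    rw [e, Real.exp_add]
    calc exp 1 * exp (162 / 12500) ≤ 2.7182818286 * (1 + 162 / 12500 + (162 / 12500) ^ (2 : ℕ)) :=
          mul_le_mul h2.le h3 (exp_pos _).le (by norm_num)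
      _ ≤ _ := by norm_num
  have := exp_neg_ge (by norm_num) h1
  linarith only [this]

/-- general step for `σ = 1`, `k ≥ 987/1000` -/
theorem Pr.lmSk (h : Pr ρ t p y x) (hr : 0 < r) {B q S S2 E0 ex c x1 : ℝ} (hX : X = r * x ^ (2 : ℕ))
    (hx1 : x ≤ x1) (hx54 : x ≤ 6331 / 5000) (hB : 0 < B) (hB1 : B ≤ 11 / 25 * exp (-(4 / 5 * x1)))
    (hG : q * (y * (20 - 8 * p) + 25 * B * p * (1000 / 987)) ≤ B * (20 - 8 * p))
    (hq : 0 ≤ q) (hS0 : 0 ≤ S) (hS20 : 0 ≤ S2) (hlo : S2 ≤ S ^ (2 : ℕ))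
    (hN : 1 + 16 / 25 * y ≤ S2 * ((4 / 5 - 8 / 25 * p) * y * (987 / 1000) + B * p))
    (hE : E0 ≤ (8 / 9 * q - 17 / 100) * X) (hex : exp (-E0) ≤ ex)
    (hc : (5 + 7072 / 10000) * S * ex ≤ c * (54 / 125)) : LMok r ρ t X c := by
  have hk1 := h.k_ge hx54
  have hp0 := h.p0
  have hy0 := h.y0
  refine h.lmF hr (β := 11 / 25) (σ := 1) (B := B) (q := q)
    (h' := 1000 / 987 * (25 * p / (20 - 8 * p))) (S := S) (E0 := E0)
    (ex := ex) hX (HR_11_25 t) (by norm_num) le_rfl hB ?_ ?_ ?_ hq hS0 ?_ hE hex hc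
  · have h2 : exp (-(4 / 5 * x1)) ≤ exp (-(1 * (4 / 5 * x))) := Real.exp_le_exp.2 (by linarith only [hx1])
    linarith only [hB1, h2]
  · refine aa_h hp0 h.p1 ?_
    linarith only [hk1]
  · refine star_of h.p1 ?_
    have e : (y * (20 - 8 * p) + 25 * B * p * (1000 / 987)) *
        (4 / 5 * (4 / 27 * (1 - 1) ^ (3 : ℕ)) * x * B + q * y) =
        y * (q * (y * (20 - 8 * p) + 25 * B * p * (1000 / 987))) := by ring
    rw [e]
    calc y * (q * (y * (20 - 8 * p) + 25 * B * p * (1000 / 987))) ≤ y * (B * (20 - 8 * p)) :=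
          mul_le_mul_of_nonneg_left hG hy0.le
      _ = _ := by ring
  · exact PP_le' hp0 h.p1 hy0 h.lA hk1 (by norm_num) hB hS20 hS0 hlo hN

theorem Pr.lmD1 (h : Pr ρ t p y x) (hr : 499 / 10 ≤ r) (hX : X = r * x ^ (2 : ℕ)) (hX1 : 108 / 5 ≤ X)
    (ht : 14 / 5 ≤ t) (hx1 : x ≤ 33 / 50) : LMok r ρ t X (167 / 1000) := by
  have hr0 : 0 < r := by linarith only [hr, hX]
  have hy0 := h.y0
  have hx00 := h.x0
  have hts := h.ts
  have hXx : 499 / 10 * x ^ (2 : ℕ) ≤ X := by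
    rw [hX]
    exact mul_le_mul_of_nonneg_right hr (sq_nonneg x)
  have hXl : 108 / 5 ≤ X := hX1
  have hy : y ≤ 1 - (4859 / 5000) ^ (2 : ℕ) := by
    have h1 : (14 / 5 : ℝ) ^ (2 : ℕ) ≤ t ^ (2 : ℕ) := pow_le_pow_left₀ (by norm_num) ht 2
    have h2 : x ^ (2 : ℕ) ≤ (33 / 50) ^ (2 : ℕ) := pow_le_pow_left₀ hx00.le hx1 2
    have h3 := mul_le_mul_of_nonneg_right h1 hy0.le
    linarith only [hts, h2, h3]
  have hp := h.le_p hy
  have hc := cM1 hp h.p1.le
  have hs := sM1 hp h.p1.le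
  rw [← h.hy] at hc hs
  refine h.lmS1 hr0 (B := 519 / 2000) (q := 2271 / 5000) (S := 1227 / 625) (S2 := 1927 / 500)
    (E0 := 631 / 125) (ex := 6423 / 1000000) (x1 := 33 / 50) hX hx1 (by linarith only [hx1]) (by norm_num) eM1 hc
    (by norm_num) (by norm_num) (by norm_num) (by norm_num) hs ?_ ?_ (by norm_num)
  · linarith only [hXl]
  · exact ex_neg 5 (6 / 125) (by norm_num) (by norm_num) (by norm_num) (by norm_num)

theorem Pr.lmD2 (h : Pr ρ t p y x) (hr : 499 / 10 ≤ r) (hX : X = r * x ^ (2 : ℕ))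
    (ht : 14 / 5 ≤ t) (hx0 : 33 / 50 ≤ x) (hx1 : x ≤ 7 / 10) : LMok r ρ t X (180 / 1000) := by
  have hr0 : 0 < r := by linarith only [hr, hX]
  have hy0 := h.y0
  have hx00 := h.x0
  have hts := h.ts
  have hXx : 499 / 10 * x ^ (2 : ℕ) ≤ X := by
    rw [hX]
    exact mul_le_mul_of_nonneg_right hr (sq_nonneg x)
  have hXl : 543411 / 25000 ≤ X := by
    have h2 : (33 / 50) ^ (2 : ℕ) ≤ x ^ (2 : ℕ) := pow_le_pow_left₀ (by norm_num) hx0 2
    linarith only [hXx, h2]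
  have hy : y ≤ 1 - (4841 / 5000) ^ (2 : ℕ) := by
    have h1 : (14 / 5 : ℝ) ^ (2 : ℕ) ≤ t ^ (2 : ℕ) := pow_le_pow_left₀ (by norm_num) ht 2
    have h2 : x ^ (2 : ℕ) ≤ (7 / 10) ^ (2 : ℕ) := pow_le_pow_left₀ hx00.le hx1 2
    have h3 := mul_le_mul_of_nonneg_right h1 hy0.le
    linarith only [hts, h2, h3]
  have hp := h.le_p hy
  have hc := cM2 hp h.p1.le
  have hs := sM2 hp h.p1.le
  rw [← h.hy] at hc hs
  refine h.lmS1 hr0 (B := 2513 / 10000) (q := 899 / 2000) (S := 399 / 200) (S2 := 199 / 50)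
    (E0 := 4989 / 1000) (ex := 3407 / 500000) (x1 := 7 / 10) hX hx1 (by linarith only [hx1]) (by norm_num) eM2 hc
    (by norm_num) (by norm_num) (by norm_num) (by norm_num) hs ?_ ?_ (by norm_num)
  · linarith only [hXl]
  · exact ex_neg 4 (989 / 1000) (by norm_num) (by norm_num) (by norm_num) (by norm_num)

theorem Pr.lmD3 (h : Pr ρ t p y x) (hr : 499 / 10 ≤ r) (hX : X = r * x ^ (2 : ℕ))
    (ht : 14 / 5 ≤ t) (hx0 : 7 / 10 ≤ x) (hx1 : x ≤ 3 / 4) : LMok r ρ t X (114 / 1000) := by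
  have hr0 : 0 < r := by linarith only [hr, hX]
  have hy0 := h.y0
  have hx00 := h.x0
  have hts := h.ts
  have hXx : 499 / 10 * x ^ (2 : ℕ) ≤ X := by
    rw [hX]
    exact mul_le_mul_of_nonneg_right hr (sq_nonneg x)
  have hXl : 24451 / 1000 ≤ X := by
    have h2 : (7 / 10) ^ (2 : ℕ) ≤ x ^ (2 : ℕ) := pow_le_pow_left₀ (by norm_num) hx0 2
    linarith only [hXx, h2]
  have hy : y ≤ 1 - (4817 / 5000) ^ (2 : ℕ) := by
    have h1 : (14 / 5 : ℝ) ^ (2 : ℕ) ≤ t ^ (2 : ℕ) := pow_le_pow_left₀ (by norm_num) ht 2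
    have h2 : x ^ (2 : ℕ) ≤ (3 / 4) ^ (2 : ℕ) := pow_le_pow_left₀ hx00.le hx1 2
    have h3 := mul_le_mul_of_nonneg_right h1 hy0.le
    linarith only [hts, h2, h3]
  have hp := h.le_p hy
  have hc := cM3 hp h.p1.le
  have hs := sM3 hp h.p1.le
  rw [← h.hy] at hc hs
  refine h.lmS1 hr0 (B := 1207 / 5000) (q := 443 / 1000) (S := 4071 / 2000) (S2 := 4143 / 1000)
    (E0 := 5471 / 1000) (ex := 263 / 62500) (x1 := 3 / 4) hX hx1 (by linarith only [hx1]) (by norm_num) eM3 hc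
    (by norm_num) (by norm_num) (by norm_num) (by norm_num) hs ?_ ?_ (by norm_num)
  · linarith only [hXl]
  · exact ex_neg 5 (471 / 1000) (by norm_num) (by norm_num) (by norm_num) (by norm_num)

theorem Pr.lmD4 (h : Pr ρ t p y x) (hr : 499 / 10 ≤ r) (hX : X = r * x ^ (2 : ℕ))
    (ht : 14 / 5 ≤ t) (hx0 : 3 / 4 ≤ x) (hx1 : x ≤ 9 / 10) : LMok r ρ t X (99 / 1000) := by
  have hr0 : 0 < r := by linarith only [hr, hX]
  have hy0 := h.y0
  have hx00 := h.x0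
  have hts := h.ts
  have hXx : 499 / 10 * x ^ (2 : ℕ) ≤ X := by
    rw [hX]
    exact mul_le_mul_of_nonneg_right hr (sq_nonneg x)
  have hXl : 4491 / 160 ≤ X := by
    have h2 : (3 / 4) ^ (2 : ℕ) ≤ x ^ (2 : ℕ) := pow_le_pow_left₀ (by norm_num) hx0 2
    linarith only [hXx, h2]
  have hy : y ≤ 1 - (9469 / 10000) ^ (2 : ℕ) := by
    have h1 : (14 / 5 : ℝ) ^ (2 : ℕ) ≤ t ^ (2 : ℕ) := pow_le_pow_left₀ (by norm_num) ht 2
    have h2 : x ^ (2 : ℕ) ≤ (9 / 10) ^ (2 : ℕ) := pow_le_pow_left₀ hx00.le hx1 2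
    have h3 := mul_le_mul_of_nonneg_right h1 hy0.le
    linarith only [hts, h2, h3]
  have hp := h.le_p hy
  have hc := cM4 hp h.p1.le
  have hs := sM4 hp h.p1.le
  rw [← h.hy] at hc hs
  refine h.lmS1 hr0 (B := 2141 / 10000) (q := 4187 / 10000) (S := 21613 / 10000) (S2 := 4671 / 1000)
    (E0 := 2837 / 500) (ex := 687 / 200000) (x1 := 9 / 10) hX hx1 (by linarith only [hx1]) (by norm_num) eM4 hc
    (by norm_num) (by norm_num) (by norm_num) (by norm_num) hs ?_ ?_ (by norm_num)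
  · linarith only [hXl]
  · exact ex_neg 5 (337 / 500) (by norm_num) (by norm_num) (by norm_num) (by norm_num)

theorem Pr.lmD5 (h : Pr ρ t p y x) (hr : 499 / 10 ≤ r) (hX : X = r * x ^ (2 : ℕ))
    (ht : 14 / 5 ≤ t) (hx0 : 9 / 10 ≤ x) (hx1 : x ≤ 21 / 20) : LMok r ρ t X (27 / 1000) := by
  have hr0 : 0 < r := by linarith only [hr, hX]
  have hy0 := h.y0
  have hx00 := h.x0
  have hts := h.ts
  have hXx : 499 / 10 * x ^ (2 : ℕ) ≤ X := by
    rw [hX]
    exact mul_le_mul_of_nonneg_right hr (sq_nonneg x)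
  have hXl : 40419 / 1000 ≤ X := by
    have h2 : (9 / 10) ^ (2 : ℕ) ≤ x ^ (2 : ℕ) := pow_le_pow_left₀ (by norm_num) hx0 2
    linarith only [hXx, h2]
  have hy : y ≤ 1 - (927 / 1000) ^ (2 : ℕ) := by
    have h1 : (14 / 5 : ℝ) ^ (2 : ℕ) ≤ t ^ (2 : ℕ) := pow_le_pow_left₀ (by norm_num) ht 2
    have h2 : x ^ (2 : ℕ) ≤ (21 / 20) ^ (2 : ℕ) := pow_le_pow_left₀ hx00.le hx1 2
    have h3 := mul_le_mul_of_nonneg_right h1 hy0.le
    linarith only [hts, h2, h3]
  have hp := h.le_p hy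
  have hc := cM5 hp h.p1.le
  have hs := sM5 hp h.p1.le
  rw [← h.hy] at hc hs
  refine h.lmS1 hr0 (B := 1899 / 10000) (q := 242 / 625) (S := 5737 / 2500) (S2 := 2633 / 500)
    (E0 := 176 / 25) (ex := 877 / 1000000) (x1 := 21 / 20) hX hx1 (by linarith only [hx1]) (by norm_num) eM5 hc
    (by norm_num) (by norm_num) (by norm_num) (by norm_num) hs ?_ ?_ (by norm_num)
  · linarith only [hXl]
  · exact ex_neg 7 (1 / 25) (by norm_num) (by norm_num) (by norm_num) (by norm_num)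

theorem Pr.lmD6 (h : Pr ρ t p y x) (hr : 499 / 10 ≤ r) (hX : X = r * x ^ (2 : ℕ))
    (ht : 14 / 5 ≤ t) (hx0 : 21 / 20 ≤ x) (hx1 : x ≤ 6331 / 5000) : LMok r ρ t X (39 / 1000) := by
  have hr0 : 0 < r := by linarith only [hr, hX]
  have hy0 := h.y0
  have hx00 := h.x0
  have hts := h.ts
  have hXx : 499 / 10 * x ^ (2 : ℕ) ≤ X := by
    rw [hX]
    exact mul_le_mul_of_nonneg_right hr (sq_nonneg x)
  have hXl : 220059 / 4000 ≤ X := by
    have h2 : (21 / 20) ^ (2 : ℕ) ≤ x ^ (2 : ℕ) := pow_le_pow_left₀ (by norm_num) hx0 2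
    linarith only [hXx, h2]
  have hy : y ≤ 1 - (8919 / 10000) ^ (2 : ℕ) := by
    have h1 : (14 / 5 : ℝ) ^ (2 : ℕ) ≤ t ^ (2 : ℕ) := pow_le_pow_left₀ (by norm_num) ht 2
    have h2 : x ^ (2 : ℕ) ≤ (6331 / 5000) ^ (2 : ℕ) := pow_le_pow_left₀ hx00.le hx1 2
    have h3 := mul_le_mul_of_nonneg_right h1 hy0.le
    linarith only [hts, h2, h3]
  have hp := h.le_p hy
  have hc := cM6 hp h.p1.le
  have hs := sM6 hp h.p1.le
  rw [← h.hy] at hc hs
  refine h.lmSk hr0 (B := 1597 / 10000) (q := 3293 / 10000) (S := 1564 / 625) (S2 := 3131 / 500)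
    (E0 := 27 / 4) (ex := 1171 / 1000000) (x1 := 6331 / 5000) hX hx1 (by linarith only [hx1]) (by norm_num) eM6 hc
    (by norm_num) (by norm_num) (by norm_num) (by norm_num) hs ?_ ?_ (by norm_num)
  · linarith only [hXl]
  · exact ex_neg 6 (3 / 4) (by norm_num) (by norm_num) (by norm_num) (by norm_num)

/-- `t ≥ 14/5` -/
theorem Pr.lmD (h : Pr ρ t p y x) (hr : 499 / 10 ≤ r) (hX : X = r * x ^ (2 : ℕ)) (hX1 : 108 / 5 ≤ X)
    (hX2 : X ≤ 80) (ht : 14 / 5 ≤ t) (_ht1 : t ≤ π) : LMok r ρ t X (183 / 1000) := by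
  have hXx : 499 / 10 * x ^ (2 : ℕ) ≤ X := by
    rw [hX]
    exact mul_le_mul_of_nonneg_right hr (sq_nonneg x)
  have hx : x ≤ 6331 / 5000 := by
    refine abs_le_of_sq_le_sq' ?_ (by norm_num) |>.2
    norm_num
    linarith only [hX2, hXx]
  rcases le_total x (33 / 50) with h1 | h1
  · exact (h.lmD1 hr hX hX1 ht h1).mono (by norm_num)
  rcases le_total x (7 / 10) with h2 | h2
  · exact (h.lmD2 hr hX ht h1 h2).mono (by norm_num)
  rcases le_total x (3 / 4) with h3 | h3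
  · exact (h.lmD3 hr hX ht h2 h3).mono (by norm_num)
  rcases le_total x (9 / 10) with h4 | h4
  · exact (h.lmD4 hr hX ht h3 h4).mono (by norm_num)
  rcases le_total x (21 / 20) with h5 | h5
  · exact (h.lmD5 hr hX ht h4 h5).mono (by norm_num)
  · exact (h.lmD6 hr hX ht h5 hx).mono (by norm_num)

end SokamDz

end

/-! ### Lib_MP_af4de1_v3.DzX3 -/

section
namespace SokamCen
end SokamCen
namespace SokamV3
end SokamV3
/-!
# The real inequalities of the fields `d` for `X > 80`, 3: all terms but the far ones (helper20)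

Unit: `27/10000 * exp (-(X/25))`.
-/

set_option autoImplicit false

namespace SokamDz

open Real MeasureTheory Set SokamCen SokamV3

variable {r ρ t φ p y x z s u v c k α A B l E0 : ℝ}

theorem exp_split {E X G : ℝ} (h : X / 25 + G ≤ 8 / 9 * E) :
    exp (-(8 / 9 * E)) ≤ exp (-G) * exp (-(X / 25)) := by
  rw [← exp_add]
  exact exp_le_exp.2 (by linarith only [h])

/-- the left main term -/
theorem PX.tLM (h : PX r ρ t p y x s) (hφ0 : 0 < φ) (hφ : φ ≤ 2 * π) (hB : 4 / 25 ≤ B)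
    (hE : E0 ≤ r * (lA ρ φ * B * φ ^ (2 : ℕ) / (lA ρ φ + B) - l))
    (h12 : r * x ^ (2 : ℕ) / 25 + 12 ≤ 8 / 9 * E0) :
    Kc r ρ * (20 / 3 * lM (8 / 9 * r) ρ φ B l + 1 * lM r ρ φ B l) ≤
      56 / 1000 * (27 / 10000 * exp (-(r * x ^ (2 : ℕ) / 25))) := by
  have hX := h.hX
  have hr := h.rpos
  have hA := h.lA_pos hφ0
  have hP := h.pr.PP0
  have hd : exp (-(E0 / 9)) ≤ 1 / 5 := by
    have h1 : exp (-(E0 / 9)) ≤ exp (-(19 / 10)) := exp_le_exp.2 (by linarith only [h12, hX])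
    have h2 := exp_neg_nat_le 1
    have h3 : exp (-(19 / 10)) = exp (-((1 : ℕ) : ℝ)) * exp (-(9 / 10)) := by
      rw [← exp_add]; norm_num
    have h4 : exp (-(9 / 10)) ≤ 1 / 2 := by
      have h5 := Real.one_sub_div_pow_le_exp_neg (n := 1) (t := 0) (by norm_num)
      have h6 : 2 ≤ exp (9 / 10) := by
        have := Real.quadratic_le_exp_of_nonneg (x := 9 / 10) (by norm_num)
        norm_num at this
        linarith only [this]
      rw [Real.exp_neg, ← one_div]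
      exact one_div_le_one_div_of_le (by norm_num) h6
    rw [h3] at h1
    refine h1.trans ?_
    calc exp (-((1 : ℕ) : ℝ)) * exp (-(9 / 10)) ≤ (1000 / 2718) ^ (1 : ℕ) * (1 / 2) :=
          mul_le_mul h2 h4 (exp_pos _).le (by norm_num)
      _ ≤ _ := by norm_num
  have h1 := h.pr.gauss (a := 20 / 3) (b := 1) hr (A := lA ρ φ + B) (by linarith only [hB, hA]) (by norm_num)
    (by norm_num) hE hd
  have h2 := exp_split (G := 12) (E := E0) (X := r * x ^ (2 : ℕ)) (by linarith only [h12])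
  have h3 : exp (-12) ≤ 1 / 162000 := by
    have := exp_neg_nat_le 12
    norm_num at this
    linarith only [this]
  have h4 : √(PP p y / (lA ρ φ + B)) ≤ 47 / 10 := by
    rw [Real.sqrt_le_left (by norm_num)]
    have := h.PL hφ0 hφ hB
    linarith only [this]
  have h5 : exp (-(8 / 9 * E0)) ≤ 1 / 162000 * exp (-(r * x ^ (2 : ℕ) / 25)) :=
    h2.trans (mul_le_mul_of_nonneg_right h3 (exp_pos _).le)
  unfold lM
  refine h1.trans ?_
  have hS := Real.sqrt_nonneg (PP p y / (lA ρ φ + B))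
  calc (3 / 4 * (20 / 3) + 7072 / 10000 * 1 * (1 / 5)) * √(PP p y / (lA ρ φ + B)) *
        exp (-(8 / 9 * E0)) ≤ (3 / 4 * (20 / 3) + 7072 / 10000 * 1 * (1 / 5)) * (47 / 10) *
        (1 / 162000 * exp (-(r * x ^ (2 : ℕ) / 25))) :=
        mul_le_mul (mul_le_mul_of_nonneg_left h4 (by norm_num)) h5 (exp_pos _).le (by norm_num)
    _ = (3 / 4 * (20 / 3) + 7072 / 10000 * 1 * (1 / 5)) * (47 / 10) * (1 / 162000) *
        exp (-(r * x ^ (2 : ℕ) / 25)) := by ring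
    _ ≤ 56 / 1000 * (27 / 10000) * exp (-(r * x ^ (2 : ℕ) / 25)) :=
        mul_le_mul_of_nonneg_right (by norm_num) (exp_pos _).le
    _ = _ := by ring

/-- the right main term -/
theorem PX.tRM (h : PX r ρ t p y x s) (hφ1 : t ≤ φ) (hφ : φ ≤ 2 * π) :
    Kc r ρ * (56 / 3 * rM (8 / 9 * r) ρ φ (11 / 25) + 68 / 25 * rM r ρ φ (11 / 25)) ≤
      25 / 1000 * (27 / 10000 * exp (-(r * x ^ (2 : ℕ) / 25))) := by
  have hφ0 : 0 < φ := h.pr.t0.trans_le hφ1
  have hX := h.hX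
  have hr := h.rpos
  have hA := h.rA_pos hφ0
  have hP := h.pr.PP0
  have hE := h.ERM hφ1
  have hd : exp (-(r * x ^ (2 : ℕ) / 4 / 9)) ≤ 1 / 5 := by
    have h1 : exp (-(r * x ^ (2 : ℕ) / 4 / 9)) ≤ exp (-(2 : ℕ) : ℝ) := exp_le_exp.2 (by
      push_cast
      linarith only [hφ0, hX])
    have h2 := exp_neg_nat_le 2
    refine (h1.trans h2).trans (by norm_num)
  have h1 := h.pr.gauss (a := 56 / 3) (b := 68 / 25) hr (A := rA ρ φ + 11 / 25) (by linarith only [hA])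
    (by norm_num) (by norm_num) hE hd
  have h2 := exp_split (G := 14) (E := r * x ^ (2 : ℕ) / 4) (X := r * x ^ (2 : ℕ)) (by linarith only [hX])
  have h3 : exp (-14) ≤ 1 / 1200000 := by
    have := exp_neg_nat_le 14
    norm_num at this
    linarith only [this]
  have h4 : √(PP p y / (rA ρ φ + 11 / 25)) ≤ 53 / 10 := by
    rw [Real.sqrt_le_left (by norm_num)]
    have := h.PR hφ0 hφ
    linarith only [this]
  have h5 : exp (-(8 / 9 * (r * x ^ (2 : ℕ) / 4))) ≤ 1 / 1200000 * exp (-(r * x ^ (2 : ℕ) / 25)) :=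
    h2.trans (mul_le_mul_of_nonneg_right h3 (exp_pos _).le)
  unfold rM
  refine h1.trans ?_
  have hS := Real.sqrt_nonneg (PP p y / (rA ρ φ + 11 / 25))
  calc (3 / 4 * (56 / 3) + 7072 / 10000 * (68 / 25) * (1 / 5)) * √(PP p y / (rA ρ φ + 11 / 25)) *
        exp (-(8 / 9 * (r * x ^ (2 : ℕ) / 4))) ≤
        (3 / 4 * (56 / 3) + 7072 / 10000 * (68 / 25) * (1 / 5)) * (53 / 10) *
        (1 / 1200000 * exp (-(r * x ^ (2 : ℕ) / 25))) :=
        mul_le_mul (mul_le_mul_of_nonneg_left h4 (by norm_num)) h5 (exp_pos _).le (by norm_num)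
    _ = (3 / 4 * (56 / 3) + 7072 / 10000 * (68 / 25) * (1 / 5)) * (53 / 10) * (1 / 1200000) *
        exp (-(r * x ^ (2 : ℕ) / 25)) := by ring
    _ ≤ 25 / 1000 * (27 / 10000) * exp (-(r * x ^ (2 : ℕ) / 25)) :=
        mul_le_mul_of_nonneg_right (by norm_num) (exp_pos _).le
    _ = _ := by ring

/-- tails -/
theorem PX.tT (h : PX r ρ t p y x s) (hφ1 : t ≤ φ) {a b c : ℝ} (ha : 0 ≤ a) (hb : 0 ≤ b) (hc : 0 ≤ c)
    (hab : c * (4232 / 10000 * a + 399 / 1000 * b * 1) ≤ 14)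
    (hA : aR' p * y * min 1 (mm ρ / φ) ≤ A) :
    Kc r ρ * (a * (c / √(8 / 9 * r) * exp (-(8 / 9 * r * (A * φ ^ (2 : ℕ))))) +
      b * (c / √r * exp (-(r * (A * φ ^ (2 : ℕ)))))) ≤
      2 / 1000 * (27 / 10000 * exp (-(r * x ^ (2 : ℕ) / 25))) := by
  have hφ0 : 0 < φ := h.pr.t0.trans_le hφ1
  have hX := h.hX
  have hr := h.rpos
  have hP := h.pr.PP0
  have hp0 := h.pr.p0
  have hp1 := h.pr.p1
  have hE := h.ET hφ1 hA
  set E := (4 / 15 + 27 / 1000 / p) * (r * x ^ (2 : ℕ)) with hEdef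
  have hE0 : 0 ≤ E := by
    have : 0 < 27 / 1000 / p := by positivity
    have : 0 < r * x ^ (2 : ℕ) := by linarith only [hX]
    positivity
  have hd : exp (-(E / 9)) ≤ 1 := by
    rw [← exp_zero]
    exact exp_le_exp.2 (by linarith only [hE0])
  have h1 := h.pr.tail (a := a) (b := b) hr hc ha hb hE hd
  refine h1.trans ?_
  -- `√PP ≤ 13/10 exp (1/p - 1)`
  have hw : 1 ≤ 1 / p := by
    rw [one_le_div hp0]
    exact hp1.le
  have h2 : √(PP p y) ≤ 13 / 10 * exp (1 / p - 1) := by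
    have h3 : 1 / p ≤ exp (1 / p - 1) := by
      have := Real.add_one_le_exp (1 / p - 1)
      linarith only [this]
    refine le_trans ?_ (mul_le_mul_of_nonneg_left h3 (by norm_num))
    rw [Real.sqrt_le_left (by positivity)]
    unfold PP
    have h4 : (1 + 16 / 25 * y) / p ≤ 164 / 100 * (1 / p) := by
      rw [mul_one_div]
      exact div_le_div_of_nonneg_right (by linarith only [h.y1]) hp0.le
    refine h4.trans ?_
    nlinarith only [hw]
  have h3 : exp (-(8 / 9 * E)) ≤ exp (-16 - (1 / p - 1)) * exp (-(r * x ^ (2 : ℕ) / 25)) := by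
    rw [← exp_add]
    refine exp_le_exp.2 ?_
    have e : 8 / 9 * E = 32 / 135 * (r * x ^ (2 : ℕ)) + 24 / 1000 * (1 / p) * (r * x ^ (2 : ℕ)) := by
      rw [hEdef]
      field_simp
      ring
    rw [e]
    have h4 : 24 / 1000 * (1 / p) * 80 ≤ 24 / 1000 * (1 / p) * (r * x ^ (2 : ℕ)) :=
      mul_le_mul_of_nonneg_left hX.le (by positivity)
    linarith only [hX, hw, h4]
  have h4 : exp (1 / p - 1) * exp (-16 - (1 / p - 1)) ≤ 1 / 8800000 := by
    rw [← exp_add]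
    have e : 1 / p - 1 + (-16 - (1 / p - 1)) = -((16 : ℕ) : ℝ) := by
      push_cast
      ring
    rw [e]
    refine (exp_neg_nat_le 16).trans (by norm_num)
  have hS := Real.sqrt_nonneg (PP p y)
  calc c * (4232 / 10000 * a + 399 / 1000 * b * 1) * √(PP p y) * exp (-(8 / 9 * E)) ≤
      14 * (13 / 10 * exp (1 / p - 1)) * (exp (-16 - (1 / p - 1)) * exp (-(r * x ^ (2 : ℕ) / 25))) := by
        refine mul_le_mul (mul_le_mul hab h2 hS (by norm_num)) h3 (exp_pos _).le (by positivity)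
    _ = 14 * (13 / 10) * (exp (1 / p - 1) * exp (-16 - (1 / p - 1))) *
        exp (-(r * x ^ (2 : ℕ) / 25)) := by ring
    _ ≤ 14 * (13 / 10) * (1 / 8800000) * exp (-(r * x ^ (2 : ℕ) / 25)) :=
        mul_le_mul_of_nonneg_right (mul_le_mul_of_nonneg_left h4 (by norm_num)) (exp_pos _).le
    _ ≤ 2 / 1000 * (27 / 10000) * exp (-(r * x ^ (2 : ℕ) / 25)) :=
        mul_le_mul_of_nonneg_right (by norm_num) (exp_pos _).le
    _ = _ := by ring

theorem PX.tRT (h : PX r ρ t p y x s) (hφ1 : t ≤ φ) :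
    Kc r ρ * (56 / 3 * rT (8 / 9 * r) ρ φ + 68 / 25 * rT r ρ φ) ≤
      2 / 1000 * (27 / 10000 * exp (-(r * x ^ (2 : ℕ) / 25))) := by
  have hφ0 : 0 < φ := h.pr.t0.trans_le hφ1
  unfold rT
  exact h.tT hφ1 (by norm_num) (by norm_num) (by norm_num) (by norm_num) (h.rA_ge hφ0)

theorem PX.tLT (h : PX r ρ t p y x s) (hφ1 : t ≤ φ) :
    Kc r ρ * (20 / 3 * lT (8 / 9 * r) ρ φ + 1 * lT r ρ φ) ≤
      2 / 1000 * (27 / 10000 * exp (-(r * x ^ (2 : ℕ) / 25))) := by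
  have hφ0 : 0 < φ := h.pr.t0.trans_le hφ1
  unfold lT
  exact h.tT hφ1 (by norm_num) (by norm_num) (by norm_num) (by norm_num) (h.lA_ge hφ0)

/-- `PP/A ≤ 25/y` -/
theorem PX.PA (h : PX r ρ t p y x s) (hφ0 : 0 < φ) (hφ : φ ≤ 2 * π)
    (hA : aR' p * y * min 1 (mm ρ / φ) ≤ A) : PP p y ≤ 25 / y * A := by
  have hp0 := h.pr.p0
  have hp1 := h.pr.p1
  have hy0 := h.y0
  have hy1 := h.y1
  have hk := h.kap_ge hφ0 hφ
  have ha := aR'_ge hp0 hp1
  have h1 : 17 / 50 / p * (1989 / 10000) ≤ aR' p * min 1 (mm ρ / φ) :=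
    mul_le_mul ha hk (by norm_num) (le_trans (by positivity) ha)
  have h2 : PP p y ≤ 25 * (17 / 50 / p * (1989 / 10000)) := by
    unfold PP
    rw [div_le_iff₀ hp0]
    have e : 25 * (17 / 50 / p * (1989 / 10000)) * p = 25 * (17 / 50 * (1989 / 10000)) := by
      field_simp
    rw [e]
    linarith only [hy1]
  calc PP p y ≤ 25 * (aR' p * min 1 (mm ρ / φ)) := h2.trans (by linarith only [h1])
    _ = 25 / y * (aR' p * y * min 1 (mm ρ / φ)) := by field_simp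
    _ ≤ _ := mul_le_mul_of_nonneg_left hA (by positivity)

/-- front terms -/
theorem PX.tO (h : PX r ρ t p y x s) (hφ0 : 0 < φ) (hφ : φ ≤ 2 * π) {a b : ℝ} (ha : 0 ≤ a) (hb : 0 ≤ b)
    (hab : 3 / 4 * a + 7072 / 10000 * b * 1 ≤ 8) {ψ : ℝ} (hψ : t ≤ ψ)
    (hA : aR' p * y * min 1 (mm ρ / φ) ≤ A) (hA0 : 0 < A) :
    Kc r ρ * (a * (√(π / (8 / 9 * r * A)) * exp (-(8 / 9 * r * (11 / 25 * ψ ^ (2 : ℕ))))) +
      b * (√(π / (r * A)) * exp (-(r * (11 / 25 * ψ ^ (2 : ℕ)))))) ≤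
      2 / 1000 * (27 / 10000 * exp (-(r * x ^ (2 : ℕ) / 25))) := by
  have hX := h.hX
  have hr := h.rpos
  have hP := h.pr.PP0
  have hp0 := h.pr.p0
  have hy0 := h.y0
  have hy1 := h.y1
  have hV := h.V (B := 11 / 25) hψ (by norm_num)
  have hE : 11 / 25 / y * (r * x ^ (2 : ℕ)) ≤ r * (11 / 25 * ψ ^ (2 : ℕ)) := by
    have := mul_le_mul_of_nonneg_left hV hr.le
    calc _ = r * (11 / 25 / y * x ^ (2 : ℕ)) := by ring
      _ ≤ _ := this
  have hd : exp (-(11 / 25 / y * (r * x ^ (2 : ℕ)) / 9)) ≤ 1 := by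
    rw [← exp_zero]
    refine exp_le_exp.2 ?_
    have : 0 < 11 / 25 / y * (r * x ^ (2 : ℕ)) := by
      have : 0 < r * x ^ (2 : ℕ) := by linarith only [hX]
      positivity
    linarith only [this]
  have h1 := h.pr.gauss (a := a) (b := b) hr hA0 ha hb hE hd
  refine h1.trans ?_
  have hw : 1 ≤ 1 / y := by
    rw [one_le_div hy0]
    exact hy1.le
  have h2 : √(PP p y / A) ≤ 5 * exp (1 / y - 1) := by
    have h3 : 1 / y ≤ exp (1 / y - 1) := by
      have := Real.add_one_le_exp (1 / y - 1)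
      linarith only [this]
    refine le_trans ?_ (mul_le_mul_of_nonneg_left h3 (by norm_num))
    rw [Real.sqrt_le_left (by positivity), div_le_iff₀ hA0]
    refine (h.PA hφ0 hφ hA).trans ?_
    refine mul_le_mul_of_nonneg_right ?_ hA0.le
    have e : 25 / y = 25 * (1 / y) := by ring
    rw [e]
    nlinarith only [hw]
  have h3 : exp (-(8 / 9 * (11 / 25 / y * (r * x ^ (2 : ℕ))))) ≤
      exp (-16 - (1 / y - 1)) * exp (-(r * x ^ (2 : ℕ) / 25)) := by
    rw [← exp_add]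
    refine exp_le_exp.2 ?_
    have e : 8 / 9 * (11 / 25 / y * (r * x ^ (2 : ℕ))) = 88 / 225 * ((1 / y) * (r * x ^ (2 : ℕ))) := by
      ring
    rw [e]
    have h4 : (1 / y) * 80 ≤ (1 / y) * (r * x ^ (2 : ℕ)) :=
      mul_le_mul_of_nonneg_left hX.le (by positivity)
    have h5 : 1 * (r * x ^ (2 : ℕ)) ≤ (1 / y) * (r * x ^ (2 : ℕ)) :=
      mul_le_mul_of_nonneg_right hw (by linarith only [hX])
    linarith only [hw, h4, h5]
  have h4 : exp (1 / y - 1) * exp (-16 - (1 / y - 1)) ≤ 1 / 8800000 := by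
    rw [← exp_add]
    have e : 1 / y - 1 + (-16 - (1 / y - 1)) = -((16 : ℕ) : ℝ) := by
      push_cast
      ring
    rw [e]
    refine (exp_neg_nat_le 16).trans (by norm_num)
  have hS := Real.sqrt_nonneg (PP p y / A)
  calc (3 / 4 * a + 7072 / 10000 * b * 1) * √(PP p y / A) *
      exp (-(8 / 9 * (11 / 25 / y * (r * x ^ (2 : ℕ))))) ≤
      8 * (5 * exp (1 / y - 1)) * (exp (-16 - (1 / y - 1)) * exp (-(r * x ^ (2 : ℕ) / 25))) := by
        refine mul_le_mul (mul_le_mul hab h2 hS (by norm_num)) h3 (exp_pos _).le (by positivity)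
    _ = 40 * (exp (1 / y - 1) * exp (-16 - (1 / y - 1))) *
        exp (-(r * x ^ (2 : ℕ) / 25)) := by ring
    _ ≤ 40 * (1 / 8800000) * exp (-(r * x ^ (2 : ℕ) / 25)) :=
        mul_le_mul_of_nonneg_right (mul_le_mul_of_nonneg_left h4 (by norm_num)) (exp_pos _).le
    _ ≤ 2 / 1000 * (27 / 10000) * exp (-(r * x ^ (2 : ℕ) / 25)) :=
        mul_le_mul_of_nonneg_right (by norm_num) (exp_pos _).le
    _ = _ := by ring

theorem PX.tRO (h : PX r ρ t p y x s) (hφ0 : 0 < φ) (hφ : φ ≤ 2 * π) (hψ : t ≤ 2 * π - φ) :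
    Kc r ρ * (56 / 3 * rO (8 / 9 * r) ρ φ + 68 / 25 * rO r ρ φ) ≤
      2 / 1000 * (27 / 10000 * exp (-(r * x ^ (2 : ℕ) / 25))) := by
  unfold rO
  have hA := h.rA_pos hφ0
  by_cases hc : 2 * π - φ < 6 / 5
  · rw [if_pos hc, if_pos hc]
    have h1 := h.tO hφ0 hφ (a := 28 / 3) (b := 34 / 25) (by norm_num) (by norm_num) (by norm_num) hψ
      (A := rA ρ φ + 11 / 25) (by linarith only [h.rA_ge hφ0]) (by linarith only [hA])
    refine le_trans (le_of_eq ?_) h1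
    ring
  · rw [if_neg hc, if_neg hc]
    have := exp_pos (-(r * x ^ (2 : ℕ) / 25))
    simp only [mul_zero, add_zero]
    positivity

theorem PX.tLO (h : PX r ρ t p y x s) (hφ0 : 0 < φ) (hφ : φ ≤ 2 * π) (hψ : t ≤ 2 * π - φ) :
    Kc r ρ * (20 / 3 * lO (8 / 9 * r) ρ φ + 1 * lO r ρ φ) ≤
      2 / 1000 * (27 / 10000 * exp (-(r * x ^ (2 : ℕ) / 25))) := by
  unfold lO
  have hA := h.lA_pos hφ0
  by_cases hc : 2 * π - φ < 6 / 5
  · rw [if_pos hc, if_pos hc]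
    have h1 := h.tO hφ0 hφ (a := 10 / 3) (b := 1 / 2) (by norm_num) (by norm_num) (by norm_num) hψ
      (A := lA ρ φ) (h.lA_ge hφ0) hA
    refine le_trans (le_of_eq ?_) h1
    ring
  · rw [if_neg hc, if_neg hc]
    have := exp_pos (-(r * x ^ (2 : ℕ) / 25))
    simp only [mul_zero, add_zero]
    positivity

end SokamDz

end

/-! ### Lib_MP_af4de1_v3.DzX4 -/

section
namespace SokamCen
end SokamCen
namespace SokamV3
end SokamV3
/-!
# The real inequalities of the fields `d` for `X > 80`, 4: the far terms (helper20)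
-/

set_option autoImplicit false

namespace SokamDz

open Real MeasureTheory Set SokamCen SokamV3

variable {r ρ t φ p y x z s u v c k α A B l e : ℝ}

/-! ## the claim -/

theorem Fd_ge1 {X : ℝ} (hr : 0 < r) (hX : 80 < X) : 1 / 2000 * exp (-(X / 25)) ≤ Fd r ρ X := by
  unfold Fd
  rw [if_neg (not_le.2 hX)]
  split_ifs with h
  · exact le_rfl
  · have h1 : 31 / 4 * r < X := not_le.1 h
    have h2 : r / (1 + ρ ^ (2 : ℕ)) ≤ r := div_le_self hr.le (by nlinarith only [])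
    refine mul_le_mul_of_nonneg_left (exp_le_exp.2 ?_) (by norm_num)
    linarith

theorem Fd_ge2 {X : ℝ} (hr : 0 < r) (hX : 80 < X) : 1 / 2000 * exp (-(31 / 100 * r)) ≤ Fd r ρ X := by
  unfold Fd
  rw [if_neg (not_le.2 hX)]
  split_ifs with h
  · refine mul_le_mul_of_nonneg_left (exp_le_exp.2 ?_) (by norm_num)
    linarith
  · have h2 : r / (1 + ρ ^ (2 : ℕ)) ≤ r := div_le_self hr.le (by nlinarith only [])
    refine mul_le_mul_of_nonneg_left (exp_le_exp.2 ?_) (by norm_num)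
    linarith

theorem Fd_ge3 {X : ℝ} (hr : 0 < r) (hX : 80 < X) (h : 31 / 4 * r < X) :
    1 / 2000 * exp (-(7 / 25 * r)) ≤ Fd r ρ X := by
  unfold Fd
  rw [if_neg (not_le.2 hX), if_neg (not_le.2 h)]
  have h2 : r / (1 + ρ ^ (2 : ℕ)) ≤ r := div_le_self hr.le (by nlinarith only [])
  refine mul_le_mul_of_nonneg_left (exp_le_exp.2 ?_) (by norm_num)
  linarith

/-! ## numbers -/

theorem pow_exp_le {r0 : ℝ} (n : ℕ) (h0 : 0 < r0) (h1 : r0 ≤ r) (hc : (n : ℝ) ≤ c * r0) :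
    r ^ n * exp (-(c * r)) ≤ r0 ^ n * exp (-(c * r0)) := by
  have h2 : r / r0 ≤ exp (r / r0 - 1) := by
    have := Real.add_one_le_exp (r / r0 - 1)
    linarith
  have hr : 0 < r := h0.trans_le h1
  have h3 : (r / r0) ^ n ≤ exp (c * (r - r0)) := by
    calc (r / r0) ^ n ≤ exp (r / r0 - 1) ^ n := pow_le_pow_left₀ (by positivity) h2 n
      _ = exp (n * (r / r0 - 1)) := by rw [← Real.exp_nat_mul]
      _ ≤ exp (c * (r - r0)) := by
        refine exp_le_exp.2 ?_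
        have e1 : c * (r - r0) = c * r0 * (r / r0 - 1) := by field_simp
        rw [e1]
        refine mul_le_mul_of_nonneg_right hc ?_
        have : 1 ≤ r / r0 := (one_le_div h0).2 h1
        linarith
  have e2 : r ^ n = r0 ^ n * (r / r0) ^ n := by
    rw [← mul_pow]
    congr 1
    field_simp
  rw [e2]
  calc r0 ^ n * (r / r0) ^ n * exp (-(c * r)) ≤ r0 ^ n * exp (c * (r - r0)) * exp (-(c * r)) := by
        gcongr
    _ = r0 ^ n * exp (-(c * r0)) := by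
        rw [mul_assoc, ← exp_add]
        congr 2
        ring

theorem exp_neg_split (n : ℕ) {q G : ℝ} (hq : 0 ≤ q) (hG : (n : ℝ) + q ≤ G) :
    exp (-G) ≤ (1000 / 2718) ^ n * (1 / (1 + q + q ^ (2 : ℕ) / 2)) := by
  have h1 : exp (-G) ≤ exp (-(n : ℝ)) * exp (-q) := by
    rw [← exp_add]
    exact exp_le_exp.2 (by linarith)
  have h2 : exp (-q) ≤ 1 / (1 + q + q ^ (2 : ℕ) / 2) := by
    rw [Real.exp_neg, ← one_div]
    exact one_div_le_one_div_of_le (by positivity) (Real.quadratic_le_exp_of_nonneg hq)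
  exact h1.trans (mul_le_mul (exp_neg_nat_le n) h2 (exp_pos _).le (by positivity))

/-! ## prefactors -/

theorem PX.LF0 (h : PX r ρ t p y x s) (hφ0 : 0 < φ) (e : ℝ) :
    Kc r ρ * ((4 * r + 1) * lF r ρ φ e) ≤
      6125 / 10000 * (402010 / 100000 * r) * √(PP p y / lA ρ φ) * exp (-(r * e)) := by
  have hr := h.rpos
  have hr0 := h.r0
  have hA := h.lA_pos hφ0
  have hpi := Real.pi_pos
  have hS := Real.sqrt_nonneg (PP p y / lA ρ φ)
  have hE := exp_pos (-(r * e))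
  have hP := h.pr.PP0
  have h3 : √(3 * π / (r * lA ρ φ)) = √3 * √(π / (r * lA ρ φ)) := by
    rw [← Real.sqrt_mul (by norm_num)]
    congr 1
    ring
  have h4 : √3 ≤ 173206 / 100000 := by
    rw [Real.sqrt_le_left (by norm_num)]
    norm_num
  have h5 := h.pr.K1 hr hA
  have hK : 0 ≤ Kc r ρ := by rw [h.pr.Kc hr]; positivity
  unfold lF
  rw [h3]
  calc Kc r ρ * ((4 * r + 1) * (√3 * √(π / (r * lA ρ φ)) / 2 * exp (-(r * e)))) =
      (4 * r + 1) / 2 * (√3 * (Kc r ρ * √(π / (r * lA ρ φ)))) * exp (-(r * e)) := by ring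
    _ ≤ (402010 / 100000 * r) / 2 * (173206 / 100000 * (7072 / 10000 * √(PP p y / lA ρ φ))) *
        exp (-(r * e)) := by
        refine mul_le_mul_of_nonneg_right (mul_le_mul (by linarith) (mul_le_mul h4 h5 (by positivity)
          (by norm_num)) (by positivity) (by positivity)) hE.le
    _ = (173206 / 100000 * (7072 / 10000) / 2) * ((402010 / 100000 * r) * √(PP p y / lA ρ φ) *
        exp (-(r * e))) := by ring
    _ ≤ 6125 / 10000 * ((402010 / 100000 * r) * √(PP p y / lA ρ φ) * exp (-(r * e))) :=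
        mul_le_mul_of_nonneg_right (by norm_num) (by positivity)
    _ = _ := by ring

theorem PX.RF0 (h : PX r ρ t p y x s) (hφ0 : 0 < φ) :
    Kc r ρ * ((14 * r + 68 / 25) * rF r ρ φ) ≤
      (70273 / 10000 * r) * (7072 / 10000) * √(PP p y / rA ρ φ) * exp (-(r * (3168 / 5000))) := by
  have hr := h.rpos
  have hr0 := h.r0
  have hA := h.rA_pos hφ0
  have hpi := Real.pi_pos
  have hS := Real.sqrt_nonneg (PP p y / rA ρ φ)
  have hE := exp_pos (-(r * (3168 / 5000)))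
  have h5 := h.pr.K1 hr hA
  have hP := h.pr.PP0
  have hK : 0 ≤ Kc r ρ := by rw [h.pr.Kc hr]; positivity
  unfold rF
  calc Kc r ρ * ((14 * r + 68 / 25) * (√(π / (r * rA ρ φ)) / 2 * exp (-(r * (3168 / 5000))))) =
      (7 * r + 34 / 25) * (Kc r ρ * √(π / (r * rA ρ φ))) * exp (-(r * (3168 / 5000))) := by ring
    _ ≤ (70273 / 10000 * r) * (7072 / 10000 * √(PP p y / rA ρ φ)) * exp (-(r * (3168 / 5000))) := by
        refine mul_le_mul_of_nonneg_right (mul_le_mul (by linarith) h5 (by positivity)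
          (by positivity)) hE.le
    _ = _ := by ring

/-- `√(PP/A) ≤ .2487 r` -/
theorem PX.sA (h : PX r ρ t p y x s) (hφ0 : 0 < φ) (hφ : φ ≤ 2 * π)
    (hA : aR' p * y * min 1 (mm ρ / φ) ≤ A) (hA0 : 0 < A) : √(PP p y / A) ≤ 2487 / 10000 * r := by
  have hr0 := h.r0
  have h1 := h.PA hφ0 hφ hA
  have h2 := h.yr
  have hy := h.y0
  rw [Real.sqrt_le_left (by linarith), div_le_iff₀ hA0]
  refine h1.trans (mul_le_mul_of_nonneg_right ?_ hA0.le)
  rw [div_le_iff₀ hy]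
  have h3 : (2487 / 10000 * r) ^ (2 : ℕ) * y = (2487 / 10000) ^ (2 : ℕ) * r * (r * y * 1) := by ring
  rw [h3]
  nlinarith only [hr0, h2]

/-- right far -/
theorem PX.tRF (h : PX r ρ t p y x s) (hφ0 : 0 < φ) (hφ : φ ≤ 2 * π) :
    Kc r ρ * ((14 * r + 68 / 25) * rF r ρ φ) ≤ 12 / 100 * (27 / 10000 * exp (-(31 / 100 * r))) := by
  have hr := h.rpos
  have hr0 := h.r0
  refine (h.RF0 hφ0).trans ?_
  have h1 := h.sA hφ0 hφ (h.rA_ge hφ0) (h.rA_pos hφ0)
  have h2 : exp (-(r * (3168 / 5000))) = exp (-(3236 / 10000 * r)) * exp (-(31 / 100 * r)) := by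
    rw [← exp_add]
    congr 1
    ring
  rw [h2]
  have h3 := pow_exp_le (c := 3236 / 10000) 2 (by norm_num : (0:ℝ) < 499 / 10) hr0 (by norm_num)
  have h4 := exp_neg_split (q := 147 / 1000) (G := 3236 / 10000 * (499 / 10)) 16 (by norm_num)
    (by norm_num)
  norm_num at h4
  have hE := exp_pos (-(31 / 100 * r))
  calc 70273 / 10000 * r * (7072 / 10000) * √(PP p y / rA ρ φ) *
      (exp (-(3236 / 10000 * r)) * exp (-(31 / 100 * r))) ≤
      70273 / 10000 * r * (7072 / 10000) * (2487 / 10000 * r) *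
      (exp (-(3236 / 10000 * r)) * exp (-(31 / 100 * r))) := by gcongr
    _ = 70273 / 10000 * (7072 / 10000) * (2487 / 10000) * (r ^ (2 : ℕ) * exp (-(3236 / 10000 * r))) *
        exp (-(31 / 100 * r)) := by ring
    _ ≤ 12 / 100 * (27 / 10000) * exp (-(31 / 100 * r)) := by
        refine mul_le_mul_of_nonneg_right ?_ hE.le
        refine (mul_le_mul_of_nonneg_left h3 (by norm_num)).trans ?_
        norm_num
        linarith
    _ = _ := by ring

end SokamDz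

end

/-! ### Lib_MP_af4de1_v3.DzRealX -/

section
namespace SokamCen
end SokamCen
namespace SokamV3
end SokamV3
/-!
# The real inequalities of the fields `d` for `X > 80` (helper20): `realX_L`, `realX_R`
-/

set_option autoImplicit false

namespace SokamDz

open Real MeasureTheory Set SokamCen SokamV3

variable {r ρ t φ p y x z s u v c k α A B l e : ℝ}

/-- the largest angle: `(1 + 16y/25) (4/5) D ≤ (34/5) (4/5 - 8p/25) y` -/
theorem PX.Dineq (h : PX r ρ t p y x s) (hy : 37 / 50 ≤ y) :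
    (1 + 16 / 25 * y) * (4 / 5 * (2 * π * s - min (π * s) √(31 / 4))) ≤
      34 / 5 * (4 / 5 - 8 / 25 * p) * y := by
  have hp0 := h.pr.p0
  have hs0 := h.s0
  have hs1 := h.s1
  have hps := h.ps
  have hys := h.hs
  have hpi := Real.pi_lt_d4
  have hs3 : 8602 / 10000 ≤ s := by
    by_contra hc
    have : s < 8602 / 10000 := not_le.1 hc
    nlinarith only [hy, hs0, hys, this]
  have hpb : p ≤ 5 / 4 - s ^ (2 : ℕ) := by linarith only [hps, sq_nonneg (p - 1 / 2)]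
  have hq : 27838 / 10000 ≤ √(31 / 4) := by
    rw [Real.le_sqrt' (by norm_num)]
    norm_num
  have hR : 34 / 5 * (4 / 5 - 8 / 25 * (5 / 4 - s ^ (2 : ℕ))) * s ^ (2 : ℕ) ≤
      34 / 5 * (4 / 5 - 8 / 25 * p) * y := by
    rw [← hys]
    refine mul_le_mul_of_nonneg_right ?_ (sq_nonneg s)
    linarith only [hpb]
  refine le_trans ?_ hR
  rw [← hys]
  rcases le_total (π * s) √(31 / 4) with hc | hc
  · rw [min_eq_left hc]
    have h1 : 2 * π * s - π * s = π * s := by ring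
    rw [h1]
    have h2 : π * s ≤ 31416 / 10000 * s := mul_le_mul_of_nonneg_right (by linarith only [hpi]) hs0.le
    have h3 : (1 + 16 / 25 * s ^ (2 : ℕ)) * (4 / 5 * (π * s)) ≤
        (1 + 16 / 25 * s ^ (2 : ℕ)) * (4 / 5 * (31416 / 10000 * s)) := by gcongr
    refine h3.trans ?_
    have h4 : (1 + 16 / 25 * s ^ (2 : ℕ)) * (4 / 5 * (31416 / 10000)) ≤
        34 / 5 * (4 / 5 - 8 / 25 * (5 / 4 - s ^ (2 : ℕ))) * s := by
      nlinarith only [hs3]
    nlinarith only [h4]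
  · rw [min_eq_right hc]
    have h2 : 2 * π * s - √(31 / 4) ≤ 62832 / 10000 * s - 27838 / 10000 := by nlinarith only [hpi, hs3, hq]
    have h3 : (1 + 16 / 25 * s ^ (2 : ℕ)) * (4 / 5 * (2 * π * s - √(31 / 4))) ≤
        (1 + 16 / 25 * s ^ (2 : ℕ)) * (4 / 5 * (62832 / 10000 * s - 27838 / 10000)) := by gcongr
    refine h3.trans ?_
    nlinarith only [hy, hs1, hys]

theorem PX.QL (h : PX r ρ t p y x s) (hφ : φ = t ∨ φ = 2 * π - t) (hy : 37 / 50 ≤ y)
    (hX : r * x ^ (2 : ℕ) ≤ 31 / 4 * r) :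
    PP p y / lA ρ φ ≤ 34 / 5 * exp (2 * (31 / 100 * r - r * x ^ (2 : ℕ) / 25)) := by
  have hr := h.rpos
  have hr0 := h.r0
  have hp0 := h.pr.p0
  have hp1 := h.pr.p1
  have hy0 := h.y0
  have hs0 := h.s0
  have hs1 := h.s1
  have hps := h.ps
  have hys := h.hs
  have hx0 := h.pr.x0
  have hxpi := h.xpi
  have hpi := Real.pi_gt_d4
  have ht0 := h.pr.t0
  have hφ0 : 0 < φ := by
    rcases hφ with rfl | rfl
    · exact ht0
    · linarith only [ht0, h.t1]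
  have hs3 : 860 / 1000 ≤ s := by
    by_contra hc
    have : s < 860 / 1000 := not_le.1 hc
    nlinarith only [hy, hys, hx0, hxpi, hpi, this]
  have hA := h.lA_pos hφ0
  have hx2 : x ^ (2 : ℕ) ≤ 31 / 4 := by
    have : r * x ^ (2 : ℕ) ≤ r * (31 / 4) := by linarith only [hX]
    exact le_of_mul_le_mul_left this hr
  have hq : 27838 / 10000 ≤ √(31 / 4) := by
    rw [Real.le_sqrt' (by norm_num)]
    norm_num
  have hD := h.Dineq hy
  set x1 := min (π * s) √(31 / 4) with hx1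
  have hxx1 : x ≤ x1 := le_min hxpi (Real.le_sqrt_of_sq_le hx2)
  have hx1a : x1 ≤ π * s := min_le_left _ _
  have hx1b : 27 / 10 ≤ x1 := le_min (by nlinarith only [hpi, hs3]) (by linarith only [hq])
  have hx1c : x1 ^ (2 : ℕ) ≤ 31 / 4 := by
    have h1 : x1 ≤ √(31 / 4) := min_le_right _ _
    have h2 := pow_le_pow_left₀ (by linarith : 0 ≤ x1) h1 2
    rwa [Real.sq_sqrt (by norm_num)] at h2
  set D := 2 * π * s - x1 with hDdef
  have hD1 : π * s ≤ D := by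
    rw [hDdef]
    linarith only [hx1a]
  have hD2 : 27 / 10 ≤ D := by linarith only [hx1a, hx1b]
  have hD0 : 0 < D := by linarith only [hD2]
  set G := 2 * (31 / 100 * r - r * x ^ (2 : ℕ) / 25) with hG
  have hG1 : (x1 - x) / D ≤ G := by
    have h1 : 2 * r * ((x1 - x) * (x1 + x)) / 25 ≤ G := by
      rw [hG]
      nlinarith only [hr0, hx1c]
    refine le_trans ?_ h1
    rw [div_le_iff₀ hD0]
    have h2 : 1 ≤ 2 * r * (x1 + x) / 25 * D := by
      have h3 : 10 ≤ 2 * r * (x1 + x) / 25 := by nlinarith only [hr0, hx0, hx1b]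
      nlinarith only [hD2, h3]
    have h3 : 0 ≤ x1 - x := by linarith only [hxx1]
    calc x1 - x ≤ (x1 - x) * (2 * r * (x1 + x) / 25 * D) := le_mul_of_one_le_right h3 h2
      _ = _ := by ring
  have hG0 : 0 ≤ G := le_trans (div_nonneg (by linarith only [hxx1]) hD0.le) hG1
  have hz : φ * s ≤ D * exp G := by
    rcases hφ with rfl | rfl
    · rw [← h.xs]
      have : 1 ≤ exp G := Real.one_le_exp hG0
      nlinarith only [hxx1, hx1a, hD2, this]
    · have h1 : (2 * π - t) * s = D + (x1 - x) := by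
        rw [hDdef, h.xs]
        ring
      rw [h1]
      have h2 : 1 + (x1 - x) / D ≤ exp G := by
        have := Real.add_one_le_exp ((x1 - x) / D)
        have := exp_le_exp.2 hG1
        linarith
      calc D + (x1 - x) = D * (1 + (x1 - x) / D) := by field_simp
        _ ≤ _ := mul_le_mul_of_nonneg_left h2 hD0.le
  have h1e : 1 ≤ exp G := Real.one_le_exp hG0
  -- `1 ≤ κ (4/5) D e^G`
  have hκ : 1 ≤ min 1 (mm ρ / φ) * (4 / 5 * (D * exp G)) := by
    have hz0 : 0 < φ * s := by (clear * - hφ0 hs0; positivity)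
    rw [(h.prφ hφ0).mt]
    rcases le_total 1 (5 / (4 * (φ * s))) with hc | hc
    · rw [min_eq_left hc]
      nlinarith only [hD2, h1e]
    · rw [min_eq_right hc, div_mul_eq_mul_div, le_div_iff₀ (by (clear * - hφ0 hs0; positivity))]
      linarith only [hz]
  rw [div_le_iff₀ hA, h.lA_eq hφ0, aa_eq hp0]
  unfold PP
  rw [div_le_iff₀ hp0]
  have e1 : 34 / 5 * exp G * ((4 / 5 - 8 / 25 * p) / p * y * min 1 (mm ρ / φ)) * p =
      (34 / 5 * (4 / 5 - 8 / 25 * p) * y) * (min 1 (mm ρ / φ) * exp G) := by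
    field_simp
  rw [e1]
  have hκ0 : 0 ≤ min 1 (mm ρ / φ) * exp G := by
    have := h.pr.m0
    (clear * - this hφ0; positivity)
  calc 1 + 16 / 25 * y ≤ (1 + 16 / 25 * y) * (min 1 (mm ρ / φ) * (4 / 5 * (D * exp G))) :=
        le_mul_of_one_le_right (by (clear * - hy; positivity)) hκ
    _ = ((1 + 16 / 25 * y) * (4 / 5 * D)) * (min 1 (mm ρ / φ) * exp G) := by ring
    _ ≤ _ := mul_le_mul_of_nonneg_right hD hκ0

theorem exp_11976 : exp (-(24 / 100 * (499 / 10))) ≤ 6304 / 1000000000 := by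
  have h1 : exp (-(24 / 100 * (499 / 10))) = exp (-((12 : ℕ) : ℝ)) * exp (24 / 1000) := by
    rw [← exp_add]
    congr 1
    norm_num
  have h2 : exp (24 / 1000) ≤ 1 / (1 - 24 / 1000) := by
    have h3 := Real.one_sub_le_exp_neg (24 / 1000)
    rw [Real.exp_neg] at h3
    have h4 := exp_pos (24 / 1000)
    rw [← one_div, le_div_iff₀ h4] at h3
    rw [le_div_iff₀ (by norm_num)]
    linarith only [h3]
  rw [h1]
  refine (mul_le_mul (exp_neg_nat_le 12) h2 (exp_pos _).le (by positivity)).trans ?_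
  norm_num

/-- left far -/
theorem PX.tLF (h : PX r ρ t p y x s) (hφ : φ = t ∨ φ = 2 * π - t) :
    ∃ e, HE ρ e ∧ Kc r ρ * ((4 * r + 1) * lF r ρ φ e) ≤
      76 / 100 * (27 / 5 * Fd r ρ (r * x ^ (2 : ℕ))) := by
  have hr := h.rpos
  have hr0 := h.r0
  have hp0 := h.pr.p0
  have hp1 := h.pr.p1
  have hy0 := h.y0
  have hyp : y = 1 - p ^ (2 : ℕ) := h.pr.hy
  have ht0 := h.pr.t0
  have ht1 := h.t1
  have hpi := Real.pi_gt_d4
  have hpi2 := Real.pi_lt_d4
  have hX := h.hX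
  have hφ0 : 0 < φ := by
    rcases hφ with rfl | rfl
    · exact ht0
    · linarith only [ht0, ht1]
  have hφ2 : φ ≤ 2 * π := by
    rcases hφ with rfl | rfl
    · linarith only [ht0, ht1]
    · linarith only [ht0]
  have hA := h.lA_pos hφ0
  have hpi3 : π ^ (2 : ℕ) ≤ 987 / 100 := by nlinarith only [hpi, hpi2]
  have hXy : r * x ^ (2 : ℕ) / 25 ≤ 987 / 2500 * y * r := by
    have h1 := h.rx
    have h2 : r * (π ^ (2 : ℕ) * y) ≤ r * (987 / 100 * y) := by gcongr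
    linarith only [h1, h2]
  by_cases hp : p ≤ 25 / 38
  swap
  · -- (a)
    have hp' : 25 / 38 < p := not_le.1 hp
    have hy2 : y ≤ 5672 / 10000 := by nlinarith only [hyp, hp']
    refine ⟨1 / 2, HE_half h.pr.ρ0, (h.LF0 hφ0 _).trans ?_⟩
    have h1 := h.sA hφ0 hφ2 (h.lA_ge hφ0) hA
    have h2 : exp (-(r * (1 / 2))) ≤ exp (-(276 / 1000 * r)) * exp (-(r * x ^ (2 : ℕ) / 25)) := by
      rw [← exp_add]
      refine exp_le_exp.2 ?_
      nlinarith only [hX, hXy, hy2]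
    have h3 := pow_exp_le (c := 276 / 1000) 2 (by norm_num : (0:ℝ) < 499 / 10) hr0 (by norm_num)
    have h4 := exp_neg_split (q := 772 / 1000) (G := 276 / 1000 * (499 / 10)) 13 (by norm_num)
      (by norm_num)
    norm_num at h4
    have hE := exp_pos (-(r * x ^ (2 : ℕ) / 25))
    have hF := Fd_ge1 (ρ := ρ) hr hX
    calc 6125 / 10000 * (402010 / 100000 * r) * √(PP p y / lA ρ φ) * exp (-(r * (1 / 2))) ≤
        6125 / 10000 * (402010 / 100000 * r) * (2487 / 10000 * r) *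
        (exp (-(276 / 1000 * r)) * exp (-(r * x ^ (2 : ℕ) / 25))) := by gcongr
      _ = 6125 / 10000 * (402010 / 100000) * (2487 / 10000) * (r ^ (2 : ℕ) * exp (-(276 / 1000 * r))) *
          exp (-(r * x ^ (2 : ℕ) / 25)) := by ring
      _ ≤ 76 / 100 * (27 / 10000) * exp (-(r * x ^ (2 : ℕ) / 25)) := by
          refine mul_le_mul_of_nonneg_right ?_ hE.le
          refine (mul_le_mul_of_nonneg_left h3 (by norm_num)).trans ?_
          norm_num
          linarith only [h4]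
      _ ≤ _ := by linarith only [hF]
  have hmm : 19 / 10 ≤ mm ρ / ρ := by
    rw [h.pr.mr, le_div_iff₀ (by positivity)]
    linarith only [hp]
  have hy3 : 3 / 10 ≤ y := by nlinarith only [hp0, hyp, hp]
  have hs22 : √(PP p y / lA ρ φ) ≤ 4691 / 1000 := by
    rw [Real.sqrt_le_left (by norm_num), div_le_iff₀ hA]
    have := h.PL0 hφ0 hφ2 hy3
    linarith only [hA, this]
  refine ⟨11 / 20, HE_11_20 hmm, (h.LF0 hφ0 _).trans ?_⟩
  by_cases hX3 : r * x ^ (2 : ℕ) ≤ 31 / 4 * r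
  swap
  · -- (e)
    have hX3' : 31 / 4 * r < r * x ^ (2 : ℕ) := not_le.1 hX3
    have hF := Fd_ge3 (ρ := ρ) hr hX hX3'
    have h2 : exp (-(r * (11 / 20))) = exp (-(27 / 100 * r)) * exp (-(7 / 25 * r)) := by
      rw [← exp_add]
      congr 1
      ring
    have h3 := pow_exp_le (c := 27 / 100) 1 (by norm_num : (0:ℝ) < 499 / 10) hr0 (by norm_num)
    have h4 := exp_neg_split (q := 473 / 1000) (G := 27 / 100 * (499 / 10)) 13 (by norm_num)
      (by norm_num)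
    norm_num at h4
    have hE := exp_pos (-(7 / 25 * r))
    rw [h2]
    calc 6125 / 10000 * (402010 / 100000 * r) * √(PP p y / lA ρ φ) *
          (exp (-(27 / 100 * r)) * exp (-(7 / 25 * r))) ≤
        6125 / 10000 * (402010 / 100000 * r) * (4691 / 1000) *
        (exp (-(27 / 100 * r)) * exp (-(7 / 25 * r))) := by gcongr
      _ = 6125 / 10000 * (402010 / 100000) * (4691 / 1000) * (r ^ (1 : ℕ) * exp (-(27 / 100 * r))) *
          exp (-(7 / 25 * r)) := by ring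
      _ ≤ 76 / 100 * (27 / 10000) * exp (-(7 / 25 * r)) := by
          refine mul_le_mul_of_nonneg_right ?_ hE.le
          refine (mul_le_mul_of_nonneg_left h3 (by norm_num)).trans ?_
          norm_num
          linarith only [h4]
      _ ≤ _ := by linarith only [hF]
  have hF := Fd_ge1 (ρ := ρ) hr hX
  have hE := exp_pos (-(r * x ^ (2 : ℕ) / 25))
  by_cases hy4 : y ≤ 37 / 50
  · -- (b)
    have h2 : exp (-(r * (11 / 20))) ≤ exp (-(2578 / 10000 * r)) * exp (-(r * x ^ (2 : ℕ) / 25)) := by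
      rw [← exp_add]
      refine exp_le_exp.2 ?_
      nlinarith only [hXy, hX3, hy4]
    have h3 := pow_exp_le (c := 2578 / 10000) 1 (by norm_num : (0:ℝ) < 499 / 10) hr0 (by norm_num)
    have h4 := exp_neg_split (q := 864 / 1000) (G := 2578 / 10000 * (499 / 10)) 12 (by norm_num)
      (by norm_num)
    norm_num at h4
    calc 6125 / 10000 * (402010 / 100000 * r) * √(PP p y / lA ρ φ) * exp (-(r * (11 / 20))) ≤
        6125 / 10000 * (402010 / 100000 * r) * (4691 / 1000) *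
        (exp (-(2578 / 10000 * r)) * exp (-(r * x ^ (2 : ℕ) / 25))) := by gcongr
      _ = 6125 / 10000 * (402010 / 100000) * (4691 / 1000) * (r ^ (1 : ℕ) * exp (-(2578 / 10000 * r))) *
          exp (-(r * x ^ (2 : ℕ) / 25)) := by ring
      _ ≤ 76 / 100 * (27 / 10000) * exp (-(r * x ^ (2 : ℕ) / 25)) := by
          refine mul_le_mul_of_nonneg_right ?_ hE.le
          refine (mul_le_mul_of_nonneg_left h3 (by norm_num)).trans ?_
          norm_num
          linarith only [h4]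
      _ ≤ _ := by linarith only [hF]
  · -- (c), (d)
    have hQ := h.QL hφ (not_le.1 hy4).le hX3
    have hsq : √(PP p y / lA ρ φ) ≤ 2608 / 1000 * exp (31 / 100 * r - r * x ^ (2 : ℕ) / 25) := by
      rw [Real.sqrt_le_left (by positivity), mul_pow, ← Real.exp_nat_mul]
      refine hQ.trans ?_
      push_cast
      exact mul_le_mul_of_nonneg_right (by norm_num) (exp_pos _).le
    have h3 := pow_exp_le (c := 24 / 100) 1 (by norm_num : (0:ℝ) < 499 / 10) hr0 (by norm_num)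
    have h4 := exp_11976
    have h5 : exp (31 / 100 * r - r * x ^ (2 : ℕ) / 25) * exp (-(r * (11 / 20))) =
        exp (-(24 / 100 * r)) * exp (-(r * x ^ (2 : ℕ) / 25)) := by
      rw [← exp_add, ← exp_add]
      congr 1
      ring
    calc 6125 / 10000 * (402010 / 100000 * r) * √(PP p y / lA ρ φ) * exp (-(r * (11 / 20))) ≤
        6125 / 10000 * (402010 / 100000 * r) * (2608 / 1000 * exp (31 / 100 * r - r * x ^ (2 : ℕ) / 25)) *
          exp (-(r * (11 / 20))) := by gcongr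
      _ = 6125 / 10000 * (402010 / 100000 * r) * (2608 / 1000) *
        (exp (31 / 100 * r - r * x ^ (2 : ℕ) / 25) * exp (-(r * (11 / 20)))) := by ring
      _ = 6125 / 10000 * (402010 / 100000) * (2608 / 1000) * (r ^ (1 : ℕ) * exp (-(24 / 100 * r))) *
          exp (-(r * x ^ (2 : ℕ) / 25)) := by
          rw [h5]
          ring
      _ ≤ 76 / 100 * (27 / 10000) * exp (-(r * x ^ (2 : ℕ) / 25)) := by
          refine mul_le_mul_of_nonneg_right ?_ hE.le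
          refine (mul_le_mul_of_nonneg_left h3 (by norm_num)).trans ?_
          norm_num at h4 ⊢
          linarith only [h4]
      _ ≤ _ := by linarith only [hF]

/-- the left main parameters, wave on the left -/
theorem PX.ML (h : PX r ρ t p y x s) : ∃ B' l, HL ρ t B' l ∧
    l ≤ lA ρ t * B' * t ^ (2 : ℕ) / (lA ρ t + B') ∧
    Kc r ρ * (20 / 3 * lM (8 / 9 * r) ρ t B' l + 1 * lM r ρ t B' l) ≤
      56 / 1000 * (27 / 10000 * exp (-(r * x ^ (2 : ℕ) / 25))) := by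
  have ht0 := h.pr.t0
  have ht1 := h.t1
  have hpi := Real.pi_pos
  have hX := h.hX
  have hA := h.lA_pos ht0
  have hb := bc_gt
  have hb0 : 0 < bc := by linarith only [hb]
  have hl0 : (0 : ℝ) ≤ lA ρ t * bc * t ^ (2 : ℕ) / (lA ρ t + bc) := by (clear * - hA hb ht0; positivity)
  rcases le_total y (3 / 10) with hy | hy
  · exact ⟨bc, 0, HL_bc, hl0, h.tLM ht0 (by linarith only [ht0, ht1]) (by linarith only [hb]) (h.ELM24 le_rfl hy)
      (by linarith only [hX])⟩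
  · rcases le_total (r * x ^ (2 : ℕ)) 130 with h1 | h1
    · have h2 := h.ELM23 h1 hy
      refine ⟨63 / 200, 13 / 500 * t ^ (2 : ℕ), h.HL130 h1, ?_, h.tLM ht0 (by linarith only [ht0, ht1]) (by norm_num) h2
        (by linarith only [hX])⟩
      have h3 : 0 < r * (lA ρ t * (63 / 200) * t ^ (2 : ℕ) / (lA ρ t + 63 / 200) - 13 / 500 * t ^ (2 : ℕ)) := by
        linarith only [hX, h2]
      have h4 := (mul_pos_iff_of_pos_left h.rpos).1 h3
      linarith only [h4]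
    · exact ⟨bc, 0, HL_bc, hl0, h.tLM ht0 (by linarith only [ht0, ht1]) (by linarith only [hb]) (h.ELM15 le_rfl)
        (by linarith only [h1])⟩

/-- the left main parameters, wave on the right -/
theorem PX.MR (h : PX r ρ t p y x s) : ∃ B' l, HL ρ (2 * π - t) B' l ∧
    l ≤ lA ρ (2 * π - t) * B' * (2 * π - t) ^ (2 : ℕ) / (lA ρ (2 * π - t) + B') ∧
    Kc r ρ * (20 / 3 * lM (8 / 9 * r) ρ (2 * π - t) B' l + 1 * lM r ρ (2 * π - t) B' l) ≤
      56 / 1000 * (27 / 10000 * exp (-(r * x ^ (2 : ℕ) / 25))) := by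
  have ht0 := h.pr.t0
  have ht1 := h.t1
  have hpi := Real.pi_gt_d4
  have hX := h.hX
  have hφ0 : 0 < 2 * π - t := by linarith only [ht0, ht1]
  have hA := h.lA_pos hφ0
  have hb := bc_gt
  have hb0 : 0 < bc := by linarith only [hb]
  have hl0 : (0 : ℝ) ≤ lA ρ (2 * π - t) * bc * (2 * π - t) ^ (2 : ℕ) / (lA ρ (2 * π - t) + bc) := by
    (clear * - hA hb hφ0; positivity)
  refine ⟨bc, 0, HL_bc, hl0, ?_⟩
  rcases le_total y (3 / 10) with hy | hy
  · exact h.tLM hφ0 (by linarith only [ht0]) (by linarith only [hb]) (h.ELM24 (by linarith only [ht1]) hy) (by linarith only [hX])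
  · have h1 := h.pi.ELM15 (φ := 2 * π - t) (by linarith only [ht1])
    refine h.tLM hφ0 (by linarith only [ht0]) (by linarith only [hb]) h1 ?_
    have h2 := h.rx
    have h3 : r * (π * s) ^ (2 : ℕ) = r * (π ^ (2 : ℕ) * y) := by
      rw [mul_pow, h.hs]
    rw [h3]
    have h4 : 147 ≤ r * (π ^ (2 : ℕ) * y) := by
      have h5 : 98 / 10 ≤ π ^ (2 : ℕ) := by nlinarith only [hpi]
      have h6 : 98 / 10 * (3 / 10) ≤ π ^ (2 : ℕ) * y := mul_le_mul h5 hy (by norm_num) (by positivity)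
      have := h.r0
      nlinarith only [hpi, hy, h6, this]
    linarith only [h2, h4]

/-- assembly -/
theorem PX.asm (h : PX r ρ t p y x s) {φR φL B' l e : ℝ}
    (h1 : Kc r ρ * (56 / 3 * rM (8 / 9 * r) ρ φR (11 / 25) + 68 / 25 * rM r ρ φR (11 / 25)) ≤
      25 / 1000 * (27 / 10000 * exp (-(r * x ^ (2 : ℕ) / 25))))
    (h2 : Kc r ρ * (56 / 3 * rT (8 / 9 * r) ρ φR + 68 / 25 * rT r ρ φR) ≤
      2 / 1000 * (27 / 10000 * exp (-(r * x ^ (2 : ℕ) / 25))))
    (h3 : Kc r ρ * (56 / 3 * rO (8 / 9 * r) ρ φR + 68 / 25 * rO r ρ φR) ≤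
      2 / 1000 * (27 / 10000 * exp (-(r * x ^ (2 : ℕ) / 25))))
    (h4 : Kc r ρ * (20 / 3 * lM (8 / 9 * r) ρ φL B' l + 1 * lM r ρ φL B' l) ≤
      56 / 1000 * (27 / 10000 * exp (-(r * x ^ (2 : ℕ) / 25))))
    (h5 : Kc r ρ * (20 / 3 * lT (8 / 9 * r) ρ φL + 1 * lT r ρ φL) ≤
      2 / 1000 * (27 / 10000 * exp (-(r * x ^ (2 : ℕ) / 25))))
    (h6 : Kc r ρ * (20 / 3 * lO (8 / 9 * r) ρ φL + 1 * lO r ρ φL) ≤
      2 / 1000 * (27 / 10000 * exp (-(r * x ^ (2 : ℕ) / 25))))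
    (h7 : Kc r ρ * ((14 * r + 68 / 25) * rF r ρ φR) ≤
      12 / 100 * (27 / 10000 * exp (-(31 / 100 * r))))
    (h8 : Kc r ρ * ((4 * r + 1) * lF r ρ φL e) ≤ 76 / 100 * (27 / 5 * Fd r ρ (r * x ^ (2 : ℕ)))) :
    Kc r ρ * SW r ρ φR φL (14 / 5) (14 / 5) (11 / 25) B' l e ≤ 27 / 5 * Fd r ρ (r * x ^ (2 : ℕ)) := by
  have hF1 := Fd_ge1 (ρ := ρ) h.rpos h.hX
  have hF2 := Fd_ge2 (ρ := ρ) h.rpos h.hX
  have hE := exp_pos (-(r * x ^ (2 : ℕ) / 25))
  have hE2 := exp_pos (-(31 / 100 * r))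
  have e1 : Kc r ρ * SW r ρ φR φL (14 / 5) (14 / 5) (11 / 25) B' l e =
      Kc r ρ * (56 / 3 * rM (8 / 9 * r) ρ φR (11 / 25) + 68 / 25 * rM r ρ φR (11 / 25)) +
      Kc r ρ * (56 / 3 * rT (8 / 9 * r) ρ φR + 68 / 25 * rT r ρ φR) +
      Kc r ρ * (56 / 3 * rO (8 / 9 * r) ρ φR + 68 / 25 * rO r ρ φR) +
      Kc r ρ * (20 / 3 * lM (8 / 9 * r) ρ φL B' l + 1 * lM r ρ φL B' l) +
      Kc r ρ * (20 / 3 * lT (8 / 9 * r) ρ φL + 1 * lT r ρ φL) +
      Kc r ρ * (20 / 3 * lO (8 / 9 * r) ρ φL + 1 * lO r ρ φL) +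
      Kc r ρ * ((14 * r + 68 / 25) * rF r ρ φR) + Kc r ρ * ((4 * r + 1) * lF r ρ φL e) := by
    unfold SW
    ring
  rw [e1]
  linarith only [h1, h2, h3, h4, h5, h6, h7, h8, hF1, hF2, hE2]

/-- REAL INEQUALITY, left, `X > 80` -/
theorem realX_L (h : HypD r ρ t) (hX : 80 < r * t ^ (2 : ℕ) / (1 + ρ ^ (2 : ℕ))) :
    ∃ C Cf B B' l e : ℝ, HR (2 * π - t) B ∧
      HC ρ (2 * π - t) C ∧ HF ρ (2 * π - t) Cf ∧ HL ρ t B' l ∧ HE ρ e ∧
      l ≤ lA ρ t * B' * t ^ (2 : ℕ) / (lA ρ t + B') ∧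
      Kc r ρ * SW r ρ (2 * π - t) t C Cf B B' l e ≤ 27 / 5 * Fd r ρ (r * t ^ (2 : ℕ) / (1 + ρ ^ (2 : ℕ))) := by
  obtain ⟨p, y, x, s, H, hx, _⟩ := PX.ex h hX
  rw [← hx]
  obtain ⟨B', l, h1, h2, h3⟩ := H.ML
  obtain ⟨e, he, h4⟩ := H.tLF (φ := t) (Or.inl rfl)
  have ht0 := h.t0
  have ht1 := h.t1
  have hpi := Real.pi_pos
  refine ⟨14 / 5, 14 / 5, 11 / 25, B', l, e, HR_11_25 _, HC_big _ _, HF_big _ _, h1, he, h2,
    H.asm (H.tRM (by linarith only [ht1]) (by linarith only [ht0])) (H.tRT (by linarith only [ht1]))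
      (H.tRO (by linarith only [ht1, hpi]) (by linarith only [ht0]) (by linarith only [])) h3 (H.tLT le_rfl)
      (H.tLO ht0 (by linarith only [ht1, hpi]) (by linarith only [ht1])) (H.tRF (by linarith only [ht1, hpi]) (by linarith only [ht0])) h4⟩

/-- REAL INEQUALITY, right, `X > 80` -/
theorem realX_R (h : HypD r ρ t) (hX : 80 < r * t ^ (2 : ℕ) / (1 + ρ ^ (2 : ℕ))) :
    ∃ C Cf B B' l e : ℝ, HR t B ∧
      HC ρ t C ∧ HF ρ t Cf ∧ HL ρ (2 * π - t) B' l ∧ HE ρ e ∧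
      l ≤ lA ρ (2 * π - t) * B' * (2 * π - t) ^ (2 : ℕ) / (lA ρ (2 * π - t) + B') ∧
      Kc r ρ * SW r ρ t (2 * π - t) C Cf B B' l e ≤ 27 / 5 * Fd r ρ (r * t ^ (2 : ℕ) / (1 + ρ ^ (2 : ℕ))) := by
  obtain ⟨p, y, x, s, H, hx, _⟩ := PX.ex h hX
  rw [← hx]
  obtain ⟨B', l, h1, h2, h3⟩ := H.MR
  obtain ⟨e, he, h4⟩ := H.tLF (φ := 2 * π - t) (Or.inr rfl)
  have ht0 := h.t0
  have ht1 := h.t1
  have hpi := Real.pi_pos
  refine ⟨14 / 5, 14 / 5, 11 / 25, B', l, e, HR_11_25 _, HC_big _ _, HF_big _ _, h1, he, h2,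
    H.asm (H.tRM le_rfl (by linarith only [ht1, hpi])) (H.tRT le_rfl)
      (H.tRO ht0 (by linarith only [ht1, hpi]) (by linarith only [ht1])) h3 (H.tLT (by linarith only [ht1]))
      (H.tLO (by linarith only [ht1, hpi]) (by linarith only [ht0]) (by linarith only [])) (H.tRF ht0 (by linarith only [ht1, hpi])) h4⟩

end SokamDz

end

/-! ### Lib_MP_af4de1_v3.DzRealL -/

section
namespace SokamCen
end SokamCen
namespace SokamV3
end SokamV3
/-!
# The real inequality of the field `L.d`: `PRealDL` (helper7, helper25, helper20)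
-/

set_option autoImplicit false

namespace SokamDz

open Real MeasureTheory Set SokamCen SokamV3

variable {r ρ t p y x X : ℝ}

/-- the case `t ≥ 14/5` -/
theorem goalL_hi (h : Pr ρ t p y x) (hr : 499 / 10 ≤ r) (hXe : r * t ^ (2 : ℕ) / (1 + ρ ^ (2 : ℕ)) = X)
    (hX : X = r * x ^ (2 : ℕ)) (hX1 : 108 / 5 ≤ X) (hX2 : X ≤ 80) (ht : 14 / 5 ≤ t) (htp : t ≤ π)
    (gF : gFok r ρ t X (31 / 1000)) : GoalL r ρ t := by
  have hr0 : 0 < r := by linarith
  have hx1 := h.x_le hr hX hX2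
  have hρ := h.ρ0
  have hF := HF_big ρ (2 * π - t)
  have hy1 : y ≤ 2809 / 5000 := by
    have := h.y_le ht hx1
    norm_num at this
    linarith
  have gM := h.lmD hr hX hX1 hX2 ht htp
  have gT := h.glT3 hr hX hX1 hx1
  have gO := h.grO6 hr0 hX hX1 hy1 htp
  rcases le_total (2 * π - t) (3 / 5 * mm ρ) with hT | hT
  · exact asmW hρ htp hXe hX2 (HC_38_25 hT) hF gM gT gO (h.imgA hr hX hX1 ht htp hT) gF
      (by norm_num)
  · exact asmW hρ htp hXe hX2 (HC_big ρ (2 * π - t)) hF gM gT gO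
      (h.imgB hr hX hX1 hX2 ht htp hT) gF (by norm_num)

/-- REAL INEQUALITY, left, `X ≤ 80` -/
theorem realB_L (h : HypD r ρ t) (hX : r * t ^ (2 : ℕ) / (1 + ρ ^ (2 : ℕ)) ≤ 80) : GoalL r ρ t := by
  have H := Pr.ex h.ρ0 h.t0
  have hXX := HypD.X' h H
  have hX1 := h.X
  have hr := h.r0
  have ht := h.t1
  have gF := H.gF hr hXX hX1 hX ht
  rcases le_total t (14 / 5) with h1 | h1
  · exact goalL_lo H hr rfl hXX hX1 hX h1 gF
  · exact goalL_hi H hr rfl hXX hX1 hX h1 ht gF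

/-- REAL INEQUALITY, left -/
theorem pRealDL : PRealDL := fun r ρ t h => by
  rcases le_or_gt (r * t ^ (2 : ℕ) / (1 + ρ ^ (2 : ℕ))) 80 with hX | hX
  · exact realB_L h hX
  · exact realX_L h hX

/-- statement (S), left -/
theorem pdl : PDL := pDL pRealDL

/-- helper87's general field `d`, left, every real shift -/
theorem dGL : SokamCen.DGL := dgl pdl

end SokamDz

end

/-! ### Lib_MP_af4de1_v3.DzRealR -/

section
/-!
# `PRealDR`, `PDR`, `DGR` (helper48, helper20)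
-/

set_option autoImplicit false

namespace SokamDz

/-- the real inequality, right side -/
theorem pRealDR : PRealDR := fun r ρ t h => by
  rcases le_or_gt (r * t ^ (2 : ℕ) / (1 + ρ ^ (2 : ℕ))) 80 with hX | hX
  · exact SokamDR.realB_R h hX
  · exact realX_R h hX

/-- (S), right side -/
theorem pdr : PDR := pDR pRealDR

/-- **The general field `d`, right side.** -/
theorem dGR : SokamCen.DGR := dgr pdr

end SokamDz

end
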