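import Pool.Agent.Lib_MP_af4de1_zy.Z134

/-! ### Lib_MP_af4de1_v3.Own1 -/

section
namespace SokamF1
end SokamF1
namespace SokamF1B
end SokamF1B
namespace SokamF1G
end SokamF1G
namespace SokamF1M
end SokamF1M
namespace SokamF1S
end SokamF1S
namespace SokamPG
end SokamPG
namespace SokamU
end SokamU
/-!
# PIECE MAIN (regime I) from the tails
-/

set_option autoImplicit false

open Complex MeasureTheory Set SokamU SokamPG SokamF1 SokamF1S SokamF1M SokamF1G SokamF1B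

namespace SokamV3

theorem rd_eq {r δ y : ℝ} (hD : Dom (r * δ) y) :
    r * δ = √(sx (r * δ) y ^ (2 : ℕ) + y ^ (2 : ℕ)) * Real.exp y := by
  have h1 := norm_sK hD
  have h2 : ‖sK (r * δ) y‖ = √(sx (r * δ) y ^ (2 : ℕ) + y ^ (2 : ℕ)) := norm_K _ _
  rw [← h2, h1, mul_assoc, ← Real.exp_add]
  simp

theorem dom_zero_own {ρ : ℝ} (h : 0 < ρ) : Dom ρ 0 := ⟨h, by simpa using h.le⟩

theorem At.y_nonneg_own {r δ y η : ℝ} (h : At r δ y η) (hη : 0 ≤ η) : 0 ≤ y := by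
  by_contra hy
  push Not at hy
  have h1 := sE_strictMonoOn h.dom (dom_zero_own h.dom.1) h.y1.le ⟨le_rfl, hy.le⟩ ⟨hy.le, le_rfl⟩ hy
  rw [sE_zero h.dom.1, h.eta] at h1
  linarith only [hη, h1]

theorem At.y_nonpos_own {r δ y η : ℝ} (h : At r δ y η) (hη : η ≤ 0) : y ≤ 0 := by
  by_contra hy
  push Not at hy
  have h1 := sE_strictMonoOn (dom_zero_own h.dom.1) h.dom (by norm_num) ⟨le_rfl, hy.le⟩
    ⟨hy.le, le_rfl⟩ hy
  rw [sE_zero h.dom.1, h.eta] at h1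
  linarith only [hη, h1]

/-- The tails of regime I. -/
def PTail1 : Prop := ∀ (N : ℕ) (r δ y η : ℝ), Reg1 N r δ → At r δ y η → Sad1 N r δ y →
  |η| ≤ eo1 N r δ →
  Tl r δ y (fun _ => 1) ≤ 1 / 500 * sG r δ y ∧
  ‖kap r δ y‖ / sD (r * δ) y * Tl r δ y gs ≤ 3 / 2 * (HH N r δ / 1000) * sG r δ y ∧
  ‖kap r δ y‖ / sD (r * δ) y * Tl r δ y (fun σ => σ * gs σ) ≤
    HH N r δ ^ (2 : ℕ) / 250 * (δ * sG r δ y)

theorem hst_pos_own {N : ℕ} (hN : 2 ≤ N) : 0 < hst N := by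
  unfold hst
  have := Real.pi_pos
  have : (0 : ℝ) < N := by exact_mod_cast (by omega : 0 < N)
  positivity

theorem HH_nonneg_own {N : ℕ} {r δ : ℝ} (h : Par N r δ) : 0 ≤ HH N r δ := by
  have h1 := h.r0
  have h2 := hst_pos_own h.N2
  have h3 : 0 < RR r δ := by unfold RR; positivity
  unfold HH
  have : 0 ≤ r := by linarith
  positivity

/-- `POwn1` with the constants `HH/500`, `HH^2/200`. -/
theorem own1_of_own (hL : ∀ (N : ℕ) (r δ y η : ℝ), Reg1 N r δ → At r δ y η → Sad1 N r δ y →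
      0 ≤ η → η ≤ eo1 N r δ →
      Own r δ y (2 / 25) (7 / 8 * kD r δ y + HH N r δ / 500)
        (5 / 4 * (‖kap r δ y‖ / sD (r * δ) y) + HH N r δ ^ (2 : ℕ) / 200))
    (hR : ∀ (N : ℕ) (r δ y η : ℝ), Reg1 N r δ → At r δ y η → Sad1 N r δ y →
      η ≤ 0 → -eo1 N r δ ≤ η →
      Own r δ y (3 / 25) (13 / 10 * kD r δ y + HH N r δ / 500)
        (8 / 5 * (‖kap r δ y‖ / sD (r * δ) y) + HH N r δ ^ (2 : ℕ) / 200)) : POwn1 := by
  constructor
  · intro N r δ y η h1 hA h3 h4 h5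
    have hH := HH_nonneg_own h1.toPar
    have hH2 : 0 ≤ HH N r δ ^ (2 : ℕ) := sq_nonneg _
    exact (hL N r δ y η h1 hA h3 h4 h5).mono hA.y1 le_rfl (by linarith only []) (by linarith only [])
  · intro N r δ y η h1 hA h3 h4 h5
    have hH := HH_nonneg_own h1.toPar
    have hH2 : 0 ≤ HH N r δ ^ (2 : ℕ) := sq_nonneg _
    exact (hR N r δ y η h1 hA h3 h4 h5).mono hA.y1 le_rfl (by linarith only []) (by linarith only [])

end SokamV3

end
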