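import Pool.Agent.Lib_MP_af4de1_zy.Z37

/-! ### Lib_MP_af4de1_f1.MainS3 -/

section
namespace SokamF1G
end SokamF1G
/-!
# Structural constants of LEMMA MAIN, `y ≤ 0` (second part)

`K = √(x² + y²)`, `D = √((1+y)² + x²)`, `c = 1/(1+x)`, `Qf x y` the coefficient of `s²` (GLem.lean).
`hΦ` is the condition `Φ ≥ .44 r`.  It forces `x` to be at least an explicit increasing function of `|y|`
(`x² ((1+y)² - .1936 e^(2y)) ≥ .1936 e^(2y) y²`); the suprema are attained on that curve.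
-/

set_option autoImplicit false

namespace SokamF1B

open Real SokamF1G

private theorem exp_c : (5488 / 10000 : ℝ) ≤ exp (-(3 / 5)) ∧ exp (-(3 / 5)) ≤ 5489 / 10000 := by
  have h0 : 0 < exp (-(3 / 5) : ℝ) := exp_pos _
  have h1 : exp (-(3 / 5) : ℝ) ^ (5 : ℕ) * exp 1 ^ (3 : ℕ) = 1 := by
    rw [← exp_nat_mul, ← exp_nat_mul, ← exp_add]
    norm_num
  have h2 := exp_one_gt_d9
  have h3 := exp_one_lt_d9
  constructor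
  · by_contra h
    push Not at h
    have h4 : exp (-(3 / 5) : ℝ) ^ (5 : ℕ) ≤ (5488 / 10000) ^ (5 : ℕ) := pow_le_pow_left₀ h0.le h.le 5
    have h5 : exp (1 : ℝ) ^ (3 : ℕ) ≤ 2.7182818286 ^ (3 : ℕ) := pow_le_pow_left₀ (exp_pos _).le h3.le 3
    have h6 := mul_le_mul h4 h5 (by positivity) (by positivity)
    rw [h1] at h6
    norm_num at h6
  · by_contra h
    push Not at h
    have h4 : (5489 / 10000 : ℝ) ^ (5 : ℕ) ≤ exp (-(3 / 5) : ℝ) ^ (5 : ℕ) := pow_le_pow_left₀ (by norm_num) h.le 5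
    have h5 : (2.7182818283 : ℝ) ^ (3 : ℕ) ≤ exp (1 : ℝ) ^ (3 : ℕ) := pow_le_pow_left₀ (by norm_num) h2.le 3
    have h6 := mul_le_mul h4 h5 (by positivity) (by positivity)
    rw [h1] at h6
    norm_num at h6

private theorem exp_lo {y : ℝ} (hy : -(3 / 4) ≤ y) :
    0 ≤ 5488 / 10000 * (1 + (3 / 5 + y)) ∧ 5488 / 10000 * (1 + (3 / 5 + y)) ≤ exp y := by
  have h0 := exp_c.1
  have h1 : exp y = exp (-(3 / 5)) * exp (3 / 5 + y) := by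
    rw [← exp_add]
    congr 1
    ring
  have h2 := add_one_le_exp (3 / 5 + y)
  refine ⟨by linarith only [hy], ?_⟩
  rw [h1]
  exact mul_le_mul h0 (by linarith only [h2]) (by linarith only [hy]) (exp_pos _).le

private theorem exp_hi {y : ℝ} (hy : -(3 / 4) ≤ y) (hy1 : y ≤ 0) :
    exp y ≤ 5489 / 10000 * (1 + (3 / 5 + y) + (3 / 5 + y) ^ (2 : ℕ)) := by
  have h0 := exp_c.2
  have h1 : exp y = exp (-(3 / 5)) * exp (3 / 5 + y) := by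
    rw [← exp_add]
    congr 1
    ring
  have h3 : |3 / 5 + y| ≤ 1 := by
    rw [abs_le]
    constructor <;> linarith
  have h2 := (abs_le.1 (abs_exp_sub_one_sub_id_le h3)).2
  rw [h1]
  exact mul_le_mul h0 (by linarith only [h2]) (exp_pos _).le (by norm_num)

private theorem exp_hi0 {y : ℝ} (hy1 : y ≤ 0) : exp y ≤ 1 + y + y ^ (2 : ℕ) / 2 := by
  have h := quadratic_le_exp_of_nonneg (x := -y) (by linarith only [hy1])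
  have h1 : exp y * exp (-y) = 1 := by
    rw [← exp_add]
    simp
  have h2 := exp_pos y
  have h3 : exp y * (1 + -y + (-y) ^ (2 : ℕ) / 2) ≤ 1 := by
    exact (mul_le_mul_of_nonneg_left h h2.le).trans_eq h1
  have h4 : 1 ≤ (1 + -y + (-y) ^ (2 : ℕ) / 2) * (1 + y + y ^ (2 : ℕ) / 2) := by
    nlinarith only []
  have h5 : 0 < 1 + -y + (-y) ^ (2 : ℕ) / 2 := by nlinarith only []
  by_contra h6
  push Not at h6
  have h7 := mul_lt_mul_of_pos_right h6 h5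
  linarith only [h3, h4, h7]

private theorem base {x y : ℝ} (_hx : 0 ≤ x)
    (hΦ : 11 / 25 * (√(x ^ (2 : ℕ) + y ^ (2 : ℕ)) * exp y) ≤ x * (1 + y)) :
    121 / 625 * ((x ^ (2 : ℕ) + y ^ (2 : ℕ)) * exp y ^ (2 : ℕ)) ≤ x ^ (2 : ℕ) * (1 + y) ^ (2 : ℕ) := by
  have h0 : 0 ≤ 11 / 25 * (√(x ^ (2 : ℕ) + y ^ (2 : ℕ)) * exp y) := by positivity
  have h1 := pow_le_pow_left₀ h0 hΦ 2
  have h2 : √(x ^ (2 : ℕ) + y ^ (2 : ℕ)) ^ (2 : ℕ) = x ^ (2 : ℕ) + y ^ (2 : ℕ) := sq_sqrt (by positivity)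
  have h3 : (11 / 25 * (√(x ^ (2 : ℕ) + y ^ (2 : ℕ)) * exp y)) ^ (2 : ℕ) =
      121 / 625 * (√(x ^ (2 : ℕ) + y ^ (2 : ℕ)) ^ (2 : ℕ) * exp y ^ (2 : ℕ)) := by ring
  rw [h3, h2] at h1
  rwa [mul_pow] at h1

private theorem base_lo {x y : ℝ} (hx : 0 ≤ x) (hy : -(3 / 4) ≤ y)
    (hΦ : 11 / 25 * (√(x ^ (2 : ℕ) + y ^ (2 : ℕ)) * exp y) ≤ x * (1 + y)) :
    121 / 625 * (y ^ (2 : ℕ) * (5488 / 10000 * (1 + (3 / 5 + y))) ^ (2 : ℕ)) ≤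
      x ^ (2 : ℕ) * ((1 + y) ^ (2 : ℕ) - 121 / 625 * (5488 / 10000 * (1 + (3 / 5 + y))) ^ (2 : ℕ)) := by
  have h1 := base hx hΦ
  obtain ⟨h2, h3⟩ := exp_lo hy
  have h4 := pow_le_pow_left₀ h2 h3 2
  have h5 : (x ^ (2 : ℕ) + y ^ (2 : ℕ)) * (5488 / 10000 * (1 + (3 / 5 + y))) ^ (2 : ℕ) ≤ (x ^ (2 : ℕ) + y ^ (2 : ℕ)) * exp y ^ (2 : ℕ) :=
    mul_le_mul_of_nonneg_left h4 (by positivity)
  linarith only [h1, h5]

private theorem M_pos {y : ℝ} (hy : -(3 / 4) ≤ y) :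
    0 < (1 + y) ^ (2 : ℕ) - 121 / 625 * (5488 / 10000 * (1 + (3 / 5 + y))) ^ (2 : ℕ) := by
  obtain ⟨h2, -⟩ := exp_lo hy
  have h3 : 11 / 25 * (5488 / 10000 * (1 + (3 / 5 + y))) < 1 + y := by linarith only [hy]
  have h4 := pow_lt_pow_left₀ h3 (by positivity) (two_ne_zero)
  have h5 : (11 / 25 * (5488 / 10000 * (1 + (3 / 5 + y)))) ^ (2 : ℕ) =
    121 / 625 * (5488 / 10000 * (1 + (3 / 5 + y))) ^ (2 : ℕ) := by ring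
  linarith only [h4]

private theorem qf_sq {x y : ℝ} (hx : 0 ≤ x) :
    Qf x y = (1 / (1 + x)) ^ (2 : ℕ) * ((1 + y) * (1 + x) + x ^ (2 : ℕ) + x ^ (3 : ℕ) / 2) := by
  have h : (1 : ℝ) + x ≠ 0 := by linarith only [hx]
  unfold Qf
  field_simp
  ring

private theorem kd1 {y : ℝ} (h1 : -(3 / 4) ≤ y) (h2 : y ≤ -(3 / 5)) :
    0 ≤ 121 / 625 * (y ^ (2 : ℕ) * (5488 / 10000 * (1 + (3 / 5 + y))) ^ (2 : ℕ)) -
      ((441 / 100 * (36 / 100) ^ (2 : ℕ) - 1 - 2 * y) * (1250 / 2719) - (1 + y) ^ (2 : ℕ)) * ((1 + y) ^ (2 : ℕ) - 121 / 625 * (5488 / 10000 * (1 + (3 / 5 + y))) ^ (2 : ℕ)) := by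
  have hs : 0 ≤ y + 3 / 4 := by linarith only [h1]
  have hr : 0 ≤ -(3 / 5) - y := by linarith only [h2]
  obtain ⟨s, hs'⟩ : ∃ s, s = y + 3 / 4 := ⟨_, rfl⟩
  obtain ⟨r, hr'⟩ : ∃ r, r = -(3 / 5) - y := ⟨_, rfl⟩
  have key : 121 / 625 * (y ^ (2 : ℕ) * (5488 / 10000 * (1 + (3 / 5 + y))) ^ (2 : ℕ)) -
      ((441 / 100 * (36 / 100) ^ (2 : ℕ) - 1 - 2 * y) * (1250 / 2719) - (1 + y) ^ (2 : ℕ)) * ((1 + y) ^ (2 : ℕ) - 121 / 625 * (5488 / 10000 * (1 + (3 / 5 + y))) ^ (2 : ℕ)) =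
      176248238821087 / 5974365234375 * (s ^ (0 : ℕ) * r ^ (4 : ℕ)) +
      145934066631448 / 1991455078125 * (s ^ (1 : ℕ) * r ^ (3 : ℕ)) +
      285284612501872 / 5974365234375 * (s ^ (2 : ℕ) * r ^ (2 : ℕ)) +
      2121711877696 / 398291015625 * (s ^ (3 : ℕ) * r ^ (1 : ℕ)) +
      562775678848 / 238974609375 * (s ^ (4 : ℕ) * r ^ (0 : ℕ)) := by
    rw [hs', hr']
    ring
  rw [← hs'] at hs
  rw [← hr'] at hr
  rw [key]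
  positivity

private theorem kd2 {y : ℝ} (h1 : -(3 / 5) ≤ y) (h2 : y ≤ -(1 / 2)) :
    0 ≤ 121 / 625 * (y ^ (2 : ℕ) * (5488 / 10000 * (1 + (3 / 5 + y))) ^ (2 : ℕ)) -
      ((441 / 100 * (36 / 100) ^ (2 : ℕ) - 1 - 2 * y) * (1250 / 2719) - (1 + y) ^ (2 : ℕ)) * ((1 + y) ^ (2 : ℕ) - 121 / 625 * (5488 / 10000 * (1 + (3 / 5 + y))) ^ (2 : ℕ)) := by
  have hs : 0 ≤ y + 3 / 5 := by linarith only [h1]
  have hr : 0 ≤ -(1 / 2) - y := by linarith only [h2]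
  obtain ⟨s, hs'⟩ : ∃ s, s = y + 3 / 5 := ⟨_, rfl⟩
  obtain ⟨r, hr'⟩ : ∃ r, r = -(1 / 2) - y := ⟨_, rfl⟩
  have key : 121 / 625 * (y ^ (2 : ℕ) * (5488 / 10000 * (1 + (3 / 5 + y))) ^ (2 : ℕ)) -
      ((441 / 100 * (36 / 100) ^ (2 : ℕ) - 1 - 2 * y) * (1250 / 2719) - (1 + y) ^ (2 : ℕ)) * ((1 + y) ^ (2 : ℕ) - 121 / 625 * (5488 / 10000 * (1 + (3 / 5 + y))) ^ (2 : ℕ)) =
      316561319352 / 26552734375 * (s ^ (0 : ℕ) * r ^ (4 : ℕ)) +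
      8165118115992 / 132763671875 * (s ^ (1 : ℕ) * r ^ (3 : ℕ)) +
      143548556295268 / 663818359375 * (s ^ (2 : ℕ) * r ^ (2 : ℕ)) +
      211871065868836 / 663818359375 * (s ^ (3 : ℕ) * r ^ (1 : ℕ)) +
      101897885529103 / 663818359375 * (s ^ (4 : ℕ) * r ^ (0 : ℕ)) := by
    rw [hs', hr']
    ring
  rw [← hs'] at hs
  rw [← hr'] at hr
  rw [key]
  positivity

private theorem nu1 {y : ℝ} (h1 : -(3 / 4) ≤ y) (h2 : y ≤ -(3 / 5)) :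
    0 ≤ 121 / 625 * (y ^ (2 : ℕ) * (5488 / 10000 * (1 + (3 / 5 + y))) ^ (2 : ℕ) * (12 * (35 / 100) ^ (2 : ℕ) - (5489 / 10000 * (1 + (3 / 5 + y) + (3 / 5 + y) ^ (2 : ℕ))) ^ (2 : ℕ))) -
      (8 * (35 / 100) ^ (3 : ℕ) - (1 + 2 * y) * (5489 / 10000 * (1 + (3 / 5 + y) + (3 / 5 + y) ^ (2 : ℕ))) ^ (2 : ℕ) - (1 + y) ^ (2 : ℕ) * (12 * (35 / 100) ^ (2 : ℕ) - (5489 / 10000 * (1 + (3 / 5 + y) + (3 / 5 + y) ^ (2 : ℕ))) ^ (2 : ℕ))) *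
        ((1 + y) ^ (2 : ℕ) - 121 / 625 * (5488 / 10000 * (1 + (3 / 5 + y))) ^ (2 : ℕ)) := by
  have hs : 0 ≤ y + 3 / 4 := by linarith only [h1]
  have hr : 0 ≤ -(3 / 5) - y := by linarith only [h2]
  obtain ⟨s, hs'⟩ : ∃ s, s = y + 3 / 4 := ⟨_, rfl⟩
  obtain ⟨r, hr'⟩ : ∃ r, r = -(3 / 5) - y := ⟨_, rfl⟩
  have key : 121 / 625 * (y ^ (2 : ℕ) * (5488 / 10000 * (1 + (3 / 5 + y))) ^ (2 : ℕ) * (12 * (35 / 100) ^ (2 : ℕ) - (5489 / 10000 * (1 + (3 / 5 + y) + (3 / 5 + y) ^ (2 : ℕ))) ^ (2 : ℕ))) -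
      (8 * (35 / 100) ^ (3 : ℕ) - (1 + 2 * y) * (5489 / 10000 * (1 + (3 / 5 + y) + (3 / 5 + y) ^ (2 : ℕ))) ^ (2 : ℕ) - (1 + y) ^ (2 : ℕ) * (12 * (35 / 100) ^ (2 : ℕ) - (5489 / 10000 * (1 + (3 / 5 + y) + (3 / 5 + y) ^ (2 : ℕ))) ^ (2 : ℕ))) *
        ((1 + y) ^ (2 : ℕ) - 121 / 625 * (5488 / 10000 * (1 + (3 / 5 + y))) ^ (2 : ℕ)) =
      92395946001518857 / 1093500000000 * (s ^ (0 : ℕ) * r ^ (8 : ℕ)) +
      20047619867791429 / 34171875000 * (s ^ (1 : ℕ) * r ^ (7 : ℕ)) +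
      5923389915584021 / 3417187500 * (s ^ (2 : ℕ) * r ^ (6 : ℕ)) +
      193482128311577 / 68343750 * (s ^ (3 : ℕ) * r ^ (5 : ℕ)) +
      2371390254908096 / 854296875 * (s ^ (4 : ℕ) * r ^ (4 : ℕ)) +
      7089880762280912 / 4271484375 * (s ^ (5 : ℕ) * r ^ (3 : ℕ)) +
      2509858865411728 / 4271484375 * (s ^ (6 : ℕ) * r ^ (2 : ℕ)) +
      97168461597952 / 854296875 * (s ^ (7 : ℕ) * r ^ (1 : ℕ)) +
      1693523510272 / 170859375 * (s ^ (8 : ℕ) * r ^ (0 : ℕ)) := by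
    rw [hs', hr']
    ring
  rw [← hs'] at hs
  rw [← hr'] at hr
  rw [key]
  positivity

private theorem nu2 {y : ℝ} (h1 : -(3 / 5) ≤ y) (h2 : y ≤ -(2 / 5)) :
    0 ≤ 121 / 625 * (y ^ (2 : ℕ) * (5488 / 10000 * (1 + (3 / 5 + y))) ^ (2 : ℕ) * (12 * (35 / 100) ^ (2 : ℕ) - (5489 / 10000 * (1 + (3 / 5 + y) + (3 / 5 + y) ^ (2 : ℕ))) ^ (2 : ℕ))) -
      (8 * (35 / 100) ^ (3 : ℕ) - (1 + 2 * y) * (5489 / 10000 * (1 + (3 / 5 + y) + (3 / 5 + y) ^ (2 : ℕ))) ^ (2 : ℕ) - (1 + y) ^ (2 : ℕ) * (12 * (35 / 100) ^ (2 : ℕ) - (5489 / 10000 * (1 + (3 / 5 + y) + (3 / 5 + y) ^ (2 : ℕ))) ^ (2 : ℕ))) *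
        ((1 + y) ^ (2 : ℕ) - 121 / 625 * (5488 / 10000 * (1 + (3 / 5 + y))) ^ (2 : ℕ)) := by
  have hs : 0 ≤ y + 3 / 5 := by linarith only [h1]
  have hr : 0 ≤ -(2 / 5) - y := by linarith only [h2]
  obtain ⟨s, hs'⟩ : ∃ s, s = y + 3 / 5 := ⟨_, rfl⟩
  obtain ⟨r, hr'⟩ : ∃ r, r = -(2 / 5) - y := ⟨_, rfl⟩
  have key : 121 / 625 * (y ^ (2 : ℕ) * (5488 / 10000 * (1 + (3 / 5 + y))) ^ (2 : ℕ) * (12 * (35 / 100) ^ (2 : ℕ) - (5489 / 10000 * (1 + (3 / 5 + y) + (3 / 5 + y) ^ (2 : ℕ))) ^ (2 : ℕ))) -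
      (8 * (35 / 100) ^ (3 : ℕ) - (1 + 2 * y) * (5489 / 10000 * (1 + (3 / 5 + y) + (3 / 5 + y) ^ (2 : ℕ))) ^ (2 : ℕ) - (1 + y) ^ (2 : ℕ) * (12 * (35 / 100) ^ (2 : ℕ) - (5489 / 10000 * (1 + (3 / 5 + y) + (3 / 5 + y) ^ (2 : ℕ))) ^ (2 : ℕ))) *
        ((1 + y) ^ (2 : ℕ) - 121 / 625 * (5488 / 10000 * (1 + (3 / 5 + y))) ^ (2 : ℕ)) =
      4961494659 / 5000000 * (s ^ (0 : ℕ) * r ^ (8 : ℕ)) +
      83508531723 / 25000000 * (s ^ (1 : ℕ) * r ^ (7 : ℕ)) +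
      3932950368391 / 500000000 * (s ^ (2 : ℕ) * r ^ (6 : ℕ)) +
      10064201110561 / 250000000 * (s ^ (3 : ℕ) * r ^ (5 : ℕ)) +
      13182918276393 / 100000000 * (s ^ (4 : ℕ) * r ^ (4 : ℕ)) +
      2207228945551 / 10000000 * (s ^ (5 : ℕ) * r ^ (3 : ℕ)) +
      19812266019611 / 100000000 * (s ^ (6 : ℕ) * r ^ (2 : ℕ)) +
      11482292779299 / 125000000 * (s ^ (7 : ℕ) * r ^ (1 : ℕ)) +
      2171004822603 / 125000000 * (s ^ (8 : ℕ) * r ^ (0 : ℕ)) := by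
    rw [hs', hr']
    ring
  rw [← hs'] at hs
  rw [← hr'] at hr
  rw [key]
  positivity

/-- true supremum `1.919` (at `x = .405, y = -.57`) -/
theorem s2_nu {x y : ℝ} (hx : 0 ≤ x) (hy : -(3 / 4) ≤ y) (hy1 : y ≤ 0)
    (hΦ : 11 / 25 * (√(x ^ (2 : ℕ) + y ^ (2 : ℕ)) * exp y) ≤ x * (1 + y)) :
    √(x ^ (2 : ℕ) + y ^ (2 : ℕ)) * exp y ≤ 2 * √((1 + y) ^ (2 : ℕ) + x ^ (2 : ℕ)) ^ (3 : ℕ) := by
  have hE := exp_pos y
  have hp : 0 ≤ (1 + y) ^ (2 : ℕ) + x ^ (2 : ℕ) := by positivity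
  have hK : √(x ^ (2 : ℕ) + y ^ (2 : ℕ)) ^ (2 : ℕ) = x ^ (2 : ℕ) + y ^ (2 : ℕ) := sq_sqrt (by positivity)
  have hD : √((1 + y) ^ (2 : ℕ) + x ^ (2 : ℕ)) ^ (2 : ℕ) = (1 + y) ^ (2 : ℕ) + x ^ (2 : ℕ) := sq_sqrt hp
  have goal2 : (x ^ (2 : ℕ) + y ^ (2 : ℕ)) * exp y ^ (2 : ℕ) ≤ 4 * ((1 + y) ^ (2 : ℕ) + x ^ (2 : ℕ)) ^ (3 : ℕ) := by
    rcases le_total (-(2 / 5)) y with h | h
    · have h1 : exp y * (1 - y) ≤ 1 := by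
        have h2 := add_one_le_exp (-y)
        have h3 : exp y * exp (-y) = 1 := by
          rw [← exp_add]
          simp
        nlinarith only [hE, h2, h3]
      have h2 : 1 ≤ 2 * (1 + y) ^ (2 : ℕ) * (1 - y) := by nlinarith only [hy1, h, mul_nonneg (sq_nonneg y) (by linarith : 0 ≤ y + 2 / 5)]
      have h3 : exp y ≤ 2 * (1 + y) ^ (2 : ℕ) := by
        have h4 : 0 < 1 - y := by linarith only [hy1]
        by_contra h5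
        push Not at h5
        have h6 := mul_lt_mul_of_pos_right h5 h4
        linarith only [h1, h2, h6]
      have h4 : exp y ≤ 2 * ((1 + y) ^ (2 : ℕ) + x ^ (2 : ℕ)) := by nlinarith only [h3]
      have h5 := pow_le_pow_left₀ hE.le h4 2
      have h6 : x ^ (2 : ℕ) + y ^ (2 : ℕ) ≤ (1 + y) ^ (2 : ℕ) + x ^ (2 : ℕ) := by linarith only [h]
      calc (x ^ (2 : ℕ) + y ^ (2 : ℕ)) * exp y ^ (2 : ℕ) ≤ ((1 + y) ^ (2 : ℕ) + x ^ (2 : ℕ)) * (2 * ((1 + y) ^ (2 : ℕ) + x ^ (2 : ℕ))) ^ (2 : ℕ) :=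
            mul_le_mul h6 h5 (by positivity) hp
        _ = 4 * ((1 + y) ^ (2 : ℕ) + x ^ (2 : ℕ)) ^ (3 : ℕ) := by ring
    · have hU := pow_le_pow_left₀ hE.le (exp_hi hy hy1) 2
      have hb := base_lo hx hy hΦ
      have hM := M_pos hy
      have hU2 : (5489 / 10000 * (1 + (3 / 5 + y) + (3 / 5 + y) ^ (2 : ℕ))) ^ (2 : ℕ) ≤ 1 := by
        have h1 : 0 ≤ 5489 / 10000 * (1 + (3 / 5 + y) + (3 / 5 + y) ^ (2 : ℕ)) := by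
          have := exp_hi hy hy1
          linarith only [hE, this]
        have h2 : 5489 / 10000 * (1 + (3 / 5 + y) + (3 / 5 + y) ^ (2 : ℕ)) ≤ 1 := by nlinarith only [hy, h]
        exact pow_le_one₀ h1 h2
      have hM' : 0 < 12 * (35 / 100) ^ (2 : ℕ) - (5489 / 10000 * (1 + (3 / 5 + y) + (3 / 5 + y) ^ (2 : ℕ))) ^ (2 : ℕ) := by
        norm_num
        linarith only [hU2]
      have hP : 0 ≤ 121 / 625 * (y ^ (2 : ℕ) * (5488 / 10000 * (1 + (3 / 5 + y))) ^ (2 : ℕ) * (12 * (35 / 100) ^ (2 : ℕ) - (5489 / 10000 * (1 + (3 / 5 + y) + (3 / 5 + y) ^ (2 : ℕ))) ^ (2 : ℕ))) -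
      (8 * (35 / 100) ^ (3 : ℕ) - (1 + 2 * y) * (5489 / 10000 * (1 + (3 / 5 + y) + (3 / 5 + y) ^ (2 : ℕ))) ^ (2 : ℕ) - (1 + y) ^ (2 : ℕ) * (12 * (35 / 100) ^ (2 : ℕ) - (5489 / 10000 * (1 + (3 / 5 + y) + (3 / 5 + y) ^ (2 : ℕ))) ^ (2 : ℕ))) *
        ((1 + y) ^ (2 : ℕ) - 121 / 625 * (5488 / 10000 * (1 + (3 / 5 + y))) ^ (2 : ℕ)) := by
        rcases le_total y (-(3 / 5)) with h1 | h1
        · exact nu1 hy h1
        · exact nu2 h1 h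
      by_contra hc
      push Not at hc
      have hc1 : 4 * ((1 + y) ^ (2 : ℕ) + x ^ (2 : ℕ)) ^ (3 : ℕ) < (x ^ (2 : ℕ) + y ^ (2 : ℕ)) * (5489 / 10000 * (1 + (3 / 5 + y) + (3 / 5 + y) ^ (2 : ℕ))) ^ (2 : ℕ) :=
        lt_of_lt_of_le hc (mul_le_mul_of_nonneg_left hU (by positivity))
      have ht : 3 * (35 / 100) ^ (2 : ℕ) * ((1 + y) ^ (2 : ℕ) + x ^ (2 : ℕ)) - 2 * (35 / 100) ^ (3 : ℕ) ≤ ((1 + y) ^ (2 : ℕ) + x ^ (2 : ℕ)) ^ (3 : ℕ) := by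
        have h1 : 0 ≤ (((1 + y) ^ (2 : ℕ) + x ^ (2 : ℕ)) - 35 / 100) ^ (2 : ℕ) * (((1 + y) ^ (2 : ℕ) + x ^ (2 : ℕ)) + 2 * (35 / 100)) := by
          positivity
        linarith only [h1]
      generalize hUg : (5489 / 10000 * (1 + (3 / 5 + y) + (3 / 5 + y) ^ (2 : ℕ))) ^ (2 : ℕ) = U at *
      generalize hLg : (5488 / 10000 * (1 + (3 / 5 + y))) ^ (2 : ℕ) = L at *
      have h2 : x ^ (2 : ℕ) * (12 * (35 / 100) ^ (2 : ℕ) - U) < 8 * (35 / 100) ^ (3 : ℕ) - (1 + 2 * y) * U - (1 + y) ^ (2 : ℕ) * (12 * (35 / 100) ^ (2 : ℕ) - U) := by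
        linarith only [ht, hc1]
      have h3 := mul_lt_mul_of_pos_right h2 hM
      have h4 := mul_le_mul_of_nonneg_right hb hM'.le
      linarith only [hP, h3, h4]
  have hK0 : 0 ≤ √(x ^ (2 : ℕ) + y ^ (2 : ℕ)) * exp y := by positivity
  have hD0 : 0 ≤ 2 * √((1 + y) ^ (2 : ℕ) + x ^ (2 : ℕ)) ^ (3 : ℕ) := by positivity
  rw [← pow_le_pow_iff_left₀ hK0 hD0 two_ne_zero]
  calc (√(x ^ (2 : ℕ) + y ^ (2 : ℕ)) * exp y) ^ (2 : ℕ) = √(x ^ (2 : ℕ) + y ^ (2 : ℕ)) ^ (2 : ℕ) * exp y ^ (2 : ℕ) := by ring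
    _ = (x ^ (2 : ℕ) + y ^ (2 : ℕ)) * exp y ^ (2 : ℕ) := by rw [hK]
    _ ≤ 4 * ((1 + y) ^ (2 : ℕ) + x ^ (2 : ℕ)) ^ (3 : ℕ) := goal2
    _ = 4 * (√((1 + y) ^ (2 : ℕ) + x ^ (2 : ℕ)) ^ (2 : ℕ)) ^ (3 : ℕ) := by rw [hD]
    _ = (2 * √((1 + y) ^ (2 : ℕ) + x ^ (2 : ℕ)) ^ (3 : ℕ)) ^ (2 : ℕ) := by ring

/-- true supremum `2.0522` (at `x = .45, y = -.598`) -/
theorem s2_kd {x y : ℝ} (hx : 0 ≤ x) (hy : -(3 / 4) ≤ y) (hy1 : y ≤ 0)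
    (hΦ : 11 / 25 * (√(x ^ (2 : ℕ) + y ^ (2 : ℕ)) * exp y) ≤ x * (1 + y)) :
    √(x ^ (2 : ℕ) + y ^ (2 : ℕ)) ≤ 21 / 10 * ((1 + y) ^ (2 : ℕ) + x ^ (2 : ℕ)) := by
  refine Real.sqrt_le_iff.2 ⟨by positivity, ?_⟩
  rcases le_total (-(1 / 2)) y with h | h
  · have h1 : 1 / 4 ≤ (1 + y) ^ (2 : ℕ) + x ^ (2 : ℕ) := by nlinarith only [h]
    nlinarith only [h, h1]
  · have hb := base_lo hx hy hΦ
    have hM := M_pos hy
    have hP : 0 ≤ 121 / 625 * (y ^ (2 : ℕ) * (5488 / 10000 * (1 + (3 / 5 + y))) ^ (2 : ℕ)) -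
      ((441 / 100 * (36 / 100) ^ (2 : ℕ) - 1 - 2 * y) * (1250 / 2719) - (1 + y) ^ (2 : ℕ)) * ((1 + y) ^ (2 : ℕ) - 121 / 625 * (5488 / 10000 * (1 + (3 / 5 + y))) ^ (2 : ℕ)) := by
      rcases le_total y (-(3 / 5)) with h1 | h1
      · exact kd1 hy h1
      · exact kd2 h1 h
    by_contra hc
    push Not at hc
    generalize (5488 / 10000 * (1 + (3 / 5 + y))) ^ (2 : ℕ) = L at *
    have h2 : x ^ (2 : ℕ) < (441 / 100 * (36 / 100) ^ (2 : ℕ) - 1 - 2 * y) * (1250 / 2719) - (1 + y) ^ (2 : ℕ) := by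
      linarith only [hc, sq_nonneg (((1 + y) ^ (2 : ℕ) + x ^ (2 : ℕ)) - 36 / 100)]
    have h3 := mul_lt_mul_of_pos_right h2 hM
    linarith only [hb, hP, h3]

/-- true supremum `.495` (at `x = .45, y = -.598`) -/
theorem s2_gam {x y : ℝ} (hx : 0 ≤ x) (hy : -(3 / 4) ≤ y) (hy1 : y ≤ 0)
    (hΦ : 11 / 25 * (√(x ^ (2 : ℕ) + y ^ (2 : ℕ)) * exp y) ≤ x * (1 + y)) :
    (1 / (1 + x)) ^ (2 : ℕ) * (√(x ^ (2 : ℕ) + y ^ (2 : ℕ)) * exp y) ≤ 3 / 5 * Qf x y := by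
  have hd : 0 < 1 + x := by linarith only [hx]
  have hE := exp_pos y
  rw [qf_sq hx]
  suffices h : √(x ^ (2 : ℕ) + y ^ (2 : ℕ)) * exp y ≤ 3 / 5 * ((1 + y) * (1 + x) + x ^ (2 : ℕ) + x ^ (3 : ℕ) / 2) by
    have h1 := mul_le_mul_of_nonneg_left h (by positivity : (0 : ℝ) ≤ (1 / (1 + x)) ^ (2 : ℕ))
    linarith only [h1]
  rcases le_total y (-(12 / 25)) with h | h
  · have h1 : √(x ^ (2 : ℕ) + y ^ (2 : ℕ)) * exp y ≤ 25 / 11 * (x * (1 + y)) := by linarith only [hΦ]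
    refine h1.trans ?_
    have h2 : 0 ≤ 3 / 5 * ((1 / 4) * (1 + x) + x ^ (2 : ℕ) + x ^ (3 : ℕ) / 2) - 25 / 11 * (x * (1 / 4)) := by
      nlinarith only [pow_nonneg hx 3]
    have h3 : 0 ≤ 3 / 5 * ((13 / 25) * (1 + x) + x ^ (2 : ℕ) + x ^ (3 : ℕ) / 2) - 25 / 11 * (x * (13 / 25)) := by
      nlinarith only [mul_nonneg hx (sq_nonneg (x - 3 / 5))]
    have h4 : 0 ≤ 13 / 25 - (1 + y) := by linarith only [h]
    have h5 : 0 ≤ (1 + y) - 1 / 4 := by linarith only [hy]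
    linarith only [mul_nonneg h4 h2, mul_nonneg h5 h3]
  · have hU0 := exp_hi0 hy1
    have ht : 0 ≤ -y := by linarith only [hy1]
    have hs : 0 ≤ y + 12 / 25 := by linarith only [h]
    have hq : 0 ≤ 3 / 5 * ((1 + y) * (1 + x) + x ^ (2 : ℕ) + x ^ (3 : ℕ) / 2) := by
      have : 0 ≤ 1 + y := by linarith only [hs]
      positivity
    have hK0 : 0 ≤ √(x ^ (2 : ℕ) + y ^ (2 : ℕ)) * exp y := by positivity
    rw [← pow_le_pow_iff_left₀ hK0 hq two_ne_zero]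
    have hK : √(x ^ (2 : ℕ) + y ^ (2 : ℕ)) ^ (2 : ℕ) = x ^ (2 : ℕ) + y ^ (2 : ℕ) := sq_sqrt (by positivity)
    have hU := pow_le_pow_left₀ hE.le hU0 2
    have ha : 0 ≤ 1 + y := by linarith only [hs]
    have e1 : (1 + y + y ^ (2 : ℕ) / 2) * (-y) ≤ 3 / 5 * (1 + y) := by
      nlinarith only [ha, mul_nonneg ht hs]
    have e1' := pow_le_pow_left₀ (by nlinarith only [mul_nonneg ht ha] : 0 ≤ (1 + y + y ^ (2 : ℕ) / 2) * (-y)) e1 2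
    have e2 : (1 + y + y ^ (2 : ℕ) / 2) ^ (2 : ℕ) ≤ 9 / 25 * ((1 + y) ^ (2 : ℕ) + 2 * (1 + y)) := by
      nlinarith only [mul_nonneg (mul_nonneg ht ht) hs, mul_nonneg (mul_nonneg ht ht) (mul_nonneg ht hs)]
    calc (√(x ^ (2 : ℕ) + y ^ (2 : ℕ)) * exp y) ^ (2 : ℕ) = √(x ^ (2 : ℕ) + y ^ (2 : ℕ)) ^ (2 : ℕ) * exp y ^ (2 : ℕ) := by ring
      _ = (x ^ (2 : ℕ) + y ^ (2 : ℕ)) * exp y ^ (2 : ℕ) := by rw [hK]
      _ ≤ (x ^ (2 : ℕ) + y ^ (2 : ℕ)) * (1 + y + y ^ (2 : ℕ) / 2) ^ (2 : ℕ) := mul_le_mul_of_nonneg_left hU (by positivity)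
      _ = x ^ (2 : ℕ) * (1 + y + y ^ (2 : ℕ) / 2) ^ (2 : ℕ) + ((1 + y + y ^ (2 : ℕ) / 2) * (-y)) ^ (2 : ℕ) := by ring
      _ ≤ x ^ (2 : ℕ) * (9 / 25 * ((1 + y) ^ (2 : ℕ) + 2 * (1 + y))) + (3 / 5 * (1 + y)) ^ (2 : ℕ) :=
          add_le_add (mul_le_mul_of_nonneg_left e2 (by positivity)) e1'
      _ ≤ (3 / 5 * ((1 + y) * (1 + x) + x ^ (2 : ℕ))) ^ (2 : ℕ) := by
          have g1 : 0 ≤ 18 / 25 * ((1 + y) ^ (2 : ℕ) * x) := by positivity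
          have g2 : 0 ≤ 18 / 25 * ((1 + y) * x ^ (3 : ℕ)) := by positivity
          have g3 : 0 ≤ 9 / 25 * x ^ (4 : ℕ) := by positivity
          have g4 : (3 / 5 * ((1 + y) * (1 + x) + x ^ (2 : ℕ))) ^ (2 : ℕ) =
              x ^ (2 : ℕ) * (9 / 25 * ((1 + y) ^ (2 : ℕ) + 2 * (1 + y))) + (3 / 5 * (1 + y)) ^ (2 : ℕ) +
                18 / 25 * ((1 + y) ^ (2 : ℕ) * x) + 18 / 25 * ((1 + y) * x ^ (3 : ℕ)) + 9 / 25 * x ^ (4 : ℕ) := by ring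
          linarith only [g1, g2, g3]
      _ ≤ (3 / 5 * ((1 + y) * (1 + x) + x ^ (2 : ℕ) + x ^ (3 : ℕ) / 2)) ^ (2 : ℕ) := by
          refine pow_le_pow_left₀ (by positivity) ?_ 2
          have : 0 ≤ x ^ (3 : ℕ) := by positivity
          linarith only [this]

/-- true supremum `2` (`x → ∞`, `y = 0`) -/
theorem s2_B {x y : ℝ} (hx : 0 ≤ x) (hy : -(3 / 4) ≤ y) (hy1 : y ≤ 0)
    (hΦ : 11 / 25 * (√(x ^ (2 : ℕ) + y ^ (2 : ℕ)) * exp y) ≤ x * (1 + y)) :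
    √(x ^ (2 : ℕ) + y ^ (2 : ℕ)) * exp y ≤ 21 / 10 * Qf x y := by
  have hd : 0 < 1 + x := by linarith only [hx]
  have hE := exp_pos y
  rw [qf_sq hx]
  suffices h : √(x ^ (2 : ℕ) + y ^ (2 : ℕ)) * exp y * (1 + x) ^ (2 : ℕ) ≤
      21 / 10 * ((1 + y) * (1 + x) + x ^ (2 : ℕ) + x ^ (3 : ℕ) / 2) by
    have h1 := mul_le_mul_of_nonneg_left h (by positivity : (0 : ℝ) ≤ (1 / (1 + x)) ^ (2 : ℕ))
    have h2 : (1 / (1 + x)) ^ (2 : ℕ) * (√(x ^ (2 : ℕ) + y ^ (2 : ℕ)) * exp y * (1 + x) ^ (2 : ℕ)) =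
        √(x ^ (2 : ℕ) + y ^ (2 : ℕ)) * exp y := by
      field_simp
    linarith only [h1, h2]
  rcases le_total y (-(11 / 20)) with h | h
  · have h1 : √(x ^ (2 : ℕ) + y ^ (2 : ℕ)) * exp y ≤ 25 / 11 * (x * (1 + y)) := by linarith only [hΦ]
    have h0 := mul_le_mul_of_nonneg_right h1 (by positivity : 0 ≤ (1 + x) ^ (2 : ℕ))
    refine h0.trans ?_
    have h2 : 0 ≤ 21 / 10 * ((1 / 4) * (1 + x) + x ^ (2 : ℕ) + x ^ (3 : ℕ) / 2) -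
        25 / 11 * (x * (1 / 4)) * (1 + x) ^ (2 : ℕ) := by
      nlinarith only [pow_nonneg hx 3]
    have h3 : 0 ≤ 21 / 10 * ((9 / 20) * (1 + x) + x ^ (2 : ℕ) + x ^ (3 : ℕ) / 2) -
        25 / 11 * (x * (9 / 20)) * (1 + x) ^ (2 : ℕ) := by
      nlinarith only [pow_nonneg hx 3]
    have h4 : 0 ≤ 9 / 20 - (1 + y) := by linarith only [h]
    have h5 : 0 ≤ (1 + y) - 1 / 4 := by linarith only [hy]
    linarith only [mul_nonneg h4 h2, mul_nonneg h5 h3]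
  · have hU0 := exp_hi0 hy1
    have ht : 0 ≤ -y := by linarith only [hy1]
    have hs : 0 ≤ y + 11 / 20 := by linarith only [h]
    have hK : √(x ^ (2 : ℕ) + y ^ (2 : ℕ)) ≤ x + -y := by
      refine Real.sqrt_le_iff.2 ⟨by linarith only [hx, hy1], ?_⟩
      linarith only [mul_nonneg hx ht]
    have h1 : √(x ^ (2 : ℕ) + y ^ (2 : ℕ)) * exp y ≤ (x + -y) * (1 + y + y ^ (2 : ℕ) / 2) :=
      mul_le_mul hK hU0 hE.le (by linarith only [hx, hy1])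
    have h2 := mul_le_mul_of_nonneg_right h1 (by positivity : 0 ≤ (1 + x) ^ (2 : ℕ))
    refine h2.trans ?_
    have hx2 : 0 ≤ x ^ (2 : ℕ) := by positivity
    have hx3 : 0 ≤ x ^ (3 : ℕ) := by positivity
    have kD : 0 ≤ 21 / 20 - (1 + y + y ^ (2 : ℕ) / 2) := by nlinarith only [ht, hs]
    have kC : 0 ≤ 1 / 10 - y + y ^ (3 : ℕ) / 2 := by nlinarith only [kD, mul_nonneg ht hs]
    have e : 21 / 10 * ((1 + y) * (1 + x) + x ^ (2 : ℕ) + x ^ (3 : ℕ) / 2) -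
        (x + -y) * (1 + y + y ^ (2 : ℕ) / 2) * (1 + x) ^ (2 : ℕ) =
        (21 / 10 * (1 + y) + y * (1 + y + y ^ (2 : ℕ) / 2)) +
          (11 / 10 + 31 / 10 * y + 3 / 2 * y ^ (2 : ℕ) + y ^ (3 : ℕ)) * x +
          (1 / 10 - y + y ^ (3 : ℕ) / 2) * x ^ (2 : ℕ) + (21 / 20 - (1 + y + y ^ (2 : ℕ) / 2)) * x ^ (3 : ℕ) := by ring
    have g3 := mul_nonneg kD hx3
    have kA : 3 / 5 ≤ 21 / 10 * (1 + y) + y * (1 + y + y ^ (2 : ℕ) / 2) := by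
      nlinarith only [mul_nonneg ht hs, mul_nonneg (mul_nonneg ht ht) hs]
    rcases le_total (-(2 / 5)) y with h3 | h3
    · have hs2 : 0 ≤ y + 2 / 5 := by linarith only [h3]
      have kB : 0 ≤ 11 / 10 + 31 / 10 * y + 3 / 2 * y ^ (2 : ℕ) + y ^ (3 : ℕ) := by
        nlinarith only [hs2]
      have g1 := mul_nonneg kB hx
      have g2 := mul_nonneg kC hx2
      linarith only [g3, kA, g1, g2]
    · have hs2 : 0 ≤ -(2 / 5) - y := by linarith only [h3]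
      have kB : -(33 / 100) ≤ 11 / 10 + 31 / 10 * y + 3 / 2 * y ^ (2 : ℕ) + y ^ (3 : ℕ) := by
        nlinarith only [mul_nonneg hs hs2, mul_nonneg (mul_nonneg ht hs) hs2]
      have kC2 : 2 / 5 ≤ 1 / 10 - y + y ^ (3 : ℕ) / 2 := by
        nlinarith only [kB, mul_nonneg hs hs2]
      have g1 := mul_le_mul_of_nonneg_right kB hx
      have g2 := mul_le_mul_of_nonneg_right kC2 hx2
      nlinarith only [g3, kA, g1, g2]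

end SokamF1B

end
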