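import Pool.Agent.Lib_MP_af4de1_zy.Z43
import Pool.Agent.Lib_MP_af4de1_zy.Z44
import Pool.Agent.Lib_MP_af4de1_zy.Z97
import Pool.Agent.Lib_MP_af4de1_zy.Z135

/-! ### Lib_MP_af4de1_f1.TopMonP -/

section
namespace SokamF1
end SokamF1
namespace SokamF1B
end SokamF1B
namespace SokamF1G
end SokamF1G
namespace SokamF1M
end SokamF1M
namespace SokamF1S
end SokamF1S
namespace SokamU
end SokamU
/-!
# The waves beyond the positive boundary point `b` of `DD` (owner helper31)

`K = |K|`, `ψ = sP`, `x = K cos ψ`, `b = K sin ψ`, `x (1+b) = .44 ρ`.  Height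
`Ht = a s + x (1+a) - b s - e^a K cos (s+ε+ψ)`.
-/

set_option autoImplicit false

namespace SokamF1T

open Complex SokamU SokamF1 SokamF1S SokamF1M SokamF1G SokamF1B

/-- `cos B ≤ cos A` -/
theorem tm_cos_far {A B : ℝ} (h0 : 0 ≤ A) (h1 : A ≤ B) (h2 : A + B ≤ 2 * Real.pi) :
    Real.cos B ≤ Real.cos A := by
  rcases le_total B Real.pi with h | h
  · exact Real.cos_le_cos_of_nonneg_of_le_pi h0 h h1
  · have h3 : Real.cos B = Real.cos (2 * Real.pi - B) := (Real.cos_two_pi_sub B).symm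
    rw [h3]
    exact Real.cos_le_cos_of_nonneg_of_le_pi h0 (by linarith) (by linarith)

theorem tm_cos_neg {A : ℝ} (h0 : Real.pi / 2 ≤ A) (h1 : A ≤ 3 * Real.pi / 2) : Real.cos A ≤ 0 :=
  Real.cos_nonpos_of_pi_div_two_le_of_le h0 (by linarith)

/-- beyond `3π/2` -/
theorem tm_cos_beyond {A z : ℝ} (hz : z = A - 3 * Real.pi / 2) (h0 : 0 ≤ z) :
    Real.cos A ≤ z := by
  have h1 : Real.cos A = Real.sin z := by
    have e : A = z + Real.pi + Real.pi / 2 := by rw [hz]; ring
    rw [e, Real.cos_add_pi_div_two, Real.sin_add_pi, neg_neg]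
  rw [h1]
  exact Real.sin_le h0

theorem tm_Ht {x y θ a s K ψ : ℝ} (hx : x = K * Real.cos ψ) (hy : y = K * Real.sin ψ) :
    Ht x y θ a s = a * s + x * (1 + a) - y * s - Real.exp a * K * Real.cos (s + θ + ψ) := by
  unfold Ht
  rw [Real.cos_add (s + θ) ψ]
  rw [hx, hy]
  ring

/-- comparison with the unshifted path -/
theorem tm_compare {x y θ s K ψ : ℝ} (hK : 0 ≤ K) (hx : x = K * Real.cos ψ) (hy : y = K * Real.sin ψ)
    (h : Real.cos (s + θ + ψ) ≤ Real.cos (s + ψ)) : Hf x y s ≤ Ht x y θ (ga x s) s := by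
  have h1 : Hf x y s = Ht x y 0 (ga x s) s := by
    rw [Ht_zero]
    rfl
  rw [h1, tm_Ht hx hy, tm_Ht hx hy, add_zero]
  have h2 : Real.exp (ga x s) * K * Real.cos (s + θ + ψ) ≤
      Real.exp (ga x s) * K * Real.cos (s + ψ) := mul_le_mul_of_nonneg_left h (by (clear * - hK; positivity))
  linarith

/-- the facts at the positive boundary -/
structure PB (x b K ψ ρ : ℝ) : Prop where
  x0 : 0 ≤ x
  b0 : 0 ≤ b
  b1 : b ≤ 33 / 50
  r0 : 0 < ρ
  r1 : ρ ≤ 29 / 20
  K0 : 0 < K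
  hx : x = K * Real.cos ψ
  hb : b = K * Real.sin ψ
  xr : x * (1 + b) = 11 / 25 * ρ
  C0 : 11 / 25 ≤ Real.cos ψ
  S0 : 21 / 25 ≤ Real.sin ψ
  p0 : 0 ≤ ψ
  p1 : ψ ≤ 28 / 25
  Kr : K = ρ * Real.exp (-b)

section

variable {x b K ψ ρ ε δ s : ℝ}

theorem PB.dom (h : PB x b K ψ ρ) : DomG x b :=
  ⟨h.x0, by linarith [h.b0], by linarith [h.b1], by nlinarith only [h.b0]⟩

theorem PB.q (h : PB x b K ψ ρ) : 0 < SokamF1G.Qf x b :=
  (hyp_pos h.x0 h.b0 (by linarith [h.b1]) (δ := 1) one_pos).hq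

theorem PB.x1 (h : PB x b K ψ ρ) : x ≤ 11 / 25 * ρ := by
  have := h.xr
  linarith only [this, mul_nonneg h.x0 h.b0]

theorem PB.p84 (h : PB x b K ψ ρ) : 21 / 25 ≤ ψ := h.S0.trans (Real.sin_le h.p0)

theorem PB.K1 (h : PB x b K ψ ρ) : K ≤ 43 / 50 * (1 : ℝ) := by
  have h1 : K * (21 / 25) ≤ b := by
    rw [h.hb]
    exact mul_le_mul_of_nonneg_left h.S0 h.K0.le
  linarith [h.b1]

/-- `K - x ≤ 5/8 b` -/
theorem PB.Kx (h : PB x b K ψ ρ) : K - x ≤ 5 / 8 * b := by
  have h1 : 11 / 25 * K ≤ x := by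
    rw [h.hx]
    have := mul_le_mul_of_nonneg_left h.C0 h.K0.le
    linarith
  have h2 : x ≤ K := by
    rw [h.hx]
    exact mul_le_of_le_one_right h.K0.le (Real.cos_le_one _)
  have h3 : x ^ (2 : ℕ) + b ^ (2 : ℕ) = K ^ (2 : ℕ) := by
    have := Real.sin_sq_add_cos_sq ψ
    calc x ^ (2 : ℕ) + b ^ (2 : ℕ) = (K * Real.cos ψ) ^ (2 : ℕ) + (K * Real.sin ψ) ^ (2 : ℕ) := by rw [← h.hx, ← h.hb]
      _ = K ^ (2 : ℕ) * (Real.sin ψ ^ (2 : ℕ) + Real.cos ψ ^ (2 : ℕ)) := by ring
      _ = K ^ (2 : ℕ) := by rw [this, mul_one]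
  apply le_of_sq_le_sq _ (by linarith [h.b0])
  nlinarith only [h1, h3, h.K0]

/-- the right side, near -/
theorem PB.near (h : PB x b K ψ ρ) (hε : 0 ≤ ε) (hE : ψ + ρ - x + ε ≤ 2 * Real.pi / 3)
    (h0 : 0 ≤ s) (h1 : s ≤ 3 / 2) : 19 / 50 * SokamF1G.Qf x b * s ^ (2 : ℕ) ≤ Ht x b ε (ga x s) s := by
  have hpi := Real.pi_gt_d4
  have hc : Real.cos (s + ε + ψ) ≤ Real.cos (s + ψ) := by
    refine tm_cos_far (by linarith [h.p0]) (by linarith) ?_
    have := h.x1
    have := h.r0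
    have := h.p1
    linarith
  refine le_trans ?_ (tm_compare h.K0.le h.hx h.hb hc)
  have hq := h.q
  rcases le_total s 1 with h2 | h2
  · refine le_trans ?_ (G1_pos h.dom h.b0 h0 h2)
    have h3 : 19 / 50 ≤ 1 - s ^ (2 : ℕ) / 11 := by nlinarith only [h0, h1]
    gcongr
  · refine le_trans ?_ (G2 h.dom h2 h1)
    have := mul_nonneg hq.le (sq_nonneg s)
    linarith

/-- the left side, near -/
theorem PB.left_near (h : PB x b K ψ ρ) (hε : 0 ≤ ε) (hE : ψ + ρ - x + ε ≤ 2 * Real.pi / 3)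
    (h0 : s ≤ 0) (h1 : -ψ ≤ s) : 19 / 50 * SokamF1G.Qf x b * s ^ (2 : ℕ) ≤ Ht x b ε (ga x s) s := by
  have hpi := Real.pi_gt_d4
  have hc : Real.cos (s + ε + ψ) ≤ Real.cos (s + ψ) := by
    refine tm_cos_far (by linarith) (by linarith) ?_
    have := h.x1
    have := h.r0
    have := h.p1
    linarith
  refine le_trans ?_ (tm_compare h.K0.le h.hx h.hb hc)
  have hq := h.q
  refine le_trans ?_ (G3_pos h.dom h.b0 (by linarith [h.p1]) h0)
  have h3 : 19 / 50 ≤ 1 + 3 / 10 * s := by linarith [h.p1]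
  gcongr

/-- the left side, far -/
theorem PB.left_far (h : PB x b K ψ ρ) (h1 : s ≤ -ψ) :
    |s| / 25 ≤ Ht x b ε (ga x s) s := by
  obtain ⟨k1, k2, k3⟩ := c_facts h.x0
  obtain ⟨c, hc⟩ : ∃ c, c = 1 / (1 + x) := ⟨_, rfl⟩
  rw [← hc] at k1 k2 k3
  obtain ⟨w, rfl⟩ : ∃ w, s = -w := ⟨-s, by ring⟩
  have hw : 21 / 25 ≤ w := by linarith [h.p84]
  rw [abs_neg, abs_of_nonneg (by linarith), tm_Ht h.hx h.hb]
  have hK := h.K0
  have hK1 := h.K1
  have hb0 := h.b0
  have hx0 := h.x0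
  have hx1 := h.x1
  have hr1 := h.r1
  have hcos := Real.cos_le_one (-w + ε + ψ)
  rcases le_total (c * w) 1 with h2 | h2
  · -- unclamped
    rw [ga_mid hc (by linarith) (by nlinarith only [k1, hw])]
    have hE : Real.exp (c * -w) ≤ 1 - c * w + (c * w) ^ (2 : ℕ) / 2 := by
      rw [mul_neg]
      exact en_le2 (by (clear * - k1 hw; positivity))
    have hE0 := Real.exp_pos (c * -w)
    have h3 : Real.exp (c * -w) * K * Real.cos (-w + ε + ψ) ≤ (1 - c * w + (c * w) ^ (2 : ℕ) / 2) * K := by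
      calc Real.exp (c * -w) * K * Real.cos (-w + ε + ψ) ≤ Real.exp (c * -w) * K * 1 :=
            mul_le_mul_of_nonneg_left hcos (by (clear * - hK; positivity))
        _ ≤ _ := by
          rw [mul_one]
          exact mul_le_mul_of_nonneg_right hE hK.le
    have h4 : (K - x) * (1 - c * w) ≤ 5 / 8 * b := by
      have h5 := mul_le_mul_of_nonneg_right h.Kx (by linarith : 0 ≤ 1 - c * w)
      have h6 : 0 ≤ b * (c * w) := by (clear * - hb0 k1 hw; positivity)
      linarith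
    have h7 : 5 / 8 * b ≤ b * w := by nlinarith only [hw, hb0]
    have hc6 : 61 / 100 ≤ c := by
      rw [hc, le_div_iff₀ (by linarith)]
      linarith
    have h8 : c * K ≤ 43 / 50 := by nlinarith only [k2, hK, hK1]
    have h9 : 57 / 100 * (c * w ^ (2 : ℕ)) ≤ c * w ^ (2 : ℕ) * (1 - c * K / 2) := by
      have : 0 ≤ c * w ^ (2 : ℕ) := by (clear * - k1 hw; positivity)
      nlinarith only [h8, this]
    have h10 : 21 / 25 * (61 / 100) * w ≤ c * w ^ (2 : ℕ) := by
      have : 21 / 25 * (61 / 100) ≤ w * c := by nlinarith only [hw, hc6]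
      nlinarith only [hc6, this]
    nlinarith only [h3, h4, h7, hc6, h9, h10]
  · -- clamped
    rw [ga_lo hc (by linarith)]
    have h3 : Real.exp (-1) * K * Real.cos (-w + ε + ψ) ≤ 37 / 100 * (43 / 50) := by
      calc Real.exp (-1) * K * Real.cos (-w + ε + ψ) ≤ Real.exp (-1) * K * 1 :=
            mul_le_mul_of_nonneg_left hcos (by (clear * - hK; positivity))
        _ ≤ 37 / 100 * (43 / 50) * 1 := by
          have := em1_hi
          gcongr
          · linarith
          · linarith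
        _ = _ := by ring
    nlinarith only [hw, hb0, h3]

theorem tm_em66 {b : ℝ} (h0 : 0 ≤ b) (h1 : b ≤ 33 / 50) : Real.exp (1 - b) ≤ 27184 / 10000 - 1986 / 1000 * b := by
  have hc := convexOn_exp.2 (Set.mem_univ (1 : ℝ)) (Set.mem_univ (17 / 50 : ℝ))
    (show (0 : ℝ) ≤ 1 - b / (33 / 50) by
      rw [sub_nonneg, div_le_one (by norm_num)]
      exact h1) (show (0 : ℝ) ≤ b / (33 / 50) by positivity) (by ring)
  simp only [smul_eq_mul] at hc
  have e : (1 - b / (33 / 50)) * 1 + b / (33 / 50) * (17 / 50) = 1 - b := by ring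
  rw [e] at hc
  have e1 : Real.exp 1 ≤ 27183 / 10000 := by
    have := Real.exp_one_lt_d9
    linarith
  have e2 : Real.exp (17 / 50) ≤ 1405 / 1000 := by
    have h := Real.exp_bound' (x := 17 / 50) (by norm_num) (by norm_num) (n := 5) (by norm_num)
    refine h.trans ?_
    norm_num [Finset.sum_range_succ, Nat.factorial]
  have h2 : 0 ≤ b / (33 / 50) := by (clear * - h0; positivity)
  have h3 : 0 ≤ 1 - b / (33 / 50) := by
    rw [sub_nonneg, div_le_one (by norm_num)]
    exact h1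
  have h4 := mul_le_mul_of_nonneg_left e1 h3
  have h5 := mul_le_mul_of_nonneg_left e2 h2
  refine hc.trans ?_
  have e3 : b / (33 / 50) = b * (50 / 33) := by ring
  rw [e3] at h4 h5 ⊢
  linarith

/-- the right side, far -/
theorem PB.far (h : PB x b K ψ ρ) (hε : 0 ≤ ε) (hE : ψ + ρ - x + ε ≤ 2 * Real.pi / 3)
    (hδ : 0 < δ) (hδ1 : δ ≤ ρ / (499 / 10)) (h1 : 3 / 2 ≤ s) :
    |s| / 25 + δ * max (ga x s) 0 ≤ Ht x b ε (ga x s) s := by
  obtain ⟨k1, k2, k3⟩ := c_facts h.x0
  obtain ⟨c, hc⟩ : ∃ c, c = 1 / (1 + x) := ⟨_, rfl⟩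
  rw [← hc] at k1 k2 k3
  have hpi := Real.pi_gt_d4
  have hpi2 := Real.pi_lt_d4
  have hK := h.K0
  have hb0 := h.b0
  have hb1 := h.b1
  have hx0 := h.x0
  have hx1 := h.x1
  have hr1 := h.r1
  have hr0 := h.r0
  have hp := h.p84
  have hδ2 : δ ≤ 29 / 998 := hδ1.trans (by linarith)
  have hm1 : δ * max (ga x s) 0 ≤ δ := by
    have := max_ga_one x s
    nlinarith only [hδ, this]
  have hc6 : 61 / 100 ≤ c := by
    rw [hc, le_div_iff₀ (by linarith)]
    linarith
  rw [abs_of_nonneg (by linarith), tm_Ht h.hx h.hb]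
  rcases le_total (s + ε + ψ) (3 * Real.pi / 2) with h2 | h2
  · -- the cosine is negative
    have hcos : Real.cos (s + ε + ψ) ≤ 0 := tm_cos_neg (by linarith) h2
    have h3 : Real.exp (ga x s) * K * Real.cos (s + ε + ψ) ≤ 0 :=
      mul_nonpos_of_nonneg_of_nonpos (by (clear * - hK; positivity)) hcos
    rcases le_total (c * s) 1 with h4 | h4
    · have h5 : 0 ≤ c * s := by nlinarith only [h1, k1]
      rw [ga_mid hc (by linarith) h4] at h3 hm1 ⊢
      have h6 : 91 / 100 ≤ c * s := by nlinarith only [h1, hc6]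
      have h7 : 91 / 100 * s ≤ c * s * s := by nlinarith only [hc6, h6]
      have h8 : 0 ≤ x * (1 + c * s) := by nlinarith only [h1, k3, k2, hx0]
      nlinarith only [h1, k3, hb0, hb1, hδ2, hm1, hc6, h3, h4]
    · rw [ga_hi hc h4] at h3 hm1 ⊢
      nlinarith only [k2, hb1, hx0, hδ2, hm1, hc6, h3, h4]
  · -- beyond `3π/2`
    obtain ⟨z, hz⟩ : ∃ z, z = s + ε + ψ - 3 * Real.pi / 2 := ⟨_, rfl⟩
    have hz0 : 0 ≤ z := by linarith
    have hcz := tm_cos_beyond hz hz0
    have hc1 := Real.cos_le_one (s + ε + ψ)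
    have hs : 2617 / 1000 + ρ - x + z ≤ s := by linarith
    have hclamp : 1 ≤ c * s := by
      have h3 : 1 + x ≤ s := by linarith
      calc 1 = c * (1 + x) := by rw [hc]; field_simp
        _ ≤ c * s := mul_le_mul_of_nonneg_left h3 k1.le
    rw [ga_hi hc hclamp] at hm1 ⊢
    have hKe : Real.exp 1 * K = ρ * Real.exp (1 - b) := by
      rw [h.Kr, sub_eq_add_neg, Real.exp_add]
      ring
    have hE1 := tm_em66 hb0 hb1
    rw [hKe]
    have hP : 0 < ρ * Real.exp (1 - b) := by (clear * - hr0; positivity)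
    set C := Real.cos (s + ε + ψ) with hC
    -- the value at `z = 1`
    have hend : 0 ≤ (24 / 25 - b) * (3617 / 1000 + ρ - x) + 2 * x - ρ * Real.exp (1 - b) - ρ / (499 / 10) := by
      have h5 : ρ * Real.exp (1 - b) ≤ ρ * (27184 / 10000 - 1986 / 1000 * b) :=
        mul_le_mul_of_nonneg_left hE1 hr0.le
      have h6 : 11 / 25 * ρ ≤ x * (26 / 25 + b) := by
        rw [← h.xr]
        linarith only [hx0]
      have h7 : 0 ≤ (29 / 20 - ρ) * (27184 / 10000 - 24 / 25 - 11 / 25 + 10 / 499 - 986 / 1000 * b) :=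
        mul_nonneg (by linarith) (by linarith)
      linarith
    have hδm : δ * max 1 0 ≤ ρ / (499 / 10) := hm1.trans hδ1
    rcases le_total z 1 with hz1 | hz1
    · have h5 : ρ * Real.exp (1 - b) * C ≤ ρ * Real.exp (1 - b) * z :=
        mul_le_mul_of_nonneg_left hcz hP.le
      have h6 : (24 / 25 - b) * (2617 / 1000 + ρ - x + z) ≤ (24 / 25 - b) * s :=
        mul_le_mul_of_nonneg_left hs (by linarith)
      have h8 : 0 ≤ (1 - z) * ((24 / 25 - b) * (2617 / 1000 + ρ - x) + 2 * x - ρ / (499 / 10)) := by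
        apply mul_nonneg (by linarith)
        have h9 : 0 ≤ (24 / 25 - b - 3 / 10) * (2617 / 1000 + ρ - x) :=
          mul_nonneg (by linarith) (by linarith)
        linarith
      have h10 := mul_nonneg hz0 hend
      linarith
    · have h5 : ρ * Real.exp (1 - b) * C ≤ ρ * Real.exp (1 - b) * 1 :=
        mul_le_mul_of_nonneg_left hc1 hP.le
      have h6 : (24 / 25 - b) * (3617 / 1000 + ρ - x) ≤ (24 / 25 - b) * s :=
        mul_le_mul_of_nonneg_left (by linarith) (by linarith)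
      linarith

theorem PB.point (h : PB x b K ψ ρ) (hε : 0 ≤ ε) (hE : ψ + ρ - x + ε ≤ 2 * Real.pi / 3)
    (hδ : 0 < δ) (hδ1 : δ ≤ ρ / (499 / 10)) (s : ℝ) :
    19 / 50 * SokamF1G.Qf x b * s ^ (2 : ℕ) ≤ Ht x b ε (ga x s) s ∨
      |s| / 25 + δ * max (ga x s) 0 ≤ Ht x b ε (ga x s) s := by
  rcases le_total 0 s with h0 | h0
  · rcases le_total s (3 / 2) with h1 | h1
    · exact Or.inl (h.near hε hE h0 h1)
    · exact Or.inr (h.far hε hE hδ hδ1 h1)
  · rcases le_total (-ψ) s with h1 | h1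
    · exact Or.inl (h.left_near hε hE h0 h1)
    · right
      rw [max_ga_nonpos h.x0 h0, mul_zero, add_zero]
      exact h.left_far h1

end

theorem tm_cos_112 : Real.cos (28 / 25) < 11 / 25 := by
  have h := cos_le4 (x := 28 / 25) (by norm_num)
  norm_num at h ⊢
  linarith

theorem tm_exp_le {b : ℝ} (h0 : 0 ≤ b) (h1 : b ≤ 18 / 25) : 11 / 25 * Real.exp b ≤ 53 / 100 * (1 + b) := by
  have hc := convexOn_exp.2 (Set.mem_univ (0 : ℝ)) (Set.mem_univ (18 / 25 : ℝ))
    (show (0 : ℝ) ≤ 1 - b / (18 / 25) by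
      rw [sub_nonneg, div_le_one (by norm_num)]
      exact h1) (show (0 : ℝ) ≤ b / (18 / 25) by positivity) (by ring)
  simp only [smul_eq_mul, Real.exp_zero] at hc
  have e : (1 - b / (18 / 25)) * 0 + b / (18 / 25) * (18 / 25) = b := by ring
  rw [e] at hc
  have e2 : Real.exp (18 / 25) ≤ 206 / 100 := by
    have h := Real.exp_bound' (x := 18 / 25) (by norm_num) (by norm_num) (n := 5) (by norm_num)
    refine h.trans ?_
    norm_num [Finset.sum_range_succ, Nat.factorial]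
  have h2 : 0 ≤ b / (18 / 25) := by (clear * - h0; positivity)
  have h5 := mul_le_mul_of_nonneg_left e2 h2
  have e3 : b / (18 / 25) = b * (25 / 18) := by ring
  rw [e3] at h5 hc
  linarith

theorem tm_PB {ρ b : ℝ} (hB : Bd ρ b) (hb : 0 ≤ b) :
    PB (sx ρ b) b (ρ * Real.exp (-b)) (sP ρ b) ρ := by
  obtain ⟨hD, hbb⟩ := hB
  have hρ1 := bd_rho' ⟨hD, hbb⟩ (Or.inl hb)
  have hph : ph ρ b = 11 / 25 := by
    rcases hbb with h | h
    · linarith
    · exact h
  have hρ := hD.dom.1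
  have hx := sx_nonneg ρ b
  have hsin := hD.dom.sin
  have hcos := hD.dom.cos
  have hE0 := Real.exp_pos b
  have hEE : Real.exp (-b) * Real.exp b = 1 := by rw [← Real.exp_add]; simp
  have xr : sx ρ b * (1 + b) = 11 / 25 * ρ := by
    unfold ph at hph
    rw [div_eq_iff hρ.ne'] at hph
    exact hph
  have hC : Real.cos (sP ρ b) * (1 + b) = 11 / 25 * Real.exp b := by
    rw [hcos]
    calc sx ρ b * Real.exp b / ρ * (1 + b) = (sx ρ b * (1 + b)) * Real.exp b / ρ := by ring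
      _ = 11 / 25 * ρ * Real.exp b / ρ := by rw [xr]
      _ = 11 / 25 * Real.exp b := by field_simp
  have h1b : 0 < 1 + b := by linarith
  have C0 : 11 / 25 ≤ Real.cos (sP ρ b) := by
    have h1 := Real.add_one_le_exp b
    by_contra hlt
    push Not at hlt
    nlinarith only [hC, h1b, h1, hlt]
  have C1 : Real.cos (sP ρ b) ≤ 53 / 100 := by
    have h1 := tm_exp_le hb hD.y1
    by_contra hlt
    push Not at hlt
    nlinarith only [hC, h1b, h1, hlt]
  have hsc := Real.sin_sq_add_cos_sq (sP ρ b)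
  have p0 := sP_nonneg hρ hb
  have hp2 := (abs_le.1 (sP_abs_le ρ b)).2
  have S00 : 0 ≤ Real.sin (sP ρ b) := Real.sin_nonneg_of_nonneg_of_le_pi p0 (by linarith [Real.pi_pos])
  have S0 : 21 / 25 ≤ Real.sin (sP ρ b) := by
    apply le_of_sq_le_sq _ S00
    nlinarith only [C0, C1, hsc]
  have p1 : sP ρ b ≤ 28 / 25 := by
    by_contra hlt
    push Not at hlt
    have h1 := Real.cos_le_cos_of_nonneg_of_le_pi (by norm_num) (by linarith [Real.pi_pos]) hlt.le
    have := tm_cos_112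
    linarith
  have hx' : sx ρ b = ρ * Real.exp (-b) * Real.cos (sP ρ b) := by
    rw [hcos]
    calc sx ρ b = sx ρ b * (Real.exp (-b) * Real.exp b) := by rw [hEE, mul_one]
      _ = _ := by field_simp
  have hb' : b = ρ * Real.exp (-b) * Real.sin (sP ρ b) := by
    rw [hsin]
    calc b = b * (Real.exp (-b) * Real.exp b) := by rw [hEE, mul_one]
      _ = _ := by field_simp
  have b1 : b ≤ 33 / 50 := by
    by_contra hlt
    push Not at hlt
    have e1 : (193 / 100 : ℝ) ≤ Real.exp (33 / 50) := by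
      have := Real.sum_le_exp_of_nonneg (x := 33 / 50) (by norm_num) 5
      norm_num [Finset.sum_range_succ, Nat.factorial] at this
      linarith
    have e2 : 193 / 100 * (1 + (b - 33 / 50)) ≤ Real.exp b := by
      have h1 : Real.exp b = Real.exp (33 / 50) * Real.exp (b - 33 / 50) := by
        rw [← Real.exp_add]; congr 1; ring
      have h2 := Real.add_one_le_exp (b - 33 / 50)
      rw [h1]
      nlinarith only [hlt, e1, h2]
    have e3 : 193 / 100 ≤ Real.exp b := by linarith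
    -- the sine
    have h3 : 43 / 50 ≤ Real.sin (sP ρ b) := by
      rw [hsin, le_div_iff₀ hρ]
      nlinarith only [hρ1, hlt, e3]
    have h4 : 51 / 100 ≤ Real.cos (sP ρ b) := by
      by_contra hlt2
      push Not at hlt2
      nlinarith only [hC, h1b, e2, e3, hlt2]
    nlinarith only [hC, C0, C1, hsc, e2, e3, h3]
  exact ⟨hx, hb, b1, hρ, hρ1, by positivity, hx', hb', xr, C0, S0, p0, p1, rfl⟩

/-- MON, positive side (true constant 1.2). -/
theorem mon_pos {r ρ b ε : ℝ} (hr : 499 / 10 ≤ r) (hB : Bd ρ b) (hb : 0 ≤ b)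
    (hε : 0 ≤ ε) (hs : |sE ρ b| + ε ≤ 2 * Real.pi / 3) :
    ‖W0 r (ρ / r) (sE ρ b + ε)‖ ≤ 15 * Mm r ρ b ∧
      ‖W1 r (ρ / r) (sE ρ b + ε)‖ ≤ 15 * (r * Real.exp (-b)) * Mm r ρ b := by
  have h := tm_PB hB hb
  have hr0 : 0 < r := by linarith
  have hρ := h.r0
  have hx0 := h.x0
  have hx1 := h.x1
  have hδ : 0 < ρ / r := by positivity
  have e : r * (ρ / r) = ρ := by field_simp
  have hδ1 : ρ / r ≤ ρ / (499 / 10) := div_le_div_of_nonneg_left hρ.le (by norm_num) hr
  have hE : sP ρ b + ρ - sx ρ b + ε ≤ 2 * Real.pi / 3 := by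
    have h1 := le_abs_self (sE ρ b)
    unfold sE at h1 hs
    linarith
  refine waves_of_mI hr0 hB.1.dom (by linarith) (by rw [abs_of_nonneg hb]; linarith [h.b1]) ?_
  intro j hj
  have hK : √(sx ρ b ^ (2 : ℕ) + b ^ (2 : ℕ)) * Real.exp b = ρ := by
    have h2 : ‖sK ρ b‖ = √(sx ρ b ^ (2 : ℕ) + b ^ (2 : ℕ)) := norm_K _ _
    rw [← h2, norm_sK hB.1.dom, mul_assoc, ← Real.exp_add]
    simp
  have hBq := s1_B hx0 hb hB.1.y1
  rw [hK] at hBq
  have hl := s1_l hx0 hb hB.1.y1
  have hq := h.q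
  have hl' : (1 + (1 / (1 + sx ρ b)) ^ (2 : ℕ)) * √((1 + b) ^ (2 : ℕ) + sx ρ b ^ (2 : ℕ)) ≤
      2 * (129 / 100) * SokamF1G.Qf (sx ρ b) b := hl.trans (by linarith only [hq])
  have key := mI_le (r := r) (δ := ρ / r) (y := b) (θ := ε) (j := j) hj hδ (by linarith)
    (by rw [e]; exact hq) (by
      rw [e, le_div_iff₀ hδ]
      linarith) (by rw [e]; exact hl') (by
      rw [e]
      have hD1 : √((1 + b) ^ (2 : ℕ) + sx ρ b ^ (2 : ℕ)) ≤ 18 / 10 := by
        apply Real.sqrt_le_iff.2 ⟨by norm_num, ?_⟩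
        nlinarith only [hb, hx0, hx1, h.b1, h.r1]
      have hc1 : (1 / (1 + sx ρ b)) ^ (2 : ℕ) ≤ 1 := by
        have h2 : 1 / (1 + sx ρ b) ≤ 1 := by
          rw [div_le_one (by linarith)]
          linarith
        have h3 : 0 ≤ 1 / (1 + sx ρ b) := by (clear * - hx0; positivity)
        nlinarith only [h2, h3]
      have hδ2 : ρ / r ≤ 29 / 998 := hδ1.trans (by linarith [h.r1])
      calc (1 + (1 / (1 + sx ρ b)) ^ (2 : ℕ)) * √((1 + b) ^ (2 : ℕ) + sx ρ b ^ (2 : ℕ)) * (ρ / r) ≤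
            (1 + 1) * (18 / 10) * (29 / 998) := by gcongr
        _ ≤ 1 / 5 := by norm_num) (by
      rw [e]
      exact h.point hε hE hδ hδ1)
  rw [e] at key
  exact key

end SokamF1T

end

/-! ### Lib_MP_af4de1_f1.TopMonN -/

section
namespace SokamF1
end SokamF1
namespace SokamF1B
end SokamF1B
namespace SokamF1G
end SokamF1G
namespace SokamF1M
end SokamF1M
namespace SokamF1S
end SokamF1S
namespace SokamU
end SokamU
/-!
# The waves beyond the negative boundary point `b = -t` of `DD` (owner helper31)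

`K = |K|`, `p = -sP`, `x = K cos p`, `t = K sin p`.  Height
`Ht = a s + x (1+a) + t s - e^a K cos (s-ε-p)`.
-/

set_option autoImplicit false

namespace SokamF1T

open Complex SokamU SokamF1 SokamF1S SokamF1M SokamF1G SokamF1B

/-- the facts at the negative boundary -/
structure NB (x t K p ρ : ℝ) : Prop where
  x0 : 0 ≤ x
  t0 : 0 ≤ t
  t1 : t ≤ 7 / 10
  r0 : 0 < ρ
  r1 : ρ ≤ 173 / 100
  K0 : 0 < K
  hx : x = K * Real.cos p
  ht : t = K * Real.sin p
  C0 : 11 / 25 ≤ Real.cos p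
  S0 : 1 / 5 ≤ Real.sin p
  p0 : 0 ≤ p
  p1 : p ≤ 28 / 25
  Kr : K = ρ * Real.exp t
  D2 : 17 / 50 ≤ (1 + -t) ^ (2 : ℕ) + x ^ (2 : ℕ)
  br : (t = 7 / 10 ∧ 7 / 10 ≤ x ∧ ρ ≤ x ∧ 386 / 100 * ρ - 3617 / 1000 ≤ x ∧ 146 / 100 * ρ ≤ x) ∨
    (ρ ≤ 31 / 50 ∧ 3 / 5 ≤ Real.sin p ∧ x ≤ 91 / 100 ∧ ρ - x ≤ 87 / 250)

section

variable {x t K p ρ ε δ s w : ℝ}

theorem NB.hx' (h : NB x t K p ρ) : x = K * Real.cos (-p) := by
  rw [Real.cos_neg]
  exact h.hx

theorem NB.ht' (h : NB x t K p ρ) : -t = K * Real.sin (-p) := by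
  rw [Real.sin_neg, mul_neg, ← h.ht]

theorem NB.dom (h : NB x t K p ρ) : DomG x (-t) :=
  ⟨h.x0, by linarith only [h.t1], by linarith only [h.t0], h.D2⟩

theorem NB.p2 (h : NB x t K p ρ) : 1 / 5 ≤ p := h.S0.trans (Real.sin_le h.p0)

theorem NB.rx (h : NB x t K p ρ) : ρ - x ≤ 87 / 250 := by
  rcases h.br with h1 | h1
  · linarith only [h1.2.2.1]
  · exact h1.2.2.2

theorem NB.q (h : NB x t K p ρ) : 0 < SokamF1G.Qf x (-t) := by
  have hx := h.x0
  have h2 : 1 / (1 + x) ≤ 1 := by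
    rw [div_le_one (by linarith only [hx])]
    linarith only [hx]
  have h3 : 0 ≤ 1 / (1 + x) := by positivity
  have h1 : (1 / (1 + x)) ^ (2 : ℕ) ≤ 1 := by nlinarith
  have h4 : 0 < (1 + -t) / (1 + x) := div_pos (by linarith only [h.t1]) (by linarith only [hx])
  have h5 : 0 ≤ x * (1 - (1 / (1 + x)) ^ (2 : ℕ)) / 2 := by
    have : 0 ≤ 1 - (1 / (1 + x)) ^ (2 : ℕ) := by linarith only [h1]
    (clear * - hx h1; positivity)
  unfold SokamF1G.Qf
  linarith only [h4, h5]

theorem NB.K2 (h : NB x t K p ρ) : x ^ (2 : ℕ) + t ^ (2 : ℕ) = K ^ (2 : ℕ) := by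
  have := Real.sin_sq_add_cos_sq p
  calc x ^ (2 : ℕ) + t ^ (2 : ℕ) = (K * Real.cos p) ^ (2 : ℕ) + (K * Real.sin p) ^ (2 : ℕ) := by rw [← h.hx, ← h.ht]
    _ = K ^ (2 : ℕ) * (Real.sin p ^ (2 : ℕ) + Real.cos p ^ (2 : ℕ)) := by ring
    _ = K ^ (2 : ℕ) := by rw [this, mul_one]

theorem NB.xK (h : NB x t K p ρ) : 11 / 25 * K ≤ x ∧ x ≤ K := by
  constructor
  · rw [h.hx]
    have := mul_le_mul_of_nonneg_left h.C0 h.K0.le
    linarith only [this]
  · rw [h.hx]
    exact mul_le_of_le_one_right h.K0.le (Real.cos_le_one _)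

/-- `K - x ≤ 5/8 t` -/
theorem NB.Kx (h : NB x t K p ρ) : K - x ≤ 5 / 8 * t := by
  obtain ⟨h1, h2⟩ := h.xK
  have h3 := h.K2
  apply le_of_sq_le_sq _ (by linarith only [h.t0])
  nlinarith only [h1, h3, h.K0]

theorem tm_e7 : Real.exp (7 / 10) ≤ 20138 / 10000 := by
  have h := Real.exp_bound' (x := 7 / 10) (by norm_num) (by norm_num) (n := 8) (by norm_num)
  refine h.trans ?_
  norm_num [Finset.sum_range_succ, Nat.factorial]

theorem tm_e7' : 20137 / 10000 ≤ Real.exp (7 / 10) := by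
  have := Real.sum_le_exp_of_nonneg (x := 7 / 10) (by norm_num) 8
  norm_num [Finset.sum_range_succ, Nat.factorial] at this
  linarith only [this]

theorem NB.Kle (h : NB x t K p ρ) : K ≤ 20138 / 10000 * ρ := by
  rw [h.Kr, mul_comm]
  exact mul_le_mul_of_nonneg_right ((Real.exp_le_exp.2 h.t1).trans tm_e7) h.r0.le

/-- right side, near -/
theorem NB.near (h : NB x t K p ρ) (hε : 0 ≤ ε) (hE : p + x - ρ + ε ≤ 2 * Real.pi / 3)
    (h0 : 0 ≤ s) (h1 : s ≤ p) : 19 / 50 * SokamF1G.Qf x (-t) * s ^ (2 : ℕ) ≤ Ht x (-t) (-ε) (ga x s) s := by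
  have hpi := Real.pi_gt_d4
  have hc : Real.cos (s + -ε + -p) ≤ Real.cos (s + -p) := by
    rw [← Real.cos_neg (s + -ε + -p), ← Real.cos_neg (s + -p)]
    refine tm_cos_far (by linarith only [h1]) (by linarith only [hε]) ?_
    have := h.rx
    have := h.p1
    linarith
  refine le_trans ?_ (tm_compare h.K0.le h.hx' h.ht' hc)
  have hq := h.q
  have hy : -t ≤ 0 := by linarith only [h.t0]
  rcases le_total s 1 with h2 | h2
  · refine le_trans ?_ (G1_neg h.dom hy h0 h2)
    have h3 : 19 / 50 ≤ 1 - s / 4 := by linarith only [h2]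
    gcongr
  · refine le_trans ?_ (G2 h.dom h2 (by linarith only [h1, h.p1]))
    have := mul_nonneg hq.le (sq_nonneg s)
    linarith only [this]

/-- left side, near -/
theorem NB.left_near (h : NB x t K p ρ) (hε : 0 ≤ ε) (h0 : 0 ≤ w) (h1 : w ≤ 3 / 2)
    (h2 : 2 * (w + p) + ε ≤ 2 * Real.pi) :
    19 / 50 * SokamF1G.Qf x (-t) * (-w) ^ (2 : ℕ) ≤ Ht x (-t) (-ε) (ga x (-w)) (-w) := by
  have hc : Real.cos (-w + -ε + -p) ≤ Real.cos (-w + -p) := by
    rw [← Real.cos_neg (-w + -ε + -p), ← Real.cos_neg (-w + -p)]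
    exact tm_cos_far (by linarith only [h0, h.p0]) (by linarith only [hε]) (by linarith only [h2])
  refine le_trans ?_ (tm_compare h.K0.le h.hx' h.ht' hc)
  have hq := h.q
  have hy : -t ≤ 0 := by linarith only [h.t0]
  refine le_trans ?_ (G3_neg h.dom hy (s := -w) (by linarith only [h1]) (by linarith only [h0]))
  have h3 : 19 / 50 ≤ 1 + 14 / 25 * -w + (-w) ^ (2 : ℕ) / 10 := by nlinarith only [h1]
  gcongr

theorem NB.left_un (h : NB x t K p ρ) (h1 : 111 / 100 ≤ w) (h4 : w ≤ 1 + x) :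
    3 / 10 * w - 16 / 100 - Real.exp (ga x (-w)) * K * Real.cos (-w + -ε + -p) ≤
        Ht x (-t) (-ε) (ga x (-w)) (-w) := by
  obtain ⟨k1, k2, k3⟩ := c_facts h.x0
  obtain ⟨c, hc⟩ : ∃ c, c = 1 / (1 + x) := ⟨_, rfl⟩
  rw [← hc] at k1 k2 k3
  have ht1 := h.t1
  have hx0 := h.x0
  have hcx : c * (1 + x) = 1 := by rw [hc]; field_simp
  have h2 : c * w ≤ 1 := by
    calc c * w ≤ c * (1 + x) := mul_le_mul_of_nonneg_left h4 k1.le
      _ = 1 := hcx
  rw [tm_Ht h.hx' h.ht', ga_mid hc (by linarith only [h2]) (by nlinarith only [h1, h4, k3])]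
  have h5 : c * (w + 42 / 100) ^ (2 : ℕ) + (1 + x) - 2 * (w + 42 / 100) =
      c * ((w + 42 / 100) - (1 + x)) ^ (2 : ℕ) := by
    linear_combination (2 * (w + 42 / 100) - (1 + x)) * hcx
  have h6 : 0 ≤ c * ((w + 42 / 100) - (1 + x)) ^ (2 : ℕ) := by (clear * - k1; positivity)
  have h7 : c * (w + 42 / 100) ^ (2 : ℕ) ≤ c * (w ^ (2 : ℕ) + w) := by
    apply mul_le_mul_of_nonneg_left _ k1.le
    linarith only [h1]
  have h8 : x * (1 - c * w) = x - (1 - c) * w := by
    rw [← k3]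
    ring
  have h9 : t * w ≤ 7 / 10 * w := mul_le_mul_of_nonneg_right ht1 (by linarith only [h1])
  have h10 : x * (1 + c * -w) = x - (1 - c) * w := by
    rw [← h8]
    ring
  rw [h10]
  linarith only [h5, h6, h7, h9]

theorem NB.left_cl (h : NB x t K p ρ) (h4 : 1 + x ≤ w) :
    3 / 10 * w - Real.exp (-1) * K * Real.cos (-w + -ε + -p) ≤
        Ht x (-t) (-ε) (ga x (-w)) (-w) := by
  obtain ⟨k1, k2, k3⟩ := c_facts h.x0
  obtain ⟨c, hc⟩ : ∃ c, c = 1 / (1 + x) := ⟨_, rfl⟩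
  rw [← hc] at k1 k2 k3
  have ht1 := h.t1
  have hx0 := h.x0
  have h2 : 1 ≤ c * w := by
    calc 1 = c * (1 + x) := by rw [hc]; field_simp
      _ ≤ c * w := mul_le_mul_of_nonneg_left h4 k1.le
  rw [tm_Ht h.hx' h.ht', ga_lo hc (by linarith only [h2])]
  have h9 : t * w ≤ 7 / 10 * w := mul_le_mul_of_nonneg_right ht1 (by linarith only [h4, hx0])
  linarith only [h9]

/-- left side: the cosine is negative -/
theorem NB.left_i (h : NB x t K p ρ) (h1 : 111 / 100 ≤ w) (hcos : Real.cos (-w + -ε + -p) ≤ 0) :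
    w / 25 ≤ Ht x (-t) (-ε) (ga x (-w)) (-w) := by
  have hK := h.K0
  rcases le_total w (1 + x) with h2 | h2
  · have h3 : Real.exp (ga x (-w)) * K * Real.cos (-w + -ε + -p) ≤ 0 :=
      mul_nonpos_of_nonneg_of_nonpos (by positivity) hcos
    have := h.left_un (ε := ε) h1 h2
    linarith only [h1, h3, this]
  · have h3 : Real.exp (-1) * K * Real.cos (-w + -ε + -p) ≤ 0 :=
      mul_nonpos_of_nonneg_of_nonpos (by (clear * - hK; positivity)) hcos
    have := h.left_cl (ε := ε) h2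
    linarith only [h1, h3, this]

/-- left side, far -/
theorem NB.left_far (h : NB x t K p ρ) (hε : 0 ≤ ε) (hE : p + x - ρ + ε ≤ 2 * Real.pi / 3)
    (h1 : 3 / 2 ≤ w) : w / 25 ≤ Ht x (-t) (-ε) (ga x (-w)) (-w) := by
  have hpi := Real.pi_gt_d4
  have hpi2 := Real.pi_lt_d4
  have hK := h.K0
  have hK1 := h.Kle
  have hx0 := h.x0
  have hr1 := h.r1
  have hr0 := h.r0
  have hp := h.p2
  have hcc : Real.cos (-w + -ε + -p) = Real.cos (w + ε + p) := by
    rw [← Real.cos_neg (-w + -ε + -p)]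
    congr 1
    ring
  rcases le_total (w + ε + p) (3 * Real.pi / 2) with h2 | h2
  · exact h.left_i (by linarith only [h1]) (by rw [hcc]; exact tm_cos_neg (by linarith only [hε, h1, hpi2, hp]) h2)
  · obtain ⟨z, hz⟩ : ∃ z, z = w + ε + p - 3 * Real.pi / 2 := ⟨_, rfl⟩
    have hz0 : 0 ≤ z := by linarith only [h2, hz]
    have hcz := tm_cos_beyond hz hz0
    have hc1 := Real.cos_le_one (w + ε + p)
    have hs : 2617 / 1000 + x - ρ + z ≤ w := by linarith only [hE, hpi, hz]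
    rcases h.br with ⟨b1, b2, b3, b4, b5⟩ | ⟨b1, b2, b3, b4⟩
    · rcases le_total w (1 + x) with h3 | h3
      · -- not clamped
        have h4 := h.left_un (ε := ε) (by linarith only [hz0, hs, b5, h3]) h3
        rw [hcc] at h4
        have hz1 : z ≤ 113 / 1000 := by linarith only [hr1, hs, h3]
        have hg : Real.exp (ga x (-w)) ≤ 1 := by
          rw [Real.exp_le_one_iff]
          have h5 := max_ga_nonpos hx0 (by linarith : -w ≤ 0)
          exact (le_max_left _ _).trans h5.le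
        have hK2 : K ≤ 3484 / 1000 := hK1.trans (by linarith only [hr1])
        have h5 : Real.exp (ga x (-w)) * K * Real.cos (w + ε + p) ≤ 394 / 1000 := by
          rcases le_total (Real.cos (w + ε + p)) 0 with h6 | h6
          · exact (mul_nonpos_of_nonneg_of_nonpos (by positivity) h6).trans (by norm_num)
          · calc Real.exp (ga x (-w)) * K * Real.cos (w + ε + p) ≤ 1 * (3484 / 1000) * (113 / 1000) := by
                  gcongr
                  exact hcz.trans hz1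
              _ ≤ 394 / 1000 := by norm_num
        linarith only [hz0, hs, b5, h3, h4, h5]
      · -- clamped
        have h4 := h.left_cl (ε := ε) h3
        rw [hcc] at h4
        have hEK : Real.exp (-1) * K ≤ 7411 / 10000 * ρ := by
          have e1 := em1_hi
          have e2 : Real.exp (-1) * K ≤ 3679 / 10000 * (20138 / 10000 * ρ) := by gcongr
          linarith only [hr0, e2]
        have hEK0 : 0 < Real.exp (-1) * K := by (clear * - hK; positivity)
        have hend : 0 ≤ 13 / 50 * (3617 / 1000 + x - ρ) - 7411 / 10000 * ρ := by linarith only [b4, b5]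
        rcases le_total z 1 with hz1 | hz1
        · have h5 : Real.exp (-1) * K * Real.cos (w + ε + p) ≤ Real.exp (-1) * K * z :=
            mul_le_mul_of_nonneg_left hcz hEK0.le
          have h6 : Real.exp (-1) * K * z ≤ 7411 / 10000 * ρ * z := mul_le_mul_of_nonneg_right hEK hz0
          have h7 := mul_nonneg hz0 hend
          have h8 : 0 ≤ (1 - z) * (13 / 50 * (2617 / 1000 + x - ρ)) :=
            mul_nonneg (by linarith only [hz1]) (by linarith only [b3])
          linarith only [hs, h4, h5, h6, h7, h8]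
        · have h5 : Real.exp (-1) * K * Real.cos (w + ε + p) ≤ Real.exp (-1) * K * 1 :=
            mul_le_mul_of_nonneg_left hc1 hEK0.le
          linarith only [hs, h4, hEK, hend, hz1, h5]
    · -- small `ρ`
      have h3 : 1 + x ≤ w := by linarith only [hz0, hs, b1]
      have h4 := h.left_cl (ε := ε) h3
      rw [hcc] at h4
      have h5 : Real.exp (-1) * K * Real.cos (w + ε + p) ≤ 46 / 100 := by
        have e1 := em1_hi
        have hK2 : K ≤ 1249 / 1000 := hK1.trans (by linarith only [b1])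
        calc Real.exp (-1) * K * Real.cos (w + ε + p) ≤ Real.exp (-1) * K * 1 :=
              mul_le_mul_of_nonneg_left hc1 (by (clear * - hK; positivity))
          _ ≤ 3679 / 10000 * (1249 / 1000) * 1 := by gcongr
          _ ≤ 46 / 100 := by norm_num
      linarith only [hz0, hs, b4, h4, h5]

theorem tm_fin {c t : ℝ} (hc5 : 1 / 2 ≤ c) (ht1 : t ≤ 7 / 10) :
    3 / 50 ≤ 3 / 5 * c * (280 / 1000 + 404 / 1000 * c) + t * (611 / 2000 - 5 / 8 * c) := by
  have h6 : 611 / 2000 - 5 / 8 * c ≤ 0 := by linarith only [hc5]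
  have h7 : 7 / 10 * (611 / 2000 - 5 / 8 * c) ≤ t * (611 / 2000 - 5 / 8 * c) :=
    mul_le_mul_of_nonpos_right ht1 h6
  nlinarith only [h7, sq_nonneg (c - 554 / 1000)]

/-- right side, far -/
theorem NB.far (h : NB x t K p ρ) (hδ : 0 < δ) (hδ1 : δ ≤ ρ / (499 / 10)) (h1 : p ≤ s) :
    s / 25 + δ * max (ga x s) 0 ≤ Ht x (-t) (-ε) (ga x s) s := by
  obtain ⟨k1, k2, k3⟩ := c_facts h.x0
  obtain ⟨c, hc⟩ : ∃ c, c = 1 / (1 + x) := ⟨_, rfl⟩
  have hcc : (1 + x)⁻¹ = c := by rw [hc, one_div]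
  rw [← hc] at k1 k2 k3
  have hK := h.K0
  have hK1 := h.Kle
  have hx0 := h.x0
  have hr1 := h.r1
  have hr0 := h.r0
  have ht0 := h.t0
  have ht1 := h.t1
  have hp := h.p2
  have hs0 : 0 < s := by linarith only [h1, hp]
  have hu := h.Kx
  obtain ⟨hx1, hx2⟩ := h.xK
  have hK2 := h.K2
  have hcx : c * (1 + x) = 1 := by rw [hc]; field_simp
  have hcos := Real.cos_le_one (s + -ε + -p)
  -- the weight
  have hxr : 11 / 25 * ρ ≤ x := by
    have h2 : 1 ≤ Real.exp t := Real.one_le_exp ht0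
    have h3 : ρ ≤ K := by
      rw [h.Kr]
      nlinarith only [hr0, h2]
    linarith only [hx1, h3]
  have hδc : δ * c ≤ 1 / 50 := by
    have h2 : ρ * c ≤ 499 / 500 := by
      have h3 : ρ ≤ 499 / 500 * (1 + x) := by
        rcases h.br with ⟨b1, b2, b3, b4, b5⟩ | ⟨b1, b2, b3, b4⟩ <;> linarith
      calc ρ * c ≤ 499 / 500 * (1 + x) * c := mul_le_mul_of_nonneg_right h3 k1.le
        _ = 499 / 500 := by rw [mul_assoc, mul_comm (1 + x) c, hcx, mul_one]
    have h4 := mul_le_mul_of_nonneg_right hδ1 k1.le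
    have h5 : ρ / (499 / 10) * c = ρ * c / (499 / 10) := by ring
    linarith only [h2, h4]
  have hm : δ * max (ga x s) 0 ≤ s / 50 := by
    have h2 := max_ga_nonneg hx0 hs0.le
    rw [hcc] at h2
    have h3 := mul_le_mul_of_nonneg_left h2 hδ.le
    have h4 := mul_le_mul_of_nonneg_right hδc hs0.le
    linarith only [h3, h4]
  suffices hmain : 3 / 50 * s ≤ Ht x (-t) (-ε) (ga x s) s by linarith only [hm, hmain]
  rw [tm_Ht h.hx' h.ht']
  rcases le_total (c * s) 1 with h2 | h2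
  · -- not clamped
    have hcs0 : 0 < c * s := by (clear * - k1 hs0; positivity)
    rw [ga_mid hc (by linarith only [hcs0]) h2]
    have hE : Real.exp (c * s) ≤ 1 + c * s + 7200 / 10000 * (c * s) ^ (2 : ℕ) := by
      have h3 := e_le3 hcs0.le h2
      have h4 := mul_nonneg (sq_nonneg (c * s)) (sub_nonneg.2 h2)
      have h5 := mul_nonneg (mul_nonneg (sq_nonneg (c * s)) hcs0.le) (sub_nonneg.2 h2)
      have h6 := sq_nonneg (c * s)
      have e1 : (c * s) ^ (3 : ℕ) = (c * s) ^ (2 : ℕ) * (c * s) := by ring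
      have e2 : (c * s) ^ (4 : ℕ) = (c * s) ^ (2 : ℕ) * (c * s) * (c * s) := by ring
      rw [e1, e2] at h3
      linarith only [h3, h4, h5, h6]
    have hEc : Real.exp (c * s) * K * Real.cos (s + -ε + -p) ≤
        (1 + c * s + 7200 / 10000 * (c * s) ^ (2 : ℕ)) * K := by
      calc Real.exp (c * s) * K * Real.cos (s + -ε + -p) ≤ Real.exp (c * s) * K * 1 :=
            mul_le_mul_of_nonneg_left hcos (by (clear * - hK; positivity))
        _ ≤ _ := by
          rw [mul_one]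
          exact mul_le_mul_of_nonneg_right hE hK.le
    -- `u = K - x`
    obtain ⟨u, hud⟩ : ∃ u, u = K - x := ⟨_, rfl⟩
    have hu0 : 0 ≤ u := by linarith only [hx2, hud]
    have hKu : K = x + u := by linarith only [hud]
    have hu2 : u * (K + x) = t ^ (2 : ℕ) := by
      rw [hud]
      linarith only [hK2]
    -- `t ≤ K s`
    have htK : t ≤ K * s := by
      calc t = K * Real.sin p := h.ht
        _ ≤ K * p := mul_le_mul_of_nonneg_left (Real.sin_le h.p0) hK.le
        _ ≤ K * s := mul_le_mul_of_nonneg_left h1 hK.le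
    have hKx0 : 0 < K + x := by linarith only [hK, hx0]
    -- the linear part
    have hlin : s * (t * (x - c * t)) ≤ (t * s - u * (1 + c * s)) * (K + x) := by
      have h3 : t * t ≤ t * (K * s) := mul_le_mul_of_nonneg_left htK ht0
      have h4 : (t * s - u * (1 + c * s)) * (K + x) =
          t * s * (K + x) - (1 + c * s) * (u * (K + x)) := by ring
      rw [h4, hu2]
      linarith only [h3]
    have hquad : c * s ^ (2 : ℕ) * (1 - 7200 / 10000 * (c * K)) + (t * s - u * (1 + c * s)) ≤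
        c * s * s + x * (1 + c * s) + t * s - (1 + c * s + 7200 / 10000 * (c * s) ^ (2 : ℕ)) * K := by
      apply le_of_eq
      rw [hud]
      ring
    have hcK : c * K = 1 - c + c * u := by
      rw [hKu]
      linarith only [hcx]
    rcases h.br with ⟨b1, b2, b3, b4, b5⟩ | ⟨b1, b2, b3, b4⟩
    · -- `t = 7/10`
      have hA : 0 ≤ c * s ^ (2 : ℕ) * (1 - 7200 / 10000 * (c * K)) := by
        apply mul_nonneg (by (clear * - k1 hs0; positivity))
        rw [hcK]
        nlinarith only [hu0, hKu, hu2, hcK, b1, b2]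
      have hc1 : c * t ≤ 7 / 17 := by
        have h3 : c ≤ 10 / 17 := by
          rw [hc, div_le_iff₀ (by linarith only [b2])]
          linarith only [b2]
        calc c * t ≤ 10 / 17 * (7 / 10) := by gcongr
          _ = 7 / 17 := by norm_num
      have h5 : 3 / 50 * (K + x) ≤ t * (x - c * t) := by
        rw [b1] at hc1 hu ⊢
        linarith only [hx1, b2, hc1]
      have h6 : 3 / 50 * s ≤ t * s - u * (1 + c * s) := by
        refine le_of_mul_le_mul_right ?_ hKx0
        have h7 := mul_le_mul_of_nonneg_left h5 hs0.le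
        linarith only [hlin, h7]
      linarith only [hEc, hquad, hA, h6]
    · -- small
      have h5 : s * (t * (611 / 2000 - 5 / 8 * c)) ≤ t * s - u * (1 + c * s) := by
        refine le_of_mul_le_mul_right ?_ hKx0
        refine le_trans ?_ hlin
        have h6 : 611 / 2000 * (K + x) ≤ x := by linarith only [hx1, hx2]
        have h7 : t ≤ 5 / 8 * (K + x) := by
          apply le_of_sq_le_sq _ (by (clear * - hK hx0; positivity))
          rw [← hu2, hud]
          have h70 : K - x ≤ 25 / 64 * (K + x) := by linarith only [hKx0, h6]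
          have h71 := mul_le_mul_of_nonneg_right h70 hKx0.le
          have h72 : (5 / 8 * (K + x)) ^ (2 : ℕ) = 25 / 64 * (K + x) * (K + x) := by ring
          rw [h72]
          exact h71
        have h8 : t * ((611 / 2000 - 5 / 8 * c) * (K + x)) ≤ t * (x - c * t) := by
          apply mul_le_mul_of_nonneg_left _ ht0
          have h73 := mul_le_mul_of_nonneg_left h7 k1.le
          linarith only [h6, h73]
        have h9 := mul_le_mul_of_nonneg_left h8 hs0.le
        linarith only [h9]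
      have hA1 : 280 / 1000 + 404 / 1000 * c ≤ 1 - 7200 / 10000 * (c * K) := by
        rw [hcK]
        have h6 : c * u ≤ c * (5 / 8 * (7 / 10)) := by
          apply mul_le_mul_of_nonneg_left _ k1.le
          linarith only [ht1, hu, hKu]
        linarith only [k1, h6]
      have hs6 : 3 / 5 ≤ s := b2.trans ((Real.sin_le h.p0).trans h1)
      have hA2 : s * (3 / 5 * c * (280 / 1000 + 404 / 1000 * c)) ≤
          c * s ^ (2 : ℕ) * (1 - 7200 / 10000 * (c * K)) := by
        have h6 : 3 / 5 * (c * s) ≤ s * (c * s) := mul_le_mul_of_nonneg_right hs6 hcs0.le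
        have h7 : 0 ≤ 280 / 1000 + 404 / 1000 * c := by (clear * - k1; positivity)
        calc s * (3 / 5 * c * (280 / 1000 + 404 / 1000 * c)) =
              (3 / 5 * (c * s)) * (280 / 1000 + 404 / 1000 * c) := by ring
          _ ≤ (s * (c * s)) * (280 / 1000 + 404 / 1000 * c) := mul_le_mul_of_nonneg_right h6 h7
          _ ≤ (s * (c * s)) * (1 - 7200 / 10000 * (c * K)) :=
            mul_le_mul_of_nonneg_left hA1 (by (clear * - hs0 k1; positivity))
          _ = _ := by ring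
      have hc5 : 1 / 2 ≤ c := by
        rw [hc, le_div_iff₀ (by linarith only [hx1, hx2])]
        linarith only [b3]
      have hfin := tm_fin hc5 ht1
      have h10 := mul_le_mul_of_nonneg_left hfin hs0.le
      linarith only [hEc, hquad, h5, hA2, h10]
  · -- clamped
    rw [ga_hi hc h2]
    have hs1 : 1 + x ≤ s := by
      by_contra hlt
      push Not at hlt
      have := mul_lt_mul_of_pos_left hlt k1
      linarith only [hcx, h2, this]
    have hE := e1_hi
    have hEc : Real.exp 1 * K * Real.cos (s + -ε + -p) ≤ 2719 / 1000 * K := by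
      calc Real.exp 1 * K * Real.cos (s + -ε + -p) ≤ Real.exp 1 * K * 1 :=
            mul_le_mul_of_nonneg_left hcos (by (clear * - hK; positivity))
        _ ≤ 2719 / 1000 * K * 1 := by gcongr
        _ = _ := by ring
    have h3 : (47 / 50 + t) * (1 + x) ≤ (47 / 50 + t) * s :=
      mul_le_mul_of_nonneg_left hs1 (by linarith only [hu, hx2])
    have h4 : 0 ≤ t * x := by (clear * - ht0 hx0; positivity)
    linarith only [ht1, hu, hx1, hEc, h3, h4]

theorem NB.point (h : NB x t K p ρ) (hε : 0 ≤ ε) (hE : p + x - ρ + ε ≤ 2 * Real.pi / 3)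
    (hδ : 0 < δ) (hδ1 : δ ≤ ρ / (499 / 10)) (s : ℝ) :
    19 / 50 * SokamF1G.Qf x (-t) * s ^ (2 : ℕ) ≤ Ht x (-t) (-ε) (ga x s) s ∨
      |s| / 25 + δ * max (ga x s) 0 ≤ Ht x (-t) (-ε) (ga x s) s := by
  rcases le_total 0 s with h0 | h0
  · rcases le_total s p with h1 | h1
    · exact Or.inl (h.near hε hE h0 h1)
    · right
      rw [abs_of_nonneg h0]
      exact h.far hδ hδ1 h1
  · obtain ⟨w, rfl⟩ : ∃ w, s = -w := ⟨-s, by ring⟩
    have hw : 0 ≤ w := by linarith only [h0]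
    rw [max_ga_nonpos h.x0 h0, mul_zero, add_zero, abs_neg, abs_of_nonneg hw]
    rcases le_total w (3 / 2) with h1 | h1
    · rcases le_total (2 * (w + p) + ε) (2 * Real.pi) with h2 | h2
      · exact Or.inl (h.left_near hε hw h1 h2)
      · right
        have hpi := Real.pi_gt_d4
        have hpi2 := Real.pi_lt_d4
        have hr := h.rx
        have hp1 := h.p1
        refine h.left_i (by linarith only [hE, h2, hpi, hr, hp1]) ?_
        have hcc : Real.cos (-w + -ε + -p) = Real.cos (w + ε + p) := by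
          rw [← Real.cos_neg (-w + -ε + -p)]
          congr 1
          ring
        rw [hcc]
        exact tm_cos_neg (by linarith only [h1, h2, hpi, hp1]) (by linarith only [hE, h1, hpi, hr])
    · exact Or.inr (h.left_far hε hE h1)

end

theorem tm_NB {ρ b : ℝ} (hB : Bd ρ b) (hb : b ≤ 0) (hρ1 : ρ ≤ 173 / 100) :
    NB (sx ρ b) (-b) (ρ * Real.exp (-b)) (-sP ρ b) ρ ∧
      11 / 25 * (√(sx ρ b ^ (2 : ℕ) + b ^ (2 : ℕ)) * Real.exp b) ≤ sx ρ b * (1 + b) ∧
      √(sx ρ b ^ (2 : ℕ) + b ^ (2 : ℕ)) * Real.exp b = ρ := by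
  obtain ⟨hD, hbb⟩ := hB
  have hρ := hD.dom.1
  have hx := sx_nonneg ρ b
  have hsin := hD.dom.sin
  have hcos := hD.dom.cos
  have hE0 := Real.exp_pos b
  have hb7 := hD.y0
  have hEE : Real.exp (-b) * Real.exp b = 1 := by rw [← Real.exp_add]; simp
  have hK : √(sx ρ b ^ (2 : ℕ) + b ^ (2 : ℕ)) * Real.exp b = ρ := by
    have h2 : ‖sK ρ b‖ = √(sx ρ b ^ (2 : ℕ) + b ^ (2 : ℕ)) := norm_K _ _
    rw [← h2, norm_sK hD.dom, mul_assoc, ← Real.exp_add]
    simp
  have hph : 11 / 25 * ρ ≤ sx ρ b * (1 + b) := by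
    have h2 := hD.phi
    unfold ph at h2
    rwa [le_div_iff₀ hρ] at h2
  have h1b : 0 < 1 + b := by linarith only [hb7]
  have hC : Real.cos (sP ρ b) * ρ = sx ρ b * Real.exp b := by
    rw [hcos]
    field_simp
  have hS : Real.sin (sP ρ b) * ρ = b * Real.exp b := by
    rw [hsin]
    field_simp
  have C0 : 11 / 25 ≤ Real.cos (sP ρ b) := by
    have h1 := Real.add_one_le_exp b
    have h2 : 11 / 25 * ρ ≤ Real.cos (sP ρ b) * ρ := by
      rw [hC]
      refine hph.trans (mul_le_mul_of_nonneg_left (by linarith only [h1]) hx)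
    exact le_of_mul_le_mul_right h2 hρ
  have hsc := Real.sin_sq_add_cos_sq (sP ρ b)
  have p0 : 0 ≤ -sP ρ b := by linarith only [sP_nonpos hρ hb]
  have hp2 := (abs_le.1 (sP_abs_le ρ b)).1
  have hsn : Real.sin (-sP ρ b) = -Real.sin (sP ρ b) := Real.sin_neg _
  have hcn : Real.cos (-sP ρ b) = Real.cos (sP ρ b) := Real.cos_neg _
  have p1 : -sP ρ b ≤ 28 / 25 := by
    by_contra hlt
    push Not at hlt
    have h1 := Real.cos_le_cos_of_nonneg_of_le_pi (by norm_num) (by linarith only [hp2, Real.pi_pos]) hlt.le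
    have := tm_cos_112
    rw [hcn] at h1
    linarith only [C0, h1, this]
  have hx' : sx ρ b = ρ * Real.exp (-b) * Real.cos (-sP ρ b) := by
    rw [hcn, hcos]
    calc sx ρ b = sx ρ b * (Real.exp (-b) * Real.exp b) := by rw [hEE, mul_one]
      _ = _ := by field_simp
  have ht' : -b = ρ * Real.exp (-b) * Real.sin (-sP ρ b) := by
    rw [hsn, hsin]
    calc -b = -b * (Real.exp (-b) * Real.exp b) := by rw [hEE, mul_one]
      _ = _ := by field_simp
  have hΦ : 11 / 25 * (√(sx ρ b ^ (2 : ℕ) + b ^ (2 : ℕ)) * Real.exp b) ≤ sx ρ b * (1 + b) := by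
    rw [hK]
    exact hph
  have hD2 := s2_D hx (by linarith only [hb7]) hb hΦ
  have hx2 : sx ρ b ^ (2 : ℕ) = (ρ * Real.exp (-b)) ^ (2 : ℕ) - b ^ (2 : ℕ) := sx_sq hD.dom
  have hxr : 11 / 25 * ρ ≤ sx ρ b := by
    refine hph.trans ?_
    nlinarith only [hb, hx]
  -- the two branches
  have hbr : 1 / 5 ≤ Real.sin (-sP ρ b) ∧ ((-b = 7 / 10 ∧ 7 / 10 ≤ sx ρ b ∧ ρ ≤ sx ρ b ∧
      386 / 100 * ρ - 3617 / 1000 ≤ sx ρ b ∧ 146 / 100 * ρ ≤ sx ρ b) ∨
      (ρ ≤ 31 / 50 ∧ 3 / 5 ≤ Real.sin (-sP ρ b) ∧ sx ρ b ≤ 91 / 100 ∧ ρ - sx ρ b ≤ 87 / 250)) := by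
    rw [hsn]
    by_cases h7 : b = -(7 / 10)
    · have e1 := tm_e7
      have e2 := tm_e7'
      have eb : -b = 7 / 10 := by rw [h7]; norm_num
      rw [eb] at hx2
      have hb2 : b ^ (2 : ℕ) = 49 / 100 := by rw [h7]; norm_num
      rw [hb2] at hx2
      have hph' : 22 / 15 * ρ ≤ sx ρ b := by
        rw [h7] at hph ⊢
        linarith only [hph]
      have hKhi : (ρ * Real.exp (7 / 10)) ^ (2 : ℕ) ≤ (20138 / 10000) ^ (2 : ℕ) * ρ ^ (2 : ℕ) := by
        rw [mul_pow, mul_comm]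
        gcongr
      have hKlo : (20137 / 10000) ^ (2 : ℕ) * ρ ^ (2 : ℕ) ≤ (ρ * Real.exp (7 / 10)) ^ (2 : ℕ) := by
        rw [mul_pow, mul_comm (ρ ^ (2 : ℕ))]
        gcongr
      constructor
      · -- the sine
        have h3 : Real.exp b * (20138 / 10000) ≥ 1 := by
          rw [eb] at hEE
          nlinarith only [hEE, e1, e2]
        have h4 : (1 / 5) * ρ ≤ -Real.sin (sP ρ b) * ρ := by
          rw [neg_mul, hS, h7]
          rw [h7] at h3
          linarith only [hρ1, h3]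
        exact le_of_mul_le_mul_right h4 hρ
      · left
        refine ⟨eb, ?_, by linarith only [hxr, hph'], ?_, by linarith only [hxr, hph']⟩
        · -- `x ≥ 7/10`
          by_contra hlt
          push Not at hlt
          have h5 : ρ ^ (2 : ℕ) ≤ (15 / 22 * sx ρ b) ^ (2 : ℕ) := by
            apply pow_le_pow_left₀ hρ.le
            linarith only [hph']
          have h6 : sx ρ b ^ (2 : ℕ) ≤ (7 / 10) ^ (2 : ℕ) := pow_le_pow_left₀ hx hlt.le 2
          have h8 : (15 / 22 * sx ρ b) ^ (2 : ℕ) = 225 / 484 * sx ρ b ^ (2 : ℕ) := by ring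
          rw [h8] at h5
          norm_num at h6
          linarith only [hx2, hKhi, h5, h6]
        · by_contra hlt
          push Not at hlt
          have h5 : sx ρ b ^ (2 : ℕ) < (386 / 100 * ρ - 3617 / 1000) ^ (2 : ℕ) := by
            apply pow_lt_pow_left₀ hlt hx two_ne_zero
          have h6 : 0 < 386 / 100 * ρ - 3617 / 1000 := lt_of_le_of_lt hx hlt
          have h8 : 0 ≤ (ρ - 93 / 100) * (173 / 100 - ρ) := mul_nonneg (by linarith only [h6]) (by linarith only [hρ1])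
          have h9 : (386 / 100 * ρ - 3617 / 1000) ^ (2 : ℕ) =
              (386 / 100) ^ (2 : ℕ) * ρ ^ (2 : ℕ) - 2 * (386 / 100) * (3617 / 1000) * ρ + (3617 / 1000) ^ (2 : ℕ) := by ring
          rw [h9] at h5
          have h10 : (ρ - 93 / 100) * (173 / 100 - ρ) = -ρ ^ (2 : ℕ) + (93 / 100 + 173 / 100) * ρ -
              93 / 100 * (173 / 100) := by ring
          rw [h10] at h8
          linarith only [hρ1, hx2, hKlo, h5, h8]
    · have hpe : ph ρ b = 11 / 25 := by
        rcases hbb with h | h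
        · exact absurd h h7
        · exact h
      have xr : sx ρ b * (1 + b) = 11 / 25 * ρ := by
        unfold ph at hpe
        rw [div_eq_iff hρ.ne'] at hpe
        exact hpe
      have hen : Real.exp b ≤ 1 + b + b ^ (2 : ℕ) / 2 := by
        have h3 := en_le2 (x := -b) (by linarith only [hb])
        rw [neg_neg] at h3
        linarith only [h3]
      have C1 : Real.cos (sP ρ b) ≤ 4 / 5 := by
        have h3 : Real.cos (sP ρ b) * (1 + b) = 11 / 25 * Real.exp b := by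
          have h4 : Real.cos (sP ρ b) * (1 + b) * ρ = 11 / 25 * Real.exp b * ρ := by
            calc Real.cos (sP ρ b) * (1 + b) * ρ = Real.cos (sP ρ b) * ρ * (1 + b) := by ring
              _ = sx ρ b * (1 + b) * Real.exp b := by rw [hC]; ring
              _ = _ := by rw [xr]; ring
          exact mul_right_cancel₀ hρ.ne' h4
        by_contra hlt
        push Not at hlt
        nlinarith only [hb, hb7, hen, h3, hlt]
      have S00 : 0 ≤ -Real.sin (sP ρ b) := by
        rw [← hsn]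
        exact Real.sin_nonneg_of_nonneg_of_le_pi p0 (by linarith only [hp2, Real.pi_pos])
      have S0 : 3 / 5 ≤ -Real.sin (sP ρ b) := by
        apply le_of_sq_le_sq _ S00
        nlinarith only [C0, hsc, C1]
      have hρ62 : ρ ≤ 31 / 50 := by
        have h3 : -b * Real.exp b ≤ 368 / 1000 := by
          have h4 := Real.add_one_le_exp (-b - 1)
          have h5 : -b ≤ Real.exp (-b - 1) := by linarith only [h4]
          have h6 : -b * Real.exp b ≤ Real.exp (-b - 1) * Real.exp b :=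
            mul_le_mul_of_nonneg_right h5 hE0.le
          rw [← Real.exp_add] at h6
          have e : -b - 1 + b = -1 := by ring
          rw [e] at h6
          have := em1_hi
          linarith only [h6, this]
        have h4 : 3 / 5 * ρ ≤ -Real.sin (sP ρ b) * ρ := mul_le_mul_of_nonneg_right S0 hρ.le
        have h5 : -Real.sin (sP ρ b) * ρ = -b * Real.exp b := by
          rw [neg_mul, hS]
          ring
        linarith only [h3, h4, h5]
      refine ⟨by linarith only [S0], Or.inr ⟨hρ62, S0, ?_, ?_⟩⟩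
      · by_contra hlt
        push Not at hlt
        nlinarith only [hb7, xr, hρ62, hlt]
      · linarith only [hxr, hρ62]
  refine ⟨⟨hx, by linarith only [hb], by linarith only [hb7], hρ, hρ1, by positivity, hx', ht', ?_, hbr.1, p0, p1, rfl,
    ?_, hbr.2⟩, hΦ, hK⟩
  · rw [hcn]
    exact C0
  · rw [neg_neg]
    exact hD2

/-- MON, negative side (true constant 1.2). -/
theorem mon_neg {r ρ b ε : ℝ} (hr : 499 / 10 ≤ r) (hB : Bd ρ b) (hb : b ≤ 0) (hρ : ρ ≤ 173 / 100)
    (hε : 0 ≤ ε) (hs : |sE ρ b| + ε ≤ 2 * Real.pi / 3) :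
    ‖W0 r (ρ / r) (sE ρ b - ε)‖ ≤ 15 * Mm r ρ b ∧
      ‖W1 r (ρ / r) (sE ρ b - ε)‖ ≤ 15 * (r * Real.exp (-b)) * Mm r ρ b := by
  obtain ⟨h, hΦ, hK⟩ := tm_NB hB hb hρ
  have hr0 : 0 < r := by linarith only [hr, hb]
  have hρ0 := h.r0
  have hx0 := h.x0
  have hδ : 0 < ρ / r := by (clear * - hρ0 hr; positivity)
  have e : r * (ρ / r) = ρ := by field_simp
  have hδ1 : ρ / r ≤ ρ / (499 / 10) := div_le_div_of_nonneg_left hρ0.le (by norm_num) hr
  have hb7 := hB.1.y0
  have hE : -sP ρ b + sx ρ b - ρ + ε ≤ 2 * Real.pi / 3 := by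
    have h1 := neg_abs_le (sE ρ b)
    unfold sE at h1 hs
    linarith only [hs, h1]
  rw [sub_eq_add_neg]
  refine waves_of_mI hr0 hB.1.dom (by linarith only [hb7]) (by rw [abs_of_nonpos hb]; linarith only [hb7]) ?_
  intro j hj
  have hBq := s2_B hx0 (by linarith only [hb7]) hb hΦ
  rw [hK] at hBq
  have hl := s2_l hx0 (by linarith only [hb7]) hb hΦ
  have hq := h.q
  rw [neg_neg] at hq
  have hpt := h.point hε hE hδ hδ1
  rw [neg_neg] at hpt
  have key := mI_le (r := r) (δ := ρ / r) (y := b) (θ := -ε) (j := j) hj hδ (by linarith only [hb7])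
    (by rw [e]; exact hq) (by
      rw [e, le_div_iff₀ hδ]
      linarith only [hδ1, hBq, hq]) (by rw [e]; exact hl) (by
      rw [e]
      have hx35 : sx ρ b ≤ 35 / 10 := by
        have h1 := h.xK.2
        have h2 := h.Kle
        linarith only [hρ, h1, h2]
      have hQ : SokamF1G.Qf (sx ρ b) b ≤ 2 := by
        have h1 : 1 / (1 + sx ρ b) + sx ρ b / 2 ≤ 2 := by
          have h0 : 0 < 1 + sx ρ b := by linarith only [hx0]
          rw [div_add' _ _ _ h0.ne', div_le_iff₀ h0]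
          nlinarith only [hx0, hx35]
        have h2 : (1 + b) / (1 + sx ρ b) ≤ 1 / (1 + sx ρ b) := by
          apply div_le_div_of_nonneg_right _ (by linarith only [hx0])
          linarith only [hb]
        have h3 : sx ρ b * (1 - (1 / (1 + sx ρ b)) ^ (2 : ℕ)) / 2 ≤ sx ρ b / 2 := by
          have h4 : 0 ≤ sx ρ b * (1 / (1 + sx ρ b)) ^ (2 : ℕ) := by (clear * - hx0; positivity)
          linarith only [h4]
        unfold SokamF1G.Qf
        linarith only [h1, h2, h3]
      have hδ2 : ρ / r ≤ 173 / 4990 := hδ1.trans (by linarith only [hρ])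
      calc (1 + (1 / (1 + sx ρ b)) ^ (2 : ℕ)) * √((1 + b) ^ (2 : ℕ) + sx ρ b ^ (2 : ℕ)) * (ρ / r) ≤
            (2 * (129 / 100) * SokamF1G.Qf (sx ρ b) b) * (173 / 4990) := by gcongr
        _ ≤ 1 / 5 := by linarith only [hQ]) (by
      rw [e]
      exact hpt)
  rw [e] at key
  exact key

end SokamF1T

end

/-! ### Lib_MP_af4de1_f1.TopLoc -/

section
namespace SokamF1
end SokamF1
namespace SokamF1S
end SokamF1S
namespace SokamU
end SokamU
/-!
# LOC for `N ≥ 3` (regime C): if not both top waves are in `DD`, one wave dominates (owner helper31)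

`L` = the top wave which is not in `DD`, `b` = the boundary point of `DD` on its side; `mon_neg`, `mon_pos` compare `L` with
the wave at `b` (factor 10), `gap3` compares this with the other top wave `H` (factor 1/40).
-/

set_option autoImplicit false

namespace SokamF1T

open Complex SokamU SokamF1 SokamF1S

theorem tl_norm_kp {r ρ y : ℝ} (hr : 0 < r) (h : Dom ρ y) : ‖kp r ρ y‖ = r * Real.exp (-y) := by
  unfold kp
  have hρ := h.1
  rw [norm_mul, norm_sK h, Complex.norm_real, Real.norm_of_nonneg (by positivity)]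
  field_simp

theorem tl_kp_re {r ρ y : ℝ} : (kp r ρ y).re = r / ρ * sx ρ y := by
  unfold kp sK
  simp

theorem tl_kp_re_ge {r ρ y : ℝ} (hr : 0 < r) (h : DD ρ y) :
    11 / 25 * (r * Real.exp (-y)) ≤ (kp r ρ y).re := by
  rw [tl_kp_re]
  have hρ := h.dom.1
  have hy : -(7 / 10) ≤ y := h.y0
  have h1 := h.phi
  unfold ph at h1
  have h2 : 0 < 1 + y := by linarith only [hy]
  have h3 : Real.exp (-y) * (1 + y) ≤ 1 := by
    have h4 := Real.add_one_le_exp y
    have h5 := Real.exp_pos (-y)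
    calc Real.exp (-y) * (1 + y) ≤ Real.exp (-y) * Real.exp y := by
          apply mul_le_mul_of_nonneg_left _ h5.le
          linarith only [h4]
      _ = 1 := by rw [← Real.exp_add]; simp
  have h6 : 11 / 25 * Real.exp (-y) ≤ sx ρ y / ρ := by
    have h7 : sx ρ y * (1 + y) / ρ = sx ρ y / ρ * (1 + y) := by ring
    rw [h7] at h1
    by_contra hlt
    push Not at hlt
    have h8 : sx ρ y / ρ * (1 + y) < 11 / 25 * Real.exp (-y) * (1 + y) :=
      mul_lt_mul_of_pos_right hlt h2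
    linarith only [h1, h3, h8]
  calc 11 / 25 * (r * Real.exp (-y)) = r * (11 / 25 * Real.exp (-y)) := by ring
    _ ≤ r * (sx ρ y / ρ) := mul_le_mul_of_nonneg_left h6 hr.le
    _ = r / ρ * sx ρ y := by ring

/-- `|κ + m| ≥ .84 (|κ| + m)` -/
theorem tl_kp_add_ge {r ρ y m : ℝ} (hr : 0 < r) (h : DD ρ y) (hm : 0 ≤ m) :
    21 / 25 * (r * Real.exp (-y) + m) ≤ ‖kp r ρ y + m‖ := by
  have h1 := tl_kp_re_ge hr h
  have h2 := tl_norm_kp hr h.dom
  set K := r * Real.exp (-y) with hK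
  have hK0 : 0 ≤ K := by positivity
  have h3 : ‖kp r ρ y + m‖ ^ (2 : ℕ) = K ^ (2 : ℕ) + 2 * m * (kp r ρ y).re + m ^ (2 : ℕ) := by
    rw [← h2, ← Complex.normSq_eq_norm_sq, ← Complex.normSq_eq_norm_sq]
    simp only [Complex.normSq_apply, Complex.add_re, Complex.add_im, Complex.ofReal_re, Complex.ofReal_im]
    ring
  have h4 : (21 / 25 * (K + m)) ^ (2 : ℕ) ≤ ‖kp r ρ y + m‖ ^ (2 : ℕ) := by
    rw [h3]
    have h5 : m * (11 / 25 * K) ≤ m * (kp r ρ y).re := mul_le_mul_of_nonneg_left h1 hm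
    nlinarith only [h5, sq_nonneg (K - m)]
  exact le_of_sq_le_sq h4 (norm_nonneg _)

theorem tl_exp18 : Real.exp (18 / 25) ≤ 206 / 100 := by
  have h := Real.exp_bound' (x := 18 / 25) (by norm_num) (by norm_num) (n := 5) (by norm_num)
  refine h.trans ?_
  norm_num [Finset.sum_range_succ, Nat.factorial]

/-- lower bound for the dominating wave -/
theorem tl_top_lower {r ρ y m : ℝ} {w0 w1 : ℂ} (hr : 499 / 10 ≤ r) (hD : DD ρ y) (hm : 0 ≤ m)
    (h1 : 5 / 6 * Mm r ρ y ≤ ‖w0‖) (h2 : ‖w1 - kp r ρ y * w0‖ ≤ 3 * ‖w0‖) :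
    59 / 100 * ((r * Real.exp (-y) + m) * Mm r ρ y) ≤ ‖w1 + m * w0‖ := by
  have hr0 : 0 < r := by linarith only [hr, hm]
  have hM : 0 < Mm r ρ y := by
    unfold Mm
    have := sD2_pos (ρ := ρ) (y := y) (by linarith only [hD.y0])
    positivity
  have h3 := tl_kp_add_ge hr0 hD hm
  have hK : 3 ≤ 31 / 250 * (r * Real.exp (-y)) := by
    have h4 : Real.exp (-(18 / 25)) ≤ Real.exp (-y) := Real.exp_le_exp.2 (by linarith only [hD.y1])
    have h5 : (1 : ℝ) / 2.06 ≤ Real.exp (-(18 / 25)) := by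
      rw [Real.exp_neg, ← one_div]
      apply one_div_le_one_div_of_le (Real.exp_pos _)
      have := tl_exp18
      norm_num at this ⊢
      linarith only [this]
    have h6 : (499 / 10 : ℝ) * (1 / 2.06) ≤ r * Real.exp (-y) :=
      mul_le_mul hr (h5.trans h4) (by norm_num) hr0.le
    norm_num at h6 ⊢
    linarith only [h6]
  set K := r * Real.exp (-y) with hKd
  set W := ‖w0‖ with hW
  have hW0 : 0 ≤ W := norm_nonneg _
  have h7 : ‖(kp r ρ y + m) * w0‖ ≤ ‖w1 + m * w0‖ + 3 * W := by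
    have e : (kp r ρ y + m) * w0 = (w1 + m * w0) - (w1 - kp r ρ y * w0) := by ring
    rw [e]
    exact (norm_sub_le _ _).trans (by linarith only [h2])
  rw [norm_mul] at h7
  have h8 : (21 / 25 * (K + m)) * W ≤ ‖kp r ρ y + m‖ * W := mul_le_mul_of_nonneg_right h3 hW0
  have h10 : 179 / 250 * (K + m) * W ≤ ‖w1 + m * w0‖ := by
    have h11 : 3 * W ≤ 31 / 250 * (K + m) * W :=
      mul_le_mul_of_nonneg_right (by linarith only [hm, hK]) hW0
    linarith only [h7, h8, h11]
  have hK0 : 0 ≤ K := by positivity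
  have h12 : 179 / 250 * (K + m) * (5 / 6 * Mm r ρ y) ≤ 179 / 250 * (K + m) * W :=
    mul_le_mul_of_nonneg_left h1 (by positivity)
  have h13 : 0 ≤ (K + m) * Mm r ρ y := by positivity
  linarith only [h10, h12, h13]

/-- the gap factor -/
theorem tl_gap_use {r ρ y b : ℝ} (hr : 499 / 10 ≤ r) (hρ : ρ ≤ 2) (hy : DD ρ y) (hb : DD ρ b)
    (hG : GapC ρ y b ≤ 1 / 40) : 0 < Mm r ρ b ∧
    Mm r ρ b ≤ 1 / 40 * Mm r ρ y ∧ Real.exp (y - b) * Mm r ρ b ≤ 1 / 40 * Mm r ρ y := by
  have hDy := sD2_pos (ρ := ρ) (y := y) (by linarith only [hy.y0])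
  have hDb := sD2_pos (ρ := ρ) (y := b) (by linarith only [hb.y0])
  have hρ0 := hb.dom.1
  set A := √(√(sD2 ρ y)) with hA
  set B := √(√(sD2 ρ b)) with hB
  have hA0 : 0 < A := by positivity
  have hB0 : 0 < B := by positivity
  have hA1 : 1 / 2 ≤ A := by
    rw [hA]
    apply Real.le_sqrt_of_sq_le
    apply Real.le_sqrt_of_sq_le
    unfold sD2
    nlinarith only [hy.y0]
  have hB1 : B ≤ 3 := by
    rw [hB]
    apply Real.sqrt_le_iff.2 ⟨by norm_num, ?_⟩
    apply Real.sqrt_le_iff.2 ⟨by norm_num, ?_⟩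
    unfold sD2
    have h1 := sx_le hb.dom
    have h2 := sx_nonneg ρ b
    have h3 : Real.exp (-b) ≤ 206 / 100 := by
      refine (Real.exp_le_exp.2 (by linarith only [hb.y0] : -b ≤ 18 / 25)).trans tl_exp18
    have h4 : sx ρ b ≤ 5 := h1.trans (by nlinarith only [hρ, h3, Real.exp_pos (-b)])
    nlinarith only [h2, h4, hb.y0, hb.y1]
  set M := max 1 (Real.exp (y - b)) with hM
  have hM1 : 1 ≤ M := le_max_left _ _
  have hM2 : Real.exp (y - b) ≤ M := le_max_right _ _
  unfold GapC at hG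
  rw [← hM, ← hA, ← hB] at hG
  have hAB : 1 / 6 ≤ A / B := by
    rw [le_div_iff₀ hB0]
    linarith only [hA1, hB1]
  have hΔ : 0 ≤ ph ρ y - ph ρ b := by
    by_contra hlt
    push Not at hlt
    have h1 : 1 ≤ Real.exp (-(499 / 10) * (ph ρ y - ph ρ b)) := by
      rw [← Real.exp_zero]
      apply Real.exp_le_exp.2
      linarith only [hlt]
    have h2 : 1 / 6 ≤ M * (A / B) := by nlinarith only [hM1, hAB]
    have h3 : 1 / 6 ≤ M * (A / B) * Real.exp (-(499 / 10) * (ph ρ y - ph ρ b)) := by nlinarith only [h1, h2]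
    linarith only [hG, h3]
  have h1 : Real.exp (-r * (ph ρ y - ph ρ b)) ≤ Real.exp (-(499 / 10) * (ph ρ y - ph ρ b)) := by
    apply Real.exp_le_exp.2
    nlinarith only [hr, hΔ]
  have h2 : M * (A / B) * Real.exp (-r * (ph ρ y - ph ρ b)) ≤ 1 / 40 :=
    (mul_le_mul_of_nonneg_left h1 (by positivity)).trans hG
  have e1 : Mm r ρ b = (A / B) * Real.exp (-r * (ph ρ y - ph ρ b)) * Mm r ρ y := by
    unfold Mm
    rw [← hA, ← hB, show -r * (ph ρ y - ph ρ b) = r * ph ρ b - r * ph ρ y by ring, Real.exp_sub]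
    field_simp
  have hMy : 0 < Mm r ρ y := by unfold Mm; positivity
  have hMb : 0 < Mm r ρ b := by unfold Mm; positivity
  have h3 : M * Mm r ρ b ≤ 1 / 40 * Mm r ρ y := by
    calc M * Mm r ρ b = M * (A / B) * Real.exp (-r * (ph ρ y - ph ρ b)) * Mm r ρ y := by rw [e1]; ring
      _ ≤ _ := mul_le_mul_of_nonneg_right h2 hMy.le
  refine ⟨hMb, ?_, ?_⟩
  · nlinarith only [hM1, hMb, h3]
  · nlinarith only [hM2, hMb, h3]

/-- upper bound for the wave `L` -/
theorem tl_low_upper {r ρ y b m : ℝ} {w0 w1 : ℂ} (hr : 499 / 10 ≤ r) (hρ : ρ ≤ 2) (hy : DD ρ y) (hb : DD ρ b)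
    (hG : GapC ρ y b ≤ 1 / 40) (hm : 0 ≤ m) (h0 : ‖w0‖ ≤ 15 * Mm r ρ b)
    (h1 : ‖w1‖ ≤ 15 * (r * Real.exp (-b)) * Mm r ρ b) :
    ‖w1 + m * w0‖ ≤ 3 / 8 * ((r * Real.exp (-y) + m) * Mm r ρ y) := by
  obtain ⟨g0, g1, g2⟩ := tl_gap_use hr hρ hy hb hG
  have hr0 : 0 < r := by linarith only [hr, hρ]
  have e : Real.exp (-b) = Real.exp (-y) * Real.exp (y - b) := by
    rw [← Real.exp_add]; congr 1; ring
  have h2 : ‖w1 + m * w0‖ ≤ 15 * (r * Real.exp (-b)) * Mm r ρ b + m * (15 * Mm r ρ b) := by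
    refine (norm_add_le _ _).trans (add_le_add h1 ?_)
    rw [norm_mul, Complex.norm_real, Real.norm_of_nonneg hm]
    exact mul_le_mul_of_nonneg_left h0 hm
  have h3 : 15 * (r * Real.exp (-b)) * Mm r ρ b = 15 * (r * Real.exp (-y)) * (Real.exp (y - b) * Mm r ρ b) := by
    rw [e]; ring
  have h4 : 15 * (r * Real.exp (-y)) * (Real.exp (y - b) * Mm r ρ b) ≤
      15 * (r * Real.exp (-y)) * (1 / 40 * Mm r ρ y) :=
    mul_le_mul_of_nonneg_left g2 (by positivity)
  have h5 : m * (15 * Mm r ρ b) ≤ m * (15 * (1 / 40 * Mm r ρ y)) := by gcongr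
  linarith only [h2, h3, h4, h5]

/-- upper bound for the far waves -/
theorem tl_far_upper {r ρ y m : ℝ} {w0 w1 : ℂ} (hr : 0 < r) (hy : DD ρ y) (hm : 0 ≤ m) (hM : 0 < Mm r ρ y)
    (h0 : ‖w0‖ ≤ 1 / 100 * Mm r ρ y) (h1 : ‖w1‖ ≤ 1 / 100 * r * Mm r ρ y) :
    ‖w1 + m * w0‖ ≤ 206 / 10000 * ((r * Real.exp (-y) + m) * Mm r ρ y) := by
  have h2 : ‖w1 + m * w0‖ ≤ 1 / 100 * r * Mm r ρ y + m * (1 / 100 * Mm r ρ y) := by
    refine (norm_add_le _ _).trans (add_le_add h1 ?_)
    rw [norm_mul, Complex.norm_real, Real.norm_of_nonneg hm]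
    exact mul_le_mul_of_nonneg_left h0 hm
  have h3 : 1 ≤ 206 / 100 * Real.exp (-y) := by
    have h4 : Real.exp y ≤ 206 / 100 := (Real.exp_le_exp.2 hy.y1).trans tl_exp18
    have h5 : Real.exp y * Real.exp (-y) = 1 := by rw [← Real.exp_add]; simp
    nlinarith only [h4, h5, Real.exp_pos (-y)]
  have h6 : r * Mm r ρ y * 1 ≤ r * Mm r ρ y * (206 / 100 * Real.exp (-y)) :=
    mul_le_mul_of_nonneg_left h3 (by positivity)
  have h7 : 0 ≤ m * Mm r ρ y := by positivity
  linarith only [h2, h6, h7]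

/-- the sum over all waves -/
theorem tl_sum_lt {N : ℕ} (hN : 3 ≤ N) (hN5 : N ≤ 5) {g : ℤ → ℝ} {jH jL : ℤ} {T : ℝ} (hT : 0 < T)
    (hj : (jH = 0 ∧ jL = -1) ∨ (jH = -1 ∧ jL = 0)) (hL : g jL ≤ 3 / 8 * T)
    (hF : ∀ i : ℤ, 1 ≤ i → i < -1 + N → g i ≤ 206 / 10000 * T) (hH : 59 / 100 * T ≤ g jH) :
    ∑ i ∈ (Finset.Ico (-1 : ℤ) (-1 + N)).erase jH, g i < g jH := by
  have hN' : (3 : ℤ) ≤ N := by exact_mod_cast hN
  have hmem : jL ∈ (Finset.Ico (-1 : ℤ) (-1 + N)).erase jH := by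
    rw [Finset.mem_erase, Finset.mem_Ico]
    omega
  rw [← Finset.add_sum_erase _ _ hmem]
  have h1 : ∑ i ∈ ((Finset.Ico (-1 : ℤ) (-1 + N)).erase jH).erase jL, g i ≤
      (((Finset.Ico (-1 : ℤ) (-1 + N)).erase jH).erase jL).card • (206 / 10000 * T) := by
    apply Finset.sum_le_card_nsmul
    intro i hi
    rw [Finset.mem_erase, Finset.mem_erase, Finset.mem_Ico] at hi
    apply hF i <;> omega
  have h2 : (((Finset.Ico (-1 : ℤ) (-1 + N)).erase jH).erase jL).card ≤ 3 := by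
    rw [Finset.card_erase_of_mem hmem, Finset.card_erase_of_mem, Int.card_Ico]
    · omega
    · rw [Finset.mem_Ico]
      omega
  have h3 : (((Finset.Ico (-1 : ℤ) (-1 + N)).erase jH).erase jL).card • (206 / 10000 * T) ≤
      3 * (206 / 10000 * T) := by
    rw [nsmul_eq_mul]
    apply mul_le_mul_of_nonneg_right _ (by positivity)
    exact_mod_cast h2
  linarith only [hT, hL, hH, h1, h3]

theorem tl_regC_facts {N : ℕ} {r del : ℝ} (h : SokamV3.RegC N r del) :
    N ≤ 5 ∧ 0 < r * del ∧ r * del ≤ 173 / 100 ∧ Rng1 r (r * del) ∧ 0 < hst N ∧ hst N ≤ 2 * Real.pi / 3 := by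
  have hr := h.r0
  have hr0 : 0 < r := by linarith only [hr]
  have hρ : 0 < r * del := mul_pos hr0 h.d0
  have hpi := Real.pi_lt_d4
  have hpi0 := Real.pi_pos
  have hC := h.C
  unfold SokamV3.RR at hC
  have h3 : (3 : ℝ) ≤ N := by exact_mod_cast h.N3
  have hst0 : 0 < hst N := by unfold hst; positivity
  have hst3 : hst N ≤ 2 * Real.pi / 3 := by
    unfold hst
    exact div_le_div_of_nonneg_left (by positivity) (by norm_num) h3
  have hle : r * del ≤ 173 / 100 := by
    by_contra hlt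
    push Not at hlt
    have h4 : hst N ^ (2 : ℕ) ≤ (2 * Real.pi / 3) ^ (2 : ℕ) := by gcongr
    nlinarith only [hpi, hpi0, hC, hlt, h4]
  refine ⟨?_, hρ, hle, ⟨hr, hρ, Or.inl ?_⟩, hst0, hst3⟩
  · by_contra hlt
    push Not at hlt
    have h6 : (6 : ℝ) ≤ N := by exact_mod_cast hlt
    have h7 : hst N ≤ 2 * Real.pi / 6 := by
      unfold hst
      exact div_le_div_of_nonneg_left (by positivity) (by norm_num) h6
    have h8 : hst N ^ (2 : ℕ) ≤ (2 * Real.pi / 6) ^ (2 : ℕ) := by gcongr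
    nlinarith only [hpi, hpi0, hC, h8]
  · nlinarith only [hr, hρ, hle]

theorem tl_sE_nonneg {ρ y : ℝ} (h : Dom ρ y) (hy : 0 ≤ y) : 0 ≤ sE ρ y := by
  rcases hy.eq_or_lt with rfl | hy
  · rw [sE_zero h.1]
  · have h3 := sE_strictMonoOn (dom_zero h.1) h (by norm_num) (Set.left_mem_Icc.2 hy.le)
      (Set.right_mem_Icc.2 hy.le) hy
    rw [sE_zero h.1] at h3
    exact h3.le

theorem tl_sE_nonpos {ρ y : ℝ} (h : Dom ρ y) (hy1 : -1 ≤ y) (hy : y ≤ 0) : sE ρ y ≤ 0 := by
  rcases hy.eq_or_lt with rfl | hy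
  · rw [sE_zero h.1]
  · have h3 := sE_strictMonoOn h (dom_zero h.1) hy1 (Set.left_mem_Icc.2 hy.le)
      (Set.right_mem_Icc.2 hy.le) hy
    rw [sE_zero h.1] at h3
    exact h3.le

/-- LOC, with the estimates of the own wave and of the far waves as hypotheses. -/
theorem loc_of {N : ℕ} {r del x m : ℝ} (hR : SokamV3.RegC N r del) (hx0 : 0 ≤ x) (hx1 : x < 1) (hm : 0 ≤ m)
    (hnot : ¬ ∃ y0 y1, DD (r * del) y0 ∧ sE (r * del) y0 = x * hst N ∧
      DD (r * del) y1 ∧ sE (r * del) y1 = (x - 1) * hst N)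
    (hown : ∀ y, DD (r * del) y → 5 / 6 * Mm r (r * del) y ≤ ‖W0 r del (sE (r * del) y)‖ ∧
      ‖W1 r del (sE (r * del) y) - kp r (r * del) y * W0 r del (sE (r * del) y)‖ ≤
        3 * ‖W0 r del (sE (r * del) y)‖)
    (hfar : ∀ y, DD (r * del) y → (sE (r * del) y = x * hst N ∨ sE (r * del) y = (x - 1) * hst N) →
      |sE (r * del) y| ≤ hst N - 24 / 25 → ∀ i : ℤ, 1 ≤ i → i < -1 + N → ‖W0 r del ((x + i) * hst N)‖ ≤ 1 / 100 * Mm r (r * del) y ∧
        ‖W1 r del ((x + i) * hst N)‖ ≤ 1 / 100 * r * Mm r (r * del) y) :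
    ∃ j0 ∈ Finset.Ico (-1 : ℤ) (-1 + N), ∑ i ∈ (Finset.Ico (-1 : ℤ) (-1 + N)).erase j0,
      ‖W1 r del ((x + i) * hst N) + m * W0 r del ((x + i) * hst N)‖ <
        ‖W1 r del ((x + j0) * hst N) + m * W0 r del ((x + j0) * hst N)‖ := by
  obtain ⟨hN5, hρ, hρ1, hR1, hh0, hh3⟩ := tl_regC_facts hR
  have hr := hR.r0
  have hr0 : 0 < r := by linarith only [hr]
  have hN' : (3 : ℤ) ≤ N := by exact_mod_cast hR.N3
  have hδ : r * del / r = del := by field_simp
  set ρ := r * del with hρd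
  -- both cases at once
  have main : ∀ (y b : ℝ) (jH jL : ℤ), (jH = 0 ∧ jL = -1) ∨ (jH = -1 ∧ jL = 0) → DD ρ y → DD ρ b →
      GapC ρ y b ≤ 1 / 40 → sE ρ y = (x + jH) * hst N → |sE ρ y| ≤ hst N - 24 / 25 →
      ‖W0 r (ρ / r) ((x + jL) * hst N)‖ ≤ 15 * Mm r ρ b →
      ‖W1 r (ρ / r) ((x + jL) * hst N)‖ ≤ 15 * (r * Real.exp (-b)) * Mm r ρ b →
      ∃ j0 ∈ Finset.Ico (-1 : ℤ) (-1 + N), ∑ i ∈ (Finset.Ico (-1 : ℤ) (-1 + N)).erase j0,
        ‖W1 r del ((x + i) * hst N) + m * W0 r del ((x + i) * hst N)‖ <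
          ‖W1 r del ((x + j0) * hst N) + m * W0 r del ((x + j0) * hst N)‖ := by
    intro y b jH jL hj hy hb hG hyE hyh h0 h1
    rw [hδ] at h0 h1
    have hM : 0 < Mm r ρ y := by
      unfold Mm
      have := sD2_pos (ρ := ρ) (y := y) (by linarith only [hy.y0])
      positivity
    refine ⟨jH, ?_, ?_⟩
    · rw [Finset.mem_Ico]
      omega
    · refine tl_sum_lt (T := (r * Real.exp (-y) + m) * Mm r ρ y) hR.N3 hN5
        (g := fun i : ℤ => ‖W1 r del ((x + i) * hst N) + m * W0 r del ((x + i) * hst N)‖)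
        (mul_pos (by positivity) hM) hj ?_ ?_ ?_
      · exact tl_low_upper hr (by linarith only [hρ1]) hy hb hG hm h0 h1
      · intro i hi1 hi2
        obtain ⟨f0, f1⟩ := hfar y hy (by
          rw [hyE]
          rcases hj with ⟨rfl, -⟩ | ⟨rfl, -⟩
          · left
            push_cast
            ring
          · right
            push_cast
            ring) hyh i hi1 hi2
        exact tl_far_upper hr0 hy hm hM f0 f1
      · obtain ⟨o1, o2⟩ := hown y hy
        have h2 := tl_top_lower hr hy hm o1 o2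
        rw [hyE] at h2
        exact h2
  by_cases hA1 : ∃ y1, DD ρ y1 ∧ sE ρ y1 = (x - 1) * hst N
  · -- the positive wave is not in `DD`
    have hA0 : ¬ ∃ y0, DD ρ y0 ∧ sE ρ y0 = x * hst N := by
      rintro ⟨y0, h1, h2⟩
      obtain ⟨y1, h3, h4⟩ := hA1
      exact hnot ⟨y0, y1, h1, h2, h3, h4⟩
    obtain ⟨b, hb0, hb, hbb⟩ := bdry_pos hρ
    have hlt : sE ρ b < x * hst N := by
      by_contra hle
      push Not at hle
      obtain ⟨y, hy, hyE, -⟩ := DD_exists hb (Or.inr ⟨by positivity, hle⟩)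
      exact hA0 ⟨y, hy, hyE⟩
    have hxh : x * hst N ≤ hst N := by nlinarith only [hx1, hh0]
    have hB : Bd ρ b := ⟨hb, Or.inr (by
      rcases hbb with h | h
      · exact h
      · rw [h] at hlt
        linarith only [hh3, hlt, hxh])⟩
    have hsb := tl_sE_nonneg hb.dom hb0
    have hab : |sE ρ b| = sE ρ b := abs_of_nonneg hsb
    have h24 := bd_abs_ge hB
    have hη0 : (x - 1) * hst N ≤ 0 := mul_nonpos_of_nonpos_of_nonneg (by linarith only [hx1]) hh0.le
    obtain ⟨y, hy, hyE, hG⟩ := gap3 hB (η := (x - 1) * hst N) (Or.inr ⟨hb0, hη0⟩) (by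
      rw [abs_of_nonpos hη0, hab]
      linarith only [hh3, hlt])
    obtain ⟨m0, m1⟩ := mon_pos (ε := x * hst N - sE ρ b) hr hB hb0 (by linarith only [hlt]) (by
      rw [hab]
      linarith only [hh3, hη0])
    rw [add_sub_cancel] at m0 m1
    refine main y b (-1) 0 (Or.inr ⟨rfl, rfl⟩) hy hb hG ?_ ?_ ?_ ?_
    · rw [hyE]
      push_cast
      ring
    · rw [hyE, abs_of_nonpos hη0]
      rw [hab] at h24
      linarith only [hlt, h24]
    · simpa using m0
    · simpa using m1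
  · -- the negative wave is not in `DD`
    obtain ⟨b, hb0, hb, hbb⟩ := bdry_neg hρ
    have hη1 : (x - 1) * hst N ≤ 0 := mul_nonpos_of_nonpos_of_nonneg (by linarith only [hx1]) hh0.le
    have hlt : (x - 1) * hst N < sE ρ b := by
      by_contra hle
      push Not at hle
      obtain ⟨y, hy, hyE, -⟩ := DD_exists hb (Or.inl ⟨hle, hη1⟩)
      exact hA1 ⟨y, hy, hyE⟩
    have hxh : 0 ≤ x * hst N := by positivity
    have hB : Bd ρ b := ⟨hb, by
      rcases hbb with h | h
      · exact h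
      · rw [h] at hlt
        linarith only [hh3, hlt, hxh]⟩
    have hsb := tl_sE_nonpos hb.dom (by linarith only [hb.y0]) hb0
    have hab : |sE ρ b| = -sE ρ b := abs_of_nonpos hsb
    have h24 := bd_abs_ge hB
    obtain ⟨y, hy, hyE, hG⟩ := gap3 hB (η := x * hst N) (Or.inl ⟨hb0, hxh⟩) (by
      rw [abs_of_nonneg hxh, hab]
      linarith only [hh3, hlt])
    obtain ⟨m0, m1⟩ := mon_neg (ε := sE ρ b - (x - 1) * hst N) hr hB hb0 hρ1 (by linarith only [hlt]) (by
      rw [hab]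
      linarith only [hh3, hxh])
    rw [sub_sub_cancel] at m0 m1
    refine main y b 0 (-1) (Or.inl ⟨rfl, rfl⟩) hy hb hG ?_ ?_ ?_ ?_
    · rw [hyE]
      push_cast
      ring
    · rw [hyE, abs_of_nonneg hxh]
      rw [hab] at h24
      linarith only [hlt, h24]
    · have e : x + ((-1 : ℤ) : ℝ) = x - 1 := by push_cast; ring
      rw [e]
      exact m0
    · have e : x + ((-1 : ℤ) : ℝ) = x - 1 := by push_cast; ring
      rw [e]
      exact m1

end SokamF1T

end
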