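import Pool.Agent.Lib_MP_af4de1_zy.Z142
import Pool.Agent.Lib_MP_af4de1_zy.Z144

/-! ### Lib_MP_af4de1_v3.OwnS -/

section
namespace SokamF1
end SokamF1
namespace SokamF1B
end SokamF1B
namespace SokamF1G
end SokamF1G
namespace SokamF1M
end SokamF1M
namespace SokamF1S
end SokamF1S
namespace SokamPG
end SokamPG
namespace SokamU
end SokamU
/-!
# The own wave on the path with any break point `s1 ∈ [3/2, 1 + x]`
-/

set_option autoImplicit false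

open Complex MeasureTheory Set SokamU SokamPG SokamF1 SokamF1S SokamF1M SokamF1G SokamF1B

namespace SokamV3

theorem gi_inner {x s1 s : ℝ} {w : ℂ → ℂ} {κ t : ℂ} (hx : 0 ≤ x)
    (h1 : 3 / 2 ≤ s1 ∨ s1 = 1 + x) (h2 : s1 ≤ 1 + x) (hs : |s| < 3 / 2) :
    gi (1 + x)⁻¹ s1 w κ 0 t s = gi (1 + x)⁻¹ (1 + x) w κ 0 t s := by
  rcases h1 with h1 | h1
  swap
  · rw [h1]
  have hc : 0 < (1 + x)⁻¹ := inv_pos.2 (by linarith only [hx])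
  obtain ⟨h3, h4⟩ := abs_lt.1 hs
  have e1 : pv (1 + x)⁻¹ s1 s = pv (1 + x)⁻¹ (1 + x) s := by
    unfold pv
    rw [if_pos (by linarith only [hs, h1]), if_pos (by linarith only [h2, hs, h1])]
  have e2 : pz (1 + x)⁻¹ s1 s = pz (1 + x)⁻¹ (1 + x) s := by
    unfold pz
    rw [pc_mid hc (by linarith only [h1, h3]) (by linarith only [h1, h4]), pc_mid hc (by linarith only [h2, h1, h3]) (by linarith only [h2, h1, h4])]
  unfold gi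
  rw [e1, e2]

section

variable {x y δ la μ j2 j3 : ℝ} {hl : ℝ → ℝ} (h : HypH x y δ la μ j2 j3 hl) {s1 : ℝ}
  (h1 : 3 / 2 ≤ s1 ∨ s1 = 1 + x) (h2 : s1 ≤ 1 + x) (hk : |y| < (1 + x)⁻¹ * s1)

include h h1 h2 hk

theorem HypH_int_s {w : ℂ → ℂ} {K : ℝ} (hw : Wt w K) : Integrable
    (gi (1 + x)⁻¹ s1 w (((x : ℂ) + y * I) / δ) 0 (-((δ : ℂ) * I))) := by
  have hδ := h.hδ
  have hc := h.c0
  have hs := h.s0
  have hs1 : 0 < s1 := by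
    rcases h1 with h1 | h1
    · linarith only [h1]
    · rw [h1]; exact hs
  refine integrable_path hc hs1 ?_ hδ _ 0 ?_ hw
  · calc (1 + x)⁻¹ * s1 ≤ (1 + x)⁻¹ * (1 + x) := mul_le_mul_of_nonneg_left h2 hc.le
      _ = 1 := h.cs
  · have e : ((x : ℂ) + y * I) / δ = ((1 / δ : ℝ) : ℂ) * ((x : ℂ) + y * I) := by push_cast; ring
    have e2 : ((x : ℂ) + y * I).im = y := by simp
    rw [e, Complex.im_ofReal_mul, e2, abs_mul, abs_of_pos (by positivity : 0 < 1 / δ), one_div,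
      inv_mul_eq_div]
    gcongr

theorem HypH_br0_s : ‖br (1 + x)⁻¹ s1 δ (((x : ℂ) + y * I) / δ) (fun _ => 1) -
    ∫ s : ℝ, gau x y δ s‖ ≤
    ((∫ s in Ioo (-1 : ℝ) 1,
      ‖gi (1 + x)⁻¹ (1 + x) (fun _ => 1) (((x : ℂ) + y * I) / δ) 0 (-((δ : ℂ) * I)) s -
        gau x y δ s‖) +
    (∫ s in Ioo (-(3 / 2)) (3 / 2) \ Ioo (-1 : ℝ) 1,
      ‖gi (1 + x)⁻¹ (1 + x) (fun _ => 1) (((x : ℂ) + y * I) / δ) 0 (-((δ : ℂ) * I)) s‖) +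
    ∫ s in (Ioo (-1 : ℝ) 1)ᶜ, ‖gau x y δ s‖) +
    (∫ s in {s | 3 / 2 ≤ |s|},
      ‖gi (1 + x)⁻¹ s1 (fun _ => 1) (((x : ℂ) + y * I) / δ) 0 (-((δ : ℂ) * I)) s‖) := by
  have hx := h.hx
  have i1 := HypH_int_s h h1 h2 hk (wt_const 1)
  have i2 := h.i_gau
  set F := gi (1 + x)⁻¹ s1 (fun _ => 1) (((x : ℂ) + y * I) / δ) 0 (-((δ : ℂ) * I)) with hF
  have e1 : br (1 + x)⁻¹ s1 δ (((x : ℂ) + y * I) / δ) (fun _ => 1) -
      ∫ s : ℝ, gau x y δ s = ∫ s : ℝ, (F s - gau x y δ s) := by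
    rw [integral_sub i1 i2]
    rfl
  rw [e1]
  refine (norm_integral_le_integral_norm _).trans ?_
  have i3 : Integrable fun s => ‖F s - gau x y δ s‖ := (i1.sub i2).norm
  have hm := measurableSet_Ioo (a := -(1 : ℝ)) (b := 1)
  rw [← integral_add_compl hm i3]
  have e2 : ∫ s in (Ioo (-1 : ℝ) 1)ᶜ, ‖F s - gau x y δ s‖ ≤
      (∫ s in (Ioo (-1 : ℝ) 1)ᶜ, ‖F s‖) + ∫ s in (Ioo (-1 : ℝ) 1)ᶜ, ‖gau x y δ s‖ := by
    rw [← integral_add i1.norm.integrableOn i2.norm.integrableOn]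
    exact integral_mono i3.integrableOn (i1.norm.integrableOn.fun_add i2.norm.integrableOn)
      fun s => norm_sub_le _ _
  have e3 := split3 i1.norm
  have e4 := integral_add_compl hm i1.norm
  have e5 : ∫ s in Ioo (-1 : ℝ) 1, ‖F s - gau x y δ s‖ = ∫ s in Ioo (-1 : ℝ) 1,
      ‖gi (1 + x)⁻¹ (1 + x) (fun _ => 1) (((x : ℂ) + y * I) / δ) 0 (-((δ : ℂ) * I)) s -
        gau x y δ s‖ := by
    refine setIntegral_congr_fun hm fun s hs => ?_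
    simp only [hF]
    rw [gi_inner hx h1 h2 (abs_lt.2 ⟨by linarith only [hs.1], by linarith only [hs.2]⟩)]
  have e6 : ∫ s in Ioo (-(3 / 2)) (3 / 2) \ Ioo (-1 : ℝ) 1, ‖F s‖ =
      ∫ s in Ioo (-(3 / 2)) (3 / 2) \ Ioo (-1 : ℝ) 1,
      ‖gi (1 + x)⁻¹ (1 + x) (fun _ => 1) (((x : ℂ) + y * I) / δ) 0 (-((δ : ℂ) * I)) s‖ := by
    refine setIntegral_congr_fun (measurableSet_Ioo.diff measurableSet_Ioo) fun s hs => ?_
    simp only [hF]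
    rw [gi_inner hx h1 h2 (abs_lt.2 ⟨by linarith only [hs.1.1], by linarith only [hs.1.2]⟩)]
  rw [← e5, ← e6]
  linarith only [e2, e3, e4]

theorem HypH_brw_s {w : ℂ → ℂ} {K : ℝ} (hw : Wt w K) :
    ‖br (1 + x)⁻¹ s1 δ (((x : ℂ) + y * I) / δ) w‖ ≤
    ((∫ s in Ioo (-1 : ℝ) 1,
      ‖gi (1 + x)⁻¹ (1 + x) w (((x : ℂ) + y * I) / δ) 0 (-((δ : ℂ) * I)) s‖) +
    (∫ s in Ioo (-(3 / 2)) (3 / 2) \ Ioo (-1 : ℝ) 1,
      ‖gi (1 + x)⁻¹ (1 + x) w (((x : ℂ) + y * I) / δ) 0 (-((δ : ℂ) * I)) s‖)) +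
    (∫ s in {s | 3 / 2 ≤ |s|},
      ‖gi (1 + x)⁻¹ s1 w (((x : ℂ) + y * I) / δ) 0 (-((δ : ℂ) * I)) s‖) := by
  have hx := h.hx
  have i1 := HypH_int_s h h1 h2 hk hw
  set F := gi (1 + x)⁻¹ s1 w (((x : ℂ) + y * I) / δ) 0 (-((δ : ℂ) * I)) with hF
  have hm := measurableSet_Ioo (a := -(1 : ℝ)) (b := 1)
  have e5 : ∫ s in Ioo (-1 : ℝ) 1, ‖F s‖ = ∫ s in Ioo (-1 : ℝ) 1,
      ‖gi (1 + x)⁻¹ (1 + x) w (((x : ℂ) + y * I) / δ) 0 (-((δ : ℂ) * I)) s‖ := by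
    refine setIntegral_congr_fun hm fun s hs => ?_
    simp only [hF]
    rw [gi_inner hx h1 h2 (abs_lt.2 ⟨by linarith only [hs.1], by linarith only [hs.2]⟩)]
  have e6 : ∫ s in Ioo (-(3 / 2)) (3 / 2) \ Ioo (-1 : ℝ) 1, ‖F s‖ =
      ∫ s in Ioo (-(3 / 2)) (3 / 2) \ Ioo (-1 : ℝ) 1,
      ‖gi (1 + x)⁻¹ (1 + x) w (((x : ℂ) + y * I) / δ) 0 (-((δ : ℂ) * I)) s‖ := by
    refine setIntegral_congr_fun (measurableSet_Ioo.diff measurableSet_Ioo) fun s hs => ?_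
    simp only [hF]
    rw [gi_inner hx h1 h2 (abs_lt.2 ⟨by linarith only [hs.1.1], by linarith only [hs.1.2]⟩)]
  rw [← e5, ← e6, ← split3 i1.norm]
  exact norm_integral_le_integral_norm _

end

/-- The tails `∫_{|s| ≥ 3/2} ‖..‖` on the path with break point `s1`. -/
noncomputable def Tls (r δ y s1 : ℝ) (w : ℂ → ℂ) : ℝ :=
  ∫ s in {s : ℝ | 3 / 2 ≤ |s|},
    ‖gi (1 + sx (r * δ) y)⁻¹ s1 w (sK (r * δ) y / δ) 0 (-((δ : ℂ) * I)) s‖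

/-- `Own` from `HypH`, `Num` and the tails, any break point. -/
theorem own_of_num_s1 {r δ y la μ j2 j3 l γ θ θ2 d0 B0 g1 k0 ka kb kc k2 e a v0 τ0 τ1 τ2 s1 : ℝ}
    {hl : ℝ → ℝ} (h : HypH (sx (r * δ) y) y δ la μ j2 j3 hl)
    (n : Num (sx (r * δ) y) y δ la μ j2 j3 l γ θ θ2 d0 B0 g1 k0 ka kb kc k2)
    (h1 : 3 / 2 ≤ s1 ∨ s1 = 1 + sx (r * δ) y) (h2 : s1 ≤ 1 + sx (r * δ) y)
    (hk : |y| < (1 + sx (r * δ) y)⁻¹ * s1)
    (hD : Dom (r * δ) y) (he : e < 1)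
    (he0 : k0 + g1 / B0 + 1 / (1000 * B0) + τ0 ≤ e)
    (he1 : ka + kb + kc + 3546 / 1000 * l * g1 ≤ a * (1 - e))
    (he2 : k2 + 5319 / 1000 * (14143 / 10000) * l * g1 / d0 ≤ (v0 - 1) * (1 - e))
    (t0 : Tls r δ y s1 (fun _ => 1) ≤ τ0 * sG r δ y)
    (t1 : ‖kap r δ y‖ / sD (r * δ) y * Tls r δ y s1 gs ≤ τ1 * ((1 - e) * sG r δ y))
    (t2 : ‖kap r δ y‖ / sD (r * δ) y * Tls r δ y s1 (fun σ => σ * gs σ) ≤
      τ2 * (δ * ((1 - e) * sG r δ y))) :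
    Own r δ y e (a * kD r δ y + τ1) (v0 * (‖kap r δ y‖ / sD (r * δ) y) + τ2) := by
  have hδ := h.hδ
  have hy : -1 < y := (abs_lt.1 h.hy).1
  have hG := sG_pos (r := r) hδ hy
  have hDp : 0 < sD (r * δ) y := Real.sqrt_pos.2 (sD2_pos hy)
  have he' : 0 < 1 - e := by linarith only [he]
  have hK0 : 0 ≤ ‖sK (r * δ) y‖ := norm_nonneg _
  have b0 := (HypH_br0_s h h1 h2 hk).trans (add_le_add_left (h.i0 n) _)
  have b1 := (HypH_brw_s h h1 h2 hk wt_gs).trans (add_le_add_left (h.i1 n) _)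
  have b2 := (HypH_brw_s h h1 h2 hk wt_mul_gs).trans (add_le_add_left (h.i2 n) _)
  have hint := h.int_gau
  rw [← sG_eq_Gn] at b0 b1 b2 hint
  rw [← sD_eq_Dn] at b1
  have hKe : (((sx (r * δ) y : ℝ) : ℂ) + (y : ℂ) * I) = sK (r * δ) y := rfl
  rw [hKe] at b0 b1 b2
  have e0 : ∫ s in {s : ℝ | 3 / 2 ≤ |s|}, ‖gi (1 + sx (r * δ) y)⁻¹ s1 (fun _ => 1)
      (sK (r * δ) y / δ) 0 (-((δ : ℂ) * I)) s‖ = Tls r δ y s1 (fun _ => 1) := rfl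
  have e1 : ∫ s in {s : ℝ | 3 / 2 ≤ |s|}, ‖gi (1 + sx (r * δ) y)⁻¹ s1 gs
      (sK (r * δ) y / δ) 0 (-((δ : ℂ) * I)) s‖ = Tls r δ y s1 gs := rfl
  have e2 : ∫ s in {s : ℝ | 3 / 2 ≤ |s|}, ‖gi (1 + sx (r * δ) y)⁻¹ s1
      (fun σ => σ * gs σ) (sK (r * δ) y / δ) 0 (-((δ : ℂ) * I)) s‖ =
      Tls r δ y s1 (fun σ => σ * gs σ) := rfl
  rw [e0] at b0
  rw [e1] at b1
  rw [e2] at b2
  have hcs : (1 + sx (r * δ) y)⁻¹ * s1 ≤ 1 := by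
    have := mul_le_mul_of_nonneg_left h2 h.c0.le
    rwa [h.cs] at this
  have hs1 : 0 < s1 := by
    rcases h1 with h1 | h1
    · linarith only [h1]
    · rw [h1]; exact h.s0
  refine own_glue h.c0 hs1 hcs hδ hD hy hk he ?_ ?_ ?_
  · have h3 : ‖∫ s : ℝ, gau (sx (r * δ) y) y δ s‖ ≤
        ‖br (1 + sx (r * δ) y)⁻¹ s1 δ (sK (r * δ) y / δ) (fun _ => 1)‖ +
        ‖br (1 + sx (r * δ) y)⁻¹ s1 δ (sK (r * δ) y / δ) (fun _ => 1) -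
          ∫ s : ℝ, gau (sx (r * δ) y) y δ s‖ := by
      have := norm_sub_norm_le (∫ s : ℝ, gau (sx (r * δ) y) y δ s)
        (br (1 + sx (r * δ) y)⁻¹ s1 δ (sK (r * δ) y / δ) (fun _ => 1))
      rw [norm_sub_rev] at this
      linarith only [this]
    rw [hint] at h3
    have h4 : (k0 + g1 / B0 + 1 / (1000 * B0) + τ0) * sG r δ y ≤ e * sG r δ y := by gcongr
    linarith only [t0, b0, h3, h4]
  · rw [norm_kap_div hδ] at t1 ⊢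
    have h3 : ‖sK (r * δ) y‖ / δ * ((ka + kb + kc + 3546 / 1000 * l * g1) *
        (δ / sD (r * δ) y) * sG r δ y) ≤ ‖sK (r * δ) y‖ / δ * (a * (1 - e) *
        (δ / sD (r * δ) y) * sG r δ y) := by gcongr
    have h4 : ‖sK (r * δ) y‖ / δ * (a * (1 - e) * (δ / sD (r * δ) y) * sG r δ y) =
        a * kD r δ y * (sD (r * δ) y * ((1 - e) * sG r δ y)) := by
      have h5 : sD2 (r * δ) y = sD (r * δ) y ^ (2 : ℕ) := (Real.sq_sqrt (sD2_pos hy).le).symm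
      unfold kD
      rw [h5]
      field_simp
    have h6 : ‖sK (r * δ) y‖ / δ * Tls r δ y s1 gs ≤
        τ1 * (sD (r * δ) y * ((1 - e) * sG r δ y)) := by
      have h7 := mul_le_mul_of_nonneg_left t1 hDp.le
      have h8 : sD (r * δ) y * (‖sK (r * δ) y‖ / δ / sD (r * δ) y * Tls r δ y s1 gs) =
          ‖sK (r * δ) y‖ / δ * Tls r δ y s1 gs := by field_simp
      rw [h8] at h7
      linarith only [h7]
    have h9 := mul_le_mul_of_nonneg_left b1 (div_nonneg hK0 hδ.le)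
    rw [mul_add] at h9
    linarith only [h3, h4, h6, h9]
  · have hkD : 0 ≤ ‖kap r δ y‖ / sD (r * δ) y := by positivity
    have h3 : ‖br (1 + sx (r * δ) y)⁻¹ s1 δ (sK (r * δ) y / δ)
        (fun h => h * gs h)‖ / (δ * ((1 - e) * sG r δ y)) ≤
        ((v0 - 1) * (1 - e) * δ * sG r δ y + Tls r δ y s1 (fun σ => σ * gs σ)) /
          (δ * ((1 - e) * sG r δ y)) := by
      refine div_le_div_of_nonneg_right ?_ (by positivity)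
      refine b2.trans ?_
      gcongr
    have h4 : ((v0 - 1) * (1 - e) * δ * sG r δ y + Tls r δ y s1 (fun σ => σ * gs σ)) /
          (δ * ((1 - e) * sG r δ y)) =
        (v0 - 1) + Tls r δ y s1 (fun σ => σ * gs σ) / (δ * ((1 - e) * sG r δ y)) := by
      field_simp
    have h5 : ‖kap r δ y‖ / sD (r * δ) y * (Tls r δ y s1 (fun σ => σ * gs σ) /
        (δ * ((1 - e) * sG r δ y))) ≤ τ2 := by
      rw [← mul_div_assoc, div_le_iff₀ (by positivity)]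
      exact t2
    have h6 := mul_le_mul_of_nonneg_left (h3.trans_eq h4) hkD
    linarith only [h5, h6]

/-- The own wave for `0 ≤ y ≤ 18/25`, break point `s1`. -/
theorem own_pos_s1 {r δ y e a v0 τ0 τ1 τ2 s1 : ℝ} (hr : 499 / 10 ≤ r) (hδ : 0 < δ)
    (h1 : 3 / 2 ≤ s1 ∨ s1 = 1 + sx (r * δ) y) (h2 : s1 ≤ 1 + sx (r * δ) y)
    (hk : |y| < (1 + sx (r * δ) y)⁻¹ * s1)
    (hD : Dom (r * δ) y) (hy : 0 ≤ y) (hy1 : y ≤ 18 / 25) (he : e < 1)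
    (he0 : 155 / 2000 + τ0 ≤ e) (he1 : 7942 / 10000 ≤ a * (1 - e))
    (he2 : 218 / 1000 ≤ (v0 - 1) * (1 - e))
    (t0 : Tls r δ y s1 (fun _ => 1) ≤ τ0 * sG r δ y)
    (t1 : ‖kap r δ y‖ / sD (r * δ) y * Tls r δ y s1 gs ≤ τ1 * ((1 - e) * sG r δ y))
    (t2 : ‖kap r δ y‖ / sD (r * δ) y * Tls r δ y s1 (fun σ => σ * gs σ) ≤
      τ2 * (δ * ((1 - e) * sG r δ y))) :
    Own r δ y e (a * kD r δ y + τ1) (v0 * (‖kap r δ y‖ / sD (r * δ) y) + τ2) := by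
  have hx := sx_nonneg (r * δ) y
  exact own_of_num_s1 (hyp_pos hx hy hy1 hδ) (num_pos hx hy hy1 hδ hr (rd_eq hD)) h1 h2 hk hD he
    (by norm_num; linarith only [he0]) (by norm_num; linarith only [he1]) (by norm_num; linarith only [he2]) t0 t1 t2

/-- The own wave for `y ≤ 0`, break point `s1`. -/
theorem own_neg_s1 {r δ y e a v0 τ0 τ1 τ2 s1 : ℝ} (hr : 499 / 10 ≤ r) (hδ : 0 < δ)
    (h1 : 3 / 2 ≤ s1 ∨ s1 = 1 + sx (r * δ) y) (h2 : s1 ≤ 1 + sx (r * δ) y)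
    (hk : |y| < (1 + sx (r * δ) y)⁻¹ * s1)
    (hD : Dom (r * δ) y) (hF : NegF (sx (r * δ) y) y) (he : e < 1)
    (he0 : 1006 / 10000 + τ0 ≤ e) (he1 : 11536 / 10000 ≤ a * (1 - e))
    (he2 : 5287 / 10000 ≤ (v0 - 1) * (1 - e))
    (t0 : Tls r δ y s1 (fun _ => 1) ≤ τ0 * sG r δ y)
    (t1 : ‖kap r δ y‖ / sD (r * δ) y * Tls r δ y s1 gs ≤ τ1 * ((1 - e) * sG r δ y))
    (t2 : ‖kap r δ y‖ / sD (r * δ) y * Tls r δ y s1 (fun σ => σ * gs σ) ≤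
      τ2 * (δ * ((1 - e) * sG r δ y))) :
    Own r δ y e (a * kD r δ y + τ1) (v0 * (‖kap r δ y‖ / sD (r * δ) y) + τ2) :=
  own_of_num_s1 (hF.hyp hδ hr (rd_eq hD)) (hF.num hδ hr (rd_eq hD)) h1 h2 hk hD he
    (by norm_num; linarith only [he0]) (by norm_num; linarith only [he1]) (by norm_num; linarith only [he2]) t0 t1 t2

end SokamV3

end
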