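import Pool.Agent.Lib_MP_af4de1_zy.Z144

/-! ### Lib_MP_af4de1_f1.MainS4 -/

section
namespace SokamF1G
end SokamF1G
/-!
# The structural facts `NegF` on the small domain
-/

set_option autoImplicit false

open Real SokamF1G

namespace SokamF1B

theorem qf_sq' {x y : ℝ} (hx : 0 ≤ x) :
    Qf x y = (1 / (1 + x)) ^ (2 : ℕ) * ((1 + y) * (1 + x) + x ^ (2 : ℕ) + x ^ (3 : ℕ) / 2) := by
  have h : (1 : ℝ) + x ≠ 0 := by linarith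
  unfold Qf
  field_simp
  ring

theorem negF_small_a1 {x n : ℝ} (n0 : 0 ≤ n) (n1 : n ≤ 53 / 100) (hT : n ≤ 4 / 5 * x) :
    x ^ (2 : ℕ) + (-n) ^ (2 : ℕ) ≤ (21 / 20) ^ (2 : ℕ) * ((1 + -n) ^ (2 : ℕ) + x ^ (2 : ℕ)) := by
  have h1 : (5 / 4 * n) ^ (2 : ℕ) ≤ x ^ (2 : ℕ) := pow_le_pow_left₀ (by linarith) (by linarith) 2
  have h2 := sq_nonneg (n - 53 / 100)
  linarith

theorem negF_small_c {m : ℝ} (m0 : 47 / 100 ≤ m) (m1 : m ≤ 1) :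
    0 ≤ 332820 / 25000 * m - 33590 / 25000 * m ^ (2 : ℕ) - 4 ∧
    0 ≤ 199692 / 10000 * m - 4 * m ^ (2 : ℕ) - 8 ∧
    0 ≤ 66564 / 10000 * (1 + m) - m ^ (2 : ℕ) - 8 := by
  have h := mul_nonneg (sub_nonneg.2 m0) (sub_nonneg.2 m1)
  refine ⟨by linarith, by linarith, by linarith⟩

theorem negF_small_a2 {x n : ℝ} (hx : 0 ≤ x) (n0 : 0 ≤ n) (n1 : n ≤ 53 / 100) :
    x + 2 / 5 * n ≤ 3 / 5 * ((1 + -n) * (1 + x) + x ^ (2 : ℕ) + x ^ (3 : ℕ) / 2) * (1 + n) := by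
  have h3 : 0 ≤ n * x ^ (2 : ℕ) := by positivity
  have h4 : 0 ≤ (1 + n) * x ^ (3 : ℕ) := by positivity
  have h5 : n ^ (2 : ℕ) ≤ 53 / 100 * n := by nlinarith
  have h6 : n ^ (2 : ℕ) * x ≤ 281 / 1000 * x := by
    have : n ^ (2 : ℕ) ≤ 281 / 1000 := by nlinarith
    exact mul_le_mul_of_nonneg_right this hx
  nlinarith [sq_nonneg (x - 47 / 100)]

theorem negF_small_a3 {x n : ℝ} (n0 : 0 ≤ n) (hT : n ≤ 4 / 5 * x) :
    x ^ (2 : ℕ) + (-n) ^ (2 : ℕ) ≤ (x + 2 / 5 * n) ^ (2 : ℕ) := by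
  have h1 := mul_nonneg n0 (sub_nonneg.2 hT)
  have h2 := sq_nonneg n
  linarith

theorem negF_small {x y : ℝ} (hx : 0 ≤ x) (h0 : -(53 / 100) ≤ y) (h1 : y ≤ 0)
    (hT : -y ≤ 4 / 5 * x) (hD : 13 / 20 ≤ (1 + y) ^ (2 : ℕ) + x ^ (2 : ℕ)) : NegF x y := by
  have hd : 0 < 1 + x := by linarith
  obtain ⟨n, rfl⟩ : ∃ n, y = -n := ⟨-y, by ring⟩
  have n0 : 0 ≤ n := by linarith
  have n1 : n ≤ 53 / 100 := by linarith
  rw [neg_neg] at hT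
  have hD0 : 0 ≤ (1 + -n) ^ (2 : ℕ) + x ^ (2 : ℕ) := by positivity
  have hD2 : √((1 + -n) ^ (2 : ℕ) + x ^ (2 : ℕ)) ^ (2 : ℕ) = (1 + -n) ^ (2 : ℕ) + x ^ (2 : ℕ) := sq_sqrt hD0
  set D := √((1 + -n) ^ (2 : ℕ) + x ^ (2 : ℕ)) with hDd
  have hDp : 0 ≤ D := sqrt_nonneg _
  have hK : √(x ^ (2 : ℕ) + (-n) ^ (2 : ℕ)) ≤ 21 / 20 * D := by
    rw [sqrt_le_left (by positivity), mul_pow, hD2]
    exact negF_small_a1 n0 n1 hT
  have hK0 : 0 ≤ √(x ^ (2 : ℕ) + (-n) ^ (2 : ℕ)) := sqrt_nonneg _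
  have hE : exp (-n) ≤ 1 := by
    rw [exp_le_one_iff]
    linarith
  have hE0 := exp_pos (-n)
  -- `K exp y (1 + n) ≤ x + 2/5 n`
  have hK1 : √(x ^ (2 : ℕ) + (-n) ^ (2 : ℕ)) ≤ x + 2 / 5 * n := by
    rw [sqrt_le_left (by positivity)]
    exact negF_small_a3 n0 hT
  have hE1 : exp (-n) * (1 + n) ≤ 1 := by
    have h2 := add_one_le_exp n
    have h3 : exp (-n) * exp n = 1 := by rw [← exp_add]; simp
    calc exp (-n) * (1 + n) ≤ exp (-n) * exp n :=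
          mul_le_mul_of_nonneg_left (by linarith) hE0.le
      _ = 1 := h3
  have hKE : √(x ^ (2 : ℕ) + (-n) ^ (2 : ℕ)) * exp (-n) * (1 + n) ≤ x + 2 / 5 * n := by
    calc √(x ^ (2 : ℕ) + (-n) ^ (2 : ℕ)) * exp (-n) * (1 + n) =
          √(x ^ (2 : ℕ) + (-n) ^ (2 : ℕ)) * (exp (-n) * (1 + n)) := by ring
      _ ≤ √(x ^ (2 : ℕ) + (-n) ^ (2 : ℕ)) * 1 := mul_le_mul_of_nonneg_left hE1 hK0
      _ ≤ _ := by linarith
  have hcp : 0 ≤ (1 / (1 + x)) ^ (2 : ℕ) := by positivity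
  refine ⟨hx, by linarith, h1, by linarith, by linarith, ?_, ?_, ?_, ?_, ?_⟩
  · rw [qf_sq' hx]
    have e : 1 + (1 / (1 + x)) ^ (2 : ℕ) = (1 / (1 + x)) ^ (2 : ℕ) * ((1 + x) ^ (2 : ℕ) + 1) := by
      field_simp
    rw [e]
    have key : ((1 + x) ^ (2 : ℕ) + 1) * D ≤
        2 * (129 / 100) * ((1 + -n) * (1 + x) + x ^ (2 : ℕ) + x ^ (3 : ℕ) / 2) := by
      have hm : 0 ≤ 2 * (129 / 100) * ((1 + -n) * (1 + x) + x ^ (2 : ℕ) + x ^ (3 : ℕ) / 2) := by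
        have : 0 ≤ 1 + -n := by linarith
        positivity
      refine (abs_le_of_sq_le_sq' ?_ hm).2
      rw [mul_pow, hD2]
      obtain ⟨m, hmn⟩ : ∃ m, m = 1 + -n := ⟨_, rfl⟩
      rw [← hmn]
      have m0 : 47 / 100 ≤ m := by linarith
      have m1 : m ≤ 1 := by linarith
      obtain ⟨c2, c3, c4⟩ := negF_small_c m0 m1
      have e2 : (2 * (129 / 100) * (m * (1 + x) + x ^ (2 : ℕ) + x ^ (3 : ℕ) / 2)) ^ (2 : ℕ) -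
          ((1 + x) ^ (2 : ℕ) + 1) ^ (2 : ℕ) * (m ^ (2 : ℕ) + x ^ (2 : ℕ)) =
          26564 / 10000 * m ^ (2 : ℕ) + 53128 / 10000 * m ^ (2 : ℕ) * x +
          (332820 / 25000 * m - 33590 / 25000 * m ^ (2 : ℕ) - 4) * x ^ (2 : ℕ) +
          (199692 / 10000 * m - 4 * m ^ (2 : ℕ) - 8) * x ^ (3 : ℕ) +
          (66564 / 10000 * (1 + m) - m ^ (2 : ℕ) - 8) * x ^ (4 : ℕ) + 26564 / 10000 * x ^ (5 : ℕ) +
          6641 / 10000 * x ^ (6 : ℕ) := by ring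
      have e3 : 0 ≤ 26564 / 10000 * m ^ (2 : ℕ) + 53128 / 10000 * m ^ (2 : ℕ) * x +
          (332820 / 25000 * m - 33590 / 25000 * m ^ (2 : ℕ) - 4) * x ^ (2 : ℕ) +
          (199692 / 10000 * m - 4 * m ^ (2 : ℕ) - 8) * x ^ (3 : ℕ) +
          (66564 / 10000 * (1 + m) - m ^ (2 : ℕ) - 8) * x ^ (4 : ℕ) + 26564 / 10000 * x ^ (5 : ℕ) +
          6641 / 10000 * x ^ (6 : ℕ) := by positivity
      linarith
    calc (1 / (1 + x)) ^ (2 : ℕ) * ((1 + x) ^ (2 : ℕ) + 1) * D =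
          (1 / (1 + x)) ^ (2 : ℕ) * (((1 + x) ^ (2 : ℕ) + 1) * D) := by ring
      _ ≤ (1 / (1 + x)) ^ (2 : ℕ) *
          (2 * (129 / 100) * ((1 + -n) * (1 + x) + x ^ (2 : ℕ) + x ^ (3 : ℕ) / 2)) :=
          mul_le_mul_of_nonneg_left key hcp
      _ = _ := by ring
  · calc √(x ^ (2 : ℕ) + (-n) ^ (2 : ℕ)) ^ (3 : ℕ) * exp (-n) ≤ (21 / 20 * D) ^ (3 : ℕ) * 1 := by gcongr
      _ ≤ 6 / 5 * D ^ (3 : ℕ) := by
        have : 0 ≤ D ^ (3 : ℕ) := by positivity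
        have e : (21 / 20 * D) ^ (3 : ℕ) * 1 = 9261 / 8000 * D ^ (3 : ℕ) := by ring
        rw [e]
        linarith
  · calc √(x ^ (2 : ℕ) + (-n) ^ (2 : ℕ)) * exp (-n) ≤ 21 / 20 * D * 1 := by gcongr
      _ ≤ 2 * D ^ (3 : ℕ) := by
        have : D ^ (3 : ℕ) = D ^ (2 : ℕ) * D := by ring
        rw [this, hD2]
        have h2 := mul_le_mul_of_nonneg_right hD hDp
        linarith
  · rw [qf_sq' hx]
    have key : √(x ^ (2 : ℕ) + (-n) ^ (2 : ℕ)) * exp (-n) ≤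
        3 / 5 * ((1 + -n) * (1 + x) + x ^ (2 : ℕ) + x ^ (3 : ℕ) / 2) := by
      have h2 : x + 2 / 5 * n ≤
          3 / 5 * ((1 + -n) * (1 + x) + x ^ (2 : ℕ) + x ^ (3 : ℕ) / 2) * (1 + n) :=
        negF_small_a2 hx n0 n1
      have h3 := hKE.trans h2
      exact le_of_mul_le_mul_right h3 (by linarith)
    calc (1 / (1 + x)) ^ (2 : ℕ) * (√(x ^ (2 : ℕ) + (-n) ^ (2 : ℕ)) * exp (-n)) ≤
          (1 / (1 + x)) ^ (2 : ℕ) * (3 / 5 * ((1 + -n) * (1 + x) + x ^ (2 : ℕ) + x ^ (3 : ℕ) / 2)) :=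
          mul_le_mul_of_nonneg_left key hcp
      _ = _ := by ring
  · rw [qf_sq' hx]
    have key : √(x ^ (2 : ℕ) + (-n) ^ (2 : ℕ)) * exp (-n) * (1 + x) ^ (2 : ℕ) ≤
        21 / 10 * ((1 + -n) * (1 + x) + x ^ (2 : ℕ) + x ^ (3 : ℕ) / 2) := by
      have h2 : (x + 2 / 5 * n) * (1 + x) ^ (2 : ℕ) ≤
          21 / 10 * ((1 + -n) * (1 + x) + x ^ (2 : ℕ) + x ^ (3 : ℕ) / 2) * (1 + n) := by
        have a0 : 0 ≤ 21 / 10 * (1 - n ^ (2 : ℕ)) - 2 / 5 * n := by nlinarith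
        have a1 : 0 ≤ 21 / 10 * (1 - n ^ (2 : ℕ)) - 1 - 4 / 5 * n := by nlinarith
        have a2 : 0 ≤ 21 / 10 * (1 + n) - 2 - 2 / 5 * n := by nlinarith
        have a3 : 0 ≤ 21 / 20 * (1 + n) - 1 := by nlinarith
        have e : 21 / 10 * ((1 + -n) * (1 + x) + x ^ (2 : ℕ) + x ^ (3 : ℕ) / 2) * (1 + n) -
            (x + 2 / 5 * n) * (1 + x) ^ (2 : ℕ) =
            (21 / 10 * (1 - n ^ (2 : ℕ)) - 2 / 5 * n) +
            (21 / 10 * (1 - n ^ (2 : ℕ)) - 1 - 4 / 5 * n) * x +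
            (21 / 10 * (1 + n) - 2 - 2 / 5 * n) * x ^ (2 : ℕ) +
            (21 / 20 * (1 + n) - 1) * x ^ (3 : ℕ) := by ring
        have e2 : 0 ≤ (21 / 10 * (1 - n ^ (2 : ℕ)) - 2 / 5 * n) +
            (21 / 10 * (1 - n ^ (2 : ℕ)) - 1 - 4 / 5 * n) * x +
            (21 / 10 * (1 + n) - 2 - 2 / 5 * n) * x ^ (2 : ℕ) +
            (21 / 20 * (1 + n) - 1) * x ^ (3 : ℕ) := by positivity
        linarith
      have h3 := mul_le_mul_of_nonneg_right hKE (sq_nonneg (1 + x))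
      have h4 : √(x ^ (2 : ℕ) + (-n) ^ (2 : ℕ)) * exp (-n) * (1 + n) * (1 + x) ^ (2 : ℕ) =
          √(x ^ (2 : ℕ) + (-n) ^ (2 : ℕ)) * exp (-n) * (1 + x) ^ (2 : ℕ) * (1 + n) := by ring
      rw [h4] at h3
      exact le_of_mul_le_mul_right (h3.trans h2) (by linarith)
    calc √(x ^ (2 : ℕ) + (-n) ^ (2 : ℕ)) * exp (-n) =
          (1 / (1 + x)) ^ (2 : ℕ) * (√(x ^ (2 : ℕ) + (-n) ^ (2 : ℕ)) * exp (-n) * (1 + x) ^ (2 : ℕ)) := by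
          field_simp
      _ ≤ (1 / (1 + x)) ^ (2 : ℕ) * (21 / 10 * ((1 + -n) * (1 + x) + x ^ (2 : ℕ) + x ^ (3 : ℕ) / 2)) :=
          mul_le_mul_of_nonneg_left key hcp
      _ = _ := by ring

end SokamF1B

end
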