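import Pool.Agent.Lib_MP_af4de1_zy.Z142
import Pool.Agent.Lib_MP_af4de1_zy.Z146

/-! ### Lib_MP_af4de1_v3.OwnPN -/

section
namespace SokamF1
end SokamF1
namespace SokamF1B
end SokamF1B
namespace SokamF1G
end SokamF1G
namespace SokamF1M
end SokamF1M
namespace SokamF1S
end SokamF1S
namespace SokamPG
end SokamPG
namespace SokamU
end SokamU
/-!
# The own wave in general form: `own_pos`, `own_neg`
-/

set_option autoImplicit false

open Complex MeasureTheory Set SokamU SokamPG SokamF1 SokamF1S SokamF1M SokamF1G SokamF1B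

namespace SokamV3

/-- The own wave for `0 ≤ y ≤ 18/25`. -/
theorem own_pos {r δ y e a v0 τ0 τ1 τ2 : ℝ} (hr : 499 / 10 ≤ r) (hδ : 0 < δ)
    (hD : Dom (r * δ) y) (hy : 0 ≤ y) (hy1 : y ≤ 18 / 25) (he : e < 1)
    (he0 : 155 / 2000 + τ0 ≤ e) (he1 : 7942 / 10000 ≤ a * (1 - e))
    (he2 : 218 / 1000 ≤ (v0 - 1) * (1 - e))
    (t0 : Tl r δ y (fun _ => 1) ≤ τ0 * sG r δ y)
    (t1 : ‖kap r δ y‖ / sD (r * δ) y * Tl r δ y gs ≤ τ1 * ((1 - e) * sG r δ y))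
    (t2 : ‖kap r δ y‖ / sD (r * δ) y * Tl r δ y (fun σ => σ * gs σ) ≤
      τ2 * (δ * ((1 - e) * sG r δ y))) :
    Own r δ y e (a * kD r δ y + τ1) (v0 * (‖kap r δ y‖ / sD (r * δ) y) + τ2) := by
  have hx := sx_nonneg (r * δ) y
  exact own_of_num (hyp_pos hx hy hy1 hδ) (num_pos hx hy hy1 hδ hr (rd_eq hD)) hD he
    (by norm_num; linarith) (by norm_num; linarith) (by norm_num; linarith) t0 t1 t2

/-- The own wave for `y ≤ 0`. -/
theorem own_neg {r δ y e a v0 τ0 τ1 τ2 : ℝ} (hr : 499 / 10 ≤ r) (hδ : 0 < δ)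
    (hD : Dom (r * δ) y) (hF : NegF (sx (r * δ) y) y) (he : e < 1)
    (he0 : 1006 / 10000 + τ0 ≤ e) (he1 : 11536 / 10000 ≤ a * (1 - e))
    (he2 : 5287 / 10000 ≤ (v0 - 1) * (1 - e))
    (t0 : Tl r δ y (fun _ => 1) ≤ τ0 * sG r δ y)
    (t1 : ‖kap r δ y‖ / sD (r * δ) y * Tl r δ y gs ≤ τ1 * ((1 - e) * sG r δ y))
    (t2 : ‖kap r δ y‖ / sD (r * δ) y * Tl r δ y (fun σ => σ * gs σ) ≤
      τ2 * (δ * ((1 - e) * sG r δ y))) :
    Own r δ y e (a * kD r δ y + τ1) (v0 * (‖kap r δ y‖ / sD (r * δ) y) + τ2) :=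
  own_of_num (hF.hyp hδ hr (rd_eq hD)) (hF.num hδ hr (rd_eq hD)) hD he
    (by norm_num; linarith) (by norm_num; linarith) (by norm_num; linarith) t0 t1 t2

/-- The structural facts for `y ≤ 0` from `-53/100 ≤ y`, `-y ≤ 4/5 x`, `13/20 ≤ D²`. -/
theorem negF_sad {ρ y : ℝ} (h0 : -(53 / 100) ≤ y) (h1 : y ≤ 0)
    (hT : |y| ≤ 4 / 5 * sx ρ y) (hD : 13 / 20 ≤ sD2 ρ y) : NegF (sx ρ y) y := by
  rw [abs_of_nonpos h1] at hT
  exact negF_small (sx_nonneg ρ y) h0 h1 hT hD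

end SokamV3

end
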