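import Pool.Agent.Lib_MP_af4de1_zy.Z97
import Pool.Agent.Lib_MP_af4de1_zy.Z146

/-! ### Lib_MP_af4de1_v3o.OLR -/

section
namespace SokamF1G
end SokamF1G
set_option autoImplicit false

open Real SokamF1G

namespace SokamV3O

/-- the quadratic in `m` between its values at two points -/
theorem OLR_chord {A B C u v m : ℝ} (hu : u ≤ m) (hv : m ≤ v)
    (h0 : A ≤ 0) (h1 : 0 ≤ A * u ^ (2 : ℕ) + B * u + C) (h2 : 0 ≤ A * v ^ (2 : ℕ) + B * v + C) :
    0 ≤ A * m ^ (2 : ℕ) + B * m + C := by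
  rcases eq_or_lt_of_le (hu.trans hv) with h | h
  · have : m = u := le_antisymm (h ▸ hv) hu
    rw [this]
    exact h1
  have e : (v - u) * (A * m ^ (2 : ℕ) + B * m + C) = (v - m) * (A * u ^ (2 : ℕ) + B * u + C) +
      (m - u) * (A * v ^ (2 : ℕ) + B * v + C) + (v - u) * ((-A) * ((m - u) * (v - m))) := by
    ring
  have a1 := mul_nonneg (sub_nonneg.2 hv) h1
  have a2 := mul_nonneg (sub_nonneg.2 hu) h2
  have a3 := mul_nonneg (sub_pos.2 h).le (mul_nonneg (neg_nonneg.2 h0)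
    (mul_nonneg (sub_nonneg.2 hu) (sub_nonneg.2 hv)))
  have : 0 ≤ (v - u) * (A * m ^ (2 : ℕ) + B * m + C) := by
    rw [e]
    linarith only [a1, a2, a3]
  exact nonneg_of_mul_nonneg_right this (sub_pos.2 h)

/-- the same for a convex quadratic with room `K (v-u)^2/4 ≤ value at the ends` -/
theorem OLR_chord' {A B C K u v m : ℝ} (hu : u ≤ m) (hv : m ≤ v)
    (h0 : A ≤ K) (hK : 0 ≤ K) (h1 : K * (v - u) ^ (2 : ℕ) / 4 ≤ A * u ^ (2 : ℕ) + B * u + C)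
    (h2 : K * (v - u) ^ (2 : ℕ) / 4 ≤ A * v ^ (2 : ℕ) + B * v + C) :
    0 ≤ A * m ^ (2 : ℕ) + B * m + C := by
  rcases eq_or_lt_of_le (hu.trans hv) with h | h
  · have : m = u := le_antisymm (h ▸ hv) hu
    rw [this]
    rw [← h] at h1
    linarith only [h1]
  have e : (v - u) * (A * m ^ (2 : ℕ) + B * m + C) = (v - m) * (A * u ^ (2 : ℕ) + B * u + C) +
      (m - u) * (A * v ^ (2 : ℕ) + B * v + C) - (v - u) * (A * ((m - u) * (v - m))) := by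
    ring
  have a1 := mul_le_mul_of_nonneg_left h1 (sub_nonneg.2 hv)
  have a2 := mul_le_mul_of_nonneg_left h2 (sub_nonneg.2 hu)
  have a4 : 0 ≤ (m - u) * (v - m) := mul_nonneg (sub_nonneg.2 hu) (sub_nonneg.2 hv)
  have a5 : (m - u) * (v - m) ≤ (v - u) ^ (2 : ℕ) / 4 := by linarith only [sq_nonneg (m - u - (v - m))]
  have a3 : (v - u) * (A * ((m - u) * (v - m))) ≤ (v - u) * (K * ((v - u) ^ (2 : ℕ) / 4)) :=
    mul_le_mul_of_nonneg_left ((mul_le_mul_of_nonneg_right h0 a4).trans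
      (mul_le_mul_of_nonneg_left a5 hK)) (sub_pos.2 h).le
  have : 0 ≤ (v - u) * (A * m ^ (2 : ℕ) + B * m + C) := by
    rw [e]
    linarith only [a1, a2, a3]
  exact nonneg_of_mul_nonneg_right this (sub_pos.2 h)

/-- the squared inequality -/
theorem OLR_key {x n : ℝ} (hx : 0 ≤ x) (h0 : 0 ≤ n) (h1 : n ≤ 53 / 100) (hT : n ≤ 4 / 5 * x) :
    ((1 + x) ^ (2 : ℕ) + 1) ^ (2 : ℕ) * ((1 - n) ^ (2 : ℕ) + x ^ (2 : ℕ)) ≤
      529 / 100 * ((1 + x) * (1 - n) + x ^ (2 : ℕ) * (2 + x) / 2) ^ (2 : ℕ) := by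
  suffices H : 0 ≤ (529 / 100 * (1 + x) ^ (2 : ℕ) - ((1 + x) ^ (2 : ℕ) + 1) ^ (2 : ℕ)) * n ^ (2 : ℕ) +
      (-(529 / 50 * (1 + x) * ((1 + x) + x ^ (2 : ℕ) * (2 + x) / 2)) + 2 * ((1 + x) ^ (2 : ℕ) + 1) ^ (2 : ℕ)) * n +
      (529 / 100 * ((1 + x) + x ^ (2 : ℕ) * (2 + x) / 2) ^ (2 : ℕ) -
        ((1 + x) ^ (2 : ℕ) + 1) ^ (2 : ℕ) * (1 + x ^ (2 : ℕ))) by
    have e : 529 / 100 * ((1 + x) * (1 - n) + x ^ (2 : ℕ) * (2 + x) / 2) ^ (2 : ℕ) -
        ((1 + x) ^ (2 : ℕ) + 1) ^ (2 : ℕ) * ((1 - n) ^ (2 : ℕ) + x ^ (2 : ℕ)) =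
        (529 / 100 * (1 + x) ^ (2 : ℕ) - ((1 + x) ^ (2 : ℕ) + 1) ^ (2 : ℕ)) * n ^ (2 : ℕ) +
      (-(529 / 50 * (1 + x) * ((1 + x) + x ^ (2 : ℕ) * (2 + x) / 2)) + 2 * ((1 + x) ^ (2 : ℕ) + 1) ^ (2 : ℕ)) * n +
      (529 / 100 * ((1 + x) + x ^ (2 : ℕ) * (2 + x) / 2) ^ (2 : ℕ) -
        ((1 + x) ^ (2 : ℕ) + 1) ^ (2 : ℕ) * (1 + x ^ (2 : ℕ))) := by
      ring
    linarith only [H]
  -- value at `n = 0`
  have E0 : 529 / 100 * ((1 + x) + x ^ (2 : ℕ) * (2 + x) / 2) ^ (2 : ℕ) - ((1 + x) ^ (2 : ℕ) + 1) ^ (2 : ℕ) * (1 + x ^ (2 : ℕ)) =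
      129 / 100 + 129 / 50 * x + 387 / 100 * x ^ (2 : ℕ) + 387 / 100 * x ^ (3 : ℕ) + 79 / 50 * x ^ (4 : ℕ) +
      129 / 100 * x ^ (5 : ℕ) + 129 / 400 * x ^ (6 : ℕ) := by ring
  have V0 : 129 / 100 + 129 / 50 * x ≤ 529 / 100 * ((1 + x) + x ^ (2 : ℕ) * (2 + x) / 2) ^ (2 : ℕ) -
      ((1 + x) ^ (2 : ℕ) + 1) ^ (2 : ℕ) * (1 + x ^ (2 : ℕ)) := by
    rw [E0]
    have : 0 ≤ 387 / 100 * x ^ (2 : ℕ) + 387 / 100 * x ^ (3 : ℕ) + 79 / 50 * x ^ (4 : ℕ) +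
      129 / 100 * x ^ (5 : ℕ) + 129 / 400 * x ^ (6 : ℕ) := by positivity
    linarith only [this]
  rcases le_total x (53 / 80) with hxs | hxl
  · -- small `x`
    have L0 : 0 ≤ 529 / 100 * (1 + x) ^ (2 : ℕ) - ((1 + x) ^ (2 : ℕ) + 1) ^ (2 : ℕ) := by
      nlinarith only [mul_nonneg (mul_nonneg (mul_nonneg hx hx) hx) (sub_nonneg.2 hxs)]
    have L1 : 529 / 100 * (1 + x) ^ (2 : ℕ) - ((1 + x) ^ (2 : ℕ) + 1) ^ (2 : ℕ) ≤ 9 / 5 := by
      linarith only [sq_nonneg ((1 + x) ^ (2 : ℕ) + 1 - 529 / 200)]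
    refine OLR_chord' (u := 0) (v := 4 / 5 * x) h0 hT le_rfl L0 ?_ ?_
    · have h2 := mul_le_mul_of_nonneg_right L1 (sq_nonneg (4 / 5 * x - 0))
      nlinarith only [mul_nonneg hx (sub_nonneg.2 hxs)]
    · have e : (529 / 100 * (1 + x) ^ (2 : ℕ) - ((1 + x) ^ (2 : ℕ) + 1) ^ (2 : ℕ)) * (4 / 5 * x) ^ (2 : ℕ) +
          (-(529 / 50 * (1 + x) * ((1 + x) + x ^ (2 : ℕ) * (2 + x) / 2)) +
            2 * ((1 + x) ^ (2 : ℕ) + 1) ^ (2 : ℕ)) * (4 / 5 * x) +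
          (529 / 100 * ((1 + x) + x ^ (2 : ℕ) * (2 + x) / 2) ^ (2 : ℕ) -
            ((1 + x) ^ (2 : ℕ) + 1) ^ (2 : ℕ) * (1 + x ^ (2 : ℕ))) -
          (529 / 100 * (1 + x) ^ (2 : ℕ) - ((1 + x) ^ (2 : ℕ) + 1) ^ (2 : ℕ)) * (4 / 5 * x - 0) ^ (2 : ℕ) / 4 =
          129 / 100 + 129 / 250 * x + 903 / 2500 * x ^ (2 : ℕ) + 2451 / 2500 * x ^ (3 : ℕ) -
            7521 / 1250 * x ^ (4 : ℕ) - 1631 / 500 * x ^ (5 : ℕ) - 63 / 400 * x ^ (6 : ℕ) := by ring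
      have x2 : 0 ≤ x ^ (2 : ℕ) := by positivity
      have x3 : 0 ≤ x ^ (3 : ℕ) := by positivity
      have x4 : x ^ (4 : ℕ) ≤ 53 / 80 * x ^ (3 : ℕ) := by linarith only [mul_nonneg x3 (sub_nonneg.2 hxs)]
      have x5 : x ^ (5 : ℕ) ≤ (53 / 80) ^ (2 : ℕ) * x ^ (3 : ℕ) := by
        linarith only [x4, mul_nonneg (mul_nonneg x3 hx) (sub_nonneg.2 hxs)]
      have x6 : x ^ (6 : ℕ) ≤ (53 / 80) ^ (3 : ℕ) * x ^ (3 : ℕ) := by
        linarith only [x5, mul_nonneg (mul_nonneg (mul_nonneg x3 hx) hx) (sub_nonneg.2 hxs)]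
      have y3 : x ^ (3 : ℕ) ≤ (53 / 80) ^ (3 : ℕ) := pow_le_pow_left₀ hx hxs 3
      have y2 : x ^ (3 : ℕ) ≤ 53 / 80 * x ^ (2 : ℕ) := by linarith only [mul_nonneg x2 (sub_nonneg.2 hxs)]
      nlinarith only [y3, y2, mul_nonneg hx (sub_nonneg.2 hxs)]
  · have L1 : 529 / 100 * (1 + x) ^ (2 : ℕ) - ((1 + x) ^ (2 : ℕ) + 1) ^ (2 : ℕ) ≤ 1 / 2 := by
      obtain ⟨t, rfl⟩ : ∃ t, x = 53 / 80 + t := ⟨x - 53 / 80, by ring⟩
      have ht : 0 ≤ t := by linarith only [hxl]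
      nlinarith only [mul_nonneg (mul_nonneg ht ht) ht, mul_nonneg (mul_nonneg ht ht) (mul_nonneg ht ht)]
    refine OLR_chord' (K := 1 / 2) (u := 0) (v := 53 / 100) h0 h1 L1 (by norm_num) ?_ ?_
    · norm_num
      nlinarith only [hxl]
    · obtain ⟨t, rfl⟩ : ∃ t, x = 53 / 80 + t := ⟨x - 53 / 80, by ring⟩
      have ht : 0 ≤ t := by linarith only [hxl]
      have e : (529 / 100 * (1 + (53 / 80 + t)) ^ (2 : ℕ) - ((1 + (53 / 80 + t)) ^ (2 : ℕ) + 1) ^ (2 : ℕ)) *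
            (53 / 100) ^ (2 : ℕ) +
          (-(529 / 50 * (1 + (53 / 80 + t)) * ((1 + (53 / 80 + t)) +
            (53 / 80 + t) ^ (2 : ℕ) * (2 + (53 / 80 + t)) / 2)) +
            2 * ((1 + (53 / 80 + t)) ^ (2 : ℕ) + 1) ^ (2 : ℕ)) * (53 / 100) +
          (529 / 100 * ((1 + (53 / 80 + t)) + (53 / 80 + t) ^ (2 : ℕ) * (2 + (53 / 80 + t)) / 2) ^ (2 : ℕ) -
            ((1 + (53 / 80 + t)) ^ (2 : ℕ) + 1) ^ (2 : ℕ) * (1 + (53 / 80 + t) ^ (2 : ℕ))) =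
          54384877454441 / 104857600000000 + (106067739919 / 655360000000 * t ^ (1 : ℕ) + 3455174803 / 3276800000 * t ^ (2 : ℕ) + 252646497 / 51200000 * t ^ (3 : ℕ) + 15236439 / 2560000 * t ^ (4 : ℕ) + 41151 / 16000 * t ^ (5 : ℕ) + 129 / 400 * t ^ (6 : ℕ)) := by ring
      have p : 0 ≤ 106067739919 / 655360000000 * t ^ (1 : ℕ) + 3455174803 / 3276800000 * t ^ (2 : ℕ) + 252646497 / 51200000 * t ^ (3 : ℕ) + 15236439 / 2560000 * t ^ (4 : ℕ) + 41151 / 16000 * t ^ (5 : ℕ) + 129 / 400 * t ^ (6 : ℕ) := by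
        positivity
      rw [e]
      norm_num
      linarith only [p]

/-- steepness, right side; true supremum `1.1194` (at `x = .6625`, `n = .53`) -/
theorem lR {x n : ℝ} (hx : 0 ≤ x) (h0 : 0 ≤ n) (h1 : n ≤ 53 / 100) (hT : n ≤ 4 / 5 * x) :
    (1 + (1 / (1 + x)) ^ (2 : ℕ)) * √((1 - n) ^ (2 : ℕ) + x ^ (2 : ℕ)) ≤ 2 * (23 / 20) * Qf x (-n) := by
  have hX : 0 < 1 + x := by linarith only [hx]
  have hW : 0 ≤ (1 + x) * (1 - n) + x ^ (2 : ℕ) * (2 + x) / 2 := by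
    have : 0 ≤ 1 - n := by linarith only [h1]
    positivity
  have key := OLR_key hx h0 h1 hT
  have hQ : Qf x (-n) = ((1 + x) * (1 - n) + x ^ (2 : ℕ) * (2 + x) / 2) / (1 + x) ^ (2 : ℕ) := by
    unfold Qf
    field_simp
    ring
  have hc : 1 + (1 / (1 + x)) ^ (2 : ℕ) = ((1 + x) ^ (2 : ℕ) + 1) / (1 + x) ^ (2 : ℕ) := by
    field_simp
  rw [hQ, hc, div_mul_eq_mul_div, mul_div_assoc', div_le_div_iff_of_pos_right (by positivity)]
  have h2 : √((1 - n) ^ (2 : ℕ) + x ^ (2 : ℕ)) ≤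
      2 * (23 / 20) * ((1 + x) * (1 - n) + x ^ (2 : ℕ) * (2 + x) / 2) / ((1 + x) ^ (2 : ℕ) + 1) := by
    rw [Real.sqrt_le_iff]
    refine ⟨by positivity, ?_⟩
    rw [div_pow, le_div_iff₀ (by positivity)]
    linarith only [key]
  rw [le_div_iff₀ (by positivity)] at h2
  linarith only [h2]

/-- true supremum `.41` -/
theorem gR {x n : ℝ} (hx : 0 ≤ x) (h0 : 0 ≤ n) (h1 : n ≤ 53 / 100) (hT : n ≤ 4 / 5 * x) :
    (1 / (1 + x)) ^ (2 : ℕ) * (√(x ^ (2 : ℕ) + n ^ (2 : ℕ)) * exp (-n)) ≤ 9 / 20 * Qf x (-n) := by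
  have hX : 0 < 1 + x := by linarith only [hx]
  have hQ : Qf x (-n) = ((1 + x) * (1 - n) + x ^ (2 : ℕ) * (2 + x) / 2) / (1 + x) ^ (2 : ℕ) := by
    unfold Qf
    field_simp
    ring
  have hk : √(x ^ (2 : ℕ) + n ^ (2 : ℕ)) ≤ x + 2 / 5 * n := by
    rw [Real.sqrt_le_iff]
    refine ⟨by positivity, ?_⟩
    nlinarith only [mul_nonneg h0 (sub_nonneg.2 hT)]
  have he : exp (-n) * (1 + n) ≤ 1 := by
    have h2 := Real.add_one_le_exp n
    have h3 := mul_le_mul_of_nonneg_left h2 (exp_pos (-n)).le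
    rw [← Real.exp_add, neg_add_cancel, Real.exp_zero] at h3
    linarith only [h3]
  have hpoly : x + 2 / 5 * n ≤ 9 / 20 * ((1 + n) * ((1 + x) * (1 - n) + x ^ (2 : ℕ) * (2 + x) / 2)) := by
    suffices H : 0 ≤ (-(9 / 20 * (1 + x))) * n ^ (2 : ℕ) + (9 / 20 * (x ^ (2 : ℕ) * (2 + x) / 2) - 2 / 5) * n +
        (9 / 20 * ((1 + x) + x ^ (2 : ℕ) * (2 + x) / 2) - x) by
      linarith only [H]
    have hA : -(9 / 20 * (1 + x)) ≤ 0 := by linarith only [hX]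
    have hz : 0 ≤ 9 / 20 * ((1 + x) + x ^ (2 : ℕ) * (2 + x) / 2) - x := by
      nlinarith only [mul_nonneg hx (mul_nonneg hx hx)]
    rcases le_total x (53 / 80) with hxs | hxl
    · refine OLR_chord (u := 0) (v := 4 / 5 * x) h0 hT hA ?_ ?_
      · simpa using hz
      · nlinarith only [hxs, mul_nonneg (mul_nonneg hx hx) (mul_nonneg hx hx)]
    · refine OLR_chord (u := 0) (v := 53 / 100) h0 h1 hA ?_ ?_
      · simpa using hz
      · obtain ⟨t, rfl⟩ : ∃ t, x = 53 / 80 + t := ⟨x - 53 / 80, by ring⟩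
        have ht : 0 ≤ t := by linarith only [hxl]
        nlinarith only [ht]
  rw [hQ, mul_div_assoc', div_pow, one_pow, one_div, inv_mul_eq_div,
    div_le_div_iff_of_pos_right (by positivity)]
  have hW : 0 ≤ (1 + x) * (1 - n) + x ^ (2 : ℕ) * (2 + x) / 2 := by
    have : 0 ≤ 1 - n := by linarith only [h1]
    positivity
  have hex := exp_pos (-n)
  calc √(x ^ (2 : ℕ) + n ^ (2 : ℕ)) * exp (-n) ≤ (x + 2 / 5 * n) * exp (-n) :=
        mul_le_mul_of_nonneg_right hk hex.le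
    _ ≤ (9 / 20 * ((1 + n) * ((1 + x) * (1 - n) + x ^ (2 : ℕ) * (2 + x) / 2))) * exp (-n) :=
        mul_le_mul_of_nonneg_right hpoly hex.le
    _ = 9 / 20 * ((1 + x) * (1 - n) + x ^ (2 : ℕ) * (2 + x) / 2) * (exp (-n) * (1 + n)) := by ring
    _ ≤ 9 / 20 * ((1 + x) * (1 - n) + x ^ (2 : ℕ) * (2 + x) / 2) * 1 :=
        mul_le_mul_of_nonneg_left he (by positivity)
    _ = 9 / 20 * ((1 + x) * (1 - n) + x ^ (2 : ℕ) * (2 + x) / 2) := by ring

end SokamV3O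

end

/-! ### Lib_MP_af4de1_v3o.OCore -/

section
namespace SokamPG
end SokamPG
/-!
# The core `|s| ≤ 3/2`
-/

set_option autoImplicit false

open Complex MeasureTheory Set SokamPG

namespace SokamV3O

theorem cq_le {c B g κ : ℝ} (hB : 0 < B) (hc : 0 ≤ c) (hg : c ^ (2 : ℕ) / B ≤ g)
    (h : Real.pi * g ≤ κ ^ (2 : ℕ)) (hκ : 0 ≤ κ) : c * √(Real.pi / B) ≤ κ := by
  have hp := Real.pi_pos
  have h1 : (c * √(Real.pi / B)) ^ (2 : ℕ) ≤ κ ^ (2 : ℕ) := by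
    rw [mul_pow, Real.sq_sqrt (by positivity)]
    calc c ^ (2 : ℕ) * (Real.pi / B) = Real.pi * (c ^ (2 : ℕ) / B) := by ring
      _ ≤ Real.pi * g := by gcongr
      _ ≤ κ ^ (2 : ℕ) := h
  exact (sq_le_sq₀ (by (clear * - hc hB; positivity)) hκ).1 h1

/-- the middle part -/
theorem mid_int {C A : ℝ} {F : ℝ → ℝ} (hFi : IntervalIntegrable F volume 1 (3 / 2))
    (hF : ∀ s : ℝ, 1 ≤ s → s ≤ 3 / 2 → F s ≤ C * A) :
    ∫ s in (1 : ℝ)..(3 / 2), F s ≤ 1 / 2 * (C * A) := by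
  have h := intervalIntegral.integral_mono_on (by norm_num : (1 : ℝ) ≤ 3 / 2) hFi
    (intervalIntegrable_const (c := C * A)) fun s hs => hF s hs.1 hs.2
  rw [intervalIntegral.integral_const, smul_eq_mul] at h
  linarith only [h]

/-- The four parts of the core. -/
noncomputable def coreS (F : ℝ → ℝ) : ℝ :=
  (∫ s in (0 : ℝ)..1, F s) + (∫ s in (1 : ℝ)..(3 / 2), F s) +
    ((∫ s in (0 : ℝ)..1, F (-s)) + ∫ s in (1 : ℝ)..(3 / 2), F (-s))

theorem D_pos {x y : ℝ} (hy : -1 < y) : 0 < √((1 + y) ^ (2 : ℕ) + x ^ (2 : ℕ)) := by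
  apply Real.sqrt_pos.2
  have : 0 < (1 + y) ^ (2 : ℕ) := by
    have : 0 < 1 + y := by linarith only [hy]
    positivity
  (clear * - this; positivity)

/-- The core, `y ≥ 0`. -/
theorem coreL {x y δ r t w : ℝ} {j : ℕ} {F : ℝ → ℝ} (hx : 0 ≤ x) (hy : 0 ≤ y)
    (hy1 : y ≤ 18 / 25) (hδ : 0 < δ) (hr : 499 / 10 ≤ r)
    (hrd : r * δ = √(x ^ (2 : ℕ) + y ^ (2 : ℕ)) * Real.exp y) (hj : j ≤ 1) (hFi : Integrable F)
    (t0 : 0 < t) (t1 : t ≤ 1) (hw : Real.exp (-w) ≤ t * √t)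
    (h1 : ∀ s : ℝ, 0 ≤ s → s ≤ 1 → F s ≤ √(1 + ((1 + x)⁻¹) ^ (2 : ℕ)) *
      (Real.exp (j * ((1 + x)⁻¹ * s)) *
        Real.exp (-(w + t * (10 / 11 * (SokamF1G.Qf x y / δ) * s ^ (2 : ℕ))))))
    (h2 : ∀ v : ℝ, 0 ≤ v → v ≤ 1 → F (-v) ≤ √(1 + ((1 + x)⁻¹) ^ (2 : ℕ)) *
      Real.exp (-(0 + 1 * ((SokamF1G.Qf x y / δ) * ((1 - 3 / 10 * v) * v ^ (2 : ℕ))))))
    (h3 : ∀ s : ℝ, 1 ≤ s → s ≤ 3 / 2 → F s ≤ √(1 + ((1 + x)⁻¹) ^ (2 : ℕ)) *
      (Real.exp 1 * Real.exp (-(11 / 20 * (SokamF1G.Qf x y / δ)))))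
    (h4 : ∀ v : ℝ, 1 ≤ v → v ≤ 3 / 2 → F (-v) ≤ √(1 + ((1 + x)⁻¹) ^ (2 : ℕ)) *
      Real.exp (-(11 / 20 * (SokamF1G.Qf x y / δ)))) :
    coreS F ≤ 1124 / 1000 * Gn x y δ := by
  have hp1 := Real.pi_gt_d4
  have hp2 := Real.pi_lt_d4
  have hp := Real.pi_pos
  have hr0 : 0 < r := by linarith only [hr]
  have hX : 0 < 1 + x := by linarith only [hx]
  have hc : 0 ≤ (1 + x)⁻¹ := by (clear * - hx; positivity)
  have hc1 : (1 + x)⁻¹ ≤ 1 := inv_le_one_of_one_le₀ (by linarith only [hx])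
  have hQ : 0 < SokamF1G.Qf x y := by
    have hb := SokamF1B.s1_B hx hy hy1
    rw [← hrd] at hb
    have : 0 < r * δ := by (clear * - hr hδ; positivity)
    linarith only [hb, this]
  have hbB := SokamF1B.s1_B hx hy hy1
  have hbg := SokamF1B.s1_gam hx hy hy1
  have hbl := SokamF1B.s1_l hx hy hy1
  rw [← hrd] at hbB hbg
  obtain ⟨B, hB⟩ : ∃ B, B = SokamF1G.Qf x y / δ := ⟨_, rfl⟩
  rw [← hB] at h1 h2 h3 h4
  have hBQ : B * δ = SokamF1G.Qf x y := by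
    rw [hB]
    field_simp
  have hB1 : 11088 / 1000 ≤ B := by
    rw [hB, le_div_iff₀ hδ]
    have : 499 / 10 * δ ≤ r * δ := by gcongr
    linarith only [hQ, hbB, this]
  have hB0 : 0 < B := by linarith only [hB1]
  set c := (1 + x)⁻¹ with hcd
  set C := √(1 + c ^ (2 : ℕ)) with hCd
  set q := √(Real.pi / B) with hqd
  have hC : 0 < C := Real.sqrt_pos.2 (by (clear * - hx; positivity))
  have hq : 0 < q := Real.sqrt_pos.2 (by (clear * - hB1; positivity))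
  have hqq : q ^ (2 : ℕ) = Real.pi / B := Real.sq_sqrt (by (clear * - hB1; positivity))
  have hcB : c ^ (2 : ℕ) / B ≤ 9 / 499 := by
    rw [div_le_iff₀ hB0]
    have e : c ^ (2 : ℕ) * (r * δ) ≤ 9 / 10 * (B * δ) := by
      rw [hBQ]
      rw [one_div] at hbg
      exact hbg
    have e2 : c ^ (2 : ℕ) * (499 / 10) * δ ≤ 9 / 10 * B * δ := by
      have : c ^ (2 : ℕ) * (499 / 10) * δ ≤ c ^ (2 : ℕ) * r * δ := by gcongr
      linarith only [e, this]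
    have := le_of_mul_le_mul_right e2 hδ
    linarith only [this]
  have hcq : c * q ≤ 23805 / 100000 := cq_le hB0 hc hcB (by linarith only [hp2]) (by norm_num)
  have hq1 : q ≤ 5323 / 10000 := by
    have : q ^ (2 : ℕ) ≤ (5323 / 10000) ^ (2 : ℕ) := by
      rw [hqq, div_le_iff₀ hB0]
      linarith only [hp2, hB1]
    exact (sq_le_sq₀ hq.le (by norm_num)).1 this
  have hV : C * q ≤ 101 / 100 * Gn x y δ :=
    V_le hδ hQ hB (D_pos (by linarith only [hy])) (hbl.trans (by linarith only [hQ])) (by norm_num)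
  have hG : 0 ≤ Gn x y δ := Real.sqrt_nonneg _
  have hj0 : (0 : ℝ) ≤ j := Nat.cast_nonneg j
  have hj1 : (j : ℝ) ≤ 1 := by exact_mod_cast hj
  -- right half
  have a1 := half_r' (F := F) (b := 10 / 11 * B) hC (by (clear * - hB1; positivity)) hc hc1 hj t0 t1 hw
    hFi.intervalIntegrable h1
  have n1 : Ab (10 / 11 * B) (j * c) (j * (18 / 25 * c ^ (2 : ℕ))) ≤ 5699 / 10000 * q := by
    refine Ab_num (ν := 10489 / 10000) hB0 (by norm_num) (by norm_num) (by norm_num)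
      (by (clear * - hx; positivity)) ?_
    rw [← hqd]
    have e1 : (j : ℝ) * c * q / (2 * Real.pi * (10 / 11)) ≤ 41677 / 1000000 := by
      rw [div_le_iff₀ (by positivity)]
      have : (j : ℝ) * c * q ≤ 1 * (c * q) := by
        rw [mul_assoc]
        exact mul_le_mul_of_nonneg_right hj1 (by (clear * - hx hB1; positivity))
      linarith only [hp1, hcq, this]
    have e2 : (j : ℝ) * (18 / 25 * c ^ (2 : ℕ)) * (10489 / 10000) / (4 * (10 / 11) * B) ≤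
        3746 / 1000000 := by
      have : (j : ℝ) * (18 / 25 * c ^ (2 : ℕ)) * (10489 / 10000) / (4 * (10 / 11) * B) =
          j * (18 / 25 * (10489 / 10000) / (4 * (10 / 11)) * (c ^ (2 : ℕ) / B)) := by
        field_simp
      rw [this]
      have h5 : 18 / 25 * (10489 / 10000) / (4 * (10 / 11)) * (c ^ (2 : ℕ) / B) ≤
          18 / 25 * (10489 / 10000) / (4 * (10 / 11)) * (9 / 499) := by gcongr
      have h6 : 0 ≤ 18 / 25 * (10489 / 10000) / (4 * (10 / 11)) * (c ^ (2 : ℕ) / B) := by (clear * - hx hB1; positivity)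
      have h7 := mul_le_mul_of_nonneg_right hj1 h6
      norm_num at h5 h7 ⊢
      linarith only [h5, h7]
    linarith only [e1, e2]
  -- left half
  have a2 := half_L (F := fun v => F (-v)) (b := B) hC hB0 one_pos le_rfl
    (by simp) hFi.comp_neg.intervalIntegrable h2
  have n2 : Ab B (3 / 10) (2 / 5) ≤ 5345 / 10000 * q := by
    rw [← one_mul B]
    refine Ab_num (ν := 1) hB0 one_pos zero_le_one (by norm_num) (by norm_num) ?_
    rw [← hqd]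
    have e1 : 3 / 10 * q / (2 * Real.pi * 1) ≤ 25417 / 1000000 := by
      rw [div_le_iff₀ (by positivity)]
      linarith only [hp1, hq1]
    have e2 : 2 / 5 * 1 / (4 * 1 * B) ≤ 9019 / 1000000 := by
      rw [div_le_iff₀ (by (clear * - hB1; positivity))]
      linarith only [hB1]
    linarith only [e1, e2]
  -- middle
  have hm := mid_num (B := B) (by linarith only [hB1])
  rw [← hqd] at hm
  have a3 := mid_int (F := F) hFi.intervalIntegrable h3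
  have a4' := mid_int (F := fun v => F (-v)) hFi.comp_neg.intervalIntegrable h4
  have he : Real.exp 1 ≤ 27183 / 10000 := by
    have := Real.exp_one_lt_d9
    linarith only [this]
  have hep := Real.exp_pos (-(11 / 20 * B))
  have b3 : Real.exp 1 * Real.exp (-(11 / 20 * B)) ≤ 27183 / 10000 * (45 / 10000 * q) := by
    gcongr
  unfold coreS
  have s1 := mul_le_mul_of_nonneg_left n1 hC.le
  have s2 := mul_le_mul_of_nonneg_left n2 hC.le
  have s3 := mul_le_mul_of_nonneg_left b3 hC.le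
  have s4 := mul_le_mul_of_nonneg_left hm hC.le
  have hCq : 0 < C * q := by (clear * - hx hB1; positivity)
  have tot : (∫ s in (0 : ℝ)..1, F s) + (∫ s in (1 : ℝ)..(3 / 2), F s) +
      ((∫ s in (0 : ℝ)..1, F (-s)) + ∫ s in (1 : ℝ)..(3 / 2), F (-s)) ≤
      11128 / 10000 * (C * q) := by
    linarith only [a1, a2, a3, a4', s1, s2, s3, s4, hCq]
  refine tot.trans ?_
  linarith only [hV, hG]

/-- The core, `y = -n ≤ 0`. -/
theorem coreR {x n δ r t w t' w' : ℝ} {j : ℕ} {F : ℝ → ℝ} (hx : 0 ≤ x) (hn : 0 ≤ n)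
    (hn1 : n ≤ 53 / 100) (hT : n ≤ 4 / 5 * x) (hD : 13 / 20 ≤ (1 - n) ^ (2 : ℕ) + x ^ (2 : ℕ))
    (hδ : 0 < δ) (hr : 499 / 10 ≤ r)
    (hrd : r * δ = √(x ^ (2 : ℕ) + n ^ (2 : ℕ)) * Real.exp (-n)) (hj : j ≤ 1) (hFi : Integrable F)
    (t0 : 0 < t) (t1 : t ≤ 1) (hw : Real.exp (-w) ≤ t * √t)
    (t0' : 0 < t') (t1' : t' ≤ 1) (hw' : Real.exp (-w') ≤ t' * √t')
    (h1 : ∀ s : ℝ, 0 ≤ s → s ≤ 1 → F s ≤ √(1 + ((1 + x)⁻¹) ^ (2 : ℕ)) *
      (Real.exp (j * ((1 + x)⁻¹ * s)) *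
        Real.exp (-(w + t * (9 / 10 * (SokamF1G.Qf x (-n) / δ) * s ^ (2 : ℕ))))))
    (h2 : ∀ v : ℝ, 0 ≤ v → v ≤ 1 → F (-v) ≤ √(1 + ((1 + x)⁻¹) ^ (2 : ℕ)) *
      Real.exp (-(w' + t' * ((SokamF1G.Qf x (-n) / δ) *
        ((1 - 14 / 25 * v + v ^ (2 : ℕ) / 10) * v ^ (2 : ℕ))))))
    (h3 : ∀ s : ℝ, 1 ≤ s → s ≤ 3 / 2 → F s ≤ √(1 + ((1 + x)⁻¹) ^ (2 : ℕ)) *
      (Real.exp 1 * Real.exp (-(2 / 5 * (SokamF1G.Qf x (-n) / δ)))))
    (h4 : ∀ v : ℝ, 1 ≤ v → v ≤ 3 / 2 → F (-v) ≤ √(1 + ((1 + x)⁻¹) ^ (2 : ℕ)) *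
      Real.exp (-(2 / 5 * (SokamF1G.Qf x (-n) / δ)))) :
    coreS F ≤ 6 / 5 * Gn x (-n) δ := by
  have hp1 := Real.pi_gt_d4
  have hp2 := Real.pi_lt_d4
  have hp := Real.pi_pos
  have hr0 : 0 < r := by linarith only [hr]
  have hX : 0 < 1 + x := by linarith only [hx]
  have hc : 0 ≤ (1 + x)⁻¹ := by (clear * - hx; positivity)
  have hc1 : (1 + x)⁻¹ ≤ 1 := inv_le_one_of_one_le₀ (by linarith only [hx])
  have hN : SokamF1B.NegF x (-n) := SokamF1B.negF_small hx (by linarith only [hn1]) (by linarith only [hn])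
    (by linarith only [hT]) (by rw [← sub_eq_add_neg]; exact hD)
  have hQ := hN.q
  have hbB := hN.B
  rw [neg_sq, ← hrd] at hbB
  have hbg := gR hx hn hn1 hT
  have hbl := lR hx hn hn1 hT
  rw [← hrd] at hbg
  obtain ⟨B, hB⟩ : ∃ B, B = SokamF1G.Qf x (-n) / δ := ⟨_, rfl⟩
  rw [← hB] at h1 h2 h3 h4
  have hBQ : B * δ = SokamF1G.Qf x (-n) := by
    rw [hB]
    field_simp
  have hB1 : 2376 / 100 ≤ B := by
    rw [hB, le_div_iff₀ hδ]
    have : 499 / 10 * δ ≤ r * δ := by gcongr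
    linarith only [hQ, hbB, this]
  have hB0 : 0 < B := by linarith only [hB1]
  set c := (1 + x)⁻¹ with hcd
  set C := √(1 + c ^ (2 : ℕ)) with hCd
  set q := √(Real.pi / B) with hqd
  have hC : 0 < C := Real.sqrt_pos.2 (by (clear * - hx; positivity))
  have hq : 0 < q := Real.sqrt_pos.2 (by (clear * - hB1; positivity))
  have hqq : q ^ (2 : ℕ) = Real.pi / B := Real.sq_sqrt (by (clear * - hB1; positivity))
  have hcB : c ^ (2 : ℕ) / B ≤ 9 / 998 := by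
    rw [div_le_iff₀ hB0]
    have e : c ^ (2 : ℕ) * (r * δ) ≤ 9 / 20 * (B * δ) := by
      rw [hBQ]
      rw [one_div] at hbg
      exact hbg
    have e2 : c ^ (2 : ℕ) * (499 / 10) * δ ≤ 9 / 20 * B * δ := by
      have : c ^ (2 : ℕ) * (499 / 10) * δ ≤ c ^ (2 : ℕ) * r * δ := by gcongr
      linarith only [e, this]
    have := le_of_mul_le_mul_right e2 hδ
    linarith only [this]
  have hcq : c * q ≤ 16832 / 100000 := cq_le hB0 hc hcB (by linarith only [hp2]) (by norm_num)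
  have hq1 : q ≤ 36364 / 100000 := by
    have : q ^ (2 : ℕ) ≤ (36364 / 100000) ^ (2 : ℕ) := by
      rw [hqq, div_le_iff₀ hB0]
      linarith only [hp2, hB1]
    exact (sq_le_sq₀ hq.le (by norm_num)).1 this
  have hV : C * q ≤ 10724 / 10000 * Gn x (-n) δ := by
    refine V_le hδ hQ hB (D_pos (by linarith only [hn1])) ?_ (by norm_num)
    rw [← sub_eq_add_neg]
    exact hbl.trans (by linarith only [hQ])
  have hG : 0 ≤ Gn x (-n) δ := Real.sqrt_nonneg _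
  have hj0 : (0 : ℝ) ≤ j := Nat.cast_nonneg j
  have hj1 : (j : ℝ) ≤ 1 := by exact_mod_cast hj
  -- right half
  have a1 := half_r' (F := F) (b := 9 / 10 * B) hC (by (clear * - hB1; positivity)) hc hc1 hj t0 t1 hw
    hFi.intervalIntegrable h1
  have n1 : Ab (9 / 10 * B) (j * c) (j * (18 / 25 * c ^ (2 : ℕ))) ≤ 5588 / 10000 * q := by
    refine Ab_num (ν := 10541 / 10000) hB0 (by norm_num) (by norm_num) (by norm_num)
      (by (clear * - hx; positivity)) ?_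
    rw [← hqd]
    have e1 : (j : ℝ) * c * q / (2 * Real.pi * (9 / 10)) ≤ 29767 / 1000000 := by
      rw [div_le_iff₀ (by positivity)]
      have : (j : ℝ) * c * q ≤ 1 * (c * q) := by
        rw [mul_assoc]
        exact mul_le_mul_of_nonneg_right hj1 (by (clear * - hx hB1; positivity))
      linarith only [hp1, hcq, this]
    have e2 : (j : ℝ) * (18 / 25 * c ^ (2 : ℕ)) * (10541 / 10000) / (4 * (9 / 10) * B) ≤
        1902 / 1000000 := by
      have : (j : ℝ) * (18 / 25 * c ^ (2 : ℕ)) * (10541 / 10000) / (4 * (9 / 10) * B) =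
          j * (18 / 25 * (10541 / 10000) / (4 * (9 / 10)) * (c ^ (2 : ℕ) / B)) := by
        field_simp
      rw [this]
      have h5 : 18 / 25 * (10541 / 10000) / (4 * (9 / 10)) * (c ^ (2 : ℕ) / B) ≤
          18 / 25 * (10541 / 10000) / (4 * (9 / 10)) * (9 / 998) := by gcongr
      have h6 : 0 ≤ 18 / 25 * (10541 / 10000) / (4 * (9 / 10)) * (c ^ (2 : ℕ) / B) := by (clear * - hx hB1; positivity)
      have h7 := mul_le_mul_of_nonneg_right hj1 h6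
      norm_num at h5 h7 ⊢
      linarith only [h5, h7]
    linarith only [e1, e2]
  -- left half
  have a2 := half_R (F := fun v => F (-v)) (b := B) hC hB0 t0' t1' hw'
    hFi.comp_neg.intervalIntegrable h2
  have n2 : Ab B (14 / 25) (42 / 25) ≤ 5502 / 10000 * q := by
    rw [← one_mul B]
    refine Ab_num (ν := 1) hB0 one_pos zero_le_one (by norm_num) (by norm_num) ?_
    rw [← hqd]
    have e1 : 14 / 25 * q / (2 * Real.pi * 1) ≤ 32412 / 1000000 := by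
      rw [div_le_iff₀ (by positivity)]
      linarith only [hp1, hq1]
    have e2 : 42 / 25 * 1 / (4 * 1 * B) ≤ 17678 / 1000000 := by
      rw [div_le_iff₀ (by (clear * - hB1; positivity))]
      linarith only [hB1]
    linarith only [e1, e2]
  -- middle
  have hm : Real.exp (-(2 / 5 * B)) ≤ 5278 / 1000000 * q := by
    have h5 := mid_num (B := 8 / 11 * B) (by linarith only [hB1])
    have h6 : √(Real.pi / (8 / 11 * B)) ≤ 11727 / 10000 * q := by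
      rw [Real.sqrt_le_left (by (clear * - hB1; positivity)), mul_pow, hqq, div_le_iff₀ (by (clear * - hB1; positivity))]
      have : (11727 / 10000) ^ (2 : ℕ) * (Real.pi / B) * (8 / 11 * B) =
          (11727 / 10000) ^ (2 : ℕ) * (8 / 11) * Real.pi := by
        field_simp
      rw [this]
      linarith only [hp]
    have h7 : -(11 / 20 * (8 / 11 * B)) = -(2 / 5 * B) := by ring
    rw [h7] at h5
    linarith only [hq, h5, h6]
  have a3 := mid_int (F := F) hFi.intervalIntegrable h3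
  have a4' := mid_int (F := fun v => F (-v)) hFi.comp_neg.intervalIntegrable h4
  have he : Real.exp 1 ≤ 27183 / 10000 := by
    have := Real.exp_one_lt_d9
    linarith only [this]
  have hep := Real.exp_pos (-(2 / 5 * B))
  have b3 : Real.exp 1 * Real.exp (-(2 / 5 * B)) ≤ 27183 / 10000 * (5278 / 1000000 * q) := by
    gcongr
  unfold coreS
  have s1 := mul_le_mul_of_nonneg_left n1 hC.le
  have s2 := mul_le_mul_of_nonneg_left n2 hC.le
  have s3 := mul_le_mul_of_nonneg_left b3 hC.le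
  have s4 := mul_le_mul_of_nonneg_left hm hC.le
  have hCq : 0 < C * q := by (clear * - hx hB1; positivity)
  have tot : (∫ s in (0 : ℝ)..1, F s) + (∫ s in (1 : ℝ)..(3 / 2), F s) +
      ((∫ s in (0 : ℝ)..1, F (-s)) + ∫ s in (1 : ℝ)..(3 / 2), F (-s)) ≤
      111883 / 100000 * (C * q) := by
    linarith only [a1, a2, a3, a4', s1, s2, s3, s4, hCq]
  refine tot.trans ?_
  linarith only [hV, hG]

end SokamV3O

end
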