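import Pool.Agent.Lib_MP_af4de1_zy.Z01
import Pool.Agent.Lib_MP_af4de1_zy.Z37

/-! ### Lib_MP_af4de1_f1.MainS2 -/

section
namespace SokamF1G
end SokamF1G
/-!
# Structural constants of LEMMA MAIN, `y ≤ 0` (first part)

`K = √(x² + y²)`, `D = √((1+y)² + x²)`, `c = 1/(1+x)`, `Qf x y` the coefficient of `s²` (GLem.lean).
`hΦ` is the condition `Φ ≥ .44 r`.  It forces `x` to be at least an explicit increasing function of `|y|`
(`x² ((1+y)² - .1936 e^(2y)) ≥ .1936 e^(2y) y²`); the suprema are attained on that curve.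
-/

set_option autoImplicit false

namespace SokamF1B

open Real SokamF1G

/-! ### Certificates -/

private theorem s2cD0 {t : ℝ} (h1 : (2 / 5) ≤ t) (h2 : t ≤ (39 / 80)) :
    0 ≤ 121 / 625 * (36787 / 100000 * (1 + (1 - 2 * t) + (1 - 2 * t) ^ (2 : ℕ) / 2 + (1 - 2 * t) ^ (3 : ℕ) / 6)) *
        (2 * t - 33 / 50) - (17 / 50 - (1 - t) ^ (2 : ℕ)) * (1 - t) ^ (2 : ℕ) - 1 / 5000 := by
  have p : 0 ≤ t - (2 / 5) := sub_nonneg.2 h1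
  have q : 0 ≤ (39 / 80) - t := sub_nonneg.2 h2
  have h : 0 ≤ (469655693312 / 1435546875) * ((39 / 80) - t) ^ (4 : ℕ) +
      (2851639111616 / 3349609375) * (t - (2 / 5)) ^ (1 : ℕ) * ((39 / 80) - t) ^ (3 : ℕ) +
      (2634403000064 / 3349609375) * (t - (2 / 5)) ^ (2 : ℕ) * ((39 / 80) - t) ^ (2 : ℕ) +
      (610826691971 / 2009765625) * (t - (2 / 5)) ^ (3 : ℕ) * ((39 / 80) - t) ^ (1 : ℕ) +
      (568523074501 / 13398437500) * (t - (2 / 5)) ^ (4 : ℕ) := by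
    positivity
  refine le_of_le_of_eq h ?_
  ring

private theorem s2cD1 {t : ℝ} (h1 : (39 / 80) ≤ t) (h2 : t ≤ (17 / 32)) :
    0 ≤ 121 / 625 * (36787 / 100000 * (1 + (1 - 2 * t) + (1 - 2 * t) ^ (2 : ℕ) / 2 + (1 - 2 * t) ^ (3 : ℕ) / 6)) *
        (2 * t - 33 / 50) - (17 / 50 - (1 - t) ^ (2 : ℕ)) * (1 - t) ^ (2 : ℕ) - 1 / 5000 := by
  have p : 0 ≤ t - (39 / 80) := sub_nonneg.2 h1
  have q : 0 ≤ (17 / 32) - t := sub_nonneg.2 h2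
  have h : 0 ≤ (2274092298004 / 3349609375) * ((17 / 32) - t) ^ (4 : ℕ) +
      (16500593685232 / 10048828125) * (t - (39 / 80)) ^ (1 : ℕ) * ((17 / 32) - t) ^ (3 : ℕ) +
      (183530260202 / 133984375) * (t - (39 / 80)) ^ (2 : ℕ) * ((17 / 32) - t) ^ (2 : ℕ) +
      (65416060928 / 133984375) * (t - (39 / 80)) ^ (3 : ℕ) * ((17 / 32) - t) ^ (1 : ℕ) +
      (26492550727 / 321562500) * (t - (39 / 80)) ^ (4 : ℕ) := by
    positivity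
  refine le_of_le_of_eq h ?_
  ring

private theorem s2cD2 {t : ℝ} (h1 : (17 / 32) ≤ t) (h2 : t ≤ (23 / 40)) :
    0 ≤ 121 / 625 * (36787 / 100000 * (1 + (1 - 2 * t) + (1 - 2 * t) ^ (2 : ℕ) / 2 + (1 - 2 * t) ^ (3 : ℕ) / 6)) *
        (2 * t - 33 / 50) - (17 / 50 - (1 - t) ^ (2 : ℕ)) * (1 - t) ^ (2 : ℕ) - 1 / 5000 := by
  have p : 0 ≤ t - (17 / 32) := sub_nonneg.2 h1
  have q : 0 ≤ (23 / 40) - t := sub_nonneg.2 h2
  have h : 0 ≤ (26492550727 / 321562500) * ((23 / 40) - t) ^ (4 : ℕ) +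
      (68677324486 / 401953125) * (t - (17 / 32)) ^ (1 : ℕ) * ((23 / 40) - t) ^ (3 : ℕ) +
      (7994200272 / 19140625) * (t - (17 / 32)) ^ (2 : ℕ) * ((23 / 40) - t) ^ (2 : ℕ) +
      (2058860089056 / 3349609375) * (t - (17 / 32)) ^ (3 : ℕ) * ((23 / 40) - t) ^ (1 : ℕ) +
      (958935463616 / 3349609375) * (t - (17 / 32)) ^ (4 : ℕ) := by
    positivity
  refine le_of_le_of_eq h ?_
  ring

private theorem s2cD3 {t : ℝ} (h1 : (23 / 40) ≤ t) (h2 : t ≤ (3 / 4)) :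
    0 ≤ 121 / 625 * (36787 / 100000 * (1 + (1 - 2 * t) + (1 - 2 * t) ^ (2 : ℕ) / 2 + (1 - 2 * t) ^ (3 : ℕ) / 6)) *
        (2 * t - 33 / 50) - (17 / 50 - (1 - t) ^ (2 : ℕ)) * (1 - t) ^ (2 : ℕ) - 1 / 5000 := by
  have p : 0 ≤ t - (23 / 40) := sub_nonneg.2 h1
  have q : 0 ≤ (3 / 4) - t := sub_nonneg.2 h2
  have h : 0 ≤ (14983366619 / 13398437500) * ((3 / 4) - t) ^ (4 : ℕ) +
      (85494288407 / 6699218750) * (t - (23 / 40)) ^ (1 : ℕ) * ((3 / 4) - t) ^ (3 : ℕ) +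
      (33353496063 / 669921875) * (t - (23 / 40)) ^ (2 : ℕ) * ((3 / 4) - t) ^ (2 : ℕ) +
      (656509906 / 11484375) * (t - (23 / 40)) ^ (3 : ℕ) * ((3 / 4) - t) ^ (1 : ℕ) +
      (531434664 / 26796875) * (t - (23 / 40)) ^ (4 : ℕ) := by
    positivity
  refine le_of_le_of_eq h ?_
  ring

private theorem s2cM0 {t : ℝ} (h1 : (1 / 2) ≤ t) (h2 : t ≤ (5 / 8)) :
    0 ≤ 121 / 625 * (36787 / 100000 * (1 + (1 - 2 * t) + (1 - 2 * t) ^ (2 : ℕ) / 2 + (1 - 2 * t) ^ (3 : ℕ) / 6)) *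
        (1729 / 1000 * (1 + 2 / 3 * (t - 16 / 25))) * (2 * t - 1) -
      (t ^ (2 : ℕ) - 1729 / 1000 * (1 + 2 / 3 * (t - 16 / 25)) * (1 - t) ^ (2 : ℕ)) * (1 - t) ^ (2 : ℕ) := by
  have p : 0 ≤ t - (1 / 2) := sub_nonneg.2 h1
  have q : 0 ≤ (5 / 8) - t := sub_nonneg.2 h2
  have h : 0 ≤ (10898432 / 9375) * ((5 / 8) - t) ^ (5 : ℕ) +
      (69793994147008 / 18310546875) * (t - (1 / 2)) ^ (1 : ℕ) * ((5 / 8) - t) ^ (4 : ℕ) +
      (16999523719576 / 3662109375) * (t - (1 / 2)) ^ (2 : ℕ) * ((5 / 8) - t) ^ (3 : ℕ) +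
      (15859822957762 / 6103515625) * (t - (1 / 2)) ^ (3 : ℕ) * ((5 / 8) - t) ^ (2 : ℕ) +
      (151944013191949 / 219726562500) * (t - (1 / 2)) ^ (4 : ℕ) * ((5 / 8) - t) ^ (1 : ℕ) +
      (8476022460261 / 97656250000) * (t - (1 / 2)) ^ (5 : ℕ) := by
    positivity
  refine le_of_le_of_eq h ?_
  ring

private theorem s2cM1 {t : ℝ} (h1 : (5 / 8) ≤ t) (h2 : t ≤ (3 / 4)) :
    0 ≤ 121 / 625 * (36787 / 100000 * (1 + (1 - 2 * t) + (1 - 2 * t) ^ (2 : ℕ) / 2 + (1 - 2 * t) ^ (3 : ℕ) / 6)) *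
        (1729 / 1000 * (1 + 2 / 3 * (t - 16 / 25))) * (2 * t - 1) -
      (t ^ (2 : ℕ) - 1729 / 1000 * (1 + 2 / 3 * (t - 16 / 25)) * (1 - t) ^ (2 : ℕ)) * (1 - t) ^ (2 : ℕ) := by
  have p : 0 ≤ t - (5 / 8) := sub_nonneg.2 h1
  have q : 0 ≤ (3 / 4) - t := sub_nonneg.2 h2
  have h : 0 ≤ (8476022460261 / 97656250000) * ((3 / 4) - t) ^ (5 : ℕ) +
      (77532984327847 / 439453125000) * (t - (5 / 8)) ^ (1 : ℕ) * ((3 / 4) - t) ^ (4 : ℕ) +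
      (11824354236733 / 21972656250) * (t - (5 / 8)) ^ (2 : ℕ) * ((3 / 4) - t) ^ (3 : ℕ) +
      (23731505161853 / 18310546875) * (t - (5 / 8)) ^ (3 : ℕ) * ((3 / 4) - t) ^ (2 : ℕ) +
      (68140343880913 / 54931640625) * (t - (5 / 8)) ^ (4 : ℕ) * ((3 / 4) - t) ^ (1 : ℕ) +
      (21634146183254 / 54931640625) * (t - (5 / 8)) ^ (5 : ℕ) := by
    positivity
  refine le_of_le_of_eq h ?_
  ring

private theorem s2cG0_0 {x : ℝ} (h1 : 0 ≤ x) (h2 : x ≤ (1 / 2)) :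
    0 ≤ (129 / 50) ^ (2 : ℕ) * ((1 + x) * (1 - (143 / 200)) + x ^ (2 : ℕ) * (2 + x) / 2) ^ (2 : ℕ) -
      ((1 + x) ^ (2 : ℕ) + 1) ^ (2 : ℕ) * ((1 - (143 / 200)) ^ (2 : ℕ) + x ^ (2 : ℕ)) := by
  have p : 0 ≤ x - 0 := sub_nonneg.2 h1
  have q : 0 ≤ (1 / 2) - x := sub_nonneg.2 h2
  have h : 0 ≤ (21576609 / 1562500) * ((1 / 2) - x) ^ (6 : ℕ) +
      (151036263 / 1562500) * (x - 0) ^ (1 : ℕ) * ((1 / 2) - x) ^ (5 : ℕ) +
      (1694630129 / 6250000) * (x - 0) ^ (2 : ℕ) * ((1 / 2) - x) ^ (4 : ℕ) +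
      (145719676 / 390625) * (x - 0) ^ (3 : ℕ) * ((1 / 2) - x) ^ (3 : ℕ) +
      (1585423879 / 6250000) * (x - 0) ^ (4 : ℕ) * ((1 / 2) - x) ^ (2 : ℕ) +
      (242571091 / 3125000) * (x - 0) ^ (5 : ℕ) * ((1 / 2) - x) ^ (1 : ℕ) +
      (58592231 / 6250000) * (x - 0) ^ (6 : ℕ) := by
    positivity
  refine le_of_le_of_eq h ?_
  ring

private theorem s2cG0_1 {x : ℝ} (h1 : (1 / 2) ≤ x) (h2 : x ≤ 1) :
    0 ≤ (129 / 50) ^ (2 : ℕ) * ((1 + x) * (1 - (143 / 200)) + x ^ (2 : ℕ) * (2 + x) / 2) ^ (2 : ℕ) -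
      ((1 + x) ^ (2 : ℕ) + 1) ^ (2 : ℕ) * ((1 - (143 / 200)) ^ (2 : ℕ) + x ^ (2 : ℕ)) := by
  have p : 0 ≤ x - (1 / 2) := sub_nonneg.2 h1
  have q : 0 ≤ 1 - x := sub_nonneg.2 h2
  have h : 0 ≤ (58592231 / 6250000) * (1 - x) ^ (6 : ℕ) +
      (21796459 / 625000) * (x - (1 / 2)) ^ (1 : ℕ) * (1 - x) ^ (5 : ℕ) +
      (249535919 / 6250000) * (x - (1 / 2)) ^ (2 : ℕ) * (1 - x) ^ (4 : ℕ) +
      (40118237 / 781250) * (x - (1 / 2)) ^ (3 : ℕ) * (1 - x) ^ (3 : ℕ) +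
      (1006475209 / 6250000) * (x - (1 / 2)) ^ (4 : ℕ) * (1 - x) ^ (2 : ℕ) +
      (171011949 / 781250) * (x - (1 / 2)) ^ (5 : ℕ) * (1 - x) ^ (1 : ℕ) +
      (37284584 / 390625) * (x - (1 / 2)) ^ (6 : ℕ) := by
    positivity
  refine le_of_le_of_eq h ?_
  ring

private theorem s2cG0_inf {x : ℝ} (h1 : 1 ≤ x) :
    0 ≤ (129 / 50) ^ (2 : ℕ) * ((1 + x) * (1 - (143 / 200)) + x ^ (2 : ℕ) * (2 + x) / 2) ^ (2 : ℕ) -
      ((1 + x) ^ (2 : ℕ) + 1) ^ (2 : ℕ) * ((1 - (143 / 200)) ^ (2 : ℕ) + x ^ (2 : ℕ)) := by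
  have p : 0 ≤ x - 1 := sub_nonneg.2 h1
  have h : 0 ≤ (4660573 / 3125000) +
      (276403059 / 25000000) * (x - 1) ^ (1 : ℕ) +
      (3114297409 / 100000000) * (x - 1) ^ (2 : ℕ) +
      (19550659 / 500000) * (x - 1) ^ (3 : ℕ) +
      (23715749 / 1000000) * (x - 1) ^ (4 : ℕ) +
      (6641 / 1000) * (x - 1) ^ (5 : ℕ) +
      (6641 / 10000) * (x - 1) ^ (6 : ℕ) := by
    positivity
  refine le_of_le_of_eq h ?_
  ring

private theorem s2cG1 {x : ℝ} (h1 : (41 / 50) ≤ x) :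
    0 ≤ (129 / 50) ^ (2 : ℕ) * ((1 + x) * (1 - (181 / 250)) + x ^ (2 : ℕ) * (2 + x) / 2) ^ (2 : ℕ) -
      ((1 + x) ^ (2 : ℕ) + 1) ^ (2 : ℕ) * ((1 - (181 / 250)) ^ (2 : ℕ) + x ^ (2 : ℕ)) := by
  have p : 0 ≤ x - (41 / 50) := sub_nonneg.2 h1
  have h : 0 ≤ (12776131091441 / 156250000000000) +
      (3861220058343 / 1562500000000) * (x - (41 / 50)) ^ (1 : ℕ) +
      (33837423031 / 2500000000) * (x - (41 / 50)) ^ (2 : ℕ) +
      (1485046193 / 62500000) * (x - (41 / 50)) ^ (3 : ℕ) +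
      (18006743 / 1000000) * (x - (41 / 50)) ^ (4 : ℕ) +
      (1480943 / 250000) * (x - (41 / 50)) ^ (5 : ℕ) +
      (6641 / 10000) * (x - (41 / 50)) ^ (6 : ℕ) := by
    positivity
  refine le_of_le_of_eq h ?_
  ring

private theorem s2cG2 {x : ℝ} (h1 : (7 / 8) ≤ x) :
    0 ≤ (129 / 50) ^ (2 : ℕ) * ((1 + x) * (1 - (183 / 250)) + x ^ (2 : ℕ) * (2 + x) / 2) ^ (2 : ℕ) -
      ((1 + x) ^ (2 : ℕ) + 1) ^ (2 : ℕ) * ((1 - (183 / 250)) ^ (2 : ℕ) + x ^ (2 : ℕ)) := by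
  have p : 0 ≤ x - (7 / 8) := sub_nonneg.2 h1
  have h : 0 ≤ (48933057361 / 1638400000000) +
      (1807698129337 / 512000000000) * (x - (7 / 8)) ^ (1 : ℕ) +
      (10939723151479 / 640000000000) * (x - (7 / 8)) ^ (2 : ℕ) +
      (4414421383 / 160000000) * (x - (7 / 8)) ^ (3 : ℕ) +
      (1569361171 / 80000000) * (x - (7 / 8)) ^ (4 : ℕ) +
      (245717 / 40000) * (x - (7 / 8)) ^ (5 : ℕ) +
      (6641 / 10000) * (x - (7 / 8)) ^ (6 : ℕ) := by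
    positivity
  refine le_of_le_of_eq h ?_
  ring

private theorem s2cG3 {x : ℝ} (h1 : (187 / 200) ≤ x) :
    0 ≤ (129 / 50) ^ (2 : ℕ) * ((1 + x) * (1 - (37 / 50)) + x ^ (2 : ℕ) * (2 + x) / 2) ^ (2 : ℕ) -
      ((1 + x) ^ (2 : ℕ) + 1) ^ (2 : ℕ) * ((1 - (37 / 50)) ^ (2 : ℕ) + x ^ (2 : ℕ)) := by
  have p : 0 ≤ x - (187 / 200) := sub_nonneg.2 h1
  have h : 0 ≤ (22316719601214169 / 640000000000000000) +
      (8241961473528161 / 1600000000000000) * (x - (187 / 200)) ^ (1 : ℕ) +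
      (69561470048483 / 3200000000000) * (x - (187 / 200)) ^ (2 : ℕ) +
      (128784048163 / 4000000000) * (x - (187 / 200)) ^ (3 : ℕ) +
      (1715738107 / 80000000) * (x - (187 / 200)) ^ (4 : ℕ) +
      (6382001 / 1000000) * (x - (187 / 200)) ^ (5 : ℕ) +
      (6641 / 10000) * (x - (187 / 200)) ^ (6 : ℕ) := by
    positivity
  refine le_of_le_of_eq h ?_
  ring

private theorem s2cG4 {x : ℝ} (h1 : 1 ≤ x) :
    0 ≤ (129 / 50) ^ (2 : ℕ) * ((1 + x) * (1 - (3 / 4)) + x ^ (2 : ℕ) * (2 + x) / 2) ^ (2 : ℕ) -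
      ((1 + x) ^ (2 : ℕ) + 1) ^ (2 : ℕ) * ((1 - (3 / 4)) ^ (2 : ℕ) + x ^ (2 : ℕ)) := by
  have p : 0 ≤ x - 1 := sub_nonneg.2 h1
  have h : 0 ≤ (631 / 10000) +
      (3673 / 500) * (x - 1) ^ (1 : ℕ) +
      (220357 / 8000) * (x - 1) ^ (2 : ℕ) +
      (376203 / 10000) * (x - 1) ^ (3 : ℕ) +
      (47003 / 2000) * (x - 1) ^ (4 : ℕ) +
      (6641 / 1000) * (x - 1) ^ (5 : ℕ) +
      (6641 / 10000) * (x - 1) ^ (6 : ℕ) := by
    positivity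
  refine le_of_le_of_eq h ?_
  ring

/-! ### The exponential function and the condition -/

private theorem s2cub (z : ℝ) : 1 + z + z ^ (2 : ℕ) / 2 + z ^ (3 : ℕ) / 6 ≤ exp z := by
  rcases le_total 0 z with h | h
  · exact e_ge3 h
  · have h1 := en_ge3 (x := -z) (by linarith)
    rw [neg_neg] at h1
    refine le_of_eq_of_le ?_ h1
    ring

private theorem s2exp (t : ℝ) :
    36787 / 100000 * (1 + (1 - 2 * t) + (1 - 2 * t) ^ (2 : ℕ) / 2 + (1 - 2 * t) ^ (3 : ℕ) / 6) ≤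
      exp (-(2 * t)) := by
  have h1 : (36787 / 100000 : ℝ) ≤ exp (-1) := by
    have h2 : exp 1 < 27182818286 / 10000000000 := by
      have := Real.exp_one_lt_d9
      norm_num at this ⊢
      exact this
    rw [exp_neg]
    have h3 := inv_anti₀ (exp_pos 1) h2.le
    refine le_trans ?_ h3
    norm_num
  have h4 : exp (-(2 * t)) = exp (-1) * exp (1 - 2 * t) := by
    rw [← exp_add]
    congr 1
    ring
  rw [h4]
  calc 36787 / 100000 * (1 + (1 - 2 * t) + (1 - 2 * t) ^ (2 : ℕ) / 2 + (1 - 2 * t) ^ (3 : ℕ) / 6)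
      ≤ 36787 / 100000 * exp (1 - 2 * t) := mul_le_mul_of_nonneg_left (s2cub _) (by norm_num)
    _ ≤ exp (-1) * exp (1 - 2 * t) := mul_le_mul_of_nonneg_right h1 (exp_pos _).le

/-- the square of the condition, `y = -t` -/
private theorem s2sq {x t : ℝ} (hΦ : 11 / 25 * (√(x ^ (2 : ℕ) + (-t) ^ (2 : ℕ)) * exp (-t)) ≤ x * (1 + -t)) :
    121 / 625 * exp (-(2 * t)) * (x ^ (2 : ℕ) + t ^ (2 : ℕ)) ≤ x ^ (2 : ℕ) * (1 - t) ^ (2 : ℕ) := by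
  have h0 : 0 ≤ 11 / 25 * (√(x ^ (2 : ℕ) + (-t) ^ (2 : ℕ)) * exp (-t)) := by positivity
  have h1 := pow_le_pow_left₀ h0 hΦ 2
  have h2 : √(x ^ (2 : ℕ) + (-t) ^ (2 : ℕ)) ^ (2 : ℕ) = x ^ (2 : ℕ) + t ^ (2 : ℕ) := by
    rw [Real.sq_sqrt (by positivity)]
    ring
  have h3 : exp (-(2 * t)) = exp (-t) ^ (2 : ℕ) := by
    rw [← Real.exp_nat_mul]
    congr 1
    push_cast
    ring
  rw [h3]
  calc 121 / 625 * exp (-t) ^ (2 : ℕ) * (x ^ (2 : ℕ) + t ^ (2 : ℕ))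
      = (11 / 25 * (√(x ^ (2 : ℕ) + (-t) ^ (2 : ℕ)) * exp (-t))) ^ (2 : ℕ) := by
        rw [mul_pow, mul_pow, h2]
        ring
    _ ≤ (x * (1 + -t)) ^ (2 : ℕ) := h1
    _ = x ^ (2 : ℕ) * (1 - t) ^ (2 : ℕ) := by ring

/-- lower bounds for `x` -/
private theorem s2low {x t x₀ t₀ : ℝ} (hx : 0 ≤ x) (h0 : 0 < t₀) (ht : t₀ ≤ t) (h1 : t ≤ 3 / 4)
    (hx0 : 0 < x₀) (hs : 121 / 625 * exp (-(2 * t)) * (x ^ (2 : ℕ) + t ^ (2 : ℕ)) ≤ x ^ (2 : ℕ) * (1 - t) ^ (2 : ℕ))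
    (hn : x₀ ^ (2 : ℕ) * (1 - t₀) ^ (2 : ℕ) ≤ 121 / 625 * (36787 / 100000 * (1 + (1 - 2 * t₀) +
      (1 - 2 * t₀) ^ (2 : ℕ) / 2 + (1 - 2 * t₀) ^ (3 : ℕ) / 6)) * (x₀ ^ (2 : ℕ) + t₀ ^ (2 : ℕ))) : x₀ ≤ x := by
  have hn' : x₀ ^ (2 : ℕ) * (1 - t₀) ^ (2 : ℕ) ≤ 121 / 625 * exp (-(2 * t₀)) * (x₀ ^ (2 : ℕ) + t₀ ^ (2 : ℕ)) := by
    refine hn.trans ?_
    refine mul_le_mul_of_nonneg_right ?_ (by positivity)
    exact mul_le_mul_of_nonneg_left (s2exp t₀) (by norm_num)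
  -- `e^(-t) / (1 - t)` increases
  have hA : exp (-(2 * t₀)) * (1 - t) ^ (2 : ℕ) ≤ exp (-(2 * t)) * (1 - t₀) ^ (2 : ℕ) := by
    have h2 : 1 - (t - t₀) ≤ exp (-(t - t₀)) := by
      have := add_one_le_exp (-(t - t₀))
      linarith
    have h3 : 1 - t ≤ exp (-(t - t₀)) * (1 - t₀) := by
      have h4 : (1 - (t - t₀)) * (1 - t₀) ≤ exp (-(t - t₀)) * (1 - t₀) :=
        mul_le_mul_of_nonneg_right h2 (by linarith)
      have h5 : 0 ≤ (t - t₀) * t₀ := mul_nonneg (by linarith) h0.le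
      linarith only [h4, h5]
    have h6 : (1 - t) ^ (2 : ℕ) ≤ (exp (-(t - t₀)) * (1 - t₀)) ^ (2 : ℕ) :=
      pow_le_pow_left₀ (by linarith) h3 2
    have h7 : exp (-(2 * t)) = exp (-(2 * t₀)) * exp (-(t - t₀)) ^ (2 : ℕ) := by
      rw [← Real.exp_nat_mul, ← exp_add]
      congr 1
      push_cast
      ring
    rw [h7]
    calc exp (-(2 * t₀)) * (1 - t) ^ (2 : ℕ) ≤ exp (-(2 * t₀)) * (exp (-(t - t₀)) * (1 - t₀)) ^ (2 : ℕ) :=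
          mul_le_mul_of_nonneg_left h6 (exp_pos _).le
      _ = exp (-(2 * t₀)) * exp (-(t - t₀)) ^ (2 : ℕ) * (1 - t₀) ^ (2 : ℕ) := by ring
  have hp : 0 < 121 / 625 * exp (-(2 * t)) * (1 - t₀) ^ (2 : ℕ) := by
    have : 0 < 1 - t₀ := by linarith
    positivity
  have h8 : (121 / 625 * exp (-(2 * t)) * (1 - t₀) ^ (2 : ℕ)) * (x₀ ^ (2 : ℕ) * (x ^ (2 : ℕ) + t ^ (2 : ℕ))) ≤
      (121 / 625 * exp (-(2 * t)) * (1 - t₀) ^ (2 : ℕ)) * (x ^ (2 : ℕ) * (x₀ ^ (2 : ℕ) + t₀ ^ (2 : ℕ))) := by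
    calc (121 / 625 * exp (-(2 * t)) * (1 - t₀) ^ (2 : ℕ)) * (x₀ ^ (2 : ℕ) * (x ^ (2 : ℕ) + t ^ (2 : ℕ)))
        = (121 / 625 * exp (-(2 * t)) * (x ^ (2 : ℕ) + t ^ (2 : ℕ))) * (x₀ ^ (2 : ℕ) * (1 - t₀) ^ (2 : ℕ)) := by ring
      _ ≤ (x ^ (2 : ℕ) * (1 - t) ^ (2 : ℕ)) * (x₀ ^ (2 : ℕ) * (1 - t₀) ^ (2 : ℕ)) :=
          mul_le_mul_of_nonneg_right hs (by positivity)
      _ ≤ (x ^ (2 : ℕ) * (1 - t) ^ (2 : ℕ)) * (121 / 625 * exp (-(2 * t₀)) * (x₀ ^ (2 : ℕ) + t₀ ^ (2 : ℕ))) :=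
          mul_le_mul_of_nonneg_left hn' (by positivity)
      _ = (121 / 625 * x ^ (2 : ℕ) * (x₀ ^ (2 : ℕ) + t₀ ^ (2 : ℕ))) * (exp (-(2 * t₀)) * (1 - t) ^ (2 : ℕ)) := by ring
      _ ≤ (121 / 625 * x ^ (2 : ℕ) * (x₀ ^ (2 : ℕ) + t₀ ^ (2 : ℕ))) * (exp (-(2 * t)) * (1 - t₀) ^ (2 : ℕ)) :=
          mul_le_mul_of_nonneg_left hA (by positivity)
      _ = _ := by ring
  have h9 := le_of_mul_le_mul_left h8 hp
  have h10 : (x₀ * t) ^ (2 : ℕ) ≤ (x * t₀) ^ (2 : ℕ) := by linarith only [h9]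
  have h11 : x₀ * t ≤ x * t₀ := le_of_pow_le_pow_left₀ two_ne_zero (by positivity) h10
  have h12 : x * t₀ ≤ x * t := mul_le_mul_of_nonneg_left ht hx
  exact le_of_mul_le_mul_right (h11.trans h12) (by linarith)

/-- `l` increases with `t` -/
private theorem s2mono {x t t₁ : ℝ} (hx : 0 ≤ x) (h0 : 0 ≤ t) (h : t ≤ t₁) (h1 : t₁ ≤ 1)
    (hG : 0 ≤ (129 / 50) ^ (2 : ℕ) * ((1 + x) * (1 - t₁) + x ^ (2 : ℕ) * (2 + x) / 2) ^ (2 : ℕ) -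
      ((1 + x) ^ (2 : ℕ) + 1) ^ (2 : ℕ) * ((1 - t₁) ^ (2 : ℕ) + x ^ (2 : ℕ))) :
    0 ≤ (129 / 50) ^ (2 : ℕ) * ((1 + x) * (1 - t) + x ^ (2 : ℕ) * (2 + x) / 2) ^ (2 : ℕ) -
      ((1 + x) ^ (2 : ℕ) + 1) ^ (2 : ℕ) * ((1 - t) ^ (2 : ℕ) + x ^ (2 : ℕ)) := by
  have hu0 : 0 ≤ 1 - (t + t₁) / 2 := by linarith
  have hu1 : 0 ≤ (t + t₁) / 2 := by linarith
  have e : (129 / 50) ^ (2 : ℕ) * ((1 + x) * (1 - t) + x ^ (2 : ℕ) * (2 + x) / 2) ^ (2 : ℕ) -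
      ((1 + x) ^ (2 : ℕ) + 1) ^ (2 : ℕ) * ((1 - t) ^ (2 : ℕ) + x ^ (2 : ℕ)) =
      ((129 / 50) ^ (2 : ℕ) * ((1 + x) * (1 - t₁) + x ^ (2 : ℕ) * (2 + x) / 2) ^ (2 : ℕ) -
      ((1 + x) ^ (2 : ℕ) + 1) ^ (2 : ℕ) * ((1 - t₁) ^ (2 : ℕ) + x ^ (2 : ℕ))) +
      2 * (t₁ - t) * ((t + t₁) / 2 * ((129 / 50) ^ (2 : ℕ) * ((1 + x) * (x ^ (2 : ℕ) * (2 + x))) / 2) +
        (1 - (t + t₁) / 2) * (6641 / 2500 + 6641 / 1250 * x + 6641 / 1250 * x ^ (2 : ℕ) +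
          29923 / 5000 * x ^ (3 : ℕ) + 11641 / 5000 * x ^ (4 : ℕ))) := by
    ring
  rw [e]
  have ht : 0 ≤ t₁ - t := by linarith
  refine add_nonneg hG ?_
  refine mul_nonneg (by positivity) (add_nonneg (mul_nonneg hu1 (by positivity))
    (mul_nonneg hu0 (by positivity)))

/-- the polynomial inequality for `l` -/
private theorem s2poly {x t : ℝ} (hx : 0 ≤ x) (ht0 : 0 ≤ t) (ht : t ≤ 3 / 4)
    (hs : 121 / 625 * exp (-(2 * t)) * (x ^ (2 : ℕ) + t ^ (2 : ℕ)) ≤ x ^ (2 : ℕ) * (1 - t) ^ (2 : ℕ)) :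
    0 ≤ (129 / 50) ^ (2 : ℕ) * ((1 + x) * (1 - t) + x ^ (2 : ℕ) * (2 + x) / 2) ^ (2 : ℕ) -
      ((1 + x) ^ (2 : ℕ) + 1) ^ (2 : ℕ) * ((1 - t) ^ (2 : ℕ) + x ^ (2 : ℕ)) := by
  rcases le_total t (143 / 200) with h1 | h1
  · refine s2mono hx ht0 h1 (by norm_num) ?_
    rcases le_total x (1 / 2) with h2 | h2
    · exact s2cG0_0 hx h2
    rcases le_total x 1 with h3 | h3
    · exact s2cG0_1 h2 h3
    · exact s2cG0_inf h3
  rcases le_total t (181 / 250) with h2 | h2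
  · refine s2mono hx ht0 h2 (by norm_num) (s2cG1 ?_)
    exact s2low hx (by norm_num) h1 ht (by norm_num) hs (by norm_num)
  rcases le_total t (183 / 250) with h3 | h3
  · refine s2mono hx ht0 h3 (by norm_num) (s2cG2 ?_)
    exact s2low hx (by norm_num) h2 ht (by norm_num) hs (by norm_num)
  rcases le_total t (37 / 50) with h4 | h4
  · refine s2mono hx ht0 h4 (by norm_num) (s2cG3 ?_)
    exact s2low hx (by norm_num) h3 ht (by norm_num) hs (by norm_num)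
  · refine s2mono hx ht0 ht (by norm_num) (s2cG4 ?_)
    exact s2low hx (by norm_num) h4 ht (by norm_num) hs (by norm_num)

private theorem s2pos {x t : ℝ} (ht : 0 < t)
    (hs : 121 / 625 * exp (-(2 * t)) * (x ^ (2 : ℕ) + t ^ (2 : ℕ)) ≤ x ^ (2 : ℕ) * (1 - t) ^ (2 : ℕ)) :
    121 / 625 * exp (-(2 * t)) < (1 - t) ^ (2 : ℕ) := by
  by_contra hn
  push Not at hn
  have h1 := mul_le_mul_of_nonneg_left hn (sq_nonneg x)
  have h2 : 0 < 121 / 625 * exp (-(2 * t)) * t ^ (2 : ℕ) := by positivity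
  linarith only [hs, h1, h2]

private theorem s2El {t : ℝ} : 121 / 625 * (36787 / 100000 * (1 + (1 - 2 * t) +
    (1 - 2 * t) ^ (2 : ℕ) / 2 + (1 - 2 * t) ^ (3 : ℕ) / 6)) ≤ 121 / 625 * exp (-(2 * t)) :=
  mul_le_mul_of_nonneg_left (s2exp t) (by norm_num)

private theorem s2D' {x t : ℝ} (ht : t ≤ 3 / 4)
    (hs : 121 / 625 * exp (-(2 * t)) * (x ^ (2 : ℕ) + t ^ (2 : ℕ)) ≤ x ^ (2 : ℕ) * (1 - t) ^ (2 : ℕ)) :
    17 / 50 ≤ (1 - t) ^ (2 : ℕ) + x ^ (2 : ℕ) := by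
  by_contra hn
  push Not at hn
  have ht2 : 2 / 5 ≤ t := by
    by_contra h
    push Not at h
    nlinarith only [hn, h]
  have hD : 0 ≤ 121 / 625 * (36787 / 100000 * (1 + (1 - 2 * t) + (1 - 2 * t) ^ (2 : ℕ) / 2 +
      (1 - 2 * t) ^ (3 : ℕ) / 6)) * (2 * t - 33 / 50) - (17 / 50 - (1 - t) ^ (2 : ℕ)) * (1 - t) ^ (2 : ℕ) -
        1 / 5000 := by
    rcases le_total t (39 / 80) with h1 | h1
    · exact s2cD0 ht2 h1
    rcases le_total t (17 / 32) with h2 | h2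
    · exact s2cD1 h1 h2
    rcases le_total t (23 / 40) with h3 | h3
    · exact s2cD2 h2 h3
    · exact s2cD3 h3 ht
  obtain ⟨E, hE⟩ : ∃ E, E = 121 / 625 * exp (-(2 * t)) := ⟨_, rfl⟩
  have hp := s2pos (by linarith) hs
  have hl := s2El (t := t)
  rw [← hE] at hp hs hl
  have h1 : x ^ (2 : ℕ) * ((1 - t) ^ (2 : ℕ) - E) ≤ (17 / 50 - (1 - t) ^ (2 : ℕ)) * ((1 - t) ^ (2 : ℕ) - E) :=
    mul_le_mul_of_nonneg_right (by linarith) (by linarith)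
  have h2 : E * (2 * t - 33 / 50) ≤ (17 / 50 - (1 - t) ^ (2 : ℕ)) * (1 - t) ^ (2 : ℕ) := by
    linarith only [hs, h1]
  have h3 := mul_le_mul_of_nonneg_right hl (show 0 ≤ 2 * t - 33 / 50 by linarith)
  linarith

private theorem s2mu' {x t : ℝ} (ht0 : 1 / 2 ≤ t) (ht : t ≤ 3 / 4)
    (hs : 121 / 625 * exp (-(2 * t)) * (x ^ (2 : ℕ) + t ^ (2 : ℕ)) ≤ x ^ (2 : ℕ) * (1 - t) ^ (2 : ℕ)) :
    x ^ (2 : ℕ) + t ^ (2 : ℕ) ≤ 1729 / 1000 * (1 + 2 / 3 * (t - 16 / 25)) * ((1 - t) ^ (2 : ℕ) + x ^ (2 : ℕ)) := by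
  by_contra hn
  push Not at hn
  have hM : 0 ≤ 121 / 625 * (36787 / 100000 * (1 + (1 - 2 * t) + (1 - 2 * t) ^ (2 : ℕ) / 2 +
      (1 - 2 * t) ^ (3 : ℕ) / 6)) * (1729 / 1000 * (1 + 2 / 3 * (t - 16 / 25))) * (2 * t - 1) -
      (t ^ (2 : ℕ) - 1729 / 1000 * (1 + 2 / 3 * (t - 16 / 25)) * (1 - t) ^ (2 : ℕ)) * (1 - t) ^ (2 : ℕ) := by
    rcases le_total t (5 / 8) with h1 | h1
    · exact s2cM0 ht0 h1
    · exact s2cM1 h1 ht
  obtain ⟨E, hE⟩ : ∃ E, E = 121 / 625 * exp (-(2 * t)) := ⟨_, rfl⟩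
  obtain ⟨R, hR⟩ : ∃ R, R = 1729 / 1000 * (1 + 2 / 3 * (t - 16 / 25)) := ⟨_, rfl⟩
  have hR1 : 1 < R := by
    rw [hR]
    linarith
  have hp := s2pos (by linarith) hs
  have hl := s2El (t := t)
  rw [← hE] at hp hs hl
  rw [← hR] at hn hM
  have h1 : (x ^ (2 : ℕ) * (R - 1)) * ((1 - t) ^ (2 : ℕ) - E) < (t ^ (2 : ℕ) - R * (1 - t) ^ (2 : ℕ)) * ((1 - t) ^ (2 : ℕ) - E) :=
    mul_lt_mul_of_pos_right (by linarith) (by linarith)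
  have h2 : (E * t ^ (2 : ℕ)) * (R - 1) ≤ (x ^ (2 : ℕ) * ((1 - t) ^ (2 : ℕ) - E)) * (R - 1) :=
    mul_le_mul_of_nonneg_right (by linarith) (by linarith)
  have h4 : E * R * (2 * t - 1) < (t ^ (2 : ℕ) - R * (1 - t) ^ (2 : ℕ)) * (1 - t) ^ (2 : ℕ) := by
    linarith only [h1, h2]
  have h5 := mul_le_mul_of_nonneg_right hl
    (show 0 ≤ R * (2 * t - 1) from mul_nonneg (by linarith) (by linarith))
  linarith

private theorem s2R {t : ℝ} (ht0 : 1 / 2 ≤ t) :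
    (1729 / 1000 * (1 + 2 / 3 * (t - 16 / 25))) ^ (3 : ℕ) * exp (-(2 * t)) ≤ (6 / 5) ^ (2 : ℕ) := by
  have h1 : 1 + 2 / 3 * (t - 16 / 25) ≤ exp (2 / 3 * (t - 16 / 25)) := by
    have := add_one_le_exp (2 / 3 * (t - 16 / 25))
    linarith
  have h2 := pow_le_pow_left₀ (show 0 ≤ 1 + 2 / 3 * (t - 16 / 25) by linarith) h1 3
  have h3 : exp (2 / 3 * (t - 16 / 25)) ^ (3 : ℕ) * exp (-(2 * t)) = exp (-(32 / 25)) := by
    rw [← Real.exp_nat_mul, ← exp_add]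
    congr 1
    push_cast
    ring
  have h4 : (35957 / 10000 : ℝ) ≤ exp (32 / 25) := by
    have h5 : exp (32 / 25) = exp 1 * exp (7 / 25) := by
      rw [← exp_add]
      norm_num
    have h6 : (27182 / 10000 : ℝ) ≤ exp 1 := by
      have := Real.exp_one_gt_d9
      norm_num at this ⊢
      linarith
    have h7 := s2cub (7 / 25)
    rw [h5]
    calc (35957 / 10000 : ℝ) ≤ 27182 / 10000 * (1 + 7 / 25 + (7 / 25) ^ (2 : ℕ) / 2 + (7 / 25) ^ (3 : ℕ) / 6) := by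
          norm_num
      _ ≤ exp 1 * exp (7 / 25) := mul_le_mul h6 h7 (by norm_num) (exp_pos 1).le
  have h8 : exp (-(32 / 25)) ≤ 10000 / 35957 := by
    rw [exp_neg]
    have := inv_anti₀ (by norm_num) h4
    refine this.trans (le_of_eq (by norm_num))
  calc (1729 / 1000 * (1 + 2 / 3 * (t - 16 / 25))) ^ (3 : ℕ) * exp (-(2 * t))
      = (1729 / 1000) ^ (3 : ℕ) * ((1 + 2 / 3 * (t - 16 / 25)) ^ (3 : ℕ) * exp (-(2 * t))) := by ring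
    _ ≤ (1729 / 1000) ^ (3 : ℕ) * (exp (2 / 3 * (t - 16 / 25)) ^ (3 : ℕ) * exp (-(2 * t))) :=
        mul_le_mul_of_nonneg_left (mul_le_mul_of_nonneg_right h2 (exp_pos _).le) (by norm_num)
    _ = (1729 / 1000) ^ (3 : ℕ) * exp (-(32 / 25)) := by rw [h3]
    _ ≤ (1729 / 1000) ^ (3 : ℕ) * (10000 / 35957) := mul_le_mul_of_nonneg_left h8 (by norm_num)
    _ ≤ (6 / 5) ^ (2 : ℕ) := by norm_num

/-! ### The four inequalities -/

/-- true infimum `.34303` (at `y = -.5385`) -/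
theorem s2_D {x y : ℝ} (hx : 0 ≤ x) (hy : -(3 / 4) ≤ y) (hy1 : y ≤ 0)
    (hΦ : 11 / 25 * (√(x ^ (2 : ℕ) + y ^ (2 : ℕ)) * exp y) ≤ x * (1 + y)) :
    17 / 50 ≤ (1 + y) ^ (2 : ℕ) + x ^ (2 : ℕ) := by
  obtain ⟨t, rfl⟩ : ∃ t, y = -t := ⟨-y, by ring⟩
  have h := s2D' (by linarith) (s2sq hΦ)
  refine h.trans (le_of_eq ?_)
  ring

theorem s2_T {x y : ℝ} (hx : 0 ≤ x) (hy : -(3 / 4) ≤ y) (hy1 : y ≤ 0)
    (hΦ : 11 / 25 * (√(x ^ (2 : ℕ) + y ^ (2 : ℕ)) * exp y) ≤ x * (1 + y)) :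
    -(41 / 20) * x ≤ y := by
  obtain ⟨t, rfl⟩ : ∃ t, y = -t := ⟨-y, by ring⟩
  have hs := s2sq hΦ
  have h1 : (1 - t) ^ (2 : ℕ) ≤ exp (-(2 * t)) := by
    have h2 : 1 - t ≤ exp (-t) := en_ge1
    have h3 : exp (-(2 * t)) = exp (-t) ^ (2 : ℕ) := by
      rw [← Real.exp_nat_mul]
      congr 1
      push_cast
      ring
    rw [h3]
    exact pow_le_pow_left₀ (by linarith) h2 2
  have hp := exp_pos (-(2 * t))
  have h4 : exp (-(2 * t)) * (121 / 625 * (x ^ (2 : ℕ) + t ^ (2 : ℕ))) ≤ exp (-(2 * t)) * x ^ (2 : ℕ) := by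
    have := mul_le_mul_of_nonneg_left h1 (sq_nonneg x)
    nlinarith only [hs, h1]
  have h5 := le_of_mul_le_mul_left h4 hp
  have h6 : t ^ (2 : ℕ) ≤ (41 / 20 * x) ^ (2 : ℕ) := by nlinarith only [h5]
  have h7 : t ≤ 41 / 20 * x := le_of_pow_le_pow_left₀ two_ne_zero (by positivity) h6
  linarith

/-- true supremum `1.2796` (at `x = .91, y = -.728`); `1.3334` without `hΦ` -/
theorem s2_l {x y : ℝ} (hx : 0 ≤ x) (hy : -(3 / 4) ≤ y) (hy1 : y ≤ 0)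
    (hΦ : 11 / 25 * (√(x ^ (2 : ℕ) + y ^ (2 : ℕ)) * exp y) ≤ x * (1 + y)) :
    (1 + (1 / (1 + x)) ^ (2 : ℕ)) * √((1 + y) ^ (2 : ℕ) + x ^ (2 : ℕ)) ≤ 2 * (129 / 100) * Qf x y := by
  obtain ⟨t, rfl⟩ : ∃ t, y = -t := ⟨-y, by ring⟩
  have hG := s2poly hx (by linarith) (by linarith) (s2sq hΦ)
  have hx1 : 0 < 1 + x := by linarith
  have hq : Qf x (-t) * (1 + x) ^ (2 : ℕ) = (1 + x) * (1 - t) + x ^ (2 : ℕ) * (2 + x) / 2 := by
    unfold Qf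
    field_simp
    ring
  have hc : (1 + (1 / (1 + x)) ^ (2 : ℕ)) * (1 + x) ^ (2 : ℕ) = (1 + x) ^ (2 : ℕ) + 1 := by
    field_simp
  have hB : 0 ≤ (1 + x) * (1 - t) + x ^ (2 : ℕ) * (2 + x) / 2 := by
    have : 0 ≤ 1 - t := by linarith
    positivity
  have h1 : ((1 + x) ^ (2 : ℕ) + 1) * √((1 + -t) ^ (2 : ℕ) + x ^ (2 : ℕ)) ≤
      129 / 50 * ((1 + x) * (1 - t) + x ^ (2 : ℕ) * (2 + x) / 2) := by
    refine le_of_pow_le_pow_left₀ two_ne_zero (by positivity) ?_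
    rw [mul_pow, mul_pow, Real.sq_sqrt (by positivity)]
    have e : (1 + -t) ^ (2 : ℕ) + x ^ (2 : ℕ) = (1 - t) ^ (2 : ℕ) + x ^ (2 : ℕ) := by ring
    rw [e]
    linarith
  have h2 : 0 < (1 + x) ^ (2 : ℕ) := by positivity
  refine le_of_mul_le_mul_right ?_ h2
  calc (1 + (1 / (1 + x)) ^ (2 : ℕ)) * √((1 + -t) ^ (2 : ℕ) + x ^ (2 : ℕ)) * (1 + x) ^ (2 : ℕ)
      = ((1 + (1 / (1 + x)) ^ (2 : ℕ)) * (1 + x) ^ (2 : ℕ)) * √((1 + -t) ^ (2 : ℕ) + x ^ (2 : ℕ)) := by ring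
    _ = ((1 + x) ^ (2 : ℕ) + 1) * √((1 + -t) ^ (2 : ℕ) + x ^ (2 : ℕ)) := by rw [hc]
    _ ≤ 129 / 50 * ((1 + x) * (1 - t) + x ^ (2 : ℕ) * (2 + x) / 2) := h1
    _ = 129 / 50 * (Qf x (-t) * (1 + x) ^ (2 : ℕ)) := by rw [hq]
    _ = 2 * (129 / 100) * Qf x (-t) * (1 + x) ^ (2 : ℕ) := by ring

/-- true supremum `1.1333` (at `x = .56, y = -.647`) -/
theorem s2_mu {x y : ℝ} (hx : 0 ≤ x) (hy : -(3 / 4) ≤ y) (hy1 : y ≤ 0)
    (hΦ : 11 / 25 * (√(x ^ (2 : ℕ) + y ^ (2 : ℕ)) * exp y) ≤ x * (1 + y)) :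
    √(x ^ (2 : ℕ) + y ^ (2 : ℕ)) ^ (3 : ℕ) * exp y ≤ 6 / 5 * √((1 + y) ^ (2 : ℕ) + x ^ (2 : ℕ)) ^ (3 : ℕ) := by
  obtain ⟨t, rfl⟩ : ∃ t, y = -t := ⟨-y, by ring⟩
  have hD0 : 0 ≤ √((1 + -t) ^ (2 : ℕ) + x ^ (2 : ℕ)) := Real.sqrt_nonneg _
  rcases le_total t (1 / 2) with h1 | h1
  · have h2 : √(x ^ (2 : ℕ) + (-t) ^ (2 : ℕ)) ≤ √((1 + -t) ^ (2 : ℕ) + x ^ (2 : ℕ)) := Real.sqrt_le_sqrt (by linarith only [h1])
    have h3 : √(x ^ (2 : ℕ) + (-t) ^ (2 : ℕ)) ^ (3 : ℕ) ≤ √((1 + -t) ^ (2 : ℕ) + x ^ (2 : ℕ)) ^ (3 : ℕ) :=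
      pow_le_pow_left₀ (Real.sqrt_nonneg _) h2 3
    have h4 : exp (-t) ≤ 1 := exp_le_one_iff.2 hy1
    calc √(x ^ (2 : ℕ) + (-t) ^ (2 : ℕ)) ^ (3 : ℕ) * exp (-t) ≤ √((1 + -t) ^ (2 : ℕ) + x ^ (2 : ℕ)) ^ (3 : ℕ) * 1 :=
          mul_le_mul h3 h4 (exp_pos _).le (by positivity)
      _ ≤ 6 / 5 * √((1 + -t) ^ (2 : ℕ) + x ^ (2 : ℕ)) ^ (3 : ℕ) := by
          have : 0 ≤ √((1 + -t) ^ (2 : ℕ) + x ^ (2 : ℕ)) ^ (3 : ℕ) := by positivity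
          linarith
  · have h2 := s2mu' h1 (by linarith) (s2sq hΦ)
    have h3 := s2R h1
    obtain ⟨R, hR⟩ : ∃ R, R = 1729 / 1000 * (1 + 2 / 3 * (t - 16 / 25)) := ⟨_, rfl⟩
    have hR0 : 0 < R := by
      rw [hR]
      linarith
    rw [← hR] at h2 h3
    refine le_of_pow_le_pow_left₀ two_ne_zero (by positivity) ?_
    have e1 : (√(x ^ (2 : ℕ) + (-t) ^ (2 : ℕ)) ^ (3 : ℕ) * exp (-t)) ^ (2 : ℕ) = (x ^ (2 : ℕ) + t ^ (2 : ℕ)) ^ (3 : ℕ) * exp (-(2 * t)) := by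
      have e3 : √(x ^ (2 : ℕ) + (-t) ^ (2 : ℕ)) ^ (2 : ℕ) = x ^ (2 : ℕ) + t ^ (2 : ℕ) := by
        rw [Real.sq_sqrt (by positivity)]
        ring
      have e4 : exp (-(2 * t)) = exp (-t) ^ (2 : ℕ) := by
        rw [← Real.exp_nat_mul]
        congr 1
        push_cast
        ring
      rw [e4, ← e3]
      ring
    have e2 : (6 / 5 * √((1 + -t) ^ (2 : ℕ) + x ^ (2 : ℕ)) ^ (3 : ℕ)) ^ (2 : ℕ) = (6 / 5) ^ (2 : ℕ) * ((1 - t) ^ (2 : ℕ) + x ^ (2 : ℕ)) ^ (3 : ℕ) := by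
      have e3 : √((1 + -t) ^ (2 : ℕ) + x ^ (2 : ℕ)) ^ (2 : ℕ) = (1 - t) ^ (2 : ℕ) + x ^ (2 : ℕ) := by
        rw [Real.sq_sqrt (by positivity)]
        ring
      rw [← e3]
      ring
    rw [e1, e2]
    have h4 := pow_le_pow_left₀ (by positivity) h2 3
    calc (x ^ (2 : ℕ) + t ^ (2 : ℕ)) ^ (3 : ℕ) * exp (-(2 * t))
        ≤ (R * ((1 - t) ^ (2 : ℕ) + x ^ (2 : ℕ))) ^ (3 : ℕ) * exp (-(2 * t)) :=
          mul_le_mul_of_nonneg_right h4 (exp_pos _).le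
      _ = (R ^ (3 : ℕ) * exp (-(2 * t))) * ((1 - t) ^ (2 : ℕ) + x ^ (2 : ℕ)) ^ (3 : ℕ) := by ring
      _ ≤ (6 / 5) ^ (2 : ℕ) * ((1 - t) ^ (2 : ℕ) + x ^ (2 : ℕ)) ^ (3 : ℕ) := mul_le_mul_of_nonneg_right h3 (by positivity)

end SokamF1B

end

/-! ### Lib_MP_af4de1_v3o.OFL -/

section
namespace SokamF1G
end SokamF1G
set_option autoImplicit false

namespace SokamV3O

open Real SokamF1G

/-! ### elementary facts -/

theorem shp_basic {x y z τ k ψ Y : ℝ} (h : Shp x y z τ k ψ Y) :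
    x ≤ k ∧ 2 * x * k ≤ 2 * x ^ (2 : ℕ) + y ^ (2 : ℕ) := by
  have h1 : k ^ (2 : ℕ) = x ^ (2 : ℕ) + y ^ (2 : ℕ) := by
    rw [h.hx, h.hy]
    have := Real.sin_sq_add_cos_sq ψ
    nlinarith
  have h2 : x ≤ k := by
    have := h.k0
    have := h.x0
    nlinarith [sq_nonneg y]
  refine ⟨h2, ?_⟩
  have : 0 ≤ (k - x) ^ (2 : ℕ) := sq_nonneg _
  nlinarith

theorem r_big {ρ r : ℝ} (hR : 27 / 5 * (1 + ρ ^ (2 : ℕ)) ≤ r * (2 * π / 3) ^ (2 : ℕ)) (hr : 499 / 10 ≤ r) :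
    1231 / 1000 * (1 + ρ ^ (2 : ℕ)) ≤ r := by
  have h1 := Real.pi_lt_d6
  have h0 := Real.pi_pos
  have h2 : (2 * π / 3) ^ (2 : ℕ) ≤ 43865 / 10000 := by nlinarith only [h1, h0]
  have h3 : r * (2 * π / 3) ^ (2 : ℕ) ≤ r * (43865 / 10000) :=
    mul_le_mul_of_nonneg_left h2 (by linarith only [hr])
  nlinarith only [hR, h3]

theorem a4_lo {x : ℝ} (h0 : 0 < x) (h : x ≤ 3) : a4 x = 1 := by
  unfold a4
  rw [min_eq_left]
  rw [le_div_iff₀ (by linarith only [h0])]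
  linarith only [h]

theorem a4_hi {x : ℝ} (h : 3 ≤ x) : a4 x = 4 * (1 / (1 + x)) := by
  unfold a4
  rw [min_eq_right]
  · ring
  · rw [div_le_iff₀ (by linarith only [h])]
    linarith only [h]

/-- `x ≥ 3`: the constraint on `v = y (1 + x)` -/
theorem v_le {c v : ℝ} (c0 : 0 ≤ c) (c1 : c ≤ 1 / 4) (v0 : 0 ≤ v)
    (hv : (1 - c) * (v + v ^ (2 : ℕ) * c / 2) ≤ 15708 / 10000) : v ≤ 15708 / 10000 + 65 / 100 * c := by
  by_contra hh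
  push Not at hh
  set V : ℝ := 15708 / 10000 + 65 / 100 * c with hV
  have h1 : V ^ (2 : ℕ) ≤ v ^ (2 : ℕ) := by
    have : 0 ≤ V := by (clear * - c0; positivity)
    nlinarith only [hh, this]
  have h2 : (1 - c) * (V + V ^ (2 : ℕ) * c / 2) < (1 - c) * (v + v ^ (2 : ℕ) * c / 2) := by
    apply mul_lt_mul_of_pos_left _ (by linarith only [c1])
    have : V ^ (2 : ℕ) * c ≤ v ^ (2 : ℕ) * c := mul_le_mul_of_nonneg_right h1 c0
    linarith only [hh, this]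
  have h3 : 15708 / 10000 ≤ (1 - c) * (V + V ^ (2 : ℕ) * c / 2) := by
    rw [hV]
    have e : (1 - c) * (15708 / 10000 + 65 / 100 * c + (15708 / 10000 + 65 / 100 * c) ^ (2 : ℕ) * c / 2)
        - 15708 / 10000 = c * ((1 - c) * (65 / 100 + (15708 / 10000 + 65 / 100 * c) ^ (2 : ℕ) / 2)
          - 15708 / 10000) := by ring
    have h4 : 0 ≤ (1 - c) * (65 / 100 + (15708 / 10000 + 65 / 100 * c) ^ (2 : ℕ) / 2)
          - 15708 / 10000 := by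
      nlinarith only [mul_nonneg (mul_nonneg c0 c0) (sub_nonneg.2 c1)]
    linarith only [mul_nonneg c0 h4]
  linarith only [hv, h2, h3]

/-- the polynomial -/
noncomputable def Dp (c v : ℝ) : ℝ :=
  87548 / 10000 - 285 / 100 * c - (1887 / 10000 + 4 * c) * v
    - (1 - 3 * c + 3813 / 1000 * c ^ (2 : ℕ)) * v ^ (2 : ℕ) - c * (1 - c) / 2 * v ^ (3 : ℕ)

theorem Dp_mono {c v V : ℝ} (c0 : 0 ≤ c) (c1 : c ≤ 1 / 4) (v0 : 0 ≤ v) (hv : v ≤ V) :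
    Dp c V ≤ Dp c v := by
  unfold Dp
  have h2 : v ^ (2 : ℕ) ≤ V ^ (2 : ℕ) := pow_le_pow_left₀ v0 hv 2
  have h3 : v ^ (3 : ℕ) ≤ V ^ (3 : ℕ) := pow_le_pow_left₀ v0 hv 3
  have a1 : (1887 / 10000 + 4 * c) * v ≤ (1887 / 10000 + 4 * c) * V :=
    mul_le_mul_of_nonneg_left hv (by (clear * - c0; positivity))
  have a2 : (1 - 3 * c + 3813 / 1000 * c ^ (2 : ℕ)) * v ^ (2 : ℕ) ≤ (1 - 3 * c + 3813 / 1000 * c ^ (2 : ℕ)) * V ^ (2 : ℕ) :=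
    mul_le_mul_of_nonneg_left h2 (by nlinarith only [sq_nonneg (c - 4 / 10)])
  have a3 : c * (1 - c) / 2 * v ^ (3 : ℕ) ≤ c * (1 - c) / 2 * V ^ (3 : ℕ) :=
    mul_le_mul_of_nonneg_left h3 (by nlinarith only [c0, c1])
  linarith

theorem QD {c v : ℝ} (c0 : 0 ≤ c) (c1 : c ≤ 1 / 4) (v0 : 0 ≤ v)
    (hv : v ≤ 15708 / 10000 + 65 / 100 * c) :
    4062 / 1000 ≤ (1 - c) * (1 + v * c + v ^ (2 : ℕ) * c ^ (2 : ℕ) / 2) * Dp c v ∧ 0 < Dp c v ∧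
      3 / 4 ≤ (1 - c) * (1 + v * c + v ^ (2 : ℕ) * c ^ (2 : ℕ) / 2) := by
  have hc2 : 0 ≤ c ^ (2 : ℕ) := sq_nonneg c
  have q0 : 3 / 4 ≤ (1 - c) * (1 + v * c + v ^ (2 : ℕ) * c ^ (2 : ℕ) / 2) := by
    have h1 : 0 ≤ v * c + v ^ (2 : ℕ) * c ^ (2 : ℕ) / 2 := by (clear * - v0 c0; positivity)
    linarith only [c1, mul_nonneg h1 (by linarith : (0 : ℝ) ≤ 1 - c)]
  have qm : ∀ w : ℝ, 0 ≤ w → w ≤ v → (1 - c) * (1 + w * c + w ^ (2 : ℕ) * c ^ (2 : ℕ) / 2) ≤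
      (1 - c) * (1 + v * c + v ^ (2 : ℕ) * c ^ (2 : ℕ) / 2) := by
    intro w hw0 hw
    apply mul_le_mul_of_nonneg_left _ (by linarith only [c1])
    have h1 : w * c ≤ v * c := mul_le_mul_of_nonneg_right hw c0
    have h2 : w ^ (2 : ℕ) * c ^ (2 : ℕ) ≤ v ^ (2 : ℕ) * c ^ (2 : ℕ) :=
      mul_le_mul_of_nonneg_right (pow_le_pow_left₀ hw0 hw 2) hc2
    linarith only [h1, h2]
  rcases le_total v 1 with h1 | h1
  · have hD : 62 / 10 ≤ Dp c v := by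
      refine le_trans ?_ (Dp_mono c0 c1 v0 h1)
      unfold Dp
      nlinarith only [mul_nonneg c0 (sub_nonneg.2 c1)]
    refine ⟨?_, by linarith only [hD], q0⟩
    nlinarith only [q0, hD]
  · rcases le_total v (7 / 5) with h2 | h2
    · have hD : 51 / 10 ≤ Dp c v := by
        refine le_trans ?_ (Dp_mono c0 c1 v0 h2)
        unfold Dp
        nlinarith only [mul_nonneg c0 (sub_nonneg.2 c1)]
      have hq : 96 / 100 ≤ (1 - c) * (1 + v * c + v ^ (2 : ℕ) * c ^ (2 : ℕ) / 2) := by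
        refine le_trans ?_ (qm 1 (by norm_num) h1)
        nlinarith only [mul_nonneg c0 (sub_nonneg.2 c1)]
      refine ⟨?_, by linarith only [hD], q0⟩
      nlinarith only [hD, hq]
    · have hD : 598 / 100 - 785 / 100 * c ≤ Dp c v := by
        refine le_trans ?_ (Dp_mono c0 c1 v0 hv)
        unfold Dp
        nlinarith only [mul_nonneg c0 (sub_nonneg.2 c1), mul_nonneg hc2 (sub_nonneg.2 c1)]
      have hq : 1 + 2 / 10 * c ≤ (1 - c) * (1 + v * c + v ^ (2 : ℕ) * c ^ (2 : ℕ) / 2) := by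
        refine le_trans ?_ (qm (7 / 5) (by norm_num) h2)
        nlinarith only [mul_nonneg c0 (sub_nonneg.2 c1)]
      have hD0 : 0 < Dp c v := by linarith only [c1, hD]
      refine ⟨?_, hD0, q0⟩
      have h5 : (1 + 2 / 10 * c) * (598 / 100 - 785 / 100 * c) ≤
          (1 - c) * (1 + v * c + v ^ (2 : ℕ) * c ^ (2 : ℕ) / 2) * Dp c v :=
        mul_le_mul hq hD (by linarith only [c1]) (by linarith only [q0])
      nlinarith only [h5, mul_nonneg c0 (sub_nonneg.2 c1)]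


/-- common data for `x ≥ 3`: `c = 1 / (1 + x)`, `v = y (1 + x)` -/
theorem hi_data {x y z τ k ψ ρ r : ℝ} (h : ShL x y z τ k ψ) (hρ : ρ = k * exp y) (hr : 499 / 10 ≤ r)
    (hR : 27 / 5 * (1 + ρ ^ (2 : ℕ)) ≤ r * (2 * π / 3) ^ (2 : ℕ)) (hη : ψ + ρ - x ≤ π / 2) (hx3 : 3 ≤ x) :
    ∃ c v : ℝ, a4 x = 4 * c ∧ 0 < c ∧ c ≤ 1 / 4 ∧ x * c = 1 - c ∧ 0 ≤ v ∧ y = v * c ∧
      v ≤ 15708 / 10000 + 65 / 100 * c ∧
      (1 - c) * (v + v ^ (2 : ℕ) * c / 2) ≤ ρ - x ∧ (1 - c) * (1 + v * c + v ^ (2 : ℕ) * c ^ (2 : ℕ) / 2) ≤ ρ * c ∧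
      (k - x) ≤ 2 / 3 * v ^ (2 : ℕ) * c ^ (3 : ℕ) ∧ 0 ≤ k - x ∧ 1231 / 1000 * (1 + ρ ^ (2 : ℕ)) ≤ r ∧ 0 < ρ := by
  obtain ⟨hxk, hk2⟩ := shp_basic h
  have hX : 0 < 1 + x := by linarith only [hx3]
  have hxc : x * (1 / (1 + x)) = 1 - 1 / (1 + x) := by
    field_simp
    ring
  have hc0 : 0 < 1 / (1 + x) := by positivity
  have hc1 : 1 / (1 + x) ≤ 1 / 4 := by
    apply one_div_le_one_div_of_le (by norm_num)
    linarith only [hx3]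
  have hyc : y = y * (1 + x) * (1 / (1 + x)) := by
    field_simp
  have hv0 : 0 ≤ y * (1 + x) := mul_nonneg h.y0 hX.le
  set c : ℝ := 1 / (1 + x) with hc
  set v : ℝ := y * (1 + x) with hv
  have hy0 := h.y0
  have he : 1 + y + y ^ (2 : ℕ) / 2 ≤ exp y := by
    have := Real.quadratic_le_exp_of_nonneg hy0
    linarith only [this]
  have hρ1 : x * (1 + y + y ^ (2 : ℕ) / 2) ≤ ρ := by
    rw [hρ]
    exact mul_le_mul hxk he (by (clear * - hy0; positivity)) h.k0.le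
  have hw : (1 - c) * (v + v ^ (2 : ℕ) * c / 2) ≤ ρ - x := by
    have e : x * (1 + y + y ^ (2 : ℕ) / 2) - x = (1 - c) * (v + v ^ (2 : ℕ) * c / 2) := by
      rw [hyc, ← hxc]
      ring
    linarith only [hρ1, e]
  have hq : (1 - c) * (1 + v * c + v ^ (2 : ℕ) * c ^ (2 : ℕ) / 2) ≤ ρ * c := by
    have e : x * (1 + y + y ^ (2 : ℕ) / 2) * c = (1 - c) * (1 + v * c + v ^ (2 : ℕ) * c ^ (2 : ℕ) / 2) := by
      rw [hyc, ← hxc]
      ring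
    rw [← e]
    exact mul_le_mul_of_nonneg_right hρ1 hc0.le
  have hπ := Real.pi_lt_d6
  have hvv : v ≤ 15708 / 10000 + 65 / 100 * c :=
    v_le hc0.le hc1 hv0 (by linarith only [hη, hw, hπ, h.ψ0])
  have hkx : (k - x) ≤ 2 / 3 * v ^ (2 : ℕ) * c ^ (3 : ℕ) := by
    have h1 : 2 * x * (k - x) ≤ y ^ (2 : ℕ) := by linarith only [hk2]
    have h2 : 2 * (1 - c) * (k - x) ≤ v ^ (2 : ℕ) * c ^ (3 : ℕ) := by
      have h3 : 2 * x * (k - x) * c ≤ y ^ (2 : ℕ) * c := mul_le_mul_of_nonneg_right h1 hc0.le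
      have e1 : 2 * x * (k - x) * c = 2 * (1 - c) * (k - x) := by
        rw [← hxc]
        ring
      have e2 : y ^ (2 : ℕ) * c = v ^ (2 : ℕ) * c ^ (3 : ℕ) := by
        rw [hyc]
        ring
      linarith only [h3, e1, e2]
    linarith only [h2, mul_nonneg (sub_nonneg.2 hc1) (sub_nonneg.2 hxk)]
  have hρ0 : 0 < ρ := by
    rw [hρ]
    exact mul_pos h.k0 (exp_pos y)
  exact ⟨c, v, a4_hi hx3, hc0, hc1, hxc, hv0, hyc, hvv, hw, hq, hkx, by linarith only [hxk],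
    r_big hR hr, hρ0⟩

/-- from `ρ² ℓ` to `r ℓ` -/
theorem r_mul {ρ r c Q D ℓ A : ℝ} (hρ : 0 < ρ) (hr : 1231 / 1000 * (1 + ρ ^ (2 : ℕ)) ≤ r) (hc : 0 < c)
    (hQ : Q ≤ ρ * c) (hD : 0 ≤ D) (hℓ : c * D ≤ ℓ) (hA : 1000 / 1231 * A ≤ Q * D) :
    A * ρ ≤ r * ℓ := by
  have h1 : 0 ≤ ℓ := (mul_nonneg hc.le hD).trans hℓ
  have h2 : 1231 / 1000 * ρ ^ (2 : ℕ) * ℓ ≤ r * ℓ :=
    mul_le_mul_of_nonneg_right (by linarith only [hr]) h1
  have h3 : 1000 / 1231 * A ≤ ρ * ℓ := by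
    have a1 : Q * D ≤ ρ * c * D := mul_le_mul_of_nonneg_right hQ hD
    have a2 : ρ * (c * D) ≤ ρ * ℓ := mul_le_mul_of_nonneg_left hℓ hρ.le
    linarith only [hA, a1, a2]
  have h4 : ρ * (1000 / 1231 * A) ≤ ρ * (ρ * ℓ) := mul_le_mul_of_nonneg_left h3 hρ.le
  linarith only [h2, h4]

/-- `x ≤ 3`: the polynomial -/
theorem lo_poly {x y : ℝ} (hx : 5 / 4 * y ≤ x) (hx3 : x ≤ 3) (hy : 0 ≤ y) (hy1 : y ≤ 14 / 25) :
    0 ≤ 2 * x * (1 - y) * (41887 / 10000 - x) + 4 * x ^ (2 : ℕ) -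
      (2719 / 1000 - (8997 / 10000 - y) * (1 + y + y ^ (2 : ℕ) / 2 + y ^ (3 : ℕ) / 6)) * (2 * x ^ (2 : ℕ) + y ^ (2 : ℕ)) := by
  set C : ℝ := 2719 / 1000 - (8997 / 10000 - y) * (1 + y + y ^ (2 : ℕ) / 2 + y ^ (3 : ℕ) / 6) with hC
  have hy2 : 0 ≤ y ^ (2 : ℕ) := sq_nonneg y
  have hA : 0 ≤ C - (1 + y) := by
    rw [hC]
    nlinarith only [mul_nonneg hy (sub_nonneg.2 hy1), mul_nonneg hy2 (sub_nonneg.2 hy1)]
  -- concave in `x`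
  have hx2 : x ^ (2 : ℕ) ≤ (3 + 5 / 4 * y) * x - 15 / 4 * y := by
    linarith only [mul_nonneg (sub_nonneg.2 hx) (sub_nonneg.2 hx3)]
  have g1 : 0 ≤ 2 * (5 / 4 * y) * (1 - y) * (41887 / 10000) - 2 * (C - (1 + y)) * (5 / 4 * y) ^ (2 : ℕ)
      - C * y ^ (2 : ℕ) := by
    have e : 2 * (5 / 4 * y) * (1 - y) * (41887 / 10000) - 2 * (C - (1 + y)) * (5 / 4 * y) ^ (2 : ℕ)
      - C * y ^ (2 : ℕ) = y * (5 / 2 * (1 - y) * (41887 / 10000) - 25 / 8 * (C - (1 + y)) * y - C * y) := by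
      ring
    rw [e]
    apply mul_nonneg hy
    rw [hC]
    nlinarith only [mul_nonneg (mul_nonneg hy2 hy) (sub_nonneg.2 hy1), mul_nonneg (mul_nonneg hy2 hy2) (sub_nonneg.2 hy1)]
  have g2 : 0 ≤ 2 * 3 * (1 - y) * (41887 / 10000) - 2 * (C - (1 + y)) * 3 ^ (2 : ℕ) - C * y ^ (2 : ℕ) := by
    rw [hC]
    nlinarith only [mul_nonneg (mul_nonneg hy2 hy) (sub_nonneg.2 hy1), mul_nonneg (mul_nonneg hy2 hy2) (sub_nonneg.2 hy1), mul_nonneg (mul_nonneg (mul_nonneg hy2 hy2) hy) (sub_nonneg.2 hy1)]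
  have e0 : 2 * x * (1 - y) * (41887 / 10000 - x) + 4 * x ^ (2 : ℕ) - C * (2 * x ^ (2 : ℕ) + y ^ (2 : ℕ)) =
      2 * x * (1 - y) * (41887 / 10000) - 2 * (C - (1 + y)) * x ^ (2 : ℕ) - C * y ^ (2 : ℕ) := by ring
  rw [e0]
  have h3 : 2 * (C - (1 + y)) * x ^ (2 : ℕ) ≤ 2 * (C - (1 + y)) * ((3 + 5 / 4 * y) * x - 15 / 4 * y) :=
    mul_le_mul_of_nonneg_left hx2 (by linarith only [hA])
  suffices hs : 0 ≤ 2 * x * (1 - y) * (41887 / 10000) -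
      2 * (C - (1 + y)) * ((3 + 5 / 4 * y) * x - 15 / 4 * y) - C * y ^ (2 : ℕ) by linarith only [h3, hs]
  have hpos : 0 < 3 - 5 / 4 * y := by linarith only [hy1]
  have e1 : (3 - 5 / 4 * y) * (2 * x * (1 - y) * (41887 / 10000) -
      2 * (C - (1 + y)) * ((3 + 5 / 4 * y) * x - 15 / 4 * y) - C * y ^ (2 : ℕ)) =
      (3 - x) * (2 * (5 / 4 * y) * (1 - y) * (41887 / 10000) -
        2 * (C - (1 + y)) * (5 / 4 * y) ^ (2 : ℕ) - C * y ^ (2 : ℕ)) +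
      (x - 5 / 4 * y) * (2 * 3 * (1 - y) * (41887 / 10000) - 2 * (C - (1 + y)) * 3 ^ (2 : ℕ) -
        C * y ^ (2 : ℕ)) := by ring
  have h5 := mul_nonneg (sub_nonneg.2 hx3) g1
  have h6 := mul_nonneg (sub_nonneg.2 hx) g2
  by_contra hh
  push Not at hh
  have := mul_neg_of_pos_of_neg hpos hh
  linarith only [h5, h6, this]

theorem poly_hi {c : ℝ} (c0 : 0 ≤ c) (c1 : c ≤ 1 / 4) (v : ℝ) :
    0 ≤ c * ((4 - v) * (41887 / 10000) +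
          ((4 - v) * ((1 - c) * (v + v ^ (2 : ℕ) * c / 2))) -
          (1 - c) * (8 + 32 / 3 * c + 256 / 19 * c ^ (2 : ℕ)) -
          2719 / 1000 * (2 / 3 * v ^ (2 : ℕ) * c ^ (2 : ℕ)) - Dp c v) := by
  apply mul_nonneg c0
  have e : (4 - v) * (41887 / 10000) + ((4 - v) * ((1 - c) * (v + v ^ (2 : ℕ) * c / 2))) -
          (1 - c) * (8 + 32 / 3 * c + 256 / 19 * c ^ (2 : ℕ)) -
          2719 / 1000 * (2 / 3 * v ^ (2 : ℕ) * c ^ (2 : ℕ)) - Dp c v =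
      c * (285 / 100 - 8 / 3 - (256 / 19 - 32 / 3) * c + 256 / 19 * c ^ (2 : ℕ)) +
        (3813 / 1000 - 2 - 2719 / 1000 * (2 / 3)) * (v ^ (2 : ℕ) * c ^ (2 : ℕ)) := by
    unfold Dp
    ring
  rw [e]
  have h1 : 0 ≤ 285 / 100 - 8 / 3 - (256 / 19 - 32 / 3) * c + 256 / 19 * c ^ (2 : ℕ) := by
    nlinarith only [sq_nonneg (c - 1 / 10)]
  have h2 : 0 ≤ v ^ (2 : ℕ) * c ^ (2 : ℕ) := by (clear * -; positivity)
  have := mul_nonneg c0 h1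
  linarith only [h2, this]

theorem poly_hi' {c v : ℝ} (c0 : 0 ≤ c) (c1 : c ≤ 1 / 4) (v0 : 0 ≤ v)
    (hv : v ≤ 15708 / 10000 + 65 / 100 * c) :
    0 ≤ c * ((4 + v) * (628 / 100) - (1 - c) * 8 - 2 / 3 * v ^ (2 : ℕ) * c ^ (2 : ℕ) - 16) := by
  apply mul_nonneg c0
  have hv1 : v ≤ 2 := by linarith only [c1, hv]
  have hv2 : v ^ (2 : ℕ) ≤ 4 := by nlinarith only [v0, hv1]
  have hc2 : c ^ (2 : ℕ) ≤ 1 / 16 := by nlinarith only [c0, c1]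
  have : v ^ (2 : ℕ) * c ^ (2 : ℕ) ≤ 4 * (1 / 16) :=
    mul_le_mul hv2 hc2 (sq_nonneg c) (by norm_num)
  linarith only [c0, v0, this]

/-- level and slope at the lump `2π`, left side, `s > 0` (true `7.2`, `2.99`) -/
theorem fLr {x y z τ k ψ ρ r : ℝ} (h : ShL x y z τ k ψ) (hρ : ρ = k * exp y) (hr : 499 / 10 ≤ r)
    (hR : 27 / 5 * (1 + ρ ^ (2 : ℕ)) ≤ r * (2 * π / 3) ^ (2 : ℕ)) (hη : ψ + ρ - x ≤ π / 2)
    (hζ : ψ + ρ - x + (z + τ) ≤ 2 * π / 3) :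
    5 * ρ ≤ r * ((a4 x - y) * (2 * π - ψ - τ - z) + x * (1 + a4 x) - exp (a4 x) * k) ∧
      2 * ρ ≤ r * (a4 x - y) := by
  have hπ0 := Real.pi_gt_d6
  have hπ1 := Real.pi_lt_d6
  obtain ⟨hxk, hk2⟩ := shp_basic h
  have hy0 := h.y0
  have hy1 : y ≤ 14 / 25 := h.y1
  have hx0 := h.x0
  have hψ0 := h.ψ0
  have hang : 41887 / 10000 + (ρ - x) ≤ 2 * π - ψ - τ - z := by linarith only [hζ, hπ0]
  rcases le_total x 3 with hx3 | hx3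
  · rw [a4_lo hx0 hx3]
    have hρ0 : 0 < ρ := by
      rw [hρ]
      exact mul_pos h.k0 (exp_pos y)
    have hρ3 : ρ ≤ 46 / 10 := by linarith only [hη, hπ1, hψ0, hx3]
    constructor
    · have hlev : 1003 / 10000 * ρ ≤
          (1 - y) * (2 * π - ψ - τ - z) + x * (1 + 1) - exp 1 * k := by
        have h1 : (1 - y) * (41887 / 10000 + (ρ - x)) ≤ (1 - y) * (2 * π - ψ - τ - z) :=
          mul_le_mul_of_nonneg_left hang (by linarith only [hy1])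
        have h2 : exp 1 * k ≤ 2719 / 1000 * k := mul_le_mul_of_nonneg_right e1_hi h.k0.le
        have h3 : k * (1 + y + y ^ (2 : ℕ) / 2 + y ^ (3 : ℕ) / 6) ≤ ρ := by
          rw [hρ]
          exact mul_le_mul_of_nonneg_left (e_ge3 hy0) h.k0.le
        have h4 : (8997 / 10000 - y) * (k * (1 + y + y ^ (2 : ℕ) / 2 + y ^ (3 : ℕ) / 6)) ≤
            (8997 / 10000 - y) * ρ := mul_le_mul_of_nonneg_left h3 (by linarith only [hy1])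
        have h5 := lo_poly (x := x) (y := y) (by linarith only [h.T]) hx3 hy0 hy1
        set C : ℝ := 2719 / 1000 - (8997 / 10000 - y) * (1 + y + y ^ (2 : ℕ) / 2 + y ^ (3 : ℕ) / 6) with hC
        have hC0 : 0 ≤ C := by
          have e1 : (8997 / 10000 - y) * (1 + y + y ^ (2 : ℕ) / 2 + y ^ (3 : ℕ) / 6) ≤ 1 * (5 / 2) := by
            apply mul_le_mul (by linarith only [hy0]) _ (by (clear * - hy0; positivity)) (by norm_num)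
            have : y ^ (2 : ℕ) ≤ 1 := by nlinarith only [hy0, hy1]
            have : y ^ (3 : ℕ) ≤ 1 := pow_le_one₀ hy0 (by linarith only [hy1])
            linarith
          rw [hC]
          linarith only [e1]
        have h6 : C * (2 * x * k) ≤ C * (2 * x ^ (2 : ℕ) + y ^ (2 : ℕ)) := mul_le_mul_of_nonneg_left hk2 hC0
        have h7 : 0 ≤ 2 * x * ((1 - y) * (41887 / 10000 - x) + 2 * x - C * k) := by
          have e : 2 * x * ((1 - y) * (41887 / 10000 - x) + 2 * x - C * k) =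
            2 * x * (1 - y) * (41887 / 10000 - x) + 4 * x ^ (2 : ℕ) - C * (2 * x * k) := by ring
          rw [e]
          linarith only [h5, h6]
        have h8 : 0 ≤ (1 - y) * (41887 / 10000 - x) + 2 * x - C * k := by
          by_contra hh
          push Not at hh
          have := mul_neg_of_pos_of_neg (by linarith : 0 < 2 * x) hh
          linarith only [h7, this]
        have e9 : C * k = 2719 / 1000 * k -
            (8997 / 10000 - y) * (k * (1 + y + y ^ (2 : ℕ) / 2 + y ^ (3 : ℕ) / 6)) := by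
          rw [hC]
          ring
        clear_value C
        linarith only [h1, h2, h4, h8, e9]
      have h0 : 0 ≤ (1 - y) * (2 * π - ψ - τ - z) + x * (1 + 1) - exp 1 * k :=
        le_trans (by (clear * - hρ0; positivity)) hlev
      have h00 := mul_le_mul_of_nonneg_right hr h0
      linarith only [hlev, h0, h00]
    · have : 499 / 10 * (1 - y) ≤ r * (1 - y) := mul_le_mul_of_nonneg_right hr (by linarith only [hy1])
      linarith only [hy1, hρ3, this]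
  · obtain ⟨c, v, ha, hc0, hc1, hxc, hv0, hyc, hvv, hw, hq, hkx, hk0, hrb, hρ0⟩ :=
      hi_data h hρ hr hR hη hx3
    rw [ha]
    obtain ⟨q1, q2, q3⟩ := QD hc0.le hc1 hv0 hvv
    have hcy : 0 ≤ 4 * c - y := by
      have := mul_nonneg (by linarith : 0 ≤ 4 - v) hc0.le
      rw [hyc]
      linarith only [this]
    constructor
    · refine r_mul (D := Dp c v) hρ0 hrb hc0 hq q2.le ?_ (by linarith only [q1])
      have h1 : (4 * c - y) * (41887 / 10000 + (ρ - x)) ≤ (4 * c - y) * (2 * π - ψ - τ - z) := by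
        apply mul_le_mul_of_nonneg_left hang hcy
      have h2 : (4 * c - y) * ((1 - c) * (v + v ^ (2 : ℕ) * c / 2)) ≤ (4 * c - y) * (ρ - x) := by
        apply mul_le_mul_of_nonneg_left hw hcy
      have h3 : exp (4 * c) ≤ 1 + 4 * c + (4 * c) ^ (2 : ℕ) / 2 + (4 * c) ^ (3 : ℕ) / 6 + (4 * c) ^ (4 : ℕ) / 19 :=
        e_le3 (by linarith only [hc0]) (by linarith only [hc1])
      have h4 : exp (4 * c) ≤ 2719 / 1000 := by
        refine le_trans ?_ e1_hi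
        exact exp_le_exp.2 (by linarith only [hc1])
      have h5 : exp (4 * c) * x ≤
          (1 + 4 * c + (4 * c) ^ (2 : ℕ) / 2 + (4 * c) ^ (3 : ℕ) / 6 + (4 * c) ^ (4 : ℕ) / 19) * x :=
        mul_le_mul_of_nonneg_right h3 hx0.le
      have h6 : exp (4 * c) * (k - x) ≤ 2719 / 1000 * (2 / 3 * v ^ (2 : ℕ) * c ^ (3 : ℕ)) :=
        mul_le_mul h4 hkx hk0 (by norm_num)
      have e5 : (1 + 4 * c + (4 * c) ^ (2 : ℕ) / 2 + (4 * c) ^ (3 : ℕ) / 6 + (4 * c) ^ (4 : ℕ) / 19) * x =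
          x * (1 + 4 * c) + (1 - c) * (8 * c + 32 / 3 * c ^ (2 : ℕ) + 256 / 19 * c ^ (3 : ℕ)) := by
        rw [← hxc]
        ring
      have e7 : (4 * c - y) * (41887 / 10000) = c * (4 - v) * (41887 / 10000) := by
        rw [hyc]
        ring
      have e8 : (4 * c - y) * ((1 - c) * (v + v ^ (2 : ℕ) * c / 2)) =
          c * ((4 - v) * ((1 - c) * (v + v ^ (2 : ℕ) * c / 2))) := by
        rw [hyc]
        ring
      have h9 : c * Dp c v ≤ c * (4 - v) * (41887 / 10000) +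
          c * ((4 - v) * ((1 - c) * (v + v ^ (2 : ℕ) * c / 2))) -
          (1 - c) * (8 * c + 32 / 3 * c ^ (2 : ℕ) + 256 / 19 * c ^ (3 : ℕ)) -
          2719 / 1000 * (2 / 3 * v ^ (2 : ℕ) * c ^ (3 : ℕ)) := by
        have := poly_hi hc0.le hc1 v
        linarith only [this]
      linarith only [h1, h2, h5, h6, e5, e7, e8, h9]
    · have hv4 : v ≤ 1734 / 1000 := by linarith only [hc1, hvv]
      refine r_mul (D := 4 - v) hρ0 hrb hc0 hq (by linarith only [hv4]) ?_ ?_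
      · rw [hyc]
        linarith only []
      · have := mul_nonneg (sub_nonneg.2 q3) (by linarith : 0 ≤ 4 - v)
        linarith only [hv4, this]

/-- left side, `s < 0` (true `21`, `4.39`) -/
theorem fLl {x y z τ k ψ ρ r : ℝ} (h : ShL x y z τ k ψ) (hρ : ρ = k * exp y) (hr : 499 / 10 ≤ r)
    (hR : 27 / 5 * (1 + ρ ^ (2 : ℕ)) ≤ r * (2 * π / 3) ^ (2 : ℕ)) (hη : ψ + ρ - x ≤ π / 2) :
    10 * ρ ≤ r * ((a4 x + y) * (2 * π + ψ + τ + z) + x * (1 - a4 x) - exp (-(a4 x)) * k) ∧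
      2 * ρ ≤ r * (a4 x + y) := by
  have hπ0 := Real.pi_gt_d6
  have hπ1 := Real.pi_lt_d6
  obtain ⟨hxk, hk2⟩ := shp_basic h
  have hy0 := h.y0
  have hy1 : y ≤ 14 / 25 := h.y1
  have hx0 := h.x0
  have hψ0 := h.ψ0
  have hang : 628 / 100 ≤ 2 * π + ψ + τ + z := by linarith only [hπ0, hψ0, h.τ0, h.z0]
  rcases le_total x 3 with hx3 | hx3
  · rw [a4_lo hx0 hx3]
    have hρ0 : 0 < ρ := by
      rw [hρ]
      exact mul_pos h.k0 (exp_pos y)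
    have hρ3 : ρ ≤ 46 / 10 := by linarith only [hη, hπ1, hψ0, hx3]
    have hkρ : k ≤ ρ := by
      rw [hρ]
      have : 1 ≤ exp y := one_le_exp hy0
      nlinarith only [this, h.k0]
    constructor
    · have h1 : (1 + y) * (628 / 100) ≤ (1 + y) * (2 * π + ψ + τ + z) :=
        mul_le_mul_of_nonneg_left hang (by linarith only [hy0])
      have h2 : exp (-1) * k ≤ 3679 / 10000 * (46 / 10) :=
        mul_le_mul em1_hi (by linarith only [hρ3, hkρ]) h.k0.le (by norm_num)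
      have h3 : 4 ≤ (1 + y) * (2 * π + ψ + τ + z) + x * (1 - 1) - exp (-1) * k := by
        linarith only [hy0, h1, h2]
      have h00 := mul_le_mul_of_nonneg_right hr (le_trans (by norm_num) h3)
      linarith only [hρ3, h3, h00]
    · have : 499 / 10 * (1 + y) ≤ r * (1 + y) := mul_le_mul_of_nonneg_right hr (by linarith only [hy0])
      linarith only [hy0, hρ3, this]
  · obtain ⟨c, v, ha, hc0, hc1, hxc, hv0, hyc, hvv, hw, hq, hkx, hk0, hrb, hρ0⟩ :=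
      hi_data h hρ hr hR hη hx3
    rw [ha]
    obtain ⟨q1, q2, q3⟩ := QD hc0.le hc1 hv0 hvv
    constructor
    · refine r_mul (D := 16) hρ0 hrb hc0 hq (by norm_num) ?_ (by linarith only [q3])
      have h1 : (4 * c + y) * (628 / 100) ≤ (4 * c + y) * (2 * π + ψ + τ + z) :=
        mul_le_mul_of_nonneg_left hang (by linarith only [hy0, hc0])
      have h3 : exp (-(4 * c)) ≤ 1 - 4 * c + (4 * c) ^ (2 : ℕ) / 2 := en_le2 (by linarith only [hc0])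
      have h4 : exp (-(4 * c)) ≤ 1 := by
        apply exp_le_one_iff.2
        linarith only [hc0]
      have h5 : exp (-(4 * c)) * x ≤ (1 - 4 * c + (4 * c) ^ (2 : ℕ) / 2) * x :=
        mul_le_mul_of_nonneg_right h3 hx0.le
      have h6 : exp (-(4 * c)) * (k - x) ≤ 1 * (2 / 3 * v ^ (2 : ℕ) * c ^ (3 : ℕ)) :=
        mul_le_mul h4 hkx hk0 (by norm_num)
      have e5 : (1 - 4 * c + (4 * c) ^ (2 : ℕ) / 2) * x = x * (1 - 4 * c) + (1 - c) * (8 * c) := by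
        rw [← hxc]
        ring
      have e7 : (4 * c + y) * (628 / 100) = c * ((4 + v) * (628 / 100)) := by
        rw [hyc]
        ring
      have h9 : c * 16 ≤ c * ((4 + v) * (628 / 100)) - (1 - c) * (8 * c) -
          2 / 3 * v ^ (2 : ℕ) * c ^ (3 : ℕ) := by
        have := poly_hi' hc0.le hc1 hv0 hvv
        linarith only [this]
      linarith only [h1, h5, h6, e5, e7, h9]
    · refine r_mul (D := 4) hρ0 hrb hc0 hq (by norm_num) ?_ (by linarith only [q3])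
      linarith only [hy0]

end SokamV3O

end
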