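import Pool.Agent.Lib_MP_af4de1_zy.Z02
import Pool.Agent.Lib_MP_af4de1_zy.Z49

/-! ### Lib_MP_af4de1_f1.TopDefs -/

section
namespace SokamF1
end SokamF1
namespace SokamF1S
end SokamF1S
namespace SokamU
end SokamU
/-!
# The top waves on `|q| = 1`: definitions and the interface statements

`t = -i δ`, `ρ = r δ`, waves `W0 r δ η = E t w`, `W1 = DE t w`, `W2 = D2E t w` at `w = r e^(i(η-ρ+δ/2))`.
`ph ρ y = Φ/r = x(1+y)/ρ`, the size of the wave with saddle `(ρ, y)` is `Mm r ρ y = e^(r ph)/√D`,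
its saddle is `κ = sK ρ y/δ = (r/ρ) sK ρ y`.
-/

set_option autoImplicit false

namespace SokamF1T

open Complex SokamU SokamF1 SokamF1S

/-- the wave at the centred angle `η` -/
noncomputable def W0 (r δ η : ℝ) : ℂ := E (tt δ) (wp r δ η)
/-- `D` of it -/
noncomputable def W1 (r δ η : ℝ) : ℂ := DE (tt δ) (wp r δ η)
/-- `D²` of it -/
noncomputable def W2 (r δ η : ℝ) : ℂ := SokamBPlus.D2E (tt δ) (wp r δ η)

/-- `Φ/r` -/
noncomputable def ph (ρ y : ℝ) : ℝ := sx ρ y * (1 + y) / ρ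

/-- `√D`-normalised size -/
noncomputable def Mm (r ρ y : ℝ) : ℝ := Real.exp (r * ph ρ y) / √(√(sD2 ρ y))

/-- the saddle -/
noncomputable def kp (r ρ y : ℝ) : ℂ := ((r / ρ : ℝ) : ℂ) * sK ρ y

/-- The domain of the top waves. -/
structure DD (ρ y : ℝ) : Prop where
  dom : Dom ρ y
  y0 : -(7 / 10) ≤ y
  y1 : y ≤ 18 / 25
  eta : |sE ρ y| ≤ 2 * Real.pi / 3
  phi : 11 / 25 ≤ ph ρ y

/-- Range of `(N, r, ρ)` for the top waves (`N ≥ 3`, or `N = 2` and `ρ ≥ 5/2`). -/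
structure Rng (N : ℕ) (r ρ : ℝ) : Prop where
  hr : 499 / 10 ≤ r
  hρ : 0 < ρ
  hN : 3 ≤ N ∨ (N = 2 ∧ 5 / 2 ≤ ρ)
  hQ : (N : ℝ) ^ (2 : ℕ) * (1 + ρ ^ (2 : ℕ)) ≤ 7.2552 * r

/-- Range of `(r, ρ)` for one wave. -/
def Rng1 (r ρ : ℝ) : Prop :=
  499 / 10 ≤ r ∧ 0 < ρ ∧ (ρ ^ (2 : ℕ) ≤ 8065 / 10000 * r ∨ (5 / 2 ≤ ρ ∧ ρ ^ (2 : ℕ) ≤ 18138 / 10000 * r))

theorem Rng.one {N : ℕ} {r ρ : ℝ} (h : Rng N r ρ) : Rng1 r ρ := by
  obtain ⟨hr, hρ, hN, hQ⟩ := h
  refine ⟨hr, hρ, ?_⟩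
  rcases hN with h3 | ⟨h2, h5⟩
  · left
    have h9 : (9 : ℝ) ≤ (N : ℝ) ^ (2 : ℕ) := by
      have : (3 : ℝ) ≤ N := by exact_mod_cast h3
      nlinarith
    have : 9 * (1 + ρ ^ (2 : ℕ)) ≤ 7.2552 * r :=
      (mul_le_mul_of_nonneg_right h9 (by positivity)).trans hQ
    norm_num at this ⊢
    nlinarith
  · right
    refine ⟨h5, ?_⟩
    subst h2
    norm_num at hQ ⊢
    nlinarith

theorem Rng1.rpos {r ρ : ℝ} (h : Rng1 r ρ) : 0 < r := by
  have := h.1; linarith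

/-- `κ_true - κ` is bounded by this. -/
noncomputable def C1 (r ρ y : ℝ) : ℝ :=
  (if 0 ≤ y then 1 else 3) + (if ρ ^ (2 : ℕ) ≤ 8065 / 10000 * r then 0 else √r / 3)

theorem wp_period (r δ η : ℝ) : wp r δ (η + 2 * Real.pi) = wp r δ η := by
  unfold wp
  have : ((η + 2 * Real.pi - r * δ + δ / 2 : ℝ) : ℂ) * I =
      ((η - r * δ + δ / 2 : ℝ) : ℂ) * I + 2 * Real.pi * I := by
    push_cast; ring
  rw [this, Complex.exp_add, Complex.exp_two_pi_mul_I, mul_one]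

theorem W0_period (r δ η : ℝ) : W0 r δ (η + 2 * Real.pi) = W0 r δ η := by
  unfold W0
  rw [wp_period]

theorem W1_period (r δ η : ℝ) : W1 r δ (η + 2 * Real.pi) = W1 r δ η := by
  unfold W1
  rw [wp_period]

theorem W2_period (r δ η : ℝ) : W2 r δ (η + 2 * Real.pi) = W2 r δ η := by
  unfold W2
  rw [wp_period]

end SokamF1T

end

/-! ### Lib_MP_af4de1_f1.TopGapD -/

section
namespace SokamF1S
end SokamF1S
/-!
# [FT-DD*], [FT-GAP*] The domain `DD`, its boundary, and the gap facts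

`ph ρ y = x(1+y)/ρ = cos ψ (1+y) e^(-y)`, `x = sx ρ y`, `ψ = sP ρ y`, `D² = sD2 ρ y = (1+y)² + x²`.
All statements are about the explicit curve `y ↦ (sE ρ y, ph ρ y)` of `Sad.lean`
(`dη/dy = D²/x > 0`, `d(x(1+y))/dy = -y D²/x`).

TRIAL VALUES (`ph_trial`): `ph` is the maximum over `c > 0` of `c (1 - log c + log cos (η - ρ(1-c)))`, which is strictly
concave in `c`; every trial `c` gives a LOWER bound.

BOUNDARY (`Bd`): `b ≤ 0`, `ph = 11/25`: with `t = -b ∈ [0, 7/10]`: `cos β = .44 e^(-t)/(1-t)`, `ρ = t e^(-t)/sin β`,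
`x = .44 ρ/(1-t)`, `|η| = β + x - ρ`; `b = -7/10`: `sin β = (7/10) e^(-7/10)/ρ`, `x = ρ cos β e^(7/10)`, `|η| = β + x - ρ`,
`.507 ≤ ρ ≤ 1.96`.  `b ≥ 0`, `ph = 11/25`: `cos ψ = .44 e^b/(1+b)`, `ρ = b e^b/sin ψ`, `x = .44 ρ/(1+b)`,
`η = ψ + ρ - x`, `ρ ≤ 1.43`.  All facts below are inequalities in ONE variable along these curves.
-/

set_option autoImplicit false

namespace SokamF1T

open SokamF1S

/-- inner boundary points -/
def Bd (ρ b : ℝ) : Prop := DD ρ b ∧ (b = -(7 / 10) ∨ ph ρ b = 11 / 25)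

/-- loss between `H = (ρ,y)` and the base `(ρ,b)` at `r = 499/10` -/
noncomputable def GapC (ρ y b : ℝ) : ℝ :=
  max 1 (Real.exp (y - b)) * (√(√(sD2 ρ y)) / √(√(sD2 ρ b))) *
    Real.exp (-(499 / 10) * (ph ρ y - ph ρ b))

end SokamF1T

end

/-! ### Lib_MP_af4de1_f1.TG1 -/

section
namespace SokamF1S
end SokamF1S
/-!
# [FT-G1] monotonicity
(see `TopGapD.lean` for the curve and its one variable descriptions)
-/

set_option autoImplicit false

namespace SokamF1T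

open SokamF1S

private theorem deriv_sPhi {ρ y₁ y₂ y : ℝ} (h1 : Dom ρ y₁) (h2 : Dom ρ y₂) (hy : -1 ≤ y₁)
    (h : y ∈ Set.Ioo y₁ y₂) : deriv (fun y => sx ρ y * (1 + y)) y = -(y * (sD2 ρ y / sx ρ y)) ∧
      0 ≤ sD2 ρ y / sx ρ y := by
  have h3 := dom_between h1 h2 hy h
  refine ⟨(hasDerivAt_sPhi h1.1 h3).deriv, ?_⟩
  have h4 := sx_pos h1.1 h3
  have h5 : 0 ≤ sD2 ρ y := by unfold sD2; (clear * - h4; positivity)
  (clear * - h5 h4; positivity)

private theorem cont_sPhi (ρ : ℝ) : Continuous (fun y => sx ρ y * (1 + y)) :=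
  (continuous_sx ρ).mul (continuous_const.add continuous_id)

/-- [FT-DD1] `ph` increases up to `y = 0` and decreases afterwards. -/
theorem ph_mono_neg {ρ y₁ y₂ : ℝ} (h1 : Dom ρ y₁) (h2 : Dom ρ y₂) (hy : -1 ≤ y₁) (h12 : y₁ ≤ y₂)
    (h0 : y₂ ≤ 0) : ph ρ y₁ ≤ ph ρ y₂ := by
  have h3 : MonotoneOn (fun y => sx ρ y * (1 + y)) (Set.Icc y₁ y₂) := by
    refine monotoneOn_of_deriv_nonneg (convex_Icc _ _) (cont_sPhi ρ).continuousOn ?_ ?_
    · rw [interior_Icc]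
      intro y h
      exact (hasDerivAt_sPhi h1.1 (dom_between h1 h2 hy h)).differentiableAt.differentiableWithinAt
    · rw [interior_Icc]
      intro y h
      obtain ⟨e, h4⟩ := deriv_sPhi h1 h2 hy h
      rw [e]
      have h5 : y ≤ 0 := h.2.le.trans h0
      have := mul_nonneg (neg_nonneg.2 h5) h4
      linarith only [this]
  have h4 := h3 (Set.left_mem_Icc.2 h12) (Set.right_mem_Icc.2 h12) h12
  unfold ph
  exact div_le_div_of_nonneg_right h4 h1.1.le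

/-- [FT-DD1] -/
theorem ph_anti_pos {ρ y₁ y₂ : ℝ} (h1 : Dom ρ y₁) (h2 : Dom ρ y₂) (hy : 0 ≤ y₁) (h12 : y₁ ≤ y₂) :
    ph ρ y₂ ≤ ph ρ y₁ := by
  have hy' : -1 ≤ y₁ := by linarith only [hy]
  have h3 : AntitoneOn (fun y => sx ρ y * (1 + y)) (Set.Icc y₁ y₂) := by
    refine antitoneOn_of_deriv_nonpos (convex_Icc _ _) (cont_sPhi ρ).continuousOn ?_ ?_
    · rw [interior_Icc]
      intro y h
      exact (hasDerivAt_sPhi h1.1 (dom_between h1 h2 hy' h)).differentiableAt.differentiableWithinAt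
    · rw [interior_Icc]
      intro y h
      obtain ⟨e, h4⟩ := deriv_sPhi h1 h2 hy' h
      rw [e]
      have h5 : 0 ≤ y := hy.trans h.1.le
      have := mul_nonneg h5 h4
      linarith only [this]
  have h4 := h3 (Set.left_mem_Icc.2 h12) (Set.right_mem_Icc.2 h12) h12
  unfold ph
  exact div_le_div_of_nonneg_right h4 h1.1.le

/-- [FT-DD3] between `0` and a point of `DD`. -/
theorem DD_between {ρ b y : ℝ} (h : DD ρ b) (hy : (b ≤ y ∧ y ≤ 0) ∨ (0 ≤ y ∧ y ≤ b)) : DD ρ y := by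
  have hρ := h.dom.1
  have hz : Dom ρ 0 := dom_zero hρ
  have hb := h.y0
  have hb1 := h.y1
  have hm := strictMonoOn_mul_exp.monotoneOn
  have hd := dom_iff.1 h.dom.2
  rcases hy with ⟨h1, h2⟩ | ⟨h1, h2⟩
  · have hdy : Dom ρ y := by
      refine ⟨hρ, dom_iff.2 ⟨?_, ?_⟩⟩
      · have h3 := hm (Set.mem_Ici.2 (by linarith : (-1 : ℝ) ≤ b))
          (Set.mem_Ici.2 (by linarith : (-1 : ℝ) ≤ y)) h1
        simp only at h3
        linarith only [h3, hd.1]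
      · have h3 : y * Real.exp y ≤ 0 :=
          mul_nonpos_of_nonpos_of_nonneg h2 (Real.exp_pos _).le
        linarith only [hd, h3]
    refine ⟨hdy, by linarith only [hb, h1], by linarith only [h2], ?_, ?_⟩
    · have hs := (sE_strictMonoOn h.dom hz (by linarith only [hb])).monotoneOn
      have hb0 : b ≤ 0 := h1.trans h2
      have h3 := hs (Set.left_mem_Icc.2 hb0) (Set.mem_Icc.2 ⟨h1, h2⟩) h1
      have h4 := hs (Set.mem_Icc.2 ⟨h1, h2⟩) (Set.right_mem_Icc.2 hb0) h2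
      rw [sE_zero hρ] at h4
      have h5 := (abs_le.1 h.eta).1
      rw [abs_le]
      exact ⟨h5.trans h3, h4.trans (by positivity)⟩
    · exact h.phi.trans (ph_mono_neg h.dom hdy (by linarith only [hb]) h1 h2)
  · have hdy : Dom ρ y := by
      refine ⟨hρ, dom_iff.2 ⟨?_, ?_⟩⟩
      · have h3 : 0 ≤ y * Real.exp y := mul_nonneg h1 (Real.exp_pos _).le
        linarith only [hd, h3]
      · have h3 := hm (Set.mem_Ici.2 (by linarith : (-1 : ℝ) ≤ y))
          (Set.mem_Ici.2 (by linarith : (-1 : ℝ) ≤ b)) h2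
        simp only at h3
        linarith only [h3, hd.2]
    refine ⟨hdy, by linarith only [h1], by linarith only [hb1, h2], ?_, ?_⟩
    · have hs := (sE_strictMonoOn hz h.dom (by linarith only [])).monotoneOn
      have hb0 : 0 ≤ b := h1.trans h2
      have h3 := hs (Set.left_mem_Icc.2 hb0) (Set.mem_Icc.2 ⟨h1, h2⟩) h1
      have h4 := hs (Set.mem_Icc.2 ⟨h1, h2⟩) (Set.right_mem_Icc.2 hb0) h2
      rw [sE_zero hρ] at h3
      have h5 := (abs_le.1 h.eta).2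
      rw [abs_le]
      refine ⟨?_, h4.trans h5⟩
      have : 0 ≤ 2 * Real.pi / 3 := by (clear * -; positivity)
      linarith only [h3, this]
    · exact h.phi.trans (ph_anti_pos hdy h.dom h1 h2)

/-- [FT-DD3] every angle between `0` and `sE ρ b` is attained in `DD`. -/
theorem DD_exists {ρ b η : ℝ} (h : DD ρ b) (hη : (sE ρ b ≤ η ∧ η ≤ 0) ∨ (0 ≤ η ∧ η ≤ sE ρ b)) :
    ∃ y, DD ρ y ∧ sE ρ y = η ∧ ((b ≤ y ∧ y ≤ 0) ∨ (0 ≤ y ∧ y ≤ b)) := by
  have hρ := h.dom.1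
  have hz : Dom ρ 0 := dom_zero hρ
  have hb := h.y0
  rcases hη with ⟨h1, h2⟩ | ⟨h1, h2⟩
  · have hb0 : b ≤ 0 := by
      by_contra hlt
      have hlt' : 0 < b := not_le.1 hlt
      have h3 := sE_strictMonoOn hz h.dom (by linarith only []) (Set.left_mem_Icc.2 hlt'.le)
        (Set.right_mem_Icc.2 hlt'.le) hlt'
      rw [sE_zero hρ] at h3
      linarith only [h1, h2, h3]
    obtain ⟨y, hy, e⟩ := exists_sE hb0 h1 (by rw [sE_zero hρ]; exact h2)
    exact ⟨y, DD_between h (Or.inl ⟨hy.1, hy.2⟩), e, Or.inl ⟨hy.1, hy.2⟩⟩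
  · have hb0 : 0 ≤ b := by
      by_contra hlt
      have hlt' : b < 0 := not_le.1 hlt
      have h3 := sE_strictMonoOn h.dom hz (by linarith only [hb]) (Set.left_mem_Icc.2 hlt'.le)
        (Set.right_mem_Icc.2 hlt'.le) hlt'
      rw [sE_zero hρ] at h3
      linarith only [h1, h2, h3]
    obtain ⟨y, hy, e⟩ := exists_sE hb0 (by rw [sE_zero hρ]; exact h1) h2
    exact ⟨y, DD_between h (Or.inr ⟨hy.1, hy.2⟩), e, Or.inr ⟨hy.1, hy.2⟩⟩

end SokamF1T

end

/-! ### Lib_MP_af4de1_f1.TG2 -/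

section
namespace SokamF1S
end SokamF1S
/-!
# [FT-G2] trial values
(see `TopGapD.lean` for the curve and its one variable descriptions)
-/

set_option autoImplicit false

namespace SokamF1T

open SokamF1S

private noncomputable def kk (ρ a c : ℝ) : ℝ :=
  -Real.log c + Real.log (Real.cos (a + ρ * c)) - ρ * c * (Real.sin (a + ρ * c) / Real.cos (a + ρ * c))

private noncomputable def gg (ρ a c : ℝ) : ℝ :=
  c * (1 - Real.log c + Real.log (Real.cos (a + ρ * c)))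

private theorem th_der (ρ a c : ℝ) : HasDerivAt (fun c : ℝ => a + ρ * c) ρ c :=
  (((hasDerivAt_id c).const_mul ρ).const_add a).congr_deriv (by ring)

private theorem cos_der (ρ a c : ℝ) :
    HasDerivAt (fun c : ℝ => Real.cos (a + ρ * c)) (-(ρ * Real.sin (a + ρ * c))) c :=
  (th_der ρ a c).cos.congr_deriv (by ring)

private theorem sin_der (ρ a c : ℝ) :
    HasDerivAt (fun c : ℝ => Real.sin (a + ρ * c)) (ρ * Real.cos (a + ρ * c)) c :=
  (th_der ρ a c).sin.congr_deriv (by ring)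

private theorem gg_der {ρ a c : ℝ} (hc : 0 < c) (hcos : 0 < Real.cos (a + ρ * c)) :
    HasDerivAt (gg ρ a) (kk ρ a c) c := by
  have h1 := (((Real.hasDerivAt_log hc.ne').const_sub 1).add ((cos_der ρ a c).log hcos.ne'))
  have h2 := (hasDerivAt_id c).mul h1
  refine h2.congr_deriv ?_
  unfold kk
  simp only [id, Pi.add_apply]
  field_simp
  ring

private theorem kk_der {ρ a c : ℝ} (hc : 0 < c) (hcos : 0 < Real.cos (a + ρ * c)) :
    HasDerivAt (kk ρ a)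
      (-(((1 + ρ * c * (Real.sin (a + ρ * c) / Real.cos (a + ρ * c))) ^ (2 : ℕ) + ρ ^ (2 : ℕ) * c ^ (2 : ℕ)) / c)) c := by
  have h1 := ((Real.hasDerivAt_log hc.ne').neg).add ((cos_der ρ a c).log hcos.ne')
  have h2 := ((hasDerivAt_id c).const_mul ρ).mul ((sin_der ρ a c).div (cos_der ρ a c) hcos.ne')
  have h3 := h1.sub h2
  refine h3.congr_deriv ?_
  have hC := hcos.ne'
  simp only [id, Pi.div_apply]
  generalize Real.cos (a + ρ * c) = C at hC ⊢
  generalize Real.sin (a + ρ * c) = S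
  field_simp
  ring

private theorem gg_trial {ρ a c₀ c : ℝ} (hρ : 0 < ρ) (h0 : 0 < c₀) (hc : 0 < c)
    (t0 : |a + ρ * c₀| < Real.pi / 2) (t1 : |a + ρ * c| < Real.pi / 2) (hk : kk ρ a c₀ = 0) :
    gg ρ a c ≤ gg ρ a c₀ := by
  have hpos : ∀ u v t : ℝ, 0 < u → |a + ρ * u| < Real.pi / 2 → |a + ρ * v| < Real.pi / 2 →
      u ≤ t → t ≤ v → 0 < t ∧ 0 < Real.cos (a + ρ * t) := by
    intro u v t hu h1 h2 h3 h4
    have h5 := mul_le_mul_of_nonneg_left h3 hρ.le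
    have h6 := mul_le_mul_of_nonneg_left h4 hρ.le
    rw [abs_lt] at h1 h2
    exact ⟨by linarith, Real.cos_pos_of_mem_Ioo ⟨by linarith [h1.1], by linarith [h2.2]⟩⟩
  have kanti : ∀ u v : ℝ, 0 < u → |a + ρ * u| < Real.pi / 2 → |a + ρ * v| < Real.pi / 2 →
      AntitoneOn (kk ρ a) (Set.Icc u v) := by
    intro u v hu h1 h2
    refine antitoneOn_of_deriv_nonpos (convex_Icc _ _) ?_ ?_ ?_
    · intro t ht
      obtain ⟨p1, p2⟩ := hpos u v t hu h1 h2 ht.1 ht.2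
      exact (kk_der p1 p2).continuousAt.continuousWithinAt
    · intro t ht
      rw [interior_Icc] at ht
      obtain ⟨p1, p2⟩ := hpos u v t hu h1 h2 ht.1.le ht.2.le
      exact (kk_der p1 p2).differentiableAt.differentiableWithinAt
    · intro t ht
      rw [interior_Icc] at ht
      obtain ⟨p1, p2⟩ := hpos u v t hu h1 h2 ht.1.le ht.2.le
      rw [(kk_der p1 p2).deriv]
      have : 0 ≤ ((1 + ρ * t * (Real.sin (a + ρ * t) / Real.cos (a + ρ * t))) ^ (2 : ℕ) +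
        ρ ^ (2 : ℕ) * t ^ (2 : ℕ)) / t := by positivity
      linarith
  rcases le_total c c₀ with h | h
  · have hm : MonotoneOn (gg ρ a) (Set.Icc c c₀) := by
      refine monotoneOn_of_deriv_nonneg (convex_Icc _ _) ?_ ?_ ?_
      · intro t ht
        obtain ⟨p1, p2⟩ := hpos c c₀ t hc t1 t0 ht.1 ht.2
        exact (gg_der p1 p2).continuousAt.continuousWithinAt
      · intro t ht
        rw [interior_Icc] at ht
        obtain ⟨p1, p2⟩ := hpos c c₀ t hc t1 t0 ht.1.le ht.2.le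
        exact (gg_der p1 p2).differentiableAt.differentiableWithinAt
      · intro t ht
        rw [interior_Icc] at ht
        obtain ⟨p1, p2⟩ := hpos c c₀ t hc t1 t0 ht.1.le ht.2.le
        rw [(gg_der p1 p2).deriv, ← hk]
        exact kanti c c₀ hc t1 t0 ⟨ht.1.le, ht.2.le⟩ ⟨h, le_refl _⟩ ht.2.le
    exact hm ⟨le_refl _, h⟩ ⟨h, le_refl _⟩ h
  · have hm : AntitoneOn (gg ρ a) (Set.Icc c₀ c) := by
      refine antitoneOn_of_deriv_nonpos (convex_Icc _ _) ?_ ?_ ?_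
      · intro t ht
        obtain ⟨p1, p2⟩ := hpos c₀ c t h0 t0 t1 ht.1 ht.2
        exact (gg_der p1 p2).continuousAt.continuousWithinAt
      · intro t ht
        rw [interior_Icc] at ht
        obtain ⟨p1, p2⟩ := hpos c₀ c t h0 t0 t1 ht.1.le ht.2.le
        exact (gg_der p1 p2).differentiableAt.differentiableWithinAt
      · intro t ht
        rw [interior_Icc] at ht
        obtain ⟨p1, p2⟩ := hpos c₀ c t h0 t0 t1 ht.1.le ht.2.le
        rw [(gg_der p1 p2).deriv, ← hk]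
        exact kanti c₀ c h0 t0 t1 ⟨le_refl _, h⟩ ⟨ht.1.le, ht.2.le⟩ ht.1.le
    exact hm ⟨le_refl _, h⟩ ⟨h, le_refl _⟩ h

/-- [FT-DD2] trial values.  Proof: `g(c) = c(1 - log c + log cos(η - ρ + ρ c))` has `c g'' = -((1 + ρ c tan θ)² + ρ² c²) < 0`
and `g' = 0` at `c = x/ρ` (where `θ = ψ`), `g(x/ρ) = ph`. -/
theorem ph_trial {ρ y c : ℝ} (h : Dom ρ y) (hx : |y| * Real.exp y < ρ) (hy : -1 < y) (hc : 0 < c)
    (hθ : |sE ρ y - ρ * (1 - c)| < Real.pi / 2) :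
    c * (1 - Real.log c + Real.log (Real.cos (sE ρ y - ρ * (1 - c)))) ≤ ph ρ y := by
  have hρ := h.1
  have hx0 := sx_pos hρ hx
  have hcosv := h.cos
  have hsinv := h.sin
  have hey := Real.exp_pos y
  have hcos0 : 0 < Real.cos (sP ρ y) := by rw [hcosv]; positivity
  have hψ : |sP ρ y| < Real.pi / 2 := by
    rcases lt_or_eq_of_le (sP_abs_le ρ y) with h1 | h1
    · exact h1
    · exfalso
      have h2 : Real.cos (sP ρ y) = 0 := by
        rw [← Real.cos_abs, h1, Real.cos_pi_div_two]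
      linarith
  have e0 : sE ρ y - ρ + ρ * (sx ρ y / ρ) = sP ρ y := by
    unfold sE
    field_simp
    ring
  have e1 : sE ρ y - ρ * (1 - c) = sE ρ y - ρ + ρ * c := by ring
  have hl : Real.log (sx ρ y * Real.exp y / ρ) = Real.log (sx ρ y / ρ) + y := by
    have : sx ρ y * Real.exp y / ρ = sx ρ y / ρ * Real.exp y := by ring
    rw [this, Real.log_mul (by positivity) hey.ne', Real.log_exp]
  have hk : kk ρ (sE ρ y - ρ) (sx ρ y / ρ) = 0 := by
    unfold kk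
    rw [e0, hcosv, hsinv, hl]
    field_simp
    ring
  have hg : gg ρ (sE ρ y - ρ) (sx ρ y / ρ) = ph ρ y := by
    unfold gg ph
    rw [e0, hcosv, hl]
    ring
  have key := gg_trial (a := sE ρ y - ρ) hρ (div_pos hx0 hρ) hc (by rw [e0]; exact hψ)
    (by rw [← e1]; exact hθ) hk
  rw [hg] at key
  rw [e1]
  exact key

end SokamF1T

end

/-! ### Lib_MP_af4de1_f1.TG3 -/

section
namespace SokamF1S
end SokamF1S
/-!
# [FT-G3] boundary, negative side
(see `TopGapD.lean` for the curve and its one variable descriptions)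
-/

set_option autoImplicit false

namespace SokamF1T

open SokamF1S

/-- [FT-DD4] boundary, negative side. -/
theorem bdry_neg {ρ : ℝ} (hρ : 0 < ρ) :
    ∃ b, b ≤ 0 ∧ DD ρ b ∧ ((b = -(7 / 10) ∨ ph ρ b = 11 / 25) ∨ sE ρ b = -(2 * Real.pi / 3)) := by
  have cph : Continuous (ph ρ) := by
    unfold ph
    exact ((continuous_sx ρ).mul (continuous_const.add continuous_id)).div_const ρ
  have cd : Continuous fun y : ℝ => |y| * Real.exp y := continuous_abs.mul Real.continuous_exp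
  set S : Set ℝ := Set.Icc (-(7 / 10)) 0 ∩
    {y | |y| * Real.exp y ≤ ρ ∧ |sE ρ y| ≤ 2 * Real.pi / 3 ∧ 11 / 25 ≤ ph ρ y} with hS
  have hcl : IsClosed {y | |y| * Real.exp y ≤ ρ ∧ |sE ρ y| ≤ 2 * Real.pi / 3 ∧ 11 / 25 ≤ ph ρ y} :=
    (isClosed_le cd continuous_const).inter ((isClosed_le (continuous_sE ρ).abs continuous_const).inter
      (isClosed_le continuous_const cph))
  have hcomp : IsCompact S := isCompact_Icc.inter_right hcl
  have hne : S.Nonempty := by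
    refine ⟨0, ⟨by norm_num, le_refl 0⟩, ?_, ?_, ?_⟩
    · simpa using hρ.le
    · rw [sE_zero hρ, abs_zero]
      positivity
    · unfold ph sx
      simp only [mul_zero, Real.exp_zero, mul_one, ne_eq, OfNat.ofNat_ne_zero, not_false_eq_true,
        zero_pow, sub_zero, add_zero]
      rw [Real.sqrt_sq hρ.le, div_self hρ.ne']
      norm_num
  obtain ⟨b, ⟨⟨hb1, hb2⟩, hb3, hb4, hb5⟩, hmin⟩ := hcomp.exists_isLeast hne
  have hDb : Dom ρ b := ⟨hρ, hb3⟩
  refine ⟨b, hb2, ⟨hDb, hb1, by linarith, hb4, hb5⟩, ?_⟩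
  by_contra hcon
  rw [not_or, not_or] at hcon
  obtain ⟨⟨h1, h2⟩, h3⟩ := hcon
  have a1 : -(7 / 10) < b := lt_of_le_of_ne hb1 (Ne.symm h1)
  have a2 : 11 / 25 < ph ρ b := lt_of_le_of_ne hb5 (Ne.symm h2)
  have a3 : -(2 * Real.pi / 3) < sE ρ b := lt_of_le_of_ne (abs_le.1 hb4).1 (Ne.symm h3)
  have a4 : sE ρ b ≤ 0 := by
    have := (sE_strictMonoOn hDb (dom_zero hρ) (by linarith)).monotoneOn ⟨le_rfl, hb2⟩ ⟨hb2, le_rfl⟩ hb2
    rwa [sE_zero hρ] at this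
  have a4' : sE ρ b < 2 * Real.pi / 3 := lt_of_le_of_lt a4 (by positivity)
  have a5 : |b| * Real.exp b < ρ := by
    refine lt_of_le_of_ne hb3 fun he => ?_
    have e1 := sx_sq_add hDb
    have e2 : ρ * Real.exp (-b) = |b| := by
      rw [← he, mul_assoc, ← Real.exp_add]
      simp
    rw [e2, sq_abs] at e1
    have e3 : sx ρ b = 0 := by
      have : sx ρ b ^ (2 : ℕ) = 0 := by linarith
      exact pow_eq_zero_iff two_ne_zero |>.1 this
    have e4 : ph ρ b = 0 := by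
      unfold ph
      rw [e3]
      simp
    rw [e4] at a2
    norm_num at a2
  have ev : ∀ᶠ y in nhds b, -(7 / 10) < y ∧ 11 / 25 < ph ρ y ∧ -(2 * Real.pi / 3) < sE ρ y ∧
      sE ρ y < 2 * Real.pi / 3 ∧ |y| * Real.exp y < ρ := by
    refine (eventually_gt_nhds a1).and ?_
    refine ((cph.tendsto b).eventually (eventually_gt_nhds a2)).and ?_
    refine (((continuous_sE ρ).tendsto b).eventually (eventually_gt_nhds a3)).and ?_
    refine (((continuous_sE ρ).tendsto b).eventually (eventually_lt_nhds a4')).and ?_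
    exact (cd.tendsto b).eventually (eventually_lt_nhds a5)
  obtain ⟨y, ⟨c1, c2, c3, c4, c5⟩, hyb⟩ :=
    ((ev.filter_mono nhdsWithin_le_nhds).and (self_mem_nhdsWithin (s := Set.Iio b))).exists
  have hyb' : y < b := hyb
  have : b ≤ y := hmin ⟨⟨c1.le, by linarith⟩, c5.le, abs_le.2 ⟨c3.le, c4.le⟩, c2.le⟩
  linarith

end SokamF1T

end

/-! ### Lib_MP_af4de1_f1.TG4 -/

section
namespace SokamF1S
end SokamF1S
/-!
# [FT-G4] boundary, positive side; rho at least 5/2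
(see `TopGapD.lean` for the curve and its one variable descriptions)
-/

set_option autoImplicit false

namespace SokamF1T

open SokamF1S

private theorem arc_lower_g4 {x : ℝ} (hx : 0 ≤ x) : Real.sin x + Real.sin x ^ (3 : ℕ) / 6 ≤ x := by
  have hm : MonotoneOn (fun x : ℝ => x - Real.sin x - Real.sin x ^ (3 : ℕ) / 6) (Set.Ici 0) := by
    have hd : ∀ y : ℝ, HasDerivAt (fun x : ℝ => x - Real.sin x - Real.sin x ^ (3 : ℕ) / 6)
        (1 - Real.cos y - 3 * Real.sin y ^ (2 : ℕ) * Real.cos y / 6) y := by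
      intro y
      have h1 := Real.hasDerivAt_sin y
      have h2 := (h1.pow 3).div_const 6
      have h3 := ((hasDerivAt_id y).sub h1).sub h2
      refine h3.congr_deriv ?_
      simp
    refine monotoneOn_of_deriv_nonneg (convex_Ici _)
      (fun y _ => (hd y).continuousAt.continuousWithinAt)
      (fun y _ => (hd y).differentiableAt.differentiableWithinAt) ?_
    intro y _
    rw [(hd y).deriv]
    have hc1 := Real.cos_le_one y
    have hc2 := Real.neg_one_le_cos y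
    have hs : Real.sin y ^ (2 : ℕ) = 1 - Real.cos y ^ (2 : ℕ) := by
      have := Real.sin_sq_add_cos_sq y
      linarith only [this]
    rw [hs]
    have : 1 - Real.cos y - 3 * (1 - Real.cos y ^ (2 : ℕ)) * Real.cos y / 6 =
        (1 - Real.cos y) * ((1 - Real.cos y) * (2 + Real.cos y) / 2) := by ring
    rw [this]
    apply mul_nonneg (by linarith only [hc1])
    apply div_nonneg _ (by norm_num)
    apply mul_nonneg (by linarith only [hc1]) (by linarith only [hc2])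
  have h := hm (Set.mem_Ici.2 le_rfl) (Set.mem_Ici.2 hx) hx
  simp only [Real.sin_zero] at h
  norm_num at h
  linarith only [h]

private theorem exp72_g4 : (2.0544 : ℝ) ≤ Real.exp (18 / 25) := by
  have h := Real.sum_le_exp_of_nonneg (x := 18 / 25) (by norm_num) 8
  refine le_trans ?_ h
  simp only [Finset.sum_range_succ, Finset.sum_range_zero, Nat.factorial]
  norm_num

private theorem two_pi_three_g4 : 2 * Real.pi / 3 < 2.0944 := by
  have := Real.pi_lt_d4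
  norm_num at this ⊢
  linarith only [this]

/-- at `y = 18/25` the angle is above `2π/3` -/
private theorem sE_top_g4 {ρ : ℝ} (h : Dom ρ (18 / 25)) : 2 * Real.pi / 3 < sE ρ (18 / 25) := by
  have hρ := h.1
  have hs := h.sin
  have hc := h.cos
  set ψ := sP ρ (18 / 25) with hψ
  have hψ0 : 0 ≤ ψ := sP_nonneg hρ (by norm_num)
  have he := exp72_g4
  have hepos := Real.exp_pos (18 / 25 : ℝ)
  set s := Real.sin ψ with hsdef
  set c := Real.cos ψ with hcdef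
  have hspos : 0 < s := by rw [hs]; positivity
  have hs1 : s ≤ 1 := Real.sin_le_one _
  have hcn : 0 ≤ c := by
    rw [hc]
    have := sx_nonneg ρ (18 / 25)
    positivity
  have hsc : s ^ (2 : ℕ) + c ^ (2 : ℕ) = 1 := Real.sin_sq_add_cos_sq _
  have harc := arc_lower_g4 hψ0
  -- `s ρ = y e^y`, `s x = y c`
  have e1 : s * ρ = 18 / 25 * Real.exp (18 / 25) := by
    rw [hs]; field_simp
  have e2 : s * sx ρ (18 / 25) = 18 / 25 * c := by
    have h2 : c * ρ = sx ρ (18 / 25) * Real.exp (18 / 25) := by rw [hc]; field_simp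
    have h3 : (s * sx ρ (18 / 25)) * (ρ * Real.exp (18 / 25)) =
        (18 / 25 * c) * (ρ * Real.exp (18 / 25)) := by
      linear_combination (sx ρ (18 / 25) * Real.exp (18 / 25)) * e1 -
        (18 / 25 * Real.exp (18 / 25)) * h2
    exact mul_right_cancel₀ (by positivity) h3
  have hcle : c ≤ 1 - s ^ (2 : ℕ) / 2 - s ^ (4 : ℕ) / 8 := by
    have hp : 0 ≤ 1 - s ^ (2 : ℕ) / 2 - s ^ (4 : ℕ) / 8 := by
      have h2 : s ^ (2 : ℕ) ≤ 1 := pow_le_one₀ hspos.le hs1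
      have h4 : s ^ (4 : ℕ) ≤ 1 := pow_le_one₀ hspos.le hs1
      linarith only [h2, h4]
    refine (abs_le_of_sq_le_sq' ?_ hp).2
    have h6 : 0 ≤ s ^ (6 : ℕ) := by positivity
    have h8 : 0 ≤ s ^ (8 : ℕ) := by positivity
    nlinarith only [hsc, h6]
  have hkey : 2.0944 * s < s * sE ρ (18 / 25) := by
    have e3 : s * sE ρ (18 / 25) = s * ψ + 18 / 25 * Real.exp (18 / 25) - 18 / 25 * c := by
      unfold sE
      rw [← hψ]
      linear_combination e1 - e2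
    rw [e3]
    have h1 : s * (s + s ^ (3 : ℕ) / 6) ≤ s * ψ := mul_le_mul_of_nonneg_left harc hspos.le
    have h4 : (0 : ℝ) ≤ (s ^ (2 : ℕ) - 0.44) ^ (2 : ℕ) := sq_nonneg _
    have h5 : (0 : ℝ) ≤ (s - 0.66) ^ (2 : ℕ) := sq_nonneg _
    norm_num at *
    nlinarith only [hcle, h1, he, h4, h5]
  have : 2.0944 < sE ρ (18 / 25) := by
    have h1 : s * 2.0944 < s * sE ρ (18 / 25) := by linarith only [hkey]
    exact lt_of_mul_lt_mul_left h1 hspos.le
  exact two_pi_three_g4.trans this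

private theorem continuous_ph_g4 {ρ : ℝ} : Continuous (ph ρ) := by
  unfold ph
  exact ((continuous_sx ρ).mul (by fun_prop)).div_const ρ

private theorem ph_zero_g4 {ρ : ℝ} (hρ : 0 < ρ) : ph ρ 0 = 1 := by
  unfold ph sx
  simp [Real.sqrt_sq hρ.le, hρ.ne']

private theorem dom_of_g4 {ρ Y y : ℝ} (hD : Dom ρ Y) (h0 : 0 ≤ y) (h1 : y ≤ Y) : Dom ρ y := by
  refine ⟨hD.1, le_trans ?_ hD.2⟩
  rw [abs_of_nonneg h0, abs_of_nonneg (h0.trans h1)]
  exact mul_le_mul h1 (Real.exp_le_exp.2 h1) (Real.exp_pos _).le (h0.trans h1)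

private theorem bdry_aux_g4 {ρ Y : ℝ} (hD : Dom ρ Y) (h0 : 0 ≤ Y) (h1 : Y ≤ 18 / 25)
    (h : ph ρ Y ≤ 11 / 25 ∨ 2 * Real.pi / 3 ≤ sE ρ Y) :
    ∃ b, 0 ≤ b ∧ DD ρ b ∧ (ph ρ b = 11 / 25 ∨ sE ρ b = 2 * Real.pi / 3) := by
  have hρ := hD.1
  have hmono := sE_strictMonoOn (dom_zero hρ) hD (by norm_num : (-1 : ℝ) ≤ 0)
  have hE0 := sE_zero hρ
  have hpi := Real.pi_pos
  -- the second step
  have key : ∀ Z : ℝ, 0 ≤ Z → Z ≤ Y → sE ρ Z ≤ 2 * Real.pi / 3 → ph ρ Z ≤ 11 / 25 →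
      ∃ b, 0 ≤ b ∧ DD ρ b ∧ (ph ρ b = 11 / 25 ∨ sE ρ b = 2 * Real.pi / 3) := by
    intro Z hZ0 hZY hZE hZp
    have hiv := intermediate_value_Icc' hZ0 (continuous_ph_g4 (ρ := ρ)).continuousOn
    have hmem : (11 / 25 : ℝ) ∈ Set.Icc (ph ρ Z) (ph ρ 0) := by
      rw [ph_zero_g4 hρ]
      exact ⟨hZp, by norm_num⟩
    obtain ⟨b, hb, hpb⟩ := hiv hmem
    have hb0 := hb.1
    have hbZ := hb.2
    have hbY := hbZ.trans hZY
    have hEb0 : 0 ≤ sE ρ b := by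
      rw [← hE0]
      exact hmono.monotoneOn ⟨le_rfl, h0⟩ ⟨hb0, hbY⟩ hb0
    have hEb1 : sE ρ b ≤ sE ρ Z := hmono.monotoneOn ⟨hb0, hbY⟩ ⟨hZ0, hZY⟩ hbZ
    refine ⟨b, hb0, ⟨dom_of_g4 hD hb0 hbY, by linarith only [hb0], by linarith only [h1, hbY], ?_, hpb.ge⟩, Or.inl hpb⟩
    rw [abs_of_nonneg hEb0]
    exact hEb1.trans hZE
  by_cases hE : 2 * Real.pi / 3 ≤ sE ρ Y
  · obtain ⟨y, hy, hEy⟩ := exists_sE h0 (by rw [hE0]; positivity : sE ρ 0 ≤ 2 * Real.pi / 3) hE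
    by_cases hp : ph ρ y ≤ 11 / 25
    · exact key y hy.1 hy.2 hEy.le hp
    · push Not at hp
      refine ⟨y, hy.1, ⟨dom_of_g4 hD hy.1 hy.2, by linarith only [hy.1], hy.2.trans h1, ?_, hp.le⟩,
        Or.inr hEy⟩
      rw [hEy, abs_of_nonneg (by positivity)]
  · push Not at hE
    have hp : ph ρ Y ≤ 11 / 25 := by
      rcases h with h | h
      · exact h
      · linarith only [hE, h]
    exact key Y h0 le_rfl hE.le hp

/-- [FT-DD5] boundary, positive side (`y ≤ 18/25` never stops before `2π/3`: at `y = 18/25`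
`η = ψ + 1.479/sin ψ - .72 cot ψ ≥ 2.14 > 2π/3`). -/
theorem bdry_pos {ρ : ℝ} (hρ : 0 < ρ) :
    ∃ b, 0 ≤ b ∧ DD ρ b ∧ (ph ρ b = 11 / 25 ∨ sE ρ b = 2 * Real.pi / 3) := by
  by_cases hD : (18 / 25 : ℝ) * Real.exp (18 / 25) ≤ ρ
  · have h : Dom ρ (18 / 25) := ⟨hρ, by rw [abs_of_nonneg (by norm_num)]; exact hD⟩
    exact bdry_aux_g4 h (by norm_num) le_rfl (Or.inr (sE_top_g4 h).le)
  · push Not at hD
    have hiv := intermediate_value_Icc (a := (0 : ℝ)) (b := 18 / 25) (by norm_num)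
      (f := fun y : ℝ => y * Real.exp y) (by fun_prop)
    obtain ⟨Y, hY, hYe⟩ := hiv (show ρ ∈ _ by
      simp only [zero_mul]
      exact ⟨hρ.le, hD.le⟩)
    simp only at hYe
    have h : Dom ρ Y := ⟨hρ, by rw [abs_of_nonneg hY.1]; exact hYe.le⟩
    have hsx : sx ρ Y = 0 := by
      have h1 := sx_sq h
      have h2 : ρ * Real.exp (-Y) = Y := by
        rw [← hYe, mul_assoc, ← Real.exp_add]
        simp
      rw [h2, sub_self] at h1
      exact pow_eq_zero_iff (two_ne_zero) |>.1 h1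
    refine bdry_aux_g4 h hY.1 hY.2 (Or.inl ?_)
    unfold ph
    rw [hsx]
    norm_num

end SokamF1T

end

/-! ### Lib_MP_af4de1_f1.TG5 -/

section
namespace SokamF1S
end SokamF1S
/-!
# [FT-G5] size of the boundary angles
(see `TopGapD.lean` for the curve and its one variable descriptions)
-/

set_option autoImplicit false

namespace SokamF1T

open SokamF1S

/-! ### numerical values -/

private theorem sqrt3_G5 : (1732 : ℝ) / 1000 ≤ √3 := by
  apply Real.le_sqrt_of_sq_le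
  norm_num

private theorem cos_sub_G5 {u : ℝ} (h0 : 0 < u) (h1 : u ≤ 1) :
    1 / 2 * (1 - u ^ (2 : ℕ) / 2) + 866 / 1000 * (u - u ^ (3 : ℕ) / 6) ≤ Real.cos (Real.pi / 3 - u) := by
  rw [Real.cos_sub, Real.cos_pi_div_three, Real.sin_pi_div_three]
  have h2 := Real.one_sub_sq_div_two_le_cos (x := u)
  have h3 := (Real.sin_gt_sub_cube h0).le
  have h4 := sqrt3_G5
  have h5 : 0 ≤ u - u ^ (3 : ℕ) / 6 := by
    have : 0 ≤ u * (1 - u ^ (2 : ℕ) / 6) := mul_nonneg h0.le (by nlinarith only [h0, h1])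
    linarith only [this]
  have h6 : 866 / 1000 * (u - u ^ (3 : ℕ) / 6) ≤ √3 / 2 * Real.sin u :=
    mul_le_mul (by linarith only [h4]) h3 h5 (by positivity)
  linarith only [h2, h6]

/-- `cos (24/25) > .5731` -/
private theorem cos96_G5 : (5731 : ℝ) / 10000 ≤ Real.cos (24 / 25) := by
  have hp1 := Real.pi_gt_d4
  have hp2 := Real.pi_lt_d4
  obtain ⟨u, hu⟩ : ∃ u, u = Real.pi / 3 - 24 / 25 := ⟨_, rfl⟩
  have hu1 : 871 / 10000 ≤ u := by rw [hu]; norm_num at hp1; linarith only [hp1]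
  have hu2 : u ≤ 873 / 10000 := by rw [hu]; norm_num at hp2; linarith only [hp2]
  have h1 := cos_sub_G5 (u := u) (by linarith only [hu1]) (by linarith only [hu2])
  have e : Real.pi / 3 - u = 24 / 25 := by rw [hu]; ring
  rw [e] at h1
  refine le_trans ?_ h1
  have h2 : u ^ (2 : ℕ) ≤ (873 / 10000) ^ (2 : ℕ) := pow_le_pow_left₀ (by linarith only [hu1]) hu2 2
  have h3 : u ^ (3 : ℕ) ≤ (873 / 10000) ^ (3 : ℕ) := pow_le_pow_left₀ (by linarith only [hu1]) hu2 3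
  norm_num at h2 h3
  linarith only [hu1, h2, h3]

/-- `cos (2π/3 - 319/300) > .5130` -/
private theorem cosB_G5 : (5130 : ℝ) / 10000 ≤ Real.cos (2 * Real.pi / 3 - 319 / 300) := by
  have hp1 := Real.pi_gt_d4
  have hp2 := Real.pi_lt_d4
  obtain ⟨u, hu⟩ : ∃ u, u = 319 / 300 - Real.pi / 3 := ⟨_, rfl⟩
  have hu1 : 16 / 1000 ≤ u := by rw [hu]; norm_num at hp2; linarith only [hp2]
  have hu2 : u ≤ 17 / 1000 := by rw [hu]; norm_num at hp1; linarith only [hp1]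
  have h1 := cos_sub_G5 (u := u) (by linarith only [hu1]) (by linarith only [hu2])
  have e : Real.pi / 3 - u = 2 * Real.pi / 3 - 319 / 300 := by rw [hu]; ring
  rw [e] at h1
  refine le_trans ?_ h1
  have h2 : u ^ (2 : ℕ) ≤ (17 / 1000) ^ (2 : ℕ) := pow_le_pow_left₀ (by linarith only [hu1]) hu2 2
  have h3 : u ^ (3 : ℕ) ≤ (17 / 1000) ^ (3 : ℕ) := pow_le_pow_left₀ (by linarith only [hu1]) hu2 3
  norm_num at h2 h3
  linarith only [hu1, h2, h3]

private theorem exp56_G5 : (1750 : ℝ) / 1000 ≤ Real.exp (14 / 25) := by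
  have h := Real.sum_le_exp_of_nonneg (x := (14 : ℝ) / 25) (by norm_num) 6
  refine le_trans ?_ h
  norm_num [Finset.sum_range_succ, Nat.factorial]

private theorem exp65_G5 : Real.exp (13 / 20) ≤ 19156 / 10000 := by
  have h := Real.exp_bound' (x := (13 : ℝ) / 20) (by norm_num) (by norm_num) (n := 7) (by norm_num)
  refine h.trans ?_
  norm_num [Finset.sum_range_succ, Nat.factorial]

private theorem exp70l_G5 : (20137 : ℝ) / 10000 ≤ Real.exp (7 / 10) := by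
  have h := Real.sum_le_exp_of_nonneg (x := (7 : ℝ) / 10) (by norm_num) 8
  refine le_trans ?_ h
  norm_num [Finset.sum_range_succ, Nat.factorial]

private theorem exp70u_G5 : Real.exp (7 / 10) ≤ 20138 / 10000 := by
  have h := Real.exp_bound' (x := (7 : ℝ) / 10) (by norm_num) (by norm_num) (n := 8) (by norm_num)
  refine h.trans ?_
  norm_num [Finset.sum_range_succ, Nat.factorial]

/-- tangent of the sine at `π/4` -/
private theorem tangent_G5 {β : ℝ} (h0 : 0 ≤ β) (h1 : β ≤ Real.pi / 2) :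
    √2 * Real.sin β - (1 - Real.pi / 4) ≤ β := by
  have hpi := Real.pi_lt_d4
  norm_num at hpi
  obtain ⟨d, hd⟩ : ∃ d, d = β - Real.pi / 4 := ⟨_, rfl⟩
  have hβ : β = Real.pi / 4 + d := by rw [hd]; ring
  have hs2 : √2 * √2 = 2 := Real.mul_self_sqrt (by norm_num)
  have h2 : √2 * Real.sin β = Real.cos d + Real.sin d := by
    rw [hβ, Real.sin_add, Real.sin_pi_div_four, Real.cos_pi_div_four]
    linear_combination (Real.cos d + Real.sin d) / 2 * hs2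
  rw [h2]
  have h3 : Real.cos d + Real.sin d ≤ 1 + d := by
    rcases le_total 0 d with h | h
    · exact add_le_add (Real.cos_le_one d) (Real.sin_le h)
    · rcases h.lt_or_eq with h | h
      · obtain ⟨e, he⟩ : ∃ e, e = -d := ⟨_, rfl⟩
        have he0 : 0 < e := by linarith only [h, he]
        have he1 : e ≤ 1 := by linarith only [h0, hpi, hd, he]
        have hd' : d = -e := by linarith only [he]
        rw [hd', Real.cos_neg, Real.sin_neg]
        have h4 := (Real.sin_gt_sub_cube he0).le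
        have h5 := (Real.sin_gt_sub_cube (x := e / 2) (by linarith only [he0])).le
        have h6 : Real.cos e = 1 - 2 * Real.sin (e / 2) ^ (2 : ℕ) := by
          have h7 := Real.cos_sq_add_sin_sq (e / 2)
          have h8 := Real.cos_two_mul (e / 2)
          have e2 : 2 * (e / 2) = e := by ring
          rw [e2] at h8
          linarith only [h7, h8]
        have h9 : (e / 2) * (9 / 10) ≤ Real.sin (e / 2) := by
          refine le_trans ?_ h5
          have : 0 ≤ e * (1 - e ^ (2 : ℕ)) := mul_nonneg he0.le (by nlinarith only [he0, he1])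
          linarith only [he0, this]
        have h10 : ((e / 2) * (9 / 10)) ^ (2 : ℕ) ≤ Real.sin (e / 2) ^ (2 : ℕ) :=
          pow_le_pow_left₀ (by (clear * - he0; positivity)) h9 2
        have h11 : 0 ≤ e ^ (2 : ℕ) * (1 - e) := mul_nonneg (sq_nonneg e) (by linarith only [he1])
        have h12 : 0 ≤ e ^ (2 : ℕ) := sq_nonneg e
        nlinarith only [h4, h6, h10, h11]
      · rw [h]
        simp
  linarith only [hβ, h3]

/-! ### the domain -/

private theorem sx_pos_G5 {ρ b : ℝ} (h : DD ρ b) : 0 < sx ρ b := by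
  rcases (sx_nonneg ρ b).lt_or_eq with h1 | h1
  · exact h1
  · exfalso
    have h2 := h.phi
    unfold ph at h2
    rw [← h1, zero_mul, zero_div] at h2
    norm_num at h2

private theorem strict_G5 {ρ b : ℝ} (h : DD ρ b) : |b| * Real.exp b < ρ := by
  have h1 := sx_pos_G5 h
  have h2 := sx_sq_add h.dom
  have h3 : |b| < ρ * Real.exp (-b) := by
    have h4 : 0 ≤ ρ * Real.exp (-b) := mul_nonneg h.dom.1.le (Real.exp_pos _).le
    apply abs_lt_of_sq_lt_sq _ h4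
    nlinarith only [h1, h2]
  have h5 : Real.exp (-b) * Real.exp b = 1 := by rw [← Real.exp_add]; simp
  calc |b| * Real.exp b < ρ * Real.exp (-b) * Real.exp b :=
        mul_lt_mul_of_pos_right h3 (Real.exp_pos b)
    _ = ρ := by rw [mul_assoc, h5, mul_one]

private theorem sin70_G5 {ρ : ℝ} (h : Dom ρ (-(7 / 10))) :
    3476 / 10000 / ρ ≤ Real.sin (-sP ρ (-(7 / 10))) := by
  rw [Real.sin_neg, h.sin]
  have e : -(-(7 / 10) * Real.exp (-(7 / 10)) / ρ) = (7 / 10 * Real.exp (-(7 / 10))) / ρ := by ring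
  rw [e]
  refine div_le_div_of_nonneg_right ?_ h.1.le
  have h5 : Real.exp (-(7 / 10)) = (Real.exp (7 / 10))⁻¹ := Real.exp_neg _
  rw [h5]
  have h6 : (20138 / 10000 : ℝ)⁻¹ ≤ (Real.exp (7 / 10))⁻¹ := inv_anti₀ (Real.exp_pos _) exp70u_G5
  norm_num at h6 ⊢
  linarith only [h6]

/-- the angle at `b = -7/10` -/
private theorem sE70_G5 {ρ : ℝ} (h : Dom ρ (-(7 / 10))) :
    3476 / 10000 / ρ + sx ρ (-(7 / 10)) - ρ ≤ - sE ρ (-(7 / 10)) := by
  have hρ := h.1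
  have h2 := sP_nonpos hρ (y := -(7 / 10)) (by norm_num)
  have h3 : Real.sin (-sP ρ (-(7 / 10))) ≤ -sP ρ (-(7 / 10)) := Real.sin_le (by linarith only [h2])
  have h4 := sin70_G5 h
  unfold sE
  linarith only [h3, h4]

private theorem sE70b_G5 {ρ : ℝ} (h : Dom ρ (-(7 / 10))) :
    4915 / 10000 / ρ - 2147 / 10000 + sx ρ (-(7 / 10)) - ρ ≤ - sE ρ (-(7 / 10)) := by
  have hρ := h.1
  have hpi := Real.pi_gt_d4
  norm_num at hpi
  have h2 := sP_nonpos hρ (y := -(7 / 10)) (by norm_num)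
  have h3 := tangent_G5 (β := -sP ρ (-(7 / 10))) (by linarith only [h2])
    (by have := abs_le.1 (sP_abs_le ρ (-(7 / 10))); linarith only [this.1])
  have h4 := sin70_G5 h
  have h5 : (14141 : ℝ) / 10000 ≤ √2 := by
    apply Real.le_sqrt_of_sq_le
    norm_num
  have h6 : (14141 : ℝ) / 10000 * (3476 / 10000 / ρ) ≤ √2 * Real.sin (-sP ρ (-(7 / 10))) :=
    mul_le_mul h5 h4 (by positivity) (by positivity)
  have h7 : 4915 / 10000 / ρ ≤ (14141 : ℝ) / 10000 * (3476 / 10000 / ρ) := by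
    rw [← mul_div_assoc]
    refine div_le_div_of_nonneg_right ?_ hρ.le
    norm_num
  unfold sE
  linarith only [hpi, h3, h6, h7]

private theorem sx70_G5 {ρ : ℝ} (h : Dom ρ (-(7 / 10))) :
    (20137 / 10000 * ρ) ^ (2 : ℕ) - 49 / 100 ≤ sx ρ (-(7 / 10)) ^ (2 : ℕ) := by
  have hρ := h.1
  rw [sx_sq h]
  have h1 : (20137 / 10000 * ρ) ^ (2 : ℕ) ≤ (ρ * Real.exp (-(-(7 / 10)))) ^ (2 : ℕ) := by
    refine pow_le_pow_left₀ (by positivity) ?_ 2
    rw [neg_neg, mul_comm ρ]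
    exact mul_le_mul_of_nonneg_right exp70l_G5 hρ.le
  have e : ((-(7 / 10) : ℝ)) ^ (2 : ℕ) = 49 / 100 := by norm_num
  rw [e]
  linarith only [h1]

private theorem sx70u_G5 {ρ : ℝ} (h : Dom ρ (-(7 / 10))) :
    sx ρ (-(7 / 10)) ^ (2 : ℕ) ≤ (20138 / 10000 * ρ) ^ (2 : ℕ) - 49 / 100 := by
  have hρ := h.1
  rw [sx_sq h]
  have h1 : (ρ * Real.exp (-(-(7 / 10)))) ^ (2 : ℕ) ≤ (20138 / 10000 * ρ) ^ (2 : ℕ) := by
    refine pow_le_pow_left₀ (mul_nonneg hρ.le (Real.exp_pos _).le) ?_ 2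
    rw [neg_neg, mul_comm ρ]
    exact mul_le_mul_of_nonneg_right exp70u_G5 hρ.le
  have e : ((-(7 / 10) : ℝ)) ^ (2 : ℕ) = 49 / 100 := by norm_num
  rw [e]
  linarith only [h1]

/-- `ph = 11/25`, `b ≤ 0` -/
private theorem rho_neg_G5 {ρ b : ℝ} (h : DD ρ b) (hb : b ≤ 0) (hph : ph ρ b = 11 / 25) : ρ ≤ 1 := by
  by_contra hc
  push Not at hc
  have hρ := h.dom.1
  have hb0 := h.y0
  have h1 : sx ρ b * (1 + b) = 11 / 25 * ρ := by
    unfold ph at hph
    rw [div_eq_iff hρ.ne'] at hph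
    exact hph
  have h2 := sx_sq_add h.dom
  -- lower bound of `(1 + b) e^(-b)`
  have h3 : 604 / 1000 ≤ (1 + b) * Real.exp (-b) := by
    have h4 : Real.exp (7 / 10) * (1 + (-b - 7 / 10)) ≤ Real.exp (-b) := by
      have h5 := Real.add_one_le_exp (-b - 7 / 10)
      have h6 : Real.exp (-b) = Real.exp (7 / 10) * Real.exp (-b - 7 / 10) := by
        rw [← Real.exp_add]
        congr 1
        ring
      rw [h6]
      exact mul_le_mul_of_nonneg_left (by linarith only [h5]) (Real.exp_pos _).le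
    have h5 : (1 + b) * (Real.exp (7 / 10) * (1 + (-b - 7 / 10))) ≤ (1 + b) * Real.exp (-b) :=
      mul_le_mul_of_nonneg_left h4 (by linarith only [hb0])
    have h6 := exp70l_G5
    have h7 : 3 / 10 ≤ (1 + b) * (1 + (-b - 7 / 10)) := by nlinarith only [hb, hb0]
    have h8 : Real.exp (7 / 10) * (3 / 10) ≤ Real.exp (7 / 10) * ((1 + b) * (1 + (-b - 7 / 10))) :=
      mul_le_mul_of_nonneg_left h7 (Real.exp_pos _).le
    have h9 : (1 + b) * (Real.exp (7 / 10) * (1 + (-b - 7 / 10))) =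
        Real.exp (7 / 10) * ((1 + b) * (1 + (-b - 7 / 10))) := by ring
    linarith only [h5, h6, h8]
  -- the equation multiplied by `(1+b)²`
  have h4 : (11 / 25 * ρ) ^ (2 : ℕ) + (b * (1 + b)) ^ (2 : ℕ) = (ρ * ((1 + b) * Real.exp (-b))) ^ (2 : ℕ) := by
    rw [← h1]
    linear_combination (1 + b) ^ (2 : ℕ) * h2
  have h5 : (ρ * (604 / 1000)) ^ (2 : ℕ) ≤ (ρ * ((1 + b) * Real.exp (-b))) ^ (2 : ℕ) :=
    pow_le_pow_left₀ (by positivity) (mul_le_mul_of_nonneg_left h3 hρ.le) 2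
  have h6 : (b * (1 + b)) ^ (2 : ℕ) ≤ (1 / 4) ^ (2 : ℕ) := by
    apply sq_le_sq'
    · linarith only [sq_nonneg (b + 1 / 2)]
    · nlinarith only [hb, hb0]
  have h7 : 1 < ρ ^ (2 : ℕ) := by nlinarith only [hc]
  linarith only [h4, h5, h6, h7]

/-- [FT-DD6] (true: 55.2° = .9634 for `b ≤ 0` at ρ = .4, ≥ 63.9° for `b ≥ 0`). -/
theorem bd_abs_ge {ρ b : ℝ} (h : Bd ρ b) : 24 / 25 ≤ |sE ρ b| := by
  by_contra hc
  push Not at hc
  obtain ⟨hD, hb⟩ := h
  have hρ := hD.dom.1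
  rcases hb with hb | hph
  · subst hb
    have h1 := hD.phi
    unfold ph at h1
    rw [le_div_iff₀ hρ] at h1
    have h2 := sE70b_G5 hD.dom
    have h3 := neg_le_abs (sE ρ (-(7 / 10)))
    have h4 := sx70_G5 hD.dom
    have h5 := sx70u_G5 hD.dom
    have h6 : 22 / 15 * ρ ≤ sx ρ (-(7 / 10)) := by linarith only [h1]
    have h7 : (22 / 15 * ρ) ^ (2 : ℕ) ≤ sx ρ (-(7 / 10)) ^ (2 : ℕ) := pow_le_pow_left₀ (by positivity) h6 2
    have h8 : 1 / 2 ≤ ρ := by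
      by_contra h9
      push Not at h9
      nlinarith only [hρ, h1, h5, h9]
    obtain ⟨u, hu⟩ : ∃ u, u = ρ - 1 / 2 := ⟨_, rfl⟩
    have hu0 : 0 ≤ u := by linarith only [h8, hu]
    have hρu : ρ = 1 / 2 + u := by linarith only [hu]
    have h9 : sx ρ (-(7 / 10)) < 24 / 25 - (4915 / 10000 / ρ - 2147 / 10000) + ρ := by linarith only [hc, h2, h3]
    have h10 : sx ρ (-(7 / 10)) * ρ < (24 / 25 - (4915 / 10000 / ρ - 2147 / 10000) + ρ) * ρ :=
      mul_lt_mul_of_pos_right h9 hρ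
    have e1 : (24 / 25 - (4915 / 10000 / ρ - 2147 / 10000) + ρ) * ρ =
        11747 / 10000 * ρ + ρ ^ (2 : ℕ) - 4915 / 10000 := by
      field_simp
      ring
    rw [e1] at h10
    have h11 : 0 ≤ sx ρ (-(7 / 10)) * ρ := mul_nonneg (sx_nonneg _ _) hρ.le
    have h12 : (sx ρ (-(7 / 10)) * ρ) ^ (2 : ℕ) < (11747 / 10000 * ρ + ρ ^ (2 : ℕ) - 4915 / 10000) ^ (2 : ℕ) :=
      pow_lt_pow_left₀ h10 h11 two_ne_zero
    have h13 : ((20137 / 10000 * ρ) ^ (2 : ℕ) - 49 / 100) * ρ ^ (2 : ℕ) ≤ (sx ρ (-(7 / 10)) * ρ) ^ (2 : ℕ) := by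
      rw [mul_pow (sx ρ (-(7 / 10)))]
      exact mul_le_mul_of_nonneg_right h4 (sq_nonneg ρ)
    have h14 : ((20137 / 10000 * ρ) ^ (2 : ℕ) - 49 / 100) * ρ ^ (2 : ℕ) <
        (11747 / 10000 * ρ + ρ ^ (2 : ℕ) - 4915 / 10000) ^ (2 : ℕ) := lt_of_le_of_lt h13 h12
    rw [hρu] at h14
    have h15 : 0 ≤ u ^ (2 : ℕ) := by (clear * -; positivity)
    have h16 : 0 ≤ u ^ (3 : ℕ) := by (clear * - hu0; positivity)
    have h17 : 0 ≤ u ^ (4 : ℕ) := by (clear * -; positivity)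
    ring_nf at h14
    linarith only [hu0, h15, h16, h17, h14]
  · have hpi := Real.pi_gt_three
    have h1 := ph_trial (c := 1) hD.dom (strict_G5 hD) (by linarith only [hD.y0]) one_pos
      (by rw [sub_self, mul_zero, sub_zero]; linarith only [hc, hpi])
    rw [sub_self, mul_zero, sub_zero, Real.log_one, sub_zero, one_mul, hph] at h1
    have h2 : Real.cos (24 / 25) ≤ Real.cos (sE ρ b) := by
      rw [← Real.cos_abs (sE ρ b)]
      exact Real.cos_le_cos_of_nonneg_of_le_pi (abs_nonneg _) (by linarith only [hpi]) hc.le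
    have h3 := cos96_G5
    have hpos : 0 < Real.cos (sE ρ b) := by linarith only [h2, h3]
    have h4 : Real.log (Real.cos (sE ρ b)) ≤ -(14 / 25) := by linarith only [h1]
    have h5 : Real.cos (sE ρ b) ≤ Real.exp (-(14 / 25)) := (Real.log_le_iff_le_exp hpos).1 h4
    rw [Real.exp_neg] at h5
    have h6 : (Real.exp (14 / 25))⁻¹ ≤ (1750 / 1000 : ℝ)⁻¹ := inv_anti₀ (by norm_num) exp56_G5
    norm_num at h6
    linarith only [h2, h3, h5, h6]

/-- `ph = 11/25`, `b ≥ 0` -/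
private theorem rho_pos_G5 {ρ b : ℝ} (h : DD ρ b) (hb : 0 ≤ b) (hph : ph ρ b = 11 / 25) :
    ρ ≤ 29 / 20 := by
  by_contra hc
  push Not at hc
  have hρ := h.dom.1
  have h1 : sx ρ b * (1 + b) = 11 / 25 * ρ := by
    have h1 := hph
    unfold ph at h1
    rw [div_eq_iff hρ.ne'] at h1
    exact h1
  have h2 := sx_sq_add h.dom
  have hE : Real.exp (-b) * Real.exp b = 1 := by rw [← Real.exp_add]; simp
  -- step 1
  have hb2 : 13 / 20 ≤ b := by
    by_contra hb3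
    push Not at hb3
    have h3 : Real.exp b ≤ 19156 / 10000 :=
      (Real.exp_le_exp.2 hb3.le).trans exp65_G5
    have h4 : Real.exp b * (33 / 20) ≤ 19156 / 10000 * (1 + b) := by
      have h5 := Real.add_one_le_exp (13 / 20 - b)
      have h6 : Real.exp (13 / 20) = Real.exp b * Real.exp (13 / 20 - b) := by
        rw [← Real.exp_add]
        congr 1
        ring
      have h7 : Real.exp b * ((33 / 20 - b) * (1 + b)) ≤ Real.exp (13 / 20) * (1 + b) := by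
        rw [h6, mul_assoc]
        refine mul_le_mul_of_nonneg_left ?_ (Real.exp_pos b).le
        exact mul_le_mul_of_nonneg_right (by linarith only [h5]) (by linarith only [hb])
      have h8 : 33 / 20 ≤ (33 / 20 - b) * (1 + b) := by nlinarith only [hb, hb3]
      have h9 : Real.exp b * (33 / 20) ≤ Real.exp b * ((33 / 20 - b) * (1 + b)) :=
        mul_le_mul_of_nonneg_left h8 (Real.exp_pos b).le
      have h10 : Real.exp (13 / 20) * (1 + b) ≤ 19156 / 10000 * (1 + b) :=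
        mul_le_mul_of_nonneg_right exp65_G5 (by linarith only [hb])
      linarith only [h7, h9, h10]
    -- `ρ² (1+b)² = e^(2b) ((11/25)² ρ² + b² (1+b)²)`
    have h5 : (ρ * (1 + b)) ^ (2 : ℕ) = (11 / 25 * ρ * Real.exp b) ^ (2 : ℕ) +
        (b * (1 + b) * Real.exp b) ^ (2 : ℕ) := by
      have h6 : (ρ * (1 + b)) ^ (2 : ℕ) = (ρ * Real.exp (-b)) ^ (2 : ℕ) * (1 + b) ^ (2 : ℕ) * Real.exp b ^ (2 : ℕ) := by
        have : (ρ * Real.exp (-b)) ^ (2 : ℕ) * (1 + b) ^ (2 : ℕ) * Real.exp b ^ (2 : ℕ) =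
            (ρ * (1 + b)) ^ (2 : ℕ) * (Real.exp (-b) * Real.exp b) ^ (2 : ℕ) := by ring
        rw [this, hE]
        ring
      rw [h6, ← h2, ← h1]
      ring
    have hb1 : 0 < 1 + b := by linarith only [hb]
    have h6 : (11 / 25 * ρ * Real.exp b) ^ (2 : ℕ) ≤ (11 / 25 * ρ * (1161 / 1000 * (1 + b))) ^ (2 : ℕ) := by
      refine pow_le_pow_left₀ (by positivity) ?_ 2
      refine mul_le_mul_of_nonneg_left ?_ (by (clear * - hc; positivity))
      linarith only [h4, hb1]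
    have h7 : (b * (1 + b) * Real.exp b) ^ (2 : ℕ) ≤ (13 / 20 * (1 + b) * (19156 / 10000)) ^ (2 : ℕ) := by
      refine pow_le_pow_left₀ (by (clear * - hb; positivity)) ?_ 2
      refine mul_le_mul ?_ h3 (Real.exp_pos b).le (by (clear * - hb; positivity))
      exact mul_le_mul_of_nonneg_right hb3.le hb1.le
    have h8 : ρ ^ (2 : ℕ) * (1 + b) ^ (2 : ℕ) ≤ ((11 / 25 * (1161 / 1000)) ^ (2 : ℕ) * ρ ^ (2 : ℕ) +
        (13 / 20 * (19156 / 10000)) ^ (2 : ℕ)) * (1 + b) ^ (2 : ℕ) := by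
      have e1 : ρ ^ (2 : ℕ) * (1 + b) ^ (2 : ℕ) = (ρ * (1 + b)) ^ (2 : ℕ) := by ring
      rw [e1, h5]
      refine (add_le_add h6 h7).trans (le_of_eq ?_)
      ring
    have h9 : ρ ^ (2 : ℕ) ≤ (11 / 25 * (1161 / 1000)) ^ (2 : ℕ) * ρ ^ (2 : ℕ) + (13 / 20 * (19156 / 10000)) ^ (2 : ℕ) :=
      le_of_mul_le_mul_right h8 (by (clear * - hb; positivity))
    have h10 : (29 / 20 : ℝ) ^ (2 : ℕ) < ρ ^ (2 : ℕ) := pow_lt_pow_left₀ hc (by norm_num) two_ne_zero
    norm_num at h9 h10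
    linarith only [h9, h10]
  -- step 2
  have hx : sx ρ b ≤ 4 / 15 * ρ := by
    have h3 : sx ρ b * (33 / 20) ≤ sx ρ b * (1 + b) :=
      mul_le_mul_of_nonneg_left (by linarith only [hb2]) (sx_nonneg ρ b)
    linarith only [h1, h3]
  have hψ := sP_nonneg hρ hb
  obtain ⟨θ, hθ⟩ : ∃ θ, θ = sE ρ b - ρ * (1 - 4 / 15) := ⟨_, rfl⟩
  have hθ0 : 0 ≤ θ := by
    rw [hθ]
    unfold sE
    linarith only [hx, hψ]
  have hθ1 : θ ≤ 2 * Real.pi / 3 - 319 / 300 := by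
    have h3 := (le_abs_self _).trans h.eta
    rw [hθ]
    linarith only [hc, h3]
  have hpi := Real.pi_gt_three
  have hpi2 := Real.pi_lt_d2
  have h3 := ph_trial (c := 4 / 15) h.dom (strict_G5 h) (by linarith only [h.y0]) (by norm_num)
    (by
      rw [← hθ, abs_of_nonneg hθ0]
      norm_num at hpi2
      linarith only [hθ1, hpi2])
  rw [← hθ, hph] at h3
  have h4 : Real.cos (2 * Real.pi / 3 - 319 / 300) ≤ Real.cos θ :=
    Real.cos_le_cos_of_nonneg_of_le_pi hθ0 (by linarith only [hpi]) hθ1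
  have h5 := cosB_G5
  have hpos : 0 < Real.cos θ := by linarith only [h4, h5]
  have h6 : Real.log (Real.cos θ) - Real.log (4 / 15) ≤ 13 / 20 := by linarith only [h3]
  rw [← Real.log_div hpos.ne' (by norm_num)] at h6
  have h7 := (Real.log_le_iff_le_exp (by (clear * - hpos; positivity))).1 h6
  have h8 := h7.trans exp65_G5
  rw [div_le_iff₀ (by norm_num)] at h8
  linarith only [h4, h5, h8]

/-- `b = -7/10` with a lower bound of the angle -/
private theorem rho70_G5 {ρ : ℝ} (h : Dom ρ (-(7 / 10))) :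
    (|sE ρ (-(7 / 10))| ≤ 2 * Real.pi / 3 → ρ ≤ 2) ∧
      (|sE ρ (-(7 / 10))| ≤ Real.pi / 2 → ρ ≤ 29 / 20) := by
  have hρ := h.1
  have h1 := sE70_G5 h
  have h2 := sx70_G5 h
  have h3 := neg_le_abs (sE ρ (-(7 / 10)))
  have hpi2 := Real.pi_lt_d4
  have hx0 := sx_nonneg ρ (-(7 / 10))
  have e1 : (3476 / 10000 / ρ) * ρ = 3476 / 10000 := by field_simp
  constructor
  · intro h4
    by_contra hc
    push Not at hc
    have h5 : 198 / 100 * ρ ≤ sx ρ (-(7 / 10)) := by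
      refine abs_le_of_sq_le_sq' ?_ hx0 |>.2
      refine le_trans ?_ h2
      nlinarith only [hc]
    have h6 : 3476 / 10000 / ρ + 98 / 100 * ρ ≤ 21 / 10 := by
      norm_num at hpi2
      linarith only [h1, h3, h4, h5, hpi2]
    have h7 : (3476 / 10000 / ρ + 98 / 100 * ρ) * ρ ≤ 21 / 10 * ρ :=
      mul_le_mul_of_nonneg_right h6 hρ.le
    rw [add_mul, e1] at h7
    nlinarith only [hc, h7]
  · intro h4
    by_contra hc
    push Not at hc
    have h5 : 195 / 100 * ρ ≤ sx ρ (-(7 / 10)) := by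
      refine abs_le_of_sq_le_sq' ?_ hx0 |>.2
      refine le_trans ?_ h2
      nlinarith only [hc]
    have h6 : 3476 / 10000 / ρ + 95 / 100 * ρ ≤ 158 / 100 := by
      norm_num at hpi2
      linarith only [h1, h3, h4, h5, hpi2]
    have h7 : (3476 / 10000 / ρ + 95 / 100 * ρ) * ρ ≤ 158 / 100 * ρ :=
      mul_le_mul_of_nonneg_right h6 hρ.le
    rw [add_mul, e1] at h7
    nlinarith only [hc, h7]

/-- [FT-DD7] (true: 1.96). -/
theorem bd_rho {ρ b : ℝ} (h : Bd ρ b) : ρ ≤ 2 := by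
  obtain ⟨hD, hb⟩ := h
  rcases hb with hb | hph
  · subst hb
    exact (rho70_G5 hD.dom).1 hD.eta
  · rcases le_total b 0 with hb | hb
    · exact (rho_neg_G5 hD hb hph).trans (by norm_num)
    · exact (rho_pos_G5 hD hb hph).trans (by norm_num)

/-- [FT-DD7] (true: 1.43 / 1.39). -/
theorem bd_rho' {ρ b : ℝ} (h : Bd ρ b) (hb : 0 ≤ b ∨ |sE ρ b| ≤ Real.pi / 2) : ρ ≤ 29 / 20 := by
  obtain ⟨hD, hb'⟩ := h
  rcases hb' with hb' | hph
  · subst hb'
    rcases hb with hb | hb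
    · norm_num at hb
    · exact (rho70_G5 hD.dom).2 hb
  · rcases le_total b 0 with hb0 | hb0
    · exact (rho_neg_G5 hD hb0 hph).trans (by norm_num)
    · exact rho_pos_G5 hD hb0 hph

end SokamF1T

end

/-! ### Lib_MP_af4de1_f1.TG6 -/

section
namespace SokamF1S
end SokamF1S
/-!
# [FT-G6] gap, N = 3
(see `TopGapD.lean` for the curve and its one variable descriptions)

The trial `c = 1/2` is used twice (helper85's idea): backwards at the boundary point, where `ph = 11/25`, it gives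
`|sE b - ρ/2| ≥ π/3 + 63/1000`; forwards at `H` it gives `ph(H) ≥ (1 + log (2 cos (π/3 - 63/1000)))/2 ≥ 5508/10000`.
For `b = -7/10` the angle is bounded by `bd_abs_ge` (`ρ ≤ 4/5`) or by `β + x - ρ` (`ρ ≥ 4/5`; trial `c = 1` for `ρ ≥ 13/10`).
-/

set_option autoImplicit false

namespace SokamF1T

open SokamF1S

theorem g3_str {ρ y : ℝ} (h : DD ρ y) : |y| * Real.exp y < ρ := by
  refine lt_of_le_of_ne h.dom.2 fun he => ?_
  have e1 := sx_sq_add h.dom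
  have e2 : ρ * Real.exp (-y) = |y| := by
    rw [← he, mul_assoc, ← Real.exp_add]
    simp
  rw [e2, sq_abs] at e1
  have e3 : sx ρ y = 0 := by
    have : sx ρ y ^ (2 : ℕ) = 0 := by linarith only [e1]
    exact pow_eq_zero_iff two_ne_zero |>.1 this
  have e4 : ph ρ y = 0 := by
    unfold ph
    rw [e3]
    simp
  have := h.phi
  rw [e4] at this
  norm_num at this

/-- trial `c = 1/2` -/
theorem g3_half {ρ y C : ℝ} (h : DD ρ y) (hC : 0 < C) (hθ : |sE ρ y - ρ / 2| < Real.pi / 2)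
    (h1 : C ≤ Real.cos (sE ρ y - ρ / 2)) : (1 + Real.log (2 * C)) / 2 ≤ ph ρ y := by
  have e : sE ρ y - ρ * (1 - 1 / 2) = sE ρ y - ρ / 2 := by ring
  have h2 := ph_trial h.dom (g3_str h) (by linarith only [h.y0]) (c := 1 / 2) (by norm_num)
    (by rw [e]; exact hθ)
  rw [e] at h2
  have h3 : Real.log C ≤ Real.log (Real.cos (sE ρ y - ρ / 2)) := Real.log_le_log hC h1
  have h4 : Real.log (2 * C) = Real.log 2 + Real.log C := Real.log_mul (by norm_num) hC.ne'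
  have h5 : Real.log (1 / 2) = -Real.log 2 := by rw [one_div, Real.log_inv]
  rw [h5] at h2
  linarith only [h2, h3, h4]

/-- trial `c = 1` -/
theorem g3_one {ρ y C : ℝ} (h : DD ρ y) (hC : 0 < C) (hθ : |sE ρ y| < Real.pi / 2)
    (h1 : C ≤ Real.cos (sE ρ y)) : 1 + Real.log C ≤ ph ρ y := by
  have e : sE ρ y - ρ * (1 - 1) = sE ρ y := by ring
  have h2 := ph_trial h.dom (g3_str h) (by linarith only [h.y0]) (c := 1) (by norm_num)
    (by rw [e]; exact hθ)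
  rw [e] at h2
  have h3 : Real.log C ≤ Real.log (Real.cos (sE ρ y)) := Real.log_le_log hC h1
  rw [Real.log_one] at h2
  linarith only [h2, h3]

theorem g3_cos {θ a C : ℝ} (h : |θ| ≤ a) (ha : a ≤ Real.pi) (hC : C ≤ Real.cos a) :
    C ≤ Real.cos θ := by
  rw [← Real.cos_abs θ]
  exact hC.trans (Real.cos_le_cos_of_nonneg_of_le_pi (abs_nonneg _) ha h)

theorem g3_sqrt3 : (1732 / 1000 : ℝ) ≤ √3 ∧ √3 ≤ (17321 / 10000 : ℝ) := by
  constructor
  · apply Real.le_sqrt_of_sq_le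
    norm_num
  · rw [Real.sqrt_le_left (by norm_num)]
    norm_num

theorem g3_cosA : (444 / 1000 : ℝ) ≤ Real.cos (Real.pi / 3 + 63 / 1000) := by
  rw [Real.cos_add, Real.cos_pi_div_three, Real.sin_pi_div_three]
  have h1 : 1 - (63 / 1000 : ℝ) ^ (2 : ℕ) / 2 ≤ Real.cos (63 / 1000) := SokamF1G.cos_ge2
  have h2 : Real.sin (63 / 1000 : ℝ) ≤ 63 / 1000 := SokamF1G.sin_le1 (by norm_num)
  have h3 : 0 ≤ Real.sin (63 / 1000 : ℝ) :=
    Real.sin_nonneg_of_nonneg_of_le_pi (by norm_num) (by linarith only [Real.pi_gt_three])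
  obtain ⟨h4, h5⟩ := g3_sqrt3
  have h6 : √3 / 2 * Real.sin (63 / 1000) ≤ 17321 / 20000 * (63 / 1000) :=
    mul_le_mul (by linarith only [h5]) h2 h3 (by norm_num)
  norm_num at h1 h6 ⊢
  linarith only [h1, h6]

theorem g3_cosB : (5535 / 10000 : ℝ) ≤ Real.cos (Real.pi / 3 - 63 / 1000) := by
  rw [Real.cos_sub, Real.cos_pi_div_three, Real.sin_pi_div_three]
  have h1 : 1 - (63 / 1000 : ℝ) ^ (2 : ℕ) / 2 ≤ Real.cos (63 / 1000) := SokamF1G.cos_ge2
  have h2 : (63 / 1000 : ℝ) - (63 / 1000) ^ (3 : ℕ) / 6 ≤ Real.sin (63 / 1000) :=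
    SokamF1G.sin_ge3 (by norm_num)
  obtain ⟨h4, h5⟩ := g3_sqrt3
  have h6 : 866 / 1000 * ((63 / 1000 : ℝ) - (63 / 1000) ^ (3 : ℕ) / 6) ≤ √3 / 2 * Real.sin (63 / 1000) :=
    mul_le_mul (by linarith only [h4]) h2 (by norm_num) (by positivity)
  norm_num at h1 h6 ⊢
  linarith only [h1, h6]

theorem g3_log {c x : ℝ} (h0 : 0 < x) (h : Real.exp c ≤ x) : c ≤ Real.log x :=
  (Real.le_log_iff_exp_le h0).2 h

/-- upper bound of `exp` -/
theorem g3_exp_le {x : ℝ} (h0 : 0 ≤ x) (h1 : x ≤ 1) :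
    Real.exp x ≤ 1 + x + x ^ (2 : ℕ) / 2 + x ^ (3 : ℕ) / 6 + x ^ (4 : ℕ) / 24 + x ^ (5 : ℕ) / 120 + x ^ (6 : ℕ) / 720 * (7 / 6) := by
  have h := Real.exp_bound' h0 h1 (n := 6) (by norm_num)
  refine h.trans (le_of_eq ?_)
  simp [Finset.sum_range_succ, Nat.factorial]
  ring

/-- lower bound of `exp` -/
theorem g3_exp_ge {x : ℝ} (h0 : 0 ≤ x) :
    1 + x + x ^ (2 : ℕ) / 2 + x ^ (3 : ℕ) / 6 + x ^ (4 : ℕ) / 24 + x ^ (5 : ℕ) / 120 + x ^ (6 : ℕ) / 720 ≤ Real.exp x := by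
  have h := Real.sum_le_exp_of_nonneg h0 7
  refine le_trans (le_of_eq ?_) h
  simp [Finset.sum_range_succ, Nat.factorial]

/-- `exp (-(499/10) d) ≤ K` -/
theorem g3_K {d c K : ℝ} (hd : c / (499 / 10) ≤ d) (hK : Real.exp (-c) ≤ K) :
    Real.exp (-(499 / 10) * d) ≤ K := by
  refine (Real.exp_le_exp.2 ?_).trans hK
  rw [div_le_iff₀ (by norm_num)] at hd
  linarith only [hd]

theorem g3_fin {ρ y b M m K : ℝ} (hM : max 1 (Real.exp (y - b)) ≤ M) (hb : 0 < sD2 ρ b)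
    (hm0 : 0 ≤ m) (hm : sD2 ρ y ≤ m ^ (4 : ℕ) * sD2 ρ b)
    (hK : Real.exp (-(499 / 10) * (ph ρ y - ph ρ b)) ≤ K) (hf : M * m * K ≤ 1 / 40) :
    GapC ρ y b ≤ 1 / 40 := by
  unfold GapC
  refine le_trans ?_ hf
  have h1 : 0 < √(√(sD2 ρ b)) := Real.sqrt_pos.2 (Real.sqrt_pos.2 hb)
  have h2 : √(√(sD2 ρ y)) / √(√(sD2 ρ b)) ≤ m := by
    rw [div_le_iff₀ h1]
    have h3 : √(√(m ^ (4 : ℕ) * sD2 ρ b)) = m * √(√(sD2 ρ b)) := by
      have e1 : m ^ (4 : ℕ) = (m ^ (2 : ℕ)) ^ (2 : ℕ) := by ring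
      rw [Real.sqrt_mul (by (clear * -; positivity)), e1, Real.sqrt_sq (by (clear * -; positivity)),
        Real.sqrt_mul (by (clear * -; positivity)), Real.sqrt_sq hm0]
    rw [← h3]
    exact Real.sqrt_le_sqrt (Real.sqrt_le_sqrt hm)
  have h4 : 0 ≤ √(√(sD2 ρ y)) / √(√(sD2 ρ b)) := by (clear * - hb; positivity)
  have h5 : (0 : ℝ) ≤ max 1 (Real.exp (y - b)) := le_trans zero_le_one (le_max_left _ _)
  have h6 : 0 ≤ M := h5.trans hM
  exact mul_le_mul (mul_le_mul hM h2 h4 h6) hK (Real.exp_pos _).le (by (clear * - h6 hm0; positivity))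

/-- the positive side: existence of `H` -/
theorem g3_pos {ρ η P : ℝ} (hρ : 0 < ρ) (h0 : 0 ≤ η) (h1 : η ≤ 2 * Real.pi / 3) (hP : 11 / 25 < P)
    (H : ∀ y, DD ρ y → 0 ≤ y → 0 ≤ sE ρ y → sE ρ y ≤ η → P ≤ ph ρ y) :
    ∃ y, 0 ≤ y ∧ DD ρ y ∧ sE ρ y = η ∧ P ≤ ph ρ y := by
  obtain ⟨b, hb0, hb, hb1⟩ := bdry_pos hρ
  have hs0 : 0 ≤ sE ρ b := by
    have := (sE_strictMonoOn (dom_zero hρ) hb.dom (by linarith only [])).monotoneOn
      (Set.left_mem_Icc.2 hb0) (Set.right_mem_Icc.2 hb0) hb0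
    rwa [sE_zero hρ] at this
  have hη : η ≤ sE ρ b := by
    by_contra hlt
    push Not at hlt
    rcases hb1 with h2 | h2
    · have := H b hb hb0 hs0 hlt.le
      linarith only [hP, h2, this]
    · linarith only [h1, hlt, h2]
  obtain ⟨y, hy, e, hy2⟩ := DD_exists hb (Or.inr ⟨h0, hη⟩)
  have hy0 : 0 ≤ y := by
    rcases hy2 with ⟨h3, h4⟩ | ⟨h3, h4⟩
    · exact hb0.trans h3
    · exact h3
  exact ⟨y, hy0, hy, e, H y hy hy0 (by rw [e]; exact h0) e.le⟩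

/-- the negative side: existence of `H` -/
theorem g3_neg {ρ η P : ℝ} (hρ : 0 < ρ) (h0 : η ≤ 0) (h1 : -(2 * Real.pi / 3) ≤ η)
    (hP : 11 / 25 < P) (H : ∀ y, DD ρ y → y ≤ 0 → sE ρ y ≤ 0 → η ≤ sE ρ y → P ≤ ph ρ y)
    (H7 : DD ρ (-(7 / 10)) → sE ρ (-(7 / 10)) ≤ 0 → sE ρ (-(7 / 10)) ≤ η) :
    ∃ y, y ≤ 0 ∧ DD ρ y ∧ sE ρ y = η ∧ P ≤ ph ρ y := by
  obtain ⟨b, hb0, hb, hb1⟩ := bdry_neg hρ
  have hs0 : sE ρ b ≤ 0 := by
    have := (sE_strictMonoOn hb.dom (dom_zero hρ) (by linarith only [hb.y0])).monotoneOn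
      (Set.left_mem_Icc.2 hb0) (Set.right_mem_Icc.2 hb0) hb0
    rwa [sE_zero hρ] at this
  have hη : sE ρ b ≤ η := by
    by_contra hlt
    push Not at hlt
    rcases hb1 with (h2 | h2) | h2
    · subst h2
      have := H7 hb hs0
      linarith only [hlt, this]
    · have := H b hb hb0 hs0 hlt.le
      linarith only [hP, h2, this]
    · linarith only [h1, hlt, h2]
  obtain ⟨y, hy, e, hy2⟩ := DD_exists hb (Or.inl ⟨hη, h0⟩)
  have hy0 : y ≤ 0 := by
    rcases hy2 with ⟨h3, h4⟩ | ⟨h3, h4⟩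
    · exact h4
    · exact h4.trans hb0
  exact ⟨y, hy0, hy, e, H y hy hy0 (by rw [e]; exact h0) e.ge⟩

/-- the boundary angle, from the trial `c = 1/2` -/
theorem g3_back {ρ b : ℝ} (h : DD ρ b) (hb : ph ρ b = 11 / 25) :
    Real.pi / 3 + 63 / 1000 ≤ |sE ρ b - ρ / 2| := by
  by_contra hlt
  push Not at hlt
  have hπ := Real.pi_gt_three
  have h1 : (444 / 1000 : ℝ) ≤ Real.cos (sE ρ b - ρ / 2) :=
    g3_cos hlt.le (by linarith only [hπ]) g3_cosA
  have h2 := g3_half h (by norm_num) (by linarith only [hlt, hπ]) h1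
  rw [hb] at h2
  have h3 : (-(3 / 25) : ℝ) < Real.log (2 * (444 / 1000)) := by
    rw [Real.lt_log_iff_exp_lt (by norm_num), Real.exp_neg]
    have h4 := g3_exp_ge (x := 3 / 25) (by norm_num)
    have h5 : (1127 / 1000 : ℝ) ≤ Real.exp (3 / 25) := le_trans (by norm_num) h4
    rw [inv_lt_comm₀ (Real.exp_pos _) (by norm_num)]
    refine lt_of_lt_of_le ?_ h5
    norm_num
  linarith only [h2, h3]

theorem g3_P : (5508 / 10000 : ℝ) ≤ (1 + Real.log (2 * (5535 / 10000))) / 2 := by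
  have h1 : (1016 / 10000 : ℝ) ≤ Real.log (2 * (5535 / 10000)) := by
    refine g3_log (by norm_num) ((g3_exp_le (by norm_num) (by norm_num)).trans ?_)
    norm_num
  linarith only [h1]

/-- forward: `ph ≥ 5508/10000` -/
theorem g3_fwd {ρ y : ℝ} (h : DD ρ y) (hy : |sE ρ y - ρ / 2| ≤ Real.pi / 3 - 63 / 1000) :
    5508 / 10000 ≤ ph ρ y := by
  have hπ := Real.pi_gt_three
  exact g3_P.trans (g3_half h (by norm_num) (by linarith only [hy, hπ]) (g3_cos hy (by linarith only [hπ]) g3_cosB))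

theorem g3_K1 : Real.exp (-(5528 / 1000)) ≤ 398 / 100000 := by
  rw [Real.exp_neg]
  have h := Real.sum_le_exp_of_nonneg (x := 5528 / 1000) (by norm_num) 20
  have h2 : (2515 / 10 : ℝ) ≤ Real.exp (5528 / 1000) := by
    refine le_trans ?_ h
    simp only [Finset.sum_range_succ, Finset.sum_range_zero, Nat.factorial]
    norm_num
  rw [inv_le_comm₀ (Real.exp_pos _) (by norm_num)]
  refine le_trans ?_ h2
  norm_num

theorem g3_K1' {d : ℝ} (hd : 1108 / 10000 ≤ d) : Real.exp (-(499 / 10) * d) ≤ 398 / 100000 :=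
  g3_K (c := 5528 / 1000) (le_trans (by norm_num) hd) g3_K1

/-- `(1-t) e^t ≤ 1 - t²/2 - t³/3` -/
theorem g3_W {t : ℝ} (h0 : 0 ≤ t) (h1 : t ≤ 7 / 10) :
    (1 - t) * Real.exp t ≤ 1 - t ^ (2 : ℕ) / 2 - t ^ (3 : ℕ) / 3 := by
  have h := g3_exp_le h0 (by linarith only [h1])
  have h2 : (1 - t) * Real.exp t ≤ (1 - t) * (1 + t + t ^ (2 : ℕ) / 2 + t ^ (3 : ℕ) / 6 + t ^ (4 : ℕ) / 24 +
      t ^ (5 : ℕ) / 120 + t ^ (6 : ℕ) / 720 * (7 / 6)) := mul_le_mul_of_nonneg_left h (by linarith only [h1])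
  refine h2.trans ?_
  have h3 : 0 ≤ t ^ (4 : ℕ) := by (clear * -; positivity)
  have h4 : 0 ≤ t ^ (5 : ℕ) := by (clear * - h0; positivity)
  have h5 : 0 ≤ t ^ (6 : ℕ) := by (clear * -; positivity)
  have h7 : 0 ≤ t ^ (7 : ℕ) := by (clear * - h0; positivity)
  have h6 : t ^ (6 : ℕ) ≤ t ^ (4 : ℕ) := by linarith only [pow_le_pow_of_le_one h0 (by linarith : t ≤ 1) (by norm_num : 4 ≤ 6)]
  nlinarith only [h4, h5]

/-- lower bound -/
theorem g3_W2 {t : ℝ} (h0 : 0 ≤ t) (h1 : t ≤ 7 / 10) :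
    1 - t ^ (2 : ℕ) / 2 - t ^ (3 : ℕ) / 2 ≤ (1 - t) * Real.exp t := by
  have h := Real.quadratic_le_exp_of_nonneg h0
  have h2 := mul_le_mul_of_nonneg_left h (by linarith : (0 : ℝ) ≤ 1 - t)
  refine le_trans (le_of_eq ?_) h2
  ring

/-- the curve `ph = φ` on the negative side -/
theorem g3_curve {ρ b : ℝ} (h : DD ρ b) :
    sx ρ b * (1 + b) = ph ρ b * ρ ∧ sx ρ b ^ (2 : ℕ) + b ^ (2 : ℕ) = (ρ * Real.exp (-b)) ^ (2 : ℕ) := by
  have hρ := h.dom.1
  refine ⟨?_, sx_sq_add h.dom⟩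
  unfold ph
  field_simp

/-- `ρ ≤ 3/5` and `D(b)² ≥ 1/4` -/
theorem g3_neg_facts {ρ b : ℝ} (h : DD ρ b) (hb : b ≤ 0) (hp : ph ρ b = 11 / 25) :
    ρ ≤ 3 / 5 ∧ 1 / 4 ≤ sD2 ρ b := by
  obtain ⟨e1, e2⟩ := g3_curve h
  rw [hp] at e1
  have hρ := h.dom.1
  have hb7 := h.y0
  obtain ⟨t, ht⟩ : ∃ t, t = -b := ⟨_, rfl⟩
  have hbt : b = -t := by linarith only [ht]
  subst hbt
  rw [neg_neg] at e2
  have t0 : 0 ≤ t := by linarith only [hb]
  have t1 : t ≤ 7 / 10 := by linarith only [hb7]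
  have w1 := g3_W t0 t1
  have w2 := g3_W2 t0 t1
  set x := sx ρ (-t) with hx
  have hx0 : 0 ≤ x := sx_nonneg _ _
  set W := (1 - t) * Real.exp t with hW
  have e3 : ρ ^ (2 : ℕ) * (W ^ (2 : ℕ) - (11 / 25) ^ (2 : ℕ)) = t ^ (2 : ℕ) * (1 - t) ^ (2 : ℕ) := by
    have : ρ ^ (2 : ℕ) * W ^ (2 : ℕ) = (1 - t) ^ (2 : ℕ) * (ρ * Real.exp t) ^ (2 : ℕ) := by rw [hW]; ring
    rw [mul_sub, this, ← e2]
    linear_combination (x * (1 + -t) + 11 / 25 * ρ) * e1
  have e4 : x ^ (2 : ℕ) * (W ^ (2 : ℕ) - (11 / 25) ^ (2 : ℕ)) = (11 / 25) ^ (2 : ℕ) * t ^ (2 : ℕ) := by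
    rw [hW]
    linear_combination (Real.exp t ^ (2 : ℕ) * (x * (1 + -t) + 11 / 25 * ρ)) * e1 - (11 / 25) ^ (2 : ℕ) * e2
  have t2 : t ^ (2 : ℕ) ≤ 49 / 100 := by nlinarith only [t0, t1]
  have t3 : t ^ (3 : ℕ) ≤ 343 / 1000 := by nlinarith only [t0, t1, e2]
  have hV : 5835 / 10000 ≤ W := by linarith only [w2, t2, t3]
  refine ⟨?_, ?_⟩
  · by_contra hlt
    push Not at hlt
    have a1 : (5835 / 10000 : ℝ) ^ (2 : ℕ) ≤ W ^ (2 : ℕ) := pow_le_pow_left₀ (by norm_num) hV 2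
    have a2 : (3 / 5 : ℝ) ^ (2 : ℕ) < ρ ^ (2 : ℕ) := pow_lt_pow_left₀ hlt (by norm_num) (by norm_num)
    have a3 : (3 / 5 : ℝ) ^ (2 : ℕ) * (W ^ (2 : ℕ) - (11 / 25) ^ (2 : ℕ)) < ρ ^ (2 : ℕ) * (W ^ (2 : ℕ) - (11 / 25) ^ (2 : ℕ)) :=
      mul_lt_mul_of_pos_right a2 (by norm_num at a1 ⊢; linarith only [a1])
    rw [e3] at a3
    have a4 : t ^ (2 : ℕ) * (1 - t) ^ (2 : ℕ) = (t * (1 - t)) ^ (2 : ℕ) := by ring
    have a5 : 0 ≤ t * (1 - t) := mul_nonneg t0 (by linarith only [t1])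
    rw [a4] at a3
    rcases le_total t (13 / 20) with h5 | h5
    · have b1 : 65 / 100 ≤ W := by
        refine le_trans ?_ w2
        have : t ^ (2 : ℕ) ≤ (13 / 20) ^ (2 : ℕ) := pow_le_pow_left₀ t0 h5 2
        have : t ^ (3 : ℕ) ≤ (13 / 20) ^ (3 : ℕ) := pow_le_pow_left₀ t0 h5 3
        norm_num at *
        linarith
      have b2 : (65 / 100 : ℝ) ^ (2 : ℕ) ≤ W ^ (2 : ℕ) := pow_le_pow_left₀ (by norm_num) b1 2
      have b3 : t * (1 - t) ≤ 1 / 4 := by linarith only [sq_nonneg (t - 1 / 2)]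
      have b4 : (t * (1 - t)) ^ (2 : ℕ) ≤ (1 / 4) ^ (2 : ℕ) := pow_le_pow_left₀ a5 b3 2
      norm_num at a3 b2 b4
      linarith only [a3, b2, b4]
    · have b3 : t * (1 - t) ≤ 2275 / 10000 := by nlinarith only [h5]
      have b4 : (t * (1 - t)) ^ (2 : ℕ) ≤ (2275 / 10000) ^ (2 : ℕ) := pow_le_pow_left₀ a5 b3 2
      norm_num at a3 a1 b4
      linarith only [a3, a1, b4]
  · unfold sD2
    rw [← hx]
    rcases le_total t (1 / 2) with h5 | h5
    · nlinarith only [h5]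
    · have b1 : W ≤ 83334 / 100000 := by
        refine w1.trans ?_
        have : (1 / 2 : ℝ) ^ (2 : ℕ) ≤ t ^ (2 : ℕ) := pow_le_pow_left₀ (by norm_num) h5 2
        have : (1 / 2 : ℝ) ^ (3 : ℕ) ≤ t ^ (3 : ℕ) := pow_le_pow_left₀ (by norm_num) h5 3
        norm_num at *
        linarith
      have b2 : W ^ (2 : ℕ) ≤ (83334 / 100000) ^ (2 : ℕ) := pow_le_pow_left₀ (by linarith only [hV]) b1 2
      have b3 : x ^ (2 : ℕ) * (W ^ (2 : ℕ) - (11 / 25) ^ (2 : ℕ)) ≤ x ^ (2 : ℕ) * (501 / 1000) :=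
        mul_le_mul_of_nonneg_left (by norm_num at b2 ⊢; linarith only [b2]) (sq_nonneg x)
      rw [e4] at b3
      nlinarith only [b3, sq_nonneg (t - 18 / 25)]


theorem g3_yle {ρ y y0 : ℝ} (h : DD ρ y) (h0 : 0 ≤ y0)
    (hr : ρ < y0 * (1 + y0 + y0 ^ (2 : ℕ) / 2 + y0 ^ (3 : ℕ) / 6)) : y ≤ y0 := by
  by_contra hlt
  push Not at hlt
  have h1 := g3_exp_ge h0
  have h2 : Real.exp y0 ≤ Real.exp y := Real.exp_le_exp.2 hlt.le
  have h3 := (dom_iff.1 h.dom.2).2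
  have h4 : 1 + y0 + y0 ^ (2 : ℕ) / 2 + y0 ^ (3 : ℕ) / 6 ≤ Real.exp y := by
    have : 0 ≤ y0 ^ (4 : ℕ) / 24 + y0 ^ (5 : ℕ) / 120 + y0 ^ (6 : ℕ) / 720 := by (clear * - h0; positivity)
    linarith only [h1, h2, this]
  have h5 : y0 * (1 + y0 + y0 ^ (2 : ℕ) / 2 + y0 ^ (3 : ℕ) / 6) ≤ y * Real.exp y :=
    mul_le_mul hlt.le h4 (by (clear * - h0; positivity)) (h0.trans hlt.le)
  linarith only [hr, h3, h5]

theorem g3_D2le {ρ y y0 : ℝ} (h : DD ρ y) (hy : 0 ≤ y) (h0 : y ≤ y0) :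
    sD2 ρ y ≤ (1 + y0) ^ (2 : ℕ) + ρ ^ (2 : ℕ) := by
  unfold sD2
  have h1 := sx_sq h.dom
  have h2 : Real.exp (-y) ≤ 1 := Real.exp_le_one_iff.2 (by linarith only [hy])
  have h3 : (ρ * Real.exp (-y)) ^ (2 : ℕ) ≤ ρ ^ (2 : ℕ) := by
    refine pow_le_pow_left₀ (mul_nonneg h.dom.1.le (Real.exp_pos _).le) ?_ 2
    nlinarith only [h2, h.dom.1]
  have h4 : (1 + y) ^ (2 : ℕ) ≤ (1 + y0) ^ (2 : ℕ) := pow_le_pow_left₀ (by linarith only [hy]) (by linarith only [h0]) 2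
  nlinarith only [h1, h3, h4]

theorem g3_sE_nonpos {ρ b : ℝ} (h : DD ρ b) (hb : b ≤ 0) : sE ρ b ≤ 0 := by
  have := (sE_strictMonoOn h.dom (dom_zero h.dom.1) (by linarith only [h.y0])).monotoneOn
    (Set.left_mem_Icc.2 hb) (Set.right_mem_Icc.2 hb) hb
  rwa [sE_zero h.dom.1] at this

theorem g3_sE_nonneg {ρ b : ℝ} (h : DD ρ b) (hb : 0 ≤ b) : 0 ≤ sE ρ b := by
  have := (sE_strictMonoOn (dom_zero h.dom.1) h.dom (by linarith only [])).monotoneOn
    (Set.left_mem_Icc.2 hb) (Set.right_mem_Icc.2 hb) hb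
  rwa [sE_zero h.dom.1] at this

/-- `exp (1 + u) ≤ M` -/
theorem g3_M {d u M : ℝ} (hd : d ≤ 1 + u) (hu0 : 0 ≤ u) (hu1 : u ≤ 1) (h1 : 1 ≤ M)
    (hM : 27182818286 / 10000000000 * (1 + u + u ^ (2 : ℕ) / 2 + u ^ (3 : ℕ) / 6 + u ^ (4 : ℕ) / 24 + u ^ (5 : ℕ) / 120 +
      u ^ (6 : ℕ) / 720 * (7 / 6)) ≤ M) : max 1 (Real.exp d) ≤ M := by
  refine max_le h1 ((Real.exp_le_exp.2 hd).trans ?_)
  rw [Real.exp_add]
  refine le_trans ?_ hM
  have h2 := Real.exp_one_lt_d9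
  exact mul_le_mul (by norm_num at h2 ⊢; linarith only [h2]) (g3_exp_le hu0 hu1) (Real.exp_pos _).le
    (by norm_num)

/-- `b ≤ 0`, `ph = 11/25` -/
theorem g3_case1 {ρ b η : ℝ} (h : DD ρ b) (hb : b ≤ 0) (hp : ph ρ b = 11 / 25) (hη0 : 0 ≤ η)
    (hη : η + |sE ρ b| ≤ 2 * Real.pi / 3) : ∃ y, DD ρ y ∧ sE ρ y = η ∧ GapC ρ y b ≤ 1 / 40 := by
  have hρ := h.dom.1
  have hπ := Real.pi_gt_three
  obtain ⟨r1, r2⟩ := g3_neg_facts h hb hp
  have hs := g3_sE_nonpos h hb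
  have h1 := g3_back h hp
  rw [abs_of_nonpos (by linarith only [hρ, hs])] at h1
  rw [abs_of_nonpos hs] at hη
  obtain ⟨y, hy0, hy, e, hP⟩ := g3_pos (P := 5508 / 10000) hρ hη0 (by linarith only [hη, hs]) (by norm_num)
    (fun y hy hy0 h2 h3 => g3_fwd hy (abs_le.2 ⟨by linarith only [hπ, r1, h2], by linarith only [hη, h1, h3]⟩))
  refine ⟨y, hy, e, ?_⟩
  have hy1 : y ≤ 41 / 100 := g3_yle hy (by norm_num) (lt_of_le_of_lt r1 (by norm_num))
  have hD := g3_D2le hy hy0 hy1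
  have hρ2 : ρ ^ (2 : ℕ) ≤ (3 / 5) ^ (2 : ℕ) := pow_le_pow_left₀ hρ.le r1 2
  refine g3_fin (M := 304 / 100) (m := 176 / 100) (K := 398 / 100000)
    (g3_M (u := 11 / 100) (by linarith only [hy1, h.y0]) (by norm_num) (by norm_num) (by norm_num)
      (by norm_num)) (by linarith only [r2]) (by norm_num) ?_ (g3_K1' (by rw [hp]; linarith only [hP])) (by norm_num)
  norm_num at hρ2 hD ⊢
  linarith only [r2, hρ2, hD]

/-- `b ≥ 0`, `ph = 11/25` -/
theorem g3_case2 {ρ b η : ℝ} (h : DD ρ b) (hb : 0 ≤ b) (hp : ph ρ b = 11 / 25) (hη0 : η ≤ 0)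
    (hη : -η + |sE ρ b| ≤ 2 * Real.pi / 3) :
    ∃ y, DD ρ y ∧ sE ρ y = η ∧ GapC ρ y b ≤ 1 / 40 := by
  have hρ := h.dom.1
  have hπ := Real.pi_gt_three
  have hπ2 := Real.pi_lt_d6
  have r1 : ρ ≤ 29 / 20 := bd_rho' ⟨h, Or.inr hp⟩ (Or.inl hb)
  have hs := g3_sE_nonneg h hb
  have h1 := g3_back h hp
  rw [abs_of_nonneg hs] at hη
  have h2 : Real.pi / 3 + 63 / 1000 ≤ sE ρ b - ρ / 2 := by
    rcases abs_cases (sE ρ b - ρ / 2) with ⟨h3, h4⟩ | ⟨h3, h4⟩
    · linarith only [h1, h3]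
    · rw [h3] at h1
      linarith only [hπ, r1, hs, h1]
  have H7 : DD ρ (-(7 / 10)) → sE ρ (-(7 / 10)) ≤ 0 → sE ρ (-(7 / 10)) ≤ η := by
    intro g1 g2
    have g3 := bd_abs_ge (ρ := ρ) (b := -(7 / 10)) ⟨g1, Or.inl rfl⟩
    rw [abs_of_nonpos g2] at g3
    have g4 := g1.dom.2
    have g5 : (3 / 10 : ℝ) ≤ Real.exp (-(7 / 10)) := by
      have := Real.add_one_le_exp (-(7 / 10) : ℝ)
      linarith only [this]
    rw [abs_of_nonpos (by norm_num)] at g4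
    norm_num at g4 g5
    linarith only [hη, hπ2, h2, g3, g4, g5]
  obtain ⟨y, hy0, hy, e, hP⟩ := g3_neg (P := 5508 / 10000) hρ hη0 (by linarith only [hη, hρ, hπ, h2]) (by norm_num)
    (fun y hy hy0 h2 h3 => g3_fwd hy (abs_le.2 ⟨by linarith, by linarith only [hρ, hπ, h2]⟩)) H7
  refine ⟨y, hy, e, ?_⟩
  have hM : max 1 (Real.exp (y - b)) ≤ 1 := max_le le_rfl (Real.exp_le_one_iff.2 (by linarith only [hb, hy0]))
  have hD1 : 1 ≤ sD2 ρ b := by
    unfold sD2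
    nlinarith only [hb]
  have hD2 : sD2 ρ y ≤ 954 / 100 := by
    unfold sD2
    have g1 := sx_sq hy.dom
    have g2 : Real.exp (-y) ≤ 2014 / 1000 := by
      have g3 : Real.exp (-y) ≤ Real.exp (7 / 10) := Real.exp_le_exp.2 (by linarith only [hy.y0])
      refine g3.trans ((g3_exp_le (by norm_num) (by norm_num)).trans ?_)
      norm_num
    have g3 : ρ * Real.exp (-y) ≤ 29 / 20 * (2014 / 1000) :=
      mul_le_mul r1 g2 (Real.exp_pos _).le (by norm_num)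
    have g4 : (ρ * Real.exp (-y)) ^ (2 : ℕ) ≤ (29 / 20 * (2014 / 1000)) ^ (2 : ℕ) :=
      pow_le_pow_left₀ (mul_nonneg hρ.le (Real.exp_pos _).le) g3 2
    have g5 : (1 + y) ^ (2 : ℕ) ≤ 1 := by nlinarith only [hy0, hy.y0]
    norm_num at g4
    nlinarith only [g1, g5, g4]
  refine g3_fin (M := 1) (m := 176 / 100) (K := 398 / 100000) hM (by linarith only [hD1]) (by norm_num) ?_
    (g3_K1' (by rw [hp]; linarith only [hP])) (by norm_num)
  norm_num
  linarith only [hD1, hD2]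

/-- `b = -7/10` -/
theorem g3_seven {ρ : ℝ} (h : DD ρ (-(7 / 10))) :
    257 / 1000 ≤ ρ ^ (2 : ℕ) ∧ 507 / 1000 ≤ ρ ∧ 22 / 15 * ρ ≤ sx ρ (-(7 / 10)) ∧
    ph ρ (-(7 / 10)) ^ (2 : ℕ) * ρ ^ (2 : ℕ) ≤ 9 / 100 * (40554 / 10000 * ρ ^ (2 : ℕ) - 49 / 100) ∧
    40549 / 10000 * ρ ^ (2 : ℕ) - 49 / 100 ≤ sx ρ (-(7 / 10)) ^ (2 : ℕ) ∧
    3476 / 10000 ≤ ρ * (-sP ρ (-(7 / 10))) := by
  have hρ := h.dom.1
  obtain ⟨e1, e2⟩ := g3_curve h
  have hφ := h.phi
  rw [neg_neg] at e2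
  have E1 : Real.exp (7 / 10) ≤ 20138 / 10000 := by
    refine (g3_exp_le (by norm_num) (by norm_num)).trans ?_
    norm_num
  have E0 : 20137 / 10000 ≤ Real.exp (7 / 10) := by
    refine le_trans ?_ (g3_exp_ge (by norm_num))
    norm_num
  have E2 : (ρ * Real.exp (7 / 10)) ^ (2 : ℕ) ≤ 40554 / 10000 * ρ ^ (2 : ℕ) := by
    have : Real.exp (7 / 10) ^ (2 : ℕ) ≤ (20138 / 10000) ^ (2 : ℕ) := pow_le_pow_left₀ (Real.exp_pos _).le E1 2
    rw [mul_pow]
    norm_num at this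
    nlinarith only [this]
  have E3 : 40549 / 10000 * ρ ^ (2 : ℕ) ≤ (ρ * Real.exp (7 / 10)) ^ (2 : ℕ) := by
    have : (20137 / 10000 : ℝ) ^ (2 : ℕ) ≤ Real.exp (7 / 10) ^ (2 : ℕ) := pow_le_pow_left₀ (by norm_num) E0 2
    rw [mul_pow]
    norm_num at this
    nlinarith only [this]
  have hx : 22 / 15 * ρ ≤ sx ρ (-(7 / 10)) := by
    have : 11 / 25 * ρ ≤ ph ρ (-(7 / 10)) * ρ := mul_le_mul_of_nonneg_right hφ hρ.le
    linarith only [e1, this]
  have hx2 : (22 / 15 * ρ) ^ (2 : ℕ) ≤ sx ρ (-(7 / 10)) ^ (2 : ℕ) := pow_le_pow_left₀ (by positivity) hx 2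
  have hr : 257 / 1000 ≤ ρ ^ (2 : ℕ) := by nlinarith only [hρ, e2, E2, hx]
  refine ⟨hr, ?_, hx, ?_, ?_, ?_⟩
  · by_contra hlt
    push Not at hlt
    nlinarith only [hρ, e2, E2, hx2, hlt]
  · have : ph ρ (-(7 / 10)) ^ (2 : ℕ) * ρ ^ (2 : ℕ) = 9 / 100 * sx ρ (-(7 / 10)) ^ (2 : ℕ) := by
      rw [← mul_pow, ← e1]
      ring
    rw [this]
    linarith only [e2, E2]
  · linarith only [e2, E3]
  · have hs := h.dom.sin
    have hP0 : 0 ≤ -sP ρ (-(7 / 10)) := by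
      have := sP_nonpos hρ (by norm_num : (-(7 / 10) : ℝ) ≤ 0)
      linarith only [this]
    have h1 := Real.sin_le hP0
    rw [Real.sin_neg, hs] at h1
    have h2 : 3476 / 10000 ≤ 7 / 10 * Real.exp (-(7 / 10)) := by
      rw [Real.exp_neg, ← div_eq_mul_inv, le_div_iff₀ (Real.exp_pos _)]
      linarith only [E1]
    have h3 : ρ * (-(-(7 / 10) * Real.exp (-(7 / 10)) / ρ)) = 7 / 10 * Real.exp (-(7 / 10)) := by
      field_simp
    have h4 := mul_le_mul_of_nonneg_left h1 hρ.le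
    rw [h3] at h4
    linarith only [h2, h4]


/-- the numbers of the case `b = -7/10`, trial `c = 1/2` -/
theorem g3_case7 {ρ η a C φ c m y0 u M K : ℝ} (h : DD ρ (-(7 / 10))) (hη0 : 0 ≤ η)
    (hη1 : η ≤ 2 * Real.pi / 3) (ha1 : η - ρ / 2 ≤ a) (ha2 : ρ / 2 ≤ a) (ha : a ≤ 3 / 2)
    (hC : 0 < C) (hCa : C ≤ Real.cos a) (hφ : ph ρ (-(7 / 10)) ≤ φ)
    (hc : Real.exp c ≤ 2 * C) (hΔ : 11 / 25 < (1 + c) / 2)
    (hK : Real.exp (-(499 / 10) * ((1 + c) / 2 - φ)) ≤ K)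
    (hy : ∀ y, 0 ≤ y → DD ρ y → y ≤ y0) (hu0 : 0 ≤ u) (hu1 : u ≤ 1) (hyu : y0 + 7 / 10 ≤ 1 + u)
    (hM1 : 1 ≤ M)
    (hM : 27182818286 / 10000000000 * (1 + u + u ^ (2 : ℕ) / 2 + u ^ (3 : ℕ) / 6 + u ^ (4 : ℕ) / 24 + u ^ (5 : ℕ) / 120 +
      u ^ (6 : ℕ) / 720 * (7 / 6)) ≤ M) (hm0 : 0 ≤ m)
    (hm : (1 + y0) ^ (2 : ℕ) + ρ ^ (2 : ℕ) ≤ m ^ (4 : ℕ) * (9 / 100 + sx ρ (-(7 / 10)) ^ (2 : ℕ)))
    (hf : M * m * K ≤ 1 / 40) :
    ∃ y, DD ρ y ∧ sE ρ y = η ∧ GapC ρ y (-(7 / 10)) ≤ 1 / 40 := by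
  have hρ := h.dom.1
  have hπ := Real.pi_gt_three
  have hlog : c ≤ Real.log (2 * C) := g3_log (by linarith only [hC]) hc
  obtain ⟨y, hy0, hyD, e, hP⟩ := g3_pos (P := (1 + c) / 2) hρ hη0 hη1 hΔ
    (fun y hy hy0 h2 h3 => by
      have h4 : |sE ρ y - ρ / 2| ≤ a := abs_le.2 ⟨by linarith only [ha2, h2], by linarith only [ha1, h3]⟩
      refine le_trans ?_ (g3_half hy hC (by linarith only [ha, hπ, h4]) (g3_cos h4 (by linarith only [ha, hπ]) hCa))
      linarith only [hlog])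
  refine ⟨y, hyD, e, ?_⟩
  have hy1 := hy y hy0 hyD
  have hD := g3_D2le hyD hy0 hy1
  have hD1 : sD2 ρ (-(7 / 10)) = 9 / 100 + sx ρ (-(7 / 10)) ^ (2 : ℕ) := by
    unfold sD2
    norm_num
  refine g3_fin (M := M) (m := m) (K := K) (g3_M (u := u) (by linarith only [hyu, hy1]) hu0 hu1 hM1 hM)
    (sD2_pos (by norm_num)) hm0 (by rw [hD1]; linarith only [hm, hD]) ?_ hf
  refine (Real.exp_le_exp.2 ?_).trans hK
  linarith only [hφ, hP]

theorem g3_K2 : Real.exp (-(5301 / 1000)) ≤ 4990 / 1000000 := by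
  rw [Real.exp_neg]
  have h := Real.sum_le_exp_of_nonneg (x := 5301 / 1000) (by norm_num) 20
  have h2 : (2005 / 10 : ℝ) ≤ Real.exp (5301 / 1000) := by
    refine le_trans ?_ h
    simp only [Finset.sum_range_succ, Finset.sum_range_zero, Nat.factorial]
    norm_num
  rw [inv_le_comm₀ (Real.exp_pos _) (by norm_num)]
  refine le_trans ?_ h2
  norm_num

theorem g3_case3 {ρ η : ℝ} (h : DD ρ (-(7 / 10))) (hη0 : 0 ≤ η)
    (hη : η + |sE ρ (-(7 / 10))| ≤ 2 * Real.pi / 3) :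
    ∃ y, DD ρ y ∧ sE ρ y = η ∧ GapC ρ y (-(7 / 10)) ≤ 1 / 40 := by
  have hρ := h.dom.1
  have hπ := Real.pi_gt_three
  have hπ2 := Real.pi_lt_d6
  obtain ⟨s1, s2, s3, s4, s5, s6⟩ := g3_seven h
  have hs := g3_sE_nonpos h (by norm_num)
  have hab := bd_abs_ge (ρ := ρ) (b := -(7 / 10)) ⟨h, Or.inl rfl⟩
  have hφ0 := h.phi
  have hsx := sx_nonneg ρ (-(7 / 10))
  have hEq : sE ρ (-(7 / 10)) = sP ρ (-(7 / 10)) + ρ - sx ρ (-(7 / 10)) := rfl
  rw [abs_of_nonpos hs] at hη hab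
  have hη1 : η ≤ 2 * Real.pi / 3 := by linarith only [hη, hab]
  have hx2 : (22 / 15 * ρ) ^ (2 : ℕ) ≤ sx ρ (-(7 / 10)) ^ (2 : ℕ) := pow_le_pow_left₀ (by positivity) s3 2
  set φ := ph ρ (-(7 / 10)) with hφ
  set x := sx ρ (-(7 / 10)) with hx
  have hle : ∀ {q : ℝ}, 0 ≤ q → φ ^ (2 : ℕ) * ρ ^ (2 : ℕ) ≤ q ^ (2 : ℕ) * ρ ^ (2 : ℕ) → φ ≤ q := by
    intro q hq h1
    have h2 : (φ * ρ) ^ (2 : ℕ) ≤ (q * ρ) ^ (2 : ℕ) := by rw [mul_pow, mul_pow]; exact h1
    have h3 := abs_le_of_sq_le_sq' h2 (by (clear * - hq hρ; positivity))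
    exact le_of_mul_le_mul_right h3.2 hρ
  rcases le_total ρ (33 / 50) with h1 | h1
  · have hρ2 : ρ ^ (2 : ℕ) ≤ (33 / 50) ^ (2 : ℕ) := pow_le_pow_left₀ hρ.le h1 2
    have p1 : φ ≤ 514 / 1000 := hle (by norm_num) (by norm_num at hρ2 ⊢; linarith only [s4, hρ2])
    refine g3_case7 (a := 881 / 1000) (C := 636 / 1000) (φ := 514 / 1000) (c := 2405 / 10000)
      (m := 141 / 100) (y0 := 43 / 100) (u := 13 / 100) (M := 31 / 10) (K := 4990 / 1000000)
      h hη0 hη1 (by linarith only [hη, hπ2, s2, hab]) (by linarith only [h1]) (by norm_num) (by norm_num)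
      (le_trans (by norm_num) (SokamF1G.cos_ge6 (by norm_num))) p1
      ((g3_exp_le (by norm_num) (by norm_num)).trans (by norm_num)) (by norm_num)
      (g3_K (c := 5301 / 1000) (by norm_num) g3_K2)
      (fun y _ hy => g3_yle hy (by norm_num) (lt_of_le_of_lt h1 (by norm_num)))
      (by norm_num) (by norm_num) (by norm_num) (by norm_num) (by norm_num) (by norm_num) ?_
      (by norm_num)
    norm_num at hρ2 hx2 ⊢
    nlinarith only [s2, hx2]
  rcases le_total ρ (4 / 5) with h2 | h2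
  · have hρ2 : ρ ^ (2 : ℕ) ≤ (4 / 5) ^ (2 : ℕ) := pow_le_pow_left₀ hρ.le h2 2
    have hρ3 : (33 / 50) ^ (2 : ℕ) ≤ ρ ^ (2 : ℕ) := pow_le_pow_left₀ (by norm_num) h1 2
    have p1 : φ ≤ 5443 / 10000 := hle (by norm_num) (by norm_num at hρ2 ⊢; linarith only [s4, hρ2])
    refine g3_case7 (a := 8044 / 10000) (C := 693 / 1000) (φ := 5443 / 10000) (c := 3264 / 10000)
      (m := 13 / 10) (y0 := 1 / 2) (u := 2 / 10) (M := 333 / 100) (K := 4990 / 1000000)
      h hη0 hη1 (by linarith only [hη, hπ2, hab, h1]) (by linarith only [h2]) (by norm_num) (by norm_num)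
      (le_trans (by norm_num) (SokamF1G.cos_ge6 (by norm_num))) p1
      ((g3_exp_le (by norm_num) (by norm_num)).trans (by norm_num)) (by norm_num)
      (g3_K (c := 5301 / 1000) (by norm_num) g3_K2)
      (fun y _ hy => g3_yle hy (by norm_num) (lt_of_le_of_lt h2 (by norm_num)))
      (by norm_num) (by norm_num) (by norm_num) (by norm_num) (by norm_num) (by norm_num) ?_
      (by norm_num)
    norm_num at hρ2 hρ3 hx2 ⊢
    linarith only [hρ3, hx2]
  have hρ3 : (4 / 5) ^ (2 : ℕ) ≤ ρ ^ (2 : ℕ) := pow_le_pow_left₀ (by norm_num) h2 2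
  have p1 : φ ≤ 6042 / 10000 := hle (by norm_num) (by norm_num at hρ3 ⊢; nlinarith only [s4])
  rcases le_total ρ (13 / 10) with h3 | h3
  · have hρ2 : ρ ^ (2 : ℕ) ≤ (13 / 10) ^ (2 : ℕ) := pow_le_pow_left₀ hρ.le h3 2
    have q1 : 18136 / 10000 * ρ ≤ x := by
      refine abs_le_of_sq_le_sq' ?_ hsx |>.2
      rw [mul_pow]
      norm_num at hρ3 ⊢
      linarith only [s5, hρ3]
    have q2 : 108 / 100 ≤ -sE ρ (-(7 / 10)) := by
      refine le_of_mul_le_mul_left ?_ hρ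
      rw [hEq]
      nlinarith only [s6, h2, q1]
    refine g3_case7 (a := 65 / 100) (C := 796 / 1000) (φ := 6042 / 10000) (c := 4649 / 10000)
      (m := 114 / 100) (y0 := 18 / 25) (u := 42 / 100) (M := 415 / 100) (K := 398 / 100000)
      h hη0 hη1 (by linarith only [hη, hπ2, h2, q2]) (by linarith only [h3]) (by norm_num) (by norm_num)
      (le_trans (by norm_num) (SokamF1G.cos_ge6 (by norm_num))) p1
      ((g3_exp_le (by norm_num) (by norm_num)).trans (by norm_num)) (by norm_num)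
      (g3_K1' (by norm_num)) (fun y _ hy => hy.y1)
      (by norm_num) (by norm_num) (by norm_num) (by norm_num) (by norm_num) (by norm_num) ?_
      (by norm_num)
    norm_num at hρ3 ⊢
    nlinarith only [h2, q1]
  · have hρ4 : (13 / 10) ^ (2 : ℕ) ≤ ρ ^ (2 : ℕ) := pow_le_pow_left₀ (by norm_num) h3 2
    have q1 : 194 / 100 * ρ ≤ x := by
      refine abs_le_of_sq_le_sq' ?_ hsx |>.2
      rw [mul_pow]
      norm_num at hρ4 ⊢
      linarith only [s5, hρ4]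
    have q2 : 148 / 100 ≤ -sE ρ (-(7 / 10)) := by
      refine le_of_mul_le_mul_left ?_ hρ
      rw [hEq]
      nlinarith only [s6, h3, q1]
    have hη2 : η ≤ 6144 / 10000 := by linarith only [hη, hπ2, q2]
    have hlog : (-(2232 / 10000) : ℝ) ≤ Real.log (8 / 10) := by
      refine g3_log (by norm_num) ?_
      rw [Real.exp_neg, inv_le_comm₀ (Real.exp_pos _) (by norm_num)]
      refine le_trans ?_ (g3_exp_ge (by norm_num))
      norm_num
    have hcos : (8 / 10 : ℝ) ≤ Real.cos (6144 / 10000) :=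
      le_trans (by norm_num) (SokamF1G.cos_ge6 (by norm_num))
    obtain ⟨y, hy0, hyD, e, hP⟩ := g3_pos (P := 77 / 100) hρ hη0 hη1 (by norm_num)
      (fun y hy hy0 h4 h5 => by
        have h6 : |sE ρ y| ≤ 6144 / 10000 := by
          rw [abs_of_nonneg h4]
          linarith only [hη2, h5]
        refine le_trans ?_ (g3_one (C := 8 / 10) hy (by norm_num) (by linarith only [hπ, h6])
          (g3_cos h6 (by linarith only [hπ]) hcos))
        linarith only [hlog])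
    refine ⟨y, hyD, e, ?_⟩
    have hD := g3_D2le hyD hy0 hyD.y1
    have hD1 : sD2 ρ (-(7 / 10)) = 9 / 100 + x ^ (2 : ℕ) := by
      unfold sD2
      norm_num [hx]
    refine g3_fin (M := 415 / 100) (m := 114 / 100) (K := 398 / 100000)
      (g3_M (u := 42 / 100) (by linarith only [hyD.y1]) (by norm_num) (by norm_num) (by norm_num)
        (by norm_num)) (sD2_pos (by norm_num)) (by norm_num) ?_ (g3_K1' (by linarith only [p1, hP]))
      (by norm_num)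
    rw [hD1]
    norm_num at hρ4 hD ⊢
    nlinarith only [h3, q1, hD]

/-- [FT-GAP3] (true supremum .006). `H` on the side opposite to the boundary point `b`. -/
theorem gap3 {ρ b η : ℝ} (h : Bd ρ b) (hs : (b ≤ 0 ∧ 0 ≤ η) ∨ (0 ≤ b ∧ η ≤ 0))
    (hη : |η| + |sE ρ b| ≤ 2 * Real.pi / 3) : ∃ y, DD ρ y ∧ sE ρ y = η ∧ GapC ρ y b ≤ 1 / 40 := by
  obtain ⟨hD, hB⟩ := h
  rcases hs with ⟨hb, hη0⟩ | ⟨hb, hη0⟩
  · rw [abs_of_nonneg hη0] at hη
    rcases hB with hB | hB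
    · subst hB
      exact g3_case3 hD hη0 hη
    · exact g3_case1 hD hb hB hη0 hη
  · rw [abs_of_nonpos hη0] at hη
    rcases hB with hB | hB
    · subst hB
      norm_num at hb
    · exact g3_case2 hD hb hB hη0 hη

end SokamF1T

end

/-! ### Lib_MP_af4de1_f1.PC -/

section
namespace SokamF1
end SokamF1
namespace SokamF1S
end SokamF1S
namespace SokamU
end SokamU
namespace SokamV3
end SokamV3
/-!
# Regime C (`N = 3, 4, 5`, `11/10 < h²/R`) from the tails of the own wave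
-/

set_option autoImplicit false

namespace SokamF1T

open Complex SokamU SokamF1 SokamF1S SokamV3

theorem kap_eq_kp {r δ : ℝ} (y : ℝ) (hr : 0 < r) (hδ : 0 < δ) : kap r δ y = kp r (r * δ) y := by
  unfold kap kp
  push_cast
  have h1 : (δ : ℂ) ≠ 0 := by exact_mod_cast hδ.ne'
  have h2 : (r : ℂ) ≠ 0 := by exact_mod_cast hr.ne'
  field_simp

end SokamF1T

end
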