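import Pool.Agent.Lib_MP_af4de1_zy.Z24
import Pool.Agent.Lib_MP_af4de1_zy.Z43
import Pool.Agent.Lib_MP_af4de1_zy.Z44
import Pool.Agent.Lib_MP_af4de1_zy.Z54
import Pool.Agent.Lib_MP_af4de1_zy.Z147

/-! ### Lib_MP_af4de1_f1.OwnC -/

section
namespace SokamF1
end SokamF1
namespace SokamF1B
end SokamF1B
namespace SokamF1G
end SokamF1G
namespace SokamF1M
end SokamF1M
namespace SokamF1S
end SokamF1S
namespace SokamPG
end SokamPG
namespace SokamU
end SokamU
namespace SokamV3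
end SokamV3
/-!
# The own wave on the domain `DD` (regime C), from the tails
-/

set_option autoImplicit false

open Complex MeasureTheory Set SokamU SokamPG SokamF1 SokamF1S SokamF1M SokamF1G SokamF1B

namespace SokamF1T

open SokamV3

/-- The structural facts for `y ≤ 0` on `DD`. -/
theorem DD.negF {ρ y : ℝ} (h : DD ρ y) (hy : y ≤ 0) : NegF (sx ρ y) y := by
  have hρ := h.dom.1
  have hx := sx_nonneg ρ y
  have h0 := h.y0
  have h3 : -(3 / 4) ≤ y := by linarith only [h0]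
  have hΦ : 11 / 25 * (√(sx ρ y ^ (2 : ℕ) + y ^ (2 : ℕ)) * Real.exp y) ≤ sx ρ y * (1 + y) := by
    have h1 : ρ = √(sx ρ y ^ (2 : ℕ) + y ^ (2 : ℕ)) * Real.exp y := by
      have h2 : ‖sK ρ y‖ = √(sx ρ y ^ (2 : ℕ) + y ^ (2 : ℕ)) := norm_K _ _
      rw [← h2, norm_sK h.dom, mul_assoc, ← Real.exp_add]
      simp
    have h2 := h.phi
    unfold ph at h2
    rw [le_div_iff₀ hρ] at h2
    rwa [← h1]
  exact ⟨hx, h3, hy, s2_T hx h3 hy hΦ, s2_D hx h3 hy hΦ, s2_l hx h3 hy hΦ, s2_mu hx h3 hy hΦ,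
    s2_nu hx h3 hy hΦ, s2_gam hx h3 hy hΦ, s2_B hx h3 hy hΦ⟩

end SokamF1T

end

/-! ### Lib_MP_af4de1_f1.PtcB -/

section
namespace SokamF1G
end SokamF1G
/-!
# Tails on `DD`, `ρ ≤ 1.73`: the left half line for `y ≤ 0`

`x = k cos χ`, `y = -(k sin χ)`, `0 ≤ χ ≤ π/2`, `k ≤ 3.49`, `n = k sin χ ≤ 7/10`, `v = |s|`:
`H = (α - n) v + x (1 - α) - e^(-α) k cos (v + χ)`, `α = min 1 (v/(1+x))`.
Hints for `ptc_Lneg`.  If `cos (v + χ) ≤ 0` and `α = v/(1+x)`:
`H ≥ v (v - x)/(1+x) + x - n v ≥ v/5`, i.e. `v² - v (x + (n + 1/5)(1+x)) + x (1 + x) ≥ 0` for `v ≥ 3/2`, `n ≤ 7/10`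
(discriminant `-.39 x² - .58 x + .81`); if `α = 1`: `(1 - n) v`.  If `v + χ < π/2`: `cos ≤ cos (3/2) ≤ .071`,
`n ≤ k χ ≤ .25`.
Hints for `ptc_Lneg_far`: `1 + x + χ ≤ 4.70 < 3π/2` (`x ≤ 2`: `χ ≤ π/2`; `x ≥ 2`: `χ ≤ tan χ = n/x`), so `α = 1`.
-/

set_option autoImplicit false

namespace SokamF1B

open Real SokamF1G

private theorem ga_neg_ptcb {x s : ℝ} (hx : 0 ≤ x) (hs : 0 ≤ s) : ga x (-s) = -min 1 (s / (1 + x)) := by
  unfold ga
  have h1 : 0 ≤ s / (1 + x) := by positivity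
  have h2 : -s / (1 + x) = -(s / (1 + x)) := by ring
  rw [h2, min_eq_right (by linarith only [h1])]
  rcases le_total 1 (s / (1 + x)) with h | h
  · rw [min_eq_left h, max_eq_left (by linarith only [h])]
  · rw [min_eq_right h, max_eq_right (by linarith only [h])]

private theorem hf_neg_ptcb {k χ s α : ℝ} (hx : 0 ≤ k * cos χ) (hs : 0 ≤ s)
    (hα : min 1 (s / (1 + k * cos χ)) = α) :
    Hf (k * cos χ) (-(k * sin χ)) (-s) =
      (α - k * sin χ) * s + k * cos χ * (1 - α) - exp (-α) * k * cos (s + χ) := by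
  unfold Hf Ha
  rw [ga_neg_ptcb hx hs, hα, cos_neg, sin_neg, cos_add]
  ring

theorem ptc_Lneg {k χ s : ℝ} (hk : 0 ≤ k) (hk1 : k ≤ 349 / 100) (h0 : 0 ≤ χ) (h1 : χ ≤ π / 2)
    (hn : k * sin χ ≤ 7 / 10) (hs : 3 / 2 ≤ s) (hsχ : s + χ ≤ 3 * π / 2) :
    s / 5 ≤ Hf (k * cos χ) (-(k * sin χ)) (-s) := by
  have hpi := pi_gt_d4
  have hpi2 := pi_lt_d4
  have hcos : 0 ≤ cos χ := cos_nonneg_of_neg_pi_div_two_le_of_le (by linarith only [h0, h1]) h1
  have hsin : 0 ≤ sin χ := sin_nonneg_of_nonneg_of_le_pi h0 (by linarith only [h0, h1])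
  have hx : 0 ≤ k * cos χ := mul_nonneg hk hcos
  have hn0 : 0 ≤ k * sin χ := mul_nonneg hk hsin
  have hs0 : 0 ≤ s := by linarith only [hs]
  obtain ⟨α, hα⟩ : ∃ α, min 1 (s / (1 + k * cos χ)) = α := ⟨_, rfl⟩
  rw [hf_neg_ptcb hx hs0 hα]
  generalize hX : k * cos χ = x at *
  generalize hN : k * sin χ = n at *
  have hx1 : 0 < 1 + x := by linarith only [hx]
  rcases le_total (s + χ) (π / 2) with hc | hc
  · -- the cosine is positive
    have hχ : χ ≤ 708 / 10000 := by linarith only [hs, hpi2, hc]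
    have hsχ2 : sin χ ≤ 708 / 10000 := (sin_le h0).trans hχ
    have hn2 : n ≤ 349 / 100 * (708 / 10000) := by
      rw [← hN]
      exact mul_le_mul hk1 hsχ2 hsin (by norm_num)
    have hcc : cos (s + χ) ≤ 708 / 10000 := by
      rw [← sin_pi_div_two_sub]
      refine (sin_le (by linarith only [hc])).trans (by linarith only [h0, hs, hpi2])
    have hcc0 : 0 ≤ cos (s + χ) := cos_nonneg_of_neg_pi_div_two_le_of_le (by linarith only [h0, hs, hsχ]) hc
    have hα0 : 0 ≤ α := by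
      rw [← hα]
      exact le_min zero_le_one (by positivity)
    have he : exp (-α) ≤ 1 := by
      rw [exp_le_one_iff]
      linarith only [hα0]
    have hterm : exp (-α) * k * cos (s + χ) ≤ 349 / 100 * (708 / 10000) := by
      have h2 : exp (-α) * k ≤ 1 * (349 / 100) := mul_le_mul he hk1 hk zero_le_one
      rw [one_mul] at h2
      exact mul_le_mul h2 hcc hcc0 (by norm_num)
    have hs2 : s ≤ 1571 / 1000 := by linarith only [h0, hpi2, hc]
    have hns : n * s ≤ 349 / 100 * (708 / 10000) * (1571 / 1000) := mul_le_mul hn2 hs2 hs0 (by norm_num)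
    have hq : 1 ≤ α * s + x * (1 - α) := by
      rcases le_total 1 (s / (1 + x)) with h | h
      · rw [min_eq_left h] at hα
        rw [← hα]
        linarith only [hs]
      · rw [min_eq_right h] at hα
        rw [← hα]
        have h2 : s / (1 + x) * s + x * (1 - s / (1 + x)) = (s ^ (2 : ℕ) + x * (1 + x - s)) / (1 + x) := by
          field_simp
        rw [h2, le_div_iff₀ hx1]
        nlinarith only [hs, sq_nonneg (x - s / 2)]
    norm_num at hterm hns
    have h3 : (α - n) * s + x * (1 - α) = α * s + x * (1 - α) - n * s := by ring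
    rw [h3]
    linarith only [hs2, hq, hterm, hns]
  · have hcc : cos (s + χ) ≤ 0 := cos_nonpos_of_pi_div_two_le_of_le hc (by linarith only [hsχ])
    have hterm : exp (-α) * k * cos (s + χ) ≤ 0 :=
      mul_nonpos_of_nonneg_of_nonpos (mul_nonneg (exp_pos _).le hk) hcc
    suffices h : s / 5 ≤ (α - n) * s + x * (1 - α) by linarith only [hterm, h]
    rcases le_total 1 (s / (1 + x)) with h | h
    · rw [min_eq_left h] at hα
      rw [← hα]
      linarith only [hs0, mul_nonneg (by linarith : 0 ≤ 7 / 10 - n) hs0]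
    · rw [min_eq_right h] at hα
      rw [← hα]
      have h2 : (s / (1 + x) - n) * s + x * (1 - s / (1 + x)) =
          (s ^ (2 : ℕ) - n * s * (1 + x) + x * (1 + x - s)) / (1 + x) := by
        field_simp
      rw [h2, le_div_iff₀ hx1]
      have h3 : n * s * (1 + x) ≤ 7 / 10 * s * (1 + x) :=
        mul_le_mul_of_nonneg_right (mul_le_mul_of_nonneg_right hn hs0) hx1.le
      suffices h4 : 0 ≤ s ^ (2 : ℕ) - s * (9 / 10 + 19 / 10 * x) + x + x ^ (2 : ℕ) by linarith only [h3, h4]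
      rcases le_total x 1 with h5 | h5
      · have h6 : 0 ≤ s - 3 / 2 := by linarith only [hs]
        nlinarith only [h6, mul_nonneg h6 h6, mul_nonneg h6 (by linarith : 0 ≤ 1 - x), sq_nonneg (x - 9 / 10)]
      · nlinarith only [h5, sq_nonneg (s - (19 / 20 * x + 9 / 20))]

theorem ptc_Lneg_far {k χ s : ℝ} (hk : 0 ≤ k) (hk1 : k ≤ 349 / 100) (h0 : 0 ≤ χ) (h1 : χ ≤ π / 2)
    (hn : k * sin χ ≤ 7 / 10) (hsχ : 3 * π / 2 ≤ s + χ) :
    Hf (k * cos χ) (-(k * sin χ)) (-s) = (1 - k * sin χ) * s - exp (-1) * k * cos (s + χ) := by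
  have hpi := pi_gt_d4
  have hpi2 := pi_lt_d4
  have hcos : 0 ≤ cos χ := cos_nonneg_of_neg_pi_div_two_le_of_le (by linarith only [h0, h1]) h1
  have hx : 0 ≤ k * cos χ := mul_nonneg hk hcos
  have hs0 : 0 ≤ s := by linarith only [h1, hsχ, hpi]
  have hxs : 1 + k * cos χ ≤ s := by
    rcases le_total (k * cos χ) 2 with h | h
    · linarith only [h1, hsχ, hpi, h]
    · have hcos1 : 0 < cos χ := by
        rcases hcos.lt_or_eq with h2 | h2
        · exact h2
        · rw [← h2] at h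
          norm_num at h
      have hχ2 : χ < π / 2 := by
        rcases h1.lt_or_eq with h2 | h2
        · exact h2
        · rw [h2, cos_pi_div_two] at hcos1
          exact absurd hcos1 (lt_irrefl _)
      have htan : χ * cos χ ≤ sin χ := by
        rcases h0.lt_or_eq with h2 | h2
        · have h3 := lt_tan h2 hχ2
          rw [tan_eq_sin_div_cos, lt_div_iff₀ hcos1] at h3
          exact h3.le
        · rw [← h2]
          simp
      have hxχ : k * cos χ * χ ≤ 7 / 10 := by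
        have h3 := mul_le_mul_of_nonneg_left htan hk
        linarith only [hn, h3]
      have hk2 : k * cos χ ≤ 349 / 100 := by
        have h3 := mul_le_mul_of_nonneg_left (cos_le_one χ) hk
        linarith only [hk1, h3]
      generalize k * cos χ = x at *
      have h4 : x + χ ≤ 37 / 10 := by
        by_contra h5
        push Not at h5
        have h6 : 0 ≤ x - 2 := by linarith only [h]
        have h7 : 0 ≤ 349 / 100 - x := by linarith only [hk2]
        nlinarith only [h, hxχ, hk2, h5]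
      linarith only [hsχ, hpi, h4]
  have hα : min 1 (s / (1 + k * cos χ)) = 1 := by
    apply min_eq_left
    rw [le_div_iff₀ (by linarith only [hx])]
    linarith only [hxs]
  rw [hf_neg_ptcb hx hs0 hα]
  ring

end SokamF1B

end

/-! ### Lib_MP_af4de1_f1.PtcC -/

section
namespace SokamF1G
end SokamF1G
/-!
# Tails on `DD`, `ρ ≤ 1.73`: the two easy half lines (`H ≥ 2/5 |s|`)

Hints. `a = ga x s` is `± min 1 (|s|/(1+x))`.
Left, `0 ≤ y`: `H = α v + y v + x (1 - α) - e^(-α) (x cos v + y sin v)`, `v = |s|`; `cos v ≤ 71/1000` for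
`3/2 ≤ v ≤ 3π/2`, and for `v ≥ 3π/2` one has `α = 1`.  Margins: `.966 v - 1.12`, `.6 v - .64`.
Right, `y = -n ≤ 0`: `H = (a+n) v + x (1+a) - e^a (x cos v + n sin v)`; for `v ≤ 3π/2`:
`H ≥ a v + n (v - e^a) + x (1 + a - (71/1000) e^a)`, with `v²/(1+x) + (1+x) ≥ 2 v` if `a = v/(1+x)`;
for `v ≥ 3π/2 > 1 + x`: `a = 1`, `H ≥ v + n (v - e) - (e - 2) x`.
-/

set_option autoImplicit false

namespace SokamF1B

open Real SokamF1G

private theorem cosb {v : ℝ} (h0 : 3 / 2 ≤ v) (h1 : v ≤ 449 / 100) : cos v ≤ 86 / 1000 := by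
  rcases le_total v π with hv | hv
  · have h2 : cos v ≤ cos (3 / 2) := Real.cos_le_cos_of_nonneg_of_le_pi (by norm_num) hv h0
    have h3 : cos (3 / 2) ≤ 1 - (3 / 2 : ℝ) ^ (2 : ℕ) / 2 + (3 / 2 : ℝ) ^ (4 : ℕ) / 24 := cos_le4 (by norm_num)
    norm_num at h3
    linarith only [h2, h3]
  · have hπ := Real.pi_gt_d2
    have h2 : cos v ≤ 0 := Real.cos_nonpos_of_pi_div_two_le_of_le (by linarith only [hv, hπ]) (by linarith only [h1, hπ])
    linarith only [h2]

private theorem expc {a : ℝ} (h0 : 0 ≤ a) (h1 : a ≤ 1) : exp a ≤ 1 + 1719 / 1000 * a := by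
  have h2 := convexOn_exp.2 (Set.mem_univ (1 : ℝ)) (Set.mem_univ (0 : ℝ)) h0 (sub_nonneg.2 h1)
    (by ring)
  simp only [smul_eq_mul, mul_one, mul_zero, add_zero, exp_zero] at h2
  have h3 := mul_le_mul_of_nonneg_left e1_hi h0
  linarith only [h2, h3]

theorem ptc_Lpos {x y s : ℝ} (hx : 0 ≤ x) (hx1 : x ≤ 173 / 100) (hy : 0 ≤ y) (hy1 : y ≤ 18 / 25)
    (hs : 3 / 2 ≤ s) : 2 / 5 * s ≤ Hf x y (-s) := by
  obtain ⟨c, hc⟩ : ∃ c, c = 1 / (1 + x) := ⟨_, rfl⟩
  obtain ⟨k1, k2, k3⟩ := c_facts hx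
  rw [← hc] at k1 k2 k3
  unfold Hf
  rcases le_total (c * s) 1 with hcs | hcs
  · rw [ga_mid hc (by linarith only [hcs]) (by nlinarith)]
    obtain ⟨a, ha⟩ : ∃ a, a = c * s := ⟨_, rfl⟩
    have ha0 : 0 ≤ a := by rw [ha]; exact mul_nonneg k1.le (by linarith only [hs])
    have hs1 : a * (1 + x) = s := by
      have : c * (1 + x) = 1 := by linarith only [k3]
      calc a * (1 + x) = (c * (1 + x)) * s := by rw [ha]; ring
        _ = s := by rw [this, one_mul]
    have hs2 : s ≤ 273 / 100 := by nlinarith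
    have ha1 : 54 / 100 ≤ a := by nlinarith
    have h1 := cosb hs (by linarith only [hs2])
    have h2 : exp (-a) ≤ 1 := Real.exp_le_one_iff.2 (by linarith only [ha1])
    have h3 := exp_pos (-a)
    rw [show c * -s = -a by rw [ha]; ring]
    unfold Ha
    rw [cos_neg, sin_neg]
    have h4 : exp (-a) * cos s ≤ 86 / 1000 := by
      calc exp (-a) * cos s ≤ exp (-a) * (86 / 1000) := mul_le_mul_of_nonneg_left h1 h3.le
        _ ≤ 1 * (86 / 1000) := mul_le_mul_of_nonneg_right h2 (by norm_num)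
        _ = 86 / 1000 := one_mul _
    have h5 : exp (-a) * sin s ≤ 1 := by
      calc exp (-a) * sin s ≤ exp (-a) * 1 := mul_le_mul_of_nonneg_left (sin_le_one s) h3.le
        _ ≤ 1 := by rw [mul_one]; exact h2
    have h6 : x * (exp (-a) * cos s) ≤ x * (86 / 1000) := mul_le_mul_of_nonneg_left h4 hx
    have h7 : 0 ≤ y * (s - exp (-a) * sin s) := mul_nonneg hy (by linarith only [hs, h5])
    have h8 : 0 ≤ x * (1 - a) := mul_nonneg hx (by linarith only [hcs, ha])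
    have h9 : (54 / 100 - 2 / 5) * (3 / 2) ≤ (a - 2 / 5) * s :=
      mul_le_mul (by linarith only [ha1]) hs (by norm_num) (by linarith only [ha1])
    linarith only [hs1, hs2, ha1, h6, h7, h8, h9]
  · rw [ga_lo hc (by linarith only [hcs])]
    unfold Ha
    rw [cos_neg, sin_neg]
    have h2 := em1_hi
    have h3 := exp_pos (-1 : ℝ)
    have h5 : exp (-1) * sin s ≤ 1 := by
      calc exp (-1) * sin s ≤ exp (-1) * 1 := mul_le_mul_of_nonneg_left (sin_le_one s) h3.le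
        _ ≤ 1 := by linarith only [h2]
    have h7 : 0 ≤ y * (s - exp (-1) * sin s) := mul_nonneg hy (by linarith only [hs, h5])
    have h4 : exp (-1) * cos s ≤ 3679 / 10000 := by
      calc exp (-1) * cos s ≤ exp (-1) * 1 := mul_le_mul_of_nonneg_left (cos_le_one s) h3.le
        _ ≤ _ := by linarith only [h2]
    have h6 : x * (exp (-1) * cos s) ≤ x * (3679 / 10000) := mul_le_mul_of_nonneg_left h4 hx
    linarith only [hx1, hs, h7, h6]

theorem ptc_Rneg {x y s : ℝ} (hx : 0 ≤ x) (hx1 : x ≤ 349 / 100) (hy : -(7 / 10) ≤ y) (hy1 : y ≤ 0)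
    (hs : 3 / 2 ≤ s) : 2 / 5 * s ≤ Hf x y s := by
  obtain ⟨c, hc⟩ : ∃ c, c = 1 / (1 + x) := ⟨_, rfl⟩
  obtain ⟨k1, k2, k3⟩ := c_facts hx
  rw [← hc] at k1 k2 k3
  obtain ⟨n, hn⟩ : ∃ n, n = -y := ⟨_, rfl⟩
  have hn0 : 0 ≤ n := by linarith only [hy1, hn]
  have hn1 : n ≤ 7 / 10 := by linarith only [hy, hn]
  have hyn : y = -n := by linarith only [hn]
  unfold Hf
  rcases le_total (c * s) 1 with hcs | hcs
  · have hcs0 : 0 ≤ c * s := mul_nonneg k1.le (by linarith only [hs])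
    rw [ga_mid hc (by linarith only [hcs0]) hcs]
    obtain ⟨a, ha⟩ : ∃ a, a = c * s := ⟨_, rfl⟩
    rw [← ha] at hcs hcs0 ⊢
    have hs1 : a * (1 + x) = s := by
      have : c * (1 + x) = 1 := by linarith only [k3]
      calc a * (1 + x) = (c * (1 + x)) * s := by rw [ha]; ring
        _ = s := by rw [this, one_mul]
    have hs2 : s ≤ 449 / 100 := by nlinarith
    have h1 := cosb hs hs2
    have h2 := expc hcs0 hcs
    have h2' : exp a ≤ 2719 / 1000 := by linarith only [hcs, h2]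
    have h3 := exp_pos a
    unfold Ha
    rw [hyn]
    have h4 : exp a * cos s ≤ 86 / 1000 * (1 + 1719 / 1000 * a) := by
      calc exp a * cos s ≤ exp a * (86 / 1000) := mul_le_mul_of_nonneg_left h1 h3.le
        _ ≤ _ := by linarith only [h2]
    have h5 : exp a * sin s ≤ 2719 / 1000 := by
      calc exp a * sin s ≤ exp a * 1 := mul_le_mul_of_nonneg_left (sin_le_one s) h3.le
        _ ≤ _ := by linarith only [h2']
    have h6 := mul_le_mul_of_nonneg_left h4 hx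
    have h7 := mul_le_mul_of_nonneg_left h5 hn0
    have h8 : 0 ≤ (1 + x) * (a - 1) ^ (2 : ℕ) := by positivity
    have h9 : 0 ≤ x * a := mul_nonneg hx hcs0
    have h10 : n * (3 / 2) ≤ n * s := mul_le_mul_of_nonneg_left hs hn0
    have h11 : a * s = (1 + x) * (a - 1) ^ (2 : ℕ) + 2 * s - (1 + x) := by
      rw [← hs1]
      ring
    linarith only [hx1, hy, hs, hyn, h6, h7, h8, h9, h10, h11]
  · rw [ga_hi hc hcs]
    have hs1 : 1 + x ≤ s := by
      have h1 : c * (1 + x) = 1 := by linarith only [k3]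
      nlinarith
    unfold Ha
    rw [hyn]
    have h2 := e1_hi
    have h2' := e1_lo
    have h3 := exp_pos (1 : ℝ)
    have h5 : exp 1 * sin s ≤ 2719 / 1000 := by
      calc exp 1 * sin s ≤ exp 1 * 1 := mul_le_mul_of_nonneg_left (sin_le_one s) h3.le
        _ ≤ _ := by linarith only [h2]
    have h7 := mul_le_mul_of_nonneg_left h5 hn0
    rcases le_total s 3 with h30 | h30
    · have h1 := cosb hs (by linarith only [h30])
      have h4 : exp 1 * cos s ≤ 1 := by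
        calc exp 1 * cos s ≤ exp 1 * (86 / 1000) := mul_le_mul_of_nonneg_left h1 h3.le
          _ ≤ _ := by linarith only [h2]
      have h6 := mul_le_mul_of_nonneg_left h4 hx
      have h10 : n * (3 / 2) ≤ n * s := mul_le_mul_of_nonneg_left hs hn0
      linarith only [hx, hy, hs, hyn, h7, h6, h10]
    · have h4 : exp 1 * cos s ≤ 2719 / 1000 := by
        calc exp 1 * cos s ≤ exp 1 * 1 := mul_le_mul_of_nonneg_left (cos_le_one s) h3.le
          _ ≤ _ := by linarith only [h2]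
      have h6 := mul_le_mul_of_nonneg_left h4 hx
      have h10 : n * 3 ≤ n * s := mul_le_mul_of_nonneg_left h30 hn0
      linarith only [hx1, hy1, hyn, hs1, h7, h6, h10]

end SokamF1B

end

/-! ### Lib_MP_af4de1_f1.PtcR -/

section
namespace SokamF1G
end SokamF1G
/-!
# Tails on `DD`: heights on the right half line for `0 ≤ y`, lump on the left half line for `y ≤ 0`
-/

set_option autoImplicit false

namespace SokamF1B

open Real SokamF1G

theorem ptc_Ha_polar (k ψ a s : ℝ) : Ha (k * cos ψ) (k * sin ψ) a s =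
    (a - k * sin ψ) * s + k * cos ψ * (1 + a) - exp a * (k * cos (s + ψ)) := by
  unfold Ha
  rw [cos_add]
  ring

theorem ptc_cos_small {φ : ℝ} (h : 3 / 2 ≤ φ) (h1 : φ ≤ π) : cos φ ≤ 71 / 1000 := by
  rcases le_total φ (π / 2) with h2 | h2
  · have h3 : cos φ = sin (π / 2 - φ) := (sin_pi_div_two_sub φ).symm
    have h4 : sin (π / 2 - φ) ≤ π / 2 - φ := sin_le (by linarith only [h2])
    have h5 := pi_lt_d4
    norm_num at h5
    linarith only [h, h3, h4, h5]
  · have h3 : cos φ ≤ 0 := cos_nonpos_of_pi_div_two_le_of_le h2 (by linarith only [h, h1])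
    linarith only [h3]

theorem ptc_ga_one {x s : ℝ} (hx : 0 ≤ x) (h : 1 + x ≤ s) : ga x s = 1 := by
  refine ga_hi (c := 1 / (1 + x)) rfl ?_
  rw [one_div, inv_mul_eq_div, le_div_iff₀ (by linarith only [hx])]
  linarith only [h]

theorem ptc_ga_mid {x s : ℝ} (hx : 0 ≤ x) (h0 : 0 ≤ s) (h : s ≤ 1 + x) :
    ga x s = s / (1 + x) := by
  have hp : 0 < 1 + x := by linarith only [hx]
  rw [ga_mid (c := 1 / (1 + x)) rfl (by
    have : 0 ≤ 1 / (1 + x) * s := by positivity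
    linarith only [this]) (by
    rw [one_div, inv_mul_eq_div, div_le_one hp]
    exact h)]
  ring

/-- the height on the right half line, `0 ≤ y`, before the lump -/
theorem ptc_Rpos {k ψ s : ℝ} (hk : 0 ≤ k) (hk1 : k ≤ 173 / 100) (h0 : 0 ≤ ψ) (h1 : ψ ≤ π / 2)
    (hn : k * sin ψ ≤ 18 / 25) (hs : 3 / 2 ≤ s) (hsψ : s + ψ ≤ 3 * π / 2) :
    7 / 25 * s ≤ Hf (k * cos ψ) (k * sin ψ) s := by
  have hπ := pi_pos
  have hπl : (3.1415 : ℝ) < π := pi_gt_d4
  have hπu : π < 3.1416 := pi_lt_d4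
  have hc0 : 0 ≤ cos ψ := cos_nonneg_of_mem_Icc ⟨by linarith only [h0, h1], h1⟩
  have hs0 : 0 ≤ sin ψ := sin_nonneg_of_nonneg_of_le_pi h0 (by linarith only [h0, h1])
  have hx : 0 ≤ k * cos ψ := by positivity
  have hy : 0 ≤ k * sin ψ := by positivity
  unfold Hf
  -- first part: `a s + x (1 + a) ≥ s`
  have key : s ≤ ga (k * cos ψ) s * s + k * cos ψ * (1 + ga (k * cos ψ) s) ∧
      0 ≤ ga (k * cos ψ) s ∧ ga (k * cos ψ) s ≤ 1 := by
    rcases le_total (1 + k * cos ψ) s with h | h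
    · rw [ptc_ga_one hx h]
      refine ⟨?_, by norm_num, le_rfl⟩
      linarith only [hx]
    · rw [ptc_ga_mid hx (by linarith only [hs]) h]
      have hp : 0 < 1 + k * cos ψ := by linarith only [hx]
      refine ⟨?_, by positivity, ?_⟩
      · obtain ⟨x, hxe⟩ : ∃ x, x = k * cos ψ := ⟨_, rfl⟩
        rw [← hxe] at h hp ⊢
        have e : s / (1 + x) * s + x * (1 + s / (1 + x)) - s = (s ^ (2 : ℕ) + x * (1 + x) - s) / (1 + x) := by
          field_simp
          ring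
        have h2 : 0 ≤ (s ^ (2 : ℕ) + x * (1 + x) - s) / (1 + x) := by
          refine div_nonneg ?_ hp.le
          nlinarith only [hs, h]
        linarith only [e, h2]
      · rw [div_le_one hp]
        exact h
  obtain ⟨key1, a0, a1⟩ := key
  rw [ptc_Ha_polar]
  have hE : exp (ga (k * cos ψ) s) ≤ 2719 / 1000 := by
    refine (exp_le_exp.2 a1).trans ?_
    exact e1_hi
  have hE0 := exp_pos (ga (k * cos ψ) s)
  rcases le_total (π / 2) (s + ψ) with h | h
  · have hcn : cos (s + ψ) ≤ 0 := cos_nonpos_of_pi_div_two_le_of_le h (by linarith only [hsψ])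
    have h2 : exp (ga (k * cos ψ) s) * (k * cos (s + ψ)) ≤ 0 :=
      mul_nonpos_of_nonneg_of_nonpos hE0.le (mul_nonpos_of_nonneg_of_nonpos hk hcn)
    have h3 : k * sin ψ * s ≤ 18 / 25 * s := mul_le_mul_of_nonneg_right hn (by linarith only [hs])
    linarith only [key1, h2, h3]
  · have hψ : ψ ≤ 71 / 1000 := by
      have : (3.1416 : ℝ) / 2 - 3 / 2 ≤ 71 / 1000 := by norm_num
      linarith only [hs, hπu, h]
    have hsin : sin ψ ≤ 71 / 1000 := (sin_le h0).trans hψ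
    have hc1 := ptc_cos_small (φ := s + ψ) (by linarith only [h0, hs]) (by linarith only [hπl, h])
    have hc2 : 0 ≤ cos (s + ψ) := cos_nonneg_of_mem_Icc ⟨by linarith only [h0, h1, hs], h⟩
    have h2 : exp (ga (k * cos ψ) s) * (k * cos (s + ψ)) ≤ 2719 / 1000 * (173 / 100 * (71 / 1000)) := by
      gcongr
    have h3 : k * sin ψ ≤ 173 / 100 * (71 / 1000) := by gcongr
    have h4 : k * sin ψ * s ≤ 173 / 100 * (71 / 1000) * s := mul_le_mul_of_nonneg_right h3 (by linarith only [hs])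
    norm_num at h2 h4
    linarith only [hs, key1, h2, h4]

/-- the height on the right half line, `0 ≤ y`, at the lump -/
theorem ptc_Rpos_far {k ψ s : ℝ} (hk : 0 ≤ k) (hk1 : k ≤ 173 / 100) (h0 : 0 ≤ ψ) (h1 : ψ ≤ π / 2)
    (hsψ : 3 * π / 2 ≤ s + ψ) :
    Hf (k * cos ψ) (k * sin ψ) s =
      (1 - k * sin ψ) * s + 2 * (k * cos ψ) - exp 1 * k * cos (s + ψ) := by
  have hπ := pi_pos
  have hπl : (3.1415 : ℝ) < π := pi_gt_d4
  have hc0 : 0 ≤ cos ψ := cos_nonneg_of_mem_Icc ⟨by linarith only [h0, h1], h1⟩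
  have hx : 0 ≤ k * cos ψ := by positivity
  have hx1 : k * cos ψ ≤ 173 / 100 := by
    have := cos_le_one ψ
    nlinarith only [hk, hk1, this]
  have hs : 1 + k * cos ψ ≤ s := by
    norm_num at hπl
    linarith only [h1, hsψ, hx1, hπl]
  unfold Hf
  rw [ptc_Ha_polar, ptc_ga_one hx hs]
  ring

/-- `cos u ≤ 1 - 39/100 u²` for `0 ≤ u ≤ π/2` -/
theorem ptc_cos_quad {u : ℝ} (h0 : 0 ≤ u) (h1 : u ≤ π / 2) : cos u ≤ 1 - 39 / 100 * u ^ (2 : ℕ) := by
  have h2 := cos_le4 h0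
  have hπu : π < 3.1416 := pi_lt_d4
  have h3 : u ^ (2 : ℕ) ≤ 264 / 100 := by
    norm_num at hπu
    nlinarith only [h0, h1, hπu]
  linarith only [h2, mul_nonneg (sq_nonneg u) (sub_nonneg.2 h3)]

theorem ptc_exp_chord {n : ℝ} (h0 : 0 ≤ n) (h1 : n ≤ 7 / 10) : exp n ≤ 1 + 1449 / 1000 * n := by
  have h7 : exp (7 / 10) ≤ 20143 / 10000 := by
    have h2 : exp (7 / 10) ^ (10 : ℕ) = exp 1 ^ (7 : ℕ) := by
      rw [← exp_nat_mul, ← exp_nat_mul]
      norm_num
    have h3 : exp 1 ^ (7 : ℕ) ≤ (27182818286 / 10000000000 : ℝ) ^ (7 : ℕ) := by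
      have h0' : exp 1 ≤ (27182818286 / 10000000000 : ℝ) := by
        have := exp_one_lt_d9
        norm_num at this ⊢
        exact this.le
      exact pow_le_pow_left₀ (exp_pos 1).le h0' 7
    by_contra h4
    push Not at h4
    have h5 : (20143 / 10000 : ℝ) ^ (10 : ℕ) < exp (7 / 10) ^ (10 : ℕ) :=
      pow_lt_pow_left₀ h4 (by norm_num) (by norm_num)
    rw [h2] at h5
    have h6 := h5.trans_le h3
    norm_num at h6
  have h2 := convexOn_exp.2 (Set.mem_univ 0) (Set.mem_univ (7 / 10))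
    (show 0 ≤ 1 - 10 / 7 * n by linarith only [h1]) (show 0 ≤ 10 / 7 * n by linarith only [h0]) (by ring)
  simp only [smul_eq_mul, mul_zero, zero_add, exp_zero, mul_one] at h2
  have e : 10 / 7 * n * (7 / 10) = n := by ring
  rw [e] at h2
  have h3 := mul_le_mul_of_nonneg_left h7 (show 0 ≤ 10 / 7 * n by linarith only [h0])
  linarith only [h2, h3]

/-- The lump on the left half line, `y = -n ≤ 0`. -/
theorem ptc_lumpL {k χ : ℝ} (hk : 4 / 5 ≤ k) (h0 : 0 ≤ χ) (h1 : χ ≤ π / 2)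
    (hn : k * sin χ ≤ 7 / 10) (hρ : k ≤ 173 / 100 * exp (k * sin χ)) :
    43 / 100 + (1 - k * sin χ) ^ (2 : ℕ) / (4 * (39 / 100 * (exp (-1) * k))) ≤
      (1 - k * sin χ) * (2 * π - χ) - exp (-1) * k := by
  have hπ := pi_pos
  have hk0 : 0 < k := by linarith only [hk, h0]
  have hs0 : 0 ≤ sin χ := sin_nonneg_of_nonneg_of_le_pi h0 (by linarith only [h0, h1])
  have hn0 : 0 ≤ k * sin χ := by positivity
  have hpl : (31415 / 10000 : ℝ) ≤ π := by
    have := pi_gt_d4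
    norm_num at this ⊢
    linarith only [this]
  have hpu : π ≤ (31416 / 10000 : ℝ) := by
    have := pi_lt_d4
    norm_num at this ⊢
    linarith only [this]
  have hj : 2 / π * χ ≤ sin χ := mul_le_sin h0 h1
  have hj2 : χ ≤ π / 2 * sin χ := by
    have h2 := mul_le_mul_of_nonneg_left hj (show 0 ≤ π / 2 by positivity)
    have e : π / 2 * (2 / π * χ) = χ := by field_simp
    linarith only [h2, e]
  have hj3 : k * χ ≤ 15708 / 10000 * (k * sin χ) := by
    have h2 := mul_le_mul_of_nonneg_left hj2 hk0.le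
    have h3 : k * (π / 2 * sin χ) = π / 2 * (k * sin χ) := by ring
    have h4 : π / 2 * (k * sin χ) ≤ 15708 / 10000 * (k * sin χ) :=
      mul_le_mul_of_nonneg_right (by linarith only [hpu]) hn0
    linarith only [h2, h4]
  have hch := ptc_exp_chord hn0 hn
  obtain ⟨n, hne⟩ : ∃ n, n = k * sin χ := ⟨_, rfl⟩
  rw [← hne] at hn hρ hn0 hj3 hch ⊢
  have hkm : k ≤ 173 / 100 + 2507 / 1000 * n := by linarith only [hch, hn0, hρ]
  have hem := em1_lo
  have heu := em1_hi
  have hee : exp 1 * exp (-1) = 1 := by rw [← exp_add]; simp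
  have hE0 := exp_pos (-1)
  -- `(1-n)²/(4 c) ≤ 17425/10000 (1-n)²/k`
  have h4 : (1 - n) ^ (2 : ℕ) / (4 * (39 / 100 * (exp (-1) * k))) ≤ 17430 / 10000 * (1 - n) ^ (2 : ℕ) / k := by
    rw [div_le_div_iff₀ (by positivity) hk0]
    have h5 : 0 ≤ (1 - n) ^ (2 : ℕ) * k := by positivity
    have h6 : 0 ≤ (1 - n) ^ (2 : ℕ) * k * (exp (-1) - 3678 / 10000) := mul_nonneg h5 (by linarith only [hem])
    linarith only [h5, h6]
  have h5 : χ * (1 - n) ≤ 15708 / 10000 * n * (1 - n) / k := by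
    rw [le_div_iff₀ hk0]
    have := mul_le_mul_of_nonneg_right hj3 (show 0 ≤ 1 - n by linarith only [hn])
    linarith only [this]
  have h6 : exp (-1) * k ≤ 3679 / 10000 * k := mul_le_mul_of_nonneg_right heu hk0.le
  have h7 : 2 * (31415 / 10000) * (1 - n) ≤ 2 * π * (1 - n) :=
    mul_le_mul_of_nonneg_right (by linarith only [hpl]) (by linarith only [hn])
  have key : 0 ≤ k * (2 * (31415 / 10000) * (1 - n) - 43 / 100 - 3679 / 10000 * k) -
      15708 / 10000 * n * (1 - n) - 17430 / 10000 * (1 - n) ^ (2 : ℕ) := by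
    have g0 : 0 ≤ 4 / 5 * (2 * (31415 / 10000) * (1 - n) - 43 / 100 - 3679 / 10000 * (4 / 5)) -
        15708 / 10000 * n * (1 - n) - 17430 / 10000 * (1 - n) ^ (2 : ℕ) := by nlinarith only [hn0, hn]
    have g1 : 0 ≤ (173 / 100 + 2507 / 1000 * n) * (2 * (31415 / 10000) * (1 - n) - 43 / 100 -
        3679 / 10000 * (173 / 100 + 2507 / 1000 * n)) -
        15708 / 10000 * n * (1 - n) - 17430 / 10000 * (1 - n) ^ (2 : ℕ) := by nlinarith only [hn0, hn]
    have g2 : 0 ≤ (k - 4 / 5) * (173 / 100 + 2507 / 1000 * n - k) :=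
      mul_nonneg (by linarith only [hk]) (by linarith only [hkm])
    obtain ⟨M, hM⟩ : ∃ M, M = 173 / 100 + 2507 / 1000 * n := ⟨_, rfl⟩
    rw [← hM] at g1 g2 hkm
    obtain ⟨α, hα⟩ : ∃ α, α = 2 * (31415 / 10000) * (1 - n) - 43 / 100 := ⟨_, rfl⟩
    obtain ⟨γ, hγ⟩ : ∃ γ, γ = 15708 / 10000 * n * (1 - n) + 17430 / 10000 * (1 - n) ^ (2 : ℕ) := ⟨_, rfl⟩
    have g0' : 0 ≤ 4 / 5 * (α - 3679 / 10000 * (4 / 5)) - γ := by rw [hα, hγ]; linarith only [g0]
    have g1' : 0 ≤ M * (α - 3679 / 10000 * M) - γ := by rw [hα, hγ]; linarith only [g1]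
    have hMk : 0 < M - 4 / 5 := by rw [hM]; linarith only [hn0]
    have g3 : 0 ≤ (M - 4 / 5) * (k * (α - 3679 / 10000 * k) - γ) := by
      have e : (M - 4 / 5) * (k * (α - 3679 / 10000 * k) - γ) =
          (M - k) * (4 / 5 * (α - 3679 / 10000 * (4 / 5)) - γ) +
          (k - 4 / 5) * (M * (α - 3679 / 10000 * M) - γ) +
          3679 / 10000 * (M - 4 / 5) * ((k - 4 / 5) * (M - k)) := by ring
      rw [e]
      have i1 : 0 ≤ M - k := by linarith only [hkm]
      have i2 : 0 ≤ k - 4 / 5 := by linarith only [hk]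
      positivity
    have g4 := nonneg_of_mul_nonneg_right g3 hMk
    rw [hα, hγ] at g4
    linarith only [g4]
  have key2 : 15708 / 10000 * n * (1 - n) / k + 17430 / 10000 * (1 - n) ^ (2 : ℕ) / k ≤
      2 * (31415 / 10000) * (1 - n) - 43 / 100 - 3679 / 10000 * k := by
    rw [← add_div, div_le_iff₀ hk0]
    linarith only [key]
  linarith only [h4, h5, h6, h7, key2]

end SokamF1B

end

/-! ### Lib_MP_af4de1_f1.PtcD2 -/

section
/-!
# Tails on `DD`: integral of one half line, for a function which is dominated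
-/

set_option autoImplicit false

namespace SokamF1B

open MeasureTheory Set Real

private theorem ptcD_int' {b : ℝ} (hb : 0 < b) (s : ℝ) :
    IntegrableOn (fun v => exp (-b * v)) (Ioi s) ∧ ∫ v in Ioi s, exp (-b * v) = exp (-(s * b)) / b := by
  refine ⟨integrableOn_exp_mul_Ioi (by linarith only [hb]) s, ?_⟩
  rw [integral_exp_mul_Ioi (by linarith only [hb]) s, neg_div_neg_eq]
  congr 2
  ring

theorem ptc_int_crude' {H g : ℝ → ℝ} {C δ c0 : ℝ} (hC0 : 0 ≤ C) (hg0 : ∀ v, 0 ≤ g v)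
    (hg : ∀ v, 3 / 2 ≤ v → g v ≤ C * exp (3 / 10 * v - H v / δ)) (hδ : 0 < δ)
    (hc : 3 / 10 * δ < c0) (h : ∀ v, 3 / 2 ≤ v → c0 * v ≤ H v) :
    ∫ v in Ioi (3 / 2 : ℝ), g v ≤
      C * (exp (-(3 / 2 * (c0 / δ - 3 / 10))) / (c0 / δ - 3 / 10)) := by
  have hb : 0 < c0 / δ - 3 / 10 := by
    rw [sub_pos, lt_div_iff₀ hδ]
    exact hc
  obtain ⟨h1, h2⟩ := ptcD_int' hb (3 / 2)
  rw [← h2, ← integral_const_mul]
  refine integral_mono_of_nonneg (Filter.Eventually.of_forall hg0) (h1.const_mul C) ?_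
  filter_upwards [ae_restrict_mem measurableSet_Ioi] with v hv
  rw [mem_Ioi] at hv
  refine (hg v hv.le).trans (mul_le_mul_of_nonneg_left (exp_le_exp.2 ?_) hC0)
  have h3 : c0 / δ * v ≤ H v / δ := by
    rw [div_mul_eq_mul_div]
    exact div_le_div_of_nonneg_right (h v hv.le) hδ.le
  linarith only [h3]

/-- The same with one lump with centre `v0 ≤ 2 π`:
`H(v) ≥ c₀ v` for `v ≤ v0 - π/2`, `H(v) ≥ f - A (v0 - v) + c (v0 - v)²` for `v0 - π/2 ≤ v ≤ v0`,
`H(v) ≥ f + A (v - v0)` for `v ≥ v0`. -/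
theorem ptc_int_lump' {H g : ℝ → ℝ} {C δ c0 v0 f A c : ℝ} (hC0 : 0 ≤ C) (hg0 : ∀ v, 0 ≤ g v)
    (hg : ∀ v, 3 / 2 ≤ v → g v ≤ C * exp (3 / 10 * v - H v / δ)) (hδ : 0 < δ) (hc0 : 3 / 10 * δ < c0)
    (hA : 3 / 10 * δ < A) (hc : 0 < c) (hv0 : v0 ≤ 2 * π) (hv1 : 3 / 2 ≤ v0)
    (h1 : ∀ v, 3 / 2 ≤ v → v ≤ v0 - π / 2 → c0 * v ≤ H v)
    (h2 : ∀ v, v0 - π / 2 ≤ v → v ≤ v0 → f - A * (v0 - v) + c * (v0 - v) ^ (2 : ℕ) ≤ H v)
    (h3 : ∀ v, v0 ≤ v → f + A * (v - v0) ≤ H v) :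
    ∫ v in Ioi (3 / 2 : ℝ), g v ≤
      C * (exp (-(3 / 2 * (c0 / δ - 3 / 10))) / (c0 / δ - 3 / 10) +
      exp (3 / 5 * π) * (exp (-((f - A ^ (2 : ℕ) / (4 * c)) / δ)) * √(π * δ / c) +
        exp (-(f / δ)) / (A / δ - 3 / 10))) := by
  have hb : 0 < c0 / δ - 3 / 10 := by
    rw [sub_pos, lt_div_iff₀ hδ]
    exact hc0
  have hb' : 0 < A / δ - 3 / 10 := by
    rw [sub_pos, lt_div_iff₀ hδ]
    exact hA
  have hcδ : 0 < c / δ := div_pos hc hδ
  obtain ⟨hg1, hg1'⟩ := ptcD_int' hb (3 / 2)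
  obtain ⟨hg3, hg3'⟩ := ptcD_int' hb' v0
  -- the Gaussian part
  obtain ⟨C2, hC2⟩ : ∃ C2 : ℝ, C2 = exp (3 / 5 * π) * exp (-((f - A ^ (2 : ℕ) / (4 * c)) / δ)) := ⟨_, rfl⟩
  obtain ⟨C3, hC3⟩ : ∃ C3 : ℝ, C3 = exp (3 / 5 * π) * exp (-(f / δ)) * exp (v0 * (A / δ - 3 / 10)) :=
    ⟨_, rfl⟩
  have hC20 : 0 < C2 := by rw [hC2]; positivity
  have hC30 : 0 < C3 := by rw [hC3]; positivity
  have hG : Integrable (fun v => C2 * exp (-(c / δ) * (v + (A / (2 * c) - v0)) ^ (2 : ℕ))) :=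
    ((integrable_exp_neg_mul_sq hcδ).comp_add_right (A / (2 * c) - v0)).const_mul C2
  have hG' : ∫ v, C2 * exp (-(c / δ) * (v + (A / (2 * c) - v0)) ^ (2 : ℕ)) = C2 * √(π * δ / c) := by
    rw [integral_const_mul, integral_add_right_eq_self (fun v => exp (-(c / δ) * v ^ (2 : ℕ))),
      integral_gaussian]
    congr 2
    field_simp
  have hG0 : ∀ v, 0 ≤ C2 * exp (-(c / δ) * (v + (A / (2 * c) - v0)) ^ (2 : ℕ)) := fun v => by positivity
  -- the last part
  have hE : Integrable ((Ioi v0).indicator (fun v => C3 * exp (-(A / δ - 3 / 10) * v))) :=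
    (integrable_indicator_iff measurableSet_Ioi).2 (hg3.const_mul C3)
  have hE' : ∫ v, (Ioi v0).indicator (fun v => C3 * exp (-(A / δ - 3 / 10) * v)) v =
      exp (3 / 5 * π) * (exp (-(f / δ)) / (A / δ - 3 / 10)) := by
    rw [integral_indicator measurableSet_Ioi, integral_const_mul, hg3', hC3]
    have e1 : exp (v0 * (A / δ - 3 / 10)) * exp (-(v0 * (A / δ - 3 / 10))) = 1 := by
      rw [← exp_add, add_neg_cancel, exp_zero]
    calc exp (3 / 5 * π) * exp (-(f / δ)) * exp (v0 * (A / δ - 3 / 10)) *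
          (exp (-(v0 * (A / δ - 3 / 10))) / (A / δ - 3 / 10))
        = exp (3 / 5 * π) * (exp (-(f / δ)) / (A / δ - 3 / 10)) *
          (exp (v0 * (A / δ - 3 / 10)) * exp (-(v0 * (A / δ - 3 / 10)))) := by ring
      _ = _ := by rw [e1, mul_one]
  have hE0 : ∀ v, 0 ≤ (Ioi v0).indicator (fun v => C3 * exp (-(A / δ - 3 / 10) * v)) v :=
    fun v => indicator_nonneg (fun v _ => by positivity) v
  -- domination
  have hdom : ∫ v in Ioi (3 / 2 : ℝ), g v ≤
      ∫ v in Ioi (3 / 2 : ℝ), C * (exp (-(c0 / δ - 3 / 10) * v) +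
        (C2 * exp (-(c / δ) * (v + (A / (2 * c) - v0)) ^ (2 : ℕ)) +
          (Ioi v0).indicator (fun v => C3 * exp (-(A / δ - 3 / 10) * v)) v)) := by
    refine integral_mono_of_nonneg (Filter.Eventually.of_forall hg0)
      ((hg1.add (hG.integrableOn.add hE.integrableOn)).const_mul C) ?_
    filter_upwards [ae_restrict_mem measurableSet_Ioi] with v hv
    rw [mem_Ioi] at hv
    refine (hg v hv.le).trans (mul_le_mul_of_nonneg_left ?_ hC0)
    have k1 : 0 ≤ exp (-(c0 / δ - 3 / 10) * v) := (exp_pos _).le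
    have k2 := hG0 v
    have k3 := hE0 v
    rcases le_or_gt v (v0 - π / 2) with hv1 | hv1
    · have k4 : exp (3 / 10 * v - H v / δ) ≤ exp (-(c0 / δ - 3 / 10) * v) := by
        refine exp_le_exp.2 ?_
        have k5 : c0 / δ * v ≤ H v / δ := by
          rw [div_mul_eq_mul_div]
          exact div_le_div_of_nonneg_right (h1 v hv.le hv1) hδ.le
        linarith only [k5]
      linarith only [k2, k3, k4]
    · rcases le_or_gt v v0 with hv2 | hv2
      · have k4 : exp (3 / 10 * v - H v / δ) ≤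
            C2 * exp (-(c / δ) * (v + (A / (2 * c) - v0)) ^ (2 : ℕ)) := by
          rw [hC2, ← exp_add, ← exp_add]
          refine exp_le_exp.2 ?_
          have k5 : (f - A * (v0 - v) + c * (v0 - v) ^ (2 : ℕ)) / δ ≤ H v / δ :=
            div_le_div_of_nonneg_right (h2 v hv1.le hv2) hδ.le
          have k6 : (f - A * (v0 - v) + c * (v0 - v) ^ (2 : ℕ)) / δ =
              (f - A ^ (2 : ℕ) / (4 * c)) / δ + c / δ * (v + (A / (2 * c) - v0)) ^ (2 : ℕ) := by
            field_simp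
            ring
          rw [k6] at k5
          linarith only [hv0, hv2, k5]
        linarith only [k1, k3, k4]
      · have k4 : exp (3 / 10 * v - H v / δ) ≤
            (Ioi v0).indicator (fun v => C3 * exp (-(A / δ - 3 / 10) * v)) v := by
          rw [indicator_of_mem (mem_Ioi.2 hv2)]
          rw [hC3, ← exp_add, ← exp_add, ← exp_add]
          refine exp_le_exp.2 ?_
          have k5 : (f + A * (v - v0)) / δ ≤ H v / δ :=
            div_le_div_of_nonneg_right (h3 v hv2.le) hδ.le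
          have k6 : (f + A * (v - v0)) / δ = f / δ + A / δ * (v - v0) := by
            field_simp
          rw [k6] at k5
          linarith only [hv0, k5]
        linarith only [k1, k2, k4]
  refine hdom.trans ?_
  rw [integral_const_mul]
  refine mul_le_mul_of_nonneg_left ?_ hC0
  have hsplit : ∫ v in Ioi (3 / 2 : ℝ), (exp (-(c0 / δ - 3 / 10) * v) +
        (C2 * exp (-(c / δ) * (v + (A / (2 * c) - v0)) ^ (2 : ℕ)) +
          (Ioi v0).indicator (fun v => C3 * exp (-(A / δ - 3 / 10) * v)) v)) =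
      (∫ v in Ioi (3 / 2 : ℝ), exp (-(c0 / δ - 3 / 10) * v)) +
        ((∫ v in Ioi (3 / 2 : ℝ), C2 * exp (-(c / δ) * (v + (A / (2 * c) - v0)) ^ (2 : ℕ))) +
          ∫ v in Ioi (3 / 2 : ℝ),
            (Ioi v0).indicator (fun v => C3 * exp (-(A / δ - 3 / 10) * v)) v) := by
    refine (integral_add hg1 (hG.integrableOn.add hE.integrableOn)).trans ?_
    congr 1
    exact integral_add hG.integrableOn hE.integrableOn
  rw [hsplit, hg1']
  have k1 : ∫ v in Ioi (3 / 2 : ℝ), C2 * exp (-(c / δ) * (v + (A / (2 * c) - v0)) ^ (2 : ℕ)) ≤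
      C2 * √(π * δ / c) := by
    rw [← hG']
    exact setIntegral_le_integral hG (Filter.Eventually.of_forall hG0)
  have k2 : ∫ v in Ioi (3 / 2 : ℝ), (Ioi v0).indicator
      (fun v => C3 * exp (-(A / δ - 3 / 10) * v)) v ≤
      exp (3 / 5 * π) * (exp (-(f / δ)) / (A / δ - 3 / 10)) := by
    rw [← hE']
    exact setIntegral_le_integral hE (Filter.Eventually.of_forall hE0)
  have k3 : exp (3 / 5 * π) * (exp (-((f - A ^ (2 : ℕ) / (4 * c)) / δ)) * √(π * δ / c) +
        exp (-(f / δ)) / (A / δ - 3 / 10)) =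
      C2 * √(π * δ / c) +
      exp (3 / 5 * π) * (exp (-(f / δ)) / (A / δ - 3 / 10)) := by
    rw [hC2]
    ring
  rw [k3]
  linarith only [k1, k2]


end SokamF1B

end

/-! ### Lib_MP_af4de1_f1.PtcE -/

section
namespace SokamF1
end SokamF1
namespace SokamF1M
end SokamF1M
/-!
# Tails on `DD`: weights and numbers
-/

set_option autoImplicit false

namespace SokamF1B

open MeasureTheory Set Real SokamF1 SokamF1M

/-! ### The weights -/

private theorem pte_exp {u : ℝ} (h : 0 ≤ u) :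
    1 + u + u ^ (2 : ℕ) / 2 + u ^ (3 : ℕ) / 6 + u ^ (4 : ℕ) / 24 + u ^ (5 : ℕ) / 120 ≤ exp u := by
  have := Real.sum_le_exp_of_nonneg h 6
  simp only [Finset.sum_range_succ, Finset.sum_range_zero, Nat.factorial] at this
  norm_num at this
  linarith only [this]

private theorem pte_e1 {s : ℝ} (h : 3 / 2 ≤ s) :
    (s + 1 / 3) * (s + 15 / 4) ≤ 11 * exp (3 / 10 * s) := by
  have h1 := pte_exp (u := 3 / 10 * s) (by linarith only [h])
  have h2 : (s + 1 / 3) * (s + 15 / 4) ≤ 11 * (1 + 3 / 10 * s + (3 / 10 * s) ^ (2 : ℕ) / 2 +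
      (3 / 10 * s) ^ (3 : ℕ) / 6 + (3 / 10 * s) ^ (4 : ℕ) / 24 + (3 / 10 * s) ^ (5 : ℕ) / 120) := by
    nlinarith only [mul_nonneg (by linarith : 0 ≤ s) (sq_nonneg (s * (s - 5)))]
  linarith only [h1, h2]

private theorem pte_e2 {s : ℝ} (h : 3 / 2 ≤ s) :
    (s + 1 / 3) * (s + 4 / 3) ≤ 8 * exp (3 / 10 * s) := by
  have h1 := pte_exp (u := 3 / 10 * s) (by linarith only [h])
  have h2 : (s + 1 / 3) * (s + 4 / 3) ≤ 8 * (1 + 3 / 10 * s + (3 / 10 * s) ^ (2 : ℕ) / 2 +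
      (3 / 10 * s) ^ (3 : ℕ) / 6 + (3 / 10 * s) ^ (4 : ℕ) / 24 + (3 / 10 * s) ^ (5 : ℕ) / 120) := by
    nlinarith only [mul_nonneg (by linarith : 0 ≤ s) (sq_nonneg (s * (s - 5))), mul_nonneg (by linarith : 0 ≤ s) (sq_nonneg (s ^ (2 : ℕ) - 25))]
  linarith only [h1, h2]

/-- A weight which is small enough on the tails. -/
structure WtC (w : ℂ → ℂ) : Prop where
  R : ∀ a s : ℝ, 0 ≤ a → a ≤ 1 → 3 / 2 ≤ s → ‖w (a + s * Complex.I)‖ ≤ 11 * exp (3 / 10 * s)
  L : ∀ a s : ℝ, -1 ≤ a → a ≤ 0 → 3 / 2 ≤ s →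
    ‖w (a + (-s : ℝ) * Complex.I)‖ ≤ 8 * exp (3 / 10 * s)

private theorem pte_norm {a s b : ℝ} (hb : 0 ≤ b) (h : a ^ (2 : ℕ) + s ^ (2 : ℕ) ≤ b ^ (2 : ℕ)) :
    ‖(a + s * Complex.I : ℂ)‖ ≤ b := by
  rw [norm_K]
  exact Real.sqrt_le_iff.2 ⟨hb, h⟩

private theorem pte_gs (a s : ℝ) {b E : ℝ} (hE : exp a ≤ E) (hb : 0 ≤ b)
    (h : (1 + a) ^ (2 : ℕ) + s ^ (2 : ℕ) ≤ b ^ (2 : ℕ)) : ‖gs (a + s * Complex.I)‖ ≤ E + b := by
  unfold gs
  have h1 : ‖Complex.exp (a + s * Complex.I)‖ = exp a := by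
    rw [Complex.norm_exp]
    simp
  have h2 : ‖((1 + a : ℝ) + s * Complex.I : ℂ)‖ ≤ b := pte_norm hb h
  have e : Complex.exp (a + s * Complex.I) - 1 - (a + s * Complex.I) =
      Complex.exp (a + s * Complex.I) - ((1 + a : ℝ) + s * Complex.I) := by
    push_cast
    ring
  rw [e]
  refine (norm_sub_le _ _).trans ?_
  rw [h1]
  linarith only [hE, h2]

theorem wtC_one : WtC (fun _ => 1) := by
  constructor
  · intro a s _ _ hs
    have := pte_exp (u := 3 / 10 * s) (by linarith only [hs])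
    simp only [norm_one]
    have h1 : 1 ≤ exp (3 / 10 * s) := Real.one_le_exp (by linarith only [hs])
    linarith only [h1]
  · intro a s _ _ hs
    simp only [norm_one]
    have h1 : 1 ≤ exp (3 / 10 * s) := Real.one_le_exp (by linarith)
    linarith only [h1]

private theorem pte_gR {a s : ℝ} (h0 : 0 ≤ a) (h1 : a ≤ 1) (hs : 3 / 2 ≤ s) :
    ‖gs (a + s * Complex.I)‖ ≤ s + 15 / 4 ∧ ‖(a + s * Complex.I : ℂ)‖ ≤ s + 1 / 3 := by
  constructor
  · have hE : exp a ≤ 2.7182818286 :=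
      (exp_le_exp.2 h1).trans Real.exp_one_lt_d9.le
    refine (pte_gs a s hE (b := s + 1) (by linarith only [hs]) (by nlinarith only [h0, h1, hs])).trans ?_
    norm_num
    linarith only []
  · exact pte_norm (by linarith only [hs]) (by nlinarith only [h0, h1, hs])

private theorem pte_gL {a s : ℝ} (h0 : -1 ≤ a) (h1 : a ≤ 0) (hs : 3 / 2 ≤ s) :
    ‖gs (a + (-s : ℝ) * Complex.I)‖ ≤ s + 4 / 3 ∧
      ‖(a + (-s : ℝ) * Complex.I : ℂ)‖ ≤ s + 1 / 3 := by
  constructor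
  · have hE : exp a ≤ 1 := Real.exp_le_one_iff.2 h1
    refine (pte_gs a (-s) hE (b := s + 1 / 3) (by linarith only [hs]) (by nlinarith only [h0, h1, hs])).trans ?_
    linarith only []
  · exact pte_norm (by linarith only [hs]) (by nlinarith only [h0, h1, hs])

theorem wtC_gs : WtC gs := by
  constructor
  · intro a s h0 h1 hs
    have k1 := (pte_gR h0 h1 hs).1
    have k2 := pte_e1 hs
    nlinarith only [hs, k1, k2]
  · intro a s h0 h1 hs
    have k1 := (pte_gL h0 h1 hs).1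
    have k2 := pte_e2 hs
    nlinarith only [hs, k1, k2]

theorem wtC_sgs : WtC (fun σ => σ * gs σ) := by
  constructor
  · intro a s h0 h1 hs
    obtain ⟨k1, k2⟩ := pte_gR h0 h1 hs
    have k3 := pte_e1 hs
    simp only [norm_mul]
    refine le_trans ?_ k3
    gcongr
  · intro a s h0 h1 hs
    obtain ⟨k1, k2⟩ := pte_gL h0 h1 hs
    have k3 := pte_e2 hs
    simp only [norm_mul]
    refine le_trans ?_ k3
    gcongr

/-! ### Splitting -/

theorem pte_split {f : ℝ → ℝ} (h0 : ∀ s, 0 ≤ f s) {A B : ℝ}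
    (hA : ∫ v in Ioi (3 / 2 : ℝ), f v ≤ A) (hB : ∫ v in Ioi (3 / 2 : ℝ), f (-v) ≤ B) :
    ∫ s in {s : ℝ | 3 / 2 ≤ |s|}, f s ≤ A + B := by
  have hA0 : 0 ≤ A := (integral_nonneg h0).trans hA
  have hB0 : 0 ≤ B := (integral_nonneg (fun v => h0 (-v))).trans hB
  by_cases hI : IntegrableOn f {s : ℝ | 3 / 2 ≤ |s|}
  · have e : {s : ℝ | 3 / 2 ≤ |s|} = Iic (-(3 / 2)) ∪ Ici (3 / 2) := by
      ext s
      simp only [mem_setOf_eq, mem_union, mem_Iic, mem_Ici, le_abs]
      constructor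
      · rintro (h | h)
        · exact Or.inr h
        · exact Or.inl (by linarith only [h])
      · rintro (h | h)
        · exact Or.inr (by linarith only [h])
        · exact Or.inl h
    rw [e] at hI ⊢
    have hd : Disjoint (Iic (-(3 / 2 : ℝ))) (Ici (3 / 2)) := by
      rw [Set.disjoint_left]
      intro s h1 h2
      rw [mem_Iic] at h1
      rw [mem_Ici] at h2
      linarith only [h1, h2]
    rw [setIntegral_union hd measurableSet_Ici (hI.mono_set subset_union_left)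
      (hI.mono_set subset_union_right), integral_Ici_eq_integral_Ioi,
      ← integral_comp_neg_Ioi (3 / 2) f]
    linarith
  · rw [integral_undef hI]
    linarith only [hA0, hB0]

/-! ### Numbers -/

theorem pte_decay {h δ δ0 : ℝ} (hδ : 0 < δ) (hδ0 : δ ≤ δ0) (hh : 2 * δ0 ≤ h) :
    exp (-(h / δ)) ≤ exp (-(h / δ0)) * (δ / δ0) ^ (2 : ℕ) := by
  have h0 : 0 < δ0 := hδ.trans_le hδ0
  obtain ⟨t, ht⟩ : ∃ t, t = δ0 / δ := ⟨_, rfl⟩
  have ht1 : 1 ≤ t := by rw [ht, one_le_div hδ]; exact hδ0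
  have e1 : δ / δ0 = t⁻¹ := by rw [ht, inv_div]
  have e2 : h / δ = h / δ0 * t := by rw [ht]; field_simp
  have h2 : 2 ≤ h / δ0 := by rw [le_div_iff₀ h0]; exact hh
  have h3 : t ^ (2 : ℕ) ≤ exp (h / δ0 * (t - 1)) := by
    have k1 : t ≤ exp (t - 1) := by
      have := Real.add_one_le_exp (t - 1)
      linarith only [this]
    have k2 : t ^ (2 : ℕ) ≤ exp (t - 1) ^ (2 : ℕ) := pow_le_pow_left₀ (by linarith only [ht1]) k1 2
    refine k2.trans ?_
    rw [← Real.exp_nat_mul]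
    refine exp_le_exp.2 ?_
    push_cast
    nlinarith only [ht1, h2]
  rw [e1, e2]
  have e3 : exp (-(h / δ0 * t)) = exp (-(h / δ0)) * (exp (h / δ0 * (t - 1)))⁻¹ := by
    rw [← Real.exp_neg, ← Real.exp_add]
    congr 1
    ring
  rw [e3, inv_pow]
  have h4 : 0 < t ^ (2 : ℕ) := by positivity
  exact mul_le_mul_of_nonneg_left (inv_anti₀ h4 h3) (exp_pos _).le

/-- the same, in terms of `q = √δ` -/
theorem pte_decay' {h δ E N : ℝ} (hδ : 0 < δ) (hδ0 : δ ≤ 173 / 4990) (hh : 7 / 100 ≤ h)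
    (hN : N ≤ h * (4990 / 173)) (hE : exp (-N) ≤ E) :
    exp (-(h / δ)) ≤ 832 * E * √δ ^ (4 : ℕ) := by
  have h1 := pte_decay (h := h) hδ hδ0 (by linarith only [hh])
  refine h1.trans ?_
  have h2 : exp (-(h / (173 / 4990))) ≤ E := by
    refine le_trans (exp_le_exp.2 ?_) hE
    have : h / (173 / 4990) = h * (4990 / 173) := by ring
    linarith only [hN]
  have hE0 : 0 ≤ E := (exp_pos _).le.trans hE
  have h3 : (δ / (173 / 4990)) ^ (2 : ℕ) ≤ 832 * √δ ^ (4 : ℕ) := by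
    have e : √δ ^ (4 : ℕ) = δ ^ (2 : ℕ) := by
      have : √δ ^ (4 : ℕ) = (√δ ^ (2 : ℕ)) ^ (2 : ℕ) := by ring
      rw [this, Real.sq_sqrt hδ.le]
    rw [e]
    nlinarith only []
  calc exp (-(h / (173 / 4990))) * (δ / (173 / 4990)) ^ (2 : ℕ) ≤ E * (832 * √δ ^ (4 : ℕ)) := by gcongr
    _ = _ := by ring

theorem pte_sqrt {δ : ℝ} (hδ0 : δ ≤ 173 / 4990) : √δ ≤ 1863 / 10000 := by
  refine Real.sqrt_le_iff.2 ⟨by norm_num, hδ0.trans (by norm_num)⟩

private theorem pte_e920 : exp (9 / 20) ≤ 157 / 100 := by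
  have h : exp (9 / 20) ^ (20 : ℕ) = exp 1 ^ (9 : ℕ) := by
    rw [← Real.exp_nat_mul, ← Real.exp_nat_mul]
    norm_num
  refine (pow_le_pow_iff_left₀ (exp_pos _).le (by norm_num) (by norm_num : (20 : ℕ) ≠ 0)).1 ?_
  rw [h]
  refine (pow_le_pow_left₀ (exp_pos _).le Real.exp_one_lt_d9.le 9).trans ?_
  norm_num

private theorem pte_e35 : exp (3 / 5 * π) ≤ 67 / 10 := by
  have h0 : exp (3 / 5 * π) ≤ exp (19 / 10) := by
    refine exp_le_exp.2 ?_
    have := Real.pi_lt_d4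
    norm_num at this
    linarith only [this]
  refine h0.trans ?_
  have h : exp (19 / 10) ^ (10 : ℕ) = exp 1 ^ (19 : ℕ) := by
    rw [← Real.exp_nat_mul, ← Real.exp_nat_mul]
    norm_num
  refine (pow_le_pow_iff_left₀ (exp_pos _).le (by norm_num) (by norm_num : (10 : ℕ) ≠ 0)).1 ?_
  rw [h]
  refine (pow_le_pow_left₀ (exp_pos _).le Real.exp_one_lt_d9.le 19).trans ?_
  norm_num

/-- the crude part -/
theorem pte_crude {δ c0 E N K : ℝ} (hδ : 0 < δ) (hδ0 : δ ≤ 173 / 4990) (hc : 1 / 5 ≤ c0)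
    (hN : N ≤ 3 / 2 * c0 * (4990 / 173)) (hE : exp (-N) ≤ E)
    (hK : 157 / 100 * E * (538 / 100) ≤ K * (c0 - 105 / 10000)) :
    exp (-(3 / 2 * (c0 / δ - 3 / 10))) / (c0 / δ - 3 / 10) ≤ K * √δ ^ (3 : ℕ) := by
  have hq := pte_sqrt hδ0
  have hq0 : 0 < √δ := Real.sqrt_pos.2 hδ
  have hE0 : 0 ≤ E := (exp_pos _).le.trans hE
  have hc1 : 0 < c0 - 105 / 10000 := by linarith only [hc]
  have h1 : exp (-(3 / 2 * (c0 / δ - 3 / 10))) ≤ 157 / 100 * (832 * E * √δ ^ (4 : ℕ)) := by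
    have e : -(3 / 2 * (c0 / δ - 3 / 10)) = 9 / 20 + -(3 / 2 * c0 / δ) := by ring
    rw [e, Real.exp_add]
    have k := pte_decay' (h := 3 / 2 * c0) hδ hδ0 (by linarith only [hc]) hN hE
    have k2 := pte_e920
    gcongr
  have h2 : (c0 - 105 / 10000) / √δ ^ (2 : ℕ) ≤ c0 / δ - 3 / 10 := by
    rw [Real.sq_sqrt hδ.le]
    have e : c0 / δ - 3 / 10 = (c0 - 3 / 10 * δ) / δ := by field_simp
    rw [e]
    refine div_le_div_of_nonneg_right ?_ hδ.le
    linarith only [hδ0]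
  have h3 : 0 < (c0 - 105 / 10000) / √δ ^ (2 : ℕ) := by positivity
  calc exp (-(3 / 2 * (c0 / δ - 3 / 10))) / (c0 / δ - 3 / 10)
      ≤ 157 / 100 * (832 * E * √δ ^ (4 : ℕ)) / ((c0 - 105 / 10000) / √δ ^ (2 : ℕ)) := by gcongr
    _ = 157 / 100 * E * (832 * √δ ^ (3 : ℕ)) / (c0 - 105 / 10000) * √δ ^ (3 : ℕ) := by
        field_simp
    _ ≤ 157 / 100 * E * (538 / 100) / (c0 - 105 / 10000) * √δ ^ (3 : ℕ) := by
        have : √δ ^ (3 : ℕ) ≤ (1863 / 10000) ^ (3 : ℕ) := pow_le_pow_left₀ hq0.le hq 3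
        have h832 : 832 * √δ ^ (3 : ℕ) ≤ 538 / 100 := by
          norm_num at this ⊢
          linarith only [this]
        gcongr
    _ ≤ K * √δ ^ (3 : ℕ) := by
        refine mul_le_mul_of_nonneg_right ?_ (by positivity)
        rw [div_le_iff₀ hc1]
        exact hK

/-- the lump -/
theorem pte_lump {δ f A c A0 g E N cq K : ℝ} (hδ : 0 < δ) (hδ0 : δ ≤ 173 / 4990)
    (hg : g ≤ f - A ^ (2 : ℕ) / (4 * c)) (hg0 : 7 / 100 ≤ g) (hc : 0 < c) (hA0 : 1 / 5 ≤ A0) (hA : A0 ≤ A)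
    (hN : N ≤ g * (4990 / 173)) (hE : exp (-N) ≤ E) (hcq0 : 0 ≤ cq) (hcq : π ≤ cq ^ (2 : ℕ) * c)
    (hK : 67 / 10 * 832 * E * (cq * (3471 / 100000) * (A0 - 105 / 10000) + 6467 / 1000000) ≤
      K * (A0 - 105 / 10000)) :
    exp (3 / 5 * π) * (exp (-((f - A ^ (2 : ℕ) / (4 * c)) / δ)) * √(π * δ / c) +
        exp (-(f / δ)) / (A / δ - 3 / 10)) ≤ K * √δ ^ (3 : ℕ) := by
  have hq := pte_sqrt hδ0
  have hq0 : 0 < √δ := Real.sqrt_pos.2 hδ
  have hE0 : 0 ≤ E := (exp_pos _).le.trans hE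
  have hc1 : 0 < A0 - 105 / 10000 := by linarith only [hA0]
  have hd := pte_decay' hδ hδ0 hg0 hN hE
  have h1 : exp (-((f - A ^ (2 : ℕ) / (4 * c)) / δ)) ≤ 832 * E * √δ ^ (4 : ℕ) := by
    refine le_trans (exp_le_exp.2 (neg_le_neg ?_)) hd
    exact div_le_div_of_nonneg_right hg hδ.le
  have h2 : exp (-(f / δ)) ≤ 832 * E * √δ ^ (4 : ℕ) := by
    refine le_trans (exp_le_exp.2 (neg_le_neg ?_)) hd
    have : 0 ≤ A ^ (2 : ℕ) / (4 * c) := by positivity
    exact div_le_div_of_nonneg_right (by linarith only [hg, this]) hδ.le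
  have h3 : √(π * δ / c) ≤ cq * √δ := by
    refine Real.sqrt_le_iff.2 ⟨by positivity, ?_⟩
    rw [mul_pow, Real.sq_sqrt hδ.le, div_le_iff₀ hc]
    nlinarith only [hδ, hcq]
  have h4 : (A0 - 105 / 10000) / √δ ^ (2 : ℕ) ≤ A / δ - 3 / 10 := by
    rw [Real.sq_sqrt hδ.le]
    have e : A / δ - 3 / 10 = (A - 3 / 10 * δ) / δ := by field_simp
    rw [e]
    refine div_le_div_of_nonneg_right ?_ hδ.le
    linarith only [hδ0, hA]
  have h5 : 0 < (A0 - 105 / 10000) / √δ ^ (2 : ℕ) := by positivity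
  have h6 := pte_e35
  have hp2 : √δ ^ (2 : ℕ) ≤ 3471 / 100000 := by
    refine (pow_le_pow_left₀ hq0.le hq 2).trans ?_
    norm_num
  have hp3 : √δ ^ (3 : ℕ) ≤ 6467 / 1000000 := by
    refine (pow_le_pow_left₀ hq0.le hq 3).trans ?_
    norm_num
  have h7 : 0 ≤ exp (-((f - A ^ (2 : ℕ) / (4 * c)) / δ)) * √(π * δ / c) +
      exp (-(f / δ)) / (A / δ - 3 / 10) :=
    add_nonneg (by positivity) (div_nonneg (exp_pos _).le (h5.le.trans h4))
  obtain ⟨B, hB⟩ : ∃ B, B = A0 - 105 / 10000 := ⟨_, rfl⟩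
  rw [← hB] at hc1 h4 h5 hK
  calc exp (3 / 5 * π) * (exp (-((f - A ^ (2 : ℕ) / (4 * c)) / δ)) * √(π * δ / c) +
        exp (-(f / δ)) / (A / δ - 3 / 10))
      ≤ 67 / 10 * (832 * E * √δ ^ (4 : ℕ) * (cq * √δ) +
        832 * E * √δ ^ (4 : ℕ) / (B / √δ ^ (2 : ℕ))) := by gcongr
    _ = 67 / 10 * 832 * E * (cq * √δ ^ (2 : ℕ) + √δ ^ (3 : ℕ) / B) * √δ ^ (3 : ℕ) := by
        field_simp
    _ ≤ 67 / 10 * 832 * E * (cq * (3471 / 100000) + 6467 / 1000000 / B) *
        √δ ^ (3 : ℕ) := by gcongr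
    _ ≤ K * √δ ^ (3 : ℕ) := by
        refine mul_le_mul_of_nonneg_right ?_ (by positivity)
        have e : 67 / 10 * 832 * E * (cq * (3471 / 100000) + 6467 / 1000000 / B) =
          67 / 10 * 832 * E * (cq * (3471 / 100000) * B + 6467 / 1000000) / B := by
          field_simp
        rw [e, div_le_iff₀ hc1]
        exact hK

end SokamF1B

end

/-! ### Lib_MP_af4de1_f1.PtcF -/

section
namespace SokamF1
end SokamF1
namespace SokamF1B
end SokamF1B
namespace SokamF1G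
end SokamF1G
namespace SokamF1M
end SokamF1M
namespace SokamF1S
end SokamF1S
namespace SokamPG
end SokamPG
namespace SokamU
end SokamU
namespace SokamV3
end SokamV3
/-!
# The own wave on the domain `DD` (regime C)
-/

set_option autoImplicit false

open Complex MeasureTheory Set SokamU SokamPG SokamF1 SokamF1S SokamF1M SokamF1G SokamF1B

namespace SokamF1T

open SokamV3

theorem polarC {ρ y : ℝ} (h : Dom ρ y) :
    ρ * Real.exp (-y) * Real.cos (sP ρ y) = sx ρ y ∧ ρ * Real.exp (-y) * Real.sin (sP ρ y) = y := by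
  have hρ := h.1
  have e : Real.exp (-y) * Real.exp y = 1 := by rw [← Real.exp_add]; simp
  constructor
  · rw [h.cos]
    calc ρ * Real.exp (-y) * (sx ρ y * Real.exp y / ρ)
        = sx ρ y * (Real.exp (-y) * Real.exp y) * (ρ / ρ) := by ring
      _ = sx ρ y := by rw [e, div_self hρ.ne', mul_one, mul_one]
  · rw [h.sin]
    calc ρ * Real.exp (-y) * (y * Real.exp y / ρ)
        = y * (Real.exp (-y) * Real.exp y) * (ρ / ρ) := by ring
      _ = y := by rw [e, div_self hρ.ne', mul_one, mul_one]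

theorem ga_Icc {x s : ℝ} (hx : 0 ≤ x) (hs : 0 ≤ s) : 0 ≤ ga x s ∧ ga x s ≤ 1 := by
  unfold ga
  have h : 0 ≤ s / (1 + x) := by positivity
  exact ⟨le_max_of_le_right (le_min (by norm_num) h), max_le (by norm_num) (min_le_left _ _)⟩

theorem ga_Icc_neg {x s : ℝ} (hx : 0 ≤ x) (hs : 0 ≤ s) : -1 ≤ ga x (-s) ∧ ga x (-s) ≤ 0 := by
  unfold ga
  have h : -s / (1 + x) ≤ 0 := div_nonpos_of_nonpos_of_nonneg (by linarith only [hs]) (by linarith only [hx])
  exact ⟨le_max_left _ _, max_le (by norm_num) ((min_le_right _ _).trans h)⟩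

theorem pz_eq_ga {x : ℝ} (hx : 0 ≤ x) (s : ℝ) :
    pz (1 + x)⁻¹ (1 + x) s = ((ga x s : ℝ) : ℂ) + s * I := by
  unfold pz
  rw [pc_eq hx]

/-- pointwise bound on the right half line -/
theorem giC_R {x y δ : ℝ} (hx : 0 ≤ x) (hδ : 0 < δ) {w : ℂ → ℂ} (hw : WtC w) {v : ℝ}
    (hv : 3 / 2 ≤ v) :
    ‖gi (1 + x)⁻¹ (1 + x) w (((x : ℂ) + y * I) / δ) 0 (-((δ : ℂ) * I)) v‖ ≤
      1556 / 100 * Real.exp (3 / 10 * v - Hf x y v / δ) := by
  obtain ⟨a0, a1⟩ := ga_Icc hx (by linarith : 0 ≤ v)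
  have h := pz_eq_ga hx v
  refine (norm_gi_le' hx hδ w v (A := 11 * Real.exp (3 / 10 * v)) (m := Hf x y v / δ) ?_ le_rfl).trans ?_
  · rw [h]
    exact hw.R _ _ a0 a1 hv
  · have hW := Wc_le hx
    have e : Real.exp (3 / 10 * v - Hf x y v / δ) =
        Real.exp (3 / 10 * v) * Real.exp (-(Hf x y v / δ)) := by
      rw [← Real.exp_add]
      congr 1
    rw [e]
    have h0 : 0 < Real.exp (3 / 10 * v) * Real.exp (-(Hf x y v / δ)) := by positivity
    have e2 : Wc x * (11 * Real.exp (3 / 10 * v) * Real.exp (-(Hf x y v / δ))) =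
        Wc x * 11 * (Real.exp (3 / 10 * v) * Real.exp (-(Hf x y v / δ))) := by ring
    rw [e2]
    refine mul_le_mul_of_nonneg_right ?_ h0.le
    linarith only [hW]

/-- pointwise bound on the left half line -/
theorem giC_L {x y δ : ℝ} (hx : 0 ≤ x) (hδ : 0 < δ) {w : ℂ → ℂ} (hw : WtC w) {v : ℝ}
    (hv : 3 / 2 ≤ v) :
    ‖gi (1 + x)⁻¹ (1 + x) w (((x : ℂ) + y * I) / δ) 0 (-((δ : ℂ) * I)) (-v)‖ ≤
      1132 / 100 * Real.exp (3 / 10 * v - Hf x y (-v) / δ) := by
  obtain ⟨a0, a1⟩ := ga_Icc_neg hx (by linarith : 0 ≤ v)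
  have h := pz_eq_ga hx (-v)
  refine (norm_gi_le' hx hδ w (-v) (A := 8 * Real.exp (3 / 10 * v)) (m := Hf x y (-v) / δ)
    ?_ le_rfl).trans ?_
  · rw [h]
    exact hw.L _ _ a0 a1 hv
  · have hW := Wc_le hx
    have e : Real.exp (3 / 10 * v - Hf x y (-v) / δ) =
        Real.exp (3 / 10 * v) * Real.exp (-(Hf x y (-v) / δ)) := by
      rw [← Real.exp_add]
      congr 1
    rw [e]
    have h0 : 0 < Real.exp (3 / 10 * v) * Real.exp (-(Hf x y (-v) / δ)) := by positivity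
    have e2 : Wc x * (8 * Real.exp (3 / 10 * v) * Real.exp (-(Hf x y (-v) / δ))) =
        Wc x * 8 * (Real.exp (3 / 10 * v) * Real.exp (-(Hf x y (-v) / δ))) := by ring
    rw [e2]
    refine mul_le_mul_of_nonneg_right ?_ h0.le
    linarith only [hW]

/-! ### Numbers -/

theorem e12 : Real.exp (-12) ≤ 62 / 10 ^ (7 : ℕ) := by
  have h : Real.exp (-12) = Real.exp (-1) ^ (12 : ℕ) := by
    rw [← Real.exp_nat_mul]
    norm_num
  rw [h]
  refine (pow_le_pow_left₀ (Real.exp_pos _).le Real.exp_neg_one_lt_d9.le 12).trans ?_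
  norm_num

theorem e995 : Real.exp (-(995 / 100)) ≤ 48 / 10 ^ (6 : ℕ) := by
  have h : Real.exp (-(995 / 100)) = Real.exp (-1) ^ (10 : ℕ) * Real.exp (1 / 20) := by
    rw [← Real.exp_nat_mul, ← Real.exp_add]
    norm_num
  have h1 : Real.exp (1 / 20) ≤ 1 / (1 - 1 / 20) :=
    Real.exp_bound_div_one_sub_of_interval (by norm_num) (by norm_num)
  rw [h]
  have h2 := pow_le_pow_left₀ (Real.exp_pos _).le Real.exp_neg_one_lt_d9.le 10
  refine (mul_le_mul h2 h1 (Real.exp_pos _).le (by norm_num)).trans ?_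
  norm_num

theorem e865 : Real.exp (-(865 / 100)) ≤ 19 / 10 ^ (5 : ℕ) := by
  have h : Real.exp (-(865 / 100)) = Real.exp (-1) ^ (9 : ℕ) * Real.exp (7 / 20) := by
    rw [← Real.exp_nat_mul, ← Real.exp_add]
    norm_num
  have h1 : Real.exp (7 / 20) ≤ 1 / (1 - 7 / 20) :=
    Real.exp_bound_div_one_sub_of_interval (by norm_num) (by norm_num)
  rw [h]
  have h2 := pow_le_pow_left₀ (Real.exp_pos _).le Real.exp_neg_one_lt_d9.le 9
  refine (mul_le_mul h2 h1 (Real.exp_pos _).le (by norm_num)).trans ?_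
  norm_num

section

variable {r δ y : ℝ} {w : ℂ → ℂ}

theorem tlC_R_pos (hδ : 0 < δ) (hδ0 : δ ≤ 173 / 4990) (hrho : r * δ ≤ 173 / 100)
    (hD : DD (r * δ) y) (hy : 0 ≤ y) (hw : WtC w) :
    ∫ v in Ioi (3 / 2 : ℝ), ‖gi (1 + sx (r * δ) y)⁻¹ (1 + sx (r * δ) y) w
      (sK (r * δ) y / δ) 0 (-((δ : ℂ) * I)) v‖ ≤ 1556 / 100 * (359 / 10000 * √δ ^ (3 : ℕ)) := by
  obtain ⟨ρ, hρe⟩ : ∃ ρ, ρ = r * δ := ⟨_, rfl⟩
  rw [← hρe] at hD hrho ⊢
  obtain ⟨pc, ps⟩ := polarC hD.dom
  have hx := sx_nonneg ρ y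
  have hρ := hD.dom.1
  obtain ⟨k, hk⟩ : ∃ k, k = ρ * Real.exp (-y) := ⟨_, rfl⟩
  obtain ⟨ψ, hψ⟩ : ∃ ψ, ψ = sP ρ y := ⟨_, rfl⟩
  rw [← hk, ← hψ] at pc ps
  have hk0 : 0 ≤ k := by rw [hk]; positivity
  have hexp : Real.exp (-y) ≤ 1 := Real.exp_le_one_iff.2 (by linarith only [hy])
  have hk1 : k ≤ 173 / 100 := by
    rw [hk]
    have : ρ * Real.exp (-y) ≤ ρ * 1 := mul_le_mul_of_nonneg_left hexp hρ.le
    linarith only [hrho, this]
  have hψ0 : 0 ≤ ψ := by rw [hψ]; exact sP_nonneg hρ hy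
  have hψ1 : ψ ≤ Real.pi / 2 := by
    have := sP_abs_le ρ y
    rw [← hψ] at this
    exact (abs_le.1 this).2
  have hπ := Real.pi_pos
  have hπl : (3.1415 : ℝ) < Real.pi := Real.pi_gt_d4
  have hy1 : k * Real.sin ψ ≤ 18 / 25 := by rw [ps]; exact hD.y1
  have hg : ∀ v : ℝ, 3 / 2 ≤ v → ‖gi (1 + sx ρ y)⁻¹ (1 + sx ρ y) w
      (sK ρ y / δ) 0 (-((δ : ℂ) * I)) v‖ ≤
        1556 / 100 * Real.exp (3 / 10 * v - Hf (sx ρ y) y v / δ) := fun v hv => giC_R hx hδ hw hv
  have hq3 : 0 ≤ √δ ^ (3 : ℕ) := by positivity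
  have hcr := pte_crude (c0 := 7 / 25) (E := 62 / 10 ^ (7 : ℕ)) (N := 12) (K := 2 / 10000) hδ hδ0
    (by norm_num) (by norm_num) e12 (by norm_num)
  rcases le_total (3 / 10) k with h3 | h3
  · have hl := ptc_lumpR h3 hψ0 hψ1 (by
      rw [ps, hk, mul_assoc, ← Real.exp_add]
      simpa using hrho) (by
      have h1 := (abs_le.1 hD.eta).2
      unfold sE at h1
      rw [ps, pc, hk, mul_assoc, ← Real.exp_add, hψ]
      simp only [neg_add_cancel, Real.exp_zero, mul_one]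
      exact h1) (by linarith only [hy1])
    have he1 : (2.7182818283 : ℝ) < Real.exp 1 := Real.exp_one_gt_d9
    have hc1 : 318 / 1000 ≤ 39 / 100 * (Real.exp 1 * k) := by nlinarith only [h3, he1]
    have key := ptc_int_lump' (H := Hf (sx ρ y) y) (C := 1556 / 100) (δ := δ) (c0 := 7 / 25)
      (v0 := 2 * Real.pi - ψ)
      (f := (1 - k * Real.sin ψ) * (2 * Real.pi - ψ) + 2 * (k * Real.cos ψ) - Real.exp 1 * k)
      (A := 1 - k * Real.sin ψ) (c := 39 / 100 * (Real.exp 1 * k)) (by norm_num)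
      (fun v => norm_nonneg _) hg hδ (by linarith only [hδ0]) (by linarith only [hδ0, hy1]) (by linarith only [hc1]) (by linarith only [hψ0])
      (by linarith only [hψ1, hπl])
      (fun v hv hv' => by
        have := ptc_Rpos hk0 hk1 hψ0 hψ1 hy1 hv (by linarith only [hv'])
        rwa [pc, ps] at this)
      (fun v hv hv' => by
        have h1 := ptc_Rpos_far hk0 hk1 hψ0 hψ1 (s := v) (by linarith only [hv])
        have h2 := ptc_cos_quad (u := 2 * Real.pi - ψ - v) (by linarith only [hv']) (by linarith only [hv])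
        have h4 : Real.cos (2 * Real.pi - ψ - v) = Real.cos (v + ψ) := by
          rw [show 2 * Real.pi - ψ - v = 2 * Real.pi - (v + ψ) by ring, Real.cos_two_pi_sub]
        rw [h4] at h2
        have h5 : Hf (sx ρ y) y v = (1 - k * Real.sin ψ) * v + 2 * (k * Real.cos ψ) -
            Real.exp 1 * k * Real.cos (v + ψ) := by
          rw [← h1, pc, ps]
        rw [h5]
        have h6 : 0 ≤ Real.exp 1 * k := by positivity
        have h7 := mul_le_mul_of_nonneg_left h2 h6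
        have e : (1 - k * Real.sin ψ) * (2 * Real.pi - ψ) + 2 * (k * Real.cos ψ) -
            Real.exp 1 * k - (1 - k * Real.sin ψ) * (2 * Real.pi - ψ - v) +
            39 / 100 * (Real.exp 1 * k) * (2 * Real.pi - ψ - v) ^ (2 : ℕ) =
          (1 - k * Real.sin ψ) * v + 2 * (k * Real.cos ψ) -
            Real.exp 1 * k * (1 - 39 / 100 * (2 * Real.pi - ψ - v) ^ (2 : ℕ)) := by ring
        rw [e]
        linarith only [h7])
      (fun v hv => by
        have h1 := ptc_Rpos_far hk0 hk1 hψ0 hψ1 (s := v) (by linarith only [hπl, hv])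
        have h5 : Hf (sx ρ y) y v = (1 - k * Real.sin ψ) * v + 2 * (k * Real.cos ψ) -
            Real.exp 1 * k * Real.cos (v + ψ) := by
          rw [← h1, pc, ps]
        rw [h5]
        have h6 : 0 ≤ Real.exp 1 * k := by positivity
        have h7 := mul_le_mul_of_nonneg_left (Real.cos_le_one (v + ψ)) h6
        have e : (1 - k * Real.sin ψ) * (2 * Real.pi - ψ) + 2 * (k * Real.cos ψ) -
            Real.exp 1 * k + (1 - k * Real.sin ψ) * (v - (2 * Real.pi - ψ)) =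
          (1 - k * Real.sin ψ) * v + 2 * (k * Real.cos ψ) - Real.exp 1 * k * 1 := by ring
        rw [e]
        linarith only [h7])
    refine key.trans (mul_le_mul_of_nonneg_left ?_ (by norm_num))
    have hlump := pte_lump (δ := δ) (A0 := 7 / 25) (g := 69 / 200) (E := 48 / 10 ^ (6 : ℕ))
      (N := 995 / 100) (cq := 3144 / 1000) (K := 357 / 10000)
      (f := (1 - k * Real.sin ψ) * (2 * Real.pi - ψ) + 2 * (k * Real.cos ψ) - Real.exp 1 * k)
      (A := 1 - k * Real.sin ψ) (c := 39 / 100 * (Real.exp 1 * k)) hδ hδ0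
      (by linarith only [hl]) (by norm_num) (by linarith only [hc1]) (by norm_num) (by linarith only [hy1]) (by norm_num) e995
      (by norm_num) (by
        have := Real.pi_lt_d4
        norm_num at this
        linarith only [hc1, this]) (by norm_num)
    linarith only [hcr, hlump]
  · have key := ptc_int_crude' (H := Hf (sx ρ y) y) (C := 1556 / 100) (δ := δ) (c0 := 7 / 25)
      (by norm_num) (fun v => norm_nonneg _) hg hδ (by linarith only [hδ0]) (fun v hv => by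
        rcases le_total (v + ψ) (3 * Real.pi / 2) with h | h
        · have := ptc_Rpos hk0 hk1 hψ0 hψ1 hy1 hv h
          rwa [pc, ps] at this
        · have h1 := ptc_Rpos_far hk0 hk1 hψ0 hψ1 (s := v) h
          have h5 : Hf (sx ρ y) y v = (1 - k * Real.sin ψ) * v + 2 * (k * Real.cos ψ) -
              Real.exp 1 * k * Real.cos (v + ψ) := by
            rw [← h1, pc, ps]
          rw [h5]
          have he1 : Real.exp 1 < 2.7182818286 := Real.exp_one_lt_d9
          have h6 : 0 ≤ Real.exp 1 * k := by positivity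
          have h7 := mul_le_mul_of_nonneg_left (Real.cos_le_one (v + ψ)) h6
          have h8 : Real.exp 1 * k ≤ 82 / 100 := by
            norm_num at he1
            nlinarith only [hk0, h3, he1]
          have h9 : Real.sin ψ ≤ 1 := Real.sin_le_one _
          have h10 : 0 ≤ Real.cos ψ := Real.cos_nonneg_of_mem_Icc ⟨by linarith only [hψ0, hψ1], hψ1⟩
          have h11 : 0 ≤ k * Real.cos ψ := by positivity
          have h12 : k * Real.sin ψ ≤ 3 / 10 := by nlinarith only [hk0, h3, h9]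
          nlinarith only [hψ1, hπl, h, h7, h8, h11, h12])
    refine key.trans (mul_le_mul_of_nonneg_left ?_ (by norm_num))
    linarith only [hq3, hcr]

theorem tlC_L_pos (hδ : 0 < δ) (hδ0 : δ ≤ 173 / 4990) (hrho : r * δ ≤ 173 / 100)
    (hD : DD (r * δ) y) (hy : 0 ≤ y) (hw : WtC w) :
    ∫ v in Ioi (3 / 2 : ℝ), ‖gi (1 + sx (r * δ) y)⁻¹ (1 + sx (r * δ) y) w
      (sK (r * δ) y / δ) 0 (-((δ : ℂ) * I)) (-v)‖ ≤ 1132 / 100 * (14 / 100000 * √δ ^ (3 : ℕ)) := by
  have hx := sx_nonneg (r * δ) y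
  have hρ := hD.dom.1
  have hx1 : sx (r * δ) y ≤ 173 / 100 := by
    refine (sx_le hD.dom).trans ?_
    have hexp : Real.exp (-y) ≤ 1 := Real.exp_le_one_iff.2 (by linarith only [hy])
    have : r * δ * Real.exp (-y) ≤ r * δ * 1 := mul_le_mul_of_nonneg_left hexp hρ.le
    linarith only [hrho, this]
  have hcr := pte_crude (c0 := 2 / 5) (E := 62 / 10 ^ (7 : ℕ)) (N := 12) (K := 14 / 100000) hδ hδ0
    (by norm_num) (by norm_num) e12 (by norm_num)
  have key := ptc_int_crude' (H := fun v => Hf (sx (r * δ) y) y (-v)) (C := 1132 / 100) (δ := δ)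
      (c0 := 2 / 5) (by norm_num) (fun v => norm_nonneg _)
      (fun v hv => giC_L hx hδ hw hv (y := y)) hδ (by linarith only [hδ0])
      (fun v hv => ptc_Lpos hx hx1 hy hD.y1 hv)
  exact key.trans (mul_le_mul_of_nonneg_left hcr (by norm_num))

theorem kC_le {ρ y : ℝ} (hρ : 0 < ρ) (hrho : ρ ≤ 173 / 100) (h0 : -(7 / 10) ≤ y) (h1 : y ≤ 0) :
    ρ * Real.exp (-y) ≤ 3486 / 1000 := by
  have h2 := ptc_exp_chord (n := -y) (by linarith only [h1]) (by linarith only [h0])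
  have h3 : Real.exp (-y) ≤ 2015 / 1000 := by linarith only [h0, h2]
  have h4 := Real.exp_pos (-y)
  nlinarith only [hρ, hrho, h3]

theorem tlC_R_neg (hδ : 0 < δ) (hδ0 : δ ≤ 173 / 4990) (hrho : r * δ ≤ 173 / 100)
    (hD : DD (r * δ) y) (hy : y ≤ 0) (hw : WtC w) :
    ∫ v in Ioi (3 / 2 : ℝ), ‖gi (1 + sx (r * δ) y)⁻¹ (1 + sx (r * δ) y) w
      (sK (r * δ) y / δ) 0 (-((δ : ℂ) * I)) v‖ ≤ 1556 / 100 * (14 / 100000 * √δ ^ (3 : ℕ)) := by
  have hx := sx_nonneg (r * δ) y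
  have hρ := hD.dom.1
  have hx1 : sx (r * δ) y ≤ 349 / 100 := by
    have h1 := sx_le hD.dom
    have h2 := kC_le hρ hrho hD.y0 hy
    linarith only [h1, h2]
  have hcr := pte_crude (c0 := 2 / 5) (E := 62 / 10 ^ (7 : ℕ)) (N := 12) (K := 14 / 100000) hδ hδ0
    (by norm_num) (by norm_num) e12 (by norm_num)
  have key := ptc_int_crude' (H := fun v => Hf (sx (r * δ) y) y v) (C := 1556 / 100) (δ := δ)
      (c0 := 2 / 5) (by norm_num) (fun v => norm_nonneg _)
      (fun v hv => giC_R hx hδ hw hv (y := y)) hδ (by linarith only [hδ0])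
      (fun v hv => ptc_Rneg hx hx1 hD.y0 hy hv)
  exact key.trans (mul_le_mul_of_nonneg_left hcr (by norm_num))

theorem tlC_L_neg (hδ : 0 < δ) (hδ0 : δ ≤ 173 / 4990) (hrho : r * δ ≤ 173 / 100)
    (hD : DD (r * δ) y) (hy : y ≤ 0) (hw : WtC w) :
    ∫ v in Ioi (3 / 2 : ℝ), ‖gi (1 + sx (r * δ) y)⁻¹ (1 + sx (r * δ) y) w
      (sK (r * δ) y / δ) 0 (-((δ : ℂ) * I)) (-v)‖ ≤ 1132 / 100 * (156 / 10000 * √δ ^ (3 : ℕ)) := by
  obtain ⟨ρ, hρe⟩ : ∃ ρ, ρ = r * δ := ⟨_, rfl⟩
  rw [← hρe] at hD hrho ⊢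
  obtain ⟨pc, ps⟩ := polarC hD.dom
  have hx := sx_nonneg ρ y
  have hρ := hD.dom.1
  have hk1 := kC_le hρ hrho hD.y0 hy
  obtain ⟨k, hk⟩ : ∃ k, k = ρ * Real.exp (-y) := ⟨_, rfl⟩
  obtain ⟨χ, hχ⟩ : ∃ χ, χ = -sP ρ y := ⟨_, rfl⟩
  have hχ' : sP ρ y = -χ := by rw [hχ, neg_neg]
  rw [← hk, hχ', Real.cos_neg] at pc
  rw [← hk, hχ', Real.sin_neg, mul_neg] at ps
  rw [← hk] at hk1
  have hk0 : 0 ≤ k := by rw [hk]; positivity
  have hk1' : k ≤ 349 / 100 := by linarith only [hk1]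
  have hχ0 : 0 ≤ χ := by
    have := sP_nonpos hρ hy
    linarith only [hχ', this]
  have hχ1 : χ ≤ Real.pi / 2 := by
    have := (abs_le.1 (sP_abs_le ρ y)).1
    linarith only [hχ', this]
  have hπ := Real.pi_pos
  have hπl : (3.1415 : ℝ) < Real.pi := Real.pi_gt_d4
  have hn : k * Real.sin χ ≤ 7 / 10 := by linarith only [ps, hD.y0]
  have hn0 : 0 ≤ k * Real.sin χ := by linarith only [hy, ps]
  have hg : ∀ v : ℝ, 3 / 2 ≤ v → ‖gi (1 + sx ρ y)⁻¹ (1 + sx ρ y) w
      (sK ρ y / δ) 0 (-((δ : ℂ) * I)) (-v)‖ ≤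
        1132 / 100 * Real.exp (3 / 10 * v - Hf (sx ρ y) y (-v) / δ) :=
    fun v hv => giC_L hx hδ hw hv
  have hq3 : 0 ≤ √δ ^ (3 : ℕ) := by positivity
  have hcr := pte_crude (c0 := 1 / 5) (E := 19 / 10 ^ (5 : ℕ)) (N := 865 / 100) (K := 85 / 10000) hδ hδ0
    (by norm_num) (by norm_num) e865 (by norm_num)
  have hH : ∀ v : ℝ, 3 * Real.pi / 2 ≤ v + χ → Hf (sx ρ y) y (-v) =
      (1 - k * Real.sin χ) * v - Real.exp (-1) * k * Real.cos (v + χ) := fun v hv => by
    have h1 := ptc_Lneg_far hk0 hk1' hχ0 hχ1 hn hv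
    rw [← h1, pc, ps]
  have hH2 : ∀ v : ℝ, 3 / 2 ≤ v → v + χ ≤ 3 * Real.pi / 2 →
      1 / 5 * v ≤ Hf (sx ρ y) y (-v) := fun v hv hv' => by
    have h1 := ptc_Lneg hk0 hk1' hχ0 hχ1 hn hv hv'
    rw [pc, ps] at h1
    linarith only [h1]
  rcases le_total (4 / 5) k with h3 | h3
  · have hl := ptc_lumpL h3 hχ0 hχ1 hn (by
      have e : k * Real.sin χ = -y := by linarith only [ps]
      rw [e, hk]
      exact mul_le_mul_of_nonneg_right hrho (Real.exp_pos _).le)
    have he1 : (0.36787944116 : ℝ) < Real.exp (-1) := Real.exp_neg_one_gt_d9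
    have hc1 : 1147 / 10000 ≤ 39 / 100 * (Real.exp (-1) * k) := by
      norm_num at he1
      nlinarith only [h3, he1]
    have key := ptc_int_lump' (H := fun v => Hf (sx ρ y) y (-v)) (C := 1132 / 100) (δ := δ)
      (c0 := 1 / 5) (v0 := 2 * Real.pi - χ)
      (f := (1 - k * Real.sin χ) * (2 * Real.pi - χ) - Real.exp (-1) * k)
      (A := 1 - k * Real.sin χ) (c := 39 / 100 * (Real.exp (-1) * k)) (by norm_num)
      (fun v => norm_nonneg _) hg hδ (by linarith only [hδ0]) (by linarith only [hδ0, hn]) (by linarith only [hc1]) (by linarith only [hχ0])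
      (by linarith only [hχ1, hπl])
      (fun v hv hv' => hH2 v hv (by linarith only [hv']))
      (fun v hv hv' => by
        have h2 := ptc_cos_quad (u := 2 * Real.pi - χ - v) (by linarith only [hv']) (by linarith only [hv])
        have h4 : Real.cos (2 * Real.pi - χ - v) = Real.cos (v + χ) := by
          rw [show 2 * Real.pi - χ - v = 2 * Real.pi - (v + χ) by ring, Real.cos_two_pi_sub]
        rw [h4] at h2
        rw [hH v (by linarith only [hv])]
        have h6 : 0 ≤ Real.exp (-1) * k := by positivity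
        have h7 := mul_le_mul_of_nonneg_left h2 h6
        have e : (1 - k * Real.sin χ) * (2 * Real.pi - χ) -
            Real.exp (-1) * k - (1 - k * Real.sin χ) * (2 * Real.pi - χ - v) +
            39 / 100 * (Real.exp (-1) * k) * (2 * Real.pi - χ - v) ^ (2 : ℕ) =
          (1 - k * Real.sin χ) * v -
            Real.exp (-1) * k * (1 - 39 / 100 * (2 * Real.pi - χ - v) ^ (2 : ℕ)) := by ring
        rw [e]
        linarith only [h7])
      (fun v hv => by
        rw [hH v (by linarith only [hπl, hv])]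
        have h6 : 0 ≤ Real.exp (-1) * k := by positivity
        have h7 := mul_le_mul_of_nonneg_left (Real.cos_le_one (v + χ)) h6
        have e : (1 - k * Real.sin χ) * (2 * Real.pi - χ) -
            Real.exp (-1) * k + (1 - k * Real.sin χ) * (v - (2 * Real.pi - χ)) =
          (1 - k * Real.sin χ) * v - Real.exp (-1) * k * 1 := by ring
        rw [e]
        linarith only [h7])
    refine key.trans (mul_le_mul_of_nonneg_left ?_ (by norm_num))
    have hlump := pte_lump (δ := δ) (A0 := 3 / 10) (g := 43 / 100) (E := 62 / 10 ^ (7 : ℕ))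
      (N := 12) (cq := 5235 / 1000) (K := 71 / 10000)
      (f := (1 - k * Real.sin χ) * (2 * Real.pi - χ) - Real.exp (-1) * k)
      (A := 1 - k * Real.sin χ) (c := 39 / 100 * (Real.exp (-1) * k)) hδ hδ0
      (by linarith only [hl]) (by norm_num) (by linarith only [hc1]) (by norm_num) (by linarith only [hn]) (by norm_num) e12
      (by norm_num) (by
        have := Real.pi_lt_d4
        norm_num at this
        linarith only [hc1, this]) (by norm_num)
    linarith only [hcr, hlump]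
  · have key := ptc_int_crude' (H := fun v => Hf (sx ρ y) y (-v)) (C := 1132 / 100) (δ := δ)
      (c0 := 1 / 5) (by norm_num) (fun v => norm_nonneg _) hg hδ (by linarith only [hδ0]) (fun v hv => by
        rcases le_total (v + χ) (3 * Real.pi / 2) with h | h
        · exact hH2 v hv h
        · rw [hH v h]
          have he1 : Real.exp (-1) < 0.3678794412 := Real.exp_neg_one_lt_d9
          have h6 : 0 ≤ Real.exp (-1) * k := by positivity
          have h7 := mul_le_mul_of_nonneg_left (Real.cos_le_one (v + χ)) h6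
          have h8 : Real.exp (-1) * k ≤ 3 / 10 := by
            norm_num at he1
            nlinarith only [hk0, h3, he1]
          nlinarith only [hχ1, hπl, hn, h, h7, h8])
    refine key.trans (mul_le_mul_of_nonneg_left ?_ (by norm_num))
    linarith only [hq3, hcr]

theorem sGC {Dm m : ℝ} (hδ : 0 < δ) (hy : -1 < y) (hm0 : 0 ≤ m) (hD : √(sD2 (r * δ) y) ≤ Dm)
    (hm : m ^ (2 : ℕ) * Dm ≤ 2 * Real.pi) : m * √δ ^ (3 : ℕ) ≤ δ * sG r δ y := by
  have hp : 0 < √(sD2 (r * δ) y) := Real.sqrt_pos.2 (sD2_pos hy)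
  have h1 : m * √δ ≤ sG r δ y := by
    unfold sG
    refine Real.le_sqrt_of_sq_le ?_
    rw [mul_pow, Real.sq_sqrt hδ.le, le_div_iff₀ hp]
    have h2 : m ^ (2 : ℕ) * √(sD2 (r * δ) y) ≤ m ^ (2 : ℕ) * Dm :=
      mul_le_mul_of_nonneg_left hD (sq_nonneg m)
    nlinarith only [hδ, hm, h2]
  have e : m * √δ ^ (3 : ℕ) = √δ ^ (2 : ℕ) * (m * √δ) := by ring
  rw [e, Real.sq_sqrt hδ.le]
  exact mul_le_mul_of_nonneg_left h1 hδ.le

theorem tlC_pos (hδ : 0 < δ) (hδ0 : δ ≤ 173 / 4990) (hrho : r * δ ≤ 173 / 100)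
    (hD : DD (r * δ) y) (hy : 0 ≤ y) (hw : WtC w) :
    Tl r δ y w ≤ 2 / 5 * (δ * sG r δ y) := by
  have h := pte_split (f := fun s : ℝ => ‖gi (1 + sx (r * δ) y)⁻¹ (1 + sx (r * δ) y) w
    (sK (r * δ) y / δ) 0 (-((δ : ℂ) * I)) s‖) (fun s => norm_nonneg _)
    (tlC_R_pos hδ hδ0 hrho hD hy hw) (tlC_L_pos hδ hδ0 hrho hD hy hw)
  have h2 : √(sD2 (r * δ) y) ≤ 2 := by
    refine Real.sqrt_le_iff.2 ⟨by norm_num, ?_⟩
    have h3 := sx_sq_add hD.dom
    have h4 : sD2 (r * δ) y = sx (r * δ) y ^ (2 : ℕ) + y ^ (2 : ℕ) + (1 + 2 * y) := by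
      unfold sD2
      ring
    have hρ := hD.dom.1
    have h5 : Real.exp (-y) ^ (2 : ℕ) * (1 + 2 * y) ≤ 1 := by
      have k1 : 1 + 2 * y ≤ Real.exp y ^ (2 : ℕ) := by
        rw [← Real.exp_nat_mul]
        have := Real.add_one_le_exp (2 * y)
        push_cast
        linarith only [this]
      have k2 : Real.exp (-y) ^ (2 : ℕ) * Real.exp y ^ (2 : ℕ) = 1 := by
        rw [← mul_pow, ← Real.exp_add]
        simp
      have k3 : 0 ≤ Real.exp (-y) ^ (2 : ℕ) := by positivity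
      nlinarith only [k1, k2]
    have h6 : (r * δ * Real.exp (-y)) ^ (2 : ℕ) ≤ (173 / 100) ^ (2 : ℕ) * Real.exp (-y) ^ (2 : ℕ) := by
      rw [mul_pow]
      have : (r * δ) ^ (2 : ℕ) ≤ (173 / 100) ^ (2 : ℕ) := pow_le_pow_left₀ hρ.le hrho 2
      exact mul_le_mul_of_nonneg_right this (by positivity)
    rw [h4, h3]
    have h7 : Real.exp (-y) ^ (2 : ℕ) ≤ 1 / (1 + 2 * y) := by
      rw [le_div_iff₀ (by linarith only [hy])]
      exact h5
    have h8 : (173 / 100) ^ (2 : ℕ) * (1 / (1 + 2 * y)) + (1 + 2 * y) ≤ 4 := by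
      have hz : 0 < 1 + 2 * y := by linarith only [hy]
      rw [mul_one_div, ← le_sub_iff_add_le, div_le_iff₀ hz]
      nlinarith only [hy, hD.y1]
    linarith only [h6, h7, h8]
  have h3 := sGC (r := r) (δ := δ) (y := y) (m := 177 / 100) hδ (by linarith only [hy]) (by norm_num) h2 (by
    have := Real.pi_gt_d4
    norm_num at this ⊢
    linarith only [this])
  have hq3 : 0 ≤ √δ ^ (3 : ℕ) := by positivity
  unfold Tl
  refine h.trans ?_
  linarith only [h3, hq3]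

theorem tlC_neg (hδ : 0 < δ) (hδ0 : δ ≤ 173 / 4990) (hrho : r * δ ≤ 173 / 100)
    (hD : DD (r * δ) y) (hy : y ≤ 0) (hw : WtC w) :
    Tl r δ y w ≤ 3 / 20 * (δ * sG r δ y) := by
  have h := pte_split (f := fun s : ℝ => ‖gi (1 + sx (r * δ) y)⁻¹ (1 + sx (r * δ) y) w
    (sK (r * δ) y / δ) 0 (-((δ : ℂ) * I)) s‖) (fun s => norm_nonneg _)
    (tlC_R_neg hδ hδ0 hrho hD hy hw) (tlC_L_neg hδ hδ0 hrho hD hy hw)
  have hy0 := hD.y0
  have h2 : √(sD2 (r * δ) y) ≤ 363 / 100 := by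
    refine Real.sqrt_le_iff.2 ⟨by norm_num, ?_⟩
    have h3 := sx_sq_add hD.dom
    have h4 : sD2 (r * δ) y = sx (r * δ) y ^ (2 : ℕ) + y ^ (2 : ℕ) + (1 + 2 * y) := by
      unfold sD2
      ring
    have hk := kC_le hD.dom.1 hrho hD.y0 hy
    have hk0 : 0 ≤ r * δ * Real.exp (-y) := mul_nonneg hD.dom.1.le (Real.exp_pos _).le
    rw [h4, h3]
    nlinarith only [hy, hk, hk0]
  have h3 := sGC (r := r) (δ := δ) (y := y) (m := 13 / 10) hδ (by linarith only [hy0]) (by norm_num) h2 (by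
    have := Real.pi_gt_d4
    norm_num at this ⊢
    linarith only [this])
  have hq3 : 0 ≤ √δ ^ (3 : ℕ) := by positivity
  unfold Tl
  refine h.trans ?_
  linarith only [h3, hq3]

end

/-- LEMMA MAIN on `DD`. -/
theorem ownC {r δ y : ℝ} (hr : 499 / 10 ≤ r) (hδ : 0 < δ)
    (hrho : r * δ ≤ 173 / 100) (hD : DD (r * δ) y) :
    Own r δ y (1 / 6) (if 0 ≤ y then 1 else 3)
      (9 / 5 * (‖kap r δ y‖ / sD (r * δ) y)) := by
  have hδ0 : δ ≤ 173 / 4990 := by
    have : 499 / 10 * δ ≤ r * δ := mul_le_mul_of_nonneg_right hr hδ.le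
    linarith only [hrho, this]
  have hy1 : -1 < y := by linarith only [hD.y0]
  have hG := sG_pos (r := r) hδ hy1
  have hx := sx_nonneg (r * δ) y
  have hDp : 0 < sD (r * δ) y := Real.sqrt_pos.2 (sD2_pos hy1)
  have hkD : 0 ≤ ‖kap r δ y‖ / sD (r * δ) y := by positivity
  have hK : ‖sK (r * δ) y‖ = √(sx (r * δ) y ^ (2 : ℕ) + y ^ (2 : ℕ)) := norm_K _ _
  have hP : 0 < sD2 (r * δ) y := sD2_pos hy1
  have hp : 0 ≤ ‖kap r δ y‖ / sD (r * δ) y * (δ * sG r δ y) := by positivity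
  have hkd : ‖kap r δ y‖ / sD (r * δ) y * (δ * sG r δ y) =
      ‖sK (r * δ) y‖ / sD (r * δ) y * sG r δ y := by
    rw [norm_kap_div hδ]
    field_simp
  have hposc : 0 ≤ y → Own r δ y (1 / 6) 1 (9 / 5 * (‖kap r δ y‖ / sD (r * δ) y)) := by
    intro hy
    have hT : ∀ w : ℂ → ℂ, WtC w → Tl r δ y w ≤ 2 / 5 * (δ * sG r δ y) :=
      fun w hw => tlC_pos hδ hδ0 hrho hD hy hw
    have hkr : ‖sK (r * δ) y‖ / sD (r * δ) y ≤ 1 := by
      rw [div_le_one hDp, hK]
      unfold sD sD2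
      refine Real.sqrt_le_sqrt ?_
      linarith only [hy]
    have t0 : Tl r δ y (fun _ => 1) ≤ 14 / 1000 * sG r δ y := by
      have := hT _ wtC_one
      nlinarith only [hδ0, hG, this]
    have t1 : ‖kap r δ y‖ / sD (r * δ) y * Tl r δ y gs ≤
        4 / 9 * ((1 - 1 / 10) * sG r δ y) := by
      have k1 := mul_le_mul_of_nonneg_left (hT _ wtC_gs) hkD
      have k2 : ‖kap r δ y‖ / sD (r * δ) y * (2 / 5 * (δ * sG r δ y)) =
          2 / 5 * (‖sK (r * δ) y‖ / sD (r * δ) y * sG r δ y) := by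
        rw [← hkd]
        ring
      rw [k2] at k1
      have k3 := mul_le_mul_of_nonneg_right hkr hG.le
      linarith only [k1, k3]
    have t2 : ‖kap r δ y‖ / sD (r * δ) y * Tl r δ y (fun σ => σ * gs σ) ≤
        ‖kap r δ y‖ / sD (r * δ) y * (4 / 9) * (δ * ((1 - 1 / 10) * sG r δ y)) := by
      have k1 := mul_le_mul_of_nonneg_left (hT _ wtC_sgs) hkD
      linarith only [k1]
    have key := own_pos (e := 1 / 10) (a := 883 / 1000) (v0 := 1243 / 1000) (τ0 := 14 / 1000)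
      (τ1 := 4 / 9) (τ2 := ‖kap r δ y‖ / sD (r * δ) y * (4 / 9)) hr hδ hD.dom hy hD.y1
      (by norm_num) (by norm_num) (by norm_num) (by norm_num) t0 t1 t2
    refine key.mono hy1 (by norm_num) ?_ (by linarith only [hkD])
    have h1 : kD r δ y ≤ 1 / 2 := by
      unfold kD
      rw [div_le_iff₀ hP, hK]
      have := s1_kd hx hy hD.y1
      unfold sD2
      linarith only [this]
    linarith only [h1]
  rcases le_total 0 y with hy | hy
  · rw [if_pos hy]
    exact hposc hy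
  · rcases hy.eq_or_lt with h | h
    · rw [if_pos h.ge]
      exact hposc h.ge
    · rw [if_neg (not_le.2 h)]
      have hF := DD.negF hD hy
      have hT : ∀ w : ℂ → ℂ, WtC w → Tl r δ y w ≤ 3 / 20 * (δ * sG r δ y) :=
        fun w hw => tlC_neg hδ hδ0 hrho hD hy hw
      have h1 : kD r δ y ≤ 21 / 10 := by
        unfold kD
        rw [div_le_iff₀ hP, hK]
        have hρ := hD.dom.1
        have hΦ : 11 / 25 * (√(sx (r * δ) y ^ (2 : ℕ) + y ^ (2 : ℕ)) * Real.exp y) ≤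
            sx (r * δ) y * (1 + y) := by
          have h2 := hD.phi
          unfold ph at h2
          rw [le_div_iff₀ hρ] at h2
          rwa [← rd_eq hD.dom]
        have := s2_kd hx (by linarith only [hD.y0]) hy hΦ
        unfold sD2
        linarith only [this]
      have hkr : ‖sK (r * δ) y‖ / sD (r * δ) y ≤ 148 / 100 := by
        rw [div_le_iff₀ hDp, hK]
        unfold sD
        have e : (148 / 100 : ℝ) * √(sD2 (r * δ) y) = √((148 / 100) ^ (2 : ℕ) * sD2 (r * δ) y) := by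
          rw [Real.sqrt_mul (by norm_num), Real.sqrt_sq (by norm_num)]
        rw [e]
        refine Real.sqrt_le_sqrt ?_
        have h2 := hF.D2
        have h3 := hD.y0
        unfold sD2
        linarith only [h2, h3]
      have t0 : Tl r δ y (fun _ => 1) ≤ 53 / 10000 * sG r δ y := by
        have := hT _ wtC_one
        nlinarith only [hδ0, hG, this]
      have t1 : ‖kap r δ y‖ / sD (r * δ) y * Tl r δ y gs ≤
          249 / 1000 * ((1 - 107 / 1000) * sG r δ y) := by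
        have k1 := mul_le_mul_of_nonneg_left (hT _ wtC_gs) hkD
        have k2 : ‖kap r δ y‖ / sD (r * δ) y * (3 / 20 * (δ * sG r δ y)) =
            3 / 20 * (‖sK (r * δ) y‖ / sD (r * δ) y * sG r δ y) := by
          rw [← hkd]
          ring
        rw [k2] at k1
        have k3 := mul_le_mul_of_nonneg_right hkr hG.le
        linarith only [hp, k1, k2, k3]
      have t2 : ‖kap r δ y‖ / sD (r * δ) y * Tl r δ y (fun σ => σ * gs σ) ≤
          ‖kap r δ y‖ / sD (r * δ) y * (168 / 1000) * (δ * ((1 - 107 / 1000) * sG r δ y)) := by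
        have k1 := mul_le_mul_of_nonneg_left (hT _ wtC_sgs) hkD
        have k4 : ‖kap r δ y‖ / sD (r * δ) y * (168 / 1000) * (δ * ((1 - 107 / 1000) * sG r δ y)) =
            168 / 1000 * (893 / 1000) * (‖kap r δ y‖ / sD (r * δ) y * (δ * sG r δ y)) := by ring
        rw [k4]
        linarith only [hp, k1]
      have key := own_neg (e := 107 / 1000) (a := 1292 / 1000) (v0 := 1593 / 1000)
        (τ0 := 53 / 10000) (τ1 := 249 / 1000)
        (τ2 := ‖kap r δ y‖ / sD (r * δ) y * (168 / 1000)) hr hδ hD.dom hF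
        (by norm_num) (by norm_num) (by norm_num) (by norm_num) t0 t1 t2
      refine key.mono hy1 (by norm_num) ?_ (by linarith only [hkD])
      linarith only [h1]

end SokamF1T

end
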