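import Mathlib.Algebra.Order.Floor.Semifield
import Mathlib.Algebra.Ring.IsFormallyReal
import Mathlib.RingTheory.PowerSeries.Inverse
import Mathlib.Data.Rat.Star
import Mathlib.Geometry.Euclidean.Angle.Unoriented.TriangleInequality
import Mathlib.Analysis.Convex.Contractible
import Mathlib.Analysis.Calculus.Deriv.Star
import Mathlib.MeasureTheory.Integral.Gamma
import Mathlib.Analysis.Complex.LocallyUniformLimit
import Mathlib.Topology.Separation.CompletelyRegular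
import Mathlib.RingTheory.Flat.TorsionFree
import Mathlib.MeasureTheory.Order.Group.Lattice
import Mathlib.Data.Int.Star
import Mathlib.LinearAlgebra.Lagrange
import Mathlib.Analysis.Complex.Angle
import Mathlib.Analysis.Complex.BorelCaratheodory
import Mathlib.Analysis.Complex.CoveringMap
import Mathlib.Topology.Homotopy.Lifting
import Mathlib.Analysis.Complex.ExponentialBounds
import Mathlib.Analysis.Complex.HasPrimitives
import Mathlib.NumberTheory.DiophantineApproximation.Basic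
import Mathlib.Analysis.Complex.OpenMapping
import Mathlib.Analysis.SpecialFunctions.Trigonometric.DerivHyp
import Mathlib.RingTheory.SimpleRing.Principal
import Mathlib.Order.CompletePartialOrder
import Mathlib.Analysis.SpecialFunctions.Complex.LogBounds
import Mathlib.Analysis.SpecialFunctions.Gamma.BohrMollerup
import Mathlib.Analysis.SpecialFunctions.Trigonometric.Series
import Mathlib.Topology.MetricSpace.Sequences
import Mathlib.Analysis.Normed.Group.Tannery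
import Mathlib.Analysis.ODE.Gronwall
import Mathlib.Analysis.Real.Pi.Bounds
import Mathlib.Analysis.SpecialFunctions.Gaussian.PoissonSummation
import Mathlib.Analysis.SpecialFunctions.Trigonometric.InverseDeriv
import Mathlib.RingTheory.TotallySplit
import Mathlib.RingTheory.Etale.Weakly
import Mathlib.Tactic

/-! ### Lib_MP_af4de1_v3.T2Bern -/

section
/-!
# `N = 2`, tails: one variable polynomial inequalities in `c = 1/(1+x)` (helper63, generated)
-/

set_option autoImplicit false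

namespace SokamT2

theorem n11_nb {c : ℝ} (h1 : 0 ≤ c) (h2 : c ≤ 33 / 400) :
    3927 / 2500 ≤ (1 - c) * (3927 / 2500 + 17 / 5 * c) * (1 - c * (3927 / 2500 + 17 / 5 * c) / 2 + (c * (3927 / 2500 + 17 / 5 * c)) ^ (2 : ℕ) * (17 / 120)) +
      3 / 4 * (c ^ (2 : ℕ) * (1 + c) * (3927 / 2500 + 17 / 5 * c)) := by
  obtain ⟨A, hA⟩ : ∃ A, A = c - 0 := ⟨_, rfl⟩
  obtain ⟨B, hB⟩ : ∃ B, B = 33 / 400 - c := ⟨_, rfl⟩
  have hA0 : 0 ≤ A := by rw [hA]; linarith only [h1]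
  have hB0 : 0 ≤ B := by rw [hB]; linarith only [h2]
  have h : (1 - c) * (3927 / 2500 + 17 / 5 * c) * (1 - c * (3927 / 2500 + 17 / 5 * c) / 2 + (c * (3927 / 2500 + 17 / 5 * c)) ^ (2 : ℕ) * (17 / 120)) +
      3 / 4 * (c ^ (2 : ℕ) * (1 + c) * (3927 / 2500 + 17 / 5 * c)) - (3927 / 2500) =
      6097855283200 / 39135393 * A * B ^ (5 : ℕ) +
      80020210288617088 / 122298103125 * A ^ (2 : ℕ) * B ^ (4 : ℕ) +
      3272403173790672056 / 3057452578125 * A ^ (3 : ℕ) * B ^ (3 : ℕ) +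
      2583734456671098998 / 3057452578125 * A ^ (4 : ℕ) * B ^ (2 : ℕ) +
      1940452097360336981 / 6114905156250 * A ^ (5 : ℕ) * B +
      1078139427876233413 / 24459620625000 * A ^ (6 : ℕ) := by
    rw [hA, hB]
    ring
  have h0 : 0 ≤ 6097855283200 / 39135393 * A * B ^ (5 : ℕ) +
      80020210288617088 / 122298103125 * A ^ (2 : ℕ) * B ^ (4 : ℕ) +
      3272403173790672056 / 3057452578125 * A ^ (3 : ℕ) * B ^ (3 : ℕ) +
      2583734456671098998 / 3057452578125 * A ^ (4 : ℕ) * B ^ (2 : ℕ) +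
      1940452097360336981 / 6114905156250 * A ^ (5 : ℕ) * B +
      1078139427876233413 / 24459620625000 * A ^ (6 : ℕ) := by positivity
  linarith only [h, h0]

theorem n11_E {c : ℝ} (h1 : 0 ≤ c) (h2 : c ≤ 33 / 400) :
    9 / 2 ≤ 5471 / 10000 * ((1 - 6427 / 2500 * c) * (6283 / 1000 * (137 / 25 - (3927 / 2500 + 17 / 5 * c)) -
      (1 - c) * (150152 / 10000 - 274277 / 10000 * c + 37577 / 1000 * c ^ (2 : ℕ)) - 148 / 5 * c ^ (2 : ℕ))) := by
  obtain ⟨A, hA⟩ : ∃ A, A = c - 0 := ⟨_, rfl⟩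
  obtain ⟨B, hB⟩ : ∃ B, B = 33 / 400 - c := ⟨_, rfl⟩
  have hA0 : 0 ≤ A := by rw [hA]; linarith only [h1]
  have hB0 : 0 ≤ B := by rw [hB]; linarith only [h2]
  have h : 5471 / 10000 * ((1 - 6427 / 2500 * c) * (6283 / 1000 * (137 / 25 - (3927 / 2500 + 17 / 5 * c)) -
      (1 - c) * (150152 / 10000 - 274277 / 10000 * c + 37577 / 1000 * c ^ (2 : ℕ)) - 148 / 5 * c ^ (2 : ℕ))) - (9 / 2) =
      256989404288 / 16471125 * B ^ (4 : ℕ) +
      15193993320736778 / 257361328125 * A * B ^ (3 : ℕ) +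
      8182660711676149 / 114382812500 * A ^ (2 : ℕ) * B ^ (2 : ℕ) +
      2489935528306008187 / 82355625000000 * A ^ (3 : ℕ) * B +
      6847921634157894259 / 3294225000000000 * A ^ (4 : ℕ) := by
    rw [hA, hB]
    ring
  have h0 : 0 ≤ 256989404288 / 16471125 * B ^ (4 : ℕ) +
      15193993320736778 / 257361328125 * A * B ^ (3 : ℕ) +
      8182660711676149 / 114382812500 * A ^ (2 : ℕ) * B ^ (2 : ℕ) +
      2489935528306008187 / 82355625000000 * A ^ (3 : ℕ) * B +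
      6847921634157894259 / 3294225000000000 * A ^ (4 : ℕ) := by positivity
  linarith

theorem n12_nb {c : ℝ} (h1 : 33 / 400 ≤ c) (h2 : c ≤ 1 / 10) :
    3927 / 2500 ≤ (1 - c) * (3927 / 2500 + 69 / 20 * c) * (1 - c * (3927 / 2500 + 69 / 20 * c) / 2 + (c * (3927 / 2500 + 69 / 20 * c)) ^ (2 : ℕ) * (17 / 120)) +
      3 / 4 * (c ^ (2 : ℕ) * (1 + c) * (3927 / 2500 + 69 / 20 * c)) := by
  obtain ⟨A, hA⟩ : ∃ A, A = c - 33 / 400 := ⟨_, rfl⟩
  obtain ⟨B, hB⟩ : ∃ B, B = 1 / 10 - c := ⟨_, rfl⟩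
  have hA0 : 0 ≤ A := by rw [hA]; linarith only [h1]
  have hB0 : 0 ≤ B := by rw [hB]; linarith only [h2]
  have h : (1 - c) * (3927 / 2500 + 69 / 20 * c) * (1 - c * (3927 / 2500 + 69 / 20 * c) / 2 + (c * (3927 / 2500 + 69 / 20 * c)) ^ (2 : ℕ) * (17 / 120)) +
      3 / 4 * (c ^ (2 : ℕ) * (1 + c) * (3927 / 2500 + 69 / 20 * c)) - (3927 / 2500) =
      2812197265517454700941 / 4705960000000 * B ^ (6 : ℕ) +
      1023674708970997952103 / 294122500000 * A * B ^ (5 : ℕ) +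
      617474810011493772267 / 73530625000 * A ^ (2 : ℕ) * B ^ (4 : ℕ) +
      98708244226413360708 / 9191328125 * A ^ (3 : ℕ) * B ^ (3 : ℕ) +
      14105744390154208824 / 1838265625 * A ^ (4 : ℕ) * B ^ (2 : ℕ) +
      1067055081047877504 / 367653125 * A ^ (5 : ℕ) * B +
      33350478944506368 / 73530625 * A ^ (6 : ℕ) := by
    rw [hA, hB]
    ring
  have h0 : 0 ≤ 2812197265517454700941 / 4705960000000 * B ^ (6 : ℕ) +
      1023674708970997952103 / 294122500000 * A * B ^ (5 : ℕ) +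
      617474810011493772267 / 73530625000 * A ^ (2 : ℕ) * B ^ (4 : ℕ) +
      98708244226413360708 / 9191328125 * A ^ (3 : ℕ) * B ^ (3 : ℕ) +
      14105744390154208824 / 1838265625 * A ^ (4 : ℕ) * B ^ (2 : ℕ) +
      1067055081047877504 / 367653125 * A ^ (5 : ℕ) * B +
      33350478944506368 / 73530625 * A ^ (6 : ℕ) := by positivity
  linarith only [h, h0]

theorem n12_E {c : ℝ} (h1 : 33 / 400 ≤ c) (h2 : c ≤ 1 / 10) :
    9 / 2 ≤ 52249 / 10000 * (c * (6283 / 1000 * (137 / 25 - (3927 / 2500 + 69 / 20 * c)) -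
      (1 - c) * (150152 / 10000 - 274277 / 10000 * c + 37577 / 1000 * c ^ (2 : ℕ)) - 669 / 20 * c ^ (2 : ℕ))) := by
  obtain ⟨A, hA⟩ : ∃ A, A = c - 33 / 400 := ⟨_, rfl⟩
  obtain ⟨B, hB⟩ : ∃ B, B = 1 / 10 - c := ⟨_, rfl⟩
  have hA0 : 0 ≤ A := by rw [hA]; linarith only [h1]
  have hB0 : 0 ≤ B := by rw [hB]; linarith only [h2]
  have h : 52249 / 10000 * (c * (6283 / 1000 * (137 / 25 - (3927 / 2500 + 69 / 20 * c)) -
      (1 - c) * (150152 / 10000 - 274277 / 10000 * c + 37577 / 1000 * c ^ (2 : ℕ)) - 669 / 20 * c ^ (2 : ℕ))) - (9 / 2) =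
      18871541515121193 / 24010000000 * B ^ (4 : ℕ) +
      8351654499134913 / 600250000 * A * B ^ (3 : ℕ) +
      55507675721482 / 1500625 * A ^ (2 : ℕ) * B ^ (2 : ℕ) +
      265286363646764 / 7503125 * A ^ (3 : ℕ) * B +
      17249556537824 / 1500625 * A ^ (4 : ℕ) := by
    rw [hA, hB]
    ring
  have h0 : 0 ≤ 18871541515121193 / 24010000000 * B ^ (4 : ℕ) +
      8351654499134913 / 600250000 * A * B ^ (3 : ℕ) +
      55507675721482 / 1500625 * A ^ (2 : ℕ) * B ^ (2 : ℕ) +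
      265286363646764 / 7503125 * A ^ (3 : ℕ) * B +
      17249556537824 / 1500625 * A ^ (4 : ℕ) := by positivity
  linarith only [h, h0]

theorem n13_nb {c : ℝ} (h1 : 1 / 10 ≤ c) (h2 : c ≤ 25 / 137) :
    3927 / 2500 ≤ (1 - c) * (3927 / 2500 + 43 / 10 * c) * (1 - c * (3927 / 2500 + 43 / 10 * c) / 2 + (c * (3927 / 2500 + 43 / 10 * c)) ^ (2 : ℕ) * (17 / 120)) +
      3 / 4 * (c ^ (2 : ℕ) * (1 + c) * (3927 / 2500 + 43 / 10 * c)) := by
  obtain ⟨A, hA⟩ : ∃ A, A = c - 1 / 10 := ⟨_, rfl⟩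
  obtain ⟨B, hB⟩ : ∃ B, B = 25 / 137 - c := ⟨_, rfl⟩
  have hA0 : 0 ≤ A := by rw [hA]; linarith only [h1]
  have hB0 : 0 ≤ B := by rw [hB]; linarith only [h2]
  have h : (1 - c) * (3927 / 2500 + 43 / 10 * c) * (1 - c * (3927 / 2500 + 43 / 10 * c) / 2 + (c * (3927 / 2500 + 43 / 10 * c)) ^ (2 : ℕ) * (17 / 120)) +
      3 / 4 * (c ^ (2 : ℕ) * (1 + c) * (3927 / 2500 + 43 / 10 * c)) - (3927 / 2500) =
      39513494370924981465848559 / 162652480672578125000 * B ^ (6 : ℕ) +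
      1456476160224179209218278047 / 975914884035468750000 * A * B ^ (5 : ℕ) +
      7235525369492970769830799559 / 1951829768070937500000 * A ^ (2 : ℕ) * B ^ (4 : ℕ) +
      18686669527631995296701306461 / 3903659536141875000000 * A ^ (3 : ℕ) * B ^ (3 : ℕ) +
      663913192748919192589648987 / 195182976807093750000 * A ^ (4 : ℕ) * B ^ (2 : ℕ) +
      1976308439344790906898029 / 1561463814456750000 * A ^ (5 : ℕ) * B +
      151132567837501923262 / 780731907228375 * A ^ (6 : ℕ) := by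
    rw [hA, hB]
    ring
  have h0 : 0 ≤ 39513494370924981465848559 / 162652480672578125000 * B ^ (6 : ℕ) +
      1456476160224179209218278047 / 975914884035468750000 * A * B ^ (5 : ℕ) +
      7235525369492970769830799559 / 1951829768070937500000 * A ^ (2 : ℕ) * B ^ (4 : ℕ) +
      18686669527631995296701306461 / 3903659536141875000000 * A ^ (3 : ℕ) * B ^ (3 : ℕ) +
      663913192748919192589648987 / 195182976807093750000 * A ^ (4 : ℕ) * B ^ (2 : ℕ) +
      1976308439344790906898029 / 1561463814456750000 * A ^ (5 : ℕ) * B +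
      151132567837501923262 / 780731907228375 * A ^ (6 : ℕ) := by positivity
  linarith only [h, h0]

theorem n13_E {c : ℝ} (h1 : 1 / 10 ≤ c) (h2 : c ≤ 25 / 137) :
    5 ≤ 52249 / 10000 * (c * (6283 / 1000 * (137 / 25 - (3927 / 2500 + 43 / 10 * c)) -
      (1 - c) * (150152 / 10000 - 274277 / 10000 * c + 37577 / 1000 * c ^ (2 : ℕ)) - 1728 / 25 * c ^ (2 : ℕ))) := by
  obtain ⟨A, hA⟩ : ∃ A, A = c - 1 / 10 := ⟨_, rfl⟩
  obtain ⟨B, hB⟩ : ∃ B, B = 25 / 137 - c := ⟨_, rfl⟩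
  have hA0 : 0 ≤ A := by rw [hA]; linarith only [h1]
  have hB0 : 0 ≤ B := by rw [hB]; linarith only [h2]
  have h : 52249 / 10000 * (c * (6283 / 1000 * (137 / 25 - (3927 / 2500 + 43 / 10 * c)) -
      (1 - c) * (150152 / 10000 - 274277 / 10000 * c + 37577 / 1000 * c ^ (2 : ℕ)) - 1728 / 25 * c ^ (2 : ℕ))) - (5) =
      2481046825820976419 / 1019046006250000 * B ^ (4 : ℕ) +
      744202014300806173841 / 8152368050000000 * A * B ^ (3 : ℕ) +
      123267936475852338141 / 509523003125000 * A ^ (2 : ℕ) * B ^ (2 : ℕ) +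
      864929416584396832251 / 4076184025000000 * A ^ (3 : ℕ) * B +
      967052186263027573 / 16304736100000 * A ^ (4 : ℕ) := by
    rw [hA, hB]
    ring
  have h0 : 0 ≤ 2481046825820976419 / 1019046006250000 * B ^ (4 : ℕ) +
      744202014300806173841 / 8152368050000000 * A * B ^ (3 : ℕ) +
      123267936475852338141 / 509523003125000 * A ^ (2 : ℕ) * B ^ (2 : ℕ) +
      864929416584396832251 / 4076184025000000 * A ^ (3 : ℕ) * B +
      967052186263027573 / 16304736100000 * A ^ (4 : ℕ) := by positivity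
  linarith only [h, h0]

theorem n21_nb {c : ℝ} (h1 : 0 ≤ c) (h2 : c ≤ 1 / 10) :
    20421 / 10000 ≤ (1 - c) * (20421 / 10000 + 53 / 10 * c) * (1 - c * (20421 / 10000 + 53 / 10 * c) / 2 + (c * (20421 / 10000 + 53 / 10 * c)) ^ (2 : ℕ) * (17 / 120)) +
      3 / 4 * (c ^ (2 : ℕ) * (1 + c) * (20421 / 10000 + 53 / 10 * c)) := by
  obtain ⟨A, hA⟩ : ∃ A, A = c - 0 := ⟨_, rfl⟩
  obtain ⟨B, hB⟩ : ∃ B, B = 1 / 10 - c := ⟨_, rfl⟩
  have hA0 : 0 ≤ A := by rw [hA]; linarith only [h1]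
  have hB0 : 0 ≤ B := by rw [hB]; linarith only [h2]
  have h : (1 - c) * (20421 / 10000 + 53 / 10 * c) * (1 - c * (20421 / 10000 + 53 / 10 * c) / 2 + (c * (20421 / 10000 + 53 / 10 * c)) ^ (2 : ℕ) * (17 / 120)) +
      3 / 4 * (c ^ (2 : ℕ) * (1 + c) * (20421 / 10000 + 53 / 10 * c)) - (20421 / 10000) =
      234562759 / 2000 * A * B ^ (5 : ℕ) +
      1893625656311279 / 4000000000 * A ^ (2 : ℕ) * B ^ (4 : ℕ) +
      29251338368480881 / 40000000000 * A ^ (3 : ℕ) * B ^ (3 : ℕ) +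
      21181050674651803 / 40000000000 * A ^ (4 : ℕ) * B ^ (2 : ℕ) +
      20686563958546369 / 120000000000 * A ^ (5 : ℕ) * B +
      719963993898411 / 40000000000 * A ^ (6 : ℕ) := by
    rw [hA, hB]
    ring
  have h0 : 0 ≤ 234562759 / 2000 * A * B ^ (5 : ℕ) +
      1893625656311279 / 4000000000 * A ^ (2 : ℕ) * B ^ (4 : ℕ) +
      29251338368480881 / 40000000000 * A ^ (3 : ℕ) * B ^ (3 : ℕ) +
      21181050674651803 / 40000000000 * A ^ (4 : ℕ) * B ^ (2 : ℕ) +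
      20686563958546369 / 120000000000 * A ^ (5 : ℕ) * B +
      719963993898411 / 40000000000 * A ^ (6 : ℕ) := by positivity
  linarith

theorem n21_E {c : ℝ} (h1 : 0 ≤ c) (h2 : c ≤ 1 / 10) :
    9 / 2 ≤ 2533 / 2500 * ((1 - 30421 / 10000 * c) * (6283 / 1000 * (137 / 25 - (20421 / 10000 + 53 / 10 * c)) -
      (1 - c) * (150152 / 10000 - 274277 / 10000 * c + 37577 / 1000 * c ^ (2 : ℕ)) - 669 / 20 * c ^ (2 : ℕ))) := by
  obtain ⟨A, hA⟩ : ∃ A, A = c - 0 := ⟨_, rfl⟩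
  obtain ⟨B, hB⟩ : ∃ B, B = 1 / 10 - c := ⟨_, rfl⟩
  have hA0 : 0 ≤ A := by rw [hA]; linarith only [h1]
  have hB0 : 0 ≤ B := by rw [hB]; linarith only [h2]
  have h : 2533 / 2500 * ((1 - 30421 / 10000 * c) * (6283 / 1000 * (137 / 25 - (20421 / 10000 + 53 / 10 * c)) -
      (1 - c) * (150152 / 10000 - 274277 / 10000 * c + 37577 / 1000 * c ^ (2 : ℕ)) - 669 / 20 * c ^ (2 : ℕ))) - (9 / 2) =
      54301233981 / 2500000 * B ^ (4 : ℕ) +
      18962155153463999 / 250000000000 * A * B ^ (3 : ℕ) +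
      21107340919592997 / 250000000000 * A ^ (2 : ℕ) * B ^ (2 : ℕ) +
      7902548917783707 / 250000000000 * A ^ (3 : ℕ) * B +
      298284272757099 / 250000000000 * A ^ (4 : ℕ) := by
    rw [hA, hB]
    ring
  have h0 : 0 ≤ 54301233981 / 2500000 * B ^ (4 : ℕ) +
      18962155153463999 / 250000000000 * A * B ^ (3 : ℕ) +
      21107340919592997 / 250000000000 * A ^ (2 : ℕ) * B ^ (2 : ℕ) +
      7902548917783707 / 250000000000 * A ^ (3 : ℕ) * B +
      298284272757099 / 250000000000 * A ^ (4 : ℕ) := by positivity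
  linarith

theorem n22_nb {c : ℝ} (h1 : 1 / 10 ≤ c) (h2 : c ≤ 13 / 100) :
    20421 / 10000 ≤ (1 - c) * (47 / 25 + 67 / 10 * c) * (1 - c * (47 / 25 + 67 / 10 * c) / 2 + (c * (47 / 25 + 67 / 10 * c)) ^ (2 : ℕ) * (17 / 120)) +
      3 / 4 * (c ^ (2 : ℕ) * (1 + c) * (47 / 25 + 67 / 10 * c)) := by
  obtain ⟨A, hA⟩ : ∃ A, A = c - 1 / 10 := ⟨_, rfl⟩
  obtain ⟨B, hB⟩ : ∃ B, B = 13 / 100 - c := ⟨_, rfl⟩
  have hA0 : 0 ≤ A := by rw [hA]; linarith only [h1]
  have hB0 : 0 ≤ B := by rw [hB]; linarith only [h2]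
  have h : (1 - c) * (47 / 25 + 67 / 10 * c) * (1 - c * (47 / 25 + 67 / 10 * c) / 2 + (c * (47 / 25 + 67 / 10 * c)) ^ (2 : ℕ) * (17 / 120)) +
      3 / 4 * (c ^ (2 : ℕ) * (1 + c) * (47 / 25 + 67 / 10 * c)) - (20421 / 10000) =
      274028125 / 81 * B ^ (6 : ℕ) +
      2985760750 / 81 * A * B ^ (5 : ℕ) +
      39167552785 / 324 * A ^ (2 : ℕ) * B ^ (4 : ℕ) +
      74355138538 / 405 * A ^ (3 : ℕ) * B ^ (3 : ℕ) +
      4645384906711 / 32400 * A ^ (4 : ℕ) * B ^ (2 : ℕ) +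
      4496708371297 / 81000 * A ^ (5 : ℕ) * B +
      26964591584563 / 3240000 * A ^ (6 : ℕ) := by
    rw [hA, hB]
    ring
  have h0 : 0 ≤ 274028125 / 81 * B ^ (6 : ℕ) +
      2985760750 / 81 * A * B ^ (5 : ℕ) +
      39167552785 / 324 * A ^ (2 : ℕ) * B ^ (4 : ℕ) +
      74355138538 / 405 * A ^ (3 : ℕ) * B ^ (3 : ℕ) +
      4645384906711 / 32400 * A ^ (4 : ℕ) * B ^ (2 : ℕ) +
      4496708371297 / 81000 * A ^ (5 : ℕ) * B +
      26964591584563 / 3240000 * A ^ (6 : ℕ) := by positivity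
  linarith only [h, h0]

theorem n22_E {c : ℝ} (h1 : 1 / 10 ≤ c) (h2 : c ≤ 13 / 100) :
    93 / 20 ≤ 4444 / 625 * (c * (6283 / 1000 * (137 / 25 - (47 / 25 + 67 / 10 * c)) -
      (1 - c) * (150152 / 10000 - 274277 / 10000 * c + 37577 / 1000 * c ^ (2 : ℕ)) - 4183 / 100 * c ^ (2 : ℕ))) := by
  obtain ⟨A, hA⟩ : ∃ A, A = c - 1 / 10 := ⟨_, rfl⟩
  obtain ⟨B, hB⟩ : ∃ B, B = 13 / 100 - c := ⟨_, rfl⟩
  have hA0 : 0 ≤ A := by rw [hA]; linarith only [h1]
  have hB0 : 0 ≤ B := by rw [hB]; linarith only [h2]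
  have h : 4444 / 625 * (c * (6283 / 1000 * (137 / 25 - (47 / 25 + 67 / 10 * c)) -
      (1 - c) * (150152 / 10000 - 274277 / 10000 * c + 37577 / 1000 * c ^ (2 : ℕ)) - 4183 / 100 * c ^ (2 : ℕ))) - (93 / 20) =
      120509776 / 2025 * B ^ (4 : ℕ) +
      73621179964 / 50625 * A * B ^ (3 : ℕ) +
      318347759086 / 84375 * A ^ (2 : ℕ) * B ^ (2 : ℕ) +
      4302580299397 / 1265625 * A ^ (3 : ℕ) * B +
      12929129613877 / 12656250 * A ^ (4 : ℕ) := by
    rw [hA, hB]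
    ring
  have h0 : 0 ≤ 120509776 / 2025 * B ^ (4 : ℕ) +
      73621179964 / 50625 * A * B ^ (3 : ℕ) +
      318347759086 / 84375 * A ^ (2 : ℕ) * B ^ (2 : ℕ) +
      4302580299397 / 1265625 * A ^ (3 : ℕ) * B +
      12929129613877 / 12656250 * A ^ (4 : ℕ) := by positivity
  linarith only [h, h0]

theorem n23_nb {c : ℝ} (h1 : 13 / 100 ≤ c) (h2 : c ≤ 4 / 25) :
    20421 / 10000 ≤ (1 - c) * (43 / 25 + 159 / 20 * c) * (1 - c * (43 / 25 + 159 / 20 * c) / 2 + (c * (43 / 25 + 159 / 20 * c)) ^ (2 : ℕ) * (17 / 120)) +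
      3 / 4 * (c ^ (2 : ℕ) * (1 + c) * (43 / 25 + 159 / 20 * c)) := by
  obtain ⟨A, hA⟩ : ∃ A, A = c - 13 / 100 := ⟨_, rfl⟩
  obtain ⟨B, hB⟩ : ∃ B, B = 4 / 25 - c := ⟨_, rfl⟩
  have hA0 : 0 ≤ A := by rw [hA]; linarith only [h1]
  have hB0 : 0 ≤ B := by rw [hB]; linarith only [h2]
  have h : (1 - c) * (43 / 25 + 159 / 20 * c) * (1 - c * (43 / 25 + 159 / 20 * c) / 2 + (c * (43 / 25 + 159 / 20 * c)) ^ (2 : ℕ) * (17 / 120)) +
      3 / 4 * (c ^ (2 : ℕ) * (1 + c) * (43 / 25 + 159 / 20 * c)) - (20421 / 10000) =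
      2437752193622231 / 233280000 * B ^ (6 : ℕ) +
      5176067135389973 / 58320000 * A * B ^ (5 : ℕ) +
      24921787592371 / 91125 * A ^ (2 : ℕ) * B ^ (4 : ℕ) +
      12661490912252 / 30375 * A ^ (3 : ℕ) * B ^ (3 : ℕ) +
      31022323540064 / 91125 * A ^ (4 : ℕ) * B ^ (2 : ℕ) +
      65268718397696 / 455625 * A ^ (5 : ℕ) * B +
      11147283729152 / 455625 * A ^ (6 : ℕ) := by
    rw [hA, hB]
    ring
  have h0 : 0 ≤ 2437752193622231 / 233280000 * B ^ (6 : ℕ) +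
      5176067135389973 / 58320000 * A * B ^ (5 : ℕ) +
      24921787592371 / 91125 * A ^ (2 : ℕ) * B ^ (4 : ℕ) +
      12661490912252 / 30375 * A ^ (3 : ℕ) * B ^ (3 : ℕ) +
      31022323540064 / 91125 * A ^ (4 : ℕ) * B ^ (2 : ℕ) +
      65268718397696 / 455625 * A ^ (5 : ℕ) * B +
      11147283729152 / 455625 * A ^ (6 : ℕ) := by positivity
  linarith only [h, h0]

theorem n23_E {c : ℝ} (h1 : 13 / 100 ≤ c) (h2 : c ≤ 4 / 25) :
    19 / 4 ≤ 4444 / 625 * (c * (6283 / 1000 * (137 / 25 - (43 / 25 + 159 / 20 * c)) -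
      (1 - c) * (150152 / 10000 - 274277 / 10000 * c + 37577 / 1000 * c ^ (2 : ℕ)) - 263 / 5 * c ^ (2 : ℕ))) := by
  obtain ⟨A, hA⟩ : ∃ A, A = c - 13 / 100 := ⟨_, rfl⟩
  obtain ⟨B, hB⟩ : ∃ B, B = 4 / 25 - c := ⟨_, rfl⟩
  have hA0 : 0 ≤ A := by rw [hA]; linarith only [h1]
  have hB0 : 0 ≤ B := by rw [hB]; linarith only [h2]
  have h : 4444 / 625 * (c * (6283 / 1000 * (137 / 25 - (43 / 25 + 159 / 20 * c)) -
      (1 - c) * (150152 / 10000 - 274277 / 10000 * c + 37577 / 1000 * c ^ (2 : ℕ)) - 263 / 5 * c ^ (2 : ℕ))) - (19 / 4) =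
      8510952432377 / 12656250 * B ^ (4 : ℕ) +
      18729636384523 / 6328125 * A * B ^ (3 : ℕ) +
      9392725302938 / 2109375 * A ^ (2 : ℕ) * B ^ (2 : ℕ) +
      17042265248512 / 6328125 * A ^ (3 : ℕ) * B +
      3339940303936 / 6328125 * A ^ (4 : ℕ) := by
    rw [hA, hB]
    ring
  have h0 : 0 ≤ 8510952432377 / 12656250 * B ^ (4 : ℕ) +
      18729636384523 / 6328125 * A * B ^ (3 : ℕ) +
      9392725302938 / 2109375 * A ^ (2 : ℕ) * B ^ (2 : ℕ) +
      17042265248512 / 6328125 * A ^ (3 : ℕ) * B +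
      3339940303936 / 6328125 * A ^ (4 : ℕ) := by positivity
  linarith only [h, h0]

theorem n24_nb {c : ℝ} (h1 : 4 / 25 ≤ c) (h2 : c ≤ 25 / 137) :
    20421 / 10000 ≤ (1 - c) * (37 / 25 + 189 / 20 * c) * (1 - c * (37 / 25 + 189 / 20 * c) / 2 + (c * (37 / 25 + 189 / 20 * c)) ^ (2 : ℕ) * (17 / 120)) +
      3 / 4 * (c ^ (2 : ℕ) * (1 + c) * (37 / 25 + 189 / 20 * c)) := by
  obtain ⟨A, hA⟩ : ∃ A, A = c - 4 / 25 := ⟨_, rfl⟩
  obtain ⟨B, hB⟩ : ∃ B, B = 25 / 137 - c := ⟨_, rfl⟩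
  have hA0 : 0 ≤ A := by rw [hA]; linarith only [h1]
  have hB0 : 0 ≤ B := by rw [hB]; linarith only [h2]
  have h : (1 - c) * (37 / 25 + 189 / 20 * c) * (1 - c * (37 / 25 + 189 / 20 * c) / 2 + (c * (37 / 25 + 189 / 20 * c)) ^ (2 : ℕ) * (17 / 120)) +
      3 / 4 * (c ^ (2 : ℕ) * (1 + c) * (37 / 25 + 189 / 20 * c)) - (20421 / 10000) =
      287907178132443961683803 / 2084223800890000 * B ^ (6 : ℕ) +
      616116747898293880647373 / 625267140267000 * A * B ^ (5 : ℕ) +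
      703319880400559217278293 / 250106856106800 * A ^ (2 : ℕ) * B ^ (4 : ℕ) +
      13012706447572312193543 / 3126335701335 * A ^ (3 : ℕ) * B ^ (3 : ℕ) +
      67953260394477973450505 / 20008548488544 * A ^ (4 : ℕ) * B ^ (2 : ℕ) +
      466074348553755219528125 / 320136775816704 * A ^ (5 : ℕ) * B +
      5143941853127289453125 / 20008548488544 * A ^ (6 : ℕ) := by
    rw [hA, hB]
    ring
  have h0 : 0 ≤ 287907178132443961683803 / 2084223800890000 * B ^ (6 : ℕ) +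
      616116747898293880647373 / 625267140267000 * A * B ^ (5 : ℕ) +
      703319880400559217278293 / 250106856106800 * A ^ (2 : ℕ) * B ^ (4 : ℕ) +
      13012706447572312193543 / 3126335701335 * A ^ (3 : ℕ) * B ^ (3 : ℕ) +
      67953260394477973450505 / 20008548488544 * A ^ (4 : ℕ) * B ^ (2 : ℕ) +
      466074348553755219528125 / 320136775816704 * A ^ (5 : ℕ) * B +
      5143941853127289453125 / 20008548488544 * A ^ (6 : ℕ) := by positivity
  linarith only [h, h0]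

theorem n24_E {c : ℝ} (h1 : 4 / 25 ≤ c) (h2 : c ≤ 25 / 137) :
    97 / 20 * (1 - c) ≤ 1158 / 25 * (c ^ (2 : ℕ) * (6283 / 1000 * (137 / 25 - (37 / 25 + 189 / 20 * c)) -
      (1 - c) * (150152 / 10000 - 274277 / 10000 * c + 37577 / 1000 * c ^ (2 : ℕ)) - 1728 / 25 * c ^ (2 : ℕ))) := by
  obtain ⟨A, hA⟩ : ∃ A, A = c - 4 / 25 := ⟨_, rfl⟩
  obtain ⟨B, hB⟩ : ∃ B, B = 25 / 137 - c := ⟨_, rfl⟩
  have hA0 : 0 ≤ A := by rw [hA]; linarith only [h1]
  have hB0 : 0 ≤ B := by rw [hB]; linarith only [h2]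
  have h : 1158 / 25 * (c ^ (2 : ℕ) * (6283 / 1000 * (137 / 25 - (37 / 25 + 189 / 20 * c)) -
      (1 - c) * (150152 / 10000 - 274277 / 10000 * c + 37577 / 1000 * c ^ (2 : ℕ)) - 1728 / 25 * c ^ (2 : ℕ))) - (97 / 20 * (1 - c)) =
      691016400660510632997 / 4833543137500 * B ^ (5 : ℕ) +
      171324666311925492034 / 241677156875 * A * B ^ (4 : ℕ) +
      51675337458246063619 / 38668345100 * A ^ (2 : ℕ) * B ^ (3 : ℕ) +
      7280886143691303879 / 6186935216 * A ^ (3 : ℕ) * B ^ (2 : ℕ) +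
      179839041432816250 / 386683451 * A ^ (4 : ℕ) * B +
      363192816586328125 / 6186935216 * A ^ (5 : ℕ) := by
    rw [hA, hB]
    ring
  have h0 : 0 ≤ 691016400660510632997 / 4833543137500 * B ^ (5 : ℕ) +
      171324666311925492034 / 241677156875 * A * B ^ (4 : ℕ) +
      51675337458246063619 / 38668345100 * A ^ (2 : ℕ) * B ^ (3 : ℕ) +
      7280886143691303879 / 6186935216 * A ^ (3 : ℕ) * B ^ (2 : ℕ) +
      179839041432816250 / 386683451 * A ^ (4 : ℕ) * B +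
      363192816586328125 / 6186935216 * A ^ (5 : ℕ) := by positivity
  linarith only [h, h0]

theorem p11_yb {c : ℝ} (h1 : 0 ≤ c) (h2 : c ≤ 11 / 100) :
    3927 / 2500 ≤ (1 - c) * (3927 / 2500 + 2 / 5 * c) * (1 + c * (3927 / 2500 + 2 / 5 * c) / 2 + (c * (3927 / 2500 + 2 / 5 * c)) ^ (2 : ℕ) / 6) + c ^ (2 : ℕ) * (1 + c) * (3927 / 2500 + 2 / 5 * c) := by
  obtain ⟨A, hA⟩ : ∃ A, A = c - 0 := ⟨_, rfl⟩
  obtain ⟨B, hB⟩ : ∃ B, B = 11 / 100 - c := ⟨_, rfl⟩
  have hA0 : 0 ≤ A := by rw [hA]; linarith only [h1]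
  have hB0 : 0 ≤ B := by rw [hB]; linarith only [h2]
  have h : (1 - c) * (3927 / 2500 + 2 / 5 * c) * (1 + c * (3927 / 2500 + 2 / 5 * c) / 2 + (c * (3927 / 2500 + 2 / 5 * c)) ^ (2 : ℕ) / 6) + c ^ (2 : ℕ) * (1 + c) * (3927 / 2500 + 2 / 5 * c) - (3927 / 2500) =
      629063200 / 161051 * A * B ^ (5 : ℕ) +
      2798647837542 / 100656875 * A ^ (2 : ℕ) * B ^ (4 : ℕ) +
      367949481938419 / 5032843750 * A ^ (3 : ℕ) * B ^ (3 : ℕ) +
      460816455033667 / 5032843750 * A ^ (4 : ℕ) * B ^ (2 : ℕ) +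
      837652935819331 / 15098531250 * A ^ (5 : ℕ) * B +
      198229354851287 / 15098531250 * A ^ (6 : ℕ) := by
    rw [hA, hB]
    ring
  have h0 : 0 ≤ 629063200 / 161051 * A * B ^ (5 : ℕ) +
      2798647837542 / 100656875 * A ^ (2 : ℕ) * B ^ (4 : ℕ) +
      367949481938419 / 5032843750 * A ^ (3 : ℕ) * B ^ (3 : ℕ) +
      460816455033667 / 5032843750 * A ^ (4 : ℕ) * B ^ (2 : ℕ) +
      837652935819331 / 15098531250 * A ^ (5 : ℕ) * B +
      198229354851287 / 15098531250 * A ^ (6 : ℕ) := by positivity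
  linarith

theorem p11_E {c : ℝ} (h1 : 0 ≤ c) (h2 : c ≤ 11 / 100) :
    17 / 4 ≤ 5471 / 10000 * ((1 - c) * (1 + c * (3927 / 2500 + 2 / 5 * c)) * (6283 / 1000 * (137 / 25 - (3927 / 2500 + 2 / 5 * c)) -
      (1 - c) * (150152 / 10000 + 274278 / 10000 * c + 37577 / 1000 * c ^ (2 : ℕ) + 49421 / 1000 * c ^ (3 : ℕ)) - 483 / 25 * c ^ (2 : ℕ))) := by
  obtain ⟨A, hA⟩ : ∃ A, A = c - 0 := ⟨_, rfl⟩
  obtain ⟨B, hB⟩ : ∃ B, B = 11 / 100 - c := ⟨_, rfl⟩
  have hA0 : 0 ≤ A := by rw [hA]; linarith only [h1]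
  have hB0 : 0 ≤ B := by rw [hB]; linarith only [h2]
  have h : 5471 / 10000 * ((1 - c) * (1 + c * (3927 / 2500 + 2 / 5 * c)) * (6283 / 1000 * (137 / 25 - (3927 / 2500 + 2 / 5 * c)) -
      (1 - c) * (150152 / 10000 + 274278 / 10000 * c + 37577 / 1000 * c ^ (2 : ℕ) + 49421 / 1000 * c ^ (3 : ℕ)) - 483 / 25 * c ^ (2 : ℕ))) - (17 / 4) =
      97278269956000 / 19487171 * B ^ (7 : ℕ) +
      77989467590749666 / 2435896375 * A * B ^ (6 : ℕ) +
      10425647197390646637 / 121794818750 * A ^ (2 : ℕ) * B ^ (5 : ℕ) +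
      298178524702719526 / 2435896375 * A ^ (3 : ℕ) * B ^ (4 : ℕ) +
      120932409128856398861 / 1217948187500 * A ^ (4 : ℕ) * B ^ (3 : ℕ) +
      85737698670093336351 / 1948717100000 * A ^ (5 : ℕ) * B ^ (2 : ℕ) +
      43433693379091958550323 / 4871792750000000 * A ^ (6 : ℕ) * B +
      1828501327112293709213 / 4871792750000000 * A ^ (7 : ℕ) := by
    rw [hA, hB]
    ring
  have h0 : 0 ≤ 97278269956000 / 19487171 * B ^ (7 : ℕ) +
      77989467590749666 / 2435896375 * A * B ^ (6 : ℕ) +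
      10425647197390646637 / 121794818750 * A ^ (2 : ℕ) * B ^ (5 : ℕ) +
      298178524702719526 / 2435896375 * A ^ (3 : ℕ) * B ^ (4 : ℕ) +
      120932409128856398861 / 1217948187500 * A ^ (4 : ℕ) * B ^ (3 : ℕ) +
      85737698670093336351 / 1948717100000 * A ^ (5 : ℕ) * B ^ (2 : ℕ) +
      43433693379091958550323 / 4871792750000000 * A ^ (6 : ℕ) * B +
      1828501327112293709213 / 4871792750000000 * A ^ (7 : ℕ) := by positivity
  linarith

theorem p12_yb {c : ℝ} (h1 : 11 / 100 ≤ c) (h2 : c ≤ 25 / 137) :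
    3927 / 2500 ≤ (1 - c) * (3927 / 2500 + 2 / 5 * c) * (1 + c * (3927 / 2500 + 2 / 5 * c) / 2 + (c * (3927 / 2500 + 2 / 5 * c)) ^ (2 : ℕ) / 6) + c ^ (2 : ℕ) * (1 + c) * (3927 / 2500 + 2 / 5 * c) := by
  obtain ⟨A, hA⟩ : ∃ A, A = c - 11 / 100 := ⟨_, rfl⟩
  obtain ⟨B, hB⟩ : ∃ B, B = 25 / 137 - c := ⟨_, rfl⟩
  have hA0 : 0 ≤ A := by rw [hA]; linarith only [h1]
  have hB0 : 0 ≤ B := by rw [hB]; linarith only [h2]
  have h : (1 - c) * (3927 / 2500 + 2 / 5 * c) * (1 + c * (3927 / 2500 + 2 / 5 * c) / 2 + (c * (3927 / 2500 + 2 / 5 * c)) ^ (2 : ℕ) / 6) + c ^ (2 : ℕ) * (1 + c) * (3927 / 2500 + 2 / 5 * c) - (3927 / 2500) =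
      14417303988204385934580021613 / 89880766491963342093750 * B ^ (6 : ℕ) +
      11484418710441050048789629541 / 9986751832440371343750 * A * B ^ (5 : ℕ) +
      101944195615276620702102552733 / 29960255497321114031250 * A ^ (2 : ℕ) * B ^ (4 : ℕ) +
      478370191530170320549040109143 / 89880766491963342093750 * A ^ (3 : ℕ) * B ^ (3 : ℕ) +
      11452709035131570157083956 / 2465864649985276875 * A ^ (4 : ℕ) * B ^ (2 : ℕ) +
      2056822315533555483975752 / 958728175914275649 * A ^ (5 : ℕ) * B +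
      1179389308227278125760000 / 2876184527742826947 * A ^ (6 : ℕ) := by
    rw [hA, hB]
    ring
  have h0 : 0 ≤ 14417303988204385934580021613 / 89880766491963342093750 * B ^ (6 : ℕ) +
      11484418710441050048789629541 / 9986751832440371343750 * A * B ^ (5 : ℕ) +
      101944195615276620702102552733 / 29960255497321114031250 * A ^ (2 : ℕ) * B ^ (4 : ℕ) +
      478370191530170320549040109143 / 89880766491963342093750 * A ^ (3 : ℕ) * B ^ (3 : ℕ) +
      11452709035131570157083956 / 2465864649985276875 * A ^ (4 : ℕ) * B ^ (2 : ℕ) +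
      2056822315533555483975752 / 958728175914275649 * A ^ (5 : ℕ) * B +
      1179389308227278125760000 / 2876184527742826947 * A ^ (6 : ℕ) := by positivity
  linarith only [h, h0]

theorem p12_E {c : ℝ} (h1 : 11 / 100 ≤ c) (h2 : c ≤ 25 / 137) :
    4 ≤ 52249 / 10000 * (c * (6283 / 1000 * (137 / 25 - (3927 / 2500 + 2 / 5 * c)) -
      (1 - c) * (150152 / 10000 + 274278 / 10000 * c + 37577 / 1000 * c ^ (2 : ℕ) + 49421 / 1000 * c ^ (3 : ℕ)) - 107 / 5 * c ^ (2 : ℕ))) := by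
  obtain ⟨A, hA⟩ : ∃ A, A = c - 11 / 100 := ⟨_, rfl⟩
  obtain ⟨B, hB⟩ : ∃ B, B = 25 / 137 - c := ⟨_, rfl⟩
  have hA0 : 0 ≤ A := by rw [hA]; linarith only [h1]
  have hB0 : 0 ≤ B := by rw [hB]; linarith only [h2]
  have h : 52249 / 10000 * (c * (6283 / 1000 * (137 / 25 - (3927 / 2500 + 2 / 5 * c)) -
      (1 - c) * (150152 / 10000 + 274278 / 10000 * c + 37577 / 1000 * c ^ (2 : ℕ) + 49421 / 1000 * c ^ (3 : ℕ)) - 107 / 5 * c ^ (2 : ℕ))) - (4) =
      1538096291884352957870456303 / 9654865819881930000000 * B ^ (5 : ℕ) +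
      169945100458943687277775933 / 96548658198819300000 * A * B ^ (4 : ℕ) +
      6151718702672505610152793 / 1206858227485241250 * A ^ (2 : ℕ) * B ^ (3 : ℕ) +
      1518989812291846722427343 / 241371645497048250 * A ^ (3 : ℕ) * B ^ (2 : ℕ) +
      854404236038272427960257 / 241371645497048250 * A ^ (4 : ℕ) * B +
      717640589458299587510 / 965486581988193 * A ^ (5 : ℕ) := by
    rw [hA, hB]
    ring
  have h0 : 0 ≤ 1538096291884352957870456303 / 9654865819881930000000 * B ^ (5 : ℕ) +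
      169945100458943687277775933 / 96548658198819300000 * A * B ^ (4 : ℕ) +
      6151718702672505610152793 / 1206858227485241250 * A ^ (2 : ℕ) * B ^ (3 : ℕ) +
      1518989812291846722427343 / 241371645497048250 * A ^ (3 : ℕ) * B ^ (2 : ℕ) +
      854404236038272427960257 / 241371645497048250 * A ^ (4 : ℕ) * B +
      717640589458299587510 / 965486581988193 * A ^ (5 : ℕ) := by positivity
  linarith only [h, h0]

theorem p21_yb {c : ℝ} (h1 : 0 ≤ c) (h2 : c ≤ 7 / 50) :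
    20421 / 10000 ≤ (1 - c) * (20421 / 10000 + 1 / 20 * c) * (1 + c * (20421 / 10000 + 1 / 20 * c) / 2 + (c * (20421 / 10000 + 1 / 20 * c)) ^ (2 : ℕ) / 6) + c ^ (2 : ℕ) * (1 + c) * (20421 / 10000 + 1 / 20 * c) := by
  obtain ⟨A, hA⟩ : ∃ A, A = c - 0 := ⟨_, rfl⟩
  obtain ⟨B, hB⟩ : ∃ B, B = 7 / 50 - c := ⟨_, rfl⟩
  have hA0 : 0 ≤ A := by rw [hA]; linarith only [h1]
  have hB0 : 0 ≤ B := by rw [hB]; linarith only [h2]
  have h : (1 - c) * (20421 / 10000 + 1 / 20 * c) * (1 + c * (20421 / 10000 + 1 / 20 * c) / 2 + (c * (20421 / 10000 + 1 / 20 * c)) ^ (2 : ℕ) / 6) + c ^ (2 : ℕ) * (1 + c) * (20421 / 10000 + 1 / 20 * c) - (20421 / 10000) =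
      464931025 / 268912 * A * B ^ (5 : ℕ) +
      66491220146409 / 5378240000 * A ^ (2 : ℕ) * B ^ (4 : ℕ) +
      8715199530071437 / 268912000000 * A ^ (3 : ℕ) * B ^ (3 : ℕ) +
      10846816299169981 / 268912000000 * A ^ (4 : ℕ) * B ^ (2 : ℕ) +
      19564854148026053 / 806736000000 * A ^ (5 : ℕ) * B +
      4591113876962071 / 806736000000 * A ^ (6 : ℕ) := by
    rw [hA, hB]
    ring
  have h0 : 0 ≤ 464931025 / 268912 * A * B ^ (5 : ℕ) +
      66491220146409 / 5378240000 * A ^ (2 : ℕ) * B ^ (4 : ℕ) +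
      8715199530071437 / 268912000000 * A ^ (3 : ℕ) * B ^ (3 : ℕ) +
      10846816299169981 / 268912000000 * A ^ (4 : ℕ) * B ^ (2 : ℕ) +
      19564854148026053 / 806736000000 * A ^ (5 : ℕ) * B +
      4591113876962071 / 806736000000 * A ^ (6 : ℕ) := by positivity
  linarith

theorem p21_E {c : ℝ} (h1 : 0 ≤ c) (h2 : c ≤ 7 / 50) :
    17 / 4 ≤ 2533 / 2500 * ((1 - c) * (1 + c * (20421 / 10000 + 1 / 20 * c)) * (6283 / 1000 * (137 / 25 - (20421 / 10000 + 1 / 20 * c)) -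
      (1 - c) * (150152 / 10000 + 274278 / 10000 * c + 37577 / 1000 * c ^ (2 : ℕ) + 49421 / 1000 * c ^ (3 : ℕ)) - 2017 / 100 * c ^ (2 : ℕ))) := by
  obtain ⟨A, hA⟩ : ∃ A, A = c - 0 := ⟨_, rfl⟩
  obtain ⟨B, hB⟩ : ∃ B, B = 7 / 50 - c := ⟨_, rfl⟩
  have hA0 : 0 ≤ A := by rw [hA]; linarith only [h1]
  have hB0 : 0 ≤ B := by rw [hB]; linarith only [h2]
  have h : 2533 / 2500 * ((1 - c) * (1 + c * (20421 / 10000 + 1 / 20 * c)) * (6283 / 1000 * (137 / 25 - (20421 / 10000 + 1 / 20 * c)) -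
      (1 - c) * (150152 / 10000 + 274278 / 10000 * c + 37577 / 1000 * c ^ (2 : ℕ) + 49421 / 1000 * c ^ (3 : ℕ)) - 2017 / 100 * c ^ (2 : ℕ))) - (17 / 4) =
      154467433625 / 67228 * B ^ (7 : ℕ) +
      28790166874816001 / 1882384000 * A * B ^ (6 : ℕ) +
      3995172788051959293 / 94119200000 * A ^ (2 : ℕ) * B ^ (5 : ℕ) +
      1189514314066629619 / 18823840000 * A ^ (3 : ℕ) * B ^ (4 : ℕ) +
      12658076864553339223 / 235298000000 * A ^ (4 : ℕ) * B ^ (3 : ℕ) +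
      6012702088777165883 / 235298000000 * A ^ (5 : ℕ) * B ^ (2 : ℕ) +
      174404478199006763277 / 29412250000000 * A ^ (6 : ℕ) * B +
      6342388430794699621 / 14706125000000 * A ^ (7 : ℕ) := by
    rw [hA, hB]
    ring
  have h0 : 0 ≤ 154467433625 / 67228 * B ^ (7 : ℕ) +
      28790166874816001 / 1882384000 * A * B ^ (6 : ℕ) +
      3995172788051959293 / 94119200000 * A ^ (2 : ℕ) * B ^ (5 : ℕ) +
      1189514314066629619 / 18823840000 * A ^ (3 : ℕ) * B ^ (4 : ℕ) +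
      12658076864553339223 / 235298000000 * A ^ (4 : ℕ) * B ^ (3 : ℕ) +
      6012702088777165883 / 235298000000 * A ^ (5 : ℕ) * B ^ (2 : ℕ) +
      174404478199006763277 / 29412250000000 * A ^ (6 : ℕ) * B +
      6342388430794699621 / 14706125000000 * A ^ (7 : ℕ) := by positivity
  linarith

theorem p22_yb {c : ℝ} (h1 : 7 / 50 ≤ c) (h2 : c ≤ 25 / 137) :
    20421 / 10000 ≤ (1 - c) * (20421 / 10000 + 1 / 20 * c) * (1 + c * (20421 / 10000 + 1 / 20 * c) / 2 + (c * (20421 / 10000 + 1 / 20 * c)) ^ (2 : ℕ) / 6) + c ^ (2 : ℕ) * (1 + c) * (20421 / 10000 + 1 / 20 * c) := by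
  obtain ⟨A, hA⟩ : ∃ A, A = c - 7 / 50 := ⟨_, rfl⟩
  obtain ⟨B, hB⟩ : ∃ B, B = 25 / 137 - c := ⟨_, rfl⟩
  have hA0 : 0 ≤ A := by rw [hA]; linarith only [h1]
  have hB0 : 0 ≤ B := by rw [hB]; linarith only [h2]
  have h : (1 - c) * (20421 / 10000 + 1 / 20 * c) * (1 + c * (20421 / 10000 + 1 / 20 * c) / 2 + (c * (20421 / 10000 + 1 / 20 * c)) ^ (2 : ℕ) / 6) + c ^ (2 : ℕ) * (1 + c) * (20421 / 10000 + 1 / 20 * c) - (20421 / 10000) =
      212490494892545719537545558673 / 29147356396475568000000 * B ^ (6 : ℕ) +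
      462347023008088771651878130063 / 9715785465491856000000 * A * B ^ (5 : ℕ) +
      139374691220266238325428396417 / 1079531718387984000000 * A ^ (2 : ℕ) * B ^ (4 : ℕ) +
      5432111468891272862277890074043 / 29147356396475568000000 * A ^ (3 : ℕ) * B ^ (3 : ℕ) +
      1833619504962598414199919437 / 12144731831864820000 * A ^ (4 : ℕ) * B ^ (2 : ℕ) +
      3372877318080433202756867 / 51817522482623232 * A ^ (5 : ℕ) * B +
      170051029792602634394375 / 14573678198237784 * A ^ (6 : ℕ) := by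
    rw [hA, hB]
    ring
  have h0 : 0 ≤ 212490494892545719537545558673 / 29147356396475568000000 * B ^ (6 : ℕ) +
      462347023008088771651878130063 / 9715785465491856000000 * A * B ^ (5 : ℕ) +
      139374691220266238325428396417 / 1079531718387984000000 * A ^ (2 : ℕ) * B ^ (4 : ℕ) +
      5432111468891272862277890074043 / 29147356396475568000000 * A ^ (3 : ℕ) * B ^ (3 : ℕ) +
      1833619504962598414199919437 / 12144731831864820000 * A ^ (4 : ℕ) * B ^ (2 : ℕ) +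
      3372877318080433202756867 / 51817522482623232 * A ^ (5 : ℕ) * B +
      170051029792602634394375 / 14573678198237784 * A ^ (6 : ℕ) := by positivity
  linarith only [h, h0]

theorem p22_E {c : ℝ} (h1 : 7 / 50 ≤ c) (h2 : c ≤ 25 / 137) :
    4 ≤ 4444 / 625 * (c * (6283 / 1000 * (137 / 25 - (20421 / 10000 + 1 / 20 * c)) -
      (1 - c) * (150152 / 10000 + 274278 / 10000 * c + 37577 / 1000 * c ^ (2 : ℕ) + 49421 / 1000 * c ^ (3 : ℕ)) - 107 / 5 * c ^ (2 : ℕ))) := by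
  obtain ⟨A, hA⟩ : ∃ A, A = c - 7 / 50 := ⟨_, rfl⟩
  obtain ⟨B, hB⟩ : ∃ B, B = 25 / 137 - c := ⟨_, rfl⟩
  have hA0 : 0 ≤ A := by rw [hA]; linarith only [h1]
  have hB0 : 0 ≤ B := by rw [hB]; linarith only [h2]
  have h : 4444 / 625 * (c * (6283 / 1000 * (137 / 25 - (20421 / 10000 + 1 / 20 * c)) -
      (1 - c) * (150152 / 10000 + 274278 / 10000 * c + 37577 / 1000 * c ^ (2 : ℕ) + 49421 / 1000 * c ^ (3 : ℕ)) - 107 / 5 * c ^ (2 : ℕ))) - (4) =
      59913470821945051464674 / 54341762563828125 * B ^ (5 : ℕ) +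
      642668179377968081057 / 80506314909375 * A * B ^ (4 : ℕ) +
      8039688469351309065536 / 434734100510625 * A ^ (2 : ℕ) * B ^ (3 : ℕ) +
      1608177313697893225157 / 86946820102125 * A ^ (3 : ℕ) * B ^ (2 : ℕ) +
      459927599708150190097 / 57964546734750 * A ^ (4 : ℕ) * B +
      731698021613931245 / 695574560817 * A ^ (5 : ℕ) := by
    rw [hA, hB]
    ring
  have h0 : 0 ≤ 59913470821945051464674 / 54341762563828125 * B ^ (5 : ℕ) +
      642668179377968081057 / 80506314909375 * A * B ^ (4 : ℕ) +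
      8039688469351309065536 / 434734100510625 * A ^ (2 : ℕ) * B ^ (3 : ℕ) +
      1608177313697893225157 / 86946820102125 * A ^ (3 : ℕ) * B ^ (2 : ℕ) +
      459927599708150190097 / 57964546734750 * A ^ (4 : ℕ) * B +
      731698021613931245 / 695574560817 * A ^ (5 : ℕ) := by positivity
  linarith only [h, h0]

theorem nn1_E {c : ℝ} (h1 : 0 ≤ c) (h2 : c ≤ 19 / 200) :
    44 / 5 ≤ 5471 / 10000 * ((1 - c) * (6283 / 1000 * (137 / 25) -
      (1 - c) * (150152 / 10000 + 274278 / 10000 * c + 37577 / 1000 * c ^ (2 : ℕ) + 49421 / 1000 * c ^ (3 : ℕ)) - 469 / 20 * c ^ (2 : ℕ))) := by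
  obtain ⟨A, hA⟩ : ∃ A, A = c - 0 := ⟨_, rfl⟩
  obtain ⟨B, hB⟩ : ∃ B, B = 19 / 200 - c := ⟨_, rfl⟩
  have hA0 : 0 ≤ A := by rw [hA]; linarith only [h1]
  have hB0 : 0 ≤ B := by rw [hB]; linarith only [h2]
  have h : 5471 / 10000 * ((1 - c) * (6283 / 1000 * (137 / 25) -
      (1 - c) * (150152 / 10000 + 274278 / 10000 * c + 37577 / 1000 * c ^ (2 : ℕ) + 49421 / 1000 * c ^ (3 : ℕ)) - 469 / 20 * c ^ (2 : ℕ))) - (44 / 5) =
      583134926080 / 2476099 * B ^ (5 : ℕ) +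
      11931562176192 / 12380495 * A * B ^ (4 : ℕ) +
      92010628168148 / 61902475 * A ^ (2 : ℕ) * B ^ (3 : ℕ) +
      1598759710201632 / 1547561875 * A ^ (3 : ℕ) * B ^ (2 : ℕ) +
      7052044250008947 / 24760990000 * A ^ (4 : ℕ) * B +
      243695569137672191 / 24760990000000 * A ^ (5 : ℕ) := by
    rw [hA, hB]
    ring
  have h0 : 0 ≤ 583134926080 / 2476099 * B ^ (5 : ℕ) +
      11931562176192 / 12380495 * A * B ^ (4 : ℕ) +
      92010628168148 / 61902475 * A ^ (2 : ℕ) * B ^ (3 : ℕ) +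
      1598759710201632 / 1547561875 * A ^ (3 : ℕ) * B ^ (2 : ℕ) +
      7052044250008947 / 24760990000 * A ^ (4 : ℕ) * B +
      243695569137672191 / 24760990000000 * A ^ (5 : ℕ) := by positivity
  linarith

theorem nn2_E {c : ℝ} (h1 : 19 / 200 ≤ c) (h2 : c ≤ 25 / 137) :
    44 / 5 ≤ 52249 / 10000 * (c * (6283 / 1000 * (137 / 25) -
      (1 - c) * (150152 / 10000 + 274278 / 10000 * c + 37577 / 1000 * c ^ (2 : ℕ) + 49421 / 1000 * c ^ (3 : ℕ)) - 469 / 20 * c ^ (2 : ℕ))) := by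
  obtain ⟨A, hA⟩ : ∃ A, A = c - 19 / 200 := ⟨_, rfl⟩
  obtain ⟨B, hB⟩ : ∃ B, B = 25 / 137 - c := ⟨_, rfl⟩
  have hA0 : 0 ≤ A := by rw [hA]; linarith only [h1]
  have hB0 : 0 ≤ B := by rw [hB]; linarith only [h2]
  have h : 52249 / 10000 * (c * (6283 / 1000 * (137 / 25) -
      (1 - c) * (150152 / 10000 + 274278 / 10000 * c + 37577 / 1000 * c ^ (2 : ℕ) + 49421 / 1000 * c ^ (3 : ℕ)) - 469 / 20 * c ^ (2 : ℕ))) - (44 / 5) =
      5064749871331240053022282349 / 263766062019239190000000 * B ^ (5 : ℕ) +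
      2023989049597963667260554911 / 1318830310096195950000 * A * B ^ (4 : ℕ) +
      95177084968887948047268683 / 16485378876202449375 * A ^ (2 : ℕ) * B ^ (3 : ℕ) +
      5460757335644853145255028 / 659415155048097975 * A ^ (3 : ℕ) * B ^ (2 : ℕ) +
      697078254947727778712768 / 131883031009619595 * A ^ (4 : ℕ) * B +
      33302198470673097056000 / 26376606201923919 * A ^ (5 : ℕ) := by
    rw [hA, hB]
    ring
  have h0 : 0 ≤ 5064749871331240053022282349 / 263766062019239190000000 * B ^ (5 : ℕ) +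
      2023989049597963667260554911 / 1318830310096195950000 * A * B ^ (4 : ℕ) +
      95177084968887948047268683 / 16485378876202449375 * A ^ (2 : ℕ) * B ^ (3 : ℕ) +
      5460757335644853145255028 / 659415155048097975 * A ^ (3 : ℕ) * B ^ (2 : ℕ) +
      697078254947727778712768 / 131883031009619595 * A ^ (4 : ℕ) * B +
      33302198470673097056000 / 26376606201923919 * A ^ (5 : ℕ) := by positivity
  linarith only [h, h0]

theorem pn1_E {c : ℝ} (h1 : 0 ≤ c) (h2 : c ≤ 19 / 200) :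
    9 ≤ 5471 / 10000 * ((1 - c) * (6283 / 1000 * (137 / 25) -
      (1 - c) * (150152 / 10000 - 274277 / 10000 * c + 37577 / 1000 * c ^ (2 : ℕ)) - 126 * c ^ (2 : ℕ))) := by
  obtain ⟨A, hA⟩ : ∃ A, A = c - 0 := ⟨_, rfl⟩
  obtain ⟨B, hB⟩ : ∃ B, B = 19 / 200 - c := ⟨_, rfl⟩
  have hA0 : 0 ≤ A := by rw [hA]; linarith only [h1]
  have hB0 : 0 ≤ B := by rw [hB]; linarith only [h2]
  have h : 5471 / 10000 * ((1 - c) * (6283 / 1000 * (137 / 25) -
      (1 - c) * (150152 / 10000 - 274277 / 10000 * c + 37577 / 1000 * c ^ (2 : ℕ)) - 126 * c ^ (2 : ℕ))) - (9) =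
      12978373152 / 651605 * B ^ (4 : ℕ) +
      1537203380174 / 16290125 * A * B ^ (3 : ℕ) +
      12171605221421 / 81450625 * A ^ (2 : ℕ) * B ^ (2 : ℕ) +
      6305253682256813 / 65160500000 * A ^ (3 : ℕ) * B +
      28352122330221053 / 1303210000000 * A ^ (4 : ℕ) := by
    rw [hA, hB]
    ring
  have h0 : 0 ≤ 12978373152 / 651605 * B ^ (4 : ℕ) +
      1537203380174 / 16290125 * A * B ^ (3 : ℕ) +
      12171605221421 / 81450625 * A ^ (2 : ℕ) * B ^ (2 : ℕ) +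
      6305253682256813 / 65160500000 * A ^ (3 : ℕ) * B +
      28352122330221053 / 1303210000000 * A ^ (4 : ℕ) := by positivity
  linarith only [h, h0]

theorem pn2_E {c : ℝ} (h1 : 19 / 200 ≤ c) (h2 : c ≤ 25 / 137) :
    9 ≤ 52249 / 10000 * (c * (6283 / 1000 * (137 / 25) -
      (1 - c) * (150152 / 10000 - 274277 / 10000 * c + 37577 / 1000 * c ^ (2 : ℕ)) - 126 * c ^ (2 : ℕ))) := by
  obtain ⟨A, hA⟩ : ∃ A, A = c - 19 / 200 := ⟨_, rfl⟩
  obtain ⟨B, hB⟩ : ∃ B, B = 25 / 137 - c := ⟨_, rfl⟩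
  have hA0 : 0 ≤ A := by rw [hA]; linarith only [h1]
  have hB0 : 0 ≤ B := by rw [hB]; linarith only [h2]
  have h : 52249 / 10000 * (c * (6283 / 1000 * (137 / 25) -
      (1 - c) * (150152 / 10000 - 274277 / 10000 * c + 37577 / 1000 * c ^ (2 : ℕ)) - 126 * c ^ (2 : ℕ))) - (9) =
      10139810736016868026644973 / 330120227808810000000 * B ^ (4 : ℕ) +
      4918219697496737919162803 / 16506011390440500000 * A * B ^ (3 : ℕ) +
      4833538313711415826463 / 6877504746016875 * A ^ (2 : ℕ) * B ^ (2 : ℕ) +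
      2575016367625058383274 / 4126502847610125 * A ^ (3 : ℕ) * B +
      6228086807303876320 / 33012022780881 * A ^ (4 : ℕ) := by
    rw [hA, hB]
    ring
  have h0 : 0 ≤ 10139810736016868026644973 / 330120227808810000000 * B ^ (4 : ℕ) +
      4918219697496737919162803 / 16506011390440500000 * A * B ^ (3 : ℕ) +
      4833538313711415826463 / 6877504746016875 * A ^ (2 : ℕ) * B ^ (2 : ℕ) +
      2575016367625058383274 / 4126502847610125 * A ^ (3 : ℕ) * B +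
      6228086807303876320 / 33012022780881 * A ^ (4 : ℕ) := by positivity
  linarith only [h, h0]

end SokamT2

end
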