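import Pool.Agent.Lib_MP_af4de1_zy.Z92
import Pool.Agent.Lib_MP_af4de1_zy.Z151

/-! ### Lib_MP_af4de1_v3.TailW -/

section
namespace SokamF1
end SokamF1
namespace SokamF1B
end SokamF1B
namespace SokamF1G
end SokamF1G
namespace SokamF1M
end SokamF1M
namespace SokamF1S
end SokamF1S
namespace SokamPG
end SokamPG
namespace SokamU
end SokamU
namespace SokamV3
end SokamV3
/-!
# Tails of regime I: weights, and `Tls` in terms of `JJ`
-/

set_option autoImplicit false

open Complex MeasureTheory Set SokamU SokamPG SokamF1 SokamF1S SokamF1M SokamF1G SokamF1B SokamV3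

namespace SokamV3T

/-- `|e^(is) - 1| ≤ ||s| - 2π|` -/
theorem exp_I_sub (s : ℝ) : ‖cexp ((s : ℂ) * I) - 1‖ ≤ |(|s|) - 2 * Real.pi| := by
  have h1 : ∀ t : ℝ, ‖cexp ((t : ℂ) * I) - 1‖ ≤ |t - 2 * Real.pi| := by
    intro t
    have e : cexp ((t : ℂ) * I) = cexp (I * ((t - 2 * Real.pi : ℝ) : ℂ)) := by
      have : (t : ℂ) * I = I * ((t - 2 * Real.pi : ℝ) : ℂ) + 2 * Real.pi * I := by
        push_cast
        ring
      rw [this, Complex.exp_add, Complex.exp_two_pi_mul_I, mul_one]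
    rw [e]
    exact Real.norm_exp_I_mul_ofReal_sub_one_le
  rcases abs_cases s with ⟨h, _⟩ | ⟨h, _⟩
  · rw [h]
    exact h1 s
  · rw [h]
    have e : ‖cexp ((s : ℂ) * I) - 1‖ = ‖cexp (((-s : ℝ) : ℂ) * I) - 1‖ := by
      have h2 : (starRingEnd ℂ) (cexp ((s : ℂ) * I) - 1) = cexp (((-s : ℝ) : ℂ) * I) - 1 := by
        rw [map_sub, ← Complex.exp_conj, map_mul, Complex.conj_ofReal, Complex.conj_I, map_one]
        push_cast
        ring_nf
      rw [← h2, Complex.norm_conj]
    rw [e]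
    exact h1 (-s)

theorem exp_one_le : Real.exp 1 ≤ 27183 / 10000 := by
  have := Real.exp_one_lt_d9
  linarith only [this]

/-- `|e^σ - 1 - σ| ≤ 7.0016 + 3.7183 v` -/
theorem gs_lin {a s : ℝ} (ha : |a| ≤ 1) :
    ‖gs ((a : ℂ) + s * I)‖ ≤ 70016 / 10000 + 37183 / 10000 * |(|s|) - 2 * Real.pi| := by
  obtain ⟨a0, a1⟩ := abs_le.1 ha
  have e : gs ((a : ℂ) + s * I) = (Real.exp a : ℂ) * (cexp ((s : ℂ) * I) - 1) +
      ((Real.exp a - 1 - a : ℝ) : ℂ) - (s : ℂ) * I := by
    unfold gs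
    rw [Complex.exp_add]
    push_cast
    ring
  have h0 := exp_I_sub s
  have h1 : ‖(Real.exp a : ℂ) * (cexp ((s : ℂ) * I) - 1)‖ ≤
      27183 / 10000 * |(|s|) - 2 * Real.pi| := by
    rw [norm_mul, Complex.norm_real, Real.norm_eq_abs, abs_of_pos (Real.exp_pos a)]
    have := (Real.exp_le_exp.2 a1).trans exp_one_le
    gcongr
  have h2 : ‖((Real.exp a - 1 - a : ℝ) : ℂ)‖ ≤ 7183 / 10000 := by
    rw [Complex.norm_real, Real.norm_eq_abs]
    have h3 := Real.add_one_le_exp a
    rw [abs_of_nonneg (by linarith only [h3])]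
    rcases le_total 0 a with h | h
    · have h4 : Real.exp a ≤ (1 - a) * 1 + a * Real.exp 1 := by
        have := convexOn_exp.2 (mem_univ (0 : ℝ)) (mem_univ (1 : ℝ)) (by linarith : 0 ≤ 1 - a) h
          (by ring)
        simp only [smul_eq_mul, mul_zero, mul_one, zero_add, Real.exp_zero] at this
        linarith only [this]
      have h5 := exp_one_le
      nlinarith only [a1, h, h4, h5]
    · have h4 : Real.exp a ≤ 1 + a + a ^ (2 : ℕ) / 2 := by
        have h6 := Real.quadratic_le_exp_of_nonneg (x := -a) (by linarith only [h])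
        have h7 : Real.exp a * Real.exp (-a) = 1 := by rw [← Real.exp_add]; simp
        have h8 := Real.exp_pos a
        have h9 : 0 < 1 + a + a ^ (2 : ℕ) / 2 := by nlinarith only []
        by_contra hc
        push Not at hc
        have h10 : (1 + a + a ^ (2 : ℕ) / 2) * (1 + -a + (-a) ^ (2 : ℕ) / 2) < 1 := by
          calc (1 + a + a ^ (2 : ℕ) / 2) * (1 + -a + (-a) ^ (2 : ℕ) / 2)
              ≤ (1 + a + a ^ (2 : ℕ) / 2) * Real.exp (-a) := by gcongr
            _ < Real.exp a * Real.exp (-a) := by gcongr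
            _ = 1 := h7
        nlinarith only [h10]
      nlinarith only [a0, h, h4]
  have h3 : ‖(s : ℂ) * I‖ ≤ 2 * Real.pi + |(|s|) - 2 * Real.pi| := by
    rw [norm_mul, Complex.norm_I, mul_one, Complex.norm_real, Real.norm_eq_abs]
    linarith only [le_abs_self (|s| - 2 * Real.pi)]
  rw [e]
  have h4 := norm_sub_le ((Real.exp a : ℂ) * (cexp ((s : ℂ) * I) - 1) +
      ((Real.exp a - 1 - a : ℝ) : ℂ)) ((s : ℂ) * I)
  have h5 := norm_add_le ((Real.exp a : ℂ) * (cexp ((s : ℂ) * I) - 1))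
      ((Real.exp a - 1 - a : ℝ) : ℂ)
  have hp := Real.pi_lt_d4
  linarith only [h1, h2, h3, h4, h5, hp]

theorem exp69 (v : ℝ) (hv : 0 ≤ v) :
    1 + 69 / 100 * v + 238 / 1000 * v ^ (2 : ℕ) ≤ Real.exp (69 / 100 * v) := by
  have := Real.quadratic_le_exp_of_nonneg (x := 69 / 100 * v) (by positivity)
  nlinarith only [this]

theorem gs_w {a s : ℝ} (ha : |a| ≤ 1) :
    ‖gs ((a : ℂ) + s * I)‖ ≤ 71 / 10 * Real.exp (69 / 100 * |(|s|) - 2 * Real.pi|) := by
  refine (gs_lin ha).trans ?_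
  have hv := abs_nonneg (|s| - 2 * Real.pi)
  set v := |(|s|) - 2 * Real.pi|
  have := exp69 v hv
  nlinarith only [hv, this]

theorem sgs_w {a s : ℝ} (ha : |a| ≤ 1) :
    ‖((a : ℂ) + s * I) * gs ((a : ℂ) + s * I)‖ ≤
      451 / 10 * Real.exp (69 / 100 * |(|s|) - 2 * Real.pi|) := by
  have h1 := gs_lin (s := s) ha
  have hv := abs_nonneg (|s| - 2 * Real.pi)
  have h2 : ‖(a : ℂ) + s * I‖ ≤ 6363 / 1000 + |(|s|) - 2 * Real.pi| := by
    rw [Complex.norm_add_mul_I]
    apply Real.sqrt_le_iff.2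
    refine ⟨by (clear * -; positivity), ?_⟩
    have h3 : a ^ (2 : ℕ) ≤ 1 := by
      rw [← sq_abs]
      exact pow_le_one₀ (abs_nonneg _) ha
    have h4 : |s| ≤ 2 * Real.pi + |(|s|) - 2 * Real.pi| := by
      linarith only [le_abs_self (|s| - 2 * Real.pi)]
    have hp := Real.pi_lt_d4
    have hp3 := Real.pi_gt_three
    have h5 : s ^ (2 : ℕ) ≤ (2 * 31416 / 10000 + |(|s|) - 2 * Real.pi|) ^ (2 : ℕ) := by
      rw [← sq_abs s]
      refine pow_le_pow_left₀ (abs_nonneg _) (by linarith only [h4, hp]) 2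
    linarith only [hv, h3, h5]
  rw [norm_mul]
  have h6 : ‖(a : ℂ) + s * I‖ * ‖gs ((a : ℂ) + s * I)‖ ≤
      (6363 / 1000 + |(|s|) - 2 * Real.pi|) *
      (70016 / 10000 + 37183 / 10000 * |(|s|) - 2 * Real.pi|) := by
    gcongr
  refine h6.trans ?_
  set v := |(|s|) - 2 * Real.pi|
  have := exp69 v hv
  nlinarith only [this]

theorem one_w {a s : ℝ} :
    ‖(fun _ => (1 : ℂ)) ((a : ℂ) + s * I)‖ ≤ 1 * Real.exp (69 / 100 * |(|s|) - 2 * Real.pi|) := by
  have := Real.one_le_exp (show 0 ≤ 69 / 100 * |(|s|) - 2 * Real.pi| by positivity)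
  rw [one_mul, norm_one]
  exact this

/-! ### The path -/

theorem pc_ab {x s : ℝ} (hx : 0 ≤ x) (hs : 0 ≤ s) :
    pc (1 + x)⁻¹ (min (137 / 25) (1 + x)) s = ab x s := by
  have h1 : 0 < 1 + x := by linarith only [hx]
  have hc : 0 < (1 + x)⁻¹ := inv_pos.2 h1
  have hs1 : 0 < min (137 / 25) (1 + x) := lt_min (by norm_num) h1
  unfold ab
  rcases le_total s (min (137 / 25) (1 + x)) with h | h
  · rw [pc_mid hc (by linarith only [hs, h]) h, min_eq_right h, inv_mul_eq_div]
  · rw [pc_right hc hs1 h, min_eq_left h, inv_mul_eq_div]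

theorem pc_neg_ab {x s : ℝ} (hx : 0 ≤ x) (hs : 0 ≤ s) :
    pc (1 + x)⁻¹ (min (137 / 25) (1 + x)) (-s) = -ab x s := by
  have h1 : 0 < 1 + x := by linarith only [hx]
  have hc : 0 < (1 + x)⁻¹ := inv_pos.2 h1
  have hs1 : 0 < min (137 / 25) (1 + x) := lt_min (by norm_num) h1
  unfold ab
  rcases le_total s (min (137 / 25) (1 + x)) with h | h
  · rw [pc_mid hc (by linarith only [h]) (by linarith only [hs, h]), min_eq_right h, mul_neg, inv_mul_eq_div]
  · rw [pc_left hc hs1 (by linarith only [h]), min_eq_left h, inv_mul_eq_div]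

theorem ab_abs {x s : ℝ} (hx : 0 ≤ x) (hs : 0 ≤ s) : |ab x s| ≤ 1 := by
  have h1 : 0 < 1 + x := by linarith only [hx]
  have hs1 : 0 < min (137 / 25) (1 + x) := lt_min (by norm_num) h1
  unfold ab
  rw [abs_of_nonneg (div_nonneg (le_min hs1.le hs) h1.le), div_le_one h1]
  exact (min_le_left _ _).trans (min_le_right _ _)

theorem pv_neg (c s1 s : ℝ) : pv c s1 (-s) = pv c s1 s := by
  unfold pv
  rw [abs_neg]

/-- the integrand of `Tls` on the half line of sign `ε` -/
theorem gi_le {x y δ s ε C : ℝ} (hδ : 0 < δ) (hx : 0 ≤ x) (hs : 0 ≤ s) (hε : ε = 1 ∨ ε = -1)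
    {w : ℂ → ℂ} (hw : ∀ a t : ℝ, |a| ≤ 1 → ‖w ((a : ℂ) + t * I)‖ ≤
      C * Real.exp (69 / 100 * |(|t|) - 2 * Real.pi|)) :
    ‖gi (1 + x)⁻¹ (min (137 / 25) (1 + x)) w (((x : ℂ) + y * I) / δ) 0 (-((δ : ℂ) * I)) (ε * s)‖ ≤
      C * jf x y (1 / δ) ε s := by
  have e1 : pc (1 + x)⁻¹ (min (137 / 25) (1 + x)) (ε * s) = ε * ab x s := by
    rcases hε with h | h
    · rw [h, one_mul, one_mul, pc_ab hx hs]
    · rw [h, neg_one_mul, neg_one_mul, pc_neg_ab hx hs]
  have e2 : pv (1 + x)⁻¹ (min (137 / 25) (1 + x)) (ε * s) =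
      pv (1 + x)⁻¹ (min (137 / 25) (1 + x)) s := by
    rcases hε with h | h
    · rw [h, one_mul]
    · rw [h, neg_one_mul, pv_neg]
  have e3 : |ε * s| = s := by
    rcases hε with h | h
    · rw [h, one_mul, abs_of_nonneg hs]
    · rw [h, neg_one_mul, abs_neg, abs_of_nonneg hs]
  have e4 : |ε * ab x s| ≤ 1 := by
    rcases hε with h | h
    · rw [h, one_mul]
      exact ab_abs hx hs
    · rw [h, neg_one_mul, abs_neg]
      exact ab_abs hx hs
  unfold gi pz
  rw [e1, e2, norm_mul, norm_mul, norm_f_K hδ]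
  have h1 := hw (ε * ab x s) (ε * s) e4
  rw [e3] at h1
  have h2 : C * jf x y (1 / δ) ε s = ‖pv (1 + x)⁻¹ (min (137 / 25) (1 + x)) s‖ *
      (C * Real.exp (69 / 100 * |s - 2 * Real.pi|) *
        Real.exp (-(Ha x y (ε * ab x s) (ε * s) / δ))) := by
    unfold jf hq
    rw [sub_eq_add_neg, Real.exp_add]
    have e5 : -(1 / δ * Ha x y (ε * ab x s) (ε * s)) = -(Ha x y (ε * ab x s) (ε * s) / δ) := by
      ring
    rw [e5]
    ring
  rw [h2]
  gcongr

theorem tls_le {r δ y C : ℝ} (hδ : 0 < δ) {w : ℂ → ℂ}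
    (hw : ∀ a t : ℝ, |a| ≤ 1 → ‖w ((a : ℂ) + t * I)‖ ≤
      C * Real.exp (69 / 100 * |(|t|) - 2 * Real.pi|))
    (i1 : IntegrableOn (jf (sx (r * δ) y) y (1 / δ) 1) (Ioi (3 / 2)))
    (i2 : IntegrableOn (jf (sx (r * δ) y) y (1 / δ) (-1)) (Ioi (3 / 2))) :
    Tls r δ y (bs r δ y) w ≤
      C * (JJ (sx (r * δ) y) y (1 / δ) 1 + JJ (sx (r * δ) y) y (1 / δ) (-1)) := by
  have hx := sx_nonneg (r * δ) y
  unfold Tls bs
  have hK : sK (r * δ) y = ((sx (r * δ) y : ℝ) : ℂ) + (y : ℂ) * I := rfl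
  rw [hK]
  set x := sx (r * δ) y with hxdef
  set g : ℝ → ℝ := fun s => ‖gi (1 + x)⁻¹ (min (137 / 25) (1 + x)) w (((x : ℂ) + y * I) / δ) 0
    (-((δ : ℂ) * I)) s‖ with hg
  have hset : {s : ℝ | 3 / 2 ≤ |s|} = Iic (-(3 / 2)) ∪ Ici (3 / 2) := by
    ext s
    simp only [Set.mem_ofPred_eq, mem_union, mem_Iic, mem_Ici, le_abs]
    constructor
    · rintro (h | h)
      · right; exact h
      · left; linarith only [h]
    · rintro (h | h)
      · right; linarith only [h]
      · left; exact h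
  have i1' : IntegrableOn (fun s => C * jf x y (1 / δ) 1 s) (Ici (3 / 2)) :=
    ((integrableOn_Ici_iff_integrableOn_Ioi (by simp)).2 i1).const_mul C
  have i2' : IntegrableOn (fun s => C * jf x y (1 / δ) (-1) (-s)) (Iic (-(3 / 2))) := by
    have h1 : IntegrableOn (jf x y (1 / δ) (-1)) (Ici (3 / 2)) :=
      (integrableOn_Ici_iff_integrableOn_Ioi (by simp)).2 i2
    have h2 : IntegrableOn (fun s => jf x y (1 / δ) (-1) (-s)) (Iic (-(3 / 2))) := by
      have := h1.comp_neg
      simpa using this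
    exact h2.const_mul C
  set B : ℝ → ℝ := fun s => if 0 < s then C * jf x y (1 / δ) 1 s else C * jf x y (1 / δ) (-1) (-s)
    with hB
  have b1 : ∀ s ∈ Ici (3 / 2 : ℝ), B s = C * jf x y (1 / δ) 1 s := by
    intro s hs
    have : (0 : ℝ) < s := lt_of_lt_of_le (by norm_num) hs
    simp only [hB, if_pos this]
  have b2 : ∀ s ∈ Iic (-(3 / 2) : ℝ), B s = C * jf x y (1 / δ) (-1) (-s) := by
    intro s hs
    have : ¬ (0 : ℝ) < s := not_lt.2 (le_trans hs (by norm_num))
    simp only [hB, if_neg this]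
  have j1 : IntegrableOn B (Ici (3 / 2)) := i1'.congr_fun (fun s hs => (b1 s hs).symm)
    measurableSet_Ici
  have j2 : IntegrableOn B (Iic (-(3 / 2))) := i2'.congr_fun (fun s hs => (b2 s hs).symm)
    measurableSet_Iic
  have hdis : Disjoint (Iic (-(3 / 2) : ℝ)) (Ici (3 / 2)) := by
    rw [Set.disjoint_left]
    intro s h1 h2
    have : (s : ℝ) ≤ -(3 / 2) := h1
    have : (3 / 2 : ℝ) ≤ s := h2
    linarith
  rw [hset]
  have hle : ∫ s in Iic (-(3 / 2)) ∪ Ici (3 / 2), g s ≤ ∫ s in Iic (-(3 / 2)) ∪ Ici (3 / 2), B s := by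
    refine integral_mono_of_nonneg (ae_of_all _ fun s => norm_nonneg _) (j2.union j1) ?_
    refine (ae_restrict_iff' (measurableSet_Iic.union measurableSet_Ici)).2 (ae_of_all _ ?_)
    intro s hs
    rcases hs with h | h
    · rw [b2 s h]
      have hs0 : (0 : ℝ) ≤ -s := by
        have : s ≤ -(3 / 2) := h
        linarith only [this]
      have := gi_le (x := x) (y := y) hδ hx hs0 (Or.inr rfl) hw
      rw [neg_one_mul, neg_neg] at this
      exact this
    · rw [b1 s h]
      have hs0 : (0 : ℝ) ≤ s := le_trans (by norm_num) (show (3 / 2 : ℝ) ≤ s from h)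
      have := gi_le (x := x) (y := y) hδ hx hs0 (Or.inl rfl) hw
      rw [one_mul] at this
      exact this
  refine hle.trans (le_of_eq ?_)
  rw [setIntegral_union hdis measurableSet_Ici j2 j1,
    setIntegral_congr_fun measurableSet_Iic b2, setIntegral_congr_fun measurableSet_Ici b1,
    integral_Ici_eq_integral_Ioi, integral_const_mul, integral_const_mul]
  have e : ∫ s in Iic (-(3 / 2) : ℝ), jf x y (1 / δ) (-1) (-s) =
      ∫ s in Ioi (3 / 2 : ℝ), jf x y (1 / δ) (-1) s := by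
    have := integral_comp_neg_Iic (-(3 / 2)) (jf x y (1 / δ) (-1))
    rw [this, neg_neg]
  rw [e]
  unfold JJ
  ring

end SokamV3T

end

/-! ### Lib_MP_af4de1_v3.TailRed -/

section
namespace SokamF1
end SokamF1
namespace SokamF1B
end SokamF1B
namespace SokamF1G
end SokamF1G
namespace SokamF1M
end SokamF1M
namespace SokamF1S
end SokamF1S
namespace SokamPG
end SokamPG
namespace SokamU
end SokamU
namespace SokamV3
end SokamV3
/-!
# `PTail1s` from `JI`
-/

set_option autoImplicit false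

open Complex MeasureTheory Set SokamU SokamPG SokamF1 SokamF1S SokamF1M SokamF1G SokamF1B SokamV3

namespace SokamV3T

theorem hst_sq_le {N : ℕ} (hN : 3 ≤ N) : hst N ^ (2 : ℕ) ≤ 43866 / 10000 := by
  have h1 : hst N ≤ 2 * Real.pi / 3 := by
    unfold hst
    have hN3 : (3 : ℝ) ≤ N := by exact_mod_cast hN
    have := Real.pi_pos
    gcongr
  have h0 : 0 ≤ hst N := by
    unfold hst
    have := Real.pi_pos
    positivity
  have h2 := Real.pi_lt_d4
  have h3 : hst N ≤ 20944 / 10000 := by linarith only [h1, h2]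
  nlinarith only [h0, h3]

theorem rf_of {N : ℕ} {r δ y η : ℝ} (hR : Reg1 N r δ) (hA : At r δ y η) (hS : Sad1 N r δ y)
    (hη : |η| ≤ eo1 N r δ) :
    RF (sx (r * δ) y) y (r * δ * Real.exp (-y)) (r * δ) (1 / δ) := by
  have hδ := hR.d0
  have hr0 := hR.r0
  have hr : 0 < r := by linarith only [hr0]
  have hD := hA.dom
  have hρ := hD.1
  have hE := Real.exp_pos (-y)
  have hEE : Real.exp (-y) * Real.exp y = 1 := by rw [← Real.exp_add]; simp
  have hK0 : 0 < r * δ * Real.exp (-y) := mul_pos hρ hE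
  have hrd : r * δ * (1 / δ) = r := by field_simp
  have hη2 := hη.trans (eo1_le hR.N3)
  have hRR : (0 : ℝ) < RR r δ := by unfold RR; positivity
  have hG := hR.G
  have hh := hst_sq_le hR.N3
  have lo : -(53 / 100) ≤ y := by
    rcases hS with h | h
    · linarith only [h.2.lo]
    · linarith only [h.2.lo]
  refine ⟨sx_nonneg _ _, hK0, ?_, ?_, by positivity, by rw [hrd]; linarith only [hr0], ?_, lo, ?_, ?_, ?_,
    ?_, ?_, ?_⟩
  · exact (sx_sq_add hD).symm
  · rw [mul_assoc, hEE, mul_one]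
  · rw [hrd]
    unfold Gm at hG
    rw [le_div_iff₀ hRR] at hG
    have h1 : r * hst N ^ (2 : ℕ) ≤ r * (43866 / 10000) := by gcongr
    unfold RR at hG
    linarith only [hr, hG, h1]
  · rcases hS with h | h
    · linarith only [h.2.hi]
    · linarith only [h.2.hi]
  · rcases hS with h | h
    · linarith only [h.2.T, sx_nonneg (r * δ) y]
    · linarith only [h.2.T]
  · have h1 : 13 / 20 ≤ sD2 (r * δ) y := by
      rcases hS with h | h
      · linarith only [h.2.D]
      · exact h.2.D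
    exact h1
  · intro hy
    have h1 := sE_ge_pos hD hy
    rw [hA.eta] at h1
    have h2 := le_abs_self η
    have e1 : r * δ * Real.exp (-y) * (Real.exp y - 1) = r * δ * (1 - Real.exp (-y)) := by
      have : r * δ * Real.exp (-y) * (Real.exp y - 1) =
        r * δ * (Real.exp (-y) * Real.exp y - Real.exp (-y)) := by ring
      rw [this, hEE]
    have e2 : y / (r * δ * Real.exp (-y)) = y * Real.exp y / (r * δ) := by
      rw [div_eq_div_iff hK0.ne' hρ.ne']
      have : y * Real.exp y * (r * δ * Real.exp (-y)) =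
        y * (r * δ) * (Real.exp (-y) * Real.exp y) := by ring
      rw [this, hEE, mul_one]
    rw [e1, e2]
    have h3 : y * Real.exp y / (r * δ) ≤ (y + y ^ (2 : ℕ) / 2) * Real.exp y / (r * δ) := by
      have := sq_nonneg y
      gcongr
      linarith only [this]
    linarith only [hη2, h1, h2, h3]
  · intro hy
    have h1 := sP_nonneg (y := y) hρ hy
    have h2 := le_abs_self η
    have h3 : sP (r * δ) y + r * δ - sx (r * δ) y = η := hA.eta
    linarith only [hη2, h1, h2, h3]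
  · intro hy
    obtain ⟨t, rfl⟩ : ∃ t, y = -t := ⟨-y, by ring⟩
    have ht : 0 ≤ t := by linarith only [hy]
    have h1 := sE_le_neg hD ht (by linarith only [lo])
    rw [hA.eta] at h1
    have h2 := neg_abs_le η
    rw [neg_neg]
    have h3 : 0 ≤ (t - t ^ (2 : ℕ) / 2) * Real.exp (-t) / (r * δ) := by
      have : 0 ≤ t - t ^ (2 : ℕ) / 2 := by nlinarith only [lo, hy]
      have := Real.exp_pos (-t)
      positivity
    linarith only [hη2, h1, h2, h3]

theorem sqrt_two_pi : 250662 / 100000 ≤ √(2 * Real.pi) := by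
  apply Real.le_sqrt_of_sq_le
  have := Real.pi_gt_d6
  norm_num
  linarith only [this]

/-- `HH² ≥ 27/5 r` -/
theorem HH_sq_ge {N : ℕ} {r δ : ℝ} (hR : Reg1 N r δ) : 27 / 5 * r ≤ HH N r δ ^ (2 : ℕ) := by
  have hG := hR.G
  have hr0 := hR.r0
  have hRR : (0 : ℝ) < RR r δ := by unfold RR; positivity
  have e : HH N r δ ^ (2 : ℕ) = r * Gm N r δ := by
    unfold HH Gm
    rw [div_pow, Real.sq_sqrt hRR.le]
    ring
  rw [e]
  have := mul_le_mul_of_nonneg_left hG (by linarith : (0 : ℝ) ≤ r)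
  linarith only [this]

/-- `d ≥ 7.8` -/
theorem d78 {d : ℝ} (h0 : 0 < d) (h : 61 ≤ d * d) : 78 / 10 ≤ d := by nlinarith

theorem r_le_d2 {ρ d : ℝ} (hd : 0 ≤ d) (h : 1231 / 1000 * ρ ≤ d) :
    ρ * d ≤ (9014 / 10000 * d) ^ (2 : ℕ) := by
  have h1 := mul_le_mul_of_nonneg_right h hd
  have h2 : (9014 / 10000 * d) ^ (2 : ℕ) = (9014 / 10000) ^ (2 : ℕ) * (d * d) := by ring
  have h3 : 0 ≤ d * d := mul_nonneg hd hd
  rw [h2]
  linarith only [h1, h3]

theorem num0 {ρ d P : ℝ} (hρ : 1231 / 1000 * ρ ≤ d) (hd : 78 / 10 ≤ d) (hP : 250662 / 100000 ≤ P) :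
    12 / 10000 * (18 / 10 + ρ) ≤ d * (1 / 500 * P) := by
  have h1 : d * (250662 / 100000) ≤ d * P := mul_le_mul_of_nonneg_left hP (by linarith only [hd])
  linarith only [hρ, hd, h1]

theorem num1 {D K x y : ℝ} (h1 : D ^ (2 : ℕ) = (1 + y) ^ (2 : ℕ) + x ^ (2 : ℕ)) (h2 : x ^ (2 : ℕ) + y ^ (2 : ℕ) = K ^ (2 : ℕ))
    (h3 : y ≤ K) (h5 : 0 < K) : D ≤ 1 + K := by
  refine abs_le_of_sq_le_sq' ?_ (by linarith only [h5]) |>.2
  have e1 : (1 + K) ^ (2 : ℕ) = 1 + 2 * K + K ^ (2 : ℕ) := by ring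
  have e2 : (1 + y) ^ (2 : ℕ) = 1 + 2 * y + y ^ (2 : ℕ) := by ring
  rw [h1, e1, e2]
  linarith only [h2, h3]

theorem ptail1s_of (hJ : ∀ x y K ρ d : ℝ, RF x y K ρ d → JI x y d) : PTail1s := by
  intro N r δ y η hR hA hS hη
  have hF := rf_of hR hA hS hη
  obtain ⟨i1, i2, hle⟩ := hJ _ _ _ _ _ hF
  have hδ := hR.d0
  have hr0 := hR.r0
  have hr : 0 < r := by linarith only [hr0]
  have hD := hA.dom
  have hρ := hD.1
  have hy1 := hA.y1
  have hD2 := sD2_pos (ρ := r * δ) hy1
  have hDD : 0 < sD (r * δ) y := Real.sqrt_pos.2 hD2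
  have hrd : r * δ * (1 / δ) = r := by field_simp
  have hEE : Real.exp (-y) * Real.exp y = 1 := by rw [← Real.exp_add]; simp
  have w1 := tls_le (r := r) (δ := δ) (y := y) (C := 1) (w := fun _ => (1 : ℂ)) hδ
    (fun a t _ => one_w (a := a) (s := t)) i1 i2
  have w2 := tls_le (r := r) (δ := δ) (y := y) hδ (fun a t h => gs_w (s := t) h) i1 i2
  have w3 := tls_le (r := r) (δ := δ) (y := y) (w := fun σ => σ * gs σ) hδ
    (fun a t h => sgs_w (s := t) h) i1 i2
  have hJ0 : 0 ≤ JJ (sx (r * δ) y) y (1 / δ) 1 + JJ (sx (r * δ) y) y (1 / δ) (-1) := by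
    have : ∀ ε, 0 ≤ JJ (sx (r * δ) y) y (1 / δ) ε := fun ε =>
      setIntegral_nonneg measurableSet_Ioi fun s _ =>
        mul_nonneg (norm_nonneg _) (Real.exp_pos _).le
    exact add_nonneg (this 1) (this (-1))
  set J := JJ (sx (r * δ) y) y (1 / δ) 1 + JJ (sx (r * δ) y) y (1 / δ) (-1) with hJdef
  -- `D`, `d`
  set d := 1 / δ with hd
  have hd0 : 0 < d := by positivity
  have hsd : 0 < √d := Real.sqrt_pos.2 hd0
  have hsd2 : √d * √d = d := Real.mul_self_sqrt hd0.le
  have hDe : √((1 + y) ^ (2 : ℕ) + sx (r * δ) y ^ (2 : ℕ)) = sD (r * δ) y := rfl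
  rw [hDe] at hle
  set D := sD (r * δ) y with hDdef
  have hsD : 0 < √D := Real.sqrt_pos.2 hDD
  have hsD2 : √D * √D = D := Real.mul_self_sqrt hDD.le
  set P := √(2 * Real.pi) with hP
  have hP0 := sqrt_two_pi
  have hPP : 0 < P := by linarith only [hP0]
  -- `G = P/(√d √D)`
  have hGe : sG r δ y * (√d * √D) = P := by
    have h1 : sG r δ y = √(2 * Real.pi * δ / D) := rfl
    rw [h1, ← Real.sqrt_mul hd0.le, ← Real.sqrt_mul (by positivity), hP]
    congr 1
    rw [hd]
    field_simp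
  have hG := sG_pos (r := r) hδ hy1
  have hEy := Real.exp_pos y
  have hEn := Real.exp_pos (-y)
  -- kap
  have hkap : ‖kap r δ y‖ = r * Real.exp (-y) := by
    unfold kap
    rw [norm_div, norm_sK hD, Complex.norm_real, Real.norm_eq_abs, abs_of_pos hδ]
    field_simp
  -- `J √d d ≤ 12/10000 √D e^y`
  have hJ1 : d * √d * J * Real.exp (-y) ≤ 12 / 10000 * √D := by
    calc d * √d * J * Real.exp (-y) ≤ 12 / 10000 * √D * Real.exp y * Real.exp (-y) := by gcongr
      _ = 12 / 10000 * √D * (Real.exp (-y) * Real.exp y) := by ring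
      _ = 12 / 10000 * √D := by rw [hEE, mul_one]
  have hdρ : 1231 / 1000 * (r * δ) ≤ d := by
    have h1 := hF.r2
    have h2 : 1231 / 1000 * (r * δ) ^ (2 : ℕ) ≤ r * δ * d := by linarith only [h1]
    have h3 : r * δ * (1231 / 1000 * (r * δ)) ≤ r * δ * d := by linarith only [h2]
    exact le_of_mul_le_mul_left h3 hρ
  refine ⟨?_, ?_, ?_⟩
  · -- T0
    refine w1.trans ?_
    rw [one_mul]
    have hd2 : 61 ≤ d * d := by
      have h1 := hF.r1
      have h2 := mul_le_mul hdρ h1 (by norm_num) hd0.le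
      have h3 : 1231 / 1000 * (r * δ) * (499 / 10) ≤ r * δ * (d * d) := by
        calc 1231 / 1000 * (r * δ) * (499 / 10) ≤ d * (r * δ * d) := h2
          _ = r * δ * (d * d) := by ring
      have h4 : r * δ * (1231 / 1000 * (499 / 10)) ≤ r * δ * (d * d) := by linarith only [h3]
      have := le_of_mul_le_mul_left h4 hρ
      linarith only [this]
    have hd3 := d78 hd0 hd2
    -- D e^y ≤ e^y + ρ
    have hDK : D ≤ 1 + r * δ * Real.exp (-y) := by
      have h1 : D ^ (2 : ℕ) = (1 + y) ^ (2 : ℕ) + sx (r * δ) y ^ (2 : ℕ) := Real.sq_sqrt hD2.le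
      have h2 := sx_sq_add hD
      have h3 : |y| ≤ r * δ * Real.exp (-y) := hD.abs_le_exp
      have h4 := le_abs_self y
      exact num1 h1 h2 (h4.trans h3) (mul_pos hρ hEn)
    have hey : Real.exp y ≤ 18 / 10 := by
      have h1 : y ≤ 14 / 25 := hF.hi
      have h2 : Real.exp y ≤ Real.exp (14 / 25) := Real.exp_le_exp.2 h1
      have h3 : Real.exp (14 / 25) ≤ 18 / 10 := by
        have := Real.exp_bound' (x := 14 / 25) (by norm_num) (by norm_num) (n := 5) (by norm_num)
        refine this.trans ?_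
        norm_num [Finset.sum_range_succ, Nat.factorial]
      linarith only [h2, h3]
    have hDe2 : D * Real.exp y ≤ 18 / 10 + r * δ := by
      calc D * Real.exp y ≤ (1 + r * δ * Real.exp (-y)) * Real.exp y := by gcongr
        _ = Real.exp y + r * δ * (Real.exp (-y) * Real.exp y) := by ring
        _ = Real.exp y + r * δ := by rw [hEE, mul_one]
        _ ≤ _ := by linarith only [hey]
    have h1 : d * (√d * √D * J) ≤ d * (1 / 500 * P) := by
      have h2 : d * (√d * √D * J) = d * √d * J * √D := by ring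
      rw [h2]
      calc d * √d * J * √D ≤ (12 / 10000 * √D * Real.exp y) * √D := by gcongr
        _ = 12 / 10000 * (√D * √D * Real.exp y) := by ring
        _ = 12 / 10000 * (D * Real.exp y) := by rw [hsD2]
        _ ≤ 12 / 10000 * (18 / 10 + r * δ) := by gcongr
        _ ≤ d * (1 / 500 * P) := num0 hdρ hd3 hP0
    have h3 := le_of_mul_le_mul_left h1 hd0
    have h4 : √d * √D * J ≤ √d * √D * (1 / 500 * sG r δ y) := by
      calc √d * √D * J ≤ 1 / 500 * P := h3
        _ = √d * √D * (1 / 500 * sG r δ y) := by rw [← hGe]; ring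
    exact le_of_mul_le_mul_left h4 (by positivity)
  · -- T1
    have hH := HH_nonneg_own hR.toPar
    have hH2 := HH_sq_ge hR
    rw [hkap]
    have h0 : r * Real.exp (-y) / D * Tls r δ y (bs r δ y) gs ≤
        r * Real.exp (-y) / D * (71 / 10 * J) := by
      gcongr
    refine h0.trans ?_
    -- √ρ √d = √r
    have hsr : 0 < √r := Real.sqrt_pos.2 hr
    have hsr2 : √r * √r = r := Real.mul_self_sqrt hr.le
    have hHr : 23237 / 10000 * √r ≤ HH N r δ := by
      refine abs_le_of_sq_le_sq' ?_ hH |>.2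
      have : (23237 / 10000 * √r) ^ (2 : ℕ) = (23237 / 10000) ^ (2 : ℕ) * r := by
        rw [mul_pow, Real.sq_sqrt hr.le]
      rw [this]
      refine le_trans ?_ hH2
      exact mul_le_mul_of_nonneg_right (by norm_num) hr.le
    -- √r ≤ .9014 d
    have hrd2 : √r ≤ 9014 / 10000 * d := by
      refine abs_le_of_sq_le_sq' ?_ (by positivity) |>.2
      rw [Real.sq_sqrt hr.le]
      calc r = r * δ * d := hrd.symm
        _ ≤ _ := r_le_d2 hd0.le hdρ
    have h1 : √d * √D * (r * Real.exp (-y) * (71 / 10 * J)) ≤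
        √d * √D * (D * (3 / 2 * (HH N r δ / 1000) * sG r δ y)) := by
      have e1 : √d * √D * (r * Real.exp (-y) * (71 / 10 * J)) =
          71 / 10 * √r * √D * (√r * (√d * J * Real.exp (-y))) := by
        rw [← hsr2]
        rw [hsr2]
        calc √d * √D * (r * Real.exp (-y) * (71 / 10 * J)) =
            71 / 10 * √D * (r * (√d * J * Real.exp (-y))) := by ring
          _ = 71 / 10 * √D * (√r * √r * (√d * J * Real.exp (-y))) := by rw [hsr2]
          _ = _ := by ring
      have e2 : √d * √D * (D * (3 / 2 * (HH N r δ / 1000) * sG r δ y)) =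
          D * (3 / 2 * (HH N r δ / 1000) * P) := by rw [← hGe]; ring
      rw [e1, e2]
      have h2 : √r * (√d * J * Real.exp (-y)) ≤ 9014 / 10000 * (12 / 10000 * √D) := by
        calc √r * (√d * J * Real.exp (-y)) ≤ 9014 / 10000 * d * (√d * J * Real.exp (-y)) := by
              gcongr
          _ = 9014 / 10000 * (d * √d * J * Real.exp (-y)) := by ring
          _ ≤ _ := by gcongr
      calc 71 / 10 * √r * √D * (√r * (√d * J * Real.exp (-y)))
          ≤ 71 / 10 * √r * √D * (9014 / 10000 * (12 / 10000 * √D)) := by gcongr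
        _ = (71 / 10 * (9014 / 10000) * (12 / 10000)) * √r * (√D * √D) := by ring
        _ = (71 / 10 * (9014 / 10000) * (12 / 10000)) * √r * D := by rw [hsD2]
        _ ≤ (3 / 2 * (23237 / 10000) / 1000 * (250662 / 100000)) * √r * D := by
          refine mul_le_mul_of_nonneg_right (mul_le_mul_of_nonneg_right ?_ hsr.le) hDD.le
          norm_num
        _ = D * (3 / 2 * ((23237 / 10000 * √r) / 1000) * (250662 / 100000)) := by ring
        _ ≤ D * (3 / 2 * (HH N r δ / 1000) * P) := by gcongr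
    have h2 := le_of_mul_le_mul_left h1 (by positivity)
    rw [div_mul_eq_mul_div, div_le_iff₀ hDD]
    linarith only [h2]
  · -- T2
    have hH2 := HH_sq_ge hR
    rw [hkap]
    have h0 : r * Real.exp (-y) / D * Tls r δ y (bs r δ y) (fun σ => σ * gs σ) ≤
        r * Real.exp (-y) / D * (451 / 10 * J) := by
      gcongr
    refine h0.trans ?_
    have hdδ : d * δ = 1 := by rw [hd]; field_simp
    have h1 : d * (√d * √D) * (r * Real.exp (-y) * (451 / 10 * J)) ≤
        d * (√d * √D) * (D * (HH N r δ ^ (2 : ℕ) / 250 * (δ * sG r δ y))) := by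
      have e2 : d * (√d * √D) * (D * (HH N r δ ^ (2 : ℕ) / 250 * (δ * sG r δ y))) =
          D * (HH N r δ ^ (2 : ℕ) / 250 * P) := by
        calc d * (√d * √D) * (D * (HH N r δ ^ (2 : ℕ) / 250 * (δ * sG r δ y))) =
            D * (HH N r δ ^ (2 : ℕ) / 250 * ((d * δ) * (sG r δ y * (√d * √D)))) := by ring
          _ = D * (HH N r δ ^ (2 : ℕ) / 250 * P) := by rw [hdδ, hGe, one_mul]
      rw [e2]
      calc d * (√d * √D) * (r * Real.exp (-y) * (451 / 10 * J)) =
          451 / 10 * r * √D * (d * √d * J * Real.exp (-y)) := by ring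
        _ ≤ 451 / 10 * r * √D * (12 / 10000 * √D) := by gcongr
        _ = 451 / 10 * (12 / 10000) * r * (√D * √D) := by ring
        _ = 451 / 10 * (12 / 10000) * r * D := by rw [hsD2]
        _ ≤ (27 / 5 / 250 * (250662 / 100000)) * r * D := by
          refine mul_le_mul_of_nonneg_right (mul_le_mul_of_nonneg_right ?_ hr.le) hDD.le
          norm_num
        _ = D * (27 / 5 * r / 250 * (250662 / 100000)) := by ring
        _ ≤ D * (HH N r δ ^ (2 : ℕ) / 250 * P) := by gcongr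
    have h2 := le_of_mul_le_mul_left h1 (by positivity)
    rw [div_mul_eq_mul_div, div_le_iff₀ hDD]
    linarith only [h2]

end SokamV3T

end

/-! ### Lib_MP_af4de1_v3.TailSm -/

section
namespace SokamF1G
end SokamF1G
/-!
# Tails of regime I, `x ≤ 3`, `y ≤ 0`

Hints.  `Ha x y a s = a s - x (e^a cos s - 1 - a) + y (e^a sin s - s)`; `x ≤ 3` gives `ab x s = 1` for
`s ≥ 1 + x` and `ab x s = s/(1+x)` below.  `ρ = K e^y ≤ K ≤ x + (2/5)|y|` (as `|y| ≤ 4x/5`), even
`ρ ≤ (x + (2/5) n)(1 - n + n²/2)`, `n = |y| ≤ min (.53, 4x/5)`.  True slack: `.229` for `ε = -1`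
(at `x = 1.03`, `n = .53`, `s = 3/2`), `1.1` for `ε = 1`.
`ε = -1`: `hq = a s + x (1 - a - e^(-a) cos s) - n (s - e^(-a) sin s)`.  For `s ≥ 4`: `a = 1`, linear in
`(x, n)` for fixed `s`.  For `3/2 ≤ s ≤ 4`: `cos s ≤ 0.0708`.
-/

set_option autoImplicit false

namespace SokamV3T

open Real SokamF1G

private theorem ta_lo {x s : ℝ} (hx3 : x ≤ 3) (h : s ≤ 1 + x) : ab x s = s / (1 + x) := by
  unfold ab
  rw [min_eq_right (show 1 + x ≤ 137 / 25 by linarith only [hx3]), min_eq_right h]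

private theorem ta_hi {x s : ℝ} (hx0 : 0 ≤ x) (hx3 : x ≤ 3) (h : 1 + x ≤ s) : ab x s = 1 := by
  unfold ab
  rw [min_eq_right (show 1 + x ≤ 137 / 25 by linarith only [hx3]), min_eq_left h]
  exact div_self (by linarith only [hx0])

private theorem hqp (x y s : ℝ) : hq x y 1 s = ab x s * s + x * (1 + ab x s) + (-y) * s -
    exp (ab x s) * (x * cos s + (-y) * sin s) := by
  unfold hq Ha
  rw [one_mul, one_mul]
  ring

private theorem hqm (x y s : ℝ) : hq x y (-1) s = ab x s * s + x * (1 - ab x s) - (-y) * s -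
    exp (-ab x s) * (x * cos s - (-y) * sin s) := by
  unfold hq Ha
  rw [neg_one_mul, neg_one_mul, cos_neg, sin_neg]
  ring

private theorem tT {x y K ρ d : ℝ} (h : RF x y K ρ d) (hy : y ≤ 0) :
    ρ / 4 + 2 / 5 ≤ x / 4 + (-y) / 10 - 147 / 800 * (x * (-y)) + 2 / 5 ∧ K ≤ x + 2 / 5 * (-y) := by
  obtain ⟨n, rfl⟩ : ∃ n, y = -n := ⟨-y, by ring⟩
  rw [neg_neg]
  have hn0 : 0 ≤ n := by linarith only [hy]
  have hn : n ≤ 53 / 100 := by linarith only [h.lo]
  have hnx : n ≤ 4 / 5 * x := by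
    have := h.T
    rwa [abs_neg, abs_of_nonneg hn0] at this
  have hx0 := h.x0
  have hK0 := h.K0
  have hK : K ≤ x + 2 / 5 * n := by
    by_contra hc
    push Not at hc
    have h1 := pow_lt_pow_left₀ hc (by positivity) two_ne_zero
    have h2 := h.hK
    have h3 : 0 ≤ n * (4 / 5 * x - 21 / 25 * n) := mul_nonneg hn0 (by linarith only [hnx, hx0])
    linarith only [h1, h2, h3]
  have hE : exp (-n) ≤ 1 - 147 / 200 * n := by
    have h1 : 1 + n + n ^ (2 : ℕ) / 2 ≤ exp n := quadratic_le_exp_of_nonneg hn0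
    rw [exp_neg, inv_le_comm₀ (exp_pos n) (by linarith only [hn])]
    refine le_trans ?_ h1
    rw [inv_eq_one_div, div_le_iff₀ (by linarith only [hn])]
    have h3 : 0 ≤ n * (53 / 100 - n) := mul_nonneg hn0 (by linarith only [hn])
    have h4 : 0 ≤ n * (n * (53 / 100 - n)) := mul_nonneg hn0 h3
    nlinarith only [h3]
  refine ⟨?_, hK⟩
  rw [h.hρ]
  have h5 : K * exp (-n) ≤ (x + 2 / 5 * n) * (1 - 147 / 200 * n) :=
    mul_le_mul hK hE (exp_pos _).le (by positivity)
  linarith only [h5, mul_nonneg hn0 hn0]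

private theorem te_lo : (3678 : ℝ) / 10000 ≤ exp (-1) := by
  have h := exp_one_lt_d9
  rw [exp_neg, le_inv_comm₀ (by norm_num) (exp_pos 1)]
  norm_num
  linarith only [h]

private theorem te_hi : exp (-1) ≤ (3679 : ℝ) / 10000 := by
  have h := exp_one_gt_d9
  rw [exp_neg, inv_le_comm₀ (exp_pos 1) (by norm_num)]
  norm_num
  linarith only [h]

private theorem tcos {s : ℝ} (h1 : 3 / 2 ≤ s) (h2 : s ≤ π + π / 2) : cos s ≤ 708 / 10000 := by
  rcases le_total s (π / 2) with h | h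
  · have h3 : cos s = sin (π / 2 - s) := (sin_pi_div_two_sub s).symm
    have h4 : sin (π / 2 - s) ≤ π / 2 - s := sin_le (by linarith only [h])
    have := pi_lt_d4
    rw [h3]
    linarith only [h1, h4, this]
  · have := cos_nonpos_of_pi_div_two_le_of_le h h2
    linarith only [this]

private theorem tsin {s : ℝ} (h1 : 3 / 2 ≤ s) (h2 : s ≤ 2) : 9 / 10 ≤ sin s := by
  have h3 : sin s = cos (s - π / 2) := (cos_sub_pi_div_two s).symm
  have h4 := one_sub_sq_div_two_le_cos (x := s - π / 2)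
  have := pi_lt_d4
  have := pi_gt_d4
  have h5 : (s - π / 2) ^ (2 : ℕ) ≤ (43 / 100) ^ (2 : ℕ) := by
    apply sq_le_sq'
    · linarith
    · linarith only [h2, this]
  rw [h3]
  linarith only [h4, h5]

/-- division by `1 + x` -/
private theorem tdiv {x s R : ℝ} (hx0 : 0 ≤ x) (h : 0 ≤ (1 + x) * R + s * (s - x)) :
    0 ≤ R + s / (1 + x) * (s - x) := by
  have h1 : 0 < 1 + x := by linarith only [hx0]
  have h2 : R + s / (1 + x) * (s - x) = ((1 + x) * R + s * (s - x)) / (1 + x) := by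
    field_simp
  rw [h2]
  positivity

private theorem m1 {x n s c σ A : ℝ} (hx0 : 0 ≤ x) (hx3 : x ≤ 3) (hn0 : 0 ≤ n)
    (hn : n ≤ 53 / 100) (hs : 3 / 2 ≤ s) (hs2 : s ≤ 2) (hc : c ≤ 708 / 10000) (hσ : 9 / 10 ≤ σ)
    (hA : 3678 / 10000 ≤ A) (hA1 : A ≤ 1) :
    x / 4 + n / 10 - 147 / 800 * (x * n) + 2 / 5 ≤
      s / (1 + x) * s + x * (1 - s / (1 + x)) - n * s - A * (x * c - n * σ) := by
  have hw : x * c - n * σ ≤ 708 / 10000 * x - 9 / 10 * n := by
    have h1 := mul_le_mul_of_nonneg_left hc hx0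
    have h2 := mul_le_mul_of_nonneg_left hσ hn0
    linarith only [h1, h2]
  have hAw : A * (x * c - n * σ) ≤ A * (708 / 10000 * x - 9 / 10 * n) :=
    mul_le_mul_of_nonneg_left hw (by linarith only [hA])
  rcases le_total (708 / 10000 * x - 9 / 10 * n) 0 with h | h
  · have h2 : A * (708 / 10000 * x - 9 / 10 * n) ≤
        3678 / 10000 * (708 / 10000 * x - 9 / 10 * n) := by nlinarith only [hA, h]
    have h3 : 0 ≤ (1 + x) * (x - n * s - 3678 / 10000 * (708 / 10000 * x - 9 / 10 * n) -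
        (x / 4 + n / 10 - 147 / 800 * (x * n) + 2 / 5)) + s * (s - x) := by
      have h4 : 0 ≤ (53 / 100 - n) * (s - 23102 / 100000 - 147 / 800 * x) :=
        mul_nonneg (by linarith only [hn]) (by linarith only [hx3, hs])
      have h5 : 0 ≤ (1 + x) * ((53 / 100 - n) * (s - 23102 / 100000 - 147 / 800 * x)) :=
        mul_nonneg (by linarith only [hx0]) h4
      have h6 : 0 ≤ s * s - x * s + (1 + x) * (82134726 / 100000000 * x - 2775594 / 10000000 -
          53 / 100 * s) := by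
        rcases le_total x 1 with hx | hx
        · have h7 : 0 ≤ (s - 3 / 2) * (s + 97 / 100 - 153 / 100 * x) :=
            mul_nonneg (by linarith only [hs]) (by linarith only [hs, hx])
          nlinarith only [hx, h7]
        · nlinarith only [hx, sq_nonneg (s - (153 / 100 * x + 53 / 100) / 2)]
      linarith only [h5, h6]
    have h8 := tdiv hx0 h3
    linarith only [hAw, h2, h8]
  · have h2 : A * (708 / 10000 * x - 9 / 10 * n) ≤ 708 / 10000 * x - 9 / 10 * n := by nlinarith only [hA1, h]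
    have h3 : 0 ≤ (1 + x) * (x - n * s - (708 / 10000 * x - 9 / 10 * n) -
        (x / 4 + n / 10 - 147 / 800 * (x * n) + 2 / 5)) + s * (s - x) := by
      have h4 : x - n * s - (708 / 10000 * x - 9 / 10 * n) -
          (x / 4 + n / 10 - 147 / 800 * (x * n) + 2 / 5) ≥ 58 / 100 * x - 2 / 5 := by
        have h5 : 0 ≤ n * (2 - s) := mul_nonneg hn0 (by linarith only [hs2])
        have h6 : 0 ≤ x * n := mul_nonneg hx0 hn0
        nlinarith only [hn0, h, h5]
      have h5 : (1 + x) * (58 / 100 * x - 2 / 5) ≤ (1 + x) * (x - n * s -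
          (708 / 10000 * x - 9 / 10 * n) -
          (x / 4 + n / 10 - 147 / 800 * (x * n) + 2 / 5)) :=
        mul_le_mul_of_nonneg_left h4 (by linarith only [hx0])
      have h6 : 0 ≤ (s - 3 / 2) * (s + 3 / 2 - x) := mul_nonneg (by linarith only [hs]) (by linarith only [hx3, hs])
      nlinarith only [h5, h6, sq_nonneg (x - 112 / 100)]
    have h8 := tdiv hx0 h3
    linarith only [hAw, h2, h8]

private theorem m2 {x n s W : ℝ} (hx0 : 0 ≤ x) (hx3 : x ≤ 3) (hn : n ≤ 53 / 100) (hs : 2 ≤ s)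
    (hW : W ≤ 0) :
    x / 4 + n / 10 - 147 / 800 * (x * n) + 2 / 5 ≤
      s / (1 + x) * s + x * (1 - s / (1 + x)) - n * s - W := by
  have h3 : 0 ≤ (1 + x) * (x - n * s - (x / 4 + n / 10 - 147 / 800 * (x * n) + 2 / 5)) +
      s * (s - x) := by
    have h4 : 0 ≤ (53 / 100 - n) * (s + 1 / 10 - 147 / 800 * x) :=
      mul_nonneg (by linarith only [hn]) (by linarith only [hx3, hs])
    have h5 : 0 ≤ (1 + x) * ((53 / 100 - n) * (s + 1 / 10 - 147 / 800 * x)) :=
      mul_nonneg (by linarith only [hx0]) h4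
    have h6 : 0 ≤ s * s - x * s + (1 + x) * (8473875 / 10000000 * x - 453 / 1000 -
        53 / 100 * s) := by
      rcases le_total x (3 / 2) with hx | hx
      · have h7 : 0 ≤ (s - 2) * (s + 147 / 100 - 153 / 100 * x) :=
          mul_nonneg (by linarith only [hs]) (by linarith only [hs, hx])
        nlinarith only [h7, sq_nonneg (x - 1573 / 1000)]
      · nlinarith only [hx, sq_nonneg (s - (153 / 100 * x + 53 / 100) / 2)]
    linarith only [h5, h6]
  have h8 := tdiv hx0 h3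
  linarith only [hW, h8]

private theorem m3 {x n s c σ A : ℝ} (hx0 : 0 ≤ x) (hn0 : 0 ≤ n)
    (hn : n ≤ 53 / 100) (hs : 1 + x ≤ s) (hc : c ≤ 708 / 10000) (hσ : 0 ≤ σ)
    (hA : 0 ≤ A) (hA1 : A ≤ 3679 / 10000) :
    x / 4 + n / 10 - 147 / 800 * (x * n) + 2 / 5 ≤
      1 * s + x * (1 - 1) - n * s - A * (x * c - n * σ) := by
  have h1 : A * (x * c - n * σ) ≤ 3679 / 10000 * (708 / 10000 * x) := by
    have h2 := mul_le_mul_of_nonneg_left hc hx0
    have h3 := mul_nonneg hn0 hσ
    have h4 : A * (x * c - n * σ) ≤ A * (708 / 10000 * x) :=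
      mul_le_mul_of_nonneg_left (by linarith only [h2, h3]) hA
    have h5 : A * (708 / 10000 * x) ≤ 3679 / 10000 * (708 / 10000 * x) :=
      mul_le_mul_of_nonneg_right hA1 (by positivity)
    linarith only [h4, h5]
  have h6 : 0 ≤ (s - (1 + x)) * (1 - n) := mul_nonneg (by linarith only [hs]) (by linarith only [hn])
  have h7 : 0 ≤ (53 / 100 - n) * (11 / 10 + x - 147 / 800 * x) :=
    mul_nonneg (by linarith only [hn]) (by linarith only [hx0])
  linarith only [hx0, h1, h6, h7]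

private theorem m4 {x n s c σ A : ℝ} (hx0 : 0 ≤ x) (hx3 : x ≤ 3) (hn0 : 0 ≤ n)
    (hn : n ≤ 53 / 100) (hs : 314 / 100 ≤ s) (hc : c ≤ 0) (hσ : -1 ≤ σ)
    (hA : 0 ≤ A) (hA1 : A ≤ 3679 / 10000) :
    x / 4 + n / 10 - 147 / 800 * (x * n) + 2 / 5 ≤
      1 * s + x * (1 - 1) - n * s - A * (x * c - n * σ) := by
  have h1 : A * (x * c - n * σ) ≤ 3679 / 10000 * n := by
    have h2 := mul_nonpos_of_nonneg_of_nonpos hx0 hc
    have h3 := mul_le_mul_of_nonneg_left hσ hn0
    have h4 : A * (x * c - n * σ) ≤ A * n :=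
      mul_le_mul_of_nonneg_left (by linarith only [h2, h3]) hA
    have h5 : A * n ≤ 3679 / 10000 * n := mul_le_mul_of_nonneg_right hA1 hn0
    linarith only [h4, h5]
  have h6 : 0 ≤ (s - 314 / 100) * (1 - n) := mul_nonneg (by linarith only [hs]) (by linarith only [hn])
  have h7 : 0 ≤ (3 - x) * (1 / 4 - 147 / 800 * n) := mul_nonneg (by linarith only [hx3]) (by linarith only [hn])
  linarith only [hn, h1, h6, h7]

private theorem m5 {x n s c σ A K : ℝ} (hx0 : 0 ≤ x) (hx3 : x ≤ 3) (hn0 : 0 ≤ n)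
    (hn : n ≤ 53 / 100) (hs : 471 / 100 ≤ s) (hK0 : 0 < K) (hK : K ^ (2 : ℕ) = x ^ (2 : ℕ) + n ^ (2 : ℕ))
    (hK1 : K ≤ x + 2 / 5 * n) (hcσ : σ ^ (2 : ℕ) + c ^ (2 : ℕ) = 1) (hA : 0 ≤ A) (hA1 : A ≤ 3679 / 10000) :
    x / 4 + n / 10 - 147 / 800 * (x * n) + 2 / 5 ≤
      1 * s + x * (1 - 1) - n * s - A * (x * c - n * σ) ∧
    (628 / 100 ≤ s → x / 4 + n / 10 - 147 / 800 * (x * n) + 2 / 5 + 2 / 5 * (s - 628 / 100) ≤
      1 * s + x * (1 - 1) - n * s - A * (x * c - n * σ)) := by
  have h0 : x * c - n * σ ≤ K := by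
    by_contra hc
    push Not at hc
    have h1 := pow_lt_pow_left₀ hc hK0.le two_ne_zero
    have h2 : (x * c - n * σ) ^ (2 : ℕ) + (x * σ + n * c) ^ (2 : ℕ) = K ^ (2 : ℕ) := by
      rw [hK]
      linear_combination (x ^ (2 : ℕ) + n ^ (2 : ℕ)) * hcσ
    nlinarith only [h1, h2]
  have h1 : A * (x * c - n * σ) ≤ 3679 / 10000 * (x + 2 / 5 * n) := by
    have h4 : A * (x * c - n * σ) ≤ A * (x + 2 / 5 * n) :=
      mul_le_mul_of_nonneg_left (by linarith only [hK1, h0]) hA
    have h5 : A * (x + 2 / 5 * n) ≤ 3679 / 10000 * (x + 2 / 5 * n) :=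
      mul_le_mul_of_nonneg_right hA1 (by positivity)
    linarith only [h4, h5]
  have h7 : 0 ≤ (3 - x) * (1 / 4 - 147 / 800 * n) := mul_nonneg (by linarith only [hx3]) (by linarith only [hn])
  constructor
  · have h6 : 0 ≤ (s - 471 / 100) * (1 - n) := mul_nonneg (by linarith only [hs]) (by linarith only [hn])
    nlinarith only [hn, h1, h7, h6]
  · intro hs2
    have h6 : 0 ≤ (s - 628 / 100) * (3 / 5 - n) := mul_nonneg (by linarith only [hs2]) (by linarith only [hn])
    nlinarith only [hn, h1, h7, h6]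

private theorem p1 {x n s c σ E a : ℝ} (hx0 : 0 ≤ x) (hn0 : 0 ≤ n)
    (hn : n ≤ 53 / 100) (hs : 3 / 2 ≤ s) (hc : c ≤ 708 / 10000) (hσ : σ ≤ 1) (hE : 0 ≤ E)
    (hE1 : E ≤ 2719 / 1000) (ha : s ≤ a * s + x * a) :
    x / 4 + n / 10 - 147 / 800 * (x * n) + 2 / 5 ≤
      a * s + x * (1 + a) + n * s - E * (x * c + n * σ) := by
  have h1 : E * (x * c + n * σ) ≤ 2719 / 1000 * (708 / 10000 * x + n) := by
    have h2 := mul_le_mul_of_nonneg_left hc hx0
    have h3 := mul_le_mul_of_nonneg_left hσ hn0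
    have h4 : E * (x * c + n * σ) ≤ E * (708 / 10000 * x + n) :=
      mul_le_mul_of_nonneg_left (by linarith only [h2, h3]) hE
    have h5 : E * (708 / 10000 * x + n) ≤ 2719 / 1000 * (708 / 10000 * x + n) :=
      mul_le_mul_of_nonneg_right hE1 (by positivity)
    linarith only [h4, h5]
  have h6 : 0 ≤ n * (s - 3 / 2) := mul_nonneg hn0 (by linarith only [hs])
  have h7 : 0 ≤ x * n := mul_nonneg hx0 hn0
  nlinarith only [hx0, hn0, hn, hs, ha, h1]

private theorem p2 {x n s c σ E : ℝ} (hx0 : 0 ≤ x) (hx3 : x ≤ 3) (hn0 : 0 ≤ n)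
    (hn : n ≤ 53 / 100) (hs : 471 / 100 ≤ s) (hc : c ≤ 1) (hσ : σ ≤ 1) (hE : 0 ≤ E)
    (hE1 : E ≤ 2719 / 1000) :
    x / 4 + n / 10 - 147 / 800 * (x * n) + 2 / 5 ≤
      1 * s + x * (1 + 1) + n * s - E * (x * c + n * σ) ∧
    (628 / 100 ≤ s → x / 4 + n / 10 - 147 / 800 * (x * n) + 2 / 5 + 2 / 5 * (s - 628 / 100) ≤
      1 * s + x * (1 + 1) + n * s - E * (x * c + n * σ)) := by
  have h1 : E * (x * c + n * σ) ≤ 2719 / 1000 * (x + n) := by
    have h2 := mul_le_mul_of_nonneg_left hc hx0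
    have h3 := mul_le_mul_of_nonneg_left hσ hn0
    have h4 : E * (x * c + n * σ) ≤ E * (x + n) :=
      mul_le_mul_of_nonneg_left (by linarith only [h2, h3]) hE
    have h5 : E * (x + n) ≤ 2719 / 1000 * (x + n) :=
      mul_le_mul_of_nonneg_right hE1 (by positivity)
    linarith only [h4, h5]
  have h6 : 0 ≤ n * (s - 471 / 100) := mul_nonneg hn0 (by linarith only [hs])
  have h7 : 0 ≤ x * n := mul_nonneg hx0 hn0
  constructor
  · nlinarith only [hx3, hn0, hn, hs, h1]
  · intro hs2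
    nlinarith only [hx3, hn0, hn, h1, hs2]

theorem ptsm : PTSm := by
  intro x y K ρ d ε s h hx3 hy hε hs
  obtain ⟨hT, hK1⟩ := tT h hy
  have hx0 := h.x0
  have hn0 : 0 ≤ -y := by linarith only [hy]
  have hn : -y ≤ 53 / 100 := by linarith only [h.lo]
  have hK0 := h.K0
  have hK2 : K ^ (2 : ℕ) = x ^ (2 : ℕ) + (-y) ^ (2 : ℕ) := by
    rw [h.hK]
    ring
  have hpi := pi_gt_d4
  have hpi' := pi_lt_d4
  have he : exp 1 ≤ 2719 / 1000 := by
    have := exp_one_lt_d9
    linarith only [this]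
  rcases hε with rfl | rfl
  · rw [hqp]
    rcases le_total s (π + π / 2) with hs1 | hs1
    · have ha : exp (ab x s) ≤ exp 1 ∧ s ≤ ab x s * s + x * ab x s := by
        rcases le_total s (1 + x) with h1 | h1
        · rw [ta_lo hx3 h1]
          have h2 : 0 < 1 + x := by linarith only [hx0]
          constructor
          · rw [exp_le_exp, div_le_one h2]
            exact h1
          · have h3 : s / (1 + x) * s + x * (s / (1 + x)) = s * (s + x) / (1 + x) := by ring
            rw [h3, le_div_iff₀ h2]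
            nlinarith only [hs]
        · rw [ta_hi hx0 hx3 h1]
          constructor
          · exact le_refl _
          · linarith only [hx0]
      have h1 := p1 hx0 hn0 hn hs (tcos hs hs1) (sin_le_one s) (exp_pos (ab x s)).le
        (ha.1.trans he) ha.2
      refine ⟨hT.trans h1, fun h2 => ?_⟩
      exfalso
      linarith only [hpi, hs1, h2]
    · rw [ta_hi hx0 hx3 (by linarith only [hx3, hpi, hs1])]
      obtain ⟨h1, h2⟩ := p2 hx0 hx3 hn0 hn (by linarith only [hpi, hs1]) (cos_le_one s) (sin_le_one s)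
        (exp_pos 1).le he (s := s)
      refine ⟨hT.trans h1, fun h3 => ?_⟩
      have h4 := h2 (by linarith only [hpi, h3])
      linarith only [hT, hpi, h4]
  · rw [hqm]
    rcases le_total s (1 + x) with h1 | h1
    · rw [ta_lo hx3 h1]
      have h2 : 0 < 1 + x := by linarith only [hx0]
      have ha1 : s / (1 + x) ≤ 1 := by
        rw [div_le_one h2]
        exact h1
      have ha0 : 0 ≤ s / (1 + x) := by positivity
      have hA1 : exp (-(s / (1 + x))) ≤ 1 := by
        rw [exp_le_one_iff]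
        linarith only [ha0]
      have hA : 3678 / 10000 ≤ exp (-(s / (1 + x))) := by
        refine te_lo.trans ?_
        rw [exp_le_exp]
        linarith only [ha1]
      have hvac : ∀ b c : ℝ, 2 * π ≤ s → b ≤ c := by
        intro b c h3
        exfalso
        linarith only [hx3, hpi, h1, h3]
      rcases le_total s 2 with h3 | h3
      · exact ⟨hT.trans (m1 hx0 hx3 hn0 hn hs h3 (tcos hs (by linarith only [hpi, h3])) (tsin hs h3) hA hA1),
          hvac _ _⟩
      · have hW : exp (-(s / (1 + x))) * (x * cos s - (-y) * sin s) ≤ 0 := by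
          apply mul_nonpos_of_nonneg_of_nonpos (exp_pos _).le
          rcases le_total s π with h4 | h4
          · have h5 := cos_nonpos_of_pi_div_two_le_of_le (x := s) (by linarith only [hpi', h3]) (by linarith only [h3, h4])
            have h6 := sin_nonneg_of_nonneg_of_le_pi (x := s) (by linarith only [h3]) h4
            have h7 := mul_nonpos_of_nonneg_of_nonpos hx0 h5
            have h8 := mul_nonneg hn0 h6
            linarith only [h7, h8]
          · have h5 : cos s ≤ -(6 / 10) := by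
              have h6 : cos s = -cos (s - π) := by rw [cos_sub_pi, neg_neg]
              have h7 := one_sub_sq_div_two_le_cos (x := s - π)
              have h8 : (s - π) ^ (2 : ℕ) ≤ (86 / 100) ^ (2 : ℕ) := by
                apply sq_le_sq'
                · linarith only [h4]
                · linarith only [hx3, hpi, h1]
              rw [h6]
              linarith only [h7, h8]
            have h6 := neg_one_le_sin s
            have h7 := mul_le_mul_of_nonneg_left h5 hx0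
            have h8 := mul_le_mul_of_nonneg_left h6 hn0
            have h9 : 214 / 100 ≤ x := by linarith only [hpi, h1, h4]
            linarith only [hn, h7, h8, h9]
        exact ⟨hT.trans (m2 hx0 hx3 hn h3 hW), hvac _ _⟩
    · rw [ta_hi hx0 hx3 h1]
      have hA0 := (exp_pos (-1)).le
      rcases le_total s π with h3 | h3
      · refine ⟨hT.trans (m3 hx0 hn0 hn h1 (tcos hs (by linarith only [hpi, h3]))
          (sin_nonneg_of_nonneg_of_le_pi (by linarith only [hs]) h3) hA0 te_hi), fun h4 => ?_⟩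
        exfalso
        linarith only [hpi, h3, h4]
      · rcases le_total s (π + π / 2) with h4 | h4
        · refine ⟨hT.trans (m4 hx0 hx3 hn0 hn (by linarith only [hpi, h3])
            (cos_nonpos_of_pi_div_two_le_of_le (by linarith only [h3, h4]) h4) (neg_one_le_sin s) hA0 te_hi),
            fun h5 => ?_⟩
          exfalso
          linarith only [hpi, h4, h5]
        · obtain ⟨h5, h6⟩ := m5 hx0 hx3 hn0 hn (by linarith only [hpi, h4]) hK0 hK2 hK1 (sin_sq_add_cos_sq s)
            hA0 te_hi (s := s)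
          refine ⟨hT.trans h5, fun h7 => ?_⟩
          have h8 := h6 (by linarith only [hpi, h7])
          linarith only [hT, hpi, h8]


end SokamV3T

end

/-! ### Lib_MP_af4de1_v3.Tail1 -/

section
namespace SokamPG
end SokamPG
/-!
# `PTail1s` and `POwn1`
-/

set_option autoImplicit false

namespace SokamV3T

open Real MeasureTheory Set SokamPG

theorem ji_S_pos {x y K ρ d : ℝ} (h : RF x y K ρ d) (hx : x ≤ 3) (hy : 0 ≤ y) : JI x y d := by
  have hx0 := h.x0
  have hd := rf_d h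
  have hr1 := h.r1
  have hp := pi_lt_d4
  have hρ : ρ ≤ 4571 / 1000 := by linarith only [hx, hp, h.ep' hy]
  have hd0 : 0 < d := by linarith only [hd]
  have hd1 : 109 / 10 ≤ d := by
    have : ρ * d ≤ 4571 / 1000 * d := by gcongr
    linarith only [hr1, this]
  obtain ⟨i1, i2⟩ := s_part (x := x) (y := y) (ε := 1) hx0 hd
    (fun s hs => (ptsp x y K ρ d 1 s h hx hy (Or.inl rfl) hs).1)
    (fun s hs => (ptsp x y K ρ d 1 s h hx hy (Or.inl rfl) (by linarith only [hs, pi_gt_d2])).2 hs)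
  obtain ⟨j1, j2⟩ := s_part (x := x) (y := y) (ε := -1) hx0 hd
    (fun s hs => (ptsp x y K ρ d (-1) s h hx hy (Or.inr rfl) hs).1)
    (fun s hs => (ptsp x y K ρ d (-1) s h hx hy (Or.inr rfl) (by linarith only [hs, pi_gt_d2])).2 hs)
  refine ⟨i1, j1, ?_⟩
  have e1 : exp (-(d * (ρ / 5 + 1 / 2))) ≤ exp (-(499 / 50)) * exp (-(d * (1 / 2))) := by
    rw [← exp_add]
    apply exp_le_exp.2
    linarith only [hr1]
  have e2 := d_mono (d := d) (d1 := 109 / 10) (h := 1 / 2) (by norm_num) hd1 (by norm_num)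
  have e3 : √(109 / 10 : ℝ) ≤ 3302 / 1000 := by
    rw [sqrt_le_left (by norm_num)]
    norm_num
  have e4 : exp (-(499 / 50)) * exp (-(109 / 10 * (1 / 2))) ≤ 201 / 1000000000 := by
    rw [← exp_add]
    have : (-(499 / 50) + -(109 / 10 * (1 / 2)) : ℝ) = -(1543 / 100) := by norm_num
    rw [this]
    exact exp_neg_le 15 (f := 43 / 100) (T := 1537 / 1000) (by norm_num) (by norm_num)
      (by norm_num) (by norm_num) (by norm_num) (by norm_num)
  have hE1 := exp_pos (-(499 / 50 : ℝ))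
  have hsd : 0 ≤ √d := sqrt_nonneg d
  have h1 : d * √d * (JJ x y d 1 + JJ x y d (-1)) ≤ 12 / 10000 := by
    calc d * √d * (JJ x y d 1 + JJ x y d (-1))
        ≤ d * √d * (57 * exp (-(d * (ρ / 5 + 1 / 2))) + 57 * exp (-(d * (ρ / 5 + 1 / 2)))) := by
          gcongr
      _ = 114 * (d * √d * exp (-(d * (ρ / 5 + 1 / 2)))) := by ring
      _ ≤ 114 * (d * √d * (exp (-(499 / 50)) * exp (-(d * (1 / 2))))) := by gcongr
      _ = 114 * exp (-(499 / 50)) * (d * √d * exp (-(d * (1 / 2)))) := by ring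
      _ ≤ 114 * exp (-(499 / 50)) * (109 / 10 * √(109 / 10) * exp (-(109 / 10 * (1 / 2)))) := by
          gcongr
      _ = 114 * (109 / 10 * √(109 / 10)) * (exp (-(499 / 50)) * exp (-(109 / 10 * (1 / 2)))) := by
          ring
      _ ≤ 114 * (109 / 10 * (3302 / 1000)) * (201 / 1000000000) := by gcongr
      _ ≤ 12 / 10000 := by norm_num
  have h2 : 1 ≤ √(√((1 + y) ^ (2 : ℕ) + x ^ (2 : ℕ))) := by
    apply le_sqrt_of_sq_le
    rw [one_pow]
    apply le_sqrt_of_sq_le
    nlinarith [sq_nonneg x]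
  have h3 : 1 ≤ exp y := one_le_exp hy
  calc d * √d * (JJ x y d 1 + JJ x y d (-1)) ≤ 12 / 10000 * 1 * 1 := by linarith only [h1]
    _ ≤ _ := by gcongr

theorem ji_S_neg {x y K ρ d : ℝ} (h : RF x y K ρ d) (hx : x ≤ 3) (hy : y ≤ 0) : JI x y d := by
  have hx0 := h.x0
  have hd := rf_d h
  have hr1 := h.r1
  have hd0 : 0 < d := by linarith only [hd]
  obtain ⟨i1, i2⟩ := s_part (x := x) (y := y) (ε := 1) hx0 hd
    (fun s hs => (ptsm x y K ρ d 1 s h hx hy (Or.inl rfl) hs).1)
    (fun s hs => (ptsm x y K ρ d 1 s h hx hy (Or.inl rfl) (by linarith only [hs, pi_gt_d2])).2 hs)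
  obtain ⟨j1, j2⟩ := s_part (x := x) (y := y) (ε := -1) hx0 hd
    (fun s hs => (ptsm x y K ρ d (-1) s h hx hy (Or.inr rfl) hs).1)
    (fun s hs => (ptsm x y K ρ d (-1) s h hx hy (Or.inr rfl) (by linarith only [hs, pi_gt_d2])).2 hs)
  refine ⟨i1, j1, ?_⟩
  have e1 : exp (-(d * (ρ / 4 + 2 / 5))) ≤ exp (-(499 / 40)) * exp (-(d * (2 / 5))) := by
    rw [← exp_add]
    apply exp_le_exp.2
    linarith only [hr1]
  have e2 := d_mono (d := d) (d1 := 793 / 100) (h := 2 / 5) (by norm_num) hd (by norm_num)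
  have e3 := sqrt793
  have e4 : exp (-(499 / 40)) * exp (-(793 / 100 * (2 / 5))) ≤ 162 / 1000000000 := by
    rw [← exp_add]
    have : (-(499 / 40) + -(793 / 100 * (2 / 5)) : ℝ) = -(15647 / 1000) := by norm_num
    rw [this]
    exact exp_neg_le 15 (f := 647 / 1000) (T := 19 / 10) (by norm_num) (by norm_num)
      (by norm_num) (by norm_num) (by norm_num) (by norm_num)
  have hE1 := exp_pos (-(499 / 40 : ℝ))
  have hsd : 0 ≤ √d := sqrt_nonneg d
  have h1 : d * √d * (JJ x y d 1 + JJ x y d (-1)) ≤ 6 / 10000 := by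
    calc d * √d * (JJ x y d 1 + JJ x y d (-1))
        ≤ d * √d * (57 * exp (-(d * (ρ / 4 + 2 / 5))) + 57 * exp (-(d * (ρ / 4 + 2 / 5)))) := by
          gcongr
      _ = 114 * (d * √d * exp (-(d * (ρ / 4 + 2 / 5)))) := by ring
      _ ≤ 114 * (d * √d * (exp (-(499 / 40)) * exp (-(d * (2 / 5))))) := by gcongr
      _ = 114 * exp (-(499 / 40)) * (d * √d * exp (-(d * (2 / 5)))) := by ring
      _ ≤ 114 * exp (-(499 / 40)) * (793 / 100 * √(793 / 100) * exp (-(793 / 100 * (2 / 5)))) := by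
          gcongr
      _ = 114 * (793 / 100 * √(793 / 100)) * (exp (-(499 / 40)) * exp (-(793 / 100 * (2 / 5)))) := by
          ring
      _ ≤ 114 * (793 / 100 * (28161 / 10000)) * (162 / 1000000000) := by gcongr
      _ ≤ 6 / 10000 := by norm_num
  have h2 : 89 / 100 ≤ √(√((1 + y) ^ (2 : ℕ) + x ^ (2 : ℕ))) := by
    apply le_sqrt_of_sq_le
    apply le_sqrt_of_sq_le
    have := h.D
    norm_num
    linarith only [this]
  have h3 : 58 / 100 ≤ exp y :=
    (exp_neg_ge (t := 53 / 100) (by norm_num) (by norm_num) (by norm_num)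
      (by norm_num)).trans (exp_le_exp.2 (by linarith only [h.lo]))
  calc d * √d * (JJ x y d 1 + JJ x y d (-1)) ≤ 12 / 10000 * (89 / 100) * (58 / 100) := by linarith only [h1]
    _ ≤ _ := by gcongr

/-- the integral estimate, all of regime I -/
theorem ji_all (x y K ρ d : ℝ) (h : RF x y K ρ d) : JI x y d := by
  rcases le_total x 3 with hx | hx
  · rcases le_total 0 y with hy | hy
    · exact ji_S_pos h hx hy
    · exact ji_S_neg h hx hy
  · rcases le_total 0 y with hy | hy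
    · exact ji_L h hx hy
    · exact ji_R h hx hy

theorem ptail1s : SokamV3.PTail1s := ptail1s_of ji_all

theorem pown1 : SokamV3.POwn1 := SokamV3.own1_of_tails_s ptail1s

end SokamV3T

end
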