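import Pool.Agent.Lib_MP_af4de1_zy.Z152

/-! ### Lib_MP_af4de1_v3.T2Lump -/

section
namespace SokamF1S
end SokamF1S
namespace SokamV3
end SokamV3
/-!
# `N = 2`, tails: tools for the pieces A, B (helper63)

`tP_le`: the bound of one lump.  `at_pos`, `at_neg`: the relations between `x`, `y`, `ρ`, `η`.
-/

set_option autoImplicit false

namespace SokamT2

open Real Set SokamF1S SokamV3

/-! ### exponentials -/

theorem en_ub {a : ℝ} (h0 : 0 ≤ a) (h1 : a ≤ 1) :
    exp (-a) ≤ 1 - a + a ^ (2 : ℕ) / 2 - a ^ (3 : ℕ) / 6 + a ^ (4 : ℕ) / 24 := by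
  have h := Real.exp_bound (x := -a) (by rw [abs_neg, abs_of_nonneg h0]; exact h1) (n := 6) (by norm_num)
  simp only [Finset.sum_range_succ, Finset.sum_range_zero, Nat.factorial] at h
  norm_num at h
  have h2 := (abs_le.1 h).2
  rw [abs_of_nonneg h0] at h2
  have h3 : a ^ (6 : ℕ) ≤ a ^ (5 : ℕ) := pow_le_pow_of_le_one h0 h1 (by norm_num)
  have h4 : (-a) ^ (5 : ℕ) = -a ^ (5 : ℕ) := by ring
  have h5 : (-a) ^ (3 : ℕ) = -a ^ (3 : ℕ) := by ring
  have h6 : 0 ≤ a ^ (5 : ℕ) := by positivity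
  rw [h4, h5] at h2
  linarith only [h2, h3, h6]

theorem ep_ub {a : ℝ} (h0 : 0 ≤ a) (h1 : a ≤ 1) :
    exp a ≤ 1 + a + a ^ (2 : ℕ) / 2 + a ^ (3 : ℕ) / 6 + a ^ (4 : ℕ) / 24 + a ^ (5 : ℕ) / 100 := by
  have h := Real.exp_bound' h0 h1 (n := 5) (by norm_num)
  simp only [Finset.sum_range_succ, Finset.sum_range_zero, Nat.factorial] at h
  norm_num at h
  linarith only [h]

theorem ep_lb {a : ℝ} (h0 : 0 ≤ a) : 1 + a + a ^ (2 : ℕ) / 2 + a ^ (3 : ℕ) / 6 ≤ exp a := by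
  have h := Real.sum_le_exp_of_nonneg h0 4
  simp only [Finset.sum_range_succ, Finset.sum_range_zero, Nat.factorial] at h
  norm_num at h
  linarith only [h]

/-- `1 - e^(-n) ≥ n - n²/2` -/
theorem one_sub_en {n : ℝ} (h0 : 0 ≤ n) (h1 : n ≤ 1) : n - n ^ (2 : ℕ) / 2 ≤ 1 - exp (-n) := by
  have h := en_ub h0 h1
  have h2 : n ^ (4 : ℕ) ≤ n ^ (3 : ℕ) := pow_le_pow_of_le_one h0 h1 (by norm_num)
  have h3 : 0 ≤ n ^ (3 : ℕ) := by positivity
  linarith only [h, h2, h3]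

/-! ### one lump -/

theorem tP_le {ε x v w D θ M d C E F : ℝ} (hw : 0 < w) (hD : 0 < D) (hM : 1 < M)
    (h0 : 0 < tμ ε x v) (hμ : M ≤ w * tμ ε x v) (hθ : M ≤ 4 * θ * (M - 1))
    (hd : D ≤ d * tμ ε x v) (hC : d * M ≤ 2 * C ^ (2 : ℕ) * (M - 1)) (hC0 : 0 ≤ C)
    (hE : E ≤ w * (tH ε x v - θ * tm ε x v ^ (2 : ℕ) / tμ ε x v)) (hF : C * exp (-E) ≤ F) :
    tP ε x v w ≤ F * √(2 * π / (w * D)) := by
  unfold tP
  set μ := tμ ε x v with hμd
  set m := tm ε x v with hmd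
  set H := tH ε x v with hHd
  have hq : 0 < w * μ - 1 := by linarith only [hM, hμ]
  have hM1 : 0 < M - 1 := by linarith only [hM]
  have hd0 : 0 < d := by
    by_contra h
    push Not at h
    have := mul_nonpos_of_nonpos_of_nonneg h h0.le
    linarith only [hD, hd, this]
  have a1 : √(π / (w * μ - 1)) ≤ C * √(2 * π / (w * D)) := by
    rw [← Real.sqrt_sq hC0, ← Real.sqrt_mul (sq_nonneg C)]
    refine Real.sqrt_le_sqrt ?_
    rw [div_le_iff₀ hq]
    have e1 : C ^ (2 : ℕ) * (2 * π / (w * D)) * (w * μ - 1) = π * (2 * C ^ (2 : ℕ) * (w * μ - 1)) / (w * D) := by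
      field_simp
    rw [e1, le_div_iff₀ (by positivity)]
    refine mul_le_mul_of_nonneg_left ?_ pi_pos.le
    -- w D ≤ d w μ ≤ 2 C² (w μ - 1)
    have b1 : w * D ≤ d * (w * μ) := by
      have := mul_le_mul_of_nonneg_left hd hw.le
      linarith only [this]
    have b2 : (M - 1) * (w * μ) ≤ M * (w * μ - 1) := by linarith only [hμ]
    have b3 : (M - 1) * (d * (w * μ)) ≤ (M - 1) * (2 * C ^ (2 : ℕ) * (w * μ - 1)) := by
      have c1 := mul_le_mul_of_nonneg_left b2 hd0.le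
      have c2 := mul_le_mul_of_nonneg_right hC hq.le
      have c3 : (M - 1) * (d * (w * μ)) = d * ((M - 1) * (w * μ)) := by ring
      have c4 : (M - 1) * (2 * C ^ (2 : ℕ) * (w * μ - 1)) = 2 * C ^ (2 : ℕ) * (M - 1) * (w * μ - 1) := by ring
      have c5 : d * (M * (w * μ - 1)) = d * M * (w * μ - 1) := by ring
      rw [c3, c4]
      linarith only [c1, c2]
    exact b1.trans (le_of_mul_le_mul_left b3 hM1)
  have a2 : (w * m) ^ (2 : ℕ) / (4 * (w * μ - 1)) - w * H ≤ -E := by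
    have h4 : 1 ≤ 4 * θ := by
      by_contra h
      push Not at h
      have := mul_lt_mul_of_pos_right h hM1
      linarith only [hθ, this]
    have b1 : w * μ ≤ 4 * θ * (w * μ - 1) := by
      have c1 : (4 * θ - 1) * M ≤ (4 * θ - 1) * (w * μ) :=
        mul_le_mul_of_nonneg_left hμ (by linarith only [h4])
      linarith only [hθ, c1]
    have b2 : (w * m) ^ (2 : ℕ) / (4 * (w * μ - 1)) ≤ w * (θ * m ^ (2 : ℕ) / μ) := by
      rw [div_le_iff₀ (by positivity)]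
      have e1 : w * (θ * m ^ (2 : ℕ) / μ) * (4 * (w * μ - 1)) = w * m ^ (2 : ℕ) * (4 * θ * (w * μ - 1)) / μ := by
        field_simp
      rw [e1, le_div_iff₀ h0]
      have c1 := mul_le_mul_of_nonneg_left b1 (by positivity : 0 ≤ w * m ^ (2 : ℕ))
      have e2 : (w * m) ^ (2 : ℕ) * μ = w * m ^ (2 : ℕ) * (w * μ) := by ring
      rw [e2]
      exact c1
    have b3 : w * (H - θ * m ^ (2 : ℕ) / μ) = w * H - w * (θ * m ^ (2 : ℕ) / μ) := by ring
    rw [b3] at hE
    linarith only [hE, b2]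
  have a3 : √(π / (w * μ - 1)) * exp ((w * m) ^ (2 : ℕ) / (4 * (w * μ - 1)) - w * H) ≤
      C * √(2 * π / (w * D)) * exp (-E) :=
    mul_le_mul a1 (exp_le_exp.2 a2) (exp_pos _).le (by positivity)
  refine a3.trans ?_
  have e1 : C * √(2 * π / (w * D)) * exp (-E) = C * exp (-E) * √(2 * π / (w * D)) := by ring
  rw [e1]
  exact mul_le_mul_of_nonneg_right hF (Real.sqrt_nonneg _)

/-! ### the saddle -/

/-- `y ≥ 0` -/
theorem at_pos {r δ y η : ℝ} (h : At r δ y η) (hy : 0 ≤ y) (hx : 1 ≤ sx (r * δ) y) :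
    sx (r * δ) y * exp y ≤ r * δ ∧ r * δ ≤ sx (r * δ) y + η ∧
      sx (r * δ) y * (exp y - 1) + (y + y ^ (2 : ℕ) / 2) / sx (r * δ) y ≤ η := by
  have hρ := h.dom.1
  set ρ := r * δ with hρd
  have e1 := exp_mul_neg y
  have hxk := sx_le h.dom
  have hE := exp_pos y
  refine ⟨?_, ?_, ?_⟩
  · have := mul_le_mul_of_nonneg_right hxk hE.le
    have e2 : ρ * exp (-y) * exp y = ρ * (exp y * exp (-y)) := by ring
    rw [e2, e1, mul_one] at this
    exact this
  · have h2 := sP_nonneg (ρ := ρ) hρ hy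
    have h3 := h.eta
    unfold sE at h3
    linarith only [h2, h3]
  · have h2 := sE_ge_pos h.dom hy
    rw [h.eta] at h2
    refine le_trans ?_ h2
    have hk0 : 0 < ρ * exp (-y) := by positivity
    have hx0 : 0 < sx ρ y := by linarith only [hx]
    have e3 : ρ * (1 - exp (-y)) = ρ * exp (-y) * (exp y - 1) := by
      linear_combination (-ρ) * e1
    have e4 : (y + y ^ (2 : ℕ) / 2) * exp y / ρ = (y + y ^ (2 : ℕ) / 2) / (ρ * exp (-y)) := by
      rw [div_eq_div_iff hρ.ne' hk0.ne']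
      linear_combination (y + y ^ (2 : ℕ) / 2) * ρ * e1
    rw [e3, e4]
    have hq := quadratic_le_exp_of_nonneg hy
    have hq0 : 0 ≤ y + y ^ (2 : ℕ) / 2 := by positivity
    set k := ρ * exp (-y) with hk
    set x := sx ρ y with hxd
    -- (k - x) ((e^y - 1) - q/(k x)) ≥ 0
    have f1 : (y + y ^ (2 : ℕ) / 2) / x - (y + y ^ (2 : ℕ) / 2) / k = (k - x) * ((y + y ^ (2 : ℕ) / 2) / (k * x)) := by
      field_simp
    have f2 : (y + y ^ (2 : ℕ) / 2) / (k * x) ≤ y + y ^ (2 : ℕ) / 2 := by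
      refine div_le_self hq0 ?_
      have : 1 ≤ k := by linarith only [hx, hxk]
      nlinarith only [hx, hxk]
    have f3 := mul_le_mul_of_nonneg_left (f2.trans (by linarith : y + y ^ (2 : ℕ) / 2 ≤ exp y - 1))
      (by linarith : 0 ≤ k - x)
    have f4 : (k - x) * (exp y - 1) = k * (exp y - 1) - x * (exp y - 1) := by ring
    linarith only [f1, f3]

/-- `y = -n ≤ 0` -/
theorem at_neg {r δ n η : ℝ} (h : At r δ (-n) η) (hn : 0 ≤ n) (hn1 : n ≤ 1)
    (hx : 1 ≤ sx (r * δ) (-n)) :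
    sx (r * δ) (-n) * exp (-n) ≤ r * δ ∧
      sx (r * δ) (-n) * (1 - exp (-n)) + (n - n ^ (2 : ℕ) / 2) / sx (r * δ) (-n) ≤ -η := by
  have hρ := h.dom.1
  set ρ := r * δ with hρd
  have e1 := exp_mul_neg n
  have hxk := sx_le h.dom
  rw [neg_neg] at hxk
  have hE := exp_pos n
  have hE' := exp_pos (-n)
  refine ⟨?_, ?_⟩
  · have := mul_le_mul_of_nonneg_right hxk hE'.le
    have e2 : ρ * exp n * exp (-n) = ρ * (exp n * exp (-n)) := by ring
    rw [e2, e1, mul_one] at this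
    exact this
  · have h2 := sE_le_neg h.dom hn hn1
    rw [h.eta] at h2
    refine le_trans ?_ h2
    have hk0 : 0 < ρ * exp n := by positivity
    have hx0 : 0 < sx ρ (-n) := by linarith only [hx]
    have e3 : ρ * (exp n - 1) = ρ * exp n * (1 - exp (-n)) := by
      linear_combination ρ * e1
    have e4 : (n - n ^ (2 : ℕ) / 2) * exp (-n) / ρ = (n - n ^ (2 : ℕ) / 2) / (ρ * exp n) := by
      rw [div_eq_div_iff hρ.ne' hk0.ne']
      linear_combination (n - n ^ (2 : ℕ) / 2) * ρ * e1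
    rw [e3, e4]
    have hq := one_sub_en hn hn1
    have hq0 : 0 ≤ n - n ^ (2 : ℕ) / 2 := by nlinarith only [hn, hn1]
    set k := ρ * exp n with hk
    set x := sx ρ (-n) with hxd
    have f1 : (n - n ^ (2 : ℕ) / 2) / x - (n - n ^ (2 : ℕ) / 2) / k = (k - x) * ((n - n ^ (2 : ℕ) / 2) / (k * x)) := by
      field_simp
    have f2 : (n - n ^ (2 : ℕ) / 2) / (k * x) ≤ n - n ^ (2 : ℕ) / 2 := by
      refine div_le_self hq0 ?_
      have : 1 ≤ k := by linarith only [hx, hxk]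
      nlinarith only [hx, this]
    have f3 := mul_le_mul_of_nonneg_left (f2.trans hq) (by linarith : 0 ≤ k - x)
    have f4 : (k - x) * (1 - exp (-n)) = k * (1 - exp (-n)) - x * (1 - exp (-n)) := by ring
    linarith only [f1, f3]

end SokamT2

end

/-! ### Lib_MP_af4de1_v3.T2Par -/

section
namespace SokamF1S
end SokamF1S
namespace SokamV3
end SokamV3
/-!
# `N = 2`, tails: the lumps with parameters, `x ≥ 112/25`, `c = 1/(1+x)` (helper63)
-/

set_option autoImplicit false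

namespace SokamT2

open Real Set SokamF1S SokamV3

theorem cx_of {x c : ℝ} (hc : c * (1 + x) = 1) : c * x = 1 - c := by linarith only [hc]

theorem c_pos {x c : ℝ} (hx : 112 / 25 ≤ x) (hc : c * (1 + x) = 1) : 0 < c := by
  by_contra h
  push Not at h
  have := mul_nonpos_of_nonpos_of_nonneg h (by linarith : 0 ≤ 1 + x)
  linarith only [hc, this]

theorem c_le {x c : ℝ} (hx : 112 / 25 ≤ x) (hc : c * (1 + x) = 1) : c ≤ 25 / 137 := by
  have := mul_le_mul_of_nonneg_left (by linarith : 137 / 25 ≤ 1 + x) (c_pos hx hc).le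
  linarith only [hc, this]

theorem ta_eq {x c : ℝ} (hx : 112 / 25 ≤ x) (hc : c * (1 + x) = 1) : ta x = 137 / 25 * c := by
  unfold ta ts
  rw [min_eq_left (by linarith only [hx]), ← eq_inv_of_mul_eq_one_left hc]
  ring

/-- `x ≥ (1-u)/u` -/
theorem x_ge {x c u : ℝ} (hx : 112 / 25 ≤ x) (hc : c * (1 + x) = 1) (hu : c ≤ u) : 1 - u ≤ u * x := by
  have := mul_le_mul_of_nonneg_right hu (by linarith : 0 ≤ 1 + x)
  linarith only [hc, this]

/-- `D ≤ δ₁ x` -/
theorem D_le {x D u δ1 B : ℝ} (hx : 0 < x) (hB : 0 ≤ B) (hD : D ^ (2 : ℕ) ≤ B + x ^ (2 : ℕ)) (hu0 : 0 < u)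
    (hu1 : u < 1) (hux : 1 - u ≤ u * x) (hδ : B * u ^ (2 : ℕ) ≤ (δ1 - 1) * (2 * (1 - u) ^ (2 : ℕ)))
    (hδ0 : 1 ≤ δ1) : D ≤ δ1 * x := by
  refine le_of_sq_le_sq ?_ (by positivity)
  have h1 : (1 - u) ^ (2 : ℕ) ≤ (u * x) ^ (2 : ℕ) := pow_le_pow_left₀ (by linarith only [hu1]) hux 2
  have h2 : 0 < u ^ (2 : ℕ) := by positivity
  have h3 : B * u ^ (2 : ℕ) ≤ (δ1 - 1) * 2 * (u * x) ^ (2 : ℕ) := by
    refine hδ.trans ?_
    have := mul_le_mul_of_nonneg_left h1 (by linarith : 0 ≤ (δ1 - 1) * 2)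
    linarith only [this]
  have h4 : B ≤ (δ1 - 1) * 2 * x ^ (2 : ℕ) := by
    have e : (δ1 - 1) * 2 * (u * x) ^ (2 : ℕ) = (δ1 - 1) * 2 * x ^ (2 : ℕ) * u ^ (2 : ℕ) := by ring
    rw [e] at h3
    exact le_of_mul_le_mul_right h3 h2
  have h5 : (δ1 * x) ^ (2 : ℕ) = x ^ (2 : ℕ) + (δ1 - 1) * 2 * x ^ (2 : ℕ) + (δ1 - 1) ^ (2 : ℕ) * x ^ (2 : ℕ) := by ring
  have h6 : 0 ≤ (δ1 - 1) ^ (2 : ℕ) * x ^ (2 : ℕ) := by positivity
  linarith only [hD, h4, h6]

/-- `μ ≥ κ x/e₁` on the side `ε = -1` -/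
theorem mu_m {x v κ e1 : ℝ} (hx : 0 < x) (hκ0 : 0 < κ) (hκ : 134 / 1000 * |v| ≤ (473 / 1000 - κ) * x)
    (he0 : 0 < e1) (he : exp (ta x) ≤ e1) : κ * x ≤ e1 * tμ (-1) x v := by
  unfold tμ
  have h1 : κ * x ≤ 473 / 1000 * x - 134 / 1000 * |v| := by linarith only [hκ]
  have h2 : 0 < κ * x := by positivity
  have h3 : 1 ≤ e1 * exp (-1 * ta x) := by
    rw [neg_one_mul, exp_neg]
    rw [← div_eq_mul_inv, le_div_iff₀ (exp_pos _)]
    linarith only [he]
  calc κ * x ≤ 473 / 1000 * x - 134 / 1000 * |v| := h1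
    _ ≤ e1 * exp (-1 * ta x) * (473 / 1000 * x - 134 / 1000 * |v|) :=
        le_mul_of_one_le_left (by linarith only [h1, h2]) h3
    _ = _ := by ring

/-- `μ ≥ κ x/em` on the side `ε = 1`, `e^(-a) ≤ em` -/
theorem mu_p {x v κ em : ℝ} (hx : 0 < x) (hκ0 : 0 < κ) (hκ : 134 / 1000 * |v| ≤ (473 / 1000 - κ) * x)
    (he0 : 0 < em) (he : exp (-ta x) ≤ em) : κ * x ≤ em * tμ 1 x v := by
  unfold tμ
  have h1 : κ * x ≤ 473 / 1000 * x - 134 / 1000 * |v| := by linarith only [hκ]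
  have h2 : 0 < κ * x := by positivity
  have h3 : 1 ≤ em * exp (1 * ta x) := by
    rw [one_mul]
    have e1 := exp_mul_neg (ta x)
    have := mul_le_mul_of_nonneg_right he (exp_pos (ta x)).le
    linarith only [e1, this]
  calc κ * x ≤ 473 / 1000 * x - 134 / 1000 * |v| := h1
    _ ≤ em * exp (1 * ta x) * (473 / 1000 * x - 134 / 1000 * |v|) :=
        le_mul_of_one_le_left (by linarith only [h1, h2]) h3
    _ = _ := by ring

/-- the bound of `n` -/
theorem n_le {x n c p u α β : ℝ} (hx : 112 / 25 ≤ x) (hc : c * (1 + x) = 1) (hu : c ≤ u)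
    (n1 : n ≤ 1 / 2) (con : x * (1 - exp (-n)) + (n - n ^ (2 : ℕ) / 2) / x ≤ p)
    (hα : 0 ≤ α) (hβ : 0 ≤ β) (htu : u * (α + β * u) ≤ 3 / 5)
    (hN : p ≤ (1 - c) * (α + β * c) * (1 - c * (α + β * c) / 2 + (c * (α + β * c)) ^ (2 : ℕ) * (17 / 120)) +
      3 / 4 * (c ^ (2 : ℕ) * (1 + c) * (α + β * c))) : n ≤ c * (α + β * c) := by
  have c0 := c_pos hx hc
  have c1 := c_le hx hc
  have hcx := cx_of hc
  by_contra hcon
  push Not at hcon
  obtain ⟨t, ht⟩ : ∃ t, t = c * (α + β * c) := ⟨_, rfl⟩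
  rw [← ht] at hcon
  have t0 : 0 ≤ t := by
    rw [ht]
    positivity
  have t1 : t ≤ 3 / 5 := by
    refine le_trans ?_ htu
    rw [ht]
    have h1 : α + β * c ≤ α + β * u := by
      have := mul_le_mul_of_nonneg_left hu hβ
      linarith only [this]
    exact mul_le_mul hu h1 (by positivity) (by linarith only [hu, c0])
  have h1 : exp (-n) < exp (-t) := exp_lt_exp.2 (by linarith only [hcon])
  have h2 := en_ub t0 (by linarith only [t1])
  have h3 : t ^ (4 : ℕ) ≤ 3 / 5 * t ^ (3 : ℕ) := by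
    have e : t ^ (4 : ℕ) = t * t ^ (3 : ℕ) := by ring
    rw [e]
    exact mul_le_mul_of_nonneg_right t1 (by positivity)
  have n0 : 0 < n := lt_of_le_of_lt t0 hcon
  have h4 := mul_le_mul_of_nonneg_left con c0.le
  have x0 : 0 < x := by linarith only [hx]
  have h5 : c ^ (2 : ℕ) * (1 + c) ≤ c / x := by
    rw [le_div_iff₀ x0]
    have e : c ^ (2 : ℕ) * (1 + c) * x = c * (1 - c ^ (2 : ℕ)) := by linear_combination (c * (1 + c)) * hcx
    rw [e]
    have : 0 ≤ c * c ^ (2 : ℕ) := by positivity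
    linarith only [this]
  have h6 : 3 / 4 * n ≤ n - n ^ (2 : ℕ) / 2 := by
    have := mul_le_mul_of_nonneg_left n1 n0.le
    linarith only [this]
  have h7 : 3 / 4 * t * (c ^ (2 : ℕ) * (1 + c)) < (n - n ^ (2 : ℕ) / 2) * (c / x) := by
    have a1 : 0 < c ^ (2 : ℕ) * (1 + c) := by positivity
    calc 3 / 4 * t * (c ^ (2 : ℕ) * (1 + c)) < 3 / 4 * n * (c ^ (2 : ℕ) * (1 + c)) :=
          mul_lt_mul_of_pos_right (by linarith only [hcon]) a1
      _ ≤ (n - n ^ (2 : ℕ) / 2) * (c / x) := mul_le_mul h6 h5 a1.le (by linarith only [n0, h6])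
  have h8 : c * (x * (1 - exp (-n)) + (n - n ^ (2 : ℕ) / 2) / x) =
      (1 - c) * (1 - exp (-n)) + (n - n ^ (2 : ℕ) / 2) * (c / x) := by
    linear_combination (1 - exp (-n)) * hcx
  rw [h8] at h4
  have h9 : (1 - c) * (t - t ^ (2 : ℕ) / 2 + 17 / 120 * t ^ (3 : ℕ)) ≤ (1 - c) * (1 - exp (-n)) :=
    mul_le_mul_of_nonneg_left (by linarith only [h1, h2, h3]) (by linarith only [c1])
  have h10 := mul_le_mul_of_nonneg_left hN c0.le
  have h11 : c * ((1 - c) * (α + β * c) * (1 - c * (α + β * c) / 2 +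
      (c * (α + β * c)) ^ (2 : ℕ) * (17 / 120)) + 3 / 4 * (c ^ (2 : ℕ) * (1 + c) * (α + β * c))) =
      (1 - c) * (t - t ^ (2 : ℕ) / 2 + 17 / 120 * t ^ (3 : ℕ)) + 3 / 4 * t * (c ^ (2 : ℕ) * (1 + c)) := by
    rw [ht]
    ring
  rw [h11] at h10
  linarith only [h4, h7, h9, h10]

/-- the bound of `y` -/
theorem y_le {x y c p u α β : ℝ} (hx : 112 / 25 ≤ x) (hc : c * (1 + x) = 1) (y0 : 0 ≤ y)
    (con : x * (exp y - 1) + (y + y ^ (2 : ℕ) / 2) / x ≤ p) (hα : 0 ≤ α) (hβ : 0 ≤ β) (hu : c ≤ u)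
    (hN : p ≤ (1 - c) * (α + β * c) * (1 + c * (α + β * c) / 2 + (c * (α + β * c)) ^ (2 : ℕ) / 6) +
      c ^ (2 : ℕ) * (1 + c) * (α + β * c)) : y ≤ c * (α + β * c) := by
  have c0 := c_pos hx hc
  have c1 := c_le hx hc
  have hcx := cx_of hc
  by_contra hcon
  push Not at hcon
  obtain ⟨t, ht⟩ : ∃ t, t = c * (α + β * c) := ⟨_, rfl⟩
  rw [← ht] at hcon
  have t0 : 0 ≤ t := by
    rw [ht]
    positivity
  have h1 : exp t < exp y := exp_lt_exp.2 hcon
  have h2 := ep_lb t0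
  have h4 := mul_le_mul_of_nonneg_left con c0.le
  have x0 : 0 < x := by linarith only [hx]
  have h5 : c ^ (2 : ℕ) * (1 + c) ≤ c / x := by
    rw [le_div_iff₀ x0]
    have e : c ^ (2 : ℕ) * (1 + c) * x = c * (1 - c ^ (2 : ℕ)) := by linear_combination (c * (1 + c)) * hcx
    rw [e]
    have : 0 ≤ c * c ^ (2 : ℕ) := by positivity
    linarith only [this]
  have h7 : t * (c ^ (2 : ℕ) * (1 + c)) < (y + y ^ (2 : ℕ) / 2) * (c / x) := by
    have a1 : 0 < c ^ (2 : ℕ) * (1 + c) := by positivity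
    calc t * (c ^ (2 : ℕ) * (1 + c)) < y * (c ^ (2 : ℕ) * (1 + c)) := mul_lt_mul_of_pos_right hcon a1
      _ ≤ (y + y ^ (2 : ℕ) / 2) * (c / x) :=
          mul_le_mul (by linarith only [sq_nonneg y]) h5 a1.le (by positivity)
  have h8 : c * (x * (exp y - 1) + (y + y ^ (2 : ℕ) / 2) / x) =
      (1 - c) * (exp y - 1) + (y + y ^ (2 : ℕ) / 2) * (c / x) := by
    linear_combination (exp y - 1) * hcx
  rw [h8] at h4
  have h9 : (1 - c) * (t + t ^ (2 : ℕ) / 2 + t ^ (3 : ℕ) / 6) ≤ (1 - c) * (exp y - 1) :=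
    mul_le_mul_of_nonneg_left (by linarith only [h1, h2]) (by linarith only [c1])
  have h10 := mul_le_mul_of_nonneg_left hN c0.le
  have h11 : c * ((1 - c) * (α + β * c) * (1 + c * (α + β * c) / 2 +
      (c * (α + β * c)) ^ (2 : ℕ) / 6) + c ^ (2 : ℕ) * (1 + c) * (α + β * c)) =
      (1 - c) * (t + t ^ (2 : ℕ) / 2 + t ^ (3 : ℕ) / 6) + t * (c ^ (2 : ℕ) * (1 + c)) := by
    rw [ht]
    ring
  rw [h11] at h10
  linarith only [h4, h7, h9, h10]

/-- `x (e^(-a) - 1 + a)`, `a = 137/25 c` -/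
theorem X_m {x c : ℝ} (hx : 112 / 25 ≤ x) (hc : c * (1 + x) = 1) :
    x * (exp (-(137 / 25 * c)) - 1 + 137 / 25 * c) ≤
      c * ((1 - c) * (150152 / 10000 - 274277 / 10000 * c + 37577 / 1000 * c ^ (2 : ℕ))) := by
  have c0 := c_pos hx hc
  have c1 := c_le hx hc
  have hcx := cx_of hc
  have h1 := en_ub (a := 137 / 25 * c) (by positivity) (by linarith only [c1])
  have h2 : x * (exp (-(137 / 25 * c)) - 1 + 137 / 25 * c) ≤ x * ((137 / 25 * c) ^ (2 : ℕ) / 2 -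
      (137 / 25 * c) ^ (3 : ℕ) / 6 + (137 / 25 * c) ^ (4 : ℕ) / 24) :=
    mul_le_mul_of_nonneg_left (by linarith only [h1]) (by linarith only [hx])
  have h3 : x * ((137 / 25 * c) ^ (2 : ℕ) / 2 - (137 / 25 * c) ^ (3 : ℕ) / 6 + (137 / 25 * c) ^ (4 : ℕ) / 24) =
      c * ((1 - c) * ((137 / 25) ^ (2 : ℕ) / 2 - (137 / 25) ^ (3 : ℕ) / 6 * c + (137 / 25) ^ (4 : ℕ) / 24 * c ^ (2 : ℕ))) := by
    linear_combination (c * ((137 / 25) ^ (2 : ℕ) / 2 - (137 / 25) ^ (3 : ℕ) / 6 * c + (137 / 25) ^ (4 : ℕ) / 24 * c ^ (2 : ℕ))) * hcx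
  rw [h3] at h2
  refine h2.trans (mul_le_mul_of_nonneg_left (mul_le_mul_of_nonneg_left ?_ (by linarith only [c1])) c0.le)
  have h4 : 0 ≤ c ^ (2 : ℕ) := by positivity
  norm_num
  linarith only [c0, h4]

/-- `x (e^a - 1 - a)`, `a = 137/25 c` -/
theorem X_p {x c : ℝ} (hx : 112 / 25 ≤ x) (hc : c * (1 + x) = 1) :
    x * (exp (137 / 25 * c) - 1 - 137 / 25 * c) ≤
      c * ((1 - c) * (150152 / 10000 + 274278 / 10000 * c + 37577 / 1000 * c ^ (2 : ℕ) +
        49421 / 1000 * c ^ (3 : ℕ))) := by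
  have c0 := c_pos hx hc
  have c1 := c_le hx hc
  have hcx := cx_of hc
  have h1 := ep_ub (a := 137 / 25 * c) (by positivity) (by linarith only [c1])
  have h2 : x * (exp (137 / 25 * c) - 1 - 137 / 25 * c) ≤ x * ((137 / 25 * c) ^ (2 : ℕ) / 2 +
      (137 / 25 * c) ^ (3 : ℕ) / 6 + (137 / 25 * c) ^ (4 : ℕ) / 24 + (137 / 25 * c) ^ (5 : ℕ) / 100) :=
    mul_le_mul_of_nonneg_left (by linarith only [h1]) (by linarith only [hx])
  have h3 : x * ((137 / 25 * c) ^ (2 : ℕ) / 2 + (137 / 25 * c) ^ (3 : ℕ) / 6 + (137 / 25 * c) ^ (4 : ℕ) / 24 +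
      (137 / 25 * c) ^ (5 : ℕ) / 100) =
      c * ((1 - c) * ((137 / 25) ^ (2 : ℕ) / 2 + (137 / 25) ^ (3 : ℕ) / 6 * c + (137 / 25) ^ (4 : ℕ) / 24 * c ^ (2 : ℕ) +
        (137 / 25) ^ (5 : ℕ) / 100 * c ^ (3 : ℕ))) := by
    linear_combination (c * ((137 / 25) ^ (2 : ℕ) / 2 + (137 / 25) ^ (3 : ℕ) / 6 * c +
      (137 / 25) ^ (4 : ℕ) / 24 * c ^ (2 : ℕ) + (137 / 25) ^ (5 : ℕ) / 100 * c ^ (3 : ℕ))) * hcx
  rw [h3] at h2
  refine h2.trans (mul_le_mul_of_nonneg_left (mul_le_mul_of_nonneg_left ?_ (by linarith only [c1])) c0.le)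
  have h4 : 0 ≤ c ^ (2 : ℕ) := by positivity
  have h5 : 0 ≤ c ^ (3 : ℕ) := by positivity
  norm_num
  linarith only [c0, h4, h5]

end SokamT2

end

/-! ### Lib_MP_af4de1_v3.T2Lum -/

section
namespace SokamF1S
end SokamF1S
namespace SokamV3
end SokamV3
/-!
# `N = 2`, tails: the four lumps for `x ≥ 112/25` with parameters (helper63)
-/

set_option autoImplicit false

namespace SokamT2

open Real Set SokamF1S SokamV3

/-- common end of the proofs: the term `θ m²/μ` -/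
theorem sq_le_of {a m B κ x e1 μ θ s c u : ℝ} (hκ : 0 < κ) (hx : 0 < x) (hμ0 : 0 < μ) (he0 : 0 < e1)
    (hμ : κ * x ≤ e1 * μ) (hm : m ^ (2 : ℕ) ≤ B * a ^ (2 : ℕ)) (ha : a = 137 / 25 * c) (c0 : 0 < c)
    (hcx : c * x = 1 - c) (hu : c ≤ u) (hu1 : u < 1) (hθ : 0 ≤ θ) (hB : 0 ≤ B)
    (hs : θ * (B * (18769 / 625)) * e1 ≤ s * (κ * (1 - u))) :
    θ * m ^ (2 : ℕ) / μ ≤ c * (s * c ^ (2 : ℕ)) := by
  have h1 : θ * m ^ (2 : ℕ) / μ ≤ θ * (B * a ^ (2 : ℕ)) * e1 / (κ * x) := by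
    rw [div_le_div_iff₀ hμ0 (by positivity)]
    have a1 : θ * m ^ (2 : ℕ) ≤ θ * (B * a ^ (2 : ℕ)) := mul_le_mul_of_nonneg_left hm hθ
    calc θ * m ^ (2 : ℕ) * (κ * x) ≤ θ * (B * a ^ (2 : ℕ)) * (e1 * μ) :=
          mul_le_mul a1 hμ (by (clear * - hκ hx; positivity)) (by (clear * - hθ hB; positivity))
      _ = _ := by ring
  refine h1.trans ?_
  rw [div_le_iff₀ (by (clear * - hκ hx; positivity))]
  have h2 : c * (s * c ^ (2 : ℕ)) * (κ * x) = c ^ (2 : ℕ) * (s * (κ * (1 - c))) := by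
    linear_combination (c ^ (2 : ℕ) * s * κ) * hcx
  have h3 : θ * (B * a ^ (2 : ℕ)) * e1 = c ^ (2 : ℕ) * (θ * (B * (18769 / 625)) * e1) := by
    rw [ha]
    ring
  rw [h2, h3]
  refine mul_le_mul_of_nonneg_left (hs.trans ?_) (sq_nonneg c)
  have hs0 : 0 ≤ s := by
    by_contra h
    push Not at h
    have a1 : s * (κ * (1 - u)) < 0 := mul_neg_of_neg_of_pos h (mul_pos hκ (by linarith))
    have a2 : 0 ≤ θ * (B * (18769 / 625)) * e1 := by (clear * - hθ hB he0; positivity)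
    linarith
  have a3 : κ * (1 - u) ≤ κ * (1 - c) := mul_le_mul_of_nonneg_left (by linarith) hκ.le
  exact mul_le_mul_of_nonneg_left a3 hs0

/-- dangerous lump, `y = -n ≤ 0`, `ε = -1` -/
theorem lumpN {x n w D p u α β κ M θ d s e1 δ1 C E F c : ℝ} (hx : 112 / 25 ≤ x)
    (hc : c * (1 + x) = 1) (hu : c ≤ u) (hu1 : u < 1) (n0 : 0 ≤ n) (n1 : n ≤ 1 / 2) (hD0 : 0 < D)
    (hD : D ^ (2 : ℕ) ≤ 1 + x ^ (2 : ℕ)) (con : x * (1 - exp (-n)) + (n - n ^ (2 : ℕ) / 2) / x ≤ p) (hw : 0 < w)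
    (hwx : 4632 / 100 ≤ w * x) (hα : 0 ≤ α) (hβ : 0 ≤ β) (hab : α + β * u ≤ 137 / 25)
    (htu : u * (α + β * u) ≤ 3 / 5) (hκ0 : 0 < κ)
    (hκ : 134 / 1000 * (u * (α + β * u)) * u ≤ (473 / 1000 - κ) * (1 - u))
    (he0 : 0 < e1) (he : exp (137 / 25 * c) ≤ e1) (hθ0 : 0 ≤ θ)
    (hs : θ * (1 * (18769 / 625)) * e1 ≤ s * (κ * (1 - u))) (hM1 : 1 < M)
    (hM : M * e1 ≤ 4632 / 100 * κ) (hθ : M ≤ 4 * θ * (M - 1)) (hδ0 : 1 ≤ δ1)
    (hδ : 1 * u ^ (2 : ℕ) ≤ (δ1 - 1) * (2 * (1 - u) ^ (2 : ℕ))) (hd : e1 * δ1 ≤ d * κ)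
    (hC : d * M ≤ 2 * C ^ (2 : ℕ) * (M - 1)) (hC0 : 0 ≤ C) (hF : C * exp (-E) ≤ F)
    (hN : p ≤ (1 - c) * (α + β * c) * (1 - c * (α + β * c) / 2 + (c * (α + β * c)) ^ (2 : ℕ) * (17 / 120)) +
      3 / 4 * (c ^ (2 : ℕ) * (1 + c) * (α + β * c)))
    (hE : E ≤ w * (c * (6283 / 1000 * (137 / 25 - (α + β * c)) -
      (1 - c) * (150152 / 10000 - 274277 / 10000 * c + 37577 / 1000 * c ^ (2 : ℕ)) - s * c ^ (2 : ℕ)))) :
    tP (-1) x n w ≤ F * √(2 * π / (w * D)) := by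
  have c0 := c_pos hx hc
  have c1 := c_le hx hc
  have hcx := cx_of hc
  have hta := ta_eq hx hc
  have x0 : 0 < x := by linarith
  have u0 : 0 < u := by linarith
  have hnt := n_le hx hc hu n1 con hα hβ htu hN
  have hux := x_ge hx hc hu
  have hab' : α + β * c ≤ α + β * u := by
    have := mul_le_mul_of_nonneg_left hu hβ
    linarith
  obtain ⟨a, ha⟩ : ∃ a, a = 137 / 25 * c := ⟨_, rfl⟩
  have a0 : 0 < a := by rw [ha]; (clear * - c0; positivity)
  have a1 : a ≤ 1 := by rw [ha]; linarith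
  have hna : n ≤ a := by
    refine hnt.trans ?_
    rw [ha]
    have := mul_le_mul_of_nonneg_left (hab'.trans hab) c0.le
    linarith
  have hEa := exp_pos (-a)
  have hEa1 : exp (-a) ≤ 1 := exp_le_one_iff.2 (by linarith)
  have hkap : 134 / 1000 * |n| ≤ (473 / 1000 - κ) * x := by
    rw [abs_of_nonneg n0]
    have b1 : n ≤ u * (α + β * u) := hnt.trans (mul_le_mul hu hab' (by (clear * - hα hβ c0; positivity)) u0.le)
    have b2 : 0 ≤ 473 / 1000 - κ := by
      by_contra h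
      push Not at h
      have b3 : (473 / 1000 - κ) * (1 - u) < 0 := mul_neg_of_neg_of_pos h (by linarith)
      have b4 : 0 ≤ 134 / 1000 * (u * (α + β * u)) * u := by
        have : 0 ≤ α + β * u := by (clear * - hα hβ u0; positivity)
        (clear * - u0 hα hβ; positivity)
      linarith
    have b5 : 134 / 1000 * n * u ≤ (473 / 1000 - κ) * x * u := by
      calc 134 / 1000 * n * u ≤ 134 / 1000 * (u * (α + β * u)) * u :=
            mul_le_mul_of_nonneg_right (by linarith) u0.le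
        _ ≤ (473 / 1000 - κ) * (1 - u) := hκ
        _ ≤ (473 / 1000 - κ) * (u * x) := mul_le_mul_of_nonneg_left hux b2
        _ = _ := by ring
    exact le_of_mul_le_mul_right b5 u0
  have hmu := mu_m (v := n) x0 hκ0 hkap he0 (by rw [hta]; exact he)
  have hκx : 0 < κ * x := by (clear * - hκ0 hx; positivity)
  have hμ0 : 0 < tμ (-1) x n := by
    by_contra h
    push Not at h
    have := mul_nonpos_of_nonneg_of_nonpos he0.le h
    linarith
  refine tP_le hw hD0 hM1 hμ0 ?_ hθ ?_ hC hC0 (E := E) ?_ hF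
  · have b1 := mul_le_mul_of_nonneg_left hmu hw.le
    have b2 := mul_le_mul_of_nonneg_right hwx hκ0.le
    have b3 : M * e1 ≤ w * tμ (-1) x n * e1 := by
      calc M * e1 ≤ 4632 / 100 * κ := hM
        _ ≤ w * x * κ := b2
        _ = w * (κ * x) := by ring
        _ ≤ w * (e1 * tμ (-1) x n) := b1
        _ = _ := by ring
    exact le_of_mul_le_mul_right b3 he0
  · have b1 := D_le x0 zero_le_one hD u0 hu1 hux hδ hδ0
    have d0 : 0 ≤ d := by
      by_contra h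
      push Not at h
      have b2 := mul_neg_of_neg_of_pos h hκ0
      have b3 : 0 < e1 * δ1 := by (clear * - he0 hδ0; positivity)
      linarith
    have b2 : e1 * D ≤ e1 * (d * tμ (-1) x n) := by
      calc e1 * D ≤ e1 * (δ1 * x) := mul_le_mul_of_nonneg_left b1 he0.le
        _ = e1 * δ1 * x := by ring
        _ ≤ d * κ * x := mul_le_mul_of_nonneg_right hd x0.le
        _ = d * (κ * x) := by ring
        _ ≤ d * (e1 * tμ (-1) x n) := mul_le_mul_of_nonneg_left hmu d0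
        _ = _ := by ring
    exact le_of_mul_le_mul_left b2 he0
  · refine hE.trans (mul_le_mul_of_nonneg_left ?_ hw.le)
    have hm : tm (-1) x n ^ (2 : ℕ) ≤ 1 * a ^ (2 : ℕ) := by
      unfold tm
      rw [hta, ← ha, neg_one_mul, one_mul]
      have b1 : 0 ≤ exp (-a) * n := by (clear * - n0; positivity)
      have b2 : exp (-a) * n ≤ 1 * n := mul_le_mul_of_nonneg_right hEa1 n0
      exact pow_le_pow_left₀ (by linarith) (by linarith) 2
    have b3 := sq_le_of hκ0 x0 hμ0 he0 hmu hm ha c0 hcx hu hu1 hθ0 zero_le_one hs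
    have b4 := X_m hx hc
    have b5 : 6283 / 1000 * (c * (137 / 25 - (α + β * c))) ≤ 2 * π * (a - n) := by
      have hpi := pi_gt_d4
      have b6 : c * (137 / 25 - (α + β * c)) ≤ a - n := by
        rw [ha]
        linarith
      exact mul_le_mul (by linarith) b6
        (mul_nonneg c0.le (by linarith)) (by linarith)
    unfold tH
    rw [hta, neg_one_mul, ← ha]
    rw [← ha] at b4
    have b7 : x * (exp (-a) - 1 - -a) = x * (exp (-a) - 1 + a) := by ring
    rw [b7]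
    linarith

/-- dangerous lump, `y ≥ 0`, `ε = 1` -/
theorem lumpP {x y w D p u α β κ d s em e2 δ1 C E F c : ℝ} (hx : 112 / 25 ≤ x)
    (hc : c * (1 + x) = 1) (hu : c ≤ u) (hu1 : u < 1) (y0 : 0 ≤ y) (hD0 : 0 < D)
    (hD : D ^ (2 : ℕ) ≤ (1 + y) ^ (2 : ℕ) + x ^ (2 : ℕ)) (con : x * (exp y - 1) + (y + y ^ (2 : ℕ) / 2) / x ≤ p) (hw : 0 < w)
    (hwx : 34 ≤ w * x) (hα : 0 ≤ α) (hβ : 0 ≤ β) (hab : (α + β * u) * (e2 + 1) ≤ 137 / 25)
    (hκ0 : 0 < κ) (hκ : 134 / 1000 * (u * (α + β * u)) * u ≤ (473 / 1000 - κ) * (1 - u))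
    (hM : 15 ≤ 34 * κ) (he2 : exp (137 / 50 * c) ≤ e2) (he0 : 0 < em) (hem1 : em ≤ 1)
    (he : exp (-(137 / 25 * c)) ≤ em)
    (hs : 2679 / 10000 * (1 * (18769 / 625)) * 1 ≤ s * (κ * (1 - u))) (hδ0 : 1 ≤ δ1)
    (hδ : (1 + u * (α + β * u)) ^ (2 : ℕ) * u ^ (2 : ℕ) ≤ (δ1 - 1) * (2 * (1 - u) ^ (2 : ℕ))) (hd : em * δ1 ≤ d * κ)
    (hC : d * 15 ≤ 2 * C ^ (2 : ℕ) * (15 - 1)) (hC0 : 0 ≤ C) (hF : C * exp (-E) ≤ F)
    (hN : p ≤ (1 - c) * (α + β * c) * (1 + c * (α + β * c) / 2 + (c * (α + β * c)) ^ (2 : ℕ) / 6) +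
      c ^ (2 : ℕ) * (1 + c) * (α + β * c))
    (hE : y ≤ c * (α + β * c) → E ≤ w * (6283 / 1000 * (137 / 25 * c - y) -
      c * ((1 - c) * (150152 / 10000 + 274278 / 10000 * c + 37577 / 1000 * c ^ (2 : ℕ) +
        49421 / 1000 * c ^ (3 : ℕ))) - c * (s * c ^ (2 : ℕ)))) :
    tP 1 x y w ≤ F * √(2 * π / (w * D)) := by
  have c0 := c_pos hx hc
  have c1 := c_le hx hc
  have hcx := cx_of hc
  have hta := ta_eq hx hc
  have x0 : 0 < x := by linarith
  have u0 : 0 < u := by linarith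
  have hyt := y_le hx hc y0 con hα hβ hu hN
  have hux := x_ge hx hc hu
  have hab' : α + β * c ≤ α + β * u := by
    have := mul_le_mul_of_nonneg_left hu hβ
    linarith
  have hau : 0 ≤ α + β * u := by (clear * - hα hβ u0; positivity)
  obtain ⟨a, ha⟩ : ∃ a, a = 137 / 25 * c := ⟨_, rfl⟩
  have a0 : 0 < a := by rw [ha]; (clear * - c0; positivity)
  have a1 : a ≤ 1 := by rw [ha]; linarith
  have hyu : y ≤ u * (α + β * u) := hyt.trans (mul_le_mul hu hab' (by (clear * - hα hβ c0; positivity)) u0.le)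
  have hkap : 134 / 1000 * |y| ≤ (473 / 1000 - κ) * x := by
    rw [abs_of_nonneg y0]
    have b2 : 0 ≤ 473 / 1000 - κ := by
      by_contra h
      push Not at h
      have b3 : (473 / 1000 - κ) * (1 - u) < 0 := mul_neg_of_neg_of_pos h (by linarith)
      have b4 : 0 ≤ 134 / 1000 * (u * (α + β * u)) * u := by (clear * - u0 hα hβ; positivity)
      linarith
    have b5 : 134 / 1000 * y * u ≤ (473 / 1000 - κ) * x * u := by
      calc 134 / 1000 * y * u ≤ 134 / 1000 * (u * (α + β * u)) * u :=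
            mul_le_mul_of_nonneg_right (by linarith) u0.le
        _ ≤ (473 / 1000 - κ) * (1 - u) := hκ
        _ ≤ (473 / 1000 - κ) * (u * x) := mul_le_mul_of_nonneg_left hux b2
        _ = _ := by ring
    exact le_of_mul_le_mul_right b5 u0
  have hmu := mu_p (v := y) x0 hκ0 hkap he0 (by rw [hta]; exact he)
  have hκx : 0 < κ * x := by (clear * - hκ0 hx; positivity)
  have hμ0 : 0 < tμ 1 x y := by
    by_contra h
    push Not at h
    have := mul_nonpos_of_nonneg_of_nonpos he0.le h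
    linarith
  have hmu1 : κ * x ≤ 1 * tμ 1 x y := hmu.trans (mul_le_mul_of_nonneg_right hem1 hμ0.le)
  refine tP_le hw hD0 (M := 15) (θ := 2679 / 10000) (by norm_num) hμ0 ?_ (by norm_num) ?_ hC hC0
    (E := E) ?_ hF
  · have b1 := mul_le_mul_of_nonneg_left hmu1 hw.le
    have b2 := mul_le_mul_of_nonneg_right hwx hκ0.le
    linarith
  · have b1 := D_le x0 (sq_nonneg (1 + y)) hD u0 hu1 hux
      (by
        refine le_trans ?_ hδ
        exact mul_le_mul_of_nonneg_right (pow_le_pow_left₀ (by linarith) (by linarith) 2) (sq_nonneg u))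
      hδ0
    have d0 : 0 ≤ d := by
      by_contra h
      push Not at h
      have b2 := mul_neg_of_neg_of_pos h hκ0
      have b3 : 0 < em * δ1 := by (clear * - he0 hδ0; positivity)
      linarith
    have b2 : em * D ≤ em * (d * tμ 1 x y) := by
      calc em * D ≤ em * (δ1 * x) := mul_le_mul_of_nonneg_left b1 he0.le
        _ = em * δ1 * x := by ring
        _ ≤ d * κ * x := mul_le_mul_of_nonneg_right hd x0.le
        _ = d * (κ * x) := by ring
        _ ≤ d * (em * tμ 1 x y) := mul_le_mul_of_nonneg_left hmu d0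
        _ = _ := by ring
    exact le_of_mul_le_mul_left b2 he0
  · refine (hE hyt).trans (mul_le_mul_of_nonneg_left ?_ hw.le)
    -- `m² ≤ a² e^a`
    have hm2 : tm 1 x y ^ (2 : ℕ) ≤ a ^ (2 : ℕ) * exp a := by
      unfold tm
      rw [hta, ← ha, one_mul]
      obtain ⟨g, hg⟩ : ∃ g, g = exp (a / 2) := ⟨_, rfl⟩
      have hg2 : exp a = g ^ (2 : ℕ) := by
        rw [hg, ← exp_nat_mul]
        congr 1
        push_cast
        ring
      have hg1 : 1 ≤ g := by
        rw [hg]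
        exact one_le_exp (by (clear * - a0; positivity))
      have hge : g ≤ e2 := by
        rw [hg, ha]
        refine le_trans (le_of_eq ?_) he2
        congr 1
        ring
      have b1 : y * (g + 1) ≤ a := by
        have b2 : y * (g + 1) ≤ c * (α + β * u) * (e2 + 1) :=
          mul_le_mul (hyt.trans (mul_le_mul_of_nonneg_left hab' c0.le)) (by linarith) (by linarith)
            (by (clear * - c0 hα hβ u0; positivity))
        have b3 := mul_le_mul_of_nonneg_left hab c0.le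
        rw [ha]
        linarith
      have b4 : a - y + exp a * y ≤ a * g := by
        rw [hg2]
        have := mul_le_mul_of_nonneg_right b1 (by linarith : 0 ≤ g - 1)
        linarith
      have b5 : 0 ≤ a - y + exp a * y := by
        have : 1 ≤ exp a := one_le_exp a0.le
        have := mul_le_mul_of_nonneg_right this y0
        linarith
      have b6 := pow_le_pow_left₀ b5 b4 2
      rw [hg2] at b6 ⊢
      linarith
    have b3 : 2679 / 10000 * tm 1 x y ^ (2 : ℕ) / tμ 1 x y ≤ c * (s * c ^ (2 : ℕ)) := by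
      -- μ ≥ κ x e^a
      have hmu2 : κ * x * exp a ≤ tμ 1 x y := by
        unfold tμ
        rw [hta, ← ha, one_mul, mul_comm]
        exact mul_le_mul_of_nonneg_left (by linarith) (exp_pos a).le
      have hEa := exp_pos a
      have b4 : 2679 / 10000 * tm 1 x y ^ (2 : ℕ) / tμ 1 x y ≤
          2679 / 10000 * (a ^ (2 : ℕ) * exp a) / (κ * x * exp a) := by
        refine div_le_div₀ (by (clear * - a0; positivity)) (mul_le_mul_of_nonneg_left hm2 (by norm_num)) (by positivity) hmu2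
      have b5 : 2679 / 10000 * (a ^ (2 : ℕ) * exp a) / (κ * x * exp a) =
          2679 / 10000 * a ^ (2 : ℕ) / (κ * x) := by
        field_simp
      rw [b5] at b4
      refine b4.trans ?_
      exact sq_le_of (m := a) (B := 1) (e1 := 1) hκ0 x0 hκx one_pos (by linarith) (by linarith) ha c0
        hcx hu hu1 (by norm_num) zero_le_one hs
    have b4 := X_p hx hc
    have b5 : 6283 / 1000 * (137 / 25 * c - y) ≤ 2 * π * (a - y) := by
      have hpi := pi_gt_d4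
      rw [← ha]
      have b6 : 0 ≤ a - y := by
        have b7 : (α + β * u) * 1 ≤ (α + β * u) * (e2 + 1) :=
          mul_le_mul_of_nonneg_left (by
            have := one_le_exp (show 0 ≤ 137 / 50 * c by (clear * - c0; positivity))
            linarith) hau
        have b8 := mul_le_mul_of_nonneg_left (hab'.trans (by linarith : α + β * u ≤ 137 / 25)) c0.le
        rw [ha]
        linarith
      exact mul_le_mul_of_nonneg_right (by linarith) b6
    unfold tH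
    rw [hta, one_mul, ← ha]
    rw [← ha] at b4
    linarith

/-- harmless lump, `y = -n ≤ 0`, `ε = 1` -/
theorem lumpNn {x n w D E F c : ℝ} (hx : 112 / 25 ≤ x) (hc : c * (1 + x) = 1) (n0 : 0 ≤ n)
    (n1 : n ≤ 1 / 2) (hnx : n ≤ 2 / 5 * x) (hD0 : 0 < D) (hD : D ^ (2 : ℕ) ≤ 1 + x ^ (2 : ℕ)) (hw : 0 < w)
    (hwx : 4632 / 100 ≤ w * x) (hF : 115 / 100 * exp (-E) ≤ F)
    (hE : E ≤ w * (6283 / 1000 * (137 / 25 * c + n) -
      c * ((1 - c) * (150152 / 10000 + 274278 / 10000 * c + 37577 / 1000 * c ^ (2 : ℕ) +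
        49421 / 1000 * c ^ (3 : ℕ))) - c * (2345 / 100 * c ^ (2 : ℕ)))) :
    tP 1 x (-n) w ≤ F * √(2 * π / (w * D)) := by
  have c0 := c_pos hx hc
  have c1 := c_le hx hc
  have hcx := cx_of hc
  have hta := ta_eq hx hc
  have x0 : 0 < x := by linarith
  obtain ⟨a, ha⟩ : ∃ a, a = 137 / 25 * c := ⟨_, rfl⟩
  have a0 : 0 < a := by rw [ha]; (clear * - c0; positivity)
  have a1 : a ≤ 1 := by rw [ha]; linarith
  have hkap : 134 / 1000 * |(-n)| ≤ (473 / 1000 - 42 / 100) * x := by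
    rw [abs_neg, abs_of_nonneg n0]
    linarith
  have hmu := mu_p (v := -n) (em := 1) x0 (by norm_num : (0 : ℝ) < 42 / 100) hkap one_pos
    (exp_le_one_iff.2 (by rw [hta]; linarith))
  have hμ0 : 0 < tμ 1 x (-n) := by linarith
  refine tP_le hw hD0 (M := 15) (θ := 2679 / 10000) (d := 2441 / 1000) (C := 115 / 100) (by norm_num) hμ0
    ?_ (by norm_num) ?_ (by norm_num) (by norm_num) (E := E) ?_ hF
  · have b1 := mul_le_mul_of_nonneg_left hmu hw.le
    linarith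
  · have b1 := D_le (u := 25 / 137) (δ1 := 1024928 / 1000000) x0 zero_le_one hD (by norm_num)
      (by norm_num) (x_ge hx hc c1) (by norm_num) (by norm_num)
    linarith
  · refine hE.trans (mul_le_mul_of_nonneg_left ?_ hw.le)
    have hm : tm 1 x (-n) ^ (2 : ℕ) ≤ 1 * a ^ (2 : ℕ) := by
      unfold tm
      rw [hta, ← ha, one_mul, one_mul]
      have b1 : exp a - 1 ≤ 2 * a := by
        have := ep_ub a0.le a1
        have g2 : a ^ (2 : ℕ) ≤ a := by
          rw [sq]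
          exact mul_le_of_le_one_left a0.le a1
        have g3 : a ^ (3 : ℕ) ≤ a := pow_le_of_le_one a0.le a1 (by norm_num)
        have g4 : a ^ (4 : ℕ) ≤ a := pow_le_of_le_one a0.le a1 (by norm_num)
        have g5 : a ^ (5 : ℕ) ≤ a := pow_le_of_le_one a0.le a1 (by norm_num)
        linarith
      have b2 : 0 ≤ (exp a - 1) * n := mul_nonneg (by linarith [one_le_exp a0.le]) n0
      have b3 : (exp a - 1) * n ≤ 2 * a * (1 / 2) := mul_le_mul b1 n1 n0 (by (clear * - a0; positivity))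
      refine sq_le_sq' ?_ ?_
      · linarith
      · linarith
    have b3 := sq_le_of (κ := 42 / 100) (s := 2345 / 100) (u := 25 / 137) (by norm_num) x0 hμ0 one_pos
      hmu hm ha c0 hcx c1 (by norm_num) (by norm_num : (0 : ℝ) ≤ 2679 / 10000) zero_le_one (by norm_num)
    have b4 := X_p hx hc
    have b5 : 6283 / 1000 * (137 / 25 * c + n) ≤ 2 * π * (a - -n) := by
      have hpi := pi_gt_d4
      rw [← ha, sub_neg_eq_add]
      exact mul_le_mul_of_nonneg_right (by linarith) (by (clear * - a0 n0; positivity))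
    unfold tH
    rw [hta, one_mul, ← ha]
    rw [← ha] at b4
    linarith

/-- harmless lump, `y ≥ 0`, `ε = -1` -/
theorem lumpPn {x y w D E F c : ℝ} (hx : 112 / 25 ≤ x) (hc : c * (1 + x) = 1) (y0 : 0 ≤ y)
    (y1 : y ≤ 376 / 1000) (hD0 : 0 < D) (hD : D ^ (2 : ℕ) ≤ (1 + y) ^ (2 : ℕ) + x ^ (2 : ℕ)) (hw : 0 < w)
    (hwx : 34 ≤ w * x) (hF : 2 * exp (-E) ≤ F)
    (hE : E ≤ w * (6283 / 1000 * (137 / 25 * c) -
      c * ((1 - c) * (150152 / 10000 - 274277 / 10000 * c + 37577 / 1000 * c ^ (2 : ℕ))) -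
      c * (126 * c ^ (2 : ℕ)))) :
    tP (-1) x (-y) w ≤ F * √(2 * π / (w * D)) := by
  have c0 := c_pos hx hc
  have c1 := c_le hx hc
  have hcx := cx_of hc
  have hta := ta_eq hx hc
  have x0 : 0 < x := by linarith
  obtain ⟨a, ha⟩ : ∃ a, a = 137 / 25 * c := ⟨_, rfl⟩
  have a0 : 0 < a := by rw [ha]; (clear * - c0; positivity)
  have a1 : a ≤ 1 := by rw [ha]; linarith
  have hkap : 134 / 1000 * |(-y)| ≤ (473 / 1000 - 46 / 100) * x := by
    rw [abs_neg, abs_of_nonneg y0]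
    linarith
  have hmu := mu_m (v := -y) (e1 := 27183 / 10000) x0 (by norm_num : (0 : ℝ) < 46 / 100) hkap
    (by norm_num) (by
      rw [hta, ← ha]
      have h1 := exp_le_exp.2 a1
      have h2 := exp_one_lt_d9
      linarith)
  have hμ0 : 0 < tμ (-1) x (-y) := by linarith
  refine tP_le hw hD0 (M := 57 / 10) (θ := 3032 / 10000) (d := 62 / 10) (C := 2) (by norm_num) hμ0
    ?_ (by norm_num) ?_ (by norm_num) (by norm_num) (E := E) ?_ hF
  · have b1 := mul_le_mul_of_nonneg_left hmu hw.le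
    linarith
  · have b1 := D_le (u := 25 / 137) (δ1 := 10472 / 10000) (B := (1 + 376 / 1000) ^ (2 : ℕ)) x0 (by norm_num)
      (hD.trans (by
        have := pow_le_pow_left₀ (by linarith : 0 ≤ 1 + y) (by linarith : 1 + y ≤ 1 + 376 / 1000) 2
        linarith)) (by norm_num)
      (by norm_num) (x_ge hx hc c1) (by norm_num) (by norm_num)
    linarith
  · refine hE.trans (mul_le_mul_of_nonneg_left ?_ hw.le)
    have hm : tm (-1) x (-y) ^ (2 : ℕ) ≤ 19 / 10 * a ^ (2 : ℕ) := by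
      unfold tm
      rw [hta, ← ha, neg_one_mul]
      have b1 : 1 - exp (-a) ≤ a := by
        have := add_one_le_exp (-a)
        linarith
      have b0 : 0 ≤ 1 - exp (-a) := by
        have := exp_le_one_iff.2 (by linarith : -a ≤ 0)
        linarith
      have b2 : (1 - exp (-a)) * y ≤ a * (376 / 1000) := mul_le_mul b1 y1 y0 a0.le
      have b3 : 0 ≤ (1 - exp (-a)) * y := mul_nonneg b0 y0
      have b4 := pow_le_pow_left₀ (by linarith : 0 ≤ a - -y + exp (-a) * -y)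
        (by linarith : a - -y + exp (-a) * -y ≤ a * (1376 / 1000)) 2
      refine b4.trans ?_
      have e : (a * (1376 / 1000)) ^ (2 : ℕ) = (1376 / 1000) ^ (2 : ℕ) * a ^ (2 : ℕ) := by ring
      rw [e]
      exact mul_le_mul_of_nonneg_right (by norm_num) (sq_nonneg a)
    have b3 := sq_le_of (κ := 46 / 100) (s := 126) (u := 25 / 137) (by norm_num) x0 hμ0
      (by norm_num : (0 : ℝ) < 27183 / 10000)
      hmu hm ha c0 hcx c1 (by norm_num) (by norm_num : (0 : ℝ) ≤ 3032 / 10000) (by norm_num) (by norm_num)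
    have b4 := X_m hx hc
    have b5 : 6283 / 1000 * (137 / 25 * c) ≤ 2 * π * (a - -y) := by
      have hpi := pi_gt_d4
      rw [← ha, sub_neg_eq_add]
      exact mul_le_mul (by linarith) (by linarith) (by (clear * - a0; positivity)) (by linarith)
    unfold tH
    rw [hta, neg_one_mul, ← ha]
    rw [← ha] at b4
    have b7 : x * (exp (-a) - 1 - -a) = x * (exp (-a) - 1 + a) := by ring
    rw [b7]
    linarith

end SokamT2

end
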