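import Pool.Agent.Lib_MP_af4de1_zy.Z24
import Pool.Agent.Lib_MP_af4de1_zy.Z152

/-! ### Lib_MP_af4de1_v3.T2Wt -/

section
namespace SokamF1
end SokamF1
namespace SokamF1B
end SokamF1B
namespace SokamF1G
end SokamF1G
namespace SokamF1M
end SokamF1M
namespace SokamF1S
end SokamF1S
namespace SokamPG
end SokamPG
namespace SokamU
end SokamU
/-!
# `N = 2` tails: weights and the height near the first lump
-/

set_option autoImplicit false

open Complex MeasureTheory Set SokamU SokamPG SokamF1 SokamF1S SokamF1M SokamF1G SokamF1B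

namespace SokamV3

theorem t2_e1 : Real.exp 1 ≤ 27183 / 10000 := by
  have := Real.exp_one_lt_d9
  norm_num at this ⊢
  linarith only [this]

theorem t2_chord {a : ℝ} (h0 : 0 ≤ a) (h1 : a ≤ 1) : Real.exp a ≤ 1 + 17183 / 10000 * a := by
  have h := convexOn_exp.2 (mem_univ (0 : ℝ)) (mem_univ (1 : ℝ)) (sub_nonneg.2 h1) h0
    (by ring : (1 - a) + a = 1)
  simp only [smul_eq_mul, mul_zero, zero_add, mul_one, Real.exp_zero] at h
  have h2 := mul_le_mul_of_nonneg_left t2_e1 h0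
  linarith only [h, h2]

/-- facts on `e^(ε a)` -/
theorem t2_E {ε a : ℝ} (hε : ε = 1 ∨ ε = -1) (h0 : 0 ≤ a) (h1 : a ≤ 1) :
    1 + ε * a ≤ Real.exp (ε * a) ∧ Real.exp (ε * a) ≤ 27183 / 10000 ∧
      Real.exp (ε * a) - 1 - ε * a ≤ 7183 / 10000 ∧ 0 ≤ 1 + ε * a := by
  refine ⟨by linarith only [Real.add_one_le_exp (ε * a)], ?_, ?_, ?_⟩
  · refine le_trans (Real.exp_le_exp.2 ?_) t2_e1
    rcases hε with rfl | rfl <;> linarith
  · rcases hε with rfl | rfl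
    · have := t2_chord h0 h1
      rw [one_mul]
      linarith only [h1, this]
    · have := en_le2 h0
      rw [neg_one_mul]
      nlinarith only [h0, h1, this]
  · rcases hε with rfl | rfl <;> linarith

theorem t2_gs_eq (u t : ℝ) : gs ((u : ℂ) + t * I) =
    ((Real.exp u * Real.cos t - 1 - u : ℝ) : ℂ) + ((Real.exp u * Real.sin t - t : ℝ) : ℂ) * I := by
  have e0 : (((u : ℂ) + t * I)).re = u := by simp
  have e1 : (((u : ℂ) + t * I)).im = t := by simp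
  unfold gs
  apply Complex.ext
  · rw [sub_re, sub_re, exp_re, e0, e1, add_re, ofReal_re, re_ofReal_mul, I_re, one_re]
    ring
  · rw [sub_im, sub_im, exp_im, e0, e1, add_im, ofReal_im, im_ofReal_mul, I_im, one_im]
    ring

theorem t2_gs_sq (u t : ℝ) : ‖gs ((u : ℂ) + t * I)‖ ^ (2 : ℕ) =
    (Real.exp u * Real.cos t - 1 - u) ^ (2 : ℕ) + (Real.exp u * Real.sin t - t) ^ (2 : ℕ) := by
  rw [t2_gs_eq, Complex.sq_norm, Complex.normSq_add_mul_I]

theorem t2_pi : (62831 / 10000 : ℝ) ≤ 2 * Real.pi ∧ 2 * Real.pi ≤ 62832 / 10000 := by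
  have h1 := Real.pi_gt_d6
  have h2 := Real.pi_lt_d6
  norm_num at h1 h2
  constructor <;> linarith

/-- sine near `0` -/
theorem t2_sin {φ : ℝ} : |Real.sin φ - φ| ≤ |φ| ^ (3 : ℕ) / 6 := by
  rcases le_total 0 φ with h | h
  · rw [abs_of_nonneg h, abs_le]
    have h1 := sin_ge3 h
    have h2 := sin_le1 h
    have h3 : 0 ≤ φ ^ (3 : ℕ) := by positivity
    constructor <;> linarith
  · have h1 := sin_ge3 (neg_nonneg.2 h)
    have h2 := sin_le1 (neg_nonneg.2 h)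
    rw [Real.sin_neg] at h1 h2
    rw [abs_of_nonpos h, abs_le]
    have h3 : 0 ≤ (-φ) ^ (3 : ℕ) := pow_nonneg (by linarith only [h]) 3
    constructor <;> linarith

theorem t2_cos {φ : ℝ} (h : |φ| ≤ 8035 / 10000) :
    473 / 1000 * φ ^ (2 : ℕ) ≤ 1 - Real.cos φ := by
  have h1 := cos_le4 (abs_nonneg φ)
  rw [Real.cos_abs, sq_abs] at h1
  have h2 : |φ| ^ (4 : ℕ) = (φ ^ (2 : ℕ)) ^ (2 : ℕ) := by rw [← sq_abs φ]; ring
  have h3 : φ ^ (2 : ℕ) ≤ 8035 ^ (2 : ℕ) / 10000 ^ (2 : ℕ) := by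
    rw [← sq_abs φ, ← div_pow]
    exact pow_le_pow_left₀ (abs_nonneg _) h 2
  rw [h2] at h1
  nlinarith only [h1, mul_nonneg (sq_nonneg φ) (sub_nonneg.2 h3)]

/-- The height near the first lump. -/
theorem t2_lump_H {ε x v a φ : ℝ} (hx : 0 ≤ x) (h : |φ| ≤ 8035 / 10000) :
    2 * Real.pi * (a - v) - x * (Real.exp (ε * a) - 1 - ε * a) +
      ((a - v + Real.exp (ε * a) * v) * φ +
        Real.exp (ε * a) * (473 / 1000 * x - 134 / 1000 * |v|) * φ ^ (2 : ℕ)) ≤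
      Hs ε x v a (2 * Real.pi + φ) := by
  have hE := (Real.exp_pos (ε * a)).le
  have h1 := mul_le_mul_of_nonneg_left (t2_cos h) hx
  have h2 := t2_sin (φ := φ)
  have h3 : |v * (Real.sin φ - φ)| ≤ |v| * (134 / 1000 * φ ^ (2 : ℕ)) := by
    rw [abs_mul]
    refine mul_le_mul_of_nonneg_left (h2.trans ?_) (abs_nonneg v)
    have h4 : |φ| ^ (3 : ℕ) = |φ| * φ ^ (2 : ℕ) := by rw [← sq_abs φ]; ring
    rw [h4]
    nlinarith only [mul_le_mul_of_nonneg_right h (sq_nonneg φ)]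
  have h5 := (abs_le.1 h3).1
  have h6 : Real.exp (ε * a) * (x * (473 / 1000 * φ ^ (2 : ℕ)) - |v| * (134 / 1000 * φ ^ (2 : ℕ))) ≤
      Real.exp (ε * a) * (x * (1 - Real.cos φ) + v * (Real.sin φ - φ)) :=
    mul_le_mul_of_nonneg_left (by linarith only [h1, h5]) hE
  have hc : Real.cos (2 * Real.pi + φ) = Real.cos φ := by
    rw [add_comm, Real.cos_add_two_pi]
  have hs : Real.sin (2 * Real.pi + φ) = Real.sin φ := by
    rw [add_comm, Real.sin_add_two_pi]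
  unfold Hs
  rw [hc, hs]
  linarith only [h6]

/-- one period further -/
theorem t2_per {ε x v a s : ℝ} :
    Hs ε x v a (s + 2 * Real.pi) = Hs ε x v a s + 2 * Real.pi * (a - v) := by
  unfold Hs
  rw [Real.cos_add_two_pi, Real.sin_add_two_pi]
  ring

/-- `|gs|²` near the first lump -/
theorem t2_lump_g {ε a φ : ℝ} (hε : ε = 1 ∨ ε = -1) (h0 : 0 ≤ a) (h1 : a ≤ 1)
    (hφ : |φ| ≤ 8035 / 10000) :
    ∃ J : ℝ, 0 ≤ J ∧ J ≤ 62832 / 10000 + 17183 / 10000 * |φ| ∧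
      (0 ≤ φ → J ≤ 62832 / 10000 + φ) ∧
      ‖gs (((ε * a : ℝ) : ℂ) + ((ε * (2 * Real.pi + φ) : ℝ) : ℂ) * I)‖ ^ (2 : ℕ) ≤
        5161 / 10000 + J ^ (2 : ℕ) := by
  obtain ⟨e1, e2, e3, e4⟩ := t2_E hε h0 h1
  obtain ⟨p1, p2⟩ := t2_pi
  have hE := Real.exp_pos (ε * a)
  have hφ2 : φ ^ (2 : ℕ) ≤ 8035 ^ (2 : ℕ) / 10000 ^ (2 : ℕ) := by
    rw [← sq_abs φ, ← div_pow]
    exact pow_le_pow_left₀ (abs_nonneg _) hφ 2
  have hc : Real.cos (ε * (2 * Real.pi + φ)) = Real.cos φ := by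
    rcases hε with rfl | rfl
    · rw [one_mul, add_comm, Real.cos_add_two_pi]
    · rw [neg_one_mul, Real.cos_neg, add_comm, Real.cos_add_two_pi]
  have hs : Real.sin (ε * (2 * Real.pi + φ)) = ε * Real.sin φ := by
    rcases hε with rfl | rfl
    · rw [one_mul, one_mul, add_comm, Real.sin_add_two_pi]
    · rw [neg_one_mul, neg_one_mul, Real.sin_neg, add_comm, Real.sin_add_two_pi]
  have hsq : ε ^ (2 : ℕ) = 1 := by rcases hε with rfl | rfl <;> norm_num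
  have hI : (Real.exp (ε * a) * (ε * Real.sin φ) - ε * (2 * Real.pi + φ)) ^ (2 : ℕ) =
      (2 * Real.pi + φ - Real.exp (ε * a) * Real.sin φ) ^ (2 : ℕ) := by
    linear_combination ((2 * Real.pi + φ - Real.exp (ε * a) * Real.sin φ) ^ (2 : ℕ)) * hsq
  -- the real part
  have hcos1 := Real.cos_le_one φ
  have hcos2 := Real.one_sub_sq_div_two_le_cos (x := φ)
  have hR1 : Real.exp (ε * a) * Real.cos φ - 1 - ε * a ≤ 7183 / 10000 := by
    nlinarith only [e3, hE, hcos1]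
  have hR2 : -(7183 / 10000) ≤ Real.exp (ε * a) * Real.cos φ - 1 - ε * a := by
    have hc0 : 0 ≤ Real.cos φ := by
      have : (8035 ^ (2 : ℕ) / 10000 ^ (2 : ℕ) : ℝ) ≤ 2 := by norm_num
      linarith only [hφ2, hcos2]
    have h2 : (1 + ε * a) * Real.cos φ ≤ Real.exp (ε * a) * Real.cos φ :=
      mul_le_mul_of_nonneg_right e1 hc0
    have h3 : 1 + ε * a ≤ 2 := by rcases hε with rfl | rfl <;> linarith
    have h4 : (1 + ε * a) * (1 - Real.cos φ) ≤ 2 * (1 - Real.cos φ) :=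
      mul_le_mul_of_nonneg_right h3 (by linarith only [hcos1])
    have : (8035 ^ (2 : ℕ) / 10000 ^ (2 : ℕ) : ℝ) ≤ 7183 / 10000 := by norm_num
    linarith only [hφ2, hcos2, h2, h4]
  have hR : (Real.exp (ε * a) * Real.cos φ - 1 - ε * a) ^ (2 : ℕ) ≤ 5161 / 10000 := by
    have : (7183 / 10000 : ℝ) ^ (2 : ℕ) ≤ 5161 / 10000 := by norm_num
    nlinarith only [hR1, hR2]
  -- the imaginary part
  rcases le_total 0 φ with h | h
  · have hs1 := sin_le1 h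
    have hs0 : 0 ≤ Real.sin φ := Real.sin_nonneg_of_nonneg_of_le_pi h (by
      rw [abs_of_nonneg h] at hφ
      have : (8035 / 10000 : ℝ) ≤ 3 := by norm_num
      linarith only [hφ, p1])
    have h2 : Real.exp (ε * a) * Real.sin φ ≤ 27183 / 10000 * φ :=
      mul_le_mul e2 hs1 hs0 (by norm_num)
    have h3 : 0 ≤ Real.exp (ε * a) * Real.sin φ := by (clear * - hs0; positivity)
    rw [abs_of_nonneg h] at hφ ⊢
    refine ⟨2 * Real.pi + φ - Real.exp (ε * a) * Real.sin φ, by linarith only [hφ, p1, h2], by linarith only [p2, h2, h3],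
      fun _ => by linarith only [p2, h3], ?_⟩
    rw [t2_gs_sq, hc, hs, hI]
    linarith only [hR]
  · have hs1 := sin_le1 (neg_nonneg.2 h)
    have hs0 : 0 ≤ Real.sin (-φ) := Real.sin_nonneg_of_nonneg_of_le_pi (neg_nonneg.2 h) (by
      rw [abs_of_nonpos h] at hφ
      have : (8035 / 10000 : ℝ) ≤ 3 := by norm_num
      linarith only [hφ, p1])
    have h2 : Real.exp (ε * a) * Real.sin (-φ) ≤ 27183 / 10000 * (-φ) :=
      mul_le_mul e2 hs1 hs0 (by norm_num)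
    have h3 : 0 ≤ Real.exp (ε * a) * Real.sin (-φ) := by (clear * - hs0; positivity)
    rw [Real.sin_neg] at h2 h3
    rw [abs_of_nonpos h] at hφ ⊢
    refine ⟨2 * Real.pi + φ - Real.exp (ε * a) * Real.sin φ, by linarith only [hφ, p1, h3], by linarith only [p2, h2],
      fun h5 => ?_, ?_⟩
    · have h6 : φ = 0 := le_antisymm h h5
      rw [h6, Real.sin_zero]
      linarith only [p2]
    · rw [t2_gs_sq, hc, hs, hI]
      linarith only [hR]

theorem t2_w1 {ε a φ : ℝ} (hε : ε = 1 ∨ ε = -1) (h0 : 0 ≤ a) (h1 : a ≤ 1)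
    (hφ : |φ| ≤ 8035 / 10000) :
    ‖gs (((ε * a : ℝ) : ℂ) + ((ε * (2 * Real.pi + φ) : ℝ) : ℂ) * I)‖ ≤
      645 / 100 * Real.exp (φ ^ (2 : ℕ)) := by
  obtain ⟨J, j0, j1, _, j3⟩ := t2_lump_g hε h0 h1 hφ
  have h2 : 645 / 100 * (1 + φ ^ (2 : ℕ)) ≤ 645 / 100 * Real.exp (φ ^ (2 : ℕ)) := by
    have := Real.add_one_le_exp (φ ^ (2 : ℕ))
    linarith only [this]
  refine le_trans ?_ h2
  refine abs_le_of_sq_le_sq' ?_ (by (clear * -; positivity)) |>.2
  refine j3.trans ?_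
  have ha := abs_nonneg φ
  have h3 : J ^ (2 : ℕ) ≤ (62832 / 10000 + 17183 / 10000 * |φ|) ^ (2 : ℕ) := pow_le_pow_left₀ j0 j1 2
  rw [← sq_abs φ]
  nlinarith only [h3, sq_nonneg (|φ| - 135 / 1000)]

theorem t2_w2 {ε a φ : ℝ} (hε : ε = 1 ∨ ε = -1) (h0 : 0 ≤ a) (h1 : a ≤ 1)
    (hφ : |φ| ≤ 8035 / 10000) :
    ‖(((ε * a : ℝ) : ℂ) + ((ε * (2 * Real.pi + φ) : ℝ) : ℂ) * I) *
      gs (((ε * a : ℝ) : ℂ) + ((ε * (2 * Real.pi + φ) : ℝ) : ℂ) * I)‖ ≤
      42 * Real.exp (φ ^ (2 : ℕ)) := by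
  obtain ⟨J, j0, j1, j2, j3⟩ := t2_lump_g hε h0 h1 hφ
  obtain ⟨p1, p2⟩ := t2_pi
  have hE2 : 42 * (1 + φ ^ (2 : ℕ)) ≤ 42 * Real.exp (φ ^ (2 : ℕ)) := by
    have := Real.add_one_le_exp (φ ^ (2 : ℕ))
    linarith only [this]
  refine le_trans ?_ hE2
  refine abs_le_of_sq_le_sq' ?_ (by (clear * -; positivity)) |>.2
  have hsq : ε ^ (2 : ℕ) = 1 := by rcases hε with rfl | rfl <;> norm_num
  have hσ : ‖(((ε * a : ℝ) : ℂ) + ((ε * (2 * Real.pi + φ) : ℝ) : ℂ) * I)‖ ^ (2 : ℕ) ≤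
      1 + (2 * Real.pi + φ) ^ (2 : ℕ) := by
    rw [Complex.sq_norm, Complex.normSq_add_mul_I, mul_pow, mul_pow, hsq]
    nlinarith only [h0, h1]
  rw [norm_mul, mul_pow]
  refine (mul_le_mul hσ j3 (by (clear * -; positivity)) (by (clear * -; positivity))).trans ?_
  rcases le_total 0 φ with h | h
  · have h3 : J ^ (2 : ℕ) ≤ (62832 / 10000 + φ) ^ (2 : ℕ) := pow_le_pow_left₀ j0 (j2 h) 2
    rw [abs_of_nonneg h] at hφ
    have h4 : (2 * Real.pi + φ) ^ (2 : ℕ) ≤ (62832 / 10000 + φ) ^ (2 : ℕ) :=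
      pow_le_pow_left₀ (by linarith only [p1, h]) (by linarith only [p2]) 2
    have h5 : 1 + (62832 / 10000 + φ) ^ (2 : ℕ) ≤ 42 * (1 + φ ^ (2 : ℕ)) := by
      nlinarith only [sq_nonneg (φ - 153 / 1000)]
    calc (1 + (2 * Real.pi + φ) ^ (2 : ℕ)) * (5161 / 10000 + J ^ (2 : ℕ)) ≤
          (42 * (1 + φ ^ (2 : ℕ))) * (42 * (1 + φ ^ (2 : ℕ))) := by
          refine mul_le_mul (by linarith only [h4, h5]) (by linarith only [h3, h5]) (by (clear * -; positivity)) (by (clear * -; positivity))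
      _ = _ := by ring
  · have h3 : J ^ (2 : ℕ) ≤ (62832 / 10000 + 17183 / 10000 * |φ|) ^ (2 : ℕ) := pow_le_pow_left₀ j0 j1 2
    rw [abs_of_nonpos h] at hφ h3
    obtain ⟨t, rfl⟩ : ∃ t, φ = -t := ⟨-φ, by ring⟩
    rw [neg_neg] at hφ h3
    have ht : 0 ≤ t := by linarith only [h]
    have h4 : (2 * Real.pi + -t) ^ (2 : ℕ) ≤ (62832 / 10000 - t) ^ (2 : ℕ) :=
      pow_le_pow_left₀ (by linarith only [p1, hφ]) (by linarith only [p2]) 2
    have h5 : (1 + (62832 / 10000 - t) ^ (2 : ℕ)) *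
        (5161 / 10000 + (62832 / 10000 + 17183 / 10000 * t) ^ (2 : ℕ)) ≤ (42 * (1 + t ^ (2 : ℕ))) ^ (2 : ℕ) := by
      nlinarith only [pow_nonneg ht 4]
    calc (1 + (2 * Real.pi + -t) ^ (2 : ℕ)) * (5161 / 10000 + J ^ (2 : ℕ)) ≤
          (1 + (62832 / 10000 - t) ^ (2 : ℕ)) *
            (5161 / 10000 + (62832 / 10000 + 17183 / 10000 * t) ^ (2 : ℕ)) := by
          refine mul_le_mul (by linarith only [h4]) (by linarith only [h3]) (by (clear * -; positivity)) (by (clear * -; positivity))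
      _ ≤ _ := h5
      _ = _ := by ring

end SokamV3

end

/-! ### Lib_MP_af4de1_v3.T2Int -/

section
/-!
# `N = 2` tails: the integral over one half line (linear + periodic height beyond `137/25`)
-/

set_option autoImplicit false

open MeasureTheory Set Real

namespace SokamV3

theorem t2_quasi {F : ℝ → ℝ} {s0 T q : ℝ} (hT : 0 < T) (hF : IntegrableOn F (Ici s0))
    (hq : q < 1) (h : ∀ s, s0 ≤ s → F (s + T) ≤ q * F s) :
    ∫ s in Ici s0, F s ≤ 1 / (1 - q) * ∫ s in Ico s0 (s0 + T), F s := by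
  have hle : s0 ≤ s0 + T := by linarith only [hT]
  have d : Disjoint (Ico s0 (s0 + T)) (Ici (s0 + T)) := by
    rw [Set.disjoint_left]
    intro x hx hx2
    exact absurd hx.2 (not_lt.2 hx2)
  have i1 : IntegrableOn F (Ico s0 (s0 + T)) := hF.mono_set Ico_subset_Ici_self
  have i2 : IntegrableOn F (Ici (s0 + T)) := hF.mono_set (Ici_subset_Ici.2 hle)
  have e2 : ∫ s in Ici s0, F s = (∫ s in Ico s0 (s0 + T), F s) + ∫ s in Ici (s0 + T), F s := by
    rw [← setIntegral_union d measurableSet_Ici i1 i2, Ico_union_Ici_eq_Ici hle]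
  have hpre : (fun x : ℝ => x + T) ⁻¹' Ici (s0 + T) = Ici s0 := by
    ext x
    simp
  have mp := measurePreserving_add_right (volume : Measure ℝ) T
  have e3 : ∫ s in Ici s0, F (s + T) = ∫ s in Ici (s0 + T), F s := by
    rw [← hpre]
    exact mp.setIntegral_preimage_emb (measurableEmbedding_addRight T) F (Ici (s0 + T))
  have i3 : IntegrableOn (fun s => F (s + T)) (Ici s0) := by
    rw [← hpre]
    exact (mp.integrableOn_comp_preimage (measurableEmbedding_addRight T)).2 i2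
  have e4 : ∫ s in Ici s0, F (s + T) ≤ ∫ s in Ici s0, q * F s :=
    setIntegral_mono_on i3 (hF.const_mul q) measurableSet_Ici fun s hs => h s hs
  rw [integral_const_mul] at e4
  have hq' : 0 < 1 - q := by linarith only [hq]
  rw [one_div, inv_mul_eq_div, le_div_iff₀ hq']
  rw [e3] at e4
  linarith only [e2, e4]

theorem t2_const {F : ℝ → ℝ} {a b A : ℝ} (hab : a ≤ b) (hF : IntegrableOn F (Ico a b))
    (h : ∀ s, a ≤ s → s ≤ b → F s ≤ A) : ∫ s in Ico a b, F s ≤ (b - a) * A := by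
  have e1 : ∫ s in Ico a b, F s ≤ ∫ _ in Ico a b, A :=
    setIntegral_mono_on hF (integrableOn_const (by simp)) measurableSet_Ico
      fun s hs => h s hs.1 hs.2.le
  refine e1.trans (le_of_eq ?_)
  rw [setIntegral_const, Real.volume_real_Ico_of_le hab, smul_eq_mul]

theorem t2_sq {m μ u : ℝ} (hμ : 0 < μ) :
    -(m * u + μ * u ^ (2 : ℕ)) = m ^ (2 : ℕ) / (4 * μ) + -μ * (u + m / (2 * μ)) ^ (2 : ℕ) := by
  field_simp
  ring

theorem t2_gint {m μ : ℝ} (hμ : 0 < μ) :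
    Integrable fun u : ℝ => exp (-(m * u + μ * u ^ (2 : ℕ))) := by
  have h1 : (fun u : ℝ => exp (-(m * u + μ * u ^ (2 : ℕ)))) =
      fun u : ℝ => exp (m ^ (2 : ℕ) / (4 * μ)) * exp (-μ * (u + m / (2 * μ)) ^ (2 : ℕ)) := by
    funext u
    rw [t2_sq hμ, exp_add]
  rw [h1]
  exact ((integrable_exp_neg_mul_sq hμ).comp_add_right (m / (2 * μ))).const_mul _

theorem t2_gauss {m μ : ℝ} (hμ : 0 < μ) :
    ∫ u : ℝ, exp (-(m * u + μ * u ^ (2 : ℕ))) = √(π / μ) * exp (m ^ (2 : ℕ) / (4 * μ)) := by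
  have h1 : (fun u : ℝ => exp (-(m * u + μ * u ^ (2 : ℕ)))) =
      fun u : ℝ => exp (m ^ (2 : ℕ) / (4 * μ)) * exp (-μ * (u + m / (2 * μ)) ^ (2 : ℕ)) := by
    funext u
    rw [t2_sq hμ, exp_add]
  rw [h1, integral_const_mul, integral_add_right_eq_self (fun u : ℝ => exp (-μ * u ^ (2 : ℕ))),
    integral_gaussian, mul_comm]

theorem t2_side {F : ℝ → ℝ} {A1 A3 C2 m μ q : ℝ} (hF : IntegrableOn F (Ici (3 / 2)))
    (hA1 : 0 ≤ A1) (hA3 : 0 ≤ A3) (hC : 0 ≤ C2) (hμ : 0 < μ) (hq : q < 1)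
    (h1 : ∀ s, 3 / 2 ≤ s → s ≤ 137 / 25 → F s ≤ A1)
    (h2 : ∀ φ, 137 / 25 - 2 * π ≤ φ → φ ≤ 4 / 5 →
      F (2 * π + φ) ≤ C2 * exp (-(m * φ + μ * φ ^ (2 : ℕ))))
    (h3 : ∀ φ, 4 / 5 ≤ φ → φ ≤ 137 / 25 → F (2 * π + φ) ≤ A3)
    (h4 : ∀ s, 137 / 25 ≤ s → F (s + 2 * π) ≤ q * F s) :
    ∫ s in Ici (3 / 2), F s ≤
      4 * A1 + 1 / (1 - q) * (C2 * (√(π / μ) * exp (m ^ (2 : ℕ) / (4 * μ))) + 47 / 10 * A3) := by
  have hpi := Real.pi_gt_d4
  have hpi2 := Real.pi_lt_d4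
  norm_num at hpi hpi2
  have hle : (3 / 2 : ℝ) ≤ 137 / 25 := by norm_num
  have d : Disjoint (Ico (3 / 2 : ℝ) (137 / 25)) (Ici (137 / 25)) := by
    rw [Set.disjoint_left]
    intro x hx hx2
    exact absurd hx.2 (not_lt.2 hx2)
  have i1 : IntegrableOn F (Ico (3 / 2) (137 / 25)) := hF.mono_set Ico_subset_Ici_self
  have i2 : IntegrableOn F (Ici (137 / 25)) := hF.mono_set (Ici_subset_Ici.2 hle)
  have e2 : ∫ s in Ici (3 / 2), F s = (∫ s in Ico (3 / 2) (137 / 25), F s) +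
      ∫ s in Ici (137 / 25), F s := by
    rw [← setIntegral_union d measurableSet_Ici i1 i2, Ico_union_Ici_eq_Ici hle]
  have b1 : ∫ s in Ico (3 / 2) (137 / 25), F s ≤ 4 * A1 := by
    refine (t2_const hle i1 h1).trans ?_
    have : (137 / 25 - 3 / 2 : ℝ) ≤ 4 := by norm_num
    exact mul_le_mul_of_nonneg_right this hA1
  have b2 := t2_quasi (by positivity : (0 : ℝ) < 2 * π) i2 hq h4
  have hq' : 0 < 1 - q := by linarith only [hA1, hA3, hC, hμ, hq]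
  -- the first period
  have hle1 : (137 / 25 : ℝ) ≤ 2 * π + 4 / 5 := by linarith only [hpi]
  have hle2 : 2 * π + 4 / 5 ≤ 137 / 25 + 2 * π := by linarith only []
  have d2 : Disjoint (Ico (137 / 25 : ℝ) (2 * π + 4 / 5)) (Ico (2 * π + 4 / 5) (137 / 25 + 2 * π)) := by
    rw [Set.disjoint_left]
    intro x hx hx2
    exact absurd hx.2 (not_lt.2 hx2.1)
  have i3 : IntegrableOn F (Ico (137 / 25) (2 * π + 4 / 5)) := i2.mono_set Ico_subset_Ici_self
  have i4 : IntegrableOn F (Ico (2 * π + 4 / 5) (137 / 25 + 2 * π)) :=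
    i2.mono_set fun x hx => mem_Ici.2 (hle1.trans hx.1)
  have e3 : ∫ s in Ico (137 / 25) (137 / 25 + 2 * π), F s =
      (∫ s in Ico (137 / 25) (2 * π + 4 / 5), F s) +
      ∫ s in Ico (2 * π + 4 / 5) (137 / 25 + 2 * π), F s := by
    rw [← setIntegral_union d2 measurableSet_Ico i3 i4, Ico_union_Ico_eq_Ico hle1 hle2]
  have b3 : ∫ s in Ico (2 * π + 4 / 5) (137 / 25 + 2 * π), F s ≤ 47 / 10 * A3 := by
    refine (t2_const (A := A3) hle2 i4 fun s hs1 hs2 => ?_).trans ?_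
    · have := h3 (s - 2 * π) (by linarith only [hs1]) (by linarith only [hs2])
      rwa [add_sub_cancel] at this
    · have : (137 / 25 + 2 * π - (2 * π + 4 / 5) : ℝ) ≤ 47 / 10 := by
        have : (137 / 25 + 2 * π - (2 * π + 4 / 5) : ℝ) = 117 / 25 := by ring
        rw [this]
        norm_num
      exact mul_le_mul_of_nonneg_right this hA3
  have hg := t2_gint (m := m) hμ
  have hg2 : Integrable fun s : ℝ => C2 * exp (-(m * (s - 2 * π) + μ * (s - 2 * π) ^ (2 : ℕ))) :=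
    (hg.comp_sub_right (2 * π)).const_mul C2
  have b4 : ∫ s in Ico (137 / 25) (2 * π + 4 / 5), F s ≤
      C2 * (√(π / μ) * exp (m ^ (2 : ℕ) / (4 * μ))) := by
    calc ∫ s in Ico (137 / 25) (2 * π + 4 / 5), F s ≤
        ∫ s in Ico (137 / 25) (2 * π + 4 / 5),
          C2 * exp (-(m * (s - 2 * π) + μ * (s - 2 * π) ^ (2 : ℕ))) := by
          refine setIntegral_mono_on i3 hg2.integrableOn measurableSet_Ico fun s hs => ?_
          have := h2 (s - 2 * π) (by linarith only [hs.1]) (by linarith only [hs.2])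
          rwa [add_sub_cancel] at this
      _ ≤ ∫ s : ℝ, C2 * exp (-(m * (s - 2 * π) + μ * (s - 2 * π) ^ (2 : ℕ))) :=
          setIntegral_le_integral hg2 (Filter.Eventually.of_forall fun s => by (clear * - hC; positivity))
      _ = C2 * (√(π / μ) * exp (m ^ (2 : ℕ) / (4 * μ))) := by
          rw [integral_const_mul,
            integral_sub_right_eq_self (fun u : ℝ => exp (-(m * u + μ * u ^ (2 : ℕ)))), t2_gauss hμ]
  rw [e2]
  refine add_le_add b1 (b2.trans ?_)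
  rw [e3]
  refine mul_le_mul_of_nonneg_left (add_le_add b4 b3) (by (clear * - hq; positivity))

end SokamV3

end

/-! ### Lib_MP_af4de1_v3.T2Half -/

section
namespace SokamF1
end SokamF1
namespace SokamF1B
end SokamF1B
namespace SokamF1G
end SokamF1G
namespace SokamF1M
end SokamF1M
namespace SokamF1S
end SokamF1S
namespace SokamPG
end SokamPG
namespace SokamU
end SokamU
/-!
# `N = 2` tails: one half line
-/

set_option autoImplicit false

open Complex MeasureTheory Set SokamU SokamPG SokamF1 SokamF1S SokamF1M SokamF1G SokamF1B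

namespace SokamV3

/-- bounds for a weight -/
structure WtB (w : ℂ → ℂ) (K B1 B2 B3 Q : ℝ) : Prop where
  wt : Wt w K
  b1 : 0 ≤ B1
  b2 : 0 ≤ B2
  b3 : 0 ≤ B3
  q : 0 ≤ Q
  p1 : ∀ u t : ℝ, |u| ≤ 1 → |t| ≤ 137 / 25 → ‖w ((u : ℂ) + t * I)‖ ≤ B1
  p2 : ∀ ε a φ : ℝ, (ε = 1 ∨ ε = -1) → 0 ≤ a → a ≤ 1 → |φ| ≤ 8035 / 10000 →
    ‖w (((ε * a : ℝ) : ℂ) + ((ε * (2 * Real.pi + φ) : ℝ) : ℂ) * I)‖ ≤ B2 * Real.exp (φ ^ (2 : ℕ))
  p3 : ∀ u t : ℝ, |u| ≤ 1 → |t| ≤ 2 * Real.pi + 137 / 25 → ‖w ((u : ℂ) + t * I)‖ ≤ B3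
  p4 : ∀ ε u t : ℝ, (ε = 1 ∨ ε = -1) → |u| ≤ 1 → 137 / 25 ≤ |t| →
    ‖w ((u : ℂ) + (t + ε * (2 * Real.pi) : ℝ) * I)‖ ≤ Q * ‖w ((u : ℂ) + t * I)‖

theorem t2_pc {ε c s1 s : ℝ} (hε : ε = 1 ∨ ε = -1) (hc : 0 ≤ c) (hs1 : 0 ≤ s1) (hs : 0 ≤ s) :
    pc c s1 (ε * s) = ε * min (c * s1) (c * s) := by
  have h1 : 0 ≤ c * s1 := mul_nonneg hc hs1
  have h2 : 0 ≤ c * s := mul_nonneg hc hs
  unfold pc
  rcases hε with rfl | rfl
  · rw [one_mul, one_mul, max_eq_right]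
    exact le_min (by linarith only [h1]) (by linarith only [h1, h2])
  · rw [neg_one_mul, neg_one_mul, mul_neg, min_eq_right (by linarith only [h1, h2]), ← max_neg_neg]

theorem t2_pv1 {ε c s1 s : ℝ} (hε : ε = 1 ∨ ε = -1) (hs1 : 0 ≤ s1) (hs : s1 ≤ s) :
    ‖pv c s1 (ε * s)‖ = 1 := by
  have h : |ε * s| = s := by
    rcases hε with rfl | rfl
    · rw [one_mul, abs_of_nonneg (hs1.trans hs)]
    · rw [neg_one_mul, abs_neg, abs_of_nonneg (hs1.trans hs)]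
  unfold pv
  rw [if_neg (by rw [h]; exact not_lt.2 hs), norm_one]

theorem t2_pv2 {c s1 s : ℝ} (hc : 0 ≤ c) (hc1 : c ≤ 2 / 5) : ‖pv c s1 s‖ ≤ 108 / 100 := by
  unfold pv
  split_ifs
  · refine abs_le_of_sq_le_sq' ?_ (by norm_num) |>.2
    have h : (1 - (c : ℂ) * I) = ((1 : ℝ) : ℂ) + ((-c : ℝ) : ℂ) * I := by push_cast; ring
    rw [h, Complex.sq_norm, Complex.normSq_add_mul_I]
    nlinarith only [hc, hc1]
  · rw [norm_one]
    norm_num

theorem t2_Hs {ε x y a s : ℝ} (hε : ε = 1 ∨ ε = -1) :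
    Ha x y (ε * a) (ε * s) = Hs ε x (ε * y) a s := by
  rcases hε with rfl | rfl
  · rw [one_mul, one_mul, one_mul, Hs_pos]
  · rw [neg_one_mul, neg_one_mul, neg_one_mul, Hs_neg]

/-- the integrand on one side -/
theorem t2_gi {ε x y δ s1 s : ℝ} (hε : ε = 1 ∨ ε = -1) (hx : 0 ≤ x) (hδ : 0 < δ) (hs1 : 0 ≤ s1)
    (hs : 0 ≤ s) (w : ℂ → ℂ) :
    ‖gi (1 + x)⁻¹ s1 w (((x : ℂ) + y * I) / δ) 0 (-((δ : ℂ) * I)) (ε * s)‖ =
      ‖pv (1 + x)⁻¹ s1 (ε * s)‖ *
        (‖w (((ε * min ((1 + x)⁻¹ * s1) ((1 + x)⁻¹ * s) : ℝ) : ℂ) + ((ε * s : ℝ) : ℂ) * I)‖ *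
          Real.exp (-(1 / δ * Hs ε x (ε * y) (min ((1 + x)⁻¹ * s1) ((1 + x)⁻¹ * s)) s))) := by
  have hc : 0 ≤ (1 + x)⁻¹ := inv_nonneg.2 (by linarith only [hx])
  unfold gi
  rw [norm_mul, norm_mul]
  have h : pz (1 + x)⁻¹ s1 (ε * s) =
      ((ε * min ((1 + x)⁻¹ * s1) ((1 + x)⁻¹ * s) : ℝ) : ℂ) + ((ε * s : ℝ) : ℂ) * I := by
    unfold pz
    rw [t2_pc hε hc hs1 hs]
  rw [h, norm_f_K hδ, t2_Hs hε, div_eq_mul_one_div, mul_comm (Hs _ _ _ _ _) (1 / δ)]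

theorem t2_ts {x : ℝ} (hx : 0 ≤ x) : 0 < ts x ∧ ts x ≤ 137 / 25 ∧ ts x ≤ 1 + x ∧
    0 ≤ ta x ∧ ta x ≤ 1 := by
  have h1 : 0 < 1 + x := by linarith only [hx]
  have h2 : 0 < ts x := lt_min (by norm_num) h1
  have h3 : ts x ≤ 1 + x := min_le_right _ _
  refine ⟨h2, min_le_left _ _, h3, ?_, ?_⟩
  · unfold ta
    positivity
  · unfold ta
    rw [inv_mul_eq_div, div_le_one h1]
    exact h3

theorem t2_min1 {x s : ℝ} (hx : 0 ≤ x) (hs : s ≤ 137 / 25) :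
    min ((1 + x)⁻¹ * ts x) ((1 + x)⁻¹ * s) = min 1 ((1 + x)⁻¹ * s) := by
  have h1 : 0 < 1 + x := by linarith only [hx]
  have hc : 0 ≤ (1 + x)⁻¹ := inv_nonneg.2 h1.le
  have h2 : (1 + x)⁻¹ * ts x = min ((1 + x)⁻¹ * (137 / 25)) 1 := by
    unfold ts
    rw [mul_min_of_nonneg _ _ hc, inv_mul_cancel₀ h1.ne']
  have h3 : (1 + x)⁻¹ * s ≤ (1 + x)⁻¹ * (137 / 25) := mul_le_mul_of_nonneg_left hs hc
  rw [h2, min_assoc, min_eq_right ((min_le_right _ _).trans h3)]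

theorem t2_min2 {x s : ℝ} (hx : 0 ≤ x) (hs : 137 / 25 ≤ s) :
    min ((1 + x)⁻¹ * ts x) ((1 + x)⁻¹ * s) = ta x := by
  have h1 : 0 < 1 + x := by linarith only [hx]
  have hc : 0 ≤ (1 + x)⁻¹ := inv_nonneg.2 h1.le
  have h2 : (1 + x)⁻¹ * ts x ≤ (1 + x)⁻¹ * s :=
    mul_le_mul_of_nonneg_left ((min_le_left _ _).trans hs) hc
  rw [min_eq_left h2]
  rfl

theorem t2_q {L : ℝ} (h : 6 / 5 ≤ L) : Real.exp (-(2 * Real.pi * L)) ≤ 54 / 100000 := by
  obtain ⟨p1, _⟩ := t2_pi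
  have h1 : (75397 / 10000 : ℝ) ≤ 2 * Real.pi * L := by
    calc (75397 / 10000 : ℝ) ≤ 62831 / 10000 * (6 / 5) := by norm_num
      _ ≤ 2 * Real.pi * L := by gcongr
  have h2 : Real.exp (-(2 * Real.pi * L)) ≤ Real.exp (-(75397 / 10000)) :=
    Real.exp_le_exp.2 (by linarith only [h1])
  refine h2.trans ?_
  rw [Real.exp_neg]
  have h3 : (100000 / 54 : ℝ) ≤ Real.exp (75397 / 10000) := by
    have e1 : (2718 / 1000 : ℝ) ≤ Real.exp 1 := by
      have := Real.exp_one_gt_d9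
      norm_num at this ⊢
      linarith only [this]
    have e2 : (75397 / 10000 : ℝ) = (7 : ℕ) * 1 + 5397 / 10000 := by norm_num
    have e3 := Real.add_one_le_exp (5397 / 20000 : ℝ)
    have e4 : Real.exp (5397 / 10000) = Real.exp (5397 / 20000) ^ (2 : ℕ) := by
      rw [← Real.exp_nat_mul]
      norm_num
    have e5 := Real.quadratic_le_exp_of_nonneg (x := 5397 / 20000) (by norm_num)
    rw [e2, Real.exp_add, Real.exp_nat_mul, e4]
    calc (100000 / 54 : ℝ) ≤ (2718 / 1000) ^ (7 : ℕ) * (1 + 5397 / 20000 + (5397 / 20000) ^ (2 : ℕ) / 2) ^ (2 : ℕ) := by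
          norm_num
      _ ≤ Real.exp 1 ^ (7 : ℕ) * Real.exp (5397 / 20000) ^ (2 : ℕ) := by gcongr
  rw [inv_le_comm₀ (Real.exp_pos _) (by norm_num)]
  refine le_trans ?_ h3
  norm_num

/-- One half line. -/
theorem t2_half {w : ℂ → ℂ} {K B1 B2 B3 Q ε r δ x y : ℝ} (hw : WtB w K B1 B2 B3 Q)
    (hε : ε = 1 ∨ ε = -1) (hx : 3 / 2 ≤ x) (hδ : 0 < δ) (hy : |y| < ta x)
    (hT : TH ε x (ε * y) (1 / δ) (r * δ)) (hQ : Q * (54 / 100000) < 1) :
    ∫ s in Ici (3 / 2),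
      ‖gi (1 + x)⁻¹ (ts x) w (((x : ℂ) + y * I) / δ) 0 (-((δ : ℂ) * I)) (ε * s)‖ ≤
      4 * (108 / 100 * (B1 * Real.exp (-(23 / 100 * r)))) +
      1 / (1 - Q * (54 / 100000)) *
        (B2 * tP ε x (ε * y) (1 / δ) + 47 / 10 * (B3 * Real.exp (-(1 / 4 * r)))) := by
  have hx0 : 0 ≤ x := by linarith only [hx, hδ]
  have h1x : 0 < 1 + x := by linarith only [hx0]
  obtain ⟨ts0, ts1, ts2, ta0, ta1⟩ := t2_ts hx0
  obtain ⟨p1, p2⟩ := t2_pi
  have hc0 : 0 < (1 + x)⁻¹ := inv_pos.2 h1x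
  have hc1 : (1 + x)⁻¹ ≤ 2 / 5 := by
    rw [inv_le_comm₀ h1x (by norm_num)]
    norm_num
    linarith only [hx]
  have hcs : (1 + x)⁻¹ * ts x ≤ 1 := ta1
  have hk : |(((x : ℂ) + y * I) / δ : ℂ).im| < (1 + x)⁻¹ * ts x / δ := by
    have e : (((x : ℂ) + y * I) / δ : ℂ) = ((1 / δ : ℝ) : ℂ) * ((x : ℂ) + y * I) := by
      push_cast; ring
    have e2 : ((x : ℂ) + y * I).im = y := by simp
    rw [e, Complex.im_ofReal_mul, e2, abs_mul, abs_of_pos (by positivity : 0 < 1 / δ), one_div,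
      inv_mul_eq_div]
    exact div_lt_div_of_pos_right hy hδ
  have hwd : 1 / δ * (r * δ) = r := by field_simp
  have hw0 : 0 < 1 / δ := by positivity
  have hint : Integrable fun s : ℝ =>
      ‖gi (1 + x)⁻¹ (ts x) w (((x : ℂ) + y * I) / δ) 0 (-((δ : ℂ) * I)) (ε * s)‖ := by
    have h := (int_gi hc0 ts0 hcs hδ hk hw.wt).norm
    rcases hε with rfl | rfl
    · simpa using h
    · simpa using h.comp_neg
  have hmu := hT.mu
  have hside := t2_side
    (F := fun s : ℝ => ‖gi (1 + x)⁻¹ (ts x) w (((x : ℂ) + y * I) / δ) 0 (-((δ : ℂ) * I)) (ε * s)‖)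
    (A1 := 108 / 100 * (B1 * Real.exp (-(23 / 100 * r)))) (A3 := B3 * Real.exp (-(1 / 4 * r)))
    (C2 := B2 * Real.exp (-(1 / δ * tH ε x (ε * y)))) (m := 1 / δ * tm ε x (ε * y))
    (μ := 1 / δ * tμ ε x (ε * y) - 1) (q := Q * (54 / 100000)) hint.integrableOn
    (by have := hw.b1; positivity) (by have := hw.b3; positivity) (by have := hw.b2; positivity)
    (by linarith only [hmu]) hQ ?_ ?_ ?_ ?_
  · refine hside.trans (le_of_eq ?_)
    have e1 : Real.exp ((1 / δ * tm ε x (ε * y)) ^ (2 : ℕ) / (4 * (1 / δ * tμ ε x (ε * y) - 1)) -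
        1 / δ * tH ε x (ε * y)) =
        Real.exp ((1 / δ * tm ε x (ε * y)) ^ (2 : ℕ) / (4 * (1 / δ * tμ ε x (ε * y) - 1))) *
          Real.exp (-(1 / δ * tH ε x (ε * y))) := by
      rw [← Real.exp_add]
      congr 1
    unfold tP
    rw [e1]
    ring
  · -- the middle part
    intro s hs1 hs2
    have hs0 : 0 ≤ s := by linarith only [hs1]
    rw [t2_gi hε hx0 hδ ts0.le hs0, t2_min1 hx0 hs2]
    have hm0 : 0 ≤ min 1 ((1 + x)⁻¹ * s) := le_min (by norm_num) (by positivity)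
    have hm1 : min 1 ((1 + x)⁻¹ * s) ≤ 1 := min_le_left _ _
    have hb : ‖w (((ε * min 1 ((1 + x)⁻¹ * s) : ℝ) : ℂ) + ((ε * s : ℝ) : ℂ) * I)‖ ≤ B1 := by
      refine hw.p1 _ _ ?_ ?_
      · rcases hε with rfl | rfl
        · rw [one_mul, abs_of_nonneg hm0]; exact hm1
        · rw [neg_one_mul, abs_neg, abs_of_nonneg hm0]; exact hm1
      · rcases hε with rfl | rfl
        · rw [one_mul, abs_of_nonneg hs0]; exact hs2
        · rw [neg_one_mul, abs_neg, abs_of_nonneg hs0]; exact hs2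
    have he : Real.exp (-(1 / δ * Hs ε x (ε * y) (min 1 ((1 + x)⁻¹ * s)) s)) ≤
        Real.exp (-(23 / 100 * r)) := by
      refine Real.exp_le_exp.2 (neg_le_neg ?_)
      have := mul_le_mul_of_nonneg_left (hT.p1 s hs1 hs2) hw0.le
      linarith only [this, hwd]
    have hpv := t2_pv2 (s1 := ts x) (s := ε * s) hc0.le hc1
    have hb1 := hw.b1
    gcongr
  · -- the lump
    intro φ hφ1 hφ2
    have hφ : |φ| ≤ 8035 / 10000 := by
      rw [abs_le]
      constructor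
      · linarith only [p2, hφ1]
      · linarith only [hφ2]
    have hs3 : 137 / 25 ≤ 2 * Real.pi + φ := by linarith only [hφ1]
    rw [t2_gi hε hx0 hδ ts0.le (by linarith only [hs3]), t2_min2 hx0 hs3,
      t2_pv1 hε ts0.le (ts1.trans hs3), one_mul]
    have hb := hw.p2 ε (ta x) φ hε ta0 ta1 hφ
    have hH := mul_le_mul_of_nonneg_left (t2_lump_H (ε := ε) (v := ε * y) (a := ta x) hx0 hφ) hw0.le
    have he : Real.exp (φ ^ (2 : ℕ)) * Real.exp (-(1 / δ * Hs ε x (ε * y) (ta x) (2 * Real.pi + φ))) ≤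
        Real.exp (-(1 / δ * tH ε x (ε * y))) * Real.exp (-(1 / δ * tm ε x (ε * y) * φ +
          (1 / δ * tμ ε x (ε * y) - 1) * φ ^ (2 : ℕ))) := by
      rw [← Real.exp_add, ← Real.exp_add]
      refine Real.exp_le_exp.2 ?_
      unfold tH tm tμ
      linarith only [hH]
    have hE := Real.exp_pos (-(1 / δ * Hs ε x (ε * y) (ta x) (2 * Real.pi + φ)))
    calc ‖w (((ε * ta x : ℝ) : ℂ) + ((ε * (2 * Real.pi + φ) : ℝ) : ℂ) * I)‖ *
          Real.exp (-(1 / δ * Hs ε x (ε * y) (ta x) (2 * Real.pi + φ))) ≤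
          B2 * Real.exp (φ ^ (2 : ℕ)) *
          Real.exp (-(1 / δ * Hs ε x (ε * y) (ta x) (2 * Real.pi + φ))) :=
          mul_le_mul_of_nonneg_right hb hE.le
      _ = B2 * (Real.exp (φ ^ (2 : ℕ)) *
          Real.exp (-(1 / δ * Hs ε x (ε * y) (ta x) (2 * Real.pi + φ)))) := by ring
      _ ≤ B2 * (Real.exp (-(1 / δ * tH ε x (ε * y))) * Real.exp (-(1 / δ * tm ε x (ε * y) * φ +
          (1 / δ * tμ ε x (ε * y) - 1) * φ ^ (2 : ℕ)))) := mul_le_mul_of_nonneg_left he hw.b2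
      _ = _ := by ring
  · -- the rest of the first period
    intro φ hφ1 hφ2
    have hs3 : 137 / 25 ≤ 2 * Real.pi + φ := by linarith only [p1, hφ1]
    rw [t2_gi hε hx0 hδ ts0.le (by linarith only [hs3]), t2_min2 hx0 hs3,
      t2_pv1 hε ts0.le (ts1.trans hs3), one_mul]
    have hb : ‖w (((ε * ta x : ℝ) : ℂ) + ((ε * (2 * Real.pi + φ) : ℝ) : ℂ) * I)‖ ≤ B3 := by
      have hs0 : 0 ≤ 2 * Real.pi + φ := by linarith only [hs3]
      refine hw.p3 _ _ ?_ ?_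
      · rcases hε with rfl | rfl
        · rw [one_mul, abs_of_nonneg ta0]; exact ta1
        · rw [neg_one_mul, abs_neg, abs_of_nonneg ta0]; exact ta1
      · rcases hε with rfl | rfl
        · rw [one_mul, abs_of_nonneg hs0]; linarith only [hφ2]
        · rw [neg_one_mul, abs_neg, abs_of_nonneg hs0]; linarith only [hφ2]
    have he : Real.exp (-(1 / δ * Hs ε x (ε * y) (ta x) (2 * Real.pi + φ))) ≤
        Real.exp (-(1 / 4 * r)) := by
      refine Real.exp_le_exp.2 (neg_le_neg ?_)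
      have := mul_le_mul_of_nonneg_left (hT.p3 φ hφ1 hφ2) hw0.le
      linarith only [this, hwd]
    have hb3 := hw.b3
    gcongr
  · -- periodicity
    intro s hs
    have hs0 : 0 ≤ s := by linarith only [hs]
    have hs2 : 137 / 25 ≤ s + 2 * Real.pi := by linarith only [p1, hs0]
    rw [t2_gi hε hx0 hδ ts0.le (by linarith only [hs2]), t2_min2 hx0 hs2,
      t2_pv1 hε ts0.le (ts1.trans hs2), one_mul, t2_gi hε hx0 hδ ts0.le hs0, t2_min2 hx0 hs,
      t2_pv1 hε ts0.le (ts1.trans hs), one_mul, t2_per]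
    have hb := hw.p4 ε (ε * ta x) (ε * s) hε (by
        rcases hε with rfl | rfl
        · rw [one_mul, abs_of_nonneg ta0]; exact ta1
        · rw [neg_one_mul, abs_neg, abs_of_nonneg ta0]; exact ta1) (by
        rcases hε with rfl | rfl
        · rw [one_mul, abs_of_nonneg hs0]; exact hs
        · rw [neg_one_mul, abs_neg, abs_of_nonneg hs0]; exact hs)
    rw [← mul_add] at hb
    have hq := t2_q hT.lam
    have e1 : Real.exp (-(1 / δ * (Hs ε x (ε * y) (ta x) s + 2 * Real.pi * (ta x - ε * y)))) =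
        Real.exp (-(1 / δ * Hs ε x (ε * y) (ta x) s)) *
          Real.exp (-(2 * Real.pi * (1 / δ * (ta x - ε * y)))) := by
      rw [← Real.exp_add]
      congr 1
      ring
    rw [e1]
    have hq0 := hw.q
    have hE := Real.exp_pos (-(1 / δ * Hs ε x (ε * y) (ta x) s))
    calc ‖w (((ε * ta x : ℝ) : ℂ) + ((ε * (s + 2 * Real.pi) : ℝ) : ℂ) * I)‖ *
          (Real.exp (-(1 / δ * Hs ε x (ε * y) (ta x) s)) *
          Real.exp (-(2 * Real.pi * (1 / δ * (ta x - ε * y))))) ≤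
          (Q * ‖w (((ε * ta x : ℝ) : ℂ) + ((ε * s : ℝ) : ℂ) * I)‖) *
          (Real.exp (-(1 / δ * Hs ε x (ε * y) (ta x) s)) * (54 / 100000)) := by
          gcongr
      _ = _ := by ring

end SokamV3

end

/-! ### Lib_MP_af4de1_v3.T2Core -/

section
namespace SokamF1
end SokamF1
namespace SokamF1B
end SokamF1B
namespace SokamF1G
end SokamF1G
namespace SokamF1M
end SokamF1M
namespace SokamF1S
end SokamF1S
namespace SokamPG
end SokamPG
namespace SokamU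
end SokamU
/-!
# `N = 2` tails: PIECE CORE
-/

set_option autoImplicit false

open Complex MeasureTheory Set SokamU SokamPG SokamF1 SokamF1S SokamF1M SokamF1G SokamF1B

namespace SokamV3

theorem t2_abs_im (u t : ℝ) : |t| ≤ ‖(u : ℂ) + t * I‖ := by
  have h := Complex.abs_im_le_norm ((u : ℂ) + t * I)
  have e : ((u : ℂ) + t * I).im = t := by simp
  rwa [e] at h

theorem t2_exp_le {u : ℝ} (h : |u| ≤ 1) : Real.exp u ≤ 27183 / 10000 :=
  (Real.exp_le_exp.2 (abs_le.1 h).2).trans t2_e1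

theorem t2_norm_exp (u t : ℝ) : ‖cexp ((u : ℂ) + t * I)‖ = Real.exp u := by
  rw [Complex.norm_exp]
  congr 1
  simp

theorem t2_norm_le {u t T m : ℝ} (hu : |u| ≤ 1) (ht : |t| ≤ T) (hm : 0 ≤ m)
    (h : 1 + T ^ (2 : ℕ) ≤ m ^ (2 : ℕ)) : ‖(u : ℂ) + t * I‖ ≤ m := by
  refine abs_le_of_sq_le_sq' ?_ hm |>.2
  rw [Complex.sq_norm, Complex.normSq_add_mul_I, ← sq_abs u, ← sq_abs t]
  have h1 : |u| ^ (2 : ℕ) ≤ 1 := pow_le_one₀ (abs_nonneg _) hu
  have h2 : |t| ^ (2 : ℕ) ≤ T ^ (2 : ℕ) := pow_le_pow_left₀ (abs_nonneg _) ht 2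
  linarith only [h, h1, h2]

theorem t2_gs_le {u t : ℝ} (hu : |u| ≤ 1) : ‖gs ((u : ℂ) + t * I)‖ ≤
    37183 / 10000 + ‖(u : ℂ) + t * I‖ := by
  unfold gs
  have h1 := norm_sub_le (cexp ((u : ℂ) + t * I) - 1) ((u : ℂ) + t * I)
  have h2 := norm_sub_le (cexp ((u : ℂ) + t * I)) 1
  rw [norm_one, t2_norm_exp] at h2
  have h3 := t2_exp_le hu
  linarith only [h1, h2, h3]

theorem t2_gs_ge {u t : ℝ} (hu : |u| ≤ 1) : |t| - 27183 / 10000 ≤ ‖gs ((u : ℂ) + t * I)‖ := by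
  rw [t2_gs_eq]
  have h := t2_abs_im (Real.exp u * Real.cos t - 1 - u) (Real.exp u * Real.sin t - t)
  refine le_trans ?_ h
  have h1 : |t| ≤ |Real.exp u * Real.sin t - t| + |Real.exp u * Real.sin t| := by
    have e : t = -(Real.exp u * Real.sin t - t) + Real.exp u * Real.sin t := by ring
    calc |t| = |-(Real.exp u * Real.sin t - t) + Real.exp u * Real.sin t| := by rw [← e]
      _ ≤ |-(Real.exp u * Real.sin t - t)| + |Real.exp u * Real.sin t| := abs_add_le _ _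
      _ = _ := by rw [abs_neg]
  have h2 : |Real.exp u * Real.sin t| ≤ 27183 / 10000 := by
    rw [abs_mul, abs_of_pos (Real.exp_pos u)]
    calc Real.exp u * |Real.sin t| ≤ Real.exp u * 1 :=
          mul_le_mul_of_nonneg_left (Real.abs_sin_le_one t) (Real.exp_pos u).le
      _ ≤ _ := by rw [mul_one]; exact t2_exp_le hu
  linarith only [h1, h2]

theorem t2_shift {ε : ℝ} (hε : ε = 1 ∨ ε = -1) (u t : ℝ) :
    ((u : ℂ) + (t + ε * (2 * Real.pi) : ℝ) * I) = ((u : ℂ) + t * I) + ε * (2 * Real.pi * I) := by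
  push_cast
  ring

theorem t2_norm_2pi {ε : ℝ} (hε : ε = 1 ∨ ε = -1) :
    ‖(ε : ℂ) * (2 * Real.pi * I)‖ ≤ 62832 / 10000 := by
  obtain ⟨p1, p2⟩ := t2_pi
  have h : ‖(ε : ℂ)‖ = 1 := by rcases hε with rfl | rfl <;> simp
  rw [norm_mul, h, one_mul, norm_mul, Complex.norm_I, mul_one]
  have h2 : ‖(2 * Real.pi : ℂ)‖ = 2 * Real.pi := by
    have : (2 * Real.pi : ℂ) = ((2 * Real.pi : ℝ) : ℂ) := by push_cast; ring
    rw [this, Complex.norm_real, Real.norm_of_nonneg (by positivity)]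
  rw [h2]
  exact p2

theorem t2_gs_shift {ε u t : ℝ} (hε : ε = 1 ∨ ε = -1) (hu : |u| ≤ 1) (ht : 137 / 25 ≤ |t|) :
    ‖gs ((u : ℂ) + (t + ε * (2 * Real.pi) : ℝ) * I)‖ ≤ 328 / 100 * ‖gs ((u : ℂ) + t * I)‖ := by
  have h1 := t2_gs_ge (t := t) hu
  have h2 := t2_norm_2pi hε
  have e : gs ((u : ℂ) + (t + ε * (2 * Real.pi) : ℝ) * I) =
      gs ((u : ℂ) + t * I) - ε * (2 * Real.pi * I) := by
    rw [t2_shift hε]
    have e1 : cexp (((u : ℂ) + t * I) + ε * (2 * Real.pi * I)) = cexp ((u : ℂ) + t * I) := by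
      rcases hε with rfl | rfl
      · rw [Complex.ofReal_one, one_mul, Complex.exp_periodic]
      · rw [Complex.ofReal_neg, Complex.ofReal_one, neg_one_mul, ← sub_eq_add_neg,
          Complex.exp_periodic.sub_eq]
    unfold gs
    rw [e1]
    ring
  rw [e]
  have h3 := norm_sub_le (gs ((u : ℂ) + t * I)) (ε * (2 * Real.pi * I))
  linarith only [ht, h1, h2, h3]

theorem t2_id_shift {ε u t : ℝ} (hε : ε = 1 ∨ ε = -1) (ht : 137 / 25 ≤ |t|) :
    ‖(u : ℂ) + (t + ε * (2 * Real.pi) : ℝ) * I‖ ≤ 2147 / 1000 * ‖(u : ℂ) + t * I‖ := by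
  have h1 := t2_abs_im u t
  have h2 := t2_norm_2pi hε
  rw [t2_shift hε]
  have h3 := norm_add_le ((u : ℂ) + t * I) (ε * (2 * Real.pi * I))
  linarith only [ht, h1, h2, h3]

theorem t2_W0 : WtB (fun _ => 1) 1 1 1 1 1 where
  wt := by simpa using wt_const 1
  b1 := by norm_num
  b2 := by norm_num
  b3 := by norm_num
  q := by norm_num
  p1 := fun _ _ _ _ => by rw [norm_one]
  p2 := fun _ _ φ _ _ _ _ => by
    rw [norm_one, one_mul]
    exact Real.one_le_exp (sq_nonneg φ)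
  p3 := fun _ _ _ _ => by rw [norm_one]
  p4 := fun _ _ _ _ _ _ => by rw [norm_one, one_mul]

theorem t2_W1 : WtB gs 5 (93 / 10) (645 / 100) (1553 / 100) (328 / 100) where
  wt := wt_gs
  b1 := by norm_num
  b2 := by norm_num
  b3 := by norm_num
  q := by norm_num
  p1 := fun u t hu ht => by
    have h1 := t2_gs_le (t := t) hu
    have h2 := t2_norm_le (m := 5571 / 1000) hu ht (by norm_num) (by norm_num)
    linarith only [h1, h2]
  p2 := fun ε a φ hε h0 h1 hφ => t2_w1 hε h0 h1 hφ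
  p3 := fun u t hu ht => by
    have h1 := t2_gs_le (t := t) hu
    have h2 := t2_norm_le (m := 11806 / 1000) (T := 117632 / 10000) hu
      (ht.trans (by linarith only [t2_pi.2])) (by norm_num) (by norm_num)
    linarith only [h1, h2]
  p4 := fun _ _ _ hε hu ht => t2_gs_shift hε hu ht

theorem t2_W2 : WtB (fun s => s * gs s) 5 (518 / 10) 42 (1834 / 10) (705 / 100) where
  wt := wt_mul_gs
  b1 := by norm_num
  b2 := by norm_num
  b3 := by norm_num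
  q := by norm_num
  p1 := fun u t hu ht => by
    have h1 := t2_gs_le (t := t) hu
    have h2 := t2_norm_le (m := 5571 / 1000) hu ht (by norm_num) (by norm_num)
    have h3 := norm_nonneg ((u : ℂ) + t * I)
    rw [norm_mul]
    calc ‖(u : ℂ) + t * I‖ * ‖gs ((u : ℂ) + t * I)‖ ≤ (5571 / 1000) * (37183 / 10000 + 5571 / 1000) :=
          mul_le_mul h2 (by linarith only [h1, h2]) (norm_nonneg _) (by norm_num)
      _ ≤ _ := by norm_num
  p2 := fun ε a φ hε h0 h1 hφ => t2_w2 hε h0 h1 hφ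
  p3 := fun u t hu ht => by
    have h1 := t2_gs_le (t := t) hu
    have h2 := t2_norm_le (m := 11806 / 1000) (T := 117632 / 10000) hu
      (ht.trans (by linarith only [t2_pi.2])) (by norm_num) (by norm_num)
    rw [norm_mul]
    calc ‖(u : ℂ) + t * I‖ * ‖gs ((u : ℂ) + t * I)‖ ≤ (11806 / 1000) * (37183 / 10000 + 11806 / 1000) :=
          mul_le_mul h2 (by linarith only [h1, h2]) (norm_nonneg _) (by norm_num)
      _ ≤ _ := by norm_num
  p4 := fun ε u t hε hu ht => by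
    have h1 := t2_gs_shift hε hu ht
    have h2 := t2_id_shift (u := u) hε ht
    rw [norm_mul, norm_mul]
    calc _ ≤ (2147 / 1000 * ‖(u : ℂ) + t * I‖) * (328 / 100 * ‖gs ((u : ℂ) + t * I)‖) :=
          mul_le_mul h2 h1 (norm_nonneg _) (by positivity)
      _ = (2147 / 1000 * (328 / 100)) * (‖(u : ℂ) + t * I‖ * ‖gs ((u : ℂ) + t * I)‖) := by ring
      _ ≤ _ := by
        refine mul_le_mul_of_nonneg_right (by norm_num) (by positivity)

/-! ### the size of `sG` -/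

theorem t2_decay {α A : ℝ} (hα : 1 / 10 ≤ α) {r : ℝ} (hr : 499 / 10 ≤ r)
    (h : 499 / 10 ≤ A * Real.exp (499 / 10 * α)) : r * Real.exp (-(α * r)) ≤ A := by
  have h1 := Real.add_one_le_exp (r / (499 / 10) - 1)
  have h2 : r / (499 / 10) - 1 ≤ α * (r - 499 / 10) := by
    have : r / (499 / 10) - 1 = 10 / 499 * (r - 499 / 10) := by ring
    rw [this]
    refine mul_le_mul_of_nonneg_right ?_ (by linarith only [hr])
    refine le_trans ?_ hα
    norm_num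
  have h3 := Real.exp_le_exp.2 h2
  have h4 : r ≤ 499 / 10 * Real.exp (α * (r - 499 / 10)) := by
    have : r / (499 / 10) ≤ Real.exp (α * (r - 499 / 10)) := by linarith only [h1, h3]
    rw [div_le_iff₀ (by norm_num)] at this
    linarith only [this]
  have h5 : Real.exp (α * (r - 499 / 10)) * Real.exp (-(α * r)) = Real.exp (-(499 / 10 * α)) := by
    rw [← Real.exp_add]
    congr 1
    ring
  have h6 : Real.exp (499 / 10 * α) * Real.exp (-(499 / 10 * α)) = 1 := by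
    rw [← Real.exp_add]
    simp
  have hE := Real.exp_pos (-(α * r))
  have hE2 := Real.exp_pos (-(499 / 10 * α))
  calc r * Real.exp (-(α * r)) ≤ 499 / 10 * Real.exp (α * (r - 499 / 10)) * Real.exp (-(α * r)) :=
        mul_le_mul_of_nonneg_right h4 hE.le
    _ = 499 / 10 * Real.exp (-(499 / 10 * α)) := by rw [mul_assoc, h5]
    _ ≤ A * Real.exp (499 / 10 * α) * Real.exp (-(499 / 10 * α)) :=
        mul_le_mul_of_nonneg_right h hE2.le
    _ = A := by rw [mul_assoc, h6, mul_one]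

theorem t2_D {ρ y : ℝ} (hD : Dom ρ y) (h1 : -(1 / 2) ≤ y) (h2 : y ≤ 13 / 20)
    (h5 : 5 ≤ sD2 ρ y) : √(sD2 ρ y) ≤ 16488 / 10000 * ρ := by
  have hρ := hD.1
  have e1 : sD2 ρ y = 1 + 2 * y + ρ ^ (2 : ℕ) * Real.exp (-2 * y) := by
    unfold sD2
    rw [sx_sq hD, ← exp_two]
    ring
  rw [Real.sqrt_le_left (by positivity)]
  have h3 : (27185 / 10000 : ℝ) * ρ ^ (2 : ℕ) ≤ (16488 / 10000 * ρ) ^ (2 : ℕ) := by
    rw [mul_pow]
    refine mul_le_mul_of_nonneg_right ?_ (by positivity)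
    norm_num
  refine le_trans ?_ h3
  rw [e1] at h5 ⊢
  rcases le_total 0 y with hy | hy
  · have h4 : Real.exp (-2 * y) ≤ 1 := by
      rw [Real.exp_le_one_iff]
      linarith only [hy]
    have h6 : ρ ^ (2 : ℕ) * Real.exp (-2 * y) ≤ ρ ^ (2 : ℕ) := by nlinarith [sq_nonneg ρ]
    nlinarith
  · have h4 := t2_chord (a := -2 * y) (by linarith only [hy]) (by linarith only [h1])
    have h7 : ρ ^ (2 : ℕ) * Real.exp (-2 * y) ≤ ρ ^ (2 : ℕ) * (1 + 17183 / 10000 * (-2 * y)) :=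
      mul_le_mul_of_nonneg_left h4 (by positivity)
    have h8 : ρ ^ (2 : ℕ) * Real.exp (-2 * y) ≤ ρ ^ (2 : ℕ) * (27183 / 10000) := by
      refine mul_le_mul_of_nonneg_left (t2_exp_le ?_) (by positivity)
      rw [abs_of_nonneg (by linarith only [hy])]
      linarith only [h1]
    have h9 : 1 ≤ ρ ^ (2 : ℕ) := by nlinarith
    nlinarith

theorem t2_G {r δ y : ℝ} (hr : 499 / 10 ≤ r) (hδ : 0 < δ) (hD : Dom (r * δ) y) (hS : Sad2 r δ y) :
    Real.exp (-(23 / 100 * r)) ≤ 376 / 10000000 * sG r δ y ∧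
    Real.exp (-(1 / 4 * r)) ≤ 139 / 10000000 * sG r δ y := by
  have hρ := hD.1
  have hr0 : 0 < r := by linarith only [hr]
  have h1 := t2_D hD hS.lo (hS.hi) hS.D
  have hDp : 0 < √(sD2 (r * δ) y) := Real.sqrt_pos.2 (by linarith only [hS.D])
  obtain ⟨p1, p2⟩ := t2_pi
  have hG : 38107 / 10000 / r ≤ sG r δ y ^ (2 : ℕ) := by
    unfold sG
    rw [Real.sq_sqrt (by positivity), le_div_iff₀ hDp]
    calc 38107 / 10000 / r * √(sD2 (r * δ) y) ≤ 38107 / 10000 / r * (16488 / 10000 * (r * δ)) := by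
          gcongr
      _ = 38107 / 10000 * (16488 / 10000) * δ := by field_simp
      _ ≤ 2 * Real.pi * δ := by
          refine mul_le_mul_of_nonneg_right ?_ hδ.le
          refine le_trans ?_ p1
          norm_num
  have hGn : 0 ≤ sG r δ y := Real.sqrt_nonneg _
  have key : ∀ α K : ℝ, 0 ≤ K → r * Real.exp (-(2 * α * r)) ≤ K ^ (2 : ℕ) * (38107 / 10000) →
      Real.exp (-(α * r)) ≤ K * sG r δ y := by
    intro α K hK h
    refine abs_le_of_sq_le_sq' ?_ (by positivity) |>.2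
    have e : Real.exp (-(α * r)) ^ (2 : ℕ) = Real.exp (-(2 * α * r)) := by
      rw [← Real.exp_nat_mul]
      congr 1
      push_cast
      ring
    rw [e, mul_pow]
    calc Real.exp (-(2 * α * r)) = (r * Real.exp (-(2 * α * r))) / r := by field_simp
      _ ≤ K ^ (2 : ℕ) * (38107 / 10000) / r := by gcongr
      _ = K ^ (2 : ℕ) * (38107 / 10000 / r) := by ring
      _ ≤ K ^ (2 : ℕ) * sG r δ y ^ (2 : ℕ) := by gcongr
  have e1 : (27182818 / 10000000 : ℝ) ≤ Real.exp 1 := by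
    have := Real.exp_one_gt_d9
    norm_num at this ⊢
    linarith only [this]
  constructor
  · refine key (23 / 100) (376 / 10000000) (by norm_num) ?_
    refine t2_decay (by norm_num) hr ?_
    have e2 : (499 / 10 * (2 * (23 / 100)) : ℝ) = (22 : ℕ) * 1 + (2 : ℕ) * (477 / 1000) := by
      norm_num
    have e3 := Real.sum_le_exp_of_nonneg (x := 477 / 1000) (by norm_num) 5
    simp only [Finset.sum_range_succ, Finset.sum_range_zero, Nat.factorial] at e3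
    norm_num at e3
    rw [e2, Real.exp_add, Real.exp_nat_mul, Real.exp_nat_mul]
    calc (499 / 10 : ℝ) ≤ (376 / 10000000) ^ (2 : ℕ) * (38107 / 10000) *
          ((27182818 / 10000000) ^ (22 : ℕ) * (1610 / 1000) ^ (2 : ℕ)) := by norm_num
      _ ≤ (376 / 10000000) ^ (2 : ℕ) * (38107 / 10000) *
          (Real.exp 1 ^ (22 : ℕ) * Real.exp (477 / 1000) ^ (2 : ℕ)) := by
          gcongr
          linarith only [e3]
  · refine key (1 / 4) (139 / 10000000) (by norm_num) ?_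
    refine t2_decay (by norm_num) hr ?_
    have e2 : (499 / 10 * (2 * (1 / 4)) : ℝ) = (24 : ℕ) * 1 + (2 : ℕ) * (475 / 1000) := by
      norm_num
    have e3 := Real.sum_le_exp_of_nonneg (x := 475 / 1000) (by norm_num) 5
    simp only [Finset.sum_range_succ, Finset.sum_range_zero, Nat.factorial] at e3
    norm_num at e3
    rw [e2, Real.exp_add, Real.exp_nat_mul, Real.exp_nat_mul]
    calc (499 / 10 : ℝ) ≤ (139 / 10000000) ^ (2 : ℕ) * (38107 / 10000) *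
          ((27182818 / 10000000) ^ (24 : ℕ) * (1606 / 1000) ^ (2 : ℕ)) := by norm_num
      _ ≤ (139 / 10000000) ^ (2 : ℕ) * (38107 / 10000) *
          (Real.exp 1 ^ (24 : ℕ) * Real.exp (475 / 1000) ^ (2 : ℕ)) := by
          gcongr
          norm_num
          linarith only [e3]

/-! ### both half lines -/

theorem t2_split {f : ℝ → ℝ} (hf : Integrable f) :
    ∫ s in {s : ℝ | 3 / 2 ≤ |s|}, f s =
      (∫ s in Ici (3 / 2), f (1 * s)) + ∫ s in Ici (3 / 2), f (-1 * s) := by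
  have e1 : {s : ℝ | 3 / 2 ≤ |s|} = Ici (3 / 2) ∪ Iic (-(3 / 2)) := by
    ext s
    simp only [mem_setOf_eq, mem_union, mem_Ici, mem_Iic, le_abs]
    constructor
    · rintro (h | h)
      · exact Or.inl h
      · exact Or.inr (by linarith only [h])
    · rintro (h | h)
      · exact Or.inl h
      · exact Or.inr (by linarith only [h])
  have d : Disjoint (Ici (3 / 2 : ℝ)) (Iic (-(3 / 2))) := by
    rw [Set.disjoint_left]
    intro x hx hx2
    have := mem_Ici.1 hx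
    have := mem_Iic.1 hx2
    linarith
  have e2 : ∫ s in Iic (-(3 / 2)), f s = ∫ s in Ici (3 / 2), f (-s) := by
    have mp := Measure.measurePreserving_neg (volume : Measure ℝ)
    have h := mp.setIntegral_preimage_emb (Homeomorph.neg ℝ).measurableEmbedding f
      (Iic (-(3 / 2)))
    have hpre : (Neg.neg ⁻¹' Iic (-(3 / 2)) : Set ℝ) = Ici (3 / 2) := by
      ext x
      simp
    rw [← hpre]
    exact h.symm
  rw [e1, setIntegral_union d measurableSet_Iic hf.integrableOn hf.integrableOn, e2]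
  simp only [one_mul, neg_mul]

theorem t2_both {w : ℂ → ℂ} {K B1 B2 B3 Q r δ y : ℝ} (hw : WtB w K B1 B2 B3 Q)
    (hδ : 0 < δ) (hx : 3 / 2 ≤ sx (r * δ) y) (hy : |y| < ta (sx (r * δ) y))
    (hT1 : TH 1 (sx (r * δ) y) y (1 / δ) (r * δ))
    (hT2 : TH (-1) (sx (r * δ) y) (-y) (1 / δ) (r * δ)) (hQ : Q * (54 / 100000) < 1) :
    Tls r δ y (bs r δ y) w ≤
      8 * (108 / 100 * (B1 * Real.exp (-(23 / 100 * r)))) +
      1 / (1 - Q * (54 / 100000)) *
        (B2 * tS r δ y + 94 / 10 * (B3 * Real.exp (-(1 / 4 * r)))) := by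
  have hx0 : 0 ≤ sx (r * δ) y := by linarith only [hδ, hx]
  have h1x : 0 < 1 + sx (r * δ) y := by linarith only [hx0]
  obtain ⟨ts0, ts1, ts2, ta0, ta1⟩ := t2_ts hx0
  have hc0 : 0 < (1 + sx (r * δ) y)⁻¹ := inv_pos.2 h1x
  have hk : |((((sx (r * δ) y : ℝ) : ℂ) + y * I) / δ : ℂ).im| <
      (1 + sx (r * δ) y)⁻¹ * ts (sx (r * δ) y) / δ := by
    have e : ((((sx (r * δ) y : ℝ) : ℂ) + y * I) / δ : ℂ) =
        ((1 / δ : ℝ) : ℂ) * (((sx (r * δ) y : ℝ) : ℂ) + y * I) := by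
      push_cast; ring
    have e2 : (((sx (r * δ) y : ℝ) : ℂ) + y * I).im = y := by simp
    rw [e, Complex.im_ofReal_mul, e2, abs_mul, abs_of_pos (by positivity : 0 < 1 / δ), one_div,
      inv_mul_eq_div]
    exact div_lt_div_of_pos_right hy hδ
  have hint := (int_gi hc0 ts0 ta1 hδ hk hw.wt).norm
  have a1 := t2_half hw (Or.inl rfl) hx hδ hy (by rwa [one_mul]) hQ
  have a2 := t2_half hw (Or.inr rfl) hx hδ hy (by rwa [neg_one_mul]) hQ
  rw [one_mul] at a1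
  rw [neg_one_mul] at a2
  have e0 : Tls r δ y (bs r δ y) w = ∫ s in {s : ℝ | 3 / 2 ≤ |s|},
      ‖gi (1 + sx (r * δ) y)⁻¹ (ts (sx (r * δ) y)) w ((((sx (r * δ) y : ℝ) : ℂ) + y * I) / δ) 0
        (-((δ : ℂ) * I)) s‖ := rfl
  rw [e0, t2_split hint]
  refine (add_le_add a1 a2).trans (le_of_eq ?_)
  unfold tS
  ring

theorem t2_x {r δ y : ℝ} (hS : Sad2 r δ y) : 3 / 2 ≤ sx (r * δ) y := by
  have h1 := hS.D
  have h2 := hS.hi
  have h3 := hS.lo
  have h4 := sx_nonneg (r * δ) y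
  unfold sD2 at h1
  by_contra h
  push Not at h
  have h5 : (1 + y) ^ (2 : ℕ) ≤ (33 / 20) ^ (2 : ℕ) := pow_le_pow_left₀ (by linarith only [h3]) (by linarith only [h2]) 2
  have h6 : sx (r * δ) y ^ (2 : ℕ) < (3 / 2) ^ (2 : ℕ) := pow_lt_pow_left₀ h h4 two_ne_zero
  norm_num at h5 h6
  linarith only [h1, h5, h6]

/-- **PIECE CORE** -/
theorem ptCore : PTCore := by
  intro r δ y hr hδ hD hS hT1 hT2
  have hx := t2_x hS
  have hta : |y| < ta (sx (r * δ) y) := by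
    have h1 := hT1.lam
    have h2 := hT2.lam
    have hw : 0 < 1 / δ := by positivity
    rw [abs_lt]
    constructor
    · by_contra h
      push Not at h
      have : 1 / δ * (ta (sx (r * δ) y) - -y) ≤ 0 :=
        mul_nonpos_of_nonneg_of_nonpos hw.le (by linarith only [h])
      linarith only [h2, this]
    · by_contra h
      push Not at h
      have : 1 / δ * (ta (sx (r * δ) y) - y) ≤ 0 :=
        mul_nonpos_of_nonneg_of_nonpos hw.le (by linarith only [h])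
      linarith only [h1, this]
  obtain ⟨g1, g3⟩ := t2_G hr hδ hD hS
  have hE1 := Real.exp_pos (-(23 / 100 * r))
  have hE3 := Real.exp_pos (-(1 / 4 * r))
  have hGn : 0 ≤ sG r δ y := Real.sqrt_nonneg _
  have hS0 : 0 ≤ tS r δ y := by
    unfold tS tP
    positivity
  refine ⟨?_, ?_, ?_⟩
  · refine (t2_both t2_W0 hδ hx hta hT1 hT2 (by norm_num)).trans ?_
    have c : (1 / (1 - 1 * (54 / 100000)) : ℝ) ≤ 1001 / 1000 := by norm_num
    calc _ ≤ 8 * (108 / 100 * (1 * (376 / 10000000 * sG r δ y))) +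
          1001 / 1000 * (1 * tS r δ y + 94 / 10 * (1 * (139 / 10000000 * sG r δ y))) := by
          gcongr
      _ ≤ _ := by linarith only [hGn]
  · refine (t2_both t2_W1 hδ hx hta hT1 hT2 (by norm_num)).trans ?_
    have c : (1 / (1 - 328 / 100 * (54 / 100000)) : ℝ) ≤ 10018 / 10000 := by norm_num
    calc _ ≤ 8 * (108 / 100 * (93 / 10 * (376 / 10000000 * sG r δ y))) +
          10018 / 10000 * (645 / 100 * tS r δ y +
            94 / 10 * (1553 / 100 * (139 / 10000000 * sG r δ y))) := by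
          gcongr
      _ ≤ _ := by linarith only [hGn, hS0]
  · refine (t2_both t2_W2 hδ hx hta hT1 hT2 (by norm_num)).trans ?_
    have c : (1 / (1 - 705 / 100 * (54 / 100000)) : ℝ) ≤ 1004 / 1000 := by norm_num
    calc _ ≤ 8 * (108 / 100 * (518 / 10 * (376 / 10000000 * sG r δ y))) +
          1004 / 1000 * (42 * tS r δ y +
            94 / 10 * (1834 / 10 * (139 / 10000000 * sG r δ y))) := by
          gcongr
      _ ≤ _ := by linarith only [hGn, hS0]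

end SokamV3

end

/-! ### Lib_MP_af4de1_v3o.OMR -/

section
namespace SokamF1G
end SokamF1G
namespace SokamPB
end SokamPB
set_option autoImplicit false

namespace SokamV3O

open Real SokamF1G SokamPB

/-! ### polynomials in `c = 1/(1+x)` and `s` -/

private def eT : E := .mul .X .Y
private def eE : E :=
  .add (.add (.add (.add (.c 1) eT) (.dv (.pow eT 2) 2)) (.dv (.pow eT 3) 6)) (.dv (.pow eT 4) 17)
private def eN4 : E :=
  .add (.sub (.add (.sub (.c 1) eT) (.dv (.pow eT 2) 2)) (.dv (.pow eT 3) 6)) (.dv (.pow eT 4) 24)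
private def eN3 : E := .sub (.add (.sub (.c 1) eT) (.dv (.pow eT 2) 2)) (.dv (.pow eT 3) 6)
private def eC : E := .add (.sub (.c 1) (.dv (.pow .Y 2) 2)) (.dv (.pow .Y 4) 24)
private def eS5 : E := .add (.sub .Y (.dv (.pow .Y 3) 6)) (.dv (.pow .Y 5) 120)
private def eS3 : E := .sub .Y (.dv (.pow .Y 3) 6)
private def eD : E := .add (.sub (.c 1) .X) (.pow .X 2)
private def eU : E := .sub (.c 1) .X

private def eK : E := .sub (.sub (.add (.c 1) eT) (.mul eE eC))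
  (.dv (.mul (.sub (.c 1) (.pow .X 2)) (.pow .Y 2)) 4)
private def eB : E := .sub (.mul eE eS5) .Y
private def eR0 : E := .add (.dv (.pow eT 2) 2) (.mul eU eK)
private def eR1 : E := .add (.sub eR0 (.dv (.mul (.mul (.c 4) eU) eB) 5))
  (.dv (.mul (.mul (.mul (.c 2) .X) eU) (.pow .Y 2)) 5)
private def eR2 : E := .dv (.mul (.mul (.mul (.c 21) (.pow .X 2)) eU) eB) 25
private def eR01 : E := .sub (.mul eD eR0) eR2
private def eR11 : E := .sub (.mul eD eR1) eR2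

private def eKl : E := .sub (.sub (.sub (.c 1) eT) (.mul eN4 eC))
  (.dv (.mul (.sub (.c 1) (.pow .X 2)) (.pow .Y 2)) 5)
private def eM : E := .sub (.sub .Y (.mul eN3 eS3)) (.dv (.mul (.mul (.c 2) .X) (.pow .Y 2)) 5)
private def eBl : E := .sub .Y (.mul eN3 (.sub (.dv (.mul (.c 19) eS3) 20) (.dv (.c 1) 5)))
private def eL0 : E := .add (.dv (.mul (.c 3) (.pow eT 2)) 5) (.mul eU eKl)
private def eL1 : E := .sub eL0 (.dv (.mul (.mul (.c 53) .X) eM) 100)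
private def eL01 : E := .sub (.mul eD eL0) (.dv (.mul (.mul (.mul (.c 21) eU) (.pow .X 2)) eBl) 25)
private def eL11 : E := .add (.sub (.mul eD eL1)
  (.dv (.mul (.mul (.mul (.c 21) eU) (.pow .X 2)) eBl) 25)) (.dv (.mul (.mul (.c 1113) eU) .X) 2500)

/-- clamped, `x = |s| - 1` -/
private def eP2 : E := .add (.sub .Y (.dv (.pow .Y 2) 2)) (.mul (.sub .Y (.c 1))
  (.sub (.add (.dv (.c (-259)) 250) (.dv (.mul (.c 4) .Y) 5)) (.dv (.mul (.c 68) eC) 25)))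
private def eP4 : E := .add (.sub .Y (.dv (.mul (.c 2) (.pow .Y 2)) 5)) (.mul (.sub .Y (.c 1))
  (.sub (.add (.sub (.dv (.c (-3)) 4) (.dv (.mul (.c 37) eC) 100)) (.dv (.mul (.c 7) (.pow .Y 2)) 45))
    (.dv (.mul (.c 4) (.sub (.sub .Y (.dv (.c 1) 4)) (.dv (.mul (.c 4) (.pow .Y 2)) 15))) 5)))

private theorem rP2 : runQ eP2.toQ 6 0 101 100 100 151 100 = true := by decide +kernel
private theorem rP4 : runQ eP4.toQ 6 0 101 100 100 151 100 = true := by decide +kernel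
private theorem rR0 : runQ eR0.toQ 6 0 101 100 100 151 100 = true := by decide +kernel
private theorem rR1 : runQ eR1.toQ 6 0 101 100 100 151 100 = true := by decide +kernel
private theorem rR01 : runQ eR01.toQ 6 0 101 100 100 151 100 = true := by decide +kernel
private theorem rR11 : runQ eR11.toQ 6 0 101 100 100 151 100 = true := by decide +kernel
private theorem rL0 : runQ eL0.toQ 6 0 101 100 100 151 100 = true := by decide +kernel
private theorem rL1 : runQ eL1.toQ 6 0 101 100 100 151 100 = true := by decide +kernel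
private theorem rL01 : runQ eL01.toQ 6 0 101 100 100 151 100 = true := by decide +kernel
private theorem rL11 : runQ eL11.toQ 6 0 101 100 100 151 100 = true := by decide +kernel

private theorem box {e : E} (he : runQ e.toQ 6 0 101 100 100 151 100 = true) {c s : ℝ}
    (h1 : 0 ≤ c) (h2 : c ≤ 1) (h3 : 1 ≤ s) (h4 : s ≤ 3 / 2) : 0 ≤ e.eval c s := by
  refine e.nonneg 6 (by norm_num) (by norm_num) he ?_ ?_ ?_ ?_ <;> push_cast <;> linarith

private theorem pR {c s N W : ℝ} (h1 : 0 ≤ c) (h2 : c ≤ 1) (h3 : 1 ≤ s) (h4 : s ≤ 3 / 2)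
    (hN0 : 0 ≤ N) (hN1 : N ≤ 4 / 5 * (1 - c)) (hW0 : 0 ≤ W)
    (hW1 : (1 - c + c ^ (2 : ℕ)) * W ≤ 21 / 25 * c ^ (2 : ℕ) * (1 - c)) :
    0 ≤ c ^ (2 : ℕ) * s ^ (2 : ℕ) + W * s + N * s + (1 - c) * (1 + c * s) -
      (1 - c) * ((1 + c * s + (c * s) ^ (2 : ℕ) / 2 + (c * s) ^ (3 : ℕ) / 6 + (c * s) ^ (4 : ℕ) / 17) *
        (1 - s ^ (2 : ℕ) / 2 + s ^ (4 : ℕ) / 24)) -
      (W + N) * ((1 + c * s + (c * s) ^ (2 : ℕ) / 2 + (c * s) ^ (3 : ℕ) / 6 + (c * s) ^ (4 : ℕ) / 17) *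
        (s - s ^ (3 : ℕ) / 6 + s ^ (5 : ℕ) / 120)) -
      1 / 2 * s ^ (2 : ℕ) * (c ^ (2 : ℕ) - c * N + (1 - c) ^ (2 : ℕ) * (1 + c) / 2) := by
  have q0 := box rR0 h1 h2 h3 h4
  have q1 := box rR1 h1 h2 h3 h4
  have q01 := box rR01 h1 h2 h3 h4
  have q11 := box rR11 h1 h2 h3 h4
  simp only [eR11, eR01, eR1, eR0, eR2, eK, eB, eU, eD, eS5, eC, eE, eT, E.eval] at q0 q1 q01 q11
  push_cast at q0 q1 q01 q11
  obtain ⟨u, hu⟩ : ∃ u, u = 1 + c * s + (c * s) ^ (2 : ℕ) / 2 + (c * s) ^ (3 : ℕ) / 6 + (c * s) ^ (4 : ℕ) / 17 :=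
    ⟨_, rfl⟩
  rw [← hu] at q0 q1 q01 q11 ⊢
  obtain ⟨v, hv⟩ : ∃ v, v = u * (1 - s ^ (2 : ℕ) / 2 + s ^ (4 : ℕ) / 24) := ⟨_, rfl⟩
  obtain ⟨w, hw⟩ : ∃ w, w = u * (s - s ^ (3 : ℕ) / 6 + s ^ (5 : ℕ) / 120) := ⟨_, rfl⟩
  rw [← hv, ← hw] at q1 q01 q11 ⊢
  rw [← hv] at q0
  have hD : 0 < 1 - c + c ^ (2 : ℕ) := by linarith only [sq_nonneg (c - 1 / 2)]
  have a0 : 0 ≤ (c ^ (2 : ℕ) * s ^ (2 : ℕ) + (1 - c) * (1 + c * s) - (1 - c) * v -
      1 / 2 * s ^ (2 : ℕ) * (c ^ (2 : ℕ) + (1 - c) ^ (2 : ℕ) * (1 + c) / 2)) + (s - w + 1 / 2 * c * s ^ (2 : ℕ)) * N :=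
    aff (z0 := 0) (z1 := 4 / 5 * (1 - c)) (q0.trans_eq (by ring)) (q1.trans_eq (by ring)) hN0 hN1
  have a1 : 0 ≤ ((1 - c + c ^ (2 : ℕ)) * (c ^ (2 : ℕ) * s ^ (2 : ℕ) + (1 - c) * (1 + c * s) - (1 - c) * v -
      1 / 2 * s ^ (2 : ℕ) * (c ^ (2 : ℕ) + (1 - c) ^ (2 : ℕ) * (1 + c) / 2)) -
      21 / 25 * c ^ (2 : ℕ) * (1 - c) * (w - s)) +
      (1 - c + c ^ (2 : ℕ)) * (s - w + 1 / 2 * c * s ^ (2 : ℕ)) * N :=
    aff (z0 := 0) (z1 := 4 / 5 * (1 - c)) (q01.trans_eq (by ring)) (q11.trans_eq (by ring))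
      hN0 hN1
  have a2 : 0 ≤ (1 - c + c ^ (2 : ℕ)) * ((c ^ (2 : ℕ) * s ^ (2 : ℕ) + (1 - c) * (1 + c * s) - (1 - c) * v -
      1 / 2 * s ^ (2 : ℕ) * (c ^ (2 : ℕ) + (1 - c) ^ (2 : ℕ) * (1 + c) / 2)) + (s - w + 1 / 2 * c * s ^ (2 : ℕ)) * N) +
      (s - w) * ((1 - c + c ^ (2 : ℕ)) * W) :=
    aff (z0 := 0) (z1 := 21 / 25 * c ^ (2 : ℕ) * (1 - c)) (by
      rw [mul_zero, add_zero]
      exact mul_nonneg hD.le a0) (a1.trans_eq (by ring)) (by (clear * - hD hW0; positivity)) hW1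
  have a3 : 0 ≤ (1 - c + c ^ (2 : ℕ)) * (c ^ (2 : ℕ) * s ^ (2 : ℕ) + W * s + N * s + (1 - c) * (1 + c * s) -
      (1 - c) * v - (W + N) * w - 1 / 2 * s ^ (2 : ℕ) * (c ^ (2 : ℕ) - c * N + (1 - c) ^ (2 : ℕ) * (1 + c) / 2)) :=
    a2.trans_eq (by ring)
  exact nonneg_of_mul_nonneg_right a3 hD

private theorem pL {c v n θ : ℝ} (h1 : 0 ≤ c) (h2 : c ≤ 1) (h3 : 1 ≤ v) (h4 : v ≤ 3 / 2)
    (hn0 : 0 ≤ n) (hn1 : n ≤ 53 / 100) (hθ0 : 0 ≤ θ) (hθ1 : θ ≤ 21 / 25) :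
    0 ≤ (1 - c + c ^ (2 : ℕ)) * (3 / 5 * c ^ (2 : ℕ) * v ^ (2 : ℕ) + (1 - c) *
      (1 - c * v - (1 - c * v + (c * v) ^ (2 : ℕ) / 2 - (c * v) ^ (3 : ℕ) / 6 + (c * v) ^ (4 : ℕ) / 24) *
        (1 - v ^ (2 : ℕ) / 2 + v ^ (4 : ℕ) / 24) - (1 - c ^ (2 : ℕ)) * v ^ (2 : ℕ) / 5) -
      c * n * (v - (1 - c * v + (c * v) ^ (2 : ℕ) / 2 - (c * v) ^ (3 : ℕ) / 6) * (v - v ^ (3 : ℕ) / 6) -
        2 / 5 * c * v ^ (2 : ℕ))) -
      (1 - c) * c ^ (2 : ℕ) * θ * (v - (1 - c * v + (c * v) ^ (2 : ℕ) / 2 - (c * v) ^ (3 : ℕ) / 6) *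
        (19 / 20 * (v - v ^ (3 : ℕ) / 6) - 1 / 5)) + n * (1 - c) * c * θ := by
  have q0 := box rL0 h1 h2 h3 h4
  have q1 := box rL1 h1 h2 h3 h4
  have q01 := box rL01 h1 h2 h3 h4
  have q11 := box rL11 h1 h2 h3 h4
  simp only [eL11, eL01, eL1, eL0, eKl, eM, eBl, eU, eD, eS3, eC, eN3, eN4, eT, E.eval]
    at q0 q1 q01 q11
  push_cast at q0 q1 q01 q11
  obtain ⟨a, ha⟩ : ∃ a, a = (1 - c * v + (c * v) ^ (2 : ℕ) / 2 - (c * v) ^ (3 : ℕ) / 6 + (c * v) ^ (4 : ℕ) / 24) *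
        (1 - v ^ (2 : ℕ) / 2 + v ^ (4 : ℕ) / 24) := ⟨_, rfl⟩
  obtain ⟨b, hb⟩ : ∃ b, b = (1 - c * v + (c * v) ^ (2 : ℕ) / 2 - (c * v) ^ (3 : ℕ) / 6) * (v - v ^ (3 : ℕ) / 6) :=
    ⟨_, rfl⟩
  obtain ⟨d, hd⟩ : ∃ d, d = (1 - c * v + (c * v) ^ (2 : ℕ) / 2 - (c * v) ^ (3 : ℕ) / 6) *
        (19 / 20 * (v - v ^ (3 : ℕ) / 6) - 1 / 5) := ⟨_, rfl⟩
  have hd' : (1 - c * v + (c * v) ^ (2 : ℕ) / 2 - (c * v) ^ (3 : ℕ) / 6) *
        (19 * (v - v ^ (3 : ℕ) / 6) / 20 - 1 / 5) = d := by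
    rw [hd]
    ring
  rw [← ha, ← hb] at q1 q11
  rw [← ha] at q0 q01
  rw [hd'] at q01 q11
  rw [← ha, ← hb, ← hd]
  have hD : 0 < 1 - c + c ^ (2 : ℕ) := by linarith only [sq_nonneg (c - 1 / 2)]
  have a0 : 0 ≤ (3 / 5 * c ^ (2 : ℕ) * v ^ (2 : ℕ) + (1 - c) * (1 - c * v - a - (1 - c ^ (2 : ℕ)) * v ^ (2 : ℕ) / 5)) +
      (-c * (v - b - 2 / 5 * c * v ^ (2 : ℕ))) * n :=
    aff (z0 := 0) (z1 := 53 / 100) (q0.trans_eq (by ring)) (q1.trans_eq (by ring)) hn0 hn1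
  have a1 : 0 ≤ ((1 - c + c ^ (2 : ℕ)) * (3 / 5 * c ^ (2 : ℕ) * v ^ (2 : ℕ) +
      (1 - c) * (1 - c * v - a - (1 - c ^ (2 : ℕ)) * v ^ (2 : ℕ) / 5)) -
      (1 - c) * c ^ (2 : ℕ) * (21 / 25) * (v - d)) +
      ((1 - c + c ^ (2 : ℕ)) * (-c * (v - b - 2 / 5 * c * v ^ (2 : ℕ))) + (1 - c) * c * (21 / 25)) * n :=
    aff (z0 := 0) (z1 := 53 / 100) (q01.trans_eq (by ring)) (q11.trans_eq (by ring)) hn0 hn1
  have a2 : 0 ≤ (1 - c + c ^ (2 : ℕ)) * ((3 / 5 * c ^ (2 : ℕ) * v ^ (2 : ℕ) +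
      (1 - c) * (1 - c * v - a - (1 - c ^ (2 : ℕ)) * v ^ (2 : ℕ) / 5)) +
      (-c * (v - b - 2 / 5 * c * v ^ (2 : ℕ))) * n) +
      (n * (1 - c) * c - (1 - c) * c ^ (2 : ℕ) * (v - d)) * θ :=
    aff (z0 := 0) (z1 := 21 / 25) (by
      rw [mul_zero, add_zero]
      exact mul_nonneg hD.le a0) (a1.trans_eq (by ring)) hθ0 hθ1
  exact a2.trans_eq (by ring)

private theorem omr_pa {x s : ℝ} (hx : 0 < x) (h1 : s ≤ 4) :
    pa x s = min 1 (s / (1 + x)) := by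
  unfold pa a4
  have h2 : s / (1 + x) ≤ 4 / (1 + x) := by
    apply div_le_div_of_nonneg_right h1
    linarith only [hx]
  rw [min_comm 1 (4 / (1 + x)), ← min_assoc, min_eq_left h2, min_comm]

private theorem omr_Q {x n c : ℝ} (hx : 0 ≤ x) (hc : c = 1 / (1 + x)) :
    c * Qf x (-n) = c ^ (2 : ℕ) * (1 - n) + (1 - c) ^ (2 : ℕ) * (1 + c) / 2 := by
  obtain ⟨k1, k2, k3⟩ := c_facts hx
  rw [← hc] at k1 k2 k3
  have hQ : Qf x (-n) = (1 + -n) * c + x * (1 - c ^ (2 : ℕ)) / 2 := by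
    unfold Qf
    rw [hc]
    ring
  rw [hQ]
  linear_combination ((1 - c ^ (2 : ℕ)) / 2) * k3

/-- facts on `τ` -/
private theorem omr_τ {x z τ c : ℝ} (hx : 0 ≤ x) (hc : c = 1 / (1 + x))
    (hzτ : z = x * (1 + x) * τ) (hζ : z + τ ≤ 21 / 25) :
    (1 - c + c ^ (2 : ℕ)) * τ ≤ 21 / 25 * c ^ (2 : ℕ) ∧ c ^ (2 : ℕ) * z = (1 - c) * τ ∧ c * z = x * τ := by
  obtain ⟨k1, k2, k3⟩ := c_facts hx
  rw [← hc] at k1 k2 k3
  have k4 : c * (1 + x) = 1 := by linarith only [k3]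
  have hN : c ^ (2 : ℕ) * (1 + x + x ^ (2 : ℕ)) = 1 - c + c ^ (2 : ℕ) := by
    linear_combination (c * x + 1) * k3
  have hτN : (1 + x + x ^ (2 : ℕ)) * τ ≤ 21 / 25 := by
    rw [hzτ] at hζ
    linarith only [hζ]
  refine ⟨?_, ?_, ?_⟩
  · rw [← hN]
    have := mul_le_mul_of_nonneg_left hτN (sq_nonneg c)
    linarith only [this]
  · rw [hzτ]
    linear_combination (x * c * τ) * k4 + τ * k3
  · rw [hzτ]
    linear_combination (x * τ) * k4

private theorem pP2 {s : ℝ} (h3 : 1 ≤ s) (h4 : s ≤ 3 / 2) :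
    0 ≤ (s - s ^ (2 : ℕ) / 2) + (-259 / 250 + 4 / 5 * s - 68 / 25 * (1 - s ^ (2 : ℕ) / 2 + s ^ (4 : ℕ) / 24)) *
      (s - 1) := by
  have q := box (c := 0) rP2 le_rfl zero_le_one h3 h4
  simp only [eP2, eC, E.eval] at q
  push_cast at q
  exact q.trans_eq (by ring)

private theorem pP4 {v : ℝ} (h3 : 1 ≤ v) (h4 : v ≤ 3 / 2) :
    0 ≤ (v - 2 / 5 * v ^ (2 : ℕ)) + (-3 / 4 - 37 / 100 * (1 - v ^ (2 : ℕ) / 2 + v ^ (4 : ℕ) / 24) + 7 / 45 * v ^ (2 : ℕ) -
      4 / 5 * (v - 1 / 4 - 4 / 15 * v ^ (2 : ℕ))) * (v - 1) := by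
  have q := box (c := 0) rP4 le_rfl zero_le_one h3 h4
  simp only [eP4, eC, E.eval] at q
  push_cast at q
  exact q.trans_eq (by ring)

/-- facts in the clamped case -/
private theorem omr_cl {x n c s : ℝ} (hx : 0 ≤ x) (hn : 0 ≤ n) (hc : c = 1 / (1 + x))
    (h1 : s ≤ 3 / 2) (hcs : 1 ≤ c * s) :
    x ≤ s - 1 ∧ 2 / 3 ≤ c ∧ Qf x (-n) ≤ 1 - 7 / 18 * x - c * n := by
  obtain ⟨k1, k2, k3⟩ := c_facts hx
  rw [← hc] at k1 k2 k3
  have k4 : c * (1 + x) = 1 := by linarith only [k3]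
  have b1 : x ≤ s - 1 := by
    have h2 := mul_le_mul_of_nonneg_right hcs (by linarith : (0:ℝ) ≤ 1 + x)
    have h3 : c * s * (1 + x) = s := by
      linear_combination s * k4
    linarith only [h2, h3]
  have b2 : 2 / 3 ≤ c := by
    have := mul_le_mul_of_nonneg_left h1 k1.le
    linarith only [hcs, this]
  refine ⟨b1, b2, ?_⟩
  have hQ : Qf x (-n) = (1 + -n) * c + x * (1 - c ^ (2 : ℕ)) / 2 := by
    unfold Qf
    rw [hc]
    ring
  have h4 : (2 / 3) ^ (2 : ℕ) ≤ c ^ (2 : ℕ) := pow_le_pow_left₀ (by norm_num) b2 2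
  have h5 : 7 / 9 ≤ c ^ (2 : ℕ) + 2 * c - 1 := by linarith only [b2, h4]
  have h6 := mul_le_mul_of_nonneg_left h5 hx
  rw [hQ]
  have h7 : (1 + -n) * c + x * (1 - c ^ (2 : ℕ)) / 2 = 1 - c * n - x * (c ^ (2 : ℕ) + 2 * c - 1) / 2 := by
    linear_combination k4
  rw [h7]
  linarith only [h6]

/-- `1 ≤ |s| ≤ 3/2`, right side, `s > 0` (true `.668`) -/
theorem mRr {x n z τ k ψ s : ℝ} (h : ShR x n z τ k ψ) (h0 : 1 ≤ s) (h1 : s ≤ 3 / 2) :
    1 / 2 * Qf x (-n) * s ^ (2 : ℕ) ≤ Hc x (-n) (-z) (-τ) (pa x s) s := by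
  have hx := h.x0
  have hn := h.y0
  have hT := h.T
  have hz := h.z0
  have hτ := h.τ0
  have hτ1 := h.τ1
  have hs0 : 0 ≤ s := by linarith only [h0]
  have hx1 : 0 < 1 + x := by linarith only [hn, hT]
  have hpa := omr_pa (s := s) hx (by linarith only [h1])
  obtain ⟨k1, k2, k3⟩ := c_facts hx.le
  obtain ⟨c, hc⟩ : ∃ c, c = 1 / (1 + x) := ⟨_, rfl⟩
  obtain ⟨t1, t2, t3⟩ := omr_τ hx.le hc h.zτ h.ζ
  have hq := omr_Q (n := n) hx.le hc
  rw [← hc] at k1 k2 k3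
  have hcs : 0 ≤ c * s := mul_nonneg k1.le hs0
  have hcs2 : c * s ≤ 3 / 2 := by nlinarith only [h1, k2, k1]
  have hpi := pi_gt_three
  have hcos : cos (s + -τ) ≤ cos s + τ * sin s := by
    have e : cos (s + -τ) = cos s * cos τ + sin s * sin τ := by
      rw [← sub_eq_add_neg, cos_sub]
    have c0 : 0 ≤ cos s := cos_nonneg_of_neg_pi_div_two_le_of_le (by linarith only [hs0, hpi]) (by linarith only [h1, hpi])
    have s0 : 0 ≤ sin s := sin_nonneg_of_nonneg_of_le_pi hs0 (by linarith only [h1, hpi])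
    have e1 := mul_le_mul_of_nonneg_left (cos_le_one τ) c0
    have e2 := mul_le_mul_of_nonneg_left (sin_le1 hτ) s0
    rw [e]
    linarith only [e1, e2]
  have hsin : sin (s + -τ) ≤ sin s :=
    sin_le_sin_of_le_of_le_pi_div_two (by linarith only [hτ1, hs0, hpi]) (by linarith only [h1, hpi]) (by linarith only [hτ])
  have hD : 0 < 1 - c + c ^ (2 : ℕ) := by linarith only [sq_nonneg (c - 1 / 2)]
  rcases le_total (c * s) 1 with hcs1 | hcs1
  · have ha : pa x s = c * s := by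
      rw [hpa, hc]
      have e : s / (1 + x) = 1 / (1 + x) * s := by ring
      rw [e, ← hc, min_eq_right hcs1]
    rw [ha]
    have A1 := ec_le hs0 h1 (e_le3' hcs hcs2)
    have A2 := es_le hs0 h1 (e_le3' hcs hcs2)
    have hN0 : 0 ≤ c * n := mul_nonneg k1.le hn
    have hN1 : c * n ≤ 4 / 5 * (1 - c) := by
      have := mul_le_mul_of_nonneg_left hT k1.le
      linarith only [k3, this]
    have hW0 : 0 ≤ (1 - c) * τ := mul_nonneg (by linarith only [hN0, hN1]) hτ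
    have hW1 : (1 - c + c ^ (2 : ℕ)) * ((1 - c) * τ) ≤ 21 / 25 * c ^ (2 : ℕ) * (1 - c) := by
      have := mul_le_mul_of_nonneg_right t1 (sub_nonneg.2 k2)
      linarith only [this]
    have hP := pR k1.le k2 h0 h1 hN0 hN1 hW0 hW1
    obtain ⟨E, hE⟩ : ∃ E, E = 1 + c * s + (c * s) ^ (2 : ℕ) / 2 + (c * s) ^ (3 : ℕ) / 6 + (c * s) ^ (4 : ℕ) / 17 :=
      ⟨_, rfl⟩
    rw [← hE] at A1 A2 hP
    have B1 := mul_le_mul_of_nonneg_left A1 (sub_nonneg.2 k2)
    have B2 := mul_le_mul_of_nonneg_left A2 (add_nonneg hW0 hN0)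
    have B3 : exp (c * s) * ((1 - c) * cos (s + -τ) + c * n * sin (s + -τ)) ≤
        exp (c * s) * ((1 - c) * (cos s + τ * sin s) + c * n * sin s) := by
      refine mul_le_mul_of_nonneg_left ?_ (exp_pos _).le
      exact add_le_add (mul_le_mul_of_nonneg_left hcos (sub_nonneg.2 k2))
        (mul_le_mul_of_nonneg_left hsin hN0)
    have hNz : 0 ≤ c * n * z := mul_nonneg hN0 hz
    have key : 0 ≤ c * (Hc x (-n) (-z) (-τ) (c * s) s - 1 / 2 * Qf x (-n) * s ^ (2 : ℕ)) := by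
      have e : c * (Hc x (-n) (-z) (-τ) (c * s) s - 1 / 2 * Qf x (-n) * s ^ (2 : ℕ)) =
          c ^ (2 : ℕ) * s ^ (2 : ℕ) + s * (c ^ (2 : ℕ) * z) + c * n * s + c * n * z + (c * x) * (1 + c * s) -
            exp (c * s) * ((c * x) * cos (s + -τ) + c * n * sin (s + -τ)) -
            1 / 2 * s ^ (2 : ℕ) * (c * Qf x (-n)) := by
        unfold Hc
        ring
      rw [e, t2, k3, hq]
      linarith only [hP, B1, B2, B3, hNz]
    have := nonneg_of_mul_nonneg_right key k1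
    linarith only [this]
  · have ha : pa x s = 1 := by
      rw [hpa]
      have e : s / (1 + x) = c * s := by rw [hc]; ring
      rw [e, min_eq_left hcs1]
    rw [ha]
    obtain ⟨b1, b2, b3⟩ := omr_cl (n := n) hx.le hn hc h1 hcs1
    have hs2 : 0 ≤ s ^ (2 : ℕ) := sq_nonneg s
    have hQ1 : 1 / 2 * Qf x (-n) * s ^ (2 : ℕ) ≤ s ^ (2 : ℕ) / 2 := by
      have h2 : Qf x (-n) ≤ 1 := by linarith only [hx, b3, mul_nonneg k1.le hn]
      have := mul_le_mul_of_nonneg_right h2 hs2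
      linarith only [this]
    have he1 : exp 1 ≤ 68 / 25 := by
      have := exp_one_lt_d9
      linarith only [this]
    have he0 : 0 ≤ exp 1 := (exp_pos _).le
    obtain ⟨C, hC⟩ : ∃ C, C = 1 - s ^ (2 : ℕ) / 2 + s ^ (4 : ℕ) / 24 := ⟨_, rfl⟩
    have hC0 : 0 ≤ C := by rw [hC]; exact C4_nonneg hs0 h1
    have hcC : cos s ≤ C := by rw [hC]; exact cos_le4 hs0
    have hcC2 : cos (s + -τ) ≤ C + τ := by
      have := mul_le_mul_of_nonneg_left (sin_le_one s) hτ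
      linarith only [hcos, hcC, this]
    have hsn : sin (s + -τ) ≤ 1 := sin_le_one _
    have hzx : x * τ ≤ z := by
      rw [h.zτ]
      have : 0 ≤ x * x * τ := by (clear * - hx hτ; positivity)
      linarith only [this]
    have hnz : 0 ≤ n * z := mul_nonneg hn hz
    have hxτ : 0 ≤ x * τ := mul_nonneg hx.le hτ
    have hxτ2 : x * τ ≤ x * (1 / 2) := mul_le_mul_of_nonneg_left hτ1 hx.le
    -- products with `exp 1`
    have m1 : exp 1 * (x * cos (s + -τ) + n * sin (s + -τ)) ≤ 68 / 25 * (x * C + x * τ + n) := by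
      have e1 := mul_le_mul_of_nonneg_left hcC2 hx.le
      have e2 := mul_le_mul_of_nonneg_left hsn hn
      have e3 : x * cos (s + -τ) + n * sin (s + -τ) ≤ x * C + x * τ + n := by linarith only [e1, e2]
      have e4 : 0 ≤ x * C + x * τ + n := by (clear * - hx hC0 hτ hn; positivity)
      exact (mul_le_mul_of_nonneg_left e3 he0).trans (mul_le_mul_of_nonneg_right he1 e4)
    have m2 : n * (68 / 25 - s) ≤ 4 / 5 * x * (68 / 25 - s) :=
      mul_le_mul_of_nonneg_right hT (by linarith only [h1])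
    have hP := aff (z0 := 0) (z1 := s - 1) (z := x) (A := s - s ^ (2 : ℕ) / 2)
      (B := -259 / 250 + 4 / 5 * s - 68 / 25 * (1 - s ^ (2 : ℕ) / 2 + s ^ (4 : ℕ) / 24))
      (by nlinarith only [h0, h1]) (pP2 h0 h1) hx.le b1
    rw [← hC] at hP
    have e : Hc x (-n) (-z) (-τ) 1 s = s + z + n * s + n * z + 2 * x -
        exp 1 * (x * cos (s + -τ) + n * sin (s + -τ)) := by
      unfold Hc
      ring
    rw [e]
    linarith only [hQ1, hzx, hnz, hxτ2, m1, m2, hP]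

/-- right side, `s = -v < 0` (true `.503`) -/
theorem mRl {x n z τ k ψ v : ℝ} (h : ShR x n z τ k ψ) (h0 : 1 ≤ v) (h1 : v ≤ 3 / 2) :
    2 / 5 * Qf x (-n) * v ^ (2 : ℕ) ≤ Hc x (-n) (-z) (-τ) (-(pa x v)) (-v) := by
  have hx := h.x0
  have hn := h.y0
  have hn1 := h.y1
  have hT := h.T
  have hz := h.z0
  have hτ := h.τ0
  have hτ1 := h.τ1
  have hv0 : 0 ≤ v := by linarith only [h0]
  have hx1 : 0 < 1 + x := by linarith only [hx]
  have hpa := omr_pa (s := v) hx (by linarith only [h1])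
  obtain ⟨k1, k2, k3⟩ := c_facts hx.le
  obtain ⟨c, hc⟩ : ∃ c, c = 1 / (1 + x) := ⟨_, rfl⟩
  obtain ⟨t1, t2, t3⟩ := omr_τ hx.le hc h.zτ h.ζ
  have hq := omr_Q (n := n) hx.le hc
  rw [← hc] at k1 k2 k3
  have hcs : 0 ≤ c * v := mul_nonneg k1.le hv0
  have hcs2 : c * v ≤ 3 / 2 := by nlinarith only [h1, k2, k1]
  have hpi := pi_gt_three
  have c0 : 0 ≤ cos v := cos_nonneg_of_neg_pi_div_two_le_of_le (by linarith only [hv0, hpi]) (by linarith only [h1, hpi])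
  have s0 : 0 ≤ sin v := sin_nonneg_of_nonneg_of_le_pi hv0 (by linarith only [h1, hpi])
  have sτ0 : 19 / 20 * τ ≤ sin τ := by
    have h2 := sin_ge3 hτ
    have h3 : τ * τ ^ (2 : ℕ) ≤ τ * (1 / 4) := by
      apply mul_le_mul_of_nonneg_left _ hτ
      nlinarith only [hτ, hτ1]
    linarith only [hτ, h2, h3]
  have sτ1 : 0 ≤ sin τ := le_trans (by (clear * - hτ; positivity)) sτ0
  have cτ0 : 1 - τ / 4 ≤ cos τ := by
    have h2 := cos_ge2 (x := τ)
    nlinarith only [hτ, hτ1, h2]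
  have hcos : cos (v + τ) ≤ cos v - 19 / 20 * τ * sin v := by
    rw [cos_add]
    have e1 := mul_le_mul_of_nonneg_left (cos_le_one τ) c0
    have e2 := mul_le_mul_of_nonneg_left sτ0 s0
    linarith only [e1, e2]
  have hsin : sin v - τ / 4 ≤ sin (v + τ) := by
    rw [sin_add]
    have e1 := mul_le_mul_of_nonneg_left cτ0 s0
    have e2 := mul_nonneg c0 sτ1
    have e3 := mul_le_mul_of_nonneg_right (sin_le_one v) (by positivity : 0 ≤ τ / 4)
    linarith only [e1, e2, e3]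
  have hD : 0 < 1 - c + c ^ (2 : ℕ) := by linarith only [sq_nonneg (c - 1 / 2)]
  have hC : cos (-v + -τ) = cos (v + τ) := by
    rw [← cos_neg]
    congr 1
    ring
  have hS : sin (-v + -τ) = -sin (v + τ) := by
    rw [← sin_neg]
    congr 1
    ring
  rcases le_total (c * v) 1 with hcs1 | hcs1
  · have ha : pa x v = c * v := by
      rw [hpa, hc]
      have e : v / (1 + x) = 1 / (1 + x) * v := by ring
      rw [e, ← hc, min_eq_right hcs1]
    rw [ha]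
    have A1 := ec_le hv0 h1 (en_le4 hcs)
    have g3 := en_ge3 hcs
    have g30 := en3_nonneg hcs hcs2
    have s3 := sin_ge3 hv0
    have s30 := S3_nonneg hv0 h1
    have hN0 : 0 ≤ c * n := mul_nonneg k1.le hn
    have hN1 : c * n ≤ 4 / 5 * (1 - c) := by
      have := mul_le_mul_of_nonneg_left hT k1.le
      linarith only [k3, this]
    have hW0 : 0 ≤ (1 - c) * τ := mul_nonneg (by linarith only [hN0, hN1]) hτ
    obtain ⟨θ, hθ⟩ : ∃ θ, θ = (1 - c + c ^ (2 : ℕ)) * τ / c ^ (2 : ℕ) := ⟨_, rfl⟩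
    have hθc : c ^ (2 : ℕ) * θ = (1 - c + c ^ (2 : ℕ)) * τ := by
      rw [hθ]
      field_simp
    have hθ0 : 0 ≤ θ := by rw [hθ]; (clear * - k2 k1 hτ; positivity)
    have hθ1 : θ ≤ 21 / 25 := by
      rw [hθ, div_le_iff₀ (by positivity)]
      exact t1
    have hP := pL k1.le k2 h0 h1 hn hn1 hθ0 hθ1
    obtain ⟨F, hF⟩ : ∃ F, F =
        (1 - c * v + (c * v) ^ (2 : ℕ) / 2 - (c * v) ^ (3 : ℕ) / 6 + (c * v) ^ (4 : ℕ) / 24) *
        (1 - v ^ (2 : ℕ) / 2 + v ^ (4 : ℕ) / 24) := ⟨_, rfl⟩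
    rw [← hF] at A1 hP
    obtain ⟨E, hE⟩ : ∃ E, E = 1 - c * v + (c * v) ^ (2 : ℕ) / 2 - (c * v) ^ (3 : ℕ) / 6 := ⟨_, rfl⟩
    rw [← hE] at g3 g30 hP
    -- products
    have P1 : E * (v - v ^ (3 : ℕ) / 6) ≤ exp (-(c * v)) * sin v :=
      mul_le_mul g3 s3 s30 (exp_pos _).le
    have P2 : E * (19 / 20 * (v - v ^ (3 : ℕ) / 6) - 1 / 5) ≤
        exp (-(c * v)) * (19 / 20 * sin v - 1 / 5) := by
      refine mul_le_mul g3 (by linarith only [s3]) ?_ (exp_pos _).le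
      nlinarith only [h0, h1, hP]
    have B0 : c * n * τ ≤ 4 / 5 * ((1 - c) * τ) := by
      have := mul_le_mul_of_nonneg_right hN1 hτ
      linarith only [this]
    have B1 := mul_le_mul_of_nonneg_left A1 (sub_nonneg.2 k2)
    have B2 := mul_le_mul_of_nonneg_left P1 hN0
    have B3 := mul_le_mul_of_nonneg_left P2 hW0
    have B4 : exp (-(c * v)) * ((1 - c) * cos (v + τ) - c * n * sin (v + τ)) ≤
        exp (-(c * v)) * ((1 - c) * cos v - (1 - c) * τ * (19 / 20 * sin v - 1 / 5) -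
          c * n * sin v) := by
      refine mul_le_mul_of_nonneg_left ?_ (exp_pos _).le
      have e1 := mul_le_mul_of_nonneg_left hcos (sub_nonneg.2 k2)
      have e2 := mul_le_mul_of_nonneg_left hsin hN0
      linarith only [B0, e1, e2]
    have hP2 : 0 ≤ 3 / 5 * c ^ (2 : ℕ) * v ^ (2 : ℕ) + (1 - c) * (1 - c * v - F - (1 - c ^ (2 : ℕ)) * v ^ (2 : ℕ) / 5) -
      c * n * (v - E * (v - v ^ (3 : ℕ) / 6) - 2 / 5 * c * v ^ (2 : ℕ)) -
      (1 - c) * τ * (v - E * (19 / 20 * (v - v ^ (3 : ℕ) / 6) - 1 / 5)) + c * n * z := by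
      have e0 : (1 - c + c ^ (2 : ℕ)) * (c * n * z) = n * (1 - c) * c * θ := by
        have : c * ((1 - c + c ^ (2 : ℕ)) * (c * n * z)) = c * (n * (1 - c) * c * θ) := by
          linear_combination (n * (1 - c + c ^ (2 : ℕ))) * t2 - n * (1 - c) * hθc
        exact mul_left_cancel₀ k1.ne' this
      have e1 : (1 - c + c ^ (2 : ℕ)) * (3 / 5 * c ^ (2 : ℕ) * v ^ (2 : ℕ) +
        (1 - c) * (1 - c * v - F - (1 - c ^ (2 : ℕ)) * v ^ (2 : ℕ) / 5) -
        c * n * (v - E * (v - v ^ (3 : ℕ) / 6) - 2 / 5 * c * v ^ (2 : ℕ)) -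
        (1 - c) * τ * (v - E * (19 / 20 * (v - v ^ (3 : ℕ) / 6) - 1 / 5)) + c * n * z) =
        (1 - c + c ^ (2 : ℕ)) * (3 / 5 * c ^ (2 : ℕ) * v ^ (2 : ℕ) +
        (1 - c) * (1 - c * v - F - (1 - c ^ (2 : ℕ)) * v ^ (2 : ℕ) / 5) -
        c * n * (v - E * (v - v ^ (3 : ℕ) / 6) - 2 / 5 * c * v ^ (2 : ℕ))) -
        (1 - c) * c ^ (2 : ℕ) * θ * (v - E * (19 / 20 * (v - v ^ (3 : ℕ) / 6) - 1 / 5)) +
        n * (1 - c) * c * θ := by
        linear_combination e0 + (1 - c) * (v - E * (19 / 20 * (v - v ^ (3 : ℕ) / 6) - 1 / 5)) * hθc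
      rw [← e1] at hP
      exact nonneg_of_mul_nonneg_right hP hD
    obtain ⟨ex, hex⟩ : ∃ ex, ex = exp (-(c * v)) := ⟨_, rfl⟩
    rw [← hex] at A1 g3 P1 P2 B1 B2 B3 B4
    have key : 0 ≤ c * (Hc x (-n) (-z) (-τ) (-(c * v)) (-v) - 2 / 5 * Qf x (-n) * v ^ (2 : ℕ)) := by
      have e : c * (Hc x (-n) (-z) (-τ) (-(c * v)) (-v) - 2 / 5 * Qf x (-n) * v ^ (2 : ℕ)) =
          c ^ (2 : ℕ) * v ^ (2 : ℕ) - v * (c ^ (2 : ℕ) * z) - c * n * v + c * n * z + (c * x) * (1 - c * v) -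
            exp (-(c * v)) * ((c * x) * cos (v + τ) - c * n * sin (v + τ)) -
            2 / 5 * v ^ (2 : ℕ) * (c * Qf x (-n)) := by
        unfold Hc
        rw [hC, hS]
        ring
      rw [e, t2, k3, hq, ← hex]
      obtain ⟨a1, ha1⟩ : ∃ a1, a1 = ex * cos v := ⟨_, rfl⟩
      obtain ⟨a2, ha2⟩ : ∃ a2, a2 = ex * sin v := ⟨_, rfl⟩
      have B5 : ex * ((1 - c) * cos v - (1 - c) * τ * (19 / 20 * sin v - 1 / 5) -
          c * n * sin v) = (1 - c) * a1 - (1 - c) * τ * (19 / 20 * a2 - 1 / 5 * ex) -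
          c * n * a2 := by
        rw [ha1, ha2]
        ring
      have B6 : ex * (19 / 20 * sin v - 1 / 5) = 19 / 20 * a2 - 1 / 5 * ex := by
        rw [ha2]
        ring
      rw [B5] at B4
      rw [B6] at B3
      rw [← ha1] at B1
      rw [← ha2] at B2
      linarith only [hP2, B1, B2, B3, B4]
    have := nonneg_of_mul_nonneg_right key k1
    linarith only [this]
  · have ha : pa x v = 1 := by
      rw [hpa]
      have e : v / (1 + x) = c * v := by rw [hc]; ring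
      rw [e, min_eq_left hcs1]
    rw [ha]
    obtain ⟨b1, b2, b3⟩ := omr_cl (n := n) hx.le hn hc h1 hcs1
    have hs2 : 0 ≤ v ^ (2 : ℕ) := sq_nonneg v
    have hs3 : v ^ (2 : ℕ) ≤ 9 / 4 := by nlinarith only [h0, h1]
    have hQ1 : 2 / 5 * Qf x (-n) * v ^ (2 : ℕ) ≤ 2 / 5 * v ^ (2 : ℕ) - 7 / 45 * v ^ (2 : ℕ) * x -
        4 / 15 * v ^ (2 : ℕ) * n := by
      have h2 : Qf x (-n) ≤ 1 - 7 / 18 * x - 2 / 3 * n := by
        linarith only [b3, mul_le_mul_of_nonneg_right b2 hn]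
      have := mul_le_mul_of_nonneg_right h2 hs2
      linarith only [this]
    have he1 : exp (-1) ≤ 37 / 100 := by
      rw [exp_neg, inv_le_comm₀ (exp_pos _) (by norm_num)]
      have := exp_one_gt_d9
      linarith only [this]
    have he2 : 9 / 25 ≤ exp (-1) := by
      rw [exp_neg, le_inv_comm₀ (by norm_num) (exp_pos _)]
      have := exp_one_lt_d9
      linarith only [this]
    have he0 : 0 ≤ exp (-1) := (exp_pos _).le
    obtain ⟨C, hCC⟩ : ∃ C, C = 1 - v ^ (2 : ℕ) / 2 + v ^ (4 : ℕ) / 24 := ⟨_, rfl⟩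
    have hC0 : 0 ≤ C := by rw [hCC]; exact C4_nonneg hv0 h1
    have hcC : cos v ≤ C := by rw [hCC]; exact cos_le4 hv0
    have hcC2 : cos (v + τ) ≤ C := by
      have := mul_nonneg hτ s0
      linarith only [hcos, hcC, this]
    have hsn : 7 / 10 ≤ sin (v + τ) := by
      have h2 := sin_ge3 hv0
      have h3 : 5 / 6 ≤ v - v ^ (3 : ℕ) / 6 := by nlinarith only [hs3, hCC, hC0, mul_nonneg (sub_nonneg.2 h0) (sub_nonneg.2 h1)]
      linarith only [hτ1, hsin, h2, h3]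
    have hzx : z ≤ 3 / 4 * x := by
      rw [h.zτ]
      have h2 : (1 + x) * τ ≤ 3 / 2 * (1 / 2) :=
        mul_le_mul (by linarith only [h1, b1]) hτ1 hτ (by norm_num)
      have := mul_le_mul_of_nonneg_left h2 hx.le
      linarith only [this]
    have hnz : 0 ≤ n * z := mul_nonneg hn hz
    -- products with `exp (-1)`
    have m1 : exp (-1) * (x * cos (v + τ) - n * sin (v + τ)) ≤ 37 / 100 * (x * C) - 1 / 4 * n := by
      have e1 := mul_le_mul_of_nonneg_left hcC2 hx.le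
      have e2 := mul_le_mul_of_nonneg_left hsn hn
      have e3 : exp (-1) * (x * cos (v + τ)) ≤ 37 / 100 * (x * C) :=
        (mul_le_mul_of_nonneg_left e1 he0).trans
          (mul_le_mul_of_nonneg_right he1 (mul_nonneg hx.le hC0))
      have e4 : 9 / 25 * (n * (7 / 10)) ≤ exp (-1) * (n * sin (v + τ)) :=
        mul_le_mul he2 e2 (by (clear * - hn; positivity)) he0
      have e5 : exp (-1) * (x * cos (v + τ) - n * sin (v + τ)) =
        exp (-1) * (x * cos (v + τ)) - exp (-1) * (n * sin (v + τ)) := by ring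
      rw [e5]
      linarith only [hn, e3, e4]
    have m2 : n * (v - 1 / 4 - 4 / 15 * v ^ (2 : ℕ)) ≤ 4 / 5 * x * (v - 1 / 4 - 4 / 15 * v ^ (2 : ℕ)) :=
      mul_le_mul_of_nonneg_right hT (by linarith only [h0, hs3])
    have hP := aff (z0 := 0) (z1 := v - 1) (z := x) (A := v - 2 / 5 * v ^ (2 : ℕ))
      (B := -3 / 4 - 37 / 100 * (1 - v ^ (2 : ℕ) / 2 + v ^ (4 : ℕ) / 24) + 7 / 45 * v ^ (2 : ℕ) -
      4 / 5 * (v - 1 / 4 - 4 / 15 * v ^ (2 : ℕ)))
      (by linarith only [h0, hs3]) (pP4 h0 h1) hx.le b1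
    rw [← hCC] at hP
    have e : Hc x (-n) (-z) (-τ) (-1) (-v) = v - z - n * v + n * z -
        exp (-1) * (x * cos (v + τ) - n * sin (v + τ)) := by
      unfold Hc
      rw [hC, hS]
      ring
    rw [e]
    linarith only [hQ1, hzx, hnz, m1, m2, hP]

end SokamV3O

end
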