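import Pool.Agent.Lib_MP_af4de1_zy.Z123
import Pool.Agent.Lib_MP_af4de1_zy.Z124
import Pool.Agent.Lib_MP_af4de1_zy.Z148
import Pool.Agent.Lib_MP_af4de1_zy.Z155

/-! ### Lib_MP_af4de1_v3o.ODL -/

section
namespace SokamF1G
end SokamF1G
set_option autoImplicit false

namespace SokamV3O

open Real SokamF1G

private theorem hc_ha (x y z τ a s : ℝ) : Hc x y z τ a s = Ha x y a s + (z * (y - a) +
    exp a * (x * (cos s - cos (s + τ)) + y * (sin (s + τ) - sin s))) := by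
  unfold Hc Ha
  ring

/-- core `|s| ≤ 1`, left side, `s ≥ 0` -/
theorem dLr {x y z τ k ψ s : ℝ} (h : ShL x y z τ k ψ) (h0 : 0 ≤ s) (h1 : s ≤ 1) :
    Ha x y (s / (1 + x)) s + 3 / 10 * (y * (z + τ)) - z / (6 * (1 + x)) * s ^ (2 : ℕ) ≤
      Hc x y z τ (s / (1 + x)) s := by
  obtain ⟨x0, y0, y1, T, z0, τ0, zτ, ζ, τ1, k0, ψ0, ψ1, hx, hy⟩ := h
  have hx1 : 0 < 1 + x := by linarith
  have e1 : z * (s / (1 + x)) = x * τ * s := by
    rw [zτ]
    field_simp
  have e2 : z / (6 * (1 + x)) * s ^ (2 : ℕ) = x * τ * s ^ (2 : ℕ) / 6 := by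
    rw [zτ]
    field_simp
  have he : 1 ≤ exp (s / (1 + x)) := by
    rw [one_le_exp_iff]
    (clear * - h0 x0; positivity)
  have hC : τ * s - τ * s ^ (2 : ℕ) / 6 ≤ cos s - cos (s + τ) := by
    have h2 := sin_ge3 h0
    have h3 := sin_ge3 τ0
    have h4 := cos_ge2 (x := s)
    have h5 := cos_le4 τ0
    have h6 : cos s - cos (s + τ) = sin s * sin τ + cos s * (1 - cos τ) := by
      rw [cos_add]
      ring
    have hs2 : s ^ (2 : ℕ) ≤ 1 := by nlinarith only [h0, h1]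
    have hτ2 : τ ^ (2 : ℕ) ≤ 1 / 4 := by nlinarith only [τ0, τ1]
    have h7 : 0 ≤ s - s ^ (3 : ℕ) / 6 := by nlinarith only [h0, hs2]
    have h8 : 0 ≤ τ - τ ^ (3 : ℕ) / 6 := by nlinarith only [τ0, hτ2]
    have h9 : (s - s ^ (3 : ℕ) / 6) * (τ - τ ^ (3 : ℕ) / 6) ≤ sin s * sin τ :=
      mul_le_mul h2 h3 h8 (h7.trans h2)
    have h10 : 0 ≤ τ ^ (2 : ℕ) / 2 - τ ^ (4 : ℕ) / 24 := by nlinarith only [hτ2]
    have h11 : 1 / 2 * (τ ^ (2 : ℕ) / 2 - τ ^ (4 : ℕ) / 24) ≤ cos s * (1 - cos τ) :=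
      mul_le_mul (by linarith) (by linarith) h10 (by linarith)
    have h12 : 0 ≤ s ^ (2 : ℕ) * τ * (1 - s) := by
      have : 0 ≤ 1 - s := by linarith
      (clear * - τ0 h1; positivity)
    have h13 : 0 ≤ s ^ (3 : ℕ) * τ ^ (3 : ℕ) := by (clear * - h0 τ0; positivity)
    have h14 : 0 ≤ τ ^ (2 : ℕ) * (1 - τ * s) := by
      have : τ * s ≤ 1 := by nlinarith only [hs2, hτ2]
      exact mul_nonneg (sq_nonneg _) (by linarith)
    have h15 : 0 ≤ τ ^ (2 : ℕ) * (1 / 4 - τ ^ (2 : ℕ)) := mul_nonneg (sq_nonneg _) (by linarith)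
    have h16 : s * τ ^ (3 : ℕ) = τ ^ (2 : ℕ) * (τ * s) := by ring
    rw [h6]
    nlinarith only [h9, h11, h12, h13, h14, h15]
  have hS : 3 / 10 * τ ≤ sin (s + τ) - sin s := by
    have h2 : sin (s + τ) - sin s = 2 * sin (τ / 2) * cos (s + τ / 2) := by
      rw [sin_sub_sin]
      congr 3
      · ring
      · ring
    have h3 := sin_ge3 (x := τ / 2) (by linarith)
    have h4 : 31 / 100 ≤ cos (5 / 4) := by
      have := cos_ge6 (x := 5 / 4) (by norm_num)
      norm_num at this ⊢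
      linarith
    have h5 : cos (5 / 4) ≤ cos (s + τ / 2) := by
      apply cos_le_cos_of_nonneg_of_le_pi (by linarith) _ (by linarith)
      have := pi_gt_three
      linarith
    have hτ2 : τ ^ (2 : ℕ) ≤ 1 / 4 := by nlinarith only [τ0, τ1]
    have h6 : 98 / 200 * τ ≤ sin (τ / 2) := by nlinarith only [τ0, h3, hτ2]
    have h7 : 98 / 200 * τ * (31 / 100) ≤ sin (τ / 2) * cos (s + τ / 2) :=
      mul_le_mul h6 (by linarith) (by norm_num) (by linarith [mul_nonneg (by norm_num : (0:ℝ) ≤ 98/200) τ0])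
    rw [h2]
    linarith
  have hxC : x * (τ * s - τ * s ^ (2 : ℕ) / 6) ≤ x * (cos s - cos (s + τ)) :=
    mul_le_mul_of_nonneg_left hC x0.le
  have hyS : y * (3 / 10 * τ) ≤ y * (sin (s + τ) - sin s) := mul_le_mul_of_nonneg_left hS y0
  have hp1 : 0 ≤ x * (τ * s - τ * s ^ (2 : ℕ) / 6) := by
    have : 0 ≤ τ * s * (1 - s / 6) := by
      have : 0 ≤ 1 - s / 6 := by linarith
      (clear * - τ0 h0 this; positivity)
    nlinarith only [x0, this]
  have hp2 : 0 ≤ y * (3 / 10 * τ) := by (clear * - y0 τ0; positivity)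
  have hE : x * (cos s - cos (s + τ)) + y * (sin (s + τ) - sin s) ≤
      exp (s / (1 + x)) * (x * (cos s - cos (s + τ)) + y * (sin (s + τ) - sin s)) :=
    le_mul_of_one_le_left (by linarith) he
  have hzy : 0 ≤ z * y := mul_nonneg z0 y0
  rw [hc_ha, e2, mul_sub, e1]
  linarith only [hxC, hyS, hE, hzy]

/-- core, left side, `s = -v ≤ 0` -/
theorem dLl {x y z τ k ψ v : ℝ} (h : ShL x y z τ k ψ) (h0 : 0 ≤ v) (h1 : v ≤ 1) :
    Ha x y (-(v / (1 + x))) (-v) ≤ Hc x y z τ (-(v / (1 + x))) (-v) := by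
  obtain ⟨x0, y0, y1, T, z0, τ0, zτ, ζ, τ1, k0, ψ0, ψ1, hx, hy⟩ := h
  have hx1 : 0 < 1 + x := by linarith
  have e1 : z * -(v / (1 + x)) = -(x * τ * v) := by
    rw [zτ]
    field_simp
  have he : exp (-(v / (1 + x))) ≤ 1 := by
    rw [exp_le_one_iff]
    have : 0 ≤ v / (1 + x) := by (clear * - h0 x0; positivity)
    linarith
  have he0 := exp_pos (-(v / (1 + x)))
  have hC : -(τ * v) ≤ cos (-v) - cos (-v + τ) := by
    have h2 : cos (-v) - cos (-v + τ) = 2 * sin (τ / 2) * sin (τ / 2 - v) := by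
      rw [cos_sub_cos]
      have e3 : (-v + (-v + τ)) / 2 = τ / 2 - v := by ring
      have e4 : (-v - (-v + τ)) / 2 = -(τ / 2) := by ring
      rw [e3, e4, sin_neg]
      ring
    have h3 : sin (τ / 2) ≤ τ / 2 := sin_le (by linarith)
    have hpi := pi_gt_three
    have h4 : 0 ≤ sin (τ / 2) := sin_nonneg_of_nonneg_of_le_pi (by linarith) (by linarith)
    rw [h2]
    rcases le_total v (τ / 2) with h5 | h5
    · have h6 : 0 ≤ sin (τ / 2 - v) := sin_nonneg_of_nonneg_of_le_pi (by linarith) (by linarith)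
      have h7 : 0 ≤ sin (τ / 2) * sin (τ / 2 - v) := mul_nonneg h4 h6
      have h8 : 0 ≤ τ * v := mul_nonneg τ0 h0
      linarith
    · have h6 : sin (v - τ / 2) ≤ v - τ / 2 := sin_le (by linarith)
      have h7 : sin (τ / 2 - v) = -sin (v - τ / 2) := by
        rw [← sin_neg]
        congr 1
        ring
      have h8 : 0 ≤ sin (v - τ / 2) := sin_nonneg_of_nonneg_of_le_pi (by linarith) (by linarith)
      have h9 : sin (τ / 2) * sin (v - τ / 2) ≤ τ / 2 * v :=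
        mul_le_mul h3 (by linarith) h8 (by linarith)
      rw [h7]
      linarith
  have hS : 0 ≤ sin (-v + τ) - sin (-v) := by
    have h2 : sin (-v + τ) - sin (-v) = 2 * sin (τ / 2) * cos (τ / 2 - v) := by
      rw [sin_sub_sin]
      congr 3
      · ring
      · ring
    have hpi := pi_gt_three
    have h4 : 0 ≤ sin (τ / 2) := sin_nonneg_of_nonneg_of_le_pi (by linarith) (by linarith)
    have h5 : 0 ≤ cos (τ / 2 - v) := cos_nonneg_of_neg_pi_div_two_le_of_le (by linarith) (by linarith)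
    rw [h2]
    (clear * - h4 h5; positivity)
  have h8 : 0 ≤ τ * v := mul_nonneg τ0 h0
  have hE : -(τ * v) ≤ exp (-(v / (1 + x))) * (cos (-v) - cos (-v + τ)) := by
    rcases le_total 0 (cos (-v) - cos (-v + τ)) with h9 | h9
    · have := mul_nonneg he0.le h9
      linarith
    · nlinarith only [he, hC, h9]
  have hxE : -(x * τ * v) ≤ exp (-(v / (1 + x))) * (x * (cos (-v) - cos (-v + τ))) := by
    have := mul_le_mul_of_nonneg_left hE x0.le
    linarith only [this]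
  have hyE : 0 ≤ exp (-(v / (1 + x))) * (y * (sin (-v + τ) - sin (-v))) :=
    mul_nonneg he0.le (mul_nonneg y0 hS)
  have hzy : 0 ≤ z * y := mul_nonneg z0 y0
  rw [hc_ha, mul_sub, e1, mul_add]
  linarith

end SokamV3O

end

/-! ### Lib_MP_af4de1_v3o.OSL -/

section
namespace SokamF1G
end SokamF1G
set_option autoImplicit false

open Real SokamF1G

namespace SokamV3O

/-- core, left side, `s ≥ 0`: `t = 1 - 11/10 z/(6 (1+x) Q)`, `w = 3/10 y (z+τ)/δ` -/
theorem shLr {x y z τ k ψ ρ r δ : ℝ} (h : FL x y z τ k ψ ρ r δ) :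
    ∃ t w : ℝ, 0 < t ∧ t ≤ 1 ∧ 0 ≤ w ∧ exp (-w) ≤ t * √t ∧ ∀ s : ℝ, 0 ≤ s → s ≤ 1 →
      w + t * (10 / 11 * (Qf x y / δ) * s ^ (2 : ℕ)) ≤ Hc x y z τ (s / (1 + x)) s / δ := by
  have hsh := h.sh
  obtain ⟨x0, y0, y1, T, z0, τ0, zτ, ζ, τ1, k0, ψ0, ψ1, hx, hy⟩ := h.sh
  have hx1 : 0 < 1 + x := by linarith only [x0]
  have hρ : 0 < ρ := by
    rw [h.rho]
    exact mul_pos k0 (exp_pos _)
  have hr : 0 < r := by linarith only [h.r0]
  have hδ : 0 < δ := by
    rw [h.del]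
    exact div_pos hρ hr
  -- the coefficient `Q`
  obtain ⟨Q, hQ⟩ : ∃ Q, Q = Qf x y := ⟨_, rfl⟩
  have hQc : 1 / (1 + x) ≤ Q := by
    have h1 : (1 / (1 + x)) ^ (2 : ℕ) ≤ 1 := by
      have h2 : 1 / (1 + x) ≤ 1 := by
        rw [div_le_one hx1]
        linarith only [x0]
      have h3 : 0 ≤ 1 / (1 + x) := by positivity
      exact pow_le_one₀ h3 h2
    have h4 : 0 ≤ x * (1 - (1 / (1 + x)) ^ (2 : ℕ)) / 2 := by
      have : 0 ≤ 1 - (1 / (1 + x)) ^ (2 : ℕ) := by linarith only [h1]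
      (clear * - x0 h1; positivity)
    have h5 : 1 / (1 + x) ≤ (1 + y) / (1 + x) := by
      gcongr
      linarith only [y0]
    rw [hQ]
    unfold Qf
    linarith only [h4, h5]
  have hQ0 : 0 < Q := lt_of_lt_of_le (by (clear * - x0; positivity)) hQc
  have hQ1 : 1 ≤ Q * (1 + x) := by
    rwa [div_le_iff₀ hx1] at hQc
  -- `u`
  obtain ⟨u, hu⟩ : ∃ u, u = 11 * (x * τ) / (60 * Q) := ⟨_, rfl⟩
  have hu0 : 0 ≤ u := by
    rw [hu]
    (clear * - x0 τ0 hQ0; positivity)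
  have huQ : u * (60 * Q) = 11 * (x * τ) := by
    rw [hu]
    field_simp
  have hζ : τ * (1 + x + x ^ (2 : ℕ)) ≤ 21 / 25 := by
    have e : τ * (1 + x + x ^ (2 : ℕ)) = z + τ := by
      rw [zτ]
      ring
    rw [e]
    exact ζ
  -- `x τ ≤ 21/25 Q`
  have hxτ : x * τ ≤ 21 / 25 * Q := by
    have h1 : x * τ * (1 + x) ≤ 21 / 25 := by linarith only [τ0, zτ, ζ]
    have h2 : x * τ * (1 + x) ≤ 21 / 25 * (Q * (1 + x)) := by linarith only [hQ1, h1]
    have h3 : x * τ * (1 + x) ≤ 21 / 25 * Q * (1 + x) := by linarith only [h2]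
    exact le_of_mul_le_mul_right h3 hx1
  have hu1 : u ≤ 77 / 500 := by
    rw [hu, div_le_iff₀ (by (clear * - hQ0; positivity))]
    linarith only [hxτ]
  -- the second inequality
  obtain ⟨w, hw⟩ : ∃ w, w = 3 / 10 * (y * (z + τ)) / δ := ⟨_, rfl⟩
  have hw1 : 3 / 8 * (z + τ) ≤ w := by
    rw [hw, le_div_iff₀ hδ]
    have h1 := mul_le_mul_of_nonneg_right h.w1 (by linarith : 0 ≤ z + τ)
    linarith only [h1]
  have hw0 : 0 ≤ w := by
    have : 0 ≤ z + τ := by linarith only [z0, τ0]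
    linarith only [hw1, this]
  have hwu : 2 * u ≤ w := by
    refine le_trans ?_ hw1
    rw [hu, ← mul_div_assoc, div_le_iff₀ (by (clear * - hQ0; positivity))]
    have h1 : x * τ ≤ z + τ := by
      have e : z + τ - x * τ = τ * (1 + x ^ (2 : ℕ)) := by
        rw [zτ]
        ring
      have : 0 ≤ τ * (1 + x ^ (2 : ℕ)) := by (clear * - τ0 x0; positivity)
      linarith only [e, this]
    have e : z + τ = τ * (1 + x + x ^ (2 : ℕ)) := by
      rw [zτ]
      ring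
    -- `22 x τ ≤ 45/2 Q (z+τ)`
    have h2 : x * τ ≤ (z + τ) * Q := by
      have h3 : x * (1 + x) * τ ≤ (z + τ) * (Q * (1 + x)) := by
        have h4 : (z + τ) * 1 ≤ (z + τ) * (Q * (1 + x)) :=
          mul_le_mul_of_nonneg_left hQ1 (by linarith only [z0, τ0])
        have h5 : x * (1 + x) * τ ≤ z + τ := by rw [← zτ]; linarith only [τ0]
        linarith only [h4, h5]
      have h6 : x * τ * (1 + x) ≤ (z + τ) * Q * (1 + x) := by linarith only [h3]
      exact le_of_mul_le_mul_right h6 hx1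
    have h7 : 0 ≤ (z + τ) * Q := by
      have : 0 ≤ z + τ := by linarith only [z0, τ0]
      (clear * - z0 τ0 hQ0; positivity)
    linarith only [h2, h7]
  have ht0 : 0 < 1 - u := by linarith only [hu1]
  refine ⟨1 - u, w, ht0, by linarith only [hu0], hw0, ?_, ?_⟩
  · have h1 : exp (-(u / (1 - u))) ≤ 1 - u := by
      rw [exp_neg, inv_le_comm₀ (exp_pos _) ht0]
      have h2 := add_one_le_exp (u / (1 - u))
      have e : (1 - u)⁻¹ = u / (1 - u) + 1 := by
        field_simp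
        ring
      rw [e]
      exact h2
    have h3 : exp (-(u / (1 - u)) / 2) ≤ √(1 - u) := by
      rw [exp_half]
      exact sqrt_le_sqrt h1
    have h4 : exp (-w) ≤ exp (-(u / (1 - u))) * exp (-(u / (1 - u)) / 2) := by
      rw [← exp_add]
      apply exp_le_exp.2
      have h5 : u / (1 - u) ≤ 4 / 3 * u := by
        rw [div_le_iff₀ ht0]
        nlinarith only [hQ0, hu0, huQ, hxτ]
      linarith only [hwu, h5]
    exact h4.trans (mul_le_mul h1 h3 (exp_pos _).le ht0.le)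
  · intro s h0 h1
    have hD := dLr hsh h0 h1
    have hG : DomG x y := by
      refine ⟨x0.le, by linarith only [y0], by linarith only [y1], ?_⟩
      nlinarith only [y0]
    have hg := G1_pos hG y0 h0 h1
    obtain ⟨k1, k2, k3⟩ := c_facts x0.le
    have e0 : Hf x y s = Ha x y (s / (1 + x)) s := by
      unfold Hf
      have e1 : 1 / (1 + x) * s = s / (1 + x) := by ring
      have h3 : 1 / (1 + x) * s ≤ 1 := mul_le_one₀ k2 h0 h1
      have h4 : 0 ≤ 1 / (1 + x) * s := mul_nonneg k1.le h0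
      rw [ga_mid rfl (by linarith only [h4]) h3, e1]
    rw [e0, ← hQ] at hg
    have h5 : 10 / 11 * (Q * s ^ (2 : ℕ)) ≤ (1 - s ^ (2 : ℕ) / 11) * Q * s ^ (2 : ℕ) := by
      have h6 : s ^ (2 : ℕ) ≤ 1 := pow_le_one₀ h0 h1
      have h7 : 0 ≤ (1 - s ^ (2 : ℕ)) * (Q * s ^ (2 : ℕ)) := by
        have : 0 ≤ 1 - s ^ (2 : ℕ) := by linarith only [h6]
        (clear * - h6 hQ0; positivity)
      linarith only [h7]
    have h8 : u * (10 / 11 * (Q * s ^ (2 : ℕ))) = z / (6 * (1 + x)) * s ^ (2 : ℕ) := by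
      have e2 : z / (6 * (1 + x)) = x * τ / 6 := by
        rw [zτ]
        field_simp
      rw [e2]
      linear_combination (s ^ (2 : ℕ) / 66) * huQ
    rw [← hQ, le_div_iff₀ hδ]
    have e3 : (w + (1 - u) * (10 / 11 * (Q / δ) * s ^ (2 : ℕ))) * δ =
        w * δ + (1 - u) * (10 / 11 * (Q * s ^ (2 : ℕ))) := by
      field_simp
    have e4 : w * δ = 3 / 10 * (y * (z + τ)) := by
      rw [hw]
      field_simp
    rw [e3, e4]
    linarith only [hD, hg, h5, h8]

end SokamV3O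

end

/-! ### Lib_MP_af4de1_v3o.OML -/

section
namespace SokamF1G
end SokamF1G
set_option autoImplicit false

namespace SokamV3O

open Real SokamF1G

private theorem oml_P_c {p q u v : ℝ} (hp : 0 ≤ p) (hq : 0 ≤ q) (hu : 0 ≤ u) (hv : 0 ≤ v) :
    0 ≤ (1 / 10) * q ^ (9 : ℕ) * v ^ (2 : ℕ) +
      (3 / 10) * q ^ (9 : ℕ) * u * v +
      (9 / 40) * q ^ (9 : ℕ) * u ^ (2 : ℕ) +
      (7 / 10) * p * q ^ (8 : ℕ) * v ^ (2 : ℕ) +
      (21 / 10) * p * q ^ (8 : ℕ) * u * v +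
      (63 / 40) * p * q ^ (8 : ℕ) * u ^ (2 : ℕ) +
      (407 / 250) * p ^ (2 : ℕ) * q ^ (7 : ℕ) * v ^ (2 : ℕ) +
      (969 / 250) * p ^ (2 : ℕ) * q ^ (7 : ℕ) * u * v +
      (2823 / 1000) * p ^ (2 : ℕ) * q ^ (7 : ℕ) * u ^ (2 : ℕ) +
      (432 / 125) * p ^ (3 : ℕ) * q ^ (6 : ℕ) * v ^ (2 : ℕ) +
      (372 / 125) * p ^ (3 : ℕ) * q ^ (6 : ℕ) * u * v +
      (18 / 25) * p ^ (3 : ℕ) * q ^ (6 : ℕ) * u ^ (2 : ℕ) +
      (523 / 50) * p ^ (4 : ℕ) * q ^ (5 : ℕ) * v ^ (2 : ℕ) +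
      (477 / 50) * p ^ (4 : ℕ) * q ^ (5 : ℕ) * u * v +
      (171 / 200) * p ^ (4 : ℕ) * q ^ (5 : ℕ) * u ^ (2 : ℕ) +
      (1057 / 50) * p ^ (5 : ℕ) * q ^ (4 : ℕ) * v ^ (2 : ℕ) +
      (1491 / 50) * p ^ (5 : ℕ) * q ^ (4 : ℕ) * u * v +
      (2121 / 200) * p ^ (5 : ℕ) * q ^ (4 : ℕ) * u ^ (2 : ℕ) +
      (229 / 10) * p ^ (6 : ℕ) * q ^ (3 : ℕ) * v ^ (2 : ℕ) +
      (2007 / 50) * p ^ (6 : ℕ) * q ^ (3 : ℕ) * u * v +
      (3753 / 200) * p ^ (6 : ℕ) * q ^ (3 : ℕ) * u ^ (2 : ℕ) +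
      (1601 / 125) * p ^ (7 : ℕ) * q ^ (2 : ℕ) * v ^ (2 : ℕ) +
      (3207 / 125) * p ^ (7 : ℕ) * q ^ (2 : ℕ) * u * v +
      (6849 / 500) * p ^ (7 : ℕ) * q ^ (2 : ℕ) * u ^ (2 : ℕ) +
      (402 / 125) * p ^ (8 : ℕ) * q * v ^ (2 : ℕ) +
      (912 / 125) * p ^ (8 : ℕ) * q * u * v +
      (219 / 50) * p ^ (8 : ℕ) * q * u ^ (2 : ℕ) +
      (1 / 5) * p ^ (9 : ℕ) * v ^ (2 : ℕ) +
      (3 / 5) * p ^ (9 : ℕ) * u * v +
      (9 / 20) * p ^ (9 : ℕ) * u ^ (2 : ℕ) := by
  positivity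

private theorem oml_P {c y : ℝ} (h1 : 0 ≤ c) (h2 : c ≤ 1) (h3 : 1 ≤ y) (h4 : y ≤ 3 / 2) :
    0 ≤ (21 / 25) * (c ^ (2 : ℕ) * (1 - c) * (4 / 5 * (1 + y * c) - y)) +
      1 / 20 * (y ^ (2 : ℕ) * (c ^ (2 : ℕ) + (1 - c) ^ (2 : ℕ) * (1 + c) / 2) * (1 - c + c ^ (2 : ℕ))) := by
  have h := oml_P_c (sub_nonneg.2 h1) (sub_nonneg.2 h2) (sub_nonneg.2 h3) (sub_nonneg.2 h4)
  refine le_of_le_of_eq h ?_
  ring


private theorem oml_dom {x y z τ k ψ : ℝ} (h : ShL x y z τ k ψ) : DomG x y := by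
  have hx := h.x0
  have hy := h.y0
  have hy1 := h.y1
  refine ⟨hx.le, by linarith only [hx, hy], by linarith only [hy1], ?_⟩
  nlinarith only [hy]

private theorem oml_pa {x s : ℝ} (hx : 0 < x) (h1 : s ≤ 4) :
    pa x s = min 1 (s / (1 + x)) := by
  unfold pa a4
  have h2 : s / (1 + x) ≤ 4 / (1 + x) := by
    apply div_le_div_of_nonneg_right h1
    linarith only [hx]
  rw [min_comm 1 (4 / (1 + x)), ← min_assoc, min_eq_left h2, min_comm]

/-- `1 ≤ |s| ≤ 3/2`, left side, `s > 0` (true `.668`) -/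
theorem mLr {x y z τ k ψ s : ℝ} (h : ShL x y z τ k ψ) (h0 : 1 ≤ s) (h1 : s ≤ 3 / 2) :
    11 / 20 * Qf x y * s ^ (2 : ℕ) ≤ Hc x y z τ (pa x s) s := by
  have hx := h.x0
  have hy := h.y0
  have hT := h.T
  have hz := h.z0
  have hτ := h.τ0
  have hτ1 := h.τ1
  have hζ := h.ζ
  have hzτ := h.zτ
  have hs0 : 0 ≤ s := by linarith only [h0]
  have hx1 : 0 < 1 + x := by linarith only [hy, hT]
  have hD := oml_dom h
  have g2 := G2 hD h0 h1
  have hpa := oml_pa (s := s) hx (by linarith only [h1])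
  have hq0 : 0 ≤ s / (1 + x) := by positivity
  have hga : ga x s = pa x s := by
    rw [hpa]
    unfold ga
    rw [max_eq_right]
    exact le_trans (by norm_num) (le_min zero_le_one hq0)
  unfold Hf at g2
  rw [hga] at g2
  obtain ⟨a, ha⟩ : ∃ a, a = pa x s := ⟨_, rfl⟩
  rw [← ha] at g2 hpa ⊢
  have ha0 : 0 ≤ a := by rw [hpa]; exact le_min zero_le_one hq0
  have hdiff : Hc x y z τ a s = Ha x y a s +
      (-(a - y) * z + exp a * (x * (cos s - cos (s + τ)) + y * (sin (s + τ) - sin s))) := by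
    unfold Hc Ha
    ring
  have e1 : cos s - cos (s + τ) = 2 * sin (s + τ / 2) * sin (τ / 2) := by
    rw [cos_sub_cos, show (s + (s + τ)) / 2 = s + τ / 2 by ring,
      show (s - (s + τ)) / 2 = -(τ / 2) by ring, sin_neg]
    ring
  have e2 : sin (s + τ) - sin s = 2 * cos (s + τ / 2) * sin (τ / 2) := by
    rw [sin_sub_sin, show (s + τ + s) / 2 = s + τ / 2 by ring,
      show (s + τ - s) / 2 = τ / 2 by ring]
    ring
  have hθ0 : 1 ≤ s + τ / 2 := by linarith only [h0, hτ]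
  have hθ1 : s + τ / 2 ≤ 7 / 4 := by linarith only [h1, hτ1]
  have hB : 41 / 50 * x ≤ x * sin (s + τ / 2) + y * cos (s + τ / 2) := by
    rcases le_total 0 (cos (s + τ / 2)) with hc | hc
    · have h2 : 41 / 50 ≤ sin (s + τ / 2) := by
        refine le_trans ?_ (sin_ge3 (by linarith : (0 : ℝ) ≤ s + τ / 2))
        obtain ⟨t, ht⟩ : ∃ t, t = s + τ / 2 := ⟨_, rfl⟩
        rw [← ht] at hθ0 hθ1 ⊢
        nlinarith only [mul_nonneg (sub_nonneg.2 hθ0) (sub_nonneg.2 hθ1), mul_nonneg (mul_nonneg (sub_nonneg.2 hθ0) (sub_nonneg.2 hθ1)) (by linarith : (0:ℝ) ≤ t)]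
      have h3 := mul_le_mul_of_nonneg_left h2 hx.le
      have h4 := mul_nonneg hy hc
      linarith only [h3, h4]
    · have h2 : -(9 / 50) ≤ cos (s + τ / 2) := by
        rw [← sin_pi_div_two_sub]
        rcases le_total 0 (π / 2 - (s + τ / 2)) with h5 | h5
        · have : 0 ≤ sin (π / 2 - (s + τ / 2)) := by
            apply sin_nonneg_of_nonneg_of_le_pi h5
            linarith only [hθ0, pi_pos]
          linarith only [this]
        · have h6 := sin_le1 (x := -(π / 2 - (s + τ / 2))) (by linarith only [h5])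
          rw [sin_neg] at h6
          have h7 := pi_gt_d2
          norm_num at h7
          linarith only [hθ1, h6, h7]
      have hs0' : 0 ≤ sin (s + τ / 2) := by
        apply sin_nonneg_of_nonneg_of_le_pi (by linarith only [hθ0])
        have h7 := pi_gt_three
        linarith only [hθ1, h7]
      have h3 : 49 / 50 ≤ sin (s + τ / 2) := by
        have h8 := sin_sq_add_cos_sq (s + τ / 2)
        by_contra hn
        push Not at hn
        nlinarith only [hc, h2, hs0', h8, hn]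
      have h4 : 49 / 50 * x ≤ x * sin (s + τ / 2) := by
        have := mul_le_mul_of_nonneg_left h3 hx.le
        linarith only [this]
      have h5 : -(9 / 50) * y ≤ y * cos (s + τ / 2) := by
        have := mul_le_mul_of_nonneg_left h2 hy
        linarith only [this]
      linarith only [hy, hT, h4, h5]
  have hw : 989 / 1000 * τ ≤ 2 * sin (τ / 2) := by
    have h2 := sin_ge3 (by linarith : (0 : ℝ) ≤ τ / 2)
    have h3 : τ * τ ^ (2 : ℕ) ≤ τ * (1 / 4) := by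
      apply mul_le_mul_of_nonneg_left _ hτ
      nlinarith only [hτ, hτ1]
    linarith only [hτ, h2, h3]
  have hbr : 4 / 5 * (x * τ) ≤ x * (cos s - cos (s + τ)) + y * (sin (s + τ) - sin s) := by
    rw [e1, e2]
    have h2 : 989 / 1000 * τ * (41 / 50 * x) ≤
        2 * sin (τ / 2) * (x * sin (s + τ / 2) + y * cos (s + τ / 2)) :=
      mul_le_mul hw hB (by (clear * - hx; positivity)) (le_trans (by (clear * - hτ; positivity)) hw)
    have h3 : 0 ≤ x * τ := by (clear * - hx hτ; positivity)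
    linarith only [h2, h3]
  have hxτ : 0 ≤ x * τ := by (clear * - hx hτ; positivity)
  have he : (1 + a) * (4 / 5 * (x * τ)) ≤
      exp a * (x * (cos s - cos (s + τ)) + y * (sin (s + τ) - sin s)) :=
    mul_le_mul (by linarith only [add_one_le_exp a]) hbr (by (clear * - hx hτ; positivity)) (exp_pos a).le
  have hyz : 0 ≤ y * z := mul_nonneg hy hz
  obtain ⟨k1, k2, k3⟩ := c_facts hx.le
  obtain ⟨c, hc⟩ : ∃ c, c = 1 / (1 + x) := ⟨_, rfl⟩
  rw [← hc] at k1 k2 k3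
  have hQ : Qf x y = (1 + y) * c + x * (1 - c ^ (2 : ℕ)) / 2 := by
    unfold Qf
    rw [hc]
    ring
  have hq : c * Qf x y = c ^ (2 : ℕ) * (1 + y) + (1 - c) ^ (2 : ℕ) * (1 + c) / 2 := by
    rw [hQ]
    linear_combination ((1 - c ^ (2 : ℕ)) / 2) * k3
  have hQ0 : 0 ≤ Qf x y := by
    have : 0 ≤ c * Qf x y := by
      rw [hq]
      have : 0 ≤ 1 - c := by linarith only [k2]
      (clear * - k1 hy; positivity)
    exact nonneg_of_mul_nonneg_right this k1
  have hQs : 0 ≤ Qf x y * s ^ (2 : ℕ) := by (clear * - hQ0 h0; positivity)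
  have main : -(1 / 20 * (Qf x y * s ^ (2 : ℕ))) ≤ -a * z + (1 + a) * (4 / 5 * (x * τ)) := by
    rcases le_total (s / (1 + x)) 1 with hs1 | hs1
    · have ha1 : a = s * c := by rw [hpa, min_eq_right hs1, hc]; ring
      have haz : a * z = s * (x * τ) := by
        have : c * (1 + x) = 1 := by rw [hc]; field_simp
        rw [ha1, hzτ]
        linear_combination (s * x * τ) * this
      rcases le_total 0 (4 / 5 * (1 + s * c) - s) with hb | hb
      · have h2 := mul_nonneg hxτ hb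
        rw [neg_mul, haz, ha1]
        linarith only [hQs, h2]
      · have hP := oml_P k1.le k2 h0 h1
        have hN : c ^ (2 : ℕ) * (1 + x + x ^ (2 : ℕ)) = 1 - c + c ^ (2 : ℕ) := by
          linear_combination (c * x + 1) * k3
        have hτN : (1 + x + x ^ (2 : ℕ)) * τ ≤ 21 / 25 := by
          rw [hzτ] at hζ
          linarith only [hζ]
        have h3 : 21 / 25 * (c ^ (2 : ℕ) * (1 - c) * (4 / 5 * (1 + s * c) - s)) ≤
            ((1 + x + x ^ (2 : ℕ)) * τ) * (c ^ (2 : ℕ) * (1 - c) * (4 / 5 * (1 + s * c) - s)) := by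
          apply mul_le_mul_of_nonpos_right hτN
          apply mul_nonpos_of_nonneg_of_nonpos _ hb
          have : 0 ≤ 1 - c := by linarith only [k2]
          (clear * - k1 k2; positivity)
        have h4 : (c ^ (2 : ℕ) + (1 - c) ^ (2 : ℕ) * (1 + c) / 2) * (1 - c + c ^ (2 : ℕ)) * s ^ (2 : ℕ) ≤
            (c * Qf x y) * (1 - c + c ^ (2 : ℕ)) * s ^ (2 : ℕ) := by
          apply mul_le_mul_of_nonneg_right _ (sq_nonneg s)
          apply mul_le_mul_of_nonneg_right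
          · rw [hq]
            have : 0 ≤ c ^ (2 : ℕ) * y := by (clear * - k1 hy; positivity)
            linarith only [this]
          · nlinarith only []
        have h5 : 0 ≤ (c * (c ^ (2 : ℕ) * (1 + x + x ^ (2 : ℕ)))) *
            (1 / 20 * (Qf x y * s ^ (2 : ℕ)) + x * τ * (4 / 5 * (1 + s * c) - s)) := by
          have e5 : (c * (c ^ (2 : ℕ) * (1 + x + x ^ (2 : ℕ)))) *
            (1 / 20 * (Qf x y * s ^ (2 : ℕ)) + x * τ * (4 / 5 * (1 + s * c) - s)) =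
            1 / 20 * ((c * Qf x y) * (1 - c + c ^ (2 : ℕ)) * s ^ (2 : ℕ)) +
            ((1 + x + x ^ (2 : ℕ)) * τ) * (c ^ (2 : ℕ) * (1 - c) * (4 / 5 * (1 + s * c) - s)) := by
            linear_combination (1 / 20 * c * Qf x y * s ^ (2 : ℕ)) * hN +
              ((1 + x + x ^ (2 : ℕ)) * τ * c ^ (2 : ℕ) * (4 / 5 * (1 + s * c) - s)) * k3
          rw [e5]
          linarith only [hP, h3, h4]
        have h6 : 0 < c * (c ^ (2 : ℕ) * (1 + x + x ^ (2 : ℕ))) := by (clear * - k1 hx; positivity)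
        have h7 := nonneg_of_mul_nonneg_right h5 h6
        rw [neg_mul, haz, ha1]
        linarith only [h7]
    · have ha1 : a = 1 := by rw [hpa, min_eq_left hs1]
      have h2 : 1 + x ≤ s := by
        rwa [le_div_iff₀ hx1, one_mul] at hs1
      have h3 : x * τ * (1 + x) ≤ x * τ * (3 / 2) :=
        mul_le_mul_of_nonneg_left (by linarith only [h1, h2]) hxτ
      rw [ha1, hzτ]
      linarith only [hxτ, hQs, h3]
  rw [hdiff]
  linarith only [g2, he, hyz, main]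

/-- left side, `s = -v < 0` (true `.608`) -/
theorem mLl {x y z τ k ψ v : ℝ} (h : ShL x y z τ k ψ) (h0 : 1 ≤ v) (h1 : v ≤ 3 / 2) :
    11 / 20 * Qf x y * v ^ (2 : ℕ) ≤ Hc x y z τ (-(pa x v)) (-v) := by
  have hx := h.x0
  have hy := h.y0
  have hz := h.z0
  have hτ := h.τ0
  have hτ1 := h.τ1
  have hzτ := h.zτ
  have hs0 : 0 ≤ v := by linarith only [h0]
  have hx1 : 0 < 1 + x := by linarith only [hx]
  have hD := oml_dom h
  have g3 := G3_pos hD hy (s := -v) (by linarith only [h1]) (by linarith only [hs0])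
  have hpa := oml_pa (s := v) hx (by linarith only [h1])
  have hq0 : 0 ≤ v / (1 + x) := by positivity
  have hga : ga x (-v) = -(pa x v) := by
    rw [hpa]
    unfold ga
    rw [neg_div, min_eq_right (by linarith only [hq0]), ← max_neg_neg]
  unfold Hf at g3
  rw [hga] at g3
  obtain ⟨b, hb⟩ : ∃ b, b = pa x v := ⟨_, rfl⟩
  rw [← hb] at g3 hpa ⊢
  have hb0 : 0 ≤ b := by rw [hpa]; exact le_min zero_le_one hq0
  have hb1 : 1 ≤ b * (1 + x) := by
    rcases le_total (v / (1 + x)) 1 with hs1 | hs1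
    · rw [hpa, min_eq_right hs1, div_mul_cancel₀ _ hx1.ne']
      exact h0
    · rw [hpa, min_eq_left hs1]
      linarith only [hx]
  have hdiff : Hc x y z τ (-b) (-v) = Ha x y (-b) (-v) +
      ((b + y) * z + exp (-b) * (x * (cos v - cos (v - τ)) + y * (sin v - sin (v - τ)))) := by
    unfold Hc Ha
    rw [show -v + τ = -(v - τ) by ring, cos_neg, cos_neg, sin_neg, sin_neg]
    ring
  have e1 : cos v - cos (v - τ) = -(2 * sin (v - τ / 2) * sin (τ / 2)) := by
    rw [cos_sub_cos, show (v + (v - τ)) / 2 = v - τ / 2 by ring,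
      show (v - (v - τ)) / 2 = τ / 2 by ring]
    ring
  have e2 : sin v - sin (v - τ) = 2 * sin (τ / 2) * cos (v - τ / 2) := by
    rw [sin_sub_sin, show (v + (v - τ)) / 2 = v - τ / 2 by ring,
      show (v - (v - τ)) / 2 = τ / 2 by ring]
  have hw1 : sin (τ / 2) ≤ τ / 2 := sin_le1 (by linarith only [hτ])
  have hw0 : 0 ≤ sin (τ / 2) := by
    apply sin_nonneg_of_nonneg_of_le_pi (by linarith only [hτ])
    linarith only [hτ1, pi_gt_three]
  have h2 : -τ ≤ cos v - cos (v - τ) := by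
    rw [e1]
    have h3 : sin (v - τ / 2) * sin (τ / 2) ≤ 1 * (τ / 2) :=
      mul_le_mul (sin_le_one _) hw1 hw0 zero_le_one
    linarith only [h3]
  have h3 : 0 ≤ sin v - sin (v - τ) := by
    rw [e2]
    have : 0 ≤ cos (v - τ / 2) := by
      apply cos_nonneg_of_neg_pi_div_two_le_of_le
      · linarith only [hτ1, hs0, pi_gt_three]
      · have := pi_gt_three
        linarith only [h1, hw1, hw0, this]
    (clear * - hw0 this; positivity)
  have h4 : -(x * τ) ≤ exp (-b) * (x * (cos v - cos (v - τ)) + y * (sin v - sin (v - τ))) := by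
    have h5 : -(x * τ) ≤ x * (cos v - cos (v - τ)) + y * (sin v - sin (v - τ)) := by
      have h6 := mul_le_mul_of_nonneg_left h2 hx.le
      have h7 := mul_nonneg hy h3
      linarith only [h6, h7]
    have h6 : exp (-b) ≤ 1 := exp_le_one_iff.2 (by linarith only [hb0])
    have h7 := mul_le_mul_of_nonneg_left h5 (exp_pos (-b)).le
    have h8 : exp (-b) * (x * τ) ≤ 1 * (x * τ) :=
      mul_le_mul_of_nonneg_right h6 (by (clear * - hx hτ; positivity))
    linarith only [h7, h8]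
  have h5 : x * τ ≤ b * z := by
    rw [hzτ]
    have := mul_le_mul_of_nonneg_left hb1 (by positivity : 0 ≤ x * τ)
    linarith only [this]
  have hyz : 0 ≤ y * z := mul_nonneg hy hz
  have hQ0 : 0 ≤ Qf x y := by
    unfold Qf
    have : (1 / (1 + x)) ^ (2 : ℕ) ≤ 1 := by
      apply pow_le_one₀ (by (clear * - hx; positivity))
      rw [div_le_one hx1]
      linarith only [hx]
    have h9 : 0 ≤ 1 - (1 / (1 + x)) ^ (2 : ℕ) := by linarith only [this]
    (clear * - hy hx this; positivity)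
  have hQs : 0 ≤ Qf x y * v ^ (2 : ℕ) := by (clear * - hQ0 h0; positivity)
  have h6 : 11 / 20 * (Qf x y * v ^ (2 : ℕ)) ≤ (1 + 3 / 10 * -v) * (Qf x y * v ^ (2 : ℕ)) := by
    apply mul_le_mul_of_nonneg_right _ hQs
    linarith only [h1]
  rw [hdiff]
  have e6 : (1 + 3 / 10 * -v) * Qf x y * (-v) ^ (2 : ℕ) = (1 + 3 / 10 * -v) * (Qf x y * v ^ (2 : ℕ)) := by ring
  rw [e6] at g3
  linarith only [g3, h4, h5, hyz, h6]

end SokamV3O

end

/-! ### Lib_MP_af4de1_v3o.OGL -/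

section
namespace SokamF1
end SokamF1
namespace SokamF1M
end SokamF1M
namespace SokamF1S
end SokamF1S
namespace SokamPG
end SokamPG
namespace SokamU
end SokamU
namespace SokamV3
end SokamV3
/-!
# The parameters of the left side satisfy `FL`
-/

set_option autoImplicit false

open Complex MeasureTheory Set SokamU SokamPG SokamF1 SokamF1S SokamF1M SokamV3

namespace SokamV3O

theorem ogl_num {y : ℝ} (hy : 0 ≤ y) (h1 : y ≤ 14 / 25) :
    (1 + y + y ^ (2 : ℕ) / 2 + y ^ (3 : ℕ) / 5) * (5411 / 5000 + 2809 / 5000 * y) ≤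
      3 / 2 + 41 / 16 * y ^ (2 : ℕ) * (1 + y + y ^ (2 : ℕ) / 2) ^ (2 : ℕ) * (1 / 2 + y / 2 - y ^ (2 : ℕ) / 6) := by
  have e1 : 0 ≤ 1 / 2 + y / 2 - y ^ (2 : ℕ) / 6 := by nlinarith
  have e2 : 1 + 2 * y + 2 * y ^ (2 : ℕ) ≤ (1 + y + y ^ (2 : ℕ) / 2) ^ (2 : ℕ) := by
    have : 0 ≤ y ^ (3 : ℕ) := by positivity
    have : 0 ≤ y ^ (4 : ℕ) := by (clear * -; positivity)
    nlinarith only [hy]
  have e3 : 1 / 2 + 3 / 2 * y + 11 / 6 * y ^ (2 : ℕ) ≤
      (1 + 2 * y + 2 * y ^ (2 : ℕ)) * (1 / 2 + y / 2 - y ^ (2 : ℕ) / 6) := by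
    have h3 : 0 ≤ y ^ (3 : ℕ) := by (clear * - hy; positivity)
    have : 0 ≤ y ^ (3 : ℕ) * (2 / 3 - y / 3) := mul_nonneg h3 (by linarith only [h1])
    linarith only [this]
  have e4 : (1 / 2 + 3 / 2 * y + 11 / 6 * y ^ (2 : ℕ)) ≤
      (1 + y + y ^ (2 : ℕ) / 2) ^ (2 : ℕ) * (1 / 2 + y / 2 - y ^ (2 : ℕ) / 6) :=
    e3.trans (mul_le_mul_of_nonneg_right e2 e1)
  have e5 : 41 / 16 * y ^ (2 : ℕ) * (1 / 2 + 3 / 2 * y + 11 / 6 * y ^ (2 : ℕ)) ≤
      41 / 16 * y ^ (2 : ℕ) * ((1 + y + y ^ (2 : ℕ) / 2) ^ (2 : ℕ) * (1 / 2 + y / 2 - y ^ (2 : ℕ) / 6)) :=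
    mul_le_mul_of_nonneg_left e4 (by (clear * -; positivity))
  have e6 : (1 + y + y ^ (2 : ℕ) / 2 + y ^ (3 : ℕ) / 5) * (5411 / 5000 + 2809 / 5000 * y) ≤
      3 / 2 + 41 / 16 * y ^ (2 : ℕ) * (1 / 2 + 3 / 2 * y + 11 / 6 * y ^ (2 : ℕ)) := by
    nlinarith only [sq_nonneg (y ^ (2 : ℕ) - 961 / 10000), sq_nonneg (y - 627 / 2000)]
  linarith only [e5, e6]

theorem ogl_exp_le {y : ℝ} (hy : 0 ≤ y) (h1 : y ≤ 14 / 25) :
    Real.exp y ≤ 1 + y + y ^ (2 : ℕ) / 2 + y ^ (3 : ℕ) / 5 := by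
  have h := Real.exp_bound' hy (by linarith only [h1]) (n := 4) (by norm_num)
  simp only [Finset.sum_range_succ, Finset.sum_range_zero, Nat.factorial] at h
  have h3 : 0 ≤ y ^ (3 : ℕ) := by positivity
  have : 0 ≤ y ^ (3 : ℕ) * (14 / 25 - y) := mul_nonneg h3 (by linarith only [h1])
  norm_num at h
  nlinarith only [this, h]

theorem ogl_exp_neg_ge {y : ℝ} (hy : 0 ≤ y) (h1 : y ≤ 14 / 25) :
    1 - y + y ^ (2 : ℕ) / 2 - y ^ (3 : ℕ) / 6 ≤ Real.exp (-y) := by
  have h := Real.exp_bound' hy (by linarith only [h1]) (n := 4) (by norm_num)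
  simp only [Finset.sum_range_succ, Finset.sum_range_zero, Nat.factorial] at h
  norm_num at h
  have h2 := exp_mul_neg y
  have h3 := Real.exp_pos (-y)
  have h4 : 0 ≤ 1 - y + y ^ (2 : ℕ) / 2 - y ^ (3 : ℕ) / 6 := by nlinarith only [h1]
  have h5 : (1 - y + y ^ (2 : ℕ) / 2 - y ^ (3 : ℕ) / 6) * Real.exp y ≤ 1 := by
    refine (mul_le_mul_of_nonneg_left h h4).trans ?_
    have h6 : 0 ≤ y ^ (4 : ℕ) := by (clear * -; positivity)
    have h7 : 0 ≤ y ^ (4 : ℕ) * y := by (clear * - hy; positivity)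
    have h8 : 0 ≤ y ^ (4 : ℕ) * y ^ (2 : ℕ) := by (clear * -; positivity)
    have h9 : 0 ≤ y ^ (4 : ℕ) * y ^ (3 : ℕ) := by (clear * - hy; positivity)
    nlinarith only [h6, h7]
  calc 1 - y + y ^ (2 : ℕ) / 2 - y ^ (3 : ℕ) / 6
      = (1 - y + y ^ (2 : ℕ) / 2 - y ^ (3 : ℕ) / 6) * Real.exp y * Real.exp (-y) := by
        rw [mul_assoc, h2, mul_one]
    _ ≤ 1 * Real.exp (-y) := mul_le_mul_of_nonneg_right h5 h3.le
    _ = Real.exp (-y) := one_mul _

/-- angle from the slope -/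
theorem ogl_psi {p : ℝ} (h2 : p ≤ Real.pi / 2)
    (hT : Real.sin p ≤ 4 / 5 * Real.cos p) : p ≤ 27 / 40 := by
  by_contra hc
  push Not at hc
  have hp := Real.pi_gt_d2
  have h3 : Real.sin (27 / 40) ≤ Real.sin p :=
    Real.sin_le_sin_of_le_of_le_pi_div_two (by linarith only [hp]) h2 hc.le
  have h4 : Real.cos p ≤ Real.cos (27 / 40) :=
    Real.cos_le_cos_of_nonneg_of_le_pi (by norm_num) (by linarith only [h2, hc]) hc.le
  have h5 := SokamF1G.sin_ge7 (x := 27 / 40) (by norm_num)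
  have h6 := SokamF1G.cos_le4 (x := 27 / 40) (by norm_num)
  norm_num at h5 h6
  linarith only [hT, h3, h4, h5, h6]

theorem ogl_cos {p : ℝ} (hc : 0 ≤ Real.cos p)
    (hT : Real.sin p ≤ 4 / 5 * Real.cos p) (hs : 0 ≤ Real.sin p) : 39 / 50 ≤ Real.cos p := by
  have h1 := Real.sin_sq_add_cos_sq p
  nlinarith only [hT, hs, h1]

/-- `η ≤ 3/2 y (ρ + 1/ρ)` (left side) -/
theorem eta_le_y {ρ y : ℝ} (hD : Dom ρ y) (h0 : 0 ≤ y) (h1 : y ≤ 14 / 25)
    (hT : y ≤ 4 / 5 * sx ρ y) : sE ρ y ≤ 3 / 2 * y * (ρ + 1 / ρ) := by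
  have hρ := hD.1
  have hs := hD.sin
  have hc := hD.cos
  have hE := Real.exp_pos y
  have hE' := Real.exp_pos (-y)
  have hEE := exp_mul_neg y
  have hx := sx_nonneg ρ y
  have hψ0 := sP_nonneg (y := y) hρ h0
  have hψ1 := (abs_le.1 (sP_abs_le ρ y)).2
  have hs0 : 0 ≤ Real.sin (sP ρ y) := by rw [hs]; (clear * - h0 hρ; positivity)
  have hc0 : 0 ≤ Real.cos (sP ρ y) := by rw [hc]; (clear * - hx hρ; positivity)
  have hT' : Real.sin (sP ρ y) ≤ 4 / 5 * Real.cos (sP ρ y) := by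
    rw [hs, hc]
    have : y * Real.exp y / ρ ≤ (4 / 5 * sx ρ y) * Real.exp y / ρ := by gcongr
    linarith only [this, (by ring : (4 / 5 * sx ρ y) * Real.exp y / ρ = 4 / 5 * (sx ρ y * Real.exp y / ρ))]
  have hψ := ogl_psi hψ1 hT'
  have hcl := ogl_cos hc0 hT' hs0
  have hsρ : ρ * Real.sin (sP ρ y) = y * Real.exp y := by
    rw [hs]; field_simp
  have hcρ : sx ρ y = ρ * Real.exp (-y) * Real.cos (sP ρ y) := sx_eq hD
  have hks : ρ * Real.exp (-y) * Real.sin (sP ρ y) = y := by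
    have : ρ * Real.exp (-y) * Real.sin (sP ρ y) =
        (ρ * Real.sin (sP ρ y)) * Real.exp (-y) := by ring
    rw [this, hsρ, mul_assoc, hEE, mul_one]
  -- the angle against its sine
  have hψs : sP ρ y ≤ 5411 / 5000 * Real.sin (sP ρ y) := by
    have h3 := SokamF1G.sin_ge3 hψ0
    have h4 : sP ρ y ^ (3 : ℕ) ≤ (27 / 40) ^ (2 : ℕ) * sP ρ y := by
      have : sP ρ y ^ (2 : ℕ) ≤ (27 / 40) ^ (2 : ℕ) := pow_le_pow_left₀ hψ0 hψ 2
      have := mul_le_mul_of_nonneg_right this hψ0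
      linarith only [this]
    linarith only [hs0, h3, h4]
  have hsq := Real.sin_sq_add_cos_sq (sP ρ y)
  have h1c : 1 - Real.cos (sP ρ y) ≤ 50 / 89 * Real.sin (sP ρ y) ^ (2 : ℕ) := by
    have h5 : Real.cos (sP ρ y) ≤ 1 := Real.cos_le_one _
    nlinarith only [hcl, hsq]
  have hkx : ρ * Real.exp (-y) - sx ρ y ≤ 50 / 89 * (y * Real.sin (sP ρ y)) := by
    have h5 := mul_le_mul_of_nonneg_left h1c (mul_nonneg hρ.le hE'.le)
    have e : ρ * Real.exp (-y) * (50 / 89 * Real.sin (sP ρ y) ^ (2 : ℕ)) =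
        50 / 89 * ((ρ * Real.exp (-y) * Real.sin (sP ρ y)) * Real.sin (sP ρ y)) := by ring
    rw [e, hks] at h5
    linarith only [hcρ, h5]
  -- all multiplied by ρ
  have hmain : ρ * sE ρ y ≤ 5411 / 5000 * (y * Real.exp y) + ρ ^ (2 : ℕ) * (1 - Real.exp (-y)) +
      50 / 89 * (y * (y * Real.exp y)) := by
    have h6 := mul_le_mul_of_nonneg_left hψs hρ.le
    have h7 := mul_le_mul_of_nonneg_left hkx hρ.le
    have e1 : ρ * (5411 / 5000 * Real.sin (sP ρ y)) =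
        5411 / 5000 * (ρ * Real.sin (sP ρ y)) := by ring
    have e2 : ρ * (50 / 89 * (y * Real.sin (sP ρ y))) =
        50 / 89 * (y * (ρ * Real.sin (sP ρ y))) := by ring
    rw [e1, hsρ] at h6
    rw [e2, hsρ] at h7
    have e3 : ρ * sE ρ y = ρ * sP ρ y + ρ ^ (2 : ℕ) * (1 - Real.exp (-y)) +
      ρ * (ρ * Real.exp (-y) - sx ρ y) := by
      unfold sE; ring
    linarith only [h6, h7, e3]
  have hexpn := ogl_exp_neg_ge h0 h1
  have hexp := ogl_exp_le h0 h1
  have hexpl := Real.quadratic_le_exp_of_nonneg h0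
  have hρ2 : 41 / 16 * y ^ (2 : ℕ) * (1 + y + y ^ (2 : ℕ) / 2) ^ (2 : ℕ) ≤ ρ ^ (2 : ℕ) := by
    have h8 := sx_sq_add hD
    have h9 : (25 / 16) * y ^ (2 : ℕ) ≤ sx ρ y ^ (2 : ℕ) := by
      have : y ^ (2 : ℕ) ≤ (4 / 5 * sx ρ y) ^ (2 : ℕ) := pow_le_pow_left₀ h0 hT 2
      linarith only [this]
    have h10 : ρ ^ (2 : ℕ) = (ρ * Real.exp (-y)) ^ (2 : ℕ) * Real.exp y ^ (2 : ℕ) := by
      have : (ρ * Real.exp (-y)) ^ (2 : ℕ) * Real.exp y ^ (2 : ℕ) =
        ρ ^ (2 : ℕ) * (Real.exp y * Real.exp (-y)) ^ (2 : ℕ) := by ring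
      rw [this, hEE]; ring
    have h11 : 41 / 16 * y ^ (2 : ℕ) ≤ (ρ * Real.exp (-y)) ^ (2 : ℕ) := by linarith only [h8, h9]
    have h12 : (1 + y + y ^ (2 : ℕ) / 2) ^ (2 : ℕ) ≤ Real.exp y ^ (2 : ℕ) :=
      pow_le_pow_left₀ (by (clear * - h0; positivity)) hexpl 2
    rw [h10]
    exact mul_le_mul h11 h12 (by (clear * - h0; positivity)) (by positivity)
  have hnum := ogl_num h0 h1
  have hq : 0 ≤ 1 / 2 + y / 2 - y ^ (2 : ℕ) / 6 := by nlinarith only [h0, h1]
  have h13 := mul_le_mul_of_nonneg_right hρ2 hq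
  have h14 : Real.exp y * (5411 / 5000 + 50 / 89 * y) ≤
      3 / 2 + ρ ^ (2 : ℕ) * (1 / 2 + y / 2 - y ^ (2 : ℕ) / 6) := by
    have h15 : Real.exp y * (5411 / 5000 + 50 / 89 * y) ≤
        (1 + y + y ^ (2 : ℕ) / 2 + y ^ (3 : ℕ) / 5) * (5411 / 5000 + 2809 / 5000 * y) := by
      refine mul_le_mul hexp ?_ (by (clear * - h0; positivity)) (by (clear * - h0; positivity))
      linarith only [h0]
    linarith only [hnum, h13, h15]
  have h16 : ρ ^ (2 : ℕ) * (1 - Real.exp (-y)) ≤ ρ ^ (2 : ℕ) * (y * (1 - y / 2 + y ^ (2 : ℕ) / 6)) := by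
    refine mul_le_mul_of_nonneg_left ?_ (by positivity)
    linarith only [hexpn]
  have h17 := mul_le_mul_of_nonneg_left h14 h0
  have h18 : ρ * sE ρ y ≤ 3 / 2 * y * (ρ ^ (2 : ℕ) + 1) := by
    nlinarith only [hmain, hexpn, h17]
  have h19 : ρ * (3 / 2 * y * (ρ + 1 / ρ)) = 3 / 2 * y * (ρ ^ (2 : ℕ) + 1) := by
    field_simp
  refine le_of_mul_le_mul_left ?_ hρ
  rw [h19]
  exact h18

theorem ogl_hst {N : ℕ} (hN : 3 ≤ N) : hst N ≤ 2 * Real.pi / 3 := by
  unfold hst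
  have hN3 : (3 : ℝ) ≤ N := by exact_mod_cast hN
  have := Real.pi_pos
  gcongr

theorem ogl_hst_pos {N : ℕ} (hN : 3 ≤ N) : 0 < hst N := by
  unfold hst
  have hN3 : (3 : ℝ) ≤ N := by exact_mod_cast hN
  have := Real.pi_pos
  positivity

theorem ogl_om1 (N : ℕ) (r δ : ℝ) : 1 / 10 ≤ om1 N r δ := by
  unfold om1
  split_ifs <;> norm_num

/-- the height of the saddle against the width, from `η R ≤ 3/2 y ρ ...` -/
theorem ogl_w {N : ℕ} {r δ y : ℝ} (hR : Reg1 N r δ)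
    (h : eo1 N r δ ≤ 3 / 2 * y * (r * δ + 1 / (r * δ))) :
    5 / 4 * δ ≤ y ∧ (r * δ ≤ 17 / 10 → 4 * δ ≤ y) := by
  have hδ := hR.d0
  have hr : 0 < r := by linarith only [hR.r0]
  have hρ : 0 < r * δ := mul_pos hr hδ
  have hh := ogl_hst hR.N3
  have hh0 := ogl_hst_pos hR.N3
  have hRR : 0 < RR r δ := by unfold RR; positivity
  have hG := hR.G
  have hp := Real.pi_lt_d2
  have hGe : Gm N r δ * RR r δ = r * hst N ^ (2 : ℕ) := by
    unfold Gm
    field_simp
  -- (1/2 + om) h ρ ≤ 3/2 y R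
  have h1 : (1 / 2 + om1 N r δ) * hst N * (r * δ) ≤ 3 / 2 * y * RR r δ := by
    have h2 := mul_le_mul_of_nonneg_right h hρ.le
    have e : 3 / 2 * y * (r * δ + 1 / (r * δ)) * (r * δ) = 3 / 2 * y * RR r δ := by
      unfold RR
      field_simp
      ring
    rw [e] at h2
    exact h2
  have hom : 0 < 1 / 2 + om1 N r δ := by linarith only [ogl_om1 N r δ]
  -- `y/δ ≥ 2/3 (1/2+om) g`, `g = r h/R`
  have h2 : 2 / 3 * (1 / 2 + om1 N r δ) * (r * hst N / RR r δ) * δ ≤ y := by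
    have e : 2 / 3 * (1 / 2 + om1 N r δ) * (r * hst N / RR r δ) * δ =
        2 / 3 * ((1 / 2 + om1 N r δ) * hst N * (r * δ)) / RR r δ := by ring
    rw [e, div_le_iff₀ hRR]
    linarith only [h1]
  have hg0 : 0 < r * hst N / RR r δ := by (clear * - hr hh0 hRR; positivity)
  have key : ∀ c : ℝ, c ≤ 2 / 3 * (1 / 2 + om1 N r δ) * (r * hst N / RR r δ) → c * δ ≤ y :=
    fun c hc => (mul_le_mul_of_nonneg_right hc hδ.le).trans h2
  have hGg : Gm N r δ = r * hst N / RR r δ * hst N := by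
    unfold Gm
    ring
  refine ⟨key _ ?_, fun hρ1 => key _ ?_⟩
  · -- Gm ≤ g * 2.1
    have h3 : Gm N r δ ≤ r * hst N / RR r δ * (21 / 10) := by
      rw [hGg]
      refine mul_le_mul_of_nonneg_left ?_ hg0.le
      linarith only [hh, hp]
    have h3' : Gm N r δ ≤ r * hst N / RR r δ * (2 * (315 / 100) / 3) := by
      rw [hGg]
      refine mul_le_mul_of_nonneg_left ?_ hg0.le
      linarith only [hh, hp]
    unfold om1
    split_ifs with h4 h5
    · linarith only [hG, h3']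
    · linarith only [h3', h4]
    · linarith only [h3', h4]
  · have hR2 : RR r δ ≤ 389 / 100 := by
      unfold RR
      nlinarith only [hρ, hρ1]
    have hgg : (r * hst N / RR r δ) ^ (2 : ℕ) = Gm N r δ * (r / RR r δ) := by
      unfold Gm
      field_simp
    have hrR : 1282 / 100 ≤ r / RR r δ := by
      rw [le_div_iff₀ hRR]
      have := hR.r0
      linarith only [hR2, this]
    have h6 : ∀ G : ℝ, 0 < G → G ≤ Gm N r δ → G * (1282 / 100) ≤ (r * hst N / RR r δ) ^ (2 : ℕ) := by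
      intro G hG0 hG1
      rw [hgg]
      exact mul_le_mul hG1 hrR (by norm_num) (by linarith only [hG0, hG1])
    unfold om1
    split_ifs with h4 h5
    · have h7 := h6 (27 / 5) (by norm_num) hG
      have : 8 ≤ r * hst N / RR r δ := by
        by_contra hc
        push Not at hc
        nlinarith only [hg0, h7, hc]
      linarith only [this]
    · have h7 := h6 10 (by norm_num) (by linarith only [h4])
      have : 10 ≤ r * hst N / RR r δ := by
        by_contra hc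
        push Not at hc
        nlinarith only [hg0, h7, hc]
      linarith only [this]
    · have h7 := h6 10 (by norm_num) (by linarith only [h5])
      have : 10 ≤ r * hst N / RR r δ := by
        by_contra hc
        push Not at hc
        nlinarith only [hg0, h7, hc]
      linarith only [this]

/-- the shift of the path is small -/
theorem ogl_tau {ρ x h : ℝ} (hx : 0 < x) (hh : h ^ (2 : ℕ) ≤ 11 / 10 * (1 + ρ ^ (2 : ℕ)))
    (hρ : ρ ^ (2 : ℕ) ≤ 6 * x ^ (2 : ℕ)) : 2 / 5 * h ≤ 1 / 2 * (1 + x + x ^ (2 : ℕ)) := by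
  refine abs_le_of_sq_le_sq' ?_ (by positivity) |>.2
  have h1 : 0 ≤ x ^ (3 : ℕ) := by (clear * - hx; positivity)
  have h2 : 0 ≤ x ^ (4 : ℕ) := by positivity
  have h3 : 0 ≤ x * (2 - 306 / 250 * x + 2 * x ^ (2 : ℕ)) := by
    refine mul_nonneg hx.le ?_
    nlinarith only []
  nlinarith only [hx, hh, hρ, h1]

/-- glue, left side -/
theorem glueL {N : ℕ} {r δ y ζ : ℝ} (hR : Reg1 N r δ) (hA : At r δ y (eo1 N r δ))
    (hS : Sad1 N r δ y) (h0 : 0 ≤ ζ) (h1 : ζ ≤ ei1 N r δ) :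
    0 < y ∧ ∃ z τ k ψ : ℝ, z + τ = ζ ∧ FL (sx (r * δ) y) y z τ k ψ (r * δ) r δ := by
  have hδ := hR.d0
  have hr : 0 < r := by linarith only [hR.r0]
  have hρ : 0 < r * δ := mul_pos hr hδ
  have hh := ogl_hst hR.N3
  have hh0 := ogl_hst_pos hR.N3
  have hRR : 0 < RR r δ := by unfold RR; (clear * - hr hδ; positivity)
  have hp := Real.pi_lt_d2
  have hp0 := Real.pi_pos
  have hom := ogl_om1 N r δ
  have hD := hA.dom
  have heo : 0 < eo1 N r δ := by
    unfold eo1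
    have : 0 < 1 / 2 + om1 N r δ := by linarith only [hom]
    (clear * - hom hh0; positivity)
  have hy0 := hA.y_nonneg_own heo.le
  have hy : 0 < y := by
    rcases hy0.lt_or_eq with h | h
    · exact h
    · exfalso
      have h2 := hA.eta
      rw [← h, sE_zero hρ] at h2
      linarith only [heo, h2]
  have hy1 : y ≤ 14 / 25 := by
    rcases hS with h | h
    · linarith only [h.2.hi]
    · linarith only [h.2.hi]
  have hx0 := sx_nonneg (r * δ) y
  have hT : y ≤ 4 / 5 * sx (r * δ) y := by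
    rcases hS with h | h
    · have := h.2.T
      rw [abs_of_nonneg hy0] at this
      linarith only [hx0, this]
    · have := h.2.T
      rw [abs_of_nonneg hy0] at this
      linarith only [this]
  have hx : 0 < sx (r * δ) y := by linarith only [hy, hT]
  have hE := Real.exp_pos y
  have hE' := Real.exp_pos (-y)
  have hEE := exp_mul_neg y
  have hs := hD.sin
  have hc := hD.cos
  have hψ0 := sP_nonneg (y := y) hρ hy0
  have hψ1 := (abs_le.1 (sP_abs_le (r * δ) y)).2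
  have hT' : Real.sin (sP (r * δ) y) ≤ 4 / 5 * Real.cos (sP (r * δ) y) := by
    rw [hs, hc]
    have : y * Real.exp y / (r * δ) ≤ (4 / 5 * sx (r * δ) y) * Real.exp y / (r * δ) := by gcongr
    linarith only [this, (by ring : (4 / 5 * sx (r * δ) y) * Real.exp y / (r * δ) = 4 / 5 * (sx (r * δ) y * Real.exp y / (r * δ)))]
  have hψ := ogl_psi hψ1 hT'
  have heta := hA.eta
  have hyη := eta_le_y hD hy0 hy1 hT
  rw [heta] at hyη
  obtain ⟨w1, w2⟩ := ogl_w hR hyη
  have hζ : ζ ≤ 2 / 5 * hst N := by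
    unfold ei1 at h1
    nlinarith only [h1, hh0, hom]
  have hρx : (r * δ) ^ (2 : ℕ) ≤ 6 * sx (r * δ) y ^ (2 : ℕ) := by
    have h8 := sx_sq_add hD
    have h9 : y ^ (2 : ℕ) ≤ (4 / 5 * sx (r * δ) y) ^ (2 : ℕ) := pow_le_pow_left₀ hy0 hT 2
    have h10 : (r * δ) ^ (2 : ℕ) = (r * δ * Real.exp (-y)) ^ (2 : ℕ) * Real.exp y ^ (2 : ℕ) := by
      have : (r * δ * Real.exp (-y)) ^ (2 : ℕ) * Real.exp y ^ (2 : ℕ) =
        (r * δ) ^ (2 : ℕ) * (Real.exp y * Real.exp (-y)) ^ (2 : ℕ) := by ring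
      rw [this, hEE]; ring
    have h11 : Real.exp y ≤ 19 / 10 := by
      have := ogl_exp_le hy0 hy1
      have h3 : y ^ (2 : ℕ) ≤ (14 / 25) ^ (2 : ℕ) := pow_le_pow_left₀ hy0 hy1 2
      have h4 : y ^ (3 : ℕ) ≤ (14 / 25) ^ (3 : ℕ) := pow_le_pow_left₀ hy0 hy1 3
      norm_num at h3 h4
      linarith only [hy1, this, h3, h4]
    have h12 : Real.exp y ^ (2 : ℕ) ≤ (361 / 100 : ℝ) := by nlinarith only [hE', hEE, h11]
    rw [h10, ← h8]
    have h13 : 0 ≤ sx (r * δ) y ^ (2 : ℕ) + y ^ (2 : ℕ) := by (clear * - hx hy; positivity)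
    have h14 := mul_le_mul_of_nonneg_left h12 h13
    nlinarith only [h9, h14]
  have hS0 : 0 < 1 + sx (r * δ) y + sx (r * δ) y ^ (2 : ℕ) := by (clear * - hx; positivity)
  have hI := hR.I
  unfold RR at hI
  have hτ := ogl_tau hx hI hρx
  refine ⟨hy, sx (r * δ) y * (1 + sx (r * δ) y) * (ζ / (1 + sx (r * δ) y + sx (r * δ) y ^ (2 : ℕ))),
    ζ / (1 + sx (r * δ) y + sx (r * δ) y ^ (2 : ℕ)), r * δ * Real.exp (-y), sP (r * δ) y, ?_, ?_⟩
  · field_simp
    ring
  · have hzτ : sx (r * δ) y * (1 + sx (r * δ) y) *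
        (ζ / (1 + sx (r * δ) y + sx (r * δ) y ^ (2 : ℕ))) +
        ζ / (1 + sx (r * δ) y + sx (r * δ) y ^ (2 : ℕ)) = ζ := by
      field_simp
      ring
    have hηe : sP (r * δ) y + r * δ - sx (r * δ) y = eo1 N r δ := heta
    refine
      { sh :=
        { x0 := hx
          y0 := hy0
          y1 := hy1
          T := hT
          z0 := by (clear * - hx h0; positivity)
          τ0 := by (clear * - h0 hx; positivity)
          zτ := rfl
          ζ := ?_
          τ1 := ?_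
          k0 := by (clear * - hr hδ; positivity)
          ψ0 := hψ0
          ψ1 := hψ
          hx := ?_
          hy := ?_ }
        rho := ?_
        r0 := hR.r0
        del := ?_
        G := ?_
        η := ?_
        ηζ := ?_
        w1 := w1
        w2 := w2
        yx := ?_ }
    · rw [hzτ]
      linarith only [hh, hp, hζ]
    · rw [div_le_iff₀ hS0]
      linarith only [hζ, hτ]
    · exact sx_eq hD
    · rw [hs]
      field_simp
      linarith only [hEE]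
    · rw [mul_assoc, mul_comm (Real.exp (-y)), hEE, mul_one]
    · field_simp
    · have h2 := hR.G
      unfold Gm at h2
      rw [le_div_iff₀ hRR] at h2
      refine h2.trans ?_
      refine mul_le_mul_of_nonneg_left ?_ hr.le
      exact pow_le_pow_left₀ hh0.le hh 2
    · rw [hηe]
      exact eo1_le hR.N3
    · rw [hηe, hzτ]
      have h2 : eo1 N r δ + ei1 N r δ = hst N := by
        unfold eo1 ei1
        ring
      linarith only [h1, hh, h2]
    · have h3 := K_mul_y_le hD hA.y1.le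
      rw [heta, abs_of_nonneg hy0, abs_of_nonneg heo.le] at h3
      have h4 := eo1_le (r := r) (δ := δ) hR.N3
      have h5 : eo1 N r δ * (1 + y) ≤ Real.pi / 2 * (1 + 14 / 25) := by gcongr
      nlinarith only [hp, hx0, hT, h3, h5]

end SokamV3O

end

/-! ### Lib_MP_af4de1_v3o.OGR -/

section
namespace SokamF1
end SokamF1
namespace SokamF1M
end SokamF1M
namespace SokamF1S
end SokamF1S
namespace SokamPG
end SokamPG
namespace SokamU
end SokamU
namespace SokamV3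
end SokamV3
/-!
# The parameters of the right side satisfy `FR`
-/

set_option autoImplicit false

open Complex MeasureTheory Set SokamU SokamPG SokamF1 SokamF1S SokamF1M SokamV3

namespace SokamV3O

private theorem psi_le_ogr {ψ : ℝ} (h1 : ψ ≤ Real.pi / 2)
    (h : Real.sin ψ ≤ 4 / 5 * Real.cos ψ) : ψ ≤ 27 / 40 := by
  by_contra hcon
  push Not at hcon
  have hp := Real.pi_lt_d4
  have hp0 := Real.pi_gt_three
  have hs := Real.sin_sub (Real.pi / 4) ψ
  have hc := Real.cos_sub (Real.pi / 4) ψ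
  rw [Real.sin_pi_div_four, Real.cos_pi_div_four] at hs hc
  set u : ℝ := Real.pi / 4 - ψ with hu
  have h2 : 0 < √2 / 2 := by positivity
  -- `cos u ≤ 9 sin u`
  have h3 : Real.cos u ≤ 9 * Real.sin u := by
    rw [hs, hc]
    have := mul_le_mul_of_nonneg_left h h2.le
    linarith only [this]
  have h4 : u < 1104 / 10000 := by rw [hu]; linarith only [hcon, hp]
  rcases le_total u 0 with h5 | h5
  · have h6 : 0 < Real.cos u :=
      Real.cos_pos_of_mem_Ioo ⟨by rw [hu]; linarith only [h1, hcon], by linarith only [hp0, h5]⟩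
    have h7 : Real.sin u ≤ 0 := Real.sin_nonpos_of_nonpos_of_neg_pi_le h5 (by rw [hu]; linarith only [h1, hcon])
    linarith only [h3, h6, h7]
  · have h6 : Real.sin u ≤ u := Real.sin_le h5
    have h7 := Real.one_sub_sq_div_two_le_cos (x := u)
    have h8 : u ^ (2 : ℕ) ≤ (1104 / 10000) ^ (2 : ℕ) := pow_le_pow_left₀ h5 h4.le 2
    linarith only [h3, h4, h6, h7, h8]

private theorem psi_cos_ogr {ψ : ℝ} (h0 : 0 ≤ ψ) (h1 : ψ < Real.pi / 2) :
    ψ * Real.cos ψ ≤ Real.sin ψ := by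
  have h2 : 0 < Real.cos ψ := Real.cos_pos_of_mem_Ioo ⟨by linarith only [h0, h1], h1⟩
  have h3 := Real.le_tan h0 h1
  rwa [Real.tan_eq_sin_div_cos, le_div_iff₀ h2] at h3

private theorem exp_ub_ogr {n : ℝ} (h0 : 0 ≤ n) (h1 : n ≤ 53 / 100) :
    Real.exp n ≤ 1 + 3 / 2 * n := by
  have h := Real.exp_bound' h0 (by linarith only [h1]) (n := 3) (by norm_num)
  simp only [Finset.sum_range_succ, Finset.sum_range_zero, pow_zero, pow_one, Nat.factorial] at h
  norm_num at h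
  have h2 : n ^ (2 : ℕ) ≤ 53 / 100 * n := by
    rw [sq]
    exact mul_le_mul_of_nonneg_right h1 h0
  have h3 : n ^ (3 : ℕ) ≤ (53 / 100) ^ (2 : ℕ) * n := by
    have : n ^ (3 : ℕ) = n ^ (2 : ℕ) * n := by ring
    rw [this]
    exact mul_le_mul_of_nonneg_right (pow_le_pow_left₀ h0 h1 2) h0
  linarith only [h0, h, h2, h3]

/-- the polar form of the saddle point, right side -/
private theorem pol_ogr {ρ y : ℝ} (hD : Dom ρ y) (h0 : y < 0) (hT : -y ≤ 4 / 5 * sx ρ y) :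
    0 < sx ρ y ∧ 0 < ρ * Real.exp (-y) ∧ 0 ≤ -sP ρ y ∧ -sP ρ y < Real.pi / 2 ∧
      -sP ρ y ≤ 27 / 40 ∧ sx ρ y = ρ * Real.exp (-y) * Real.cos (-sP ρ y) ∧
      -y = ρ * Real.exp (-y) * Real.sin (-sP ρ y) := by
  have hx : 0 < sx ρ y := by linarith only [h0, hT]
  have hk : 0 < ρ * Real.exp (-y) := mul_pos hD.1 (Real.exp_pos _)
  have hψ := sP_nonpos hD.1 h0.le
  have hψ2 := (abs_le.1 (sP_abs_le ρ y)).1
  have e1 := sx_eq hD
  have e2 := y_eq hD
  have e1' : sx ρ y = ρ * Real.exp (-y) * Real.cos (-sP ρ y) := by rw [Real.cos_neg]; exact e1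
  have e2' : -y = ρ * Real.exp (-y) * Real.sin (-sP ρ y) := by
    rw [Real.sin_neg]
    linarith only [e2]
  have hc : 0 < Real.cos (-sP ρ y) := by
    by_contra hcon
    push Not at hcon
    have := mul_nonpos_of_nonneg_of_nonpos hk.le hcon
    linarith only [hx, e1', this]
  have hlt : -sP ρ y < Real.pi / 2 := by
    rcases (show -sP ρ y ≤ Real.pi / 2 by linarith only [hψ2]).eq_or_lt with h | h
    · rw [h, Real.cos_pi_div_two] at hc
      exact absurd hc (lt_irrefl 0)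
    · exact h
  refine ⟨hx, hk, by linarith only [hψ], hlt, psi_le_ogr hlt.le ?_, e1', e2'⟩
  have h3 : ρ * Real.exp (-y) * Real.sin (-sP ρ y) ≤
      ρ * Real.exp (-y) * (4 / 5 * Real.cos (-sP ρ y)) := by
    rw [← e2']
    have : ρ * Real.exp (-y) * (4 / 5 * Real.cos (-sP ρ y)) = 4 / 5 * sx ρ y := by
      rw [e1']
      ring
    rw [this]
    exact hT
  exact le_of_mul_le_mul_left h3 hk

/-- `-η ≤ 3/2 |y| (ρ + 1/ρ)` (right side) -/
theorem eta_le_n {ρ y : ℝ} (hD : Dom ρ y) (h0 : y ≤ 0) (h1 : -(53 / 100) ≤ y)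
    (hT : -y ≤ 4 / 5 * sx ρ y) (hD2 : 13 / 20 ≤ sD2 ρ y) :
    -sE ρ y ≤ 3 / 2 * -y * (ρ + 1 / ρ) := by
  have hρ := hD.1
  rcases h0.eq_or_lt with h | h
  · rw [h, sE_zero hρ]
    simp
  obtain ⟨hx, hk, hψ0, hψ1, -, e1, e2⟩ := pol_ogr hD h hT
  have hsq := sx_sq_add hD
  have he := exp_ub_ogr (n := -y) (by linarith only [h]) (by linarith only [h1])
  have he1 : 1 ≤ Real.exp (-y) := Real.one_le_exp (by linarith only [h])
  have hc := psi_cos_ogr hψ0 hψ1
  have hxk := sx_le hD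
  set k : ℝ := ρ * Real.exp (-y) with hkd
  -- `ρ ≤ 3/2 x`
  have hρk : ρ ≤ k := by
    rw [hkd]
    exact le_mul_of_one_le_right hρ.le he1
  have hkx : k ≤ 3 / 2 * sx ρ y := by
    refine abs_le_of_sq_le_sq' ?_ (by linarith only [hx]) |>.2
    have h3 : (-y) ^ (2 : ℕ) ≤ (4 / 5 * sx ρ y) ^ (2 : ℕ) := pow_le_pow_left₀ (by linarith only [h]) hT 2
    have h4 : 0 ≤ sx ρ y ^ (2 : ℕ) := sq_nonneg _
    rw [← hsq]
    linarith only [h3, h4]
  -- `ψ x ≤ n`
  have hψx : -sP ρ y * sx ρ y ≤ -y := by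
    have h3 := mul_le_mul_of_nonneg_left hc hk.le
    rw [← e2] at h3
    have h4 : -sP ρ y * sx ρ y = k * (-sP ρ y * Real.cos (-sP ρ y)) := by
      conv_lhs => rw [e1]
      ring
    rw [h4]
    exact h3
  have hψρ : -sP ρ y ≤ 3 / 2 * -y * (1 / ρ) := by
    rw [mul_one_div, le_div_iff₀ hρ]
    have h3 : -sP ρ y * ρ ≤ -sP ρ y * (3 / 2 * sx ρ y) :=
      mul_le_mul_of_nonneg_left (hρk.trans hkx) hψ0
    linarith only [hψx, h3]
  have hxρ : sx ρ y - ρ ≤ 3 / 2 * -y * ρ := by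
    have h3 : k ≤ ρ * (1 + 3 / 2 * -y) := by
      rw [hkd]
      exact mul_le_mul_of_nonneg_left he hρ.le
    linarith only [hxk, h3]
  have : -sE ρ y = -sP ρ y + (sx ρ y - ρ) := by
    unfold sE
    ring
  rw [this, mul_add]
  linarith only [hψρ, hxρ]

/-- glue, right side -/
theorem glueR {N : ℕ} {r δ y ζ : ℝ} (hR : Reg1 N r δ) (hA : At r δ y (-eo1 N r δ))
    (hS : Sad1 N r δ y) (h0 : ζ ≤ 0) (h1 : -ei1 N r δ ≤ ζ) :
    y < 0 ∧ ∃ z τ k ψ : ℝ, z + τ = -ζ ∧ FR (sx (r * δ) y) (-y) z τ k ψ (r * δ) r δ := by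
  have hr := hR.r0
  have hδ := hR.d0
  have hr0 : 0 < r := by linarith only [hr]
  have hD := hA.dom
  have hρ := hD.1
  have hN3 := hR.N3
  have hp := Real.pi_pos
  have hp1 := Real.pi_gt_three
  have hp2 := Real.pi_lt_d4
  have hh : hst N ≤ 2 * Real.pi / 3 := by
    unfold hst
    have hN3' : (3 : ℝ) ≤ N := by exact_mod_cast hN3
    gcongr
  have hh0 : 0 < hst N := by
    unfold hst
    have hN3' : (3 : ℝ) ≤ N := by exact_mod_cast hN3
    positivity
  -- the window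
  have hom : 1 / 10 ≤ om1 N r δ ∧ om1 N r δ ≤ 1 / 4 ∧
      81 / 20 ≤ (1 / 2 + om1 N r δ) * Gm N r δ ∧
      243 / 80 ≤ (1 / 2 + om1 N r δ) ^ (2 : ℕ) * Gm N r δ := by
    have hG := hR.G
    unfold om1
    split_ifs with g1 g2
    · exact ⟨by norm_num, by norm_num, by linarith only [hG], by linarith only [hG]⟩
    · push Not at g1
      exact ⟨by norm_num, by norm_num, by linarith only [g1], by linarith only [g1]⟩
    · push Not at g1 g2
      exact ⟨by norm_num, by norm_num, by linarith only [g2], by linarith only [g2]⟩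
  obtain ⟨ho0, ho1, hoG, hoG2⟩ := hom
  set om : ℝ := om1 N r δ with homd
  set h : ℝ := hst N with hhd
  have heo : eo1 N r δ = (1 / 2 + om) * h := rfl
  have hei : ei1 N r δ = (1 / 2 - om) * h := rfl
  have heo0 : 0 < eo1 N r δ := by
    rw [heo]
    exact mul_pos (by linarith only [ho0]) hh0
  -- the sign
  have hy : y < 0 := by
    by_contra hcon
    push Not at hcon
    have h2 := two_y_le hD hcon
    rw [hA.eta] at h2
    have h3 := sq_nonneg y
    linarith only [heo0, hcon, h2, h3]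
  have hlo : -(53 / 100) ≤ y := by
    rcases hS with h | h
    · linarith only [h.2.lo]
    · linarith only [h.2.lo]
  have habs : |y| = -y := abs_of_neg hy
  have hT : -y ≤ 4 / 5 * sx (r * δ) y := by
    have hx := sx_nonneg (r * δ) y
    rcases hS with h | h
    · have := h.2.T
      rw [habs] at this
      linarith only [hx, this]
    · have := h.2.T
      rwa [habs] at this
  have hD2 : 13 / 20 ≤ sD2 (r * δ) y := by
    rcases hS with h | h
    · linarith only [h.2.D]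
    · exact h.2.D
  obtain ⟨hx, hk, hψ0, hψ1, hψ2, e1, e2⟩ := pol_ogr hD hy hT
  have heta := eta_le_n hD hy.le hlo hT hD2
  rw [hA.eta, neg_neg] at heta
  have hsE : -sP (r * δ) y + sx (r * δ) y - r * δ = eo1 N r δ := by
    have := hA.eta
    unfold sE at this
    linarith only [this]
  have hyx := K_mul_y_le hD hA.y1.le
  rw [hA.eta, habs, abs_neg, abs_of_pos heo0] at hyx
  have hpi2 := eo1_le (r := r) (δ := δ) hN3
  -- `R`
  set ρ : ℝ := r * δ with hρd
  have hRR : RR r δ = 1 + ρ ^ (2 : ℕ) := rfl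
  have hRR0 : 0 < 1 + ρ ^ (2 : ℕ) := by positivity
  have hGm : Gm N r δ * (1 + ρ ^ (2 : ℕ)) = r * h ^ (2 : ℕ) := by
    unfold Gm
    rw [hRR]
    exact div_mul_cancel₀ _ hRR0.ne'
  -- `η ρ ≤ 3/2 n R`
  have hηR : eo1 N r δ * ρ ≤ 3 / 2 * -y * (1 + ρ ^ (2 : ℕ)) := by
    have h3 := mul_le_mul_of_nonneg_right heta hρ.le
    have h4 : 3 / 2 * -y * (ρ + 1 / ρ) * ρ = 3 / 2 * -y * (1 + ρ ^ (2 : ℕ)) := by
      field_simp
      ring
    rwa [h4] at h3
  have hk1 : ρ * Real.exp (-y) * Real.exp y = ρ := by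
    rw [mul_assoc, mul_comm (Real.exp (-y)), exp_mul_neg, mul_one]
  -- `c R ≤ r η` gives `c δ ≤ 3/2 n`
  have hw : ∀ c : ℝ, c * (1 + ρ ^ (2 : ℕ)) ≤ r * eo1 N r δ → c * δ ≤ 3 / 2 * -y := by
    intro c hc
    have h3 : c * δ * (r * (1 + ρ ^ (2 : ℕ))) ≤ 3 / 2 * -y * (r * (1 + ρ ^ (2 : ℕ))) := by
      have h4 := mul_le_mul_of_nonneg_right hc hρ.le
      have h5 := mul_le_mul_of_nonneg_left hηR hr0.le
      have h6 : c * δ * (r * (1 + ρ ^ (2 : ℕ))) = c * (1 + ρ ^ (2 : ℕ)) * ρ := by rw [hρd]; ring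
      rw [h6]
      linarith only [h4, h5]
    exact le_of_mul_le_mul_right h3 (by positivity)
  set x : ℝ := sx ρ y with hxd
  set n : ℝ := -y with hnd
  have hxx : 0 < 1 + x + x ^ (2 : ℕ) := by positivity
  refine ⟨hy, x * (1 + x) * (-ζ / (1 + x + x ^ (2 : ℕ))), -ζ / (1 + x + x ^ (2 : ℕ)), ρ * Real.exp n, -sP ρ y,
    ?_, ?_⟩
  · field_simp
    ring
  have hζ1 : -ζ ≤ (1 / 2 - om) * h := by
    rw [← hei]
    linarith only [h1]
  have hzt : x * (1 + x) * (-ζ / (1 + x + x ^ (2 : ℕ))) + -ζ / (1 + x + x ^ (2 : ℕ)) = -ζ := by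
    field_simp
    ring
  have hsh : ShR x n (x * (1 + x) * (-ζ / (1 + x + x ^ (2 : ℕ)))) (-ζ / (1 + x + x ^ (2 : ℕ)))
      (ρ * Real.exp n) (-sP ρ y) := by
    have hτ0 : 0 ≤ -ζ / (1 + x + x ^ (2 : ℕ)) := div_nonneg (by linarith only [h0]) hxx.le
    refine ⟨hx, by linarith only [hy], by linarith only [hlo], hT, by positivity, hτ0, rfl, ?_, ?_, hk, hψ0, hψ2, e1, e2⟩
    · rw [hzt]
      have h3 : (1 / 2 - om) * h ≤ 2 / 5 * (2 * Real.pi / 3) :=
        mul_le_mul (by linarith only [ho0]) hh hh0.le (by norm_num)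
      linarith only [hp2, hζ1, h3]
    · rw [div_le_iff₀ hxx]
      -- `ei1 ≤ 2/3 eo1`
      have h3 : (1 / 2 - om) * h ≤ 2 / 3 * ((1 / 2 + om) * h) := by
        have : 0 ≤ (om - 1 / 10) * h := mul_nonneg (by linarith only [ho0]) hh0.le
        linarith only [this]
      rw [heo] at hsE
      have h4 : 1 / 4 * x ≤ ρ := by
        have h5 : x ≤ ρ * Real.exp n := sx_le hD
        have h6 : Real.exp n ≤ 2 := by
          have := exp_ub_ogr (n := n) (by linarith only [hy]) (by linarith only [hlo])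
          linarith only [hlo, this]
        have h7 := mul_le_mul_of_nonneg_left h6 hρ.le
        linarith only [hk, h5, h7]
      have h5 : 0 ≤ x ^ (2 : ℕ) := sq_nonneg x
      linarith only [hψ2, hsE, hζ1, h3, h4, h5]
  refine ⟨hsh, ?_, hr, ?_, ?_, ?_, ?_, ?_, ?_, ?_, ?_⟩
  · rw [hnd, neg_neg, hk1]
  · rw [hρd]
    field_simp
  · have h3 : sD2 ρ y = (1 - n) ^ (2 : ℕ) + x ^ (2 : ℕ) := by
      unfold sD2
      rw [hnd]
      ring
    rw [← h3]
    exact hD2
  · have h3 : 27 / 5 * (1 + ρ ^ (2 : ℕ)) ≤ Gm N r δ * (1 + ρ ^ (2 : ℕ)) :=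
      mul_le_mul_of_nonneg_right hR.G hRR0.le
    rw [hGm] at h3
    have h4 : r * h ^ (2 : ℕ) ≤ r * (2 * Real.pi / 3) ^ (2 : ℕ) :=
      mul_le_mul_of_nonneg_left (pow_le_pow_left₀ hh0.le hh 2) hr0.le
    exact h3.trans h4
  · rw [hsE]
    exact hpi2
  · rw [hzt, hsE, heo]
    have : (1 / 2 + om) * h + (1 / 2 - om) * h = h := by ring
    linarith only [h1, hh, hei]
  · -- `15/8 R ≤ r η`
    have h3 := hw (15 / 8) (by
      rw [heo]
      -- multiply by `h`
      have h4 : 15 / 8 * (1 + ρ ^ (2 : ℕ)) * h ≤ r * ((1 / 2 + om) * h) * h := by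
        have h5 : r * ((1 / 2 + om) * h) * h = (1 / 2 + om) * Gm N r δ * (1 + ρ ^ (2 : ℕ)) := by
          have : r * ((1 / 2 + om) * h) * h = (1 / 2 + om) * (r * h ^ (2 : ℕ)) := by ring
          rw [this, ← hGm]
          ring
        rw [h5]
        have h6 : 81 / 20 * (1 + ρ ^ (2 : ℕ)) ≤ (1 / 2 + om) * Gm N r δ * (1 + ρ ^ (2 : ℕ)) :=
          mul_le_mul_of_nonneg_right hoG hRR0.le
        have h7 : 15 / 8 * (1 + ρ ^ (2 : ℕ)) * h ≤ 15 / 8 * (1 + ρ ^ (2 : ℕ)) * (216 / 100) :=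
          mul_le_mul_of_nonneg_left (by linarith only [hp2, hh]) (by positivity)
        linarith only [h6, h7]
      exact le_of_mul_le_mul_right h4 hh0)
    linarith only [h3]
  · intro hρ1
    have h3 := hw 6 (by
      have hη0 : 0 ≤ r * eo1 N r δ := by positivity
      refine abs_le_of_sq_le_sq' ?_ hη0 |>.2
      have h4 : (r * eo1 N r δ) ^ (2 : ℕ) = r * ((1 / 2 + om) ^ (2 : ℕ) * Gm N r δ) * (1 + ρ ^ (2 : ℕ)) := by
        have : (r * eo1 N r δ) ^ (2 : ℕ) = r * (1 / 2 + om) ^ (2 : ℕ) * (r * h ^ (2 : ℕ)) := by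
          rw [heo]
          ring
        rw [this, ← hGm]
        ring
      rw [h4]
      have h5 : 499 / 10 * (243 / 80) ≤ r * ((1 / 2 + om) ^ (2 : ℕ) * Gm N r δ) :=
        mul_le_mul hr hoG2 (by norm_num) hr0.le
      have h6 := mul_le_mul_of_nonneg_right h5 hRR0.le
      have h7 : 1 + ρ ^ (2 : ℕ) ≤ 389 / 100 := by
        have : ρ ^ (2 : ℕ) ≤ (17 / 10) ^ (2 : ℕ) := pow_le_pow_left₀ hρ.le hρ1 2
        linarith only [this]
      have h8 := mul_le_mul_of_nonneg_right h7 hRR0.le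
      have h9 : (6 * (1 + ρ ^ (2 : ℕ))) ^ (2 : ℕ) = 36 * ((1 + ρ ^ (2 : ℕ)) * (1 + ρ ^ (2 : ℕ))) := by ring
      rw [h9]
      linarith only [hRR0, h6, h8])
    linarith only [h3]
  · have h3 : eo1 N r δ * (1 + n) ≤ 158 / 100 * (153 / 100) :=
      mul_le_mul (by linarith only [hp2, hpi2]) (by linarith only [hlo]) (by linarith only [hy]) (by norm_num)
    linarith only [hlo, hyx, h3]

end SokamV3O

end

/-! ### Lib_MP_af4de1_v3o.OFin -/

section
namespace SokamF1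
end SokamF1
namespace SokamF1G
end SokamF1G
namespace SokamF1M
end SokamF1M
namespace SokamF1S
end SokamF1S
namespace SokamPG
end SokamPG
namespace SokamU
end SokamU
namespace SokamV3
end SokamV3
/-!
# The fields `PShfL.o` and `PShfR.o`
-/

set_option autoImplicit false

open Complex MeasureTheory Set SokamU SokamPG SokamF1S SokamF1M SokamV3 SokamF1G
open SokamF1 hiding Qf

namespace SokamV3O

theorem int_split {F : ℝ → ℝ} (hF : Integrable F) :
    ∫ s : ℝ, F s = coreS F + ((∫ s in Ioi (3 / 2 : ℝ), F s) + ∫ v in Ioi (3 / 2 : ℝ), F (-v)) := by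
  rw [split_all hF, split_half hF, split_half (G := fun v => F (-v)) hF.comp_neg]
  unfold coreS
  ring

theorem pa_small {x s : ℝ} (hx : 0 ≤ x) (_h0 : 0 ≤ s) (h1 : s ≤ 1) : pa x s = s / (1 + x) := by
  have h : 0 < 1 + x := by linarith
  unfold pa a4
  refine min_eq_left (le_min ?_ ?_)
  · rw [div_le_one h]
    linarith
  · gcongr
    linarith

theorem ga_small {x v : ℝ} (hx : 0 ≤ x) (h0 : 0 ≤ v) (h1 : v ≤ 1) :
    ga x (-v) = -(v / (1 + x)) := by
  have h : 0 < 1 + x := by linarith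
  have h3 : 0 ≤ v / (1 + x) := by positivity
  have h2 : v / (1 + x) ≤ 1 := by
    rw [div_le_one h]
    linarith
  unfold ga
  rw [neg_div, min_eq_right (by linarith), max_eq_right (by linarith)]

theorem Shp.K_eq {x y z τ k ψ Y : ℝ} (h : Shp x y z τ k ψ Y) : √(x ^ (2 : ℕ) + y ^ (2 : ℕ)) = k := by
  have e : x ^ (2 : ℕ) + y ^ (2 : ℕ) = k ^ (2 : ℕ) := by
    rw [h.hx, h.hy]
    have := Real.sin_sq_add_cos_sq ψ
    nlinarith only [this]
  rw [e, Real.sqrt_sq h.k0.le]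

theorem exp_j_le {j : ℕ} (hj : j ≤ 1) {a : ℝ} (_h0 : 0 ≤ a) (h1 : a ≤ 1) :
    Real.exp (j * a) ≤ Real.exp 1 := by
  apply Real.exp_le_exp.2
  have hj1 : (j : ℝ) ≤ 1 := by exact_mod_cast hj
  have hj0 : (0 : ℝ) ≤ j := Nat.cast_nonneg j
  nlinarith only [h1, hj1]

theorem exp_j_neg {j : ℕ} {a : ℝ} (h0 : 0 ≤ a) : Real.exp (j * -a) ≤ 1 := by
  rw [Real.exp_le_one_iff]
  have hj0 : (0 : ℝ) ≤ j := Nat.cast_nonneg j
  linarith only [mul_nonneg hj0 h0]

/-- an upper bound for the integrand, right half -/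
theorem Wt_pos_le {x y z τ δ s A : ℝ} {j : ℕ} (hx : 0 ≤ x) (hs : 0 ≤ s)
    (hA : A ≤ Hc x y z τ (pa x s) s / δ) :
    Wt x y z τ δ j s ≤ √(1 + ((1 + x)⁻¹) ^ (2 : ℕ)) * (Real.exp (j * pa x s) * Real.exp (-A)) := by
  unfold Wt
  rw [pr_pos hx hs]
  have h1 := pv_le hx s
  gcongr

/-- an upper bound for the integrand, left half -/
theorem Wt_neg_le {x y z τ δ v A : ℝ} {j : ℕ} (hx : 0 ≤ x) (hv : 0 ≤ v)
    (hA : A ≤ Hc x y z τ (-(pa x v)) (-v) / δ) :
    Wt x y z τ δ j (-v) ≤ √(1 + ((1 + x)⁻¹) ^ (2 : ℕ)) * Real.exp (-A) := by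
  unfold Wt
  rw [pr_neg hx hv]
  have h1 := pv_le hx (-v)
  have h2 := exp_j_neg (j := j) (pa_nonneg hx hv)
  have h3 : Real.exp (j * -(pa x v)) *
      Real.exp (-(Hc x y z τ (-(pa x v)) (-v) / δ)) ≤ 1 * Real.exp (-A) := by
    gcongr
  rw [one_mul] at h3
  gcongr

theorem FL.dpos {x y z τ k ψ ρ r δ : ℝ} (h : FL x y z τ k ψ ρ r δ) : 0 < δ := by
  have hk := h.sh.k0
  have hr : 0 < r := by linarith [h.r0]
  rw [h.del, h.rho]
  have := Real.exp_pos y
  positivity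

theorem FR.dpos {x n z τ k ψ ρ r δ : ℝ} (h : FR x n z τ k ψ ρ r δ) : 0 < δ := by
  have hk := h.sh.k0
  have hr : 0 < r := by linarith [h.r0]
  rw [h.del, h.rho]
  have := Real.exp_pos (-n)
  positivity

theorem lt_a4 {x y : ℝ} (hx : 0 ≤ x) (h1 : y < 1) (h : y * (1 + x) < 4) : y < a4 x := by
  have hX : 0 < 1 + x := by linarith
  unfold a4
  refine lt_min h1 ?_
  rwa [lt_div_iff₀ hX]

/-- left side -/
theorem FL.int {x y z τ k ψ ρ r δ : ℝ} {j : ℕ} (h : FL x y z τ k ψ ρ r δ) (hy0 : 0 < y)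
    (hj : j ≤ 1) : ∫ s : ℝ, Wt x y z τ δ j s ≤ 23 / 20 * Gn x y δ := by
  have hδ := h.dpos
  have S : Shp x y z τ k ψ (14 / 25) := h.sh
  have hx := S.x0.le
  have hr := h.r0
  have hr0 : 0 < r := by linarith
  have hrd : r * δ = √(x ^ (2 : ℕ) + y ^ (2 : ℕ)) * Real.exp y := by
    rw [S.K_eq, h.del, ← h.rho]
    field_simp
  have hDG : DomG x y := ⟨hx, by linarith, by linarith [S.y1], by nlinarith only [hy0]⟩
  have hFi : Integrable (Wt x y z τ δ j) := integrable_Wt hx hδ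
    (by rw [abs_of_pos hy0]; exact lt_a4 hx (by linarith [S.y1]) h.yx) hy0.ne' z τ j
  obtain ⟨t, w, t0, t1, w0, hw, hs⟩ := shLr h
  have hQ : 0 ≤ Qf x y / δ := by
    have hb := SokamF1B.s1_B hx hy0.le (by linarith [S.y1])
    rw [← hrd] at hb
    have : 0 < r * δ := by positivity
    have : 0 < Qf x y := by linarith
    positivity
  have core : coreS (Wt x y z τ δ j) ≤ 1124 / 1000 * Gn x y δ := by
    refine coreL hx hy0.le (by linarith [S.y1]) hδ hr hrd hj hFi t0 t1 hw ?_ ?_ ?_ ?_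
    · intro s h0 h1
      have h2 := hs s h0 h1
      rw [← pa_small hx h0 h1] at h2
      have h3 := Wt_pos_le (j := j) hx h0 h2
      have e : pa x s = (1 + x)⁻¹ * s := by
        rw [pa_small hx h0 h1, inv_mul_eq_div]
      rw [e] at h3
      exact h3
    · intro v h0 h1
      refine Wt_neg_le hx h0 ?_
      rw [pa_small hx h0 h1]
      have h2 := dLl h.sh h0 h1
      have h3 := G3_pos hDG hy0.le (s := -v) (by linarith) (by linarith)
      unfold Hf at h3
      rw [ga_small hx h0 h1] at h3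
      rw [le_div_iff₀ hδ]
      calc (0 + 1 * (Qf x y / δ * ((1 - 3 / 10 * v) * v ^ (2 : ℕ)))) * δ =
            (1 + 3 / 10 * -v) * Qf x y * (-v) ^ (2 : ℕ) := by
              field_simp
              ring
        _ ≤ _ := h3
        _ ≤ _ := h2
    · intro s h0 h1
      have h2 := mLr h.sh h0 h1
      have h3 : 11 / 20 * (Qf x y / δ) ≤ Hc x y z τ (pa x s) s / δ := by
        rw [le_div_iff₀ hδ]
        have e : 11 / 20 * (Qf x y / δ) * δ = 11 / 20 * Qf x y * 1 := by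
          field_simp
        rw [e]
        refine le_trans ?_ h2
        have hQ' : 0 ≤ Qf x y := by
          have := mul_nonneg hQ hδ.le
          rwa [div_mul_cancel₀ _ hδ.ne'] at this
        have : 1 ≤ s ^ (2 : ℕ) := by nlinarith only [h0]
        gcongr
      refine (Wt_pos_le (j := j) hx (by linarith) h3).trans ?_
      have := exp_j_le hj (pa_nonneg hx (by linarith : 0 ≤ s)) ((pa_le x s).trans (a4_le x))
      gcongr
    · intro v h0 h1
      refine Wt_neg_le hx (by linarith) ?_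
      have h2 := mLl h.sh h0 h1
      rw [le_div_iff₀ hδ]
      have e : 11 / 20 * (Qf x y / δ) * δ = 11 / 20 * Qf x y * 1 := by
        field_simp
      rw [e]
      refine le_trans ?_ h2
      have hQ' : 0 ≤ Qf x y := by
        have := mul_nonneg hQ hδ.le
        rwa [div_mul_cancel₀ _ hδ.ne'] at this
      have : 1 ≤ v ^ (2 : ℕ) := by nlinarith only [h0]
      gcongr
  have T1 := (tailLr h hj).2
  have T2 := (tailLl h hj).2
  have hG : 0 ≤ Gn x y δ := Real.sqrt_nonneg _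
  rw [int_split hFi]
  linarith

/-- right side -/
theorem FR.int {x n z τ k ψ ρ r δ : ℝ} {j : ℕ} (h : FR x n z τ k ψ ρ r δ) (hn0 : 0 < n)
    (hj : j ≤ 1) : ∫ s : ℝ, Wt x (-n) (-z) (-τ) δ j s ≤ 5 / 4 * Gn x (-n) δ := by
  have hδ := h.dpos
  have S : Shp x n z τ k ψ (53 / 100) := h.sh
  have hx := S.x0.le
  have hr := h.r0
  have hr0 : 0 < r := by linarith
  have hrd : r * δ = √(x ^ (2 : ℕ) + n ^ (2 : ℕ)) * Real.exp (-n) := by
    rw [S.K_eq, h.del, ← h.rho]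
    field_simp
  have hDG : DomG x (-n) := ⟨hx, by linarith [S.y1], by linarith, by
    rw [← sub_eq_add_neg]
    linarith [h.D]⟩
  have hFi : Integrable (Wt x (-n) (-z) (-τ) δ j) := integrable_Wt hx hδ
    (by rw [abs_neg, abs_of_pos hn0]; exact lt_a4 hx (by linarith [S.y1]) h.yx)
    (by linarith [hn0] : (-n : ℝ) < 0).ne (-z) (-τ) j
  obtain ⟨t, w, t0, t1, w0, hw, hs⟩ := shRr h
  obtain ⟨t', w', t0', t1', w0', hw', hs'⟩ := shRl h
  have hN : SokamF1B.NegF x (-n) := SokamF1B.negF_small hx (by linarith [S.y1]) (by linarith)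
    (by linarith [S.T]) (by rw [← sub_eq_add_neg]; exact h.D)
  have hQ' : 0 ≤ Qf x (-n) := hN.q.le
  have core : coreS (Wt x (-n) (-z) (-τ) δ j) ≤ 6 / 5 * Gn x (-n) δ := by
    refine coreR hx hn0.le S.y1 S.T h.D hδ hr hrd hj hFi t0 t1 hw t0' t1' hw' ?_ ?_ ?_ ?_
    · intro s h0 h1
      have h2 := hs s h0 h1
      rw [← pa_small hx h0 h1] at h2
      have h3 := Wt_pos_le (j := j) hx h0 h2
      have e : pa x s = (1 + x)⁻¹ * s := by
        rw [pa_small hx h0 h1, inv_mul_eq_div]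
      rw [e] at h3
      exact h3
    · intro v h0 h1
      refine Wt_neg_le hx h0 ?_
      rw [pa_small hx h0 h1]
      exact hs' v h0 h1
    · intro s h0 h1
      have h2 := mRr h.sh h0 h1
      have h3 : 2 / 5 * (Qf x (-n) / δ) ≤ Hc x (-n) (-z) (-τ) (pa x s) s / δ := by
        rw [le_div_iff₀ hδ]
        have e : 2 / 5 * (Qf x (-n) / δ) * δ = 2 / 5 * Qf x (-n) * 1 := by
          field_simp
        rw [e]
        refine le_trans ?_ h2
        have : 1 ≤ s ^ (2 : ℕ) := by nlinarith only [h0]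
        have := mul_le_mul_of_nonneg_left this hQ'
        linarith
      refine (Wt_pos_le (j := j) hx (by linarith) h3).trans ?_
      have := exp_j_le hj (pa_nonneg hx (by linarith : 0 ≤ s)) ((pa_le x s).trans (a4_le x))
      gcongr
    · intro v h0 h1
      refine Wt_neg_le hx (by linarith) ?_
      have h2 := mRl h.sh h0 h1
      rw [le_div_iff₀ hδ]
      have e : 2 / 5 * (Qf x (-n) / δ) * δ = 2 / 5 * Qf x (-n) * 1 := by
        field_simp
      rw [e]
      refine le_trans ?_ h2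
      have : 1 ≤ v ^ (2 : ℕ) := by nlinarith only [h0]
      gcongr
  have T1 := (tailRr h hj).2
  have T2 := (tailRl h hj).2
  have hG : 0 ≤ Gn x (-n) δ := Real.sqrt_nonneg _
  rw [int_split hFi]
  linarith

/-- The field `PShfL.o`. -/
theorem shfL_o (N : ℕ) (r δ y ζ : ℝ) (hR : Reg1 N r δ) (hA : At r δ y (eo1 N r δ))
    (hS : Sad1 N r δ y) (h0 : 0 ≤ ζ) (h1 : ζ ≤ ei1 N r δ) : Out r δ y ζ (23 / 20) := by
  obtain ⟨hy0, z, τ, k, ψ, hζ, h⟩ := glueL hR hA hS h0 h1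
  rw [← hζ]
  have S : Shp _ y z τ k ψ (14 / 25) := h.sh
  refine out_of_Wt hR.d0 hA.dom hA.y1 ?_ hy0.ne' ?_ ?_
  · rw [abs_of_pos hy0]
    exact lt_a4 S.x0.le (by linarith [S.y1]) h.yx
  · rw [sG_eq_Gn]
    exact h.int hy0 (by norm_num)
  · rw [sG_eq_Gn]
    exact h.int hy0 le_rfl

/-- The field `PShfR.o`. -/
theorem shfR_o (N : ℕ) (r δ y ζ : ℝ) (hR : Reg1 N r δ) (hA : At r δ y (-eo1 N r δ))
    (hS : Sad1 N r δ y) (h0 : ζ ≤ 0) (h1 : -ei1 N r δ ≤ ζ) : Out r δ y ζ (5 / 4) := by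
  obtain ⟨hy0, z, τ, k, ψ, hζ, h⟩ := glueR hR hA hS h0 h1
  have e : ζ = -z + -τ := by linarith
  rw [e]
  have S : Shp _ (-y) z τ k ψ (53 / 100) := h.sh
  have hn0 : 0 < -y := by linarith
  have I0 := h.int (j := 0) hn0 (by norm_num)
  have I1 := h.int (j := 1) hn0 le_rfl
  rw [neg_neg] at I0 I1
  refine out_of_Wt hR.d0 hA.dom hA.y1 ?_ hy0.ne ?_ ?_
  · rw [abs_of_neg hy0]
    exact lt_a4 S.x0.le (by linarith [S.y1]) h.yx
  · rw [sG_eq_Gn]
    exact I0
  · rw [sG_eq_Gn]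
    exact I1

end SokamV3O

end
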