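import Pool.Agent.Lib_MP_af4de1_zy.Z150
import Pool.Agent.Lib_MP_af4de1_zy.Z156

/-! ### Lib_MP_af4de1_v3.T2Com -/

section
namespace SokamF1
end SokamF1
namespace SokamF1B
end SokamF1B
namespace SokamF1G
end SokamF1G
namespace SokamF1M
end SokamF1M
namespace SokamF1S
end SokamF1S
namespace SokamPG
end SokamPG
namespace SokamU
end SokamU
/-!
# `N = 2`: `PTC` (`Γ < 17/2`) and `PTD` (`17/2 ≤ Γ < 10`)
-/

set_option autoImplicit false

open Complex MeasureTheory Set SokamU SokamPG SokamF1 SokamF1S SokamF1M SokamF1G SokamF1B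

namespace SokamV3

/-! ### `w = 1/δ` -/

theorem t2c_w1 {r δ G g : ℝ} (h : Par 2 r δ) (hG : G ≤ Gm 2 r δ)
    (hg : g * (98697 / 10000) ≤ G) : g * (r * δ + 1 / (r * δ)) ≤ 1 / δ := by
  have hr0 : 0 < r := by linarith only [h.r0]
  have hδ := h.d0
  have hR : 0 < RR r δ := by unfold RR; positivity
  have hpi : Real.pi ^ (2 : ℕ) ≤ 98697 / 10000 := by
    have h1 := Real.pi_lt_d4
    have h2 := Real.pi_pos
    norm_num at h1
    nlinarith only [h2, h1]
  have h1 : g * RR r δ ≤ r := by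
    unfold Gm at hG
    rw [own2_hst, le_div_iff₀ hR] at hG
    have h2 : g * (98697 / 10000) * RR r δ ≤ G * RR r δ := by gcongr
    have h3 : r * Real.pi ^ (2 : ℕ) ≤ r * (98697 / 10000) := by gcongr
    have h4 : (98697 / 10000 : ℝ) * (g * RR r δ) ≤ (98697 / 10000) * r := by linarith only [hG, h2, h3]
    linarith only [h4]
  have e : g * (r * δ + 1 / (r * δ)) = (g * RR r δ) / (r * δ) := by
    unfold RR
    field_simp
    ring
  rw [e, div_le_div_iff₀ (by positivity) hδ]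
  have := mul_le_mul_of_nonneg_right h1 hδ.le
  linarith only [this]

theorem t2c_w2 {r δ : ℝ} (h : Par 2 r δ) : 499 / 10 / (r * δ) ≤ 1 / δ := by
  have hr := h.r0
  have hδ := h.d0
  have hr0 : 0 < r := by linarith only [hr]
  rw [div_le_div_iff₀ (by positivity) hδ]
  have := mul_le_mul_of_nonneg_right hr hδ.le
  linarith only [this]

theorem t2_wmin {g m w ρ : ℝ} (hρ : 0 < ρ) (hg : 0 ≤ g) (hw : 0 ≤ w)
    (h1 : g * (ρ + 1 / ρ) ≤ w) (h2 : 499 / 10 / ρ ≤ w) (hm : m ^ (2 : ℕ) ≤ 499 / 10 * g) : m ≤ w := by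
  refine abs_le_of_sq_le_sq' ?_ hw |>.2
  have h3 : g * (ρ + 1 / ρ) * (499 / 10 / ρ) ≤ w * w := by gcongr
  have e : g * (ρ + 1 / ρ) * (499 / 10 / ρ) = 499 / 10 * g + 499 / 10 * g * (1 / ρ) ^ (2 : ℕ) := by
    field_simp
  have h4 : 0 ≤ 499 / 10 * g * (1 / ρ) ^ (2 : ℕ) := by positivity
  rw [e] at h3
  nlinarith only [hm, h3]

theorem t2_sD {ρ y T : ℝ} (hT : 0 ≤ T) (h : (1 + y) ^ (2 : ℕ) ≤ (T ^ (2 : ℕ) - 1) * sx ρ y ^ (2 : ℕ)) :
    sD ρ y ≤ T * sx ρ y := by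
  have := sx_nonneg ρ y
  unfold sD sD2
  rw [Real.sqrt_le_left (by positivity)]
  linarith only [h]

/-! ### reductions to one variable -/

theorem neg_red {w w0 c C n N k3 L : ℝ} (hw : w0 ≤ w) (hw0 : 1 ≤ w0) (hC0 : 0 < C) (hC : C ≤ c)
    (hcm : c ≤ 126 / 1000) (hk0 : 0 ≤ k3) (hk : k3 ≤ 106) (hN : 0 ≤ N) (hn : n ≤ N) (hL : 0 ≤ L)
    (h : L ≤ w0 * (C * (194166 / 10000 + 424429 / 10000 * C - k3 * C ^ (2 : ℕ)) -
      628319 / 100000 * N) - 137 / 50 * C) :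
    L ≤ w * (c * (194166 / 10000 + 424429 / 10000 * c - k3 * c ^ (2 : ℕ)) - 2 * Real.pi * n) -
      137 / 50 * c := by
  have hpi : Real.pi ≤ 3141593 / 1000000 := by
    have := Real.pi_lt_d6
    norm_num at this ⊢
    linarith only [this]
  have hpi0 := Real.pi_pos
  have h1 : 2 * Real.pi * n ≤ 628319 / 100000 * N := by
    calc 2 * Real.pi * n ≤ 2 * Real.pi * N := by gcongr
      _ ≤ 2 * (3141593 / 1000000) * N := by gcongr
      _ ≤ 628319 / 100000 * N := by linarith only [hN]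
  set X0 := C * (194166 / 10000 + 424429 / 10000 * C - k3 * C ^ (2 : ℕ)) - 628319 / 100000 * N with hX0
  set X := c * (194166 / 10000 + 424429 / 10000 * c - k3 * c ^ (2 : ℕ)) - 2 * Real.pi * n with hX
  have h2 : 194166 / 10000 * (c - C) ≤ X - X0 := by
    have h3 : 0 ≤ (c - C) * ((c + C) * (424429 / 10000 - k3 * (c + C)) + k3 * (c * C)) := by
      have h4 : 0 ≤ c - C := by linarith only [hC]
      have h5 : 0 ≤ c + C := by linarith only [hC0, hC]
      have h6 : k3 * (c + C) ≤ 106 * (126 / 1000 + 126 / 1000) := by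
        have : 0 ≤ c + C := h5
        have : c + C ≤ 126 / 1000 + 126 / 1000 := by linarith only [hC, hcm]
        gcongr
      have h7 : 0 ≤ 424429 / 10000 - k3 * (c + C) := by linarith only [h6]
      have h8 : 0 ≤ c * C := by
        have : 0 ≤ c := by linarith only [h4, h5]
        positivity
      positivity
    have e : X - X0 = 194166 / 10000 * (c - C) +
        (c - C) * ((c + C) * (424429 / 10000 - k3 * (c + C)) + k3 * (c * C)) +
        (628319 / 100000 * N - 2 * Real.pi * n) := by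
      rw [hX, hX0]
      ring
    linarith only [h1, h3, e]
  have h3 : 0 < w0 * X0 := by linarith only [hC0, hL, h]
  have h4 : 0 < X0 := by
    by_contra h5
    push Not at h5
    have := mul_nonpos_of_nonneg_of_nonpos (by linarith : 0 ≤ w0) h5
    linarith only [h3, this]
  have h5 : 0 ≤ X := by linarith only [hC, h2, h4]
  have h6 : w0 * X ≤ w * X := mul_le_mul_of_nonneg_right hw h5
  have h7 : w0 * (194166 / 10000 * (c - C)) ≤ w0 * (X - X0) :=
    mul_le_mul_of_nonneg_left h2 (by linarith only [hw0])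
  have h8 : 1 * (194166 / 10000 * (c - C)) ≤ w0 * (194166 / 10000 * (c - C)) := by
    have : 0 ≤ c - C := by linarith only [hC]
    gcongr
  linarith only [hC, h, h6, h7, h8]

theorem pos_red {w w0 X Y c L : ℝ} (hw : w0 ≤ w) (hw0 : 0 < w0) (hXY : X ≤ Y)
    (h : L ≤ w0 * X + 137 / 50 * c) (hc : 137 / 50 * c ≤ L) : L ≤ w * Y + 137 / 50 * c := by
  have h1 : 0 ≤ w0 * X := by linarith only [h, hc]
  have h2 : 0 ≤ X := by
    by_contra h3
    push Not at h3
    have := mul_neg_of_pos_of_neg hw0 h3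
    linarith only [h1, this]
  have h3 : w0 * X ≤ w * Y := mul_le_mul hw hXY h2 (by linarith only [hw, hw0])
  linarith only [h, h3]

/-! ### numbers -/

theorem exp_five {a : ℝ} (h0 : 0 ≤ a) (h1 : a ≤ 1) :
    Real.exp a ≤ 1 + a + a ^ (2 : ℕ) / 2 + a ^ (3 : ℕ) / 6 + a ^ (4 : ℕ) / 24 + a ^ (5 : ℕ) / 100 := by
  have h := Real.exp_bound' h0 h1 (n := 5) (by norm_num)
  simp only [Finset.sum_range_succ, Finset.sum_range_zero, Nat.factorial] at h
  norm_num at h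
  linarith only [h]

theorem exp_neg_le_of {k : ℕ} {t L A : ℝ} (ht : 0 ≤ t) (hL : 2 * L = k + t) (hA : 0 < A)
    (h : A ≤ (2718281828 / 1000000000 : ℝ) ^ k * (1 + t + t ^ (2 : ℕ) / 2 + t ^ (3 : ℕ) / 6 + t ^ (4 : ℕ) / 24 +
      t ^ (5 : ℕ) / 120 + t ^ (6 : ℕ) / 720)) : Real.exp (-(2 * L)) ≤ 1 / A := by
  rw [Real.exp_neg, ← one_div]
  refine one_div_le_one_div_of_le hA (h.trans ?_)
  rw [hL, Real.exp_add]
  have h1 : (2718281828 / 1000000000 : ℝ) ^ k ≤ Real.exp (k : ℝ) := by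
    have h2 := Real.exp_one_gt_d9
    have h3 : Real.exp (k : ℝ) = Real.exp 1 ^ k := by rw [← Real.exp_nat_mul, mul_one]
    rw [h3]
    exact pow_le_pow_left₀ (by norm_num) (by linarith only [h2]) k
  have h2 : 1 + t + t ^ (2 : ℕ) / 2 + t ^ (3 : ℕ) / 6 + t ^ (4 : ℕ) / 24 + t ^ (5 : ℕ) / 120 + t ^ (6 : ℕ) / 720 ≤ Real.exp t := by
    have h3 := Real.sum_le_exp_of_nonneg ht 7
    simp only [Finset.sum_range_succ, Finset.sum_range_zero, Nat.factorial] at h3
    norm_num at h3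
    linarith only [h3]
  exact mul_le_mul h1 h2 (by positivity) (Real.exp_pos _).le

/-! ### the tilt -/

theorem tm_neg_sq {x n : ℝ} (hx : 112 / 25 ≤ x) (h0 : 0 ≤ n) (h1 : n ≤ 1) :
    tm (-1) x n ^ (2 : ℕ) ≤ 1 * ta x ^ (2 : ℕ) := by
  have ht := ta_eq hx
  have hta : 0 ≤ ta x := by
    rw [ht]
    have : 0 < (1 + x)⁻¹ := inv_pos.2 (by linarith only [hx, h0])
    positivity
  have h2 : 1 - ta x ≤ Real.exp (-ta x) := by
    have := Real.add_one_le_exp (-ta x)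
    linarith only [this]
  have h3 : Real.exp (-ta x) ≤ 1 := by
    rw [Real.exp_le_one_iff]
    linarith only [hta]
  have e : tm (-1) x n = ta x - n * (1 - Real.exp (-ta x)) := by
    unfold tm
    rw [neg_one_mul]
    ring
  have h4 : n * (1 - Real.exp (-ta x)) ≤ 1 * ta x := by
    have : 0 ≤ 1 - Real.exp (-ta x) := by linarith only [h3]
    calc n * (1 - Real.exp (-ta x)) ≤ 1 * (1 - Real.exp (-ta x)) := by gcongr
      _ ≤ 1 * ta x := by linarith only [h2]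
  have h5 : 0 ≤ n * (1 - Real.exp (-ta x)) := mul_nonneg h0 (by linarith only [h3])
  rw [e, one_mul]
  have h6 : 0 ≤ ta x - n * (1 - Real.exp (-ta x)) := by linarith only [h4]
  nlinarith only [h5, h6]

/-- `ε = -1`, `v = -y ≤ 0` -/
theorem tm_neg_sq' {x y M : ℝ} (hx : 112 / 25 ≤ x) (h0 : 0 ≤ y) (hM : (1 + y) ^ (2 : ℕ) ≤ M) :
    tm (-1) x (-y) ^ (2 : ℕ) ≤ M * ta x ^ (2 : ℕ) := by
  have ht := ta_eq hx
  have hta : 0 ≤ ta x := by
    rw [ht]
    have : 0 < (1 + x)⁻¹ := inv_pos.2 (by linarith only [hx, h0])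
    positivity
  have h2 : 1 - ta x ≤ Real.exp (-ta x) := by
    have := Real.add_one_le_exp (-ta x)
    linarith only [this]
  have h3 : Real.exp (-ta x) ≤ 1 := by
    rw [Real.exp_le_one_iff]
    linarith only [hta]
  have e : tm (-1) x (-y) = ta x + y * (1 - Real.exp (-ta x)) := by
    unfold tm
    rw [neg_one_mul]
    ring
  rw [e]
  have h4 : ta x + y * (1 - Real.exp (-ta x)) ≤ (1 + y) * ta x := by
    have : y * (1 - Real.exp (-ta x)) ≤ y * ta x := by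
      refine mul_le_mul_of_nonneg_left (by linarith only [h2]) h0
    linarith only [this]
  have h5 : 0 ≤ ta x + y * (1 - Real.exp (-ta x)) := by
    have : 0 ≤ y * (1 - Real.exp (-ta x)) := mul_nonneg h0 (by linarith only [h3])
    linarith only [h2, h3, this]
  calc (ta x + y * (1 - Real.exp (-ta x))) ^ (2 : ℕ) ≤ ((1 + y) * ta x) ^ (2 : ℕ) := by gcongr
    _ = (1 + y) ^ (2 : ℕ) * ta x ^ (2 : ℕ) := by ring
    _ ≤ M * ta x ^ (2 : ℕ) := by gcongr

/-- `ε = 1`, `v = y ≥ 0` -/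
theorem tm_pos_sq {x y S M cm : ℝ} (hx : 112 / 25 ≤ x) (h0 : 0 ≤ y) (hc : (1 + x)⁻¹ ≤ cm)
    (hcm : 137 / 25 * cm ≤ 1)
    (hS : 1 + 137 / 25 * cm / 2 + (137 / 25 * cm) ^ (2 : ℕ) / 6 + (137 / 25 * cm) ^ (3 : ℕ) / 24 +
      (137 / 25 * cm) ^ (4 : ℕ) / 100 ≤ S) (hM : (1 + y * S) ^ (2 : ℕ) ≤ M) :
    tm 1 x y ^ (2 : ℕ) ≤ M * ta x ^ (2 : ℕ) := by
  have ht := ta_eq hx
  have hc0 : 0 < (1 + x)⁻¹ := inv_pos.2 (by linarith only [hx, h0])
  have hta : 0 ≤ ta x := by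
    rw [ht]
    positivity
  have hta1 : ta x ≤ 137 / 25 * cm := by
    rw [ht]
    gcongr
  have h2 := exp_five hta (by linarith only [hcm, hta1])
  have h3 : Real.exp (ta x) - 1 ≤ ta x * S := by
    calc Real.exp (ta x) - 1 ≤ ta x * (1 + ta x / 2 + ta x ^ (2 : ℕ) / 6 + ta x ^ (3 : ℕ) / 24 +
          ta x ^ (4 : ℕ) / 100) := by linarith only [h2]
      _ ≤ ta x * (1 + 137 / 25 * cm / 2 + (137 / 25 * cm) ^ (2 : ℕ) / 6 + (137 / 25 * cm) ^ (3 : ℕ) / 24 +
          (137 / 25 * cm) ^ (4 : ℕ) / 100) := by gcongr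
      _ ≤ ta x * S := by gcongr
  have h4 : 0 ≤ Real.exp (ta x) - 1 := by
    have := Real.one_le_exp hta
    linarith only [this]
  have e : tm 1 x y = ta x + y * (Real.exp (ta x) - 1) := by
    unfold tm
    rw [one_mul]
    ring
  rw [e]
  have h5 : ta x + y * (Real.exp (ta x) - 1) ≤ (1 + y * S) * ta x := by
    have : y * (Real.exp (ta x) - 1) ≤ y * (ta x * S) := mul_le_mul_of_nonneg_left h3 h0
    linarith only [this]
  have h6 : 0 ≤ ta x + y * (Real.exp (ta x) - 1) := by positivity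
  calc (ta x + y * (Real.exp (ta x) - 1)) ^ (2 : ℕ) ≤ ((1 + y * S) * ta x) ^ (2 : ℕ) := by gcongr
    _ = (1 + y * S) ^ (2 : ℕ) * ta x ^ (2 : ℕ) := by ring
    _ ≤ M * ta x ^ (2 : ℕ) := by gcongr

/-- `ε = 1`, `v = -n ≤ 0` -/
theorem tm_pos_sq' {x n : ℝ} (hx : 112 / 25 ≤ x) (h0 : 0 ≤ n) (h1 : n ≤ 1) (hta1 : ta x ≤ 1) :
    tm 1 x (-n) ^ (2 : ℕ) ≤ 1 * ta x ^ (2 : ℕ) := by
  have ht := ta_eq hx
  have hta : 0 ≤ ta x := by
    rw [ht]
    have : 0 < (1 + x)⁻¹ := inv_pos.2 (by linarith only [hx, h0, h1])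
    positivity
  have h2 := exp_five hta hta1
  have h3 : Real.exp (ta x) - 1 ≤ 2 * ta x := by
    have h7 : ta x ^ (2 : ℕ) ≤ ta x := by nlinarith only [hta1, hta]
    have h8 : ta x ^ (3 : ℕ) ≤ ta x := by nlinarith only [h7]
    have h9 : ta x ^ (4 : ℕ) ≤ ta x := by nlinarith only [h7]
    have h10 : ta x ^ (5 : ℕ) ≤ ta x := by
      nlinarith only [h7, h8]
    linarith only [hta, h2, h7, h8, h9, h10]
  have h4 : 0 ≤ Real.exp (ta x) - 1 := by
    have := Real.one_le_exp hta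
    linarith only [this]
  have e : tm 1 x (-n) = ta x - n * (Real.exp (ta x) - 1) := by
    unfold tm
    rw [one_mul]
    ring
  rw [e, one_mul]
  have h5 : n * (Real.exp (ta x) - 1) ≤ 1 * (Real.exp (ta x) - 1) := by gcongr
  have h6 : 0 ≤ n * (Real.exp (ta x) - 1) := by positivity
  have h7 : (ta x - n * (Real.exp (ta x) - 1)) ^ (2 : ℕ) =
    ta x ^ (2 : ℕ) - n * (Real.exp (ta x) - 1) * (2 * ta x - n * (Real.exp (ta x) - 1)) := by ring
  have h8 : 0 ≤ n * (Real.exp (ta x) - 1) * (2 * ta x - n * (Real.exp (ta x) - 1)) :=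
    mul_nonneg h6 (by linarith only [h3, h5])
  linarith only [h8]

end SokamV3

end
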