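import Pool.Agent.Lib_MP_af4de1_zy.Z49

/-! ### Lib_MP_af4de1_f1.Alg -/

section
/-!
# (U): the algebra

`F = p0 + p1 + P`, `DF = κ0 p0 + κ1 p1 + Q`, `D²F = (κ0² + l0) p0 + (κ1² + l1) p1 + S` and
`DF + m F = 0`, `m > 0`.  Then
`D²F/DF - DF/F = (κ0 + m)(κ1 + m)/m · (1 + X + e_N)/(1 + e_B)`,
`X = (l0/(κ0+m) - l1/(κ1+m))/(κ0 - κ1)`, `e_B = (Q - κ1 P)/((κ0 - κ1) p0)`,
`e_N = (S + m Q - κ1' (Q + m P))/((κ0 + m)(κ0 - κ1) p0)`, `κ1' = κ1 + l1/(κ1 + m)`.
-/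

set_option autoImplicit false

namespace SokamF1

/-- `u` lies in the open cone of half angle `arctan t` around the positive half line. -/
def Cone (t : ℝ) (u : ℂ) : Prop := 0 < u.re ∧ |u.im| ≤ t * u.re

theorem Cone.ne_zero {t : ℝ} {u : ℂ} (h : Cone t u) : u ≠ 0 := by
  rintro rfl
  exact lt_irrefl _ h.1

theorem Cone.mono {s t : ℝ} {u : ℂ} (h : Cone s u) (hst : s ≤ t) : Cone t u :=
  ⟨h.1, h.2.trans (mul_le_mul_of_nonneg_right hst h.1.le)⟩

theorem Cone.conj {t : ℝ} {u : ℂ} (h : Cone t u) : Cone t ((starRingEnd ℂ) u) := by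
  refine ⟨by simpa using h.1, by simpa using h.2⟩

/-- `1 + z`, `|z| ≤ e < 1`. -/
theorem Cone.one_add {e : ℝ} {z : ℂ} (he : e < 1) (hz : ‖z‖ ≤ e) : Cone (e / √(1 - e ^ (2 : ℕ))) (1 + z) := by
  have he0 : 0 ≤ e := (norm_nonneg _).trans hz
  have hs : 0 < 1 - e ^ (2 : ℕ) := by nlinarith
  have hz2 : z.re ^ (2 : ℕ) + z.im ^ (2 : ℕ) ≤ e ^ (2 : ℕ) := by
    have h1 : ‖z‖ ^ (2 : ℕ) = z.re ^ (2 : ℕ) + z.im ^ (2 : ℕ) := by
      rw [Complex.sq_norm, Complex.normSq_apply]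
      ring
    rw [← h1]
    exact pow_le_pow_left₀ (norm_nonneg _) hz 2
  have hre : 0 < 1 + z.re := by
    have h1 : -e ≤ z.re := by
      have := Complex.abs_re_le_norm z
      have := (abs_le.1 this).1
      linarith
    linarith
  refine ⟨by simpa using hre, ?_⟩
  simp only [Complex.add_im, Complex.one_im, zero_add, Complex.add_re, Complex.one_re]
  have h2 : 0 < √(1 - e ^ (2 : ℕ)) := Real.sqrt_pos.2 hs
  rw [div_mul_eq_mul_div, le_div_iff₀ h2]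
  have h3 : |z.im * √(1 - e ^ (2 : ℕ))| ≤ e * (1 + z.re) := by
    refine abs_le_of_sq_le_sq ?_ (by positivity)
    rw [mul_pow, Real.sq_sqrt hs.le]
    nlinarith [sq_nonneg (z.re + e ^ (2 : ℕ))]
  rwa [abs_mul, abs_of_pos h2] at h3

/-- The product of three cones. -/
theorem Cone.re_mul3 {t₁ t₂ t₃ : ℝ} {u v w : ℂ} (h1 : Cone t₁ u) (h2 : Cone t₂ v) (h3 : Cone t₃ w)
    (ht1 : 0 ≤ t₁) (ht2 : 0 ≤ t₂) (ht : t₁ * t₂ + t₁ * t₃ + t₂ * t₃ < 1) :
    0 < (u * v * w).re := by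
  obtain ⟨a1, b1⟩ := h1
  obtain ⟨a2, b2⟩ := h2
  obtain ⟨a3, b3⟩ := h3
  have e : (u * v * w).re = u.re * v.re * w.re - u.im * v.im * w.re - u.re * v.im * w.im -
      u.im * v.re * w.im := by
    simp only [Complex.mul_re, Complex.mul_im]
    ring
  have c1 : |u.im * v.im * w.re| ≤ t₁ * t₂ * (u.re * v.re * w.re) := by
    rw [abs_mul, abs_mul, abs_of_pos a3]
    calc |u.im| * |v.im| * w.re ≤ (t₁ * u.re) * (t₂ * v.re) * w.re := by gcongr
      _ = _ := by ring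
  have c2 : |u.re * v.im * w.im| ≤ t₂ * t₃ * (u.re * v.re * w.re) := by
    rw [abs_mul, abs_mul, abs_of_pos a1]
    calc u.re * |v.im| * |w.im| ≤ u.re * (t₂ * v.re) * (t₃ * w.re) := by gcongr
      _ = _ := by ring
  have c3 : |u.im * v.re * w.im| ≤ t₁ * t₃ * (u.re * v.re * w.re) := by
    rw [abs_mul, abs_mul, abs_of_pos a2]
    calc |u.im| * v.re * |w.im| ≤ (t₁ * u.re) * v.re * (t₃ * w.re) := by gcongr
      _ = _ := by ring
  have hp : 0 < u.re * v.re * w.re := by positivity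
  have d1 := (abs_le.1 c1).2
  have d2 := (abs_le.1 c2).2
  have d3 := (abs_le.1 c3).2
  rw [e]
  nlinarith

/-- The exact formula. -/
theorem U_formula {κ0 κ1 l0 l1 p0 p1 P Q S : ℂ} {m : ℝ} (hm : 0 < m)
    (h : (κ0 * p0 + κ1 * p1 + Q) + m * (p0 + p1 + P) = 0)
    (h0 : κ0 + m ≠ 0) (h1 : κ1 + m ≠ 0) (h01 : κ0 - κ1 ≠ 0) (hp : p0 ≠ 0)
    (hB : 1 + (Q - κ1 * P) / ((κ0 - κ1) * p0) ≠ 0) :
    ((κ0 ^ (2 : ℕ) + l0) * p0 + (κ1 ^ (2 : ℕ) + l1) * p1 + S) / (κ0 * p0 + κ1 * p1 + Q) -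
      (κ0 * p0 + κ1 * p1 + Q) / (p0 + p1 + P) =
    (κ0 + m) * (κ1 + m) / m *
      ((1 + (l0 / (κ0 + m) - l1 / (κ1 + m)) / (κ0 - κ1) +
        (S + m * Q - (κ1 + l1 / (κ1 + m)) * (Q + m * P)) / ((κ0 + m) * (κ0 - κ1) * p0)) /
       (1 + (Q - κ1 * P) / ((κ0 - κ1) * p0))) := by
  have hmc : (m : ℂ) ≠ 0 := by exact_mod_cast hm.ne'
  have e1 : p1 = -((κ0 + m) * p0 + Q + m * P) / (κ1 + m) := by
    rw [eq_div_iff h1]
    linear_combination h
  have hDF : κ0 * p0 + κ1 * p1 + Q =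
      m / (κ1 + m) * ((κ0 - κ1) * p0) * (1 + (Q - κ1 * P) / ((κ0 - κ1) * p0)) := by
    have hq : (κ0 - κ1) * p0 ≠ 0 := mul_ne_zero h01 hp
    rw [e1]
    field_simp
    ring
  have hF : p0 + p1 + P = -(κ0 * p0 + κ1 * p1 + Q) / m := by
    rw [eq_div_iff hmc]
    linear_combination h
  have hDF0 : κ0 * p0 + κ1 * p1 + Q ≠ 0 := by
    rw [hDF]
    exact mul_ne_zero (mul_ne_zero (div_ne_zero hmc h1) (mul_ne_zero h01 hp)) hB
  have hN : (κ0 ^ (2 : ℕ) + l0) * p0 + (κ1 ^ (2 : ℕ) + l1) * p1 + S + m * (κ0 * p0 + κ1 * p1 + Q) =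
      (κ0 + m) * ((κ0 - κ1) * p0) * (1 + (l0 / (κ0 + m) - l1 / (κ1 + m)) / (κ0 - κ1) +
        (S + m * Q - (κ1 + l1 / (κ1 + m)) * (Q + m * P)) / ((κ0 + m) * (κ0 - κ1) * p0)) := by
    rw [e1]
    field_simp
    ring
  have hL : ((κ0 ^ (2 : ℕ) + l0) * p0 + (κ1 ^ (2 : ℕ) + l1) * p1 + S) / (κ0 * p0 + κ1 * p1 + Q) -
      (κ0 * p0 + κ1 * p1 + Q) / (p0 + p1 + P) =
      ((κ0 ^ (2 : ℕ) + l0) * p0 + (κ1 ^ (2 : ℕ) + l1) * p1 + S + m * (κ0 * p0 + κ1 * p1 + Q)) /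
        (κ0 * p0 + κ1 * p1 + Q) := by
    rw [hF]
    field_simp
    ring
  rw [hL, hN, hDF]
  set B := 1 + (Q - κ1 * P) / ((κ0 - κ1) * p0) with hBdef
  set N := 1 + (l0 / (κ0 + m) - l1 / (κ1 + m)) / (κ0 - κ1) +
        (S + m * Q - (κ1 + l1 / (κ1 + m)) * (Q + m * P)) / ((κ0 + m) * (κ0 - κ1) * p0)
  have hq : (κ0 - κ1) * p0 ≠ 0 := mul_ne_zero h01 hp
  rw [div_eq_iff (by
    exact mul_ne_zero (mul_ne_zero (div_ne_zero hmc h1) hq) hB)]
  field_simp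

/-- (U) from bounds. -/
theorem U_pos {κ0 κ1 l0 l1 p0 p1 P Q S : ℂ} {m : ℝ} (hm : 0 < m)
    (h : (κ0 * p0 + κ1 * p1 + Q) + m * (p0 + p1 + P) = 0)
    (h0 : κ0 + m ≠ 0) (h1 : κ1 + m ≠ 0) (h01 : κ0 - κ1 ≠ 0) (hp : p0 ≠ 0)
    {tA χ b n : ℝ} (htA : 0 ≤ tA) (hA : Cone tA ((κ0 + m) * (κ1 + m)))
    (hb : ‖Q - κ1 * P‖ ≤ b * (‖κ0 - κ1‖ * ‖p0‖)) (hb1 : b < 1)
    (hX : ‖(l0 / (κ0 + m) - l1 / (κ1 + m)) / (κ0 - κ1)‖ ≤ χ)
    (hn : ‖S + m * Q - (κ1 + l1 / (κ1 + m)) * (Q + m * P)‖ ≤ n * (‖κ0 + m‖ * ‖κ0 - κ1‖ * ‖p0‖))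
    (hn1 : n + χ < 1)
    (ht : tA * ((n + χ) / √(1 - (n + χ) ^ (2 : ℕ))) + tA * (b / √(1 - b ^ (2 : ℕ))) +
      ((n + χ) / √(1 - (n + χ) ^ (2 : ℕ))) * (b / √(1 - b ^ (2 : ℕ))) < 1) :
    0 < (((κ0 ^ (2 : ℕ) + l0) * p0 + (κ1 ^ (2 : ℕ) + l1) * p1 + S) / (κ0 * p0 + κ1 * p1 + Q) -
      (κ0 * p0 + κ1 * p1 + Q) / (p0 + p1 + P)).re := by
  have hn01 : 0 < ‖κ0 - κ1‖ := norm_pos_iff.2 h01
  have hnp : 0 < ‖p0‖ := norm_pos_iff.2 hp
  have hn0 : 0 < ‖κ0 + m‖ := norm_pos_iff.2 h0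
  have hB : ‖(Q - κ1 * P) / ((κ0 - κ1) * p0)‖ ≤ b := by
    rw [norm_div, norm_mul, div_le_iff₀ (by positivity)]
    exact hb
  have hN : ‖(l0 / (κ0 + m) - l1 / (κ1 + m)) / (κ0 - κ1) +
      (S + m * Q - (κ1 + l1 / (κ1 + m)) * (Q + m * P)) / ((κ0 + m) * (κ0 - κ1) * p0)‖ ≤ n + χ := by
    refine (norm_add_le _ _).trans ?_
    have h2 : ‖(S + m * Q - (κ1 + l1 / (κ1 + m)) * (Q + m * P)) / ((κ0 + m) * (κ0 - κ1) * p0)‖ ≤ n := by
      rw [norm_div, norm_mul, norm_mul, div_le_iff₀ (by positivity)]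
      exact hn
    linarith
  have cB := Cone.one_add hb1 hB
  have cN := Cone.one_add hn1 hN
  rw [U_formula hm h h0 h1 h01 hp cB.ne_zero]
  set B := 1 + (Q - κ1 * P) / ((κ0 - κ1) * p0) with hBd
  rw [show (1 : ℂ) + (l0 / (κ0 + m) - l1 / (κ1 + m)) / (κ0 - κ1) +
        (S + m * Q - (κ1 + l1 / (κ1 + m)) * (Q + m * P)) / ((κ0 + m) * (κ0 - κ1) * p0) =
      1 + ((l0 / (κ0 + m) - l1 / (κ1 + m)) / (κ0 - κ1) +
        (S + m * Q - (κ1 + l1 / (κ1 + m)) * (Q + m * P)) / ((κ0 + m) * (κ0 - κ1) * p0)) by ring]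
  set N := 1 + ((l0 / (κ0 + m) - l1 / (κ1 + m)) / (κ0 - κ1) +
        (S + m * Q - (κ1 + l1 / (κ1 + m)) * (Q + m * P)) / ((κ0 + m) * (κ0 - κ1) * p0)) with hNd
  have he0 : 0 ≤ n + χ := (norm_nonneg _).trans hN
  have hb0 : 0 ≤ b := (norm_nonneg _).trans hB
  have key := Cone.re_mul3 hA cN cB.conj htA (by positivity) ht
  have hBn : 0 < Complex.normSq B := Complex.normSq_pos.2 cB.ne_zero
  have e : (κ0 + m) * (κ1 + m) / m * (N / B) =
      ((1 / (m * Complex.normSq B) : ℝ) : ℂ) * ((κ0 + m) * (κ1 + m) * N * (starRingEnd ℂ) B) := by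
    have hmc : (m : ℂ) ≠ 0 := by exact_mod_cast hm.ne'
    have h3 : (Complex.normSq B : ℂ) ≠ 0 := by exact_mod_cast hBn.ne'
    have h4 : B * (starRingEnd ℂ) B = (Complex.normSq B : ℂ) := Complex.mul_conj B
    have hB0 := cB.ne_zero
    push_cast
    rw [← h4] at h3 ⊢
    have h5 : (starRingEnd ℂ) B ≠ 0 := right_ne_zero_of_mul h3
    field_simp
  rw [e, Complex.re_ofReal_mul]
  positivity

end SokamF1

end

/-! ### Lib_MP_af4de1_f1.TwoPiece -/

section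
/-!
# (U) with exactly two pieces

`F = R + L`, `R = p0 + P`, `DR = κ0 p0 + Q`, `D²R = (κ0² + l0) p0 + S`, and the same for `L` with `κ1, p1`.
With `κ_R = DR/R`, `l_R = D²R/R - κ_R²`:
`D²F/DF - DF/F = (κ_R + m)(κ_L + m)/m · (1 + X)`, `X = (l_R/(κ_R+m) - l_L/(κ_L+m))/(κ_R - κ_L)`.
-/

set_option autoImplicit false

namespace SokamF1

theorem Cone.mul {s t : ℝ} {u v : ℂ} (hu : Cone s u) (hv : Cone t v) (hs : 0 ≤ s) (ht : 0 ≤ t)
    (hst : s * t < 1) : Cone ((s + t) / (1 - s * t)) (u * v) := by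
  obtain ⟨a1, b1⟩ := hu
  obtain ⟨a2, b2⟩ := hv
  have hp : 0 < u.re * v.re := mul_pos a1 a2
  have c1 : |u.im * v.im| ≤ s * t * (u.re * v.re) := by
    rw [abs_mul]
    calc |u.im| * |v.im| ≤ (s * u.re) * (t * v.re) := by gcongr
      _ = _ := by ring
  have c2 : |u.re * v.im + u.im * v.re| ≤ (s + t) * (u.re * v.re) := by
    refine (abs_add_le _ _).trans ?_
    rw [abs_mul, abs_mul, abs_of_pos a1, abs_of_pos a2]
    calc u.re * |v.im| + |u.im| * v.re ≤ u.re * (t * v.re) + (s * u.re) * v.re := by gcongr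
      _ = _ := by ring
  have hre : (1 - s * t) * (u.re * v.re) ≤ (u * v).re := by
    rw [Complex.mul_re]
    have := (abs_le.1 c1).2
    linarith only [this]
  have h1 : 0 < 1 - s * t := by linarith only [hst]
  refine ⟨lt_of_lt_of_le (by positivity) hre, ?_⟩
  rw [Complex.mul_im, div_mul_eq_mul_div, le_div_iff₀ h1]
  have h2 : (s + t) * ((1 - s * t) * (u.re * v.re)) ≤ (s + t) * (u * v).re := by gcongr
  calc |u.re * v.im + u.im * v.re| * (1 - s * t) ≤ (s + t) * (u.re * v.re) * (1 - s * t) := by gcongr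
    _ = (s + t) * ((1 - s * t) * (u.re * v.re)) := by ring
    _ ≤ _ := h2

/-- One piece: `κ_R - κ0` and `l_R`. -/
theorem piece_bounds {κ0 l0 p0 P Q S : ℂ} {r H b0 b1 b2 d : ℝ} (hp : p0 ≠ 0) (hb01 : b0 < 1)
    (hH : 0 ≤ H) (hd : ‖κ0 - r‖ ≤ d * H)
    (h0 : ‖P‖ ≤ b0 * ‖p0‖) (h1 : ‖Q - r * P‖ ≤ b1 * H * ‖p0‖)
    (h2 : ‖S - 2 * r * Q + r ^ (2 : ℕ) * P‖ ≤ b2 * H ^ (2 : ℕ) * ‖p0‖) :
    p0 + P ≠ 0 ∧ ‖(κ0 * p0 + Q) / (p0 + P) - κ0‖ ≤ (b1 + d * b0) / (1 - b0) * H ∧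
      ‖((κ0 ^ (2 : ℕ) + l0) * p0 + S) / (p0 + P) - ((κ0 * p0 + Q) / (p0 + P)) ^ (2 : ℕ)‖ ≤
        ((b1 + d * b0) / (1 - b0) * H) ^ (2 : ℕ) + (‖l0‖ + (b2 + 2 * d * b1 + d ^ (2 : ℕ) * b0) * H ^ (2 : ℕ)) / (1 - b0) := by
  have hnp : 0 < ‖p0‖ := norm_pos_iff.2 hp
  have hb0 : 0 ≤ b0 := by
    have := (norm_nonneg P).trans h0
    exact nonneg_of_mul_nonneg_left this hnp
  have hb1H : 0 ≤ b1 * H := by
    have := (norm_nonneg _).trans h1
    exact nonneg_of_mul_nonneg_left this hnp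
  have hdH : 0 ≤ d * H := (norm_nonneg _).trans hd
  have hlow : (1 - b0) * ‖p0‖ ≤ ‖p0 + P‖ := by
    have := norm_sub_le_norm_add p0 P
    linarith only [h0, this]
  have h1b : 0 < 1 - b0 := by linarith only [hb01]
  have hpos : 0 < ‖p0 + P‖ := lt_of_lt_of_le (by positivity) hlow
  have hne : p0 + P ≠ 0 := norm_pos_iff.1 hpos
  have e1 : (κ0 * p0 + Q) / (p0 + P) - κ0 = (Q - κ0 * P) / (p0 + P) := by
    field_simp
    ring
  have n1 : ‖Q - κ0 * P‖ ≤ (b1 + d * b0) * H * ‖p0‖ := by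
    have e : Q - κ0 * P = (Q - r * P) - (κ0 - r) * P := by ring
    rw [e]
    refine (norm_sub_le _ _).trans ?_
    rw [norm_mul]
    have : ‖κ0 - r‖ * ‖P‖ ≤ (d * H) * (b0 * ‖p0‖) := mul_le_mul hd h0 (norm_nonneg _) hdH
    linarith only [h1, this]
  have c1 : ‖(κ0 * p0 + Q) / (p0 + P) - κ0‖ ≤ (b1 + d * b0) / (1 - b0) * H := by
    rw [e1, norm_div, div_le_iff₀ hpos]
    have h3 : 0 ≤ (b1 + d * b0) * H := by
      have := (norm_nonneg _).trans n1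
      exact nonneg_of_mul_nonneg_left this hnp
    calc ‖Q - κ0 * P‖ ≤ (b1 + d * b0) * H * ‖p0‖ := n1
      _ = (b1 + d * b0) / (1 - b0) * H * ((1 - b0) * ‖p0‖) := by
        field_simp
      _ ≤ _ := by
        have h4 : 0 ≤ (b1 + d * b0) / (1 - b0) * H := by
          have : (b1 + d * b0) / (1 - b0) * H = ((b1 + d * b0) * H) / (1 - b0) := by ring
          rw [this]
          positivity
        exact mul_le_mul_of_nonneg_left hlow h4
  refine ⟨hne, c1, ?_⟩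
  have e2 : ((κ0 ^ (2 : ℕ) + l0) * p0 + S) / (p0 + P) - ((κ0 * p0 + Q) / (p0 + P)) ^ (2 : ℕ) =
      (l0 * p0 + ((S - 2 * r * Q + r ^ (2 : ℕ) * P) - 2 * (κ0 - r) * (Q - r * P) + (κ0 - r) ^ (2 : ℕ) * P)) / (p0 + P) -
        ((κ0 * p0 + Q) / (p0 + P) - κ0) ^ (2 : ℕ) := by
    field_simp
    ring
  rw [e2]
  refine (norm_sub_le _ _).trans ?_
  rw [add_comm]
  refine add_le_add ?_ ?_
  · rw [norm_pow]
    exact pow_le_pow_left₀ (norm_nonneg _) c1 2
  · rw [norm_div, div_le_iff₀ hpos]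
    have n2 : ‖l0 * p0 + ((S - 2 * r * Q + r ^ (2 : ℕ) * P) - 2 * (κ0 - r) * (Q - r * P) + (κ0 - r) ^ (2 : ℕ) * P)‖ ≤
        (‖l0‖ + (b2 + 2 * d * b1 + d ^ (2 : ℕ) * b0) * H ^ (2 : ℕ)) * ‖p0‖ := by
      refine (norm_add_le _ _).trans ?_
      have k1 : ‖(S - 2 * r * Q + r ^ (2 : ℕ) * P) - 2 * (κ0 - r) * (Q - r * P) + (κ0 - r) ^ (2 : ℕ) * P‖ ≤
          ‖S - 2 * r * Q + r ^ (2 : ℕ) * P‖ + 2 * ‖κ0 - r‖ * ‖Q - r * P‖ + ‖κ0 - r‖ ^ (2 : ℕ) * ‖P‖ := by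
        refine (norm_add_le _ _).trans ?_
        refine add_le_add ((norm_sub_le _ _).trans (le_of_eq ?_)) (le_of_eq ?_)
        · rw [norm_mul, norm_mul, Complex.norm_ofNat]
        · rw [norm_mul, norm_pow]
      have k2 : ‖κ0 - r‖ * ‖Q - r * P‖ ≤ (d * H) * (b1 * H * ‖p0‖) :=
        mul_le_mul hd h1 (norm_nonneg _) hdH
      have k3 : ‖κ0 - r‖ ^ (2 : ℕ) * ‖P‖ ≤ (d * H) ^ (2 : ℕ) * (b0 * ‖p0‖) :=
        mul_le_mul (pow_le_pow_left₀ (norm_nonneg _) hd 2) h0 (norm_nonneg _) (by positivity)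
      rw [norm_mul]
      linarith only [h2, k1, k2, k3]
    have h3 : 0 ≤ (‖l0‖ + (b2 + 2 * d * b1 + d ^ (2 : ℕ) * b0) * H ^ (2 : ℕ)) := by
      have := (norm_nonneg _).trans n2
      exact nonneg_of_mul_nonneg_left this hnp
    calc _ ≤ (‖l0‖ + (b2 + 2 * d * b1 + d ^ (2 : ℕ) * b0) * H ^ (2 : ℕ)) * ‖p0‖ := n2
      _ = (‖l0‖ + (b2 + 2 * d * b1 + d ^ (2 : ℕ) * b0) * H ^ (2 : ℕ)) / (1 - b0) * ((1 - b0) * ‖p0‖) := by
        field_simp
      _ ≤ _ := mul_le_mul_of_nonneg_left hlow (by positivity)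

/-- (U) for two pieces, from bounds on the pieces. -/
theorem U_two {R DR D2R L DL D2L : ℂ} {m : ℝ} (hm : 0 < m) (hR : R ≠ 0) (hL : L ≠ 0)
    (h : (DR + DL) + m * (R + L) = 0) {tA χ : ℝ} (htA : 0 ≤ tA)
    (hA : Cone tA ((DR / R + m) * (DL / L + m))) (hne : DR / R - DL / L ≠ 0)
    (hX : ‖((D2R / R - (DR / R) ^ (2 : ℕ)) / (DR / R + m) - (D2L / L - (DL / L) ^ (2 : ℕ)) / (DL / L + m)) /
      (DR / R - DL / L)‖ ≤ χ) (hχ : χ < 1) (ht : tA * (χ / √(1 - χ ^ (2 : ℕ))) < 1) :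
    0 < ((D2R + D2L) / (DR + DL) - (DR + DL) / (R + L)).re := by
  have hprod := hA.ne_zero
  have h0 : DR / R + m ≠ 0 := left_ne_zero_of_mul hprod
  have h1 : DL / L + m ≠ 0 := right_ne_zero_of_mul hprod
  have key := U_pos (κ0 := DR / R) (κ1 := DL / L) (l0 := D2R / R - (DR / R) ^ (2 : ℕ))
    (l1 := D2L / L - (DL / L) ^ (2 : ℕ)) (p0 := R) (p1 := L) (P := 0) (Q := 0) (S := 0) (m := m) hm
    (by
      rw [div_mul_cancel₀ _ hR, div_mul_cancel₀ _ hL]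
      linear_combination h) h0 h1 hne hR (tA := tA) (χ := χ) (b := 0) (n := 0) htA hA
    (by simp) (by norm_num) hX (by simp) (by linarith only [hχ]) (by simpa using ht)
  have e1 : ((DR / R) ^ (2 : ℕ) + (D2R / R - (DR / R) ^ (2 : ℕ))) * R = D2R := by
    field_simp
    ring
  have e2 : ((DL / L) ^ (2 : ℕ) + (D2L / L - (DL / L) ^ (2 : ℕ))) * L = D2L := by
    field_simp
    ring
  rw [e1, e2, div_mul_cancel₀ _ hR, div_mul_cancel₀ _ hL, add_zero, add_zero, add_zero] at key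
  exact key

/-- (U) from the data of the two top waves and absolute sums over the far waves. -/
theorem U_waves {κ0 κ1 l0 l1 p0 p1 P Q S P' Q' S' : ℂ} {r m H b0 b1 b2 d cm cD ℓ e τ tA χ : ℝ}
    (hm : 0 < m) (hr : 0 < r) (hH : 0 < H) (hp0 : p0 ≠ 0) (hp1 : p1 ≠ 0) (hb01 : b0 < 1)
    (h : (κ0 * p0 + Q + (κ1 * p1 + Q')) + m * (p0 + P + (p1 + P')) = 0)
    (hd0 : ‖κ0 - r‖ ≤ d * H) (hd1 : ‖κ1 - r‖ ≤ d * H)
    (h00 : ‖P‖ ≤ b0 * ‖p0‖) (h01 : ‖Q - r * P‖ ≤ b1 * H * ‖p0‖)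
    (h02 : ‖S - 2 * r * Q + r ^ (2 : ℕ) * P‖ ≤ b2 * H ^ (2 : ℕ) * ‖p0‖)
    (h10 : ‖P'‖ ≤ b0 * ‖p1‖) (h11 : ‖Q' - r * P'‖ ≤ b1 * H * ‖p1‖)
    (h12 : ‖S' - 2 * r * Q' + r ^ (2 : ℕ) * P'‖ ≤ b2 * H ^ (2 : ℕ) * ‖p1‖)
    (hl0 : ‖l0‖ ≤ ℓ) (hl1 : ‖l1‖ ≤ ℓ)
    (hm0 : cm * r ≤ ‖κ0 + m‖) (hm1 : cm * r ≤ ‖κ1 + m‖) (hD : cD * H ≤ ‖κ0 - κ1‖)
    (htA : 0 ≤ tA) (hA : Cone tA ((κ0 + m) * (κ1 + m)))
    (he : (b1 + d * b0) / (1 - b0) ≤ e) (he0 : e * H < cm * r) (heD : 2 * e < cD)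
    (hτ : (e * H / (cm * r)) / √(1 - (e * H / (cm * r)) ^ (2 : ℕ)) ≤ τ) (hτ1 : τ * τ < 1)
    (hτA : (τ + τ) / (1 - τ * τ) * tA < 1)
    (hχ : 2 * ((e * H) ^ (2 : ℕ) + (ℓ + (b2 + 2 * d * b1 + d ^ (2 : ℕ) * b0) * H ^ (2 : ℕ)) / (1 - b0)) ≤
      χ * ((cm * r - e * H) * ((cD - 2 * e) * H))) (hχ1 : χ < 1)
    (ht : ((τ + τ) / (1 - τ * τ) + tA) / (1 - (τ + τ) / (1 - τ * τ) * tA) * (χ / √(1 - χ ^ (2 : ℕ))) < 1) :
    0 < (((κ0 ^ (2 : ℕ) + l0) * p0 + S + ((κ1 ^ (2 : ℕ) + l1) * p1 + S')) / (κ0 * p0 + Q + (κ1 * p1 + Q')) -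
      (κ0 * p0 + Q + (κ1 * p1 + Q')) / (p0 + P + (p1 + P'))).re := by
  obtain ⟨a1, a2, a3⟩ := piece_bounds (l0 := l0) hp0 hb01 hH.le hd0 h00 h01 h02
  obtain ⟨c1, c2, c3⟩ := piece_bounds (l0 := l1) hp1 hb01 hH.le hd1 h10 h11 h12
  set KR := (κ0 * p0 + Q) / (p0 + P) with hKR
  set KL := (κ1 * p1 + Q') / (p1 + P') with hKL
  have h1b : 0 < 1 - b0 := by linarith only [hb01]
  have a2' : ‖KR - κ0‖ ≤ e * H := a2.trans (mul_le_mul_of_nonneg_right he hH.le)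
  have c2' : ‖KL - κ1‖ ≤ e * H := c2.trans (mul_le_mul_of_nonneg_right he hH.le)
  have heH : 0 ≤ e * H := (norm_nonneg _).trans a2'
  have he00 : 0 ≤ e := nonneg_of_mul_nonneg_left heH hH
  have hcm : 0 < cm * r := lt_of_le_of_lt heH he0
  -- the main cone
  have hz0 : ‖(KR - κ0) / (κ0 + m)‖ ≤ e * H / (cm * r) := by
    rw [norm_div]
    exact div_le_div₀ heH a2' hcm hm0
  have hz1 : ‖(KL - κ1) / (κ1 + m)‖ ≤ e * H / (cm * r) := by
    rw [norm_div]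
    exact div_le_div₀ heH c2' hcm hm1
  have hk0 : κ0 + m ≠ 0 := norm_pos_iff.1 (lt_of_lt_of_le hcm hm0)
  have hk1 : κ1 + m ≠ 0 := norm_pos_iff.1 (lt_of_lt_of_le hcm hm1)
  have hlt : e * H / (cm * r) < 1 := by rwa [div_lt_one hcm]
  have cc0 := (Cone.one_add hlt hz0).mono hτ
  have cc1 := (Cone.one_add hlt hz1).mono hτ
  have hτ0 : 0 ≤ τ := le_trans (by positivity) hτ
  have cc := cc0.mul cc1 hτ0 hτ0 hτ1
  have hτ2 : 0 ≤ (τ + τ) / (1 - τ * τ) := by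
    have : 0 < 1 - τ * τ := by linarith only [hτ1]
    positivity
  have cA := cc.mul hA hτ2 htA hτA
  have eA : (1 + (KR - κ0) / (κ0 + m)) * (1 + (KL - κ1) / (κ1 + m)) * ((κ0 + m) * (κ1 + m)) =
      (KR + m) * (KL + m) := by
    field_simp
    ring
  rw [eA] at cA
  -- lower bounds
  have dR : cm * r - e * H ≤ ‖KR + m‖ := by
    have e5 : κ0 + m = (KR + m) - (KR - κ0) := by ring
    have := norm_sub_le (KR + m) (KR - κ0)
    rw [← e5] at this
    linarith only [hm0, a2', this]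
  have dL : cm * r - e * H ≤ ‖KL + m‖ := by
    have e5 : κ1 + m = (KL + m) - (KL - κ1) := by ring
    have := norm_sub_le (KL + m) (KL - κ1)
    rw [← e5] at this
    linarith only [hm1, c2', this]
  have dD : (cD - 2 * e) * H ≤ ‖KR - KL‖ := by
    have e5 : κ0 - κ1 = (KR - KL) - ((KR - κ0) - (KL - κ1)) := by ring
    have h6 := norm_sub_le (KR - KL) ((KR - κ0) - (KL - κ1))
    rw [← e5] at h6
    have h7 := norm_sub_le (KR - κ0) (KL - κ1)
    linarith only [hD, a2', c2', h6, h7]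
  have pm : 0 < cm * r - e * H := by linarith only [he0]
  have pD : 0 < (cD - 2 * e) * H := mul_pos (by linarith only [heD]) hH
  set Y := (e * H) ^ (2 : ℕ) + (ℓ + (b2 + 2 * d * b1 + d ^ (2 : ℕ) * b0) * H ^ (2 : ℕ)) / (1 - b0) with hY
  have yR : ‖((κ0 ^ (2 : ℕ) + l0) * p0 + S) / (p0 + P) - KR ^ (2 : ℕ)‖ ≤ Y := by
    refine a3.trans ?_
    have h8 : 0 ≤ (b1 + d * b0) / (1 - b0) * H := (norm_nonneg _).trans a2
    have h9 : ((b1 + d * b0) / (1 - b0) * H) ^ (2 : ℕ) ≤ (e * H) ^ (2 : ℕ) :=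
      pow_le_pow_left₀ h8 (mul_le_mul_of_nonneg_right he hH.le) 2
    have h10 : (‖l0‖ + (b2 + 2 * d * b1 + d ^ (2 : ℕ) * b0) * H ^ (2 : ℕ)) / (1 - b0) ≤
        (ℓ + (b2 + 2 * d * b1 + d ^ (2 : ℕ) * b0) * H ^ (2 : ℕ)) / (1 - b0) := by gcongr
    exact add_le_add h9 h10
  have yL : ‖((κ1 ^ (2 : ℕ) + l1) * p1 + S') / (p1 + P') - KL ^ (2 : ℕ)‖ ≤ Y := by
    refine c3.trans ?_
    have h8 : 0 ≤ (b1 + d * b0) / (1 - b0) * H := (norm_nonneg _).trans c2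
    have h9 : ((b1 + d * b0) / (1 - b0) * H) ^ (2 : ℕ) ≤ (e * H) ^ (2 : ℕ) :=
      pow_le_pow_left₀ h8 (mul_le_mul_of_nonneg_right he hH.le) 2
    have h10 : (‖l1‖ + (b2 + 2 * d * b1 + d ^ (2 : ℕ) * b0) * H ^ (2 : ℕ)) / (1 - b0) ≤
        (ℓ + (b2 + 2 * d * b1 + d ^ (2 : ℕ) * b0) * H ^ (2 : ℕ)) / (1 - b0) := by gcongr
    exact add_le_add h9 h10
  have hY0 : 0 ≤ Y := (norm_nonneg _).trans yR
  have hKD : KR - KL ≠ 0 := norm_pos_iff.1 (lt_of_lt_of_le pD dD)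
  refine U_two hm a1 c1 h ?_ cA hKD (χ := χ) ?_ hχ1 ht
  · have : 0 < 1 - (τ + τ) / (1 - τ * τ) * tA := by linarith only [hτA]
    positivity
  · rw [norm_div]
    rw [div_le_iff₀ (lt_of_lt_of_le pD dD)]
    have x1 : ‖(((κ0 ^ (2 : ℕ) + l0) * p0 + S) / (p0 + P) - KR ^ (2 : ℕ)) / (KR + m)‖ ≤ Y / (cm * r - e * H) := by
      rw [norm_div]
      exact div_le_div₀ hY0 yR pm dR
    have x2 : ‖(((κ1 ^ (2 : ℕ) + l1) * p1 + S') / (p1 + P') - KL ^ (2 : ℕ)) / (KL + m)‖ ≤ Y / (cm * r - e * H) := by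
      rw [norm_div]
      exact div_le_div₀ hY0 yL pm dL
    have x3 := (norm_sub_le _ _).trans (add_le_add x1 x2)
    refine x3.trans ?_
    have hχ0 : 0 ≤ χ := by
      by_contra hcon
      push Not at hcon
      have : χ * ((cm * r - e * H) * ((cD - 2 * e) * H)) < 0 :=
        mul_neg_of_neg_of_pos hcon (mul_pos pm pD)
      linarith only [hχ, hY0, this]
    have x4 : Y / (cm * r - e * H) + Y / (cm * r - e * H) ≤ χ * ((cD - 2 * e) * H) := by
      rw [← add_div, div_le_iff₀ pm]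
      calc Y + Y = 2 * Y := by ring
        _ ≤ _ := hχ
        _ = _ := by ring
    exact x4.trans (mul_le_mul_of_nonneg_left dD hχ0)

end SokamF1

end

/-! ### Lib_MP_af4de1_f1.Comb -/

section
/-!
# F1, `N ≥ 3`: the combination of two top waves and the far waves, general lemma

`p0` is the larger top wave, `p1` the other one, `P, Q, S` the sums of the far waves and of their first and second
derivatives.  The far sums are measured by `(D - r)^i` in units `H^i L`.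
-/

set_option autoImplicit false

namespace SokamF1

open Complex

/-- Product of a number in the upper half and one in the lower half of a cone. -/
theorem Cone.opp {t : ℝ} {u v : ℂ} (hu : Cone t u) (hv : Cone t v) (ht : 0 ≤ t) (h1 : 0 ≤ u.im)
    (h2 : v.im ≤ 0) : Cone t (u * v) := by
  obtain ⟨a1, b1⟩ := hu
  obtain ⟨a2, b2⟩ := hv
  rw [abs_of_nonneg h1] at b1
  rw [abs_of_nonpos h2] at b2
  have h3 : 0 ≤ u.im * (-v.im) := mul_nonneg h1 (by linarith only [h2])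
  have h4 : u.im * v.re ≤ t * u.re * v.re := mul_le_mul_of_nonneg_right b1 a2.le
  have h5 : u.re * (-v.im) ≤ u.re * (t * v.re) := mul_le_mul_of_nonneg_left b2 a1.le
  have h6 : 0 ≤ u.im * v.re := mul_nonneg h1 a2.le
  have h7 : 0 ≤ u.re * (-v.im) := mul_nonneg a1.le (by linarith only [h2])
  have h8 : 0 ≤ t * (u.im * (-v.im)) := mul_nonneg ht h3
  refine ⟨?_, ?_⟩
  · simp only [Complex.mul_re]
    nlinarith only [h6, h7, mul_pos a1 a2]
  · simp only [Complex.mul_re, Complex.mul_im]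
    rw [abs_le]
    constructor <;> nlinarith

/-- A point `k` in the cone plus a positive number. -/
theorem Cone.add_pos {t m : ℝ} {k : ℂ} (ht : 0 ≤ t) (hk : |k.im| ≤ t * k.re) (hk0 : 0 ≤ k.re) (hm : 0 < m) :
    Cone t (k + m) := by
  refine ⟨?_, ?_⟩
  · simp only [Complex.add_re, Complex.ofReal_re]
    linarith only [hk0, hm]
  · simp only [Complex.add_re, Complex.ofReal_re, Complex.add_im, Complex.ofReal_im, add_zero]
    have : 0 ≤ t * m := mul_nonneg ht hm.le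
    linarith only [hk, this]

/-- `|k + m| ≥ |k|` -/
theorem comb_norm_le {k : ℂ} {m : ℝ} (hk : 0 ≤ k.re) (hm : 0 ≤ m) : ‖k‖ ≤ ‖k + m‖ := by
  refine abs_le_of_sq_le_sq' ?_ (norm_nonneg _) |>.2
  rw [Complex.sq_norm, Complex.sq_norm, Complex.normSq_apply, Complex.normSq_apply]
  simp only [Complex.add_re, Complex.ofReal_re, Complex.add_im, Complex.ofReal_im, add_zero]
  nlinarith [mul_nonneg hk hm]

/-- `|k + m| ≥ c (|k| + m)` if `Re k ≥ (2c² - 1)|k|`. -/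
theorem comb_le_norm {k : ℂ} {m c : ℝ} (hc : 0 ≤ c) (hc1 : c ≤ 1) (hk : (2 * c ^ (2 : ℕ) - 1) * ‖k‖ ≤ k.re) (hm : 0 ≤ m) :
    c * (‖k‖ + m) ≤ ‖k + m‖ := by
  refine abs_le_of_sq_le_sq' ?_ (norm_nonneg _) |>.2
  have h1 : ‖k‖ ^ (2 : ℕ) = k.re ^ (2 : ℕ) + k.im ^ (2 : ℕ) := by
    rw [Complex.sq_norm, Complex.normSq_apply]; ring
  have h2 : ‖k + m‖ ^ (2 : ℕ) = ‖k‖ ^ (2 : ℕ) + 2 * k.re * m + m ^ (2 : ℕ) := by
    rw [h1, Complex.sq_norm, Complex.normSq_apply]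
    simp only [Complex.add_re, Complex.ofReal_re, Complex.add_im, Complex.ofReal_im, add_zero]
    ring
  rw [h2, mul_pow]
  have h3 : (2 * c ^ (2 : ℕ) - 1) * ‖k‖ * m ≤ k.re * m := mul_le_mul_of_nonneg_right hk hm
  have h4 : 0 ≤ (1 - c ^ (2 : ℕ)) * (‖k‖ - m) ^ (2 : ℕ) := mul_nonneg (by nlinarith only [hc, hc1]) (sq_nonneg _)
  linarith only [h3, h4]

/-- The combination. -/
theorem comb {κ0 κ1 l0 l1 p0 p1 P Q S : ℂ} {r m H L b0 b1 b2 cT cD cm d e tA χ b ν : ℝ}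
    (hm : 0 < m) (hr : 0 < r) (hH : 0 < H) (hL : 0 < L)
    (h : (κ0 * p0 + κ1 * p1 + Q) + m * (p0 + p1 + P) = 0)
    (hcT : 0 < cT) (hcD : 0 < cD) (hcm : 0 < cm) (hd0 : 0 ≤ d) (he0 : 0 ≤ e)
    (hp : cT * L ≤ ‖p0‖) (htA : 0 ≤ tA) (hA : Cone tA ((κ0 + m) * (κ1 + m)))
    (hD : cD * H ≤ ‖κ0 - κ1‖) (hM : cm * (r + m) ≤ ‖κ0 + m‖)
    (hd : ‖κ1 - r‖ ≤ d * H) (he : ‖κ1 + l1 / (κ1 + m) - r‖ ≤ e * H)
    (hX : ‖(l0 / (κ0 + m) - l1 / (κ1 + m)) / (κ0 - κ1)‖ ≤ χ)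
    (h0 : ‖P‖ ≤ b0 * L) (h1 : ‖Q - r * P‖ ≤ b1 * H * L)
    (h2 : ‖S - 2 * r * Q + r ^ (2 : ℕ) * P‖ ≤ b2 * H ^ (2 : ℕ) * L)
    (hb : b1 + d * b0 ≤ b * (cD * cT)) (hb1 : b < 1)
    (hn : b1 + e * b0 + H / r * (b2 + e * b1) ≤ (ν - χ) * (cm * cD * cT)) (hν : ν < 1)
    (ht : tA * (ν / √(1 - ν ^ (2 : ℕ))) + tA * (b / √(1 - b ^ (2 : ℕ))) +
      (ν / √(1 - ν ^ (2 : ℕ))) * (b / √(1 - b ^ (2 : ℕ))) < 1) :
    0 < (((κ0 ^ (2 : ℕ) + l0) * p0 + (κ1 ^ (2 : ℕ) + l1) * p1 + S) / (κ0 * p0 + κ1 * p1 + Q) -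
      (κ0 * p0 + κ1 * p1 + Q) / (p0 + p1 + P)).re := by
  have hnp : 0 < ‖p0‖ := lt_of_lt_of_le (by positivity) hp
  have hp0 : p0 ≠ 0 := norm_pos_iff.1 hnp
  have hn01 : 0 < ‖κ0 - κ1‖ := lt_of_lt_of_le (by positivity) hD
  have h01 : κ0 - κ1 ≠ 0 := norm_pos_iff.1 hn01
  have hprod := hA.ne_zero
  have hk0 : κ0 + m ≠ 0 := left_ne_zero_of_mul hprod
  have hk1 : κ1 + m ≠ 0 := right_ne_zero_of_mul hprod
  have hb0 : 0 ≤ b0 := by
    have := (norm_nonneg P).trans h0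
    exact nonneg_of_mul_nonneg_left this hL
  have hb1' : 0 ≤ b1 := by
    have := (norm_nonneg _).trans h1
    have h3 : 0 ≤ b1 * (H * L) := by rw [← mul_assoc]; exact this
    exact nonneg_of_mul_nonneg_left h3 (by positivity)
  have hb2' : 0 ≤ b2 := by
    have := (norm_nonneg _).trans h2
    have h3 : 0 ≤ b2 * (H ^ (2 : ℕ) * L) := by rw [← mul_assoc]; exact this
    exact nonneg_of_mul_nonneg_left h3 (by positivity)
  -- e_B
  have hbb : 0 ≤ b := by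
    by_contra hneg
    push Not at hneg
    have h3 : b * (cD * cT) < 0 := mul_neg_of_neg_of_pos hneg (by positivity)
    have h4 : 0 ≤ b1 + d * b0 := by positivity
    linarith only [hb, h3, h4]
  have eB : ‖Q - κ1 * P‖ ≤ b * (‖κ0 - κ1‖ * ‖p0‖) := by
    have e1 : Q - κ1 * P = (Q - r * P) - (κ1 - r) * P := by ring
    rw [e1]
    have h3 : ‖(κ1 - r) * P‖ ≤ d * H * (b0 * L) := by
      rw [norm_mul]
      exact mul_le_mul hd h0 (norm_nonneg _) (by positivity)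
    have h4 := norm_sub_le (Q - r * P) ((κ1 - r) * P)
    have h5 : b1 * H * L + d * H * (b0 * L) ≤ b * (cD * H * (cT * L)) := by
      have h6 : (b1 + d * b0) * (H * L) ≤ b * (cD * cT) * (H * L) :=
        mul_le_mul_of_nonneg_right hb (by positivity)
      linarith only [h6]
    have h7 : b * (cD * H * (cT * L)) ≤ b * (‖κ0 - κ1‖ * ‖p0‖) :=
      mul_le_mul_of_nonneg_left (mul_le_mul hD hp (by positivity) hn01.le) hbb
    linarith only [h1, h3, h4, h5, h7]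
  -- e_N
  have hνχ : 0 ≤ ν - χ := by
    by_contra hneg
    push Not at hneg
    have h3 : (ν - χ) * (cm * cD * cT) < 0 := mul_neg_of_neg_of_pos hneg (by positivity)
    have h4 : 0 ≤ b1 + e * b0 + H / r * (b2 + e * b1) := by positivity
    linarith only [hn, h3, h4]
  have eN : ‖S + m * Q - (κ1 + l1 / (κ1 + m)) * (Q + m * P)‖ ≤
      (ν - χ) * (‖κ0 + m‖ * ‖κ0 - κ1‖ * ‖p0‖) := by
    set κ' := κ1 + l1 / (κ1 + m) with hκ'
    have e1 : S + m * Q - κ' * (Q + m * P) =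
        ((r + m : ℝ) : ℂ) * ((Q - r * P) - (κ' - r) * P) +
        ((S - 2 * r * Q + r ^ (2 : ℕ) * P) - (κ' - r) * (Q - r * P)) := by
      push_cast
      ring
    rw [e1]
    have h3 : ‖(κ' - r) * P‖ ≤ e * H * (b0 * L) := by
      rw [norm_mul]
      exact mul_le_mul he h0 (norm_nonneg _) (by positivity)
    have h4 : ‖(κ' - r) * (Q - r * P)‖ ≤ e * H * (b1 * H * L) := by
      rw [norm_mul]
      exact mul_le_mul he h1 (norm_nonneg _) (by positivity)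
    have h5 : ‖((r + m : ℝ) : ℂ) * ((Q - r * P) - (κ' - r) * P)‖ ≤
        (r + m) * (b1 * H * L + e * H * (b0 * L)) := by
      rw [norm_mul, Complex.norm_real, Real.norm_of_nonneg (by linarith only [hm, hr])]
      exact mul_le_mul_of_nonneg_left ((norm_sub_le _ _).trans (by linarith only [h1, h3])) (by linarith only [hm, hr])
    have h6 : ‖(S - 2 * r * Q + r ^ (2 : ℕ) * P) - (κ' - r) * (Q - r * P)‖ ≤
        b2 * H ^ (2 : ℕ) * L + e * H * (b1 * H * L) := (norm_sub_le _ _).trans (by linarith only [h2, h4])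
    have h7 : (r + m) * (b1 * H * L + e * H * (b0 * L)) + (b2 * H ^ (2 : ℕ) * L + e * H * (b1 * H * L)) ≤
        (ν - χ) * (cm * (r + m) * (cD * H) * (cT * L)) := by
      have h8 : (b1 + e * b0 + H / r * (b2 + e * b1)) * ((r + m) * H * L) ≤
          (ν - χ) * (cm * cD * cT) * ((r + m) * H * L) :=
        mul_le_mul_of_nonneg_right hn (by positivity)
      have h9 : H * (b2 + e * b1) * (H * L) ≤ H / r * (b2 + e * b1) * ((r + m) * H * L) := by
        have e2 : H / r * (b2 + e * b1) * ((r + m) * H * L) =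
            H * (b2 + e * b1) * (H * L) * ((r + m) / r) := by
          field_simp
        rw [e2]
        refine le_mul_of_one_le_right (by positivity) ?_
        rw [one_le_div hr]
        linarith only [hm]
      linarith only [h8, h9]
    have h10 : (ν - χ) * (cm * (r + m) * (cD * H) * (cT * L)) ≤
        (ν - χ) * (‖κ0 + m‖ * ‖κ0 - κ1‖ * ‖p0‖) := by
      refine mul_le_mul_of_nonneg_left ?_ hνχ
      refine mul_le_mul (mul_le_mul hM hD (by positivity) (norm_nonneg _)) hp (by positivity) ?_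
      positivity
    refine (norm_add_le _ _).trans ?_
    linarith only [h5, h6, h7, h10]
  have e3 : ν - χ + χ = ν := by ring
  refine U_pos (n := ν - χ) (χ := χ) (b := b) hm h hk0 hk1 h01 hp0 htA hA eB hb1 hX eN
    (by rw [e3]; exact hν) ?_
  rw [e3]
  exact ht

end SokamF1

end

/-! ### Lib_MP_af4de1_v3.Core -/

section
namespace SokamF1
end SokamF1
/-!
# The core inequality: two pieces, each with its own saddle
-/

set_option autoImplicit false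

namespace SokamV3

open Complex SokamF1

/-- One piece, relative to the saddle `κ` and to the own wave `p`. -/
theorem piece_base {κ p Dp D2p P Q S : ℂ} {A B g0 g1 g2 : ℝ} (hp : p ≠ 0) (hg : g0 < 1)
    (h1 : ‖Dp - κ * p‖ ≤ A * ‖p‖) (h2 : ‖D2p - 2 * κ * Dp + κ ^ (2 : ℕ) * p‖ ≤ B * ‖p‖)
    (f0 : ‖P‖ ≤ g0 * ‖p‖) (f1 : ‖Q - κ * P‖ ≤ g1 * ‖p‖)
    (f2 : ‖S - 2 * κ * Q + κ ^ (2 : ℕ) * P‖ ≤ g2 * ‖p‖) :
    p + P ≠ 0 ∧ ‖(Dp + Q) / (p + P) - κ‖ ≤ (A + g1) / (1 - g0) ∧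
      ‖(D2p + S) / (p + P) - ((Dp + Q) / (p + P)) ^ (2 : ℕ)‖ ≤
        (B + g2) / (1 - g0) + ((A + g1) / (1 - g0)) ^ (2 : ℕ) := by
  have hnp : 0 < ‖p‖ := norm_pos_iff.2 hp
  have h1g : 0 < 1 - g0 := by linarith only [hg]
  have hlow : (1 - g0) * ‖p‖ ≤ ‖p + P‖ := by
    have := norm_sub_le_norm_add p P
    linarith only [f0, this]
  have hpos : 0 < ‖p + P‖ := lt_of_lt_of_le (by (clear * - hg hp; positivity)) hlow
  have hne : p + P ≠ 0 := norm_pos_iff.1 hpos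
  have e1 : (Dp + Q) / (p + P) - κ = ((Dp - κ * p) + (Q - κ * P)) / (p + P) := by
    field_simp
    ring
  have n1 : ‖(Dp - κ * p) + (Q - κ * P)‖ ≤ (A + g1) * ‖p‖ := by
    refine (norm_add_le _ _).trans ?_
    rw [add_mul]
    exact add_le_add h1 f1
  have hA : 0 ≤ A + g1 := nonneg_of_mul_nonneg_left ((norm_nonneg _).trans n1) hnp
  have c1 : ‖(Dp + Q) / (p + P) - κ‖ ≤ (A + g1) / (1 - g0) := by
    rw [e1, norm_div, div_le_div_iff₀ hpos h1g]
    calc ‖(Dp - κ * p) + (Q - κ * P)‖ * (1 - g0) ≤ ((A + g1) * ‖p‖) * (1 - g0) := by gcongr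
      _ = (A + g1) * ((1 - g0) * ‖p‖) := by ring
      _ ≤ (A + g1) * ‖p + P‖ := by gcongr
  refine ⟨hne, c1, ?_⟩
  have e2 : (D2p + S) / (p + P) - ((Dp + Q) / (p + P)) ^ (2 : ℕ) =
      ((D2p - 2 * κ * Dp + κ ^ (2 : ℕ) * p) + (S - 2 * κ * Q + κ ^ (2 : ℕ) * P)) / (p + P) -
        ((Dp + Q) / (p + P) - κ) ^ (2 : ℕ) := by
    field_simp
    ring
  have n2 : ‖(D2p - 2 * κ * Dp + κ ^ (2 : ℕ) * p) + (S - 2 * κ * Q + κ ^ (2 : ℕ) * P)‖ ≤ (B + g2) * ‖p‖ := by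
    refine (norm_add_le _ _).trans ?_
    rw [add_mul]
    exact add_le_add h2 f2
  have hB : 0 ≤ B + g2 := nonneg_of_mul_nonneg_left ((norm_nonneg _).trans n2) hnp
  rw [e2]
  refine (norm_sub_le _ _).trans (add_le_add ?_ ?_)
  · rw [norm_div, div_le_div_iff₀ hpos h1g]
    calc _ * (1 - g0) ≤ ((B + g2) * ‖p‖) * (1 - g0) := by gcongr
      _ = (B + g2) * ((1 - g0) * ‖p‖) := by ring
      _ ≤ (B + g2) * ‖p + P‖ := by gcongr
  · rw [norm_pow]
    exact pow_le_pow_left₀ (norm_nonneg _) c1 2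

/-- two factors with arguments of opposite sign -/
theorem cone_opp {u v : ℂ} {T : ℝ} (hT : 0 ≤ T) (hu : 0 < u.re) (hv : 0 < v.re) (h1 : 0 ≤ u.im)
    (h2 : u.im ≤ T * u.re) (h3 : v.im ≤ 0) (h4 : -(T * v.re) ≤ v.im) : Cone T (u * v) := by
  have hp : 0 < u.re * v.re := mul_pos hu hv
  have hi : 0 ≤ u.im * (-v.im) := mul_nonneg h1 (by linarith only [h3])
  have hre : (u * v).re = u.re * v.re + u.im * (-v.im) := by rw [Complex.mul_re]; ring
  refine ⟨by rw [hre]; linarith only [hp, hi], ?_⟩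
  rw [hre, Complex.mul_im, abs_le]
  have a1 : u.re * v.im ≤ 0 := mul_nonpos_of_nonneg_of_nonpos hu.le h3
  have a2 : -(T * (u.re * v.re)) ≤ u.re * v.im := by nlinarith only [hv, h4, hp]
  have a3 : 0 ≤ u.im * v.re := mul_nonneg h1 hv.le
  have a4 : u.im * v.re ≤ T * (u.re * v.re) := by nlinarith only [hv, h2]
  have a5 : 0 ≤ T * (u.im * (-v.im)) := mul_nonneg hT hi
  constructor
  · rw [mul_add]; linarith only [a2, a3, a5]
  · rw [mul_add]; linarith only [a1, a4, a5]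

theorem cone_one {z t : ℝ} {w : ℂ} (hz : z < 1) (ht : 0 ≤ t) (h : z ^ (2 : ℕ) ≤ t ^ (2 : ℕ) * (1 - z ^ (2 : ℕ)))
    (hw : ‖w‖ ≤ z) : Cone t (1 + w) := by
  have hz0 : 0 ≤ z := (norm_nonneg _).trans hw
  have hs : 0 < 1 - z ^ (2 : ℕ) := by nlinarith only [h]
  refine (Cone.one_add hz hw).mono ?_
  rw [div_le_iff₀ (Real.sqrt_pos.2 hs)]
  refine abs_le_of_sq_le_sq' ?_ (by (clear * - ht hs; positivity)) |>.2
  rw [mul_pow, Real.sq_sqrt hs.le]
  exact h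

/-- (U) for two pieces, each close to a saddle. -/
theorem U_core {R DR D2R L DL D2L κ0 κ1 : ℂ}
    {m e0 e1 l0 l1 b0 b1 d Δ T z0 z1 c0 c1 t0 t1 χ tχ s : ℝ}
    (hm : 0 < m) (hR : R ≠ 0) (hL : L ≠ 0) (h : (DR + DL) + m * (R + L) = 0)
    (he0 : ‖DR / R - κ0‖ ≤ e0) (he1 : ‖DL / L - κ1‖ ≤ e1)
    (hl0 : ‖D2R / R - (DR / R) ^ (2 : ℕ)‖ ≤ l0) (hl1 : ‖D2L / L - (DL / L) ^ (2 : ℕ)‖ ≤ l1)
    (hb0 : b0 ≤ ‖κ0 + m‖) (hb1 : b1 ≤ ‖κ1 + m‖) (hb0p : 0 < b0) (hb1p : 0 < b1)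
    (hΔ : Δ ≤ ‖κ0 - κ1‖) (hd : 0 < d) (hdΔ : e0 + e1 + d ≤ Δ)
    (hz0 : e0 ≤ z0 * b0) (hz1 : e1 ≤ z1 * b1) (hz0' : z0 < 1) (hz1' : z1 < 1)
    (hc0 : l0 ≤ c0 * ((1 - z0) * b0)) (hc1 : l1 ≤ c1 * ((1 - z1) * b1))
    (hχ : c0 + c1 ≤ χ * d) (hχ1 : χ < 1) (hT : 0 ≤ T) (hA : Cone T ((κ0 + m) * (κ1 + m)))
    (ht0 : 0 ≤ t0) (ht1 : 0 ≤ t1) (htχ : 0 ≤ tχ)
    (q0 : z0 ^ (2 : ℕ) ≤ t0 ^ (2 : ℕ) * (1 - z0 ^ (2 : ℕ))) (q1 : z1 ^ (2 : ℕ) ≤ t1 ^ (2 : ℕ) * (1 - z1 ^ (2 : ℕ)))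
    (qχ : χ ^ (2 : ℕ) ≤ tχ ^ (2 : ℕ) * (1 - χ ^ (2 : ℕ)))
    (h01 : t0 * t1 < 1) (hs : (t0 + t1) / (1 - t0 * t1) ≤ s) (hsT : s * T < 1)
    (hfin : (s + T) / (1 - s * T) * tχ < 1) :
    0 < ((D2R + D2L) / (DR + DL) - (DR + DL) / (R + L)).re := by
  have hs0 : 0 ≤ s := by
    have : 0 < 1 - t0 * t1 := by linarith only [h01]
    exact le_trans (by (clear * - ht0 ht1 h01; positivity)) hs
  have hk0 : κ0 + m ≠ 0 := norm_pos_iff.1 (lt_of_lt_of_le hb0p hb0)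
  have hk1 : κ1 + m ≠ 0 := norm_pos_iff.1 (lt_of_lt_of_le hb1p hb1)
  have n0 : 0 < ‖κ0 + m‖ := norm_pos_iff.2 hk0
  have n1 : 0 < ‖κ1 + m‖ := norm_pos_iff.2 hk1
  have hz00 : 0 ≤ z0 := by
    have := (norm_nonneg _).trans he0
    exact nonneg_of_mul_nonneg_left (this.trans hz0) hb0p
  have hz10 : 0 ≤ z1 := by
    have := (norm_nonneg _).trans he1
    exact nonneg_of_mul_nonneg_left (this.trans hz1) hb1p
  have w0 : ‖(DR / R - κ0) / (κ0 + m)‖ ≤ z0 := by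
    rw [norm_div, div_le_iff₀ n0]
    exact he0.trans (hz0.trans (by gcongr))
  have w1 : ‖(DL / L - κ1) / (κ1 + m)‖ ≤ z1 := by
    rw [norm_div, div_le_iff₀ n1]
    exact he1.trans (hz1.trans (by gcongr))
  have cc0 := cone_one hz0' ht0 q0 w0
  have cc1 := cone_one hz1' ht1 q1 w1
  have cc := (cc0.mul cc1 ht0 ht1 h01).mono hs
  have cA := cc.mul hA hs0 hT hsT
  have eA : (1 + (DR / R - κ0) / (κ0 + m)) * (1 + (DL / L - κ1) / (κ1 + m)) *
      ((κ0 + m) * (κ1 + m)) = (DR / R + m) * (DL / L + m) := by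
    field_simp
    ring
  rw [eA] at cA
  have d0 : (1 - z0) * b0 ≤ ‖DR / R + m‖ := by
    have e5 : κ0 + m = (DR / R + m) - (DR / R - κ0) := by ring
    have := norm_sub_le (DR / R + m) (DR / R - κ0)
    rw [← e5] at this
    linarith only [he0, hb0, hz0, this]
  have d1 : (1 - z1) * b1 ≤ ‖DL / L + m‖ := by
    have e5 : κ1 + m = (DL / L + m) - (DL / L - κ1) := by ring
    have := norm_sub_le (DL / L + m) (DL / L - κ1)
    rw [← e5] at this
    linarith only [he1, hb1, hz1, this]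
  have dD : d ≤ ‖DR / R - DL / L‖ := by
    have e5 : κ0 - κ1 = (DR / R - DL / L) - ((DR / R - κ0) - (DL / L - κ1)) := by ring
    have h6 := norm_sub_le (DR / R - DL / L) ((DR / R - κ0) - (DL / L - κ1))
    rw [← e5] at h6
    have h7 := norm_sub_le (DR / R - κ0) (DL / L - κ1)
    linarith only [he0, he1, hΔ, hdΔ, h6, h7]
  have p0 : 0 < (1 - z0) * b0 := mul_pos (by linarith only [hz0']) hb0p
  have p1 : 0 < (1 - z1) * b1 := mul_pos (by linarith only [hz1']) hb1p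
  have hKD : DR / R - DL / L ≠ 0 := norm_pos_iff.1 (lt_of_lt_of_le hd dD)
  have hc00 : 0 ≤ c0 := nonneg_of_mul_nonneg_left (((norm_nonneg _).trans hl0).trans hc0) p0
  have hc10 : 0 ≤ c1 := nonneg_of_mul_nonneg_left (((norm_nonneg _).trans hl1).trans hc1) p1
  have hχ0 : 0 ≤ χ := nonneg_of_mul_nonneg_left ((add_nonneg hc00 hc10).trans hχ) hd
  have hXn : ‖((D2R / R - (DR / R) ^ (2 : ℕ)) / (DR / R + m) - (D2L / L - (DL / L) ^ (2 : ℕ)) / (DL / L + m)) /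
      (DR / R - DL / L)‖ ≤ χ := by
    rw [norm_div, div_le_iff₀ (lt_of_lt_of_le hd dD)]
    have x1 : ‖(D2R / R - (DR / R) ^ (2 : ℕ)) / (DR / R + m)‖ ≤ c0 := by
      rw [norm_div, div_le_iff₀ (lt_of_lt_of_le p0 d0)]
      exact (hl0.trans hc0).trans (mul_le_mul_of_nonneg_left d0 hc00)
    have x2 : ‖(D2L / L - (DL / L) ^ (2 : ℕ)) / (DL / L + m)‖ ≤ c1 := by
      rw [norm_div, div_le_iff₀ (lt_of_lt_of_le p1 d1)]
      exact (hl1.trans hc1).trans (mul_le_mul_of_nonneg_left d1 hc10)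
    refine (norm_sub_le _ _).trans ((add_le_add x1 x2).trans (hχ.trans ?_))
    exact mul_le_mul_of_nonneg_left dD hχ0
  have hsq : χ / √(1 - χ ^ (2 : ℕ)) ≤ tχ := by
    have hs' : 0 < 1 - χ ^ (2 : ℕ) := sub_pos.2 (pow_lt_one₀ hχ0 hχ1 two_ne_zero)
    rw [div_le_iff₀ (Real.sqrt_pos.2 hs')]
    refine abs_le_of_sq_le_sq' ?_ (by (clear * - htχ hs'; positivity)) |>.2
    rw [mul_pow, Real.sq_sqrt hs'.le]
    exact qχ
  have hsT' : 0 < 1 - s * T := by linarith only [hsT]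
  have hq : 0 ≤ (s + T) / (1 - s * T) := by (clear * - hs0 hT hsT; positivity)
  exact U_two hm hR hL h hq cA hKD (χ := χ) hXn hχ1
    (lt_of_le_of_lt (mul_le_mul_of_nonneg_left hsq hq) hfin)

end SokamV3

end

/-! ### Lib_MP_af4de1_v3.P2Sad -/

section
namespace SokamF1
end SokamF1
namespace SokamF1M
end SokamF1M
namespace SokamF1S
end SokamF1S
namespace SokamU
end SokamU
/-!
# F1, plan v3: `P2.ex`, `P2.sad`, `P2.sadA`, `P2.pair`

`N = 2`, `ρ = rδ ≥ 16/5`, `hst 2 = π`.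
* `Γ < 10` gives `ρ ≥ 6.94`, `Γ < 20` gives `ρ ≥ 4.85`.
* `sE ρ Y ≥ ρ(1 - e^{-Y}) + (Y e^Y/ρ)(1 + Y/2)` for `Y ≥ 0`, `sE ρ (-n) ≤ ρ - √(ρ²e^{2n} - n²)` for `n ≥ 0`.
* pair: `K0 - K1 = -(π - ψ0 + ψ1) + i (y0 - y1)`; the component in the direction `(-ρ, 1)/√R` is at least
  `(ρ/√R)(π - ψ0 + ψ1 + (y0 - y1)/ρ)`, and `ψ0 - y0/ρ ≤ .06π`, `-ψ1 + y1/ρ ≤ 0`.
-/

set_option autoImplicit false

namespace SokamV3

open Complex SokamU SokamF1 SokamF1S SokamF1M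

theorem hst_two : hst 2 = Real.pi := by
  unfold hst
  push_cast
  ring

/-! ### numbers -/

theorem p2_exp_lb (x : ℝ) (hx : 0 ≤ x) :
    1 + x + x ^ (2 : ℕ) / 2 + x ^ (3 : ℕ) / 6 + x ^ (4 : ℕ) / 24 + x ^ (5 : ℕ) / 120 ≤ Real.exp x := by
  have h := Real.sum_le_exp_of_nonneg hx 6
  simp only [Finset.sum_range_succ, Finset.sum_range_zero, Nat.factorial] at h
  norm_num at h
  linarith only [h]

theorem p2_exp_ub (x : ℝ) (hx : 0 ≤ x) (hx1 : x ≤ 1) :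
    Real.exp x ≤ 1 + x + x ^ (2 : ℕ) / 2 + x ^ (3 : ℕ) / 6 + x ^ (4 : ℕ) / 24 + x ^ (5 : ℕ) / 120 + x ^ (6 : ℕ) * (7 / (720 * 6)) := by
  have h := Real.exp_bound' hx hx1 (n := 6) (by norm_num)
  simp only [Finset.sum_range_succ, Finset.sum_range_zero, Nat.factorial] at h
  norm_num at h
  linarith only [h]

theorem p2_exp_61 : Real.exp (61 / 100) ≤ 18405 / 10000 := by
  refine (p2_exp_ub _ (by norm_num) (by norm_num)).trans ?_
  norm_num

theorem p2_exp_61' : 18402 / 10000 ≤ Real.exp (61 / 100) := by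
  refine le_trans ?_ (p2_exp_lb _ (by norm_num))
  norm_num

theorem p2_exp_42 : Real.exp (42 / 100) ≤ 1523 / 1000 := by
  refine (p2_exp_ub _ (by norm_num) (by norm_num)).trans ?_
  norm_num

theorem p2_exp_42' : 15218 / 10000 ≤ Real.exp (42 / 100) := by
  refine le_trans ?_ (p2_exp_lb _ (by norm_num))
  norm_num

theorem p2_exp_neg_61 : Real.exp (-(61 / 100)) ≤ 54342 / 100000 := by
  rw [Real.exp_neg, inv_le_comm₀ (Real.exp_pos _) (by norm_num)]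
  refine le_trans ?_ p2_exp_61'
  norm_num

theorem p2_exp_neg_61' : 5433 / 10000 ≤ Real.exp (-(61 / 100)) := by
  rw [Real.exp_neg, le_inv_comm₀ (by norm_num) (Real.exp_pos _)]
  refine p2_exp_61.trans ?_
  norm_num

theorem p2_exp_neg_42 : Real.exp (-(42 / 100)) ≤ 6572 / 10000 := by
  rw [Real.exp_neg, inv_le_comm₀ (Real.exp_pos _) (by norm_num)]
  refine le_trans ?_ p2_exp_42'
  norm_num

theorem p2_exp_neg_42' : 656 / 1000 ≤ Real.exp (-(42 / 100)) := by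
  rw [Real.exp_neg, le_inv_comm₀ (by norm_num) (Real.exp_pos _)]
  refine p2_exp_42.trans ?_
  norm_num

theorem p2_exp_one : 2718 / 1000 ≤ Real.exp 1 := by
  have := Real.exp_one_gt_d9
  linarith only [this]

theorem p2_exp_62 : 1858 / 1000 ≤ Real.exp (62 / 100) := by
  refine le_trans ?_ (p2_exp_lb _ (by norm_num))
  norm_num

/-! ### comparison of `sE` -/

theorem At.le {r δ y η Y : ℝ} (h : At r δ y η) (hY : Dom (r * δ) Y) (hY1 : -1 ≤ Y)
    (hE : η ≤ sE (r * δ) Y) : y ≤ Y := by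
  by_contra hcon
  push Not at hcon
  have h1 := sE_strictMonoOn hY h.dom hY1 (Set.left_mem_Icc.mpr hcon.le) (Set.right_mem_Icc.mpr hcon.le) hcon
  rw [h.eta] at h1
  linarith only [hE, h1]

theorem At.ge {r δ y η Y : ℝ} (h : At r δ y η) (hY : Dom (r * δ) Y)
    (hE : sE (r * δ) Y ≤ η) : Y ≤ y := by
  by_contra hcon
  push Not at hcon
  have h1 := sE_strictMonoOn h.dom hY h.y1.le (Set.left_mem_Icc.mpr hcon.le) (Set.right_mem_Icc.mpr hcon.le) hcon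
  rw [h.eta] at h1
  linarith only [hE, h1]

/-- the lower bound of `sE` for `Y ≥ 0` -/
theorem sE_ge {ρ Y : ℝ} (h : Dom ρ Y) (hY : 0 ≤ Y) :
    ρ * (1 - Real.exp (-Y)) + Y * Real.exp Y / ρ * (1 + Y / 2) ≤ sE ρ Y := by
  have hρ := h.1
  set A := ρ * Real.exp (-Y) with hA
  have hA0 : 0 < A := by positivity
  have hYA : Y ≤ A := by
    have := h.abs_le_exp
    rwa [abs_of_nonneg hY] at this
  have hx : sx ρ Y ≤ A - Y ^ (2 : ℕ) / (2 * A) := by
    have h0 : 0 ≤ A - Y ^ (2 : ℕ) / (2 * A) := by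
      rw [sub_nonneg, div_le_iff₀ (by positivity)]
      nlinarith only [hY, hYA]
    refine abs_le_of_sq_le_sq' ?_ h0 |>.2
    rw [sx_sq h]
    have e : (A - Y ^ (2 : ℕ) / (2 * A)) ^ (2 : ℕ) = A ^ (2 : ℕ) - Y ^ (2 : ℕ) + (Y ^ (2 : ℕ) / (2 * A)) ^ (2 : ℕ) := by
      field_simp
      ring
    rw [e]
    nlinarith only []
  have hψ : Y * Real.exp Y / ρ ≤ sP ρ Y := by
    rw [← h.sin]
    exact Real.sin_le (sP_nonneg hρ hY)
  have e2 : Y ^ (2 : ℕ) / (2 * A) = Y * Real.exp Y / ρ * (Y / 2) := by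
    have h2 : Real.exp (-Y) = (Real.exp Y)⁻¹ := Real.exp_neg Y
    rw [hA, h2]
    field_simp
  rw [e2] at hx
  unfold sE
  have e3 : A = ρ * Real.exp (-Y) := hA
  linarith only [hx, hψ]

/-- the upper bound of `sE` for `Y = -n ≤ 0` -/
theorem sE_neg_le {ρ n B : ℝ} (h : Dom ρ (-n)) (hn : 0 ≤ n) (hB2 : B ^ (2 : ℕ) + n ^ (2 : ℕ) ≤ (ρ * Real.exp n) ^ (2 : ℕ)) :
    sE ρ (-n) ≤ ρ - B := by
  have h1 : sP ρ (-n) ≤ 0 := sP_nonpos h.1 (by linarith only [hn])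
  have h2 : B ≤ sx ρ (-n) := by
    refine abs_le_of_sq_le_sq' ?_ (sx_nonneg _ _) |>.2
    rw [sx_sq h, neg_neg]
    linarith only [hB2]
  unfold sE
  linarith only [h1, h2]

/-! ### the parameters -/

theorem reg2_facts {r δ : ℝ} (h : Reg2 r δ) :
    0 < r * δ ∧ (Gm 2 r δ < 10 → 694 / 100 ≤ r * δ) ∧ (Gm 2 r δ < 20 → 485 / 100 ≤ r * δ) := by
  have hr := h.r0
  have hρ := h.rho
  have hpi := Real.pi_gt_d4
  have hG : Gm 2 r δ * (1 + (r * δ) ^ (2 : ℕ)) = r * Real.pi ^ (2 : ℕ) := by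
    unfold Gm RR
    rw [hst_two]
    field_simp
  have h1 : (9869 / 1000 : ℝ) ≤ Real.pi ^ (2 : ℕ) := by nlinarith only [hpi]
  have h2 : 499 / 10 * (9869 / 1000) ≤ r * Real.pi ^ (2 : ℕ) := mul_le_mul hr h1 (by norm_num) (by linarith only [hr])
  refine ⟨by linarith only [hρ], fun h10 => ?_, fun h20 => ?_⟩
  · have h3 : Gm 2 r δ * (1 + (r * δ) ^ (2 : ℕ)) < 10 * (1 + (r * δ) ^ (2 : ℕ)) :=
      mul_lt_mul_of_pos_right h10 (by positivity)
    by_contra hcon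
    push Not at hcon
    nlinarith only [hr, hρ, hpi, hG, h3, hcon]
  · have h3 : Gm 2 r δ * (1 + (r * δ) ^ (2 : ℕ)) < 20 * (1 + (r * δ) ^ (2 : ℕ)) :=
      mul_lt_mul_of_pos_right h20 (by positivity)
    by_contra hcon
    push Not at hcon
    nlinarith only [hr, hρ, hpi, hG, h3, hcon]

theorem eo2_cases {r δ : ℝ} (h : Reg2 r δ) :
    (Gm 2 r δ < 10 ∧ 694 / 100 ≤ r * δ ∧ eo2 r δ = 67 / 100 * Real.pi) ∨
    (10 ≤ Gm 2 r δ ∧ 485 / 100 ≤ r * δ ∧ eo2 r δ = 65 / 100 * Real.pi) ∨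
    (10 ≤ Gm 2 r δ ∧ 16 / 5 ≤ r * δ ∧ eo2 r δ = 60 / 100 * Real.pi) := by
  obtain ⟨h0, h1, h2⟩ := reg2_facts h
  by_cases h10 : Gm 2 r δ < 10
  · left
    refine ⟨h10, h1 h10, ?_⟩
    unfold eo2 om2
    rw [hst_two, if_pos h10]
    ring
  · by_cases h20 : Gm 2 r δ < 20
    · right; left
      refine ⟨not_lt.mp h10, h2 h20, ?_⟩
      unfold eo2 om2
      rw [hst_two, if_neg h10, if_pos h20]
      ring
    · right; right
      refine ⟨not_lt.mp h10, h.rho, ?_⟩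
      unfold eo2 om2
      rw [hst_two, if_neg h10, if_neg h20]
      ring

theorem dom_of {ρ y : ℝ} (hρ : 16 / 5 ≤ ρ) (h1 : -(1 / 2) ≤ y) (h2 : y ≤ 61 / 100) : Dom ρ y := by
  refine ⟨by linarith only [hρ], ?_⟩
  have h3 : Real.exp y ≤ 18405 / 10000 := (Real.exp_le_exp.mpr h2).trans p2_exp_61
  have h4 : |y| ≤ 61 / 100 := abs_le.mpr ⟨by linarith only [h1], h2⟩
  calc |y| * Real.exp y ≤ 61 / 100 * (18405 / 10000) := mul_le_mul h4 h3 (Real.exp_pos _).le (by norm_num)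
    _ ≤ ρ := by linarith only [hρ]

theorem p2_num {ρ : ℝ} (hρ : 16 / 5 ≤ ρ) : 45658 / 100000 * ρ + 14648 / 10000 * (1 / ρ) ≤ sE ρ (61 / 100) := by
  have hD : Dom ρ (61 / 100) := dom_of hρ (by norm_num) le_rfl
  have h1 := sE_ge hD (by norm_num)
  have h2 := p2_exp_neg_61
  have h3 := p2_exp_61'
  have hρ0 : 0 < ρ := by linarith only [hρ]
  have h4 : ρ * (45658 / 100000) ≤ ρ * (1 - Real.exp (-(61 / 100))) :=
    mul_le_mul_of_nonneg_left (by linarith only [h2]) hρ0.le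
  have h5 : (14648 / 10000 : ℝ) * (1 / ρ) ≤ 61 / 100 * Real.exp (61 / 100) / ρ * (1 + 61 / 100 / 2) := by
    have e : 61 / 100 * Real.exp (61 / 100) / ρ * (1 + 61 / 100 / 2) =
        (61 / 100 * Real.exp (61 / 100) * (1 + 61 / 100 / 2)) * (1 / ρ) := by ring
    rw [e]
    refine mul_le_mul_of_nonneg_right ?_ (by positivity)
    linarith only [h3]
  linarith only [h1, h4, h5]

theorem p2_num2 {ρ : ℝ} (hρ : 16 / 5 ≤ ρ) : 18850 / 10000 ≤ sE ρ (61 / 100) := by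
  have h1 := p2_num hρ
  have hρ0 : 0 < ρ := by linarith only [hρ]
  have h7 : 5 / 8 - ρ * (25 / 256) ≤ 1 / ρ := by
    rw [le_div_iff₀ hρ0]
    linarith only [sq_nonneg (ρ - 16 / 5)]
  linarith

theorem eo2_le_hi {r δ : ℝ} (h : Reg2 r δ) : eo2 r δ ≤ sE (r * δ) (61 / 100) := by
  have hpi := Real.pi_lt_d4
  have hρ := h.rho
  have h1 := p2_num hρ
  have h2 := p2_num2 hρ
  have h3 : 0 ≤ 14648 / 10000 * (1 / (r * δ)) := by
    have : 0 < r * δ := by linarith only [hρ]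
    positivity
  rcases eo2_cases h with ⟨_, hr, he⟩ | ⟨_, hr, he⟩ | ⟨_, hr, he⟩
  · rw [he]; linarith only [hpi, h1, h3, hr]
  · rw [he]; linarith only [hpi, h1, h3, hr]
  · rw [he]; linarith only [hpi, h2]

theorem lo_le_eo2 {r δ : ℝ} (h : Reg2 r δ) : sE (r * δ) (-(1 / 2)) ≤ -eo2 r δ := by
  have hpi := Real.pi_lt_d4
  have hpi0 := Real.pi_pos
  have hρ := h.rho
  have hρ0 : 0 < r * δ := by linarith only [hρ]
  have hD : Dom (r * δ) (-(1 / 2)) := dom_of hρ le_rfl (by norm_num)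
  have he2 : Real.exp (1 / 2) ^ (2 : ℕ) = Real.exp 1 := by
    rw [← Real.exp_nat_mul]; norm_num
  have h1 : 2718 / 1000 * (r * δ) ^ (2 : ℕ) ≤ (r * δ * Real.exp (1 / 2)) ^ (2 : ℕ) := by
    rw [mul_pow (r * δ) (Real.exp (1 / 2)), he2]
    have := mul_le_mul_of_nonneg_right p2_exp_one (sq_nonneg (r * δ))
    linarith only [this]
  have h2 : sE (r * δ) (-(1 / 2)) ≤ r * δ - (r * δ + eo2 r δ) := by
    have hE : 0 ≤ eo2 r δ := by
      rcases eo2_cases h with ⟨_, hr, he⟩ | ⟨_, hr, he⟩ | ⟨_, hr, he⟩ <;> rw [he] <;> positivity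
    refine sE_neg_le hD (by norm_num) (le_trans ?_ h1)
    rcases eo2_cases h with ⟨_, hr, he⟩ | ⟨_, hr, he⟩ | ⟨_, hr, he⟩
    · have he' : eo2 r δ ≤ 2106 / 1000 := by rw [he]; linarith only [hpi]
      nlinarith only [hE, hr, he']
    · have he' : eo2 r δ ≤ 2043 / 1000 := by rw [he]; linarith only [hpi]
      nlinarith only [hE, hr, he']
    · have he' : eo2 r δ ≤ 18850 / 10000 := by rw [he]; linarith only [hpi]
      nlinarith only [hE, hr, he']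
  linarith only [h2]

theorem p2_ex : ∀ (r δ η : ℝ), Reg2 r δ → |η| ≤ eo2 r δ → ∃ y, At r δ y η := by
  intro r δ η h hη
  obtain ⟨h1, h2⟩ := abs_le.mp hη
  obtain ⟨y, hy, hE⟩ := exists_sE (ρ := r * δ) (y₁ := -(1 / 2)) (y₂ := 61 / 100) (η := η) (by norm_num)
    ((lo_le_eo2 h).trans h1) (h2.trans (eo2_le_hi h))
  exact ⟨y, dom_of h.rho hy.1 hy.2, by linarith only [hy.1], hE⟩

theorem p2_lohi {r δ y η : ℝ} (h : Reg2 r δ) (hA : At r δ y η) (hη : |η| ≤ eo2 r δ) :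
    -(1 / 2) ≤ y ∧ y ≤ 61 / 100 := by
  obtain ⟨h1, h2⟩ := abs_le.mp hη
  exact ⟨hA.ge (dom_of h.rho le_rfl (by norm_num)) ((lo_le_eo2 h).trans h1),
    hA.le (dom_of h.rho (by norm_num) le_rfl) (by norm_num) (h2.trans (eo2_le_hi h))⟩

/-- `|y| ≤ t x` from `(1 + t²) y² ≤ t² (ρ e^{-y})²` -/
theorem p2_T {ρ y t c : ℝ} (hD : Dom ρ y) (ht : 0 < t) (hc : 0 ≤ c) (hct : 1 + t ^ (2 : ℕ) ≤ (t * c) ^ (2 : ℕ))
    (h : c * |y| ≤ ρ * Real.exp (-y)) : |y| ≤ t * sx ρ y := by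
  have h0 : 0 ≤ t * sx ρ y := mul_nonneg ht.le (sx_nonneg _ _)
  refine abs_le_of_sq_le_sq' ?_ h0 |>.2
  rw [mul_pow, sx_sq hD, sq_abs]
  have h1 : (c * |y|) ^ (2 : ℕ) ≤ (ρ * Real.exp (-y)) ^ (2 : ℕ) := pow_le_pow_left₀ (by positivity) h 2
  rw [mul_pow, sq_abs] at h1
  have h2 : t ^ (2 : ℕ) * (c ^ (2 : ℕ) * y ^ (2 : ℕ)) ≤ t ^ (2 : ℕ) * (ρ * Real.exp (-y)) ^ (2 : ℕ) :=
    mul_le_mul_of_nonneg_left h1 (by positivity)
  have h3 : (1 + t ^ (2 : ℕ)) * y ^ (2 : ℕ) ≤ (t * c) ^ (2 : ℕ) * y ^ (2 : ℕ) := mul_le_mul_of_nonneg_right hct (sq_nonneg y)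
  linarith only [h2, h3]

theorem p2_sad : ∀ (r δ y η : ℝ), Reg2 r δ → At r δ y η → |η| ≤ eo2 r δ → Sad2 r δ y := by
  intro r δ y η h hA hη
  obtain ⟨h1, h2⟩ := p2_lohi h hA hη
  have hρ := h.rho
  have hρ0 : 0 < r * δ := by linarith only [hρ]
  have hD := dom_of hρ h1 h2
  have he := p2_exp_neg_61'
  have hey : Real.exp (-(61 / 100)) ≤ Real.exp (-y) := Real.exp_le_exp.mpr (by linarith only [h2])
  refine ⟨h1, by linarith only [h2], ?_, ?_⟩
  · refine p2_T (c := 27 / 10) hD (by norm_num) (by norm_num) (by norm_num) ?_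
    rcases le_total 0 y with hy | hy
    · rw [abs_of_nonneg hy]
      nlinarith only [h2, hρ, he, hey]
    · rw [abs_of_nonpos hy]
      have h3 : 1 ≤ Real.exp (-y) := Real.one_le_exp (by linarith only [hy])
      nlinarith only [h1, hρ, h3]
  · unfold sD2
    rw [sx_sq hD]
    have e1 : (r * δ * Real.exp (-y)) ^ (2 : ℕ) = (r * δ) ^ (2 : ℕ) * Real.exp (-(2 * y)) := by
      rw [mul_pow, ← Real.exp_nat_mul]
      congr 2
      push_cast
      ring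
    have e2 : Real.exp (-(2 * y)) = Real.exp (-(61 / 100)) ^ (2 : ℕ) * Real.exp (122 / 100 - 2 * y) := by
      rw [← Real.exp_nat_mul, ← Real.exp_add]
      congr 1
      push_cast
      ring
    have h3 := Real.add_one_le_exp (122 / 100 - 2 * y)
    have h4 : (5433 / 10000 : ℝ) ^ (2 : ℕ) ≤ Real.exp (-(61 / 100)) ^ (2 : ℕ) := pow_le_pow_left₀ (by norm_num) he 2
    have h5 : (5433 / 10000 : ℝ) ^ (2 : ℕ) * (122 / 100 - 2 * y + 1) ≤ Real.exp (-(2 * y)) := by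
      rw [e2]
      exact mul_le_mul h4 h3 (by linarith only [h2]) (by positivity)
    have h6 : (16 / 5 : ℝ) ^ (2 : ℕ) ≤ (r * δ) ^ (2 : ℕ) := pow_le_pow_left₀ (by norm_num) hρ 2
    have h7 : (16 / 5 : ℝ) ^ (2 : ℕ) * ((5433 / 10000 : ℝ) ^ (2 : ℕ) * (122 / 100 - 2 * y + 1)) ≤
        (r * δ) ^ (2 : ℕ) * Real.exp (-(2 * y)) := mul_le_mul h6 h5 (by linarith only [h2]) (by positivity)
    rw [e1]
    linarith only [h2, h7]

theorem p2_sadA : ∀ (r δ y η : ℝ), Reg2 r δ → At r δ y η → |η| ≤ eo2 r δ → Gm 2 r δ < 10 →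
    -(31 / 100) ≤ y ∧ y ≤ 21 / 50 ∧ |y| ≤ 3 / 20 * sx (r * δ) y := by
  intro r δ y η h hA hη hG
  obtain ⟨h1, h2⟩ := abs_le.mp hη
  have hρ : 694 / 100 ≤ r * δ := (reg2_facts h).2.1 hG
  have hρ0 : 0 < r * δ := by linarith only [hρ]
  have he : eo2 r δ = 67 / 100 * Real.pi := by
    unfold eo2 om2
    rw [hst_two, if_pos hG]
    ring
  have hpi := Real.pi_lt_d4
  have he' : eo2 r δ ≤ 2106 / 1000 := by rw [he]; linarith only [hpi]
  have hlo : -(31 / 100) ≤ y := by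
    refine hA.ge (dom_of h.rho (by norm_num) (by norm_num)) (le_trans ?_ h1)
    have he2 : Real.exp (31 / 100) ^ (2 : ℕ) = Real.exp (62 / 100) := by
      rw [← Real.exp_nat_mul]; norm_num
    have h3 : 1858 / 1000 * (r * δ) ^ (2 : ℕ) ≤ (r * δ * Real.exp (31 / 100)) ^ (2 : ℕ) := by
      rw [mul_pow (r * δ) (Real.exp (31 / 100)), he2]
      have := mul_le_mul_of_nonneg_right p2_exp_62 (sq_nonneg (r * δ))
      linarith only [this]
    have h4 : sE (r * δ) (-(31 / 100)) ≤ r * δ - (r * δ + 2106 / 1000) := by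
      refine sE_neg_le (dom_of h.rho (by norm_num) (by norm_num)) (by norm_num)
        (le_trans ?_ h3)
      nlinarith only [hρ]
    linarith only [he', h4]
  have hhi : y ≤ 21 / 50 := by
    have hD : Dom (r * δ) (42 / 100) := dom_of h.rho (by norm_num) (by norm_num)
    have h3 := sE_ge hD (by norm_num)
    have h4 := p2_exp_neg_42
    have h5 : (0 : ℝ) ≤ 42 / 100 * Real.exp (42 / 100) / (r * δ) * (1 + 42 / 100 / 2) := by positivity
    have h6 : y ≤ 42 / 100 := by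
      refine hA.le hD (by norm_num) ?_
      nlinarith only [h2, hρ, he', h3, h4, h5]
    linarith only [h6]
  refine ⟨hlo, hhi, ?_⟩
  have hD := dom_of (y := y) h.rho (by linarith only [hlo]) (by linarith only [hhi])
  refine p2_T (c := 675 / 100) hD (by norm_num) (by norm_num) (by norm_num) ?_
  have h7 := p2_exp_neg_42'
  have hey : Real.exp (-(42 / 100)) ≤ Real.exp (-y) := Real.exp_le_exp.mpr (by linarith only [hhi])
  rcases le_total 0 y with hy | hy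
  · rw [abs_of_nonneg hy]
    nlinarith only [hρ, hhi, h7, hey]
  · rw [abs_of_nonpos hy]
    have h8 : 1 ≤ Real.exp (-y) := Real.one_le_exp (by linarith only [hy])
    nlinarith only [hρ, hlo, h8]

/-! ### the pair -/

/-- `ψ ≤ tan ψ` form: `sin ψ = s`, `0 ≤ s ≤ 7/20`: `ψ ≤ s/(.9364)` -/
theorem p2_psi0 {ρ y : ℝ} (hρ : 16 / 5 ≤ ρ) (h0 : 0 ≤ y) (h1 : y ≤ 61 / 100) :
    sP ρ y - y / ρ ≤ 188 / 1000 := by
  have hD := dom_of hρ (by linarith only [h0]) h1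
  have hρ0 : 0 < ρ := by linarith only [hρ]
  have hey : Real.exp y ≤ 18405 / 10000 := (Real.exp_le_exp.mpr h1).trans p2_exp_61
  set s := y * Real.exp y / ρ with hs
  have hs0 : 0 ≤ s := by positivity
  have hyρ : y / ρ ≤ 61 / 100 / (16 / 5) := by
    rw [div_le_div_iff₀ hρ0 (by norm_num)]
    linarith only [hρ, h1]
  have hyρ0 : 0 ≤ y / ρ := by positivity
  have hs1 : s ≤ 351 / 1000 := by
    have e : s = y / ρ * Real.exp y := by rw [hs]; ring
    rw [e]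
    calc y / ρ * Real.exp y ≤ 61 / 100 / (16 / 5) * (18405 / 10000) :=
          mul_le_mul hyρ hey (Real.exp_pos _).le (by norm_num)
      _ ≤ 351 / 1000 := by norm_num
  have hψ0 := sP_nonneg hρ0 h0
  have hcos : Real.cos (sP ρ y) = √(1 - s ^ (2 : ℕ)) := by
    have : sP ρ y = Real.arcsin s := rfl
    rw [this, Real.cos_arcsin]
  have hc : 936 / 1000 ≤ Real.cos (sP ρ y) := by
    rw [hcos]
    refine Real.le_sqrt_of_sq_le ?_
    nlinarith only [hs0, hs1]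
  have hψlt : sP ρ y < Real.pi / 2 := by
    rcases lt_or_ge (sP ρ y) (Real.pi / 2) with h | h
    · exact h
    · have h3 : sP ρ y = Real.pi / 2 := le_antisymm (abs_le.mp (sP_abs_le ρ y)).2 h
      rw [h3, Real.cos_pi_div_two] at hc
      norm_num at hc
  have htan : sP ρ y ≤ Real.tan (sP ρ y) := Real.le_tan hψ0 hψlt
  have htan2 : Real.tan (sP ρ y) ≤ s / (936 / 1000) := by
    rw [Real.tan_eq_sin_div_cos, hD.sin]
    exact div_le_div_of_nonneg_left hs0 (by norm_num) hc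
  have hfin : s / (936 / 1000) - y / ρ = y / ρ * (Real.exp y / (936 / 1000) - 1) := by
    rw [hs]; ring
  have h4 : Real.exp y / (936 / 1000) - 1 ≤ 18405 / 10000 / (936 / 1000) - 1 := by
    gcongr
  have h5 : y / ρ * (Real.exp y / (936 / 1000) - 1) ≤ 61 / 100 / (16 / 5) * (18405 / 10000 / (936 / 1000) - 1) := by
    have h6 : 0 ≤ Real.exp y / (936 / 1000) - 1 := by
      have h7 : 1 ≤ Real.exp y := Real.one_le_exp h0
      have h8 : Real.exp y ≤ Real.exp y / (936 / 1000) := by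
        rw [le_div_iff₀ (by norm_num)]
        linarith only [h7]
      linarith only [h7]
    exact mul_le_mul hyρ h4 h6 (by norm_num)
  have h6 : (61 / 100 / (16 / 5) * (18405 / 10000 / (936 / 1000) - 1) : ℝ) ≤ 188 / 1000 := by norm_num
  linarith only [htan, htan2, hfin, h5]

theorem p2_psi1 {ρ n : ℝ} (hρ : 16 / 5 ≤ ρ) (h0 : 0 ≤ n) (h1 : n ≤ 1 / 2) :
    -sP ρ (-n) - n / ρ ≤ 0 := by
  have hD := dom_of (y := -n) hρ (by linarith only [h1]) (by linarith only [h0])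
  have hρ0 : 0 < ρ := by linarith only [hρ]
  have hψ0 : 0 ≤ -sP ρ (-n) := by
    have := sP_nonpos hρ0 (y := -n) (by linarith only [h0])
    linarith only [this]
  set ψ := -sP ρ (-n) with hψ
  set s := n * Real.exp (-n) / ρ with hs
  have hs0 : 0 ≤ s := by positivity
  have hsin : Real.sin ψ = s := by
    rw [hψ, Real.sin_neg, hD.sin, hs]
    ring
  have hen : Real.exp (-n) * (1 + n) ≤ 1 := by
    have h2 := Real.add_one_le_exp n
    have h3 : Real.exp (-n) * Real.exp n = 1 := by rw [← Real.exp_add]; simp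
    nlinarith only [h2, h3, Real.exp_pos (-n)]
  have hen0 : Real.exp (-n) ≤ 1 := Real.exp_le_one_iff.mpr (by linarith only [h0])
  have hsn : s ≤ n / ρ := by
    rw [hs]
    gcongr
    nlinarith only [h0, hen0]
  have hnρ : n / ρ ≤ n * (5 / 16) := by
    rw [div_le_iff₀ hρ0]
    nlinarith only [hρ, h0]
  have hs1 : s ≤ 5 / 16 * n := by linarith only [hsn, hnρ]
  have hcos0 : 0 ≤ Real.cos ψ := by
    have h5 := sP_abs_le ρ (-n)
    rw [abs_le] at h5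
    exact Real.cos_nonneg_of_mem_Icc ⟨by linarith only [h5], by linarith only [h5]⟩
  have hcos2 : Real.cos ψ ^ (2 : ℕ) = 1 - s ^ (2 : ℕ) := by
    have := Real.sin_sq_add_cos_sq ψ
    rw [hsin] at this
    linarith only [this]
  -- `cos ψ ≥ 1/(1+n)`
  have hc : 1 / (1 + n) ≤ Real.cos ψ := by
    refine abs_le_of_sq_le_sq' ?_ hcos0 |>.2
    rw [hcos2, div_pow, one_pow, div_le_iff₀ (by positivity)]
    have h6 : s ^ (2 : ℕ) ≤ (5 / 16 * n) ^ (2 : ℕ) := pow_le_pow_left₀ hs0 hs1 2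
    have h7 : (1 - (5 / 16 * n) ^ (2 : ℕ)) * (1 + n) ^ (2 : ℕ) ≤ (1 - s ^ (2 : ℕ)) * (1 + n) ^ (2 : ℕ) :=
      mul_le_mul_of_nonneg_right (by linarith only [h6]) (by positivity)
    refine le_trans ?_ h7
    nlinarith only [h0, h1, mul_nonneg (mul_nonneg h0 h0) h0]
  have hψlt : ψ < Real.pi / 2 := by
    rcases lt_or_ge ψ (Real.pi / 2) with h | h
    · exact h
    · have h3 : ψ = Real.pi / 2 := by
        refine le_antisymm ?_ h
        have := (abs_le.mp (sP_abs_le ρ (-n))).1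
        linarith only [this]
      rw [h3, Real.cos_pi_div_two] at hc
      have : (0 : ℝ) < 1 / (1 + n) := by positivity
      linarith only [hc, this]
  have htan : ψ ≤ Real.tan ψ := Real.le_tan hψ0 hψlt
  have hpos : (0 : ℝ) < 1 / (1 + n) := by positivity
  have htan2 : Real.tan ψ ≤ s / (1 / (1 + n)) := by
    rw [Real.tan_eq_sin_div_cos, hsin]
    exact div_le_div_of_nonneg_left hs0 hpos hc
  have h8 : s / (1 / (1 + n)) = n / ρ * (Real.exp (-n) * (1 + n)) := by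
    rw [hs]
    field_simp
  have h9 : n / ρ * (Real.exp (-n) * (1 + n)) ≤ n / ρ * 1 :=
    mul_le_mul_of_nonneg_left hen (by positivity)
  linarith only [htan, htan2, h8, h9]

theorem p2_pair : ∀ (r δ y0 y1 η : ℝ), Reg2 r δ → At r δ y0 η → At r δ y1 (η - hst 2) →
    ei2 r δ ≤ η → η ≤ eo2 r δ → 47 / 50 * HH 2 r δ ≤ ‖kap r δ y0 - kap r δ y1‖ := by
  intro r δ y0 y1 η h hA0 hA1 hi ho
  have hpi0 := Real.pi_pos
  have hpi := Real.pi_gt_d4
  have hρ := h.rho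
  have hρ0 : 0 < r * δ := by linarith only [hρ]
  have hδ := h.d0
  have hr0 : 0 < r := by linarith only [h.r0]
  have hei : ei2 r δ = Real.pi - eo2 r δ := by
    unfold ei2 eo2
    rw [hst_two]
    ring
  have heo : eo2 r δ ≤ 67 / 100 * Real.pi := by
    rcases eo2_cases h with ⟨_, _, he⟩ | ⟨_, _, he⟩ | ⟨_, _, he⟩ <;> rw [he] <;> nlinarith
  rw [hst_two] at hA1
  rw [hei] at hi
  have hη0 : 0 ≤ η := by linarith only [hi, hpi0, heo]
  obtain ⟨a1, a2⟩ := p2_lohi h hA0 (abs_le.mpr ⟨by linarith only [hi, hpi0], ho⟩)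
  obtain ⟨b1, b2⟩ := p2_lohi h hA1 (abs_le.mpr ⟨by linarith only [hi], by linarith only [ho, hpi0]⟩)
  have hz : sE (r * δ) 0 = 0 := sE_zero hρ0
  have hy0 : 0 ≤ y0 := hA0.ge (dom_zero hρ0) (by rw [hz]; exact hη0)
  have hy1 : y1 ≤ 0 := hA1.le (dom_zero hρ0) (by norm_num) (by rw [hz]; linarith only [ho, hpi0, heo])
  have h0 := p2_psi0 hρ hy0 a2
  have h1 := p2_psi1 (n := -y1) hρ (by linarith only [hy1]) (by linarith only [b1])
  rw [neg_neg] at h1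
  -- the difference of the abscissas
  have hx : sx (r * δ) y1 - sx (r * δ) y0 = Real.pi - sP (r * δ) y0 + sP (r * δ) y1 := by
    have e0 := hA0.eta
    have e1 := hA1.eta
    unfold sE at e0 e1
    linarith only [e0, e1]
  set R := 1 + (r * δ) ^ (2 : ℕ) with hR
  have hR0 : 0 < R := by positivity
  have hsR : 0 < √R := Real.sqrt_pos.mpr hR0
  have hsR2 : √R ^ (2 : ℕ) = R := Real.sq_sqrt hR0.le
  -- Cauchy-Schwarz
  have hCS : r * δ * (sx (r * δ) y1 - sx (r * δ) y0) + (y0 - y1) ≤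
      √R * ‖sK (r * δ) y0 - sK (r * δ) y1‖ := by
    have hn : ‖sK (r * δ) y0 - sK (r * δ) y1‖ ^ (2 : ℕ) =
        (sx (r * δ) y1 - sx (r * δ) y0) ^ (2 : ℕ) + (y0 - y1) ^ (2 : ℕ) := by
      rw [Complex.sq_norm, Complex.normSq_apply]
      unfold sK
      simp
      ring
    refine abs_le_of_sq_le_sq' ?_ (by positivity) |>.2
    rw [mul_pow, hsR2, hn, hR]
    linarith only [sq_nonneg (r * δ * (y0 - y1) - (sx (r * δ) y1 - sx (r * δ) y0))]
  have hlow : r * δ * (47 / 50 * Real.pi) ≤ r * δ * (sx (r * δ) y1 - sx (r * δ) y0) + (y0 - y1) := by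
    have e1 : r * δ * (sx (r * δ) y1 - sx (r * δ) y0) + (y0 - y1) =
        r * δ * (Real.pi - (sP (r * δ) y0 - y0 / (r * δ)) - (-sP (r * δ) y1 - -y1 / (r * δ))) := by
      rw [hx]
      field_simp
      ring
    rw [e1]
    refine mul_le_mul_of_nonneg_left ?_ hρ0.le
    linarith only [hpi, h0, h1]
  have hnorm : ‖kap r δ y0 - kap r δ y1‖ = ‖sK (r * δ) y0 - sK (r * δ) y1‖ / δ := by
    unfold kap
    rw [← sub_div, norm_div, Complex.norm_real, Real.norm_of_nonneg hδ.le]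
  rw [hnorm, le_div_iff₀ hδ]
  unfold HH RR
  rw [hst_two]
  have h7 : 47 / 50 * (r * Real.pi / √(1 + (r * δ) ^ (2 : ℕ))) * δ = r * δ * (47 / 50 * Real.pi) / √R := by
    rw [← hR]
    ring
  rw [h7, div_le_iff₀ hsR]
  linarith only [hCS, hlow]

end SokamV3

end

/-! ### Lib_MP_af4de1_v3.Two -/

section
namespace SokamF1
end SokamF1
namespace SokamF1M
end SokamF1M
namespace SokamF1S
end SokamF1S
namespace SokamU
end SokamU
/-!
# `N = 2`, `ρ ≥ 16/5`: (U) from the pieces `P2`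
-/

set_option autoImplicit false

namespace SokamV3

open Complex SokamU SokamF1 SokamF1S SokamF1M

theorem t2_hst_two : hst 2 = Real.pi := by
  unfold hst
  push_cast
  ring

/-! ### saddle points -/

theorem At.nonneg {r δ y η : ℝ} (h : At r δ y η) (h0 : 0 ≤ η) : 0 ≤ y := by
  by_contra hy
  push Not at hy
  have hρ := h.dom.1
  have h1 := sE_strictMonoOn h.dom (dom_zero hρ) h.y1.le ⟨le_rfl, hy.le⟩ ⟨hy.le, le_rfl⟩ hy
  rw [h.eta, sE_zero hρ] at h1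
  linarith only [h0, h1]

theorem At.nonpos {r δ y η : ℝ} (h : At r δ y η) (h0 : η ≤ 0) : y ≤ 0 := by
  by_contra hy
  push Not at hy
  have hρ := h.dom.1
  have h1 := sE_strictMonoOn (dom_zero hρ) h.dom (by norm_num) ⟨le_rfl, hy.le⟩ ⟨hy.le, le_rfl⟩ hy
  rw [h.eta, sE_zero hρ] at h1
  linarith only [h0, h1]

theorem t2_kap_re (r δ y : ℝ) : (kap r δ y).re = sx (r * δ) y / δ := by
  unfold kap sK
  rw [Complex.div_ofReal_re]
  simp

theorem t2_kap_im (r δ y : ℝ) : (kap r δ y).im = y / δ := by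
  unfold kap sK
  rw [Complex.div_ofReal_im]
  simp

theorem t2_norm_kap {r δ y : ℝ} (hδ : 0 < δ) (h : Dom (r * δ) y) : ‖kap r δ y‖ = r * Real.exp (-y) := by
  unfold kap
  rw [norm_div, norm_sK h, Complex.norm_real, Real.norm_of_nonneg hδ.le]
  field_simp

/-- `‖κ + m‖ ≥ ‖κ‖` -/
theorem norm_le_add_real {κ : ℂ} {m : ℝ} (hs : 0 ≤ κ.re) (hm : 0 ≤ m) : ‖κ‖ ≤ ‖κ + m‖ := by
  rw [← Real.sqrt_sq (norm_nonneg κ), ← Real.sqrt_sq (norm_nonneg (κ + m))]
  apply Real.sqrt_le_sqrt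
  rw [Complex.sq_norm, Complex.sq_norm, Complex.normSq_apply, Complex.normSq_apply]
  simp only [Complex.add_re, Complex.ofReal_re, Complex.add_im, Complex.ofReal_im, add_zero]
  nlinarith [mul_nonneg hs hm]

/-- `‖κ + m‖ ≥ g (‖κ‖ + m)` -/
theorem t2_norm_add_ge {κ : ℂ} {m T c g : ℝ} (hm : 0 ≤ m) (hre : 0 ≤ κ.re) (hT : |κ.im| ≤ T * κ.re)
    (hc : 0 ≤ c) (hc1 : c ≤ 1) (hcT : c ^ (2 : ℕ) * (1 + T ^ (2 : ℕ)) ≤ 1) (hg : 0 ≤ g) (hg2 : 2 * g ^ (2 : ℕ) ≤ 1 + c) :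
    g * (‖κ‖ + m) ≤ ‖κ + m‖ := by
  have hn : ‖κ‖ ^ (2 : ℕ) = κ.re ^ (2 : ℕ) + κ.im ^ (2 : ℕ) := by
    rw [Complex.sq_norm, Complex.normSq_apply]; ring
  have h1 : c * ‖κ‖ ≤ κ.re := by
    refine abs_le_of_sq_le_sq' ?_ hre |>.2
    rw [mul_pow, hn]
    have h2 : κ.im ^ (2 : ℕ) ≤ (T * κ.re) ^ (2 : ℕ) := by
      rw [← sq_abs κ.im]
      exact pow_le_pow_left₀ (abs_nonneg _) hT 2
    have h3 : c ^ (2 : ℕ) * (κ.re ^ (2 : ℕ) + κ.im ^ (2 : ℕ)) ≤ c ^ (2 : ℕ) * (1 + T ^ (2 : ℕ)) * κ.re ^ (2 : ℕ) := by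
      linarith only [mul_le_mul_of_nonneg_left h2 (sq_nonneg c)]
    have h4 : c ^ (2 : ℕ) * (1 + T ^ (2 : ℕ)) * κ.re ^ (2 : ℕ) ≤ 1 * κ.re ^ (2 : ℕ) :=
      mul_le_mul_of_nonneg_right hcT (sq_nonneg _)
    linarith only [h3, h4]
  have hk := norm_nonneg κ
  refine abs_le_of_sq_le_sq' ?_ (norm_nonneg _) |>.2
  have h5 : ‖κ + m‖ ^ (2 : ℕ) = ‖κ‖ ^ (2 : ℕ) + 2 * m * κ.re + m ^ (2 : ℕ) := by
    rw [hn, Complex.sq_norm, Complex.normSq_apply]
    simp only [Complex.add_re, Complex.ofReal_re, Complex.add_im, Complex.ofReal_im, add_zero]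
    ring
  rw [h5, mul_pow]
  have h6 : m * (c * ‖κ‖) ≤ m * κ.re := mul_le_mul_of_nonneg_left h1 hm
  have h7 : g ^ (2 : ℕ) * (‖κ‖ + m) ^ (2 : ℕ) ≤ (1 + c) / 2 * (‖κ‖ + m) ^ (2 : ℕ) :=
    mul_le_mul_of_nonneg_right (by linarith only [hg2]) (sq_nonneg _)
  linarith only [h6, h7, mul_nonneg (by linarith : 0 ≤ 1 - c) (sq_nonneg (‖κ‖ - m))]

/-- the own wave, lower bound for `DE + m E` -/
theorem Own.low {r δ y e k v m g : ℝ} (h : Own r δ y e k v) (he : e < 1)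
    (hg : g * (‖kap r δ y‖ + m) ≤ ‖kap r δ y + m‖)
    (hpos : 0 ≤ g * (‖kap r δ y‖ + m) - k) :
    (1 - e) * (g * (‖kap r δ y‖ + m) - k) * sM r δ y ≤ ‖V1 r δ y 0 + m * V0 r δ y 0‖ := by
  have e1 : V1 r δ y 0 + m * V0 r δ y 0 =
      (kap r δ y + m) * V0 r δ y 0 + (V1 r δ y 0 - kap r δ y * V0 r δ y 0) := by ring
  have h1 := norm_sub_le_norm_add ((kap r δ y + m) * V0 r δ y 0)
    (V1 r δ y 0 - kap r δ y * V0 r δ y 0)
  rw [← e1, norm_mul] at h1
  have h2 := h.o1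
  have h3 : (‖kap r δ y + m‖ - k) * ‖V0 r δ y 0‖ ≤ ‖V1 r δ y 0 + m * V0 r δ y 0‖ := by
    rw [sub_mul]
    linarith only [h1, h2]
  refine le_trans ?_ h3
  have h4 : g * (‖kap r δ y‖ + m) - k ≤ ‖kap r δ y + m‖ - k := by linarith only [hg]
  calc (1 - e) * (g * (‖kap r δ y‖ + m) - k) * sM r δ y =
        (g * (‖kap r δ y‖ + m) - k) * ((1 - e) * sM r δ y) := by ring
    _ ≤ (g * (‖kap r δ y‖ + m) - k) * ‖V0 r δ y 0‖ := mul_le_mul_of_nonneg_left h.o0 hpos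
    _ ≤ (‖kap r δ y + m‖ - k) * ‖V0 r δ y 0‖ := mul_le_mul_of_nonneg_right h4 (norm_nonneg _)

/-- the localisation inequality -/
theorem loc_ineq {r δ ya yb ζ C e k v γ g m : ℝ} (hm : 0 ≤ m) (hM : 0 < sM r δ ya)
    (hκ : 0 < ‖kap r δ ya‖) (hown : Own r δ ya e k v) (he : e < 1) (hC : 0 ≤ C)
    (hout : Out r δ yb ζ C) (hgap : Gap r δ ya yb γ)
    (hg : g * (‖kap r δ ya‖ + m) ≤ ‖kap r δ ya + m‖)
    {q : ℝ} (hq : k ≤ q * ‖kap r δ ya‖) (hq0 : 0 ≤ q) (hqg : q ≤ g)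
    (hnum : C * Real.exp (-γ) < (1 - e) * (g - q)) :
    ‖V1 r δ yb ζ + m * V0 r δ yb ζ‖ < ‖V1 r δ ya 0 + m * V0 r δ ya 0‖ := by
  have h1 := hout m hm
  have hk2 : k ≤ q * (‖kap r δ ya‖ + m) := by linarith only [hq, mul_nonneg hq0 hm]
  have hpos : 0 ≤ g * (‖kap r δ ya‖ + m) - k := by
    have : q * (‖kap r δ ya‖ + m) ≤ g * (‖kap r δ ya‖ + m) :=
      mul_le_mul_of_nonneg_right hqg (by (clear * - hκ hm; positivity))
    linarith only [hk2, this]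
  have h2 := hown.low he hg hpos
  refine lt_of_le_of_lt h1 (lt_of_lt_of_le ?_ h2)
  -- outer level
  have hee : Real.exp γ * Real.exp (-γ) = 1 := by rw [← Real.exp_add]; simp
  have g0 : sM r δ yb ≤ Real.exp (-γ) * sM r δ ya := by
    have := mul_le_mul_of_nonneg_left hgap.g0 (Real.exp_pos (-γ)).le
    rw [← mul_assoc, mul_comm (Real.exp (-γ)), hee, one_mul] at this
    exact this
  have g1 : ‖kap r δ yb‖ * sM r δ yb ≤ Real.exp (-γ) * (‖kap r δ ya‖ * sM r δ ya) := by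
    have := mul_le_mul_of_nonneg_left hgap.g1 (Real.exp_pos (-γ)).le
    rw [← mul_assoc, mul_comm (Real.exp (-γ)), hee, one_mul] at this
    exact this
  have h3 : (‖kap r δ yb‖ + m) * sM r δ yb ≤ Real.exp (-γ) * ((‖kap r δ ya‖ + m) * sM r δ ya) := by
    have := mul_le_mul_of_nonneg_left g0 hm
    linarith only [g1, this]
  have hW : 0 < (‖kap r δ ya‖ + m) * sM r δ ya := by (clear * - hκ hm hM; positivity)
  have h4 : C * (‖kap r δ yb‖ + m) * sM r δ yb ≤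
      C * Real.exp (-γ) * ((‖kap r δ ya‖ + m) * sM r δ ya) := by
    have := mul_le_mul_of_nonneg_left h3 hC
    linarith only [this]
  have h5 : C * Real.exp (-γ) * ((‖kap r δ ya‖ + m) * sM r δ ya) <
      (1 - e) * (g - q) * ((‖kap r δ ya‖ + m) * sM r δ ya) := mul_lt_mul_of_pos_right hnum hW
  refine lt_of_le_of_lt h4 (lt_of_lt_of_le h5 ?_)
  have h6 : (g - q) * (‖kap r δ ya‖ + m) ≤ g * (‖kap r δ ya‖ + m) - k := by linarith only [hk2]
  have h7 : 0 ≤ (1 - e) * sM r δ ya := mul_nonneg (by linarith only [he]) hM.le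
  linarith only [mul_le_mul_of_nonneg_left h6 h7]

/-- (U) in the window, with numerical constants. -/
theorem win {r δ y0 y1 H e k0 v0 k1 v1 e' hr β T z0 z1 t0 t1 s χ tχ a0 a1 : ℝ} {m : ℝ} {c0 c1 : ℂ}
    (hm : 0 < m) (hδ : 0 < δ) (hH : 0 < H) (hHr : H ≤ hr * r) (hr0 : 0 < r) (hhr : 0 ≤ hr)
    (hc0 : c0 ≠ 0) (hc1 : c1 ≠ 0)
    (hd0 : Dom (r * δ) y0) (hd1 : Dom (r * δ) y1) (hy0 : 0 ≤ y0) (hy1 : y1 ≤ 0) (hy1' : -1 < y1)
    (hx0 : 0 < sx (r * δ) y0) (hx1 : 0 < sx (r * δ) y1)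
    (hT0 : |y0| ≤ T * sx (r * δ) y0) (hT1 : |y1| ≤ T * sx (r * δ) y1) (hT : 0 ≤ T)
    (hβ : β * r ≤ ‖kap r δ y0‖) (hβ0 : 0 < β)
    (ho0 : Own r δ y0 e (k0 * H) (v0 * H ^ (2 : ℕ))) (ho1 : Own r δ y1 e' (k1 * H) (v1 * H ^ (2 : ℕ)))
    (he : e < 1) (he' : e' < 1) (hk0 : 0 ≤ k0) (hk1 : 0 ≤ k1) (hv0 : 0 ≤ v0) (hv1 : 0 ≤ v1)
    (hpair : 47 / 50 * H ≤ ‖kap r δ y0 - kap r δ y1‖)
    (htie : (c0 * V1 r δ y0 0 + c1 * V1 r δ y1 0) + m * (c0 * V0 r δ y0 0 + c1 * V0 r δ y1 0) = 0)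
    (nz0 : k0 * hr ≤ z0 * β) (nz1 : k1 * hr ≤ z1) (z01 : z0 < 1) (z11 : z1 < 1)
    (nd : k0 + k1 < 47 / 50)
    (na0 : (v0 + k0 ^ (2 : ℕ)) * hr ≤ a0 * ((1 - z0) * β)) (na1 : (v1 + k1 ^ (2 : ℕ)) * hr ≤ a1 * (1 - z1))
    (nχ : a0 + a1 ≤ χ * (47 / 50 - k0 - k1)) (nχ1 : χ < 1)
    (ht0 : 0 ≤ t0) (ht1 : 0 ≤ t1) (htχ : 0 ≤ tχ)
    (q0 : z0 ^ (2 : ℕ) ≤ t0 ^ (2 : ℕ) * (1 - z0 ^ (2 : ℕ))) (q1 : z1 ^ (2 : ℕ) ≤ t1 ^ (2 : ℕ) * (1 - z1 ^ (2 : ℕ)))
    (qχ : χ ^ (2 : ℕ) ≤ tχ ^ (2 : ℕ) * (1 - χ ^ (2 : ℕ)))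
    (h01 : t0 * t1 < 1) (hs : (t0 + t1) / (1 - t0 * t1) ≤ s) (hsT : s * T < 1)
    (hfin : (s + T) / (1 - s * T) * tχ < 1) :
    0 < ((c0 * V2 r δ y0 0 + c1 * V2 r δ y1 0) / (c0 * V1 r δ y0 0 + c1 * V1 r δ y1 0) -
      (c0 * V1 r δ y0 0 + c1 * V1 r δ y1 0) / (c0 * V0 r δ y0 0 + c1 * V0 r δ y1 0)).re := by
  have hM0 : 0 < sM r δ y0 := sM_pos (by linarith only [hy0])
  have hM1 : 0 < sM r δ y1 := sM_pos hy1'
  have hV0 : 0 < ‖V0 r δ y0 0‖ := lt_of_lt_of_le (mul_pos (by linarith only [he]) hM0) ho0.o0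
  have hV1 : 0 < ‖V0 r δ y1 0‖ := lt_of_lt_of_le (mul_pos (by linarith only [he']) hM1) ho1.o0
  have hp0 : V0 r δ y0 0 ≠ 0 := norm_pos_iff.1 hV0
  have hp1 : V0 r δ y1 0 ≠ 0 := norm_pos_iff.1 hV1
  have n0 : ‖kap r δ y0‖ = r * Real.exp (-y0) := t2_norm_kap hδ hd0
  have n1 : ‖kap r δ y1‖ = r * Real.exp (-y1) := t2_norm_kap hδ hd1
  have n1' : r ≤ ‖kap r δ y1‖ := by
    rw [n1]
    have : 1 ≤ Real.exp (-y1) := Real.one_le_exp (by linarith only [hy1])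
    nlinarith only [hr0, this]
  have re0 : 0 < (kap r δ y0).re := by rw [t2_kap_re]; positivity
  have re1 : 0 < (kap r δ y1).re := by rw [t2_kap_re]; (clear * - hx1 hδ; positivity)
  -- the two pieces
  have key : ∀ (y k v : ℝ) (c : ℂ), c ≠ 0 → V0 r δ y 0 ≠ 0 →
      ‖V1 r δ y 0 - kap r δ y * V0 r δ y 0‖ ≤ k * ‖V0 r δ y 0‖ →
      ‖V2 r δ y 0 - 2 * kap r δ y * V1 r δ y 0 + kap r δ y ^ (2 : ℕ) * V0 r δ y 0‖ ≤ v * ‖V0 r δ y 0‖ →
      ‖c * V1 r δ y 0 / (c * V0 r δ y 0) - kap r δ y‖ ≤ k ∧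
      ‖c * V2 r δ y 0 / (c * V0 r δ y 0) - (c * V1 r δ y 0 / (c * V0 r δ y 0)) ^ (2 : ℕ)‖ ≤ v + k ^ (2 : ℕ) := by
    intro y k v c hc hp h1 h2
    have h3 := piece_base (P := 0) (Q := 0) (S := 0) (g0 := 0) (g1 := 0) (g2 := 0) hp (by norm_num)
      h1 h2 (by simp) (by simp) (by simp)
    rw [mul_div_mul_left _ _ hc, mul_div_mul_left _ _ hc]
    obtain ⟨-, h4, h5⟩ := h3
    simp only [add_zero, sub_zero, div_one] at h4 h5
    exact ⟨h4, h5⟩
  obtain ⟨a1', a2'⟩ := key y0 _ _ c0 hc0 hp0 ho0.o1 ho0.o2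
  obtain ⟨b1', b2'⟩ := key y1 _ _ c1 hc1 hp1 ho1.o1 ho1.o2
  have hbr : 0 < β * r := by (clear * - hβ0 hr0; positivity)
  have hz00 : 0 ≤ z0 := by
    have : 0 ≤ z0 * β := le_trans (by (clear * - hk0 hhr; positivity)) nz0
    exact nonneg_of_mul_nonneg_left this hβ0
  have hz10 : 0 ≤ z1 := le_trans (by (clear * - hk1 hhr; positivity)) nz1
  have ha0 : 0 ≤ a0 := by
    have h1 : 0 ≤ a0 * ((1 - z0) * β) := le_trans (by (clear * - hv0 hhr; positivity)) na0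
    exact nonneg_of_mul_nonneg_left h1 (mul_pos (by linarith only [z01]) hβ0)
  have ha1 : 0 ≤ a1 := by
    have h1 : 0 ≤ a1 * (1 - z1) := le_trans (by (clear * - hv1 hhr; positivity)) na1
    exact nonneg_of_mul_nonneg_left h1 (by linarith only [z11])
  refine U_core (κ0 := kap r δ y0) (κ1 := kap r δ y1) (e0 := k0 * H) (e1 := k1 * H)
    (l0 := v0 * H ^ (2 : ℕ) + (k0 * H) ^ (2 : ℕ)) (l1 := v1 * H ^ (2 : ℕ) + (k1 * H) ^ (2 : ℕ)) (b0 := β * r) (b1 := r)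
    (d := (47 / 50 - k0 - k1) * H) (Δ := 47 / 50 * H) (T := T) (z0 := z0) (z1 := z1)
    (c0 := a0 * H) (c1 := a1 * H) (χ := χ) (tχ := tχ) (t0 := t0) (t1 := t1) (s := s)
    hm (mul_ne_zero hc0 hp0) (mul_ne_zero hc1 hp1) htie a1' b1' a2' b2'
    (hβ.trans (norm_le_add_real re0.le hm.le)) (n1'.trans (norm_le_add_real re1.le hm.le))
    hbr hr0 hpair (mul_pos (by linarith only [nd]) hH) (by linarith only []) ?_ ?_ z01 z11 ?_ ?_ ?_ nχ1 hT ?_
    ht0 ht1 htχ q0 q1 qχ h01 hs hsT hfin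
  · calc k0 * H ≤ k0 * (hr * r) := mul_le_mul_of_nonneg_left hHr hk0
      _ = k0 * hr * r := by ring
      _ ≤ z0 * β * r := mul_le_mul_of_nonneg_right nz0 hr0.le
      _ = z0 * (β * r) := by ring
  · calc k1 * H ≤ k1 * (hr * r) := mul_le_mul_of_nonneg_left hHr hk1
      _ = k1 * hr * r := by ring
      _ ≤ z1 * r := mul_le_mul_of_nonneg_right nz1 hr0.le
  · calc v0 * H ^ (2 : ℕ) + (k0 * H) ^ (2 : ℕ) = (v0 + k0 ^ (2 : ℕ)) * H * H := by ring
      _ ≤ (v0 + k0 ^ (2 : ℕ)) * H * (hr * r) := mul_le_mul_of_nonneg_left hHr (by (clear * - hv0 hH; positivity))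
      _ = (v0 + k0 ^ (2 : ℕ)) * hr * (r * H) := by ring
      _ ≤ a0 * ((1 - z0) * β) * (r * H) := mul_le_mul_of_nonneg_right na0 (by positivity)
      _ = a0 * H * ((1 - z0) * (β * r)) := by ring
  · calc v1 * H ^ (2 : ℕ) + (k1 * H) ^ (2 : ℕ) = (v1 + k1 ^ (2 : ℕ)) * H * H := by ring
      _ ≤ (v1 + k1 ^ (2 : ℕ)) * H * (hr * r) := mul_le_mul_of_nonneg_left hHr (by (clear * - hv1 hH; positivity))
      _ = (v1 + k1 ^ (2 : ℕ)) * hr * (r * H) := by ring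
      _ ≤ a1 * (1 - z1) * (r * H) := mul_le_mul_of_nonneg_right na1 (by positivity)
      _ = a1 * H * ((1 - z1) * r) := by ring
  · calc a0 * H + a1 * H = (a0 + a1) * H := by ring
      _ ≤ χ * (47 / 50 - k0 - k1) * H := mul_le_mul_of_nonneg_right nχ hH.le
      _ = _ := by ring
  · have i0 : (kap r δ y0).im = y0 / δ := t2_kap_im _ _ _
    have i1 : (kap r δ y1).im = y1 / δ := t2_kap_im _ _ _
    rw [abs_of_nonneg hy0] at hT0
    rw [abs_of_nonpos hy1] at hT1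
    have hTm : 0 ≤ T * m := mul_nonneg hT hm.le
    refine cone_opp hT ?_ ?_ ?_ ?_ ?_ ?_
    · simp only [Complex.add_re, Complex.ofReal_re]; linarith only [hm, re0]
    · simp only [Complex.add_re, Complex.ofReal_re]; linarith only [hm, re1]
    · simp only [Complex.add_im, Complex.ofReal_im, add_zero]; rw [i0]; (clear * - hy0 hδ; positivity)
    · simp only [Complex.add_im, Complex.ofReal_im, add_zero, Complex.add_re, Complex.ofReal_re]
      rw [i0, t2_kap_re]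
      have h5 : y0 / δ ≤ T * sx (r * δ) y0 / δ := by gcongr
      have h6 : T * sx (r * δ) y0 / δ = T * (sx (r * δ) y0 / δ) := by ring
      rw [mul_add]
      linarith only [hTm, h5, h6]
    · simp only [Complex.add_im, Complex.ofReal_im, add_zero]; rw [i1]
      exact div_nonpos_of_nonpos_of_nonneg hy1 hδ.le
    · simp only [Complex.add_im, Complex.ofReal_im, add_zero, Complex.add_re, Complex.ofReal_re]
      rw [i1, t2_kap_re]
      have h5 : -y1 / δ ≤ T * sx (r * δ) y1 / δ := by gcongr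
      have h6 : T * sx (r * δ) y1 / δ = T * (sx (r * δ) y1 / δ) := by ring
      have h7 : y1 / δ = -(-y1 / δ) := by ring
      rw [mul_add, h7]
      linarith only [hTm, h5, h6]

/-! ### parameters -/

theorem Par.HH_pos {N : ℕ} {r δ : ℝ} (h : Par N r δ) : 0 < HH N r δ := by
  have h1 := h.r0
  have h2 : (0 : ℝ) < N := by
    have := h.N2
    exact_mod_cast (by omega : 0 < N)
  have h3 : 0 < RR r δ := by unfold RR; (clear * -; positivity)
  have h4 := Real.pi_pos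
  unfold HH hst
  have : 0 < √(RR r δ) := Real.sqrt_pos.2 h3
  have : 0 < r := by linarith only [h1]
  (clear * - h1 h2 h3; positivity)

theorem t2_HH_sq {N : ℕ} {r δ : ℝ} : HH N r δ ^ (2 : ℕ) = Gm N r δ * r := by
  have h3 : 0 < RR r δ := by unfold RR; positivity
  unfold HH Gm
  rw [div_pow, Real.sq_sqrt h3.le]
  ring

theorem Reg2.HH_le {r δ : ℝ} (h : Reg2 r δ) : HH 2 r δ ≤ 938 / 1000 * r := by
  have h1 := h.r0
  have h2 := h.rho
  have hr : 0 < r := by linarith only [h1]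
  refine abs_le_of_sq_le_sq' ?_ (by positivity) |>.2
  rw [t2_HH_sq]
  unfold Gm RR
  rw [t2_hst_two]
  have h3 : (0 : ℝ) < 1 + (r * δ) ^ (2 : ℕ) := by (clear * - h2; positivity)
  rw [div_mul_eq_mul_div, div_le_iff₀ h3]
  have h4 : Real.pi ^ (2 : ℕ) ≤ 9.8697 := by
    have := Real.pi_lt_d6
    have h5 := Real.pi_pos
    nlinarith only [this, h5]
  have h6 : 1124 / 100 ≤ 1 + (r * δ) ^ (2 : ℕ) := by nlinarith only [h2]
  have h7 : r * Real.pi ^ (2 : ℕ) * r ≤ r * 9.8697 * r := by gcongr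
  have h8 : (938 / 1000 * r) ^ (2 : ℕ) * (1124 / 100) ≤ (938 / 1000 * r) ^ (2 : ℕ) * (1 + (r * δ) ^ (2 : ℕ)) :=
    mul_le_mul_of_nonneg_left h6 (sq_nonneg _)
  have h9 : 0 < r * r := by (clear * - h1; positivity)
  nlinarith only [h6, h7]

theorem Reg2.HH_le' {r δ : ℝ} (h : Reg2 r δ) (hG : Gm 2 r δ < 10) : HH 2 r δ ≤ 448 / 1000 * r := by
  have h1 := h.r0
  have hr : 0 < r := by linarith only [h1]
  refine abs_le_of_sq_le_sq' ?_ (by positivity) |>.2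
  rw [t2_HH_sq]
  have h2 : Gm 2 r δ * r ≤ 10 * r := mul_le_mul_of_nonneg_right hG.le hr.le
  nlinarith only [hG, h1]

theorem Reg2.HH_le_of {r δ G q : ℝ} (h : Reg2 r δ) (hG : Gm 2 r δ < G) (hq : 0 ≤ q)
    (hn : G ≤ q ^ (2 : ℕ) * (499 / 10)) : HH 2 r δ ≤ q * r := by
  have h1 := h.r0
  have hr : 0 < r := by linarith only [h1]
  refine abs_le_of_sq_le_sq' ?_ (by (clear * - hq h1; positivity)) |>.2
  rw [t2_HH_sq]
  have h2 : Gm 2 r δ * r ≤ q ^ (2 : ℕ) * (499 / 10) * r := mul_le_mul_of_nonneg_right (by linarith only [hG, hn]) hr.le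
  have h3 : q ^ (2 : ℕ) * (499 / 10) * r ≤ q ^ (2 : ℕ) * r * r := by
    have := mul_le_mul_of_nonneg_left h1 (mul_nonneg (sq_nonneg q) hr.le)
    linarith only [this]
  linarith only [h2, h3]

theorem Reg2.rho_ge {r δ : ℝ} (h : Reg2 r δ) (hG : Gm 2 r δ < 17 / 2) : 754 / 100 ≤ r * δ := by
  have h1 := h.r0
  have h2 := h.rho
  unfold Gm RR at hG
  rw [t2_hst_two, div_lt_iff₀ (by (clear * - h2; positivity))] at hG
  have hpi := Real.pi_gt_d6
  have h4 : 9.8695 ≤ Real.pi ^ (2 : ℕ) := by nlinarith only [hpi]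
  have h5 : 499 / 10 * 9.8695 ≤ r * Real.pi ^ (2 : ℕ) := by
    calc 499 / 10 * 9.8695 ≤ r * 9.8695 := by linarith only [h1]
      _ ≤ r * Real.pi ^ (2 : ℕ) := mul_le_mul_of_nonneg_left h4 (by linarith only [h1])
  refine abs_le_of_sq_le_sq' ?_ (by linarith only [h2]) |>.2
  linarith only [hG, h5]

theorem om2_pos (r δ : ℝ) : 0 < om2 r δ := by
  unfold om2
  split_ifs <;> norm_num

theorem om2_le (r δ : ℝ) : om2 r δ ≤ 17 / 100 := by
  unfold om2
  split_ifs <;> norm_num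

theorem ei2_eo2 (r δ : ℝ) : ei2 r δ + eo2 r δ = Real.pi := by
  unfold ei2 eo2
  rw [t2_hst_two]
  ring

theorem ei2_nonneg (r δ : ℝ) : 0 ≤ ei2 r δ := by
  unfold ei2
  rw [t2_hst_two]
  have := om2_le r δ
  have := Real.pi_pos
  have : 0 ≤ 1 / 2 - om2 r δ := by linarith
  (clear * - this; positivity)

theorem ei2_le (r δ : ℝ) : ei2 r δ ≤ Real.pi / 2 := by
  unfold ei2
  rw [t2_hst_two]
  have := om2_pos r δ
  have := Real.pi_pos
  nlinarith

theorem eo2_ge (r δ : ℝ) : Real.pi / 2 ≤ eo2 r δ := by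
  have := ei2_eo2 r δ
  have := ei2_le r δ
  linarith

/-- facts on one saddle, `N = 2` -/
theorem Sad2.sx_pos {r δ y : ℝ} (h : Sad2 r δ y) : 0 < sx (r * δ) y := by
  have h1 := sx_nonneg (r * δ) y
  rcases h1.eq_or_lt with h2 | h2
  · exfalso
    have h3 := h.D
    unfold sD2 at h3
    rw [← h2] at h3
    have := h.lo
    have := h.hi
    nlinarith
  · exact h2

theorem exp_neg_hi {y : ℝ} (h : y ≤ 13 / 20) : 52 / 100 ≤ Real.exp (-y) := by
  have h1 : Real.exp (-(13 / 20)) ≤ Real.exp (-y) := Real.exp_le_exp.2 (by linarith only [h])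
  refine le_trans ?_ h1
  rw [Real.exp_neg]
  have h2 : Real.exp (13 / 20) ≤ 1.92 := by
    have h := Real.exp_bound' (x := 13 / 20) (by norm_num) (by norm_num) (n := 7) (by norm_num)
    refine h.trans ?_
    norm_num [Finset.sum_range_succ, Nat.factorial]
  rw [le_inv_comm₀ (by norm_num) (Real.exp_pos _)]
  refine h2.trans (by norm_num)

theorem exp_neg_hi' {y : ℝ} (h : y ≤ 21 / 50) : 657 / 1000 ≤ Real.exp (-y) := by
  have h1 : Real.exp (-(21 / 50)) ≤ Real.exp (-y) := Real.exp_le_exp.2 (by linarith only [h])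
  refine le_trans ?_ h1
  rw [Real.exp_neg]
  have h2 : Real.exp (21 / 50) ≤ 1.52197 := by
    have h := Real.exp_bound' (x := 21 / 50) (by norm_num) (by norm_num) (n := 7) (by norm_num)
    refine h.trans ?_
    norm_num [Finset.sum_range_succ, Nat.factorial]
  rw [le_inv_comm₀ (by norm_num) (Real.exp_pos _)]
  refine h2.trans (by norm_num)

theorem ei2_le4 (r δ : ℝ) : ei2 r δ ≤ 2 / 5 * Real.pi := by
  unfold ei2
  rw [t2_hst_two]
  have h1 : 1 / 10 ≤ om2 r δ := by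
    unfold om2
    split_ifs <;> norm_num
  have := Real.pi_pos
  nlinarith

/-- the inner saddles satisfy `y ≤ 21/50` -/
theorem At.y_in_le {r δ y η : ℝ} (h : Reg2 r δ) (hA : At r δ y η) (hη : η ≤ ei2 r δ) :
    y ≤ 21 / 50 := by
  have hρ := h.rho
  have hρ0 : 0 < r * δ := by linarith only [hρ]
  have hD : Dom (r * δ) (21 / 50) := dom_of hρ (by norm_num) (by norm_num)
  refine hA.le hD (by norm_num) (hη.trans ((ei2_le4 r δ).trans ?_))
  refine le_trans ?_ (sE_ge hD (by norm_num))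
  have h2 := p2_exp_neg_42
  have h3 := p2_exp_42'
  norm_num at h2 h3
  set ρ := r * δ with hρd
  have h7 : 5 / 8 - ρ * (25 / 256) ≤ 1 / ρ := by
    rw [le_div_iff₀ hρ0]
    linarith only [sq_nonneg (ρ - 16 / 5)]
  have hpi := Real.pi_lt_d4
  norm_num at hpi
  have h4 : ρ * (3428 / 10000) ≤ ρ * (1 - Real.exp (-(21 / 50))) := by
    refine mul_le_mul_of_nonneg_left ?_ hρ0.le
    linarith only [h2]
  have h5 : 773 / 1000 * (1 / ρ) ≤ 21 / 50 * Real.exp (21 / 50) / ρ * (1 + 21 / 50 / 2) := by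
    have e : 21 / 50 * Real.exp (21 / 50) / ρ * (1 + 21 / 50 / 2) =
        (21 / 50 * (1 + 21 / 50 / 2) * Real.exp (21 / 50)) * (1 / ρ) := by ring
    rw [e]
    refine mul_le_mul_of_nonneg_right ?_ (by (clear * - hρ; positivity))
    linarith only [h3]
  have h8 : 773 / 1000 * (5 / 8 - ρ * (25 / 256)) ≤ 773 / 1000 * (1 / ρ) := by linarith only [h7]
  linarith only [hρ, hpi, h4, h5, h8]

/-- the localisation for `N = 2` -/
theorem loc_two (P : P2) {r δ η ya : ℝ} (h : Reg2 r δ) (hA : At r δ ya η) (hη : |η| ≤ ei2 r δ)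
    {yb ζ C : ℝ} (hC0 : 0 ≤ C) (hout : Out r δ yb ζ C) (hgap : Gap r δ ya yb (1 / 2))
    (hC : (C ≤ 13 / 10 ∧ 0 ≤ η) ∨ (C ≤ 27 / 20 ∧ η ≤ 0)) {m : ℝ} (hm : 0 ≤ m) :
    ‖V1 r δ yb ζ + m * V0 r δ yb ζ‖ < ‖V1 r δ ya 0 + m * V0 r δ ya 0‖ := by
  have hei := ei2_le r δ
  have heo := eo2_ge r δ
  have hr0 : 0 < r := by linarith only [h.r0]
  have hS := P.sad r δ ya η h hA (by linarith only [hη, hei, heo])
  have hown := P.own r δ ya η h hA hS (by linarith only [hη, hei, heo]) (Or.inl (by rw [t2_hst_two]; linarith only [hη, hei]))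
  have hH := h.toPar.HH_pos
  have hHr := h.HH_le
  have hx := hS.sx_pos
  have hn := t2_norm_kap (r := r) h.d0 hA.dom
  have he := exp_neg_hi hS.hi
  have hκ : 0 < ‖kap r δ ya‖ := by
    rw [hn]
    have := Real.exp_pos (-ya)
    (clear * - hr0; positivity)
  have hδ := h.d0
  have hg : 9819 / 10000 * (‖kap r δ ya‖ + m) ≤ ‖kap r δ ya + m‖ := by
    refine t2_norm_add_ge (T := 2 / 5) (c := 92847 / 100000) hm ?_ ?_ (by norm_num) (by norm_num)
      (by norm_num) (by norm_num) (by norm_num)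
    · rw [t2_kap_re]; (clear * - hx hδ; positivity)
    · rw [t2_kap_im, t2_kap_re, abs_div, abs_of_pos hδ]
      have h5 : |ya| / δ ≤ 2 / 5 * sx (r * δ) ya / δ := by
        have := hS.T
        gcongr
      have h6 : 2 / 5 * sx (r * δ) ya / δ = 2 / 5 * (sx (r * δ) ya / δ) := by ring
      linarith only [h5, h6]
  have hexp : Real.exp (-(1 / 2)) ≤ 0.6066 := by
    rw [Real.exp_neg]
    have h2 : 1.6486 ≤ Real.exp (1 / 2) := by
      have h := Real.sum_le_exp_of_nonneg (x := 1 / 2) (by norm_num) 6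
      refine le_trans ?_ h
      norm_num [Finset.sum_range_succ, Nat.factorial]
    rw [inv_le_comm₀ (Real.exp_pos _) (by norm_num)]
    refine le_trans (by norm_num) h2
  have hexp0 := Real.exp_pos (-(1 / 2))
  have hM : 0 < sM r δ ya := sM_pos hA.y1
  rcases hC with ⟨hC, hη0⟩ | ⟨hC, hη0⟩
  · have hy := hA.nonneg hη0
    have hy2 : ya ≤ 21 / 50 := hA.y_in_le h (abs_le.1 hη).2
    have he2 := exp_neg_hi' hy2
    have hT : |ya| ≤ 205 / 1000 * sx (r * δ) ya := by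
      refine p2_T hA.dom (c := 4999 / 1000) (by norm_num) (by norm_num) (by norm_num) ?_
      rw [abs_of_nonneg hy]
      have h1 : 16 / 5 * (657 / 1000) ≤ r * δ * Real.exp (-ya) := by
        have := h.rho
        gcongr
      linarith only [hy2, h1]
    have hg' : 9948 / 10000 * (‖kap r δ ya‖ + m) ≤ ‖kap r δ ya + m‖ := by
      refine t2_norm_add_ge (T := 205 / 1000) (c := 9796 / 10000) hm ?_ ?_ (by norm_num)
        (by norm_num) (by norm_num) (by norm_num) (by norm_num)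
      · rw [t2_kap_re]; (clear * - hx hδ; positivity)
      · rw [t2_kap_im, t2_kap_re, abs_div, abs_of_pos hδ]
        have h5 : |ya| / δ ≤ 205 / 1000 * sx (r * δ) ya / δ := by gcongr
        have h6 : 205 / 1000 * sx (r * δ) ya / δ = 205 / 1000 * (sx (r * δ) ya / δ) := by ring
        linarith only [h5, h6]
    refine loc_ineq hm hM hκ hown (by norm_num) hC0 hout hgap hg' (q := 786 / 10000) ?_
      (by norm_num) (by norm_num) ?_
    · rw [hn]
      have : r * (657 / 1000) ≤ r * Real.exp (-ya) := mul_le_mul_of_nonneg_left he2 hr0.le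
      linarith only [hHr, hn, hκ, this]
    · have : C * Real.exp (-(1 / 2)) ≤ 13 / 10 * 0.6066 := by gcongr
      norm_num at this ⊢
      linarith only [this]
  · have hy := hA.nonpos hη0
    have he1 : 1 ≤ Real.exp (-ya) := Real.one_le_exp (by linarith only [hy])
    have hT : |ya| ≤ 12 / 100 * sx (r * δ) ya := by
      refine SokamF1T.abs_le_T (e := 0.3679) hA.dom (by norm_num) ?_ ?_
      · rw [abs_of_nonpos hy]
        exact SokamF1T.negexp_le hy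
      · have := h.rho
        nlinarith only [this]
    have hg' : 9981 / 10000 * (‖kap r δ ya‖ + m) ≤ ‖kap r δ ya + m‖ := by
      refine t2_norm_add_ge (T := 12 / 100) (c := 9928 / 10000) hm ?_ ?_ (by norm_num) (by norm_num)
        (by norm_num) (by norm_num) (by norm_num)
      · rw [t2_kap_re]; (clear * - hx hδ; positivity)
      · rw [t2_kap_im, t2_kap_re, abs_div, abs_of_pos hδ]
        have h5 : |ya| / δ ≤ 12 / 100 * sx (r * δ) ya / δ := by gcongr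
        have h6 : 12 / 100 * sx (r * δ) ya / δ = 12 / 100 * (sx (r * δ) ya / δ) := by ring
        linarith only [h5, h6]
    refine loc_ineq hm hM hκ hown (by norm_num) hC0 hout hgap hg' (q := 52 / 1000) ?_ (by norm_num)
      (by norm_num) ?_
    · rw [hn]
      have : r * 1 ≤ r * Real.exp (-ya) := mul_le_mul_of_nonneg_left he1 hr0.le
      linarith only [hH, hHr, this]
    · have : C * Real.exp (-(1 / 2)) ≤ 27 / 20 * 0.6066 := by gcongr
      norm_num at this ⊢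
      linarith only [this]

/-- **(U) for `N = 2`**, `ρ ≥ 16/5`. -/
theorem waveU_two (P : P2) {r δ : ℝ} (h : Reg2 r δ) : WaveU 2 δ r := by
  intro x g0 m c hx0 hx1 hg0 hc hm hF htie
  have hI : Finset.Ico (-1 : ℤ) (-1 + (2 : ℕ)) = {-1, 0} := by decide
  rw [hI, Finset.sum_pair (by norm_num), Finset.sum_pair (by norm_num)] at htie
  rw [hI, Finset.sum_pair (by norm_num), Finset.sum_pair (by norm_num), Finset.sum_pair (by norm_num)]
  have hpi := Real.pi_pos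
  have hδ := h.d0
  have hr0 : 0 < r := by linarith only [h.r0]
  set η := x * Real.pi with hη
  have hη0 : 0 ≤ η := by (clear * - hx0; positivity)
  have hη1 : η < Real.pi := by nlinarith only [hx1, hpi]
  -- the waves
  have hw0 : wj 2 r δ x 0 = wp r δ η := by
    unfold wj
    rw [t2_hst_two]
    congr 1
    push_cast
    ring
  have hw1 : wj 2 r δ x (-1) = wp r δ (η - Real.pi) := by
    unfold wj
    rw [t2_hst_two]
    congr 1
    push_cast
    ring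
  rw [hw0, hw1] at htie ⊢
  have hc0 : c 0 ≠ 0 := norm_pos_iff.1 (by rw [hc 0]; exact hg0)
  have hc1 : c (-1) ≠ 0 := norm_pos_iff.1 (by rw [hc (-1)]; exact hg0)
  have hsum := ei2_eo2 r δ
  have hei0 := ei2_nonneg r δ
  have hei := ei2_le r δ
  have heo := eo2_ge r δ
  -- equal moduli at a tie
  have hnorm : ‖DE (tt δ) (wp r δ η) + m * E (tt δ) (wp r δ η)‖ =
      ‖DE (tt δ) (wp r δ (η - Real.pi)) + m * E (tt δ) (wp r δ (η - Real.pi))‖ := by
    have h1 : c 0 * (DE (tt δ) (wp r δ η) + m * E (tt δ) (wp r δ η)) =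
        -(c (-1) * (DE (tt δ) (wp r δ (η - Real.pi)) + m * E (tt δ) (wp r δ (η - Real.pi)))) := by
      linear_combination htie
    have h2 := congrArg norm h1
    rw [norm_neg, norm_mul, norm_mul, hc 0, hc (-1)] at h2
    exact mul_left_cancel₀ hg0.ne' h2
  rcases lt_or_ge η (ei2 r δ) with hcase | hcase
  · -- `η` inside, `η - π` outside
    exfalso
    obtain ⟨ya, hAa⟩ := P.ex r δ η h (by rw [abs_of_nonneg hη0]; linarith only [hei, heo, hcase])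
    obtain ⟨yb, hAb⟩ := P.ex r δ (-eo2 r δ) h (by rw [abs_neg, abs_of_nonneg (by linarith only [hei0, hei, heo])])
    have hSb := P.sad r δ yb _ h hAb (by rw [abs_neg, abs_of_nonneg (by linarith only [hei0, hei, heo])])
    have hout := P.outR r δ yb (η - Real.pi + eo2 r δ) h hAb hSb (by linarith only [hsum, hcase]) (by linarith only [hη0])
    have hgap := P.gapL r δ ya yb η h hAa hAb hη0 hcase.le
    have hl := loc_two P h hAa (by rw [abs_of_nonneg hη0]; exact hcase.le) (by norm_num) hout hgap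
      (Or.inl ⟨le_rfl, hη0⟩) hm.le
    unfold V1 V0 at hl
    rw [hAa.eta, hAb.eta, add_zero, show -eo2 r δ + (η - Real.pi + eo2 r δ) = η - Real.pi by ring] at hl
    rw [hnorm] at hl
    exact lt_irrefl _ hl
  rcases lt_or_ge (eo2 r δ) η with hcase2 | hcase2
  · -- `η` outside, `η - π` inside
    exfalso
    obtain ⟨ya, hAa⟩ := P.ex r δ (η - Real.pi) h (by rw [abs_of_nonpos (by linarith only [hη1])]; linarith only [heo, hcase2])
    obtain ⟨yb, hAb⟩ := P.ex r δ (eo2 r δ) h (by rw [abs_of_nonneg (by linarith only [hsum, hei0, hei])])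
    have hSb := P.sad r δ yb _ h hAb (by rw [abs_of_nonneg (by linarith only [hsum, hei0, hei])])
    have hout := P.outL r δ yb (η - eo2 r δ) h hAb hSb (by linarith only [hcase2]) (by linarith only [hη1])
    have hgap := P.gapR r δ ya yb (η - Real.pi) h hAa hAb (by linarith only [hη1]) (by linarith only [hsum, hcase2])
    have hl := loc_two P h hAa (by rw [abs_of_nonpos (by linarith only [hη1])]; linarith only [hsum, hcase2]) (by norm_num) hout hgap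
      (Or.inr ⟨le_rfl, by linarith only [hη1]⟩) hm.le
    unfold V1 V0 at hl
    rw [hAa.eta, hAb.eta, add_zero, show eo2 r δ + (η - eo2 r δ) = η by ring] at hl
    rw [hnorm] at hl
    exact lt_irrefl _ hl
  · -- the window
    have ha0 : |η| ≤ eo2 r δ := by rw [abs_of_nonneg hη0]; exact hcase2
    have ha1 : |η - Real.pi| ≤ eo2 r δ := by rw [abs_of_nonpos (by linarith only [hη1])]; linarith only [hsum, hcase]
    obtain ⟨y0, hA0⟩ := P.ex r δ η h ha0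
    obtain ⟨y1, hA1⟩ := P.ex r δ (η - Real.pi) h ha1
    have hS0 := P.sad r δ y0 _ h hA0 ha0
    have hS1 := P.sad r δ y1 _ h hA1 ha1
    have hy0 := hA0.nonneg hη0
    have hy1 := hA1.nonpos (by linarith only [hsum, hei0, hcase2])
    have hpair := P.pair r δ y0 y1 η h hA0 (by rw [t2_hst_two]; exact hA1) hcase hcase2
    have hH := h.toPar.HH_pos
    have hn0 := t2_norm_kap (r := r) hδ hA0.dom
    -- the goal in terms of `V`
    have e00 : V0 r δ y0 0 = E (tt δ) (wp r δ η) := by unfold V0; rw [hA0.eta, add_zero]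
    have e01 : V1 r δ y0 0 = DE (tt δ) (wp r δ η) := by unfold V1; rw [hA0.eta, add_zero]
    have e02 : V2 r δ y0 0 = SokamBPlus.D2E (tt δ) (wp r δ η) := by
      unfold V2; rw [hA0.eta, add_zero]
    have e10 : V0 r δ y1 0 = E (tt δ) (wp r δ (η - Real.pi)) := by
      unfold V0; rw [hA1.eta, add_zero]
    have e11 : V1 r δ y1 0 = DE (tt δ) (wp r δ (η - Real.pi)) := by
      unfold V1; rw [hA1.eta, add_zero]
    have e12 : V2 r δ y1 0 = SokamBPlus.D2E (tt δ) (wp r δ (η - Real.pi)) := by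
      unfold V2; rw [hA1.eta, add_zero]
    rw [← e00, ← e01, ← e10, ← e11] at htie
    rw [← e00, ← e01, ← e02, ← e10, ← e11, ← e12]
    rw [add_comm (c (-1) * V2 r δ y1 0), add_comm (c (-1) * V1 r δ y1 0),
      add_comm (c (-1) * V0 r δ y1 0)]
    rw [add_comm (c (-1) * V1 r δ y1 0), add_comm (c (-1) * V0 r δ y1 0)] at htie
    rcases lt_or_ge (Gm 2 r δ) (17 / 2) with hG | hG
    · obtain ⟨-, hi0, hT0⟩ := P.sadA r δ y0 _ h hA0 ha0 (by linarith only [hG])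
      obtain ⟨-, -, hT1⟩ := P.sadA r δ y1 _ h hA1 ha1 (by linarith only [hG])
      have hβ : 72 / 100 * r ≤ ‖kap r δ y0‖ := by
        rw [hn0]
        have hρ := h.rho_ge hG
        have hρ0 : 0 < r * δ := by linarith only [hρ]
        have h1 := sx_le hA0.dom
        have h2 := sP_nonneg hρ0 hy0
        have h3 := hA0.eta
        unfold sE at h3
        have h4 : eo2 r δ ≤ 2.105 := by
          unfold eo2
          rw [t2_hst_two]
          have := om2_le r δ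
          have := Real.pi_lt_d6
          nlinarith
        have h5 : r * δ * (72 / 100) ≤ r * δ * Real.exp (-y0) := by linarith only [hcase2, hρ, h1, h2, h3, h4]
        have h6 := le_of_mul_le_mul_left h5 hρ0
        have := mul_le_mul_of_nonneg_left h6 hr0.le
        linarith only [this]
      have hHr := h.HH_le_of (G := 17 / 2) (q := 413 / 1000) hG (by norm_num) (by norm_num)
      rcases le_total η (Real.pi / 2) with hh | hh
      · have ho0 := P.own r δ y0 _ h hA0 hS0 ha0 (Or.inl (by rw [abs_of_nonneg hη0, t2_hst_two]; exact hh))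
        have ho1 := P.ownA r δ y1 _ h hA1 hS1 ha1 hG
        exact win hm hδ hH hHr hr0 (by norm_num) hc0 hc1 hA0.dom hA1.dom hy0 hy1 hA1.y1 hS0.sx_pos
          hS1.sx_pos hT0 hT1 (by norm_num) hβ (by norm_num) ho0 ho1 (by norm_num) (by norm_num)
          (by norm_num) (by norm_num) (by norm_num) (by norm_num) hpair htie
          (z0 := 32 / 1000) (z1 := 124 / 1000) (a0 := 73 / 1000) (a1 := 326 / 1000)
          (χ := 69 / 100) (t0 := 33 / 1000) (t1 := 126 / 1000) (s := 16 / 100) (tχ := 96 / 100)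
          (by norm_num) (by norm_num) (by norm_num) (by norm_num) (by norm_num) (by norm_num)
          (by norm_num) (by norm_num) (by norm_num) (by norm_num) (by norm_num) (by norm_num)
          (by norm_num) (by norm_num) (by norm_num) (by norm_num) (by norm_num) (by norm_num)
          (by norm_num)
      · have ho0 := P.ownA r δ y0 _ h hA0 hS0 ha0 hG
        have ho1 := P.own r δ y1 _ h hA1 hS1 ha1
          (Or.inl (by rw [abs_of_nonpos (by linarith only [hsum, hei0, hcase2]), t2_hst_two]; linarith only [hh]))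
        exact win hm hδ hH hHr hr0 (by norm_num) hc0 hc1 hA0.dom hA1.dom hy0 hy1 hA1.y1 hS0.sx_pos
          hS1.sx_pos hT0 hT1 (by norm_num) hβ (by norm_num) ho0 ho1 (by norm_num) (by norm_num)
          (by norm_num) (by norm_num) (by norm_num) (by norm_num) hpair htie
          (z0 := 1725 / 10000) (z1 := 23 / 1000) (a0 := 479 / 1000) (a1 := 5202 / 100000)
          (χ := 91 / 100) (t0 := 1755 / 10000) (t1 := 2305 / 100000) (s := 2 / 10) (tχ := 22 / 10)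
          (by norm_num) (by norm_num) (by norm_num) (by norm_num) (by norm_num) (by norm_num)
          (by norm_num) (by norm_num) (by norm_num) (by norm_num) (by norm_num) (by norm_num)
          (by norm_num) (by norm_num) (by norm_num) (by norm_num) (by norm_num) (by norm_num)
          (by norm_num)
    rcases lt_or_ge (Gm 2 r δ) 10 with hG2 | hG2
    · obtain ⟨-, hi0, hT0⟩ := P.sadA r δ y0 _ h hA0 ha0 hG2
      obtain ⟨-, -, hT1⟩ := P.sadA r δ y1 _ h hA1 ha1 hG2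
      have hβ : 657 / 1000 * r ≤ ‖kap r δ y0‖ := by
        rw [hn0]
        have := mul_le_mul_of_nonneg_left (exp_neg_hi' hi0) hr0.le
        linarith only [this]
      have hHr := h.HH_le_of (G := 10) (q := 448 / 1000) hG2 (by norm_num) (by norm_num)
      rcases le_total η (Real.pi / 2) with hh | hh
      · have ho0 := P.own r δ y0 _ h hA0 hS0 ha0 (Or.inl (by rw [abs_of_nonneg hη0, t2_hst_two]; exact hh))
        have ho1 := P.ownA2 r δ y1 _ h hA1 hS1 ha1 hG hG2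
        exact win hm hδ hH hHr hr0 (by norm_num) hc0 hc1 hA0.dom hA1.dom hy0 hy1 hA1.y1 hS0.sx_pos
          hS1.sx_pos hT0 hT1 (by norm_num) hβ (by norm_num) ho0 ho1 (by norm_num) (by norm_num)
          (by norm_num) (by norm_num) (by norm_num) (by norm_num) hpair htie
          (z0 := 38 / 1000) (z1 := 112 / 1000) (a0 := 88 / 1000) (a1 := 284 / 1000)
          (χ := 59 / 100) (t0 := 39 / 1000) (t1 := 113 / 1000) (s := 16 / 100) (tχ := 75 / 100)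
          (by norm_num) (by norm_num) (by norm_num) (by norm_num) (by norm_num) (by norm_num)
          (by norm_num) (by norm_num) (by norm_num) (by norm_num) (by norm_num) (by norm_num)
          (by norm_num) (by norm_num) (by norm_num) (by norm_num) (by norm_num) (by norm_num)
          (by norm_num)
      · have ho0 := P.ownA2 r δ y0 _ h hA0 hS0 ha0 hG hG2
        have ho1 := P.own r δ y1 _ h hA1 hS1 ha1
          (Or.inl (by rw [abs_of_nonpos (by linarith only [hsum, hei0, hcase2]), t2_hst_two]; linarith only [hh]))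
        exact win hm hδ hH hHr hr0 (by norm_num) hc0 hc1 hA0.dom hA1.dom hy0 hy1 hA1.y1 hS0.sx_pos
          hS1.sx_pos hT0 hT1 (by norm_num) hβ (by norm_num) ho0 ho1 (by norm_num) (by norm_num)
          (by norm_num) (by norm_num) (by norm_num) (by norm_num) hpair htie
          (z0 := 171 / 1000) (z1 := 25 / 1000) (a0 := 463 / 1000) (a1 := 57 / 1000)
          (χ := 82 / 100) (t0 := 174 / 1000) (t1 := 26 / 1000) (s := 21 / 100) (tχ := 145 / 100)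
          (by norm_num) (by norm_num) (by norm_num) (by norm_num) (by norm_num) (by norm_num)
          (by norm_num) (by norm_num) (by norm_num) (by norm_num) (by norm_num) (by norm_num)
          (by norm_num) (by norm_num) (by norm_num) (by norm_num) (by norm_num) (by norm_num)
          (by norm_num)
    rcases lt_or_ge (Gm 2 r δ) 20 with hG3 | hG3
    · have hβ : 52 / 100 * r ≤ ‖kap r δ y0‖ := by
        rw [hn0]
        have := mul_le_mul_of_nonneg_left (exp_neg_hi hS0.hi) hr0.le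
        linarith only [this]
      have hHr := h.HH_le_of (G := 20) (q := 634 / 1000) hG3 (by norm_num) (by norm_num)
      have ho0 := P.own2 r δ y0 _ h hA0 hS0 ha0 hG2 hG3
      have ho1 := P.own2 r δ y1 _ h hA1 hS1 ha1 hG2 hG3
      exact win hm hδ hH hHr hr0 (by norm_num) hc0 hc1 hA0.dom hA1.dom hy0 hy1 hA1.y1 hS0.sx_pos
        hS1.sx_pos hS0.T hS1.T (by norm_num) hβ (by norm_num) ho0 ho1 (by norm_num) (by norm_num)
        (by norm_num) (by norm_num) (by norm_num) (by norm_num) hpair htie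
        (z0 := 98 / 1000) (z1 := 51 / 1000) (a0 := 28 / 100) (a1 := 138 / 1000)
        (χ := 54 / 100) (t0 := 99 / 1000) (t1 := 52 / 1000) (s := 155 / 1000) (tχ := 65 / 100)
        (by norm_num) (by norm_num) (by norm_num) (by norm_num) (by norm_num) (by norm_num)
        (by norm_num) (by norm_num) (by norm_num) (by norm_num) (by norm_num) (by norm_num)
        (by norm_num) (by norm_num) (by norm_num) (by norm_num) (by norm_num) (by norm_num)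
        (by norm_num)
    · have hβ : 52 / 100 * r ≤ ‖kap r δ y0‖ := by
        rw [hn0]
        have := mul_le_mul_of_nonneg_left (exp_neg_hi hS0.hi) hr0.le
        linarith only [this]
      have hHr := h.HH_le
      have ho0 := P.own r δ y0 _ h hA0 hS0 ha0 (Or.inr hG3)
      have ho1 := P.own r δ y1 _ h hA1 hS1 ha1 (Or.inr hG3)
      exact win hm hδ hH hHr hr0 (by norm_num) hc0 hc1 hA0.dom hA1.dom hy0 hy1 hA1.y1 hS0.sx_pos
        hS1.sx_pos hS0.T hS1.T (by norm_num) hβ (by norm_num) ho0 ho1 (by norm_num) (by norm_num)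
        (by norm_num) (by norm_num) (by norm_num) (by norm_num) hpair htie
        (z0 := 100 / 1000) (z1 := 52 / 1000) (a0 := 248 / 1000) (a1 := 123 / 1000)
        (χ := 45 / 100) (t0 := 101 / 1000) (t1 := 53 / 1000) (s := 157 / 1000) (tχ := 51 / 100)
        (by norm_num) (by norm_num) (by norm_num) (by norm_num) (by norm_num) (by norm_num)
        (by norm_num) (by norm_num) (by norm_num) (by norm_num) (by norm_num) (by norm_num)
        (by norm_num) (by norm_num) (by norm_num) (by norm_num) (by norm_num) (by norm_num)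
        (by norm_num)

/-- the parameters of `Glue.dist_F1_of`, `N = 2` -/
theorem reg2_of {r δ : ℝ} (hr : 499 / 10 ≤ r) (hρ : 16 / 5 ≤ r * δ)
    (hQ : 4 * (1 + (r * δ) ^ (2 : ℕ)) ≤ 7.2552 * r) : Reg2 r δ := by
  have hr0 : 0 < r := by linarith only [hr]
  have hδ : 0 < δ := by
    by_contra h
    push Not at h
    nlinarith only [hr, hρ, h]
  refine ⟨⟨le_rfl, hr, hδ, ?_⟩, hρ⟩
  unfold Gm RR
  rw [t2_hst_two, le_div_iff₀ (by positivity)]
  have hpi := Real.pi_gt_d6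
  have h4 : 9.8695 ≤ Real.pi ^ (2 : ℕ) := by nlinarith only [hpi]
  nlinarith only [hQ, h4]

theorem hW2 (P : P2) (δ r : ℝ) (hr : 499 / 10 ≤ r) (hρ : 16 / 5 ≤ r * δ)
    (hQ : 4 * (1 + (r * δ) ^ (2 : ℕ)) ≤ 7.2552 * r) : WaveU 2 δ r := waveU_two P (reg2_of hr hρ hQ)

end SokamV3

end
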