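import Pool.Agent.Lib_MP_af4de1_zy.Z54
import Pool.Agent.Lib_MP_af4de1_zy.Z63
import Pool.Agent.Lib_MP_af4de1_zy.Z150
import Pool.Agent.Lib_MP_af4de1_zy.Z156

/-! ### Lib_MP_af4de1_v3.PairC -/

section
namespace SokamF1
end SokamF1
namespace SokamF1M
end SokamF1M
namespace SokamF1S
end SokamF1S
namespace SokamU
end SokamU
/-!
# Regime C: the two saddle points are far apart

`|κ0 - κ1| ≥ 7/10 r`, for all pairs with `y1 ≤ 0 ≤ y0`, by `h² > 11/10 (1 + ρ²)`.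
-/

set_option autoImplicit false

namespace SokamV3

open Complex SokamU SokamF1 SokamF1S SokamF1M

theorem sin_ge_of {p : ℝ} (h1 : 781 / 1000 ≤ p) (h2 : p ≤ Real.pi / 2) : 7 / 10 ≤ Real.sin p := by
  have h3 : (7 : ℝ) / 10 ≤ Real.sin (781 / 1000) := by
    have := Real.sin_gt_sub_cube (x := 781 / 1000) (by norm_num)
    norm_num at this ⊢
    linarith only [this]
  have h4 : Real.sin (781 / 1000) ≤ Real.sin p := by
    refine Real.sin_le_sin_of_le_of_le_pi_div_two ?_ h2 h1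
    have := Real.pi_pos
    linarith only [this]
  linarith only [h3, h4]

theorem normSq_sK_sub {ρ y0 y1 : ℝ} (h0 : Dom ρ y0) (h1 : Dom ρ y1) :
    ‖sK ρ y0 - sK ρ y1‖ ^ (2 : ℕ) = (ρ * Real.exp (-y0)) ^ (2 : ℕ) + (ρ * Real.exp (-y1)) ^ (2 : ℕ) -
      2 * (ρ * Real.exp (-y0)) * (ρ * Real.exp (-y1)) * Real.cos (sP ρ y0 - sP ρ y1) := by
  rw [sK_polar h0, sK_polar h1, Complex.sq_norm, Complex.normSq_apply, Real.cos_sub]
  simp only [Complex.sub_re, Complex.sub_im, Complex.mul_re, Complex.mul_im, Complex.ofReal_re,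
    Complex.ofReal_im, Complex.exp_ofReal_mul_I_re, Complex.exp_ofReal_mul_I_im, zero_mul, sub_zero, add_zero]
  have e0 := Real.sin_sq_add_cos_sq (sP ρ y0)
  have e1 := Real.sin_sq_add_cos_sq (sP ρ y1)
  linear_combination (ρ * Real.exp (-y0)) ^ (2 : ℕ) * e0 + (ρ * Real.exp (-y1)) ^ (2 : ℕ) * e1

/-- `|K0 - K1| ≥ 7/10 ρ` -/
theorem sK_sub_ge {ρ y0 y1 h : ℝ} (h0 : Dom ρ y0) (h1 : Dom ρ y1) (hy0 : 0 ≤ y0) (hy1 : y1 ≤ 0)
    (hh : 0 < h) (hη : sE ρ y0 - sE ρ y1 = h) (hC : 11 / 10 * (1 + ρ ^ (2 : ℕ)) ≤ h ^ (2 : ℕ)) :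
    7 / 10 * ρ ≤ ‖sK ρ y0 - sK ρ y1‖ := by
  have hρ := h0.pos
  set p := sP ρ y0 - sP ρ y1 with hp
  have hp0 : 0 ≤ p := by
    have := sP_nonneg hρ hy0
    have := sP_nonpos hρ hy1
    rw [hp]; linarith
  have hb : ρ ≤ ρ * Real.exp (-y1) := by
    refine le_mul_of_one_le_right hρ.le ?_
    rw [← Real.exp_zero]
    exact Real.exp_le_exp.2 (by linarith only [hy1])
  have ha : 0 < ρ * Real.exp (-y0) := by positivity
  rcases lt_or_ge p (781 / 1000) with hc | hc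
  · -- real parts
    have e1 : (sK ρ y1 - sK ρ y0).re = h - p := by
      have h3 : sx ρ y1 - sx ρ y0 = h - p := by
        rw [← hη, hp]; unfold sE; ring
      rw [← h3]
      unfold sK
      simp
    have e2 : 7 / 10 * ρ ≤ h - p := by
      have h4 : (p + 7 / 10 * ρ) ^ (2 : ℕ) ≤ h ^ (2 : ℕ) := by
        have h5 : (p + 7 / 10 * ρ) ^ (2 : ℕ) ≤ (p ^ (2 : ℕ) + (7 / 10) ^ (2 : ℕ)) * (1 + ρ ^ (2 : ℕ)) := by
          linarith only [sq_nonneg (p * ρ - 7 / 10)]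
        have h6 : p ^ (2 : ℕ) + (7 / 10) ^ (2 : ℕ) ≤ 11 / 10 := by nlinarith only [hp0, hc]
        have h7 : (p ^ (2 : ℕ) + (7 / 10) ^ (2 : ℕ)) * (1 + ρ ^ (2 : ℕ)) ≤ 11 / 10 * (1 + ρ ^ (2 : ℕ)) :=
          mul_le_mul_of_nonneg_right h6 (by positivity)
        linarith only [hC, h5, h7]
      have h5 := abs_le_of_sq_le_sq' h4 hh.le
      linarith only [h5.2]
    have h4 := Complex.re_le_norm (sK ρ y1 - sK ρ y0)
    rw [norm_sub_rev, e1] at h4
    linarith only [e2, h4]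
  · -- sine
    refine abs_le_of_sq_le_sq' ?_ (norm_nonneg _) |>.2
    rw [normSq_sK_sub h0 h1, ← hp]
    set a := ρ * Real.exp (-y0)
    set b := ρ * Real.exp (-y1)
    have hb2 : ρ ^ (2 : ℕ) ≤ b ^ (2 : ℕ) := pow_le_pow_left₀ hρ.le hb 2
    rcases le_or_gt p (Real.pi / 2) with h2 | h2
    · have hs := sin_ge_of hc h2
      have e3 := Real.sin_sq_add_cos_sq p
      have h5 : (7 / 10) ^ (2 : ℕ) ≤ Real.sin p ^ (2 : ℕ) := pow_le_pow_left₀ (by norm_num) hs 2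
      have h6 : (7 / 10) ^ (2 : ℕ) * b ^ (2 : ℕ) ≤ Real.sin p ^ (2 : ℕ) * b ^ (2 : ℕ) := mul_le_mul_of_nonneg_right h5 (sq_nonneg b)
      nlinarith only [hb2, e3, h6, sq_nonneg (a - b * Real.cos p)]
    · have hcos : Real.cos p ≤ 0 := by
        refine Real.cos_nonpos_of_pi_div_two_le_of_le h2.le ?_
        have := (abs_le.1 (sP_abs_le ρ y0)).2
        have := (abs_le.1 (sP_abs_le ρ y1)).1
        have := Real.pi_pos
        rw [hp]; linarith
      have h5 : 0 ≤ a * b * (-Real.cos p) := mul_nonneg (mul_nonneg ha.le (hρ.le.trans hb)) (by linarith only [hcos])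
      nlinarith only [hb2, h5]

/-- PAIR, regime C -/
theorem pairC {N : ℕ} {r δ y0 y1 η : ℝ} (hR : RegC N r δ) (h0 : At r δ y0 η) (h1 : At r δ y1 (η - hst N))
    (hy0 : 0 ≤ y0) (hy1 : y1 ≤ 0) : 7 / 10 * r ≤ ‖kap r δ y0 - kap r δ y1‖ := by
  have hδ := hR.d0
  have hh : 0 < hst N := by
    unfold hst
    have : (0 : ℝ) < N := by exact_mod_cast (by have := hR.N3; omega : 0 < N)
    have := Real.pi_pos
    positivity
  have key := sK_sub_ge h0.dom h1.dom hy0 hy1 hh (by rw [h0.eta, h1.eta]; ring)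
    (by have := hR.C; unfold RR at this; exact this.le)
  have e : kap r δ y0 - kap r δ y1 = (sK (r * δ) y0 - sK (r * δ) y1) / δ := by unfold kap; ring
  rw [e, norm_div, Complex.norm_real, Real.norm_of_nonneg hδ.le, le_div_iff₀ hδ]
  linarith only [key]

end SokamV3

end

/-! ### Lib_MP_af4de1_f1.PCa -/

section
namespace SokamF1
end SokamF1
namespace SokamF1M
end SokamF1M
namespace SokamF1S
end SokamF1S
namespace SokamU
end SokamU
namespace SokamV3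
end SokamV3
/-!
# Regime C: (U) from the two top waves and small far waves, part a: facts on `DD`
-/

set_option autoImplicit false

namespace SokamF1T

open Complex SokamU SokamF1 SokamF1S SokamF1M SokamV3

theorem sM_eq_Mm {r δ y : ℝ} (hr : 0 < r) (hδ : 0 < δ) (hy : -1 < y) : sM r δ y = Mm r (r * δ) y := by
  have hD := sD2_pos (ρ := r * δ) hy
  unfold sM Mm ph
  congr 1
  · congr 1
    field_simp
  · rw [Real.sqrt_eq_rpow, Real.sqrt_eq_rpow, ← Real.rpow_mul hD.le]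
    norm_num

/-- `Re K ≥ 11/25 |K|` on `DD` -/
theorem pc_re {ρ y : ℝ} (h : DD ρ y) : 11 / 25 * ‖sK ρ y‖ ≤ sx ρ y := by
  have hρ := h.dom.pos
  have hy : 0 < 1 + y := by have := h.y0; linarith
  rw [norm_sK h.dom]
  have h1 := h.phi
  unfold ph at h1
  rw [le_div_iff₀ hρ] at h1
  have h2 : 1 + y ≤ Real.exp y := by linarith [Real.add_one_le_exp y]
  have h3 : Real.exp y * Real.exp (-y) = 1 := by rw [← Real.exp_add]; simp
  have h4 := sx_nonneg ρ y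
  have h5 : sx ρ y * (1 + y) ≤ sx ρ y * Real.exp y := mul_le_mul_of_nonneg_left h2 h4
  have h6 : 11 / 25 * ρ ≤ sx ρ y * Real.exp y := h1.trans h5
  have h7 := mul_le_mul_of_nonneg_right h6 (Real.exp_pos (-y)).le
  rw [mul_assoc (sx ρ y), h3, mul_one] at h7
  linarith

/-- `|y| ≤ 2.041 x` on `DD` -/
theorem pc_tan {ρ y : ℝ} (h : DD ρ y) : |y| ≤ 2041 / 1000 * sx ρ y := by
  have h1 := pc_re h
  have h2 := sx_sq_add h.dom
  have h3 := sx_nonneg ρ y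
  rw [norm_sK h.dom] at h1
  have hρ := h.dom.pos
  have h0 : 0 ≤ ρ * Real.exp (-y) := by positivity
  have h4 : (11 / 25 * (ρ * Real.exp (-y))) ^ (2 : ℕ) ≤ sx ρ y ^ (2 : ℕ) := pow_le_pow_left₀ (by positivity) h1 2
  refine abs_le_of_sq_le_sq ?_ (by positivity)
  nlinarith

/-- `D² ≥ 1/5` on `DD` -/
theorem pc_D {ρ y : ℝ} (h : DD ρ y) : 1 / 5 ≤ sD2 ρ y := by
  have h1 := pc_tan h
  have h2 : y ^ (2 : ℕ) ≤ (2041 / 1000 * sx ρ y) ^ (2 : ℕ) := by
    rw [← sq_abs y]; exact pow_le_pow_left₀ (abs_nonneg _) h1 2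
  have h3 := h.y0
  unfold sD2
  nlinarith

/-- `D² ≥ 1` for `y ≥ 0` -/
theorem pc_D_pos {ρ y : ℝ} (hy : 0 ≤ y) : 1 ≤ sD2 ρ y := by
  unfold sD2
  nlinarith [sq_nonneg (sx ρ y)]

theorem pc_kap_re (r δ y : ℝ) : (kap r δ y).re = sx (r * δ) y / δ := by
  unfold kap
  rw [Complex.div_ofReal_re]
  unfold sK
  simp

theorem pc_kap_im (r δ y : ℝ) : (kap r δ y).im = y / δ := by
  unfold kap
  rw [Complex.div_ofReal_im]
  unfold sK
  simp

theorem pc_norm_kap {r δ y : ℝ} (hδ : 0 < δ) (h : Dom (r * δ) y) : ‖kap r δ y‖ = r * Real.exp (-y) := by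
  unfold kap
  rw [norm_div, norm_sK h, Complex.norm_real, Real.norm_of_nonneg hδ.le]
  field_simp

theorem pc_exp_lo {y : ℝ} (h : y ≤ 18 / 25) : 243 / 500 ≤ Real.exp (-y) := by
  have h1 : Real.exp (18 / 25 : ℝ) ≤ 500 / 243 := by
    have := Real.exp_bound' (x := 18 / 25) (by norm_num) (by norm_num) (n := 6) (by norm_num)
    refine this.trans ?_
    norm_num [Finset.sum_range_succ, Nat.factorial]
  have h2 : Real.exp (-(18 / 25) : ℝ) ≤ Real.exp (-y) := Real.exp_le_exp.2 (by linarith)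
  have h3 : Real.exp (-(18 / 25) : ℝ) = (Real.exp (18 / 25 : ℝ))⁻¹ := Real.exp_neg _
  have h4 : (243 : ℝ) / 500 ≤ (Real.exp (18 / 25 : ℝ))⁻¹ := by
    rw [show (243 : ℝ) / 500 = (500 / 243)⁻¹ by norm_num]
    exact inv_anti₀ (Real.exp_pos _) h1
  linarith

theorem pc_exp_hi {y : ℝ} (h : -(7 / 10) ≤ y) : Real.exp (-y) ≤ 2014 / 1000 := by
  have h1 : Real.exp (7 / 10 : ℝ) ≤ 2014 / 1000 := by
    have := Real.exp_bound' (x := 7 / 10) (by norm_num) (by norm_num) (n := 7) (by norm_num)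
    refine this.trans ?_
    norm_num [Finset.sum_range_succ, Nat.factorial]
  exact (Real.exp_le_exp.2 (by linarith)).trans h1

end SokamF1T

end

/-! ### Lib_MP_af4de1_f1.PCb -/

section
namespace SokamF1
end SokamF1
namespace SokamF1M
end SokamF1M
namespace SokamF1S
end SokamF1S
namespace SokamU
end SokamU
namespace SokamV3
end SokamV3
/-!
# Regime C, part b: the top waves and the combination
-/

set_option autoImplicit false

namespace SokamF1T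

open Complex SokamU SokamF1 SokamF1S SokamF1M SokamV3

/-- what is used of a top wave -/
structure TopF (r m : ℝ) (κ l : ℂ) (cm d X : ℝ) : Prop where
  cm : cm * (r + m) ≤ ‖κ + m‖
  d : ‖κ - r‖ ≤ d * r
  X : ‖l / (κ + m)‖ ≤ X

/-- the combination with the constants of regime C -/
theorem pc_two {r m L : ℝ} {κ0 κ1 l0 l1 p0 p1 P Q S : ℂ} {cm0 d0 X0 cm1 d1 X1 : ℝ} (hr : 499 / 10 ≤ r)
    (hm : 0 < m) (hL : 0 < L) (F0 : TopF r m κ0 l0 cm0 d0 X0) (F1 : TopF r m κ1 l1 cm1 d1 X1)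
    (hA : Cone (271 / 100) ((κ0 + m) * (κ1 + m))) (hD : 619 / 1000 * r ≤ ‖κ0 - κ1‖)
    (hp : 5 / 6 * L ≤ ‖p0‖) (h : (κ0 * p0 + κ1 * p1 + Q) + m * (p0 + p1 + P) = 0)
    (h0 : ‖P‖ ≤ 1 / 1000 * L) (h1 : ‖Q - r * P‖ ≤ 2 / 1000 * r * L)
    (h2 : ‖S - 2 * r * Q + r ^ (2 : ℕ) * P‖ ≤ 4 / 1000 * r ^ (2 : ℕ) * L)
    (hcm : 39 / 100 ≤ cm0) (hd : d1 ≤ 188 / 100) (hX1 : X1 ≤ 9 / 2) (hX : X0 + X1 ≤ 643 / 100) :
    0 < (((κ0 ^ (2 : ℕ) + l0) * p0 + (κ1 ^ (2 : ℕ) + l1) * p1 + S) / (κ0 * p0 + κ1 * p1 + Q) -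
      (κ0 * p0 + κ1 * p1 + Q) / (p0 + p1 + P)).re := by
  have hr0 : 0 < r := by linarith
  have hDpos : 0 < ‖κ0 - κ1‖ := lt_of_lt_of_le (by positivity) hD
  refine comb (H := r) (L := L) (b0 := 1 / 1000) (b1 := 2 / 1000) (b2 := 4 / 1000) (cT := 5 / 6)
    (cD := 619 / 1000) (cm := 39 / 100) (d := 188 / 100) (e := 198 / 100) (tA := 271 / 100) (χ := 21 / 100)
    (b := 1 / 100) (ν := 27 / 100) hm hr0 hr0 hL h (by norm_num) (by norm_num) (by norm_num)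
    (by norm_num) (by norm_num) hp (by norm_num) hA hD ?_ ?_ ?_ ?_ h0 h1 h2 (by norm_num) (by norm_num) ?_
    (by norm_num) ?_
  · exact (mul_le_mul_of_nonneg_right hcm (by linarith)).trans F0.cm
  · exact F1.d.trans (mul_le_mul_of_nonneg_right hd hr0.le)
  · have e1 : κ1 + l1 / (κ1 + m) - r = (κ1 - r) + l1 / (κ1 + m) := by ring
    rw [e1]
    refine (norm_add_le _ _).trans ?_
    have := F1.d.trans (mul_le_mul_of_nonneg_right hd hr0.le)
    have := F1.X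
    linarith
  · rw [norm_div, div_le_iff₀ hDpos]
    refine (norm_sub_le _ _).trans ?_
    have := F0.X
    have := F1.X
    nlinarith
  · rw [div_self hr0.ne']
    norm_num
  · have s1 : (27 / 100 : ℝ) / √(1 - (27 / 100) ^ (2 : ℕ)) ≤ 29 / 100 := by
      rw [div_le_iff₀ (by norm_num)]
      have : (94 / 100 : ℝ) ≤ √(1 - (27 / 100) ^ (2 : ℕ)) := Real.le_sqrt_of_sq_le (by norm_num)
      linarith
    have s2 : (1 / 100 : ℝ) / √(1 - (1 / 100) ^ (2 : ℕ)) ≤ 2 / 100 := by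
      rw [div_le_iff₀ (by norm_num)]
      have : (9 / 10 : ℝ) ≤ √(1 - (1 / 100) ^ (2 : ℕ)) := Real.le_sqrt_of_sq_le (by norm_num)
      linarith
    have t1 : (0 : ℝ) ≤ (27 / 100 : ℝ) / √(1 - (27 / 100) ^ (2 : ℕ)) := by positivity
    have t2 : (0 : ℝ) ≤ (1 / 100 : ℝ) / √(1 - (1 / 100) ^ (2 : ℕ)) := by positivity
    nlinarith only [s1, s2, t1]

/-- the own wave -/
theorem pc_own {r δ y k : ℝ} (hy : -1 < y)
    (h : Own r δ y (1 / 6) k (9 / 5 * (‖kap r δ y‖ / sD (r * δ) y))) :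
    V0 r δ y 0 ≠ 0 ∧ 5 / 6 * sM r δ y ≤ ‖V0 r δ y 0‖ ∧ ‖V1 r δ y 0 / V0 r δ y 0 - kap r δ y‖ ≤ k ∧
      ‖V2 r δ y 0 / V0 r δ y 0 - (V1 r δ y 0 / V0 r δ y 0) ^ (2 : ℕ)‖ ≤
        9 / 5 * (‖kap r δ y‖ / sD (r * δ) y) + k ^ (2 : ℕ) := by
  have hM : 0 < sM r δ y := sM_pos hy
  have h0 : 5 / 6 * sM r δ y ≤ ‖V0 r δ y 0‖ := by
    have := h.o0
    linarith
  have hpos : 0 < ‖V0 r δ y 0‖ := lt_of_lt_of_le (by positivity) h0
  have hne : V0 r δ y 0 ≠ 0 := norm_pos_iff.1 hpos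
  have h1 : ‖V1 r δ y 0 / V0 r δ y 0 - kap r δ y‖ ≤ k := by
    have e1 : V1 r δ y 0 / V0 r δ y 0 - kap r δ y = (V1 r δ y 0 - kap r δ y * V0 r δ y 0) / V0 r δ y 0 := by
      field_simp
    rw [e1, norm_div, div_le_iff₀ hpos]
    exact h.o1
  refine ⟨hne, h0, h1, ?_⟩
  have e2 : V2 r δ y 0 / V0 r δ y 0 - (V1 r δ y 0 / V0 r δ y 0) ^ (2 : ℕ) =
      (V2 r δ y 0 - 2 * kap r δ y * V1 r δ y 0 + kap r δ y ^ (2 : ℕ) * V0 r δ y 0) / V0 r δ y 0 -
        (V1 r δ y 0 / V0 r δ y 0 - kap r δ y) ^ (2 : ℕ) := by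
    field_simp
    ring
  rw [e2]
  refine (norm_sub_le _ _).trans (add_le_add ?_ ?_)
  · rw [norm_div, div_le_iff₀ hpos]
    exact h.o2
  · rw [norm_pow]
    exact pow_le_pow_left₀ (norm_nonneg _) h1 2

/-- `|κ + m|` from `kap` -/
theorem pc_cm {r m k c a : ℝ} {κ κs : ℂ} (hr : 499 / 10 ≤ r) (hm : 0 < m) (ha0 : 0 ≤ a) (ha : a ≤ 1)
    (hk : ‖κ - κs‖ ≤ k) (hk0 : 0 ≤ k) (hre : 11 / 25 * ‖κs‖ ≤ κs.re) (hn : a * r ≤ ‖κs‖)
    (hc : c ≤ 848 / 1000 * a - k * (10 / 499)) : c * (r + m) ≤ ‖κ + m‖ := by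
  have h1 : 848 / 1000 * (‖κs‖ + m) ≤ ‖κs + m‖ := by
    refine comb_le_norm (by norm_num) (by norm_num) ?_ hm.le
    refine le_trans ?_ hre
    have := norm_nonneg κs
    linarith only [this]
  have h2 : ‖κs + m‖ ≤ ‖κ + m‖ + k := by
    have e : κs + m = (κ + m) - (κ - κs) := by ring
    rw [e]
    exact (norm_sub_le _ _).trans (by linarith)
  have h3 : c * (r + m) ≤ (848 / 1000 * a - k * (10 / 499)) * (r + m) :=
    mul_le_mul_of_nonneg_right hc (by linarith)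
  have h4 : k ≤ k * (10 / 499) * (r + m) := by nlinarith only [hr, hm, hk0]
  have h5 : a * m ≤ m := mul_le_of_le_one_left hm.le ha
  linarith only [hn, h1, h2, h3, h4, h5]

/-- the positive top -/
theorem pc_pos {r δ y m : ℝ} (hr : 499 / 10 ≤ r) (hδ : 0 < δ) (hm : 0 < m) (hD : DD (r * δ) y) (hy : 0 ≤ y)
    (h : Own r δ y (1 / 6) 1 (9 / 5 * (‖kap r δ y‖ / sD (r * δ) y))) :
    TopF r m (V1 r δ y 0 / V0 r δ y 0) (V2 r δ y 0 / V0 r δ y 0 - (V1 r δ y 0 / V0 r δ y 0) ^ (2 : ℕ))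
      (39 / 100) (108 / 100) (193 / 100) := by
  obtain ⟨hne, h0, h1, h2⟩ := pc_own (by linarith) h
  set κ := V1 r δ y 0 / V0 r δ y 0
  set l := V2 r δ y 0 / V0 r δ y 0 - κ ^ (2 : ℕ)
  have hK := pc_norm_kap hδ hD.dom
  have hre : 11 / 25 * ‖kap r δ y‖ ≤ (kap r δ y).re := by
    have := pc_re hD
    rw [pc_kap_re, le_div_iff₀ hδ, hK]
    rw [norm_sK hD.dom] at this
    linarith
  have hK1 : 243 / 500 * r ≤ ‖kap r δ y‖ := by
    rw [hK, mul_comm]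
    exact mul_le_mul_of_nonneg_left (pc_exp_lo hD.y1) (by linarith)
  have hK2 : ‖kap r δ y‖ ≤ r := by
    rw [hK]
    refine mul_le_of_le_one_right (by linarith) ?_
    exact Real.exp_le_one_iff.2 (by linarith)
  set K := ‖kap r δ y‖
  have hre0 : 0 ≤ (kap r δ y).re := le_trans (by positivity) hre
  have hkm : K - 1 ≤ ‖κ + m‖ := by
    have h3 := comb_norm_le hre0 hm.le
    have h4 : ‖kap r δ y + m‖ ≤ ‖κ + m‖ + 1 := by
      have e : kap r δ y + m = (κ + m) - (κ - kap r δ y) := by ring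
      rw [e]
      exact (norm_sub_le _ _).trans (by linarith)
    linarith
  have hKr : 2425 / 100 ≤ K := by linarith only [hr, hK1]
  refine ⟨?_, ?_, ?_⟩
  · exact pc_cm hr hm (by norm_num) (by norm_num) h1 (by norm_num) hre hK1 (by norm_num)
  · have h3 : ‖kap r δ y - r‖ ≤ 10584 / 10000 * r := by
      refine abs_le_of_sq_le_sq' ?_ (by linarith) |>.2
      have e : ‖kap r δ y - r‖ ^ (2 : ℕ) = K ^ (2 : ℕ) - 2 * r * (kap r δ y).re + r ^ (2 : ℕ) := by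
        have e1 : K ^ (2 : ℕ) = (kap r δ y).re ^ (2 : ℕ) + (kap r δ y).im ^ (2 : ℕ) := by
          rw [Complex.sq_norm, Complex.normSq_apply]; ring
        rw [e1, Complex.sq_norm, Complex.normSq_apply]
        simp only [Complex.sub_re, Complex.sub_im, Complex.ofReal_re, Complex.ofReal_im, sub_zero]
        ring
      rw [e]
      nlinarith only [hre, hK1, hK2]
    have e : κ - r = (κ - kap r δ y) + (kap r δ y - r) := by ring
    rw [e]
    refine (norm_add_le _ _).trans ?_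
    linarith
  · rw [norm_div, div_le_iff₀ (by linarith)]
    have hsD : 1 ≤ sD (r * δ) y := by
      unfold sD
      exact Real.one_le_sqrt.2 (pc_D_pos hy)
    have h3 : K / sD (r * δ) y ≤ K := div_le_self (norm_nonneg _) hsD
    linarith only [h2, hkm, hKr, h3]

/-- the negative top -/
theorem pc_neg {r δ y m : ℝ} (hr : 499 / 10 ≤ r) (hδ : 0 < δ) (hm : 0 < m) (hD : DD (r * δ) y) (hy : y ≤ 0)
    (h : Own r δ y (1 / 6) 3 (9 / 5 * (‖kap r δ y‖ / sD (r * δ) y))) :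
    TopF r m (V1 r δ y 0 / V0 r δ y 0) (V2 r δ y 0 / V0 r δ y 0 - (V1 r δ y 0 / V0 r δ y 0) ^ (2 : ℕ))
      (78 / 100) (188 / 100) (9 / 2) := by
  obtain ⟨hne, h0, h1, h2⟩ := pc_own (by have := hD.y0; linarith) h
  set κ := V1 r δ y 0 / V0 r δ y 0
  set l := V2 r δ y 0 / V0 r δ y 0 - κ ^ (2 : ℕ)
  have hK := pc_norm_kap hδ hD.dom
  have hre : 11 / 25 * ‖kap r δ y‖ ≤ (kap r δ y).re := by
    have := pc_re hD
    rw [pc_kap_re, le_div_iff₀ hδ, hK]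
    rw [norm_sK hD.dom] at this
    linarith
  have hK1 : r ≤ ‖kap r δ y‖ := by
    rw [hK]
    refine le_mul_of_one_le_right (by linarith) ?_
    exact Real.one_le_exp (by linarith)
  have hK2 : ‖kap r δ y‖ ≤ 2014 / 1000 * r := by
    rw [hK, mul_comm]
    exact mul_le_mul_of_nonneg_right (pc_exp_hi hD.y0) (by linarith)
  set K := ‖kap r δ y‖
  have hre0 : 0 ≤ (kap r δ y).re := le_trans (by positivity) hre
  have hkm : K - 3 ≤ ‖κ + m‖ := by
    have h3 := comb_norm_le hre0 hm.le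
    have h4 : ‖kap r δ y + m‖ ≤ ‖κ + m‖ + 3 := by
      have e : kap r δ y + m = (κ + m) - (κ - kap r δ y) := by ring
      rw [e]
      exact (norm_sub_le _ _).trans (by linarith)
    linarith
  refine ⟨?_, ?_, ?_⟩
  · exact pc_cm hr hm (by norm_num) le_rfl h1 (by norm_num) hre (by linarith) (by norm_num)
  · have h3 : ‖kap r δ y - r‖ ≤ 1813 / 1000 * r := by
      refine abs_le_of_sq_le_sq' ?_ (by linarith) |>.2
      have e : ‖kap r δ y - r‖ ^ (2 : ℕ) = K ^ (2 : ℕ) - 2 * r * (kap r δ y).re + r ^ (2 : ℕ) := by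
        have e1 : K ^ (2 : ℕ) = (kap r δ y).re ^ (2 : ℕ) + (kap r δ y).im ^ (2 : ℕ) := by
          rw [Complex.sq_norm, Complex.normSq_apply]; ring
        rw [e1, Complex.sq_norm, Complex.normSq_apply]
        simp only [Complex.sub_re, Complex.sub_im, Complex.ofReal_re, Complex.ofReal_im, sub_zero]
        ring
      rw [e]
      have h4 : 2 * r * (11 / 25 * K) ≤ 2 * r * (kap r δ y).re :=
        mul_le_mul_of_nonneg_left hre (by linarith)
      have h5 : 0 ≤ (2014 / 1000 * r - K) * (K + 2014 / 1000 * r - 22 / 25 * r) :=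
        mul_nonneg (by linarith) (by linarith)
      nlinarith only [h4, h5]
    have e : κ - r = (κ - kap r δ y) + (kap r δ y - r) := by ring
    rw [e]
    refine (norm_add_le _ _).trans ?_
    linarith
  · rw [norm_div, div_le_iff₀ (by linarith)]
    have hsD : 447 / 1000 ≤ sD (r * δ) y := by
      unfold sD
      refine Real.le_sqrt_of_sq_le ?_
      have := pc_D hD
      linarith
    have h3 : K / sD (r * δ) y ≤ K * (1000 / 447) := by
      rw [div_le_iff₀ (by linarith)]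
      have : 0 ≤ K := norm_nonneg _
      nlinarith only [hsD, this]
    linarith only [hr, h2, hK1, hkm, h3]

/-- the cone -/
theorem pc_cone {r δ yp yn m : ℝ} {κp κn : ℂ} (hr : 499 / 10 ≤ r) (hδ : 0 < δ) (hm : 0 < m)
    (hDp : DD (r * δ) yp) (hyp : 0 ≤ yp) (hDn : DD (r * δ) yn) (hyn : yn ≤ 0)
    (hp : ‖κp - kap r δ yp‖ ≤ 1) (hn : ‖κn - kap r δ yn‖ ≤ 3) :
    Cone (271 / 100) ((κp + m) * (κn + m)) := by
  have hKp := pc_norm_kap hδ hDp.dom
  have hKn := pc_norm_kap hδ hDn.dom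
  have hK1 : 2425 / 100 ≤ ‖kap r δ yp‖ := by
    rw [hKp]
    have := pc_exp_lo hDp.y1
    nlinarith only [hr, this]
  have hK2 : 499 / 10 ≤ ‖kap r δ yn‖ := by
    rw [hKn]
    have : 1 ≤ Real.exp (-yn) := Real.one_le_exp (by linarith)
    nlinarith only [hr, this]
  have hre : ∀ y : ℝ, 0 ≤ (kap r δ y).re := fun y => by
    rw [pc_kap_re]; exact div_nonneg (sx_nonneg _ _) hδ.le
  have him : ∀ y : ℝ, DD (r * δ) y → |(kap r δ y).im| ≤ 2041 / 1000 * (kap r δ y).re := fun y hy => by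
    rw [pc_kap_im, pc_kap_re, abs_div, abs_of_pos hδ, mul_div_assoc']
    exact div_le_div_of_nonneg_right (pc_tan hy) hδ.le
  have c1 : Cone (2041 / 1000) ((kap r δ yp + m) * (kap r δ yn + m)) := by
    refine (Cone.add_pos (by norm_num) (him yp hDp) (hre yp) hm).opp
      (Cone.add_pos (by norm_num) (him yn hDn) (hre yn) hm) (by norm_num) ?_ ?_
    · simp only [Complex.add_im, Complex.ofReal_im, add_zero]
      rw [pc_kap_im]
      positivity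
    · simp only [Complex.add_im, Complex.ofReal_im, add_zero]
      rw [pc_kap_im]
      exact div_nonpos_of_nonpos_of_nonneg hyn hδ.le
  have hkp : 2425 / 100 ≤ ‖kap r δ yp + m‖ := hK1.trans (comb_norm_le (hre yp) hm.le)
  have hkn : 499 / 10 ≤ ‖kap r δ yn + m‖ := hK2.trans (comb_norm_le (hre yn) hm.le)
  have hp0 : kap r δ yp + m ≠ 0 := norm_pos_iff.1 (by linarith)
  have hn0 : kap r δ yn + m ≠ 0 := norm_pos_iff.1 (by linarith)
  have e1 : ‖(κp - kap r δ yp) / (kap r δ yp + m)‖ ≤ 4124 / 100000 := by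
    rw [norm_div, div_le_iff₀ (by linarith)]
    linarith
  have e2 : ‖(κn - kap r δ yn) / (kap r δ yn + m)‖ ≤ 6013 / 100000 := by
    rw [norm_div, div_le_iff₀ (by linarith)]
    linarith
  have s1 : (4124 / 100000 : ℝ) / √(1 - (4124 / 100000) ^ (2 : ℕ)) ≤ 413 / 10000 := by
    rw [div_le_iff₀ (by norm_num)]
    have : (999 / 1000 : ℝ) ≤ √(1 - (4124 / 100000) ^ (2 : ℕ)) := Real.le_sqrt_of_sq_le (by norm_num)
    linarith
  have s2 : (6013 / 100000 : ℝ) / √(1 - (6013 / 100000) ^ (2 : ℕ)) ≤ 603 / 10000 := by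
    rw [div_le_iff₀ (by norm_num)]
    have : (998 / 1000 : ℝ) ≤ √(1 - (6013 / 100000) ^ (2 : ℕ)) := Real.le_sqrt_of_sq_le (by norm_num)
    linarith
  have c2 := (Cone.one_add (by norm_num) e1).mono s1
  have c3 := (Cone.one_add (by norm_num) e2).mono s2
  have c4 := (c1.mul c2 (by norm_num) (by norm_num) (by norm_num)).mono
    (t := 2275 / 1000) (by norm_num)
  have c5 := (c4.mul c3 (by norm_num) (by norm_num) (by norm_num)).mono
    (t := 271 / 100) (by norm_num)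
  have e3 : (κp + m) * (κn + m) = (kap r δ yp + m) * (kap r δ yn + m) *
      (1 + (κp - kap r δ yp) / (kap r δ yp + m)) * (1 + (κn - kap r δ yn) / (kap r δ yn + m)) := by
    field_simp
    ring
  rw [e3]
  exact c5

end SokamF1T

end

/-! ### Lib_MP_af4de1_f1.PCc -/

section
namespace SokamF1
end SokamF1
namespace SokamF1M
end SokamF1M
namespace SokamF1S
end SokamF1S
namespace SokamU
end SokamU
namespace SokamV3
end SokamV3
/-!
# Regime C, part c: `PC` from the localisation, the own wave and the far waves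
-/

set_option autoImplicit false

namespace SokamF1T

open Complex SokamU SokamF1 SokamF1S SokamF1M SokamV3

theorem pc_N {N : ℕ} {r δ : ℝ} (h : RegC N r δ) : N ≤ 5 := by
  by_contra hN
  push Not at hN
  have h1 := h.C
  have hN6 : (6 : ℝ) ≤ N := by exact_mod_cast hN
  have h2 : hst N ≤ 2 * Real.pi / 6 := by
    unfold hst
    exact div_le_div_of_nonneg_left (by have := Real.pi_pos; positivity) (by norm_num) hN6
  have h0 : 0 ≤ hst N := by unfold hst; have := Real.pi_pos; positivity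
  have h3 : hst N ^ (2 : ℕ) ≤ (2 * Real.pi / 6) ^ (2 : ℕ) := pow_le_pow_left₀ h0 h2 2
  have hpi := Real.pi_lt_d4
  have hpi0 := Real.pi_pos
  have h4 : 1 ≤ RR r δ := by unfold RR; nlinarith only []
  nlinarith only [h1, h3, hpi, hpi0, h4]

theorem pc_rho {N : ℕ} {r δ : ℝ} (h : RegC N r δ) : r * δ ≤ 173 / 100 := by
  have h1 := h.C
  have hN3 : (3 : ℝ) ≤ N := by exact_mod_cast h.N3
  have h2 : hst N ≤ 2 * Real.pi / 3 := by
    unfold hst
    exact div_le_div_of_nonneg_left (by have := Real.pi_pos; positivity) (by norm_num) hN3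
  have h0 : 0 ≤ hst N := by unfold hst; have := Real.pi_pos; positivity
  have h3 : hst N ^ (2 : ℕ) ≤ (2 * Real.pi / 3) ^ (2 : ℕ) := pow_le_pow_left₀ h0 h2 2
  have hpi := Real.pi_lt_d4
  have hpi0 := Real.pi_pos
  unfold RR at h1
  have h5 : (r * δ) ^ (2 : ℕ) ≤ (173 / 100) ^ (2 : ℕ) := by nlinarith only [h1, h3, hpi, hpi0]
  exact (abs_le_of_sq_le_sq' h5 (by norm_num)).2

theorem pc_window {N : ℕ} (hN : 3 ≤ N) (f : ℤ → ℂ) :
    ∑ j ∈ Finset.Ico (-1 : ℤ) (-1 + N), f j =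
      f (-1) + f 0 + ∑ j ∈ Finset.Ico (1 : ℤ) (-1 + N), f j := by
  have e : Finset.Ico (-1 : ℤ) (-1 + N) = insert (-1) (insert 0 (Finset.Ico (1 : ℤ) (-1 + N))) := by
    ext j
    simp only [Finset.mem_Ico, Finset.mem_insert]
    omega
  rw [e, Finset.sum_insert (by simp), Finset.sum_insert (by simp)]
  ring

theorem pc_far_sum {J : Finset ℤ} (hJ : J.card ≤ 3) {c a : ℤ → ℂ} {g0 B : ℝ} (hg : 0 ≤ g0) (hB : 0 ≤ B)
    (hc : ∀ j, ‖c j‖ = g0) (ha : ∀ j ∈ J, ‖a j‖ ≤ B) : ‖∑ j ∈ J, c j * a j‖ ≤ 3 * (g0 * B) := by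
  have h1 : ∀ j ∈ J, ‖c j * a j‖ ≤ g0 * B := fun j hj => by
    rw [norm_mul, hc j]
    exact mul_le_mul_of_nonneg_left (ha j hj) hg
  have h2 := norm_sum_le_of_le J h1
  rw [Finset.sum_const, nsmul_eq_mul] at h2
  have h3 : (J.card : ℝ) ≤ 3 := by exact_mod_cast hJ
  exact h2.trans (mul_le_mul_of_nonneg_right h3 (by positivity))

/-- the three far sums -/
theorem pc_far {J : Finset ℤ} (hJ : J.card ≤ 3) {c a0 a1 a2 : ℤ → ℂ} {g0 r M : ℝ} (hg : 0 ≤ g0) (hr : 0 ≤ r)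
    (hM : 0 ≤ M) (hc : ∀ j, ‖c j‖ = g0)
    (ha : ∀ j ∈ J, ‖a0 j‖ ≤ 1 / 3000 * M ∧ ‖a1 j‖ ≤ 1 / 3000 * r * M ∧ ‖a2 j‖ ≤ 1 / 3000 * r ^ (2 : ℕ) * M) :
    ‖∑ j ∈ J, c j * a0 j‖ ≤ 1 / 1000 * (g0 * M) ∧
    ‖∑ j ∈ J, c j * a1 j - r * ∑ j ∈ J, c j * a0 j‖ ≤ 2 / 1000 * r * (g0 * M) ∧
    ‖∑ j ∈ J, c j * a2 j - 2 * r * ∑ j ∈ J, c j * a1 j + r ^ (2 : ℕ) * ∑ j ∈ J, c j * a0 j‖ ≤
      4 / 1000 * r ^ (2 : ℕ) * (g0 * M) := by
  refine ⟨?_, ?_, ?_⟩
  · refine (pc_far_sum hJ hg (by positivity) hc fun j hj => (ha j hj).1).trans (le_of_eq (by ring))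
  · have e : ∑ j ∈ J, c j * a1 j - r * ∑ j ∈ J, c j * a0 j = ∑ j ∈ J, c j * (a1 j - r * a0 j) := by
      rw [Finset.mul_sum, ← Finset.sum_sub_distrib]
      exact Finset.sum_congr rfl fun j _ => by ring
    rw [e]
    refine (pc_far_sum (B := 2 / 3000 * r * M) hJ hg (by positivity) hc fun j hj => ?_).trans
      (le_of_eq (by ring))
    obtain ⟨h0, h1, -⟩ := ha j hj
    have h3 : ‖(r : ℂ) * a0 j‖ ≤ r * (1 / 3000 * M) := by
      rw [norm_mul, Complex.norm_real, Real.norm_of_nonneg hr]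
      exact mul_le_mul_of_nonneg_left h0 hr
    have := norm_sub_le (a1 j) (r * a0 j)
    linarith only [h1, h3, this]
  · have e : ∑ j ∈ J, c j * a2 j - 2 * r * ∑ j ∈ J, c j * a1 j + r ^ (2 : ℕ) * ∑ j ∈ J, c j * a0 j =
        ∑ j ∈ J, c j * (a2 j - 2 * r * a1 j + r ^ (2 : ℕ) * a0 j) := by
      rw [Finset.mul_sum, Finset.mul_sum, ← Finset.sum_sub_distrib, ← Finset.sum_add_distrib]
      exact Finset.sum_congr rfl fun j _ => by ring
    rw [e]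
    refine (pc_far_sum (B := 4 / 3000 * r ^ (2 : ℕ) * M) hJ hg (by positivity) hc fun j hj => ?_).trans
      (le_of_eq (by ring))
    obtain ⟨h0, h1, h2⟩ := ha j hj
    have h3 : ‖(r : ℂ) ^ (2 : ℕ) * a0 j‖ ≤ r ^ (2 : ℕ) * (1 / 3000 * M) := by
      rw [norm_mul, norm_pow, Complex.norm_real, Real.norm_of_nonneg hr]
      exact mul_le_mul_of_nonneg_left h0 (by positivity)
    have h4 : ‖2 * (r : ℂ) * a1 j‖ ≤ 2 * r * (1 / 3000 * r * M) := by
      rw [norm_mul, norm_mul, Complex.norm_real, Real.norm_of_nonneg hr, Complex.norm_ofNat]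
      exact mul_le_mul_of_nonneg_left h1 (by positivity)
    have := norm_add_le (a2 j - 2 * r * a1 j) ((r : ℂ) ^ (2 : ℕ) * a0 j)
    have := norm_sub_le (a2 j) (2 * (r : ℂ) * a1 j)
    linarith

theorem pc_y_nonneg {ρ y : ℝ} (h : DD ρ y) (hs : 0 ≤ sE ρ y) : 0 ≤ y := by
  by_contra hy
  push Not at hy
  have hρ := h.dom.pos
  have hy0 := h.y0
  have := sE_strictMonoOn h.dom (dom_zero hρ) (by linarith : -1 ≤ y)
    (Set.left_mem_Icc.2 hy.le) (Set.right_mem_Icc.2 hy.le) hy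
  rw [sE_zero hρ] at this
  linarith only [hs, this]

theorem pc_y_neg {ρ y : ℝ} (h : DD ρ y) (hs : sE ρ y < 0) : y < 0 := by
  by_contra hy
  push Not at hy
  have hρ := h.dom.pos
  rcases hy.eq_or_lt with h0 | h0
  · rw [← h0, sE_zero hρ] at hs
    exact lt_irrefl _ hs
  · have := sE_strictMonoOn (dom_zero hρ) h.dom (by norm_num : (-1 : ℝ) ≤ 0)
      (Set.left_mem_Icc.2 h0.le) (Set.right_mem_Icc.2 h0.le) h0
    rw [sE_zero hρ] at this
    linarith only [hs, this]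

/-- **Regime C** from the localisation, the own wave and the far waves. -/
theorem pc_of
    (hloc : ∀ {N : ℕ} {r del x m : ℝ}, RegC N r del → 0 ≤ x → x < 1 → 0 < m →
      (¬ ∃ y0 y1, DD (r * del) y0 ∧ sE (r * del) y0 = x * hst N ∧ DD (r * del) y1 ∧
        sE (r * del) y1 = (x - 1) * hst N) →
      ∃ j0 ∈ Finset.Ico (-1 : ℤ) (-1 + N), ∑ i ∈ (Finset.Ico (-1 : ℤ) (-1 + N)).erase j0,
        ‖W1 r del ((x + i) * hst N) + m * W0 r del ((x + i) * hst N)‖ <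
        ‖W1 r del ((x + j0) * hst N) + m * W0 r del ((x + j0) * hst N)‖)
    (hown : ∀ {r d y : ℝ}, 499 / 10 ≤ r → 0 < d → r * d ≤ 173 / 100 → DD (r * d) y →
      Own r d y (1 / 6) (if 0 ≤ y then 1 else 3) (9 / 5 * (‖kap r d y‖ / sD (r * d) y)))
    (hfar : ∀ {N : ℕ} {r del x y : ℝ}, RegC N r del → 0 ≤ x → x < 1 → DD (r * del) y →
      (sE (r * del) y = x * hst N ∨ sE (r * del) y = (x - 1) * hst N) →
      (|sE (r * del) y| ≤ hst N / 2 ∨ (N = 3 ∧ |sE (r * del) y| ≤ 2 * Real.pi / 3 - 24 / 25)) →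
      ∀ {i : ℤ}, 1 ≤ i → i < -1 + N →
      ‖W0 r del ((x + i) * hst N)‖ ≤ 1 / 3000 * Mm r (r * del) y ∧
      ‖W1 r del ((x + i) * hst N)‖ ≤ 1 / 3000 * r * Mm r (r * del) y ∧
      ‖W2 r del ((x + i) * hst N)‖ ≤ 1 / 3000 * r ^ (2 : ℕ) * Mm r (r * del) y) : PC := by
  intro N r δ hR x g0 m c hx0 hx1 hg0 hc hm hF hT
  have hr := hR.r0
  have hδ := hR.d0
  have hr0 : 0 < r := by linarith only [hr]
  have hN3 := hR.N3
  have hh : 0 < hst N := by
    unfold hst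
    have : (0 : ℝ) < N := by exact_mod_cast (by omega : 0 < N)
    have := Real.pi_pos
    positivity
  -- both tops in `DD`
  have hex : ∃ y0 y1, DD (r * δ) y0 ∧ sE (r * δ) y0 = x * hst N ∧ DD (r * δ) y1 ∧
      sE (r * δ) y1 = (x - 1) * hst N := by
    by_contra hnot
    obtain ⟨j0, hj0, hlt⟩ := hloc hR hx0 hx1 hm hnot
    have h1 : ∑ j ∈ Finset.Ico (-1 : ℤ) (-1 + N), c j * (W1 r δ ((x + j) * hst N) +
        m * W0 r δ ((x + j) * hst N)) = 0 := by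
      rw [← hT, Finset.mul_sum, ← Finset.sum_add_distrib]
      refine Finset.sum_congr rfl fun j _ => ?_
      unfold W1 W0 wj
      ring
    rw [← Finset.add_sum_erase _ _ hj0] at h1
    have h2 : ‖c j0 * (W1 r δ ((x + j0) * hst N) + m * W0 r δ ((x + j0) * hst N))‖ ≤
        ∑ i ∈ (Finset.Ico (-1 : ℤ) (-1 + N)).erase j0, g0 *
          ‖W1 r δ ((x + i) * hst N) + m * W0 r δ ((x + i) * hst N)‖ := by
      rw [eq_neg_of_add_eq_zero_left h1, norm_neg]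
      refine (norm_sum_le _ _).trans (le_of_eq (Finset.sum_congr rfl fun i _ => ?_))
      rw [norm_mul, hc i]
    rw [norm_mul, hc j0, ← Finset.mul_sum] at h2
    have h3 := le_of_mul_le_mul_left h2 hg0
    linarith only [hlt, h3]
  obtain ⟨y0, y1, hD0, hs0, hD1, hs1⟩ := hex
  have hy0 : 0 ≤ y0 := pc_y_nonneg hD0 (by rw [hs0]; positivity)
  have hy1 : y1 < 0 := pc_y_neg hD1 (by rw [hs1]; exact mul_neg_of_neg_of_pos (by linarith only [hx1]) hh)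
  have hρ := pc_rho hR
  have own0 := hown hr hδ hρ hD0
  have own1 := hown hr hδ hρ hD1
  rw [if_pos hy0] at own0
  rw [if_neg (not_le.2 hy1)] at own1
  obtain ⟨n0, s0, k0, -⟩ := pc_own (by linarith only [hy0]) own0
  obtain ⟨n1, s1, k1, -⟩ := pc_own (by have := hD1.y0; linarith only [this]) own1
  have T0 := pc_pos hr hδ hm hD0 hy0 own0
  have T1 := pc_neg hr hδ hm hD1 hy1.le own1
  rw [sM_eq_Mm hr0 hδ (by linarith only [hy0])] at s0
  rw [sM_eq_Mm hr0 hδ (by have := hD1.y0; linarith only [this])] at s1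
  have hcone := pc_cone hr hδ hm hD0 hy0 hD1 hy1.le k0 k1
  -- the values
  have e00 : V0 r δ y0 0 = W0 r δ ((x + (0 : ℤ)) * hst N) := by
    unfold V0 W0; rw [hs0]; norm_num
  have e01 : V1 r δ y0 0 = W1 r δ ((x + (0 : ℤ)) * hst N) := by
    unfold V1 W1; rw [hs0]; norm_num
  have e02 : V2 r δ y0 0 = W2 r δ ((x + (0 : ℤ)) * hst N) := by
    unfold V2 W2; rw [hs0]; norm_num
  have e10 : V0 r δ y1 0 = W0 r δ ((x + (-1 : ℤ)) * hst N) := by
    unfold V0 W0; rw [hs1]; norm_num; ring_nf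
  have e11 : V1 r δ y1 0 = W1 r δ ((x + (-1 : ℤ)) * hst N) := by
    unfold V1 W1; rw [hs1]; norm_num; ring_nf
  have e12 : V2 r δ y1 0 = W2 r δ ((x + (-1 : ℤ)) * hst N) := by
    unfold V2 W2; rw [hs1]; norm_num; ring_nf
  set κ0 := V1 r δ y0 0 / V0 r δ y0 0 with hκ0
  set κ1 := V1 r δ y1 0 / V0 r δ y1 0 with hκ1
  set l0 := V2 r δ y0 0 / V0 r δ y0 0 - κ0 ^ (2 : ℕ) with hl0
  set l1 := V2 r δ y1 0 / V0 r δ y1 0 - κ1 ^ (2 : ℕ) with hl1
  -- the distance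
  have hpair : 619 / 1000 * r ≤ ‖κ0 - κ1‖ := by
    have h1 := pairC hR (y0 := y0) (y1 := y1) (η := x * hst N)
      ⟨hD0.dom, by linarith only [hy0], hs0⟩ ⟨hD1.dom, by have := hD1.y0; linarith only [this], by rw [hs1]; ring⟩ hy0 hy1.le
    have h2 : ‖kap r δ y0 - kap r δ y1‖ ≤ ‖κ0 - κ1‖ + 1 + 3 := by
      have e : kap r δ y0 - kap r δ y1 = (κ0 - κ1) - (κ0 - kap r δ y0) + (κ1 - kap r δ y1) := by ring
      rw [e]
      refine (norm_add_le _ _).trans ?_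
      have := norm_sub_le (κ0 - κ1) (κ0 - kap r δ y0)
      linarith only [k0, k1, this]
    linarith only [hr, h1, h2]
  -- the sums
  set J := Finset.Ico (1 : ℤ) (-1 + N) with hJ
  have hcard : J.card ≤ 3 := by
    have := pc_N hR
    rw [hJ, Int.card_Ico]
    omega
  set p0 := c 0 * V0 r δ y0 0 with hp0
  set p1 := c (-1) * V0 r δ y1 0 with hp1
  have f0 : ∑ j ∈ Finset.Ico (-1 : ℤ) (-1 + N), c j * E (tt δ) (wj N r δ x j) =
      p1 + p0 + ∑ j ∈ J, c j * W0 r δ ((x + j) * hst N) := by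
    rw [pc_window hN3, hp0, hp1, e00, e10]
    rfl
  have f1 : ∑ j ∈ Finset.Ico (-1 : ℤ) (-1 + N), c j * DE (tt δ) (wj N r δ x j) =
      κ1 * p1 + κ0 * p0 + ∑ j ∈ J, c j * W1 r δ ((x + j) * hst N) := by
    have g0' : κ0 * p0 = c 0 * V1 r δ y0 0 := by rw [hp0, hκ0]; field_simp
    have g1' : κ1 * p1 = c (-1) * V1 r δ y1 0 := by rw [hp1, hκ1]; field_simp
    rw [pc_window hN3, g0', g1', e01, e11]
    rfl
  have f2 : ∑ j ∈ Finset.Ico (-1 : ℤ) (-1 + N), c j * SokamBPlus.D2E (tt δ) (wj N r δ x j) =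
      (κ1 ^ (2 : ℕ) + l1) * p1 + (κ0 ^ (2 : ℕ) + l0) * p0 + ∑ j ∈ J, c j * W2 r δ ((x + j) * hst N) := by
    have g0' : (κ0 ^ (2 : ℕ) + l0) * p0 = c 0 * V2 r δ y0 0 := by
      rw [hl0, hp0]; field_simp; ring
    have g1' : (κ1 ^ (2 : ℕ) + l1) * p1 = c (-1) * V2 r δ y1 0 := by
      rw [hl1, hp1]; field_simp; ring
    rw [pc_window hN3, g0', g1', e02, e12]
    rfl
  rw [f0, f1] at hT
  rw [f0, f1, f2]
  have hMp : ∀ y : ℝ, -1 < y → 0 < Mm r (r * δ) y := fun y hy => by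
    rw [← sM_eq_Mm hr0 hδ hy]
    exact sM_pos hy
  rcases le_total x (1 / 2) with hx | hx
  · -- reference: the positive top
    have hfar' : ∀ j ∈ J, ‖W0 r δ ((x + j) * hst N)‖ ≤ 1 / 3000 * Mm r (r * δ) y0 ∧
        ‖W1 r δ ((x + j) * hst N)‖ ≤ 1 / 3000 * r * Mm r (r * δ) y0 ∧
        ‖W2 r δ ((x + j) * hst N)‖ ≤ 1 / 3000 * r ^ (2 : ℕ) * Mm r (r * δ) y0 := by
      intro j hj
      rw [hJ, Finset.mem_Ico] at hj
      refine hfar hR hx0 hx1 hD0 (Or.inl hs0) (Or.inl ?_) hj.1 hj.2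
      rw [hs0, abs_of_nonneg (by positivity)]
      nlinarith only [hh, hx]
    obtain ⟨h0, h1, h2⟩ := pc_far hcard hg0.le hr0.le (hMp y0 (by linarith only [hy0])).le hc hfar'
    have := pc_two (L := g0 * Mm r (r * δ) y0) hr hm (mul_pos hg0 (hMp y0 (by linarith only [hy0]))) T0 T1 hcone hpair
      (p0 := p0) (p1 := p1) (by rw [hp0, norm_mul, hc 0]; nlinarith only [hg0, s0]) (by rw [← hT]; ring) h0 h1 h2
      (by norm_num) (by norm_num) (by norm_num) (by norm_num)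
    have e : (κ1 ^ (2 : ℕ) + l1) * p1 + (κ0 ^ (2 : ℕ) + l0) * p0 + ∑ j ∈ J, c j * W2 r δ ((x + j) * hst N) =
        (κ0 ^ (2 : ℕ) + l0) * p0 + (κ1 ^ (2 : ℕ) + l1) * p1 + ∑ j ∈ J, c j * W2 r δ ((x + j) * hst N) := by ring
    have e' : κ1 * p1 + κ0 * p0 + ∑ j ∈ J, c j * W1 r δ ((x + j) * hst N) =
        κ0 * p0 + κ1 * p1 + ∑ j ∈ J, c j * W1 r δ ((x + j) * hst N) := by ring
    have e'' : p1 + p0 + ∑ j ∈ J, c j * W0 r δ ((x + j) * hst N) =
        p0 + p1 + ∑ j ∈ J, c j * W0 r δ ((x + j) * hst N) := by ring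
    rw [e, e', e'']
    exact this
  · -- reference: the negative top
    have hfar' : ∀ j ∈ J, ‖W0 r δ ((x + j) * hst N)‖ ≤ 1 / 3000 * Mm r (r * δ) y1 ∧
        ‖W1 r δ ((x + j) * hst N)‖ ≤ 1 / 3000 * r * Mm r (r * δ) y1 ∧
        ‖W2 r δ ((x + j) * hst N)‖ ≤ 1 / 3000 * r ^ (2 : ℕ) * Mm r (r * δ) y1 := by
      intro j hj
      rw [hJ, Finset.mem_Ico] at hj
      refine hfar hR hx0 hx1 hD1 (Or.inr hs1) (Or.inl ?_) hj.1 hj.2
      rw [hs1, abs_of_neg (mul_neg_of_neg_of_pos (by linarith only [hx1]) hh)]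
      nlinarith only [hh, hx]
    have hM1 := hMp y1 (by have := hD1.y0; linarith only [this])
    obtain ⟨h0, h1, h2⟩ := pc_far hcard hg0.le hr0.le hM1.le hc hfar'
    exact pc_two (L := g0 * Mm r (r * δ) y1) hr hm (mul_pos hg0 hM1) T1 T0
      (by rw [mul_comm]; exact hcone) (by rw [norm_sub_rev]; exact hpair)
      (p0 := p1) (p1 := p0) (by rw [hp1, norm_mul, hc (-1)]; nlinarith only [hg0, s1]) hT h0 h1 h2
      (by norm_num) (by norm_num) (by norm_num) (by norm_num)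

end SokamF1T

end

/-! ### Lib_MP_af4de1_v3.P2GapR -/

section
namespace SokamF1
end SokamF1
namespace SokamF1M
end SokamF1M
namespace SokamF1S
end SokamF1S
namespace SokamU
end SokamU
/-!
# F1, plan v3, piece `P2.gapR`
-/

set_option autoImplicit false

namespace SokamV3

open Complex SokamU SokamF1 SokamF1S SokamF1M Set

namespace G2R

/-! ### numerical facts -/

theorem exp_155 : Real.exp (31 / 20) ≤ 100 / 21 := by
  have h1 : Real.exp (31 / 20) = Real.exp 1 * Real.exp (11 / 20) := by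
    rw [← Real.exp_add]
    norm_num
  have h2 : Real.exp (11 / 20) ≤ 1734 / 1000 := by
    have := Real.exp_bound' (x := 11 / 20) (by norm_num) (by norm_num) (n := 5) (by norm_num)
    refine this.trans ?_
    norm_num [Finset.sum_range_succ, Nat.factorial]
  have h3 := Real.exp_one_lt_d9
  rw [h1]
  have h4 := Real.exp_pos (1 : ℝ)
  have h5 := Real.exp_pos (11 / 20 : ℝ)
  nlinarith only [h2, h3, h4]

theorem le_exp_sum (x : ℝ) (hx : 0 ≤ x) :
    1 + x + x ^ (2 : ℕ) / 2 + x ^ (3 : ℕ) / 6 + x ^ (4 : ℕ) / 24 ≤ Real.exp x := by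
  have := Real.sum_le_exp_of_nonneg hx 5
  refine le_trans (le_of_eq ?_) this
  norm_num [Finset.sum_range_succ, Nat.factorial]

theorem exp_neg_le {x c : ℝ} (hx : 0 ≤ x) (hc : 0 < c)
    (h : 1 ≤ c * (1 + x + x ^ (2 : ℕ) / 2 + x ^ (3 : ℕ) / 6 + x ^ (4 : ℕ) / 24)) : Real.exp (-x) ≤ c := by
  rw [Real.exp_neg, inv_le_comm₀ (Real.exp_pos x) hc]
  refine le_trans ?_ (le_exp_sum x hx)
  rw [inv_le_iff_one_le_mul₀ hc, mul_comm]
  exact h

/-- the polynomial inequality behind `x/D² ≥ .9 ρ/R` -/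
theorem k1_poly {Q s y : ℝ} (hQ : 10 ≤ Q) (hs1 : 21 / 100 ≤ s) (hs2 : s ≤ 1) (hy0 : 0 ≤ y)
    (hy : y ≤ 31 / 40) (hp : y ≤ 2 / 5 ∨ (s ≤ 1 / 2 ∧ y ≤ 3 / 5) ∨ (s ≤ 8 / 25 ∧ 3 / 5 ≤ y)) :
    81 / 100 * Q * (1 + 2 * y + Q * s) ^ (2 : ℕ) ≤ (1 + Q) ^ (2 : ℕ) * (Q * s - y ^ (2 : ℕ)) := by
  obtain ⟨z, hz, rfl⟩ : ∃ z : ℝ, 0 ≤ z ∧ Q = 10 + z := ⟨Q - 10, by linarith only [hQ], by ring⟩
  have hyy : y ^ (2 : ℕ) ≤ (31 / 40) ^ (2 : ℕ) := by gcongr
  -- coefficients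
  have c0 : 0 ≤ 121 * (10 * s - y ^ (2 : ℕ)) - 81 / 10 * (1 + 2 * y + 10 * s) ^ (2 : ℕ) := by
    rcases hp with h | ⟨h1, h2⟩ | ⟨h1, h2⟩
    · linarith only [mul_nonneg (sub_nonneg.2 hs1) (sub_nonneg.2 hs2), mul_nonneg hy0 (sub_nonneg.2 h), mul_nonneg (sub_nonneg.2 h) (sub_nonneg.2 hs2), mul_nonneg (sub_nonneg.2 h) (sub_nonneg.2 hs1), mul_nonneg hy0 (sub_nonneg.2 hs2)]
    · linarith only [mul_nonneg (sub_nonneg.2 hs1) (sub_nonneg.2 h1), mul_nonneg hy0 (sub_nonneg.2 h2), mul_nonneg (sub_nonneg.2 h2) (sub_nonneg.2 h1), mul_nonneg (sub_nonneg.2 h2) (sub_nonneg.2 hs1), mul_nonneg hy0 (sub_nonneg.2 hs1)]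
    · linarith only [mul_nonneg (sub_nonneg.2 hs1) (sub_nonneg.2 h1), mul_nonneg hy0 (sub_nonneg.2 hy), mul_nonneg (sub_nonneg.2 hy) (sub_nonneg.2 h1), mul_nonneg (sub_nonneg.2 hy) (sub_nonneg.2 hs1), mul_nonneg hy0 (sub_nonneg.2 hs1)]
  have c1 : 0 ≤ 341 * s - 22 * y ^ (2 : ℕ) - 81 / 100 * (1 + 2 * y) ^ (2 : ℕ)
      - 324 / 10 * (1 + 2 * y) * s - 243 * s ^ (2 : ℕ) := by
    rcases hp with h | ⟨h1, h2⟩ | ⟨h1, h2⟩
    · linarith only [mul_nonneg (sub_nonneg.2 hs1) (sub_nonneg.2 hs2), mul_nonneg hy0 (sub_nonneg.2 h), mul_nonneg (sub_nonneg.2 h) (sub_nonneg.2 hs2), mul_nonneg (sub_nonneg.2 h) (sub_nonneg.2 hs1), mul_nonneg hy0 (sub_nonneg.2 hs2)]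
    · linarith only [mul_nonneg (sub_nonneg.2 hs1) (sub_nonneg.2 h1), mul_nonneg hy0 (sub_nonneg.2 h2), mul_nonneg (sub_nonneg.2 h2) (sub_nonneg.2 h1), mul_nonneg (sub_nonneg.2 h2) (sub_nonneg.2 hs1), mul_nonneg hy0 (sub_nonneg.2 hs1)]
    · linarith only [mul_nonneg (sub_nonneg.2 hs1) (sub_nonneg.2 h1), mul_nonneg hy0 (sub_nonneg.2 hy), mul_nonneg (sub_nonneg.2 hy) (sub_nonneg.2 h1), mul_nonneg (sub_nonneg.2 hy) (sub_nonneg.2 hs1), mul_nonneg hy0 (sub_nonneg.2 hs1)]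
  have c2 : 0 ≤ 32 * s - y ^ (2 : ℕ) - 162 / 100 * (1 + 2 * y) * s - 243 / 10 * s ^ (2 : ℕ) := by
    linarith only [hs2, c1, mul_nonneg (sub_nonneg.2 hs1) (sub_nonneg.2 hs2), mul_nonneg (sub_nonneg.2 hy) (sub_nonneg.2 hs1), mul_nonneg (sub_nonneg.2 hy) (sub_nonneg.2 hs2)]
  have c3 : 0 ≤ s - 81 / 100 * s ^ (2 : ℕ) := by nlinarith only [hs1, hs2]
  have e : (1 + (10 + z)) ^ (2 : ℕ) * ((10 + z) * s - y ^ (2 : ℕ))
      - 81 / 100 * (10 + z) * (1 + 2 * y + (10 + z) * s) ^ (2 : ℕ)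
      = (121 * (10 * s - y ^ (2 : ℕ)) - 81 / 10 * (1 + 2 * y + 10 * s) ^ (2 : ℕ))
        + (341 * s - 22 * y ^ (2 : ℕ) - 81 / 100 * (1 + 2 * y) ^ (2 : ℕ)
          - 324 / 10 * (1 + 2 * y) * s - 243 * s ^ (2 : ℕ)) * z
        + (32 * s - y ^ (2 : ℕ) - 162 / 100 * (1 + 2 * y) * s - 243 / 10 * s ^ (2 : ℕ)) * z ^ (2 : ℕ)
        + (s - 81 / 100 * s ^ (2 : ℕ)) * z ^ (3 : ℕ) := by ring
  have : 0 ≤ (1 + (10 + z)) ^ (2 : ℕ) * ((10 + z) * s - y ^ (2 : ℕ))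
      - 81 / 100 * (10 + z) * (1 + 2 * y + (10 + z) * s) ^ (2 : ℕ) := by
    rw [e]
    (clear * - c0 c1 hz c2 c3; positivity)
  linarith only [this]


/-! ### the functions along the path -/

theorem D2_eq {ρ y : ℝ} (h : Dom ρ y) : sD2 ρ y = 1 + 2 * y + (ρ * Real.exp (-y)) ^ (2 : ℕ) := by
  unfold sD2
  rw [← sx_sq_add h]
  ring

theorem exp_sq (y : ℝ) : Real.exp (-y) ^ (2 : ℕ) = Real.exp (-2 * y) := by
  rw [← Real.exp_nat_mul]
  congr 1
  push_cast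
  ring

theorem D2_ge {ρ y : ℝ} (h : Dom ρ y) : (1 + ρ ^ (2 : ℕ)) * Real.exp (-y) ^ (2 : ℕ) ≤ sD2 ρ y
    ∨ y < 0 := by
  by_cases hy : y < 0
  · exact Or.inr hy
  left
  push Not at hy
  rw [D2_eq h, mul_pow]
  have h1 : Real.exp (-y) ^ (2 : ℕ) ≤ 1 + 2 * y := by
    have h2 : Real.exp (-y) ≤ 1 := Real.exp_le_one_iff.2 (by linarith only [hy])
    have h3 := Real.exp_pos (-y)
    nlinarith only [hy, h2, h3]
  linarith

theorem D2_le {ρ y : ℝ} (h : Dom ρ y) (hy : y ≤ 0) :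
    sD2 ρ y ≤ (1 + ρ ^ (2 : ℕ)) * Real.exp (-y) ^ (2 : ℕ) := by
  rw [D2_eq h, mul_pow]
  have h1 : 1 + 2 * y ≤ Real.exp (-y) ^ (2 : ℕ) := by
    have h2 : 1 ≤ Real.exp (-y) := Real.one_le_exp (by linarith only [hy])
    nlinarith only [hy, h2]
  linarith

/-- `x/D² ≥ .9 ρ/R` -/
theorem k1 {ρ y : ℝ} (hρ : 10 ≤ ρ ^ (2 : ℕ)) (h : Dom ρ y) (hy0 : 0 ≤ y) (hy : y ≤ 31 / 40) :
    9 / 10 * ρ * sD2 ρ y ≤ (1 + ρ ^ (2 : ℕ)) * sx ρ y := by
  have hs := sx_sq h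
  rw [mul_pow, exp_sq] at hs
  have hD := D2_eq h
  rw [mul_pow, exp_sq] at hD
  obtain ⟨s, hsd⟩ : ∃ s, s = Real.exp (-2 * y) := ⟨_, rfl⟩
  rw [← hsd] at hs hD
  have hs1 : 21 / 100 ≤ s := by
    have h1 : Real.exp (-(31 / 20)) ≤ s := by
      rw [hsd]
      exact Real.exp_le_exp.2 (by linarith only [hy])
    refine le_trans ?_ h1
    rw [Real.exp_neg, le_inv_comm₀ (by norm_num) (Real.exp_pos _)]
    refine exp_155.trans (by norm_num)
  have hs2 : s ≤ 1 := by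
    rw [hsd]
    exact Real.exp_le_one_iff.2 (by linarith only [hy0])
  have hp : y ≤ 2 / 5 ∨ (s ≤ 1 / 2 ∧ y ≤ 3 / 5) ∨ (s ≤ 8 / 25 ∧ 3 / 5 ≤ y) := by
    rcases le_or_gt y (2 / 5) with h1 | h1
    · exact Or.inl h1
    right
    rcases le_or_gt y (3 / 5) with h2 | h2
    · left
      refine ⟨?_, h2⟩
      have h3 : s ≤ Real.exp (-(4 / 5)) := by
        rw [hsd]
        exact Real.exp_le_exp.2 (by linarith only [h1])
      exact h3.trans (exp_neg_le (by norm_num) (by norm_num) (by norm_num))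
    · right
      refine ⟨?_, h2.le⟩
      have h3 : s ≤ Real.exp (-(6 / 5)) := by
        rw [hsd]
        exact Real.exp_le_exp.2 (by linarith only [h2])
      exact h3.trans (exp_neg_le (by norm_num) (by norm_num) (by norm_num))
  have hk := k1_poly hρ hs1 hs2 hy0 hy hp
  have hρ0 := h.1
  have hx0 := sx_nonneg ρ y
  have h5 : (9 / 10 * ρ * sD2 ρ y) ^ (2 : ℕ) ≤ ((1 + ρ ^ (2 : ℕ)) * sx ρ y) ^ (2 : ℕ) := by
    calc (9 / 10 * ρ * sD2 ρ y) ^ (2 : ℕ) = 81 / 100 * ρ ^ (2 : ℕ) * (1 + 2 * y + ρ ^ (2 : ℕ) * s) ^ (2 : ℕ) := by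
          rw [hD]; ring
      _ ≤ (1 + ρ ^ (2 : ℕ)) ^ (2 : ℕ) * (ρ ^ (2 : ℕ) * s - y ^ (2 : ℕ)) := hk
      _ = ((1 + ρ ^ (2 : ℕ)) * sx ρ y) ^ (2 : ℕ) := by rw [← hs]; ring
  exact abs_le_of_sq_le_sq' h5 (by (clear * - hρ0 hx0; positivity)) |>.2

/-- left side, upper bound of `y` -/
theorem left_up {ρ y : ℝ} (h : Dom ρ y) (hy : 0 ≤ y) :
    (1 + ρ ^ (2 : ℕ)) * (1 - Real.exp (-y)) ≤ ρ * sE ρ y := by
  have hρ := h.1
  have hm : MonotoneOn (fun t => ρ * sE ρ t - (1 + ρ ^ (2 : ℕ)) * (1 - Real.exp (-t))) (Icc 0 y) := by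
    refine monotoneOn_of_deriv_nonneg (convex_Icc _ _) ?_ ?_ ?_
    · have := continuous_sE ρ
      exact (by fun_prop : Continuous
        (fun t => ρ * sE ρ t - (1 + ρ ^ (2 : ℕ)) * (1 - Real.exp (-t)))).continuousOn
    · intro t ht
      rw [interior_Icc] at ht
      have h3 := dom_between (dom_zero hρ) h (by norm_num) ht
      have e := (hasDerivAt_sE hρ h3).const_mul ρ
      have e2 : HasDerivAt (fun t => (1 + ρ ^ (2 : ℕ)) * (1 - Real.exp (-t)))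
          ((1 + ρ ^ (2 : ℕ)) * Real.exp (-t)) t := by
        have e3 := ((hasDerivAt_neg t).exp.const_sub 1).const_mul (1 + ρ ^ (2 : ℕ))
        refine e3.congr_deriv ?_
        ring
      exact (e.sub e2).differentiableAt.differentiableWithinAt
    · intro t ht
      rw [interior_Icc] at ht
      have h3 := dom_between (dom_zero hρ) h (by norm_num) ht
      have hD : Dom ρ t := ⟨hρ, h3.le⟩
      have hx := sx_pos hρ h3
      have e := (hasDerivAt_sE hρ h3).const_mul ρ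
      have e2 : HasDerivAt (fun t => (1 + ρ ^ (2 : ℕ)) * (1 - Real.exp (-t)))
          ((1 + ρ ^ (2 : ℕ)) * Real.exp (-t)) t := by
        have e3 := ((hasDerivAt_neg t).exp.const_sub 1).const_mul (1 + ρ ^ (2 : ℕ))
        refine e3.congr_deriv ?_
        ring
      have e4 : deriv (fun t => ρ * sE ρ t - (1 + ρ ^ (2 : ℕ)) * (1 - Real.exp (-t))) t
          = ρ * (sD2 ρ t / sx ρ t) - (1 + ρ ^ (2 : ℕ)) * Real.exp (-t) := (e.sub e2).deriv
      rw [e4, sub_nonneg, mul_div_assoc', le_div_iff₀ hx]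
      have h4 : (1 + ρ ^ (2 : ℕ)) * Real.exp (-t) ^ (2 : ℕ) ≤ sD2 ρ t :=
        (D2_ge hD).resolve_right (not_lt.2 ht.1.le)
      have h5 := sx_le hD
      have h6 := Real.exp_pos (-t)
      calc (1 + ρ ^ (2 : ℕ)) * Real.exp (-t) * sx ρ t
          ≤ (1 + ρ ^ (2 : ℕ)) * Real.exp (-t) * (ρ * Real.exp (-t)) := by gcongr
        _ = ρ * ((1 + ρ ^ (2 : ℕ)) * Real.exp (-t) ^ (2 : ℕ)) := by ring
        _ ≤ ρ * sD2 ρ t := by gcongr
  have h1 := hm (left_mem_Icc.2 hy) (right_mem_Icc.2 hy) hy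
  simp only [sE_zero hρ, neg_zero, Real.exp_zero, sub_self, mul_zero] at h1
  linarith only [h1]

/-- left side, lower bound of `y` -/
theorem left_lo {ρ y : ℝ} (hρ2 : 10 ≤ ρ ^ (2 : ℕ)) (h : Dom ρ y) (hy : 0 ≤ y) (hy1 : y ≤ 31 / 40) :
    9 / 10 * ρ * sE ρ y ≤ (1 + ρ ^ (2 : ℕ)) * y := by
  have hρ := h.1
  have hm : MonotoneOn (fun t => (1 + ρ ^ (2 : ℕ)) * t - 9 / 10 * ρ * sE ρ t) (Icc 0 y) := by
    refine monotoneOn_of_deriv_nonneg (convex_Icc _ _) ?_ ?_ ?_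
    · have := continuous_sE ρ
      exact (by fun_prop : Continuous
        (fun t => (1 + ρ ^ (2 : ℕ)) * t - 9 / 10 * ρ * sE ρ t)).continuousOn
    · intro t ht
      rw [interior_Icc] at ht
      have h3 := dom_between (dom_zero hρ) h (by norm_num) ht
      have e := (hasDerivAt_sE hρ h3).const_mul (9 / 10 * ρ)
      have e2 := (hasDerivAt_id t).const_mul (1 + ρ ^ (2 : ℕ))
      exact (e2.sub e).differentiableAt.differentiableWithinAt
    · intro t ht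
      rw [interior_Icc] at ht
      have h3 := dom_between (dom_zero hρ) h (by norm_num) ht
      have hD : Dom ρ t := ⟨hρ, h3.le⟩
      have hx := sx_pos hρ h3
      have e := (hasDerivAt_sE hρ h3).const_mul (9 / 10 * ρ)
      have e2 := (hasDerivAt_id t).const_mul (1 + ρ ^ (2 : ℕ))
      have e3 : deriv (fun t => (1 + ρ ^ (2 : ℕ)) * t - 9 / 10 * ρ * sE ρ t) t
          = (1 + ρ ^ (2 : ℕ)) * 1 - 9 / 10 * ρ * (sD2 ρ t / sx ρ t) := (e2.sub e).deriv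
      rw [e3, mul_one, sub_nonneg, mul_div_assoc', div_le_iff₀ hx]
      exact k1 hρ2 hD ht.1.le (by linarith only [hy1, ht.2])
  have h1 := hm (left_mem_Icc.2 hy) (right_mem_Icc.2 hy) hy
  simp only [sE_zero hρ, mul_zero, sub_self] at h1
  linarith only [h1]

/-- left side, the drop -/
theorem left_drop {ρ y : ℝ} (hρ2 : 10 ≤ ρ ^ (2 : ℕ)) (h : Dom ρ y) (hy : 0 ≤ y) (hy1 : y ≤ 31 / 40) :
    9 / 20 * ρ * sE ρ y ^ (2 : ℕ) ≤ (1 + ρ ^ (2 : ℕ)) * (ρ - sx ρ y * (1 + y)) := by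
  have hρ := h.1
  have hd : ∀ t ∈ Ioo 0 y, HasDerivAt
      (fun t => (1 + ρ ^ (2 : ℕ)) * (ρ - sx ρ t * (1 + t)) - 9 / 20 * ρ * sE ρ t ^ (2 : ℕ))
      ((sD2 ρ t / sx ρ t) * ((1 + ρ ^ (2 : ℕ)) * t - 9 / 10 * ρ * sE ρ t)) t := by
    intro t ht
    have h3 := dom_between (dom_zero hρ) h (by norm_num) ht
    have e1 := ((hasDerivAt_sPhi hρ h3).const_sub ρ).const_mul (1 + ρ ^ (2 : ℕ))
    have e2 := ((hasDerivAt_sE hρ h3).pow 2).const_mul (9 / 20 * ρ)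
    refine (e1.sub e2).congr_deriv ?_
    simp only [Nat.cast_ofNat, Nat.add_one_sub_one, pow_one]
    ring
  have hm : MonotoneOn (fun t => (1 + ρ ^ (2 : ℕ)) * (ρ - sx ρ t * (1 + t))
      - 9 / 20 * ρ * sE ρ t ^ (2 : ℕ)) (Icc 0 y) := by
    refine monotoneOn_of_deriv_nonneg (convex_Icc _ _) ?_ ?_ ?_
    · have := continuous_sE ρ
      have := continuous_sx ρ
      exact (by fun_prop : Continuous
        (fun t => (1 + ρ ^ (2 : ℕ)) * (ρ - sx ρ t * (1 + t)) - 9 / 20 * ρ * sE ρ t ^ (2 : ℕ))).continuousOn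
    · intro t ht
      rw [interior_Icc] at ht
      exact (hd t ht).differentiableAt.differentiableWithinAt
    · intro t ht
      rw [interior_Icc] at ht
      rw [(hd t ht).deriv]
      have h3 := dom_between (dom_zero hρ) h (by norm_num) ht
      have hD : Dom ρ t := ⟨hρ, h3.le⟩
      have h4 := left_lo hρ2 hD ht.1.le (by linarith only [hy1, ht.2])
      have h5 := sD2_pos (ρ := ρ) (y := t) (by linarith only [ht.1])
      have h6 := sx_pos hρ h3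
      have h7 : 0 ≤ (1 + ρ ^ (2 : ℕ)) * t - 9 / 10 * ρ * sE ρ t := by linarith only [h4]
      (clear * - h5 h6 h4; positivity)
  have h1 := hm (left_mem_Icc.2 hy) (right_mem_Icc.2 hy) hy
  have h2 : sx ρ 0 = ρ := by
    unfold sx
    simp [Real.sqrt_sq hρ.le]
  simp only [sE_zero hρ, h2] at h1
  linarith only [h1]

/-- right side, upper bound of `|y|` -/
theorem right_up {ρ y : ℝ} (hρ2 : 10 ≤ ρ ^ (2 : ℕ)) (h : Dom ρ y) (hy1 : -1 < y) (hy : y ≤ 0) :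
    ρ * sE ρ y ≤ (1 + ρ ^ (2 : ℕ)) * y := by
  have hρ := h.1
  have hd : ∀ t ∈ Ioo y 0, HasDerivAt (fun t => ρ * sE ρ t - (1 + ρ ^ (2 : ℕ)) * t)
      (ρ * (sD2 ρ t / sx ρ t) - (1 + ρ ^ (2 : ℕ)) * 1) t := by
    intro t ht
    have h3 := dom_between h (dom_zero hρ) hy1.le ht
    exact ((hasDerivAt_sE hρ h3).const_mul ρ).sub ((hasDerivAt_id t).const_mul (1 + ρ ^ (2 : ℕ)))
  have hm : MonotoneOn (fun t => ρ * sE ρ t - (1 + ρ ^ (2 : ℕ)) * t) (Icc y 0) := by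
    refine monotoneOn_of_deriv_nonneg (convex_Icc _ _) ?_ ?_ ?_
    · have := continuous_sE ρ
      exact (by fun_prop : Continuous (fun t => ρ * sE ρ t - (1 + ρ ^ (2 : ℕ)) * t)).continuousOn
    · intro t ht
      rw [interior_Icc] at ht
      exact (hd t ht).differentiableAt.differentiableWithinAt
    · intro t ht
      rw [interior_Icc] at ht
      rw [(hd t ht).deriv]
      have h3 := dom_between h (dom_zero hρ) hy1.le ht
      have hD : Dom ρ t := ⟨hρ, h3.le⟩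
      have hx := sx_pos hρ h3
      rw [mul_one, sub_nonneg, mul_div_assoc', le_div_iff₀ hx]
      have h4 := sx_le hD
      have h5 := Real.exp_pos (-t)
      refine (mul_le_mul_of_nonneg_left h4 (by positivity)).trans ?_
      rw [D2_eq hD]
      -- `R e^(-t) ≤ 1 + 2 t + ρ² e^(-2t)`
      have h6 : (1 + ρ ^ (2 : ℕ)) * Real.exp (-t) ≤ 1 + 2 * t + (ρ * Real.exp (-t)) ^ (2 : ℕ) := by
        obtain ⟨E, hE⟩ : ∃ E, E = Real.exp (-t) := ⟨_, rfl⟩
        rw [← hE]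
        have h7 : 1 - t ≤ E := by
          rw [hE]
          have := Real.add_one_le_exp (-t)
          linarith only [this]
        have ht0 := ht.2
        have h8 : 0 ≤ E - 1 := by linarith only [h7, ht0]
        have h9 : (1 + ρ ^ (2 : ℕ)) * E = E + ρ ^ (2 : ℕ) * E := by ring
        have h10 : (ρ * E) ^ (2 : ℕ) = ρ ^ (2 : ℕ) * E * E := by ring
        rw [h9, h10]
        linarith only [h7, h8, mul_nonneg h8 h8, mul_nonneg (mul_nonneg h8 (by linarith : (0:ℝ) ≤ E)) (sub_nonneg.2 hρ2)]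
      calc (1 + ρ ^ (2 : ℕ)) * (ρ * Real.exp (-t)) = ρ * ((1 + ρ ^ (2 : ℕ)) * Real.exp (-t)) := by ring
        _ ≤ ρ * (1 + 2 * t + (ρ * Real.exp (-t)) ^ (2 : ℕ)) := by gcongr
  have h1 := hm (left_mem_Icc.2 hy) (right_mem_Icc.2 hy) hy
  simp only [sE_zero hρ, mul_zero, sub_self] at h1
  linarith only [h1]

/-- right side, the drop -/
theorem right_drop {ρ y : ℝ} (hρ2 : 10 ≤ ρ ^ (2 : ℕ)) (h : Dom ρ y) (hy1 : -1 < y) (hy : y ≤ 0) :
    (1 + ρ ^ (2 : ℕ)) * (ρ - sx ρ y * (1 + y)) ≤ 1 / 2 * ρ * sE ρ y ^ (2 : ℕ) := by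
  have hρ := h.1
  have hd : ∀ t ∈ Ioo y 0, HasDerivAt
      (fun t => (1 + ρ ^ (2 : ℕ)) * (ρ - sx ρ t * (1 + t)) - 1 / 2 * ρ * sE ρ t ^ (2 : ℕ))
      ((sD2 ρ t / sx ρ t) * ((1 + ρ ^ (2 : ℕ)) * t - ρ * sE ρ t)) t := by
    intro t ht
    have h3 := dom_between h (dom_zero hρ) hy1.le ht
    have e1 := ((hasDerivAt_sPhi hρ h3).const_sub ρ).const_mul (1 + ρ ^ (2 : ℕ))
    have e2 := ((hasDerivAt_sE hρ h3).pow 2).const_mul (1 / 2 * ρ)
    refine (e1.sub e2).congr_deriv ?_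
    simp only [Nat.cast_ofNat, Nat.add_one_sub_one, pow_one]
    ring
  have hm : MonotoneOn (fun t => (1 + ρ ^ (2 : ℕ)) * (ρ - sx ρ t * (1 + t))
      - 1 / 2 * ρ * sE ρ t ^ (2 : ℕ)) (Icc y 0) := by
    refine monotoneOn_of_deriv_nonneg (convex_Icc _ _) ?_ ?_ ?_
    · have := continuous_sE ρ
      have := continuous_sx ρ
      exact (by fun_prop : Continuous
        (fun t => (1 + ρ ^ (2 : ℕ)) * (ρ - sx ρ t * (1 + t)) - 1 / 2 * ρ * sE ρ t ^ (2 : ℕ))).continuousOn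
    · intro t ht
      rw [interior_Icc] at ht
      exact (hd t ht).differentiableAt.differentiableWithinAt
    · intro t ht
      rw [interior_Icc] at ht
      rw [(hd t ht).deriv]
      have h3 := dom_between h (dom_zero hρ) hy1.le ht
      have hD : Dom ρ t := ⟨hρ, h3.le⟩
      have h4 := right_up hρ2 hD (by linarith only [hy1, ht.1]) ht.2.le
      have h5 := sD2_pos (ρ := ρ) (y := t) (by linarith only [hy1, ht.1])
      have h6 := sx_pos hρ h3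
      have h7 : 0 ≤ (1 + ρ ^ (2 : ℕ)) * t - ρ * sE ρ t := by linarith only [h4]
      (clear * - h5 h6 h4; positivity)
  have h1 := hm (left_mem_Icc.2 hy) (right_mem_Icc.2 hy) hy
  have h2 : sx ρ 0 = ρ := by
    unfold sx
    simp [Real.sqrt_sq hρ.le]
  simp only [sE_zero hρ, h2] at h1
  linarith only [h1]

theorem y_nonneg {ρ y : ℝ} (h : Dom ρ y) (hy1 : -1 < y) (hη : 0 ≤ sE ρ y) : 0 ≤ y := by
  by_contra hc
  push Not at hc
  have h1 := sE_strictMonoOn h (dom_zero h.1) hy1.le (left_mem_Icc.2 hc.le)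
    (right_mem_Icc.2 hc.le) hc
  rw [sE_zero h.1] at h1
  linarith only [hη, h1]

theorem y_nonpos {ρ y : ℝ} (h : Dom ρ y) (hη : sE ρ y ≤ 0) : y ≤ 0 := by
  by_contra hc
  push Not at hc
  have h1 := sE_strictMonoOn (dom_zero h.1) h (by norm_num) (left_mem_Icc.2 hc.le)
    (right_mem_Icc.2 hc.le) hc
  rw [sE_zero h.1] at h1
  linarith only [hη, h1]

/-- an upper bound of `y` from `1 - e^(-y) ≤ v` -/
theorem y_le_of {y v Y c : ℝ} (hY : 0 ≤ Y) (h : 1 - Real.exp (-y) ≤ v) (hc : 0 < c)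
    (hcv : v < 1 - c) (h1 : 1 ≤ c * (1 + Y + Y ^ (2 : ℕ) / 2 + Y ^ (3 : ℕ) / 6 + Y ^ (4 : ℕ) / 24)) : y ≤ Y := by
  by_contra hc'
  push Not at hc'
  have h2 := exp_neg_le hY hc h1
  have h3 : Real.exp (-y) ≤ Real.exp (-Y) := Real.exp_le_exp.2 (by linarith only [hc'])
  linarith only [h, hcv, h2, h3]

/-- the final comparison -/
theorem gap_of {r δ ya yb γ : ℝ} (hδ : 0 < δ) (ha : Dom (r * δ) ya) (hb : Dom (r * δ) yb)
    (ha1 : -1 < ya) (ha0 : ya ≤ 0) (hb0 : 0 ≤ yb)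
    (h : γ + (yb - ya) / 2 ≤ (sx (r * δ) ya * (1 + ya) - sx (r * δ) yb * (1 + yb)) / δ) :
    Gap r δ ya yb γ := by
  obtain ⟨ρ, hρ⟩ : ∃ ρ, ρ = r * δ := ⟨_, rfl⟩
  have hb1 : -1 < yb := by linarith only [hb0]
  have h0 : Real.exp γ * sM r δ yb ≤ sM r δ ya := by
    unfold sM
    have ha' := ha
    have hb' := hb
    rw [← hρ] at ha' hb' h ⊢
    have hDa := sD2_pos (ρ := ρ) ha1
    have hDb := sD2_pos (ρ := ρ) hb1
    have h1 := D2_le ha' ha0
    have h2 : (1 + ρ ^ (2 : ℕ)) * Real.exp (-yb) ^ (2 : ℕ) ≤ sD2 ρ yb :=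
      (D2_ge hb').resolve_right (not_lt.2 hb0)
    have hR : 0 < 1 + ρ ^ (2 : ℕ) := by (clear * -; positivity)
    have key : ∀ y : ℝ, ((1 + ρ ^ (2 : ℕ)) * Real.exp (-y) ^ (2 : ℕ)) ^ (1 / 4 : ℝ)
        = (1 + ρ ^ (2 : ℕ)) ^ (1 / 4 : ℝ) * Real.exp (-y / 2) := by
      intro y
      rw [Real.mul_rpow hR.le (by positivity), exp_sq, ← Real.exp_mul]
      congr 2
      ring
    have h3 : (sD2 ρ ya) ^ (1 / 4 : ℝ) ≤ (1 + ρ ^ (2 : ℕ)) ^ (1 / 4 : ℝ) * Real.exp (-ya / 2) := by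
      rw [← key]
      exact Real.rpow_le_rpow hDa.le h1 (by norm_num)
    have h4 : (1 + ρ ^ (2 : ℕ)) ^ (1 / 4 : ℝ) * Real.exp (-yb / 2) ≤ (sD2 ρ yb) ^ (1 / 4 : ℝ) := by
      rw [← key]
      exact Real.rpow_le_rpow (by (clear * -; positivity)) h2 (by norm_num)
    have hq : 0 < (1 + ρ ^ (2 : ℕ)) ^ (1 / 4 : ℝ) := Real.rpow_pos_of_pos hR _
    have hqa : 0 < (sD2 ρ ya) ^ (1 / 4 : ℝ) := Real.rpow_pos_of_pos hDa _
    have hqb : 0 < (sD2 ρ yb) ^ (1 / 4 : ℝ) := Real.rpow_pos_of_pos hDb _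
    rw [mul_div_assoc', div_le_div_iff₀ hqb hqa]
    calc Real.exp γ * Real.exp (sx ρ yb * (1 + yb) / δ) * (sD2 ρ ya) ^ (1 / 4 : ℝ)
        ≤ Real.exp γ * Real.exp (sx ρ yb * (1 + yb) / δ) *
          ((1 + ρ ^ (2 : ℕ)) ^ (1 / 4 : ℝ) * Real.exp (-ya / 2)) := by gcongr
      _ = (1 + ρ ^ (2 : ℕ)) ^ (1 / 4 : ℝ) *
          Real.exp (γ + sx ρ yb * (1 + yb) / δ + -ya / 2) := by
          rw [Real.exp_add, Real.exp_add]; ring
      _ ≤ (1 + ρ ^ (2 : ℕ)) ^ (1 / 4 : ℝ) *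
          Real.exp (sx ρ ya * (1 + ya) / δ + -yb / 2) := by
          refine mul_le_mul_of_nonneg_left (Real.exp_le_exp.2 ?_) hq.le
          have e := sub_div (sx ρ ya * (1 + ya)) (sx ρ yb * (1 + yb)) δ
          linarith only [h, e]
      _ = Real.exp (sx ρ ya * (1 + ya) / δ) *
          ((1 + ρ ^ (2 : ℕ)) ^ (1 / 4 : ℝ) * Real.exp (-yb / 2)) := by
          rw [Real.exp_add]; ring
      _ ≤ Real.exp (sx ρ ya * (1 + ya) / δ) * (sD2 ρ yb) ^ (1 / 4 : ℝ) := by gcongr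
  refine ⟨h0, ?_⟩
  have hk : ‖kap r δ yb‖ ≤ ‖kap r δ ya‖ := by
    unfold kap
    rw [norm_div, norm_div, norm_sK ha, norm_sK hb]
    have : Real.exp (-yb) ≤ Real.exp (-ya) := Real.exp_le_exp.2 (by linarith only [ha0, hb0])
    have := ha.1
    gcongr
  have hMa := sM_pos (r := r) (δ := δ) ha1
  calc Real.exp γ * (‖kap r δ yb‖ * sM r δ yb) = ‖kap r δ yb‖ * (Real.exp γ * sM r δ yb) := by ring
    _ ≤ ‖kap r δ yb‖ * sM r δ ya := by gcongr
    _ ≤ ‖kap r δ ya‖ * sM r δ ya := by gcongr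

end G2R

open G2R in
/-- **PIECE `P2.gapR`.** -/
theorem p2_gapR : ∀ (r δ ya yb η : ℝ), Reg2 r δ → At r δ ya η → At r δ yb (eo2 r δ) →
    η ≤ 0 → -ei2 r δ ≤ η → Gap r δ ya yb (1 / 2) := by
  intro r δ ya yb η hreg ha hb hη0 hη1
  have hδ := hreg.d0
  have hr := hreg.r0
  have hρ := hreg.rho
  have hG := hreg.G
  obtain ⟨ρ, hρd⟩ : ∃ ρ, ρ = r * δ := ⟨_, rfl⟩
  have hst2 : hst 2 = Real.pi := by
    unfold hst
    push_cast
    ring
  obtain ⟨G, hGd⟩ : ∃ G, G = Gm 2 r δ := ⟨_, rfl⟩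
  have hGe : G * (1 + ρ ^ (2 : ℕ)) = r * Real.pi ^ (2 : ℕ) := by
    rw [hGd, hρd]
    unfold Gm RR
    rw [hst2]
    have : (0:ℝ) < 1 + (r * δ) ^ (2 : ℕ) := by (clear * - hr hδ; positivity)
    field_simp
  have hda := ha.dom
  have hdb := hb.dom
  have hea := ha.eta
  have heb := hb.eta
  rw [← hρd] at hρ hda hdb hea heb
  rw [← hGd] at hG
  have hπ := Real.pi_pos
  have hR0 : 0 < 1 + ρ ^ (2 : ℕ) := by (clear * - hρ; positivity)
  have hρ0 : 0 < ρ := by linarith only [hρ]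
  have hρ2 : 10 ≤ ρ ^ (2 : ℕ) := by nlinarith only [hρ]
  have hr0 : 0 < r := by linarith only [hr]
  -- the half width
  obtain ⟨ω, hωd⟩ : ∃ ω, ω = om2 r δ := ⟨_, rfl⟩
  have heo : eo2 r δ = (1 / 2 + ω) * Real.pi := by
    unfold eo2
    rw [hst2, hωd]
  have hei : ei2 r δ = (1 / 2 - ω) * Real.pi := by
    unfold ei2
    rw [hst2, hωd]
  have hcase : (G < 10 ∧ ω = 17 / 100) ∨ (10 ≤ G ∧ G < 20 ∧ ω = 3 / 20) ∨ (20 ≤ G ∧ ω = 1 / 10) := by
    rw [hωd]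
    unfold om2
    rw [← hGd]
    rcases lt_or_ge G 10 with h1 | h1
    · left
      rw [if_pos h1]
      exact ⟨h1, rfl⟩
    · right
      rw [if_neg (not_lt.2 h1)]
      rcases lt_or_ge G 20 with h2 | h2
      · left
        rw [if_pos h2]
        exact ⟨h1, h2, rfl⟩
      · right
        rw [if_neg (not_lt.2 h2)]
        exact ⟨h2, rfl⟩
  have hω : 1 / 10 ≤ ω ∧ ω ≤ 17 / 100 := by
    rcases hcase with ⟨_, h⟩ | ⟨_, _, h⟩ | ⟨_, h⟩ <;> rw [h] <;> norm_num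
  rw [heo] at heb
  rw [hei] at hη1
  have hya1 := ha.y1
  have hyb1 := hb.y1
  have hya0 : ya ≤ 0 := y_nonpos hda (by rw [hea]; exact hη0)
  have hyb0 : 0 ≤ yb := y_nonneg hdb hyb1 (by
    rw [heb]
    have : 0 ≤ 1 / 2 + ω := by linarith only [hω.1]
    (clear * - this; positivity))
  -- the two bounds
  have hL := left_up hdb hyb0
  have hRr := right_up hρ2 hda hya1 hya0
  rw [heb] at hL
  rw [hea] at hRr
  obtain ⟨Y, n, hY, hn, hY31, hfin⟩ : ∃ Y n : ℝ, yb ≤ Y ∧ -ya ≤ n ∧ Y ≤ 31 / 40 ∧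
      1 / 2 + (Y + n) / 2 ≤ G * (9 / 20 * (1 / 2 + ω) ^ (2 : ℕ) - 1 / 2 * (1 / 2 - ω) ^ (2 : ℕ)) := by
    obtain ⟨v, hv⟩ : ∃ v, v = ρ * ((1 / 2 + ω) * Real.pi) / (1 + ρ ^ (2 : ℕ)) := ⟨_, rfl⟩
    obtain ⟨w, hw⟩ : ∃ w, w = ρ * ((1 / 2 - ω) * Real.pi) / (1 + ρ ^ (2 : ℕ)) := ⟨_, rfl⟩
    have hv1 : 1 - Real.exp (-yb) ≤ v := by
      rw [hv, le_div_iff₀ hR0, mul_comm]
      exact hL
    have hw1 : -ya ≤ w := by
      rw [hw, le_div_iff₀ hR0]
      nlinarith only [hρ0, hη1, hRr]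
    have hvs : v ^ (2 : ℕ) * r ≤ (1 / 2 + ω) ^ (2 : ℕ) * G := by
      have e : v ^ (2 : ℕ) * r = (1 / 2 + ω) ^ (2 : ℕ) * (r * Real.pi ^ (2 : ℕ)) * (ρ ^ (2 : ℕ) / (1 + ρ ^ (2 : ℕ)) ^ (2 : ℕ)) := by
        rw [hv]
        field_simp
      rw [e, ← hGe]
      have e2 : (1 / 2 + ω) ^ (2 : ℕ) * (G * (1 + ρ ^ (2 : ℕ))) * (ρ ^ (2 : ℕ) / (1 + ρ ^ (2 : ℕ)) ^ (2 : ℕ))
          = (1 / 2 + ω) ^ (2 : ℕ) * G * (ρ ^ (2 : ℕ) / (1 + ρ ^ (2 : ℕ))) := by
        field_simp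
      rw [e2]
      have e3 : ρ ^ (2 : ℕ) / (1 + ρ ^ (2 : ℕ)) ≤ 1 := by
        rw [div_le_one hR0]
        linarith only []
      have e4 : 0 ≤ (1 / 2 + ω) ^ (2 : ℕ) * G := by (clear * - hG; positivity)
      nlinarith only [e3, e4]
    have hws : w ^ (2 : ℕ) * r ≤ (1 / 2 - ω) ^ (2 : ℕ) * G := by
      have e : w ^ (2 : ℕ) * r = (1 / 2 - ω) ^ (2 : ℕ) * (r * Real.pi ^ (2 : ℕ)) * (ρ ^ (2 : ℕ) / (1 + ρ ^ (2 : ℕ)) ^ (2 : ℕ)) := by
        rw [hw]
        field_simp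
      rw [e, ← hGe]
      have e2 : (1 / 2 - ω) ^ (2 : ℕ) * (G * (1 + ρ ^ (2 : ℕ))) * (ρ ^ (2 : ℕ) / (1 + ρ ^ (2 : ℕ)) ^ (2 : ℕ))
          = (1 / 2 - ω) ^ (2 : ℕ) * G * (ρ ^ (2 : ℕ) / (1 + ρ ^ (2 : ℕ))) := by
        field_simp
      rw [e2]
      have e3 : ρ ^ (2 : ℕ) / (1 + ρ ^ (2 : ℕ)) ≤ 1 := by
        rw [div_le_one hR0]
        linarith only []
      have e4 : 0 ≤ (1 / 2 - ω) ^ (2 : ℕ) * G := by (clear * - hG; positivity)
      nlinarith only [e3, e4]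
    rcases hcase with ⟨h1, h2⟩ | ⟨h1, h2, h3⟩ | ⟨h1, h2⟩
    · rw [h2] at hvs hws ⊢
      have hv2 : v < 301 / 1000 := by nlinarith only [hr, hvs, h1]
      have hw2 : w ≤ 149 / 1000 := by nlinarith only [hr, hws, h1]
      refine ⟨9 / 25, 149 / 1000, y_le_of (by norm_num) hv1 (c := 699 / 1000) (by norm_num)
        (by linarith only [hv2]) (by norm_num), hw1.trans hw2, by norm_num, ?_⟩
      linarith only [hG]
    · rw [h3] at hvs hws ⊢
      have hv2 : v < 42 / 100 := by nlinarith only [hr, hvs, h2]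
      have hw2 : w ≤ 1 / 4 := by nlinarith only [hr, hws, h2]
      refine ⟨11 / 20, 1 / 4, y_le_of (by norm_num) hv1 (c := 58 / 100) (by norm_num)
        (by linarith only [hv2]) (by norm_num), hw1.trans hw2, by norm_num, ?_⟩
      linarith only [h1]
    · rw [h2] at hv hw hvs hws ⊢
      have hq : ρ / (1 + ρ ^ (2 : ℕ)) ≤ 2847 / 10000 := by
        rw [div_le_iff₀ hR0]
        nlinarith only [hρ]
      have hq0 : 0 ≤ ρ / (1 + ρ ^ (2 : ℕ)) := by (clear * - hρ; positivity)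
      have hpi := Real.pi_lt_d4
      have hv2 : v ≤ 2847 / 10000 * (3 / 5 * 3.1416) := by
        have e : v = ρ / (1 + ρ ^ (2 : ℕ)) * (3 / 5 * Real.pi) := by
          rw [hv]
          ring
        rw [e]
        refine mul_le_mul hq ?_ (by (clear * -; positivity)) (by norm_num)
        linarith only [hpi]
      have hw2 : w ≤ 2847 / 10000 * (2 / 5 * 3.1416) := by
        have e : w = ρ / (1 + ρ ^ (2 : ℕ)) * (2 / 5 * Real.pi) := by
          rw [hw]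
          ring
        rw [e]
        refine mul_le_mul hq ?_ (by (clear * -; positivity)) (by norm_num)
        linarith only [hpi]
      refine ⟨31 / 40, 36 / 100, y_le_of (by norm_num) hv1 (c := 463 / 1000) (by norm_num)
        (lt_of_le_of_lt hv2 (by norm_num)) (by norm_num), hw1.trans (hw2.trans (by norm_num)),
        by norm_num, ?_⟩
      linarith only [h1]
  have hLd := left_drop hρ2 hdb hyb0 (hY.trans hY31)
  have hRd := right_drop hρ2 hda hya1 hya0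
  rw [heb] at hLd
  rw [hea] at hRd
  refine gap_of hδ (by rw [← hρd]; exact hda) (by rw [← hρd]; exact hdb) hya1 hya0 hyb0 ?_
  rw [← hρd]
  rw [le_div_iff₀ hδ]
  have hηs : η ^ (2 : ℕ) ≤ ((1 / 2 - ω) * Real.pi) ^ (2 : ℕ) := by
    have : 0 ≤ (1 / 2 - ω) * Real.pi := by
      have : 0 ≤ 1 / 2 - ω := by linarith only [hω.2]
      (clear * - this; positivity)
    nlinarith only [hη0, hη1]
  have h7 : ρ * (9 / 20 * ((1 / 2 + ω) * Real.pi) ^ (2 : ℕ) - 1 / 2 * ((1 / 2 - ω) * Real.pi) ^ (2 : ℕ))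
      ≤ (1 + ρ ^ (2 : ℕ)) * (sx ρ ya * (1 + ya) - sx ρ yb * (1 + yb)) := by
    have h8 : ρ * η ^ (2 : ℕ) ≤ ρ * ((1 / 2 - ω) * Real.pi) ^ (2 : ℕ) := by gcongr
    linarith only [hLd, hRd, h8]
  have h9 : (1 / 2 + (yb - ya) / 2) * δ * (1 + ρ ^ (2 : ℕ))
      ≤ ρ * (9 / 20 * ((1 / 2 + ω) * Real.pi) ^ (2 : ℕ) - 1 / 2 * ((1 / 2 - ω) * Real.pi) ^ (2 : ℕ)) := by
    have e : ρ * (9 / 20 * ((1 / 2 + ω) * Real.pi) ^ (2 : ℕ) - 1 / 2 * ((1 / 2 - ω) * Real.pi) ^ (2 : ℕ))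
        = δ * (G * (1 + ρ ^ (2 : ℕ))) * (9 / 20 * (1 / 2 + ω) ^ (2 : ℕ) - 1 / 2 * (1 / 2 - ω) ^ (2 : ℕ)) := by
      rw [hGe, hρd]
      ring
    rw [e]
    have h10 : 1 / 2 + (yb - ya) / 2 ≤
        G * (9 / 20 * (1 / 2 + ω) ^ (2 : ℕ) - 1 / 2 * (1 / 2 - ω) ^ (2 : ℕ)) := by linarith only [hY, hn, hfin]
    have h11 : 0 < δ * (1 + ρ ^ (2 : ℕ)) := by (clear * - hδ hρ; positivity)
    nlinarith only [h10, h11]
  have h12 := h9.trans h7
  nlinarith only [h12]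

end SokamV3

end

/-! ### Lib_MP_af4de1_v3.T2Conv -/

section
namespace SokamF1
end SokamF1
namespace SokamF1B
end SokamF1B
namespace SokamF1G
end SokamF1G
namespace SokamF1M
end SokamF1M
namespace SokamF1S
end SokamF1S
namespace SokamPG
end SokamPG
namespace SokamU
end SokamU
/-!
# `N = 2`: the tails `T2` from the pieces
-/

set_option autoImplicit false

open Complex MeasureTheory Set SokamU SokamPG SokamF1 SokamF1S SokamF1M SokamF1G SokamF1B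

namespace SokamV3

theorem eo2_le_all (r δ : ℝ) : eo2 r δ ≤ 2105 / 1000 := by
  unfold eo2
  rw [own2_hst]
  have h1 : om2 r δ ≤ 17 / 100 := by
    unfold om2
    split_ifs <;> norm_num
  have h2 := Real.pi_lt_d4
  have h3 := Real.pi_pos
  norm_num at h2
  nlinarith

/-- the conversion -/
theorem t2_conv {r δ y η q τ0 τ1 τ2 ρ0 : ℝ} (hC : PTCore) (hF : PTFact) (h : Reg2 r δ)
    (hA : At r δ y η) (hS : Sad2 r δ y) (hη : |η| ≤ eo2 r δ) (hq : tS r δ y ≤ q * sG r δ y)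
    (hq0 : 0 ≤ q) (hρ0 : 0 < ρ0) (hρ : ρ0 ≤ r * δ) (hτ1 : 0 ≤ τ1) (hτ2 : 0 ≤ τ2)
    (h0 : 1001 / 1000 * q + 5 / 10000 ≤ τ0)
    (h1 : (1 + ρ0 ^ (2 : ℕ)) * (6466 / 1000 * q + 52 / 10000) ^ (2 : ℕ) ≤
      τ1 ^ (2 : ℕ) * (31415 / 10000) ^ (2 : ℕ) * ρ0 ^ (2 : ℕ))
    (h2 : (1 + ρ0 ^ (2 : ℕ)) * (4235 / 100 * q + 417 / 10000) ≤ τ2 * (31415 / 10000) ^ (2 : ℕ) * ρ0 ^ (2 : ℕ)) :
    T2 r δ y (bs r δ y) τ0 τ1 τ2 := by
  obtain ⟨f1, f2⟩ := hF r δ y η h hA hS hη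
  obtain ⟨c0, c1, c2⟩ := hC r δ y h.r0 h.d0 hA.dom hS f1 f2
  have hδ := h.d0
  have hr0 : 0 < r := by linarith only [h.r0]
  have hG := sG_pos (r := r) hδ hA.y1
  have hρp : 0 < r * δ := by (clear * - hr0 hδ; positivity)
  have hlo := hS.lo
  have hhi := hS.hi
  have hyy : |y| ≤ 13 / 20 := abs_le.2 ⟨by linarith only [hlo], hhi⟩
  have hpi : (31415 / 10000 : ℝ) ≤ Real.pi := by
    have := Real.pi_gt_d4
    norm_num at this ⊢
    linarith only [this]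
  have hRR : RR r δ = 1 + (r * δ) ^ (2 : ℕ) := rfl
  have hR : 0 < RR r δ := by rw [hRR]; (clear * - hr0 hδ; positivity)
  have hH := own2_Hpos h.toPar
  -- `(1 + ρ²)/ρ²` decreases
  have hmono : ∀ A B : ℝ, 0 ≤ A → (1 + ρ0 ^ (2 : ℕ)) * A ≤ B * ρ0 ^ (2 : ℕ) → RR r δ * A ≤ B * (r * δ) ^ (2 : ℕ) := by
    intro A B hA0 hAB
    rw [hRR]
    have h5 : ρ0 ^ (2 : ℕ) ≤ (r * δ) ^ (2 : ℕ) := by gcongr
    have h6 : A ≤ (B - A) * ρ0 ^ (2 : ℕ) := by linarith only [hAB]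
    have h7 : 0 ≤ B - A := by
      by_contra h8
      push Not at h8
      have : (B - A) * ρ0 ^ (2 : ℕ) < 0 := mul_neg_of_neg_of_pos h8 (by (clear * - hρ0; positivity))
      linarith only [hA0, h6, this]
    have h8 : (B - A) * ρ0 ^ (2 : ℕ) ≤ (B - A) * (r * δ) ^ (2 : ℕ) := by gcongr
    linarith only [h6, h8]
  have hk := own2_kap_le h hA hS
  have hkp : 0 ≤ ‖kap r δ y‖ / sD (r * δ) y := by
    have : 0 < sD (r * δ) y := Real.sqrt_pos.2 (sD2_pos hA.y1)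
    (clear * - this; positivity)
  refine ⟨bs_or, bs_le, bs_lt (lt_of_le_of_lt hyy (by norm_num)) ?_, ?_, ?_, ?_⟩
  · have h5 := K_mul_y_le hA.dom (by linarith only [hlo])
    rw [hA.eta] at h5
    have h6 : |η| ≤ 2105 / 1000 := hη.trans (eo2_le_all r δ)
    have h7 : |η| * (1 + |y|) ≤ 2105 / 1000 * (1 + 13 / 20) := by gcongr
    have e : |y| * (1 + sx (r * δ) y) = |y| + sx (r * δ) y * |y| := by ring
    rw [e]
    norm_num at h7 ⊢
    linarith only [hyy, h5, h7]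
  · have h5 : 1001 / 1000 * tS r δ y ≤ 1001 / 1000 * (q * sG r δ y) := by gcongr
    have h6 := mul_le_mul_of_nonneg_right h0 hG.le
    linarith only [c0, h5, h6]
  · -- weight `gs`
    set A := 6466 / 1000 * q + 52 / 10000 with hAd
    have hA0 : 0 ≤ A := by (clear * - hq0; positivity)
    have h5 : Tls r δ y (bs r δ y) gs ≤ A * sG r δ y := by
      have : 6466 / 1000 * tS r δ y ≤ 6466 / 1000 * (q * sG r δ y) := by gcongr
      rw [hAd]
      linarith only [hq, c1]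
    have h6 : r / (r * δ) * A ≤ τ1 * HH 2 r δ := by
      have h7 : √(RR r δ) * A ≤ τ1 * Real.pi * (r * δ) := by
        refine abs_le_of_sq_le_sq' ?_ (by (clear * - hτ1 hr0 hδ; positivity)) |>.2
        rw [mul_pow, Real.sq_sqrt hR.le]
        have h8 := hmono (A ^ (2 : ℕ)) (τ1 ^ (2 : ℕ) * (31415 / 10000) ^ (2 : ℕ)) (by (clear * - hq0; positivity)) h1
        have h9 : τ1 ^ (2 : ℕ) * (31415 / 10000) ^ (2 : ℕ) * (r * δ) ^ (2 : ℕ) ≤ (τ1 * Real.pi * (r * δ)) ^ (2 : ℕ) := by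
          calc τ1 ^ (2 : ℕ) * (31415 / 10000) ^ (2 : ℕ) * (r * δ) ^ (2 : ℕ) ≤ τ1 ^ (2 : ℕ) * Real.pi ^ (2 : ℕ) * (r * δ) ^ (2 : ℕ) := by
                gcongr
            _ = _ := by ring
        linarith only [h8, h9]
      unfold HH
      rw [own2_hst, mul_div_assoc', le_div_iff₀ (Real.sqrt_pos.2 hR), div_mul_eq_mul_div,
        div_mul_eq_mul_div, div_le_iff₀ hρp]
      have := mul_le_mul_of_nonneg_left h7 hr0.le
      linarith only [this]
    calc ‖kap r δ y‖ / sD (r * δ) y * Tls r δ y (bs r δ y) gs ≤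
          ‖kap r δ y‖ / sD (r * δ) y * (A * sG r δ y) := by gcongr
      _ ≤ r / (r * δ) * (A * sG r δ y) := by gcongr
      _ = r / (r * δ) * A * sG r δ y := by ring
      _ ≤ τ1 * HH 2 r δ * sG r δ y := by gcongr
  · set A := 4235 / 100 * q + 417 / 10000 with hAd
    have hA0 : 0 ≤ A := by (clear * - hq0; positivity)
    have h5 : Tls r δ y (bs r δ y) (fun s => s * gs s) ≤ A * sG r δ y := by
      have : 4235 / 100 * tS r δ y ≤ 4235 / 100 * (q * sG r δ y) := by gcongr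
      rw [hAd]
      linarith only [hq, c2]
    have h6 : r / (r * δ) * A ≤ τ2 * HH 2 r δ ^ (2 : ℕ) * δ := by
      have h8 := hmono A (τ2 * (31415 / 10000) ^ (2 : ℕ)) hA0 h2
      have h9 : τ2 * (31415 / 10000) ^ (2 : ℕ) * (r * δ) ^ (2 : ℕ) ≤ τ2 * Real.pi ^ (2 : ℕ) * (r * δ) ^ (2 : ℕ) := by gcongr
      unfold HH
      rw [own2_hst, div_pow, Real.sq_sqrt hR.le]
      have e : τ2 * ((r * Real.pi) ^ (2 : ℕ) / RR r δ) * δ = τ2 * r ^ (2 : ℕ) * Real.pi ^ (2 : ℕ) * δ / RR r δ := by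
        ring
      rw [e, le_div_iff₀ hR, div_mul_eq_mul_div, div_mul_eq_mul_div, div_le_iff₀ hρp]
      have h10 := mul_le_mul_of_nonneg_left (h8.trans h9) hr0.le
      linarith only [h10]
    calc ‖kap r δ y‖ / sD (r * δ) y * Tls r δ y (bs r δ y) (fun s => s * gs s) ≤
          ‖kap r δ y‖ / sD (r * δ) y * (A * sG r δ y) := by gcongr
      _ ≤ r / (r * δ) * (A * sG r δ y) := by gcongr
      _ = r / (r * δ) * A * sG r δ y := by ring
      _ ≤ τ2 * HH 2 r δ ^ (2 : ℕ) * δ * sG r δ y := by gcongr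
      _ = _ := by ring

end SokamV3

end

/-! ### Lib_MP_af4de1_v3.T2LoP -/

section
namespace SokamV3
end SokamV3
/-!
# `N = 2`, lumps of the side `y ≥ 0` in the low range `3/2 ≤ x ≤ 112/25` (there `ta x = 1`)
-/

set_option autoImplicit false

namespace SokamT2

open SokamV3

theorem lo_ta {x : ℝ} (hx1 : 3 / 2 ≤ x) (hx2 : x ≤ 112 / 25) : ta x = 1 := by
  unfold ta ts
  rw [min_eq_right (by linarith)]
  exact inv_mul_cancel₀ (by positivity)

theorem lo_D {x y D : ℝ} (hx1 : 3 / 2 ≤ x) (y0 : 0 ≤ y) (y1 : y ≤ 13 / 20)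
    (hD0 : 0 < D) (hD : D ^ (2 : ℕ) ≤ (1 + y) ^ (2 : ℕ) + x ^ (2 : ℕ)) :
    D ≤ 2 * (18 / 10) * (473 / 1000 * x - 134 / 1000 * |y|) := by
  rw [abs_of_nonneg y0]
  have hq : 0 ≤ 473 / 1000 * x - 134 / 1000 * (13 / 20) := by linarith
  have h1 : D ≤ 2 * (18 / 10) * (473 / 1000 * x - 134 / 1000 * (13 / 20)) := by
    refine (sq_le_sq₀ hD0.le (by (clear * - hq; positivity))).mp (hD.trans ?_)
    have h2 : (1 + y) ^ (2 : ℕ) ≤ (1 + 13 / 20) ^ (2 : ℕ) := by gcongr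
    nlinarith only [hx1, y0, y1]
  linarith

/-- `y ≤ .82425 - .1025 x` -/
theorem lo_line {x y : ℝ} (hx1 : 17 / 10 ≤ x) (hx2 : x ≤ 112 / 25)
    (con : x * (Real.exp y - 1) + (y + y ^ (2 : ℕ) / 2) / x ≤ 20421 / 10000) :
    y ≤ 82425 / 100000 - 1025 / 10000 * x := by
  by_contra hc
  push Not at hc
  obtain ⟨L, hL⟩ : ∃ L : ℝ, L = 82425 / 100000 - 1025 / 10000 * x := ⟨_, rfl⟩
  rw [← hL] at hc
  have hx0 : 0 < x := by linarith
  have hL0 : 0 < L := by rw [hL]; linarith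
  have hE : L + L ^ (2 : ℕ) / 2 + L ^ (3 : ℕ) / 6 ≤ Real.exp y - 1 := by
    have a1 := SokamF1G.e_ge3 hL0.le
    have a2 : Real.exp L ≤ Real.exp y := Real.exp_le_exp.mpr hc.le
    linarith
  have h2 : L + L ^ (2 : ℕ) / 2 ≤ y + y ^ (2 : ℕ) / 2 := by gcongr
  have h3 : (x * (Real.exp y - 1) + (y + y ^ (2 : ℕ) / 2) / x) * x =
      x ^ (2 : ℕ) * (Real.exp y - 1) + (y + y ^ (2 : ℕ) / 2) := by
    field_simp
  have h4 : x ^ (2 : ℕ) * (Real.exp y - 1) + (y + y ^ (2 : ℕ) / 2) ≤ 20421 / 10000 * x := by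
    rw [← h3]; gcongr
  have h5 : x ^ (2 : ℕ) * (L + L ^ (2 : ℕ) / 2 + L ^ (3 : ℕ) / 6) ≤ x ^ (2 : ℕ) * (Real.exp y - 1) := by gcongr
  have h6 : 20421 / 10000 * x < x ^ (2 : ℕ) * (L + L ^ (2 : ℕ) / 2 + L ^ (3 : ℕ) / 6) + (L + L ^ (2 : ℕ) / 2) := by
    have hu : 0 ≤ x - 17 / 10 := by linarith
    have hv : 0 ≤ 112 / 25 - x := by linarith
    have p : ∀ i j : ℕ, 0 ≤ (x - 17 / 10) ^ i * (112 / 25 - x) ^ j := fun i j => by (clear * - hx1 hx2; positivity)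
    rw [hL]
    linarith [p 0 5, p 1 4, p 2 3, p 3 2, p 4 1, p 5 0]
  linarith

/-- the core inequality `(tH - .0802 (x + 2.0421)) μ ≥ .2625 m²` -/
theorem lo_core {x y e : ℝ} (hx1 : 3 / 2 ≤ x) (hx2 : x ≤ 112 / 25) (y0 : 0 ≤ y) (y1 : y ≤ 13 / 20)
    (con : x * (Real.exp y - 1) + (y + y ^ (2 : ℕ) / 2) / x ≤ 20421 / 10000)
    (he1 : 27182 / 10000 ≤ e) (he2 : e ≤ 27183 / 10000) :
    2625 / 10000 * (1 - y + e * y) ^ (2 : ℕ) ≤
      (62831 / 10000 * (1 - y) - x * (e - 1 - 1) - 802 / 10000 * (x + 20421 / 10000)) *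
        (e * (473 / 1000 * x - 134 / 1000 * y)) := by
  -- with an upper bound `z` of `y`
  have key : ∀ z : ℝ, y ≤ z → z ≤ 13 / 20 → 0 ≤ 62831 / 10000 * (1 - z) - x * (7183 / 10000) -
      802 / 10000 * (x + 20421 / 10000) → 2625 / 10000 * (1 + 17183 / 10000 * z) ^ (2 : ℕ) ≤
      (62831 / 10000 * (1 - z) - x * (7183 / 10000) - 802 / 10000 * (x + 20421 / 10000)) *
        (27182 / 10000 * (473 / 1000 * x - 134 / 1000 * z)) →
      2625 / 10000 * (1 - y + e * y) ^ (2 : ℕ) ≤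
      (62831 / 10000 * (1 - y) - x * (e - 1 - 1) - 802 / 10000 * (x + 20421 / 10000)) *
        (e * (473 / 1000 * x - 134 / 1000 * y)) := by
    intro z hz hz1 hA h
    have z0 : 0 ≤ z := y0.trans hz
    have a1 : (1 - y + e * y) ^ (2 : ℕ) ≤ (1 + 17183 / 10000 * z) ^ (2 : ℕ) := by
      have b1 : 0 ≤ 1 - y + e * y := by nlinarith only [y0, he1]
      have b2 : 1 - y + e * y ≤ 1 + 17183 / 10000 * z := by nlinarith only [he1, he2, hz, z0]
      gcongr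
    have a2 : 62831 / 10000 * (1 - z) - x * (7183 / 10000) - 802 / 10000 * (x + 20421 / 10000) ≤
        62831 / 10000 * (1 - y) - x * (e - 1 - 1) - 802 / 10000 * (x + 20421 / 10000) := by
      nlinarith only [hx1, he2, hz]
    have a3 : 27182 / 10000 * (473 / 1000 * x - 134 / 1000 * z) ≤
        e * (473 / 1000 * x - 134 / 1000 * y) := by
      have b1 : 473 / 1000 * x - 134 / 1000 * z ≤ 473 / 1000 * x - 134 / 1000 * y := by linarith
      have b2 : 0 ≤ 473 / 1000 * x - 134 / 1000 * z := by linarith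
      gcongr
    have a4 : 0 ≤ 27182 / 10000 * (473 / 1000 * x - 134 / 1000 * z) := by
      have b2 : 0 ≤ 473 / 1000 * x - 134 / 1000 * z := by linarith
      (clear * - b2; positivity)
    calc _ ≤ 2625 / 10000 * (1 + 17183 / 10000 * z) ^ (2 : ℕ) := by gcongr
      _ ≤ _ := h
      _ ≤ _ := mul_le_mul a2 a3 a4 (hA.trans a2)
  rcases le_total x (17 / 10) with h | h
  · refine key (13 / 20) y1 le_rfl (by linarith) ?_
    nlinarith only [hx1, h]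
  · have hl := lo_line h hx2 con
    refine key _ hl (by linarith) (by linarith) ?_
    nlinarith only [mul_nonneg (by linarith : 0 ≤ x - 17 / 10) (by linarith : 0 ≤ 112 / 25 - x)]

theorem lo_e1 : (27182 / 10000 : ℝ) ≤ Real.exp 1 := by
  have := Real.exp_one_gt_d9; linarith

theorem lo_e2 : Real.exp 1 ≤ (27183 / 10000 : ℝ) := by
  have := Real.exp_one_lt_d9; linarith

theorem loP {x y w D : ℝ} (hx1 : 3 / 2 ≤ x) (hx2 : x ≤ 112 / 25) (y0 : 0 ≤ y) (y1 : y ≤ 13 / 20)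
    (hD0 : 0 < D) (hD : D ^ (2 : ℕ) ≤ (1 + y) ^ (2 : ℕ) + x ^ (2 : ℕ))
    (con : x * (Real.exp y - 1) + (y + y ^ (2 : ℕ) / 2) / x ≤ 20421 / 10000) (hw : 0 < w)
    (hwx : 499 / 10 ≤ w * (x + 20421 / 10000)) :
    tP 1 x y w ≤ 159 / 10000 * √(2 * Real.pi / (w * D)) := by
  have e1 := lo_e1
  have e2 := lo_e2
  have hpi := Real.pi_gt_d6
  have hta := lo_ta hx1 hx2
  have hq : 0 < 473 / 1000 * x - 134 / 1000 * |y| := by rw [abs_of_nonneg y0]; linarith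
  have hμ : tμ 1 x y = Real.exp 1 * (473 / 1000 * x - 134 / 1000 * y) := by
    unfold tμ; rw [hta, abs_of_nonneg y0]; norm_num
  have hm : tm 1 x y = 1 - y + Real.exp 1 * y := by
    unfold tm; rw [hta]; norm_num
  have hH : tH 1 x y = 2 * Real.pi * (1 - y) - x * (Real.exp 1 - 1 - 1) := by
    unfold tH; rw [hta]; norm_num
  have hμ0 : 0 < tμ 1 x y := by
    rw [hμ]; rw [abs_of_nonneg y0] at hq; (clear * - hq; positivity)
  have hx0 : 0 < x + 20421 / 10000 := by linarith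
  refine tP_le (κ := 105 / 100) (l := 18 / 10) (L := 9 / 2) hw (by norm_num) hD0 hq (by norm_num) ?_
    (lo_D hx1 y0 y1 hD0 hD) ?_ ?_
  · -- `w μ ≥ 21`
    have h1 : 21 * (x + 20421 / 10000) ≤ 499 / 10 * tμ 1 x y := by
      rw [hμ]
      have : 27182 / 10000 * (473 / 1000 * x - 134 / 1000 * (13 / 20)) ≤
          Real.exp 1 * (473 / 1000 * x - 134 / 1000 * y) := by
        have b2 : 0 ≤ 473 / 1000 * x - 134 / 1000 * (13 / 20) := by linarith
        gcongr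
      linarith
    have h2 : 21 * (x + 20421 / 10000) ≤ w * tμ 1 x y * (x + 20421 / 10000) := by
      calc 21 * (x + 20421 / 10000) ≤ 499 / 10 * tμ 1 x y := h1
        _ ≤ w * (x + 20421 / 10000) * tμ 1 x y := by gcongr
        _ = _ := by ring
    have h3 := le_of_mul_le_mul_right h2 hx0
    linarith
  · have hc := lo_core hx1 hx2 y0 y1 con e1 e2
    have h1 : 802 / 10000 * (x + 20421 / 10000) ≤
        tH 1 x y - 105 / 100 * tm 1 x y ^ (2 : ℕ) / (4 * tμ 1 x y) := by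
      have h2 : 105 / 100 * tm 1 x y ^ (2 : ℕ) / (4 * tμ 1 x y) =
          2625 / 10000 * tm 1 x y ^ (2 : ℕ) / tμ 1 x y := by
        field_simp; ring
      have h3 : 2625 / 10000 * tm 1 x y ^ (2 : ℕ) / tμ 1 x y ≤
          62831 / 10000 * (1 - y) - x * (Real.exp 1 - 1 - 1) -
            802 / 10000 * (x + 20421 / 10000) := by
        rw [div_le_iff₀ hμ0, hm, hμ]
        exact hc
      have h4 : 62831 / 10000 * (1 - y) ≤ 2 * Real.pi * (1 - y) := by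
        have : 0 ≤ 1 - y := by linarith
        gcongr
        linarith
      rw [h2, hH]
      linarith
    have h5 : 4 ≤ w * (tH 1 x y - 105 / 100 * tm 1 x y ^ (2 : ℕ) / (4 * tμ 1 x y)) := by
      calc (4 : ℝ) ≤ 802 / 10000 * (499 / 10) := by norm_num
        _ ≤ 802 / 10000 * (w * (x + 20421 / 10000)) := by gcongr
        _ = w * (802 / 10000 * (x + 20421 / 10000)) := by ring
        _ ≤ _ := by gcongr
    rw [hta]
    linarith
  · have h1 : Real.exp (-(2 * (9 / 2) : ℝ)) ≤ 12385 / 10 ^ (8 : ℕ) := by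
      have h2 : (27182 / 10000 : ℝ) ^ (9 : ℕ) ≤ Real.exp (2 * (9 / 2)) := by
        have h3 : Real.exp (2 * (9 / 2)) = Real.exp 1 ^ (9 : ℕ) := by
          rw [← Real.exp_nat_mul]; norm_num
        rw [h3]
        gcongr
      rw [Real.exp_neg, inv_le_comm₀ (Real.exp_pos _) (by norm_num)]
      refine le_trans ?_ h2
      norm_num
    calc 105 / 100 * (18 / 10) * Real.exp (-(2 * (9 / 2))) ≤
        105 / 100 * (18 / 10) * (12385 / 10 ^ (8 : ℕ)) := by gcongr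
      _ ≤ (159 / 10000) ^ (2 : ℕ) := by norm_num

theorem loPn {x y w D : ℝ} (hx1 : 3 / 2 ≤ x) (hx2 : x ≤ 112 / 25) (y0 : 0 ≤ y) (y1 : y ≤ 13 / 20)
    (hD0 : 0 < D) (hD : D ^ (2 : ℕ) ≤ (1 + y) ^ (2 : ℕ) + x ^ (2 : ℕ))
    (con : x * (Real.exp y - 1) + (y + y ^ (2 : ℕ) / 2) / x ≤ 20421 / 10000) (hw : 0 < w)
    (hwx : 499 / 10 ≤ w * (x + 20421 / 10000)) :
    tP (-1) x (-y) w ≤ 3 / 10000 * √(2 * Real.pi / (w * D)) := by
  have _ := con
  have e1 : 36787 / 100000 ≤ Real.exp (-1) := by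
    have := Real.exp_one_lt_d9
    rw [Real.exp_neg, le_inv_comm₀ (by norm_num) (Real.exp_pos _)]
    norm_num
    linarith
  have e2 : Real.exp (-1) ≤ 36789 / 100000 := by
    have := Real.exp_one_gt_d9
    rw [Real.exp_neg, inv_le_comm₀ (Real.exp_pos _) (by norm_num)]
    norm_num
    linarith
  have hpi := Real.pi_gt_d6
  have hta := lo_ta hx1 hx2
  have habs : |-y| = y := by rw [abs_neg, abs_of_nonneg y0]
  have hq : 0 < 473 / 1000 * x - 134 / 1000 * |-y| := by rw [habs]; linarith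
  have hμ : tμ (-1) x (-y) = Real.exp (-1) * (473 / 1000 * x - 134 / 1000 * y) := by
    unfold tμ; rw [hta, habs]; norm_num
  have hm : tm (-1) x (-y) = 1 + y - Real.exp (-1) * y := by
    unfold tm; rw [hta]; norm_num; ring
  have hH : tH (-1) x (-y) = 2 * Real.pi * (1 + y) - x * Real.exp (-1) := by
    unfold tH; rw [hta]; norm_num
  have hμ1 : 22895 / 100000 ≤ tμ (-1) x (-y) := by
    rw [hμ]
    calc (22895 / 100000 : ℝ) ≤ 36787 / 100000 * (473 / 1000 * (3 / 2) - 134 / 1000 * (13 / 20)) := by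
          norm_num
      _ ≤ _ := by gcongr
  have hμ0 : 0 < tμ (-1) x (-y) := by linarith
  have hx0 : 0 < x + 20421 / 10000 := by linarith
  refine tP_le (κ := 146 / 100) (l := 18 / 10) (L := 10) hw (by norm_num) hD0 hq (by norm_num) ?_
    (by rw [habs]; have := lo_D hx1 y0 y1 hD0 hD; rwa [abs_of_nonneg y0] at this) ?_ ?_
  · -- `w μ ≥ 32/10`
    have h1 : 318 / 100 * (x + 20421 / 10000) ≤ 499 / 10 * tμ (-1) x (-y) := by
      rw [hμ]
      have : 36787 / 100000 * (473 / 1000 * x - 134 / 1000 * (13 / 20)) ≤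
          Real.exp (-1) * (473 / 1000 * x - 134 / 1000 * y) := by
        have b2 : 0 ≤ 473 / 1000 * x - 134 / 1000 * (13 / 20) := by linarith
        gcongr
      linarith
    have h2 : 318 / 100 * (x + 20421 / 10000) ≤ w * tμ (-1) x (-y) * (x + 20421 / 10000) := by
      calc 318 / 100 * (x + 20421 / 10000) ≤ 499 / 10 * tμ (-1) x (-y) := h1
        _ ≤ w * (x + 20421 / 10000) * tμ (-1) x (-y) := by gcongr
        _ = _ := by ring
    have h3 := le_of_mul_le_mul_right h2 hx0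
    linarith
  · have hm2 : tm (-1) x (-y) ^ (2 : ℕ) ≤ 2 := by
      rw [hm]
      have b1 : 0 ≤ 1 + y - Real.exp (-1) * y := by nlinarith only [y0, e2]
      have b2 : 1 + y - Real.exp (-1) * y ≤ 1 + 6322 / 10000 * (13 / 20) := by nlinarith only [y1, e1, e2]
      calc (1 + y - Real.exp (-1) * y) ^ (2 : ℕ) ≤ (1 + 6322 / 10000 * (13 / 20)) ^ (2 : ℕ) := by gcongr
        _ ≤ 2 := by norm_num
    have h1 : 1375 / 1000 ≤
        tH (-1) x (-y) - 146 / 100 * tm (-1) x (-y) ^ (2 : ℕ) / (4 * tμ (-1) x (-y)) := by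
      have h3 : 146 / 100 * tm (-1) x (-y) ^ (2 : ℕ) / (4 * tμ (-1) x (-y)) ≤ 319 / 100 := by
        rw [div_le_iff₀ (by (clear * - hμ1; positivity))]
        linarith
      have h4 : 62831 / 10000 ≤ 2 * Real.pi * (1 + y) := by nlinarith only [y0, hpi]
      have h5 : x * Real.exp (-1) ≤ 112 / 25 * (36789 / 100000) := by gcongr
      rw [hH]
      norm_num at h5
      linarith
    have h6 : 1375 / 1000 * (499 / 10) ≤
        w * (tH (-1) x (-y) - 146 / 100 * tm (-1) x (-y) ^ (2 : ℕ) / (4 * tμ (-1) x (-y))) *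
          (x + 20421 / 10000) := by
      calc 1375 / 1000 * (499 / 10) ≤ 1375 / 1000 * (w * (x + 20421 / 10000)) := by gcongr
        _ = w * (1375 / 1000) * (x + 20421 / 10000) := by ring
        _ ≤ _ := by gcongr
    have h7 : 105 / 10 * (x + 20421 / 10000) ≤ 1375 / 1000 * (499 / 10) := by linarith
    have h8 := le_of_mul_le_mul_right (h7.trans h6) hx0
    rw [hta]
    linarith
  · have h1 : Real.exp (-(2 * 10 : ℝ)) ≤ 21 / 10 ^ (10 : ℕ) := by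
      have h2 : (27182 / 10000 : ℝ) ^ (20 : ℕ) ≤ Real.exp (2 * 10) := by
        have h3 : Real.exp (2 * 10) = Real.exp 1 ^ (20 : ℕ) := by
          rw [← Real.exp_nat_mul]; norm_num
        rw [h3]
        gcongr
        exact lo_e1
      rw [Real.exp_neg, inv_le_comm₀ (Real.exp_pos _) (by norm_num)]
      refine le_trans ?_ h2
      norm_num
    calc 146 / 100 * (18 / 10) * Real.exp (-(2 * 10)) ≤
        146 / 100 * (18 / 10) * (21 / 10 ^ (10 : ℕ)) := by gcongr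
      _ ≤ (3 / 10000) ^ (2 : ℕ) := by norm_num

end SokamT2

end
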