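import Pool.Agent.Lib_MP_af4de1_zy.Z158

/-! ### Lib_MP_af4de1_v3.T2FactA -/

section
namespace SokamF1
end SokamF1
namespace SokamF1B
end SokamF1B
namespace SokamF1G
end SokamF1G
namespace SokamF1M
end SokamF1M
namespace SokamF1S
end SokamF1S
namespace SokamPG
end SokamPG
namespace SokamU
end SokamU
/-!
# `N = 2`: `PTFact`, part A: trigonometric constants, exponentials, the generic inequality (helper34)
-/

set_option autoImplicit false
set_option maxHeartbeats 4000000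

open Complex MeasureTheory Set SokamU SokamPG SokamF1 SokamF1S SokamF1M SokamF1G SokamF1B

namespace SokamV3

/-! ### exponentials -/

theorem tf_q {a : ℝ} (h0 : 0 ≤ a) (h1 : a ≤ 1) :
    Real.exp (-a) ≤ 1 - 19 / 20 * a + 334 / 1000 * a ^ (2 : ℕ) := by
  have h := t2c_exp_neg_le4 h0
  have hp : 0 ≤ 5 / 100 - 166 / 1000 * a + a ^ (2 : ℕ) / 6 - a ^ (3 : ℕ) / 24 := by
    nlinarith only [mul_nonneg (sq_nonneg (a - 66 / 100)) (by linarith : (0 : ℝ) ≤ 1 - a)]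
  have h2 := mul_nonneg h0 hp
  linarith only [h, h2]

theorem tf_E {a : ℝ} (h0 : 0 ≤ a) (h1 : a ≤ 1) :
    Real.exp a ≤ 1 + a + 7184 / 10000 * a ^ (2 : ℕ) := by
  have h := exp_five h0 h1
  have h2 : a ^ (3 : ℕ) ≤ a ^ (2 : ℕ) := pow_le_pow_of_le_one h0 h1 (by norm_num)
  have h3 : a ^ (4 : ℕ) ≤ a ^ (2 : ℕ) := pow_le_pow_of_le_one h0 h1 (by norm_num)
  have h4 : a ^ (5 : ℕ) ≤ a ^ (2 : ℕ) := pow_le_pow_of_le_one h0 h1 (by norm_num)
  have h5 := sq_nonneg a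
  linarith only [h, h2, h3, h4, h5]

/-! ### trigonometric constants -/

theorem tf_pi : (3141592 / 1000000 : ℝ) ≤ Real.pi ∧ Real.pi ≤ 3141593 / 1000000 := by
  have h1 := Real.pi_gt_d6
  have h2 := Real.pi_lt_d6
  norm_num at h1 h2
  constructor <;> linarith

theorem tf_tr {x v s z : ℝ} (hx : 0 ≤ x) (hv : 0 ≤ v) (hvx : v ≤ 2 / 5 * x) (hz0 : 0 ≤ z)
    (hz : z ≤ Real.pi / 4) (h1 : s ≤ 3 * Real.pi / 2 + z) (h2 : Real.pi / 2 + z ≤ s) :
    x * Real.cos s - v * Real.sin s ≤ x * Real.sin z + v * Real.cos z := by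
  have hpi := Real.pi_pos
  obtain ⟨d, hd⟩ : ∃ d, d = 3 * Real.pi / 2 + z - s := ⟨_, rfl⟩
  have hs : s = (z - d) + Real.pi / 2 + Real.pi := by rw [hd]; ring
  have hd0 : 0 ≤ d := by linarith only [h1, hs]
  have hd1 : d ≤ Real.pi := by linarith only [h2, hd]
  have e1 : Real.cos s = Real.sin (z - d) := by
    rw [hs, Real.cos_add_pi, Real.cos_add_pi_div_two, neg_neg]
  have e2 : Real.sin s = -Real.cos (z - d) := by
    rw [hs, Real.sin_add_pi, Real.sin_add_pi_div_two]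
  rw [e1, e2, Real.sin_sub, Real.cos_sub]
  have hsz : 0 ≤ Real.sin z := Real.sin_nonneg_of_nonneg_of_le_pi hz0 (by linarith only [hz, h1, h2])
  have hcz : Real.sin z ≤ Real.cos z := by
    rw [← Real.sin_pi_div_two_sub]
    exact Real.sin_le_sin_of_le_of_le_pi_div_two (by linarith only [hz0, hpi]) (by linarith only [hz0]) (by linarith only [hz])
  have hsd : 0 ≤ Real.sin d := Real.sin_nonneg_of_nonneg_of_le_pi hd0 hd1
  have hcd := Real.cos_le_one d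
  have h3 : 0 ≤ x * Real.sin z + v * Real.cos z := by
    have : 0 ≤ Real.cos z := by linarith only [hsz, hcz]
    positivity
  have h4 : 0 ≤ x * Real.cos z - v * Real.sin z := by
    have h5 : v * Real.sin z ≤ x * Real.cos z := by
      have : v ≤ x := by linarith only [hv, hvx]
      have : 0 ≤ Real.cos z := by linarith only [hsz, hcz]
      gcongr
    linarith only [h5]
  have h5 := mul_nonneg hsd h4
  have h6 := mul_nonneg (by linarith : 0 ≤ 1 - Real.cos d) h3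
  linarith only [h5, h6]

/-- `x cos s - v sin s ≤ x P + v Q` with the constants at `s₁` -/
theorem tf_piece {x v s P Q z : ℝ} (hx : 0 ≤ x) (hv : 0 ≤ v) (hvx : v ≤ 2 / 5 * x) (hz0 : 0 ≤ z)
    (hz : z ≤ 785 / 1000) (h1 : s ≤ 4712388 / 1000000 + z) (h2 : 1570797 / 1000000 + z ≤ s)
    (hP : z - z ^ (3 : ℕ) / 6 + z ^ (5 : ℕ) / 120 ≤ P) (hQ : 1 - z ^ (2 : ℕ) / 2 + z ^ (4 : ℕ) / 24 ≤ Q) :
    x * Real.cos s - v * Real.sin s ≤ P * x + Q * v := by
  have hpi := tf_pi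
  have h := tf_tr (s := s) hx hv hvx hz0 (by linarith only [hz, hpi]) (by linarith only [h1, hpi]) (by linarith only [h2, hpi])
  have h3 := (sin_le5 hz0).trans hP
  have h4 := (cos_le4 hz0).trans hQ
  have h5 := mul_le_mul_of_nonneg_left h3 hx
  have h6 := mul_le_mul_of_nonneg_left h4 hv
  linarith only [h, h5, h6]

theorem tf_p1 {x v s : ℝ} (hx : 0 ≤ x) (hv : 0 ≤ v) (hvx : v ≤ 2 / 5 * x)
    (h1 : 47 / 10 ≤ s) (h2 : s ≤ 51 / 10) :
    x * Real.cos s - v * Real.sin s ≤ 378 / 1000 * x + 9259 / 10000 * v :=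
  tf_piece (z := 38762 / 100000) hx hv hvx (by norm_num) (by norm_num) (by linarith only [h2]) (by linarith only [h1])
    (by norm_num) (by norm_num)

theorem tf_p2 {x v s : ℝ} (hx : 0 ≤ x) (hv : 0 ≤ v) (hvx : v ≤ 2 / 5 * x)
    (h1 : 47 / 10 ≤ s) (h2 : s ≤ 53 / 10) :
    x * Real.cos s - v * Real.sin s ≤ 5544 / 10000 * x + 8324 / 10000 * v :=
  tf_piece (z := 58762 / 100000) hx hv hvx (by norm_num) (by norm_num) (by linarith only [h2]) (by linarith only [h1])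
    (by norm_num) (by norm_num)

theorem tf_p3 {x v s : ℝ} (hx : 0 ≤ x) (hv : 0 ≤ v) (hvx : v ≤ 2 / 5 * x)
    (h1 : 47 / 10 ≤ s) (h2 : s ≤ 539 / 100) :
    x * Real.cos s - v * Real.sin s ≤ 6271 / 10000 * x + 7793 / 10000 * v :=
  tf_piece (z := 67762 / 100000) hx hv hvx (by norm_num) (by norm_num) (by linarith only [h2]) (by linarith only [h1])
    (by norm_num) (by norm_num)

theorem tf_p4 {x v s : ℝ} (hx : 0 ≤ x) (hv : 0 ≤ v) (hvx : v ≤ 2 / 5 * x)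
    (h1 : 47 / 10 ≤ s) (h2 : s ≤ 137 / 25) :
    x * Real.cos s - v * Real.sin s ≤ 6945 / 10000 * x + 72 / 100 * v :=
  tf_piece (z := 76762 / 100000) hx hv hvx (by norm_num) (by norm_num) (by linarith only [h2]) (by linarith only [h1])
    (by norm_num) (by norm_num)

/-- `cos s ≤ .0708` for `3/2 ≤ s ≤ 47/10` -/
theorem tf_cosA {s : ℝ} (h1 : 3 / 2 ≤ s) (h2 : s ≤ 47 / 10) : Real.cos s ≤ 708 / 10000 := by
  have hpi := tf_pi
  rcases le_total s (Real.pi / 2) with h | h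
  · have e : Real.cos s = Real.sin (Real.pi / 2 - s) := (Real.sin_pi_div_two_sub s).symm
    rw [e]
    refine (sin_le1 (by linarith only [h])).trans ?_
    linarith only [h1, hpi]
  · have : Real.cos s ≤ 0 := Real.cos_nonpos_of_pi_div_two_le_of_le h (by linarith only [h2, hpi])
    linarith only [this]

/-- `cos φ ≤ .6971` for `4/5 ≤ φ ≤ 137/25` -/
theorem tf_cosB {s : ℝ} (h1 : 4 / 5 ≤ s) (h2 : s ≤ 137 / 25) : Real.cos s ≤ 6971 / 10000 := by
  have hpi := tf_pi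
  have key : ∀ t : ℝ, 4 / 5 ≤ t → t ≤ Real.pi → Real.cos t ≤ 6971 / 10000 := by
    intro t ht1 ht2
    have h3 : Real.cos t ≤ Real.cos (4 / 5) :=
      Real.cos_le_cos_of_nonneg_of_le_pi (by norm_num) ht2 ht1
    have h4 := cos_le4 (x := 4 / 5) (by norm_num)
    norm_num at h4
    linarith only [h3, h4]
  rcases le_total s Real.pi with h | h
  · exact key s h1 h
  · have e : Real.cos s = Real.cos (2 * Real.pi - s) := by
      rw [Real.cos_two_pi_sub]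
    rw [e]
    exact key _ (by linarith only [h2, hpi]) (by linarith only [h])

/-! ### the generic inequality for the side `ε = -1`, `y ≤ 0` -/

theorem tf_gen {α β γ δ ε κ l μ X0 x n v : ℝ} (hx : 16 / 5 ≤ x) (hn0 : 0 ≤ n) (hn1 : n ≤ 1 / 2)
    (hv0 : 0 ≤ v) (hnv : n ≤ v + 69 / 100 * v ^ (2 : ℕ)) (hvn : n - n ^ (2 : ℕ) / 2 ≤ v)
    (hxv : x * v ≤ 2105 / 1000) (hβ : 0 ≤ β) (hl : 0 ≤ l) (hμ : 0 ≤ μ)
    (hK : β * X0 + 20 / 127 * l ≤ κ) (hK1 : 107 / 20 * β + 5 / 21 * l ≤ κ) (hX0 : 107 / 20 ≤ X0)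
    (hI : ∀ x, 16 / 5 ≤ x → x ≤ 107 / 20 → 0 ≤ (α + 3 / 8 * β) * x * (1 + x) ^ (2 : ℕ) -
      γ * (1 + x) ^ (2 : ℕ) + δ * (1 + x) + ε - 1 / 2 * (κ * (1 + x) ^ (2 : ℕ) - l * (1 + x) + μ))
    (hII : ∀ x, 107 / 20 ≤ x → 0 ≤ α * x ^ (3 : ℕ) * (1 + x) ^ (2 : ℕ) +
      (β * (2105 / 1000) - γ) * x ^ (2 : ℕ) * (1 + x) ^ (2 : ℕ) + δ * x ^ (2 : ℕ) * (1 + x) + ε * x ^ (2 : ℕ) -
      (2105 / 1000 * x + 69 / 100 * (2105 / 1000) ^ (2 : ℕ)) * (κ * (1 + x) ^ (2 : ℕ) - l * (1 + x) + μ))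
    (hIII : ∀ x, X0 ≤ x → 0 ≤ α * x ^ (3 : ℕ) * (1 + x) ^ (2 : ℕ) - γ * x ^ (2 : ℕ) * (1 + x) ^ (2 : ℕ) +
      δ * x ^ (2 : ℕ) * (1 + x) + ε * x ^ (2 : ℕ) -
      (2105 / 1000 * x + 69 / 100 * (2105 / 1000) ^ (2 : ℕ)) * (κ * (1 + x) ^ (2 : ℕ) - l * (1 + x) + μ)) :
    0 ≤ α * x + β * (x * v) - γ + δ * (1 + x)⁻¹ + ε * (1 + x)⁻¹ ^ (2 : ℕ) -
      n * (κ - l * (1 + x)⁻¹ + μ * (1 + x)⁻¹ ^ (2 : ℕ)) := by
  have hx0 : 0 < x := by linarith only [hx, hn0]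
  have hx1 : 0 < 1 + x := by linarith only [hx0]
  obtain ⟨c, hc⟩ : ∃ c, c = (1 + x)⁻¹ := ⟨_, rfl⟩
  have hc0 : 0 < c := by rw [hc]; positivity
  have hcx : c * (1 + x) = 1 := by rw [hc]; exact inv_mul_cancel₀ hx1.ne'
  rcases le_total x (107 / 20) with h5 | h5
  · -- region I
    have hc1 : c ≤ 5 / 21 := by
      rw [hc, inv_le_comm₀ hx1 (by norm_num)]
      norm_num
      linarith only [hx]
    have hKc : β * x ≤ κ - l * c + μ * c ^ (2 : ℕ) := by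
      have h1 : l * c ≤ l * (5 / 21) := by gcongr
      have h2 : β * x ≤ β * (107 / 20) := by gcongr
      have h3 : 0 ≤ μ * c ^ (2 : ℕ) := by positivity
      linarith only [hK1, h1, h2, h3]
    have h1 : 0 ≤ (α * x + 3 / 8 * (β * x) - γ + δ * c + ε * c ^ (2 : ℕ) -
        1 / 2 * (κ - l * c + μ * c ^ (2 : ℕ))) := by
      have e : α * x + 3 / 8 * (β * x) - γ + δ * c + ε * c ^ (2 : ℕ) -
          1 / 2 * (κ - l * c + μ * c ^ (2 : ℕ)) = ((α + 3 / 8 * β) * x * (1 + x) ^ (2 : ℕ) -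
          γ * (1 + x) ^ (2 : ℕ) + δ * (1 + x) + ε - 1 / 2 * (κ * (1 + x) ^ (2 : ℕ) - l * (1 + x) + μ)) *
          c ^ (2 : ℕ) := by
        rw [hc]
        field_simp
      rw [e]
      have := hI x hx h5
      positivity
    rw [← hc]
    have h2 : β * x * (n - n ^ (2 : ℕ) / 2) ≤ β * (x * v) := by
      have : 0 ≤ β * x := by positivity
      calc β * x * (n - n ^ (2 : ℕ) / 2) ≤ β * x * v := by gcongr
        _ = β * (x * v) := by ring
    have h3 : 0 ≤ (1 / 2 - n) * ((κ - l * c + μ * c ^ (2 : ℕ)) - β * x * (3 / 4 - n / 2)) := by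
      refine mul_nonneg (by linarith only [hn1]) ?_
      have h4 : 0 ≤ β * x := by positivity
      have h6 : β * x * (3 / 4 - n / 2) ≤ β * x * 1 := by
        refine mul_le_mul_of_nonneg_left ?_ h4
        linarith only [hn0]
      linarith only [hKc, h6]
    linarith only [h1, h2, h3]
  · have hc1 : c ≤ 20 / 127 := by
      rw [hc, inv_le_comm₀ hx1 (by norm_num)]
      norm_num
      linarith only [h5]
    obtain ⟨V, hV⟩ : ∃ V, V = 2105 / 1000 / x := ⟨_, rfl⟩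
    have hV0 : 0 < V := by rw [hV]; positivity
    have hxV : x * V = 2105 / 1000 := by rw [hV]; field_simp
    have hvV : v ≤ V := by
      rw [hV, le_div_iff₀ hx0]
      linarith only [hxv]
    have hKp : 0 ≤ κ - l * c + μ * c ^ (2 : ℕ) := by
      have h1 : l * c ≤ l * (20 / 127) := by gcongr
      have h3 : 0 ≤ μ * c ^ (2 : ℕ) := by positivity
      have h4 : 0 ≤ β * X0 := mul_nonneg hβ (by linarith only [hX0])
      linarith only [hK, h1, h3, h4]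
    have h1 : n * (κ - l * c + μ * c ^ (2 : ℕ)) ≤ (v + 69 / 100 * v ^ (2 : ℕ)) * (κ - l * c + μ * c ^ (2 : ℕ)) := by
      gcongr
    rw [← hc]
    rcases le_total x X0 with h6 | h6
    · have hKc : β * x ≤ κ - l * c + μ * c ^ (2 : ℕ) := by
        have h1 : l * c ≤ l * (20 / 127) := by gcongr
        have h2 : β * x ≤ β * X0 := by gcongr
        have h3 : 0 ≤ μ * c ^ (2 : ℕ) := by positivity
        linarith only [hK, h1, h2, h3]
      have h2 : 0 ≤ α * x + β * (2105 / 1000) - γ + δ * c + ε * c ^ (2 : ℕ) -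
          (V + 69 / 100 * V ^ (2 : ℕ)) * (κ - l * c + μ * c ^ (2 : ℕ)) := by
        have e : α * x + β * (2105 / 1000) - γ + δ * c + ε * c ^ (2 : ℕ) -
          (V + 69 / 100 * V ^ (2 : ℕ)) * (κ - l * c + μ * c ^ (2 : ℕ)) = (α * x ^ (3 : ℕ) * (1 + x) ^ (2 : ℕ) +
          (β * (2105 / 1000) - γ) * x ^ (2 : ℕ) * (1 + x) ^ (2 : ℕ) + δ * x ^ (2 : ℕ) * (1 + x) + ε * x ^ (2 : ℕ) -
          (2105 / 1000 * x + 69 / 100 * (2105 / 1000) ^ (2 : ℕ)) *
          (κ * (1 + x) ^ (2 : ℕ) - l * (1 + x) + μ)) * (c / x) ^ (2 : ℕ) := by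
          rw [hc, hV]
          field_simp
          ring
        rw [e]
        have := hII x h5
        positivity
      have h3 : 0 ≤ (V - v) * ((κ - l * c + μ * c ^ (2 : ℕ)) * (1 + 69 / 100 * (V + v)) - β * x) := by
        refine mul_nonneg (by linarith only [hvV]) ?_
        have h7 : (κ - l * c + μ * c ^ (2 : ℕ)) * 1 ≤
            (κ - l * c + μ * c ^ (2 : ℕ)) * (1 + 69 / 100 * (V + v)) := by
          refine mul_le_mul_of_nonneg_left ?_ hKp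
          linarith only [hv0, hvV]
        linarith only [hKc, h7]
      have h4 : (V - v) * (β * x) = β * (2105 / 1000) - β * (x * v) := by
        rw [← hxV]
        ring
      linarith only [h1, h2, h3, h4]
    · have h2 : 0 ≤ α * x - γ + δ * c + ε * c ^ (2 : ℕ) -
          (V + 69 / 100 * V ^ (2 : ℕ)) * (κ - l * c + μ * c ^ (2 : ℕ)) := by
        have e : α * x - γ + δ * c + ε * c ^ (2 : ℕ) -
          (V + 69 / 100 * V ^ (2 : ℕ)) * (κ - l * c + μ * c ^ (2 : ℕ)) = (α * x ^ (3 : ℕ) * (1 + x) ^ (2 : ℕ) -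
          γ * x ^ (2 : ℕ) * (1 + x) ^ (2 : ℕ) + δ * x ^ (2 : ℕ) * (1 + x) + ε * x ^ (2 : ℕ) -
          (2105 / 1000 * x + 69 / 100 * (2105 / 1000) ^ (2 : ℕ)) *
          (κ * (1 + x) ^ (2 : ℕ) - l * (1 + x) + μ)) * (c / x) ^ (2 : ℕ) := by
          rw [hc, hV]
          field_simp
        rw [e]
        have := hIII x h6
        positivity
      have h3 : (v + 69 / 100 * v ^ (2 : ℕ)) * (κ - l * c + μ * c ^ (2 : ℕ)) ≤
          (V + 69 / 100 * V ^ (2 : ℕ)) * (κ - l * c + μ * c ^ (2 : ℕ)) := by gcongr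
      have h4 : 0 ≤ β * (x * v) := by positivity
      linarith only [h1, h2, h3, h4]

/-- The reduction of a piece of the slanted part (`ε = -1`, `y ≤ 0`) to the generic form. -/
theorem tf_bneg {s0 s1 P Q s x n v a ρ : ℝ} (hx : 16 / 5 ≤ x) (hn0 : 0 ≤ n) (hn1 : n ≤ 1 / 2)
    (hv0 : 0 ≤ v) (hρ : ρ ≤ (x + n ^ (2 : ℕ) / (2 * x)) * (1 - v))
    (hs0 : 0 < s0) (h1 : s0 ≤ s) (h2 : s ≤ s1) (hP0 : 0 ≤ P) (hP1 : P ≤ 77 / 100) (hQ : 0 ≤ Q)
    (ha : a * (1 + x) = s) (ha1 : a ≤ 1)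
    (hcos : x * Real.cos s - n * Real.sin s ≤ P * x + Q * n)
    (hg : 0 ≤ (77 / 100 - P) * x + 23 / 100 * (x * v) - s1 * (1 - 19 / 20 * P) +
      (s1 * (1 - 19 / 20 * P) + s0 ^ (2 : ℕ) * (1 - 334 / 1000 * P)) * (1 + x)⁻¹ +
      334 / 1000 * P * s0 ^ (2 : ℕ) * (1 + x)⁻¹ ^ (2 : ℕ) -
      n * (s1 + 18 / 1000 + Q - 19 / 20 * Q * s0 * (1 + x)⁻¹ +
        334 / 1000 * Q * s0 ^ (2 : ℕ) * (1 + x)⁻¹ ^ (2 : ℕ))) :
    23 / 100 * ρ ≤ Hs (-1) x n a s := by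
  have hx0 : 0 < x := by linarith only [hx, hn0]
  have hx1 : 0 < 1 + x := by linarith only [hx0]
  obtain ⟨c, hc⟩ : ∃ c, c = (1 + x)⁻¹ := ⟨_, rfl⟩
  rw [← hc] at hg
  have hc0 : 0 < c := by rw [hc]; positivity
  have hcx : c * (1 + x) = 1 := by rw [hc]; exact inv_mul_cancel₀ hx1.ne'
  have hxc : x * c = 1 - c := by linarith only [hcx]
  have hc1 : c ≤ 1 := by nlinarith only [hx0, hxc]
  have hac : a = c * s := by
    rw [← ha]
    linear_combination (-a) * hcx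
  have ha0 : 0 ≤ a := by
    rw [hac]
    have : 0 < s := by linarith only [hs0, h1]
    positivity
  have hq := tf_q ha0 ha1
  have hT : 0 ≤ P * x + Q * n := by positivity
  have hE : Real.exp (-a) * (x * Real.cos s - n * Real.sin s) ≤
      (1 - 19 / 20 * a + 334 / 1000 * a ^ (2 : ℕ)) * (P * x + Q * n) := by
    calc Real.exp (-a) * (x * Real.cos s - n * Real.sin s) ≤ Real.exp (-a) * (P * x + Q * n) := by
          gcongr
      _ ≤ _ := by gcongr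
  have hρ2 : 23 / 100 * ρ ≤ 23 / 100 * x - 23 / 100 * (x * v) + 18 / 1000 * n := by
    have h3 : n ^ (2 : ℕ) / (2 * x) ≤ 18 / 230 * n := by
      rw [div_le_iff₀ (by positivity)]
      nlinarith only [hx, hn0, hn1]
    have h4 : n ^ (2 : ℕ) / (2 * x) * (1 - v) ≤ n ^ (2 : ℕ) / (2 * x) * 1 := by
      have : 0 ≤ n ^ (2 : ℕ) / (2 * x) := by positivity
      gcongr
      linarith only [hv0]
    linarith only [hρ, h3, h4]
  unfold Hs
  have e1 : (-1 : ℝ) * a = -a := by ring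
  rw [e1]
  have hs : 0 ≤ s := by linarith only [hs0, h1]
  -- the three monotonicities
  have T1 : s * ((1 - c) * (1 - 19 / 20 * P)) ≤ s1 * ((1 - c) * (1 - 19 / 20 * P)) := by
    have : 0 ≤ (1 - c) * (1 - 19 / 20 * P) := mul_nonneg (by linarith only [hc1]) (by linarith only [hP1])
    gcongr
  have T2 : s0 ^ (2 : ℕ) * (c * (1 - 334 / 1000 * P * (1 - c))) ≤
      s ^ (2 : ℕ) * (c * (1 - 334 / 1000 * P * (1 - c))) := by
    have h3 : 334 / 1000 * P * (1 - c) ≤ 1 := by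
      have h4 : P * (1 - c) ≤ 77 / 100 * 1 := by
        have : 0 ≤ 1 - c := by linarith only [hc1]
        have : 1 - c ≤ 1 := by linarith only [hc0]
        gcongr
      linarith only [h4]
    have : 0 ≤ c * (1 - 334 / 1000 * P * (1 - c)) := mul_nonneg hc0.le (by linarith only [h3])
    gcongr
  have T3 : n * (s + 18 / 1000 + Q * (1 - 19 / 20 * (c * s) + 334 / 1000 * (c * s) ^ (2 : ℕ))) ≤
      n * (s1 + 18 / 1000 + Q * (1 - 19 / 20 * (c * s0) + 334 / 1000 * (c * s0) ^ (2 : ℕ))) := by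
    refine mul_le_mul_of_nonneg_left ?_ hn0
    have h3 : 0 ≤ Q * (c * (s - s0) * (19 / 20 - 334 / 1000 * (c * s + c * s0))) := by
      have h5 : c * s ≤ 1 := by rw [← hac]; exact ha1
      have h6 : c * s0 ≤ c * s := by gcongr
      have h7 : 0 ≤ c * (s - s0) := mul_nonneg hc0.le (by linarith only [h1])
      refine mul_nonneg hQ (mul_nonneg h7 (by linarith only [h5, h6]))
    have e3 : Q * (1 - 19 / 20 * (c * s0) + 334 / 1000 * (c * s0) ^ (2 : ℕ)) -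
        Q * (1 - 19 / 20 * (c * s) + 334 / 1000 * (c * s) ^ (2 : ℕ)) =
        Q * (c * (s - s0) * (19 / 20 - 334 / 1000 * (c * s + c * s0))) := by ring
    linarith only [h2, h3]
  have key : (c * s - n) * s + x * (1 - c * s) -
      (1 - 19 / 20 * (c * s) + 334 / 1000 * (c * s) ^ (2 : ℕ)) * (P * x + Q * n) -
      (23 / 100 * x - 23 / 100 * (x * v) + 18 / 1000 * n) =
      (77 / 100 - P) * x + 23 / 100 * (x * v) - s * ((1 - c) * (1 - 19 / 20 * P)) +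
      s ^ (2 : ℕ) * (c * (1 - 334 / 1000 * P * (1 - c))) -
      n * (s + 18 / 1000 + Q * (1 - 19 / 20 * (c * s) + 334 / 1000 * (c * s) ^ (2 : ℕ))) := by
    linear_combination (-s + 19 / 20 * P * s - 334 / 1000 * P * s ^ (2 : ℕ) * c) * hxc
  have e4 : n * (s1 + 18 / 1000 + Q * (1 - 19 / 20 * (c * s0) + 334 / 1000 * (c * s0) ^ (2 : ℕ))) =
      n * (s1 + 18 / 1000 + Q - 19 / 20 * Q * s0 * c + 334 / 1000 * Q * s0 ^ (2 : ℕ) * c ^ (2 : ℕ)) := by ring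
  have e5 : s0 ^ (2 : ℕ) * (c * (1 - 334 / 1000 * P * (1 - c))) =
      s0 ^ (2 : ℕ) * (1 - 334 / 1000 * P) * c + 334 / 1000 * P * s0 ^ (2 : ℕ) * c ^ (2 : ℕ) := by ring
  have e6 : s1 * ((1 - c) * (1 - 19 / 20 * P)) =
      s1 * (1 - 19 / 20 * P) - s1 * (1 - 19 / 20 * P) * c := by ring
  have e7 : (s1 * (1 - 19 / 20 * P) + s0 ^ (2 : ℕ) * (1 - 334 / 1000 * P)) * c =
      s1 * (1 - 19 / 20 * P) * c + s0 ^ (2 : ℕ) * (1 - 334 / 1000 * P) * c := by ring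
  have e8 : x * (1 + -(c * s)) = x * (1 - c * s) := by ring
  rw [hac] at hE ⊢
  rw [e8]
  rw [e4] at T3
  rw [e5] at T2
  rw [e6] at T1
  rw [e7] at hg
  linarith only [hg, hE, hρ2, T1, T2, T3, key]

theorem tf_g1 {x n v : ℝ} (hx : 16 / 5 ≤ x) (hn0 : 0 ≤ n) (hn1 : n ≤ 1 / 2)
    (hv0 : 0 ≤ v) (hnv : n ≤ v + 69 / 100 * v ^ (2 : ℕ)) (hvn : n - n ^ (2 : ℕ) / 2 ≤ v)
    (hxv : x * v ≤ 2105 / 1000) :
    0 ≤ (77 / 100 - 378 / 1000) * x + 23 / 100 * (x * v) - 51 / 10 * (1 - 19 / 20 * (378 / 1000)) +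
      (51 / 10 * (1 - 19 / 20 * (378 / 1000)) + (47 / 10) ^ (2 : ℕ) * (1 - 334 / 1000 * (378 / 1000))) * (1 + x)⁻¹ +
      334 / 1000 * (378 / 1000) * (47 / 10) ^ (2 : ℕ) * (1 + x)⁻¹ ^ (2 : ℕ) -
      n * (51 / 10 + 18 / 1000 + 9259 / 10000 - 19 / 20 * (9259 / 10000) * (47 / 10) * (1 + x)⁻¹ +
        334 / 1000 * (9259 / 10000) * (47 / 10) ^ (2 : ℕ) * (1 + x)⁻¹ ^ (2 : ℕ)) := by
  refine tf_gen (X0 := 22) hx hn0 hn1 hv0 hnv hvn hxv (by norm_num) (by norm_num) (by norm_num)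
    (by norm_num) (by norm_num) (by norm_num) ?_ ?_ ?_
  · intro x h1 h2
    obtain ⟨z, hz⟩ : ∃ z, z = 107 / 20 - x := ⟨_, rfl⟩
    have hz0 : 0 ≤ z := by linarith only [h2, hz]
    have hz1 : z ≤ 215 / 100 := by linarith only [h1, hz]
    obtain rfl : x = 107 / 20 - z := by linarith only [hz]
    nlinarith only [mul_nonneg (mul_nonneg hz0 hz0) (by linarith : 0 ≤ 215 / 100 - z)]
  · intro x h1
    obtain ⟨z, hz⟩ : ∃ z, z = x - 107 / 20 := ⟨_, rfl⟩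
    have hz0 : 0 ≤ z := by linarith only [h1, hz]
    obtain rfl : x = 107 / 20 + z := by linarith only [hz]
    ring_nf
    positivity
  · intro x h1
    obtain ⟨z, hz⟩ : ∃ z, z = x - 22 := ⟨_, rfl⟩
    have hz0 : 0 ≤ z := by linarith only [h1, hz]
    obtain rfl : x = 22 + z := by linarith only [hz]
    ring_nf
    positivity

theorem tf_g2 {x n v : ℝ} (hx : 16 / 5 ≤ x) (hn0 : 0 ≤ n) (hn1 : n ≤ 1 / 2)
    (hv0 : 0 ≤ v) (hnv : n ≤ v + 69 / 100 * v ^ (2 : ℕ)) (hvn : n - n ^ (2 : ℕ) / 2 ≤ v)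
    (hxv : x * v ≤ 2105 / 1000) :
    0 ≤ (77 / 100 - 5544 / 10000) * x + 23 / 100 * (x * v) - 53 / 10 * (1 - 19 / 20 * (5544 / 10000)) +
      (53 / 10 * (1 - 19 / 20 * (5544 / 10000)) + (51 / 10) ^ (2 : ℕ) * (1 - 334 / 1000 * (5544 / 10000))) * (1 + x)⁻¹ +
      334 / 1000 * (5544 / 10000) * (51 / 10) ^ (2 : ℕ) * (1 + x)⁻¹ ^ (2 : ℕ) -
      n * (53 / 10 + 18 / 1000 + 8324 / 10000 - 19 / 20 * (8324 / 10000) * (51 / 10) * (1 + x)⁻¹ +
        334 / 1000 * (8324 / 10000) * (51 / 10) ^ (2 : ℕ) * (1 + x)⁻¹ ^ (2 : ℕ)) := by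
  refine tf_gen (X0 := 22) hx hn0 hn1 hv0 hnv hvn hxv (by norm_num) (by norm_num) (by norm_num)
    (by norm_num) (by norm_num) (by norm_num) ?_ ?_ ?_
  · intro x h1 h2
    obtain ⟨z, hz⟩ : ∃ z, z = 107 / 20 - x := ⟨_, rfl⟩
    have hz0 : 0 ≤ z := by linarith only [h2, hz]
    have hz1 : z ≤ 215 / 100 := by linarith only [h1, hz]
    obtain rfl : x = 107 / 20 - z := by linarith only [hz]
    nlinarith only [mul_nonneg hz0 (by linarith : 0 ≤ 215 / 100 - z), mul_nonneg (mul_nonneg hz0 hz0) (by linarith : 0 ≤ 215 / 100 - z)]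
  · intro x h1
    obtain ⟨z, hz⟩ : ∃ z, z = x - 107 / 20 := ⟨_, rfl⟩
    have hz0 : 0 ≤ z := by linarith only [h1, hz]
    obtain rfl : x = 107 / 20 + z := by linarith only [hz]
    ring_nf
    positivity
  · intro x h1
    obtain ⟨z, hz⟩ : ∃ z, z = x - 22 := ⟨_, rfl⟩
    have hz0 : 0 ≤ z := by linarith only [h1, hz]
    obtain rfl : x = 22 + z := by linarith only [hz]
    ring_nf
    positivity

theorem tf_g3 {x n v : ℝ} (hx : 16 / 5 ≤ x) (hn0 : 0 ≤ n) (hn1 : n ≤ 1 / 2)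
    (hv0 : 0 ≤ v) (hnv : n ≤ v + 69 / 100 * v ^ (2 : ℕ)) (hvn : n - n ^ (2 : ℕ) / 2 ≤ v)
    (hxv : x * v ≤ 2105 / 1000) :
    0 ≤ (77 / 100 - 6271 / 10000) * x + 23 / 100 * (x * v) - 539 / 100 * (1 - 19 / 20 * (6271 / 10000)) +
      (539 / 100 * (1 - 19 / 20 * (6271 / 10000)) + (53 / 10) ^ (2 : ℕ) * (1 - 334 / 1000 * (6271 / 10000))) * (1 + x)⁻¹ +
      334 / 1000 * (6271 / 10000) * (53 / 10) ^ (2 : ℕ) * (1 + x)⁻¹ ^ (2 : ℕ) -
      n * (539 / 100 + 18 / 1000 + 7793 / 10000 - 19 / 20 * (7793 / 10000) * (53 / 10) * (1 + x)⁻¹ +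
        334 / 1000 * (7793 / 10000) * (53 / 10) ^ (2 : ℕ) * (1 + x)⁻¹ ^ (2 : ℕ)) := by
  refine tf_gen (X0 := 22) hx hn0 hn1 hv0 hnv hvn hxv (by norm_num) (by norm_num) (by norm_num)
    (by norm_num) (by norm_num) (by norm_num) ?_ ?_ ?_
  · intro x h1 h2
    obtain ⟨z, hz⟩ : ∃ z, z = 107 / 20 - x := ⟨_, rfl⟩
    have hz0 : 0 ≤ z := by linarith only [h2, hz]
    have hz1 : z ≤ 215 / 100 := by linarith only [h1, hz]
    obtain rfl : x = 107 / 20 - z := by linarith only [hz]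
    nlinarith only [mul_nonneg hz0 (by linarith : 0 ≤ 215 / 100 - z), mul_nonneg (mul_nonneg hz0 hz0) (by linarith : 0 ≤ 215 / 100 - z)]
  · intro x h1
    obtain ⟨z, hz⟩ : ∃ z, z = x - 107 / 20 := ⟨_, rfl⟩
    have hz0 : 0 ≤ z := by linarith only [h1, hz]
    obtain rfl : x = 107 / 20 + z := by linarith only [hz]
    ring_nf
    positivity
  · intro x h1
    obtain ⟨z, hz⟩ : ∃ z, z = x - 22 := ⟨_, rfl⟩
    have hz0 : 0 ≤ z := by linarith only [h1, hz]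
    obtain rfl : x = 22 + z := by linarith only [hz]
    ring_nf
    positivity

theorem tf_g4 {x n v : ℝ} (hx : 16 / 5 ≤ x) (hn0 : 0 ≤ n) (hn1 : n ≤ 1 / 2)
    (hv0 : 0 ≤ v) (hnv : n ≤ v + 69 / 100 * v ^ (2 : ℕ)) (hvn : n - n ^ (2 : ℕ) / 2 ≤ v)
    (hxv : x * v ≤ 2105 / 1000) :
    0 ≤ (77 / 100 - 6945 / 10000) * x + 23 / 100 * (x * v) - 137 / 25 * (1 - 19 / 20 * (6945 / 10000)) +
      (137 / 25 * (1 - 19 / 20 * (6945 / 10000)) + (539 / 100) ^ (2 : ℕ) * (1 - 334 / 1000 * (6945 / 10000))) * (1 + x)⁻¹ +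
      334 / 1000 * (6945 / 10000) * (539 / 100) ^ (2 : ℕ) * (1 + x)⁻¹ ^ (2 : ℕ) -
      n * (137 / 25 + 18 / 1000 + 72 / 100 - 19 / 20 * (72 / 100) * (539 / 100) * (1 + x)⁻¹ +
        334 / 1000 * (72 / 100) * (539 / 100) ^ (2 : ℕ) * (1 + x)⁻¹ ^ (2 : ℕ)) := by
  refine tf_gen (X0 := 22) hx hn0 hn1 hv0 hnv hvn hxv (by norm_num) (by norm_num) (by norm_num)
    (by norm_num) (by norm_num) (by norm_num) ?_ ?_ ?_
  · intro x h1 h2
    obtain ⟨z, hz⟩ : ∃ z, z = 107 / 20 - x := ⟨_, rfl⟩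
    have hz0 : 0 ≤ z := by linarith only [h2, hz]
    have hz1 : z ≤ 215 / 100 := by linarith only [h1, hz]
    obtain rfl : x = 107 / 20 - z := by linarith only [hz]
    nlinarith only [mul_nonneg hz0 (by linarith : 0 ≤ 215 / 100 - z), mul_nonneg (mul_nonneg hz0 hz0) (by linarith : 0 ≤ 215 / 100 - z)]
  · intro x h1
    obtain ⟨z, hz⟩ : ∃ z, z = x - 107 / 20 := ⟨_, rfl⟩
    have hz0 : 0 ≤ z := by linarith only [h1, hz]
    obtain rfl : x = 107 / 20 + z := by linarith only [hz]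
    ring_nf
    positivity
  · intro x h1
    obtain ⟨z, hz⟩ : ∃ z, z = x - 22 := ⟨_, rfl⟩
    have hz0 : 0 ≤ z := by linarith only [h1, hz]
    obtain rfl : x = 22 + z := by linarith only [hz]
    ring_nf
    positivity

end SokamV3

end
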