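import Pool.Agent.Lib_MP_af4de1_zy.Z46

/-! ### Lib_MP_af4de1_v3.TailZd -/

section
namespace SokamF1G
end SokamF1G
/-!
# Tails of regime I, `x ≥ 3`, `y ≤ 0`, `s ≤ 137/25`, left side
-/

set_option autoImplicit false

namespace SokamV3T

open Real SokamF1G

/-! ### Polynomial inequalities -/

theorem zd_A1_1 {x s : ℝ} (hx : 3 ≤ x) (h0 : 3 / 2 ≤ s) (h1 : s ≤ 3927 / 2500) :
    (7 / 5 + 7 / 80 * (137 / 25 - s)) * (1 + x) ≤ s ^ (2 : ℕ) + x * (1 + x - s) - 53 / 100 * s * (1 + x) - (1 + x) * (x * (1.5708 - s) - 53 / 100 * 0.997) := by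
  obtain ⟨u, hu, rfl⟩ : ∃ u, 0 ≤ u ∧ x = 3 + u := ⟨x - 3, by linarith only [hx], by ring⟩
  obtain ⟨v, hv, rfl⟩ : ∃ v, 0 ≤ v ∧ s = 3 / 2 + v := ⟨s - 3 / 2, by linarith only [h0], by ring⟩
  obtain ⟨w, hw, hwv⟩ : ∃ w, 0 ≤ w ∧ w = 177 / 2500 - v := ⟨_, by linarith only [h1], rfl⟩
  have h : 0 ≤ (5256500 / 31329) * w ^ (2 : ℕ) +
      (15039775 / 31329) * v ^ (1 : ℕ) * w ^ (1 : ℕ) +
      (9814604 / 31329) * v ^ (2 : ℕ) +
      (6228250 / 10443) * u ^ (1 : ℕ) * w ^ (2 : ℕ) +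
      (53104925 / 41772) * u ^ (1 : ℕ) * v ^ (1 : ℕ) * w ^ (1 : ℕ) +
      (28191925 / 41772) * u ^ (1 : ℕ) * v ^ (2 : ℕ) +
      (5807500 / 31329) * u ^ (2 : ℕ) * w ^ (2 : ℕ) +
      (12057500 / 31329) * u ^ (2 : ℕ) * v ^ (1 : ℕ) * w ^ (1 : ℕ) +
      (6250000 / 31329) * u ^ (2 : ℕ) * v ^ (2 : ℕ) := by
    positivity
  rw [hwv] at h
  linarith only [h]

theorem zd_A1_2 {x s : ℝ} (hx : 112 / 25 ≤ x) (h0 : 3 / 2 ≤ s) (h1 : s ≤ 3927 / 2500) :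
    (7 / 4 + 7 / 80 * (137 / 25 - s)) * (1 + x) ≤ s ^ (2 : ℕ) + x * (1 + x - s) - 53 / 100 * s * (1 + x) - (1 + x) * (x * (1.5708 - s) - 53 / 100 * 0.997) := by
  obtain ⟨u, hu, rfl⟩ : ∃ u, 0 ≤ u ∧ x = 112 / 25 + u := ⟨x - 112 / 25, by linarith only [hx], by ring⟩
  obtain ⟨v, hv, rfl⟩ : ∃ v, 0 ≤ v ∧ s = 3 / 2 + v := ⟨s - 3 / 2, by linarith only [h0], by ring⟩
  obtain ⟨w, hw, hwv⟩ : ∃ w, 0 ≤ w ∧ w = 177 / 2500 - v := ⟨_, by linarith only [h1], rfl⟩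
  have h : 0 ≤ (33643178 / 31329) * w ^ (2 : ℕ) +
      (305687959 / 125316) * v ^ (1 : ℕ) * w ^ (1 : ℕ) +
      (171240563 / 125316) * v ^ (2 : ℕ) +
      (3743050 / 3481) * u ^ (1 : ℕ) * w ^ (2 : ℕ) +
      (94858525 / 41772) * u ^ (1 : ℕ) * v ^ (1 : ℕ) * w ^ (1 : ℕ) +
      (49941925 / 41772) * u ^ (1 : ℕ) * v ^ (2 : ℕ) +
      (5807500 / 31329) * u ^ (2 : ℕ) * w ^ (2 : ℕ) +
      (12057500 / 31329) * u ^ (2 : ℕ) * v ^ (1 : ℕ) * w ^ (1 : ℕ) +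
      (6250000 / 31329) * u ^ (2 : ℕ) * v ^ (2 : ℕ) := by
    positivity
  rw [hwv] at h
  linarith only [h]

theorem zd_A2_1 {x s : ℝ} (hx : 3 ≤ x) (h0 : 3 / 2 ≤ s) (h1 : s ≤ 3927 / 2500) :
    (7 / 5 + 7 / 80 * (137 / 25 - s)) * (1 + x) ≤ s ^ (2 : ℕ) + x * (1 + x - s) - 53 / 100 * s * (1 + x) - (1 + x - s) * (x * (1.5708 - s) - 53 / 100 * 0.997) := by
  obtain ⟨u, hu, rfl⟩ : ∃ u, 0 ≤ u ∧ x = 3 + u := ⟨x - 3, by linarith only [hx], by ring⟩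
  obtain ⟨v, hv, rfl⟩ : ∃ v, 0 ≤ v ∧ s = 3 / 2 + v := ⟨s - 3 / 2, by linarith only [h0], by ring⟩
  obtain ⟨w, hw, hwv⟩ : ∃ w, 0 ≤ w ∧ w = 177 / 2500 - v := ⟨_, by linarith only [h1], rfl⟩
  have h : 0 ≤ (9175625 / 125316) * w ^ (2 : ℕ) +
      (279340123 / 1253160) * v ^ (1 : ℕ) * w ^ (1 : ℕ) +
      (185077553 / 1253160) * v ^ (2 : ℕ) +
      (6449500 / 10443) * u ^ (1 : ℕ) * w ^ (2 : ℕ) +
      (54031697 / 41772) * u ^ (1 : ℕ) * v ^ (1 : ℕ) * w ^ (1 : ℕ) +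
      (28191925 / 41772) * u ^ (1 : ℕ) * v ^ (2 : ℕ) +
      (5807500 / 31329) * u ^ (2 : ℕ) * w ^ (2 : ℕ) +
      (12057500 / 31329) * u ^ (2 : ℕ) * v ^ (1 : ℕ) * w ^ (1 : ℕ) +
      (6250000 / 31329) * u ^ (2 : ℕ) * v ^ (2 : ℕ) := by
    positivity
  rw [hwv] at h
  linarith only [h]

theorem zd_A2_2 {x s : ℝ} (hx : 112 / 25 ≤ x) (h0 : 3 / 2 ≤ s) (h1 : s ≤ 3927 / 2500) :
    (7 / 4 + 7 / 80 * (137 / 25 - s)) * (1 + x) ≤ s ^ (2 : ℕ) + x * (1 + x - s) - 53 / 100 * s * (1 + x) - (1 + x - s) * (x * (1.5708 - s) - 53 / 100 * 0.997) := by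
  obtain ⟨u, hu, rfl⟩ : ∃ u, 0 ≤ u ∧ x = 112 / 25 + u := ⟨x - 112 / 25, by linarith only [hx], by ring⟩
  obtain ⟨v, hv, rfl⟩ : ∃ v, 0 ≤ v ∧ s = 3 / 2 + v := ⟨s - 3 / 2, by linarith only [h0], by ring⟩
  obtain ⟨w, hw, hwv⟩ : ∃ w, 0 ≤ w ∧ w = 177 / 2500 - v := ⟨_, by linarith only [h1], rfl⟩
  have h : 0 ≤ (126651737 / 125316) * w ^ (2 : ℕ) +
      (13878886949 / 6265800) * v ^ (1 : ℕ) * w ^ (1 : ℕ) +
      (1504899023 / 1253160) * v ^ (2 : ℕ) +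
      (3816800 / 3481) * u ^ (1 : ℕ) * w ^ (2 : ℕ) +
      (95785297 / 41772) * u ^ (1 : ℕ) * v ^ (1 : ℕ) * w ^ (1 : ℕ) +
      (49941925 / 41772) * u ^ (1 : ℕ) * v ^ (2 : ℕ) +
      (5807500 / 31329) * u ^ (2 : ℕ) * w ^ (2 : ℕ) +
      (12057500 / 31329) * u ^ (2 : ℕ) * v ^ (1 : ℕ) * w ^ (1 : ℕ) +
      (6250000 / 31329) * u ^ (2 : ℕ) * v ^ (2 : ℕ) := by
    positivity
  rw [hwv] at h
  linarith only [h]

theorem zd_B1a_1 {x s : ℝ} (hx : 3 ≤ x) (h0 : 157 / 100 ≤ s) (h1 : s ≤ 1309 / 625) :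
    (7 / 5 + 7 / 80 * (137 / 25 - s)) * (1 + x) ≤ s ^ (2 : ℕ) + x * (1 + x - s) - 53 / 100 * s * (1 + x) - (1 + x - s) * (-(0.95 * x * (s - 1.5708)) - 0.4558) := by
  obtain ⟨u, hu, rfl⟩ : ∃ u, 0 ≤ u ∧ x = 3 + u := ⟨x - 3, by linarith only [hx], by ring⟩
  obtain ⟨v, hv, rfl⟩ : ∃ v, 0 ≤ v ∧ s = 157 / 100 + v := ⟨s - 157 / 100, by linarith only [h0], by ring⟩
  obtain ⟨w, hw, hwv⟩ : ∃ w, 0 ≤ w ∧ w = 1311 / 2500 - v := ⟨_, by linarith only [h1], rfl⟩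
  have h : 0 ≤ (3500335 / 1718721) * w ^ (2 : ℕ) +
      (457405189 / 34374420) * v ^ (1 : ℕ) * w ^ (1 : ℕ) +
      (80951453 / 8593605) * v ^ (2 : ℕ) +
      (82686205 / 6874884) * u ^ (1 : ℕ) * w ^ (2 : ℕ) +
      (267623917 / 8593605) * u ^ (1 : ℕ) * v ^ (1 : ℕ) * w ^ (1 : ℕ) +
      (156102236 / 8593605) * u ^ (1 : ℕ) * v ^ (2 : ℕ) +
      (2081750 / 572907) * u ^ (2 : ℕ) * w ^ (2 : ℕ) +
      (5201375 / 572907) * u ^ (2 : ℕ) * v ^ (1 : ℕ) * w ^ (1 : ℕ) +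
      (1039875 / 190969) * u ^ (2 : ℕ) * v ^ (2 : ℕ) := by
    positivity
  rw [hwv] at h
  linarith only [h]

theorem zd_B1a_2 {x s : ℝ} (hx : 112 / 25 ≤ x) (h0 : 157 / 100 ≤ s) (h1 : s ≤ 1309 / 625) :
    (7 / 4 + 7 / 80 * (137 / 25 - s)) * (1 + x) ≤ s ^ (2 : ℕ) + x * (1 + x - s) - 53 / 100 * s * (1 + x) - (1 + x - s) * (-(0.95 * x * (s - 1.5708)) - 0.4558) := by
  obtain ⟨u, hu, rfl⟩ : ∃ u, 0 ≤ u ∧ x = 112 / 25 + u := ⟨x - 112 / 25, by linarith only [hx], by ring⟩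
  obtain ⟨v, hv, rfl⟩ : ∃ v, 0 ≤ v ∧ s = 157 / 100 + v := ⟨s - 157 / 100, by linarith only [h0], by ring⟩
  obtain ⟨w, hw, hwv⟩ : ∃ w, 0 ≤ w ∧ w = 1311 / 2500 - v := ⟨_, by linarith only [h1], rfl⟩
  have h : 0 ≤ (715726529 / 34374420) * w ^ (2 : ℕ) +
      (56145607141 / 859360500) * v ^ (1 : ℕ) * w ^ (1 : ℕ) +
      (8863591532 / 214840125) * v ^ (2 : ℕ) +
      (147879965 / 6874884) * u ^ (1 : ℕ) * w ^ (2 : ℕ) +
      (476689967 / 8593605) * u ^ (1 : ℕ) * v ^ (1 : ℕ) * w ^ (1 : ℕ) +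
      (283676086 / 8593605) * u ^ (1 : ℕ) * v ^ (2 : ℕ) +
      (2081750 / 572907) * u ^ (2 : ℕ) * w ^ (2 : ℕ) +
      (5201375 / 572907) * u ^ (2 : ℕ) * v ^ (1 : ℕ) * w ^ (1 : ℕ) +
      (1039875 / 190969) * u ^ (2 : ℕ) * v ^ (2 : ℕ) := by
    positivity
  rw [hwv] at h
  linarith only [h]

theorem zd_B1b_1 {x s : ℝ} (hx : 3 ≤ x) (h0 : 1047 / 500 ≤ s) (h1 : s ≤ 3927 / 1250) :
    (7 / 5 + 7 / 80 * (137 / 25 - s)) * (1 + x) ≤ s ^ (2 : ℕ) + x * (1 + x - s) - 53 / 100 * s * (1 + x) - (1 + x - s) * (-(x / 2)) := by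
  obtain ⟨u, hu, rfl⟩ : ∃ u, 0 ≤ u ∧ x = 3 + u := ⟨x - 3, by linarith only [hx], by ring⟩
  obtain ⟨v, hv, rfl⟩ : ∃ v, 0 ≤ v ∧ s = 1047 / 500 + v := ⟨s - 1047 / 500, by linarith only [h0], by ring⟩
  obtain ⟨w, hw, hwv⟩ : ∃ w, 0 ≤ w ∧ w = 2619 / 2500 - v := ⟨_, by linarith only [h1], rfl⟩
  have h : 0 ≤ (3619700 / 2286387) * w ^ (2 : ℕ) +
      (2695435 / 2286387) * v ^ (1 : ℕ) * w ^ (1 : ℕ) +
      (1362122 / 2286387) * v ^ (2 : ℕ) +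
      (37940875 / 9145548) * u ^ (1 : ℕ) * w ^ (2 : ℕ) +
      (58923725 / 9145548) * u ^ (1 : ℕ) * v ^ (1 : ℕ) * w ^ (1 : ℕ) +
      (10491425 / 4572774) * u ^ (1 : ℕ) * v ^ (2 : ℕ) +
      (3125000 / 2286387) * u ^ (2 : ℕ) * w ^ (2 : ℕ) +
      (6250000 / 2286387) * u ^ (2 : ℕ) * v ^ (1 : ℕ) * w ^ (1 : ℕ) +
      (3125000 / 2286387) * u ^ (2 : ℕ) * v ^ (2 : ℕ) := by
    positivity
  rw [hwv] at h
  linarith only [h]

theorem zd_B1b_2 {x s : ℝ} (hx : 112 / 25 ≤ x) (h0 : 1047 / 500 ≤ s) (h1 : s ≤ 3927 / 1250) :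
    (7 / 4 + 7 / 80 * (137 / 25 - s)) * (1 + x) ≤ s ^ (2 : ℕ) + x * (1 + x - s) - 53 / 100 * s * (1 + x) - (1 + x - s) * (-(x / 2)) := by
  obtain ⟨u, hu, rfl⟩ : ∃ u, 0 ≤ u ∧ x = 112 / 25 + u := ⟨x - 112 / 25, by linarith only [hx], by ring⟩
  obtain ⟨v, hv, rfl⟩ : ∃ v, 0 ≤ v ∧ s = 1047 / 500 + v := ⟨s - 1047 / 500, by linarith only [h0], by ring⟩
  obtain ⟨w, hw, hwv⟩ : ∃ w, 0 ≤ w ∧ w = 2619 / 2500 - v := ⟨_, by linarith only [h1], rfl⟩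
  have h : 0 ≤ (246083885 / 27436644) * w ^ (2 : ℕ) +
      (362346559 / 27436644) * v ^ (1 : ℕ) * w ^ (1 : ℕ) +
      (71849659 / 13718322) * v ^ (2 : ℕ) +
      (216072625 / 27436644) * u ^ (1 : ℕ) * w ^ (2 : ℕ) +
      (381271175 / 27436644) * u ^ (1 : ℕ) * v ^ (1 : ℕ) * w ^ (1 : ℕ) +
      (82599275 / 13718322) * u ^ (1 : ℕ) * v ^ (2 : ℕ) +
      (3125000 / 2286387) * u ^ (2 : ℕ) * w ^ (2 : ℕ) +
      (6250000 / 2286387) * u ^ (2 : ℕ) * v ^ (1 : ℕ) * w ^ (1 : ℕ) +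
      (3125000 / 2286387) * u ^ (2 : ℕ) * v ^ (2 : ℕ) := by
    positivity
  rw [hwv] at h
  linarith only [h]

theorem zd_B2a1_1 {x s : ℝ} (hx : 3 ≤ x) (h0 : 6283 / 2000 ≤ s) (h1 : s ≤ 18 / 5) :
    (7 / 5 + 7 / 80 * (137 / 25 - s)) * (1 + x) ≤ s ^ (2 : ℕ) + x * (1 + x - s) - 53 / 100 * s * (1 + x) - (1 + x - s) * (-2.43) := by
  obtain ⟨u, hu, rfl⟩ : ∃ u, 0 ≤ u ∧ x = 3 + u := ⟨x - 3, by linarith only [hx], by ring⟩
  obtain ⟨v, hv, rfl⟩ : ∃ v, 0 ≤ v ∧ s = 6283 / 2000 + v := ⟨s - 6283 / 2000, by linarith only [h0], by ring⟩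
  obtain ⟨w, hw, hwv⟩ : ∃ w, 0 ≤ w ∧ w = 917 / 2000 - v := ⟨_, by linarith only [h1], rfl⟩
  have h : 0 ≤ (5808889 / 840889) * w ^ (2 : ℕ) +
      (9936000 / 840889) * v ^ (1 : ℕ) * w ^ (1 : ℕ) +
      (4968000 / 840889) * v ^ (2 : ℕ) +
      (12075545 / 840889) * u ^ (1 : ℕ) * w ^ (2 : ℕ) +
      (21505545 / 840889) * u ^ (1 : ℕ) * v ^ (1 : ℕ) * w ^ (1 : ℕ) +
      (9430000 / 840889) * u ^ (1 : ℕ) * v ^ (2 : ℕ) +
      (4000000 / 840889) * u ^ (2 : ℕ) * w ^ (2 : ℕ) +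
      (8000000 / 840889) * u ^ (2 : ℕ) * v ^ (1 : ℕ) * w ^ (1 : ℕ) +
      (4000000 / 840889) * u ^ (2 : ℕ) * v ^ (2 : ℕ) := by
    positivity
  rw [hwv] at h
  linarith only [h]

theorem zd_B2a1_2 {x s : ℝ} (hx : 112 / 25 ≤ x) (h0 : 6283 / 2000 ≤ s) (h1 : s ≤ 18 / 5) :
    (7 / 4 + 7 / 80 * (137 / 25 - s)) * (1 + x) ≤ s ^ (2 : ℕ) + x * (1 + x - s) - 53 / 100 * s * (1 + x) - (1 + x - s) * (-2.43) := by
  obtain ⟨u, hu, rfl⟩ : ∃ u, 0 ≤ u ∧ x = 112 / 25 + u := ⟨x - 112 / 25, by linarith only [hx], by ring⟩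
  obtain ⟨v, hv, rfl⟩ : ∃ v, 0 ≤ v ∧ s = 6283 / 2000 + v := ⟨s - 6283 / 2000, by linarith only [h0], by ring⟩
  obtain ⟨w, hw, hwv⟩ : ∃ w, 0 ≤ w ∧ w = 917 / 2000 - v := ⟨_, by linarith only [h1], rfl⟩
  have h : 0 ≤ (123851478 / 4204445) * w ^ (2 : ℕ) +
      (219717033 / 4204445) * v ^ (1 : ℕ) * w ^ (1 : ℕ) +
      (20014000 / 840889) * v ^ (2 : ℕ) +
      (22515545 / 840889) * u ^ (1 : ℕ) * w ^ (2 : ℕ) +
      (42385545 / 840889) * u ^ (1 : ℕ) * v ^ (1 : ℕ) * w ^ (1 : ℕ) +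
      (19870000 / 840889) * u ^ (1 : ℕ) * v ^ (2 : ℕ) +
      (4000000 / 840889) * u ^ (2 : ℕ) * w ^ (2 : ℕ) +
      (8000000 / 840889) * u ^ (2 : ℕ) * v ^ (1 : ℕ) * w ^ (1 : ℕ) +
      (4000000 / 840889) * u ^ (2 : ℕ) * v ^ (2 : ℕ) := by
    positivity
  rw [hwv] at h
  linarith only [h]

theorem zd_B2a2_1 {x s : ℝ} (_hx : 3 ≤ x) (h0 : 18 / 5 ≤ s) (_h1 : s ≤ 453 / 100) :
    (7 / 5 + 7 / 80 * (137 / 25 - s)) * (1 + x) ≤ s ^ (2 : ℕ) + x * (1 + x - s) - 53 / 100 * s * (1 + x) := by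
  nlinarith only [h0, sq_nonneg (x - 0.43975 - 0.72125 * s)]

theorem zd_B2a2_2 {x s : ℝ} (hx : 112 / 25 ≤ x) (h0 : 18 / 5 ≤ s) (h1 : s ≤ 453 / 100) :
    (7 / 4 + 7 / 80 * (137 / 25 - s)) * (1 + x) ≤ s ^ (2 : ℕ) + x * (1 + x - s) - 53 / 100 * s * (1 + x) := by
  obtain ⟨u, hu, rfl⟩ : ∃ u, 0 ≤ u ∧ x = 112 / 25 + u := ⟨x - 112 / 25, by linarith only [hx], by ring⟩
  obtain ⟨v, hv, rfl⟩ : ∃ v, 0 ≤ v ∧ s = 18 / 5 + v := ⟨s - 18 / 5, by linarith only [h0], by ring⟩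
  obtain ⟨w, hw, hwv⟩ : ∃ w, 0 ≤ w ∧ w = 93 / 100 - v := ⟨_, by linarith only [h1], rfl⟩
  have h : 0 ≤ (4351 / 8649) * w ^ (2 : ℕ) +
      (1144643 / 864900) * v ^ (1 : ℕ) * w ^ (1 : ℕ) +
      (1574443 / 864900) * v ^ (2 : ℕ) +
      (25375 / 8649) * u ^ (1 : ℕ) * w ^ (2 : ℕ) +
      (149339 / 34596) * u ^ (1 : ℕ) * v ^ (1 : ℕ) * w ^ (1 : ℕ) +
      (47839 / 34596) * u ^ (1 : ℕ) * v ^ (2 : ℕ) +
      (10000 / 8649) * u ^ (2 : ℕ) * w ^ (2 : ℕ) +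
      (20000 / 8649) * u ^ (2 : ℕ) * v ^ (1 : ℕ) * w ^ (1 : ℕ) +
      (10000 / 8649) * u ^ (2 : ℕ) * v ^ (2 : ℕ) := by
    positivity
  rw [hwv] at h
  linarith only [h]

theorem zd_B2b_1 {x s : ℝ} (_hx : 3 ≤ x) (h0 : 453 / 100 ≤ s) (_h1 : s ≤ 377 / 80) :
    (7 / 5 + 7 / 80 * (137 / 25 - s)) * (1 + x) ≤ s ^ (2 : ℕ) + x * (1 + x - s) - 53 / 100 * s * (1 + x) - 53 / 100 * (1 + x - 5 / 8 * s) := by
  nlinarith only [h0, sq_nonneg (x - 0.70475 - 0.72125 * s)]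

theorem zd_B2b_2 {x s : ℝ} (hx : 112 / 25 ≤ x) (h0 : 453 / 100 ≤ s) (h1 : s ≤ 377 / 80) :
    (7 / 4 + 7 / 80 * (137 / 25 - s)) * (1 + x) ≤ s ^ (2 : ℕ) + x * (1 + x - s) - 53 / 100 * s * (1 + x) - 53 / 100 * (1 + x - 5 / 8 * s) := by
  obtain ⟨u, hu, rfl⟩ : ∃ u, 0 ≤ u ∧ x = 112 / 25 + u := ⟨x - 112 / 25, by linarith only [hx], by ring⟩
  obtain ⟨v, hv, rfl⟩ : ∃ v, 0 ≤ v ∧ s = 453 / 100 + v := ⟨s - 453 / 100, by linarith only [h0], by ring⟩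
  obtain ⟨w, hw, hwv⟩ : ∃ w, 0 ≤ w ∧ w = 73 / 400 - v := ⟨_, by linarith only [h1], rfl⟩
  have h : 0 ≤ (682422 / 133225) * w ^ (2 : ℕ) +
      (6359759 / 266450) * v ^ (1 : ℕ) * w ^ (1 : ℕ) +
      (1052273 / 53290) * v ^ (2 : ℕ) +
      (106556 / 5329) * u ^ (1 : ℕ) * w ^ (2 : ℕ) +
      (170991 / 5329) * u ^ (1 : ℕ) * v ^ (1 : ℕ) * w ^ (1 : ℕ) +
      (64435 / 5329) * u ^ (1 : ℕ) * v ^ (2 : ℕ) +
      (160000 / 5329) * u ^ (2 : ℕ) * w ^ (2 : ℕ) +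
      (320000 / 5329) * u ^ (2 : ℕ) * v ^ (1 : ℕ) * w ^ (1 : ℕ) +
      (160000 / 5329) * u ^ (2 : ℕ) * v ^ (2 : ℕ) := by
    positivity
  rw [hwv] at h
  linarith only [h]

theorem zd_cert {a t : ℝ} (ha : 0 ≤ a) (ha1 : a ≤ 1) (ht : 4 / 5 ≤ t) (ht1 : t ≤ 63 / 40) :
    0 ≤ (6.2831 - t - 1.9 * a) * (a ^ (2 : ℕ) * (6.2831 - t) + (6.2831 - t - a) *
      (1 - a - (1 - a + a ^ (2 : ℕ) / 2 - a ^ (3 : ℕ) / 6 + a ^ (4 : ℕ) / 24) * (1 - t ^ (2 : ℕ) / 2 + t ^ (4 : ℕ) / 24)) -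
      a * (7 / 4 + 7 / 80 * (137 / 25 - (6.2831 - t)))) -
      1.571 * a ^ (2 : ℕ) * ((6.2831 - t) + (1 - a + a ^ (2 : ℕ) / 2 - a ^ (3 : ℕ) / 6 + a ^ (4 : ℕ) / 24) *
      (t - t ^ (3 : ℕ) / 6 + t ^ (5 : ℕ) / 120 + 1 / 10000)) := by
  obtain ⟨b, hb, hba⟩ : ∃ b, 0 ≤ b ∧ b = 1 - a := ⟨_, by linarith only [ha1], rfl⟩
  obtain ⟨v, hv, hvt⟩ : ∃ v, 0 ≤ v ∧ v = t - 4 / 5 := ⟨_, by linarith only [ht], rfl⟩
  obtain ⟨w, hw, hwt⟩ : ∃ w, 0 ≤ w ∧ w = 63 / 40 - t := ⟨_, by linarith only [ht1], rfl⟩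
  have h : 0 ≤ ((582880291037184 / 13867245015625) * b ^ (6 : ℕ) + (398421057589184 / 2773449003125) * a ^ (1 : ℕ) * b ^ (5 : ℕ) + (7215832692351296 / 41601735046875) * a ^ (2 : ℕ) * b ^ (4 : ℕ) + (1304451264041344 / 13867245015625) * a ^ (3 : ℕ) * b ^ (3 : ℕ) + (1220911074572288 / 41601735046875) * a ^ (4 : ℕ) * b ^ (2 : ℕ) + (1027444625102528 / 124805205140625) * a ^ (5 : ℕ) * b ^ (1 : ℕ) + (9051212602944 / 13867245015625) * a ^ (6 : ℕ)) * w ^ (6 : ℕ) +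
      ((4398215487995392 / 13867245015625) * b ^ (6 : ℕ) + (9600128667726976 / 8320347009375) * a ^ (1 : ℕ) * b ^ (5 : ℕ) + (21953355080703616 / 13867245015625) * a ^ (2 : ℕ) * b ^ (4 : ℕ) + (44894258690556416 / 41601735046875) * a ^ (3 : ℕ) * b ^ (3 : ℕ) + (52785115389319232 / 124805205140625) * a ^ (4 : ℕ) * b ^ (2 : ℕ) + (4025462090348288 / 41601735046875) * a ^ (5 : ℕ) * b ^ (1 : ℕ) + (51521878670272 / 13867245015625) * a ^ (6 : ℕ)) * v ^ (1 : ℕ) * w ^ (5 : ℕ) +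
      ((40053558656930968 / 41601735046875) * b ^ (6 : ℕ) + (30306762442252568 / 8320347009375) * a ^ (1 : ℕ) * b ^ (5 : ℕ) + (74342243197762388 / 13867245015625) * a ^ (2 : ℕ) * b ^ (4 : ℕ) + (503124353717805364 / 124805205140625) * a ^ (3 : ℕ) * b ^ (3 : ℕ) + (212806808039751151 / 124805205140625) * a ^ (4 : ℕ) * b ^ (2 : ℕ) + (46578497981978002 / 124805205140625) * a ^ (5 : ℕ) * b ^ (1 : ℕ) + (157319607587371 / 13867245015625) * a ^ (6 : ℕ)) * v ^ (2 : ℕ) * w ^ (4 : ℕ) +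
      ((20870990721308716 / 13867245015625) * b ^ (6 : ℕ) + (16186310709323916 / 2773449003125) * a ^ (1 : ℕ) * b ^ (5 : ℕ) + (372336648039996554 / 41601735046875) * a ^ (2 : ℕ) * b ^ (4 : ℕ) + (98171474022533806 / 13867245015625) * a ^ (3 : ℕ) * b ^ (3 : ℕ) + (257867977336111399 / 83203470093750) * a ^ (4 : ℕ) * b ^ (2 : ℕ) + (83037124698728147 / 124805205140625) * a ^ (5 : ℕ) * b ^ (1 : ℕ) + (500982904863537 / 27734490031250) * a ^ (6 : ℕ)) * v ^ (3 : ℕ) * w ^ (3 : ℕ) +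
      ((568239734698255477 / 443751840500000) * b ^ (6 : ℕ) + (447471375896562877 / 88750368100000) * a ^ (1 : ℕ) * b ^ (5 : ℕ) + (7033166308604941017 / 887503681000000) * a ^ (2 : ℕ) * b ^ (4 : ℕ) + (17157380845781441867 / 2662511043000000) * a ^ (3 : ℕ) * b ^ (3 : ℕ) + (10170207616572325779 / 3550014724000000) * a ^ (4 : ℕ) * b ^ (2 : ℕ) + (3215531559517650287 / 5325022086000000) * a ^ (5 : ℕ) * b ^ (1 : ℕ) + (49411685541857431 / 3550014724000000) * a ^ (6 : ℕ)) * v ^ (4 : ℕ) * w ^ (2 : ℕ) +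
      ((125100008536776147 / 221875920250000) * b ^ (6 : ℕ) + (99403440508293747 / 44375184050000) * a ^ (1 : ℕ) * b ^ (5 : ℕ) + (1585138407995179587 / 443751840500000) * a ^ (2 : ℕ) * b ^ (4 : ℕ) + (3924078893342994937 / 1331255521500000) * a ^ (3 : ℕ) * b ^ (3 : ℕ) + (2335953390680135869 / 1775007362000000) * a ^ (4 : ℕ) * b ^ (2 : ℕ) + (240363939438956019 / 887503681000000) * a ^ (5 : ℕ) * b ^ (1 : ℕ) + (7910835692069191 / 1775007362000000) * a ^ (6 : ℕ)) * v ^ (5 : ℕ) * w ^ (1 : ℕ) +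
      ((44666263092553893 / 443751840500000) * b ^ (6 : ℕ) + (35658724053908893 / 88750368100000) * a ^ (1 : ℕ) * b ^ (5 : ℕ) + (573077445782984753 / 887503681000000) * a ^ (2 : ℕ) * b ^ (4 : ℕ) + (1427845554889384403 / 2662511043000000) * a ^ (3 : ℕ) * b ^ (3 : ℕ) + (2541114290328296633 / 10650044172000000) * a ^ (4 : ℕ) * b ^ (2 : ℕ) + (84356160376773061 / 1775007362000000) * a ^ (5 : ℕ) * b ^ (1 : ℕ) + (1078999655620179 / 3550014724000000) * a ^ (6 : ℕ)) * v ^ (6 : ℕ) := by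
    positivity
  rw [hba, hvt, hwt] at h
  refine h.trans_eq ?_
  ring

theorem zd_u1 {t : ℝ} (ht : 4 / 5 ≤ t) (ht1 : t ≤ 63 / 40) :
    0 ≤ (6.2831 - t) - 0.3679 * (3.864 * (1 - t ^ (2 : ℕ) / 2 + t ^ (4 : ℕ) / 24)) - 0.5301 * ((6.2831 - t) +
      0.3679 * (t - t ^ (3 : ℕ) / 6 + t ^ (5 : ℕ) / 120 + 1 / 10000)) -
      (7 / 5 + 7 / 80 * (137 / 25 - (6.2831 - t))) := by
  obtain ⟨v, hv, hvt⟩ : ∃ v, 0 ≤ v ∧ v = t - 4 / 5 := ⟨_, by linarith only [ht], rfl⟩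
  obtain ⟨w, hw, hwt⟩ : ∃ w, 0 ≤ w ∧ w = 63 / 40 - t := ⟨_, by linarith only [ht1], rfl⟩
  have h : 0 ≤ (9184979299688 / 55916310546875) * w ^ (5 : ℕ) +
      (19185609232792 / 11183262109375) * v ^ (1 : ℕ) * w ^ (4 : ℕ) +
      (71658803170956 / 11183262109375) * v ^ (2 : ℕ) * w ^ (3 : ℕ) +
      (920920768310007 / 89466096875000) * v ^ (3 : ℕ) * w ^ (2 : ℕ) +
      (5239213850179227 / 715728775000000) * v ^ (4 : ℕ) * w ^ (1 : ℕ) +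
      (215445863940011001 / 114516604000000000) * v ^ (5 : ℕ) := by
    positivity
  rw [hvt, hwt] at h
  refine h.trans_eq ?_
  ring

theorem zd_u2 {t : ℝ} (ht : 4 / 5 ≤ t) (ht1 : t ≤ 63 / 40) :
    0 ≤ (6.2831 - t) - 0.3679 * (4.48 * (1 - t ^ (2 : ℕ) / 2 + t ^ (4 : ℕ) / 24)) - 0.438932 * ((6.2831 - t) +
      0.3679 * (t - t ^ (3 : ℕ) / 6 + t ^ (5 : ℕ) / 120 + 1 / 10000)) -
      (7 / 5 + 7 / 80 * (137 / 25 - (6.2831 - t))) := by
  obtain ⟨v, hv, hvt⟩ : ∃ v, 0 ≤ v ∧ v = t - 4 / 5 := ⟨_, by linarith only [ht], rfl⟩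
  obtain ⟨w, hw, hwt⟩ : ∃ w, 0 ≤ w ∧ w = 63 / 40 - t := ⟨_, by linarith only [ht1], rfl⟩
  have h : 0 ≤ (6178497240688312 / 4193723291015625) * w ^ (5 : ℕ) +
      (7147500065256008 / 838744658203125) * v ^ (1 : ℕ) * w ^ (4 : ℕ) +
      (17346724118569844 / 838744658203125) * v ^ (2 : ℕ) * w ^ (3 : ℕ) +
      (56615574575962631 / 2236652421875000) * v ^ (3 : ℕ) * w ^ (2 : ℕ) +
      (272061074124801991 / 17893219375000000) * v ^ (4 : ℕ) * w ^ (1 : ℕ) +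
      (10089189351389409833 / 2862915100000000000) * v ^ (5 : ℕ) := by
    positivity
  rw [hvt, hwt] at h
  refine h.trans_eq ?_
  ring

/-! ### Reduction -/

theorem zd_eq (x n s : ℝ) : hq x (-n) (-1) s =
    ab x s * s + x * (1 - ab x s - exp (-ab x s) * cos s) -
      n * (s - exp (-ab x s) * sin s) := by
  unfold hq SokamF1G.Ha
  rw [neg_one_mul, neg_one_mul, cos_neg, sin_neg]
  ring

theorem zd_ab_lo {x s : ℝ} (h : s ≤ 1 + x) (h2 : s ≤ 137 / 25) : ab x s = s / (1 + x) := by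
  unfold ab
  rw [min_eq_right (le_min h2 h)]

theorem zd_ab_hi {x s : ℝ} (hx : 0 ≤ x) (h : 1 + x ≤ s) (h2 : s ≤ 137 / 25) : ab x s = 1 := by
  unfold ab
  rw [min_eq_right (h.trans h2), min_eq_left h, div_self (by linarith only [hx])]

theorem zd_L {E s : ℝ} (hE0 : 0 ≤ E) (hE1 : E ≤ 1) (hs : 3 / 2 ≤ s) : 0 ≤ s - E * sin s := by
  have h2 := mul_le_mul_of_nonneg_left (sin_le_one s) hE0
  linarith only [hE1, hs, h2]

theorem zd_core {κ x n s a E B : ℝ} (hx : 0 ≤ x) (ha : a * (1 + x) = s) (hn : n ≤ 53 / 100)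
    (hL : 0 ≤ s - E * sin s)
    (hB : (1 + x) * (E * (x * cos s - 53 / 100 * sin s)) ≤ B)
    (hκ : κ * (1 + x) ≤ s ^ (2 : ℕ) + x * (1 + x - s) - 53 / 100 * s * (1 + x) - B) :
    κ ≤ a * s + x * (1 - a - E * cos s) - n * (s - E * sin s) := by
  have h1 : 0 < 1 + x := by linarith only [hx]
  have h2 : κ ≤ a * s + x * (1 - a - E * cos s) - 53 / 100 * (s - E * sin s) := by
    refine le_of_mul_le_mul_right ?_ h1
    refine hκ.trans ?_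
    have e : (a * s + x * (1 - a - E * cos s) - 53 / 100 * (s - E * sin s)) * (1 + x) =
        (a * (1 + x)) * s + x * (1 + x - a * (1 + x)) - 53 / 100 * s * (1 + x) -
          (1 + x) * (E * (x * cos s - 53 / 100 * sin s)) := by ring
    rw [e, ha]
    linarith only [hB]
  have h3 := mul_le_mul_of_nonneg_right hn hL
  linarith only [h2, h3]

theorem zd_EW {x a s E W w : ℝ} (hx : 0 ≤ x) (ha : a * (1 + x) = s) (hE : 1 - a ≤ E)
    (hE0 : 0 ≤ E) (hW : W ≤ w) (hw : w ≤ 0) : (1 + x) * (E * W) ≤ (1 + x - s) * w := by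
  have h1 : E * W ≤ E * w := mul_le_mul_of_nonneg_left hW hE0
  have h2 : E * w ≤ (1 - a) * w := mul_le_mul_of_nonpos_right hE hw
  have h3 := mul_le_mul_of_nonneg_left (h1.trans h2) (by linarith : 0 ≤ 1 + x)
  refine h3.trans_eq ?_
  rw [← ha]
  ring

/-- `s ≤ 3π/2`, `a = s / (1 + x)` -/
theorem zd_lo {x n s a E : ℝ} (hx : 3 ≤ x) (hn : n ≤ 53 / 100) (hs0 : 3 / 2 ≤ s)
    (hs1 : s ≤ 3 * π / 2) (hsx : s ≤ 1 + x) (ha : a * (1 + x) = s) (hE0 : 0 < E) (hE1 : E ≤ 1)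
    (hEa : 1 - a ≤ E) (hE5 : E ≤ 1 - 5 / 8 * a) :
    7 / 5 + 7 / 80 * (137 / 25 - s) ≤
        a * s + x * (1 - a - E * cos s) - n * (s - E * sin s) ∧
      (112 / 25 ≤ x → 7 / 4 + 7 / 80 * (137 / 25 - s) ≤
        a * s + x * (1 - a - E * cos s) - n * (s - E * sin s)) := by
  have hp1 := pi_gt_d6
  have hp2 := pi_lt_d6
  have hx0 : 0 ≤ x := by linarith only [hx]
  have hx1 : 0 ≤ 1 + x := by linarith only [hx0]
  have hg : 0 ≤ 1 + x - s := by linarith only [hsx]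
  have hL := zd_L hE0.le hE1 hs0
  have key : ∀ B : ℝ, (1 + x) * (E * (x * cos s - 53 / 100 * sin s)) ≤ B →
      ((7 / 5 + 7 / 80 * (137 / 25 - s)) * (1 + x) ≤
        s ^ (2 : ℕ) + x * (1 + x - s) - 53 / 100 * s * (1 + x) - B) →
      (112 / 25 ≤ x → (7 / 4 + 7 / 80 * (137 / 25 - s)) * (1 + x) ≤
        s ^ (2 : ℕ) + x * (1 + x - s) - 53 / 100 * s * (1 + x) - B) →
      7 / 5 + 7 / 80 * (137 / 25 - s) ≤
        a * s + x * (1 - a - E * cos s) - n * (s - E * sin s) ∧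
      (112 / 25 ≤ x → 7 / 4 + 7 / 80 * (137 / 25 - s) ≤
        a * s + x * (1 - a - E * cos s) - n * (s - E * sin s)) :=
    fun B hB h1 h2 => ⟨zd_core hx0 ha hn hL hB h1, fun h => zd_core hx0 ha hn hL hB (h2 h)⟩
  rcases le_total s (π / 2) with hA | hA
  · -- `s ≤ π/2`
    have hc : cos s ≤ 1.5708 - s := by
      have h := sin_le1 (x := π / 2 - s) (by linarith only [hA])
      rw [sin_pi_div_two_sub] at h
      linarith only [hp2, h]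
    have hsn : 0.997 ≤ sin s := by
      have h := cos_ge2 (x := π / 2 - s)
      rw [cos_pi_div_two_sub] at h
      nlinarith only [hs0, hp2, hA, h]
    have hW : x * cos s - 53 / 100 * sin s ≤ x * (1.5708 - s) - 53 / 100 * 0.997 := by
      have := mul_le_mul_of_nonneg_left hc hx0
      linarith only [hsn, this]
    rcases le_total (x * (1.5708 - s) - 53 / 100 * 0.997) 0 with hw | hw
    · refine key _ (zd_EW hx0 ha hEa hE0.le hW hw) ?_ fun h => ?_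
      · exact zd_A2_1 hx hs0 (by linarith only [hp2, hA])
      · exact zd_A2_2 h hs0 (by linarith only [hp2, hA])
    · refine key ((1 + x) * (x * (1.5708 - s) - 53 / 100 * 0.997)) ?_ ?_ fun h => ?_
      · refine mul_le_mul_of_nonneg_left ?_ hx1
        exact (mul_le_mul_of_nonneg_left hW hE0.le).trans (mul_le_of_le_one_left hw hE1)
      · exact zd_A1_1 hx hs0 (by linarith only [hp2, hA])
      · exact zd_A1_2 h hs0 (by linarith only [hp2, hA])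
  rcases le_total s (2 * π / 3) with hB | hB
  · -- `π/2 ≤ s ≤ 2π/3`
    obtain ⟨y, hy⟩ : ∃ y, y + π / 2 = s := ⟨s - π / 2, by ring⟩
    have hy0 : 0 ≤ y := by linarith only [hA, hy]
    have hy1 : y ≤ 0.524 := by linarith only [hp2, hB, hy]
    have hc : cos s ≤ -(0.95 * y) := by
      rw [← hy, cos_add_pi_div_two]
      have h := sin_ge3 hy0
      have h2 : y ^ (2 : ℕ) ≤ 0.3 := by nlinarith only [hy0, hy1]
      linarith only [h, mul_le_mul_of_nonneg_left h2 hy0]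
    have hsn : 0.86 ≤ sin s := by
      rw [← hy, sin_add_pi_div_two]
      have h := cos_ge2 (x := y)
      nlinarith only [hy0, hy1, h]
    have hW : x * cos s - 53 / 100 * sin s ≤ -(0.95 * x * y) - 0.4558 := by
      have := mul_le_mul_of_nonneg_left hc hx0
      linarith only [hsn, this]
    have hw : -(0.95 * x * y) - 0.4558 ≤ 0 := by
      have := mul_nonneg hx0 hy0
      linarith only [this]
    have hBd : (1 + x) * (E * (x * cos s - 53 / 100 * sin s)) ≤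
        (1 + x - s) * (-(0.95 * x * (s - 1.5708)) - 0.4558) := by
      refine (zd_EW hx0 ha hEa hE0.le hW hw).trans (mul_le_mul_of_nonneg_left ?_ hg)
      have h : s - 1.5708 ≤ y := by linarith only [hp2, hy]
      have := mul_le_mul_of_nonneg_left h hx0
      linarith only [this]
    refine key _ hBd ?_ fun h => ?_
    · exact zd_B1a_1 hx (by linarith only [hp1, hA]) (by linarith only [hp2, hB])
    · exact zd_B1a_2 h (by linarith only [hp1, hA]) (by linarith only [hp2, hB])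
  rcases le_total s π with hC | hC
  · -- `2π/3 ≤ s ≤ π`
    obtain ⟨y, hy⟩ : ∃ y, y + π / 2 = s := ⟨s - π / 2, by ring⟩
    have hc : cos s ≤ -(1 / 2) := by
      rw [← hy, cos_add_pi_div_two]
      have h := sin_le_sin_of_le_of_le_pi_div_two (x := π / 6) (y := y) (by linarith only [hB, hC])
        (by linarith only [hC, hy]) (by linarith only [hB, hy])
      rw [sin_pi_div_six] at h
      linarith only [h]
    have hsn : 0 ≤ sin s := sin_nonneg_of_nonneg_of_le_pi (by linarith only [hB, hC]) hC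
    have hW : x * cos s - 53 / 100 * sin s ≤ -(x / 2) := by
      have := mul_le_mul_of_nonneg_left hc hx0
      linarith only [hsn, this]
    refine key _ (zd_EW hx0 ha hEa hE0.le hW (by linarith only [hx0])) ?_ fun h => ?_
    · exact zd_B1b_1 hx (by linarith only [hp1, hB]) (by linarith only [hp2, hC])
    · exact zd_B1b_2 h (by linarith only [hp1, hB]) (by linarith only [hp2, hC])
  obtain ⟨φ, hφ⟩ : ∃ φ, φ + π = s := ⟨s - π, by ring⟩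
  have hφ0 : 0 ≤ φ := by linarith only [hC, hφ]
  have hφ1 : φ ≤ π / 2 := by linarith only [hs1, hφ]
  have hcs : cos s = -cos φ := by rw [← hφ, cos_add_pi]
  have hsn : sin s = -sin φ := by rw [← hφ, sin_add_pi]
  rcases le_total s (18 / 5) with hD | hD
  · -- `π ≤ s ≤ 18/5`
    have hφ2 : φ ≤ 0.459 := by linarith only [hp1, hφ, hD]
    have h1 := cos_ge2 (x := φ)
    have h2 := sin_le1 hφ0
    have h3 : 0.894 ≤ cos φ := by nlinarith only [hφ0, hφ2, h1]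
    have hW : x * cos s - 53 / 100 * sin s ≤ -2.43 := by
      rw [hcs, hsn]
      nlinarith only [hx, hφ2, h2, h3]
    refine key _ (zd_EW hx0 ha hEa hE0.le hW (by norm_num)) ?_ fun h => ?_
    · exact zd_B2a1_1 hx (by linarith only [hp1, hC]) hD
    · exact zd_B2a1_2 h (by linarith only [hp1, hC]) hD
  rcases le_total s (453 / 100) with hF | hF
  · -- `18/5 ≤ s ≤ 453/100`
    have h1 : 0.179 ≤ cos φ := by
      rw [← sin_pi_div_two_sub]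
      have h := sin_le_sin_of_le_of_le_pi_div_two (x := 0.18) (y := π / 2 - φ) (by linarith only [hφ0, hφ1])
        (by linarith only [hφ0]) (by linarith only [hp1, hφ, hF])
      have h' := sin_ge3 (x := 0.18) (by norm_num)
      norm_num at h' h ⊢
      linarith only [h', h]
    have h2 := sin_le_one φ
    have hW : x * cos s - 53 / 100 * sin s ≤ 0 := by
      rw [hcs, hsn]
      nlinarith only [hx, h1, h2]
    refine key 0 ?_ ?_ fun h => ?_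
    · exact mul_nonpos_of_nonneg_of_nonpos hx1 (mul_nonpos_of_nonneg_of_nonpos hE0.le hW)
    · rw [sub_zero]
      exact zd_B2a2_1 hx hD hF
    · rw [sub_zero]
      exact zd_B2a2_2 h hD hF
  · -- `453/100 ≤ s ≤ 3π/2`
    have h1 : 0 ≤ cos φ := cos_nonneg_of_neg_pi_div_two_le_of_le (by linarith only [hφ0, hφ1]) hφ1
    have h2 := sin_le_one φ
    have hW : x * cos s - 53 / 100 * sin s ≤ 53 / 100 := by
      rw [hcs, hsn]
      linarith only [h2, mul_nonneg hx0 h1]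
    refine key (53 / 100 * (1 + x - 5 / 8 * s)) ?_ ?_ fun h => ?_
    · have e1 : E * (x * cos s - 53 / 100 * sin s) ≤ (1 - 5 / 8 * a) * (53 / 100) :=
        (mul_le_mul_of_nonneg_left hW hE0.le).trans (mul_le_mul_of_nonneg_right hE5 (by norm_num))
      refine (mul_le_mul_of_nonneg_left e1 hx1).trans_eq ?_
      rw [← ha]
      ring
    · exact zd_B2b_1 hx hF (by linarith only [hs1, hp2])
    · exact zd_B2b_2 h hF (by linarith only [hs1, hp2])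

/-- `cos` and `sin` for `3π/2 ≤ s ≤ 137/25` -/
theorem zd_trig {t s : ℝ} (hs : 6.2831 - t = s) (h0 : 3 * π / 2 ≤ s) (h1 : s ≤ 137 / 25) :
    4 / 5 ≤ t ∧ t ≤ 63 / 40 ∧ 0 ≤ cos s ∧ cos s ≤ 1 - t ^ (2 : ℕ) / 2 + t ^ (4 : ℕ) / 24 ∧
      0 ≤ -sin s ∧ -sin s ≤ t - t ^ (3 : ℕ) / 6 + t ^ (5 : ℕ) / 120 + 1 / 10000 := by
  have hp1 := pi_gt_d6
  have hp2 := pi_lt_d6
  have ht0 : 4 / 5 ≤ t := by linarith only [hs, h1]
  have ht1 : t ≤ 63 / 40 := by linarith only [hs, h0, hp1]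
  obtain ⟨ε, hε⟩ : ∃ ε, s = 2 * π - (t + ε) := ⟨2 * π - s - t, by ring⟩
  have hε0 : 0 ≤ ε := by linarith only [hs, hp1, hε]
  have hε1 : ε ≤ 1 / 10000 := by linarith only [hs, hp2, hε]
  have hψ : t + ε ≤ π / 2 := by linarith only [h0, hε]
  have hc : cos s = cos (t + ε) := by rw [hε, cos_two_pi_sub]
  have hsn : -sin s = sin (t + ε) := by rw [hε, sin_two_pi_sub, neg_neg]
  refine ⟨ht0, ht1, ?_, ?_, ?_, ?_⟩
  · rw [hc]
    exact cos_nonneg_of_neg_pi_div_two_le_of_le (by linarith only [ht0, hε0, hψ]) hψ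
  · rw [hc]
    exact (cos_le_cos_of_nonneg_of_le_pi (by linarith only [ht0]) (by linarith only [ht0, hε0, hψ]) (by linarith only [hε0])).trans
      (cos_le4 (by linarith only [ht0]))
  · rw [hsn]
    exact sin_nonneg_of_nonneg_of_le_pi (by linarith only [ht0, hε0]) (by linarith only [ht0, hε0, hψ])
  · rw [hsn, sin_add]
    have a1 : 0 ≤ sin t := sin_nonneg_of_nonneg_of_le_pi (by linarith only [ht0]) (by linarith only [hs, h0, hp1])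
    have a2 : 0 ≤ cos t := cos_nonneg_of_neg_pi_div_two_le_of_le (by linarith only [hs, h1, hp1]) (by linarith only [hε0, hψ])
    have a3 := mul_le_mul_of_nonneg_left (cos_le_one ε) a1
    have a4 := mul_le_mul_of_nonneg_left (sin_le1 hε0) a2
    have a5 := mul_le_mul_of_nonneg_right (cos_le_one t) hε0
    have a6 := sin_le5 (x := t) (by linarith only [ht0])
    linarith only [hε1, a3, a4, a5, a6]

/-- `s ≥ 3π/2`, `a = s / (1 + x)` -/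
theorem zd_Clo {x n s a E : ℝ} (hx : 3 ≤ x) (hn0 : 0 ≤ n) (hnx : n * (x - 9 / 10) ≤ 1571 / 1000)
    (hs0 : 3 * π / 2 ≤ s) (hs1 : s ≤ 137 / 25) (ha0 : 0 < a) (ha1 : a ≤ 1)
    (ha : a * (1 + x) = s) (hE0 : 0 < E) (hE4 : E ≤ 1 - a + a ^ (2 : ℕ) / 2 - a ^ (3 : ℕ) / 6 + a ^ (4 : ℕ) / 24) :
    7 / 4 + 7 / 80 * (137 / 25 - s) ≤
      a * s + x * (1 - a - E * cos s) - n * (s - E * sin s) := by
  obtain ⟨t, ht⟩ : ∃ t, 6.2831 - t = s := ⟨6.2831 - s, by ring⟩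
  obtain ⟨ht0, ht1, hc0, hc1, hs2, hs3⟩ := zd_trig ht hs0 hs1
  have c := zd_cert ha0.le ha1 ht0 ht1
  rw [ht] at c
  set C := 1 - t ^ (2 : ℕ) / 2 + t ^ (4 : ℕ) / 24
  set S := t - t ^ (3 : ℕ) / 6 + t ^ (5 : ℕ) / 120 + 1 / 10000
  set E4 := 1 - a + a ^ (2 : ℕ) / 2 - a ^ (3 : ℕ) / 6 + a ^ (4 : ℕ) / 24
  set κ := 7 / 4 + 7 / 80 * (137 / 25 - s)
  have e : (s - 1.9 * a) * (a ^ (2 : ℕ) * s + (s - a) * (1 - a - E4 * C) - a * κ) -
      1.571 * a ^ (2 : ℕ) * (s + E4 * S) =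
      a ^ (2 : ℕ) * ((x - 9 / 10) * (a * s + x * (1 - a - E4 * C) - κ) - 1571 / 1000 * (s + E4 * S)) := by
    have e1 : s - 1.9 * a = a * (x - 9 / 10) := by rw [← ha]; ring
    have e2 : s - a = a * x := by rw [← ha]; ring
    rw [e1, e2]
    ring
  rw [e] at c
  have c2 : 0 ≤ (x - 9 / 10) * (a * s + x * (1 - a - E4 * C) - κ) - 1571 / 1000 * (s + E4 * S) :=
    nonneg_of_mul_nonneg_right c (by positivity)
  have hx9 : 0 < x - 9 / 10 := by linarith only [hx]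
  have hE40 : 0 ≤ E4 := hE0.le.trans hE4
  have b1 : x * (E * cos s) ≤ x * (E4 * C) :=
    mul_le_mul_of_nonneg_left (mul_le_mul hE4 hc1 hc0 hE40) (by linarith only [hx9])
  have b2 : E * -sin s ≤ E4 * S := mul_le_mul hE4 hs3 hs2 hE40
  have b3 : 0 ≤ s + E4 * S := by
    have : 0 ≤ E * -sin s := mul_nonneg hE0.le hs2
    have hp1 := pi_gt_d6
    linarith only [ht, ht1, b2, this]
  have b4 := mul_le_mul_of_nonneg_right hnx b3
  have b5 : n * (s - E * sin s) ≤ n * (s + E4 * S) :=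
    mul_le_mul_of_nonneg_left (by linarith only [b2]) hn0
  have b6 : 0 ≤ (x - 9 / 10) * (a * s + x * (1 - a - E * cos s) - n * (s - E * sin s) - κ) := by
    have b7 := mul_le_mul_of_nonneg_left (add_le_add b1 b5) hx9.le
    linarith only [c2, b4, b7]
  have b8 := nonneg_of_mul_nonneg_right b6 hx9
  linarith only [b8]

/-- `s ≥ 1 + x` -/
theorem zd_hi {x n s E : ℝ} (hx : 3 ≤ x) (hn0 : 0 ≤ n) (hn : n ≤ 53 / 100)
    (hnx : n * (x - 9 / 10) ≤ 1571 / 1000) (hsx : 1 + x ≤ s) (hs1 : s ≤ 137 / 25)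
    (hE0 : 0 < E) (hE1 : E ≤ 3679 / 10000) :
    7 / 5 + 7 / 80 * (137 / 25 - s) ≤
      1 * s + x * (1 - 1 - E * cos s) - n * (s - E * sin s) := by
  have hp1 := pi_gt_d6
  have hp2 := pi_lt_d6
  rcases le_total s (3 * π / 2) with hA | hA
  · have hc : cos s ≤ 0 := by
      have h := cos_nonpos_of_pi_div_two_le_of_le (x := s) (by linarith only [hx, hsx, hp2]) (by linarith only [hA])
      exact h
    have h1 : 0 ≤ x * (E * -cos s) := by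
      refine mul_nonneg (by linarith only [hx]) (mul_nonneg hE0.le (by linarith only [hc]))
    have h2 : E * -sin s ≤ 3679 / 10000 :=
      (mul_le_mul_of_nonneg_left (by linarith only [neg_one_le_sin s]) hE0.le).trans
        (by linarith : E * 1 ≤ _)
    have h3 : n * (s - E * sin s) ≤ 53 / 100 * (s + 3679 / 10000) :=
      mul_le_mul hn (by linarith only [h2]) (zd_L hE0.le (by linarith only [hE1]) (by linarith only [hx, hsx])) (by norm_num)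
    linarith only [hx, hsx, h1, h3]
  · obtain ⟨t, ht⟩ : ∃ t, 6.2831 - t = s := ⟨6.2831 - s, by ring⟩
    obtain ⟨ht0, ht1, hc0, hc1, hs2, hs3⟩ := zd_trig ht hA hs1
    have u1 := zd_u1 ht0 ht1
    have u2 := zd_u2 ht0 ht1
    rw [ht] at u1 u2
    set C := 1 - t ^ (2 : ℕ) / 2 + t ^ (4 : ℕ) / 24
    set S := t - t ^ (3 : ℕ) / 6 + t ^ (5 : ℕ) / 120 + 1 / 10000
    have b0 : E * cos s ≤ 0.3679 * C := mul_le_mul (by linarith only [hE1]) hc1 hc0 (by norm_num)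
    have b2 : E * -sin s ≤ 0.3679 * S := mul_le_mul (by linarith only [hE1]) hs3 hs2 (by norm_num)
    have hC0 : 0 ≤ C := hc0.trans hc1
    have hS0 : 0 ≤ S := hs2.trans hs3
    have b5 : n * (s - E * sin s) ≤ n * (s + 0.3679 * S) :=
      mul_le_mul_of_nonneg_left (by linarith only [b2]) hn0
    have b6 : x * (E * cos s) ≤ x * (0.3679 * C) := mul_le_mul_of_nonneg_left b0 (by linarith only [hx])
    have hQ : 0 ≤ s + 0.3679 * S := by linarith only [hc0, hs2, hc1, hs3, u1]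
    rcases le_total x 3.864 with h | h
    · have b7 := mul_le_mul_of_nonneg_right h hC0
      have b8 := mul_le_mul_of_nonneg_right (by linarith : n ≤ 0.5301) hQ
      linarith only [u1, b5, b6, b7, b8]
    · have hN : n ≤ 0.5301 - 0.148 * (x - 3.864) := by
        by_contra hcon
        push Not at hcon
        have h4 : x ≤ 4.48 := by linarith only [hsx, hs1]
        nlinarith only [hnx, mul_nonneg (sub_nonneg.2 h) (sub_nonneg.2 h4), mul_lt_mul_of_pos_right hcon (by linarith : 0 < x - 9 / 10)]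
      have b8 := mul_le_mul_of_nonneg_right hN hQ
      have h4 : x ≤ 4.48 := by linarith only [hsx, hs1]
      have b9 := aff (A := s - 0.5301 * (s + 0.3679 * S) -
        0.148 * 3.864 * (s + 0.3679 * S) - (7 / 5 + 7 / 80 * (137 / 25 - s)))
        (B := 0.148 * (s + 0.3679 * S) - 0.3679 * C) (z0 := 3.864) (z1 := 4.48) (z := x)
        (by linarith only [u1]) (by linarith only [u2]) h h4
      linarith only [b5, b6, b8, b9]

theorem zd_e5 {a : ℝ} (h0 : 0 ≤ a) (h1 : a ≤ 1) : exp (-a) ≤ 1 - 5 / 8 * a := by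
  have h := en_le4 h0
  have h2 : 0 ≤ a * ((1 - a) * (3 / 8 - a / 8 + a ^ (2 : ℕ) / 24)) := by
    refine mul_nonneg h0 (mul_nonneg (by linarith only [h1]) ?_)
    nlinarith only []
  linarith only [h, h2]

theorem ptzd : PTZd := by
  intro x n s hx hn0 hn hnx hs0 hs1
  rw [zd_eq]
  have hx1 : 0 < 1 + x := by linarith only [hx]
  have T1 : s ≤ 1 + x → 7 / 5 + 7 / 80 * (137 / 25 - s) ≤
      ab x s * s + x * (1 - ab x s - exp (-ab x s) * cos s) - n * (s - exp (-ab x s) * sin s) ∧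
      (112 / 25 ≤ x → 7 / 4 + 7 / 80 * (137 / 25 - s) ≤
      ab x s * s + x * (1 - ab x s - exp (-ab x s) * cos s) -
        n * (s - exp (-ab x s) * sin s)) := by
    intro h
    rw [zd_ab_lo h hs1]
    have ha0 : 0 < s / (1 + x) := div_pos (by linarith only [hs0]) hx1
    have ha1 : s / (1 + x) ≤ 1 := (div_le_one hx1).2 h
    have ha : s / (1 + x) * (1 + x) = s := div_mul_cancel₀ _ hx1.ne'
    rcases le_total s (3 * π / 2) with hA | hA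
    · exact zd_lo hx hn hs0 hA h ha (exp_pos _) (exp_le_one_iff.2 (by linarith only [ha0])) en_ge1
        (zd_e5 ha0.le ha1)
    · have := zd_Clo hx hn0 hnx hA hs1 ha0 ha1 ha (exp_pos _) (en_le4 ha0.le)
      exact ⟨by linarith only [this], fun _ => this⟩
  refine ⟨?_, fun h => (T1 (by linarith only [hs1, h])).2 h⟩
  rcases le_total s (1 + x) with h | h
  · exact (T1 h).1
  · rw [zd_ab_hi (by linarith only [hx]) h hs1]
    exact zd_hi hx hn0 hn hnx h hs1 (exp_pos _) em1_hi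

end SokamV3T

end

/-! ### Lib_MP_af4de1_v3.P2OutF -/

section
namespace SokamF1G
end SokamF1G
/-!
# `P2.outL`, `P2.outR`: geometric facts

`GeL` (left): `W = ρ e^(-y)`, `K = x + i y = W e^(i ψ)`, `η = ψ + ρ - x`, `D = |1 - iK|`.
`GeR` (right, reflected, `n = -y`): `W = ρ e^n`, `η = ψ + x - ρ`.
-/

set_option autoImplicit false

namespace SokamP2O

open Real Set SokamF1G

structure GeL (x y ρ η ψ W D : ℝ) : Prop where
  x0 : 0 < x
  y0 : 0 ≤ y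
  y1 : y ≤ 61 / 100
  yx : y ≤ 2 / 5 * x
  W0 : 0 < W
  D0 : 0 < D
  W2 : W ^ (2 : ℕ) = x ^ (2 : ℕ) + y ^ (2 : ℕ)
  D2 : D ^ (2 : ℕ) = (1 + y) ^ (2 : ℕ) + x ^ (2 : ℕ)
  rho : ρ = W * exp y
  cs : x = W * cos ψ
  sn : y = W * sin ψ
  p0 : 0 ≤ ψ
  p1 : ψ < π / 2
  eta : η = ψ + ρ - x

structure GeR (x n ρ η ψ W D : ℝ) : Prop where
  x0 : 0 < x
  n0 : 0 ≤ n
  n1 : n ≤ 1 / 2
  nx : n ≤ 2 / 5 * x
  W0 : 0 < W
  D0 : 0 < D
  W2 : W ^ (2 : ℕ) = x ^ (2 : ℕ) + n ^ (2 : ℕ)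
  D2 : D ^ (2 : ℕ) = (1 - n) ^ (2 : ℕ) + x ^ (2 : ℕ)
  rho : W = ρ * exp n
  cs : x = W * cos ψ
  sn : n = W * sin ψ
  p0 : 0 ≤ ψ
  p1 : ψ < π / 2
  eta : η = ψ + x - ρ

/-! ### the angle -/

theorem ang_le {x y W ψ : ℝ} (hx : 0 < x) (hW : 0 < W) (h1 : x = W * cos ψ) (h2 : y = W * sin ψ)
    (h3 : 0 ≤ ψ) (h4 : ψ < π / 2) : ψ ≤ y / x := by
  have h5 := Real.le_tan h3 h4
  have h6 : tan ψ = y / x := by
    rw [tan_eq_sin_div_cos]
    have hc : cos ψ ≠ 0 := by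
      intro h
      rw [h, mul_zero] at h1
      exact hx.ne' h1
    rw [h1, h2]
    field_simp
  rwa [h6] at h5

theorem arctan_ge {t : ℝ} (ht : 0 ≤ t) : t - t ^ (3 : ℕ) / 3 ≤ arctan t := by
  have h := nonneg_of_deriv (f := fun t => arctan t - (t - t ^ (3 : ℕ) / 3))
    (f' := fun t => 1 / (1 + t ^ (2 : ℕ)) - (1 - t ^ (2 : ℕ))) (fun y => by
      have h1 := (hasDerivAt_arctan y).sub ((hasDerivAt_id y).sub ((hasDerivAt_pow 3 y).div_const 3))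
      refine h1.congr_deriv ?_
      push_cast
      ring) (by simp) (fun y _ => by
        have : 0 < 1 + y ^ (2 : ℕ) := by positivity
        rw [sub_nonneg, le_div_iff₀ this]
        linarith [sq_nonneg (y ^ (2 : ℕ))]) ht
  simpa using h

theorem ang_ge {x y W ψ : ℝ} (hx : 0 < x) (hy : 0 ≤ y) (h1 : x = W * cos ψ) (h2 : y = W * sin ψ)
    (h3 : 0 ≤ ψ) (h4 : ψ < π / 2) : y / x - (y / x) ^ (3 : ℕ) / 3 ≤ ψ := by
  have h6 : tan ψ = y / x := by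
    rw [tan_eq_sin_div_cos]
    have hc : cos ψ ≠ 0 := by
      intro h
      rw [h, mul_zero] at h1
      exact hx.ne' h1
    have hW : W ≠ 0 := by
      intro h
      rw [h, zero_mul] at h1
      exact hx.ne' h1
    rw [h1, h2]
    field_simp
  have h7 : arctan (tan ψ) = ψ := arctan_tan (by linarith [Real.pi_pos]) h4
  have h8 := arctan_ge (t := y / x) (by positivity)
  rwa [← h6, h7, h6] at h8

/-- `W ≤ x + y²/(2x)` -/
theorem W_le {x y W : ℝ} (hx : 0 < x) (hW2 : W ^ (2 : ℕ) = x ^ (2 : ℕ) + y ^ (2 : ℕ)) :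
    W ≤ x + y ^ (2 : ℕ) / (2 * x) := by
  have h0 : 0 ≤ x + y ^ (2 : ℕ) / (2 * x) := by positivity
  refine abs_le_of_sq_le_sq' ?_ h0 |>.2
  have e : (x + y ^ (2 : ℕ) / (2 * x)) ^ (2 : ℕ) = x ^ (2 : ℕ) + y ^ (2 : ℕ) + (y ^ (2 : ℕ) / (2 * x)) ^ (2 : ℕ) := by
    field_simp
    ring
  rw [e, hW2]
  linarith [sq_nonneg (y ^ (2 : ℕ) / (2 * x))]

theorem W_ge {x y W : ℝ} (hW0 : 0 < W) (hW2 : W ^ (2 : ℕ) = x ^ (2 : ℕ) + y ^ (2 : ℕ)) : x ≤ W := by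
  refine abs_le_of_sq_le_sq' ?_ hW0.le |>.2
  rw [hW2]
  linarith [sq_nonneg y]

/-! ### exponentials -/

theorem ex1 {y : ℝ} (h0 : 0 ≤ y) (h1 : y ≤ 1) : exp y * (1 - y / 2) ≤ 1 + y / 2 := by
  have h := en_ge3 h0
  have h2 : exp y * exp (-y) = 1 := by rw [← exp_add]; simp
  have h3 : 1 - y / 2 ≤ (1 + y / 2) * exp (-y) := by
    have := mul_le_mul_of_nonneg_left h (by linarith : 0 ≤ 1 + y / 2)
    have h4 : 0 ≤ y ^ (3 : ℕ) * (1 - y) := mul_nonneg (by positivity) (by linarith)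
    linarith
  calc exp y * (1 - y / 2) ≤ exp y * ((1 + y / 2) * exp (-y)) :=
        mul_le_mul_of_nonneg_left h3 (exp_pos _).le
    _ = (1 + y / 2) * (exp y * exp (-y)) := by ring
    _ = 1 + y / 2 := by rw [h2, mul_one]

theorem ex2 {y : ℝ} (h0 : 0 ≤ y) (h1 : y ≤ 7 / 10) :
    1 + y / 2 - exp y * (1 - y / 2) ≤ y ^ (3 : ℕ) / 7 := by
  have h := e_ge3 h0
  have h2 := mul_le_mul_of_nonneg_right h (by linarith : 0 ≤ 1 - y / 2)
  have h3 : 0 ≤ y ^ (3 : ℕ) * (7 / 10 - y) := mul_nonneg (by positivity) (by linarith)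
  nlinarith

theorem ex3 {n : ℝ} (h0 : 0 ≤ n) (h1 : n ≤ 1) : (1 - exp (-n)) * (1 + n / 2) ≤ n := by
  have h := en_ge3 h0
  have h2 := mul_le_mul_of_nonneg_right h (by linarith : 0 ≤ 1 + n / 2)
  have h3 : 0 ≤ n ^ (3 : ℕ) * (1 - n) := mul_nonneg (by positivity) (by linarith)
  linarith

theorem ex4 {n : ℝ} (h0 : 0 ≤ n) : 2 * n ≤ exp n - exp (-n) := by
  have h := (self_le_sinh_iff (x := n)).2 h0
  rw [sinh_eq] at h
  linarith

/-! ### left side -/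

namespace GeL

variable {x y ρ η ψ W D : ℝ}

theorem r0 (G : GeL x y ρ η ψ W D) : 0 < ρ := by
  rw [G.rho]
  exact mul_pos G.W0 (exp_pos _)

theorem psi_le (G : GeL x y ρ η ψ W D) : ψ ≤ y / x := ang_le G.x0 G.W0 G.cs G.sn G.p0 G.p1

theorem psi_ge (G : GeL x y ρ η ψ W D) : y / x - (y / x) ^ (3 : ℕ) / 3 ≤ ψ :=
  ang_ge G.x0 G.y0 G.cs G.sn G.p0 G.p1

theorem Y0 (G : GeL x y ρ η ψ W D) : 0 ≤ y / x := div_nonneg G.y0 G.x0.le

theorem Y1 (G : GeL x y ρ η ψ W D) : y / x ≤ 2 / 5 := by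
  rw [div_le_iff₀ G.x0]
  exact G.yx

theorem Wx (G : GeL x y ρ η ψ W D) : W ≤ x + y * (y / x) / 2 := by
  refine (W_le G.x0 G.W2).trans (le_of_eq ?_)
  field_simp

theorem xW (G : GeL x y ρ η ψ W D) : x ≤ W := W_ge G.W0 G.W2

/-- `W y ≤ η` -/
theorem Wy (G : GeL x y ρ η ψ W D) : W * y ≤ η := by
  have h1 := add_one_le_exp y
  have h2 := mul_le_mul_of_nonneg_left h1 G.W0.le
  have h3 := G.eta
  have h4 := G.xW
  have h5 := G.p0
  rw [G.rho] at h3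
  linarith

/-- F1 -/
theorem F1 (G : GeL x y ρ η ψ W D) (hη : η ≤ 5 / 2) : y * (ρ - η / 2) ≤ η := by
  have h1 := ex2 G.y0 (by linarith [G.y1])
  have h2 := mul_le_mul_of_nonneg_left h1 G.W0.le
  have h3 := G.Wy
  have h4 : y / W ≤ ψ := by
    rw [div_le_iff₀ G.W0]
    have := mul_le_mul_of_nonneg_left (sin_le G.p0) G.W0.le
    rw [← G.sn] at this
    linarith
  have h5 : (W * y) ^ (2 : ℕ) ≤ 7 := by
    have := pow_le_pow_left₀ (mul_nonneg G.W0.le G.y0) (h3.trans hη) 2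
    refine this.trans (by norm_num)
  have h6 : W * (y ^ (3 : ℕ) / 7) ≤ y / W := by
    rw [le_div_iff₀ G.W0]
    have := mul_le_mul_of_nonneg_left h5 G.y0
    linarith
  have h7 := G.xW
  have h8 := mul_nonneg G.p0 G.y0
  have h9 := mul_nonneg (sub_nonneg.2 h7) G.y0
  have h10 : η = ψ + W * exp y - x := by rw [← G.rho]; exact G.eta
  have h11 : η * (1 + y / 2) = ψ + ψ * y / 2 + (W - x) + (W - x) * y / 2 + y * (W * exp y) -
      W * (1 + y / 2 - exp y * (1 - y / 2)) := by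
    rw [h10]; ring
  have h12 : y * (ρ - η / 2) - η = y * (W * exp y) - η * (1 + y / 2) := by rw [G.rho]; ring
  linarith

/-- F2 -/
theorem F2 (G : GeL x y ρ η ψ W D) :
    ρ - x * (1 + y) ≤ y * η / 2 + y * (y / x) / 2 * (y / 2 + (y / x) ^ (2 : ℕ) / 3) := by
  have h1 := mul_le_mul_of_nonneg_left (ex1 G.y0 (by linarith [G.y1])) G.W0.le
  have h2 := mul_le_mul_of_nonneg_right G.Wx (by linarith [G.y0] : 0 ≤ 1 + y / 2)
  have h3 := mul_le_mul_of_nonneg_left G.psi_ge (by linarith [G.y0] : 0 ≤ y / 2)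
  have h10 : η = ψ + W * exp y - x := by rw [← G.rho]; exact G.eta
  rw [G.rho, h10]
  linarith

/-- F3 -/
theorem F3 (G : GeL x y ρ η ψ W D) : η ≤ y * (x + η / 2 + 11 / 10 * (1 / x)) := by
  have h1 := mul_le_mul_of_nonneg_left (ex1 G.y0 (by linarith [G.y1])) G.W0.le
  have h2 := mul_le_mul_of_nonneg_right G.Wx (by linarith [G.y0] : 0 ≤ 1 + y / 2)
  have h3 := mul_le_mul_of_nonneg_right G.psi_le (by linarith [G.y1] : 0 ≤ 1 - y / 2)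
  have h10 : η = ψ + W * exp y - x := by rw [← G.rho]; exact G.eta
  have h4 : y ^ (2 : ℕ) ≤ 2 / 5 := by nlinarith [G.y0, G.y1]
  have h5 : y * (1 / x) = y / x := by ring
  have h6 := mul_nonneg G.Y0 (by linarith : 0 ≤ 2 / 5 - y ^ (2 : ℕ))
  have h7 : η * (1 - y / 2) = ψ * (1 - y / 2) + W * (exp y * (1 - y / 2)) - x * (1 - y / 2) := by
    rw [h10]; ring
  have h8 : y * (x + η / 2 + 11 / 10 * (1 / x)) = y * x + y * η / 2 + 11 / 10 * (y / x) := by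
    rw [← h5]; ring
  rw [h8]
  linarith

end GeL

/-! ### right side -/

namespace GeR

variable {x n ρ η ψ W D : ℝ}

theorem r0 (G : GeR x n ρ η ψ W D) : 0 < ρ := by
  have h := G.W0
  rw [G.rho] at h
  exact (pos_iff_pos_of_mul_pos h).2 (exp_pos _)

theorem psi_le (G : GeR x n ρ η ψ W D) : ψ ≤ n / x := ang_le G.x0 G.W0 G.cs G.sn G.p0 G.p1

theorem psi_ge (G : GeR x n ρ η ψ W D) : n / x - (n / x) ^ (3 : ℕ) / 3 ≤ ψ :=
  ang_ge G.x0 G.n0 G.cs G.sn G.p0 G.p1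

theorem Y0 (G : GeR x n ρ η ψ W D) : 0 ≤ n / x := div_nonneg G.n0 G.x0.le

theorem Y1 (G : GeR x n ρ η ψ W D) : n / x ≤ 2 / 5 := by
  rw [div_le_iff₀ G.x0]
  exact G.nx

theorem psi_half (G : GeR x n ρ η ψ W D) : n / x / 2 ≤ ψ := by
  have h1 := G.psi_ge
  have h2 := G.Y0
  have h3 := G.Y1
  have h4 : (n / x) ^ (2 : ℕ) ≤ 1 := by nlinarith
  have h5 := mul_le_mul_of_nonneg_left h4 h2
  linarith

theorem Wx (G : GeR x n ρ η ψ W D) : W ≤ x + n * (n / x) / 2 := by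
  refine (W_le G.x0 G.W2).trans (le_of_eq ?_)
  field_simp

theorem xW (G : GeR x n ρ η ψ W D) : x ≤ W := W_ge G.W0 G.W2

/-- F5 -/
theorem F5 (G : GeR x n ρ η ψ W D) : n * ρ * (1 + n / 2) ≤ η := by
  have h1 := mul_le_mul_of_nonneg_left (e_ge3 G.n0) G.r0.le
  rw [← G.rho] at h1
  have h2 := G.Wx
  have h3 := G.psi_half
  have h4 : n * (n / x) / 2 ≤ n / x / 2 := by nlinarith [G.Y0, G.n1]
  have h5 := G.eta
  have h6 : 0 ≤ ρ * n ^ (3 : ℕ) := mul_nonneg G.r0.le (pow_nonneg G.n0 3)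
  linarith

/-- F4 -/
theorem F4 (G : GeR x n ρ η ψ W D) : ρ * (ρ - x * (1 - n)) ≤ η ^ (2 : ℕ) / 2 := by
  have hρ := G.r0
  have h1 := ex4 G.n0
  have h2 : exp n * exp (-n) = 1 := by rw [← exp_add]; simp
  have h3 : 2 * n * exp n ≤ exp n ^ (2 : ℕ) - 1 := by
    have := mul_le_mul_of_nonneg_right h1 (exp_pos n).le
    linarith
  have h4 : ρ * (ρ - W * (1 - n)) ≤ (W - ρ) ^ (2 : ℕ) / 2 := by
    have := mul_le_mul_of_nonneg_left h3 (sq_nonneg ρ)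
    rw [G.rho]
    linarith
  have h5 : W - x ≤ n * ψ := by
    have h6 := G.Wx
    have h7 := mul_le_mul_of_nonneg_left G.psi_half G.n0
    linarith
  have h6 : ρ * n ≤ W - ρ := by
    have := mul_le_mul_of_nonneg_left (add_one_le_exp n) hρ.le
    rw [← G.rho] at this
    linarith
  have h7 : 0 ≤ ψ - (W - x) := by
    have := mul_nonneg G.p0 (by linarith [G.n1] : 0 ≤ 1 - n)
    linarith
  have h8 : ρ * n * (ψ - (W - x)) ≤ (W - ρ) * (ψ - (W - x)) := mul_le_mul_of_nonneg_right h6 h7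
  have h9 : ρ * (W - x) ≤ ρ * (n * ψ) := mul_le_mul_of_nonneg_left h5 hρ.le
  have h10 : η = (W - ρ) + (ψ - (W - x)) := by rw [G.eta]; ring
  rw [h10]
  linarith [sq_nonneg (ψ - (W - x))]

/-- F6 -/
theorem F6 (G : GeR x n ρ η ψ W D) : η ≤ n * (x - η / 2 + 5 / 4 * (1 / x)) := by
  have h1 := mul_le_mul_of_nonneg_left (ex3 G.n0 (by linarith [G.n1])) G.x0.le
  have h2 : exp n * exp (-n) = 1 := by rw [← exp_add]; simp
  have h3 : x * exp (-n) ≤ ρ := by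
    have := mul_le_mul_of_nonneg_right G.xW (exp_pos (-n)).le
    rw [G.rho] at this
    have e : ρ * exp n * exp (-n) = ρ := by rw [mul_assoc, h2, mul_one]
    linarith
  have h4 := mul_le_mul_of_nonneg_right h3 (by linarith [G.n0] : 0 ≤ 1 + n / 2)
  have h5 := mul_le_mul_of_nonneg_right G.psi_le (by linarith [G.n0] : 0 ≤ 1 + n / 2)
  have h6 := mul_nonneg G.Y0 (by linarith [G.n1] : 0 ≤ 1 / 2 - n)
  have h7 : n * (1 / x) = n / x := by ring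
  have h8 : n * (x - η / 2 + 5 / 4 * (1 / x)) = n * x - n * η / 2 + 5 / 4 * (n / x) := by
    rw [← h7]; ring
  rw [h8]
  have h9 : η * (1 + n / 2) = ψ * (1 + n / 2) + x * (1 + n / 2) - ρ * (1 + n / 2) := by
    rw [G.eta]; ring
  linarith

end GeR

end SokamP2O

end
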