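import Pool.Agent.Lib_MP_af4de1_zy.Z48
import Pool.Agent.Lib_MP_af4de1_zy.Z52

/-! ### Lib_MP_af4de1_v3.P2OutQ -/

section
namespace SokamF1G
end SokamF1G
/-!
# `P2.outL`, `P2.outR`: the integral of the periodic bump and the splitting of the path

`gQ β μ v = exp (-β v - μ (1 - cos v))`, `QQ β μ = ∫_{-π}^∞ gQ`.
-/

set_option autoImplicit false

namespace SokamP2O

open Real MeasureTheory Set SokamF1G

theorem cosA {v : ℝ} (h : |v| ≤ 1) : 11 / 24 * v ^ (2 : ℕ) ≤ 1 - cos v := by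
  have h1 := cos_le4 (abs_nonneg v)
  have h2 : |v| ^ (4 : ℕ) = (v ^ (2 : ℕ)) ^ (2 : ℕ) := by rw [← sq_abs v]; ring
  rw [cos_abs, sq_abs, h2] at h1
  have h3 : v ^ (2 : ℕ) ≤ 1 := by rw [← sq_abs]; nlinarith only [h, abs_nonneg v]
  nlinarith only [h1, h3]

theorem cosB {v : ℝ} (h1 : 1 ≤ |v|) (h2 : |v| ≤ π) : 3 / 10 + 3 / 20 * v ^ (2 : ℕ) ≤ 1 - cos v := by
  rw [← cos_abs v, ← sq_abs v]
  set u := |v| with hu
  have hp := Real.pi_lt_d4
  have hp0 := Real.pi_gt_d4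
  rcases le_total u (27 / 10) with h3 | h3
  · have h4 := cos_le4 (by linarith : 0 ≤ u)
    have h5 : 0 ≤ (u ^ (2 : ℕ) - 1) * (729 / 100 - u ^ (2 : ℕ)) := by
      apply mul_nonneg <;> nlinarith
    nlinarith only [h4, h5]
  · have h4 : cos u = -cos (π - u) := by rw [cos_pi_sub]; ring
    have h5 := cos_ge2 (x := π - u)
    have h6 : (π - u) ^ (2 : ℕ) ≤ (442 / 1000) ^ (2 : ℕ) := pow_le_pow_left₀ (by linarith only [h2]) (by linarith only [hp, h3]) 2
    have h7 : u ^ (2 : ℕ) ≤ (31416 / 10000) ^ (2 : ℕ) := pow_le_pow_left₀ (by linarith only [h3]) (by linarith only [h2, hp]) 2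
    rw [h4]
    linarith only [h5, h6, h7]

/-! ### Gaussian with a linear term -/

theorem gl_eq {B : ℝ} (hB : 0 < B) (β v : ℝ) :
    exp (-(β * v) - B * v ^ (2 : ℕ)) = exp (β ^ (2 : ℕ) / (4 * B)) * exp (-B * (v + β / (2 * B)) ^ (2 : ℕ)) := by
  rw [← exp_add]
  congr 1
  field_simp
  ring

theorem gl_integrable {B : ℝ} (hB : 0 < B) (β : ℝ) :
    Integrable fun v : ℝ => exp (-(β * v) - B * v ^ (2 : ℕ)) := by
  simp_rw [gl_eq hB β]
  exact ((integrable_exp_neg_mul_sq hB).comp_add_right (β / (2 * B))).const_mul _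

theorem gl_integral {B : ℝ} (hB : 0 < B) (β : ℝ) :
    ∫ v : ℝ, exp (-(β * v) - B * v ^ (2 : ℕ)) = exp (β ^ (2 : ℕ) / (4 * B)) * √(π / B) := by
  simp_rw [gl_eq hB β]
  rw [integral_const_mul, integral_add_right_eq_self (fun v : ℝ => exp (-B * v ^ (2 : ℕ))),
    integral_gaussian]

/-! ### the bump -/

/-- the periodic bump -/
noncomputable def gQ (β μ v : ℝ) : ℝ := exp (-(β * v) - μ * (1 - cos v))

/-- its integral -/
noncomputable def QQ (β μ : ℝ) : ℝ := ∫ v in Ioi (-π), gQ β μ v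

theorem gQ_pos (β μ v : ℝ) : 0 < gQ β μ v := exp_pos _

theorem continuous_gQ (β μ : ℝ) : Continuous (gQ β μ) := by
  unfold gQ
  fun_prop

theorem gQ_int {β μ : ℝ} (hβ : 0 < β) (hμ : 0 ≤ μ) (a : ℝ) : IntegrableOn (gQ β μ) (Ioi a) := by
  refine (exp_neg_integrableOn_Ioi a hβ).mono' (continuous_gQ β μ).aestronglyMeasurable
    (Filter.Eventually.of_forall fun v => ?_)
  rw [norm_of_nonneg (gQ_pos _ _ _).le]
  unfold gQ
  apply exp_le_exp.2
  have := mul_nonneg hμ (sub_nonneg.2 (cos_le_one v))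
  linarith only [this]

theorem gQ_add (β μ v : ℝ) : gQ β μ (v + 2 * π) = exp (-(2 * π * β)) * gQ β μ v := by
  unfold gQ
  rw [← exp_add, cos_add_two_pi]
  congr 1
  ring

theorem QQ_period {β μ : ℝ} (hβ : 0 < β) (hμ : 0 ≤ μ) :
    QQ β μ * (1 - exp (-(2 * π * β))) = ∫ v in Ioc (-π) π, gQ β μ v := by
  have hp := Real.pi_pos
  have h1 : QQ β μ = (∫ v in Ioc (-π) π, gQ β μ v) + ∫ v in Ioi π, gQ β μ v := by
    unfold QQ
    rw [← Ioc_union_Ioi_eq_Ioi (by linarith : -π ≤ π)]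
    refine setIntegral_union ?_ measurableSet_Ioi ?_ ?_
    · rw [Set.disjoint_left]
      intro v h1 h2
      exact absurd h1.2 (not_le.2 h2)
    · exact (gQ_int hβ hμ (-π)).mono_set fun v hv => hv.1
    · exact gQ_int hβ hμ π
  have h2 : ∫ v in Ioi π, gQ β μ v = exp (-(2 * π * β)) * QQ β μ := by
    have h3 := (measurePreserving_add_right volume (2 * π)).setIntegral_preimage_emb
      (measurableEmbedding_addRight (2 * π)) (gQ β μ) (Ioi π)
    have h4 : (fun v : ℝ => v + 2 * π) ⁻¹' Ioi π = Ioi (-π) := by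
      ext v
      simp only [mem_preimage, mem_Ioi]
      constructor <;> intro h <;> linarith
    rw [h4] at h3
    rw [← h3]
    unfold QQ
    rw [← integral_const_mul]
    congr 1
    ext v
    exact gQ_add β μ v
  rw [h2] at h1
  linarith only [h1]

theorem QQ_nonneg (β μ : ℝ) : 0 ≤ QQ β μ :=
  setIntegral_nonneg measurableSet_Ioi fun v _ => (gQ_pos β μ v).le

theorem QQ_le0 {β μ : ℝ} (hβ : 0 < β) (hμ : 0 < μ) :
    QQ β μ * (1 - exp (-(2 * π * β))) ≤
      √(24 * π / (11 * μ)) * exp (6 * β ^ (2 : ℕ) / (11 * μ)) +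
      √(20 * π / (3 * μ)) * exp (-(3 / 10 * μ) + 5 * β ^ (2 : ℕ) / (3 * μ)) := by
  rw [QQ_period hβ hμ.le]
  have hB1 : 0 < 11 / 24 * μ := by positivity
  have hB2 : 0 < 3 / 20 * μ := by positivity
  have i1 := gl_integrable hB1 β
  have i2 := (gl_integrable hB2 β).const_mul (exp (-(3 / 10 * μ)))
  have h1 : ∫ v in Ioc (-π) π, gQ β μ v ≤ ∫ v in Ioc (-π) π,
      (exp (-(β * v) - 11 / 24 * μ * v ^ (2 : ℕ)) +
        exp (-(3 / 10 * μ)) * exp (-(β * v) - 3 / 20 * μ * v ^ (2 : ℕ))) := by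
    refine setIntegral_mono_on ((gQ_int hβ hμ.le (-π)).mono_set fun v hv => hv.1)
      (i1.add i2).integrableOn measurableSet_Ioc fun v hv => ?_
    have hv2 : |v| ≤ π := abs_le.2 ⟨hv.1.le, hv.2⟩
    have p1 := exp_pos (-(β * v) - 11 / 24 * μ * v ^ (2 : ℕ))
    have p2 := exp_pos (-(β * v) - 3 / 20 * μ * v ^ (2 : ℕ))
    have p3 := exp_pos (-(3 / 10 * μ))
    rcases le_total |v| 1 with h | h
    · have h2 := mul_le_mul_of_nonneg_left (cosA h) hμ.le
      have h3 : gQ β μ v ≤ exp (-(β * v) - 11 / 24 * μ * v ^ (2 : ℕ)) := by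
        unfold gQ
        apply exp_le_exp.2
        linarith only [h2]
      have := mul_pos p3 p2
      linarith only [h3, this]
    · have h2 := mul_le_mul_of_nonneg_left (cosB h hv2) hμ.le
      have h3 : gQ β μ v ≤ exp (-(3 / 10 * μ)) * exp (-(β * v) - 3 / 20 * μ * v ^ (2 : ℕ)) := by
        unfold gQ
        rw [← exp_add]
        apply exp_le_exp.2
        linarith only [h2]
      linarith only [p1, h3]
  refine h1.trans ((setIntegral_le_integral (i1.add i2)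
    (Filter.Eventually.of_forall fun v => ?_)).trans (le_of_eq ?_))
  · have p1 := exp_pos (-(β * v) - 11 / 24 * μ * v ^ (2 : ℕ))
    have p2 := exp_pos (-(β * v) - 3 / 20 * μ * v ^ (2 : ℕ))
    have p3 := exp_pos (-(3 / 10 * μ))
    simp only [Pi.zero_apply, Pi.add_apply]
    positivity
  · simp only [Pi.add_apply]
    rw [integral_add i1 i2, integral_const_mul, gl_integral hB1, gl_integral hB2]
    have e1 : β ^ (2 : ℕ) / (4 * (11 / 24 * μ)) = 6 * β ^ (2 : ℕ) / (11 * μ) := by field_simp; ring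
    have e2 : β ^ (2 : ℕ) / (4 * (3 / 20 * μ)) = 5 * β ^ (2 : ℕ) / (3 * μ) := by field_simp; ring
    have e3 : π / (11 / 24 * μ) = 24 * π / (11 * μ) := by field_simp
    have e4 : π / (3 / 20 * μ) = 20 * π / (3 * μ) := by field_simp
    rw [e1, e2, e3, e4, exp_add]
    ring


/-! ### numerical bounds -/

theorem exp_neg_nat {n : ℕ} {c : ℝ} (hc : 0 < c) (h : 1 / c ≤ (2718 / 1000 : ℝ) ^ n) :
    exp (-(n : ℝ)) ≤ c := by
  have h1 : (2718 / 1000 : ℝ) ≤ exp 1 := by linarith only [Real.exp_one_gt_d9]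
  have h2 : (2718 / 1000 : ℝ) ^ n ≤ exp (n : ℝ) := by
    have := pow_le_pow_left₀ (by norm_num) h1 n
    rwa [← exp_nat_mul, mul_one] at this
  rw [exp_neg]
  have h3 : 1 / c ≤ exp (n : ℝ) := h.trans h2
  rw [one_div] at h3
  have := inv_anti₀ (inv_pos.2 hc) h3
  rwa [inv_inv] at this

theorem exp_neg_le {n : ℕ} {c x : ℝ} (hc : 0 < c) (h : 1 / c ≤ (2718 / 1000 : ℝ) ^ n)
    (hx : (n : ℝ) ≤ x) : exp (-x) ≤ c :=
  (exp_le_exp.2 (neg_le_neg hx)).trans (exp_neg_nat hc h)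

theorem sqrt_ratio {μ : ℝ} (hμ : 0 < μ) :
    √(20 * π / (3 * μ)) ≤ 1749 / 1000 * √(24 * π / (11 * μ)) := by
  have hp := Real.pi_pos
  rw [← Real.sqrt_sq (by norm_num : (0 : ℝ) ≤ 1749 / 1000), ← Real.sqrt_mul (by norm_num)]
  apply Real.sqrt_le_sqrt
  have e : (1749 / 1000 : ℝ) ^ (2 : ℕ) * (24 * π / (11 * μ)) =
      20 * π / (3 * μ) * ((1749 / 1000 : ℝ) ^ (2 : ℕ) * (72 / 220)) := by
    field_simp
    ring
  rw [e]
  have h1 : 0 < 20 * π / (3 * μ) := by positivity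
  linarith only [h1]

theorem QQ_le {β μ : ℝ} (hβ : 6 / 5 ≤ β) (hμ : 34 ≤ μ) (h : β ^ (2 : ℕ) ≤ 3 / 100 * μ ^ (2 : ℕ)) :
    QQ β μ ≤ 1001 / 1000 * (√(24 * π / (11 * μ)) * exp (6 * β ^ (2 : ℕ) / (11 * μ))) := by
  have hp := Real.pi_gt_d4
  have hβ0 : 0 < β := by linarith only [hβ, hμ]
  have hμ0 : 0 < μ := by linarith only [hμ]
  have h0 := QQ_le0 hβ0 hμ0
  have h1 := sqrt_ratio hμ0
  set S := √(24 * π / (11 * μ)) with hS
  have hS0 : 0 ≤ S := Real.sqrt_nonneg _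
  set X := exp (6 * β ^ (2 : ℕ) / (11 * μ)) with hX
  have hX0 : 0 < X := exp_pos _
  have e1 : exp (-(3 / 10 * μ) + 5 * β ^ (2 : ℕ) / (3 * μ)) =
      X * exp (-(3 / 10 * μ - 37 / 33 * (β ^ (2 : ℕ) / μ))) := by
    rw [hX, ← exp_add]
    congr 1
    field_simp
    ring
  have h2 : β ^ (2 : ℕ) / μ ≤ 3 / 100 * μ := by
    rw [div_le_iff₀ hμ0]
    linarith only [h]
  have h3 : exp (-(3 / 10 * μ - 37 / 33 * (β ^ (2 : ℕ) / μ))) ≤ 1 / 8000 :=
    exp_neg_le (n := 9) (by norm_num) (by norm_num) (by push_cast; linarith only [hμ, h2])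
  have h4' : exp (-(2 * π * β)) ≤ 6 / 10000 := by
    have e5 : exp (-(2 * π * β)) = exp (-7) * exp (-(2 * π * β - 7)) := by
      rw [← exp_add]; congr 1; ring
    have h6 : exp (-7) ≤ 10 / 10950 := exp_neg_le (n := 7) (by norm_num) (by norm_num) (by norm_num)
    have h7 : exp (-(2 * π * β - 7)) ≤ 6 / 10 := by
      rw [exp_neg, inv_le_comm₀ (exp_pos _) (by norm_num)]
      have h8 := e_ge3 (x := 52 / 100) (by norm_num)
      have h9 : exp (52 / 100) ≤ exp (2 * π * β - 7) := exp_le_exp.2 (by nlinarith only [hβ, hp])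
      norm_num at h8 ⊢
      linarith only [h9, h8]
    rw [e5]
    calc exp (-7) * exp (-(2 * π * β - 7)) ≤ 10 / 10950 * (6 / 10) :=
          mul_le_mul h6 h7 (exp_pos _).le (by norm_num)
      _ ≤ 6 / 10000 := by norm_num
  have h5 : √(20 * π / (3 * μ)) * exp (-(3 / 10 * μ) + 5 * β ^ (2 : ℕ) / (3 * μ)) ≤
      S * X * (22 / 100000) := by
    rw [e1]
    calc √(20 * π / (3 * μ)) * (X * exp (-(3 / 10 * μ - 37 / 33 * (β ^ (2 : ℕ) / μ)))) ≤
        (1749 / 1000 * S) * (X * (1 / 8000)) :=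
          mul_le_mul h1 (mul_le_mul_of_nonneg_left h3 hX0.le) (by positivity) (by positivity)
      _ ≤ S * X * (22 / 100000) := by linarith only [mul_nonneg hS0 hX0.le]
  have h6 : QQ β μ * (1 - 6 / 10000) ≤ QQ β μ * (1 - exp (-(2 * π * β))) :=
    mul_le_mul_of_nonneg_left (by linarith only [h4']) (QQ_nonneg β μ)
  have hSX : 0 ≤ S * X := mul_nonneg hS0 hX0.le
  linarith only [h0, h5, h6, hSX]

theorem QQ1_le {μ : ℝ} (hμ : 9 ≤ μ) : QQ 1 μ ≤ 5 / 4 * √(24 * π / (11 * μ)) := by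
  have hp := Real.pi_gt_d4
  have hμ0 : 0 < μ := by linarith only [hμ]
  have h0 := QQ_le0 one_pos hμ0
  have h1 := sqrt_ratio hμ0
  set S := √(24 * π / (11 * μ)) with hS
  have hS0 : 0 ≤ S := Real.sqrt_nonneg _
  have h2 : 1 / μ ≤ 1 / 9 := one_div_le_one_div_of_le (by norm_num) hμ
  have h3 : exp (6 * 1 ^ (2 : ℕ) / (11 * μ)) ≤ 1064 / 1000 := by
    have h4 : 6 * 1 ^ (2 : ℕ) / (11 * μ) ≤ 6 / 99 := by
      have e : 6 * (1 : ℝ) ^ (2 : ℕ) / (11 * μ) = 6 / 11 * (1 / μ) := by field_simp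
      rw [e]
      linarith only [h2]
    refine (exp_le_exp.2 h4).trans ((e_le3 (by norm_num) (by norm_num)).trans ?_)
    norm_num
  have h4 : exp (-(3 / 10 * μ) + 5 * 1 ^ (2 : ℕ) / (3 * μ)) ≤ 82 / 1000 := by
    have h5 : -(3 / 10 * μ) + 5 * 1 ^ (2 : ℕ) / (3 * μ) ≤ -2 + -(51 / 100) := by
      have e : 5 * (1 : ℝ) ^ (2 : ℕ) / (3 * μ) = 5 / 3 * (1 / μ) := by field_simp
      rw [e]
      linarith only [hμ, h2]
    refine (exp_le_exp.2 h5).trans ?_
    rw [exp_add]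
    have h6 : exp (-2 : ℝ) ≤ 1354 / 10000 := exp_neg_le (n := 2) (by norm_num) (by norm_num) (by norm_num)
    have h7 : exp (-(51 / 100) : ℝ) ≤ 602 / 1000 := by
      refine (en_le4 (x := 51 / 100) (by norm_num)).trans ?_
      norm_num
    calc exp (-2 : ℝ) * exp (-(51 / 100) : ℝ) ≤ 1354 / 10000 * (602 / 1000) :=
          mul_le_mul h6 h7 (exp_pos _).le (by norm_num)
      _ ≤ 82 / 1000 := by norm_num
  have h5 : exp (-(2 * π * 1)) ≤ 1 / 400 :=
    exp_neg_le (n := 6) (by norm_num) (by norm_num) (by push_cast; linarith only [hp])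
  have h6 : √(20 * π / (3 * μ)) * exp (-(3 / 10 * μ) + 5 * 1 ^ (2 : ℕ) / (3 * μ)) ≤
      (1749 / 1000 * S) * (82 / 1000) :=
    mul_le_mul h1 h4 (exp_pos _).le (by positivity)
  have h7 : S * exp (6 * 1 ^ (2 : ℕ) / (11 * μ)) ≤ S * (1064 / 1000) := mul_le_mul_of_nonneg_left h3 hS0
  have h8 : QQ 1 μ * (1 - 1 / 400) ≤ QQ 1 μ * (1 - exp (-(2 * π * 1))) :=
    mul_le_mul_of_nonneg_left (by linarith only [h5]) (QQ_nonneg 1 μ)
  linarith only [h0, hS0, h6, h7, h8]

/-! ### splitting of the path -/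

theorem tail_int {β μ : ℝ} (hβ : 0 < β) (hμ : 0 ≤ μ) (σ : ℝ) :
    Integrable ((Ioi (σ - π)).indicator fun s : ℝ => gQ β μ (s - σ)) ∧
      ∫ s : ℝ, (Ioi (σ - π)).indicator (fun s : ℝ => gQ β μ (s - σ)) s = QQ β μ := by
  have e : ((Ioi (σ - π)).indicator fun s : ℝ => gQ β μ (s - σ)) =
      fun s : ℝ => (Ioi (-π)).indicator (gQ β μ) (s - σ) := by
    ext s
    unfold Set.indicator
    simp only [mem_Ioi]
    by_cases h : σ - π < s
    · rw [if_pos h, if_pos (by linarith only [h])]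
    · rw [if_neg h, if_neg (by intro h2; apply h; linarith only [h2])]
  rw [e]
  refine ⟨((integrable_indicator_iff measurableSet_Ioi).2 (gQ_int hβ hμ (-π))).comp_sub_right σ, ?_⟩
  rw [integral_sub_right_eq_self (fun s : ℝ => (Ioi (-π)).indicator (gQ β μ) s),
    integral_indicator measurableSet_Ioi]
  rfl

theorem tail_int' {β μ : ℝ} (hβ : 0 < β) (hμ : 0 ≤ μ) (σ : ℝ) :
    Integrable (fun s : ℝ => (Ioi (σ - π)).indicator (fun s : ℝ => gQ β μ (s - σ)) (-s)) ∧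
      ∫ s : ℝ, (Ioi (σ - π)).indicator (fun s : ℝ => gQ β μ (s - σ)) (-s) = QQ β μ := by
  obtain ⟨h1, h2⟩ := tail_int hβ hμ σ
  refine ⟨h1.comp_neg, ?_⟩
  rw [integral_neg_eq_self (fun s : ℝ => (Ioi (σ - π)).indicator (fun s : ℝ => gQ β μ (s - σ)) s)]
  exact h2

theorem split_le {f : ℝ → ℝ} (hf : Integrable f) {A B E T F β μ σ F' β' μ' σ' : ℝ}
    (hA : 0 ≤ A) (hB : 0 < B) (hE : 0 ≤ E) (hT : 0 ≤ T) (hF : 0 ≤ F) (hF' : 0 ≤ F')
    (hβ : 0 < β) (hβ' : 0 < β') (hμ : 0 ≤ μ) (hμ' : 0 ≤ μ') (hσ : σ < T + π) (hσ' : σ' < T + π)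
    (h1 : ∀ s, |s| ≤ 1 → f s ≤ A * exp (-B * s ^ (2 : ℕ)))
    (h2 : ∀ s, 1 ≤ |s| → |s| ≤ T → f s ≤ E)
    (h3 : ∀ s, T ≤ s → f s ≤ F * gQ β μ (s - σ))
    (h4 : ∀ s, T ≤ s → f (-s) ≤ F' * gQ β' μ' (s - σ')) :
    ∫ s, f s ≤ A * √(π / B) + 2 * T * E + F * QQ β μ + F' * QQ β' μ' := by
  obtain ⟨a1, a2⟩ := tail_int hβ hμ σ
  obtain ⟨b1, b2⟩ := tail_int' hβ' hμ' σ'
  have c1 := (integrable_exp_neg_mul_sq hB).const_mul A
  have c2 : Integrable ((Icc (-T) T).indicator fun _ : ℝ => E) :=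
    (integrable_indicator_iff measurableSet_Icc).2 (by simp [integrableOn_const_iff])
  have hg : Integrable fun s : ℝ => (A * exp (-B * s ^ (2 : ℕ)) + (Icc (-T) T).indicator (fun _ => E) s) +
      (F * (Ioi (σ - π)).indicator (fun s : ℝ => gQ β μ (s - σ)) s +
        F' * (Ioi (σ' - π)).indicator (fun s : ℝ => gQ β' μ' (s - σ')) (-s)) :=
    (c1.add c2).add ((a1.const_mul F).add (b1.const_mul F'))
  have hle : ∀ s, f s ≤ (A * exp (-B * s ^ (2 : ℕ)) + (Icc (-T) T).indicator (fun _ => E) s) +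
      (F * (Ioi (σ - π)).indicator (fun s : ℝ => gQ β μ (s - σ)) s +
        F' * (Ioi (σ' - π)).indicator (fun s : ℝ => gQ β' μ' (s - σ')) (-s)) := by
    intro s
    have p1 : 0 ≤ A * exp (-B * s ^ (2 : ℕ)) := by positivity
    have p2 : 0 ≤ (Icc (-T) T).indicator (fun _ : ℝ => E) s := indicator_nonneg (fun _ _ => hE) _
    have p3 : 0 ≤ F * (Ioi (σ - π)).indicator (fun s : ℝ => gQ β μ (s - σ)) s :=
      mul_nonneg hF (indicator_nonneg (fun _ _ => (gQ_pos _ _ _).le) _)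
    have p4 : 0 ≤ F' * (Ioi (σ' - π)).indicator (fun s : ℝ => gQ β' μ' (s - σ')) (-s) :=
      mul_nonneg hF' (indicator_nonneg (fun _ _ => (gQ_pos _ _ _).le) _)
    rcases le_total |s| 1 with q1 | q1
    · have := h1 s q1
      linarith only [p2, p3, p4, this]
    rcases le_total |s| T with q2 | q2
    · have := h2 s q1 q2
      have e : (Icc (-T) T).indicator (fun _ : ℝ => E) s = E :=
        indicator_of_mem (mem_Icc.2 (abs_le.1 q2)) _
      linarith only [p1, p3, p4, this, e]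
    rcases le_total 0 s with q3 | q3
    · rw [abs_of_nonneg q3] at q2
      have := h3 s q2
      have e : (Ioi (σ - π)).indicator (fun s : ℝ => gQ β μ (s - σ)) s = gQ β μ (s - σ) :=
        indicator_of_mem (mem_Ioi.2 (by linarith only [hσ, q2])) _
      rw [e] at p3 ⊢
      linarith only [p1, p2, p4, this]
    · rw [abs_of_nonpos q3] at q2
      have h5 := h4 (-s) q2
      rw [neg_neg] at h5
      have e : (Ioi (σ' - π)).indicator (fun s : ℝ => gQ β' μ' (s - σ')) (-s) =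
          gQ β' μ' (-s - σ') := indicator_of_mem (mem_Ioi.2 (by linarith only [hσ', q2])) _
      rw [e] at p4 ⊢
      linarith only [p1, p2, p3, h5]
  refine (integral_mono hf hg hle).trans (le_of_eq ?_)
  have d1 : ∫ s : ℝ, ((A * exp (-B * s ^ (2 : ℕ)) + (Icc (-T) T).indicator (fun _ => E) s) +
      (F * (Ioi (σ - π)).indicator (fun s : ℝ => gQ β μ (s - σ)) s +
        F' * (Ioi (σ' - π)).indicator (fun s : ℝ => gQ β' μ' (s - σ')) (-s))) =
      (∫ s : ℝ, (A * exp (-B * s ^ (2 : ℕ)) + (Icc (-T) T).indicator (fun _ => E) s)) +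
      ∫ s : ℝ, (F * (Ioi (σ - π)).indicator (fun s : ℝ => gQ β μ (s - σ)) s +
        F' * (Ioi (σ' - π)).indicator (fun s : ℝ => gQ β' μ' (s - σ')) (-s)) :=
    integral_add (c1.add c2) ((a1.const_mul F).add (b1.const_mul F'))
  have d2 : ∫ s : ℝ, (A * exp (-B * s ^ (2 : ℕ)) + (Icc (-T) T).indicator (fun _ => E) s) =
      (∫ s : ℝ, A * exp (-B * s ^ (2 : ℕ))) + ∫ s : ℝ, (Icc (-T) T).indicator (fun _ => E) s :=
    integral_add c1 c2
  have d3 : ∫ s : ℝ, (F * (Ioi (σ - π)).indicator (fun s : ℝ => gQ β μ (s - σ)) s +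
        F' * (Ioi (σ' - π)).indicator (fun s : ℝ => gQ β' μ' (s - σ')) (-s)) =
      (∫ s : ℝ, F * (Ioi (σ - π)).indicator (fun s : ℝ => gQ β μ (s - σ)) s) +
      ∫ s : ℝ, F' * (Ioi (σ' - π)).indicator (fun s : ℝ => gQ β' μ' (s - σ')) (-s) :=
    integral_add (a1.const_mul F) (b1.const_mul F')
  rw [d1, d2, d3, integral_const_mul, integral_const_mul,
    integral_const_mul, a2, b2, integral_gaussian, integral_indicator measurableSet_Icc]
  simp only [integral_const, MeasurableSet.univ, measureReal_restrict_apply, univ_inter,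
    Real.volume_real_Icc_of_le (by linarith : -T ≤ T), smul_eq_mul]
  ring

end SokamP2O

end

/-! ### Lib_MP_af4de1_v3.P2OutL -/

section
namespace SokamF1G
end SokamF1G
/-!
# `P2.outL`: pointwise bounds for the height, left side
-/

set_option autoImplicit false

namespace SokamP2O

open Real Set SokamF1G

/-- the height on the fixed path, left side -/
noncomputable def HL (x y z a s : ℝ) : ℝ :=
  (a - y) * (s - z) + x * (1 + a) - exp a * (x * cos s - y * sin s)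

/-! ### trigonometric facts -/

theorem exp_le_lin {a : ℝ} (h0 : 0 ≤ a) (h1 : a ≤ 1) : exp a ≤ 1 + 43 / 25 * a := by
  have h := e_le3 h0 h1
  have h2 : a ^ (2 : ℕ) ≤ a := by nlinarith only [h0, h1]
  have h3 : a ^ (3 : ℕ) ≤ a := by nlinarith only [h2]
  have h4 : a ^ (4 : ℕ) ≤ a := by nlinarith only [h2]
  linarith only [h0, h, h2, h3, h4]

theorem cos_le_one' {s : ℝ} (h1 : 1 ≤ s) (h2 : s ≤ π) : cos s ≤ 5417 / 10000 := by
  have h := cos_le_cos_of_nonneg_of_le_pi (by norm_num : (0 : ℝ) ≤ 1) h2 h1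
  have h3 := cos_le4 (x := 1) (by norm_num)
  norm_num at h3
  linarith only [h, h3]

theorem cos_le_T {s : ℝ} (h1 : π ≤ s) (h2 : s ≤ 19 / 4) : cos s ≤ 1 / 25 := by
  have hp := Real.pi_gt_d4
  have e : cos s = -cos (s - π) := by rw [cos_sub_pi]; ring
  rcases le_total (s - π) (π / 2) with h | h
  · have := cos_nonneg_of_neg_pi_div_two_le_of_le (by linarith only [h1, hp] : -(π / 2) ≤ s - π) h
    linarith only [e, this]
  · have e2 : cos (s - π) = -sin (s - π - π / 2) := by rw [sin_sub_pi_div_two]; ring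
    have h3 := sin_le (by linarith : 0 ≤ s - π - π / 2)
    rw [e, e2]
    linarith only [h2, hp, h3]

/-- `cos s ≤ 5417/10000` on `[1, 19/4]` -/
theorem cos_le_all {s : ℝ} (h1 : 1 ≤ s) (h2 : s ≤ 19 / 4) : cos s ≤ 5417 / 10000 := by
  rcases le_total s π with h | h
  · exact cos_le_one' h1 h
  · linarith only [cos_le_T h h2]

/-! ### the core `|s| ≤ 1` -/

/-- the weight `e^(j c s)` is absorbed -/
theorem absorb {x c d s j : ℝ} (hx : 0 < x) (hc : 0 < c) (hd : 0 < d) (hj1 : j ≤ 1)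
    (hs : 0 ≤ s) : j * (c * s) - d * (11 / 24 * (x * c) * s ^ (2 : ℕ)) ≤ 6 / 11 * (c / (x * d)) := by
  have h1 : j * (c * s) ≤ 1 * (c * s) := mul_le_mul_of_nonneg_right hj1 (by positivity)
  have h2 : 0 ≤ 6 / 11 * (c / (x * d)) - (1 * (c * s) - d * (11 / 24 * (x * c) * s ^ (2 : ℕ))) := by
    have e : 6 / 11 * (c / (x * d)) - (1 * (c * s) - d * (11 / 24 * (x * c) * s ^ (2 : ℕ))) =
        c * (x * d) * (11 / 24) * (s - 12 / 11 * (1 / (x * d))) ^ (2 : ℕ) := by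
      field_simp
      ring
    rw [e]
    positivity
  linarith only [h1, h2]

theorem mainL {x y z c d s j : ℝ} (hx : 0 < x) (hc : 0 < c) (hd : 0 < d) (hc1 : c ≤ 7 / 25)
    (hy : 0 ≤ y) (hyc : y ≤ 11 / 4 * (x * c)) (hz : 0 ≤ z) (hj0 : 0 ≤ j) (hj1 : j ≤ 1)
    (hs : |s| ≤ 1) :
    j * (c * s) - d * HL x y z (c * s) s ≤ (6 / 11 * (c / (x * d)) - (y - c) * z * d) -
      d * (11 / 24 * (1 - c) * x + (1 - 351 / 625 * (x * c)) * c) * s ^ (2 : ℕ) := by
  obtain ⟨hs1, hs2⟩ := abs_le.1 hs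
  have hcos := cosA hs
  rcases le_total 0 s with h0 | h0
  · -- `s ≥ 0`
    have ha0 : 0 ≤ c * s := by positivity
    have ha1 : c * s ≤ c := by nlinarith only [hc, hs1, hs2]
    have hab := absorb hx hc hd hj1 h0
    have e1 := e_le3 ha0 (by linarith only [hc1, ha1])
    have e2 : exp (c * s) - 1 - c * s ≤ 351 / 625 * (c * s) ^ (2 : ℕ) := by
      have h3 : (c * s) ^ (3 : ℕ) ≤ 7 / 25 * (c * s) ^ (2 : ℕ) := by
        have := mul_le_mul_of_nonneg_right (ha1.trans hc1) (sq_nonneg (c * s))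
        linarith only [this]
      have h4 : (c * s) ^ (4 : ℕ) ≤ (7 / 25) ^ (2 : ℕ) * (c * s) ^ (2 : ℕ) := by
        have h5 : (c * s) ^ (2 : ℕ) ≤ (7 / 25) ^ (2 : ℕ) := pow_le_pow_left₀ ha0 (ha1.trans hc1) 2
        have := mul_le_mul_of_nonneg_right h5 (sq_nonneg (c * s))
        linarith only [this]
      linarith only [e1, h3, h4, sq_nonneg (c * s)]
    have e3 : 1 + c * s ≤ exp (c * s) := by linarith only [add_one_le_exp (c * s)]
    have g1 : x * (exp (c * s) - 1 - c * s) ≤ x * (351 / 625 * (c * s) ^ (2 : ℕ)) :=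
      mul_le_mul_of_nonneg_left e2 hx.le
    have g2 : x * ((1 + c * s) * (11 / 24 * s ^ (2 : ℕ))) ≤ x * (exp (c * s) * (1 - cos s)) :=
      mul_le_mul_of_nonneg_left (mul_le_mul e3 hcos (by positivity) (exp_pos _).le) hx.le
    have g3 : (y - c) * z ≤ (y - c * s) * z := mul_le_mul_of_nonneg_right (by linarith only [ha1]) hz
    have hsin := sin_ge3 h0
    have hsin0 : 0 ≤ s - s ^ (3 : ℕ) / 6 := by nlinarith only [hs2, hcos, h0]
    have g4 : y * ((1 + c * s) * (s - s ^ (3 : ℕ) / 6)) ≤ y * (exp (c * s) * sin s) :=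
      mul_le_mul_of_nonneg_left (mul_le_mul e3 hsin hsin0 (exp_pos _).le) hy
    have g5 : 0 ≤ 11 / 24 * (x * c) * s ^ (3 : ℕ) + y * (c * s ^ (2 : ℕ) - s ^ (3 : ℕ) / 6 - c * s ^ (4 : ℕ) / 6) := by
      have k1 : 0 ≤ s ^ (3 : ℕ) * (11 / 4 * (x * c) - y) := mul_nonneg (by positivity) (by linarith only [hyc])
      have k2 : 0 ≤ y * c * s ^ (2 : ℕ) * (1 - s ^ (2 : ℕ) / 6) :=
        mul_nonneg (by positivity) (by nlinarith only [hs2, h0])
      linarith only [k1, k2]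
    have hH : HL x y z (c * s) s = c * s ^ (2 : ℕ) - x * (exp (c * s) - 1 - c * s) +
        x * (exp (c * s) * (1 - cos s)) + (y - c * s) * z + (y * (exp (c * s) * sin s) - y * s) := by
      unfold HL; ring
    have hlow : (y - c) * z + (11 / 24 * (1 - c) * x + (1 - 351 / 625 * (x * c)) * c) * s ^ (2 : ℕ) +
        11 / 24 * (x * c) * s ^ (2 : ℕ) ≤ HL x y z (c * s) s := by
      rw [hH]
      linarith only [g1, g2, g3, g4, g5]
    have := mul_le_mul_of_nonneg_left hlow hd.le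
    linarith only [hab, this]
  · -- `s ≤ 0`
    obtain ⟨t, ht⟩ : ∃ t, s = -t := ⟨-s, by ring⟩
    subst ht
    have t0 : 0 ≤ t := by linarith only [h0]
    have t1 : t ≤ 1 := by linarith only [hs1]
    have ha0 : 0 ≤ c * t := by positivity
    have ha1 : c * t ≤ c := by nlinarith only [hc, t1]
    have ea : c * -t = -(c * t) := by ring
    rw [ea]
    have e2 := en_le2 ha0
    have e3 := en_ge1 (x := c * t)
    have e4 : exp (-(c * t)) ≤ 1 := by
      rw [exp_le_one_iff]; linarith only [ha0]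
    rw [cos_neg] at hcos
    have g1 : x * (exp (-(c * t)) - 1 + c * t) ≤ x * (351 / 625 * (c * t) ^ (2 : ℕ)) := by
      refine mul_le_mul_of_nonneg_left ?_ hx.le
      linarith only [e2, e3]
    have hcos' : 11 / 24 * t ^ (2 : ℕ) ≤ 1 - cos t := by
      have : (-t) ^ (2 : ℕ) = t ^ (2 : ℕ) := by ring
      rwa [this] at hcos
    have g2 : x * ((1 - c) * (11 / 24 * t ^ (2 : ℕ))) ≤ x * (exp (-(c * t)) * (1 - cos t)) := by
      refine mul_le_mul_of_nonneg_left (mul_le_mul ?_ hcos' (by positivity) (exp_pos _).le) hx.le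
      linarith only [ha1, e3]
    have g3 : (y - c) * z ≤ (y + c * t) * z := mul_le_mul_of_nonneg_right (by linarith only [ha0, ha1]) hz
    have g4 : 0 ≤ y * (t - exp (-(c * t)) * sin t) := by
      refine mul_nonneg hy ?_
      have h5 : 0 ≤ sin t := sin_nonneg_of_nonneg_of_le_pi t0 (by linarith only [t1, Real.pi_gt_d4])
      have h6 : exp (-(c * t)) * sin t ≤ 1 * sin t := mul_le_mul_of_nonneg_right e4 h5
      linarith only [h6, sin_le t0]
    have hH : HL x y z (-(c * t)) (-t) = c * t ^ (2 : ℕ) - x * (exp (-(c * t)) - 1 + c * t) +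
        x * (exp (-(c * t)) * (1 - cos t)) + (y + c * t) * z +
        y * (t - exp (-(c * t)) * sin t) := by
      unfold HL
      rw [cos_neg, sin_neg]
      ring
    have hlow : (y - c) * z + (11 / 24 * (1 - c) * x + (1 - 351 / 625 * (x * c)) * c) * t ^ (2 : ℕ) ≤
        HL x y z (-(c * t)) (-t) := by
      rw [hH]
      linarith only [g1, g2, g3, g4]
    have h7 := mul_le_mul_of_nonneg_left hlow hd.le
    have h8 : 0 ≤ 6 / 11 * (c / (x * d)) := by positivity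
    have h9 : 0 ≤ j * (c * t) := by positivity
    have e5 : (-t) ^ (2 : ℕ) = t ^ (2 : ℕ) := by ring
    rw [e5]
    linarith only [h7, h8, h9]

/-! ### `1 ≤ |s| ≤ 19/4` -/

/-- right side -/
theorem crudeL1 {x y z c a s : ℝ} (hx : 0 < x) (hc : 0 < c) (hy : 0 ≤ y) (hyx : y ≤ 2 / 5 * x)
    (hcy : c ≤ y) (hz : 0 ≤ z) (hz1 : z ≤ π) (ha0 : 0 ≤ a) (ha1 : a ≤ 1) (hac : a ≤ c * s)
    (hay : π ≤ s → y ≤ a) (h1 : 1 ≤ s) (h2 : s ≤ 19 / 4) : 7 / 20 * x ≤ HL x y z a s := by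
  have hp := Real.pi_gt_d4
  have hp2 := Real.pi_lt_d4
  have hexp := exp_le_lin ha0 ha1
  have hexp1 : 1 ≤ exp a := one_le_exp ha0
  rcases le_total s π with h | h
  · have hsin : 0 ≤ sin s := sin_nonneg_of_nonneg_of_le_pi (by linarith only [h1]) h
    have hcos := cos_le_one' h1 h
    have g1 : 0 ≤ a * (s - z) + y * z := by
      rcases le_total z s with h3 | h3
      · have := mul_nonneg ha0 (sub_nonneg.2 h3)
        have := mul_nonneg hy hz
        linarith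
      · have h4 : a * (z - s) ≤ c * s * (z - s) := mul_le_mul_of_nonneg_right hac (sub_nonneg.2 h3)
        have h5 : s * (z - s) ≤ z := by
          have : s * (z - s) ≤ z ^ (2 : ℕ) / 4 := by linarith only [sq_nonneg (z - 2 * s)]
          nlinarith only [hz1, h1, hp2, h3, this]
        have h6 : c * (s * (z - s)) ≤ c * z := mul_le_mul_of_nonneg_left h5 hc.le
        have h7 : c * z ≤ y * z := mul_le_mul_of_nonneg_right hcy hz
        linarith only [h4, h6, h7]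
    have g2 : 1 - cos s ≤ 1 + a - exp a * cos s := by
      rcases le_total (cos s) 0 with h3 | h3
      · have := mul_nonneg (by linarith : 0 ≤ exp a - 1) (neg_nonneg.2 h3)
        linarith only [hexp, hexp1, this]
      · have h4 : (exp a - 1) * cos s ≤ 43 / 25 * a * (5417 / 10000) :=
          mul_le_mul (by linarith only [hexp]) hcos h3 (by positivity)
        linarith only [hexp, hexp1, h4]
    have g3 : y * sin s ≤ y * (exp a * sin s) := by
      refine mul_le_mul_of_nonneg_left ?_ hy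
      nlinarith only [hexp1, hsin]
    have g4 : y * (s - sin s) ≤ 2 / 5 * x * (s - sin s) :=
      mul_le_mul_of_nonneg_right hyx (by linarith only [sin_le (by linarith : 0 ≤ s)])
    have g5 : 7 / 20 ≤ 1 - cos s - 2 / 5 * (s - sin s) := by
      rcases le_total s (3 / 2) with h3 | h3
      · have k1 := cos_le4 (by linarith : 0 ≤ s)
        have k2 := sin_ge3 (by linarith : 0 ≤ s)
        have k3 : 0 ≤ (s - 1) * (3 / 2 - s) := mul_nonneg (by linarith only [h1]) (by linarith only [h3])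
        have k4 : 0 ≤ (s - 1) * (3 / 2 - s) * s := mul_nonneg k3 (by linarith only [h1])
        have k5 : 0 ≤ (s - 1) * (3 / 2 - s) * s ^ (2 : ℕ) := mul_nonneg k3 (by positivity)
        linarith only [hcos, k1, k2, k3, k4, k5]
      · obtain ⟨u, hu⟩ : ∃ u, s = π - u := ⟨π - s, by ring⟩
        have hu0 : 0 ≤ u := by linarith only [h, hu]
        have hu1 : u ≤ 1642 / 1000 := by linarith only [hp2, h3, hu]
        have k1 : cos s = -cos u := by rw [hu, cos_pi_sub]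
        have k2 : sin s = sin u := by rw [hu, sin_pi_sub]
        have k3 := cos_ge2 (x := u)
        have k4 := sin_ge3 hu0
        have k5 : 0 ≤ u * (1642 / 1000 - u) := mul_nonneg hu0 (by linarith only [hu1])
        have k6 : 0 ≤ u * (1642 / 1000 - u) * u := mul_nonneg k5 hu0
        rw [k1, k2, hu]
        linarith only [hp2, hu1, k3, k4, k5, k6]
    have g6 := mul_le_mul_of_nonneg_left g2 hx.le
    have g7 := mul_le_mul_of_nonneg_left g5 hx.le
    unfold HL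
    linarith only [g1, g3, g4, g6, g7]
  · have hcos := cos_le_T h h2
    have hay' := hay h
    have g1 : 0 ≤ (a - y) * (s - z) := mul_nonneg (by linarith only [hay']) (by linarith only [hz1, h])
    have g2 : x * cos s - y * sin s ≤ 11 / 25 * x := by
      have k1 : x * cos s ≤ x * (1 / 25) := mul_le_mul_of_nonneg_left hcos hx.le
      have k2 : y * (-sin s) ≤ y * 1 := mul_le_mul_of_nonneg_left (by linarith only [neg_one_le_sin s]) hy
      linarith only [hyx, k1, k2]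
    have g3 : exp a * (x * cos s - y * sin s) ≤ (1 + 43 / 25 * a) * (11 / 25 * x) := by
      have k1 := mul_le_mul_of_nonneg_left g2 (exp_pos a).le
      have k2 := mul_le_mul_of_nonneg_right hexp (by linarith : 0 ≤ 11 / 25 * x)
      linarith only [k1, k2]
    have g4 : 0 ≤ x * a := mul_nonneg hx.le ha0
    unfold HL
    linarith only [hx, g1, g3, g4]

/-- left side -/
theorem crudeL2 {x y z c a t : ℝ} (hx : 0 < x) (hc1 : c ≤ 2763 / 10000) (hxc : x * c ≤ 1)
    (hy : 0 ≤ y) (hz : 0 ≤ z) (ha0 : 0 ≤ a) (ha1 : a ≤ 1) (hac : a ≤ c * t)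
    (h1 : 1 ≤ t) (h2 : t ≤ 19 / 4) : 7 / 20 * x ≤ HL x y z (-a) (-t) := by
  have hp := Real.pi_gt_d4
  have hp2 := Real.pi_lt_d4
  have e1 := en_le2 ha0
  have e2 := en_ge1 (x := a)
  have e3 : exp (-a) ≤ 1 := by rw [exp_le_one_iff]; linarith only [ha0]
  have e0 := exp_pos (-a)
  have g1 : x * a ^ (2 : ℕ) ≤ a * t := by
    have k1 : x * a ≤ t := by
      have := mul_le_mul_of_nonneg_left hac hx.le
      have := mul_le_mul_of_nonneg_right hxc (by linarith : 0 ≤ t)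
      linarith
    have := mul_le_mul_of_nonneg_left k1 ha0
    linarith only [this]
  have g2 : y * (exp (-a) * sin t) ≤ y * t := by
    refine mul_le_mul_of_nonneg_left ?_ hy
    rcases le_total (sin t) 0 with h | h
    · linarith only [h1, mul_nonneg e0.le (neg_nonneg.2 h)]
    · have : exp (-a) * sin t ≤ 1 * 1 := mul_le_mul e3 (sin_le_one t) h (by norm_num)
      linarith only [h1, this]
  have g3 : 0 ≤ (a + y) * z := mul_nonneg (by linarith only [hy, ha0]) hz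
  have g4 : 7 / 20 ≤ 1 - a + a ^ (2 : ℕ) - exp (-a) * cos t := by
    rcases le_total t π with h | h
    · have hq := cosB (v := t) (by rw [abs_of_nonneg (by linarith only [h1])]; exact h1)
        (by rw [abs_of_nonneg (by linarith only [h1])]; exact h)
      have k1 : (1 - a) * (1 - cos t) + a ^ (2 : ℕ) / 2 ≤ 1 - a + a ^ (2 : ℕ) - exp (-a) * cos t := by
        rcases le_total (cos t) 0 with h3 | h3
        · have := mul_le_mul_of_nonneg_right e2 (neg_nonneg.2 h3)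
          linarith only [this, sq_nonneg a]
        · have := mul_le_mul_of_nonneg_right e1 h3
          have k4 : a ^ (2 : ℕ) * cos t ≤ a ^ (2 : ℕ) * 1 := mul_le_mul_of_nonneg_left (cos_le_one t) (sq_nonneg a)
          linarith only [this, k4]
      have k2 : (1 - a) * (3 / 10 + 3 / 20 * t ^ (2 : ℕ)) ≤ (1 - a) * (1 - cos t) :=
        mul_le_mul_of_nonneg_left hq (by linarith only [ha1])
      have k3 : a ≤ 2763 / 10000 * t := by
        have := mul_le_mul_of_nonneg_right hc1 (by linarith : 0 ≤ t)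
        linarith only [hac, this]
      have k4 : 0 ≤ (2763 / 10000 * t - a) * ((3 / 10 + 3 / 20 * t ^ (2 : ℕ)) - (2763 / 10000 * t + a) / 2) := by
        refine mul_nonneg (by linarith only [k3]) ?_
        linarith only [e2, e3, k3, sq_nonneg (t - 1)]
      have k5 : 0 ≤ (1 - 2763 / 10000 * t) * (3 / 10 + 3 / 20 * t ^ (2 : ℕ)) +
          (2763 / 10000 * t) ^ (2 : ℕ) / 2 - 7 / 20 := by
        have k6 : 0 ≤ (t - 1) * (3142 / 1000 - t) := mul_nonneg (by linarith only [h1]) (by linarith only [hp2, h])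
        have k7 : 0 ≤ (t - 1) * (3142 / 1000 - t) * t := mul_nonneg k6 (by linarith only [e2, e3, k3])
        nlinarith only [k6]
      linarith only [k1, k2, k4, k5]
    · have hcos := cos_le_T h h2
      have k1 : exp (-a) * cos t ≤ 1 / 25 := by
        rcases le_total (cos t) 0 with h3 | h3
        · linarith only [mul_nonneg e0.le (neg_nonneg.2 h3)]
        · have : exp (-a) * cos t ≤ 1 * (1 / 25) := mul_le_mul e3 hcos h3 (by norm_num)
          linarith only [this]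
      linarith only [k1, sq_nonneg (a - 1 / 2)]
  have g5 := mul_le_mul_of_nonneg_left g4 hx.le
  unfold HL
  rw [cos_neg, sin_neg]
  linarith only [g1, g2, g3, g5]

end SokamP2O

end

/-! ### Lib_MP_af4de1_v3.P2OutR -/

section
namespace SokamF1G
end SokamF1G
/-!
# `P2.outR`: pointwise bounds for the height, right side (reflected)
-/

set_option autoImplicit false

namespace SokamP2O

open Real Set SokamF1G

/-- the height on the fixed path, right side, reflected: `y = -n`, `ζ = -z`, `a → -a`, `s = -t` -/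
noncomputable def HR (x n z a t : ℝ) : ℝ :=
  (a - n) * (t - z) + x * (1 - a) - exp (-a) * (x * cos t - n * sin t)

theorem mainR {x n z c d t j : ℝ} (hx : 0 < x) (hc : 0 < c) (hd : 0 < d) (hc1 : c ≤ 21 / 100)
    (hn : 0 ≤ n) (hz : 0 ≤ z) (hj0 : 0 ≤ j) (hj1 : j ≤ 1) (ht : |t| ≤ 1) :
    -(j * (c * t)) - d * HR x n z (c * t) t ≤ (6 / 11 * (c / (x * d)) - (n - c) * z * d) -
      d * (11 / 24 * (1 - c) * x - n * c - n / 6 + (1 - x * c * (1 / 2 + 11 / 50 * c)) * c) *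
        t ^ (2 : ℕ) := by
  obtain ⟨hs1, hs2⟩ := abs_le.1 ht
  have hcos := cosA ht
  have hc2 : 0 ≤ 11 / 50 * c := by positivity
  rcases le_total 0 t with h0 | h0
  · have ha0 : 0 ≤ c * t := by positivity
    have ha1 : c * t ≤ c := by nlinarith only [hs2, hc2]
    have e2 := en_le2 ha0
    have e3 := en_ge1 (x := c * t)
    have e4 : exp (-(c * t)) ≤ 1 := by
      rw [exp_le_one_iff]; linarith only [ha0]
    have g1 : x * (exp (-(c * t)) - 1 + c * t) ≤ x * ((1 / 2 + 11 / 50 * c) * (c * t) ^ (2 : ℕ)) := by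
      refine mul_le_mul_of_nonneg_left ?_ hx.le
      have := mul_nonneg hc2 (sq_nonneg (c * t))
      linarith only [e2, this]
    have g2 : x * ((1 - c) * (11 / 24 * t ^ (2 : ℕ))) ≤ x * (exp (-(c * t)) * (1 - cos t)) := by
      refine mul_le_mul_of_nonneg_left (mul_le_mul ?_ hcos (by positivity) (exp_pos _).le) hx.le
      linarith only [ha1, e3]
    have g3 : (n - c) * z ≤ (n - c * t) * z := mul_le_mul_of_nonneg_right (by linarith only [ha1]) hz
    have hsin := sin_ge3 h0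
    have hsin0 : 0 ≤ t - t ^ (3 : ℕ) / 6 := by nlinarith only [hs2, hcos, h0]
    have g4 : n * (t - exp (-(c * t)) * sin t) ≤ n * (c * t ^ (2 : ℕ) + t ^ (2 : ℕ) / 6) := by
      refine mul_le_mul_of_nonneg_left ?_ hn
      have k1 : (1 - c * t) * (t - t ^ (3 : ℕ) / 6) ≤ exp (-(c * t)) * sin t :=
        mul_le_mul e3 hsin hsin0 (exp_pos _).le
      have k2 : t ^ (3 : ℕ) ≤ t ^ (2 : ℕ) := by nlinarith only [hs2]
      have k3 : 0 ≤ c * t ^ (4 : ℕ) := by positivity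
      linarith only [k1, k2, k3]
    have hH : HR x n z (c * t) t = c * t ^ (2 : ℕ) - x * (exp (-(c * t)) - 1 + c * t) +
        x * (exp (-(c * t)) * (1 - cos t)) + (n - c * t) * z -
        n * (t - exp (-(c * t)) * sin t) := by
      unfold HR; ring
    have hlow : (n - c) * z + (11 / 24 * (1 - c) * x - n * c - n / 6 +
        (1 - x * c * (1 / 2 + 11 / 50 * c)) * c) * t ^ (2 : ℕ) ≤ HR x n z (c * t) t := by
      rw [hH]
      linarith only [g1, g2, g3, g4]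
    have h7 := mul_le_mul_of_nonneg_left hlow hd.le
    have h8 : 0 ≤ 6 / 11 * (c / (x * d)) := by positivity
    have h9 : 0 ≤ j * (c * t) := by positivity
    linarith only [h7, h8, h9]
  · obtain ⟨τ, hτ⟩ : ∃ τ, t = -τ := ⟨-t, by ring⟩
    subst hτ
    have t0 : 0 ≤ τ := by linarith only [h0]
    have t1 : τ ≤ 1 := by linarith only [hs1]
    have ha0 : 0 ≤ c * τ := by positivity
    have ha1 : c * τ ≤ c := by nlinarith only [hc2, t1]
    have hab := absorb hx hc hd hj1 t0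
    have ea : c * -τ = -(c * τ) := by ring
    rw [ea]
    have e1 := e_le3 ha0 (by linarith only [hc1, ha1])
    have q3 : (c * τ) ^ (3 : ℕ) ≤ c * (c * τ) ^ (2 : ℕ) := by
      have := mul_le_mul_of_nonneg_right ha1 (sq_nonneg (c * τ))
      linarith only [this]
    have q4 : (c * τ) ^ (4 : ℕ) ≤ c * (21 / 100) * (c * τ) ^ (2 : ℕ) := by
      have h5 : (c * τ) ^ (2 : ℕ) ≤ c * (21 / 100) := by
        have := mul_le_mul ha1 (ha1.trans hc1) ha0 hc.le
        linarith only [this]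
      have := mul_le_mul_of_nonneg_right h5 (sq_nonneg (c * τ))
      linarith only [this]
    have e2 : exp (c * τ) - 1 - c * τ ≤ (1 / 2 + 11 / 50 * c) * (c * τ) ^ (2 : ℕ) := by
      have := mul_nonneg hc.le (sq_nonneg (c * τ))
      linarith only [e1, q3, q4, this]
    have e3 : 1 + c * τ ≤ exp (c * τ) := by linarith only [add_one_le_exp (c * τ)]
    have e5 : exp (c * τ) ≤ 1 + c * τ + 3 / 5 * (c * τ) ^ (2 : ℕ) := by
      have := mul_le_mul_of_nonneg_right hc1 (sq_nonneg (c * τ))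
      linarith only [e2, e3, this]
    rw [cos_neg] at hcos
    have hcos' : 11 / 24 * τ ^ (2 : ℕ) ≤ 1 - cos τ := by
      have : (-τ) ^ (2 : ℕ) = τ ^ (2 : ℕ) := by ring
      rwa [this] at hcos
    have g1 : x * (exp (c * τ) - 1 - c * τ) ≤ x * ((1 / 2 + 11 / 50 * c) * (c * τ) ^ (2 : ℕ)) :=
      mul_le_mul_of_nonneg_left e2 hx.le
    have g2 : x * ((1 + c * τ) * (11 / 24 * τ ^ (2 : ℕ))) ≤ x * (exp (c * τ) * (1 - cos τ)) :=
      mul_le_mul_of_nonneg_left (mul_le_mul e3 hcos' (by positivity) (exp_pos _).le) hx.le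
    have g3 : (n - c) * z ≤ (n + c * τ) * z := mul_le_mul_of_nonneg_right (by linarith only [ha0, ha1]) hz
    have g4 : n * (exp (c * τ) * sin τ - τ) ≤ n * (c * τ ^ (2 : ℕ) + τ ^ (2 : ℕ) / 6) := by
      refine mul_le_mul_of_nonneg_left ?_ hn
      have k0 : 0 ≤ sin τ := sin_nonneg_of_nonneg_of_le_pi t0 (by linarith only [t1, Real.pi_gt_d4])
      have k1 : exp (c * τ) * sin τ ≤ (1 + c * τ + 3 / 5 * (c * τ) ^ (2 : ℕ)) * τ :=
        mul_le_mul e5 (sin_le t0) k0 (by positivity)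
      have k2 : (c * τ) ^ (2 : ℕ) * τ ≤ (21 / 100) ^ (2 : ℕ) * τ ^ (2 : ℕ) := by
        have k3 : (c * τ) ^ (2 : ℕ) ≤ (21 / 100) ^ (2 : ℕ) * τ ^ (2 : ℕ) := by
          rw [mul_pow]
          exact mul_le_mul_of_nonneg_right (pow_le_pow_left₀ hc.le hc1 2) (sq_nonneg τ)
        nlinarith only [t1, k3]
      linarith only [k1, k2, sq_nonneg τ]
    have g5 : 0 ≤ 11 / 24 * (x * c) * τ ^ (3 : ℕ) := by positivity
    have hH : HR x n z (-(c * τ)) (-τ) = c * τ ^ (2 : ℕ) - x * (exp (c * τ) - 1 - c * τ) +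
        x * (exp (c * τ) * (1 - cos τ)) + (n + c * τ) * z - n * (exp (c * τ) * sin τ - τ) := by
      unfold HR
      rw [cos_neg, sin_neg, neg_neg]
      ring
    have hlow : (n - c) * z + (11 / 24 * (1 - c) * x - n * c - n / 6 +
        (1 - x * c * (1 / 2 + 11 / 50 * c)) * c) * τ ^ (2 : ℕ) + 11 / 24 * (x * c) * τ ^ (2 : ℕ) ≤
        HR x n z (-(c * τ)) (-τ) := by
      rw [hH]
      linarith only [g1, g2, g3, g4, g5]
    have h7 := mul_le_mul_of_nonneg_left hlow hd.le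
    have e6 : (-τ) ^ (2 : ℕ) = τ ^ (2 : ℕ) := by ring
    rw [e6]
    linarith only [hab, h7]

/-! ### `1 ≤ |t| ≤ 19/4` -/

theorem crudeR1 {x n z c a a1 t : ℝ} (hx : 0 < x) (hc : 0 < c) (hc1 : c ≤ 2013 / 10000)
    (hn : 0 ≤ n) (hnx : n ≤ 101 / 1000 * x) (hcn : c ≤ n) (hz : 0 ≤ z) (hz1 : z ≤ π)
    (ha0 : 0 ≤ a) (haa : a ≤ a1) (ha1 : a1 ≤ 1) (hac : a ≤ c * t) (hay : π ≤ t → n ≤ a)
    (hx2 : 4 ≤ x)
    (hcr : 17 / 100 * x ≤ 859 / 1000 * x * (1 - a1) - 141 / 2000 * x * a1 ^ (2 : ℕ) + (a1 - n) * (π - z))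
    (h1 : 1 ≤ t) (h2 : t ≤ 19 / 4) : 17 / 100 * x ≤ HR x n z a t := by
  have hp := Real.pi_gt_d4
  have hp2 := Real.pi_lt_d4
  have e1 := en_le2 ha0
  have e2 := en_ge1 (x := a)
  have e3 : exp (-a) ≤ 1 := by rw [exp_le_one_iff]; linarith only [ha0]
  have e0 := exp_pos (-a)
  rcases le_total t π with h | h
  · have hsin : 0 ≤ sin t := sin_nonneg_of_nonneg_of_le_pi (by linarith only [h1]) h
    have hcos := cos_le_one' h1 h
    have g1 : 0 ≤ a * (t - z) + n * z := by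
      rcases le_total z t with h3 | h3
      · have := mul_nonneg ha0 (sub_nonneg.2 h3)
        have := mul_nonneg hn hz
        linarith
      · have h4 : a * (z - t) ≤ c * t * (z - t) := mul_le_mul_of_nonneg_right hac (sub_nonneg.2 h3)
        have h5 : t * (z - t) ≤ z := by
          have : t * (z - t) ≤ z ^ (2 : ℕ) / 4 := by linarith only [sq_nonneg (z - 2 * t)]
          nlinarith only [hz1, h1, hp2, h3, this]
        have h6 : c * (t * (z - t)) ≤ c * z := mul_le_mul_of_nonneg_left h5 hc.le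
        have h7 : c * z ≤ n * z := mul_le_mul_of_nonneg_right hcn hz
        linarith only [h4, h6, h7]
    have g2 : 0 ≤ n * (exp (-a) * sin t) := by positivity
    have hq := cosB (v := t) (by rw [abs_of_nonneg (by linarith only [h1])]; exact h1)
      (by rw [abs_of_nonneg (by linarith only [h1])]; exact h)
    have k1 : (1 - a) * (1 - cos t) - 5417 / 20000 * a ^ (2 : ℕ) ≤ 1 - a - exp (-a) * cos t := by
      rcases le_total (cos t) 0 with h3 | h3
      · have := mul_le_mul_of_nonneg_right e2 (neg_nonneg.2 h3)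
        linarith only [this, sq_nonneg a]
      · have := mul_le_mul_of_nonneg_right e1 h3
        have k4 : a ^ (2 : ℕ) * cos t ≤ a ^ (2 : ℕ) * (5417 / 10000) :=
          mul_le_mul_of_nonneg_left hcos (sq_nonneg a)
        linarith only [this, k4]
    have k2 : (1 - a) * (3 / 10 + 3 / 20 * t ^ (2 : ℕ)) ≤ (1 - a) * (1 - cos t) :=
      mul_le_mul_of_nonneg_left hq (by linarith only [haa, ha1])
    have k3 : a ≤ 2013 / 10000 * t := by
      have := mul_le_mul_of_nonneg_right hc1 (by linarith : 0 ≤ t)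
      linarith only [hac, this]
    have k4 : 0 ≤ (2013 / 10000 * t - a) * ((3 / 10 + 3 / 20 * t ^ (2 : ℕ)) +
        5417 / 20000 * (2013 / 10000 * t + a)) := mul_nonneg (by linarith only [k3]) (by positivity)
    have k5 : 0 ≤ (1 - 2013 / 10000 * t) * (3 / 10 + 3 / 20 * t ^ (2 : ℕ)) -
        5417 / 20000 * (2013 / 10000 * t) ^ (2 : ℕ) - 101 / 1000 * t - 17 / 100 := by
      have k6 : 0 ≤ (t - 1) * (3142 / 1000 - t) := mul_nonneg (by linarith only [h1]) (by linarith only [hp2, h])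
      have k7 : 0 ≤ (t - 1) * (3142 / 1000 - t) * (t - 1) := mul_nonneg k6 (by linarith only [h1])
      linarith only [hp2, h, k6, k7]
    have g4 : 17 / 100 + 101 / 1000 * t ≤ 1 - a - exp (-a) * cos t := by linarith only [k1, k2, k4, k5]
    have g5 := mul_le_mul_of_nonneg_left g4 hx.le
    have g6 := mul_le_mul_of_nonneg_right hnx (by linarith : 0 ≤ t)
    unfold HR
    linarith only [g1, g2, g5, g6]
  · have hcos := cos_le_T h h2
    have hay' := hay h
    have g1 : (a - n) * (π - z) ≤ (a - n) * (t - z) :=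
      mul_le_mul_of_nonneg_left (by linarith only [h]) (by linarith only [hay'])
    have g2 : x * cos t - n * sin t ≤ 141 / 1000 * x := by
      have k1 : x * cos t ≤ x * (1 / 25) := mul_le_mul_of_nonneg_left hcos hx.le
      have k2 : n * (-sin t) ≤ n * 1 := mul_le_mul_of_nonneg_left (by linarith only [neg_one_le_sin t]) hn
      linarith only [hnx, k1, k2]
    have g3 : exp (-a) * (x * cos t - n * sin t) ≤ (1 - a + a ^ (2 : ℕ) / 2) * (141 / 1000 * x) := by
      have k1 := mul_le_mul_of_nonneg_left g2 e0.le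
      have k2 := mul_le_mul_of_nonneg_right e1 (by linarith : 0 ≤ 141 / 1000 * x)
      linarith only [k1, k2]
    have g4 : 0 ≤ (a1 - a) * (859 / 1000 * x + 141 / 2000 * x * (a1 + a) - (π - z)) := by
      refine mul_nonneg (by linarith only [haa]) ?_
      have : 0 ≤ x * (a1 + a) := mul_nonneg hx.le (by linarith only [ha0, haa])
      linarith only [hz, hx2, hp2, this]
    unfold HR
    linarith only [hcr, g1, g3, g4]

theorem crudeR2 {x n z a τ : ℝ} (hx : 0 < x) (hn : 0 ≤ n) (hn1 : n ≤ 1 / 2) (hz : 0 ≤ z)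
    (ha0 : 0 ≤ a) (ha1 : a ≤ 1) (h1 : 1 ≤ τ) (h2 : τ ≤ 19 / 4) :
    17 / 100 * x ≤ HR x n z (-a) (-τ) := by
  have hexp := exp_le_lin ha0 ha1
  have hexp1 : 1 ≤ exp a := one_le_exp ha0
  have hcos := cos_le_all h1 h2
  have g1 : 1 - 5417 / 10000 ≤ 1 + a - exp a * cos τ := by
    rcases le_total (cos τ) 0 with h3 | h3
    · have := mul_nonneg (by linarith : 0 ≤ exp a) (neg_nonneg.2 h3)
      linarith only [hexp, hexp1, this]
    · have h4 : (exp a - 1) * cos τ ≤ 43 / 25 * a * (5417 / 10000) :=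
        mul_le_mul (by linarith only [hexp]) hcos h3 (by positivity)
      linarith only [hexp, hexp1, hcos, h4]
  have g2 : n * (exp a * sin τ) ≤ (a + n) * τ := by
    rcases le_total (sin τ) 0 with h | h
    · have h3 : exp a * sin τ ≤ 0 := mul_nonpos_of_nonneg_of_nonpos (exp_pos a).le h
      have h4 : 0 ≤ (a + n) * τ := mul_nonneg (by linarith only [hn, ha0]) (by linarith only [h1])
      have h5 := mul_nonneg hn (neg_nonneg.2 h3)
      linarith only [h4, h5]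
    · have h3 : exp a * sin τ ≤ (1 + 43 / 25 * a) * 1 :=
        mul_le_mul hexp (sin_le_one τ) h (by positivity)
      have h4 := mul_le_mul_of_nonneg_left h3 hn
      have h5 : n * a ≤ 1 / 2 * a := mul_le_mul_of_nonneg_right hn1 ha0
      have h6 : 0 ≤ (a + n) * (τ - 1) := mul_nonneg (by linarith only [hn, ha0]) (by linarith only [h1])
      linarith only [hexp, hexp1, h4, h5, h6]
  have g3 : 0 ≤ (a + n) * z := mul_nonneg (by linarith only [hn, ha0]) hz
  have g4 := mul_le_mul_of_nonneg_left g1 hx.le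
  unfold HR
  rw [cos_neg, sin_neg, neg_neg]
  linarith only [hx, g2, g3, g4]

end SokamP2O

end

/-! ### Lib_MP_af4de1_v3.P2OutT -/

section
namespace SokamF1G
end SokamF1G
/-!
# `P2.outL`, `P2.outR`: the tails and the sum of the four parts
-/

set_option autoImplicit false

namespace SokamP2O

open Real Set SokamF1G MeasureTheory

/-- `sG` in the variables `d = 1/δ`, `D` -/
noncomputable def sg (d D : ℝ) : ℝ := √(2 * π / (d * D))

theorem sg_pos {d D : ℝ} (hd : 0 < d) (hD : 0 < D) : 0 < sg d D := by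
  unfold sg
  have := Real.pi_pos
  positivity

/-! ### exact forms of the height on the flat parts -/

theorem tailL {x y ρ η ψ W D : ℝ} (G : GeL x y ρ η ψ W D) (z b s : ℝ) :
    HL x y z (y + b) s = b * (s - (2 * π - ψ)) + ρ * exp b * (1 - cos (s - (2 * π - ψ))) +
      (b * (2 * π - z - η) - ρ * (exp b - 1 - b) - (ρ - x * (1 + y))) := by
  have e1 : cos (s - (2 * π - ψ)) = cos (s + ψ) := by
    rw [show s - (2 * π - ψ) = s + ψ - 2 * π by ring, cos_sub_two_pi]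
  have e2 : x * cos s - y * sin s = W * cos (s + ψ) := by
    rw [cos_add]
    linear_combination (cos s) * G.cs - (sin s) * G.sn
  have e3 : exp (y + b) * W = ρ * exp b := by
    rw [G.rho, exp_add]; ring
  have e4 : exp (y + b) * (x * cos s - y * sin s) = ρ * exp b * cos (s + ψ) := by
    rw [e2, ← mul_assoc, e3]
  unfold HL
  rw [e1, e4]
  linear_combination b * G.eta

/-- left tail, left side -/
theorem tailL' {x y ρ η ψ W D : ℝ} (G : GeL x y ρ η ψ W D) {z a d t : ℝ} (hz : 0 ≤ z)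
    (ha : 0 ≤ a) (hd : 0 < d) (h1 : 1 ≤ (a + y) * d) (ht : 19 / 4 ≤ t) :
    -(d * HL x y z (-a) (-t)) ≤
      -(d * ((a + y) * (19 / 4) + x * (1 - a) - exp (-a) * W)) - 3 / 2 +
      (-(1 * (t - (2 * π + ψ))) - W * exp (-a) * d * (1 - cos (t - (2 * π + ψ)))) := by
  have hp := Real.pi_gt_d4
  have e1 : cos (t - (2 * π + ψ)) = cos (t - ψ) := by
    rw [show t - (2 * π + ψ) = t - ψ - 2 * π by ring, cos_sub_two_pi]
  have e2 : x * cos t + y * sin t = W * cos (t - ψ) := by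
    rw [cos_sub]
    linear_combination (cos t) * G.cs + (sin t) * G.sn
  have e3 : HL x y z (-a) (-t) = (a + y) * t + (a + y) * z + x * (1 - a) -
      exp (-a) * (W * cos (t - ψ)) := by
    rw [← e2]
    unfold HL
    rw [cos_neg, sin_neg]
    ring
  have h2 : 0 ≤ d * ((a + y) * z) := by
    have := G.y0
    positivity
  have h3 : 1 * (t - 19 / 4) ≤ (a + y) * d * (t - 19 / 4) :=
    mul_le_mul_of_nonneg_right h1 (by linarith)
  have h4 := G.p0
  rw [e1, e3]
  linarith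

/-! ### normalisation -/

theorem sqrt_mu {W D d κ μ : ℝ} (hW : 0 < W) (hD : 0 < D) (hd : 0 < d) (hμ : μ = W * exp κ * d) :
    √(24 * π / (11 * μ)) = √(12 / 11 * (D / W)) * exp (-(κ / 2)) * sg d D := by
  have hp := Real.pi_pos
  have e1 : exp (-(κ / 2)) = √(exp (-κ)) := by
    rw [show exp (-κ) = exp (-(κ / 2)) ^ (2 : ℕ) by rw [← exp_nat_mul]; congr 1; push_cast; ring,
      Real.sqrt_sq (exp_pos _).le]
  have e2 : exp κ * exp (-κ) = 1 := by rw [← exp_add]; simp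
  unfold sg
  rw [e1, ← Real.sqrt_mul (by positivity), ← Real.sqrt_mul (by positivity)]
  congr 1
  rw [hμ, exp_neg]
  field_simp
  ring

theorem right_bd {W D d κ β μ kW e X : ℝ} (hW : 0 < W) (hD : 0 < D) (hd : 0 < d)
    (hμ : μ = W * exp κ * d) (hβ : 6 / 5 ≤ β) (hμ2 : 34 ≤ μ) (h : β ^ (2 : ℕ) ≤ 3 / 100 * μ ^ (2 : ℕ))
    (hk : 1001 / 1000 * √(12 / 11 * (D / W)) ≤ kW)
    (hX : e - κ / 2 + 6 * β ^ (2 : ℕ) / (11 * μ) ≤ X) :
    exp e * QQ β μ ≤ kW * exp X * sg d D := by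
  have h1 := QQ_le hβ hμ2 h
  rw [sqrt_mu hW hD hd hμ] at h1
  have hs := sg_pos hd hD
  have h2 := mul_le_mul_of_nonneg_left h1 (exp_pos e).le
  refine h2.trans ?_
  have e1 : exp e * (1001 / 1000 * (√(12 / 11 * (D / W)) * exp (-(κ / 2)) * sg d D *
      exp (6 * β ^ (2 : ℕ) / (11 * μ)))) = (1001 / 1000 * √(12 / 11 * (D / W))) *
      exp (e - κ / 2 + 6 * β ^ (2 : ℕ) / (11 * μ)) * sg d D := by
    rw [show e - κ / 2 + 6 * β ^ (2 : ℕ) / (11 * μ) = e + -(κ / 2) + 6 * β ^ (2 : ℕ) / (11 * μ) by ring,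
      exp_add, exp_add]
    ring
  rw [e1]
  refine mul_le_mul_of_nonneg_right (mul_le_mul hk (exp_le_exp.2 hX) (exp_pos _).le ?_) hs.le
  exact le_trans (by positivity) hk

theorem left_bd {W D d κ μ kW e X : ℝ} (hW : 0 < W) (hD : 0 < D) (hd : 0 < d)
    (hμ : μ = W * exp κ * d) (hμ2 : 9 ≤ μ)
    (hk : 1001 / 1000 * √(12 / 11 * (D / W)) ≤ kW)
    (hX : e - κ / 2 ≤ X) :
    exp e * QQ 1 μ ≤ 5 / 4 * kW * exp X * sg d D := by
  have h1 := QQ1_le hμ2
  rw [sqrt_mu hW hD hd hμ] at h1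
  have hs := sg_pos hd hD
  have h2 := mul_le_mul_of_nonneg_left h1 (exp_pos e).le
  refine h2.trans ?_
  have e1 : exp e * (5 / 4 * (√(12 / 11 * (D / W)) * exp (-(κ / 2)) * sg d D)) =
      5 / 4 * √(12 / 11 * (D / W)) * exp (e - κ / 2) * sg d D := by
    rw [show e - κ / 2 = e + -(κ / 2) by ring, exp_add]
    ring
  rw [e1]
  have h3 : 0 ≤ √(12 / 11 * (D / W)) := Real.sqrt_nonneg _
  refine mul_le_mul_of_nonneg_right (mul_le_mul (by linarith) (exp_le_exp.2 hX) (exp_pos _).le ?_) hs.le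
  linarith

/-- the core -/
theorem core_bd {d D A den M e0 : ℝ} (hd : 0 < d) (hD : 0 < D) (hden : 0 < den) (hA : 0 ≤ A)
    (hM : 0 ≤ M) (he : 0 ≤ e0) (h : A ^ (2 : ℕ) * D ≤ M ^ (2 : ℕ) * den) :
    A * e0 * √(π / (d * den / 2)) ≤ M * e0 * sg d D := by
  have hp := Real.pi_pos
  have h1 : A * √(π / (d * den / 2)) ≤ M * sg d D := by
    unfold sg
    rw [← Real.sqrt_sq hA, ← Real.sqrt_sq hM, ← Real.sqrt_mul (sq_nonneg A),
      ← Real.sqrt_mul (sq_nonneg M)]
    apply Real.sqrt_le_sqrt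
    have e1 : A ^ (2 : ℕ) * (π / (d * den / 2)) = A ^ (2 : ℕ) * D * (2 * π / (d * D * den)) := by
      field_simp
    have e2 : M ^ (2 : ℕ) * (2 * π / (d * D)) = M ^ (2 : ℕ) * den * (2 * π / (d * D * den)) := by
      field_simp
    rw [e1, e2]
    exact mul_le_mul_of_nonneg_right h (by positivity)
  calc A * e0 * √(π / (d * den / 2)) = A * √(π / (d * den / 2)) * e0 := by ring
    _ ≤ M * sg d D * e0 := mul_le_mul_of_nonneg_right h1 he
    _ = _ := by ring

/-- the middle part: `dD ≤ q xd` -/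
theorem mid_bd {d D k q ν m E k0 : ℝ} (hd : 0 < d) (hD : 0 < D) (hq : 0 < q) (hk0 : 0 < k0)
    (hk : k0 ≤ k) (hν : 1 / (2 * k0) ≤ ν) (hm : 0 ≤ m) (hdD : d * D ≤ q * k)
    (h : E ^ (2 : ℕ) * (q * k0) * exp (-(2 * ν * k0)) ≤ m ^ (2 : ℕ) * (2 * π)) :
    E * exp (-(ν * k)) ≤ m * sg d D := by
  have hp := Real.pi_pos
  have hkp : 0 < k := by linarith
  unfold sg
  rw [← Real.sqrt_sq hm, ← Real.sqrt_mul (sq_nonneg m)]
  apply Real.le_sqrt_of_sq_le
  have h1 : k ≤ k0 * exp (2 * ν * (k - k0)) := by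
    have h2 := add_one_le_exp (2 * ν * (k - k0))
    have h3 : 1 ≤ 2 * ν * k0 := by
      rw [div_le_iff₀ (by positivity)] at hν
      linarith
    have h4 : 1 * (k - k0) ≤ 2 * ν * k0 * (k - k0) :=
      mul_le_mul_of_nonneg_right h3 (by linarith)
    have h5 := mul_le_mul_of_nonneg_left h2 hk0.le
    linarith
  have e1 : (E * exp (-(ν * k))) ^ (2 : ℕ) = E ^ (2 : ℕ) * exp (-(2 * ν * k)) := by
    rw [mul_pow, ← exp_nat_mul]
    congr 2
    push_cast
    ring
  rw [e1, ← mul_div_assoc, le_div_iff₀ (by positivity)]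
  calc E ^ (2 : ℕ) * exp (-(2 * ν * k)) * (d * D) ≤
        E ^ (2 : ℕ) * exp (-(2 * ν * k)) * (q * (k0 * exp (2 * ν * (k - k0)))) := by
          refine mul_le_mul_of_nonneg_left (hdD.trans ?_) (by positivity)
          exact mul_le_mul_of_nonneg_left h1 hq.le
    _ = E ^ (2 : ℕ) * (q * k0) * exp (-(2 * ν * k0)) := by
        have : exp (-(2 * ν * k)) * exp (2 * ν * (k - k0)) = exp (-(2 * ν * k0)) := by
          rw [← exp_add]; congr 1; ring
        linear_combination (E ^ (2 : ℕ) * q * k0) * this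
    _ ≤ _ := h

/-- the sum of the four parts -/
theorem core_sum {f : ℝ → ℝ} (hf : Integrable f) {d D W A den M w E mid q k k0 ν m β κ μ kW e3 X3
    μ' e4 X4 σ σ' : ℝ} (hd : 0 < d) (hD : 0 < D) (hW : 0 < W) (hden : 0 < den) (hA : 0 ≤ A)
    (hM : 0 ≤ M) (hMM : A ^ (2 : ℕ) * D ≤ M ^ (2 : ℕ) * den)
    (hE0 : 0 ≤ mid) (hE : 19 / 2 * mid ≤ E * exp (-(ν * k)))
    (hq : 0 < q) (hk0 : 0 < k0) (hk : k0 ≤ k) (hν : 1 / (2 * k0) ≤ ν) (hm : 0 ≤ m)
    (hdD : d * D ≤ q * k) (hmid : E ^ (2 : ℕ) * (q * k0) * exp (-(2 * ν * k0)) ≤ m ^ (2 : ℕ) * (2 * π))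
    (hβ : 6 / 5 ≤ β) (hμ : μ = W * exp κ * d) (hμ2 : 34 ≤ μ) (hβμ : β ^ (2 : ℕ) ≤ 3 / 100 * μ ^ (2 : ℕ))
    (hkW : 1001 / 1000 * √(12 / 11 * (D / W)) ≤ kW)
    (hX3 : e3 - κ / 2 + 6 * β ^ (2 : ℕ) / (11 * μ) ≤ X3)
    (hμ' : μ' = W * exp (-κ) * d) (hμ2' : 9 ≤ μ') (hX4 : e4 + κ / 2 ≤ X4)
    (hσ : σ < 19 / 4 + π) (hσ' : σ' < 19 / 4 + π)
    (h1 : ∀ s, |s| ≤ 1 → f s ≤ A * exp w * exp (-(d * den / 2) * s ^ (2 : ℕ)))
    (h2 : ∀ s, 1 ≤ |s| → |s| ≤ 19 / 4 → f s ≤ mid)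
    (h3 : ∀ s, 19 / 4 ≤ s → f s ≤ exp e3 * gQ β μ (s - σ))
    (h4 : ∀ s, 19 / 4 ≤ s → f (-s) ≤ exp e4 * gQ 1 μ' (s - σ')) :
    ∫ s, f s ≤ (M * exp w + m + kW * exp X3 + 5 / 4 * kW * exp X4) * sg d D := by
  have i0 := split_le hf (T := 19 / 4) (by positivity : 0 ≤ A * exp w)
    (by positivity : 0 < d * den / 2) hE0 (by norm_num) (exp_pos e3).le (exp_pos e4).le
    (by linarith : 0 < β) one_pos (by linarith : 0 ≤ μ) (by linarith : 0 ≤ μ') hσ hσ' h1 h2 h3 h4
  have i1 := core_bd hd hD hden hA hM (exp_pos w).le hMM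
  have i2 := mid_bd hd hD hq hk0 hk hν hm hdD hmid
  have i3 := right_bd hW hD hd hμ hβ hμ2 hβμ hkW hX3
  have i4 := left_bd hW hD hd hμ' hμ2' hkW (e := e4) (X := X4) (by linarith)
  linarith

end SokamP2O

end

/-! ### Lib_MP_af4de1_v3.P2OutC -/

section
namespace SokamF1G
end SokamF1G
namespace SokamPG
end SokamPG
/-!
# `P2.outL`, `P2.outR`: the absolute integral from the numerical facts
-/

set_option autoImplicit false

namespace SokamP2O

open Real Set SokamF1G MeasureTheory SokamPG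

/-! ### the path -/

theorem norm_pv0 (c : ℝ) : ‖(1 : ℂ) - c * Complex.I‖ = √(1 + c ^ (2 : ℕ)) := by
  have e : (1 : ℂ) - c * Complex.I = ((1 : ℝ) : ℂ) + ((-c : ℝ) : ℂ) * Complex.I := by
    push_cast; ring
  rw [e, Complex.norm_add_mul_I]
  congr 1
  ring

theorem one_le_A (c : ℝ) : 1 ≤ √(1 + c ^ (2 : ℕ)) := by
  rw [Real.one_le_sqrt]
  linarith only [sq_nonneg c]

theorem norm_pv_A (c s1 s : ℝ) : ‖pv c s1 s‖ ≤ √(1 + c ^ (2 : ℕ)) := by
  unfold pv
  split_ifs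
  · rw [norm_pv0]
  · rw [norm_one]; exact one_le_A c

theorem norm_pv_out {c s1 s : ℝ} (h : s1 ≤ |s|) : ‖pv c s1 s‖ = 1 := by
  unfold pv
  rw [if_neg (not_lt.2 h), norm_one]

theorem pc_neg {c s1 s : ℝ} (hc : 0 < c) (hs : 0 < s1) (h0 : 0 ≤ s) :
    pc c s1 (-s) = -pc c s1 s := by
  rcases le_total s s1 with h | h
  · rw [pc_mid hc (by linarith only [hs, h0]) h, pc_mid hc (by linarith only [h]) (by linarith)]
    ring
  · rw [pc_right hc hs h, pc_left hc hs (by linarith only [h])]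

theorem pc_pos {c s1 s : ℝ} (hc : 0 < c) (hs : 0 < s1) (h0 : 0 ≤ s) :
    0 ≤ pc c s1 s ∧ pc c s1 s ≤ c * s ∧ pc c s1 s ≤ c * s1 := by
  rcases le_total s s1 with h | h
  · rw [pc_mid hc (by linarith only [hs, h0]) h]
    exact ⟨by positivity, le_rfl, mul_le_mul_of_nonneg_left h hc.le⟩
  · rw [pc_right hc hs h]
    exact ⟨by positivity, mul_le_mul_of_nonneg_left h hc.le, le_rfl⟩

theorem pc_ge {c s1 s v u : ℝ} (hc : 0 < c) (hs : 0 < s1) (h0 : 0 ≤ s) (hu : u ≤ s)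
    (h1 : v ≤ c * u) (h2 : v ≤ c * s1) : v ≤ pc c s1 s := by
  rcases le_total s s1 with h | h
  · rw [pc_mid hc (by linarith only [hs, h0]) h]
    exact h1.trans (mul_le_mul_of_nonneg_left hu hc.le)
  · rw [pc_right hc hs h]
    exact h2

/-! ### left side -/

/-- the integrand, left side -/
noncomputable def fL (c s1 x y z d j s : ℝ) : ℝ :=
  ‖pv c s1 s‖ * (exp (j * pc c s1 s) * exp (-(d * HL x y z (pc c s1 s) s)))

theorem exp_mid {j a d H X : ℝ} (hj0 : 0 ≤ j) (hj1 : j ≤ 1) (ha1 : a ≤ 1) (hd : 0 < d)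
    (hH : X ≤ H) : exp (j * a) * exp (-(d * H)) ≤ exp 1 * exp (-(d * X)) := by
  refine mul_le_mul (exp_le_exp.2 ?_) (exp_le_exp.2 ?_) (exp_pos _).le (exp_pos _).le
  · rcases le_total a 0 with h | h
    · nlinarith only [hj0, hj1, ha1]
    · nlinarith only [hj0, hj1, ha1]
  · have := mul_le_mul_of_nonneg_left hH hd.le
    linarith only [this]

theorem coreL {x y ρ η ψ W D : ℝ} (G : GeL x y ρ η ψ W D) {d b c s1 z j : ℝ}
    (hd : 0 < d) (hb : 0 < b) (hc : 0 < c) (hs1 : c * s1 = y + b) (hs1a : 1 ≤ s1)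
    (hs1b : s1 ≤ 19 / 4) (ha1 : y + b ≤ 1) (hc1 : c ≤ 2763 / 10000) (hxc : x * c ≤ 1)
    (hcy : c ≤ y) (hcπ : y ≤ c * π) (hyc : y ≤ 11 / 4 * (x * c)) (hz : 0 ≤ z) (hz1 : z ≤ π)
    (hj0 : 0 ≤ j) (hj1 : j ≤ 1) {q k0 m M kW X3 X4 : ℝ}
    (hM : 0 ≤ M) (hMM : (1 + c ^ (2 : ℕ)) * D ≤
      M ^ (2 : ℕ) * (2 * (11 / 24 * (1 - c) * x + (1 - 351 / 625 * (x * c)) * c)))
    (hq : 0 < q) (hk0 : 2 ≤ k0) (hk : k0 ≤ x * d) (hm : 0 ≤ m) (hDq : D ≤ q * x)
    (hmid : (27 : ℝ) ^ (2 : ℕ) * (q * k0) * exp (-(2 * (7 / 20) * k0)) ≤ m ^ (2 : ℕ) * (2 * π))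
    (hβ : 6 / 5 ≤ b * d) (hμ2 : 34 ≤ ρ * exp b * d)
    (hβμ : (b * d) ^ (2 : ℕ) ≤ 3 / 100 * (ρ * exp b * d) ^ (2 : ℕ))
    (hkW : 1001 / 1000 * √(12 / 11 * (D / W)) ≤ kW)
    (hX3 : (y + b) / 2 - d * (b * (2 * π - z - η) - ρ * (exp b - 1 - b) - (ρ - x * (1 + y))) +
      6 * (b * d) ^ (2 : ℕ) / (11 * (ρ * exp b * d)) ≤ X3)
    (h1d : 1 ≤ ((y + b) + y) * d) (hμ2' : 9 ≤ W * exp (-(y + b)) * d)
    (hX4 : (y + b) / 2 - d * (((y + b) + y) * (19 / 4) + x * (1 - (y + b)) - exp (-(y + b)) * W) -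
      3 / 2 ≤ X4)
    (hf : Integrable (fL c s1 x y z d j)) :
    ∫ s, fL c s1 x y z d j s ≤ (M * exp (6 / 11 * (c / (x * d)) - (y - c) * z * d) + m +
      kW * exp X3 + 5 / 4 * kW * exp X4) * sg d D := by
  have hx := G.x0
  have hy := G.y0
  have hp := Real.pi_gt_d4
  have hp2 := Real.pi_lt_d4
  have hs0 : 0 < s1 := by linarith only [hs1a]
  have hA := one_le_A c
  have hA0 : 0 ≤ √(1 + c ^ (2 : ℕ)) := by linarith only [hA]
  have hA2 : √(1 + c ^ (2 : ℕ)) ^ (2 : ℕ) = 1 + c ^ (2 : ℕ) := Real.sq_sqrt (by positivity)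
  have hden : 0 < 2 * (11 / 24 * (1 - c) * x + (1 - 351 / 625 * (x * c)) * c) := by
    have h1 : 0 < 11 / 24 * (1 - c) * x := by
      have : 0 < 1 - c := by linarith only [hc1]
      positivity
    have h2 : 0 < (1 - 351 / 625 * (x * c)) * c := mul_pos (by linarith only [hxc]) hc
    linarith only [h1, h2]
  have hμe : ρ * exp b * d = W * exp (y + b) * d := by
    rw [G.rho, exp_add]; ring
  have hA27 : 19 / 2 * (√(1 + c ^ (2 : ℕ)) * (exp 1 * exp (-(d * (7 / 20 * x))))) ≤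
      27 * exp (-(7 / 20 * (x * d))) := by
    have h1 : √(1 + c ^ (2 : ℕ)) ≤ 104 / 100 := by
      rw [Real.sqrt_le_left (by norm_num)]
      have : c ^ (2 : ℕ) ≤ (2763 / 10000) ^ (2 : ℕ) := pow_le_pow_left₀ hc.le hc1 2
      linarith only [this]
    have h2 : exp 1 ≤ 27183 / 10000 := by linarith only [Real.exp_one_lt_d9]
    have h3 : √(1 + c ^ (2 : ℕ)) * exp 1 ≤ 104 / 100 * (27183 / 10000) :=
      mul_le_mul h1 h2 (exp_pos _).le (by norm_num)
    rw [show d * (7 / 20 * x) = 7 / 20 * (x * d) by ring]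
    have h4 := mul_le_mul_of_nonneg_right h3 (exp_pos (-(7 / 20 * (x * d)))).le
    have h5 := (exp_pos (-(7 / 20 * (x * d)))).le
    linarith only [h4, h5]
  refine core_sum hf (A := √(1 + c ^ (2 : ℕ))) (κ := y + b) (ν := 7 / 20) (k := x * d) (k0 := k0)
    (q := q) (E := 27) (mid := √(1 + c ^ (2 : ℕ)) * (exp 1 * exp (-(d * (7 / 20 * x)))))
    (β := b * d) (μ := ρ * exp b * d) (μ' := W * exp (-(y + b)) * d)
    (e3 := j * (y + b) - d * (b * (2 * π - z - η) - ρ * (exp b - 1 - b) - (ρ - x * (1 + y))))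
    (e4 := -(d * (((y + b) + y) * (19 / 4) + x * (1 - (y + b)) - exp (-(y + b)) * W)) - 3 / 2)
    (σ := 2 * π - ψ) (σ' := 2 * π + ψ)
    (den := 2 * (11 / 24 * (1 - c) * x + (1 - 351 / 625 * (x * c)) * c))
    hd G.D0 G.W0 hden hA0 hM (by rw [hA2]; exact hMM) (by positivity) hA27 hq (by linarith only [hk0]) hk
    ?_ hm ?_ hmid hβ hμe hμ2 hβμ hkW ?_ rfl hμ2' ?_ ?_ ?_ ?_ ?_ ?_ ?_
  · rw [div_le_iff₀ (by linarith only [hk0])]; linarith only [hk0]
  · have := mul_le_mul_of_nonneg_left hDq hd.le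
    linarith only [this]
  · have : j * (y + b) ≤ 1 * (y + b) := mul_le_mul_of_nonneg_right hj1 (by linarith only [hb, hc, hcy])
    linarith only [hX3, this]
  · linarith only [hX4]
  · linarith only [hp2, G.p0]
  · linarith only [hp2, G.p1]
  · -- core
    intro s hs
    obtain ⟨k1, k2⟩ := abs_le.1 hs
    have hpc : pc c s1 s = c * s := pc_mid hc (by linarith only [hs1a, k1]) (by linarith only [hs1a, k2])
    have hm := mainL (x := x) (y := y) (z := z) (c := c) (d := d) (s := s) (j := j) hx hc hd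
      (by linarith only [hc1]) hy hyc hz hj0 hj1 hs
    unfold fL
    rw [hpc, ← exp_add, mul_assoc, ← exp_add]
    refine mul_le_mul (norm_pv_A c s1 s) (exp_le_exp.2 ?_) (exp_pos _).le hA0
    linarith only [hm]
  · -- middle
    intro s hs1' hs2
    unfold fL
    refine mul_le_mul (norm_pv_A c s1 s) ?_ (by positivity) hA0
    rcases le_total 0 s with h0 | h0
    · rw [abs_of_nonneg h0] at hs1' hs2
      obtain ⟨q1, q2, q3⟩ := pc_pos (s := s) hc hs0 h0
      have q4 : pc c s1 s ≤ 1 := by linarith only [hs1, ha1, q3]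
      refine exp_mid hj0 hj1 q4 hd ?_
      exact crudeL1 hx hc hy G.yx hcy hz hz1 q1 q4 q2
        (fun hπ => pc_ge hc hs0 h0 hπ hcπ (by linarith only [hb, hs1])) hs1' hs2
    · obtain ⟨t, ht⟩ : ∃ t, s = -t := ⟨-s, by ring⟩
      subst ht
      have t0 : 0 ≤ t := by linarith only [h0]
      rw [abs_neg, abs_of_nonneg t0] at hs1' hs2
      obtain ⟨q1, q2, q3⟩ := pc_pos (s := t) hc hs0 t0
      rw [pc_neg hc hs0 t0]
      refine exp_mid hj0 hj1 (by linarith only [q1]) hd ?_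
      exact crudeL2 hx hc1 hxc hy hz q1 (by linarith only [hs1, ha1, q3]) q2 hs1' hs2
  · -- right tail
    intro s hs
    have hpc : pc c s1 s = y + b := by rw [pc_right hc hs0 (by linarith only [hs1b, hs]), hs1]
    have hpv : ‖pv c s1 s‖ = 1 := norm_pv_out (by rw [abs_of_nonneg (by linarith only [hs])]; linarith only [hs1b, hs])
    unfold fL gQ
    rw [hpc, hpv, one_mul, ← exp_add, ← exp_add, tailL G]
    apply le_of_eq
    congr 1
    ring
  · -- left tail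
    intro s hs
    have hpc : pc c s1 (-s) = -(y + b) := by
      rw [pc_left hc hs0 (by linarith only [hs1b, hs]), hs1]
    have hpv : ‖pv c s1 (-s)‖ = 1 := norm_pv_out (by
      rw [abs_neg, abs_of_nonneg (by linarith only [hs])]; linarith only [hs1b, hs])
    unfold fL gQ
    rw [hpc, hpv, one_mul, ← exp_add, ← exp_add]
    apply exp_le_exp.2
    have := tailL' G (z := z) (a := y + b) (d := d) (t := s) hz (by linarith only [hb, hc, hcy]) hd h1d hs
    have h5 : 0 ≤ j * (y + b) := mul_nonneg hj0 (by linarith only [hb, hc, hcy])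
    linarith only [this, h5]

/-! ### right side -/

end SokamP2O

end

/-! ### Lib_MP_af4de1_v3.OutLA -/

section
namespace SokamF1G
end SokamF1G
namespace SokamPG
end SokamPG
/-!
# `P2.outL`: `coreL` with fixed constants
-/

set_option autoImplicit false

namespace SokamP2O

open Real Set SokamF1G MeasureTheory SokamPG

theorem ol_e17 : exp (17 / 10) ≤ 11 / 2 := by
  have h1 : exp (17 / 10) ^ (10 : ℕ) = exp 1 ^ (17 : ℕ) := by
    rw [← exp_nat_mul, ← exp_nat_mul]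
    norm_num
  have h2 : exp 1 ^ (17 : ℕ) ≤ (27182818286 / 10000000000 : ℝ) ^ (17 : ℕ) :=
    pow_le_pow_left₀ (exp_pos _).le (by linarith only [Real.exp_one_lt_d9]) 17
  have h3 : (27182818286 / 10000000000 : ℝ) ^ (17 : ℕ) ≤ (11 / 2) ^ (10 : ℕ) := by norm_num
  have h4 : exp (17 / 10) ^ (10 : ℕ) ≤ (11 / 2 : ℝ) ^ (10 : ℕ) := by rw [h1]; exact h2.trans h3
  exact le_of_pow_le_pow_left₀ (by norm_num) (by norm_num) h4

theorem ol_e61 : exp (61 / 100) ≤ 18405 / 10000 := by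
  have h := Real.exp_bound' (x := 61 / 100) (by norm_num) (by norm_num) (n := 7) (by norm_num)
  norm_num [Finset.sum_range_succ, Nat.factorial] at h
  linarith only [h]

theorem ol_e35 : exp (-(2 * (7 / 20) * 25) : ℝ) ≤ 1 / 38000000 := by
  have h1 : exp (2 * (7 / 20) * 25 : ℝ) ^ (2 : ℕ) = exp 1 ^ (35 : ℕ) := by
    rw [← exp_nat_mul, ← exp_nat_mul]
    norm_num
  have h2 : (2718281828 / 1000000000 : ℝ) ^ (35 : ℕ) ≤ exp 1 ^ (35 : ℕ) :=
    pow_le_pow_left₀ (by norm_num) (by linarith only [Real.exp_one_gt_d9]) 35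
  have h3 : (38000000 : ℝ) ^ (2 : ℕ) ≤ (2718281828 / 1000000000 : ℝ) ^ (35 : ℕ) := by norm_num
  have h4 : (38000000 : ℝ) ^ (2 : ℕ) ≤ exp (2 * (7 / 20) * 25 : ℝ) ^ (2 : ℕ) := by
    rw [h1]; exact h3.trans h2
  have h5 : (38000000 : ℝ) ≤ exp (2 * (7 / 20) * 25 : ℝ) :=
    le_of_pow_le_pow_left₀ (by norm_num) (exp_pos _).le h4
  rw [exp_neg, one_div]
  exact inv_anti₀ (by norm_num) h5

/-- `x ≥ .9284 W` -/
theorem GeL.Wx2 {x y ρ η ψ W D : ℝ} (G : GeL x y ρ η ψ W D) : W ≤ 10771 / 10000 * x := by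
  have h1 := G.W2
  have h2 := G.yx
  have h3 := G.y0
  have h4 := G.x0
  refine abs_le_of_sq_le_sq' ?_ (by linarith only [h4]) |>.2
  nlinarith only [h1, h2, h3]

/-- `x ≥ .5044 ρ` -/
theorem GeL.xrho {x y ρ η ψ W D : ℝ} (G : GeL x y ρ η ψ W D) : ρ ≤ 19825 / 10000 * x := by
  have h1 := G.Wx2
  have h2 : exp y ≤ 18405 / 10000 := (exp_le_exp.2 G.y1).trans ol_e61
  have h3 := G.rho
  have h4 : W * exp y ≤ 10771 / 10000 * x * (18405 / 10000) :=
    mul_le_mul h1 h2 (exp_pos _).le (by linarith only [G.x0])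
  have := G.x0
  rw [h3]
  linarith only [h4, this]

/-- `coreL` with `s1 = 19/4`, `c = lam y`, `b = tau y`, `k0 = 25`, `m = 11/1000`, `X4 = -8` -/
theorem coreL2 {x y ρ η ψ W D : ℝ} (G : GeL x y ρ η ψ W D) {d lam tau z j : ℝ}
    (hd : 0 < d) (hy : 0 < y) (hlt : 19 / 4 * lam = 1 + tau) (hl1 : 7 / 20 - 1 / 60 ≤ lam)
    (hl2 : lam ≤ 47 / 100) (hη : lam * η ≤ 99 / 100) (hb : tau * y ≤ 1 / 2)
    (hb2 : (1 + tau) * y ≤ 1) (h2b : (2 + tau) * y ≤ 17 / 10) (hx : 8 / 5 ≤ x)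
    (hρ : 16 / 5 ≤ ρ) (hrd : 499 / 10 ≤ ρ * d)
    (hz : 0 ≤ z) (hz1 : z ≤ π) (hj0 : 0 ≤ j) (hj1 : j ≤ 1) {M kW X3 : ℝ} (hM : 0 ≤ M)
    (hMM : (1 + (lam * y) ^ (2 : ℕ)) * D ≤
      M ^ (2 : ℕ) * (2 * (11 / 24 * (1 - lam * y) * x +
        (1 - 351 / 625 * (x * (lam * y))) * (lam * y))))
    (hβ : 6 / 5 ≤ tau * (y * d))
    (hkW : 1001 / 1000 * √(12 / 11 * (D / W)) ≤ kW)
    (hX3 : (y + tau * y) / 2 - d * (tau * y * (2 * π - z - η) - ρ * (exp (tau * y) - 1 - tau * y) -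
      (ρ - x * (1 + y))) + 6 * (tau * y * d) ^ (2 : ℕ) / (11 * (ρ * exp (tau * y) * d)) ≤ X3)
    (hf : Integrable (fL (lam * y) (19 / 4) x y z d j)) :
    ∫ s, fL (lam * y) (19 / 4) x y z d j s ≤
      (M * exp (61 / 10000 - (1 - lam) * (y * d) * z) + 11 / 1000 +
        kW * exp X3 + 5 / 4 * kW * exp (-8)) * sg d D := by
  have hp := Real.pi_gt_d4
  have hp2 := Real.pi_lt_d4
  have hW0 := G.W0
  have hD0 := G.D0
  have hy1 := G.y1
  have hyx := G.yx
  have hl0 : 0 < lam := by linarith only [hl1]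
  have ht0 : 0 < tau := by
    by_contra h
    push_neg at h
    have : tau * (y * d) ≤ 0 := mul_nonpos_of_nonpos_of_nonneg h (by positivity)
    linarith only [hβ, this]
  have ht1 : tau ≤ 12325 / 10000 := by linarith only [hlt, hl2]
  have ht2 : 7 / 12 - 1 / 12 ≤ tau := by linarith only [hlt, hl1]
  have hWy := G.Wy
  have hxW := G.xW
  have hxy : lam * (x * y) ≤ 99 / 100 := by
    have h1 : x * y ≤ W * y := mul_le_mul_of_nonneg_right hxW hy.le
    have h2 : lam * (x * y) ≤ lam * η := mul_le_mul_of_nonneg_left (by linarith only [hWy, h1]) hl0.le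
    linarith only [hη, h2]
  have hkxd : 25 ≤ x * d := by
    have h1 := mul_le_mul_of_nonneg_right G.xrho hd.le
    linarith only [hrd, h1]
  have hc0 : 0 < lam * y := by positivity
  have hly : lam * y ≤ y := by
    have := mul_le_mul_of_nonneg_right (show lam ≤ 1 by linarith only [hl2]) hy.le
    linarith only [this]
  have hc1 : lam * y ≤ 2763 / 10000 := by
    have : 19 / 4 * (lam * y) = (1 + tau) * y := by rw [← hlt]; ring
    linarith only [hb2, this]
  have hyd : 0 < y * d := by positivity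
  have hbd : tau * y * d = tau * (y * d) := by ring
  have hexpb : 1 ≤ exp (tau * y) := one_le_exp (by positivity)
  have hρ0 := G.r0
  have hμ : ρ * d ≤ ρ * exp (tau * y) * d := by
    have h1 : ρ * 1 ≤ ρ * exp (tau * y) := mul_le_mul_of_nonneg_left hexpb hρ0.le
    have := mul_le_mul_of_nonneg_right h1 hd.le
    linarith only [this]
  have hDx : D ≤ 29 / 20 * x := by
    refine abs_le_of_sq_le_sq' ?_ (by linarith only [hyx, hc0, hly]) |>.2
    rw [G.D2]
    have h1 : (1 + y) ^ (2 : ℕ) ≤ (161 / 100) ^ (2 : ℕ) := pow_le_pow_left₀ (by linarith only [hc0, hly]) (by linarith only [hy1]) 2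
    have h2 : (8 / 5) ^ (2 : ℕ) ≤ x ^ (2 : ℕ) := pow_le_pow_left₀ (by norm_num) hx 2
    linarith only [h1, h2]
  have hcpi : y ≤ lam * y * π := by
    have h1 : 1 ≤ lam * π := by
      have h2 : (1 / 3 : ℝ) * 3 ≤ lam * π :=
        mul_le_mul (by linarith only [hl1]) (by linarith only [hp]) (by norm_num) hl0.le
      linarith only [h2]
    have := mul_le_mul_of_nonneg_left h1 hy.le
    linarith only [this]
  have hyc4 : y ≤ 11 / 4 * (x * (lam * y)) := by
    have h1 : (8 / 5 : ℝ) * (1 / 3) ≤ x * lam :=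
      mul_le_mul hx (by linarith only [hl1]) (by norm_num) (by linarith only [hD0, hDx])
    have := mul_le_mul_of_nonneg_left h1 hy.le
    linarith only [hc0, hly, this]
  have main := coreL G (d := d) (b := tau * y) (c := lam * y) (s1 := 19 / 4) (z := z) (j := j)
    (q := 29 / 20) (k0 := 25) (m := 11 / 1000) (M := M) (kW := kW) (X3 := X3) (X4 := -8)
    hd (by positivity) hc0 (by linear_combination y * hlt) (by norm_num) le_rfl
    (by linarith only [hb2]) hc1 (by linarith only [hxy]) hly hcpi hyc4 hz hz1 hj0 hj1 hM hMM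
    (by norm_num) (by norm_num) hkxd (by norm_num) hDx ?_ (by rw [hbd]; exact hβ)
    (by linarith only [hrd, hμ]) ?_ hkW hX3 ?_ ?_ ?_ hf
  · -- conclusion
    refine main.trans (mul_le_mul_of_nonneg_right ?_ (sg_pos hd hD0).le)
    have h1 : 6 / 11 * (lam * y / (x * d)) - (y - lam * y) * z * d ≤
        61 / 10000 - (1 - lam) * (y * d) * z := by
      have h2 : lam * y / (x * d) ≤ 2763 / 10000 / 25 := by
        rw [div_le_div_iff₀ (by linarith only [hkxd]) (by norm_num)]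
        linarith only [hkxd, hc1]
      have h3 : (y - lam * y) * z * d = (1 - lam) * (y * d) * z := by ring
      rw [h3]
      linarith only [h2]
    have h2 := mul_le_mul_of_nonneg_left (exp_le_exp.2 h1) hM
    linarith only [h2]
  · -- middle
    have h1 := ol_e35
    have h2 : (27 : ℝ) ^ (2 : ℕ) * (29 / 20 * 25) * exp (-(2 * (7 / 20) * 25)) ≤
        (27 : ℝ) ^ (2 : ℕ) * (29 / 20 * 25) * (1 / 38000000) :=
      mul_le_mul_of_nonneg_left h1 (by norm_num)
    refine h2.trans ?_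
    linarith only [hp]
  · -- `hβμ`
    have h1 : tau * y * d ≤ 173 / 1000 * (ρ * exp (tau * y) * d) := by
      have h2 : tau * y * d ≤ 1 / 2 * d := mul_le_mul_of_nonneg_right hb hd.le
      have h3 : 16 / 5 * d ≤ ρ * d := mul_le_mul_of_nonneg_right hρ hd.le
      linarith only [hβ, hμ, h2, h3]
    have h2 := pow_le_pow_left₀ (by positivity) h1 2
    refine h2.trans ?_
    rw [mul_pow]
    exact mul_le_mul_of_nonneg_right (by norm_num) (sq_nonneg _)
  · -- `h1d`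
    have h1 : ((y + tau * y) + y) * d = 2 * (y * d) + tau * (y * d) := by ring
    rw [h1]
    linarith only [hβ, hyd]
  · -- `hμ2'`
    have h1 : W = ρ * exp (-y) := by
      rw [G.rho, mul_assoc, ← exp_add]; simp
    have h2 : W * exp (-(y + tau * y)) * d = ρ * d * exp (-((2 + tau) * y)) := by
      rw [h1, mul_assoc ρ, ← exp_add]
      rw [show -y + -(y + tau * y) = -((2 + tau) * y) by ring]
      ring
    rw [h2]
    have h3 : 2 / 11 ≤ exp (-((2 + tau) * y)) := by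
      have h4 : exp (-(17 / 10)) ≤ exp (-((2 + tau) * y)) := exp_le_exp.2 (by linarith only [h2b])
      have h5 : 2 / 11 ≤ exp (-(17 / 10) : ℝ) := by
        rw [exp_neg, show (2 / 11 : ℝ) = (11 / 2)⁻¹ by norm_num]
        exact inv_anti₀ (exp_pos _) ol_e17
      linarith only [h4, h5]
    have h6 : 499 / 10 * (2 / 11) ≤ ρ * d * exp (-((2 + tau) * y)) :=
      mul_le_mul hrd h3 (by norm_num) (by positivity)
    linarith only [h6]
  · -- `hX4`
    have ha0 : 0 ≤ y + tau * y := by positivity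
    have h1 : exp (-(y + tau * y)) ≤ 1 - (y + tau * y) + (y + tau * y) ^ (2 : ℕ) / 2 := en_le2 ha0
    have h2 : exp (-(y + tau * y)) ≤ 1 := exp_le_one_iff.2 (by linarith only [ha0])
    have h3 : W ≤ x + y / 5 := by
      have h4 := G.Wx
      have h5 : y * (y / x) ≤ y * (2 / 5) := mul_le_mul_of_nonneg_left G.Y1 hy.le
      linarith only [h4, h5]
    have h4 : exp (-(y + tau * y)) * W ≤ x * (1 - (y + tau * y) + (y + tau * y) ^ (2 : ℕ) / 2) + y / 5 := by
      have h5 : exp (-(y + tau * y)) * W ≤ exp (-(y + tau * y)) * (x + y / 5) :=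
        mul_le_mul_of_nonneg_left h3 (exp_pos _).le
      have h6 : exp (-(y + tau * y)) * x ≤ (1 - (y + tau * y) + (y + tau * y) ^ (2 : ℕ) / 2) * x :=
        mul_le_mul_of_nonneg_right h1 G.x0.le
      have h7 : exp (-(y + tau * y)) * (y / 5) ≤ 1 * (y / 5) :=
        mul_le_mul_of_nonneg_right h2 (by positivity)
      linarith only [h5, h6, h7]
    have h5 : x * (y + tau * y) ^ (2 : ℕ) ≤ 19 / 4 * (99 / 100) * (y + tau * y) := by
      have h6 : x * (y + tau * y) ^ (2 : ℕ) = 19 / 4 * (lam * (x * y)) * (y + tau * y) := by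
        have : y + tau * y = 19 / 4 * lam * y := by rw [hlt]; ring
        rw [this]; ring
      rw [h6]
      have := mul_le_mul_of_nonneg_right hxy ha0
      linarith only [this]
    have h6 : 23 / 10 * (tau * y) + 6 * y ≤ ((y + tau * y) + y) * (19 / 4) +
        x * (1 - (y + tau * y)) - exp (-(y + tau * y)) * W := by
      linarith only [hc0, hly, ha0, h4, h5]
    have h7 := mul_le_mul_of_nonneg_left h6 hd.le
    have h8 : d * (23 / 10 * (tau * y) + 6 * y) = 23 / 10 * (tau * (y * d)) + 6 * (y * d) := by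
      ring
    have h9 : 97 / 100 ≤ y * d := by
      by_contra h
      push_neg at h
      have : tau * (y * d) ≤ 12325 / 10000 * (97 / 100) :=
        mul_le_mul ht1 h.le hyd.le (by norm_num)
      linarith only [hβ, this]
    linarith only [hb2, hβ, h7, h9]

end SokamP2O

end

/-! ### Lib_MP_af4de1_v3.OutLN -/

section
namespace SokamF1G
end SokamF1G
/-!
# `P2.outL`: numbers of the case `Γ < 10`
-/

set_option autoImplicit false

namespace SokamP2O

open Real Set SokamF1G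

theorem sq_le_le {a b : ℝ} (h : a ^ (2 : ℕ) ≤ b ^ (2 : ℕ)) (hb : 0 ≤ b) : a ≤ b :=
  (abs_le_of_sq_le_sq' h hb).2

theorem X3_le {x y ρ η ψ W D : ℝ} (G : GeL x y ρ η ψ W D) (hη : η ≤ 5 / 2) {tau d Z : ℝ}
    (hd : 0 < d) (ht : 0 ≤ tau) (hb : tau * y ≤ 1) :
    (y + tau * y) / 2 - d * (tau * y * Z - ρ * (exp (tau * y) - 1 - tau * y) -
      (ρ - x * (1 + y))) + 6 * (tau * y * d) ^ (2 : ℕ) / (11 * (ρ * exp (tau * y) * d)) ≤
    (1 + tau) * y / 2 - y * d * (tau * Z -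
      tau ^ (2 : ℕ) / 2 * (η * (1 + y / 2)) * (1 + tau * y / 3 + 2 * (tau * y) ^ (2 : ℕ) / 19) - η / 2 -
      y / x / 2 * (y / 2 + (y / x) ^ (2 : ℕ) / 3) - 6 / 11 * tau ^ (2 : ℕ) * (y / ρ)) := by
  have hρ := G.r0
  have hy := G.y0
  have hb0 : 0 ≤ tau * y := by positivity
  have h1 : exp (tau * y) - 1 - tau * y ≤
      (tau * y) ^ (2 : ℕ) / 2 * (1 + tau * y / 3 + 2 * (tau * y) ^ (2 : ℕ) / 19) := by
    have := e_le3 hb0 hb
    linarith only [this]
  have hF1 := G.F1 hη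
  have h2 : ρ * (exp (tau * y) - 1 - tau * y) ≤
      y * (tau ^ (2 : ℕ) / 2 * (η * (1 + y / 2)) * (1 + tau * y / 3 + 2 * (tau * y) ^ (2 : ℕ) / 19)) := by
    have h3 := mul_le_mul_of_nonneg_left h1 hρ.le
    have h4 : 0 ≤ y * (tau ^ (2 : ℕ) / 2 * (1 + tau * y / 3 + 2 * (tau * y) ^ (2 : ℕ) / 19)) := by positivity
    have h5 : ρ * y ≤ η * (1 + y / 2) := by linarith only [hF1]
    have h6 := mul_le_mul_of_nonneg_left h5 h4
    calc ρ * (exp (tau * y) - 1 - tau * y)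
        ≤ ρ * ((tau * y) ^ (2 : ℕ) / 2 * (1 + tau * y / 3 + 2 * (tau * y) ^ (2 : ℕ) / 19)) := h3
      _ = y * (tau ^ (2 : ℕ) / 2 * (1 + tau * y / 3 + 2 * (tau * y) ^ (2 : ℕ) / 19)) * (ρ * y) := by ring
      _ ≤ y * (tau ^ (2 : ℕ) / 2 * (1 + tau * y / 3 + 2 * (tau * y) ^ (2 : ℕ) / 19)) *
          (η * (1 + y / 2)) := h6
      _ = _ := by ring
  have h3 := G.F2
  have h4 : 6 * (tau * y * d) ^ (2 : ℕ) / (11 * (ρ * exp (tau * y) * d)) ≤
      y * d * (6 / 11 * tau ^ (2 : ℕ) * (y / ρ)) := by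
    have h5 : 1 ≤ exp (tau * y) := one_le_exp hb0
    have e1 : y * d * (6 / 11 * tau ^ (2 : ℕ) * (y / ρ)) = 6 * (tau * y * d) ^ (2 : ℕ) / (11 * (ρ * 1 * d)) := by
      field_simp
    rw [e1]
    apply div_le_div_of_nonneg_left (by positivity) (by positivity)
    have := mul_le_mul_of_nonneg_left h5 hρ.le
    nlinarith only [hd, this]
  have h5 := mul_le_mul_of_nonneg_left h2 hd.le
  have h6 := mul_le_mul_of_nonneg_left h3 hd.le
  have e2 : (y + tau * y) / 2 - d * (tau * y * Z - ρ * (exp (tau * y) - 1 - tau * y) -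
      (ρ - x * (1 + y))) = (1 + tau) * y / 2 - y * d * (tau * Z) +
      d * (ρ * (exp (tau * y) - 1 - tau * y)) + d * (ρ - x * (1 + y)) := by ring
  rw [e2]
  linarith only [h4, h5, h6]

theorem olA_pw {y a : ℝ} (h0 : 0 ≤ y) (h : y ≤ a) :
    y ^ (2 : ℕ) ≤ a * y ∧ y ^ (3 : ℕ) ≤ a ^ (2 : ℕ) * y ∧ y ^ (4 : ℕ) ≤ a ^ (3 : ℕ) * y := by
  have ha : 0 ≤ a := h0.trans h
  refine ⟨?_, ?_, ?_⟩
  · nlinarith only [h0, h]
  · have := pow_le_pow_left₀ h0 h 2
    calc y ^ (3 : ℕ) = y ^ (2 : ℕ) * y := by ring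
      _ ≤ a ^ (2 : ℕ) * y := mul_le_mul_of_nonneg_right this h0
  · have := pow_le_pow_left₀ h0 h 3
    calc y ^ (4 : ℕ) = y ^ (3 : ℕ) * y := by ring
      _ ≤ a ^ (3 : ℕ) * y := mul_le_mul_of_nonneg_right this h0

theorem olA_B1 {y : ℝ} (hy0 : 0 ≤ y) (h : y ≤ 329 / 1000) :
    0 ≤ 483 / 100 * ((117 / 100) ^ (2 : ℕ) * (11 / 12 * (1 - 47 / 100 * y) -
          702 / 625 * (47 / 100 * y) ^ (2 : ℕ)) - (1 + (47 / 100 * y) ^ (2 : ℕ))) +
          (117 / 100) ^ (2 : ℕ) * (2 * (47 / 100 * y)) -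
          (1 + (47 / 100 * y) ^ (2 : ℕ)) * ((1 + y) ^ (2 : ℕ) / (966 / 100)) := by
  obtain ⟨h2, h3, h4⟩ := olA_pw hy0 h
  linarith

theorem olA_A1 {y : ℝ} (hy0 : 0 ≤ y) (h : y ≤ 329 / 1000) :
    0 ≤ (117 / 100) ^ (2 : ℕ) * (11 / 12 * (1 - 47 / 100 * y) -
          702 / 625 * (47 / 100 * y) ^ (2 : ℕ)) - (1 + (47 / 100 * y) ^ (2 : ℕ)) := by
  obtain ⟨h2, h3, h4⟩ := olA_pw hy0 h
  linarith only [h, h2]

theorem olA_A2 {y : ℝ} (hy0 : 0 ≤ y) (h : y ≤ 3576 / 10000) :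
    -(28 / 1000) ≤ (117 / 100) ^ (2 : ℕ) * (11 / 12 * (1 - 47 / 100 * y) -
          702 / 625 * (47 / 100 * y) ^ (2 : ℕ)) - (1 + (47 / 100 * y) ^ (2 : ℕ)) := by
  obtain ⟨h2, h3, h4⟩ := olA_pw hy0 h
  linarith only [h, h2]

theorem olA_B2 {y : ℝ} (hy0 : 329 / 1000 ≤ y) (h : y ≤ 3576 / 10000) :
    23 / 100 ≤ (117 / 100) ^ (2 : ℕ) * (2 * (47 / 100 * y)) -
          (1 + (47 / 100 * y) ^ (2 : ℕ)) * ((1 + y) ^ (2 : ℕ) / (966 / 100)) := by
  obtain ⟨h2, h3, h4⟩ := olA_pw (by linarith only [hy0]) h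
  linarith only [hy0, h2, h3, h4]

theorem olA_P {y : ℝ} (hy0 : 0 ≤ y) (h : y ≤ 3576 / 10000) :
    (1 + y / 2) * (1 + 493 / 400 * y / 3 + 2 * (493 / 400 * y) ^ (2 : ℕ) / 19) ≤
          1 + 9109 / 10000 * y + 394 / 1000 * y ^ (2 : ℕ) := by
  have h3 : y ^ (3 : ℕ) ≤ 3576 / 10000 * y ^ (2 : ℕ) := by
    have := mul_le_mul_of_nonneg_right h (sq_nonneg y)
    linarith only [this]
  linarith only [hy0, h3, sq_nonneg y]

theorem olA_f {y : ℝ} (hy0 : 22 / 100 ≤ y) (h : y ≤ 3576 / 10000) :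
    (1 + 493 / 400) * y / 2 - y * (522 / 100) * (11708 / 10000 - 14564 / 10000 * y - 63 / 100 * y ^ (2 : ℕ)) ≤
      -(3 / 5) := by
  have k1 : 0 ≤ (y - 22 / 100) * (3576 / 10000 - y) := mul_nonneg (by linarith only [hy0]) (by linarith only [h])
  have k2 : 0 ≤ (y - 22 / 100) * (3576 / 10000 - y) * y := mul_nonneg k1 (by linarith only [hy0])
  linarith only [h, k1, k2]

/-- the facts of the case `Γ < 10` -/
theorem outL_facA {x y ρ η ψ W D d : ℝ} (G : GeL x y ρ η ψ W D) (hη : η = 67 / 100 * π)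
    (hρ : 694 / 100 ≤ ρ) (hrd : 499 / 10 ≤ ρ * d) (hd : 547 / 1000 * (ρ + 1 / ρ) ≤ d) :
    (21048 / 10000 ≤ η ∧ η ≤ 21049 / 10000) ∧ 0 < d ∧ y ≤ 3576 / 10000 ∧ 485 / 100 ≤ W ∧
    483 / 100 ≤ x ∧ y / x ≤ 741 / 10000 ∧ 115 / 100 ≤ y * d ∧ 522 / 100 ≤ d := by
  have hp := Real.pi_gt_d4
  have hp2 := Real.pi_lt_d4
  have hη1 : 21048 / 10000 ≤ η := by linarith only [hη, hp]
  have hη2 : η ≤ 21049 / 10000 := by linarith only [hη, hp2]
  have hρ0 := G.r0
  have hy0 := G.y0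
  have hx0 := G.x0
  have hW0 := G.W0
  have hD0 := G.D0
  have hd0 : 0 < d := by
    have : 0 < 547 / 1000 * (ρ + 1 / ρ) := by positivity
    linarith only [hd, this]
  have hF1 := G.F1 (by linarith only [hη2])
  have hy1 : y ≤ 3576 / 10000 := by
    by_contra h
    have h' := not_le.1 h
    have : 3576 / 10000 * (5887 / 1000) ≤ y * (ρ - η / 2) :=
      mul_le_mul h'.le (by linarith only [hρ, hη2]) (by norm_num) hy0
    linarith only [hη2, hF1, this]
  have hW : 485 / 100 ≤ W := by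
    have h1 := e_le3 hy0 (by linarith only [hy1])
    have h2 : exp y ≤ 14302 / 10000 := by
      have h3 : y ^ (2 : ℕ) ≤ (3576 / 10000) ^ (2 : ℕ) := pow_le_pow_left₀ hy0 hy1 2
      have h4 : y ^ (3 : ℕ) ≤ (3576 / 10000) ^ (3 : ℕ) := pow_le_pow_left₀ hy0 hy1 3
      have h5 : y ^ (4 : ℕ) ≤ (3576 / 10000) ^ (4 : ℕ) := pow_le_pow_left₀ hy0 hy1 4
      linarith only [hy1, h1, h3, h4, h5]
    have h3 := G.rho
    have h4 : W * exp y ≤ W * (14302 / 10000) := mul_le_mul_of_nonneg_left h2 hW0.le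
    linarith only [hρ, h3, h4]
  have hW2 := G.W2
  have hx : 483 / 100 ≤ x := by
    have h0 : y ^ (2 : ℕ) ≤ (3576 / 10000) ^ (2 : ℕ) := pow_le_pow_left₀ hy0 hy1 2
    have h00 : (485 / 100 : ℝ) ^ (2 : ℕ) ≤ W ^ (2 : ℕ) := pow_le_pow_left₀ (by norm_num) hW 2
    have h1 : (483 / 100 : ℝ) ^ (2 : ℕ) ≤ x ^ (2 : ℕ) := by linarith only [hW2, h0, h00]
    exact sq_le_le h1 hx0.le
  have hψ := G.psi_le
  have hY0 := G.Y0
  have hY : y / x ≤ 741 / 10000 := by
    rw [div_le_iff₀ hx0]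
    linarith only [hy1, hx]
  have hix : 1 / x ≤ 1 / (483 / 100) := one_div_le_one_div_of_le (by norm_num) hx
  have hyρ : η ≤ y * (ρ + 1 / ρ) := by
    have h1 := G.F3
    have h2 : y * (x + η / 2 + 11 / 10 * (1 / x)) ≤ y * (ρ + 1 / ρ) := by
      refine mul_le_mul_of_nonneg_left ?_ hy0
      have h3 := G.eta
      have h4 : 0 < 1 / ρ := by positivity
      linarith only [hη1, hψ, hY, hix, h3, h4]
    linarith only [h1, h2]
  have hyd : 115 / 100 ≤ y * d := by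
    have h1 := mul_le_mul_of_nonneg_left hd hy0
    linarith only [hη1, hyρ, h1]
  have hd5 : 522 / 100 ≤ d := by
    have h1 : 547 / 1000 * ρ ≤ d := by
      have h4 : 0 < 1 / ρ := by positivity
      linarith only [hd, h4]
    have h2 := mul_le_mul_of_nonneg_right h1 hd0.le
    have h3 : (522 / 100 : ℝ) ^ (2 : ℕ) ≤ d ^ (2 : ℕ) := by
      rw [sq d]; linarith only [hrd, h2]
    exact sq_le_le h3 hd0.le
  exact ⟨⟨hη1, hη2⟩, hd0, hy1, hW, hx, hY, hyd, hd5⟩

theorem outL_MA {x y ρ η ψ W D : ℝ} (G : GeL x y ρ η ψ W D) (hη2 : η ≤ 21049 / 10000)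
    (hy1 : y ≤ 3576 / 10000) (hx : 483 / 100 ≤ x) :
    (1 + (47 / 100 * y) ^ (2 : ℕ)) * D ≤ (117 / 100) ^ (2 : ℕ) * (2 * (11 / 24 * (1 - 47 / 100 * y) * x +
      (1 - 351 / 625 * (x * (47 / 100 * y))) * (47 / 100 * y))) := by
  have hy0 := G.y0
  have hx0 := G.x0
  have hDx : D ≤ x + (1 + y) ^ (2 : ℕ) / (966 / 100) := by
    have h1 : 0 ≤ (1 + y) ^ (2 : ℕ) / (966 / 100) := by positivity
    refine sq_le_le ?_ (by linarith only [hx0, h1])
    rw [G.D2]
    have h2 : 0 ≤ (x - 483 / 100) * (1 + y) ^ (2 : ℕ) := mul_nonneg (by linarith only [hx]) (sq_nonneg _)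
    have h3 := sq_nonneg ((1 + y) ^ (2 : ℕ))
    linarith only [h2, h3]
  have h1 : (1 + (47 / 100 * y) ^ (2 : ℕ)) * D ≤
      (1 + (47 / 100 * y) ^ (2 : ℕ)) * (x + (1 + y) ^ (2 : ℕ) / (966 / 100)) :=
    mul_le_mul_of_nonneg_left hDx (by positivity)
  have hxy : x * y ≤ 21049 / 10000 := by
    have := mul_le_mul_of_nonneg_right G.xW hy0
    linarith only [hη2, this, G.Wy]
  refine h1.trans ?_
  rcases le_total y (329 / 1000) with h | h
  · have hA := olA_A1 hy0 h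
    have hB := olA_B1 hy0 h
    have hC := mul_nonneg (sub_nonneg.2 hx) hA
    linarith only [hB, hC]
  · have hA := olA_A2 hy0 hy1
    have hx6 : x ≤ 64 / 10 := by
      by_contra h6
      have h6' := not_le.1 h6
      have : 64 / 10 * (329 / 1000) ≤ x * y := mul_le_mul h6'.le h (by norm_num) hx0.le
      linarith only [hxy, this]
    have hB := olA_B2 h hy1
    have hC := mul_le_mul_of_nonneg_left hA hx0.le
    linarith only [hx6, hB, hC]

theorem outL_kA {x y ρ η ψ W D : ℝ} (G : GeL x y ρ η ψ W D)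
    (hy1 : y ≤ 3576 / 10000) (hW : 485 / 100 ≤ W) :
    1001 / 1000 * √(12 / 11 * (D / W)) ≤ 107 / 100 := by
  have hW0 := G.W0
  have h1 : D ≤ 10365 / 10000 * W := by
    refine sq_le_le ?_ (by linarith only [hW0])
    rw [G.D2]
    have h00 : (485 / 100 : ℝ) ^ (2 : ℕ) ≤ W ^ (2 : ℕ) := pow_le_pow_left₀ (by norm_num) hW 2
    have h0 := G.W2
    linarith only [hy1, h00, h0]
  have h2 : D / W ≤ 10365 / 10000 := by
    rw [div_le_iff₀ hW0]; exact h1
  have h3 : √(12 / 11 * (D / W)) ≤ 1068 / 1000 := by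
    rw [Real.sqrt_le_left (by norm_num)]
    linarith only [h2]
  linarith only [h3]

theorem outL_XA {x y ρ η ψ W D d : ℝ} (G : GeL x y ρ η ψ W D) (hη2 : η ≤ 21049 / 10000)
    (hρ : 694 / 100 ≤ ρ) (hd0 : 0 < d) (hy1 : y ≤ 3576 / 10000) (hY : y / x ≤ 741 / 10000)
    (hyd : 115 / 100 ≤ y * d) (hd5 : 522 / 100 ≤ d) :
    (y + 493 / 400 * y) / 2 - d * ((493 / 400 * y) * π -
      ρ * (exp (493 / 400 * y) - 1 - 493 / 400 * y) - (ρ - x * (1 + y))) +
      6 * (493 / 400 * y * d) ^ (2 : ℕ) / (11 * (ρ * exp (493 / 400 * y) * d)) ≤ -(3 / 5) := by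
  have hp := Real.pi_gt_d4
  have hy0 := G.y0
  have hY0 := G.Y0
  refine (X3_le G (by linarith only [hη2]) hd0 (by norm_num) (by linarith only [hy1])).trans ?_
  have hs1 : y / x / 2 * (y / 2 + (y / x) ^ (2 : ℕ) / 3) ≤ 67 / 10000 := by
    have h1 : (y / x) ^ (2 : ℕ) ≤ (741 / 10000) ^ (2 : ℕ) := pow_le_pow_left₀ hY0 hY 2
    have h2 : y / x / 2 * (y / 2 + (y / x) ^ (2 : ℕ) / 3) ≤
        741 / 10000 / 2 * (3576 / 10000 / 2 + (741 / 10000) ^ (2 : ℕ) / 3) :=
      mul_le_mul (by linarith only [hY]) (by linarith only [hy1, h1]) (by positivity) (by norm_num)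
    refine h2.trans (by norm_num)
  have hs2 : 6 / 11 * (493 / 400) ^ (2 : ℕ) * (y / ρ) ≤ 43 / 1000 := by
    have h1 : y / ρ ≤ 3576 / 10000 / (694 / 100) := div_le_div₀ (by norm_num) hy1 (by norm_num) hρ
    have := mul_le_mul_of_nonneg_left h1 (by norm_num : (0 : ℝ) ≤ 6 / 11 * (493 / 400) ^ (2 : ℕ))
    refine this.trans (by norm_num)
  have hs3 : (493 / 400) ^ (2 : ℕ) / 2 * (η * (1 + y / 2)) *
      (1 + 493 / 400 * y / 3 + 2 * (493 / 400 * y) ^ (2 : ℕ) / 19) ≤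
      15988 / 10000 * (1 + 9109 / 10000 * y + 394 / 1000 * y ^ (2 : ℕ)) := by
    have h1 : (493 / 400) ^ (2 : ℕ) / 2 * η ≤ 15988 / 10000 := by linarith only [hη2]
    have h2 := olA_P hy0 hy1
    calc (493 / 400) ^ (2 : ℕ) / 2 * (η * (1 + y / 2)) *
          (1 + 493 / 400 * y / 3 + 2 * (493 / 400 * y) ^ (2 : ℕ) / 19)
        = ((493 / 400) ^ (2 : ℕ) / 2 * η) * ((1 + y / 2) *
          (1 + 493 / 400 * y / 3 + 2 * (493 / 400 * y) ^ (2 : ℕ) / 19)) := by ring
      _ ≤ _ := mul_le_mul h1 h2 (by positivity) (by norm_num)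
  have hβ : 11708 / 10000 - 14564 / 10000 * y - 63 / 100 * y ^ (2 : ℕ) ≤ 493 / 400 * π -
      (493 / 400) ^ (2 : ℕ) / 2 * (η * (1 + y / 2)) *
        (1 + 493 / 400 * y / 3 + 2 * (493 / 400 * y) ^ (2 : ℕ) / 19) - η / 2 -
      y / x / 2 * (y / 2 + (y / x) ^ (2 : ℕ) / 3) - 6 / 11 * (493 / 400) ^ (2 : ℕ) * (y / ρ) := by
    linarith only [hη2, hp, hy0, hs1, hs2, hs3, sq_nonneg y]
  have hyd0 : 0 ≤ y * d := by linarith only [hyd]
  have h1 := mul_le_mul_of_nonneg_left hβ hyd0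
  have hy2 := (olA_pw hy0 hy1).1
  have hβ0 : 56 / 100 ≤ 11708 / 10000 - 14564 / 10000 * y - 63 / 100 * y ^ (2 : ℕ) := by linarith only [hy1, hy2]
  rcases le_total y (22 / 100) with h | h
  · have h2 : 81 / 100 ≤ 11708 / 10000 - 14564 / 10000 * y - 63 / 100 * y ^ (2 : ℕ) := by
      linarith only [h, (olA_pw hy0 h).1]
    have h3 : 115 / 100 * (81 / 100) ≤
        y * d * (11708 / 10000 - 14564 / 10000 * y - 63 / 100 * y ^ (2 : ℕ)) :=
      mul_le_mul hyd h2 (by norm_num) hyd0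
    linarith only [h1, h, h3]
  · have h2 : y * (522 / 100) ≤ y * d := mul_le_mul_of_nonneg_left hd5 hy0
    have h3 : y * (522 / 100) * (11708 / 10000 - 14564 / 10000 * y - 63 / 100 * y ^ (2 : ℕ)) ≤
        y * d * (11708 / 10000 - 14564 / 10000 * y - 63 / 100 * y ^ (2 : ℕ)) :=
      mul_le_mul_of_nonneg_right h2 (by linarith only [hβ0])
    have h4 := olA_f h hy1
    linarith only [h1, h3, h4]

theorem outL_numA {x y ρ η ψ W D d : ℝ} (G : GeL x y ρ η ψ W D) (hη : η = 67 / 100 * π)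
    (hρ : 694 / 100 ≤ ρ) (hrd : 499 / 10 ≤ ρ * d) (hd : 547 / 1000 * (ρ + 1 / ρ) ≤ d) :
    8 / 5 ≤ x ∧ y ≤ 3576 / 10000 ∧ 115 / 100 ≤ y * d ∧
    (1 + (47 / 100 * y) ^ (2 : ℕ)) * D ≤ (117 / 100) ^ (2 : ℕ) * (2 * (11 / 24 * (1 - 47 / 100 * y) * x +
      (1 - 351 / 625 * (x * (47 / 100 * y))) * (47 / 100 * y))) ∧
    1001 / 1000 * √(12 / 11 * (D / W)) ≤ 107 / 100 ∧
    (y + 493 / 400 * y) / 2 - d * ((493 / 400 * y) * π -
      ρ * (exp (493 / 400 * y) - 1 - 493 / 400 * y) - (ρ - x * (1 + y))) +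
      6 * (493 / 400 * y * d) ^ (2 : ℕ) / (11 * (ρ * exp (493 / 400 * y) * d)) ≤ -(3 / 5) := by
  obtain ⟨⟨-, hη2⟩, hd0, hy1, hW, hx, hY, hyd, hd5⟩ := outL_facA G hη hρ hrd hd
  exact ⟨by linarith only [hx], hy1, hyd, outL_MA G hη2 hy1 hx, outL_kA G hy1 hW,
    outL_XA G hη2 hρ hd0 hy1 hY hyd hd5⟩

end SokamP2O

end

/-! ### Lib_MP_af4de1_v3.OutLE -/

section
namespace SokamF1G
end SokamF1G
namespace SokamPG
end SokamPG
/-!
# `P2.outL`: the bound of the absolute integral at the two ends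
-/

set_option autoImplicit false

namespace SokamP2O

open Real Set SokamF1G MeasureTheory SokamPG

theorem ol_x1 : exp (61 / 10000 : ℝ) ≤ 10062 / 10000 := by
  have h := e_le3 (x := 61 / 10000) (by norm_num) (by norm_num)
  refine h.trans (by norm_num)

theorem ol_x2 : exp (-(3 / 5) : ℝ) ≤ 58 / 100 := by
  have h := en_le2 (x := 3 / 5) (by norm_num)
  refine h.trans (by norm_num)

theorem ol_n1 {t : ℝ} (h : t ≤ -1) : exp t ≤ 368 / 1000 := by
  have := exp_neg_le (n := 1) (c := 368 / 1000) (x := -t) (by norm_num) (by norm_num)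
    (by push_cast; linarith only [h])
  rwa [neg_neg] at this

theorem ol_n2 {t : ℝ} (h : t ≤ -2) : exp t ≤ 1354 / 10000 := by
  have := exp_neg_le (n := 2) (c := 1354 / 10000) (x := -t) (by norm_num) (by norm_num)
    (by push_cast; linarith only [h])
  rwa [neg_neg] at this

theorem ol_n3 {t : ℝ} (h : t ≤ -3) : exp t ≤ 1 / 20 := by
  have := exp_neg_le (n := 3) (c := 1 / 20) (x := -t) (by norm_num) (by norm_num)
    (by push_cast; linarith only [h])
  rwa [neg_neg] at this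

theorem ol_n8 : exp (-8 : ℝ) ≤ 1 / 2000 := by
  have := exp_neg_le (n := 8) (c := 1 / 2000) (x := 8) (by norm_num) (by norm_num) (by norm_num)
  exact this

/-- both ends -/
theorem outL_end {x y ρ η ψ W D : ℝ} (G : GeL x y ρ η ψ W D) {d lam tau z j : ℝ}
    (hd : 0 < d) (hy : 0 < y) (hlt : 19 / 4 * lam = 1 + tau) (hl1 : 7 / 20 - 1 / 60 ≤ lam)
    (hl2 : lam ≤ 47 / 100) (hη : lam * η ≤ 99 / 100) (hb : tau * y ≤ 1 / 2)
    (hb2 : (1 + tau) * y ≤ 1) (h2b : (2 + tau) * y ≤ 17 / 10) (hx : 8 / 5 ≤ x)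
    (hρ : 16 / 5 ≤ ρ) (hrd : 499 / 10 ≤ ρ * d) (hηp : η ≤ π) (hη0 : 0 ≤ η)
    (hz : z = 0 ∨ z = π - η) (hj0 : 0 ≤ j) (hj1 : j ≤ 1) {M kW L : ℝ} (hM : 0 ≤ M)
    (hkW0 : 0 ≤ kW) (hL0 : 0 ≤ L) (hL : L ≤ y * d)
    (hMM : (1 + (lam * y) ^ (2 : ℕ)) * D ≤
      M ^ (2 : ℕ) * (2 * (11 / 24 * (1 - lam * y) * x +
        (1 - 351 / 625 * (x * (lam * y))) * (lam * y))))
    (hβ : 6 / 5 ≤ tau * L)
    (hkW : 1001 / 1000 * √(12 / 11 * (D / W)) ≤ kW)
    (hX3 : (y + tau * y) / 2 - d * (tau * y * π - ρ * (exp (tau * y) - 1 - tau * y) -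
      (ρ - x * (1 + y))) + 6 * (tau * y * d) ^ (2 : ℕ) / (11 * (ρ * exp (tau * y) * d)) ≤ -(3 / 5))
    (n0 : M * (10062 / 10000) + 11 / 1000 + kW * exp (-(3 / 5) - tau * L * (π - η)) +
      5 / 4 * kW * (1 / 2000) ≤ 27 / 20)
    (nZ : M * exp (61 / 10000 - (1 - lam) * L * (π - η)) + 11 / 1000 + kW * (58 / 100) +
      5 / 4 * kW * (1 / 2000) ≤ 27 / 20)
    (hf : Integrable (fL (lam * y) (19 / 4) x y z d j)) :
    ∫ s, fL (lam * y) (19 / 4) x y z d j s ≤ 27 / 20 * sg d D := by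
  have hp := Real.pi_pos
  have hsg := (sg_pos hd G.D0).le
  have htau : 0 < tau := by
    by_contra h
    have : tau * L ≤ 0 := mul_nonpos_of_nonpos_of_nonneg (not_lt.1 h) hL0
    linarith only [hβ, this]
  have hβ' : 6 / 5 ≤ tau * (y * d) := hβ.trans (mul_le_mul_of_nonneg_left hL htau.le)
  have hZ : 0 ≤ π - η := by linarith only [hηp]
  have k8 : 5 / 4 * kW * exp (-8) ≤ 5 / 4 * kW * (1 / 2000) :=
    mul_le_mul_of_nonneg_left ol_n8 (by positivity)
  rcases hz with h | h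
  · have hX : (y + tau * y) / 2 - d * (tau * y * (2 * π - z - η) -
        ρ * (exp (tau * y) - 1 - tau * y) - (ρ - x * (1 + y))) +
        6 * (tau * y * d) ^ (2 : ℕ) / (11 * (ρ * exp (tau * y) * d)) ≤
        -(3 / 5) - tau * L * (π - η) := by
      have h1 : tau * L * (π - η) ≤ tau * (y * d) * (π - η) :=
        mul_le_mul_of_nonneg_right (mul_le_mul_of_nonneg_left hL htau.le) hZ
      have h2 : d * (tau * y * (2 * π - z - η) -
          ρ * (exp (tau * y) - 1 - tau * y) - (ρ - x * (1 + y))) =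
          d * (tau * y * π - ρ * (exp (tau * y) - 1 - tau * y) - (ρ - x * (1 + y))) +
          tau * (y * d) * (π - η) := by rw [h]; ring
      rw [h2]
      linarith only [hX3, h1]
    refine (coreL2 G hd hy hlt hl1 hl2 hη hb hb2 h2b hx hρ hrd (by rw [h]) (by rw [h]; exact hp.le)
      hj0 hj1 hM hMM hβ' hkW hX hf).trans (mul_le_mul_of_nonneg_right ?_ hsg)
    have h1 : M * exp (61 / 10000 - (1 - lam) * (y * d) * z) ≤ M * (10062 / 10000) := by
      refine mul_le_mul_of_nonneg_left ?_ hM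
      rw [h, mul_zero, sub_zero]
      exact ol_x1
    linarith only [n0, k8, h1]
  · have hX : (y + tau * y) / 2 - d * (tau * y * (2 * π - z - η) -
        ρ * (exp (tau * y) - 1 - tau * y) - (ρ - x * (1 + y))) +
        6 * (tau * y * d) ^ (2 : ℕ) / (11 * (ρ * exp (tau * y) * d)) ≤ -(3 / 5) := by
      rw [h, show 2 * π - (π - η) - η = π by ring]
      exact hX3
    refine (coreL2 G hd hy hlt hl1 hl2 hη hb hb2 h2b hx hρ hrd (by rw [h]; exact hZ)
      (by rw [h]; linarith only [hη0])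
      hj0 hj1 hM hMM hβ' hkW hX hf).trans (mul_le_mul_of_nonneg_right ?_ hsg)
    have h1 : M * exp (61 / 10000 - (1 - lam) * (y * d) * z) ≤
        M * exp (61 / 10000 - (1 - lam) * L * (π - η)) := by
      refine mul_le_mul_of_nonneg_left (exp_le_exp.2 ?_) hM
      rw [h]
      have : (1 - lam) * L * (π - η) ≤ (1 - lam) * (y * d) * (π - η) :=
        mul_le_mul_of_nonneg_right (mul_le_mul_of_nonneg_left hL (by linarith only [hl2])) hZ
      linarith only [this]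
    have h2 := mul_le_mul_of_nonneg_left ol_x2 hkW0
    linarith only [nZ, k8, h1, h2]

/-- case `Γ < 10` -/
theorem outL_endA {x y ρ η ψ W D : ℝ} (G : GeL x y ρ η ψ W D) {d z j : ℝ}
    (hη : η = 67 / 100 * π) (hρ : 694 / 100 ≤ ρ) (hrd : 499 / 10 ≤ ρ * d)
    (hd : 547 / 1000 * (ρ + 1 / ρ) ≤ d) (hy : 0 < y)
    (hz : z = 0 ∨ z = π - η) (hj0 : 0 ≤ j) (hj1 : j ≤ 1)
    (hf : Integrable (fL (47 / 100 * y) (19 / 4) x y z d j)) :
    ∫ s, fL (47 / 100 * y) (19 / 4) x y z d j s ≤ 27 / 20 * sg d D := by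
  have hp := Real.pi_gt_d4
  have hp2 := Real.pi_lt_d4
  obtain ⟨h1, h2, h3, h4, h5, h6⟩ := outL_numA G hη hρ hrd hd
  have hd0 : 0 < d := by
    by_contra h
    have : y * d ≤ 0 := mul_nonpos_of_nonneg_of_nonpos hy.le (not_lt.1 h)
    linarith only [h3, this]
  refine outL_end G (lam := 47 / 100) (tau := 493 / 400) (M := 117 / 100) (kW := 107 / 100)
    (L := 115 / 100) hd0 hy (by norm_num) (by norm_num) (by norm_num) (by linarith only [hη, hp2]) (by linarith only [h2])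
    (by linarith only [h2]) (by linarith only [h2]) h1 (by linarith only [hρ]) hrd (by linarith only [hη, hp]) (by linarith only [hη, hp]) hz hj0 hj1
    (by norm_num) (by norm_num) (by norm_num) h3 h4 (by norm_num) h5 h6 ?_ ?_ hf
  · have k1 := ol_n2 (t := -(3 / 5) - 493 / 400 * (115 / 100) * (π - η)) (by linarith only [hη, hp])
    linarith only [k1]
  · have k1 : exp (61 / 10000 - (1 - 47 / 100) * (115 / 100) * (π - η)) ≤ 58 / 100 := by
      refine (exp_le_exp.2 ?_).trans ol_x2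
      linarith only [hη, hp]
    linarith only [k1]

end SokamP2O

end
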