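import Pool.Agent.Lib_MP_af4de1_zy.Z06
import Pool.Agent.Lib_MP_af4de1_zy.Z64

/-! ### Lib_MP_af4de1_fa.FrM -/

section
/-!
# FAR: the receding wave on the left, and the second minorant
-/

namespace SokamFA

open Real MeasureTheory Set

/-- the auxiliary function `exp(-x/c) (1 - cos x)` and its derivative -/
private theorem FrM_deriv (c x : ℝ) : HasDerivAt (fun x : ℝ => exp (-(x / c)) * (1 - cos x))
    (exp (-(x / c)) * (2 * sin (x / 2) * (cos (x / 2) - sin (x / 2) / c))) x := by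
  have h1 : HasDerivAt (fun x : ℝ => exp (-(x / c))) (exp (-(x / c)) * (-(1 / c))) x :=
    (((hasDerivAt_id x).div_const c).neg).exp
  have h2 : HasDerivAt (fun x : ℝ => 1 - cos x) (sin x) x := by
    have := (Real.hasDerivAt_cos x).const_sub 1
    rwa [neg_neg] at this
  have h3 := h1.mul h2
  have e1 : sin x = 2 * sin (x / 2) * cos (x / 2) := by
    rw [← Real.sin_two_mul]; ring_nf
  have e2 : 1 - cos x = 2 * sin (x / 2) ^ (2 : ℕ) := by
    have h : cos x = 2 * cos (x / 2) ^ (2 : ℕ) - 1 := by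
      rw [← Real.cos_two_mul]; ring_nf
    have h' := Real.sin_sq_add_cos_sq (x / 2)
    linarith
  have e3 : exp (-(x / c)) * (2 * sin (x / 2) * (cos (x / 2) - sin (x / 2) / c)) =
      exp (-(x / c)) * (-(1 / c)) * (1 - cos x) + exp (-(x / c)) * sin x := by
    rw [e2, e1]; ring
  rw [e3]
  exact h3

private theorem FrM_cont (c : ℝ) : Continuous (fun x : ℝ => exp (-(x / c)) * (1 - cos x)) :=
  continuous_iff_continuousAt.2 fun x => (FrM_deriv c x).continuousAt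

private theorem FrM_half {x y : ℝ} (h0 : 0 ≤ x) (h : x ≤ y) (h1 : y ≤ π) :
    0 ≤ sin (x / 2) ∧ sin (x / 2) ≤ sin (y / 2) ∧ cos (y / 2) ≤ cos (x / 2) := by
  have hπ := Real.pi_pos
  refine ⟨sin_nonneg_of_nonneg_of_le_pi (by linarith) (by linarith),
    sin_le_sin_of_le_of_le_pi_div_two (by linarith) (by linarith) (by linarith),
    cos_le_cos_of_nonneg_of_le_pi (by linarith) (by linarith) (by linarith)⟩

private theorem FrM_mono {c v : ℝ} (hc : 0 < c) (hv : v ≤ π) (h : sin (v / 2) / c ≤ cos (v / 2))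
    {x y : ℝ} (h0 : 0 ≤ x) (hxy : x ≤ y) (hy : y ≤ v) :
    exp (-(x / c)) * (1 - cos x) ≤ exp (-(y / c)) * (1 - cos y) := by
  have hm : MonotoneOn (fun x : ℝ => exp (-(x / c)) * (1 - cos x)) (Icc 0 v) := by
    refine monotoneOn_of_deriv_nonneg (convex_Icc _ _) (FrM_cont c).continuousOn
      (fun x _ => (FrM_deriv c x).differentiableAt.differentiableWithinAt) fun x hx => ?_
    rw [interior_Icc] at hx
    rw [(FrM_deriv c x).deriv]
    obtain ⟨h1, h2, h3⟩ := FrM_half hx.1.le hx.2.le hv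
    have h4 : sin (x / 2) / c ≤ sin (v / 2) / c := div_le_div_of_nonneg_right h2 hc.le
    exact mul_nonneg (exp_pos _).le (mul_nonneg (by linarith) (by linarith))
  exact hm ⟨h0, hxy.trans hy⟩ ⟨h0.trans hxy, hy⟩ hxy

private theorem FrM_anti {c v : ℝ} (hc : 0 < c) (hv0 : 0 ≤ v) (h : cos (v / 2) ≤ sin (v / 2) / c)
    (hv : v ≤ π) :
    exp (-(π / c)) * (1 - cos π) ≤ exp (-(v / c)) * (1 - cos v) := by
  have hm : AntitoneOn (fun x : ℝ => exp (-(x / c)) * (1 - cos x)) (Icc v π) := by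
    refine antitoneOn_of_deriv_nonpos (convex_Icc _ _) (FrM_cont c).continuousOn
      (fun x _ => (FrM_deriv c x).differentiableAt.differentiableWithinAt) fun x hx => ?_
    rw [interior_Icc] at hx
    rw [(FrM_deriv c x).deriv]
    obtain ⟨h1, h2, h3⟩ := FrM_half hv0 hx.1.le hx.2.le
    have h4 : sin (v / 2) / c ≤ sin (x / 2) / c := div_le_div_of_nonneg_right h2 hc.le
    exact mul_nonpos_of_nonneg_of_nonpos (exp_pos _).le
      (mul_nonpos_of_nonneg_of_nonpos (by linarith) (by linarith))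
  exact hm ⟨le_rfl, hv⟩ ⟨hv, le_rfl⟩ hv

private theorem FrM_c (ρ : ℝ) : 1 ≤ √(1 + ρ ^ (2 : ℕ)) := by
  rw [Real.one_le_sqrt]
  nlinarith [sq_nonneg ρ]

private theorem FrM_shift (c f' s : ℝ) : exp (-(s / c)) * (1 - cos (f' + s)) =
    exp (f' / c) * (exp (-((f' + s) / c)) * (1 - cos (f' + s))) := by
  rw [← mul_assoc, ← Real.exp_add]
  congr 2
  ring

private theorem FrM_shift0 (c f' : ℝ) : 1 - cos f' = exp (f' / c) * (exp (-(f' / c)) * (1 - cos f')) := by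
  rw [← mul_assoc, ← Real.exp_add, add_neg_cancel, Real.exp_zero, one_mul]

theorem m_choice {ρ f' s : ℝ} (hf : 0 < f') (hs : 0 ≤ s) (h : f' + s ≤ π) :
    min (1 - cos f') (2 * exp ((f' - π) / √(1 + ρ ^ (2 : ℕ)))) ≤
      exp (-(s / √(1 + ρ ^ (2 : ℕ)))) * (1 - cos (f' + s)) := by
  set c := √(1 + ρ ^ (2 : ℕ)) with hc
  have hc0 : 0 < c := lt_of_lt_of_le one_pos (FrM_c ρ)
  rcases le_total (sin ((f' + s) / 2) / c) (cos ((f' + s) / 2)) with h1 | h1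
  · refine (min_le_left _ _).trans ?_
    have h2 := FrM_mono hc0 h h1 hf.le (by linarith : f' ≤ f' + s) le_rfl
    rw [FrM_shift c f' s, FrM_shift0 c f']
    exact mul_le_mul_of_nonneg_left h2 (exp_pos _).le
  · refine (min_le_right _ _).trans ?_
    have h2 := FrM_anti hc0 (by linarith : 0 ≤ f' + s) h1 h
    rw [FrM_shift c f' s]
    refine le_trans (le_of_eq ?_) (mul_le_mul_of_nonneg_left h2 (exp_pos _).le)
    rw [← mul_assoc, ← Real.exp_add, Real.cos_pi]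
    have : f' / c + -(π / c) = (f' - π) / c := by ring
    rw [this]
    ring

/-- when the whole range is below `π/2` -/
theorem m_choice' {ρ f' s : ℝ} (hf : 0 < f') (hs : 0 ≤ s) (h : f' + s ≤ π / 2) :
    1 - cos f' ≤ exp (-(s / √(1 + ρ ^ (2 : ℕ)))) * (1 - cos (f' + s)) := by
  set c := √(1 + ρ ^ (2 : ℕ)) with hc
  have hc1 : 1 ≤ c := FrM_c ρ
  have hc0 : 0 < c := lt_of_lt_of_le one_pos hc1
  have hπ := Real.pi_pos
  have h0 : 0 ≤ sin ((f' + s) / 2) :=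
    sin_nonneg_of_nonneg_of_le_pi (by linarith) (by linarith)
  have h1 : sin ((f' + s) / 2) / c ≤ cos ((f' + s) / 2) := by
    refine (div_le_self h0 hc1).trans ?_
    rw [← Real.cos_pi_div_two_sub]
    exact cos_le_cos_of_nonneg_of_le_pi (by linarith) (by linarith) (by linarith)
  have h2 := FrM_mono hc0 (by linarith) h1 hf.le (by linarith : f' ≤ f' + s) le_rfl
  rw [FrM_shift c f' s, FrM_shift0 c f']
  exact mul_le_mul_of_nonneg_left h2 (exp_pos _).le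

theorem cos_pade {v : ℝ} (h0 : 0 ≤ v) (h1 : v ≤ π) : v ^ (2 : ℕ) ≤ (1 - cos v) * (2 + 1487 / 5000 * v ^ (2 : ℕ)) := by
  rcases le_or_gt v (229 / 100) with h2 | h2
  · have h3 : cos v ≤ 1 - v ^ (2 : ℕ) / 2 + v ^ (4 : ℕ) / 24 := SokamF1G.cos_le4 h0
    have h4 : (v ^ (2 : ℕ) / 2 - v ^ (4 : ℕ) / 24) * (2 + 1487 / 5000 * v ^ (2 : ℕ)) ≤ (1 - cos v) * (2 + 1487 / 5000 * v ^ (2 : ℕ)) :=
      mul_le_mul_of_nonneg_right (by linarith) (by (clear * -; positivity))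
    refine le_trans ?_ h4
    have h5 : v ^ (2 : ℕ) ≤ 5.25 := by nlinarith only [h0, h2]
    have h6 : 0 ≤ v ^ (4 : ℕ) * (5.25 - v ^ (2 : ℕ)) := mul_nonneg (by (clear * -; positivity)) (by linarith)
    nlinarith only [h6]
  · set y := π - v with hy
    have hy0 : 0 ≤ y := by linarith
    have hπ := Real.pi_lt_d4
    have hy1 : y ≤ 86 / 100 := by linarith
    have h3 : 1 - cos v = 1 + cos y := by
      rw [hy, Real.cos_pi_sub]; ring
    have h4 : 1 - y ^ (2 : ℕ) / 2 ≤ cos y := Real.one_sub_sq_div_two_le_cos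
    have h5 : (2 - y ^ (2 : ℕ) / 2) * (2 + 1487 / 5000 * v ^ (2 : ℕ)) ≤ (1 - cos v) * (2 + 1487 / 5000 * v ^ (2 : ℕ)) :=
      mul_le_mul_of_nonneg_right (by linarith) (by (clear * - h2; positivity))
    refine le_trans ?_ h5
    have h6 : v ≤ 3.1416 - y := by linarith
    have h7 : v ^ (2 : ℕ) ≤ (3.1416 - y) ^ (2 : ℕ) := by
      exact pow_le_pow_left₀ h0 h6 2
    have h8 : v ^ (2 : ℕ) * (0.4052 + 0.1487 * y ^ (2 : ℕ)) ≤ (3.1416 - y) ^ (2 : ℕ) * (0.4052 + 0.1487 * y ^ (2 : ℕ)) :=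
      mul_le_mul_of_nonneg_right h7 (by (clear * -; positivity))
    have h9 : (3.1416 - y) ^ (2 : ℕ) * (0.4052 + 0.1487 * y ^ (2 : ℕ)) ≤ 4 - y ^ (2 : ℕ) := by
      have a1 : 0 ≤ y * (0.86 - y) := mul_nonneg hy0 (by linarith)
      have a2 : 0 ≤ y ^ (3 : ℕ) * (0.86 - y) := mul_nonneg (by (clear * - h1; positivity)) (by linarith)
      have a3 : 0 ≤ y ^ (3 : ℕ) := by (clear * - h1; positivity)
      nlinarith only [a2]
    linarith only [h8, h9]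

end SokamFA

end

/-! ### Lib_MP_af4de1_v3.ClB -/

section
namespace SokamCen
end SokamCen
namespace SokamFA
end SokamFA
/-!
# Far waves with `Γ ≥ 10`, II: the four integrals
-/

set_option autoImplicit false

namespace SokamCl

open Real SokamCen SokamFA MeasureTheory Set

/-- integral of a shifted Gaussian -/
theorem gauss_shift {b : ℝ} (hb : 0 < b) (c : ℝ) :
    ∫⁻ s : ℝ, ENNReal.ofReal (exp (-(b * (s - c) ^ (2 : ℕ)))) = ENNReal.ofReal √(π / b) := by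
  have h0 : ∀ s : ℝ, exp (-(b * s ^ (2 : ℕ))) = exp (-b * s ^ (2 : ℕ)) := fun s => by rw [neg_mul]
  have h1 : ∫⁻ s : ℝ, ENNReal.ofReal (exp (-(b * (s - c) ^ (2 : ℕ)))) =
      ∫⁻ s : ℝ, ENNReal.ofReal (exp (-(b * s ^ (2 : ℕ)))) := by
    have := lintegral_sub_right_eq_self (μ := (volume : Measure ℝ))
      (fun s => ENNReal.ofReal (exp (-(b * s ^ (2 : ℕ))))) c
    exact this
  rw [h1]
  simp only [h0]
  rw [← ofReal_integral_eq_lintegral_ofReal (integrable_exp_neg_mul_sq hb)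
    (Filter.Eventually.of_forall fun s => (exp_pos _).le), integral_gaussian]

/-- a two-term Gaussian: `f ≥ A s² + B (s - t)²` on `S` -/
theorem gauss_two {q A B t : ℝ} {S : Set ℝ} {f : ℝ → ℝ} (hq : 0 < q) (hA : 0 < A) (hB : 0 < B)
    (hS : MeasurableSet S) (hf : ∀ s ∈ S, A * s ^ (2 : ℕ) + B * (s - t) ^ (2 : ℕ) ≤ f s) :
    ∫⁻ s in S, ENNReal.ofReal (exp (-(q * f s))) ≤
      ENNReal.ofReal (√(π / (q * (A + B))) * exp (-(q * (A * B / (A + B) * t ^ (2 : ℕ))))) := by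
  have hAB : 0 < A + B := add_pos hA hB
  have hb : 0 < q * (A + B) := mul_pos hq hAB
  have hK : 0 ≤ exp (-(q * (A * B / (A + B) * t ^ (2 : ℕ)))) := (exp_pos _).le
  calc ∫⁻ s in S, ENNReal.ofReal (exp (-(q * f s)))
      ≤ ∫⁻ s in S, ENNReal.ofReal (exp (-(q * (A * B / (A + B) * t ^ (2 : ℕ))))) *
          ENNReal.ofReal (exp (-(q * (A + B) * (s - B * t / (A + B)) ^ (2 : ℕ)))) := by
        refine setLIntegral_mono' hS fun s hs => ?_
        rw [← ENNReal.ofReal_mul hK, ← exp_add]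
        refine ENNReal.ofReal_le_ofReal (exp_le_exp.2 ?_)
        have h1 := mul_le_mul_of_nonneg_left (hf s hs) hq.le
        have e : A * s ^ (2 : ℕ) + B * (s - t) ^ (2 : ℕ) =
            A * B / (A + B) * t ^ (2 : ℕ) + (A + B) * (s - B * t / (A + B)) ^ (2 : ℕ) := by
          field_simp
          ring
        rw [e] at h1
        linarith only [h1]
    _ ≤ ∫⁻ s : ℝ, ENNReal.ofReal (exp (-(q * (A * B / (A + B) * t ^ (2 : ℕ))))) *
          ENNReal.ofReal (exp (-(q * (A + B) * (s - B * t / (A + B)) ^ (2 : ℕ)))) :=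
        setLIntegral_le_lintegral _ _
    _ = ENNReal.ofReal (√(π / (q * (A + B))) * exp (-(q * (A * B / (A + B) * t ^ (2 : ℕ))))) := by
        rw [lintegral_const_mul' _ _ ENNReal.ofReal_ne_top, gauss_shift hb, ← ENNReal.ofReal_mul hK,
          mul_comm]

/-- half Gaussian: `f ≥ A s² + c` on `S ⊆ [0,∞)` -/
theorem gauss_half' {q A c : ℝ} {S : Set ℝ} {f : ℝ → ℝ} (hq : 0 < q) (hA : 0 < A)
    (hS : MeasurableSet S) (hS0 : ∀ s ∈ S, 0 ≤ s) (hf : ∀ s ∈ S, A * s ^ (2 : ℕ) + c ≤ f s) :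
    ∫⁻ s in S, ENNReal.ofReal (exp (-(q * f s))) ≤
      ENNReal.ofReal (√(π / (q * A)) / 2 * exp (-(q * c))) := by
  have hb : 0 < q * A := mul_pos hq hA
  have hK : 0 ≤ exp (-(q * c)) := (exp_pos _).le
  have h2 : Integrable (fun s : ℝ => exp (-(q * A) * s ^ (2 : ℕ))) (volume.restrict (Ioi 0)) :=
    (integrable_exp_neg_mul_sq hb).integrableOn
  calc ∫⁻ s in S, ENNReal.ofReal (exp (-(q * f s)))
      ≤ ∫⁻ s in S, ENNReal.ofReal (exp (-(q * c))) * ENNReal.ofReal (exp (-(q * A) * s ^ (2 : ℕ))) := by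
        refine setLIntegral_mono' hS fun s hs => ?_
        rw [← ENNReal.ofReal_mul hK, ← exp_add]
        refine ENNReal.ofReal_le_ofReal (exp_le_exp.2 ?_)
        have h1 := mul_le_mul_of_nonneg_left (hf s hs) hq.le
        linarith only [h1]
    _ ≤ ∫⁻ s in Ici 0, ENNReal.ofReal (exp (-(q * c))) * ENNReal.ofReal (exp (-(q * A) * s ^ (2 : ℕ))) :=
        lintegral_mono_set fun s hs => hS0 s hs
    _ = ∫⁻ s in Ioi 0, ENNReal.ofReal (exp (-(q * c))) * ENNReal.ofReal (exp (-(q * A) * s ^ (2 : ℕ))) :=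
        setLIntegral_congr Ioi_ae_eq_Ici.symm
    _ = ENNReal.ofReal (√(π / (q * A)) / 2 * exp (-(q * c))) := by
        rw [lintegral_const_mul' _ _ ENNReal.ofReal_ne_top, ← ofReal_integral_eq_lintegral_ofReal h2
          (Filter.Eventually.of_forall fun s => (exp_pos _).le), integral_gaussian_Ioi,
          ← ENNReal.ofReal_mul hK, mul_comm]

/-! ## the tangent trick -/

/-- `(t' - w) (1+v) e^(-σT/2) ≤ (T-w) e^(-w/2)` -/
theorem tangent {T σ v w : ℝ} (hv : 2 * v = (1 - σ) * T) (hw : w ≤ T) :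
    exp (-(σ * T / 2)) * (T * (1 + σ * v) - (1 + v) * w) ≤ (T - w) * exp (-(w / 2)) := by
  have h1 := Real.add_one_le_exp (-((w - σ * T) / 2))
  have h2 : exp (-(w / 2)) = exp (-(σ * T / 2)) * exp (-((w - σ * T) / 2)) := by
    rw [← exp_add]
    congr 1
    ring
  rw [h2]
  have h3 := exp_pos (-(σ * T / 2))
  have h4 : T * (1 + σ * v) - (1 + v) * w ≤ (T - w) * exp (-((w - σ * T) / 2)) := by
    have h5 : (T - w) * (1 - (w - σ * T) / 2) ≤ (T - w) * exp (-((w - σ * T) / 2)) :=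
      mul_le_mul_of_nonneg_left (by linarith only [h1]) (by linarith only [hw])
    have hv' : v = (1 - σ) * T / 2 := by linarith only [hv]
    subst hv'
    linarith only [h5, sq_nonneg (w - σ * T)]
  calc exp (-(σ * T / 2)) * (T * (1 + σ * v) - (1 + v) * w)
      ≤ exp (-(σ * T / 2)) * ((T - w) * exp (-((w - σ * T) / 2))) :=
        mul_le_mul_of_nonneg_left h4 h3.le
    _ = _ := by ring

/-- the new centre `θ' = θ tr` -/
noncomputable def tr (σ T : ℝ) : ℝ := (1 + σ * ((1 - σ) * T / 2)) / (1 + (1 - σ) * T / 2)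

/-- `L1²` -/
noncomputable def Lq (σ T : ℝ) : ℝ := exp (-(σ * T)) * (1 + (1 - σ) * T / 2) ^ (2 : ℕ)

theorem tr_pos {σ T : ℝ} (h0 : 0 ≤ σ) (h1 : σ ≤ 1) (hT : 0 ≤ T) : 0 < tr σ T := by
  unfold tr
  have : 0 ≤ (1 - σ) * T / 2 := by
    have := mul_nonneg (sub_nonneg.2 h1) hT
    linarith only [this]
  have h2 := mul_nonneg h0 this
  positivity

theorem tr_le {σ T : ℝ} (h1 : σ ≤ 1) (hT : 0 ≤ T) : tr σ T ≤ 1 := by
  unfold tr
  have : 0 ≤ (1 - σ) * T / 2 := by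
    have := mul_nonneg (sub_nonneg.2 h1) hT
    linarith only [this]
  rw [div_le_one (by positivity)]
  nlinarith only [h1, this]

theorem Lq_pos {σ T : ℝ} (h1 : σ ≤ 1) (hT : 0 ≤ T) : 0 < Lq σ T := by
  unfold Lq
  have : 0 ≤ (1 - σ) * T / 2 := by
    have := mul_nonneg (sub_nonneg.2 h1) hT
    linarith only [this]
  positivity

/-- the main zone, pointwise -/
theorem main_pt {m ρ θ σ A β : ℝ} (hm : 0 < m) (hμ : 5 / 4 ≤ m / ρ) (hθ : 0 < θ)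
    (h0 : 0 ≤ σ) (h1 : σ ≤ 1) (hA0 : 0 < A) (hA : A * m ^ (2 : ℕ) ≤ (m / ρ - 1 / 2) * min 1 (m / θ))
    (hβ0 : 0 ≤ β) (hβ : ∀ z : ℝ, 0 ≤ z → z ≤ θ → β * z ^ (2 : ℕ) ≤ 1 - cos z) {s : ℝ}
    (hs : s ∈ Icc (-(θ * tr σ (θ / m))) 0) :
    A * s ^ (2 : ℕ) + β * Lq σ (θ / m) * (s - -(θ * tr σ (θ / m))) ^ (2 : ℕ) ≤ Dm m ρ θ s := by
  have hT0 : 0 < θ / m := div_pos hθ hm
  have htr := tr_le (σ := σ) h1 hT0.le
  obtain ⟨hs1, hs0⟩ := hs
  obtain ⟨u, hu⟩ : ∃ u, u = -s := ⟨_, rfl⟩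
  have hsu : s = -u := by rw [hu, neg_neg]
  have hu0 : 0 ≤ u := by linarith only [hs0, hu]
  have hut : u ≤ θ * tr σ (θ / m) := by linarith only [hs1, hsu]
  have huθ : u ≤ θ := hut.trans (by nlinarith only [hθ, htr])
  rw [hsu, Dm_eq]
  have q1 := Qm_left hm hμ hθ hA0.le hA hu0 huθ
  have q2 := neg_div_le_pm hm hu0
  have q3 : exp (-(u / m)) ≤ exp (pm m (-u)) := exp_le_exp.2 q2
  have q4 := hβ (θ - u) (by linarith only [huθ]) (by linarith only [hu0])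
  have q5 : θ + -u = θ - u := by ring
  rw [q5]
  have q6 : exp (-(u / m)) * (β * (θ - u) ^ (2 : ℕ)) ≤ exp (pm m (-u)) * (1 - cos (θ - u)) :=
    mul_le_mul q3 q4 (by positivity) (exp_pos _).le
  obtain ⟨v, hv⟩ : ∃ v, v = (1 - σ) * (θ / m) / 2 := ⟨_, rfl⟩
  have hv0 : 0 ≤ v := by
    rw [hv]
    have := mul_nonneg (sub_nonneg.2 h1) hT0.le
    linarith only [this]
  have q7 := tangent (T := θ / m) (σ := σ) (v := v) (w := u / m) (by rw [hv]; ring)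
    (div_le_div_of_nonneg_right huθ hm.le)
  have e1 : tr σ (θ / m) = (1 + σ * v) / (1 + v) := by unfold tr; rw [hv]
  have e2 : θ / m * (1 + σ * v) - (1 + v) * (u / m) = (1 + v) * (θ * tr σ (θ / m) - u) / m := by
    rw [e1]
    field_simp
  have q8 : 0 ≤ exp (-(σ * (θ / m) / 2)) * (θ / m * (1 + σ * v) - (1 + v) * (u / m)) := by
    rw [e2]
    have : 0 ≤ θ * tr σ (θ / m) - u := by linarith only [hut]
    positivity
  have q9 := pow_le_pow_left₀ q8 q7 2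
  have e3 : (exp (-(σ * (θ / m) / 2)) * (θ / m * (1 + σ * v) - (1 + v) * (u / m))) ^ (2 : ℕ) =
      Lq σ (θ / m) * (θ * tr σ (θ / m) - u) ^ (2 : ℕ) / m ^ (2 : ℕ) := by
    rw [e2]
    unfold Lq
    rw [← hv]
    have : exp (-(σ * (θ / m))) = exp (-(σ * (θ / m) / 2)) ^ (2 : ℕ) := by
      rw [← Real.exp_nat_mul]
      congr 1
      push_cast
      ring
    rw [this]
    field_simp
  have e4 : ((θ / m - u / m) * exp (-(u / m / 2))) ^ (2 : ℕ) = exp (-(u / m)) * (θ - u) ^ (2 : ℕ) / m ^ (2 : ℕ) := by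
    have : exp (-(u / m)) = exp (-(u / m / 2)) ^ (2 : ℕ) := by
      rw [← Real.exp_nat_mul]
      congr 1
      push_cast
      ring
    rw [this]
    field_simp
  rw [e3, e4, div_le_div_iff_of_pos_right (by positivity)] at q9
  have q10 := mul_le_mul_of_nonneg_left q9 hβ0
  have e5 : (-u - -(θ * tr σ (θ / m))) ^ (2 : ℕ) = (θ * tr σ (θ / m) - u) ^ (2 : ℕ) := by ring
  rw [e5, neg_sq]
  linarith only [q1, q6, q10]

theorem main_int {q m ρ θ σ A β : ℝ} (hq : 0 < q) (hm : 0 < m) (hμ : 5 / 4 ≤ m / ρ) (hθ : 0 < θ)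
    (h0 : 0 ≤ σ) (h1 : σ ≤ 1) (hA0 : 0 < A) (hA : A * m ^ (2 : ℕ) ≤ (m / ρ - 1 / 2) * min 1 (m / θ))
    (hβ0 : 0 < β) (hβ : ∀ z : ℝ, 0 ≤ z → z ≤ θ → β * z ^ (2 : ℕ) ≤ 1 - cos z) :
    ∫⁻ s in Icc (-(θ * tr σ (θ / m))) 0, ENNReal.ofReal (exp (-(q * Dm m ρ θ s))) ≤
      ENNReal.ofReal (√(π / (q * (A + β * Lq σ (θ / m)))) *
        exp (-(q * (A * (β * Lq σ (θ / m)) / (A + β * Lq σ (θ / m)) * (θ * tr σ (θ / m)) ^ (2 : ℕ))))) := by
  have hT0 : 0 < θ / m := div_pos hθ hm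
  have h := gauss_two (t := -(θ * tr σ (θ / m))) (f := Dm m ρ θ) hq hA0
    (mul_pos hβ0 (Lq_pos h1 hT0.le)) measurableSet_Icc
    (fun s hs => main_pt hm hμ hθ h0 h1 hA0 hA hβ0.le hβ hs)
  rwa [neg_sq] at h

/-! ## tails -/

private theorem gw_shift (V c : ℝ) (a : ℝ) (hV : 15 ≤ V) :
    ∫ s in a..(a + 2 * π), gw V (s - c) ≤ 67 / 25 / √V := by
  have hper : Function.Periodic (fun s => gw V (s - c)) (2 * π) := by
    intro u
    have : u + 2 * π - c = (u - c) + 2 * π := by ring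
    simp only [this]
    unfold gw
    rw [Real.cos_add_two_pi]
  rw [hper.intervalIntegral_add_eq a (c - π)]
  have h2 := intervalIntegral.integral_comp_sub_right (a := c - π) (b := c - π + 2 * π) (gw V) c
  rw [h2]
  have e1 : c - π - c = -π := by ring
  have e2 : c - π + 2 * π - c = π := by ring
  rw [e1, e2]
  exact W_le hV

/-- tail: `f s ≥ Q s/u + E (1 - cos (s - c))` for `s > u`, `0 < u ≤ 2π` -/
theorem tail_gen {q Q E u c u1 : ℝ} {f : ℝ → ℝ} (hq : 0 < q) (hQ : 0 < Q) (hu : 0 < u)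
    (hu2 : u ≤ 2 * π) (hu1 : u ≤ u1) (hV : 15 ≤ q * E)
    (hf : ∀ s, u1 < s → Q * (s / u) + E * (1 - cos (s - c)) ≤ f s) :
    ∫⁻ s in Ioi u1, ENNReal.ofReal (exp (-(q * f s))) ≤
      ENNReal.ofReal (exp (-(q * Q * (u1 / u))) * (67 / 25 / √(q * E)) / (1 - exp (-(q * Q)))) := by
  have hpi := Real.pi_pos
  have hqQ : 0 < q * Q := mul_pos hq hQ
  have hr1 : exp (-(q * Q)) < 1 := by
    rw [← Real.exp_zero]
    exact exp_lt_exp.2 (by linarith only [hqQ])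
  have key := tail_abs (w := fun s => exp (-(q * Q * (s / u)))) (F := fun s => gw (q * E) (s - c))
    (S1 := u1) (h := 2 * π) (A := exp (-(q * Q * (u1 / u)))) (r1 := exp (-(q * Q)))
    (Wc := 67 / 25 / √(q * E)) (by positivity) (exp_pos _).le (exp_pos _).le hr1
    ((continuous_gw _).comp (by fun_prop)) (fun s => (gw_pos _ _).le)
    (fun a => gw_shift _ _ _ hV) (fun s => (exp_pos _).le) (fun n s hs => ?_)
  · refine (setLIntegral_mono' measurableSet_Ioi fun s hs => ?_).trans key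
    refine ENNReal.ofReal_le_ofReal ?_
    have h1 := mul_le_mul_of_nonneg_left (hf s hs) hq.le
    unfold gw
    rw [← exp_add]
    refine exp_le_exp.2 ?_
    linarith only [h1]
  · have h1 := hs.1
    rw [← Real.exp_nat_mul, ← exp_add]
    refine exp_le_exp.2 ?_
    have h2 : u1 / u + n ≤ s / u := by
      rw [div_add' _ _ _ hu.ne', div_le_div_iff_of_pos_right hu]
      have : (n : ℝ) * u ≤ n * (2 * π) := mul_le_mul_of_nonneg_left hu2 (Nat.cast_nonneg n)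
      linarith only [h1, this]
    nlinarith only [hqQ, h2]

private theorem neg_int (F : ℝ → ENNReal) (c : ℝ) :
    ∫⁻ s in Iio (-c), F s = ∫⁻ u in Ioi c, F (-u) := by
  have h := (Measure.measurePreserving_neg (volume : Measure ℝ)).setLIntegral_comp_preimage_emb
    (Homeomorph.neg ℝ).isClosedEmbedding.measurableEmbedding F (Iio (-c))
  rw [← h]
  congr 2
  ext x
  simp

/-- `x ≥ 16/5`: `1/(1 - e^(-x)) ≤ 1.05` -/
theorem inv_one_sub_exp {x : ℝ} (hx : 16 / 5 ≤ x) : 1 / (1 - exp (-x)) ≤ 21 / 20 := by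
  have h1 : exp (-x) ≤ 1 / 21 := by
    have h2 : exp (-x) ≤ exp (-(16 / 5)) := exp_le_exp.2 (by linarith only [hx])
    have h3 : exp (-(16 / 5 : ℝ)) ≤ 1 / 21 := by
      rw [Real.exp_neg, inv_eq_one_div]
      apply one_div_le_one_div_of_le (by norm_num)
      have h5 : exp (16 / 5) = exp (1 / 5) ^ (16 : ℕ) := by
        rw [← Real.exp_nat_mul]
        norm_num
      have h6 : (1 + 1 / 5 + (1 / 5) ^ (2 : ℕ) / 2 : ℝ) ≤ exp (1 / 5) :=
        Real.quadratic_le_exp_of_nonneg (by norm_num)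
      rw [h5]
      calc (21 : ℝ) ≤ (1 + 1 / 5 + (1 / 5) ^ (2 : ℕ) / 2) ^ (16 : ℕ) := by norm_num
        _ ≤ _ := pow_le_pow_left₀ (by norm_num) h6 16
    linarith only [h2, h3]
  rw [div_le_iff₀ (by linarith only [h1])]
  linarith only [h1]

/-- left tail -/
theorem left_tail {q m ρ θ σ A : ℝ} (hq : 42 ≤ q) (hm : 0 < m) (hμ : 5 / 4 ≤ m / ρ) (hθ : 0 < θ)
    (hθπ : θ ≤ π) (h0 : 0 ≤ σ) (h1 : σ ≤ 1) (hA0 : 0 < A)
    (hA : A * m ^ (2 : ℕ) ≤ (m / ρ - 1 / 2) * min 1 (m / θ))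
    (hx : 16 / 5 ≤ q * (A * (θ * tr σ (θ / m)) ^ (2 : ℕ))) :
    ∫⁻ s in Iio (-(θ * tr σ (θ / m))), ENNReal.ofReal (exp (-(q * Dm m ρ θ s))) ≤
      ENNReal.ofReal (exp (-(q * (A * (θ * tr σ (θ / m)) ^ (2 : ℕ)))) *
        (141 / 50 * √(exp 1 / q))) := by
  have hpi := Real.pi_pos
  have hq0 : 0 < q := by linarith only [hq]
  have hT0 : 0 < θ / m := div_pos hθ hm
  have htr := tr_le (σ := σ) h1 hT0.le
  have htr0 := tr_pos h0 h1 hT0.le
  obtain ⟨u, hu⟩ : ∃ u, u = θ * tr σ (θ / m) := ⟨_, rfl⟩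
  rw [← hu] at hx ⊢
  have hu0 : 0 < u := by rw [hu]; positivity
  have huθ : u ≤ θ := by rw [hu]; nlinarith only [htr, htr0, hu, hu0]
  have hQ : 0 < A * u ^ (2 : ℕ) := by positivity
  have hE1 : exp 1 < 2.7182818286 := Real.exp_one_lt_d9
  have hE0 := exp_pos (1 : ℝ)
  have hV : 15 ≤ q * (1 / exp 1) := by
    rw [mul_one_div, le_div_iff₀ hE0]
    linarith only [hq, hE1]
  rw [neg_int]
  have hf : ∀ s, u < s → A * u ^ (2 : ℕ) * (s / u) + 1 / exp 1 * (1 - cos (s - θ)) ≤ Dm m ρ θ (-s) := by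
    intro s hs
    rw [Dm_eq]
    have a1 := Qm_ray_left hm (by linarith : 1 ≤ m / ρ) hu0 hs.le
    have a2 := Qm_left hm hμ hθ hA0.le hA hu0.le huθ
    have a3 : 1 / exp 1 ≤ exp (pm m (-s)) := by
      rw [one_div, ← Real.exp_neg]
      exact exp_le_exp.2 (abs_le.1 (pm_mem m (-s))).1
    have a4 : θ + -s = -(s - θ) := by ring
    rw [a4, cos_neg]
    have a5 := cos_le_one (s - θ)
    have a6 : 0 ≤ s / u := div_nonneg (by linarith only [hu0, hs]) hu0.le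
    have a7 := mul_le_mul_of_nonneg_right a2 a6
    have a8 := mul_le_mul_of_nonneg_right a3 (by linarith : 0 ≤ 1 - cos (s - θ))
    linarith only [a1, a7, a8]
  have key := tail_gen (u1 := u) (f := fun s => Dm m ρ θ (-s)) hq0 hQ hu0
    (by linarith : u ≤ 2 * π) le_rfl hV hf
  refine key.trans (ENNReal.ofReal_le_ofReal ?_)
  have b1 := inv_one_sub_exp hx
  have e1 : q * (A * u ^ (2 : ℕ)) * (u / u) = q * (A * u ^ (2 : ℕ)) := by rw [div_self hu0.ne', mul_one]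
  have e2 : 67 / 25 / √(q * (1 / exp 1)) = 67 / 25 * √(exp 1 / q) := by
    have : exp 1 / q = (q * (1 / exp 1))⁻¹ := by field_simp
    rw [this, Real.sqrt_inv]
    ring
  rw [e1, e2]
  have b2 := exp_pos (-(q * (A * u ^ (2 : ℕ))))
  have b3 := Real.sqrt_nonneg (exp 1 / q)
  calc exp (-(q * (A * u ^ (2 : ℕ)))) * (67 / 25 * √(exp 1 / q)) / (1 - exp (-(q * (A * u ^ (2 : ℕ)))))
      = exp (-(q * (A * u ^ (2 : ℕ)))) * (67 / 25 * √(exp 1 / q)) *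
          (1 / (1 - exp (-(q * (A * u ^ (2 : ℕ)))))) := by ring
    _ ≤ exp (-(q * (A * u ^ (2 : ℕ)))) * (67 / 25 * √(exp 1 / q)) * (21 / 20) :=
        mul_le_mul_of_nonneg_left b1 (by positivity)
    _ ≤ _ := by
        have : 67 / 25 * (21 / 20) * √(exp 1 / q) ≤ 141 / 50 * √(exp 1 / q) := by linarith only [b3]
        nlinarith only [b2, this]

/-- pointwise, right -/
theorem right_ray {m ρ θ A u T s : ℝ} (hm : 0 < m) (hμ : 5 / 4 ≤ m / ρ) (hu : u = 2 * π - θ)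
    (hu0 : 0 < u) (hT : min 1 (u / m) ≤ T) (hT1 : T ≤ 1) (hA0 : 0 < A)
    (hA : A * m ^ (2 : ℕ) ≤ (m / ρ - gam T / 2) * min 1 (m / u)) (hs : u < s) :
    A * u ^ (2 : ℕ) * (s / u) + 1 * (1 - cos (s - u)) ≤ Dm m ρ θ s := by
  rw [Dm_eq]
  have a1 := Qm_ray_right hm (by linarith : 1 ≤ m / ρ) hu0 hs.le
  have a2 := Qm_right hm hμ hu0 hT hT1 hA0.le hA hu0.le le_rfl
  have a3 : 1 ≤ exp (pm m s) := Real.one_le_exp (pm_nonneg hm (by linarith only [hu0, hs]))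
  have a4 : θ + s = s - u + 2 * π := by rw [hu]; ring
  rw [a4, cos_add_two_pi]
  have a5 := cos_le_one (s - u)
  have a6 : 0 ≤ s / u := div_nonneg (by linarith only [hu0, hs]) hu0.le
  have a7 := mul_le_mul_of_nonneg_right a2 a6
  have a8 := mul_le_mul_of_nonneg_right a3 (by linarith : 0 ≤ 1 - cos (s - u))
  linarith only [a1, a7, a8]

/-- right tail -/
theorem right_tail {q m ρ θ A u T : ℝ} (hq : 42 ≤ q) (hm : 0 < m) (hμ : 5 / 4 ≤ m / ρ)
    (hu : u = 2 * π - θ) (hu0 : 0 < u) (hθ : 0 ≤ θ) (hT : min 1 (u / m) ≤ T) (hT1 : T ≤ 1)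
    (hA0 : 0 < A) (hA : A * m ^ (2 : ℕ) ≤ (m / ρ - gam T / 2) * min 1 (m / u))
    (hx : 16 / 5 ≤ q * (A * u ^ (2 : ℕ))) :
    ∫⁻ s in Ioi u, ENNReal.ofReal (exp (-(q * Dm m ρ θ s))) ≤
      ENNReal.ofReal (exp (-(q * (A * u ^ (2 : ℕ)))) * (141 / 50 * √(1 / q))) := by
  have hpi := Real.pi_pos
  have hq0 : 0 < q := by linarith only [hq]
  have hQ : 0 < A * u ^ (2 : ℕ) := by positivity
  have key := tail_gen (u1 := u) (E := 1) (c := u) (f := Dm m ρ θ) hq0 hQ hu0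
    (by linarith : u ≤ 2 * π) le_rfl (by linarith only [hq])
    (fun s hs => right_ray hm hμ hu hu0 hT hT1 hA0 hA hs)
  refine key.trans (ENNReal.ofReal_le_ofReal ?_)
  have b1 := inv_one_sub_exp hx
  have e1 : q * (A * u ^ (2 : ℕ)) * (u / u) = q * (A * u ^ (2 : ℕ)) := by rw [div_self hu0.ne', mul_one]
  have e2 : 67 / 25 / √(q * 1) = 67 / 25 * √(1 / q) := by
    rw [mul_one, one_div, Real.sqrt_inv]
    ring
  rw [e1, e2]
  have b2 := exp_pos (-(q * (A * u ^ (2 : ℕ))))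
  have b3 := Real.sqrt_nonneg (1 / q)
  calc exp (-(q * (A * u ^ (2 : ℕ)))) * (67 / 25 * √(1 / q)) / (1 - exp (-(q * (A * u ^ (2 : ℕ)))))
      = exp (-(q * (A * u ^ (2 : ℕ)))) * (67 / 25 * √(1 / q)) *
          (1 / (1 - exp (-(q * (A * u ^ (2 : ℕ)))))) := by ring
    _ ≤ exp (-(q * (A * u ^ (2 : ℕ)))) * (67 / 25 * √(1 / q)) * (21 / 20) :=
        mul_le_mul_of_nonneg_left b1 (by positivity)
    _ ≤ _ := by
        have : 67 / 25 * (21 / 20) * √(1 / q) ≤ 141 / 50 * √(1 / q) := by linarith only [b3]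
        nlinarith only [b2, b3]

/-- `67/25 · e^(-x)/(1 - e^(-y)) ≤ 1/100` for `x ≥ 28/5`, `y ≥ 16/5` -/
private theorem small_exp {x y : ℝ} (hx : 29 / 5 ≤ x) (hy : 16 / 5 ≤ y) :
    exp (-x) * (67 / 25) * (1 / (1 - exp (-y))) ≤ 1 / 100 := by
  have h1 := inv_one_sub_exp hy
  have h2 : exp (-x) ≤ 1 / 300 := by
    have h2 : exp (-x) ≤ exp (-(29 / 5)) := exp_le_exp.2 (by linarith only [hx])
    have h3 : exp (-(29 / 5 : ℝ)) ≤ 1 / 300 := by
      rw [Real.exp_neg, inv_eq_one_div]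
      apply one_div_le_one_div_of_le (by norm_num)
      have h5 : exp (29 / 5) = exp (1 / 5) ^ (29 : ℕ) := by
        rw [← Real.exp_nat_mul]
        norm_num
      have h6 : (1 + 1 / 5 + (1 / 5) ^ (2 : ℕ) / 2 : ℝ) ≤ exp (1 / 5) :=
        Real.quadratic_le_exp_of_nonneg (by norm_num)
      rw [h5]
      calc (300 : ℝ) ≤ (1 + 1 / 5 + (1 / 5) ^ (2 : ℕ) / 2) ^ (29 : ℕ) := by norm_num
        _ ≤ _ := pow_le_pow_left₀ (by norm_num) h6 29
    linarith only [h2, h3]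
  have h3 := exp_pos (-x)
  have h4 : exp (-x) * (67 / 25) * (1 / (1 - exp (-y))) ≤ exp (-x) * (67 / 25) * (21 / 20) :=
    mul_le_mul_of_nonneg_left h1 (by positivity)
  linarith only [h2, h4]

/-- right tail, sharp version -/
theorem right_tail_half {q m ρ θ A u T : ℝ} (hq : 42 ≤ q) (hm : 0 < m) (hμ : 5 / 4 ≤ m / ρ)
    (hu : u = 2 * π - θ) (hu0 : 0 < u) (hθ : 0 ≤ θ) (hT : min 1 (u / m) ≤ T) (hT1 : T ≤ 1)
    (hA0 : 0 < A) (hA : A * m ^ (2 : ℕ) ≤ (m / ρ - gam T / 2) * min 1 (m / u))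
    (hx : 29 / 5 ≤ q * (A * u ^ (2 : ℕ)) * (π / u)) (hx2 : 16 / 5 ≤ q * (A * u ^ (2 : ℕ))) :
    ∫⁻ s in Ioi u, ENNReal.ofReal (exp (-(q * Dm m ρ θ s))) ≤
      ENNReal.ofReal (exp (-(q * (A * u ^ (2 : ℕ)))) * (27 / 20 * √(1 / q))) := by
  have hpi := Real.pi_pos
  have hq0 : 0 < q := by linarith only [hq]
  have hQ : 0 < A * u ^ (2 : ℕ) := by positivity
  have hpt := fun s hs => right_ray (θ := θ) (s := s) hm hμ hu hu0 hT hT1 hA0 hA hs
  have hsub : Ioi u ⊆ Ioc u (u + π) ∪ Ioi (u + π) := by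
    intro s hs
    rcases le_or_gt s (u + π) with h | h
    · exact Or.inl ⟨hs, h⟩
    · exact Or.inr h
  have k1 : ∫⁻ s in Ioc u (u + π), ENNReal.ofReal (exp (-(q * Dm m ρ θ s))) ≤
      ENNReal.ofReal (exp (-(q * (A * u ^ (2 : ℕ)))) * (67 / 50 / √q)) := by
    have hint : IntegrableOn (fun s => exp (-(q * (A * u ^ (2 : ℕ)))) * gw q (s - u)) (Ioc u (u + π)) := by
      have hcont : Continuous fun s => exp (-(q * (A * u ^ (2 : ℕ)))) * gw q (s - u) :=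
        continuous_const.mul ((continuous_gw _).comp (by fun_prop))
      exact (hcont.continuousOn.integrableOn_Icc).mono_set Ioc_subset_Icc_self
    calc ∫⁻ s in Ioc u (u + π), ENNReal.ofReal (exp (-(q * Dm m ρ θ s)))
        ≤ ∫⁻ s in Ioc u (u + π), ENNReal.ofReal (exp (-(q * (A * u ^ (2 : ℕ)))) * gw q (s - u)) := by
          refine setLIntegral_mono' measurableSet_Ioc fun s hs => ?_
          refine ENNReal.ofReal_le_ofReal ?_
          have h1 := mul_le_mul_of_nonneg_left (hpt s hs.1) hq0.le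
          unfold gw
          rw [← exp_add]
          refine exp_le_exp.2 ?_
          have h2 : A * u ^ (2 : ℕ) * 1 ≤ A * u ^ (2 : ℕ) * (s / u) := by
            apply mul_le_mul_of_nonneg_left _ hQ.le
            rw [le_div_iff₀ hu0, one_mul]
            exact hs.1.le
          nlinarith only [hq0, h1, h2]
      _ = ENNReal.ofReal (∫ s in Ioc u (u + π), exp (-(q * (A * u ^ (2 : ℕ)))) * gw q (s - u)) := by
          rw [ofReal_integral_eq_lintegral_ofReal hint]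
          exact Filter.Eventually.of_forall fun s =>
            mul_nonneg (exp_pos _).le (gw_pos _ _).le
      _ ≤ _ := by
          apply ENNReal.ofReal_le_ofReal
          rw [← intervalIntegral.integral_of_le (by linarith only [hpi]), intervalIntegral.integral_const_mul]
          have h2 := intervalIntegral.integral_comp_sub_right (a := u) (b := u + π) (gw q) u
          rw [h2]
          have e1 : u - u = 0 := by ring
          have e2 : u + π - u = π := by ring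
          rw [e1, e2]
          exact mul_le_mul_of_nonneg_left (half_W (by linarith only [hq]) hpi.le le_rfl) (exp_pos _).le
  have k2 := tail_gen (u1 := u + π) (E := 1) (c := u) (f := Dm m ρ θ) hq0 hQ hu0
    (by linarith : u ≤ 2 * π) (by linarith only [hpi]) (by linarith only [hq])
    (fun s hs => hpt s (by linarith only [hpi, hs]))
  refine ((lintegral_mono_set hsub).trans (lintegral_union_le _ _ _)).trans ?_
  refine (add_le_add k1 k2).trans ?_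
  have hs : 0 < √q := Real.sqrt_pos.2 hq0
  have b2 := exp_pos (-(q * (A * u ^ (2 : ℕ))))
  have c1 : exp (-(q * (A * u ^ (2 : ℕ)))) < 1 := by
    rw [← Real.exp_zero]
    exact exp_lt_exp.2 (by linarith only [hx2])
  rw [← ENNReal.ofReal_add (by positivity) (div_nonneg (by positivity) (by linarith only [c1]))]
  refine ENNReal.ofReal_le_ofReal ?_
  have b1 := small_exp hx hx2
  have e1 : exp (-(q * (A * u ^ (2 : ℕ)) * ((u + π) / u))) =
      exp (-(q * (A * u ^ (2 : ℕ)))) * exp (-(q * (A * u ^ (2 : ℕ)) * (π / u))) := by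
    rw [← exp_add]
    congr 1
    field_simp
    ring
  have e3 : √(1 / q) = 1 / √q := by rw [one_div, Real.sqrt_inv, one_div]
  rw [e1, mul_one, e3]
  calc exp (-(q * (A * u ^ (2 : ℕ)))) * (67 / 50 / √q) +
        exp (-(q * (A * u ^ (2 : ℕ)))) * exp (-(q * (A * u ^ (2 : ℕ)) * (π / u))) * (67 / 25 / √q) /
          (1 - exp (-(q * (A * u ^ (2 : ℕ)))))
      = exp (-(q * (A * u ^ (2 : ℕ)))) / √q * (67 / 50 + exp (-(q * (A * u ^ (2 : ℕ)) * (π / u))) * (67 / 25) *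
          (1 / (1 - exp (-(q * (A * u ^ (2 : ℕ))))))) := by ring
    _ ≤ exp (-(q * (A * u ^ (2 : ℕ)))) / √q * (67 / 50 + 1 / 100) :=
        mul_le_mul_of_nonneg_left (by linarith only [b1]) (by positivity)
    _ = _ := by ring

/-! ## right main zone -/

/-- `1 - cos` on `[0, u]`, `u = 2π - θ` -/
theorem cos_chord {u z β : ℝ} (hu0 : 0 < u) (hu : u ≤ 2 * π) (hβ : β * u ^ (2 : ℕ) ≤ 1 - cos u)
    (hz : 0 ≤ z) (hzu : z ≤ u) : β * z ^ (2 : ℕ) ≤ 1 - cos z := by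
  have e : ∀ x : ℝ, 1 - cos x = 2 * sin (x / 2) ^ (2 : ℕ) := by
    intro x
    have h2 := Real.cos_sq (x / 2)
    have h := Real.cos_sq' (x / 2)
    rw [show 2 * (x / 2) = x by ring] at h2
    linarith only [h2, h]
  rw [e] at hβ ⊢
  have h1 : 0 ≤ sin (u / 2) := sin_nonneg_of_nonneg_of_le_pi (by linarith only [hz, hzu]) (by linarith only [hu])
  have h2 : z / u * sin (u / 2) ≤ sin (z / 2) := by
    have hx1 : u / 2 ∈ Icc (0 : ℝ) π := ⟨by linarith only [hz, hzu], by linarith only [hu]⟩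
    have hx2 : (0 : ℝ) ∈ Icc (0 : ℝ) π := ⟨le_rfl, Real.pi_pos.le⟩
    have ha : 0 ≤ z / u := div_nonneg hz hu0.le
    have hb : 0 ≤ 1 - z / u := by rw [sub_nonneg, div_le_one hu0]; exact hzu
    have hc := strictConcaveOn_sin_Icc.concaveOn.2 hx1 hx2 ha hb (by ring)
    simp only [smul_eq_mul, mul_zero, add_zero, sin_zero] at hc
    have e2 : z / u * (u / 2) = z / 2 := by field_simp
    rwa [e2] at hc
  have h3 : (z / u * sin (u / 2)) ^ (2 : ℕ) ≤ sin (z / 2) ^ (2 : ℕ) :=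
    pow_le_pow_left₀ (mul_nonneg (div_nonneg hz hu0.le) h1) h2 2
  have h4 : β * z ^ (2 : ℕ) = β * u ^ (2 : ℕ) * (z / u) ^ (2 : ℕ) := by field_simp
  rw [h4]
  have h5 := mul_le_mul_of_nonneg_right hβ (sq_nonneg (z / u))
  linarith only [h3, h5]

theorem right_main {q m ρ θ A u T β : ℝ} (hq : 0 < q) (hm : 0 < m) (hμ : 5 / 4 ≤ m / ρ)
    (hu : u = 2 * π - θ) (hu0 : 0 < u) (hθ : 0 ≤ θ) (hT : min 1 (u / m) ≤ T) (hT1 : T ≤ 1)
    (hA0 : 0 < A) (hA : A * m ^ (2 : ℕ) ≤ (m / ρ - gam T / 2) * min 1 (m / u)) (hβ0 : 0 < β)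
    (hβ : β * u ^ (2 : ℕ) ≤ 1 - cos θ) :
    ∫⁻ s in Ioc 0 u, ENNReal.ofReal (exp (-(q * Dm m ρ θ s))) ≤
      ENNReal.ofReal (√(π / (q * (A + β))) * exp (-(q * (A * β / (A + β) * u ^ (2 : ℕ))))) := by
  refine gauss_two hq hA0 hβ0 measurableSet_Ioc fun s hs => ?_
  rw [Dm_eq]
  have a2 := Qm_right hm hμ hu0 hT hT1 hA0.le hA hs.1.le hs.2
  have a3 : 1 ≤ exp (pm m s) := Real.one_le_exp (pm_nonneg hm hs.1.le)
  have a4 : θ + s = 2 * π - (u - s) := by rw [hu]; ring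
  have a5 : cos θ = cos u := by rw [hu, cos_two_pi_sub]
  rw [a4, cos_two_pi_sub]
  rw [a5] at hβ
  have a6 := cos_chord (z := u - s) hu0 (by linarith only [hu, hθ]) hβ (by linarith only [hs.2]) (by linarith only [hs.1])
  have a7 := cos_le_one (u - s)
  have a8 := mul_le_mul_of_nonneg_right a3 (by linarith : 0 ≤ 1 - cos (u - s))
  have e1 : (s - u) ^ (2 : ℕ) = (u - s) ^ (2 : ℕ) := by ring
  rw [e1]
  linarith only [a2, a6, a8]

/-- right main zone with the window `11/25` -/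
theorem right_split {q m ρ θ A u T : ℝ} (hq : 0 < q) (hm : 0 < m) (hμ : 5 / 4 ≤ m / ρ)
    (hu : u = 2 * π - θ) (hu0 : 0 < u) (hθ : 6 / 5 ≤ θ) (hT : min 1 (u / m) ≤ T) (hT1 : T ≤ 1)
    (hA0 : 0 < A) (hA : A * m ^ (2 : ℕ) ≤ (m / ρ - gam T / 2) * min 1 (m / u)) :
    ∫⁻ s in Ioc 0 u, ENNReal.ofReal (exp (-(q * Dm m ρ θ s))) ≤
      ENNReal.ofReal (√(π / (q * (A + 11 / 25))) * exp (-(q * (A * (11 / 25) / (A + 11 / 25) * u ^ (2 : ℕ)))) +
        √(π / (q * A)) / 2 * exp (-(q * (396 / 625)))) := by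
  have hpt : ∀ s ∈ Ioc 0 u, A * s ^ (2 : ℕ) + (1 - cos (u - s)) ≤ Dm m ρ θ s := by
    intro s hs
    rw [Dm_eq]
    have a2 := Qm_right hm hμ hu0 hT hT1 hA0.le hA hs.1.le hs.2
    have a3 : 1 ≤ exp (pm m s) := Real.one_le_exp (pm_nonneg hm hs.1.le)
    have a4 : θ + s = 2 * π - (u - s) := by rw [hu]; ring
    rw [a4, cos_two_pi_sub]
    have a7 := cos_le_one (u - s)
    have a8 := mul_le_mul_of_nonneg_right a3 (by linarith : 0 ≤ 1 - cos (u - s))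
    linarith only [a2, a8]
  have hsub : Ioc 0 u ⊆ (Ioc 0 u ∩ Ici (u - 6 / 5)) ∪ (Ioc 0 u ∩ Iio (u - 6 / 5)) := by
    intro s hs
    rcases le_or_gt (u - 6 / 5) s with h | h
    · exact Or.inl ⟨hs, h⟩
    · exact Or.inr ⟨hs, h⟩
  have k1 := gauss_two (t := u) (f := Dm m ρ θ) hq hA0 (by norm_num : (0 : ℝ) < 11 / 25)
    (measurableSet_Ioc.inter measurableSet_Ici) (S := Ioc 0 u ∩ Ici (u - 6 / 5)) (by
      intro s hs
      refine le_trans ?_ (hpt s hs.1)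
      have h1 := cos_split_small (u := u - s) (by
        have := hs.2
        have := hs.1.2
        simp only [mem_Ici] at *
        rw [abs_le]
        constructor <;> linarith)
      have e1 : (s - u) ^ (2 : ℕ) = (u - s) ^ (2 : ℕ) := by ring
      rw [e1]
      linarith only [h1])
  have k2 := gauss_half' (c := 396 / 625) (f := Dm m ρ θ) hq hA0
    (measurableSet_Ioc.inter measurableSet_Iio) (S := Ioc 0 u ∩ Iio (u - 6 / 5))
    (fun s hs => hs.1.1.le) (by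
      intro s hs
      refine le_trans ?_ (hpt s hs.1)
      have h0 := hs.1.1
      have h0' := hs.2
      simp only [mem_Iio] at h0'
      have h1 : 396 / 625 ≤ 1 - cos (u - s) := by
        rcases le_total (u - s) π with h | h
        · have := cos_split_large (u := u - s) (by linarith only [h0']) h
          norm_num at this ⊢
          linarith only [this]
        · have := cos_split_large (u := 2 * π - (u - s)) (by linarith only [hu, hθ, h0]) (by linarith only [h])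
          rw [cos_two_pi_sub] at this
          norm_num at this ⊢
          linarith only [this]
      linarith only [h1])
  refine ((lintegral_mono_set hsub).trans (lintegral_union_le _ _ _)).trans ?_
  refine (add_le_add k1 k2).trans ?_
  rw [← ENNReal.ofReal_add (by positivity) (by positivity)]

end SokamCl

end

/-! ### Lib_MP_af4de1_v3.ClC -/

section
namespace SokamCen
end SokamCen
namespace SokamFA
end SokamFA
namespace SokamV3
end SokamV3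
/-!
# Far waves with `Γ ≥ 10`, III: closed forms in `p = ρ/√R`, `T = θ/m`, `V = r θ²/R`
-/

set_option autoImplicit false

namespace SokamCl

open Real SokamCen SokamFA SokamV3 MeasureTheory Set

/-- real parameters of one wave -/
structure Pt where
  /-- `ρ/√R` -/
  p : ℝ
  /-- `θ/m` -/
  T : ℝ
  /-- the angle -/
  θ : ℝ
  /-- `2π - θ` -/
  u : ℝ
  /-- `r θ²/R` -/
  V : ℝ
  /-- tangent point -/
  σ : ℝ
  /-- clip -/
  cl : ℝ
  /-- right coefficient -/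
  A2 : ℝ

noncomputable def N0 (p : ℝ) : ℝ := 23 / 20 * (1 + 16 / 25 * (1 - p ^ (2 : ℕ)))
noncomputable def bt (θ : ℝ) : ℝ := 1 / (2 + 1487 / 5000 * θ ^ (2 : ℕ))
noncomputable def al (x : Pt) : ℝ := (8 / 5 - 16 / 25 * x.p) * x.cl
noncomputable def Bm (x : Pt) : ℝ := bt x.θ * Lq x.σ x.T
noncomputable def Zm (x : Pt) : ℝ := 2 * x.p / al x + (1 - x.p ^ (2 : ℕ)) / Bm x
noncomputable def Z3 (x : Pt) : ℝ := (x.θ / x.u) ^ (2 : ℕ) * (2 * x.p / x.A2) + (1 - x.p ^ (2 : ℕ)) / bt x.θ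
noncomputable def Zp (x : Pt) : ℝ := 2 * x.p / x.A2 + (1 - x.p ^ (2 : ℕ)) * (25 / 11)

/-- main -/
noncomputable def g1 (x : Pt) (κ : ℝ) : ℝ :=
  √(N0 x.p / (κ * al x * Bm x * Zm x)) * exp (-(κ * x.V * (tr x.σ x.T ^ (2 : ℕ) / Zm x)))
/-- left tail -/
noncomputable def g2 (x : Pt) (κ : ℝ) : ℝ :=
  √(N0 x.p * exp 1 / (2 * π * κ * x.p)) * (141 / 50) *
    exp (-(κ * x.V * (tr x.σ x.T ^ (2 : ℕ) * al x / (2 * x.p))))
/-- right main -/
noncomputable def g3 (x : Pt) (κ : ℝ) : ℝ :=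
  √(N0 x.p / (κ * x.A2 * bt x.θ * Z3 x)) * exp (-(κ * x.V / Z3 x))
/-- right tail -/
noncomputable def g4 (x : Pt) (κ : ℝ) : ℝ :=
  √(N0 x.p / (2 * π * κ * x.p)) * (141 / 50) * exp (-(κ * x.V * ((x.u / x.θ) ^ (2 : ℕ) * x.A2 / (2 * x.p))))
/-- right main, window form -/
noncomputable def g3h (x : Pt) (κ : ℝ) : ℝ :=
  √(N0 x.p / (κ * x.A2 * (11 / 25) * Zp x)) * exp (-(κ * x.V / ((x.θ / x.u) ^ (2 : ℕ) * Zp x))) +
    √(N0 x.p / (κ * (1 - x.p ^ (2 : ℕ)) * x.A2)) / 2 *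
      exp (-(κ * (396 / 625) * (x.V / (x.θ ^ (2 : ℕ) * (1 - x.p ^ (2 : ℕ))))))
/-- right tail, sharp form -/
noncomputable def g4h (x : Pt) (κ : ℝ) : ℝ :=
  √(N0 x.p / (2 * π * κ * x.p)) * (27 / 20) * exp (-(κ * x.V * ((x.u / x.θ) ^ (2 : ℕ) * x.A2 / (2 * x.p))))

/-- the geometry behind the parameters -/
structure Geo (r δ θ : ℝ) (x : Pt) : Prop where
  r0 : 499 / 10 ≤ r
  d0 : 0 < δ
  hθ : x.θ = θ
  th0 : 0 < θ
  thπ : θ ≤ π
  hp : x.p = r * δ / √(1 + (r * δ) ^ (2 : ℕ))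
  hT : x.T = θ / mm (r * δ)
  hu : x.u = 2 * π - θ
  hV : x.V = r * θ ^ (2 : ℕ) / RR r δ
  s0 : 0 ≤ x.σ
  s1 : x.σ ≤ 1
  c0 : 0 < x.cl
  c1 : x.cl ≤ 1
  cT : x.cl * x.T ≤ 1
  a0 : 0 < x.A2
  a1 : x.A2 ≤ (8 / 5 - 16 / 25 * gam (min 1 (x.u / mm (r * δ))) * x.p) * min 1 (mm (r * δ) / x.u)

/-- prefactor without level -/
noncomputable def K0 (r δ : ℝ) : ℝ := √(r / (2 * π * (r * δ))) * √(23 / 20 * √(RR r δ)) *
  √(1 + 1 / mm (r * δ) ^ (2 : ℕ))

section geo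

variable {r δ θ : ℝ} {x : Pt}

theorem Geo.rho (g : Geo r δ θ x) : 0 < r * δ := mul_pos (by linarith only [g.r0]) g.d0

theorem Geo.sq (g : Geo r δ θ x) : 0 < √(1 + (r * δ) ^ (2 : ℕ)) := Real.sqrt_pos.2 (by positivity)

theorem Geo.mpos (g : Geo r δ θ x) : 0 < mm (r * δ) := by
  unfold mm
  have := g.sq
  positivity

theorem Geo.p0 (g : Geo r δ θ x) : 0 < x.p := by
  rw [g.hp]
  exact div_pos g.rho g.sq

theorem Geo.R (g : Geo r δ θ x) : (1 - x.p ^ (2 : ℕ)) * (1 + (r * δ) ^ (2 : ℕ)) = 1 := by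
  have h1 := g.sq
  have h2 : √(1 + (r * δ) ^ (2 : ℕ)) ^ (2 : ℕ) = 1 + (r * δ) ^ (2 : ℕ) := Real.sq_sqrt (by positivity)
  rw [g.hp, div_pow, h2]
  field_simp
  ring

theorem Geo.p1 (g : Geo r δ θ x) : 0 < 1 - x.p ^ (2 : ℕ) := by
  have h1 := g.R
  have h2 : 0 < 1 + (r * δ) ^ (2 : ℕ) := by positivity
  by_contra h
  push Not at h
  nlinarith only [h1, h]

theorem Geo.p1' (g : Geo r δ θ x) : x.p < 1 := by
  have := g.p1
  have := g.p0
  nlinarith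

theorem Geo.m2 (g : Geo r δ θ x) : (1 - x.p ^ (2 : ℕ)) * mm (r * δ) ^ (2 : ℕ) = 25 / 16 := by
  have h1 := g.R
  have h2 : √(1 + (r * δ) ^ (2 : ℕ)) ^ (2 : ℕ) = 1 + (r * δ) ^ (2 : ℕ) := Real.sq_sqrt (by positivity)
  unfold mm
  rw [mul_pow, h2]
  linear_combination (25 / 16) * h1

theorem Geo.mu (g : Geo r δ θ x) : mm (r * δ) / (r * δ) = 5 / (4 * x.p) := by
  have h1 := g.sq
  have h2 := g.rho
  rw [g.hp]
  unfold mm
  field_simp

theorem Geo.mu' (g : Geo r δ θ x) : 5 / 4 ≤ mm (r * δ) / (r * δ) := by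
  rw [g.mu, div_le_div_iff₀ (by norm_num) (by have := g.p0; positivity)]
  have := g.p1'
  linarith only [this]

theorem Geo.al0 (g : Geo r δ θ x) : 0 < al x := by
  unfold al
  have := g.p1'
  have := g.c0
  have : 0 < 8 / 5 - 16 / 25 * x.p := by linarith
  positivity

/-- left coefficient -/
noncomputable def Ale (x : Pt) : ℝ := al x * (1 - x.p ^ (2 : ℕ)) / (2 * x.p)
/-- right coefficient -/
noncomputable def Ari (x : Pt) : ℝ := x.A2 * (1 - x.p ^ (2 : ℕ)) / (2 * x.p)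

theorem Geo.Ale0 (g : Geo r δ θ x) : 0 < Ale x := by
  unfold Ale
  have := g.al0
  have := g.p0
  have := g.p1
  positivity

theorem Geo.Ari0 (g : Geo r δ θ x) : 0 < Ari x := by
  unfold Ari
  have := g.a0
  have := g.p0
  have := g.p1
  positivity

theorem Geo.hA (g : Geo r δ θ x) : Ale x * mm (r * δ) ^ (2 : ℕ) ≤
    (mm (r * δ) / (r * δ) - 1 / 2) * min 1 (mm (r * δ) / θ) := by
  have hp := g.p0
  have e : Ale x * mm (r * δ) ^ (2 : ℕ) = (5 / (4 * x.p) - 1 / 2) * x.cl := by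
    have h1 := g.m2
    unfold Ale al
    have e1 : (8 / 5 - 16 / 25 * x.p) * x.cl * (1 - x.p ^ (2 : ℕ)) / (2 * x.p) * mm (r * δ) ^ (2 : ℕ) =
        (8 / 5 - 16 / 25 * x.p) * x.cl / (2 * x.p) * ((1 - x.p ^ (2 : ℕ)) * mm (r * δ) ^ (2 : ℕ)) := by ring
    rw [e1, h1]
    field_simp
    ring
  rw [e, g.mu]
  have h2 : x.cl ≤ min 1 (mm (r * δ) / θ) := by
    refine le_min g.c1 ?_
    rw [le_div_iff₀ g.th0]
    have h3 := g.cT
    rw [g.hT, ← mul_div_assoc, div_le_one g.mpos] at h3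
    exact h3
  refine mul_le_mul_of_nonneg_left h2 ?_
  rw [← g.mu]
  linarith only [g.mu']

theorem Geo.u0 (g : Geo r δ θ x) : 0 < x.u := by
  rw [g.hu]
  linarith only [g.thπ, Real.pi_pos]

theorem Geo.hAr (g : Geo r δ θ x) : Ari x * mm (r * δ) ^ (2 : ℕ) ≤
    (mm (r * δ) / (r * δ) - gam (min 1 (x.u / mm (r * δ))) / 2) * min 1 (mm (r * δ) / x.u) := by
  have hp := g.p0
  have e : Ari x * mm (r * δ) ^ (2 : ℕ) = x.A2 * (25 / (32 * x.p)) := by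
    have h1 := g.m2
    unfold Ari
    have e1 : x.A2 * (1 - x.p ^ (2 : ℕ)) / (2 * x.p) * mm (r * δ) ^ (2 : ℕ) =
        x.A2 / (2 * x.p) * ((1 - x.p ^ (2 : ℕ)) * mm (r * δ) ^ (2 : ℕ)) := by ring
    rw [e1, h1]
    field_simp
    ring
  rw [e, g.mu]
  have h1 := mul_le_mul_of_nonneg_right g.a1 (by positivity : 0 ≤ 25 / (32 * x.p))
  refine h1.trans (le_of_eq ?_)
  field_simp
  ring

theorem Geo.cos (g : Geo r δ θ x) : ∀ z : ℝ, 0 ≤ z → z ≤ θ → bt θ * z ^ (2 : ℕ) ≤ 1 - Real.cos z := by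
  intro z h0 h1
  have h2 := cos_pade h0 (h1.trans g.thπ)
  have h3 : 0 < 2 + 1487 / 5000 * z ^ (2 : ℕ) := by positivity
  have h4 : bt θ ≤ bt z := by
    unfold bt
    apply one_div_le_one_div_of_le h3
    have := pow_le_pow_left₀ h0 h1 2
    linarith only [this]
  have h5 : bt z * z ^ (2 : ℕ) ≤ 1 - Real.cos z := by
    unfold bt
    rw [one_div, inv_mul_le_iff₀ h3]
    linarith only [h2]
  have := mul_le_mul_of_nonneg_right h4 (sq_nonneg z)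
  linarith only [h5, this]

theorem bt_pos (θ : ℝ) : 0 < bt θ := by
  unfold bt
  positivity

theorem Geo.T0 (g : Geo r δ θ x) : 0 < x.T := by
  rw [g.hT]
  exact div_pos g.th0 g.mpos

theorem Geo.Bm0 (g : Geo r δ θ x) : 0 < Bm x := by
  unfold Bm
  exact mul_pos (bt_pos _) (Lq_pos g.s1 g.T0.le)

theorem Geo.K0pos (g : Geo r δ θ x) : 0 < K0 r δ := by
  unfold K0 RR
  have h1 := g.rho
  have h2 := Real.pi_pos
  have h3 : 0 < r := by linarith only [g.r0]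
  have h4 := g.mpos
  positivity

/-- all prefactors -/
theorem Geo.K0_sqrt (g : Geo r δ θ x) {Y κ : ℝ} (hκ : 0 < κ) :
    K0 r δ * √(Y / (κ * r)) = √(N0 x.p * Y / (2 * π * κ * x.p)) := by
  have h1 := g.rho
  have h2 := Real.pi_pos
  have h3 : 0 < r := by linarith only [g.r0]
  have h4 := g.mpos
  have h5 := g.sq
  have hp := g.p0
  unfold K0
  rw [← Real.sqrt_mul (by positivity), ← Real.sqrt_mul (by unfold RR; positivity),
    ← Real.sqrt_mul (by unfold RR; positivity)]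
  congr 1
  obtain ⟨S, hS⟩ : ∃ S, S = √(1 + (r * δ) ^ (2 : ℕ)) := ⟨_, rfl⟩
  have hS0 : 0 < S := by rw [hS]; exact h5
  have e1 : √(RR r δ) = S := by rw [hS]; rfl
  have e2 : r * δ = x.p * S := by
    rw [g.hp, ← hS]
    field_simp
  have e3 : (1 - x.p ^ (2 : ℕ)) * S ^ (2 : ℕ) = 1 := by
    have := g.R
    rw [hS, Real.sq_sqrt (by positivity)]
    exact this
  have e4 : mm (r * δ) = 5 / 4 * S := by unfold mm; rw [← hS]
  rw [e1, e4, e2]
  have e5 : 1 - x.p ^ (2 : ℕ) = 1 / S ^ (2 : ℕ) := by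
    field_simp
    linarith only [e3]
  unfold N0
  rw [e5]
  field_simp
  ring

end geo

/-! ## a zone from two integrals -/

theorem zone_mk {r m ρ θ C E J J' : ℝ} {S : Set ℝ} (hr : 0 < r) (hC : 0 ≤ C)
    (hE0 : 0 ≤ E) (hS : MeasurableSet S)
    (hW : ∀ s ∈ S, Wm m θ 1 s ≤ 2 * C * Dm m ρ θ s) (hE : ∀ s ∈ S, exp (pm m s) ≤ E)
    (hJ : ∫⁻ s in S, ENNReal.ofReal (exp (-(r * Dm m ρ θ s))) ≤ ENNReal.ofReal J)
    (hJ' : ∫⁻ s in S, ENNReal.ofReal (exp (-(7 / 8 * r * Dm m ρ θ s))) ≤ ENNReal.ofReal J') :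
    Zone r m ρ θ 1 S J (16 * C / (exp 1 * r) * J') (E * J) := by
  have hc : 0 ≤ 16 * C / (exp 1 * r) := by
    have := exp_pos (1 : ℝ)
    positivity
  refine ⟨hJ, ?_, ?_⟩
  · calc ∫⁻ s in S, ENNReal.ofReal (Wm m θ 1 s * exp (-(r * Dm m ρ θ s)))
        ≤ ∫⁻ s in S, ENNReal.ofReal (16 * C / (exp 1 * r)) *
            ENNReal.ofReal (exp (-(7 / 8 * r * Dm m ρ θ s))) := by
          refine setLIntegral_mono' hS fun s hs => ?_
          rw [← ENNReal.ofReal_mul hc]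
          exact ENNReal.ofReal_le_ofReal (trick hr hC (hW s hs))
      _ = ENNReal.ofReal (16 * C / (exp 1 * r)) *
            ∫⁻ s in S, ENNReal.ofReal (exp (-(7 / 8 * r * Dm m ρ θ s))) :=
          lintegral_const_mul' _ _ ENNReal.ofReal_ne_top
      _ ≤ _ := by
          rw [ENNReal.ofReal_mul hc]
          exact mul_le_mul_right hJ' _
  · calc ∫⁻ s in S, ENNReal.ofReal (exp (pm m s) * exp (-(r * Dm m ρ θ s)))
        ≤ ∫⁻ s in S, ENNReal.ofReal E * ENNReal.ofReal (exp (-(r * Dm m ρ θ s))) := by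
          refine setLIntegral_mono' hS fun s hs => ?_
          rw [← ENNReal.ofReal_mul hE0]
          exact ENNReal.ofReal_le_ofReal (mul_le_mul_of_nonneg_right (hE s hs) (exp_pos _).le)
      _ = ENNReal.ofReal E * ∫⁻ s in S, ENNReal.ofReal (exp (-(r * Dm m ρ θ s))) :=
          lintegral_const_mul' _ _ ENNReal.ofReal_ne_top
      _ ≤ _ := by
          rw [ENNReal.ofReal_mul hE0]
          exact mul_le_mul_right hJ _

/-! ## the integrals in normalised form -/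

section norm

variable {r δ θ : ℝ} {x : Pt}

theorem Geo.G1 (g : Geo r δ θ x) {κ : ℝ} (hκ : 0 < κ) :
    ∫⁻ s in Icc (-(θ * tr x.σ (θ / mm (r * δ)))) 0,
      ENNReal.ofReal (exp (-(κ * r * Dm (mm (r * δ)) (r * δ) θ s))) ≤
      ENNReal.ofReal (g1 x κ / K0 r δ) := by
  have hr : 0 < r := by linarith only [g.r0]
  have hK := g.K0pos
  have hp := g.p0
  have hp1 := g.p1
  have hB := g.Bm0
  have hA := g.Ale0
  have ha := g.al0
  have hpi := Real.pi_pos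
  have hZ : 0 < Zm x := by
    unfold Zm
    positivity
  have key := main_int (q := κ * r) (m := mm (r * δ)) (ρ := r * δ) (θ := θ) (σ := x.σ) (A := Ale x)
    (β := bt θ) (mul_pos hκ hr) g.mpos g.mu' g.th0 g.s0 g.s1 g.Ale0 g.hA (bt_pos θ) g.cos
  refine key.trans (ENNReal.ofReal_le_ofReal (le_of_eq ?_))
  have eB : bt θ * Lq x.σ (θ / mm (r * δ)) = Bm x := by unfold Bm; rw [g.hθ, g.hT]
  rw [eB, ← g.hT]
  have eZ : 2 * x.p * (Ale x + Bm x) = al x * Bm x * Zm x := by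
    unfold Ale Zm
    field_simp
    ring
  have e1 : √(π / (κ * r * (Ale x + Bm x))) = √(N0 x.p / (κ * al x * Bm x * Zm x)) / K0 r δ := by
    rw [eq_div_iff hK.ne', mul_comm]
    have h1 : π / (κ * r * (Ale x + Bm x)) = π / (Ale x + Bm x) / (κ * r) := by
      field_simp
    rw [h1, g.K0_sqrt hκ]
    congr 1
    have h2 : κ * al x * Bm x * Zm x = κ * (2 * x.p * (Ale x + Bm x)) := by rw [eZ]; ring
    rw [h2]
    have : 0 < Ale x + Bm x := by positivity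
    field_simp
  have e2 : κ * r * (Ale x * Bm x / (Ale x + Bm x) * (θ * tr x.σ x.T) ^ (2 : ℕ)) =
      κ * x.V * (tr x.σ x.T ^ (2 : ℕ) / Zm x) := by
    have h1 : Ale x * Bm x / (Ale x + Bm x) = (1 - x.p ^ (2 : ℕ)) / Zm x := by
      have h3 : 0 < Ale x + Bm x := by positivity
      rw [div_eq_div_iff h3.ne' hZ.ne']
      have h4 : Ale x * Bm x * Zm x = Ale x * (al x * Bm x * Zm x) / al x := by field_simp
      rw [h4, ← eZ]
      unfold Ale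
      field_simp
    have h2 : x.V = r * θ ^ (2 : ℕ) * (1 - x.p ^ (2 : ℕ)) := by
      rw [g.hV]
      have h5 := g.R
      unfold RR
      rw [div_eq_iff (by positivity)]
      linear_combination (-r * θ ^ (2 : ℕ)) * h5
    rw [h1, h2]
    field_simp
  rw [e1, e2]
  unfold g1
  ring

theorem Geo.V_eq (g : Geo r δ θ x) : x.V = r * θ ^ (2 : ℕ) * (1 - x.p ^ (2 : ℕ)) := by
  rw [g.hV]
  have h5 := g.R
  unfold RR
  rw [div_eq_iff (by positivity)]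
  linear_combination (-r * θ ^ (2 : ℕ)) * h5

theorem Geo.G2 (g : Geo r δ θ x) {κ : ℝ} (hκ : 7 / 8 ≤ κ)
    (hx : 16 / 5 ≤ 7 / 8 * (x.V * (tr x.σ x.T ^ (2 : ℕ) * al x / (2 * x.p)))) :
    ∫⁻ s in Iio (-(θ * tr x.σ (θ / mm (r * δ)))),
      ENNReal.ofReal (exp (-(κ * r * Dm (mm (r * δ)) (r * δ) θ s))) ≤
      ENNReal.ofReal (g2 x κ / K0 r δ) := by
  have hr : 0 < r := by linarith only [g.r0]
  have hK := g.K0pos
  have hp := g.p0
  have hp1 := g.p1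
  have ha := g.al0
  have hpi := Real.pi_pos
  have hκ0 : 0 < κ := by linarith only [hκ]
  have e1 : κ * r * (Ale x * (θ * tr x.σ x.T) ^ (2 : ℕ)) =
      κ * x.V * (tr x.σ x.T ^ (2 : ℕ) * al x / (2 * x.p)) := by
    rw [g.V_eq]
    unfold Ale
    field_simp
  have hpos : 0 ≤ x.V * (tr x.σ x.T ^ (2 : ℕ) * al x / (2 * x.p)) := by linarith only [hx]
  have key := left_tail (q := κ * r) (m := mm (r * δ)) (ρ := r * δ) (θ := θ) (σ := x.σ)
    (A := Ale x) (by nlinarith only [hκ, g.r0]) g.mpos g.mu' g.th0 g.thπ g.s0 g.s1 g.Ale0 g.hA (by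
      rw [← g.hT, e1, mul_assoc]
      nlinarith only [hκ, hx])
  refine key.trans (ENNReal.ofReal_le_ofReal (le_of_eq ?_))
  rw [← g.hT, e1]
  have e2 : √(exp 1 / (κ * r)) = √(N0 x.p * exp 1 / (2 * π * κ * x.p)) / K0 r δ := by
    rw [eq_div_iff hK.ne', mul_comm, g.K0_sqrt hκ0]
  rw [e2]
  unfold g2
  ring

theorem Geo.G3 (g : Geo r δ θ x) {κ : ℝ} (hκ : 0 < κ) :
    ∫⁻ s in Ioc 0 x.u, ENNReal.ofReal (exp (-(κ * r * Dm (mm (r * δ)) (r * δ) θ s))) ≤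
      ENNReal.ofReal (g3 x κ / K0 r δ) := by
  have hr : 0 < r := by linarith only [g.r0]
  have hK := g.K0pos
  have hp := g.p0
  have hp1 := g.p1
  have hA := g.Ari0
  have ha := g.a0
  have hu := g.u0
  have hθ := g.th0
  have hb := bt_pos θ
  have hpi := Real.pi_pos
  have hZ : 0 < Z3 x := by
    unfold Z3
    have := bt_pos x.θ
    have h0 : 0 ≤ (x.θ / x.u) ^ (2 : ℕ) * (2 * x.p / x.A2) := by positivity
    have h1 : 0 < (1 - x.p ^ (2 : ℕ)) / bt x.θ := by positivity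
    linarith only [h0, h1]
  have hβ : 0 < bt θ * θ ^ (2 : ℕ) / x.u ^ (2 : ℕ) := by positivity
  have key := right_main (q := κ * r) (m := mm (r * δ)) (ρ := r * δ) (θ := θ) (A := Ari x)
    (u := x.u) (T := min 1 (x.u / mm (r * δ))) (β := bt θ * θ ^ (2 : ℕ) / x.u ^ (2 : ℕ))
    (mul_pos hκ hr) g.mpos g.mu' g.hu hu g.th0.le le_rfl (min_le_left _ _) hA g.hAr hβ (by
      have h1 := g.cos θ g.th0.le le_rfl
      have e : bt θ * θ ^ (2 : ℕ) / x.u ^ (2 : ℕ) * x.u ^ (2 : ℕ) = bt θ * θ ^ (2 : ℕ) := by field_simp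
      rw [e]
      exact h1)
  refine key.trans (ENNReal.ofReal_le_ofReal (le_of_eq ?_))
  obtain ⟨β, hβe⟩ : ∃ β, β = bt θ * θ ^ (2 : ℕ) / x.u ^ (2 : ℕ) := ⟨_, rfl⟩
  rw [← hβe] at hβ ⊢
  have eZ : 2 * x.p * (Ari x + β) = x.A2 * bt x.θ * Z3 x := by
    rw [hβe]
    unfold Ari Z3
    rw [g.hθ]
    field_simp
    ring
  have e1 : √(π / (κ * r * (Ari x + β))) = √(N0 x.p / (κ * x.A2 * bt x.θ * Z3 x)) / K0 r δ := by
    rw [eq_div_iff hK.ne', mul_comm]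
    have h1 : π / (κ * r * (Ari x + β)) = π / (Ari x + β) / (κ * r) := by
      field_simp
    rw [h1, g.K0_sqrt hκ]
    congr 1
    have h2 : κ * x.A2 * bt x.θ * Z3 x = κ * (2 * x.p * (Ari x + β)) := by rw [eZ]; ring
    rw [h2]
    have : 0 < Ari x + β := by positivity
    field_simp
  have e2 : κ * r * (Ari x * β / (Ari x + β) * x.u ^ (2 : ℕ)) = κ * x.V / Z3 x := by
    have h3 : 0 < Ari x + β := by positivity
    have h1 : Ari x * β / (Ari x + β) * x.u ^ (2 : ℕ) = (1 - x.p ^ (2 : ℕ)) * θ ^ (2 : ℕ) / Z3 x := by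
      rw [div_mul_eq_mul_div, div_eq_div_iff h3.ne' hZ.ne']
      have h4 : Ari x * β * x.u ^ (2 : ℕ) * Z3 x =
          Ari x * β * x.u ^ (2 : ℕ) * (x.A2 * bt x.θ * Z3 x) / (x.A2 * bt x.θ) := by
        have := bt_pos x.θ
        field_simp
      rw [h4, ← eZ, g.hθ]
      have h5 : Ari x * β * x.u ^ (2 : ℕ) = x.A2 * (1 - x.p ^ (2 : ℕ)) / (2 * x.p) * (bt θ * θ ^ (2 : ℕ)) := by
        rw [hβe]
        unfold Ari
        field_simp
      rw [h5]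
      field_simp
    rw [h1, g.V_eq]
    field_simp
  rw [e1, e2]
  unfold g3
  ring

theorem Geo.e_right (g : Geo r δ θ x) (κ : ℝ) :
    κ * r * (Ari x * x.u ^ (2 : ℕ)) = κ * x.V * ((x.u / x.θ) ^ (2 : ℕ) * x.A2 / (2 * x.p)) := by
  have hp := g.p0
  have hθ := g.th0
  rw [g.V_eq, g.hθ]
  unfold Ari
  field_simp

theorem Geo.G4 (g : Geo r δ θ x) {κ : ℝ} (hκ : 7 / 8 ≤ κ)
    (hx : 16 / 5 ≤ 7 / 8 * (x.V * ((x.u / x.θ) ^ (2 : ℕ) * x.A2 / (2 * x.p)))) :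
    ∫⁻ s in Ioi x.u, ENNReal.ofReal (exp (-(κ * r * Dm (mm (r * δ)) (r * δ) θ s))) ≤
      ENNReal.ofReal (g4 x κ / K0 r δ) := by
  have hr : 0 < r := by linarith only [g.r0]
  have hK := g.K0pos
  have hκ0 : 0 < κ := by linarith only [hκ]
  have e1 := g.e_right κ
  have hpos : 0 ≤ x.V * ((x.u / x.θ) ^ (2 : ℕ) * x.A2 / (2 * x.p)) := by linarith only [hx]
  have key := right_tail (q := κ * r) (m := mm (r * δ)) (ρ := r * δ) (θ := θ) (A := Ari x)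
    (u := x.u) (T := min 1 (x.u / mm (r * δ))) (by nlinarith only [hκ, g.r0]) g.mpos g.mu' g.hu g.u0
    g.th0.le le_rfl (min_le_left _ _) g.Ari0 g.hAr (by
      rw [e1, mul_assoc]
      nlinarith only [hκ, hx])
  refine key.trans (ENNReal.ofReal_le_ofReal (le_of_eq ?_))
  rw [e1]
  have e2 : √(1 / (κ * r)) = √(N0 x.p / (2 * π * κ * x.p)) / K0 r δ := by
    rw [eq_div_iff hK.ne', mul_comm, g.K0_sqrt hκ0, mul_one]
  rw [e2]
  unfold g4
  ring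

theorem Geo.G3h (g : Geo r δ θ x) {κ : ℝ} (hκ : 0 < κ) (hθ2 : 6 / 5 ≤ θ) :
    ∫⁻ s in Ioc 0 x.u, ENNReal.ofReal (exp (-(κ * r * Dm (mm (r * δ)) (r * δ) θ s))) ≤
      ENNReal.ofReal (g3h x κ / K0 r δ) := by
  have hr : 0 < r := by linarith only [g.r0]
  have hK := g.K0pos
  have hp := g.p0
  have hp1 := g.p1
  have hA := g.Ari0
  have ha := g.a0
  have hu := g.u0
  have hθ := g.th0
  have hpi := Real.pi_pos
  have hZ : 0 < Zp x := by
    unfold Zp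
    positivity
  have key := right_split (q := κ * r) (m := mm (r * δ)) (ρ := r * δ) (θ := θ) (A := Ari x)
    (u := x.u) (T := min 1 (x.u / mm (r * δ)))
    (mul_pos hκ hr) g.mpos g.mu' g.hu hu hθ2 le_rfl (min_le_left _ _) hA g.hAr
  refine key.trans (ENNReal.ofReal_le_ofReal (le_of_eq ?_))
  have eZ : 2 * x.p * (Ari x + 11 / 25) = x.A2 * (11 / 25) * Zp x := by
    unfold Ari Zp
    field_simp
    ring
  have e1 : √(π / (κ * r * (Ari x + 11 / 25))) =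
      √(N0 x.p / (κ * x.A2 * (11 / 25) * Zp x)) / K0 r δ := by
    rw [eq_div_iff hK.ne', mul_comm]
    have h1 : π / (κ * r * (Ari x + 11 / 25)) = π / (Ari x + 11 / 25) / (κ * r) := by
      field_simp
    rw [h1, g.K0_sqrt hκ]
    congr 1
    have h2 : κ * x.A2 * (11 / 25) * Zp x = κ * (2 * x.p * (Ari x + 11 / 25)) := by rw [eZ]; ring
    rw [h2]
    have : 0 < Ari x + 11 / 25 := by positivity
    field_simp
  have e2 : κ * r * (Ari x * (11 / 25) / (Ari x + 11 / 25) * x.u ^ (2 : ℕ)) =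
      κ * x.V / ((x.θ / x.u) ^ (2 : ℕ) * Zp x) := by
    have h3 : 0 < Ari x + 11 / 25 := by positivity
    have h1 : Ari x * (11 / 25) / (Ari x + 11 / 25) = (1 - x.p ^ (2 : ℕ)) / Zp x := by
      rw [div_eq_div_iff h3.ne' hZ.ne']
      have h4 : Ari x * (11 / 25) * Zp x = Ari x * (x.A2 * (11 / 25) * Zp x) / x.A2 := by field_simp
      rw [h4, ← eZ]
      unfold Ari
      field_simp
    rw [h1, g.V_eq, g.hθ]
    field_simp
  have e3 : √(π / (κ * r * Ari x)) = √(N0 x.p / (κ * (1 - x.p ^ (2 : ℕ)) * x.A2)) / K0 r δ := by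
    rw [eq_div_iff hK.ne', mul_comm]
    have h1 : π / (κ * r * Ari x) = π / Ari x / (κ * r) := by
      field_simp
    rw [h1, g.K0_sqrt hκ]
    congr 1
    unfold Ari
    field_simp
  have e4 : κ * r * (396 / 625) = κ * (396 / 625) * (x.V / (x.θ ^ (2 : ℕ) * (1 - x.p ^ (2 : ℕ)))) := by
    rw [g.V_eq, g.hθ]
    field_simp
  rw [e1, e2, e3, e4]
  unfold g3h
  ring

theorem Geo.G4h (g : Geo r δ θ x) {κ : ℝ} (hκ : 7 / 8 ≤ κ) (hθ2 : 9 / 10 * π ≤ θ)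
    (hx : 32 / 5 ≤ 7 / 8 * (x.V * ((x.u / x.θ) ^ (2 : ℕ) * x.A2 / (2 * x.p)))) :
    ∫⁻ s in Ioi x.u, ENNReal.ofReal (exp (-(κ * r * Dm (mm (r * δ)) (r * δ) θ s))) ≤
      ENNReal.ofReal (g4h x κ / K0 r δ) := by
  have hr : 0 < r := by linarith only [g.r0]
  have hK := g.K0pos
  have hu := g.u0
  have hκ0 : 0 < κ := by linarith only [hκ]
  have e1 := g.e_right κ
  have hpos : 0 ≤ x.V * ((x.u / x.θ) ^ (2 : ℕ) * x.A2 / (2 * x.p)) := by linarith only [hx]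
  have h32 : 32 / 5 ≤ κ * r * (Ari x * x.u ^ (2 : ℕ)) := by
    rw [e1, mul_assoc]
    nlinarith only [hκ, hx]
  have hpi3 := Real.pi_pos
  have hpu : 10 / 11 ≤ π / x.u := by
    rw [le_div_iff₀ hu, g.hu]
    linarith only [hθ2]
  have key := right_tail_half (q := κ * r) (m := mm (r * δ)) (ρ := r * δ) (θ := θ) (A := Ari x)
    (u := x.u) (T := min 1 (x.u / mm (r * δ))) (by nlinarith only [hκ, g.r0]) g.mpos g.mu' g.hu g.u0
    g.th0.le le_rfl (min_le_left _ _) g.Ari0 g.hAr (by nlinarith only [h32, hpu]) (by linarith only [h32])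
  refine key.trans (ENNReal.ofReal_le_ofReal (le_of_eq ?_))
  rw [e1]
  have e2 : √(1 / (κ * r)) = √(N0 x.p / (2 * π * κ * x.p)) / K0 r δ := by
    rw [eq_div_iff hK.ne', mul_comm, g.K0_sqrt hκ0, mul_one]
  rw [e2]
  unfold g4h
  ring

end norm

end SokamCl

end

/-! ### Lib_MP_af4de1_v3.ClE -/

section
/-!
# Far waves with `Γ ≥ 10`, V: bounds of the closed forms on a box
-/

set_option autoImplicit false

namespace SokamCl

open Real

/-- `√(M/Z) e^(-c/Z)` increases in `Z` while `c/Z ≥ 1/2` -/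
theorem sqrt_exp_mono {M Z Z1 c : ℝ} (hM : 0 ≤ M) (hZ : 0 < Z) (hZ1 : Z ≤ Z1)
    (hc : 1 / 2 ≤ c / Z1) : √(M / Z) * exp (-(c / Z)) ≤ √(M / Z1) * exp (-(c / Z1)) := by
  have hZ1' : 0 < Z1 := hZ.trans_le hZ1
  obtain ⟨x, hx⟩ : ∃ x, x = Z1 / Z := ⟨_, rfl⟩
  have hx1 : 1 ≤ x := by rw [hx, le_div_iff₀ hZ, one_mul]; exact hZ1
  have e1 : M / Z = M / Z1 * x := by rw [hx]; field_simp
  have e2 : c / Z = c / Z1 + c / Z1 * (x - 1) := by rw [hx]; field_simp; ring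
  rw [e1, Real.sqrt_mul (by (clear * - hM hZ1'; positivity)), e2, neg_add, Real.exp_add]
  have h1 : √x * exp (-(c / Z1 * (x - 1))) ≤ 1 := by
    have h2 : √x ≤ exp (c / Z1 * (x - 1)) := by
      rw [Real.sqrt_le_left (exp_pos _).le, ← Real.exp_nat_mul]
      have h3 := Real.add_one_le_exp (((2 : ℕ) : ℝ) * (c / Z1 * (x - 1)))
      have h4 : x - 1 ≤ ((2 : ℕ) : ℝ) * (c / Z1 * (x - 1)) := by
        push_cast
        nlinarith only [hc, hx1]
      linarith only [h3, h4]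
    have h5 := exp_pos (-(c / Z1 * (x - 1)))
    calc √x * exp (-(c / Z1 * (x - 1)))
        ≤ exp (c / Z1 * (x - 1)) * exp (-(c / Z1 * (x - 1))) :=
          mul_le_mul_of_nonneg_right h2 h5.le
      _ = 1 := by rw [← Real.exp_add, add_neg_cancel, Real.exp_zero]
  have h6 := exp_pos (-(c / Z1))
  have h7 := Real.sqrt_nonneg (M / Z1)
  calc √(M / Z1) * √x * (exp (-(c / Z1)) * exp (-(c / Z1 * (x - 1))))
      = √(M / Z1) * exp (-(c / Z1)) * (√x * exp (-(c / Z1 * (x - 1)))) := by ring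
    _ ≤ √(M / Z1) * exp (-(c / Z1)) * 1 := mul_le_mul_of_nonneg_left h1 (by (clear * -; positivity))
    _ = _ := mul_one _

/-- `φ(p) = p/(8/5 - 16/25 p)` -/
noncomputable def ph (p : ℝ) : ℝ := p / (8 / 5 - 16 / 25 * p)

/-- concave-convex bound on an interval -/
theorem chord_bd {a b p p0 p1 M : ℝ} (ha : 0 ≤ a) (hb : 0 ≤ b) (h0 : p0 ≤ p) (h1 : p ≤ p1)
    (hp1 : p1 ≤ 1)
    (hM0 : a * (2 * ph p0) + b * (2 * (1 - p0 ^ (2 : ℕ)) + (p1 - p0) ^ (2 : ℕ) / 2) ≤ M)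
    (hM1 : a * (2 * ph p1) + b * (2 * (1 - p1 ^ (2 : ℕ)) + (p1 - p0) ^ (2 : ℕ) / 2) ≤ M) :
    a * (2 * ph p) + b * (2 * (1 - p ^ (2 : ℕ))) ≤ M := by
  have key : ∀ q : ℝ, q ≤ 1 → ph q = 125 / 16 / (5 - 2 * q) - 25 / 16 := by
    intro q hq
    unfold ph
    have h5 : 0 < 5 - 2 * q := by linarith only [hq]
    have h6 : 0 < 8 / 5 - 16 / 25 * q := by linarith only [h5]
    rw [div_sub' h5.ne', div_eq_div_iff h6.ne' h5.ne']
    ring
  have hD0 : 0 < 5 - 2 * p0 := by linarith only [h0, h1, hp1]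
  have hD1 : 0 < 5 - 2 * p1 := by linarith only [hp1]
  have hD : 0 < 5 - 2 * p := by linarith only [h1, hp1]
  -- the linear majorant of `ph`
  have hlin : ph p ≤ 125 / 16 * ((5 - 2 * p0) + (5 - 2 * p1) - (5 - 2 * p)) /
      ((5 - 2 * p0) * (5 - 2 * p1)) - 25 / 16 := by
    rw [key p (by linarith only [h1, hp1])]
    have : 125 / 16 / (5 - 2 * p) ≤ 125 / 16 * ((5 - 2 * p0) + (5 - 2 * p1) - (5 - 2 * p)) /
      ((5 - 2 * p0) * (5 - 2 * p1)) := by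
      rw [div_le_div_iff₀ hD (by (clear * - hD0 hD1; positivity))]
      linarith only [mul_nonneg (sub_nonneg.2 h0) (sub_nonneg.2 h1)]
    linarith only [this]
  have e0 : ph p0 = 125 / 16 * ((5 - 2 * p0) + (5 - 2 * p1) - (5 - 2 * p0)) /
      ((5 - 2 * p0) * (5 - 2 * p1)) - 25 / 16 := by
    rw [key p0 (by linarith only [h0, h1, hp1])]
    field_simp
    ring
  have e1 : ph p1 = 125 / 16 * ((5 - 2 * p0) + (5 - 2 * p1) - (5 - 2 * p1)) /
      ((5 - 2 * p0) * (5 - 2 * p1)) - 25 / 16 := by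
    rw [key p1 hp1]
    field_simp
    ring
  have hq : 1 - p ^ (2 : ℕ) ≤ 1 - (p0 + p1) * p + p0 * p1 + (p1 - p0) ^ (2 : ℕ) / 4 := by
    linarith only [sq_nonneg (2 * p - (p0 + p1))]
  -- linear function `Λ`
  obtain ⟨c1, hc1⟩ : ∃ c1, c1 = 125 / 16 / ((5 - 2 * p0) * (5 - 2 * p1)) := ⟨_, rfl⟩
  have f : ∀ q : ℝ, 125 / 16 * ((5 - 2 * p0) + (5 - 2 * p1) - (5 - 2 * q)) /
      ((5 - 2 * p0) * (5 - 2 * p1)) = c1 * (5 - 2 * p0 - 2 * p1 + 2 * q) := by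
    intro q
    rw [hc1]
    ring
  rw [f] at hlin e0 e1
  have hle : a * (2 * ph p) + b * (2 * (1 - p ^ (2 : ℕ))) ≤
      a * (2 * (c1 * (5 - 2 * p0 - 2 * p1 + 2 * p) - 25 / 16)) +
        b * (2 * (1 - (p0 + p1) * p + p0 * p1 + (p1 - p0) ^ (2 : ℕ) / 4)) := by
    have h3 := mul_le_mul_of_nonneg_left hlin ha
    have h4 := mul_le_mul_of_nonneg_left hq hb
    linarith only [h3, h4]
  refine hle.trans ?_
  rw [e0] at hM0
  rw [e1] at hM1
  -- affine in `p`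
  have g0 : a * (2 * (c1 * (5 - 2 * p0 - 2 * p1 + 2 * p0) - 25 / 16)) +
        b * (2 * (1 - (p0 + p1) * p0 + p0 * p1 + (p1 - p0) ^ (2 : ℕ) / 4)) ≤ M := by
    linarith only [hM0]
  have g1 : a * (2 * (c1 * (5 - 2 * p0 - 2 * p1 + 2 * p1) - 25 / 16)) +
        b * (2 * (1 - (p0 + p1) * p1 + p0 * p1 + (p1 - p0) ^ (2 : ℕ) / 4)) ≤ M := by
    linarith only [hM1]
  obtain ⟨m1, hm1⟩ : ∃ m1, m1 = a * (2 * (c1 * 2)) - b * (2 * (p0 + p1)) := ⟨_, rfl⟩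
  obtain ⟨m0, hm0⟩ : ∃ m0, m0 = a * (2 * (c1 * (5 - 2 * p0 - 2 * p1) - 25 / 16)) +
        b * (2 * (1 + p0 * p1 + (p1 - p0) ^ (2 : ℕ) / 4)) := ⟨_, rfl⟩
  have k : ∀ q : ℝ, a * (2 * (c1 * (5 - 2 * p0 - 2 * p1 + 2 * q) - 25 / 16)) +
        b * (2 * (1 - (p0 + p1) * q + p0 * p1 + (p1 - p0) ^ (2 : ℕ) / 4)) = m0 + m1 * q := by
    intro q
    rw [hm0, hm1]
    ring
  rw [k] at g0 g1 ⊢
  rcases le_total 0 m1 with h | h
  · have := mul_le_mul_of_nonneg_left h1 h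
    linarith only [g1, this]
  · have := mul_le_mul_of_nonpos_left h0 h
    linarith only [g0, this]

/-- the level and the rate -/
theorem level_bd {V V0 c L L' : ℝ} (h0 : 0 ≤ V0) (hV : V0 ≤ V) (hL : L' ≤ L) (hc : L ≤ c) :
    exp (L' * V) * exp (-(V * c)) ≤ exp (-(V0 * (c - L))) := by
  rw [← Real.exp_add]
  refine exp_le_exp.2 ?_
  have h1 : 0 ≤ V := h0.trans hV
  have h2 := mul_le_mul_of_nonneg_left hL h1
  have h3 := mul_le_mul_of_nonneg_right hV (sub_nonneg.2 hc)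
  linarith only [h2, h3]

/-! ## the factor `e^(σT)/(1+σv)²` and `1/tr` -/

/-- `b(σ,T)` -/
noncomputable def bb (σ T : ℝ) : ℝ := exp (σ * T) / (1 + σ * ((1 - σ) * T / 2)) ^ (2 : ℕ)

theorem bb_pos {σ T : ℝ} (h0 : 0 ≤ σ) (h1 : σ ≤ 1) (hT : 0 ≤ T) : 0 < bb σ T := by
  unfold bb
  have : 0 ≤ σ * ((1 - σ) * T / 2) := by
    have := mul_nonneg (sub_nonneg.2 h1) hT
    positivity
  (clear * - h0 h1 hT; positivity)

theorem bb_mono {σ T T1 : ℝ} (h0 : 0 ≤ σ) (h1 : σ ≤ 1) (hT : 0 ≤ T) (hTT : T ≤ T1) :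
    bb σ T ≤ bb σ T1 := by
  have h2 : 0 ≤ (1 - σ) * T / 2 := by
    have := mul_nonneg (sub_nonneg.2 h1) hT
    linarith only [this]
  have h3 : 0 ≤ (1 - σ) * T1 / 2 := by
    have := mul_nonneg (sub_nonneg.2 h1) (hT.trans hTT)
    linarith only [this]
  have p1 : 0 < 1 + σ * ((1 - σ) * T / 2) := by positivity
  have p2 : 0 < 1 + σ * ((1 - σ) * T1 / 2) := by (clear * - h0 h3; positivity)
  have e : ∀ S : ℝ, bb σ S = (exp (σ * S / 2) / (1 + σ * ((1 - σ) * S / 2))) ^ (2 : ℕ) := by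
    intro S
    unfold bb
    rw [div_pow, ← Real.exp_nat_mul]
    congr 2
    push_cast
    ring
  rw [e T, e T1]
  refine pow_le_pow_left₀ (by (clear * - h0 h1 hT; positivity)) ?_ 2
  rw [div_le_div_iff₀ p1 p2]
  have h4 := Real.add_one_le_exp (σ * (T1 - T) / 2)
  have h5 : exp (σ * T1 / 2) = exp (σ * T / 2) * exp (σ * (T1 - T) / 2) := by
    rw [← Real.exp_add]
    congr 1
    ring
  rw [h5]
  have h6 : 1 + σ * ((1 - σ) * T1 / 2) ≤
      exp (σ * (T1 - T) / 2) * (1 + σ * ((1 - σ) * T / 2)) := by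
    have h7 : (σ * (T1 - T) / 2 + 1) * (1 + σ * ((1 - σ) * T / 2)) ≤
        exp (σ * (T1 - T) / 2) * (1 + σ * ((1 - σ) * T / 2)) :=
      mul_le_mul_of_nonneg_right h4 p1.le
    refine le_trans ?_ h7
    have h8 : 0 ≤ σ * (T1 - T) := mul_nonneg h0 (by linarith only [hTT])
    have h9 : 0 ≤ σ * (T1 - T) * σ := mul_nonneg h8 h0
    have h10 : 0 ≤ σ * (T1 - T) * (σ * ((1 - σ) * T / 2)) := by (clear * - h0 hTT h1 hT; positivity)
    linarith only [h9, h10]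
  have h11 := exp_pos (σ * T / 2)
  calc exp (σ * T / 2) * (1 + σ * ((1 - σ) * T1 / 2))
      ≤ exp (σ * T / 2) * (exp (σ * (T1 - T) / 2) * (1 + σ * ((1 - σ) * T / 2))) :=
        mul_le_mul_of_nonneg_left h6 h11.le
    _ = _ := by ring

/-- `1/tr` -/
noncomputable def itr (σ T : ℝ) : ℝ := (1 + (1 - σ) * T / 2) / (1 + σ * ((1 - σ) * T / 2))

theorem itr_mono {σ T T1 : ℝ} (h0 : 0 ≤ σ) (h1 : σ ≤ 1) (hT : 0 ≤ T) (hTT : T ≤ T1) :
    itr σ T ≤ itr σ T1 := by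
  unfold itr
  have h2 : 0 ≤ (1 - σ) * T / 2 := by
    have := mul_nonneg (sub_nonneg.2 h1) hT
    linarith only [this]
  have h3 : (1 - σ) * T / 2 ≤ (1 - σ) * T1 / 2 := by
    have := mul_le_mul_of_nonneg_left hTT (sub_nonneg.2 h1)
    linarith only [this]
  generalize (1 - σ) * T / 2 = v at *
  generalize (1 - σ) * T1 / 2 = v1 at *
  have h4 : 0 ≤ v1 := h2.trans h3
  rw [div_le_div_iff₀ (by positivity) (by (clear * - h0 h4; positivity))]
  linarith only [mul_nonneg (sub_nonneg.2 h1) (sub_nonneg.2 h3)]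

theorem itr_pos {σ T : ℝ} (h0 : 0 ≤ σ) (h1 : σ ≤ 1) (hT : 0 ≤ T) : 0 < itr σ T := by
  unfold itr
  have h2 : 0 ≤ (1 - σ) * T / 2 := by
    have := mul_nonneg (sub_nonneg.2 h1) hT
    linarith only [this]
  (clear * - h1 hT h0; positivity)

theorem tr_itr {σ T : ℝ} (h0 : 0 ≤ σ) (h1 : σ ≤ 1) (hT : 0 ≤ T) : tr σ T * itr σ T = 1 := by
  unfold itr tr
  have h2 : 0 ≤ (1 - σ) * T / 2 := by
    have := mul_nonneg (sub_nonneg.2 h1) hT
    linarith only [this]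
  have h5 : 0 < 2 + (1 - σ) * T := by linarith only [h2]
  have h6 : 0 < 2 + σ * ((1 - σ) * T) := by
    have := mul_nonneg h0 h2
    linarith only [this]
  have : 0 < 1 + (1 - σ) * T / 2 := by (clear * - h1 hT; positivity)
  have : 0 < 1 + σ * ((1 - σ) * T / 2) := by (clear * - h0 h1 hT; positivity)
  field_simp
  all_goals exact div_self (by linarith only [this])

theorem Lq_tr {σ T : ℝ} (h0 : 0 ≤ σ) (h1 : σ ≤ 1) (hT : 0 ≤ T) :
    Lq σ T * tr σ T ^ (2 : ℕ) * bb σ T = 1 := by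
  unfold Lq tr bb
  have h2 : 0 ≤ (1 - σ) * T / 2 := by
    have := mul_nonneg (sub_nonneg.2 h1) hT
    linarith only [this]
  have : 0 < 1 + (1 - σ) * T / 2 := by positivity
  have : 0 < 1 + σ * ((1 - σ) * T / 2) := by (clear * - h0 h1 hT; positivity)
  have h5 : 0 < 2 + (1 - σ) * T := by linarith only [h2]
  have h6 : 0 < 2 + σ * ((1 - σ) * T) := by
    have := mul_nonneg h0 h2
    linarith only [this]
  rw [Real.exp_neg]
  have := exp_pos (σ * T)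
  field_simp
  all_goals exact div_self (by linarith only [mul_pos h5 h6])

/-- conditions on the parameters of a point -/
structure PtOK (x : Pt) : Prop where
  p0 : 0 < x.p
  p1 : x.p < 1
  T0 : 0 < x.T
  th0 : 0 < x.θ
  u0 : 0 < x.u
  hθ : x.θ ^ (2 : ℕ) * (1 - x.p ^ (2 : ℕ)) = 25 / 16 * x.T ^ (2 : ℕ)
  s0 : 0 ≤ x.σ
  s1 : x.σ ≤ 1
  c0 : 0 < x.cl
  a0 : 0 < x.A2

theorem N0_le {p p0 : ℝ} (h0 : 0 ≤ p0) (h : p0 ≤ p) : N0 p ≤ N0 p0 := by
  unfold N0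
  have := pow_le_pow_left₀ h0 h 2
  linarith only [this]

theorem N0_pos {p : ℝ} (h0 : 0 ≤ p) (h1 : p ≤ 1) : 0 < N0 p := by
  unfold N0
  have : p ^ (2 : ℕ) ≤ 1 := by nlinarith
  linarith only [this]

/-- MAIN zone -/
theorem g1_le {x : Pt} (h : PtOK x) {κ p0 p1 T1 a1 b1 W1 Nb th1 : ℝ} (hκ : 0 < κ)
    (hp0 : 0 ≤ p0) (h0 : p0 ≤ x.p) (h1 : x.p ≤ p1) (hp1 : p1 ≤ 1) (hT : x.T ≤ T1)
    (hth : x.θ ≤ th1) (ha : itr x.σ T1 ^ (2 : ℕ) / x.cl ≤ a1) (hb : bb x.σ T1 ≤ b1)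
    (hW0 : a1 * (2 * ph p0) + b1 * (2 * (1 - p0 ^ (2 : ℕ)) + (p1 - p0) ^ (2 : ℕ) / 2) +
      b1 * (1487 / 3200 * T1 ^ (2 : ℕ)) ≤ W1)
    (hW1 : a1 * (2 * ph p1) + b1 * (2 * (1 - p1 ^ (2 : ℕ)) + (p1 - p0) ^ (2 : ℕ) / 2) +
      b1 * (1487 / 3200 * T1 ^ (2 : ℕ)) ≤ W1)
    (hN : N0 p0 * (2 + 1487 / 5000 * th1 ^ (2 : ℕ)) * b1 / ((8 / 5 - 16 / 25 * p1) * x.cl) ≤ Nb)
    (hc : 1 / 2 ≤ κ * x.V / W1) :
    g1 x κ ≤ √(Nb / W1 / κ) * exp (-(x.V * (κ * (1 / W1)))) := by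
  have q1 := h.p0
  have q2 := h.p1
  have hs0 := h.s0
  have hs1 := h.s1
  have hT0 := h.T0
  have hcl := h.c0
  have hbb := bb_pos hs0 hs1 hT0.le
  have hbm := (bb_mono hs0 hs1 hT0.le hT).trans hb
  have him := itr_mono hs0 hs1 hT0.le hT
  have hi0 := itr_pos hs0 hs1 hT0.le
  have htr := tr_pos hs0 hs1 hT0.le
  have hb1 : 0 < b1 := hbb.trans_le hbm
  have hbt := bt_pos x.θ
  have hLq := Lq_pos hs1 hT0.le
  have hq : 0 < 1 - x.p ^ (2 : ℕ) := by nlinarith only [q1, q2]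
  have hal : 0 < al x := by
    unfold al
    have : 0 < 8 / 5 - 16 / 25 * x.p := by linarith only [q2]
    (clear * - this hcl; positivity)
  have hB : 0 < Bm x := by
    unfold Bm
    (clear * - hbt hLq; positivity)
  have hZ : 0 < Zm x := by
    unfold Zm
    (clear * - q1 hal hq hB; positivity)
  obtain ⟨W, hW⟩ : ∃ W, W = Zm x / tr x.σ x.T ^ (2 : ℕ) := ⟨_, rfl⟩
  have hWpos : 0 < W := by rw [hW]; (clear * - hZ htr; positivity)
  have e1 : tr x.σ x.T = 1 / itr x.σ x.T := by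
    rw [eq_div_iff hi0.ne']
    exact tr_itr hs0 hs1 hT0.le
  have e2 : (2 + 1487 / 5000 * x.θ ^ (2 : ℕ)) * (1 - x.p ^ (2 : ℕ)) = 2 * (1 - x.p ^ (2 : ℕ)) + 1487 / 3200 * x.T ^ (2 : ℕ) := by
    have := h.hθ
    linear_combination (1487 / 5000) * this
  have hBt : Bm x * tr x.σ x.T ^ (2 : ℕ) = 1 / ((2 + 1487 / 5000 * x.θ ^ (2 : ℕ)) * bb x.σ x.T) := by
    have h3 := Lq_tr hs0 hs1 hT0.le
    unfold Bm bt
    rw [eq_div_iff (by (clear * - hbb; positivity))]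
    calc 1 / (2 + 1487 / 5000 * x.θ ^ (2 : ℕ)) * Lq x.σ x.T * tr x.σ x.T ^ (2 : ℕ) *
          ((2 + 1487 / 5000 * x.θ ^ (2 : ℕ)) * bb x.σ x.T)
        = (1 / (2 + 1487 / 5000 * x.θ ^ (2 : ℕ)) * (2 + 1487 / 5000 * x.θ ^ (2 : ℕ))) *
          (Lq x.σ x.T * tr x.σ x.T ^ (2 : ℕ) * bb x.σ x.T) := by ring
      _ = 1 := by
          rw [h3, mul_one, one_div, inv_mul_cancel₀ (by (clear * -; positivity))]
  have hWe : W = itr x.σ x.T ^ (2 : ℕ) / x.cl * (2 * ph x.p) +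
      bb x.σ x.T * (2 * (1 - x.p ^ (2 : ℕ)) + 1487 / 3200 * x.T ^ (2 : ℕ)) := by
    rw [hW]
    unfold Zm
    rw [add_div]
    congr 1
    · rw [e1]
      unfold al ph
      have : 0 < 8 / 5 - 16 / 25 * x.p := by linarith only [q2]
      field_simp
    · rw [div_div, hBt, ← e2]
      field_simp
  have hWW : W ≤ W1 := by
    rw [hWe]
    have hph : 0 ≤ ph x.p := by
      unfold ph
      have : 0 < 8 / 5 - 16 / 25 * x.p := by linarith only [q2]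
      (clear * - q1 this; positivity)
    have k1 : itr x.σ x.T ^ (2 : ℕ) / x.cl ≤ a1 := by
      refine le_trans ?_ ha
      have := pow_le_pow_left₀ hi0.le him 2
      exact div_le_div_of_nonneg_right this hcl.le
    have k2 := mul_le_mul_of_nonneg_right k1 (by positivity : 0 ≤ 2 * ph x.p)
    have k3 : bb x.σ x.T * (2 * (1 - x.p ^ (2 : ℕ)) + 1487 / 3200 * x.T ^ (2 : ℕ)) ≤
        b1 * (2 * (1 - x.p ^ (2 : ℕ))) + b1 * (1487 / 3200 * T1 ^ (2 : ℕ)) := by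
      have k4 : x.T ^ (2 : ℕ) ≤ T1 ^ (2 : ℕ) := pow_le_pow_left₀ hT0.le hT 2
      calc bb x.σ x.T * (2 * (1 - x.p ^ (2 : ℕ)) + 1487 / 3200 * x.T ^ (2 : ℕ))
          ≤ b1 * (2 * (1 - x.p ^ (2 : ℕ)) + 1487 / 3200 * x.T ^ (2 : ℕ)) :=
            mul_le_mul_of_nonneg_right hbm (by (clear * - hq hT0; positivity))
        _ ≤ b1 * (2 * (1 - x.p ^ (2 : ℕ)) + 1487 / 3200 * T1 ^ (2 : ℕ)) :=
            mul_le_mul_of_nonneg_left (by linarith only [k4]) hb1.le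
        _ = _ := by ring
    have ha1 : 0 ≤ a1 := le_trans (by (clear * - hi0 hcl; positivity)) k1
    have k5 := chord_bd (M := W1 - b1 * (1487 / 3200 * T1 ^ (2 : ℕ))) ha1 hb1.le h0 h1 hp1
      (by linarith only [hW0]) (by linarith only [hW1])
    linarith only [k2, k3, k5]
  have hW1' : 0 < W1 := hWpos.trans_le hWW
  have hg : g1 x κ = √(N0 x.p * ((2 + 1487 / 5000 * x.θ ^ (2 : ℕ)) * bb x.σ x.T) / (al x * κ) / W) *
      exp (-(κ * x.V / W)) := by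
    unfold g1
    have a1' : N0 x.p / (κ * al x * Bm x * Zm x) =
        N0 x.p * ((2 + 1487 / 5000 * x.θ ^ (2 : ℕ)) * bb x.σ x.T) / (al x * κ) / W := by
      have hZW : Zm x = W * tr x.σ x.T ^ (2 : ℕ) := by rw [hW]; field_simp
      have h3 : κ * al x * Bm x * Zm x = κ * al x * W * (Bm x * tr x.σ x.T ^ (2 : ℕ)) := by
        rw [hZW]; ring
      rw [h3, hBt]
      field_simp
    have a2' : κ * x.V * (tr x.σ x.T ^ (2 : ℕ) / Zm x) = κ * x.V / W := by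
      rw [hW]
      field_simp
    rw [a1', a2']
  have hNn : 0 ≤ N0 x.p * ((2 + 1487 / 5000 * x.θ ^ (2 : ℕ)) * bb x.σ x.T) / (al x * κ) := by
    have := N0_pos q1.le q2.le
    (clear * - this hbb hal hκ; positivity)
  have m1 := sqrt_exp_mono hNn hWpos hWW hc
  rw [hg]
  refine m1.trans ?_
  have e5 : κ * x.V / W1 = x.V * (κ * (1 / W1)) := by ring
  rw [e5]
  refine mul_le_mul_of_nonneg_right (Real.sqrt_le_sqrt ?_) (exp_pos _).le
  rw [div_right_comm Nb W1 κ]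
  refine div_le_div_of_nonneg_right ?_ hW1'.le
  have e6 : N0 x.p * ((2 + 1487 / 5000 * x.θ ^ (2 : ℕ)) * bb x.σ x.T) / (al x * κ) =
      N0 x.p * ((2 + 1487 / 5000 * x.θ ^ (2 : ℕ)) * bb x.σ x.T) / al x / κ := by rw [div_div]
  rw [e6]
  refine div_le_div_of_nonneg_right (le_trans ?_ hN) hκ.le
  have n1 := N0_le hp0 h0
  have n2 := N0_pos q1.le q2.le
  have n3 : (2 + 1487 / 5000 * x.θ ^ (2 : ℕ)) ≤ (2 + 1487 / 5000 * th1 ^ (2 : ℕ)) := by
    have := pow_le_pow_left₀ h.th0.le hth 2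
    linarith only [this]
  have n4 : (8 / 5 - 16 / 25 * p1) * x.cl ≤ al x := by
    unfold al
    exact mul_le_mul_of_nonneg_right (by linarith only [h1]) hcl.le
  have n5 : 0 < (8 / 5 - 16 / 25 * p1) * x.cl := by
    have : 0 < 8 / 5 - 16 / 25 * p1 := by linarith only [hp1]
    (clear * - this hcl; positivity)
  have n6 : N0 x.p * ((2 + 1487 / 5000 * x.θ ^ (2 : ℕ)) * bb x.σ x.T) ≤
      N0 p0 * (2 + 1487 / 5000 * th1 ^ (2 : ℕ)) * b1 := by
    rw [mul_assoc]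
    exact mul_le_mul n1 (mul_le_mul n3 hbm hbb.le (by (clear * -; positivity))) (by (clear * - hbb; positivity)) (by linarith only [n1, n2])
  have n7 : 0 ≤ N0 p0 * (2 + 1487 / 5000 * th1 ^ (2 : ℕ)) * b1 := le_trans (by (clear * - n2 hbb; positivity)) n6
  exact div_le_div₀ n7 n6 n5 n4

/-- LEFT TAIL -/
theorem g2_le {x : Pt} (h : PtOK x) {κ p0 p1 T1 a1 t2 : ℝ} (hκ : 0 < κ) (hV : 0 < x.V)
    (hp0 : 0 ≤ p0) (h0 : p0 ≤ x.p) (h1 : x.p ≤ p1) (hT : x.T ≤ T1)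
    (ha : itr x.σ T1 ^ (2 : ℕ) / x.cl ≤ a1) (ht2 : 0 < t2) (ht : t2 * a1 ≤ 1)
    (hc : 1 / 2 ≤ κ * x.V * (t2 * (4 / 5)) / p1) :
    g2 x κ ≤ √(N0 p0 * exp 1 / (2 * π * p1) / κ) * (141 / 50) *
      exp (-(x.V * (κ * (t2 * (4 / 5 / p1 - 8 / 25))))) := by
  have q1 := h.p0
  have q2 := h.p1
  have hs0 := h.s0
  have hs1 := h.s1
  have hT0 := h.T0
  have hcl := h.c0
  have him := itr_mono hs0 hs1 hT0.le hT
  have hi0 := itr_pos hs0 hs1 hT0.le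
  have hpi := Real.pi_pos
  have he := exp_pos (1 : ℝ)
  have k1 : itr x.σ x.T ^ (2 : ℕ) / x.cl ≤ a1 := by
    refine le_trans ?_ ha
    have := pow_le_pow_left₀ hi0.le him 2
    exact div_le_div_of_nonneg_right this hcl.le
  have hk0 : 0 < itr x.σ x.T ^ (2 : ℕ) / x.cl := by (clear * - hi0 hcl; positivity)
  have e1 : tr x.σ x.T = 1 / itr x.σ x.T := by
    rw [eq_div_iff hi0.ne']
    exact tr_itr hs0 hs1 hT0.le
  have k2 : t2 ≤ tr x.σ x.T ^ (2 : ℕ) * x.cl := by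
    have k3 : t2 * (itr x.σ x.T ^ (2 : ℕ) / x.cl) ≤ 1 := (mul_le_mul_of_nonneg_left k1 ht2.le).trans ht
    have e2 : tr x.σ x.T ^ (2 : ℕ) * x.cl = 1 / (itr x.σ x.T ^ (2 : ℕ) / x.cl) := by
      rw [e1]
      field_simp
    rw [e2, le_div_iff₀ hk0]
    exact k3
  have e3 : tr x.σ x.T ^ (2 : ℕ) * al x / (2 * x.p) = tr x.σ x.T ^ (2 : ℕ) * x.cl * (4 / 5 / x.p - 8 / 25) := by
    unfold al
    field_simp
    ring
  have hpos : 0 ≤ 4 / 5 / x.p - 8 / 25 := by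
    have : 4 / 5 ≤ 4 / 5 / x.p := by
      rw [le_div_iff₀ q1]
      linarith only [q2]
    linarith only [this]
  have k4 : t2 * (4 / 5 / x.p - 8 / 25) ≤ tr x.σ x.T ^ (2 : ℕ) * al x / (2 * x.p) := by
    rw [e3]
    exact mul_le_mul_of_nonneg_right k2 hpos
  have hp1 : 0 < p1 := q1.trans_le h1
  unfold g2
  have s1 : exp (-(κ * x.V * (tr x.σ x.T ^ (2 : ℕ) * al x / (2 * x.p)))) ≤
      exp (κ * x.V * (t2 * (8 / 25))) * exp (-(κ * x.V * (t2 * (4 / 5)) / x.p)) := by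
    rw [← Real.exp_add]
    refine exp_le_exp.2 ?_
    have := mul_le_mul_of_nonneg_left k4 (by positivity : 0 ≤ κ * x.V)
    have e4 : κ * x.V * (t2 * (4 / 5)) / x.p = κ * x.V * (t2 * (4 / 5 / x.p)) := by ring
    rw [e4]
    linarith only [this]
  have s2 := sqrt_exp_mono (M := N0 x.p * exp 1 / (2 * π * κ)) (Z := x.p) (Z1 := p1)
    (c := κ * x.V * (t2 * (4 / 5))) (by
      have := N0_pos q1.le q2.le
      (clear * - this hκ; positivity)) q1 h1 hc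
  have e5 : N0 x.p * exp 1 / (2 * π * κ) / x.p = N0 x.p * exp 1 / (2 * π * κ * x.p) := by
    rw [div_div]
  rw [e5] at s2
  have s3 : √(N0 x.p * exp 1 / (2 * π * κ) / p1) ≤ √(N0 p0 * exp 1 / (2 * π * p1) / κ) := by
    refine Real.sqrt_le_sqrt ?_
    have e6 : N0 p0 * exp 1 / (2 * π * p1) / κ = N0 p0 * exp 1 / (2 * π * κ) / p1 := by
      field_simp
    rw [e6]
    have := N0_le hp0 h0
    gcongr
  calc √(N0 x.p * exp 1 / (2 * π * κ * x.p)) * (141 / 50) *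
        exp (-(κ * x.V * (tr x.σ x.T ^ (2 : ℕ) * al x / (2 * x.p))))
      ≤ √(N0 x.p * exp 1 / (2 * π * κ * x.p)) * (141 / 50) *
        (exp (κ * x.V * (t2 * (8 / 25))) * exp (-(κ * x.V * (t2 * (4 / 5)) / x.p))) :=
        mul_le_mul_of_nonneg_left s1 (by (clear * -; positivity))
    _ = (141 / 50) * exp (κ * x.V * (t2 * (8 / 25))) *
        (√(N0 x.p * exp 1 / (2 * π * κ * x.p)) * exp (-(κ * x.V * (t2 * (4 / 5)) / x.p))) := by ring
    _ ≤ (141 / 50) * exp (κ * x.V * (t2 * (8 / 25))) *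
        (√(N0 x.p * exp 1 / (2 * π * κ) / p1) * exp (-(κ * x.V * (t2 * (4 / 5)) / p1))) :=
        mul_le_mul_of_nonneg_left s2 (by positivity)
    _ ≤ (141 / 50) * exp (κ * x.V * (t2 * (8 / 25))) *
        (√(N0 p0 * exp 1 / (2 * π * p1) / κ) * exp (-(κ * x.V * (t2 * (4 / 5)) / p1))) := by
        have := exp_pos (-(κ * x.V * (t2 * (4 / 5)) / p1))
        have := exp_pos (κ * x.V * (t2 * (8 / 25)))
        gcongr
    _ = √(N0 p0 * exp 1 / (2 * π * p1) / κ) * (141 / 50) *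
        (exp (κ * x.V * (t2 * (8 / 25))) * exp (-(κ * x.V * (t2 * (4 / 5)) / p1))) := by ring
    _ = _ := by
        rw [← Real.exp_add]
        congr 2
        ring

/-- the left condition -/
theorem hx2_of {x : Pt} (h : PtOK x) {p1 T1 a1 t2 V0 : ℝ} (hV0 : 0 ≤ V0) (hV : V0 ≤ x.V)
    (h1 : x.p ≤ p1) (hp1 : p1 ≤ 1) (hT : x.T ≤ T1)
    (ha : itr x.σ T1 ^ (2 : ℕ) / x.cl ≤ a1) (ht2 : 0 < t2) (ht : t2 * a1 ≤ 1)
    (hc : 16 / 5 ≤ 7 / 8 * (V0 * (t2 * (4 / 5 / p1 - 8 / 25)))) :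
    16 / 5 ≤ 7 / 8 * (x.V * (tr x.σ x.T ^ (2 : ℕ) * al x / (2 * x.p))) := by
  have q1 := h.p0
  have q2 := h.p1
  have hs0 := h.s0
  have hs1 := h.s1
  have hT0 := h.T0
  have hcl := h.c0
  have him := itr_mono hs0 hs1 hT0.le hT
  have hi0 := itr_pos hs0 hs1 hT0.le
  have k1 : itr x.σ x.T ^ (2 : ℕ) / x.cl ≤ a1 := by
    refine le_trans ?_ ha
    have := pow_le_pow_left₀ hi0.le him 2
    exact div_le_div_of_nonneg_right this hcl.le
  have hk0 : 0 < itr x.σ x.T ^ (2 : ℕ) / x.cl := by (clear * - hi0 hcl; positivity)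
  have e1 : tr x.σ x.T = 1 / itr x.σ x.T := by
    rw [eq_div_iff hi0.ne']
    exact tr_itr hs0 hs1 hT0.le
  have k2 : t2 ≤ tr x.σ x.T ^ (2 : ℕ) * x.cl := by
    have k3 : t2 * (itr x.σ x.T ^ (2 : ℕ) / x.cl) ≤ 1 := (mul_le_mul_of_nonneg_left k1 ht2.le).trans ht
    have e2 : tr x.σ x.T ^ (2 : ℕ) * x.cl = 1 / (itr x.σ x.T ^ (2 : ℕ) / x.cl) := by
      rw [e1]
      field_simp
    rw [e2, le_div_iff₀ hk0]
    exact k3
  have e3 : tr x.σ x.T ^ (2 : ℕ) * al x / (2 * x.p) = tr x.σ x.T ^ (2 : ℕ) * x.cl * (4 / 5 / x.p - 8 / 25) := by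
    unfold al
    field_simp
    ring
  have hp1' : 0 < p1 := q1.trans_le h1
  have k5 : 4 / 5 / p1 ≤ 4 / 5 / x.p := div_le_div_of_nonneg_left (by norm_num) q1 h1
  have hpos : 0 ≤ 4 / 5 / p1 - 8 / 25 := by
    have : 4 / 5 ≤ 4 / 5 / p1 := by
      rw [le_div_iff₀ hp1']
      linarith only [hp1]
    linarith only [this]
  have k4 : t2 * (4 / 5 / p1 - 8 / 25) ≤ tr x.σ x.T ^ (2 : ℕ) * al x / (2 * x.p) := by
    rw [e3]
    exact mul_le_mul k2 (by linarith only [k5]) hpos (by (clear * - hcl; positivity))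
  have k6 : V0 * (t2 * (4 / 5 / p1 - 8 / 25)) ≤ x.V * (tr x.σ x.T ^ (2 : ℕ) * al x / (2 * x.p)) :=
    mul_le_mul hV k4 (by (clear * - ht2 hpos; positivity)) (by linarith only [hV0, hV])
  linarith only [hc, k6]

/-- RIGHT MAIN zone -/
theorem g3_le {x : Pt} (h : PtOK x) {κ p0 p1 T1 th1 r1 Z1 Nb : ℝ} (hκ : 0 < κ)
    (hp0 : 0 ≤ p0) (h0 : p0 ≤ x.p) (h1 : x.p ≤ p1) (hT : x.T ≤ T1) (hth : x.θ ≤ th1)
    (hr : x.θ / x.u ≤ r1)
    (hZ : r1 ^ (2 : ℕ) * (2 * p1 / x.A2) + 2 * (1 - p0 ^ (2 : ℕ)) + 1487 / 3200 * T1 ^ (2 : ℕ) ≤ Z1)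
    (hN : N0 p0 * (2 + 1487 / 5000 * th1 ^ (2 : ℕ)) / x.A2 ≤ Nb)
    (hc : 1 / 2 ≤ κ * x.V / Z1) :
    g3 x κ ≤ √(Nb / Z1 / κ) * exp (-(x.V * (κ * (1 / Z1)))) := by
  have q1 := h.p0
  have q2 := h.p1
  have hT0 := h.T0
  have hA := h.a0
  have hu := h.u0
  have hθ := h.th0
  have hbt := bt_pos x.θ
  have hq : 0 < 1 - x.p ^ (2 : ℕ) := by nlinarith only [q1, q2]
  have e2 : (1 - x.p ^ (2 : ℕ)) / bt x.θ = 2 * (1 - x.p ^ (2 : ℕ)) + 1487 / 3200 * x.T ^ (2 : ℕ) := by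
    have := h.hθ
    unfold bt
    rw [div_div_eq_mul_div, div_one]
    linear_combination (1487 / 5000) * this
  have hZ0 : 0 < Z3 x := by
    unfold Z3
    have h0 : 0 ≤ (x.θ / x.u) ^ (2 : ℕ) * (2 * x.p / x.A2) := by (clear * - hθ hu q1 hA; positivity)
    have h1 : 0 < (1 - x.p ^ (2 : ℕ)) / bt x.θ := by (clear * - hq hbt; positivity)
    linarith only [h0, h1]
  have hZZ : Z3 x ≤ Z1 := by
    unfold Z3
    rw [e2]
    refine le_trans ?_ hZ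
    have k1 : (x.θ / x.u) ^ (2 : ℕ) ≤ r1 ^ (2 : ℕ) := pow_le_pow_left₀ (by (clear * - hθ hu; positivity)) hr 2
    have k2 : 2 * x.p / x.A2 ≤ 2 * p1 / x.A2 := div_le_div_of_nonneg_right (by linarith only [h1]) hA.le
    have k3 := mul_le_mul k1 k2 (by (clear * - q1 hA; positivity)) (by (clear * -; positivity))
    have k4 : p0 ^ (2 : ℕ) ≤ x.p ^ (2 : ℕ) := pow_le_pow_left₀ hp0 h0 2
    have k5 : x.T ^ (2 : ℕ) ≤ T1 ^ (2 : ℕ) := pow_le_pow_left₀ hT0.le hT 2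
    linarith only [k3, k4, k5]
  have hZ1' : 0 < Z1 := hZ0.trans_le hZZ
  have hg : g3 x κ = √(N0 x.p * (2 + 1487 / 5000 * x.θ ^ (2 : ℕ)) / (x.A2 * κ) / Z3 x) *
      exp (-(κ * x.V / Z3 x)) := by
    unfold g3
    congr 2
    unfold bt
    field_simp
  have m1 := sqrt_exp_mono (M := N0 x.p * (2 + 1487 / 5000 * x.θ ^ (2 : ℕ)) / (x.A2 * κ)) (by
    have := N0_pos q1.le q2.le
    (clear * - this hθ hA hκ; positivity)) hZ0 hZZ hc
  rw [hg]
  refine m1.trans ?_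
  have e5 : κ * x.V / Z1 = x.V * (κ * (1 / Z1)) := by ring
  rw [e5]
  refine mul_le_mul_of_nonneg_right (Real.sqrt_le_sqrt ?_) (exp_pos _).le
  rw [div_right_comm Nb Z1 κ]
  refine div_le_div_of_nonneg_right ?_ hZ1'.le
  rw [← div_div]
  refine div_le_div_of_nonneg_right (le_trans ?_ hN) hκ.le
  refine div_le_div_of_nonneg_right ?_ hA.le
  have n1 := N0_le hp0 h0
  have n2 := N0_pos q1.le q2.le
  have n3 : (2 + 1487 / 5000 * x.θ ^ (2 : ℕ)) ≤ (2 + 1487 / 5000 * th1 ^ (2 : ℕ)) := by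
    have := pow_le_pow_left₀ hθ.le hth 2
    linarith only [this]
  exact mul_le_mul n1 n3 (by (clear * - hθ; positivity)) (by linarith only [n1, n2])

/-- RIGHT TAIL, any constant `c4` -/
theorem g4_le' {x : Pt} (h : PtOK x) {κ p0 p1 s4 c4 : ℝ} (hκ : 0 < κ) (hV : 0 < x.V)
    (hp0 : 0 ≤ p0) (h0 : p0 ≤ x.p) (h1 : x.p ≤ p1) (hs : 0 < s4) (hs4 : s4 ≤ x.u / x.θ)
    (hc4 : 0 ≤ c4) (hc : 1 / 2 ≤ κ * x.V * (s4 ^ (2 : ℕ) * x.A2 / 2) / p1) :
    √(N0 x.p / (2 * π * κ * x.p)) * c4 * exp (-(κ * x.V * ((x.u / x.θ) ^ (2 : ℕ) * x.A2 / (2 * x.p)))) ≤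
      √(N0 p0 / (2 * π * p1) / κ) * c4 * exp (-(x.V * (κ * (s4 ^ (2 : ℕ) * x.A2 / (2 * p1))))) := by
  have q1 := h.p0
  have q2 := h.p1
  have hA := h.a0
  have hpi := Real.pi_pos
  have hp1 : 0 < p1 := q1.trans_le h1
  have k1 : s4 ^ (2 : ℕ) ≤ (x.u / x.θ) ^ (2 : ℕ) := pow_le_pow_left₀ hs.le hs4 2
  have s1 : exp (-(κ * x.V * ((x.u / x.θ) ^ (2 : ℕ) * x.A2 / (2 * x.p)))) ≤
      exp (-(κ * x.V * (s4 ^ (2 : ℕ) * x.A2 / 2) / x.p)) := by
    refine exp_le_exp.2 (neg_le_neg ?_)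
    have e1 : κ * x.V * (s4 ^ (2 : ℕ) * x.A2 / 2) / x.p = κ * x.V * (s4 ^ (2 : ℕ) * x.A2 / (2 * x.p)) := by
      field_simp
    rw [e1]
    gcongr
  have s2 := sqrt_exp_mono (M := N0 x.p / (2 * π * κ)) (Z := x.p) (Z1 := p1)
    (c := κ * x.V * (s4 ^ (2 : ℕ) * x.A2 / 2)) (by
      have := N0_pos q1.le q2.le
      (clear * - this hκ; positivity)) q1 h1 hc
  have e5 : N0 x.p / (2 * π * κ) / x.p = N0 x.p / (2 * π * κ * x.p) := by
    rw [div_div]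
  rw [e5] at s2
  have s3 : √(N0 x.p / (2 * π * κ) / p1) ≤ √(N0 p0 / (2 * π * p1) / κ) := by
    refine Real.sqrt_le_sqrt ?_
    have e6 : N0 p0 / (2 * π * p1) / κ = N0 p0 / (2 * π * κ) / p1 := by
      field_simp
    rw [e6]
    have := N0_le hp0 h0
    gcongr
  calc √(N0 x.p / (2 * π * κ * x.p)) * c4 *
        exp (-(κ * x.V * ((x.u / x.θ) ^ (2 : ℕ) * x.A2 / (2 * x.p))))
      ≤ √(N0 x.p / (2 * π * κ * x.p)) * c4 * exp (-(κ * x.V * (s4 ^ (2 : ℕ) * x.A2 / 2) / x.p)) :=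
        mul_le_mul_of_nonneg_left s1 (by (clear * - hc4; positivity))
    _ = c4 * (√(N0 x.p / (2 * π * κ * x.p)) * exp (-(κ * x.V * (s4 ^ (2 : ℕ) * x.A2 / 2) / x.p))) := by
        ring
    _ ≤ c4 * (√(N0 x.p / (2 * π * κ) / p1) * exp (-(κ * x.V * (s4 ^ (2 : ℕ) * x.A2 / 2) / p1))) :=
        mul_le_mul_of_nonneg_left s2 hc4
    _ ≤ c4 * (√(N0 p0 / (2 * π * p1) / κ) * exp (-(κ * x.V * (s4 ^ (2 : ℕ) * x.A2 / 2) / p1))) := by
        have := exp_pos (-(κ * x.V * (s4 ^ (2 : ℕ) * x.A2 / 2) / p1))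
        gcongr
    _ = _ := by
        have e7 : κ * x.V * (s4 ^ (2 : ℕ) * x.A2 / 2) / p1 = x.V * (κ * (s4 ^ (2 : ℕ) * x.A2 / (2 * p1))) := by
          field_simp
        rw [e7]
        ring

theorem hx4_of {x : Pt} (h : PtOK x) {p1 s4 V0 c : ℝ} (hV0 : 0 ≤ V0) (hV : V0 ≤ x.V)
    (h1 : x.p ≤ p1) (hs : 0 < s4) (hs4 : s4 ≤ x.u / x.θ)
    (hc : c ≤ 7 / 8 * (V0 * (s4 ^ (2 : ℕ) * x.A2 / (2 * p1)))) :
    c ≤ 7 / 8 * (x.V * ((x.u / x.θ) ^ (2 : ℕ) * x.A2 / (2 * x.p))) := by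
  have q1 := h.p0
  have hA := h.a0
  have hp1 : 0 < p1 := q1.trans_le h1
  have k1 : s4 ^ (2 : ℕ) ≤ (x.u / x.θ) ^ (2 : ℕ) := pow_le_pow_left₀ hs.le hs4 2
  have k2 : s4 ^ (2 : ℕ) * x.A2 / (2 * p1) ≤ (x.u / x.θ) ^ (2 : ℕ) * x.A2 / (2 * x.p) := by
    gcongr
  have k3 : V0 * (s4 ^ (2 : ℕ) * x.A2 / (2 * p1)) ≤ x.V * ((x.u / x.θ) ^ (2 : ℕ) * x.A2 / (2 * x.p)) :=
    mul_le_mul hV k2 (by (clear * - hs hA hp1; positivity)) (by linarith only [hV0, hV])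
  linarith only [hc, k3]

/-- `1 - p²` against its chord, for `Zp` -/
theorem chord_bd' {a b p p0 p1 M : ℝ} (hb : 0 ≤ b) (h0 : p0 ≤ p) (h1 : p ≤ p1)
    (hM0 : a * p0 + b * (1 - p0 ^ (2 : ℕ) + (p1 - p0) ^ (2 : ℕ) / 4) ≤ M)
    (hM1 : a * p1 + b * (1 - p1 ^ (2 : ℕ) + (p1 - p0) ^ (2 : ℕ) / 4) ≤ M) :
    a * p + b * (1 - p ^ (2 : ℕ)) ≤ M := by
  have hq : 1 - p ^ (2 : ℕ) ≤ 1 - (p0 + p1) * p + p0 * p1 + (p1 - p0) ^ (2 : ℕ) / 4 := by
    linarith only [sq_nonneg (2 * p - (p0 + p1))]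
  have h4 := mul_le_mul_of_nonneg_left hq hb
  have h5 : a * p + b * (1 - p ^ (2 : ℕ)) ≤
      (b * (1 + p0 * p1 + (p1 - p0) ^ (2 : ℕ) / 4)) + (a - b * (p0 + p1)) * p := by linarith only [h4]
  refine h5.trans ?_
  rcases le_total 0 (a - b * (p0 + p1)) with h | h
  · have := mul_le_mul_of_nonneg_left h1 h
    linarith only [hM1, this]
  · have := mul_le_mul_of_nonpos_left h0 h
    linarith only [hM0, this]

/-- RIGHT MAIN zone, window form -/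
theorem g3h_le {x : Pt} (h : PtOK x) {κ p0 p1 th1 r1 Z1 Nb c3 Nc : ℝ} (hκ : 0 < κ)
    (hV : 0 < x.V) (hp0 : 0 ≤ p0) (h0 : p0 ≤ x.p) (h1 : x.p ≤ p1) (hp01 : p0 < 1)
    (hth : x.θ ≤ th1) (hr0 : 0 < r1) (hr : x.θ / x.u ≤ r1)
    (hZ0 : 2 / x.A2 * p0 + 25 / 11 * (1 - p0 ^ (2 : ℕ) + (p1 - p0) ^ (2 : ℕ) / 4) ≤ Z1)
    (hZ1 : 2 / x.A2 * p1 + 25 / 11 * (1 - p1 ^ (2 : ℕ) + (p1 - p0) ^ (2 : ℕ) / 4) ≤ Z1)
    (hN : N0 p0 / (x.A2 * (11 / 25)) ≤ Nb) (hN' : N0 p0 / ((1 - p0 ^ (2 : ℕ)) * x.A2) ≤ Nc)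
    (hc3 : c3 = 1 / r1 ^ (2 : ℕ))
    (hc : 1 / 2 ≤ κ * x.V * c3 / Z1)
    (hc' : 1 / 2 ≤ κ * x.V * (396 / 625 / th1 ^ (2 : ℕ)) / (1 - p0 ^ (2 : ℕ))) :
    g3h x κ ≤ √(Nb / Z1 / κ) * exp (-(x.V * (κ * (c3 / Z1)))) +
      √(Nc / κ) / 2 * exp (-(x.V * (κ * (396 / 625 / th1 ^ (2 : ℕ) / (1 - p0 ^ (2 : ℕ)))))) := by
  have q1 := h.p0
  have q2 := h.p1
  have hA := h.a0
  have hu := h.u0
  have hθ := h.th0
  have hth0 : 0 < th1 := hθ.trans_le hth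
  have hq : 0 < 1 - x.p ^ (2 : ℕ) := by nlinarith only [q1, q2]
  have hq0 : 0 < 1 - p0 ^ (2 : ℕ) := by nlinarith only [hp0, hp01]
  have hqq : 1 - x.p ^ (2 : ℕ) ≤ 1 - p0 ^ (2 : ℕ) := by
    have := pow_le_pow_left₀ hp0 h0 2
    linarith only [this]
  have n2 := N0_pos q1.le q2.le
  have n1 := N0_le hp0 h0
  unfold g3h
  refine add_le_add ?_ ?_
  · have hZp : 0 < Zp x := by
      unfold Zp
      (clear * - q1 hA hq; positivity)
    have hZZ : Zp x ≤ Z1 := by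
      have := chord_bd' (a := 2 / x.A2) (b := 25 / 11) (by norm_num) h0 h1 hZ0 hZ1
      unfold Zp
      have e : 2 * x.p / x.A2 = 2 / x.A2 * x.p := by ring
      rw [e]
      linarith only [this]
    have hZ1' : 0 < Z1 := hZp.trans_le hZZ
    have k1 : (x.θ / x.u) ^ (2 : ℕ) ≤ r1 ^ (2 : ℕ) := pow_le_pow_left₀ (by (clear * - hθ hu; positivity)) hr 2
    have s1 : exp (-(κ * x.V / ((x.θ / x.u) ^ (2 : ℕ) * Zp x))) ≤ exp (-(κ * x.V * c3 / Zp x)) := by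
      refine exp_le_exp.2 (neg_le_neg ?_)
      rw [hc3, mul_one_div, div_div]
      have : 0 < (x.θ / x.u) ^ (2 : ℕ) * Zp x := by (clear * - hθ hu hZp; positivity)
      gcongr
    have s2 := sqrt_exp_mono (M := N0 x.p / (κ * x.A2 * (11 / 25))) (Z := Zp x) (Z1 := Z1)
      (c := κ * x.V * c3) (by (clear * - n2 hκ hA; positivity)) hZp hZZ hc
    have e5 : N0 x.p / (κ * x.A2 * (11 / 25)) / Zp x = N0 x.p / (κ * x.A2 * (11 / 25) * Zp x) := by
      rw [div_div]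
    rw [e5] at s2
    have s3 : √(N0 x.p / (κ * x.A2 * (11 / 25)) / Z1) ≤ √(Nb / Z1 / κ) := by
      refine Real.sqrt_le_sqrt ?_
      rw [div_right_comm Nb Z1 κ]
      refine div_le_div_of_nonneg_right ?_ hZ1'.le
      have e6 : N0 x.p / (κ * x.A2 * (11 / 25)) = N0 x.p / (x.A2 * (11 / 25)) / κ := by
        field_simp
      rw [e6]
      refine div_le_div_of_nonneg_right (le_trans ?_ hN) hκ.le
      exact div_le_div_of_nonneg_right n1 (by (clear * - hA; positivity))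
    calc √(N0 x.p / (κ * x.A2 * (11 / 25) * Zp x)) * exp (-(κ * x.V / ((x.θ / x.u) ^ (2 : ℕ) * Zp x)))
        ≤ √(N0 x.p / (κ * x.A2 * (11 / 25) * Zp x)) * exp (-(κ * x.V * c3 / Zp x)) :=
          mul_le_mul_of_nonneg_left s1 (Real.sqrt_nonneg _)
      _ ≤ √(N0 x.p / (κ * x.A2 * (11 / 25)) / Z1) * exp (-(κ * x.V * c3 / Z1)) := s2
      _ ≤ √(Nb / Z1 / κ) * exp (-(κ * x.V * c3 / Z1)) :=
          mul_le_mul_of_nonneg_right s3 (exp_pos _).le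
      _ = _ := by
          have e7 : κ * x.V * c3 / Z1 = x.V * (κ * (c3 / Z1)) := by ring
          rw [e7]
  · have s1 : exp (-(κ * (396 / 625) * (x.V / (x.θ ^ (2 : ℕ) * (1 - x.p ^ (2 : ℕ)))))) ≤
        exp (-(κ * x.V * (396 / 625 / th1 ^ (2 : ℕ)) / (1 - x.p ^ (2 : ℕ)))) := by
      refine exp_le_exp.2 (neg_le_neg ?_)
      have e : κ * x.V * (396 / 625 / th1 ^ (2 : ℕ)) / (1 - x.p ^ (2 : ℕ)) =
          κ * (396 / 625) * (x.V / (th1 ^ (2 : ℕ) * (1 - x.p ^ (2 : ℕ)))) := by field_simp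
      rw [e]
      gcongr
    have s2 := sqrt_exp_mono (M := N0 x.p / (κ * x.A2)) (Z := 1 - x.p ^ (2 : ℕ)) (Z1 := 1 - p0 ^ (2 : ℕ))
      (c := κ * x.V * (396 / 625 / th1 ^ (2 : ℕ))) (by (clear * - n2 hκ hA; positivity)) hq hqq hc'
    have e5 : N0 x.p / (κ * x.A2) / (1 - x.p ^ (2 : ℕ)) = N0 x.p / (κ * (1 - x.p ^ (2 : ℕ)) * x.A2) := by
      field_simp
    rw [e5] at s2
    have s3 : √(N0 x.p / (κ * x.A2) / (1 - p0 ^ (2 : ℕ))) ≤ √(Nc / κ) := by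
      refine Real.sqrt_le_sqrt ?_
      have e6 : N0 x.p / (κ * x.A2) / (1 - p0 ^ (2 : ℕ)) = N0 x.p / ((1 - p0 ^ (2 : ℕ)) * x.A2) / κ := by
        field_simp
      rw [e6]
      refine div_le_div_of_nonneg_right (le_trans ?_ hN') hκ.le
      exact div_le_div_of_nonneg_right n1 (by (clear * - hq0 hA; positivity))
    calc √(N0 x.p / (κ * (1 - x.p ^ (2 : ℕ)) * x.A2)) / 2 *
          exp (-(κ * (396 / 625) * (x.V / (x.θ ^ (2 : ℕ) * (1 - x.p ^ (2 : ℕ))))))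
        ≤ √(N0 x.p / (κ * (1 - x.p ^ (2 : ℕ)) * x.A2)) / 2 *
          exp (-(κ * x.V * (396 / 625 / th1 ^ (2 : ℕ)) / (1 - x.p ^ (2 : ℕ)))) :=
          mul_le_mul_of_nonneg_left s1 (by (clear * - n2 hκ hq hA; positivity))
      _ = 1 / 2 * (√(N0 x.p / (κ * (1 - x.p ^ (2 : ℕ)) * x.A2)) *
          exp (-(κ * x.V * (396 / 625 / th1 ^ (2 : ℕ)) / (1 - x.p ^ (2 : ℕ))))) := by ring
      _ ≤ 1 / 2 * (√(N0 x.p / (κ * x.A2) / (1 - p0 ^ (2 : ℕ))) *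
          exp (-(κ * x.V * (396 / 625 / th1 ^ (2 : ℕ)) / (1 - p0 ^ (2 : ℕ))))) :=
          mul_le_mul_of_nonneg_left s2 (by norm_num)
      _ ≤ 1 / 2 * (√(Nc / κ) * exp (-(κ * x.V * (396 / 625 / th1 ^ (2 : ℕ)) / (1 - p0 ^ (2 : ℕ))))) := by
          have := exp_pos (-(κ * x.V * (396 / 625 / th1 ^ (2 : ℕ)) / (1 - p0 ^ (2 : ℕ))))
          gcongr
      _ = _ := by
          have e7 : κ * x.V * (396 / 625 / th1 ^ (2 : ℕ)) / (1 - p0 ^ (2 : ℕ)) =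
              x.V * (κ * (396 / 625 / th1 ^ (2 : ℕ) / (1 - p0 ^ (2 : ℕ)))) := by ring
          rw [e7]
          ring

end SokamCl

end

/-! ### Lib_MP_af4de1_v3.ClF -/

section
namespace SokamCel
end SokamCel
namespace SokamFN
end SokamFN
/-!
# Far waves with `Γ ≥ 10`, VI: fixed point evaluation of one cell, tools and the left zones
-/

set_option autoImplicit false

namespace SokamCl

open Real SokamFN SokamCel

/-- evaluates the argument before it is used -/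
def fc (n : ℕ) (k : ℕ → Bool) : Bool :=
  match n with
  | 0 => k 0
  | m + 1 => k (m + 1)

theorem fc_elim {n : ℕ} {k : ℕ → Bool} (h : fc n k = true) : ∃ q, q = n ∧ k q = true := by
  cases n with
  | zero => exact ⟨0, rfl, h⟩
  | succ m => exact ⟨m + 1, rfl, h⟩

/-- upper bound of `a/b · n` -/
def rU (a b n : ℕ) : ℕ := a * n / b + 1
/-- lower bound of `a/b · n` -/
def rL (a b n : ℕ) : ℕ := a * n / b

theorem fx_mul (a n : ℕ) : fx (a * n) = a * fx n := by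
  unfold fx
  push_cast
  ring

theorem rU_le {c x : ℝ} {a b n : ℕ} (hb : 0 < b) (hc : c * b ≤ a) (hx : x ≤ fx n)
    (hc0 : 0 ≤ c) : c * x ≤ fx (rU a b n) := by
  refine le_trans ?_ (fx_divU (a * n) b hb)
  have hb' : (0 : ℝ) < b := by exact_mod_cast hb
  rw [le_div_iff₀ hb', fx_mul]
  have h0 := fx_nonneg n
  calc c * x * b = (c * b) * x := by ring
    _ ≤ (c * b) * fx n := mul_le_mul_of_nonneg_left hx (by positivity)
    _ ≤ a * fx n := mul_le_mul_of_nonneg_right hc h0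

theorem rL_le {c x : ℝ} {a b n : ℕ} (hb : 0 < b) (hc : (a : ℝ) ≤ c * b) (hx : fx n ≤ x)
    (hc0 : 0 ≤ c) : fx (rL a b n) ≤ c * x := by
  refine (fx_div (a * n) b hb).trans ?_
  have hb' : (0 : ℝ) < b := by exact_mod_cast hb
  rw [div_le_iff₀ hb', fx_mul]
  have h0 := fx_nonneg n
  calc a * fx n ≤ (c * b) * fx n := mul_le_mul_of_nonneg_right hc h0
    _ ≤ (c * b) * x := mul_le_mul_of_nonneg_left hx (by positivity)
    _ = c * x * b := by ring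

theorem oneSubU {p : ℝ} {n : ℕ} (h : fx n ≤ p) : 1 - p ^ (2 : ℕ) ≤ fx (SC - mL n n) := by
  have := mulL h h
  have h2 : p ^ (2 : ℕ) = p * p := sq p
  rw [h2]
  exact subU fx_one.ge this

theorem fx_sub_zero {m n : ℕ} (h : m ≤ n) : fx (m - n) = 0 := by
  rw [Nat.sub_eq_zero_of_le h, fx_zero]

theorem oneSubL {p : ℝ} {n : ℕ} (h0 : 0 ≤ p) (h : p ≤ fx n) (hn : n ≤ SC) :
    fx (SC - mU n n) ≤ 1 - p ^ (2 : ℕ) := by
  have h1 : p ≤ 1 := h.trans (by rw [← fx_one]; exact fx_mono hn)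
  rcases le_total (mU n n) SC with hc | hc
  · have := mulU h h h0
    have h2 : p ^ (2 : ℕ) = p * p := sq p
    rw [h2]
    exact subL fx_one.le this hc
  · rw [fx_sub_zero hc]
    have h4 : p * p ≤ 1 := mul_le_one₀ h1 h0 h1
    rw [sub_nonneg, sq]
    exact h4

/-- square, upper -/
theorem sqU_le {x : ℝ} {n : ℕ} (h0 : 0 ≤ x) (h : x ≤ fx n) : x ^ (2 : ℕ) ≤ fx (mU n n) := by
  rw [sq]
  exact mulU h h h0

theorem sqL_le {x : ℝ} {n : ℕ} (h : fx n ≤ x) : fx (mL n n) ≤ x ^ (2 : ℕ) := by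
  rw [sq]
  exact mulL h h

theorem fx_two (n : ℕ) : fx (2 * n) = 2 * fx n := by
  rw [fx_mul]
  norm_num

/-- lower bound of `8/5 - 16/25 p` -/
def c85 (p : ℕ) : ℕ := 1759218604441 - rU 16 25 p

theorem fx_85 : fx 1759218604441 ≤ 8 / 5 := by
  unfold fx
  norm_num

theorem c85_le {p : ℕ} (hp : p ≤ SC) : fx (c85 p) ≤ 8 / 5 - 16 / 25 * fx p := by
  refine subL fx_85 (rU_le (by norm_num) (by norm_num) le_rfl (by norm_num)) ?_
  unfold rU
  unfold SC at hp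
  omega

theorem c85_pos {p : ℕ} (hp : p ≤ SC) : 0 < c85 p := by
  unfold c85 rU
  unfold SC at hp
  omega

theorem ph_le {p : ℕ} (hp : p ≤ SC) : ph (fx p) ≤ fx (dU p (c85 p)) := by
  unfold ph
  exact divU le_rfl (c85_le hp) (c85_pos hp)

theorem ph_nonneg {p : ℕ} (hp : p ≤ SC) : 0 ≤ ph (fx p) := by
  unfold ph
  have := c85_le hp
  have := fx_nonneg (c85 p)
  have := fx_nonneg p
  exact div_nonneg (fx_nonneg p) (by linarith)

/-! ## the form of all bounds -/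

/-- bound of a zone for `7/8 ≤ κ ≤ 1` -/
def Bd (g : ℝ → ℝ) (V : ℝ) (s c : ℕ) : Prop :=
  ∀ κ : ℝ, 7 / 8 ≤ κ → κ ≤ 1 → g κ ≤ √(1 / κ) * fx s * exp (-(V * (κ * fx c)))

theorem Bd.of {g : ℝ → ℝ} {V M f c' : ℝ} {s c : ℕ} (hV : 0 ≤ V)
    (hg : ∀ κ : ℝ, 7 / 8 ≤ κ → κ ≤ 1 → g κ ≤ √(M / κ) * f * exp (-(V * (κ * c'))))
    (hM : 0 ≤ M) (hs : √M * f ≤ fx s) (hc : fx c ≤ c') : Bd g V s c := by
  intro κ h1 h2
  have hκ : 0 < κ := by linarith only [h1]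
  refine (hg κ h1 h2).trans ?_
  have e1 : √(M / κ) = √M * √(1 / κ) := by
    rw [← Real.sqrt_mul hM]
    congr 1
    ring
  have e2 : exp (-(V * (κ * c'))) ≤ exp (-(V * (κ * fx c))) := by
    refine exp_le_exp.2 (neg_le_neg ?_)
    gcongr
  have e3 : √(M / κ) * f ≤ √(1 / κ) * fx s := by
    rw [e1]
    calc √M * √(1 / κ) * f = √(1 / κ) * (√M * f) := by ring
      _ ≤ _ := mul_le_mul_of_nonneg_left hs (Real.sqrt_nonneg _)
  exact mul_le_mul e3 e2 (exp_pos _).le (by have := fx_nonneg s; positivity)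

/-- the value for `κ = 1` -/
def eeU (V0 L s c : ℕ) : ℕ := mU s (eN (mL V0 (c - L)))
/-- the value for `κ = 7/8` -/
def ffU (V0 L s c : ℕ) : ℕ := mU (mU s 1175487881257) (eN (mL V0 (rL 7 8 c - L)))

theorem Bd.at {g : ℝ → ℝ} {V L' κ : ℝ} {s c V0 L cc ss : ℕ} (h : Bd g V s c) (h1 : 7 / 8 ≤ κ)
    (h2 : κ ≤ 1) (hV : fx V0 ≤ V) (hL : L' ≤ fx L) (hcc : fx cc ≤ κ * fx c) (hLc : L ≤ cc)
    (hs : √(1 / κ) * fx s ≤ fx ss) :
    exp (L' * V) * g κ ≤ fx (mU ss (eN (mL V0 (cc - L)))) := by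
  have hV0 := fx_nonneg V0
  have e1 := h κ h1 h2
  have hLc' : fx L ≤ κ * fx c := (fx_mono hLc).trans hcc
  have e2 := level_bd hV0 hV hL hLc'
  have e3 : exp (-(fx V0 * (κ * fx c - fx L))) ≤ fx (eN (mL V0 (cc - L))) :=
    expNegU (mulL le_rfl (subL hcc le_rfl hLc))
  have hs0 := fx_nonneg s
  calc exp (L' * V) * g κ ≤ exp (L' * V) * (√(1 / κ) * fx s * exp (-(V * (κ * fx c)))) :=
        mul_le_mul_of_nonneg_left e1 (exp_pos _).le
    _ = √(1 / κ) * fx s * (exp (L' * V) * exp (-(V * (κ * fx c)))) := by ring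
    _ ≤ √(1 / κ) * fx s * exp (-(fx V0 * (κ * fx c - fx L))) :=
        mul_le_mul_of_nonneg_left e2 (by positivity)
    _ ≤ fx (mU ss (eN (mL V0 (cc - L)))) := mulU hs e3 (exp_pos _).le

theorem Bd.one {g : ℝ → ℝ} {V L' : ℝ} {s c V0 L : ℕ} (h : Bd g V s c) (hV : fx V0 ≤ V)
    (hL : L' ≤ fx L) (hLc : L ≤ rL 7 8 c) : exp (L' * V) * g 1 ≤ fx (eeU V0 L s c) := by
  have h1 : rL 7 8 c ≤ c := by
    unfold rL
    omega
  refine h.at (by norm_num) le_rfl hV hL (by rw [one_mul]) (hLc.trans h1) ?_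
  norm_num

theorem Bd.sev {g : ℝ → ℝ} {V L' : ℝ} {s c V0 L : ℕ} (h : Bd g V s c) (hV : fx V0 ≤ V)
    (hL : L' ≤ fx L) (hLc : L ≤ rL 7 8 c) : exp (L' * V) * g (7 / 8) ≤ fx (ffU V0 L s c) := by
  refine h.at le_rfl (by norm_num) hV hL
    (rL_le (by norm_num) (by norm_num) le_rfl (by norm_num)) hLc ?_
  have h2 : √(1 / (7 / 8 : ℝ)) ≤ fx 1175487881257 := by
    rw [Real.sqrt_le_left (fx_nonneg _)]
    unfold fx
    norm_num
  rw [mul_comm]
  exact mulU le_rfl h2 (Real.sqrt_nonneg _)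

/-! ## facts about a cell -/

/-- facts delivered by the geometric stage -/
structure FA (p T τ θ u V : ℝ) (p0 p1 t1 q0 sp0 T1 th1 thl V0 L : ℕ) : Prop where
  hp : 0 < p
  hp1 : p < 1
  hT : 0 < T
  hθ : 0 < θ
  hu : u = 2 * π - θ
  hu0 : 0 < u
  hV : fx V0 ≤ V
  hV0 : 0 < V
  e : θ ^ (2 : ℕ) * (1 - p ^ (2 : ℕ)) = 25 / 16 * T ^ (2 : ℕ)
  b0 : fx p0 ≤ p
  b1 : p ≤ fx p1
  p1s : p1 ≤ SC
  τ0 : 0 ≤ τ
  τ1 : τ ≤ fx t1
  hq : 1 - fx p0 ^ (2 : ℕ) ≤ fx q0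
  hsp : √(1 - p ^ (2 : ℕ)) ≤ fx sp0
  hT1 : T ≤ fx T1
  hth1 : θ ≤ fx th1
  hthl : fx thl ≤ θ
  hL : 3 / 5 * (τ / (1 + τ)) ^ (2 : ℕ) ≤ fx L

/-- common numbers -/
structure FN (p0 T1 th1 n0 be tt : ℕ) : Prop where
  h1 : N0 (fx p0) ≤ fx n0
  h2 : 2 + 1487 / 5000 * fx th1 ^ (2 : ℕ) ≤ fx be
  h3 : 1487 / 3200 * fx T1 ^ (2 : ℕ) ≤ fx tt

def okN (q0 T1 th1 : ℕ) (k : ℕ → ℕ → ℕ → Bool) : Bool :=
  fc (rU 23 20 (SC + rU 16 25 q0)) fun n0 =>
  fc (2 * SC + rU 1487 5000 (mU th1 th1)) fun be =>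
  fc (rU 1487 3200 (mU T1 T1)) fun tt => k n0 be tt

theorem okN_sound {p0 q0 T1 th1 : ℕ} {k : ℕ → ℕ → ℕ → Bool} (hq : 1 - fx p0 ^ (2 : ℕ) ≤ fx q0)
    (h : okN q0 T1 th1 k = true) : ∃ n0 be tt, FN p0 T1 th1 n0 be tt ∧ k n0 be tt = true := by
  unfold okN at h
  obtain ⟨n0, e1, h⟩ := fc_elim h
  obtain ⟨be, e2, h⟩ := fc_elim h
  obtain ⟨tt, e3, h⟩ := fc_elim h
  refine ⟨n0, be, tt, ⟨?_, ?_, ?_⟩, h⟩
  · rw [e1]
    unfold N0
    exact rU_le (by norm_num) (by norm_num)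
      (addU fx_one.ge (rU_le (by norm_num) (by norm_num) hq (by norm_num))) (by norm_num)
  · rw [e2]
    have h0 : fx (2 * SC) = 2 := by rw [fx_two, fx_one, mul_one]
    exact addU h0.ge (rU_le (by norm_num) (by norm_num) (sqU_le (fx_nonneg _) le_rfl)
      (by norm_num))
  · rw [e3]
    exact rU_le (by norm_num) (by norm_num) (sqU_le (fx_nonneg _) le_rfl) (by norm_num)

/-! ## left zones -/

/-- facts of the first left stage -/
structure FB (σ T1' : ℝ) (icl a1 b1 : ℕ) : Prop where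
  s0 : 0 ≤ σ
  s1 : σ ≤ 1
  i1 : 1 ≤ fx icl
  i2 : T1' ≤ fx icl
  ha : itr σ T1' ^ (2 : ℕ) / (1 / fx icl) ≤ fx a1
  hb : bb σ T1' ≤ fx b1

def okB1 (p0 p1 T1 : ℕ) (k : ℕ → ℕ → ℕ → Bool) : Bool :=
  fc (mL ((p0 + p1) / 2) ((p0 + p1) / 2)) fun sg =>
  fc (SC - sg) fun dsg =>
  fc (SC + mL sg (rL 1 2 (mL dsg T1))) fun den =>
  fc (dU (SC + rU 1 2 (mU dsg T1)) den) fun i1 =>
  fc (eNL (mU sg T1)) fun en =>
  fc (dU (dU SC en) (mL den den)) fun b1 =>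
  fc (max SC T1) fun icl =>
  fc (mU (mU i1 i1) icl) fun a1 =>
    Nat.ble sg SC && Nat.ble 1 en && k icl a1 b1

theorem okB1_sound {p0 p1 T1 : ℕ} {k : ℕ → ℕ → ℕ → Bool} (h : okB1 p0 p1 T1 k = true) :
    ∃ (σ : ℝ) (icl a1 b1 : ℕ), FB σ (fx T1) icl a1 b1 ∧ k icl a1 b1 = true := by
  unfold okB1 at h
  obtain ⟨sg, e1, h⟩ := fc_elim h
  obtain ⟨dsg, e2, h⟩ := fc_elim h
  obtain ⟨den, e3, h⟩ := fc_elim h
  obtain ⟨i1, e4, h⟩ := fc_elim h
  obtain ⟨en, e5, h⟩ := fc_elim h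
  obtain ⟨b1, e6, h⟩ := fc_elim h
  obtain ⟨icl, e7, h⟩ := fc_elim h
  obtain ⟨a1, e8, h⟩ := fc_elim h
  simp only [Bool.and_eq_true, Nat.ble_eq] at h
  obtain ⟨⟨hsg, hen⟩, h⟩ := h
  have hσ0 := fx_nonneg sg
  have hσ1 : fx sg ≤ 1 := by rw [← fx_one]; exact fx_mono hsg
  have hT := fx_nonneg T1
  have hdsg : fx dsg = 1 - fx sg := by
    have : fx SC = fx (SC - sg) + fx sg := by rw [← fx_add]; congr 1; omega
    rw [fx_one] at this
    rw [e2]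
    linarith only [this]
  have hv0 : 0 ≤ (1 - fx sg) * fx T1 / 2 := by
    have := mul_nonneg (sub_nonneg.2 hσ1) hT
    linarith only [this]
  have hvU : (1 - fx sg) * fx T1 / 2 ≤ fx (rU 1 2 (mU dsg T1)) := by
    have := rU_le (c := 1 / 2) (a := 1) (b := 2) (by norm_num) (by norm_num)
      (mulU hdsg.ge (le_refl (fx T1)) hT) (by norm_num)
    linarith only [this]
  have hvL : fx (rL 1 2 (mL dsg T1)) ≤ (1 - fx sg) * fx T1 / 2 := by
    have := rL_le (c := 1 / 2) (a := 1) (b := 2) (by norm_num) (by norm_num)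
      (mulL hdsg.le (le_refl (fx T1))) (by norm_num)
    linarith only [this]
  have hden : fx den ≤ 1 + fx sg * ((1 - fx sg) * fx T1 / 2) := by
    rw [e3]
    exact addL fx_one.le (mulL le_rfl hvL)
  have hden0 : 0 < den := by
    rw [e3]
    unfold SC
    omega
  have hi : itr (fx sg) (fx T1) ≤ fx i1 := by
    rw [e4]
    unfold itr
    exact divU (addU fx_one.ge hvU) hden hden0
  have hi0 := itr_pos hσ0 hσ1 hT
  have hicl : fx icl = max 1 (fx T1) := by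
    rw [e7]
    rcases le_total SC T1 with hc | hc
    · have : 1 ≤ fx T1 := by rw [← fx_one]; exact fx_mono hc
      rw [max_eq_right hc, max_eq_right this]
    · have : fx T1 ≤ 1 := by rw [← fx_one]; exact fx_mono hc
      rw [max_eq_left hc, max_eq_left this, fx_one]
  refine ⟨fx sg, icl, a1, b1, ⟨hσ0, hσ1, ?_, ?_, ?_, ?_⟩, h⟩
  · rw [hicl]
    exact le_max_left _ _
  · rw [hicl]
    exact le_max_right _ _
  · rw [e8, div_div_eq_mul_div, div_one]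
    exact mulU (sqU_le hi0.le hi) le_rfl (fx_nonneg _)
  · rw [e6]
    unfold bb
    have h1 : exp (fx sg * fx T1) ≤ fx (dU SC en) := by
      have := expUp (y := fx sg * fx T1) (a := mU sg T1) (mulU le_rfl le_rfl hT) (by
        rw [← e5]
        omega)
      rw [← e5] at this
      exact this
    refine divU h1 (sqL_le hden) ?_
    have : SC ≤ den := by
      rw [e3]
      omega
    unfold mL
    refine Nat.div_pos ?_ (by norm_num)
    exact (Nat.mul_le_mul this this).trans' (by norm_num)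

/-- sum for `W` -/
theorem W_sum {A B P D q d tt : ℕ} {x y z t : ℝ} (hx : x ≤ fx P) (hx0 : 0 ≤ x) (hy : y ≤ fx q)
    (hz : z ≤ fx d) (ht : t ≤ fx tt) (hyz : 0 ≤ 2 * y + z) (ht0 : 0 ≤ t)
    (hD : mU (2 * A) P + mU B (2 * q + d) ≤ D) :
    fx A * (2 * x) + fx B * (2 * y + z) + fx B * t ≤ fx (D + mU B tt) := by
  rw [fx_add]
  refine add_le_add (le_trans ?_ (fx_mono hD)) (mulU le_rfl ht ht0)
  refine addU ?_ ?_
  · have e : fx A * (2 * x) = fx (2 * A) * x := by rw [fx_two]; ring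
    rw [e]
    exact mulU le_rfl hx hx0
  · refine mulU le_rfl ?_ hyz
    rw [fx_add, fx_two]
    linarith only [hy, hz]

def okB2 (p0 p1 q0 V0 n0 be tt icl a1 b1 : ℕ) (k : ℕ → ℕ → ℕ → ℕ → Bool) : Bool :=
  fc (c85 p1) fun cp =>
  fc (rU 1 2 (mU (p1 - p0) (p1 - p0))) fun d2 =>
  fc (max (mU (2 * a1) (dU p0 (c85 p0)) + mU b1 (2 * q0 + d2))
    (mU (2 * a1) (dU p1 cp) + mU b1 (2 * (SC - mL p1 p1) + d2)) + mU b1 tt) fun W =>
  fc (dL SC W) fun c1 =>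
  fc (dL SC a1) fun t2 =>
  fc (mL t2 (dL 879609302220 p1 - 351843720889)) fun c2 =>
  fc (sqU (dU (dU (mU (mU n0 be) (mU b1 icl)) cp) W)) fun s1 =>
  fc (rU 141 50 (sqU (dU (mU n0 475681044300) p1))) fun s2 =>
    Nat.ble 1 W && Nat.ble 1 p1 && Nat.ble 1 t2 && Nat.ble 549755813888 (mL V0 (rL 7 8 c1)) &&
      Nat.ble 3518437208884 (rL 7 8 (mL V0 c2)) && k s1 c1 s2 c2

theorem FA.ok {p T τ θ u V σ cl A2 : ℝ} {p0 p1 t1 q0 sp0 T1 th1 thl V0 L : ℕ}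
    (hA : FA p T τ θ u V p0 p1 t1 q0 sp0 T1 th1 thl V0 L) (s0 : 0 ≤ σ) (s1 : σ ≤ 1)
    (c0 : 0 < cl) (a0 : 0 < A2) : PtOK ⟨p, T, θ, u, V, σ, cl, A2⟩ :=
  ⟨hA.hp, hA.hp1, hA.hT, hA.hθ, hA.hu0, hA.e, s0, s1, c0, a0⟩

/-- the half -/
theorem half_le {V κ c' : ℝ} {V0 c : ℕ} (hV : fx V0 ≤ V) (hκ : 7 / 8 ≤ κ) (hc : fx c ≤ c')
    (h : 549755813888 ≤ mL V0 (rL 7 8 c)) : 1 / 2 ≤ V * (κ * c') := by
  have h1 : fx 549755813888 ≤ fx (mL V0 (rL 7 8 c)) := fx_mono h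
  rw [fx_half] at h1
  have h2 : fx (rL 7 8 c) ≤ 7 / 8 * fx c := rL_le (by norm_num) (by norm_num) le_rfl (by norm_num)
  have h3 := mL_le V0 (rL 7 8 c)
  have h4 := fx_nonneg V0
  have h5 := fx_nonneg c
  have h6 : fx (rL 7 8 c) ≤ κ * c' := by
    refine h2.trans (mul_le_mul hκ hc h5 (by linarith only [hV, hκ, hc]))
  have h7 : fx V0 * fx (rL 7 8 c) ≤ V * (κ * c') :=
    mul_le_mul hV h6 (fx_nonneg _) (h4.trans hV)
  linarith only [h1, h3, h7]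

theorem okB2_sound {p T τ θ u V σ : ℝ}
    {p0 p1 t1 q0 sp0 T1 th1 thl V0 L n0 be tt icl a1 b1 : ℕ} {k : ℕ → ℕ → ℕ → ℕ → Bool}
    (hA : FA p T τ θ u V p0 p1 t1 q0 sp0 T1 th1 thl V0 L) (hN : FN p0 T1 th1 n0 be tt)
    (hB : FB σ (fx T1) icl a1 b1) (h : okB2 p0 p1 q0 V0 n0 be tt icl a1 b1 k = true) :
    ∃ s1 c1 s2 c2 : ℕ, (∀ A2 : ℝ, 0 < A2 →
      16 / 5 ≤ 7 / 8 * (V * (tr σ T ^ (2 : ℕ) * al ⟨p, T, θ, u, V, σ, 1 / fx icl, A2⟩ / (2 * p))) ∧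
      Bd (g1 ⟨p, T, θ, u, V, σ, 1 / fx icl, A2⟩) V s1 c1 ∧
      Bd (g2 ⟨p, T, θ, u, V, σ, 1 / fx icl, A2⟩) V s2 c2) ∧ k s1 c1 s2 c2 = true := by
  unfold okB2 at h
  obtain ⟨cp, e1, h⟩ := fc_elim h
  obtain ⟨d2, e2, h⟩ := fc_elim h
  obtain ⟨W, e3, h⟩ := fc_elim h
  obtain ⟨c1, e4, h⟩ := fc_elim h
  obtain ⟨t2, e5, h⟩ := fc_elim h
  obtain ⟨c2, e6, h⟩ := fc_elim h
  obtain ⟨s1, e7, h⟩ := fc_elim h
  obtain ⟨s2, e8, h⟩ := fc_elim h
  simp only [Bool.and_eq_true, Nat.ble_eq] at h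
  obtain ⟨⟨⟨⟨⟨k1, k2⟩, k3⟩, k4⟩, k5⟩, h⟩ := h
  refine ⟨s1, c1, s2, c2, fun A2 hA2 => ?_, h⟩
  have hV0 := fx_nonneg V0
  have hVV := hA.hV
  have hVp := hA.hV0
  have hWp : 0 < fx W := fx_pos k1
  have hp1p : 0 < fx p1 := fx_pos k2
  have ht2 : 0 < fx t2 := fx_pos k3
  have hi := hB.i1
  have hicl : 0 < fx icl := by linarith only [hi]
  have hP0 := fx_nonneg p0
  have hP1 : fx p1 ≤ 1 := by rw [← fx_one]; exact fx_mono hA.p1s
  have hp01 : fx p0 ≤ fx p1 := hA.b0.trans hA.b1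
  have hp01n : p0 ≤ p1 := by
    by_contra hc
    push Not at hc
    have : fx p1 < fx p0 := by
      unfold fx
      have : (p1 : ℝ) < p0 := by exact_mod_cast hc
      gcongr
    linarith only [hp01, this]
  have hp0s : p0 ≤ SC := hp01n.trans hA.p1s
  have hok := hA.ok hB.s0 hB.s1 (by positivity : 0 < 1 / fx icl) hA2
  have hcp : fx cp ≤ 8 / 5 - 16 / 25 * fx p1 := by rw [e1]; exact c85_le hA.p1s
  have hcp0 : 0 < cp := by rw [e1]; exact c85_pos hA.p1s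
  have hd : fx (p1 - p0) = fx p1 - fx p0 := by
    have : fx p1 = fx (p1 - p0) + fx p0 := by rw [← fx_add]; congr 1; omega
    linarith only [this]
  have hd2 : (fx p1 - fx p0) ^ (2 : ℕ) / 2 ≤ fx d2 := by
    have h1 : (fx p1 - fx p0) ^ (2 : ℕ) ≤ fx (mU (p1 - p0) (p1 - p0)) :=
      sqU_le (by linarith only [hp01]) hd.ge
    have := rU_le (c := 1 / 2) (a := 1) (b := 2) (by norm_num) (by norm_num) h1 (by norm_num)
    rw [← e2] at this
    linarith only [this]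
  have hq1 : 1 - fx p1 ^ (2 : ℕ) ≤ fx (SC - mL p1 p1) := oneSubU le_rfl
  have hb1 := bb_pos hB.s0 hB.s1 (fx_nonneg T1)
  have h1p0 : 0 ≤ 1 - fx p0 ^ (2 : ℕ) := by nlinarith only [hP0, hP1, hp01]
  have h1p1 : 0 ≤ 1 - fx p1 ^ (2 : ℕ) := by nlinarith only [hP0, hP1, hp01]
  have hW0 : fx a1 * (2 * ph (fx p0)) + fx b1 * (2 * (1 - fx p0 ^ (2 : ℕ)) + (fx p1 - fx p0) ^ (2 : ℕ) / 2) +
      fx b1 * (1487 / 3200 * fx T1 ^ (2 : ℕ)) ≤ fx W := by
    rw [e3]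
    exact W_sum (ph_le hp0s) (ph_nonneg hp0s) hA.hq hd2 hN.h3 (by positivity) (by positivity)
      (le_max_left _ _)
  have hW1 : fx a1 * (2 * ph (fx p1)) + fx b1 * (2 * (1 - fx p1 ^ (2 : ℕ)) + (fx p1 - fx p0) ^ (2 : ℕ) / 2) +
      fx b1 * (1487 / 3200 * fx T1 ^ (2 : ℕ)) ≤ fx W := by
    rw [e3]
    refine W_sum (P := dU p1 cp) ?_ (ph_nonneg hA.p1s) hq1 hd2 hN.h3 (by positivity)
      (by positivity) (le_max_right _ _)
    rw [e1]
    exact ph_le hA.p1s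
  have hNb : N0 (fx p0) * (2 + 1487 / 5000 * fx th1 ^ (2 : ℕ)) * fx b1 /
      ((8 / 5 - 16 / 25 * fx p1) * (1 / fx icl)) ≤ fx (dU (mU (mU n0 be) (mU b1 icl)) cp) := by
    have hc0 : 0 < 8 / 5 - 16 / 25 * fx p1 := (fx_pos hcp0).trans_le hcp
    have e : N0 (fx p0) * (2 + 1487 / 5000 * fx th1 ^ (2 : ℕ)) * fx b1 /
      ((8 / 5 - 16 / 25 * fx p1) * (1 / fx icl)) = N0 (fx p0) * (2 + 1487 / 5000 * fx th1 ^ (2 : ℕ)) *
        (fx b1 * fx icl) / (8 / 5 - 16 / 25 * fx p1) := by field_simp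
    rw [e]
    refine divU (mulU (mulU hN.h1 hN.h2 (by positivity)) (mulU le_rfl le_rfl (fx_nonneg _))
      (mul_nonneg (fx_nonneg _) (fx_nonneg _))) hcp hcp0
  have hc1 : fx c1 ≤ 1 / fx W := by
    rw [e4]
    have := dL_le SC W
    rwa [fx_one] at this
  have ht : fx t2 * fx a1 ≤ 1 := by
    have h1 : fx t2 ≤ 1 / fx a1 := by
      rw [e5]
      have := dL_le SC a1
      rwa [fx_one] at this
    rcases (fx_nonneg a1).eq_or_lt with h2 | h2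
    · rw [← h2]
      norm_num
    · rwa [le_div_iff₀ h2] at h1
  have hc2 : fx c2 ≤ fx t2 * (4 / 5 / fx p1 - 8 / 25) := by
    rw [e6]
    refine mulL le_rfl (subL (divL ?_ le_rfl hp1p) ?_ ?_)
    · unfold fx
      norm_num
    · unfold fx
      norm_num
    · unfold dL
      rw [Nat.le_div_iff_mul_le k2]
      exact Nat.mul_le_mul (by norm_num) hA.p1s
  have h16 : 16 / 5 ≤ 7 / 8 * (fx V0 * (fx t2 * (4 / 5 / fx p1 - 8 / 25))) := by
    have h1 : fx 3518437208884 ≤ fx (rL 7 8 (mL V0 c2)) := fx_mono k5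
    have h2 : (16 : ℝ) / 5 ≤ fx 3518437208884 := by
      unfold fx
      norm_num
    have h3 : fx (rL 7 8 (mL V0 c2)) ≤ 7 / 8 * (fx V0 * fx c2) :=
      rL_le (by norm_num) (by norm_num) (mL_le _ _) (by norm_num)
    have h4 := mul_le_mul_of_nonneg_left hc2 hV0
    linarith only [h1, h2, h3, h4]
  refine ⟨hx2_of hok hV0 hVV hA.b1 hP1 hA.hT1 hB.ha ht2 ht h16, ?_, ?_⟩
  · refine Bd.of (f := 1) (M := fx (dU (mU (mU n0 be) (mU b1 icl)) cp) / fx W)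
      (c' := 1 / fx W) hVp.le (fun κ q1 q2 => ?_) (div_nonneg (fx_nonneg _) hWp.le) ?_ hc1
    · rw [mul_one]
      refine g1_le hok (by linarith only [q1]) hP0 hA.b0 hA.b1 hP1 hA.hT1 hA.hth1 hB.ha hB.hb hW0 hW1
        hNb ?_
      have := half_le hVV q1 hc1 k4
      calc (1 : ℝ) / 2 ≤ V * (κ * (1 / fx W)) := this
        _ = κ * V / fx W := by ring
    · rw [mul_one, e7]
      exact sqrtU (le_dU k1)
  · refine Bd.of (f := 141 / 50) (M := N0 (fx p0) * exp 1 / (2 * π * fx p1))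
      (c' := fx t2 * (4 / 5 / fx p1 - 8 / 25)) hVp.le (fun κ q1 q2 => ?_) ?_ ?_ hc2
    · refine g2_le hok (by linarith only [q1]) hVp hP0 hA.b0 hA.b1 hA.hT1 hB.ha ht2 ht ?_
      have h1 : 4 / 5 / fx p1 - 8 / 25 ≤ 4 / 5 / fx p1 := by linarith only []
      have h2 : fx V0 * (fx t2 * (4 / 5 / fx p1 - 8 / 25)) ≤ V * (fx t2 * (4 / 5 / fx p1)) := by
        have : fx t2 * (4 / 5 / fx p1 - 8 / 25) ≤ fx t2 * (4 / 5 / fx p1) :=
          mul_le_mul_of_nonneg_left h1 ht2.le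
        calc fx V0 * (fx t2 * (4 / 5 / fx p1 - 8 / 25)) ≤ fx V0 * (fx t2 * (4 / 5 / fx p1)) :=
              mul_le_mul_of_nonneg_left this hV0
          _ ≤ V * (fx t2 * (4 / 5 / fx p1)) := mul_le_mul_of_nonneg_right hVV (by positivity)
      have h3 : κ * V * (fx t2 * (4 / 5)) / fx p1 = κ * (V * (fx t2 * (4 / 5 / fx p1))) := by
        field_simp
      rw [h3]
      have h4 : 7 / 8 * (V * (fx t2 * (4 / 5 / fx p1))) ≤ κ * (V * (fx t2 * (4 / 5 / fx p1))) :=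
        mul_le_mul_of_nonneg_right q1 (by positivity)
      linarith only [h16, h2, h4]
    · have := N0_pos hP0 (hp01.trans hP1)
      positivity
    · rw [e8, mul_comm]
      have hn0 := N0_pos hP0 (hp01.trans hP1)
      refine rU_le (by norm_num) (by norm_num) (sqrtU ?_) (by norm_num)
      have e : N0 (fx p0) * exp 1 / (2 * π * fx p1) = N0 (fx p0) * (exp 1 / (2 * π)) / fx p1 := by
        field_simp
      rw [e]
      refine divU (mulU hN.h1 ?_ (by positivity)) le_rfl k2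
      have h1 := Real.exp_one_lt_d9
      have h2 := Real.pi_gt_d6
      rw [div_le_iff₀ (by positivity)]
      have h3 : (43262 / 100000 : ℝ) ≤ fx 475681044300 := by unfold fx; norm_num
      have h4 : (432629 / 1000000 : ℝ) ≤ fx 475681044300 := by unfold fx; norm_num
      nlinarith only [h1, h2, h4]

end SokamCl

end

/-! ### Lib_MP_af4de1_v3.ClG -/

section
namespace SokamCel
end SokamCel
namespace SokamFN
end SokamFN
/-!
# Far waves with `Γ ≥ 10`, VII: fixed point evaluation of one cell, right zones and totals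
-/

set_option autoImplicit false

namespace SokamCl

open Real SokamFN SokamCel

theorem fx_lt {m n : ℕ} (h : m < n) : fx m < fx n := by
  unfold fx
  have : (m : ℝ) < n := by exact_mod_cast h
  gcongr

/-! ## right zones, common part -/

/-- facts of the first right stage -/
structure FC (p θ u : ℝ) (A2 r1 s4 : ℕ) : Prop where
  a0 : 0 < A2
  a1 : fx A2 ≤ (8 / 5 - 16 / 25 * gam (min 1 (4 / 5 * √(1 - p ^ (2 : ℕ)) * u)) * p) *
    min 1 (1 / (4 / 5 * √(1 - p ^ (2 : ℕ)) * u))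
  r0 : 0 < r1
  r1 : θ / u ≤ fx r1
  s0 : 0 < s4
  s1 : fx s4 ≤ u / θ

def okC1 (p1 sp0 th1 thl : ℕ) (k : ℕ → ℕ → ℕ → Bool) : Bool :=
  fc (mU (6908436066480 - thl) (rU 4 5 sp0)) fun T3 =>
  fc (min SC T3) fun mn =>
  fc (SC + rU 1 3 mn + rU 5 48 (mU mn mn)) fun g =>
  fc (dL (1759218604441 - mU (rU 16 25 g) p1) (max SC T3)) fun A2 =>
  fc (6908433867456 - th1) fun uL =>
  fc (dU th1 uL) fun r1 =>
  fc (dL uL th1) fun s4 =>
    Nat.ble 1 A2 && Nat.ble 1 uL && Nat.ble 1 s4 && k A2 r1 s4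

theorem fx_tpu : 2 * π ≤ fx 6908436066480 := by
  have := Real.pi_lt_d6
  have h : (6.283186 : ℝ) ≤ fx 6908436066480 := by unfold fx; norm_num
  linarith only [this, h]

theorem fx_tpl : fx 6908433867456 ≤ 2 * π := by
  have := Real.pi_gt_d6
  have h : fx 6908433867456 ≤ (6.283184 : ℝ) := by unfold fx; norm_num
  linarith only [this, h]

theorem okC1_sound {p T τ θ u V : ℝ} {p0 p1 t1 q0 sp0 T1 th1 thl V0 L : ℕ}
    {k : ℕ → ℕ → ℕ → Bool} (hA : FA p T τ θ u V p0 p1 t1 q0 sp0 T1 th1 thl V0 L)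
    (h : okC1 p1 sp0 th1 thl k = true) :
    ∃ A2 r1 s4 : ℕ, FC p θ u A2 r1 s4 ∧ k A2 r1 s4 = true := by
  unfold okC1 at h
  obtain ⟨T3, e1, h⟩ := fc_elim h
  obtain ⟨mn, e2, h⟩ := fc_elim h
  obtain ⟨g, e3, h⟩ := fc_elim h
  obtain ⟨A2, e4, h⟩ := fc_elim h
  obtain ⟨uL, e5, h⟩ := fc_elim h
  obtain ⟨r1, e6, h⟩ := fc_elim h
  obtain ⟨s4, e7, h⟩ := fc_elim h
  simp only [Bool.and_eq_true, Nat.ble_eq] at h
  obtain ⟨⟨⟨k1, k2⟩, k3⟩, h⟩ := h
  have hp := hA.hp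
  have hp1 := hA.hp1
  have hu0 := hA.hu0
  have hq : 0 < 1 - p ^ (2 : ℕ) := by nlinarith only [hp, hp1]
  have hS : 0 < √(1 - p ^ (2 : ℕ)) := Real.sqrt_pos.2 hq
  obtain ⟨X, hX⟩ : ∃ X, X = 4 / 5 * √(1 - p ^ (2 : ℕ)) * u := ⟨_, rfl⟩
  have hX0 : 0 < X := by rw [hX]; positivity
  have huU : u ≤ fx (6908436066480 - thl) := by
    rw [hA.hu]
    exact subU fx_tpu hA.hthl
  have huL : fx uL ≤ u := by
    rw [e5, hA.hu]
    refine subL fx_tpl hA.hth1 ?_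
    rw [e5] at k2
    omega
  have hXT : X ≤ fx T3 := by
    have : X = u * (4 / 5 * √(1 - p ^ (2 : ℕ))) := by rw [hX]; ring
    rw [this, e1]
    exact mulU huU (rU_le (by norm_num) (by norm_num) hA.hsp (by norm_num)) (by positivity)
  have hmn : min 1 X ≤ fx mn := by
    rw [e2]
    exact minU fx_one.ge hXT
  have hm0 : 0 ≤ min 1 X := le_min zero_le_one hX0.le
  have hg : gam (min 1 X) ≤ fx g := by
    rw [e3]
    unfold gam
    have h1 := rU_le (c := 1 / 3) (a := 1) (b := 3) (by norm_num) (by norm_num) hmn (by norm_num)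
    have h2 := rU_le (c := 5 / 48) (a := 5) (b := 48) (by norm_num) (by norm_num)
      (sqU_le hm0 hmn) (by norm_num)
    have h3 := addU (addU fx_one.ge h1) h2
    refine le_trans (le_of_eq ?_) h3
    ring
  have hg1 := gam_ge hm0
  have hM : mU (rU 16 25 g) p1 ≤ 1759218604441 := by
    by_contra hc
    push Not at hc
    have h0 : 1759218604441 - mU (rU 16 25 g) p1 = 0 := Nat.sub_eq_zero_of_le hc.le
    rw [h0] at e4
    unfold dL at e4
    simp only [zero_mul, Nat.zero_div] at e4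
    omega
  have hM' : fx (1759218604441 - mU (rU 16 25 g) p1) ≤ 8 / 5 - 16 / 25 * gam (min 1 X) * p :=
    subL fx_85 (mulU (rU_le (by norm_num) (by norm_num) hg (by norm_num)) hA.b1 hp.le) hM
  have hicl : fx (max SC T3) = max 1 (fx T3) := by
    rcases le_total SC T3 with hc | hc
    · have : 1 ≤ fx T3 := by rw [← fx_one]; exact fx_mono hc
      rw [max_eq_right hc, max_eq_right this]
    · have : fx T3 ≤ 1 := by rw [← fx_one]; exact fx_mono hc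
      rw [max_eq_left hc, max_eq_left this, fx_one]
  have hmax : 1 ≤ max 1 (fx T3) := le_max_left _ _
  have hmaxX : X ≤ max 1 (fx T3) := hXT.trans (le_max_right _ _)
  have hA2 : fx A2 ≤ (8 / 5 - 16 / 25 * gam (min 1 X) * p) * min 1 (1 / X) := by
    have h1 : fx A2 ≤ fx (1759218604441 - mU (rU 16 25 g) p1) / max 1 (fx T3) := by
      rw [e4, ← hicl]
      exact dL_le _ _
    have h0 := fx_nonneg (1759218604441 - mU (rU 16 25 g) p1)
    have h2 : 1 / max 1 (fx T3) ≤ min 1 (1 / X) := by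
      refine le_min ?_ ?_
      · rw [div_le_one (by linarith only [hmax])]
        exact hmax
      · exact one_div_le_one_div_of_le hX0 hmaxX
    calc fx A2 ≤ fx (1759218604441 - mU (rU 16 25 g) p1) / max 1 (fx T3) := h1
      _ = fx (1759218604441 - mU (rU 16 25 g) p1) * (1 / max 1 (fx T3)) := by ring
      _ ≤ _ := mul_le_mul hM' h2 (by positivity) (h0.trans hM')
  refine ⟨A2, r1, s4, ⟨k1, ?_, ?_, ?_, k3, ?_⟩, h⟩
  · rw [hX] at hA2
    exact hA2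
  · rw [e6]
    exact Nat.succ_pos _
  · rw [e6]
    exact divU hA.hth1 huL k2
  · rw [e7]
    exact divL huL hA.hth1 hA.hθ

/-! ## right zones, general -/

def okC2 (p1 q0 V0 n0 be tt A2 r1 s4p : ℕ) (k : ℕ → ℕ → ℕ → ℕ → Bool) : Bool :=
  fc (dU (mU (mU r1 r1) (2 * p1)) A2 + 2 * q0 + tt) fun Z =>
  fc (dL SC Z) fun c3 =>
  fc (dL (mL (mL s4p s4p) A2) (2 * p1)) fun c4 =>
  fc (sqU (dU (dU (mU n0 be) A2) Z)) fun s3 =>
  fc (rU 141 50 (sqU (dU (mU n0 174992746955) p1))) fun s4 =>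
    Nat.ble 1 Z && Nat.ble 1 p1 && Nat.ble 549755813888 (mL V0 (rL 7 8 c3)) &&
      Nat.ble 3518437208884 (rL 7 8 (mL V0 c4)) && k s3 c3 s4 c4

theorem fx_2p : 1 / (2 * π) ≤ fx 174992746955 := by
  have h1 := Real.pi_gt_d6
  have h : 1 ≤ fx 174992746955 * (2 * 3.141592) := by unfold fx; norm_num
  rw [div_le_iff₀ (by positivity)]
  have h2 := mul_le_mul_of_nonneg_left (by linarith : (2 : ℝ) * 3.141592 ≤ 2 * π)
    (fx_nonneg 174992746955)
  linarith only [h, h2]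

/-- the right tail -/
theorem tail_bd {p T τ θ u V σ cl c k4 : ℝ} {p0 p1 t1 q0 sp0 T1 th1 thl V0 L n0 be tt A2 r1 s4p c4 s4 : ℕ}
    (hA : FA p T τ θ u V p0 p1 t1 q0 sp0 T1 th1 thl V0 L) (hN : FN p0 T1 th1 n0 be tt)
    (hC : FC p θ u A2 r1 s4p) (s0 : 0 ≤ σ) (s1 : σ ≤ 1) (c0 : 0 < cl) (hp1 : 0 < p1)
    (hc4 : c4 = dL (mL (mL s4p s4p) A2) (2 * p1)) (hk4 : 1 / 2 ≤ k4)
    (h4 : k4 ≤ 7 / 8 * (fx V0 * fx c4)) (hc : 0 ≤ c)
    (hs : c * fx (sqU (dU (mU n0 174992746955) p1)) ≤ fx s4) :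
    k4 ≤ 7 / 8 * (V * ((u / θ) ^ (2 : ℕ) * fx A2 / (2 * p))) ∧
    Bd (fun κ => √(N0 p / (2 * π * κ * p)) * c * exp (-(κ * V * ((u / θ) ^ (2 : ℕ) * fx A2 / (2 * p)))))
      V s4 c4 := by
  have hV0 := fx_nonneg V0
  have hVV := hA.hV
  have hVp := hA.hV0
  have hA2 : 0 < fx A2 := fx_pos hC.a0
  have hs4 : 0 < fx s4p := fx_pos hC.s0
  have hp1p : 0 < fx p1 := fx_pos hp1
  have hP0 := fx_nonneg p0
  have hP1 : fx p1 ≤ 1 := by rw [← fx_one]; exact fx_mono hA.p1s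
  have hp01 : fx p0 ≤ fx p1 := hA.b0.trans hA.b1
  have hok := hA.ok s0 s1 c0 hA2
  have hc4' : fx c4 ≤ fx s4p ^ (2 : ℕ) * fx A2 / (2 * fx p1) := by
    rw [hc4]
    refine divL (mulL (sqL_le le_rfl) le_rfl) ?_ (by positivity)
    rw [fx_two]
  have h16 : k4 ≤ 7 / 8 * (fx V0 * (fx s4p ^ (2 : ℕ) * fx A2 / (2 * fx p1))) := by
    have := mul_le_mul_of_nonneg_left hc4' hV0
    linarith only [h4, this]
  refine ⟨hx4_of hok hV0 hVV hA.b1 hs4 hC.s1 h16, ?_⟩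
  have hn0 := N0_pos hP0 (hp01.trans hP1)
  refine Bd.of (f := c) (M := N0 (fx p0) / (2 * π * fx p1))
      (c' := fx s4p ^ (2 : ℕ) * fx A2 / (2 * fx p1)) hVp.le (fun κ q1 q2 => ?_) (by positivity) ?_ hc4'
  · have := g4_le' (κ := κ) hok (by linarith only [q1]) hVp hP0 hA.b0 hA.b1 hs4 hC.s1 hc ?_
    · exact this
    · have h1 : fx V0 * (fx s4p ^ (2 : ℕ) * fx A2 / (2 * fx p1)) ≤
          V * (fx s4p ^ (2 : ℕ) * fx A2 / (2 * fx p1)) := mul_le_mul_of_nonneg_right hVV (by positivity)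
      have h2 : 7 / 8 * (V * (fx s4p ^ (2 : ℕ) * fx A2 / (2 * fx p1))) ≤
          κ * (V * (fx s4p ^ (2 : ℕ) * fx A2 / (2 * fx p1))) :=
        mul_le_mul_of_nonneg_right q1 (by positivity)
      have h3 : κ * V * (fx s4p ^ (2 : ℕ) * fx A2 / 2) / fx p1 =
          κ * (V * (fx s4p ^ (2 : ℕ) * fx A2 / (2 * fx p1))) := by field_simp
      show 1 / 2 ≤ κ * V * (fx s4p ^ (2 : ℕ) * fx A2 / 2) / fx p1
      rw [h3]
      linarith only [hk4, h16, h1, h2]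
  · refine le_trans ?_ hs
    rw [mul_comm]
    refine mul_le_mul_of_nonneg_left (sqrtU ?_) hc
    have e : N0 (fx p0) / (2 * π * fx p1) = N0 (fx p0) * (1 / (2 * π)) / fx p1 := by
      field_simp
    rw [e]
    exact divU (mulU hN.h1 fx_2p (by positivity)) le_rfl hp1

theorem okC2_sound {p T τ θ u V : ℝ}
    {p0 p1 t1 q0 sp0 T1 th1 thl V0 L n0 be tt A2 r1 s4p : ℕ} {k : ℕ → ℕ → ℕ → ℕ → Bool}
    (hA : FA p T τ θ u V p0 p1 t1 q0 sp0 T1 th1 thl V0 L) (hN : FN p0 T1 th1 n0 be tt)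
    (hC : FC p θ u A2 r1 s4p) (h : okC2 p1 q0 V0 n0 be tt A2 r1 s4p k = true) :
    ∃ s3 c3 s4 c4 : ℕ, (∀ σ cl : ℝ, 0 ≤ σ → σ ≤ 1 → 0 < cl →
      16 / 5 ≤ 7 / 8 * (V * ((u / θ) ^ (2 : ℕ) * fx A2 / (2 * p))) ∧
      Bd (g3 ⟨p, T, θ, u, V, σ, cl, fx A2⟩) V s3 c3 ∧
      Bd (g4 ⟨p, T, θ, u, V, σ, cl, fx A2⟩) V s4 c4) ∧ k s3 c3 s4 c4 = true := by
  unfold okC2 at h
  obtain ⟨Z, e1, h⟩ := fc_elim h
  obtain ⟨c3, e2, h⟩ := fc_elim h
  obtain ⟨c4, e3, h⟩ := fc_elim h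
  obtain ⟨s3, e4, h⟩ := fc_elim h
  obtain ⟨s4, e5, h⟩ := fc_elim h
  simp only [Bool.and_eq_true, Nat.ble_eq] at h
  obtain ⟨⟨⟨⟨k1, k2⟩, k3⟩, k4⟩, h⟩ := h
  refine ⟨s3, c3, s4, c4, fun σ cl s0 s1 c0 => ?_, h⟩
  have hV0 := fx_nonneg V0
  have hVV := hA.hV
  have hVp := hA.hV0
  have hA2 : 0 < fx A2 := fx_pos hC.a0
  have hZp : 0 < fx Z := fx_pos k1
  have hp1p : 0 < fx p1 := fx_pos k2
  have hP0 := fx_nonneg p0
  have hP1 : fx p1 ≤ 1 := by rw [← fx_one]; exact fx_mono hA.p1s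
  have hp01 : fx p0 ≤ fx p1 := hA.b0.trans hA.b1
  have hn0 := N0_pos hP0 (hp01.trans hP1)
  have hok := hA.ok s0 s1 c0 hA2
  have h4 : 16 / 5 ≤ 7 / 8 * (fx V0 * fx c4) := by
    have h1 : fx 3518437208884 ≤ fx (rL 7 8 (mL V0 c4)) := fx_mono k4
    have h2 : (16 : ℝ) / 5 ≤ fx 3518437208884 := by
      unfold fx
      norm_num
    have h3 : fx (rL 7 8 (mL V0 c4)) ≤ 7 / 8 * (fx V0 * fx c4) :=
      rL_le (by norm_num) (by norm_num) (mL_le _ _) (by norm_num)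
    linarith only [h1, h2, h3]
  have ht := tail_bd (σ := σ) (cl := cl) (c := 141 / 50) hA hN hC s0 s1 c0 k2 e3 (by norm_num) h4
    (by norm_num) (s4 := s4) (by
      rw [e5]
      exact rU_le (by norm_num) (by norm_num) le_rfl (by norm_num))
  refine ⟨ht.1, ?_, ht.2⟩
  have hZ : fx r1 ^ (2 : ℕ) * (2 * fx p1 / fx A2) + 2 * (1 - fx p0 ^ (2 : ℕ)) + 1487 / 3200 * fx T1 ^ (2 : ℕ) ≤
      fx Z := by
    rw [e1]
    refine addU (addU ?_ ?_) hN.h3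
    · have e : fx r1 ^ (2 : ℕ) * (2 * fx p1 / fx A2) = fx r1 ^ (2 : ℕ) * (2 * fx p1) / fx A2 := by ring
      rw [e]
      refine divU (mulU (sqU_le (fx_nonneg _) le_rfl) ?_ (by positivity)) le_rfl hC.a0
      rw [fx_two]
    · rw [fx_two]
      exact mul_le_mul_of_nonneg_left hA.hq (by norm_num)
  have hc3 : fx c3 ≤ 1 / fx Z := by
    rw [e2]
    have := dL_le SC Z
    rwa [fx_one] at this
  refine Bd.of (f := 1) (M := fx (dU (mU n0 be) A2) / fx Z)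
      (c' := 1 / fx Z) hVp.le (fun κ q1 q2 => ?_) (div_nonneg (fx_nonneg _) hZp.le) ?_ hc3
  · rw [mul_one]
    refine g3_le hok (by linarith only [q1]) hP0 hA.b0 hA.b1 hA.hT1 hA.hth1 hC.r1 hZ ?_ ?_
    · exact divU (mulU hN.h1 hN.h2 (by positivity)) le_rfl hC.a0
    · have := half_le hVV q1 hc3 k3
      calc (1 : ℝ) / 2 ≤ V * (κ * (1 / fx Z)) := this
        _ = κ * V / fx Z := by ring
  · rw [mul_one, e4]
    exact sqrtU (le_dU k1)

/-! ## right zones, window form -/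

def okC3 (p0 p1 q0 th1 V0 n0 A2 r1 s4p : ℕ) (k : ℕ → ℕ → ℕ → ℕ → ℕ → ℕ → Bool) : Bool :=
  fc (dU (2 * SC) A2) fun i2 =>
  fc (rU 1 4 (mU (p1 - p0) (p1 - p0))) fun d4 =>
  fc (max (mU i2 p0 + rU 25 11 (q0 + d4)) (mU i2 p1 + rU 25 11 (SC - mL p1 p1 + d4))) fun Z =>
  fc (dL SC (mU (mU r1 r1) Z)) fun c3 =>
  fc (dL (mL (mL s4p s4p) A2) (2 * p1)) fun c4 =>
  fc (dL 696650567358 (mU (mU th1 th1) q0)) fun c5 =>
  fc (sqU (dU (rU 25 11 (dU n0 A2)) Z)) fun s3 =>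
  fc (rU 27 20 (sqU (dU (mU n0 174992746955) p1))) fun s4 =>
  fc (rU 1 2 (sqU (dU n0 (mL (SC - mU p0 p0) A2)))) fun s5 =>
    Nat.ble 1 Z && Nat.ble 1 p1 && Nat.ble (p0 + 1) SC && Nat.ble 1 (mL (SC - mU p0 p0) A2) &&
      Nat.ble 549755813888 (mL V0 (rL 7 8 c3)) && Nat.ble 549755813888 (mL V0 (rL 7 8 c5)) &&
      Nat.ble 7036874417767 (rL 7 8 (mL V0 c4)) && k s3 c3 s4 c4 s5 c5

/-- sum of two bounds -/
def Bd2 (g : ℝ → ℝ) (V : ℝ) (s c s' c' : ℕ) : Prop :=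
  ∃ a b : ℝ → ℝ, (∀ κ, 7 / 8 ≤ κ → κ ≤ 1 → g κ ≤ a κ + b κ) ∧ Bd a V s c ∧ Bd b V s' c'

theorem okC3_sound {p T τ θ u V : ℝ}
    {p0 p1 t1 q0 sp0 T1 th1 thl V0 L n0 be tt A2 r1 s4p : ℕ}
    {k : ℕ → ℕ → ℕ → ℕ → ℕ → ℕ → Bool}
    (hA : FA p T τ θ u V p0 p1 t1 q0 sp0 T1 th1 thl V0 L) (hN : FN p0 T1 th1 n0 be tt)
    (hC : FC p θ u A2 r1 s4p) (h : okC3 p0 p1 q0 th1 V0 n0 A2 r1 s4p k = true) :
    ∃ s3 c3 s4 c4 s5 c5 : ℕ, (∀ σ cl : ℝ, 0 ≤ σ → σ ≤ 1 → 0 < cl →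
      32 / 5 ≤ 7 / 8 * (V * ((u / θ) ^ (2 : ℕ) * fx A2 / (2 * p))) ∧
      Bd2 (g3h ⟨p, T, θ, u, V, σ, cl, fx A2⟩) V s3 c3 s5 c5 ∧
      Bd (g4h ⟨p, T, θ, u, V, σ, cl, fx A2⟩) V s4 c4) ∧ k s3 c3 s4 c4 s5 c5 = true := by
  unfold okC3 at h
  obtain ⟨i2, e1, h⟩ := fc_elim h
  obtain ⟨d4, e2, h⟩ := fc_elim h
  obtain ⟨Z, e3, h⟩ := fc_elim h
  obtain ⟨c3, e4, h⟩ := fc_elim h
  obtain ⟨c4, e5, h⟩ := fc_elim h
  obtain ⟨c5, e6, h⟩ := fc_elim h
  obtain ⟨s3, e7, h⟩ := fc_elim h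
  obtain ⟨s4, e8, h⟩ := fc_elim h
  obtain ⟨s5, e9, h⟩ := fc_elim h
  simp only [Bool.and_eq_true, Nat.ble_eq] at h
  obtain ⟨⟨⟨⟨⟨⟨⟨k1, k2⟩, k3⟩, k4⟩, k5⟩, k6⟩, k7⟩, h⟩ := h
  refine ⟨s3, c3, s4, c4, s5, c5, fun σ cl s0 s1 c0 => ?_, h⟩
  have hV0 := fx_nonneg V0
  have hVV := hA.hV
  have hVp := hA.hV0
  have hA2 : 0 < fx A2 := fx_pos hC.a0
  have hZp : 0 < fx Z := fx_pos k1
  have hp1p : 0 < fx p1 := fx_pos k2
  have hr0 : 0 < fx r1 := fx_pos hC.r0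
  have hP0 := fx_nonneg p0
  have hP0' : fx p0 < 1 := by
    rw [← fx_one]
    exact fx_lt (by omega)
  have hP1 : fx p1 ≤ 1 := by rw [← fx_one]; exact fx_mono hA.p1s
  have hp01 : fx p0 ≤ fx p1 := hA.b0.trans hA.b1
  have hp01n : p0 ≤ p1 := by
    by_contra hc
    push Not at hc
    have := fx_lt hc
    linarith only [hp01, this]
  have hn0 := N0_pos hP0 (hp01.trans hP1)
  have hok := hA.ok s0 s1 c0 hA2
  have hq0 : 0 < 1 - fx p0 ^ (2 : ℕ) := by nlinarith only [hP0, hP0']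
  have h4 : 32 / 5 ≤ 7 / 8 * (fx V0 * fx c4) := by
    have h1 : fx 7036874417767 ≤ fx (rL 7 8 (mL V0 c4)) := fx_mono k7
    have h2 : (32 : ℝ) / 5 ≤ fx 7036874417767 := by
      unfold fx
      norm_num
    have h3 : fx (rL 7 8 (mL V0 c4)) ≤ 7 / 8 * (fx V0 * fx c4) :=
      rL_le (by norm_num) (by norm_num) (mL_le _ _) (by norm_num)
    linarith only [h1, h2, h3]
  have ht := tail_bd (σ := σ) (cl := cl) (c := 27 / 20) hA hN hC s0 s1 c0 k2 e5 (by norm_num) h4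
    (by norm_num) (s4 := s4) (by
      rw [e8]
      exact rU_le (by norm_num) (by norm_num) le_rfl (by norm_num))
  refine ⟨ht.1, ?_, ht.2⟩
  have hd : fx (p1 - p0) = fx p1 - fx p0 := by
    have : fx p1 = fx (p1 - p0) + fx p0 := by rw [← fx_add]; congr 1; omega
    linarith only [this]
  have hd4 : (fx p1 - fx p0) ^ (2 : ℕ) / 4 ≤ fx d4 := by
    have h1 : (fx p1 - fx p0) ^ (2 : ℕ) ≤ fx (mU (p1 - p0) (p1 - p0)) :=
      sqU_le (by linarith only [hp01]) hd.ge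
    have := rU_le (c := 1 / 4) (a := 1) (b := 4) (by norm_num) (by norm_num) h1 (by norm_num)
    rw [← e2] at this
    linarith only [this]
  have hi2 : 2 / fx A2 ≤ fx i2 := by
    rw [e1]
    refine divU ?_ le_rfl hC.a0
    rw [fx_two, fx_one, mul_one]
  have hZ0 : 2 / fx A2 * fx p0 + 25 / 11 * (1 - fx p0 ^ (2 : ℕ) + (fx p1 - fx p0) ^ (2 : ℕ) / 4) ≤ fx Z := by
    rw [e3]
    refine le_trans ?_ (fx_mono (le_max_left _ _))
    exact addU (mulU hi2 le_rfl (fx_nonneg _)) (rU_le (by norm_num) (by norm_num)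
      (addU hA.hq hd4) (by norm_num))
  have hZ1 : 2 / fx A2 * fx p1 + 25 / 11 * (1 - fx p1 ^ (2 : ℕ) + (fx p1 - fx p0) ^ (2 : ℕ) / 4) ≤ fx Z := by
    rw [e3]
    refine le_trans ?_ (fx_mono (le_max_right _ _))
    exact addU (mulU hi2 le_rfl (fx_nonneg _)) (rU_le (by norm_num) (by norm_num)
      (addU (oneSubU le_rfl) hd4) (by norm_num))
  have hc3 : fx c3 ≤ 1 / fx r1 ^ (2 : ℕ) / fx Z := by
    rw [e4, div_div]
    exact divL fx_one.le (mulU (sqU_le (fx_nonneg _) le_rfl) le_rfl (fx_nonneg _)) (by positivity)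
  have hth0 : 0 < fx th1 := hA.hθ.trans_le hA.hth1
  have hc5 : fx c5 ≤ 396 / 625 / fx th1 ^ (2 : ℕ) / (1 - fx p0 ^ (2 : ℕ)) := by
    rw [e6, div_div]
    refine divL ?_ (mulU (sqU_le (fx_nonneg _) le_rfl) hA.hq hq0.le) (by positivity)
    unfold fx
    norm_num
  refine ⟨fun κ => √(fx (rU 25 11 (dU n0 A2)) / fx Z / κ) *
      exp (-(V * (κ * (1 / fx r1 ^ (2 : ℕ) / fx Z)))),
    fun κ => √(fx (dU n0 (mL (SC - mU p0 p0) A2)) / κ) / 2 *
      exp (-(V * (κ * (396 / 625 / fx th1 ^ (2 : ℕ) / (1 - fx p0 ^ (2 : ℕ)))))), fun κ q1 q2 => ?_, ?_, ?_⟩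
  · have hh := half_le hVV q1 hc3 k5
    have hh' := half_le hVV q1 hc5 k6
    refine g3h_le (x := ⟨p, T, θ, u, V, σ, cl, fx A2⟩) hok (by linarith only [q1]) hVp hP0 hA.b0 hA.b1
      hP0' hA.hth1 hr0 hC.r1 hZ0 hZ1 ?_ ?_ rfl ?_ ?_
    · have e : N0 (fx p0) / (fx A2 * (11 / 25)) = 25 / 11 * (N0 (fx p0) / fx A2) := by
        field_simp
      show N0 (fx p0) / (fx A2 * (11 / 25)) ≤ _
      rw [e]
      exact rU_le (by norm_num) (by norm_num) (divU hN.h1 le_rfl hC.a0) (by norm_num)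
    · show N0 (fx p0) / ((1 - fx p0 ^ (2 : ℕ)) * fx A2) ≤ _
      refine divU hN.h1 (mulL ?_ le_rfl) k4
      exact oneSubL hP0 le_rfl (by omega)
    · show 1 / 2 ≤ κ * V * (1 / fx r1 ^ (2 : ℕ)) / fx Z
      calc (1 : ℝ) / 2 ≤ V * (κ * (1 / fx r1 ^ (2 : ℕ) / fx Z)) := hh
        _ = _ := by ring
    · show 1 / 2 ≤ κ * V * (396 / 625 / fx th1 ^ (2 : ℕ)) / (1 - fx p0 ^ (2 : ℕ))
      calc (1 : ℝ) / 2 ≤ V * (κ * (396 / 625 / fx th1 ^ (2 : ℕ) / (1 - fx p0 ^ (2 : ℕ)))) := hh'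
        _ = _ := by ring
  · refine Bd.of (f := 1) (M := fx (rU 25 11 (dU n0 A2)) / fx Z)
      (c' := 1 / fx r1 ^ (2 : ℕ) / fx Z) hVp.le (fun κ q1 q2 => ?_) (div_nonneg (fx_nonneg _) hZp.le) ?_ hc3
    · rw [mul_one]
    · rw [mul_one, e7]
      exact sqrtU (le_dU k1)
  · refine Bd.of (f := 1 / 2) (M := fx (dU n0 (mL (SC - mU p0 p0) A2)))
      (c' := 396 / 625 / fx th1 ^ (2 : ℕ) / (1 - fx p0 ^ (2 : ℕ))) hVp.le (fun κ q1 q2 => ?_)
      (fx_nonneg _) ?_ hc5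
    · refine le_of_eq ?_
      ring
    · rw [e9, mul_comm]
      exact rU_le (by norm_num) (by norm_num) (sqrtU le_rfl) (by norm_num)

end SokamCl

end
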