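import Pool.Agent.Lib_MP_af4de1_zy.Z63
import Pool.Agent.Lib_MP_af4de1_zy.Z67
import Pool.Agent.Lib_MP_af4de1_zy.Z78
import Pool.Agent.Lib_MP_af4de1_zy.Z79
import Pool.Agent.Lib_MP_af4de1_zy.Z97
import Pool.Agent.Lib_MP_af4de1_zy.Z158

/-! ### Lib_MP_af4de1_v3.OutLB -/

section
namespace SokamF1G
end SokamF1G
namespace SokamPG
end SokamPG
/-!
# `P2.outL`: numbers of case B
-/

set_option autoImplicit false

namespace SokamP2O

open Real Set SokamF1G MeasureTheory SokamPG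

namespace OutLB

/-- `x (y + y²/2 + y³/6) + (Y - Y³/3) ≤ η` -/
theorem key {x y ρ η ψ W D : ℝ} (G : GeL x y ρ η ψ W D) :
    x * (y + y ^ (2 : ℕ) / 2 + y ^ (3 : ℕ) / 6) + (y / x - (y / x) ^ (3 : ℕ) / 3) ≤ η := by
  have h1 := e_ge3 G.y0
  have h2 := G.xW
  have h3 := G.psi_ge
  have h10 : η = ψ + W * exp y - x := by rw [← G.rho]; exact G.eta
  have h4 : 0 ≤ y + y ^ (2 : ℕ) / 2 + y ^ (3 : ℕ) / 6 := by
    have := G.y0
    positivity
  have h5 : W * (1 + y + y ^ (2 : ℕ) / 2 + y ^ (3 : ℕ) / 6) ≤ W * exp y :=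
    mul_le_mul_of_nonneg_left h1 G.W0.le
  have h6 : x * (y + y ^ (2 : ℕ) / 2 + y ^ (3 : ℕ) / 6) ≤ W * (y + y ^ (2 : ℕ) / 2 + y ^ (3 : ℕ) / 6) :=
    mul_le_mul_of_nonneg_right h2 h4
  linarith only [h2, h3, h10, h5, h6]

theorem exp_le4 {b : ℝ} (h : 0 ≤ b) (h1 : b ≤ 1) :
    exp b ≤ 1 + b + b ^ (2 : ℕ) / 2 + b ^ (3 : ℕ) / 6 + 5 * b ^ (4 : ℕ) / 96 := by
  have := Real.exp_bound' h h1 (n := 4) (by norm_num)
  simp [Finset.sum_range_succ, Nat.factorial] at this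
  linarith only [this]

theorem xlow {x y ρ η ψ W D : ℝ} (G : GeL x y ρ η ψ W D) (hη1 : 20419 / 10000 ≤ η)
    (hη2 : η ≤ 204204 / 100000) (hρ : 485 / 100 ≤ ρ) : 296 / 100 ≤ x := by
  have hx := G.x0
  have hy := G.y0
  have h1 := G.psi_ge
  have h2 := G.F3
  have h3 := G.eta
  have h4 := G.Y0
  have h5 := G.Y1
  have h6 : y = y / x * x := by field_simp
  set Y := y / x with hY
  have h7 : y * (1 / x) = Y := by rw [hY]; ring
  have hY3 : Y ^ (3 : ℕ) / 3 ≤ Y * (16 / 300) := by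
    have : Y ^ (2 : ℕ) ≤ (2 / 5) ^ (2 : ℕ) := pow_le_pow_left₀ h4 h5 2
    nlinarith only [h4, this]
  by_contra hlt
  push Not at hlt
  have hx28 : 2807 / 1000 ≤ x := by linarith only [hη2, hρ, h3, h1, h4, hY3]
  -- F3 : η ≤ Y x (x + η/2) + 11/10 Y
  have h8 : η ≤ Y * (x * (x + η / 2) + 11 / 10) := by
    have e : y * (x + η / 2 + 11 / 10 * (1 / x)) = y * (x + η / 2) + 11 / 10 * (y * (1 / x)) := by
      ring
    rw [e, h7] at h2
    have e2 : y * (x + η / 2) = Y * (x * (x + η / 2)) := by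
      rw [← mul_assoc, ← h6]
    rw [e2] at h2
    linarith only [h2]
  have h9 : x * (x + η / 2) + 11 / 10 ≤ 12885 / 1000 := by nlinarith only [hη2, hx, hlt]
  have h10 : 20419 / 10000 ≤ Y * (12885 / 1000) := by
    have := mul_le_mul_of_nonneg_left h9 h4
    linarith only [hη1, h8, this]
  have h11 : Y ≤ 22 / 100 := by
    have := G.y1
    linarith only [hη2, hρ, h3, h1, hY3, hlt]
  have h12 : Y ^ (3 : ℕ) / 3 ≤ Y * (484 / 30000) := by
    have : Y ^ (2 : ℕ) ≤ (22 / 100) ^ (2 : ℕ) := pow_le_pow_left₀ h4 h11 2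
    nlinarith only [h10, this]
  linarith only [hη2, hρ, h3, h1, hlt, h10, h12]

theorem yup {x y ρ η ψ W D : ℝ} (G : GeL x y ρ η ψ W D)
    (hη2 : η ≤ 204204 / 100000) (hx : 296 / 100 ≤ x) : y ≤ 498 / 1000 := by
  have hy := G.y0
  have h1 := key G
  have h4 := G.Y0
  have h5 := G.Y1
  have hx0 := G.x0
  have h6 : y = y / x * x := by field_simp
  set Y := y / x with hY
  have hY3 : Y ^ (3 : ℕ) / 3 ≤ Y * (16 / 300) := by
    have : Y ^ (2 : ℕ) ≤ (2 / 5) ^ (2 : ℕ) := pow_le_pow_left₀ h4 h5 2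
    nlinarith only [h4, this]
  by_contra hlt
  push Not at hlt
  have hP : (498 / 1000 : ℝ) + (498 / 1000) ^ (2 : ℕ) / 2 + (498 / 1000) ^ (3 : ℕ) / 6 ≤
      y + y ^ (2 : ℕ) / 2 + y ^ (3 : ℕ) / 6 := by
    have a := pow_le_pow_left₀ (by norm_num : (0:ℝ) ≤ 498 / 1000) hlt.le 2
    have b := pow_le_pow_left₀ (by norm_num : (0:ℝ) ≤ 498 / 1000) hlt.le 3
    linarith only [hlt, a, b]
  have hQ : x * ((498 / 1000 : ℝ) + (498 / 1000) ^ (2 : ℕ) / 2 + (498 / 1000) ^ (3 : ℕ) / 6) ≤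
      x * (y + y ^ (2 : ℕ) / 2 + y ^ (3 : ℕ) / 6) := mul_le_mul_of_nonneg_left hP hx0.le
  rcases le_total x (33 / 10) with h | h
  · have h7 : 498 / 1000 ≤ Y * (33 / 10) := by
      have := mul_le_mul_of_nonneg_left h h4
      linarith only [h6, hlt, this]
    linarith only [hη2, hx, h1, hY3, hQ, h7]
  · linarith only [hη2, h1, h4, hY3, hQ, h]

theorem yup2 {x y ρ η ψ W D : ℝ} (G : GeL x y ρ η ψ W D)
    (hη2 : η ≤ 204204 / 100000) {a c : ℝ} (ha : a ≤ x) (hc : 0 ≤ c)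
    (hac : 204204 / 100000 < a * (c + c ^ (2 : ℕ) / 2 + c ^ (3 : ℕ) / 6)) : y ≤ c := by
  have h1 := key G
  have h4 := G.Y0
  have h5 := G.Y1
  have hx0 := G.x0
  set Y := y / x with hY
  have hY3 : Y ^ (3 : ℕ) / 3 ≤ Y * (16 / 300) := by
    have : Y ^ (2 : ℕ) ≤ (2 / 5) ^ (2 : ℕ) := pow_le_pow_left₀ h4 h5 2
    nlinarith only [h4, this]
  by_contra hlt
  push Not at hlt
  have hP : c + c ^ (2 : ℕ) / 2 + c ^ (3 : ℕ) / 6 ≤ y + y ^ (2 : ℕ) / 2 + y ^ (3 : ℕ) / 6 := by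
    have a := pow_le_pow_left₀ hc hlt.le 2
    have b := pow_le_pow_left₀ hc hlt.le 3
    linarith only [hlt, a, b]
  have hQ : x * (c + c ^ (2 : ℕ) / 2 + c ^ (3 : ℕ) / 6) ≤
      x * (y + y ^ (2 : ℕ) / 2 + y ^ (3 : ℕ) / 6) := mul_le_mul_of_nonneg_left hP hx0.le
  have hR : a * (c + c ^ (2 : ℕ) / 2 + c ^ (3 : ℕ) / 6) ≤ x * (c + c ^ (2 : ℕ) / 2 + c ^ (3 : ℕ) / 6) :=
    mul_le_mul_of_nonneg_right ha (by positivity)
  linarith only [hη2, hac, h1, h4, hY3, hQ, hR]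

theorem sqrt_ineq {x y W D : ℝ} (hW : 0 < W)
    (hW2 : W ^ (2 : ℕ) = x ^ (2 : ℕ) + y ^ (2 : ℕ)) (hD2 : D ^ (2 : ℕ) = (1 + y) ^ (2 : ℕ) + x ^ (2 : ℕ))
    (hx : 296 / 100 ≤ x) (hyu : y ≤ 498 / 1000) :
    1001 / 1000 * √(12 / 11 * (D / W)) ≤ 111 / 100 := by
  have h1 : D ≤ 111 / 100 * W := by
    refine abs_le_of_sq_le_sq' ?_ (by positivity) |>.2
    rw [mul_pow, hD2, hW2]
    nlinarith only [hx, hyu]
  have h2 : D / W ≤ 111 / 100 := by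
    rw [div_le_iff₀ hW]
    exact h1
  have h3 : √(12 / 11 * (D / W)) ≤ 11088 / 10000 := by
    rw [Real.sqrt_le_left (by norm_num)]
    linarith only [h2]
  linarith only [h3]

theorem c4 {x y D : ℝ} (hx0 : 0 < x) (hD2 : D ^ (2 : ℕ) = (1 + y) ^ (2 : ℕ) + x ^ (2 : ℕ))
    (hy : 0 ≤ y)
    (hq : (1 + 9 / 64 * y ^ (2 : ℕ)) * (x ^ (2 : ℕ) + (1 + y) ^ (2 : ℕ) / 2) ≤
      72 / 25 * (11 / 24 * x ^ (2 : ℕ) - 11 / 64 * x ^ (2 : ℕ) * y + 3 / 8 * x * y -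
        351 / 625 * (9 / 64) * x ^ (2 : ℕ) * y ^ (2 : ℕ))) :
    (1 + (3 / 8 * y) ^ (2 : ℕ)) * D ≤
      (6 / 5) ^ (2 : ℕ) * (2 * (11 / 24 * (1 - 3 / 8 * y) * x +
        (1 - 351 / 625 * (x * (3 / 8 * y))) * (3 / 8 * y))) := by
  have h1 : D ≤ x + (1 + y) ^ (2 : ℕ) / (2 * x) := by
    have h0 : 0 ≤ x + (1 + y) ^ (2 : ℕ) / (2 * x) := by positivity
    refine abs_le_of_sq_le_sq' ?_ h0 |>.2
    have e : (x + (1 + y) ^ (2 : ℕ) / (2 * x)) ^ (2 : ℕ) =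
        (1 + y) ^ (2 : ℕ) + x ^ (2 : ℕ) + ((1 + y) ^ (2 : ℕ) / (2 * x)) ^ (2 : ℕ) := by
      field_simp
      ring
    rw [e, hD2]
    linarith only [sq_nonneg ((1 + y) ^ (2 : ℕ) / (2 * x))]
  have h2 : x * D ≤ x ^ (2 : ℕ) + (1 + y) ^ (2 : ℕ) / 2 := by
    have := mul_le_mul_of_nonneg_left h1 hx0.le
    have e : x * (x + (1 + y) ^ (2 : ℕ) / (2 * x)) = x ^ (2 : ℕ) + (1 + y) ^ (2 : ℕ) / 2 := by
      field_simp
    linarith only [this, e]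
  refine le_of_mul_le_mul_left ?_ hx0
  have h3 : (1 + 9 / 64 * y ^ (2 : ℕ)) * (x * D) ≤ (1 + 9 / 64 * y ^ (2 : ℕ)) * (x ^ (2 : ℕ) + (1 + y) ^ (2 : ℕ) / 2) :=
    mul_le_mul_of_nonneg_left h2 (by positivity)
  linarith only [hq, h3]

/-- the last line -/
theorem last {x y ρ η ψ W D d : ℝ} (G : GeL x y ρ η ψ W D)
    (hη2 : η ≤ 204204 / 100000) (hρ : 485 / 100 ≤ ρ)
    (hd71 : 71 / 10 ≤ d) (hyd : 206 / 100 ≤ y * d)
    (hx : 296 / 100 ≤ x) (hyu : y ≤ 498 / 1000) :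
    (y + 25 / 32 * y) / 2 - d * ((25 / 32 * y) * π -
      ρ * (exp (25 / 32 * y) - 1 - 25 / 32 * y) - (ρ - x * (1 + y))) +
      6 * (25 / 32 * y * d) ^ (2 : ℕ) / (11 * (ρ * exp (25 / 32 * y) * d)) ≤ -(3 / 5) := by
  have hy := G.y0
  have hr := G.r0
  have hd : 0 < d := by linarith only [hd71]
  have hp := Real.pi_gt_d4
  have hF1 := G.F1 (by linarith only [hη2])
  have hF2 := G.F2
  have hY0 := G.Y0
  have hx0 := G.x0
  have hYy : y / x ≤ y / (296 / 100) := div_le_div_of_nonneg_left hy (by norm_num) hx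
  -- exponential
  have hb1 : 25 / 32 * y ≤ 1 := by linarith only [hyu]
  have hb0 : 0 ≤ 25 / 32 * y := by linarith only [hY0, hYy]
  have hE := exp_le4 hb0 hb1
  have hE1 : exp (25 / 32 * y) - 1 - 25 / 32 * y ≤
      y ^ (2 : ℕ) * (625 / 2048 * (1 + 25 / 96 * y + 3125 / 49152 * y ^ (2 : ℕ))) := by
    have e : y ^ (2 : ℕ) * (625 / 2048 * (1 + 25 / 96 * y + 3125 / 49152 * y ^ (2 : ℕ))) =
      (25 / 32 * y) ^ (2 : ℕ) / 2 + (25 / 32 * y) ^ (3 : ℕ) / 6 + 5 * (25 / 32 * y) ^ (4 : ℕ) / 96 := by ring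
    rw [e]
    linarith only [hE]
  have hyr : y * ρ ≤ η * (1 + y / 2) := by linarith only [hF1]
  have hE2 : ρ * (exp (25 / 32 * y) - 1 - 25 / 32 * y) ≤
      y * (η * (1 + y / 2) * (625 / 2048 * (1 + 25 / 96 * y + 3125 / 49152 * y ^ (2 : ℕ)))) := by
    have h1 := mul_le_mul_of_nonneg_left hE1 hr.le
    have h0 : 0 ≤ 625 / 2048 * (1 + 25 / 96 * y + 3125 / 49152 * y ^ (2 : ℕ)) := by positivity
    have h2 := mul_le_mul_of_nonneg_left (mul_le_mul_of_nonneg_right hyr h0) hy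
    linarith only [h1, h2]
  -- F2
  have hS : ρ - x * (1 + y) ≤ y * (η / 2 + 88 / 1000 * y) := by
    have h1 : (y / x) ^ (2 : ℕ) ≤ (y / (296 / 100)) ^ (2 : ℕ) := pow_le_pow_left₀ hY0 hYy 2
    have h2 : y / 2 + (y / x) ^ (2 : ℕ) / 3 ≤ y / 2 + (y / (296 / 100)) ^ (2 : ℕ) / 3 := by linarith only [h1]
    have h3 : y * (y / x) / 2 ≤ y * (y / (296 / 100)) / 2 := by
      have := mul_le_mul_of_nonneg_left hYy hy
      linarith only [this]
    have h4 : y * (y / x) / 2 * (y / 2 + (y / x) ^ (2 : ℕ) / 3) ≤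
        y * (y / (296 / 100)) / 2 * (y / 2 + (y / (296 / 100)) ^ (2 : ℕ) / 3) :=
      mul_le_mul h3 h2 (by positivity) (by positivity)
    have h5 : y * (y / (296 / 100)) / 2 * (y / 2 + (y / (296 / 100)) ^ (2 : ℕ) / 3) ≤
        y * (88 / 1000 * y) := by
      have e : y * (y / (296 / 100)) / 2 * (y / 2 + (y / (296 / 100)) ^ (2 : ℕ) / 3) =
        y ^ (2 : ℕ) * (25 / 148 * (y / 2 + (y / (296 / 100)) ^ (2 : ℕ) / 3)) := by ring
      have e2 : y * (88 / 1000 * y) = y ^ (2 : ℕ) * (88 / 1000) := by ring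
      rw [e, e2]
      refine mul_le_mul_of_nonneg_left ?_ (by positivity)
      nlinarith only [hyu, hy]
    linarith only [hF2, h4, h5]
  -- the third term
  have hT : 6 * (25 / 32 * y * d) ^ (2 : ℕ) / (11 * (ρ * exp (25 / 32 * y) * d)) ≤
      d * y * (687 / 10000 * y) := by
    have he : 1 ≤ exp (25 / 32 * y) := one_le_exp hb0
    rw [div_le_iff₀ (by positivity)]
    have h1 : 485 / 100 ≤ ρ * exp (25 / 32 * y) := by nlinarith only [hρ, he]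
    have e : 6 * (25 / 32 * y * d) ^ (2 : ℕ) = (y * d) ^ (2 : ℕ) * (1875 / 512) := by ring
    have e2 : d * y * (687 / 10000 * y) * (11 * (ρ * exp (25 / 32 * y) * d)) =
      (y * d) ^ (2 : ℕ) * (687 / 10000 * 11 * (ρ * exp (25 / 32 * y))) := by ring
    rw [e, e2]
    refine mul_le_mul_of_nonneg_left ?_ (by positivity)
    linarith only [h1]
  have hd2 : 0 ≤ y * d := by linarith only [hyd]
  -- bracket
  have hB : 81 / 100 - 697 / 1000 * y ≤ 25 / 32 * π -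
      η * (1 + y / 2) * (625 / 2048 * (1 + 25 / 96 * y + 3125 / 49152 * y ^ (2 : ℕ))) -
      (η / 2 + 88 / 1000 * y) - 687 / 10000 * y := by
    have h1 : η * (1 + y / 2) * (625 / 2048 * (1 + 25 / 96 * y + 3125 / 49152 * y ^ (2 : ℕ))) ≤
        204204 / 100000 * ((1 + y / 2) *
          (625 / 2048 * (1 + 25 / 96 * y + 3125 / 49152 * y ^ (2 : ℕ)))) := by
      rw [mul_assoc]
      exact mul_le_mul_of_nonneg_right hη2 (by positivity)
    have h2 : (1 + y / 2) * (625 / 2048 * (1 + 25 / 96 * y + 3125 / 49152 * y ^ (2 : ℕ))) ≤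
        30518 / 100000 * (1 + 866 / 1000 * y) := by
      linarith only [hb0, mul_nonneg hy (sub_nonneg.2 hyu), mul_nonneg (mul_nonneg hy hy) (sub_nonneg.2 hyu)]
    linarith only [hη2, hy, hp, h1, h2]
  have hmain : (y + 25 / 32 * y) / 2 - d * ((25 / 32 * y) * π -
      ρ * (exp (25 / 32 * y) - 1 - 25 / 32 * y) - (ρ - x * (1 + y))) +
      6 * (25 / 32 * y * d) ^ (2 : ℕ) / (11 * (ρ * exp (25 / 32 * y) * d)) ≤
      57 / 64 * y - (y * d) * (81 / 100 - 697 / 1000 * y) := by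
    have h1 := mul_le_mul_of_nonneg_left hE2 hd.le
    have h2 := mul_le_mul_of_nonneg_left hS hd.le
    have h3 := mul_le_mul_of_nonneg_left hB hd2
    linarith only [hT, h1, h2, h3]
  refine hmain.trans ?_
  have h8 : 0 ≤ 81 / 100 - 697 / 1000 * y := by linarith only [hyu]
  rcases le_total y (3 / 10) with h | h
  · have := mul_le_mul_of_nonneg_right hyd h8
    linarith only [h, this]
  · have h9 : y * (71 / 10) ≤ y * d := mul_le_mul_of_nonneg_left hd71 hy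
    have := mul_le_mul_of_nonneg_right h9 h8
    nlinarith only [hd71, hyd, hyu, hy]

/-- the quadratic inequality -/
theorem quad {x y : ℝ} (hy : 0 ≤ y) (hx : 296 / 100 ≤ x) (hyu : y ≤ 498 / 1000)
    (h33 : 33 / 10 ≤ x → y ≤ 484 / 1000) (h4 : 4 ≤ x → y ≤ 414 / 1000) :
    (1 + 9 / 64 * y ^ (2 : ℕ)) * (x ^ (2 : ℕ) + (1 + y) ^ (2 : ℕ) / 2) ≤
      72 / 25 * (11 / 24 * x ^ (2 : ℕ) - 11 / 64 * x ^ (2 : ℕ) * y + 3 / 8 * x * y -
        351 / 625 * (9 / 64) * x ^ (2 : ℕ) * y ^ (2 : ℕ)) := by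
  -- general step with an upper bound Y of y
  have step : ∀ Y : ℝ, y ≤ Y → Y ≤ 1 / 2 →
      (1 + 9 / 64 * Y ^ (2 : ℕ)) * (x ^ (2 : ℕ) + (1 + Y) ^ (2 : ℕ) / 2) ≤
      72 / 25 * (11 / 24 * x ^ (2 : ℕ) - 11 / 64 * x ^ (2 : ℕ) * Y + 3 / 8 * x * Y -
        351 / 625 * (9 / 64) * x ^ (2 : ℕ) * Y ^ (2 : ℕ)) →
      (1 + 9 / 64 * y ^ (2 : ℕ)) * (x ^ (2 : ℕ) + (1 + y) ^ (2 : ℕ) / 2) ≤
      72 / 25 * (11 / 24 * x ^ (2 : ℕ) - 11 / 64 * x ^ (2 : ℕ) * y + 3 / 8 * x * y -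
        351 / 625 * (9 / 64) * x ^ (2 : ℕ) * y ^ (2 : ℕ)) := by
    intro Y h1 h2 h3
    have q2 : y ^ (2 : ℕ) ≤ Y ^ (2 : ℕ) := pow_le_pow_left₀ hy h1 2
    have e1 : (1 + 9 / 64 * y ^ (2 : ℕ)) * (x ^ (2 : ℕ) + (1 + y) ^ (2 : ℕ) / 2) ≤
        (1 + 9 / 64 * Y ^ (2 : ℕ)) * (x ^ (2 : ℕ) + (1 + Y) ^ (2 : ℕ) / 2) := by
      refine mul_le_mul (by linarith only [q2]) ?_ (by positivity) (by positivity)
      have : (1 + y) ^ (2 : ℕ) ≤ (1 + Y) ^ (2 : ℕ) := pow_le_pow_left₀ (by linarith only [hy]) (by linarith only [h1]) 2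
      linarith only [this]
    have e2 : x ^ (2 : ℕ) * y ^ (2 : ℕ) ≤ x ^ (2 : ℕ) * Y ^ (2 : ℕ) := mul_le_mul_of_nonneg_left q2 (by positivity)
    have e3 : y * (11 / 64 * x ^ (2 : ℕ) - 3 / 8 * x) ≤ Y * (11 / 64 * x ^ (2 : ℕ) - 3 / 8 * x) := by
      refine mul_le_mul_of_nonneg_right h1 ?_
      nlinarith only [hx]
    linarith only [h3, e1, e2, e3]
  rcases le_total 4 x with h | h
  · refine step (414 / 1000) (h4 h) (by norm_num) ?_
    nlinarith only [h]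
  rcases le_total (33 / 10) x with h' | h'
  · refine step (484 / 1000) (h33 h') (by norm_num) ?_
    nlinarith only [h, h']
  · refine step (498 / 1000) hyu (by norm_num) ?_
    nlinarith

end OutLB

/-- the numbers of case B -/
theorem outL_numB {x y ρ η ψ W D d : ℝ} (G : GeL x y ρ η ψ W D) (hη : η = 65 / 100 * π)
    (hρ : 485 / 100 ≤ ρ) (hrd : 499 / 10 ≤ ρ * d) (hd : 1013 / 1000 * (ρ + 1 / ρ) ≤ d) :
    8 / 5 ≤ x ∧ y ≤ 5334 / 10000 ∧ 206 / 100 ≤ y * d ∧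
    (1 + (3 / 8 * y) ^ (2 : ℕ)) * D ≤
      (6 / 5) ^ (2 : ℕ) * (2 * (11 / 24 * (1 - 3 / 8 * y) * x +
        (1 - 351 / 625 * (x * (3 / 8 * y))) * (3 / 8 * y))) ∧
    1001 / 1000 * √(12 / 11 * (D / W)) ≤ 111 / 100 ∧
    (y + 25 / 32 * y) / 2 - d * ((25 / 32 * y) * π -
      ρ * (exp (25 / 32 * y) - 1 - 25 / 32 * y) - (ρ - x * (1 + y))) +
      6 * (25 / 32 * y * d) ^ (2 : ℕ) / (11 * (ρ * exp (25 / 32 * y) * d)) ≤ -(3 / 5) := by
  have hp := Real.pi_gt_d4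
  have hp2 := Real.pi_lt_d4
  have hη1 : 204197 / 100000 ≤ η := by rw [hη]; linarith only [hp]
  have hη2 : η ≤ 204204 / 100000 := by rw [hη]; linarith only [hp2]
  have hx := OutLB.xlow G (by linarith only [hη1]) hη2 hρ
  have hyu := OutLB.yup G hη2 hx
  have hy := G.y0
  have hr := G.r0
  have hρ1 : 0 < 1 / ρ := by positivity
  have hdr : 1013 / 1000 * ρ ≤ d := by linarith only [hd, hρ1]
  have hd0 : 0 < d := by linarith only [hr, hdr]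
  have hd71 : 71 / 10 ≤ d := by
    by_contra h
    push Not at h
    nlinarith only [hrd, hdr, hd0, h]
  have hyd : 206 / 100 ≤ y * d := by
    have h1 : y * (1013 / 1000 * ρ) ≤ y * d := mul_le_mul_of_nonneg_left hdr hy
    have h2 := G.F3
    have h3 := G.eta
    have h4 := G.psi_le
    have h5 : y / x ≤ y / (296 / 100) := div_le_div_of_nonneg_left hy (by norm_num) hx
    have h6 : 1 / x ≤ 1 / (296 / 100) := one_div_le_one_div_of_le (by norm_num) hx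
    have h7 : 0 ≤ y * (η / 2 - ψ - 11 / 10 * (1 / x)) := by
      refine mul_nonneg hy ?_
      linarith only [hη1, hyu, h4, h5, h6]
    have h8 : η ≤ y * ρ := by
      have e : y * ρ = y * (x + η / 2 + 11 / 10 * (1 / x)) +
        y * (η / 2 - ψ - 11 / 10 * (1 / x)) := by
        have : ρ = η - ψ + x := by linarith only [h3]
        rw [this]
        ring
      linarith only [h2, h7, e]
    linarith only [hη1, h1, h8]
  refine ⟨by linarith only [hx], by linarith only [hyu], hyd, ?_, ?_, ?_⟩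
  · refine OutLB.c4 G.x0 G.D2 hy (OutLB.quad hy hx hyu ?_ ?_)
    · intro h
      exact OutLB.yup2 G hη2 h (by norm_num) (by norm_num)
    · intro h
      exact OutLB.yup2 G hη2 h (by norm_num) (by norm_num)
  · exact OutLB.sqrt_ineq G.W0 G.W2 G.D2 hx hyu
  · exact OutLB.last G hη2 hρ hd71 hyd hx hyu

end SokamP2O

end

/-! ### Lib_MP_af4de1_v3.OutLC -/

section
namespace SokamF1G
end SokamF1G
namespace SokamPG
end SokamPG
/-!
# `P2.outL`, case C (`Γ ≥ 20`): the numbers (helper48)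
-/

set_option autoImplicit false

namespace SokamP2O

open Real Set SokamF1G MeasureTheory SokamPG

/-- `x ≥ 33/20` -/
theorem olC_x {x y ρ η ψ W D : ℝ} (G : GeL x y ρ η ψ W D) (h1 : 18849 / 10000 < η)
    (h2 : η < 188496 / 100000) (hρ : 16 / 5 ≤ ρ) : 33 / 20 ≤ x := by
  by_contra hc
  push Not at hc
  have hx := G.x0
  obtain ⟨t, ht⟩ : ∃ t, t = y / x := ⟨_, rfl⟩
  have hy : y = t * x := by rw [ht]; field_simp
  have t0 : 0 ≤ t := by rw [ht]; exact G.Y0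
  have t1 : t ≤ 2 / 5 := by rw [ht]; exact G.Y1
  have hp := G.psi_ge
  rw [← ht] at hp
  have h3 := G.F3
  have e1 : y * (x + η / 2 + 11 / 10 * (1 / x)) = t * (x ^ (2 : ℕ) + η * x / 2 + 11 / 10) := by
    rw [hy]
    field_simp
  rw [e1] at h3
  have h4 : x ^ (2 : ℕ) + η * x / 2 + 11 / 10 ≤ 53776 / 10000 := by nlinarith only [hx, hc, h1, h2]
  have h5 : 3505 / 10000 ≤ t := by
    by_contra h6
    push Not at h6
    have h7 : t * (x ^ (2 : ℕ) + η * x / 2 + 11 / 10) ≤ 3505 / 10000 * (53776 / 10000) :=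
      mul_le_mul h6.le h4 (by positivity) (by norm_num)
    linarith only [h1, h3, h7]
  have h6 : 3361 / 10000 ≤ t - t ^ (3 : ℕ) / 3 := by
    have h7 : 0 ≤ (t - 3505 / 10000) *
        (1 - (t ^ (2 : ℕ) + 3505 / 10000 * t + (3505 / 10000) ^ (2 : ℕ)) / 3) := by
      refine mul_nonneg (by linarith only [h5]) ?_
      nlinarith only [t0, t1]
    nlinarith only [h7]
  have h8 := G.eta
  linarith only [h2, hρ, hc, hp, h6, h8]

/-- `y d ≥ 381/100` -/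
theorem olC_yd {x y ρ η ψ W D d : ℝ} (G : GeL x y ρ η ψ W D) (h1 : 18849 / 10000 < η)
    (h2 : η < 188496 / 100000) (hx1 : 33 / 20 ≤ x) (hρ : 16 / 5 ≤ ρ)
    (hd : 2026 / 1000 * (ρ + 1 / ρ) ≤ d) : 381 / 100 ≤ y * d := by
  have hx := G.x0
  have hy0 := G.y0
  have hy1 := G.y1
  have hψ := G.psi_le
  have hρ0 := G.r0
  have hE := G.eta
  have hψ0 := G.p0
  have k1 : ψ + 11 / 10 * (1 / x) ≤ η / 2 + 1 / ρ := by
    rcases le_total x 2 with hc | hc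
    · have k2 : 1 / x ≤ 20 / 33 := (one_div_le_one_div_of_le (by norm_num) hx1).trans (by norm_num)
      have k3 : y / x ≤ 37 / 100 := by rw [div_le_iff₀ hx]; linarith only [hx1, hy1]
      have k4 : 1 / 4 ≤ 1 / ρ := one_div_le_one_div_of_le hρ0 (by linarith only [h2, hE, hψ0, hc])
      linarith only [h1, hψ, k2, k3, k4]
    · have k2 : 1 / x ≤ 1 / 2 := one_div_le_one_div_of_le (by norm_num) hc
      have k3 : y / x ≤ 61 / 200 := by rw [div_le_iff₀ hx]; linarith only [hy1, hc]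
      have k4 : 0 < 1 / ρ := by positivity
      linarith only [h1, hψ, k2, k3, k4]
  have h3 := G.F3
  have h4 : η ≤ y * (ρ + 1 / ρ) := by
    have h5 := mul_nonneg hy0 (sub_nonneg.2 k1)
    have h6 : ρ = x + η - ψ := by linarith only [hE]
    have h7 : y * (ρ + 1 / ρ) = y * (x + η - ψ) + y * (1 / ρ) := by rw [← h6]; ring
    rw [h7]
    nlinarith only [h5, h3]
  have h5 := mul_le_mul_of_nonneg_left hd hy0
  linarith only [h1, h4, h5]

/-- the prefactor -/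
theorem olC_M {x y D : ℝ} (hx : 33 / 20 ≤ x) (hy0 : 0 ≤ y) (hy1 : y ≤ 61 / 100) (hD : 0 < D)
    (hD2 : D ^ (2 : ℕ) = (1 + y) ^ (2 : ℕ) + x ^ (2 : ℕ)) :
    (1 + (1 / 3 * y) ^ (2 : ℕ)) * D ≤ (126 / 100) ^ (2 : ℕ) *
      (2 * (11 / 24 * (1 - 1 / 3 * y) * x + (1 - 351 / 625 * (x * (1 / 3 * y))) * (1 / 3 * y))) := by
  obtain ⟨c, hc⟩ : ∃ c, c = 1 / 3 * y := ⟨_, rfl⟩
  obtain ⟨u, hu⟩ : ∃ u, u = x - 33 / 20 := ⟨_, rfl⟩
  have hy : y = 3 * c := by rw [hc]; ring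
  have hx' : x = 33 / 20 + u := by rw [hu]; ring
  have c0 : 0 ≤ c := by rw [hc]; positivity
  have c1 : c ≤ 61 / 300 := by rw [hc]; linarith only [hy1]
  have u0 : 0 ≤ u := by rw [hu]; linarith only [hx]
  have c2 : c ^ (2 : ℕ) ≤ (61 / 300) ^ (2 : ℕ) := pow_le_pow_left₀ c0 c1 2
  have c3 : c ^ (3 : ℕ) ≤ (61 / 300) ^ (3 : ℕ) := pow_le_pow_left₀ c0 c1 3
  have c4 : c ^ (4 : ℕ) ≤ (61 / 300) ^ (4 : ℕ) := pow_le_pow_left₀ c0 c1 4
  have c5 : c ^ (5 : ℕ) ≤ (61 / 300) ^ (5 : ℕ) := pow_le_pow_left₀ c0 c1 5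
  have c6 : c ^ (6 : ℕ) ≤ (61 / 300) ^ (6 : ℕ) := pow_le_pow_left₀ c0 c1 6
  have p3 : 0 ≤ c ^ (3 : ℕ) := by positivity
  have p4 : 0 ≤ c ^ (4 : ℕ) := by positivity
  rw [← hc]
  obtain ⟨A, hA⟩ : ∃ A, A = 11 / 24 * (1 - c) - 351 / 625 * c ^ (2 : ℕ) := ⟨_, rfl⟩
  have hA0 : 0 ≤ A := by rw [hA]; nlinarith only [c0, c1, c2]
  have e1 : (126 / 100) ^ (2 : ℕ) *
      (2 * (11 / 24 * (1 - c) * x + (1 - 351 / 625 * (x * c)) * c)) =
      (126 / 100) ^ (2 : ℕ) * 2 * (A * x + c) := by rw [hA]; ring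
  rw [e1]
  have hR : 0 ≤ (126 / 100) ^ (2 : ℕ) * 2 * (A * x + c) := by
    have : 0 ≤ x := by linarith only [hx]
    positivity
  refine (sq_le_sq₀ (by positivity) hR).1 ?_
  rw [mul_pow, hD2, hy, hx', hA]
  have q0 : 0 ≤ ((126 / 100) ^ (2 : ℕ) * 2) ^ (2 : ℕ) *
      ((11 / 24 * (1 - c) - 351 / 625 * c ^ (2 : ℕ)) * (33 / 20) + c) ^ (2 : ℕ) -
      (1 + c ^ (2 : ℕ)) ^ (2 : ℕ) * ((1 + 3 * c) ^ (2 : ℕ) + (33 / 20) ^ (2 : ℕ)) := by
    nlinarith only [c0, c1, c2, c3, c4, c5, c6]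
  have q1 : 0 ≤ 2 * ((126 / 100) ^ (2 : ℕ) * 2) ^ (2 : ℕ) * (11 / 24 * (1 - c) - 351 / 625 * c ^ (2 : ℕ)) *
      ((11 / 24 * (1 - c) - 351 / 625 * c ^ (2 : ℕ)) * (33 / 20) + c) - (33 / 10) * (1 + c ^ (2 : ℕ)) ^ (2 : ℕ) := by
    nlinarith only [c0, c1, c2, p3, p4]
  have q2 : 0 ≤ ((126 / 100) ^ (2 : ℕ) * 2) ^ (2 : ℕ) * (11 / 24 * (1 - c) - 351 / 625 * c ^ (2 : ℕ)) ^ (2 : ℕ) -
      (1 + c ^ (2 : ℕ)) ^ (2 : ℕ) := by
    nlinarith only [c0, c1, c2, p3, p4]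
  have r1 := mul_nonneg q1 u0
  have r2 := mul_nonneg q2 (sq_nonneg u)
  have key : ((126 / 100) ^ (2 : ℕ) * 2 * ((11 / 24 * (1 - c) - 351 / 625 * c ^ (2 : ℕ)) * (33 / 20 + u) + c)) ^ (2 : ℕ) -
      (1 + c ^ (2 : ℕ)) ^ (2 : ℕ) * ((1 + 3 * c) ^ (2 : ℕ) + (33 / 20 + u) ^ (2 : ℕ)) =
      (((126 / 100) ^ (2 : ℕ) * 2) ^ (2 : ℕ) *
      ((11 / 24 * (1 - c) - 351 / 625 * c ^ (2 : ℕ)) * (33 / 20) + c) ^ (2 : ℕ) -
      (1 + c ^ (2 : ℕ)) ^ (2 : ℕ) * ((1 + 3 * c) ^ (2 : ℕ) + (33 / 20) ^ (2 : ℕ))) +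
      (2 * ((126 / 100) ^ (2 : ℕ) * 2) ^ (2 : ℕ) * (11 / 24 * (1 - c) - 351 / 625 * c ^ (2 : ℕ)) *
      ((11 / 24 * (1 - c) - 351 / 625 * c ^ (2 : ℕ)) * (33 / 20) + c) - (33 / 10) * (1 + c ^ (2 : ℕ)) ^ (2 : ℕ)) * u +
      (((126 / 100) ^ (2 : ℕ) * 2) ^ (2 : ℕ) * (11 / 24 * (1 - c) - 351 / 625 * c ^ (2 : ℕ)) ^ (2 : ℕ) -
      (1 + c ^ (2 : ℕ)) ^ (2 : ℕ)) * u ^ (2 : ℕ) := by ring
  linarith only [key, q0, r1, r2]

/-- the tail constant -/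
theorem olC_W {x y W D : ℝ} (hx : 33 / 20 ≤ x) (hy0 : 0 ≤ y) (hy1 : y ≤ 61 / 100) (hD : 0 < D)
    (hW : 0 < W) (hD2 : D ^ (2 : ℕ) = (1 + y) ^ (2 : ℕ) + x ^ (2 : ℕ)) (hW2 : W ^ (2 : ℕ) = x ^ (2 : ℕ) + y ^ (2 : ℕ)) :
    1001 / 1000 * √(12 / 11 * (D / W)) ≤ 121 / 100 := by
  have h1 : D ≤ 1339 / 1000 * W := by
    refine (sq_le_sq₀ hD.le (by positivity)).1 ?_
    rw [mul_pow, hD2, hW2]
    nlinarith only [hx, hy0, hy1]
  have h2 : D / W ≤ 1339 / 1000 := by rwa [div_le_iff₀ hW]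
  have h3 : √(12 / 11 * (D / W)) ≤ 12087 / 10000 := by
    rw [Real.sqrt_le_left (by norm_num)]
    linarith only [h2]
  linarith only [h3]

/-- the exponent on the flat part -/
theorem olC_X {x y ρ η ψ W D d : ℝ} (G : GeL x y ρ η ψ W D)
    (h2 : η < 188496 / 100000) (hρ : 16 / 5 ≤ ρ) (hd0 : 0 < d) (hyd : 381 / 100 ≤ y * d) :
    (y + 7 / 12 * y) / 2 - d * ((7 / 12 * y) * π - ρ * (exp (7 / 12 * y) - 1 - 7 / 12 * y) -
      (ρ - x * (1 + y))) + 6 * (7 / 12 * y * d) ^ (2 : ℕ) / (11 * (ρ * exp (7 / 12 * y) * d)) ≤ -(3 / 5) := by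
  have hx := G.x0
  have hy0 := G.y0
  have hy1 := G.y1
  have hρ0 := G.r0
  have hpi := Real.pi_gt_d4
  obtain ⟨t, ht⟩ : ∃ t, t = y / x := ⟨_, rfl⟩
  have t0 : 0 ≤ t := by rw [ht]; exact G.Y0
  have t1 : t ≤ 2 / 5 := by rw [ht]; exact G.Y1
  have hF1 := G.F1 (by linarith only [h2])
  have hF2 := G.F2
  rw [← ht] at hF2
  obtain ⟨b, hb⟩ : ∃ b, b = 7 / 12 * y := ⟨_, rfl⟩
  rw [← hb]
  have b0 : 0 ≤ b := by rw [hb]; positivity
  have b1 : b ≤ 356 / 1000 := by rw [hb]; linarith only [hy1]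
  obtain ⟨E, hE⟩ : ∃ E, E = exp b := ⟨_, rfl⟩
  rw [← hE]
  have E1 : 1 ≤ E := by rw [hE]; exact Real.one_le_exp b0
  have E2 : E - 1 - b ≤ 566 / 1000 * b ^ (2 : ℕ) := by
    have h := Real.exp_bound' b0 (by linarith only [b1]) (n := 4) (by norm_num)
    simp only [Finset.sum_range_succ, Finset.sum_range_zero, Nat.factorial] at h
    norm_num at h
    rw [← hE] at h
    have h3 : b ^ (3 : ℕ) ≤ 356 / 1000 * b ^ (2 : ℕ) := by nlinarith only [b0, b1, sq_nonneg b]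
    have h4 : b ^ (4 : ℕ) ≤ (356 / 1000) ^ (2 : ℕ) * b ^ (2 : ℕ) := by
      have : b ^ (4 : ℕ) = b ^ (2 : ℕ) * b ^ (2 : ℕ) := by ring
      rw [this]
      refine mul_le_mul_of_nonneg_right (pow_le_pow_left₀ b0 b1 2) (sq_nonneg b)
    nlinarith only [h, h3, h4, sq_nonneg b]
  -- the last term
  have l1 : 6 * (b * d) ^ (2 : ℕ) / (11 * (ρ * E * d)) ≤ 36 / 1000 * (y * d) := by
    rw [div_le_iff₀ (by positivity)]
    have e1 : 6 * (b * d) ^ (2 : ℕ) = 6 * (7 / 12) ^ (2 : ℕ) * y * (y * d) * d := by rw [hb]; ring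
    have e2 : 36 / 1000 * (y * d) * (11 * (ρ * E * d)) = 396 / 1000 * (ρ * E) * (y * d) * d := by ring
    rw [e1, e2]
    have k1 : 6 * (7 / 12) ^ (2 : ℕ) * y ≤ 396 / 1000 * (ρ * E) := by nlinarith only [E1, hρ, hy1]
    have k2 : 0 ≤ y * d := by linarith only [hyd]
    gcongr
  -- the exponential term
  have l2 : d * (ρ * (E - 1 - b)) ≤ 475 / 1000 * (y * d) := by
    have k1 : ρ * (E - 1 - b) ≤ ρ * (566 / 1000 * b ^ (2 : ℕ)) := mul_le_mul_of_nonneg_left E2 hρ0.le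
    have k2 : y * ρ ≤ 24599 / 10000 := by nlinarith only [hF1, hy0, hy1, h2]
    have k3 : ρ * (566 / 1000 * b ^ (2 : ℕ)) = 566 / 1000 * (7 / 12) ^ (2 : ℕ) * (y * ρ) * y := by rw [hb]; ring
    have k4 : 566 / 1000 * (7 / 12) ^ (2 : ℕ) * (y * ρ) * y ≤ 475 / 1000 * y := by
      refine mul_le_mul_of_nonneg_right ?_ hy0
      linarith only [k2]
    have k5 := mul_le_mul_of_nonneg_left (k1.trans (k3.le.trans k4)) hd0.le
    linarith only [k5]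
  -- the term `ρ - x (1 + y)`
  have l3 : d * (ρ - x * (1 + y)) ≤ 10142 / 10000 * (y * d) := by
    have k1 : y / 2 + t ^ (2 : ℕ) / 3 ≤ 3584 / 10000 := by nlinarith only [hy1, t0, t1]
    have k2 : y * t / 2 * (y / 2 + t ^ (2 : ℕ) / 3) ≤ y * (2 / 5) / 2 * (3584 / 10000) := by
      refine mul_le_mul ?_ k1 (by positivity) (by positivity)
      have := mul_le_mul_of_nonneg_left t1 hy0
      linarith only [this]
    have k3 : y * η ≤ y * (188496 / 100000) := mul_le_mul_of_nonneg_left h2.le hy0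
    have k4 : ρ - x * (1 + y) ≤ 10142 / 10000 * y := by nlinarith only [hF2, k2, k3, hy0]
    have k5 := mul_le_mul_of_nonneg_left k4 hd0.le
    linarith only [k5]
  have l4 : 18325 / 10000 * (y * d) ≤ d * (b * π) := by
    have k1 : 18325 / 10000 * y ≤ b * π := by
      rw [hb]
      nlinarith only [hpi, hy0]
    have k5 := mul_le_mul_of_nonneg_left k1 hd0.le
    linarith only [k5]
  have e3 : d * (b * π - ρ * (E - 1 - b) - (ρ - x * (1 + y))) =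
      d * (b * π) - d * (ρ * (E - 1 - b)) - d * (ρ - x * (1 + y)) := by ring
  rw [e3]
  have e4 : (y + b) / 2 ≤ 484 / 1000 := by rw [hb]; linarith only [hb, b1]
  linarith only [hyd, l1, l2, l3, l4, e4]

/-- **Numbers of case C.** -/
theorem outL_numC {x y ρ η ψ W D d : ℝ} (G : GeL x y ρ η ψ W D) (hη : η = 60 / 100 * π)
    (hρ : 16 / 5 ≤ ρ) (hrd : 499 / 10 ≤ ρ * d) (hd : 2026 / 1000 * (ρ + 1 / ρ) ≤ d) :
    8 / 5 ≤ x ∧ 381 / 100 ≤ y * d ∧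
    (1 + (1 / 3 * y) ^ (2 : ℕ)) * D ≤ (126 / 100) ^ (2 : ℕ) *
      (2 * (11 / 24 * (1 - 1 / 3 * y) * x + (1 - 351 / 625 * (x * (1 / 3 * y))) * (1 / 3 * y))) ∧
    1001 / 1000 * √(12 / 11 * (D / W)) ≤ 121 / 100 ∧
    (y + 7 / 12 * y) / 2 - d * ((7 / 12 * y) * π - ρ * (exp (7 / 12 * y) - 1 - 7 / 12 * y) -
      (ρ - x * (1 + y))) + 6 * (7 / 12 * y * d) ^ (2 : ℕ) / (11 * (ρ * exp (7 / 12 * y) * d)) ≤ -(3 / 5) := by
  have hpi := Real.pi_gt_d4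
  have hpi2 := Real.pi_lt_d4
  have h1 : 18849 / 10000 < η := by rw [hη]; linarith only [hpi]
  have h2 : η < 188496 / 100000 := by
    rw [hη]
    norm_num at hpi2 ⊢
    linarith only [hpi2]
  have hx := olC_x G h1 h2 hρ
  have hyd := olC_yd G h1 h2 hx hρ hd
  have hd0 : 0 < d := by
    have := G.r0
    refine lt_of_lt_of_le ?_ hd
    positivity
  exact ⟨by linarith only [hx], hyd, olC_M hx G.y0 G.y1 G.D0 G.D2, olC_W hx G.y0 G.y1 G.D0 G.W0 G.D2 G.W2,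
    olC_X G h2 hρ hd0 hyd⟩

end SokamP2O

end

/-! ### Lib_MP_af4de1_v3.OutLG -/

section
namespace SokamF1G
end SokamF1G
namespace SokamF1M
end SokamF1M
namespace SokamF1S
end SokamF1S
namespace SokamPG
end SokamPG
namespace SokamV3
end SokamV3
/-!
# `P2.outL`: geometry and reduction
-/

set_option autoImplicit false

namespace SokamP2O

open Real Set SokamF1G MeasureTheory SokamPG SokamF1S SokamF1M SokamV3

theorem olg_e61 : exp (-(61 / 100) : ℝ) ≤ 5434 / 10000 := by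
  have h7 := Real.sum_le_exp_of_nonneg (x := 61 / 100) (by norm_num) 7
  norm_num [Finset.sum_range_succ, Nat.factorial] at h7
  rw [exp_neg, inv_le_comm₀ (exp_pos _) (by norm_num)]
  refine le_trans ?_ h7
  norm_num

theorem olg_e61' : (184 / 100 : ℝ) ≤ exp (61 / 100) := by
  have h7 := Real.sum_le_exp_of_nonneg (x := 61 / 100) (by norm_num) 7
  norm_num [Finset.sum_range_succ, Nat.factorial] at h7
  linarith only [h7]

theorem olg_sE_zero {ρ : ℝ} (hρ : 0 < ρ) : sE ρ 0 = 0 := by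
  unfold sE sP sx
  simp only [zero_div, Real.arcsin_zero, mul_zero, Real.exp_zero, mul_one, ne_eq,
    OfNat.ofNat_ne_zero, not_false_eq_true, zero_pow, sub_zero, zero_add]
  rw [Real.sqrt_sq hρ.le]
  ring

theorem olg_y61 {r δ y : ℝ} (h : Reg2 r δ) (hA : At r δ y (eo2 r δ)) (hy : 0 ≤ y) :
    y ≤ 61 / 100 := by
  by_contra hc
  push Not at hc
  have hρ : 0 < r * δ := hA.dom.1
  obtain ⟨ρ, hρd⟩ : ∃ ρ, ρ = r * δ := ⟨_, rfl⟩
  have h1 := sE_ge_pos hA.dom hy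
  rw [hA.eta] at h1
  rw [← hρd] at h1 hρ
  have e1 : exp (-y) ≤ 5434 / 10000 := (exp_le_exp.2 (by linarith only [hc])).trans olg_e61
  have e2 : (184 / 100 : ℝ) ≤ exp y := olg_e61'.trans (exp_le_exp.2 hc.le)
  have e3 : (796 / 1000 : ℝ) ≤ y + y ^ (2 : ℕ) / 2 := by nlinarith only [hc]
  have e4 : (796 / 1000 : ℝ) * (184 / 100) ≤ (y + y ^ (2 : ℕ) / 2) * exp y := by gcongr
  have e5 : ρ * (4566 / 10000) ≤ ρ * (1 - exp (-y)) := by
    have : 4566 / 10000 ≤ 1 - exp (-y) := by linarith only [e1]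
    gcongr
  have e6 : (1464 / 1000 : ℝ) / ρ ≤ (y + y ^ (2 : ℕ) / 2) * exp y / ρ := by
    gcongr
    linarith only [e4]
  have e7 : 0 ≤ (1464 / 1000 : ℝ) / ρ := by positivity
  have hp := Real.pi_lt_d2
  rcases eo2_cases h with ⟨-, g1, g2⟩ | ⟨-, g1, g2⟩ | ⟨-, g1, g2⟩
  · rw [g2] at h1
    rw [← hρd] at g1
    linarith only [h1, e5, e6, e7, hp, g1]
  · rw [g2] at h1
    rw [← hρd] at g1
    linarith only [h1, e5, e6, e7, hp, g1]
  · rw [g2] at h1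
    rw [← hρd] at g1
    have h2 : ρ * (4566 / 10000) + 1464 / 1000 / ρ ≤ 189 / 100 := by
      linarith only [h1, e5, e6, hp]
    have h3 : (ρ * (4566 / 10000) + 1464 / 1000 / ρ) * ρ ≤ 189 / 100 * ρ := by gcongr
    have h4 : (ρ * (4566 / 10000) + 1464 / 1000 / ρ) * ρ =
        ρ ^ (2 : ℕ) * (4566 / 10000) + 1464 / 1000 := by
      field_simp
    rw [h4] at h3
    nlinarith only [g1, h3]

/-- geometry, left side -/
theorem outL_geo {r δ y : ℝ} (h : Reg2 r δ) (hA : At r δ y (eo2 r δ)) (hS : Sad2 r δ y) :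
    0 < y ∧ ∃ ψ W D : ℝ, GeL (sx (r*δ) y) y (r*δ) (eo2 r δ) ψ W D ∧
      sG r δ y = sg (1/δ) D := by
  have hρ : 0 < r * δ := hA.dom.1
  have hδ : 0 < δ := h.d0
  have hp := Real.pi_pos
  have he0 : 0 < eo2 r δ := by
    rcases eo2_cases h with ⟨-, -, g2⟩ | ⟨-, -, g2⟩ | ⟨-, -, g2⟩ <;> rw [g2] <;> positivity
  have hy0 : 0 ≤ y := hA.y_nonneg_own he0.le
  have hyne : y ≠ 0 := by
    intro hc
    have h1 := hA.eta
    rw [hc, olg_sE_zero hρ] at h1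
    linarith only [he0, h1]
  have hy : 0 < y := lt_of_le_of_ne hy0 (Ne.symm hyne)
  have hT := hS.T
  rw [abs_of_pos hy] at hT
  have hx : 0 < sx (r * δ) y := by linarith only [hy, hT]
  have hxs : sx (r * δ) y = r * δ * exp (-y) * cos (sP (r * δ) y) := sx_eq hA.dom
  have hys : y = r * δ * exp (-y) * sin (sP (r * δ) y) := y_eq hA.dom
  have hD2 : 0 < sD2 (r * δ) y := by linarith only [hS.D]
  have hee : exp (-y) * exp y = 1 := by rw [← exp_add]; simp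
  have hsc := Real.sin_sq_add_cos_sq (sP (r * δ) y)
  refine ⟨hy, sP (r * δ) y, r * δ * exp (-y), √(sD2 (r * δ) y), ?_, ?_⟩
  · refine ⟨hx, hy0, olg_y61 h hA hy0, hT, by (clear * - hρ; positivity), Real.sqrt_pos.2 hD2, ?_, ?_, ?_,
      hxs, hys, sP_nonneg hρ hy0, ?_, ?_⟩
    · have h5 : (r * δ * exp (-y)) ^ (2 : ℕ) = (r * δ * exp (-y) * cos (sP (r * δ) y)) ^ (2 : ℕ) +
          (r * δ * exp (-y) * sin (sP (r * δ) y)) ^ (2 : ℕ) := by
        linear_combination (-(r * δ * exp (-y)) ^ (2 : ℕ)) * hsc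
      rwa [← hxs, ← hys] at h5
    · rw [Real.sq_sqrt hD2.le]
      rfl
    · linear_combination (-(r * δ)) * hee
    · have h1 := (abs_le.1 (sP_abs_le (r * δ) y)).2
      refine lt_of_le_of_ne h1 fun hc => ?_
      rw [hc, Real.cos_pi_div_two, mul_zero] at hxs
      linarith only [hx, hxs]
    · rw [← hA.eta]
      rfl
  · unfold sG sg
    congr 1
    field_simp

/-- reduction, left side -/
theorem outL_red {r δ y ζ c : ℝ} (h : Reg2 r δ) (hA : At r δ y (eo2 r δ))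
    (_hS : Sad2 r δ y) (hζ : 0 ≤ ζ) (hζ2 : eo2 r δ + ζ ≤ π) (hc : 0 < c)
    (hcs : c*(19/4) ≤ 1) (hy0 : 0 < y) (hyc : y < c*(19/4))
    (hnum : ∀ z j : ℝ, (z = 0 ∨ z = π - eo2 r δ) → 0 ≤ j → j ≤ 1 →
      Integrable (fL c (19/4) (sx (r*δ) y) y z (1/δ) j) →
      ∫ s, fL c (19/4) (sx (r*δ) y) y z (1/δ) j s ≤ 27/20 * sG r δ y) :
    SokamV3.Out r δ y ζ (27/20) := by
  have hδ : 0 < δ := h.d0
  have hk : |y| < c * (19 / 4) := by rwa [abs_of_pos hy0]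
  have hfun : ∀ (z : ℝ) (j : ℕ), (fun s : ℝ => ‖pv c (19 / 4) s‖ *
      (exp (j * pc c (19 / 4) s) *
        exp (-(SokamV3F.Hz (sx (r * δ) y) y z (pc c (19 / 4) s) s / δ)))) =
      fL c (19 / 4) (sx (r * δ) y) y z (1 / δ) j := by
    intro z j
    funext s
    unfold fL
    congr 4
    unfold SokamV3F.Hz SokamF1G.Ha HL
    field_simp
    ring
  have key : ∀ (z : ℝ) (j : ℕ), (z = 0 ∨ z = π - eo2 r δ) → j ≤ 1 →
      SokamV3F.mF c (19 / 4) r δ y z j ≤ 27 / 20 * sG r δ y := by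
    intro z j hz hj
    have hi := SokamV3F.integrable_mF (r := r) hc (by norm_num : (0 : ℝ) < 19 / 4) hcs hδ hk
      hy0.ne' z j
    rw [hfun z j] at hi
    have := hnum z j hz (Nat.cast_nonneg j) (by exact_mod_cast hj) hi
    unfold SokamV3F.mF
    rw [hfun z j]
    exact this
  have hZ : 0 ≤ π - eo2 r δ := by linarith only [hζ, hζ2]
  refine SokamV3F.out_of_mF (Z := π - eo2 r δ) hc (by norm_num) hcs hδ hA.dom hA.y1 hk hy0.ne'
    (mul_nonneg hζ hZ) ?_ (key 0 0 (Or.inl rfl) (by norm_num))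
    (key _ 0 (Or.inr rfl) (by norm_num)) (key 0 1 (Or.inl rfl) le_rfl)
    (key _ 1 (Or.inr rfl) le_rfl)
  rw [abs_of_nonneg hζ, abs_of_nonneg hZ]
  linarith only [hζ2]

end SokamP2O

end

/-! ### Lib_MP_af4de1_v3.OutL -/

section
namespace SokamF1G
end SokamF1G
namespace SokamF1M
end SokamF1M
namespace SokamF1S
end SokamF1S
namespace SokamPG
end SokamPG
namespace SokamV3
end SokamV3
/-!
# `P2.outL`
-/

set_option autoImplicit false

namespace SokamP2O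

open Real Set SokamF1G SokamF1S SokamF1M MeasureTheory SokamPG SokamV3

/-- case `10 ≤ Γ < 20` -/
theorem outL_endB {x y ρ η ψ W D : ℝ} (G : GeL x y ρ η ψ W D) {d z j : ℝ}
    (hη : η = 65 / 100 * π) (hρ : 485 / 100 ≤ ρ) (hrd : 499 / 10 ≤ ρ * d)
    (hd : 1013 / 1000 * (ρ + 1 / ρ) ≤ d) (hy : 0 < y)
    (hz : z = 0 ∨ z = π - η) (hj0 : 0 ≤ j) (hj1 : j ≤ 1)
    (hf : Integrable (fL (3 / 8 * y) (19 / 4) x y z d j)) :
    ∫ s, fL (3 / 8 * y) (19 / 4) x y z d j s ≤ 27 / 20 * sg d D := by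
  have hp := Real.pi_gt_d4
  have hp2 := Real.pi_lt_d4
  obtain ⟨h1, h2, h3, h4, h5, h6⟩ := outL_numB G hη hρ hrd hd
  have hd0 : 0 < d := by
    by_contra h
    have : y * d ≤ 0 := mul_nonpos_of_nonneg_of_nonpos hy.le (not_lt.1 h)
    linarith only [h3, this]
  refine outL_end G (lam := 3 / 8) (tau := 25 / 32) (M := 6 / 5) (kW := 111 / 100)
    (L := 206 / 100) hd0 hy (by norm_num) (by norm_num) (by norm_num) (by linarith only [hη, hp2]) (by linarith only [h2])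
    (by linarith only [h2]) (by linarith only [h2]) h1 (by linarith only [hρ]) hrd (by linarith only [hη, hp]) (by linarith only [hη, hp]) hz hj0 hj1
    (by norm_num) (by norm_num) (by norm_num) h3 h4 (by norm_num) h5 h6 ?_ ?_ hf
  · have k1 : exp (-(3 / 5) - 25 / 32 * (206 / 100) * (π - η)) ≤ 1354 / 10000 * (745 / 1000) := by
      have e : -(3 / 5) - 25 / 32 * (206 / 100) * (π - η) ≤ -2 + -(3 / 10) := by linarith only [hη, hp]
      refine (exp_le_exp.2 e).trans ?_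
      rw [exp_add]
      refine mul_le_mul (ol_n2 le_rfl) ?_ (exp_pos _).le (by norm_num)
      refine (en_le2 (x := 3 / 10) (by norm_num)).trans (by norm_num)
    linarith only [k1]
  · have k1 := ol_n1 (t := 61 / 10000 - (1 - 3 / 8) * (206 / 100) * (π - η)) (by linarith only [hη, hp])
    linarith only [k1]

/-- case `20 ≤ Γ` -/
theorem outL_endC {x y ρ η ψ W D : ℝ} (G : GeL x y ρ η ψ W D) {d z j : ℝ}
    (hη : η = 60 / 100 * π) (hρ : 16 / 5 ≤ ρ) (hrd : 499 / 10 ≤ ρ * d)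
    (hd : 2026 / 1000 * (ρ + 1 / ρ) ≤ d) (hy : 0 < y)
    (hz : z = 0 ∨ z = π - η) (hj0 : 0 ≤ j) (hj1 : j ≤ 1)
    (hf : Integrable (fL (1 / 3 * y) (19 / 4) x y z d j)) :
    ∫ s, fL (1 / 3 * y) (19 / 4) x y z d j s ≤ 27 / 20 * sg d D := by
  have hp := Real.pi_gt_d4
  have hp2 := Real.pi_lt_d4
  obtain ⟨h1, h3, h4, h5, h6⟩ := outL_numC G hη hρ hrd hd
  have h2 := G.y1
  have hd0 : 0 < d := by
    by_contra h
    have : y * d ≤ 0 := mul_nonpos_of_nonneg_of_nonpos hy.le (not_lt.1 h)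
    linarith only [h3, this]
  refine outL_end G (lam := 1 / 3) (tau := 7 / 12) (M := 126 / 100) (kW := 121 / 100)
    (L := 381 / 100) hd0 hy (by norm_num) (by norm_num) (by norm_num) (by linarith only [hη, hp2]) (by linarith only [h2])
    (by linarith only [h2]) (by linarith only [h2]) h1 (by linarith only [hρ]) hrd (by linarith only [hη, hp]) (by linarith only [hη, hp]) hz hj0 hj1
    (by norm_num) (by norm_num) (by norm_num) h3 h4 (by norm_num) h5 h6 ?_ ?_ hf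
  · have k1 := ol_n3 (t := -(3 / 5) - 7 / 12 * (381 / 100) * (π - η)) (by linarith only [hη, hp])
    linarith only [k1]
  · have k1 := ol_n1 (t := 61 / 10000 - (1 - 1 / 3) * (381 / 100) * (π - η)) (by linarith only [hη, hp])
    linarith only [k1]

theorem ol_cases {r δ : ℝ} (h : Reg2 r δ) :
    (694 / 100 ≤ r * δ ∧ eo2 r δ = 67 / 100 * π) ∨
    (10 ≤ Gm 2 r δ ∧ 485 / 100 ≤ r * δ ∧ eo2 r δ = 65 / 100 * π) ∨
    (20 ≤ Gm 2 r δ ∧ 16 / 5 ≤ r * δ ∧ eo2 r δ = 60 / 100 * π) := by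
  obtain ⟨h0, h1, h2⟩ := reg2_facts h
  by_cases h10 : Gm 2 r δ < 10
  · left
    refine ⟨h1 h10, ?_⟩
    unfold eo2 om2
    rw [hst_two, if_pos h10]
    ring
  · by_cases h20 : Gm 2 r δ < 20
    · right; left
      refine ⟨not_lt.mp h10, h2 h20, ?_⟩
      unfold eo2 om2
      rw [hst_two, if_neg h10, if_pos h20]
      ring
    · right; right
      refine ⟨not_lt.mp h20, h.rho, ?_⟩
      unfold eo2 om2
      rw [hst_two, if_neg h10, if_neg h20]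
      ring

/-- **`P2.outL`** -/
theorem p2_outL : ∀ (r δ y ζ : ℝ), Reg2 r δ → At r δ y (eo2 r δ) → Sad2 r δ y →
    0 ≤ ζ → eo2 r δ + ζ ≤ Real.pi → Out r δ y ζ (27 / 20) := by
  intro r δ y ζ h hA hS hζ hζ2
  have hp := Real.pi_gt_d4
  have hp2 := Real.pi_lt_d4
  obtain ⟨hy, ψ, W, D, G, hsG⟩ := outL_geo h hA hS
  have hδ := h.d0
  have hrd : 499 / 10 ≤ r * δ * (1 / δ) := by
    have : r * δ * (1 / δ) = r := by field_simp
    rw [this]; exact h.r0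
  have hρ0 := G.r0
  rcases ol_cases h with ⟨h1, h2⟩ | ⟨h0, h1, h2⟩ | ⟨h0, h1, h2⟩
  · have hd := t2c_w1 h.toPar (G := 27 / 5) (g := 547 / 1000) h.G (by norm_num)
    obtain ⟨-, hy1, -⟩ := outL_numA G h2 h1 hrd hd
    refine outL_red h hA hS hζ hζ2 (c := 47 / 100 * y) (by positivity) (by linarith only [hy1]) hy
      (by linarith only [hy]) ?_
    intro z j hz hj0 hj1 hf
    rw [hsG]
    exact outL_endA G h2 h1 hrd hd hy hz hj0 hj1 hf
  · have hd := t2c_w1 h.toPar (G := 10) (g := 1013 / 1000) h0 (by norm_num)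
    obtain ⟨-, hy1, -⟩ := outL_numB G h2 h1 hrd hd
    refine outL_red h hA hS hζ hζ2 (c := 3 / 8 * y) (by positivity) (by linarith only [hy1]) hy
      (by linarith only [hy]) ?_
    intro z j hz hj0 hj1 hf
    rw [hsG]
    exact outL_endB G h2 h1 hrd hd hy hz hj0 hj1 hf
  · have hd := t2c_w1 h.toPar (G := 20) (g := 2026 / 1000) h0 (by norm_num)
    have hy1 := G.y1
    refine outL_red h hA hS hζ hζ2 (c := 1 / 3 * y) (by positivity) (by linarith only [hy1]) hy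
      (by linarith only [hy]) ?_
    intro z j hz hj0 hj1 hf
    rw [hsG]
    exact outL_endC G h2 h1 hrd hd hy hz hj0 hj1 hf

end SokamP2O

end

/-! ### Lib_MP_af4de1_v3.ClD -/

section
namespace SokamCen
end SokamCen
namespace SokamF1
end SokamF1
namespace SokamF1M
end SokamF1M
namespace SokamF1S
end SokamF1S
namespace SokamFA
end SokamFA
namespace SokamV3
end SokamV3
/-!
# Far waves with `Γ ≥ 10`, IV: from the closed forms to `Shf`
-/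

set_option autoImplicit false

namespace SokamCl

open Real SokamCen SokamFA SokamV3 SokamF1 SokamF1S SokamF1M MeasureTheory Set

theorem wb_cen {r δ m : ℝ} (hr : 0 < r) (hδ : 0 < δ) (hm : 0 < m) (θ : ℝ) : WB r δ θ m := by
  intro c0 c1 c2
  exact wave_cen hr hδ hm θ c0 c1 c2

/-- sums of the normalised integrals -/
noncomputable def s0 (x : Pt) (G3 G4 : ℝ → ℝ) : ℝ := g1 x 1 + g2 x 1 + (G3 1 + G4 1)
noncomputable def sW (x : Pt) (G3 G4 : ℝ → ℝ) : ℝ :=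
  g1 x (7 / 8) + g2 x (7 / 8) + 14 / 5 * (G3 (7 / 8) + G4 (7 / 8))
noncomputable def se (x : Pt) (G3 G4 : ℝ → ℝ) : ℝ := g1 x 1 + g2 x 1 + exp 1 * (G3 1 + G4 1)

theorem g1_nonneg (x : Pt) (κ : ℝ) : 0 ≤ g1 x κ := by
  unfold g1
  positivity

theorem g2_nonneg (x : Pt) (κ : ℝ) : 0 ≤ g2 x κ := by
  unfold g2
  positivity

theorem g3_nonneg (x : Pt) (κ : ℝ) : 0 ≤ g3 x κ := by
  unfold g3
  positivity

theorem g4_nonneg (x : Pt) (κ : ℝ) : 0 ≤ g4 x κ := by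
  unfold g4
  positivity

theorem g3h_nonneg (x : Pt) (κ : ℝ) : 0 ≤ g3h x κ := by
  unfold g3h
  positivity

theorem g4h_nonneg (x : Pt) (κ : ℝ) : 0 ≤ g4h x κ := by
  unfold g4h
  positivity

theorem pm_le_one (m s : ℝ) : pm m s ≤ 1 := (abs_le.1 (pm_mem m s)).2

/-- the zone over the whole line, base point `1` -/
theorem zone_univ {r δ θ : ℝ} {x : Pt} (g : Geo r δ θ x) {G3 G4 : ℝ → ℝ}
    (hx2 : 16 / 5 ≤ 7 / 8 * (x.V * (tr x.σ x.T ^ (2 : ℕ) * al x / (2 * x.p))))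
    (n3 : ∀ κ, 0 ≤ G3 κ) (n4 : ∀ κ, 0 ≤ G4 κ)
    (h3 : ∀ κ, 7 / 8 ≤ κ → ∫⁻ s in Ioc 0 x.u,
      ENNReal.ofReal (exp (-(κ * r * Dm (mm (r * δ)) (r * δ) θ s))) ≤
      ENNReal.ofReal (G3 κ / K0 r δ))
    (h4 : ∀ κ, 7 / 8 ≤ κ → ∫⁻ s in Ioi x.u,
      ENNReal.ofReal (exp (-(κ * r * Dm (mm (r * δ)) (r * δ) θ s))) ≤
      ENNReal.ofReal (G4 κ / K0 r δ)) :
    Zone r (mm (r * δ)) (r * δ) θ 1 univ (s0 x G3 G4 / K0 r δ)
      (16 / (exp 1 * r) * (sW x G3 G4 / K0 r δ)) (se x G3 G4 / K0 r δ) := by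
  have hr : 0 < r := by linarith only [g.r0]
  have hK := g.K0pos
  have hm := g.mpos
  have hμ := g.mu'
  have hu := g.u0
  have he := exp_pos (1 : ℝ)
  have hT0 : 0 < θ / mm (r * δ) := div_pos g.th0 hm
  have htr0 := tr_pos g.s0 g.s1 hT0.le
  have hc0 : 0 ≤ θ * tr x.σ (θ / mm (r * δ)) := by
    have := g.th0
    (clear * - this htr0; positivity)
  have hone : ∀ s, exp (-(1 * r * Dm (mm (r * δ)) (r * δ) θ s)) =
      exp (-(r * Dm (mm (r * δ)) (r * δ) θ s)) := fun s => by rw [one_mul]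
  have a1 := g.G1 (κ := 1) one_pos
  have a1' := g.G1 (κ := 7 / 8) (by norm_num)
  have a2 := g.G2 (κ := 1) (by norm_num) hx2
  have a2' := g.G2 (κ := 7 / 8) (by norm_num) hx2
  have a3 := h3 1 (by norm_num)
  have a3' := h3 (7 / 8) (by norm_num)
  have a4 := h4 1 (by norm_num)
  have a4' := h4 (7 / 8) (by norm_num)
  simp only [hone] at a1 a2 a3 a4
  have z1 := zone_mk (C := 1) (E := 1) hr (by norm_num) (by norm_num) measurableSet_Icc
    (fun s hs => W_left (θ := θ) hm hμ hs.2)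
    (fun s hs => exp_le_one_iff.2 (pm_nonpos hm hs.2)) a1 a1'
  have z2 := zone_mk (C := 1) (E := 1) hr (by norm_num) (by norm_num) measurableSet_Iio
    (fun s hs => W_left (θ := θ) hm hμ (by have := mem_Iio.1 hs; linarith only [hc0, this]))
    (fun s hs => exp_le_one_iff.2 (pm_nonpos hm (by have := mem_Iio.1 hs; linarith only [hc0, this]))) a2 a2'
  have z3 := zone_mk (C := 14 / 5) (E := exp 1) hr (by norm_num) he.le measurableSet_Ioc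
    (fun s hs => W_right (θ := θ) hm hμ hs.1.le)
    (fun s _ => exp_le_exp.2 (pm_le_one _ s)) a3 a3'
  have z4 := zone_mk (C := 14 / 5) (E := exp 1) hr (by norm_num) he.le measurableSet_Ioi
    (fun s hs => W_right (θ := θ) hm hμ (by have := mem_Ioi.1 hs; linarith only [hu, this]))
    (fun s _ => exp_le_exp.2 (pm_le_one _ s)) a4 a4'
  have q1 := g1_nonneg x
  have q2 := g2_nonneg x
  have hc1 : 0 ≤ 16 * 1 / (exp 1 * r) := by (clear * - hr; positivity)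
  have hc2 : 0 ≤ 16 * (14 / 5) / (exp 1 * r) := by positivity
  have d : ∀ a : ℝ, 0 ≤ a → 0 ≤ a / K0 r δ := fun a ha => div_nonneg ha hK.le
  have z12 := z1.union z2 (d _ (q1 1)) (mul_nonneg hc1 (d _ (q1 _))) (mul_nonneg zero_le_one (d _ (q1 1)))
    (d _ (q2 1)) (mul_nonneg hc1 (d _ (q2 _))) (mul_nonneg zero_le_one (d _ (q2 1)))
  have z34 := z3.union z4 (d _ (n3 1)) (mul_nonneg hc2 (d _ (n3 _))) (mul_nonneg he.le (d _ (n3 1)))
    (d _ (n4 1)) (mul_nonneg hc2 (d _ (n4 _))) (mul_nonneg he.le (d _ (n4 1)))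
  have z := z12.union z34
    (add_nonneg (d _ (q1 1)) (d _ (q2 1)))
    (add_nonneg (mul_nonneg hc1 (d _ (q1 _))) (mul_nonneg hc1 (d _ (q2 _))))
    (add_nonneg (mul_nonneg zero_le_one (d _ (q1 1))) (mul_nonneg zero_le_one (d _ (q2 1))))
    (add_nonneg (d _ (n3 1)) (d _ (n4 1)))
    (add_nonneg (mul_nonneg hc2 (d _ (n3 _))) (mul_nonneg hc2 (d _ (n4 _))))
    (add_nonneg (mul_nonneg he.le (d _ (n3 1))) (mul_nonneg he.le (d _ (n4 1))))
  have hcov : (univ : Set ℝ) ⊆ (Icc (-(θ * tr x.σ (θ / mm (r * δ)))) 0 ∪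
      Iio (-(θ * tr x.σ (θ / mm (r * δ))))) ∪ (Ioc 0 x.u ∪ Ioi x.u) := by
    intro s _
    rcases lt_or_ge s (-(θ * tr x.σ (θ / mm (r * δ)))) with h | h
    · exact Or.inl (Or.inr h)
    · rcases le_or_gt s 0 with h' | h'
      · exact Or.inl (Or.inl ⟨h, h'⟩)
      · rcases le_or_gt s x.u with h'' | h''
        · exact Or.inr (Or.inl ⟨h', h''⟩)
        · exact Or.inr (Or.inr h'')
  refine (z.subset hcov).mono (le_of_eq ?_) (le_of_eq ?_) (le_of_eq ?_)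
  · unfold s0
    ring
  · unfold sW
    field_simp
  · unfold se
    ring

/-- FROM THE CLOSED FORMS TO `Shf` -/
theorem shf_num {N : ℕ} {r δ y η a0 aW ae f0 f1 f2 : ℝ} {x : Pt} {G3 G4 : ℝ → ℝ} (hN : 0 < N)
    (hA : At r δ y η) (hL : Lev r δ y η (6 / 5) 1 (23 / 20)) (hη : 0 ≤ η)
    (g : Geo r δ (η + hst N) x)
    (hx2 : 16 / 5 ≤ 7 / 8 * (x.V * (tr x.σ x.T ^ (2 : ℕ) * al x / (2 * x.p))))
    (n3 : ∀ κ, 0 ≤ G3 κ) (n4 : ∀ κ, 0 ≤ G4 κ)
    (h3 : ∀ κ, 7 / 8 ≤ κ → ∫⁻ s in Ioc 0 x.u,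
      ENNReal.ofReal (exp (-(κ * r * Dm (mm (r * δ)) (r * δ) (η + hst N) s))) ≤
      ENNReal.ofReal (G3 κ / K0 r δ))
    (h4 : ∀ κ, 7 / 8 ≤ κ → ∫⁻ s in Ioi x.u,
      ENNReal.ofReal (exp (-(κ * r * Dm (mm (r * δ)) (r * δ) (η + hst N) s))) ≤
      ENNReal.ofReal (G4 κ / K0 r δ))
    (b0 : exp (3 / 5 * (r * η ^ (2 : ℕ) / RR r δ)) * s0 x G3 G4 ≤ a0)
    (bW : 16 / exp 1 * (exp (3 / 5 * (r * η ^ (2 : ℕ) / RR r δ)) * sW x G3 G4) ≤ aW * Gm N r δ)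
    (be : exp (3 / 5 * (r * η ^ (2 : ℕ) / RR r δ)) * se x G3 G4 ≤ ae * Gm N r δ)
    (e0 : a0 ≤ f0) (e1 : √a0 * (√aW + η / hst N * √a0) ≤ f1)
    (e2 : (√aW + η / hst N * √a0) ^ (2 : ℕ) + ae ≤ f2) :
    Shf r δ y (hst N) (HH N r δ) f0 f1 f2 := by
  have hr : 0 < r := by linarith only [g.r0]
  have hδ := g.d0
  have hK := g.K0pos
  have hm := g.mpos
  have he := exp_pos (1 : ℝ)
  have hpi := Real.pi_pos
  have hNr : (0 : ℝ) < N := by exact_mod_cast hN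
  have hh : 0 < hst N := by
    unfold hst
    positivity
  have hR : 0 < RR r δ := by
    unfold RR
    (clear * - hr hδ; positivity)
  have hS : 0 < √(RR r δ) := Real.sqrt_pos.2 hR
  have hSS : √(RR r δ) ^ (2 : ℕ) = RR r δ := Real.sq_sqrt hR.le
  have hH : 0 < HH N r δ := by
    unfold HH
    (clear * - hr hh hR; positivity)
  have hG : 0 < Gm N r δ := by
    unfold Gm
    (clear * - hr hh hR; positivity)
  have hHG : HH N r δ ^ (2 : ℕ) = r * Gm N r δ := by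
    unfold HH Gm
    rw [div_pow, hSS]
    ring
  have hΛ := exp_pos (3 / 5 * (r * η ^ (2 : ℕ) / RR r δ))
  obtain ⟨Λ, hΛe⟩ : ∃ Λ, Λ = exp (3 / 5 * (r * η ^ (2 : ℕ) / RR r δ)) := ⟨_, rfl⟩
  rw [← hΛe] at b0 bW be hΛ
  have q1 := g1_nonneg x
  have q2 := g2_nonneg x
  have hs0 : 0 ≤ s0 x G3 G4 := by
    unfold s0
    linarith only [q1 1, q2 1, n3 1, n4 1]
  have hsW : 0 ≤ sW x G3 G4 := by
    unfold sW
    linarith only [q1 (7 / 8), q2 (7 / 8), n3 (7 / 8), n4 (7 / 8)]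
  have hse : 0 ≤ se x G3 G4 := by
    unfold se
    have := mul_nonneg he.le (add_nonneg (n3 1) (n4 1))
    linarith only [this, q1 1, q2 1]
  have z := zone_univ g hx2 n3 n4 h3 h4
  have hI0 : 0 ≤ s0 x G3 G4 / K0 r δ := div_nonneg hs0 hK.le
  have hIW : 0 ≤ 16 / (exp 1 * r) * (sW x G3 G4 / K0 r δ) := by (clear * - hr hsW hK; positivity)
  have hIe : 0 ≤ se x G3 G4 / K0 r δ := div_nonneg hse hK.le
  have hw : ‖(sK (r * δ) y / (r * δ : ℝ) : ℂ) - 1‖ ≤ η / √(RR r δ) := by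
    have h1 := hL.l1
    rw [kap_eq hr] at h1
    have e : (r : ℂ) * (sK (r * δ) y / (r * δ : ℝ)) - r = r * (sK (r * δ) y / (r * δ : ℝ) - 1) := by
      ring
    rw [e, norm_mul, Complex.norm_real, Real.norm_of_nonneg hr.le, abs_of_nonneg hη, one_mul,
      mul_div_assoc] at h1
    exact le_of_mul_le_mul_left h1 hr
  have zt := z.tri hI0 hIW hw
  have hP : LvF r δ η (6 / 5) (23 / 20) * √(1 + 1 / mm (r * δ) ^ (2 : ℕ)) = K0 r δ * Λ := by
    rw [hΛe]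
    unfold LvF K0
    have : (6 : ℝ) / 5 / 2 = 3 / 5 := by norm_num
    rw [this]
    ring
  have ha0 : 0 ≤ a0 := le_trans (by (clear * - hΛ hs0; positivity)) b0
  have haW : 0 ≤ aW := by
    have : 0 ≤ aW * Gm N r δ := le_trans (by (clear * - hΛ hsW; positivity)) bW
    exact nonneg_of_mul_nonneg_left this hG
  have hae : 0 ≤ ae := by
    have : 0 ≤ ae * Gm N r δ := le_trans (by (clear * - hΛ hse; positivity)) be
    exact nonneg_of_mul_nonneg_left this hG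
  have hτ : 0 ≤ η / hst N := div_nonneg hη hh.le
  -- square roots
  have p0 : K0 r δ * Λ * (s0 x G3 G4 / K0 r δ) ≤ a0 := by
    have : K0 r δ * Λ * (s0 x G3 G4 / K0 r δ) = Λ * s0 x G3 G4 := by field_simp
    rw [this]
    exact b0
  have pW : K0 r δ * Λ * (16 / (exp 1 * r) * (sW x G3 G4 / K0 r δ)) * r ^ (2 : ℕ) ≤
      HH N r δ ^ (2 : ℕ) * aW := by
    have : K0 r δ * Λ * (16 / (exp 1 * r) * (sW x G3 G4 / K0 r δ)) * r ^ (2 : ℕ) =
        r * (16 / exp 1 * (Λ * sW x G3 G4)) := by field_simp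
    rw [this, hHG]
    nlinarith only [hG, hHG, bW]
  have pe : K0 r δ * Λ * (r * (se x G3 G4 / K0 r δ)) ≤ HH N r δ ^ (2 : ℕ) * ae := by
    have : K0 r δ * Λ * (r * (se x G3 G4 / K0 r δ)) = r * (Λ * se x G3 G4) := by field_simp
    rw [this, hHG]
    nlinarith only [hG, hHG, be]
  obtain ⟨I0, hI0e⟩ : ∃ I0, I0 = s0 x G3 G4 / K0 r δ := ⟨_, rfl⟩
  obtain ⟨IW, hIWe⟩ : ∃ IW, IW = 16 / (exp 1 * r) * (sW x G3 G4 / K0 r δ) := ⟨_, rfl⟩
  obtain ⟨Ie, hIee⟩ : ∃ Ie, Ie = se x G3 G4 / K0 r δ := ⟨_, rfl⟩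
  rw [← hI0e, ← hIWe, ← hIee] at zt
  rw [← hI0e] at p0 hI0
  rw [← hIWe] at pW hIW
  rw [← hIee] at pe hIe
  have hKL : 0 < K0 r δ * Λ := mul_pos hK hΛ
  have r0 : √(K0 r δ * Λ) * √I0 ≤ √a0 := by
    rw [← Real.sqrt_mul hKL.le]
    exact Real.sqrt_le_sqrt p0
  have rW : √(K0 r δ * Λ) * √IW * r ≤ HH N r δ * √aW := by
    have h1 : √(K0 r δ * Λ) * √IW * r = √(K0 r δ * Λ * IW * r ^ (2 : ℕ)) := by
      have h3 : √(K0 r δ * Λ * IW * r ^ (2 : ℕ)) = √(K0 r δ * Λ * IW) * √(r ^ (2 : ℕ)) :=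
        Real.sqrt_mul (by (clear * - hK hΛ hIW; positivity)) _
      have h4 : √(K0 r δ * Λ * IW) = √(K0 r δ * Λ) * √IW := Real.sqrt_mul hKL.le _
      rw [h3, h4, Real.sqrt_sq hr.le]
    have h2 : HH N r δ * √aW = √(HH N r δ ^ (2 : ℕ) * aW) := by
      rw [Real.sqrt_mul (by (clear * - hH; positivity)), Real.sqrt_sq hH.le]
    rw [h1, h2]
    exact Real.sqrt_le_sqrt pW
  have hκ : r * (η / √(RR r δ)) = η / hst N * HH N r δ := by
    unfold HH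
    field_simp
  have rT : √(K0 r δ * Λ) * (r * (√IW + η / √(RR r δ) * √I0)) ≤
      HH N r δ * (√aW + η / hst N * √a0) := by
    have h1 : √(K0 r δ * Λ) * (r * (√IW + η / √(RR r δ) * √I0)) =
        √(K0 r δ * Λ) * √IW * r + r * (η / √(RR r δ)) * (√(K0 r δ * Λ) * √I0) := by ring
    rw [h1, hκ]
    have h2 : η / hst N * HH N r δ * (√(K0 r δ * Λ) * √I0) ≤ η / hst N * HH N r δ * √a0 :=
      mul_le_mul_of_nonneg_left r0 (by (clear * - hη hh hH; positivity))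
    linarith only [rW, h2]
  have rT0 : 0 ≤ √(K0 r δ * Λ) * (r * (√IW + η / √(RR r δ) * √I0)) := by (clear * - hK hΛ hr hη hR; positivity)
  refine shf_zone hr hδ hA hL (wb_cen hr hδ hm _) le_rfl hI0 (by (clear * -; positivity)) hIe zt ?_ ?_ ?_
  · rw [hP]
    linarith only [e0, p0]
  · rw [hP]
    have h1 : √(I0 * (√IW + η / √(RR r δ) * √I0) ^ (2 : ℕ)) = √I0 * (√IW + η / √(RR r δ) * √I0) := by
      rw [Real.sqrt_mul hI0, Real.sqrt_sq (by (clear * - hη hR; positivity))]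
    rw [h1]
    have h2 : K0 r δ * Λ = √(K0 r δ * Λ) * √(K0 r δ * Λ) := (Real.mul_self_sqrt hKL.le).symm
    calc K0 r δ * Λ * (r * (√I0 * (√IW + η / √(RR r δ) * √I0)))
        = (√(K0 r δ * Λ) * √(K0 r δ * Λ)) * (r * (√I0 * (√IW + η / √(RR r δ) * √I0))) := by
          rw [← h2]
      _ = (√(K0 r δ * Λ) * √I0) * (√(K0 r δ * Λ) * (r * (√IW + η / √(RR r δ) * √I0))) := by ring
      _ ≤ √a0 * (HH N r δ * (√aW + η / hst N * √a0)) :=
          mul_le_mul r0 rT rT0 (Real.sqrt_nonneg _)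
      _ = √a0 * (√aW + η / hst N * √a0) * HH N r δ := by ring
      _ ≤ f1 * HH N r δ := mul_le_mul_of_nonneg_right e1 hH.le
  · rw [hP]
    have h2 : K0 r δ * Λ = √(K0 r δ * Λ) ^ (2 : ℕ) := (Real.sq_sqrt hKL.le).symm
    have h3 := pow_le_pow_left₀ rT0 rT 2
    calc K0 r δ * Λ * (r ^ (2 : ℕ) * (√IW + η / √(RR r δ) * √I0) ^ (2 : ℕ) + r * Ie)
        = K0 r δ * Λ * (r ^ (2 : ℕ) * (√IW + η / √(RR r δ) * √I0) ^ (2 : ℕ)) + K0 r δ * Λ * (r * Ie) := by ring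
      _ = √(K0 r δ * Λ) ^ (2 : ℕ) * (r ^ (2 : ℕ) * (√IW + η / √(RR r δ) * √I0) ^ (2 : ℕ)) + K0 r δ * Λ * (r * Ie) := by
          rw [← h2]
      _ = (√(K0 r δ * Λ) * (r * (√IW + η / √(RR r δ) * √I0))) ^ (2 : ℕ) + K0 r δ * Λ * (r * Ie) := by ring
      _ ≤ (HH N r δ * (√aW + η / hst N * √a0)) ^ (2 : ℕ) + HH N r δ ^ (2 : ℕ) * ae := add_le_add h3 pe
      _ = ((√aW + η / hst N * √a0) ^ (2 : ℕ) + ae) * HH N r δ ^ (2 : ℕ) := by ring
      _ ≤ f2 * HH N r δ ^ (2 : ℕ) := mul_le_mul_of_nonneg_right e2 (by (clear * - hH; positivity))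

end SokamCl

end

/-! ### Lib_MP_af4de1_v3.ClH -/

section
namespace SokamCel
end SokamCel
namespace SokamFN
end SokamFN
/-!
# Far waves with `Γ ≥ 10`, VIII: one cell
-/

set_option autoImplicit false

namespace SokamCl

open Real SokamFN SokamCel

/-! ## a point -/

/-- facts about a point; `vt` bounds the angle -/
structure PTs (vt p T τ θ u V : ℝ) : Prop where
  hp : 0 < p
  hp1 : p < 1
  hT : 0 < T
  hθ : 0 < θ
  hu : u = 2 * π - θ
  hu0 : 0 < u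
  hπ : θ ≤ π
  e : θ ^ (2 : ℕ) * (1 - p ^ (2 : ℕ)) = 25 / 16 * T ^ (2 : ℕ)
  τ0 : 0 ≤ τ
  hv : θ ≤ (1 + τ) * vt
  V1 : 10 * (1 + τ) ^ (2 : ℕ) ≤ V
  V2 : 2495 / 32 * T ^ (2 : ℕ) ≤ V

theorem PTs.V0 {vt p T τ θ u V : ℝ} (h : PTs vt p T τ θ u V) : 0 < V := by
  have := h.V1
  have := h.τ0
  have : 0 < 10 * (1 + τ) ^ (2 : ℕ) := by positivity
  linarith

theorem PTs.S {vt p T τ θ u V : ℝ} (h : PTs vt p T τ θ u V) :
    0 < √(1 - p ^ (2 : ℕ)) ∧ θ * √(1 - p ^ (2 : ℕ)) = 5 / 4 * T := by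
  have hp := h.hp
  have hp1 := h.hp1
  have hq : 0 < 1 - p ^ (2 : ℕ) := by nlinarith
  have hS := Real.sqrt_pos.2 hq
  refine ⟨hS, ?_⟩
  have h2 : √(1 - p ^ (2 : ℕ)) ^ (2 : ℕ) = 1 - p ^ (2 : ℕ) := Real.sq_sqrt hq.le
  have h3 : (θ * √(1 - p ^ (2 : ℕ))) ^ (2 : ℕ) = (5 / 4 * T) ^ (2 : ℕ) := by
    rw [mul_pow, h2, h.e]
    ring
  have hθ := h.hθ
  have hT := h.hT
  exact (sq_eq_sq₀ (by positivity) (by positivity)).1 h3

/-- the two lower bounds of `V` -/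
theorem V_le {vt p T τ θ u V : ℝ} {T0 t0 : ℕ} (h : PTs vt p T τ θ u V) (hT : fx T0 ≤ T)
    (ht : fx t0 ≤ τ) :
    fx (max (10 * mL (SC + t0) (SC + t0)) (rL 2495 32 (mL T0 T0))) ≤ V := by
  rcases max_choice (10 * mL (SC + t0) (SC + t0)) (rL 2495 32 (mL T0 T0)) with hc | hc <;> rw [hc]
  · refine le_trans ?_ h.V1
    rw [fx_mul]
    have := sqL_le (addL fx_one.le ht)
    push_cast
    linarith only [this]
  · exact (rL_le (by norm_num) (by norm_num) (sqL_le hT) (by norm_num)).trans h.V2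

/-- the level -/
theorem L_le {τ : ℝ} {t1 : ℕ} (h0 : 0 ≤ τ) (h1 : τ ≤ fx t1) :
    3 / 5 * (τ / (1 + τ)) ^ (2 : ℕ) ≤ fx (rU 3 5 (mU (dU t1 (SC + t1)) (dU t1 (SC + t1)))) := by
  have h2 : τ / (1 + τ) ≤ fx (dU t1 (SC + t1)) := by
    have h3 : τ / (1 + τ) ≤ fx t1 / (1 + fx t1) := by
      rw [div_le_div_iff₀ (by linarith only [h0]) (by linarith only [h0, h1])]
      nlinarith
    refine h3.trans (divU le_rfl ?_ ?_)
    · rw [fx_add, fx_one]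
    · unfold SC
      omega
  exact rU_le (by norm_num) (by norm_num) (sqU_le (by positivity) h2) (by norm_num)

theorem q_le {p : ℝ} {p0 q0 : ℕ} (hp : fx p0 ≤ p) (hq : 1 - fx p0 ^ (2 : ℕ) ≤ fx q0) :
    √(1 - p ^ (2 : ℕ)) ≤ fx (sqU q0) := by
  refine sqrtU (le_trans ?_ hq)
  have := pow_le_pow_left₀ (fx_nonneg p0) hp 2
  linarith only [this]

/-! ## stage A, general -/

def okA (vt p0 p1 T0 T1 t0 t1 : ℕ) (k : ℕ → ℕ → ℕ → ℕ → ℕ → ℕ → Bool) : Bool :=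
  fc (SC - mL p0 p0) fun q0 =>
  fc (sqU q0) fun sp0 =>
  fc (mU (SC + t1) vt) fun thm =>
  Nat.ble (mU thm sp0 + 1) (rL 5 4 T0) ||
  (Nat.ble p1 SC && fc (sqL (SC - mU p1 p1)) fun sp1 =>
  fc (bif Nat.beq sp1 0 then thm else min (dU (rU 5 4 T1) sp1) thm) fun th1 =>
  fc (dL (rL 5 4 T0) sp0) fun thl =>
  fc (max (10 * mL (SC + t0) (SC + t0)) (rL 2495 32 (mL T0 T0))) fun V0 =>
  fc (dU t1 (SC + t1)) fun x =>
  fc (rU 3 5 (mU x x)) fun L => k q0 sp0 th1 thl V0 L)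

theorem okA_sound {vt : ℕ} {p T τ θ u V : ℝ} {p0 p1 T0 T1 t0 t1 : ℕ}
    {k : ℕ → ℕ → ℕ → ℕ → ℕ → ℕ → Bool} (h : okA vt p0 p1 T0 T1 t0 t1 k = true)
    (hP : PTs (fx vt) p T τ θ u V) (b0 : fx p0 ≤ p) (b1 : p ≤ fx p1) (b2 : fx T0 ≤ T)
    (b3 : T ≤ fx T1) (b4 : fx t0 ≤ τ) (b5 : τ ≤ fx t1) :
    ∃ q0 sp0 th1 thl V0 L : ℕ, FA p T τ θ u V p0 p1 t1 q0 sp0 T1 th1 thl V0 L ∧
      k q0 sp0 th1 thl V0 L = true := by
  unfold okA at h
  obtain ⟨q0, e1, h⟩ := fc_elim h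
  obtain ⟨sp0, e2, h⟩ := fc_elim h
  obtain ⟨thm, e3, h⟩ := fc_elim h
  obtain ⟨hS, hθS⟩ := hP.S
  have hθ := hP.hθ
  have hq : 1 - fx p0 ^ (2 : ℕ) ≤ fx q0 := by
    rw [e1]
    exact oneSubU le_rfl
  have hsp : √(1 - p ^ (2 : ℕ)) ≤ fx sp0 := by
    rw [e2]
    exact q_le b0 hq
  have hthm : θ ≤ fx thm := by
    refine hP.hv.trans ?_
    rw [e3]
    exact mulU (addU fx_one.ge b5) le_rfl (fx_nonneg _)
  have hT0' : fx (rL 5 4 T0) ≤ 5 / 4 * T :=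
    rL_le (by norm_num) (by norm_num) b2 (by norm_num)
  rw [Bool.or_eq_true] at h
  rcases h with h | h
  · exfalso
    rw [Nat.ble_eq] at h
    have h1 : fx (mU thm sp0) < fx (rL 5 4 T0) := fx_lt (by omega)
    have h2 := mulU hthm hsp hS.le
    linarith only [hθS, hT0', h1, h2]
  · rw [Bool.and_eq_true] at h
    obtain ⟨hp1, h⟩ := h
    rw [Nat.ble_eq] at hp1
    obtain ⟨sp1, e4, h⟩ := fc_elim h
    obtain ⟨th1, e5, h⟩ := fc_elim h
    obtain ⟨thl, e6, h⟩ := fc_elim h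
    obtain ⟨V0, e7, h⟩ := fc_elim h
    obtain ⟨x, e8, h⟩ := fc_elim h
    obtain ⟨L, e9, h⟩ := fc_elim h
    refine ⟨q0, sp0, th1, thl, V0, L, ⟨hP.hp, hP.hp1, hP.hT, hP.hθ, hP.hu, hP.hu0, ?_, hP.V0, hP.e, b0, b1,
      hp1, hP.τ0, b5, hq, hsp, b3, ?_, ?_, ?_⟩, h⟩
    · rw [e7]
      exact V_le hP b2 b4
    · rw [e5]
      cases hb : Nat.beq sp1 0 with
      | true =>
        rw [cond_true]
        exact hthm
      | false =>
        rw [cond_false]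
        have hsp1 : 0 < sp1 := by
          rcases Nat.eq_zero_or_pos sp1 with h0 | h0
          · rw [h0] at hb
            exact absurd hb (by decide)
          · exact h0
        have hs1 : fx sp1 ≤ √(1 - p ^ (2 : ℕ)) := by
          rw [e4]
          exact sqrtL (oneSubL hP.hp.le b1 hp1)
        have h2 : θ ≤ fx (dU (rU 5 4 T1) sp1) := by
          have e : θ = 5 / 4 * T / √(1 - p ^ (2 : ℕ)) := by
            rw [eq_div_iff hS.ne']
            exact hθS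
          rw [e]
          exact divU (rU_le (by norm_num) (by norm_num) b3 (by norm_num)) hs1 hsp1
        rcases min_choice (dU (rU 5 4 T1) sp1) thm with hc | hc <;> rw [hc]
        · exact h2
        · exact hthm
    · rw [e6]
      have e : θ = 5 / 4 * T / √(1 - p ^ (2 : ℕ)) := by
        rw [eq_div_iff hS.ne']
        exact hθS
      rw [e]
      exact divL hT0' hsp hS
    · rw [e9, e8]
      exact L_le hP.τ0 b5

/-! ## stage A, three points -/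

def okA3 (p0 p1 t0 t1 : ℕ) (k : ℕ → ℕ → ℕ → ℕ → ℕ → ℕ → ℕ → Bool) : Bool :=
  fc (SC - mL p0 p0) fun q0 =>
  fc (sqU q0) fun sp0 =>
  Nat.ble p1 SC &&
  fc (sqL (SC - mU p1 p1)) fun sp1 =>
  fc (min (mU (SC + t1) 2302812022160) 3454218033240) fun th1 =>
  fc (mL (SC + t0) 2302811289152) fun thl =>
  fc (rL 4 5 (mL thl sp1)) fun T0 =>
  fc (rU 4 5 (mU th1 sp0)) fun T1 =>
  fc (max (10 * mL (SC + t0) (SC + t0)) (rL 2495 32 (mL T0 T0))) fun V0 =>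
  fc (dU t1 (SC + t1)) fun x =>
  fc (rU 3 5 (mU x x)) fun L => k q0 sp0 T1 th1 thl V0 L

theorem okA3_sound {p T τ θ u V : ℝ} {p0 p1 t0 t1 : ℕ}
    {k : ℕ → ℕ → ℕ → ℕ → ℕ → ℕ → ℕ → Bool} (h : okA3 p0 p1 t0 t1 k = true)
    (hP : PTs (2 * π / 3) p T τ θ u V) (hθe : θ = (1 + τ) * (2 * π / 3))
    (b0 : fx p0 ≤ p) (b1 : p ≤ fx p1) (b4 : fx t0 ≤ τ) (b5 : τ ≤ fx t1) :
    ∃ q0 sp0 T1 th1 thl V0 L : ℕ, FA p T τ θ u V p0 p1 t1 q0 sp0 T1 th1 thl V0 L ∧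
      k q0 sp0 T1 th1 thl V0 L = true := by
  unfold okA3 at h
  obtain ⟨q0, e1, h⟩ := fc_elim h
  obtain ⟨sp0, e2, h⟩ := fc_elim h
  rw [Bool.and_eq_true] at h
  obtain ⟨hp1, h⟩ := h
  rw [Nat.ble_eq] at hp1
  obtain ⟨sp1, e3, h⟩ := fc_elim h
  obtain ⟨th1, e4, h⟩ := fc_elim h
  obtain ⟨thl, e5, h⟩ := fc_elim h
  obtain ⟨T0, e6, h⟩ := fc_elim h
  obtain ⟨T1, e7, h⟩ := fc_elim h
  obtain ⟨V0, e8, h⟩ := fc_elim h
  obtain ⟨x, e9, h⟩ := fc_elim h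
  obtain ⟨L, e10, h⟩ := fc_elim h
  obtain ⟨hS, hθS⟩ := hP.S
  have hθ := hP.hθ
  have hpi := Real.pi_pos
  have hpl := Real.pi_gt_d6
  have hpu := Real.pi_lt_d6
  have hq : 1 - fx p0 ^ (2 : ℕ) ≤ fx q0 := by
    rw [e1]
    exact oneSubU le_rfl
  have hsp : √(1 - p ^ (2 : ℕ)) ≤ fx sp0 := by
    rw [e2]
    exact q_le b0 hq
  have hs1 : fx sp1 ≤ √(1 - p ^ (2 : ℕ)) := by
    rw [e3]
    exact sqrtL (oneSubL hP.hp.le b1 hp1)
  have hth1 : θ ≤ fx th1 := by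
    rw [e4]
    rcases min_choice (mU (SC + t1) 2302812022160) 3454218033240 with hc | hc <;> rw [hc]
    · rw [hθe]
      refine mulU (addU fx_one.ge b5) ?_ (by positivity)
      have : (3.141593 : ℝ) * 2 / 3 ≤ fx 2302812022160 := by unfold fx; norm_num
      linarith only [hpu, this]
    · refine hP.hπ.trans ?_
      have : (3.141593 : ℝ) ≤ fx 3454218033240 := by unfold fx; norm_num
      linarith only [hpu, this]
  have hthl : fx thl ≤ θ := by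
    rw [e5, hθe]
    refine mulL (addL fx_one.le b4) ?_
    have : fx 2302811289152 ≤ (3.141592 : ℝ) * 2 / 3 := by unfold fx; norm_num
    linarith only [hpl, this]
  have hT : T = 4 / 5 * (θ * √(1 - p ^ (2 : ℕ))) := by
    rw [hθS]
    ring
  have hT0 : fx T0 ≤ T := by
    rw [e6, hT]
    exact rL_le (by norm_num) (by norm_num) (mulL hthl hs1) (by norm_num)
  have hT1 : T ≤ fx T1 := by
    rw [e7, hT]
    exact rU_le (by norm_num) (by norm_num) (mulU hth1 hsp hS.le) (by norm_num)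
  refine ⟨q0, sp0, T1, th1, thl, V0, L, ⟨hP.hp, hP.hp1, hP.hT, hP.hθ, hP.hu, hP.hu0, ?_, hP.V0,
    hP.e, b0, b1, hp1, hP.τ0, b5, hq, hsp, hT1, hth1, hthl, ?_⟩, h⟩
  · rw [e8]
    exact V_le hP hT0 b4
  · rw [e10, e9]
    exact L_le hP.τ0 b5

/-! ## sums -/

def okE (V0 L s c s' c' : ℕ) (k : ℕ → ℕ → Bool) : Bool :=
  Nat.ble L (rL 7 8 c) && Nat.ble L (rL 7 8 c') &&
    fc (eeU V0 L s c + eeU V0 L s' c') fun e =>
    fc (ffU V0 L s c + ffU V0 L s' c') fun f => k e f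

theorem okE_sound {V L' : ℝ} {V0 L s c s' c' : ℕ} {k : ℕ → ℕ → Bool}
    (h : okE V0 L s c s' c' k = true) (hV : fx V0 ≤ V) (hL : L' ≤ fx L) :
    ∃ e f : ℕ, (∀ a b : ℝ → ℝ, Bd a V s c → Bd b V s' c' →
      exp (L' * V) * (a 1 + b 1) ≤ fx e ∧ exp (L' * V) * (a (7 / 8) + b (7 / 8)) ≤ fx f) ∧
      k e f = true := by
  unfold okE at h
  simp only [Bool.and_eq_true, Nat.ble_eq] at h
  obtain ⟨⟨h1, h2⟩, h⟩ := h
  obtain ⟨e, e1, h⟩ := fc_elim h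
  obtain ⟨f, e2, h⟩ := fc_elim h
  refine ⟨e, f, fun a b ha hb => ⟨?_, ?_⟩, h⟩
  · rw [e1, mul_add]
    exact addU (ha.one hV hL h1) (hb.one hV hL h2)
  · rw [e2, mul_add]
    exact addU (ha.sev hV hL h1) (hb.sev hV hL h2)

def okE3 (V0 L s c s' c' s5 c5 : ℕ) (k : ℕ → ℕ → Bool) : Bool :=
  Nat.ble L (rL 7 8 c) && Nat.ble L (rL 7 8 c') && Nat.ble L (rL 7 8 c5) &&
    fc (eeU V0 L s c + eeU V0 L s5 c5 + eeU V0 L s' c') fun e =>
    fc (ffU V0 L s c + ffU V0 L s5 c5 + ffU V0 L s' c') fun f => k e f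

theorem okE3_sound {V L' : ℝ} {V0 L s c s' c' s5 c5 : ℕ} {k : ℕ → ℕ → Bool}
    (h : okE3 V0 L s c s' c' s5 c5 k = true) (hV : fx V0 ≤ V) (hL : L' ≤ fx L) :
    ∃ e f : ℕ, (∀ a b : ℝ → ℝ, Bd2 a V s c s5 c5 → Bd b V s' c' →
      exp (L' * V) * (a 1 + b 1) ≤ fx e ∧ exp (L' * V) * (a (7 / 8) + b (7 / 8)) ≤ fx f) ∧
      k e f = true := by
  unfold okE3 at h
  simp only [Bool.and_eq_true, Nat.ble_eq] at h
  obtain ⟨⟨⟨h1, h2⟩, h3⟩, h⟩ := h
  obtain ⟨e, e1, h⟩ := fc_elim h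
  obtain ⟨f, e2, h⟩ := fc_elim h
  refine ⟨e, f, fun a b ha hb => ?_, h⟩
  obtain ⟨x, y, hxy, hx, hy⟩ := ha
  have hE := exp_pos (L' * V)
  constructor
  · rw [e1, mul_add]
    refine addU ?_ (hb.one hV hL h2)
    refine (mul_le_mul_of_nonneg_left (hxy 1 (by norm_num) le_rfl) hE.le).trans ?_
    rw [mul_add]
    exact addU (hx.one hV hL h1) (hy.one hV hL h3)
  · rw [e2, mul_add]
    refine addU ?_ (hb.sev hV hL h2)
    refine (mul_le_mul_of_nonneg_left (hxy (7 / 8) le_rfl (by norm_num)) hE.le).trans ?_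
    rw [mul_add]
    exact addU (hx.sev hV hL h1) (hy.sev hV hL h3)

/-! ## totals -/

def fin (lim0 lim2 t1 V0 eL fL eR fR : ℕ) : Bool :=
  fc (eL + eR) fun a0 =>
  fc (dU (mU (SC + t1) (SC + t1)) V0) fun iv =>
  fc (mU (mU 6471803571383 (fL + rU 14 5 fR)) iv) fun aW =>
  fc (mU (eL + mU 2988782478118 eR) iv) fun ae =>
  fc (sqU aW + mU t1 (sqU a0)) fun s =>
    Nat.ble 1 V0 && Nat.ble a0 lim0 && Nat.ble (mU s s + ae) lim2

/-- the conclusion for one point -/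
def Good (G3 G4 : Pt → ℝ → ℝ) (k4 lim0 lim2 p T τ θ u V : ℝ) : Prop :=
  ∃ σ cl A2 : ℝ, 0 ≤ σ ∧ σ ≤ 1 ∧ 0 < cl ∧ cl ≤ 1 ∧ cl * T ≤ 1 ∧ 0 < A2 ∧
    A2 ≤ (8 / 5 - 16 / 25 * gam (min 1 (4 / 5 * √(1 - p ^ (2 : ℕ)) * u)) * p) *
      min 1 (1 / (4 / 5 * √(1 - p ^ (2 : ℕ)) * u)) ∧
    16 / 5 ≤ 7 / 8 * (V * (tr σ T ^ (2 : ℕ) * al ⟨p, T, θ, u, V, σ, cl, A2⟩ / (2 * p))) ∧
    k4 ≤ 7 / 8 * (V * ((u / θ) ^ (2 : ℕ) * A2 / (2 * p))) ∧
    ∃ a0 aW ae : ℝ,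
      exp (3 / 5 * (τ / (1 + τ)) ^ (2 : ℕ) * V) * s0 ⟨p, T, θ, u, V, σ, cl, A2⟩
        (G3 ⟨p, T, θ, u, V, σ, cl, A2⟩) (G4 ⟨p, T, θ, u, V, σ, cl, A2⟩) ≤ a0 ∧
      16 / exp 1 * (exp (3 / 5 * (τ / (1 + τ)) ^ (2 : ℕ) * V) * sW ⟨p, T, θ, u, V, σ, cl, A2⟩
        (G3 ⟨p, T, θ, u, V, σ, cl, A2⟩) (G4 ⟨p, T, θ, u, V, σ, cl, A2⟩)) ≤
          aW * (V / (1 + τ) ^ (2 : ℕ)) ∧
      exp (3 / 5 * (τ / (1 + τ)) ^ (2 : ℕ) * V) * se ⟨p, T, θ, u, V, σ, cl, A2⟩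
        (G3 ⟨p, T, θ, u, V, σ, cl, A2⟩) (G4 ⟨p, T, θ, u, V, σ, cl, A2⟩) ≤
          ae * (V / (1 + τ) ^ (2 : ℕ)) ∧
      a0 ≤ lim0 ∧ (√aW + τ * √a0) ^ (2 : ℕ) + ae ≤ lim2

theorem fin_sound {V τ Λ A A' B B' : ℝ} {lim0 lim2 t1 V0 eL fL eR fR : ℕ}
    (h : fin lim0 lim2 t1 V0 eL fL eR fR = true) (hV : fx V0 ≤ V) (hVp : 0 < V) (h0 : 0 ≤ τ)
    (h1 : τ ≤ fx t1) (hB0 : 0 ≤ Λ * B) (hA0' : 0 ≤ Λ * A') (hB0' : 0 ≤ Λ * B')
    (hA : Λ * A ≤ fx eL) (hA' : Λ * A' ≤ fx fL) (hB : Λ * B ≤ fx eR) (hB' : Λ * B' ≤ fx fR) :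
    ∃ a0 aW ae : ℝ, Λ * (A + B) ≤ a0 ∧
      16 / exp 1 * (Λ * (A' + 14 / 5 * B')) ≤ aW * (V / (1 + τ) ^ (2 : ℕ)) ∧
      Λ * (A + exp 1 * B) ≤ ae * (V / (1 + τ) ^ (2 : ℕ)) ∧
      a0 ≤ fx lim0 ∧ (√aW + τ * √a0) ^ (2 : ℕ) + ae ≤ fx lim2 := by
  unfold fin at h
  obtain ⟨a0, e1, h⟩ := fc_elim h
  obtain ⟨iv, e2, h⟩ := fc_elim h
  obtain ⟨aW, e3, h⟩ := fc_elim h
  obtain ⟨ae, e4, h⟩ := fc_elim h
  obtain ⟨s, e5, h⟩ := fc_elim h
  simp only [Bool.and_eq_true, Nat.ble_eq] at h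
  obtain ⟨⟨k1, k2⟩, k3⟩ := h
  have hV0 : 0 < fx V0 := fx_pos k1
  have hτ : 0 < (1 + τ) ^ (2 : ℕ) := by positivity
  have hiv : (1 + τ) ^ (2 : ℕ) / V ≤ fx iv := by
    rw [e2]
    exact divU (sqU_le (by linarith only [h0]) (addU fx_one.ge h1)) hV k1
  have hE := exp_pos (1 : ℝ)
  -- scaling by `V/(1+τ)²`
  have key : ∀ x y : ℝ, 0 ≤ y → x ≤ y → x ≤ y * fx iv * (V / (1 + τ) ^ (2 : ℕ)) := by
    intro x y hy hxy
    have e : y = y * ((1 + τ) ^ (2 : ℕ) / V) * (V / (1 + τ) ^ (2 : ℕ)) := by field_simp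
    calc x ≤ y := hxy
      _ = y * ((1 + τ) ^ (2 : ℕ) / V) * (V / (1 + τ) ^ (2 : ℕ)) := e
      _ ≤ y * fx iv * (V / (1 + τ) ^ (2 : ℕ)) := by
          have := mul_le_mul_of_nonneg_left hiv hy
          exact mul_le_mul_of_nonneg_right this (by positivity)
  refine ⟨fx a0, fx aW, fx ae, ?_, ?_, ?_, fx_mono k2, ?_⟩
  · rw [e1, mul_add]
    exact addU hA hB
  · have h3 : 16 / exp 1 * (Λ * (A' + 14 / 5 * B')) ≤
        fx (mU 6471803571383 (fL + rU 14 5 fR)) := by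
      have h4 : Λ * (A' + 14 / 5 * B') ≤ fx (fL + rU 14 5 fR) := by
        have : Λ * (A' + 14 / 5 * B') = Λ * A' + 14 / 5 * (Λ * B') := by ring
        rw [this]
        exact addU hA' (rU_le (by norm_num) (by norm_num) hB' (by norm_num))
      refine mulU ?_ h4 ?_
      · have := Real.exp_one_gt_d9
        have h5 : 16 / 2.7182818283 ≤ fx 6471803571383 := by unfold fx; norm_num
        refine le_trans ?_ h5
        exact div_le_div_of_nonneg_left (by norm_num) (by norm_num) this.le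
      · have : Λ * (A' + 14 / 5 * B') = Λ * A' + 14 / 5 * (Λ * B') := by ring
        rw [this]
        positivity
    refine (key _ _ (fx_nonneg _) h3).trans ?_
    rw [e3]
    exact mul_le_mul_of_nonneg_right (le_mU _ _) (by positivity)
  · have h3 : Λ * (A + exp 1 * B) ≤ fx (eL + mU 2988782478118 eR) := by
      have : Λ * (A + exp 1 * B) = Λ * A + exp 1 * (Λ * B) := by ring
      rw [this]
      refine addU hA (mulU ?_ hB hB0)
      have := Real.exp_one_lt_d9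
      have h5 : (2.7182818286 : ℝ) ≤ fx 2988782478118 := by unfold fx; norm_num
      linarith only [this, h5]
    refine (key _ _ (fx_nonneg _) h3).trans ?_
    rw [e4]
    exact mul_le_mul_of_nonneg_right (le_mU _ _) (by positivity)
  · refine le_trans (addU ?_ le_rfl) (fx_mono k3)
    refine sqU_le (by positivity) ?_
    rw [e5]
    exact addU (sqrtU le_rfl) (mulU h1 (sqrtU le_rfl) (Real.sqrt_nonneg _))

/-! ## one cell -/

/-- the cell test, general -/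
def okG (vt lim0 lim2 p0 p1 T0 T1 t0 t1 : ℕ) : Bool :=
  okA vt p0 p1 T0 T1 t0 t1 fun q0 sp0 th1 thl V0 L =>
  okN q0 T1 th1 fun n0 be tt =>
  okB1 p0 p1 T1 fun icl a1 b1 =>
  okB2 p0 p1 q0 V0 n0 be tt icl a1 b1 fun s1 c1 s2 c2 =>
  okC1 p1 sp0 th1 thl fun A2 r1 s4p =>
  okC2 p1 q0 V0 n0 be tt A2 r1 s4p fun s3 c3 s4 c4 =>
  okE V0 L s1 c1 s2 c2 fun eL fL =>
  okE V0 L s3 c3 s4 c4 fun eR fR =>
  fin lim0 lim2 t1 V0 eL fL eR fR

theorem FB.pack {σ T T1 : ℝ} {icl a1 b1 : ℕ} (h : FB σ T1 icl a1 b1) (hT : T ≤ T1) :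
    0 < 1 / fx icl ∧ 1 / fx icl ≤ 1 ∧ 1 / fx icl * T ≤ 1 := by
  have h1 := h.i1
  have h2 := h.i2
  have h0 : 0 < fx icl := by linarith only [h1]
  refine ⟨by positivity, ?_, ?_⟩
  · rw [div_le_one h0]
    exact h1
  · rw [one_div, inv_mul_le_iff₀ h0]
    linarith only [hT, h2]

theorem okG_sound {vt lim0 lim2 p0 p1 T0 T1 t0 t1 : ℕ}
    (h : okG vt lim0 lim2 p0 p1 T0 T1 t0 t1 = true) {p T τ : ℝ}
    (b0 : fx p0 ≤ p) (b1 : p ≤ fx p1) (b2 : fx T0 ≤ T)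
    (b3 : T ≤ fx T1) (b4 : fx t0 ≤ τ) (b5 : τ ≤ fx t1) {θ u V : ℝ}
    (hP : PTs (fx vt) p T τ θ u V) :
    Good g3 g4 (16 / 5) (fx lim0) (fx lim2) p T τ θ u V := by
  unfold okG at h
  obtain ⟨q0, sp0, th1, thl, V0, L, hA, h⟩ := okA_sound h hP b0 b1 b2 b3 b4 b5
  obtain ⟨n0, be, tt, hN, h⟩ := okN_sound hA.hq h
  obtain ⟨σ, icl, a1, bb1, hB, h⟩ := okB1_sound h
  obtain ⟨s1, c1, s2, c2, hL, h⟩ := okB2_sound hA hN hB h
  obtain ⟨A2, r1, s4p, hC, h⟩ := okC1_sound hA h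
  obtain ⟨s3, c3, s4, c4, hR, h⟩ := okC2_sound hA hN hC h
  obtain ⟨eL, fL, hEL, h⟩ := okE_sound h hA.hV hA.hL
  obtain ⟨eR, fR, hER, h⟩ := okE_sound h hA.hV hA.hL
  obtain ⟨z1, z2, z3⟩ := hB.pack hA.hT1
  obtain ⟨l1, l2, l3⟩ := hL (fx A2) (fx_pos hC.a0)
  obtain ⟨r1', r2, r3⟩ := hR σ (1 / fx icl) hB.s0 hB.s1 z1
  obtain ⟨x1, x2⟩ := hEL _ _ l2 l3
  obtain ⟨y1, y2⟩ := hER _ _ r2 r3
  have hΛ := exp_pos (3 / 5 * (τ / (1 + τ)) ^ (2 : ℕ) * V)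
  refine ⟨σ, 1 / fx icl, fx A2, hB.s0, hB.s1, z1, z2, z3, fx_pos hC.a0, hC.a1, l1, r1', ?_⟩
  exact fin_sound h hA.hV hA.hV0 hA.τ0 hA.τ1
    (mul_nonneg hΛ.le (add_nonneg (g3_nonneg _ _) (g4_nonneg _ _)))
    (mul_nonneg hΛ.le (add_nonneg (g1_nonneg _ _) (g2_nonneg _ _)))
    (mul_nonneg hΛ.le (add_nonneg (g3_nonneg _ _) (g4_nonneg _ _))) x1 x2 y1 y2

/-- the cell test, three points -/
def okW (lim0 lim2 p0 p1 t0 t1 : ℕ) : Bool :=
  okA3 p0 p1 t0 t1 fun q0 sp0 T1 th1 thl V0 L =>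
  okN q0 T1 th1 fun n0 be tt =>
  okB1 p0 p1 T1 fun icl a1 b1 =>
  okB2 p0 p1 q0 V0 n0 be tt icl a1 b1 fun s1 c1 s2 c2 =>
  okC1 p1 sp0 th1 thl fun A2 r1 s4p =>
  okC3 p0 p1 q0 th1 V0 n0 A2 r1 s4p fun s3 c3 s4 c4 s5 c5 =>
  okE V0 L s1 c1 s2 c2 fun eL fL =>
  okE3 V0 L s3 c3 s4 c4 s5 c5 fun eR fR =>
  fin lim0 lim2 t1 V0 eL fL eR fR

theorem okW_sound {lim0 lim2 p0 p1 t0 t1 : ℕ}
    (h : okW lim0 lim2 p0 p1 t0 t1 = true) {p τ : ℝ}
    (b0 : fx p0 ≤ p) (b1 : p ≤ fx p1) (b4 : fx t0 ≤ τ) (b5 : τ ≤ fx t1) {T θ u V : ℝ}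
    (hP : PTs (2 * π / 3) p T τ θ u V) (hθe : θ = (1 + τ) * (2 * π / 3)) :
    Good g3h g4h (32 / 5) (fx lim0) (fx lim2) p T τ θ u V := by
  unfold okW at h
  obtain ⟨q0, sp0, T1, th1, thl, V0, L, hA, h⟩ := okA3_sound h hP hθe b0 b1 b4 b5
  obtain ⟨n0, be, tt, hN, h⟩ := okN_sound hA.hq h
  obtain ⟨σ, icl, a1, bb1, hB, h⟩ := okB1_sound h
  obtain ⟨s1, c1, s2, c2, hL, h⟩ := okB2_sound hA hN hB h
  obtain ⟨A2, r1, s4p, hC, h⟩ := okC1_sound hA h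
  obtain ⟨s3, c3, s4, c4, s5, c5, hR, h⟩ := okC3_sound hA hN hC h
  obtain ⟨eL, fL, hEL, h⟩ := okE_sound h hA.hV hA.hL
  obtain ⟨eR, fR, hER, h⟩ := okE3_sound h hA.hV hA.hL
  obtain ⟨z1, z2, z3⟩ := hB.pack hA.hT1
  obtain ⟨l1, l2, l3⟩ := hL (fx A2) (fx_pos hC.a0)
  obtain ⟨r1', r2, r3⟩ := hR σ (1 / fx icl) hB.s0 hB.s1 z1
  obtain ⟨x1, x2⟩ := hEL _ _ l2 l3
  obtain ⟨y1, y2⟩ := hER _ _ r2 r3
  have hΛ := exp_pos (3 / 5 * (τ / (1 + τ)) ^ (2 : ℕ) * V)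
  refine ⟨σ, 1 / fx icl, fx A2, hB.s0, hB.s1, z1, z2, z3, fx_pos hC.a0, hC.a1, l1, r1', ?_⟩
  exact fin_sound h hA.hV hA.hV0 hA.τ0 hA.τ1
    (mul_nonneg hΛ.le (add_nonneg (g3h_nonneg _ _) (g4h_nonneg _ _)))
    (mul_nonneg hΛ.le (add_nonneg (g1_nonneg _ _) (g2_nonneg _ _)))
    (mul_nonneg hΛ.le (add_nonneg (g3h_nonneg _ _) (g4h_nonneg _ _))) x1 x2 y1 y2

end SokamCl

end

/-! ### Lib_MP_af4de1_v3.ClI -/

section
namespace SokamCel
end SokamCel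
namespace SokamFN
end SokamFN
/-!
# Far waves with `Γ ≥ 10`, IX: the cells
-/

set_option autoImplicit false

namespace SokamCl

open SokamFN SokamCel

/-- three points, `τ ∈ [7/20, 1/2]` -/
theorem cellW : bis (fun x0 x1 _ _ z0 z1 => okW 10995116277 10995116277 x0 x1 z0 z1) 4 0 1 24
    951077558026 1099511627776 0 0 384829069721 549755813888 = true := by decide +kernel

/-- at least four points, `τ ∈ [7/20, 13/20]` -/
theorem cellC : bis (okG 1727109016620 10995116277 10995116277) 2 1 2 24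
    0 1099511627776 0 2308974418330 384829069721 714682558055 = true := by decide +kernel

/-- at least three points, `τ ∈ [0, 2/5]` -/
theorem cellA : bis (okG 2302812022160 43980465111 98956046499) 2 1 2 24
    0 1099511627776 0 2638827906663 0 439804651111 = true := by decide +kernel

end SokamCl

end

/-! ### Lib_MP_af4de1_v3.ClJ -/

section
namespace SokamCel
end SokamCel
namespace SokamCen
end SokamCen
namespace SokamF1
end SokamF1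
namespace SokamF1M
end SokamF1M
namespace SokamF1S
end SokamF1S
namespace SokamFA
end SokamFA
namespace SokamFN
end SokamFN
namespace SokamV3
end SokamV3
/-!
# Far waves with `Γ ≥ 10`, X: the fields `a'` and `c` of `PShfL`
-/

set_option autoImplicit false

namespace SokamCl

open Real SokamFN SokamCel SokamCen SokamFA SokamV3 SokamF1 SokamF1S SokamF1M MeasureTheory Set

/-! ## from the parameters to a point -/

section link

variable {N : ℕ} {r δ η : ℝ}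

/-- `p = ρ/√R` -/
noncomputable def pp (r δ : ℝ) : ℝ := r * δ / √(1 + (r * δ) ^ (2 : ℕ))

theorem pp_sq (r δ : ℝ) : (1 - pp r δ ^ (2 : ℕ)) * (1 + (r * δ) ^ (2 : ℕ)) = 1 := by
  have h0 : 0 < 1 + (r * δ) ^ (2 : ℕ) := by positivity
  have h2 : √(1 + (r * δ) ^ (2 : ℕ)) ^ (2 : ℕ) = 1 + (r * δ) ^ (2 : ℕ) := Real.sq_sqrt h0.le
  unfold pp
  rw [div_pow, h2]
  field_simp
  ring

theorem pp_pos (hr : 0 < r) (hδ : 0 < δ) : 0 < pp r δ := by
  unfold pp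
  positivity

theorem pp_lt (hr : 0 < r) (hδ : 0 < δ) : pp r δ < 1 := by
  have h1 := pp_sq r δ
  have h2 := pp_pos hr hδ
  have h3 : 0 < 1 + (r * δ) ^ (2 : ℕ) := by positivity
  by_contra hc
  push Not at hc
  have h4 : 1 - pp r δ ^ (2 : ℕ) ≤ 0 := by nlinarith only [hc]
  nlinarith only [h1, h4]

theorem pp_sqrt (r δ : ℝ) : √(1 - pp r δ ^ (2 : ℕ)) = 1 / √(1 + (r * δ) ^ (2 : ℕ)) := by
  have h0 : 0 < 1 + (r * δ) ^ (2 : ℕ) := by positivity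
  have h1 : 1 - pp r δ ^ (2 : ℕ) = 1 / (1 + (r * δ) ^ (2 : ℕ)) := by
    rw [eq_div_iff h0.ne']
    exact pp_sq r δ
  rw [h1, Real.sqrt_div zero_le_one, Real.sqrt_one]

theorem hst_pos {N : ℕ} (hN : 0 < N) : 0 < hst N := by
  have : (0 : ℝ) < N := by exact_mod_cast hN
  unfold hst
  positivity

/-- the point -/
theorem pts_of {vt : ℝ} (hN : 0 < N) (hr : 499 / 10 ≤ r) (hδ : 0 < δ) (hη : 0 ≤ η)
    (hπ : η + hst N ≤ π) (hG : 10 ≤ Gm N r δ) (hv : hst N ≤ vt) :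
    PTs vt (pp r δ) ((η + hst N) / mm (r * δ)) (η / hst N) (η + hst N) (2 * π - (η + hst N))
      (r * (η + hst N) ^ (2 : ℕ) / RR r δ) := by
  have hr0 : 0 < r := by linarith only [hr]
  have hh := hst_pos hN
  have hp := Real.pi_pos
  have h0 : 0 < 1 + (r * δ) ^ (2 : ℕ) := by positivity
  have hS : 0 < √(1 + (r * δ) ^ (2 : ℕ)) := Real.sqrt_pos.2 h0
  have hS2 : √(1 + (r * δ) ^ (2 : ℕ)) ^ (2 : ℕ) = 1 + (r * δ) ^ (2 : ℕ) := Real.sq_sqrt h0.le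
  have hm : 0 < mm (r * δ) := by unfold mm; (clear * - hr hδ; positivity)
  have hm2 : mm (r * δ) ^ (2 : ℕ) = 25 / 16 * (1 + (r * δ) ^ (2 : ℕ)) := by
    unfold mm
    rw [mul_pow, hS2]
    ring
  have hτ : 0 ≤ η / hst N := div_nonneg hη hh.le
  have hθ : 0 < η + hst N := by linarith only [hη, hh]
  have e1 : η + hst N = (1 + η / hst N) * hst N := by field_simp; ring
  refine ⟨pp_pos hr0 hδ, pp_lt hr0 hδ, div_pos hθ hm, hθ, rfl, by linarith only [hη, hπ, hh], hπ, ?_, hτ, ?_, ?_, ?_⟩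
  · have h1 := pp_sq r δ
    rw [div_pow, hm2]
    have h2 : 1 - pp r δ ^ (2 : ℕ) = 1 / (1 + (r * δ) ^ (2 : ℕ)) := by
      rw [eq_div_iff h0.ne']
      exact h1
    rw [h2]
    field_simp
  · rw [e1]
    exact mul_le_mul_of_nonneg_left hv (by linarith only [hτ])
  · have h1 : r * (η + hst N) ^ (2 : ℕ) / RR r δ = Gm N r δ * (1 + η / hst N) ^ (2 : ℕ) := by
      unfold Gm
      rw [e1]
      ring
    rw [h1]
    exact mul_le_mul_of_nonneg_right hG (by (clear * - hη hh; positivity))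
  · unfold RR
    rw [div_pow, hm2]
    have h1 : 2495 / 32 * ((η + hst N) ^ (2 : ℕ) / (25 / 16 * (1 + (r * δ) ^ (2 : ℕ)))) =
        499 / 10 * (η + hst N) ^ (2 : ℕ) / (1 + (r * δ) ^ (2 : ℕ)) := by
      field_simp
      ring
    rw [h1]
    gcongr

/-- the geometry -/
theorem geo_of {σ cl A2 : ℝ} (hN : 0 < N) (hr : 499 / 10 ≤ r) (hδ : 0 < δ) (hη : 0 ≤ η)
    (hπ : η + hst N ≤ π) (s0 : 0 ≤ σ) (s1 : σ ≤ 1) (c0 : 0 < cl) (c1 : cl ≤ 1)
    (cT : cl * ((η + hst N) / mm (r * δ)) ≤ 1) (a0 : 0 < A2)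
    (a1 : A2 ≤ (8 / 5 - 16 / 25 * gam (min 1 (4 / 5 * √(1 - pp r δ ^ (2 : ℕ)) *
      (2 * π - (η + hst N)))) * pp r δ) * min 1 (1 / (4 / 5 * √(1 - pp r δ ^ (2 : ℕ)) *
      (2 * π - (η + hst N))))) :
    Geo r δ (η + hst N) ⟨pp r δ, (η + hst N) / mm (r * δ), η + hst N, 2 * π - (η + hst N),
      r * (η + hst N) ^ (2 : ℕ) / RR r δ, σ, cl, A2⟩ := by
  have hh := hst_pos hN
  have hp := Real.pi_pos
  have h0 : 0 < 1 + (r * δ) ^ (2 : ℕ) := by positivity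
  have hS : 0 < √(1 + (r * δ) ^ (2 : ℕ)) := Real.sqrt_pos.2 h0
  have e1 : 4 / 5 * √(1 - pp r δ ^ (2 : ℕ)) * (2 * π - (η + hst N)) =
      (2 * π - (η + hst N)) / mm (r * δ) := by
    rw [pp_sqrt]
    unfold mm
    field_simp
  rw [e1, one_div_div] at a1
  exact ⟨hr, hδ, rfl, by linarith only [hη, hh], hπ, rfl, rfl, rfl, rfl, s0, s1, c0, c1, cT, a0, a1⟩

end link

/-- from a good point to the wave -/
theorem shf_good {N : ℕ} {r δ y η k4 l0 l2 q0 q2 f0 f1 f2 : ℝ} {G3 G4 : Pt → ℝ → ℝ}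
    (hN : 0 < N) (hr : 499 / 10 ≤ r) (hδ : 0 < δ)
    (hA : At r δ y η) (hL : Lev r δ y η (6 / 5) 1 (23 / 20)) (hη : 0 ≤ η) (hπ : η + hst N ≤ π)
    (n3 : ∀ x κ, 0 ≤ G3 x κ) (n4 : ∀ x κ, 0 ≤ G4 x κ)
    (h3 : ∀ x, Geo r δ (η + hst N) x → ∀ κ, 7 / 8 ≤ κ → ∫⁻ s in Ioc 0 x.u,
      ENNReal.ofReal (exp (-(κ * r * Dm (mm (r * δ)) (r * δ) (η + hst N) s))) ≤
      ENNReal.ofReal (G3 x κ / K0 r δ))
    (h4 : ∀ x, Geo r δ (η + hst N) x → k4 ≤ 7 / 8 * (x.V * ((x.u / x.θ) ^ (2 : ℕ) * x.A2 / (2 * x.p))) →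
      ∀ κ, 7 / 8 ≤ κ → ∫⁻ s in Ioi x.u,
      ENNReal.ofReal (exp (-(κ * r * Dm (mm (r * δ)) (r * δ) (η + hst N) s))) ≤
      ENNReal.ofReal (G4 x κ / K0 r δ))
    (hg : Good G3 G4 k4 l0 l2 (pp r δ) ((η + hst N) / mm (r * δ)) (η / hst N) (η + hst N)
      (2 * π - (η + hst N)) (r * (η + hst N) ^ (2 : ℕ) / RR r δ))
    (z0 : 0 ≤ q0) (z2 : 0 ≤ q2) (y0 : l0 ≤ q0 ^ (2 : ℕ)) (y2 : l2 ≤ q2 ^ (2 : ℕ)) (x0 : q0 ^ (2 : ℕ) ≤ f0)
    (x1 : q0 * q2 ≤ f1) (x2 : q2 ^ (2 : ℕ) ≤ f2) :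
    Shf r δ y (hst N) (HH N r δ) f0 f1 f2 := by
  obtain ⟨σ, cl, A2, s0', s1', c0, c1, cT, a0', a1', k2, k4', a0, aW, ae, b0, bW, be, e0, e2⟩ := hg
  have g := geo_of hN hr hδ hη hπ s0' s1' c0 c1 cT a0' a1'
  obtain ⟨x, hx⟩ : ∃ x : Pt, x = ⟨pp r δ, (η + hst N) / mm (r * δ), η + hst N,
    2 * π - (η + hst N), r * (η + hst N) ^ (2 : ℕ) / RR r δ, σ, cl, A2⟩ := ⟨_, rfl⟩
  have xp : pp r δ = x.p := by rw [hx]
  have xV : r * (η + hst N) ^ (2 : ℕ) / RR r δ = x.V := by rw [hx]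
  have xT : (η + hst N) / mm (r * δ) = x.T := by rw [hx]
  have xσ : σ = x.σ := by rw [hx]
  have xu : 2 * π - (η + hst N) = x.u := by rw [hx]
  have xA : A2 = x.A2 := by rw [hx]
  have xθ : η + hst N = x.θ := by rw [hx]
  rw [← hx] at b0 bW be k2 g
  have hh := hst_pos hN
  have hr0 : 0 < r := by linarith only [hr]
  have hR : 0 < RR r δ := by
    unfold RR
    positivity
  have hτ : 0 ≤ η / hst N := div_nonneg hη hh.le
  have eL : 3 / 5 * (η / hst N / (1 + η / hst N)) ^ (2 : ℕ) * (r * (η + hst N) ^ (2 : ℕ) / RR r δ) =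
      3 / 5 * (r * η ^ (2 : ℕ) / RR r δ) := by
    have h1 : 0 < 1 + η / hst N := by linarith only [hτ]
    have h2 : η / hst N / (1 + η / hst N) = η / (η + hst N) := by
      have h3 : 0 < η + hst N := by linarith only [hη, hh]
      field_simp
      ring
    rw [h2]
    have h3 : 0 < η + hst N := by linarith only [hη, hh]
    field_simp
  have eG : r * (η + hst N) ^ (2 : ℕ) / RR r δ / (1 + η / hst N) ^ (2 : ℕ) = Gm N r δ := by
    have e1 : η + hst N = (1 + η / hst N) * hst N := by field_simp; ring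
    have h1 : 0 < 1 + η / hst N := by linarith only [hτ]
    unfold Gm
    rw [div_div, div_eq_div_iff (by (clear * - hR hη hh; positivity)) hR.ne']
    nth_rewrite 1 [e1]
    ring
  rw [eL] at b0 bW be
  rw [eG] at bW be
  have hG : 0 < Gm N r δ := by
    unfold Gm
    (clear * - hr hh hR; positivity)
  have hΛ := exp_pos (3 / 5 * (r * η ^ (2 : ℕ) / RR r δ))
  have hae : 0 ≤ ae := by
    have h1 : 0 ≤ se x (G3 x) (G4 x) := by
      unfold se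
      have := g1_nonneg x 1
      have := g2_nonneg x 1
      have := mul_nonneg (exp_pos (1 : ℝ)).le (add_nonneg (n3 x 1) (n4 x 1))
      linarith
    have h2 : 0 ≤ ae * Gm N r δ := le_trans (mul_nonneg hΛ.le h1) be
    exact nonneg_of_mul_nonneg_left h2 hG
  have hs : 0 ≤ √aW + η / hst N * √a0 := by (clear * - hη hh; positivity)
  have hs2 : √aW + η / hst N * √a0 ≤ q2 := by
    refine le_of_sq_le_sq ?_ z2
    linarith only [y2, e2, hae]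
  have ha0 : √a0 ≤ q0 := by
    rw [Real.sqrt_le_left z0]
    exact e0.trans y0
  refine shf_num hN hA hL hη g ?_ (n3 x) (n4 x) (h3 x g) (h4 x g ?_) b0 bW be
    (e0.trans (y0.trans x0)) ?_ ((e2.trans y2).trans x2)
  · rw [← xV, ← xT, ← xσ, ← xp]
    exact k2
  · rw [← xV, ← xu, ← xA, ← xp, ← xθ]
    exact k4'
  · exact (mul_le_mul ha0 hs2 hs z0).trans x1

/-! ## the fields -/

theorem hst3 : hst 3 = 2 * π / 3 := by
  unfold hst
  norm_num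

theorem hst_le {N M : ℕ} (hM : 0 < M) (h : M ≤ N) : hst N ≤ hst M := by
  unfold hst
  have h1 : (M : ℝ) ≤ N := by exact_mod_cast h
  have h2 : (0 : ℝ) < M := by exact_mod_cast hM
  have := Real.pi_pos
  gcongr

theorem T_le {r δ θ : ℝ} (h : 0 ≤ θ) : θ / mm (r * δ) ≤ 4 / 5 * θ := by
  have h0 : 1 ≤ √(1 + (r * δ) ^ (2 : ℕ)) := Real.one_le_sqrt.2 (by nlinarith [sq_nonneg (r * δ)])
  unfold mm
  rw [div_le_iff₀ (by positivity)]
  nlinarith only [h, h0]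

/-- field `a'` of `PShfL` -/
theorem shfL_a' : ∀ (N : ℕ) (r δ y η : ℝ), Reg1 N r δ → At r δ y η → Sad1 N r δ y →
    10 ≤ Gm N r δ → 0 ≤ η → η ≤ ei1 N r δ → η + hst N ≤ Real.pi →
    Shf r δ y (hst N) (HH N r δ) (3 / 50) (3 / 50) 1 := by
  intro N r δ y η hR hA hS hG h0 h1 hπ
  have hN : 0 < N := by have := hR.N3; omega
  have hh := hst_pos hN
  have hpi := Real.pi_pos
  have hpl := Real.pi_gt_d6
  have hpu := Real.pi_lt_d6
  have h3 : hst N ≤ 2 * π / 3 := by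
    rw [← hst3]
    exact hst_le (by norm_num) hR.N3
  have hom : om1 N r δ = 3 / 20 ∨ om1 N r δ = 1 / 10 := by
    unfold om1
    rw [if_neg (by linarith only [hG])]
    split_ifs
    · exact Or.inl rfl
    · exact Or.inr rfl
  have hτ : η / hst N ≤ 2 / 5 := by
    rw [div_le_iff₀ hh]
    unfold ei1 at h1
    rcases hom with h | h <;> rw [h] at h1 <;> nlinarith
  have he : η ≤ eo1 N r δ := by
    unfold ei1 at h1
    unfold eo1
    rcases hom with h | h <;> rw [h] at h1 ⊢ <;> nlinarith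
  have hL := levL hR hA hS h0 he
  have hP := pts_of hN hR.r0 hR.d0 h0 hπ hG (vt := fx 2302812022160) (by
    have : (3.141593 : ℝ) * 2 / 3 ≤ fx 2302812022160 := by unfold fx; norm_num
    linarith only [hpu, h3, this])
  have hτ0 : 0 ≤ η / hst N := div_nonneg h0 hh.le
  have hr0 : 0 < r := by linarith only [hR.r0]
  have hg : Good g3 g4 (16 / 5) (fx 43980465111) (fx 98956046499) (pp r δ)
      ((η + hst N) / mm (r * δ)) (η / hst N) (η + hst N)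
      (2 * π - (η + hst N)) (r * (η + hst N) ^ (2 : ℕ) / RR r δ) := by
    refine bis_sound (P := fun p T τ => ∀ θ u V : ℝ, PTs (fx 2302812022160) p T τ θ u V →
      Good g3 g4 (16 / 5) (fx 43980465111) (fx 98956046499) p T τ θ u V)
      (fun x0 x1 y0 y1 z0 z1 hok x y z b0 b1 b2 b3 b4 b5 θ u V hP =>
        okG_sound hok b0 b1 b2 b3 b4 b5 hP) 2 1 2 24 _ _ _ _ _ _ cellA _ _ _ ?_ ?_ ?_ ?_ ?_ ?_
      _ _ _ hP
    · rw [fx_zero]
      exact (pp_pos hr0 hR.d0).le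
    · have := fx_one
      unfold SC at this
      rw [this]
      exact (pp_lt hr0 hR.d0).le
    · rw [fx_zero]
      exact hP.hT.le
    · refine (T_le (by linarith only [h0, hh])).trans ?_
      have h5 : (12 / 5 : ℝ) ≤ fx 2638827906663 := by unfold fx; norm_num
      have h6 : η ≤ 2 / 5 * hst N := by rwa [div_le_iff₀ hh] at hτ
      linarith only [hpu, h3, h5, h6]
    · rw [fx_zero]
      exact hτ0
    · have h5 : (2 / 5 : ℝ) ≤ fx 439804651111 := by unfold fx; norm_num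
      linarith only [hτ, h5]
  refine shf_good (q0 := 1 / 5) (q2 := 3 / 10) hN hR.r0 hR.d0 hA hL h0 hπ g3_nonneg g4_nonneg
    (fun x g κ hκ => g.G3 (by linarith only [hκ])) (fun x g hx κ hκ => g.G4 hκ hx) hg (by norm_num)
    (by norm_num) ?_ ?_ (by norm_num) (by norm_num) (by norm_num)
  · unfold fx
    norm_num
  · unfold fx
    norm_num

/-- field `c`, at least four points -/
theorem shfL_c4 {N : ℕ} {r δ y η : ℝ} (hR : Reg1 N r δ) (hA : At r δ y η) (hS : Sad1 N r δ y)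
    (hG : 10 ≤ Gm N r δ) (h1 : ei1 N r δ ≤ η) (h2 : η ≤ eo1 N r δ) (hπ : η + hst N ≤ π)
    (hN4 : 4 ≤ N) : Shf r δ y (hst N) (HH N r δ) (1 / 100) (1 / 100) (1 / 100) := by
  have hN : 0 < N := by omega
  have hh := hst_pos hN
  have hpi := Real.pi_pos
  have hpl := Real.pi_gt_d6
  have hpu := Real.pi_lt_d6
  have h3 : hst N ≤ π / 2 := by
    have h4 : hst 4 = π / 2 := by
      unfold hst
      push_cast
      ring
    rw [← h4]
    exact hst_le (by norm_num) hN4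
  have hom : om1 N r δ = 3 / 20 ∨ om1 N r δ = 1 / 10 := by
    unfold om1
    rw [if_neg (by linarith only [hG])]
    split_ifs
    · exact Or.inl rfl
    · exact Or.inr rfl
  have hτ : 7 / 20 ≤ η / hst N := by
    rw [le_div_iff₀ hh]
    unfold ei1 at h1
    rcases hom with h | h <;> rw [h] at h1 <;> nlinarith
  have hτ' : η / hst N ≤ 13 / 20 := by
    rw [div_le_iff₀ hh]
    unfold eo1 at h2
    rcases hom with h | h <;> rw [h] at h2 <;> nlinarith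
  have h0 : 0 ≤ η := by
    rw [le_div_iff₀ hh] at hτ
    linarith only [hh, hτ]
  have hL := levL hR hA hS h0 h2
  have hP := pts_of hN hR.r0 hR.d0 h0 hπ hG (vt := fx 1727109016620) (by
    have : (3.141593 : ℝ) / 2 ≤ fx 1727109016620 := by unfold fx; norm_num
    linarith only [hpu, h3, this])
  have hr0 : 0 < r := by linarith only [hR.r0]
  have hg : Good g3 g4 (16 / 5) (fx 10995116277) (fx 10995116277) (pp r δ)
      ((η + hst N) / mm (r * δ)) (η / hst N) (η + hst N)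
      (2 * π - (η + hst N)) (r * (η + hst N) ^ (2 : ℕ) / RR r δ) := by
    refine bis_sound (P := fun p T τ => ∀ θ u V : ℝ, PTs (fx 1727109016620) p T τ θ u V →
      Good g3 g4 (16 / 5) (fx 10995116277) (fx 10995116277) p T τ θ u V)
      (fun x0 x1 y0 y1 z0 z1 hok x y z b0 b1 b2 b3 b4 b5 θ u V hP =>
        okG_sound hok b0 b1 b2 b3 b4 b5 hP) 2 1 2 24 _ _ _ _ _ _ cellC _ _ _ ?_ ?_ ?_ ?_ ?_ ?_
      _ _ _ hP
    · rw [fx_zero]
      exact (pp_pos hr0 hR.d0).le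
    · have := fx_one
      unfold SC at this
      rw [this]
      exact (pp_lt hr0 hR.d0).le
    · rw [fx_zero]
      exact hP.hT.le
    · refine (T_le (by linarith only [hh, h0])).trans ?_
      have h5 : (21 / 10 : ℝ) ≤ fx 2308974418330 := by unfold fx; norm_num
      have h6 : η ≤ 13 / 20 * hst N := by rwa [div_le_iff₀ hh] at hτ'
      linarith only [hpu, h3, h5, h6]
    · have h5 : fx 384829069721 ≤ (7 / 20 : ℝ) := by unfold fx; norm_num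
      linarith only [hτ, h5]
    · have h5 : (13 / 20 : ℝ) ≤ fx 714682558055 := by unfold fx; norm_num
      linarith only [hτ', h5]
  refine shf_good (q0 := 1 / 10) (q2 := 1 / 10) hN hR.r0 hR.d0 hA hL h0 hπ g3_nonneg g4_nonneg
    (fun x g κ hκ => g.G3 (by linarith only [hκ])) (fun x g hx κ hκ => g.G4 hκ hx) hg (by norm_num)
    (by norm_num) ?_ ?_ (by norm_num) (by norm_num) (by norm_num)
  · unfold fx
    norm_num
  · unfold fx
    norm_num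

/-- field `c`, three points -/
theorem shfL_c3 {r δ y η : ℝ} (hR : Reg1 3 r δ) (hA : At r δ y η) (hS : Sad1 3 r δ y)
    (hG : 10 ≤ Gm 3 r δ) (h1 : ei1 3 r δ ≤ η) (h2 : η ≤ eo1 3 r δ) (hπ : η + hst 3 ≤ π) :
    Shf r δ y (hst 3) (HH 3 r δ) (1 / 100) (1 / 100) (1 / 100) := by
  have hN : 0 < 3 := by norm_num
  have hh := hst_pos hN
  have hpi := Real.pi_pos
  have hpl := Real.pi_gt_d6
  have hpu := Real.pi_lt_d6
  have hh3 := hst3
  have hom : om1 3 r δ = 3 / 20 ∨ om1 3 r δ = 1 / 10 := by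
    unfold om1
    rw [if_neg (by linarith only [hG])]
    split_ifs
    · exact Or.inl rfl
    · exact Or.inr rfl
  have hτ : 7 / 20 ≤ η / hst 3 := by
    rw [le_div_iff₀ hh]
    unfold ei1 at h1
    rcases hom with h | h <;> rw [h] at h1 <;> nlinarith
  have hτ' : η / hst 3 ≤ 1 / 2 := by
    rw [div_le_iff₀ hh]
    rw [hh3] at hπ ⊢
    linarith only [hπ]
  have h0 : 0 ≤ η := by
    rw [le_div_iff₀ hh] at hτ
    linarith only [hpl, hh3, hτ]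
  have hη : 7 / 20 * (2 * π / 3) ≤ η := by
    rw [le_div_iff₀ hh, hh3] at hτ
    exact hτ
  have hL := levL hR hA hS h0 h2
  have hP := pts_of hN hR.r0 hR.d0 h0 hπ hG (vt := 2 * π / 3) hh3.le
  have hr0 : 0 < r := by linarith only [hR.r0]
  -- `p ≥ 173/200`
  have hp0 := pp_pos hr0 hR.d0
  have hp : 173 / 200 ≤ pp r δ := by
    have h4 := pp_sq r δ
    have h5 := hR.I
    unfold RR at h5
    rw [hh3] at h5
    have h6 : (0 : ℝ) < 1 + (r * δ) ^ (2 : ℕ) := by (clear * -; positivity)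
    have h7 : 3.987 ≤ 1 + (r * δ) ^ (2 : ℕ) := by nlinarith only [hpl, h5]
    by_contra hc
    push Not at hc
    have h8 : pp r δ ^ (2 : ℕ) < (173 / 200) ^ (2 : ℕ) := by
      have := pow_lt_pow_left₀ hc hp0.le (two_ne_zero)
      exact this
    have h9 : 1 - (173 / 200 : ℝ) ^ (2 : ℕ) < 1 - pp r δ ^ (2 : ℕ) := by linarith only [h8]
    nlinarith only [h4, h7, h9]
  have hg : Good g3h g4h (32 / 5) (fx 10995116277) (fx 10995116277) (pp r δ)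
      ((η + hst 3) / mm (r * δ)) (η / hst 3) (η + hst 3)
      (2 * π - (η + hst 3)) (r * (η + hst 3) ^ (2 : ℕ) / RR r δ) := by
    refine bis_sound (P := fun p _ τ => ∀ T θ u V : ℝ, PTs (2 * π / 3) p T τ θ u V →
      θ = (1 + τ) * (2 * π / 3) →
      Good g3h g4h (32 / 5) (fx 10995116277) (fx 10995116277) p T τ θ u V)
      (fun x0 x1 y0 y1 z0 z1 hok x y z b0 b1 b2 b3 b4 b5 T θ u V hP hθ =>
        okW_sound hok b0 b1 b4 b5 hP hθ) 4 0 1 24 _ _ _ _ _ _ cellW _ 0 _ ?_ ?_ ?_ ?_ ?_ ?_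
      _ _ _ _ hP ?_
    · have h5 : fx 951077558026 ≤ (173 / 200 : ℝ) := by unfold fx; norm_num
      linarith only [hp, h5]
    · have := fx_one
      unfold SC at this
      rw [this]
      exact (pp_lt hr0 hR.d0).le
    · rw [fx_zero]
    · rw [fx_zero]
    · have h5 : fx 384829069721 ≤ (7 / 20 : ℝ) := by unfold fx; norm_num
      linarith only [hτ, h5]
    · have h5 : (1 / 2 : ℝ) ≤ fx 549755813888 := by unfold fx; norm_num
      linarith only [hτ', h5]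
    · have h3 : 0 < 2 * π / 3 := by (clear * -; positivity)
      rw [hh3]
      field_simp
      ring
  refine shf_good (q0 := 1 / 10) (q2 := 1 / 10) hN hR.r0 hR.d0 hA hL h0 hπ g3h_nonneg g4h_nonneg
    (fun x g κ hκ => g.G3h (by linarith only [hκ]) ?_) (fun x g hx κ hκ => g.G4h hκ ?_ hx) hg (by norm_num)
    (by norm_num) ?_ ?_ (by norm_num) (by norm_num) (by norm_num)
  · rw [hh3]
    linarith only [hpl, hη]
  · rw [hh3]
    linarith only [hη]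
  · unfold fx
    norm_num
  · unfold fx
    norm_num

/-- field `c` of `PShfL` -/
theorem shfL_c : ∀ (N : ℕ) (r δ y η : ℝ), Reg1 N r δ → At r δ y η → Sad1 N r δ y →
    10 ≤ Gm N r δ → ei1 N r δ ≤ η → η ≤ eo1 N r δ → η + hst N ≤ Real.pi →
    Shf r δ y (hst N) (HH N r δ) (1 / 100) (1 / 100) (1 / 100) := by
  intro N r δ y η hR hA hS hG h1 h2 hπ
  have h3 := hR.N3
  rcases Nat.lt_or_ge N 4 with h | h
  · obtain rfl : N = 3 := by omega
    exact shfL_c3 hR hA hS hG h1 h2 hπ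
  · exact shfL_c4 hR hA hS hG h1 h2 hπ h

end SokamCl

end
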