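import Pool.Agent.Lib_MP_af4de1_zy.Z63
import Pool.Agent.Lib_MP_af4de1_zy.Z158

/-! ### Lib_MP_af4de1_v3.T2EvC -/

section
/-!
# `N = 2`, `Γ < 10`: the one-variable inequalities of the two first lumps (generated)
-/

set_option autoImplicit false

namespace SokamV3

theorem ev_c1 {ρ : ℝ} (h : 19 / 2 ≤ ρ) :
    23717 / 10000 ≤
      (54712 / 100000 * (ρ + 1 / ρ)) * ((ρ + 3105 / 1000)⁻¹ * (194166 / 10000 + 424429 / 10000 * (ρ + 3105 / 1000)⁻¹ -
        4791 / 50 * (ρ + 3105 / 1000)⁻¹ ^ (2 : ℕ)) - 628319 / 100000 *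
        (2105 / 1000 / ρ - (2105 / 1000 / ρ) ^ (2 : ℕ) / 2 + (2105 / 1000 / ρ) ^ (3 : ℕ) / 3)) -
        137 / 50 * (ρ + 3105 / 1000)⁻¹ := by
  obtain ⟨u, rfl⟩ : ∃ u, ρ = 19 / 2 + u := ⟨ρ - 19 / 2, by ring⟩
  have hu : 0 ≤ u := by linarith
  rw [← sub_nonneg]
  have e : ((54712 / 100000 * ((19 / 2 + u) + 1 / (19 / 2 + u))) * (((19 / 2 + u) + 3105 / 1000)⁻¹ * (194166 / 10000 + 424429 / 10000 * ((19 / 2 + u) + 3105 / 1000)⁻¹ -
        4791 / 50 * ((19 / 2 + u) + 3105 / 1000)⁻¹ ^ (2 : ℕ)) - 628319 / 100000 *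
        (2105 / 1000 / (19 / 2 + u) - (2105 / 1000 / (19 / 2 + u)) ^ (2 : ℕ) / 2 + (2105 / 1000 / (19 / 2 + u)) ^ (3 : ℕ) / 3)) -
        137 / 50 * ((19 / 2 + u) + 3105 / 1000)⁻¹) -
      23717 / 10000 =
      (
      102754595819252192973575731997 / 192000000000000000000000 +
      138013031070365365993990079579 / 60000000000000000000000 * u +
      283137956361714893472262294889 / 240000000000000000000000 * u ^ (2 : ℕ) +
      630994821811924264199937377 / 2400000000000000000000 * u ^ (3 : ℕ) + 375622164870954997283537 /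
      12000000000000000000 * u ^ (4 : ℕ) + 124525118407653548089 / 60000000000000000 * u ^ (5 : ℕ) +
      1441655015054759 / 20000000000000 * u ^ (6 : ℕ) + 253809545139 / 250000000000 * u ^ (7 : ℕ)) /
      (((19 / 2 + u) + 3105 / 1000) ^ (3 : ℕ) * (19 / 2 + u) ^ (4 : ℕ)) := by
    field_simp
    ring
  rw [e]
  positivity

theorem ev_c2 {ρ : ℝ} (h : 8 ≤ ρ) (h2 : ρ ≤ 19 / 2) :
    23717 / 10000 ≤
      (499 / 10 / ρ) * ((ρ + 3105 / 1000)⁻¹ * (194166 / 10000 + 424429 / 10000 * (ρ + 3105 / 1000)⁻¹ -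
        4791 / 50 * (ρ + 3105 / 1000)⁻¹ ^ (2 : ℕ)) - 628319 / 100000 *
        (2105 / 1000 / ρ - (2105 / 1000 / ρ) ^ (2 : ℕ) / 2 + (2105 / 1000 / ρ) ^ (3 : ℕ) / 3)) -
        137 / 50 * (ρ + 3105 / 1000)⁻¹ := by
  have p : 0 ≤ ρ - 8 := by linarith
  have q : 0 ≤ 19 / 2 - ρ := by linarith
  have hv : 0 < ρ := by linarith
  rw [← sub_nonneg]
  have e : ((499 / 10 / ρ) * ((ρ + 3105 / 1000)⁻¹ * (194166 / 10000 + 424429 / 10000 * (ρ + 3105 / 1000)⁻¹ -
        4791 / 50 * (ρ + 3105 / 1000)⁻¹ ^ (2 : ℕ)) - 628319 / 100000 *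
        (2105 / 1000 / ρ - (2105 / 1000 / ρ) ^ (2 : ℕ) / 2 + (2105 / 1000 / ρ) ^ (3 : ℕ) / 3)) -
        137 / 50 * (ρ + 3105 / 1000)⁻¹) -
      23717 / 10000 =
      (
      866280709106000399962123699 / 3280500000000000000000 * (19 / 2 - ρ) ^ (7 : ℕ) +
      6067406281374699649674659443 / 3280500000000000000000 * (ρ - 8) * (19 / 2 - ρ) ^ (6 : ℕ) +
      5913905700593827228709707993 / 1093500000000000000000 * (ρ - 8) ^ (2 : ℕ) * (19 / 2 - ρ) ^ (5 : ℕ) +
      5555362591398769773482311543 / 656100000000000000000 * (ρ - 8) ^ (3 : ℕ) * (19 / 2 - ρ) ^ (4 : ℕ) +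
      4933018525802790748574770093 / 656100000000000000000 * (ρ - 8) ^ (4 : ℕ) * (19 / 2 - ρ) ^ (3 : ℕ) +
      3975437351823539351509383643 / 1093500000000000000000 * (ρ - 8) ^ (5 : ℕ) * (19 / 2 - ρ) ^ (2 : ℕ) +
      2596140492204068517748452193 / 3280500000000000000000 * (ρ - 8) ^ (6 : ℕ) * (19 / 2 - ρ) +
      98691857904487775099182249 / 3280500000000000000000 * (ρ - 8) ^ (7 : ℕ)) /
      ((ρ + 3105 / 1000) ^ (3 : ℕ) * ρ ^ (4 : ℕ)) := by
    field_simp
    ring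
  rw [e]
  positivity

theorem ev_d1 {ρ : ℝ} (h : 347 / 50 ≤ ρ) :
    25722 / 10000 ≤
      (86122 / 100000 * (ρ + 1 / ρ)) * ((ρ + 3105 / 1000)⁻¹ * (194166 / 10000 + 424429 / 10000 * (ρ + 3105 / 1000)⁻¹ -
        10551 / 100 * (ρ + 3105 / 1000)⁻¹ ^ (2 : ℕ)) - 628319 / 100000 *
        (2105 / 1000 / ρ - (2105 / 1000 / ρ) ^ (2 : ℕ) / 2 + (2105 / 1000 / ρ) ^ (3 : ℕ) / 3)) -
        137 / 50 * (ρ + 3105 / 1000)⁻¹ := by
  obtain ⟨u, rfl⟩ : ∃ u, ρ = 347 / 50 + u := ⟨ρ - 347 / 50, by ring⟩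
  have hu : 0 ≤ u := by linarith
  rw [← sub_nonneg]
  have e : ((86122 / 100000 * ((347 / 50 + u) + 1 / (347 / 50 + u))) * (((347 / 50 + u) + 3105 / 1000)⁻¹ * (194166 / 10000 + 424429 / 10000 * ((347 / 50 + u) + 3105 / 1000)⁻¹ -
        10551 / 100 * ((347 / 50 + u) + 3105 / 1000)⁻¹ ^ (2 : ℕ)) - 628319 / 100000 *
        (2105 / 1000 / (347 / 50 + u) - (2105 / 1000 / (347 / 50 + u)) ^ (2 : ℕ) / 2 + (2105 / 1000 / (347 / 50 + u)) ^ (3 : ℕ) / 3)) -
        137 / 50 * ((347 / 50 + u) + 3105 / 1000)⁻¹) -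
      25722 / 10000 =
      (
      3717545078059540612202009381184371 / 2400000000000000000000000000 +
      2578809897789818513258824773253 / 1200000000000000000000000 * u +
      1048587911680604658630186933547 / 960000000000000000000000 * u ^ (2 : ℕ) +
      2717391064139878534901054099 / 9600000000000000000000 * u ^ (3 : ℕ) + 1990541795196896012698723
      / 48000000000000000000 * u ^ (4 : ℕ) + 166523979846968421023 / 48000000000000000 * u ^ (5 : ℕ) +
      61448678596168857 / 400000000000000 * u ^ (6 : ℕ) + 2759169534761 / 1000000000000 * u ^ (7 : ℕ)) /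
      (((347 / 50 + u) + 3105 / 1000) ^ (3 : ℕ) * (347 / 50 + u) ^ (4 : ℕ)) := by
    field_simp
    ring
  rw [e]
  positivity

theorem ev_cp1 {x : ℝ} (h : 1087 / 200 ≤ x) (h2 : x ≤ 48 / 5) :
    23944 / 10000 ≤
      (522 / 100) * ((1 + x)⁻¹ * (194166 / 10000 - 124127 / 10000 * (1 + x)⁻¹ -
        233 / 4 * (1 + x)⁻¹ ^ (2 : ℕ) - 11845 / 1000 * (1 + x)⁻¹ ^ (3 : ℕ)) - 628319 / 100000 *
        (2105 / 1000 / x - (2105 / 1000 / x) ^ (2 : ℕ) / 2 + (2105 / 1000 / x) ^ (3 : ℕ) / 3)) +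
        137 / 50 * (1 + x)⁻¹ := by
  have p : 0 ≤ x - 1087 / 200 := by linarith
  have q : 0 ≤ 48 / 5 - x := by linarith
  have hv : 0 < x := by linarith
  rw [← sub_nonneg]
  have e : ((522 / 100) * ((1 + x)⁻¹ * (194166 / 10000 - 124127 / 10000 * (1 + x)⁻¹ -
        233 / 4 * (1 + x)⁻¹ ^ (2 : ℕ) - 11845 / 1000 * (1 + x)⁻¹ ^ (3 : ℕ)) - 628319 / 100000 *
        (2105 / 1000 / x - (2105 / 1000 / x) ^ (2 : ℕ) / 2 + (2105 / 1000 / x) ^ (3 : ℕ) / 3)) +
        137 / 50 * (1 + x)⁻¹) -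
      23944 / 10000 =
      (
      1141081693347370391565333921 / 556602311421681978754000000 * (48 / 5 - x) ^ (7 : ℕ) +
      8089444611911030060784623409 / 198786539793457849555000000 * (x - 1087 / 200) * (48 / 5 -
      x) ^ (6 : ℕ) + 20405264703719544110993987349 / 79514615917383139822000000 * (x - 1087 / 200) ^
      2 * (48 / 5 - x) ^ (5 : ℕ) + 154001091469878814404117928061 / 198786539793457849555000000 * (x
      - 1087 / 200) ^ (3 : ℕ) * (48 / 5 - x) ^ (4 : ℕ) + 1554207615705160748603120709 /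
      1242415873709111559718750 * (x - 1087 / 200) ^ (4 : ℕ) * (48 / 5 - x) ^ (3 : ℕ) +
      132625312039103978792156526 / 124241587370911155971875 * (x - 1087 / 200) ^ (5 : ℕ) * (48 / 5 -
      x) ^ (2 : ℕ) + 10234005804203706567658368 / 24848317474182231194375 * (x - 1087 / 200) ^ (6 : ℕ) *
      (48 / 5 - x) + 1259815558174609802359488 / 34787644463855123672125 * (x - 1087 / 200) ^ (7 : ℕ)) /
      ((1 + x) ^ (4 : ℕ) * x ^ (3 : ℕ)) := by
    field_simp
    ring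
  rw [e]
  positivity

theorem ev_cp2 {x : ℝ} (h : 19 / 2 ≤ x) :
    23944 / 10000 ≤
      (54712 / 100000 * x) * ((1 + x)⁻¹ * (194166 / 10000 - 124127 / 10000 * (1 + x)⁻¹ -
        233 / 4 * (1 + x)⁻¹ ^ (2 : ℕ) - 11845 / 1000 * (1 + x)⁻¹ ^ (3 : ℕ)) - 628319 / 100000 *
        (2105 / 1000 / x - (2105 / 1000 / x) ^ (2 : ℕ) / 2 + (2105 / 1000 / x) ^ (3 : ℕ) / 3)) +
        137 / 50 * (1 + x)⁻¹ := by
  obtain ⟨u, rfl⟩ : ∃ u, x = 19 / 2 + u := ⟨x - 19 / 2, by ring⟩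
  have hu : 0 ≤ u := by linarith
  rw [← sub_nonneg]
  have e : ((54712 / 100000 * (19 / 2 + u)) * ((1 + (19 / 2 + u))⁻¹ * (194166 / 10000 - 124127 / 10000 * (1 + (19 / 2 + u))⁻¹ -
        233 / 4 * (1 + (19 / 2 + u))⁻¹ ^ (2 : ℕ) - 11845 / 1000 * (1 + (19 / 2 + u))⁻¹ ^ (3 : ℕ)) - 628319 / 100000 *
        (2105 / 1000 / (19 / 2 + u) - (2105 / 1000 / (19 / 2 + u)) ^ (2 : ℕ) / 2 + (2105 / 1000 / (19 / 2 + u)) ^ (3 : ℕ) / 3)) +
        137 / 50 * (1 + (19 / 2 + u))⁻¹) -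
      23944 / 10000 =
      (
      244256831476694191369837 / 320000000000000000 + 269346292342807819083161 /
      160000000000000000 * u + 16579627414552291238961 / 20000000000000000 * u ^ (2 : ℕ) +
      3769265481068294918693 / 20000000000000000 * u ^ (3 : ℕ) + 1408903326790899238247 /
      60000000000000000 * u ^ (4 : ℕ) + 49851460204932805799 / 30000000000000000 * u ^ (5 : ℕ) +
      6291567140524281 / 100000000000000 * u ^ (6 : ℕ) + 248134545139 / 250000000000 * u ^ (7 : ℕ)) /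
      ((1 + (19 / 2 + u)) ^ (4 : ℕ) * (19 / 2 + u) ^ (3 : ℕ)) := by
    field_simp
    ring
  rw [e]
  positivity

theorem ev_dp1 {x : ℝ} (h : 967 / 200 ≤ x) (h2 : x ≤ 6) :
    2578 / 1000 ≤
      (499 / 10 / (x + 2105 / 1000)) * ((1 + x)⁻¹ * (194166 / 10000 - 124127 / 10000 * (1 + x)⁻¹ -
        259 / 4 * (1 + x)⁻¹ ^ (2 : ℕ) - 11845 / 1000 * (1 + x)⁻¹ ^ (3 : ℕ)) - 628319 / 100000 *
        (2105 / 1000 / x - (2105 / 1000 / x) ^ (2 : ℕ) / 2 + (2105 / 1000 / x) ^ (3 : ℕ) / 3)) +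
        137 / 50 * (1 + x)⁻¹ := by
  have p : 0 ≤ x - 967 / 200 := by linarith
  have q : 0 ≤ 6 - x := by linarith
  have hv : 0 < x := by linarith
  rw [← sub_nonneg]
  have e : ((499 / 10 / (x + 2105 / 1000)) * ((1 + x)⁻¹ * (194166 / 10000 - 124127 / 10000 * (1 + x)⁻¹ -
        259 / 4 * (1 + x)⁻¹ ^ (2 : ℕ) - 11845 / 1000 * (1 + x)⁻¹ ^ (3 : ℕ)) - 628319 / 100000 *
        (2105 / 1000 / x - (2105 / 1000 / x) ^ (2 : ℕ) / 2 + (2105 / 1000 / x) ^ (3 : ℕ) / 3)) +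
        137 / 50 * (1 + x)⁻¹) -
      2578 / 1000 =
      (
      696400811143945596642318383 / 17373101776213322882000 * (6 - x) ^ (8 : ℕ) +
      53139974598612501575959548129 / 86865508881066614410000 * (x - 967 / 200) * (6 - x) ^ (7 : ℕ) +
      290286869151056004452186895859 / 86865508881066614410000 * (x - 967 / 200) ^ (2 : ℕ) * (6 - x)
      ^ (6 : ℕ) + 821333566384864156037466463451 / 86865508881066614410000 * (x - 967 / 200) ^ (3 : ℕ) * (6
      - x) ^ (5 : ℕ) + 2049550734661626660528060777439 / 130298263321599921615000 * (x - 967 / 200) ^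
      4 * (6 - x) ^ (4 : ℕ) + 10441422164201302939083365876 / 651491316607999608075 * (x - 967 / 200)
      ^ (5 : ℕ) * (6 - x) ^ (3 : ℕ) + 85572403462471424259945584 / 8686550888106661441 * (x - 967 / 200) ^
      6 * (6 - x) ^ (2 : ℕ) + 87380705455533691012505600 / 26059652664319984323 * (x - 967 / 200) ^ (7 : ℕ)
      * (6 - x) + 12621567855071912626880000 / 26059652664319984323 * (x - 967 / 200) ^ (8 : ℕ)) /
      ((x + 2105 / 1000) * (1 + x) ^ (4 : ℕ) * x ^ (3 : ℕ)) := by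
    field_simp
    ring
  rw [e]
  positivity

theorem ev_dp2 {x : ℝ} (h : 11 / 2 ≤ x) (h2 : x ≤ 9) :
    2578 / 1000 ≤
      (655 / 100) * ((1 + x)⁻¹ * (194166 / 10000 - 124127 / 10000 * (1 + x)⁻¹ -
        259 / 4 * (1 + x)⁻¹ ^ (2 : ℕ) - 11845 / 1000 * (1 + x)⁻¹ ^ (3 : ℕ)) - 628319 / 100000 *
        (2105 / 1000 / x - (2105 / 1000 / x) ^ (2 : ℕ) / 2 + (2105 / 1000 / x) ^ (3 : ℕ) / 3)) +
        137 / 50 * (1 + x)⁻¹ := by
  have p : 0 ≤ x - 11 / 2 := by linarith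
  have q : 0 ≤ 9 - x := by linarith
  have hv : 0 < x := by linarith
  rw [← sub_nonneg]
  have e : ((655 / 100) * ((1 + x)⁻¹ * (194166 / 10000 - 124127 / 10000 * (1 + x)⁻¹ -
        259 / 4 * (1 + x)⁻¹ ^ (2 : ℕ) - 11845 / 1000 * (1 + x)⁻¹ ^ (3 : ℕ)) - 628319 / 100000 *
        (2105 / 1000 / x - (2105 / 1000 / x) ^ (2 : ℕ) / 2 + (2105 / 1000 / x) ^ (3 : ℕ) / 3)) +
        137 / 50 * (1 + x)⁻¹) -
      2578 / 1000 =
      (
      89268549577462776881 / 4941258000000000000 * (9 - x) ^ (7 : ℕ) + 191703986637235906579 /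
      705894000000000000 * (x - 11 / 2) * (9 - x) ^ (6 : ℕ) + 357148054947152632763 /
      235298000000000000 * (x - 11 / 2) ^ (2 : ℕ) * (9 - x) ^ (5 : ℕ) + 1018326378553933105191 /
      235298000000000000 * (x - 11 / 2) ^ (3 : ℕ) * (9 - x) ^ (4 : ℕ) + 2917481994262167051 /
      420175000000000 * (x - 11 / 2) ^ (4 : ℕ) * (9 - x) ^ (3 : ℕ) + 1854761595434407517 / 294122500000000
      * (x - 11 / 2) ^ (5 : ℕ) * (9 - x) ^ (2 : ℕ) + 32953600313959267 / 11029593750000 * (x - 11 / 2) ^ (6 : ℕ)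
      * (9 - x) + 17266647963307571 / 30882862500000 * (x - 11 / 2) ^ (7 : ℕ)) /
      ((1 + x) ^ (4 : ℕ) * x ^ (3 : ℕ)) := by
    field_simp
    ring
  rw [e]
  positivity

theorem ev_dp3 {x : ℝ} (h : 15 / 2 ≤ x) :
    2578 / 1000 ≤
      (86122 / 100000 * x) * ((1 + x)⁻¹ * (194166 / 10000 - 124127 / 10000 * (1 + x)⁻¹ -
        259 / 4 * (1 + x)⁻¹ ^ (2 : ℕ) - 11845 / 1000 * (1 + x)⁻¹ ^ (3 : ℕ)) - 628319 / 100000 *
        (2105 / 1000 / x - (2105 / 1000 / x) ^ (2 : ℕ) / 2 + (2105 / 1000 / x) ^ (3 : ℕ) / 3)) +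
        137 / 50 * (1 + x)⁻¹ := by
  obtain ⟨u, rfl⟩ : ∃ u, x = 15 / 2 + u := ⟨x - 15 / 2, by ring⟩
  have hu : 0 ≤ u := by linarith
  rw [← sub_nonneg]
  have e : ((86122 / 100000 * (15 / 2 + u)) * ((1 + (15 / 2 + u))⁻¹ * (194166 / 10000 - 124127 / 10000 * (1 + (15 / 2 + u))⁻¹ -
        259 / 4 * (1 + (15 / 2 + u))⁻¹ ^ (2 : ℕ) - 11845 / 1000 * (1 + (15 / 2 + u))⁻¹ ^ (3 : ℕ)) - 628319 / 100000 *
        (2105 / 1000 / (15 / 2 + u) - (2105 / 1000 / (15 / 2 + u)) ^ (2 : ℕ) / 2 + (2105 / 1000 / (15 / 2 + u)) ^ (3 : ℕ) / 3)) +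
        137 / 50 * (1 + (15 / 2 + u))⁻¹) -
      2578 / 1000 =
      (
      339641063934791663046671 / 256000000000000000 + 3603654953180334781481201 /
      1920000000000000000 * u + 229253956228666037153203 / 240000000000000000 * u ^ (2 : ℕ) +
      19798921134864707508759 / 80000000000000000 * u ^ (3 : ℕ) + 8751425180800258986433 /
      240000000000000000 * u ^ (4 : ℕ) + 372699669818856111701 / 120000000000000000 * u ^ (5 : ℕ) +
      57152779963156219 / 400000000000000 * u ^ (6 : ℕ) + 2753369534761 / 1000000000000 * u ^ (7 : ℕ)) /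
      ((1 + (15 / 2 + u)) ^ (4 : ℕ) * (15 / 2 + u) ^ (3 : ℕ)) := by
    field_simp
    ring
  rw [e]
  positivity

end SokamV3

end

/-! ### Lib_MP_af4de1_v3.T2C -/

section
namespace SokamF1
end SokamF1
namespace SokamF1B
end SokamF1B
namespace SokamF1G
end SokamF1G
namespace SokamF1M
end SokamF1M
namespace SokamF1S
end SokamF1S
namespace SokamPG
end SokamPG
namespace SokamU
end SokamU
/-!
# `N = 2`: `PTC` (`Γ < 17/2`)
-/

set_option autoImplicit false

open Complex MeasureTheory Set SokamU SokamPG SokamF1 SokamF1S SokamF1M SokamF1G SokamF1B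

namespace SokamV3

theorem t2c_D {D x x0 e T : ℝ} (hx0 : 0 ≤ x0) (hx : x0 ≤ x) (hT : 1 ≤ T) (hD : D ^ (2 : ℕ) ≤ e + x ^ (2 : ℕ))
    (h : e ≤ (T ^ (2 : ℕ) - 1) * x0 ^ (2 : ℕ)) : D ≤ T * x := by
  have h1 : 0 ≤ T * x := by
    have : 0 ≤ x := hx0.trans hx
    positivity
  refine abs_le_of_sq_le_sq' ?_ h1 |>.2
  have h2 : (T ^ (2 : ℕ) - 1) * x0 ^ (2 : ℕ) ≤ (T ^ (2 : ℕ) - 1) * x ^ (2 : ℕ) := by
    have : 0 ≤ T ^ (2 : ℕ) - 1 := by nlinarith only [hT]
    gcongr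
  rw [mul_pow]
  linarith only [hD, h, h2]

theorem n_le {n ρ : ℝ} (hρ : 0 < ρ) (hn : Real.exp n ≤ 1 + 2105 / 1000 / ρ) :
    n ≤ 2105 / 1000 / ρ - (2105 / 1000 / ρ) ^ (2 : ℕ) / 2 + (2105 / 1000 / ρ) ^ (3 : ℕ) / 3 :=
  le_log3 (by positivity) hn

/-- upper bound of `log3 (2.105/ρ)` for `ρ ≥ ρ₀` -/
theorem n_le' {n ρ ρ0 : ℝ} (hρ0 : 0 < ρ0) (hρ : ρ0 ≤ ρ) (hn : Real.exp n ≤ 1 + 2105 / 1000 / ρ) :
    n ≤ 2105 / 1000 / ρ0 - (2105 / 1000 / ρ0) ^ (2 : ℕ) / 2 + (2105 / 1000 / ρ0) ^ (3 : ℕ) / 3 := by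
  refine le_log3 (by positivity) (hn.trans ?_)
  gcongr

/-- `y ≤ 0`, the lump of the side `ε = -1`, `c ≤ 9/100` -/
theorem c_neg1 {x n ρ w D : ℝ} (hρ : 754 / 100 ≤ ρ) (h2 : x ≤ ρ + 2105 / 1000)
    (hc : (1 + x)⁻¹ ≤ 9 / 100) (hx : 91 / 9 ≤ x)
    (hn0 : 0 ≤ n) (hn : Real.exp n ≤ 1 + 2105 / 1000 / ρ)
    (hw1 : 54712 / 100000 * (ρ + 1 / ρ) ≤ w) (hw2 : 499 / 10 / ρ ≤ w) (hw3 : 522 / 100 ≤ w)
    (hD0 : 0 < D) (hD : D ^ (2 : ℕ) ≤ 1 + x ^ (2 : ℕ)) :
    tP (-1) x n w ≤ 999 / 10000 * √(2 * Real.pi / (w * D)) := by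
  have hρ0 : 0 < ρ := by linarith only [hρ]
  have hn1 : n ≤ 2475 / 10000 := by
    refine (n_le' (by norm_num) hρ hn).trans ?_
    norm_num
  have hna : |n| = n := abs_of_nonneg hn0
  have hq : 4697 / 10000 * x ≤ 473 / 1000 * x - 134 / 1000 * |n| := by rw [hna]; linarith only [hx, hn1]
  have hx1 : 0 < 1 + x := by linarith only [hx]
  have hC : (ρ + 3105 / 1000)⁻¹ ≤ (1 + x)⁻¹ := by
    apply inv_anti₀ hx1
    linarith only [h2]
  refine lump_neg (κ := 1071 / 1000) (l := 10698 / 10000) (q1 := 4697 / 10000) (E := 1638 / 1000)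
    (M := 1) (cm := 9 / 100) (K := 308161 / 10000) (L := 23717 / 10000) (by linarith only [hx]) (by linarith only [hw3])
    (by norm_num) hD0 hc (by norm_num) ?_ (by norm_num) hq (tm_neg_sq (by linarith only [hx]) hn0 (by linarith only [hn1]))
    (by norm_num) (by norm_num) ?_ ?_ (by norm_num) ?_ ?_
  · refine (exp_five (by norm_num) (by norm_num)).trans ?_
    norm_num
  · have h5 : 522 / 100 * (4697 / 10000 * (91 / 9)) ≤ w * (4697 / 10000 * x) := by gcongr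
    norm_num at h5 ⊢
    linarith only [h5]
  · refine (t2c_D (x0 := 91 / 9) (T := 2 * (10698 / 10000) * (4697 / 10000)) (by norm_num) hx
      (by norm_num) hD (by norm_num)).trans (le_of_eq (by ring))
  · have e3 : (650039 / 10000 + 308161 / 10000 : ℝ) = 4791 / 50 := by norm_num
    rw [e3]
    rcases le_total (19 / 2) ρ with h95 | h95
    · refine neg_red (w0 := 54712 / 100000 * (ρ + 1 / ρ)) hw1 ?_ (by positivity) hC
        (by linarith only [hc]) (by norm_num) (by norm_num) ?_ (n_le hρ0 hn) (by norm_num) (ev_c1 h95)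
      · have : 0 < 1 / ρ := by positivity
        linarith only [h95, this]
      · exact hn0.trans (n_le hρ0 hn)
    · refine neg_red (w0 := 499 / 10 / ρ) hw2 ?_ (by positivity) hC
        (by linarith only [hc]) (by norm_num) (by norm_num) ?_ (n_le hρ0 hn) (by norm_num)
        (ev_c2 (by linarith only [h2, hx]) h95)
      · rw [le_div_iff₀ hρ0]
        linarith only [h95]
      · exact hn0.trans (n_le hρ0 hn)
  · have h6 := exp_neg_le_of (k := 4) (t := 7434 / 10000) (L := 23717 / 10000)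
      (A := 11482 / 100) (by norm_num) (by norm_num) (by norm_num) (by norm_num)
    calc 1071 / 1000 * (10698 / 10000) * Real.exp (-(2 * (23717 / 10000))) ≤
        1071 / 1000 * (10698 / 10000) * (1 / (11482 / 100)) := by gcongr
      _ ≤ (999 / 10000) ^ (2 : ℕ) := by norm_num

/-- `y ≤ 0`, the lump of the side `ε = -1`, `c ≥ 9/100` -/
theorem c_neg2 {x n ρ w D : ℝ} (hρ : 754 / 100 ≤ ρ) (h1 : ρ ≤ x)
    (hc : 9 / 100 ≤ (1 + x)⁻¹)
    (hn0 : 0 ≤ n) (hn : Real.exp n ≤ 1 + 2105 / 1000 / ρ)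
    (hw2 : 499 / 10 / ρ ≤ w) (hw3 : 522 / 100 ≤ w)
    (hD0 : 0 < D) (hD : D ^ (2 : ℕ) ≤ 1 + x ^ (2 : ℕ)) :
    tP (-1) x n w ≤ 999 / 10000 * √(2 * Real.pi / (w * D)) := by
  have hρ0 : 0 < ρ := by linarith only [hρ, h1]
  have hn1 : n ≤ 2475 / 10000 := by
    refine (n_le' (by norm_num) hρ hn).trans ?_
    norm_num
  have hna : |n| = n := abs_of_nonneg hn0
  have hx : 754 / 100 ≤ x := by linarith only [hρ, h1]
  have hq : 4686 / 10000 * x ≤ 473 / 1000 * x - 134 / 1000 * |n| := by rw [hna]; linarith only [hn1, hx]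
  have hx1 : 0 < 1 + x := by linarith only [hx]
  have hcm : (1 + x)⁻¹ ≤ 1171 / 10000 := by
    rw [inv_le_comm₀ hx1 (by norm_num)]
    norm_num
    linarith only [hx]
  refine lump_neg (κ := 1115 / 1000) (l := 10765 / 10000) (q1 := 4686 / 10000) (E := 19 / 10)
    (M := 1) (cm := 1171 / 10000) (K := 385 / 10) (L := 2395 / 1000) (by linarith only [hx]) (by linarith only [hw3])
    (by norm_num) hD0 hcm (by norm_num) ?_ (by norm_num) hq (tm_neg_sq (by linarith only [hx]) hn0 (by linarith only [hn1]))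
    (by norm_num) (by norm_num) ?_ ?_ (by norm_num) ?_ ?_
  · refine (exp_five (by norm_num) (by norm_num)).trans ?_
    norm_num
  · have h5 : 522 / 100 * (4686 / 10000 * (754 / 100)) ≤ w * (4686 / 10000 * x) := by gcongr
    norm_num at h5 ⊢
    linarith only [h5]
  · refine (t2c_D (x0 := 754 / 100) (T := 2 * (10765 / 10000) * (4686 / 10000)) (by norm_num) hx
      (by norm_num) hD (by norm_num)).trans (le_of_eq (by ring))
  · rcases le_total (17 / 2) ρ with h85 | h85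
    · refine neg_red (w0 := 522 / 100) hw3 (by norm_num) (C := 9 / 100) (by norm_num) hc
        (by linarith only [hcm]) (by norm_num) (by norm_num) (N := 22205 / 100000) (by norm_num) ?_
        (by norm_num) (by norm_num)
      refine (n_le' (by norm_num) h85 hn).trans ?_
      norm_num
    · have hw4 : 587 / 100 ≤ w := by
        refine le_trans ?_ hw2
        rw [le_div_iff₀ hρ0]
        linarith only [h85]
      refine neg_red (w0 := 587 / 100) hw4 (by norm_num) (C := 9 / 100) (by norm_num) hc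
        (by linarith only [hcm]) (by norm_num) (by norm_num) (N := 2475 / 10000) (by norm_num) hn1
        (by norm_num) (by norm_num)
  · have h6 := exp_neg_le_of (k := 4) (t := 79 / 100) (L := 2395 / 1000)
      (A := 12028 / 100) (by norm_num) (by norm_num) (by norm_num) (by norm_num)
    calc 1115 / 1000 * (10765 / 10000) * Real.exp (-(2 * (2395 / 1000))) ≤
        1115 / 1000 * (10765 / 10000) * (1 / (12028 / 100)) := by gcongr
      _ ≤ (999 / 10000) ^ (2 : ℕ) := by norm_num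

/-- `y ≤ 0`, the lump of the side `ε = 1` -/
theorem c_neg3 {x n ρ w D : ℝ} (hρ : 754 / 100 ≤ ρ) (h1 : ρ ≤ x) (h2 : x ≤ ρ + 2105 / 1000)
    (hn0 : 0 ≤ n) (hn : Real.exp n ≤ 1 + 2105 / 1000 / ρ)
    (hw1 : 54712 / 100000 * (ρ + 1 / ρ) ≤ w) (hw2 : 499 / 10 / ρ ≤ w) (hw3 : 522 / 100 ≤ w)
    (hD0 : 0 < D) (hD : D ^ (2 : ℕ) ≤ 1 + x ^ (2 : ℕ)) :
    tP 1 x (-n) w ≤ 1 / 1000 * √(2 * Real.pi / (w * D)) := by
  have hρ0 : 0 < ρ := by linarith only [hρ, h1]
  have hn1 : n ≤ 2475 / 10000 := by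
    refine (n_le' (by norm_num) hρ hn).trans ?_
    norm_num
  have hna : |-n| = n := by rw [abs_neg, abs_of_nonneg hn0]
  have hx : 754 / 100 ≤ x := by linarith only [hρ, h1]
  have hq : 4686 / 10000 * x ≤ 473 / 1000 * x - 134 / 1000 * |-n| := by rw [hna]; linarith only [hn1, hx]
  have hx1 : 0 < 1 + x := by linarith only [hx]
  have hcm : (1 + x)⁻¹ ≤ 1171 / 10000 := by
    rw [inv_le_comm₀ hx1 (by norm_num)]
    norm_num
    linarith only [hx]
  have hta : ta x ≤ 1 := by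
    rw [ta_eq (by linarith only [hx])]
    linarith only [hcm]
  have hc0 : 0 < (1 + x)⁻¹ := inv_pos.2 hx1
  refine lump_pos (κ := 106 / 100) (l := 10765 / 10000) (q1 := 4686 / 10000)
    (M := 1) (cm := 1171 / 10000) (K := 193 / 10) (L := 7) (by linarith only [hx]) (by linarith only [hw3])
    (by norm_num) hD0 hcm (by norm_num) (by norm_num) hq
    (tm_pos_sq' (by linarith only [hx]) hn0 (by linarith only [hn1]) hta)
    (by norm_num) (by norm_num) ?_ ?_ (by norm_num) ?_ ?_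
  · have h5 : 522 / 100 * (4686 / 10000 * (754 / 100)) ≤ w * (4686 / 10000 * x) := by gcongr
    norm_num at h5 ⊢
    linarith only [h5]
  · refine (t2c_D (x0 := 754 / 100) (T := 2 * (10765 / 10000) * (4686 / 10000)) (by norm_num) hx
      (by norm_num) hD (by norm_num)).trans (le_of_eq (by ring))
  · -- `w c ≥ .415`
    have hwc : 415 / 1000 ≤ w * (1 + x)⁻¹ := by
      rw [← div_eq_mul_inv, le_div_iff₀ hx1]
      have h6 : 415 / 1000 * (1 + x) ≤ 415 / 1000 * (ρ + 3105 / 1000) := by linarith only [h2]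
      refine h6.trans ?_
      rcases le_total (19 / 2) ρ with h95 | h95
      · refine le_trans ?_ hw1
        have h7 : 4 / 19 - ρ * (4 / 361) ≤ 1 / ρ := by
          rw [le_div_iff₀ hρ0]
          linarith only [sq_nonneg (1 - 2 * ρ / 19)]
        linarith only [h95, h7]
      · refine le_trans ?_ hw2
        rw [le_div_iff₀ hρ0]
        nlinarith only [hx1, h6, h95]
    have h8 : 1754 / 100 ≤ 194166 / 10000 - 124127 / 10000 * (1 + x)⁻¹ -
      (101484 / 10000 + 193 / 10) * (1 + x)⁻¹ ^ (2 : ℕ) - 11845 / 1000 * (1 + x)⁻¹ ^ (3 : ℕ) := by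
      have h9 : (1 + x)⁻¹ ^ (2 : ℕ) ≤ (1171 / 10000) ^ (2 : ℕ) := by gcongr
      have h10 : (1 + x)⁻¹ ^ (3 : ℕ) ≤ (1171 / 10000) ^ (3 : ℕ) := by gcongr
      norm_num at h9 h10 ⊢
      linarith only [hcm, h9, h10]
    have h11 : 0 ≤ 2 * Real.pi * n := by
      have := Real.pi_pos
      positivity
    have h12 : 415 / 1000 * (1754 / 100) ≤ w * (1 + x)⁻¹ * (194166 / 10000 - 124127 / 10000 *
      (1 + x)⁻¹ - (101484 / 10000 + 193 / 10) * (1 + x)⁻¹ ^ (2 : ℕ) - 11845 / 1000 * (1 + x)⁻¹ ^ (3 : ℕ)) :=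
      mul_le_mul hwc h8 (by norm_num) (by positivity)
    have h13 : 0 ≤ w * (2 * Real.pi * n) := by positivity
    have e : w * ((1 + x)⁻¹ * (194166 / 10000 - 124127 / 10000 * (1 + x)⁻¹ -
        (101484 / 10000 + 193 / 10) * (1 + x)⁻¹ ^ (2 : ℕ) - 11845 / 1000 * (1 + x)⁻¹ ^ (3 : ℕ)) -
        2 * Real.pi * -n) = w * (1 + x)⁻¹ * (194166 / 10000 - 124127 / 10000 * (1 + x)⁻¹ -
        (101484 / 10000 + 193 / 10) * (1 + x)⁻¹ ^ (2 : ℕ) - 11845 / 1000 * (1 + x)⁻¹ ^ (3 : ℕ)) +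
        w * (2 * Real.pi * n) := by ring
    rw [e]
    have h14 : (7 : ℝ) ≤ 415 / 1000 * (1754 / 100) := by norm_num
    have h15 : 0 ≤ 137 / 50 * (1 + x)⁻¹ := by positivity
    linarith only [h12, h13, h15]
  · have h6 := exp_neg_le_of (k := 14) (t := 0) (L := 7)
      (A := 1200000) (by norm_num) (by norm_num) (by norm_num) (by norm_num)
    calc 106 / 100 * (10765 / 10000) * Real.exp (-(2 * 7)) ≤
        106 / 100 * (10765 / 10000) * (1 / 1200000) := by gcongr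
      _ ≤ (1 / 1000) ^ (2 : ℕ) := by norm_num

/-- `y ≥ 0`, the lump of the side `ε = 1` -/
theorem c_pos1 {x y ρ w D : ℝ} (hx : 5435 / 1000 ≤ x) (h1 : x ≤ ρ)
    (hy0 : 0 ≤ y) (hy : Real.exp y ≤ 1 + 2105 / 1000 / x)
    (hw1 : 54712 / 100000 * (ρ + 1 / ρ) ≤ w) (hw3 : 522 / 100 ≤ w)
    (hD0 : 0 < D) (hD : D ^ (2 : ℕ) ≤ (1 + y) ^ (2 : ℕ) + x ^ (2 : ℕ)) :
    tP 1 x y w ≤ 999 / 10000 * √(2 * Real.pi / (w * D)) := by
  have hx0 : 0 < x := by linarith only [hx, h1]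
  have hρ0 : 0 < ρ := by linarith only [hx, h1]
  have hyl := n_le hx0 hy
  have hy1 : y ≤ 3317 / 10000 := by
    refine (n_le' (by norm_num) hx hy).trans ?_
    norm_num
  have hya : |y| = y := abs_of_nonneg hy0
  have hq : 4648 / 10000 * x ≤ 473 / 1000 * x - 134 / 1000 * |y| := by rw [hya]; linarith only [hx, hy1]
  have hx1 : 0 < 1 + x := by linarith only [hx0]
  have hcm : (1 + x)⁻¹ ≤ 1555 / 10000 := by
    rw [inv_le_comm₀ hx1 (by norm_num)]
    norm_num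
    linarith only [hx]
  have hc0 : 0 < (1 + x)⁻¹ := inv_pos.2 hx1
  have hpi : Real.pi ≤ 3141593 / 1000000 := by
    have := Real.pi_lt_d6
    norm_num at this ⊢
    linarith only [this]
  refine lump_pos (κ := 10821 / 10000) (l := 11081 / 10000) (q1 := 4648 / 10000)
    (M := 2322 / 1000) (cm := 1555 / 10000) (K := 481016 / 10000) (L := 23944 / 10000)
    (by linarith only [hx]) (by linarith only [hw3]) (by norm_num) hD0 hcm (by norm_num) (by norm_num) hq
    (tm_pos_sq (S := 15782 / 10000) (by linarith only [hx]) hy0 hcm (by norm_num) (by norm_num) ?_)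
    (by norm_num) (by norm_num) ?_ ?_ (by norm_num) ?_ ?_
  · calc (1 + y * (15782 / 10000)) ^ (2 : ℕ) ≤ (1 + 3317 / 10000 * (15782 / 10000)) ^ (2 : ℕ) := by gcongr
      _ ≤ 2322 / 1000 := by norm_num
  · have h5 : 522 / 100 * (4648 / 10000 * (5435 / 1000)) ≤ w * (4648 / 10000 * x) := by gcongr
    norm_num at h5 ⊢
    linarith only [h5]
  · refine (t2c_D (x0 := 5435 / 1000) (T := 2 * (11081 / 10000) * (4648 / 10000)) (by norm_num) hx
      (by norm_num) hD ?_).trans (le_of_eq (by ring))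
    calc (1 + y) ^ (2 : ℕ) ≤ (1 + 3317 / 10000) ^ (2 : ℕ) := by gcongr
      _ ≤ _ := by norm_num
  · have e3 : (101484 / 10000 + 481016 / 10000 : ℝ) = 233 / 4 := by norm_num
    rw [e3]
    have hl0 := hy0.trans hyl
    have hXY : (1 + x)⁻¹ * (194166 / 10000 - 124127 / 10000 * (1 + x)⁻¹ -
        233 / 4 * (1 + x)⁻¹ ^ (2 : ℕ) - 11845 / 1000 * (1 + x)⁻¹ ^ (3 : ℕ)) - 628319 / 100000 *
        (2105 / 1000 / x - (2105 / 1000 / x) ^ (2 : ℕ) / 2 + (2105 / 1000 / x) ^ (3 : ℕ) / 3) ≤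
        (1 + x)⁻¹ * (194166 / 10000 - 124127 / 10000 * (1 + x)⁻¹ -
        233 / 4 * (1 + x)⁻¹ ^ (2 : ℕ) - 11845 / 1000 * (1 + x)⁻¹ ^ (3 : ℕ)) - 2 * Real.pi * y := by
      have : 2 * Real.pi * y ≤ 628319 / 100000 *
          (2105 / 1000 / x - (2105 / 1000 / x) ^ (2 : ℕ) / 2 + (2105 / 1000 / x) ^ (3 : ℕ) / 3) := by
        calc 2 * Real.pi * y ≤ 2 * (3141593 / 1000000) * y := by gcongr
          _ ≤ 628319 / 100000 * y := by linarith only [hy0]
          _ ≤ _ := by gcongr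
      linarith only [this]
    have hcL : 137 / 50 * (1 + x)⁻¹ ≤ 23944 / 10000 := by linarith only [hcm]
    rcases le_total x (96 / 10) with h9 | h9
    · exact pos_red (w0 := 522 / 100) hw3 (by norm_num) hXY
        (ev_cp1 (by linarith only [hx]) (by linarith only [h9])) hcL
    · refine pos_red (w0 := 54712 / 100000 * x) (le_trans ?_ hw1) (by positivity) hXY
        (ev_cp2 (by linarith only [h9])) hcL
      have : 0 < 1 / ρ := by positivity
      have : x ≤ ρ + 1 / ρ := by linarith only [h1, this]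
      gcongr
  · have h6 := exp_neg_le_of (k := 4) (t := 7888 / 10000) (L := 23944 / 10000)
      (A := 12015 / 100) (by norm_num) (by norm_num) (by norm_num) (by norm_num)
    calc 10821 / 10000 * (11081 / 10000) * Real.exp (-(2 * (23944 / 10000))) ≤
        10821 / 10000 * (11081 / 10000) * (1 / (12015 / 100)) := by gcongr
      _ ≤ (999 / 10000) ^ (2 : ℕ) := by norm_num

/-- `y ≥ 0`, the lump of the side `ε = -1` -/
theorem c_pos2 {x y ρ w D : ℝ} (hx : 5435 / 1000 ≤ x) (h1 : x ≤ ρ)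
    (hy0 : 0 ≤ y) (hy : Real.exp y ≤ 1 + 2105 / 1000 / x)
    (hw1 : 54712 / 100000 * (ρ + 1 / ρ) ≤ w) (hw3 : 522 / 100 ≤ w)
    (hD0 : 0 < D) (hD : D ^ (2 : ℕ) ≤ (1 + y) ^ (2 : ℕ) + x ^ (2 : ℕ)) :
    tP (-1) x (-y) w ≤ 1 / 1000 * √(2 * Real.pi / (w * D)) := by
  have hx0 : 0 < x := by linarith only [hx, h1]
  have hρ0 : 0 < ρ := by linarith only [hx, h1]
  have hy1 : y ≤ 3317 / 10000 := by
    refine (n_le' (by norm_num) hx hy).trans ?_
    norm_num
  have hya : |-y| = y := by rw [abs_neg, abs_of_nonneg hy0]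
  have hq : 4648 / 10000 * x ≤ 473 / 1000 * x - 134 / 1000 * |-y| := by rw [hya]; linarith only [hx, hy1]
  have hx1 : 0 < 1 + x := by linarith only [hx0]
  have hcm : (1 + x)⁻¹ ≤ 1555 / 10000 := by
    rw [inv_le_comm₀ hx1 (by norm_num)]
    norm_num
    linarith only [hx]
  have hc0 : 0 < (1 + x)⁻¹ := inv_pos.2 hx1
  refine lump_neg (κ := 1217 / 1000) (l := 11081 / 10000) (q1 := 4648 / 10000) (E := 23449 / 10000)
    (M := 17735 / 10000) (cm := 1555 / 10000) (K := 969 / 10) (L := 8)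
    (by linarith only [hx]) (by linarith only [hw3]) (by norm_num) hD0 hcm (by norm_num) ?_ (by norm_num) hq
    (tm_neg_sq' (by linarith only [hx]) hy0 ?_)
    (by norm_num) (by norm_num) ?_ ?_ (by norm_num) ?_ ?_
  · refine (exp_five (by norm_num) (by norm_num)).trans ?_
    norm_num
  · calc (1 + y) ^ (2 : ℕ) ≤ (1 + 3317 / 10000) ^ (2 : ℕ) := by gcongr
      _ ≤ 17735 / 10000 := by norm_num
  · have h5 : 522 / 100 * (4648 / 10000 * (5435 / 1000)) ≤ w * (4648 / 10000 * x) := by gcongr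
    norm_num at h5 ⊢
    linarith only [h5]
  · refine (t2c_D (x0 := 5435 / 1000) (T := 2 * (11081 / 10000) * (4648 / 10000)) (by norm_num) hx
      (by norm_num) hD ?_).trans (le_of_eq (by ring))
    calc (1 + y) ^ (2 : ℕ) ≤ (1 + 3317 / 10000) ^ (2 : ℕ) := by gcongr
      _ ≤ _ := by norm_num
  · have h8 : 194166 / 10000 ≤ 194166 / 10000 + 424429 / 10000 * (1 + x)⁻¹ -
        (650039 / 10000 + 969 / 10) * (1 + x)⁻¹ ^ (2 : ℕ) := by nlinarith only [hcm, hc0]
    have h9 : (1 + x)⁻¹ * (194166 / 10000) ≤ (1 + x)⁻¹ * (194166 / 10000 +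
        424429 / 10000 * (1 + x)⁻¹ - (650039 / 10000 + 969 / 10) * (1 + x)⁻¹ ^ (2 : ℕ)) := by gcongr
    have h10 : 0 ≤ 2 * Real.pi * y := by
      have := Real.pi_pos
      positivity
    have h11 : w * ((1 + x)⁻¹ * (194166 / 10000)) ≤ w * ((1 + x)⁻¹ * (194166 / 10000 +
        424429 / 10000 * (1 + x)⁻¹ - (650039 / 10000 + 969 / 10) * (1 + x)⁻¹ ^ (2 : ℕ)) -
        2 * Real.pi * -y) := by
      refine mul_le_mul_of_nonneg_left ?_ (by linarith only [hw3])
      linarith only [h9, h10]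
    have h12 : 8 ≤ (1 + x)⁻¹ * (194166 / 10000 * w - 137 / 50) := by
      have h13 : (1 + ρ)⁻¹ ≤ (1 + x)⁻¹ := by
        apply inv_anti₀ hx1
        linarith only [h1]
      have h14 : 0 ≤ 194166 / 10000 * w - 137 / 50 := by linarith only [hw3]
      refine le_trans ?_ (mul_le_mul_of_nonneg_right h13 h14)
      rw [← div_eq_inv_mul, le_div_iff₀ (by linarith only [hρ0])]
      rcases le_total (19 / 2) ρ with h95 | h95
      · have : 0 < 1 / ρ := by positivity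
        linarith only [hw1, h95, this]
      · linarith only [hw3, h95]
    linarith only [h11, h12]
  · have h6 := exp_neg_le_of (k := 16) (t := 0) (L := 8)
      (A := 8000000) (by norm_num) (by norm_num) (by norm_num) (by norm_num)
    calc 1217 / 1000 * (11081 / 10000) * Real.exp (-(2 * 8)) ≤
        1217 / 1000 * (11081 / 10000) * (1 / 8000000) := by gcongr
      _ ≤ (1 / 1000) ^ (2 : ℕ) := by norm_num

/-! ### the piece -/

theorem eo2_le {r δ : ℝ} (hG : Gm 2 r δ < 10) : eo2 r δ ≤ 2105 / 1000 := by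
  unfold eo2 om2
  rw [if_pos hG, t2_hst_two]
  have := Real.pi_lt_d4
  norm_num at this ⊢
  linarith only [this]

/-- **PTC** -/
theorem ptC : PTC := by
  intro r δ y η h hA hS hη hG
  have hP := h.toPar
  have hδ := h.d0
  have hG10 : Gm 2 r δ < 10 := by linarith only [hG]
  have hη2 := hη.trans (eo2_le hG10)
  have hρ := h.rho_ge hG
  have hG5 := h.G
  have hw1 := t2c_w1 hP hG5 (g := 54712 / 100000) (by norm_num)
  have hw2 := t2c_w2 hP
  have hρ0 : 0 < r * δ := by linarith only [hρ]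
  have hw3 : 522 / 100 ≤ 1 / δ :=
    t2_wmin hρ0 (by norm_num) (by positivity) hw1 hw2 (by norm_num)
  have hDp : 0 < sD (r * δ) y := Real.sqrt_pos.2 (sD2_pos hA.y1)
  have hDD : sD (r * δ) y ^ (2 : ℕ) = (1 + y) ^ (2 : ℕ) + sx (r * δ) y ^ (2 : ℕ) := by
    unfold sD
    rw [Real.sq_sqrt (sD2_pos hA.y1).le]
    rfl
  unfold tS
  rw [sG_w hδ]
  have hdiv : ∀ z : ℝ, 0 < z → z * (Real.exp y - 1) ≤ 2105 / 1000 →
      Real.exp y ≤ 1 + 2105 / 1000 / z := by
    intro z hz h1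
    have : Real.exp y - 1 ≤ 2105 / 1000 / z := by
      rw [le_div_iff₀ hz]
      linarith only [h1]
    linarith only [this]
  rcases le_total 0 y with hy | hy
  · obtain ⟨f1, f2⟩ := pos_facts hA.dom hy
    rw [hA.eta] at f1 f2
    have hη3 : η ≤ 2105 / 1000 := (le_abs_self η).trans hη2
    have hx : 5435 / 1000 ≤ sx (r * δ) y := by linarith only [hρ, f2, hη3]
    have hxρ : sx (r * δ) y ≤ r * δ := by
      refine (sx_le hA.dom).trans ?_
      have : Real.exp (-y) ≤ 1 := by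
        rw [Real.exp_le_one_iff]
        linarith only [hy]
      calc r * δ * Real.exp (-y) ≤ r * δ * 1 := by gcongr
        _ = _ := mul_one _
    have hex := hdiv (sx (r * δ) y) (by linarith only [hx]) (f1.trans hη3)
    have k1 := c_pos1 hx hxρ hy hex hw1 hw3 hDp hDD.le
    have k2 := c_pos2 hx hxρ hy hex hw1 hw3 hDp hDD.le
    linarith only [k1, k2]
  · obtain ⟨f1, f2⟩ := neg_facts hA.dom hA.y1.le hy
    rw [hA.eta] at f1
    have hη3 : -η ≤ 2105 / 1000 := (neg_le_abs η).trans hη2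
    have hlo := hS.lo
    have hxρ : r * δ ≤ sx (r * δ) y := SokamF1T.sx_ge (by linarith only [hρ]) (by linarith only [hlo]) hy
    have hx2 : sx (r * δ) y ≤ r * δ + 2105 / 1000 := by linarith only [f1, f2, hη3]
    have hex : Real.exp (-y) ≤ 1 + 2105 / 1000 / (r * δ) := by
      have : Real.exp (-y) - 1 ≤ 2105 / 1000 / (r * δ) := by
        rw [le_div_iff₀ hρ0]
        linarith only [f1, hη3]
      linarith only [this]
    have hD1 : sD (r * δ) y ^ (2 : ℕ) ≤ 1 + sx (r * δ) y ^ (2 : ℕ) := by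
      rw [hDD]
      nlinarith only [hy, hlo]
    have hn0 : 0 ≤ -y := by linarith only [hy]
    have k1 : tP (-1) (sx (r * δ) y) (-y) (1 / δ) ≤
        999 / 10000 * √(2 * Real.pi / (1 / δ * sD (r * δ) y)) := by
      rcases le_total (1 + sx (r * δ) y)⁻¹ (9 / 100) with hc | hc
      · have hx : 91 / 9 ≤ sx (r * δ) y := by
          rw [inv_le_comm₀ (by linarith only [hρ0, hxρ]) (by norm_num)] at hc
          norm_num at hc
          linarith only [hc]
        exact c_neg1 hρ hx2 hc hx hn0 hex hw1 hw2 hw3 hDp hD1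
      · exact c_neg2 hρ hxρ hc hn0 hex hw2 hw3 hDp hD1
    have k2 := c_neg3 hρ hxρ hx2 hn0 hex hw1 hw2 hw3 hDp hD1
    rw [neg_neg] at k2
    linarith only [k1, k2]

end SokamV3

end

/-! ### Lib_MP_af4de1_v3.OutREv -/

section
/-!
# `N = 2`, `outR`: the one-variable inequalities of the lump at the far end (generated)
-/

set_option autoImplicit false

namespace SokamV3

theorem evR_C {ρ : ℝ} (h : 377 / 50 ≤ ρ) :
    93 / 100 ≤
      (6839 / 12500 * (ρ + 1 / ρ)) * ((ρ + 621 / 200)⁻¹ * (137349 / 10000 + 424429 / 10000 * (ρ + 621 / 200)⁻¹ -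
        2423 / 25 * (ρ + 621 / 200)⁻¹ ^ (2 : ℕ)) - 524649 / 100000 *
        (421 / 200 / ρ - (421 / 200 / ρ) ^ (2 : ℕ) / 2 + (421 / 200 / ρ) ^ (3 : ℕ) / 3)) -
        137 / 50 * (ρ + 621 / 200)⁻¹ := by
  obtain ⟨u, rfl⟩ : ∃ u, ρ = 377 / 50 + u := ⟨ρ - 377 / 50, by ring⟩
  have hu : 0 ≤ u := by linarith
  rw [← sub_nonneg]
  have e : ((6839 / 12500 * ((377 / 50 + u) + 1 / (377 / 50 + u))) * (((377 / 50 + u) + 621 / 200)⁻¹ * (137349 / 10000 + 424429 / 10000 * ((377 / 50 + u) + 621 / 200)⁻¹ -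
        2423 / 25 * ((377 / 50 + u) + 621 / 200)⁻¹ ^ (2 : ℕ)) - 524649 / 100000 *
        (421 / 200 / (377 / 50 + u) - (421 / 200 / (377 / 50 + u)) ^ (2 : ℕ) / 2 + (421 / 200 / (377 / 50 + u)) ^ (3 : ℕ) / 3)) -
        137 / 50 * ((377 / 50 + u) + 621 / 200)⁻¹) -
      93 / 100 =
      (
      10848017392171155222961306545553 / 200000000000000000000000000 +
      102529126664234323885455830011 / 200000000000000000000000 * u +
      26226652067311395774554675881 / 80000000000000000000000 * u ^ (2 : ℕ) +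
      70669578339207315781694077 / 800000000000000000000 * u ^ (3 : ℕ) + 49921379655458915390789 /
      4000000000000000000 * u ^ (4 : ℕ) + 3837369388529853761 / 4000000000000000 * u ^ (5 : ℕ) +
      3718336929440373 / 100000000000000 * u ^ (6 : ℕ) + 135580252869 / 250000000000 * u ^ (7 : ℕ)) /
      (((377 / 50 + u) + 621 / 200) ^ (3 : ℕ) * (377 / 50 + u) ^ (4 : ℕ)) := by
    field_simp
    ring
  rw [e]
  positivity

theorem evR_D {ρ : ℝ} (h : 347 / 50 ≤ ρ) :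
    36 / 25 ≤
      (43061 / 50000 * (ρ + 1 / ρ)) * ((ρ + 621 / 200)⁻¹ * (137349 / 10000 + 424429 / 10000 * (ρ + 621 / 200)⁻¹ -
        393 / 4 * (ρ + 621 / 200)⁻¹ ^ (2 : ℕ)) - 524649 / 100000 *
        (421 / 200 / ρ - (421 / 200 / ρ) ^ (2 : ℕ) / 2 + (421 / 200 / ρ) ^ (3 : ℕ) / 3)) -
        137 / 50 * (ρ + 621 / 200)⁻¹ := by
  obtain ⟨u, rfl⟩ : ∃ u, ρ = 347 / 50 + u := ⟨ρ - 347 / 50, by ring⟩
  have hu : 0 ≤ u := by linarith
  rw [← sub_nonneg]
  have e : ((43061 / 50000 * ((347 / 50 + u) + 1 / (347 / 50 + u))) * (((347 / 50 + u) + 621 / 200)⁻¹ * (137349 / 10000 + 424429 / 10000 * ((347 / 50 + u) + 621 / 200)⁻¹ -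
        393 / 4 * ((347 / 50 + u) + 621 / 200)⁻¹ ^ (2 : ℕ)) - 524649 / 100000 *
        (421 / 200 / (347 / 50 + u) - (421 / 200 / (347 / 50 + u)) ^ (2 : ℕ) / 2 + (421 / 200 / (347 / 50 + u)) ^ (3 : ℕ) / 3)) -
        137 / 50 * ((347 / 50 + u) + 621 / 200)⁻¹) -
      36 / 25 =
      (
      131971207866316219825187849673447 / 800000000000000000000000000 +
      257248415092991660549133164721 / 400000000000000000000000 * u +
      131616796805500817545887929279 / 320000000000000000000000 * u ^ (2 : ℕ) +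
      371077584709060097088638343 / 3200000000000000000000 * u ^ (3 : ℕ) + 277452179880470248809111 /
      16000000000000000000 * u ^ (4 : ℕ) + 22625860308084620611 / 16000000000000000 * u ^ (5 : ℕ) +
      23160859605506847 / 400000000000000 * u ^ (6 : ℕ) + 877576220031 / 1000000000000 * u ^ (7 : ℕ)) /
      (((347 / 50 + u) + 621 / 200) ^ (3 : ℕ) * (347 / 50 + u) ^ (4 : ℕ)) := by
    field_simp
    ring
  rw [e]
  positivity

theorem evR_B {ρ : ℝ} (h : 97 / 20 ≤ ρ) :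
    11 / 10 ≤
      (2533 / 2500 * (ρ + 1 / ρ)) * ((ρ + 3043 / 1000)⁻¹ * (133907 / 10000 + 424429 / 10000 * (ρ + 3043 / 1000)⁻¹ -
        2646 / 25 * (ρ + 3043 / 1000)⁻¹ ^ (2 : ℕ)) - 518369 / 100000 *
        (2043 / 1000 / ρ - (2043 / 1000 / ρ) ^ (2 : ℕ) / 2 + (2043 / 1000 / ρ) ^ (3 : ℕ) / 3)) -
        137 / 50 * (ρ + 3043 / 1000)⁻¹ := by
  obtain ⟨u, rfl⟩ : ∃ u, ρ = 97 / 20 + u := ⟨ρ - 97 / 20, by ring⟩
  have hu : 0 ≤ u := by linarith
  rw [← sub_nonneg]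
  have e : ((2533 / 2500 * ((97 / 20 + u) + 1 / (97 / 20 + u))) * (((97 / 20 + u) + 3043 / 1000)⁻¹ * (133907 / 10000 + 424429 / 10000 * ((97 / 20 + u) + 3043 / 1000)⁻¹ -
        2646 / 25 * ((97 / 20 + u) + 3043 / 1000)⁻¹ ^ (2 : ℕ)) - 518369 / 100000 *
        (2043 / 1000 / (97 / 20 + u) - (2043 / 1000 / (97 / 20 + u)) ^ (2 : ℕ) / 2 + (2043 / 1000 / (97 / 20 + u)) ^ (3 : ℕ) / 3)) -
        137 / 50 * ((97 / 20 + u) + 3043 / 1000)⁻¹) -
      11 / 10 =
      (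
      949981933798281308945435436712089 / 25000000000000000000000000000 +
      939352483833704673676228070491721 / 5000000000000000000000000000 * u +
      5132984747711544623650232666823 / 31250000000000000000000000 * u ^ (2 : ℕ) +
      31984419475399171416814884289 / 500000000000000000000000 * u ^ (3 : ℕ) +
      6633519029817731690798473 / 500000000000000000000 * u ^ (4 : ℕ) + 750439482636809868957 /
      500000000000000000 * u ^ (5 : ℕ) + 8478303066095647 / 100000000000000 * u ^ (6 : ℕ) + 434346722889 /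
      250000000000 * u ^ (7 : ℕ)) /
      (((97 / 20 + u) + 3043 / 1000) ^ (3 : ℕ) * (97 / 20 + u) ^ (4 : ℕ)) := by
    field_simp
    ring
  rw [e]
  positivity

theorem evR_A {ρ : ℝ} (h : 16 / 5 ≤ ρ) :
    11 / 10 ≤
      (2533 / 1250 * (ρ + 1 / ρ)) * ((ρ + 577 / 200)⁻¹ * (62649 / 5000 + 424429 / 10000 * (ρ + 577 / 200)⁻¹ -
        603 / 5 * (ρ + 577 / 200)⁻¹ ^ (2 : ℕ)) - 502659 / 100000 *
        (377 / 200 / ρ - (377 / 200 / ρ) ^ (2 : ℕ) / 2 + (377 / 200 / ρ) ^ (3 : ℕ) / 3)) -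
        137 / 50 * (ρ + 577 / 200)⁻¹ := by
  obtain ⟨u, rfl⟩ : ∃ u, ρ = 16 / 5 + u := ⟨ρ - 16 / 5, by ring⟩
  have hu : 0 ≤ u := by linarith
  rw [← sub_nonneg]
  have e : ((2533 / 1250 * ((16 / 5 + u) + 1 / (16 / 5 + u))) * (((16 / 5 + u) + 577 / 200)⁻¹ * (62649 / 5000 + 424429 / 10000 * ((16 / 5 + u) + 577 / 200)⁻¹ -
        603 / 5 * ((16 / 5 + u) + 577 / 200)⁻¹ ^ (2 : ℕ)) - 502659 / 100000 *
        (377 / 200 / (16 / 5 + u) - (377 / 200 / (16 / 5 + u)) ^ (2 : ℕ) / 2 + (377 / 200 / (16 / 5 + u)) ^ (3 : ℕ) / 3)) -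
        137 / 50 * ((16 / 5 + u) + 577 / 200)⁻¹) -
      11 / 10 =
      (
      705158753584534567097642779 / 200000000000000000000000 + 602598358362453042957318277 /
      10000000000000000000000 * u + 645511689422823436316691699 / 8000000000000000000000 * u ^
      2 + 3709339852943197228889201 / 80000000000000000000 * u ^ (3 : ℕ) + 5628199764560412583873 /
      400000000000000000 * u ^ (4 : ℕ) + 4625142279744461913 / 2000000000000000 * u ^ (5 : ℕ) +
      372362634246129 / 2000000000000 * u ^ (6 : ℕ) + 127249979881 / 25000000000 * u ^ (7 : ℕ)) /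
      (((16 / 5 + u) + 577 / 200) ^ (3 : ℕ) * (16 / 5 + u) ^ (4 : ℕ)) := by
    field_simp
    ring
  rw [e]
  positivity

end SokamV3

end

/-! ### Lib_MP_af4de1_v3.OutR2 -/

section
namespace SokamF1
end SokamF1
namespace SokamF1B
end SokamF1B
namespace SokamF1G
end SokamF1G
namespace SokamF1M
end SokamF1M
namespace SokamF1S
end SokamF1S
namespace SokamPG
end SokamPG
namespace SokamU
end SokamU
/-!
# `N = 2`, `outR`: the first lump at the far end `ζ = -z`
-/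

set_option autoImplicit false

open Complex MeasureTheory Set SokamU SokamPG SokamF1 SokamF1S SokamF1M SokamF1G SokamF1B

namespace SokamV3

theorem outR_lump {x n w D z κ l q1 E cm K Lp Q : ℝ} (hx : 112 / 25 ≤ x) (hw : 0 < w) (hQ : 0 ≤ Q)
    (hD0 : 0 < D) (hc : (1 + x)⁻¹ ≤ cm) (hcm : cm < 1) (hE : Real.exp (137 / 25 * cm) ≤ E)
    (hq1 : 0 < q1) (hq : q1 * x ≤ 473 / 1000 * x - 134 / 1000 * |n|)
    (hm : tm (-1) x n ^ (2 : ℕ) ≤ 1 * ta x ^ (2 : ℕ))
    (hκ1 : 1 < κ) (hκ : κ * E ≤ (κ - 1) * (w * (q1 * x))) (hD : D ≤ 2 * l * (q1 * x))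
    (hK : κ * (300304 / 10000) * 1 * E ≤ K * (4 * q1 * (1 - cm)))
    (hF : Lp ≤ w * ((1 + x)⁻¹ * (194166 / 10000 - 137 / 25 * z + 424429 / 10000 * (1 + x)⁻¹ -
      (650039 / 10000 + K) * (1 + x)⁻¹ ^ (2 : ℕ)) - (2 * Real.pi - z) * n) - 137 / 50 * (1 + x)⁻¹)
    (hL : κ * l * Real.exp (-(2 * Lp)) ≤ Q ^ (2 : ℕ)) :
    tP (-1) x n w * Real.exp (w * (ta x - n) * z) ≤ Q * √(2 * Real.pi / (w * D)) := by
  have ht := ta_eq hx
  set A := w * (ta x - n) * z with hA
  have hEA : Real.exp (-A) * Real.exp A = 1 := by rw [← Real.exp_add]; simp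
  have h1 := lump_neg (κ := κ) (l := l) (q1 := q1) (E := E) (M := 1) (cm := cm) (K := K)
    (L := Lp + A) (Q := Q * Real.exp (-A)) hx hw (by (clear * - hQ; positivity)) hD0 hc hcm hE hq1 hq hm
    (by norm_num) hκ1 hκ hD hK ?_ ?_
  · calc tP (-1) x n w * Real.exp A ≤ Q * Real.exp (-A) * √(2 * Real.pi / (w * D)) * Real.exp A := by
          gcongr
      _ = Q * √(2 * Real.pi / (w * D)) * (Real.exp (-A) * Real.exp A) := by ring
      _ = Q * √(2 * Real.pi / (w * D)) := by rw [hEA, mul_one]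
  · have e : w * ((1 + x)⁻¹ * (194166 / 10000 + 424429 / 10000 * (1 + x)⁻¹ -
        (650039 / 10000 + K) * (1 + x)⁻¹ ^ (2 : ℕ)) - 2 * Real.pi * n) - A =
        w * ((1 + x)⁻¹ * (194166 / 10000 - 137 / 25 * z + 424429 / 10000 * (1 + x)⁻¹ -
        (650039 / 10000 + K) * (1 + x)⁻¹ ^ (2 : ℕ)) - (2 * Real.pi - z) * n) := by
      rw [hA, ht]
      ring
    linarith only [hF, e]
  · have e : Real.exp (-(2 * (Lp + A))) = Real.exp (-(2 * Lp)) * Real.exp (-A) ^ (2 : ℕ) := by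
      rw [← Real.exp_nat_mul, ← Real.exp_add]
      congr 1
      push_cast
      ring
    rw [e, mul_pow]
    have := mul_le_mul_of_nonneg_right hL (sq_nonneg (Real.exp (-A)))
    linarith only [this]

theorem outR_red {w w0 c C n N k3 cm L A0 B0 z : ℝ} (hw : w0 ≤ w) (hw0 : 1 ≤ w0) (hC0 : 0 < C)
    (hC : C ≤ c) (hcm : c ≤ cm) (hk0 : 0 ≤ k3) (hk : 3 / 2 * k3 * cm ≤ 424429 / 10000) (hN : 0 ≤ N)
    (hn : n ≤ N) (hA : A0 ≤ 194166 / 10000 - 137 / 25 * z) (hA0 : 137 / 50 ≤ A0)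
    (hz : z ≤ 2) (hB : 2 * Real.pi - z ≤ B0) (hL : 0 ≤ L)
    (h : L ≤ w0 * (C * (A0 + 424429 / 10000 * C - k3 * C ^ (2 : ℕ)) - B0 * N) - 137 / 50 * C) :
    L ≤ w * (c * (194166 / 10000 - 137 / 25 * z + 424429 / 10000 * c - k3 * c ^ (2 : ℕ)) -
      (2 * Real.pi - z) * n) - 137 / 50 * c := by
  have hpi : 3 ≤ Real.pi := Real.pi_gt_three.le
  have h1 : (2 * Real.pi - z) * n ≤ B0 * N := by
    have : 0 ≤ 2 * Real.pi - z := by linarith only [hz, hpi]
    calc (2 * Real.pi - z) * n ≤ (2 * Real.pi - z) * N := by gcongr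
      _ ≤ B0 * N := by gcongr
  set X0 := C * (A0 + 424429 / 10000 * C - k3 * C ^ (2 : ℕ)) - B0 * N with hX0
  set X := c * (194166 / 10000 - 137 / 25 * z + 424429 / 10000 * c - k3 * c ^ (2 : ℕ)) -
      (2 * Real.pi - z) * n with hX
  have hc0 : 0 < c := lt_of_lt_of_le hC0 hC
  have h2 : A0 * (c - C) ≤ X - X0 := by
    have h3 : 0 ≤ (c - C) * (424429 / 10000 * (c + C) - k3 * (c ^ (2 : ℕ) + c * C + C ^ (2 : ℕ))) := by
      have h4 : 0 ≤ c - C := by linarith only [hC]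
      have h5 : 0 ≤ c + C := by linarith only [hC0, hC]
      have h6 : c ^ (2 : ℕ) + c * C + C ^ (2 : ℕ) ≤ 3 / 2 * cm * (c + C) := by
        have h7 : c ^ (2 : ℕ) + c * C + C ^ (2 : ℕ) ≤ 3 / 2 * c * (c + C) := by nlinarith only [hC0, hC]
        have h8 : 3 / 2 * c * (c + C) ≤ 3 / 2 * cm * (c + C) := by gcongr
        linarith only [h7, h8]
      have h7 : k3 * (c ^ (2 : ℕ) + c * C + C ^ (2 : ℕ)) ≤ k3 * (3 / 2 * cm * (c + C)) := by gcongr
      have h8 : k3 * (3 / 2 * cm * (c + C)) ≤ 424429 / 10000 * (c + C) := by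
        calc k3 * (3 / 2 * cm * (c + C)) = 3 / 2 * k3 * cm * (c + C) := by ring
          _ ≤ 424429 / 10000 * (c + C) := by gcongr
      exact mul_nonneg h4 (by linarith only [h7, h8])
    have h9 : 0 ≤ c * (194166 / 10000 - 137 / 25 * z - A0) := mul_nonneg hc0.le (by linarith only [hA])
    have e : X - X0 = A0 * (c - C) + c * (194166 / 10000 - 137 / 25 * z - A0) +
        (c - C) * (424429 / 10000 * (c + C) - k3 * (c ^ (2 : ℕ) + c * C + C ^ (2 : ℕ))) +
        (B0 * N - (2 * Real.pi - z) * n) := by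
      rw [hX, hX0]
      ring
    linarith only [h1, h3, h9, e]
  have hcC : 0 ≤ c - C := by linarith only [hC]
  have h3 : 0 < w0 * X0 := by linarith only [hC0, hL, h]
  have h4 : 0 < X0 := by
    by_contra h5
    push Not at h5
    have := mul_nonpos_of_nonneg_of_nonpos (by linarith : 0 ≤ w0) h5
    linarith only [h3, this]
  have h5 : 0 ≤ X := by
    have : 0 ≤ A0 * (c - C) := mul_nonneg (by linarith only [hA0]) hcC
    linarith only [h2, h4, this]
  have h6 : w0 * X ≤ w * X := mul_le_mul_of_nonneg_right hw h5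
  have h7 : w0 * (A0 * (c - C)) ≤ w0 * (X - X0) :=
    mul_le_mul_of_nonneg_left h2 (by linarith only [hw0])
  have h8 : 1 * (137 / 50 * (c - C)) ≤ w0 * (A0 * (c - C)) := by gcongr
  linarith only [h, h6, h7, h8]

theorem outR_pi : (31415926 / 10000000 : ℝ) ≤ Real.pi ∧ Real.pi ≤ 31415927 / 10000000 := by
  have h1 := Real.pi_gt_d20
  have h2 := Real.pi_lt_d20
  norm_num at h1 h2 ⊢
  constructor <;> linarith

/-- class C -/
theorem outR_lC {x n ρ w D z : ℝ} (hρ : 377 / 50 ≤ ρ) (h1 : ρ + 2071 / 1000 ≤ x)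
    (h2 : x ≤ ρ + 421 / 200) (hn0 : 0 ≤ n) (hn : Real.exp n ≤ 1 + 421 / 200 / ρ)
    (hw1 : 6839 / 12500 * (ρ + 1 / ρ) ≤ w) (hw2 : 499 / 10 / ρ ≤ w)
    (hz1 : 10367 / 10000 ≤ z) (hz2 : z ≤ 648 / 625)
    (hD0 : 0 < D) (hD : D ^ (2 : ℕ) ≤ 1 + x ^ (2 : ℕ)) :
    tP (-1) x n w * Real.exp (w * (ta x - n) * z) ≤ 53 / 125 * √(2 * Real.pi / (w * D)) := by
  have hρ0 : 0 < ρ := by linarith only [hρ]
  have hw0 : 0 < w := lt_of_lt_of_le (by positivity) hw2
  have hwρ : 499 / 10 ≤ w * ρ := by rwa [div_le_iff₀ hρ0] at hw2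
  obtain ⟨pi1, pi2⟩ := outR_pi
  have hnl : n ≤ 421 / 200 / ρ - (421 / 200 / ρ) ^ (2 : ℕ) / 2 + (421 / 200 / ρ) ^ (3 : ℕ) / 3 :=
    le_log3 (by (clear * - hρ; positivity)) hn
  have hn1 : n ≤ 99 / 400 := by
    have h3 : n ≤ 421 / 200 / (377 / 50) - (421 / 200 / (377 / 50)) ^ (2 : ℕ) / 2 +
        (421 / 200 / (377 / 50)) ^ (3 : ℕ) / 3 := by
      refine le_log3 (by norm_num) (hn.trans ?_)
      gcongr
    refine h3.trans ?_
    norm_num
  have hna : |n| = n := abs_of_nonneg hn0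
  have hx : 9611 / 1000 ≤ x := by linarith only [hρ, h1]
  have hq : 939 / 2000 * x ≤ 473 / 1000 * x - 134 / 1000 * |n| := by rw [hna]; linarith only [hn1, hx]
  have hx1 : 0 < 1 + x := by linarith only [hx]
  have hcm : (1 + x)⁻¹ ≤ 943 / 10000 := by
    rw [inv_le_comm₀ hx1 (by norm_num)]
    norm_num
    linarith only [hx]
  have hC : (ρ + 621 / 200)⁻¹ ≤ (1 + x)⁻¹ := by
    apply inv_anti₀ hx1
    linarith only [h2]
  refine outR_lump (κ := 431 / 400) (l := 2677 / 2500) (q1 := 939 / 2000) (E := 1677 / 1000)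
    (cm := 943 / 10000) (K := 319161 / 10000) (Lp := 93 / 100) (by linarith only [hx])
    hw0 (by norm_num) hD0 hcm (by norm_num) ?_ (by norm_num) hq
    (tm_neg_sq (by linarith only [hx]) hn0 (by linarith only [hn1])) (by norm_num) ?_ ?_ (by norm_num) ?_ ?_
  · refine (exp_five (by norm_num) (by norm_num)).trans ?_
    norm_num
  · have h5 : w * ρ ≤ w * x := by
      have : ρ ≤ x := by linarith only [h1]
      gcongr
    norm_num at h5 ⊢
    linarith only [hwρ, h5]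
  · refine (t2c_D (x0 := 9611 / 1000) (T := 2 * (2677 / 2500) * (939 / 2000)) (by norm_num) hx
      (by norm_num) hD (by norm_num)).trans (le_of_eq (by ring))
  · have e3 : (650039 / 10000 + 319161 / 10000 : ℝ) = 2423 / 25 := by norm_num
    rw [e3]
    refine outR_red (w0 := 6839 / 12500 * (ρ + 1 / ρ)) (A0 := 137349 / 10000) (B0 := 524649 / 100000) hw1 ?_
      (by (clear * - hρ; positivity)) hC hcm (by norm_num) (by norm_num) (hn0.trans hnl) hnl (by linarith only [hz2])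
      (by norm_num) (by linarith only [hz2]) (by linarith only [hz1, pi2]) (by norm_num) (evR_C hρ)
    have : 0 < 1 / ρ := by positivity
    linarith only [hρ, this]
  · have h6 := exp_neg_le_of (k := 1) (t := 43 / 50) (L := 93 / 100)
      (A := 6423 / 1000) (by norm_num) (by norm_num) (by norm_num) (by norm_num)
    calc 431 / 400 * (2677 / 2500) * Real.exp (-(2 * (93 / 100))) ≤
        431 / 400 * (2677 / 2500) * (1 / (6423 / 1000)) := by gcongr
      _ ≤ (53 / 125) ^ (2 : ℕ) := by norm_num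

/-- class D -/
theorem outR_lD {x n ρ w D z : ℝ} (hρ : 347 / 50 ≤ ρ) (h1 : ρ + 413 / 200 ≤ x)
    (h2 : x ≤ ρ + 421 / 200) (hn0 : 0 ≤ n) (hn : Real.exp n ≤ 1 + 421 / 200 / ρ)
    (hw1 : 43061 / 50000 * (ρ + 1 / ρ) ≤ w) (hw2 : 499 / 10 / ρ ≤ w)
    (hz1 : 10367 / 10000 ≤ z) (hz2 : z ≤ 648 / 625)
    (hD0 : 0 < D) (hD : D ^ (2 : ℕ) ≤ 1 + x ^ (2 : ℕ)) :
    tP (-1) x n w * Real.exp (w * (ta x - n) * z) ≤ 319 / 1250 * √(2 * Real.pi / (w * D)) := by
  have hρ0 : 0 < ρ := by linarith only [hρ]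
  have hw0 : 0 < w := lt_of_lt_of_le (by positivity) hw2
  have hwρ : 499 / 10 ≤ w * ρ := by rwa [div_le_iff₀ hρ0] at hw2
  obtain ⟨pi1, pi2⟩ := outR_pi
  have hnl : n ≤ 421 / 200 / ρ - (421 / 200 / ρ) ^ (2 : ℕ) / 2 + (421 / 200 / ρ) ^ (3 : ℕ) / 3 :=
    le_log3 (by (clear * - hρ; positivity)) hn
  have hn1 : n ≤ 2667 / 10000 := by
    have h3 : n ≤ 421 / 200 / (347 / 50) - (421 / 200 / (347 / 50)) ^ (2 : ℕ) / 2 +
        (421 / 200 / (347 / 50)) ^ (3 : ℕ) / 3 := by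
      refine le_log3 (by norm_num) (hn.trans ?_)
      gcongr
    refine h3.trans ?_
    norm_num
  have hna : |n| = n := abs_of_nonneg hn0
  have hx : 1801 / 200 ≤ x := by linarith only [hρ, h1]
  have hq : 469 / 1000 * x ≤ 473 / 1000 * x - 134 / 1000 * |n| := by rw [hna]; linarith only [hn1, hx]
  have hx1 : 0 < 1 + x := by linarith only [hx]
  have hcm : (1 + x)⁻¹ ≤ 1 / 10 := by
    rw [inv_le_comm₀ hx1 (by norm_num)]
    norm_num
    linarith only [hx]
  have hC : (ρ + 621 / 200)⁻¹ ≤ (1 + x)⁻¹ := by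
    apply inv_anti₀ hx1
    linarith only [h2]
  refine outR_lump (κ := 27 / 25) (l := 1341 / 1250) (q1 := 469 / 1000) (E := 173 / 100)
    (cm := 1 / 10) (K := 332461 / 10000) (Lp := 36 / 25) (by linarith only [hx])
    hw0 (by norm_num) hD0 hcm (by norm_num) ?_ (by norm_num) hq
    (tm_neg_sq (by linarith only [hx]) hn0 (by linarith only [hn1])) (by norm_num) ?_ ?_ (by norm_num) ?_ ?_
  · refine (exp_five (by norm_num) (by norm_num)).trans ?_
    norm_num
  · have h5 : w * ρ ≤ w * x := by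
      have : ρ ≤ x := by linarith only [h1]
      gcongr
    norm_num at h5 ⊢
    linarith only [hwρ, h5]
  · refine (t2c_D (x0 := 1801 / 200) (T := 2 * (1341 / 1250) * (469 / 1000)) (by norm_num) hx
      (by norm_num) hD (by norm_num)).trans (le_of_eq (by ring))
  · have e3 : (650039 / 10000 + 332461 / 10000 : ℝ) = 393 / 4 := by norm_num
    rw [e3]
    refine outR_red (w0 := 43061 / 50000 * (ρ + 1 / ρ)) (A0 := 137349 / 10000) (B0 := 524649 / 100000) hw1 ?_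
      (by (clear * - hρ; positivity)) hC hcm (by norm_num) (by norm_num) (hn0.trans hnl) hnl (by linarith only [hz2])
      (by norm_num) (by linarith only [hz2]) (by linarith only [hz1, pi2]) (by norm_num) (evR_D hρ)
    have : 0 < 1 / ρ := by positivity
    linarith only [hρ, this]
  · have h6 := exp_neg_le_of (k := 2) (t := 22 / 25) (L := 36 / 25)
      (A := 1781 / 100) (by norm_num) (by norm_num) (by norm_num) (by norm_num)
    calc 27 / 25 * (1341 / 1250) * Real.exp (-(2 * (36 / 25))) ≤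
        27 / 25 * (1341 / 1250) * (1 / (1781 / 100)) := by gcongr
      _ ≤ (319 / 1250) ^ (2 : ℕ) := by norm_num

/-- class B -/
theorem outR_lB {x n ρ w D z : ℝ} (hρ : 97 / 20 ≤ ρ) (h1 : ρ + 246 / 125 ≤ x)
    (h2 : x ≤ ρ + 2043 / 1000) (hn0 : 0 ≤ n) (hn : Real.exp n ≤ 1 + 2043 / 1000 / ρ)
    (hw1 : 2533 / 2500 * (ρ + 1 / ρ) ≤ w) (hw2 : 499 / 10 / ρ ≤ w)
    (hz1 : 2199 / 2000 ≤ z) (hz2 : z ≤ 2749 / 2500)
    (hD0 : 0 < D) (hD : D ^ (2 : ℕ) ≤ 1 + x ^ (2 : ℕ)) :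
    tP (-1) x n w * Real.exp (w * (ta x - n) * z) ≤ 363 / 1000 * √(2 * Real.pi / (w * D)) := by
  have hρ0 : 0 < ρ := by linarith only [hρ]
  have hw0 : 0 < w := lt_of_lt_of_le (by positivity) hw2
  have hwρ : 499 / 10 ≤ w * ρ := by rwa [div_le_iff₀ hρ0] at hw2
  obtain ⟨pi1, pi2⟩ := outR_pi
  have hnl : n ≤ 2043 / 1000 / ρ - (2043 / 1000 / ρ) ^ (2 : ℕ) / 2 + (2043 / 1000 / ρ) ^ (3 : ℕ) / 3 :=
    le_log3 (by (clear * - hρ; positivity)) hn
  have hn1 : n ≤ 143 / 400 := by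
    have h3 : n ≤ 2043 / 1000 / (97 / 20) - (2043 / 1000 / (97 / 20)) ^ (2 : ℕ) / 2 +
        (2043 / 1000 / (97 / 20)) ^ (3 : ℕ) / 3 := by
      refine le_log3 (by norm_num) (hn.trans ?_)
      gcongr
    refine h3.trans ?_
    norm_num
  have hna : |n| = n := abs_of_nonneg hn0
  have hx : 3409 / 500 ≤ x := by linarith only [hρ, h1]
  have hq : 4659 / 10000 * x ≤ 473 / 1000 * x - 134 / 1000 * |n| := by rw [hna]; linarith only [hn1, hx]
  have hx1 : 0 < 1 + x := by linarith only [hx]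
  have hcm : (1 + x)⁻¹ ≤ 16 / 125 := by
    rw [inv_le_comm₀ hx1 (by norm_num)]
    norm_num
    linarith only [hx]
  have hC : (ρ + 3043 / 1000)⁻¹ ≤ (1 + x)⁻¹ := by
    apply inv_anti₀ hx1
    linarith only [h2]
  refine outR_lump (κ := 1369 / 1250) (l := 678 / 625) (q1 := 4659 / 10000) (E := 2017 / 1000)
    (cm := 16 / 125) (K := 408361 / 10000) (Lp := 11 / 10) (by linarith only [hx])
    hw0 (by norm_num) hD0 hcm (by norm_num) ?_ (by norm_num) hq
    (tm_neg_sq (by linarith only [hx]) hn0 (by linarith only [hn1])) (by norm_num) ?_ ?_ (by norm_num) ?_ ?_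
  · refine (exp_five (by norm_num) (by norm_num)).trans ?_
    norm_num
  · have h5 : w * ρ ≤ w * x := by
      have : ρ ≤ x := by linarith only [h1]
      gcongr
    norm_num at h5 ⊢
    linarith only [hwρ, h5]
  · refine (t2c_D (x0 := 3409 / 500) (T := 2 * (678 / 625) * (4659 / 10000)) (by norm_num) hx
      (by norm_num) hD (by norm_num)).trans (le_of_eq (by ring))
  · have e3 : (650039 / 10000 + 408361 / 10000 : ℝ) = 2646 / 25 := by norm_num
    rw [e3]
    refine outR_red (w0 := 2533 / 2500 * (ρ + 1 / ρ)) (A0 := 133907 / 10000) (B0 := 518369 / 100000) hw1 ?_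
      (by (clear * - hρ; positivity)) hC hcm (by norm_num) (by norm_num) (hn0.trans hnl) hnl (by linarith only [hz2])
      (by norm_num) (by linarith only [hz2]) (by linarith only [hz1, pi2]) (by norm_num) (evR_B hρ)
    have : 0 < 1 / ρ := by positivity
    linarith only [hρ, this]
  · have h6 := exp_neg_le_of (k := 2) (t := 1 / 5) (L := 11 / 10)
      (A := 1128 / 125) (by norm_num) (by norm_num) (by norm_num) (by norm_num)
    calc 1369 / 1250 * (678 / 625) * Real.exp (-(2 * (11 / 10))) ≤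
        1369 / 1250 * (678 / 625) * (1 / (1128 / 125)) := by gcongr
      _ ≤ (363 / 1000) ^ (2 : ℕ) := by norm_num

/-- class A -/
theorem outR_lA {x n ρ w D z : ℝ} (hρ : 16 / 5 ≤ ρ) (h1 : ρ + 433 / 250 ≤ x)
    (h2 : x ≤ ρ + 377 / 200) (hn0 : 0 ≤ n) (hn : Real.exp n ≤ 1 + 377 / 200 / ρ)
    (hw1 : 2533 / 1250 * (ρ + 1 / ρ) ≤ w) (hw2 : 499 / 10 / ρ ≤ w)
    (hz1 : 6283 / 5000 ≤ z) (hz2 : z ≤ 12567 / 10000)
    (hD0 : 0 < D) (hD : D ^ (2 : ℕ) ≤ 1 + x ^ (2 : ℕ)) :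
    tP (-1) x n w * Real.exp (w * (ta x - n) * z) ≤ 3719 / 10000 * √(2 * Real.pi / (w * D)) := by
  have hρ0 : 0 < ρ := by linarith only [hρ]
  have hw0 : 0 < w := lt_of_lt_of_le (by positivity) hw2
  have hwρ : 499 / 10 ≤ w * ρ := by rwa [div_le_iff₀ hρ0] at hw2
  obtain ⟨pi1, pi2⟩ := outR_pi
  have hnl : n ≤ 377 / 200 / ρ - (377 / 200 / ρ) ^ (2 : ℕ) / 2 + (377 / 200 / ρ) ^ (3 : ℕ) / 3 :=
    le_log3 (by (clear * - hρ; positivity)) hn
  have hn1 : n ≤ 4837 / 10000 := by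
    have h3 : n ≤ 377 / 200 / (16 / 5) - (377 / 200 / (16 / 5)) ^ (2 : ℕ) / 2 +
        (377 / 200 / (16 / 5)) ^ (3 : ℕ) / 3 := by
      refine le_log3 (by norm_num) (hn.trans ?_)
      gcongr
    refine h3.trans ?_
    norm_num
  have hna : |n| = n := abs_of_nonneg hn0
  have hx : 1233 / 250 ≤ x := by linarith only [hρ, h1]
  have hq : 2299 / 5000 * x ≤ 473 / 1000 * x - 134 / 1000 * |n| := by rw [hna]; linarith only [hn1, hx]
  have hx1 : 0 < 1 + x := by linarith only [hx]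
  have hcm : (1 + x)⁻¹ ≤ 843 / 5000 := by
    rw [inv_le_comm₀ hx1 (by norm_num)]
    norm_num
    linarith only [hx]
  have hC : (ρ + 577 / 200)⁻¹ ≤ (1 + x)⁻¹ := by
    apply inv_anti₀ hx1
    linarith only [h2]
  refine outR_lump (κ := 2809 / 2500) (l := 11097 / 10000) (q1 := 2299 / 5000) (E := 25193 / 10000)
    (cm := 843 / 5000) (K := 555961 / 10000) (Lp := 11 / 10) (by linarith only [hx])
    hw0 (by norm_num) hD0 hcm (by norm_num) ?_ (by norm_num) hq
    (tm_neg_sq (by linarith only [hx]) hn0 (by linarith only [hn1])) (by norm_num) ?_ ?_ (by norm_num) ?_ ?_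
  · refine (exp_five (by norm_num) (by norm_num)).trans ?_
    norm_num
  · have h5 : w * ρ ≤ w * x := by
      have : ρ ≤ x := by linarith only [h1]
      gcongr
    norm_num at h5 ⊢
    linarith only [hwρ, h5]
  · refine (t2c_D (x0 := 1233 / 250) (T := 2 * (11097 / 10000) * (2299 / 5000)) (by norm_num) hx
      (by norm_num) hD (by norm_num)).trans (le_of_eq (by ring))
  · have e3 : (650039 / 10000 + 555961 / 10000 : ℝ) = 603 / 5 := by norm_num
    rw [e3]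
    refine outR_red (w0 := 2533 / 1250 * (ρ + 1 / ρ)) (A0 := 62649 / 5000) (B0 := 502659 / 100000) hw1 ?_
      (by (clear * - hρ; positivity)) hC hcm (by norm_num) (by norm_num) (hn0.trans hnl) hnl (by linarith only [hz2])
      (by norm_num) (by linarith only [hz2]) (by linarith only [hz1, pi2]) (by norm_num) (evR_A hρ)
    have : 0 < 1 / ρ := by positivity
    linarith only [hρ, this]
  · have h6 := exp_neg_le_of (k := 2) (t := 1 / 5) (L := 11 / 10)
      (A := 1128 / 125) (by norm_num) (by norm_num) (by norm_num) (by norm_num)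
    calc 2809 / 2500 * (11097 / 10000) * Real.exp (-(2 * (11 / 10))) ≤
        2809 / 2500 * (11097 / 10000) * (1 / (1128 / 125)) := by gcongr
      _ ≤ (3719 / 10000) ^ (2 : ℕ) := by norm_num

end SokamV3

end
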