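import Pool.Agent.Lib_MP_af4de1_zy.Z97
import Pool.Agent.Lib_MP_af4de1_zy.Z155
import Pool.Agent.Lib_MP_af4de1_zy.Z158

/-! ### Lib_MP_af4de1_v3.OutR3 -/

section
namespace SokamF1
end SokamF1
namespace SokamF1B
end SokamF1B
namespace SokamF1G
end SokamF1G
namespace SokamF1M
end SokamF1M
namespace SokamF1S
end SokamF1S
namespace SokamPG
end SokamPG
namespace SokamU
end SokamU
namespace SokamV3F
end SokamV3F
/-!
# `N = 2`, `outR`: the core `|s| ≤ 3/2`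

`c = 1/(1+x)`, `y = -n`, `n (1+x) ≤ 286/100`, `x ≥ 4932/1000`.
-/

set_option autoImplicit false

open MeasureTheory Set SokamU SokamPG SokamF1 SokamF1S SokamF1M SokamF1G SokamF1B SokamV3F

namespace SokamV3

/-! ### heights -/

theorem outR_cpos {x n s c κ : ℝ} (hc0 : 0 ≤ c) (hc1 : c ≤ 1686 / 10000) (hxc : x * c = 1 - c)
    (hn0 : 0 ≤ n) (hn : n ≤ 286 / 100 * c) (h0 : 0 ≤ s) (h1 : s ≤ 3 / 2) (hκ0 : 0 ≤ κ)
    (h : 0 ≤ c ^ (2 : ℕ) + (1 - c) * ((1 / 2 - s ^ (2 : ℕ) / 24) - c ^ (2 : ℕ) / 2 - 3 / 10 * c ^ (3 : ℕ)) -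
      286 / 100 * c ^ (3 : ℕ) * (1 + 3 / 2 * c) - κ * (1 - c) / 2) (hcp : 0 < c) :
    κ * (x / 2) * s ^ (2 : ℕ) ≤ Ha x (-n) (c * s) s := by
  set b := c * s with hb
  have hb0 : 0 ≤ b := mul_nonneg hc0 h0
  have hb1 : b ≤ 1686 / 10000 * (3 / 2) := by rw [hb]; gcongr
  have hE : Real.exp b ≤ 1 + b + b ^ (2 : ℕ) / 2 + b ^ (3 : ℕ) / 5 := by
    have := exp_five hb0 (by linarith)
    have h3 : 0 ≤ b ^ (3 : ℕ) := by positivity
    have h4 : b ^ (4 : ℕ) ≤ 1 / 3 * b ^ (3 : ℕ) := by nlinarith only [hb1, h3]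
    have h5 : b ^ (5 : ℕ) ≤ 1 / 3 * b ^ (3 : ℕ) := by nlinarith only [this, h3, h4]
    linarith
  set E := 1 + b + b ^ (2 : ℕ) / 2 + b ^ (3 : ℕ) / 5 with hEd
  have hs2 : s ^ (2 : ℕ) ≤ 9 / 4 := by nlinarith only [h0, h1]
  have hC4 : 0 ≤ 1 - s ^ (2 : ℕ) / 2 + s ^ (4 : ℕ) / 24 := C4_nonneg h0 h1
  have hC41 : 1 - s ^ (2 : ℕ) / 2 + s ^ (4 : ℕ) / 24 ≤ 1 := by nlinarith only [hs2]
  have e1 : Real.exp b * Real.cos s ≤ E * (1 - s ^ (2 : ℕ) / 2 + s ^ (4 : ℕ) / 24) := ec_le h0 h1 hE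
  have e2 : Real.exp b * Real.sin s ≤ E * s := by
    have := sin_le1 h0
    have h4 : Real.exp b * Real.sin s ≤ Real.exp b * s :=
      mul_le_mul_of_nonneg_left this (Real.exp_pos _).le
    exact h4.trans (mul_le_mul_of_nonneg_right hE h0)
  -- main term
  have m1 : (1 - c) * (s ^ (2 : ℕ) * ((1 / 2 - s ^ (2 : ℕ) / 24) - c ^ (2 : ℕ) / 2 - 3 / 10 * c ^ (3 : ℕ))) ≤
      (1 - c) * (1 + b - Real.exp b * Real.cos s) := by
    refine mul_le_mul_of_nonneg_left ?_ (by linarith)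
    have h5 : E * (1 - s ^ (2 : ℕ) / 2 + s ^ (4 : ℕ) / 24) ≤ (1 + b) * (1 - s ^ (2 : ℕ) / 2 + s ^ (4 : ℕ) / 24) +
        (b ^ (2 : ℕ) / 2 + b ^ (3 : ℕ) / 5) := by
      have h6 : (b ^ (2 : ℕ) / 2 + b ^ (3 : ℕ) / 5) * (1 - s ^ (2 : ℕ) / 2 + s ^ (4 : ℕ) / 24) ≤
          (b ^ (2 : ℕ) / 2 + b ^ (3 : ℕ) / 5) * 1 := by gcongr
      rw [hEd]
      linarith
    have h7 : 0 ≤ b * (s ^ (2 : ℕ) / 2 - s ^ (4 : ℕ) / 24) := by
      have : 0 ≤ s ^ (2 : ℕ) / 2 - s ^ (4 : ℕ) / 24 := by linarith only [hC41]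
      positivity
    have h8 : b ^ (3 : ℕ) / 5 ≤ 3 / 10 * c ^ (3 : ℕ) * s ^ (2 : ℕ) := by
      have : b ^ (3 : ℕ) = c ^ (3 : ℕ) * s ^ (2 : ℕ) * s := by rw [hb]; ring
      rw [this]
      have h9 : 0 ≤ c ^ (3 : ℕ) * s ^ (2 : ℕ) := by positivity
      nlinarith only [h1, h9]
    have h9 : b ^ (2 : ℕ) = c ^ (2 : ℕ) * s ^ (2 : ℕ) := by rw [hb]; ring
    rw [h9] at h5
    linarith
  have m2 : n * c * (Real.exp b * Real.sin s - s) ≤ 286 / 100 * c ^ (3 : ℕ) * (1 + 3 / 2 * c) * s ^ (2 : ℕ) := by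
    have h5 : Real.exp b * Real.sin s - s ≤ (b + b ^ (2 : ℕ)) * s := by
      have h6 : E - 1 ≤ b + b ^ (2 : ℕ) := by
        rw [hEd]
        nlinarith only [hb1]
      have := mul_le_mul_of_nonneg_right h6 h0
      linarith
    have hnc : 0 ≤ n * c := by positivity
    calc n * c * (Real.exp b * Real.sin s - s) ≤ n * c * ((b + b ^ (2 : ℕ)) * s) := by gcongr
      _ = n * c ^ (2 : ℕ) * (1 + c * s) * s ^ (2 : ℕ) := by rw [hb]; ring
      _ ≤ (286 / 100 * c) * c ^ (2 : ℕ) * (1 + c * (3 / 2)) * s ^ (2 : ℕ) := by gcongr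
      _ = _ := by ring
  have m3 := mul_nonneg h (sq_nonneg s)
  have key : c * (κ * (x / 2) * s ^ (2 : ℕ)) ≤ c * Ha x (-n) (c * s) s := by
    unfold Ha
    rw [← hb]
    have e3 : c * (κ * (x / 2) * s ^ (2 : ℕ)) = κ * (1 - c) / 2 * s ^ (2 : ℕ) := by rw [← hxc]; ring
    have e4 : c * (b * s - x * (Real.exp b * Real.cos s - 1 - b) +
        -n * (Real.exp b * Real.sin s - s)) = c ^ (2 : ℕ) * s ^ (2 : ℕ) +
        (1 - c) * (1 + b - Real.exp b * Real.cos s) - n * c * (Real.exp b * Real.sin s - s) := by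
      rw [← hxc, hb]
      ring
    rw [e3, e4]
    linarith
  exact le_of_mul_le_mul_left key hcp

theorem outR_cneg {x n u c κ U : ℝ} (hc0 : 0 ≤ c) (hc1 : c ≤ 1686 / 10000) (hxc : x * c = 1 - c)
    (hn0 : 0 ≤ n) (hn : n ≤ 286 / 100 * c) (h0 : 0 ≤ u) (h1 : u ≤ U) (hU : U ≤ 3 / 2)
    (h : 0 ≤ c ^ (2 : ℕ) + (1 - c) * ((1 - c * U) * (1 / 2 - U ^ (2 : ℕ) / 24) - c ^ (2 : ℕ) / 2) -
      286 / 100 * c ^ (2 : ℕ) * (c + U / 6) - κ * (1 - c) / 2) (hcp : 0 < c) :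
    κ * (x / 2) * u ^ (2 : ℕ) ≤ Ha x (-n) (-(c * u)) (-u) := by
  set b := c * u with hb
  have hb0 : 0 ≤ b := mul_nonneg hc0 h0
  have hu1 : u ≤ 3 / 2 := h1.trans hU
  have hU0 : 0 ≤ U := h0.trans h1
  have hb1 : b ≤ 1686 / 10000 * (3 / 2) := by rw [hb]; gcongr
  have hu2 : u ^ (2 : ℕ) ≤ 9 / 4 := by nlinarith only [hcp, hb0, hu1]
  have hC4 : 0 ≤ 1 - u ^ (2 : ℕ) / 2 + u ^ (4 : ℕ) / 24 := C4_nonneg h0 hu1
  have hC41 : 1 - u ^ (2 : ℕ) / 2 + u ^ (4 : ℕ) / 24 ≤ 1 := by nlinarith only [hu2]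
  have e1 : Real.exp (-b) * Real.cos u ≤ (1 - b + b ^ (2 : ℕ) / 2) * (1 - u ^ (2 : ℕ) / 2 + u ^ (4 : ℕ) / 24) :=
    ec_le h0 hu1 (en_le2 hb0)
  have e2 : (1 - b) * (u - u ^ (3 : ℕ) / 6) ≤ Real.exp (-b) * Real.sin u := by
    refine es_ge h0 hu1 ?_ (by linarith)
    have := Real.add_one_le_exp (-b)
    linarith
  have m1 : (1 - c) * (u ^ (2 : ℕ) * ((1 - c * U) * (1 / 2 - U ^ (2 : ℕ) / 24) - c ^ (2 : ℕ) / 2)) ≤
      (1 - c) * (1 - b - Real.exp (-b) * Real.cos u) := by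
    refine mul_le_mul_of_nonneg_left ?_ (by linarith)
    have h6 : b ^ (2 : ℕ) / 2 * (1 - u ^ (2 : ℕ) / 2 + u ^ (4 : ℕ) / 24) ≤ b ^ (2 : ℕ) / 2 * 1 := by gcongr
    have h9 : b ^ (2 : ℕ) = c ^ (2 : ℕ) * u ^ (2 : ℕ) := by rw [hb]; ring
    have h7 : (1 - c * U) * (1 / 2 - U ^ (2 : ℕ) / 24) ≤ (1 - c * u) * (1 / 2 - u ^ (2 : ℕ) / 24) := by
      have h10 : 1 - c * U ≤ 1 - c * u := by
        have := mul_le_mul_of_nonneg_left h1 hc0
        linarith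
      have h11 : 1 / 2 - U ^ (2 : ℕ) / 24 ≤ 1 / 2 - u ^ (2 : ℕ) / 24 := by
        have : u ^ (2 : ℕ) ≤ U ^ (2 : ℕ) := by gcongr
        linarith
      have h12 : 0 ≤ 1 / 2 - U ^ (2 : ℕ) / 24 := by
        have : U ^ (2 : ℕ) ≤ (3 / 2) ^ (2 : ℕ) := by gcongr
        linarith
      have h13 : 0 ≤ 1 - c * u := by rw [← hb]; linarith
      gcongr
    have h8 := mul_le_mul_of_nonneg_left h7 (sq_nonneg u)
    have h14 : u ^ (2 : ℕ) * ((1 - c * u) * (1 / 2 - u ^ (2 : ℕ) / 24)) =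
        (1 - b) * (u ^ (2 : ℕ) / 2 - u ^ (4 : ℕ) / 24) := by rw [hb]; ring
    rw [h14] at h8
    have h15 : u ^ (2 : ℕ) * ((1 - c * U) * (1 / 2 - U ^ (2 : ℕ) / 24) - c ^ (2 : ℕ) / 2) =
        u ^ (2 : ℕ) * ((1 - c * U) * (1 / 2 - U ^ (2 : ℕ) / 24)) - b ^ (2 : ℕ) / 2 := by rw [h9]; ring
    rw [h15]
    linarith
  have m2 : n * c * (u - Real.exp (-b) * Real.sin u) ≤ 286 / 100 * c ^ (2 : ℕ) * (c + U / 6) * u ^ (2 : ℕ) := by
    have h5 : u - Real.exp (-b) * Real.sin u ≤ (c + U / 6) * u ^ (2 : ℕ) := by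
      have h6 : u - (1 - b) * (u - u ^ (3 : ℕ) / 6) ≤ b * u + u ^ (3 : ℕ) / 6 := by
        have : 0 ≤ b * u ^ (3 : ℕ) := by positivity
        linarith only [this]
      have h7 : u ^ (3 : ℕ) / 6 ≤ U / 6 * u ^ (2 : ℕ) := by
        have : u * u ^ (2 : ℕ) ≤ U * u ^ (2 : ℕ) := mul_le_mul_of_nonneg_right h1 (sq_nonneg u)
        linarith only [this]
      have h8 : b * u = c * u ^ (2 : ℕ) := by rw [hb]; ring
      linarith
    have hnc : 0 ≤ n * c := by positivity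
    calc n * c * (u - Real.exp (-b) * Real.sin u) ≤ n * c * ((c + U / 6) * u ^ (2 : ℕ)) := by gcongr
      _ ≤ (286 / 100 * c) * c * ((c + U / 6) * u ^ (2 : ℕ)) := by gcongr
      _ = _ := by ring
  have m3 := mul_nonneg h (sq_nonneg u)
  have key : c * (κ * (x / 2) * u ^ (2 : ℕ)) ≤ c * Ha x (-n) (-(c * u)) (-u) := by
    unfold Ha
    rw [← hb, Real.cos_neg, Real.sin_neg]
    have e3 : c * (κ * (x / 2) * u ^ (2 : ℕ)) = κ * (1 - c) / 2 * u ^ (2 : ℕ) := by rw [← hxc]; ring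
    have e4 : c * (-b * -u - x * (Real.exp (-b) * Real.cos u - 1 - -b) +
        -n * (Real.exp (-b) * -Real.sin u - -u)) = c ^ (2 : ℕ) * u ^ (2 : ℕ) +
        (1 - c) * (1 - b - Real.exp (-b) * Real.cos u) -
          n * c * (u - Real.exp (-b) * Real.sin u) := by
      rw [← hxc, hb]
      ring
    rw [e3, e4]
    linarith
  exact le_of_mul_le_mul_left key hcp

/-- the two bounds; `κ = 81/100` in general -/
theorem outR_core_H {x n s κ cm : ℝ} (hcm : cm ≤ 1686 / 10000) (hx : (1 + x)⁻¹ ≤ cm) (hx0 : 0 < x)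
    (hn0 : 0 ≤ n) (hn : n * (1 + x) ≤ 286 / 100) (hκ0 : 0 ≤ κ) (hκ1 : κ ≤ 9 / 10)
    (hκ : ∀ c : ℝ, 0 ≤ c → c ≤ cm → 0 ≤ (4765 / 10000 - κ / 2) - (8339 / 10000 - κ / 2) * c +
      4999 / 10000 * c ^ (2 : ℕ) - 236 / 100 * c ^ (3 : ℕ)) :
    (|s| ≤ 3 / 4 → κ * (x / 2) * s ^ (2 : ℕ) ≤ Ha x (-n) ((1 + x)⁻¹ * s) s) ∧
    (|s| ≤ 3 / 2 → 1 / 2 * (x / 2) * s ^ (2 : ℕ) ≤ Ha x (-n) ((1 + x)⁻¹ * s) s) := by
  have hx1 : 0 < 1 + x := by linarith
  set c := (1 + x)⁻¹ with hcd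
  have hc0 : 0 < c := inv_pos.2 hx1
  have hc1 : c ≤ 1686 / 10000 := hx.trans hcm
  have hxc : x * c = 1 - c := by
    have : (1 + x) * c = 1 := mul_inv_cancel₀ hx1.ne'
    linarith
  have hnc : n ≤ 286 / 100 * c := by
    have h1 : n * (1 + x) * c ≤ 286 / 100 * c := by gcongr
    have h2 : n * (1 + x) * c = n := by
      rw [mul_assoc, mul_inv_cancel₀ hx1.ne', mul_one]
    linarith
  have hc2 : c ^ (2 : ℕ) ≤ 1686 / 10000 * c := by nlinarith only [hc0, hc1]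
  have hc3 : c ^ (3 : ℕ) ≤ (1686 / 10000) ^ (2 : ℕ) * c := by nlinarith only [hc2]
  have hc30 : 0 ≤ c ^ (3 : ℕ) := by positivity
  have hc20 : 0 ≤ c ^ (2 : ℕ) := by positivity
  have hk := hκ c hc0.le hx
  constructor
  · intro hs
    rcases le_total 0 s with h0 | h0
    · rw [abs_of_nonneg h0] at hs
      refine outR_cpos hc0.le hc1 hxc hn0 hnc h0 (by linarith) hκ0 ?_ hc0
      have hs2 : s ^ (2 : ℕ) ≤ 9 / 16 := by nlinarith only [hs, h0]
      have h5 : (1 - c) * (1 / 2 - 9 / 16 / 24 - c ^ (2 : ℕ) / 2 - 3 / 10 * c ^ (3 : ℕ)) ≤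
          (1 - c) * (1 / 2 - s ^ (2 : ℕ) / 24 - c ^ (2 : ℕ) / 2 - 3 / 10 * c ^ (3 : ℕ)) := by
        refine mul_le_mul_of_nonneg_left ?_ (by linarith)
        linarith
      have h6 : 0 ≤ c ^ (4 : ℕ) := by positivity
      have h7 : c ^ (4 : ℕ) ≤ 1686 / 10000 * c ^ (3 : ℕ) := by nlinarith only [hc2]
      nlinarith only [hc3, hk, h5, h7]
    · have h0' : 0 ≤ -s := by linarith
      rw [abs_of_nonpos h0] at hs
      have := outR_cneg (κ := κ) hc0.le hc1 hxc hn0 hnc h0' hs (by norm_num) ?_ hc0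
      · have e : -(c * -s) = c * s := by ring
        rw [e, neg_neg] at this
        have e2 : (-s) ^ (2 : ℕ) = s ^ (2 : ℕ) := by ring
        rwa [e2] at this
      · have h6 : 0 ≤ c ^ (4 : ℕ) := by positivity
        nlinarith only [hc3, hk]
  · intro hs
    rcases le_total 0 s with h0 | h0
    · rw [abs_of_nonneg h0] at hs
      refine outR_cpos hc0.le hc1 hxc hn0 hnc h0 hs (by norm_num) ?_ hc0
      have hs2 : s ^ (2 : ℕ) ≤ 9 / 4 := by nlinarith only [hs, h0]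
      have h5 : (1 - c) * (1 / 2 - 9 / 4 / 24 - c ^ (2 : ℕ) / 2 - 3 / 10 * c ^ (3 : ℕ)) ≤
          (1 - c) * (1 / 2 - s ^ (2 : ℕ) / 24 - c ^ (2 : ℕ) / 2 - 3 / 10 * c ^ (3 : ℕ)) := by
        refine mul_le_mul_of_nonneg_left ?_ (by linarith)
        linarith
      have h6 : 0 ≤ c ^ (4 : ℕ) := by positivity
      have h7 : c ^ (4 : ℕ) ≤ 1686 / 10000 * c ^ (3 : ℕ) := by nlinarith only [hc2]
      nlinarith only [h5, h6, h7]
    · have h0' : 0 ≤ -s := by linarith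
      rw [abs_of_nonpos h0] at hs
      have := outR_cneg (κ := 1 / 2) hc0.le hc1 hxc hn0 hnc h0' hs (by norm_num) ?_ hc0
      · have e : -(c * -s) = c * s := by ring
        rw [e, neg_neg] at this
        have e2 : (-s) ^ (2 : ℕ) = s ^ (2 : ℕ) := by ring
        rwa [e2] at this
      · have h6 : 0 ≤ c ^ (4 : ℕ) := by positivity
        nlinarith only [hc3]

end SokamV3

end

/-! ### Lib_MP_af4de1_v3.OutR4 -/

section
namespace SokamF1
end SokamF1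
namespace SokamF1B
end SokamF1B
namespace SokamF1G
end SokamF1G
namespace SokamF1M
end SokamF1M
namespace SokamF1S
end SokamF1S
namespace SokamPG
end SokamPG
namespace SokamU
end SokamU
namespace SokamV3F
end SokamV3F
/-!
# `N = 2`, `outR`: the core integral
-/

set_option autoImplicit false

open MeasureTheory Set SokamU SokamPG SokamF1 SokamF1S SokamF1M SokamF1G SokamF1B SokamV3F

namespace SokamV3

theorem outR_texp {k t : ℝ} (hk : 1 / 49 ≤ k) (ht : 499 / 10 ≤ t) :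
    t * Real.exp (-(k * t)) ≤ 499 / 10 * Real.exp (-(k * (499 / 10))) := by
  have h1 : -(k * t) = -(k * (499 / 10)) + -(k * (t - 499 / 10)) := by ring
  rw [h1, Real.exp_add]
  have h2 : t ≤ 499 / 10 * Real.exp (k * (t - 499 / 10)) := by
    have h3 := Real.add_one_le_exp (k * (t - 499 / 10))
    have h4 : 1 / 49 * (t - 499 / 10) ≤ k * (t - 499 / 10) :=
      mul_le_mul_of_nonneg_right hk (by linarith only [ht])
    linarith only [ht, h3, h4]
  have h5 : Real.exp (k * (t - 499 / 10)) * Real.exp (-(k * (t - 499 / 10))) = 1 := by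
    rw [← Real.exp_add]; simp
  have h6 := Real.exp_pos (-(k * (499 / 10)))
  have h7 := Real.exp_pos (-(k * (t - 499 / 10)))
  calc t * (Real.exp (-(k * (499 / 10))) * Real.exp (-(k * (t - 499 / 10)))) ≤
        499 / 10 * Real.exp (k * (t - 499 / 10)) * (Real.exp (-(k * (499 / 10))) *
          Real.exp (-(k * (t - 499 / 10)))) := by gcongr
    _ = 499 / 10 * Real.exp (-(k * (499 / 10))) * (Real.exp (k * (t - 499 / 10)) *
          Real.exp (-(k * (t - 499 / 10)))) := by ring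
    _ = _ := by rw [h5, mul_one]

theorem outR_pc {x s : ℝ} (hx : 1 ≤ x) (hs : |s| ≤ 3 / 2) :
    pc (1 + x)⁻¹ (ts x) s = (1 + x)⁻¹ * s := by
  have hc0 : 0 < (1 + x)⁻¹ := inv_pos.2 (by linarith only [hx])
  have h1 : 3 / 2 ≤ ts x := le_min (by norm_num) (by linarith only [hx])
  have h2 := abs_le.1 hs
  have h3 : (1 + x)⁻¹ * s ≤ (1 + x)⁻¹ * ts x := mul_le_mul_of_nonneg_left (by linarith only [h1, h2]) hc0.le
  have h4 : (1 + x)⁻¹ * (-ts x) ≤ (1 + x)⁻¹ * s := mul_le_mul_of_nonneg_left (by linarith only [h1, h2]) hc0.le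
  unfold pc
  rw [min_eq_right h3, max_eq_right]
  linarith only [h4]

theorem outR_pv {c s1 s pvm : ℝ} (hpv : 1 + c ^ (2 : ℕ) ≤ pvm ^ (2 : ℕ)) (hpv0 : 0 ≤ pvm) :
    ‖pv c s1 s‖ ≤ pvm := by
  unfold pv
  split_ifs
  · refine abs_le_of_sq_le_sq' ?_ hpv0 |>.2
    have h : (1 - (c : ℂ) * Complex.I) = ((1 : ℝ) : ℂ) + ((-c : ℝ) : ℂ) * Complex.I := by
      push_cast; ring
    rw [h, Complex.sq_norm, Complex.normSq_add_mul_I]
    linarith only [hpv]
  · rw [norm_one]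
    nlinarith only [hpv, hpv0]

/-- the tail beyond `3/4` -/
theorem outR_far {w x D dl : ℝ} (hwx : 499 / 10 ≤ w * x) (hw : 0 < w) (hD0 : 0 < D)
    (hD : D ≤ dl * x) (hdl : dl ≤ 1021 / 1000) (hx : 0 < x) :
    3 * (Real.exp (3 / 2 * (1686 / 10000)) * Real.exp (-(9 / 64 * (w * x)))) ≤
      1 / 100 * √(2 * Real.pi / (w * D)) := by
  have hpi : (314 / 100 : ℝ) ≤ Real.pi := by
    have := Real.pi_gt_d2
    norm_num at this ⊢
    linarith only [this]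
  have hwD : w * D ≤ 1021 / 1000 * (w * x) := by
    have h1 : w * D ≤ w * (dl * x) := mul_le_mul_of_nonneg_left hD hw.le
    have h2 : w * (dl * x) ≤ w * (1021 / 1000 * x) := by gcongr
    linarith only [h1, h2]
  have hwD0 : 0 < w * D := by positivity
  refine abs_le_of_sq_le_sq' ?_ (by positivity) |>.2
  rw [mul_pow, mul_pow, mul_pow, Real.sq_sqrt (by positivity), ← Real.exp_nat_mul,
    ← Real.exp_nat_mul]
  have h3 : (2 * Real.pi / (1021 / 1000 * (w * x))) ≤ 2 * Real.pi / (w * D) := by gcongr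
  have h4 := outR_texp (k := 9 / 32) (by norm_num) hwx
  have e1 : ((2 : ℕ) : ℝ) * -(9 / 64 * (w * x)) = -(9 / 32 * (w * x)) := by push_cast; ring
  have e2 : ((2 : ℕ) : ℝ) * (3 / 2 * (1686 / 10000)) = 5058 / 10000 := by push_cast; norm_num
  rw [e1, e2]
  have h5 : Real.exp (5058 / 10000) ≤ 166 / 100 := by
    refine (exp_five (by norm_num) (by norm_num)).trans ?_
    norm_num
  have h6 : Real.exp (-(9 / 32 * (499 / 10))) ≤ 1 / 1240000 := by
    have := exp_neg_le_of (k := 14) (t := 34 / 1000) (L := 7017 / 1000) (A := 1240000)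
      (by norm_num) (by norm_num) (by norm_num) (by norm_num)
    refine le_trans (Real.exp_le_exp.2 ?_) this
    norm_num
  have hwx0 : 0 < w * x := by positivity
  have h7 : Real.exp (-(9 / 32 * (w * x))) ≤ 499 / 10 / 1240000 / (w * x) := by
    rw [le_div_iff₀ hwx0, mul_comm]
    refine h4.trans ?_
    linarith only [h6]
  calc 3 ^ (2 : ℕ) * (Real.exp (5058 / 10000) * Real.exp (-(9 / 32 * (w * x)))) ≤
        3 ^ (2 : ℕ) * (166 / 100 * (499 / 10 / 1240000 / (w * x))) := by gcongr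
    _ = (3 ^ (2 : ℕ) * (166 / 100 * (499 / 10 / 1240000))) / (w * x) := by ring
    _ ≤ ((1 / 100) ^ (2 : ℕ) * (2 * (314 / 100) / (1021 / 1000))) / (w * x) :=
        div_le_div_of_nonneg_right (by norm_num) hwx0.le
    _ ≤ ((1 / 100) ^ (2 : ℕ) * (2 * Real.pi / (1021 / 1000))) / (w * x) := by gcongr
    _ = (1 / 100) ^ (2 : ℕ) * (2 * Real.pi / (1021 / 1000 * (w * x))) := by field_simp
    _ ≤ (1 / 100) ^ (2 : ℕ) * (2 * Real.pi / (w * D)) := by gcongr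

/-- the core -/
theorem outR_core_int {x n z δ D κ dl sq pvm Cc cm : ℝ} {j : ℕ} (hj : j ≤ 1) (hδ : 0 < δ)
    (hx : 4932 / 1000 ≤ x) (hcm : cm ≤ 1686 / 10000) (hxc : (1 + x)⁻¹ ≤ cm) (hn0 : 0 < n)
    (hn : n * (1 + x) ≤ 286 / 100) (hκ0 : 4 / 5 ≤ κ) (hκ1 : κ ≤ 9 / 10)
    (hκ : ∀ c : ℝ, 0 ≤ c → c ≤ cm → 0 ≤ (4765 / 10000 - κ / 2) - (8339 / 10000 - κ / 2) * c +
      4999 / 10000 * c ^ (2 : ℕ) - 236 / 100 * c ^ (3 : ℕ))
    (hz : 0 ≤ z) (hwx : 499 / 10 ≤ 1 / δ * x) (hD0 : 0 < D) (hD : D ≤ dl * x)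
    (hdl : dl ≤ 1021 / 1000) (hsq : dl ≤ κ * sq ^ (2 : ℕ)) (hsq0 : 0 ≤ sq) (hpv : 1 + cm ^ (2 : ℕ) ≤ pvm ^ (2 : ℕ))
    (hpv0 : 0 ≤ pvm) (hC : pvm * (10005 / 10000 * sq + 1 / 100) ≤ Cc) (hk : n < ta x) :
    ∫ s in Icc (-(3 / 2 : ℝ)) (3 / 2), ‖pv (1 + x)⁻¹ (ts x) s‖ *
      (Real.exp (j * pc (1 + x)⁻¹ (ts x) s) *
        Real.exp (-(Hz x (-n) (-z) (pc (1 + x)⁻¹ (ts x) s) s / δ))) ≤
      Cc * Real.exp (-(1 / δ * (n - 3 / 2 * (1 + x)⁻¹) * z)) * √(2 * Real.pi / (1 / δ * D)) := by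
  have hx0 : 0 < x := by linarith only [hx]
  have hx1 : 0 < 1 + x := by linarith only [hx0]
  set c := (1 + x)⁻¹ with hcd
  have hc0 : 0 < c := inv_pos.2 hx1
  have hw : 0 < 1 / δ := by positivity
  set w := 1 / δ with hwd
  obtain ⟨ts0, ts1, ts2, ta0, ta1⟩ := t2_ts hx0.le
  have hpi := Real.pi_pos
  set μ := κ * (w * x) / 2 with hμ
  have hμ0 : 0 < μ := by positivity
  have hμ1 : 1996 / 100 ≤ μ := by
    have : 4 / 5 * (499 / 10) ≤ κ * (w * x) := by gcongr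
    rw [hμ]
    linarith only [this]
  set G0 := Real.exp (-(w * (n - 3 / 2 * c) * z)) with hG0
  have hG00 : 0 < G0 := Real.exp_pos _
  set B := Real.exp (3 / 2 * (1686 / 10000)) * Real.exp (-(9 / 64 * (w * x))) with hB
  have hB0 : 0 < B := by positivity
  have hj0 : (0 : ℝ) ≤ j := Nat.cast_nonneg j
  have hj1 : (j : ℝ) ≤ 1 := by exact_mod_cast hj
  have hpt : ∀ s ∈ Icc (-(3 / 2 : ℝ)) (3 / 2), ‖pv c (ts x) s‖ *
      (Real.exp (j * pc c (ts x) s) * Real.exp (-(Hz x (-n) (-z) (pc c (ts x) s) s / δ))) ≤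
      pvm * G0 * (Real.exp (-(-(j * c) * s + μ * s ^ (2 : ℕ))) + B) := by
    intro s hs
    have hsa : |s| ≤ 3 / 2 := abs_le.2 ⟨hs.1, hs.2⟩
    rw [outR_pc (by linarith only [hx]) hsa, ← hcd]
    obtain ⟨k1, k2⟩ := outR_core_H (s := s) hcm hxc hx0 hn0.le hn (by linarith only [hκ0]) hκ1 hκ
    rw [← hcd] at k1 k2
    have hpv1 : ‖pv c (ts x) s‖ ≤ pvm := by
      refine outR_pv ?_ hpv0
      have : c ^ (2 : ℕ) ≤ cm ^ (2 : ℕ) := by gcongr
      linarith only [hpv, this]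
    have e1 : -(Hz x (-n) (-z) (c * s) s / δ) = -(w * Ha x (-n) (c * s) s) +
        -(w * (n + c * s) * z) := by
      unfold Hz
      rw [hwd]
      field_simp
      ring
    have h1 : Real.exp (-(w * (n + c * s) * z)) ≤ G0 := by
      rw [hG0]
      refine Real.exp_le_exp.2 (neg_le_neg ?_)
      have h2 : c * (-(3 / 2)) ≤ c * s := mul_le_mul_of_nonneg_left hs.1 hc0.le
      have h3 : n - 3 / 2 * c ≤ n + c * s := by linarith only [h2]
      gcongr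
    have h2 : Real.exp (j * (c * s)) * Real.exp (-(w * Ha x (-n) (c * s) s)) ≤
        Real.exp (-(-(j * c) * s + μ * s ^ (2 : ℕ))) + B := by
      rcases le_total |s| (3 / 4) with h3 | h3
      · have h4 := mul_le_mul_of_nonneg_left (k1 h3) hw.le
        have h5 : Real.exp (j * (c * s)) * Real.exp (-(w * Ha x (-n) (c * s) s)) ≤
            Real.exp (-(-(j * c) * s + μ * s ^ (2 : ℕ))) := by
          rw [← Real.exp_add]
          refine Real.exp_le_exp.2 ?_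
          rw [hμ]
          linarith only [h4]
        linarith only [hB0, h5]
      · have h4 := mul_le_mul_of_nonneg_left (k2 hsa) hw.le
        have h6 : 9 / 16 ≤ s ^ (2 : ℕ) := by
          rw [← sq_abs]
          nlinarith only [h3]
        have h7 : 9 / 64 * (w * x) ≤ w * Ha x (-n) (c * s) s := by
          have : w * (1 / 2 * (x / 2) * (9 / 16)) ≤ w * (1 / 2 * (x / 2) * s ^ (2 : ℕ)) := by gcongr
          linarith only [h4, this]
        have h8 : j * (c * s) ≤ 3 / 2 * (1686 / 10000) := by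
          have h9 : c * s ≤ 1686 / 10000 * (3 / 2) := by
            have h10 : c * s ≤ c * (3 / 2) := mul_le_mul_of_nonneg_left hs.2 hc0.le
            have h11 : c * (3 / 2) ≤ 1686 / 10000 * (3 / 2) := by
              have : c ≤ 1686 / 10000 := hxc.trans hcm
              gcongr
            linarith only [h10, h11]
          rcases le_total 0 (c * s) with h12 | h12
          · have : j * (c * s) ≤ 1 * (c * s) := by gcongr
            linarith only [h9, this]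
          · have : j * (c * s) ≤ 0 := mul_nonpos_of_nonneg_of_nonpos hj0 h12
            linarith only [this]
        have h5 : Real.exp (j * (c * s)) * Real.exp (-(w * Ha x (-n) (c * s) s)) ≤ B := by
          rw [hB]
          gcongr
        have := Real.exp_pos (-(-(j * c) * s + μ * s ^ (2 : ℕ)))
        linarith only [h5, this]
    rw [e1, Real.exp_add]
    calc ‖pv c (ts x) s‖ * (Real.exp (j * (c * s)) * (Real.exp (-(w * Ha x (-n) (c * s) s)) *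
          Real.exp (-(w * (n + c * s) * z)))) =
          ‖pv c (ts x) s‖ * (Real.exp (j * (c * s)) * Real.exp (-(w * Ha x (-n) (c * s) s))) *
          Real.exp (-(w * (n + c * s) * z)) := by ring
      _ ≤ pvm * (Real.exp (-(-(j * c) * s + μ * s ^ (2 : ℕ))) + B) * G0 := by gcongr
      _ = _ := by ring
  have hkk : |(-n : ℝ)| < c * ts x := by
    rw [abs_neg, abs_of_pos hn0]
    exact hk
  have hne : (-n : ℝ) ≠ 0 := by
    intro h
    linarith only [hn0, h]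
  have hI : Integrable fun s : ℝ => ‖pv c (ts x) s‖ *
      (Real.exp (j * pc c (ts x) s) * Real.exp (-(Hz x (-n) (-z) (pc c (ts x) s) s / δ))) :=
    integrable_mF' hc0 ts0 ta1 hδ hkk hne (-z) j
  have hg := t2_gint (m := -(j * c)) hμ0
  have hBi : IntegrableOn (fun _ : ℝ => B) (Icc (-(3 / 2 : ℝ)) (3 / 2)) :=
    integrableOn_const (by simp)
  have hR : IntegrableOn (fun s : ℝ => pvm * G0 * (Real.exp (-(-(j * c) * s + μ * s ^ (2 : ℕ))) + B))
      (Icc (-(3 / 2 : ℝ)) (3 / 2)) := (hg.integrableOn.add hBi).const_mul (pvm * G0)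
  have s1 := setIntegral_mono_on hI.integrableOn hR measurableSet_Icc hpt
  refine s1.trans ?_
  rw [integral_const_mul, integral_add hg.integrableOn hBi, setIntegral_const,
    Real.volume_real_Icc_of_le (by norm_num), smul_eq_mul]
  have s2 : ∫ s in Icc (-(3 / 2 : ℝ)) (3 / 2), Real.exp (-(-(j * c) * s + μ * s ^ (2 : ℕ))) ≤
      √(Real.pi / μ) * Real.exp ((-(j * c)) ^ (2 : ℕ) / (4 * μ)) := by
    rw [← t2_gauss hμ0]
    exact setIntegral_le_integral hg (Filter.Eventually.of_forall fun s => (Real.exp_pos _).le)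
  have s3 : Real.exp ((-(j * c)) ^ (2 : ℕ) / (4 * μ)) ≤ 10005 / 10000 := by
    have h1 : (-(j * c)) ^ (2 : ℕ) ≤ (1 * (1686 / 10000)) ^ (2 : ℕ) := by
      have e : (-(j * c)) ^ (2 : ℕ) = (j * c) ^ (2 : ℕ) := by ring
      have : c ≤ 1686 / 10000 := hxc.trans hcm
      rw [e]
      gcongr
    have h2 : (-(j * c)) ^ (2 : ℕ) / (4 * μ) ≤ 4 / 10000 := by
      rw [div_le_iff₀ (by positivity)]
      norm_num at h1 ⊢
      linarith only [hμ1, h1]
    refine (Real.exp_le_exp.2 h2).trans ?_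
    refine (exp_five (by norm_num) (by norm_num)).trans ?_
    norm_num
  have s4 : √(Real.pi / μ) ≤ sq * √(2 * Real.pi / (w * D)) := by
    refine abs_le_of_sq_le_sq' ?_ (by positivity) |>.2
    rw [mul_pow, Real.sq_sqrt (by positivity), Real.sq_sqrt (by positivity)]
    rw [hμ, div_le_iff₀ (by positivity)]
    have e : sq ^ (2 : ℕ) * (2 * Real.pi / (w * D)) * (κ * (w * x) / 2) =
        Real.pi * ((κ * sq ^ (2 : ℕ) * x) / D) := by
      field_simp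
    rw [e]
    have h1 : 1 ≤ κ * sq ^ (2 : ℕ) * x / D := by
      rw [le_div_iff₀ hD0, one_mul]
      exact hD.trans (mul_le_mul_of_nonneg_right hsq hx0.le)
    nlinarith only [hpi, h1]
  have s5 := outR_far hwx hw hD0 hD hdl hx0
  rw [← hB] at s5
  have hS0 : 0 ≤ √(2 * Real.pi / (w * D)) := Real.sqrt_nonneg _
  have hS1 : 0 ≤ √(Real.pi / μ) := Real.sqrt_nonneg _
  calc pvm * G0 * ((∫ s in Icc (-(3 / 2 : ℝ)) (3 / 2), Real.exp (-(-(j * c) * s + μ * s ^ (2 : ℕ)))) +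
        (3 / 2 - -(3 / 2)) * B) ≤ pvm * G0 * (√(Real.pi / μ) * Real.exp ((-(j * c)) ^ (2 : ℕ) / (4 * μ)) +
        3 * B) := by
        have e : (3 / 2 - -(3 / 2) : ℝ) * B = 3 * B := by ring
        rw [e]
        gcongr
    _ ≤ pvm * G0 * (sq * √(2 * Real.pi / (w * D)) * (10005 / 10000) +
        1 / 100 * √(2 * Real.pi / (w * D))) := by gcongr
    _ = pvm * (10005 / 10000 * sq + 1 / 100) * G0 * √(2 * Real.pi / (w * D)) := by ring
    _ ≤ Cc * G0 * √(2 * Real.pi / (w * D)) := by gcongr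

end SokamV3

end

/-! ### Lib_MP_af4de1_v3.OutR5 -/

section
namespace SokamF1
end SokamF1
namespace SokamF1B
end SokamF1B
namespace SokamF1G
end SokamF1G
namespace SokamF1M
end SokamF1M
namespace SokamF1S
end SokamF1S
namespace SokamPG
end SokamPG
namespace SokamU
end SokamU
namespace SokamV3F
end SokamV3F
/-!
# `N = 2`, `outR`: the tails at both ends
-/

set_option autoImplicit false

open Complex MeasureTheory Set SokamU SokamPG SokamF1 SokamF1S SokamF1M SokamF1G SokamF1B SokamV3F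

namespace SokamV3

/-- the integrand of `mF` with `x`, `y = -n`, `ζ = -z` on the path of `T2` -/
noncomputable def oF (x n z δ : ℝ) (j : ℕ) (s : ℝ) : ℝ :=
  ‖pv (1 + x)⁻¹ (ts x) s‖ * (Real.exp (j * pc (1 + x)⁻¹ (ts x) s) *
    Real.exp (-(Hz x (-n) (-z) (pc (1 + x)⁻¹ (ts x) s) s / δ)))

theorem oF_int {x n z δ : ℝ} {j : ℕ} (hx : 0 ≤ x) (hδ : 0 < δ) (hn0 : 0 < n) (hnt : n < ta x) :
    Integrable (oF x n z δ j) := by
  obtain ⟨ts0, ts1, ts2, ta0, ta1⟩ := t2_ts hx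
  have hc0 : 0 < (1 + x)⁻¹ := inv_pos.2 (by linarith only [hx])
  have hkk : |(-n : ℝ)| < (1 + x)⁻¹ * ts x := by
    rw [abs_neg, abs_of_pos hn0]
    exact hnt
  have hne : (-n : ℝ) ≠ 0 := by
    intro h
    linarith only [hn0, h]
  exact integrable_mF' hc0 ts0 ta1 hδ hkk hne (-z) j

theorem oF_eq {ε x n z δ s : ℝ} {j : ℕ} (hε : ε = 1 ∨ ε = -1) (hx : 0 ≤ x) (hδ : 0 < δ) (hs : 0 ≤ s) :
    oF x n z δ j (ε * s) = ‖pv (1 + x)⁻¹ (ts x) (ε * s)‖ *
      (Real.exp (j * (ε * min ((1 + x)⁻¹ * ts x) ((1 + x)⁻¹ * s))) *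
        Real.exp (-(1 / δ * (Hs ε x (ε * -n) (min ((1 + x)⁻¹ * ts x) ((1 + x)⁻¹ * s)) s +
          (n + ε * min ((1 + x)⁻¹ * ts x) ((1 + x)⁻¹ * s)) * z)))) := by
  obtain ⟨ts0, ts1, ts2, ta0, ta1⟩ := t2_ts hx
  have hc0 : 0 ≤ (1 + x)⁻¹ := inv_nonneg.2 (by linarith only [hx])
  unfold oF
  rw [t2_pc hε hc0 ts0.le hs]
  unfold Hz
  rw [t2_Hs hε]
  congr 3
  ring

/-- light side at both ends, heavy side at `0` -/
theorem oF_light {ε x n z δ s : ℝ} {j : ℕ} (hj : j ≤ 1) (hε : ε = 1 ∨ ε = -1) (hx : 0 ≤ x)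
    (hδ : 0 < δ) (hs : 0 ≤ s) (hn : 0 ≤ n) (hz : 0 ≤ z) {K : ℝ}
    (h : (ε = 1 ∧ K = 27183 / 10000) ∨ (ε = -1 ∧ z = 0 ∧ K = 1)) :
    oF x n z δ j (ε * s) ≤ K *
      ‖gi (1 + x)⁻¹ (ts x) (fun _ => 1) (((x : ℂ) + (-n : ℝ) * I) / δ) 0 (-((δ : ℂ) * I)) (ε * s)‖ := by
  obtain ⟨ts0, ts1, ts2, ta0, ta1⟩ := t2_ts hx
  have hc0 : 0 ≤ (1 + x)⁻¹ := inv_nonneg.2 (by linarith only [ts0, ts2])
  rw [oF_eq hε hx hδ hs, t2_gi hε hx hδ ts0.le hs]
  set a := min ((1 + x)⁻¹ * ts x) ((1 + x)⁻¹ * s) with ha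
  have ha0 : 0 ≤ a := le_min ta0 (by positivity)
  have ha1 : a ≤ 1 := (min_le_left _ _).trans ta1
  have hj0 : (0 : ℝ) ≤ j := Nat.cast_nonneg j
  have hj1 : (j : ℝ) ≤ 1 := by exact_mod_cast hj
  have hw : 0 < 1 / δ := by positivity
  rw [norm_one, one_mul]
  have h1 : Real.exp (j * (ε * a)) ≤ K := by
    rcases h with ⟨rfl, rfl⟩ | ⟨rfl, _, rfl⟩
    · have : (j : ℝ) * (1 * a) ≤ 1 := by
        rw [one_mul]
        calc (j : ℝ) * a ≤ 1 * 1 := by gcongr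
          _ = 1 := by norm_num
      exact (Real.exp_le_exp.2 this).trans t2_e1
    · rw [Real.exp_le_one_iff]
      have : 0 ≤ (j : ℝ) * a := by positivity
      linarith only [this]
  have h2 : Real.exp (-(1 / δ * (Hs ε x (ε * -n) a s + (n + ε * a) * z))) ≤
      Real.exp (-(1 / δ * Hs ε x (ε * -n) a s)) := by
    refine Real.exp_le_exp.2 (neg_le_neg (mul_le_mul_of_nonneg_left ?_ hw.le))
    have : 0 ≤ (n + ε * a) * z := by
      rcases h with ⟨rfl, _⟩ | ⟨rfl, rfl, _⟩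
      · rw [one_mul]; positivity
      · rw [mul_zero]
    linarith only [this]
  have h3 := norm_nonneg (pv (1 + x)⁻¹ (ts x) (ε * s))
  have h4 := Real.exp_pos (j * (ε * a))
  have hK : 0 ≤ K := h4.le.trans h1
  calc ‖pv (1 + x)⁻¹ (ts x) (ε * s)‖ * (Real.exp (j * (ε * a)) *
        Real.exp (-(1 / δ * (Hs ε x (ε * -n) a s + (n + ε * a) * z)))) ≤
      ‖pv (1 + x)⁻¹ (ts x) (ε * s)‖ * (K * Real.exp (-(1 / δ * Hs ε x (ε * -n) a s))) := by gcongr
    _ = _ := by ring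

theorem oF_half {ε x n z δ r : ℝ} {j : ℕ} (hj : j ≤ 1) (hε : ε = 1 ∨ ε = -1) (hx : 3 / 2 ≤ x)
    (hδ : 0 < δ) (hn : 0 < n) (hnt : n < ta x) (hz : 0 ≤ z) {K : ℝ}
    (h : (ε = 1 ∧ K = 27183 / 10000) ∨ (ε = -1 ∧ z = 0 ∧ K = 1))
    (hT : TH ε x (ε * -n) (1 / δ) (r * δ)) :
    ∫ s in Ici (3 / 2), oF x n z δ j (ε * s) ≤ K * (4 * (108 / 100 * Real.exp (-(23 / 100 * r))) +
      1001 / 1000 * (tP ε x (ε * -n) (1 / δ) + 47 / 10 * Real.exp (-(1 / 4 * r)))) := by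
  have hx0 : 0 ≤ x := by linarith only [hx]
  obtain ⟨ts0, ts1, ts2, ta0, ta1⟩ := t2_ts hx0
  have hc0 : 0 < (1 + x)⁻¹ := inv_pos.2 (by linarith only [hx0])
  have hy : |(-n : ℝ)| < ta x := by
    rw [abs_neg, abs_of_pos hn]
    exact hnt
  have hK : 0 ≤ K := by rcases h with ⟨_, rfl⟩ | ⟨_, _, rfl⟩ <;> norm_num
  have hk : |(((x : ℂ) + (-n : ℝ) * I) / δ : ℂ).im| < (1 + x)⁻¹ * ts x / δ := by
    have e : (((x : ℂ) + (-n : ℝ) * I) / δ : ℂ) = ((1 / δ : ℝ) : ℂ) * ((x : ℂ) + (-n : ℝ) * I) := by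
      push_cast; ring
    have e2 : ((x : ℂ) + (-n : ℝ) * I).im = -n := by simp
    rw [e, Complex.im_ofReal_mul, e2, abs_mul, abs_of_pos (by positivity : 0 < 1 / δ), one_div,
      inv_mul_eq_div]
    exact div_lt_div_of_pos_right hy hδ
  have hint : Integrable fun s : ℝ =>
      ‖gi (1 + x)⁻¹ (ts x) (fun _ => 1) (((x : ℂ) + (-n : ℝ) * I) / δ) 0 (-((δ : ℂ) * I)) (ε * s)‖ := by
    have hgi := (int_gi hc0 ts0 ta1 hδ hk t2_W0.wt).norm
    rcases hε with e | e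
    · rw [e]; simpa using hgi
    · rw [e]; simpa using hgi.comp_neg
  have hi2 : Integrable fun s : ℝ => oF x n z δ j (ε * s) := by
    have hof := oF_int (z := z) (j := j) hx0 hδ hn hnt
    rcases hε with e | e
    · rw [e]; simpa using hof
    · rw [e]; simpa using hof.comp_neg
  have h1 := t2_half (r := r) t2_W0 hε hx hδ hy hT (by norm_num)
  have h2 : ∫ s in Ici (3 / 2), oF x n z δ j (ε * s) ≤
      ∫ s in Ici (3 / 2), K * ‖gi (1 + x)⁻¹ (ts x) (fun _ => 1) (((x : ℂ) + (-n : ℝ) * I) / δ) 0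
        (-((δ : ℂ) * I)) (ε * s)‖ :=
    setIntegral_mono_on hi2.integrableOn (hint.const_mul K).integrableOn measurableSet_Ici
      fun s hs => oF_light hj hε hx0 hδ (by have := mem_Ici.1 hs; linarith only [this]) hn.le hz h
  rw [integral_const_mul] at h2
  have hE3 := Real.exp_pos (-(1 / 4 * r))
  have htP : 0 ≤ tP ε x (ε * -n) (1 / δ) := by
    unfold tP
    positivity
  have c : (1 / (1 - 1 * (54 / 100000)) : ℝ) ≤ 1001 / 1000 := by norm_num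
  refine h2.trans (mul_le_mul_of_nonneg_left (h1.trans ?_) hK)
  rw [one_mul, one_mul, one_mul]
  have hmid : 0 ≤ tP ε x (ε * -n) (1 / δ) + 47 / 10 * Real.exp (-(1 / 4 * r)) := by positivity
  have := mul_le_mul_of_nonneg_right c hmid
  rw [one_mul] at this
  linarith only [this]

/-- heavy side at the far end -/
theorem oF_heavy {x n z δ r h pvm : ℝ} {j : ℕ} (hx : 112 / 25 ≤ x)
    (hδ : 0 < δ) (hn : 0 < n) (hnt : n < ta x) (hz : 0 ≤ z)
    (hlam : 6 / 5 ≤ 1 / δ * (ta x - n)) (hmu : 2 ≤ 1 / δ * tμ (-1) x n)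
    (hpv : 1 + ((1 + x)⁻¹) ^ (2 : ℕ) ≤ pvm ^ (2 : ℕ)) (hpv0 : 1 ≤ pvm)
    (H1 : ∀ s, 3 / 2 ≤ s → s ≤ 137 / 25 → h * (r * δ) ≤
      Hs (-1) x n ((1 + x)⁻¹ * s) s - ((1 + x)⁻¹ * s - n) * z)
    (H3 : ∀ φ, 4 / 5 ≤ φ → φ ≤ 137 / 25 → 15 / 100 * (r * δ) ≤
      Hs (-1) x n (ta x) (2 * Real.pi + φ) - (ta x - n) * z) :
    ∫ s in Ici (3 / 2), oF x n z δ j (-1 * s) ≤ 4 * (pvm * Real.exp (-(h * r))) +
      1001 / 1000 * (tP (-1) x n (1 / δ) * Real.exp (1 / δ * (ta x - n) * z) +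
        47 / 10 * Real.exp (-(15 / 100 * r))) := by
  have hx0 : 0 ≤ x := by linarith only [hx, hδ, hn, hnt, hz]
  have hx1 : 0 < 1 + x := by linarith only [hx0]
  obtain ⟨ts0, ts1, ts2, ta0, ta1⟩ := t2_ts hx0
  obtain ⟨p1, p2⟩ := t2_pi
  have hc0 : 0 < (1 + x)⁻¹ := inv_pos.2 hx1
  have htx : ts x = 137 / 25 := min_eq_left (by linarith only [hx])
  have hw : 0 < 1 / δ := by positivity
  have hj0 : (0 : ℝ) ≤ j := Nat.cast_nonneg j
  have hwd : 1 / δ * (r * δ) = r := by field_simp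
  have hi2 : Integrable fun s : ℝ => oF x n z δ j (-1 * s) := by
    have h := oF_int (z := z) (j := j) hx0 hδ hn hnt
    simpa using h.comp_neg
  have hεε : (-1 : ℝ) = 1 ∨ (-1 : ℝ) = -1 := Or.inr rfl
  have hnn : (-1 : ℝ) * -n = n := by ring
  -- value beyond `137/25`
  have hfar : ∀ s, 137 / 25 ≤ s → oF x n z δ j (-1 * s) = Real.exp (-(j * ta x)) *
      Real.exp (-(1 / δ * (Hs (-1) x n (ta x) s - (ta x - n) * z))) := by
    intro s hs
    rw [oF_eq hεε hx0 hδ (by linarith only [hs]), t2_min2 hx0 hs, t2_pv1 hεε ts0.le (ts1.trans hs), one_mul,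
      hnn]
    congr 2
    · ring
    · ring
  have hej : Real.exp (-(j * ta x)) ≤ 1 := by
    rw [Real.exp_le_one_iff]
    have : 0 ≤ (j : ℝ) * ta x := by positivity
    linarith only [this]
  have hej0 := Real.exp_pos (-(j * ta x))
  have hpv1 : ∀ s, ‖pv (1 + x)⁻¹ (ts x) s‖ ≤ pvm := fun s => outR_pv hpv (by linarith only [hpv0])
  have hside := t2_side (F := fun s : ℝ => oF x n z δ j (-1 * s))
    (A1 := pvm * Real.exp (-(h * r))) (A3 := Real.exp (-(15 / 100 * r)))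
    (C2 := Real.exp (-(1 / δ * tH (-1) x n)) * Real.exp (1 / δ * (ta x - n) * z))
    (m := 1 / δ * tm (-1) x n)
    (μ := 1 / δ * tμ (-1) x n - 1) (q := 54 / 100000) hi2.integrableOn
    (by positivity) (by positivity) (by positivity) (by linarith only [hmu]) (by norm_num) ?_ ?_ ?_ ?_
  · refine hside.trans ?_
    have e1 : Real.exp (-(1 / δ * tH (-1) x n)) * Real.exp (1 / δ * (ta x - n) * z) *
        (√(Real.pi / (1 / δ * tμ (-1) x n - 1)) *
          Real.exp ((1 / δ * tm (-1) x n) ^ (2 : ℕ) / (4 * (1 / δ * tμ (-1) x n - 1)))) =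
        tP (-1) x n (1 / δ) * Real.exp (1 / δ * (ta x - n) * z) := by
      have e2 : Real.exp ((1 / δ * tm (-1) x n) ^ (2 : ℕ) / (4 * (1 / δ * tμ (-1) x n - 1)) -
          1 / δ * tH (-1) x n) =
          Real.exp ((1 / δ * tm (-1) x n) ^ (2 : ℕ) / (4 * (1 / δ * tμ (-1) x n - 1))) *
            Real.exp (-(1 / δ * tH (-1) x n)) := by
        rw [← Real.exp_add]
        congr 1
      unfold tP
      rw [e2]
      ring
    rw [e1]
    have c : (1 / (1 - 54 / 100000) : ℝ) ≤ 1001 / 1000 := by norm_num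
    have htP : 0 ≤ tP (-1) x n (1 / δ) * Real.exp (1 / δ * (ta x - n) * z) +
        47 / 10 * Real.exp (-(15 / 100 * r)) := by
      unfold tP
      positivity
    have := mul_le_mul_of_nonneg_right c htP
    linarith only [this]
  · intro s hs1 hs2
    have hs0 : 0 ≤ s := by linarith only [hs1]
    rw [oF_eq hεε hx0 hδ hs0, t2_min1 hx0 hs2, hnn]
    have hm : min 1 ((1 + x)⁻¹ * s) = (1 + x)⁻¹ * s := by
      refine min_eq_right ?_
      rw [inv_mul_eq_div, div_le_one hx1]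
      linarith only [ts2, htx, hs2]
    rw [hm]
    have e1 : Real.exp (j * (-1 * ((1 + x)⁻¹ * s))) ≤ 1 := by
      rw [Real.exp_le_one_iff]
      have : 0 ≤ (j : ℝ) * ((1 + x)⁻¹ * s) := by positivity
      linarith only [this]
    have e2 : Real.exp (-(1 / δ * (Hs (-1) x n ((1 + x)⁻¹ * s) s +
        (n + -1 * ((1 + x)⁻¹ * s)) * z))) ≤ Real.exp (-(h * r)) := by
      refine Real.exp_le_exp.2 (neg_le_neg ?_)
      have := mul_le_mul_of_nonneg_left (H1 s hs1 hs2) hw.le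
      calc h * r = h * (1 / δ * (r * δ)) := by rw [hwd]
        _ = 1 / δ * (h * (r * δ)) := by ring
        _ ≤ 1 / δ * (Hs (-1) x n ((1 + x)⁻¹ * s) s - ((1 + x)⁻¹ * s - n) * z) := this
        _ = _ := by ring
    have h3 := hpv1 (-1 * s)
    have h4 := Real.exp_pos (j * (-1 * ((1 + x)⁻¹ * s)))
    calc ‖pv (1 + x)⁻¹ (ts x) (-1 * s)‖ * (Real.exp (j * (-1 * ((1 + x)⁻¹ * s))) *
          Real.exp (-(1 / δ * (Hs (-1) x n ((1 + x)⁻¹ * s) s +
            (n + -1 * ((1 + x)⁻¹ * s)) * z)))) ≤ pvm * (1 * Real.exp (-(h * r))) := by gcongr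
      _ = _ := by ring
  · intro φ hφ1 hφ2
    have hφ : |φ| ≤ 8035 / 10000 := by
      rw [abs_le]
      constructor
      · linarith only [p2, hφ1]
      · linarith only [hφ2]
    have hs3 : 137 / 25 ≤ 2 * Real.pi + φ := by linarith only [hφ1]
    rw [hfar _ hs3]
    have hH := mul_le_mul_of_nonneg_left (t2_lump_H (ε := -1) (v := n) (a := ta x) hx0 hφ) hw.le
    have he : Real.exp (-(1 / δ * (Hs (-1) x n (ta x) (2 * Real.pi + φ) - (ta x - n) * z))) ≤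
        Real.exp (-(1 / δ * tH (-1) x n)) * Real.exp (1 / δ * (ta x - n) * z) *
          Real.exp (-(1 / δ * tm (-1) x n * φ + (1 / δ * tμ (-1) x n - 1) * φ ^ (2 : ℕ))) := by
      rw [← Real.exp_add, ← Real.exp_add]
      refine Real.exp_le_exp.2 ?_
      unfold tH tm tμ
      have hφ2 : 0 ≤ φ ^ (2 : ℕ) := sq_nonneg φ
      linarith only [hH, hφ2]
    have hE := Real.exp_pos (-(1 / δ * (Hs (-1) x n (ta x) (2 * Real.pi + φ) - (ta x - n) * z)))
    calc Real.exp (-(j * ta x)) *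
          Real.exp (-(1 / δ * (Hs (-1) x n (ta x) (2 * Real.pi + φ) - (ta x - n) * z))) ≤
          1 * Real.exp (-(1 / δ * (Hs (-1) x n (ta x) (2 * Real.pi + φ) - (ta x - n) * z))) := by
          gcongr
      _ ≤ _ := by rw [one_mul]; exact he
  · intro φ hφ1 hφ2
    have hs3 : 137 / 25 ≤ 2 * Real.pi + φ := by linarith only [p1, hφ1]
    rw [hfar _ hs3]
    have he : Real.exp (-(1 / δ * (Hs (-1) x n (ta x) (2 * Real.pi + φ) - (ta x - n) * z))) ≤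
        Real.exp (-(15 / 100 * r)) := by
      refine Real.exp_le_exp.2 (neg_le_neg ?_)
      have := mul_le_mul_of_nonneg_left (H3 φ hφ1 hφ2) hw.le
      calc 15 / 100 * r = 15 / 100 * (1 / δ * (r * δ)) := by rw [hwd]
        _ = 1 / δ * (15 / 100 * (r * δ)) := by ring
        _ ≤ _ := this
    have hE := Real.exp_pos (-(1 / δ * (Hs (-1) x n (ta x) (2 * Real.pi + φ) - (ta x - n) * z)))
    calc Real.exp (-(j * ta x)) *
          Real.exp (-(1 / δ * (Hs (-1) x n (ta x) (2 * Real.pi + φ) - (ta x - n) * z))) ≤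
          1 * Real.exp (-(15 / 100 * r)) := by
          gcongr
      _ = _ := one_mul _
  · intro s hs
    have hs2 : 137 / 25 ≤ s + 2 * Real.pi := by linarith only [p1, hs]
    rw [hfar _ hs, hfar _ hs2, t2_per]
    have hq := t2_q hlam
    have e1 : Real.exp (-(1 / δ * (Hs (-1) x n (ta x) s + 2 * Real.pi * (ta x - n) -
        (ta x - n) * z))) =
        Real.exp (-(1 / δ * (Hs (-1) x n (ta x) s - (ta x - n) * z))) *
          Real.exp (-(2 * Real.pi * (1 / δ * (ta x - n)))) := by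
      rw [← Real.exp_add]
      congr 1
      ring
    rw [e1]
    have hE := Real.exp_pos (-(1 / δ * (Hs (-1) x n (ta x) s - (ta x - n) * z)))
    calc Real.exp (-(j * ta x)) * (Real.exp (-(1 / δ * (Hs (-1) x n (ta x) s - (ta x - n) * z))) *
          Real.exp (-(2 * Real.pi * (1 / δ * (ta x - n))))) ≤
          Real.exp (-(j * ta x)) * (Real.exp (-(1 / δ * (Hs (-1) x n (ta x) s - (ta x - n) * z))) *
          (54 / 100000)) := by gcongr
      _ = _ := by ring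

end SokamV3

end

/-! ### Lib_MP_af4de1_v3.OutR6 -/

section
namespace SokamF1
end SokamF1
namespace SokamF1B
end SokamF1B
namespace SokamF1G
end SokamF1G
namespace SokamF1M
end SokamF1M
namespace SokamF1S
end SokamF1S
namespace SokamPG
end SokamPG
namespace SokamU
end SokamU
namespace SokamV3F
end SokamV3F
/-!
# `N = 2`, `outR`: the two integrals
-/

set_option autoImplicit false

open Complex MeasureTheory Set SokamU SokamPG SokamF1 SokamF1S SokamF1M SokamF1G SokamF1B SokamV3F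

namespace SokamV3

theorem oF_split {f : ℝ → ℝ} (hf : Integrable f) (h0 : ∀ s, 0 ≤ f s) :
    ∫ s, f s ≤ (∫ s in Icc (-(3 / 2 : ℝ)) (3 / 2), f s) +
      ((∫ s in Ici (3 / 2), f (1 * s)) + ∫ s in Ici (3 / 2), f (-1 * s)) := by
  have hm : MeasurableSet {s : ℝ | 3 / 2 ≤ |s|} :=
    (isClosed_le continuous_const continuous_abs).measurableSet
  rw [← t2_split hf, ← integral_add_compl hm hf, add_comm]
  have : ∫ s in {s : ℝ | 3 / 2 ≤ |s|}ᶜ, f s ≤ ∫ s in Icc (-(3 / 2 : ℝ)) (3 / 2), f s := by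
    refine setIntegral_mono_set hf.integrableOn (Filter.Eventually.of_forall h0) ?_
    refine Filter.Eventually.of_forall fun s hs => ?_
    have h1 : ¬ (3 / 2 ≤ |s|) := hs
    push Not at h1
    have h2 := abs_lt.1 h1
    exact ⟨h2.1.le, h2.2.le⟩
  linarith only [this]

theorem oF_nonneg (x n z δ : ℝ) (j : ℕ) (s : ℝ) : 0 ≤ oF x n z δ j s := by
  unfold oF
  positivity

/-- both integrals -/
theorem oF_total {x n z δ r D κ dl sq pvm Cc cm h P1 P2 Q Kh Λ T : ℝ} {j : ℕ} (hj : j ≤ 1)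
    (hδ : 0 < δ) (hx : 4932 / 1000 ≤ x) (hcm : cm ≤ 1686 / 10000) (hxc : (1 + x)⁻¹ ≤ cm)
    (hn0 : 0 < n) (hn : n * (1 + x) ≤ 286 / 100) (hκ0 : 4 / 5 ≤ κ) (hκ1 : κ ≤ 9 / 10)
    (hκ : ∀ c : ℝ, 0 ≤ c → c ≤ cm → 0 ≤ (4765 / 10000 - κ / 2) - (8339 / 10000 - κ / 2) * c +
      4999 / 10000 * c ^ (2 : ℕ) - 236 / 100 * c ^ (3 : ℕ))
    (hz : 0 ≤ z) (hwx : 499 / 10 ≤ 1 / δ * x) (hD0 : 0 < D) (hD : D ≤ dl * x)
    (hdl : dl ≤ 1021 / 1000) (hsq : dl ≤ κ * sq ^ (2 : ℕ)) (hsq0 : 0 ≤ sq) (hpv : 1 + cm ^ (2 : ℕ) ≤ pvm ^ (2 : ℕ))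
    (hpv1 : 1 ≤ pvm) (hC : pvm * (10005 / 10000 * sq + 1 / 100) ≤ Cc)
    (hT1 : TH 1 x (-n) (1 / δ) (r * δ)) (hT2 : TH (-1) x n (1 / δ) (r * δ))
    (hE1 : Real.exp (-(23 / 100 * r)) ≤ 376 / 10000000 * √(2 * Real.pi / (1 / δ * D)))
    (hE3 : Real.exp (-(1 / 4 * r)) ≤ 139 / 10000000 * √(2 * Real.pi / (1 / δ * D)))
    (hE4 : Real.exp (-(15 / 100 * r)) ≤ 21 / 10000 * √(2 * Real.pi / (1 / δ * D)))
    (hKh : Real.exp (-(h * r)) ≤ Kh * √(2 * Real.pi / (1 / δ * D)))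
    (hP1 : tP 1 x (-n) (1 / δ) ≤ P1 * √(2 * Real.pi / (1 / δ * D)))
    (hP2 : tP (-1) x n (1 / δ) ≤ P2 * √(2 * Real.pi / (1 / δ * D)))
    (hQ : tP (-1) x n (1 / δ) * Real.exp (1 / δ * (ta x - n) * z) ≤
      Q * √(2 * Real.pi / (1 / δ * D)))
    (H1 : ∀ s, 3 / 2 ≤ s → s ≤ 137 / 25 → h * (r * δ) ≤
      Hs (-1) x n ((1 + x)⁻¹ * s) s - ((1 + x)⁻¹ * s - n) * z)
    (H3 : ∀ φ, 4 / 5 ≤ φ → φ ≤ 137 / 25 → 15 / 100 * (r * δ) ≤
      Hs (-1) x n (ta x) (2 * Real.pi + φ) - (ta x - n) * z)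
    (hΛ : Λ ≤ 1 / δ * (n - 3 / 2 * (1 + x)⁻¹) * z) (hT : Cc * Real.exp (-Λ) ≤ T)
    (num0 : Cc + 27183 / 10000 * (1001 / 1000 * P1 + 1 / 1000) + (1001 / 1000 * P2 + 1 / 1000) ≤
      13 / 10)
    (numZ : T + 27183 / 10000 * (1001 / 1000 * P1 + 1 / 1000) + (4 * pvm * Kh +
      1001 / 1000 * (Q + 1 / 100)) ≤ 13 / 10) :
    (∫ s, oF x n 0 δ j s ≤ 13 / 10 * √(2 * Real.pi / (1 / δ * D))) ∧
    (∫ s, oF x n z δ j s ≤ 13 / 10 * √(2 * Real.pi / (1 / δ * D))) := by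
  have hx0 : 0 < x := by linarith only [hx]
  have hw : 0 < 1 / δ := by positivity
  have hnt : n < ta x := by
    by_contra hcon
    push Not at hcon
    have h1 := hT2.lam
    have := mul_nonpos_of_nonneg_of_nonpos hw.le (by linarith : ta x - n ≤ 0)
    linarith only [h1, this]
  set G := √(2 * Real.pi / (1 / δ * D)) with hG
  have hG0 : 0 ≤ G := Real.sqrt_nonneg _
  have hC0 : 0 ≤ Cc := le_trans (by (clear * - hpv1 hsq0; positivity)) hC
  have hpvc : 1 + ((1 + x)⁻¹) ^ (2 : ℕ) ≤ pvm ^ (2 : ℕ) := by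
    have hc0 : 0 < (1 + x)⁻¹ := inv_pos.2 (by linarith only [hx0])
    have : ((1 + x)⁻¹) ^ (2 : ℕ) ≤ cm ^ (2 : ℕ) := by gcongr
    linarith only [hpv, this]
  have core : ∀ z' : ℝ, 0 ≤ z' → ∫ s in Icc (-(3 / 2 : ℝ)) (3 / 2), oF x n z' δ j s ≤
      Cc * Real.exp (-(1 / δ * (n - 3 / 2 * (1 + x)⁻¹) * z')) * G := fun z' hz' =>
    outR_core_int hj hδ hx hcm hxc hn0 hn hκ0 hκ1 hκ hz' hwx hD0 hD hdl hsq hsq0 hpv
      (by linarith only [hpv1]) hC hnt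
  have light : ∀ z' : ℝ, 0 ≤ z' → ∫ s in Ici (3 / 2), oF x n z' δ j (1 * s) ≤
      27183 / 10000 * (1001 / 1000 * P1 + 1 / 1000) * G := by
    intro z' hz'
    have h1 := oF_half (r := r) (K := 27183 / 10000) hj (Or.inl rfl) (by linarith only [hx]) hδ hn0 hnt hz'
      (Or.inl ⟨rfl, rfl⟩) (by rwa [one_mul])
    rw [one_mul (-n)] at h1
    linarith only [hE1, hE3, hP1, hG0, h1]
  have hs0 := oF_split (oF_int (z := 0) (j := j) hx0.le hδ hn0 hnt) (oF_nonneg x n 0 δ j)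
  have hsZ := oF_split (oF_int (z := z) (j := j) hx0.le hδ hn0 hnt) (oF_nonneg x n z δ j)
  constructor
  · have h1 := core 0 le_rfl
    have h2 := light 0 le_rfl
    have h3 := oF_half (z := 0) (r := r) (K := 1) hj (Or.inr rfl) (by linarith only [hx]) hδ hn0 hnt le_rfl
      (Or.inr ⟨rfl, rfl, rfl⟩) (by rwa [neg_mul_neg, one_mul])
    rw [neg_mul_neg, one_mul, one_mul] at h3
    rw [mul_zero, neg_zero, Real.exp_zero, mul_one] at h1
    have h4 := mul_le_mul_of_nonneg_right num0 hG0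
    linarith only [hE1, hE3, hP2, hG0, hs0, h1, h2, h3, h4]
  · have h1 := core z hz
    have h2 := light z hz
    have h3 := oF_heavy (r := r) (h := h) (j := j) (by linarith only [hx]) hδ hn0 hnt hz hT2.lam hT2.mu hpvc
      hpv1 H1 H3
    have h5 : Cc * Real.exp (-(1 / δ * (n - 3 / 2 * (1 + x)⁻¹) * z)) ≤ T := by
      refine le_trans ?_ hT
      have : Real.exp (-(1 / δ * (n - 3 / 2 * (1 + x)⁻¹) * z)) ≤ Real.exp (-Λ) :=
        Real.exp_le_exp.2 (by linarith only [hΛ])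
      gcongr
    have h6 := mul_le_mul_of_nonneg_right h5 hG0
    have h7 : pvm * Real.exp (-(h * r)) ≤ pvm * (Kh * G) := by gcongr
    have h4 := mul_le_mul_of_nonneg_right numZ hG0
    linarith only [hE4, hQ, hG0, hsZ, h1, h2, h3, h6, h7, h4]

end SokamV3

end
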