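import Pool.Agent.Lib_MP_af4de1_zy.Z15
import Pool.Agent.Lib_MP_af4de1_zy.Z154
import Pool.Agent.Lib_MP_af4de1_zy.Z159

/-! ### Lib_MP_af4de1_v3.T2Inst -/

section
namespace SokamF1S
end SokamF1S
namespace SokamV3
end SokamV3
/-!
# `N = 2`, tails: the lumps, `x ≥ 112/25`, instances (helper63, partly generated)
-/

set_option autoImplicit false

namespace SokamT2

open Real Set SokamF1S SokamV3

/-- data on the side `y = -n ≤ 0` -/
structure NegD (x n w D p : ℝ) : Prop where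
  x0 : 31 / 10 ≤ x
  n0 : 0 ≤ n
  n1 : n ≤ 1 / 2
  nx : n ≤ 2 / 5 * x
  D0 : 0 < D
  D1 : D ^ (2 : ℕ) ≤ 1 + x ^ (2 : ℕ)
  con : x * (1 - exp (-n)) + (n - n ^ (2 : ℕ) / 2) / x ≤ p
  w0 : 0 < w
  wx : 4632 / 100 ≤ w * x

/-- data on the side `y ≥ 0` -/
structure PosD (x y w D p : ℝ) : Prop where
  x0 : 3 / 2 ≤ x
  y0 : 0 ≤ y
  y1 : y ≤ 13 / 20
  yx : y ≤ 2 / 5 * x
  D0 : 0 < D
  D1 : D ^ (2 : ℕ) ≤ (1 + y) ^ (2 : ℕ) + x ^ (2 : ℕ)
  con : x * (exp y - 1) + (y + y ^ (2 : ℕ) / 2) / x ≤ p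
  w0 : 0 < w
  wx : 499 / 10 ≤ w * (x + 20421 / 10000)

theorem exp_neg_kf (k : ℕ) {f : ℝ} (hf : 0 ≤ f) : exp (-((k : ℝ) + f)) ≤
    ((27182818 / 10000000) ^ k * (1 + f + f ^ (2 : ℕ) / 2 + f ^ (3 : ℕ) / 6 + f ^ (4 : ℕ) / 24 + f ^ (5 : ℕ) / 120))⁻¹ := by
  rw [exp_neg]
  refine inv_anti₀ (by positivity) ?_
  have h1 : exp ((k : ℝ) + f) = exp 1 ^ k * exp f := by
    rw [exp_add, ← exp_nat_mul, mul_one]
  rw [h1]
  have h2 : (27182818 / 10000000 : ℝ) ≤ exp 1 := by
    have := exp_one_gt_d9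
    norm_num at this ⊢
    linarith only [this]
  have h3 := Real.sum_le_exp_of_nonneg hf 6
  simp only [Finset.sum_range_succ, Finset.sum_range_zero, Nat.factorial] at h3
  norm_num at h3
  exact mul_le_mul (pow_le_pow_left₀ (by norm_num) h2 k) (by linarith only [h3]) (by positivity) (by positivity)

theorem em_le {f a em : ℝ} (hf : 0 ≤ f) (hfa : f ≤ a) (he0 : 0 < em)
    (h : 1 ≤ em * (1 + f + f ^ (2 : ℕ) / 2 + f ^ (3 : ℕ) / 6 + f ^ (4 : ℕ) / 24 + f ^ (5 : ℕ) / 120)) : exp (-a) ≤ em := by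
  have h3 := Real.sum_le_exp_of_nonneg hf 6
  simp only [Finset.sum_range_succ, Finset.sum_range_zero, Nat.factorial] at h3
  norm_num at h3
  have h4 : exp f ≤ exp a := exp_le_exp.2 hfa
  have h5 : 1 ≤ em * exp a := h.trans (mul_le_mul_of_nonneg_left (by linarith only [h3, h4]) he0.le)
  calc exp (-a) = exp (-a) * 1 := (mul_one _).symm
    _ ≤ exp (-a) * (em * exp a) := mul_le_mul_of_nonneg_left h5 (exp_pos _).le
    _ = em * (exp (-a) * exp a) := by ring
    _ = em := by rw [← exp_add, neg_add_cancel, exp_zero, mul_one]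

/-! ### the modes -/

theorem pos_of_mul {g T Q E : ℝ} (hg : 0 < g) (hT : 0 ≤ T) (hE0 : 0 < E) (hE : E ≤ g * (T * Q)) : 0 < Q := by
  by_contra h
  push Not at h
  have h1 := mul_nonpos_of_nonneg_of_nonpos hT h
  have h2 := mul_nonpos_of_nonneg_of_nonpos hg.le h1
  linarith only [hE0, hE, h2]

theorem modeA {g x p q w c Q E : ℝ} (hcx : c * x = 1 - c) (c0 : 0 < c) (g0 : 0 < g)
    (hw : g * (x - p) ≤ w) (hq : q = 1 + p) (h1 : 0 ≤ 1 - q * c) (hE0 : 0 < E)
    (hE : E ≤ g * ((1 - q * c) * Q)) : E ≤ w * (c * Q) := by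
  have hQ := pos_of_mul g0 h1 hE0 hE
  have h2 : g * (x - p) * (c * Q) ≤ w * (c * Q) := mul_le_mul_of_nonneg_right hw (by positivity)
  have h3 : g * (x - p) * (c * Q) = g * ((1 - q * c) * Q) := by
    rw [hq]
    linear_combination (g * Q) * hcx
  linarith only [hE, h2, h3]

theorem modeB {w0 w c Q E : ℝ} (c0 : 0 < c) (w00 : 0 < w0) (hw : w0 ≤ w) (hE0 : 0 < E)
    (hE : E ≤ w0 * (c * Q)) : E ≤ w * (c * Q) := by
  have hQ := pos_of_mul w00 c0.le hE0 hE
  exact hE.trans (mul_le_mul_of_nonneg_right hw (by positivity))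

theorem modeC {k x w c Q E : ℝ} (hcx : c * x = 1 - c) (c0 : 0 < c) (c1 : c < 1) (k0 : 0 < k)
    (hw : k ≤ w * x) (hE0 : 0 < E) (hE : E * (1 - c) ≤ k * (c ^ (2 : ℕ) * Q)) : E ≤ w * (c * Q) := by
  have hQ := pos_of_mul k0 (sq_nonneg c) (mul_pos hE0 (by linarith only [c1])) hE
  have h2 : k * (c ^ (2 : ℕ) * Q) ≤ w * x * (c ^ (2 : ℕ) * Q) := mul_le_mul_of_nonneg_right hw (by positivity)
  have h3 : w * x * (c ^ (2 : ℕ) * Q) = w * (c * Q) * (1 - c) := by
    linear_combination (w * c * Q) * hcx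
  rw [h3] at h2
  exact le_of_mul_le_mul_right (hE.trans h2) (by linarith only [c1])

theorem modeAP {g x y t K w c X s E : ℝ} (hcx : c * x = 1 - c) (c0 : 0 < c) (c1 : c ≤ 25 / 137)
    (g0 : 0 < g) (x0 : 0 < x) (y0 : 0 ≤ y) (hy : y ≤ c * t) (hK : K = 6283 / 1000) (hX : 0 ≤ X)
    (hs : 0 ≤ s) (hw : g * (x * (1 + y)) ≤ w) (hE0 : 0 < E)
    (hE : E ≤ g * ((1 - c) * (1 + c * t) * (K * (137 / 25 - t) - (1 - c) * X - s * c ^ (2 : ℕ)))) :
    E ≤ w * (K * (137 / 25 * c - y) - c * ((1 - c) * X) - c * (s * c ^ (2 : ℕ))) := by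
  have t0 : 0 ≤ c * t := y0.trans hy
  obtain ⟨Q, hQd⟩ : ∃ Q, Q = K * (137 / 25 - t) - (1 - c) * X - s * c ^ (2 : ℕ) := ⟨_, rfl⟩
  rw [← hQd] at hE
  have hQ : 0 < Q := pos_of_mul g0 (mul_nonneg (by linarith only [hcx, c0, c1, g0]) (by linarith only [t0])) hE0 hE
  obtain ⟨P, hP⟩ : ∃ P, P = K * (137 / 25 * c) - c * ((1 - c) * X) - c * (s * c ^ (2 : ℕ)) := ⟨_, rfl⟩
  have e1 : P - K * (c * t) = c * Q := by
    rw [hP, hQd]
    ring
  have e2 : K * (137 / 25 * c - y) - c * ((1 - c) * X) - c * (s * c ^ (2 : ℕ)) = P - K * y := by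
    rw [hP]
    ring
  rw [e2]
  have hPK : P ≤ K := by
    have a1 : 0 ≤ c * ((1 - c) * X) := mul_nonneg c0.le (mul_nonneg (by linarith only [c1]) hX)
    have a2 : 0 ≤ c * (s * c ^ (2 : ℕ)) := by positivity
    have a3 : K * (137 / 25 * c) ≤ K * 1 := mul_le_mul_of_nonneg_left (by linarith only [c1]) (by rw [hK]; norm_num)
    linarith only [e2, a1, a2, a3]
  have hK0 : 0 ≤ K := by rw [hK]; norm_num
  have h1 : (1 + c * t) * (P - K * (c * t)) ≤ (1 + y) * (P - K * y) := by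
    have a1 : (1 + y) * (P - K * y) - (1 + c * t) * (P - K * (c * t)) =
        (c * t - y) * (K * (1 + y + c * t) - P) := by ring
    have a2 : 0 ≤ K * (1 + y + c * t) - P := by
      have := mul_nonneg hK0 (by linarith : 0 ≤ y + c * t)
      linarith only [hPK, this]
    have a3 := mul_nonneg (sub_nonneg.2 hy) a2
    linarith only [a3]
  have h2 : 0 ≤ P - K * y := by
    have a1 := mul_le_mul_of_nonneg_left hy hK0
    have a2 : 0 < c * Q := by positivity
    linarith only [e1, a1, a2]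
  calc E ≤ g * ((1 - c) * (1 + c * t) * Q) := hE
    _ = g * x * ((1 + c * t) * (P - K * (c * t))) := by
        rw [e1]
        linear_combination (-g * (1 + c * t) * Q) * hcx
    _ ≤ g * x * ((1 + y) * (P - K * y)) := mul_le_mul_of_nonneg_left h1 (by positivity)
    _ = g * (x * (1 + y)) * (P - K * y) := by ring
    _ ≤ w * (P - K * y) := mul_le_mul_of_nonneg_right hw h2

theorem modeBP {y t K w w0 c X s E : ℝ} (c0 : 0 < c) (w00 : 0 < w0) (hy : y ≤ c * t)
    (hK : K = 6283 / 1000) (hw : w0 ≤ w) (hE0 : 0 < E)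
    (hE : E ≤ w0 * (c * (K * (137 / 25 - t) - (1 - c) * X - s * c ^ (2 : ℕ)))) :
    E ≤ w * (K * (137 / 25 * c - y) - c * ((1 - c) * X) - c * (s * c ^ (2 : ℕ))) := by
  obtain ⟨Q, hQd⟩ : ∃ Q, Q = K * (137 / 25 - t) - (1 - c) * X - s * c ^ (2 : ℕ) := ⟨_, rfl⟩
  rw [← hQd] at hE
  have hQ := pos_of_mul w00 c0.le hE0 hE
  have hK0 : 0 ≤ K := by rw [hK]; norm_num
  have h1 := mul_le_mul_of_nonneg_left hy hK0
  have h2 : c * Q ≤ K * (137 / 25 * c - y) - c * ((1 - c) * X) - c * (s * c ^ (2 : ℕ)) := by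
    rw [hQd]
    linarith only [h1]
  have h3 : 0 < c * Q := by positivity
  exact hE.trans (mul_le_mul hw h2 h3.le (by linarith only [w00, hw]))

theorem i_n11 {x n w D c : ℝ} (H : NegD x n w D (3927 / 2500)) (hx : 112 / 25 ≤ x)
    (hc : c * (1 + x) = 1) (hl : 0 ≤ c) (hu : c ≤ 33 / 400) (hw : 5471 / 10000 * (x - 3927 / 2500) ≤ w) :
    tP (-1) x n w ≤ 159 / 10000 * √(2 * π / (w * D)) := by
  have c0 := c_pos hx hc
  have hE := n11_E hl hu
  refine lumpN (u := 33 / 400) (α := 3927 / 2500) (β := 17 / 5) (κ := 469 / 1000) (M := 1381 / 100)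
    (θ := 337 / 1250) (d := 421 / 125) (s := 148 / 5) (e1 := 1573 / 1000) (δ1 := 20081 / 20000) (C := 143 / 100)
    (E := 9 / 2) hx hc hu (by norm_num) H.n0 H.n1 H.D0 H.D1 H.con H.w0 H.wx (by norm_num)
    (by norm_num) (by norm_num) (by norm_num) (by norm_num) (by norm_num) (by norm_num) ?_ (by norm_num)
    (by norm_num) (by norm_num) (by norm_num) (by norm_num) (by norm_num) (by norm_num) (by norm_num)
    (by norm_num) (by norm_num)
    (by
      have h := exp_neg_kf 4 (f := 1 / 2) (by norm_num)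
      have e : -((4 : ℕ) + 1 / 2 : ℝ) = -(9 / 2) := by norm_num
      rw [e] at h
      refine (mul_le_mul_of_nonneg_left h (by norm_num)).trans ?_
      norm_num) (n11_nb hl hu) ?_
  · refine (exp_le_exp.2 (by linarith : 137 / 25 * c ≤ 137 / 25 * (33 / 400))).trans
      ((ep_ub (by norm_num) (by norm_num)).trans (by norm_num))
  · exact modeA (cx_of hc) c0 (by norm_num) hw (by norm_num : (6427 / 2500 : ℝ) = 1 + 3927 / 2500)
      (by linarith only [hu]) (by norm_num) hE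

theorem i_n12 {x n w D c : ℝ} (H : NegD x n w D (3927 / 2500)) (hx : 112 / 25 ≤ x)
    (hc : c * (1 + x) = 1) (hl : 33 / 400 ≤ c) (hu : c ≤ 1 / 10) (hw : 52249 / 10000 ≤ w) :
    tP (-1) x n w ≤ 159 / 10000 * √(2 * π / (w * D)) := by
  have c0 := c_pos hx hc
  have hE := n12_E hl hu
  refine lumpN (u := 1 / 10) (α := 3927 / 2500) (β := 69 / 20) (κ := 469 / 1000) (M := 251 / 20)
    (θ := 2717 / 10000) (d := 464 / 125) (s := 669 / 20) (e1 := 173 / 100) (δ1 := 50309 / 50000) (C := 143 / 100)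
    (E := 9 / 2) hx hc hu (by norm_num) H.n0 H.n1 H.D0 H.D1 H.con H.w0 H.wx (by norm_num)
    (by norm_num) (by norm_num) (by norm_num) (by norm_num) (by norm_num) (by norm_num) ?_ (by norm_num)
    (by norm_num) (by norm_num) (by norm_num) (by norm_num) (by norm_num) (by norm_num) (by norm_num)
    (by norm_num) (by norm_num)
    (by
      have h := exp_neg_kf 4 (f := 1 / 2) (by norm_num)
      have e : -((4 : ℕ) + 1 / 2 : ℝ) = -(9 / 2) := by norm_num
      rw [e] at h
      refine (mul_le_mul_of_nonneg_left h (by norm_num)).trans ?_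
      norm_num) (n12_nb hl hu) ?_
  · refine (exp_le_exp.2 (by linarith : 137 / 25 * c ≤ 137 / 25 * (1 / 10))).trans
      ((ep_ub (by norm_num) (by norm_num)).trans (by norm_num))
  · exact modeB c0 (by norm_num) hw (by norm_num) hE

theorem i_n13 {x n w D c : ℝ} (H : NegD x n w D (3927 / 2500)) (hx : 112 / 25 ≤ x)
    (hc : c * (1 + x) = 1) (hl : 1 / 10 ≤ c) (hu : c ≤ 25 / 137) (hw : 52249 / 10000 ≤ w) :
    tP (-1) x n w ≤ 159 / 10000 * √(2 * π / (w * D)) := by
  have c0 := c_pos hx hc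
  have hE := n13_E hl hu
  refine lumpN (u := 25 / 137) (α := 3927 / 2500) (β := 43 / 10) (κ := 21 / 50) (M := 143 / 20)
    (θ := 2907 / 10000) (d := 3317 / 500) (s := 1728 / 25) (e1 := 1699 / 625) (δ1 := 25623 / 25000) (C := 99 / 50)
    (E := 5) hx hc hu (by norm_num) H.n0 H.n1 H.D0 H.D1 H.con H.w0 H.wx (by norm_num)
    (by norm_num) (by norm_num) (by norm_num) (by norm_num) (by norm_num) (by norm_num) ?_ (by norm_num)
    (by norm_num) (by norm_num) (by norm_num) (by norm_num) (by norm_num) (by norm_num) (by norm_num)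
    (by norm_num) (by norm_num)
    (by
      have h := exp_neg_kf 5 (f := 0) (by norm_num)
      have e : -((5 : ℕ) + 0 : ℝ) = -(5) := by norm_num
      rw [e] at h
      refine (mul_le_mul_of_nonneg_left h (by norm_num)).trans ?_
      norm_num) (n13_nb hl hu) ?_
  · refine (exp_le_exp.2 (by linarith : 137 / 25 * c ≤ 137 / 25 * (25 / 137))).trans
      ((ep_ub (by norm_num) (by norm_num)).trans (by norm_num))
  · exact modeB c0 (by norm_num) hw (by norm_num) hE

theorem i_n21 {x n w D c : ℝ} (H : NegD x n w D (20421 / 10000)) (hx : 112 / 25 ≤ x)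
    (hc : c * (1 + x) = 1) (hl : 0 ≤ c) (hu : c ≤ 1 / 10) (hw : 2533 / 2500 * (x - 20421 / 10000) ≤ w) :
    tP (-1) x n w ≤ 159 / 10000 * √(2 * π / (w * D)) := by
  have c0 := c_pos hx hc
  have hE := n21_E hl hu
  refine lumpN (u := 1 / 10) (α := 20421 / 10000) (β := 53 / 10) (κ := 469 / 1000) (M := 251 / 20)
    (θ := 2717 / 10000) (d := 464 / 125) (s := 669 / 20) (e1 := 173 / 100) (δ1 := 50309 / 50000) (C := 143 / 100)
    (E := 9 / 2) hx hc hu (by norm_num) H.n0 H.n1 H.D0 H.D1 H.con H.w0 H.wx (by norm_num)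
    (by norm_num) (by norm_num) (by norm_num) (by norm_num) (by norm_num) (by norm_num) ?_ (by norm_num)
    (by norm_num) (by norm_num) (by norm_num) (by norm_num) (by norm_num) (by norm_num) (by norm_num)
    (by norm_num) (by norm_num)
    (by
      have h := exp_neg_kf 4 (f := 1 / 2) (by norm_num)
      have e : -((4 : ℕ) + 1 / 2 : ℝ) = -(9 / 2) := by norm_num
      rw [e] at h
      refine (mul_le_mul_of_nonneg_left h (by norm_num)).trans ?_
      norm_num) (n21_nb hl hu) ?_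
  · refine (exp_le_exp.2 (by linarith : 137 / 25 * c ≤ 137 / 25 * (1 / 10))).trans
      ((ep_ub (by norm_num) (by norm_num)).trans (by norm_num))
  · exact modeA (cx_of hc) c0 (by norm_num) hw (by norm_num : (30421 / 10000 : ℝ) = 1 + 20421 / 10000)
      (by linarith only [hu]) (by norm_num) hE

theorem i_n22 {x n w D c : ℝ} (H : NegD x n w D (20421 / 10000)) (hx : 112 / 25 ≤ x)
    (hc : c * (1 + x) = 1) (hl : 1 / 10 ≤ c) (hu : c ≤ 13 / 100) (hw : 4444 / 625 ≤ w) :
    tP (-1) x n w ≤ 159 / 10000 * √(2 * π / (w * D)) := by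
  have c0 := c_pos hx hc
  have hE := n22_E hl hu
  refine lumpN (u := 13 / 100) (α := 47 / 25) (β := 67 / 10) (κ := 93 / 200) (M := 211 / 20)
    (θ := 1381 / 5000) (d := 4437 / 1000) (s := 4183 / 100) (e1 := 51 / 25) (δ1 := 101117 / 100000) (C := 79 / 50)
    (E := 93 / 20) hx hc hu (by norm_num) H.n0 H.n1 H.D0 H.D1 H.con H.w0 H.wx (by norm_num)
    (by norm_num) (by norm_num) (by norm_num) (by norm_num) (by norm_num) (by norm_num) ?_ (by norm_num)
    (by norm_num) (by norm_num) (by norm_num) (by norm_num) (by norm_num) (by norm_num) (by norm_num)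
    (by norm_num) (by norm_num)
    (by
      have h := exp_neg_kf 4 (f := 13 / 20) (by norm_num)
      have e : -((4 : ℕ) + 13 / 20 : ℝ) = -(93 / 20) := by norm_num
      rw [e] at h
      refine (mul_le_mul_of_nonneg_left h (by norm_num)).trans ?_
      norm_num) (n22_nb hl hu) ?_
  · refine (exp_le_exp.2 (by linarith : 137 / 25 * c ≤ 137 / 25 * (13 / 100))).trans
      ((ep_ub (by norm_num) (by norm_num)).trans (by norm_num))
  · exact modeB c0 (by norm_num) hw (by norm_num) hE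

theorem i_n23 {x n w D c : ℝ} (H : NegD x n w D (20421 / 10000)) (hx : 112 / 25 ≤ x)
    (hc : c * (1 + x) = 1) (hl : 13 / 100 ≤ c) (hu : c ≤ 4 / 25) (hw : 4444 / 625 ≤ w) :
    tP (-1) x n w ≤ 159 / 10000 * √(2 * π / (w * D)) := by
  have c0 := c_pos hx hc
  have hE := n23_E hl hu
  refine lumpN (u := 4 / 25) (α := 43 / 25) (β := 159 / 20) (κ := 921 / 2000) (M := 887 / 100)
    (θ := 1409 / 5000) (d := 1329 / 250) (s := 263 / 5) (e1 := 601 / 250) (δ1 := 20363 / 20000) (C := 7 / 4)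
    (E := 19 / 4) hx hc hu (by norm_num) H.n0 H.n1 H.D0 H.D1 H.con H.w0 H.wx (by norm_num)
    (by norm_num) (by norm_num) (by norm_num) (by norm_num) (by norm_num) (by norm_num) ?_ (by norm_num)
    (by norm_num) (by norm_num) (by norm_num) (by norm_num) (by norm_num) (by norm_num) (by norm_num)
    (by norm_num) (by norm_num)
    (by
      have h := exp_neg_kf 4 (f := 3 / 4) (by norm_num)
      have e : -((4 : ℕ) + 3 / 4 : ℝ) = -(19 / 4) := by norm_num
      rw [e] at h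
      refine (mul_le_mul_of_nonneg_left h (by norm_num)).trans ?_
      norm_num) (n23_nb hl hu) ?_
  · refine (exp_le_exp.2 (by linarith : 137 / 25 * c ≤ 137 / 25 * (4 / 25))).trans
      ((ep_ub (by norm_num) (by norm_num)).trans (by norm_num))
  · exact modeB c0 (by norm_num) hw (by norm_num) hE

theorem i_n24 {x n w D c : ℝ} (H : NegD x n w D (20421 / 10000)) (hx : 112 / 25 ≤ x)
    (hc : c * (1 + x) = 1) (hl : 4 / 25 ≤ c) (hu : c ≤ 25 / 137) :
    tP (-1) x n w ≤ 159 / 10000 * √(2 * π / (w * D)) := by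
  have c0 := c_pos hx hc
  have hE := n24_E hl hu
  refine lumpN (u := 25 / 137) (α := 37 / 25) (β := 189 / 20) (κ := 21 / 50) (M := 143 / 20)
    (θ := 2907 / 10000) (d := 3317 / 500) (s := 1728 / 25) (e1 := 1699 / 625) (δ1 := 25623 / 25000) (C := 99 / 50)
    (E := 97 / 20) hx hc hu (by norm_num) H.n0 H.n1 H.D0 H.D1 H.con H.w0 H.wx (by norm_num)
    (by norm_num) (by norm_num) (by norm_num) (by norm_num) (by norm_num) (by norm_num) ?_ (by norm_num)
    (by norm_num) (by norm_num) (by norm_num) (by norm_num) (by norm_num) (by norm_num) (by norm_num)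
    (by norm_num) (by norm_num)
    (by
      have h := exp_neg_kf 4 (f := 17 / 20) (by norm_num)
      have e : -((4 : ℕ) + 17 / 20 : ℝ) = -(97 / 20) := by norm_num
      rw [e] at h
      refine (mul_le_mul_of_nonneg_left h (by norm_num)).trans ?_
      norm_num) (n24_nb hl hu) ?_
  · refine (exp_le_exp.2 (by linarith : 137 / 25 * c ≤ 137 / 25 * (25 / 137))).trans
      ((ep_ub (by norm_num) (by norm_num)).trans (by norm_num))
  · exact modeC (cx_of hc) c0 (by linarith only [hu]) (by norm_num) (by linarith only [H.wx] : (1158 / 25 : ℝ) ≤ w * x) (by norm_num) hE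

theorem i_p11 {x y w D c : ℝ} (H : PosD x y w D (3927 / 2500)) (hx : 112 / 25 ≤ x)
    (hc : c * (1 + x) = 1) (hl : 0 ≤ c) (hu : c ≤ 11 / 100) (hw : 5471 / 10000 * (x * (1 + y)) ≤ w) :
    tP 1 x y w ≤ 159 / 10000 * √(2 * π / (w * D)) := by
  have c0 := c_pos hx hc
  have c1 := c_le hx hc
  have hE := p11_E hl hu
  have hwx : 34 ≤ w * x := by
    have h1 := mul_le_mul_of_nonneg_left hx H.w0.le
    have h2 := H.wx
    linarith only [h1, h2]
  refine lumpP (u := 11 / 100) (α := 3927 / 2500) (β := 2 / 5) (κ := 117 / 250)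
    (d := 54 / 25) (s := 483 / 25) (em := 1) (e2 := 16491 / 10000) (δ1 := 5053 / 5000) (C := 27 / 25)
    (E := 17 / 4) hx hc hu (by norm_num) H.y0 H.D0 H.D1 H.con H.w0 hwx (by norm_num)
    (by norm_num) (by norm_num) (by norm_num) (by norm_num) (by norm_num) ?_ (by norm_num) (by norm_num)
    (exp_le_one_iff.2 (by linarith only [c0]))
    (by norm_num) (by norm_num) (by norm_num) (by norm_num) (by norm_num) (by norm_num)
    (by
      have h := exp_neg_kf 4 (f := 1 / 4) (by norm_num)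
      have e : -((4 : ℕ) + 1 / 4 : ℝ) = -(17 / 4) := by norm_num
      rw [e] at h
      refine (mul_le_mul_of_nonneg_left h (by norm_num)).trans ?_
      norm_num) (p11_yb hl hu) (fun hy => ?_)
  · refine (exp_le_exp.2 (by linarith : 137 / 50 * c ≤ 1 / 2)).trans
      ((ep_ub (by norm_num) (by norm_num)).trans (by norm_num))
  · exact modeAP (cx_of hc) c0 c1 (by norm_num) (by linarith only [hx]) H.y0 hy rfl (by positivity) (by norm_num) hw
      (by norm_num) hE

theorem i_p12 {x y w D c : ℝ} (H : PosD x y w D (3927 / 2500)) (hx : 112 / 25 ≤ x)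
    (hc : c * (1 + x) = 1) (hl : 11 / 100 ≤ c) (hu : c ≤ 25 / 137) (hw : 52249 / 10000 ≤ w) :
    tP 1 x y w ≤ 159 / 10000 * √(2 * π / (w * D)) := by
  have c0 := c_pos hx hc
  have c1 := c_le hx hc
  have hE := p12_E hl hu
  have hwx : 34 ≤ w * x := by
    have h1 := mul_le_mul_of_nonneg_left hx H.w0.le
    have h2 := H.wx
    linarith only [h1, h2]
  refine lumpP (u := 25 / 137) (α := 3927 / 2500) (β := 2 / 5) (κ := 23 / 50)
    (d := 621 / 500) (s := 107 / 5) (em := 137 / 250) (e2 := 16491 / 10000) (δ1 := 10421 / 10000) (C := 21 / 25)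
    (E := 4) hx hc hu (by norm_num) H.y0 H.D0 H.D1 H.con H.w0 hwx (by norm_num)
    (by norm_num) (by norm_num) (by norm_num) (by norm_num) (by norm_num) ?_ (by norm_num) (by norm_num)
    (em_le (f := 137 / 25 * (11 / 100)) (by norm_num) (by linarith only [hl]) (by norm_num) (by norm_num))
    (by norm_num) (by norm_num) (by norm_num) (by norm_num) (by norm_num) (by norm_num)
    (by
      have h := exp_neg_kf 4 (f := 0) (by norm_num)
      have e : -((4 : ℕ) + 0 : ℝ) = -(4) := by norm_num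
      rw [e] at h
      refine (mul_le_mul_of_nonneg_left h (by norm_num)).trans ?_
      norm_num) (p12_yb hl hu) (fun hy => ?_)
  · refine (exp_le_exp.2 (by linarith : 137 / 50 * c ≤ 1 / 2)).trans
      ((ep_ub (by norm_num) (by norm_num)).trans (by norm_num))
  · exact modeBP c0 (by norm_num) hy rfl hw (by norm_num) hE

theorem i_p21 {x y w D c : ℝ} (H : PosD x y w D (20421 / 10000)) (hx : 112 / 25 ≤ x)
    (hc : c * (1 + x) = 1) (hl : 0 ≤ c) (hu : c ≤ 7 / 50) (hw : 2533 / 2500 * (x * (1 + y)) ≤ w) :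
    tP 1 x y w ≤ 159 / 10000 * √(2 * π / (w * D)) := by
  have c0 := c_pos hx hc
  have c1 := c_le hx hc
  have hE := p21_E hl hu
  have hwx : 34 ≤ w * x := by
    have h1 := mul_le_mul_of_nonneg_left hx H.w0.le
    have h2 := H.wx
    linarith only [h1, h2]
  refine lumpP (u := 7 / 50) (α := 20421 / 10000) (β := 1 / 20) (κ := 58 / 125)
    (d := 2203 / 1000) (s := 2017 / 100) (em := 1) (e2 := 16491 / 10000) (δ1 := 20439 / 20000) (C := 11 / 10)
    (E := 17 / 4) hx hc hu (by norm_num) H.y0 H.D0 H.D1 H.con H.w0 hwx (by norm_num)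
    (by norm_num) (by norm_num) (by norm_num) (by norm_num) (by norm_num) ?_ (by norm_num) (by norm_num)
    (exp_le_one_iff.2 (by linarith only [c0]))
    (by norm_num) (by norm_num) (by norm_num) (by norm_num) (by norm_num) (by norm_num)
    (by
      have h := exp_neg_kf 4 (f := 1 / 4) (by norm_num)
      have e : -((4 : ℕ) + 1 / 4 : ℝ) = -(17 / 4) := by norm_num
      rw [e] at h
      refine (mul_le_mul_of_nonneg_left h (by norm_num)).trans ?_
      norm_num) (p21_yb hl hu) (fun hy => ?_)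
  · refine (exp_le_exp.2 (by linarith : 137 / 50 * c ≤ 1 / 2)).trans
      ((ep_ub (by norm_num) (by norm_num)).trans (by norm_num))
  · exact modeAP (cx_of hc) c0 c1 (by norm_num) (by linarith only [hx]) H.y0 hy rfl (by positivity) (by norm_num) hw
      (by norm_num) hE

theorem i_p22 {x y w D c : ℝ} (H : PosD x y w D (20421 / 10000)) (hx : 112 / 25 ≤ x)
    (hc : c * (1 + x) = 1) (hl : 7 / 50 ≤ c) (hu : c ≤ 25 / 137) (hw : 4444 / 625 ≤ w) :
    tP 1 x y w ≤ 159 / 10000 * √(2 * π / (w * D)) := by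
  have c0 := c_pos hx hc
  have c1 := c_le hx hc
  have hE := p22_E hl hu
  have hwx : 34 ≤ w * x := by
    have h1 := mul_le_mul_of_nonneg_left hx H.w0.le
    have h2 := H.wx
    linarith only [h1, h2]
  refine lumpP (u := 25 / 137) (α := 20421 / 10000) (β := 1 / 20) (κ := 23 / 50)
    (d := 1059 / 1000) (s := 107 / 5) (em := 93 / 200) (e2 := 16491 / 10000) (δ1 := 52353 / 50000) (C := 21 / 25)
    (E := 4) hx hc hu (by norm_num) H.y0 H.D0 H.D1 H.con H.w0 hwx (by norm_num)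
    (by norm_num) (by norm_num) (by norm_num) (by norm_num) (by norm_num) ?_ (by norm_num) (by norm_num)
    (em_le (f := 137 / 25 * (7 / 50)) (by norm_num) (by linarith only [hl]) (by norm_num) (by norm_num))
    (by norm_num) (by norm_num) (by norm_num) (by norm_num) (by norm_num) (by norm_num)
    (by
      have h := exp_neg_kf 4 (f := 0) (by norm_num)
      have e : -((4 : ℕ) + 0 : ℝ) = -(4) := by norm_num
      rw [e] at h
      refine (mul_le_mul_of_nonneg_left h (by norm_num)).trans ?_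
      norm_num) (p22_yb hl hu) (fun hy => ?_)
  · refine (exp_le_exp.2 (by linarith : 137 / 50 * c ≤ 1 / 2)).trans
      ((ep_ub (by norm_num) (by norm_num)).trans (by norm_num))
  · exact modeBP c0 (by norm_num) hy rfl hw (by norm_num) hE

end SokamT2

end

/-! ### Lib_MP_af4de1_v3.T2Harm -/

section
namespace SokamF1S
end SokamF1S
namespace SokamV3
end SokamV3
/-!
# `N = 2`, tails: `x ≥ 112/25`, both lumps; `y ≤ 0`, `x ≤ 112/25` (helper63)
-/

set_option autoImplicit false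

namespace SokamT2

open Real Set SokamF1S SokamV3

theorem modeAN {g x n K w c X s E : ℝ} (hcx : c * x = 1 - c) (c0 : 0 < c) (c1 : c ≤ 19 / 200)
    (g0 : 0 < g) (x0 : 0 < x) (n0 : 0 ≤ n) (n1 : n ≤ 1 / 2) (hK : K = 6283 / 1000) (hX : 15 ≤ X)
    (hs : 0 ≤ s) (hw : g * (x * (1 - n)) ≤ w) (hE0 : 0 < E)
    (hE : E ≤ g * ((1 - c) * (K * (137 / 25) - (1 - c) * X - s * c ^ (2 : ℕ)))) :
    E ≤ w * (K * (137 / 25 * c + n) - c * ((1 - c) * X) - c * (s * c ^ (2 : ℕ))) := by
  obtain ⟨Q, hQd⟩ : ∃ Q, Q = K * (137 / 25) - (1 - c) * X - s * c ^ (2 : ℕ) := ⟨_, rfl⟩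
  rw [← hQd] at hE
  have hQ : 0 < Q := pos_of_mul g0 (by linarith only [c1]) hE0 hE
  have hQ2 : Q ≤ 21 := by
    have a1 : (1 - 19 / 200) * 15 ≤ (1 - c) * X := mul_le_mul (by linarith only [c1]) hX (by norm_num) (by linarith only [c1])
    have a2 : 0 ≤ s * c ^ (2 : ℕ) := by positivity
    rw [hQd, hK]
    linarith only [a1, a2]
  have hP : c * Q ≤ 2 := by
    have : c * Q ≤ 19 / 200 * 21 := mul_le_mul c1 hQ2 hQ.le (by norm_num)
    linarith only [this]
  have hP0 : 0 < c * Q := mul_pos c0 hQ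
  have e2 : K * (137 / 25 * c + n) - c * ((1 - c) * X) - c * (s * c ^ (2 : ℕ)) = c * Q + K * n := by
    rw [hQd]
    ring
  rw [e2]
  have h1 : c * Q ≤ (1 - n) * (c * Q + K * n) := by
    have a1 : (1 - n) * (c * Q + K * n) - c * Q = n * (K * (1 - n) - c * Q) := by ring
    have a2 : 0 ≤ K * (1 - n) - c * Q := by
      rw [hK]
      linarith only [n1, hP]
    have a3 := mul_nonneg n0 a2
    linarith only [a3]
  have h3 : 0 ≤ c * Q + K * n := by
    have : 0 ≤ K * n := mul_nonneg (by rw [hK]; norm_num) n0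
    linarith only [hP0, this]
  calc E ≤ g * ((1 - c) * Q) := hE
    _ = g * x * (c * Q) := by
        linear_combination (-g * Q) * hcx
    _ ≤ g * x * ((1 - n) * (c * Q + K * n)) := mul_le_mul_of_nonneg_left h1 (by positivity)
    _ = g * (x * (1 - n)) * (c * Q + K * n) := by ring
    _ ≤ w * (c * Q + K * n) := mul_le_mul_of_nonneg_right hw h3

/-- the harmless lump, `y ≤ 0`, `x ≥ 112/25` -/
theorem harmN {x n w D p c : ℝ} (H : NegD x n w D p) (hx : 112 / 25 ≤ x)
    (hc : c * (1 + x) = 1) (hw : 5471 / 10000 * (x * (1 - n)) ≤ w) (hw0 : 52249 / 10000 ≤ w) :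
    tP 1 x (-n) w ≤ 3 / 10000 * √(2 * π / (w * D)) := by
  have c0 := c_pos hx hc
  have c1 := c_le hx hc
  refine lumpNn (E := 44 / 5) hx hc H.n0 H.n1 H.nx H.D0 H.D1 H.w0 H.wx
    (by
      have h := exp_neg_kf 8 (f := 4 / 5) (by norm_num)
      have e : -((8 : ℕ) + 4 / 5 : ℝ) = -(44 / 5) := by norm_num
      rw [e] at h
      refine (mul_le_mul_of_nonneg_left h (by norm_num)).trans ?_
      norm_num) ?_
  rcases le_total c (19 / 200) with h | h
  · have hE := nn1_E c0.le h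
    have := modeAN (X := 150152 / 10000 + 274278 / 10000 * c + 37577 / 1000 * c ^ (2 : ℕ) +
      49421 / 1000 * c ^ (3 : ℕ)) (s := 469 / 20) (cx_of hc) c0 h (by norm_num) (by linarith only [hx, hc]) H.n0 H.n1 rfl
      (by
        have : 0 ≤ c ^ (2 : ℕ) := by positivity
        have : 0 ≤ c ^ (3 : ℕ) := by positivity
        linarith) (by norm_num) hw (by norm_num) hE
    refine this.trans (le_of_eq ?_)
    ring
  · have hE := nn2_E h c1
    have h1 := modeB c0 (by norm_num) hw0 (by norm_num) hE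
    refine h1.trans (mul_le_mul_of_nonneg_left ?_ H.w0.le)
    have := H.n0
    linarith only [this]

/-- the harmless lump, `y ≥ 0`, `x ≥ 112/25` -/
theorem harmP {x y w D c : ℝ} (H : PosD x y w D (20421 / 10000)) (hx : 112 / 25 ≤ x)
    (hc : c * (1 + x) = 1) (hw : 5471 / 10000 * x ≤ w) (hw0 : 52249 / 10000 ≤ w) :
    tP (-1) x (-y) w ≤ 3 / 10000 * √(2 * π / (w * D)) := by
  have c0 := c_pos hx hc
  have c1 := c_le hx hc
  have hy : y ≤ 376 / 1000 := by
    have h1 : y ≤ c * (20421 / 10000 + 1 / 20 * c) := by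
      rcases le_total c (7 / 50) with h | h
      · exact y_le hx hc H.y0 H.con (by norm_num) (by norm_num) h (p21_yb c0.le h)
      · exact y_le hx hc H.y0 H.con (by norm_num) (by norm_num) c1 (p22_yb h c1)
    have h2 : c * (20421 / 10000 + 1 / 20 * c) ≤ 25 / 137 * (20421 / 10000 + 1 / 20 * (25 / 137)) :=
      mul_le_mul c1 (by linarith only [c1]) (by positivity) (by norm_num)
    norm_num at h2
    linarith only [h1, h2]
  have hwx : 34 ≤ w * x := by
    have h1 := mul_le_mul_of_nonneg_left hx H.w0.le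
    have h2 := H.wx
    linarith only [h1, h2]
  refine lumpPn (E := 9) hx hc H.y0 hy H.D0 H.D1 H.w0 hwx
    (by
      have h := exp_neg_kf 9 (f := 0) (by norm_num)
      have e : -((9 : ℕ) + 0 : ℝ) = -(9) := by norm_num
      rw [e] at h
      refine (mul_le_mul_of_nonneg_left h (by norm_num)).trans ?_
      norm_num) ?_
  have e1 : w * (6283 / 1000 * (137 / 25 * c) -
      c * ((1 - c) * (150152 / 10000 - 274277 / 10000 * c + 37577 / 1000 * c ^ (2 : ℕ))) - c * (126 * c ^ (2 : ℕ))) =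
      w * (c * (6283 / 1000 * (137 / 25) -
      (1 - c) * (150152 / 10000 - 274277 / 10000 * c + 37577 / 1000 * c ^ (2 : ℕ)) - 126 * c ^ (2 : ℕ))) := by ring
  rw [e1]
  rcases le_total c (19 / 200) with h | h
  · have hE := pn1_E c0.le h
    exact modeA (g := 5471 / 10000) (p := 0) (q := 1) (cx_of hc) c0 (by norm_num) (by linarith only [hw])
      (by norm_num) (by linarith only [h]) (by norm_num) (by rw [one_mul]; exact hE)
  · have hE := pn2_E h c1
    exact modeB c0 (by norm_num) hw0 (by norm_num) hE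

/-! ### the low range, `y ≤ 0` -/

theorem ta_one {x : ℝ} (h0 : 0 < x) (hx : x ≤ 112 / 25) : ta x = 1 := by
  unfold ta ts
  rw [min_eq_right (by linarith only [hx])]
  exact inv_mul_cancel₀ (by linarith only [h0])

/-- dangerous lump -/
theorem loN {x n w D p : ℝ} (H : NegD x n w D p) (hx : x ≤ 112 / 25) :
    tP (-1) x n w ≤ 159 / 10000 * √(2 * π / (w * D)) := by
  have x1 := H.x0
  have x0 : 0 < x := by linarith only [x1]
  have hta := ta_one x0 hx
  have hw := H.w0
  have hwx := H.wx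
  have n0 := H.n0
  have n1 := H.n1
  have hnx := H.nx
  have he1 := exp_one_lt_d9
  have he2 := exp_one_gt_d9
  have hkap : 134 / 1000 * |n| ≤ (473 / 1000 - 42 / 100) * x := by
    rw [abs_of_nonneg n0]
    linarith only [x1, n1]
  have hmu := mu_m (v := n) (e1 := 27183 / 10000) x0 (by norm_num : (0 : ℝ) < 42 / 100) hkap
    (by norm_num) (by
      rw [hta]
      linarith only [he1])
  have hμ0 : 0 < tμ (-1) x n := by linarith only [x0, hmu]
  have hi : exp (-1) ≤ 36789 / 100000 := by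
    rw [exp_neg, inv_le_comm₀ (exp_pos _) (by norm_num)]
    norm_num
    linarith only [he2]
  have hi0 := exp_pos (-1)
  refine tP_le hw H.D0 (M := 715 / 100) (θ := 2907 / 10000) (d := 681 / 100) (C := 199 / 100)
    (E := 485 / 100) (by norm_num) hμ0 ?_ (by norm_num) ?_ (by norm_num) (by norm_num) ?_
    (by
      have h := exp_neg_kf 4 (f := 17 / 20) (by norm_num)
      have e : -((4 : ℕ) + 17 / 20 : ℝ) = -(485 / 100) := by norm_num
      rw [e] at h
      refine (mul_le_mul_of_nonneg_left h (by norm_num)).trans ?_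
      norm_num)
  · have b1 := mul_le_mul_of_nonneg_left hmu hw.le
    linarith only [hwx, b1]
  · have b1 := D_le (u := 10 / 41) (δ1 := 10521 / 10000) x0 zero_le_one H.D1 (by norm_num)
      (by norm_num) (by linarith only [x1]) (by norm_num) (by norm_num)
    linarith only [hmu, hμ0, b1]
  · have hm : tm (-1) x n ^ (2 : ℕ) ≤ 1 := by
      unfold tm
      rw [hta]
      have b0 : (-1 : ℝ) * 1 = -1 := by norm_num
      rw [b0]
      have b1 : 0 ≤ (1 - exp (-1)) * n := mul_nonneg (by linarith only [hi]) n0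
      have b2 : (1 - exp (-1)) * n ≤ 1 * 1 := mul_le_mul (by linarith only [hi0]) (by linarith only [n1]) n0 (by norm_num)
      have b3 := pow_le_pow_left₀ (by linarith : 0 ≤ 1 - n + exp (-1) * n)
        (by linarith : 1 - n + exp (-1) * n ≤ 1) 2
      linarith only [b3]
    have hθ : 2907 / 10000 * tm (-1) x n ^ (2 : ℕ) / tμ (-1) x n ≤ 607 / 1000 := by
      rw [div_le_iff₀ hμ0]
      linarith only [x1, hmu, hm]
    have hH : tH (-1) x n - 607 / 1000 ≥ 105 / 1000 * x := by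
      unfold tH
      rw [hta]
      have b0 : (-1 : ℝ) * 1 = -1 := by norm_num
      rw [b0]
      have hpi := pi_gt_d4
      have b1 : 6283 / 1000 * (1 - n) ≤ 2 * π * (1 - n) :=
        mul_le_mul_of_nonneg_right (by linarith only [hpi]) (by linarith only [n1])
      have b2 : x * (exp (-1) - 1 - -1) ≤ x * (36789 / 100000) :=
        mul_le_mul_of_nonneg_left (by linarith only [hi]) x0.le
      linarith only [hx, n1, b1, b2]
    have h1 := mul_le_mul_of_nonneg_left (sub_le_sub_left hθ (tH (-1) x n)) hw.le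
    have h2 := mul_le_mul_of_nonneg_left hH.le hw.le
    linarith only [hwx, h1, h2]

/-- harmless lump -/
theorem loNn {x n w D p : ℝ} (H : NegD x n w D p) (hx : x ≤ 112 / 25) :
    tP 1 x (-n) w ≤ 3 / 10000 * √(2 * π / (w * D)) := by
  have x1 := H.x0
  have x0 : 0 < x := by linarith only [x1]
  have hta := ta_one x0 hx
  have hw := H.w0
  have hwx := H.wx
  have n0 := H.n0
  have n1 := H.n1
  have hnx := H.nx
  have he1 := exp_one_lt_d9
  have he2 := exp_one_gt_d9
  have hkap : 134 / 1000 * |(-n)| ≤ (473 / 1000 - 42 / 100) * x := by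
    rw [abs_neg, abs_of_nonneg n0]
    linarith only [x1, n1]
  have hmu := mu_p (v := -n) (em := 1) x0 (by norm_num : (0 : ℝ) < 42 / 100) hkap
    one_pos (by
      rw [hta]
      exact exp_le_one_iff.2 (by norm_num))
  have hμ0 : 0 < tμ 1 x (-n) := by linarith only [x0, hmu]
  refine tP_le hw H.D0 (M := 15) (θ := 2679 / 10000) (d := 2506 / 1000) (C := 116 / 100)
    (E := 44 / 5) (by norm_num) hμ0 ?_ (by norm_num) ?_ (by norm_num) (by norm_num) ?_
    (by
      have h := exp_neg_kf 8 (f := 4 / 5) (by norm_num)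
      have e : -((8 : ℕ) + 4 / 5 : ℝ) = -(44 / 5) := by norm_num
      rw [e] at h
      refine (mul_le_mul_of_nonneg_left h (by norm_num)).trans ?_
      norm_num)
  · have b1 := mul_le_mul_of_nonneg_left hmu hw.le
    linarith only [hwx, b1]
  · have b1 := D_le (u := 10 / 41) (δ1 := 10521 / 10000) x0 zero_le_one H.D1 (by norm_num)
      (by norm_num) (by linarith only [x1]) (by norm_num) (by norm_num)
    linarith only [hmu, hμ0, b1]
  · have hm : tm 1 x (-n) ^ (2 : ℕ) ≤ 1 := by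
      unfold tm
      rw [hta]
      have b0 : (1 : ℝ) * 1 = 1 := by norm_num
      rw [b0]
      have b1 : 0 ≤ (exp 1 - 1) * n := mul_nonneg (by linarith only [he2]) n0
      have b2 : (exp 1 - 1) * n ≤ 2 * (1 / 2) := mul_le_mul (by linarith only [he1]) (by linarith only [n1]) n0 (by norm_num)
      have b3 := pow_le_pow_left₀ (by linarith : 0 ≤ 1 - -n + exp 1 * -n)
        (by linarith : 1 - -n + exp 1 * -n ≤ 1) 2
      linarith only [b3]
    have hθ : 2679 / 10000 * tm 1 x (-n) ^ (2 : ℕ) / tμ 1 x (-n) ≤ 206 / 1000 := by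
      rw [div_le_iff₀ hμ0]
      linarith only [x1, hmu, hm]
    have hH : tH 1 x (-n) - 206 / 1000 ≥ 19 / 100 * x := by
      unfold tH
      rw [hta]
      have b0 : (1 : ℝ) * 1 = 1 := by norm_num
      rw [b0]
      have hpi := pi_gt_d4
      have b1 : 6283 / 1000 * (1 - -n) ≤ 2 * π * (1 - -n) :=
        mul_le_mul_of_nonneg_right (by linarith only [hpi]) (by linarith only [n0])
      have b2 : x * (exp 1 - 1 - 1) ≤ x * (71829 / 100000) :=
        mul_le_mul_of_nonneg_left (by linarith only [he1]) x0.le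
      linarith only [hx, n0, b1, b2]
    have h1 := mul_le_mul_of_nonneg_left (sub_le_sub_left hθ (tH 1 x (-n))) hw.le
    have h2 := mul_le_mul_of_nonneg_left hH.le hw.le
    linarith only [hwx, h1, h2]

end SokamT2

end

/-! ### Lib_MP_af4de1_v3.T2A -/

section
namespace SokamF1
end SokamF1
namespace SokamF1M
end SokamF1M
namespace SokamF1S
end SokamF1S
namespace SokamV3
end SokamV3
/-!
# `N = 2`, tails: the pieces A and B (helper63; `y ≥ 0`, `x ≤ 112/25`: helper2)

`pTA : PTA`, `pTB : PTB`.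
-/

set_option autoImplicit false

namespace SokamT2

open Real Set SokamF1 SokamF1S SokamF1M SokamV3

theorem PosD.mono {x y w D p p' : ℝ} (H : PosD x y w D p) (h : p ≤ p') : PosD x y w D p' :=
  ⟨H.x0, H.y0, H.y1, H.yx, H.D0, H.D1, H.con.trans h, H.w0, H.wx⟩

theorem ex_c {x : ℝ} (hx : 0 < x) : ∃ c, c * (1 + x) = 1 :=
  ⟨(1 + x)⁻¹, inv_mul_cancel₀ (by linarith only [hx])⟩

theorem add_le_162 {a b s : ℝ} (ha : a ≤ 3 / 10000 * s) (hb : b ≤ 159 / 10000 * s) :
    a + b ≤ 162 / 10000 * s := by linarith only [ha, hb]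

theorem neg1 {x n w D : ℝ} (H : NegD x n w D (3927 / 2500))
    (hg : 5471 / 10000 * (x - 3927 / 2500) ≤ w) (hg' : 5471 / 10000 * (x * (1 - n)) ≤ w)
    (hw0 : 52249 / 10000 ≤ w) :
    tP 1 x (-n) w + tP (-1) x n w ≤ 162 / 10000 * √(2 * π / (w * D)) := by
  rcases le_total x (112 / 25) with hx | hx
  · exact add_le_162 (loNn H hx) (loN H hx)
  · obtain ⟨c, hc⟩ := ex_c (by linarith : 0 < x)
    have c0 := c_pos hx hc
    have c1 := c_le hx hc
    refine add_le_162 (harmN H hx hc hg' hw0) ?_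
    rcases le_total c (33 / 400) with h1 | h1
    · exact i_n11 H hx hc c0.le h1 hg
    rcases le_total c (1 / 10) with h2 | h2
    · exact i_n12 H hx hc h1 h2 hw0
    · exact i_n13 H hx hc h2 c1 hw0

theorem neg2 {x n w D : ℝ} (H : NegD x n w D (20421 / 10000))
    (hg : 2533 / 2500 * (x - 20421 / 10000) ≤ w) (hg' : 5471 / 10000 * (x * (1 - n)) ≤ w)
    (hw0 : 4444 / 625 ≤ w) :
    tP 1 x (-n) w + tP (-1) x n w ≤ 162 / 10000 * √(2 * π / (w * D)) := by
  rcases le_total x (112 / 25) with hx | hx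
  · exact add_le_162 (loNn H hx) (loN H hx)
  · obtain ⟨c, hc⟩ := ex_c (by linarith : 0 < x)
    have c0 := c_pos hx hc
    have c1 := c_le hx hc
    refine add_le_162 (harmN H hx hc hg' (by linarith only [hw0])) ?_
    rcases le_total c (1 / 10) with h1 | h1
    · exact i_n21 H hx hc c0.le h1 hg
    rcases le_total c (13 / 100) with h2 | h2
    · exact i_n22 H hx hc h1 h2 hw0
    rcases le_total c (4 / 25) with h3 | h3
    · exact i_n23 H hx hc h2 h3 hw0
    · exact i_n24 H hx hc h3 c1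

theorem pos1 {x y w D : ℝ} (H : PosD x y w D (3927 / 2500))
    (hg : 5471 / 10000 * (x * (1 + y)) ≤ w) (hw0 : 52249 / 10000 ≤ w) :
    tP 1 x y w + tP (-1) x (-y) w ≤ 162 / 10000 * √(2 * π / (w * D)) := by
  have H2 := H.mono (by norm_num : (3927 / 2500 : ℝ) ≤ 20421 / 10000)
  have x0 := H.x0
  rw [add_comm]
  rcases le_total x (112 / 25) with hx | hx
  · exact add_le_162 (loPn H.x0 hx H.y0 H.y1 H.D0 H.D1 H2.con H.w0 H.wx)
      (loP H.x0 hx H.y0 H.y1 H.D0 H.D1 H2.con H.w0 H.wx)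
  · obtain ⟨c, hc⟩ := ex_c (by linarith : 0 < x)
    have c0 := c_pos hx hc
    have c1 := c_le hx hc
    have hgx : 5471 / 10000 * x ≤ w := by
      have : 0 ≤ x * y := mul_nonneg (by linarith only [hx]) H.y0
      linarith only [hg, this]
    refine add_le_162 (harmP H2 hx hc hgx hw0) ?_
    rcases le_total c (11 / 100) with h1 | h1
    · exact i_p11 H hx hc c0.le h1 hg
    · exact i_p12 H hx hc h1 c1 hw0

theorem pos2 {x y w D : ℝ} (H : PosD x y w D (20421 / 10000))
    (hg : 2533 / 2500 * (x * (1 + y)) ≤ w) (hw0 : 4444 / 625 ≤ w) :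
    tP 1 x y w + tP (-1) x (-y) w ≤ 162 / 10000 * √(2 * π / (w * D)) := by
  have x0 := H.x0
  rw [add_comm]
  rcases le_total x (112 / 25) with hx | hx
  · exact add_le_162 (loPn H.x0 hx H.y0 H.y1 H.D0 H.D1 H.con H.w0 H.wx)
      (loP H.x0 hx H.y0 H.y1 H.D0 H.D1 H.con H.w0 H.wx)
  · obtain ⟨c, hc⟩ := ex_c (by linarith : 0 < x)
    have c0 := c_pos hx hc
    have c1 := c_le hx hc
    have hgx : 5471 / 10000 * x ≤ w := by
      have : 0 ≤ x * y := mul_nonneg (by linarith only [hx]) H.y0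
      linarith only [hg, hw0, this]
    refine add_le_162 (harmP H hx hc hgx (by linarith only [hw0])) ?_
    rcases le_total c (7 / 50) with h1 | h1
    · exact i_p21 H hx hc c0.le h1 hg
    · exact i_p22 H hx hc h1 c1 hw0

/-! ### the parameters -/

/-- `w ≥ g ρ`, `w ≥ w₀` -/
theorem w_ge {r δ G g w0 : ℝ} (hR : Reg2 r δ) (hG : G ≤ Gm 2 r δ) (g0 : 0 < g) (hg : g * (98697 / 10000) ≤ G)
    (w00 : 0 < w0) (hw : w0 ^ (2 : ℕ) ≤ 499 / 10 * g) : g * (r * δ) ≤ 1 / δ ∧ w0 ≤ 1 / δ := by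
  have hr := hR.r0
  have hδ := hR.d0
  have r0 : 0 < r := by linarith only [hr]
  have hρ0 : 0 < r * δ := by positivity
  have hpi2 : π ^ (2 : ℕ) ≤ 98697 / 10000 := by
    have h1 := pi_lt_d4
    have h2 := pow_le_pow_left₀ pi_pos.le h1.le 2
    norm_num at h2
    linarith only [h2]
  have hGm : Gm 2 r δ * (1 + (r * δ) ^ (2 : ℕ)) = r * π ^ (2 : ℕ) := by
    unfold Gm RR
    rw [hst_two]
    field_simp
  have h1 : g * (r * δ) ≤ 1 / δ := by
    rw [le_div_iff₀ hδ]
    have a1 : g * (98697 / 10000) * (1 + (r * δ) ^ (2 : ℕ)) ≤ r * (98697 / 10000) := by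
      calc g * (98697 / 10000) * (1 + (r * δ) ^ (2 : ℕ)) ≤ Gm 2 r δ * (1 + (r * δ) ^ (2 : ℕ)) :=
            mul_le_mul_of_nonneg_right (hg.trans hG) (by positivity)
        _ = r * π ^ (2 : ℕ) := hGm
        _ ≤ _ := mul_le_mul_of_nonneg_left hpi2 r0.le
    have a2 : r * (g * (r * δ) * δ) ≤ r * 1 := by
      have e : r * (g * (r * δ) * δ) = g * (r * δ) ^ (2 : ℕ) := by ring
      rw [e]
      have a3 : 0 ≤ g * (98697 / 10000) * 1 := by positivity
      linarith only [a1, a3]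
    exact le_of_mul_le_mul_left a2 r0
  refine ⟨h1, ?_⟩
  have hw1 : 0 < 1 / δ := by positivity
  refine le_of_sq_le_sq ?_ hw1.le
  have h2 := mul_le_mul_of_nonneg_left h1 hw1.le
  have e : 1 / δ * (g * (r * δ)) = g * r := by
    field_simp
  rw [e] at h2
  have h3 := mul_le_mul_of_nonneg_left hr g0.le
  calc w0 ^ (2 : ℕ) ≤ 499 / 10 * g := hw
    _ ≤ (1 / δ) ^ (2 : ℕ) := by
        rw [sq (1 / δ)]
        linarith only [h2, h3]

theorem sG_eq {r δ y : ℝ} (hδ : 0 < δ) : sG r δ y = √(2 * π / (1 / δ * √(sD2 (r * δ) y))) := by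
  unfold sG
  congr 1
  field_simp

/-- the data on the side `y ≤ 0` -/
theorem negD_of {r δ n η p : ℝ} (hR : Reg2 r δ) (hA : At r δ (-n) η) (hS : Sad2 r δ (-n)) (n0 : 0 ≤ n)
    (hη : |η| ≤ p) :
    NegD (sx (r * δ) (-n)) n (1 / δ) (√(sD2 (r * δ) (-n))) p ∧
      sx (r * δ) (-n) - p ≤ r * δ ∧ sx (r * δ) (-n) * (1 - n) ≤ r * δ := by
  have hr := hR.r0
  have hδ := hR.d0
  have hρ := hR.rho
  have n1 : n ≤ 1 / 2 := by
    have := hS.lo
    linarith only [this]
  have hT := hS.T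
  rw [abs_neg, abs_of_nonneg n0] at hT
  have hsq := sx_sq hA.dom
  rw [neg_neg] at hsq
  obtain ⟨x, hx⟩ : ∃ x, x = sx (r * δ) (-n) := ⟨_, rfl⟩
  have hx0 : 0 ≤ x := by
    rw [hx]
    exact sx_nonneg _ _
  have hE1 : 1 ≤ exp n := one_le_exp n0
  have hD2 : sD2 (r * δ) (-n) = (1 - n) ^ (2 : ℕ) + x ^ (2 : ℕ) := by
    unfold sD2
    rw [← hx]
    ring
  rw [← hx] at hT hsq
  have hρE : (r * δ) ^ (2 : ℕ) ≤ (r * δ * exp n) ^ (2 : ℕ) := by
    refine pow_le_pow_left₀ (by linarith only [hρ]) ?_ 2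
    exact le_mul_of_one_le_right (by linarith only [hρ]) hE1
  have hn2 : n ^ (2 : ℕ) ≤ (1 / 2) ^ (2 : ℕ) := pow_le_pow_left₀ n0 n1 2
  have hρ2 : (16 / 5 : ℝ) ^ (2 : ℕ) ≤ (r * δ) ^ (2 : ℕ) := pow_le_pow_left₀ (by norm_num) hρ 2
  have hx1 : 31 / 10 ≤ x := by
    refine le_of_sq_le_sq ?_ hx0
    rw [hsq]
    norm_num at hn2 hρ2 ⊢
    linarith only [hρE, hn2, hρ2]
  have hat := at_neg hA n0 (by linarith only [n1]) (by rw [← hx]; linarith only [hx1])
  rw [← hx] at hat
  obtain ⟨h1, h2⟩ := hat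
  have hcon : x * (1 - exp (-n)) + (n - n ^ (2 : ℕ) / 2) / x ≤ p := h2.trans ((neg_le_abs η).trans hη)
  have hq0 : 0 ≤ (n - n ^ (2 : ℕ) / 2) / x := by
    refine div_nonneg ?_ hx0
    have : n * (1 - n / 2) = n - n ^ (2 : ℕ) / 2 := by ring
    rw [← this]
    exact mul_nonneg n0 (by linarith only [n1])
  have hxn : x * (1 - n) ≤ x * exp (-n) :=
    mul_le_mul_of_nonneg_left (by linarith only [add_one_le_exp (-n)]) hx0
  rw [← hx]
  refine ⟨⟨hx1, n0, n1, hT, ?_, ?_, hcon, by positivity, ?_⟩, by linarith only [h1, hcon, hq0], by linarith only [h1, hxn]⟩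
  · refine Real.sqrt_pos.2 ?_
    rw [hD2]
    positivity
  · rw [Real.sq_sqrt (by rw [hD2]; positivity), hD2]
    have : (1 - n) ^ (2 : ℕ) ≤ 1 ^ (2 : ℕ) := pow_le_pow_left₀ (by linarith only [n1]) (by linarith only [n0]) 2
    linarith only [this]
  · -- w x ≥ 46.32
    have a1 : r * δ ≤ 10771 / 10000 * x := by
      refine le_of_sq_le_sq ?_ (by positivity)
      have a2 : n ^ (2 : ℕ) ≤ (2 / 5 * x) ^ (2 : ℕ) := pow_le_pow_left₀ n0 hT 2
      have a3 : (r * δ) ^ (2 : ℕ) ≤ x ^ (2 : ℕ) + n ^ (2 : ℕ) := by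
        rw [hsq]
        have e : (-n) ^ (2 : ℕ) = n ^ (2 : ℕ) := by ring
        rw [e]
        linarith only [hρE]
      have a4 : 0 ≤ x ^ (2 : ℕ) := sq_nonneg x
      have e1 : (10771 / 10000 * x) ^ (2 : ℕ) = (10771 / 10000) ^ (2 : ℕ) * x ^ (2 : ℕ) := by ring
      have e2 : (2 / 5 * x) ^ (2 : ℕ) = (2 / 5) ^ (2 : ℕ) * x ^ (2 : ℕ) := by ring
      rw [e1]
      rw [e2] at a2
      norm_num
      norm_num at a2
      linarith only [a3, a4, a2]
    have a5 : 1 / δ * (r * δ) = r := by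
      field_simp
    have a6 := mul_le_mul_of_nonneg_left a1 (by positivity : 0 ≤ 1 / δ)
    rw [a5] at a6
    linarith only [hr, a6]

/-- the data on the side `y ≥ 0` -/
theorem posD_of {r δ y η p : ℝ} (hR : Reg2 r δ) (hA : At r δ y η) (hS : Sad2 r δ y) (y0 : 0 ≤ y)
    (hη : |η| ≤ p) (hp : p ≤ 20421 / 10000) :
    PosD (sx (r * δ) y) y (1 / δ) (√(sD2 (r * δ) y)) p ∧ sx (r * δ) y * (1 + y) ≤ r * δ := by
  have hr := hR.r0
  have hδ := hR.d0
  have hρ := hR.rho
  have y1 := hS.hi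
  have hT := hS.T
  rw [abs_of_nonneg y0] at hT
  obtain ⟨x, hx⟩ : ∃ x, x = sx (r * δ) y := ⟨_, rfl⟩
  have hx0 : 0 ≤ x := by
    rw [hx]
    exact sx_nonneg _ _
  have hD2 : sD2 (r * δ) y = (1 + y) ^ (2 : ℕ) + x ^ (2 : ℕ) := by
    unfold sD2
    rw [← hx]
  have hD5 := hS.D
  rw [hD2] at hD5
  rw [← hx] at hT
  have hx1 : 3 / 2 ≤ x := by
    refine le_of_sq_le_sq ?_ hx0
    have : (1 + y) ^ (2 : ℕ) ≤ (1 + 13 / 20) ^ (2 : ℕ) := pow_le_pow_left₀ (by linarith only [y0]) (by linarith only [y1]) 2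
    norm_num at this ⊢
    linarith only [hD5, this]
  have hat := at_pos hA y0 (by rw [← hx]; linarith only [hx1])
  rw [← hx] at hat
  obtain ⟨h1, h2, h3⟩ := hat
  have hηp : η ≤ p := (le_abs_self η).trans hη
  have hxy : x * (1 + y) ≤ x * exp y :=
    mul_le_mul_of_nonneg_left (by linarith only [add_one_le_exp y]) hx0
  rw [← hx]
  refine ⟨⟨hx1, y0, y1, hT, ?_, ?_, h3.trans hηp, by positivity, ?_⟩, by linarith only [h1, hxy]⟩
  · refine Real.sqrt_pos.2 ?_
    rw [hD2]
    positivity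
  · rw [Real.sq_sqrt (by rw [hD2]; positivity), hD2]
  · have a5 : 1 / δ * (r * δ) = r := by
      field_simp
    have a6 := mul_le_mul_of_nonneg_left (by linarith : r * δ ≤ x + 20421 / 10000)
      (by positivity : 0 ≤ 1 / δ)
    rw [a5] at a6
    linarith only [hr, a6]

/-- the sum of the two lumps -/
theorem tS_le {r δ y η : ℝ} (hR : Reg2 r δ) (hA : At r δ y η) (hS : Sad2 r δ y)
    (h : |η| ≤ 3927 / 2500 ∨ (10 ≤ Gm 2 r δ ∧ |η| ≤ 20421 / 10000)) :
    tS r δ y ≤ 162 / 10000 * sG r δ y := by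
  have hδ := hR.d0
  have w1 : 5471 / 10000 * (r * δ) ≤ 1 / δ ∧ 52249 / 10000 ≤ 1 / δ :=
    w_ge hR hR.G (by norm_num) (by norm_num) (by norm_num) (by norm_num)
  obtain ⟨w1a, w1b⟩ := w1
  rw [sG_eq hδ]
  unfold tS
  rcases le_total 0 y with hy | hy
  · rcases h with h | ⟨hG, h⟩
    · obtain ⟨H, h1⟩ := posD_of hR hA hS hy h (by norm_num)
      exact pos1 H (by linarith only [w1a, h1]) w1b
    · obtain ⟨H, h1⟩ := posD_of hR hA hS hy h le_rfl
      obtain ⟨w2a, w2b⟩ : 2533 / 2500 * (r * δ) ≤ 1 / δ ∧ 4444 / 625 ≤ 1 / δ :=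
        w_ge hR hG (by norm_num) (by norm_num) (by norm_num) (by norm_num)
      exact pos2 H (by linarith only [h1, w2a]) w2b
  · obtain ⟨n, hn⟩ : ∃ n, n = -y := ⟨_, rfl⟩
    have hyn : y = -n := by rw [hn, neg_neg]
    have n0 : 0 ≤ n := by linarith only [hy, hn]
    rw [hyn] at hA hS ⊢
    rw [neg_neg]
    rcases h with h | ⟨hG, h⟩
    · obtain ⟨H, h1, h2⟩ := negD_of hR hA hS n0 h
      exact neg1 H (by linarith only [w1a, h1]) (by linarith only [w1a, h2]) w1b
    · obtain ⟨H, h1, h2⟩ := negD_of hR hA hS n0 h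
      obtain ⟨w2a, w2b⟩ : 2533 / 2500 * (r * δ) ≤ 1 / δ ∧ 4444 / 625 ≤ 1 / δ :=
        w_ge hR hG (by norm_num) (by norm_num) (by norm_num) (by norm_num)
      exact neg2 H (by linarith only [h1, w2a]) (by linarith only [h2, w2a, w2b]) w2b

theorem eo2_le {r δ : ℝ} (hR : Reg2 r δ) (hG : 10 ≤ Gm 2 r δ) : eo2 r δ ≤ 20421 / 10000 := by
  have hpi := pi_lt_d4
  rcases eo2_cases hR with ⟨h, _, _⟩ | ⟨_, _, h⟩ | ⟨_, _, h⟩
  · linarith only [hG, h]
  · rw [h]
    linarith only [hpi]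
  · rw [h]
    linarith only [hpi]

/-- PIECE A -/
theorem pTA : PTA := by
  intro r δ y η hR hA hS hη h
  refine tS_le hR hA hS ?_
  rcases h with h | h
  · left
    rw [hst_two] at h
    have := pi_lt_d4
    linarith only [h, this]
  · right
    exact ⟨by linarith only [h], hη.trans (eo2_le hR (by linarith))⟩

/-- PIECE B -/
theorem pTB : PTB := by
  intro r δ y η hR hA hS hη h10 _
  have h := tS_le hR hA hS (Or.inr ⟨h10, hη.trans (eo2_le hR h10)⟩)
  have h2 : 0 ≤ sG r δ y := Real.sqrt_nonneg _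
  linarith only [h, h2]

end SokamT2

end
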