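import Pool.Agent.Lib_MP_af4de1_zy.Z17
import Pool.Agent.Lib_MP_af4de1_zy.Z143
import Pool.Agent.Lib_MP_af4de1_zy.Z149
import Pool.Agent.Lib_MP_af4de1_zy.Z159

/-! ### Lib_MP_af4de1_f1.TopLev -/

section
namespace SokamF1S
end SokamF1S
/-!
# Lower bounds of the level `ph` of the top wave, from trial values
-/

set_option autoImplicit false

namespace SokamF1T

open Real SokamF1S

theorem DD.strict {ρ y : ℝ} (h : DD ρ y) : |y| * exp y < ρ := by
  refine lt_of_le_of_ne h.dom.2 fun he => ?_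
  have hρ := h.dom.1
  have h1 : sx ρ y = 0 := by
    have h2 := sx_sq h.dom
    have h3 : ρ * exp (-y) = |y| := by
      rw [← he, mul_assoc, ← exp_add]; simp
    rw [h3, sq_abs, sub_self] at h2
    exact pow_eq_zero_iff (two_ne_zero) |>.1 h2
  have h4 := h.phi
  unfold ph at h4
  rw [h1] at h4
  norm_num at h4

theorem DD.gt_neg_one {ρ y : ℝ} (h : DD ρ y) : -1 < y := by
  have := h.y0
  linarith only [this]

/-- trial value `c = 1` -/
theorem ph_one {ρ y : ℝ} (h : DD ρ y) (hη : |sE ρ y| < π / 2) : 1 + log (cos (sE ρ y)) ≤ ph ρ y := by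
  have := ph_trial (c := 1) h.dom h.strict h.gt_neg_one one_pos (by simpa using hη)
  simpa using this

theorem one_add_log_ge {z D : ℝ} (hD : 0 < D) (hz1 : z ≤ 1) (hz0 : 0 < z) (hz : (1 + D - z) ^ (2 : ℕ) ≤ 2 * D) :
    z - D ≤ 1 + log z := by
  have h1 : z - D - 1 ≤ log z := by
    rw [le_log_iff_exp_le hz0]
    have h2 : exp (-(1 + D - z)) * exp (1 + D - z) = 1 := by rw [← exp_add]; simp
    have h3 : 1 + (1 + D - z) + (1 + D - z) ^ (2 : ℕ) / 2 ≤ exp (1 + D - z) :=
      quadratic_le_exp_of_nonneg (by linarith only [hD, hz1])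
    set x := 1 + D - z with hx
    have hx0 : 0 < x := by linarith only [hD, hz1]
    have h4 : exp (-x) ≤ 1 - x + x ^ (2 : ℕ) / 2 := by
      have h5 := exp_pos (-x)
      have h6 : exp (-x) * (1 + x + x ^ (2 : ℕ) / 2) ≤ 1 := by
        calc exp (-x) * (1 + x + x ^ (2 : ℕ) / 2) ≤ exp (-x) * exp x := by gcongr
          _ = 1 := h2
      have h7 : 1 ≤ (1 - x + x ^ (2 : ℕ) / 2) * (1 + x + x ^ (2 : ℕ) / 2) := by nlinarith only []
      have h8 : 0 < 1 + x + x ^ (2 : ℕ) / 2 := by (clear * - hx0; positivity)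
      exact le_of_mul_le_mul_right (h6.trans h7) h8
    rw [show z - D - 1 = -x by rw [hx]; ring]
    linarith only [hz, h4]
  linarith only [h1]

/-- `N = 4` -/
theorem lev4 {ρ y : ℝ} (h : DD ρ y) (hη : |sE ρ y| ≤ π / 4) : cos |sE ρ y| - 7 / 100 ≤ ph ρ y := by
  have h1 := cos_ge_quarter (abs_nonneg _) hη
  have h2 := ph_one h (by linarith only [hη, pi_pos])
  rw [← cos_abs] at h2
  have h3 := one_add_log_ge (z := cos |sE ρ y|) (D := 7 / 100) (by norm_num) (cos_le_one _) (by linarith only [h1])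
    (by nlinarith only [h1, cos_le_one |sE ρ y|])
  linarith only [h2, h3]

/-- `N = 5` -/
theorem lev5 {ρ y : ℝ} (h : DD ρ y) (hη : |sE ρ y| ≤ π / 5) : cos |sE ρ y| - 4 / 100 ≤ ph ρ y := by
  have h1 := cos_ge_fifth (abs_nonneg _) hη
  have h2 := ph_one h (by linarith only [hη, pi_pos])
  rw [← cos_abs] at h2
  have h3 := one_add_log_ge (z := cos |sE ρ y|) (D := 4 / 100) (by norm_num) (cos_le_one _) (by linarith only [h1])
    (by nlinarith only [h1, cos_le_one |sE ρ y|])
  linarith only [h2, h3]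

theorem lev3_poly {t : ℝ} (h0 : 0 ≤ t) (h1 : t ≤ 1135 / 1000) :
    (1 + 2 * t / 3) ^ (4 : ℕ) ≤ (1 - t ^ (2 : ℕ) / 8) * ((1 + 2 * t / 3) ^ (3 : ℕ) +
      (2 * t / 3 + t ^ (2 : ℕ) / 2 - t ^ (4 : ℕ) / 24) * (1 + 2 * t / 3) ^ (2 : ℕ) +
      (2 * t / 3 + t ^ (2 : ℕ) / 2 - t ^ (4 : ℕ) / 24) ^ (2 : ℕ) * (1 + 2 * t / 3) / 2 +
      (2 * t / 3 + t ^ (2 : ℕ) / 2 - t ^ (4 : ℕ) / 24) ^ (3 : ℕ) / 6) := by
  have hv : 0 ≤ 1135 / 1000 - t := by linarith only [h1]
  have p : ∀ i j : ℕ, 0 ≤ t ^ (2 : ℕ) * (t ^ i * (1135 / 1000 - t) ^ j) := fun i j =>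
    mul_nonneg (sq_nonneg t) (mul_nonneg (pow_nonneg h0 i) (pow_nonneg hv j))
  linarith [p 0 12, p 1 11, p 2 10, p 3 9, p 4 8, p 5 7, p 6 6, p 7 5, p 8 4, p 9 3, p 10 2, p 11 1, p 12 0]

/-- `N = 3`, `ρ ≥ 3/4` -/
theorem lev3 {ρ y : ℝ} (h : DD ρ y) (hρ : 3 / 4 ≤ ρ) (hρ1 : ρ ≤ 2) (hη : |sE ρ y| ≤ 1135 / 1000) :
    cos |sE ρ y| ≤ ph ρ y := by
  have hpi := pi_gt_d2
  rcases le_total 0 (sE ρ y) with hs | hs
  · -- left side, `c = cos η`
    rw [abs_of_nonneg hs] at hη ⊢
    set η := sE ρ y with hηd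
    have hc0 : 0 < cos η := cos_pos_of_mem_Ioo ⟨by linarith only [hpi, hs], by linarith only [hpi, hη]⟩
    have h1 : 1 - cos η ≤ η ^ (2 : ℕ) / 2 := by linarith only [one_sub_sq_div_two_le_cos (x := η)]
    have h1' : 0 ≤ 1 - cos η := by linarith only [cos_le_one η]
    have h2 : ρ * (1 - cos η) ≤ 2 * η := by
      calc ρ * (1 - cos η) ≤ 2 * (η ^ (2 : ℕ) / 2) := by gcongr
        _ ≤ 2 * η := by nlinarith only [hη, hs]
    have h3 : |η - ρ * (1 - cos η)| ≤ η := by
      rw [abs_le]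
      constructor
      · linarith only [h2]
      · have : 0 ≤ ρ * (1 - cos η) := mul_nonneg (by linarith only [hρ]) h1'
        linarith only [this]
    have h4 := ph_trial (c := cos η) h.dom h.strict h.gt_neg_one hc0 (by rw [← hηd]; linarith only [hpi, hη, h3])
    rw [← hηd] at h4
    have h5 : cos η ≤ cos (η - ρ * (1 - cos η)) := by
      rw [← cos_abs (η - ρ * (1 - cos η))]
      exact cos_le_cos_of_nonneg_of_le_pi (abs_nonneg _) (by linarith only [hpi, hη]) h3
    have h6 : log (cos η) ≤ log (cos (η - ρ * (1 - cos η))) := log_le_log hc0 h5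
    nlinarith only [hc0, h4, h6]
  · -- right side, `c = 1 + 2 t/3`
    rw [abs_of_nonpos hs] at hη ⊢
    set η := sE ρ y with hηd
    set t := -η with ht
    have ht0 : 0 ≤ t := by linarith only [hs]
    set c := 1 + 2 * t / 3 with hc
    have hc1 : 1 ≤ c := by rw [hc]; linarith only [ht0]
    have h3 : |η - ρ * (1 - c)| ≤ t / 2 := by
      have e : η - ρ * (1 - c) = -t + ρ * (2 * t / 3) := by rw [hc, ht]; ring
      rw [e, abs_le]
      constructor
      · nlinarith only [hρ, hs]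
      · nlinarith only [hρ1, hs]
    have h4 := ph_trial (c := c) h.dom h.strict h.gt_neg_one (by linarith only [hc1]) (by rw [← hηd]; linarith only [hpi, hη, h3])
    rw [← hηd] at h4
    have hq0 : 0 < 1 - t ^ (2 : ℕ) / 8 := by nlinarith only [hs, hη]
    have h5 : 1 - t ^ (2 : ℕ) / 8 ≤ cos (η - ρ * (1 - c)) := by
      rw [← cos_abs (η - ρ * (1 - c))]
      have h6 : cos (t / 2) ≤ cos |η - ρ * (1 - c)| :=
        cos_le_cos_of_nonneg_of_le_pi (abs_nonneg _) (by linarith only [hpi, hη]) h3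
      have h7 := one_sub_sq_div_two_le_cos (x := t / 2)
      have h8 : 1 - (t / 2) ^ (2 : ℕ) / 2 = 1 - t ^ (2 : ℕ) / 8 := by ring
      linarith only [h6, h7]
    have h6 : log (1 - t ^ (2 : ℕ) / 8) ≤ log (cos (η - ρ * (1 - c))) := log_le_log hq0 h5
    set w := 2 * t / 3 + t ^ (2 : ℕ) / 2 - t ^ (4 : ℕ) / 24 with hw
    have hw0 : 0 ≤ w := by
      have ht2 : t ^ (2 : ℕ) ≤ 2 := by nlinarith only [hη, ht0]
      have : t ^ (4 : ℕ) ≤ 2 * t ^ (2 : ℕ) := by linarith only [mul_nonneg (sq_nonneg t) (sub_nonneg.2 ht2)]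
      nlinarith only [hc, hc1, hw, ht2]
    have hcos : cos t ≤ 1 - t ^ (2 : ℕ) / 2 + t ^ (4 : ℕ) / 24 := by
      have := SokamF1G.cos_le4 ht0
      linarith only [this]
    have hcw : cos t ≤ c - w := by rw [hc, hw]; linarith only [hcos]
    set v := w / c with hv
    have hv0 : 0 ≤ v := by (clear * - hw0 ht0; positivity)
    have h7 : c ≤ (1 - t ^ (2 : ℕ) / 8) * exp v := by
      have h8 : 1 + v + v ^ (2 : ℕ) / 2 + v ^ (3 : ℕ) / 6 ≤ exp v := by
        have := Real.sum_le_exp_of_nonneg hv0 4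
        simp [Finset.sum_range_succ, Nat.factorial] at this
        linarith only [this]
      have h9 : c ^ (4 : ℕ) ≤ (1 - t ^ (2 : ℕ) / 8) * (c ^ (3 : ℕ) + w * c ^ (2 : ℕ) + w ^ (2 : ℕ) * c / 2 + w ^ (3 : ℕ) / 6) :=
        lev3_poly ht0 hη
      have hc3 : 0 < c ^ (3 : ℕ) := by (clear * - ht0; positivity)
      have h10 : c ^ (4 : ℕ) ≤ (1 - t ^ (2 : ℕ) / 8) * (1 + v + v ^ (2 : ℕ) / 2 + v ^ (3 : ℕ) / 6) * c ^ (3 : ℕ) := by
        refine h9.trans (le_of_eq ?_)
        rw [hv]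
        field_simp
      have h11 : c * c ^ (3 : ℕ) ≤ (1 - t ^ (2 : ℕ) / 8) * (1 + v + v ^ (2 : ℕ) / 2 + v ^ (3 : ℕ) / 6) * c ^ (3 : ℕ) := by
        calc c * c ^ (3 : ℕ) = c ^ (4 : ℕ) := by ring
          _ ≤ _ := h10
      exact (le_of_mul_le_mul_right h11 hc3).trans (mul_le_mul_of_nonneg_left h8 hq0.le)
    have h8 : log c ≤ log (1 - t ^ (2 : ℕ) / 8) + v := by
      have := log_le_log (by linarith only [hc1]) h7
      rwa [log_mul hq0.ne' (exp_pos _).ne', log_exp] at this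
    have h9 : cos t ≤ c * (1 - v) := by
      have : c * (1 - v) = c - w := by rw [hv]; field_simp
      rw [this]; exact hcw
    have h10 : c * (1 - v) ≤ c * (1 - log c + log (cos (η - ρ * (1 - c)))) :=
      mul_le_mul_of_nonneg_left (by linarith only [h6, h8]) (by linarith only [hc1])
    linarith only [h4, h9, h10]

end SokamF1T

end

/-! ### Lib_MP_af4de1_f1.TopFarK -/

section
namespace SokamF1
end SokamF1
namespace SokamF1M
end SokamF1M
namespace SokamF1S
end SokamF1S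
namespace SokamPG
end SokamPG
namespace SokamU
end SokamU
/-!
# The far waves on the path through `y = 0`
-/

set_option autoImplicit false

namespace SokamF1T

open Real MeasureTheory SokamF1M SokamF1S SokamPG SokamU SokamF1

theorem pc_h_mid {s : ℝ} (h : |s| ≤ 2) : pc (1 / 2) 2 s = s / 2 := by
  rw [abs_le] at h
  rw [pc_mid (by norm_num) h.1 h.2]; ring

theorem sx_y0 {ρ : ℝ} (hρ0 : 0 < ρ) : sx ρ 0 = ρ := by
  unfold sx
  simp [Real.sqrt_sq hρ0.le]

/-- height of the path -/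
theorem far_ht {ρ l θ : ℝ} (hρ0 : 0 < ρ) (h : FarOk ρ θ l) (hτ1 : |θ| ≤ π) (s : ℝ) :
    ρ * (1 - l) + (if 2 < |s| then |s| / 40 else s ^ (2 : ℕ) / 40) ≤ Ht (sx ρ 0) 0 θ (pc (1 / 2) 2 s) s := by
  unfold Ht
  rw [sx_y0 hρ0]
  split_ifs with h2
  · rcases le_total 0 s with h0 | h0
    · rw [abs_of_nonneg h0] at h2 ⊢
      rw [pc_right (by norm_num) (by norm_num) h2.le, show (1 / 2 * 2 : ℝ) = 1 by norm_num]
      have := far_pos hρ0.le h hτ1 h2.le
      linarith
    · rw [abs_of_nonpos h0] at h2 ⊢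
      have h3 : s ≤ -2 := by linarith
      rw [pc_left (by norm_num) (by norm_num) h3, show (1 / 2 * 2 : ℝ) = 1 by norm_num]
      have := far_neg hρ0.le h hτ1 h3
      linarith
  · push Not at h2
    rw [pc_h_mid h2]
    have := far_in hρ0.le h hτ1 h2
    linarith

theorem integrable_tail2 {b : ℝ} (hb : 0 < b) :
    Integrable fun s : ℝ => if 2 < |s| then exp (-b * |s|) else 0 := by
  have h1 := (integrable_exp_abs hb).indicator (s := {s : ℝ | 2 < |s|})
    (measurableSet_lt measurable_const (measurable_id.abs))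
  refine h1.congr (Filter.Eventually.of_forall fun s => ?_)
  simp only [Set.indicator, Set.mem_ofPred_eq]

theorem int_tail2 {b : ℝ} (hb : 0 < b) :
    ∫ s : ℝ, (if 2 < |s| then exp (-b * |s|) else 0) = 2 / b * exp (-(2 * b)) := by
  rw [integral_comp_abs (f := fun u => if 2 < u then exp (-b * u) else 0)]
  have e : (fun u : ℝ => if 2 < u then exp (-b * u) else 0) =
      (Set.Ioi (2 : ℝ)).indicator fun u => exp (-b * u) := by
    ext u
    simp only [Set.indicator, Set.mem_Ioi]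
  rw [e, setIntegral_indicator measurableSet_Ioi]
  have e2 : Set.Ioi (0 : ℝ) ∩ Set.Ioi 2 = Set.Ioi 2 := by
    ext u
    simp only [Set.mem_inter_iff, Set.mem_Ioi]
    constructor
    · exact fun h => h.2
    · intro h; exact ⟨by linarith, h⟩
  rw [e2, integral_exp_mul_Ioi (by linarith)]
  have : -b * 2 = -(2 * b) := by ring
  rw [this]
  field_simp

/-- shifted Gaussian -/
theorem int_gauss_shift {b a : ℝ} (hb : 0 < b) :
    Integrable (fun s : ℝ => exp (a * s) * exp (-b * s ^ (2 : ℕ))) ∧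
      ∫ s : ℝ, exp (a * s) * exp (-b * s ^ (2 : ℕ)) = exp (a ^ (2 : ℕ) / (4 * b)) * √(π / b) := by
  have e : (fun s : ℝ => exp (a * s) * exp (-b * s ^ (2 : ℕ))) =
      fun s : ℝ => exp (a ^ (2 : ℕ) / (4 * b)) * exp (-b * (s - a / (2 * b)) ^ (2 : ℕ)) := by
    ext s
    rw [← exp_add, ← exp_add]
    congr 1
    field_simp
    ring
  rw [e]
  refine ⟨((integrable_exp_neg_mul_sq hb).comp_sub_right _).const_mul _, ?_⟩
  rw [integral_const_mul, integral_sub_right_eq_self (fun s : ℝ => exp (-b * s ^ (2 : ℕ))), integral_gaussian]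

theorem norm_pv_half (s : ℝ) : ‖pv (1 / 2) 2 s‖ ≤ 9 / 8 := by
  unfold pv
  split_ifs
  · have h : ‖(1 - ((1 / 2 : ℝ) : ℂ) * Complex.I : ℂ)‖ ^ (2 : ℕ) ≤ (9 / 8) ^ (2 : ℕ) := by
      rw [Complex.sq_norm, Complex.normSq_apply]
      simp only [Complex.sub_re, Complex.one_re, Complex.mul_re, Complex.ofReal_re, Complex.I_re,
        mul_zero, Complex.ofReal_im, Complex.I_im, Complex.sub_im, Complex.one_im, Complex.mul_im]
      norm_num
    exact le_of_sq_le_sq (by simpa using h) (by norm_num)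
  · rw [norm_one]; norm_num

theorem mI_far {r δ θ l : ℝ} (hr : 0 < r) (hδ : 0 < δ) (h : FarOk (r * δ) θ l) (hτ1 : |θ| ≤ π) (j : ℕ) :
    mI (1 / 2) 2 r δ 0 θ j ≤ 9 / 8 * exp (-(r * (1 - l))) *
      (exp (5 / 2 * j ^ (2 : ℕ) * δ) * √(40 * π * δ) + exp j * (80 * δ * exp (-(1 / (20 * δ))))) := by
  have hρ : 0 < r * δ := by positivity
  have hk : |(0:ℝ)| < 1 / 2 * 2 := by norm_num
  have hint := integrable_mI (ρ := r * δ) (δ := δ) (y := 0) (c := 1 / 2) (s1 := 2) (by norm_num)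
    (by norm_num) (by norm_num) hδ hk θ j
  have hb : 0 < 1 / (40 * δ) := by positivity
  obtain ⟨i1, i1'⟩ := int_gauss_shift (b := 1 / (40 * δ)) (a := (j : ℝ) / 2) hb
  have i2 := integrable_tail2 (b := 1 / (40 * δ)) hb
  have hpt : ∀ s : ℝ, ‖pv (1 / 2) 2 s‖ * (exp (j * pc (1 / 2) 2 s) *
      exp (-(Ht (sx (r * δ) 0) 0 θ (pc (1 / 2) 2 s) s / δ))) ≤
      9 / 8 * exp (-(r * (1 - l))) *
        (exp ((j : ℝ) / 2 * s) * exp (-(1 / (40 * δ)) * s ^ (2 : ℕ)) +
          exp j * (if 2 < |s| then exp (-(1 / (40 * δ)) * |s|) else 0)) := by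
    intro s
    have h1 := norm_pv_half s
    have h4 := far_ht hρ h hτ1 s
    have h5 : ∀ f : ℝ, r * δ * (1 - l) + f ≤ Ht (sx (r * δ) 0) 0 θ (pc (1 / 2) 2 s) s →
        exp (-(Ht (sx (r * δ) 0) 0 θ (pc (1 / 2) 2 s) s / δ)) ≤ exp (-(r * (1 - l))) * exp (-(f / δ)) := by
      intro f hf
      rw [← exp_add]
      apply exp_le_exp.2
      rw [← neg_add, neg_le_neg_iff]
      calc r * (1 - l) + f / δ = (r * δ * (1 - l) + f) / δ := by field_simp
        _ ≤ _ := div_le_div_of_nonneg_right hf hδ.le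
    have h6 : exp (j * pc (1 / 2) 2 s) *
        exp (-(Ht (sx (r * δ) 0) 0 θ (pc (1 / 2) 2 s) s / δ)) ≤ exp (-(r * (1 - l))) *
        (exp ((j : ℝ) / 2 * s) * exp (-(1 / (40 * δ)) * s ^ (2 : ℕ)) +
          exp j * (if 2 < |s| then exp (-(1 / (40 * δ)) * |s|) else 0)) := by
      split_ifs at h4 ⊢ with h2
      · have h7 := h5 _ h4
        have h8 : exp (j * pc (1 / 2) 2 s) ≤ exp j := by
          have h3 := (abs_le.1 (pc_abs (c := 1 / 2) (s1 := 2) (by norm_num) (by norm_num) s)).2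
          apply exp_le_exp.2
          have : (j : ℝ) * pc (1 / 2) 2 s ≤ j * 1 := by
            apply mul_le_mul_of_nonneg_left _ (Nat.cast_nonneg j)
            linarith
          linarith
        rw [show -(|s| / 40 / δ) = -(1 / (40 * δ)) * |s| by field_simp] at h7
        have h9 := mul_le_mul h8 h7 (exp_pos _).le (exp_pos _).le
        have h10 : 0 < exp ((j : ℝ) / 2 * s) * exp (-(1 / (40 * δ)) * s ^ (2 : ℕ)) := by positivity
        have h11 := exp_pos (-(r * (1 - l)))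
        nlinarith only [h9, h10, h11]
      · have h7 := h5 _ h4
        push Not at h2
        rw [pc_h_mid h2] at h7 ⊢
        rw [show -(s ^ (2 : ℕ) / 40 / δ) = -(1 / (40 * δ)) * s ^ (2 : ℕ) by field_simp] at h7
        have e : exp (j * (s / 2)) = exp ((j : ℝ) / 2 * s) := by congr 1; ring
        rw [e, mul_zero, add_zero]
        have := mul_le_mul_of_nonneg_left h7 (exp_pos ((j : ℝ) / 2 * s)).le
        linarith
    calc ‖pv (1 / 2) 2 s‖ * (exp (j * pc (1 / 2) 2 s) *
          exp (-(Ht (sx (r * δ) 0) 0 θ (pc (1 / 2) 2 s) s / δ))) ≤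
        9 / 8 * (exp (-(r * (1 - l))) * (exp ((j : ℝ) / 2 * s) * exp (-(1 / (40 * δ)) * s ^ (2 : ℕ)) +
          exp j * (if 2 < |s| then exp (-(1 / (40 * δ)) * |s|) else 0))) := by
          apply mul_le_mul h1 h6 (by positivity) (by norm_num)
      _ = _ := by ring
  unfold mI
  refine (integral_mono hint ((i1.add (i2.const_mul _)).const_mul _) hpt).trans ?_
  simp only [Pi.add_apply]
  rw [integral_const_mul, integral_add i1 (i2.const_mul _), i1', integral_const_mul, int_tail2 hb]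
  apply le_of_eq
  congr 2
  · congr 1
    · congr 1; field_simp; ring
    · congr 1; field_simp
  · congr 1
    rw [show -(2 * (1 / (40 * δ))) = -(1 / (20 * δ)) by field_simp; norm_num]
    congr 1
    field_simp
    norm_num

/-- The raw bound. -/
theorem far_raw {r δ θ l : ℝ} (hr : 499 / 10 ≤ r) (hδ : 0 < δ) (hρ : r * δ ≤ 17286 / 10000)
    (h : FarOk (r * δ) θ l) (hτ1 : |θ| ≤ π) {j : ℕ} (hj : j ≤ 2) :
    ‖Ef j (tt δ) (wp r δ θ)‖ ≤ 20 * r ^ j * exp (r * l) := by
  have hr0 : 0 < r := by linarith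
  have hρ0 : 0 < r * δ := by positivity
  have hk : |(0:ℝ)| < 1 / 2 * 2 := by norm_num
  have h1 := Ef_shift_le (r := r) (δ := δ) (y := 0) (c := 1 / 2) (s1 := 2) (by norm_num) (by norm_num)
    (by norm_num) hδ (dom_zero hρ0) (by norm_num) hk θ j
  rw [sE_zero hρ0, zero_add] at h1
  have hK : ‖sK (r * δ) 0 / (δ : ℂ)‖ = r := by
    rw [norm_div, norm_sK (dom_zero hρ0), Complex.norm_real, Real.norm_of_nonneg hδ.le, neg_zero, exp_zero]
    field_simp
  have h2 := sM_sG (r := r) (y := 0) hδ (by norm_num)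
  rw [sx_y0 hρ0] at h2
  have h3 : r * δ * (1 + 0) / δ = r := by field_simp; ring
  rw [h3] at h2
  have h4 := mI_far hr0 hδ h hτ1 j
  rw [hK] at h1
  have e1 : r ^ j * sM r δ 0 * mI (1 / 2) 2 r δ 0 θ j / sG r δ 0 =
      r ^ j * (exp r / √(2 * π * δ)) * mI (1 / 2) 2 r δ 0 θ j := by
    rw [h2]; ring
  rw [e1] at h1
  refine h1.trans ?_
  have hs : 0 < √(2 * π * δ) := Real.sqrt_pos.2 (by positivity)
  have hδ2 : δ ≤ 347 / 10000 := by
    by_contra hcon
    push Not at hcon
    have : (499 / 10 : ℝ) * (347 / 10000) < r * δ := by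
      calc (499 / 10 : ℝ) * (347 / 10000) < (499 / 10) * δ := by gcongr
        _ ≤ r * δ := by gcongr
    linarith
  have hj2 : (j : ℝ) ≤ 2 := by exact_mod_cast hj
  have hj0 : (0 : ℝ) ≤ j := Nat.cast_nonneg j
  have h5 : exp (5 / 2 * j ^ (2 : ℕ) * δ) * √(40 * π * δ) + exp j * (80 * δ * exp (-(1 / (20 * δ)))) ≤
      160 / 9 * √(2 * π * δ) := by
    have e2 : √(40 * π * δ) = √20 * √(2 * π * δ) := by
      rw [← Real.sqrt_mul (by norm_num)]; congr 1; ring
    have e3 : √20 ≤ 44722 / 10000 := by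
      rw [Real.sqrt_le_left (by norm_num)]; norm_num
    have e5 : exp (5 / 2 * j ^ (2 : ℕ) * δ) ≤ 1416 / 1000 := by
      have h6 : exp (5 / 2 * j ^ (2 : ℕ) * δ) ≤ exp (347 / 1000) := by
        apply exp_le_exp.2
        have : (j : ℝ) ^ (2 : ℕ) ≤ 4 := by nlinarith only [hj2]
        nlinarith only [hδ2, hj2]
      have h7 := Real.exp_bound' (x := 347 / 1000) (by norm_num) (by norm_num) (n := 5) (by norm_num)
      simp [Finset.sum_range_succ, Nat.factorial] at h7
      norm_num at h7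
      linarith
    have e4 : 80 * δ ≤ 595 / 100 * √(2 * π * δ) := by
      have h6 : (80 * δ) ^ (2 : ℕ) ≤ (595 / 100 * √(2 * π * δ)) ^ (2 : ℕ) := by
        rw [mul_pow, mul_pow, Real.sq_sqrt (by positivity)]
        have hp := pi_gt_d4
        nlinarith only [hr, hδ, hρ, hp]
      exact le_of_sq_le_sq h6 (by positivity)
    have e6 : exp (-(1 / (20 * δ))) ≤ 252 / 1000 := by
      have h6 : 144 / 100 ≤ 1 / (20 * δ) := by
        rw [le_div_iff₀ (by positivity)]
        linarith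
      have h7 : exp (-(1 / (20 * δ))) ≤ exp (-(144 / 100)) := exp_le_exp.2 (by linarith)
      refine h7.trans ?_
      rw [exp_neg, inv_le_comm₀ (exp_pos _) (by norm_num)]
      have := Real.sum_le_exp_of_nonneg (x := 144 / 100) (by norm_num) 4
      simp [Finset.sum_range_succ, Nat.factorial] at this
      norm_num at this ⊢
      linarith
    have e7 : exp (j : ℝ) ≤ 739 / 100 := by
      have h6 : exp (j : ℝ) ≤ exp 2 := exp_le_exp.2 hj2
      have h7 : exp 2 = exp 1 ^ (2 : ℕ) := by rw [← exp_nat_mul]; norm_num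
      have h8 := exp_one_lt_d9
      have h9 := exp_pos 1
      nlinarith only [h6, h7, h8, h9]
    have e8 : 80 * δ * exp (-(1 / (20 * δ))) ≤ 595 / 100 * √(2 * π * δ) * (252 / 1000) :=
      mul_le_mul e4 e6 (exp_pos _).le (by positivity)
    have e9 : exp j * (80 * δ * exp (-(1 / (20 * δ)))) ≤
        739 / 100 * (595 / 100 * √(2 * π * δ) * (252 / 1000)) :=
      mul_le_mul e7 e8 (by positivity) (by norm_num)
    have e10 : exp (5 / 2 * j ^ (2 : ℕ) * δ) * √(40 * π * δ) ≤ 1416 / 1000 * (44722 / 10000 * √(2 * π * δ)) := by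
      rw [e2]
      exact mul_le_mul e5 (mul_le_mul_of_nonneg_right e3 hs.le) (by positivity) (by norm_num)
    linarith
  have hrj : 0 < r ^ j := by positivity
  calc r ^ j * (exp r / √(2 * π * δ)) * mI (1 / 2) 2 r δ 0 θ j ≤
      r ^ j * (exp r / √(2 * π * δ)) *
        (9 / 8 * exp (-(r * (1 - l))) * (160 / 9 * √(2 * π * δ))) := by
        apply mul_le_mul_of_nonneg_left _ (by positivity)
        exact h4.trans (mul_le_mul_of_nonneg_left h5 (by positivity))
    _ = 20 * r ^ j * (exp r * exp (-(r * (1 - l)))) := by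
        field_simp
        ring
    _ = _ := by
        rw [← exp_add]
        congr 2
        ring

end SokamF1T

end

/-! ### Lib_MP_af4de1_f1.TopFar -/

section
namespace SokamF1
end SokamF1
namespace SokamF1M
end SokamF1M
namespace SokamF1S
end SokamF1S
namespace SokamPG
end SokamPG
namespace SokamU
end SokamU
namespace SokamV3
end SokamV3
/-!
# The far waves in regime C (`N = 3, 4, 5`)
-/

set_option autoImplicit false

namespace SokamF1T

open Real SokamF1M SokamF1S SokamPG SokamU SokamF1 SokamV3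

theorem regC_cases {N : ℕ} {r δ : ℝ} (h : RegC N r δ) :
    (N = 3 ∧ r * δ ≤ 17286 / 10000) ∨ (N = 4 ∧ r * δ ≤ 1115 / 1000) ∨ (N = 5 ∧ r * δ ≤ 66 / 100) := by
  have hN := h.N3
  have hC := h.C
  have hp1 := pi_pos
  have hp := pi_lt_d4
  have hpp : π ^ (2 : ℕ) ≤ 9.869651 := by
    have : π ^ (2 : ℕ) ≤ 3.1416 ^ (2 : ℕ) := by gcongr
    norm_num at this ⊢
    linarith only [this]
  have hrd : 0 < r * δ := mul_pos (by linarith only [h.r0]) h.d0
  have hst2 : hst N ^ (2 : ℕ) * (N : ℝ) ^ (2 : ℕ) = 4 * π ^ (2 : ℕ) := by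
    have : (N : ℝ) ≠ 0 := by
      have : 0 < N := by omega
      exact_mod_cast this.ne'
    unfold hst
    field_simp
    ring
  unfold RR at hC
  rcases lt_or_ge N 6 with h6 | h6
  · have : N = 3 ∨ N = 4 ∨ N = 5 := by omega
    rcases this with rfl | rfl | rfl
    · left
      refine ⟨rfl, ?_⟩
      norm_num at hst2
      nlinarith only [hpp, hC, hst2]
    · right; left
      refine ⟨rfl, ?_⟩
      norm_num at hst2
      nlinarith only [hpp, hC, hst2]
    · right; right
      refine ⟨rfl, ?_⟩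
      norm_num at hst2
      nlinarith only [hpp, hC, hst2]
  · exfalso
    have h6' : (36 : ℝ) ≤ (N : ℝ) ^ (2 : ℕ) := by
      have : (6 : ℝ) ≤ N := by exact_mod_cast h6
      nlinarith only [this]
    have h7 : hst N ^ (2 : ℕ) * 36 ≤ 4 * π ^ (2 : ℕ) := by
      rw [← hst2]
      exact mul_le_mul_of_nonneg_left h6' (sq_nonneg _)
    nlinarith only [hC, hpp, h7]

/-- the angle of a far wave -/
theorem far_angle {N : ℕ} {r δ x y : ℝ} (hR : RegC N r δ) (hD : DD (r * δ) y)
    (hx0 : 0 ≤ x) (hx1 : x < 1) (hy : sE (r * δ) y = x * hst N ∨ sE (r * δ) y = (x - 1) * hst N)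
    (hH : |sE (r * δ) y| ≤ hst N / 2 ∨ (N = 3 ∧ |sE (r * δ) y| ≤ 2 * π / 3 - 24 / 25))
    {i : ℤ} (h1 : 1 ≤ i) (h2 : i < -1 + N) :
    ∃ θ l : ℝ, |θ| ≤ π ∧ (θ = (x + i) * hst N ∨ θ + 2 * π = (x + i) * hst N) ∧ FarOk (r * δ) θ l ∧
      l ≤ ph (r * δ) y - 24 / 100 := by
  have hpi := pi_gt_d4
  have hpi2 := pi_lt_d4
  have hN := hR.N3
  have hNpos : (0 : ℝ) < N := by exact_mod_cast (by omega : 0 < N)
  set h := hst N with hh
  have hh0 : 0 < h := by rw [hh]; unfold hst; positivity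
  have hhN : h * N = 2 * π := by rw [hh]; unfold hst; field_simp
  set η := |sE (r * δ) y| with hη
  have hη0 : 0 ≤ η := abs_nonneg _
  have hηx : η = x * h ∨ η = (1 - x) * h := by
    rcases hy with e | e
    · left; rw [hη, e, abs_of_nonneg (by positivity)]
    · right; rw [hη, e, abs_of_nonpos (mul_nonpos_of_nonpos_of_nonneg (by linarith only [hx1]) hh0.le)]; ring
  have hi1 : (1 : ℝ) ≤ i := by exact_mod_cast h1
  have hi2 : (i : ℝ) ≤ N - 2 := by
    have : i ≤ (N : ℤ) - 2 := by omega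
    exact_mod_cast this
  -- the angle and its distance from the tops
  obtain ⟨θ, hθπ, hθe, hθd⟩ : ∃ θ : ℝ, |θ| ≤ π ∧ (θ = (x + i) * h ∨ θ + 2 * π = (x + i) * h) ∧
      ((h + x * h ≤ |θ| ∧ (x + i) * h ≤ π) ∨ (h + (1 - x) * h ≤ |θ| ∧ π ≤ (x + i) * h)) := by
    have hpos : 0 ≤ (x + i) * h := mul_nonneg (by linarith only [hx0, hi1]) hh0.le
    have hup : (x + i) * h ≤ 2 * π := by
      rw [← hhN, mul_comm h]
      exact mul_le_mul_of_nonneg_right (by linarith only [hx1, hi2]) hh0.le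
    rcases le_total ((x + i) * h) π with hle | hge
    · refine ⟨(x + i) * h, ?_, Or.inl rfl, Or.inl ⟨?_, hle⟩⟩
      · rw [abs_of_nonneg hpos]; exact hle
      · rw [abs_of_nonneg hpos]
        nlinarith only [hh0, hi1]
    · refine ⟨(x + i) * h - 2 * π, ?_, Or.inr (by ring), Or.inr ⟨?_, hge⟩⟩
      · rw [abs_of_nonpos (by linarith only [hup])]; linarith only [hge]
      · rw [abs_of_nonpos (by linarith only [hup])]
        nlinarith only [hh0, hhN, hi2]
  have hθ1 : h ≤ |θ| := by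
    rcases hθd with ⟨h3, _⟩ | ⟨h3, _⟩
    · have : 0 ≤ x * h := by positivity
      linarith only [h3, this]
    · have : 0 ≤ (1 - x) * h := mul_nonneg (by linarith only [hx1]) hh0.le
      linarith only [h3, this]
  have hθη : η ≤ h / 2 → h + η ≤ |θ| := by
    intro hle
    rcases hηx with e | e <;> rcases hθd with ⟨h3, _⟩ | ⟨h3, _⟩
    · linarith only [e, h3]
    · linarith only [hle, e, h3]
    · linarith only [hle, e, h3]
    · linarith only [e, h3]
  rcases regC_cases hR with ⟨rfl, hρ⟩ | ⟨rfl, hρ⟩ | ⟨rfl, hρ⟩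
  · -- `N = 3`
    have hh3 : h = 2 * π / 3 := by rw [hh]; unfold hst; norm_num
    rcases le_total (r * δ) (3 / 4) with hs | hs
    · exact ⟨θ, 1 / 5, hθπ, hθe, FarOk.s3 hs (by linarith only [hθ1, hh3]), by linarith only [hD.phi]⟩
    · rcases le_total η (h / 2) with hle | hge
      · refine ⟨θ, cos η - 1 / 4, hθπ, hθe, FarOk.b3 hρ hη0 (by linarith only [hh3, hle]) ?_, ?_⟩
        · have := hθη hle
          linarith only [hh3, this]
        · have := lev3 hD hs (by linarith only [hρ]) (by rw [← hη]; linarith only [hpi2, hh3, hle])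
          linarith only [this]
      · have hη2 : η ≤ 2 * π / 3 - 24 / 25 := by
          rcases hH with h4 | ⟨_, h4⟩
          · linarith only [hpi, hh3, h4]
          · exact h4
        have hη3 : η ≤ 11345 / 10000 := by linarith only [hpi2, hη2]
        refine ⟨θ, cos η - 1 / 4, hθπ, hθe, FarOk.c3 hρ ?_ ?_, ?_⟩
        · have h5 : cos (11345 / 10000) ≤ cos η := cos_le_cos_of_nonneg_of_le_pi hη0 (by linarith only [hh3, hge, hη2]) hη3
          have h6 := SokamF1G.cos_ge6 (x := 11345 / 10000) (by norm_num)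
          norm_num at h6 h5 ⊢
          linarith only [h6, h5]
        · have hi : (i : ℝ) = 1 := by
            have : i = 1 := by norm_num at h2; omega
            exact_mod_cast this
          rw [hi] at hθd
          have hh2 : h + h ≤ |θ| + η := by
            rcases hηx with e | e <;> rcases hθd with ⟨h3, h7⟩ | ⟨h3, h7⟩
            · linarith only [hge, e, h3]
            · linarith only [e, h3]
            · linarith only [e, h3]
            · linarith only [hge, e, h3]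
          linarith only [hh3, hη2, hη3, hh2]
        · have := lev3 hD hs (by linarith only [hρ]) (by rw [← hη]; linarith only [hη3])
          linarith only [this]
  · -- `N = 4`
    have hh4 : h = π / 2 := by rw [hh]; unfold hst; norm_num; ring
    have hle : η ≤ h / 2 := by
      rcases hH with h4 | ⟨h4, _⟩
      · exact h4
      · norm_num at h4
    refine ⟨θ, cos η - 31 / 100, hθπ, hθe, FarOk.b4 hρ hη0 (by linarith only [hh4, hle]) ?_, ?_⟩
    · have := hθη hle
      linarith only [hh4, this]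
    · have := lev4 hD (by rw [← hη]; linarith only [hh4, hle])
      linarith only [this]
  · -- `N = 5`
    have hh5 : h = 2 * π / 5 := by rw [hh]; unfold hst; norm_num
    have hle : η ≤ h / 2 := by
      rcases hH with h4 | ⟨h4, _⟩
      · exact h4
      · norm_num at h4
    refine ⟨θ, cos η - 28 / 100, hθπ, hθe, FarOk.b5 hρ hη0 (by linarith only [hh5, hle]) ?_, ?_⟩
    · have := hθη hle
      linarith only [hh5, this]
    · have := lev5 hD (by rw [← hη]; linarith only [hh5, hle])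
      linarith only [this]

theorem sD2_le {ρ y : ℝ} (hD : DD ρ y) (hρ : ρ ≤ 17286 / 10000) : sD2 ρ y ≤ 16 := by
  have h1 := sx_sq hD.dom
  have e : sD2 ρ y = 1 + 2 * y + (ρ * exp (-y)) ^ (2 : ℕ) := by
    unfold sD2
    rw [h1]; ring
  rw [e]
  have h2 : (ρ * exp (-y)) ^ (2 : ℕ) = ρ ^ (2 : ℕ) * exp (-2 * y) := by
    rw [mul_pow, ← exp_nat_mul]; congr 2; push_cast; ring
  have h3 : exp (-2 * y) ≤ 41 / 10 := by
    have h4 : exp (-2 * y) ≤ exp (7 / 5) := exp_le_exp.2 (by linarith only [hD.y0])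
    have h5 : exp (7 / 5) ≤ 41 / 10 := by
      have h6 : exp (7 / 5) = exp 1 * exp (2 / 5) := by rw [← exp_add]; norm_num
      have h7 := exp_one_lt_d9
      have h8 : exp (2 / 5) * exp (-(2 / 5)) = 1 := by rw [← exp_add]; simp
      have h9 : exp (2 / 5) ≤ 3 / 2 := by
        have := Real.exp_bound' (x := 2 / 5) (by norm_num) (by norm_num) (n := 4) (by norm_num)
        simp [Finset.sum_range_succ, Nat.factorial] at this
        norm_num at this
        linarith only [this]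
      rw [h6]
      have h10 := exp_pos (2 / 5)
      nlinarith only [h7, h9, h10]
    linarith only [h4, h5]
  have h4 : ρ ^ (2 : ℕ) ≤ 299 / 100 := by
    have := hD.dom.1
    nlinarith only [hρ, this]
  have h5 : ρ ^ (2 : ℕ) * exp (-2 * y) ≤ 299 / 100 * (41 / 10) :=
    mul_le_mul h4 h3 (exp_pos _).le (by norm_num)
  have h6 := hD.y1
  rw [h2]
  linarith only [h5, h6]

theorem Mm_ge {r ρ y : ℝ} (hD : DD ρ y) (hρ : ρ ≤ 17286 / 10000) : exp (r * ph ρ y) ≤ 2 * Mm r ρ y := by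
  have h1 := sD2_le hD hρ
  have h2 := sD2_pos (ρ := ρ) hD.gt_neg_one
  have h3 : √(√(sD2 ρ y)) ≤ 2 := by
    rw [Real.sqrt_le_left (by norm_num), Real.sqrt_le_left (by norm_num)]
    linarith only [h1]
  have h4 : 0 < √(√(sD2 ρ y)) := Real.sqrt_pos.2 (Real.sqrt_pos.2 h2)
  unfold Mm
  rw [mul_div_assoc', le_div_iff₀ h4]
  have h5 := exp_pos (r * ph ρ y)
  nlinarith only [h3, h5]

theorem exp_small {r : ℝ} (hr : 499 / 10 ≤ r) : exp (-(24 / 100 * r)) ≤ 66 / 10000000 := by
  have h1 : exp (-(24 / 100 * r)) ≤ exp (-(11976 / 1000)) := exp_le_exp.2 (by linarith only [hr])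
  refine h1.trans ?_
  rw [exp_neg, inv_le_comm₀ (exp_pos _) (by norm_num)]
  have h2 : exp (11976 / 1000) = exp 1 ^ (11 : ℕ) * exp (976 / 1000) := by
    rw [← exp_nat_mul, ← exp_add]; norm_num
  have h3 : (2.7182 : ℝ) ^ (11 : ℕ) ≤ exp 1 ^ (11 : ℕ) := by
    have := exp_one_gt_d9
    gcongr
    linarith only [this]
  have h4 : 26 / 10 ≤ exp (976 / 1000) := by
    have := Real.sum_le_exp_of_nonneg (x := 976 / 1000) (by norm_num) 5
    simp [Finset.sum_range_succ, Nat.factorial] at this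
    norm_num at this
    linarith only [this]
  rw [h2]
  calc (66 / 10000000 : ℝ)⁻¹ ≤ (2.7182 : ℝ) ^ (11 : ℕ) * (26 / 10) := by norm_num
    _ ≤ _ := by gcongr

/-- **The far waves.** -/
theorem far_Ef {N : ℕ} {r δ x y : ℝ} (hR : RegC N r δ) (hx0 : 0 ≤ x) (hx1 : x < 1)
    (hD : DD (r * δ) y) (hy : sE (r * δ) y = x * hst N ∨ sE (r * δ) y = (x - 1) * hst N)
    (hH : |sE (r * δ) y| ≤ hst N / 2 ∨ (N = 3 ∧ |sE (r * δ) y| ≤ 2 * π / 3 - 24 / 25))
    {i : ℤ} (h1 : 1 ≤ i) (h2 : i < -1 + N) {j : ℕ} (hj : j ≤ 2) :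
    ‖Ef j (tt δ) (wp r δ ((x + i) * hst N))‖ ≤ 265 / 1000000 * (r ^ j * Mm r (r * δ) y) := by
  obtain ⟨θ, l, hθ, he, hok, hl⟩ := far_angle hR hD hx0 hx1 hy hH h1 h2
  have hr := hR.r0
  have hρ : r * δ ≤ 17286 / 10000 := by
    rcases regC_cases hR with ⟨_, h⟩ | ⟨_, h⟩ | ⟨_, h⟩
    · exact h
    · linarith only [h]
    · linarith only [h]
  have hwp : wp r δ ((x + i) * hst N) = wp r δ θ := by
    rcases he with e | e
    · rw [e]
    · rw [← e, wp_period]
  rw [hwp]
  refine (far_raw hr hR.d0 hρ hok hθ hj).trans ?_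
  have h3 : exp (r * l) ≤ exp (-(24 / 100 * r)) * exp (r * ph (r * δ) y) := by
    rw [← exp_add]
    apply exp_le_exp.2
    nlinarith only [hl, hr]
  have h4 := exp_small hr
  have h5 := Mm_ge (r := r) hD hρ
  have h6 : exp (r * l) ≤ 66 / 10000000 * (2 * Mm r (r * δ) y) :=
    h3.trans (mul_le_mul h4 h5 (exp_pos _).le (by norm_num))
  have h7 : 0 < r ^ j := by positivity
  have h8 : 0 ≤ Mm r (r * δ) y := by
    have := exp_pos (r * ph (r * δ) y)
    linarith only [h5, this]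
  calc 20 * r ^ j * exp (r * l) = r ^ j * (20 * exp (r * l)) := by ring
    _ ≤ r ^ j * (265 / 1000000 * Mm r (r * δ) y) := by
      apply mul_le_mul_of_nonneg_left _ h7.le
      linarith only [h6, h8]
    _ = _ := by ring

/-- **The far waves**, final form. -/
theorem far_le {N : ℕ} {r δ x y : ℝ} (hR : RegC N r δ) (hx0 : 0 ≤ x) (hx1 : x < 1)
    (hD : DD (r * δ) y) (hy : sE (r * δ) y = x * hst N ∨ sE (r * δ) y = (x - 1) * hst N)
    (hH : |sE (r * δ) y| ≤ hst N / 2 ∨ (N = 3 ∧ |sE (r * δ) y| ≤ 2 * π / 3 - 24 / 25))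
    {i : ℤ} (h1 : 1 ≤ i) (h2 : i < -1 + N) :
    ‖W0 r δ ((x + i) * hst N)‖ ≤ 1 / 3000 * Mm r (r * δ) y ∧
    ‖W1 r δ ((x + i) * hst N)‖ ≤ 1 / 3000 * r * Mm r (r * δ) y ∧
    ‖W2 r δ ((x + i) * hst N)‖ ≤ 1 / 3000 * r ^ (2 : ℕ) * Mm r (r * δ) y := by
  have hr := hR.r0
  have hρ : r * δ ≤ 17286 / 10000 := by
    rcases regC_cases hR with ⟨_, h⟩ | ⟨_, h⟩ | ⟨_, h⟩
    · exact h
    · linarith only [h]
    · linarith only [h]
  have hM : 0 ≤ Mm r (r * δ) y := by
    have h5 := Mm_ge (r := r) hD hρ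
    have := exp_pos (r * ph (r * δ) y)
    linarith only [h5, this]
  have e0 := far_Ef hR hx0 hx1 hD hy hH h1 h2 (j := 0) (by norm_num)
  have e1 := far_Ef hR hx0 hx1 hD hy hH h1 h2 (j := 1) (by norm_num)
  have e2 := far_Ef hR hx0 hx1 hD hy hH h1 h2 (j := 2) le_rfl
  rw [SokamF1M.Ef_zero, pow_zero, one_mul] at e0
  rw [SokamF1M.Ef_one, pow_one] at e1
  have hr0 : 0 < r := by linarith only [hr]
  have h5 : 0 ≤ r * Mm r (r * δ) y := by positivity
  have h6 : 0 ≤ r ^ (2 : ℕ) * Mm r (r * δ) y := by positivity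
  refine ⟨?_, ?_, ?_⟩
  · unfold W0
    linarith only [hM, e0]
  · unfold W1
    refine e1.trans ?_
    linarith only [h5]
  · unfold W2
    rw [D2E_Ef]
    refine (norm_add_le _ _).trans ?_
    have h7 : r * Mm r (r * δ) y ≤ 10 / 499 * (r ^ (2 : ℕ) * Mm r (r * δ) y) := by
      have : r ≤ 10 / 499 * r ^ (2 : ℕ) := by nlinarith only [hr]
      calc r * Mm r (r * δ) y ≤ (10 / 499 * r ^ (2 : ℕ)) * Mm r (r * δ) y := by gcongr
        _ = _ := by ring
    linarith only [e1, e2, h6, h7]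

end SokamF1T

end

/-! ### Lib_MP_af4de1_f1.PCfin -/

section
namespace SokamF1
end SokamF1
namespace SokamF1S
end SokamF1S
namespace SokamU
end SokamU
namespace SokamV3
end SokamV3
/-!
# Regime C (`N = 3, 4, 5`, `11/10 < h²/R`), without hypotheses
-/

set_option autoImplicit false

namespace SokamF1T

open Complex SokamU SokamF1 SokamF1S SokamV3

/-- **Regime C.** -/
theorem pc_fin : PC := by
  refine pc_of ?_ (fun hr hd hρ hD => ownC hr hd hρ hD)
    (fun hR hx0 hx1 hD hy hH => far_le hR hx0 hx1 hD hy hH)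
  intro N r del x m hR hx0 hx1 hm hnot
  have hr := hR.r0
  have hr0 : 0 < r := by linarith
  have hδ := hR.d0
  refine loc_of hR hx0 hx1 hm.le hnot ?_ ?_
  · intro y hD
    have hy : -1 < y := by linarith [hD.y0]
    have own := ownC hr hδ (pc_rho hR) hD
    have e0 : V0 r del y 0 = W0 r del (sE (r * del) y) := by unfold V0 W0; rw [add_zero]
    have e1 : V1 r del y 0 = W1 r del (sE (r * del) y) := by unfold V1 W1; rw [add_zero]
    constructor
    · have := own.o0
      rw [sM_eq_Mm hr0 hδ hy, e0] at this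
      linarith
    · have := own.o1
      rw [e0, e1, kap_eq_kp y hr0 hδ] at this
      refine this.trans (mul_le_mul_of_nonneg_right ?_ (norm_nonneg _))
      split_ifs <;> norm_num
  · intro y hD hy hH i h1 h2
    have hM : 0 < Mm r (r * del) y := by
      unfold Mm
      have := sD2_pos (ρ := r * del) (y := y) (by linarith [hD.y0])
      positivity
    have hN := pc_N hR
    obtain ⟨f0, f1, -⟩ := far_le hR hx0 hx1 hD hy (by
      rcases (show N = 3 ∨ 4 ≤ N by have := hR.N3; omega) with h | h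
      · right
        refine ⟨h, ?_⟩
        subst h
        unfold hst at hH
        push_cast at hH
        exact hH
      · left
        have h4 : (4 : ℝ) ≤ N := by exact_mod_cast h
        have hpi := Real.pi_lt_d4
        have h5 : hst N ≤ 2 * Real.pi / 4 := by
          unfold hst
          exact div_le_div_of_nonneg_left (by positivity) (by norm_num) h4
        linarith) h1 h2
    have h3 : 0 < r * Mm r (r * del) y := mul_pos hr0 hM
    exact ⟨by linarith, by linarith⟩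

end SokamF1T

end
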