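import Pool.Agent.Lib_MP_af4de1_zy.Z160

/-! ### Lib_MP_af4de1_v3.T2FactB -/

section
namespace SokamF1
end SokamF1
namespace SokamF1B
end SokamF1B
namespace SokamF1G
end SokamF1G
namespace SokamF1M
end SokamF1M
namespace SokamF1S
end SokamF1S
namespace SokamPG
end SokamPG
namespace SokamU
end SokamU
/-!
# `N = 2`: `PTFact`, part B: `p1` and `p3` in the four cases (helper34)
-/

set_option autoImplicit false
set_option maxHeartbeats 4000000

open Complex MeasureTheory Set SokamU SokamPG SokamF1 SokamF1S SokamF1M SokamF1G SokamF1B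

namespace SokamV3

/-! ### the path -/

theorem tf_amin {x s : ℝ} (hx : 0 < 1 + x) (hs : 0 ≤ s) :
    (min 1 ((1 + x)⁻¹ * s) = 1 ∧ 1 + x ≤ s) ∨
      (min 1 ((1 + x)⁻¹ * s) * (1 + x) = s ∧ min 1 ((1 + x)⁻¹ * s) ≤ 1 ∧
        0 ≤ min 1 ((1 + x)⁻¹ * s)) := by
  rcases le_total 1 ((1 + x)⁻¹ * s) with h | h
  · left
    refine ⟨min_eq_left h, ?_⟩
    have h1 := mul_le_mul_of_nonneg_left h hx.le
    rw [← mul_assoc, mul_inv_cancel₀ hx.ne'] at h1
    linarith only [h1]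
  · right
    rw [min_eq_right h]
    have : 0 < (1 + x)⁻¹ := inv_pos.2 hx
    refine ⟨?_, h, by positivity⟩
    field_simp

theorem tf_ta {x : ℝ} (hx : 0 ≤ x) :
    (ta x = 1 ∧ x ≤ 112 / 25) ∨
      (ta x * (1 + x) = 137 / 25 ∧ ta x ≤ 1 ∧ 0 ≤ ta x ∧ 112 / 25 ≤ x) := by
  have hx1 : 0 < 1 + x := by linarith only [hx]
  unfold ta ts
  rcases le_total (137 / 25) (1 + x) with h | h
  · right
    rw [min_eq_left h]
    refine ⟨by field_simp, ?_, by positivity, by linarith only [h]⟩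
    rw [inv_mul_le_iff₀ hx1]
    linarith only [h]
  · left
    rw [min_eq_right h]
    exact ⟨inv_mul_cancel₀ hx1.ne', by linarith only [h]⟩

theorem tf_per {ε x v a φ : ℝ} : Hs ε x v a (2 * Real.pi + φ) =
    (a - v) * (2 * Real.pi + φ) + x * (1 + ε * a) -
      Real.exp (ε * a) * (x * Real.cos φ - v * Real.sin φ) := by
  unfold Hs
  have h1 : 2 * Real.pi + φ = φ + 2 * Real.pi := by ring
  rw [h1, Real.cos_add_two_pi, Real.sin_add_two_pi]

/-! ### `ε = -1`, `y ≤ 0`, `v = n = -y` -/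

theorem tf_n1 {x n v ρ s : ℝ} (hx : 16 / 5 ≤ x) (hn0 : 0 ≤ n) (hn1 : n ≤ 1 / 2)
    (hnx : n ≤ 2 / 5 * x)
    (hv0 : 0 ≤ v) (hnv : n ≤ v + 69 / 100 * v ^ (2 : ℕ)) (hvn : n - n ^ (2 : ℕ) / 2 ≤ v)
    (hxv : x * v ≤ 2105 / 1000) (hρ1 : ρ ≤ x) (hρ : ρ ≤ (x + n ^ (2 : ℕ) / (2 * x)) * (1 - v))
    (h1 : 3 / 2 ≤ s) (h2 : s ≤ 137 / 25) :
    23 / 100 * ρ ≤ Hs (-1) x n (min 1 ((1 + x)⁻¹ * s)) s := by
  have hx0 : 0 < x := by linarith only [hx]
  have hx1 : 0 < 1 + x := by linarith only [hx0]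
  have hs : 0 ≤ s := by linarith only [h1]
  have ham := tf_amin hx1 hs
  set a := min 1 ((1 + x)⁻¹ * s) with had
  have ha0 : 0 ≤ a := by
    rcases ham with ⟨h, _⟩ | ⟨_, _, h⟩
    · rw [h]; norm_num
    · exact h
  have ha1 : a ≤ 1 := by
    rcases ham with ⟨h, _⟩ | ⟨_, h, _⟩
    · rw [h]
    · exact h
  have hEn : Real.exp (-a) ≤ 1 := by
    rw [Real.exp_le_one_iff]
    linarith only [ha0]
  have hE0 := Real.exp_pos (-a)
  have e1 : (-1 : ℝ) * a = -a := by ring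
  rcases le_total s (47 / 10) with h3 | h3
  · have hc := tf_cosA h1 h3
    have hsin := Real.neg_one_le_sin s
    have hT : x * Real.cos s - n * Real.sin s ≤ 708 / 10000 * x + n := by nlinarith only [hx, hn0, hc, hsin]
    have hT0 : 0 ≤ 708 / 10000 * x + n := by positivity
    have hE : Real.exp (-a) * (x * Real.cos s - n * Real.sin s) ≤ 708 / 10000 * x + n := by
      calc Real.exp (-a) * (x * Real.cos s - n * Real.sin s) ≤
            Real.exp (-a) * (708 / 10000 * x + n) := by gcongr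
        _ ≤ 1 * (708 / 10000 * x + n) := by gcongr
        _ = _ := one_mul _
    unfold Hs
    rw [e1]
    rcases ham with ⟨h, h4⟩ | ⟨h, _, _⟩
    · rw [h] at hE ⊢
      nlinarith only [hn1, hnx, hρ1, hT0, hE, h4]
    · have h5 : 0 ≤ (a - n) * s + x * (1 - a) - (708 / 10000 * x + n) - 23 / 100 * x := by
        have h6 : (a - n) * s = (a - n) * (a * (1 + x)) := by rw [h]
        rw [h6]
        have h7 : 0 ≤ (1 / 2 - n) * (a * (1 + x) + 1) := mul_nonneg (by linarith only [hn1]) (by positivity)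
        have h8 : 0 ≤ (x - 16 / 5) * ((a - 3 / 4) ^ (2 : ℕ) + 1367 / 10000) :=
          mul_nonneg (by linarith only [hx]) (by positivity)
        linarith only [h7, h8, sq_nonneg (a - 53 / 84)]
      linarith only [hρ1, hE, h5]
  · rcases ham with ⟨h, h4⟩ | ⟨h, _, _⟩
    · have hT := tf_p4 hx0.le hn0 hnx h3 h2
      have hq := tf_q ha0 ha1
      have hT0 : 0 ≤ 6945 / 10000 * x + 72 / 100 * n := by positivity
      have hE : Real.exp (-a) * (x * Real.cos s - n * Real.sin s) ≤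
          384 / 1000 * (6945 / 10000 * x + 72 / 100 * n) := by
        calc Real.exp (-a) * (x * Real.cos s - n * Real.sin s) ≤
              Real.exp (-a) * (6945 / 10000 * x + 72 / 100 * n) := by gcongr
          _ ≤ 384 / 1000 * (6945 / 10000 * x + 72 / 100 * n) := by
              have : Real.exp (-a) ≤ 384 / 1000 := by
                rw [h] at hq ⊢
                norm_num at hq
                linarith only [hq]
              gcongr
      unfold Hs
      rw [e1]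
      rw [h] at hE ⊢
      nlinarith only [hn1, hρ1, h4, hT0, hE]
    · rcases le_total s (51 / 10) with h4 | h4
      · exact tf_bneg hx hn0 hn1 hv0 hρ (by norm_num) h3 h4 (by norm_num) (by norm_num)
          (by norm_num) h ha1 (tf_p1 hx0.le hn0 hnx h3 h4) (tf_g1 hx hn0 hn1 hv0 hnv hvn hxv)
      · rcases le_total s (53 / 10) with h5 | h5
        · exact tf_bneg hx hn0 hn1 hv0 hρ (by norm_num) h4 h5 (by norm_num) (by norm_num)
            (by norm_num) h ha1 (tf_p2 hx0.le hn0 hnx h3 h5) (tf_g2 hx hn0 hn1 hv0 hnv hvn hxv)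
        · rcases le_total s (539 / 100) with h6 | h6
          · exact tf_bneg hx hn0 hn1 hv0 hρ (by norm_num) h5 h6 (by norm_num) (by norm_num)
              (by norm_num) h ha1 (tf_p3 hx0.le hn0 hnx h3 h6) (tf_g3 hx hn0 hn1 hv0 hnv hvn hxv)
          · exact tf_bneg hx hn0 hn1 hv0 hρ (by norm_num) h6 h2 (by norm_num) (by norm_num)
              (by norm_num) h ha1 (tf_p4 hx0.le hn0 hnx h3 h2) (tf_g4 hx hn0 hn1 hv0 hnv hvn hxv)

theorem tf_g5 {x n v : ℝ} (hx : 16 / 5 ≤ x) (hn0 : 0 ≤ n) (hn1 : n ≤ 1 / 2)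
    (hv0 : 0 ≤ v) (hnv : n ≤ v + 69 / 100 * v ^ (2 : ℕ)) (hvn : n - n ^ (2 : ℕ) / 2 ≤ v)
    (hxv : x * v ≤ 2105 / 1000) :
    0 ≤ 529 / 10000 * x + 1 / 4 * (x * v) - 137 / 25 * (1 - 19 / 20 * (6971 / 10000)) +
      (137 / 25 * (1 - 19 / 20 * (6971 / 10000)) + 7083 / 1000 * (137 / 25) -
        334 / 1000 * (6971 / 10000) * (137 / 25) ^ (2 : ℕ)) * (1 + x)⁻¹ +
      334 / 1000 * (6971 / 10000) * (137 / 25) ^ (2 : ℕ) * (1 + x)⁻¹ ^ (2 : ℕ) -
      n * (7083 / 1000 + 1 + 2 / 100 - 19 / 20 * (137 / 25) * (1 + x)⁻¹ +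
        334 / 1000 * (137 / 25) ^ (2 : ℕ) * (1 + x)⁻¹ ^ (2 : ℕ)) := by
  refine tf_gen (X0 := 24) hx hn0 hn1 hv0 hnv hvn hxv (by norm_num) (by norm_num) (by norm_num)
    (by norm_num) (by norm_num) (by norm_num) ?_ ?_ ?_
  · intro x h1 h2
    obtain ⟨z, hz⟩ : ∃ z, z = 107 / 20 - x := ⟨_, rfl⟩
    have hz0 : 0 ≤ z := by linarith only [h2, hz]
    have hz1 : z ≤ 215 / 100 := by linarith only [h1, hz]
    obtain rfl : x = 107 / 20 - z := by linarith only [hz]
    nlinarith only [mul_nonneg hz0 (by linarith : 0 ≤ 215 / 100 - z)]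
  · intro x h1
    obtain ⟨z, hz⟩ : ∃ z, z = x - 107 / 20 := ⟨_, rfl⟩
    have hz0 : 0 ≤ z := by linarith only [h1, hz]
    obtain rfl : x = 107 / 20 + z := by linarith only [hz]
    ring_nf
    positivity
  · intro x h1
    obtain ⟨z, hz⟩ : ∃ z, z = x - 24 := ⟨_, rfl⟩
    have hz0 : 0 ≤ z := by linarith only [h1, hz]
    obtain rfl : x = 24 + z := by linarith only [hz]
    ring_nf
    positivity

theorem tf_n3 {x n v ρ φ : ℝ} (hx : 16 / 5 ≤ x) (hn0 : 0 ≤ n) (hn1 : n ≤ 1 / 2)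
    (hna : n ≤ ta x)
    (hv0 : 0 ≤ v) (hnv : n ≤ v + 69 / 100 * v ^ (2 : ℕ)) (hvn : n - n ^ (2 : ℕ) / 2 ≤ v)
    (hxv : x * v ≤ 2105 / 1000) (hρ1 : ρ ≤ x) (hρ : ρ ≤ (x + n ^ (2 : ℕ) / (2 * x)) * (1 - v))
    (h1 : 4 / 5 ≤ φ) (h2 : φ ≤ 137 / 25) :
    1 / 4 * ρ ≤ Hs (-1) x n (ta x) (2 * Real.pi + φ) := by
  have hx0 : 0 < x := by linarith only [hx, hn0]
  have hx1 : 0 < 1 + x := by linarith only [hx0]
  have hpi := tf_pi
  rw [tf_per]
  have hta := tf_ta hx0.le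
  set a := ta x with had
  have ha0 : 0 ≤ a := by linarith only [hn0, hna]
  have ha1 : a ≤ 1 := by
    rcases hta with ⟨h, _⟩ | ⟨_, h, _⟩
    · rw [h]
    · exact h
  have e1 : (-1 : ℝ) * a = -a := by ring
  rw [e1]
  have hq := tf_q ha0 ha1
  have hE0 := Real.exp_pos (-a)
  have hc := tf_cosB h1 h2
  have hsin := Real.neg_one_le_sin φ
  have hT : x * Real.cos φ - n * Real.sin φ ≤ 6971 / 10000 * x + n := by nlinarith only [hx, hn0, hc, hsin]
  have hT0 : 0 ≤ 6971 / 10000 * x + n := by positivity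
  have hE : Real.exp (-a) * (x * Real.cos φ - n * Real.sin φ) ≤
      (1 - 19 / 20 * a + 334 / 1000 * a ^ (2 : ℕ)) * (6971 / 10000 * x + n) := by
    calc Real.exp (-a) * (x * Real.cos φ - n * Real.sin φ) ≤
          Real.exp (-a) * (6971 / 10000 * x + n) := by gcongr
      _ ≤ _ := by gcongr
  have hh : (a - n) * (7083 / 1000) ≤ (a - n) * (2 * Real.pi + φ) := by
    have : 0 ≤ a - n := by linarith only [hna]
    have : 7083 / 1000 ≤ 2 * Real.pi + φ := by linarith only [h1, hpi]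
    gcongr
  rcases hta with ⟨h, h4⟩ | ⟨h, _, _, h4⟩
  · rw [h] at hE hh ⊢
    linarith only [hn1, hρ1, hE, hh, h4]
  · obtain ⟨c, hcd⟩ : ∃ c, c = (1 + x)⁻¹ := ⟨_, rfl⟩
    have hg := tf_g5 hx hn0 hn1 hv0 hnv hvn hxv
    rw [← hcd] at hg
    have hc0 : 0 < c := by rw [hcd]; positivity
    have hcx : c * (1 + x) = 1 := by rw [hcd]; exact inv_mul_cancel₀ hx1.ne'
    have hxc : x * c = 1 - c := by linarith only [hcx]
    have hac : a = c * (137 / 25) := by
      rw [← h]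
      linear_combination (-a) * hcx
    have hρ2 : 1 / 4 * ρ ≤ 1 / 4 * x - 1 / 4 * (x * v) + 2 / 100 * n := by
      have h3 : n ^ (2 : ℕ) / (2 * x) ≤ 8 / 100 * n := by
        rw [div_le_iff₀ (by positivity)]
        nlinarith only [hx, hn0, hn1]
      have h4 : n ^ (2 : ℕ) / (2 * x) * (1 - v) ≤ n ^ (2 : ℕ) / (2 * x) * 1 := by
        have : 0 ≤ n ^ (2 : ℕ) / (2 * x) := by positivity
        gcongr
        linarith only [hv0]
      linarith only [hρ, h3, h4]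
    have key : (c * (137 / 25) - n) * (7083 / 1000) + x * (1 - c * (137 / 25)) -
        (1 - 19 / 20 * (c * (137 / 25)) + 334 / 1000 * (c * (137 / 25)) ^ (2 : ℕ)) *
          (6971 / 10000 * x + n) -
        (1 / 4 * x - 1 / 4 * (x * v) + 2 / 100 * n) =
        529 / 10000 * x + 1 / 4 * (x * v) - 137 / 25 * (1 - 19 / 20 * (6971 / 10000)) +
        (137 / 25 * (1 - 19 / 20 * (6971 / 10000)) + 7083 / 1000 * (137 / 25) -
        334 / 1000 * (6971 / 10000) * (137 / 25) ^ (2 : ℕ)) * c +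
        334 / 1000 * (6971 / 10000) * (137 / 25) ^ (2 : ℕ) * c ^ (2 : ℕ) -
        n * (7083 / 1000 + 1 + 2 / 100 - 19 / 20 * (137 / 25) * c +
        334 / 1000 * (137 / 25) ^ (2 : ℕ) * c ^ (2 : ℕ)) := by
      linear_combination (-(137 / 25) + 19 / 20 * (6971 / 10000) * (137 / 25) -
        334 / 1000 * (6971 / 10000) * (137 / 25) ^ (2 : ℕ) * c) * hxc
    have e8 : x * (1 + -(c * (137 / 25))) = x * (1 - c * (137 / 25)) := by ring
    rw [hac] at hE hh ⊢
    rw [e8]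
    linarith only [hh, hE, hg, hρ2, key]

end SokamV3

end
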