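import Mathlib.Algebra.Order.Floor.Semifield
import Mathlib.Algebra.Ring.IsFormallyReal
import Mathlib.RingTheory.PowerSeries.Inverse
import Mathlib.Data.Rat.Star
import Mathlib.Geometry.Euclidean.Angle.Unoriented.TriangleInequality
import Mathlib.Analysis.Convex.Contractible
import Mathlib.Analysis.Calculus.Deriv.Star
import Mathlib.MeasureTheory.Integral.Gamma
import Mathlib.Analysis.Complex.LocallyUniformLimit
import Mathlib.Topology.Separation.CompletelyRegular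
import Mathlib.RingTheory.Flat.TorsionFree
import Mathlib.MeasureTheory.Order.Group.Lattice
import Mathlib.Data.Int.Star
import Mathlib.LinearAlgebra.Lagrange
import Mathlib.Analysis.Complex.Angle
import Mathlib.Analysis.Complex.BorelCaratheodory
import Mathlib.Analysis.Complex.CoveringMap
import Mathlib.Topology.Homotopy.Lifting
import Mathlib.Analysis.Complex.ExponentialBounds
import Mathlib.Analysis.Complex.HasPrimitives
import Mathlib.NumberTheory.DiophantineApproximation.Basic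
import Mathlib.Analysis.Complex.OpenMapping
import Mathlib.Analysis.SpecialFunctions.Trigonometric.DerivHyp
import Mathlib.RingTheory.SimpleRing.Principal
import Mathlib.Order.CompletePartialOrder
import Mathlib.Analysis.SpecialFunctions.Complex.LogBounds
import Mathlib.Analysis.SpecialFunctions.Gamma.BohrMollerup
import Mathlib.Analysis.SpecialFunctions.Trigonometric.Series
import Mathlib.Topology.MetricSpace.Sequences
import Mathlib.Analysis.Normed.Group.Tannery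
import Mathlib.Analysis.ODE.Gronwall
import Mathlib.Analysis.Real.Pi.Bounds
import Mathlib.Analysis.SpecialFunctions.Gaussian.PoissonSummation
import Mathlib.Analysis.SpecialFunctions.Trigonometric.InverseDeriv
import Mathlib.RingTheory.TotallySplit
import Mathlib.RingTheory.Etale.Weakly
import Mathlib.Tactic

/-! ### Lib_MP_af4de1_f1.TopFarE -/

section
/-!
# Polynomial bound for `e^(a u) (c cos u + s sin u)`, `a = ±1/2`
-/

set_option autoImplicit false

namespace SokamF1T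

open Complex

theorem enc8 {a u c s : ℝ} (ha : a ^ (2 : ℕ) = 1 / 4) (hu0 : 0 ≤ u) (hu2 : u ≤ 2) (hcs : c ^ (2 : ℕ) + s ^ (2 : ℕ) ≤ 102 / 100) :
    Real.exp (a * u) * (c * Real.cos u + s * Real.sin u) ≤
      c * (1 + a * u - 3 / 8 * u ^ (2 : ℕ) - 11 * a / 24 * u ^ (3 : ℕ) - 7 / 384 * u ^ (4 : ℕ) + 41 * a / 1920 * u ^ (5 : ℕ) +
        13 / 5120 * u ^ (6 : ℕ) + 29 * a / 322560 * u ^ (7 : ℕ)) +
      s * (u + a * u ^ (2 : ℕ) - 1 / 24 * u ^ (3 : ℕ) - a / 8 * u ^ (4 : ℕ) - 19 / 1920 * u ^ (5 : ℕ) + 11 * a / 5760 * u ^ (6 : ℕ) +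
        139 / 322560 * u ^ (7 : ℕ)) + 125 / 1000000 * u ^ (8 : ℕ) := by
  set z : ℂ := ((a * u : ℝ) : ℂ) + (u : ℂ) * I with hz
  have hzn : ‖z‖ ^ (2 : ℕ) = 5 / 4 * u ^ (2 : ℕ) := by
    rw [Complex.sq_norm, Complex.normSq_apply, hz]
    simp only [Complex.add_re, Complex.ofReal_re, Complex.mul_re, Complex.I_re, mul_zero, Complex.ofReal_im,
      Complex.I_im, mul_one, sub_self, add_zero, Complex.add_im, Complex.mul_im, zero_add]
    nlinarith only [ha]
  have hz3 : ‖z‖ ≤ 3 := by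
    have h0 := norm_nonneg z
    nlinarith only [hu0, hu2, hzn]
  have hb := Complex.exp_bound' (x := z) (n := 8) (by
    norm_num
    linarith)
  set S : ℂ := ∑ m ∈ Finset.range 8, z ^ m / (m.factorial : ℂ) with hS
  have hb2 : ‖cexp z - S‖ ≤ 122 / 1000000 * u ^ (8 : ℕ) := by
    refine hb.trans ?_
    have e : ‖z‖ ^ (8 : ℕ) = (5 / 4 * u ^ (2 : ℕ)) ^ (4 : ℕ) := by rw [← hzn]; ring
    rw [e]
    have : ((8 : ℕ).factorial : ℝ) = 40320 := by norm_num [Nat.factorial]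
    rw [this]
    have h8 : 0 ≤ u ^ (8 : ℕ) := by positivity
    linarith only [h8]
  -- the real part
  set w : ℂ := (c : ℂ) - (s : ℂ) * I with hw
  have hwn : ‖w‖ ≤ 101 / 100 := by
    have : ‖w‖ ^ (2 : ℕ) ≤ 102 / 100 := by
      rw [Complex.sq_norm, Complex.normSq_apply, hw]
      simp only [Complex.sub_re, Complex.ofReal_re, Complex.mul_re, Complex.I_re, mul_zero, Complex.ofReal_im,
        Complex.I_im, mul_one, sub_self, sub_zero, Complex.sub_im, Complex.mul_im, zero_sub, add_zero]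
      linarith only [hcs]
    nlinarith only [this]
  have h1 : (w * (cexp z - S)).re ≤ 125 / 1000000 * u ^ (8 : ℕ) := by
    refine (Complex.re_le_norm _).trans ?_
    rw [norm_mul]
    have h8 : 0 ≤ u ^ (8 : ℕ) := by positivity
    calc ‖w‖ * ‖cexp z - S‖ ≤ 101 / 100 * ‖cexp z - S‖ := by gcongr
      _ ≤ 101 / 100 * (122 / 1000000 * u ^ (8 : ℕ)) := by gcongr
      _ ≤ _ := by linarith only [h8]
  have h2 : (w * cexp z).re = Real.exp (a * u) * (c * Real.cos u + s * Real.sin u) := by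
    rw [hz, Complex.exp_add, Complex.exp_mul_I, ← Complex.ofReal_exp, ← Complex.ofReal_cos,
      ← Complex.ofReal_sin, hw]
    simp only [Complex.sub_re, Complex.sub_im, Complex.mul_re, Complex.mul_im, Complex.add_re,
      Complex.add_im, Complex.ofReal_re, Complex.ofReal_im, Complex.I_re, Complex.I_im]
    ring
  have hI : (I : ℂ) ^ (2 : ℕ) = -1 := Complex.I_sq
  have haC : (a : ℂ) ^ (2 : ℕ) = 1 / 4 := by
    rw [← Complex.ofReal_pow, ha]; norm_num
  have h3 : S = ((1 + a * u - 3 / 8 * u ^ (2 : ℕ) - 11 * a / 24 * u ^ (3 : ℕ) - 7 / 384 * u ^ (4 : ℕ) + 41 * a / 1920 * u ^ (5 : ℕ) +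
        13 / 5120 * u ^ (6 : ℕ) + 29 * a / 322560 * u ^ (7 : ℕ) : ℝ) : ℂ) +
      ((u + a * u ^ (2 : ℕ) - 1 / 24 * u ^ (3 : ℕ) - a / 8 * u ^ (4 : ℕ) - 19 / 1920 * u ^ (5 : ℕ) + 11 * a / 5760 * u ^ (6 : ℕ) +
        139 / 322560 * u ^ (7 : ℕ) : ℝ) : ℂ) * I := by
    have e1 : z = (u : ℂ) * (a + I) := by rw [hz]; push_cast; ring
    have p2 : ((a : ℂ) + I) ^ (2 : ℕ) = -3 / 4 + 2 * a * I := by linear_combination haC + hI
    have p3 : ((a : ℂ) + I) ^ (3 : ℕ) = -11 * a / 4 - I / 4 := by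
      rw [pow_succ, p2]
      linear_combination (2 * I) * haC + 2 * (a : ℂ) * hI
    have p4 : ((a : ℂ) + I) ^ (4 : ℕ) = -7 / 16 - 3 * a * I := by
      rw [pow_succ, p3]
      linear_combination (-11 / 4 : ℂ) * haC - (1 / 4 : ℂ) * hI
    have p5 : ((a : ℂ) + I) ^ (5 : ℕ) = 41 * a / 16 - 19 / 16 * I := by
      rw [pow_succ, p4]
      linear_combination (-3 * I) * haC - 3 * (a : ℂ) * hI
    have p6 : ((a : ℂ) + I) ^ (6 : ℕ) = 117 / 64 + 11 * a / 8 * I := by
      rw [pow_succ, p5]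
      linear_combination (41 / 16 : ℂ) * haC - (19 / 16 : ℂ) * hI
    have p7 : ((a : ℂ) + I) ^ (7 : ℕ) = 29 * a / 64 + 139 / 64 * I := by
      rw [pow_succ, p6]
      linear_combination (11 / 8 * I : ℂ) * haC + 11 / 8 * (a : ℂ) * hI
    rw [hS, e1]
    simp only [Finset.sum_range_succ, Finset.range_zero, Finset.sum_empty, mul_pow, p2, p3, p4, p5, p6, p7,
      pow_zero, pow_one, Nat.factorial]
    push_cast
    ring
  have h4 : (w * S).re = c * (1 + a * u - 3 / 8 * u ^ (2 : ℕ) - 11 * a / 24 * u ^ (3 : ℕ) - 7 / 384 * u ^ (4 : ℕ) +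
        41 * a / 1920 * u ^ (5 : ℕ) + 13 / 5120 * u ^ (6 : ℕ) + 29 * a / 322560 * u ^ (7 : ℕ)) +
      s * (u + a * u ^ (2 : ℕ) - 1 / 24 * u ^ (3 : ℕ) - a / 8 * u ^ (4 : ℕ) - 19 / 1920 * u ^ (5 : ℕ) + 11 * a / 5760 * u ^ (6 : ℕ) +
        139 / 322560 * u ^ (7 : ℕ)) := by
    rw [h3, hw]
    rw [mul_add, Complex.add_re]
    simp only [Complex.sub_re, Complex.sub_im, Complex.mul_re, Complex.mul_im, Complex.ofReal_re,
      Complex.ofReal_im, Complex.I_re, Complex.I_im]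
    ring
  rw [mul_sub, Complex.sub_re, h2, h4] at h1
  linarith

end SokamF1T

end

/-! ### Lib_MP_af4de1_f1.TopFarI -/

section
/-!
# The one-variable inequalities for the far waves, `N = 3, 4, 5`
-/

set_option autoImplicit false

namespace SokamF1T

theorem i3a {u : ℝ} (h0 : 0 ≤ u) (hU : u ≤ 2) :
    17286 / 10000 * (Real.exp ((-1 / 2) * u) * ((-1 / 2) * Real.cos u + (86603 / 100000) * Real.sin u) - (-1 / 2) * u + (-3 / 4)) ≤
      19 / 40 * u ^ (2 : ℕ) := by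
  have e := enc8 (a := -1 / 2) (c := -1 / 2) (s := 86603 / 100000) (by norm_num) h0 (by linarith only [hU]) (by norm_num)
  have hv : 0 ≤ 2 - u := by linarith only [hU]
  have p : ∀ i j : ℕ, 0 ≤ u ^ i * (2 - u) ^ j := fun i j =>
    mul_nonneg (pow_nonneg h0 i) (pow_nonneg hv j)
  linarith [p 0 8, p 1 7, p 2 6, p 3 5, p 4 4, p 5 3, p 6 2, p 7 1, p 8 0]

theorem i3b {u : ℝ} (h0 : 0 ≤ u) (hU : u ≤ 2) :
    17286 / 10000 * (Real.exp ((-1 / 2) * u) * ((-1) * Real.cos u + (0) * Real.sin u) - (-1 / 2) * u + (-1 / 4)) ≤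
      19 / 40 * u ^ (2 : ℕ) := by
  have e := enc8 (a := -1 / 2) (c := -1) (s := 0) (by norm_num) h0 (by linarith) (by norm_num)
  have hv : 0 ≤ 2 - u := by linarith only [hU]
  have p : ∀ i j : ℕ, 0 ≤ u ^ i * (2 - u) ^ j := fun i j =>
    mul_nonneg (pow_nonneg h0 i) (pow_nonneg hv j)
  linarith [p 0 8, p 1 7, p 2 6, p 3 5, p 4 4, p 5 3, p 6 2, p 7 1, p 8 0]

theorem i3c {u : ℝ} (h0 : 0 ≤ u) (hU : u ≤ 2) :
    17286 / 10000 * (Real.exp ((1 / 2) * u) * ((-1 / 2) * Real.cos u + (86603 / 100000) * Real.sin u) - (1 / 2) * u + (-3 / 4)) ≤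
      19 / 40 * u ^ (2 : ℕ) := by
  have e := enc8 (a := 1 / 2) (c := -1 / 2) (s := 86603 / 100000) (by norm_num) h0 (by linarith) (by norm_num)
  have hv : 0 ≤ 2 - u := by linarith only [hU]
  have p : ∀ i j : ℕ, 0 ≤ u ^ i * (2 - u) ^ j := fun i j =>
    mul_nonneg (pow_nonneg h0 i) (pow_nonneg hv j)
  linarith only [e, p 0 8, p 1 7, p 2 6, p 3 5, p 4 4, p 5 3, p 6 2, p 7 1]

theorem i3d {u : ℝ} (h0 : 0 ≤ u) (hU : u ≤ 2) :
    17286 / 10000 * (Real.exp ((1 / 2) * u) * ((-1) * Real.cos u + (0) * Real.sin u) - (1 / 2) * u + (-1 / 4)) ≤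
      19 / 40 * u ^ (2 : ℕ) := by
  have e := enc8 (a := 1 / 2) (c := -1) (s := 0) (by norm_num) h0 (by linarith) (by norm_num)
  have hv : 0 ≤ 2 - u := by linarith only [hU]
  have p : ∀ i j : ℕ, 0 ≤ u ^ i * (2 - u) ^ j := fun i j =>
    mul_nonneg (pow_nonneg h0 i) (pow_nonneg hv j)
  linarith only [e, p 0 8, p 1 7, p 2 6, p 3 5, p 4 4, p 5 3, p 6 2, p 7 1]

theorem i3e {u : ℝ} (h0 : 0 ≤ u) (hU : u ≤ 2) :
    17286 / 10000 * (Real.exp ((-1 / 2) * u) * ((-9959 / 10000) * Real.cos u + (9 / 100) * Real.sin u) - (-1 / 2) * u + (1 / 4 - 4224 / 10000)) ≤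
      19 / 40 * u ^ (2 : ℕ) := by
  have e := enc8 (a := -1 / 2) (c := -9959 / 10000) (s := 9 / 100) (by norm_num) h0 (by linarith) (by norm_num)
  rcases le_total u (1) with hm | hm
  · have hv : 0 ≤ 1 - u := by linarith only [hm]
    have p : ∀ i j : ℕ, 0 ≤ u ^ i * (1 - u) ^ j := fun i j =>
      mul_nonneg (pow_nonneg h0 i) (pow_nonneg hv j)
    linarith only [e, hv, p 0 8, p 1 7, p 2 6, p 3 5, p 4 4, p 5 3, p 6 2]
  · have hv : 0 ≤ 2 - u := by linarith only [hU]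
    have hw : 0 ≤ u - 1 := by linarith only [hm]
    have p : ∀ i j : ℕ, 0 ≤ (u - 1) ^ i * (2 - u) ^ j := fun i j =>
      mul_nonneg (pow_nonneg hw i) (pow_nonneg hv j)
    linarith [p 0 8, p 1 7, p 2 6, p 3 5, p 4 4, p 5 3, p 6 2, p 7 1, p 8 0]

theorem i3f {u : ℝ} (h0 : 0 ≤ u) (hU : u ≤ 2) :
    17286 / 10000 * (Real.exp ((1 / 2) * u) * ((-9959 / 10000) * Real.cos u + (9 / 100) * Real.sin u) - (1 / 2) * u + (1 / 4 - 42 / 100)) ≤
      19 / 40 * u ^ (2 : ℕ) := by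
  have e := enc8 (a := 1 / 2) (c := -9959 / 10000) (s := 9 / 100) (by norm_num) h0 (by linarith) (by norm_num)
  have hv : 0 ≤ 2 - u := by linarith only [hU]
  have p : ∀ i j : ℕ, 0 ≤ u ^ i * (2 - u) ^ j := fun i j =>
    mul_nonneg (pow_nonneg h0 i) (pow_nonneg hv j)
  linarith [p 0 8, p 1 7, p 2 6, p 3 5, p 4 4, p 5 3, p 6 2, p 7 1, p 8 0]

theorem i3s {u : ℝ} (h0 : 0 ≤ u) (hU : u ≤ 2) :
    3 / 4 * (Real.exp ((-1 / 2) * u) * ((-1 / 2) * Real.cos u + (86603 / 100000) * Real.sin u) - (-1 / 2) * u + (-1 / 5)) ≤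
      19 / 40 * u ^ (2 : ℕ) := by
  have e := enc8 (a := -1 / 2) (c := -1 / 2) (s := 86603 / 100000) (by norm_num) h0 (by linarith) (by norm_num)
  rcases le_total u (1) with hm | hm
  · have hv : 0 ≤ 1 - u := by linarith only [hm]
    have p : ∀ i j : ℕ, 0 ≤ u ^ i * (1 - u) ^ j := fun i j =>
      mul_nonneg (pow_nonneg h0 i) (pow_nonneg hv j)
    linarith only [e, hv, p 0 12, p 1 11, p 2 10, p 3 9, p 4 8, p 5 7, p 6 6, p 7 5, p 8 4, p 11 1, p 12 0]
  · have hv : 0 ≤ 2 - u := by linarith only [hU]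
    have hw : 0 ≤ u - 1 := by linarith only [hm]
    have p : ∀ i j : ℕ, 0 ≤ (u - 1) ^ i * (2 - u) ^ j := fun i j =>
      mul_nonneg (pow_nonneg hw i) (pow_nonneg hv j)
    linarith [p 0 12, p 1 11, p 2 10, p 3 9, p 4 8, p 5 7, p 6 6, p 7 5, p 8 4, p 9 3, p 10 2, p 11 1, p 12 0]

theorem i3t {u : ℝ} (h0 : 0 ≤ u) (hU : u ≤ 2) :
    3 / 4 * (Real.exp ((1 / 2) * u) * ((-1 / 2) * Real.cos u + (86603 / 100000) * Real.sin u) - (1 / 2) * u + (-1 / 5)) ≤
      19 / 40 * u ^ (2 : ℕ) := by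
  have e := enc8 (a := 1 / 2) (c := -1 / 2) (s := 86603 / 100000) (by norm_num) h0 (by linarith) (by norm_num)
  have hv : 0 ≤ 2 - u := by linarith only [hU]
  have p : ∀ i j : ℕ, 0 ≤ u ^ i * (2 - u) ^ j := fun i j =>
    mul_nonneg (pow_nonneg h0 i) (pow_nonneg hv j)
  linarith [p 0 8, p 1 7, p 2 6, p 3 5, p 4 4, p 5 3, p 6 2, p 7 1, p 8 0]

theorem i4a {u : ℝ} (h0 : 0 ≤ u) (hU : u ≤ 1571 / 1000) :
    1115 / 1000 * (Real.exp ((-1 / 2) * u) * ((0) * Real.cos u + (1) * Real.sin u) - (-1 / 2) * u + (-69 / 100)) ≤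
      19 / 40 * u ^ (2 : ℕ) := by
  have e := enc8 (a := -1 / 2) (c := 0) (s := 1) (by norm_num) h0 (by linarith) (by norm_num)
  have hv : 0 ≤ 1571 / 1000 - u := by linarith only [hU]
  have p : ∀ i j : ℕ, 0 ≤ u ^ i * (1571 / 1000 - u) ^ j := fun i j =>
    mul_nonneg (pow_nonneg h0 i) (pow_nonneg hv j)
  linarith only [e, p 0 8, p 1 7, p 2 6, p 3 5, p 5 3, p 6 2, p 7 1, p 8 0]

theorem i4b {u : ℝ} (h0 : 0 ≤ u) (hU : u ≤ 1571 / 1000) :
    1115 / 1000 * (Real.exp ((-1 / 2) * u) * ((-7071 / 10000) * Real.cos u + (70711 / 100000) * Real.sin u) - (-1 / 2) * u + (31 / 100 - 7071 / 10000)) ≤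
      19 / 40 * u ^ (2 : ℕ) := by
  have e := enc8 (a := -1 / 2) (c := -7071 / 10000) (s := 70711 / 100000) (by norm_num) h0 (by linarith) (by norm_num)
  have hv : 0 ≤ 1571 / 1000 - u := by linarith only [hU]
  have p : ∀ i j : ℕ, 0 ≤ u ^ i * (1571 / 1000 - u) ^ j := fun i j =>
    mul_nonneg (pow_nonneg h0 i) (pow_nonneg hv j)
  linarith only [e, p 0 8, p 1 7, p 2 6, p 3 5, p 4 4, p 6 2, p 7 1, p 8 0]

theorem i4c {u : ℝ} (h0 : 0 ≤ u) (hU : u ≤ 1571 / 1000) :
    1115 / 1000 * (Real.exp ((1 / 2) * u) * ((0) * Real.cos u + (1) * Real.sin u) - (1 / 2) * u + (-69 / 100)) ≤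
      19 / 40 * u ^ (2 : ℕ) := by
  have e := enc8 (a := 1 / 2) (c := 0) (s := 1) (by norm_num) h0 (by linarith) (by norm_num)
  have hv : 0 ≤ 1571 / 1000 - u := by linarith only [hU]
  have p : ∀ i j : ℕ, 0 ≤ u ^ i * (1571 / 1000 - u) ^ j := fun i j =>
    mul_nonneg (pow_nonneg h0 i) (pow_nonneg hv j)
  linarith only [e, p 0 8, p 1 7, p 2 6, p 3 5, p 4 4, p 5 3, p 7 1, p 8 0]

theorem i4d {u : ℝ} (h0 : 0 ≤ u) (hU : u ≤ 1571 / 1000) :
    1115 / 1000 * (Real.exp ((1 / 2) * u) * ((-7071 / 10000) * Real.cos u + (70711 / 100000) * Real.sin u) - (1 / 2) * u + (31 / 100 - 7071 / 10000)) ≤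
      19 / 40 * u ^ (2 : ℕ) := by
  have e := enc8 (a := 1 / 2) (c := -7071 / 10000) (s := 70711 / 100000) (by norm_num) h0 (by linarith) (by norm_num)
  have hv : 0 ≤ 1571 / 1000 - u := by linarith only [hU]
  have p : ∀ i j : ℕ, 0 ≤ u ^ i * (1571 / 1000 - u) ^ j := fun i j =>
    mul_nonneg (pow_nonneg h0 i) (pow_nonneg hv j)
  linarith only [e, p 0 8, p 1 7, p 2 6, p 3 5, p 4 4, p 5 3, p 6 2, p 7 1]

theorem i5a {u : ℝ} (h0 : 0 ≤ u) (hU : u ≤ 12567 / 10000) :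
    66 / 100 * (Real.exp ((-1 / 2) * u) * ((30902 / 100000) * Real.cos u + (95106 / 100000) * Real.sin u) - (-1 / 2) * u + (-72 / 100)) ≤
      19 / 40 * u ^ (2 : ℕ) := by
  have e := enc8 (a := -1 / 2) (c := 30902 / 100000) (s := 95106 / 100000) (by norm_num) h0 (by linarith) (by norm_num)
  have hv : 0 ≤ 12567 / 10000 - u := by linarith only [hU]
  have p : ∀ i j : ℕ, 0 ≤ u ^ i * (12567 / 10000 - u) ^ j := fun i j =>
    mul_nonneg (pow_nonneg h0 i) (pow_nonneg hv j)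
  linarith only [e, p 0 8, p 1 7, p 2 6, p 4 4, p 5 3, p 6 2, p 7 1, p 8 0]

theorem i5b {u : ℝ} (h0 : 0 ≤ u) (hU : u ≤ 12567 / 10000) :
    66 / 100 * (Real.exp ((-1 / 2) * u) * ((-30901 / 100000) * Real.cos u + (95106 / 100000) * Real.sin u) - (-1 / 2) * u + (28 / 100 - 80901 / 100000)) ≤
      19 / 40 * u ^ (2 : ℕ) := by
  have e := enc8 (a := -1 / 2) (c := -30901 / 100000) (s := 95106 / 100000) (by norm_num) h0 (by linarith) (by norm_num)
  have hv : 0 ≤ 12567 / 10000 - u := by linarith only [hU]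
  have p : ∀ i j : ℕ, 0 ≤ u ^ i * (12567 / 10000 - u) ^ j := fun i j =>
    mul_nonneg (pow_nonneg h0 i) (pow_nonneg hv j)
  linarith only [e, p 0 8, p 1 7, p 2 6, p 3 5, p 5 3, p 6 2, p 7 1, p 8 0]

theorem i5c {u : ℝ} (h0 : 0 ≤ u) (hU : u ≤ 12567 / 10000) :
    66 / 100 * (Real.exp ((1 / 2) * u) * ((30902 / 100000) * Real.cos u + (95106 / 100000) * Real.sin u) - (1 / 2) * u + (-72 / 100)) ≤
      19 / 40 * u ^ (2 : ℕ) := by
  have e := enc8 (a := 1 / 2) (c := 30902 / 100000) (s := 95106 / 100000) (by norm_num) h0 (by linarith) (by norm_num)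
  have hv : 0 ≤ 12567 / 10000 - u := by linarith only [hU]
  have p : ∀ i j : ℕ, 0 ≤ u ^ i * (12567 / 10000 - u) ^ j := fun i j =>
    mul_nonneg (pow_nonneg h0 i) (pow_nonneg hv j)
  linarith only [e, p 0 8, p 1 7, p 2 6, p 3 5, p 5 3, p 6 2, p 7 1, p 8 0]

theorem i5d {u : ℝ} (h0 : 0 ≤ u) (hU : u ≤ 12567 / 10000) :
    66 / 100 * (Real.exp ((1 / 2) * u) * ((-30901 / 100000) * Real.cos u + (95106 / 100000) * Real.sin u) - (1 / 2) * u + (28 / 100 - 80901 / 100000)) ≤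
      19 / 40 * u ^ (2 : ℕ) := by
  have e := enc8 (a := 1 / 2) (c := -30901 / 100000) (s := 95106 / 100000) (by norm_num) h0 (by linarith) (by norm_num)
  have hv : 0 ≤ 12567 / 10000 - u := by linarith only [hU]
  have p : ∀ i j : ℕ, 0 ≤ u ^ i * (12567 / 10000 - u) ^ j := fun i j =>
    mul_nonneg (pow_nonneg h0 i) (pow_nonneg hv j)
  linarith only [h0, e, p 0 8, p 1 7, p 2 6, p 3 5, p 4 4, p 5 3, p 6 2]

end SokamF1T

end

/-! ### Lib_MP_af4de1_f1.TopFarH -/

section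
/-!
# Height of the path through `y = 0` (slope 1/2) at the far waves, `N = 3, 4, 5`
-/

set_option autoImplicit false

namespace SokamF1T

open Real

/-- `cos (s + θ) ≤ cos (|θ| - |s|)` -/
theorem cos_add_le {s θ : ℝ} (hs : |s| ≤ π) (hθ : |θ| ≤ π) : cos (s + θ) ≤ cos (|θ| - |s|) := by
  rw [cos_add, cos_sub, cos_abs, cos_abs]
  have h1 : 0 ≤ sin |s| := sin_nonneg_of_nonneg_of_le_pi (abs_nonneg _) hs
  have h2 : 0 ≤ sin |θ| := sin_nonneg_of_nonneg_of_le_pi (abs_nonneg _) hθ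
  have h3 : |sin s * sin θ| = sin |θ| * sin |s| := by
    rw [abs_mul, abs_sin_eq_sin_abs_of_abs_le_pi hs, abs_sin_eq_sin_abs_of_abs_le_pi hθ]
    ring
  have h4 := neg_abs_le (sin s * sin θ)
  linarith only [h3, h4]

theorem gmax {H η A B : ℝ} (hη0 : 0 ≤ η) (hη : η ≤ H) (hH0 : 0 < H) (hH : H ≤ π / 2)
    (hB : 0 ≤ B) :
    A * cos η - B * sin η ≤ max A (A * cos H - B * sin H) := by
  have hsη : 0 ≤ sin η := sin_nonneg_of_nonneg_of_le_pi hη0 (by linarith only [hη, hH0, hH])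
  have hcη : cos η ≤ 1 := cos_le_one η
  rcases le_total 0 A with hA0 | hA0
  · refine le_max_of_le_left ?_
    nlinarith only [hB, hsη, hcη, hA0]
  · -- both end values are nonpositive
    set M := max A (A * cos H - B * sin H) with hM
    have hsH : 0 < sin H := sin_pos_of_pos_of_lt_pi hH0 (by linarith only [hH0, hH])
    have hcH : 0 ≤ cos H := cos_nonneg_of_neg_pi_div_two_le_of_le (by linarith only [hH0, hH]) hH
    have hM0 : M ≤ 0 := max_le hA0 (by nlinarith only [hB, hA0, hsH, hcH])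
    have h1 : sin H * (A * cos η - B * sin η) =
        sin (H - η) * A + sin η * (A * cos H - B * sin H) := by
      rw [sin_sub]; ring
    have h2 : 0 ≤ sin (H - η) := sin_nonneg_of_nonneg_of_le_pi (by linarith only [hη]) (by linarith only [hη0, hH0, hH])
    have h3 : sin H ≤ sin (H - η) + sin η := by
      have e1 : sin (H - η) + sin η = 2 * sin (H / 2) * cos (H / 2 - η) := by
        have := sin_add_sin (H - η) η
        rw [this]
        congr 2 <;> ring_nf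
      have e2 : sin H = 2 * sin (H / 2) * cos (H / 2) := by
        rw [← sin_two_mul]; congr 1; ring
      rw [e1, e2]
      have h4 : 0 ≤ sin (H / 2) := sin_nonneg_of_nonneg_of_le_pi (by linarith only [hH0]) (by linarith only [hH0, hH])
      have h5 : cos (H / 2) ≤ cos (H / 2 - η) := by
        rw [← cos_abs (H / 2 - η)]
        refine cos_le_cos_of_nonneg_of_le_pi (abs_nonneg _) (by linarith only [hH0, hH]) ?_
        rw [abs_le]
        constructor <;> linarith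
      nlinarith only [h4, h5]
    have h6 : sin H * (A * cos η - B * sin η) ≤ sin H * M := by
      rw [h1]
      have a1 : sin (H - η) * A ≤ sin (H - η) * M := mul_le_mul_of_nonneg_left (le_max_left _ _) h2
      have a2 : sin η * (A * cos H - B * sin H) ≤ sin η * M :=
        mul_le_mul_of_nonneg_left (le_max_right _ _) hsη
      nlinarith only [hM0, h3, a1, a2]
    exact le_of_mul_le_mul_left h6 hsH

/-- the two end points for `e cos (h + η - u) - cos η` -/
theorem gend {e h η u : ℝ} (he : 0 ≤ e) (hη0 : 0 ≤ η) (hη : η ≤ h / 2) (hh0 : 0 < h) (hh : h ≤ π)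
    (hu0 : 0 ≤ u) (hu : u ≤ h) :
    e * cos (h + η - u) - cos η ≤
      max (e * cos (h - u) - 1) (e * cos (3 * h / 2 - u) - cos (h / 2)) := by
  have hB : 0 ≤ e * sin (h - u) :=
    mul_nonneg he (sin_nonneg_of_nonneg_of_le_pi (by linarith only [hu]) (by linarith only [hh, hu0]))
  have key := gmax (H := h / 2) (η := η) (A := e * cos (h - u) - 1) (B := e * sin (h - u))
    hη0 hη (by linarith only [hh0]) (by linarith only [hh]) hB
  have e1 : e * cos (h + η - u) - cos η =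
      (e * cos (h - u) - 1) * cos η - e * sin (h - u) * sin η := by
    rw [show h + η - u = (h - u) + η by ring, cos_add]; ring
  have e2 : e * cos (3 * h / 2 - u) - cos (h / 2) =
      (e * cos (h - u) - 1) * cos (h / 2) - e * sin (h - u) * sin (h / 2) := by
    rw [show 3 * h / 2 - u = (h - u) + h / 2 by ring, cos_add]; ring
  rw [e1, e2]
  exact key

theorem scale {ρ ρN b L : ℝ} (h0 : 0 ≤ ρ) (h1 : ρ ≤ ρN) (hL : 0 ≤ L) (h : ρN * b ≤ L) : ρ * b ≤ L := by
  rcases le_total 0 b with hb | hb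
  · exact (mul_le_mul_of_nonneg_right h1 hb).trans h
  · exact (mul_nonpos_of_nonneg_of_nonpos h0 hb).trans hL

theorem in_gen {h ρN ρ η θ s M : ℝ} (hh0 : 0 < h) (hh : h ≤ 2 * π / 3) (hρ0 : 0 ≤ ρ) (hρ : ρ ≤ ρN)
    (hη0 : 0 ≤ η) (hη : η ≤ h / 2) (hτ : h + η ≤ |θ|) (hτ1 : |θ| ≤ π) (hs : |s| ≤ 2)
    (fa : ∀ u, 0 ≤ u → u ≤ 2 → u ≤ h → ρN * (exp (-1 / 2 * u) * cos (h - u) + u / 2 + (M - 1)) ≤
      19 / 40 * u ^ (2 : ℕ))
    (fb : ∀ u, 0 ≤ u → u ≤ 2 → u ≤ h → ρN * (exp (-1 / 2 * u) * cos (3 * h / 2 - u) + u / 2 + M -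
      cos (h / 2)) ≤ 19 / 40 * u ^ (2 : ℕ))
    (fc : ∀ u, 0 ≤ u → u ≤ 2 → u ≤ h → ρN * (exp (1 / 2 * u) * cos (h - u) - u / 2 + (M - 1)) ≤
      19 / 40 * u ^ (2 : ℕ))
    (fd : ∀ u, 0 ≤ u → u ≤ 2 → u ≤ h → ρN * (exp (1 / 2 * u) * cos (3 * h / 2 - u) - u / 2 + M -
      cos (h / 2)) ≤ 19 / 40 * u ^ (2 : ℕ))
    (fe : ∀ u, h ≤ u → u ≤ 2 → ρN * (exp (-1 / 2 * u) + u / 2 + M - cos (h / 2)) ≤ 19 / 40 * u ^ (2 : ℕ))
    (ff : ∀ u, h ≤ u → u ≤ 2 → ρN * (exp (1 / 2 * u) - u / 2 + M - cos (h / 2)) ≤ 19 / 40 * u ^ (2 : ℕ)) :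
    ρ * (exp (s / 2) * cos (s + θ) - s / 2 + M - cos η) ≤ 19 / 40 * s ^ (2 : ℕ) := by
  have hpi3 := pi_gt_three
  have hρN : 0 ≤ ρN := hρ0.trans hρ
  refine scale hρ0 hρ (by (clear * -; positivity)) ?_
  have hs0 := abs_nonneg s
  have hu2 : |s| ^ (2 : ℕ) = s ^ (2 : ℕ) := sq_abs s
  have c1 := cos_add_le (s := s) (θ := θ) (by linarith only [hs, hpi3]) hτ1
  have hch : cos (h / 2) ≤ cos η := cos_le_cos_of_nonneg_of_le_pi hη0 (by linarith only [hh0, hh]) hη
  -- the two signs of `s`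
  have main : ∀ (σ : ℝ), σ = 1 / 2 ∨ σ = -1 / 2 → exp (s / 2) = exp (σ * |s|) →
      -s / 2 = -(σ * |s|) → ρN * (exp (s / 2) * cos (s + θ) - s / 2 + M - cos η) ≤ 19 / 40 * s ^ (2 : ℕ) := by
    intro σ hσ e1 e2
    have hp : 0 < exp (σ * |s|) := exp_pos _
    rcases le_total |s| h with hle | hge
    · have c2 : cos (|θ| - |s|) ≤ cos (h + η - |s|) :=
        cos_le_cos_of_nonneg_of_le_pi (by linarith only [hη0, hle]) (by linarith only [hτ1, hs0]) (by linarith only [hτ])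
      have g := gend (e := exp (σ * |s|)) (h := h) (η := η) (u := |s|) hp.le hη0 hη hh0 (by linarith only [hh0, hh]) hs0 hle
      have b1 : exp (s / 2) * cos (s + θ) - s / 2 + M - cos η ≤
          max (exp (σ * |s|) * cos (h - |s|) - 1)
            (exp (σ * |s|) * cos (3 * h / 2 - |s|) - cos (h / 2)) + (M - σ * |s|) := by
        have : exp (s / 2) * cos (s + θ) ≤ exp (σ * |s|) * cos (h + η - |s|) := by
          rw [e1]
          exact mul_le_mul_of_nonneg_left (c1.trans c2) hp.le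
        linarith only [e2, g, this]
      rcases max_cases (exp (σ * |s|) * cos (h - |s|) - 1)
            (exp (σ * |s|) * cos (3 * h / 2 - |s|) - cos (h / 2)) with ⟨e3, _⟩ | ⟨e3, _⟩
      · rw [e3] at b1
        refine (mul_le_mul_of_nonneg_left b1 hρN).trans ?_
        rcases hσ with rfl | rfl
        · have := fc |s| hs0 hs hle
          rw [hu2] at this
          linarith only [this]
        · have := fa |s| hs0 hs hle
          rw [hu2] at this
          linarith only [this]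
      · rw [e3] at b1
        refine (mul_le_mul_of_nonneg_left b1 hρN).trans ?_
        rcases hσ with rfl | rfl
        · have := fd |s| hs0 hs hle
          rw [hu2] at this
          linarith only [this]
        · have := fb |s| hs0 hs hle
          rw [hu2] at this
          linarith only [this]
    · have b1 : exp (s / 2) * cos (s + θ) - s / 2 + M - cos η ≤
          exp (σ * |s|) - σ * |s| + M - cos (h / 2) := by
        have : exp (s / 2) * cos (s + θ) ≤ exp (σ * |s|) * 1 := by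
          rw [e1]
          exact mul_le_mul_of_nonneg_left (cos_le_one _) hp.le
        linarith only [hch, e2, this]
      refine (mul_le_mul_of_nonneg_left b1 hρN).trans ?_
      rcases hσ with rfl | rfl
      · have := ff |s| hge hs
        rw [hu2] at this
        linarith only [this]
      · have := fe |s| hge hs
        rw [hu2] at this
        linarith only [this]
  rcases le_total 0 s with h0 | h0
  · refine main (1 / 2) (Or.inl rfl) ?_ ?_
    · rw [abs_of_nonneg h0]; congr 1; ring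
    · rw [abs_of_nonneg h0]; ring
  · refine main (-1 / 2) (Or.inr rfl) ?_ ?_
    · rw [abs_of_nonpos h0]; congr 1; ring
    · rw [abs_of_nonpos h0]; ring

/-! ### `N = 3` -/

theorem cos_23 : cos (2 * π / 3) = -1 / 2 := by
  rw [show 2 * π / 3 = π - π / 3 by ring, cos_pi_sub, cos_pi_div_three]; norm_num

theorem sin_23 : sin (2 * π / 3) = √3 / 2 := by
  rw [show 2 * π / 3 = π - π / 3 by ring, sin_pi_sub, sin_pi_div_three]

theorem sqrt3_le : √3 / 2 ≤ 86603 / 100000 := by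
  have : √3 ≤ 173206 / 100000 := by
    rw [sqrt_le_left (by norm_num)]; norm_num
  linarith only [this]

theorem in3 {ρ η θ s : ℝ} (hρ0 : 0 ≤ ρ) (hρ : ρ ≤ 17286 / 10000)
    (hη0 : 0 ≤ η) (hη : η ≤ π / 3) (hτ : 2 * π / 3 + η ≤ |θ|) (hτ1 : |θ| ≤ π) (hs : |s| ≤ 2) :
    ρ * (exp (s / 2) * cos (s + θ) - s / 2 + 1 / 4 - cos η) ≤ 19 / 40 * s ^ (2 : ℕ) := by
  have hpi := pi_gt_d2
  have hh2 : 2 * π / 3 / 2 = π / 3 := by ring
  have hh3 : 3 * (2 * π / 3) / 2 = π := by ring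
  refine in_gen (h := 2 * π / 3) (M := 1 / 4) (by positivity) le_rfl hρ0 hρ hη0 (by linarith only [hη]) hτ hτ1 hs ?_ ?_ ?_ ?_ ?_ ?_
  · intro u h0 h2 _
    have hsu : 0 ≤ sin u := sin_nonneg_of_nonneg_of_le_pi h0 (by linarith only [hpi, h2])
    have := i3a h0 h2
    rw [cos_sub, cos_23, sin_23]
    have hE := exp_pos (-1 / 2 * u)
    have h5 := mul_le_mul_of_nonneg_right sqrt3_le hsu
    have h6 := mul_le_mul_of_nonneg_left h5 hE.le
    linarith only [this, h6]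
  · intro u h0 h2 _
    have := i3b h0 h2
    rw [hh3, hh2, cos_pi_sub, cos_pi_div_three]
    linarith only [this]
  · intro u h0 h2 _
    have hsu : 0 ≤ sin u := sin_nonneg_of_nonneg_of_le_pi h0 (by linarith only [hpi, h2])
    have := i3c h0 h2
    rw [cos_sub, cos_23, sin_23]
    have hE := exp_pos (1 / 2 * u)
    have h5 := mul_le_mul_of_nonneg_right sqrt3_le hsu
    have h6 := mul_le_mul_of_nonneg_left h5 hE.le
    linarith only [this, h6]
  · intro u h0 h2 _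
    have := i3d h0 h2
    rw [hh3, hh2, cos_pi_sub, cos_pi_div_three]
    linarith only [this]
  · intro u h0 h2
    exfalso
    linarith only [hpi, h0, h2]
  · intro u h0 h2
    exfalso
    linarith only [hpi, h0, h2]

/-! ### `u ≥ h` for `N = 4, 5` -/

theorem exp_half_mul {u : ℝ} : exp (1 / 2 * u) * (2 - u / 2) ≤ 27183 / 10000 := by
  have h1 : 1 + (1 - u / 2) ≤ exp (1 - u / 2) := by linarith only [add_one_le_exp (1 - u / 2)]
  have h2 : exp (1 / 2 * u) * exp (1 - u / 2) = exp 1 := by rw [← exp_add]; congr 1; ring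
  have h3 := exp_one_lt_d9
  have h4 := exp_pos (1 / 2 * u)
  nlinarith only [h1, h2, h3, h4]

theorem exp_half_mul2 {u : ℝ} (hu : u ≤ 2) :
    exp (1 / 2 * u) * (1 + (1 - u / 2) + (1 - u / 2) ^ (2 : ℕ) / 2) ≤ 27183 / 10000 := by
  have h1 : 1 + (1 - u / 2) + (1 - u / 2) ^ (2 : ℕ) / 2 ≤ exp (1 - u / 2) :=
    quadratic_le_exp_of_nonneg (by linarith only [hu])
  have h2 : exp (1 / 2 * u) * exp (1 - u / 2) = exp 1 := by rw [← exp_add]; congr 1; ring
  have h3 := exp_one_lt_d9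
  have h4 := exp_pos (1 / 2 * u)
  nlinarith

theorem exp_neg_half_mul {u : ℝ} : exp (-1 / 2 * u) * (1 + u / 2) ≤ 1 := by
  have h1 : u / 2 + 1 ≤ exp (u / 2) := add_one_le_exp _
  have h2 : exp (-1 / 2 * u) * exp (u / 2) = 1 := by
    rw [← exp_add, show -1 / 2 * u + u / 2 = 0 by ring, exp_zero]
  have h4 := exp_pos (-1 / 2 * u)
  nlinarith only [h1, h2, h4]

/-! ### `N = 4` -/

theorem sqrt2_ge : 7071 / 10000 ≤ √2 / 2 := by
  have : 14142 / 10000 ≤ √2 := by
    apply le_sqrt_of_sq_le; norm_num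
  linarith only [this]

theorem sqrt2_le : √2 / 2 ≤ 70711 / 100000 := by
  have : √2 ≤ 141422 / 100000 := by
    rw [sqrt_le_left (by norm_num)]; norm_num
  linarith only [this]

theorem cos_34 : cos (3 * (π / 2) / 2) = -(√2 / 2) := by
  rw [show 3 * (π / 2) / 2 = π - π / 4 by ring, cos_pi_sub, cos_pi_div_four]

theorem sin_34 : sin (3 * (π / 2) / 2) = √2 / 2 := by
  rw [show 3 * (π / 2) / 2 = π - π / 4 by ring, sin_pi_sub, sin_pi_div_four]

theorem in4 {ρ η θ s : ℝ} (hρ0 : 0 ≤ ρ) (hρ : ρ ≤ 1115 / 1000)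
    (hη0 : 0 ≤ η) (hη : η ≤ π / 4) (hτ : π / 2 + η ≤ |θ|) (hτ1 : |θ| ≤ π) (hs : |s| ≤ 2) :
    ρ * (exp (s / 2) * cos (s + θ) - s / 2 + 31 / 100 - cos η) ≤ 19 / 40 * s ^ (2 : ℕ) := by
  have hpi := pi_gt_d2
  have hpi2 := pi_lt_d4
  have hh2 : π / 2 / 2 = π / 4 := by ring
  refine in_gen (h := π / 2) (M := 31 / 100) (by positivity) (by linarith only [hpi]) hρ0 hρ hη0 (by linarith only [hη]) hτ hτ1 hs
    ?_ ?_ ?_ ?_ ?_ ?_
  · intro u h0 h2 h3
    have := i4a h0 (by linarith only [hpi2, h3])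
    rw [cos_pi_div_two_sub]
    linarith only [this]
  · intro u h0 h2 h3
    have hsu : 0 ≤ sin u := sin_nonneg_of_nonneg_of_le_pi h0 (by linarith only [h0, h3])
    have hcu : 0 ≤ cos u := cos_nonneg_of_neg_pi_div_two_le_of_le (by linarith only [hpi, h0]) h3
    have := i4b h0 (by linarith only [hpi2, h3])
    rw [cos_sub, cos_34, sin_34, hh2, cos_pi_div_four]
    have hE := exp_pos (-1 / 2 * u)
    have h6 := mul_le_mul_of_nonneg_left (mul_le_mul_of_nonneg_right sqrt2_le hsu) hE.le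
    have h7 := mul_le_mul_of_nonneg_left (mul_le_mul_of_nonneg_right sqrt2_ge hcu) hE.le
    have h8 := sqrt2_ge
    linarith only [this, h6, h7, h8]
  · intro u h0 h2 h3
    have := i4c h0 (by linarith only [hpi2, h3])
    rw [cos_pi_div_two_sub]
    linarith only [this]
  · intro u h0 h2 h3
    have hsu : 0 ≤ sin u := sin_nonneg_of_nonneg_of_le_pi h0 (by linarith only [h0, h3])
    have hcu : 0 ≤ cos u := cos_nonneg_of_neg_pi_div_two_le_of_le (by linarith only [hpi, h0]) h3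
    have := i4d h0 (by linarith only [hpi2, h3])
    rw [cos_sub, cos_34, sin_34, hh2, cos_pi_div_four]
    have hE := exp_pos (1 / 2 * u)
    have h6 := mul_le_mul_of_nonneg_left (mul_le_mul_of_nonneg_right sqrt2_le hsu) hE.le
    have h7 := mul_le_mul_of_nonneg_left (mul_le_mul_of_nonneg_right sqrt2_ge hcu) hE.le
    have h8 := sqrt2_ge
    linarith only [this, h6, h7, h8]
  · intro u h0 h2
    have h9 := exp_neg_half_mul (u := u)
    have h8 := sqrt2_ge
    rw [hh2, cos_pi_div_four]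
    have hu : 157 / 100 ≤ u := by linarith only [hpi, h0]
    have h10 : exp (-1 / 2 * u) ≤ 561 / 1000 := by
      have := exp_pos (-1 / 2 * u)
      nlinarith only [h9, hu]
    nlinarith only [h8, hu, h10]
  · intro u h0 h2
    have h9 := exp_half_mul2 h2
    have h8 := sqrt2_ge
    rw [hh2, cos_pi_div_four]
    have hu : 157 / 100 ≤ u := by linarith only [hpi, h0]
    set X := 1 + (1 - u / 2) + (1 - u / 2) ^ (2 : ℕ) / 2 with hX
    have h11 : 0 < X := by rw [hX]; nlinarith only []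
    refine le_of_mul_le_mul_right ?_ h11
    have e : 1115 / 1000 * (exp (1 / 2 * u) - u / 2 + 31 / 100 - √2 / 2) * X ≤
        1115 / 1000 * (27183 / 10000 + (-(u / 2) + 31 / 100 - 7071 / 10000) * X) := by
      have : (1115 / 1000) * (exp (1 / 2 * u) * X) ≤ 1115 / 1000 * (27183 / 10000) := by gcongr
      nlinarith only [h8, h11, this]
    refine e.trans ?_
    rw [hX]
    nlinarith only [mul_nonneg (by linarith : 0 ≤ u - 157 / 100) (by linarith : 0 ≤ 2 - u), mul_nonneg (mul_nonneg (by linarith : 0 ≤ u - 157 / 100) (by linarith : 0 ≤ 2 - u)) (by linarith : 0 ≤ u)]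

/-! ### `N = 5` -/

theorem cos_36 : 80901 / 100000 ≤ cos (π / 5) ∧ cos (π / 5) ≤ 80902 / 100000 := by
  rw [cos_pi_div_five]
  have h1 : 223606 / 100000 ≤ √5 := by
    apply le_sqrt_of_sq_le; norm_num
  have h2 : √5 ≤ 223607 / 100000 := by
    rw [sqrt_le_left (by norm_num)]; norm_num
  constructor <;> linarith

theorem cos_72 : 30901 / 100000 ≤ cos (2 * π / 5) ∧ cos (2 * π / 5) ≤ 30902 / 100000 := by
  have h1 : 223606 / 100000 ≤ √5 := by
    apply le_sqrt_of_sq_le; norm_num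
  have h2 : √5 ≤ 223607 / 100000 := by
    rw [sqrt_le_left (by norm_num)]; norm_num
  have h3 : √5 ^ (2 : ℕ) = 5 := sq_sqrt (by norm_num)
  have e : cos (2 * π / 5) = (√5 - 1) / 4 := by
    rw [show 2 * π / 5 = 2 * (π / 5) by ring, cos_two_mul, cos_pi_div_five]
    linarith only [h3]
  rw [e]
  constructor <;> linarith

theorem sin_72 : sin (2 * π / 5) ≤ 95106 / 100000 := by
  have h1 := cos_72.1
  have h2 := sin_sq_add_cos_sq (2 * π / 5)
  nlinarith

theorem in5 {ρ η θ s : ℝ} (hρ0 : 0 ≤ ρ) (hρ : ρ ≤ 66 / 100)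
    (hη0 : 0 ≤ η) (hη : η ≤ π / 5) (hτ : 2 * π / 5 + η ≤ |θ|) (hτ1 : |θ| ≤ π) (hs : |s| ≤ 2) :
    ρ * (exp (s / 2) * cos (s + θ) - s / 2 + 28 / 100 - cos η) ≤ 19 / 40 * s ^ (2 : ℕ) := by
  have hpi := pi_gt_d2
  have hpi2 := pi_lt_d4
  have hh2 : 2 * π / 5 / 2 = π / 5 := by ring
  have e108 : 3 * (2 * π / 5) / 2 = π - 2 * π / 5 := by ring
  have c1 := cos_36.1
  have c2 := cos_72.1
  have c3 := cos_72.2
  have c4 := sin_72
  refine in_gen (h := 2 * π / 5) (M := 28 / 100) (by positivity) (by linarith only [hpi]) hρ0 hρ hη0 (by linarith only [hη]) hτ hτ1 hs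
    ?_ ?_ ?_ ?_ ?_ ?_
  · intro u h0 h2 h3
    have hsu : 0 ≤ sin u := sin_nonneg_of_nonneg_of_le_pi h0 (by linarith only [h0, h3])
    have hcu : 0 ≤ cos u := cos_nonneg_of_neg_pi_div_two_le_of_le (by linarith only [h0, h3]) (by linarith only [h0, h3])
    have := i5a h0 (by linarith only [hpi2, h3])
    rw [cos_sub]
    have hE := exp_pos (-1 / 2 * u)
    have h6 := mul_le_mul_of_nonneg_left (mul_le_mul_of_nonneg_right c4 hsu) hE.le
    have h7 := mul_le_mul_of_nonneg_left (mul_le_mul_of_nonneg_right c3 hcu) hE.le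
    linarith only [this, h6, h7]
  · intro u h0 h2 h3
    have hsu : 0 ≤ sin u := sin_nonneg_of_nonneg_of_le_pi h0 (by linarith only [h0, h3])
    have hcu : 0 ≤ cos u := cos_nonneg_of_neg_pi_div_two_le_of_le (by linarith only [h0, h3]) (by linarith only [h0, h3])
    have := i5b h0 (by linarith only [hpi2, h3])
    rw [cos_sub, e108, cos_pi_sub, sin_pi_sub, hh2]
    have hE := exp_pos (-1 / 2 * u)
    have h6 := mul_le_mul_of_nonneg_left (mul_le_mul_of_nonneg_right c4 hsu) hE.le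
    have h7 := mul_le_mul_of_nonneg_left (mul_le_mul_of_nonneg_right c2 hcu) hE.le
    linarith only [c1, this, h6, h7]
  · intro u h0 h2 h3
    have hsu : 0 ≤ sin u := sin_nonneg_of_nonneg_of_le_pi h0 (by linarith only [h0, h3])
    have hcu : 0 ≤ cos u := cos_nonneg_of_neg_pi_div_two_le_of_le (by linarith only [h0, h3]) (by linarith only [h0, h3])
    have := i5c h0 (by linarith only [hpi2, h3])
    rw [cos_sub]
    have hE := exp_pos (1 / 2 * u)
    have h6 := mul_le_mul_of_nonneg_left (mul_le_mul_of_nonneg_right c4 hsu) hE.le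
    have h7 := mul_le_mul_of_nonneg_left (mul_le_mul_of_nonneg_right c3 hcu) hE.le
    linarith only [this, h6, h7]
  · intro u h0 h2 h3
    have hsu : 0 ≤ sin u := sin_nonneg_of_nonneg_of_le_pi h0 (by linarith only [h0, h3])
    have hcu : 0 ≤ cos u := cos_nonneg_of_neg_pi_div_two_le_of_le (by linarith only [h0, h3]) (by linarith only [h0, h3])
    have := i5d h0 (by linarith only [hpi2, h3])
    rw [cos_sub, e108, cos_pi_sub, sin_pi_sub, hh2]
    have hE := exp_pos (1 / 2 * u)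
    have h6 := mul_le_mul_of_nonneg_left (mul_le_mul_of_nonneg_right c4 hsu) hE.le
    have h7 := mul_le_mul_of_nonneg_left (mul_le_mul_of_nonneg_right c2 hcu) hE.le
    linarith only [c1, this, h6, h7]
  · intro u h0 h2
    have h9 := exp_neg_half_mul (u := u)
    rw [hh2]
    have hu : 1256 / 1000 ≤ u := by linarith only [hpi, h0]
    have h10 : exp (-1 / 2 * u) ≤ 62 / 100 := by
      have := exp_pos (-1 / 2 * u)
      nlinarith only [h9, hu]
    nlinarith only [c1, h9, hu]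
  · intro u h0 h2
    have h9 := exp_half_mul (u := u)
    rw [hh2]
    have hu : 1256 / 1000 ≤ u := by linarith only [hpi, h0]
    have h11 : 0 < 2 - u / 2 := by linarith only [h2]
    refine le_of_mul_le_mul_right ?_ h11
    have e : 66 / 100 * (exp (1 / 2 * u) - u / 2 + 28 / 100 - cos (π / 5)) * (2 - u / 2) ≤
        66 / 100 * (27183 / 10000 + (-(u / 2) + 28 / 100 - 80901 / 100000) * (2 - u / 2)) := by
      have : (66 / 100) * (exp (1 / 2 * u) * (2 - u / 2)) ≤ 66 / 100 * (27183 / 10000) := by gcongr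
      nlinarith only [c1, h9, h11]
    refine e.trans ?_
    nlinarith only [mul_nonneg (by linarith : 0 ≤ u - 1256 / 1000) (by linarith : 0 ≤ 2 - u)]

/-! ### `N = 3`, the top wave slightly beyond `60°` -/

theorem in3' {ρ η θ s : ℝ} (hρ0 : 0 ≤ ρ) (hρ : ρ ≤ 17286 / 10000)
    (hη : 4225 / 10000 ≤ cos η) (hτ : π - 9 / 100 ≤ |θ|) (hτ1 : |θ| ≤ π) (hs : |s| ≤ 2) :
    ρ * (exp (s / 2) * cos (s + θ) - s / 2 + 1 / 4 - cos η) ≤ 19 / 40 * s ^ (2 : ℕ) := by
  have hpi := pi_gt_d2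
  have hpi2 := pi_lt_d4
  refine scale hρ0 hρ (by (clear * -; positivity)) ?_
  have hs0 := abs_nonneg s
  have hu2 : |s| ^ (2 : ℕ) = s ^ (2 : ℕ) := sq_abs s
  have c1 := cos_add_le (s := s) (θ := θ) (by linarith only [hs, hpi]) hτ1
  have c2 : cos (|θ| - |s|) ≤ cos (π - (|s| + 9 / 100)) :=
    cos_le_cos_of_nonneg_of_le_pi (by linarith only [hs, hpi]) (by linarith only [hτ1, hs0]) (by linarith only [hτ])
  have hsu : 0 ≤ sin |s| := sin_nonneg_of_nonneg_of_le_pi hs0 (by linarith only [hs, hpi])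
  have c3 : cos (π - (|s| + 9 / 100)) ≤ -9959 / 10000 * cos |s| + 9 / 100 * sin |s| + 1 / 10000 * (3 / 5) := by
    rw [cos_pi_sub, cos_add]
    have k1 : sin (9 / 100) ≤ 9 / 100 := sin_le (by norm_num)
    have k2 : 1 - (9 / 100) ^ (2 : ℕ) / 2 ≤ cos (9 / 100) := one_sub_sq_div_two_le_cos
    have k3 : cos (9 / 100) ≤ 1 - (9 / 100) ^ (2 : ℕ) / 2 + (9 / 100) ^ (4 : ℕ) * (5 / 96) := by
      have := Real.cos_bound (x := 9 / 100) (by norm_num [abs_of_pos])
      have := (abs_le.1 this).2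
      norm_num [abs_of_pos] at this ⊢
      linarith only [this]
    have k4 := mul_le_mul_of_nonneg_right k1 hsu
    have k5 : |cos |s| * (9959 / 10000 - cos (9 / 100))| ≤ 1 * (1 / 10000 * (3 / 5)) := by
      rw [abs_mul]
      refine mul_le_mul (abs_cos_le_one _) ?_ (abs_nonneg _) zero_le_one
      rw [abs_le]
      constructor <;> norm_num at k2 k3 ⊢ <;> linarith
    have k6 := (abs_le.1 k5).2
    linarith only [k4, k6]
  have main : ∀ (σ : ℝ), σ = 1 / 2 ∨ σ = -1 / 2 → exp (s / 2) = exp (σ * |s|) →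
      -s / 2 = -(σ * |s|) →
      17286 / 10000 * (exp (s / 2) * cos (s + θ) - s / 2 + 1 / 4 - cos η) ≤ 19 / 40 * s ^ (2 : ℕ) := by
    intro σ hσ e1 e2
    have hp : 0 < exp (σ * |s|) := exp_pos _
    have b0 : exp (s / 2) * cos (s + θ) ≤ exp (σ * |s|) *
        (-9959 / 10000 * cos |s| + 9 / 100 * sin |s| + 1 / 10000 * (3 / 5)) := by
      rw [e1]
      exact mul_le_mul_of_nonneg_left ((c1.trans c2).trans c3) hp.le
    rcases hσ with rfl | rfl
    · have h1 := i3f hs0 hs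
      rw [hu2] at h1
      have h2 : exp (1 / 2 * |s|) ≤ 3 := by
        have : exp (1 / 2 * |s|) ≤ exp 1 := exp_le_exp.2 (by linarith only [hs])
        have := exp_one_lt_d9
        linarith
      linarith only [hη, e2, b0, h1, h2]
    · have h1 := i3e hs0 hs
      rw [hu2] at h1
      have h2 : exp (-1 / 2 * |s|) ≤ 1 := by
        rw [exp_le_one_iff]; linarith only [hs0]
      linarith only [hη, e2, b0, h1, h2]
  rcases le_total 0 s with h0 | h0
  · refine main (1 / 2) (Or.inl rfl) ?_ ?_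
    · rw [abs_of_nonneg h0]; congr 1; ring
    · rw [abs_of_nonneg h0]; ring
  · refine main (-1 / 2) (Or.inr rfl) ?_ ?_
    · rw [abs_of_nonpos h0]; congr 1; ring
    · rw [abs_of_nonpos h0]; ring

/-! ### the outer part of the path -/

theorem exp_neg_one_le : exp (-1) ≤ 36790 / 100000 := by
  rw [exp_neg, inv_le_comm₀ (exp_pos _) (by norm_num)]
  have := exp_one_gt_d9
  norm_num at this ⊢
  linarith only [this]

theorem cos_sub_le {w η : ℝ} (h0 : w ≤ η) (h1 : -η ≤ w) (h2 : η ≤ π / 3) :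
    cos w - cos η ≤ 867 / 1000 * (η - w) := by
  have e : cos w - cos η = 2 * sin ((η + w) / 2) * sin ((η - w) / 2) := by
    rw [cos_sub_cos]
    have e1 : (w - η) / 2 = -((η - w) / 2) := by ring
    rw [e1, sin_neg, add_comm w η]; ring
  have h3 : sin ((η - w) / 2) ≤ (η - w) / 2 := sin_le (by linarith only [h0])
  have h4 : 0 ≤ sin ((η - w) / 2) := sin_nonneg_of_nonneg_of_le_pi (by linarith only [h0]) (by linarith only [h0, h1, h2])
  have h5 : sin ((η + w) / 2) ≤ 867 / 1000 := by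
    have : sin ((η + w) / 2) ≤ sin (π / 3) :=
      sin_le_sin_of_le_of_le_pi_div_two (by linarith only [h0, h1, h2]) (by linarith only [pi_pos]) (by linarith only [h0, h2])
    rw [sin_pi_div_three] at this
    linarith only [this, sqrt3_le]
  rw [e]
  nlinarith only [h3, h4, h5]

/-- `s ≥ 2`, `N = 3`, `η ≤ 60°`. -/
theorem out_pos3 {ρ η θ s : ℝ} (hρ0 : 0 ≤ ρ) (hρ : ρ ≤ 17286 / 10000)
    (hη0 : 0 ≤ η) (hη : η ≤ π / 3) (hτ : 2 * π / 3 + η ≤ |θ|) (hτ1 : |θ| ≤ π) (hs : 2 ≤ s) :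
    ρ * (exp 1 * cos (s + θ) - 2 + 5 / 4 - cos η) ≤ 39 / 40 * s := by
  have hpi := pi_gt_d4
  have hpi2 := pi_lt_d4
  have h1 := exp_one_lt_d9
  have hE := exp_pos 1
  have hC : 1 / 2 ≤ cos η := by
    rw [← cos_pi_div_three]
    exact cos_le_cos_of_nonneg_of_le_pi hη0 (by linarith only [hpi]) hη
  rcases le_total s (262 / 100) with h26 | h26
  · have c1 := cos_add_le (s := s) (θ := θ) (by rw [abs_of_nonneg (by linarith only [hs])]; linarith only [hpi, h26]) hτ1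
    rw [abs_of_nonneg (by linarith : (0:ℝ) ≤ s)] at c1
    -- `cos (|θ| - s) - cos η ≤ (s - 2π/3)⁺`
    set v := s - 2 * π / 3 with hv
    have c2 : cos (|θ| - s) - cos η ≤ 867 / 1000 * max v 0 := by
      have hm := le_max_right v 0
      rcases le_total η (|θ| - s) with h3 | h3
      · have : cos (|θ| - s) ≤ cos η := cos_le_cos_of_nonneg_of_le_pi hη0 (by linarith only [hτ1, hs]) h3
        linarith only [hm, this]
      · rcases le_total (-η) (|θ| - s) with h4 | h4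
        · refine (cos_sub_le h3 h4 hη).trans ?_
          have := le_max_left v 0
          linarith only [hτ, hv, this]
        · have : cos (|θ| - s) ≤ cos η := by
            rw [← cos_neg (|θ| - s)]
            exact cos_le_cos_of_nonneg_of_le_pi hη0 (by linarith only [hη0, hτ, hpi, h26]) (by linarith only [h4])
          linarith only [hm, this]
    have c3 : exp 1 * cos (s + θ) - cos η ≤ exp 1 - 1 + 867 / 1000 * max v 0 := by
      have k1 : exp 1 * cos (s + θ) ≤ exp 1 * cos (|θ| - s) := mul_le_mul_of_nonneg_left c1 hE.le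
      have k2 : (exp 1 - 1) * cos (|θ| - s) ≤ (exp 1 - 1) * 1 :=
        mul_le_mul_of_nonneg_left (cos_le_one _) (by linarith only [add_one_le_exp (1:ℝ)])
      linarith only [c2, k1, k2]
    have hm0 := le_max_right v 0
    have h3 : ρ * (exp 1 * cos (s + θ) - 2 + 5 / 4 - cos η) ≤ ρ * (96829 / 100000 + 867 / 1000 * max v 0) :=
      mul_le_mul_of_nonneg_left (by linarith only [h1, c3]) hρ0
    have h4 : ρ * (96829 / 100000 + 867 / 1000 * max v 0) ≤
        17286 / 10000 * (96829 / 100000 + 867 / 1000 * max v 0) :=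
      mul_le_mul_of_nonneg_right hρ (by linarith only [hm0])
    refine (h3.trans h4).trans ?_
    rcases max_cases v 0 with ⟨e, _⟩ | ⟨e, _⟩ <;> rw [e]
    · linarith only [hpi, h26, hv]
    · linarith only [hs]
  · have h2 : exp 1 * cos (s + θ) ≤ exp 1 * 1 :=
      mul_le_mul_of_nonneg_left (cos_le_one _) (exp_pos _).le
    have h3 : ρ * (exp 1 * cos (s + θ) - 2 + 5 / 4 - cos η) ≤ ρ * (196829 / 100000 - 1 / 2) :=
      mul_le_mul_of_nonneg_left (by linarith only [h1, hC, h2]) hρ0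
    have h4 : ρ * (196829 / 100000 - 1 / 2 : ℝ) ≤ 17286 / 10000 * (196829 / 100000 - 1 / 2) :=
      mul_le_mul_of_nonneg_right hρ (by norm_num)
    linarith only [h26, h3, h4]

/-- `s ≤ -2`, `N = 3`, `|θ| ≥ π - 9/100`. -/
theorem out_neg3' {ρ η θ s : ℝ} (hρ0 : 0 ≤ ρ) (hρ : ρ ≤ 17286 / 10000)
    (hη : 4225 / 10000 ≤ cos η) (hτ : π - 9 / 100 ≤ |θ|) (hτ1 : |θ| ≤ π) (hs : s ≤ -2) :
    ρ * (exp (-1) * cos (s + θ) + 5 / 4 - cos η) ≤ -(39 / 40) * s := by
  have hpi := pi_gt_d4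
  have hpi2 := pi_lt_d4
  have h1 := exp_neg_one_le
  have hE := exp_pos (-1)
  rcases le_total s (-213 / 100) with h26 | h26
  · have h2 : exp (-1) * cos (s + θ) ≤ exp (-1) * 1 :=
      mul_le_mul_of_nonneg_left (cos_le_one _) hE.le
    have h3 : ρ * (exp (-1) * cos (s + θ) + 5 / 4 - cos η) ≤ ρ * (1196 / 1000) :=
      mul_le_mul_of_nonneg_left (by linarith only [hη, h1, h2]) hρ0
    have h4 : ρ * (1196 / 1000 : ℝ) ≤ 17286 / 10000 * (1196 / 1000) :=
      mul_le_mul_of_nonneg_right hρ (by norm_num)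
    linarith only [h26, h3, h4]
  · have c1 := cos_add_le (s := s) (θ := θ) (by rw [abs_of_nonpos (by linarith only [hs])]; linarith only [hpi, h26]) hτ1
    rw [abs_of_nonpos (by linarith : s ≤ 0)] at c1
    have c2 : cos (|θ| - -s) ≤ cos (π / 4) :=
      cos_le_cos_of_nonneg_of_le_pi (by linarith only [hpi]) (by linarith only [hτ1, hs]) (by linarith only [hτ, hpi, h26])
    rw [cos_pi_div_four] at c2
    have c3 := sqrt2_le
    have h2 : exp (-1) * cos (s + θ) ≤ 36790 / 100000 * (70711 / 100000) := by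
      calc exp (-1) * cos (s + θ) ≤ exp (-1) * (70711 / 100000) :=
            mul_le_mul_of_nonneg_left (by linarith only [c1, c2, c3]) hE.le
        _ ≤ _ := mul_le_mul_of_nonneg_right h1 (by norm_num)
    have h3 : ρ * (exp (-1) * cos (s + θ) + 5 / 4 - cos η) ≤ ρ * (109 / 100) :=
      mul_le_mul_of_nonneg_left (by linarith only [hη, h2]) hρ0
    have h4 : ρ * (109 / 100 : ℝ) ≤ 17286 / 10000 * (109 / 100) :=
      mul_le_mul_of_nonneg_right hρ (by norm_num)
    linarith only [hs, h3, h4]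

/-- `s ≥ 2`, `N = 3`, `|θ| ≥ π - 9/100`. -/
theorem out_pos3' {ρ η θ s : ℝ} (hρ0 : 0 ≤ ρ) (hρ : ρ ≤ 17286 / 10000)
    (hη : 4225 / 10000 ≤ cos η) (hτ : π - 9 / 100 ≤ |θ|) (hτ1 : |θ| ≤ π) (hs : 2 ≤ s) :
    ρ * (exp 1 * cos (s + θ) - 2 + 5 / 4 - cos η) ≤ 39 / 40 * s := by
  have hpi := pi_gt_d4
  have hpi2 := pi_lt_d4
  have h1 := exp_one_lt_d9
  have hE := exp_pos 1
  -- from a bound of the cosine
  have fin : ∀ C : ℝ, 0 ≤ C → cos (s + θ) ≤ C → 17286 / 10000 * (27183 / 10000 * C - 1172 / 1000) ≤ 39 / 40 * s →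
      ρ * (exp 1 * cos (s + θ) - 2 + 5 / 4 - cos η) ≤ 39 / 40 * s := by
    intro C hC0 hC h
    have h2 : exp 1 * cos (s + θ) ≤ 27183 / 10000 * C := by
      calc exp 1 * cos (s + θ) ≤ exp 1 * C := mul_le_mul_of_nonneg_left hC hE.le
        _ ≤ _ := mul_le_mul_of_nonneg_right (by linarith only [h1]) hC0
    have h3 : ρ * (exp 1 * cos (s + θ) - 2 + 5 / 4 - cos η) ≤ ρ * (27183 / 10000 * C - 1172 / 1000) :=
      mul_le_mul_of_nonneg_left (by linarith only [hη, h2]) hρ0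
    exact h3.trans (scale hρ0 hρ (by linarith only [hs]) h)
  rcases le_total (275 / 100) s with h27 | h27
  · exact fin 1 zero_le_one (cos_le_one _) (by linarith only [h27])
  have c1 := cos_add_le (s := s) (θ := θ) (by rw [abs_of_nonneg (by linarith only [hs])]; linarith only [hpi, h27]) hτ1
  rw [abs_of_nonneg (by linarith : (0:ℝ) ≤ s)] at c1
  rcases le_total (255 / 100) s with h25 | h25
  · have c2 : cos (|θ| - s) ≤ cos (301 / 1000) :=
      cos_le_cos_of_nonneg_of_le_pi (by norm_num) (by linarith only [hτ1, hs]) (by linarith only [hτ, hpi, h27])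
    have k3 := Real.cos_bound (x := 301 / 1000) (by norm_num [abs_of_pos])
    have k4 := (abs_le.1 k3).2
    refine fin (9552 / 10000) (by norm_num) ?_ (by linarith only [h25])
    norm_num [abs_of_pos] at k4
    linarith only [c1, c2, k4]
  rcases le_total (11 / 5) s with h22 | h22
  · have c2 : cos (|θ| - s) ≤ cos (501 / 1000) :=
      cos_le_cos_of_nonneg_of_le_pi (by norm_num) (by linarith only [hτ1, hs]) (by linarith only [hτ, hpi, h25])
    have k3 := Real.cos_bound (x := 501 / 1000) (by norm_num [abs_of_pos])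
    have k4 := (abs_le.1 k3).2
    refine fin (8778 / 10000) (by norm_num) ?_ (by linarith only [h22])
    norm_num [abs_of_pos] at k4
    linarith only [c1, c2, k4]
  · have c2 : cos (|θ| - s) ≤ cos (π / 4) :=
      cos_le_cos_of_nonneg_of_le_pi (by linarith only [hpi]) (by linarith only [hτ1, hs]) (by linarith only [hτ, hpi, h22])
    rw [cos_pi_div_four] at c2
    have c3 := sqrt2_le
    exact fin (70711 / 100000) (by norm_num) (by linarith only [c1, c2, c3]) (by linarith only [hs])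

/-- small `ρ`, `N = 3` -/
theorem in3s {ρ θ s : ℝ} (hρ0 : 0 ≤ ρ) (hρ : ρ ≤ 3 / 4) (hτ : 2 * π / 3 ≤ |θ|) (hτ1 : |θ| ≤ π)
    (hs : |s| ≤ 2) : ρ * (exp (s / 2) * cos (s + θ) - s / 2 - 1 / 5) ≤ 19 / 40 * s ^ (2 : ℕ) := by
  have hpi := pi_gt_d2
  have hpi2 := pi_lt_d4
  refine scale hρ0 hρ (by (clear * -; positivity)) ?_
  have hs0 := abs_nonneg s
  have hu2 : |s| ^ (2 : ℕ) = s ^ (2 : ℕ) := sq_abs s
  have c1 := cos_add_le (s := s) (θ := θ) (by linarith only [hs, hpi]) hτ1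
  have c2 : cos (|θ| - |s|) ≤ cos (2 * π / 3 - |s|) :=
    cos_le_cos_of_nonneg_of_le_pi (by linarith only [hs, hpi]) (by linarith only [hτ1, hs0]) (by linarith only [hτ])
  have hsu : 0 ≤ sin |s| := sin_nonneg_of_nonneg_of_le_pi hs0 (by linarith only [hs, hpi])
  have c3 : cos (2 * π / 3 - |s|) ≤ -1 / 2 * cos |s| + 86603 / 100000 * sin |s| := by
    rw [cos_sub, cos_23, sin_23]
    have h5 := mul_le_mul_of_nonneg_right sqrt3_le hsu
    linarith only [h5]
  have main : ∀ (σ : ℝ), σ = 1 / 2 ∨ σ = -1 / 2 → exp (s / 2) = exp (σ * |s|) →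
      -s / 2 = -(σ * |s|) →
      3 / 4 * (exp (s / 2) * cos (s + θ) - s / 2 - 1 / 5) ≤ 19 / 40 * s ^ (2 : ℕ) := by
    intro σ hσ e1 e2
    have hp : 0 < exp (σ * |s|) := exp_pos _
    have b0 : exp (s / 2) * cos (s + θ) ≤ exp (σ * |s|) *
        (-1 / 2 * cos |s| + 86603 / 100000 * sin |s|) := by
      rw [e1]
      exact mul_le_mul_of_nonneg_left ((c1.trans c2).trans c3) hp.le
    rcases hσ with rfl | rfl
    · have h1 := i3t hs0 hs
      rw [hu2] at h1
      linarith only [e2, b0, h1]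
    · have h1 := i3s hs0 hs
      rw [hu2] at h1
      linarith only [e2, b0, h1]
  rcases le_total 0 s with h0 | h0
  · refine main (1 / 2) (Or.inl rfl) ?_ ?_
    · rw [abs_of_nonneg h0]; congr 1; ring
    · rw [abs_of_nonneg h0]; ring
  · refine main (-1 / 2) (Or.inr rfl) ?_ ?_
    · rw [abs_of_nonpos h0]; congr 1; ring
    · rw [abs_of_nonpos h0]; ring

/-- The cases for the far waves; `l` is the exponent in `|E| ≤ C e^(r l)`. -/
inductive FarOk (ρ θ : ℝ) : ℝ → Prop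
  | s3 (h1 : ρ ≤ 3 / 4) (h2 : 2 * π / 3 ≤ |θ|) : FarOk ρ θ (1 / 5)
  | b3 {η : ℝ} (h1 : ρ ≤ 17286 / 10000) (h2 : 0 ≤ η) (h3 : η ≤ π / 3) (h4 : 2 * π / 3 + η ≤ |θ|) :
      FarOk ρ θ (cos η - 1 / 4)
  | c3 {η : ℝ} (h1 : ρ ≤ 17286 / 10000) (h2 : 4225 / 10000 ≤ cos η) (h3 : π - 9 / 100 ≤ |θ|) :
      FarOk ρ θ (cos η - 1 / 4)
  | b4 {η : ℝ} (h1 : ρ ≤ 1115 / 1000) (h2 : 0 ≤ η) (h3 : η ≤ π / 4) (h4 : π / 2 + η ≤ |θ|) :
      FarOk ρ θ (cos η - 31 / 100)
  | b5 {η : ℝ} (h1 : ρ ≤ 66 / 100) (h2 : 0 ≤ η) (h3 : η ≤ π / 5) (h4 : 2 * π / 5 + η ≤ |θ|) :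
      FarOk ρ θ (cos η - 28 / 100)

theorem far_in {ρ l θ s : ℝ} (hρ0 : 0 ≤ ρ) (h : FarOk ρ θ l) (hτ1 : |θ| ≤ π) (hs : |s| ≤ 2) :
    ρ * (exp (s / 2) * cos (s + θ) - s / 2 - l) ≤ 19 / 40 * s ^ (2 : ℕ) := by
  cases h with
  | s3 h1 h2 => exact in3s hρ0 h1 h2 hτ1 hs
  | b3 h1 h2 h3 h4 => have := in3 hρ0 h1 h2 h3 h4 hτ1 hs; linarith only [this]
  | c3 h1 h2 h3 => have := in3' hρ0 h1 h2 h3 hτ1 hs; linarith only [this]
  | b4 h1 h2 h3 h4 => have := in4 hρ0 h1 h2 h3 h4 hτ1 hs; linarith only [this]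
  | b5 h1 h2 h3 h4 => have := in5 hρ0 h1 h2 h3 h4 hτ1 hs; linarith only [this]

/-- `s ≤ -2`, crude -/
theorem out_neg_l {ρ ρN C l θ s : ℝ} (hρ0 : 0 ≤ ρ) (hρ : ρ ≤ ρN) (hC : C ≤ l)
    (hN : ρN * (136790 / 100000 - C) ≤ 195 / 100) (hC1 : C ≤ 1) (hs : s ≤ -2) :
    ρ * (exp (-1) * cos (s + θ) + 1 - l) ≤ -(39 / 40) * s := by
  have h1 := exp_neg_one_le
  have h2 : exp (-1) * cos (s + θ) ≤ exp (-1) * 1 :=
    mul_le_mul_of_nonneg_left (cos_le_one _) (exp_pos _).le
  have h3 : ρ * (exp (-1) * cos (s + θ) + 1 - l) ≤ ρ * (136790 / 100000 - C) :=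
    mul_le_mul_of_nonneg_left (by linarith only [hC, h1, h2]) hρ0
  have h4 : ρ * (136790 / 100000 - C) ≤ ρN * (136790 / 100000 - C) :=
    mul_le_mul_of_nonneg_right hρ (by linarith only [hC1])
  linarith only [hN, hs, h3, h4]

/-- `s ≥ 2`, crude -/
theorem out_pos_l {ρ ρN C l θ s : ℝ} (hρ0 : 0 ≤ ρ) (hρ : ρ ≤ ρN) (hC : C ≤ l)
    (hN : ρN * (171829 / 100000 - C) ≤ 195 / 100) (hC1 : C ≤ 1) (hs : 2 ≤ s) :
    ρ * (exp 1 * cos (s + θ) - 1 - l) ≤ 39 / 40 * s := by
  have h1 := exp_one_lt_d9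
  have h2 : exp 1 * cos (s + θ) ≤ exp 1 * 1 :=
    mul_le_mul_of_nonneg_left (cos_le_one _) (exp_pos _).le
  have h3 : ρ * (exp 1 * cos (s + θ) - 1 - l) ≤ ρ * (171829 / 100000 - C) :=
    mul_le_mul_of_nonneg_left (by linarith only [hC, h1, h2]) hρ0
  have h4 : ρ * (171829 / 100000 - C) ≤ ρN * (171829 / 100000 - C) :=
    mul_le_mul_of_nonneg_right hρ (by linarith only [hC1])
  linarith only [hN, hs, h3, h4]

theorem cos_ge_quarter {η : ℝ} (h2 : 0 ≤ η) (h3 : η ≤ π / 4) : 7071 / 10000 ≤ cos η := by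
  have := cos_le_cos_of_nonneg_of_le_pi h2 (by linarith only [pi_pos]) h3
  rw [cos_pi_div_four] at this
  linarith only [this, sqrt2_ge]

theorem cos_ge_fifth {η : ℝ} (h2 : 0 ≤ η) (h3 : η ≤ π / 5) : 80901 / 100000 ≤ cos η := by
  have := cos_le_cos_of_nonneg_of_le_pi h2 (by linarith only [pi_pos]) h3
  linarith only [this, cos_36.1]

theorem far_neg {ρ l θ s : ℝ} (hρ0 : 0 ≤ ρ) (h : FarOk ρ θ l) (hτ1 : |θ| ≤ π) (hs : s ≤ -2) :
    ρ * (exp (-1) * cos (s + θ) + 1 - l) ≤ -(39 / 40) * s := by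
  have hpi := pi_gt_three
  cases h with
  | s3 h1 h2 => exact out_neg_l (C := 1 / 5) hρ0 h1 le_rfl (by norm_num) (by norm_num) hs
  | b3 h1 h2 h3 h4 =>
    have hc := cos_le_cos_of_nonneg_of_le_pi h2 (by linarith only [h2, h3]) h3
    rw [cos_pi_div_three] at hc
    exact out_neg_l (C := 1 / 4) hρ0 h1 (by linarith only [hc]) (by norm_num) (by norm_num) hs
  | c3 h1 h2 h3 => have := out_neg3' hρ0 h1 h2 h3 hτ1 hs; linarith only [this]
  | b4 h1 h2 h3 h4 =>
    have hc := cos_ge_quarter h2 h3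
    exact out_neg_l (C := 39 / 100) hρ0 h1 (by linarith only [hc]) (by norm_num) (by norm_num) hs
  | b5 h1 h2 h3 h4 =>
    have hc := cos_ge_fifth h2 h3
    exact out_neg_l (C := 39 / 100) hρ0 h1 (by linarith only [hc]) (by norm_num) (by norm_num) hs

theorem far_pos {ρ l θ s : ℝ} (hρ0 : 0 ≤ ρ) (h : FarOk ρ θ l) (hτ1 : |θ| ≤ π) (hs : 2 ≤ s) :
    ρ * (exp 1 * cos (s + θ) - 1 - l) ≤ 39 / 40 * s := by
  have hpi := pi_gt_three
  cases h with
  | s3 h1 h2 => exact out_pos_l (C := 1 / 5) hρ0 h1 le_rfl (by norm_num) (by norm_num) hs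
  | b3 h1 h2 h3 h4 => have := out_pos3 hρ0 h1 h2 h3 h4 hτ1 hs; linarith only [this]
  | c3 h1 h2 h3 => have := out_pos3' hρ0 h1 h2 h3 hτ1 hs; linarith only [this]
  | b4 h1 h2 h3 h4 =>
    have hc := cos_ge_quarter h2 h3
    exact out_pos_l (C := 39 / 100) hρ0 h1 (by linarith only [hc]) (by norm_num) (by norm_num) hs
  | b5 h1 h2 h3 h4 =>
    have hc := cos_ge_fifth h2 h3
    exact out_pos_l (C := 39 / 100) hρ0 h1 (by linarith only [hc]) (by norm_num) (by norm_num) hs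

end SokamF1T

end
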