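import Pool.Agent.Lib_MP_af4de1_zy.Z24
import Pool.Agent.Lib_MP_af4de1_zy.Z169

/-! ### Lib_MP_af4de1_v3.OutRH -/

section
namespace SokamF1
end SokamF1
namespace SokamF1B
end SokamF1B
namespace SokamF1G
end SokamF1G
namespace SokamF1M
end SokamF1M
namespace SokamF1S
end SokamF1S
namespace SokamPB
end SokamPB
namespace SokamPG
end SokamPG
namespace SokamU
end SokamU
/-!
# `N = 2`, outer waves on the right: two height lemmas (helper49 for helper65)
-/

set_option autoImplicit false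
set_option maxHeartbeats 4000000

open Complex MeasureTheory Set SokamU SokamPG SokamF1 SokamF1S SokamF1M SokamF1G SokamF1B SokamPB

namespace SokamV3

private def qq (a : ℤ) (b : ℕ) : E := .dv (.c a) b

private def sE4 : E :=
  .add (.sub (.add (.sub (.c 1) (.mul .X .Y)) (.dv (.pow (.mul .X .Y) 2) 2))
    (.dv (.pow (.mul .X .Y) 3) 6)) (.dv (.pow (.mul .X .Y) 4) 24)

private def pE (h : ℤ) (z : ℤ) : E :=
  .sub (.sub (.add (.mul (.pow .X 2) (.mul (.sub .Y (qq 286 100)) (.sub .Y (qq z 10000))))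
    (.mul (.sub (.c 1) .X) (.sub (.c 1) (.mul .X .Y))))
    (.mul sE4 (.add (.mul (qq 6945 10000) (.sub (.c 1) .X)) (.mul (qq 286 100) (.pow .X 2)))))
    (.mul (qq h 100) (.sub (.c 1) (.mul (qq 273 100) .X)))

private noncomputable def pR__v3OutRH (h z c s : ℝ) : ℝ :=
  c ^ (2 : ℕ) * ((s - 286 / 100) * (s - z / 10000)) + (1 - c) * (1 - c * s) -
    (1 - c * s + (c * s) ^ (2 : ℕ) / 2 - (c * s) ^ (3 : ℕ) / 6 + (c * s) ^ (4 : ℕ) / 24) *
      (6945 / 10000 * (1 - c) + 286 / 100 * c ^ (2 : ℕ)) - h / 100 * (1 - 273 / 100 * c)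

private theorem pE_eval (h z : ℤ) (c s : ℝ) : (pE h z).eval c s = pR__v3OutRH h z c s := by
  unfold pR__v3OutRH pE sE4 qq
  simp only [E.eval]
  push_cast
  rfl

private theorem run1 : runQ (pE 9 12567).toQ 6 0 1688 10000 475 549 100 = true := by
  decide +kernel

private theorem run2 : runQ (pE 15 10996).toQ 6 0 12801 100000 475 549 100 = true := by
  decide +kernel

private theorem pR1 {c s : ℝ} (h0 : 0 ≤ c) (h1 : c ≤ 1687 / 10000) (h2 : 19 / 4 ≤ s)
    (h3 : s ≤ 137 / 25) : 0 ≤ pR__v3OutRH 9 12567 c s := by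
  have := pE_eval 9 12567 c s
  push_cast at this
  rw [← this]
  refine (pE 9 12567).nonneg 6 (by norm_num) (by norm_num) run1 ?_ ?_ ?_ ?_ <;> push_cast <;>
    linarith

private theorem pR2 {c s : ℝ} (h0 : 0 ≤ c) (h1 : c ≤ 128 / 1000) (h2 : 19 / 4 ≤ s)
    (h3 : s ≤ 137 / 25) : 0 ≤ pR__v3OutRH 15 10996 c s := by
  have := pE_eval 15 10996 c s
  push_cast at this
  rw [← this]
  refine (pE 15 10996).nonneg 6 (by norm_num) (by norm_num) run2 ?_ ?_ ?_ ?_ <;> push_cast <;>
    linarith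

/-- from the polynomial to the height -/
private theorem of_pR {x n z c s h z1 : ℝ} (hc0 : 0 < c) (hc1 : c ≤ 1687 / 10000)
    (hxc : x * c = 1 - c) (hn0 : 0 ≤ n) (hn : n ≤ 286 / 100 * c) (hz : z ≤ z1 / 10000)
    (hz1 : z1 ≤ 20000) (h1 : 19 / 4 ≤ s) (h2 : s ≤ 137 / 25) (hp : 0 ≤ pR__v3OutRH h z1 c s) :
    h / 100 * (x - 173 / 100) ≤ Hs (-1) x n (c * s) s - (c * s - n) * z := by
  have hcos := tf_cosC (s := s) (by linarith only [h1]) h2
  have ha0 : 0 ≤ c * s := mul_nonneg hc0.le (by linarith only [h1])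
  have hE := t2c_exp_neg_le4 ha0
  have hE0 := Real.exp_pos (-(c * s))
  have hsin := Real.sin_le_one s
  have hsin' := Real.neg_one_le_sin s
  have key : 0 ≤ c * (Hs (-1) x n (c * s) s - (c * s - n) * z - h / 100 * (x - 173 / 100)) := by
    unfold Hs
    have e1 : (-1 : ℝ) * (c * s) = -(c * s) := by ring
    rw [e1]
    set Ex := Real.exp (-(c * s)) with hEx
    have e2 : c * ((c * s - n) * s + x * (1 + -(c * s)) - Ex * (x * Real.cos s - n * Real.sin s) -
        (c * s - n) * z - h / 100 * (x - 173 / 100)) =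
        c * ((c * s - n) * (s - z)) + (x * c) * (1 - c * s) -
          Ex * ((x * c) * Real.cos s - c * n * Real.sin s) -
          h / 100 * (x * c - 173 / 100 * c) := by ring
    rw [e2, hxc]
    have h3 : c ^ (2 : ℕ) * ((s - 286 / 100) * (s - z1 / 10000)) ≤ c * ((c * s - n) * (s - z)) := by
      have e3 : c ^ (2 : ℕ) * ((s - 286 / 100) * (s - z1 / 10000)) =
          c * ((c * s - 286 / 100 * c) * (s - z1 / 10000)) := by ring
      rw [e3]
      refine mul_le_mul_of_nonneg_left ?_ hc0.le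
      refine mul_le_mul (by linarith only [hn]) (by linarith only [hz]) (by linarith only [hz1, h1]) ?_
      have : 0 ≤ c * (s - 286 / 100) := mul_nonneg hc0.le (by linarith only [h1])
      linarith only [hn, this]
    have h4 : Ex * ((1 - c) * Real.cos s - c * n * Real.sin s) ≤
        (1 - c * s + (c * s) ^ (2 : ℕ) / 2 - (c * s) ^ (3 : ℕ) / 6 + (c * s) ^ (4 : ℕ) / 24) *
        (6945 / 10000 * (1 - c) + 286 / 100 * c ^ (2 : ℕ)) := by
      have h5 : (1 - c) * Real.cos s - c * n * Real.sin s ≤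
          6945 / 10000 * (1 - c) + 286 / 100 * c ^ (2 : ℕ) := by
        have h6 : (1 - c) * Real.cos s ≤ (1 - c) * (6945 / 10000) :=
          mul_le_mul_of_nonneg_left hcos (by linarith only [hc1])
        have h7 : -(c * n * Real.sin s) ≤ c * n := by
          have : 0 ≤ c * n * (1 + Real.sin s) := mul_nonneg (mul_nonneg hc0.le hn0) (by linarith only [hsin'])
          linarith only [this]
        have h8 : c * n ≤ c * (286 / 100 * c) := mul_le_mul_of_nonneg_left hn hc0.le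
        have e4 : c * (286 / 100 * c) = 286 / 100 * c ^ (2 : ℕ) := by ring
        linarith only [h6, h7, h8]
      have h9 : 0 ≤ 6945 / 10000 * (1 - c) + 286 / 100 * c ^ (2 : ℕ) := by
        have : 0 ≤ 1 - c := by linarith only [hc1]
        positivity
      calc Ex * ((1 - c) * Real.cos s - c * n * Real.sin s)
          ≤ Ex * (6945 / 10000 * (1 - c) + 286 / 100 * c ^ (2 : ℕ)) :=
            mul_le_mul_of_nonneg_left h5 hE0.le
        _ ≤ _ := mul_le_mul_of_nonneg_right hE h9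
    have h10 : h / 100 * (1 - c - 173 / 100 * c) = h / 100 * (1 - 273 / 100 * c) := by ring
    unfold pR__v3OutRH at hp
    rw [h10]
    linarith only [hp, h3, h4]
  have := nonneg_of_mul_nonneg_right key hc0
  linarith only [this]

theorem outR_h1b {x n z c s : ℝ} (hc0 : 0 < c) (hxc : x * c = 1 - c) (hn0 : 0 ≤ n)
    (hn : n ≤ 286 / 100 * c) (hz0 : 0 ≤ z) (h1 : 19 / 4 ≤ s) (h2 : s ≤ 137 / 25) :
    (c ≤ 1687 / 10000 → z ≤ 12567 / 10000 →
      9 / 100 * (x - 173 / 100) ≤ Hs (-1) x n (c * s) s - (c * s - n) * z) ∧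
    (c ≤ 128 / 1000 → z ≤ 10996 / 10000 →
      15 / 100 * (x - 173 / 100) ≤ Hs (-1) x n (c * s) s - (c * s - n) * z) := by
  refine ⟨fun hc hz => ?_, fun hc hz => ?_⟩
  · exact of_pR (h := 9) (z1 := 12567) hc0 hc hxc hn0 hn hz (by norm_num) h1 h2
      (pR1 hc0.le hc h1 h2)
  · exact of_pR (h := 15) (z1 := 10996) hc0 (by linarith only [hc]) hxc hn0 hn hz (by norm_num) h1 h2
      (pR2 hc0.le hc h1 h2)

private def aE : E := .mul (qq 137 25) .X

private def sE3 : E :=
  .add (.sub (.add (.sub (.c 1) aE) (.dv (.pow aE 2) 2)) (.dv (.pow aE 3) 6)) (.dv (.pow aE 4) 24)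

private def p3E : E :=
  .sub (.sub (.add (.mul (.pow .X 2) (.mul (qq 262 100) (qq 58263 10000)))
    (.mul (.sub (.c 1) .X) (.sub (.c 1) aE)))
    (.mul sE3 (.add (.mul (qq 6971 10000) (.sub (.c 1) .X)) (.mul (qq 286 100) (.pow .X 2)))))
    (.mul (qq 15 100) (.sub (.c 1) (.mul (qq 273 100) .X)))

private noncomputable def p3R (c : ℝ) : ℝ :=
  c ^ (2 : ℕ) * (262 / 100 * (58263 / 10000)) + (1 - c) * (1 - 137 / 25 * c) -
    (1 - 137 / 25 * c + (137 / 25 * c) ^ (2 : ℕ) / 2 - (137 / 25 * c) ^ (3 : ℕ) / 6 +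
      (137 / 25 * c) ^ (4 : ℕ) / 24) *
      (6971 / 10000 * (1 - c) + 286 / 100 * c ^ (2 : ℕ)) - 15 / 100 * (1 - 273 / 100 * c)

private theorem p3E_eval (c s : ℝ) : p3E.eval c s = p3R c := by
  unfold p3R p3E sE3 aE qq
  simp only [E.eval]
  push_cast
  rfl

private theorem run3 : runQ p3E.toQ 6 0 1688 10000 0 1 1 = true := by
  decide +kernel

private theorem p3R_nonneg {c : ℝ} (h0 : 0 ≤ c) (h1 : c ≤ 1687 / 10000) : 0 ≤ p3R c := by
  rw [← p3E_eval c 0]
  refine p3E.nonneg 6 (by norm_num) (by norm_num) run3 ?_ ?_ ?_ ?_ <;> push_cast <;>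
    linarith

theorem outR_h3 {x n z c φ : ℝ} (hc0 : 0 < c) (hxc : x * c = 1 - c) (hc1 : c ≤ 1687 / 10000)
    (hn0 : 0 ≤ n) (hn : n ≤ 286 / 100 * c) (hz0 : 0 ≤ z) (hz : z ≤ 12567 / 10000)
    (h1 : 4 / 5 ≤ φ) (h2 : φ ≤ 137 / 25) :
    15 / 100 * (x - 173 / 100) ≤
      Hs (-1) x n (137 / 25 * c) (2 * Real.pi + φ) - (137 / 25 * c - n) * z := by
  have hcos := tf_cosB h1 h2
  have hp := p3R_nonneg hc0.le hc1
  have ha0 : 0 ≤ 137 / 25 * c := by positivity
  have hE := t2c_exp_neg_le4 ha0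
  have hE0 := Real.exp_pos (-(137 / 25 * c))
  have hsin' := Real.neg_one_le_sin φ
  have hpi := Real.pi_gt_d4
  have key : 0 ≤ c * (Hs (-1) x n (137 / 25 * c) (2 * Real.pi + φ) - (137 / 25 * c - n) * z -
      15 / 100 * (x - 173 / 100)) := by
    unfold Hs
    have e1 : (-1 : ℝ) * (137 / 25 * c) = -(137 / 25 * c) := by ring
    have ec : Real.cos (2 * Real.pi + φ) = Real.cos φ := by rw [add_comm, Real.cos_add_two_pi]
    have es : Real.sin (2 * Real.pi + φ) = Real.sin φ := by rw [add_comm, Real.sin_add_two_pi]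
    rw [e1, ec, es]
    set Ex := Real.exp (-(137 / 25 * c)) with hEx
    have e2 : c * ((137 / 25 * c - n) * (2 * Real.pi + φ) + x * (1 + -(137 / 25 * c)) -
        Ex * (x * Real.cos φ - n * Real.sin φ) -
        (137 / 25 * c - n) * z - 15 / 100 * (x - 173 / 100)) =
        c * ((137 / 25 * c - n) * (2 * Real.pi + φ - z)) + (x * c) * (1 - 137 / 25 * c) -
          Ex * ((x * c) * Real.cos φ - c * n * Real.sin φ) -
          15 / 100 * (x * c - 173 / 100 * c) := by ring
    rw [e2, hxc]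
    have h3 : c ^ (2 : ℕ) * (262 / 100 * (58263 / 10000)) ≤
        c * ((137 / 25 * c - n) * (2 * Real.pi + φ - z)) := by
      have e3 : c ^ (2 : ℕ) * (262 / 100 * (58263 / 10000)) =
          c * ((262 / 100 * c) * (58263 / 10000)) := by ring
      rw [e3]
      refine mul_le_mul_of_nonneg_left ?_ hc0.le
      exact mul_le_mul (by linarith only [hn]) (by linarith only [hz, h1, hpi]) (by norm_num) (by linarith only [hn0, hn])
    have h4 : Ex * ((1 - c) * Real.cos φ - c * n * Real.sin φ) ≤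
        (1 - 137 / 25 * c + (137 / 25 * c) ^ (2 : ℕ) / 2 - (137 / 25 * c) ^ (3 : ℕ) / 6 +
          (137 / 25 * c) ^ (4 : ℕ) / 24) *
        (6971 / 10000 * (1 - c) + 286 / 100 * c ^ (2 : ℕ)) := by
      have h5 : (1 - c) * Real.cos φ - c * n * Real.sin φ ≤
          6971 / 10000 * (1 - c) + 286 / 100 * c ^ (2 : ℕ) := by
        have h6 : (1 - c) * Real.cos φ ≤ (1 - c) * (6971 / 10000) :=
          mul_le_mul_of_nonneg_left hcos (by linarith only [hc1])
        have h7 : -(c * n * Real.sin φ) ≤ c * n := by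
          have : 0 ≤ c * n * (1 + Real.sin φ) := mul_nonneg (mul_nonneg hc0.le hn0) (by linarith only [hsin'])
          linarith only [this]
        have h8 : c * n ≤ c * (286 / 100 * c) := mul_le_mul_of_nonneg_left hn hc0.le
        have e4 : c * (286 / 100 * c) = 286 / 100 * c ^ (2 : ℕ) := by ring
        linarith only [h6, h7, h8]
      have h9 : 0 ≤ 6971 / 10000 * (1 - c) + 286 / 100 * c ^ (2 : ℕ) := by
        have : 0 ≤ 1 - c := by linarith only [hc1]
        positivity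
      calc Ex * ((1 - c) * Real.cos φ - c * n * Real.sin φ)
          ≤ Ex * (6971 / 10000 * (1 - c) + 286 / 100 * c ^ (2 : ℕ)) :=
            mul_le_mul_of_nonneg_left h5 hE0.le
        _ ≤ _ := mul_le_mul_of_nonneg_right hE h9
    have h10 : 15 / 100 * (1 - c - 173 / 100 * c) = 15 / 100 * (1 - 273 / 100 * c) := by ring
    unfold p3R at hp
    rw [h10]
    linarith only [hp, h3, h4]
  have := nonneg_of_mul_nonneg_right key hc0
  linarith only [this]

end SokamV3

end
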