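import Pool.Agent.Lib_MP_af4de1_zy.Z63
import Pool.Agent.Lib_MP_af4de1_zy.Z155
import Pool.Agent.Lib_MP_af4de1_zy.Z169

/-! ### Lib_MP_af4de1_v3.T2Fact -/

section
namespace SokamF1
end SokamF1
namespace SokamF1B
end SokamF1B
namespace SokamF1G
end SokamF1G
namespace SokamF1M
end SokamF1M
namespace SokamF1S
end SokamF1S
namespace SokamPG
end SokamPG
namespace SokamU
end SokamU
/-!
# `N = 2`: `PTFact` (helper34)
-/

set_option autoImplicit false
set_option maxHeartbeats 4000000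

open Complex MeasureTheory Set SokamU SokamPG SokamF1 SokamF1S SokamF1M SokamF1G SokamF1B

namespace SokamV3

/-! ### facts of the saddle -/

theorem tf_eo {r δ η : ℝ} (h : Reg2 r δ) (hη : |η| ≤ eo2 r δ) : |η| ≤ 2105 / 1000 := by
  have hpi := tf_pi
  rcases eo2_cases h with ⟨_, _, he⟩ | ⟨_, _, he⟩ | ⟨_, _, he⟩ <;> rw [he] at hη <;> linarith

theorem tf_log {n : ℝ} (h0 : 0 ≤ n) (h1 : n ≤ 1 / 2) :
    0 ≤ 1 - Real.exp (-n) ∧ n - n ^ (2 : ℕ) / 2 ≤ 1 - Real.exp (-n) ∧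
      n ≤ (1 - Real.exp (-n)) + 69 / 100 * (1 - Real.exp (-n)) ^ (2 : ℕ) := by
  have h2 := t2c_exp_neg_le4 h0
  have h3 : n ^ (4 : ℕ) ≤ n ^ (3 : ℕ) := pow_le_pow_of_le_one h0 (by linarith only [h0, h1]) (by norm_num)
  have h4 : 0 ≤ n ^ (3 : ℕ) := by positivity
  have hv1 : n - n ^ (2 : ℕ) / 2 ≤ 1 - Real.exp (-n) := by linarith only [h2, h3, h4]
  have hv0 : 0 ≤ 1 - Real.exp (-n) := by nlinarith
  refine ⟨hv0, hv1, ?_⟩
  obtain ⟨S, hS⟩ : ∃ S, S = 1 + n + n ^ (2 : ℕ) / 2 + n ^ (3 : ℕ) / 6 + n ^ (4 : ℕ) / 24 := ⟨_, rfl⟩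
  have hSe : S ≤ Real.exp n := by
    have h5 := Real.sum_le_exp_of_nonneg h0 5
    simp only [Finset.sum_range_succ, Finset.sum_range_zero, Nat.factorial] at h5
    norm_num at h5
    rw [hS]
    linarith only [h5]
  have hS1 : 1 ≤ S := by rw [hS]; nlinarith [pow_nonneg h0 4, pow_nonneg h0 2]
  have hS0 : 0 < S := by linarith only [hS1]
  have he : Real.exp (-n) ≤ 1 / S := by
    rw [Real.exp_neg, ← one_div]
    exact one_div_le_one_div_of_le hS0 hSe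
  have hu0 : 0 ≤ 1 - 1 / S := by
    rw [sub_nonneg, div_le_one hS0]
    exact hS1
  have hu : 1 - 1 / S ≤ 1 - Real.exp (-n) := by linarith only [he]
  have h6 : n ≤ (1 - 1 / S) + 69 / 100 * (1 - 1 / S) ^ (2 : ℕ) := by
    have e : (1 - 1 / S) + 69 / 100 * (1 - 1 / S) ^ (2 : ℕ) - n =
        ((S - 1) * S + 69 / 100 * (S - 1) ^ (2 : ℕ) - n * S ^ (2 : ℕ)) / S ^ (2 : ℕ) := by
      field_simp
    have h7 : 0 ≤ (S - 1) * S + 69 / 100 * (S - 1) ^ (2 : ℕ) - n * S ^ (2 : ℕ) := by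
      have hn2 : 0 ≤ n ^ (2 : ℕ) := by positivity
      have k3 : n ^ (3 : ℕ) ≤ 1 / 2 * n ^ (2 : ℕ) := by
        have := mul_le_mul_of_nonneg_left h1 hn2
        linarith only [this]
      have k4 : n ^ (4 : ℕ) ≤ 1 / 4 * n ^ (2 : ℕ) := by
        have := mul_le_mul_of_nonneg_left h1 (pow_nonneg h0 3)
        linarith only [k3, this]
      have k5 : n ^ (5 : ℕ) ≤ 1 / 8 * n ^ (2 : ℕ) := by
        have := mul_le_mul_of_nonneg_left h1 (pow_nonneg h0 4)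
        linarith only [k4, this]
      have k6 : n ^ (6 : ℕ) ≤ 1 / 16 * n ^ (2 : ℕ) := by
        have := mul_le_mul_of_nonneg_left h1 (pow_nonneg h0 5)
        linarith only [k5, this]
      have k7 : n ^ (7 : ℕ) ≤ 1 / 32 * n ^ (2 : ℕ) := by
        have := mul_le_mul_of_nonneg_left h1 (pow_nonneg h0 6)
        linarith only [k6, this]
      have k8 : n ^ (8 : ℕ) ≤ 1 / 64 * n ^ (2 : ℕ) := by
        have := mul_le_mul_of_nonneg_left h1 (pow_nonneg h0 7)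
        linarith only [k7, this]
      have k9 : n ^ (9 : ℕ) ≤ 1 / 128 * n ^ (2 : ℕ) := by
        have := mul_le_mul_of_nonneg_left h1 (pow_nonneg h0 8)
        linarith only [k8, this]
      rw [hS]
      ring_nf
      linarith only [hn2, k3, k4, k5, k6, k7, k8, k9]
    have h8 : 0 ≤ (1 - 1 / S) + 69 / 100 * (1 - 1 / S) ^ (2 : ℕ) - n := by
      rw [e]
      positivity
    linarith only [h8]
  have h7 : (1 - 1 / S) ^ (2 : ℕ) ≤ (1 - Real.exp (-n)) ^ (2 : ℕ) := by gcongr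
  linarith only [hu, h6, h7]

/-- `y ≤ 0` -/
theorem tf_negfacts {ρ y : ℝ} (hD : Dom ρ y) (hρ : 16 / 5 ≤ ρ) (h0 : -(1 / 2) ≤ y) (h1 : y ≤ 0)
    (hE : -sE ρ y ≤ 2105 / 1000) :
    ρ ≤ sx ρ y ∧ sx ρ y ≤ ρ * Real.exp (-y) ∧ ρ * (Real.exp (-y) - 1) ≤ 2105 / 1000 ∧
      sx ρ y * (1 - Real.exp (- -y)) ≤ 2105 / 1000 ∧
      ρ ≤ (sx ρ y + (-y) ^ (2 : ℕ) / (2 * sx ρ y)) * (1 - (1 - Real.exp (- -y))) := by
  have hx := SokamF1T.sx_ge (ρ := ρ) (y := y) (by linarith only [hρ]) (by linarith only [h0]) h1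
  obtain ⟨h2, h3⟩ := neg_facts hD (by linarith only [h0]) h1
  have hx0 : 0 < sx ρ y := by linarith only [hρ, hx]
  have hee : Real.exp (-y) * Real.exp y = 1 := by rw [← Real.exp_add]; simp
  have hey := Real.exp_pos y
  have hey1 : Real.exp y ≤ 1 := by
    rw [Real.exp_le_one_iff]
    exact h1
  rw [neg_neg]
  refine ⟨hx, h3, by linarith only [hE, h2], ?_, ?_⟩
  · have h4 : sx ρ y * (1 - Real.exp y) ≤ ρ * Real.exp (-y) * (1 - Real.exp y) := by
      have : 0 ≤ 1 - Real.exp y := by linarith only [hey1]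
      gcongr
    have h5 : ρ * Real.exp (-y) * (1 - Real.exp y) = ρ * (Real.exp (-y) - 1) := by
      linear_combination (-ρ) * hee
    linarith only [hE, h2, h4, h5]
  · have h4 : ρ * Real.exp (-y) ≤ sx ρ y + (-y) ^ (2 : ℕ) / (2 * sx ρ y) := by
      refine abs_le_of_sq_le_sq' ?_ (by positivity) |>.2
      have h5 := sx_sq hD
      have e : (sx ρ y + (-y) ^ (2 : ℕ) / (2 * sx ρ y)) ^ (2 : ℕ) = sx ρ y ^ (2 : ℕ) + y ^ (2 : ℕ) +
          (y ^ (2 : ℕ) / (2 * sx ρ y)) ^ (2 : ℕ) := by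
        field_simp
        ring
      rw [e]
      have : 0 ≤ (y ^ (2 : ℕ) / (2 * sx ρ y)) ^ (2 : ℕ) := by positivity
      linarith only [h5, this]
    have h5 := mul_le_mul_of_nonneg_right h4 hey.le
    have h6 : ρ * Real.exp (-y) * Real.exp y = ρ := by
      linear_combination ρ * hee
    have e : 1 - (1 - Real.exp y) = Real.exp y := by ring
    rw [e]
    linarith only [h5, h6]

/-! ### `lam` -/

theorem tf_lam_num1 {ρ : ℝ} (h1 : 16 / 5 ≤ ρ) (h2 : ρ ≤ 19 / 2) :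
    12 / 10 * ρ ^ (4 : ℕ) * (ρ + 3105 / 1000) ≤
      499 / 10 * (137 / 25 * ρ ^ (3 : ℕ) - (ρ + 3105 / 1000) * (2105 / 1000 * ρ ^ (2 : ℕ) -
        (2105 / 1000) ^ (2 : ℕ) / 2 * ρ + (2105 / 1000) ^ (3 : ℕ) / 3)) := by
  obtain ⟨z, hz⟩ : ∃ z, z = ρ - 16 / 5 := ⟨_, rfl⟩
  have hz0 : 0 ≤ z := by linarith only [h1, hz]
  have hz1 : z ≤ 63 / 10 := by linarith only [h2, hz]
  obtain rfl : ρ = 16 / 5 + z := by linarith only [hz]
  have hz2 : 0 ≤ z ^ (2 : ℕ) := by positivity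
  have k3 : z ^ (3 : ℕ) ≤ 63 / 10 * z ^ (2 : ℕ) := by
    have := mul_le_mul_of_nonneg_left hz1 hz2
    linarith only [this]
  have k4 : z ^ (4 : ℕ) ≤ (63 / 10) ^ (2 : ℕ) * z ^ (2 : ℕ) := by
    have := mul_le_mul_of_nonneg_left hz1 (pow_nonneg hz0 3)
    linarith only [k3, this]
  have k5 : z ^ (5 : ℕ) ≤ (63 / 10) ^ (3 : ℕ) * z ^ (2 : ℕ) := by
    have := mul_le_mul_of_nonneg_left hz1 (pow_nonneg hz0 4)
    linarith only [k4, this]
  have k1 : 0 ≤ z * (63 / 10 - z) := mul_nonneg hz0 (by linarith only [h2])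
  rw [← sub_nonneg]
  ring_nf
  ring_nf at k1 k4 k5
  linarith only [hz2, k3, k1, k4, k5]

theorem tf_lam_num2 {ρ : ℝ} (h1 : 19 / 2 ≤ ρ) :
    12 / 10 * ρ ^ (4 : ℕ) * (ρ + 3105 / 1000) ≤
      5471 / 10000 * (ρ ^ (2 : ℕ) + 1) * (137 / 25 * ρ ^ (3 : ℕ) - (ρ + 3105 / 1000) * (2105 / 1000 * ρ ^ (2 : ℕ) -
        (2105 / 1000) ^ (2 : ℕ) / 2 * ρ + (2105 / 1000) ^ (3 : ℕ) / 3)) := by
  obtain ⟨z, hz⟩ : ∃ z, z = ρ - 19 / 2 := ⟨_, rfl⟩
  have hz0 : 0 ≤ z := by linarith only [h1, hz]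
  obtain rfl : ρ = 19 / 2 + z := by linarith only [hz]
  rw [← sub_nonneg]
  ring_nf
  positivity

/-- `w = 1/δ`: the two bounds -/
theorem tf_w {r δ : ℝ} (h : Reg2 r δ) : 5471 / 10000 * (r * δ + 1 / (r * δ)) ≤ 1 / δ ∧
    499 / 10 / (r * δ) ≤ 1 / δ ∧ 52 / 10 ≤ 1 / δ := by
  have hρ := h.rho
  have h1 := t2c_w1 (G := 27 / 5) (g := 5471 / 10000) h.toPar h.G (by norm_num)
  have h2 := t2c_w2 h.toPar
  have hδ := h.d0
  exact ⟨h1, h2, t2_wmin (by linarith only [hρ]) (by norm_num) (by positivity) h1 h2 (by norm_num)⟩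

theorem tf_lam_neg {r δ y : ℝ} (h : Reg2 r δ) (hD : Dom (r * δ) y) (h0 : -(1 / 2) ≤ y)
    (h1 : y ≤ 0) (hE : -sE (r * δ) y ≤ 2105 / 1000) :
    6 / 5 ≤ 1 / δ * (ta (sx (r * δ) y) - -y) := by
  obtain ⟨w1, w2, w3⟩ := tf_w h
  have hρ := h.rho
  obtain ⟨f1, f2, f3, _, _⟩ := tf_negfacts hD hρ h0 h1 hE
  set ρ := r * δ with hρd
  set x := sx ρ y with hxd
  have hρ0 : 0 < ρ := by linarith only [hρ]
  have hx0 : 0 ≤ x := by linarith only [f1, hρ0]
  rcases tf_ta hx0 with ⟨h2, _⟩ | ⟨h2, h3, h4, h5⟩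
  · rw [h2]
    have h6 : 1 / 2 ≤ 1 - -y := by linarith only [h0]
    calc (6 / 5 : ℝ) ≤ 52 / 10 * (1 / 2) := by norm_num
      _ ≤ 1 / δ * (1 - -y) := by gcongr
  · obtain ⟨z, hz⟩ : ∃ z, z = 2105 / 1000 / ρ := ⟨_, rfl⟩
    have hz0 : 0 ≤ z := by rw [hz]; positivity
    have hn : -y ≤ z - z ^ (2 : ℕ) / 2 + z ^ (3 : ℕ) / 3 := by
      refine le_log3 hz0 ?_
      have h6 : Real.exp (-y) - 1 ≤ z := by
        rw [hz, le_div_iff₀ hρ0]
        linarith only [f3]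
      linarith only [h6]
    have hta : 137 / 25 / (ρ + 3105 / 1000) ≤ ta x := by
      rw [div_le_iff₀ (by linarith only [hρ0]), ← h2]
      have : 1 + x ≤ ρ + 3105 / 1000 := by linarith only [f3, f2]
      gcongr
    have hkey : ∀ w : ℝ, 0 ≤ w → w ≤ 1 / δ →
        12 / 10 * ρ ^ (4 : ℕ) * (ρ + 3105 / 1000) ≤ w * ρ * (137 / 25 * ρ ^ (3 : ℕ) - (ρ + 3105 / 1000) *
          (2105 / 1000 * ρ ^ (2 : ℕ) - (2105 / 1000) ^ (2 : ℕ) / 2 * ρ + (2105 / 1000) ^ (3 : ℕ) / 3)) →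
        6 / 5 ≤ 1 / δ * (ta x - -y) := by
      intro w hw0 hw hk
      have h6 : 6 / 5 ≤ w * (137 / 25 / (ρ + 3105 / 1000) - (z - z ^ (2 : ℕ) / 2 + z ^ (3 : ℕ) / 3)) := by
        have e : w * (137 / 25 / (ρ + 3105 / 1000) - (z - z ^ (2 : ℕ) / 2 + z ^ (3 : ℕ) / 3)) =
            (w * ρ * (137 / 25 * ρ ^ (3 : ℕ) - (ρ + 3105 / 1000) *
          (2105 / 1000 * ρ ^ (2 : ℕ) - (2105 / 1000) ^ (2 : ℕ) / 2 * ρ + (2105 / 1000) ^ (3 : ℕ) / 3))) /
            (ρ ^ (4 : ℕ) * (ρ + 3105 / 1000)) := by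
          rw [hz]
          field_simp
        rw [e, le_div_iff₀ (by positivity)]
        linarith only [hk]
      have h7 : 137 / 25 / (ρ + 3105 / 1000) - (z - z ^ (2 : ℕ) / 2 + z ^ (3 : ℕ) / 3) ≤ ta x - -y := by
        linarith only [hn, hta]
      have h8 : 0 ≤ ta x - -y := by
        refine le_trans ?_ h7
        by_contra hcon
        push Not at hcon
        have := mul_nonpos_of_nonneg_of_nonpos hw0 hcon.le
        linarith only [h6, this]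
      calc 6 / 5 ≤ w * (137 / 25 / (ρ + 3105 / 1000) - (z - z ^ (2 : ℕ) / 2 + z ^ (3 : ℕ) / 3)) := h6
        _ ≤ w * (ta x - -y) := by gcongr
        _ ≤ 1 / δ * (ta x - -y) := by gcongr
    rcases le_total ρ (19 / 2) with h6 | h6
    · refine hkey (499 / 10 / ρ) (by positivity) w2 ?_
      have e : 499 / 10 / ρ * ρ = 499 / 10 := by field_simp
      rw [e]
      exact tf_lam_num1 hρ h6
    · refine hkey (5471 / 10000 * (ρ + 1 / ρ)) (by positivity) w1 ?_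
      have e : 5471 / 10000 * (ρ + 1 / ρ) * ρ = 5471 / 10000 * (ρ ^ (2 : ℕ) + 1) := by
        field_simp
      rw [e]
      exact tf_lam_num2 h6

theorem tf_lam_pos {r δ y : ℝ} (h : Reg2 r δ) (hD : Dom (r * δ) y) (h0 : 0 ≤ y)
    (h1 : y ≤ 61 / 100) (hE : sE (r * δ) y ≤ 2105 / 1000) :
    6 / 5 ≤ 1 / δ * (ta (sx (r * δ) y) - y) := by
  obtain ⟨w1, w2, w3⟩ := tf_w h
  have hρ := h.rho
  obtain ⟨f1, f2⟩ := pos_facts hD h0
  have f3 := sx_le hD
  set ρ := r * δ with hρd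
  set x := sx ρ y with hxd
  have hρ0 : 0 < ρ := by linarith only [hρ]
  have hx0 : 0 ≤ x := sx_nonneg _ _
  have hexp := Real.add_one_le_exp y
  rcases tf_ta hx0 with ⟨h2, _⟩ | ⟨h2, h3, h4, h5⟩
  · rw [h2]
    have h6 : 39 / 100 ≤ 1 - y := by linarith only [h1]
    calc (6 / 5 : ℝ) ≤ 52 / 10 * (39 / 100) := by norm_num
      _ ≤ 1 / δ * (1 - y) := by gcongr
  · have hxρ : x ≤ ρ := by
      have : Real.exp (-y) ≤ 1 := by
        rw [Real.exp_le_one_iff]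
        linarith only [h0]
      calc x ≤ ρ * Real.exp (-y) := f3
        _ ≤ ρ * 1 := by gcongr
        _ = ρ := mul_one _
    have hw : 5471 / 10000 * x ≤ 1 / δ := by
      have : 0 ≤ 1 / ρ := by positivity
      linarith only [w1, hxρ, this]
    have hxy : x * y ≤ 2105 / 1000 := by
      have : x * y ≤ x * (Real.exp y - 1) := by
        have : y ≤ Real.exp y - 1 := by linarith only [hexp]
        gcongr
      linarith only [hE, f1, this]
    have h6 : 44 / 10 ≤ x * ta x := by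
      -- `x ta x = 5.48 - ta x ≥ 4.48`
      linarith only [h2, h3]
    have h7 : 0 ≤ ta x - y := by
      by_contra hcon
      push Not at hcon
      have hty : ta x ≤ y := by linarith only [hcon]
      have : x * ta x ≤ x * y := by gcongr
      linarith only [hxy, h6, this]
    calc (6 / 5 : ℝ) ≤ 5471 / 10000 * (x * ta x - x * y) := by linarith only [hxy, h6]
      _ = 5471 / 10000 * x * (ta x - y) := by ring
      _ ≤ 1 / δ * (ta x - y) := by gcongr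

/-! ### `mu` -/

theorem tf_mu {r δ y ε v : ℝ} (h : Reg2 r δ) (hD : Dom (r * δ) y) (h0 : -(1 / 2) ≤ y)
    (h1 : y ≤ 61 / 100) (hT : |y| ≤ 2 / 5 * sx (r * δ) y) (hv : |v| = |y|)
    (hε : ε = 1 ∨ ε = -1) : 2 ≤ 1 / δ * tμ ε (sx (r * δ) y) v := by
  obtain ⟨w1, w2, w3⟩ := tf_w h
  have hρ := h.rho
  have hρ0 : 0 < r * δ := by linarith only [hρ]
  have hx0 : 0 ≤ sx (r * δ) y := sx_nonneg _ _
  -- `x ≥ ρ/2`
  have hx : 1 / 2 * (r * δ) ≤ sx (r * δ) y := by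
    have h2 := sx_sq hD
    have h3 : y ^ (2 : ℕ) ≤ (2 / 5 * sx (r * δ) y) ^ (2 : ℕ) := by
      rw [← sq_abs y]
      gcongr
    have h4 : 543 / 1000 * (r * δ) ≤ r * δ * Real.exp (-y) := by
      have h5 := p2_exp_neg_61'
      have h6 : Real.exp (-(61 / 100)) ≤ Real.exp (-y) := Real.exp_le_exp.mpr (by linarith only [h1])
      have h7 : 543 / 1000 ≤ Real.exp (-y) := by linarith only [h5, h6]
      have := mul_le_mul_of_nonneg_left h7 hρ0.le
      linarith only [this]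
    have h5 : (543 / 1000 * (r * δ)) ^ (2 : ℕ) ≤ (r * δ * Real.exp (-y)) ^ (2 : ℕ) := by gcongr
    refine abs_le_of_sq_le_sq' ?_ hx0 |>.2
    nlinarith
  have hw : 0 < 1 / δ := by linarith only [w3]
  have hwx : 249 / 10 ≤ 1 / δ * sx (r * δ) y := by
    calc (249 / 10 : ℝ) ≤ 499 / 10 / (r * δ) * (1 / 2 * (r * δ)) := by
          have e : 499 / 10 / (r * δ) * (1 / 2 * (r * δ)) = 499 / 20 := by
            rw [div_mul_eq_mul_div, div_eq_iff hρ0.ne']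
            ring
          rw [e]
          norm_num
      _ ≤ 1 / δ * sx (r * δ) y := by gcongr
  have hta : 0 ≤ ta (sx (r * δ) y) ∧ ta (sx (r * δ) y) ≤ 1 := by
    rcases tf_ta hx0 with ⟨h2, _⟩ | ⟨_, h3, h4, _⟩
    · rw [h2]; norm_num
    · exact ⟨h4, h3⟩
  have hE : 36 / 100 ≤ Real.exp (ε * ta (sx (r * δ) y)) := by
    have h2 : -1 ≤ ε * ta (sx (r * δ) y) := by
      rcases hε with h | h <;> rw [h] <;> linarith
    have h3 : Real.exp (-1) ≤ Real.exp (ε * ta (sx (r * δ) y)) := Real.exp_le_exp.mpr h2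
    have h4 : 36 / 100 ≤ Real.exp (-1) := by
      have h5 := t2_e1
      have h6 : Real.exp (-1) * Real.exp 1 = 1 := by rw [← Real.exp_add]; simp
      have h7 := Real.exp_pos (-1)
      nlinarith
    linarith only [h3, h4]
  have hq : 4194 / 10000 * sx (r * δ) y ≤ 473 / 1000 * sx (r * δ) y - 134 / 1000 * |v| := by
    rw [hv]
    linarith only [hT]
  unfold tμ
  calc (2 : ℝ) ≤ 36 / 100 * (4194 / 10000) * (249 / 10) := by norm_num
    _ ≤ 36 / 100 * (4194 / 10000) * (1 / δ * sx (r * δ) y) := by gcongr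
    _ = 1 / δ * (36 / 100 * (4194 / 10000 * sx (r * δ) y)) := by ring
    _ ≤ 1 / δ * (Real.exp (ε * ta (sx (r * δ) y)) *
        (473 / 1000 * sx (r * δ) y - 134 / 1000 * |v|)) := by gcongr

/-! ### the theorem -/

/-- **PIECE TH** -/
theorem ptFact : PTFact := by
  intro r δ y η h hA hS hη
  have heo := tf_eo h hη
  have hE := hA.eta
  have hD := hA.dom
  have hρ := h.rho
  obtain ⟨hlo, hhi⟩ := p2_lohi h hA hη
  obtain ⟨he1, he2⟩ := abs_le.1 heo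
  have hx := t2_x hS
  have hT := hS.T
  have hmu1 := tf_mu (ε := 1) (v := y) h hD hlo hhi hT rfl (Or.inl rfl)
  have hmu2 := tf_mu (ε := -1) (v := -y) h hD hlo hhi hT (abs_neg y) (Or.inr rfl)
  obtain ⟨w1, w2, w3⟩ := tf_w h
  have hw : 0 < 1 / δ := by linarith only [w3]
  rcases le_total 0 y with hy | hy
  · -- `y ≥ 0`
    have hE' : sE (r * δ) y ≤ 2105 / 1000 := by rw [hE]; exact he2
    obtain ⟨f1, f2⟩ := pos_facts hD hy
    have hlam := tf_lam_pos h hD hy hhi hE'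
    have hy2 : y ≤ 2 / 5 * sx (r * δ) y := by rwa [abs_of_nonneg hy] at hT
    have hxy : sx (r * δ) y * (y + y ^ (2 : ℕ) / 2) ≤ 2105 / 1000 := by
      have h3 := Real.quadratic_le_exp_of_nonneg hy
      have h4 : sx (r * δ) y * (y + y ^ (2 : ℕ) / 2) ≤ sx (r * δ) y * (Real.exp y - 1) := by
        have : y + y ^ (2 : ℕ) / 2 ≤ Real.exp y - 1 := by linarith only [h3]
        gcongr
      linarith only [hE', f1, h4]
    have hρx : r * δ ≤ sx (r * δ) y + 2105 / 1000 := by linarith only [hE', f2]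
    refine ⟨⟨fun s h3 h4 => tf_v1 hx hy hhi hy2 hxy hρx h3 h4,
      fun φ h3 h4 => tf_v3 hx hy hhi hxy hρx h3 h4, hlam, hmu1⟩,
      ⟨fun s h3 h4 => tf_u1 hx hy hρx h3 h4, fun φ h3 h4 => tf_u3 hx hy hρx h3 h4, ?_, hmu2⟩⟩
    refine hlam.trans ?_
    have : ta (sx (r * δ) y) - y ≤ ta (sx (r * δ) y) - -y := by linarith only [hy]
    gcongr
  · -- `y ≤ 0`
    have hE' : -sE (r * δ) y ≤ 2105 / 1000 := by rw [hE]; linarith only [he1]
    obtain ⟨f1, f2, f3, f4, f5⟩ := tf_negfacts hD hρ hlo hy hE'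
    have hlam := tf_lam_neg h hD hlo hy hE'
    have hn0 : 0 ≤ -y := by linarith only [hy]
    have hn1 : -y ≤ 1 / 2 := by linarith only [hlo]
    have hnx : -y ≤ 2 / 5 * sx (r * δ) y := by rwa [abs_of_nonpos hy] at hT
    obtain ⟨g1, g2, g3⟩ := tf_log hn0 hn1
    have hx2 : 16 / 5 ≤ sx (r * δ) y := by linarith only [hρ, f1]
    have hna : -y ≤ ta (sx (r * δ) y) := by
      by_contra hcon
      push Not at hcon
      have := mul_nonpos_of_nonneg_of_nonpos hw.le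
        (by linarith : ta (sx (r * δ) y) - -y ≤ 0)
      linarith only [hlam, this]
    have hyy : y = - -y := (neg_neg y).symm
    refine ⟨⟨fun s h3 h4 => ?_, fun φ h3 h4 => ?_, ?_, hmu1⟩,
      ⟨fun s h3 h4 => tf_n1 hx2 hn0 hn1 hnx g1 g3 g2 f4 f1 f5 h3 h4,
      fun φ h3 h4 => tf_n3 hx2 hn0 hn1 hna g1 g3 g2 f4 f1 f5 h3 h4, hlam, hmu2⟩⟩
    · have := tf_m1 (n := -y) hx2 hn0 f1 h3 h4
      rwa [neg_neg] at this
    · have := tf_m3 (n := -y) hx2 hn0 f1 h3 h4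
      rwa [neg_neg] at this
    · refine hlam.trans ?_
      have : ta (sx (r * δ) y) - -y ≤ ta (sx (r * δ) y) - y := by linarith only [hn0]
      gcongr


end SokamV3

end
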