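import Pool.Agent.Lib_MP_af4de1_zy.Z67
import Pool.Agent.Lib_MP_af4de1_zy.Z171

/-! ### Lib_MP_af4de1_v3.OutR7 -/

section
namespace SokamF1
end SokamF1
namespace SokamF1B
end SokamF1B
namespace SokamF1G
end SokamF1G
namespace SokamF1M
end SokamF1M
namespace SokamF1S
end SokamF1S
namespace SokamPG
end SokamPG
namespace SokamU
end SokamU
namespace SokamV3F
end SokamV3F
/-!
# `N = 2`, `outR`: the saddle, heights on `[3/2, 19/4]`, the level of the core
-/

set_option autoImplicit false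

open Complex MeasureTheory Set SokamU SokamPG SokamF1 SokamF1S SokamF1M SokamF1G SokamF1B SokamV3F

namespace SokamV3

theorem outR_sad {ρ n e : ℝ} (hD : Dom ρ (-n)) (hρ : 16 / 5 ≤ ρ) (h0 : 0 ≤ n) (h1 : n ≤ 1 / 2)
    (hE : sE ρ (-n) = -e) :
    ρ ≤ sx ρ (-n) ∧ sx ρ (-n) ≤ ρ + e ∧ ρ + e ≤ sx ρ (-n) + n / sx ρ (-n) ∧
      ρ * (Real.exp n - 1) ≤ e ∧ sx ρ (-n) * (1 - Real.exp (-n)) ≤ e ∧
      sx ρ (-n) - ρ ≤ n * sx ρ (-n) := by
  have hρ0 : 0 < ρ := hD.1
  have hx := SokamF1T.sx_ge (ρ := ρ) (y := -n) (by linarith only [hρ]) (by linarith only [h1]) (by linarith only [h0])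
  obtain ⟨h2, h3⟩ := neg_facts hD (by linarith only [h1]) (by linarith only [h0])
  rw [neg_neg] at h2 h3
  have hx0 : 0 < sx ρ (-n) := by linarith only [hρ0, hx]
  have hee : Real.exp n * Real.exp (-n) = 1 := by rw [← Real.exp_add]; simp
  have he0 := Real.exp_pos (-n)
  have hen := Real.exp_pos n
  have he1 : Real.exp (-n) ≤ 1 := by
    rw [Real.exp_le_one_iff]
    linarith only [h0]
  rw [hE, neg_neg] at h2
  have hpsi0 : 0 ≤ -sP ρ (-n) := by
    have := sP_nonpos hρ0 (by linarith : -n ≤ 0)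
    linarith only [this]
  have hcos : sx ρ (-n) = ρ * Real.exp n * Real.cos (-sP ρ (-n)) := by
    rw [Real.cos_neg, hD.cos]
    have e : ρ * Real.exp n * (sx ρ (-n) * Real.exp (-n) / ρ) =
        sx ρ (-n) * (Real.exp n * Real.exp (-n)) := by
      field_simp
    rw [e, hee, mul_one]
  have hsin : n = ρ * Real.exp n * Real.sin (-sP ρ (-n)) := by
    rw [Real.sin_neg, hD.sin]
    have e : ρ * Real.exp n * -(-n * Real.exp (-n) / ρ) = n * (Real.exp n * Real.exp (-n)) := by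
      field_simp
    rw [e, hee, mul_one]
  have hpsi : -sP ρ (-n) ≤ n / sx ρ (-n) := by
    refine SokamP2O.ang_le hx0 (by positivity) hcos hsin hpsi0 ?_
    refine lt_of_le_of_ne ?_ ?_
    · have := sP_abs_le ρ (-n)
      have h4 := (abs_le.1 this).1
      linarith only [h4]
    · intro h
      rw [h, Real.cos_pi_div_two, mul_zero] at hcos
      linarith only [hx0, hcos]
  refine ⟨hx, by linarith only [h2, h3], ?_, h2, ?_, ?_⟩
  · unfold sE at hE
    linarith only [hE, hpsi]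
  · have h4 : sx ρ (-n) * (1 - Real.exp (-n)) ≤ ρ * Real.exp n * (1 - Real.exp (-n)) := by
      have : 0 ≤ 1 - Real.exp (-n) := by linarith only [he1]
      gcongr
    have h5 : ρ * Real.exp n * (1 - Real.exp (-n)) = ρ * (Real.exp n - 1) := by
      linear_combination (-ρ) * hee
    linarith only [h2, h4, h5]
  · have h4 : sx ρ (-n) * Real.exp (-n) ≤ ρ := by
      have := mul_le_mul_of_nonneg_right h3 he0.le
      have e2 : ρ * Real.exp n * Real.exp (-n) = ρ := by rw [mul_assoc, hee, mul_one]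
      linarith only [this, e2]
    have h5 := Real.add_one_le_exp (-n)
    have h6 := mul_le_mul_of_nonneg_left h5 hx0.le
    linarith only [h4, h6]

theorem outR_facts {ρ n e e0 e1 ρ0 N0 d1 d2 : ℝ} (hD : Dom ρ (-n)) (h0 : 0 ≤ n) (h1 : n ≤ 1 / 2)
    (hE : sE ρ (-n) = -e) (he1 : e ≤ e1) (he0 : e0 ≤ e) (he : 0 ≤ e1) (hρ : ρ0 ≤ ρ)
    (hρ0 : 16 / 5 ≤ ρ0)
    (hN : e1 / ρ0 - (e1 / ρ0) ^ (2 : ℕ) / 2 + (e1 / ρ0) ^ (3 : ℕ) / 3 ≤ N0) (hd1 : d1 + N0 / ρ0 ≤ e0)
    (hd2 : d2 + N0 / (ρ0 + d1) ≤ e0) (hd10 : 0 ≤ d1) (hd20 : 0 < d2) :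
    0 < n ∧ ρ ≤ sx ρ (-n) ∧ sx ρ (-n) ≤ ρ + e1 ∧ ρ + d1 ≤ sx ρ (-n) ∧ ρ + d2 ≤ sx ρ (-n) ∧
      Real.exp n ≤ 1 + e1 / ρ ∧ sx ρ (-n) * (1 - Real.exp (-n)) ≤ e1 ∧
      sx ρ (-n) - ρ ≤ n * sx ρ (-n) := by
  have hρp : 0 < ρ := by linarith only [hρ, hρ0]
  have hρ0p : 0 < ρ0 := by linarith only [hρ0]
  obtain ⟨f1, f2, f3, f4, f5, f6⟩ := outR_sad hD (by linarith only [hρ, hρ0]) h0 h1 hE
  set x := sx ρ (-n) with hx
  have hx0 : 0 < x := by linarith only [hρp, f1]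
  have hen : Real.exp n ≤ 1 + e1 / ρ := by
    have : Real.exp n - 1 ≤ e1 / ρ := by
      rw [le_div_iff₀ hρp]
      linarith only [he1, f4]
    linarith only [this]
  have hn : n ≤ N0 := by
    refine le_trans (le_log3 (by positivity) (hen.trans ?_)) hN
    gcongr
  have hN0 : 0 ≤ N0 := h0.trans hn
  have g1 : n / x ≤ N0 / ρ0 := by
    calc n / x ≤ N0 / x := by gcongr
      _ ≤ N0 / ρ0 := div_le_div_of_nonneg_left hN0 hρ0p (by linarith only [hρ, f1])
  have g2 : ρ + d1 ≤ x := by linarith only [he0, hd1, f3, g1]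
  have g3 : n / x ≤ N0 / (ρ0 + d1) := by
    calc n / x ≤ N0 / x := by gcongr
      _ ≤ N0 / (ρ0 + d1) := div_le_div_of_nonneg_left hN0 (by linarith only [hρ0, hd10]) (by linarith only [hρ, g2])
  have g4 : ρ + d2 ≤ x := by linarith only [he0, hd2, f3, g3]
  refine ⟨?_, f1, by linarith only [he1, f2], g2, g4, hen, by linarith only [he1, f5], f6⟩
  by_contra hcon
  push Not at hcon
  have : n * x ≤ 0 := mul_nonpos_of_nonpos_of_nonneg hcon hx0.le
  linarith only [hd20, f6, g4, this]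

theorem outR_nx {x n e x0 : ℝ} (h0 : 0 ≤ n) (h1 : n ≤ 1 / 2) (hu : x * (1 - Real.exp (-n)) ≤ e)
    (hx : x0 ≤ x) (hx0 : 0 < x0) (he : 0 ≤ e)
    (num : e * (1 + 1 / x0) * (1 + 69 / 100 * (e / x0)) ≤ 286 / 100) :
    n * (1 + x) ≤ 286 / 100 := by
  obtain ⟨g1, g2, g3⟩ := tf_log h0 h1
  set u := 1 - Real.exp (-n) with hud
  have hxp : 0 < x := by linarith only [hx, hx0]
  have hu1 : u ≤ e / x0 := by
    rw [le_div_iff₀ hx0]
    have : u * x0 ≤ u * x := by gcongr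
    linarith only [hu, this]
  calc n * (1 + x) ≤ (u + 69 / 100 * u ^ (2 : ℕ)) * (1 + x) := by gcongr
    _ = (x * u) * (1 + 1 / x) * (1 + 69 / 100 * u) := by field_simp; ring
    _ ≤ e * (1 + 1 / x0) * (1 + 69 / 100 * (e / x0)) := by gcongr
    _ ≤ _ := num

theorem outR_lam {x ρ n w w0 z z0 d0 Λ : ℝ} (hρ : 0 < ρ) (hd : 3 / 2 ≤ d0) (hx : ρ + d0 ≤ x)
    (hn : x - ρ ≤ n * x) (hw0 : 0 ≤ w0) (hw : w0 ≤ w) (hz0 : 0 ≤ z0) (hz : z0 ≤ z)
    (h : Λ * ((ρ + d0) * (1 + (ρ + d0))) ≤ w0 * z0 * ((d0 - 3 / 2) * (ρ + d0) + d0)) :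
    Λ ≤ w * (n - 3 / 2 * (1 + x)⁻¹) * z := by
  have hX : 0 < ρ + d0 := by linarith only [hρ, hd]
  have hx0 : 0 < x := by linarith only [hρ, hd, hx]
  set M := ((d0 - 3 / 2) * (ρ + d0) + d0) / ((ρ + d0) * (1 + (ρ + d0))) with hM
  have hM0 : 0 ≤ M := by
    have : 0 ≤ d0 - 3 / 2 := by linarith only [hd]
    have : 0 ≤ d0 := by linarith only [this]
    positivity
  have h1 : M ≤ n - 3 / 2 * (1 + x)⁻¹ := by
    have h2 : 1 - ρ / (ρ + d0) ≤ n := by
      have h3 : ρ / x ≤ ρ / (ρ + d0) := by gcongr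
      have h4 : 1 - ρ / x ≤ n := by
        have : 1 - ρ / x = (x - ρ) / x := by field_simp
        rw [this, div_le_iff₀ hx0]
        exact hn
      linarith only [h3, h4]
    have h3 : (1 + x)⁻¹ ≤ (1 + (ρ + d0))⁻¹ := by
      apply inv_anti₀ (by linarith only [hX])
      linarith only [hx]
    have e : M = 1 - ρ / (ρ + d0) - 3 / 2 * (1 + (ρ + d0))⁻¹ := by
      rw [hM]
      field_simp
      ring
    rw [e]
    linarith only [h2, h3]
  have h2 : Λ ≤ w0 * z0 * M := by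
    rw [hM, ← mul_div_assoc, le_div_iff₀ (by positivity)]
    exact h
  have hw1 : 0 ≤ w := hw0.trans hw
  have h3 : 0 ≤ n - 3 / 2 * (1 + x)⁻¹ := hM0.trans h1
  calc Λ ≤ w0 * z0 * M := h2
    _ = w0 * M * z0 := by ring
    _ ≤ w * (n - 3 / 2 * (1 + x)⁻¹) * z :=
        mul_le_mul (mul_le_mul hw h1 hM0 hw1) hz hz0 (mul_nonneg hw1 h3)

theorem outR_K {r δ y : ℝ} (hr : 499 / 10 ≤ r) (hδ : 0 < δ) (hD : Dom (r * δ) y) (hS : Sad2 r δ y) :
    Real.exp (-(9 / 100 * r)) ≤ 407 / 10000 * sG r δ y ∧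
    Real.exp (-(15 / 100 * r)) ≤ 21 / 10000 * sG r δ y := by
  have hρ := hD.1
  have hr0 : 0 < r := by linarith only [hr]
  have h1 := t2_D hD hS.lo (hS.hi) hS.D
  have hDp : 0 < √(sD2 (r * δ) y) := Real.sqrt_pos.2 (by linarith only [hS.D])
  obtain ⟨p1, p2⟩ := t2_pi
  have hG : 38107 / 10000 / r ≤ sG r δ y ^ (2 : ℕ) := by
    unfold sG
    rw [Real.sq_sqrt (by positivity), le_div_iff₀ hDp]
    calc 38107 / 10000 / r * √(sD2 (r * δ) y) ≤ 38107 / 10000 / r * (16488 / 10000 * (r * δ)) := by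
          gcongr
      _ = 38107 / 10000 * (16488 / 10000) * δ := by field_simp
      _ ≤ 2 * Real.pi * δ := by
          refine mul_le_mul_of_nonneg_right ?_ hδ.le
          refine le_trans ?_ p1
          norm_num
  have hGn : 0 ≤ sG r δ y := Real.sqrt_nonneg _
  have key : ∀ α K : ℝ, 0 ≤ K → r * Real.exp (-(2 * α * r)) ≤ K ^ (2 : ℕ) * (38107 / 10000) →
      Real.exp (-(α * r)) ≤ K * sG r δ y := by
    intro α K hK h
    refine abs_le_of_sq_le_sq' ?_ (by positivity) |>.2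
    have e : Real.exp (-(α * r)) ^ (2 : ℕ) = Real.exp (-(2 * α * r)) := by
      rw [← Real.exp_nat_mul]
      congr 1
      push_cast
      ring
    rw [e, mul_pow]
    calc Real.exp (-(2 * α * r)) = (r * Real.exp (-(2 * α * r))) / r := by field_simp
      _ ≤ K ^ (2 : ℕ) * (38107 / 10000) / r := by gcongr
      _ = K ^ (2 : ℕ) * (38107 / 10000 / r) := by ring
      _ ≤ K ^ (2 : ℕ) * sG r δ y ^ (2 : ℕ) := by gcongr
  have e1 : (27182818 / 10000000 : ℝ) ≤ Real.exp 1 := by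
    have := Real.exp_one_gt_d9
    norm_num at this ⊢
    linarith only [this]
  constructor
  · refine key (9 / 100) (407 / 10000) (by norm_num) ?_
    refine t2_decay (by norm_num) hr ?_
    have e2 : (499 / 10 * (2 * (9 / 100)) : ℝ) = (8 : ℕ) * 1 + (2 : ℕ) * (491 / 1000) := by
      norm_num
    have e3 := Real.sum_le_exp_of_nonneg (x := 491 / 1000) (by norm_num) 5
    simp only [Finset.sum_range_succ, Finset.sum_range_zero, Nat.factorial] at e3
    norm_num at e3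
    rw [e2, Real.exp_add, Real.exp_nat_mul, Real.exp_nat_mul]
    calc (499 / 10 : ℝ) ≤ (407 / 10000) ^ (2 : ℕ) * (38107 / 10000) *
          ((27182818 / 10000000) ^ (8 : ℕ) * (1633 / 1000) ^ (2 : ℕ)) := by norm_num
      _ ≤ (407 / 10000) ^ (2 : ℕ) * (38107 / 10000) *
          (Real.exp 1 ^ (8 : ℕ) * Real.exp (491 / 1000) ^ (2 : ℕ)) := by
          gcongr
          linarith only [e3]
  · refine key (15 / 100) (21 / 10000) (by norm_num) ?_
    refine t2_decay (by norm_num) hr ?_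
    have e2 : (499 / 10 * (2 * (15 / 100)) : ℝ) = (14 : ℕ) * 1 + (2 : ℕ) * (485 / 1000) := by
      norm_num
    have e3 := Real.sum_le_exp_of_nonneg (x := 485 / 1000) (by norm_num) 5
    simp only [Finset.sum_range_succ, Finset.sum_range_zero, Nat.factorial] at e3
    norm_num at e3
    rw [e2, Real.exp_add, Real.exp_nat_mul, Real.exp_nat_mul]
    calc (499 / 10 : ℝ) ≤ (21 / 10000) ^ (2 : ℕ) * (38107 / 10000) *
          ((27182818 / 10000000) ^ (14 : ℕ) * (1623 / 1000) ^ (2 : ℕ)) := by norm_num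
      _ ≤ (21 / 10000) ^ (2 : ℕ) * (38107 / 10000) *
          (Real.exp 1 ^ (14 : ℕ) * Real.exp (485 / 1000) ^ (2 : ℕ)) := by
          gcongr
          linarith only [e3]

/-- heights on `[3/2, 19/4]` -/
theorem outR_h1a {x n z c s : ℝ} (hx : 4932 / 1000 ≤ x) (hc0 : 0 < c) (hxc : x * c = 1 - c)
    (hc1 : c ≤ 1686 / 10000) (hn : n ≤ 286 / 100 * c) (hcn : c ≤ n) (hz0 : 0 ≤ z)
    (hz : z + 1884 / 1000 ≤ Real.pi) (h1 : 3 / 2 ≤ s) (h2 : s ≤ 19 / 4) :
    17 / 100 * x ≤ Hs (-1) x n (c * s) s - (c * s - n) * z := by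
  have hpi := Real.pi_gt_three
  have h := SokamP2O.crudeR1 (x := x) (n := n) (z := z) (c := c) (a := c * s) (a1 := 19 / 4 * c)
    (t := s) (by linarith only [hx, hc0, hxc]) hc0 (by linarith only [hc1]) (by linarith only [hn, hcn]) (by linarith only [hx, hc1, hn]) hcn hz0 (by linarith only [hz])
    (by positivity) (by nlinarith only [hn, hcn, h2]) (by linarith only [hc1]) le_rfl (fun h3 => ?_) (by linarith only [hx]) ?_
    (by linarith only [h1]) h2
  · unfold SokamP2O.HR at h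
    unfold Hs
    have e1 : (-1 : ℝ) * (c * s) = -(c * s) := by ring
    rw [e1]
    linarith only [h]
  · have : c * (286 / 100) ≤ c * s := by
      refine mul_le_mul_of_nonneg_left ?_ hc0.le
      linarith only [hpi, h3]
    linarith only [hn, this]
  · have h3 : (19 / 4 * c - 286 / 100 * c) * (1884 / 1000) ≤ (19 / 4 * c - n) * (Real.pi - z) := by
      have : 0 ≤ 19 / 4 * c - 286 / 100 * c := by linarith only [hn, hcn]
      exact mul_le_mul (by linarith only [hn]) (by linarith only [hz]) (by norm_num) (by linarith only [hn, hcn])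
    have key : c * (17 / 100 * x) ≤ c * (859 / 1000 * x * (1 - 19 / 4 * c) -
        141 / 2000 * x * (19 / 4 * c) ^ (2 : ℕ) + (19 / 4 * c - 286 / 100 * c) * (1884 / 1000)) := by
      have e1 : c * (17 / 100 * x) = 17 / 100 * (1 - c) := by rw [← hxc]; ring
      have e2 : c * (859 / 1000 * x * (1 - 19 / 4 * c) -
          141 / 2000 * x * (19 / 4 * c) ^ (2 : ℕ) + (19 / 4 * c - 286 / 100 * c) * (1884 / 1000)) =
          859 / 1000 * (1 - c) * (1 - 19 / 4 * c) - 141 / 2000 * (1 - c) * (19 / 4 * c) ^ (2 : ℕ) +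
          (19 / 4 - 286 / 100) * (1884 / 1000) * c ^ (2 : ℕ) := by rw [← hxc]; ring
      rw [e1, e2]
      have h5 : 0 ≤ c ^ (3 : ℕ) := by positivity
      nlinarith only [hc0, hc1]
    have := le_of_mul_le_mul_left key hc0
    linarith only [h3, this]

end SokamV3

end
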