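import Pool.Agent.Lib_MP_af4de1_zy.Z159
import Pool.Agent.Lib_MP_af4de1_zy.Z163
import Pool.Agent.Lib_MP_af4de1_zy.Z170
import Pool.Agent.Lib_MP_af4de1_zy.Z172

/-! ### Lib_MP_af4de1_v3.OutR8 -/

section
namespace SokamF1
end SokamF1
namespace SokamF1B
end SokamF1B
namespace SokamF1G
end SokamF1G
namespace SokamF1M
end SokamF1M
namespace SokamF1S
end SokamF1S
namespace SokamPG
end SokamPG
namespace SokamU
end SokamU
namespace SokamV3F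
end SokamV3F
/-!
# `N = 2`: `P2.outR`
-/

set_option autoImplicit false

open Complex MeasureTheory Set SokamU SokamPG SokamF1 SokamF1S SokamF1M SokamF1G SokamF1B SokamV3F

namespace SokamV3

theorem outR_fin {r δ n ζ κ dl sq pvm Cc cm h P1 P2 Q Kh Λ T : ℝ} (hR : Reg2 r δ)
    (hA : At r δ (-n) (-eo2 r δ)) (hS : Sad2 r δ (-n)) (hn0 : 0 < n)
    (hρx : r * δ + 1732 / 1000 ≤ sx (r * δ) (-n)) (hn : n * (1 + sx (r * δ) (-n)) ≤ 286 / 100)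
    (hnx : sx (r * δ) (-n) - r * δ ≤ n * sx (r * δ) (-n))
    (hcm : cm ≤ 1686 / 10000) (hxc : (1 + sx (r * δ) (-n))⁻¹ ≤ cm) (hκ0 : 4 / 5 ≤ κ)
    (hκ1 : κ ≤ 9 / 10)
    (hκ : ∀ c : ℝ, 0 ≤ c → c ≤ cm → 0 ≤ (4765 / 10000 - κ / 2) - (8339 / 10000 - κ / 2) * c +
      4999 / 10000 * c ^ (2 : ℕ) - 236 / 100 * c ^ (3 : ℕ))
    (hD : sD (r * δ) (-n) ≤ dl * sx (r * δ) (-n))
    (hdl : dl ≤ 1021 / 1000) (hsq : dl ≤ κ * sq ^ (2 : ℕ)) (hsq0 : 0 ≤ sq) (hpv : 1 + cm ^ (2 : ℕ) ≤ pvm ^ (2 : ℕ))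
    (hpv1 : 1 ≤ pvm) (hC : pvm * (10005 / 10000 * sq + 1 / 100) ≤ Cc)
    (hKh : Real.exp (-(h * r)) ≤ Kh * sG r δ (-n))
    (hP1 : tP 1 (sx (r * δ) (-n)) (-n) (1 / δ) ≤ P1 * sG r δ (-n))
    (hP2 : tP (-1) (sx (r * δ) (-n)) n (1 / δ) ≤ P2 * sG r δ (-n))
    (hQ : tP (-1) (sx (r * δ) (-n)) n (1 / δ) *
      Real.exp (1 / δ * (ta (sx (r * δ) (-n)) - n) * (Real.pi - eo2 r δ)) ≤ Q * sG r δ (-n))
    (hh0 : 0 ≤ h) (hh1 : h ≤ 17 / 100)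
    (Hh : ∀ s, 19 / 4 ≤ s → s ≤ 137 / 25 → h * (sx (r * δ) (-n) - 173 / 100) ≤
      Hs (-1) (sx (r * δ) (-n)) n ((1 + sx (r * δ) (-n))⁻¹ * s) s -
        ((1 + sx (r * δ) (-n))⁻¹ * s - n) * (Real.pi - eo2 r δ))
    (hΛ : Λ ≤ 1 / δ * (n - 3 / 2 * (1 + sx (r * δ) (-n))⁻¹) * (Real.pi - eo2 r δ))
    (hT : Cc * Real.exp (-Λ) ≤ T)
    (num0 : Cc + 27183 / 10000 * (1001 / 1000 * P1 + 1 / 1000) + (1001 / 1000 * P2 + 1 / 1000) ≤
      13 / 10)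
    (numZ : T + 27183 / 10000 * (1001 / 1000 * P1 + 1 / 1000) + (4 * pvm * Kh +
      1001 / 1000 * (Q + 1 / 100)) ≤ 13 / 10)
    (he0 : 1884 / 1000 ≤ eo2 r δ) (hz0 : 0 ≤ Real.pi - eo2 r δ)
    (hz1 : Real.pi - eo2 r δ ≤ 12567 / 10000)
    (hζ : ζ ≤ 0) (hζ2 : -Real.pi ≤ -eo2 r δ + ζ) : Out r δ (-n) ζ (13 / 10) := by
  have hδ := hR.d0
  have hr := hR.r0
  have hρ := hR.rho
  have he2 : eo2 r δ ≤ 2105 / 1000 := eo2_le_all r δ
  have hη : |(-eo2 r δ)| ≤ eo2 r δ := by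
    rw [abs_neg, abs_of_nonneg (by linarith only [he0])]
  obtain ⟨hT1, hT2⟩ := ptFact r δ (-n) (-eo2 r δ) hR hA hS hη
  rw [neg_neg] at hT2
  obtain ⟨g1, g3⟩ := t2_G hr hδ hA.dom hS
  obtain ⟨_, g4⟩ := outR_K hr hδ hA.dom hS
  have hGw := sG_w (r := r) (y := -n) hδ
  have hw : 0 < 1 / δ := by positivity
  have hwd : 1 / δ * (r * δ) = r := by field_simp
  set x := sx (r * δ) (-n) with hxd
  have hx : 4932 / 1000 ≤ x := by linarith only [hρ, hρx]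
  have hx1 : 0 < 1 + x := by linarith only [hx]
  have hwx : 499 / 10 ≤ 1 / δ * x := by
    have : 1 / δ * (r * δ) ≤ 1 / δ * x := by
      have : r * δ ≤ x := by linarith only [hρx]
      gcongr
    linarith only [hr, hwd, this]
  have hDp : 0 < sD (r * δ) (-n) := Real.sqrt_pos.2 (sD2_pos hA.y1)
  obtain ⟨ts0, ts1, ts2, ta0, ta1⟩ := t2_ts (by linarith : 0 ≤ x)
  have hc0 : 0 < (1 + x)⁻¹ := inv_pos.2 hx1
  have htx : ts x = 137 / 25 := min_eq_left (by linarith only [hx])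
  have hta : ta x = 137 / 25 * (1 + x)⁻¹ := by
    unfold ta
    rw [htx]
    ring
  have hxc2 : x * (1 + x)⁻¹ = 1 - (1 + x)⁻¹ := by
    have : (1 + x) * (1 + x)⁻¹ = 1 := mul_inv_cancel₀ hx1.ne'
    linarith only [this]
  have hc1 : (1 + x)⁻¹ ≤ 1686 / 10000 := hxc.trans hcm
  have hnc : n ≤ 286 / 100 * (1 + x)⁻¹ := by
    have h1 : n * (1 + x) * (1 + x)⁻¹ ≤ 286 / 100 * (1 + x)⁻¹ := by gcongr
    have h2 : n * (1 + x) * (1 + x)⁻¹ = n := by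
      rw [mul_assoc, mul_inv_cancel₀ hx1.ne', mul_one]
    linarith only [h1, h2]
  have hcn : (1 + x)⁻¹ ≤ n := by
    rw [inv_le_iff_one_le_mul₀ hx1]
    have : n * x ≤ n * (1 + x) := by
      have : x ≤ 1 + x := by linarith only []
      gcongr
    linarith only [hρx, hnx, this]
  have H1 : ∀ s, 3 / 2 ≤ s → s ≤ 137 / 25 → h * (r * δ) ≤
      Hs (-1) x n ((1 + x)⁻¹ * s) s - ((1 + x)⁻¹ * s - n) * (Real.pi - eo2 r δ) := by
    intro s h1 h2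
    rcases le_total s (19 / 4) with h3 | h3
    · have h4 := outR_h1a (s := s) hx hc0 hxc2 hc1 hnc hcn hz0 (by linarith only [he0]) h1 h3
      have h5 : h * (r * δ) ≤ 17 / 100 * x := by
        have : r * δ ≤ x := by linarith only [hρx]
        gcongr
      linarith only [h4, h5]
    · have h4 := Hh s h3 h2
      have h5 : h * (r * δ) ≤ h * (x - 173 / 100) := by
        have : r * δ ≤ x - 173 / 100 := by linarith only [hρx]
        gcongr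
      linarith only [h4, h5]
  have H3 : ∀ φ, 4 / 5 ≤ φ → φ ≤ 137 / 25 → 15 / 100 * (r * δ) ≤
      Hs (-1) x n (ta x) (2 * Real.pi + φ) - (ta x - n) * (Real.pi - eo2 r δ) := by
    intro φ h1 h2
    have h4 := outR_h3 hc0 hxc2 (by linarith only [hc1]) hn0.le hnc hz0 hz1 h1 h2
    rw [hta]
    linarith only [hρx, h4]
  have htot : ∀ j : ℕ, j ≤ 1 →
      (∫ s, oF x n 0 δ j s ≤ 13 / 10 * √(2 * Real.pi / (1 / δ * sD (r * δ) (-n)))) ∧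
      (∫ s, oF x n (Real.pi - eo2 r δ) δ j s ≤
        13 / 10 * √(2 * Real.pi / (1 / δ * sD (r * δ) (-n)))) := fun j hj => by
    rw [hGw] at g1 g3 g4 hKh hP1 hP2 hQ
    exact oF_total hj hδ hx hcm hxc hn0 hn hκ0 hκ1 hκ hz0 hwx hDp hD hdl hsq hsq0 hpv hpv1 hC
      hT1 hT2 g1 g3 g4 hKh hP1 hP2 hQ H1 H3 hΛ hT num0 numZ
  rw [← hGw] at htot
  have hk : |(-n : ℝ)| < (1 + x)⁻¹ * ts x := by
    rw [abs_neg, abs_of_pos hn0]
    by_contra hcon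
    push Not at hcon
    have h1 := hT2.lam
    have h2 : ta x ≤ n := hcon
    have := mul_nonpos_of_nonneg_of_nonpos hw.le (by linarith : ta x - n ≤ 0)
    linarith only [h1, this]
  have hmF : ∀ (z' : ℝ) (j : ℕ), mF (1 + x)⁻¹ (ts x) r δ (-n) (-z') j = ∫ s, oF x n z' δ j s :=
    fun z' j => rfl
  have h00 := (htot 0 (by norm_num)).1
  have h10 := (htot 1 le_rfl).1
  have h0Z := (htot 0 (by norm_num)).2
  have h1Z := (htot 1 le_rfl).2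
  rw [← hmF] at h00 h10 h0Z h1Z
  rw [neg_zero] at h00 h10
  refine out_of_mF (Z := -(Real.pi - eo2 r δ)) hc0 ts0 ta1 hδ hA.dom hA.y1 hk (by linarith only [hc0, hcn]) ?_ ?_
    h00 h0Z h10 h1Z
  · exact mul_nonneg_of_nonpos_of_nonpos hζ (by linarith only [hz0])
  · rw [abs_of_nonpos hζ, abs_neg, abs_of_nonneg hz0]
    linarith only [hζ2]

end SokamV3

end
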