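import Pool.Agent.Lib_MP_af4de1_zy.Z164
import Pool.Agent.Lib_MP_af4de1_zy.Z167
import Pool.Agent.Lib_MP_af4de1_zy.Z168
import Pool.Agent.Lib_MP_af4de1_zy.Z173

/-! ### Lib_MP_af4de1_v3.OutR9 -/

section
namespace SokamF1
end SokamF1
namespace SokamF1B
end SokamF1B
namespace SokamF1G
end SokamF1G
namespace SokamF1M
end SokamF1M
namespace SokamF1S
end SokamF1S
namespace SokamPG
end SokamPG
namespace SokamU
end SokamU
namespace SokamV3F
end SokamV3F
/-!
# `N = 2`: `P2.outR`, the four classes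
-/

set_option autoImplicit false

open Complex MeasureTheory Set SokamU SokamPG SokamF1 SokamF1S SokamF1M SokamF1G SokamF1B SokamV3F

namespace SokamV3

theorem outR_sD {ρ n dl x0 : ℝ} (h0 : 0 ≤ n) (h1 : n ≤ 1 / 2) (hx0 : 0 ≤ x0) (hx : x0 ≤ sx ρ (-n))
    (hdl : 1 ≤ dl) (h : 1 ≤ (dl ^ (2 : ℕ) - 1) * x0 ^ (2 : ℕ)) :
    sD ρ (-n) ≤ dl * sx ρ (-n) ∧ sD ρ (-n) ^ (2 : ℕ) ≤ 1 + sx ρ (-n) ^ (2 : ℕ) := by
  have hDD : sD ρ (-n) ^ (2 : ℕ) = (1 + -n) ^ (2 : ℕ) + sx ρ (-n) ^ (2 : ℕ) := by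
    unfold sD
    rw [Real.sq_sqrt (by unfold sD2; positivity)]
    rfl
  have h2 : sD ρ (-n) ^ (2 : ℕ) ≤ 1 + sx ρ (-n) ^ (2 : ℕ) := by
    rw [hDD]
    nlinarith only [h0, h1]
  refine ⟨?_, h2⟩
  refine abs_le_of_sq_le_sq' ?_ (mul_nonneg (by linarith only [hdl]) (by linarith only [hx0, hx])) |>.2
  have h3 : x0 ^ (2 : ℕ) ≤ sx ρ (-n) ^ (2 : ℕ) := by gcongr
  have h4 : 0 ≤ dl ^ (2 : ℕ) - 1 := by nlinarith only [h]
  have h5 : (dl ^ (2 : ℕ) - 1) * x0 ^ (2 : ℕ) ≤ (dl ^ (2 : ℕ) - 1) * sx ρ (-n) ^ (2 : ℕ) := by gcongr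
  rw [mul_pow]
  linarith only [h, h2, h5]

theorem outR_inv {x cm : ℝ} (hx : 0 < 1 + x) (h : 1 ≤ cm * (1 + x)) : (1 + x)⁻¹ ≤ cm := by
  rw [inv_le_iff_one_le_mul₀ hx]
  exact h

theorem outR_T {Cc Λ T : ℝ} (hΛ : 0 ≤ Λ) (hC : 0 ≤ Cc)
    (h : Cc * (1 - Λ + Λ ^ (2 : ℕ) / 2 - Λ ^ (3 : ℕ) / 6 + Λ ^ (4 : ℕ) / 24) ≤ T) : Cc * Real.exp (-Λ) ≤ T :=
  (mul_le_mul_of_nonneg_left (t2c_exp_neg_le4 hΛ) hC).trans h

/-- class C -/
theorem outR_C {r δ n ζ : ℝ} (hR : Reg2 r δ) (hA : At r δ (-n) (-eo2 r δ)) (hS : Sad2 r δ (-n))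
    (h0 : 0 ≤ n) (h1 : n ≤ 1 / 2) (hG : Gm 2 r δ < 17 / 2) (he : eo2 r δ = 67 / 100 * Real.pi)
    (hζ : ζ ≤ 0) (hζ2 : -Real.pi ≤ -eo2 r δ + ζ) : Out r δ (-n) ζ (13 / 10) := by
  have hP := hR.toPar
  have hδ := hR.d0
  have hρ := hR.rho_ge hG
  have hpi := tf_pi
  have hw1 := t2c_w1 hP hR.G (g := 54712 / 100000) (by norm_num)
  have hw2 := t2c_w2 hP
  have hρ0 : 0 < r * δ := by linarith only [hδ, hρ]
  have hw3 : 522 / 100 ≤ 1 / δ :=
    t2_wmin hρ0 (by norm_num) (by positivity) hw1 hw2 (by norm_num)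
  obtain ⟨f0, f1, f2, f3, f4, f5, f6, f7⟩ := outR_facts (e0 := 21048 / 10000) (e1 := 2105 / 1000)
    (ρ0 := 754 / 100) (N0 := 2475 / 10000) (d1 := 2071 / 1000) (d2 := 2079 / 1000) hA.dom h0 h1
    hA.eta (by rw [he]; linarith only [hpi]) (by rw [he]; linarith only [hpi]) (by norm_num) hρ (by norm_num)
    (by norm_num) (by norm_num) (by norm_num) (by norm_num) (by norm_num)
  have hDp : 0 < sD (r * δ) (-n) := Real.sqrt_pos.2 (sD2_pos hA.y1)
  obtain ⟨D1, D2⟩ := outR_sD (ρ := r * δ) (dl := 10062 / 10000) (x0 := 9) h0 h1 (by norm_num)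
    (by linarith only [hρ, f4]) (by norm_num) (by norm_num)
  obtain ⟨_, K2⟩ := outR_K hP.r0 hδ hA.dom hS
  have hex5 : Real.exp n ≤ 1 + 421 / 200 / (r * δ) := by
    have : (2105 / 1000 : ℝ) = 421 / 200 := by norm_num
    rwa [this] at f5
  have hz1 : 10367 / 10000 ≤ Real.pi - eo2 r δ := by rw [he]; linarith only [hpi]
  have hz2 : Real.pi - eo2 r δ ≤ 648 / 625 := by rw [he]; linarith only [hpi]
  have k1 : tP (-1) (sx (r * δ) (-n)) n (1 / δ) ≤
      999 / 10000 * √(2 * Real.pi / (1 / δ * sD (r * δ) (-n))) := by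
    rcases le_total (1 + sx (r * δ) (-n))⁻¹ (9 / 100) with hc | hc
    · have hx : 91 / 9 ≤ sx (r * δ) (-n) := by
        rw [inv_le_comm₀ (by linarith only [hDp, D1]) (by norm_num)] at hc
        norm_num at hc
        linarith only [hc]
      exact c_neg1 hρ f2 hc hx h0 f5 hw1 hw2 hw3 hDp D2
    · exact c_neg2 hρ f1 hc h0 f5 hw2 hw3 hDp D2
  have k2 := c_neg3 hρ f1 f2 h0 f5 hw1 hw2 hw3 hDp D2
  have k3 := outR_lC (by linarith only [hρ]) (by linarith only [f4]) (by linarith only [f2]) h0 hex5 (by linarith only [hw1]) hw2 hz1 hz2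
    hDp D2
  have hGw := sG_w (r := r) (y := -n) hδ
  rw [← hGw] at k1 k2 k3
  refine outR_fin (κ := 875 / 1000) (dl := 10062 / 10000) (sq := 10724 / 10000)
    (pvm := 1005 / 1000) (Cc := 1089 / 1000) (cm := 1 / 10) (h := 15 / 100) (P1 := 1 / 1000)
    (P2 := 999 / 10000) (Q := 53 / 125) (Kh := 21 / 10000) (Λ := 317 / 1000) (T := 7933 / 10000)
    hR hA hS f0 (by linarith only [f4]) ?_ f7 (by norm_num) (outR_inv (by linarith only [hDp, D1]) (by linarith only [hρ, f4]))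
    (by norm_num) (by norm_num) ?_ D1 (by norm_num) (by norm_num) (by norm_num) (by norm_num)
    (by norm_num) (by norm_num) K2 k2 k1 k3 (by norm_num) (by norm_num) ?_ ?_
    (outR_T (by norm_num) (by norm_num) (by norm_num)) (by norm_num) (by norm_num)
    (by rw [he]; linarith only [hpi]) (by linarith only [hz1]) (by linarith only [hz2]) hζ hζ2
  · exact outR_nx (x0 := 9) h0 h1 f6 (by linarith only [hρ, f4]) (by norm_num) (by norm_num) (by norm_num)
  · intro c hc0 hc1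
    nlinarith only [hc1]
  · intro s s1 s2
    have hx1 : 0 < 1 + sx (r * δ) (-n) := by linarith only [hDp, D1]
    refine (outR_h1b (inv_pos.2 hx1) ?_ h0 ?_ (by linarith only [hz1]) s1 s2).2 ?_ (by linarith only [hz2])
    · have : (1 + sx (r * δ) (-n)) * (1 + sx (r * δ) (-n))⁻¹ = 1 := mul_inv_cancel₀ hx1.ne'
      linarith only [this]
    · have h4 := outR_nx (x0 := 9) h0 h1 f6 (by linarith only [hρ, f3]) (by norm_num) (by norm_num) (by norm_num)
      rw [← div_eq_mul_inv, le_div_iff₀ hx1]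
      exact h4
    · exact outR_inv (by linarith only [hx1]) (by linarith only [hρ, f3])
  · rcases le_total (r * δ) (955 / 100) with hc | hc
    · refine outR_lam (w0 := 499 / 10 / (r * δ)) (z0 := 10367 / 10000) (d0 := 2071 / 1000) hρ0
        (by norm_num) (by linarith only [f4]) f7 (by positivity) hw2 (by norm_num) hz1 ?_
      have e : 499 / 10 / (r * δ) * (10367 / 10000) * ((2071 / 1000 - 3 / 2) *
          (r * δ + 2071 / 1000) + 2071 / 1000) = (499 / 10 * (10367 / 10000) *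
          ((2071 / 1000 - 3 / 2) * (r * δ + 2071 / 1000) + 2071 / 1000)) / (r * δ) := by
        field_simp
      rw [e, le_div_iff₀ hρ0]
      nlinarith only [hc, mul_nonneg (sub_nonneg.2 hρ) (sub_nonneg.2 hc)]
    · refine outR_lam (w0 := 54712 / 100000 * (r * δ + 1 / (r * δ))) (z0 := 10367 / 10000)
        (d0 := 2071 / 1000) hρ0 (by norm_num) (by linarith only [f4]) f7 (by positivity) hw1 (by norm_num)
        hz1 ?_
      have e : 54712 / 100000 * (r * δ + 1 / (r * δ)) * (10367 / 10000) * ((2071 / 1000 - 3 / 2) *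
          (r * δ + 2071 / 1000) + 2071 / 1000) = (54712 / 100000 * ((r * δ) ^ (2 : ℕ) + 1) *
          (10367 / 10000) *
          ((2071 / 1000 - 3 / 2) * (r * δ + 2071 / 1000) + 2071 / 1000)) / (r * δ) := by
        field_simp
      rw [e, le_div_iff₀ hρ0]
      nlinarith only [mul_nonneg (mul_nonneg hρ0.le hρ0.le) (sub_nonneg.2 hc)]

/-- class D -/
theorem outR_D {r δ n ζ : ℝ} (hR : Reg2 r δ) (hA : At r δ (-n) (-eo2 r δ)) (hS : Sad2 r δ (-n))
    (h0 : 0 ≤ n) (h1 : n ≤ 1 / 2) (hG8 : 17 / 2 ≤ Gm 2 r δ) (hG10 : Gm 2 r δ < 10)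
    (he : eo2 r δ = 67 / 100 * Real.pi)
    (hζ : ζ ≤ 0) (hζ2 : -Real.pi ≤ -eo2 r δ + ζ) : Out r δ (-n) ζ (13 / 10) := by
  have hP := hR.toPar
  have hδ := hR.d0
  have hρ : 694 / 100 ≤ r * δ := (reg2_facts hR).2.1 hG10
  have hpi := tf_pi
  have hw1 := t2c_w1 hP hG8 (g := 86122 / 100000) (by norm_num)
  have hw2 := t2c_w2 hP
  have hρ0 : 0 < r * δ := by linarith only [hρ]
  have hw3 : 655 / 100 ≤ 1 / δ :=
    t2_wmin hρ0 (by norm_num) (by positivity) hw1 hw2 (by norm_num)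
  obtain ⟨f0, f1, f2, f3, f4, f5, f6, f7⟩ := outR_facts (e0 := 21048 / 10000) (e1 := 2105 / 1000)
    (ρ0 := 694 / 100) (N0 := 2667 / 10000) (d1 := 2065 / 1000) (d2 := 2075 / 1000) hA.dom h0 h1
    hA.eta (by rw [he]; linarith only [hpi]) (by rw [he]; linarith only [hpi]) (by norm_num) hρ (by norm_num)
    (by norm_num) (by norm_num) (by norm_num) (by norm_num) (by norm_num)
  have hDp : 0 < sD (r * δ) (-n) := Real.sqrt_pos.2 (sD2_pos hA.y1)
  obtain ⟨D1, D2⟩ := outR_sD (ρ := r * δ) (dl := 10062 / 10000) (x0 := 9) h0 h1 (by norm_num)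
    (by linarith only [hρ, f4]) (by norm_num) (by norm_num)
  obtain ⟨_, K2⟩ := outR_K hP.r0 hδ hA.dom hS
  have hex5 : Real.exp n ≤ 1 + 421 / 200 / (r * δ) := by
    have : (2105 / 1000 : ℝ) = 421 / 200 := by norm_num
    rwa [this] at f5
  have hz1 : 10367 / 10000 ≤ Real.pi - eo2 r δ := by rw [he]; linarith only [hpi]
  have hz2 : Real.pi - eo2 r δ ≤ 648 / 625 := by rw [he]; linarith only [hpi]
  have k1 := d_neg1 hρ f1 f2 h0 f5 hw1 hw3 hDp D2
  have k2 := d_neg3 hρ f1 f2 h0 f5 hw1 hw3 hDp D2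
  have k3 := outR_lD (by linarith only [hρ]) (by linarith only [f4]) (by linarith only [f2]) h0 hex5 (by linarith only [hw1]) hw2 hz1 hz2
    hDp D2
  have hGw := sG_w (r := r) (y := -n) hδ
  rw [← hGw] at k1 k2 k3
  refine outR_fin (κ := 875 / 1000) (dl := 10062 / 10000) (sq := 10724 / 10000)
    (pvm := 1005 / 1000) (Cc := 1089 / 1000) (cm := 1 / 10) (h := 15 / 100)
    (Kh := 21 / 10000) (Λ := 49 / 100) (T := 6675 / 10000)
    hR hA hS f0 (by linarith only [f4]) ?_ f7 (by norm_num) (outR_inv (by linarith only [hDp, D1]) (by linarith only [hρ, f4]))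
    (by norm_num) (by norm_num) ?_ D1 (by norm_num) (by norm_num) (by norm_num) (by norm_num)
    (by norm_num) (by norm_num) K2 k2 k1 k3 (by norm_num) (by norm_num) ?_ ?_
    (outR_T (by norm_num) (by norm_num) (by norm_num)) (by norm_num) (by norm_num)
    (by rw [he]; linarith only [hpi]) (by linarith only [hz1]) (by linarith only [hz2]) hζ hζ2
  · exact outR_nx (x0 := 9) h0 h1 f6 (by linarith only [hρ, f4]) (by norm_num) (by norm_num) (by norm_num)
  · intro c hc0 hc1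
    nlinarith only [hc1]
  · intro s s1 s2
    have hx1 : 0 < 1 + sx (r * δ) (-n) := by linarith only [hDp, D1]
    refine (outR_h1b (inv_pos.2 hx1) ?_ h0 ?_ (by linarith only [hz1]) s1 s2).2 ?_ (by linarith only [hz2])
    · have : (1 + sx (r * δ) (-n)) * (1 + sx (r * δ) (-n))⁻¹ = 1 := mul_inv_cancel₀ hx1.ne'
      linarith only [this]
    · have h4 := outR_nx (x0 := 9) h0 h1 f6 (by linarith only [hρ, f3]) (by norm_num) (by norm_num) (by norm_num)
      rw [← div_eq_mul_inv, le_div_iff₀ hx1]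
      exact h4
    · exact outR_inv (by linarith only [hx1]) (by linarith only [hρ, f1])
  · rcases le_total (r * δ) (76 / 10) with hc | hc
    · refine outR_lam (w0 := 499 / 10 / (r * δ)) (z0 := 10367 / 10000) (d0 := 2065 / 1000) hρ0
        (by norm_num) (by linarith only [f4]) f7 (by positivity) hw2 (by norm_num) hz1 ?_
      have e : 499 / 10 / (r * δ) * (10367 / 10000) * ((2065 / 1000 - 3 / 2) *
          (r * δ + 2065 / 1000) + 2065 / 1000) = (499 / 10 * (10367 / 10000) *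
          ((2065 / 1000 - 3 / 2) * (r * δ + 2065 / 1000) + 2065 / 1000)) / (r * δ) := by
        field_simp
      rw [e, le_div_iff₀ hρ0]
      nlinarith only [mul_nonneg (sub_nonneg.2 hρ) (sub_nonneg.2 hc), mul_nonneg hρ0.le (mul_nonneg (sub_nonneg.2 hρ) (sub_nonneg.2 hc))]
    · refine outR_lam (w0 := 86122 / 100000 * (r * δ + 1 / (r * δ))) (z0 := 10367 / 10000)
        (d0 := 2065 / 1000) hρ0 (by norm_num) (by linarith only [f4]) f7 (by positivity) hw1 (by norm_num)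
        hz1 ?_
      have e : 86122 / 100000 * (r * δ + 1 / (r * δ)) * (10367 / 10000) * ((2065 / 1000 - 3 / 2) *
          (r * δ + 2065 / 1000) + 2065 / 1000) = (86122 / 100000 * ((r * δ) ^ (2 : ℕ) + 1) *
          (10367 / 10000) *
          ((2065 / 1000 - 3 / 2) * (r * δ + 2065 / 1000) + 2065 / 1000)) / (r * δ) := by
        field_simp
      rw [e, le_div_iff₀ hρ0]
      nlinarith only [mul_nonneg (mul_nonneg hρ0.le hρ0.le) (sub_nonneg.2 hc)]

theorem outR_tS {r δ y T : ℝ} (h : tS r δ y ≤ T * sG r δ y) :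
    tP 1 (sx (r * δ) y) y (1 / δ) ≤ T * sG r δ y ∧
      tP (-1) (sx (r * δ) y) (-y) (1 / δ) ≤ T * sG r δ y := by
  unfold tS at h
  have h1 : 0 ≤ tP 1 (sx (r * δ) y) y (1 / δ) := by unfold tP; positivity
  have h2 : 0 ≤ tP (-1) (sx (r * δ) y) (-y) (1 / δ) := by unfold tP; positivity
  constructor <;> linarith

/-- class B -/
theorem outR_B {r δ n ζ : ℝ} (hR : Reg2 r δ) (hA : At r δ (-n) (-eo2 r δ)) (hS : Sad2 r δ (-n))
    (h0 : 0 ≤ n) (h1 : n ≤ 1 / 2) (hG10 : 10 ≤ Gm 2 r δ) (hG20 : Gm 2 r δ < 20)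
    (he : eo2 r δ = 65 / 100 * Real.pi)
    (hζ : ζ ≤ 0) (hζ2 : -Real.pi ≤ -eo2 r δ + ζ) : Out r δ (-n) ζ (13 / 10) := by
  have hP := hR.toPar
  have hδ := hR.d0
  have hρ : 485 / 100 ≤ r * δ := (reg2_facts hR).2.2 hG20
  have hpi := tf_pi
  have hw1 := t2c_w1 hP hG10 (g := 2533 / 2500) (by norm_num)
  have hw2 := t2c_w2 hP
  have hρ0 : 0 < r * δ := by linarith only [hρ]
  obtain ⟨f0, f1, f2, f3, f4, f5, f6, f7⟩ := outR_facts (e0 := 2042 / 1000) (e1 := 2043 / 1000)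
    (ρ0 := 485 / 100) (N0 := 3575 / 10000) (d1 := 1968 / 1000) (d2 := 1989 / 1000) hA.dom h0 h1
    hA.eta (by rw [he]; linarith only [hpi]) (by rw [he]; linarith only [hpi]) (by norm_num) hρ (by norm_num)
    (by norm_num) (by norm_num) (by norm_num) (by norm_num) (by norm_num)
  have hDp : 0 < sD (r * δ) (-n) := Real.sqrt_pos.2 (sD2_pos hA.y1)
  obtain ⟨D1, D2⟩ := outR_sD (ρ := r * δ) (dl := 10204 / 10000) (x0 := 68 / 10) h0 h1
    (by norm_num) (by linarith only [hρ, f4]) (by norm_num) (by norm_num)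
  obtain ⟨_, K2⟩ := outR_K hP.r0 hδ hA.dom hS
  have hz1 : 2199 / 2000 ≤ Real.pi - eo2 r δ := by rw [he]; linarith only [hpi]
  have hz2 : Real.pi - eo2 r δ ≤ 2749 / 2500 := by rw [he]; linarith only [hpi]
  have hη : |(-eo2 r δ)| ≤ eo2 r δ := by
    rw [abs_neg, abs_of_nonneg (by rw [he]; linarith only [hpi])]
  obtain ⟨k2, k1⟩ := outR_tS (ptB r δ (-n) (-eo2 r δ) hR hA hS hη hG10 hG20)
  rw [neg_neg] at k1
  have k3 := outR_lB (by linarith only [hρ]) (by linarith only [f4]) (by linarith only [f2]) h0 f5 (by linarith only [hw1]) hw2 hz1 hz2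
    hDp D2
  have hGw := sG_w (r := r) (y := -n) hδ
  rw [← hGw] at k3
  refine outR_fin (κ := 81 / 100) (dl := 10204 / 10000) (sq := 11225 / 10000)
    (pvm := 10142 / 10000) (Cc := 115 / 100) (cm := 128 / 1000) (h := 15 / 100)
    (Kh := 21 / 10000) (Λ := 515 / 1000) (T := 6876 / 10000)
    hR hA hS f0 (by linarith only [f4]) ?_ f7 (by norm_num) (outR_inv (by linarith only [hDp, D1]) (by linarith only [hρ, f4]))
    (by norm_num) (by norm_num) ?_ D1 (by norm_num) (by norm_num) (by norm_num) (by norm_num)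
    (by norm_num) (by norm_num) K2 k2 k1 k3 (by norm_num) (by norm_num) ?_ ?_
    (outR_T (by norm_num) (by norm_num) (by norm_num)) (by norm_num) (by norm_num)
    (by rw [he]; linarith only [hpi]) (by linarith only [hz1]) (by linarith only [hz2]) hζ hζ2
  · exact outR_nx (x0 := 68 / 10) h0 h1 f6 (by linarith only [hρ, f4]) (by norm_num) (by norm_num) (by norm_num)
  · intro c hc0 hc1
    nlinarith only [mul_nonneg (mul_nonneg hc0 hc0) (sub_nonneg.2 hc1)]
  · intro s s1 s2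
    have hx1 : 0 < 1 + sx (r * δ) (-n) := by linarith only [hDp, D1]
    refine (outR_h1b (inv_pos.2 hx1) ?_ h0 ?_ (by linarith only [hz1]) s1 s2).2 ?_ (by linarith only [hz2])
    · have : (1 + sx (r * δ) (-n)) * (1 + sx (r * δ) (-n))⁻¹ = 1 := mul_inv_cancel₀ hx1.ne'
      linarith only [this]
    · have h4 := outR_nx (x0 := 68 / 10) h0 h1 f6 (by linarith only [hρ, f4]) (by norm_num) (by norm_num)
        (by norm_num)
      rw [← div_eq_mul_inv, le_div_iff₀ hx1]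
      exact h4
    · exact outR_inv (by linarith only [hx1]) (by linarith only [hρ, f4])
  · rcases le_total (r * δ) 7 with hc | hc
    · refine outR_lam (w0 := 499 / 10 / (r * δ)) (z0 := 2199 / 2000) (d0 := 1968 / 1000) hρ0
        (by norm_num) (by linarith only [f4]) f7 (by positivity) hw2 (by norm_num) hz1 ?_
      have e : 499 / 10 / (r * δ) * (2199 / 2000) * ((1968 / 1000 - 3 / 2) *
          (r * δ + 1968 / 1000) + 1968 / 1000) = (499 / 10 * (2199 / 2000) *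
          ((1968 / 1000 - 3 / 2) * (r * δ + 1968 / 1000) + 1968 / 1000)) / (r * δ) := by
        field_simp
      rw [e, le_div_iff₀ hρ0]
      nlinarith only [hc, mul_nonneg (sub_nonneg.2 hρ) (sub_nonneg.2 hc)]
    · refine outR_lam (w0 := 2533 / 2500 * (r * δ + 1 / (r * δ))) (z0 := 2199 / 2000)
        (d0 := 1968 / 1000) hρ0 (by norm_num) (by linarith only [f4]) f7 (by positivity) hw1 (by norm_num)
        hz1 ?_
      have e : 2533 / 2500 * (r * δ + 1 / (r * δ)) * (2199 / 2000) * ((1968 / 1000 - 3 / 2) *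
          (r * δ + 1968 / 1000) + 1968 / 1000) = (2533 / 2500 * ((r * δ) ^ (2 : ℕ) + 1) *
          (2199 / 2000) *
          ((1968 / 1000 - 3 / 2) * (r * δ + 1968 / 1000) + 1968 / 1000)) / (r * δ) := by
        field_simp
      rw [e, le_div_iff₀ hρ0]
      nlinarith only [mul_nonneg (mul_nonneg hρ0.le hρ0.le) (sub_nonneg.2 hc)]

/-- class A -/
theorem outR_A {r δ n ζ : ℝ} (hR : Reg2 r δ) (hA : At r δ (-n) (-eo2 r δ)) (hS : Sad2 r δ (-n))
    (h0 : 0 ≤ n) (h1 : n ≤ 1 / 2) (hG20 : 20 ≤ Gm 2 r δ)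
    (he : eo2 r δ = 60 / 100 * Real.pi)
    (hζ : ζ ≤ 0) (hζ2 : -Real.pi ≤ -eo2 r δ + ζ) : Out r δ (-n) ζ (13 / 10) := by
  have hP := hR.toPar
  have hδ := hR.d0
  have hρ := hR.rho
  have hpi := tf_pi
  have hw1 := t2c_w1 hP hG20 (g := 2533 / 1250) (by norm_num)
  have hw2 := t2c_w2 hP
  have hρ0 : 0 < r * δ := by linarith only [hδ, hρ]
  obtain ⟨f0, f1, f2, f3, f4, f5, f6, f7⟩ := outR_facts (e0 := 18849 / 10000) (e1 := 1885 / 1000)
    (ρ0 := 16 / 5) (N0 := 4838 / 10000) (d1 := 1732 / 1000) (d2 := 1785 / 1000) hA.dom h0 h1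
    hA.eta (by rw [he]; linarith only [hpi]) (by rw [he]; linarith only [hpi]) (by norm_num) hρ (by norm_num)
    (by norm_num) (by norm_num) (by norm_num) (by norm_num) (by norm_num)
  have hDp : 0 < sD (r * δ) (-n) := Real.sqrt_pos.2 (sD2_pos hA.y1)
  obtain ⟨D1, D2⟩ := outR_sD (ρ := r * δ) (dl := 10204 / 10000) (x0 := 4932 / 1000) h0 h1
    (by norm_num) (by linarith only [hρ, f4]) (by norm_num) (by norm_num)
  obtain ⟨K1, _⟩ := outR_K hP.r0 hδ hA.dom hS
  have hex5 : Real.exp n ≤ 1 + 377 / 200 / (r * δ) := by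
    have : (1885 / 1000 : ℝ) = 377 / 200 := by norm_num
    rwa [this] at f5
  have hz1 : 6283 / 5000 ≤ Real.pi - eo2 r δ := by rw [he]; linarith only [hpi]
  have hz2 : Real.pi - eo2 r δ ≤ 12567 / 10000 := by rw [he]; linarith only [hpi]
  have hη : |(-eo2 r δ)| ≤ eo2 r δ := by
    rw [abs_neg, abs_of_nonneg (by rw [he]; linarith only [hpi])]
  obtain ⟨k2, k1⟩ := outR_tS (SokamT2.pTA r δ (-n) (-eo2 r δ) hR hA hS hη (Or.inr hG20))
  rw [neg_neg] at k1
  have k3 := outR_lA (by linarith only [hρ]) (by linarith only [f4]) (by linarith only [f2]) h0 hex5 (by linarith only [hw1]) hw2 hz1 hz2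
    hDp D2
  have hGw := sG_w (r := r) (y := -n) hδ
  rw [← hGw] at k3
  refine outR_fin (κ := 81 / 100) (dl := 10204 / 10000) (sq := 11225 / 10000)
    (pvm := 10142 / 10000) (Cc := 115 / 100) (cm := 1686 / 10000) (h := 9 / 100)
    (Kh := 407 / 10000) (Λ := 585 / 1000) (T := 6414 / 10000)
    hR hA hS f0 (by linarith only [f4]) ?_ f7 (by norm_num) (outR_inv (by linarith only [hDp, D1]) (by linarith only [hρ, f3]))
    (by norm_num) (by norm_num) ?_ D1 (by norm_num) (by norm_num) (by norm_num) (by norm_num)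
    (by norm_num) (by norm_num) K1 k2 k1 k3 (by norm_num) (by norm_num) ?_ ?_
    (outR_T (by norm_num) (by norm_num) (by norm_num)) (by norm_num) (by norm_num)
    (by rw [he]; linarith only [hpi]) (by linarith only [hz1]) (by linarith only [hz2]) hζ hζ2
  · exact outR_nx (x0 := 498 / 100) h0 h1 f6 (by linarith only [hρ, f4]) (by norm_num) (by norm_num)
      (by norm_num)
  · intro c hc0 hc1
    nlinarith only [hc1]
  · intro s s1 s2
    have hx1 : 0 < 1 + sx (r * δ) (-n) := by linarith only [hDp, D1]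
    refine (outR_h1b (inv_pos.2 hx1) ?_ h0 ?_ (by linarith only [hz1]) s1 s2).1 ?_ (by linarith only [hz2])
    · have : (1 + sx (r * δ) (-n)) * (1 + sx (r * δ) (-n))⁻¹ = 1 := mul_inv_cancel₀ hx1.ne'
      linarith only [this]
    · have h4 := outR_nx (x0 := 498 / 100) h0 h1 f6 (by linarith only [hρ, f4]) (by norm_num) (by norm_num)
        (by norm_num)
      rw [← div_eq_mul_inv, le_div_iff₀ hx1]
      exact h4
    · exact outR_inv (by linarith only [hx1]) (by linarith only [hρ, f4])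
  · rcases le_total (r * δ) (49 / 10) with hc | hc
    · refine outR_lam (w0 := 499 / 10 / (r * δ)) (z0 := 6283 / 5000) (d0 := 1732 / 1000) hρ0
        (by norm_num) (by linarith only [f4]) f7 (by positivity) hw2 (by norm_num) hz1 ?_
      have e : 499 / 10 / (r * δ) * (6283 / 5000) * ((1732 / 1000 - 3 / 2) *
          (r * δ + 1732 / 1000) + 1732 / 1000) = (499 / 10 * (6283 / 5000) *
          ((1732 / 1000 - 3 / 2) * (r * δ + 1732 / 1000) + 1732 / 1000)) / (r * δ) := by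
        field_simp
      rw [e, le_div_iff₀ hρ0]
      nlinarith only [hc, mul_nonneg (sub_nonneg.2 hρ) (sub_nonneg.2 hc)]
    · refine outR_lam (w0 := 2533 / 1250 * (r * δ + 1 / (r * δ))) (z0 := 6283 / 5000)
        (d0 := 1732 / 1000) hρ0 (by norm_num) (by linarith only [f4]) f7 (by positivity) hw1 (by norm_num)
        hz1 ?_
      have e : 2533 / 1250 * (r * δ + 1 / (r * δ)) * (6283 / 5000) * ((1732 / 1000 - 3 / 2) *
          (r * δ + 1732 / 1000) + 1732 / 1000) = (2533 / 1250 * ((r * δ) ^ (2 : ℕ) + 1) *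
          (6283 / 5000) *
          ((1732 / 1000 - 3 / 2) * (r * δ + 1732 / 1000) + 1732 / 1000)) / (r * δ) := by
        field_simp
      rw [e, le_div_iff₀ hρ0]
      nlinarith only [mul_nonneg (mul_nonneg hρ0.le hρ0.le) (sub_nonneg.2 hc)]

/-- **`P2.outR`** -/
theorem p2_outR : ∀ (r δ y ζ : ℝ), Reg2 r δ → At r δ y (-eo2 r δ) → Sad2 r δ y →
    ζ ≤ 0 → -Real.pi ≤ -eo2 r δ + ζ → Out r δ y ζ (13 / 10) := by
  intro r δ y ζ hR hA hS hζ hζ2
  obtain ⟨n, rfl⟩ : ∃ n, y = -n := ⟨-y, by ring⟩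
  have hpi := Real.pi_pos
  have heo : 0 ≤ eo2 r δ := by
    rcases eo2_cases hR with ⟨_, _, he⟩ | ⟨_, _, he⟩ | ⟨_, _, he⟩ <;> rw [he] <;> positivity
  have h0 : 0 ≤ n := by
    have := G2R.y_nonpos hA.dom (by rw [hA.eta]; linarith only [heo])
    linarith only [this]
  have h1 : n ≤ 1 / 2 := by
    have := hS.lo
    linarith only [this]
  rcases lt_or_ge (Gm 2 r δ) 10 with hG | hG
  · have he : eo2 r δ = 67 / 100 * Real.pi := by
      unfold eo2 om2
      rw [hst_two, if_pos hG]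
      ring
    rcases lt_or_ge (Gm 2 r δ) (17 / 2) with hG8 | hG8
    · exact outR_C hR hA hS h0 h1 hG8 he hζ hζ2
    · exact outR_D hR hA hS h0 h1 hG8 hG he hζ hζ2
  · rcases lt_or_ge (Gm 2 r δ) 20 with hG20 | hG20
    · have he : eo2 r δ = 65 / 100 * Real.pi := by
        unfold eo2 om2
        rw [hst_two, if_neg (not_lt.2 hG), if_pos hG20]
        ring
      exact outR_B hR hA hS h0 h1 hG hG20 he hζ hζ2
    · have he : eo2 r δ = 60 / 100 * Real.pi := by
        unfold eo2 om2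
        rw [hst_two, if_neg (not_lt.2 hG), if_neg (not_lt.2 hG20)]
        ring
      exact outR_A hR hA hS h0 h1 hG20 he hζ hζ2

end SokamV3

end
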