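import Pool.Agent.Lib_MP_af4de1_zy.Z42
import Pool.Agent.Lib_MP_af4de1_zy.Z49

/-! ### Lib_MP_af4de1_fu.N2C -/

section
namespace SokamF
end SokamF
/-!
# `N = 2`: the complex side

`|E(r e^(iη))|² = ∑ (2 r cos(η + δ(n-1)/2))^n/n!`, `F(z; -e^(iδ)) = ((1-i) E(iz) + (1+i) E(-iz))/2`, and the
reduction of `Dist` to the real series `S`.
-/

set_option autoImplicit false

namespace SokamFU.N2

open Filter Topology Set SokamF

/-- the point `r e^(iη)` -/
noncomputable def pt (r η : ℝ) : ℂ := (r : ℂ) * Complex.exp ((η : ℂ) * Complex.I)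

theorem norm_pt {r : ℝ} (hr : 0 ≤ r) (η : ℝ) : ‖pt r η‖ = r := by
  unfold pt
  rw [norm_mul, Complex.norm_exp_ofReal_mul_I, mul_one, Complex.norm_real, Real.norm_of_nonneg hr]

theorem pt_add_pi (r η : ℝ) : pt r (η + Real.pi) = -pt r η := by
  unfold pt
  push_cast
  rw [add_mul, Complex.exp_add, Complex.exp_pi_mul_I]
  ring

theorem tri (j : ℕ) : ((j * (j - 1) / 2 : ℕ) : ℂ) = (j : ℂ) * ((j : ℂ) - 1) / 2 := by
  rw [← Nat.choose_two_right, Nat.cast_choose_two]

/-- terms of `E(r e^(iη))` -/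
theorem term_eq (r δ η : ℝ) (j : ℕ) :
    qa δ ^ (j * (j - 1) / 2) * pt r η ^ j / (j.factorial : ℂ) =
      (r : ℂ) ^ j / (j.factorial : ℂ) *
        Complex.exp ((((j : ℝ) * η + δ * ((j : ℝ) * ((j : ℝ) - 1) / 2) : ℝ) : ℂ) * Complex.I) := by
  unfold qa pt
  rw [← Complex.exp_nat_mul, tri, mul_pow, ← Complex.exp_nat_mul]
  have : Complex.exp ((((j : ℝ) * η + δ * ((j : ℝ) * ((j : ℝ) - 1) / 2) : ℝ) : ℂ) * Complex.I) =
      Complex.exp ((j : ℂ) * ((j : ℂ) - 1) / 2 * ((δ : ℂ) * Complex.I)) *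
        Complex.exp ((j : ℂ) * ((η : ℂ) * Complex.I)) := by
    rw [← Complex.exp_add]
    congr 1
    push_cast
    ring
  rw [this]
  ring

theorem conj_term_eq (r δ η : ℝ) (j : ℕ) :
    (starRingEnd ℂ) (qa δ ^ (j * (j - 1) / 2) * pt r η ^ j / (j.factorial : ℂ)) =
      (r : ℂ) ^ j / (j.factorial : ℂ) *
        Complex.exp (-((((j : ℝ) * η + δ * ((j : ℝ) * ((j : ℝ) - 1) / 2) : ℝ) : ℂ) * Complex.I)) := by
  rw [term_eq, map_mul, ← Complex.exp_conj]
  simp only [map_div₀, map_pow, Complex.conj_ofReal, map_natCast, map_mul, Complex.conj_I]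
  congr 2
  ring

theorem anti_sum (r δ η : ℝ) (n : ℕ) :
    ∑ p ∈ Finset.HasAntidiagonal.antidiagonal n, (qa δ ^ (p.1 * (p.1 - 1) / 2) * pt r η ^ p.1 / (p.1.factorial : ℂ)) *
      (starRingEnd ℂ) (qa δ ^ (p.2 * (p.2 - 1) / 2) * pt r η ^ p.2 / (p.2.factorial : ℂ)) =
      (((2 * r * Real.cos (η + δ * ((n : ℝ) - 1) / 2)) ^ n / (n.factorial : ℝ) : ℝ) : ℂ) := by
  set Θ : ℝ := η + δ * ((n : ℝ) - 1) / 2 with hΘ
  have h1 : (((2 * r * Real.cos Θ) ^ n / (n.factorial : ℝ) : ℝ) : ℂ) =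
      (r : ℂ) ^ n / (n.factorial : ℂ) * (Complex.exp ((Θ : ℂ) * Complex.I) + Complex.exp (-((Θ : ℂ) * Complex.I))) ^ n := by
    have h2 : Complex.exp ((Θ : ℂ) * Complex.I) + Complex.exp (-((Θ : ℂ) * Complex.I)) = 2 * Complex.cos (Θ : ℂ) := by
      rw [Complex.cos]
      ring_nf
    rw [h2]
    push_cast
    rw [mul_pow, mul_pow, mul_pow]
    ring
  rw [h1, (Commute.all _ _).add_pow', Finset.mul_sum]
  refine Finset.sum_congr rfl fun p hp => ?_
  have hp' : p.1 + p.2 = n := Finset.HasAntidiagonal.mem_antidiagonal.1 hp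
  rw [term_eq, conj_term_eq, nsmul_eq_mul]
  have hch : ((n.choose p.1 : ℕ) : ℂ) = (n.factorial : ℂ) / ((p.1.factorial : ℂ) * (p.2.factorial : ℂ)) := by
    have hq : p.1.factorial * p.2.factorial * (n.choose p.1) = n.factorial := by
      have := Nat.choose_mul_factorial_mul_factorial (show p.1 ≤ n by omega)
      rw [show n - p.1 = p.2 by omega] at this
      rw [← this]; ring
    have hq1 : (p.1.factorial : ℂ) ≠ 0 := by exact_mod_cast Nat.factorial_ne_zero _
    have hq2 : (p.2.factorial : ℂ) ≠ 0 := by exact_mod_cast Nat.factorial_ne_zero _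
    rw [eq_div_iff (mul_ne_zero hq1 hq2), ← hq]
    push_cast
    ring
  rw [hch]
  have e1 : Complex.exp ((((p.1 : ℝ) * η + δ * ((p.1 : ℝ) * ((p.1 : ℝ) - 1) / 2) : ℝ) : ℂ) * Complex.I) *
      Complex.exp (-((((p.2 : ℝ) * η + δ * ((p.2 : ℝ) * ((p.2 : ℝ) - 1) / 2) : ℝ) : ℂ) * Complex.I)) =
      Complex.exp ((Θ : ℂ) * Complex.I) ^ p.1 * Complex.exp (-((Θ : ℂ) * Complex.I)) ^ p.2 := by
    rw [← Complex.exp_nat_mul, ← Complex.exp_nat_mul, ← Complex.exp_add, ← Complex.exp_add]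
    congr 1
    rw [hΘ, ← hp']
    push_cast
    ring
  have hf1 : (p.1.factorial : ℂ) ≠ 0 := by exact_mod_cast Nat.factorial_ne_zero _
  have hf2 : (p.2.factorial : ℂ) ≠ 0 := by exact_mod_cast Nat.factorial_ne_zero _
  have hf3 : (n.factorial : ℂ) ≠ 0 := by exact_mod_cast Nat.factorial_ne_zero _
  have e2 : (r : ℂ) ^ n = (r : ℂ) ^ p.1 * (r : ℂ) ^ p.2 := by rw [← pow_add, hp']
  calc (r : ℂ) ^ p.1 / (p.1.factorial : ℂ) *
          Complex.exp ((((p.1 : ℝ) * η + δ * ((p.1 : ℝ) * ((p.1 : ℝ) - 1) / 2) : ℝ) : ℂ) * Complex.I) *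
        ((r : ℂ) ^ p.2 / (p.2.factorial : ℂ) *
          Complex.exp (-((((p.2 : ℝ) * η + δ * ((p.2 : ℝ) * ((p.2 : ℝ) - 1) / 2) : ℝ) : ℂ) * Complex.I)))
      = (r : ℂ) ^ p.1 * (r : ℂ) ^ p.2 / ((p.1.factorial : ℂ) * (p.2.factorial : ℂ)) *
        (Complex.exp ((((p.1 : ℝ) * η + δ * ((p.1 : ℝ) * ((p.1 : ℝ) - 1) / 2) : ℝ) : ℂ) * Complex.I) *
          Complex.exp (-((((p.2 : ℝ) * η + δ * ((p.2 : ℝ) * ((p.2 : ℝ) - 1) / 2) : ℝ) : ℂ) * Complex.I))) := by
        field_simp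
    _ = _ := by
        rw [e1, e2]
        field_simp

theorem norm_term (r δ η : ℝ) (j : ℕ) :
    ‖qa δ ^ (j * (j - 1) / 2) * pt r η ^ j / (j.factorial : ℂ)‖ ≤ ‖pt r η‖ ^ j / (j.factorial : ℝ) :=
  norm_term_le (norm_qa δ).le _ j

/-- `|E(r e^(iη))|²` -/
theorem normSq_E (r δ η : ℝ) :
    Complex.normSq (F (qa δ) (pt r η)) =
      ∑' n : ℕ, (2 * r * Real.cos (η + δ * ((n : ℝ) - 1) / 2)) ^ n / (n.factorial : ℝ) := by
  have hs : Summable fun j : ℕ => ‖qa δ ^ (j * (j - 1) / 2) * pt r η ^ j / (j.factorial : ℂ)‖ :=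
    Summable.of_nonneg_of_le (fun _ => norm_nonneg _) (norm_term r δ η) (Real.summable_pow_div_factorial _)
  have hs2 : Summable fun j : ℕ =>
      ‖(starRingEnd ℂ) (qa δ ^ (j * (j - 1) / 2) * pt r η ^ j / (j.factorial : ℂ))‖ := by
    simpa only [Complex.norm_conj] using hs
  have h1 := tsum_mul_tsum_eq_tsum_sum_antidiagonal_of_summable_norm hs hs2
  have h2 : (∑' j : ℕ, (starRingEnd ℂ) (qa δ ^ (j * (j - 1) / 2) * pt r η ^ j / (j.factorial : ℂ))) =
      (starRingEnd ℂ) (F (qa δ) (pt r η)) := by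
    unfold F
    rw [Complex.conj_tsum]
  rw [h2] at h1
  have h3 : (F (qa δ) (pt r η)) * (starRingEnd ℂ) (F (qa δ) (pt r η)) =
      ((∑' n : ℕ, (2 * r * Real.cos (η + δ * ((n : ℝ) - 1) / 2)) ^ n / (n.factorial : ℝ) : ℝ) : ℂ) := by
    rw [Complex.ofReal_tsum, ← tsum_congr (fun n => anti_sum r δ η n), ← h1]
    rfl
  rw [Complex.mul_conj] at h3
  exact_mod_cast h3

theorem S_eq {r : ℝ} (hr : 0 ≤ r) (δ η : ℝ) :
    S r δ η = (Complex.normSq (F (qa δ) (pt r η)) - Complex.normSq (F (qa δ) (-pt r η))) / 2 := by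
  rw [← pt_add_pi, normSq_E, normSq_E]
  set f : ℕ → ℝ := fun n => (2 * r * Real.cos (η + δ * ((n : ℝ) - 1) / 2)) ^ n / (n.factorial : ℝ) with hf
  set g : ℕ → ℝ := fun n => (2 * r * Real.cos (η + Real.pi + δ * ((n : ℝ) - 1) / 2)) ^ n / (n.factorial : ℝ) with hg
  have hfs : Summable f := Summable.of_norm_bounded (Real.summable_pow_div_factorial (2 * r)) (fun n => abs_term_le hr _ n)
  have hgs : Summable g := Summable.of_norm_bounded (Real.summable_pow_div_factorial (2 * r)) (fun n => abs_term_le hr _ n)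
  have hfg : ∀ n, g n = (-1) ^ n * f n := fun n => by
    rw [hf, hg]
    simp only
    have : Real.cos (η + Real.pi + δ * ((n : ℝ) - 1) / 2) = -Real.cos (η + δ * ((n : ℝ) - 1) / 2) := by
      rw [← Real.cos_add_pi]; ring_nf
    rw [this, mul_neg, neg_pow]
    ring
  have he : Summable fun k : ℕ => f (2 * k) := hfs.comp_injective (fun a b h => by simpa using h)
  have ho : Summable fun k : ℕ => f (2 * k + 1) := hfs.comp_injective (fun a b h => by simpa using h)
  have he' : Summable fun k : ℕ => g (2 * k) := hgs.comp_injective (fun a b h => by simpa using h)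
  have ho' : Summable fun k : ℕ => g (2 * k + 1) := hgs.comp_injective (fun a b h => by simpa using h)
  rw [← tsum_even_add_odd he ho, ← tsum_even_add_odd he' ho']
  have e1 : ∑' k : ℕ, g (2 * k) = ∑' k : ℕ, f (2 * k) := tsum_congr fun k => by
    rw [hfg, Even.neg_one_pow ⟨k, by ring⟩, one_mul]
  have e2 : ∑' k : ℕ, g (2 * k + 1) = -∑' k : ℕ, f (2 * k + 1) := by
    rw [← tsum_neg]
    exact tsum_congr fun k => by rw [hfg, Odd.neg_one_pow ⟨k, rfl⟩]; ring
  have e3 : S r δ η = ∑' k : ℕ, f (2 * k + 1) := by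
    unfold S
    refine tsum_congr fun m => ?_
    rw [hf]
    unfold yy
    simp only
    congr 4
    push_cast
    ring
  rw [e1, e2, e3]
  ring

/-! ### The decomposition of `F(·; -e^(iδ))` -/

theorem coef (n : ℕ) : (-1 : ℂ) ^ (n * (n - 1) / 2) =
    ((1 - Complex.I) * Complex.I ^ n + (1 + Complex.I) * (-Complex.I) ^ n) / 2 := by
  induction n with
  | zero => simp
  | succ n ih =>
    rw [Nat.triangle_succ, pow_add, ih, pow_succ, pow_succ, neg_pow Complex.I n]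
    have h1 : ((-1 : ℂ) ^ n) * ((-1 : ℂ) ^ n) = 1 := by
      rw [← mul_pow]; simp
    have hI : Complex.I * Complex.I = -1 := Complex.I_mul_I
    linear_combination (Complex.I ^ n * (1 + Complex.I) / 2) * h1 + (Complex.I ^ n * ((-1 : ℂ) ^ n + 1) / 2) * hI

theorem qa_add_pi (δ : ℝ) : qa (δ + Real.pi) = -qa δ := by
  unfold qa
  push_cast
  rw [add_mul, Complex.exp_add, Complex.exp_pi_mul_I]
  ring

theorem F_neg (δ : ℝ) (z : ℂ) : F (-qa δ) z =
    ((1 - Complex.I) * F (qa δ) (Complex.I * z) + (1 + Complex.I) * F (qa δ) (-(Complex.I * z))) / 2 := by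
  unfold F
  rw [← tsum_mul_left, ← tsum_mul_left, ← (((summable_term (norm_qa δ).le _).mul_left _).tsum_add
    ((summable_term (norm_qa δ).le _).mul_left _)), ← tsum_div_const]
  refine tsum_congr fun n => ?_
  rw [neg_pow, coef, mul_pow, neg_pow (Complex.I * z), mul_pow, neg_pow Complex.I]
  ring

end SokamFU.N2

end

/-! ### Lib_MP_af4de1_fu.N2D -/

section
namespace SokamF
end SokamF
/-!
# `N = 2`: reduction of `Dist` to the real series
-/

set_option autoImplicit false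

namespace SokamFU.N2

open Filter Topology Set SokamF

theorem hasDerivAt_pt (r η : ℝ) : HasDerivAt (pt r) (Complex.I * pt r η) η := by
  have h1 : HasDerivAt (fun x : ℝ => ((x : ℂ) * Complex.I)) Complex.I η := by
    simpa using (Complex.ofRealCLM.hasDerivAt (x := η)).mul_const Complex.I
  have h2 := (h1.cexp).const_mul (r : ℂ)
  refine h2.congr_deriv ?_
  unfold pt
  ring

theorem hasDerivAt_Fpt (r δ η : ℝ) : HasDerivAt (fun x : ℝ => F (qa δ) (pt r x))
    (Complex.I * pt r η * F (qa δ) (qa δ * pt r η)) η := by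
  have h := (hasDerivAt_F (norm_qa δ).le (pt r η)).scomp η (hasDerivAt_pt r η)
  exact h.congr_deriv (by rw [smul_eq_mul])

theorem hasDerivAt_Fnpt (r δ η : ℝ) : HasDerivAt (fun x : ℝ => F (qa δ) (-pt r x))
    (-(Complex.I * pt r η) * F (qa δ) (qa δ * (-pt r η))) η := by
  have h := (hasDerivAt_F (norm_qa δ).le (-pt r η)).scomp η (hasDerivAt_pt r η).fun_neg
  exact h.congr_deriv (by rw [smul_eq_mul])

/-- `∂S/∂η` in terms of `E` -/
theorem J_eq {r : ℝ} (hr : 0 ≤ r) (δ η : ℝ) : -(2 * r) * J r δ η =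
    ((starRingEnd ℂ) (F (qa δ) (pt r η)) * (Complex.I * pt r η * F (qa δ) (qa δ * pt r η))).re -
    ((starRingEnd ℂ) (F (qa δ) (-pt r η)) * (-(Complex.I * pt r η) * F (qa δ) (qa δ * (-pt r η)))).re := by
  have h1 := (hasDerivAt_Fpt r δ η).norm_sq
  have h2 := (hasDerivAt_Fnpt r δ η).norm_sq
  have h3 := (h1.sub h2).div_const 2
  have h4 : (fun x => ((fun x => ‖F (qa δ) (pt r x)‖ ^ (2 : ℕ)) - fun x => ‖F (qa δ) (-pt r x)‖ ^ (2 : ℕ)) x / 2) = S r δ := by
    funext x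
    simp only [Pi.sub_apply]
    rw [S_eq hr, Complex.normSq_eq_norm_sq, Complex.normSq_eq_norm_sq]
  rw [h4] at h3
  have h6 := (hasDerivAt_S hr δ η).unique h3
  rw [h6, Complex.inner, Complex.inner]
  ring

/-! ### Periodicity -/

/-- `η'` is `η` modulo `π` -/
def Q (r δ η η' : ℝ) : Prop :=
  (S r δ η' = S r δ η ∧ J r δ η' = J r δ η ∧ pt r η' = pt r η) ∨
    (S r δ η' = -S r δ η ∧ J r δ η' = -J r δ η ∧ pt r η' = -pt r η)

theorem Q_refl (r δ η : ℝ) : Q r δ η η := Or.inl ⟨rfl, rfl, rfl⟩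

theorem Q_add (r δ η : ℝ) : Q r δ η (η + Real.pi) := Or.inr ⟨S_add_pi r δ η, J_add_pi r δ η, pt_add_pi r η⟩

theorem Q_symm {r δ η η' : ℝ} (h : Q r δ η η') : Q r δ η' η := by
  rcases h with ⟨a, b, c⟩ | ⟨a, b, c⟩
  · exact Or.inl ⟨a.symm, b.symm, c.symm⟩
  · exact Or.inr ⟨by rw [a, neg_neg], by rw [b, neg_neg], by rw [c, neg_neg]⟩

theorem Q_trans {r δ η η' η'' : ℝ} (h : Q r δ η η') (h' : Q r δ η' η'') : Q r δ η η'' := by
  rcases h with ⟨a, b, c⟩ | ⟨a, b, c⟩ <;> rcases h' with ⟨a', b', c'⟩ | ⟨a', b', c'⟩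
  · exact Or.inl ⟨a'.trans a, b'.trans b, c'.trans c⟩
  · exact Or.inr ⟨by rw [a', a], by rw [b', b], by rw [c', c]⟩
  · exact Or.inr ⟨by rw [a', a], by rw [b', b], by rw [c', c]⟩
  · exact Or.inl ⟨by rw [a', a, neg_neg], by rw [b', b, neg_neg], by rw [c', c, neg_neg]⟩

theorem Q_zmul (r δ η : ℝ) (n : ℤ) : Q r δ η (η + n * Real.pi) := by
  induction n using Int.induction_on with
  | zero => simpa using Q_refl r δ η
  | succ n ih =>
    have := Q_trans ih (Q_add r δ _)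
    convert this using 1
    push_cast; ring
  | pred n ih =>
    have h1 : Q r δ (η + ((-(n : ℤ) - 1 : ℤ) : ℝ) * Real.pi) (η + ((-(n : ℤ) : ℤ) : ℝ) * Real.pi) := by
      have := Q_add r δ (η + ((-(n : ℤ) - 1 : ℤ) : ℝ) * Real.pi)
      convert this using 1
      push_cast; ring
    exact Q_trans ih (Q_symm h1)

theorem exists_Q (r δ c η : ℝ) : ∃ η' ∈ Ico c (c + Real.pi), Q r δ η η' := by
  refine ⟨toIcoMod Real.pi_pos c η, toIcoMod_mem_Ico _ _ _, ?_⟩
  have h := Q_zmul r δ η (-toIcoDiv Real.pi_pos c η)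
  convert h using 1
  rw [toIcoMod]
  push_cast
  rw [zsmul_eq_mul]
  ring

/-! ### The reduction -/

theorem rel_of_zero {δ : ℝ} {w z : ℂ} (hw : Complex.I * z = w) (h : F (-qa δ) z = 0) :
    F (qa δ) (-w) = Complex.I * F (qa δ) w := by
  rw [F_neg, hw] at h
  have hI : Complex.I * Complex.I = -1 := Complex.I_mul_I
  linear_combination (1 - Complex.I) * h + ((F (qa δ) (-w) - F (qa δ) w) / 2) * hI

theorem S_of_zero {r δ η : ℝ} (hr : 0 ≤ r) {z : ℂ} (hw : Complex.I * z = pt r η) (h : F (-qa δ) z = 0) :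
    S r δ η = 0 := by
  rw [S_eq hr, rel_of_zero hw h, Complex.normSq_mul, Complex.normSq_I]
  ring

theorem J_of_zero {r δ η : ℝ} (hr : 0 < r) (h1 : F (qa δ) (pt r η) = 0) (h2 : F (qa δ) (-pt r η) = 0) :
    J r δ η = 0 := by
  have h := J_eq hr.le δ η
  rw [h1, h2] at h
  simp only [map_zero, zero_mul, Complex.zero_re, sub_zero] at h
  have h3 : (2 * r) * J r δ η = 0 := by linarith
  rcases mul_eq_zero.1 h3 with h4 | h4
  · linarith
  · exact h4

theorem J_of_double {r δ η : ℝ} (hr : 0 < r) {z : ℂ} (hw : Complex.I * z = pt r η) (h : F (-qa δ) z = 0)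
    (h' : F (-qa δ) (-qa δ * z) = 0) : J r δ η = 0 := by
  have e1 := rel_of_zero hw h
  have e2 := rel_of_zero (w := -(qa δ * pt r η)) (z := -qa δ * z) (by rw [← hw]; ring) h'
  rw [neg_neg] at e2
  have e3 := J_eq hr.le δ η
  have hI : Complex.I * Complex.I = -1 := Complex.I_mul_I
  have e4 : F (qa δ) (qa δ * (-pt r η)) = -Complex.I * F (qa δ) (qa δ * pt r η) := by
    rw [e2, mul_neg]
    linear_combination F (qa δ) (-(qa δ * pt r η)) * hI
  rw [e1, e4] at e3
  have e5 : (starRingEnd ℂ) (Complex.I * F (qa δ) (pt r η)) *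
      (-(Complex.I * pt r η) * (-Complex.I * F (qa δ) (qa δ * pt r η))) =
      (starRingEnd ℂ) (F (qa δ) (pt r η)) * (Complex.I * pt r η * F (qa δ) (qa δ * pt r η)) := by
    rw [map_mul, Complex.conj_I]
    linear_combination (-(starRingEnd ℂ) (F (qa δ) (pt r η)) * Complex.I * pt r η * F (qa δ) (qa δ * pt r η)) * hI
  rw [e5, sub_self] at e3
  have h3 : (2 * r) * J r δ η = 0 := by linarith
  rcases mul_eq_zero.1 h3 with h4 | h4
  · linarith
  · exact h4

/-- The reduction: `S = 0 → J > 0` in a half circle implies `Dist`. -/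
theorem dist_of {r δ c : ℝ} (hr : 0 < r) (h : ∀ η ∈ Ico c (c + Real.pi), S r δ η = 0 → 0 < J r δ η) :
    Dist (δ + Real.pi) r := by
  have hpt : ∀ z : ℂ, ‖z‖ = r → ∃ η, Complex.I * z = pt r η := fun z hz => by
    refine ⟨Complex.arg (Complex.I * z), ?_⟩
    have h1 : ‖Complex.I * z‖ = r := by rw [norm_mul, Complex.norm_I, one_mul, hz]
    unfold pt
    rw [← h1, Complex.norm_mul_exp_arg_mul_I]
  have hJ : ∀ η, S r δ η = 0 → J r δ η ≠ 0 := fun η hη => by
    obtain ⟨η', hm, hQ⟩ := exists_Q r δ c η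
    rcases hQ with ⟨a, b, _⟩ | ⟨a, b, _⟩
    · have := h η' hm (by rw [a, hη])
      rw [← b]
      exact this.ne'
    · have := h η' hm (by rw [a, hη, neg_zero])
      intro h0
      rw [b, h0, neg_zero] at this
      exact lt_irrefl _ this
  intro z hz hF
  rw [qa_add_pi] at hF ⊢
  obtain ⟨η, hη⟩ := hpt z hz
  refine ⟨?_, fun z' hz' hF' => ?_⟩
  · rw [deriv_F (by rw [norm_neg, norm_qa])]
    intro h0
    exact hJ η (S_of_zero hr.le hη hF) (J_of_double hr hη hF h0)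
  · obtain ⟨η', hη'⟩ := hpt z' hz'
    obtain ⟨a, ham, haQ⟩ := exists_Q r δ c η
    obtain ⟨b, hbm, hbQ⟩ := exists_Q r δ c η'
    have hS1 := S_of_zero hr.le hη hF
    have hS2 := S_of_zero hr.le hη' hF'
    have hSa : S r δ a = 0 := by
      rcases haQ with ⟨e, _, _⟩ | ⟨e, _, _⟩ <;> rw [e, hS1] <;> simp
    have hSb : S r δ b = 0 := by
      rcases hbQ with ⟨e, _, _⟩ | ⟨e, _, _⟩ <;> rw [e, hS2] <;> simp
    have hab : a = b := by
      rcases lt_trichotomy a b with hlt | heq | hlt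
      · exact (unique_of hr h ham hbm hlt hSa hSb).elim
      · exact heq
      · exact (unique_of hr h hbm ham hlt hSb hSa).elim
    have hI : Complex.I ≠ 0 := Complex.I_ne_zero
    have hcase : z' = z ∨ z' = -z := by
      have h1 : pt r a = Complex.I * z ∨ pt r a = -(Complex.I * z) := by
        rcases haQ with ⟨_, _, e⟩ | ⟨_, _, e⟩
        · left; rw [e, hη]
        · right; rw [e, hη]
      have h2 : pt r a = Complex.I * z' ∨ pt r a = -(Complex.I * z') := by
        rw [hab]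
        rcases hbQ with ⟨_, _, e⟩ | ⟨_, _, e⟩
        · left; rw [e, hη']
        · right; rw [e, hη']
      rcases h1 with h1 | h1 <;> rcases h2 with h2 | h2 <;> rw [h1] at h2
      · left; exact (mul_left_cancel₀ hI h2).symm
      · right
        have : Complex.I * z' = Complex.I * (-z) := by rw [mul_neg, h2, neg_neg]
        exact mul_left_cancel₀ hI this
      · right
        have : Complex.I * z' = Complex.I * (-z) := by rw [mul_neg, ← h2]
        exact mul_left_cancel₀ hI this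
      · left
        exact (mul_left_cancel₀ hI (neg_injective h2)).symm
    rcases hcase with hc | hc
    · exact hc
    · exfalso
      rw [hc] at hF'
      have e1 := rel_of_zero hη hF
      have e2 := rel_of_zero (w := -pt r η) (z := -z) (by rw [mul_neg, hη]) hF'
      rw [neg_neg] at e2
      have hII : Complex.I * Complex.I = -1 := Complex.I_mul_I
      have e3 : F (qa δ) (pt r η) = 0 := by
        have : F (qa δ) (pt r η) = -F (qa δ) (pt r η) := by
          calc F (qa δ) (pt r η) = Complex.I * F (qa δ) (-pt r η) := e2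
            _ = Complex.I * Complex.I * F (qa δ) (pt r η) := by rw [e1, mul_assoc]
            _ = _ := by rw [hII, neg_one_mul]
        exact self_eq_neg.1 this
      have e4 : F (qa δ) (-pt r η) = 0 := by rw [e1, e3, mul_zero]
      exact hJ η hS1 (J_of_zero hr e3 e4)

end SokamFU.N2

end

/-! ### Lib_MP_af4de1_fu.N2G -/

section
/-!
# `N = 2`: the zone `η ∈ [-π/2, 0]`, `ρ ∈ [1/2, 1.4]`: `S > 0`
-/

set_option autoImplicit false

namespace SokamFU.N2

open Filter Topology Set Real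

theorem good_or_tail {r δ η β : ℝ} (hr : 40 ≤ r) (hδ : 0 < δ) (hρ : r * δ ≤ 1.4) (h1 : -(π / 2) ≤ η)
    (hη : η ≤ -(β * (r * δ))) (m : ℕ) :
    -(exp ((1.0606 - 1.48 * β) * r) * exp (-(0.02 * m))) ≤ yy r δ η m := by
  by_cases hm : η + m * δ ≤ π / 2
  · have : 0 ≤ yy r δ η m := yy_nonneg (by linarith)
      (cos_nonneg_of_mem_Icc ⟨by nlinarith only [hδ, h1], hm⟩)
    have : 0 ≤ exp ((1.0606 - 1.48 * β) * r) * exp (-(0.02 * m)) := by positivity
    linarith
  · rw [not_le] at hm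
    have h3 := tail1 (by linarith) hδ hρ hη hm.le
    have := neg_abs_le (yy r δ η m)
    linarith

theorem main_ge {r δ η c κ : ℝ} {m : ℕ} (hr : 40 ≤ r) (hκ : 0 ≤ κ) (h1 : (m : ℝ) ≤ r / 2) (h2 : r / 2 < m + 1)
    (hc : c ≤ cos (η + m * δ)) (hκc : exp κ * (r + 1) ≤ 2 * r * c * exp 1) :
    exp (κ * (r - 1)) / (exp 1 * (r + 1)) ≤ yy r δ η m := by
  have h3 : exp κ * ((2 * m + 1 : ℕ) : ℝ) ≤ 2 * r * cos (η + m * δ) * exp 1 := by
    calc exp κ * ((2 * m + 1 : ℕ) : ℝ) ≤ exp κ * (r + 1) := by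
          push_cast
          gcongr
          linarith
      _ ≤ 2 * r * c * exp 1 := hκc
      _ ≤ 2 * r * cos (η + m * δ) * exp 1 := by gcongr
  have h4 := le_pow_fact (by omega : 1 ≤ 2 * m + 1) (exp_pos κ).le h3
  refine le_trans ?_ h4
  have h5 : exp (κ * (r - 1)) ≤ exp κ ^ (2 * m + 1) := by
    rw [← exp_nat_mul]
    apply exp_le_exp.2
    push_cast
    nlinarith only [hκ, h2]
  gcongr
  push_cast
  linarith

theorem exp_lin {r x : ℝ} (hr : 40 ≤ r) (hx : 0.2794 * r - 2.34 ≤ x) : 51 * (r + 1) < exp x := by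
  have h8 : (2978 : ℝ) ≤ exp 8 := by
    have h1 : exp 8 = exp 1 ^ (8 : ℕ) := by rw [← exp_nat_mul]; norm_num
    rw [h1]
    calc (2978 : ℝ) ≤ 2.718 ^ (8 : ℕ) := by norm_num
      _ ≤ exp 1 ^ (8 : ℕ) := by
        have := Real.exp_one_gt_d9
        gcongr
        linarith
  have h2 := add_one_le_exp (x - 8)
  have h3 : exp x = exp 8 * exp (x - 8) := by rw [← exp_add]; ring_nf
  rw [h3]
  have h4 : 0 < x - 8 + 1 := by linarith
  calc 51 * (r + 1) < 2978 * (x - 8 + 1) := by linarith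
    _ ≤ exp 8 * exp (x - 8) := by gcongr

theorem final1 {r a b : ℝ} (hr : 40 ≤ r) (h : 0.2794 * r - 2.34 ≤ a - 1 - b) :
    0 < exp a / (exp 1 * (r + 1)) - exp b * ((1 + 0.02) / 0.02) := by
  have h1 := exp_lin hr h
  have h2 : exp (a - 1 - b) = exp a / (exp 1 * exp b) := by
    rw [exp_sub, exp_sub]; field_simp
  rw [h2, lt_div_iff₀ (by positivity)] at h1
  rw [sub_pos, lt_div_iff₀ (by (clear * - hr; positivity))]
  norm_num
  linarith

theorem exp_034 : exp 0.34 ≤ 1.405 := by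
  have h := Real.exp_bound' (x := 0.34) (by norm_num) (by norm_num) (n := 6) (by norm_num)
  refine h.trans ?_
  norm_num [Finset.sum_range_succ, Nat.factorial]

theorem exp_02 : exp 0.2 ≤ 1.2215 := by
  have h := Real.exp_bound' (x := 0.2) (by norm_num) (by norm_num) (n := 6) (by norm_num)
  refine h.trans ?_
  norm_num [Finset.sum_range_succ, Nat.factorial]

theorem Z1B {r δ η : ℝ} (hr : 40 ≤ r) (hδ : 0 < δ) (hρ : r * δ ≤ 1.4) (h1 : -(r * δ) ≤ η) (h2 : η ≤ 0) :
    0 < S r δ η := by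
  have hπ := Real.pi_gt_d6
  have hπ2 := Real.pi_lt_d6
  have hr0 : 0 ≤ r := by linarith
  have hδ2 : δ ≤ 0.035 := by nlinarith only [hr, hρ]
  set m : ℕ := ⌊r / 2⌋₊ with hm
  have hm1 : (m : ℝ) ≤ r / 2 := Nat.floor_le (by linarith)
  have hm2 : r / 2 < m + 1 := Nat.lt_floor_add_one _
  have h3 := S_ge (r := r) (δ := δ) (η := η) hr0 (exp_pos ((1.0606 - 1.48 * 0) * r)).le (by norm_num : (0 : ℝ) < 0.02)
    (good_or_tail hr hδ hρ (by linarith) (by linarith)) m
  have hc : 0.729 ≤ cos (η + m * δ) := by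
    have h4 : |η + m * δ| ≤ 0.735 := by
      rw [abs_le]
      constructor
      · nlinarith only [hρ, h1, hδ2, hm1, hm2]
      · nlinarith only [hρ, h2, hδ2, hm1]
    have h5 := Real.one_sub_sq_div_two_le_cos (x := η + m * δ)
    have h6 : (η + m * δ) ^ (2 : ℕ) ≤ 0.735 ^ (2 : ℕ) := by
      rw [← sq_abs]
      gcongr
    norm_num at h6 ⊢
    linarith
  have h4 := main_ge (κ := 1.34) hr (by norm_num) hm1 hm2 hc (by
    have e1 : exp 1.34 = exp 0.34 * exp 1 := by rw [← exp_add]; norm_num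
    have e2 := exp_034
    have e3 := exp_pos 1
    rw [e1]
    have e4 : exp 0.34 * (r + 1) ≤ 2 * r * 0.729 := by
      calc exp 0.34 * (r + 1) ≤ 1.405 * (r + 1) := by gcongr
        _ ≤ 2 * r * 0.729 := by linarith
    calc exp 0.34 * exp 1 * (r + 1) = (exp 0.34 * (r + 1)) * exp 1 := by ring
      _ ≤ (2 * r * 0.729) * exp 1 := by gcongr)
  have h5 := final1 (a := 1.34 * (r - 1)) (b := (1.0606 - 1.48 * 0) * r) hr (by linarith)
  linarith

theorem Z1C {r δ η : ℝ} (hr : 40 ≤ r) (hδ : 0 < δ) (hρ1 : 1 / 2 ≤ r * δ) (hρ : r * δ ≤ 1.4) (h1 : -(π / 2) ≤ η)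
    (h2 : η ≤ -(r * δ)) : 0 < S r δ η := by
  have hπ := Real.pi_gt_d6
  have hπ2 := Real.pi_lt_d6
  have hr0 : 0 ≤ r := by linarith
  have hδ2 : δ ≤ 0.035 := by nlinarith only [hr, hρ]
  set m : ℕ := ⌊r / 2⌋₊ with hm
  have hm1 : (m : ℝ) ≤ r / 2 := Nat.floor_le (by linarith)
  have hm2 : r / 2 < m + 1 := Nat.lt_floor_add_one _
  have h3 := S_ge (r := r) (δ := δ) (η := η) hr0 (exp_pos ((1.0606 - 1.48 * 1) * r)).le (by norm_num : (0 : ℝ) < 0.02)
    (good_or_tail hr hδ hρ (by linarith) (by linarith)) m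
  have hc : 0.235 ≤ cos (η + m * δ) := by
    have h4 : 0.235 ≤ sin 0.2375 := by
      have := Real.sin_gt_sub_cube (x := 0.2375) (by norm_num)
      refine le_trans ?_ this.le
      norm_num
    refine h4.trans (sin_le_cos ?_ (by linarith))
    have h5 : 0.2375 ≤ m * δ := by nlinarith only [hr, hρ1, hm2]
    have h6 : m * δ ≤ 0.5 * (r * δ) := by nlinarith only [hδ, hm1]
    rw [abs_le]
    constructor
    · linarith
    · linarith
  have h4 := main_ge (κ := 0.2) hr (by norm_num) hm1 hm2 hc (by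
    have e2 := exp_02
    have e3 := Real.exp_one_gt_d9
    calc exp 0.2 * (r + 1) ≤ 1.2215 * (r + 1) := by gcongr
      _ ≤ 2 * r * 0.235 * 2.718 := by linarith
      _ ≤ 2 * r * 0.235 * exp 1 := by gcongr; linarith)
  have h5 := final1 (a := 0.2 * (r - 1)) (b := (1.0606 - 1.48 * 1) * r) hr (by linarith)
  linarith

/-- zone `[-π/2, 0]` -/
theorem Z1 {r δ η : ℝ} (hr : 40 ≤ r) (hδ : 0 < δ) (hρ : r * δ ≤ 1.4) (h1 : -(π / 2) ≤ η) (h2 : η ≤ 0) :
    0 < S r δ η := by
  rcases le_total (r * δ) (1 / 2) with h | h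
  · exact Z1A hr hδ h h1 h2
  · rcases le_total η (-(r * δ)) with h' | h'
    · exact Z1C hr hδ h hρ h1 h'
    · exact Z1B hr hδ hρ h' h2

end SokamFU.N2

end

/-! ### Lib_MP_af4de1_fu.N2H -/

section
/-!
# `N = 2`: the zone `η ∈ [π - 1.5 ρ, π/2]`: `S < 0`
-/

set_option autoImplicit false

namespace SokamFU.N2

open Filter Topology Set Real

theorem S_le {r δ η : ℝ} (hr : 0 ≤ r) {C a x : ℝ} (hC : 0 ≤ C) (ha : 0 < a) (hx : 0 ≤ x)
    (h : ∀ m : ℕ, yy r δ η m ≤ C * exp (-(a * m)) + x ^ (2 * m + 1) / ((2 * m + 1).factorial : ℝ)) (k : ℕ) :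
    S r δ η ≤ yy r δ η k + C * ((1 + a) / a) + exp x := by
  have hs := summable_yy hr δ η
  have hg := (summable_geo ha).mul_left C
  have hsx := summable_odd x
  have h1 := ((hg.add hsx).sub hs).le_tsum k (fun j _ => by linarith only [h j])
  rw [(hg.add hsx).tsum_sub hs, hg.tsum_add hsx, tsum_mul_left] at h1
  have h2 := mul_le_mul_of_nonneg_left (tsum_geo_le ha) hC
  have h3 : 0 ≤ C * exp (-(a * k)) := by (clear * - hC; positivity)
  have h4 : S r δ η = ∑' m, yy r δ η m := rfl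
  have h5 : 0 ≤ x ^ (2 * k + 1) / ((2 * k + 1).factorial : ℝ) := by (clear * - hx; positivity)
  have h6 : ∑' m : ℕ, x ^ (2 * m + 1) / ((2 * m + 1).factorial : ℝ) ≤ exp x := by
    rw [← Real.sinh_eq_tsum]
    rw [Real.sinh_eq]
    have := exp_pos x
    have := exp_pos (-x)
    linarith
  linarith

theorem upper2 {r δ η : ℝ} (hr : 40 ≤ r) (hδ : 0 < δ) (hρ : r * δ ≤ 1.4) (h1 : π - 1.5 * (r * δ) ≤ η)
    (h2 : η ≤ π / 2) (m : ℕ) :
    yy r δ η m ≤ exp (1.069 * r) * exp (-(0.05 * m)) +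
      (2 * r * 0.507) ^ (2 * m + 1) / ((2 * m + 1).factorial : ℝ) := by
  have hπ := Real.pi_gt_d6
  have hπ2 := Real.pi_lt_d6
  have hr0 : 0 ≤ r := by linarith only [hr]
  have hmδ : 0 ≤ (m : ℝ) * δ := by (clear * - hδ; positivity)
  have p1 : 0 ≤ exp (1.069 * r) * exp (-(0.05 * m)) := by positivity
  have p2 : 0 ≤ (2 * r * 0.507) ^ (2 * m + 1) / ((2 * m + 1).factorial : ℝ) := by (clear * - hr; positivity)
  by_cases hm : η + m * δ ≤ π / 2
  · have hc : cos (η + m * δ) ≤ 0.507 := by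
      have e1 : cos (η + m * δ) ≤ cos (π / 3 - 0.006) :=
        cos_le_cos_of_nonneg_of_le_pi (by linarith only [hπ]) (by linarith only [hπ, hm]) (by linarith only [hρ, h1, hπ, hmδ])
      have e2 : cos (π / 3 - 0.006) ≤ 0.506 := by
        rw [cos_sub, cos_pi_div_three]
        have e3 := cos_le_one 0.006
        have e4 : sin 0.006 ≤ 0.006 := sin_le (by norm_num)
        have e5 : 0 ≤ sin 0.006 := sin_nonneg_of_nonneg_of_le_pi (by norm_num) (by linarith only [hπ])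
        have e6 := sin_le_one (π / 3)
        nlinarith only [e3, e4, e5, e6]
      linarith only [e1, e2]
    have hc0 : 0 ≤ cos (η + m * δ) := cos_nonneg_of_mem_Icc ⟨by linarith only [hρ, h1, hπ, hmδ], hm⟩
    have : yy r δ η m ≤ (2 * r * 0.507) ^ (2 * m + 1) / ((2 * m + 1).factorial : ℝ) := by
      unfold yy
      gcongr
    linarith only [p1, this]
  · rw [not_le] at hm
    by_cases hm2 : η + m * δ ≤ 3 * π / 2
    · have : yy r δ η m ≤ 0 := yy_nonpos hr0 (cos_nonpos_of_pi_div_two_le_of_le hm.le (by linarith only [hm2]))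
      linarith only [p1, p2, this]
    · rw [not_le] at hm2
      have h3 := abs_yy_le hr0 δ η 1 m
      have h4 : -(1 * (2 * (m : ℝ) + 1)) + 2 * r * |cos (η + m * δ)| * exp 1 ≤ 1.069 * r + -(0.05 * m) := by
        have h5 : 2 * r * |cos (η + m * δ)| * exp 1 ≤ 2 * r * 1 * 2.7183 := by
          have := Real.exp_one_lt_d9
          gcongr
          · exact abs_cos_le_one _
          · linarith only [this]
        have h6 : π ≤ m * δ := by linarith only [h2, hm2]
        have h7 : 3.141592 * r ≤ 1.4 * m := by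
          have e1 : r * π ≤ r * (m * δ) := mul_le_mul_of_nonneg_left h6 hr0
          have e2 : r * (m * δ) ≤ 1.4 * m := by
            have := mul_le_mul_of_nonneg_right hρ (Nat.cast_nonneg m : (0 : ℝ) ≤ m)
            linarith only [this]
          nlinarith only [hπ, e1, e2]
        linarith only [h5, h7]
      have h10 := (exp_le_exp.2 h4)
      rw [exp_add (1.069 * r)] at h10
      have := le_abs_self (yy r δ η m)
      linarith only [p2, h3, h10, this]

theorem main2 {r δ η : ℝ} {m : ℕ} (hr : 40 ≤ r) (hδ : 0 < δ) (hρ : r * δ ≤ 1.4) (h1 : π - 1.5 * (r * δ) ≤ η)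
    (h2 : η ≤ π / 2) (hm1 : m * δ ≤ π - η) (hm2 : π - η < (m + 1) * δ) :
    yy r δ η m ≤ -(0.92 * (exp (1.5 * r - 1.02) / (exp 1 * (3 * r + 1)))) := by
  have hπ := Real.pi_gt_d6
  have hπ2 := Real.pi_lt_d6
  have hr0 : 0 < r := by linarith only [hr]
  have hδ2 : δ ≤ 0.035 := by nlinarith only [hr, hρ]
  obtain ⟨c, hc⟩ : ∃ c, c = -cos (η + m * δ) := ⟨_, rfl⟩
  have hc1 : 1 - δ ^ (2 : ℕ) / 2 ≤ c := by
    rw [hc, ← cos_pi_sub]
    refine le_trans ?_ (Real.one_sub_sq_div_two_le_cos (x := π - (η + m * δ)))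
    have e1 : 0 ≤ π - (η + m * δ) := by linarith only [hm1]
    have e2 : π - (η + m * δ) ≤ δ := by linarith only [hm2]
    nlinarith only [e1, e2]
  have hyy : yy r δ η m = -(c ^ (2 * m + 1) * ((2 * r) ^ (2 * m + 1) / ((2 * m + 1).factorial : ℝ))) := by
    unfold yy
    have : cos (η + m * δ) = -c := by rw [hc]; ring
    rw [this, mul_neg, Odd.neg_pow ⟨m, rfl⟩, mul_pow]
    ring
  have hn1 : ((2 * m + 1 : ℕ) : ℝ) ≤ 3 * r + 1 := by
    push_cast
    have e1 : (m : ℝ) * δ ≤ (1.5 * r) * δ := by linarith only [h1, hm1]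
    have := le_of_mul_le_mul_right e1 hδ
    linarith only [this]
  have hn2 : r - 1 ≤ ((2 * m + 1 : ℕ) : ℝ) := by
    push_cast
    have e1 : π / 2 < (m + 1) * δ := by linarith only [h2, hm2]
    have e2 : r * (π / 2) ≤ 1.4 * (m + 1) := by
      calc r * (π / 2) ≤ r * ((m + 1) * δ) := by gcongr
        _ = (r * δ) * (m + 1) := by ring
        _ ≤ 1.4 * (m + 1) := by gcongr
    nlinarith only [hρ, h2, hm1, hm2, hπ]
  have hcn : 0.92 ≤ c ^ (2 * m + 1) := by
    have e1 : 1 + ((2 * m + 1 : ℕ) : ℝ) * (-(δ ^ (2 : ℕ) / 2)) ≤ (1 + (-(δ ^ (2 : ℕ) / 2))) ^ (2 * m + 1) :=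
      one_add_mul_le_pow (by nlinarith only [hr, hδ, hρ]) _
    have e2 : (1 + (-(δ ^ (2 : ℕ) / 2))) ^ (2 * m + 1) ≤ c ^ (2 * m + 1) :=
      pow_le_pow_left₀ (by nlinarith only [hr, hδ, hρ]) (by linarith only [hc1]) _
    have e3 : ((2 * m + 1 : ℕ) : ℝ) * (δ ^ (2 : ℕ) / 2) ≤ 0.08 := by
      calc ((2 * m + 1 : ℕ) : ℝ) * (δ ^ (2 : ℕ) / 2) ≤ (3 * r + 1) * (δ ^ (2 : ℕ) / 2) := by gcongr
        _ = (3 * (r * δ) + δ) * (δ / 2) := by ring
        _ ≤ (3 * 1.4 + 0.035) * (0.035 / 2) := by gcongr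
        _ ≤ 0.08 := by norm_num
    linarith only [e1, e2, e3]
  have hmain : exp (1.5 * r - 1.02) / (exp 1 * (3 * r + 1)) ≤ (2 * r) ^ (2 * m + 1) / ((2 * m + 1).factorial : ℝ) := by
    set n : ℕ := 2 * m + 1 with hn
    have hn0 : (0 : ℝ) < n := by rw [hn]; (clear * -; positivity)
    have e1 : exp (2 - n / (2 * r)) * n ≤ 2 * r * exp 1 := by
      have e2 := add_one_le_exp ((n : ℝ) / (2 * r) - 1)
      have e3 : (n : ℝ) / (2 * r) ≤ exp ((n : ℝ) / (2 * r) - 1) := by linarith only [e2]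
      rw [div_le_iff₀ (by (clear * - hr; positivity))] at e3
      have e4 : exp (2 - n / (2 * r)) * exp ((n : ℝ) / (2 * r) - 1) = exp 1 := by
        rw [← exp_add]; ring_nf
      calc exp (2 - n / (2 * r)) * n ≤ exp (2 - n / (2 * r)) * (exp ((n : ℝ) / (2 * r) - 1) * (2 * r)) := by gcongr
        _ = (exp (2 - n / (2 * r)) * exp ((n : ℝ) / (2 * r) - 1)) * (2 * r) := by ring
        _ = 2 * r * exp 1 := by rw [e4]; ring
    have e5 := le_pow_fact (by omega : 1 ≤ n) (exp_pos _).le e1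
    refine le_trans ?_ e5
    have e6 : exp (1.5 * r - 1.02) ≤ exp (2 - n / (2 * r)) ^ n := by
      rw [← exp_nat_mul]
      apply exp_le_exp.2
      have e7 : (n : ℝ) * (2 - n / (2 * r)) = (n * (4 * r - n)) / (2 * r) := by
        field_simp
        ring
      rw [e7, le_div_iff₀ (by (clear * - hr; positivity))]
      linarith only [hr, mul_nonneg (sub_nonneg.2 hn1) (sub_nonneg.2 hn2)]
    gcongr
  rw [hyy]
  apply neg_le_neg
  gcongr

theorem Z2 {r δ η : ℝ} (hr : 40 ≤ r) (hδ : 0 < δ) (hρ : r * δ ≤ 1.4) (h1 : π - 1.5 * (r * δ) ≤ η)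
    (h2 : η ≤ π / 2) : S r δ η < 0 := by
  have hπ := Real.pi_gt_d6
  have hr0 : 0 < r := by linarith only [hr]
  set m : ℕ := ⌊(π - η) / δ⌋₊ with hm
  have hm1 : (m : ℝ) * δ ≤ π - η := by
    rw [← le_div_iff₀ hδ]
    exact Nat.floor_le (div_nonneg (by linarith only [h2, hπ]) hδ.le)
  have hm2 : π - η < (m + 1) * δ := by
    rw [← div_lt_iff₀ hδ]
    exact Nat.lt_floor_add_one _
  have h3 := main2 hr hδ hρ h1 h2 hm1 hm2
  have h4 := S_le hr0.le (exp_pos (1.069 * r)).le (by norm_num : (0 : ℝ) < 0.05)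
    (by positivity : 0 ≤ 2 * r * 0.507) (upper2 hr hδ hρ h1 h2) m
  have h5 : exp (2 * r * 0.507) ≤ exp (1.069 * r) := exp_le_exp.2 (by linarith only [hr0])
  have h6 := exp_lin (r := r) (x := 0.431 * r - 3.02) hr (by linarith only [hr])
  have h7 : exp (0.431 * r - 3.02) = exp (1.5 * r - 1.02) / (exp 1 * exp (1.069 * r)) * exp (-1) := by
    rw [← exp_add, ← exp_sub, ← exp_add]; ring_nf
  have h8 : exp (-1) ≤ 0.5 := by
    rw [exp_neg, ← one_div, div_le_iff₀ (exp_pos _)]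
    have := Real.exp_one_gt_d9
    linarith only [this]
  have h9 : 102 * (r + 1) < exp (1.5 * r - 1.02) / (exp 1 * exp (1.069 * r)) := by
    have e1 : 0 < exp (1.5 * r - 1.02) / (exp 1 * exp (1.069 * r)) := by positivity
    rw [h7] at h6
    nlinarith only [h6, h8, e1]
  rw [lt_div_iff₀ (by positivity)] at h9
  have h10 : 22 * exp (1.069 * r) < 0.92 * (exp (1.5 * r - 1.02) / (exp 1 * (3 * r + 1))) := by
    rw [← mul_div_assoc, lt_div_iff₀ (by (clear * - hr; positivity))]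
    have e1 : 0 < exp 1 * exp (1.069 * r) := by positivity
    linarith only [h9, e1, mul_pos e1 hr0]
  have e : ((1 : ℝ) + 0.05) / 0.05 = 21 := by norm_num
  rw [e] at h4
  linarith only [h3, h4, h5, h10]

end SokamFU.N2

end

/-! ### Lib_MP_af4de1_fu.N2 -/

section
/-!
# `N = 2`: `Dist α r` for `|α - π| r ≤ 1.4`, `r ≥ 40`
-/

set_option autoImplicit false

namespace SokamFU.N2

open Filter Topology Set Real

/-- the key property for `δ > 0` -/
theorem key {r δ η : ℝ} (hr : 40 ≤ r) (hδ : 0 < δ) (hρ : r * δ ≤ 1.4) (h1 : -(π / 2) ≤ η) (h2 : η ≤ π / 2)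
    (h0 : S r δ η = 0) : 0 < J r δ η := by
  rcases le_total η 0 with h | h
  · exact absurd h0 (Z1 hr hδ hρ h1 h).ne'
  · rcases le_total η (π - 1.5 * (r * δ)) with h' | h'
    · exact ZG hr hδ hρ h h2 h'
    · exact absurd h0 (Z2 hr hδ hρ h' h2).ne

/-! ### Reflection -/

theorem S_neg (r δ η : ℝ) : S r (-δ) (-η) = S r δ η := by
  unfold S
  refine tsum_congr fun m => ?_
  unfold yy
  have h : cos (-η + m * -δ) = cos (η + m * δ) := by
    rw [← cos_neg]; ring_nf
  rw [h]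

theorem J_neg (r δ η : ℝ) : J r (-δ) (-η) = -J r δ η := by
  unfold J
  rw [← tsum_neg]
  refine tsum_congr fun m => ?_
  unfold uu
  have h : cos (-η + m * -δ) = cos (η + m * δ) := by
    rw [← cos_neg]; ring_nf
  have h2 : sin (-η + m * -δ) = -sin (η + m * δ) := by
    rw [← sin_neg]; ring_nf
  rw [h, h2, neg_mul]

theorem S_pi_sub (r δ η : ℝ) : S r δ (π - η) = -S r (-δ) η := by
  have h1 := S_add_pi r δ (-η)
  have h2 := S_neg r (-δ) η
  rw [neg_neg] at h2
  have h3 : -η + π = π - η := by ring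
  rw [h3] at h1
  rw [h1, h2]

theorem J_pi_sub (r δ η : ℝ) : J r δ (π - η) = J r (-δ) η := by
  have h1 := J_add_pi r δ (-η)
  have h2 := J_neg r (-δ) η
  rw [neg_neg] at h2
  have h3 : -η + π = π - η := by ring
  rw [h3] at h1
  rw [h1, h2, neg_neg]

/-! ### `δ = 0` -/

theorem key_zero {r η : ℝ} (hr : 40 ≤ r) (h1 : 0 ≤ η) (h2 : η < π) (h0 : S r 0 η = 0) : 0 < J r 0 η := by
  have hr0 : 0 ≤ r := by linarith
  rcases eq_or_lt_of_le h1 with h | h
  · exfalso
    rw [← h] at h0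
    have h3 : 2 * r ≤ S r 0 0 := by
      have := (summable_yy hr0 0 0).le_tsum 0 (fun j _ => yy_nonneg hr0 (by simp))
      have h4 : yy r 0 0 0 = 2 * r := by unfold yy; simp
      rw [h4] at this
      exact this
    linarith
  · have h3 : 0 < sin η := sin_pos_of_pos_of_lt_pi h h2
    have h4 : J r 0 η = sin η * ∑' m : ℕ, uu r 0 η m := by
      unfold J
      rw [← tsum_mul_left]
      exact tsum_congr fun m => by simp
    have h5 : 1 ≤ ∑' m : ℕ, uu r 0 η m := by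
      have := (summable_uu hr0 0 η).le_tsum 0 (fun j _ => uu_nonneg _ _ _ _)
      have h6 : uu r 0 η 0 = 1 := by unfold uu; simp
      rw [h6] at this
      exact this
    rw [h4]
    positivity

/-- **The case `N = 2`, `ρ ≤ 1.4`.** -/
theorem dist_N2 {α r : ℝ} (hr : 40 ≤ r) (h : |α - π| * r ≤ 1.4) : Dist α r := by
  obtain ⟨δ, rfl⟩ : ∃ δ, α = δ + π := ⟨α - π, by ring⟩
  rw [add_sub_cancel_right] at h
  have hr0 : 0 < r := by linarith
  rcases lt_trichotomy δ 0 with hδ | hδ | hδ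
  · rw [abs_of_neg hδ] at h
    apply dist_of (c := π / 2) hr0
    intro η hη h0
    have h1 : J r (-δ) (π - η) = J r δ η := by rw [J_pi_sub, neg_neg]
    have h2 : S r (-δ) (π - η) = 0 := by rw [S_pi_sub, neg_neg, h0, neg_zero]
    rw [← h1]
    exact key hr (by linarith) (by linarith) (by linarith [hη.2]) (by linarith [hη.1]) h2
  · subst hδ
    apply dist_of (c := 0) hr0
    intro η hη h0
    exact key_zero hr hη.1 (by simpa using hη.2) h0
  · rw [abs_of_pos hδ] at h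
    apply dist_of (c := -(π / 2)) hr0
    intro η hη h0
    exact key hr hδ (by linarith) hη.1 (by linarith [hη.2]) h0

end SokamFU.N2

end

/-! ### Lib_MP_af4de1_fu.N2P -/

section
/-!
# `N = 2`: `Dist α r` for `|α - π| r ≤ 3.2`, `r ≥ 49`
-/

set_option autoImplicit false

namespace SokamFU.N2

open Filter Topology Set Real

/-- zone `-0.72 ρ ≤ η ≤ π - 1.3 ρ`: `J > 0` -/
theorem ZG2 {r δ η : ℝ} (hr : 49 ≤ r) (hδ : 0 < δ) (hρ1 : 1.4 ≤ r * δ) (hρ2 : r * δ ≤ 3.2)
    (h1 : -(0.72 * (r * δ)) ≤ η) (h2 : η ≤ π - 1.3 * (r * δ)) : 0 < J r δ η := by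
  have hπ := Real.pi_gt_d6
  have hπ2 := Real.pi_lt_d6
  have hr0 : 0 < r := by linarith
  have hδ2 : δ ≤ 0.0654 := by
    have : 49 * δ ≤ r * δ := mul_le_mul_of_nonneg_right hr hδ.le
    linarith
  obtain ⟨Λ, rfl⟩ : ∃ Λ, η = π - Λ := ⟨π - η, by ring⟩
  have hΛ1 : 1.3 * (r * δ) ≤ Λ := by linarith
  have hΛ2 : Λ ≤ π + 0.72 * (r * δ) := by linarith
  obtain ⟨m, hm1, hm2⟩ : ∃ m : ℕ, (m : ℝ) * δ ≤ Λ ∧ Λ < (m + 1) * δ := by
    refine ⟨⌊Λ / δ⌋₊, ?_, ?_⟩
    · rw [← le_div_iff₀ hδ]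
      exact Nat.floor_le (div_nonneg (by linarith) hδ.le)
    · rw [← div_lt_iff₀ hδ]
      exact Nat.lt_floor_add_one _
  have hmr : 1.3 * r < m + 1 := by
    have : (1.3 * r) * δ < (m + 1) * δ := by linarith
    exact lt_of_mul_lt_mul_right this hδ.le
  -- the shift
  obtain ⟨s, N, hs1, hs2, hNM, hN1, hN2⟩ : ∃ s N : ℕ, 1 ≤ s ∧ s ≤ 2 ∧ N + s = m + 1 ∧
      0 ≤ 2 * Λ - (N + ((m + 1 : ℕ) : ℝ)) * δ ∧ 2 * Λ - (N + ((m + 1 : ℕ) : ℝ)) * δ ≤ δ := by
    rcases le_total ((2 * m + 1) * δ) (2 * Λ) with h | h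
    · refine ⟨1, m, le_rfl, by norm_num, rfl, ?_, ?_⟩ <;> push_cast <;> linarith
    · obtain ⟨k, rfl⟩ : ∃ k, m = k + 1 := ⟨m - 1, by
        have : (1 : ℝ) ≤ m := by linarith
        have : 1 ≤ m := by exact_mod_cast this
        omega⟩
      push_cast at h hm1 hm2
      refine ⟨2, k, by norm_num, le_rfl, by ring, ?_, ?_⟩ <;> push_cast <;> linarith
  have hNr : (N : ℝ) + s = m + 1 := by exact_mod_cast hNM
  have hsr : (s : ℝ) ≤ 2 := by exact_mod_cast hs2
  have hsr1 : (1 : ℝ) ≤ s := by exact_mod_cast hs1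
  have hNδ : (N : ℝ) * δ + s * δ = m * δ + δ := by rw [← add_mul, hNr]; ring
  have hN1' : 0 ≤ 2 * Λ - (N * δ + (m * δ + δ)) := by push_cast at hN1; linarith
  have hN2' : 2 * Λ - (N * δ + (m * δ + δ)) ≤ δ := by push_cast at hN2; linarith
  -- the number of pairs
  obtain ⟨K, hK1, hK2⟩ : ∃ K : ℕ, (K : ℝ) * δ ≤ 0.5 ∧ 0.5 < (K + 1) * δ := by
    refine ⟨⌊0.5 / δ⌋₊, ?_, ?_⟩
    · rw [← le_div_iff₀ hδ]
      exact Nat.floor_le (div_nonneg (by norm_num) hδ.le)
    · rw [← div_lt_iff₀ hδ]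
      exact Nat.lt_floor_add_one _
  have hK0 : 1 ≤ K := by
    by_contra h
    have : K = 0 := by omega
    rw [this] at hK2
    push_cast at hK2
    linarith
  have hKr : (K : ℝ) ≤ 0.36 * r := by
    have a1 : 1.4 * K ≤ (r * δ) * K := by gcongr
    have a2 : r * (K * δ) ≤ r * 0.5 := by gcongr
    linarith
  have hKN : K + 1 ≤ N := by
    have : (K : ℝ) + 1 ≤ N := by linarith
    exact_mod_cast this
  set f : ℕ → ℝ := fun i => sin (π - Λ + i * δ) * uu r δ (π - Λ) i with hf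
  -- pairs
  have hpair : ∀ j ∈ Finset.range K, |f (m + 1 + j)| ≤ exp (-0.05) * f (N - j) := by
    intro j hj
    have hj1 : j + 1 ≤ K := by have := Finset.mem_range.1 hj; omega
    have hj2 : ((j : ℝ) + 1) * δ ≤ 0.5 := by
      have : (j : ℝ) + 1 ≤ K := by exact_mod_cast hj1
      exact (mul_le_mul_of_nonneg_right this hδ.le).trans hK1
    have hjδ : 0 ≤ (j : ℝ) * δ := by positivity
    have hjN : j + 1 ≤ N := by omega
    have e1 : ((N - j : ℕ) : ℝ) = N - j := by rw [Nat.cast_sub (by omega)]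
    have h := pairB (r := r) (δ := δ) (Λ := Λ) (N := N - j) (k := s + 2 * j) hr hδ hρ1 hρ2 hΛ1 hΛ2 (by omega) (by omega)
      (by rw [e1]; push_cast; linarith)
      (by rw [e1]; push_cast; linarith)
      (by rw [e1]; push_cast; linarith)
      (by rw [e1]; push_cast; linarith)
    have e2 : N - j + (s + 2 * j) = m + 1 + j := by omega
    rw [e2] at h
    exact h
  -- far terms
  have hfar : ∀ j : ℕ, |f (m + 1 + (K + j))| ≤ V r (m + 1) * exp (-(0.24 * r)) * exp (-(0.12 * j)) := by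
    intro j
    have hKj : 0.4346 ≤ ((K + j : ℕ) : ℝ) * δ := by
      push_cast
      have hjδ : 0 ≤ (j : ℝ) * δ := by positivity
      linarith
    have h := farB (r := r) (δ := δ) (Λ := Λ) (M := m + 1) (j := K + j) hr hδ hρ2 hΛ1
      (by push_cast; linarith) (by push_cast; linarith) hKj
    refine h.trans ?_
    have hV := V_pos hr0 (m + 1)
    apply mul_le_mul_of_nonneg_left _ (by positivity)
    apply exp_le_exp.2
    push_cast
    have : (0 : ℝ) ≤ K := by positivity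
    linarith
  have hpart := partner (r := r) (δ := δ) (Λ := Λ) (s := s) (N := N) (M := m + 1) hr hδ hρ1 hρ2 hΛ1 hΛ2 hs1 hs2 hNM
    (by push_cast; linarith) (by push_cast; linarith) hN1 hN2
  -- positivity of the partners
  have hpos : ∀ i : ℕ, 0 ≤ π - Λ + i * δ → i < m + 1 → 0 ≤ f i := by
    intro i hi0 hi
    have hi' : (i : ℝ) ≤ m := by
      have : i ≤ m := by omega
      exact_mod_cast this
    apply mul_nonneg _ (uu_nonneg _ _ _ _)
    apply sin_nonneg_of_nonneg_of_le_pi hi0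
    have := mul_le_mul_of_nonneg_right hi' hδ.le
    linarith
  have hfN : ∀ j ∈ Finset.range K, 0 ≤ f (N - j) := by
    intro j hj
    have hj1 : j + 1 ≤ K := by have := Finset.mem_range.1 hj; omega
    have hj2 : ((j : ℝ) + 1) * δ ≤ 0.5 := by
      have : (j : ℝ) + 1 ≤ K := by exact_mod_cast hj1
      exact (mul_le_mul_of_nonneg_right this hδ.le).trans hK1
    apply hpos _ _ (by omega)
    rw [Nat.cast_sub (by omega)]
    have : (N : ℝ) * δ = (m + 1) * δ - s * δ := by rw [← hNr]; ring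
    have h3 : s * δ ≤ 2 * δ := by gcongr
    linarith
  -- the head
  have hhead : ∑ j ∈ Finset.range K, f (N - j) ≤ ∑ i ∈ Finset.range (m + 1), f i := by
    rcases le_total 0 (π - Λ) with h | h
    · apply sum_ge f (P := 0) (by simp) (by omega) _ (by omega) (by omega)
      intro i _ hi
      apply hpos i _ hi
      positivity
    · obtain ⟨p, hp1, hp2⟩ : ∃ p : ℕ, (p : ℝ) * δ ≤ -(π - Λ) ∧ -(π - Λ) < (p + 1) * δ := by
        refine ⟨⌊-(π - Λ) / δ⌋₊, ?_, ?_⟩
        · rw [← le_div_iff₀ hδ]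
          exact Nat.floor_le (div_nonneg (by linarith) hδ.le)
        · rw [← div_lt_iff₀ hδ]
          exact Nat.lt_floor_add_one _
      have hPK : p + 4 + K ≤ N + 1 := by
        have : ((p + 4 + K : ℕ) : ℝ) * δ < ((N + 1 : ℕ) : ℝ) * δ := by
          push_cast
          have a1 : (N : ℝ) * δ = (m + 1) * δ - s * δ := by rw [← hNr]; ring
          have a2 : s * δ ≤ 2 * δ := by gcongr
          linarith
        have := lt_of_mul_lt_mul_right this hδ.le
        have : p + 4 + K < N + 1 := by exact_mod_cast this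
        omega
      apply sum_ge f (P := p + 4) (Ablock hr hδ hρ2 h1 hp1 hp2) (by omega) _ (by omega) hPK
      intro i hi1 hi2
      apply hpos i _ hi2
      have : (p : ℝ) + 4 ≤ i := by exact_mod_cast hi1
      have := mul_le_mul_of_nonneg_right this hδ.le
      linarith
  -- assembly
  have hsm := summable_J hr0.le δ (π - Λ)
  have hJ : J r δ (π - Λ) = ∑' i : ℕ, f i := rfl
  have hsm1 : Summable fun j : ℕ => f (j + (m + 1)) := (summable_nat_add_iff (m + 1)).2 hsm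
  have e1 := hsm.sum_add_tsum_nat_add (m + 1)
  have e2 := hsm1.sum_add_tsum_nat_add K
  have htail : ‖∑' j : ℕ, f (j + K + (m + 1))‖ ≤ V r (m + 1) * exp (-(0.24 * r)) * ((1 + 0.12) / 0.12) := by
    have hg := (summable_geo (a := 0.12) (by norm_num)).hasSum.mul_left (V r (m + 1) * exp (-(0.24 * r)))
    refine (tsum_of_norm_bounded hg (fun j => ?_)).trans ?_
    · rw [show j + K + (m + 1) = m + 1 + (K + j) by ring]
      exact hfar j
    · have hV := V_pos hr0 (m + 1)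
      exact mul_le_mul_of_nonneg_left (tsum_geo_le (by norm_num)) (by positivity)
  have h5 := (abs_le.1 (Real.norm_eq_abs _ ▸ htail)).1
  have h6 : -(exp (-0.05) * ∑ j ∈ Finset.range K, f (N - j)) ≤ ∑ j ∈ Finset.range K, f (j + (m + 1)) := by
    rw [Finset.mul_sum, ← Finset.sum_neg_distrib]
    apply Finset.sum_le_sum
    intro j hj
    have := hpair j hj
    rw [show j + (m + 1) = m + 1 + j by ring]
    have := neg_abs_le (f (m + 1 + j))
    linarith
  have h7 : f N ≤ ∑ j ∈ Finset.range K, f (N - j) := by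
    have := Finset.single_le_sum (f := fun j => f (N - j)) (fun j hj => hfN j hj) (Finset.mem_range.2 (by omega : 0 < K))
    simpa using this
  have h8 : (1 - exp (-0.05)) * f N ≤ (1 - exp (-0.05)) * ∑ j ∈ Finset.range K, f (N - j) := by
    apply mul_le_mul_of_nonneg_left h7
    have : exp (-0.05) ≤ 1 := by rw [exp_le_one_iff]; norm_num
    linarith
  have h9 : V r (m + 1) * exp (-(0.24 * r)) * ((1 + 0.12) / 0.12) < (1 - exp (-0.05)) * f N := hpart
  rw [hJ]
  change (∑ i ∈ Finset.range (m + 1), f i) + ∑' j : ℕ, f (j + (m + 1)) = ∑' i, f i at e1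
  rw [← e1, ← e2]
  linarith

/-- **The case `N = 2`, `ρ ≤ 3.2`, `r ≥ 49`.** -/
theorem dist_N2' {α r : ℝ} (hr : 49 ≤ r) (h : |α - π| * r ≤ 3.2) : Dist α r := by
  rcases le_total (|α - π| * r) 1.4 with h' | h'
  · exact dist_N2 (by linarith) h'
  obtain ⟨δ, rfl⟩ : ∃ δ, α = δ + π := ⟨α - π, by ring⟩
  rw [add_sub_cancel_right] at h h'
  have hr0 : 0 < r := by linarith
  have key2 : ∀ {δ η : ℝ}, 0 < δ → 1.4 ≤ r * δ → r * δ ≤ 3.2 → -(1.3 * (r * δ)) ≤ η → η ≤ π - 1.3 * (r * δ) →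
      S r δ η = 0 → 0 < J r δ η := by
    intro δ η hδ a1 a2 a3 a4 a5
    rcases le_total η (-(0.72 * (r * δ))) with h6 | h6
    · exact absurd a5 (ZP hr hδ a2 a3 h6).ne'
    · exact ZG2 hr hδ a1 a2 h6 a4
  rcases lt_trichotomy δ 0 with hδ | hδ | hδ
  · rw [abs_of_neg hδ] at h h'
    apply dist_of (c := 1.3 * (r * -δ)) hr0
    intro η hη h0
    have h1 : J r (-δ) (π - η) = J r δ η := by rw [J_pi_sub, neg_neg]
    have h2 : S r (-δ) (π - η) = 0 := by rw [S_pi_sub, neg_neg, h0, neg_zero]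
    rw [← h1]
    exact key2 (by linarith) (by linarith) (by linarith) (by linarith [hη.2]) (by linarith [hη.1]) h2
  · subst hδ
    norm_num at h'
  · rw [abs_of_pos hδ] at h h'
    apply dist_of (c := -(1.3 * (r * δ))) hr0
    intro η hη h0
    exact key2 hδ (by linarith) (by linarith) hη.1 (by linarith [hη.2]) h0

end SokamFU.N2

end
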