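import Pool.Agent.Lib_MP_af4de1_zy.Z02
import Pool.Agent.Lib_MP_af4de1_zy.Z08

/-! ### Lib_MP_af4de1_fu.MScal -/

section
/-!
# Scalar inequalities for the heights, `exp · sin/cos` [FU-M14a, b, c]

All checked numerically.  Slope `1/2` (case A), slope `5/2` (case B), vertical (case R).
-/

set_option autoImplicit false

namespace SokamFU

open Real

private theorem MScal_e5 {x : ℝ} (hx : 0 ≤ x) :
    1 + x + x ^ (2 : ℕ) / 2 + x ^ (3 : ℕ) / 6 + x ^ (4 : ℕ) / 24 + x ^ (5 : ℕ) / 120 ≤ exp x := by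
  have h := Real.sum_le_exp_of_nonneg hx 6
  norm_num [Finset.sum_range_succ, Nat.factorial] at h
  linarith

private theorem MScal_en5 {x : ℝ} (hx : 0 ≤ x) :
    1 - x + x ^ (2 : ℕ) / 2 - x ^ (3 : ℕ) / 6 + x ^ (4 : ℕ) / 24 - x ^ (5 : ℕ) / 120 ≤ exp (-x) := by
  have h := SokamF1G.nonneg_of_deriv
    (f := fun x => exp (-x) - (1 - x + x ^ (2 : ℕ) / 2 - x ^ (3 : ℕ) / 6 + x ^ (4 : ℕ) / 24 - x ^ (5 : ℕ) / 120))
    (f' := fun x => (1 - x + x ^ (2 : ℕ) / 2 - x ^ (3 : ℕ) / 6 + x ^ (4 : ℕ) / 24) - exp (-x)) (fun y => by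
      have h1 := (SokamF1G.hasDerivAt_expneg y).sub ((((((hasDerivAt_const y (1 : ℝ)).sub
        (hasDerivAt_id y)).add ((hasDerivAt_pow 2 y).div_const 2)).sub
        ((hasDerivAt_pow 3 y).div_const 6)).add ((hasDerivAt_pow 4 y).div_const 24)).sub
        ((hasDerivAt_pow 5 y).div_const 120))
      refine h1.congr_deriv ?_
      push_cast
      ring) (by simp) (fun y hy => sub_nonneg.2 (SokamF1G.en_le4 hy)) hx
  simpa using h

/-! ### Case A -/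

theorem scA_sin_right {t : ℝ} (h0 : 0 ≤ t) (h1 : t ≤ 6 / 5) :
    1 / 2 * t ^ (2 : ℕ) ≤ exp t * sin (t / 2) - t / 2 := by
  have he := SokamF1G.e_ge3 h0
  have hs := SokamF1G.sin_ge3 (x := t / 2) (by positivity)
  have h3 : 0 ≤ t ^ (3 : ℕ) := by positivity
  have h4 : t ^ (4 : ℕ) ≤ 6 / 5 * t ^ (3 : ℕ) := by nlinarith only [h1, h3]
  have h5 : t ^ (5 : ℕ) ≤ 6 / 5 * t ^ (4 : ℕ) := by nlinarith only [h1, pow_nonneg h0 4]
  have hs0 : 0 ≤ t / 2 - (t / 2) ^ (3 : ℕ) / 6 := by nlinarith only [h0, h1, he]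
  have hp : (1 + t + t ^ (2 : ℕ) / 2) * (t / 2 - (t / 2) ^ (3 : ℕ) / 6) ≤ exp t * sin (t / 2) :=
    mul_le_mul (by linarith) hs hs0 (exp_pos t).le
  nlinarith only [h4, hs0, hp]

theorem scA_cos_right {t : ℝ} (h0 : 0 ≤ t) (h1 : t ≤ 6 / 5) :
    37 / 100 * t ^ (2 : ℕ) ≤ exp t * cos (t / 2) - 1 - t := by
  have he := MScal_e5 h0
  have hc := SokamF1G.cos_ge6 (x := t / 2) (by positivity)
  have h2 : 0 ≤ t ^ (2 : ℕ) := by positivity
  have h3 : 0 ≤ t ^ (3 : ℕ) := by positivity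
  have h8 : 0 ≤ t ^ (8 : ℕ) := by positivity
  have h9 : 0 ≤ t ^ (9 : ℕ) := by positivity
  have k3 : t ^ (3 : ℕ) ≤ 6 / 5 * t ^ (2 : ℕ) := by nlinarith only [h1]
  have k4 : t ^ (4 : ℕ) ≤ 6 / 5 * t ^ (3 : ℕ) := by nlinarith only [h0, k3]
  have k5 : t ^ (5 : ℕ) ≤ 6 / 5 * t ^ (4 : ℕ) := by nlinarith only [k3]
  have k6 : t ^ (6 : ℕ) ≤ 6 / 5 * t ^ (5 : ℕ) := by nlinarith only [k3, k4]
  have k7 : t ^ (7 : ℕ) ≤ 6 / 5 * t ^ (6 : ℕ) := by nlinarith only [k3, k5]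
  have k9 : t ^ (9 : ℕ) ≤ 6 / 5 * t ^ (8 : ℕ) := by nlinarith only [k3, k7]
  have k10 : t ^ (10 : ℕ) ≤ 6 / 5 * t ^ (9 : ℕ) := by nlinarith only [h9, k5, k6, k7]
  have k11 : t ^ (11 : ℕ) ≤ 6 / 5 * t ^ (10 : ℕ) := by nlinarith only [k6, k7, k9, pow_nonneg h0 10]
  have hc0 : 0 ≤ 1 - (t / 2) ^ (2 : ℕ) / 2 + (t / 2) ^ (4 : ℕ) / 24 - (t / 2) ^ (6 : ℕ) / 720 := by
    have e1 : t ^ (2 : ℕ) ≤ 36 / 25 := by nlinarith only [k3, k4]
    nlinarith only [e1, pow_nonneg h0 4]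
  have hp : (1 + t + t ^ (2 : ℕ) / 2 + t ^ (3 : ℕ) / 6 + t ^ (4 : ℕ) / 24 + t ^ (5 : ℕ) / 120) *
      (1 - (t / 2) ^ (2 : ℕ) / 2 + (t / 2) ^ (4 : ℕ) / 24 - (t / 2) ^ (6 : ℕ) / 720) ≤ exp t * cos (t / 2) :=
    mul_le_mul he hc hc0 (exp_pos t).le
  have e : (1 + t + t ^ (2 : ℕ) / 2 + t ^ (3 : ℕ) / 6 + t ^ (4 : ℕ) / 24 + t ^ (5 : ℕ) / 120) *
      (1 - (t / 2) ^ (2 : ℕ) / 2 + (t / 2) ^ (4 : ℕ) / 24 - (t / 2) ^ (6 : ℕ) / 720) =
      1 + t + 3 / 8 * t ^ (2 : ℕ) + t ^ (3 : ℕ) / 24 - 7 / 384 * t ^ (4 : ℕ) - 19 / 1920 * t ^ (5 : ℕ) +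
        (-(1 / 192) + 1 / 768 - 1 / 46080) * t ^ (6 : ℕ) +
        (-(1 / 960) + 1 / 2304 - 1 / 46080) * t ^ (7 : ℕ) +
        (1 / 9216 - 1 / 92160) * t ^ (8 : ℕ) + (1 / 46080 - 1 / 276480) * t ^ (9 : ℕ) -
        t ^ (10 : ℕ) / 1105920 - t ^ (11 : ℕ) / 5529600 := by ring
  rw [e] at hp
  linarith

theorem scA_sin_left {t : ℝ} (h0 : 0 ≤ t) (h1 : t ≤ 1) :
    32 / 100 * t ^ (2 : ℕ) ≤ t / 2 - exp (-t) * sin (t / 2) := by
  have he := SokamF1G.en_le4 h0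
  have hs := SokamF1G.sin_le5 (x := t / 2) (by positivity)
  have hs0 : 0 ≤ sin (t / 2) := sin_nonneg_of_nonneg_of_le_pi (by positivity)
    (by linarith [pi_gt_three])
  have hE0 : 0 ≤ 1 - t + t ^ (2 : ℕ) / 2 - t ^ (3 : ℕ) / 6 + t ^ (4 : ℕ) / 24 := (exp_pos (-t)).le.trans he
  have hp : exp (-t) * sin (t / 2) ≤ (1 - t + t ^ (2 : ℕ) / 2 - t ^ (3 : ℕ) / 6 + t ^ (4 : ℕ) / 24) *
      (t / 2 - (t / 2) ^ (3 : ℕ) / 6 + (t / 2) ^ (5 : ℕ) / 120) := mul_le_mul he hs hs0 hE0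
  have e : (1 - t + t ^ (2 : ℕ) / 2 - t ^ (3 : ℕ) / 6 + t ^ (4 : ℕ) / 24) *
      (t / 2 - (t / 2) ^ (3 : ℕ) / 6 + (t / 2) ^ (5 : ℕ) / 120) =
      t / 2 - t ^ (2 : ℕ) * (1 / 2 - 11 / 48 * t + t ^ (2 : ℕ) / 16 - (1 / 48 - 1 / 96 + 1 / 3840) * t ^ (3 : ℕ) -
        (1 / 288 - 1 / 3840) * t ^ (4 : ℕ) + (1 / 1152 - 1 / 7680) * t ^ (5 : ℕ) + t ^ (6 : ℕ) / 23040 -
        t ^ (7 : ℕ) / 92160) := by ring
  have k3 : t ^ (3 : ℕ) ≤ t ^ (2 : ℕ) := by nlinarith only [h1]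
  have k4 : t ^ (4 : ℕ) ≤ t ^ (3 : ℕ) := by nlinarith only [hs, hs0, k3, pow_nonneg h0 3]
  have k7 : t ^ (7 : ℕ) ≤ t ^ (6 : ℕ) := by nlinarith only [h1, pow_nonneg h0 6]
  have k6 : 0 ≤ t ^ (6 : ℕ) := by positivity
  have b5 : 5 * t - 4 ≤ t ^ (5 : ℕ) := by
    linarith only [mul_nonneg (sq_nonneg (t - 1)) (by positivity : 0 ≤ t ^ (3 : ℕ) + 2 * t ^ (2 : ℕ) + 3 * t + 4)]
  have hq : 0 ≤ 1 / 2 - 11 / 48 * t + t ^ (2 : ℕ) / 16 - (1 / 48 - 1 / 96 + 1 / 3840) * t ^ (3 : ℕ) -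
        (1 / 288 - 1 / 3840) * t ^ (4 : ℕ) + (1 / 1152 - 1 / 7680) * t ^ (5 : ℕ) + t ^ (6 : ℕ) / 23040 -
        t ^ (7 : ℕ) / 92160 - 32 / 100 := by
    nlinarith only [b5, mul_nonneg (sub_nonneg.2 h1) (by linarith : 0 ≤ 176 / 1000 - 486 / 10000 * t), mul_nonneg (sub_nonneg.2 h1) h0]
  rw [e] at hp
  linarith only [hp, mul_nonneg (sq_nonneg t) hq]

theorem scA_cos_left {t : ℝ} (h0 : 0 ≤ t) (h1 : t ≤ 1) :
    32 / 100 * t ^ (2 : ℕ) ≤ exp (-t) * cos (t / 2) - 1 + t := by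
  have he := MScal_en5 h0
  have hc := SokamF1G.cos_ge2 (x := t / 2)
  have hc0 : 0 ≤ 1 - (t / 2) ^ (2 : ℕ) / 2 := by nlinarith only [h0, h1]
  have hp : (1 - t + t ^ (2 : ℕ) / 2 - t ^ (3 : ℕ) / 6 + t ^ (4 : ℕ) / 24 - t ^ (5 : ℕ) / 120) * (1 - (t / 2) ^ (2 : ℕ) / 2) ≤
      exp (-t) * cos (t / 2) := mul_le_mul he hc hc0 (exp_pos _).le
  have e : (1 - t + t ^ (2 : ℕ) / 2 - t ^ (3 : ℕ) / 6 + t ^ (4 : ℕ) / 24 - t ^ (5 : ℕ) / 120) * (1 - (t / 2) ^ (2 : ℕ) / 2) =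
      1 - t + t ^ (2 : ℕ) * (3 / 8 - t / 24 - t ^ (2 : ℕ) / 48 + t ^ (3 : ℕ) / 80 - t ^ (4 : ℕ) / 192 + t ^ (5 : ℕ) / 960) := by
    ring
  have k4 : t ^ (4 : ℕ) ≤ t ^ (3 : ℕ) := by nlinarith only [h1, pow_nonneg h0 3]
  have b3 : 3 * t - 2 ≤ t ^ (3 : ℕ) := by
    linarith only [mul_nonneg (sq_nonneg (t - 1)) (by positivity : 0 ≤ t + 2)]
  have b5 : 5 * t - 4 ≤ t ^ (5 : ℕ) := by
    linarith only [mul_nonneg (sq_nonneg (t - 1)) (by positivity : 0 ≤ t ^ (3 : ℕ) + 2 * t ^ (2 : ℕ) + 3 * t + 4)]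
  have hq : 0 ≤ 3 / 8 - t / 24 - t ^ (2 : ℕ) / 48 + t ^ (3 : ℕ) / 80 - t ^ (4 : ℕ) / 192 + t ^ (5 : ℕ) / 960 -
      32 / 100 := by
    nlinarith only [b3, mul_nonneg (sub_nonneg.2 h1) h0]
  rw [e] at hp
  linarith only [hp, mul_nonneg (sq_nonneg t) hq]

theorem scA_sin_far {t : ℝ} (h0 : 0 ≤ t) : 0 ≤ t / 2 - exp (-t) * sin (t / 2) := by
  have h1 : sin (t / 2) ≤ t / 2 := sin_le (by positivity)
  have h2 : exp (-t) ≤ 1 := exp_le_one_iff.2 (by linarith)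
  have h3 := exp_pos (-t)
  have h4 : exp (-t) * sin (t / 2) ≤ exp (-t) * (t / 2) := mul_le_mul_of_nonneg_left h1 h3.le
  have h5 : exp (-t) * (t / 2) ≤ 1 * (t / 2) := mul_le_mul_of_nonneg_right h2 (by positivity)
  linarith

theorem scA_cos_far {t : ℝ} (h0 : 0 ≤ t) : 0 ≤ exp (-t) * cos (t / 2) - 1 + t := by
  rcases le_total t 1 with h1 | h1
  · have := scA_cos_left h0 h1
    nlinarith only [this]
  · rcases le_total t 3 with h3 | h3
    · have h4 : 0 ≤ cos (t / 2) := cos_nonneg_of_neg_pi_div_two_le_of_le (by linarith [pi_gt_three])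
        (by linarith [pi_gt_three])
      have := mul_nonneg (exp_pos (-t)).le h4
      linarith
    · have h4 : exp (-t) ≤ 1 := exp_le_one_iff.2 (by linarith)
      have h5 := neg_one_le_cos (t / 2)
      have h6 : exp (-t) * (-1) ≤ exp (-t) * cos (t / 2) :=
        mul_le_mul_of_nonneg_left h5 (exp_pos _).le
      linarith

theorem scA_sin_side {x : ℝ} (h0 : 6 / 5 ≤ x) : 0 ≤ exp x * sin (3 / 5) - 3 / 5 := by
  have h1 := add_one_le_exp x
  have h2 := SokamF1G.sin_ge3 (x := 3 / 5) (by norm_num)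
  have h3 : (1 / 2 : ℝ) ≤ sin (3 / 5) := by
    refine le_trans ?_ h2
    norm_num
  nlinarith only [h0, h1, h3]

theorem scA_cos_side {x : ℝ} (h0 : 6 / 5 ≤ x) : 0 ≤ exp x * cos (3 / 5) - 1 - x := by
  have h1 := SokamF1G.e_ge3 (x := x) (by linarith)
  have h2 := SokamF1G.cos_ge2 (x := 3 / 5)
  have h3 : (82 / 100 : ℝ) ≤ cos (3 / 5) := by
    refine le_trans ?_ h2
    norm_num
  have h4 : 1 + x + x ^ (2 : ℕ) / 2 ≤ exp x := by
    have : 0 ≤ x ^ (3 : ℕ) := pow_nonneg (by linarith) 3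
    linarith
  have h5 : (1 + x + x ^ (2 : ℕ) / 2) * (82 / 100) ≤ exp x * cos (3 / 5) :=
    mul_le_mul h4 h3 (by norm_num) (exp_pos x).le
  nlinarith only [h0, h5]

end SokamFU

end

/-! ### Lib_MP_af4de1_fu.MHypA -/

section
/-!
# Case A: hypotheses of the general estimate

`h = -(α + iβ)`, `d = -(1 + i/2)`.  `right` (`v = t(1+i/2)`): `t²/2 + α(e^t sin(t/2) - t/2) + β(e^t cos(t/2) - 1 - t)`.
`left` (`v = -t(1+i/2)`): `t²/2 + α(t/2 - e^(-t) sin(t/2)) + β(e^(-t) cos(t/2) - 1 + t)`; `far`: `t²/2 ≥ 1/2 + (t-1)`.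
`side` (`v = x + 3i/5`, `x = 6/5 + u`): `3x/5 + α(e^x sin(3/5) - 3/5) + β(e^x cos(3/5) - 1 - x)`.
`k2`, `k3`: `taylor2_ball`, `taylor3_ball` with `r = (6/5)‖d‖ = 1.3417` (`2(e^r-1-r)/r² = 1.6486`, `6(..)/r³ = 1.4502`).
-/

set_option autoImplicit false

namespace SokamFU

open Complex

private theorem hypA_exp : Real.exp (27 / 20) ≤ 387 / 100 := by
  have h1 : Real.exp (27 / 40) ≤ 1967 / 1000 := by
    have h2 := Real.exp_bound' (x := 27 / 40) (by norm_num) (by norm_num) (n := 7) (by norm_num)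
    refine h2.trans ?_
    simp only [Finset.sum_range_succ, Finset.sum_range_zero, Nat.factorial]
    norm_num
  have h3 : Real.exp (27 / 20) = Real.exp (27 / 40) * Real.exp (27 / 40) := by
    rw [← Real.exp_add]
    norm_num
  rw [h3]
  have h4 := Real.exp_pos (27 / 40 : ℝ)
  nlinarith only [h1, h4]

private theorem hypA_ff (α β x y : ℝ) : ff (-(α + β * I)) (x + y * I) =
    x * y + α * (Real.exp x * Real.sin y - y) + β * (Real.exp x * Real.cos y - 1 - x) := by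
  have h1 : (-((α : ℂ) + β * I)) = ((-α : ℝ) : ℂ) + ((-β : ℝ) : ℂ) * I := by
    push_cast
    ring
  rw [h1, ff_eq]
  ring

private theorem hypA_norm (t : ℝ) (h0 : 0 ≤ t) (h1 : t ≤ 6 / 5) :
    ‖-((t : ℂ) * (-(1 + ((1 / 2 : ℝ) : ℂ) * I)))‖ = t * ‖(-(1 + ((1 / 2 : ℝ) : ℂ) * I))‖ ∧
      t * ‖(-(1 + ((1 / 2 : ℝ) : ℂ) * I))‖ ≤ 27 / 20 := by
  constructor
  · rw [norm_neg, norm_mul, Complex.norm_real, Real.norm_of_nonneg h0]
  · have h2 : ‖(-(1 + ((1 / 2 : ℝ) : ℂ) * I))‖ ^ (2 : ℕ) = 5 / 4 := by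
      rw [norm_neg, ← Complex.normSq_eq_norm_sq]
      have h3 := Complex.normSq_add_mul_I 1 (1 / 2)
      rw [Complex.ofReal_one] at h3
      rw [h3]
      norm_num
    have h4 := norm_nonneg (-(1 + ((1 / 2 : ℝ) : ℂ) * I))
    have h5 : (t * ‖(-(1 + ((1 / 2 : ℝ) : ℂ) * I))‖) ^ (2 : ℕ) ≤ (27 / 20) ^ (2 : ℕ) := by
      rw [mul_pow, h2]
      nlinarith only [h0, h1]
    exact le_of_sq_le_sq₀ h5
where
  le_of_sq_le_sq₀ {x : ℝ} (h : x ^ (2 : ℕ) ≤ (27 / 20) ^ (2 : ℕ)) : x ≤ 27 / 20 :=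
    (abs_le_of_sq_le_sq' h (by norm_num)).2

theorem hyp_A {δ α β : ℝ} (hδ : 0 < δ) (hδ' : δ ≤ 9 / 80) (hα : 0 ≤ α) (hα' : α ≤ 127 / 100)
    (hβ : 0 ≤ β) (hβ' : β ≤ 26 / 10) :
    Hyp δ (-(α + β * I)) (-(1 + (1 / 2 : ℝ) * I)) (6 / 5) 1 1 (1 / 2 + 32 / 100 * α + 32 / 100 * β)
      (1 / 2 + 1 / 2 * α + 37 / 100 * β) (1 / 2) 1 (18 / 25) (3 / 5) (17 / 10) (3 / 2) where
  δpos := hδ
  h_ne := by
    intro h
    have h1 := congrArg Complex.re h
    simp at h1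
    linarith only [hα, h, h1]
  d_ne := by
    intro h
    have h1 := congrArg Complex.re h
    simp at h1
  d_re := by simp
  τpos := by norm_num
  Tpos := by norm_num
  TT := le_rfl
  cppos := by positivity
  cmpos := by (clear * - hα hβ; positivity)
  lpos := by norm_num
  Bpos := by norm_num
  bpos := by norm_num
  σgt := by linarith only [hδ']
  K2pos := by norm_num
  K3pos := by norm_num
  quad := by
    intro t
    have h1 : (1 - -((α : ℂ) + β * I)) * ((t : ℂ) * (-(1 + ((1 / 2 : ℝ) : ℂ) * I))) ^ (2 : ℕ) / 2 =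
        ((t ^ (2 : ℕ) * (3 / 8 * (1 + α) - β / 2) : ℝ) : ℂ) +
          ((t ^ (2 : ℕ) * (1 / 2 + 1 / 2 * α + 3 / 8 * β) : ℝ) : ℂ) * I := by
      push_cast
      linear_combination ((t : ℂ) ^ (2 : ℕ) * (1 + α) / 8 + (t : ℂ) ^ (2 : ℕ) * β / 2 + (t : ℂ) ^ (2 : ℕ) * β / 8 * I) * I_sq
    rw [h1, add_im, ofReal_im, im_ofReal_mul, I_im, mul_one, zero_add]
    have h2 : 0 ≤ t ^ (2 : ℕ) := sq_nonneg t
    rcases le_total (1 / 2 + 32 / 100 * α + 32 / 100 * β) (1 / 2 + 1 / 2 * α + 37 / 100 * β) with h | h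
    · rw [max_eq_right h]
      linarith only [mul_nonneg hβ h2]
    · rw [max_eq_left h]
      linarith only [mul_nonneg hβ h2, mul_nonneg hα h2]
  right := by
    intro t h0 h1
    have e : -((t : ℂ) * (-(1 + ((1 / 2 : ℝ) : ℂ) * I))) = (t : ℂ) + ((t / 2 : ℝ) : ℂ) * I := by
      push_cast
      ring
    rw [e, hypA_ff]
    have h2 := mul_le_mul_of_nonneg_left (scA_sin_right h0 h1) hα
    have h3 := mul_le_mul_of_nonneg_left (scA_cos_right h0 h1) hβ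
    linarith only [h2, h3]
  left := by
    intro t h0 h1
    have e : (t : ℂ) * (-(1 + ((1 / 2 : ℝ) : ℂ) * I)) = ((-t : ℝ) : ℂ) + ((-(t / 2) : ℝ) : ℂ) * I := by
      push_cast
      ring
    rw [e, hypA_ff, Real.sin_neg, Real.cos_neg]
    have h2 := mul_le_mul_of_nonneg_left (scA_sin_left h0 h1) hα
    have h3 := mul_le_mul_of_nonneg_left (scA_cos_left h0 h1) hβ
    linarith only [h2, h3]
  far := by
    intro t h1
    have h0 : 0 ≤ t := by linarith only [h1]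
    have e : (t : ℂ) * (-(1 + ((1 / 2 : ℝ) : ℂ) * I)) = ((-t : ℝ) : ℂ) + ((-(t / 2) : ℝ) : ℂ) * I := by
      push_cast
      ring
    rw [e, hypA_ff, Real.sin_neg, Real.cos_neg, max_eq_left (by linarith only [h1])]
    have h2 := mul_nonneg hα (scA_sin_far h0)
    have h3 := mul_nonneg hβ (scA_cos_far h0)
    linarith only [h2, h3, sq_nonneg (t - 1)]
  side := by
    intro u h0
    have e : -(((6 / 5 : ℝ) : ℂ) * (-(1 + ((1 / 2 : ℝ) : ℂ) * I))) + u =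
        ((6 / 5 + u : ℝ) : ℂ) + ((3 / 5 : ℝ) : ℂ) * I := by
      push_cast
      ring
    rw [e, hypA_ff]
    have h2 := mul_nonneg hα (scA_sin_side (x := 6 / 5 + u) (by linarith only [h0]))
    have h3 := mul_nonneg hβ (scA_cos_side (x := 6 / 5 + u) (by linarith only [h0]))
    linarith only [h2, h3]
  k2 := by
    intro t h0 h1
    obtain ⟨h2, h3⟩ := hypA_norm t h0 h1
    have h4 := taylor2_ball (v := -((t : ℂ) * (-(1 + ((1 / 2 : ℝ) : ℂ) * I)))) (r := 27 / 20)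
      (K := 17 / 10) (by norm_num) (by rw [h2]; exact h3) (by have := hypA_exp; linarith only [this])
    rw [h2] at h4
    exact h4
  k3 := by
    intro t h0 h1
    obtain ⟨h2, h3⟩ := hypA_norm t h0 h1
    have h4 := taylor3_ball (v := -((t : ℂ) * (-(1 + ((1 / 2 : ℝ) : ℂ) * I)))) (r := 27 / 20)
      (K := 3 / 2) (by norm_num) (by rw [h2]; exact h3) (by have := hypA_exp; linarith only [this])
    rw [h2] at h4
    exact h4

end SokamFU

end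

/-! ### Lib_MP_af4de1_fu.MEstA -/

section
/-!
# Case A: the estimate [FU-M19]

`gen_fin` with `hyp_A`, `k = 1/10`.  `H² = α² + β²`, `κ² = (1+α)² + β² ≥ 1 + H²`, `κ ≤ 3.46`, `q² = 5/4`, `cp ≥ .39 κ` (`κ` is convex: check the four vertices),
`cm ≥ .5 κ`, `cp, cm ≥ 1/2`; hence `H/κ^(3/2) ≤ .6205`, `H/κ² ≤ 1/2`.
`lowErr ≤ .014649 H (1/cp² + 1.5/cm²) + 1.11804 [δ₀ e^(-4.444) + ..] + .0004 ≤ .1843 H/κ² + .0052 ≤ .0974`,
`upErr ≤ .011685 (cp^(-3/2) + 1.7 cm^(-3/2)) + .0012 + .0017 ≤ .1042 κ^(-3/2) + .0029`.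
To show: `H upErr ≤ .1 κ (.84077/√κ - lowErr)`: `.1042·.6205 + .0029 √(κ²-1) ≤ .1 κ (.84077/√κ - .0974)` for `1.2 ≤ κ ≤ 3.46`; for `κ ≤ 1.2` with
`H ≤ √(κ²-1) ≤ .67`.
-/

set_option autoImplicit false

namespace SokamFU

open Complex

private theorem estA_exp_cubic {x : ℝ} (hx : 0 ≤ x) : 1 + x + x ^ (2 : ℕ) / 2 + x ^ (3 : ℕ) / 6 ≤ Real.exp x := by
  have h := Real.sum_le_exp_of_nonneg hx 4
  simp only [Finset.sum_range_succ, Finset.sum_range_zero, pow_zero, pow_one, Nat.factorial] at h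
  norm_num at h
  linarith only [h]

private theorem estA_e1 : Real.exp (-(1 / 2) / (9 / 80)) ≤ 1 / 84 := by
  have h1 := estA_exp_cubic (x := 4 / 9) (by norm_num)
  have h2 : Real.exp (-(1 / 2) / (9 / 80)) = (Real.exp (4 / 9) ^ (10 : ℕ))⁻¹ := by
    rw [← Real.exp_nat_mul, ← Real.exp_neg]
    congr 1
    norm_num
  rw [h2, one_div]
  apply inv_anti₀ (by norm_num)
  refine le_trans ?_ (pow_le_pow_left₀ (by norm_num) h1 10)
  norm_num

private theorem estA_e2 : Real.exp (-(18 / 25) / (9 / 80)) ≤ 1 / 576 := by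
  have h1 := estA_exp_cubic (x := 16 / 25) (by norm_num)
  have h2 : Real.exp (-(18 / 25) / (9 / 80)) = (Real.exp (16 / 25) ^ (10 : ℕ))⁻¹ := by
    rw [← Real.exp_nat_mul, ← Real.exp_neg]
    congr 1
    norm_num
  rw [h2, one_div]
  apply inv_anti₀ (by norm_num)
  refine le_trans ?_ (pow_le_pow_left₀ (by norm_num) h1 10)
  norm_num

private theorem estA_e3 : Real.exp (6 / 5 * 1 - (18 / 25) / (9 / 80)) ≤ 1 / 177 := by
  have h1 := estA_exp_cubic (x := 13 / 25) (by norm_num)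
  have h2 : Real.exp (6 / 5 * 1 - (18 / 25) / (9 / 80)) = (Real.exp (13 / 25) ^ (10 : ℕ))⁻¹ := by
    rw [← Real.exp_nat_mul, ← Real.exp_neg]
    congr 1
    norm_num
  rw [h2, one_div]
  apply inv_anti₀ (by norm_num)
  refine le_trans ?_ (pow_le_pow_left₀ (by norm_num) h1 10)
  norm_num

private theorem estA_sqrt {c κ k m : ℝ} (hk : 0 < k) (hkκ : k ^ (2 : ℕ) = κ) (hm : 0 < m) (hc : m * κ ≤ c) {w : ℝ}
    (hw : 0 ≤ w) (hw2 : 9 / 80 / m ≤ w ^ (2 : ℕ)) :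
    9 / 80 / c * Real.sqrt (9 / 80 / c) ≤ w ^ (3 : ℕ) / k ^ (3 : ℕ) := by
  have hκ : 0 < κ := by rw [← hkκ]; positivity
  have hc0 : 0 < c := (mul_pos hm hκ).trans_le hc
  have h1 : 9 / 80 / c ≤ w ^ (2 : ℕ) / k ^ (2 : ℕ) := by
    calc 9 / 80 / c ≤ 9 / 80 / (m * κ) := div_le_div_of_nonneg_left (by norm_num) (mul_pos hm hκ) hc
      _ = 9 / 80 / m / k ^ (2 : ℕ) := by
          rw [hkκ]
          field_simp
      _ ≤ w ^ (2 : ℕ) / k ^ (2 : ℕ) := div_le_div_of_nonneg_right hw2 (by (clear * - hk; positivity))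
  have h2 : Real.sqrt (9 / 80 / c) ≤ w / k := by
    apply Real.sqrt_le_iff.mpr
    refine ⟨by (clear * - hw hk; positivity), ?_⟩
    rw [div_pow]
    exact h1
  calc 9 / 80 / c * Real.sqrt (9 / 80 / c) ≤ w ^ (2 : ℕ) / k ^ (2 : ℕ) * (w / k) :=
        mul_le_mul h1 h2 (Real.sqrt_nonneg _) (by (clear * - hk; positivity))
    _ = w ^ (3 : ℕ) / k ^ (3 : ℕ) := by
        field_simp

private theorem estA_cp {α β : ℝ} (hα : 0 ≤ α) (hα' : α ≤ 127 / 100) (hβ : 0 ≤ β) (hβ' : β ≤ 26 / 10) :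
    (39 / 100) ^ (2 : ℕ) * ((1 + α) ^ (2 : ℕ) + β ^ (2 : ℕ)) ≤ (1 / 2 + 32 / 100 * α + 32 / 100 * β) ^ (2 : ℕ) := by
  have h1 := mul_nonneg hα hβ
  have h2 := mul_nonneg hα (sub_nonneg.mpr hα')
  have h3 := mul_nonneg hβ (sub_nonneg.mpr hβ')
  have e : (1 / 2 + 32 / 100 * α + 32 / 100 * β) ^ (2 : ℕ) - (39 / 100) ^ (2 : ℕ) * ((1 + α) ^ (2 : ℕ) + β ^ (2 : ℕ)) =
      979 / 10000 - 473 / 10000 * α + (8 / 25 - 12922 / 100000) * β + 497 / 10000 * (α * (127 / 100 - α)) -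
        19 / 1000000 * α + 497 / 10000 * (β * (26 / 10 - β)) + 2048 / 10000 * (α * β) := by ring
  nlinarith

private theorem estA_cm {α β : ℝ} (hα : 0 ≤ α) (hβ : 0 ≤ β) (hβ' : β ≤ 26 / 10) :
    (1 / 2) ^ (2 : ℕ) * ((1 + α) ^ (2 : ℕ) + β ^ (2 : ℕ)) ≤ (1 / 2 + 1 / 2 * α + 37 / 100 * β) ^ (2 : ℕ) := by
  have h1 := mul_nonneg hα hβ
  have h3 := mul_nonneg hβ (sub_nonneg.mpr hβ')
  nlinarith

private theorem estA_cubic {κ : ℝ} (hκ : 0 < κ) : κ ^ (2 : ℕ) - 1 ≤ (6245 / 10000) ^ (2 : ℕ) * κ ^ (3 : ℕ) := by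
  nlinarith [mul_nonneg hκ.le (sq_nonneg (κ - 17 / 10)), sq_nonneg (κ - 17 / 10)]

private theorem estA_last {k x y : ℝ} (h1 : 1 ≤ k) (h2 : k ≤ 186 / 100)
    (hx : x ≤ 10425 / 100000 * (6245 / 10000) + 29 / 10000 * k ^ (2 : ℕ))
    (hy : 8407 / 100000 * k - 974 / 100000 * k ^ (2 : ℕ) ≤ y) : x ≤ y := by
  have a4 : 0 ≤ (k - 1) * (186 / 100 - k) := mul_nonneg (by linarith only [h1]) (by linarith only [h2])
  nlinarith

private theorem estA_H2 {H κ : ℝ} (h : 1 + H ^ (2 : ℕ) ≤ κ ^ (2 : ℕ)) : H ≤ 1 / 2 * κ ^ (2 : ℕ) := by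
  nlinarith [sq_nonneg (H - 1)]

private theorem estA_low {H κ q cp cm : ℝ} (hH : 0 ≤ H) (hκ : 0 < κ) (hHκ2 : H / κ ^ (2 : ℕ) ≤ 1 / 2) (hq : 0 ≤ q)
    (hqu : q ≤ 11181 / 10000) (hq4 : q ^ (4 : ℕ) = 25 / 16) (hcp2 : 1 / 2 ≤ cp) (hcm2 : 1 / 2 ≤ cm)
    (hcpκ : 39 / 100 * κ ≤ cp) (hcmκ : 1 / 2 * κ ≤ cm) :
    lowErr (9 / 80) H q (6 / 5) 1 1 cp cm (1 / 2) 1 (18 / 25) (3 / 5) (3 / 2) ≤ 974 / 10000 := by
  have e1 := estA_e1
  have e2 := estA_e2
  have ecp : Real.exp (-(cp * 1 ^ (2 : ℕ)) / (9 / 80)) ≤ 1 / 84 := by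
    refine le_trans (Real.exp_le_exp.mpr ?_) e1
    apply div_le_div_of_nonneg_right _ (by norm_num)
    linarith only [hcp2]
  have ecm : Real.exp (-(cm * (6 / 5) ^ (2 : ℕ)) / (9 / 80)) ≤ 1 / 576 := by
    refine le_trans (Real.exp_le_exp.mpr ?_) e2
    apply div_le_div_of_nonneg_right _ (by norm_num)
    linarith only [hcm2]
  unfold lowErr
  rw [hq4]
  have i1 : 1 / cp ^ (2 : ℕ) ≤ 65747 / 10000 / κ ^ (2 : ℕ) := by
    rw [div_le_div_iff₀ (by positivity) (by (clear * - hκ; positivity))]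
    have h1 : (39 / 100 * κ) ^ (2 : ℕ) ≤ cp ^ (2 : ℕ) := pow_le_pow_left₀ (by (clear * - hκ; positivity)) hcpκ 2
    have h2 : (39 / 100 * κ) ^ (2 : ℕ) = 1521 / 10000 * κ ^ (2 : ℕ) := by ring
    have h3 : 0 ≤ κ ^ (2 : ℕ) := by positivity
    linarith only [h1, h3]
  have i2 : 3 / 2 / cm ^ (2 : ℕ) ≤ 6 / κ ^ (2 : ℕ) := by
    rw [div_le_div_iff₀ (by positivity) (by positivity)]
    have h1 : (1 / 2 * κ) ^ (2 : ℕ) ≤ cm ^ (2 : ℕ) := pow_le_pow_left₀ (by (clear * - hκ; positivity)) hcmκ 2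
    have h2 : (1 / 2 * κ) ^ (2 : ℕ) = 1 / 4 * κ ^ (2 : ℕ) := by ring
    linarith only [h1]
  have i3 : H * (25 / 16) / 12 * (1 / cp ^ (2 : ℕ) + 3 / 2 / cm ^ (2 : ℕ)) * (9 / 80) ≤ 922 / 10000 := by
    have h1 : 1 / cp ^ (2 : ℕ) + 3 / 2 / cm ^ (2 : ℕ) ≤ 125747 / 10000 / κ ^ (2 : ℕ) := by
      have h2 : 125747 / 10000 / κ ^ (2 : ℕ) = 65747 / 10000 / κ ^ (2 : ℕ) + 6 / κ ^ (2 : ℕ) := by ring
      rw [h2]
      exact add_le_add i1 i2
    have h2 : H * (1 / cp ^ (2 : ℕ) + 3 / 2 / cm ^ (2 : ℕ)) ≤ 125747 / 10000 * (1 / 2) := by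
      calc H * (1 / cp ^ (2 : ℕ) + 3 / 2 / cm ^ (2 : ℕ)) ≤ H * (125747 / 10000 / κ ^ (2 : ℕ)) := mul_le_mul_of_nonneg_left h1 hH
        _ = 125747 / 10000 * (H / κ ^ (2 : ℕ)) := by ring
        _ ≤ 125747 / 10000 * (1 / 2) := mul_le_mul_of_nonneg_left hHκ2 (by norm_num)
    linarith only [h2]
  have j1 : (1 - 1 + 9 / 80 / 1) * Real.exp (-(1 / 2) / (9 / 80)) ≤ 9 / 80 * (1 / 84) := by
    have : (1 - 1 + 9 / 80 / 1 : ℝ) = 9 / 80 := by norm_num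
    rw [this]
    exact mul_le_mul_of_nonneg_left e1 (by norm_num)
  have j2 : 9 / 80 / (cp * 1) * Real.exp (-(cp * 1 ^ (2 : ℕ)) / (9 / 80)) ≤ 9 / 40 * (1 / 84) := by
    refine mul_le_mul ?_ ecp (Real.exp_nonneg _) (by norm_num)
    rw [mul_one, div_le_iff₀ (by linarith only [hcp2])]
    linarith only [hcp2]
  have j3 : 9 / 80 / (cm * (6 / 5)) * Real.exp (-(cm * (6 / 5) ^ (2 : ℕ)) / (9 / 80)) ≤ 3 / 16 * (1 / 576) := by
    refine mul_le_mul ?_ ecm (Real.exp_nonneg _) (by norm_num)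
    rw [div_le_iff₀ (by linarith only [hcm2])]
    linarith only [hcm2]
  have j4 : 9 / 80 / (3 / 5) * Real.exp (-(18 / 25) / (9 / 80)) ≤ 3 / 16 * (1 / 576) := by
    refine mul_le_mul (by norm_num) e2 (Real.exp_nonneg _) (by norm_num)
  have j5 : q * ((1 - 1 + 9 / 80 / 1) * Real.exp (-(1 / 2) / (9 / 80)) +
      9 / 80 / (cp * 1) * Real.exp (-(cp * 1 ^ (2 : ℕ)) / (9 / 80)) +
      9 / 80 / (cm * (6 / 5)) * Real.exp (-(cm * (6 / 5) ^ (2 : ℕ)) / (9 / 80))) ≤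
      11181 / 10000 * (9 / 80 * (1 / 84) + 9 / 40 * (1 / 84) + 3 / 16 * (1 / 576)) := by
    refine mul_le_mul hqu (add_le_add (add_le_add j1 j2) j3) ?_ (by norm_num)
    have : 0 < cp := by linarith only [hcp2]
    have : 0 < cm := by linarith only [hcm2]
    have : (1 - 1 + 9 / 80 / 1 : ℝ) = 9 / 80 := by norm_num
    rw [this]
    (clear * - hcp2 hcm2; positivity)
  linarith only [i3, j4, j5]

private theorem estA_up {κ k q cp cm : ℝ} (hk : 0 < k) (hkκ : k ^ (2 : ℕ) = κ) (hq : 0 ≤ q)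
    (hqu : q ≤ 11181 / 10000) (hq2 : q ^ (2 : ℕ) = 5 / 4) (hq3 : q ^ (3 : ℕ) = 5 / 4 * q) (hcp2 : 1 / 2 ≤ cp) (hcm2 : 1 / 2 ≤ cm)
    (hcpκ : 39 / 100 * κ ≤ cp) (hcmκ : 1 / 2 * κ ≤ cm) :
    upErr (9 / 80) q 1 (6 / 5) 1 1 cp cm (1 / 2) 1 (18 / 25) (3 / 5) (17 / 10) ≤
      10425 / 100000 / k ^ (3 : ℕ) + 29 / 10000 := by
  have e1 := estA_e1
  have e3 := estA_e3
  unfold upErr
  rw [hq3]
  have hpi : Real.sqrt Real.pi ≤ 17725 / 10000 := by
    apply Real.sqrt_le_iff.mpr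
    refine ⟨by norm_num, ?_⟩
    have := Real.pi_lt_d4
    linarith only [this]
  have s1 := estA_sqrt (c := cp) (w := 5371 / 10000) hk hkκ (by norm_num : (0 : ℝ) < 39 / 100) hcpκ (by norm_num)
    (by norm_num)
  have s2 := estA_sqrt (c := cm) (w := 4744 / 10000) hk hkκ (by norm_num : (0 : ℝ) < 1 / 2) hcmκ (by norm_num)
    (by norm_num)
  have s3 : 9 / 80 / cp * Real.sqrt (9 / 80 / cp) + 17 / 10 * (9 / 80 / cm) * Real.sqrt (9 / 80 / cm) ≤
      3365 / 10000 / k ^ (3 : ℕ) := by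
    have h1 : 17 / 10 * (9 / 80 / cm) * Real.sqrt (9 / 80 / cm) ≤ 17 / 10 * ((4744 / 10000) ^ (3 : ℕ) / k ^ (3 : ℕ)) := by
      rw [mul_assoc]
      exact mul_le_mul_of_nonneg_left s2 (by norm_num)
    have h2 : (5371 / 10000) ^ (3 : ℕ) / k ^ (3 : ℕ) + 17 / 10 * ((4744 / 10000) ^ (3 : ℕ) / k ^ (3 : ℕ)) ≤ 3365 / 10000 / k ^ (3 : ℕ) := by
      have h3 : (5371 / 10000) ^ (3 : ℕ) / k ^ (3 : ℕ) + 17 / 10 * ((4744 / 10000) ^ (3 : ℕ) / k ^ (3 : ℕ)) =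
          ((5371 / 10000) ^ (3 : ℕ) + 17 / 10 * (4744 / 10000) ^ (3 : ℕ)) / k ^ (3 : ℕ) := by ring
      rw [h3]
      exact div_le_div_of_nonneg_right (by norm_num) (by positivity)
    linarith only [s1, h1, h2]
  have s4 : 5 / 4 * q * (Real.sqrt Real.pi / 8) ≤ 5 / 4 * (11181 / 10000) * (17725 / 10000 / 8) := by
    refine mul_le_mul ?_ ?_ (by (clear * -; positivity)) (by norm_num)
    · linarith only [hqu]
    · linarith only [hpi]
  have hcp0 : 0 < cp := by linarith only [hcp2]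
  have hcm0 : 0 < cm := by linarith only [hcm2]
  have t1 : 5 / 4 * q * (Real.sqrt Real.pi / 8) *
      (9 / 80 / cp * Real.sqrt (9 / 80 / cp) + 17 / 10 * (9 / 80 / cm) * Real.sqrt (9 / 80 / cm)) ≤
      10425 / 100000 / k ^ (3 : ℕ) := by
    calc 5 / 4 * q * (Real.sqrt Real.pi / 8) *
        (9 / 80 / cp * Real.sqrt (9 / 80 / cp) + 17 / 10 * (9 / 80 / cm) * Real.sqrt (9 / 80 / cm))
        ≤ 5 / 4 * (11181 / 10000) * (17725 / 10000 / 8) * (3365 / 10000 / k ^ (3 : ℕ)) :=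
          mul_le_mul s4 s3 (by (clear * - hcp2 hcm2; positivity)) (by norm_num)
      _ = (5 / 4 * (11181 / 10000) * (17725 / 10000 / 8) * (3365 / 10000)) / k ^ (3 : ℕ) := by ring
      _ ≤ 10425 / 100000 / k ^ (3 : ℕ) := div_le_div_of_nonneg_right (by norm_num) (by positivity)
  have t2 : 5 / 4 * q / 2 * ((1 ^ (3 : ℕ) - 1 ^ (3 : ℕ)) / 3 +
      9 / 80 / 1 * (1 ^ (2 : ℕ) + 2 * 1 * (9 / 80 / 1) + 2 * (9 / 80 / 1) ^ (2 : ℕ))) * Real.exp (-(1 / 2) / (9 / 80)) ≤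
      12 / 10000 := by
    calc 5 / 4 * q / 2 * ((1 ^ (3 : ℕ) - 1 ^ (3 : ℕ)) / 3 +
        9 / 80 / 1 * (1 ^ (2 : ℕ) + 2 * 1 * (9 / 80 / 1) + 2 * (9 / 80 / 1) ^ (2 : ℕ))) * Real.exp (-(1 / 2) / (9 / 80))
        ≤ 5 / 4 * (11181 / 10000) / 2 * ((1 ^ (3 : ℕ) - 1 ^ (3 : ℕ)) / 3 +
        9 / 80 / 1 * (1 ^ (2 : ℕ) + 2 * 1 * (9 / 80 / 1) + 2 * (9 / 80 / 1) ^ (2 : ℕ))) * (1 / 84) := by
          refine mul_le_mul ?_ e1 (Real.exp_nonneg _) (by norm_num)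
          refine mul_le_mul_of_nonneg_right ?_ (by norm_num)
          linarith only [hqu]
      _ ≤ 12 / 10000 := by norm_num
  have t3 : Real.exp (6 / 5 * 1 - 18 / 25 / (9 / 80)) / 2 * ((6 / 5 * q) ^ (2 : ℕ) / (3 / 5 / (9 / 80) - 1) +
      2 * (6 / 5 * q) / (3 / 5 / (9 / 80) - 1) ^ (2 : ℕ) + 2 / (3 / 5 / (9 / 80) - 1) ^ (3 : ℕ)) ≤ 17 / 10000 := by
    have u1 : (6 / 5 * q) ^ (2 : ℕ) / (3 / 5 / (9 / 80) - 1) +
      2 * (6 / 5 * q) / (3 / 5 / (9 / 80) - 1) ^ (2 : ℕ) + 2 / (3 / 5 / (9 / 80) - 1) ^ (3 : ℕ) ≤ 583 / 1000 := by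
      rw [mul_pow, hq2]
      norm_num
      linarith only [hqu]
    calc Real.exp (6 / 5 * 1 - 18 / 25 / (9 / 80)) / 2 * ((6 / 5 * q) ^ (2 : ℕ) / (3 / 5 / (9 / 80) - 1) +
        2 * (6 / 5 * q) / (3 / 5 / (9 / 80) - 1) ^ (2 : ℕ) + 2 / (3 / 5 / (9 / 80) - 1) ^ (3 : ℕ))
        ≤ (1 / 177) / 2 * (583 / 1000) := by
          refine mul_le_mul ?_ u1 ?_ (by norm_num)
          · linarith only [e3]
          · have : (0 : ℝ) < 3 / 5 / (9 / 80) - 1 := by norm_num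
            (clear * - hq; positivity)
      _ ≤ 17 / 10000 := by norm_num
  linarith only [t1, t2, t3]

/-- the numerical inequalities -/
private theorem estA_num {α β H κ k q cp cm : ℝ} (hα : 0 ≤ α) (hα' : α ≤ 127 / 100)
    (hβ : 0 ≤ β) (hβ' : β ≤ 26 / 10) (hH : 0 ≤ H) (hH2 : H ^ (2 : ℕ) = α ^ (2 : ℕ) + β ^ (2 : ℕ)) (hκ : 0 < κ)
    (hκ2 : κ ^ (2 : ℕ) = (1 + α) ^ (2 : ℕ) + β ^ (2 : ℕ)) (hk : 0 < k) (hkκ : k ^ (2 : ℕ) = κ) (hq : 0 ≤ q) (hq2 : q ^ (2 : ℕ) = 5 / 4)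
    (hcp : cp = 1 / 2 + 32 / 100 * α + 32 / 100 * β) (hcm : cm = 1 / 2 + 1 / 2 * α + 37 / 100 * β) :
    lowErr (9 / 80) H q (6 / 5) 1 1 cp cm (1 / 2) 1 (18 / 25) (3 / 5) (3 / 2) <
        Real.sqrt (2 * Real.pi * (9 / 80) / κ) ∧
      H * upErr (9 / 80) q 1 (6 / 5) 1 1 cp cm (1 / 2) 1 (18 / 25) (3 / 5) (17 / 10) ≤
        1 / 10 * κ * (Real.sqrt (2 * Real.pi * (9 / 80) / κ) -
          lowErr (9 / 80) H q (6 / 5) 1 1 cp cm (1 / 2) 1 (18 / 25) (3 / 5) (3 / 2)) := by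
  -- elementary facts
  have hcp2 : 1 / 2 ≤ cp := by rw [hcp]; linarith only [hα, hβ]
  have hcm2 : 1 / 2 ≤ cm := by rw [hcm]; linarith only [hα, hβ]
  have hcpκ : 39 / 100 * κ ≤ cp := by
    refine le_of_pow_le_pow_left₀ two_ne_zero (by linarith only [hcp2]) ?_
    rw [mul_pow, hκ2, hcp]
    exact estA_cp hα hα' hβ hβ'
  have hcmκ : 1 / 2 * κ ≤ cm := by
    refine le_of_pow_le_pow_left₀ two_ne_zero (by linarith only [hcm2]) ?_
    rw [mul_pow, hκ2, hcm]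
    exact estA_cm hα hβ hβ'
  have hκH : 1 + H ^ (2 : ℕ) ≤ κ ^ (2 : ℕ) := by
    rw [hκ2, hH2]
    linarith only [hα]
  have hκ1 : 1 ≤ κ := by
    refine le_of_pow_le_pow_left₀ two_ne_zero hκ.le ?_
    linarith only [hκH, sq_nonneg H]
  have hk1 : 1 ≤ k := by
    refine le_of_pow_le_pow_left₀ two_ne_zero hk.le ?_
    linarith only [hkκ, hκ1]
  have hκ3 : κ ≤ 3458 / 1000 := by
    refine le_of_pow_le_pow_left₀ two_ne_zero (by norm_num) ?_
    rw [hκ2]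
    have b1 : (1 + α) ^ (2 : ℕ) ≤ (227 / 100) ^ (2 : ℕ) := pow_le_pow_left₀ (by linarith only [hα]) (by linarith only [hα']) 2
    have b2 : β ^ (2 : ℕ) ≤ (26 / 10) ^ (2 : ℕ) := pow_le_pow_left₀ hβ hβ' 2
    linarith only [b1, b2]
  have hk2 : k ≤ 186 / 100 := by
    refine le_of_pow_le_pow_left₀ two_ne_zero (by norm_num) ?_
    rw [hkκ]
    linarith only [hκ3]
  have hHκ : H ≤ κ := by
    refine le_of_pow_le_pow_left₀ two_ne_zero hκ.le ?_
    linarith only [hκH]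
  have hHκ2 : H / κ ^ (2 : ℕ) ≤ 1 / 2 := by
    rw [div_le_iff₀ (by positivity)]
    exact estA_H2 hκH
  have hHk3 : H / k ^ (3 : ℕ) ≤ 6245 / 10000 := by
    rw [div_le_iff₀ (by (clear * - hk; positivity))]
    refine le_of_pow_le_pow_left₀ two_ne_zero (by (clear * - hk; positivity)) ?_
    have h1 : (6245 / 10000 * k ^ (3 : ℕ)) ^ (2 : ℕ) = (6245 / 10000) ^ (2 : ℕ) * κ ^ (3 : ℕ) := by
      rw [← hkκ]
      ring
    rw [h1]
    have h2 := estA_cubic hκ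
    linarith only [hκH, h2]
  have hqu : q ≤ 11181 / 10000 := by
    refine le_of_pow_le_pow_left₀ two_ne_zero (by norm_num) ?_
    rw [hq2]
    norm_num
  have hq3 : q ^ (3 : ℕ) = 5 / 4 * q := by
    rw [pow_succ, hq2]
  have hq4 : q ^ (4 : ℕ) = 25 / 16 := by
    have : q ^ (4 : ℕ) = (q ^ (2 : ℕ)) ^ (2 : ℕ) := by ring
    rw [this, hq2]
    norm_num
  -- the square root
  have hsq : 8407 / 10000 / k ≤ Real.sqrt (2 * Real.pi * (9 / 80) / κ) := by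
    apply Real.le_sqrt_of_sq_le
    rw [div_pow, hkκ]
    apply div_le_div_of_nonneg_right _ hκ.le
    have := Real.pi_gt_d4
    linarith only [this]
  have hlow := estA_low hH hκ hHκ2 hq hqu hq4 hcp2 hcm2 hcpκ hcmκ
  have hup := estA_up hk hkκ hq hqu hq2 hq3 hcp2 hcm2 hcpκ hcmκ
  refine ⟨?_, ?_⟩
  · refine lt_of_le_of_lt hlow (lt_of_lt_of_le ?_ hsq)
    rw [lt_div_iff₀ hk]
    linarith only [hk2]
  · have a1 : H * upErr (9 / 80) q 1 (6 / 5) 1 1 cp cm (1 / 2) 1 (18 / 25) (3 / 5) (17 / 10) ≤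
        10425 / 100000 * (6245 / 10000) + 29 / 10000 * κ := by
      calc H * upErr (9 / 80) q 1 (6 / 5) 1 1 cp cm (1 / 2) 1 (18 / 25) (3 / 5) (17 / 10)
          ≤ H * (10425 / 100000 / k ^ (3 : ℕ) + 29 / 10000) := mul_le_mul_of_nonneg_left hup hH
        _ = 10425 / 100000 * (H / k ^ (3 : ℕ)) + 29 / 10000 * H := by ring
        _ ≤ 10425 / 100000 * (6245 / 10000) + 29 / 10000 * κ := by
            refine add_le_add (mul_le_mul_of_nonneg_left hHk3 (by norm_num)) ?_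
            exact mul_le_mul_of_nonneg_left hHκ (by norm_num)
    have a2 : 1 / 10 * κ * (8407 / 10000 / k - 974 / 10000) ≤
        1 / 10 * κ * (Real.sqrt (2 * Real.pi * (9 / 80) / κ) -
          lowErr (9 / 80) H q (6 / 5) 1 1 cp cm (1 / 2) 1 (18 / 25) (3 / 5) (3 / 2)) :=
      mul_le_mul_of_nonneg_left (by linarith only [hsq, hlow]) (by (clear * - hκ; positivity))
    have a3 : 1 / 10 * κ * (8407 / 10000 / k - 974 / 10000) = 8407 / 100000 * k - 974 / 100000 * k ^ (2 : ℕ) := by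
      rw [← hkκ]
      field_simp
      ring
    rw [a3] at a2
    rw [← hkκ] at a1
    exact estA_last hk1 hk2 a1 a2

theorem est_A {δ α β : ℝ} (hδ : 0 < δ) (hδ' : δ ≤ 9 / 80) (hα : 0 ≤ α) (hα' : α ≤ 127 / 100)
    (hβ : 0 ≤ β) (hβ' : β ≤ 26 / 10) :
    JJ δ (-(α + β * I)) (6 / 5 * (1 + (1 / 2 : ℝ) * I)) (-(1 + (1 / 2 : ℝ) * I)) (fun _ => 1) ≠ 0 ∧
    ‖JJ δ (-(α + β * I)) (6 / 5 * (1 + (1 / 2 : ℝ) * I)) (-(1 + (1 / 2 : ℝ) * I)) (fun v => v)‖ ≤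
      1 / 10 * ‖JJ δ (-(α + β * I)) (6 / 5 * (1 + (1 / 2 : ℝ) * I)) (-(1 + (1 / 2 : ℝ) * I))
        (fun _ => 1)‖ := by
  have HH := hyp_A hδ hδ' hα hα' hβ hβ'
  have hH : ‖(-(α + β * I) : ℂ)‖ ^ (2 : ℕ) = α ^ (2 : ℕ) + β ^ (2 : ℕ) := by
    rw [norm_neg, Complex.norm_add_mul_I, Real.sq_sqrt (by (clear * -; positivity))]
  have hκ : ‖(1 - -(α + β * I) : ℂ)‖ ^ (2 : ℕ) = (1 + α) ^ (2 : ℕ) + β ^ (2 : ℕ) := by
    have h1 : (1 - -(α + β * I) : ℂ) = ((1 + α : ℝ) : ℂ) + (β : ℝ) * I := by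
      push_cast
      ring
    rw [h1, Complex.norm_add_mul_I, Real.sq_sqrt (by (clear * - hα; positivity))]
  have hκp : 0 < ‖(1 - -(α + β * I) : ℂ)‖ := by
    rw [norm_pos_iff, sub_ne_zero]
    exact Ne.symm HH.h_ne
  have hq : ‖(-(1 + (1 / 2 : ℝ) * I) : ℂ)‖ ^ (2 : ℕ) = 5 / 4 := by
    have h1 : (1 + (1 / 2 : ℝ) * I : ℂ) = ((1 : ℝ) : ℂ) + ((1 / 2 : ℝ) : ℂ) * I := by
      push_cast
      ring
    rw [norm_neg, h1, Complex.norm_add_mul_I, Real.sq_sqrt (by (clear * -; positivity))]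
    norm_num
  have hre : |(-(1 + (1 / 2 : ℝ) * I) : ℂ).re| = 1 := by
    have h1 : (-(1 + (1 / 2 : ℝ) * I) : ℂ).re = -1 := by simp
    rw [h1, abs_neg, abs_one]
  obtain ⟨n1, n2⟩ := estA_num hα hα' hβ hβ' (norm_nonneg _) hH hκp hκ (Real.sqrt_pos.mpr hκp)
    (Real.sq_sqrt hκp.le) (norm_nonneg _) hq rfl rfl
  have key := gen_fin HH hδ' (by norm_num) (by norm_num) (by norm_num) (by norm_num : (0 : ℝ) ≤ 1 / 10) n1
    (by rw [hre]; exact n2)
  have hp : (-(((6 / 5 : ℝ) : ℂ) * -(1 + (1 / 2 : ℝ) * I)) : ℂ) = 6 / 5 * (1 + (1 / 2 : ℝ) * I) := by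
    push_cast
    ring
  rw [hp] at key
  exact key

end SokamFU

end

/-! ### Lib_MP_af4de1_q.QHypR -/

section
namespace SokamFU
end SokamFU
/-!
# Right contour: hypotheses of the general estimate, `9/2 ≤ ρ ≤ 8` [FQ-4]

`h = a + i s`, `d = i`: `ff h (x + iy) = xy - a(e^x sin y - y) - s(e^x cos y - 1 - x)` (`ff_eq`).
`right` (`v = -it`): `s(1-cos t) - a(t - sin t) ≥ .32 s t²` on `[0,2]` (`(1-cos t)/t² ≥ .354`, `(t - sin t)/t² ≤ .273`, `a ≤ s/12`).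
`left`: `s(1-cos t) + a(t - sin t) ≥ s(1-cos t) ≥ .35 s t²` on `[0,2]`.
`far`: `[2, 2π-2]`: `≥ 1.41 s`; `t = 2π - x`, `0 ≤ x ≤ 2`: `2π a + s(1-cos x) - a(x - sin x) ≥ 2π a ≥ 1.2566` (inequality of `right`); `t ≥ 2π`: `t - sin t ≥ 2π`
(increasing) and `t - sin t ≥ t - 1`, `a(t-1) ≥ 1.26 + (t - 7.3)/5` for `t ≥ 7.3`.
`side` (`v = u - 2i`): `-2u + a(e^u sin 2 - 2) + s(1 + u - e^u cos 2) ≥ 6 + 6u` (`sin 2 ≥ 0`, `-cos 2 ≥ 2/5`, `-2a ≥ -s/6`: `≥ (37/30) s + (7/5 s - 2) u`).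
`quad`: `s t²/2`.  `k2`, `k3` with `1` (`taylor2_left`, `taylor3_left`).
-/

set_option autoImplicit false

namespace SokamQ

open Complex SokamFU

private theorem qhr_nonneg {f f' : ℝ → ℝ} (hf : ∀ x, HasDerivAt f (f' x) x) (h0 : f 0 = 0)
    (h : ∀ x, 0 ≤ x → 0 ≤ f' x) {x : ℝ} (hx : 0 ≤ x) : 0 ≤ f x := by
  have h1 : MonotoneOn f (Set.Ici 0) := by
    refine monotoneOn_of_deriv_nonneg (convex_Ici 0) (fun y _ => (hf y).continuousAt.continuousWithinAt)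
      (fun y _ => (hf y).differentiableAt.differentiableWithinAt) fun y hy => ?_
    rw [interior_Ici] at hy
    rw [(hf y).deriv]
    exact h y (le_of_lt hy)
  have h2 := h1 (Set.mem_Ici.mpr le_rfl) (Set.mem_Ici.mpr hx) hx
  rwa [h0] at h2

private theorem qhr_sin3 {x : ℝ} (hx : 0 ≤ x) : x - x ^ (3 : ℕ) / 6 ≤ Real.sin x := by
  have h := qhr_nonneg (f := fun x => Real.sin x - (x - x ^ (3 : ℕ) / 6))
    (f' := fun x => Real.cos x - (1 - 3 * x ^ (2 : ℕ) / 6)) (fun x => by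
      have h1 := (hasDerivAt_pow 3 x).div_const 6
      have h2 := (Real.hasDerivAt_sin x).sub ((hasDerivAt_id x).sub h1)
      exact HasDerivAt.congr_deriv h2 (by push_cast; norm_num)) (by simp) (fun x _ => by
      have := Real.one_sub_sq_div_two_le_cos (x := x)
      linarith only [this]) hx
  linarith only [h]

private theorem qhr_cos4 {x : ℝ} (hx : 0 ≤ x) : Real.cos x ≤ 1 - x ^ (2 : ℕ) / 2 + x ^ (4 : ℕ) / 24 := by
  have h := qhr_nonneg (f := fun x => (1 - x ^ (2 : ℕ) / 2 + x ^ (4 : ℕ) / 24) - Real.cos x)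
    (f' := fun x => (-(2 * x / 2) + 4 * x ^ (3 : ℕ) / 24) + Real.sin x) (fun x => by
      have h1 := (hasDerivAt_pow 2 x).div_const 2
      have h3 := (hasDerivAt_pow 4 x).div_const 24
      have h2 := ((h1.const_sub 1).add h3).sub (Real.hasDerivAt_cos x)
      exact HasDerivAt.congr_deriv h2 (by push_cast; norm_num)) (by simp) (fun x hx => by
      have := qhr_sin3 hx
      linarith only [this]) hx
  linarith only [h]

private theorem qhr_sin5 {x : ℝ} (hx : 0 ≤ x) : Real.sin x ≤ x - x ^ (3 : ℕ) / 6 + x ^ (5 : ℕ) / 120 := by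
  have h := qhr_nonneg (f := fun x => (x - x ^ (3 : ℕ) / 6 + x ^ (5 : ℕ) / 120) - Real.sin x)
    (f' := fun x => (1 - 3 * x ^ (2 : ℕ) / 6 + 5 * x ^ (4 : ℕ) / 120) - Real.cos x) (fun x => by
      have h1 := (hasDerivAt_pow 3 x).div_const 6
      have h3 := (hasDerivAt_pow 5 x).div_const 120
      have h2 := (((hasDerivAt_id x).sub h1).add h3).sub (Real.hasDerivAt_sin x)
      exact HasDerivAt.congr_deriv h2 (by push_cast; norm_num)) (by simp) (fun x hx => by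
      have := qhr_cos4 hx
      linarith only [this]) hx
  linarith only [h]

private theorem qhr_cos6 {x : ℝ} (hx : 0 ≤ x) :
    1 - x ^ (2 : ℕ) / 2 + x ^ (4 : ℕ) / 24 - x ^ (6 : ℕ) / 720 ≤ Real.cos x := by
  have h := qhr_nonneg (f := fun x => Real.cos x - (1 - x ^ (2 : ℕ) / 2 + x ^ (4 : ℕ) / 24 - x ^ (6 : ℕ) / 720))
    (f' := fun x => -Real.sin x - (-(2 * x / 2) + 4 * x ^ (3 : ℕ) / 24 - 6 * x ^ (5 : ℕ) / 720)) (fun x => by
      have h1 := (hasDerivAt_pow 2 x).div_const 2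
      have h3 := (hasDerivAt_pow 4 x).div_const 24
      have h4 := (hasDerivAt_pow 6 x).div_const 720
      have h2 := (Real.hasDerivAt_cos x).sub (((h1.const_sub 1).add h3).sub h4)
      exact HasDerivAt.congr_deriv h2 (by push_cast; norm_num)) (by simp) (fun x hx => by
      have := qhr_sin5 hx
      linarith only [this]) hx
  linarith only [h]

private theorem qhr_sin7 {x : ℝ} (hx : 0 ≤ x) :
    x - x ^ (3 : ℕ) / 6 + x ^ (5 : ℕ) / 120 - x ^ (7 : ℕ) / 5040 ≤ Real.sin x := by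
  have h := qhr_nonneg (f := fun x => Real.sin x - (x - x ^ (3 : ℕ) / 6 + x ^ (5 : ℕ) / 120 - x ^ (7 : ℕ) / 5040))
    (f' := fun x => Real.cos x - (1 - 3 * x ^ (2 : ℕ) / 6 + 5 * x ^ (4 : ℕ) / 120 - 7 * x ^ (6 : ℕ) / 5040))
    (fun x => by
      have h1 := (hasDerivAt_pow 3 x).div_const 6
      have h3 := (hasDerivAt_pow 5 x).div_const 120
      have h4 := (hasDerivAt_pow 7 x).div_const 5040
      have h2 := (Real.hasDerivAt_sin x).sub ((((hasDerivAt_id x).sub h1).add h3).sub h4)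
      exact HasDerivAt.congr_deriv h2 (by push_cast; norm_num)) (by simp) (fun x hx => by
      have := qhr_cos6 hx
      linarith only [this]) hx
  linarith only [h]

private theorem qhr_cos8 {x : ℝ} (hx : 0 ≤ x) :
    Real.cos x ≤ 1 - x ^ (2 : ℕ) / 2 + x ^ (4 : ℕ) / 24 - x ^ (6 : ℕ) / 720 + x ^ (8 : ℕ) / 40320 := by
  have h := qhr_nonneg
    (f := fun x => (1 - x ^ (2 : ℕ) / 2 + x ^ (4 : ℕ) / 24 - x ^ (6 : ℕ) / 720 + x ^ (8 : ℕ) / 40320) - Real.cos x)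
    (f' := fun x => (-(2 * x / 2) + 4 * x ^ (3 : ℕ) / 24 - 6 * x ^ (5 : ℕ) / 720 + 8 * x ^ (7 : ℕ) / 40320) +
      Real.sin x) (fun x => by
      have h1 := (hasDerivAt_pow 2 x).div_const 2
      have h3 := (hasDerivAt_pow 4 x).div_const 24
      have h4 := (hasDerivAt_pow 6 x).div_const 720
      have h5 := (hasDerivAt_pow 8 x).div_const 40320
      have h2 := ((((h1.const_sub 1).add h3).sub h4).add h5).sub (Real.hasDerivAt_cos x)
      exact HasDerivAt.congr_deriv h2 (by push_cast; norm_num)) (by simp) (fun x hx => by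
      have := qhr_sin7 hx
      linarith only [this]) hx
  linarith only [h]

private theorem qhr_left {t : ℝ} (h0 : 0 ≤ t) (h2 : t ≤ 2) :
    7 / 20 * t ^ (2 : ℕ) ≤ 1 - Real.cos t := by
  have h := qhr_cos8 h0
  have hw0 : 0 ≤ t ^ (2 : ℕ) := sq_nonneg t
  have hw : t ^ (2 : ℕ) ≤ 4 := by nlinarith only [h0, h2]
  obtain ⟨w, hw1⟩ : ∃ w, w = t ^ (2 : ℕ) := ⟨_, rfl⟩
  have e4 : t ^ (4 : ℕ) = w ^ (2 : ℕ) := by rw [hw1]; ring
  have e6 : t ^ (6 : ℕ) = w ^ (3 : ℕ) := by rw [hw1]; ring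
  have e8 : t ^ (8 : ℕ) = w ^ (4 : ℕ) := by rw [hw1]; ring
  rw [e4, e6, e8, ← hw1] at h
  rw [← hw1] at hw0 hw ⊢
  have key : 0 ≤ 3 / 20 - w / 24 + w ^ (2 : ℕ) / 720 - w ^ (3 : ℕ) / 40320 := by
    have h3 : w ^ (3 : ℕ) ≤ 4 * w ^ (2 : ℕ) := by nlinarith only [hw]
    nlinarith only [hw]
  have := mul_nonneg hw0 key
  linarith only [h, this]

private theorem qhr_right {t : ℝ} (h0 : 0 ≤ t) (h2 : t ≤ 2) :
    8 / 25 * t ^ (2 : ℕ) ≤ (1 - Real.cos t) - 1 / 12 * (t - Real.sin t) := by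
  have h := qhr_cos8 h0
  have h' := qhr_sin3 h0
  have hw0 : 0 ≤ t ^ (2 : ℕ) := sq_nonneg t
  have hw : t ^ (2 : ℕ) ≤ 4 := by nlinarith only [h0, h2]
  -- `1/2 - w/24 + w²/720 - w³/40320 - t/72 - 8/25 ≥ 0`
  have key : 0 ≤ 9 / 50 - t / 72 - t ^ (2 : ℕ) / 24 + t ^ (4 : ℕ) / 720 - t ^ (6 : ℕ) / 40320 := by
    have h6 : t ^ (6 : ℕ) ≤ 4 * t ^ (4 : ℕ) := by
      have h4 : 0 ≤ t ^ (4 : ℕ) := by positivity
      nlinarith only [hw, h4]
    have h4 : 0 ≤ t ^ (4 : ℕ) := by positivity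
    have hq : 0 ≤ (t ^ (2 : ℕ) - 4) ^ (2 : ℕ) := sq_nonneg _
    have e4 : t ^ (4 : ℕ) = (t ^ (2 : ℕ)) ^ (2 : ℕ) := by ring
    nlinarith only [hw, h6, h4]
  have := mul_nonneg hw0 key
  linarith only [h, h', this]

private theorem qhr_pos {t : ℝ} (h0 : 0 ≤ t) (h2 : t ≤ 2) :
    0 ≤ (1 - Real.cos t) - 1 / 12 * (t - Real.sin t) :=
  le_trans (by positivity) (qhr_right h0 h2)

theorem hyp_RQ {δ a s : ℝ} (hδ : 0 < δ) (hδ' : δ ≤ 4 / 25) (ha : 1 / 5 ≤ a) (hs : 6 ≤ s)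
    (h1 : a ≤ s / 12) :
    Hyp δ (a + s * I) I 2 2 (73 / 10) (7 / 20 * s) (8 / 25 * s) (5 / 4) (1 / 5) 6 6 1 1 := by
  have hs0 : 0 < s := by linarith only [hs]
  have ha0 : 0 < a := by linarith only [ha]
  have hpi := Real.pi_gt_d2
  have hpi' := Real.pi_lt_d2
  have hf : ∀ t : ℝ, ff (a + s * I) (t * I) = s * (1 - Real.cos t) + a * (t - Real.sin t) := by
    intro t
    have h := ff_eq a s 0 t
    rw [Real.exp_zero, ofReal_zero, zero_add] at h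
    rw [h]
    ring
  have hf' : ∀ t : ℝ, ff (a + s * I) (-(t * I)) = s * (1 - Real.cos t) - a * (t - Real.sin t) := by
    intro t
    have h := hf (-t)
    rw [Real.cos_neg, Real.sin_neg, ofReal_neg, neg_mul] at h
    rw [h]
    ring
  have hre : ∀ t : ℝ, (-((t : ℂ) * I)).re ≤ 0 := by
    intro t
    simp
  have hno : ∀ t : ℝ, 0 ≤ t → ‖-((t : ℂ) * I)‖ = t := by
    intro t ht
    rw [norm_neg, norm_mul, Complex.norm_I, mul_one, Complex.norm_real, Real.norm_of_nonneg ht]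
  have hcos2 : Real.cos 2 ≤ -(2 / 5) := by
    have := qhr_cos8 (x := 2) (by norm_num)
    norm_num at this
    linarith only [this]
  refine ⟨hδ, ?_, I_ne_zero, by simp, by norm_num, by norm_num, by norm_num, by positivity,
    by positivity, by norm_num, by norm_num, by norm_num, by linarith only [hδ'], by norm_num, by norm_num,
    ?_, ?_, ?_, ?_, ?_, ?_, ?_⟩
  · -- `h ≠ 1`
    intro h
    have h2 := congrArg Complex.im h
    simp at h2
    linarith only [hs0, h2]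
  · -- `quad`
    intro t
    have e : (1 - ((a : ℂ) + s * I)) * (t * I) ^ (2 : ℕ) / 2 =
        ((-(t ^ (2 : ℕ) * (1 - a) / 2) : ℝ) : ℂ) + ((s * t ^ (2 : ℕ) / 2 : ℝ) : ℂ) * I := by
      push_cast
      linear_combination ((1 - (a : ℂ) - s * I) * t ^ (2 : ℕ) / 2) * I_sq
    have e2 : ((((-(t ^ (2 : ℕ) * (1 - a) / 2) : ℝ) : ℂ) + ((s * t ^ (2 : ℕ) / 2 : ℝ) : ℂ) * I)).im =
        s * t ^ (2 : ℕ) / 2 := by
      rw [add_im, ofReal_im, im_ofReal_mul, I_im]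
      ring
    rw [e, e2, max_eq_left (by linarith only [hs0])]
    linarith only [mul_nonneg hs0.le (sq_nonneg t)]
  · -- `right`
    intro t h0 h2
    rw [hf']
    have h3 := qhr_right h0 h2
    have h4 : 0 ≤ t - Real.sin t := by
      have := Real.sin_le h0
      linarith only [this]
    have h5 := mul_le_mul_of_nonneg_right h1 h4
    have h6 := mul_le_mul_of_nonneg_left h3 hs0.le
    linarith only [h5, h6]
  · -- `left`
    intro t h0 h2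
    rw [hf]
    have h3 := qhr_left h0 h2
    have h4 : 0 ≤ a * (t - Real.sin t) := by
      have := Real.sin_le h0
      exact mul_nonneg ha0.le (by linarith only [this])
    have h6 := mul_le_mul_of_nonneg_left h3 hs0.le
    linarith only [h4, h6]
  · -- `far`
    intro t h2
    rw [hf]
    have hsin : 0 ≤ t - Real.sin t := by
      have := Real.sin_le (x := t) (by linarith only [h2])
      linarith only [this]
    -- `5/4 ≤ ...` for all `t ≥ 2`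
    have hB : 5 / 4 ≤ s * (1 - Real.cos t) + a * (t - Real.sin t) := by
      rcases le_total t (2 * Real.pi - 2) with h4 | h4
      · have h5 : Real.cos t ≤ Real.cos 2 := by
          rcases le_total t Real.pi with h6 | h6
          · exact Real.cos_le_cos_of_nonneg_of_le_pi (by norm_num) h6 h2
          · have h7 : Real.cos t = Real.cos (2 * Real.pi - t) := by
              rw [Real.cos_two_pi_sub]
            rw [h7]
            exact Real.cos_le_cos_of_nonneg_of_le_pi (by norm_num) (by linarith only [h6]) (by linarith only [h4])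
        have h8 : 0 ≤ a * (t - Real.sin t) := mul_nonneg ha0.le hsin
        nlinarith only [hs, hcos2, h5, h8]
      · rcases le_total t (2 * Real.pi) with h6 | h6
        · obtain ⟨x, hx⟩ : ∃ x, x = 2 * Real.pi - t := ⟨_, rfl⟩
          have ht : t = 2 * Real.pi - x := by rw [hx]; ring
          have hx0 : 0 ≤ x := by linarith only [h6, ht]
          have hx2 : x ≤ 2 := by linarith only [h4, hx]
          rw [ht, Real.cos_two_pi_sub, Real.sin_two_pi_sub]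
          have h7 := qhr_pos hx0 hx2
          have h8 : 0 ≤ x - Real.sin x := by
            have := Real.sin_le hx0
            linarith only [this]
          have h9 := mul_le_mul_of_nonneg_right h1 h8
          have h10 := mul_nonneg hs0.le h7
          have h11 : 1 / 5 * (2 * Real.pi) ≤ a * (2 * Real.pi) :=
            mul_le_mul_of_nonneg_right ha (by linarith only [hpi])
          linarith only [hpi, h9, h10, h11]
        · have h7 : 2 * Real.pi ≤ t - Real.sin t := by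
            have h8 := Real.sin_le (x := t - 2 * Real.pi) (by linarith only [h6])
            rw [Real.sin_sub_two_pi] at h8
            linarith only [h8]
          have h9 : 0 ≤ s * (1 - Real.cos t) :=
            mul_nonneg hs0.le (by linarith only [Real.cos_le_one t])
          have h10 : 1 / 5 * (2 * Real.pi) ≤ a * (t - Real.sin t) :=
            mul_le_mul ha h7 (by linarith only [hpi]) ha0.le
          linarith only [hpi, h9, h10]
    rcases le_total t (73 / 10) with h4 | h4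
    · rw [max_eq_right (by linarith only [h4]), mul_zero, add_zero]
      exact hB
    · rw [max_eq_left (by linarith only [h4])]
      have h9 : 0 ≤ s * (1 - Real.cos t) :=
        mul_nonneg hs0.le (by linarith only [Real.cos_le_one t])
      have h10 : 1 / 5 * (t - 1) ≤ a * (t - Real.sin t) :=
        mul_le_mul ha (by linarith only [Real.sin_le_one t]) (by linarith only [h4]) ha0.le
      linarith only [h9, h10]
  · -- `side`
    intro u hu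
    have e : -(((2 : ℝ) : ℂ) * I) + (u : ℂ) = (u : ℂ) + ((-2 : ℝ) : ℂ) * I := by
      push_cast
      ring
    rw [e, ff_eq, Real.cos_neg, Real.sin_neg]
    have hsn : 0 ≤ Real.sin 2 :=
      Real.sin_nonneg_of_nonneg_of_le_pi (by norm_num) (by linarith only [hpi])
    have he : 1 + u ≤ Real.exp u := by
      have := Real.add_one_le_exp u
      linarith only [this]
    have h3 : 0 ≤ a * (Real.exp u * Real.sin 2) := by
      have := Real.exp_pos u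
      positivity
    have h4 : (1 + u) * (2 / 5) ≤ Real.exp u * (-Real.cos 2) :=
      mul_le_mul he (by linarith only [hcos2]) (by norm_num) (by positivity)
    have h6 := mul_le_mul_of_nonneg_left h4 hs0.le
    have h7 : 0 ≤ (s - 6) * u := mul_nonneg (by linarith only [hs]) hu
    nlinarith only [hs, h1, hu, h3, h6]
  · -- `k2`
    intro t h0 _
    have h3 := taylor2_left (hre t)
    rw [hno t h0] at h3
    rw [Complex.norm_I, mul_one, one_mul]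
    exact h3
  · -- `k3`
    intro t h0 _
    have h3 := taylor3_left (hre t)
    rw [hno t h0] at h3
    rw [Complex.norm_I, mul_one, one_mul]
    exact h3

end SokamQ

end

/-! ### Lib_MP_af4de1_q.QEstR -/

section
namespace SokamFU
end SokamFU
/-!
# Right contour: the estimate, `9/2 ≤ ρ ≤ 8` [FQ-6]

`gen_fin0` with `hyp_RQ`, `δ₀ = 4/25`, `k = 17/100` (true maximum of the quotient `.1672`, at `s = 16.15`; compare `MEstR.lean`).
`H = ‖h‖ ≤ 1.0035 s`, `s ≤ κ = ‖1-h‖ ≤ 1.0089 s`, `lowErr ≤ .2399/s + .00248`, `upErr ≤ .1469 s^(-3/2) + .03647`,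
`κ √(2πδ₀/κ) ≥ 1.0026 √s`.  To show: `.1475/w + .0366 w² ≤ .17 (1.0026 w - .2421 - .00251 w²)` for `w = √s` in `[2.449, 4.019]`.
-/

set_option autoImplicit false

namespace SokamQ

open Complex SokamFU

private theorem qestR_exp1 : Real.exp (-(5 / 4) / (4 / 25)) ≤ 405 / 1000000 := by
  have h1 : (27182818283 / 10000000000 : ℝ) < Real.exp 1 := by
    have := Real.exp_one_gt_d9
    norm_num at this ⊢
    exact this
  have h2 : Real.exp (125 / 16) = Real.exp 1 ^ (7 : ℕ) * Real.exp (13 / 16) := by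
    rw [← Real.exp_nat_mul, ← Real.exp_add]
    norm_num
  have h3 : (2253 / 1000 : ℝ) ≤ Real.exp (13 / 16) := by
    have h := Real.sum_le_exp_of_nonneg (x := (13 / 16 : ℝ)) (by norm_num) 6
    simp only [Finset.sum_range_succ, Finset.sum_range_zero, Nat.factorial] at h
    norm_num at h
    linarith
  have h4 : (27182818283 / 10000000000 : ℝ) ^ (7 : ℕ) ≤ Real.exp 1 ^ (7 : ℕ) :=
    pow_le_pow_left₀ (by norm_num) h1.le 7
  have h5 : (1000000 / 405 : ℝ) ≤ Real.exp (125 / 16) := by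
    rw [h2]
    refine le_trans ?_ (mul_le_mul h4 h3 (by norm_num) (by positivity))
    norm_num
  have h6 : (-(5 / 4) / (4 / 25) : ℝ) = -(125 / 16) := by norm_num
  rw [h6, Real.exp_neg]
  refine (inv_anti₀ (by norm_num) h5).trans ?_
  norm_num

private theorem qestR_exp2 {x : ℝ} (hx : x ≤ -15) : Real.exp x ≤ 1 / 100000 := by
  have h1 : (27 / 10 : ℝ) < Real.exp 1 := by
    have := Real.exp_one_gt_d9
    refine lt_trans ?_ this
    norm_num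
  have h4 : (27 / 10 : ℝ) ^ (15 : ℕ) ≤ Real.exp 1 ^ (15 : ℕ) :=
    pow_le_pow_left₀ (by norm_num) h1.le 15
  have h5 : (100000 : ℝ) ≤ Real.exp 15 := by
    have h2 : Real.exp 15 = Real.exp 1 ^ (15 : ℕ) := by
      rw [← Real.exp_nat_mul]
      norm_num
    rw [h2]
    refine le_trans ?_ h4
    norm_num
  calc Real.exp x ≤ Real.exp (-15) := Real.exp_le_exp.mpr hx
    _ = (Real.exp 15)⁻¹ := Real.exp_neg 15
    _ ≤ (100000 : ℝ)⁻¹ := inv_anti₀ (by norm_num) h5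
    _ = 1 / 100000 := by norm_num

private theorem qestR_low {s H : ℝ} (hs : 6 ≤ s) (_hH : 0 ≤ H) (hHs : H ≤ 10035 / 10000 * s) :
    lowErr (4 / 25) H 1 2 2 (73 / 10) (7 / 20 * s) (8 / 25 * s) (5 / 4) (1 / 5) 6 6 1 ≤
      2399 / 10000 / s + 248 / 100000 := by
  have hs0 : 0 < s := by linarith
  have e1 := qestR_exp1
  have e2 : Real.exp (-(7 / 20 * s * 2 ^ (2 : ℕ)) / (4 / 25)) ≤ 1 / 100000 := by
    refine qestR_exp2 ?_
    rw [div_le_iff₀ (by norm_num)]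
    linarith
  have e3 : Real.exp (-(8 / 25 * s * 2 ^ (2 : ℕ)) / (4 / 25)) ≤ 1 / 100000 := by
    refine qestR_exp2 ?_
    rw [div_le_iff₀ (by norm_num)]
    linarith
  have e4 : Real.exp (-6 / (4 / 25)) ≤ 1 / 100000 := by
    refine qestR_exp2 ?_
    norm_num
  have a1 : H * 1 ^ (4 : ℕ) / 12 * (1 / (7 / 20 * s) ^ (2 : ℕ) + 1 / (8 / 25 * s) ^ (2 : ℕ)) * (4 / 25) ≤
      2399 / 10000 / s := by
    have e : H * 1 ^ (4 : ℕ) / 12 * (1 / (7 / 20 * s) ^ (2 : ℕ) + 1 / (8 / 25 * s) ^ (2 : ℕ)) * (4 / 25) =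
        (H / s) * ((4 / 25) / 12 * (400 / 49 + 625 / 64)) / s := by
      field_simp
      ring
    rw [e]
    refine div_le_div_of_nonneg_right ?_ hs0.le
    have h : H / s ≤ 10035 / 10000 := by
      rw [div_le_iff₀ hs0]
      exact hHs
    calc H / s * ((4 / 25) / 12 * (400 / 49 + 625 / 64)) ≤
          10035 / 10000 * ((4 / 25) / 12 * (400 / 49 + 625 / 64)) :=
          mul_le_mul_of_nonneg_right h (by norm_num)
      _ ≤ 2399 / 10000 := by norm_num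
  have a2 : ((73 / 10 - 2) + (4 / 25 : ℝ) / (1 / 5)) * Real.exp (-(5 / 4) / (4 / 25)) ≤
      ((73 / 10 - 2) + (4 / 25 : ℝ) / (1 / 5)) * (405 / 1000000) :=
    mul_le_mul_of_nonneg_left e1 (by norm_num)
  have a3 : (4 / 25 : ℝ) / (7 / 20 * s * 2) * Real.exp (-(7 / 20 * s * 2 ^ (2 : ℕ)) / (4 / 25)) ≤
      1 / 20 * (1 / 100000) := by
    refine mul_le_mul ?_ e2 (Real.exp_pos _).le (by norm_num)
    rw [div_le_iff₀ (by positivity)]
    linarith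
  have a4 : (4 / 25 : ℝ) / (8 / 25 * s * 2) * Real.exp (-(8 / 25 * s * 2 ^ (2 : ℕ)) / (4 / 25)) ≤
      1 / 20 * (1 / 100000) := by
    refine mul_le_mul ?_ e3 (Real.exp_pos _).le (by norm_num)
    rw [div_le_iff₀ (by (clear * - hs; positivity))]
    linarith
  have a5 : (4 / 25 : ℝ) / 6 * Real.exp (-6 / (4 / 25)) ≤
      (4 / 25 : ℝ) / 6 * (1 / 100000) :=
    mul_le_mul_of_nonneg_left e4 (by norm_num)
  unfold lowErr
  norm_num at a1 a2 a3 a4 a5 ⊢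
  linarith

private theorem qestR_up {s w : ℝ} (hs : 6 ≤ s) (hw : 0 < w) (hws : w ^ (2 : ℕ) = s) :
    upErr (4 / 25) 1 0 2 2 (73 / 10) (7 / 20 * s) (8 / 25 * s) (5 / 4) (1 / 5) 6 6 1 ≤
      1469 / 10000 / w ^ (3 : ℕ) + 3647 / 100000 := by
  have hs0 : 0 < s := by linarith
  have e1 := qestR_exp1
  have e4 : Real.exp (2 * 0 - 6 / (4 / 25)) ≤ 1 / 100000 := by
    refine qestR_exp2 ?_
    norm_num
  have r1 : Real.sqrt (4 / 25 / (7 / 20 * s)) ≤ 67615 / 100000 / w := by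
    rw [Real.sqrt_le_left (by positivity), ← hws]
    have e : (4 / 25 : ℝ) / (7 / 20 * w ^ (2 : ℕ)) = 16 / 35 / w ^ (2 : ℕ) := by
      field_simp
      ring
    rw [e, div_pow]
    exact div_le_div_of_nonneg_right (by norm_num) (by (clear * - hw; positivity))
  have r2 : Real.sqrt (4 / 25 / (8 / 25 * s)) ≤ 70712 / 100000 / w := by
    rw [Real.sqrt_le_left (by (clear * - hw; positivity)), ← hws]
    have e : (4 / 25 : ℝ) / (8 / 25 * w ^ (2 : ℕ)) = 1 / 2 / w ^ (2 : ℕ) := by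
      field_simp
      ring
    rw [e, div_pow]
    exact div_le_div_of_nonneg_right (by norm_num) (by (clear * - hw; positivity))
  have r3 : Real.sqrt Real.pi ≤ 17725 / 10000 := by
    rw [Real.sqrt_le_left (by norm_num)]
    have := Real.pi_lt_d4
    norm_num at this ⊢
    linarith
  have a1 : (1 : ℝ) ^ (3 : ℕ) * (Real.sqrt Real.pi / 8) * (4 / 25 / (7 / 20 * s) *
      Real.sqrt (4 / 25 / (7 / 20 * s)) + 1 * (4 / 25 / (8 / 25 * s)) *
      Real.sqrt (4 / 25 / (8 / 25 * s))) ≤ 1469 / 10000 / w ^ (3 : ℕ) := by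
    have h1 : 4 / 25 / (7 / 20 * s) * Real.sqrt (4 / 25 / (7 / 20 * s)) +
        1 * (4 / 25 / (8 / 25 * s)) * Real.sqrt (4 / 25 / (8 / 25 * s)) ≤
        4 / 25 / (7 / 20 * s) * (67615 / 100000 / w) +
        1 * (4 / 25 / (8 / 25 * s)) * (70712 / 100000 / w) :=
      add_le_add (mul_le_mul_of_nonneg_left r1 (by (clear * - hs; positivity)))
        (mul_le_mul_of_nonneg_left r2 (by positivity))
    have h2 : (1 : ℝ) ^ (3 : ℕ) * (Real.sqrt Real.pi / 8) ≤ 17725 / 10000 / 8 := by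
      rw [one_pow, one_mul]
      exact div_le_div_of_nonneg_right r3 (by norm_num)
    refine (mul_le_mul h2 h1 (by (clear * - hs; positivity)) (by norm_num)).trans ?_
    rw [← hws]
    have e : (17725 / 10000 / 8 : ℝ) * (4 / 25 / (7 / 20 * w ^ (2 : ℕ)) * (67615 / 100000 / w) +
        1 * (4 / 25 / (8 / 25 * w ^ (2 : ℕ))) * (70712 / 100000 / w)) =
        (17725 / 10000 / 8 * (16 / 35 * (67615 / 100000) + 1 / 2 * (70712 / 100000))) / w ^ (3 : ℕ) := by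
      field_simp
      ring
    rw [e]
    exact div_le_div_of_nonneg_right (by norm_num) (by positivity)
  have a2 : (1 : ℝ) ^ (3 : ℕ) / 2 * (((73 / 10) ^ (3 : ℕ) - 2 ^ (3 : ℕ)) / 3 + 4 / 25 / (1 / 5) *
      ((73 / 10) ^ (2 : ℕ) + 2 * (73 / 10) * (4 / 25 / (1 / 5)) + 2 * (4 / 25 / (1 / 5)) ^ (2 : ℕ))) *
      Real.exp (-(5 / 4) / (4 / 25)) ≤ 3646 / 100000 := by
    refine (mul_le_mul_of_nonneg_left e1 (by norm_num)).trans ?_
    norm_num
  have a3 : Real.exp (2 * 0 - 6 / (4 / 25)) / 2 * ((2 * 1) ^ (2 : ℕ) / (6 / (4 / 25) - 1) +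
      2 * (2 * 1) / (6 / (4 / 25) - 1) ^ (2 : ℕ) + 2 / (6 / (4 / 25) - 1) ^ (3 : ℕ)) ≤
      1 / 100000 := by
    refine (mul_le_mul_of_nonneg_right (div_le_div_of_nonneg_right e4 (by norm_num))
      (by norm_num)).trans ?_
    norm_num
  unfold upErr
  linarith

theorem est_RQ {δ a s : ℝ} (hδ : 0 < δ) (hδ' : δ ≤ 4 / 25) (ha : 1 / 5 ≤ a) (hs : 6 ≤ s)
    (hs' : s ≤ 1615 / 100) (h1 : a ≤ s / 12) :
    JJ δ (a + s * I) (-(2 * I)) I (fun _ => 1) ≠ 0 ∧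
    ‖JJ δ (a + s * I) (-(2 * I)) I (fun v => v)‖ ≤
      17 / 100 * ‖JJ δ (a + s * I) (-(2 * I)) I (fun _ => 1)‖ := by
  have hs0 : 0 < s := by linarith
  have hα0 : 0 < a := by linarith
  have hH := hyp_RQ hδ hδ' ha hs h1
  obtain ⟨w, hw⟩ : ∃ w, w = Real.sqrt s := ⟨_, rfl⟩
  have hw0 : 0 < w := by
    rw [hw]
    exact Real.sqrt_pos.mpr hs0
  have hws : w ^ (2 : ℕ) = s := by
    rw [hw]
    exact Real.sq_sqrt hs0.le
  obtain ⟨N, hN⟩ : ∃ N, N = ‖((a : ℂ) + s * I)‖ := ⟨_, rfl⟩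
  obtain ⟨κ, hκ⟩ : ∃ κ, κ = ‖1 - ((a : ℂ) + s * I)‖ := ⟨_, rfl⟩
  have hN0 : 0 ≤ N := by
    rw [hN]
    exact norm_nonneg _
  have hκ0 : 0 ≤ κ := by
    rw [hκ]
    exact norm_nonneg _
  have hN2 : N ^ (2 : ℕ) = a ^ (2 : ℕ) + s ^ (2 : ℕ) := by
    rw [hN, Complex.norm_add_mul_I, Real.sq_sqrt (by positivity)]
  have hκ2 : κ ^ (2 : ℕ) = (1 - a) ^ (2 : ℕ) + s ^ (2 : ℕ) := by
    have e : (1 : ℂ) - ((a : ℂ) + s * I) = ((1 - a : ℝ) : ℂ) + ((-s : ℝ) : ℂ) * I := by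
      push_cast
      ring
    rw [hκ, e, Complex.norm_add_mul_I, Real.sq_sqrt (by (clear * -; positivity)), neg_sq]
  have hs36 : 36 ≤ s ^ (2 : ℕ) := by
    have := pow_le_pow_left₀ (by norm_num) hs 2
    linarith
  have hNs : N ≤ 10035 / 10000 * s := by
    refine abs_le_of_sq_le_sq' ?_ (by (clear * - hs; positivity)) |>.2
    rw [hN2]
    have h2 : a ^ (2 : ℕ) ≤ (s / 12) ^ (2 : ℕ) := pow_le_pow_left₀ hα0.le h1 2
    have h3 : (s / 12) ^ (2 : ℕ) = 1 / 144 * s ^ (2 : ℕ) := by ring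
    have h4 : (10035 / 10000 * s) ^ (2 : ℕ) = 100701225 / 100000000 * s ^ (2 : ℕ) := by ring
    rw [h4]
    linarith
  have hκs : κ ≤ 10089 / 10000 * s := by
    refine abs_le_of_sq_le_sq' ?_ (by positivity) |>.2
    rw [hκ2]
    have h2 : (1 - a) ^ (2 : ℕ) ≤ (4 / 5) ^ (2 : ℕ) := sq_le_sq' (by linarith) (by linarith)
    have h4 : (10089 / 10000 * s) ^ (2 : ℕ) = 101787921 / 100000000 * s ^ (2 : ℕ) := by ring
    rw [h4]
    norm_num at h2
    linarith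
  have hsκ : s ≤ κ := by
    refine abs_le_of_sq_le_sq' ?_ hκ0 |>.2
    rw [hκ2]
    linarith [sq_nonneg (1 - a)]
  have hκ1 : 0 < κ := by linarith
  obtain ⟨x, hx⟩ : ∃ x, x = Real.sqrt (2 * Real.pi * (4 / 25) / κ) := ⟨_, rfl⟩
  have hxw : 10026 / 10000 * w ≤ κ * x := by
    have h2 : 10026 / 10000 * w / κ ≤ x := by
      rw [hx]
      refine Real.le_sqrt_of_sq_le ?_
      rw [div_pow, mul_pow, hws, div_le_div_iff₀ (by (clear * - hκ1; positivity)) hκ1]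
      have hpi := Real.pi_gt_d4
      norm_num at hpi
      have h3 : (10026 / 10000 : ℝ) ^ (2 : ℕ) * s ≤ 2 * Real.pi * (4 / 25) * κ := by
        have h4 : (100528 / 100000 : ℝ) * κ ≤ 2 * Real.pi * (4 / 25) * κ :=
          mul_le_mul_of_nonneg_right (by linarith) hκ0
        have h5 : (10026 / 10000 : ℝ) ^ (2 : ℕ) * s ≤ 100528 / 100000 * s :=
          mul_le_mul_of_nonneg_right (by norm_num) hs0.le
        linarith
      have h4 := mul_le_mul_of_nonneg_right h3 hκ0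
      rw [sq κ]
      linarith
    rw [div_le_iff₀ hκ1] at h2
    linarith
  have hlow := qestR_low hs hN0 hNs
  have hup := qestR_up hs hw0 hws
  obtain ⟨L, hL⟩ : ∃ L, L = lowErr (4 / 25) N 1 2 2 (73 / 10) (7 / 20 * s) (8 / 25 * s) (5 / 4)
    (1 / 5) 6 6 1 := ⟨_, rfl⟩
  obtain ⟨U, hU⟩ : ∃ U, U = upErr (4 / 25) 1 0 2 2 (73 / 10) (7 / 20 * s) (8 / 25 * s) (5 / 4)
    (1 / 5) 6 6 1 := ⟨_, rfl⟩
  rw [← hL] at hlow
  rw [← hU] at hup
  have hκL : κ * L ≤ 2421 / 10000 + 251 / 100000 * s := by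
    have h2 : κ * L ≤ κ * (2399 / 10000 / s + 248 / 100000) :=
      mul_le_mul_of_nonneg_left hlow hκ0
    have h3 : κ * (2399 / 10000 / s + 248 / 100000) ≤
        10089 / 10000 * s * (2399 / 10000 / s + 248 / 100000) :=
      mul_le_mul_of_nonneg_right hκs (by positivity)
    have h4 : 10089 / 10000 * s * (2399 / 10000 / s + 248 / 100000) =
        10089 / 10000 * (2399 / 10000) + 10089 / 10000 * (248 / 100000) * s := by
      field_simp
    linarith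
  have hNU : N * U ≤ 1475 / 10000 / w + 366 / 10000 * s := by
    have h2 : N * U ≤ N * (1469 / 10000 / w ^ (3 : ℕ) + 3647 / 100000) :=
      mul_le_mul_of_nonneg_left hup hN0
    have h3 : N * (1469 / 10000 / w ^ (3 : ℕ) + 3647 / 100000) ≤
        10035 / 10000 * s * (1469 / 10000 / w ^ (3 : ℕ) + 3647 / 100000) :=
      mul_le_mul_of_nonneg_right hNs (by (clear * - hw0; positivity))
    have h4 : 10035 / 10000 * s * (1469 / 10000 / w ^ (3 : ℕ) + 3647 / 100000) =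
        10035 / 10000 * (1469 / 10000) / w + 10035 / 10000 * (3647 / 100000) * s := by
      rw [← hws]
      field_simp
    have h5 : 10035 / 10000 * (1469 / 10000) / w ≤ 1475 / 10000 / w :=
      div_le_div_of_nonneg_right (by norm_num) hw0.le
    linarith
  have hw1 : 2449 / 1000 ≤ w := by
    refine abs_le_of_sq_le_sq' ?_ hw0.le |>.2
    rw [hws]
    norm_num
    linarith
  have hw2 : w ≤ 4019 / 1000 := by
    refine abs_le_of_sq_le_sq' ?_ (by norm_num) |>.2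
    rw [hws]
    norm_num
    linarith
  have hkey : 1475 / 10000 / w + 366 / 10000 * s ≤
      17 / 100 * (10026 / 10000 * w - (2421 / 10000 + 251 / 100000 * s)) := by
    rw [← hws]
    have h2 : 1475 / 10000 / w + 366 / 10000 * w ^ (2 : ℕ) =
        (1475 / 10000 + 366 / 10000 * w ^ (3 : ℕ)) / w := by
      field_simp
    rw [h2, div_le_iff₀ hw0]
    linarith [mul_nonneg (sub_nonneg.mpr hw1) (sub_nonneg.mpr hw2),
      mul_nonneg (mul_nonneg (sub_nonneg.mpr hw1) (sub_nonneg.mpr hw2)) hw0.le]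
  have hlt : 2421 / 10000 + 251 / 100000 * s < 10026 / 10000 * w := by
    rw [← hws]
    have h2 := mul_le_mul_of_nonneg_right hw2 hw0.le
    rw [← sq] at h2
    linarith
  have hne : ‖(I : ℂ)‖ = 1 := Complex.norm_I
  have hre : |(I : ℂ).re| = 0 := by simp
  have hpos : lowErr (4 / 25) ‖((a : ℂ) + s * I)‖ ‖(I : ℂ)‖ 2 2 (73 / 10) (7 / 20 * s)
      (8 / 25 * s) (5 / 4) (1 / 5) 6 6 1 <
      Real.sqrt (2 * Real.pi * (4 / 25) / ‖1 - ((a : ℂ) + s * I)‖) := by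
    rw [hne, ← hN, ← hκ, ← hL, ← hx]
    have h2 : κ * L < κ * x := by linarith
    exact lt_of_mul_lt_mul_left h2 hκ0
  have hnum : ‖((a : ℂ) + s * I)‖ * upErr (4 / 25) ‖(I : ℂ)‖ |(I : ℂ).re| 2 2 (73 / 10)
      (7 / 20 * s) (8 / 25 * s) (5 / 4) (1 / 5) 6 6 1 ≤
      17 / 100 * ‖1 - ((a : ℂ) + s * I)‖ *
        (Real.sqrt (2 * Real.pi * (4 / 25) / ‖1 - ((a : ℂ) + s * I)‖) -
        lowErr (4 / 25) ‖((a : ℂ) + s * I)‖ ‖(I : ℂ)‖ 2 2 (73 / 10) (7 / 20 * s) (8 / 25 * s)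
          (5 / 4) (1 / 5) 6 6 1) := by
    rw [hne, hre, ← hN, ← hκ, ← hL, ← hU, ← hx]
    have h2 : 17 / 100 * κ * (x - L) = 17 / 100 * (κ * x - κ * L) := by ring
    rw [h2]
    linarith
  have h := gen_fin0 hH hδ' (by norm_num) (by norm_num) (by norm_num) (k := 17 / 100)
    (by norm_num) hpos hnum
  have e : (((2 : ℝ) : ℂ) * I) = 2 * I := by
    push_cast
    rfl
  rw [e] at h
  exact h

end SokamQ

end
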