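import Mathlib.Algebra.Order.Floor.Semifield
import Mathlib.Algebra.Ring.IsFormallyReal
import Mathlib.RingTheory.PowerSeries.Inverse
import Mathlib.Data.Rat.Star
import Mathlib.Geometry.Euclidean.Angle.Unoriented.TriangleInequality
import Mathlib.Analysis.Convex.Contractible
import Mathlib.Analysis.Calculus.Deriv.Star
import Mathlib.MeasureTheory.Integral.Gamma
import Mathlib.Analysis.Complex.LocallyUniformLimit
import Mathlib.Topology.Separation.CompletelyRegular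
import Mathlib.RingTheory.Flat.TorsionFree
import Mathlib.MeasureTheory.Order.Group.Lattice
import Mathlib.Data.Int.Star
import Mathlib.LinearAlgebra.Lagrange
import Mathlib.Analysis.Complex.Angle
import Mathlib.Analysis.Complex.BorelCaratheodory
import Mathlib.Analysis.Complex.CoveringMap
import Mathlib.Topology.Homotopy.Lifting
import Mathlib.Analysis.Complex.ExponentialBounds
import Mathlib.Analysis.Complex.HasPrimitives
import Mathlib.NumberTheory.DiophantineApproximation.Basic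
import Mathlib.Analysis.Complex.OpenMapping
import Mathlib.Analysis.SpecialFunctions.Trigonometric.DerivHyp
import Mathlib.RingTheory.SimpleRing.Principal
import Mathlib.Order.CompletePartialOrder
import Mathlib.Analysis.SpecialFunctions.Complex.LogBounds
import Mathlib.Analysis.SpecialFunctions.Gamma.BohrMollerup
import Mathlib.Analysis.SpecialFunctions.Trigonometric.Series
import Mathlib.Topology.MetricSpace.Sequences
import Mathlib.Analysis.Normed.Group.Tannery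
import Mathlib.Analysis.ODE.Gronwall
import Mathlib.Analysis.Real.Pi.Bounds
import Mathlib.Analysis.SpecialFunctions.Gaussian.PoissonSummation
import Mathlib.Analysis.SpecialFunctions.Trigonometric.InverseDeriv
import Mathlib.RingTheory.TotallySplit
import Mathlib.RingTheory.Etale.Weakly
import Mathlib.Tactic

/-! ### Lib_MP_af4de1_fa.FrA -/

section
/-!
# FAR, stage 1: chains of waves (pure real analysis)

`gw V u = exp (-V (1 - cos u))`, `sg V h = 1/(1 - exp (-V (1 - cos h)))`.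

PLAN.
* `cos_superadd`: `1 - cos (a+b) - (1 - cos a) - (1 - cos b) = (1 - cos a)(cos b - ... )`, or with half
  angles `1 - cos = 2 sin^2`: for `a, b ≥ 0`, `a + b ≤ π`:
  `1 - cos (a+b) - (1 - cos a) - (1 - cos b) = 4 sin(a/2) sin(b/2) cos((a+b)/2) ≥ 0`.
* `mul_cos_le`: induction on `k` with `cos_superadd`.
* `far_chain`: termwise.  `h = 2π/N`, `rho = exp(-(V(1-cos h)))` in `(0,1)`.
  `j ∈ [1, N-2]`. If `ψ + j h ≤ π`: `ψ + j h = (ψ + h) + (j-1) h`, `ψ + h ≥ 0`, so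
  `gw V (ψ+jh) ≤ gw V (ψ+h) * rho^(j-1)` and `ψ + h ≤ π`.
  If `ψ + j h > π`: `cos (ψ+jh) = cos (2π - ψ - j h) = cos ((2h - ψ) + (N-2-j) h)`, `2h - ψ ≥ 0`, total `< π`,
  so `gw V (ψ+jh) ≤ gw V (2h-ψ) * rho^(N-2-j)`.
  Hence termwise `gw ≤ (if ..) rho^(N-2-j) + (if ..) rho^(j-1)`, and both geometric sums are
  `≤ 1/(1-rho) = sg V h`.
* `all_chain`: the same with `j ∈ [0, N-1]`: `ψ + j h ≤ π`: `gw V (ψ+jh) ≤ gw V ψ * rho^j`;
  otherwise `2π - ψ - j h = (h - ψ) + (N-1-j) h`: `≤ gw V (h-ψ) * rho^(N-1-j)`.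
-/

namespace SokamFA

open Real Finset

/-- one wave -/
noncomputable def gw (V u : ℝ) : ℝ := Real.exp (-(V * (1 - Real.cos u)))

/-- the geometric factor -/
noncomputable def sg (V h : ℝ) : ℝ := 1 / (1 - Real.exp (-(V * (1 - Real.cos h))))

theorem gw_pos (V u : ℝ) : 0 < gw V u := Real.exp_pos _

theorem gw_le_one {V : ℝ} (hV : 0 ≤ V) (u : ℝ) : gw V u ≤ 1 := by
  unfold gw
  rw [Real.exp_le_one_iff]
  have := Real.cos_le_one u
  have : 0 ≤ V * (1 - Real.cos u) := mul_nonneg hV (by linarith)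
  linarith

@[fun_prop]
theorem continuous_gw (V : ℝ) : Continuous (gw V) := by
  unfold gw; fun_prop

theorem cos_superadd {a b : ℝ} (ha : 0 ≤ a) (hb : 0 ≤ b) (hab : a + b ≤ π) :
    (1 - cos a) + (1 - cos b) ≤ 1 - cos (a + b) := by
  obtain ⟨x, rfl⟩ : ∃ x, a = 2 * x := ⟨a / 2, by ring⟩
  obtain ⟨y, rfl⟩ : ∃ y, b = 2 * y := ⟨b / 2, by ring⟩
  have hx : 0 ≤ sin x := sin_nonneg_of_nonneg_of_le_pi (by linarith) (by linarith)
  have hy : 0 ≤ sin y := sin_nonneg_of_nonneg_of_le_pi (by linarith) (by linarith)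
  have hxy : 0 ≤ cos (x + y) :=
    cos_nonneg_of_neg_pi_div_two_le_of_le (by linarith [pi_pos]) (by linarith)
  have e1 : cos (2 * x + 2 * y) = 2 * cos (x + y) ^ (2 : ℕ) - 1 := by
    rw [← cos_two_mul]; ring_nf
  have e2 : cos (2 * x) = 1 - 2 * sin x ^ (2 : ℕ) := by
    rw [cos_two_mul, cos_sq']; ring
  have e3 : cos (2 * y) = 1 - 2 * sin y ^ (2 : ℕ) := by
    rw [cos_two_mul, cos_sq']; ring
  have e4 : cos (x + y) = cos x * cos y - sin x * sin y := cos_add x y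
  have key : (1 - cos (2 * x + 2 * y)) - ((1 - cos (2 * x)) + (1 - cos (2 * y))) =
      4 * (cos (x + y) * (sin x * sin y)) := by
    rw [e1, e2, e3, e4]
    have cx : cos x ^ (2 : ℕ) = 1 - sin x ^ (2 : ℕ) := cos_sq' x
    have cy : cos y ^ (2 : ℕ) = 1 - sin y ^ (2 : ℕ) := cos_sq' y
    linear_combination (-2) * cos y ^ (2 : ℕ) * cx + (-2) * (1 - sin x ^ (2 : ℕ)) * cy
  have h0 : 0 ≤ 4 * (cos (x + y) * (sin x * sin y)) := by positivity
  linarith

theorem mul_cos_le {h : ℝ} (hh : 0 ≤ h) (k : ℕ) (hk : k * h ≤ π) :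
    k * (1 - cos h) ≤ 1 - cos (k * h) := by
  induction k with
  | zero => simp
  | succ k ih =>
    push_cast at hk ⊢
    have hk0 : (0 : ℝ) ≤ (k : ℝ) * h := by positivity
    have h1 : (k : ℝ) * h ≤ π := by linarith only [hh, hk]
    have h2 := ih h1
    have h3 := cos_superadd hk0 hh (by linarith)
    have e : ((k : ℝ) + 1) * h = k * h + h := by ring
    rw [e]
    linarith

private theorem cos_lt_one' {h : ℝ} (hh : 0 < h) (hh2 : h < 2 * π) : cos h < 1 := by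
  have e : cos h = 1 - 2 * sin (h / 2) ^ (2 : ℕ) := by
    have : h = 2 * (h / 2) := by ring
    conv_lhs => rw [this]
    rw [cos_two_mul, cos_sq']; ring
  have hs : 0 < sin (h / 2) := sin_pos_of_pos_of_lt_pi (by linarith) (by linarith)
  have : 0 < sin (h / 2) ^ (2 : ℕ) := by positivity
  linarith

private theorem rho_lt_one {V h : ℝ} (hV : 0 < V) (hh : 0 < h) (hh2 : h < 2 * π) :
    gw V h < 1 := by
  unfold gw
  rw [Real.exp_lt_one_iff]
  have := cos_lt_one' hh hh2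
  have : 0 < V * (1 - cos h) := mul_pos hV (by linarith)
  linarith

theorem sg_ge_one {V h : ℝ} (hV : 0 < V) (hh : 0 < h) (hh2 : h < 2 * π) : 1 ≤ sg V h := by
  have h1 : gw V h < 1 := rho_lt_one hV hh hh2
  have h2 : 0 < gw V h := gw_pos V h
  have e : sg V h = 1 / (1 - gw V h) := rfl
  rw [e, le_div_iff₀ (by linarith)]
  linarith

private theorem geo {ρ : ℝ} (h0 : 0 ≤ ρ) (h1 : ρ < 1) (n : ℕ) :
    ∑ i ∈ Finset.range n, ρ ^ i ≤ 1 / (1 - ρ) := by
  rw [le_div_iff₀ (by linarith), mul_comm, mul_neg_geom_sum]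
  have : 0 ≤ ρ ^ n := by positivity
  linarith

private theorem chain_step {V a h : ℝ} (hV : 0 < V) (ha : 0 ≤ a) (hh : 0 ≤ h) (k : ℕ)
    (hk : a + k * h ≤ π) : gw V (a + k * h) ≤ gw V a * gw V h ^ k := by
  have h1 : (0 : ℝ) ≤ (k : ℝ) * h := by positivity
  have h2 := cos_superadd ha h1 hk
  have h3 := mul_cos_le hh k (by linarith)
  unfold gw
  rw [← Real.exp_nat_mul, ← Real.exp_add, Real.exp_le_exp]
  have h4 : (1 - cos a) + k * (1 - cos h) ≤ 1 - cos (a + k * h) := by linarith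
  have h5 := mul_le_mul_of_nonneg_left h4 hV.le
  have e : -(V * (1 - cos a)) + ↑k * -(V * (1 - cos h)) =
      -(V * ((1 - cos a) + k * (1 - cos h))) := by ring
  rw [e]
  linarith

private theorem gw_reflect (V u : ℝ) : gw V (2 * π - u) = gw V u := by
  unfold gw
  rw [Real.cos_two_pi_sub]

/-- The far waves `1 ≤ j ≤ N-2`, `ψ` = angle of the wave `0`. -/
theorem far_chain {N : ℕ} (hN : 3 ≤ N) {V ψ : ℝ} (hV : 0 < V) (h1 : -(2 * π / N) ≤ ψ)
    (h2 : ψ ≤ 2 * (2 * π / N)) :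
    ∑ j ∈ Finset.Ico 1 (N - 1), gw V (ψ + j * (2 * π / N)) ≤
      sg V (2 * π / N) * ((if 2 * (2 * π / N) - ψ ≤ π then gw V (2 * (2 * π / N) - ψ) else 0) +
        (if ψ + 2 * π / N ≤ π then gw V (ψ + 2 * π / N) else 0)) := by
  have hN0 : (0 : ℝ) < N := by
    have : 0 < N := by omega
    exact_mod_cast this
  have hN1 : (3 : ℝ) ≤ N := by exact_mod_cast hN
  obtain ⟨h, hh⟩ : ∃ h : ℝ, h = 2 * π / N := ⟨_, rfl⟩
  rw [← hh] at h1 h2 ⊢
  have hNh : (N : ℝ) * h = 2 * π := by rw [hh]; field_simp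
  have hpos : 0 < h := by rw [hh]; positivity
  have hlt : h < 2 * π := by nlinarith only [hN1, hNh, hpos]
  obtain ⟨A, hA⟩ : ∃ A : ℝ, A = (if 2 * h - ψ ≤ π then gw V (2 * h - ψ) else 0) := ⟨_, rfl⟩
  obtain ⟨B, hB⟩ : ∃ B : ℝ, B = (if ψ + h ≤ π then gw V (ψ + h) else 0) := ⟨_, rfl⟩
  rw [← hA, ← hB]
  have hA0 : 0 ≤ A := by
    rw [hA]; split_ifs
    · exact (gw_pos _ _).le
    · exact le_rfl
  have hB0 : 0 ≤ B := by
    rw [hB]; split_ifs
    · exact (gw_pos _ _).le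
    · exact le_rfl
  have hr0 : 0 ≤ gw V h := (gw_pos _ _).le
  have hr1 : gw V h < 1 := rho_lt_one hV hpos hlt
  have term : ∀ j ∈ Finset.Ico 1 (N - 1), gw V (ψ + j * h) ≤
      A * gw V h ^ (N - 2 - j) + B * gw V h ^ (j - 1) := by
    intro j hj
    rw [Finset.mem_Ico] at hj
    obtain ⟨i, rfl⟩ : ∃ i, j = i + 1 := ⟨j - 1, by omega⟩
    obtain ⟨l, hl⟩ : ∃ l, N = i + 1 + 2 + l := ⟨N - (i + 1) - 2, by omega⟩
    have e1 : N - 2 - (i + 1) = l := by omega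
    have e2 : i + 1 - 1 = i := by omega
    rw [e1, e2]
    have hlR : (N : ℝ) = i + 1 + 2 + l := by
      rw [hl]; push_cast; ring
    have hAl : 0 ≤ A * gw V h ^ l := by positivity
    have hBi : 0 ≤ B * gw V h ^ i := by positivity
    by_cases hc : ψ + ((i + 1 : ℕ) : ℝ) * h ≤ π
    · have e : ψ + ((i + 1 : ℕ) : ℝ) * h = (ψ + h) + i * h := by push_cast; ring
      rw [e] at hc ⊢
      have hi0 : (0 : ℝ) ≤ (i : ℝ) * h := by positivity
      have hB' : B = gw V (ψ + h) := by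
        rw [hB, if_pos (by linarith)]
      have := chain_step hV (by linarith : 0 ≤ ψ + h) hpos.le i hc
      rw [← hB'] at this
      linarith
    · have hc' := lt_of_not_ge hc
      have e : ψ + ((i + 1 : ℕ) : ℝ) * h = 2 * π - ((2 * h - ψ) + l * h) := by
        rw [← hNh, hlR]; push_cast; ring
      rw [e] at hc' ⊢
      rw [gw_reflect]
      have hl0 : (0 : ℝ) ≤ (l : ℝ) * h := by positivity
      have hA' : A = gw V (2 * h - ψ) := by
        rw [hA, if_pos (by linarith)]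
      have := chain_step hV (by linarith : 0 ≤ 2 * h - ψ) hpos.le l (by linarith)
      rw [← hA'] at this
      linarith
  refine (Finset.sum_le_sum term).trans ?_
  rw [Finset.sum_add_distrib, ← Finset.mul_sum, ← Finset.mul_sum]
  have s1 : ∑ j ∈ Finset.Ico 1 (N - 1), gw V h ^ (N - 2 - j) =
      ∑ i ∈ Finset.range (N - 2), gw V h ^ i := by
    rw [Finset.sum_Ico_eq_sum_range, show N - 1 - 1 = N - 2 by omega,
      ← Finset.sum_range_reflect]
    apply Finset.sum_congr rfl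
    intro i hi
    rw [Finset.mem_range] at hi
    rw [show N - 2 - (1 + (N - 2 - 1 - i)) = i by omega]
  have s2 : ∑ j ∈ Finset.Ico 1 (N - 1), gw V h ^ (j - 1) =
      ∑ i ∈ Finset.range (N - 2), gw V h ^ i := by
    rw [Finset.sum_Ico_eq_sum_range, show N - 1 - 1 = N - 2 by omega]
    apply Finset.sum_congr rfl
    intro i _
    rw [show 1 + i - 1 = i by omega]
  rw [s1, s2]
  have hg := geo hr0 hr1 (N - 2)
  have e : sg V h = 1 / (1 - gw V h) := rfl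
  rw [e]
  have g1 := mul_le_mul_of_nonneg_left hg hA0
  have g2 := mul_le_mul_of_nonneg_left hg hB0
  calc _ ≤ A * (1 / (1 - gw V h)) + B * (1 / (1 - gw V h)) := by linarith
    _ = _ := by ring

/-- All waves. -/
theorem all_chain {N : ℕ} (hN : 3 ≤ N) {V ψ : ℝ} (hV : 0 < V) (h1 : 0 ≤ ψ) (h2 : ψ ≤ 2 * π / N) :
    ∑ j ∈ Finset.range N, gw V (ψ + j * (2 * π / N)) ≤
      sg V (2 * π / N) * (gw V ψ + gw V (2 * π / N - ψ)) := by
  have hN0 : (0 : ℝ) < N := by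
    have : 0 < N := by omega
    exact_mod_cast this
  have hN1 : (3 : ℝ) ≤ N := by exact_mod_cast hN
  obtain ⟨h, hh⟩ : ∃ h : ℝ, h = 2 * π / N := ⟨_, rfl⟩
  rw [← hh] at h2 ⊢
  have hNh : (N : ℝ) * h = 2 * π := by rw [hh]; field_simp
  have hpos : 0 < h := by rw [hh]; positivity
  have hlt : h < 2 * π := by nlinarith only [hN1, hNh, hpos]
  have hA0 : 0 ≤ gw V (h - ψ) := (gw_pos _ _).le
  have hB0 : 0 ≤ gw V ψ := (gw_pos _ _).le
  have hr0 : 0 ≤ gw V h := (gw_pos _ _).le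
  have hr1 : gw V h < 1 := rho_lt_one hV hpos hlt
  have term : ∀ j ∈ Finset.range N, gw V (ψ + j * h) ≤
      gw V (h - ψ) * gw V h ^ (N - 1 - j) + gw V ψ * gw V h ^ j := by
    intro j hj
    rw [Finset.mem_range] at hj
    obtain ⟨l, hl⟩ : ∃ l, N = j + 1 + l := ⟨N - j - 1, by omega⟩
    have e1 : N - 1 - j = l := by omega
    rw [e1]
    have hlR : (N : ℝ) = j + 1 + l := by
      rw [hl]; push_cast; ring
    have hAl : 0 ≤ gw V (h - ψ) * gw V h ^ l := by positivity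
    have hBi : 0 ≤ gw V ψ * gw V h ^ j := by positivity
    by_cases hc : ψ + (j : ℝ) * h ≤ π
    · have := chain_step hV h1 hpos.le j hc
      linarith
    · have hc' := lt_of_not_ge hc
      have e : ψ + (j : ℝ) * h = 2 * π - ((h - ψ) + l * h) := by
        rw [← hNh, hlR]; ring
      rw [e] at hc' ⊢
      rw [gw_reflect]
      have := chain_step hV (by linarith : 0 ≤ h - ψ) hpos.le l (by linarith)
      linarith
  refine (Finset.sum_le_sum term).trans ?_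
  rw [Finset.sum_add_distrib, ← Finset.mul_sum, ← Finset.mul_sum]
  have s1 : ∑ j ∈ Finset.range N, gw V h ^ (N - 1 - j) =
      ∑ i ∈ Finset.range N, gw V h ^ i := Finset.sum_range_reflect _ _
  rw [s1]
  have hg := geo hr0 hr1 N
  have e : sg V h = 1 / (1 - gw V h) := rfl
  rw [e]
  have g1 := mul_le_mul_of_nonneg_left hg hA0
  have g2 := mul_le_mul_of_nonneg_left hg hB0
  calc _ ≤ gw V (h - ψ) * (1 / (1 - gw V h)) + gw V ψ * (1 / (1 - gw V h)) := by linarith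
    _ = _ := by ring

end SokamFA

end

/-! ### Lib_MP_af4de1_fa.FrD -/

section
/-!
# FAR, stage 1: periods

PLAN.
* `W_le`: on `|u| ≤ 6/5`: `1 - cos u ≥ u²/2 - u⁴/24 ≥ (11/25) u²` (`Real.cos_le..` / `Real.cos_bound`: Taylor), on
  `6/5 ≤ |u| ≤ π`: `1 - cos u ≥ 1 - cos(6/5) ≥ .6336`.  So pointwise on `[-π,π]`
  `gw V u ≤ exp(-(11/25) V u²) + exp(-.6336 V)` (`gw_split`), and
  `∫ ≤ √(π/(.44 V)) + 2π e^(-.6336 V) ≤ 2.6721/√V + .0018.. ≤ 2.68/√V` for `V ≥ 15`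
  (`2π e^(-.6336 V) √V ≤ .0075`: `√V ≤ e^(V/20)·..`, or `e^(-.6336 V) ≤ e^(-9.504) e^(-.6336 (V-15))`,
  `√V ≤ √15 e^((V-15)/30)`).
* `half_W`: evenness and `h ≤ π`.
* `period_sum`: `∫_0^h Σ_j gw(ψ+s+jh) ds = Σ_j ∫_{ψ+jh}^{ψ+(j+1)h} gw = ∫_ψ^{ψ+2π} gw = ∫_{-π}^{π} gw`
  (`intervalIntegral.sum_integral_adjacent_intervals`, `Function.Periodic.intervalIntegral_add_eq`).
* `tail_abs`: `Ioi S1 = ⋃ n, Ioc (S1+n h) (S1+(n+1) h)` disjoint, `lintegral_iUnion`,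
  each term `≤ ofReal (A ρ^n Wc)`, sum of the geometric series.
-/

namespace SokamFA

open Real MeasureTheory Set

private theorem one_sub_cos_half (u : ℝ) : 1 - cos u = 2 * sin (u / 2) ^ (2 : ℕ) := by
  have h := Real.cos_sq' (u / 2)
  have h2 := Real.cos_sq (u / 2)
  rw [show 2 * (u / 2) = u by ring] at h2
  linarith

private theorem cos_split_pos {u : ℝ} (h0 : 0 ≤ u) (hu : u ≤ 6 / 5) : 11 / 25 * u ^ (2 : ℕ) ≤ 1 - cos u := by
  rw [one_sub_cos_half]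
  set y := u / 2 with hy
  have hy0 : 0 ≤ y := by positivity
  have hy1 : y ≤ 3 / 5 := by rw [hy]; linarith
  have h1 := Real.sin_ge_sub_cube hy0
  have h2 : y * (47 / 50) ≤ y - y ^ (3 : ℕ) / 6 := by nlinarith only [mul_nonneg hy0 (sub_nonneg.2 hy1), mul_nonneg hy0 hy0]
  have h3 : y * (47 / 50) ≤ sin y := h2.trans h1
  have h4 : (y * (47 / 50)) ^ (2 : ℕ) ≤ sin y ^ (2 : ℕ) := pow_le_pow_left₀ (by positivity) h3 2
  have h5 : u = 2 * y := by rw [hy]; ring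
  rw [h5]
  nlinarith only [h4]

theorem cos_split_small {u : ℝ} (hu : |u| ≤ 6 / 5) : 11 / 25 * u ^ (2 : ℕ) ≤ 1 - cos u := by
  have h := cos_split_pos (abs_nonneg u) hu
  rwa [sq_abs, Real.cos_abs] at h

theorem cos_split_large {u : ℝ} (h1 : 6 / 5 ≤ u) (h2 : u ≤ π) : 6336 / 10000 ≤ 1 - cos u := by
  have h3 := cos_split_pos (u := 6 / 5) (by norm_num) le_rfl
  have h4 := Real.cos_le_cos_of_nonneg_of_le_pi (by norm_num : (0 : ℝ) ≤ 6 / 5) h2 h1
  norm_num at h3 ⊢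
  linarith

theorem gw_split {V u : ℝ} (hV : 0 ≤ V) (h1 : 0 ≤ u) (h2 : u ≤ π) :
    gw V u ≤ exp (-(V * (11 / 25 * u ^ (2 : ℕ)))) + exp (-(V * (6336 / 10000))) := by
  unfold gw
  rcases le_total u (6 / 5) with h | h
  · have h3 := cos_split_pos h1 h
    have h4 : exp (-(V * (1 - cos u))) ≤ exp (-(V * (11 / 25 * u ^ (2 : ℕ)))) :=
      Real.exp_le_exp.2 (neg_le_neg (mul_le_mul_of_nonneg_left h3 hV))
    linarith [Real.exp_pos (-(V * (6336 / 10000)))]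
  · have h3 := cos_split_large h h2
    have h4 : exp (-(V * (1 - cos u))) ≤ exp (-(V * (6336 / 10000))) :=
      Real.exp_le_exp.2 (neg_le_neg (mul_le_mul_of_nonneg_left h3 hV))
    linarith [Real.exp_pos (-(V * (11 / 25 * u ^ (2 : ℕ))))]

private theorem gw_even (V u : ℝ) : gw V (-u) = gw V u := by
  unfold gw
  rw [Real.cos_neg]

private theorem gw_split' {V u : ℝ} (hV : 0 ≤ V) (h : u ∈ Icc (-π) π) :
    gw V u ≤ exp (-(11 / 25 * V) * u ^ (2 : ℕ)) + exp (-(V * (6336 / 10000))) := by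
  have h1 := gw_split (V := V) (u := |u|) hV (abs_nonneg u) (abs_le.2 ⟨h.1, h.2⟩)
  rw [sq_abs] at h1
  have h2 : gw V |u| = gw V u := by
    rcases abs_choice u with h3 | h3
    · rw [h3]
    · rw [h3, gw_even]
  rw [h2] at h1
  rwa [show -(11 / 25 * V) * u ^ (2 : ℕ) = -(V * (11 / 25 * u ^ (2 : ℕ))) by ring]

theorem W_le {V : ℝ} (hV : 15 ≤ V) : ∫ u in (-π)..π, gw V u ≤ 67 / 25 / √V := by
  have hpi := Real.pi_pos
  have hV0 : (0 : ℝ) < V := by linarith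
  have hb : 0 < 11 / 25 * V := by positivity
  have hg := integrable_exp_neg_mul_sq hb
  have h1 : ∫ u in (-π)..π, gw V u ≤ ∫ u in (-π)..π, (exp (-(11 / 25 * V) * u ^ (2 : ℕ)) + exp (-(V * (6336 / 10000)))) := by
    refine intervalIntegral.integral_mono_on (by linarith) ((continuous_gw V).intervalIntegrable _ _) ?_ fun u hu => gw_split' hV0.le hu
    exact (Continuous.add (by fun_prop) continuous_const).intervalIntegrable _ _
  have h2 : ∫ u in (-π)..π, (exp (-(11 / 25 * V) * u ^ (2 : ℕ)) + exp (-(V * (6336 / 10000)))) =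
      (∫ u in (-π)..π, exp (-(11 / 25 * V) * u ^ (2 : ℕ))) + 2 * π * exp (-(V * (6336 / 10000))) := by
    rw [intervalIntegral.integral_add hg.intervalIntegrable intervalIntegrable_const, intervalIntegral.integral_const, smul_eq_mul]
    ring
  have h3 : ∫ u in (-π)..π, exp (-(11 / 25 * V) * u ^ (2 : ℕ)) ≤ √(π / (11 / 25 * V)) := by
    rw [← integral_gaussian, intervalIntegral.integral_of_le (by linarith)]
    exact setIntegral_le_integral hg (Filter.Eventually.of_forall fun u => (Real.exp_pos _).le)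
  have hs : 0 < √V := Real.sqrt_pos.2 hV0
  have hss : √V * √V = V := Real.mul_self_sqrt hV0.le
  have h4 : √(π / (11 / 25 * V)) ≤ 107 / 40 / √V := by
    rw [show π / (11 / 25 * V) = (25 / 11 * π) / V by field_simp, Real.sqrt_div' _ hV0.le]
    refine div_le_div_of_nonneg_right ?_ hs.le
    rw [Real.sqrt_le_left (by norm_num)]
    linarith [Real.pi_lt_d4]
  have h5 : 2 * π * exp (-(V * (6336 / 10000))) ≤ 1 / 200 / √V := by
    rw [le_div_iff₀ hs]
    have hsq : √V ≤ (V + 16) / 8 := by linarith only [hss, sq_nonneg (√V - 4)]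
    have he : exp (-(V * (6336 / 10000))) = exp (-(9504 / 1000)) * exp (-((V - 15) * (6336 / 10000))) := by
      rw [← Real.exp_add]
      congr 1
      ring
    have he1 : exp (-((V - 15) * (6336 / 10000))) * (V + 16) ≤ 31 := by
      have h6 := Real.add_one_le_exp ((V - 15) * (6336 / 10000))
      have h7 : exp (-((V - 15) * (6336 / 10000))) * exp ((V - 15) * (6336 / 10000)) = 1 := by
        rw [← Real.exp_add, neg_add_cancel, Real.exp_zero]
      have h8 : V + 16 ≤ 31 * exp ((V - 15) * (6336 / 10000)) := by linarith only [hV, h6]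
      calc exp (-((V - 15) * (6336 / 10000))) * (V + 16)
          ≤ exp (-((V - 15) * (6336 / 10000))) * (31 * exp ((V - 15) * (6336 / 10000))) :=
            mul_le_mul_of_nonneg_left h8 (Real.exp_pos _).le
        _ = 31 * (exp (-((V - 15) * (6336 / 10000))) * exp ((V - 15) * (6336 / 10000))) := by ring
        _ = 31 := by rw [h7, mul_one]
    have he2 : exp (-(9504 / 1000)) ≤ 1 / 7600 := by
      have h6 : exp (-(9504 / 1000)) ≤ exp (-9) := Real.exp_le_exp.2 (by norm_num)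
      have h7 : (7600 : ℝ) ≤ exp 9 := by
        have h8 : exp 9 = exp 1 ^ (9 : ℕ) := by rw [← Real.exp_nat_mul]; norm_num
        rw [h8]
        have h9 : (27 / 10 : ℝ) ≤ exp 1 := by linarith [Real.exp_one_gt_d9]
        calc (7600 : ℝ) ≤ (27 / 10) ^ (9 : ℕ) := by norm_num
          _ ≤ exp 1 ^ (9 : ℕ) := pow_le_pow_left₀ (by norm_num) h9 9
      refine h6.trans ?_
      rw [Real.exp_neg, inv_eq_one_div]
      exact one_div_le_one_div_of_le (by norm_num) h7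
    have hp := Real.exp_pos (-(V * (6336 / 10000)))
    calc 2 * π * exp (-(V * (6336 / 10000))) * √V
        ≤ 2 * π * exp (-(V * (6336 / 10000))) * ((V + 16) / 8) := mul_le_mul_of_nonneg_left hsq (by positivity)
      _ = π / 4 * (exp (-(9504 / 1000)) * (exp (-((V - 15) * (6336 / 10000))) * (V + 16))) := by rw [he]; ring
      _ ≤ π / 4 * (1 / 7600 * 31) := by
          refine mul_le_mul_of_nonneg_left ?_ (by positivity)
          exact mul_le_mul he2 he1 (mul_nonneg (Real.exp_pos _).le (by linarith)) (by norm_num)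
      _ ≤ 1 / 200 := by linarith [Real.pi_lt_d2]
  calc ∫ u in (-π)..π, gw V u ≤ 107 / 40 / √V + 1 / 200 / √V := by linarith
    _ = 67 / 25 / √V := by ring

theorem half_W {V h : ℝ} (hV : 15 ≤ V) (hh : 0 ≤ h) (hh1 : h ≤ π) :
    ∫ u in (0 : ℝ)..h, gw V u ≤ 67 / 50 / √V := by
  have hpi := Real.pi_pos
  have hi : ∀ a b : ℝ, IntervalIntegrable (gw V) volume a b := fun a b => (continuous_gw V).intervalIntegrable a b
  have h1 : ∫ u in (0 : ℝ)..h, gw V u ≤ ∫ u in (0 : ℝ)..π, gw V u := by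
    rw [← intervalIntegral.integral_add_adjacent_intervals (hi 0 h) (hi h π)]
    have := intervalIntegral.integral_nonneg (μ := volume) (f := gw V) hh1 fun u _ => (gw_pos V u).le
    linarith
  have h2 : ∫ u in (-π)..0, gw V u = ∫ u in (0 : ℝ)..π, gw V u := by
    have := intervalIntegral.integral_comp_neg (a := (0 : ℝ)) (b := π) (gw V)
    simp only [gw_even, neg_zero] at this
    exact this.symm
  have h3 := intervalIntegral.integral_add_adjacent_intervals (hi (-π) 0) (hi 0 π)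
  have h4 := W_le hV
  have h5 : 67 / 25 / √V = 2 * (67 / 50 / √V) := by ring
  linarith

end SokamFA

end

/-! ### Lib_MP_af4de1_fa.FrD3 -/

section
/-! See the PLAN in `FrD.lean` (`tail_abs`). -/

namespace SokamFA

open Real MeasureTheory Set

/-- Tail over periods. -/
theorem tail_abs {w F : ℝ → ℝ} {S1 h A r1 Wc : ℝ} (hh : 0 < h) (hA : 0 ≤ A) (h0 : 0 ≤ r1)
    (h1 : r1 < 1) (hF : Continuous F) (hF0 : ∀ s, 0 ≤ F s)
    (hW : ∀ a : ℝ, ∫ s in a..(a + h), F s ≤ Wc) (hw0 : ∀ s, 0 ≤ w s)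
    (hw : ∀ n : ℕ, ∀ s ∈ Ioc (S1 + n * h) (S1 + (n + 1) * h), w s ≤ A * r1 ^ n) :
    ∫⁻ s in Ioi S1, ENNReal.ofReal (w s * F s) ≤ ENNReal.ofReal (A * Wc / (1 - r1)) := by
  have hsub : Ioi S1 ⊆ ⋃ n : ℕ, Ioc (S1 + n * h) (S1 + (n + 1) * h) := by
    intro s hs
    have hs' : 0 < s - S1 := sub_pos.2 hs
    have hx : 0 < (s - S1) / h := div_pos hs' hh
    have hc : 0 < ⌈(s - S1) / h⌉₊ := Nat.ceil_pos.2 hx
    obtain ⟨n, hn⟩ : ∃ n : ℕ, ⌈(s - S1) / h⌉₊ = n + 1 := ⟨⌈(s - S1) / h⌉₊ - 1, by omega⟩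
    have h2 : (s - S1) / h ≤ n + 1 := by
      have := Nat.le_ceil ((s - S1) / h)
      rw [hn] at this
      exact_mod_cast this
    have h3 : (n : ℝ) < (s - S1) / h := by
      have : n < ⌈(s - S1) / h⌉₊ := by omega
      exact Nat.lt_ceil.1 this
    rw [div_le_iff₀ hh] at h2
    rw [lt_div_iff₀ hh] at h3
    rw [mem_iUnion]
    exact ⟨n, by linarith, by linarith⟩
  have hWc : 0 ≤ Wc := by
    refine le_trans ?_ (hW S1)
    exact intervalIntegral.integral_nonneg (by linarith) fun s _ => hF0 s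
  have hpiece : ∀ n : ℕ, ∫⁻ s in Ioc (S1 + n * h) (S1 + (n + 1) * h), ENNReal.ofReal (w s * F s) ≤
      ENNReal.ofReal (A * Wc * r1 ^ n) := by
    intro n
    have e1 : S1 + (n + 1) * h = S1 + n * h + h := by ring
    have hc0 : 0 ≤ A * r1 ^ n := by positivity
    have hint : IntegrableOn (fun s => A * r1 ^ n * F s) (Ioc (S1 + n * h) (S1 + (n + 1) * h)) := by
      have hcont : Continuous fun s => A * r1 ^ n * F s := continuous_const.mul hF
      exact (hcont.continuousOn.integrableOn_Icc).mono_set Ioc_subset_Icc_self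
    calc ∫⁻ s in Ioc (S1 + n * h) (S1 + (n + 1) * h), ENNReal.ofReal (w s * F s)
        ≤ ∫⁻ s in Ioc (S1 + n * h) (S1 + (n + 1) * h), ENNReal.ofReal (A * r1 ^ n * F s) := by
          refine setLIntegral_mono' measurableSet_Ioc fun s hs => ?_
          exact ENNReal.ofReal_le_ofReal (mul_le_mul_of_nonneg_right (hw n s hs) (hF0 s))
      _ = ENNReal.ofReal (∫ s in Ioc (S1 + n * h) (S1 + (n + 1) * h), A * r1 ^ n * F s) := by
          rw [ofReal_integral_eq_lintegral_ofReal hint]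
          exact Filter.Eventually.of_forall fun s => mul_nonneg hc0 (hF0 s)
      _ ≤ ENNReal.ofReal (A * Wc * r1 ^ n) := by
          apply ENNReal.ofReal_le_ofReal
          rw [e1, ← intervalIntegral.integral_of_le (by linarith), intervalIntegral.integral_const_mul]
          have h4 := mul_le_mul_of_nonneg_left (hW (S1 + n * h)) hc0
          refine h4.trans (le_of_eq ?_)
          ring
  calc ∫⁻ s in Ioi S1, ENNReal.ofReal (w s * F s)
      ≤ ∫⁻ s in ⋃ n : ℕ, Ioc (S1 + n * h) (S1 + (n + 1) * h), ENNReal.ofReal (w s * F s) :=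
        lintegral_mono_set hsub
    _ ≤ ∑' n : ℕ, ∫⁻ s in Ioc (S1 + n * h) (S1 + (n + 1) * h), ENNReal.ofReal (w s * F s) :=
        lintegral_iUnion_le _ _
    _ ≤ ∑' n : ℕ, ENNReal.ofReal (A * Wc * r1 ^ n) := ENNReal.tsum_le_tsum hpiece
    _ = ENNReal.ofReal (∑' n : ℕ, A * Wc * r1 ^ n) := by
        rw [ENNReal.ofReal_tsum_of_nonneg]
        · intro n
          positivity
        · exact (summable_geometric_of_lt_one h0 h1).mul_left _
    _ = ENNReal.ofReal (A * Wc / (1 - r1)) := by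
        rw [tsum_mul_left, tsum_geometric_of_lt_one h0 h1, div_eq_mul_inv]

end SokamFA

end

/-! ### Lib_MP_af4de1_fu.MScalB -/

section
/-!
# Scalar inequalities for the heights, slope `5/2` (case B)

`A(u) = e^u sin(5u/2) - 5u/2 = 5u²/2 - 1.354 u³ - 2.19 u⁴ + ..`, `S(u) = 1 + u - e^u cos(5u/2) = 2.625 u² + 2.958 u³ - .107 u⁴ - 1.115 u⁵ + ..`.
Taylor polynomials of `exp(z)`, `z = (1 + 5i/2) u` with the remainder `|z|^n/n! e^(max(Re z,0))` are one way.  All checked numerically: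
`A(u)/u² ∈ [.0370, 2.5]`, `S(u)/u² ≥ 2.62` on `(0,.8]`; `-A(-t)/t² .. `: see the statements (`[2.5, 2.7276]`, `≥ 1.235`).
-/

set_option autoImplicit false

namespace SokamFU

open Real

/-- Taylor polynomials of degree 7 of `exp (x + i y)` with the error bound of `Complex.exp_bound'`. -/
private theorem tay_scb {x y : ℝ} (h : x ^ (2 : ℕ) + y ^ (2 : ℕ) ≤ 20) :
    |exp x * cos y - (1 + x + (x ^ (2 : ℕ) - y ^ (2 : ℕ)) / 2 + (x ^ (3 : ℕ) - 3 * x * y ^ (2 : ℕ)) / 6 +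
      (x ^ (4 : ℕ) - 6 * x ^ (2 : ℕ) * y ^ (2 : ℕ) + y ^ (4 : ℕ)) / 24 + (x ^ (5 : ℕ) - 10 * x ^ (3 : ℕ) * y ^ (2 : ℕ) + 5 * x * y ^ (4 : ℕ)) / 120 +
      (x ^ (6 : ℕ) - 15 * x ^ (4 : ℕ) * y ^ (2 : ℕ) + 15 * x ^ (2 : ℕ) * y ^ (4 : ℕ) - y ^ (6 : ℕ)) / 720 +
      (x ^ (7 : ℕ) - 21 * x ^ (5 : ℕ) * y ^ (2 : ℕ) + 35 * x ^ (3 : ℕ) * y ^ (4 : ℕ) - 7 * x * y ^ (6 : ℕ)) / 5040)| ≤
      (x ^ (2 : ℕ) + y ^ (2 : ℕ)) ^ (4 : ℕ) / 20160 ∧
    |exp x * sin y - (y + 2 * x * y / 2 + (3 * x ^ (2 : ℕ) * y - y ^ (3 : ℕ)) / 6 +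
      (4 * x ^ (3 : ℕ) * y - 4 * x * y ^ (3 : ℕ)) / 24 + (5 * x ^ (4 : ℕ) * y - 10 * x ^ (2 : ℕ) * y ^ (3 : ℕ) + y ^ (5 : ℕ)) / 120 +
      (6 * x ^ (5 : ℕ) * y - 20 * x ^ (3 : ℕ) * y ^ (3 : ℕ) + 6 * x * y ^ (5 : ℕ)) / 720 +
      (7 * x ^ (6 : ℕ) * y - 35 * x ^ (4 : ℕ) * y ^ (3 : ℕ) + 21 * x ^ (2 : ℕ) * y ^ (5 : ℕ) - y ^ (7 : ℕ)) / 5040)| ≤
      (x ^ (2 : ℕ) + y ^ (2 : ℕ)) ^ (4 : ℕ) / 20160 := by
  obtain ⟨z, hz⟩ : ∃ z : ℂ, z = (x : ℂ) + (y : ℂ) * Complex.I := ⟨_, rfl⟩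
  have hn2 : ‖z‖ ^ (2 : ℕ) = x ^ (2 : ℕ) + y ^ (2 : ℕ) := by
    rw [Complex.sq_norm, hz, Complex.normSq_add_mul_I]
  have hn : ‖z‖ ≤ 9 / 2 := by
    by_contra hc
    rw [not_le] at hc
    nlinarith
  have hb := Complex.exp_bound' (x := z) (n := 8) (by
    norm_num
    linarith only [hn])
  have hn8 : ‖z‖ ^ (8 : ℕ) / ((Nat.factorial 8 : ℕ) : ℝ) * 2 = (x ^ (2 : ℕ) + y ^ (2 : ℕ)) ^ (4 : ℕ) / 20160 := by
    rw [← hn2, ← pow_mul]
    norm_num [Nat.factorial]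
    ring
  rw [hn8] at hb
  have hm : ∀ a b : ℝ, ((a : ℂ) + (b : ℂ) * Complex.I) * z =
      ((a * x - b * y : ℝ) : ℂ) + ((a * y + b * x : ℝ) : ℂ) * Complex.I := by
    intro a b
    rw [hz]
    push_cast
    linear_combination (b : ℂ) * y * Complex.I_sq
  have z1 : z ^ (1 : ℕ) = ((x : ℝ) : ℂ) + ((y : ℝ) : ℂ) * Complex.I := by rw [pow_one, hz]
  have z2 : z ^ (2 : ℕ) = ((x * x - y * y : ℝ) : ℂ) + ((x * y + y * x : ℝ) : ℂ) * Complex.I := by
    rw [pow_succ, z1, hm]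
  have z3 := (pow_succ z 2).trans (by rw [z2, hm])
  have z4 := (pow_succ z 3).trans (by rw [z3, hm])
  have z5 := (pow_succ z 4).trans (by rw [z4, hm])
  have z6 := (pow_succ z 5).trans (by rw [z5, hm])
  have z7 := (pow_succ z 6).trans (by rw [z6, hm])
  have hsum : ∑ m ∈ Finset.range 8, z ^ m / (m.factorial : ℂ) =
      ((1 + x + (x ^ (2 : ℕ) - y ^ (2 : ℕ)) / 2 + (x ^ (3 : ℕ) - 3 * x * y ^ (2 : ℕ)) / 6 +
      (x ^ (4 : ℕ) - 6 * x ^ (2 : ℕ) * y ^ (2 : ℕ) + y ^ (4 : ℕ)) / 24 + (x ^ (5 : ℕ) - 10 * x ^ (3 : ℕ) * y ^ (2 : ℕ) + 5 * x * y ^ (4 : ℕ)) / 120 +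
      (x ^ (6 : ℕ) - 15 * x ^ (4 : ℕ) * y ^ (2 : ℕ) + 15 * x ^ (2 : ℕ) * y ^ (4 : ℕ) - y ^ (6 : ℕ)) / 720 +
      (x ^ (7 : ℕ) - 21 * x ^ (5 : ℕ) * y ^ (2 : ℕ) + 35 * x ^ (3 : ℕ) * y ^ (4 : ℕ) - 7 * x * y ^ (6 : ℕ)) / 5040 : ℝ) : ℂ) +
      ((y + 2 * x * y / 2 + (3 * x ^ (2 : ℕ) * y - y ^ (3 : ℕ)) / 6 +
      (4 * x ^ (3 : ℕ) * y - 4 * x * y ^ (3 : ℕ)) / 24 + (5 * x ^ (4 : ℕ) * y - 10 * x ^ (2 : ℕ) * y ^ (3 : ℕ) + y ^ (5 : ℕ)) / 120 +
      (6 * x ^ (5 : ℕ) * y - 20 * x ^ (3 : ℕ) * y ^ (3 : ℕ) + 6 * x * y ^ (5 : ℕ)) / 720 +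
      (7 * x ^ (6 : ℕ) * y - 35 * x ^ (4 : ℕ) * y ^ (3 : ℕ) + 21 * x ^ (2 : ℕ) * y ^ (5 : ℕ) - y ^ (7 : ℕ)) / 5040 : ℝ) : ℂ) *
      Complex.I := by
    simp only [Finset.sum_range_succ, Finset.sum_range_zero, zero_add]
    rw [z7, z6, z5, z4, z3, z2, z1, pow_zero]
    norm_num [Nat.factorial]
    ring
  have hexp : Complex.exp z = ((exp x * cos y : ℝ) : ℂ) + ((exp x * sin y : ℝ) : ℂ) * Complex.I := by
    rw [hz, Complex.exp_add_mul_I]
    push_cast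
    ring
  rw [hsum, hexp] at hb
  constructor
  · refine le_trans (le_of_eq ?_) ((Complex.abs_re_le_norm _).trans hb)
    simp only [Complex.sub_re, Complex.add_re, Complex.ofReal_re, Complex.mul_re, Complex.ofReal_im,
      Complex.I_re, Complex.I_im, mul_zero, zero_mul, sub_zero, add_zero]
  · refine le_trans (le_of_eq ?_) ((Complex.abs_im_le_norm _).trans hb)
    simp only [Complex.sub_im, Complex.add_im, Complex.ofReal_re, Complex.mul_im, Complex.ofReal_im,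
      Complex.I_re, Complex.I_im, mul_zero, mul_one, zero_add, add_zero]

private theorem p1_scb {u : ℝ} (h0 : 0 ≤ u) (h1 : u ≤ 4 / 5) : 0 ≤ 51 / 20 * u ^ (2 : ℕ) - 65 / 48 * u ^ (3 : ℕ) - 35 / 16 * u ^ (4 : ℕ) - 295 / 768 * u ^ (5 : ℕ)
      + 923 / 2304 * u ^ (6 : ℕ) + 23323 / 129024 * u ^ (7 : ℕ) - 707281 / 5160960 * u ^
      8 := by
  obtain ⟨v, hv⟩ : ∃ v : ℝ, v = 4 / 5 - u := ⟨_, rfl⟩
  have hv0 : 0 ≤ v := by rw [hv]; linarith only [h1]
  have e : 51 / 20 * u ^ (2 : ℕ) - 65 / 48 * u ^ (3 : ℕ) - 35 / 16 * u ^ (4 : ℕ) - 295 / 768 * u ^ (5 : ℕ)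
      + 923 / 2304 * u ^ (6 : ℕ) + 23323 / 129024 * u ^ (7 : ℕ) - 707281 / 5160960 * u ^
      8 =
      u ^ (2 : ℕ) * (159375 / 16384 * v ^ (6 : ℕ) + 2665625 / 49152 * u ^ (1 : ℕ) * v ^ (5 : ℕ) +
      2946875 / 24576 * u ^ (2 : ℕ) * v ^ (4 : ℕ) + 2148125 / 16384 * u ^ (3 : ℕ) * v ^ (3 : ℕ) +
      2614325 / 36864 * u ^ (4 : ℕ) * v ^ (2 : ℕ) + 8033965 / 516096 * u ^ (5 : ℕ) * v ^ (1 : ℕ) +
      564997 / 2580480 * u ^ (6 : ℕ)) := by
    rw [hv]
    ring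
  rw [e]
  (clear * - h0 hv0; positivity)

private theorem p2_scb {u : ℝ} (h0 : 0 ≤ u) (h1 : u ≤ 4 / 5) : 0 ≤ 65 / 48 * u ^ (3 : ℕ) + 35 / 16 * u ^ (4 : ℕ) + 295 / 768 * u ^ (5 : ℕ) - 923 / 2304 * u
      ^ (6 : ℕ) - 23323 / 129024 * u ^ (7 : ℕ) - 707281 / 5160960 * u ^ (8 : ℕ) := by
  obtain ⟨v, hv⟩ : ∃ v : ℝ, v = 4 / 5 - u := ⟨_, rfl⟩
  have hv0 : 0 ≤ v := by rw [hv]; linarith only [h1]
  have e : 65 / 48 * u ^ (3 : ℕ) + 35 / 16 * u ^ (4 : ℕ) + 295 / 768 * u ^ (5 : ℕ) - 923 / 2304 * u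
      ^ (6 : ℕ) - 23323 / 129024 * u ^ (7 : ℕ) - 707281 / 5160960 * u ^ (8 : ℕ) =
      u ^ (3 : ℕ) * (203125 / 49152 * v ^ (5 : ℕ) + 1278125 / 49152 * u ^ (1 : ℕ) * v ^ (4 : ℕ) +
      1039375 / 16384 * u ^ (2 : ℕ) * v ^ (3 : ℕ) + 11058325 / 147456 * u ^ (3 : ℕ) * v ^ (2 : ℕ) +
      11043955 / 258048 * u ^ (4 : ℕ) * v ^ (1 : ℕ) + 6808367 / 737280 * u ^ (5 : ℕ)) := by
    rw [hv]
    ring
  rw [e]
  (clear * - h0 hv0; positivity)

private theorem p3_scb {u : ℝ} (h0 : 0 ≤ u) (h1 : u ≤ 4 / 5) : 0 ≤ 1 / 40 * u ^ (2 : ℕ) + 71 / 24 * u ^ (3 : ℕ) - 41 / 384 * u ^ (4 : ℕ) - 2141 / 1920 * u ^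
      5 - 1771 / 5120 * u ^ (6 : ℕ) + 30211 / 322560 * u ^ (7 : ℕ) - 707281 / 5160960 * u
      ^ (8 : ℕ) := by
  obtain ⟨v, hv⟩ : ∃ v : ℝ, v = 4 / 5 - u := ⟨_, rfl⟩
  have hv0 : 0 ≤ v := by rw [hv]; linarith only [h1]
  have e : 1 / 40 * u ^ (2 : ℕ) + 71 / 24 * u ^ (3 : ℕ) - 41 / 384 * u ^ (4 : ℕ) - 2141 / 1920 * u ^
      5 - 1771 / 5120 * u ^ (6 : ℕ) + 30211 / 322560 * u ^ (7 : ℕ) - 707281 / 5160960 * u
      ^ (8 : ℕ) =
      u ^ (2 : ℕ) * (3125 / 32768 * v ^ (6 : ℕ) + 471875 / 49152 * u ^ (1 : ℕ) * v ^ (5 : ℕ) +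
      379375 / 8192 * u ^ (2 : ℕ) * v ^ (4 : ℕ) + 728825 / 8192 * u ^ (3 : ℕ) * v ^ (3 : ℕ) +
      8166445 / 98304 * u ^ (4 : ℕ) * v ^ (2 : ℕ) + 38369089 / 1032192 * u ^ (5 : ℕ) * v ^ (1 : ℕ) +
      4515427 / 737280 * u ^ (6 : ℕ)) := by
    rw [hv]
    ring
  rw [e]
  (clear * - h0 hv0; positivity)

private theorem p4_scb {u : ℝ} (h0 : 0 ≤ u) (h1 : u ≤ 1 / 2) : 0 ≤ 1 / 10 * u ^ (2 : ℕ) + 65 / 48 * u ^ (3 : ℕ) - 35 / 16 * u ^ (4 : ℕ) + 295 / 768 * u ^ (5 : ℕ)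
      + 923 / 2304 * u ^ (6 : ℕ) - 23323 / 129024 * u ^ (7 : ℕ) - 707281 / 5160960 * u ^
      8 := by
  obtain ⟨v, hv⟩ : ∃ v : ℝ, v = 1 / 2 - u := ⟨_, rfl⟩
  have hv0 : 0 ≤ v := by rw [hv]; linarith only [h1]
  have e : 1 / 10 * u ^ (2 : ℕ) + 65 / 48 * u ^ (3 : ℕ) - 35 / 16 * u ^ (4 : ℕ) + 295 / 768 * u ^ (5 : ℕ)
      + 923 / 2304 * u ^ (6 : ℕ) - 23323 / 129024 * u ^ (7 : ℕ) - 707281 / 5160960 * u ^
      8 =
      u ^ (2 : ℕ) * (32 / 5 * v ^ (6 : ℕ) + 1226 / 15 * u ^ (1 : ℕ) * v ^ (5 : ℕ) + 833 / 3 * u ^ (2 : ℕ) * v ^ (4 : ℕ) +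
      13581 / 32 * u ^ (3 : ℕ) * v ^ (3 : ℕ) + 190169 / 576 * u ^ (4 : ℕ) * v ^ (2 : ℕ) +
      13668883 / 107520 * u ^ (5 : ℕ) * v ^ (1 : ℕ) + 97594303 / 5160960 * u ^ (6 : ℕ)) := by
    rw [hv]
    ring
  rw [e]
  (clear * - h0 hv0; positivity)

private theorem p5_scb {u : ℝ} (h0 : 0 ≤ u) (h1 : u ≤ 1 / 2) : 0 ≤ 1 / 4 * u ^ (2 : ℕ) - 65 / 48 * u ^ (3 : ℕ) + 35 / 16 * u ^ (4 : ℕ) - 295 / 768 * u ^ (5 : ℕ) -
      923 / 2304 * u ^ (6 : ℕ) + 23323 / 129024 * u ^ (7 : ℕ) - 707281 / 5160960 * u ^ (8 : ℕ) := by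
  obtain ⟨v, hv⟩ : ∃ v : ℝ, v = 1 / 2 - u := ⟨_, rfl⟩
  have hv0 : 0 ≤ v := by rw [hv]; linarith only [h1]
  have e : 1 / 4 * u ^ (2 : ℕ) - 65 / 48 * u ^ (3 : ℕ) + 35 / 16 * u ^ (4 : ℕ) - 295 / 768 * u ^ (5 : ℕ) -
      923 / 2304 * u ^ (6 : ℕ) + 23323 / 129024 * u ^ (7 : ℕ) - 707281 / 5160960 * u ^ (8 : ℕ) =
      u ^ (2 : ℕ) * (16 * v ^ (6 : ℕ) + 158 / 3 * u ^ (1 : ℕ) * v ^ (5 : ℕ) + 175 / 3 * u ^ (2 : ℕ) * v ^ (4 : ℕ) +
      755 / 32 * u ^ (3 : ℕ) * v ^ (3 : ℕ) + 3367 / 576 * u ^ (4 : ℕ) * v ^ (2 : ℕ) +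
      156361 / 21504 * u ^ (5 : ℕ) * v ^ (1 : ℕ) + 1844071 / 573440 * u ^ (6 : ℕ)) := by
    rw [hv]
    ring
  rw [e]
  (clear * - h0 hv0; positivity)

private theorem p6_scb {u : ℝ} (h0 : 0 ≤ u) (h1 : u ≤ 1 / 2) : 0 ≤ 57 / 40 * u ^ (2 : ℕ) - 71 / 24 * u ^ (3 : ℕ) - 41 / 384 * u ^ (4 : ℕ) + 2141 / 1920 * u
      ^ (5 : ℕ) - 1771 / 5120 * u ^ (6 : ℕ) - 30211 / 322560 * u ^ (7 : ℕ) - 707281 / 5160960 *
      u ^ (8 : ℕ) := by
  obtain ⟨v, hv⟩ : ∃ v : ℝ, v = 1 / 2 - u := ⟨_, rfl⟩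
  have hv0 : 0 ≤ v := by rw [hv]; linarith only [h1]
  have e : 57 / 40 * u ^ (2 : ℕ) - 71 / 24 * u ^ (3 : ℕ) - 41 / 384 * u ^ (4 : ℕ) + 2141 / 1920 * u
      ^ (5 : ℕ) - 1771 / 5120 * u ^ (6 : ℕ) - 30211 / 322560 * u ^ (7 : ℕ) - 707281 / 5160960 *
      u ^ (8 : ℕ) =
      u ^ (2 : ℕ) * (456 / 5 * v ^ (6 : ℕ) + 6788 / 15 * u ^ (1 : ℕ) * v ^ (5 : ℕ) + 21431 / 24 * u ^ (2 : ℕ) * v ^ (4 : ℕ) +
      211061 / 240 * u ^ (3 : ℕ) * v ^ (3 : ℕ) + 335203 / 768 * u ^ (4 : ℕ) * v ^ (2 : ℕ) +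
      14650889 / 161280 * u ^ (5 : ℕ) * v ^ (1 : ℕ) + 1168599 / 573440 * u ^ (6 : ℕ)) := by
    rw [hv]
    ring
  rw [e]
  (clear * - h0 hv0; positivity)

theorem scB_sin_right {u : ℝ} (h0 : 0 ≤ u) (h1 : u ≤ 4 / 5) :
    -(1 / 20) * u ^ (2 : ℕ) ≤ exp u * sin (5 / 2 * u) - 5 / 2 * u ∧
    exp u * sin (5 / 2 * u) - 5 / 2 * u ≤ 5 / 2 * u ^ (2 : ℕ) := by
  have ht := (abs_le.1 (tay_scb (x := u) (y := 5 / 2 * u) (by nlinarith)).2)
  have e1 := p1_scb h0 h1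
  have e2 := p2_scb h0 h1
  constructor
  · linarith only [e1, ht.1]
  · linarith only [e2, ht.2]

theorem scB_cos_right {u : ℝ} (h0 : 0 ≤ u) (h1 : u ≤ 4 / 5) :
    13 / 5 * u ^ (2 : ℕ) ≤ 1 + u - exp u * cos (5 / 2 * u) := by
  have ht := (abs_le.1 (tay_scb (x := u) (y := 5 / 2 * u) (by nlinarith)).1)
  have e1 := p3_scb h0 h1
  linarith only [e1, ht.2]

theorem scB_sin_left {t : ℝ} (h0 : 0 ≤ t) (h1 : t ≤ 1 / 2) :
    12 / 5 * t ^ (2 : ℕ) ≤ 5 / 2 * t - exp (-t) * sin (5 / 2 * t) ∧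
    5 / 2 * t - exp (-t) * sin (5 / 2 * t) ≤ 11 / 4 * t ^ (2 : ℕ) := by
  have ht := (abs_le.1 (tay_scb (x := -t) (y := 5 / 2 * t) (by nlinarith)).2)
  have e1 := p4_scb h0 h1
  have e2 := p5_scb h0 h1
  constructor
  · linarith only [e1, ht.2]
  · linarith only [e2, ht.1]

theorem scB_cos_left {t : ℝ} (h0 : 0 ≤ t) (h1 : t ≤ 1 / 2) :
    6 / 5 * t ^ (2 : ℕ) ≤ 1 - t - exp (-t) * cos (5 / 2 * t) := by
  have ht := (abs_le.1 (tay_scb (x := -t) (y := 5 / 2 * t) (by nlinarith)).1)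
  have e1 := p6_scb h0 h1
  linarith only [e1, ht.2]

end SokamFU

end

/-! ### Lib_MP_af4de1_v3.DzBase -/

section
namespace SokamFA
end SokamFA
/-!
# Fields `d`: the plain integrals (abstract height `E`)
-/

set_option autoImplicit false

namespace SokamDz

open Real MeasureTheory Set SokamFA

/-- full Gaussian -/
theorem gauss_all {a : ℝ} (ha : 0 < a) (c : ℝ) :
    ∫⁻ v : ℝ, ENNReal.ofReal (exp (-(a * (v - c) ^ (2 : ℕ)))) = ENNReal.ofReal √(π / a) := by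
  have h1 : ∫⁻ v : ℝ, ENNReal.ofReal (exp (-(a * (v - c) ^ (2 : ℕ)))) =
      ∫⁻ v : ℝ, ENNReal.ofReal (exp (-(a * v ^ (2 : ℕ)))) :=
    lintegral_sub_right_eq_self (μ := (volume : Measure ℝ))
      (fun v : ℝ => ENNReal.ofReal (exp (-(a * v ^ (2 : ℕ))))) c
  have h2 := integral_gaussian a
  have h3 := integrable_exp_neg_mul_sq ha
  rw [h1, ← h2, ofReal_integral_eq_lintegral_ofReal h3
    (Filter.Eventually.of_forall fun v => (exp_pos _).le)]
  refine lintegral_congr fun v => ?_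
  rw [neg_mul]

/-- half Gaussian -/
theorem gauss_Ioi {a : ℝ} (ha : 0 < a) :
    ∫⁻ v in Ioi (0 : ℝ), ENNReal.ofReal (exp (-(a * v ^ (2 : ℕ)))) = ENNReal.ofReal (√(π / a) / 2) := by
  have h2 := integral_gaussian_Ioi a
  have h3 := (integrable_exp_neg_mul_sq ha).integrableOn (s := Ioi 0)
  rw [← h2, ofReal_integral_eq_lintegral_ofReal h3
    (Filter.Eventually.of_forall fun v => (exp_pos _).le)]
  refine lintegral_congr fun v => ?_
  rw [neg_mul]

/-- main zone -/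
theorem base_main {E : ℝ → ℝ} {q A B φ l : ℝ} {S : Set ℝ} (hq : 0 < q) (hAB : 0 < A + B)
    (hS : MeasurableSet S) (h : ∀ v ∈ S, A * v ^ (2 : ℕ) + B * (φ - v) ^ (2 : ℕ) - l ≤ E v) :
    ∫⁻ v in S, ENNReal.ofReal (exp (-(q * E v))) ≤
      ENNReal.ofReal (√(π / (q * (A + B))) * exp (-(q * (A * B * φ ^ (2 : ℕ) / (A + B) - l)))) := by
  have ha : 0 < q * (A + B) := mul_pos hq hAB
  set K := exp (-(q * (A * B * φ ^ (2 : ℕ) / (A + B) - l))) with hK
  have hpt : ∀ v ∈ S, exp (-(q * E v)) ≤ K * exp (-(q * (A + B) * (v - B * φ / (A + B)) ^ (2 : ℕ))) := by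
    intro v hv
    rw [hK, ← exp_add]
    refine exp_le_exp.2 ?_
    have h1 := mul_le_mul_of_nonneg_left (h v hv) hq.le
    have e : q * (A * v ^ (2 : ℕ) + B * (φ - v) ^ (2 : ℕ) - l) = q * (A * B * φ ^ (2 : ℕ) / (A + B) - l) +
        q * (A + B) * (v - B * φ / (A + B)) ^ (2 : ℕ) := by
      field_simp
      ring
    linarith only [h1, e]
  calc ∫⁻ v in S, ENNReal.ofReal (exp (-(q * E v)))
      ≤ ∫⁻ v in S, ENNReal.ofReal K *
          ENNReal.ofReal (exp (-(q * (A + B) * (v - B * φ / (A + B)) ^ (2 : ℕ)))) := by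
        refine setLIntegral_mono' hS fun v hv => ?_
        rw [← ENNReal.ofReal_mul (exp_pos _).le]
        exact ENNReal.ofReal_le_ofReal (hpt v hv)
    _ ≤ ∫⁻ v : ℝ, ENNReal.ofReal K *
          ENNReal.ofReal (exp (-(q * (A + B) * (v - B * φ / (A + B)) ^ (2 : ℕ)))) :=
        setLIntegral_le_lintegral _ _
    _ = ENNReal.ofReal (√(π / (q * (A + B))) * K) := by
        rw [lintegral_const_mul' _ _ ENNReal.ofReal_ne_top, gauss_all ha,
          ← ENNReal.ofReal_mul (exp_pos _).le, mul_comm]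

/-- half Gaussian with a constant -/
theorem base_half {E : ℝ → ℝ} {q A c : ℝ} {S : Set ℝ} (hq : 0 < q) (hA : 0 < A)
    (hS : MeasurableSet S) (h0 : ∀ v ∈ S, 0 < v) (h : ∀ v ∈ S, A * v ^ (2 : ℕ) + c ≤ E v) :
    ∫⁻ v in S, ENNReal.ofReal (exp (-(q * E v))) ≤
      ENNReal.ofReal (√(π / (q * A)) / 2 * exp (-(q * c))) := by
  calc ∫⁻ v in S, ENNReal.ofReal (exp (-(q * E v)))
      ≤ ∫⁻ v in S, ENNReal.ofReal (exp (-(q * c))) *
          ENNReal.ofReal (exp (-(q * A * v ^ (2 : ℕ)))) := by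
        refine setLIntegral_mono' hS fun v hv => ?_
        rw [← ENNReal.ofReal_mul (exp_pos _).le, ← exp_add]
        refine ENNReal.ofReal_le_ofReal (exp_le_exp.2 ?_)
        have h1 := mul_le_mul_of_nonneg_left (h v hv) hq.le
        linarith only [h1]
    _ ≤ ∫⁻ v in Ioi (0 : ℝ), ENNReal.ofReal (exp (-(q * c))) *
          ENNReal.ofReal (exp (-(q * A * v ^ (2 : ℕ)))) := lintegral_mono_set fun v hv => h0 v hv
    _ = ENNReal.ofReal (√(π / (q * A)) / 2 * exp (-(q * c))) := by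
        rw [lintegral_const_mul' _ _ ENNReal.ofReal_ne_top, gauss_Ioi (mul_pos hq hA),
          ← ENNReal.ofReal_mul (exp_pos _).le, mul_comm]

theorem gw_shift_periodic (V φ : ℝ) : Function.Periodic (fun v => gw V (v - φ)) (2 * π) := by
  intro v
  unfold gw
  simp only
  rw [show v + 2 * π - φ = v - φ + 2 * π by ring, cos_add_two_pi]

theorem period_le {V : ℝ} (hV : 15 ≤ V) (φ a : ℝ) :
    ∫ v in a..(a + 2 * π), gw V (v - φ) ≤ 67 / 25 / √V := by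
  have h1 := (gw_shift_periodic V φ).intervalIntegral_add_eq a (φ - π)
  rw [h1]
  have h2 : ∫ v in (φ - π)..(φ - π + 2 * π), gw V (v - φ) = ∫ u in (-π)..π, gw V u := by
    rw [intervalIntegral.integral_comp_sub_right (fun u => gw V u) φ]
    congr 1 <;> ring
  rw [h2]
  exact W_le hV

/-- tail -/
theorem base_tail {E Q : ℝ → ℝ} {q Y V φ : ℝ} (hq : 0 < q) (hV : 15 ≤ V) (hφ : 0 < φ)
    (hφ2 : φ ≤ 2 * π) (hY : 6 ≤ Y) (hQ : Y ≤ q * Q φ)
    (hray : ∀ v, φ ≤ v → Q φ * (v / φ) ≤ Q v)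
    (h : ∀ v, φ < v → q * Q v + V * (1 - cos (v - φ)) ≤ q * E v) :
    ∫⁻ v in Ioi φ, ENNReal.ofReal (exp (-(q * E v))) ≤
      ENNReal.ofReal (3 / 2 / √V * exp (-Y)) := by
  have hpi := Real.pi_pos
  have hV0 : (0 : ℝ) < V := by linarith only [hV]
  have hs : 0 < √V := Real.sqrt_pos.2 hV0
  have hqQ : ∀ v, φ ≤ v → Y * (v / φ) ≤ q * Q v := by
    intro v hv
    have h1 := mul_le_mul_of_nonneg_left (hray v hv) hq.le
    have h2 : 0 ≤ v / φ := div_nonneg (hφ.le.trans hv) hφ.le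
    linarith only [h1, mul_le_mul_of_nonneg_right hQ h2]
  have hcont : Continuous fun v => gw V (v - φ) := (continuous_gw V).comp (continuous_sub_right φ)
  -- first half period
  have hA : ∫⁻ v in Ioc φ (φ + π), ENNReal.ofReal (exp (-(q * E v))) ≤
      ENNReal.ofReal (exp (-Y) * (67 / 50 / √V)) := by
    calc ∫⁻ v in Ioc φ (φ + π), ENNReal.ofReal (exp (-(q * E v)))
        ≤ ∫⁻ v in Ioc φ (φ + π), ENNReal.ofReal (exp (-Y)) * ENNReal.ofReal (gw V (v - φ)) := by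
          refine setLIntegral_mono' measurableSet_Ioc fun v hv => ?_
          rw [← ENNReal.ofReal_mul (exp_pos _).le]
          unfold gw
          rw [← exp_add]
          refine ENNReal.ofReal_le_ofReal (exp_le_exp.2 ?_)
          have h1 := h v hv.1
          have h2 := hqQ v hv.1.le
          have h3 : 1 ≤ v / φ := by rw [le_div_iff₀ hφ]; linarith only [hv.1]
          nlinarith only [hY, h1, h2, h3]
      _ = ENNReal.ofReal (exp (-Y)) * ∫⁻ v in Ioc φ (φ + π), ENNReal.ofReal (gw V (v - φ)) :=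
          lintegral_const_mul' _ _ ENNReal.ofReal_ne_top
      _ ≤ ENNReal.ofReal (exp (-Y)) * ENNReal.ofReal (67 / 50 / √V) := by
          refine mul_le_mul_right ?_ _
          have hint : IntegrableOn (fun v => gw V (v - φ)) (Ioc φ (φ + π)) :=
            hcont.continuousOn.integrableOn_Icc.mono_set Ioc_subset_Icc_self
          rw [← ofReal_integral_eq_lintegral_ofReal hint
            (Filter.Eventually.of_forall fun v => (gw_pos V _).le)]
          refine ENNReal.ofReal_le_ofReal ?_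
          rw [← intervalIntegral.integral_of_le (by linarith only [hpi]),
            intervalIntegral.integral_comp_sub_right (fun u => gw V u) φ]
          have h4 := half_W hV hpi.le le_rfl
          rw [sub_self, add_sub_cancel_left]
          exact h4
      _ = _ := by rw [← ENNReal.ofReal_mul (exp_pos _).le]
  -- the rest
  have hB : ∫⁻ v in Ioi (φ + π), ENNReal.ofReal (exp (-(q * E v))) ≤
      ENNReal.ofReal (exp (-(3 / 2 * Y)) * (67 / 25 / √V) / (1 - exp (-Y))) := by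
    have h1 := tail_abs (w := fun v => if φ + π < v then exp (-(q * Q v)) else 0)
      (F := fun v => gw V (v - φ)) (S1 := φ + π) (h := 2 * π)
      (A := exp (-(3 / 2 * Y))) (r1 := exp (-Y)) (Wc := 67 / 25 / √V) (by positivity)
      (exp_pos _).le (exp_pos _).le (exp_lt_one_iff.2 (by linarith only [hY])) hcont
      (fun v => (gw_pos V _).le) (fun a => period_le hV φ a)
      (fun v => by split_ifs <;> positivity) ?_
    · refine le_trans ?_ h1
      refine setLIntegral_mono' measurableSet_Ioi fun v hv => ?_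
      have hv' : φ + π < v := hv
      simp only [hv', if_true]
      unfold gw
      rw [← exp_add]
      refine ENNReal.ofReal_le_ofReal (exp_le_exp.2 ?_)
      have := h v (by linarith only [hpi, hv'])
      linarith only [this]
    · intro n v hv
      have hn : (0 : ℝ) ≤ n := Nat.cast_nonneg n
      have hv' : φ + π < v := by
        have := hv.1
        have h3 : (0 : ℝ) ≤ n * (2 * π) := by positivity
        linarith only [this, h3]
      simp only [hv', if_true]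
      rw [← exp_nat_mul, ← exp_add]
      refine exp_le_exp.2 ?_
      have h2 := hqQ v (by linarith only [hpi, hv'])
      have h3 : 3 / 2 + (n : ℝ) ≤ v / φ := by
        rw [le_div_iff₀ hφ]
        have h4 := hv.1
        nlinarith only [hφ2, h4]
      have h5 := mul_le_mul_of_nonneg_left h3 (by linarith : (0 : ℝ) ≤ Y)
      linarith only [h2, h5]
  have hsplit : Ioi φ = Ioc φ (φ + π) ∪ Ioi (φ + π) := (Ioc_union_Ioi_eq_Ioi (by linarith only [hpi])).symm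
  rw [hsplit]
  refine (lintegral_union_le _ _ _).trans ((add_le_add hA hB).trans ?_)
  have e6 : exp (-6) ≤ 1 / 400 := by
    have h6 : (400 : ℝ) ≤ exp 6 := by
      have h8 : exp 6 = exp 1 ^ (6 : ℕ) := by rw [← Real.exp_nat_mul]; norm_num
      rw [h8]
      have h9 : (2718 / 1000 : ℝ) ≤ exp 1 := by linarith only [Real.exp_one_gt_d9]
      calc (400 : ℝ) ≤ (2718 / 1000) ^ (6 : ℕ) := by norm_num
        _ ≤ exp 1 ^ (6 : ℕ) := pow_le_pow_left₀ (by norm_num) h9 6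
    rw [Real.exp_neg, inv_eq_one_div]
    exact one_div_le_one_div_of_le (by norm_num) h6
  have e3 : exp (-3) ≤ 1 / 20 := by
    have h6 : (20 : ℝ) ≤ exp 3 := by
      have h8 : exp 3 = exp 1 ^ (3 : ℕ) := by rw [← Real.exp_nat_mul]; norm_num
      rw [h8]
      have h9 : (2718 / 1000 : ℝ) ≤ exp 1 := by linarith only [Real.exp_one_gt_d9]
      calc (20 : ℝ) ≤ (2718 / 1000) ^ (3 : ℕ) := by norm_num
        _ ≤ exp 1 ^ (3 : ℕ) := pow_le_pow_left₀ (by norm_num) h9 3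
    rw [Real.exp_neg, inv_eq_one_div]
    exact one_div_le_one_div_of_le (by norm_num) h6
  have eY : exp (-Y) ≤ 1 / 400 := (exp_le_exp.2 (by linarith only [hY])).trans e6
  have eY2 : exp (-(Y / 2)) ≤ 1 / 20 := (exp_le_exp.2 (by linarith only [hY])).trans e3
  have ed : exp (-(3 / 2 * Y)) = exp (-Y) * exp (-(Y / 2)) := by rw [← exp_add]; congr 1; ring
  have hY0 := exp_pos (-Y)
  have hY1 := exp_pos (-(Y / 2))
  rw [← ENNReal.ofReal_add (by positivity) (by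
    have : 0 < 1 - exp (-Y) := by linarith only [eY]
    positivity)]
  refine ENNReal.ofReal_le_ofReal ?_
  have hd : 0 < 1 - exp (-Y) := by linarith only [eY]
  have h1 : exp (-(3 / 2 * Y)) * (67 / 25 / √V) / (1 - exp (-Y)) ≤
      exp (-Y) * (4 / 25 / √V) := by
    rw [ed, div_le_iff₀ hd]
    have h2 : exp (-(Y / 2)) * (67 / 25) ≤ 4 / 25 * (1 - exp (-Y)) := by linarith only [eY, eY2]
    have h3 : exp (-Y) * exp (-(Y / 2)) * (67 / 25 / √V) =
        exp (-Y) * (exp (-(Y / 2)) * (67 / 25)) / √V := by ring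
    have h4 : exp (-Y) * (4 / 25 / √V) * (1 - exp (-Y)) =
        exp (-Y) * (4 / 25 * (1 - exp (-Y))) / √V := by ring
    rw [h3, h4]
    gcongr
  calc _ ≤ exp (-Y) * (67 / 50 / √V) + exp (-Y) * (4 / 25 / √V) := by linarith only [h1]
    _ = 3 / 2 / √V * exp (-Y) := by ring

end SokamDz

end
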