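import Pool.Agent.Lib_MP_af4de1_zy.Z08
import Pool.Agent.Lib_MP_af4de1_zy.Z11
import Pool.Agent.Lib_MP_af4de1_zy.Z20

/-! ### Lib_MP_af4de1_fu.MHypB -/

section
/-!
# Case B: hypotheses of the general estimate

`h = a + i s`, `d = -(1 + 5i/2)`.  `right` (`v = t(1+5i/2)`): `5t²/2 - a(e^t sin(5t/2) - 5t/2) + s(1 + t - e^t cos(5t/2))`.
`left`, `far` (`v = -t(1+5i/2)`): `5t²/2 - a(5t/2 - e^(-t) sin(5t/2)) + s(1 - t - e^(-t) cos(5t/2))`.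
`side` (`v = x + 2i`, `x = 4/5 + u`): `2x - a(e^x sin 2 - 2) - s(e^x cos 2 - 1 - x) ≥ 8/5 + 2u` (for `a ≥ 0`: `a ≤ .4 s`, `sin 2 = .9093`, `cos 2 = -.4161`; for
`a ≤ 0`: `e^(4/5) sin 2 = 2.0237 ≥ 2`).
`quad`: `(5/2 (1-a) + 21/8 s) t²`.  `k2`, `k3`: `taylor2_ball`, `taylor3_ball` with `r = (4/5)‖d‖ = 2.1541` (`2.3560`, `1.8884`).
-/

set_option autoImplicit false

namespace SokamFU

open Complex

private theorem mb_y : 4292 / 10000 < 2 - Real.pi / 2 ∧ 2 - Real.pi / 2 < 42925 / 100000 := by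
  have h1 := Real.pi_gt_d4
  have h2 := Real.pi_lt_d4
  constructor
  · norm_num at h2 ⊢
    linarith
  · norm_num at h1 ⊢
    linarith

private theorem mb_sin2 : Real.sin 2 = Real.cos (2 - Real.pi / 2) := by
  rw [Real.cos_sub_pi_div_two]

private theorem mb_cos2 : Real.cos 2 = -Real.sin (2 - Real.pi / 2) := by
  rw [Real.sin_sub_pi_div_two, neg_neg]

private theorem mb_sin2_ge : 907 / 1000 ≤ Real.sin 2 := by
  rw [mb_sin2]
  obtain ⟨h1, h2⟩ := mb_y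
  have h3 := Real.one_sub_sq_div_two_le_cos (x := 2 - Real.pi / 2)
  nlinarith

private theorem mb_cos2_le : Real.cos 2 ≤ -(2 / 5) := by
  rw [mb_cos2]
  obtain ⟨h1, h2⟩ := mb_y
  have h3 := Real.sin_gt_sub_cube (x := 2 - Real.pi / 2) (by linarith)
  have h4 : (2 - Real.pi / 2) ^ (3 : ℕ) ≤ (42925 / 100000) ^ (3 : ℕ) := by
    apply pow_le_pow_left₀ (by linarith) h2.le
  norm_num at h4
  linarith

private theorem mb_exp {x : ℝ} (hx : 4 / 5 ≤ x) : 222 / 100 ≤ Real.exp x := by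
  have h1 : Real.exp (4 / 5) ≤ Real.exp x := Real.exp_le_exp.2 hx
  have h2 := Real.sum_le_exp_of_nonneg (show (0 : ℝ) ≤ 4 / 5 by norm_num) 5
  norm_num [Finset.sum_range_succ, Nat.factorial] at h2
  linarith

private theorem mb_expr : Real.exp (431 / 200) ≤ 864 / 100 := by
  have h0 : Real.exp (431 / 200) = Real.exp 1 * Real.exp 1 * Real.exp (31 / 200) := by
    rw [← Real.exp_add, ← Real.exp_add]
    norm_num
  have h1 := Real.exp_one_lt_d9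
  have h2 := Real.exp_bound' (x := 31 / 200) (by norm_num) (by norm_num) (n := 3) (by norm_num)
  norm_num [Finset.sum_range_succ, Nat.factorial] at h2
  have h3 : 0 < Real.exp 1 := Real.exp_pos 1
  have h4 : Real.exp 1 * Real.exp 1 ≤ 2.7182818286 * 2.7182818286 :=
    mul_le_mul h1.le h1.le h3.le (by norm_num)
  rw [h0]
  calc Real.exp 1 * Real.exp 1 * Real.exp (31 / 200)
      ≤ (2.7182818286 * 2.7182818286) * (1168 / 1000) :=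
        mul_le_mul h4 (by linarith) (Real.exp_pos _).le (by norm_num)
    _ ≤ 864 / 100 := by norm_num

private theorem mb_norm_d : ‖(-(1 + (5 / 2 : ℝ) * I) : ℂ)‖ ≤ 26927 / 10000 := by
  rw [norm_neg]
  have h1 : ‖(1 + (5 / 2 : ℝ) * I : ℂ)‖ ^ (2 : ℕ) = 29 / 4 := by
    rw [← Complex.normSq_eq_norm_sq, Complex.normSq_apply]
    simp
    norm_num
  nlinarith only [h1]

private theorem mb_norm {t : ℝ} (h0 : 0 ≤ t) (h1 : t ≤ 4 / 5) :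
    ‖(-(t * -(1 + (5 / 2 : ℝ) * I)) : ℂ)‖ = t * ‖(-(1 + (5 / 2 : ℝ) * I) : ℂ)‖ ∧
    t * ‖(-(1 + (5 / 2 : ℝ) * I) : ℂ)‖ ≤ 431 / 200 := by
  constructor
  · rw [norm_neg, norm_mul, Complex.norm_real, Real.norm_of_nonneg h0]
  · calc t * ‖(-(1 + (5 / 2 : ℝ) * I) : ℂ)‖ ≤ (4 / 5) * (26927 / 10000) :=
        mul_le_mul h1 mb_norm_d (norm_nonneg _) (by norm_num)
      _ ≤ 431 / 200 := by norm_num

private theorem mkB {δ a s cp cm : ℝ} (hδ : 0 < δ) (hδ' : δ ≤ 9 / 80)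
    (hne : (a + s * I : ℂ) ≠ 1) (hcp : 0 < cp) (hcm : 0 < cm)
    (hq1 : cp ≤ 5 / 2 * (1 - a) + 21 / 8 * s) (hq2 : cm ≤ 5 / 2 * (1 - a) + 21 / 8 * s)
    (hr : ∀ t : ℝ, 0 ≤ t → t ≤ 4 / 5 → cm * t ^ (2 : ℕ) ≤ 5 / 2 * t ^ (2 : ℕ) -
      a * (Real.exp t * Real.sin (5 / 2 * t) - 5 / 2 * t) +
      s * (1 + t - Real.exp t * Real.cos (5 / 2 * t)))
    (hl : ∀ t : ℝ, 0 ≤ t → t ≤ 1 / 2 → cp * t ^ (2 : ℕ) ≤ 5 / 2 * t ^ (2 : ℕ) -
      a * (5 / 2 * t - Real.exp (-t) * Real.sin (5 / 2 * t)) +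
      s * (1 - t - Real.exp (-t) * Real.cos (5 / 2 * t)))
    (hf : ∀ t : ℝ, 1 / 2 ≤ t → 3 / 5 + 9 / 20 * (t - 1 / 2) ≤ 5 / 2 * t ^ (2 : ℕ) -
      a * (5 / 2 * t - Real.exp (-t) * Real.sin (5 / 2 * t)) +
      s * (1 - t - Real.exp (-t) * Real.cos (5 / 2 * t)))
    (hside : ∀ x : ℝ, 4 / 5 ≤ x → 0 ≤ -a * (Real.exp x * Real.sin 2 - 2) -
      s * (Real.exp x * Real.cos 2 - 1 - x)) :
    Hyp δ (a + s * I) (-(1 + (5 / 2 : ℝ) * I)) (4 / 5) (1 / 2) (1 / 2)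
      cp cm (3 / 5) (9 / 20) (8 / 5) 2 (12 / 5) (19 / 10) where
  δpos := hδ
  h_ne := hne
  d_ne := by
    intro h
    have := congrArg Complex.re h
    simp at this
  d_re := by simp
  τpos := by norm_num
  Tpos := by norm_num
  TT := le_rfl
  cppos := hcp
  cmpos := hcm
  lpos := by norm_num
  Bpos := by norm_num
  bpos := by norm_num
  σgt := by linarith
  K2pos := by norm_num
  K3pos := by norm_num
  quad := by
    intro t
    have h1 : ((1 - (a + s * I)) * (t * -(1 + (5 / 2 : ℝ) * I)) ^ (2 : ℕ) / 2 : ℂ) =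
        ((t ^ (2 : ℕ) * (-(21 / 8) * (1 - a) + 5 / 2 * s) : ℝ) : ℂ) +
        (((5 / 2 * (1 - a) + 21 / 8 * s) * t ^ (2 : ℕ) : ℝ) : ℂ) * I := by
      push_cast
      linear_combination ((t : ℂ) ^ (2 : ℕ) * (25 / 8 - 25 / 8 * a - 5 / 2 * s - 25 / 8 * s * I)) * I_sq
    rw [h1, add_im, ofReal_im, im_ofReal_mul, I_im, zero_add, mul_one]
    exact mul_le_mul_of_nonneg_right (max_le hq1 hq2) (sq_nonneg t)
  right := by
    intro t h0 h1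
    have e : (-(t * -(1 + (5 / 2 : ℝ) * I)) : ℂ) = ((t : ℝ) : ℂ) + ((5 / 2 * t : ℝ) : ℂ) * I := by
      push_cast
      ring
    rw [e, ff_eq]
    have := hr t h0 h1
    linarith
  left := by
    intro t h0 h1
    have e : (t * -(1 + (5 / 2 : ℝ) * I) : ℂ) = ((-t : ℝ) : ℂ) + ((-(5 / 2 * t) : ℝ) : ℂ) * I := by
      push_cast
      ring
    rw [e, ff_eq, Real.sin_neg, Real.cos_neg]
    have := hl t h0 h1
    linarith
  far := by
    intro t h0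
    have e : (t * -(1 + (5 / 2 : ℝ) * I) : ℂ) = ((-t : ℝ) : ℂ) + ((-(5 / 2 * t) : ℝ) : ℂ) * I := by
      push_cast
      ring
    rw [e, ff_eq, Real.sin_neg, Real.cos_neg, max_eq_left (by linarith)]
    have := hf t h0
    linarith
  side := by
    intro u hu
    have e : (-(((4 / 5 : ℝ) : ℂ) * -(1 + (5 / 2 : ℝ) * I)) + u : ℂ) =
        ((4 / 5 + u : ℝ) : ℂ) + ((2 : ℝ) : ℂ) * I := by
      push_cast
      ring
    rw [e, ff_eq]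
    have := hside (4 / 5 + u) (by linarith)
    linarith
  k2 := by
    intro t h0 h1
    obtain ⟨n1, n2⟩ := mb_norm h0 h1
    have h := taylor2_ball (v := (-(t * -(1 + (5 / 2 : ℝ) * I)) : ℂ)) (r := 431 / 200)
      (K := 12 / 5) (by norm_num) (by rw [n1]; exact n2) (by
        have := mb_expr
        norm_num at this ⊢
        linarith)
    rw [n1] at h
    exact h
  k3 := by
    intro t h0 h1
    obtain ⟨n1, n2⟩ := mb_norm h0 h1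
    have h := taylor3_ball (v := (-(t * -(1 + (5 / 2 : ℝ) * I)) : ℂ)) (r := 431 / 200)
      (K := 19 / 10) (by norm_num) (by rw [n1]; exact n2) (by
        have := mb_expr
        norm_num at this ⊢
        linarith)
    rw [n1] at h
    exact h

theorem hyp_B1 {δ a s : ℝ} (hδ : 0 < δ) (hδ' : δ ≤ 9 / 80) (ha : a ≤ 0) (ha' : -(127 / 100) ≤ a)
    (hs : 0 ≤ s) (hs' : s ≤ 9 / 2) :
    Hyp δ (a + s * I) (-(1 + (5 / 2 : ℝ) * I)) (4 / 5) (1 / 2) (1 / 2)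
      (5 / 2 - 12 / 5 * a + 6 / 5 * s) (243 / 100 + 13 / 5 * s) (3 / 5) (9 / 20) (8 / 5) 2
      (12 / 5) (19 / 10) := by
  refine mkB hδ hδ' ?_ (by linarith only [ha, hs]) (by linarith only [hs]) (by linarith) (by linarith) ?_ ?_ ?_ ?_
  · intro h
    have := congrArg Complex.re h
    simp at this
    linarith
  · intro t h0 h1
    obtain ⟨b1, b2⟩ := scB_sin_right h0 h1
    have b3 := scB_cos_right h0 h1
    have c1 := mul_le_mul_of_nonneg_left b1 (neg_nonneg.2 ha)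
    have c2 := mul_le_mul_of_nonneg_left b3 hs
    have c3 : -(127 / 2000) * t ^ (2 : ℕ) ≤ 1 / 20 * a * t ^ (2 : ℕ) :=
      mul_le_mul_of_nonneg_right (by linarith) (sq_nonneg t)
    nlinarith only [c1, c2, c3]
  · intro t h0 h1
    obtain ⟨b1, b2⟩ := scB_sin_left h0 h1
    have b3 := scB_cos_left h0 h1
    have c1 := mul_le_mul_of_nonneg_left b1 (neg_nonneg.2 ha)
    have c2 := mul_le_mul_of_nonneg_left b3 hs
    linarith
  · intro t ht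
    exact scF1 ht ha hs hs'
  · intro x hx
    have h1 := mb_exp hx
    have h2 := mb_sin2_ge
    have h3 := mb_cos2_le
    have h4 : 2 ≤ Real.exp x * Real.sin 2 := by
      calc (2 : ℝ) ≤ (222 / 100) * (907 / 1000) := by norm_num
        _ ≤ Real.exp x * Real.sin 2 := mul_le_mul h1 h2 (by norm_num) (Real.exp_pos x).le
    have h5 : Real.exp x * Real.cos 2 ≤ 0 :=
      mul_nonpos_of_nonneg_of_nonpos (Real.exp_pos x).le (by linarith)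
    have c1 : 0 ≤ -a * (Real.exp x * Real.sin 2 - 2) :=
      mul_nonneg (neg_nonneg.2 ha) (by linarith)
    have c2 : 0 ≤ s * (1 + x - Real.exp x * Real.cos 2) := mul_nonneg hs (by linarith)
    linarith

theorem hyp_B2 {δ a s : ℝ} (hδ : 0 < δ) (hδ' : δ ≤ 9 / 80) (ha : 0 ≤ a) (hs : 1 ≤ s)
    (hs' : s ≤ 57 / 10) (h1 : a ≤ 2 / 5 * s) (h2 : a ≤ 1 - s / 8) :
    Hyp δ (a + s * I) (-(1 + (5 / 2 : ℝ) * I)) (4 / 5) (1 / 2) (1 / 2)
      (5 / 2 - 11 / 4 * a + 6 / 5 * s) (5 / 2 - 5 / 2 * a + 13 / 5 * s) (3 / 5) (9 / 20) (8 / 5) 2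
      (12 / 5) (19 / 10) := by
  have hs0 : 0 ≤ s := by linarith
  refine mkB hδ hδ' ?_ (by linarith) (by linarith) (by linarith) (by linarith) ?_ ?_ ?_ ?_
  · intro h
    have := congrArg Complex.im h
    simp at this
    linarith
  · intro t h0 h1
    obtain ⟨b1, b2⟩ := scB_sin_right h0 h1
    have b3 := scB_cos_right h0 h1
    have c1 := mul_le_mul_of_nonneg_left b2 ha
    have c2 := mul_le_mul_of_nonneg_left b3 hs0
    linarith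
  · intro t h0 h1
    obtain ⟨b1, b2⟩ := scB_sin_left h0 h1
    have b3 := scB_cos_left h0 h1
    have c1 := mul_le_mul_of_nonneg_left b2 ha
    have c2 := mul_le_mul_of_nonneg_left b3 hs0
    linarith
  · intro t ht
    exact scF2 ht ha hs hs' h1 h2
  · intro x hx
    have e1 := Real.exp_pos x
    have h3 := mb_cos2_le
    have h4 := Real.sin_le_one 2
    have h5 := mb_sin2_ge
    have c1 : a * (Real.exp x * Real.sin 2) ≤ 2 / 5 * s * (Real.exp x * Real.sin 2) :=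
      mul_le_mul_of_nonneg_right (by linarith) (mul_nonneg e1.le (by linarith))
    have c2 : 2 / 5 * s * (Real.exp x * Real.sin 2) ≤ 2 / 5 * s * (Real.exp x * 1) :=
      mul_le_mul_of_nonneg_left (mul_le_mul_of_nonneg_left h4 e1.le) (by linarith)
    have c3 : s * (Real.exp x * Real.cos 2) ≤ s * (Real.exp x * -(2 / 5)) :=
      mul_le_mul_of_nonneg_left (mul_le_mul_of_nonneg_left h3 e1.le) hs0
    have c4 : 0 ≤ s * (1 + x) := mul_nonneg hs0 (by linarith)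
    linarith

end SokamFU

end

/-! ### Lib_MP_af4de1_fu.MEstB1 -/

section
/-!
# Case B1: the estimate [FU-M20]

`gen_fin` with `hyp_B1`, `k = 3/10`; `a = -α`.  `q² = 29/4`, `q³ = 19.5213`, `q⁴ = 52.5625`, `H² = α² + s²`, `κ² = (1+α)² + s² ≥ 1 + H²`,
`cp = 2.5 + 2.4 α + 1.2 s ≥ 1.7 κ`, `cm = 2.43 + 2.6 s`.
`lowErr ≤ .49278 H (1/cp² + 1.9/cm²) + .0045`, `upErr ≤ .1633 (cp^(-3/2) + 2.4 cm^(-3/2)) + .0075`.
To show: `H upErr ≤ .3 κ (.8407/√κ - lowErr)`.  With `x² = κ`, `y² = cm`, `z² = cp`: `κ ≤ .93416 y²`, `H ≤ .52264 y²`, and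
`H x ≤ .22 z⁴`, `H ≤ .2263 x z³`, `H x ≤ .2616 y⁴`, `H ≤ .194 x y³` for `s ≥ 1/2`,
`H x ≤ .1275 z⁴`, `H ≤ .1821 x z³`, `H x ≤ .3241 y⁴`, `H ≤ .229 x y³` for `s ≤ 1/2`.
-/

set_option autoImplicit false

namespace SokamFU

open Complex

private theorem b1_sq {a b : ℝ} (h : a ^ (2 : ℕ) ≤ b ^ (2 : ℕ)) (hb : 0 ≤ b) : a ≤ b :=
  (abs_le_of_sq_le_sq' h hb).2

private theorem b1_fin {H K x y z t1 t2 t3 t4 t5 t6 : ℝ} (hx : 0 < x) (hy : 0 < y) (hz : 0 < z)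
    (hK : x ^ (2 : ℕ) = K) (A1 : H * x ≤ t1 * z ^ (4 : ℕ)) (A2 : H ≤ t2 * x * z ^ (3 : ℕ)) (A3 : H * x ≤ t3 * y ^ (4 : ℕ))
    (A4 : H ≤ t4 * x * y ^ (3 : ℕ)) (A5 : H ≤ t5 * x) (A6 : x ≤ t6)
    (hn : 1633 / 10000 * (t2 + 12 / 5 * t4) + 75 / 10000 * t5 +
      3 / 10 * (49278 / 100000 * (t1 + 19 / 10 * t3) + 45 / 10000 * t6) ≤ 24 / 100) :
    H * (1633 / 10000 * (1 / z ^ (3 : ℕ) + 12 / 5 * (1 / y ^ (3 : ℕ))) + 75 / 10000) +
      3 / 10 * K * (49278 / 100000 * H * (1 / z ^ (4 : ℕ) + 19 / 10 * (1 / y ^ (4 : ℕ))) + 45 / 10000) ≤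
      24 / 100 * x := by
  have B2 : H / z ^ (3 : ℕ) ≤ t2 * x := by
    rw [div_le_iff₀ (by positivity)]
    exact A2
  have B4 : H / y ^ (3 : ℕ) ≤ t4 * x := by
    rw [div_le_iff₀ (by positivity)]
    exact A4
  have B1 : K * H / z ^ (4 : ℕ) ≤ t1 * x := by
    rw [div_le_iff₀ (by positivity), ← hK]
    have := mul_le_mul_of_nonneg_left A1 hx.le
    linarith only [this]
  have B3 : K * H / y ^ (4 : ℕ) ≤ t3 * x := by
    rw [div_le_iff₀ (by positivity), ← hK]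
    have := mul_le_mul_of_nonneg_left A3 hx.le
    linarith only [this]
  have B6 : K ≤ t6 * x := by
    rw [← hK, sq]
    exact mul_le_mul_of_nonneg_right A6 hx.le
  have e : H * (1633 / 10000 * (1 / z ^ (3 : ℕ) + 12 / 5 * (1 / y ^ (3 : ℕ))) + 75 / 10000) +
      3 / 10 * K * (49278 / 100000 * H * (1 / z ^ (4 : ℕ) + 19 / 10 * (1 / y ^ (4 : ℕ))) + 45 / 10000) =
      1633 / 10000 * (H / z ^ (3 : ℕ) + 12 / 5 * (H / y ^ (3 : ℕ))) + 75 / 10000 * H +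
      3 / 10 * (49278 / 100000 * (K * H / z ^ (4 : ℕ) + 19 / 10 * (K * H / y ^ (4 : ℕ))) + 45 / 10000 * K) := by
    ring
  rw [e]
  have h1 := mul_le_mul_of_nonneg_right hn hx.le
  linarith only [A5, B2, B4, B1, B3, B6, h1]

private theorem b1_small {al s H K x y z : ℝ} (h0 : 0 ≤ al) (h1 : al ≤ 127 / 100) (s0 : 0 ≤ s)
    (hH0 : 0 ≤ H) (hH : H ^ (2 : ℕ) = al ^ (2 : ℕ) + s ^ (2 : ℕ)) (hK : K ^ (2 : ℕ) = (1 + al) ^ (2 : ℕ) + s ^ (2 : ℕ))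
    (hK0 : 0 < K)
    (hx0 : 0 < x) (hx : x ^ (2 : ℕ) = K) (hy0 : 0 < y) (hy : y ^ (2 : ℕ) = 243 / 100 + 13 / 5 * s) (hz0 : 0 < z)
    (hz : z ^ (2 : ℕ) = 5 / 2 + 12 / 5 * al + 6 / 5 * s) (z2 : 13 / 10 * x ≤ z)
    (y1 : H ≤ 52264 / 100000 * y ^ (2 : ℕ)) (y4 : H * x ≤ 50515 / 100000 * y ^ (3 : ℕ)) (hs : s ≤ 1 / 2) :
    H * (1633 / 10000 * (1 / z ^ (3 : ℕ) + 12 / 5 * (1 / y ^ (3 : ℕ))) + 75 / 10000) +
      3 / 10 * K * (49278 / 100000 * H * (1 / z ^ (4 : ℕ) + 19 / 10 * (1 / y ^ (4 : ℕ))) + 45 / 10000) ≤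
      24 / 100 * x := by
  have hs2 : s ^ (2 : ℕ) ≤ 1 / 4 := by
    have := mul_le_mul hs hs s0 (by norm_num : (0 : ℝ) ≤ 1 / 2)
    linarith only [this]
  have ha2 : al * (127 / 100 - al) ≥ 0 := mul_nonneg h0 (sub_nonneg.2 h1)
  have k1 : H ≤ 5917 / 10000 * K := by
    have h2 : H ^ (2 : ℕ) ≤ (5917 / 10000 * K) ^ (2 : ℕ) := by
      rw [mul_pow, hH, hK]
      linarith only [h1, hs2, ha2]
    exact b1_sq h2 (by positivity)
  have k2 : K ≤ 2325 / 1000 := by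
    have h2 : K ^ (2 : ℕ) ≤ (2325 / 1000) ^ (2 : ℕ) := by
      rw [hK]
      linarith only [h1, hs2, ha2]
    exact b1_sq h2 (by norm_num)
  have k3 : x ≤ 153 / 100 := b1_sq (by rw [hx]; norm_num; linarith only [k2]) (by norm_num)
  have y5 : 1558 / 1000 ≤ y := b1_sq (by rw [hy]; norm_num; linarith only [s0]) hy0.le
  have hy3 : 0 < y ^ (3 : ℕ) := pow_pos hy0 3
  have A1 : H * x ≤ 1275 / 10000 * z ^ (4 : ℕ) := by
    have h2 : H ≤ al + s := b1_sq (by rw [hH]; linarith only [mul_nonneg h0 s0]) (by linarith only [h0, s0])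
    have h3 : 12 * H ≤ z ^ (4 : ℕ) := by
      have h4 : z ^ (4 : ℕ) = (5 / 2 + (12 / 5 * al + 6 / 5 * s)) ^ (2 : ℕ) := by
        have : z ^ (4 : ℕ) = (z ^ (2 : ℕ)) ^ (2 : ℕ) := by ring
        rw [this, hz]
        ring
      rw [h4]
      have h5 := sq_nonneg (5 / 2 - (12 / 5 * al + 6 / 5 * s))
      linarith only [h0, h2, h5]
    have h6 := mul_le_mul_of_nonneg_left k3 hH0
    linarith only [h3, h6]
  have A2 : H ≤ 1821 / 10000 * x * z ^ (3 : ℕ) := by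
    have h2 : 325 / 100 * x ≤ z ^ (3 : ℕ) := by
      calc 325 / 100 * x = 5 / 2 * (13 / 10 * x) := by ring
        _ ≤ z ^ (2 : ℕ) * z := mul_le_mul (by rw [hz]; linarith only [h0, s0]) z2 (by positivity) (by positivity)
        _ = z ^ (3 : ℕ) := by ring
    have h3 : x * (325 / 100 * x) ≤ x * z ^ (3 : ℕ) := mul_le_mul_of_nonneg_left h2 hx0.le
    have h4 : x * (325 / 100 * x) = 325 / 100 * K := by rw [← hx]; ring
    rw [h4] at h3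
    linarith only [hK0, k1, h3]
  have A3 : H * x ≤ 3245 / 10000 * y ^ (4 : ℕ) := by
    have h2 : y ^ (3 : ℕ) * (1558 / 1000) ≤ y ^ (3 : ℕ) * y := mul_le_mul_of_nonneg_left y5 hy3.le
    have h3 : y ^ (3 : ℕ) * y = y ^ (4 : ℕ) := by ring
    rw [h3] at h2
    linarith only [y4, hy3, h2]
  have A4 : H ≤ 2290 / 10000 * x * y ^ (3 : ℕ) := by
    have h2 : H ^ (2 : ℕ) ≤ (5561 / 10000 * (x * y)) ^ (2 : ℕ) := by
      have h3 : H * H ≤ (5917 / 10000 * K) * (52264 / 100000 * y ^ (2 : ℕ)) :=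
        mul_le_mul k1 y1 hH0 (by positivity)
      have h4 : (5561 / 10000 * (x * y)) ^ (2 : ℕ) = (5561 / 10000) ^ (2 : ℕ) * (K * y ^ (2 : ℕ)) := by
        rw [← hx]; ring
      have h5 : 0 ≤ K * y ^ (2 : ℕ) := by positivity
      rw [h4]
      linarith only [h3, h5]
    have h3 : H ≤ 5561 / 10000 * (x * y) := b1_sq h2 (by positivity)
    have h6 : 243 / 100 ≤ y ^ (2 : ℕ) := by rw [hy]; linarith only [s0]
    have h7 : 0 ≤ x * y := by positivity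
    have h8 : 2290 / 10000 * x * y ^ (3 : ℕ) = 2290 / 10000 * ((x * y) * y ^ (2 : ℕ)) := by ring
    rw [h8]
    have h9 := mul_le_mul_of_nonneg_left h6 h7
    linarith only [h3, h7, h9]
  have A5 : H ≤ 906 / 1000 * x := by
    rw [← hx] at k1
    have h2 : x ^ (2 : ℕ) ≤ 153 / 100 * x := by
      rw [sq]
      exact mul_le_mul_of_nonneg_right k3 hx0.le
    linarith only [hx0, k1, h2]
  exact b1_fin hx0 hy0 hz0 hx A1 A2 A3 A4 A5 k3 (by norm_num)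

private theorem b1_large {al s H K x y z : ℝ} (h0 : 0 ≤ al) (h1 : al ≤ 127 / 100)
    (s1 : s ≤ 9 / 2)
    (hH0 : 0 ≤ H) (hK : K ^ (2 : ℕ) = (1 + al) ^ (2 : ℕ) + s ^ (2 : ℕ))
    (hK0 : 0 < K) (hHK : H ^ (2 : ℕ) + 1 ≤ K ^ (2 : ℕ))
    (hx0 : 0 < x) (hx : x ^ (2 : ℕ) = K) (hy0 : 0 < y) (hy : y ^ (2 : ℕ) = 243 / 100 + 13 / 5 * s) (hz0 : 0 < z)
    (z1 : 17 / 10 * K ≤ z ^ (2 : ℕ)) (z2 : 13 / 10 * x ≤ z)
    (y1 : H ≤ 52264 / 100000 * y ^ (2 : ℕ)) (y4 : H * x ≤ 50515 / 100000 * y ^ (3 : ℕ)) (hs : 1 / 2 < s) :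
    H * (1633 / 10000 * (1 / z ^ (3 : ℕ) + 12 / 5 * (1 / y ^ (3 : ℕ))) + 75 / 10000) +
      3 / 10 * K * (49278 / 100000 * H * (1 / z ^ (4 : ℕ) + 19 / 10 * (1 / y ^ (4 : ℕ))) + 45 / 10000) ≤
      24 / 100 * x := by
  have hHK' : H ≤ K := b1_sq (by linarith only [hHK]) hK0.le
  have k2 : K ≤ 5041 / 1000 := by
    have h2 : K ^ (2 : ℕ) ≤ (5041 / 1000) ^ (2 : ℕ) := by
      rw [hK]
      have h3 : s ^ (2 : ℕ) ≤ (9 / 2) ^ (2 : ℕ) := pow_le_pow_left₀ (by linarith only [hs]) s1 2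
      have h4 : (1 + al) ^ (2 : ℕ) ≤ (227 / 100) ^ (2 : ℕ) := pow_le_pow_left₀ (by linarith only [h0]) (by linarith only [h1]) 2
      norm_num at h3 h4 ⊢
      linarith only [h3, h4]
    exact b1_sq h2 (by norm_num)
  have k3 : x ≤ 225 / 100 := b1_sq (by rw [hx]; norm_num; linarith only [k2]) (by norm_num)
  have y6 : 373 / 100 ≤ y ^ (2 : ℕ) := by rw [hy]; linarith only [hs]
  have y5 : 1931 / 1000 ≤ y := b1_sq (by norm_num; linarith only [y6]) hy0.le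
  have hy3 : 0 < y ^ (3 : ℕ) := pow_pos hy0 3
  have hz3 : 221 / 100 * x ^ (3 : ℕ) ≤ z ^ (3 : ℕ) := by
    calc 221 / 100 * x ^ (3 : ℕ) = (17 / 10 * x ^ (2 : ℕ)) * (13 / 10 * x) := by ring
      _ ≤ z ^ (2 : ℕ) * z := mul_le_mul (by rw [hx]; exact z1) z2 (by positivity) (by positivity)
      _ = z ^ (3 : ℕ) := by ring
  have hz4 : 289 / 100 * x ^ (4 : ℕ) ≤ z ^ (4 : ℕ) := by
    calc 289 / 100 * x ^ (4 : ℕ) = (17 / 10 * x ^ (2 : ℕ)) * (17 / 10 * x ^ (2 : ℕ)) := by ring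
      _ ≤ z ^ (2 : ℕ) * z ^ (2 : ℕ) := mul_le_mul (by rw [hx]; exact z1) (by rw [hx]; exact z1)
          (by positivity) (by positivity)
      _ = z ^ (4 : ℕ) := by ring
  have A1 : H * x ≤ 22 / 100 * z ^ (4 : ℕ) := by
    have h2 : H ≤ 6358 / 10000 * x ^ (3 : ℕ) := by
      have h3 : H ^ (2 : ℕ) ≤ (6358 / 10000 * x ^ (3 : ℕ)) ^ (2 : ℕ) := by
        have h4 : (6358 / 10000 * x ^ (3 : ℕ)) ^ (2 : ℕ) = (6358 / 10000) ^ (2 : ℕ) * K ^ (3 : ℕ) := by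
          rw [← hx]; ring
        rw [h4]
        have h5 : 0 ≤ K * (K - 17 / 10) ^ (2 : ℕ) := by positivity
        have h6 := sq_nonneg (K - 17 / 10)
        have h7 := sq_nonneg K
        linarith only [hHK, h5, h6, h7]
      exact b1_sq h3 (by positivity)
    have h5 := mul_le_mul_of_nonneg_right h2 hx0.le
    have h6 : 6358 / 10000 * x ^ (3 : ℕ) * x = 6358 / 10000 * x ^ (4 : ℕ) := by ring
    rw [h6] at h5
    linarith only [hz4, h5]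
  have A2 : H ≤ 2263 / 10000 * x * z ^ (3 : ℕ) := by
    have h2 : H ≤ 1 / 2 * x ^ (4 : ℕ) := by
      have h3 : x ^ (4 : ℕ) = K ^ (2 : ℕ) := by rw [← hx]; ring
      rw [h3]
      have h4 : H ^ (2 : ℕ) ≤ (1 / 2 * K ^ (2 : ℕ)) ^ (2 : ℕ) := by
        have h5 := sq_nonneg (K ^ (2 : ℕ) - 2)
        linarith only [hHK, h5]
      exact b1_sq h4 (by positivity)
    have h5 := mul_le_mul_of_nonneg_left hz3 hx0.le
    have h6 : 0 ≤ x ^ (4 : ℕ) := by positivity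
    have h7 : x * (221 / 100 * x ^ (3 : ℕ)) = 221 / 100 * x ^ (4 : ℕ) := by ring
    rw [h7] at h5
    linarith only [h2, h5, h6]
  have A3 : H * x ≤ 2617 / 10000 * y ^ (4 : ℕ) := by
    have h2 : y ^ (3 : ℕ) * (1931 / 1000) ≤ y ^ (3 : ℕ) * y := mul_le_mul_of_nonneg_left y5 hy3.le
    have h3 : y ^ (3 : ℕ) * y = y ^ (4 : ℕ) := by ring
    rw [h3] at h2
    linarith only [y4, hy3, h2]
  have A4 : H ≤ 194 / 1000 * x * y ^ (3 : ℕ) := by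
    have h2 : H ^ (2 : ℕ) ≤ (72295 / 100000 * (x * y)) ^ (2 : ℕ) := by
      have h3 : H * H ≤ K * (52264 / 100000 * y ^ (2 : ℕ)) :=
        mul_le_mul hHK' y1 hH0 hK0.le
      have h4 : (72295 / 100000 * (x * y)) ^ (2 : ℕ) = (72295 / 100000) ^ (2 : ℕ) * (K * y ^ (2 : ℕ)) := by
        rw [← hx]; ring
      have h5 : 0 ≤ K * y ^ (2 : ℕ) := by positivity
      rw [h4]
      linarith only [h3, h5]
    have h3 : H ≤ 72295 / 100000 * (x * y) := b1_sq h2 (by positivity)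
    have h7 : 0 ≤ x * y := by positivity
    have h8 : 194 / 1000 * x * y ^ (3 : ℕ) = 194 / 1000 * ((x * y) * y ^ (2 : ℕ)) := by ring
    rw [h8]
    have h9 := mul_le_mul_of_nonneg_left y6 h7
    linarith only [h3, h7, h9]
  have A5 : H ≤ 225 / 100 * x := by
    rw [← hx] at hHK'
    have h2 : x ^ (2 : ℕ) ≤ 225 / 100 * x := by
      rw [sq]
      exact mul_le_mul_of_nonneg_right k3 hx0.le
    linarith only [hHK', h2]
  exact b1_fin hx0 hy0 hz0 hx A1 A2 A3 A4 A5 k3 (by norm_num)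

private theorem b1_core {al s H K x y z : ℝ} (h0 : 0 ≤ al) (h1 : al ≤ 127 / 100) (s0 : 0 ≤ s)
    (s1 : s ≤ 9 / 2) (hH0 : 0 ≤ H) (hH : H ^ (2 : ℕ) = al ^ (2 : ℕ) + s ^ (2 : ℕ)) (hK : K ^ (2 : ℕ) = (1 + al) ^ (2 : ℕ) + s ^ (2 : ℕ))
    (hx0 : 0 < x) (hx : x ^ (2 : ℕ) = K) (hy0 : 0 < y) (hy : y ^ (2 : ℕ) = 243 / 100 + 13 / 5 * s) (hz0 : 0 < z)
    (hz : z ^ (2 : ℕ) = 5 / 2 + 12 / 5 * al + 6 / 5 * s) :
    H * (1633 / 10000 * (1 / z ^ (3 : ℕ) + 12 / 5 * (1 / y ^ (3 : ℕ))) + 75 / 10000) +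
      3 / 10 * K * (49278 / 100000 * H * (1 / z ^ (4 : ℕ) + 19 / 10 * (1 / y ^ (4 : ℕ))) + 45 / 10000) ≤
      24 / 100 * x := by
  have hK0 : 0 < K := by rw [← hx]; positivity
  have hHK : H ^ (2 : ℕ) + 1 ≤ K ^ (2 : ℕ) := by rw [hH, hK]; linarith only [h0]
  have ha2 : 0 ≤ al * (127 / 100 - al) := mul_nonneg h0 (sub_nonneg.2 h1)
  have hs2 : 0 ≤ s * (9 / 2 - s) := mul_nonneg s0 (sub_nonneg.2 s1)
  have has : 0 ≤ al * s := mul_nonneg h0 s0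
  -- `κ ≤ cp / 1.7`
  have z1 : 17 / 10 * K ≤ z ^ (2 : ℕ) := by
    have h2 : (17 / 10 * K) ^ (2 : ℕ) ≤ (z ^ (2 : ℕ)) ^ (2 : ℕ) := by
      rw [mul_pow, hK, hz]
      have h3 := sq_nonneg al
      linarith only [s1, ha2, hs2, has, h3]
    exact b1_sq h2 (by positivity)
  have z2 : 13 / 10 * x ≤ z := by
    have h2 : (13 / 10 * x) ^ (2 : ℕ) ≤ z ^ (2 : ℕ) := by
      rw [mul_pow, hx]
      linarith only [hK0, z1]
    exact b1_sq h2 hz0.le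
  -- `H ≤ .52264 cm`, `κ ≤ .93416 cm`
  have y1 : H ≤ 52264 / 100000 * y ^ (2 : ℕ) := by
    have h2 : H ^ (2 : ℕ) ≤ (52264 / 100000 * y ^ (2 : ℕ)) ^ (2 : ℕ) := by
      rw [hH, hy]
      have h3 := sq_nonneg s
      linarith only [h1, s0, ha2, h3]
    exact b1_sq h2 (by positivity)
  have y2 : K ≤ 93416 / 100000 * y ^ (2 : ℕ) := by
    have h2 : K ^ (2 : ℕ) ≤ (93416 / 100000 * y ^ (2 : ℕ)) ^ (2 : ℕ) := by
      rw [hK, hy]
      have h3 := sq_nonneg s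
      linarith only [h1, s0, ha2, h3]
    exact b1_sq h2 (by positivity)
  have y3 : x ≤ 96653 / 100000 * y := by
    have h2 : x ^ (2 : ℕ) ≤ (96653 / 100000 * y) ^ (2 : ℕ) := by
      rw [hx, mul_pow]
      have := sq_nonneg y
      linarith only [y2, this]
    exact b1_sq h2 (by positivity)
  have y4 : H * x ≤ 50515 / 100000 * y ^ (3 : ℕ) := by
    calc H * x ≤ (52264 / 100000 * y ^ (2 : ℕ)) * (96653 / 100000 * y) :=
          mul_le_mul y1 y3 hx0.le (by positivity)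
      _ = (52264 / 100000 * (96653 / 100000)) * y ^ (3 : ℕ) := by ring
      _ ≤ 50515 / 100000 * y ^ (3 : ℕ) := by
          refine mul_le_mul_of_nonneg_right ?_ (by positivity)
          norm_num
  rcases le_or_gt s (1 / 2) with hs | hs
  · exact b1_small h0 h1 s0 hH0 hH hK hK0 hx0 hx hy0 hy hz0 hz z2 y1 y4 hs
  · exact b1_large h0 h1 s1 hH0 hK hK0 hHK hx0 hx hy0 hy hz0 z1 z2 y1 y4 hs

private theorem b1_exp : Real.exp (-(16 / 3)) ≤ 486 / 100000 := by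
  have h1 : (113 / 81 : ℝ) ≤ Real.exp (1 / 3) := by
    have h := Real.sum_le_exp_of_nonneg (show (0 : ℝ) ≤ 1 / 3 by norm_num) 4
    norm_num [Finset.sum_range_succ, Nat.factorial] at h
    linarith only [h]
  have h2 : Real.exp (16 / 3) = Real.exp (1 / 3) ^ (16 : ℕ) := by
    rw [← Real.exp_nat_mul]
    norm_num
  have h3 : (113 / 81 : ℝ) ^ (16 : ℕ) ≤ Real.exp (16 / 3) := by
    rw [h2]
    exact pow_le_pow_left₀ (by norm_num) h1 16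
  have h4 : (100000 / 486 : ℝ) ≤ Real.exp (16 / 3) := le_trans (by norm_num) h3
  rw [Real.exp_neg]
  calc (Real.exp (16 / 3))⁻¹ ≤ (100000 / 486 : ℝ)⁻¹ := inv_anti₀ (by norm_num) h4
    _ = 486 / 100000 := by norm_num

private theorem b1_exp2 {t : ℝ} (h : t ≤ -(32 / 3)) : Real.exp t ≤ 1 / 40000 := by
  have h1 : Real.exp t ≤ Real.exp (-(32 / 3)) := Real.exp_le_exp.2 h
  have h2 : Real.exp (-(32 / 3)) = Real.exp (-(16 / 3)) ^ (2 : ℕ) := by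
    rw [← Real.exp_nat_mul]
    norm_num
  have h3 : Real.exp (-(16 / 3)) ^ (2 : ℕ) ≤ (486 / 100000) ^ (2 : ℕ) :=
    pow_le_pow_left₀ (Real.exp_nonneg _) b1_exp 2
  rw [h2] at h1
  exact h1.trans (h3.trans (by norm_num))

private theorem b1_q {q : ℝ} (hq : q ^ (2 : ℕ) = 29 / 4) : q ≤ 26926 / 10000 :=
  b1_sq (by rw [hq]; norm_num) (by norm_num)

private theorem b1_low {H q cp cm y z : ℝ} (hH : 0 ≤ H) (hq : q ^ (2 : ℕ) = 29 / 4)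
    (hy : y ^ (2 : ℕ) = cm) (hz : z ^ (2 : ℕ) = cp) (hcp : 5 / 2 ≤ cp)
    (hcm : 243 / 100 ≤ cm) :
    lowErr (9 / 80) H q (4 / 5) (1 / 2) (1 / 2) cp cm (3 / 5) (9 / 20) (8 / 5) 2 (19 / 10) ≤
      49278 / 100000 * H * (1 / z ^ (4 : ℕ) + 19 / 10 * (1 / y ^ (4 : ℕ))) + 45 / 10000 := by
  unfold lowErr
  have hq1 := b1_q hq
  have hq4 : q ^ (4 : ℕ) = 841 / 16 := by
    have : q ^ (4 : ℕ) = (q ^ (2 : ℕ)) ^ (2 : ℕ) := by ring
    rw [this, hq]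
    norm_num
  have e1 : 1 / cp ^ (2 : ℕ) = 1 / z ^ (4 : ℕ) := by rw [← hz]; ring
  have e2 : (19 / 10 : ℝ) / cm ^ (2 : ℕ) = 19 / 10 * (1 / y ^ (4 : ℕ)) := by rw [← hy]; ring
  have t1 : H * q ^ (4 : ℕ) / 12 * (1 / cp ^ (2 : ℕ) + 19 / 10 / cm ^ (2 : ℕ)) * (9 / 80) ≤
      49278 / 100000 * H * (1 / z ^ (4 : ℕ) + 19 / 10 * (1 / y ^ (4 : ℕ))) := by
    rw [hq4, e1, e2]
    have h1 : 0 ≤ H * (1 / z ^ (4 : ℕ) + 19 / 10 * (1 / y ^ (4 : ℕ))) := by positivity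
    have h2 : H * (841 / 16) / 12 * (1 / z ^ (4 : ℕ) + 19 / 10 * (1 / y ^ (4 : ℕ))) * (9 / 80) =
        841 / 16 / 12 * (9 / 80) * (H * (1 / z ^ (4 : ℕ) + 19 / 10 * (1 / y ^ (4 : ℕ)))) := by ring
    have h3 : 49278 / 100000 * H * (1 / z ^ (4 : ℕ) + 19 / 10 * (1 / y ^ (4 : ℕ))) =
        49278 / 100000 * (H * (1 / z ^ (4 : ℕ) + 19 / 10 * (1 / y ^ (4 : ℕ)))) := by ring
    rw [h2, h3]
    exact mul_le_mul_of_nonneg_right (by norm_num) h1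
  have E1 : Real.exp (-(3 / 5) / (9 / 80)) ≤ 486 / 100000 := by
    have : (-(3 / 5) / (9 / 80) : ℝ) = -(16 / 3) := by norm_num
    rw [this]
    exact b1_exp
  have E2 : Real.exp (-(cp * (1 / 2) ^ (2 : ℕ)) / (9 / 80)) ≤ 486 / 100000 := by
    refine (Real.exp_le_exp.2 ?_).trans b1_exp
    linarith only [hcp]
  have E3 : Real.exp (-(cm * (4 / 5) ^ (2 : ℕ)) / (9 / 80)) ≤ 1 / 40000 := by
    refine b1_exp2 ?_
    linarith only [hcm]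
  have E4 : Real.exp (-(8 / 5) / (9 / 80)) ≤ 1 / 40000 := b1_exp2 (by norm_num)
  have t2 : ((1 / 2 - 1 / 2) + 9 / 80 / (9 / 20)) * Real.exp (-(3 / 5) / (9 / 80)) ≤
      1 / 4 * (486 / 100000) := by
    have : ((1 / 2 - 1 / 2) + 9 / 80 / (9 / 20) : ℝ) = 1 / 4 := by norm_num
    rw [this]
    linarith only [E1]
  have t3 : 9 / 80 / (cp * (1 / 2)) * Real.exp (-(cp * (1 / 2) ^ (2 : ℕ)) / (9 / 80)) ≤
      9 / 100 * (486 / 100000) := by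
    refine mul_le_mul ?_ E2 (Real.exp_nonneg _) (by norm_num)
    rw [div_le_iff₀ (by positivity)]
    linarith only [hcp]
  have t4 : 9 / 80 / (cm * (4 / 5)) * Real.exp (-(cm * (4 / 5) ^ (2 : ℕ)) / (9 / 80)) ≤
      6 / 100 * (1 / 40000) := by
    refine mul_le_mul ?_ E3 (Real.exp_nonneg _) (by norm_num)
    rw [div_le_iff₀ (by positivity)]
    linarith only [hcm]
  have t5 : q * (((1 / 2 - 1 / 2) + 9 / 80 / (9 / 20)) * Real.exp (-(3 / 5) / (9 / 80)) +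
      9 / 80 / (cp * (1 / 2)) * Real.exp (-(cp * (1 / 2) ^ (2 : ℕ)) / (9 / 80)) +
      9 / 80 / (cm * (4 / 5)) * Real.exp (-(cm * (4 / 5) ^ (2 : ℕ)) / (9 / 80))) ≤
      26926 / 10000 * (1 / 4 * (486 / 100000) + 9 / 100 * (486 / 100000) +
        6 / 100 * (1 / 40000)) := by
    refine mul_le_mul hq1 (add_le_add (add_le_add t2 t3) t4) ?_ (by norm_num)
    have : 0 ≤ ((1 / 2 - 1 / 2) + 9 / 80 / (9 / 20) : ℝ) := by norm_num
    positivity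
  have t6 : 9 / 80 / 2 * Real.exp (-(8 / 5) / (9 / 80)) ≤ 9 / 80 / 2 * (1 / 40000) :=
    mul_le_mul_of_nonneg_left E4 (by norm_num)
  refine (add_le_add (add_le_add t1 t5) t6).trans ?_
  have h7 : (26926 / 10000 * (1 / 4 * (486 / 100000) + 9 / 100 * (486 / 100000) +
        6 / 100 * (1 / 40000)) + 9 / 80 / 2 * (1 / 40000) : ℝ) ≤ 45 / 10000 := by norm_num
  linarith only []

private theorem b1_up {q cp cm y z : ℝ} (hq0 : 0 ≤ q) (hq : q ^ (2 : ℕ) = 29 / 4)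
    (hy0 : 0 < y) (hy : y ^ (2 : ℕ) = cm) (hz0 : 0 < z) (hz : z ^ (2 : ℕ) = cp) :
    upErr (9 / 80) q 1 (4 / 5) (1 / 2) (1 / 2) cp cm (3 / 5) (9 / 20) (8 / 5) 2 (12 / 5) ≤
      1633 / 10000 * (1 / z ^ (3 : ℕ) + 12 / 5 * (1 / y ^ (3 : ℕ))) + 75 / 10000 := by
  unfold upErr
  have hq1 := b1_q hq
  have hq3 : q ^ (3 : ℕ) ≤ 29 / 4 * (26926 / 10000) := by
    have : q ^ (3 : ℕ) = q ^ (2 : ℕ) * q := by ring
    rw [this, hq]
    linarith only [hq1]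
  have hq3' : 0 ≤ q ^ (3 : ℕ) := by positivity
  have hpi : Real.sqrt Real.pi ≤ 17725 / 10000 :=
    Real.sqrt_le_iff.2 ⟨by norm_num, by have := Real.pi_lt_d4; norm_num at this ⊢; linarith only [this]⟩
  have hd : Real.sqrt (9 / 80) ≤ 33542 / 100000 :=
    Real.sqrt_le_iff.2 ⟨by norm_num, by norm_num⟩
  have g : ∀ {w c : ℝ}, 0 < w → w ^ (2 : ℕ) = c →
      9 / 80 / c * Real.sqrt (9 / 80 / c) = 9 / 80 * Real.sqrt (9 / 80) * (1 / w ^ (3 : ℕ)) := by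
    intro w c hw hc
    rw [← hc, Real.sqrt_div (by norm_num), Real.sqrt_sq hw.le]
    field_simp
  have t1 : q ^ (3 : ℕ) * (Real.sqrt Real.pi / 8) *
      (9 / 80 / cp * Real.sqrt (9 / 80 / cp) + 12 / 5 * (9 / 80 / cm) * Real.sqrt (9 / 80 / cm)) ≤
      1633 / 10000 * (1 / z ^ (3 : ℕ) + 12 / 5 * (1 / y ^ (3 : ℕ))) := by
    have e1 : q ^ (3 : ℕ) * (Real.sqrt Real.pi / 8) *
      (9 / 80 / cp * Real.sqrt (9 / 80 / cp) + 12 / 5 * (9 / 80 / cm) * Real.sqrt (9 / 80 / cm)) =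
      (q ^ (3 : ℕ) * (Real.sqrt Real.pi / 8) * (9 / 80 * Real.sqrt (9 / 80))) *
        (1 / z ^ (3 : ℕ) + 12 / 5 * (1 / y ^ (3 : ℕ))) := by
      rw [g hz0 hz, mul_assoc (12 / 5 : ℝ), g hy0 hy]
      ring
    rw [e1]
    refine mul_le_mul_of_nonneg_right ?_ (by positivity)
    have e2 : q ^ (3 : ℕ) * (Real.sqrt Real.pi / 8) ≤ 29 / 4 * (26926 / 10000) * (17725 / 10000 / 8) :=
      mul_le_mul hq3 (by linarith only [hpi]) (by positivity) (by norm_num)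
    have e3 : q ^ (3 : ℕ) * (Real.sqrt Real.pi / 8) * (9 / 80 * Real.sqrt (9 / 80)) ≤
        29 / 4 * (26926 / 10000) * (17725 / 10000 / 8) * (9 / 80 * (33542 / 100000)) :=
      mul_le_mul e2 (by linarith only [hd]) (by positivity) (by norm_num)
    exact e3.trans (by norm_num)
  have E1 : Real.exp (-(3 / 5) / (9 / 80)) ≤ 486 / 100000 := by
    have : (-(3 / 5) / (9 / 80) : ℝ) = -(16 / 3) := by norm_num
    rw [this]
    exact b1_exp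
  have t2 : q ^ (3 : ℕ) / 2 * (((1 / 2) ^ (3 : ℕ) - (1 / 2) ^ (3 : ℕ)) / 3 +
      9 / 80 / (9 / 20) * ((1 / 2) ^ (2 : ℕ) + 2 * (1 / 2) * (9 / 80 / (9 / 20)) +
        2 * (9 / 80 / (9 / 20)) ^ (2 : ℕ))) * Real.exp (-(3 / 5) / (9 / 80)) ≤
      29 / 4 * (26926 / 10000) / 2 * (5 / 32) * (486 / 100000) := by
    have e1 : (((1 / 2) ^ (3 : ℕ) - (1 / 2) ^ (3 : ℕ)) / 3 +
      9 / 80 / (9 / 20) * ((1 / 2) ^ (2 : ℕ) + 2 * (1 / 2) * (9 / 80 / (9 / 20)) +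
        2 * (9 / 80 / (9 / 20)) ^ (2 : ℕ)) : ℝ) = 5 / 32 := by norm_num
    rw [e1]
    refine mul_le_mul ?_ E1 (Real.exp_nonneg _) (by norm_num)
    linarith only [hq3]
  have t3 : Real.exp (4 / 5 * 1 - 8 / 5 / (9 / 80)) / 2 * ((4 / 5 * q) ^ (2 : ℕ) / (2 / (9 / 80) - 1) +
      2 * (4 / 5 * q) / (2 / (9 / 80) - 1) ^ (2 : ℕ) + 2 / (2 / (9 / 80) - 1) ^ (3 : ℕ)) ≤
      1 / 40000 / 2 * 1 := by
    have E2 : Real.exp (4 / 5 * 1 - 8 / 5 / (9 / 80)) ≤ 1 / 40000 := b1_exp2 (by norm_num)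
    have e1 : (2 / (9 / 80) - 1 : ℝ) = 151 / 9 := by norm_num
    have e2 : (4 / 5 * q) ^ (2 : ℕ) = 16 / 25 * (29 / 4) := by
      rw [mul_pow, hq]
      norm_num
    rw [e1, e2]
    refine mul_le_mul (by linarith only [E2]) ?_ ?_ (by norm_num)
    · norm_num
      linarith only [hq1]
    · positivity
  refine (add_le_add (add_le_add t1 t2) t3).trans ?_
  have h7 : (29 / 4 * (26926 / 10000) / 2 * (5 / 32) * (486 / 100000) + 1 / 40000 / 2 * 1 : ℝ) ≤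
    75 / 10000 := by norm_num
  linarith only []

theorem est_B1 {δ a s : ℝ} (hδ : 0 < δ) (hδ' : δ ≤ 9 / 80) (ha : a ≤ 0) (ha' : -(127 / 100) ≤ a)
    (hs : 0 ≤ s) (hs' : s ≤ 9 / 2) :
    JJ δ (a + s * I) (4 / 5 * (1 + (5 / 2 : ℝ) * I)) (-(1 + (5 / 2 : ℝ) * I)) (fun _ => 1) ≠ 0 ∧
    ‖JJ δ (a + s * I) (4 / 5 * (1 + (5 / 2 : ℝ) * I)) (-(1 + (5 / 2 : ℝ) * I)) (fun v => v)‖ ≤
      3 / 10 * ‖JJ δ (a + s * I) (4 / 5 * (1 + (5 / 2 : ℝ) * I)) (-(1 + (5 / 2 : ℝ) * I))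
        (fun _ => 1)‖ := by
  have H := hyp_B1 hδ hδ' ha ha' hs hs'
  have hp : (4 / 5 * (1 + (5 / 2 : ℝ) * I) : ℂ) =
      -(((4 / 5 : ℝ) : ℂ) * (-(1 + (5 / 2 : ℝ) * I))) := by
    push_cast
    ring
  rw [hp]
  -- the norms
  have hh2 : ‖(a + s * I : ℂ)‖ ^ (2 : ℕ) = (-a) ^ (2 : ℕ) + s ^ (2 : ℕ) := by
    rw [Complex.sq_norm, Complex.normSq_add_mul_I]
    ring
  have hk2 : ‖(1 - (a + s * I) : ℂ)‖ ^ (2 : ℕ) = (1 + -a) ^ (2 : ℕ) + s ^ (2 : ℕ) := by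
    have e : (1 - (a + s * I) : ℂ) = ((1 - a : ℝ) : ℂ) + ((-s : ℝ) : ℂ) * I := by
      push_cast
      ring
    rw [e, Complex.sq_norm, Complex.normSq_add_mul_I]
    ring
  have hd2 : ‖(-(1 + (5 / 2 : ℝ) * I) : ℂ)‖ ^ (2 : ℕ) = 29 / 4 := by
    have e : (-(1 + (5 / 2 : ℝ) * I) : ℂ) = ((-1 : ℝ) : ℂ) + ((-(5 / 2) : ℝ) : ℂ) * I := by
      push_cast
      ring
    rw [e, Complex.sq_norm, Complex.normSq_add_mul_I]
    norm_num
  have hdre : |(-(1 + (5 / 2 : ℝ) * I) : ℂ).re| = 1 := by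
    simp
  set h : ℂ := a + s * I with hh
  set d : ℂ := -(1 + (5 / 2 : ℝ) * I) with hd
  have hκ0 : 0 < ‖1 - h‖ := norm_pos_iff.2 (sub_ne_zero.2 (Ne.symm H.h_ne))
  have hx0 : 0 < Real.sqrt ‖1 - h‖ := Real.sqrt_pos.2 hκ0
  have hx : Real.sqrt ‖1 - h‖ ^ (2 : ℕ) = ‖1 - h‖ := Real.sq_sqrt hκ0.le
  have hcm : 0 < 243 / 100 + 13 / 5 * s := by positivity
  have hy0 : 0 < Real.sqrt (243 / 100 + 13 / 5 * s) := Real.sqrt_pos.2 hcm
  have hy : Real.sqrt (243 / 100 + 13 / 5 * s) ^ (2 : ℕ) = 243 / 100 + 13 / 5 * s := Real.sq_sqrt hcm.le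
  have hcp : 5 / 2 ≤ 5 / 2 - 12 / 5 * a + 6 / 5 * s := by linarith only [ha, hs]
  have hz0 : 0 < Real.sqrt (5 / 2 - 12 / 5 * a + 6 / 5 * s) := Real.sqrt_pos.2 (by linarith only [hcp])
  have hz : Real.sqrt (5 / 2 - 12 / 5 * a + 6 / 5 * s) ^ (2 : ℕ) = 5 / 2 - 12 / 5 * a + 6 / 5 * s :=
    Real.sq_sqrt (by linarith only [hcp])
  have hcore := b1_core (al := -a) (s := s) (H := ‖h‖) (K := ‖1 - h‖) (by linarith only [ha]) (by linarith only [ha'])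
    hs hs' (norm_nonneg _) hh2 hk2 hx0 hx hy0 hy hz0 (by rw [hz]; ring)
  have hlow := b1_low (H := ‖h‖) (q := ‖d‖) (norm_nonneg _) hd2 hy hz hcp
    (by linarith only [hs])
  have hup := b1_up (q := ‖d‖) (norm_nonneg _) hd2 hy0 hy hz0 hz
  have hG : 8407 / 10000 * Real.sqrt ‖1 - h‖ ≤
      ‖1 - h‖ * Real.sqrt (2 * Real.pi * (9 / 80) / ‖1 - h‖) := by
    rw [Real.sqrt_div (by positivity)]
    have e1 : ‖1 - h‖ * (Real.sqrt (2 * Real.pi * (9 / 80)) / Real.sqrt ‖1 - h‖) =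
        Real.sqrt (2 * Real.pi * (9 / 80)) * Real.sqrt ‖1 - h‖ := by
      nth_rewrite 1 [← hx]
      field_simp
    rw [e1]
    refine mul_le_mul_of_nonneg_right ?_ hx0.le
    refine Real.le_sqrt_of_sq_le ?_
    have := Real.pi_gt_d4
    norm_num at this ⊢
    linarith only [this]
  set x : ℝ := Real.sqrt ‖1 - h‖ with hxd
  set G : ℝ := Real.sqrt (2 * Real.pi * (9 / 80) / ‖1 - h‖) with hGd
  set L : ℝ := lowErr (9 / 80) ‖h‖ ‖d‖ (4 / 5) (1 / 2) (1 / 2) (5 / 2 - 12 / 5 * a + 6 / 5 * s)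
    (243 / 100 + 13 / 5 * s) (3 / 5) (9 / 20) (8 / 5) 2 (19 / 10) with hLd
  set U : ℝ := upErr (9 / 80) ‖d‖ 1 (4 / 5) (1 / 2) (1 / 2) (5 / 2 - 12 / 5 * a + 6 / 5 * s)
    (243 / 100 + 13 / 5 * s) (3 / 5) (9 / 20) (8 / 5) 2 (12 / 5) with hUd
  have hU0 : 0 ≤ ‖h‖ * (1633 / 10000 * (1 / Real.sqrt (5 / 2 - 12 / 5 * a + 6 / 5 * s) ^ (3 : ℕ) +
      12 / 5 * (1 / Real.sqrt (243 / 100 + 13 / 5 * s) ^ (3 : ℕ))) + 75 / 10000) := by positivity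
  have h1 := mul_le_mul_of_nonneg_left hup (norm_nonneg h)
  have h2 := mul_le_mul_of_nonneg_left hlow (show 0 ≤ 3 / 10 * ‖1 - h‖ by positivity)
  refine gen_fin H hδ' (by norm_num) (by norm_num) (by norm_num) (by norm_num) ?_ ?_
  · have h3 : 3 / 10 * ‖1 - h‖ * L < 3 / 10 * ‖1 - h‖ * G := by
      have h4 : 3 / 10 * ‖1 - h‖ * G = 3 / 10 * (‖1 - h‖ * G) := by ring
      rw [h4]
      linarith only [hx0, hcore, hG, hU0, h2]
    exact lt_of_mul_lt_mul_left h3 (by positivity)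
  · rw [hdre]
    have h4 : 3 / 10 * ‖1 - h‖ * (G - L) = 3 / 10 * (‖1 - h‖ * G) - 3 / 10 * ‖1 - h‖ * L := by ring
    rw [h4]
    linarith only [hx0, hcore, hG, h1, h2]

end SokamFU

end

/-! ### Lib_MP_af4de1_fu.MEstB2 -/

section
/-!
# Case B2: the estimate [FU-M21]

`gen_fin` with `hyp_B2`, `k = 3/10`.  `q² = 29/4`, `q³ = 19.5213`, `q⁴ = 52.5625`, `H² = a² + s² ≤ 1.16 s²`, `κ² = (1-a)² + s²`, `s ≤ κ`, `κ² ≤ 1 + s²`,
`cp = 2.5 - 2.75 a + 1.2 s ≥ max(2.5 + .1 s, -.25 + 1.543 s)` (by `a ≤ .4 s`, `a ≤ 1 - s/8`), `cm ≥ 2.5 + 1.6 s`.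
`lowErr ≤ .49278 H (1/cp² + 1.9/cm²) + .0043`, `upErr ≤ .1633 (cp^(-3/2) + 2.4 cm^(-3/2)) + .0075`.
To show: `H upErr ≤ .3 κ (.84077/√κ - lowErr)` (worst point `a = .762, s = 1.905`: `.153 ≤ .231`); everything reduces to one variable `s ∈ [1, 5.7]`:
`1.0771 s (.1633 (cp^(-3/2) + 2.4 cm^(-3/2)) + .0075) + .3·.49278·1.0771 s κ (1/cp² + 1.9/cm²) + .0013 κ ≤ .25223 √κ` with `κ` between `s` and `√(1+s²)`.
-/

set_option autoImplicit false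

namespace SokamFU

open Complex

private theorem b2_exp : Real.exp (-(16 / 3)) ≤ 484 / 100000 := by
  have h1 := Real.exp_one_gt_d9
  have h2 := Real.sum_le_exp_of_nonneg (show (0 : ℝ) ≤ 1 / 3 by norm_num) 4
  norm_num [Finset.sum_range_succ, Nat.factorial] at h2
  have h3 : Real.exp (16 / 3) = Real.exp 1 ^ (5 : ℕ) * Real.exp (1 / 3) := by
    rw [← Real.exp_nat_mul, ← Real.exp_add]
    norm_num
  have h4 : (271 / 100 : ℝ) ^ (5 : ℕ) ≤ Real.exp 1 ^ (5 : ℕ) := by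
    apply pow_le_pow_left₀ (by norm_num)
    linarith only [h1]
  have h4' : (2718 / 1000 : ℝ) ^ (5 : ℕ) ≤ Real.exp 1 ^ (5 : ℕ) := by
    apply pow_le_pow_left₀ (by norm_num)
    linarith only [h1]
  have h5 : (100000 / 484 : ℝ) ≤ Real.exp (16 / 3) := by
    rw [h3]
    calc (100000 / 484 : ℝ) ≤ (2718 / 1000 : ℝ) ^ (5 : ℕ) * (1395 / 1000) := by norm_num
      _ ≤ Real.exp 1 ^ (5 : ℕ) * Real.exp (1 / 3) :=
        mul_le_mul h4' (by linarith only [h2]) (by norm_num) (by positivity)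
  rw [Real.exp_neg]
  calc (Real.exp (16 / 3))⁻¹ ≤ (100000 / 484 : ℝ)⁻¹ := inv_anti₀ (by norm_num) h5
    _ = 484 / 100000 := by norm_num

private theorem b2_exp2 : Real.exp (-(32 / 3)) ≤ 235 / 10000000 := by
  have h1 := b2_exp
  have h2 : Real.exp (-(32 / 3)) = Real.exp (-(16 / 3)) * Real.exp (-(16 / 3)) := by
    rw [← Real.exp_add]; norm_num
  rw [h2]
  calc Real.exp (-(16 / 3)) * Real.exp (-(16 / 3)) ≤ (484 / 100000) * (484 / 100000) :=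
        mul_le_mul h1 h1 (Real.exp_pos _).le (by norm_num)
    _ ≤ _ := by norm_num

private theorem b2_cube {s cp : ℝ} (hs : 1 ≤ s) (hs' : s ≤ 57 / 10)
    (h1 : 5 / 2 + s / 10 ≤ cp) (h2 : -(1 / 4) + 247 / 160 * s ≤ cp) : 10 * s ≤ cp ^ (3 : ℕ) := by
  rcases le_total s (19 / 10) with h | h
  · have h3 : (5 / 2 + s / 10) ^ (3 : ℕ) ≤ cp ^ (3 : ℕ) := pow_le_pow_left₀ (by linarith only [hs]) h1 3
    nlinarith only [h3, mul_nonneg (sub_nonneg.2 hs) (sub_nonneg.2 h), mul_nonneg (mul_nonneg (sub_nonneg.2 hs) (sub_nonneg.2 hs)) (sub_nonneg.2 h)]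
  · have h3 : (-(1 / 4) + 247 / 160 * s) ^ (3 : ℕ) ≤ cp ^ (3 : ℕ) := pow_le_pow_left₀ (by linarith only [h]) h2 3
    nlinarith only [h, h3, mul_nonneg (mul_nonneg (sub_nonneg.2 h) (sub_nonneg.2 h)) (sub_nonneg.2 h)]

private theorem b2_cubem {s cm : ℝ} (hs : 1 ≤ s) (h1 : 5 / 2 + 8 / 5 * s ≤ cm) :
    68 * s ≤ cm ^ (3 : ℕ) := by
  have h3 : (5 / 2 + 8 / 5 * s) ^ (3 : ℕ) ≤ cm ^ (3 : ℕ) := pow_le_pow_left₀ (by linarith only [hs]) h1 3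
  nlinarith only [h3, mul_nonneg (mul_nonneg (sub_nonneg.2 hs) (sub_nonneg.2 hs)) (sub_nonneg.2 hs)]

private theorem b2_four {s cp : ℝ} (hs : 1 ≤ s) (hs' : s ≤ 57 / 10)
    (h1 : 5 / 2 + s / 10 ≤ cp) (h2 : -(1 / 4) + 247 / 160 * s ≤ cp) :
    29 / 25 * (s ^ (3 : ℕ) + s / 2) ≤ 18 / 100 * cp ^ (4 : ℕ) := by
  rcases le_total s (19 / 10) with h | h
  · have h3 : (5 / 2 + s / 10) ^ (4 : ℕ) ≤ cp ^ (4 : ℕ) := pow_le_pow_left₀ (by linarith only [hs]) h1 4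
    nlinarith only [h3, mul_nonneg (sub_nonneg.2 hs) (sub_nonneg.2 h), mul_nonneg (mul_nonneg (sub_nonneg.2 hs) (sub_nonneg.2 hs)) (sub_nonneg.2 h)]
  · have h3 : (-(1 / 4) + 247 / 160 * s) ^ (4 : ℕ) ≤ cp ^ (4 : ℕ) := pow_le_pow_left₀ (by linarith only [h]) h2 4
    nlinarith only [h3, mul_nonneg (mul_nonneg (sub_nonneg.2 h) (sub_nonneg.2 h)) (sub_nonneg.2 h), pow_nonneg (sub_nonneg.2 h) 4]

private theorem b2_fourm {s cm : ℝ} (hs : 1 ≤ s) (hs' : s ≤ 57 / 10)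
    (h1 : 5 / 2 + 8 / 5 * s ≤ cm) :
    29 / 25 * (s ^ (3 : ℕ) + s / 2) ≤ 125 / 10000 * cm ^ (4 : ℕ) := by
  have h3 : (5 / 2 + 8 / 5 * s) ^ (4 : ℕ) ≤ cm ^ (4 : ℕ) := pow_le_pow_left₀ (by linarith only [hs]) h1 4
  have h4 := sq_nonneg (s * (s - 791 / 200))
  have h5 : 0 ≤ s * (57 / 10 - s) := mul_nonneg (by linarith only [hs]) (by linarith only [hs'])
  nlinarith only [h5, h3, h4]

private theorem b2_q {q : ℝ} (hq : q ^ (2 : ℕ) = 29 / 4) : q ≤ 26926 / 10000 := by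
  by_contra h
  push Not at h
  nlinarith

private theorem b2_low {H q cp cm : ℝ} (hH : 0 ≤ H) (hq0 : 0 ≤ q) (hq : q ^ (2 : ℕ) = 29 / 4)
    (hcp : 13 / 5 ≤ cp) (hcm : 41 / 10 ≤ cm) :
    lowErr (9 / 80) H q (4 / 5) (1 / 2) (1 / 2) cp cm (3 / 5) (9 / 20) (8 / 5) 2 (19 / 10) ≤
      4928 / 10000 * (H * (1 / cp ^ (2 : ℕ))) + 4928 / 10000 * (19 / 10) * (H * (1 / cm ^ (2 : ℕ))) +
        46 / 10000 := by
  have hq1 := b2_q hq
  have E1 : Real.exp (-(3 / 5) / (9 / 80)) ≤ 484 / 100000 := by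
    have : (-(3 / 5) / (9 / 80) : ℝ) = -(16 / 3) := by norm_num
    rw [this]; exact b2_exp
  have E2 : Real.exp (-(cp * (1 / 2) ^ (2 : ℕ)) / (9 / 80)) ≤ 484 / 100000 := by
    refine le_trans (Real.exp_le_exp.2 ?_) b2_exp
    have : -(cp * (1 / 2) ^ (2 : ℕ)) / (9 / 80) = -(20 / 9 * cp) := by ring
    rw [this]; linarith only [hcp]
  have E3 : Real.exp (-(cm * (4 / 5) ^ (2 : ℕ)) / (9 / 80)) ≤ 235 / 10000000 := by
    refine le_trans (Real.exp_le_exp.2 ?_) b2_exp2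
    have : -(cm * (4 / 5) ^ (2 : ℕ)) / (9 / 80) = -(256 / 45 * cm) := by ring
    rw [this]; linarith only [hcm]
  have E4 : Real.exp (-(8 / 5) / (9 / 80)) ≤ 235 / 10000000 := by
    refine le_trans (Real.exp_le_exp.2 ?_) b2_exp2
    norm_num
  have F2 : (9 / 80) / (cp * (1 / 2)) ≤ 87 / 1000 := by
    rw [div_le_iff₀ (by linarith only [hcp])]
    linarith only [hcp]
  have F3 : (9 / 80) / (cm * (4 / 5)) ≤ 35 / 1000 := by
    rw [div_le_iff₀ (by linarith only [hcm])]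
    linarith only [hcm]
  have G2 : (9 / 80) / (cp * (1 / 2)) * Real.exp (-(cp * (1 / 2) ^ (2 : ℕ)) / (9 / 80)) ≤
      87 / 1000 * (484 / 100000) :=
    mul_le_mul F2 E2 (Real.exp_pos _).le (by norm_num)
  have G3 : (9 / 80) / (cm * (4 / 5)) * Real.exp (-(cm * (4 / 5) ^ (2 : ℕ)) / (9 / 80)) ≤
      35 / 1000 * (235 / 10000000) :=
    mul_le_mul F3 E3 (Real.exp_pos _).le (by norm_num)
  have hcp0 : 0 < cp := by linarith only [hcp]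
  have hcm0 : 0 < cm := by linarith only [hcm]
  have G1 : H * q ^ (4 : ℕ) / 12 * (1 / cp ^ (2 : ℕ) + (19 / 10) / cm ^ (2 : ℕ)) * (9 / 80) ≤
      4928 / 10000 * (H * (1 / cp ^ (2 : ℕ))) + 4928 / 10000 * (19 / 10) * (H * (1 / cm ^ (2 : ℕ))) := by
    have e1 : q ^ (4 : ℕ) = 841 / 16 := by
      have : q ^ (4 : ℕ) = (q ^ (2 : ℕ)) ^ (2 : ℕ) := by ring
      rw [this, hq]; norm_num
    rw [e1]
    have p1 : 0 ≤ H * (1 / cp ^ (2 : ℕ)) := by (clear * - hH hcp; positivity)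
    have p2 : 0 ≤ H * (1 / cm ^ (2 : ℕ)) := by (clear * - hH hcm; positivity)
    have e2 : H * (841 / 16) / 12 * (1 / cp ^ (2 : ℕ) + (19 / 10) / cm ^ (2 : ℕ)) * (9 / 80) =
        841 / 16 / 12 * (9 / 80) * (H * (1 / cp ^ (2 : ℕ))) +
          841 / 16 / 12 * (9 / 80) * (19 / 10) * (H * (1 / cm ^ (2 : ℕ))) := by ring
    rw [e2]
    have c1 : (841 / 16 / 12 * (9 / 80) : ℝ) ≤ 4928 / 10000 := by norm_num
    linarith only [p1, p2]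
  have G4 : q * (((1 / 2 - 1 / 2) + (9 / 80) / (9 / 20)) * Real.exp (-(3 / 5) / (9 / 80)) +
      (9 / 80) / (cp * (1 / 2)) * Real.exp (-(cp * (1 / 2) ^ (2 : ℕ)) / (9 / 80)) +
      (9 / 80) / (cm * (4 / 5)) * Real.exp (-(cm * (4 / 5) ^ (2 : ℕ)) / (9 / 80))) ≤
      26926 / 10000 * (1 / 4 * (484 / 100000) + 87 / 1000 * (484 / 100000) +
        35 / 1000 * (235 / 10000000)) := by
    refine mul_le_mul hq1 ?_ (by (clear * - hcp hcm; positivity)) (by norm_num)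
    have : ((1 / 2 - 1 / 2) + (9 / 80) / (9 / 20) : ℝ) = 1 / 4 := by norm_num
    rw [this]
    linarith only [E1, G2, G3]
  have G5 : (9 / 80) / 2 * Real.exp (-(8 / 5) / (9 / 80)) ≤ (9 / 80) / 2 * (235 / 10000000) :=
    mul_le_mul_of_nonneg_left E4 (by norm_num)
  unfold lowErr
  norm_num at G4 G5 ⊢
  norm_num at G1
  linarith only [G4, G5, G1]

private theorem b2_up {q cp cm : ℝ} (hq0 : 0 ≤ q) (hq : q ^ (2 : ℕ) = 29 / 4)
    (hcp : 0 < cp) (hcm : 0 < cm) :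
    upErr (9 / 80) q 1 (4 / 5) (1 / 2) (1 / 2) cp cm (3 / 5) (9 / 20) (8 / 5) 2 (12 / 5) ≤
      433 / 100 * ((9 / 80) / cp * Real.sqrt ((9 / 80) / cp)) +
      433 / 100 * (12 / 5) * ((9 / 80) / cm * Real.sqrt ((9 / 80) / cm)) + 75 / 10000 := by
  have hq1 := b2_q hq
  have e3 : q ^ (3 : ℕ) = 29 / 4 * q := by
    have : q ^ (3 : ℕ) = q ^ (2 : ℕ) * q := by ring
    rw [this, hq]
  have hpi : Real.sqrt Real.pi ≤ 17725 / 10000 := by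
    apply Real.sqrt_le_iff.2
    constructor
    · norm_num
    · have := Real.pi_lt_d4
      norm_num at this ⊢
      linarith only [this]
  have E1 : Real.exp (-(3 / 5) / (9 / 80)) ≤ 484 / 100000 := by
    have : (-(3 / 5) / (9 / 80) : ℝ) = -(16 / 3) := by norm_num
    rw [this]; exact b2_exp
  have E4 : Real.exp (4 / 5 * 1 - (8 / 5) / (9 / 80)) ≤ 235 / 10000000 := by
    refine le_trans (Real.exp_le_exp.2 ?_) b2_exp2
    norm_num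
  set X : ℝ := (9 / 80) / cp * Real.sqrt ((9 / 80) / cp) with hX
  set Y : ℝ := (9 / 80) / cm * Real.sqrt ((9 / 80) / cm) with hY
  have hX0 : 0 ≤ X := by (clear * - hcp; positivity)
  have hY0 : 0 ≤ Y := by (clear * - hcm; positivity)
  have c1 : q ^ (3 : ℕ) * (Real.sqrt Real.pi / 8) ≤ 433 / 100 := by
    rw [e3]
    calc 29 / 4 * q * (Real.sqrt Real.pi / 8) ≤
        (29 / 4 * (26926 / 10000)) * ((17725 / 10000) / 8) :=
          mul_le_mul (by linarith only [hq1]) (by linarith only [hpi]) (by positivity) (by norm_num)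
      _ ≤ _ := by norm_num
  have G1 : q ^ (3 : ℕ) * (Real.sqrt Real.pi / 8) * ((9 / 80) / cp * Real.sqrt ((9 / 80) / cp) +
      (12 / 5) * ((9 / 80) / cm) * Real.sqrt ((9 / 80) / cm)) ≤
      433 / 100 * X + 433 / 100 * (12 / 5) * Y := by
    have e1 : (9 / 80) / cp * Real.sqrt ((9 / 80) / cp) +
      (12 / 5) * ((9 / 80) / cm) * Real.sqrt ((9 / 80) / cm) = X + 12 / 5 * Y := by
      rw [hX, hY]; ring
    rw [e1]
    have := mul_le_mul_of_nonneg_right c1 (show 0 ≤ X + 12 / 5 * Y by (clear * - hcp hcm; positivity))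
    linarith only [this]
  have G2 : q ^ (3 : ℕ) / 2 * (((1 / 2) ^ (3 : ℕ) - (1 / 2) ^ (3 : ℕ)) / 3 + (9 / 80) / (9 / 20) *
      ((1 / 2) ^ (2 : ℕ) + 2 * (1 / 2) * ((9 / 80) / (9 / 20)) + 2 * ((9 / 80) / (9 / 20)) ^ (2 : ℕ))) *
      Real.exp (-(3 / 5) / (9 / 80)) ≤ 74 / 10000 := by
    rw [e3]
    have e4 : (((1 / 2) ^ (3 : ℕ) - (1 / 2) ^ (3 : ℕ)) / 3 + (9 / 80) / (9 / 20) *
      ((1 / 2) ^ (2 : ℕ) + 2 * (1 / 2) * ((9 / 80) / (9 / 20)) + 2 * ((9 / 80) / (9 / 20)) ^ (2 : ℕ)) : ℝ) =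
        5 / 32 := by norm_num
    rw [e4]
    calc 29 / 4 * q / 2 * (5 / 32) * Real.exp (-(3 / 5) / (9 / 80)) ≤
        (29 / 4 * (26926 / 10000) / 2 * (5 / 32)) * (484 / 100000) :=
          mul_le_mul (by linarith only [hq1]) E1 (Real.exp_pos _).le (by norm_num)
      _ ≤ _ := by norm_num
  have G3 : Real.exp (4 / 5 * 1 - (8 / 5) / (9 / 80)) / 2 *
      ((4 / 5 * q) ^ (2 : ℕ) / (2 / (9 / 80) - 1) + 2 * (4 / 5 * q) / (2 / (9 / 80) - 1) ^ (2 : ℕ) +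
        2 / (2 / (9 / 80) - 1) ^ (3 : ℕ)) ≤ 1 / 100000 := by
    have e5 : (4 / 5 * q) ^ (2 : ℕ) / (2 / (9 / 80) - 1) + 2 * (4 / 5 * q) / (2 / (9 / 80) - 1) ^ (2 : ℕ) +
        2 / (2 / (9 / 80) - 1) ^ (3 : ℕ) ≤ 1 / 2 := by
      have e6 : (4 / 5 * q) ^ (2 : ℕ) = 16 / 25 * (29 / 4) := by
        rw [mul_pow, hq]; norm_num
      rw [e6]
      norm_num
      linarith only [hq1]
    have e7 : 0 ≤ (4 / 5 * q) ^ (2 : ℕ) / (2 / (9 / 80) - 1) + 2 * (4 / 5 * q) / (2 / (9 / 80) - 1) ^ (2 : ℕ) +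
        2 / (2 / (9 / 80) - 1) ^ (3 : ℕ) := by
      norm_num
      (clear * - hq0; positivity)
    calc _ ≤ (235 / 10000000) / 2 * (1 / 2) :=
          mul_le_mul (by linarith only [E4]) e5 e7 (by norm_num)
      _ ≤ _ := by norm_num
  unfold upErr
  linarith only [G1, G2, G3]

private theorem b2_T {s H κ K c n X : ℝ} (hs : 1 ≤ s) (hH : H ^ (2 : ℕ) ≤ 29 / 25 * s ^ (2 : ℕ))
    (hκ : s ≤ κ) (hK0 : 0 ≤ K) (hKK : K ^ (2 : ℕ) = κ) (hn : 0 < n) (hc : n * s ≤ c)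
    (hX2 : X ^ (2 : ℕ) = (9 / 80) ^ (3 : ℕ) / c) {C : ℝ} (hC : 0 ≤ C)
    (hCn : 29 / 25 * ((9 / 80) ^ (3 : ℕ) / n) ≤ C ^ (2 : ℕ)) : H * X ≤ C * K := by
  refine abs_le_of_sq_le_sq' ?_ (mul_nonneg hC hK0) |>.2
  have hs0 : 0 < s := by linarith only [hs]
  have hc0 : 0 < c := (mul_pos hn hs0).trans_le hc
  have e2 : (9 / 80 : ℝ) ^ (3 : ℕ) / c ≤ (9 / 80) ^ (3 : ℕ) / (n * s) :=
    div_le_div_of_nonneg_left (by norm_num) (mul_pos hn hs0) hc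
  have e3 : (9 / 80 : ℝ) ^ (3 : ℕ) / (n * s) * s = (9 / 80) ^ (3 : ℕ) / n := by field_simp
  rw [mul_pow, mul_pow, hX2, hKK]
  calc H ^ (2 : ℕ) * ((9 / 80) ^ (3 : ℕ) / c) ≤ (29 / 25 * s ^ (2 : ℕ)) * ((9 / 80) ^ (3 : ℕ) / (n * s)) :=
        mul_le_mul hH e2 (by (clear * - hc0; positivity)) (by (clear * - hs; positivity))
    _ = 29 / 25 * ((9 / 80 : ℝ) ^ (3 : ℕ) / (n * s) * s) * s := by ring
    _ = 29 / 25 * ((9 / 80) ^ (3 : ℕ) / n) * s := by rw [e3]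
    _ ≤ C ^ (2 : ℕ) * s := mul_le_mul_of_nonneg_right hCn hs0.le
    _ ≤ C ^ (2 : ℕ) * κ := mul_le_mul_of_nonneg_left hκ (sq_nonneg C)

private theorem b2_T3 {s H κ K : ℝ} (hs : 1 ≤ s) (hs' : s ≤ 57 / 10)
    (hH : H ^ (2 : ℕ) ≤ 29 / 25 * s ^ (2 : ℕ)) (hκ : s ≤ κ) (hK0 : 0 ≤ K) (hKK : K ^ (2 : ℕ) = κ) :
    H ≤ 2572 / 1000 * K := by
  refine abs_le_of_sq_le_sq' ?_ (by (clear * - hK0; positivity)) |>.2
  rw [mul_pow, hKK]
  nlinarith only [hs, hs', hH, hκ]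

private theorem b2_KH {s H κ K : ℝ} (hs : 1 ≤ s) (hH : H ^ (2 : ℕ) ≤ 29 / 25 * s ^ (2 : ℕ)) (hκ : s ≤ κ)
    (hκ' : κ ^ (2 : ℕ) ≤ 1 + s ^ (2 : ℕ)) (hKK : K ^ (2 : ℕ) = κ) : (K * H) ^ (2 : ℕ) ≤ 29 / 25 * (s ^ (3 : ℕ) + s / 2) := by
  have hκ0 : 0 < κ := by linarith only [hs, hκ]
  have hsκ : s * κ ≤ s ^ (2 : ℕ) + 1 / 2 := by
    refine abs_le_of_sq_le_sq' ?_ (by positivity) |>.2
    rw [mul_pow]
    have : s ^ (2 : ℕ) * κ ^ (2 : ℕ) ≤ s ^ (2 : ℕ) * (1 + s ^ (2 : ℕ)) := mul_le_mul_of_nonneg_left hκ' (sq_nonneg s)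
    linarith only [this]
  rw [mul_pow, hKK]
  have e1 : κ * H ^ (2 : ℕ) ≤ κ * (29 / 25 * s ^ (2 : ℕ)) := mul_le_mul_of_nonneg_left hH hκ0.le
  have e2 : s * (s * κ) ≤ s * (s ^ (2 : ℕ) + 1 / 2) := mul_le_mul_of_nonneg_left hsκ (by linarith only [hs])
  linarith only [e1, e2]

private theorem b2_T4 {K H c C D t : ℝ} (hc : 0 < c) (hC : 0 ≤ C)
    (h1 : (K * H) ^ (2 : ℕ) ≤ t) (h2 : t ≤ D * c ^ (4 : ℕ)) (h3 : D ≤ C ^ (2 : ℕ)) :
    K * (H * (1 / c ^ (2 : ℕ))) ≤ C := by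
  have e1 : K * H ≤ C * c ^ (2 : ℕ) := by
    refine abs_le_of_sq_le_sq' ?_ (by positivity) |>.2
    have e3 : (C * c ^ (2 : ℕ)) ^ (2 : ℕ) = C ^ (2 : ℕ) * c ^ (4 : ℕ) := by ring
    have e4 : D * c ^ (4 : ℕ) ≤ C ^ (2 : ℕ) * c ^ (4 : ℕ) := mul_le_mul_of_nonneg_right h3 (pow_pos hc 4).le
    rw [e3]
    linarith only [h1, h2, e4]
  have e2 : K * (H * (1 / c ^ (2 : ℕ))) = K * H / c ^ (2 : ℕ) := by ring
  rw [e2, div_le_iff₀ (by (clear * - hc; positivity))]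
  exact e1

private theorem b2_T6 {s κ K : ℝ} (hs : 1 ≤ s) (hs' : s ≤ 57 / 10)
    (hκ' : κ ^ (2 : ℕ) ≤ 1 + s ^ (2 : ℕ)) (hKK : K ^ (2 : ℕ) = κ) : K ≤ 241 / 100 := by
  refine abs_le_of_sq_le_sq' ?_ (by norm_num) |>.2
  rw [hKK]
  refine abs_le_of_sq_le_sq' ?_ (by norm_num) |>.2
  nlinarith only [hs, hs', hκ']

private theorem b2_fin {H K κ L U Q P M X Y : ℝ} (hH0 : 0 ≤ H) (hK0 : 0 < K) (hKK : K ^ (2 : ℕ) = κ)
    (hlow : L ≤ 4928 / 10000 * P + 4928 / 10000 * (19 / 10) * M + 46 / 10000)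
    (hup : U ≤ 433 / 100 * X + 433 / 100 * (12 / 5) * Y + 75 / 10000)
    (hQ : 8407 / 10000 ≤ K * Q) (T1 : H * X ≤ 1286 / 100000 * K)
    (T2 : H * Y ≤ 494 / 100000 * K) (T3 : H ≤ 2572 / 1000 * K) (T4 : K * P ≤ 4243 / 10000)
    (T5 : K * M ≤ 1119 / 10000) (T6 : K ≤ 241 / 100) :
    L < Q ∧ H * U ≤ 3 / 10 * κ * (Q - L) := by
  have hKL : K * L ≤ 325 / 1000 := by
    have := mul_le_mul_of_nonneg_left hlow hK0.le
    linarith only [T4, T5, T6, this]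
  constructor
  · have : K * L < K * Q := by linarith only [hQ, hKL]
    exact lt_of_mul_lt_mul_left this hK0.le
  · have g1 : H * U ≤ K * (127 / 1000) := by
      have := mul_le_mul_of_nonneg_left hup hH0
      linarith only [hK0, T1, T2, T3, this]
    have g2 : 3 / 10 * κ * (Q - L) = K * (3 / 10 * (K * Q - K * L)) := by
      rw [← hKK]; ring
    rw [g2]
    refine g1.trans (mul_le_mul_of_nonneg_left ?_ hK0.le)
    linarith only [hQ, hKL]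

private theorem b2_sqX {c : ℝ} (hc : 0 < c) :
    ((9 / 80) / c * Real.sqrt ((9 / 80) / c)) ^ (2 : ℕ) = (9 / 80) ^ (3 : ℕ) / c ^ (3 : ℕ) := by
  rw [mul_pow, Real.sq_sqrt (by positivity)]
  ring

private theorem b2_num {s H κ cp cm q : ℝ} (hs : 1 ≤ s) (hs' : s ≤ 57 / 10) (hH0 : 0 ≤ H)
    (hH : H ^ (2 : ℕ) ≤ 29 / 25 * s ^ (2 : ℕ)) (hκ : s ≤ κ) (hκ' : κ ^ (2 : ℕ) ≤ 1 + s ^ (2 : ℕ)) (hq0 : 0 ≤ q)
    (hq : q ^ (2 : ℕ) = 29 / 4) (h1 : 5 / 2 + s / 10 ≤ cp) (h2 : -(1 / 4) + 247 / 160 * s ≤ cp)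
    (h3 : 5 / 2 + 8 / 5 * s ≤ cm) :
    lowErr (9 / 80) H q (4 / 5) (1 / 2) (1 / 2) cp cm (3 / 5) (9 / 20) (8 / 5) 2 (19 / 10) <
      Real.sqrt (2 * Real.pi * (9 / 80) / κ) ∧
    H * upErr (9 / 80) q 1 (4 / 5) (1 / 2) (1 / 2) cp cm (3 / 5) (9 / 20) (8 / 5) 2 (12 / 5) ≤
      3 / 10 * κ * (Real.sqrt (2 * Real.pi * (9 / 80) / κ) -
      lowErr (9 / 80) H q (4 / 5) (1 / 2) (1 / 2) cp cm (3 / 5) (9 / 20) (8 / 5) 2 (19 / 10)) := by
  have hκ0 : 0 < κ := by linarith only [hs, hκ]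
  have hcp0 : 0 < cp := by linarith only [hs, h2]
  have hcm0 : 0 < cm := by linarith only [hs, h3]
  have hK0 : 0 < Real.sqrt κ := Real.sqrt_pos.2 hκ0
  have hKK : Real.sqrt κ ^ (2 : ℕ) = κ := Real.sq_sqrt hκ0.le
  have hQ : 8407 / 10000 ≤ Real.sqrt κ * Real.sqrt (2 * Real.pi * (9 / 80) / κ) := by
    rw [← Real.sqrt_mul hκ0.le]
    apply Real.le_sqrt_of_sq_le
    have e : κ * (2 * Real.pi * (9 / 80) / κ) = 2 * Real.pi * (9 / 80) := by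
      rw [mul_div_assoc']
      exact mul_div_cancel_left₀ _ hκ0.ne'
    rw [e]
    have := Real.pi_gt_d4
    norm_num at this ⊢
    linarith only [this]
  exact b2_fin hH0 hK0 hKK (b2_low hH0 hq0 hq (by linarith only [hs, h1]) (by linarith only [hs, h3])) (b2_up hq0 hq hcp0 hcm0)
    hQ (b2_T hs hH hκ hK0.le hKK (n := 10) (by norm_num) (b2_cube hs hs' h1 h2) (b2_sqX hcp0)
      (by norm_num) (by norm_num))
    (b2_T hs hH hκ hK0.le hKK (n := 68) (by norm_num) (b2_cubem hs h3) (b2_sqX hcm0)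
      (by norm_num) (by norm_num))
    (b2_T3 hs hs' hH hκ hK0.le hKK)
    (b2_T4 hcp0 (by norm_num) (b2_KH hs hH hκ hκ' hKK) (b2_four hs hs' h1 h2) (by norm_num))
    (b2_T4 hcm0 (by norm_num) (b2_KH hs hH hκ hκ' hKK) (b2_fourm hs hs' h3) (by norm_num))
    (b2_T6 hs hs' hκ' hKK)

theorem est_B2 {δ a s : ℝ} (hδ : 0 < δ) (hδ' : δ ≤ 9 / 80) (ha : 0 ≤ a) (hs : 1 ≤ s)
    (hs' : s ≤ 57 / 10) (h1 : a ≤ 2 / 5 * s) (h2 : a ≤ 1 - s / 8) :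
    JJ δ (a + s * I) (4 / 5 * (1 + (5 / 2 : ℝ) * I)) (-(1 + (5 / 2 : ℝ) * I)) (fun _ => 1) ≠ 0 ∧
    ‖JJ δ (a + s * I) (4 / 5 * (1 + (5 / 2 : ℝ) * I)) (-(1 + (5 / 2 : ℝ) * I)) (fun v => v)‖ ≤
      3 / 10 * ‖JJ δ (a + s * I) (4 / 5 * (1 + (5 / 2 : ℝ) * I)) (-(1 + (5 / 2 : ℝ) * I))
        (fun _ => 1)‖ := by
  have hyp := hyp_B2 hδ hδ' ha hs hs' h1 h2
  have e : (4 / 5 * (1 + (5 / 2 : ℝ) * I) : ℂ) =
      -(((4 / 5 : ℝ) : ℂ) * (-(1 + (5 / 2 : ℝ) * I))) := by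
    push_cast; ring
  have hH : ‖(a + s * I : ℂ)‖ ^ (2 : ℕ) = a ^ (2 : ℕ) + s ^ (2 : ℕ) := by
    rw [← Complex.normSq_eq_norm_sq, Complex.normSq_apply]
    simp
    ring
  have hκ : ‖(1 - (a + s * I) : ℂ)‖ ^ (2 : ℕ) = (1 - a) ^ (2 : ℕ) + s ^ (2 : ℕ) := by
    rw [← Complex.normSq_eq_norm_sq, Complex.normSq_apply]
    simp
    ring
  have hq : ‖(-(1 + (5 / 2 : ℝ) * I) : ℂ)‖ ^ (2 : ℕ) = 29 / 4 := by
    rw [← Complex.normSq_eq_norm_sq, Complex.normSq_apply]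
    simp
    norm_num
  have hre : |(-(1 + (5 / 2 : ℝ) * I) : ℂ).re| = 1 := by simp
  have ha1 : a ≤ 1 := by linarith only [h1, h2]
  have key := b2_num (s := s) (H := ‖(a + s * I : ℂ)‖) (κ := ‖(1 - (a + s * I) : ℂ)‖)
    (cp := 5 / 2 - 11 / 4 * a + 6 / 5 * s) (cm := 5 / 2 - 5 / 2 * a + 13 / 5 * s)
    (q := ‖(-(1 + (5 / 2 : ℝ) * I) : ℂ)‖) hs hs' (norm_nonneg _)
    (by rw [hH]; nlinarith only [ha, h1])
    (by
      refine abs_le_of_sq_le_sq' ?_ (norm_nonneg _) |>.2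
      rw [hκ]; nlinarith only [])
    (by rw [hκ]; nlinarith only [ha, hs, h2]) (norm_nonneg _) hq (by linarith only [h1]) (by linarith only [h2]) (by linarith only [h1])
  rw [e]
  exact gen_fin hyp hδ' (by norm_num) (by norm_num) (by norm_num) (by norm_num) key.1
    (by rw [hre]; exact key.2)

end SokamFU

end
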