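import Pool.Agent.Lib_MP_af4de1_zy.Z18
import Pool.Agent.Lib_MP_af4de1_zy.Z31
import Pool.Agent.Lib_MP_af4de1_zy.Z32
import Pool.Agent.Lib_MP_af4de1_zy.Z36
import Pool.Agent.Lib_MP_af4de1_zy.Z49
import Pool.Agent.Lib_MP_af4de1_zy.Z50

/-! ### Lib_MP_af4de1_fu.Ray -/

section
/-!
# Primitives along segments and rays (shared part of F2: F = L + R)

`k` continuous with primitive `P`.  `seg_int`: integral over a straight piece; `seg_le`: bound of the difference;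
`ray_tendsto`: convergence along a ray; `ray_common`: two rays with the same limit.
-/

namespace SokamFW

open Complex MeasureTheory Filter Topology Set

theorem seg_int {k P : ℂ → ℂ} (hk : Continuous k) (hP : ∀ z, HasDerivAt P (k z) z)
    (a b : ℂ) (u v : ℝ) :
    b * ∫ t in u..v, k (a + t * b) = P (a + v * b) - P (a + u * b) := by
  have hd : ∀ s ∈ Set.uIcc u v,
      HasDerivAt (fun s : ℝ => P (a + s * b)) (b * k (a + s * b)) s := by
    intro s _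
    have h1 : HasDerivAt (fun z : ℂ => a + z * b) b (s : ℂ) := by
      simpa using ((hasDerivAt_id (s : ℂ)).mul_const b).const_add a
    have h2 := ((hP (a + s * b)).comp (s : ℂ) h1).comp_ofReal
    rwa [mul_comm] at h2
  have hc : Continuous fun s : ℝ => b * k (a + s * b) := by fun_prop
  rw [← intervalIntegral.integral_const_mul]
  exact intervalIntegral.integral_eq_sub_of_hasDerivAt hd (hc.intervalIntegrable _ _)

theorem seg_le {k P : ℂ → ℂ} (hP : ∀ z, HasDerivAt P (k z) z) {S : Set ℂ} (hS : Convex ℝ S)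
    {a b : ℂ} (ha : a ∈ S) (hb : b ∈ S) {B : ℝ} (h : ∀ z ∈ S, ‖k z‖ ≤ B) :
    ‖P b - P a‖ ≤ B * ‖b - a‖ :=
  hS.norm_image_sub_le_of_norm_hasDerivWithin_le (fun x _ => (hP x).hasDerivWithinAt) h ha hb

theorem ray_tendsto {k P : ℂ → ℂ} (hk : Continuous k) (hP : ∀ z, HasDerivAt P (k z) z) {a b : ℂ}
    (hi : IntegrableOn (fun t : ℝ => k (a + t * b)) (Ioi 0)) :
    Tendsto (fun T : ℝ => P (a + T * b)) atTop
      (𝓝 (P a + b * ∫ t in Ioi (0 : ℝ), k (a + t * b))) := by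
  have h1 := intervalIntegral_tendsto_integral_Ioi 0 hi tendsto_id
  have h2 := (h1.const_mul b).const_add (P a)
  refine h2.congr fun T => ?_
  have h3 := seg_int hk hP a b 0 T
  simp only [id] at *
  rw [h3]
  simp

end SokamFW

end

/-! ### Lib_MP_af4de1_fu.Ker -/

section
/-!
# The kernel of F2 in the plane `g = h - i ψ`, and bounds in the three ends

`kk δ ρ ψ g = exp((i(g²/2 - ρ e^g) - ψ g)/δ)`, `|kk| = exp(-hf/δ)`, `hf = a(σ+ψ) - ρ e^a sin σ`, `g = a + iσ`.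
Ends: V (`a → ∞`, `-π < σ < 0`), T (`σ → ∞`, `a > 0`), B (`a < 0`, `σ + ψ < 0`).
-/

namespace SokamFW

open Complex MeasureTheory Filter Topology Set

/-- The height. -/
noncomputable def hf (ρ ψ : ℝ) (g : ℂ) : ℝ :=
  g.re * (g.im + ψ) - ρ * Real.exp g.re * Real.sin g.im

theorem norm_kk (δ ρ ψ : ℝ) (g : ℂ) : ‖SokamFU.kk ρ δ ψ g‖ = Real.exp (-(hf ρ ψ g) / δ) := by
  rw [SokamFU.norm_kk]
  rfl

theorem kk_diff (δ ρ ψ : ℝ) : Differentiable ℂ (SokamFU.kk ρ δ ψ) := by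
  unfold SokamFU.kk
  fun_prop

theorem kk_deriv {δ : ℝ} (ρ ψ : ℝ) (g : ℂ) : HasDerivAt (SokamFU.kk ρ δ ψ)
    ((g + ψ * I - ρ * cexp g) * (I / δ) * SokamFU.kk ρ δ ψ g) g := by
  have h1 : HasDerivAt (fun g : ℂ => I / δ * (g ^ (2 : ℕ) / 2 - ρ * cexp g) - ψ * g / δ)
      (I / δ * (g - ρ * cexp g) - ψ / δ) g := by
    have h2 : HasDerivAt (fun g : ℂ => g ^ (2 : ℕ) / 2) g g := by
      have h3 := (hasDerivAt_pow 2 g).div_const 2
      refine h3.congr_deriv ?_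
      simp only [Nat.cast_ofNat, Nat.add_one_sub_one, pow_one]
      ring
    have h4 := ((h2.sub ((Complex.hasDerivAt_exp g).const_mul (ρ : ℂ))).const_mul (I / δ : ℂ)).sub
      (((hasDerivAt_id g).const_mul (ψ : ℂ)).div_const (δ : ℂ))
    refine h4.congr_deriv ?_
    rw [mul_one]
  refine h1.cexp.congr_deriv ?_
  have h6 : (g + ψ * I - ρ * cexp g) * (I / δ) = I / δ * (g - ρ * cexp g) - ψ / δ := by
    have hI : I * I = -1 := I_mul_I
    linear_combination (ψ / δ : ℂ) * hI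
  rw [h6]
  unfold SokamFU.kk
  ring

/-- End V. -/
theorem expV {δ ρ Ψ N σ1 σ2 : ℝ} (hδ : 0 < δ) (hρ : 0 < ρ) (h1 : -Real.pi < σ1)
    (h2 : σ2 < 0) :
    ∃ C : ℝ, ∀ ψ a σ : ℝ, |ψ| ≤ Ψ → 0 ≤ a → σ1 ≤ σ → σ ≤ σ2 →
      (|a| + |σ|) + N * max a 0 - (a * (σ + ψ) - ρ * Real.exp a * Real.sin σ) / δ ≤ C - a := by
  set s0 := min (Real.sin (-σ1)) (Real.sin (-σ2)) with hs0
  by_cases h12 : σ1 ≤ σ2
  swap
  · exact ⟨0, fun ψ a σ _ _ h3 h4 => absurd (h3.trans h4) h12⟩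
  have hs1 : 0 < Real.sin (-σ1) := Real.sin_pos_of_pos_of_lt_pi (by linarith only [h2, h12]) (by linarith only [h1])
  have hs2 : 0 < Real.sin (-σ2) := Real.sin_pos_of_pos_of_lt_pi (by linarith only [h2]) (by linarith only [h1, h12])
  have hs : 0 < s0 := lt_min hs1 hs2
  set κ := ρ * s0 / δ with hκ
  have hκ0 : 0 < κ := by (clear * - hρ hs1 hs2 hδ; positivity)
  set M := 2 + N + (Real.pi + Ψ) / δ with hM
  refine ⟨Real.pi + M ^ (2 : ℕ) / (2 * κ), fun ψ a σ hψ ha h3 h4 => ?_⟩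
  have hΨ : 0 ≤ Ψ := (abs_nonneg ψ).trans hψ
  have hsin : s0 ≤ Real.sin (-σ) := by
    have hc := strictConcaveOn_sin_Icc.concaveOn
    have := hc.min_le_of_mem_Icc (x := -σ2) (y := -σ1) (z := -σ) ⟨by linarith only [h2], by linarith only [h1, h12]⟩
      ⟨by linarith only [h2, h12], by linarith only [h1]⟩ ⟨by linarith only [h4], by linarith only [h3]⟩
    rw [min_comm] at this
    exact this
  rw [Real.sin_neg] at hsin
  have he : a ^ (2 : ℕ) / 2 ≤ Real.exp a := by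
    have := Real.quadratic_le_exp_of_nonneg ha
    linarith only [ha, this]
  have hσ : |σ| ≤ Real.pi := abs_le.2 ⟨by linarith only [h1, h3], by linarith only [h2, h4, Real.pi_pos]⟩
  have h5 : -(a * (σ + ψ)) ≤ a * (Real.pi + Ψ) := by
    have := abs_le.1 hψ
    nlinarith only [ha, this, abs_le.1 hσ]
  have h6 : κ * (a ^ (2 : ℕ) / 2) ≤ -(ρ * Real.exp a * Real.sin σ) / δ := by
    rw [hκ, div_mul_eq_mul_div, div_le_div_iff_of_pos_right hδ]
    have h7 : s0 * (a ^ (2 : ℕ) / 2) ≤ -Real.sin σ * Real.exp a :=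
      mul_le_mul hsin he (by (clear * -; positivity)) (by linarith only [hs, hsin])
    nlinarith only [hρ, h7]
  rw [abs_of_nonneg ha, max_eq_left ha, sub_div]
  have h8 : -(a * (σ + ψ)) / δ ≤ a * (Real.pi + Ψ) / δ := div_le_div_of_nonneg_right h5 hδ.le
  have h9 : M * a - κ * (a ^ (2 : ℕ) / 2) ≤ M ^ (2 : ℕ) / (2 * κ) := by
    rw [le_div_iff₀ (by (clear * - hρ hs1 hs2 hδ; positivity))]
    linarith only [sq_nonneg (κ * a - M)]
  have h10 : M * a = 2 * a + N * a + a * (Real.pi + Ψ) / δ := by rw [hM]; ring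
  have h11 : a * (σ + ψ) / δ = -(-(a * (σ + ψ)) / δ) := by ring
  have h12' : ρ * Real.exp a * Real.sin σ / δ = -(-(ρ * Real.exp a * Real.sin σ) / δ) := by ring
  rw [h11, h12']
  linarith only [hσ, h6, h8, h9, h10]

/-- End T. -/
theorem expT {δ ρ Ψ N a1 a2 : ℝ} (hδ : 0 < δ) (hρ : 0 < ρ) (h1 : 0 < a1) (hN : 0 ≤ N) :
    ∃ C : ℝ, ∀ ψ a σ : ℝ, |ψ| ≤ Ψ → a1 ≤ a → a ≤ a2 → 0 ≤ σ →
      a1 / (2 * δ) * (|a| + |σ|) + N * max a 0 -
        (a * (σ + ψ) - ρ * Real.exp a * Real.sin σ) / δ ≤ C - a1 / (2 * δ) * σ := by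
  refine ⟨a1 / (2 * δ) * a2 + N * a2 + (a2 * Ψ + ρ * Real.exp a2) / δ,
    fun ψ a σ hψ h3 h4 hσ => ?_⟩
  have hΨ : 0 ≤ Ψ := (abs_nonneg ψ).trans hψ
  have ha : 0 < a := by linarith only [h1, h3]
  rw [abs_of_pos ha, abs_of_nonneg hσ, max_eq_left ha.le]
  have h5 : N * a ≤ N * a2 := mul_le_mul_of_nonneg_left h4 hN
  have h6 : -(a * (σ + ψ) - ρ * Real.exp a * Real.sin σ) ≤
      (a2 * Ψ + ρ * Real.exp a2) - a1 * σ := by
    have h7 : Real.exp a * Real.sin σ ≤ Real.exp a2 := by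
      have := Real.sin_le_one σ
      have h8 : Real.exp a ≤ Real.exp a2 := Real.exp_le_exp.2 h4
      nlinarith only [this, h8, Real.exp_pos a]
    have h9 : -(a * ψ) ≤ a2 * Ψ := by
      have := abs_le.1 hψ
      nlinarith only [h4, hΨ, ha, this]
    nlinarith only [hρ, h3, hσ, h7, h9]
  have h7 := div_le_div_of_nonneg_right h6 hδ.le
  have h8 : a1 / (2 * δ) * a ≤ a1 / (2 * δ) * a2 := mul_le_mul_of_nonneg_left h4 (by positivity)
  have h9 : ((a2 * Ψ + ρ * Real.exp a2) - a1 * σ) / δ =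
      (a2 * Ψ + ρ * Real.exp a2) / δ - 2 * (a1 / (2 * δ) * σ) := by field_simp
  rw [h9, neg_div] at h7
  linarith only [h5, h7, h8]

/-- End B. -/
theorem expB {δ ρ Ψ N η : ℝ} (hδ : 0 < δ) (hρ : 0 < ρ) (h1 : 0 < η) :
    ∃ C : ℝ, ∀ ψ a σ : ℝ, |ψ| ≤ Ψ → a ≤ -η → σ + ψ ≤ -η →
      η / (4 * δ) * (|a| + |σ|) + N * max a 0 -
        (a * (σ + ψ) - ρ * Real.exp a * Real.sin σ) / δ ≤
        C - η / (4 * δ) * (-a - (σ + ψ)) := by
  refine ⟨η / (4 * δ) * Ψ + ρ / δ, fun ψ a σ hψ h3 h4 => ?_⟩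
  have ha : a ≤ 0 := by linarith only [h1, h3]
  rw [abs_of_nonpos ha, max_eq_right ha]
  have hσ : |σ| ≤ -(σ + ψ) + Ψ := by
    have h5 := abs_le.1 hψ
    rw [abs_le]
    constructor <;> linarith
  have h5 : η / 2 * (-a - (σ + ψ)) ≤ a * (σ + ψ) := by
    nlinarith only [h1, h3, h4]
  have h6 : Real.exp a * Real.sin σ ≤ 1 := by
    have := Real.sin_le_one σ
    have h8 : Real.exp a ≤ 1 := Real.exp_le_one_iff.2 ha
    nlinarith only [this, h8, Real.exp_pos a]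
  have h7 : -(a * (σ + ψ) - ρ * Real.exp a * Real.sin σ) ≤
      ρ - η / 2 * (-a - (σ + ψ)) := by nlinarith only [hρ, h5, h6]
  have h8 := div_le_div_of_nonneg_right h7 hδ.le
  have h9 : (ρ - η / 2 * (-a - (σ + ψ))) / δ = ρ / δ - 2 * (η / (4 * δ) * (-a - (σ + ψ))) := by
    field_simp
    ring
  rw [h9, neg_div] at h8
  have h10 : η / (4 * δ) * |σ| ≤ η / (4 * δ) * (-(σ + ψ) + Ψ) :=
    mul_le_mul_of_nonneg_left hσ (by positivity)
  have h11 : η / (4 * δ) * (-a + |σ|) ≤ η / (4 * δ) * (-a - (σ + ψ)) + η / (4 * δ) * Ψ := by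
    linarith only [h10]
  linarith only [h8, h11]

end SokamFW

end

/-! ### Lib_MP_af4de1_fu.Ends -/

section
/-!
# Admissible integrands, the three end integrals, `L` and `R`

`Adm`: entire, `|k| ≤ K exp(η(|a|+|σ|) + N a⁺ - hf/δ)` for every `η > 0` (so `kk` times `g^j`, `e^g`).
`IV k g = ∫_{x>0} k(g+x)` (`-π < Im g < 0`), `IT k g = i∫_{y>0} k(g+iy)` (`Re g > 0`),
`IB k g d = d ∫_{t>0} k(g - t d)`.
-/

namespace SokamFW

open Complex MeasureTheory Filter Topology Set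

/-- Admissible integrands. -/
structure Adm (δ ρ ψ : ℝ) (k : ℂ → ℂ) : Prop where
  diff : Differentiable ℂ k
  bd : ∃ N : ℝ, 0 ≤ N ∧ ∀ η : ℝ, 0 < η → ∃ K : ℝ, 0 ≤ K ∧ ∀ g : ℂ,
    ‖k g‖ ≤ K * Real.exp (η * (|g.re| + |g.im|) + N * max g.re 0 - hf ρ ψ g / δ)

noncomputable def IV (k : ℂ → ℂ) (g : ℂ) : ℂ := ∫ t in Ioi (0 : ℝ), k (g + t * 1)

noncomputable def IT (k : ℂ → ℂ) (g : ℂ) : ℂ := I * ∫ t in Ioi (0 : ℝ), k (g + t * I)

noncomputable def IB (k : ℂ → ℂ) (g d : ℂ) : ℂ := d * ∫ t in Ioi (0 : ℝ), k (g + t * (-d))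

/-- The left piece: from `-i∞` (`Re < 0`) to the valley. -/
noncomputable def Lw (k : ℂ → ℂ) : ℂ := IB k (-1 - Real.pi / 2 * I) I + IV k (-1 - Real.pi / 2 * I)

/-- The right piece: from the valley to `+i∞` (`Re > 0`). -/
noncomputable def Rw (k : ℂ → ℂ) : ℂ := IT k (1 - Real.pi / 2 * I) - IV k (1 - Real.pi / 2 * I)

/-- Directions along which the end B is reached. -/
def BDir (ψ : ℝ) (g d : ℂ) : Prop :=
  0 ≤ d.re ∧ 0 ≤ d.im ∧ d ≠ 0 ∧ (0 < d.re ∨ g.re < 0) ∧ (0 < d.im ∨ g.im + ψ < 0)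

variable {δ ρ ψ : ℝ} {k P : ℂ → ℂ}

theorem Adm.cont (h : Adm δ ρ ψ k) : Continuous k := h.diff.continuous

theorem Adm.prim (h : Adm δ ρ ψ k) : ∃ P : ℂ → ℂ, ∀ z, HasDerivAt P (k z) z := by
  obtain ⟨P, hP'⟩ := h.diff.isExactOn_univ
  exact ⟨P, fun z => hP' z (Set.mem_univ z)⟩

/-- Bound in the end V. -/
theorem Adm.bV (hδ : 0 < δ) (hρ : 0 < ρ) (h : Adm δ ρ ψ k) {σ1 σ2 : ℝ} (h1 : -Real.pi < σ1)
    (h2 : σ2 < 0) : ∃ C : ℝ, 0 ≤ C ∧ ∀ g : ℂ, 0 ≤ g.re → σ1 ≤ g.im → g.im ≤ σ2 →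
      ‖k g‖ ≤ C * Real.exp (-g.re) := by
  obtain ⟨N, hN, h3⟩ := h.bd
  obtain ⟨K, hK, h4⟩ := h3 1 one_pos
  obtain ⟨C, hC⟩ := expV (Ψ := |ψ|) (N := N) hδ hρ h1 h2
  refine ⟨K * Real.exp C, by (clear * - hK; positivity), fun g h5 h6 h7 => (h4 g).trans ?_⟩
  rw [mul_assoc, ← Real.exp_add]
  refine mul_le_mul_of_nonneg_left (Real.exp_le_exp.2 ?_) hK
  have := hC ψ g.re g.im le_rfl h5 h6 h7
  unfold hf
  linarith only [this]

/-- Bound in the end T. -/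
theorem Adm.bT (hδ : 0 < δ) (hρ : 0 < ρ) (h : Adm δ ρ ψ k) {a1 : ℝ} (a2 : ℝ) (h1 : 0 < a1) :
    ∃ C c : ℝ, 0 ≤ C ∧ 0 < c ∧ ∀ g : ℂ, a1 ≤ g.re → g.re ≤ a2 → 0 ≤ g.im →
      ‖k g‖ ≤ C * Real.exp (-(c * g.im)) := by
  obtain ⟨N, hN, h3⟩ := h.bd
  obtain ⟨K, hK, h4⟩ := h3 (a1 / (2 * δ)) (by positivity)
  obtain ⟨C, hC⟩ := expT (Ψ := |ψ|) (N := N) (a2 := a2) hδ hρ h1 hN
  refine ⟨K * Real.exp C, a1 / (2 * δ), by (clear * - hK; positivity), by (clear * - h1 hδ; positivity),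
    fun g h5 h6 h7 => (h4 g).trans ?_⟩
  rw [mul_assoc, ← Real.exp_add]
  refine mul_le_mul_of_nonneg_left (Real.exp_le_exp.2 ?_) hK
  have := hC ψ g.re g.im le_rfl h5 h6 h7
  unfold hf
  linarith only [this]

/-- Bound in the end B. -/
theorem Adm.bB (hδ : 0 < δ) (hρ : 0 < ρ) (h : Adm δ ρ ψ k) {η : ℝ} (h1 : 0 < η) :
    ∃ C c : ℝ, 0 ≤ C ∧ 0 < c ∧ ∀ g : ℂ, g.re ≤ -η → g.im + ψ ≤ -η →
      ‖k g‖ ≤ C * Real.exp (-(c * (-g.re - (g.im + ψ)))) := by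
  obtain ⟨N, hN, h3⟩ := h.bd
  obtain ⟨K, hK, h4⟩ := h3 (η / (4 * δ)) (by positivity)
  obtain ⟨C, hC⟩ := expB (Ψ := |ψ|) (N := N) hδ hρ h1
  refine ⟨K * Real.exp C, η / (4 * δ), by (clear * - hK; positivity), by (clear * - h1 hδ; positivity),
    fun g h5 h6 => (h4 g).trans ?_⟩
  rw [mul_assoc, ← Real.exp_add]
  refine mul_le_mul_of_nonneg_left (Real.exp_le_exp.2 ?_) hK
  have := hC ψ g.re g.im le_rfl h5 h6
  unfold hf
  linarith only [this]

/-- Exponentially small continuous functions are integrable on a half line. -/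
theorem int_of_exp {f : ℝ → ℂ} (hf : Continuous f) {C c T0 : ℝ} (hc : 0 < c)
    (h : ∀ t : ℝ, T0 ≤ t → ‖f t‖ ≤ C * Real.exp (-(c * t))) : IntegrableOn f (Ioi 0) := by
  set T := max 0 T0 with hT
  have hT0 : 0 ≤ T := le_max_left _ _
  have h1 : IntegrableOn f (Ioc 0 T) :=
    (hf.continuousOn.integrableOn_compact isCompact_Icc).mono_set Ioc_subset_Icc_self
  have h2 : IntegrableOn f (Ioi T) := by
    have h3 : IntegrableOn (fun t : ℝ => C * Real.exp (-(c * t))) (Ioi T) := by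
      have h4 : IntegrableOn (fun t : ℝ => C * Real.exp (-c * t)) (Ioi T) :=
        (integrableOn_exp_mul_Ioi (neg_neg_of_pos hc) T).const_mul C
      simpa only [neg_mul] using h4
    refine Integrable.mono' h3 hf.aestronglyMeasurable ?_
    refine (ae_restrict_iff' measurableSet_Ioi).mpr (Filter.Eventually.of_forall fun t ht => ?_)
    exact h t ((le_max_right _ _).trans (le_of_lt ht))
  have h5 := h1.union h2
  rwa [Ioc_union_Ioi_eq_Ioi hT0] at h5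

theorem Adm.iV (hδ : 0 < δ) (hρ : 0 < ρ) (h : Adm δ ρ ψ k) {g : ℂ} (h1 : -Real.pi < g.im)
    (h2 : g.im < 0) : IntegrableOn (fun t : ℝ => k (g + t * 1)) (Ioi 0) := by
  obtain ⟨C, hC, hb⟩ := h.bV hδ hρ h1 h2
  have hk := h.cont
  refine int_of_exp (C := C * Real.exp (-g.re)) (c := 1) (T0 := -g.re) (by fun_prop) one_pos
    fun t ht => ?_
  have h3 := hb (g + t * 1) (by simp; linarith only [ht]) (by simp) (by simp)
  refine h3.trans (le_of_eq ?_)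
  rw [mul_assoc, ← Real.exp_add]
  congr 2
  simp
  ring

theorem Adm.iT (hδ : 0 < δ) (hρ : 0 < ρ) (h : Adm δ ρ ψ k) {g : ℂ} (h1 : 0 < g.re) :
    IntegrableOn (fun t : ℝ => k (g + t * I)) (Ioi 0) := by
  obtain ⟨C, c, hC, hc, hb⟩ := h.bT hδ hρ g.re h1
  have hk := h.cont
  refine int_of_exp (C := C * Real.exp (-(c * g.im))) (c := c) (T0 := -g.im) (by fun_prop) hc
    fun t ht => ?_
  have h3 := hb (g + t * I) (by simp) (by simp) (by simp; linarith only [ht])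
  refine h3.trans (le_of_eq ?_)
  rw [mul_assoc, ← Real.exp_add]
  congr 2
  simp
  ring

/-- Along an admissible direction one is finally deep in the end B. -/
theorem BDir.ev {g d : ℂ} (h : BDir ψ g d) : ∃ η T0 : ℝ, 0 < η ∧ ∀ t : ℝ, T0 ≤ t →
    (g + t * (-d)).re ≤ -η ∧ (g + t * (-d)).im + ψ ≤ -η := by
  obtain ⟨h1, h2, h3, h4, h5⟩ := h
  have hre : ∀ t : ℝ, (g + t * (-d)).re = g.re - t * d.re := fun t => by simp; ring
  have him : ∀ t : ℝ, (g + t * (-d)).im + ψ = g.im + ψ - t * d.im := fun t => by simp; ring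
  have key : ∀ x y : ℝ, 0 ≤ y → (0 < y ∨ x < 0) → ∃ η T0 : ℝ, 0 < η ∧ 0 ≤ T0 ∧ ∀ t : ℝ, T0 ≤ t →
      x - t * y ≤ -η := by
    intro x y hy hxy
    rcases hxy with hy | hx
    · refine ⟨1, max 0 ((x + 1) / y), one_pos, le_max_left _ _, fun t ht => ?_⟩
      have h6 : (x + 1) / y ≤ t := (le_max_right _ _).trans ht
      rw [div_le_iff₀ hy] at h6
      linarith only [h6]
    · exact ⟨-x, 0, by linarith only [hx], le_rfl, fun t ht => by nlinarith only [hy, ht]⟩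
  obtain ⟨η1, T1, a1, _, a3⟩ := key g.re d.re h1 h4
  obtain ⟨η2, T2, b1, _, b3⟩ := key (g.im + ψ) d.im h2 h5
  refine ⟨min η1 η2, max T1 T2, lt_min a1 b1, fun t ht => ⟨?_, ?_⟩⟩
  · rw [hre]
    have := a3 t ((le_max_left _ _).trans ht)
    linarith only [this, min_le_left η1 η2]
  · rw [him]
    have := b3 t ((le_max_right _ _).trans ht)
    linarith only [this, min_le_right η1 η2]

theorem BDir.pos {g d : ℂ} (h : BDir ψ g d) : 0 < d.re + d.im := by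
  obtain ⟨h1, h2, h3, -, -⟩ := h
  rcases h1.lt_or_eq with h4 | h4
  · linarith only [h2, h4]
  · rcases h2.lt_or_eq with h5 | h5
    · linarith only [h4, h5]
    · exact absurd (Complex.ext h4.symm h5.symm) h3

theorem Adm.iB (hδ : 0 < δ) (hρ : 0 < ρ) (h : Adm δ ρ ψ k) {g d : ℂ} (hd : BDir ψ g d) :
    IntegrableOn (fun t : ℝ => k (g + t * (-d))) (Ioi 0) := by
  obtain ⟨η, T0, hη, h1⟩ := hd.ev
  obtain ⟨C, c, hC, hc, hb⟩ := h.bB hδ hρ hη
  have hk := h.cont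
  have hp := hd.pos
  refine int_of_exp (C := C * Real.exp (-(c * (-g.re - (g.im + ψ))))) (c := c * (d.re + d.im))
    (T0 := T0) (by fun_prop) (by (clear * - hc hp; positivity)) fun t ht => ?_
  have h3 := hb (g + t * (-d)) (h1 t ht).1 (h1 t ht).2
  refine h3.trans (le_of_eq ?_)
  rw [mul_assoc, ← Real.exp_add]
  congr 2
  simp
  ring

theorem tendsto_exp_lin {C c m : ℝ} (hc : 0 < c) (A B : ℝ) :
    Tendsto (fun T : ℝ => C * Real.exp (-(c * T + m)) * (A + B * T)) atTop (𝓝 0) := by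
  have h1 : Tendsto (fun T : ℝ => Real.exp (-(c * T))) atTop (𝓝 0) :=
    Real.tendsto_exp_neg_atTop_nhds_zero.comp (tendsto_id.const_mul_atTop hc)
  have h2 : Tendsto (fun T : ℝ => T * Real.exp (-(c * T))) atTop (𝓝 0) := by
    have h3 := (Real.tendsto_pow_mul_exp_neg_atTop_nhds_zero 1).comp (tendsto_id.const_mul_atTop hc)
    have h4 := h3.const_mul (1 / c)
    rw [mul_zero] at h4
    refine h4.congr fun T => ?_
    simp only [Function.comp, id, pow_one]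
    field_simp
  have h3 := ((h1.const_mul A).add (h2.const_mul B)).const_mul (C * Real.exp (-m))
  rw [mul_zero, mul_zero, add_zero, mul_zero] at h3
  refine h3.congr fun T => ?_
  rw [neg_add, Real.exp_add]
  ring

/-- Common limit in the end V. -/
theorem Adm.cV (hδ : 0 < δ) (hρ : 0 < ρ) (h : Adm δ ρ ψ k) (hP : ∀ z, HasDerivAt P (k z) z)
    {g1 g2 : ℂ} (h1 : -Real.pi < g1.im) (h1' : g1.im < 0) (h2 : -Real.pi < g2.im)
    (h2' : g2.im < 0) : P g1 + IV k g1 = P g2 + IV k g2 := by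
  have t1 := ray_tendsto h.cont hP (h.iV hδ hρ h1 h1')
  have t2 := ray_tendsto h.cont hP (h.iV hδ hρ h2 h2')
  rw [one_mul] at t1 t2
  obtain ⟨C, hC, hb⟩ := h.bV hδ hρ (σ1 := min g1.im g2.im) (σ2 := max g1.im g2.im)
    (lt_min h1 h2) (max_lt h1' h2')
  have hz : Tendsto (fun T : ℝ => P (g1 + T * 1) - P (g2 + T * 1)) atTop (𝓝 0) := by
    set m := min g1.re g2.re with hm
    refine squeeze_zero_norm' ?_ (tendsto_exp_lin (C := C) (c := 1) (m := m) one_pos ‖g1 - g2‖ 0)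
    filter_upwards [eventually_ge_atTop (-m)] with T hT
    have hS : Convex ℝ ({z : ℂ | T + m ≤ z.re} ∩ {z : ℂ | min g1.im g2.im ≤ z.im} ∩
        {z : ℂ | z.im ≤ max g1.im g2.im}) :=
      ((convex_halfSpace_re_ge _).inter (convex_halfSpace_im_ge _)).inter
        (convex_halfSpace_im_le _)
    have h3 := seg_le (k := k) hP hS (a := g2 + T * 1) (b := g1 + T * 1)
      (B := C * Real.exp (-(T + m)))
      (by simp [hm]; linarith only [min_le_right g1.re g2.re])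
      (by simp [hm]; linarith only [min_le_left g1.re g2.re]) (fun z hz => by
        obtain ⟨⟨z1, z2⟩, z3⟩ := hz
        simp only [mem_ofPred_eq] at z1 z2 z3
        refine (hb z (by linarith only [hT, z1]) z2 z3).trans ?_
        refine mul_le_mul_of_nonneg_left (Real.exp_le_exp.2 ?_) hC
        linarith only [z1])
    refine h3.trans (le_of_eq ?_)
    rw [one_mul, zero_mul, add_zero]
    congr 2
    ring
  have h5 := t1.sub t2
  have h6 := tendsto_nhds_unique h5 hz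
  unfold IV
  exact sub_eq_zero.1 h6

/-- Common limit in the end T. -/
theorem Adm.cT (hδ : 0 < δ) (hρ : 0 < ρ) (h : Adm δ ρ ψ k) (hP : ∀ z, HasDerivAt P (k z) z)
    {g1 g2 : ℂ} (h1 : 0 < g1.re) (h2 : 0 < g2.re) : P g1 + IT k g1 = P g2 + IT k g2 := by
  have t1 := ray_tendsto h.cont hP (h.iT hδ hρ h1)
  have t2 := ray_tendsto h.cont hP (h.iT hδ hρ h2)
  obtain ⟨C, c, hC, hc, hb⟩ := h.bT hδ hρ (a1 := min g1.re g2.re) (max g1.re g2.re)
    (lt_min h1 h2)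
  have hz : Tendsto (fun T : ℝ => P (g1 + T * I) - P (g2 + T * I)) atTop (𝓝 0) := by
    set m := min g1.im g2.im with hm
    refine squeeze_zero_norm' ?_
      (tendsto_exp_lin (C := C) (c := c) (m := c * m) hc ‖g1 - g2‖ 0)
    filter_upwards [eventually_ge_atTop (-m)] with T hT
    have hS : Convex ℝ ({z : ℂ | T + m ≤ z.im} ∩ {z : ℂ | min g1.re g2.re ≤ z.re} ∩
        {z : ℂ | z.re ≤ max g1.re g2.re}) :=
      ((convex_halfSpace_im_ge _).inter (convex_halfSpace_re_ge _)).inter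
        (convex_halfSpace_re_le _)
    have h3 := seg_le (k := k) hP hS (a := g2 + T * I) (b := g1 + T * I)
      (B := C * Real.exp (-(c * (T + m)))) (by simp [hm]; linarith only [min_le_right g1.im g2.im])
      (by simp [hm]; linarith only [min_le_left g1.im g2.im]) (fun z hz => by
        obtain ⟨⟨z1, z2⟩, z3⟩ := hz
        simp only [mem_ofPred_eq] at z1 z2 z3
        refine (hb z z2 z3 (by linarith only [hT, z1])).trans ?_
        refine mul_le_mul_of_nonneg_left (Real.exp_le_exp.2 ?_) hC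
        nlinarith only [hc, z1])
    refine h3.trans (le_of_eq ?_)
    rw [zero_mul, add_zero]
    congr 2
    · ring_nf
    · ring
  have h5 := t1.sub t2
  have h6 := tendsto_nhds_unique h5 hz
  unfold IT
  exact sub_eq_zero.1 h6

/-- Common limit in the end B. -/
theorem Adm.cB (hδ : 0 < δ) (hρ : 0 < ρ) (h : Adm δ ρ ψ k) (hP : ∀ z, HasDerivAt P (k z) z)
    {g1 g2 d1 d2 : ℂ} (h1 : BDir ψ g1 d1) (h2 : BDir ψ g2 d2) :
    P g1 - IB k g1 d1 = P g2 - IB k g2 d2 := by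
  have t1 := ray_tendsto h.cont hP (h.iB hδ hρ h1)
  have t2 := ray_tendsto h.cont hP (h.iB hδ hρ h2)
  obtain ⟨η1, T1, e1, f1⟩ := h1.ev
  obtain ⟨η2, T2, e2, f2⟩ := h2.ev
  set η := min η1 η2 with hη
  have hη0 : 0 < η := lt_min e1 e2
  obtain ⟨C, c, hC, hc, hb⟩ := h.bB hδ hρ hη0
  set p := min (d1.re + d1.im) (d2.re + d2.im) with hp
  have hp0 : 0 < p := lt_min h1.pos h2.pos
  have hz : Tendsto (fun T : ℝ => P (g1 + T * (-d1)) - P (g2 + T * (-d2))) atTop (𝓝 0) := by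
    set m := min (-g1.re - (g1.im + ψ)) (-g2.re - (g2.im + ψ)) with hm
    refine squeeze_zero_norm' ?_
      (tendsto_exp_lin (C := C) (c := c * p) (m := c * m) (by (clear * - hc hp0; positivity)) ‖g1 - g2‖ ‖d1 - d2‖)
    filter_upwards [eventually_ge_atTop (max 0 (max T1 T2))] with T hT
    have hT0 : 0 ≤ T := (le_max_left _ _).trans hT
    have hT1 : T1 ≤ T := ((le_max_left _ _).trans (le_max_right _ _)).trans hT
    have hT2 : T2 ≤ T := ((le_max_right _ _).trans (le_max_right _ _)).trans hT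
    have hS : Convex ℝ ({z : ℂ | z.re ≤ -η} ∩ {z : ℂ | z.im ≤ -η - ψ} ∩
        {z : ℂ | T * p + m + ψ ≤ -z.re - z.im}) := by
      refine ((convex_halfSpace_re_le _).inter (convex_halfSpace_im_le _)).inter ?_
      exact convex_halfSpace_ge (f := fun z : ℂ => -z.re - z.im)
        ⟨fun x y => by simp; ring, fun c x => by simp; ring⟩ _
    have k1 : T * p ≤ T * (d1.re + d1.im) := mul_le_mul_of_nonneg_left (min_le_left _ _) hT0
    have k2 : T * p ≤ T * (d2.re + d2.im) := mul_le_mul_of_nonneg_left (min_le_right _ _) hT0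
    have m1 : m ≤ -g1.re - (g1.im + ψ) := min_le_left _ _
    have m2 : m ≤ -g2.re - (g2.im + ψ) := min_le_right _ _
    have n1 : η ≤ η1 := min_le_left _ _
    have n2 : η ≤ η2 := min_le_right _ _
    have r1 : (g1 + T * (-d1)).re = g1.re - T * d1.re := by simp; ring
    have i1 : (g1 + T * (-d1)).im = g1.im - T * d1.im := by simp; ring
    have r2 : (g2 + T * (-d2)).re = g2.re - T * d2.re := by simp; ring
    have i2 : (g2 + T * (-d2)).im = g2.im - T * d2.im := by simp; ring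
    have h3 := seg_le (k := k) hP hS (a := g2 + T * (-d2)) (b := g1 + T * (-d1))
      (B := C * Real.exp (-(c * (T * p + m))))
      ⟨⟨by have := (f2 T hT2).1; simp only [mem_ofPred_eq]; linarith only [n2, this],
        by have := (f2 T hT2).2; simp only [mem_ofPred_eq]; linarith only [n2, this]⟩,
        by simp only [mem_ofPred_eq]; rw [r2, i2]; linarith only [k2, m2]⟩
      ⟨⟨by have := (f1 T hT1).1; simp only [mem_ofPred_eq]; linarith only [n1, this],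
        by have := (f1 T hT1).2; simp only [mem_ofPred_eq]; linarith only [n1, this]⟩,
        by simp only [mem_ofPred_eq]; rw [r1, i1]; linarith only [k1, m1]⟩ (fun z hz => by
        obtain ⟨⟨z1, z2⟩, z3⟩ := hz
        simp only [mem_ofPred_eq] at z1 z2 z3
        refine (hb z z1 (by linarith only [z2])).trans ?_
        refine mul_le_mul_of_nonneg_left (Real.exp_le_exp.2 ?_) hC
        nlinarith only [hc, z3])
    have h4 : ‖(g1 + T * (-d1)) - (g2 + T * (-d2))‖ ≤ ‖g1 - g2‖ + ‖d1 - d2‖ * T := by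
      have e : (g1 + T * (-d1)) - (g2 + T * (-d2)) = (g1 - g2) - (T : ℂ) * (d1 - d2) := by ring
      rw [e]
      refine (norm_sub_le _ _).trans (le_of_eq ?_)
      rw [norm_mul, Complex.norm_real, Real.norm_of_nonneg hT0]
      ring
    refine h3.trans ((mul_le_mul_of_nonneg_left h4 (by (clear * - hC; positivity))).trans (le_of_eq ?_))
    congr 3
    ring
  have h5 := t1.sub t2
  have h6 := tendsto_nhds_unique h5 hz
  unfold IB
  have h7 := sub_eq_zero.1 h6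
  linear_combination h7

end SokamFW

end

/-! ### Lib_MP_af4de1_fu.Wave -/

section
/-!
# `L` and `R` on arbitrary contours, linearity, integration by parts
-/

namespace SokamFW

open Complex MeasureTheory Filter Topology Set

variable {δ ρ ψ : ℝ} {k k1 k2 P : ℂ → ℂ}

theorem gL_re : (-1 - Real.pi / 2 * I : ℂ).re = -1 := by simp
theorem gL_im : (-1 - Real.pi / 2 * I : ℂ).im = -(Real.pi / 2) := by simp
theorem gR_re : (1 - Real.pi / 2 * I : ℂ).re = 1 := by simp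
theorem gR_im : (1 - Real.pi / 2 * I : ℂ).im = -(Real.pi / 2) := by simp

theorem BDir_gL (ψ : ℝ) : BDir ψ (-1 - Real.pi / 2 * I) I :=
  ⟨by simp, by simp, I_ne_zero, Or.inr (by rw [gL_re]; norm_num), Or.inl (by simp)⟩

/-- `L` on a general contour: from the end B along `d` to `g0`, to `g1`, to the right. -/
theorem Adm.Lw_eq (hδ : 0 < δ) (hρ : 0 < ρ) (h : Adm δ ρ ψ k) (hP : ∀ z, HasDerivAt P (k z) z)
    {g0 g1 d : ℂ} (hd : BDir ψ g0 d) (h1 : -Real.pi < g1.im) (h2 : g1.im < 0) :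
    Lw k = IB k g0 d + (P g1 - P g0) + IV k g1 := by
  have e1 := h.cB hδ hρ hP (BDir_gL ψ) hd
  have e2 := h.cV hδ hρ hP (g1 := -1 - Real.pi / 2 * I) (g2 := g1)
    (by rw [gL_im]; linarith only [Real.pi_pos]) (by rw [gL_im]; linarith only [Real.pi_pos]) h1 h2
  unfold Lw
  linear_combination e2 - e1

/-- `R` on a general contour. -/
theorem Adm.Rw_eq (hδ : 0 < δ) (hρ : 0 < ρ) (h : Adm δ ρ ψ k) (hP : ∀ z, HasDerivAt P (k z) z)
    {g0 g1 : ℂ} (h0 : 0 < g0.re) (h1 : -Real.pi < g1.im) (h2 : g1.im < 0) :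
    Rw k = IT k g0 + (P g0 - P g1) - IV k g1 := by
  have e1 := h.cT hδ hρ hP (g1 := 1 - Real.pi / 2 * I) (g2 := g0) (by rw [gR_re]; norm_num) h0
  have e2 := h.cV hδ hρ hP (g1 := 1 - Real.pi / 2 * I) (g2 := g1)
    (by rw [gR_im]; linarith only [Real.pi_pos]) (by rw [gR_im]; linarith only [Real.pi_pos]) h1 h2
  unfold Rw
  linear_combination e1 - e2

/-- `L`: incoming direction `d1`, a straight piece of length `T` in the direction `d2`, then to the right. -/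
theorem Adm.Lw_path (hδ : 0 < δ) (hρ : 0 < ρ) (h : Adm δ ρ ψ k) {g0 d1 d2 : ℂ} {T : ℝ}
    (hd : BDir ψ g0 d1) (h1 : -Real.pi < (g0 + T * d2).im) (h2 : (g0 + T * d2).im < 0) :
    Lw k = IB k g0 d1 + d2 * (∫ t in (0 : ℝ)..T, k (g0 + t * d2)) + IV k (g0 + T * d2) := by
  obtain ⟨P, hP⟩ := h.prim
  rw [h.Lw_eq hδ hρ hP hd h1 h2, seg_int h.cont hP]
  simp

/-- `R`: from the right to `g1 = g0 - T d2`, the straight piece to `g0`, then up. -/
theorem Adm.Rw_path (hδ : 0 < δ) (hρ : 0 < ρ) (h : Adm δ ρ ψ k) {g0 d2 : ℂ} {T : ℝ}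
    (h0 : 0 < g0.re) (h1 : -Real.pi < (g0 - T * d2).im) (h2 : (g0 - T * d2).im < 0) :
    Rw k = IT k g0 + d2 * (∫ t in (-T)..0, k (g0 + t * d2)) - IV k (g0 - T * d2) := by
  obtain ⟨P, hP⟩ := h.prim
  rw [h.Rw_eq hδ hρ hP h0 h1 h2, seg_int h.cont hP]
  simp [sub_eq_add_neg]

/-! ### Closure properties -/

theorem Adm.kk (δ ρ ψ : ℝ) : Adm δ ρ ψ (SokamFU.kk ρ δ ψ) where
  diff := kk_diff δ ρ ψ
  bd := by
    refine ⟨0, le_rfl, fun η hη => ⟨1, zero_le_one, fun g => ?_⟩⟩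
    rw [norm_kk, one_mul, zero_mul, add_zero, Real.exp_le_exp, neg_div]
    have : 0 ≤ η * (|g.re| + |g.im|) := by positivity
    linarith only [this]

theorem Adm.add (h1 : Adm δ ρ ψ k1) (h2 : Adm δ ρ ψ k2) : Adm δ ρ ψ (fun g => k1 g + k2 g) where
  diff := h1.diff.add h2.diff
  bd := by
    obtain ⟨N1, n1, b1⟩ := h1.bd
    obtain ⟨N2, n2, b2⟩ := h2.bd
    refine ⟨max N1 N2, n1.trans (le_max_left _ _), fun η hη => ?_⟩
    obtain ⟨K1, c1, d1⟩ := b1 η hη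
    obtain ⟨K2, c2, d2⟩ := b2 η hη
    refine ⟨K1 + K2, by positivity, fun g => ?_⟩
    have hm : 0 ≤ max g.re 0 := le_max_right _ _
    have e1 := (d1 g).trans (mul_le_mul_of_nonneg_left (Real.exp_le_exp.2
      (show η * (|g.re| + |g.im|) + N1 * max g.re 0 - hf ρ ψ g / δ ≤
        η * (|g.re| + |g.im|) + max N1 N2 * max g.re 0 - hf ρ ψ g / δ by
        have := mul_le_mul_of_nonneg_right (le_max_left N1 N2) hm
        linarith only [this])) c1)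
    have e2 := (d2 g).trans (mul_le_mul_of_nonneg_left (Real.exp_le_exp.2
      (show η * (|g.re| + |g.im|) + N2 * max g.re 0 - hf ρ ψ g / δ ≤
        η * (|g.re| + |g.im|) + max N1 N2 * max g.re 0 - hf ρ ψ g / δ by
        have := mul_le_mul_of_nonneg_right (le_max_right N1 N2) hm
        linarith only [this])) c2)
    refine (norm_add_le _ _).trans ?_
    rw [add_mul]
    exact add_le_add e1 e2

theorem Adm.const_mul (h : Adm δ ρ ψ k) (c : ℂ) : Adm δ ρ ψ (fun g => c * k g) where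
  diff := h.diff.const_mul c
  bd := by
    obtain ⟨N, n, b⟩ := h.bd
    refine ⟨N, n, fun η hη => ?_⟩
    obtain ⟨K, c1, d⟩ := b η hη
    refine ⟨‖c‖ * K, by positivity, fun g => ?_⟩
    rw [norm_mul, mul_assoc]
    exact mul_le_mul_of_nonneg_left (d g) (norm_nonneg c)

theorem Adm.id_mul (h : Adm δ ρ ψ k) : Adm δ ρ ψ (fun g => g * k g) where
  diff := differentiable_id.mul h.diff
  bd := by
    obtain ⟨N, n, b⟩ := h.bd
    refine ⟨N, n, fun η hη => ?_⟩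
    obtain ⟨K, c1, d⟩ := b (η / 2) (by positivity)
    refine ⟨2 / η * K, by positivity, fun g => ?_⟩
    set x := |g.re| + |g.im| with hx
    have h1 : ‖g‖ ≤ x := Complex.norm_le_abs_re_add_abs_im g
    have h2 : x ≤ 2 / η * Real.exp (η / 2 * x) := by
      have h3 : η / 2 * x ≤ Real.exp (η / 2 * x) := by
        linarith only [Real.add_one_le_exp (η / 2 * x)]
      rw [div_mul_eq_mul_div, le_div_iff₀ hη]
      linarith only [h3]
    rw [norm_mul]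
    refine (mul_le_mul (h1.trans h2) (d g) (norm_nonneg _) (by positivity)).trans (le_of_eq ?_)
    have h4 : η * x + N * max g.re 0 - hf ρ ψ g / δ =
      η / 2 * x + (η / 2 * x + N * max g.re 0 - hf ρ ψ g / δ) := by ring
    rw [h4, Real.exp_add (η / 2 * x)]
    ring

theorem Adm.exp_mul (h : Adm δ ρ ψ k) : Adm δ ρ ψ (fun g => cexp g * k g) where
  diff := Complex.differentiable_exp.mul h.diff
  bd := by
    obtain ⟨N, n, b⟩ := h.bd
    refine ⟨N + 1, by positivity, fun η hη => ?_⟩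
    obtain ⟨K, c1, d⟩ := b η hη
    refine ⟨K, c1, fun g => ?_⟩
    rw [norm_mul, Complex.norm_exp]
    have h1 : Real.exp g.re ≤ Real.exp (max g.re 0) := Real.exp_le_exp.2 (le_max_left _ _)
    refine (mul_le_mul h1 (d g) (norm_nonneg _) (Real.exp_pos _).le).trans (le_of_eq ?_)
    have h4 : η * (|g.re| + |g.im|) + (N + 1) * max g.re 0 - hf ρ ψ g / δ = max g.re 0 +
      (η * (|g.re| + |g.im|) + N * max g.re 0 - hf ρ ψ g / δ) := by ring
    rw [h4, Real.exp_add (max g.re 0)]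
    ring

/-! ### Linearity -/

theorem Lw_add (hδ : 0 < δ) (hρ : 0 < ρ) (h1 : Adm δ ρ ψ k1) (h2 : Adm δ ρ ψ k2) :
    Lw (fun g => k1 g + k2 g) = Lw k1 + Lw k2 := by
  have a1 := h1.iB hδ hρ (BDir_gL ψ)
  have a2 := h2.iB hδ hρ (BDir_gL ψ)
  have b1 := h1.iV hδ hρ (g := -1 - Real.pi / 2 * I)
    (by rw [gL_im]; linarith only [Real.pi_pos]) (by rw [gL_im]; linarith only [Real.pi_pos])
  have b2 := h2.iV hδ hρ (g := -1 - Real.pi / 2 * I)
    (by rw [gL_im]; linarith only [Real.pi_pos]) (by rw [gL_im]; linarith only [Real.pi_pos])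
  unfold Lw IB IV
  rw [integral_add a1 a2, integral_add b1 b2]
  ring

theorem Rw_add (hδ : 0 < δ) (hρ : 0 < ρ) (h1 : Adm δ ρ ψ k1) (h2 : Adm δ ρ ψ k2) :
    Rw (fun g => k1 g + k2 g) = Rw k1 + Rw k2 := by
  have a1 := h1.iT hδ hρ (g := 1 - Real.pi / 2 * I) (by rw [gR_re]; norm_num)
  have a2 := h2.iT hδ hρ (g := 1 - Real.pi / 2 * I) (by rw [gR_re]; norm_num)
  have b1 := h1.iV hδ hρ (g := 1 - Real.pi / 2 * I)
    (by rw [gR_im]; linarith only [Real.pi_pos]) (by rw [gR_im]; linarith only [Real.pi_pos])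
  have b2 := h2.iV hδ hρ (g := 1 - Real.pi / 2 * I)
    (by rw [gR_im]; linarith only [Real.pi_pos]) (by rw [gR_im]; linarith only [Real.pi_pos])
  unfold Rw IT IV
  rw [integral_add a1 a2, integral_add b1 b2]
  ring

theorem Lw_const_mul (k : ℂ → ℂ) (c : ℂ) : Lw (fun g => c * k g) = c * Lw k := by
  unfold Lw IB IV
  rw [integral_const_mul, integral_const_mul]
  ring

theorem Rw_const_mul (k : ℂ → ℂ) (c : ℂ) : Rw (fun g => c * k g) = c * Rw k := by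
  unfold Rw IT IV
  rw [integral_const_mul, integral_const_mul]
  ring

/-! ### Vanishing of the kernel at the ends, integration by parts -/

theorem tendsto_zero_of_int {k : ℂ → ℂ} {a b : ℂ} {C c T0 : ℝ} (hc : 0 < c)
    (h : ∀ t : ℝ, T0 ≤ t → ‖k (a + t * b)‖ ≤ C * Real.exp (-(c * t))) :
    Tendsto (fun t : ℝ => k (a + t * b)) atTop (𝓝 0) := by
  have h1 := tendsto_exp_lin (C := C) (m := 0) hc 1 0
  refine squeeze_zero_norm' ?_ h1
  filter_upwards [eventually_ge_atTop T0] with t ht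
  refine (h t ht).trans (le_of_eq ?_)
  rw [add_zero, zero_mul, add_zero, mul_one]

theorem Adm.zV (hδ : 0 < δ) (hρ : 0 < ρ) (h : Adm δ ρ ψ k) {g : ℂ} (h1 : -Real.pi < g.im)
    (h2 : g.im < 0) : Tendsto (fun t : ℝ => k (g + t * 1)) atTop (𝓝 0) := by
  obtain ⟨C, hC, hb⟩ := h.bV hδ hρ h1 h2
  refine tendsto_zero_of_int (k := k) (C := C * Real.exp (-g.re)) (c := 1) (T0 := -g.re) one_pos
    fun t ht => ?_
  have h3 := hb (g + t * 1) (by simp; linarith only [ht]) (by simp) (by simp)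
  refine h3.trans (le_of_eq ?_)
  rw [mul_assoc, ← Real.exp_add]
  congr 2
  simp
  ring

theorem Adm.zT (hδ : 0 < δ) (hρ : 0 < ρ) (h : Adm δ ρ ψ k) {g : ℂ} (h1 : 0 < g.re) :
    Tendsto (fun t : ℝ => k (g + t * I)) atTop (𝓝 0) := by
  obtain ⟨C, c, hC, hc, hb⟩ := h.bT hδ hρ g.re h1
  refine tendsto_zero_of_int (k := k) (C := C * Real.exp (-(c * g.im))) (c := c) (T0 := -g.im) hc
    fun t ht => ?_
  have h3 := hb (g + t * I) (by simp) (by simp) (by simp; linarith only [ht])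
  refine h3.trans (le_of_eq ?_)
  rw [mul_assoc, ← Real.exp_add]
  congr 2
  simp
  ring

theorem Adm.zB (hδ : 0 < δ) (hρ : 0 < ρ) (h : Adm δ ρ ψ k) {g d : ℂ} (hd : BDir ψ g d) :
    Tendsto (fun t : ℝ => k (g + t * (-d))) atTop (𝓝 0) := by
  obtain ⟨η, T0, hη, h1⟩ := hd.ev
  obtain ⟨C, c, hC, hc, hb⟩ := h.bB hδ hρ hη
  have hp := hd.pos
  refine tendsto_zero_of_int (k := k) (C := C * Real.exp (-(c * (-g.re - (g.im + ψ)))))
    (c := c * (d.re + d.im)) (T0 := T0) (by positivity) fun t ht => ?_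
  have h3 := hb (g + t * (-d)) (h1 t ht).1 (h1 t ht).2
  refine h3.trans (le_of_eq ?_)
  rw [mul_assoc, ← Real.exp_add]
  congr 2
  simp
  ring

/-- The integral of a derivative over the left piece vanishes. -/
theorem Lw_deriv (hδ : 0 < δ) (hρ : 0 < ρ) (h1 : Adm δ ρ ψ k1) (h : Adm δ ρ ψ k)
    (hP : ∀ z, HasDerivAt k (k1 z) z) : Lw k1 = 0 := by
  have t1 := ray_tendsto h1.cont hP (h1.iB hδ hρ (BDir_gL ψ))
  have t2 := h.zB hδ hρ (BDir_gL ψ)
  have e1 := tendsto_nhds_unique t1 t2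
  have hi := h1.iV hδ hρ (g := -1 - Real.pi / 2 * I)
    (by rw [gL_im]; linarith only [Real.pi_pos]) (by rw [gL_im]; linarith only [Real.pi_pos])
  have t3 := ray_tendsto h1.cont hP hi
  have t4 := h.zV hδ hρ (g := -1 - Real.pi / 2 * I)
    (by rw [gL_im]; linarith only [Real.pi_pos]) (by rw [gL_im]; linarith only [Real.pi_pos])
  have e2 := tendsto_nhds_unique t3 t4
  unfold Lw IB IV
  linear_combination e2 - e1

theorem Rw_deriv (hδ : 0 < δ) (hρ : 0 < ρ) (h1 : Adm δ ρ ψ k1) (h : Adm δ ρ ψ k)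
    (hP : ∀ z, HasDerivAt k (k1 z) z) : Rw k1 = 0 := by
  have hi := h1.iT hδ hρ (g := 1 - Real.pi / 2 * I) (by rw [gR_re]; norm_num)
  have t1 := ray_tendsto h1.cont hP hi
  have t2 := h.zT hδ hρ (g := 1 - Real.pi / 2 * I) (by rw [gR_re]; norm_num)
  have e1 := tendsto_nhds_unique t1 t2
  have hi' := h1.iV hδ hρ (g := 1 - Real.pi / 2 * I)
    (by rw [gR_im]; linarith only [Real.pi_pos]) (by rw [gR_im]; linarith only [Real.pi_pos])
  have t3 := ray_tendsto h1.cont hP hi'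
  have t4 := h.zV hδ hρ (g := 1 - Real.pi / 2 * I)
    (by rw [gR_im]; linarith only [Real.pi_pos]) (by rw [gR_im]; linarith only [Real.pi_pos])
  have e2 := tendsto_nhds_unique t3 t4
  unfold Rw IT IV
  linear_combination e1 - e2

end SokamFW

end

/-! ### Lib_MP_af4de1_fu.AdmK -/

section
/-!
# `g^j k(g)` is admissible; rays as end integrals
-/

set_option autoImplicit false

namespace SokamFW

open Complex MeasureTheory Set

/-- `g^j k(g)` is admissible. -/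
theorem Adm_kj (ρ δ ψ : ℝ) (j : ℕ) : Adm δ ρ ψ (SokamFU.kj ρ δ ψ j) := by
  induction j with
  | zero =>
    have h : SokamFU.kj ρ δ ψ 0 = SokamFU.kk ρ δ ψ := by
      funext g
      unfold SokamFU.kj
      rw [pow_zero, one_mul]
    rw [h]
    exact Adm.kk δ ρ ψ
  | succ n ih =>
    have h : SokamFU.kj ρ δ ψ (n + 1) = fun g => g * SokamFU.kj ρ δ ψ n g := by
      funext g
      unfold SokamFU.kj
      rw [pow_succ]
      ring
    rw [h]
    exact ih.id_mul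

theorem ray_IV (k : ℂ → ℂ) (p : ℂ) : SokamFU.ray k p 1 = IV k p := by
  unfold SokamFU.ray IV
  rw [mul_one]

theorem ray_IT (k : ℂ → ℂ) (p : ℂ) : SokamFU.ray k p I = IT k p := by
  unfold SokamFU.ray IT
  rw [mul_comm]

theorem ray_IB (k : ℂ → ℂ) (p d : ℂ) : SokamFU.ray k p (-d) = -IB k p d := by
  unfold SokamFU.ray IB
  ring

theorem BDir_slope {ψ m : ℝ} (hm : 0 < m) (p : ℂ) : BDir ψ p (1 + m * I) := by
  have h1 : (1 + m * I : ℂ).re = 1 := by simp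
  have h2 : (1 + m * I : ℂ).im = m := by simp
  refine ⟨by rw [h1]; norm_num, by rw [h2]; exact hm.le, fun h => ?_, Or.inl (by rw [h1]; norm_num),
    Or.inl (by rw [h2]; exact hm)⟩
  rw [h] at h1
  simp at h1

theorem BDir_vert {ψ : ℝ} {p : ℂ} (hp : p.re < 0) : BDir ψ p I :=
  ⟨by simp, by simp, I_ne_zero, Or.inr hp, Or.inl (by simp)⟩

end SokamFW

end

/-! ### Lib_MP_af4de1_fu.MShift -/

section
/-!
# The contours can be moved [FU-M3]

`end_*`: `ray_end` with the bound of `‖kj‖` on the segment between the points at the parameter `T` (use `norm_kk`; heights: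
up `≥ min(Re p, Re p') T - C`; right: `≥ c e^T - C (1 + T)`, `c = ρ min |sin|` on the segment `[Im p, Im p'] ⊂ (-π,0)`; down, slopes `m, m'`: at a
point `a = a₁ - T`, `σ ∈ σ₁ - [m,m'] T`: height `≥ min(m,m') T²/2 - C`; vertical/sloped: `a ≤ -c < 0`, `σ ≤ C - min(1,m) T`: height `≥ c' T - C`).
-/

set_option autoImplicit false

namespace SokamFU

open Complex MeasureTheory Set

theorem end_up {ρ δ : ℝ} (hρ : 0 < ρ) (hδ : 0 < δ) (ψ : ℝ) (j : ℕ) {P : ℂ → ℂ}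
    (hP : ∀ z, HasDerivAt P (kj ρ δ ψ j z) z) {p p' : ℂ} (hp : 0 < p.re) (hp' : 0 < p'.re) :
    P p + ray (kj ρ δ ψ j) p I = P p' + ray (kj ρ δ ψ j) p' I := by
  rw [SokamFW.ray_IT, SokamFW.ray_IT]
  exact (SokamFW.Adm_kj ρ δ ψ j).cT hδ hρ hP hp hp'

theorem end_right {ρ δ : ℝ} (hρ : 0 < ρ) (hδ : 0 < δ) (ψ : ℝ) (j : ℕ) {P : ℂ → ℂ}
    (hP : ∀ z, HasDerivAt P (kj ρ δ ψ j z) z) {p p' : ℂ} (h1 : -Real.pi < p.im) (h2 : p.im < 0)
    (h1' : -Real.pi < p'.im) (h2' : p'.im < 0) :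
    P p + ray (kj ρ δ ψ j) p 1 = P p' + ray (kj ρ δ ψ j) p' 1 := by
  rw [SokamFW.ray_IV, SokamFW.ray_IV]
  exact (SokamFW.Adm_kj ρ δ ψ j).cV hδ hρ hP h1 h2 h1' h2'

theorem end_down {ρ δ : ℝ} (hρ : 0 < ρ) (hδ : 0 < δ) (ψ : ℝ) (j : ℕ) {P : ℂ → ℂ}
    (hP : ∀ z, HasDerivAt P (kj ρ δ ψ j z) z) (p p' : ℂ) {m m' : ℝ} (hm : 0 < m) (hm' : 0 < m') :
    P p + ray (kj ρ δ ψ j) p (-(1 + m * I)) = P p' + ray (kj ρ δ ψ j) p' (-(1 + m' * I)) := by
  rw [SokamFW.ray_IB, SokamFW.ray_IB, ← sub_eq_add_neg, ← sub_eq_add_neg]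
  exact (SokamFW.Adm_kj ρ δ ψ j).cB hδ hρ hP (SokamFW.BDir_slope hm p) (SokamFW.BDir_slope hm' p')

theorem end_vert {ρ δ : ℝ} (hρ : 0 < ρ) (hδ : 0 < δ) (ψ : ℝ) (j : ℕ) {P : ℂ → ℂ}
    (hP : ∀ z, HasDerivAt P (kj ρ δ ψ j z) z) {p : ℂ} (hp : p.re < 0) (p' : ℂ) {m : ℝ} (hm : 0 < m) :
    P p + ray (kj ρ δ ψ j) p (-I) = P p' + ray (kj ρ δ ψ j) p' (-(1 + m * I)) := by
  rw [SokamFW.ray_IB, SokamFW.ray_IB, ← sub_eq_add_neg, ← sub_eq_add_neg]
  exact (SokamFW.Adm_kj ρ δ ψ j).cB hδ hρ hP (SokamFW.BDir_vert hp) (SokamFW.BDir_slope hm p')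

theorem SR_eq {ρ δ : ℝ} (hρ : 0 < ρ) (hδ : 0 < δ) (ψ : ℝ) (j : ℕ) {p : ℂ} (hp : 0 < p.re)
    (h1 : -Real.pi < p.im) (h2 : p.im < 0) :
    SR ρ δ ψ j = ray (kj ρ δ ψ j) p I - ray (kj ρ δ ψ j) p 1 := by
  obtain ⟨P, hP⟩ := exists_prim ρ δ ψ j
  have e1 := end_up hρ hδ ψ j hP (p := 1 - I) (p' := p) (by simp) hp
  have e2 := end_right hρ hδ ψ j hP (p := 1 - I) (p' := p) (by simp; linarith [Real.pi_gt_three])
    (by simp) h1 h2
  unfold SR
  linear_combination e1 - e2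

theorem SL_eq {ρ δ : ℝ} (hρ : 0 < ρ) (hδ : 0 < δ) (ψ : ℝ) (j : ℕ) {p : ℂ}
    (h1 : -Real.pi < p.im) (h2 : p.im < 0) {m : ℝ} (hm : 0 < m) :
    SL ρ δ ψ j = ray (kj ρ δ ψ j) p 1 - ray (kj ρ δ ψ j) p (-(1 + m * I)) := by
  obtain ⟨P, hP⟩ := exists_prim ρ δ ψ j
  have e1 := end_down hρ hδ ψ j hP (1 - I) p (m := 1) (m' := m) one_pos hm
  have e2 := end_right hρ hδ ψ j hP (p := 1 - I) (p' := p) (by simp; linarith [Real.pi_gt_three])
    (by simp) h1 h2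
  rw [ofReal_one, one_mul] at e1
  unfold SL
  linear_combination e2 - e1

end SokamFU

end

/-! ### Lib_MP_af4de1_fu.MRep -/

section
/-!
# `F` in terms of `SL`, `SR` [FU-M5]

`SokamV.rep_E` with `t = -iδ` (`cexp (-t) = qa δ`), `ζ = -ρ e^(-iψ)`; primitive `H ↦ e^(-iψ²/2δ) P(H - iψ)`, `P` a primitive of `kj ρ δ ψ 0`:
`exp(Ph ζ H/t) = e^(-iψ²/2δ) k(H - iψ)`; then `end_up` and `end_vert`.
-/

set_option autoImplicit false

namespace SokamFU

open Complex MeasureTheory Set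

/-- the point of the circle `|z| = ρ/δ`: `iδz e^(-iδ/2) = ρ e^(-iψ)` -/
noncomputable def zp (ρ δ ψ : ℝ) : ℂ := ρ / δ * cexp ((δ / 2 - ψ) * I) / I

theorem rep_F {ρ δ : ℝ} (hρ : 0 < ρ) (hδ : 0 < δ) : ∃ C : ℂ, C ≠ 0 ∧ ∀ ψ : ℝ,
    SokamF.F (qa δ) (zp ρ δ ψ) * C =
      cexp (-(ψ ^ (2 : ℕ) / (2 * δ)) * I) * (SL ρ δ ψ 0 + SR ρ δ ψ 0) := by
  have hδ' : (δ : ℂ) ≠ 0 := by exact_mod_cast hδ.ne'
  have ht0 : (-(δ * I) : ℂ) ≠ 0 := neg_ne_zero.2 (mul_ne_zero hδ' I_ne_zero)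
  have htre : 0 ≤ (-(δ * I) : ℂ).re := by simp
  have htim : (-(δ * I) : ℂ).im ≤ 0 := by simp [hδ.le]
  refine ⟨(2 * Real.pi * (-(δ * I))) ^ (1 / 2 : ℂ) * I, mul_ne_zero ?_ I_ne_zero, fun ψ => ?_⟩
  · intro h
    rw [cpow_eq_zero_iff] at h
    have hpi : (Real.pi : ℂ) ≠ 0 := by exact_mod_cast Real.pi_ne_zero
    exact (mul_ne_zero (mul_ne_zero two_ne_zero hpi) ht0) h.1
  obtain ⟨P, hP⟩ := exists_prim ρ δ ψ 0
  have hkey : ∀ H : ℂ, cexp (SokamV.Ph (-(ρ * cexp (-(ψ * I)))) H / (-(δ * I))) =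
      cexp (-(ψ ^ (2 : ℕ) / (2 * δ)) * I) * kj ρ δ ψ 0 (H - ψ * I) := by
    intro H
    unfold kj kk SokamV.Ph
    rw [pow_zero, one_mul, ← Complex.exp_add]
    congr 1
    have h1 : cexp (-(ψ * I)) * cexp H = cexp (H - ψ * I) := by
      rw [← Complex.exp_add]; congr 1; ring
    have h2 : H ^ (2 : ℕ) / 2 + -(ρ * cexp (-(ψ * I))) * cexp H =
        H ^ (2 : ℕ) / 2 - ρ * cexp (H - ψ * I) := by
      rw [← h1]; ring
    rw [h2]
    have h3 : ∀ x : ℂ, x / (-(δ * I)) = I / δ * x := by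
      intro x
      field_simp
      rw [I_sq]
      ring
    rw [h3]
    field_simp
    ring_nf
    rw [I_pow_three, I_sq]
    ring
  have hP' : ∀ H, HasDerivAt (fun H => cexp (-(ψ ^ (2 : ℕ) / (2 * δ)) * I) * P (H - ψ * I))
      (cexp (SokamV.Ph (-(ρ * cexp (-(ψ * I)))) H / (-(δ * I)))) H := by
    intro H
    rw [hkey H]
    have h1 : HasDerivAt (fun H : ℂ => H - ψ * I) 1 H := (hasDerivAt_id H).sub_const _
    have h2 := (hP (H - ψ * I)).comp H h1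
    rw [mul_one] at h2
    exact h2.const_mul _
  have hrep := SokamV.rep_E ht0 htre htim 0 hP'
  have hz : (-(ρ * cexp (-(ψ * I)))) / (-(δ * I)) * cexp (-(-(δ * I)) / 2) = zp ρ δ ψ := by
    unfold zp
    have h1 : cexp ((δ / 2 - ψ) * I) = cexp (-(ψ * I)) * cexp (-(-(δ * I)) / 2) := by
      rw [← Complex.exp_add]; congr 1; ring
    rw [h1]
    field_simp
  have hE : SokamU.E (-(δ * I)) (zp ρ δ ψ) = SokamF.F (qa δ) (zp ρ δ ψ) := by
    unfold SokamU.E qa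
    rw [neg_neg]
  rw [hz, hE] at hrep
  rw [← mul_assoc, hrep]
  have hup := end_up hρ hδ ψ 0 hP (p := 1 - ψ * I) (p' := 1 - I) (by simp) (by simp)
  have hve := end_vert hρ hδ ψ 0 hP (p := -1 - ψ * I) (by simp) (1 - I) (m := 1) one_pos
  have e1 : (∫ s in Ioi (0 : ℝ), cexp (SokamV.Ph (-(ρ * cexp (-(ψ * I)))) (1 + s * I) /
      (-(δ * I)))) * I = cexp (-(ψ ^ (2 : ℕ) / (2 * δ)) * I) * ray (kj ρ δ ψ 0) (1 - ψ * I) I := by
    unfold ray
    rw [← mul_assoc, ← integral_const_mul]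
    congr 2
    funext s
    rw [hkey]
    congr 2
    ring
  have e2 : (∫ s in Iio (-(0 : ℝ)), cexp (SokamV.Ph (-(ρ * cexp (-(ψ * I)))) (-1 + s * I) /
      (-(δ * I)))) * I = -(cexp (-(ψ ^ (2 : ℕ) / (2 * δ)) * I) *
        ray (kj ρ δ ψ 0) (-1 - ψ * I) (-I)) := by
    rw [← integral_Iic_eq_integral_Iio, ← integral_comp_neg_Ioi (0 : ℝ) (fun s : ℝ => cexp (SokamV.Ph (-(ρ * cexp (-(ψ * I))))
      (-1 + s * I) / (-(δ * I))))]
    unfold ray
    rw [← mul_assoc, ← integral_const_mul, mul_neg, neg_neg]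
    congr 2
    funext s
    rw [hkey]
    congr 2
    push_cast
    ring
  rw [e1, e2]
  rw [ofReal_one, one_mul] at hve
  have e3 : (1 : ℂ) + ((0 : ℝ) : ℂ) * I - ψ * I = 1 - ψ * I := by push_cast; ring
  have e4 : (-1 : ℂ) - ((0 : ℝ) : ℂ) * I - ψ * I = -1 - ψ * I := by push_cast; ring
  rw [e3, e4]
  unfold SL SR
  linear_combination cexp (-(ψ ^ (2 : ℕ) / (2 * δ)) * I) * (hup - hve)

end SokamFU

end

/-! ### Lib_MP_af4de1_ti.RepD -/

section
namespace SokamF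
end SokamF
namespace SokamFU
end SokamFU
namespace SokamFW
end SokamFW
/-!
# The representation data of the tip: `SL`, `SR` satisfy `RepData`
-/

set_option autoImplicit false

namespace SokamTI

open Complex SokamFU SokamF SokamFW MeasureTheory Set

theorem SL_eq_Lw {ρ δ : ℝ} (hρ : 0 < ρ) (hδ : 0 < δ) (ψ : ℝ) (j : ℕ) :
    SL ρ δ ψ j = Lw (kj ρ δ ψ j) := by
  obtain ⟨P, hP⟩ := exists_prim ρ δ ψ j
  have hb : BDir ψ (1 - I) (1 + I) := by
    have := BDir_slope (ψ := ψ) one_pos (1 - I)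
    simpa using this
  rw [(Adm_kj ρ δ ψ j).Lw_eq hδ hρ hP hb (g1 := 1 - I) (by simp; linarith only [Real.pi_gt_three])
    (by simp)]
  unfold SL
  rw [ray_IV, ray_IB]
  ring

theorem SR_eq_Rw {ρ δ : ℝ} (hρ : 0 < ρ) (hδ : 0 < δ) (ψ : ℝ) (j : ℕ) :
    SR ρ δ ψ j = Rw (kj ρ δ ψ j) := by
  obtain ⟨P, hP⟩ := exists_prim ρ δ ψ j
  rw [(Adm_kj ρ δ ψ j).Rw_eq hδ hρ hP (g0 := 1 - I) (g1 := 1 - I) (by simp)
    (by simp; linarith only [Real.pi_gt_three]) (by simp)]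
  unfold SR
  rw [ray_IV, ray_IT]
  ring

/-- `F = L + R` with one constant for each `δ`. -/
theorem rep_F_const {δ : ℝ} (hδ : 0 < δ) : ∃ C : ℂ, C ≠ 0 ∧ ∀ ρ ψ : ℝ, 0 < ρ →
    F (qa δ) (zp ρ δ ψ) * C =
      cexp (-(ψ ^ (2 : ℕ) / (2 * δ)) * I) * (SL ρ δ ψ 0 + SR ρ δ ψ 0) := by
  have hδ' : (δ : ℂ) ≠ 0 := by exact_mod_cast hδ.ne'
  have ht0 : (-(δ * I) : ℂ) ≠ 0 := neg_ne_zero.2 (mul_ne_zero hδ' I_ne_zero)
  have htre : 0 ≤ (-(δ * I) : ℂ).re := by simp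
  have htim : (-(δ * I) : ℂ).im ≤ 0 := by simp [hδ.le]
  refine ⟨(2 * Real.pi * (-(δ * I))) ^ (1 / 2 : ℂ) * I, mul_ne_zero ?_ I_ne_zero,
    fun ρ ψ hρ => ?_⟩
  · intro h
    rw [cpow_eq_zero_iff] at h
    have hpi : (Real.pi : ℂ) ≠ 0 := by exact_mod_cast Real.pi_ne_zero
    exact (mul_ne_zero (mul_ne_zero two_ne_zero hpi) ht0) h.1
  obtain ⟨P, hP⟩ := exists_prim ρ δ ψ 0
  have hkey : ∀ H : ℂ, cexp (SokamV.Ph (-(ρ * cexp (-(ψ * I)))) H / (-(δ * I))) =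
      cexp (-(ψ ^ (2 : ℕ) / (2 * δ)) * I) * kj ρ δ ψ 0 (H - ψ * I) := by
    intro H
    unfold kj kk SokamV.Ph
    rw [pow_zero, one_mul, ← Complex.exp_add]
    congr 1
    have h1 : cexp (-(ψ * I)) * cexp H = cexp (H - ψ * I) := by
      rw [← Complex.exp_add]; congr 1; ring
    have h2 : H ^ (2 : ℕ) / 2 + -(ρ * cexp (-(ψ * I))) * cexp H =
        H ^ (2 : ℕ) / 2 - ρ * cexp (H - ψ * I) := by
      rw [← h1]; ring
    rw [h2]
    have h3 : ∀ x : ℂ, x / (-(δ * I)) = I / δ * x := by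
      intro x
      field_simp
      rw [I_sq]
      ring
    rw [h3]
    field_simp
    ring_nf
    rw [I_pow_three, I_sq]
    ring
  have hP' : ∀ H, HasDerivAt (fun H => cexp (-(ψ ^ (2 : ℕ) / (2 * δ)) * I) * P (H - ψ * I))
      (cexp (SokamV.Ph (-(ρ * cexp (-(ψ * I)))) H / (-(δ * I)))) H := by
    intro H
    rw [hkey H]
    have h1 : HasDerivAt (fun H : ℂ => H - ψ * I) 1 H := (hasDerivAt_id H).sub_const _
    have h2 := (hP (H - ψ * I)).comp H h1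
    rw [mul_one] at h2
    exact h2.const_mul _
  have hrep := SokamV.rep_E ht0 htre htim 0 hP'
  have hz : (-(ρ * cexp (-(ψ * I)))) / (-(δ * I)) * cexp (-(-(δ * I)) / 2) = zp ρ δ ψ := by
    unfold zp
    have h1 : cexp ((δ / 2 - ψ) * I) = cexp (-(ψ * I)) * cexp (-(-(δ * I)) / 2) := by
      rw [← Complex.exp_add]; congr 1; ring
    rw [h1]
    field_simp
  have hE : SokamU.E (-(δ * I)) (zp ρ δ ψ) = F (qa δ) (zp ρ δ ψ) := by
    unfold SokamU.E qa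
    rw [neg_neg]
  rw [hz, hE] at hrep
  rw [← mul_assoc, hrep]
  have hup := end_up hρ hδ ψ 0 hP (p := 1 - ψ * I) (p' := 1 - I) (by simp) (by simp)
  have hve := end_vert hρ hδ ψ 0 hP (p := -1 - ψ * I) (by simp) (1 - I) (m := 1) one_pos
  have e1 : (∫ s in Ioi (0 : ℝ), cexp (SokamV.Ph (-(ρ * cexp (-(ψ * I)))) (1 + s * I) /
      (-(δ * I)))) * I = cexp (-(ψ ^ (2 : ℕ) / (2 * δ)) * I) * ray (kj ρ δ ψ 0) (1 - ψ * I) I := by
    unfold ray
    rw [← mul_assoc, ← integral_const_mul]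
    congr 2
    funext s
    rw [hkey]
    congr 2
    ring
  have e2 : (∫ s in Iio (-(0 : ℝ)), cexp (SokamV.Ph (-(ρ * cexp (-(ψ * I)))) (-1 + s * I) /
      (-(δ * I)))) * I = -(cexp (-(ψ ^ (2 : ℕ) / (2 * δ)) * I) *
        ray (kj ρ δ ψ 0) (-1 - ψ * I) (-I)) := by
    rw [← integral_Iic_eq_integral_Iio, ← integral_comp_neg_Ioi (0 : ℝ) (fun s : ℝ => cexp (SokamV.Ph (-(ρ * cexp (-(ψ * I))))
      (-1 + s * I) / (-(δ * I))))]
    unfold ray
    rw [← mul_assoc, ← integral_const_mul, mul_neg, neg_neg]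
    congr 2
    funext s
    rw [hkey]
    congr 2
    push_cast
    ring
  rw [e1, e2]
  rw [ofReal_one, one_mul] at hve
  have e3 : (1 : ℂ) + ((0 : ℝ) : ℂ) * I - ψ * I = 1 - ψ * I := by push_cast; ring
  have e4 : (-1 : ℂ) - ((0 : ℝ) : ℂ) * I - ψ * I = -1 - ψ * I := by push_cast; ring
  rw [e3, e4]
  unfold SL SR
  linear_combination cexp (-(ψ ^ (2 : ℕ) / (2 * δ)) * I) * (hup - hve)

theorem zmap_eq (ρ δ ψ : ℝ) : zmap δ (ρ * cexp (-(I * ψ))) = zp ρ δ ψ := by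
  unfold zmap zp
  have h1 : cexp ((δ / 2 - ψ) * I) = cexp (-(I * ψ)) * cexp (I * δ / 2) := by
    rw [← Complex.exp_add]; congr 1; ring
  rw [h1, div_mul_eq_mul_div, div_div]
  congr 1
  · ring
  · ring

/-- the value at the saddle point -/
theorem kk_kS {ρ δ ψ : ℝ} {h : ℂ} (h2 : ρ * cexp (h - ψ * I) = h) :
    kk ρ δ ψ (h - ψ * I) = kS δ ψ h := by
  unfold kk kS
  congr 1
  rw [h2]
  have hI : I * I = -1 := I_mul_I
  linear_combination (-(ψ * h / δ : ℂ) + ψ ^ (2 : ℕ) * I / (2 * δ)) * hI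

theorem saddle_eq {ρ ψ : ℝ} {h : ℂ} (hh : h * cexp (-h) = ρ * cexp (-(I * ψ))) :
    (ρ : ℂ) * cexp (h - ψ * I) = h := by
  have h1 : cexp (h - ψ * I) = cexp (-(I * ψ)) * cexp h := by
    rw [← Complex.exp_add]; congr 1; ring
  have h2 : cexp (-h) * cexp h = 1 := by rw [← Complex.exp_add]; simp
  rw [h1]
  linear_combination -(cexp h) * hh + h * h2

theorem kj0_saddle {ρ δ ψ : ℝ} {h : ℂ} (hh : h * cexp (-h) = ρ * cexp (-(I * ψ))) (v : ℂ) :
    kj ρ δ ψ 0 (h - ψ * I + v) = kS δ ψ h * cexp (Ev δ h v) := by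
  have h2 := saddle_eq hh
  have h3 := kk_saddle (δ := δ) (g := h - ψ * I) (h := h) (by ring) h2 v
  unfold kj
  rw [pow_zero, one_mul, h3, kk_kS h2]
  rfl

theorem kj1_saddle {ρ δ ψ : ℝ} {h : ℂ} (hh : h * cexp (-h) = ρ * cexp (-(I * ψ))) (v : ℂ) :
    kj ρ δ ψ 1 (h - ψ * I + v) = kS δ ψ h *
      ((h - I * ψ) * cexp (Ev δ h v) + v * cexp (Ev δ h v)) := by
  have h3 := kj0_saddle (δ := δ) hh v
  unfold kj at h3 ⊢
  rw [pow_zero, one_mul] at h3
  rw [pow_one, h3]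
  ring

theorem integrableOn_Iic_of_neg {f : ℝ → ℂ} (h : IntegrableOn (fun t => f (-t)) (Ioi 0)) :
    IntegrableOn f (Iic 0) := by
  rw [← Measure.map_neg_eq_self (volume : Measure ℝ)]
  let m : MeasurableEmbedding fun x : ℝ => -x := (Homeomorph.neg ℝ).measurableEmbedding
  rw [m.integrableOn_map_iff]
  simp_rw [Function.comp_def, neg_preimage, neg_Iic, neg_zero]
  exact Iff.mpr integrableOn_Ici_iff_integrableOn_Ioi h

/-- `L` along the horizontal line -/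
theorem Lw_line {δ ρ ψ : ℝ} {k : ℂ → ℂ} (hδ : 0 < δ) (hρ : 0 < ρ) (h : Adm δ ρ ψ k) {g : ℂ}
    (h1 : -Real.pi < g.im) (h2 : g.im < 0) (h3 : g.im + ψ < 0) :
    Integrable (fun u : ℝ => k (g + u)) ∧ Lw k = ∫ u : ℝ, k (g + u) := by
  obtain ⟨P, hP⟩ := h.prim
  have hb : BDir ψ g 1 := ⟨by simp, by simp, one_ne_zero, Or.inl (by simp), Or.inr h3⟩
  have i1 := h.iV hδ hρ h1 h2
  have i2 := h.iB hδ hρ hb
  have j1 : IntegrableOn (fun u : ℝ => k (g + u)) (Ioi 0) := by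
    simpa using i1
  have j2 : IntegrableOn (fun u : ℝ => k (g + u)) (Iic 0) := by
    apply integrableOn_Iic_of_neg
    have e : (fun t : ℝ => k (g + ((-t : ℝ) : ℂ))) = fun t : ℝ => k (g + t * (-1)) := by
      funext t
      congr 1
      push_cast
      ring
    rw [e]
    exact i2
  refine ⟨?_, ?_⟩
  · have := j2.union j1
    rwa [Iic_union_Ioi, integrableOn_univ] at this
  · rw [h.Lw_eq hδ hρ hP hb h1 h2, ← intervalIntegral.integral_Iic_add_Ioi j2 j1]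
    unfold IB IV
    have e1 : (∫ t in Ioi (0 : ℝ), k (g + t * (-1))) = ∫ t in Iic (0 : ℝ), k (g + t) := by
      have := integral_comp_neg_Ioi (0 : ℝ) (fun t : ℝ => k (g + t))
      rw [neg_zero] at this
      rw [← this]
      congr 1
      funext t
      congr 1
      push_cast
      ring
    rw [e1]
    simp

theorem et_reD : et.re = 1 / 2 := by
  unfold et
  rw [Complex.exp_re]
  simp

theorem et_imD : et.im = -(Real.sqrt 3 / 2) := by
  unfold et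
  rw [Complex.exp_im]
  simp

/-- `R` along the broken line of slope `-π/3` -/
theorem Rw_line {δ ρ ψ x : ℝ} {k : ℂ → ℂ} (hδ : 0 < δ) (hρ : 0 < ρ) (h : Adm δ ρ ψ k) {g : ℂ}
    (h0 : 0 < g.re) (h1 : g.im = x) (hx : 0 < x) (hx2 : x < Real.pi / 2) :
    IntegrableOn (fun y : ℝ => k (g + I * y)) (Ioi 0) ∧
    IntegrableOn (fun u : ℝ => k (g + (2 * x * et + u))) (Ioi 0) ∧
    Rw k = I * (∫ y in Ioi (0 : ℝ), k (g + I * y)) - et * (∫ t in (0 : ℝ)..(2 * x), k (g + t * et)) -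
      ∫ u in Ioi (0 : ℝ), k (g + (2 * x * et + u)) := by
  obtain ⟨P, hP⟩ := h.prim
  set g1 : ℂ := g + ((2 * x : ℝ) : ℂ) * et with hg1
  have him : g1.im = x - x * Real.sqrt 3 := by
    rw [hg1, add_im, im_ofReal_mul, et_imD, h1]
    ring
  have hs1 : 1 < Real.sqrt 3 := by
    rw [Real.lt_sqrt (by norm_num)]; norm_num
  have hs2 : Real.sqrt 3 < 2 := by
    rw [Real.sqrt_lt' (by norm_num)]; norm_num
  have h2 : -Real.pi < g1.im := by
    rw [him]; nlinarith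
  have h3 : g1.im < 0 := by
    rw [him]; nlinarith
  have i1 := h.iV hδ hρ h2 h3
  have i2 := h.iT hδ hρ h0
  have e2 : (fun y : ℝ => k (g + y * I)) = fun y : ℝ => k (g + I * y) := by
    funext y
    congr 1
    ring
  have e1 : (fun u : ℝ => k (g1 + u * 1)) = fun u : ℝ => k (g + (2 * x * et + u)) := by
    funext u
    congr 1
    rw [hg1]
    push_cast
    ring
  have hs := seg_int h.cont hP g et 0 (2 * x)
  rw [h.Rw_eq hδ hρ hP h0 h2 h3]
  unfold IT IV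
  rw [e1] at i1 ⊢
  rw [e2] at i2 ⊢
  refine ⟨i2, i1, ?_⟩
  rw [hs, ofReal_zero, zero_mul, add_zero, ← hg1]
  ring

theorem linkL {δ ρ ψ : ℝ} {h : ℂ} (hδ : 0 < δ) (hρ : 0 < ρ) (hh : h * cexp (-h) = ρ * cexp (-(I * ψ)))
    (h0 : h.im < 0) (h1 : -Real.pi < h.im - ψ) (h2 : h.im - ψ < 0) :
    SL ρ δ ψ 0 = kS δ ψ h * JL δ h ∧
    SL ρ δ ψ 1 = kS δ ψ h * ((h - I * ψ) * JL δ h + JL1 δ h) := by
  have him : (h - ψ * I : ℂ).im = h.im - ψ := by simp
  have a0 := Lw_line hδ hρ (Adm_kj ρ δ ψ 0) (g := h - ψ * I) (by rw [him]; exact h1)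
    (by rw [him]; exact h2) (by rw [him]; linarith only [h0])
  have a1 := Lw_line hδ hρ (Adm_kj ρ δ ψ 1) (g := h - ψ * I) (by rw [him]; exact h1)
    (by rw [him]; exact h2) (by rw [him]; linarith only [h0])
  have hk := kS_ne_zero δ ψ h
  have f0 : (fun u : ℝ => kj ρ δ ψ 0 (h - ψ * I + u)) = fun u : ℝ => kS δ ψ h * cexp (Ev δ h u) := by
    funext u
    exact kj0_saddle hh _
  have f1 : (fun u : ℝ => kj ρ δ ψ 1 (h - ψ * I + u)) = fun u : ℝ => kS δ ψ h *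
      ((h - I * ψ) * cexp (Ev δ h u) + u * cexp (Ev δ h u)) := by
    funext u
    exact kj1_saddle hh _
  rw [f0] at a0
  rw [f1] at a1
  have b0 : Integrable (fun u : ℝ => cexp (Ev δ h u)) := by
    have := a0.1.const_mul (kS δ ψ h)⁻¹
    simpa [← mul_assoc, inv_mul_cancel₀ hk] using this
  have b1 : Integrable (fun u : ℝ => (h - I * ψ) * cexp (Ev δ h u) + u * cexp (Ev δ h u)) := by
    have := a1.1.const_mul (kS δ ψ h)⁻¹
    have e : (fun u : ℝ => (kS δ ψ h)⁻¹ * (kS δ ψ h * ((h - I * ψ) * cexp (Ev δ h u) +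
        u * cexp (Ev δ h u)))) = fun u : ℝ => (h - I * ψ) * cexp (Ev δ h u) + u * cexp (Ev δ h u) := by
      funext u
      rw [← mul_assoc, inv_mul_cancel₀ hk, one_mul]
    rwa [e] at this
  have b2 : Integrable (fun u : ℝ => (u : ℂ) * cexp (Ev δ h u)) := by
    have := b1.sub (b0.const_mul (h - I * ψ))
    refine this.congr (Filter.Eventually.of_forall fun u => ?_)
    simp only [Pi.sub_apply]
    ring
  have hJ : JL δ h = ∫ u : ℝ, cexp (Ev δ h u) := by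
    unfold JL JLw
    simp
  have hJ1 : JL1 δ h = ∫ u : ℝ, (u : ℂ) * cexp (Ev δ h u) := by
    unfold JL1 JLw
    simp
  constructor
  · rw [SL_eq_Lw hρ hδ, a0.2, integral_const_mul, hJ]
  · rw [SL_eq_Lw hρ hδ, a1.2, integral_const_mul, integral_add (b0.const_mul _) b2,
      integral_const_mul, hJ, hJ1]

theorem linkR {δ ρ ψ : ℝ} {h : ℂ} (hδ : 0 < δ) (hρ : 0 < ρ) (hh : h * cexp (-h) = ρ * cexp (-(I * ψ)))
    (h0 : 0 < h.im) (h1 : 0 < h.re) (h2 : h.im - ψ = h.arg) :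
    SR ρ δ ψ 0 = kS δ ψ h * JR δ h ∧
    SR ρ δ ψ 1 = kS δ ψ h * ((h - I * ψ) * JR δ h + JR1 δ h) := by
  have him : (h - ψ * I : ℂ).im = h.arg := by rw [← h2]; simp
  have hre : (h - ψ * I : ℂ).re = h.re := by simp
  have hx : 0 < h.arg := by
    have h3 := Complex.arg_nonneg_iff.2 h0.le
    rcases h3.lt_or_eq with h4 | h4
    · exact h4
    · exfalso
      have := Complex.arg_eq_zero_iff.1 h4.symm
      linarith only [h0, this.2]
  have hx2 : h.arg < Real.pi / 2 := by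
    have := Complex.abs_arg_lt_pi_div_two_iff.2 (Or.inl h1)
    exact (abs_lt.1 this).2
  set x := h.arg with hxd
  have a0 := Rw_line hδ hρ (Adm_kj ρ δ ψ 0) (g := h - ψ * I) (by rw [hre]; exact h1) him hx hx2
  have a1 := Rw_line hδ hρ (Adm_kj ρ δ ψ 1) (g := h - ψ * I) (by rw [hre]; exact h1) him hx hx2
  have hk := kS_ne_zero δ ψ h
  simp only [kj0_saddle hh] at a0
  simp only [kj1_saddle hh] at a1
  obtain ⟨p1, p2, p3⟩ := a0
  obtain ⟨q1, q2, q3⟩ := a1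
  have canc : ∀ {f : ℝ → ℂ} {s : Set ℝ}, IntegrableOn (fun u => kS δ ψ h * f u) s →
      IntegrableOn f s := by
    intro f s hf
    have := hf.const_mul (kS δ ψ h)⁻¹
    refine IntegrableOn.congr_fun_ae this (Filter.Eventually.of_forall fun u => ?_)
    simp only
    rw [← mul_assoc, inv_mul_cancel₀ hk, one_mul]
  have sub1 : ∀ {f g : ℝ → ℂ} {s : Set ℝ}, IntegrableOn g s →
      IntegrableOn (fun u => (h - I * ψ) * g u + f u) s → IntegrableOn f s := by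
    intro f g s hg hf
    have := hf.sub (hg.const_mul (h - I * ψ))
    refine IntegrableOn.congr_fun_ae this (Filter.Eventually.of_forall fun u => ?_)
    simp only [Pi.sub_apply]
    ring
  have b1 := canc p1
  have b2 := canc p2
  have c1 := sub1 b1 (canc q1)
  have c2 := sub1 b2 (canc q2)
  have hE : Continuous (fun t : ℝ => cexp (Ev δ h (t * et))) := by
    unfold Ev gg
    fun_prop
  have b3 : IntervalIntegrable (fun t : ℝ => (h - I * ψ) * cexp (Ev δ h (t * et))) volume 0 (2 * x) :=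
    (continuous_const.mul hE).intervalIntegrable _ _
  have c3 : IntervalIntegrable (fun t : ℝ => ((t : ℂ) * et) * cexp (Ev δ h (t * et))) volume 0 (2 * x) := by
    apply Continuous.intervalIntegrable
    fun_prop
  have hJ : JR δ h = I * (∫ y in Ioi (0 : ℝ), cexp (Ev δ h (I * y))) -
      et * (∫ t in (0 : ℝ)..(2 * x), cexp (Ev δ h (t * et))) -
      ∫ u in Ioi (0 : ℝ), cexp (Ev δ h (2 * x * et + u)) := by
    unfold JR JRw
    simp only [one_mul, ← hxd]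
  have hJ1 : JR1 δ h = I * (∫ y in Ioi (0 : ℝ), (I * y) * cexp (Ev δ h (I * y))) -
      et * (∫ t in (0 : ℝ)..(2 * x), (t * et) * cexp (Ev δ h (t * et))) -
      ∫ u in Ioi (0 : ℝ), (2 * x * et + u) * cexp (Ev δ h (2 * x * et + u)) := by
    unfold JR1 JRw
    simp only [id, ← hxd]
  constructor
  · rw [SR_eq_Rw hρ hδ, p3, integral_const_mul, integral_const_mul,
      intervalIntegral.integral_const_mul, hJ]
    ring
  · rw [SR_eq_Rw hρ hδ, q3, integral_const_mul, integral_const_mul,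
      intervalIntegral.integral_const_mul, integral_add (b1.const_mul _) c1,
      integral_add (b2.const_mul _) c2, intervalIntegral.integral_add b3 c3,
      integral_const_mul, integral_const_mul, intervalIntegral.integral_const_mul, hJ, hJ1]
    ring

/-- The representation data. -/
theorem repData : RepData (fun δ ρ ψ => SL ρ δ ψ 0) (fun δ ρ ψ => SR ρ δ ψ 0)
    (fun δ ρ ψ => SL ρ δ ψ 1) (fun δ ρ ψ => SR ρ δ ψ 1) where
  rep := by
    intro δ ρ hδ hρ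
    obtain ⟨C, hC, h⟩ := rep_F_const hδ
    refine ⟨C, hC, fun ψ => ?_⟩
    rw [zmap_eq]
    have h1 := h ρ ψ hρ
    have h2 : cexp (I * (ψ : ℂ) ^ (2 : ℕ) / (2 * δ)) * cexp (-(ψ ^ (2 : ℕ) / (2 * δ)) * I) = 1 := by
      rw [← Complex.exp_add]
      convert Complex.exp_zero using 2
      ring
    linear_combination cexp (I * (ψ : ℂ) ^ (2 : ℕ) / (2 * δ)) * h1 + (SL ρ δ ψ 0 + SR ρ δ ψ 0) * h2
  dL := by
    intro δ ρ ψ hδ hρ
    have := hasDerivAt_SL hρ hδ ψ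
    have e : -(1 / δ : ℂ) * SL ρ δ ψ 1 = -(SL ρ δ ψ 1) / δ := by ring
    rwa [e] at this
  dR := by
    intro δ ρ ψ hδ hρ
    have := hasDerivAt_SR hρ hδ ψ
    have e : -(1 / δ : ℂ) * SR ρ δ ψ 1 = -(SR ρ δ ψ 1) / δ := by ring
    rwa [e] at this
  linkL := fun δ ρ ψ h hδ hρ hh h0 h1 h2 => linkL hδ hρ hh h0 h1 h2
  linkR := fun δ ρ ψ h hδ hρ hh h0 h1 h2 => linkR hδ hρ hh h0 h1 h2

end SokamTI

end

/-! ### Lib_MP_af4de1_fu.MDist -/

section
/-!
# `|SL/SR|` strictly monotone ⇒ `Dist` [FU-M6]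
-/

set_option autoImplicit false

namespace SokamFU

open Complex MeasureTheory Set

private theorem MDist_inner {a b : ℂ} (ha : a ≠ 0) : inner ℝ a b / ‖a‖ ^ (2 : ℕ) = (b / a).re := by
  have h1 : normSq a ≠ 0 := fun h => ha (normSq_eq_zero.1 h)
  rw [Complex.inner, ← Complex.normSq_eq_norm_sq, div_re, mul_re, conj_re, conj_im]
  field_simp
  ring

private theorem MDist_log {f : ℝ → ℂ} {f' : ℂ} {x : ℝ} (hf : HasDerivAt f f' x) (h0 : f x ≠ 0) :
    HasDerivAt (fun y => Real.log (‖f y‖ ^ (2 : ℕ))) (2 * (f' / f x).re) x := by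
  have h1 : ‖f x‖ ^ (2 : ℕ) ≠ 0 := pow_ne_zero _ (norm_ne_zero_iff.2 h0)
  have h2 := hf.norm_sq.log h1
  have h3 : 2 * inner ℝ (f x) f' / ‖f x‖ ^ (2 : ℕ) = 2 * (f' / f x).re := by
    rw [mul_div_assoc, MDist_inner h0]
  rw [← h3]
  exact h2

/-- every point of the circle -/
private theorem MDist_zp {ρ δ : ℝ} (hρ : 0 < ρ) (hδ : 0 < δ) (ψ1 : ℝ) {z : ℂ} (hz : ‖z‖ = ρ / δ) :
    ∃ ψ ∈ Icc ψ1 (ψ1 + 2 * Real.pi), z = zp ρ δ ψ := by
  set θ : ℝ := (z * I).arg with hθ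
  have h1 : z * I = (ρ / δ : ℝ) * cexp (θ * I) := by
    have h2 := Complex.norm_mul_exp_arg_mul_I (z * I)
    rw [norm_mul, norm_I, mul_one, hz] at h2
    exact h2.symm
  set n : ℤ := toIcoDiv Real.two_pi_pos ψ1 (δ / 2 - θ) with hn
  refine ⟨δ / 2 - θ - n • (2 * Real.pi), ?_, ?_⟩
  · have h3 := toIcoMod_mem_Ico Real.two_pi_pos ψ1 (δ / 2 - θ)
    exact ⟨h3.1, h3.2.le⟩
  · unfold zp
    have h4 : ((δ : ℂ) / 2 - ((δ / 2 - θ - n • (2 * Real.pi) : ℝ) : ℂ)) * I =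
        θ * I + n * (2 * Real.pi * I) := by
      rw [zsmul_eq_mul]
      push_cast
      ring
    rw [h4, Complex.exp_add, Complex.exp_int_mul_two_pi_mul_I, mul_one, eq_div_iff I_ne_zero, h1]
    push_cast
    rfl

/-- If `SL, SR ≠ 0` and `Re (SL 1/SL 0) < Re (SR 1/SR 0)` on an interval of length `2π`, then `|SL 0/SR 0|` is strictly increasing
there (derivative of `log |SL 0/SR 0|` is `(1/δ) Re (SR 1/SR 0 - SL 1/SL 0)`), so `SL 0 + SR 0 = 0` at most once, and then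
`(SL 0 + SR 0)' ≠ 0`, hence the zero of `F` is simple. -/
theorem dist_of {ρ δ : ℝ} (hρ : 0 < ρ) (hδ : 0 < δ) (ψ1 : ℝ)
    (H : ∀ ψ ∈ Icc ψ1 (ψ1 + 2 * Real.pi), SL ρ δ ψ 0 ≠ 0 ∧ SR ρ δ ψ 0 ≠ 0 ∧
      (SL ρ δ ψ 1 / SL ρ δ ψ 0).re < (SR ρ δ ψ 1 / SR ρ δ ψ 0).re) :
    Dist δ (ρ / δ) := by
  obtain ⟨C, hC, hrep⟩ := rep_F hρ hδ
  set φ : ℝ → ℝ := fun ψ => Real.log (‖SL ρ δ ψ 0‖ ^ (2 : ℕ)) - Real.log (‖SR ρ δ ψ 0‖ ^ (2 : ℕ)) with hφ
  have hd : ∀ ψ ∈ Icc ψ1 (ψ1 + 2 * Real.pi), ∃ d : ℝ, 0 < d ∧ HasDerivAt φ d ψ := by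
    intro ψ hψ
    obtain ⟨h1, h2, h3⟩ := H ψ hψ
    have e1 := MDist_log (hasDerivAt_SL hρ hδ ψ) h1
    have e2 := MDist_log (hasDerivAt_SR hρ hδ ψ) h2
    refine ⟨_, ?_, e1.sub e2⟩
    have e3 : ∀ a b : ℂ, (-(1 / (δ : ℂ)) * a / b).re = -(1 / δ) * (a / b).re := by
      intro a b
      have : -(1 / (δ : ℂ)) * a / b = ((-(1 / δ) : ℝ) : ℂ) * (a / b) := by
        push_cast
        ring
      rw [this, re_ofReal_mul]
    rw [e3, e3]
    have e4 : 0 < 1 / δ := by positivity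
    nlinarith
  have hmono : StrictMonoOn φ (Icc ψ1 (ψ1 + 2 * Real.pi)) := by
    refine strictMonoOn_of_deriv_pos (convex_Icc _ _) ?_ ?_
    · intro ψ hψ
      obtain ⟨d, -, h⟩ := hd ψ hψ
      exact h.continuousAt.continuousWithinAt
    · intro ψ hψ
      obtain ⟨d, hd0, h⟩ := hd ψ (interior_subset hψ)
      rw [h.deriv]
      exact hd0
  have hzero : ∀ ψ, SokamF.F (qa δ) (zp ρ δ ψ) = 0 → SL ρ δ ψ 0 + SR ρ δ ψ 0 = 0 := by
    intro ψ h
    have h1 := hrep ψ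
    rw [h, zero_mul] at h1
    rcases mul_eq_zero.1 h1.symm with h2 | h2
    · exact absurd h2 (Complex.exp_ne_zero _)
    · exact h2
  have hφ0 : ∀ ψ, SokamF.F (qa δ) (zp ρ δ ψ) = 0 → φ ψ = 0 := by
    intro ψ h
    have h1 := hzero ψ h
    have h2 : SL ρ δ ψ 0 = -SR ρ δ ψ 0 := eq_neg_of_add_eq_zero_left h1
    rw [hφ]
    simp only
    rw [h2, norm_neg, sub_self]
  intro z hz hFz
  obtain ⟨ψ, hψ, rfl⟩ := MDist_zp hρ hδ ψ1 hz
  refine ⟨?_, ?_⟩
  · intro hdF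
    have hq : ‖qa δ‖ ≤ 1 := (norm_qa δ).le
    have hF : HasDerivAt (SokamF.F (qa δ)) 0 (zp ρ δ ψ) := by
      rw [← hdF]
      exact (SokamF.hasDerivAt_F hq _).differentiableAt.hasDerivAt
    have hzp : DifferentiableAt ℝ (fun ψ : ℝ => zp ρ δ ψ) ψ := by
      unfold zp
      fun_prop
    have hL : HasDerivAt (fun ψ : ℝ => SokamF.F (qa δ) (zp ρ δ ψ) * C) 0 ψ := by
      have h1 : HasDerivAt (SokamF.F (qa δ) ∘ fun ψ : ℝ => zp ρ δ ψ)
          (0 * deriv (fun ψ : ℝ => zp ρ δ ψ) ψ) ψ := HasDerivAt.comp ψ hF hzp.hasDerivAt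
      rw [zero_mul] at h1
      have h2 := h1.mul_const C
      rw [zero_mul] at h2
      exact h2
    set E : ℝ → ℂ := fun ψ => cexp (-((ψ : ℂ) ^ (2 : ℕ) / (2 * δ)) * I) with hE
    have hEd : DifferentiableAt ℝ E ψ := by
      rw [hE]
      fun_prop
    have hsum := (hasDerivAt_SL hρ hδ ψ).add (hasDerivAt_SR hρ hδ ψ)
    have hR := hEd.hasDerivAt.mul hsum
    have hfun : (fun ψ : ℝ => SokamF.F (qa δ) (zp ρ δ ψ) * C) =
        E * ((fun ψ : ℝ => SL ρ δ ψ 0) + fun ψ : ℝ => SR ρ δ ψ 0) := by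
      funext y
      exact hrep y
    rw [hfun] at hL
    have h5 := hL.unique hR
    have h0 := hzero ψ hFz
    have h6 : ((fun ψ : ℝ => SL ρ δ ψ 0) + fun ψ : ℝ => SR ρ δ ψ 0) ψ = 0 := h0
    rw [h6, mul_zero, zero_add] at h5
    rcases mul_eq_zero.1 h5.symm with h7 | h7
    · exact absurd h7 (Complex.exp_ne_zero _)
    · have hδc : (δ : ℂ) ≠ 0 := by exact_mod_cast hδ.ne'
      have h8 : SL ρ δ ψ 1 + SR ρ δ ψ 1 = 0 := by
        have h9 : -(1 / (δ : ℂ)) * (SL ρ δ ψ 1 + SR ρ δ ψ 1) = 0 := by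
          rw [mul_add]
          exact h7
        rcases mul_eq_zero.1 h9 with h10 | h10
        · exact absurd h10 (neg_ne_zero.2 (one_div_ne_zero hδc))
        · exact h10
      obtain ⟨-, -, h3⟩ := H ψ hψ
      rw [eq_neg_of_add_eq_zero_left h8, eq_neg_of_add_eq_zero_left h0, neg_div_neg_eq] at h3
      exact lt_irrefl _ h3
  · intro w hw hFw
    obtain ⟨ψ', hψ', rfl⟩ := MDist_zp hρ hδ ψ1 hw
    have h1 : φ ψ' = φ ψ := by rw [hφ0 _ hFw, hφ0 _ hFz]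
    rw [hmono.injOn hψ' hψ h1]

end SokamFU

end

/-! ### Lib_MP_af4de1_fu.MLoc -/

section
/-!
# The contour integrals at a saddle point [FU-M7]

`SR_eq`, `SL_eq` with the corner `g + p`, `kk_saddle`; linearity of the integral (integrability: `MInt` divided by `k(g) ≠ 0`).
-/

set_option autoImplicit false

namespace SokamFU

open Complex MeasureTheory Set

private theorem loc_kj0 {ρ δ ψ : ℝ} {g h : ℂ} (hg : h = g + ψ * I) (hh : ρ * cexp g = h) (p d : ℂ) (s : ℝ) :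
    kj ρ δ ψ 0 (g + p + s * d) = kk ρ δ ψ g * ((fun _ : ℂ => (1 : ℂ)) (p + s * d) * cexp (EE δ h (p + s * d))) := by
  unfold kj
  rw [add_assoc, kk_saddle hg hh]
  ring

private theorem loc_kj1 {ρ δ ψ : ℝ} {g h : ℂ} (hg : h = g + ψ * I) (hh : ρ * cexp g = h) (p d : ℂ) (s : ℝ) :
    kj ρ δ ψ 1 (g + p + s * d) = kk ρ δ ψ g *
      (g * ((fun _ : ℂ => (1 : ℂ)) (p + s * d) * cexp (EE δ h (p + s * d))) +
        (fun v : ℂ => v) (p + s * d) * cexp (EE δ h (p + s * d))) := by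
  unfold kj
  rw [add_assoc, kk_saddle hg hh]
  ring

private theorem loc_kk_ne (ρ δ ψ : ℝ) (g : ℂ) : kk ρ δ ψ g ≠ 0 := Complex.exp_ne_zero _

private theorem loc_ray0 {ρ δ ψ : ℝ} {g h : ℂ} (hg : h = g + ψ * I) (hh : ρ * cexp g = h) (p d : ℂ) :
    ray (kj ρ δ ψ 0) (g + p) d = kk ρ δ ψ g * ray (fun v => (fun _ : ℂ => (1 : ℂ)) v * cexp (EE δ h v)) p d := by
  unfold ray
  rw [← mul_assoc, ← integral_const_mul]
  congr 1
  refine integral_congr_ae (Filter.Eventually.of_forall fun s => ?_)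
  exact loc_kj0 hg hh p d s

private theorem loc_ray1 {ρ δ ψ : ℝ} {g h : ℂ} (hg : h = g + ψ * I) (hh : ρ * cexp g = h) (p d : ℂ)
    (hi0 : IntegrableOn (fun s : ℝ => kj ρ δ ψ 0 (g + p + s * d)) (Ioi 0))
    (hi1 : IntegrableOn (fun s : ℝ => kj ρ δ ψ 1 (g + p + s * d)) (Ioi 0)) :
    ray (kj ρ δ ψ 1) (g + p) d = kk ρ δ ψ g *
      (g * ray (fun v => (fun _ : ℂ => (1 : ℂ)) v * cexp (EE δ h v)) p d +
        ray (fun v => (fun v : ℂ => v) v * cexp (EE δ h v)) p d) := by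
  have hne := loc_kk_ne ρ δ ψ g
  have hj0 : IntegrableOn (fun s : ℝ => (fun _ : ℂ => (1 : ℂ)) (p + s * d) * cexp (EE δ h (p + s * d))) (Ioi 0) := by
    have h1 := Integrable.const_mul hi0 (kk ρ δ ψ g)⁻¹
    refine h1.congr (Filter.Eventually.of_forall fun s => ?_)
    show (kk ρ δ ψ g)⁻¹ * kj ρ δ ψ 0 (g + p + s * d) = _
    rw [loc_kj0 hg hh, inv_mul_cancel_left₀ hne]
  have hj1 : IntegrableOn (fun s : ℝ => (fun v : ℂ => v) (p + s * d) * cexp (EE δ h (p + s * d))) (Ioi 0) := by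
    have h1 := Integrable.sub (Integrable.const_mul hi1 (kk ρ δ ψ g)⁻¹) (Integrable.const_mul hj0 g)
    refine h1.congr (Filter.Eventually.of_forall fun s => ?_)
    show (kk ρ δ ψ g)⁻¹ * kj ρ δ ψ 1 (g + p + s * d) -
      g * ((fun _ : ℂ => (1 : ℂ)) (p + s * d) * cexp (EE δ h (p + s * d))) = _
    rw [loc_kj1 hg hh, inv_mul_cancel_left₀ hne]
    ring
  have h2 : ∫ s in Ioi (0 : ℝ), kj ρ δ ψ 1 (g + p + s * d) = kk ρ δ ψ g *
      (g * (∫ s in Ioi (0 : ℝ), (fun _ : ℂ => (1 : ℂ)) (p + s * d) * cexp (EE δ h (p + s * d))) +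
        ∫ s in Ioi (0 : ℝ), (fun v : ℂ => v) (p + s * d) * cexp (EE δ h (p + s * d))) := by
    rw [← integral_const_mul, ← integral_add (Integrable.const_mul hj0 g) hj1, ← integral_const_mul]
    refine integral_congr_ae (Filter.Eventually.of_forall fun s => ?_)
    exact loc_kj1 hg hh p d s
  unfold ray
  rw [h2]
  ring

theorem SR_loc {ρ δ ψ : ℝ} (hρ : 0 < ρ) (hδ : 0 < δ) {g h : ℂ} (hg : h = g + ψ * I)
    (hh : ρ * cexp g = h) {p : ℂ} (h0 : 0 < (g + p).re) (h1 : -Real.pi < (g + p).im)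
    (h2 : (g + p).im < 0) :
    SR ρ δ ψ 0 = kk ρ δ ψ g * JJ δ h p I (fun _ => 1) ∧
    SR ρ δ ψ 1 = kk ρ δ ψ g * (g * JJ δ h p I (fun _ => 1) + JJ δ h p I (fun v => v)) := by
  have hr0 := loc_ray0 (δ := δ) hg hh
  have e0 := SR_eq hρ hδ ψ 0 h0 h1 h2
  have e1 := SR_eq hρ hδ ψ 1 h0 h1 h2
  have u1 := loc_ray1 (δ := δ) hg hh p I (kj_int_up hρ hδ ψ 0 h0) (kj_int_up hρ hδ ψ 1 h0)
  have u2 := loc_ray1 (δ := δ) hg hh p 1 (kj_int_right hρ hδ ψ 0 h1 h2) (kj_int_right hρ hδ ψ 1 h1 h2)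
  constructor
  · rw [e0, hr0, hr0]
    unfold JJ
    ring
  · rw [e1, u1, u2]
    unfold JJ
    ring

theorem SL_loc {ρ δ ψ : ℝ} (hρ : 0 < ρ) (hδ : 0 < δ) {g h : ℂ} (hg : h = g + ψ * I)
    (hh : ρ * cexp g = h) {p : ℂ} {m : ℝ} (hm : 0 < m) (h1 : -Real.pi < (g + p).im)
    (h2 : (g + p).im < 0) :
    SL ρ δ ψ 0 = -kk ρ δ ψ g * JJ δ h p (-(1 + m * I)) (fun _ => 1) ∧
    SL ρ δ ψ 1 = -kk ρ δ ψ g * (g * JJ δ h p (-(1 + m * I)) (fun _ => 1) +
      JJ δ h p (-(1 + m * I)) (fun v => v)) := by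
  have hr0 := loc_ray0 (δ := δ) hg hh
  have e0 := SL_eq hρ hδ ψ 0 h1 h2 hm
  have e1 := SL_eq hρ hδ ψ 1 h1 h2 hm
  have u1 := loc_ray1 (δ := δ) hg hh p (-(1 + m * I)) (kj_int_down hρ hδ ψ 0 hm _) (kj_int_down hρ hδ ψ 1 hm _)
  have u2 := loc_ray1 (δ := δ) hg hh p 1 (kj_int_right hρ hδ ψ 0 h1 h2) (kj_int_right hρ hδ ψ 1 h1 h2)
  constructor
  · rw [e0, hr0, hr0]
    unfold JJ
    ring
  · rw [e1, u1, u2]
    unfold JJ
    ring

end SokamFU

end

/-! ### Lib_MP_af4de1_fu.MHypR -/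

section
/-!
# Case R: hypotheses of the general estimate

`h = α + i s`, `d = i`: `ff h (x + iy) = xy - α(e^x sin y - y) - s(e^x cos y - 1 - x)` (`ff_eq`).
`right` (`v = -it`): `s(1-cos t) - α(t - sin t) ≥ s[(1-cos t) - .4(t - sin t)] ≥ .24 s t²` on `[0,2]` (at `t = 2`: `.24497`).
`left`: `s(1-cos t) + α(t - sin t) ≥ s(1-cos t) ≥ .35 s t²` on `[0,2]` (at `2`: `.354`).
`far`: `[2,4]`: `≥ 1.41 s ≥ .83`; `t ≥ 4`: `αt + s - √(s²+α²) ≥ α(t - .2)`.
`side` (`v = u - 2i`): `-2u + α(e^u sin 2 - 2) + s(1 + u - e^u cos 2) ≥ 1.7 + .7u` (at `u = 0`: `≥ s(1.4161 - .4·1.0907) = .98 s`).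
`quad`: `s t²/2`.  `k2`, `k3` with `1` (`taylor2_left`, `taylor3_left`).
-/

set_option autoImplicit false

namespace SokamFU

open Complex

private theorem hr_nonneg {f f' : ℝ → ℝ} (hf : ∀ x, HasDerivAt f (f' x) x) (h0 : f 0 = 0)
    (h : ∀ x, 0 ≤ x → 0 ≤ f' x) {x : ℝ} (hx : 0 ≤ x) : 0 ≤ f x := by
  have h1 : MonotoneOn f (Set.Ici 0) := by
    refine monotoneOn_of_deriv_nonneg (convex_Ici 0) (fun y _ => (hf y).continuousAt.continuousWithinAt)
      (fun y _ => (hf y).differentiableAt.differentiableWithinAt) fun y hy => ?_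
    rw [interior_Ici] at hy
    rw [(hf y).deriv]
    exact h y (le_of_lt hy)
  have h2 := h1 (Set.mem_Ici.mpr le_rfl) (Set.mem_Ici.mpr hx) hx
  rwa [h0] at h2

private theorem hr_sin3 {x : ℝ} (hx : 0 ≤ x) : x - x ^ (3 : ℕ) / 6 ≤ Real.sin x := by
  have h := hr_nonneg (f := fun x => Real.sin x - (x - x ^ (3 : ℕ) / 6))
    (f' := fun x => Real.cos x - (1 - 3 * x ^ (2 : ℕ) / 6)) (fun x => by
      have h1 := (hasDerivAt_pow 3 x).div_const 6
      have h2 := (Real.hasDerivAt_sin x).sub ((hasDerivAt_id x).sub h1)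
      exact HasDerivAt.congr_deriv h2 (by push_cast; norm_num)) (by simp) (fun x _ => by
      have := Real.one_sub_sq_div_two_le_cos (x := x)
      linarith only [this]) hx
  linarith only [h]

private theorem hr_cos4 {x : ℝ} (hx : 0 ≤ x) : Real.cos x ≤ 1 - x ^ (2 : ℕ) / 2 + x ^ (4 : ℕ) / 24 := by
  have h := hr_nonneg (f := fun x => (1 - x ^ (2 : ℕ) / 2 + x ^ (4 : ℕ) / 24) - Real.cos x)
    (f' := fun x => (-(2 * x / 2) + 4 * x ^ (3 : ℕ) / 24) + Real.sin x) (fun x => by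
      have h1 := (hasDerivAt_pow 2 x).div_const 2
      have h3 := (hasDerivAt_pow 4 x).div_const 24
      have h2 := ((h1.const_sub 1).add h3).sub (Real.hasDerivAt_cos x)
      exact HasDerivAt.congr_deriv h2 (by push_cast; norm_num)) (by simp) (fun x hx => by
      have := hr_sin3 hx
      linarith only [this]) hx
  linarith only [h]

private theorem hr_sin5 {x : ℝ} (hx : 0 ≤ x) : Real.sin x ≤ x - x ^ (3 : ℕ) / 6 + x ^ (5 : ℕ) / 120 := by
  have h := hr_nonneg (f := fun x => (x - x ^ (3 : ℕ) / 6 + x ^ (5 : ℕ) / 120) - Real.sin x)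
    (f' := fun x => (1 - 3 * x ^ (2 : ℕ) / 6 + 5 * x ^ (4 : ℕ) / 120) - Real.cos x) (fun x => by
      have h1 := (hasDerivAt_pow 3 x).div_const 6
      have h3 := (hasDerivAt_pow 5 x).div_const 120
      have h2 := (((hasDerivAt_id x).sub h1).add h3).sub (Real.hasDerivAt_sin x)
      exact HasDerivAt.congr_deriv h2 (by push_cast; norm_num)) (by simp) (fun x hx => by
      have := hr_cos4 hx
      linarith only [this]) hx
  linarith only [h]

private theorem hr_cos6 {x : ℝ} (hx : 0 ≤ x) :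
    1 - x ^ (2 : ℕ) / 2 + x ^ (4 : ℕ) / 24 - x ^ (6 : ℕ) / 720 ≤ Real.cos x := by
  have h := hr_nonneg (f := fun x => Real.cos x - (1 - x ^ (2 : ℕ) / 2 + x ^ (4 : ℕ) / 24 - x ^ (6 : ℕ) / 720))
    (f' := fun x => -Real.sin x - (-(2 * x / 2) + 4 * x ^ (3 : ℕ) / 24 - 6 * x ^ (5 : ℕ) / 720)) (fun x => by
      have h1 := (hasDerivAt_pow 2 x).div_const 2
      have h3 := (hasDerivAt_pow 4 x).div_const 24
      have h4 := (hasDerivAt_pow 6 x).div_const 720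
      have h2 := (Real.hasDerivAt_cos x).sub (((h1.const_sub 1).add h3).sub h4)
      exact HasDerivAt.congr_deriv h2 (by push_cast; norm_num)) (by simp) (fun x hx => by
      have := hr_sin5 hx
      linarith only [this]) hx
  linarith only [h]

private theorem hr_sin7 {x : ℝ} (hx : 0 ≤ x) :
    x - x ^ (3 : ℕ) / 6 + x ^ (5 : ℕ) / 120 - x ^ (7 : ℕ) / 5040 ≤ Real.sin x := by
  have h := hr_nonneg (f := fun x => Real.sin x - (x - x ^ (3 : ℕ) / 6 + x ^ (5 : ℕ) / 120 - x ^ (7 : ℕ) / 5040))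
    (f' := fun x => Real.cos x - (1 - 3 * x ^ (2 : ℕ) / 6 + 5 * x ^ (4 : ℕ) / 120 - 7 * x ^ (6 : ℕ) / 5040))
    (fun x => by
      have h1 := (hasDerivAt_pow 3 x).div_const 6
      have h3 := (hasDerivAt_pow 5 x).div_const 120
      have h4 := (hasDerivAt_pow 7 x).div_const 5040
      have h2 := (Real.hasDerivAt_sin x).sub ((((hasDerivAt_id x).sub h1).add h3).sub h4)
      exact HasDerivAt.congr_deriv h2 (by push_cast; norm_num)) (by simp) (fun x hx => by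
      have := hr_cos6 hx
      linarith only [this]) hx
  linarith only [h]

private theorem hr_cos8 {x : ℝ} (hx : 0 ≤ x) :
    Real.cos x ≤ 1 - x ^ (2 : ℕ) / 2 + x ^ (4 : ℕ) / 24 - x ^ (6 : ℕ) / 720 + x ^ (8 : ℕ) / 40320 := by
  have h := hr_nonneg
    (f := fun x => (1 - x ^ (2 : ℕ) / 2 + x ^ (4 : ℕ) / 24 - x ^ (6 : ℕ) / 720 + x ^ (8 : ℕ) / 40320) - Real.cos x)
    (f' := fun x => (-(2 * x / 2) + 4 * x ^ (3 : ℕ) / 24 - 6 * x ^ (5 : ℕ) / 720 + 8 * x ^ (7 : ℕ) / 40320) +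
      Real.sin x) (fun x => by
      have h1 := (hasDerivAt_pow 2 x).div_const 2
      have h3 := (hasDerivAt_pow 4 x).div_const 24
      have h4 := (hasDerivAt_pow 6 x).div_const 720
      have h5 := (hasDerivAt_pow 8 x).div_const 40320
      have h2 := ((((h1.const_sub 1).add h3).sub h4).add h5).sub (Real.hasDerivAt_cos x)
      exact HasDerivAt.congr_deriv h2 (by push_cast; norm_num)) (by simp) (fun x hx => by
      have := hr_sin7 hx
      linarith only [this]) hx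
  linarith only [h]

private theorem hr_left {t : ℝ} (h0 : 0 ≤ t) (h2 : t ≤ 2) :
    7 / 20 * t ^ (2 : ℕ) ≤ 1 - Real.cos t := by
  have h := hr_cos8 h0
  have hw0 : 0 ≤ t ^ (2 : ℕ) := sq_nonneg t
  have hw : t ^ (2 : ℕ) ≤ 4 := by nlinarith only [h0, h2]
  obtain ⟨w, hw1⟩ : ∃ w, w = t ^ (2 : ℕ) := ⟨_, rfl⟩
  have e4 : t ^ (4 : ℕ) = w ^ (2 : ℕ) := by rw [hw1]; ring
  have e6 : t ^ (6 : ℕ) = w ^ (3 : ℕ) := by rw [hw1]; ring
  have e8 : t ^ (8 : ℕ) = w ^ (4 : ℕ) := by rw [hw1]; ring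
  rw [e4, e6, e8, ← hw1] at h
  rw [← hw1] at hw0 hw ⊢
  have key : 0 ≤ 3 / 20 - w / 24 + w ^ (2 : ℕ) / 720 - w ^ (3 : ℕ) / 40320 := by
    have h3 : w ^ (3 : ℕ) ≤ 4 * w ^ (2 : ℕ) := by nlinarith only [hw]
    nlinarith only [hw]
  have := mul_nonneg hw0 key
  linarith only [h, this]

private theorem hr_right {t : ℝ} (h0 : 0 ≤ t) (h2 : t ≤ 2) :
    6 / 25 * t ^ (2 : ℕ) ≤ (1 - Real.cos t) - 2 / 5 * (t - Real.sin t) := by
  have h := hr_cos8 h0
  have h' := hr_sin7 h0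
  have key : 0 ≤ 13 / 50 - t / 15 - t ^ (2 : ℕ) / 24 + t ^ (3 : ℕ) / 300 + t ^ (4 : ℕ) / 720 - t ^ (5 : ℕ) / 12600 -
      t ^ (6 : ℕ) / 40320 := by
    have h4 : 0 ≤ t ^ (4 : ℕ) := by (clear * -; positivity)
    have h5 : t ^ (5 : ℕ) ≤ 2 * t ^ (4 : ℕ) := by nlinarith only [h2, h4]
    have h6 : t ^ (6 : ℕ) ≤ 4 * t ^ (4 : ℕ) := by nlinarith only [h0, h5]
    have h7 : 0 ≤ 13 / 50 - t / 15 - t ^ (2 : ℕ) / 24 + t ^ (3 : ℕ) / 300 + t ^ (4 : ℕ) * (113 / 100000) := by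
      obtain ⟨u, hu⟩ : ∃ u, u = 2 - t := ⟨_, rfl⟩
      have ht : t = 2 - u := by rw [hu]; ring
      have hu0 : 0 ≤ u := by rw [hu]; linarith only [h2]
      have hu2 : u ≤ 2 := by rw [hu]; linarith only [h0]
      rw [ht]
      have e : 13 / 50 - (2 - u) / 15 - (2 - u) ^ (2 : ℕ) / 24 + (2 - u) ^ (3 : ℕ) / 300 +
          (2 - u) ^ (4 : ℕ) * (113 / 100000) = (13 / 50 - 2 / 15 - 4 / 24 + 8 / 300 + 16 * 113 / 100000) +
          u * ((1 / 15 + 4 / 24 - 12 / 300 - 32 * 113 / 100000) +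
            u * ((-1 / 24 + 6 / 300 + 24 * 113 / 100000) + u * ((-1 / 300 - 8 * 113 / 100000) +
              u * (113 / 100000)))) := by ring
      rw [e]
      nlinarith only [mul_nonneg hu0 (sub_nonneg.mpr hu2), mul_nonneg (mul_nonneg hu0 hu0) (sub_nonneg.mpr hu2)]
    nlinarith only [h5, h6, h7]
  have := mul_nonneg (sq_nonneg t) key
  linarith only [h, h', this]

private theorem hr_ff (α s y : ℝ) (u : ℝ) : ff (α + s * I) ((u : ℂ) + (y : ℂ) * I) =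
    u * y - α * (Real.exp u * Real.sin y - y) - s * (Real.exp u * Real.cos y - 1 - u) :=
  ff_eq α s u y

theorem hyp_R {δ α s : ℝ} (hδ : 0 < δ) (hδ' : δ ≤ 9 / 80) (hα : 22 / 100 ≤ α) (hs : 9 / 5 ≤ s)
    (hs' : s ≤ 12) (h1 : α ≤ 2 / 5 * s) :
    Hyp δ (α + s * I) I 2 2 4 (7 / 20 * s) (6 / 25 * s) (83 / 100) (22 / 100) (17 / 10) (7 / 10)
      1 1 := by
  have hs0 : 0 < s := by linarith only [hs, hs']
  have hα0 : 0 < α := by linarith only [hα]
  have hf : ∀ t : ℝ, ff (α + s * I) (t * I) = s * (1 - Real.cos t) + α * (t - Real.sin t) := by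
    intro t
    have h := ff_eq α s 0 t
    rw [Real.exp_zero, ofReal_zero, zero_add] at h
    rw [h]
    ring
  have hf' : ∀ t : ℝ, ff (α + s * I) (-(t * I)) = s * (1 - Real.cos t) - α * (t - Real.sin t) := by
    intro t
    have h := hf (-t)
    rw [Real.cos_neg, Real.sin_neg, ofReal_neg, neg_mul] at h
    rw [h]
    ring
  have hre : ∀ t : ℝ, (-((t : ℂ) * I)).re ≤ 0 := by
    intro t
    simp
  have hno : ∀ t : ℝ, 0 ≤ t → ‖-((t : ℂ) * I)‖ = t := by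
    intro t ht
    rw [norm_neg, norm_mul, Complex.norm_I, mul_one, Complex.norm_real, Real.norm_of_nonneg ht]
  refine ⟨hδ, ?_, I_ne_zero, by simp, by norm_num, by norm_num, by norm_num, by positivity,
    by (clear * - hs; positivity), by norm_num, by norm_num, by norm_num, by linarith only [hδ'], by norm_num, by norm_num,
    ?_, ?_, ?_, ?_, ?_, ?_, ?_⟩
  · -- `h ≠ 1`
    intro h
    have h2 := congrArg Complex.im h
    simp at h2
    linarith only [hs0, h2]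
  · -- `quad`
    intro t
    have e : (1 - ((α : ℂ) + s * I)) * (t * I) ^ (2 : ℕ) / 2 =
        ((-(t ^ (2 : ℕ) * (1 - α) / 2) : ℝ) : ℂ) + ((s * t ^ (2 : ℕ) / 2 : ℝ) : ℂ) * I := by
      push_cast
      linear_combination ((1 - (α : ℂ) - s * I) * t ^ (2 : ℕ) / 2) * I_sq
    have e2 : ((((-(t ^ (2 : ℕ) * (1 - α) / 2) : ℝ) : ℂ) + ((s * t ^ (2 : ℕ) / 2 : ℝ) : ℂ) * I)).im =
        s * t ^ (2 : ℕ) / 2 := by
      rw [add_im, ofReal_im, im_ofReal_mul, I_im]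
      ring
    rw [e, e2, max_eq_left (by linarith only [hs0])]
    linarith only [mul_nonneg hs0.le (sq_nonneg t)]
  · -- `right`
    intro t h0 h2
    rw [hf']
    have h3 := hr_right h0 h2
    have h4 : 0 ≤ t - Real.sin t := by
      have := Real.sin_le h0
      linarith only [this]
    have h5 := mul_le_mul_of_nonneg_right h1 h4
    have h6 := mul_le_mul_of_nonneg_left h3 hs0.le
    linarith only [h5, h6]
  · -- `left`
    intro t h0 h2
    rw [hf]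
    have h3 := hr_left h0 h2
    have h4 : 0 ≤ α * (t - Real.sin t) := by
      have := Real.sin_le h0
      exact mul_nonneg hα0.le (by linarith only [this])
    have h6 := mul_le_mul_of_nonneg_left h3 hs0.le
    linarith only [h4, h6]
  · -- `far`
    intro t h2
    rw [hf]
    rcases le_total t 4 with h4 | h4
    · rw [max_eq_right (by linarith only [h4]), mul_zero, add_zero]
      have h5 : Real.cos t ≤ 0 := by
        refine Real.cos_nonpos_of_pi_div_two_le_of_le ?_ ?_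
        · have := Real.pi_le_four
          linarith only [h2, this]
        · have := Real.pi_gt_three
          linarith only [h4, this]
      have h6 : 0 ≤ α * (t - Real.sin t) := by
        have := Real.sin_le (x := t) (by linarith only [h2])
        exact mul_nonneg hα0.le (by linarith only [this])
      nlinarith only [hs, h5, h6]
    · rw [max_eq_left (by linarith only [h4])]
      have h5 : Real.sin t ^ (2 : ℕ) / 2 ≤ 1 - Real.cos t := by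
        nlinarith only [Real.sin_sq_add_cos_sq t]
      have h6 := mul_le_mul_of_nonneg_left h5 hs0.le
      have h7 : 0 ≤ Real.sin t ^ (2 : ℕ) := sq_nonneg _
      have h8 : α * (5 / 4 * Real.sin t ^ (2 : ℕ)) ≤ s * (Real.sin t ^ (2 : ℕ) / 2) := by
        linarith only [mul_le_mul_of_nonneg_right h1 h7]
      have h9 : 0 ≤ α * (5 / 4 * (Real.sin t - 2 / 5) ^ (2 : ℕ)) := by (clear * - hα; positivity)
      have h10 : α * (t - 1 / 5) ≤ s * (1 - Real.cos t) + α * (t - Real.sin t) := by linarith only [h6, h8, h9]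
      have h11 : 22 / 100 * (t - 1 / 5) ≤ α * (t - 1 / 5) :=
        mul_le_mul_of_nonneg_right hα (by linarith only [h4])
      linarith only [h10, h11]
  · -- `side`
    intro u hu
    have e : -(((2 : ℝ) : ℂ) * I) + (u : ℂ) = (u : ℂ) + ((-2 : ℝ) : ℂ) * I := by
      push_cast
      ring
    rw [e, ff_eq, Real.cos_neg, Real.sin_neg]
    have hc : Real.cos 2 ≤ -(41 / 100) := by
      have := hr_cos8 (x := 2) (by norm_num)
      norm_num at this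
      linarith only [this]
    have hsn : 9 / 10 ≤ Real.sin 2 := by
      have := hr_sin7 (x := 2) (by norm_num)
      norm_num at this
      linarith only [this]
    have he : 1 + u ≤ Real.exp u := by
      have := Real.add_one_le_exp u
      linarith only [this]
    have h3 : (1 + u) * (9 / 10) ≤ Real.exp u * Real.sin 2 :=
      mul_le_mul he hsn (by norm_num) (by positivity)
    have h4 : (1 + u) * (41 / 100) ≤ Real.exp u * (-Real.cos 2) :=
      mul_le_mul he (by linarith only [hc]) (by norm_num) (by positivity)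
    have h5 := mul_le_mul_of_nonneg_left h3 hα0.le
    have h6 := mul_le_mul_of_nonneg_left h4 hs0.le
    have h7 : 0 ≤ (s - 9 / 5) * u := mul_nonneg (by linarith only [hs]) hu
    have h8 : 0 ≤ (α - 22 / 100) * u := mul_nonneg (by linarith only [hα]) hu
    nlinarith only [hs, h1, hu, h5, h6, h8]
  · -- `k2`
    intro t h0 _
    have h3 := taylor2_left (hre t)
    rw [hno t h0] at h3
    rw [Complex.norm_I, mul_one, one_mul]
    exact h3
  · -- `k3`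
    intro t h0 _
    have h3 := taylor3_left (hre t)
    rw [hno t h0] at h3
    rw [Complex.norm_I, mul_one, one_mul]
    exact h3

end SokamFU

end

/-! ### Lib_MP_af4de1_fu.MEstR -/

section
/-!
# Case R: the estimate [FU-M18]

`gen_fin` with `hyp_R`, `k = 3/20`.  `H = ‖h‖`, `κ = ‖1-h‖`, `q = 1`, `δ₀ = 9/80`: `H² = α² + s² ≤ 1.16 s²`, `s² ≤ κ² = (1-α)² + s² ≤ 1.188 s²`
(`|1-α| ≤ .78` if `α ≤ 1.78`; else `α - 1 ≤ .4 s`).
`lowErr = H/12 (1/(.35s)² + 1/(.24s)²) δ₀ + [(2 + .5114) e^(-7.378) + tiny] + tiny ≤ .2393 H/s² + .0017`,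
`√(2πδ₀/κ) = .84077/√κ`,
`upErr = .22156·.037734·(4.830 + 8.506) s^(-3/2) + (1/2)(18.667 + 10.54) e^(-7.378) + tiny ≤ .1115 s^(-3/2) + .0092`.
To show: `H upErr ≤ .15 κ (.84077/√κ - lowErr)`: by `H ≤ 1.0771 s`, `s ≤ κ ≤ 1.09 s`:
`1.0771 (.1115/√s + .0092 s) ≤ .15 (.84077 √s - .2811 - .0019 s)` for `1.8 ≤ s ≤ 12` (at `1.8`: `.1074 ≤ .1265`; at `12`: `.154 ≤ .391`).
-/

set_option autoImplicit false

namespace SokamFU

open Complex

private theorem estR_exp1 : Real.exp (-(83 / 100) / (9 / 80)) ≤ 64 / 100000 := by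
  have h1 : (27182818283 / 10000000000 : ℝ) < Real.exp 1 := by
    have := Real.exp_one_gt_d9
    norm_num at this ⊢
    exact this
  have h2 : Real.exp (332 / 45) = Real.exp 1 ^ (7 : ℕ) * Real.exp (17 / 45) := by
    rw [← Real.exp_nat_mul, ← Real.exp_add]
    norm_num
  have h3 : 1 + (17 / 45 : ℝ) + (17 / 45) ^ (2 : ℕ) / 2 ≤ Real.exp (17 / 45) :=
    Real.quadratic_le_exp_of_nonneg (by norm_num)
  have h4 : (27182818283 / 10000000000 : ℝ) ^ (7 : ℕ) ≤ Real.exp 1 ^ (7 : ℕ) :=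
    pow_le_pow_left₀ (by norm_num) h1.le 7
  have h5 : (100000 / 64 : ℝ) ≤ Real.exp (332 / 45) := by
    rw [h2]
    refine le_trans ?_ (mul_le_mul h4 h3 (by norm_num) (by positivity))
    norm_num
  have h6 : (-(83 / 100) / (9 / 80) : ℝ) = -(332 / 45) := by norm_num
  rw [h6, Real.exp_neg]
  refine (inv_anti₀ (by norm_num) h5).trans ?_
  norm_num

private theorem estR_exp2 {x : ℝ} (hx : x ≤ -15) : Real.exp x ≤ 1 / 100000 := by
  have h1 : (27 / 10 : ℝ) < Real.exp 1 := by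
    have := Real.exp_one_gt_d9
    refine lt_trans ?_ this
    norm_num
  have h4 : (27 / 10 : ℝ) ^ (15 : ℕ) ≤ Real.exp 1 ^ (15 : ℕ) :=
    pow_le_pow_left₀ (by norm_num) h1.le 15
  have h5 : (100000 : ℝ) ≤ Real.exp 15 := by
    have h2 : Real.exp 15 = Real.exp 1 ^ (15 : ℕ) := by
      rw [← Real.exp_nat_mul]
      norm_num
    rw [h2]
    refine le_trans ?_ h4
    norm_num
  calc Real.exp x ≤ Real.exp (-15) := Real.exp_le_exp.mpr hx
    _ = (Real.exp 15)⁻¹ := Real.exp_neg 15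
    _ ≤ (100000 : ℝ)⁻¹ := inv_anti₀ (by norm_num) h5
    _ = 1 / 100000 := by norm_num

private theorem estR_low {s H : ℝ} (hs : 9 / 5 ≤ s) (hH : 0 ≤ H) (hHs : H ≤ 10771 / 10000 * s) :
    lowErr (9 / 80) H 1 2 2 4 (7 / 20 * s) (6 / 25 * s) (83 / 100) (22 / 100) (17 / 10) (7 / 10) 1 ≤
      2578 / 10000 / s + 162 / 100000 := by
  have hs0 : 0 < s := by linarith only [hs, hH]
  have e1 := estR_exp1
  have e2 : Real.exp (-(7 / 20 * s * 2 ^ (2 : ℕ)) / (9 / 80)) ≤ 1 / 100000 := by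
    refine estR_exp2 ?_
    rw [div_le_iff₀ (by norm_num)]
    linarith only [hs]
  have e3 : Real.exp (-(6 / 25 * s * 2 ^ (2 : ℕ)) / (9 / 80)) ≤ 1 / 100000 := by
    refine estR_exp2 ?_
    rw [div_le_iff₀ (by norm_num)]
    linarith only [hs]
  have e4 : Real.exp (-(17 / 10) / (9 / 80)) ≤ 1 / 100000 := by
    refine estR_exp2 ?_
    norm_num
  have a1 : H * 1 ^ (4 : ℕ) / 12 * (1 / (7 / 20 * s) ^ (2 : ℕ) + 1 / (6 / 25 * s) ^ (2 : ℕ)) * (9 / 80) ≤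
      2578 / 10000 / s := by
    have e : H * 1 ^ (4 : ℕ) / 12 * (1 / (7 / 20 * s) ^ (2 : ℕ) + 1 / (6 / 25 * s) ^ (2 : ℕ)) * (9 / 80) =
        (H / s) * ((9 / 80) / 12 * (400 / 49 + 625 / 36)) / s := by
      field_simp
      ring
    rw [e]
    refine div_le_div_of_nonneg_right ?_ hs0.le
    have h : H / s ≤ 10771 / 10000 := by
      rw [div_le_iff₀ hs0]
      exact hHs
    calc H / s * ((9 / 80) / 12 * (400 / 49 + 625 / 36)) ≤
          10771 / 10000 * ((9 / 80) / 12 * (400 / 49 + 625 / 36)) :=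
          mul_le_mul_of_nonneg_right h (by norm_num)
      _ ≤ 2578 / 10000 := by norm_num
  have a2 : ((4 - 2) + (9 / 80 : ℝ) / (22 / 100)) * Real.exp (-(83 / 100) / (9 / 80)) ≤
      ((4 - 2) + (9 / 80 : ℝ) / (22 / 100)) * (64 / 100000) :=
    mul_le_mul_of_nonneg_left e1 (by norm_num)
  have a3 : (9 / 80 : ℝ) / (7 / 20 * s * 2) * Real.exp (-(7 / 20 * s * 2 ^ (2 : ℕ)) / (9 / 80)) ≤
      1 / 4 * (1 / 100000) := by
    refine mul_le_mul ?_ e2 (Real.exp_pos _).le (by norm_num)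
    rw [div_le_iff₀ (by positivity)]
    linarith only [hs]
  have a4 : (9 / 80 : ℝ) / (6 / 25 * s * 2) * Real.exp (-(6 / 25 * s * 2 ^ (2 : ℕ)) / (9 / 80)) ≤
      1 / 4 * (1 / 100000) := by
    refine mul_le_mul ?_ e3 (Real.exp_pos _).le (by norm_num)
    rw [div_le_iff₀ (by (clear * - hs; positivity))]
    linarith only [hs]
  have a5 : (9 / 80 : ℝ) / (7 / 10) * Real.exp (-(17 / 10) / (9 / 80)) ≤
      (9 / 80 : ℝ) / (7 / 10) * (1 / 100000) :=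
    mul_le_mul_of_nonneg_left e4 (by norm_num)
  unfold lowErr
  norm_num at a1 a2 a3 a4 a5 ⊢
  linarith only [a1, a2, a3, a4, a5]

private theorem estR_up {s w : ℝ} (hs : 9 / 5 ≤ s) (hw : 0 < w) (hws : w ^ (2 : ℕ) = s) :
    upErr (9 / 80) 1 0 2 2 4 (7 / 20 * s) (6 / 25 * s) (83 / 100) (22 / 100) (17 / 10) (7 / 10) 1 ≤
      1115 / 10000 / w ^ (3 : ℕ) + 936 / 100000 := by
  have hs0 : 0 < s := by linarith only [hs]
  have e1 := estR_exp1
  have e4 : Real.exp (2 * 0 - (17 / 10) / (9 / 80)) ≤ 1 / 100000 := by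
    refine estR_exp2 ?_
    norm_num
  have r1 : Real.sqrt (9 / 80 / (7 / 20 * s)) ≤ 567 / 1000 / w := by
    rw [Real.sqrt_le_left (by positivity), ← hws]
    have e : (9 / 80 : ℝ) / (7 / 20 * w ^ (2 : ℕ)) = 9 / 28 / w ^ (2 : ℕ) := by
      field_simp
      ring
    rw [e, div_pow]
    exact div_le_div_of_nonneg_right (by norm_num) (by (clear * - hw; positivity))
  have r2 : Real.sqrt (9 / 80 / (6 / 25 * s)) ≤ 6847 / 10000 / w := by
    rw [Real.sqrt_le_left (by (clear * - hw; positivity)), ← hws]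
    have e : (9 / 80 : ℝ) / (6 / 25 * w ^ (2 : ℕ)) = 15 / 32 / w ^ (2 : ℕ) := by
      field_simp
      ring
    rw [e, div_pow]
    exact div_le_div_of_nonneg_right (by norm_num) (by (clear * - hw; positivity))
  have r3 : Real.sqrt Real.pi ≤ 17725 / 10000 := by
    rw [Real.sqrt_le_left (by norm_num)]
    have := Real.pi_lt_d4
    norm_num at this ⊢
    linarith only [this]
  have a1 : (1 : ℝ) ^ (3 : ℕ) * (Real.sqrt Real.pi / 8) * (9 / 80 / (7 / 20 * s) *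
      Real.sqrt (9 / 80 / (7 / 20 * s)) + 1 * (9 / 80 / (6 / 25 * s)) *
      Real.sqrt (9 / 80 / (6 / 25 * s))) ≤ 1115 / 10000 / w ^ (3 : ℕ) := by
    have h1 : 9 / 80 / (7 / 20 * s) * Real.sqrt (9 / 80 / (7 / 20 * s)) +
        1 * (9 / 80 / (6 / 25 * s)) * Real.sqrt (9 / 80 / (6 / 25 * s)) ≤
        9 / 80 / (7 / 20 * s) * (567 / 1000 / w) +
        1 * (9 / 80 / (6 / 25 * s)) * (6847 / 10000 / w) :=
      add_le_add (mul_le_mul_of_nonneg_left r1 (by (clear * - hs; positivity)))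
        (mul_le_mul_of_nonneg_left r2 (by positivity))
    have h2 : (1 : ℝ) ^ (3 : ℕ) * (Real.sqrt Real.pi / 8) ≤ 17725 / 10000 / 8 := by
      rw [one_pow, one_mul]
      exact div_le_div_of_nonneg_right r3 (by norm_num)
    refine (mul_le_mul h2 h1 (by (clear * - hs; positivity)) (by norm_num)).trans ?_
    rw [← hws]
    have e : (17725 / 10000 / 8 : ℝ) * (9 / 80 / (7 / 20 * w ^ (2 : ℕ)) * (567 / 1000 / w) +
        1 * (9 / 80 / (6 / 25 * w ^ (2 : ℕ))) * (6847 / 10000 / w)) =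
        (17725 / 10000 / 8 * (9 / 28 * (567 / 1000) + 15 / 32 * (6847 / 10000))) / w ^ (3 : ℕ) := by
      field_simp
      ring
    rw [e]
    exact div_le_div_of_nonneg_right (by norm_num) (by positivity)
  have a2 : (1 : ℝ) ^ (3 : ℕ) / 2 * ((4 ^ (3 : ℕ) - 2 ^ (3 : ℕ)) / 3 + 9 / 80 / (22 / 100) *
      (4 ^ (2 : ℕ) + 2 * 4 * (9 / 80 / (22 / 100)) + 2 * (9 / 80 / (22 / 100)) ^ (2 : ℕ))) *
      Real.exp (-(83 / 100) / (9 / 80)) ≤ 935 / 100000 := by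
    refine (mul_le_mul_of_nonneg_left e1 (by norm_num)).trans ?_
    norm_num
  have a3 : Real.exp (2 * 0 - (17 / 10) / (9 / 80)) / 2 * ((2 * 1) ^ (2 : ℕ) / (7 / 10 / (9 / 80) - 1) +
      2 * (2 * 1) / (7 / 10 / (9 / 80) - 1) ^ (2 : ℕ) + 2 / (7 / 10 / (9 / 80) - 1) ^ (3 : ℕ)) ≤
      1 / 100000 := by
    refine (mul_le_mul_of_nonneg_right (div_le_div_of_nonneg_right e4 (by norm_num))
      (by norm_num)).trans ?_
    norm_num
  unfold upErr
  linarith only [a1, a2, a3]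

theorem est_R {δ α s : ℝ} (hδ : 0 < δ) (hδ' : δ ≤ 9 / 80) (hα : 22 / 100 ≤ α) (hs : 9 / 5 ≤ s)
    (hs' : s ≤ 12) (h1 : α ≤ 2 / 5 * s) :
    JJ δ (α + s * I) (-(2 * I)) I (fun _ => 1) ≠ 0 ∧
    ‖JJ δ (α + s * I) (-(2 * I)) I (fun v => v)‖ ≤
      3 / 20 * ‖JJ δ (α + s * I) (-(2 * I)) I (fun _ => 1)‖ := by
  have hs0 : 0 < s := by linarith only [hs, hs']
  have hα0 : 0 < α := by linarith only [hα]
  have hH := hyp_R hδ hδ' hα hs hs' h1
  obtain ⟨w, hw⟩ : ∃ w, w = Real.sqrt s := ⟨_, rfl⟩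
  have hw0 : 0 < w := by
    rw [hw]
    exact Real.sqrt_pos.mpr hs0
  have hws : w ^ (2 : ℕ) = s := by
    rw [hw]
    exact Real.sq_sqrt hs0.le
  obtain ⟨N, hN⟩ : ∃ N, N = ‖((α : ℂ) + s * I)‖ := ⟨_, rfl⟩
  obtain ⟨κ, hκ⟩ : ∃ κ, κ = ‖1 - ((α : ℂ) + s * I)‖ := ⟨_, rfl⟩
  have hN0 : 0 ≤ N := by
    rw [hN]
    exact norm_nonneg _
  have hκ0 : 0 ≤ κ := by
    rw [hκ]
    exact norm_nonneg _
  have hN2 : N ^ (2 : ℕ) = α ^ (2 : ℕ) + s ^ (2 : ℕ) := by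
    rw [hN, Complex.norm_add_mul_I, Real.sq_sqrt (by positivity)]
  have hκ2 : κ ^ (2 : ℕ) = (1 - α) ^ (2 : ℕ) + s ^ (2 : ℕ) := by
    have e : (1 : ℂ) - ((α : ℂ) + s * I) = ((1 - α : ℝ) : ℂ) + ((-s : ℝ) : ℂ) * I := by
      push_cast
      ring
    rw [hκ, e, Complex.norm_add_mul_I, Real.sq_sqrt (by (clear * -; positivity)), neg_sq]
  have hNs : N ≤ 10771 / 10000 * s := by
    refine abs_le_of_sq_le_sq' ?_ (by (clear * - hs; positivity)) |>.2
    rw [hN2]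
    nlinarith only [h1, hα0]
  have hκs : κ ≤ 109 / 100 * s := by
    refine abs_le_of_sq_le_sq' ?_ (by positivity) |>.2
    rw [hκ2]
    rcases le_total α (178 / 100) with h | h
    · nlinarith only [hα, hs, h1]
    · nlinarith only [hN0, hN2, hNs, h]
  have hsκ : s ≤ κ := by
    refine abs_le_of_sq_le_sq' ?_ hκ0 |>.2
    rw [hκ2]
    nlinarith only []
  have hκ1 : 0 < κ := by linarith only [hs0, hsκ]
  obtain ⟨x, hx⟩ : ∃ x, x = Real.sqrt (2 * Real.pi * (9 / 80) / κ) := ⟨_, rfl⟩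
  have hxw : 84 / 100 * w ≤ κ * x := by
    have h2 : 84 / 100 * w / κ ≤ x := by
      rw [hx]
      refine Real.le_sqrt_of_sq_le ?_
      rw [div_pow, mul_pow, hws, div_le_div_iff₀ (by (clear * - hκ1; positivity)) hκ1]
      have hpi := Real.pi_gt_d2
      norm_num at hpi
      have h3 : (84 / 100 : ℝ) ^ (2 : ℕ) * s ≤ 2 * Real.pi * (9 / 80) * κ := by nlinarith only [hκs, hsκ, hpi]
      nlinarith only [hκ1, h3]
    rw [div_le_iff₀ hκ1] at h2
    linarith only [h2]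
  have hlow := estR_low hs hN0 hNs
  have hup := estR_up hs hw0 hws
  obtain ⟨L, hL⟩ : ∃ L, L = lowErr (9 / 80) N 1 2 2 4 (7 / 20 * s) (6 / 25 * s) (83 / 100)
    (22 / 100) (17 / 10) (7 / 10) 1 := ⟨_, rfl⟩
  obtain ⟨U, hU⟩ : ∃ U, U = upErr (9 / 80) 1 0 2 2 4 (7 / 20 * s) (6 / 25 * s) (83 / 100)
    (22 / 100) (17 / 10) (7 / 10) 1 := ⟨_, rfl⟩
  rw [← hL] at hlow
  rw [← hU] at hup
  have hκL : κ * L ≤ 282 / 1000 + 177 / 100000 * s := by
    have h2 : κ * L ≤ κ * (2578 / 10000 / s + 162 / 100000) :=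
      mul_le_mul_of_nonneg_left hlow hκ0
    have h3 : κ * (2578 / 10000 / s + 162 / 100000) ≤
        109 / 100 * s * (2578 / 10000 / s + 162 / 100000) :=
      mul_le_mul_of_nonneg_right hκs (by positivity)
    have h4 : 109 / 100 * s * (2578 / 10000 / s + 162 / 100000) =
        109 / 100 * (2578 / 10000) + 109 / 100 * (162 / 100000) * s := by
      field_simp
    linarith only [hκs, hκ1, h2, h3, h4]
  have hNU : N * U ≤ 1202 / 10000 / w + 1009 / 100000 * s := by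
    have h2 : N * U ≤ N * (1115 / 10000 / w ^ (3 : ℕ) + 936 / 100000) :=
      mul_le_mul_of_nonneg_left hup hN0
    have h3 : N * (1115 / 10000 / w ^ (3 : ℕ) + 936 / 100000) ≤
        10771 / 10000 * s * (1115 / 10000 / w ^ (3 : ℕ) + 936 / 100000) :=
      mul_le_mul_of_nonneg_right hNs (by (clear * - hw0; positivity))
    have h4 : 10771 / 10000 * s * (1115 / 10000 / w ^ (3 : ℕ) + 936 / 100000) =
        10771 / 10000 * (1115 / 10000) / w + 10771 / 10000 * (936 / 100000) * s := by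
      rw [← hws]
      field_simp
    have h5 : 10771 / 10000 * (1115 / 10000) / w ≤ 1202 / 10000 / w :=
      div_le_div_of_nonneg_right (by norm_num) hw0.le
    linarith only [hκs, hsκ, h2, h3, h4, h5]
  have hw1 : 134 / 100 ≤ w := by
    refine abs_le_of_sq_le_sq' ?_ hw0.le |>.2
    rw [hws]
    norm_num
    linarith only [hs]
  have hw2 : w ≤ 347 / 100 := by
    refine abs_le_of_sq_le_sq' ?_ (by norm_num) |>.2
    rw [hws]
    norm_num
    linarith only [hs']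
  have hkey : 1202 / 10000 / w + 1009 / 100000 * s ≤
      3 / 20 * (84 / 100 * w - (282 / 1000 + 177 / 100000 * s)) := by
    rw [← hws]
    have h2 : 1202 / 10000 / w + 1009 / 100000 * w ^ (2 : ℕ) =
        (1202 / 10000 + 1009 / 100000 * w ^ (3 : ℕ)) / w := by
      field_simp
    rw [h2, div_le_iff₀ hw0]
    nlinarith only [mul_nonneg (sub_nonneg.mpr hw1) (sub_nonneg.mpr hw2)]
  have hlt : 282 / 1000 + 177 / 100000 * s < 84 / 100 * w := by
    rw [← hws]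
    nlinarith only [hw1, hw2]
  have hne : ‖(I : ℂ)‖ = 1 := Complex.norm_I
  have hre : |(I : ℂ).re| = 0 := by simp
  have hpos : lowErr (9 / 80) ‖((α : ℂ) + s * I)‖ ‖(I : ℂ)‖ 2 2 4 (7 / 20 * s) (6 / 25 * s)
      (83 / 100) (22 / 100) (17 / 10) (7 / 10) 1 <
      Real.sqrt (2 * Real.pi * (9 / 80) / ‖1 - ((α : ℂ) + s * I)‖) := by
    rw [hne, ← hN, ← hκ, ← hL, ← hx]
    have h2 : κ * L < κ * x := by linarith only [hxw, hκL, hlt]
    exact lt_of_mul_lt_mul_left h2 hκ0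
  have hnum : ‖((α : ℂ) + s * I)‖ * upErr (9 / 80) ‖(I : ℂ)‖ |(I : ℂ).re| 2 2 4 (7 / 20 * s)
      (6 / 25 * s) (83 / 100) (22 / 100) (17 / 10) (7 / 10) 1 ≤
      3 / 20 * ‖1 - ((α : ℂ) + s * I)‖ *
        (Real.sqrt (2 * Real.pi * (9 / 80) / ‖1 - ((α : ℂ) + s * I)‖) -
        lowErr (9 / 80) ‖((α : ℂ) + s * I)‖ ‖(I : ℂ)‖ 2 2 4 (7 / 20 * s) (6 / 25 * s)
          (83 / 100) (22 / 100) (17 / 10) (7 / 10) 1) := by
    rw [hne, hre, ← hN, ← hκ, ← hL, ← hU, ← hx]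
    have h2 : 3 / 20 * κ * (x - L) = 3 / 20 * (κ * x - κ * L) := by ring
    rw [h2]
    linarith only [hxw, hκL, hNU, hkey]
  have h := gen_fin hH hδ' (by norm_num) (by norm_num) (by norm_num) (k := 3 / 20) (by norm_num)
    hpos hnum
  have e : (((2 : ℝ) : ℂ) * I) = 2 * I := by
    push_cast
    rfl
  rw [e] at h
  exact h

end SokamFU

end

/-! ### Lib_MP_af4de1_fu.MGap -/

section
/-!
# The distance of the real parts [FU-M24]
-/

set_option autoImplicit false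

namespace SokamFU

open Real

theorem exp_half_lt : exp (1 / 2 : ℝ) < 165 / 100 := by
  have h1 : exp (1 / 2 : ℝ) * exp (1 / 2 : ℝ) = exp 1 := by
    rw [← exp_add]; norm_num
  have h2 := exp_one_lt_d9
  by_contra h
  push Not at h
  nlinarith only [h1, h2, h]

/-- If `a ≤ -3/10`: `a' ≥ 22/100` (`Sad.right_facts`).  If `-3/10 ≤ a ≤ 0`: `cos σ ≥ -.405`, `s ≥ .677 ρ`, `σ ≤ π/2 + .42`, so `y ≥ .677 ρ - 1.99`;
and `ρ e^(a') ≥ s' = σ' + y + 2π ≥ 1.19 + .677 ρ + 4.29`, so `e^(a') ≥ .677 + 5.48/4.5 = 1.89 > e^.6`. -/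
theorem gap_neg {ρ y a σ a' σ' : ℝ} (h1 : 1 ≤ ρ) (h2 : ρ ≤ 9 / 2) (H : Sad ρ y a σ)
    (H' : Sad ρ (y + 2 * π) a' σ') (ha : a ≤ 0) (hy : ρ - 3 / 8 ≤ y + 2 * π)
    (hy' : y ≤ ρ - 3 / 8) : 1 / 2 ≤ a' - a := by
  have hπ1 := pi_gt_d6
  have hπ2 := pi_lt_d6
  obtain ⟨r1, r2, r3⟩ := H'.right_facts h1 h2 hy (by linarith only [hy'])
  rcases le_or_gt a (-(3 / 10)) with h | h
  · linarith only [r1, h]
  obtain ⟨q1, -, -, -, -, q2⟩ := H'.pos_facts h1 (by linarith only [r1])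
  obtain ⟨-, p2⟩ := H.neg_s h1 h2 ha
  have e1 : 7 / 10 ≤ exp a := by linarith only [h, add_one_le_exp a]
  have e2 : 7 / 10 * ρ ≤ ρ * exp a := by nlinarith only [h1, e1]
  have c1 : -(1 / 2) ≤ cos σ := by
    by_contra hc
    push Not at hc
    have := H.C
    nlinarith only [h1, h, e2, hc, this]
  have c2 : cos σ ≤ 0 := by
    by_contra hc
    push Not at hc
    have h3 := H.C
    have h4 : 0 < ρ * exp a * cos σ := by positivity
    linarith only [ha, h3, h4]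
  have s0 : 0 ≤ sin σ := sin_nonneg_of_nonneg_of_le_pi H.σ0 H.σπ
  have s1 : 86 / 100 ≤ sin σ := by
    have := sin_sq_add_cos_sq σ
    by_contra hc
    push Not at hc
    nlinarith only [c1, c2, s0, this, hc]
  have s2 : 6 / 10 * ρ ≤ σ + y := by
    rw [← H.S]
    nlinarith only [h1, e2, s1]
  have s3 : σ ≤ π - π / 3 := by
    by_contra hc
    push Not at hc
    have h3 : cos σ < cos (π - π / 3) := by
      apply strictAntiOn_cos _ _ hc
      · constructor <;> linarith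
      · exact ⟨H.σ0, H.σπ⟩
    rw [cos_pi_sub, cos_pi_div_three] at h3
    linarith only [c1, h3]
  have f1 : 165 / 100 * ρ ≤ ρ * exp a' := by linarith only [h2, hπ1, q1, q2, s2, s3]
  have f2 : 165 / 100 ≤ exp a' := by
    by_contra hc
    push Not at hc
    nlinarith only [h1, f1, hc]
  have f3 : exp (1 / 2 : ℝ) < exp a' := lt_of_lt_of_le exp_half_lt f2
  have f4 := exp_lt_exp.1 f3
  linarith only [ha, f4]

/-- `s' - s = 2π + σ' - σ ≥ 2π - .381`, `ρ e^(a') ≥ s'`, `s ≥ .929 ρ e^a`, `s ≤ ρ + 1.196`, so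
`e^(a'-a) ≥ .929 + 5.9 ·.929/(ρ + 1.196) ≥ .929 + .962`. -/
theorem gap_pos {ρ y a σ a' σ' : ℝ} (h1 : 1 ≤ ρ) (h2 : ρ ≤ 9 / 2) (H : Sad ρ y a σ)
    (H' : Sad ρ (y + 2 * π) a' σ') (ha : 0 ≤ a) (hy' : y ≤ ρ - 3 / 8) : 1 / 2 ≤ a' - a := by
  have hπ1 := pi_gt_d6
  have hπ2 := pi_lt_d6
  obtain ⟨p1, p2, -, p3, p4, p5⟩ := H.pos_facts h1 ha
  obtain ⟨r1, r2, r3⟩ := H'.right_facts h1 h2 (by linarith only [h2, p1, p2, p3]) (by linarith only [hy'])
  obtain ⟨q1, -, -, -, -, q2⟩ := H'.pos_facts h1 (by linarith only [r1])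
  have f1 : 165 / 100 * (ρ * exp a) ≤ ρ * exp a' := by linarith only [hπ1, p2, p4, r3, q1, q2]
  have f2 : 165 / 100 * exp a ≤ exp a' := by
    by_contra hc
    push Not at hc
    nlinarith only [h1, f1, hc]
  have f3 : exp (a + 1 / 2) < exp a' := by
    rw [exp_add]
    have := exp_half_lt
    have := exp_pos a
    nlinarith
  have f4 := exp_lt_exp.1 f3
  linarith only [f4]

end SokamFU

end

/-! ### Lib_MP_af4de1_fu.MFin -/

section
/-!
# F2, part I: `0 < δ ≤ 9/80`, `1 ≤ δ r ≤ 9/2` ⇒ `Dist δ r`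
-/

set_option autoImplicit false

namespace SokamFU

open Complex MeasureTheory Set

theorem kk_ne (ρ δ ψ : ℝ) (g : ℂ) : kk ρ δ ψ g ≠ 0 := Complex.exp_ne_zero _

/-- `ρ e^(a+iσ) = a + i s` in complex form -/
theorem exp_form {ρ a σ s : ℝ} (hC : ρ * Real.exp a * Real.cos σ = a)
    (hS : ρ * Real.exp a * Real.sin σ = s) : (ρ : ℂ) * cexp (a + σ * I) = a + s * I := by
  have h1 : cexp ((a : ℂ) + σ * I) = ((Real.exp a * Real.cos σ : ℝ) : ℂ) +
      ((Real.exp a * Real.sin σ : ℝ) : ℂ) * I := by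
    rw [Complex.exp_add, Complex.exp_mul_I, ← Complex.ofReal_exp, ← Complex.ofReal_cos,
      ← Complex.ofReal_sin]
    push_cast; ring
  rw [h1]
  have h2 : (a : ℂ) = ((ρ * Real.exp a * Real.cos σ : ℝ) : ℂ) := by rw [hC]
  have h3 : (s : ℂ) = ((ρ * Real.exp a * Real.sin σ : ℝ) : ℂ) := by rw [hS]
  rw [h3]
  conv_rhs => rw [h2]
  push_cast; ring

/-- the ratio in terms of the local integrals -/
theorem ratio_re {K J0 J1 g : ℂ} (hK : K ≠ 0) (hJ : J0 ≠ 0) :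
    (K * (g * J0 + J1) / (K * J0)).re = g.re + (J1 / J0).re := by
  rw [mul_div_mul_left _ _ hK, add_div, mul_div_cancel_right₀ _ hJ, add_re]

theorem re_div_le {J0 J1 : ℂ} {k : ℝ} (hJ : J0 ≠ 0) (h : ‖J1‖ ≤ k * ‖J0‖) : |(J1 / J0).re| ≤ k := by
  refine (abs_re_le_norm _).trans ?_
  rw [norm_div, div_le_iff₀ (norm_pos_iff.mpr hJ)]
  exact h

/-- right contour -/
theorem right_pt {ρ δ ψ a σ : ℝ} (hδ : 0 < δ) (hδ' : δ ≤ 9 / 80) (h1 : 1 ≤ ρ) (h2 : ρ ≤ 9 / 2)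
    (H : Sad ρ ψ a σ) (hψ : ρ - 3 / 8 ≤ ψ) (hψ' : ψ ≤ ρ - 3 / 8 + 2 * Real.pi) :
    SR ρ δ ψ 0 ≠ 0 ∧ a - 3 / 20 ≤ (SR ρ δ ψ 1 / SR ρ δ ψ 0).re := by
  have hρ : 0 < ρ := by linarith only [h1]
  obtain ⟨ra, rs, rs'⟩ := H.right_facts h1 h2 hψ hψ'
  obtain ⟨p1, p2, p3, p4, p5, p6⟩ := H.pos_facts h1 (by linarith : 0 ≤ a)
  obtain ⟨e0, e1⟩ := est_R hδ hδ' ra rs rs' p3
  have hpi := Real.pi_gt_three
  have hpi' := Real.pi_lt_d2
  have hh : (ρ : ℂ) * cexp (a + σ * I) = a + (σ + ψ : ℝ) * I := exp_form H.C H.S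
  have hg : (a : ℂ) + (σ + ψ : ℝ) * I = (a + σ * I) + ψ * I := by push_cast; ring
  obtain ⟨l0, l1⟩ := SR_loc hρ hδ (ψ := ψ) (p := -(2 * I)) hg hh
    (by simp; linarith only [ra]) (by simp; linarith only [p1, p2]) (by simp; linarith only [p2, hpi'])
  have hk := kk_ne ρ δ ψ ((a : ℂ) + σ * I)
  refine ⟨by rw [l0]; exact mul_ne_zero hk e0, ?_⟩
  rw [l0, l1, ratio_re hk e0]
  have h3 := (abs_le.mp (re_div_le e0 e1)).1
  have h4 : ((a : ℂ) + σ * I).re = a := by simp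
  rw [h4]; linarith only [h3]

/-- left contour from an estimate of the local integrals -/
theorem left_gen {ρ δ ψ : ℝ} (hρ : 0 < ρ) (hδ : 0 < δ) {g h p : ℂ} (hg : h = g + ψ * I)
    (hh : ρ * cexp g = h) {m : ℝ} (hm : 0 < m) (h1 : -Real.pi < (g + p).im)
    (h2 : (g + p).im < 0) {k : ℝ} (e0 : JJ δ h p (-(1 + m * I)) (fun _ => 1) ≠ 0)
    (e1 : ‖JJ δ h p (-(1 + m * I)) (fun v => v)‖ ≤ k * ‖JJ δ h p (-(1 + m * I)) (fun _ => 1)‖) :
    SL ρ δ ψ 0 ≠ 0 ∧ (SL ρ δ ψ 1 / SL ρ δ ψ 0).re ≤ g.re + k := by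
  obtain ⟨l0, l1⟩ := SL_loc hρ hδ hg hh hm h1 h2
  have hk : -kk ρ δ ψ g ≠ 0 := neg_ne_zero.mpr (kk_ne ρ δ ψ g)
  refine ⟨by rw [l0]; exact mul_ne_zero hk e0, ?_⟩
  rw [l0, l1, ratio_re hk e0]
  linarith only [(abs_le.mp (re_div_le e0 e1)).2]

theorem left_A {ρ δ ψ a σ : ℝ} (hδ : 0 < δ) (hδ' : δ ≤ 9 / 80) (h1 : 1 ≤ ρ) (h2 : ρ ≤ 9 / 2)
    (H : Sad ρ (-ψ) a σ) (ha : a ≤ 0) (hψ : 5 / 8 ≤ ψ) :
    SL ρ δ ψ 0 ≠ 0 ∧ (SL ρ δ ψ 1 / SL ρ δ ψ 0).re ≤ a + 1 / 10 := by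
  have hρ : 0 < ρ := by linarith only [h1]
  have hpi := Real.pi_gt_three
  have hpi' := Real.pi_lt_d2
  have s0 := H.s_nonneg h1
  obtain ⟨n1, n2⟩ := H.neg_s h1 h2 ha
  have a0 := H.a_ge h1 h2
  have hσπ := H.σπ
  obtain ⟨e0, e1⟩ := est_A hδ hδ' (α := -a) (β := σ + -ψ) (by linarith only [ha]) (by linarith only [a0]) s0 (by linarith only [hψ, hpi', hσπ])
  have eh : (-(((-a : ℝ) : ℂ) + ((σ + -ψ : ℝ) : ℂ) * I)) = (a : ℂ) + ((-(σ + -ψ) : ℝ) : ℂ) * I := by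
    push_cast; ring
  rw [eh] at e0 e1
  have hh : (ρ : ℂ) * cexp (a + ((-σ : ℝ) : ℂ) * I) = a + ((-(σ + -ψ) : ℝ) : ℂ) * I :=
    exp_form (by rw [Real.cos_neg]; exact H.C) (by rw [Real.sin_neg, ← H.S]; ring)
  have hg : (a : ℂ) + ((-(σ + -ψ) : ℝ) : ℂ) * I = (a + ((-σ : ℝ) : ℂ) * I) + ψ * I := by
    push_cast; ring
  have h5 := left_gen hρ hδ hg hh (m := 1 / 2) (by norm_num) (p := 6 / 5 * (1 + (1 / 2 : ℝ) * I))
    (by simp; linarith only [hσπ]) (by simp; linarith only [hψ, s0]) e0 e1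
  have h4 : ((a : ℂ) + ((-σ : ℝ) : ℂ) * I).re = a := by simp
  rw [h4] at h5
  exact h5

theorem left_B {ρ δ ψ a σ : ℝ} (hδ : 0 < δ) (hδ' : δ ≤ 9 / 80) (h1 : 1 ≤ ρ) (h2 : ρ ≤ 9 / 2)
    (H : Sad ρ (ψ - 2 * Real.pi) a σ) (hψ : ψ ≤ ρ - 3 / 8 + 2 * Real.pi) :
    SL ρ δ ψ 0 ≠ 0 ∧ (SL ρ δ ψ 1 / SL ρ δ ψ 0).re ≤ a + 3 / 10 := by
  have hρ : 0 < ρ := by linarith only [h1]
  have hpi := Real.pi_gt_three
  have hpi' := Real.pi_lt_d2
  have s0 := H.s_nonneg h1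
  have hσπ := H.σπ
  have hσ : 119 / 100 ≤ σ := by
    rcases le_total a 0 with ha | ha
    · have := (H.neg_s h1 h2 ha).2; linarith only [hpi, this]
    · exact (H.pos_facts h1 ha).1
  have hE : JJ δ (a + (σ + (ψ - 2 * Real.pi) : ℝ) * I) (4 / 5 * (1 + (5 / 2 : ℝ) * I))
      (-(1 + (5 / 2 : ℝ) * I)) (fun _ => 1) ≠ 0 ∧
    ‖JJ δ (a + (σ + (ψ - 2 * Real.pi) : ℝ) * I) (4 / 5 * (1 + (5 / 2 : ℝ) * I))
      (-(1 + (5 / 2 : ℝ) * I)) (fun v => v)‖ ≤
      3 / 10 * ‖JJ δ (a + (σ + (ψ - 2 * Real.pi) : ℝ) * I) (4 / 5 * (1 + (5 / 2 : ℝ) * I))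
        (-(1 + (5 / 2 : ℝ) * I)) (fun _ => 1)‖ := by
    rcases le_total a 0 with ha | ha
    · exact est_B1 hδ hδ' ha (H.a_ge h1 h2) s0 (H.neg_s h1 h2 ha).1
    · obtain ⟨p1, p2, p3, p4, p5, p6⟩ := H.pos_facts h1 ha
      obtain ⟨q1, q2⟩ := H.left_facts h1 h2 ha (by linarith only [hψ])
      exact est_B2 hδ hδ' ha p4 q1 p3 q2
  obtain ⟨e0, e1⟩ := hE
  have hh : (ρ : ℂ) * cexp (a + ((σ - 2 * Real.pi : ℝ) : ℂ) * I) =
      a + (σ + (ψ - 2 * Real.pi) : ℝ) * I :=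
    exp_form (by rw [Real.cos_sub_two_pi]; exact H.C) (by rw [Real.sin_sub_two_pi]; exact H.S)
  have hg : (a : ℂ) + (σ + (ψ - 2 * Real.pi) : ℝ) * I =
      (a + ((σ - 2 * Real.pi : ℝ) : ℂ) * I) + ψ * I := by push_cast; ring
  have h5 := left_gen hρ hδ hg hh (m := 5 / 2) (by norm_num) (p := 4 / 5 * (1 + (5 / 2 : ℝ) * I))
    (by simp; linarith only [hpi', hσ]) (by simp; linarith only [hpi, hσπ]) e0 e1
  have h4 : ((a : ℂ) + ((σ - 2 * Real.pi : ℝ) : ℂ) * I).re = a := by simp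
  rw [h4] at h5
  exact h5

theorem main_pt {ρ δ ψ : ℝ} (hδ : 0 < δ) (hδ' : δ ≤ 9 / 80) (h1 : 1 ≤ ρ) (h2 : ρ ≤ 9 / 2)
    (hψ : ρ - 3 / 8 ≤ ψ) (hψ' : ψ ≤ ρ - 3 / 8 + 2 * Real.pi) :
    SL ρ δ ψ 0 ≠ 0 ∧ SR ρ δ ψ 0 ≠ 0 ∧
      (SL ρ δ ψ 1 / SL ρ δ ψ 0).re < (SR ρ δ ψ 1 / SR ρ δ ψ 0).re := by
  have hpi := Real.pi_gt_three
  have hpi' := Real.pi_lt_d2
  obtain ⟨a', σ', HR⟩ := exists_sad (y := ψ) h1 h2 (by linarith only [h1, hψ, hψ']) hψ'
  obtain ⟨r0, r1⟩ := right_pt hδ hδ' h1 h2 HR hψ hψ'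
  rcases le_total ψ Real.pi with hc | hc
  · obtain ⟨a, σ, HL⟩ := exists_sad (y := -ψ) h1 h2 (by linarith only [hc]) (by linarith only [h1, hψ, hψ'])
    have ha := HL.low_facts h1 (by linarith only [h1, hψ])
    obtain ⟨l0, l1⟩ := left_A hδ hδ' h1 h2 HL ha (by linarith only [h1, hψ])
    have hg := HR.right_a h1 (by linarith only [hψ, hc, Real.pi_lt_d4]) hψ
    exact ⟨l0, r0, by linarith only [r1, ha, l1, hg]⟩
  · obtain ⟨a, σ, HL⟩ := exists_sad (y := ψ - 2 * Real.pi) h1 h2 (by linarith only [hc]) (by linarith only [hψ', hpi])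
    obtain ⟨l0, l1⟩ := left_B hδ hδ' h1 h2 HL hψ'
    have HR' : Sad ρ ((ψ - 2 * Real.pi) + 2 * Real.pi) a' σ' := by
      rw [sub_add_cancel]; exact HR
    have hg : 1 / 2 ≤ a' - a := by
      rcases le_total a 0 with ha | ha
      · exact gap_neg h1 h2 HL HR' ha (by linarith only [hψ]) (by linarith only [hψ'])
      · exact gap_pos h1 h2 HL HR' ha (by linarith only [hψ'])
    exact ⟨l0, r0, by linarith only [r1, l1, hg]⟩

theorem dist_mid {δ r : ℝ} (hδ : 0 < δ) (hδ' : δ ≤ 9 / 80) (h1 : 1 ≤ δ * r) (h2 : δ * r ≤ 9 / 2) :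
    Dist δ r := by
  have h3 := dist_of (ρ := δ * r) (by linarith only [h1]) hδ (δ * r - 3 / 8)
    (fun ψ hψ => main_pt hδ hδ' h1 h2 hψ.1 hψ.2)
  rwa [mul_div_cancel_left₀ _ hδ.ne'] at h3

end SokamFU

end

/-! ### Lib_MP_af4de1_q.QGap -/

section
namespace SokamFU
end SokamFU
/-!
# The distance of the real parts, `9/2 ≤ ρ ≤ 8` [FQ-3]
-/

set_option autoImplicit false

namespace SokamQ

open Real SokamFU

variable {ρ y a σ a' σ' : ℝ}

private theorem exp_ub_qgap {x u : ℝ} (hx : 0 ≤ x) (hx1 : x ≤ 1)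
    (h : 1 + x + x ^ (2 : ℕ) / 2 + x ^ (3 : ℕ) / 6 + x ^ (4 : ℕ) * 5 / 96 ≤ u) : exp x ≤ u := by
  refine le_trans ?_ h
  have h1 := Real.exp_bound' hx hx1 (n := 4) (by norm_num)
  simp only [Finset.sum_range_succ, Finset.sum_range_zero, Nat.factorial] at h1
  norm_num at h1
  linarith only [h1]

private theorem exp_neg_lb_qgap {x u : ℝ} (hx : 0 ≤ x) (hx1 : x ≤ 1) (hu : 0 < u)
    (h : (1 + x + x ^ (2 : ℕ) / 2 + x ^ (3 : ℕ) / 6 + x ^ (4 : ℕ) * 5 / 96) * u ≤ 1) : u ≤ exp (-x) := by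
  rw [exp_neg, le_inv_comm₀ hu (exp_pos x)]
  refine exp_ub_qgap hx hx1 ?_
  rw [← one_div, le_div_iff₀ hu]
  exact h

private theorem s_le_qgap (H : Sad ρ y a σ) (h1 : 9 / 2 ≤ ρ) : σ + y ≤ ρ * exp a := by
  rw [← H.S]
  have h3 : 0 < ρ * exp a := mul_pos (by linarith only [h1]) (exp_pos a)
  calc ρ * exp a * sin σ ≤ ρ * exp a * 1 := mul_le_mul_of_nonneg_left (sin_le_one σ) h3.le
    _ = ρ * exp a := mul_one _

/-- the angle of the left saddle for `-.21 ≤ a` -/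
private theorem sig_qgap (H : Sad ρ y a σ) (h1 : 9 / 2 ≤ ρ) (ha : -(21 / 100) ≤ a) :
    σ ≤ π / 2 * (1058 / 1000) := by
  rcases le_or_gt σ (π / 2) with h | h
  · have := pi_pos
    linarith only [h, this]
  · have h2 := mul_le_sin (x := σ - π / 2) (by linarith only [h]) (by linarith only [H.σπ])
    rw [sin_sub_pi_div_two] at h2
    have he : (81 / 100 : ℝ) ≤ exp a := by
      have h3 : (81 / 100 : ℝ) ≤ exp (-(21 / 100)) :=
        exp_neg_lb_qgap (by norm_num) (by norm_num) (by norm_num) (by norm_num)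
      exact h3.trans (exp_le_exp.2 ha)
    have h3 : (-(58 / 1000) : ℝ) ≤ cos σ := by
      by_contra hc
      push Not at hc
      have h4 : (9 / 2 : ℝ) * (81 / 100) ≤ ρ * exp a :=
        mul_le_mul h1 he (by norm_num) (by linarith only [h1])
      have h5 := H.C
      have h6 : ρ * exp a * cos σ ≤ ρ * exp a * (-(58 / 1000)) :=
        mul_le_mul_of_nonneg_left hc.le (by linarith only [h4])
      linarith only [ha, h4, h5, h6]
    have h4 : 2 / π * (σ - π / 2) ≤ 58 / 1000 := by linarith only [h2, h3]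
    have hpi := pi_pos
    have h5 : 2 / π * (σ - π / 2) = (2 * (σ - π / 2)) / π := by ring
    rw [h5, div_le_iff₀ hpi] at h4
    linarith only [h4]

/-- `a ≥ 0`: `s' = s + 2π + σ' - σ ≥ s + 6.15`, `ρ e^(a') ≥ s'`, `ρ e^a ≤ 1.004 s`, `s ≤ 9.83`, so `e^(a'-a) ≥ 1.61`.
`a ≤ 0`, `y + 2π ≥ ρ + 27/10`: `ρ e^(a') ≥ s' ≥ ρ + 4.14`, `e^(a') ≥ 1.5175`, `a' ≥ .41` (`e^.41 ≤ 1.5069`).
`a ≤ 0`, `y + 2π ≤ ρ + 27/10`: if `a > -.21`, then `cos σ ≥ -.0576`, `σ ≤ 1.6613` (`cos σ ≤ 1 - (2/π) σ` for `σ ∈ [π/2, π]`), `s ≤ ρ - 1.92`, but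
`s² = ρ² e^(2a) - a² ≥ (.81 ρ)²` (`e^(-.42) ≥ .6570`), so `s ≥ .81 ρ`, contradiction to `.19 ρ ≤ 1.52`; so `a ≤ -.21`, `a' ≥ 1/5` (`rightQ`). -/
theorem gapQ (h1 : 9 / 2 ≤ ρ) (h2 : ρ ≤ 8) (H : Sad ρ y a σ) (H' : Sad ρ (y + 2 * π) a' σ')
    (hy : ρ + 1 / 4 ≤ y + 2 * π) (hy' : y ≤ ρ + 1 / 4) : 41 / 100 ≤ a' - a := by
  have hpi1 := pi_gt_d4
  have hpi2 := pi_lt_d4
  obtain ⟨r1, r2, r3⟩ := rightQ H' h1 h2 hy (by linarith only [hy'])
  obtain ⟨l1, l2⟩ := leftQ H h1 h2 (by linarith only [hy])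
  obtain ⟨t1, t2⟩ := topQ H h1 h2 hy'
  obtain ⟨p1, p2, p3, p4⟩ := posQ H' h1 (by linarith only [r1])
  have hs' := s_le_qgap H' h1
  have he41 : exp (41 / 100) ≤ 15075 / 10000 :=
    exp_ub_qgap (by norm_num) (by norm_num) (by norm_num)
  rcases le_or_gt 0 a with h0 | h0
  · -- `a ≥ 0`
    obtain ⟨q1, q2, q3, q4⟩ := posQ H h1 h0
    by_contra hc
    push Not at hc
    have e1 : exp a' = exp a * exp (a' - a) := by
      rw [← exp_add]
      congr 1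
      ring
    have e2 : exp (a' - a) ≤ 15075 / 10000 := (exp_le_exp.2 hc.le).trans he41
    have e3 : ρ * exp a' ≤ 1004 / 1000 * (σ + y) * (15075 / 10000) := by
      rw [e1, ← mul_assoc]
      exact mul_le_mul q4 e2 (exp_pos _).le (by linarith only [h0, q3])
    linarith only [t1, p1, p2, hs', q2, e3]
  · rcases le_or_gt (ρ + 27 / 10) (y + 2 * π) with h3 | h3
    · -- `y + 2π` large
      by_contra hc
      push Not at hc
      have e2 : exp a' ≤ 15075 / 10000 := (exp_le_exp.2 (by linarith only [h0, hc])).trans he41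
      have e3 : ρ * exp a' ≤ ρ * (15075 / 10000) := mul_le_mul_of_nonneg_left e2 (by linarith only [h1])
      linarith only [h2, p1, hs', h3, e3]
    · -- `a ≤ -.21`
      suffices h4 : a ≤ -(21 / 100) by linarith only [r1, h4]
      by_contra hc
      push Not at hc
      have e1 := sig_qgap H h1 hc.le
      have e2 : σ + y ≤ ρ - 192 / 100 := by linarith only [hpi1, h3, e1]
      have e3 : (σ + y) ^ (2 : ℕ) ≤ (ρ - 192 / 100) ^ (2 : ℕ) := pow_le_pow_left₀ (by linarith only [l2]) e2 2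
      have e4 := H.sq
      have e5 : (655 / 1000 : ℝ) ≤ exp (2 * a) := by
        have h5 : (655 / 1000 : ℝ) ≤ exp (-(42 / 100)) :=
          exp_neg_lb_qgap (by norm_num) (by norm_num) (by norm_num) (by norm_num)
        exact h5.trans (exp_le_exp.2 (by linarith only [hc]))
      have e6 : ρ ^ (2 : ℕ) * (655 / 1000) ≤ ρ ^ (2 : ℕ) * exp (2 * a) :=
        mul_le_mul_of_nonneg_left e5 (sq_nonneg ρ)
      have e7 : a ^ (2 : ℕ) ≤ 441 / 10000 := by nlinarith only [h0, hc]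
      nlinarith only [e3, e4, e6, e7, mul_nonneg (sub_nonneg.2 h1) (sub_nonneg.2 h2)]

/-- `s ≤ 2`: `a ≤ 2/9·2 - 1 = -5/9` (`leftQ`, `lineQ`), `a' ≥ 1/5`. -/
theorem gapQ2 (h1 : 9 / 2 ≤ ρ) (h2 : ρ ≤ 8) (H : Sad ρ y a σ) (H' : Sad ρ (y + 2 * π) a' σ')
    (hy : ρ + 1 / 4 ≤ y + 2 * π) (hy' : y ≤ ρ + 1 / 4) (hs : σ + y ≤ 2) : 3 / 4 ≤ a' - a := by
  have e1 := leftQ H h1 h2 (by linarith only [hy])
  have e2 := lineQ H h1 e1.1
  have e3 := (rightQ H' h1 h2 hy (by linarith only [hy'])).1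
  linarith only [hs, e2, e3]

end SokamQ

end

/-! ### Lib_MP_af4de1_q.QSad -/

section
namespace SokamFU
end SokamFU
/-!
# Existence of the saddle points, `9/2 ≤ ρ ≤ 8` [FQ-1]

`Ψ(a) = ρ e^a √(1 - c²) - arccos c`, `c = a e^(-a)/ρ`, is continuous on `[-W, 3]` with `W e^W = ρ`; `Ψ(-W) = -π ≤ y` and
`Ψ(3) ≥ 12 ρ - π/2 ≥ ρ + 1/4 + 2π`; `σ = arccos c`; intermediate value theorem (the proof of `exists_sad` in `MSad.lean`).
-/

set_option autoImplicit false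

namespace SokamQ

open Real SokamFU

theorem exists_sadQ {ρ y : ℝ} (h1 : 9 / 2 ≤ ρ) (h2 : ρ ≤ 8) (hy : ρ + 1 / 4 - 2 * π ≤ y)
    (hy' : y ≤ ρ + 1 / 4 + 2 * π) : ∃ a σ : ℝ, Sad ρ y a σ := by
  have hρ : 0 < ρ := by linarith only [h1, h2]
  -- the number `W`
  obtain ⟨W, hW, hWρ⟩ : ∃ W : ℝ, 0 ≤ W ∧ W * exp W = ρ := by
    have hc : ContinuousOn (fun x : ℝ => x * exp x) (Set.Icc 0 ρ) := by fun_prop
    have h := intermediate_value_Icc hρ.le hc
    have hm : ρ ∈ Set.Icc ((fun x : ℝ => x * exp x) 0) ((fun x : ℝ => x * exp x) ρ) := by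
      refine ⟨by simp [hρ.le], ?_⟩
      have : 1 ≤ exp ρ := one_le_exp hρ.le
      show ρ ≤ ρ * exp ρ
      nlinarith only [hρ, this]
    obtain ⟨W, hW, h3⟩ := h hm
    exact ⟨W, hW.1, h3⟩
  let c : ℝ → ℝ := fun a => a * exp (-a) / ρ
  let Ψ : ℝ → ℝ := fun a => ρ * exp a * √(1 - c a ^ (2 : ℕ)) - arccos (c a)
  have hΨc : ContinuousOn Ψ (Set.Icc (-W) 3) := by
    have h3 : Continuous c := by
      show Continuous fun a : ℝ => a * exp (-a) / ρ
      fun_prop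
    have h4 : Continuous fun a => arccos (c a) := continuous_arccos.comp h3
    have h5 : Continuous fun a => √(1 - c a ^ (2 : ℕ)) :=
      continuous_sqrt.comp (continuous_const.sub (h3.pow 2))
    exact ((((continuous_const.mul continuous_exp).mul h5)).sub h4).continuousOn
  have hl : Ψ (-W) = -π := by
    have h3 : c (-W) = -1 := by
      show -W * exp (- -W) / ρ = -1
      rw [neg_neg, neg_mul, hWρ, neg_div, div_self hρ.ne']
    show ρ * exp (-W) * √(1 - c (-W) ^ (2 : ℕ)) - arccos (c (-W)) = -π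
    rw [h3]
    norm_num
  have hr : ρ + 1 / 4 + 2 * π ≤ Ψ 3 := by
    have e3 : (16 : ℝ) ≤ exp 3 := by
      have h3 : exp (3 : ℝ) = exp 1 ^ (3 : ℕ) := by
        rw [← exp_nat_mul]; norm_num
      have h4 : (2.7 : ℝ) ≤ exp 1 := by
        have := exp_one_gt_d9
        linarith only [this]
      rw [h3]
      calc (16 : ℝ) ≤ 2.7 ^ (3 : ℕ) := by norm_num
        _ ≤ exp 1 ^ (3 : ℕ) := pow_le_pow_left₀ (by norm_num) h4 3
    have hc0 : 0 ≤ c 3 := by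
      show 0 ≤ 3 * exp (-3) / ρ
      positivity
    have hc1 : c 3 ≤ 3 / 16 := by
      show 3 * exp (-3) / ρ ≤ 3 / 16
      rw [div_le_iff₀ hρ, exp_neg]
      have h5 : (exp 3)⁻¹ ≤ (16 : ℝ)⁻¹ := inv_anti₀ (by norm_num) e3
      linarith only [h1, h5]
    have hs : (3 / 4 : ℝ) ≤ √(1 - c 3 ^ (2 : ℕ)) := by
      apply le_sqrt_of_sq_le
      nlinarith only [hc0, hc1]
    have ha : arccos (c 3) ≤ π / 2 := arccos_le_pi_div_two.2 hc0
    have hpi : π < 3.15 := pi_lt_d2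
    have h6 : 12 * ρ ≤ ρ * exp 3 * √(1 - c 3 ^ (2 : ℕ)) := by
      have h7 : ρ * 16 ≤ ρ * exp 3 := mul_le_mul_of_nonneg_left e3 hρ.le
      calc 12 * ρ = (ρ * 16) * (3 / 4) := by ring
        _ ≤ ρ * exp 3 * √(1 - c 3 ^ (2 : ℕ)) := mul_le_mul h7 hs (by norm_num) (by (clear * - h1; positivity))
    show ρ + 1 / 4 + 2 * π ≤ ρ * exp 3 * √(1 - c 3 ^ (2 : ℕ)) - arccos (c 3)
    linarith only [h1, ha, hpi, h6]
  obtain ⟨a, ha, hΨ⟩ := intermediate_value_Icc (by linarith only [hW]) hΨc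
    (show y ∈ Set.Icc (Ψ (-W)) (Ψ 3) from ⟨by rw [hl]; linarith only [h1, hy, pi_le_four], hy'.trans hr⟩)
  have hcl : -1 ≤ c a := by
    show -1 ≤ a * exp (-a) / ρ
    rw [le_div_iff₀ hρ, ← hWρ]
    rcases le_or_gt 0 a with h0 | h0
    · have : 0 ≤ a * exp (-a) := by (clear * - h0; positivity)
      have : 0 ≤ W * exp W := by (clear * - hW; positivity)
      linarith
    · have h3 : -a ≤ W := by linarith only [ha.1]
      have h4 : exp (-a) ≤ exp W := exp_le_exp.2 h3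
      have h5 : -a * exp (-a) ≤ W * exp W := mul_le_mul h3 h4 (exp_nonneg _) hW
      linarith only [h5]
  have hcu : c a ≤ 1 := by
    show a * exp (-a) / ρ ≤ 1
    rw [div_le_one hρ]
    have h3 : a ≤ exp a := by linarith only [add_one_le_exp a]
    have h4 : a * exp (-a) ≤ exp a * exp (-a) := mul_le_mul_of_nonneg_right h3 (exp_nonneg _)
    rw [← exp_add, add_neg_cancel, exp_zero] at h4
    linarith only [h1, h4]
  refine ⟨a, arccos (c a), arccos_nonneg _, arccos_le_pi _, ?_, ?_⟩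
  · rw [cos_arccos hcl hcu]
    show ρ * exp a * (a * exp (-a) / ρ) = a
    rw [exp_neg]
    have := exp_ne_zero a
    field_simp
  · rw [sin_arccos]
    have h3 : ρ * exp a * √(1 - c a ^ (2 : ℕ)) - arccos (c a) = y := hΨ
    linarith only [h3]

end SokamQ

end

/-! ### Lib_MP_af4de1_q.QFin -/

section
namespace SokamFU
end SokamFU
/-!
# `N = 1`, `0 < δ ≤ 4/25`, `9/2 ≤ δ r ≤ 8` ⇒ `Dist δ r`
-/

set_option autoImplicit false

namespace SokamQ

open Complex MeasureTheory Set SokamFU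

private theorem kk_neQ (ρ δ ψ : ℝ) (g : ℂ) : kk ρ δ ψ g ≠ 0 := Complex.exp_ne_zero _

/-- `ρ e^(a+iσ) = a + i s` in complex form -/
private theorem exp_formQ {ρ a σ s : ℝ} (hC : ρ * Real.exp a * Real.cos σ = a)
    (hS : ρ * Real.exp a * Real.sin σ = s) : (ρ : ℂ) * cexp (a + σ * I) = a + s * I := by
  have h1 : cexp ((a : ℂ) + σ * I) = ((Real.exp a * Real.cos σ : ℝ) : ℂ) +
      ((Real.exp a * Real.sin σ : ℝ) : ℂ) * I := by
    rw [Complex.exp_add, Complex.exp_mul_I, ← Complex.ofReal_exp, ← Complex.ofReal_cos,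
      ← Complex.ofReal_sin]
    push_cast; ring
  rw [h1]
  have h2 : (a : ℂ) = ((ρ * Real.exp a * Real.cos σ : ℝ) : ℂ) := by rw [hC]
  have h3 : (s : ℂ) = ((ρ * Real.exp a * Real.sin σ : ℝ) : ℂ) := by rw [hS]
  rw [h3]
  conv_rhs => rw [h2]
  push_cast; ring

/-- the ratio in terms of the local integrals -/
private theorem ratio_reQ {K J0 J1 g : ℂ} (hK : K ≠ 0) (hJ : J0 ≠ 0) :
    (K * (g * J0 + J1) / (K * J0)).re = g.re + (J1 / J0).re := by
  rw [mul_div_mul_left _ _ hK, add_div, mul_div_cancel_right₀ _ hJ, add_re]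

private theorem re_div_leQ {J0 J1 : ℂ} {k : ℝ} (hJ : J0 ≠ 0) (h : ‖J1‖ ≤ k * ‖J0‖) :
    |(J1 / J0).re| ≤ k := by
  refine (abs_re_le_norm _).trans ?_
  rw [norm_div, div_le_iff₀ (norm_pos_iff.mpr hJ)]
  exact h

/-- right contour -/
theorem right_ptQ {ρ δ ψ a σ : ℝ} (hδ : 0 < δ) (hδ' : δ ≤ 4 / 25) (h1 : 9 / 2 ≤ ρ) (h2 : ρ ≤ 8)
    (H : Sad ρ ψ a σ) (hψ : ρ + 1 / 4 ≤ ψ) (hψ' : ψ ≤ ρ + 1 / 4 + 2 * Real.pi) :
    SR ρ δ ψ 0 ≠ 0 ∧ a - 17 / 100 ≤ (SR ρ δ ψ 1 / SR ρ δ ψ 0).re := by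
  have hρ : 0 < ρ := by linarith only [h1]
  obtain ⟨ra, rs, rs'⟩ := rightQ H h1 h2 hψ hψ'
  obtain ⟨p1, p2, p3, p4⟩ := posQ H h1 (by linarith only [ra])
  obtain ⟨e0, e1⟩ := est_RQ hδ hδ' ra rs rs' p3
  have hpi := Real.pi_gt_three
  have hpi' := Real.pi_lt_d2
  have hh : (ρ : ℂ) * cexp (a + σ * I) = a + (σ + ψ : ℝ) * I := exp_formQ H.C H.S
  have hg : (a : ℂ) + (σ + ψ : ℝ) * I = (a + σ * I) + ψ * I := by push_cast; ring
  obtain ⟨l0, l1⟩ := SR_loc hρ hδ (ψ := ψ) (p := -(2 * I)) hg hh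
    (by simp; linarith only [ra]) (by simp; linarith only [p1, p2]) (by simp; linarith only [p2, hpi'])
  have hk := kk_neQ ρ δ ψ ((a : ℂ) + σ * I)
  refine ⟨by rw [l0]; exact mul_ne_zero hk e0, ?_⟩
  rw [l0, l1, ratio_reQ hk e0]
  have h3 := (abs_le.mp (re_div_leQ e0 e1)).1
  have h4 : ((a : ℂ) + σ * I).re = a := by simp
  rw [h4]; linarith only [h3]

/-- left contour -/
theorem left_ptQ {ρ δ ψ a σ : ℝ} (hδ : 0 < δ) (hδ' : δ ≤ 4 / 25) (h1 : 9 / 2 ≤ ρ) (h2 : ρ ≤ 8)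
    (H : Sad ρ (ψ - 2 * Real.pi) a σ) (hψ : ρ + 1 / 4 ≤ ψ) (hψ' : ψ ≤ ρ + 1 / 4 + 2 * Real.pi) :
    SL ρ δ ψ 0 ≠ 0 ∧ (SL ρ δ ψ 1 / SL ρ δ ψ 0).re ≤
      a + (if σ + (ψ - 2 * Real.pi) ≤ 2 then 1 / 2 else 21 / 100) := by
  have hρ : 0 < ρ := by linarith only [h1]
  have hpi := Real.pi_gt_three
  have hpi' := Real.pi_lt_d2
  obtain ⟨q1, q2⟩ := leftQ H h1 h2 (by linarith only [hψ])
  have q3 := lineQ H h1 q1
  obtain ⟨q4, q5⟩ := topQ H h1 h2 (by linarith only [hψ'])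
  have q6 := sigQ H h1
  have hσπ := H.σπ
  have hE : JJ δ (a + (σ + (ψ - 2 * Real.pi) : ℝ) * I) (1 / 3 * (1 + (6 : ℝ) * I))
      (-(1 + (6 : ℝ) * I)) (fun _ => 1) ≠ 0 ∧
    ‖JJ δ (a + (σ + (ψ - 2 * Real.pi) : ℝ) * I) (1 / 3 * (1 + (6 : ℝ) * I))
      (-(1 + (6 : ℝ) * I)) (fun v => v)‖ ≤
      (if σ + (ψ - 2 * Real.pi) ≤ 2 then 1 / 2 else 21 / 100 : ℝ) *
        ‖JJ δ (a + (σ + (ψ - 2 * Real.pi) : ℝ) * I) (1 / 3 * (1 + (6 : ℝ) * I))
        (-(1 + (6 : ℝ) * I)) (fun _ => 1)‖ := by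
    split_ifs with hs
    · exact est_LA hδ hδ' q1 q2 hs q3
    · exact est_LB hδ hδ' q1 (not_le.1 hs).le q4 q3 q5
  obtain ⟨e0, e1⟩ := hE
  have hh : (ρ : ℂ) * cexp (a + ((σ - 2 * Real.pi : ℝ) : ℂ) * I) =
      a + (σ + (ψ - 2 * Real.pi) : ℝ) * I :=
    exp_formQ (by rw [Real.cos_sub_two_pi]; exact H.C) (by rw [Real.sin_sub_two_pi]; exact H.S)
  have hg : (a : ℂ) + (σ + (ψ - 2 * Real.pi) : ℝ) * I =
      (a + ((σ - 2 * Real.pi : ℝ) : ℂ) * I) + ψ * I := by push_cast; ring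
  obtain ⟨l0, l1⟩ := SL_loc hρ hδ hg hh (m := 6) (by norm_num) (p := 1 / 3 * (1 + (6 : ℝ) * I))
    (by simp; linarith only [hpi', q6]) (by simp; linarith only [hpi, hσπ])
  have hk : -kk ρ δ ψ ((a : ℂ) + ((σ - 2 * Real.pi : ℝ) : ℂ) * I) ≠ 0 :=
    neg_ne_zero.mpr (kk_neQ ρ δ ψ _)
  refine ⟨by rw [l0]; exact mul_ne_zero hk e0, ?_⟩
  rw [l0, l1, ratio_reQ hk e0]
  have h3 := (abs_le.mp (re_div_leQ e0 e1)).2
  have h4 : ((a : ℂ) + ((σ - 2 * Real.pi : ℝ) : ℂ) * I).re = a := by simp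
  rw [h4]; linarith only [h3]

theorem main_ptQ {ρ δ ψ : ℝ} (hδ : 0 < δ) (hδ' : δ ≤ 4 / 25) (h1 : 9 / 2 ≤ ρ) (h2 : ρ ≤ 8)
    (hψ : ρ + 1 / 4 ≤ ψ) (hψ' : ψ ≤ ρ + 1 / 4 + 2 * Real.pi) :
    SL ρ δ ψ 0 ≠ 0 ∧ SR ρ δ ψ 0 ≠ 0 ∧
      (SL ρ δ ψ 1 / SL ρ δ ψ 0).re < (SR ρ δ ψ 1 / SR ρ δ ψ 0).re := by
  have hpi := Real.pi_gt_three
  obtain ⟨a', σ', HR⟩ := exists_sadQ (y := ψ) h1 h2 (by linarith only [hψ, hψ']) hψ'
  obtain ⟨a, σ, HL⟩ := exists_sadQ (y := ψ - 2 * Real.pi) h1 h2 (by linarith only [hψ]) (by linarith only [hψ, hψ'])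
  obtain ⟨r0, r1⟩ := right_ptQ hδ hδ' h1 h2 HR hψ hψ'
  obtain ⟨l0, l1⟩ := left_ptQ hδ hδ' h1 h2 HL hψ hψ'
  have HR' : Sad ρ ((ψ - 2 * Real.pi) + 2 * Real.pi) a' σ' := by
    rw [sub_add_cancel]; exact HR
  refine ⟨l0, r0, ?_⟩
  split_ifs at l1 with hs
  · have hg := gapQ2 h1 h2 HL HR' (by linarith only [hψ]) (by linarith only [hψ']) hs
    linarith only [r1, l1, hg]
  · have hg := gapQ h1 h2 HL HR' (by linarith only [hψ]) (by linarith only [hψ'])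
    linarith only [r1, l1, hg]

/-- `N = 1`, `9/2 ≤ ρ ≤ 8` -/
theorem dist_mid2 {δ r : ℝ} (hδ : 0 < δ) (hδ' : δ ≤ 4 / 25) (h1 : 9 / 2 ≤ δ * r) (h2 : δ * r ≤ 8) :
    Dist δ r := by
  have h3 := dist_of (ρ := δ * r) (by linarith only [h1]) hδ (δ * r + 1 / 4)
    (fun ψ hψ => main_ptQ hδ hδ' h1 h2 hψ.1 hψ.2)
  rwa [mul_div_cancel_left₀ _ hδ.ne'] at h3

end SokamQ

end

/-! ### Lib_MP_af4de1_q.QN1a -/

section
/-!
# `N = 1`, `9/2 ≤ ρ ≤ 8`: the hypothesis `n1a` of `SokamV3.dist_F1_chain`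
-/

set_option autoImplicit false

namespace SokamQ

theorem n1a (α r : ℝ) (h1 : 0 < α) (h2 : 50 ≤ r) (h3 : 9 / 2 ≤ α * r) (h4 : α * r ≤ 8)
    (_h5 : 1 + (α * r) ^ (2 : ℕ) ≤ 7.2552 * r) : SokamFU.Dist α r := by
  have h6 : α * 50 ≤ α * r := mul_le_mul_of_nonneg_left h2 h1.le
  exact dist_mid2 h1 (by linarith) h3 h4

end SokamQ

end
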