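import Pool.Agent.Lib_MP_af4de1_zy.Z35
import Pool.Agent.Lib_MP_af4de1_zy.Z63
import Pool.Agent.Lib_MP_af4de1_zy.Z65

/-! ### Lib_MP_af4de1_f1.N1Crit -/

section
/-!
# N = 1, large `rho`: the condition (U) from the moments

`R = c_R R0`, `DR = c_R (-(i/δ)(h R0 + R1))`, `D²R = c_R ((i/δ) R0 - (1/δ²)(h² R0 + 2 h R1 + R2))`, `h = a_R + i s_R`, and the
same for `L` with `h' = -a_L + i s_L`.  With `K = δ DR/R = -i(h + r1)`, `r_j = R_j/R0`, `δ²(D²R/R - (DR/R)²) = iδ - r2 + r1² =: Λ_R`,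
`μ = δ m`: `δ m (D²F/DF - DF/F) = (K_R + μ)(K_L + μ) + (Λ_R (K_L + μ) - Λ_L (K_R + μ))/(K_R - K_L)` (`SokamF1.U_pos`,
`U_formula` with `P = Q = S = 0`), and with `x = Re`, `y = |Im|`: `x_R ≥ s_R - e_R + μ`, `y_R ≤ a_R + e_R`, ..., `‖K_R - K_L‖ ≥ p`.
The function `p (x x' - y y') - W (x' + y') - W' (x + y)` is increasing in `x`, `x'`.
-/

set_option autoImplicit false

namespace SokamN1

open Complex

private theorem crit_piece {δ : ℝ} (hδ : 0 < δ) {h R0 R1 R2 c R DR D2R : ℂ} (hR0 : R0 ≠ 0)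
    (hR : R = c * R0) (hDR : DR = c * (-(I / δ) * (h * R0 + R1)))
    (hD2R : D2R = c * (I / δ * R0 - 1 / δ ^ (2 : ℕ) * (h ^ (2 : ℕ) * R0 + 2 * h * R1 + R2))) :
    DR = (-(I * (h + R1 / R0)) / δ) * R ∧
      D2R = ((-(I * (h + R1 / R0)) / δ) ^ (2 : ℕ) + (I * δ - R2 / R0 + (R1 / R0) ^ (2 : ℕ)) / δ ^ (2 : ℕ)) * R := by
  have hδc : (δ : ℂ) ≠ 0 := by exact_mod_cast hδ.ne'
  constructor
  · rw [hDR, hR]
    field_simp
  · rw [hD2R, hR]
    have hI : I ^ (2 : ℕ) = -1 := I_sq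
    have e : (-(I * (h + R1 / R0)) / δ) ^ (2 : ℕ) = -(h + R1 / R0) ^ (2 : ℕ) / δ ^ (2 : ℕ) := by
      rw [div_pow, neg_sq, mul_pow, hI]
      ring
    rw [e]
    field_simp
    ring

/-- real part and imaginary part of `K`, the size of `Λ` -/
private theorem crit_bd {δ a s e V : ℝ} (hδ : 0 < δ) {R0 R1 R2 : ℂ} (hR0 : R0 ≠ 0)
    (hR1 : ‖R1‖ ≤ e * ‖R0‖) (hR2 : ‖R2‖ ≤ V * ‖R0‖) :
    0 ≤ e ∧ 0 ≤ V ∧ |(-(I * ((a + s * I) + R1 / R0))).re - s| ≤ e ∧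
      |(-(I * ((a + s * I) + R1 / R0))).im| ≤ |a| + e ∧
      ‖I * δ - R2 / R0 + (R1 / R0) ^ (2 : ℕ)‖ ≤ δ + V + e ^ (2 : ℕ) := by
  have hn : 0 < ‖R0‖ := norm_pos_iff.2 hR0
  have h1 : ‖R1 / R0‖ ≤ e := by
    rw [norm_div, div_le_iff₀ hn]
    exact hR1
  have h2 : ‖R2 / R0‖ ≤ V := by
    rw [norm_div, div_le_iff₀ hn]
    exact hR2
  have he : 0 ≤ e := (norm_nonneg _).trans h1
  have hV : 0 ≤ V := (norm_nonneg _).trans h2
  refine ⟨he, hV, ?_, ?_, ?_⟩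
  · have e1 : (-(I * ((a + s * I) + R1 / R0))).re - s = (R1 / R0).im := by
      simp
    rw [e1]
    exact (Complex.abs_im_le_norm _).trans h1
  · have e1 : (-(I * ((a + s * I) + R1 / R0))).im = -a + -(R1 / R0).re := by
      simp
      ring
    rw [e1]
    refine (abs_add_le _ _).trans ?_
    rw [abs_neg, abs_neg]
    linarith [(Complex.abs_re_le_norm (R1 / R0)).trans h1]
  · refine (norm_add_le _ _).trans (add_le_add ((norm_sub_le _ _).trans (add_le_add ?_ h2)) ?_)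
    · rw [norm_mul, Complex.norm_I, Complex.norm_real, Real.norm_of_nonneg hδ.le, one_mul]
    · rw [norm_pow]
      exact pow_le_pow_left₀ (norm_nonneg _) h1 2

private theorem crit_norm {z : ℂ} {y : ℝ} (hx : 0 < z.re) (hy : |z.im| ≤ y) : ‖z‖ ≤ z.re + y := by
  refine (Complex.norm_le_abs_re_add_abs_im z).trans ?_
  rw [abs_of_pos hx]
  linarith

private theorem crit_core {KR KL ΛR ΛL : ℂ} {μ p x0 x0' y0 y0' W W' : ℝ} (hμ : 0 ≤ μ) (hp : 0 < p)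
    (hx : x0 ≤ KR.re) (hx' : x0' ≤ KL.re) (hx0 : 0 < x0) (hx0' : 0 < x0')
    (hy : |KR.im| ≤ y0) (hy' : |KL.im| ≤ y0') (hW : ‖ΛR‖ ≤ W) (hW' : ‖ΛL‖ ≤ W')
    (hpK : p ≤ KR.re - KL.re)
    (hcrit : p * (y0 * y0') + W * (x0' + y0') + W' * (x0 + y0) < p * (x0 * x0')) :
    0 < ((KR + μ) * (KL + μ) + (ΛR * (KL + μ) - ΛL * (KR + μ)) / (KR - KL)).re := by
  have hy0 : 0 ≤ y0 := (abs_nonneg _).trans hy
  have hy0' : 0 ≤ y0' := (abs_nonneg _).trans hy'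
  have hW0 : 0 ≤ W := (norm_nonneg _).trans hW
  have hW0' : 0 ≤ W' := (norm_nonneg _).trans hW'
  have hKK : p ≤ ‖KR - KL‖ := by
    refine hpK.trans ?_
    rw [← Complex.sub_re]
    exact Complex.re_le_norm _
  set x := (KR + μ).re with hxdef
  set x' := (KL + μ).re with hx'def
  have hxx : x0 ≤ x := by
    rw [hxdef, Complex.add_re, Complex.ofReal_re]
    linarith
  have hxx' : x0' ≤ x' := by
    rw [hx'def, Complex.add_re, Complex.ofReal_re]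
    linarith
  have him : |(KR + μ).im| ≤ y0 := by
    rw [Complex.add_im, Complex.ofReal_im, add_zero]
    exact hy
  have him' : |(KL + μ).im| ≤ y0' := by
    rw [Complex.add_im, Complex.ofReal_im, add_zero]
    exact hy'
  have n1 : ‖KR + μ‖ ≤ x + y0 := crit_norm (by linarith) him
  have n2 : ‖KL + μ‖ ≤ x' + y0' := crit_norm (by linarith) him'
  have hre1 : x * x' - y0 * y0' ≤ ((KR + μ) * (KL + μ)).re := by
    rw [Complex.mul_re]
    have h1 : |(KR + μ).im * (KL + μ).im| ≤ y0 * y0' := by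
      rw [abs_mul]
      exact mul_le_mul him him' (abs_nonneg _) hy0
    have h2 := (abs_le.1 h1).2
    linarith
  have hN : ‖(ΛR * (KL + μ) - ΛL * (KR + μ)) / (KR - KL)‖ ≤
      (W * (x' + y0') + W' * (x + y0)) / p := by
    rw [norm_div]
    have hnum : ‖ΛR * (KL + μ) - ΛL * (KR + μ)‖ ≤ W * (x' + y0') + W' * (x + y0) := by
      refine (norm_sub_le _ _).trans (add_le_add ?_ ?_)
      · rw [norm_mul]
        exact mul_le_mul hW n2 (norm_nonneg _) hW0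
      · rw [norm_mul]
        exact mul_le_mul hW' n1 (norm_nonneg _) hW0'
    exact div_le_div₀ ((norm_nonneg _).trans hnum) hnum hp hKK
  have hre2 : -((W * (x' + y0') + W' * (x + y0)) / p) ≤
      ((ΛR * (KL + μ) - ΛL * (KR + μ)) / (KR - KL)).re :=
    (abs_le.1 ((Complex.abs_re_le_norm _).trans hN)).1
  rw [Complex.add_re]
  have hA : W' ≤ p * x0' := by
    by_contra hcon
    push Not at hcon
    have h1 : p * x0' * x0 ≤ W' * x0 := mul_le_mul_of_nonneg_right hcon.le hx0.le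
    have h2 : 0 ≤ p * (y0 * y0') := by positivity
    have h3 : 0 ≤ W * (x0' + y0') := mul_nonneg hW0 (by linarith)
    have h4 : 0 ≤ W' * y0 := by positivity
    linarith only [hcrit, h1, h2, h3, h4]
  have hB : W ≤ p * x0 := by
    by_contra hcon
    push Not at hcon
    have h1 : p * x0 * x0' ≤ W * x0' := mul_le_mul_of_nonneg_right hcon.le hx0'.le
    have h2 : 0 ≤ p * (y0 * y0') := by positivity
    have h3 : 0 ≤ W' * (x0 + y0) := mul_nonneg hW0' (by linarith)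
    have h4 : 0 ≤ W * y0' := by positivity
    linarith only [hcrit, h1, h2, h3, h4]
  have key : (W * (x' + y0') + W' * (x + y0)) < p * (x * x' - y0 * y0') := by
    have h1 : 0 ≤ (x - x0) * (p * x0' - W') := mul_nonneg (by linarith) (by linarith)
    have h2 : 0 ≤ (x' - x0') * (p * x0 - W) := mul_nonneg (by linarith) (by linarith)
    have h3 : 0 ≤ p * ((x - x0) * (x' - x0')) :=
      mul_nonneg hp.le (mul_nonneg (by linarith) (by linarith))
    linarith only [hcrit, h1, h2, h3]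
  have key2 : (W * (x' + y0') + W' * (x + y0)) / p < x * x' - y0 * y0' := by
    rw [div_lt_iff₀ hp]
    linarith
  linarith

theorem crit {δ m eR eL VR VL aR aL sR sL p : ℝ} {R0 R1 R2 L0 L1 L2 cR cL : ℂ} (hδ : 0 < δ) (hm : 0 < m)
    (hR0 : R0 ≠ 0) (hL0 : L0 ≠ 0) (hcR : cR ≠ 0) (hcL : cL ≠ 0)
    (hR1 : ‖R1‖ ≤ eR * ‖R0‖) (hR2 : ‖R2‖ ≤ VR * ‖R0‖) (hL1 : ‖L1‖ ≤ eL * ‖L0‖) (hL2 : ‖L2‖ ≤ VL * ‖L0‖)
    (haR : 0 ≤ aR) (haL : 0 ≤ aL) (hp : 0 < p) (hp2 : p ≤ sR - sL - eR - eL) (hxR : eR < sR) (hxL : eL < sL)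
    (hcrit : (aR + eR) * (aL + eL) * p + (δ + VR + eR ^ (2 : ℕ)) * (sL + aL) + (δ + VL + eL ^ (2 : ℕ)) * (sR + aR) <
      p * (sR - eR) * (sL - eL))
    {R DR D2R L DL D2L : ℂ} (hRe : R = cR * R0) (hLe : L = cL * L0)
    (hDR : DR = cR * (-(I / δ) * ((aR + sR * I) * R0 + R1)))
    (hDL : DL = cL * (-(I / δ) * ((-aL + sL * I) * L0 + L1)))
    (hD2R : D2R = cR * (I / δ * R0 - 1 / δ ^ (2 : ℕ) * ((aR + sR * I) ^ (2 : ℕ) * R0 + 2 * (aR + sR * I) * R1 + R2)))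
    (hD2L : D2L = cL * (I / δ * L0 - 1 / δ ^ (2 : ℕ) * ((-aL + sL * I) ^ (2 : ℕ) * L0 + 2 * (-aL + sL * I) * L1 + L2)))
    (h : (DR + DL) + m * (R + L) = 0) :
    0 < ((D2R + D2L) / (DR + DL) - (DR + DL) / (R + L)).re := by
  have hδc : (δ : ℂ) ≠ 0 := by exact_mod_cast hδ.ne'
  have hmc : (m : ℂ) ≠ 0 := by exact_mod_cast hm.ne'
  obtain ⟨hDR', hD2R'⟩ := crit_piece hδ hR0 hRe hDR hD2R
  obtain ⟨hDL', hD2L'⟩ := crit_piece hδ hL0 hLe hDL hD2L
  obtain ⟨heR, hVR, b1, b2, b3⟩ := crit_bd (a := aR) (s := sR) hδ hR0 hR1 hR2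
  obtain ⟨heL, hVL, d1, d2, d3⟩ := crit_bd (a := -aL) (s := sL) hδ hL0 hL1 hL2
  rw [Complex.ofReal_neg] at d1 d2
  set KR : ℂ := -(I * ((aR + sR * I) + R1 / R0)) with hKR
  set KL : ℂ := -(I * ((-aL + sL * I) + L1 / L0)) with hKL
  set ΛR : ℂ := I * δ - R2 / R0 + (R1 / R0) ^ (2 : ℕ) with hΛR
  set ΛL : ℂ := I * δ - L2 / L0 + (L1 / L0) ^ (2 : ℕ) with hΛL
  rw [abs_of_nonneg haR] at b2
  rw [abs_neg, abs_of_nonneg haL] at d2
  have hR : R ≠ 0 := by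
    rw [hRe]
    exact mul_ne_zero hcR hR0
  have c1 := abs_le.1 b1
  have c2 := abs_le.1 d1
  have hpK : p ≤ KR.re - KL.re := by linarith
  have hμ : 0 ≤ δ * m := by positivity
  have core := crit_core (KR := KR) (KL := KL) (ΛR := ΛR) (ΛL := ΛL) (μ := δ * m) (p := p)
    (x0 := sR - eR) (x0' := sL - eL) (y0 := aR + eR) (y0' := aL + eL) (W := δ + VR + eR ^ (2 : ℕ))
    (W' := δ + VL + eL ^ (2 : ℕ)) hμ hp (by linarith) (by linarith) (by linarith) (by linarith) b2 d2 b3 d3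
    hpK (by
      have e1 : sL - eL + (aL + eL) = sL + aL := by ring
      have e2 : sR - eR + (aR + eR) = sR + aR := by ring
      rw [e1, e2]
      linarith)
  have hKRm : KR + (δ * m : ℝ) ≠ 0 := by
    intro h0
    have h1 := congrArg Complex.re h0
    rw [Complex.add_re, Complex.ofReal_re, Complex.zero_re] at h1
    linarith
  have hKLm : KL + (δ * m : ℝ) ≠ 0 := by
    intro h0
    have h1 := congrArg Complex.re h0
    rw [Complex.add_re, Complex.ofReal_re, Complex.zero_re] at h1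
    linarith
  have hKK : KR - KL ≠ 0 := by
    intro h0
    have h1 := congrArg Complex.re h0
    rw [Complex.sub_re, Complex.zero_re] at h1
    linarith
  have e0 : KR / δ + m = (KR + (δ * m : ℝ)) / δ := by
    push_cast
    field_simp
  have e1 : KL / δ + m = (KL + (δ * m : ℝ)) / δ := by
    push_cast
    field_simp
  have e01 : KR / δ - KL / δ = (KR - KL) / δ := by
    ring
  have f0 : KR / δ + m ≠ 0 := by
    rw [e0]
    exact div_ne_zero hKRm hδc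
  have f1 : KL / δ + m ≠ 0 := by
    rw [e1]
    exact div_ne_zero hKLm hδc
  have f01 : KR / δ - KL / δ ≠ 0 := by
    rw [e01]
    exact div_ne_zero hKK hδc
  have key := SokamF1.U_formula (κ0 := KR / δ) (κ1 := KL / δ) (l0 := ΛR / δ ^ (2 : ℕ)) (l1 := ΛL / δ ^ (2 : ℕ))
    (p0 := R) (p1 := L) (P := 0) (Q := 0) (S := 0) hm (by
      rw [← hDR', ← hDL', add_zero, add_zero]
      exact h) f0 f1 f01 hR (by simp)
  rw [← hDR', ← hDL', ← hD2R', ← hD2L', add_zero, add_zero, add_zero] at key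
  rw [key]
  have e : (KR / δ + m) * (KL / δ + m) / m *
      ((1 + (ΛR / δ ^ (2 : ℕ) / (KR / δ + m) - ΛL / δ ^ (2 : ℕ) / (KL / δ + m)) / (KR / δ - KL / δ) +
        (0 + m * 0 - (KL / δ + ΛL / δ ^ (2 : ℕ) / (KL / δ + m)) * (0 + m * 0)) /
          ((KR / δ + m) * (KR / δ - KL / δ) * R)) /
        (1 + (0 - KL / δ * 0) / ((KR / δ - KL / δ) * R))) =
      ((1 / (δ ^ (2 : ℕ) * m) : ℝ) : ℂ) * ((KR + (δ * m : ℝ)) * (KL + (δ * m : ℝ)) +
        (ΛR * (KL + (δ * m : ℝ)) - ΛL * (KR + (δ * m : ℝ))) / (KR - KL)) := by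
    have z1 : (0 + (m : ℂ) * 0 - (KL / δ + ΛL / δ ^ (2 : ℕ) / (KL / δ + m)) * (0 + m * 0)) = 0 := by ring
    have z2 : (0 - KL / δ * 0 : ℂ) = 0 := by ring
    rw [z1, z2, zero_div, zero_div, add_zero, add_zero, div_one, e0, e1, e01]
    set A := KR + (δ * m : ℝ) with hA
    set B := KL + (δ * m : ℝ) with hB
    set C := KR - KL with hC
    push_cast
    field_simp
  rw [e, Complex.re_ofReal_mul]
  positivity

theorem crit_A {δ aR aL sR sL : ℝ} (hδ : 0 < δ) (hδ2 : δ ≤ 2606 / 10000) (hsR : 8 ≤ sR) (haR : 0 ≤ aR)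
    (haR2 : aR ≤ 461 / 10000 * sR) (hsL : 2089 / 1000 ≤ sL) (haL : 0 ≤ aL) (haL2 : aL ≤ 6 / 5) :
    (aR + 3 / 10) * (aL + 84 / 100) * (452 / 100) + (δ + 65 / 100 + (3 / 10) ^ (2 : ℕ)) * (sL + aL) +
      (δ + 1 + (84 / 100) ^ (2 : ℕ)) * (sR + aR) < 452 / 100 * (sR - 3 / 10) * (sL - 84 / 100) := by
  have h1 : (aR + 3 / 10) * (aL + 84 / 100) * (452 / 100) ≤
      (461 / 10000 * sR + 3 / 10) * (6 / 5 + 84 / 100) * (452 / 100) := by
    gcongr
  have h2 : (δ + 65 / 100 + (3 / 10) ^ (2 : ℕ)) * (sL + aL) ≤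
      (2606 / 10000 + 65 / 100 + (3 / 10) ^ (2 : ℕ)) * (sL + 6 / 5) := by
    gcongr
  have h3 : (δ + 1 + (84 / 100) ^ (2 : ℕ)) * (sR + aR) ≤
      (2606 / 10000 + 1 + (84 / 100) ^ (2 : ℕ)) * (sR + 461 / 10000 * sR) := by
    gcongr
  have h4 : 0 ≤ (sR - 8) * (sL - 2089 / 1000) := mul_nonneg (by linarith) (by linarith)
  nlinarith only [hδ2, hsR, haR, haR2, hsL, haL, haL2]

theorem crit_C {δ aR aL sR sL : ℝ} (hδ : 0 < δ) (hδ2 : δ ≤ 3814 / 10000) (hsR : 13 ≤ sR) (haR : 0 ≤ aR)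
    (haR2 : aR ≤ 284 / 10000 * sR) (hsL : 67 / 10 ≤ sL) (haL : 0 ≤ aL) (haL2 : aL ≤ 661 / 1000) :
    (aR + 113 / 100) * (aL + 122 / 100) * (38 / 10) + (δ + 63 / 10 + (113 / 100) ^ (2 : ℕ)) * (sL + aL) +
      (δ + 64 / 10 + (122 / 100) ^ (2 : ℕ)) * (sR + aR) < 38 / 10 * (sR - 113 / 100) * (sL - 122 / 100) := by
  have h1 : (aR + 113 / 100) * (aL + 122 / 100) * (38 / 10) ≤
      (284 / 10000 * sR + 113 / 100) * (661 / 1000 + 122 / 100) * (38 / 10) := by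
    gcongr
  have h2 : (δ + 63 / 10 + (113 / 100) ^ (2 : ℕ)) * (sL + aL) ≤
      (3814 / 10000 + 63 / 10 + (113 / 100) ^ (2 : ℕ)) * (sL + 661 / 1000) := by
    gcongr
  have h3 : (δ + 64 / 10 + (122 / 100) ^ (2 : ℕ)) * (sR + aR) ≤
      (3814 / 10000 + 64 / 10 + (122 / 100) ^ (2 : ℕ)) * (sR + 284 / 10000 * sR) := by
    gcongr
  have h4 : 0 ≤ (sR - 13) * (sL - 67 / 10) := mul_nonneg (by linarith) (by linarith)
  nlinarith only [hδ2, hsR, haR, haR2, hsL, haL, haL2]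

end SokamN1

end

/-! ### Lib_MP_af4de1_f1.N1GeoL -/

section
/-!
# N = 1, large `rho`: the left saddle

`A(a) = √(rho² e^{-2a} - a²)`, `rho - A + arctan(a/A)`, continuous where `A > 0`: `0` at `a = 0`, at least `2π` at
`a = 6/5` (`rho ≥ 9`: `A(6/5) ≤ e^{-6/5} rho ≤ .3012 rho`; `8 ≤ rho ≤ 9`: `rho - A` is increasing in `rho`,
`8 - A = 5.9106` at `rho = 8`, `arctan(1.2/A) ≥ arctan(.49) ≥ .49/(1 + .49²) ≥ .39`).
-/

set_option autoImplicit false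

namespace SokamN1

open Set

private theorem geoL_sq (a : ℝ) : Real.exp (-a) ^ (2 : ℕ) = Real.exp (-(2 * a)) := by
  rw [← Real.exp_nat_mul]
  congr 1
  push_cast
  ring

private theorem geoL_e12 : Real.exp (12 / 5) ^ (5 : ℕ) = Real.exp 1 ^ (12 : ℕ) := by
  rw [← Real.exp_nat_mul, ← Real.exp_nat_mul]
  congr 1
  norm_num

private theorem geoL_lo : 110133 / 10000 ≤ Real.exp (12 / 5) := by
  refine le_of_pow_le_pow_left₀ (n := 5) (by norm_num) (Real.exp_pos _).le ?_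
  rw [geoL_e12]
  refine le_trans ?_ (pow_le_pow_left₀ (by norm_num) Real.exp_one_gt_d9.le 12)
  norm_num

private theorem geoL_hi : Real.exp (12 / 5) ≤ 11027 / 1000 := by
  refine le_of_pow_le_pow_left₀ (n := 5) (by norm_num) (by norm_num) ?_
  rw [geoL_e12]
  refine le_trans (pow_le_pow_left₀ (Real.exp_pos 1).le Real.exp_one_lt_d9.le 12) ?_
  norm_num

/-- `e^{-12/5} ≥ .0906864` -/
private theorem geoL_E2lo : 9068640 / 100000000 ≤ Real.exp (-(6 / 5 : ℝ)) ^ (2 : ℕ) := by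
  rw [geoL_sq, show (2 * (6 / 5) : ℝ) = 12 / 5 by norm_num, Real.exp_neg]
  rw [le_inv_comm₀ (by norm_num) (Real.exp_pos _)]
  refine geoL_hi.trans ?_
  norm_num

private theorem geoL_E2hi : Real.exp (-(6 / 5 : ℝ)) ^ (2 : ℕ) ≤ 908 / 10000 := by
  rw [geoL_sq, show (2 * (6 / 5) : ℝ) = 12 / 5 by norm_num, Real.exp_neg]
  rw [inv_le_comm₀ (Real.exp_pos _) (by norm_num)]
  refine le_trans ?_ geoL_lo
  norm_num

private theorem geoL_low {rho a : ℝ} (h8 : 8 ≤ rho) (ha : 0 ≤ a) (ha2 : a ≤ 6 / 5) :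
    4363921 / 1000000 ≤ rho ^ (2 : ℕ) * Real.exp (-a) ^ (2 : ℕ) - a ^ (2 : ℕ) := by
  have h1 : Real.exp (-(6 / 5 : ℝ)) ^ (2 : ℕ) ≤ Real.exp (-a) ^ (2 : ℕ) :=
    pow_le_pow_left₀ (Real.exp_pos _).le (Real.exp_le_exp.2 (by linarith only [ha2])) 2
  have h2 := geoL_E2lo
  have h3 : (64 : ℝ) ≤ rho ^ (2 : ℕ) := by nlinarith only [h8]
  have h4 : a ^ (2 : ℕ) ≤ (6 / 5) ^ (2 : ℕ) := pow_le_pow_left₀ ha ha2 2
  have h5 : 64 * (9068640 / 100000000) ≤ rho ^ (2 : ℕ) * Real.exp (-a) ^ (2 : ℕ) :=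
    mul_le_mul h3 (h2.trans h1) (by norm_num) (by positivity)
  linarith only [h4, h5]

private theorem geoL_arctan {x : ℝ} (hx : 0 ≤ x) : x / (1 + x ^ (2 : ℕ)) ≤ Real.arctan x := by
  set t := Real.arctan x with ht
  have h0 : 0 ≤ t := Real.arctan_nonneg.2 hx
  have h1 : t < Real.pi / 2 := Real.arctan_lt_pi_div_two x
  have hx' : Real.tan t = x := Real.tan_arctan x
  have hc : 0 < Real.cos t := Real.cos_arctan_pos x
  have h2 : x / (1 + x ^ (2 : ℕ)) = Real.sin t * Real.cos t := by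
    rw [← hx', Real.tan_eq_sin_div_cos]
    have h3 := Real.sin_sq_add_cos_sq t
    have h4 : 1 + (Real.sin t / Real.cos t) ^ (2 : ℕ) = 1 / Real.cos t ^ (2 : ℕ) := by
      field_simp
      linarith only [h3]
    rw [h4]
    field_simp
  rw [h2]
  have h3 : 0 ≤ Real.sin t := Real.sin_nonneg_of_nonneg_of_le_pi h0 (by linarith only [h0, h1])
  calc Real.sin t * Real.cos t ≤ Real.sin t * 1 := mul_le_mul_of_nonneg_left (Real.cos_le_one t) h3
    _ ≤ t := by rw [mul_one]; exact Real.sin_le h0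

theorem sad_L {rho φ : ℝ} (h8 : 8 ≤ rho) (h0 : 0 ≤ φ) (h1 : φ ≤ 2 * Real.pi) :
    ∃ a s : ℝ, 0 ≤ a ∧ a ≤ 6 / 5 ∧ 0 < s ∧ s ^ (2 : ℕ) + a ^ (2 : ℕ) = rho ^ (2 : ℕ) * Real.exp (-a) ^ (2 : ℕ) ∧
      s - rho - Real.arctan (a / s) = φ - 2 * Real.pi := by
  have hpi := Real.pi_lt_d4
  have hpi0 := Real.pi_pos
  have hrho : 0 < rho := by linarith only [h8]
  set A : ℝ → ℝ := fun a => √(rho ^ (2 : ℕ) * Real.exp (-a) ^ (2 : ℕ) - a ^ (2 : ℕ)) with hA
  have hApos : ∀ a ∈ Icc (0 : ℝ) (6 / 5), 0 < A a := fun a ha =>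
    Real.sqrt_pos.2 (by linarith only [geoL_low h8 ha.1 ha.2])
  have hAsq : ∀ a ∈ Icc (0 : ℝ) (6 / 5), A a ^ (2 : ℕ) = rho ^ (2 : ℕ) * Real.exp (-a) ^ (2 : ℕ) - a ^ (2 : ℕ) := fun a ha =>
    Real.sq_sqrt (by linarith only [geoL_low h8 ha.1 ha.2])
  have hAc : Continuous A := by
    rw [hA]
    fun_prop
  have hfc : ContinuousOn (fun a => rho - A a + Real.arctan (a / A a)) (Icc 0 (6 / 5)) := by
    refine (continuousOn_const.sub hAc.continuousOn).add ?_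
    exact Real.continuous_arctan.comp_continuousOn
      (continuousOn_id.div hAc.continuousOn fun a ha => (hApos a ha).ne')
  have hf0 : rho - A 0 + Real.arctan (0 / A 0) ≤ 2 * Real.pi - φ := by
    have : A 0 = rho := by
      rw [hA]
      simp only [neg_zero, Real.exp_zero, one_pow, mul_one, ne_eq, OfNat.ofNat_ne_zero, not_false_eq_true,
        zero_pow, sub_zero]
      exact Real.sqrt_sq hrho.le
    rw [this, zero_div, Real.arctan_zero]
    linarith only [h1]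
  have hm : (6 / 5 : ℝ) ∈ Icc (0 : ℝ) (6 / 5) := ⟨by norm_num, le_rfl⟩
  have hf1 : 2 * Real.pi - φ ≤ rho - A (6 / 5) + Real.arctan ((6 / 5) / A (6 / 5)) := by
    have e1 := hAsq _ hm
    have e2 := hApos _ hm
    have e3 := geoL_E2hi
    have e4 : 0 ≤ Real.arctan ((6 / 5) / A (6 / 5)) := Real.arctan_nonneg.2 (by positivity)
    have e5 : rho ^ (2 : ℕ) * Real.exp (-(6 / 5 : ℝ)) ^ (2 : ℕ) ≤ rho ^ (2 : ℕ) * (908 / 10000) :=
      mul_le_mul_of_nonneg_left e3 (by positivity)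
    set B := A (6 / 5) with hB
    rcases le_total 9 rho with h9 | h9
    · have e6 : B ≤ 3014 / 10000 * rho := by
        refine le_of_pow_le_pow_left₀ (n := 2) two_ne_zero (by positivity) ?_
        nlinarith only [e5, e1]
      linarith only [h0, hpi, e4, h9, e6]
    · have e6 : B ≤ rho - 59 / 10 := by
        refine le_of_pow_le_pow_left₀ (n := 2) two_ne_zero (by linarith only [h8]) ?_
        nlinarith only [h8, e5, e1]
      have e7 : B ≤ 2433 / 1000 := by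
        refine le_of_pow_le_pow_left₀ (n := 2) two_ne_zero (by norm_num) ?_
        nlinarith only [e5, e1, e2, h9, e6]
      have e8 : 4932 / 10000 ≤ (6 / 5) / B := by
        rw [le_div_iff₀ e2]
        linarith only [e7]
      have e9 : 3967 / 10000 ≤ Real.arctan ((6 / 5) / B) := by
        refine le_trans ?_ (Real.arctan_mono e8)
        refine le_trans ?_ (geoL_arctan (by norm_num))
        norm_num
      linarith only [h0, hpi, e6, e9]
  obtain ⟨a, ha, hfa⟩ := intermediate_value_Icc (by norm_num : (0 : ℝ) ≤ 6 / 5) hfc ⟨hf0, hf1⟩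
  refine ⟨a, A a, ha.1, ha.2, hApos a ha, ?_, ?_⟩
  · rw [hAsq a ha]
    ring
  · have hfa' : rho - A a + Real.arctan (a / A a) = 2 * Real.pi - φ := hfa
    linarith only [hfa']

/-- `s² ≥ 64 e^{-12/5} - 36/25 ≥ 4.3657`, `s = φ - 2π + rho + arctan(a/s) ≥ rho - 2π`; `rho ≥ 13`:
`rho e^{-a} ≥ s ≥ rho - 2π`, so `e^{-a} ≥ 1 - 2π/13 ≥ .5166`, `a ≤ .661`, `s ≥ 6.7168`. -/
theorem sad_L_facts {rho φ a s : ℝ} (h8 : 8 ≤ rho) (h0 : 0 ≤ φ) (ha : 0 ≤ a) (ha2 : a ≤ 6 / 5) (hs : 0 < s)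
    (h : s ^ (2 : ℕ) + a ^ (2 : ℕ) = rho ^ (2 : ℕ) * Real.exp (-a) ^ (2 : ℕ)) (hφ : s - rho - Real.arctan (a / s) = φ - 2 * Real.pi) :
    s ≤ rho ∧ rho - 2 * Real.pi ≤ s ∧ 2089 / 1000 ≤ s ∧ a ≤ 575 / 1000 * s ∧
      (13 ≤ rho → a ≤ 661 / 1000 ∧ a ≤ 985 / 10000 * s) := by
  have hpi := Real.pi_lt_d4
  have hat : 0 ≤ Real.arctan (a / s) := Real.arctan_nonneg.2 (by positivity)
  have e1 : Real.exp (-a) ≤ 1 := Real.exp_le_one_iff.2 (by linarith only [ha])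
  have e0 := Real.exp_pos (-a)
  have hsE : s ≤ rho * Real.exp (-a) := by
    refine le_of_pow_le_pow_left₀ (n := 2) two_ne_zero (by positivity) ?_
    rw [mul_pow]
    linarith only [h, sq_nonneg a]
  have hs1 : s ≤ rho := hsE.trans (mul_le_of_le_one_right (by linarith only [h8]) e1)
  have hs2 : rho - 2 * Real.pi ≤ s := by linarith only [h0, hφ, hat]
  have hs3 : 2089 / 1000 ≤ s := by
    refine le_of_pow_le_pow_left₀ (n := 2) two_ne_zero hs.le ?_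
    have := geoL_low h8 ha ha2
    norm_num
    linarith only [h, this]
  refine ⟨hs1, hs2, hs3, by linarith only [ha2, hs3], fun h13 => ?_⟩
  have ha3 : a ≤ 661 / 1000 := by
    by_contra hcon
    push Not at hcon
    have h2 : (19365 / 10000 : ℝ) ≤ Real.exp (661 / 1000) := by
      refine le_trans ?_ (Real.sum_le_exp_of_nonneg (by norm_num : (0 : ℝ) ≤ 661 / 1000) 6)
      norm_num [Finset.sum_range_succ, Nat.factorial]
    have h3 : Real.exp (661 / 1000) ≤ Real.exp a := Real.exp_le_exp.2 hcon.le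
    have h4 : Real.exp (-a) * Real.exp a = 1 := by rw [← Real.exp_add]; simp
    have h5 : Real.exp (-a) * (19365 / 10000) ≤ 1 := by
      rw [← h4]
      exact mul_le_mul_of_nonneg_left (h2.trans h3) e0.le
    have h6 : rho * Real.exp (-a) * (19365 / 10000) ≤ rho := by
      have := mul_le_mul_of_nonneg_left h5 (by linarith : (0 : ℝ) ≤ rho)
      linarith only [this]
    linarith only [hpi, hsE, hs2, h13, h6]
  exact ⟨ha3, by linarith only [hpi, hs2, h13, ha3]⟩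

open Complex in
/-- The saddle equation `rho e^g = g + iψ`, `ψ = φ + rho - π/2`, `g = -a + i(s - ψ)`. -/
theorem sad_L_eq {rho φ a s : ℝ} (hr : 0 < rho) (ha : 0 ≤ a) (hs : 0 < s)
    (h : s ^ (2 : ℕ) + a ^ (2 : ℕ) = rho ^ (2 : ℕ) * Real.exp (-a) ^ (2 : ℕ))
    (hφ : s - rho - Real.arctan (a / s) = φ - 2 * Real.pi) :
    (rho : ℂ) * cexp (-(a : ℂ) + ((s - (φ + rho - Real.pi / 2) : ℝ) : ℂ) * I) = -a + s * I := by
  have e0 := Real.exp_pos (-a)
  set θ := Real.arctan (a / s) with hθ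
  have h1 : s - (φ + rho - Real.pi / 2) = θ + Real.pi / 2 - 2 * Real.pi := by linarith only [hφ]
  have hR : 0 < rho * Real.exp (-a) := mul_pos hr e0
  have h2 : √(1 + (a / s) ^ (2 : ℕ)) = rho * Real.exp (-a) / s := by
    rw [Real.sqrt_eq_iff_mul_self_eq (by positivity) (by positivity)]
    field_simp
    linarith only [h]
  have hc : Real.cos θ = s / (rho * Real.exp (-a)) := by
    rw [hθ, Real.cos_arctan, h2, one_div_div]
  have hsn : Real.sin θ = a / (rho * Real.exp (-a)) := by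
    rw [hθ, Real.sin_arctan, h2]
    field_simp
  rw [h1, Complex.exp_add, Complex.exp_mul_I, ← Complex.ofReal_cos, ← Complex.ofReal_sin,
    Real.cos_sub_two_pi, Real.sin_sub_two_pi, Real.cos_add_pi_div_two, Real.sin_add_pi_div_two, hc, hsn,
    ← Complex.ofReal_neg, ← Complex.ofReal_exp]
  push_cast
  have hr' : (rho : ℂ) ≠ 0 := by exact_mod_cast hr.ne'
  have he' : Complex.exp (-(a : ℂ)) ≠ 0 := Complex.exp_ne_zero _
  field_simp

end SokamN1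

end

/-! ### Lib_MP_af4de1_f1.N1GeoR -/

section
/-!
# N = 1, large `rho`: the right saddle

`A(a) = √(rho² e^{2a} - a²)`, `A - rho + arctan(a/A)`: continuous on `[0, 3/5]`, `0` at `0`, at least `2π` at `3/5`
(`A(3/5) ≥ 1.8 rho`, `rho ≥ 8`).
-/

set_option autoImplicit false

namespace SokamN1

open Set

private theorem gr_arctan_le {x : ℝ} (hx : 0 ≤ x) : Real.arctan x ≤ x := by
  have h1 : 0 ≤ Real.arctan x := Real.arctan_nonneg.2 hx
  have h2 := Real.le_tan h1 (Real.arctan_lt_pi_div_two x)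
  rwa [Real.tan_arctan] at h2

private theorem gr_exp12 : (33 / 10 : ℝ) ≤ Real.exp (3 / 5) ^ (2 : ℕ) := by
  have h1 : Real.exp (3 / 5) ^ (2 : ℕ) = Real.exp 1 * Real.exp (1 / 5) := by
    rw [← Real.exp_nat_mul, ← Real.exp_add]
    norm_num
  have h2 := Real.exp_one_gt_d9
  have h3 := Real.quadratic_le_exp_of_nonneg (show (0 : ℝ) ≤ 1 / 5 by norm_num)
  rw [h1]
  nlinarith only [h2, h3]

private theorem gr_exp_one_sq : (7389 / 1000 : ℝ) ≤ Real.exp 1 ^ (2 : ℕ) := by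
  have h2 := Real.exp_one_gt_d9
  nlinarith

theorem sad_R {rho φ : ℝ} (h8 : 8 ≤ rho) (h0 : 0 ≤ φ) (h1 : φ ≤ 2 * Real.pi) :
    ∃ a s : ℝ, 0 ≤ a ∧ a ≤ 3 / 5 ∧ 0 < s ∧ s ^ (2 : ℕ) + a ^ (2 : ℕ) = rho ^ (2 : ℕ) * Real.exp a ^ (2 : ℕ) ∧
      s - rho + Real.arctan (a / s) = φ := by
  have hpi := Real.pi_lt_d2
  set A : ℝ → ℝ := fun a => √(rho ^ (2 : ℕ) * Real.exp a ^ (2 : ℕ) - a ^ (2 : ℕ)) with hA
  have hpos : ∀ a ∈ Icc (0 : ℝ) (3 / 5), 0 < rho ^ (2 : ℕ) * Real.exp a ^ (2 : ℕ) - a ^ (2 : ℕ) := by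
    intro a ha
    have h2 : 1 ≤ Real.exp a := Real.one_le_exp ha.1
    have h3 : 64 ≤ rho ^ (2 : ℕ) := by nlinarith only [h8]
    have h4 : 1 ≤ Real.exp a ^ (2 : ℕ) := by nlinarith only [h2]
    have h5 : a ^ (2 : ℕ) ≤ 1 := by
      have := ha.1
      have := ha.2
      nlinarith
    nlinarith only [h3, h4, h5]
  have hApos : ∀ a ∈ Icc (0 : ℝ) (3 / 5), 0 < A a := fun a ha => Real.sqrt_pos.2 (hpos a ha)
  have hcont : ContinuousOn (fun a => A a - rho + Real.arctan (a / A a)) (Icc (0 : ℝ) (3 / 5)) := by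
    have hc : Continuous A := by
      rw [hA]
      fun_prop
    have hd : ContinuousOn (fun a => a / A a) (Icc (0 : ℝ) (3 / 5)) :=
      continuousOn_id.div hc.continuousOn (fun a ha => (hApos a ha).ne')
    exact (hc.continuousOn.sub continuousOn_const).add (Real.continuous_arctan.comp_continuousOn hd)
  have h0' : A 0 - rho + Real.arctan (0 / A 0) = 0 := by
    have : A 0 = rho := by
      rw [hA]
      simp only [Real.exp_zero, one_pow, mul_one]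
      rw [show rho ^ (2 : ℕ) - 0 ^ (2 : ℕ) = rho ^ (2 : ℕ) by ring, Real.sqrt_sq (by linarith only [h8])]
    rw [this, zero_div, Real.arctan_zero]
    ring
  have hend : 2 * Real.pi ≤ A (3 / 5) - rho + Real.arctan ((3 / 5) / A (3 / 5)) := by
    have h2 : 9 / 5 * rho ≤ A (3 / 5) := by
      rw [hA]
      apply Real.le_sqrt_of_sq_le
      have := gr_exp12
      nlinarith only [h8, this]
    have h3 : 0 < A (3 / 5) := by linarith only [h8, h2]
    have h4 : 0 ≤ Real.arctan ((3 / 5) / A (3 / 5)) := Real.arctan_nonneg.2 (by positivity)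
    linarith only [h8, hpi, h2, h4]
  have hivt := intermediate_value_Icc (show (0 : ℝ) ≤ 3 / 5 by norm_num) hcont
  obtain ⟨a, ha, hav⟩ := hivt (show φ ∈ _ from ⟨by simp only [h0']; exact h0, h1.trans hend⟩)
  refine ⟨a, A a, ha.1, ha.2, hApos a ha, ?_, hav⟩
  have : A a ^ (2 : ℕ) = rho ^ (2 : ℕ) * Real.exp a ^ (2 : ℕ) - a ^ (2 : ℕ) := Real.sq_sqrt (hpos a ha).le
  rw [this]
  ring

/-- `e^{2a} ≥ 1 + 2a`; `e^a ≥ e a` (`Real.add_one_le_exp (a - 1)`): `s² ≥ (64 e² - 1) a² ≥ 471 a²`;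
`rho ≥ 13`: `s² ≥ (169 e² - 1) a² ≥ 1247 a²`. -/
theorem sad_R_facts {rho a s : ℝ} (h8 : 8 ≤ rho) (ha : 0 ≤ a) (ha2 : a ≤ 3 / 5) (hs : 0 < s)
    (h : s ^ (2 : ℕ) + a ^ (2 : ℕ) = rho ^ (2 : ℕ) * Real.exp a ^ (2 : ℕ)) :
    rho ≤ s ∧ s ≤ rho * Real.exp a ∧ a ≤ 461 / 10000 * s ∧ (13 ≤ rho → a ≤ 284 / 10000 * s) := by
  have he : Real.exp 1 * a ≤ Real.exp a := by
    have h1 := Real.add_one_le_exp (a - 1)
    have h2 : Real.exp a = Real.exp 1 * Real.exp (a - 1) := by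
      rw [← Real.exp_add]
      congr 1
      ring
    rw [h2]
    exact mul_le_mul_of_nonneg_left (by linarith only [h1]) (Real.exp_pos 1).le
  have he2 : Real.exp 1 ^ (2 : ℕ) * a ^ (2 : ℕ) ≤ Real.exp a ^ (2 : ℕ) := by
    have := pow_le_pow_left₀ (mul_nonneg (Real.exp_pos 1).le ha) he 2
    rwa [mul_pow] at this
  have he3 : 7389 / 1000 * a ^ (2 : ℕ) ≤ Real.exp a ^ (2 : ℕ) := by
    have := gr_exp_one_sq
    nlinarith only [he2, this]
  have he4 : 1 + 2 * a ≤ Real.exp a ^ (2 : ℕ) := by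
    have h1 := Real.add_one_le_exp (2 * a)
    have h2 : Real.exp a ^ (2 : ℕ) = Real.exp (2 * a) := by
      rw [← Real.exp_nat_mul]
      norm_num
    rw [h2]
    linarith only [h1]
  have hr2 : 64 ≤ rho ^ (2 : ℕ) := by nlinarith only [h8]
  refine ⟨?_, ?_, ?_, ?_⟩
  · apply le_of_sq_le_sq _ hs.le
    have h1 : rho ^ (2 : ℕ) * (1 + 2 * a) ≤ rho ^ (2 : ℕ) * Real.exp a ^ (2 : ℕ) := mul_le_mul_of_nonneg_left he4 (by positivity)
    nlinarith only [ha, ha2, h, hr2, h1]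
  · apply le_of_sq_le_sq _ (by have := Real.exp_pos a; positivity)
    rw [mul_pow]
    nlinarith only [h]
  · apply le_of_sq_le_sq _ (by positivity)
    have h1 : 64 * (7389 / 1000 * a ^ (2 : ℕ)) ≤ rho ^ (2 : ℕ) * Real.exp a ^ (2 : ℕ) :=
      mul_le_mul hr2 he3 (by positivity) (by positivity)
    rw [mul_pow]
    nlinarith only [h, h1]
  · intro h13
    apply le_of_sq_le_sq _ (by positivity)
    have hr3 : 169 ≤ rho ^ (2 : ℕ) := by nlinarith only [h13]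
    have h1 : 169 * (7389 / 1000 * a ^ (2 : ℕ)) ≤ rho ^ (2 : ℕ) * Real.exp a ^ (2 : ℕ) :=
      mul_le_mul hr3 he3 (by positivity) (by positivity)
    rw [mul_pow]
    nlinarith only [h, h1]

/-- The distance of the two saddles. -/
theorem sad_gap {rho φ a s a' s' : ℝ} (ha : 0 ≤ a) (hs : 0 < s) (ha' : 0 ≤ a') (hs' : 0 < s')
    (h : s - rho + Real.arctan (a / s) = φ) (h' : s' - rho - Real.arctan (a' / s') = φ - 2 * Real.pi)
    {t t' : ℝ} (ht : a ≤ t * s) (ht' : a' ≤ t' * s') : 2 * Real.pi - t - t' ≤ s - s' := by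
  have h1 : Real.arctan (a / s) ≤ t :=
    (gr_arctan_le (div_nonneg ha hs.le)).trans ((div_le_iff₀ hs).2 ht)
  have h2 : Real.arctan (a' / s') ≤ t' :=
    (gr_arctan_le (div_nonneg ha' hs'.le)).trans ((div_le_iff₀ hs').2 ht')
  linarith only [h, h', h1, h2]

open Complex in
/-- The saddle equation `rho e^g = g + iψ`, `ψ = φ + rho - π/2`, `g = a + i(s - ψ)`. -/
theorem sad_R_eq {rho φ a s : ℝ} (hr : 0 < rho) (ha : 0 ≤ a) (hs : 0 < s)
    (h : s ^ (2 : ℕ) + a ^ (2 : ℕ) = rho ^ (2 : ℕ) * Real.exp a ^ (2 : ℕ)) (hφ : s - rho + Real.arctan (a / s) = φ) :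
    (rho : ℂ) * cexp ((a : ℂ) + ((s - (φ + rho - Real.pi / 2) : ℝ) : ℂ) * I) = a + s * I := by
  have hθ : s - (φ + rho - Real.pi / 2) = Real.pi / 2 - Real.arctan (a / s) := by linarith only [hφ]
  set R : ℝ := rho * Real.exp a with hR
  have hRpos : 0 < R := mul_pos hr (Real.exp_pos a)
  have hR2 : s ^ (2 : ℕ) + a ^ (2 : ℕ) = R ^ (2 : ℕ) := by rw [h, hR, mul_pow]
  have hsq : √(1 + (a / s) ^ (2 : ℕ)) = R / s := by
    have h1 : 1 + (a / s) ^ (2 : ℕ) = (R / s) ^ (2 : ℕ) := by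
      rw [div_pow, div_pow, ← hR2]
      field_simp
    rw [h1, Real.sqrt_sq (by positivity)]
  have hcos : Real.cos (Real.pi / 2 - Real.arctan (a / s)) = a / R := by
    rw [Real.cos_pi_div_two_sub, Real.sin_arctan, hsq]
    field_simp
  have hsin : Real.sin (Real.pi / 2 - Real.arctan (a / s)) = s / R := by
    rw [Real.sin_pi_div_two_sub, Real.cos_arctan, hsq]
    field_simp
  rw [hθ, Complex.exp_add, Complex.exp_mul_I, ← Complex.ofReal_exp, ← Complex.ofReal_cos, ← Complex.ofReal_sin,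
    hcos, hsin, ← mul_assoc, ← Complex.ofReal_mul, ← hR]
  have hRc : (R : ℂ) ≠ 0 := by exact_mod_cast hRpos.ne'
  push_cast
  field_simp

end SokamN1

end

/-! ### Lib_MP_af4de1_f1.N1LR -/

section
/-!
# N = 1, large `rho`: the lifts on the path R

`Ht a s b y ≥ (b + a) y - c + s (1 - cos y)`, `c = a e^b + s (e^b - 1 - b)`; `lift0` with
`β = b + a - jδ/(2π)`, `X = s`.  Exponent: `2π(b + a) - c - (b + a)²/(1.6 s) ≥ 2πb - rho (e^b - 1 - b) - b²/(1.6 rho)`,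
because `s ≤ rho e^a`, `e^a - 1 ≤ 1.371 a` and
`2π - e^b - 1.371 rho (e^b - 1 - b) - (2b + a)/(1.6 s) ≥ 6.28 - 1.87 - 2.68 - .15 > 0`.
-/

set_option autoImplicit false

namespace SokamN1

open Complex Set MeasureTheory

theorem ht_R_lift {a s b y : ℝ} (hs : 0 < s) (ha : 0 ≤ a) (hb : 0 ≤ b) :
    (b + a) * y - (a * Real.exp b + s * (Real.exp b - 1 - b)) + s * (1 - Real.cos y) ≤ Ht a s b y := by
  unfold Ht
  have h1 : 0 ≤ a * Real.exp b * (1 - Real.sin y) :=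
    mul_nonneg (mul_nonneg ha (Real.exp_nonneg _)) (by linarith only [Real.sin_le_one y])
  have h2 : 0 ≤ s * ((Real.exp b - 1) * (1 - Real.cos y)) := by
    refine mul_nonneg hs.le (mul_nonneg ?_ (by linarith only [Real.cos_le_one y]))
    have := Real.add_one_le_exp b
    linarith only [hb, this]
  linarith only [h1, h2]

theorem liftR_int {δ a s b : ℝ} (hδ : 0 < δ) (hs : 0 < s) (ha : 0 ≤ a) (hb : 0 < b) (j : ℕ) :
    IntegrableOn (fun y => Wt δ (a + s * I) j b y) (Ioi 2) := by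
  refine int_of_height (c := b / δ) (C := Real.exp ((a * Real.exp b + s * (Real.exp b - 1 - b)) / δ)) (b := b)
    (div_pos hb hδ) j (continuous_Wt_y δ (a + s * I) j b) (fun y hy => ?_) (Real.exp_nonneg _)
  rw [norm_Wt]
  refine mul_le_mul_of_nonneg_left ?_ (by positivity)
  rw [← Real.exp_add]
  refine Real.exp_le_exp.2 ?_
  have h1 := ht_R_lift (y := y) hs ha hb.le
  have h2 : 0 ≤ s * (1 - Real.cos y) := mul_nonneg hs.le (by linarith only [Real.cos_le_one y])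
  have h3 : (a * Real.exp b + s * (Real.exp b - 1 - b)) / δ + -(b / δ * y) =
      ((a * Real.exp b + s * (Real.exp b - 1 - b)) - b * y) / δ := by ring
  rw [h3]
  refine div_le_div_of_nonneg_right ?_ hδ.le
  have h4 : 0 ≤ a * y := mul_nonneg ha (by linarith only [hy])
  linarith only [h1, h2, h4]

theorem key_R {rho a s b : ℝ} (h8 : 8 ≤ rho) (hb0 : 0 < b) (hbr : b * rho = 5) (hb58 : b ≤ 5 / 8)
    (ha : 0 ≤ a) (ha2 : a ≤ 3 / 5) (hs : rho ≤ s) (hs2 : s ≤ rho * Real.exp a) :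
    2 * Real.pi * b - rho * (Real.exp b - 1 - b) - b ^ (2 : ℕ) / (8 / 5 * rho) ≤
      2 * Real.pi * (b + a) - (a * Real.exp b + s * (Real.exp b - 1 - b)) - (b + a) ^ (2 : ℕ) / (8 / 5 * s) := by
  have hr0 : 0 < rho := by linarith only [h8]
  have hs0 : 0 < s := by linarith only [hs, hr0]
  have hexpb : Real.exp b ≤ 187 / 100 := (Real.exp_le_exp.2 hb58).trans exp_58
  have hsub := exp_sub_A hb0.le hb58
  have hsub0 : 0 ≤ Real.exp b - 1 - b := by linarith only [Real.add_one_le_exp b]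
  have hea := exp_le_lin ha ha2
  have hsr : s - rho ≤ 1371 / 1000 * rho * a := by
    have : rho * (Real.exp a - 1) ≤ rho * (1371 / 1000 * a) := mul_le_mul_of_nonneg_left hea hr0.le
    linarith only [hs2, this]
  have k1 : (b + a) ^ (2 : ℕ) / (8 / 5 * s) ≤ (b + a) ^ (2 : ℕ) / (8 / 5 * rho) :=
    div_le_div_of_nonneg_left (by positivity) (by positivity) (by linarith only [hs])
  have k2 : (b + a) ^ (2 : ℕ) / (8 / 5 * rho) - b ^ (2 : ℕ) / (8 / 5 * rho) ≤ 3 / 20 * a := by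
    rw [← sub_div, div_le_iff₀ (by positivity)]
    have h1 : (b + a) ^ (2 : ℕ) - b ^ (2 : ℕ) = a * (2 * b + a) := by ring
    have h2 : 3 / 20 * a * (8 / 5 * rho) = a * (6 / 25 * rho) := by ring
    rw [h1, h2]
    refine mul_le_mul_of_nonneg_left ?_ ha
    linarith only [h8, hb58, ha2]
  have k3 : (s - rho) * (Real.exp b - 1 - b) ≤ 268 / 100 * a := by
    have k4 : rho * (Real.exp b - 1 - b) ≤ 125 / 64 := by
      have : rho * (Real.exp b - 1 - b) ≤ rho * (5 / 8 * b ^ (2 : ℕ)) := mul_le_mul_of_nonneg_left hsub hr0.le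
      have h5 : rho * (5 / 8 * b ^ (2 : ℕ)) = 5 / 8 * 5 * b := by
        rw [← hbr]
        ring
      rw [h5] at this
      linarith only [hb58, this]
    calc (s - rho) * (Real.exp b - 1 - b) ≤ (1371 / 1000 * rho * a) * (Real.exp b - 1 - b) :=
          mul_le_mul_of_nonneg_right hsr hsub0
      _ = (1371 / 1000 * a) * (rho * (Real.exp b - 1 - b)) := by ring
      _ ≤ (1371 / 1000 * a) * (125 / 64) := mul_le_mul_of_nonneg_left k4 (by positivity)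
      _ ≤ _ := by linarith only [ha]
  have k5 : a * Real.exp b ≤ a * (187 / 100) := mul_le_mul_of_nonneg_left hexpb ha
  have k6 : (s - rho) * (Real.exp b - 1 - b) = s * (Real.exp b - 1 - b) - rho * (Real.exp b - 1 - b) := by ring
  have k7 : 2 * 3.14 * a ≤ 2 * Real.pi * a := by
    have := Real.pi_gt_d2
    nlinarith only [hs, hr0, hsr, this]
  have k8 : 2 * Real.pi * (b + a) = 2 * Real.pi * b + 2 * Real.pi * a := by ring
  linarith only [ha, k1, k2, k3, k5, k7]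

theorem liftR_gen {δ rho a s b : ℝ} (hδ : 0 < δ) (h8 : 8 ≤ rho) (hδ2 : δ * rho ≤ 73 / 10) (hb : b = 5 / rho)
    (ha : 0 ≤ a) (ha2 : a ≤ 3 / 5) (hs : rho ≤ s) (hs2 : s ≤ rho * Real.exp a) {j : ℕ} (hj : j ≤ 2) :
    ‖∫ y in Ioi (2 : ℝ), Wt δ (a + s * I) j b y‖ ≤
      (2 * Real.pi * √(1 + b ^ (2 : ℕ) / 4)) ^ j * (1 - Real.exp (j - 2 * Real.pi * b / δ))⁻¹ *
        (Real.exp (-((2 * Real.pi * b - rho * (Real.exp b - 1 - b) - b ^ (2 : ℕ) / (8 / 5 * rho)) / δ)) *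
          √(5 / 2 * Real.pi) * √(δ / s) + 2 * Real.pi * Real.exp (-(3 / 4 * s / δ))) := by
  have hp := Real.pi_pos
  have hp3 := Real.pi_gt_three
  have hp4 := Real.pi_gt_d2
  have hr0 : 0 < rho := by linarith only [h8]
  have hs0 : 0 < s := by linarith only [h8, hs]
  have hb0 : 0 < b := by rw [hb]; positivity
  have hbr : b * rho = 5 := by rw [hb]; field_simp
  have hb58 : b ≤ 5 / 8 := by
    rw [hb]
    exact div_le_div_of_nonneg_left (by norm_num) (by norm_num) h8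
  have hj' : (j : ℝ) ≤ 2 := by exact_mod_cast hj
  have hj0 : (0 : ℝ) ≤ j := Nat.cast_nonneg j
  have hδb : δ ≤ 73 / 50 * b := by
    have : δ * rho ≤ 73 / 50 * b * rho := by rw [mul_assoc, hbr]; linarith only [hδ2]
    exact le_of_mul_le_mul_right this hr0
  have hjδ : (j : ℝ) * δ ≤ 3 * b := by nlinarith only [hb0, hj', hδb]
  set β : ℝ := b + a - j * δ / (2 * Real.pi) with hβd
  have hβb : 0 < b - j * δ / (2 * Real.pi) := by
    rw [sub_pos, div_lt_iff₀ (by positivity)]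
    nlinarith only [hp4, hr0, hbr, hjδ]
  have hβ : 0 < β := by
    rw [hβd]
    linarith only [ha, hβb]
  have hβba : β ≤ b + a := by
    rw [hβd]
    have : 0 ≤ j * δ / (2 * Real.pi) := by positivity
    linarith only [this]
  obtain ⟨hi, hle⟩ := lift0 hβ hs0 hδ fun t ht => one_sub_cos_half ht
  set c : ℝ := a * Real.exp b + s * (Real.exp b - 1 - b) with hc
  set K : ℝ := (2 * Real.pi * √(1 + b ^ (2 : ℕ) / 4)) ^ j * Real.exp (-j + c / δ) with hK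
  have hK0 : 0 ≤ K := by positivity
  have hpt : ∀ y ∈ Ioi (2 : ℝ), ‖Wt δ (a + s * I) j b y‖ ≤
      K * Real.exp (-(β * y + s * (1 - Real.cos y)) / δ) := by
    intro y hy
    have hy2 : 2 < y := hy
    rw [norm_Wt]
    have h1 := ht_R_lift (y := y) hs0 ha hb0.le
    have h2 : Real.exp (-Ht a s b y / δ) ≤
        Real.exp (-((b + a) * y - c + s * (1 - Real.cos y)) / δ) := by
      refine Real.exp_le_exp.2 (div_le_div_of_nonneg_right ?_ hδ.le)
      linarith only [h1]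
    refine (mul_le_mul (sqrt_pow_le hy2.le j) h2 (Real.exp_nonneg _) (by positivity)).trans (le_of_eq ?_)
    rw [hK]
    generalize (2 * Real.pi * √(1 + b ^ (2 : ℕ) / 4)) ^ j = B
    have e0 : ∀ x1 x2 x3 x4 : ℝ, x1 + x2 = x3 + x4 → B * Real.exp x1 * Real.exp x2 = B * Real.exp x3 * Real.exp x4 := by
      intro x1 x2 x3 x4 h
      rw [mul_assoc, mul_assoc, ← Real.exp_add, ← Real.exp_add, h]
    refine e0 _ _ _ _ ?_
    rw [hβd]
    field_simp
    ring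
  have hn : ‖∫ y in Ioi (2 : ℝ), Wt δ (a + s * I) j b y‖ ≤
      K * ∫ y in Ioi (2 : ℝ), Real.exp (-(β * y + s * (1 - Real.cos y)) / δ) := by
    rw [← MeasureTheory.integral_const_mul]
    refine (norm_integral_le_integral_norm _).trans ?_
    refine setIntegral_mono_on (liftR_int hδ hs0 ha hb0 j).norm (hi.const_mul K) measurableSet_Ioi hpt
  refine hn.trans ((mul_le_mul_of_nonneg_left hle hK0).trans ?_)
  have hβ2 : -(2 * Real.pi * β / δ) = j - 2 * Real.pi * (b + a) / δ := by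
    rw [hβd]
    field_simp
    ring
  rw [hβ2]
  have hqq : (j : ℝ) - 2 * Real.pi * (b + a) / δ ≤ j - 2 * Real.pi * b / δ := by
    have : 2 * Real.pi * b / δ ≤ 2 * Real.pi * (b + a) / δ :=
      div_le_div_of_nonneg_right (by nlinarith only [ha, hp4]) hδ.le
    linarith only [this]
  have hq : Real.exp (j - 2 * Real.pi * b / δ) < 1 := by
    rw [Real.exp_lt_one_iff, sub_neg, lt_div_iff₀ hδ]
    nlinarith only [hp4, hb0, hjδ]
  have hq' : 0 < 1 - Real.exp (j - 2 * Real.pi * b / δ) := by linarith only [hq]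
  have hq2 : (1 - Real.exp (j - 2 * Real.pi * (b + a) / δ))⁻¹ ≤ (1 - Real.exp (j - 2 * Real.pi * b / δ))⁻¹ :=
    inv_anti₀ hq' (by linarith only [Real.exp_le_exp.2 hqq])
  rw [hK]
  have e1 : √(Real.pi * δ / (2 / 5 * s)) = √(5 / 2 * Real.pi) * √(δ / s) := by
    rw [← Real.sqrt_mul (by positivity)]
    congr 1
    field_simp
  rw [e1]
  -- the exponent
  have hexpb : Real.exp b ≤ 187 / 100 := (Real.exp_le_exp.2 hb58).trans exp_58
  have hsub := exp_sub_A hb0.le hb58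
  have hsub0 : 0 ≤ Real.exp b - 1 - b := by linarith only [Real.add_one_le_exp b]
  have hea := exp_le_lin ha ha2
  have hsr : s - rho ≤ 1371 / 1000 * rho * a := by nlinarith only [h8, hs2, hea]
  have key : 2 * Real.pi * b - rho * (Real.exp b - 1 - b) - b ^ (2 : ℕ) / (8 / 5 * rho) ≤
      2 * Real.pi * (b + a) - c - (b + a) ^ (2 : ℕ) / (8 / 5 * s) := key_R h8 hb0 hbr hb58 ha ha2 hs hs2
  have e2 : Real.exp (-j + c / δ) * (Real.exp (j - 2 * Real.pi * (b + a) / δ + β ^ (2 : ℕ) / (8 / 5 * s * δ))) ≤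
      Real.exp (-((2 * Real.pi * b - rho * (Real.exp b - 1 - b) - b ^ (2 : ℕ) / (8 / 5 * rho)) / δ)) := by
    rw [← Real.exp_add]
    refine Real.exp_le_exp.2 ?_
    have h1 : β ^ (2 : ℕ) / (8 / 5 * s * δ) ≤ (b + a) ^ (2 : ℕ) / (8 / 5 * s) / δ := by
      rw [div_div]
      refine div_le_div_of_nonneg_right ?_ (by positivity)
      exact pow_le_pow_left₀ hβ.le hβba 2
    have h2 := div_le_div_of_nonneg_right key hδ.le
    have h3 : (2 * Real.pi * (b + a) - c - (b + a) ^ (2 : ℕ) / (8 / 5 * s)) / δ =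
        2 * Real.pi * (b + a) / δ - c / δ - (b + a) ^ (2 : ℕ) / (8 / 5 * s) / δ := by ring
    rw [h3] at h2
    linarith only [h1, h2]
  have e3 : Real.exp (-j + c / δ) * Real.exp (-((2 * β + s) / δ)) ≤ Real.exp (-(3 / 4 * s / δ)) := by
    rw [← Real.exp_add]
    refine Real.exp_le_exp.2 ?_
    have h1 : -((2 * β + s) / δ) = -((2 * (b + a) + s) / δ) + j / Real.pi := by
      rw [hβd]
      field_simp
      ring
    have h2 : (j : ℝ) / Real.pi ≤ j := by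
      rw [div_le_iff₀ hp]
      nlinarith only [hp4]
    rw [h1]
    have h3 : c - (2 * (b + a) + s) ≤ -(3 / 4 * s) := by
      rw [hc]
      have h4 : a * Real.exp b ≤ a * 2 := mul_le_mul_of_nonneg_left (by linarith only [hexpb]) ha
      have h5 : s * (Real.exp b - 1 - b) ≤ s * (1 / 4) := by
        refine mul_le_mul_of_nonneg_left (hsub.trans ?_) hs0.le
        have h6 : b ^ (2 : ℕ) ≤ (5 / 8) ^ (2 : ℕ) := pow_le_pow_left₀ hb0.le hb58 2
        linarith only [h6]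
      linarith only [hb0, h4, h5]
    have h4 := div_le_div_of_nonneg_right h3 hδ.le
    have h5 : (c - (2 * (b + a) + s)) / δ = c / δ - (2 * (b + a) + s) / δ := by ring
    have h6 : -(3 / 4 * s) / δ = -(3 / 4 * s / δ) := by ring
    rw [h5, h6] at h4
    linarith only [h2, h4]
  have hA : 0 ≤ (2 * Real.pi * √(1 + b ^ (2 : ℕ) / 4)) ^ j * (1 - Real.exp (j - 2 * Real.pi * b / δ))⁻¹ :=
    mul_nonneg (by positivity) (inv_nonneg.2 hq'.le)
  calc (2 * Real.pi * √(1 + b ^ (2 : ℕ) / 4)) ^ j * Real.exp (-j + c / δ) *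
        ((1 - Real.exp (j - 2 * Real.pi * (b + a) / δ))⁻¹ *
          (Real.exp (j - 2 * Real.pi * (b + a) / δ + β ^ (2 : ℕ) / (8 / 5 * s * δ)) *
            (√(5 / 2 * Real.pi) * √(δ / s)) + 2 * Real.pi * Real.exp (-((2 * β + s) / δ))))
      ≤ (2 * Real.pi * √(1 + b ^ (2 : ℕ) / 4)) ^ j * Real.exp (-j + c / δ) *
        ((1 - Real.exp (j - 2 * Real.pi * b / δ))⁻¹ *
          (Real.exp (j - 2 * Real.pi * (b + a) / δ + β ^ (2 : ℕ) / (8 / 5 * s * δ)) *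
            (√(5 / 2 * Real.pi) * √(δ / s)) + 2 * Real.pi * Real.exp (-((2 * β + s) / δ)))) := by
        refine mul_le_mul_of_nonneg_left (mul_le_mul_of_nonneg_right hq2 (by positivity)) (by positivity)
    _ = (2 * Real.pi * √(1 + b ^ (2 : ℕ) / 4)) ^ j * (1 - Real.exp (j - 2 * Real.pi * b / δ))⁻¹ *
        ((Real.exp (-j + c / δ) * Real.exp (j - 2 * Real.pi * (b + a) / δ + β ^ (2 : ℕ) / (8 / 5 * s * δ))) *
            (√(5 / 2 * Real.pi) * √(δ / s)) +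
          2 * Real.pi * (Real.exp (-j + c / δ) * Real.exp (-((2 * β + s) / δ)))) := by ring
    _ ≤ (2 * Real.pi * √(1 + b ^ (2 : ℕ) / 4)) ^ j * (1 - Real.exp (j - 2 * Real.pi * b / δ))⁻¹ *
        (Real.exp (-((2 * Real.pi * b - rho * (Real.exp b - 1 - b) - b ^ (2 : ℕ) / (8 / 5 * rho)) / δ)) *
            (√(5 / 2 * Real.pi) * √(δ / s)) + 2 * Real.pi * Real.exp (-(3 / 4 * s / δ))) := by
        refine mul_le_mul_of_nonneg_left (add_le_add ?_ ?_) hA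
        · exact mul_le_mul_of_nonneg_right e2 (by positivity)
        · exact mul_le_mul_of_nonneg_left e3 (by positivity)
    _ = _ := by ring

end SokamN1

end

/-! ### Lib_MP_af4de1_f1.N1LRn -/

section
/-!
# N = 1, large `rho`: the lifts on the path R, numbers

`b = 5/rho`.  A: `rho ≤ 13`, `δ ≤ 10 rho/499`: exponent `≥ 49.9 (10π - 15.625 - 15.625/64)/169 ≥ 4.59`,
`e^{-4.59} √(5π/2) ≤ .0285`.  C: `rho ≥ 13`, `δ rho ≤ 7.2552`: exponent `≥ (10π - 14.375 - .0925)/7.2552 ≥ 2.3359`,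
`e^{-2.3359} √(5π/2) ≤ .2711`, `2πb/δ ≥ 4.3301`.
-/

set_option autoImplicit false

namespace SokamN1

open Complex Set MeasureTheory

/-- numerical upper bounds of `exp` at negative points -/
private theorem lrn_exp {x f r : ℝ} (n : ℕ) (hx : x ≤ -(n + f)) (hf : 0 ≤ f) (hr : 0 < r)
    (h : 1 ≤ r * ((27182818283 / 10000000000) ^ n * (1 + f + f ^ (2 : ℕ) / 2 + f ^ (3 : ℕ) / 6 + f ^ (4 : ℕ) / 24))) :
    Real.exp x ≤ r := by
  have h1 : (27182818283 / 10000000000 : ℝ) < Real.exp 1 := by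
    have := Real.exp_one_gt_d9
    norm_num at this ⊢
    exact this
  have h2 : (27182818283 / 10000000000 : ℝ) ^ n ≤ Real.exp n := by
    have : Real.exp n = Real.exp 1 ^ n := by
      rw [← Real.exp_nat_mul, mul_one]
    rw [this]
    exact pow_le_pow_left₀ (by norm_num) h1.le n
  have h3 : 1 + f + f ^ (2 : ℕ) / 2 + f ^ (3 : ℕ) / 6 + f ^ (4 : ℕ) / 24 ≤ Real.exp f := by
    have := Real.sum_le_exp_of_nonneg hf 5
    simp only [Finset.sum_range_succ, Finset.sum_range_zero, Nat.factorial] at this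
    norm_num at this
    linarith only [this]
  have h4 : (27182818283 / 10000000000) ^ n * (1 + f + f ^ (2 : ℕ) / 2 + f ^ (3 : ℕ) / 6 + f ^ (4 : ℕ) / 24) ≤
      Real.exp (n + f) := by
    rw [Real.exp_add]
    exact mul_le_mul h2 h3 (by positivity) (Real.exp_pos _).le
  have h5 : 1 ≤ r * Real.exp (n + f) := h.trans (mul_le_mul_of_nonneg_left h4 hr.le)
  calc Real.exp x ≤ Real.exp (-(n + f)) := Real.exp_le_exp.2 hx
    _ = (Real.exp (n + f))⁻¹ := Real.exp_neg _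
    _ ≤ r := by
        rw [inv_le_iff_one_le_mul₀ (Real.exp_pos _)]
        exact h5

private theorem lrn_tiny {δ s : ℝ} (hδ : 0 < δ) (hs : 0 < s) (hz : 48 ≤ s / δ) :
    2 * Real.pi * Real.exp (-(3 / 4 * s / δ)) ≤ 1 / 100000 * √(δ / s) := by
  obtain ⟨z, hzd⟩ : ∃ z, z = s / δ := ⟨_, rfl⟩
  rw [← hzd] at hz
  have hz0 : 0 < z := by linarith only [hz]
  have e1 : δ / s = z⁻¹ := by rw [hzd, inv_div]
  have e2 : 3 / 4 * s / δ = 3 / 4 * z := by rw [hzd]; ring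
  rw [e1, e2]
  have h1 : z⁻¹ ≤ √(z⁻¹) := by
    apply Real.le_sqrt_of_sq_le
    have h2 : z⁻¹ ≤ 1 := inv_le_one_of_one_le₀ (by linarith only [hz])
    have h3 : 0 ≤ z⁻¹ := (inv_pos.2 hz0).le
    nlinarith
  have h4 : z / 4 ≤ Real.exp (z / 4) := by
    have := Real.add_one_le_exp (z / 4)
    linarith only [this]
  have h5 : Real.exp (-(3 / 4 * z)) = Real.exp (-(z / 2)) * (Real.exp (z / 4))⁻¹ := by
    rw [← Real.exp_neg, ← Real.exp_add]
    congr 1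
    ring
  have h6 : Real.exp (-(z / 2)) ≤ 1 / 10000000 := by
    refine lrn_exp 24 (f := 0) ?_ le_rfl (by norm_num) ?_
    · push_cast
      linarith only [hz]
    · norm_num
  have h7 : (Real.exp (z / 4))⁻¹ ≤ 4 * z⁻¹ := by
    have : (Real.exp (z / 4))⁻¹ ≤ (z / 4)⁻¹ := inv_anti₀ (by positivity) h4
    refine this.trans (le_of_eq ?_)
    rw [inv_div]
    ring
  have hpi := Real.pi_lt_four
  have hpi0 := Real.pi_pos
  calc 2 * Real.pi * Real.exp (-(3 / 4 * z)) ≤ 2 * 4 * (1 / 10000000 * (4 * z⁻¹)) := by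
        rw [h5]
        refine mul_le_mul (by linarith only [hpi]) (mul_le_mul h6 h7 (by positivity) (by norm_num))
          (by positivity) (by norm_num)
    _ ≤ 1 / 100000 * z⁻¹ := by
        have : 0 < z⁻¹ := inv_pos.2 hz0
        linarith only [this]
    _ ≤ 1 / 100000 * √(z⁻¹) := mul_le_mul_of_nonneg_left h1 (by norm_num)

private theorem lrn_fin {B B0 q q0 X G w Y L R5 : ℝ} (j : ℕ) (hB : 0 ≤ B) (hB0 : B ≤ B0)
    (hq : q ≤ q0) (hq0 : q0 < 1) (hX : X * R5 ≤ G) (hw : 0 ≤ w)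
    (hY : Y ≤ 1 / 100000 * w) (h0 : 0 ≤ X * R5 * w + Y)
    (hL : B0 ^ j * (1 - q0)⁻¹ * (G + 1 / 100000) ≤ L) :
    B ^ j * (1 - q)⁻¹ * (X * R5 * w + Y) ≤ L * w := by
  have h1 : B ^ j ≤ B0 ^ j := pow_le_pow_left₀ hB hB0 j
  have h2 : (1 - q)⁻¹ ≤ (1 - q0)⁻¹ := inv_anti₀ (by linarith only [hq0]) (by linarith only [hq])
  have h3 : 0 ≤ (1 - q0)⁻¹ := inv_nonneg.2 (by linarith only [hq0])
  have h4 : 0 ≤ (1 - q)⁻¹ := inv_nonneg.2 (by linarith only [hq, hq0])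
  have h5 : X * R5 * w + Y ≤ (G + 1 / 100000) * w := by
    have := mul_le_mul_of_nonneg_right hX hw
    linarith only [hY, this]
  have hB00 : 0 ≤ B0 := hB.trans hB0
  calc B ^ j * (1 - q)⁻¹ * (X * R5 * w + Y) ≤ B0 ^ j * (1 - q0)⁻¹ * ((G + 1 / 100000) * w) :=
        mul_le_mul (mul_le_mul h1 h2 h4 (by positivity)) h5 h0 (by positivity)
    _ = (B0 ^ j * (1 - q0)⁻¹ * (G + 1 / 100000)) * w := by ring
    _ ≤ L * w := mul_le_mul_of_nonneg_right hL hw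

private theorem lrn_r5 : √(5 / 2 * Real.pi) ≤ 28026 / 10000 := by
  rw [Real.sqrt_le_left (by norm_num)]
  have := Real.pi_lt_d4
  norm_num at this ⊢
  linarith only [this]

theorem liftR_A {δ rho a s : ℝ} (hδ : 0 < δ) (h8 : 8 ≤ rho) (h13 : rho ≤ 13) (hz : 499 / 10 * δ ≤ rho)
    (ha : 0 ≤ a) (ha2 : a ≤ 3 / 5) (hs : rho ≤ s) (hs2 : s ≤ rho * Real.exp a) :
    ‖∫ y in Ioi (2 : ℝ), Wt δ (a + s * I) 0 (5 / rho) y‖ ≤ 3 / 100 * √(δ / s) ∧
    ‖∫ y in Ioi (2 : ℝ), Wt δ (a + s * I) 1 (5 / rho) y‖ ≤ 20 / 100 * √(δ / s) ∧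
    ‖∫ y in Ioi (2 : ℝ), Wt δ (a + s * I) 2 (5 / rho) y‖ ≤ 130 / 100 * √(δ / s) := by
  have hr0 : 0 < rho := by linarith only [h8]
  have hs0 : 0 < s := by linarith only [hs, hr0]
  have hδr : δ * rho ≤ 33868 / 10000 := by nlinarith
  have hδr2 : δ * rho * 499 ≤ 1690 := by nlinarith
  have hδr0 : 0 < δ * rho := by positivity
  have hp3 := Real.pi_gt_d4
  have hp4 := Real.pi_lt_d4
  norm_num at hp3 hp4
  have hp0 := Real.pi_pos
  obtain ⟨b, hb⟩ : ∃ b, b = 5 / rho := ⟨_, rfl⟩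
  have hb0 : 0 < b := by rw [hb]; positivity
  have hbr : b * rho = 5 := by rw [hb]; field_simp
  have hb58 : b ≤ 5 / 8 := by
    rw [hb]
    exact div_le_div_of_nonneg_left (by norm_num) (by norm_num) h8
  have hz : 48 ≤ s / δ := by
    rw [le_div_iff₀ hδ]
    linarith only [hz, hs, hr0]
  have htiny := lrn_tiny hδ hs0 hz
  have hB : 2 * Real.pi * √(1 + b ^ (2 : ℕ) / 4) ≤ 6584 / 1000 := by
    have h1 : √(1 + b ^ (2 : ℕ) / 4) ≤ 10478 / 10000 := by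
      rw [Real.sqrt_le_left (by norm_num)]
      have h2 : b ^ (2 : ℕ) ≤ (5 / 8) ^ (2 : ℕ) := pow_le_pow_left₀ hb0.le hb58 2
      norm_num at h2 ⊢
      linarith only [h2]
    calc 2 * Real.pi * √(1 + b ^ (2 : ℕ) / 4) ≤ 2 * (31416 / 10000) * (10478 / 10000) := by
          refine mul_le_mul (by linarith only [hp4]) h1 (Real.sqrt_nonneg _) (by norm_num)
      _ ≤ _ := by norm_num
  have hE : 459 / 100 ≤ (2 * Real.pi * b - rho * (Real.exp b - 1 - b) - b ^ (2 : ℕ) / (8 / 5 * rho)) / δ := by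
    have h1 : rho * (Real.exp b - 1 - b) ≤ rho * (5 / 8 * b ^ (2 : ℕ)) :=
      mul_le_mul_of_nonneg_left (exp_sub_A hb0.le hb58) hr0.le
    have h2 : rho * (5 / 8 * b ^ (2 : ℕ)) = 25 / 8 * b := by
      have : rho * (5 / 8 * b ^ (2 : ℕ)) = 5 / 8 * (b * rho) * b := by ring
      rw [this, hbr]
      ring
    have h3 : b ^ (2 : ℕ) / (8 / 5 * rho) ≤ 4883 / 100000 * b := by
      rw [div_le_iff₀ (by positivity)]
      have h4 : 4883 / 100000 * b * (8 / 5 * rho) = b * (8 / 5 * (4883 / 100000) * rho) := by ring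
      rw [h4, pow_two]
      refine mul_le_mul_of_nonneg_left ?_ hb0.le
      linarith only [h8, hb58]
    rw [le_div_iff₀ hδ]
    have h5 : 6.28318 * b - 25 / 8 * b - 4883 / 100000 * b ≤
        2 * Real.pi * b - rho * (Real.exp b - 1 - b) - b ^ (2 : ℕ) / (8 / 5 * rho) := by
      have : 6.28318 * b ≤ 2 * Real.pi * b := by
        refine mul_le_mul_of_nonneg_right ?_ hb0.le
        have := Real.pi_gt_d6
        norm_num at this ⊢
        linarith only [this]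
      linarith only [h1, h2, h3, this]
    refine le_trans ?_ h5
    refine le_of_mul_le_mul_right ?_ hr0
    have h6 : (6.28318 * b - 25 / 8 * b - 4883 / 100000 * b) * rho =
        (6.28318 - 25 / 8 - 4883 / 100000) * (b * rho) := by ring
    rw [h6, hbr]
    norm_num
    linarith only [hδr2]
  have hX : Real.exp (-((2 * Real.pi * b - rho * (Real.exp b - 1 - b) -
      b ^ (2 : ℕ) / (8 / 5 * rho)) / δ)) * √(5 / 2 * Real.pi) ≤ 286 / 10000 := by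
    have h1 : Real.exp (-((2 * Real.pi * b - rho * (Real.exp b - 1 - b) -
        b ^ (2 : ℕ) / (8 / 5 * rho)) / δ)) ≤ 102 / 10000 := by
      refine lrn_exp 4 (f := 59 / 100) ?_ (by norm_num) (by norm_num) (by norm_num)
      push_cast
      linarith only [hE]
    calc _ ≤ (102 / 10000 : ℝ) * (28026 / 10000) :=
          mul_le_mul h1 lrn_r5 (Real.sqrt_nonneg _) (by norm_num)
      _ ≤ _ := by norm_num
  have hq : ∀ j : ℕ, j ≤ 2 → Real.exp (j - 2 * Real.pi * b / δ) ≤ 1 / 1000 := by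
    intro j hj
    have hj' : (j : ℝ) ≤ 2 := by exact_mod_cast hj
    refine lrn_exp 7 (f := 0) ?_ le_rfl (by norm_num) (by norm_num)
    have h1 : 9 ≤ 2 * Real.pi * b / δ := by
      rw [le_div_iff₀ hδ]
      refine le_of_mul_le_mul_right ?_ hr0
      have : 2 * Real.pi * b * rho = 2 * Real.pi * (b * rho) := by ring
      rw [this, hbr]
      linarith only [hδr2, hp3]
    push_cast
    linarith only [hj', h1]
  rw [← hb]
  have hw : 0 ≤ √(δ / s) := Real.sqrt_nonneg _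
  have hgen := fun (j : ℕ) (hj : j ≤ 2) =>
    liftR_gen hδ h8 (by linarith only [hδr2]) hb ha ha2 hs hs2 hj
  refine ⟨(hgen 0 (by norm_num)).trans ?_, (hgen 1 (by norm_num)).trans ?_,
    (hgen 2 (by norm_num)).trans ?_⟩
  · refine lrn_fin 0 (by positivity) hB (hq 0 (by norm_num)) (by norm_num) hX hw htiny
      (by positivity) (by norm_num)
  · refine lrn_fin 1 (by positivity) hB (hq 1 (by norm_num)) (by norm_num) hX hw htiny
      (by positivity) (by norm_num)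
  · refine lrn_fin 2 (by positivity) hB (hq 2 (by norm_num)) (by norm_num) hX hw htiny
      (by positivity) (by norm_num)

theorem liftR_C {δ rho a s : ℝ} (hδ : 0 < δ) (h13 : 13 ≤ rho) (hz : 499 / 10 * δ ≤ rho)
    (hl : δ * rho ≤ 72552 / 10000)
    (ha : 0 ≤ a) (ha2 : a ≤ 3 / 5) (hs : rho ≤ s) (hs2 : s ≤ rho * Real.exp a) :
    ‖∫ y in Ioi (2 : ℝ), Wt δ (a + s * I) 0 (5 / rho) y‖ ≤ 28 / 100 * √(δ / s) ∧
    ‖∫ y in Ioi (2 : ℝ), Wt δ (a + s * I) 1 (5 / rho) y‖ ≤ 183 / 100 * √(δ / s) ∧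
    ‖∫ y in Ioi (2 : ℝ), Wt δ (a + s * I) 2 (5 / rho) y‖ ≤ 1250 / 100 * √(δ / s) := by
  have hr0 : 0 < rho := by linarith only [h13]
  have hs0 : 0 < s := by linarith only [hs, hr0]
  have hδr0 : 0 < δ * rho := by positivity
  have hp3 := Real.pi_gt_d6
  have hp4 := Real.pi_lt_d4
  norm_num at hp3 hp4
  have hp0 := Real.pi_pos
  obtain ⟨b, hb⟩ : ∃ b, b = 5 / rho := ⟨_, rfl⟩
  have hb0 : 0 < b := by rw [hb]; positivity
  have hbr : b * rho = 5 := by rw [hb]; field_simp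
  have hb13 : b ≤ 5 / 13 := by
    rw [hb]
    exact div_le_div_of_nonneg_left (by norm_num) (by norm_num) h13
  have hz : 48 ≤ s / δ := by
    rw [le_div_iff₀ hδ]
    linarith only [hz, hs, hr0]
  have htiny := lrn_tiny hδ hs0 hz
  have hB : 2 * Real.pi * √(1 + b ^ (2 : ℕ) / 4) ≤ 6399 / 1000 := by
    have h1 : √(1 + b ^ (2 : ℕ) / 4) ≤ 101833 / 100000 := by
      rw [Real.sqrt_le_left (by norm_num)]
      have h2 : b ^ (2 : ℕ) ≤ (5 / 13) ^ (2 : ℕ) := pow_le_pow_left₀ hb0.le hb13 2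
      norm_num at h2 ⊢
      linarith only [h2]
    calc 2 * Real.pi * √(1 + b ^ (2 : ℕ) / 4) ≤ 2 * (31416 / 10000) * (101833 / 100000) := by
          refine mul_le_mul (by linarith only [hp4]) h1 (Real.sqrt_nonneg _) (by norm_num)
      _ ≤ _ := by norm_num
  have hE : 23359 / 10000 ≤
      (2 * Real.pi * b - rho * (Real.exp b - 1 - b) - b ^ (2 : ℕ) / (8 / 5 * rho)) / δ := by
    have h1 : rho * (Real.exp b - 1 - b) ≤ rho * (575 / 1000 * b ^ (2 : ℕ)) :=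
      mul_le_mul_of_nonneg_left (exp_sub_C hb0.le hb13) hr0.le
    have h2 : rho * (575 / 1000 * b ^ (2 : ℕ)) = 575 / 200 * b := by
      have : rho * (575 / 1000 * b ^ (2 : ℕ)) = 575 / 1000 * (b * rho) * b := by ring
      rw [this, hbr]
      ring
    have h3 : b ^ (2 : ℕ) / (8 / 5 * rho) ≤ 185 / 10000 * b := by
      rw [div_le_iff₀ (by positivity)]
      have h4 : 185 / 10000 * b * (8 / 5 * rho) = b * (185 / 10000 * (8 / 5) * rho) := by ring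
      rw [h4, pow_two]
      refine mul_le_mul_of_nonneg_left ?_ hb0.le
      refine hb13.trans ?_
      norm_num
      linarith only [h13]
    rw [le_div_iff₀ hδ]
    have h5 : 6.28318 * b - 575 / 200 * b - 185 / 10000 * b ≤
        2 * Real.pi * b - rho * (Real.exp b - 1 - b) - b ^ (2 : ℕ) / (8 / 5 * rho) := by
      have : 6.28318 * b ≤ 2 * Real.pi * b := by
        refine mul_le_mul_of_nonneg_right ?_ hb0.le
        norm_num
        linarith only [hp3]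
      linarith only [h1, h2, h3, this]
    refine le_trans ?_ h5
    refine le_of_mul_le_mul_right ?_ hr0
    have h6 : (6.28318 * b - 575 / 200 * b - 185 / 10000 * b) * rho =
        (6.28318 - 575 / 200 - 185 / 10000) * (b * rho) := by ring
    rw [h6, hbr]
    norm_num
    linarith only [hl]
  have hX : Real.exp (-((2 * Real.pi * b - rho * (Real.exp b - 1 - b) -
      b ^ (2 : ℕ) / (8 / 5 * rho)) / δ)) * √(5 / 2 * Real.pi) ≤ 2713 / 10000 := by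
    have h1 : Real.exp (-((2 * Real.pi * b - rho * (Real.exp b - 1 - b) -
        b ^ (2 : ℕ) / (8 / 5 * rho)) / δ)) ≤ 968 / 10000 := by
      refine lrn_exp 2 (f := 3359 / 10000) ?_ (by norm_num) (by norm_num) (by norm_num)
      push_cast
      linarith only [hE]
    calc _ ≤ (968 / 10000 : ℝ) * (28026 / 10000) :=
          mul_le_mul h1 lrn_r5 (Real.sqrt_nonneg _) (by norm_num)
      _ ≤ _ := by norm_num
  have hE2 : 433 / 100 ≤ 2 * Real.pi * b / δ := by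
    rw [le_div_iff₀ hδ]
    refine le_of_mul_le_mul_right ?_ hr0
    have : 2 * Real.pi * b * rho = 2 * Real.pi * (b * rho) := by ring
    rw [this, hbr]
    linarith only [hl, hp3]
  have hq0 : Real.exp (((0 : ℕ) : ℝ) - 2 * Real.pi * b / δ) ≤ 133 / 10000 := by
    refine lrn_exp 4 (f := 33 / 100) ?_ (by norm_num) (by norm_num) (by norm_num)
    push_cast
    linarith only [hE2]
  have hq1 : Real.exp (((1 : ℕ) : ℝ) - 2 * Real.pi * b / δ) ≤ 36 / 1000 := by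
    refine lrn_exp 3 (f := 33 / 100) ?_ (by norm_num) (by norm_num) (by norm_num)
    push_cast
    linarith only [hE2]
  have hq2 : Real.exp (((2 : ℕ) : ℝ) - 2 * Real.pi * b / δ) ≤ 975 / 10000 := by
    refine lrn_exp 2 (f := 33 / 100) ?_ (by norm_num) (by norm_num) (by norm_num)
    push_cast
    linarith only [hE2]
  rw [← hb]
  have hw : 0 ≤ √(δ / s) := Real.sqrt_nonneg _
  have hgen := fun (j : ℕ) (hj : j ≤ 2) =>
    liftR_gen hδ (by linarith only [h13]) (by linarith only [hl]) hb ha ha2 hs hs2 hj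
  refine ⟨(hgen 0 (by norm_num)).trans ?_, (hgen 1 (by norm_num)).trans ?_,
    (hgen 2 (by norm_num)).trans ?_⟩
  · refine lrn_fin 0 (by positivity) hB hq0 (by norm_num) hX hw htiny
      (by positivity) (by norm_num)
  · refine lrn_fin 1 (by positivity) hB hq1 (by norm_num) hX hw htiny
      (by positivity) (by norm_num)
  · refine lrn_fin 2 (by positivity) hB hq2 (by norm_num) hX hw htiny
      (by positivity) (by norm_num)

end SokamN1

end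

/-! ### Lib_MP_af4de1_f1.N1Rep -/

section
namespace SokamF
end SokamF
namespace SokamFU
end SokamFU
namespace SokamFW
end SokamFW
namespace SokamTI
end SokamTI
/-!
# F1, N = 1: the representation `F = L + R` with both derivatives

`k(g) = exp((i/δ)(g²/2 - ρ e^g) - ψ g/δ)`, `h = g + iψ`, `hk j g = h^j k(g)`; `AL j`, `AR j` = its integrals over the
left and the right piece (`Lw`, `Rw` of Wave.lean: arbitrary contours by `Adm.Lw_eq`, `Adm.Rw_eq`, `Adm.Lw_path`, `Adm.Rw_path`).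
`z = zp ρ δ ψ` (that is `i δ z e^(-iδ/2) = ρ e^(-iψ)`), `q = e^(iδ)`.  With one constant `C ≠ 0` for each `δ`, `e = e^(-iψ²/2δ)`:
`F(z) C = e (AL 0 + AR 0)`, `z F(qz) C = e (-(i/δ)) (AL 1 + AR 1)`,
`(z F(qz) + q z² F(q²z)) C = e ((i/δ)(AL 0 + AR 0) - (1/δ²)(AL 2 + AR 2))`.
`dist_of_LR`: the two piece form of (U) implies `Dist`.
-/

set_option autoImplicit false

namespace SokamF1

open Complex SokamFU SokamF SokamFW SokamTI MeasureTheory Set

/-- the integrand with the weight `h^j`, `h = g + iψ` -/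
noncomputable def hk (ρ δ ψ : ℝ) (j : ℕ) (g : ℂ) : ℂ := (g + ψ * I) ^ j * kk ρ δ ψ g

/-- the left piece -/
noncomputable def AL (ρ δ ψ : ℝ) (j : ℕ) : ℂ := Lw (hk ρ δ ψ j)

/-- the right piece -/
noncomputable def AR (ρ δ ψ : ℝ) (j : ℕ) : ℂ := Rw (hk ρ δ ψ j)

theorem hk_zero (ρ δ ψ : ℝ) : hk ρ δ ψ 0 = kk ρ δ ψ := by
  funext g
  simp [hk]

theorem hk_succ (ρ δ ψ : ℝ) (j : ℕ) (g : ℂ) :
    hk ρ δ ψ (j + 1) g = (g + ψ * I) * hk ρ δ ψ j g := by
  unfold hk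
  ring

theorem Adm_hk (ρ δ ψ : ℝ) (j : ℕ) : Adm δ ρ ψ (hk ρ δ ψ j) := by
  induction j with
  | zero => rw [hk_zero]; exact Adm.kk δ ρ ψ
  | succ n ih =>
    have h : hk ρ δ ψ (n + 1) = fun g => g * hk ρ δ ψ n g + (ψ * I) * hk ρ δ ψ n g := by
      funext g
      rw [hk_succ]
      ring
    rw [h]
    exact ih.id_mul.add (ih.const_mul _)

/-- what the two pieces have in common -/
structure IsW (δ ρ ψ : ℝ) (W : (ℂ → ℂ) → ℂ) : Prop where
  add : ∀ {k1 k2 : ℂ → ℂ}, Adm δ ρ ψ k1 → Adm δ ρ ψ k2 → W (fun g => k1 g + k2 g) = W k1 + W k2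
  smul : ∀ (c : ℂ) (k : ℂ → ℂ), W (fun g => c * k g) = c * W k
  der : ∀ {k k1 : ℂ → ℂ}, Adm δ ρ ψ k1 → Adm δ ρ ψ k → (∀ z, HasDerivAt k (k1 z) z) → W k1 = 0

theorem isW_L {δ ρ : ℝ} (hδ : 0 < δ) (hρ : 0 < ρ) (ψ : ℝ) : IsW δ ρ ψ Lw where
  add := fun h1 h2 => Lw_add hδ hρ h1 h2
  smul := fun c k => Lw_const_mul k c
  der := fun h1 h hP => Lw_deriv hδ hρ h1 h hP

theorem isW_R {δ ρ : ℝ} (hδ : 0 < δ) (hρ : 0 < ρ) (ψ : ℝ) : IsW δ ρ ψ Rw where
  add := fun h1 h2 => Rw_add hδ hρ h1 h2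
  smul := fun c k => Rw_const_mul k c
  der := fun h1 h hP => Rw_deriv hδ hρ h1 h hP

/-- integration by parts: `∫ h^j ρ e^g k = ∫ h^(j+1) k + j (δ/i) ∫ h^(j-1) k` for `j = 0, 1` -/
theorem IsW.parts0 {δ ρ ψ : ℝ} {W : (ℂ → ℂ) → ℂ} (hδ : 0 < δ) (hW : IsW δ ρ ψ W) :
    W (fun g => ρ * (cexp g * kk ρ δ ψ g)) = W (hk ρ δ ψ 1) := by
  have hδc : (δ : ℂ) ≠ 0 := by exact_mod_cast hδ.ne'
  have a1 := Adm_hk ρ δ ψ 1
  have a2 : Adm δ ρ ψ (fun g => ρ * (cexp g * kk ρ δ ψ g)) := ((Adm.kk δ ρ ψ).exp_mul).const_mul _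
  have h1 := hW.der (k := kk ρ δ ψ)
    (k1 := fun g => I / δ * hk ρ δ ψ 1 g + (-(I / δ)) * (ρ * (cexp g * kk ρ δ ψ g)))
    ((a1.const_mul _).add (a2.const_mul _)) (Adm.kk δ ρ ψ) (fun z => by
      refine (kk_deriv ρ ψ z).congr_deriv ?_
      unfold hk
      ring)
  rw [hW.add (a1.const_mul _) (a2.const_mul _), hW.smul, hW.smul] at h1
  have hI : (I / δ : ℂ) ≠ 0 := div_ne_zero I_ne_zero hδc
  have h2 : (I / δ : ℂ) * (W (hk ρ δ ψ 1) - W (fun g => ρ * (cexp g * kk ρ δ ψ g))) = 0 := by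
    linear_combination h1
  rcases mul_eq_zero.1 h2 with h3 | h3
  · exact absurd h3 hI
  · exact (sub_eq_zero.1 h3).symm

theorem IsW.parts1 {δ ρ ψ : ℝ} {W : (ℂ → ℂ) → ℂ} (hδ : 0 < δ) (hW : IsW δ ρ ψ W) :
    W (fun g => ρ * (cexp g * hk ρ δ ψ 1 g)) = W (hk ρ δ ψ 2) - I * δ * W (kk ρ δ ψ) := by
  have hδc : (δ : ℂ) ≠ 0 := by exact_mod_cast hδ.ne'
  have a0 := Adm.kk δ ρ ψ
  have a1 := Adm_hk ρ δ ψ 2
  have a2 : Adm δ ρ ψ (fun g => ρ * (cexp g * hk ρ δ ψ 1 g)) :=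
    ((Adm_hk ρ δ ψ 1).exp_mul).const_mul _
  have b0 : Adm δ ρ ψ (fun g => I / δ * hk ρ δ ψ 2 g +
      (-(I / δ)) * (ρ * (cexp g * hk ρ δ ψ 1 g))) := (a1.const_mul _).add (a2.const_mul _)
  have h1 := hW.der (k := hk ρ δ ψ 1)
    (k1 := fun g => kk ρ δ ψ g + (I / δ * hk ρ δ ψ 2 g +
      (-(I / δ)) * (ρ * (cexp g * hk ρ δ ψ 1 g))))
    (a0.add b0) (Adm_hk ρ δ ψ 1) (fun z => by
      have h2 : HasDerivAt (fun g : ℂ => g + ψ * I) 1 z := (hasDerivAt_id z).add_const _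
      have h3 := h2.mul (kk_deriv (δ := δ) ρ ψ z)
      have h4 : hk ρ δ ψ 1 = (fun g : ℂ => g + ψ * I) * kk ρ δ ψ := by
        funext g
        simp [hk]
      rw [h4]
      refine h3.congr_deriv ?_
      unfold hk
      simp only [Pi.mul_apply]
      ring)
  rw [hW.add a0 b0, hW.add (a1.const_mul _) (a2.const_mul _), hW.smul, hW.smul] at h1
  have h2 : (I / δ : ℂ) * (W (hk ρ δ ψ 2) - W (fun g => ρ * (cexp g * hk ρ δ ψ 1 g)) -
      I * δ * W (kk ρ δ ψ)) = 0 := by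
    have h5 : (I / δ : ℂ) * (I * δ) = -1 := by
      field_simp
      rw [I_sq]
    linear_combination h1 - W (kk ρ δ ψ) * h5
  have hI : (I / δ : ℂ) ≠ 0 := div_ne_zero I_ne_zero hδc
  rcases mul_eq_zero.1 h2 with h3 | h3
  · exact absurd h3 hI
  · linear_combination -h3

theorem IsW.parts2 {δ ρ ψ : ℝ} {W : (ℂ → ℂ) → ℂ} (hδ : 0 < δ) (hW : IsW δ ρ ψ W) :
    W (fun g => ρ ^ (2 : ℕ) * (cexp g * (cexp g * kk ρ δ ψ g))) =
      W (hk ρ δ ψ 2) - I * δ * W (kk ρ δ ψ) - I * δ * W (hk ρ δ ψ 1) := by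
  have hδc : (δ : ℂ) ≠ 0 := by exact_mod_cast hδ.ne'
  have a0 : Adm δ ρ ψ (fun g => ρ * (cexp g * kk ρ δ ψ g)) := ((Adm.kk δ ρ ψ).exp_mul).const_mul _
  have a1 : Adm δ ρ ψ (fun g => ρ * (cexp g * hk ρ δ ψ 1 g)) :=
    ((Adm_hk ρ δ ψ 1).exp_mul).const_mul _
  have a2 : Adm δ ρ ψ (fun g => ρ ^ (2 : ℕ) * (cexp g * (cexp g * kk ρ δ ψ g))) :=
    (((Adm.kk δ ρ ψ).exp_mul).exp_mul).const_mul _
  have b0 : Adm δ ρ ψ (fun g => I / δ * (ρ * (cexp g * hk ρ δ ψ 1 g)) +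
      (-(I / δ)) * (ρ ^ (2 : ℕ) * (cexp g * (cexp g * kk ρ δ ψ g)))) :=
    (a1.const_mul _).add (a2.const_mul _)
  have h1 := hW.der (k := fun g => ρ * (cexp g * kk ρ δ ψ g))
    (k1 := fun g => ρ * (cexp g * kk ρ δ ψ g) + (I / δ * (ρ * (cexp g * hk ρ δ ψ 1 g)) +
      (-(I / δ)) * (ρ ^ (2 : ℕ) * (cexp g * (cexp g * kk ρ δ ψ g)))))
    (a0.add b0) a0 (fun z => by
      have h3 := ((Complex.hasDerivAt_exp z).mul (kk_deriv (δ := δ) ρ ψ z)).const_mul (ρ : ℂ)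
      refine h3.congr_deriv ?_
      unfold hk
      ring)
  rw [hW.add a0 b0, hW.add (a1.const_mul _) (a2.const_mul _), hW.smul (I / δ), hW.smul (-(I / δ)),
    hW.parts0 hδ, hW.parts1 hδ] at h1
  have h2 : (I / δ : ℂ) * (W (hk ρ δ ψ 2) - I * δ * W (kk ρ δ ψ) - I * δ * W (hk ρ δ ψ 1) -
      W (fun g => ρ ^ (2 : ℕ) * (cexp g * (cexp g * kk ρ δ ψ g)))) = 0 := by
    have h5 : (I / δ : ℂ) * (I * δ) = -1 := by
      field_simp
      rw [I_sq]
    linear_combination h1 - W (hk ρ δ ψ 1) * h5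
  have hI : (I / δ : ℂ) ≠ 0 := div_ne_zero I_ne_zero hδc
  rcases mul_eq_zero.1 h2 with h3 | h3
  · exact absurd h3 hI
  · linear_combination -h3

theorem kk_shift {ρ δ ψ : ℝ} (hδ : 0 < δ) (g : ℂ) :
    kk ρ δ (ψ - δ) g = cexp g * kk ρ δ ψ g := by
  unfold kk
  rw [← Complex.exp_add]
  congr 1
  have hδc : (δ : ℂ) ≠ 0 := by exact_mod_cast hδ.ne'
  push_cast
  field_simp
  ring

theorem SL_AL {ρ δ : ℝ} (hρ : 0 < ρ) (hδ : 0 < δ) (ψ : ℝ) : SL ρ δ ψ 0 = Lw (kk ρ δ ψ) := by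
  rw [SL_eq_Lw hρ hδ]
  congr 1
  funext g
  simp [kj]

theorem SR_AR {ρ δ : ℝ} (hρ : 0 < ρ) (hδ : 0 < δ) (ψ : ℝ) : SR ρ δ ψ 0 = Rw (kk ρ δ ψ) := by
  rw [SR_eq_Rw hρ hδ]
  congr 1
  funext g
  simp [kj]

theorem zp_shift {ρ δ ψ : ℝ} : zp ρ δ (ψ - δ) = qa δ * zp ρ δ ψ := by
  unfold zp qa
  have h1 : cexp ((δ / 2 - ((ψ - δ : ℝ) : ℂ)) * I) = cexp (δ * I) * cexp ((δ / 2 - ψ) * I) := by
    rw [← Complex.exp_add]
    congr 1
    push_cast
    ring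
  rw [h1]
  ring

/-- The representation of `F`, `z F(qz)`, `z F(qz) + q z² F(q²z)`. -/
theorem rep_three {δ : ℝ} (hδ : 0 < δ) : ∃ C : ℂ, C ≠ 0 ∧ ∀ ρ ψ : ℝ, 0 < ρ →
    F (qa δ) (zp ρ δ ψ) * C = cexp (-(ψ ^ (2 : ℕ) / (2 * δ)) * I) * (AL ρ δ ψ 0 + AR ρ δ ψ 0) ∧
    zp ρ δ ψ * F (qa δ) (qa δ * zp ρ δ ψ) * C =
      cexp (-(ψ ^ (2 : ℕ) / (2 * δ)) * I) * (-(I / δ) * (AL ρ δ ψ 1 + AR ρ δ ψ 1)) ∧
    (zp ρ δ ψ * F (qa δ) (qa δ * zp ρ δ ψ) +
      qa δ * zp ρ δ ψ ^ (2 : ℕ) * F (qa δ) (qa δ * (qa δ * zp ρ δ ψ))) * C =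
      cexp (-(ψ ^ (2 : ℕ) / (2 * δ)) * I) * (I / δ * (AL ρ δ ψ 0 + AR ρ δ ψ 0) -
        1 / δ ^ (2 : ℕ) * (AL ρ δ ψ 2 + AR ρ δ ψ 2)) := by
  obtain ⟨C, hC, h⟩ := rep_F_const hδ
  have hδc : (δ : ℂ) ≠ 0 := by exact_mod_cast hδ.ne'
  refine ⟨C, hC, fun ρ ψ hρ => ?_⟩
  have e0 := h ρ ψ hρ
  have e1 := h ρ (ψ - δ) hρ
  have e2 := h ρ (ψ - δ - δ) hρ
  rw [SL_AL hρ hδ, SR_AR hρ hδ] at e0 e1 e2
  rw [zp_shift] at e1
  rw [zp_shift, zp_shift] at e2
  have s1 : kk ρ δ (ψ - δ) = fun g => cexp g * kk ρ δ ψ g := funext fun g => kk_shift hδ g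
  have s2 : kk ρ δ (ψ - δ - δ) = fun g => cexp g * (cexp g * kk ρ δ ψ g) := by
    funext g
    rw [kk_shift hδ, kk_shift hδ]
  rw [s1] at e1
  rw [s2] at e2
  have wL := isW_L hδ hρ ψ
  have wR := isW_R hδ hρ ψ
  have pL0 := wL.parts0 hδ
  have pR0 := wR.parts0 hδ
  have pL2 := wL.parts2 hδ
  have pR2 := wR.parts2 hδ
  rw [wL.smul] at pL0 pL2
  rw [wR.smul] at pR0 pR2
  have hA0 : AL ρ δ ψ 0 = Lw (kk ρ δ ψ) := by unfold AL; rw [hk_zero]
  have hB0 : AR ρ δ ψ 0 = Rw (kk ρ δ ψ) := by unfold AR; rw [hk_zero]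
  have x1 : zp ρ δ ψ * cexp (-(((ψ - δ : ℝ) : ℂ) ^ (2 : ℕ) / (2 * δ)) * I) =
      cexp (-(ψ ^ (2 : ℕ) / (2 * δ)) * I) * (-(I / δ)) * ρ := by
    unfold zp
    have h1 : cexp ((δ / 2 - ψ) * I) * cexp (-(((ψ - δ : ℝ) : ℂ) ^ (2 : ℕ) / (2 * δ)) * I) =
        cexp (-(ψ ^ (2 : ℕ) / (2 * δ)) * I) := by
      rw [← Complex.exp_add]
      congr 1
      push_cast
      field_simp
      ring
    have h2 : (1 / I : ℂ) = -I := by
      rw [one_div, inv_I]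
    calc (ρ : ℂ) / δ * cexp ((δ / 2 - ψ) * I) / I * cexp (-(((ψ - δ : ℝ) : ℂ) ^ (2 : ℕ) / (2 * δ)) * I)
        = (ρ : ℂ) / δ * (1 / I) * (cexp ((δ / 2 - ψ) * I) *
          cexp (-(((ψ - δ : ℝ) : ℂ) ^ (2 : ℕ) / (2 * δ)) * I)) := by ring
      _ = _ := by rw [h1, h2]; ring
  have x2 : qa δ * zp ρ δ ψ ^ (2 : ℕ) * cexp (-(((ψ - δ - δ : ℝ) : ℂ) ^ (2 : ℕ) / (2 * δ)) * I) =
      cexp (-(ψ ^ (2 : ℕ) / (2 * δ)) * I) * (-(1 / δ ^ (2 : ℕ))) * ρ ^ (2 : ℕ) := by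
    unfold zp qa
    have h1 : cexp (δ * I) * (cexp ((δ / 2 - ψ) * I)) ^ (2 : ℕ) *
        cexp (-(((ψ - δ - δ : ℝ) : ℂ) ^ (2 : ℕ) / (2 * δ)) * I) = cexp (-(ψ ^ (2 : ℕ) / (2 * δ)) * I) := by
      rw [← Complex.exp_nat_mul, ← Complex.exp_add, ← Complex.exp_add]
      congr 1
      push_cast
      field_simp
      ring
    have h2 : (1 / I ^ (2 : ℕ) : ℂ) = -1 := by
      rw [I_sq]
      norm_num
    calc cexp (δ * I) * ((ρ : ℂ) / δ * cexp ((δ / 2 - ψ) * I) / I) ^ (2 : ℕ) *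
          cexp (-(((ψ - δ - δ : ℝ) : ℂ) ^ (2 : ℕ) / (2 * δ)) * I)
        = (ρ : ℂ) ^ (2 : ℕ) / δ ^ (2 : ℕ) * (1 / I ^ (2 : ℕ)) * (cexp (δ * I) * (cexp ((δ / 2 - ψ) * I)) ^ (2 : ℕ) *
          cexp (-(((ψ - δ - δ : ℝ) : ℂ) ^ (2 : ℕ) / (2 * δ)) * I)) := by
          rw [div_pow, mul_pow, div_pow]
          ring
      _ = _ := by rw [h1, h2]; ring
  have f1 : zp ρ δ ψ * F (qa δ) (qa δ * zp ρ δ ψ) * C =
      cexp (-(ψ ^ (2 : ℕ) / (2 * δ)) * I) * (-(I / δ) * (AL ρ δ ψ 1 + AR ρ δ ψ 1)) := by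
    unfold AL AR
    rw [← pL0, ← pR0]
    linear_combination (zp ρ δ ψ) * e1 +
      (Lw (fun g => cexp g * kk ρ δ ψ g) + Rw (fun g => cexp g * kk ρ δ ψ g)) * x1
  refine ⟨?_, f1, ?_⟩
  · rw [hA0, hB0]
    exact e0
  · have g2 : qa δ * zp ρ δ ψ ^ (2 : ℕ) * F (qa δ) (qa δ * (qa δ * zp ρ δ ψ)) * C =
        cexp (-(ψ ^ (2 : ℕ) / (2 * δ)) * I) * (-(1 / δ ^ (2 : ℕ))) *
          (ρ ^ (2 : ℕ) * Lw (fun g => cexp g * (cexp g * kk ρ δ ψ g)) +
            ρ ^ (2 : ℕ) * Rw (fun g => cexp g * (cexp g * kk ρ δ ψ g))) := by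
      linear_combination (qa δ * zp ρ δ ψ ^ (2 : ℕ)) * e2 +
        (Lw (fun g => cexp g * (cexp g * kk ρ δ ψ g)) +
          Rw (fun g => cexp g * (cexp g * kk ρ δ ψ g))) * x2
    rw [pL2, pR2] at g2
    rw [add_mul, f1, g2, hA0, hB0]
    unfold AL AR
    have hI : (1 / (δ : ℂ) ^ (2 : ℕ)) * (I * δ) = I / δ := by
      field_simp
    linear_combination (cexp (-(ψ ^ (2 : ℕ) / (2 * δ)) * I)) *
      (Lw (kk ρ δ ψ) + Rw (kk ρ δ ψ) + Lw (hk ρ δ ψ 1) + Rw (hk ρ δ ψ 1)) * hI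

/-- every point of the circle `|z| = ρ/δ` -/
theorem exists_zp {ρ δ : ℝ} (hδ : 0 < δ) (ψ1 : ℝ) {z : ℂ} (hz : ‖z‖ = ρ / δ) :
    ∃ ψ ∈ Ico ψ1 (ψ1 + 2 * Real.pi), z = zp ρ δ ψ := by
  set θ : ℝ := (z * I).arg with hθ
  have h1 : z * I = (ρ / δ : ℝ) * cexp (θ * I) := by
    have h2 := Complex.norm_mul_exp_arg_mul_I (z * I)
    rw [norm_mul, norm_I, mul_one, hz] at h2
    exact h2.symm
  set n : ℤ := toIcoDiv Real.two_pi_pos ψ1 (δ / 2 - θ) with hn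
  refine ⟨δ / 2 - θ - n • (2 * Real.pi), ?_, ?_⟩
  · exact toIcoMod_mem_Ico Real.two_pi_pos ψ1 (δ / 2 - θ)
  · unfold zp
    have h4 : ((δ : ℂ) / 2 - ((δ / 2 - θ - n • (2 * Real.pi) : ℝ) : ℂ)) * I =
        θ * I + n * (2 * Real.pi * I) := by
      rw [zsmul_eq_mul]
      push_cast
      ring
    rw [h4, Complex.exp_add, Complex.exp_int_mul_two_pi_mul_I, mul_one, eq_div_iff I_ne_zero, h1]
    push_cast
    rfl

/-- the triple `(F, zF(qz), zF(qz) + q z² F(q²z))` of a piece from its moments -/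
noncomputable def T1 (δ : ℝ) (A : ℕ → ℂ) : ℂ := -(I / δ) * A 1

noncomputable def T2 (δ : ℝ) (A : ℕ → ℂ) : ℂ := I / δ * A 0 - 1 / δ ^ (2 : ℕ) * A 2

/-- (U) in the two pieces implies `Dist`; the period of `ψ` may depend on `ρ`. -/
theorem dist_of_LR {δ r ε : ℝ} (hδ : 0 < δ) (hq : qa δ ≠ 1) (hε : 0 < ε) (c : ℝ → ℝ)
    (H : ∀ ρ ψ : ℝ, 0 < ρ → δ * (r - ε) < ρ → ρ < δ * r → c ρ ≤ ψ → ψ < c ρ + 2 * Real.pi →
      AL ρ δ ψ 0 + AR ρ δ ψ 0 ≠ 0 →
      (∃ m : ℝ, 0 < m ∧ (T1 δ (AL ρ δ ψ) + T1 δ (AR ρ δ ψ)) + m * (AL ρ δ ψ 0 + AR ρ δ ψ 0) = 0) →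
      0 < ((T2 δ (AL ρ δ ψ) + T2 δ (AR ρ δ ψ)) / (T1 δ (AL ρ δ ψ) + T1 δ (AR ρ δ ψ)) -
        (T1 δ (AL ρ δ ψ) + T1 δ (AR ρ δ ψ)) / (AL ρ δ ψ 0 + AR ρ δ ψ 0)).re) :
    SokamFU.Dist δ r := by
  obtain ⟨C, hC, h⟩ := rep_three hδ
  refine dist_of_U hq hε fun u h1 h2 hFu hs => ?_
  obtain ⟨s, hs0, hs⟩ := hs
  have hu : u ≠ 0 := by
    rintro rfl
    rw [zero_mul, mul_zero, add_zero, F_zero] at hs
    exact one_ne_zero hs
  have hup : 0 < ‖u‖ := norm_pos_iff.2 hu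
  have hρ : 0 < δ * ‖u‖ := mul_pos hδ hup
  obtain ⟨ψ, hψ, hz⟩ := exists_zp hδ (c (δ * ‖u‖)) (ρ := δ * ‖u‖) (z := u)
    (by rw [mul_div_cancel_left₀ _ hδ.ne'])
  obtain ⟨e0, e1, e2⟩ := h (δ * ‖u‖) ψ hρ
  rw [← hz] at e0 e1 e2
  have key0 := H (δ * ‖u‖) ψ hρ (mul_lt_mul_of_pos_left h1 hδ) (mul_lt_mul_of_pos_left h2 hδ)
    hψ.1 hψ.2
  have hE0 : cexp (-(ψ ^ (2 : ℕ) / (2 * δ)) * I) ≠ 0 := Complex.exp_ne_zero _
  generalize cexp (-(ψ ^ (2 : ℕ) / (2 * δ)) * I) = E at e0 e1 e2 hE0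
  generalize AL (δ * ‖u‖) δ ψ = A at e0 e1 e2 key0
  generalize AR (δ * ‖u‖) δ ψ = B at e0 e1 e2 key0
  generalize F (qa δ) (qa δ * (qa δ * u)) = F2 at e2 ⊢
  generalize F (qa δ) (qa δ * u) = F1 at e1 e2 hs ⊢
  generalize F (qa δ) u = F0 at e0 hFu hs ⊢
  have t1 : E * (T1 δ A + T1 δ B) = u * F1 * C := by
    rw [e1]
    unfold T1
    ring
  have t2 : E * (T2 δ A + T2 δ B) = (u * F1 + qa δ * u ^ (2 : ℕ) * F2) * C := by
    rw [e2]
    unfold T2
    ring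
  have hsum : A 0 + B 0 ≠ 0 := by
    intro h0
    rw [h0, mul_zero] at e0
    rcases mul_eq_zero.1 e0 with h3 | h3
    · exact hFu h3
    · exact hC h3
  have hFq : F1 ≠ 0 := by
    intro h0
    rw [h0, mul_zero, mul_zero, add_zero] at hs
    exact hFu hs
  have hm : (T1 δ A + T1 δ B) + ((s⁻¹ : ℝ) : ℂ) * (A 0 + B 0) = 0 := by
    have hsc : (s : ℂ) ≠ 0 := by exact_mod_cast hs0.ne'
    have h3 : E * ((T1 δ A + T1 δ B) + ((s⁻¹ : ℝ) : ℂ) * (A 0 + B 0)) = 0 := by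
      rw [mul_add, t1]
      have h4 : E * (((s⁻¹ : ℝ) : ℂ) * (A 0 + B 0)) = ((s⁻¹ : ℝ) : ℂ) * (F0 * C) := by
        rw [e0]
        ring
      rw [h4]
      push_cast
      field_simp
      linear_combination C * hs
    rcases mul_eq_zero.1 h3 with h4 | h4
    · exact absurd h4 hE0
    · exact h4
  have key := key0 hsum ⟨s⁻¹, inv_pos.2 hs0, hm⟩
  have q1 : (T2 δ A + T2 δ B) / (T1 δ A + T1 δ B) = 1 + qa δ * u * F2 / F1 := by
    rw [← mul_div_mul_left _ _ hE0, t1, t2]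
    field_simp
  have q2 : (T1 δ A + T1 δ B) / (A 0 + B 0) = u * F1 / F0 := by
    rw [← mul_div_mul_left _ _ hE0, t1, ← e0]
    field_simp
  rw [q1, q2] at key
  exact key

/-- the integrand at a saddle point: `h0 e^(-h0) = ρ e^(-iψ)`, `g = h0 - iψ + v` -/
theorem hk_saddle {ρ δ ψ : ℝ} {h0 : ℂ} (hh : h0 * cexp (-h0) = ρ * cexp (-(I * ψ))) (j : ℕ) (v : ℂ) :
    hk ρ δ ψ j (h0 - ψ * I + v) = kS δ ψ h0 * ((h0 + v) ^ j * cexp (Ev δ h0 v)) := by
  have h2 := saddle_eq hh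
  have h3 := kk_saddle (δ := δ) (g := h0 - ψ * I) (h := h0) (by ring) h2 v
  unfold hk
  rw [h3, kk_kS h2]
  have h4 : h0 - ψ * I + v + ψ * I = h0 + v := by ring
  rw [h4]
  have h5 : EE δ h0 v = Ev δ h0 v := rfl
  rw [h5]
  ring

end SokamF1

end

/-! ### Lib_MP_af4de1_f1.N1Link -/

section
namespace SokamFU
end SokamFU
namespace SokamFW
end SokamFW
/-!
# N = 1, large `rho`: the pieces `SokamF1.AR`, `SokamF1.AL` (weights `h^j`) on the two paths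

`g = g₀ + v`, `g₀ = ± a + i(s - ψ)` the saddle, `h₀ = g₀ + iψ`: `k(g) = k(g₀) e^{E(v)}`, `h = h₀ + v`.
R: `Im g = s - ψ - 2 ∈ (-π, 0)` at `+∞`, `Re g = a + b > 0` on the way to `+i∞`;
L: `Re g = -a - b < 0` at `-i∞`, `Im g = s - ψ + 8/5 ∈ (-π, 0)` at `+∞`.
-/

set_option autoImplicit false

namespace SokamN1

open Complex MeasureTheory Set SokamFU SokamFW

private theorem lk_shift (f : ℝ → ℂ) (a : ℝ) :
    ∫ t in Ioi (0 : ℝ), f (a + t) = ∫ y in Ioi a, f y := by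
  have h := (measurePreserving_add_left (volume : Measure ℝ) a).setIntegral_preimage_emb
    (measurableEmbedding_addLeft a) f (Ioi a)
  rwa [preimage_const_add_Ioi, sub_self] at h

/-- the integrand with the weight `(g - g0)^j` -/
private noncomputable def lk_vk (rho δ ψ : ℝ) (g0 : ℂ) (j : ℕ) (g : ℂ) : ℂ :=
  (g - g0) ^ j * kk rho δ ψ g

private theorem lk_Adm (rho δ ψ : ℝ) (g0 : ℂ) (j : ℕ) : Adm δ rho ψ (lk_vk rho δ ψ g0 j) := by
  induction j with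
  | zero =>
    have h : lk_vk rho δ ψ g0 0 = kk rho δ ψ := by
      funext g
      simp [lk_vk]
    rw [h]
    exact Adm.kk δ rho ψ
  | succ n ih =>
    have h : lk_vk rho δ ψ g0 (n + 1) =
        fun g => g * lk_vk rho δ ψ g0 n g + (-g0) * lk_vk rho δ ψ g0 n g := by
      funext g
      unfold lk_vk
      ring
    rw [h]
    exact ih.id_mul.add (ih.const_mul _)

/-- the integrand at a saddle point -/
private theorem lk_saddle {rho δ ψ : ℝ} {h g0 : ℂ} (hg : h = g0 + ψ * I)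
    (h2 : (rho : ℂ) * cexp g0 = h) (j : ℕ) (v : ℂ) :
    lk_vk rho δ ψ g0 j (g0 + v) = kk rho δ ψ g0 * (v ^ j * cexp (EE δ h v)) := by
  unfold lk_vk
  rw [kk_saddle hg h2]
  have e1 : SokamFU.EE δ h v = EE δ h v := by
    unfold SokamFU.EE EE
    ring
  rw [e1, add_sub_cancel_left]
  ring

/-- the moments in `h` from the moments in `v` -/
private theorem lk_mom {rho δ ψ : ℝ} {W : (ℂ → ℂ) → ℂ} (hW : SokamF1.IsW δ rho ψ W) {h g0 : ℂ}
    (hg : h = g0 + ψ * I) :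
    W (SokamF1.hk rho δ ψ 0) = W (lk_vk rho δ ψ g0 0) ∧
    W (SokamF1.hk rho δ ψ 1) = h * W (lk_vk rho δ ψ g0 0) + W (lk_vk rho δ ψ g0 1) ∧
    W (SokamF1.hk rho δ ψ 2) = h ^ (2 : ℕ) * W (lk_vk rho δ ψ g0 0) + 2 * h * W (lk_vk rho δ ψ g0 1) +
      W (lk_vk rho δ ψ g0 2) := by
  have a0 := lk_Adm rho δ ψ g0 0
  have a1 := lk_Adm rho δ ψ g0 1
  have a2 := lk_Adm rho δ ψ g0 2
  refine ⟨?_, ?_, ?_⟩
  · have e : SokamF1.hk rho δ ψ 0 = lk_vk rho δ ψ g0 0 := by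
      funext g
      unfold SokamF1.hk lk_vk
      rw [pow_zero, pow_zero]
    rw [e]
  · have e : SokamF1.hk rho δ ψ 1 =
        fun g => h * lk_vk rho δ ψ g0 0 g + lk_vk rho δ ψ g0 1 g := by
      funext g
      unfold SokamF1.hk lk_vk
      rw [hg]
      ring
    rw [e, hW.add (a0.const_mul _) a1, hW.smul]
  · have e : SokamF1.hk rho δ ψ 2 = fun g => (h ^ (2 : ℕ) * lk_vk rho δ ψ g0 0 g +
        2 * h * lk_vk rho δ ψ g0 1 g) + lk_vk rho δ ψ g0 2 g := by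
      funext g
      unfold SokamF1.hk lk_vk
      rw [hg]
      ring
    rw [e, hW.add ((a0.const_mul _).add (a1.const_mul _)) a2,
      hW.add (a0.const_mul _) (a1.const_mul _), hW.smul, hW.smul]

private theorem lk_R {rho δ ψ b : ℝ} {h g0 : ℂ} (hδ : 0 < δ) (hr : 0 < rho) (hg : h = g0 + ψ * I)
    (hh : (rho : ℂ) * cexp g0 = h) (h0 : 0 < g0.re + b)
    (h1 : -Real.pi < g0.im - 2) (h2 : g0.im - 2 < 0) (j : ℕ) :
    Rw (lk_vk rho δ ψ g0 j) = kk rho δ ψ g0 * AR δ b h j := by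
  have hA := lk_Adm rho δ ψ g0 j
  obtain ⟨P, hP⟩ := hA.prim
  set k := lk_vk rho δ ψ g0 j with hk
  have hs : ∀ v : ℂ, k (g0 + v) = kk rho δ ψ g0 * (v ^ j * cexp (EE δ h v)) := fun v =>
    lk_saddle hg hh j v
  have e0 := hA.Rw_eq hδ hr hP (g0 := g0 + b + 2 * I) (g1 := g0 - 2 * I)
    (by simpa using h0) (by simp; linarith) (by simp; linarith)
  have s1 := seg_int hA.cont hP (g0 + 2 * I) 1 0 b
  have s2 := seg_int hA.cont hP g0 I (-2) 2
  have i1 : IT k (g0 + b + 2 * I) = kk rho δ ψ g0 * ((∫ y in Ioi (2 : ℝ), Wt δ h j b y) * I) := by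
    unfold IT
    have q : (∫ t in Ioi (0 : ℝ), k (g0 + b + 2 * I + t * I)) = kk rho δ ψ g0 *
        ∫ t in Ioi (0 : ℝ), Wt δ h j b (2 + t) := by
      rw [← integral_const_mul]
      congr 1
      funext t
      unfold Wt
      rw [← hs]
      congr 1
      push_cast
      ring
    rw [← lk_shift (fun y : ℝ => Wt δ h j b y) 2, q]
    ring
  have i2 : IV k (g0 - 2 * I) = kk rho δ ψ g0 * ∫ u in Ioi (0 : ℝ), Wt δ h j u (-2) := by
    unfold IV
    rw [← integral_const_mul]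
    congr 1
    funext t
    unfold Wt
    rw [← hs]
    congr 1
    push_cast
    ring
  have i3 : P (g0 + 2 * I + b) - P (g0 + 2 * I) = kk rho δ ψ g0 *
      ∫ x in (0 : ℝ)..b, Wt δ h j x 2 := by
    rw [ofReal_zero, zero_mul, add_zero, mul_one, one_mul] at s1
    rw [← s1, ← intervalIntegral.integral_const_mul]
    congr 1
    funext t
    unfold Wt
    rw [← hs]
    congr 1
    push_cast
    ring
  have i4 : P (g0 + 2 * I) - P (g0 - 2 * I) = kk rho δ ψ g0 *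
      ((∫ y in (-2 : ℝ)..2, Wt δ h j 0 y) * I) := by
    have e1 : g0 + ((2 : ℝ) : ℂ) * I = g0 + 2 * I := by push_cast; ring
    have e2 : g0 + ((-2 : ℝ) : ℂ) * I = g0 - 2 * I := by push_cast; ring
    rw [e1, e2] at s2
    have q : (∫ t in (-2 : ℝ)..2, k (g0 + t * I)) = kk rho δ ψ g0 *
        ∫ y in (-2 : ℝ)..2, Wt δ h j 0 y := by
      rw [← intervalIntegral.integral_const_mul]
      congr 1
      funext t
      unfold Wt
      rw [← hs]
      congr 1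
      push_cast
      ring
    rw [← s2, q]
    ring
  rw [e0, i1, i2]
  have e3 : g0 + b + 2 * I = g0 + 2 * I + b := by ring
  rw [e3]
  unfold AR
  linear_combination i3 + i4

private theorem lk_L {rho δ ψ b : ℝ} {h g0 : ℂ} (hδ : 0 < δ) (hr : 0 < rho) (hg : h = g0 + ψ * I)
    (hh : (rho : ℂ) * cexp g0 = h) (h0 : g0.re - b < 0)
    (h1 : -Real.pi < g0.im + 8 / 5) (h2 : g0.im + 8 / 5 < 0) (j : ℕ) :
    Lw (lk_vk rho δ ψ g0 j) = kk rho δ ψ g0 * AL δ b h j := by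
  have hA := lk_Adm rho δ ψ g0 j
  obtain ⟨P, hP⟩ := hA.prim
  set k := lk_vk rho δ ψ g0 j with hk
  have hs : ∀ v : ℂ, k (g0 + v) = kk rho δ ψ g0 * (v ^ j * cexp (EE δ h v)) := fun v =>
    lk_saddle hg hh j v
  have hb : BDir ψ (g0 - b - 2 * I) I := BDir_vert (by simpa using h0)
  have e0 := hA.Lw_eq hδ hr hP hb (g1 := g0 + 8 / 5 * I)
    (by simp; linarith) (by simp; linarith)
  have s1 := seg_int hA.cont hP (g0 - 2 * I) 1 (-b) 0
  have s2 := seg_int hA.cont hP g0 I (-2) (8 / 5)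
  have i1 : IB k (g0 - b - 2 * I) I = kk rho δ ψ g0 *
      ((∫ y in Ioi (2 : ℝ), Wt δ h j (-b) (-y)) * I) := by
    unfold IB
    have q : (∫ t in Ioi (0 : ℝ), k (g0 - b - 2 * I + t * (-I))) = kk rho δ ψ g0 *
        ∫ t in Ioi (0 : ℝ), Wt δ h j (-b) (-(2 + t)) := by
      rw [← integral_const_mul]
      congr 1
      funext t
      unfold Wt
      rw [← hs]
      congr 1
      push_cast
      ring
    rw [← lk_shift (fun y : ℝ => Wt δ h j (-b) (-y)) 2, q]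
    ring
  have i2 : IV k (g0 + 8 / 5 * I) = kk rho δ ψ g0 * ∫ u in Ioi (0 : ℝ), Wt δ h j u (8 / 5) := by
    unfold IV
    rw [← integral_const_mul]
    congr 1
    funext t
    unfold Wt
    rw [← hs]
    congr 1
    push_cast
    ring
  have i3 : P (g0 - 2 * I) - P (g0 - b - 2 * I) = kk rho δ ψ g0 *
      ∫ x in (-b)..0, Wt δ h j x (-2) := by
    have e1 : g0 - 2 * I + ((-b : ℝ) : ℂ) * 1 = g0 - b - 2 * I := by push_cast; ring
    have e2 : g0 - 2 * I + ((0 : ℝ) : ℂ) * 1 = g0 - 2 * I := by push_cast; ring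
    rw [e1, e2, one_mul] at s1
    rw [← s1, ← intervalIntegral.integral_const_mul]
    congr 1
    funext t
    unfold Wt
    rw [← hs]
    congr 1
    push_cast
    ring
  have i4 : P (g0 + 8 / 5 * I) - P (g0 - 2 * I) = kk rho δ ψ g0 *
      ((∫ y in (-2 : ℝ)..(8 / 5), Wt δ h j 0 y) * I) := by
    have e1 : g0 + ((8 / 5 : ℝ) : ℂ) * I = g0 + 8 / 5 * I := by push_cast; ring
    have e2 : g0 + ((-2 : ℝ) : ℂ) * I = g0 - 2 * I := by push_cast; ring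
    rw [e1, e2] at s2
    have q : (∫ t in (-2 : ℝ)..(8 / 5), k (g0 + t * I)) = kk rho δ ψ g0 *
        ∫ y in (-2 : ℝ)..(8 / 5), Wt δ h j 0 y := by
      rw [← intervalIntegral.integral_const_mul]
      congr 1
      funext t
      unfold Wt
      rw [← hs]
      congr 1
      push_cast
      ring
    rw [← s2, q]
    ring
  rw [e0, i1, i2]
  unfold AL
  linear_combination i3 + i4

theorem link_R {δ rho ψ a s b : ℝ} (hδ : 0 < δ) (hr : 0 < rho) (hb : 0 < b) (ha : 0 ≤ a)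
    (hs : 8 ≤ s) (has : a ≤ 461 / 10000 * s)
    (hsad : (rho : ℂ) * cexp ((a : ℂ) + ((s - ψ : ℝ) : ℂ) * I) = a + s * I)
    (h1 : -Real.pi < s - ψ - 2) (h2 : s - ψ - 2 < 0) :
    ∃ c : ℂ, c ≠ 0 ∧ SokamF1.AR rho δ ψ 0 = c * AR δ b (a + s * I) 0 ∧
      SokamF1.AR rho δ ψ 1 = c * ((a + s * I) * AR δ b (a + s * I) 0 + AR δ b (a + s * I) 1) ∧
      SokamF1.AR rho δ ψ 2 = c * ((a + s * I) ^ (2 : ℕ) * AR δ b (a + s * I) 0 +
        2 * (a + s * I) * AR δ b (a + s * I) 1 + AR δ b (a + s * I) 2) := by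
  have hg : (a + s * I : ℂ) = ((a : ℂ) + ((s - ψ : ℝ) : ℂ) * I) + ψ * I := by
    push_cast
    ring
  have key := fun j => lk_R (b := b) hδ hr hg hsad (by simp; linarith) (by simpa using h1)
    (by simpa using h2) j
  obtain ⟨m0, m1, m2⟩ := lk_mom (SokamF1.isW_R hδ hr ψ) hg
  refine ⟨kk rho δ ψ ((a : ℂ) + ((s - ψ : ℝ) : ℂ) * I), Complex.exp_ne_zero _, ?_, ?_, ?_⟩
  · unfold SokamF1.AR
    rw [m0, key]
  · unfold SokamF1.AR
    rw [m1, key, key]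
    ring
  · unfold SokamF1.AR
    rw [m2, key, key, key]
    ring

theorem link_L {δ rho ψ a s b : ℝ} (hδ : 0 < δ) (hr : 0 < rho) (hb : 0 < b) (ha : 0 ≤ a)
    (hs : 2 ≤ s) (has : a ≤ 575 / 1000 * s)
    (hsad : (rho : ℂ) * cexp (-(a : ℂ) + ((s - ψ : ℝ) : ℂ) * I) = -a + s * I)
    (h1 : -Real.pi < s - ψ + 8 / 5) (h2 : s - ψ + 8 / 5 < 0) :
    ∃ c : ℂ, c ≠ 0 ∧ SokamF1.AL rho δ ψ 0 = c * AL δ b (-a + s * I) 0 ∧
      SokamF1.AL rho δ ψ 1 = c * ((-a + s * I) * AL δ b (-a + s * I) 0 + AL δ b (-a + s * I) 1) ∧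
      SokamF1.AL rho δ ψ 2 = c * ((-a + s * I) ^ (2 : ℕ) * AL δ b (-a + s * I) 0 +
        2 * (-a + s * I) * AL δ b (-a + s * I) 1 + AL δ b (-a + s * I) 2) := by
  have hg : (-a + s * I : ℂ) = (-(a : ℂ) + ((s - ψ : ℝ) : ℂ) * I) + ψ * I := by
    push_cast
    ring
  have key := fun j => lk_L (b := b) hδ hr hg hsad (by simp; linarith) (by simpa using h1)
    (by simpa using h2) j
  obtain ⟨m0, m1, m2⟩ := lk_mom (SokamF1.isW_L hδ hr ψ) hg
  refine ⟨kk rho δ ψ (-(a : ℂ) + ((s - ψ : ℝ) : ℂ) * I), Complex.exp_ne_zero _, ?_, ?_, ?_⟩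
  · unfold SokamF1.AL
    rw [m0, key]
  · unfold SokamF1.AL
    rw [m1, key, key]
    ring
  · unfold SokamF1.AL
    rw [m2, key, key, key]
    ring

end SokamN1

end

/-! ### Lib_MP_af4de1_f1.N1SR -/

section
/-!
# N = 1, large `rho`: the piece R

`x = √(δ/s) ≤ .14157`, `κ1 = (347/1000 - t/3) s`, `κ2 = 347/1000 s`, `‖1 - h‖ ≤ s √(1 + 1/rho²)`.
A (`t = .0461`): `‖AR 0‖ ≥ (2.4968 - .2056 - .03 - .003) x ≥ 2.25 x`, `‖AR 1‖ ≤ (.4175 + .2 + .002) x`,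
`‖AR 2‖ ≤ (.09 + 1.3 + .002) x`.
C (`t = .0284`): `‖AR 0‖ ≥ (2.5029 - .2007 - .28 - .003) x ≥ 2.018 x`, `‖AR 1‖ ≤ (.4139 + 1.83 + .002) x`,
`‖AR 2‖ ≤ (.089 + 12.5 + .002) x`.
-/

set_option autoImplicit false

namespace SokamN1

open Complex Set MeasureTheory

private theorem sr_tri {A M S L : ℂ} {H : ℂ} (h : A = -H + M * I + S + L * I) :
    ‖M‖ - ‖H‖ - ‖S‖ - ‖L‖ ≤ ‖A‖ ∧ ‖A‖ ≤ ‖H‖ + ‖M‖ + ‖S‖ + ‖L‖ := by
  have hI : ∀ z : ℂ, ‖z * I‖ = ‖z‖ := fun z => by rw [norm_mul, Complex.norm_I, mul_one]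
  constructor
  · have e : M * I = A + H - S - L * I := by rw [h]; ring
    have h1 : ‖M‖ ≤ ‖A‖ + ‖H‖ + ‖S‖ + ‖L‖ := by
      rw [← hI M, e]
      have := norm_sub_le (A + H - S) (L * I)
      have h2 := norm_sub_le (A + H) S
      have h3 := norm_add_le A H
      rw [hI] at this
      linarith only [this, h2, h3]
    linarith only [h1]
  · rw [h]
    have h1 := norm_add_le (-H + M * I + S) (L * I)
    have h2 := norm_add_le (-H + M * I) S
    have h3 := norm_add_le (-H) (M * I)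
    rw [hI] at h1 h3
    rw [norm_neg] at h3
    linarith only [h1, h2, h3]

private theorem sr_core {δ a s b L0 L1 L2 : ℝ} (hδ : 0 < δ) (hs : 8 ≤ s) (hz : 499 / 10 * δ ≤ s)
    (ha : 0 ≤ a) (ha2 : a ≤ 3 / 5) (hat : a ≤ 461 / 10000 * s) (hb : 0 ≤ b) (hb2 : b ≤ 5 / 8)
    (hL0 : ‖∫ y in Ioi (2 : ℝ), Wt δ (a + s * I) 0 b y‖ ≤ L0 * √(δ / s))
    (hL1 : ‖∫ y in Ioi (2 : ℝ), Wt δ (a + s * I) 1 b y‖ ≤ L1 * √(δ / s))
    (hL2 : ‖∫ y in Ioi (2 : ℝ), Wt δ (a + s * I) 2 b y‖ ≤ L2 * √(δ / s)) :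
    (22891 / 10000 - L0) * √(δ / s) ≤ ‖AR δ b (a + s * I) 0‖ ∧
    ‖AR δ b (a + s * I) 1‖ ≤ (4196 / 10000 + L1) * √(δ / s) ∧
    ‖AR δ b (a + s * I) 2‖ ≤ (92 / 1000 + L2) * √(δ / s) := by
  have hs0 : 0 < s := by linarith only [hs]
  have hk1 : 0 < (347 / 1000 - 461 / 10000 / 3) * s := by
    have : (0 : ℝ) < 347 / 1000 - 461 / 10000 / 3 := by norm_num
    positivity
  have hk2 : 0 < 347 / 1000 * s := by positivity
  have g1 : ∀ y : ℝ, 0 ≤ y → y ≤ 2 →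
      (347 / 1000 - 461 / 10000 / 3) * s * y ^ (2 : ℕ) ≤ Ht a s 0 (-y) :=
    fun y hy hy2 => ht_R_neg hs0 ha hat hy hy2
  have g2 : ∀ y : ℝ, 0 ≤ y → y ≤ 2 → 347 / 1000 * s * y ^ (2 : ℕ) ≤ Ht a s 0 y :=
    fun y hy hy2 => ht_R_pos hs0 ha hy hy2
  have hlow := main_low (y1 := 2) (y2 := 2) hδ hs0 hk1 hk2 (by linarith only [hk2]) (by linarith only [hk2])
    (by norm_num) (by norm_num) g1 g2
  have hup1 := main_up1 (y1 := 2) (y2 := 2) hδ hk1 hk2 (by norm_num) (by norm_num) g1 g2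
  have hup2 := main_up2 (y1 := 2) (y2 := 2) hδ hk1 hk2 (by norm_num) (by norm_num) g1 g2
  have hH := fun (j : ℕ) (hj : j ≤ 2) => horizR hδ hs hz ha hat hj
  have hS := fun (j : ℕ) (hj : j ≤ 2) => stepR hδ hs hz ha hb hb2 hj
  obtain ⟨x, hx⟩ : ∃ x, x = √(δ / s) := ⟨_, rfl⟩
  rw [← hx] at hL0 hL1 hL2 ⊢
  simp only [← hx] at hH hS
  have hx0 : 0 < x := by
    rw [hx]
    exact Real.sqrt_pos.2 (div_pos hδ hs0)
  have hx2 : x ^ (2 : ℕ) = δ / s := by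
    rw [hx]
    exact Real.sq_sqrt (div_pos hδ hs0).le
  have hδx : δ = x ^ (2 : ℕ) * s := by
    rw [hx2]
    field_simp
  have hx2b : x ^ (2 : ℕ) ≤ 10 / 499 := by
    rw [hx2, div_le_iff₀ hs0]
    linarith only [hz]
  have hxb : x ≤ 1416 / 10000 := by
    refine (abs_le_of_sq_le_sq' ?_ (by norm_num)).2
    refine hx2b.trans ?_
    norm_num
  have hpi := Real.pi_gt_d4
  have hpi2 := Real.pi_lt_d4
  norm_num at hpi hpi2
  -- the Gaussian
  have e1 : 24968 / 10000 * x ≤ √(2 * Real.pi * δ / ‖1 - ((a : ℂ) + s * I)‖) := by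
    have hn : ‖1 - ((a : ℂ) + s * I)‖ ≤ 100779 / 100000 * s := by
      have e : (1 : ℂ) - ((a : ℂ) + s * I) = ((1 - a : ℝ) : ℂ) + ((-s : ℝ) : ℂ) * I := by
        push_cast
        ring
      rw [e, Complex.norm_add_mul_I, Real.sqrt_le_left (by positivity)]
      nlinarith only [hs, ha, hat]
    have hn0 : 0 < ‖1 - ((a : ℂ) + s * I)‖ := by
      rw [norm_pos_iff]
      intro h
      have := congrArg Complex.im h
      simp at this
      linarith only [hk2, this]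
    refine Real.le_sqrt_of_sq_le ?_
    rw [le_div_iff₀ hn0, mul_pow, hδx]
    have h1 : (24968 / 10000 : ℝ) ^ (2 : ℕ) * x ^ (2 : ℕ) * ‖1 - ((a : ℂ) + s * I)‖ ≤
        (24968 / 10000 : ℝ) ^ (2 : ℕ) * x ^ (2 : ℕ) * (100779 / 100000 * s) :=
      mul_le_mul_of_nonneg_left hn (by positivity)
    have h2 : (24968 / 10000 : ℝ) ^ (2 : ℕ) * (100779 / 100000) * (x ^ (2 : ℕ) * s) ≤
        2 * Real.pi * (x ^ (2 : ℕ) * s) := by
      refine mul_le_mul_of_nonneg_right ?_ (by positivity)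
      norm_num
      linarith only [hpi]
    linarith only [h1, h2]
  have e2 : ‖(a : ℂ) + s * I‖ * δ / 12 * (1 / ((347 / 1000 - 461 / 10000 / 3) * s) ^ (2 : ℕ) +
      1 / (347 / 1000 * s) ^ (2 : ℕ)) ≤ 20552 / 100000 * x := by
    have hn : ‖(a : ℂ) + s * I‖ ≤ 100107 / 100000 * s := by
      rw [Complex.norm_add_mul_I, Real.sqrt_le_left (by positivity)]
      have : a ^ (2 : ℕ) ≤ (461 / 10000 * s) ^ (2 : ℕ) := pow_le_pow_left₀ ha hat 2
      nlinarith only [this]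
    have h1 : ‖(a : ℂ) + s * I‖ * δ / 12 * (1 / ((347 / 1000 - 461 / 10000 / 3) * s) ^ (2 : ℕ) +
        1 / (347 / 1000 * s) ^ (2 : ℕ)) ≤ (100107 / 100000 * s) * δ / 12 *
        (1 / ((347 / 1000 - 461 / 10000 / 3) * s) ^ (2 : ℕ) + 1 / (347 / 1000 * s) ^ (2 : ℕ)) := by
      gcongr
    refine h1.trans ?_
    have h2 : (100107 / 100000 * s) * δ / 12 *
        (1 / ((347 / 1000 - 461 / 10000 / 3) * s) ^ (2 : ℕ) + 1 / (347 / 1000 * s) ^ (2 : ℕ)) =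
        (100107 / 100000 / 12 * (1 / (347 / 1000 - 461 / 10000 / 3) ^ (2 : ℕ) + 1 / (347 / 1000) ^ (2 : ℕ))) *
          x * x := by
      rw [hδx]
      field_simp
    rw [h2]
    have h3 : (100107 / 100000 / 12 * (1 / (347 / 1000 - 461 / 10000 / 3) ^ (2 : ℕ) +
        1 / (347 / 1000) ^ (2 : ℕ))) * x ≤ 20552 / 100000 := by
      refine (mul_le_mul_of_nonneg_left hxb (by norm_num)).trans ?_
      norm_num
    exact mul_le_mul_of_nonneg_right h3 hx0.le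
  have e3 : 5 / 4 * (δ / s) * Real.exp (-(32 / 25 * s / δ)) ≤ 18 / 100000 * x := by
    have h1 : Real.exp (-(32 / 25 * s / δ)) ≤ 1 / 1000 := by
      have h2 : (2.7 : ℝ) ^ (10 : ℕ) ≤ Real.exp 10 := by
        have h3 : Real.exp 10 = Real.exp 1 ^ (10 : ℕ) := by
          rw [← Real.exp_nat_mul]
          norm_num
        rw [h3]
        refine pow_le_pow_left₀ (by norm_num) ?_ 10
        have := Real.exp_one_gt_d9
        norm_num at this ⊢
        linarith only [this]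
      have h4 : (10 : ℝ) ≤ 32 / 25 * s / δ := by
        rw [le_div_iff₀ hδ]
        linarith only [hs, hz]
      calc Real.exp (-(32 / 25 * s / δ)) ≤ Real.exp (-10) := Real.exp_le_exp.2 (by linarith only [h4])
        _ = (Real.exp 10)⁻¹ := Real.exp_neg _
        _ ≤ ((2.7 : ℝ) ^ (10 : ℕ))⁻¹ := inv_anti₀ (by positivity) h2
        _ ≤ 1 / 1000 := by norm_num
    rw [← hx2]
    have h5 : 5 / 4 * x ^ (2 : ℕ) * Real.exp (-(32 / 25 * s / δ)) ≤ 5 / 4 * x ^ (2 : ℕ) * (1 / 1000) :=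
      mul_le_mul_of_nonneg_left h1 (by positivity)
    nlinarith only [hx0, hxb, h5]
  have e4 : δ / 2 * (1 / ((347 / 1000 - 461 / 10000 / 3) * s) + 1 / (347 / 1000 * s)) ≤
      4176 / 10000 * x := by
    have h2 : δ / 2 * (1 / ((347 / 1000 - 461 / 10000 / 3) * s) + 1 / (347 / 1000 * s)) =
        (1 / 2 * (1 / (347 / 1000 - 461 / 10000 / 3) + 1 / (347 / 1000))) * x * x := by
      rw [hδx]
      field_simp
    rw [h2]
    have h3 : (1 / 2 * (1 / (347 / 1000 - 461 / 10000 / 3) + 1 / (347 / 1000))) * x ≤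
        4176 / 10000 := by
      refine (mul_le_mul_of_nonneg_left hxb (by norm_num)).trans ?_
      norm_num
    exact mul_le_mul_of_nonneg_right h3 hx0.le
  have e5 : √Real.pi / 4 * (δ / ((347 / 1000 - 461 / 10000 / 3) * s) *
      √(δ / ((347 / 1000 - 461 / 10000 / 3) * s)) + δ / (347 / 1000 * s) *
      √(δ / (347 / 1000 * s))) ≤ 90 / 1000 * x := by
    have r0 : √Real.pi ≤ 17725 / 10000 := by
      rw [Real.sqrt_le_left (by norm_num)]
      norm_num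
      linarith only [hpi2]
    have d1 : δ / ((347 / 1000 - 461 / 10000 / 3) * s) =
        (1 / (347 / 1000 - 461 / 10000 / 3)) * x ^ (2 : ℕ) := by
      rw [hδx]
      field_simp
    have d2 : δ / (347 / 1000 * s) = (1 / (347 / 1000)) * x ^ (2 : ℕ) := by
      rw [hδx]
      field_simp
    have r1 : √(δ / ((347 / 1000 - 461 / 10000 / 3) * s)) ≤ 17365 / 10000 * x := by
      rw [Real.sqrt_le_left (by positivity), d1, mul_pow]
      exact mul_le_mul_of_nonneg_right (by norm_num) (by positivity)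
    have r2 : √(δ / (347 / 1000 * s)) ≤ 16977 / 10000 * x := by
      rw [Real.sqrt_le_left (by positivity), d2, mul_pow]
      exact mul_le_mul_of_nonneg_right (by norm_num) (by positivity)
    have h1 : √Real.pi / 4 * (δ / ((347 / 1000 - 461 / 10000 / 3) * s) *
        √(δ / ((347 / 1000 - 461 / 10000 / 3) * s)) + δ / (347 / 1000 * s) *
        √(δ / (347 / 1000 * s))) ≤ 17725 / 10000 / 4 *
        (δ / ((347 / 1000 - 461 / 10000 / 3) * s) * (17365 / 10000 * x) +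
          δ / (347 / 1000 * s) * (16977 / 10000 * x)) := by
      gcongr
    refine h1.trans ?_
    rw [d1, d2]
    have h2 : (17725 / 10000 / 4 : ℝ) * (1 / (347 / 1000 - 461 / 10000 / 3) * x ^ (2 : ℕ) *
        (17365 / 10000 * x) + 1 / (347 / 1000) * x ^ (2 : ℕ) * (16977 / 10000 * x)) =
        (17725 / 10000 / 4 * (1 / (347 / 1000 - 461 / 10000 / 3) * (17365 / 10000) +
          1 / (347 / 1000) * (16977 / 10000))) * x ^ (2 : ℕ) * x := by ring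
    rw [h2]
    refine mul_le_mul_of_nonneg_right ?_ hx0.le
    refine (mul_le_mul_of_nonneg_left hx2b (by norm_num)).trans ?_
    norm_num
  refine ⟨?_, ?_, ?_⟩
  · have h := (sr_tri (A := AR δ b (a + s * I) 0) rfl).1
    have h1 := hH 0 (by norm_num)
    have h2 := hS 0 (by norm_num)
    linarith only [hlow, hL0, e1, e2, e3, h, h1, h2]
  · have h := (sr_tri (A := AR δ b (a + s * I) 1) rfl).2
    have h1 := hH 1 (by norm_num)
    have h2 := hS 1 (by norm_num)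
    linarith only [hup1, hL1, e4, h, h1, h2]
  · have h := (sr_tri (A := AR δ b (a + s * I) 2) rfl).2
    have h1 := hH 2 (by norm_num)
    have h2 := hS 2 (by norm_num)
    linarith only [hup2, hL2, e5, h, h1, h2]

private theorem sr_end {A B C : ℂ} {x l0 l1 l2 p q : ℝ} (hx : 0 < x) (hl0 : 0 < l0)
    (h0 : l0 * x ≤ ‖A‖) (h1 : ‖B‖ ≤ l1 * x) (h2 : ‖C‖ ≤ l2 * x) (hp : 0 ≤ p) (hq : 0 ≤ q)
    (h3 : l1 ≤ p * l0) (h4 : l2 ≤ q * l0) : A ≠ 0 ∧ ‖B‖ ≤ p * ‖A‖ ∧ ‖C‖ ≤ q * ‖A‖ := by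
  have h5 : 0 < l0 * x := mul_pos hl0 hx
  refine ⟨?_, ?_, ?_⟩
  · rw [← norm_pos_iff]
    linarith only [h0, h5]
  · calc ‖B‖ ≤ l1 * x := h1
      _ ≤ (p * l0) * x := mul_le_mul_of_nonneg_right h3 hx.le
      _ = p * (l0 * x) := by ring
      _ ≤ p * ‖A‖ := mul_le_mul_of_nonneg_left h0 hp
  · calc ‖C‖ ≤ l2 * x := h2
      _ ≤ (q * l0) * x := mul_le_mul_of_nonneg_right h4 hx.le
      _ = q * (l0 * x) := by ring
      _ ≤ q * ‖A‖ := mul_le_mul_of_nonneg_left h0 hq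

theorem side_R_A {δ rho a s : ℝ} (hδ : 0 < δ) (h8 : 8 ≤ rho) (h13 : rho ≤ 13) (hz : 499 / 10 * δ ≤ rho)
    (ha : 0 ≤ a) (ha2 : a ≤ 3 / 5) (has : a ≤ 461 / 10000 * s) (hs : rho ≤ s) (hs2 : s ≤ rho * Real.exp a) :
    AR δ (5 / rho) (a + s * I) 0 ≠ 0 ∧
    ‖AR δ (5 / rho) (a + s * I) 1‖ ≤ 3 / 10 * ‖AR δ (5 / rho) (a + s * I) 0‖ ∧
    ‖AR δ (5 / rho) (a + s * I) 2‖ ≤ 65 / 100 * ‖AR δ (5 / rho) (a + s * I) 0‖ := by
  obtain ⟨l0, l1, l2⟩ := liftR_A hδ h8 h13 hz ha ha2 hs hs2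
  have hs0 : 0 < s := by linarith only [h8, hs]
  obtain ⟨h0, h1, h2⟩ := sr_core hδ (by linarith only [h8, hs]) (by linarith only [hz, hs]) ha ha2 has (b := 5 / rho)
    (by positivity) (div_le_div_of_nonneg_left (by norm_num) (by norm_num) h8) l0 l1 l2
  exact sr_end (Real.sqrt_pos.2 (div_pos hδ hs0)) (by norm_num) h0 h1 h2 (by norm_num)
    (by norm_num) (by norm_num) (by norm_num)

theorem side_R_C {δ rho a s : ℝ} (hδ : 0 < δ) (h13 : 13 ≤ rho) (hz : 499 / 10 * δ ≤ rho)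
    (hl : δ * rho ≤ 72552 / 10000)
    (ha : 0 ≤ a) (ha2 : a ≤ 3 / 5) (has : a ≤ 284 / 10000 * s) (hs : rho ≤ s) (hs2 : s ≤ rho * Real.exp a) :
    AR δ (5 / rho) (a + s * I) 0 ≠ 0 ∧
    ‖AR δ (5 / rho) (a + s * I) 1‖ ≤ 113 / 100 * ‖AR δ (5 / rho) (a + s * I) 0‖ ∧
    ‖AR δ (5 / rho) (a + s * I) 2‖ ≤ 63 / 10 * ‖AR δ (5 / rho) (a + s * I) 0‖ := by
  obtain ⟨l0, l1, l2⟩ := liftR_C hδ h13 hz hl ha ha2 hs hs2
  have hs0 : 0 < s := by linarith only [h13, hs]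
  obtain ⟨h0, h1, h2⟩ := sr_core hδ (by linarith only [h13, hs]) (by linarith only [hz, hs]) ha ha2 (by linarith only [ha, has])
    (b := 5 / rho) (by positivity)
    (div_le_div_of_nonneg_left (by norm_num) (by norm_num) (by linarith only [h13])) l0 l1 l2
  exact sr_end (Real.sqrt_pos.2 (div_pos hδ hs0)) (by norm_num) h0 h1 h2 (by norm_num)
    (by norm_num) (by norm_num) (by norm_num)

end SokamN1

end

/-! ### Lib_MP_af4de1_f1.N1Main -/

section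
/-!
# N = 1, `rho > 8`: at most one zero on `|z| = r`, and it is simple

`50 ≤ r`, `8 < δ r`, `δ² r ≤ 7.2552`.
-/

set_option autoImplicit false

namespace SokamN1

open Complex

private theorem arctan_le {x : ℝ} (hx : 0 ≤ x) : Real.arctan x ≤ x := by
  have h := Real.le_tan (Real.arctan_nonneg.2 hx) (Real.arctan_lt_pi_div_two x)
  rwa [Real.tan_arctan] at h

theorem U_point {δ rho ψ m : ℝ} (hδ : 0 < δ) (h8 : 8 ≤ rho) (hz : 499 / 10 * δ ≤ rho)
    (hl : δ * rho ≤ 72552 / 10000) (hψ : rho - Real.pi / 2 ≤ ψ) (hψ2 : ψ < rho - Real.pi / 2 + 2 * Real.pi)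
    (hm : 0 < m)
    (h : (SokamF1.T1 δ (SokamF1.AL rho δ ψ) + SokamF1.T1 δ (SokamF1.AR rho δ ψ)) +
      m * (SokamF1.AL rho δ ψ 0 + SokamF1.AR rho δ ψ 0) = 0) :
    0 < ((SokamF1.T2 δ (SokamF1.AL rho δ ψ) + SokamF1.T2 δ (SokamF1.AR rho δ ψ)) /
        (SokamF1.T1 δ (SokamF1.AL rho δ ψ) + SokamF1.T1 δ (SokamF1.AR rho δ ψ)) -
      (SokamF1.T1 δ (SokamF1.AL rho δ ψ) + SokamF1.T1 δ (SokamF1.AR rho δ ψ)) /
        (SokamF1.AL rho δ ψ 0 + SokamF1.AR rho δ ψ 0)).re := by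
  have hr : 0 < rho := by linarith
  have hpi1 : 3.1415 < Real.pi := Real.pi_gt_d4
  have hpi2 : Real.pi < 3.1416 := Real.pi_lt_d4
  obtain ⟨φ, hφ⟩ : ∃ φ, φ = ψ - rho + Real.pi / 2 := ⟨_, rfl⟩
  have hφ0 : 0 ≤ φ := by linarith
  have hφ1 : φ ≤ 2 * Real.pi := by linarith
  have hψe : φ + rho - Real.pi / 2 = ψ := by linarith
  obtain ⟨aR, sR, haR, haR2, hsR, hcR, hpR⟩ := sad_R h8 hφ0 hφ1
  obtain ⟨hR1, hR2, hR3, hR4⟩ := sad_R_facts h8 haR haR2 hsR hcR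
  obtain ⟨aL, sL, haL, haL2, hsL, hcL, hpL⟩ := sad_L h8 hφ0 hφ1
  obtain ⟨hL1, hL2, hL3, hL4, hL5⟩ := sad_L_facts h8 hφ0 haL haL2 hsL hcL hpL
  have eR := sad_R_eq hr haR hsR hcR hpR
  have eL := sad_L_eq hr haL hsL hcL hpL
  rw [hψe] at eR eL
  have hb : (0 : ℝ) < 5 / rho := by positivity
  have hsR8 : 8 ≤ sR := h8.trans hR1
  -- arctan bounds
  have tR0 : 0 ≤ Real.arctan (aR / sR) := Real.arctan_nonneg.2 (by (clear * - haR hsR; positivity))
  have tR1 : Real.arctan (aR / sR) < Real.pi / 2 := Real.arctan_lt_pi_div_two _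
  have tL0 : 0 ≤ Real.arctan (aL / sL) := Real.arctan_nonneg.2 (by (clear * - haL hsL; positivity))
  have tRs : Real.arctan (aR / sR) ≤ 461 / 10000 := by
    refine (arctan_le (by (clear * - haR hsR; positivity))).trans ?_
    rw [div_le_iff₀ hsR]
    exact hR3
  have tLs : Real.arctan (aL / sL) ≤ 575 / 1000 := by
    refine (arctan_le (by (clear * - haL hsL; positivity))).trans ?_
    rw [div_le_iff₀ hsL]
    exact hL4
  obtain ⟨cR, hcR0, r0, r1, r2⟩ := link_R (b := 5 / rho) hδ hr hb haR hsR8 hR3 eR (by linarith) (by linarith)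
  obtain ⟨cL, hcL0, l0, l1, l2⟩ := link_L (b := 5 / rho) hδ hr hb haL (by linarith) hL4 eL
    (by linarith) (by linarith)
  have hδc : (δ : ℂ) ≠ 0 := by exact_mod_cast hδ.ne'
  -- the algebra
  have fin : ∀ {eR eL VR VL p : ℝ},
      AR δ (5 / rho) (aR + sR * I) 0 ≠ 0 → AL δ (5 / rho) (-aL + sL * I) 0 ≠ 0 →
      ‖AR δ (5 / rho) (aR + sR * I) 1‖ ≤ eR * ‖AR δ (5 / rho) (aR + sR * I) 0‖ →
      ‖AR δ (5 / rho) (aR + sR * I) 2‖ ≤ VR * ‖AR δ (5 / rho) (aR + sR * I) 0‖ →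
      ‖AL δ (5 / rho) (-aL + sL * I) 1‖ ≤ eL * ‖AL δ (5 / rho) (-aL + sL * I) 0‖ →
      ‖AL δ (5 / rho) (-aL + sL * I) 2‖ ≤ VL * ‖AL δ (5 / rho) (-aL + sL * I) 0‖ →
      0 < p → p ≤ sR - sL - eR - eL → eR < sR → eL < sL →
      (aR + eR) * (aL + eL) * p + (δ + VR + eR ^ (2 : ℕ)) * (sL + aL) + (δ + VL + eL ^ (2 : ℕ)) * (sR + aR) <
        p * (sR - eR) * (sL - eL) →
      0 < ((SokamF1.T2 δ (SokamF1.AL rho δ ψ) + SokamF1.T2 δ (SokamF1.AR rho δ ψ)) /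
        (SokamF1.T1 δ (SokamF1.AL rho δ ψ) + SokamF1.T1 δ (SokamF1.AR rho δ ψ)) -
      (SokamF1.T1 δ (SokamF1.AL rho δ ψ) + SokamF1.T1 δ (SokamF1.AR rho δ ψ)) /
        (SokamF1.AL rho δ ψ 0 + SokamF1.AR rho δ ψ 0)).re := by
    intro eR eL VR VL p a1 a2 a3 a4 a5 a6 a7 a8 a9 a10 a11
    have key := crit (cR := cR) (cL := cL) hδ hm a1 a2 hcR0 hcL0 a3 a4 a5 a6 haR haL a7 a8 a9 a10 a11
      (R := SokamF1.AR rho δ ψ 0) (DR := SokamF1.T1 δ (SokamF1.AR rho δ ψ))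
      (D2R := SokamF1.T2 δ (SokamF1.AR rho δ ψ)) (L := SokamF1.AL rho δ ψ 0)
      (DL := SokamF1.T1 δ (SokamF1.AL rho δ ψ)) (D2L := SokamF1.T2 δ (SokamF1.AL rho δ ψ)) r0 l0
      (by unfold SokamF1.T1; rw [r1]; ring) (by unfold SokamF1.T1; rw [l1]; ring)
      (by unfold SokamF1.T2; rw [r0, r2]; ring) (by unfold SokamF1.T2; rw [l0, l2]; ring)
      (by rw [add_comm (SokamF1.T1 δ (SokamF1.AR rho δ ψ)), add_comm (SokamF1.AR rho δ ψ 0)]; exact h)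
    rw [add_comm (SokamF1.T2 δ (SokamF1.AR rho δ ψ)), add_comm (SokamF1.T1 δ (SokamF1.AR rho δ ψ)),
      add_comm (SokamF1.AR rho δ ψ 0)] at key
    exact key
  rcases le_total rho 13 with h13 | h13
  · obtain ⟨b1, b2, b3⟩ := side_R_A hδ h8 h13 hz haR haR2 hR3 hR1 hR2
    obtain ⟨c1, c2, c3⟩ := side_L_A hδ h8 h13 hz haL haL2 hL4 hL2 hL3 hL1
    have gap := sad_gap haR hsR haL hsL hpR hpL hR3 hL4
    have hδ2 : δ ≤ 2606 / 10000 := by linarith
    exact fin (p := 452 / 100) b1 c1 b2 b3 c2 c3 (by norm_num) (by linarith) (by linarith) (by linarith)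
      (crit_A hδ hδ2 hsR8 haR hR3 hL3 haL haL2)
  · obtain ⟨b1, b2, b3⟩ := side_R_C hδ h13 hz hl haR haR2 (hR4 h13) hR1 hR2
    obtain ⟨c1, c2, c3⟩ := side_L_C hδ h13 hz hl haL (hL5 h13).1 (hL5 h13).2 hL2 hL1
    have gap := sad_gap haR hsR haL hsL hpR hpL (hR4 h13) (hL5 h13).2
    have hδ2 : δ ≤ 3814 / 10000 := by
      by_contra hc
      push Not at hc
      nlinarith only [hz, hl, hc]
    exact fin (p := 38 / 10) b1 c1 b2 b3 c2 c3 (by norm_num) (by linarith) (by linarith) (by linarith)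
      (crit_C hδ hδ2 (h13.trans hR1) haR (hR4 h13) (by linarith) haL (hL5 h13).1)

theorem dist_big {δ r : ℝ} (hδ : 0 < δ) (hr : 50 ≤ r) (h8 : 8 < δ * r) (hl : δ ^ (2 : ℕ) * r ≤ 72552 / 10000) :
    SokamFU.Dist δ r := by
  have hδ1 : δ < 1 := by
    by_contra hc
    push Not at hc
    nlinarith only [h8, hl, hc]
  have hq : SokamFU.qa δ ≠ 1 := by
    unfold SokamFU.qa
    intro h1
    rw [Complex.exp_eq_one_iff] at h1
    obtain ⟨n, hn⟩ := h1
    have h2 : (δ : ℂ) * I = ((n * (2 * Real.pi) : ℝ) : ℂ) * I := by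
      rw [hn]
      push_cast
      ring
    have h3 := mul_right_cancel₀ I_ne_zero h2
    have h4 : δ = n * (2 * Real.pi) := by exact_mod_cast h3
    have hpi : 3 < Real.pi := Real.pi_gt_three
    have h5 : 0 < n := by
      by_contra hc
      push Not at hc
      have : (n : ℝ) ≤ 0 := by exact_mod_cast hc
      nlinarith only [hδ, h4, hpi, this]
    have h6 : (1 : ℝ) ≤ n := by exact_mod_cast h5
    nlinarith only [hδ1, h4, hpi, h6]
  have hε : 0 < min (1 / 10) (r - 8 / δ) := by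
    refine lt_min (by norm_num) ?_
    rw [sub_pos, div_lt_iff₀ hδ]
    linarith
  refine SokamF1.dist_of_LR hδ hq hε (fun ρ => ρ - Real.pi / 2) ?_
  rintro ρ ψ hρ h1 h2 h3 h4 - ⟨m, hm, h5⟩
  have e1 := min_le_left (1 / 10) (r - 8 / δ)
  have e2 := min_le_right (1 / 10) (r - 8 / δ)
  set ε := min (1 / 10) (r - 8 / δ)
  have h8' : 8 ≤ δ * (r - ε) := by
    have : 8 / δ ≤ r - ε := by linarith
    rw [div_le_iff₀ hδ] at this
    linarith
  have hz : 499 / 10 * δ ≤ ρ := by nlinarith only [hδ, hr, h1, e1]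
  have hl' : δ * ρ ≤ 72552 / 10000 := by nlinarith only [hl, hρ, h2]
  exact U_point hδ (h8'.trans h1.le) hz hl' h3 h4 hm h5

/-- the hypothesis `n1b` of `SokamV3.dist_F1_chain` -/
theorem n1b (α r : ℝ) (hα : 0 < α) (hr : 50 ≤ r) (h8 : 8 < α * r) (h : 1 + (α * r) ^ (2 : ℕ) ≤ 7.2552 * r) :
    SokamFU.Dist α r := by
  refine dist_big hα hr h8 ?_
  have h1 : (α ^ (2 : ℕ) * r) * r ≤ 7.2552 * r := by linarith only [h]
  have h2 : α ^ (2 : ℕ) * r ≤ 7.2552 := le_of_mul_le_mul_right h1 (by linarith)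
  norm_num at h2 ⊢
  linarith

end SokamN1

end
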