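import Pool.Agent.Lib_MP_af4de1_zy.Z55
import Pool.Agent.Lib_MP_af4de1_zy.Z58
import Pool.Agent.Lib_MP_af4de1_zy.Z60
import Pool.Agent.Lib_MP_af4de1_zy.Z80
import Pool.Agent.Lib_MP_af4de1_zy.Z137
import Pool.Agent.Lib_MP_af4de1_zy.Z138
import Pool.Agent.Lib_MP_af4de1_zy.Z139
import Pool.Agent.Lib_MP_af4de1_zy.Z140
import Pool.Agent.Lib_MP_af4de1_zy.Z141
import Pool.Agent.Lib_MP_af4de1_zy.Z153
import Pool.Agent.Lib_MP_af4de1_zy.Z157
import Pool.Agent.Lib_MP_af4de1_zy.Z161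
import Pool.Agent.Lib_MP_af4de1_zy.Z165
import Pool.Agent.Lib_MP_af4de1_zy.Z175

/-! ### Lib_MP_af4de1_v3.F1All -/

section
namespace SokamF1
end SokamF1
namespace SokamF1M
end SokamF1M
namespace SokamF1S
end SokamF1S
namespace SokamU
end SokamU
/-!
# F1, everything together
-/

set_option autoImplicit false

namespace SokamV3

open Complex SokamU SokamF1 SokamF1S SokamF1M

theorem pL : PShfLw where
  a := SokamCel.shfL_a
  a' := SokamCl.shfL_a'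
  b := SokamCel.shfL_b
  c := SokamCl.shfL_c
  d := fun N i r δ y η h1 h2 h3 h4 h5 h6 h7 => SokamDz.dGL N i r δ y η _ h1 h2 h3 h4 h5 h6 le_rfl h7
  e := SokamCen.shfL_e_of SokamDz.dGL SokamCel.e1L
  o := SokamV3O.shfL_o

theorem pR : PShfRw := SokamCel.pShfRw_of2 SokamCel.runR_b SokamDz.dGR SokamV3O.shfR_o

theorem p1 : P1 where
  S := psad1
  PP := SokamPair1.pair1
  G := ⟨pGap1_L, fun N r δ ya yb η h1 h2 h3 h4 h5 => gapR N r δ ya yb η h1 h2 h3 h4 h5⟩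
  O := SokamV3T.pown1
  L := pL
  R := pR

theorem p2rest : P2Rest := ⟨SokamP2O.p2_outL⟩

/-- **F1**, no hypothesis. -/
theorem dist_F1 :
    ∀ α r : ℝ, 0 < α → α ≤ Real.pi → 50 ≤ r → 9 / 2 ≤ α * r → SokamFU.Dist α r :=
  dist_F1_chain SokamQ.n1a SokamN1.n1b
    (fun α r h1 h2 => SokamFU.N2.dist_N2' (by linarith) (by norm_num at h2 ⊢; exact h2))
    (w2_of p2rest) (fun _ _ _ h1 => waveU_reg1 p1 h1) SokamF1T.pc_fin

end SokamV3

end
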