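import Mathlib.Algebra.Order.Floor.Semifield
import Mathlib.Algebra.Ring.IsFormallyReal
import Mathlib.RingTheory.PowerSeries.Inverse
import Mathlib.Data.Rat.Star
import Mathlib.Geometry.Euclidean.Angle.Unoriented.TriangleInequality
import Mathlib.Analysis.Convex.Contractible
import Mathlib.Analysis.Calculus.Deriv.Star
import Mathlib.MeasureTheory.Integral.Gamma
import Mathlib.Analysis.Complex.LocallyUniformLimit
import Mathlib.Topology.Separation.CompletelyRegular
import Mathlib.RingTheory.Flat.TorsionFree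
import Mathlib.MeasureTheory.Order.Group.Lattice
import Mathlib.Data.Int.Star
import Mathlib.LinearAlgebra.Lagrange
import Mathlib.Analysis.Complex.Angle
import Mathlib.Analysis.Complex.BorelCaratheodory
import Mathlib.Analysis.Complex.CoveringMap
import Mathlib.Topology.Homotopy.Lifting
import Mathlib.Analysis.Complex.ExponentialBounds
import Mathlib.Analysis.Complex.HasPrimitives
import Mathlib.NumberTheory.DiophantineApproximation.Basic
import Mathlib.Analysis.Complex.OpenMapping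
import Mathlib.Analysis.SpecialFunctions.Trigonometric.DerivHyp
import Mathlib.RingTheory.SimpleRing.Principal
import Mathlib.Order.CompletePartialOrder
import Mathlib.Analysis.SpecialFunctions.Complex.LogBounds
import Mathlib.Analysis.SpecialFunctions.Gamma.BohrMollerup
import Mathlib.Analysis.SpecialFunctions.Trigonometric.Series
import Mathlib.Topology.MetricSpace.Sequences
import Mathlib.Analysis.Normed.Group.Tannery
import Mathlib.Analysis.ODE.Gronwall
import Mathlib.Analysis.Real.Pi.Bounds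
import Mathlib.Analysis.SpecialFunctions.Gaussian.PoissonSummation
import Mathlib.Analysis.SpecialFunctions.Trigonometric.InverseDeriv
import Mathlib.RingTheory.TotallySplit
import Mathlib.RingTheory.Etale.Weakly
import Mathlib.Tactic

/-! ### Lib_MP_af4de1_v3.T2EvB -/

section
/-!
# `N = 2`, `10 ≤ Γ < 20`: the one-variable inequalities of the two first lumps (generated)
-/

set_option autoImplicit false

namespace SokamV3

theorem ev_bn1 {ρ : ℝ} (h : 69 / 10 ≤ ρ) :
    761 / 200 ≤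
      (10132 / 10000 * (ρ + 1 / ρ)) * ((ρ + 3043 / 1000)⁻¹ * (194166 / 10000 + 424429 / 10000 * (ρ + 3043 / 1000)⁻¹ -
        606 / 5 * (ρ + 3043 / 1000)⁻¹ ^ (2 : ℕ)) - 628319 / 100000 *
        (2043 / 1000 / ρ - (2043 / 1000 / ρ) ^ (2 : ℕ) / 2 + (2043 / 1000 / ρ) ^ (3 : ℕ) / 3)) -
        137 / 50 * (ρ + 3043 / 1000)⁻¹ := by
  obtain ⟨u, rfl⟩ : ∃ u, ρ = 69 / 10 + u := ⟨ρ - 69 / 10, by ring⟩
  have hu : 0 ≤ u := by linarith
  rw [← sub_nonneg]
  have e : ((10132 / 10000 * ((69 / 10 + u) + 1 / (69 / 10 + u))) * (((69 / 10 + u) + 3043 / 1000)⁻¹ * (194166 / 10000 + 424429 / 10000 * ((69 / 10 + u) + 3043 / 1000)⁻¹ -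
        606 / 5 * ((69 / 10 + u) + 3043 / 1000)⁻¹ ^ (2 : ℕ)) - 628319 / 100000 *
        (2043 / 1000 / (69 / 10 + u) - (2043 / 1000 / (69 / 10 + u)) ^ (2 : ℕ) / 2 + (2043 / 1000 / (69 / 10 + u)) ^ (3 : ℕ) / 3)) -
        137 / 50 * ((69 / 10 + u) + 3043 / 1000)⁻¹) -
      761 / 200 =
      (
      19009539965625626102730053030610849 / 25000000000000000000000000000 +
      496931915067923825875254006176499 / 312500000000000000000000000 * u +
      234432975948535331764755537715209 / 250000000000000000000000000 * u ^ (2 : ℕ) +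
      131517508620041482695029193839 / 500000000000000000000000 * u ^ (3 : ℕ) +
      20240646902090858402761873 / 500000000000000000000 * u ^ (4 : ℕ) + 1748956359190265686807 /
      500000000000000000 * u ^ (5 : ℕ) + 15804016335246357 / 100000000000000 * u ^ (6 : ℕ) + 715474848839 /
      250000000000 * u ^ (7 : ℕ)) /
      (((69 / 10 + u) + 3043 / 1000) ^ (3 : ℕ) * (69 / 10 + u) ^ (4 : ℕ)) := by
    field_simp
    ring
  rw [e]
  positivity

theorem ev_bn2 {ρ : ℝ} (h : 97 / 20 ≤ ρ) (h2 : ρ ≤ 7) :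
    761 / 200 ≤
      (499 / 10 / ρ) * ((ρ + 3043 / 1000)⁻¹ * (194166 / 10000 + 424429 / 10000 * (ρ + 3043 / 1000)⁻¹ -
        606 / 5 * (ρ + 3043 / 1000)⁻¹ ^ (2 : ℕ)) - 628319 / 100000 *
        (2043 / 1000 / ρ - (2043 / 1000 / ρ) ^ (2 : ℕ) / 2 + (2043 / 1000 / ρ) ^ (3 : ℕ) / 3)) -
        137 / 50 * (ρ + 3043 / 1000)⁻¹ := by
  have p : 0 ≤ ρ - 97 / 20 := by linarith
  have q : 0 ≤ 7 - ρ := by linarith
  have hv : 0 < ρ := by linarith
  rw [← sub_nonneg]
  have e : ((499 / 10 / ρ) * ((ρ + 3043 / 1000)⁻¹ * (194166 / 10000 + 424429 / 10000 * (ρ + 3043 / 1000)⁻¹ -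
        606 / 5 * (ρ + 3043 / 1000)⁻¹ ^ (2 : ℕ)) - 628319 / 100000 *
        (2043 / 1000 / ρ - (2043 / 1000 / ρ) ^ (2 : ℕ) / 2 + (2043 / 1000 / ρ) ^ (3 : ℕ) / 3)) -
        137 / 50 * (ρ + 3043 / 1000)⁻¹) -
      761 / 200 =
      (
      171735902867341017252498987213 / 53089572481835937500000000 * (7 - ρ) ^ (7 : ℕ) +
      5941224818682404828578296230239 / 212358289927343750000000000 * (ρ - 97 / 20) * (7 - ρ) ^
      6 + 2671376042335921831425537663349 / 26544786240917968750000000 * (ρ - 97 / 20) ^ (2 : ℕ) * (7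
      - ρ) ^ (5 : ℕ) + 8232847276954537013282761095539 / 42471657985468750000000000 * (ρ - 97 / 20) ^
      3 * (7 - ρ) ^ (4 : ℕ) + 2264266435498587616214130168141 / 10617914496367187500000000 * (ρ - 97
      / 20) ^ (4 : ℕ) * (7 - ρ) ^ (3 : ℕ) + 27761109558788563599795336762517 / 212358289927343750000000000
      * (ρ - 97 / 20) ^ (5 : ℕ) * (7 - ρ) ^ (2 : ℕ) + 259075614867106164632172173527 /
      6636196560229492187500000 * (ρ - 97 / 20) ^ (6 : ℕ) * (7 - ρ) + 766321550339061275170221700877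
      / 212358289927343750000000000 * (ρ - 97 / 20) ^ (7 : ℕ)) /
      ((ρ + 3043 / 1000) ^ (3 : ℕ) * ρ ^ (4 : ℕ)) := by
    field_simp
    ring
  rw [e]
  positivity

theorem ev_bp1 {x : ℝ} (h : 112 / 25 ≤ x) (h2 : x ≤ 36 / 5) :
    949 / 250 ≤
      (711 / 100) * ((1 + x)⁻¹ * (194166 / 10000 - 124127 / 10000 * (1 + x)⁻¹ -
        363 / 10 * (1 + x)⁻¹ ^ (2 : ℕ) - 11845 / 1000 * (1 + x)⁻¹ ^ (3 : ℕ)) - 628319 / 100000 *
        (2043 / 1000 / x - (2043 / 1000 / x) ^ (2 : ℕ) / 2 + (2043 / 1000 / x) ^ (3 : ℕ) / 3)) +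
        137 / 50 * (1 + x)⁻¹ := by
  have p : 0 ≤ x - 112 / 25 := by linarith
  have q : 0 ≤ 36 / 5 - x := by linarith
  have hv : 0 < x := by linarith
  rw [← sub_nonneg]
  have e : ((711 / 100) * ((1 + x)⁻¹ * (194166 / 10000 - 124127 / 10000 * (1 + x)⁻¹ -
        363 / 10 * (1 + x)⁻¹ ^ (2 : ℕ) - 11845 / 1000 * (1 + x)⁻¹ ^ (3 : ℕ)) - 628319 / 100000 *
        (2043 / 1000 / x - (2043 / 1000 / x) ^ (2 : ℕ) / 2 + (2043 / 1000 / x) ^ (3 : ℕ) / 3)) +
        137 / 50 * (1 + x)⁻¹) -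
      949 / 250 =
      (
      49438685523970011594697159 / 4302712843796480000000000 * (36 / 5 - x) ^ (7 : ℕ) +
      1163488487541444245350848177 / 4302712843796480000000000 * (x - 112 / 25) * (36 / 5 - x)
      ^ (6 : ℕ) + 7413347707756921449095678067 / 4302712843796480000000000 * (x - 112 / 25) ^ (2 : ℕ) * (36
      / 5 - x) ^ (5 : ℕ) + 22104097801642282454524967189 / 4302712843796480000000000 * (x - 112 / 25)
      ^ (3 : ℕ) * (36 / 5 - x) ^ (4 : ℕ) + 7119477659352046017031616433 / 860542568759296000000000 * (x -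
      112 / 25) ^ (4 : ℕ) * (36 / 5 - x) ^ (3 : ℕ) + 1260650610988900434653289291 /
      172108513751859200000000 * (x - 112 / 25) ^ (5 : ℕ) * (36 / 5 - x) ^ (2 : ℕ) +
      112727114854445770776961317 / 34421702750371840000000 * (x - 112 / 25) ^ (6 : ℕ) * (36 / 5 - x)
      + 3761407015976886221888919 / 6884340550074368000000 * (x - 112 / 25) ^ (7 : ℕ)) /
      ((1 + x) ^ (4 : ℕ) * x ^ (3 : ℕ)) := by
    field_simp
    ring
  rw [e]
  positivity

theorem ev_bp2 {x : ℝ} (h : 13 / 2 ≤ x) :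
    949 / 250 ≤
      (10132 / 10000 * x) * ((1 + x)⁻¹ * (194166 / 10000 - 124127 / 10000 * (1 + x)⁻¹ -
        363 / 10 * (1 + x)⁻¹ ^ (2 : ℕ) - 11845 / 1000 * (1 + x)⁻¹ ^ (3 : ℕ)) - 628319 / 100000 *
        (2043 / 1000 / x - (2043 / 1000 / x) ^ (2 : ℕ) / 2 + (2043 / 1000 / x) ^ (3 : ℕ) / 3)) +
        137 / 50 * (1 + x)⁻¹ := by
  obtain ⟨u, rfl⟩ : ∃ u, x = 13 / 2 + u := ⟨x - 13 / 2, by ring⟩
  have hu : 0 ≤ u := by linarith
  rw [← sub_nonneg]
  have e : ((10132 / 10000 * (13 / 2 + u)) * ((1 + (13 / 2 + u))⁻¹ * (194166 / 10000 - 124127 / 10000 * (1 + (13 / 2 + u))⁻¹ -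
        363 / 10 * (1 + (13 / 2 + u))⁻¹ ^ (2 : ℕ) - 11845 / 1000 * (1 + (13 / 2 + u))⁻¹ ^ (3 : ℕ)) - 628319 / 100000 *
        (2043 / 1000 / (13 / 2 + u) - (2043 / 1000 / (13 / 2 + u)) ^ (2 : ℕ) / 2 + (2043 / 1000 / (13 / 2 + u)) ^ (3 : ℕ) / 3)) +
        137 / 50 * (1 + (13 / 2 + u))⁻¹) -
      949 / 250 =
      (
      2048970881249902286911 / 12800000000000000 + 17084950781370799757033 / 32000000000000000
      * u + 7629880824875749781501 / 20000000000000000 * u ^ (2 : ℕ) + 12529023483872919033581 /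
      100000000000000000 * u ^ (3 : ℕ) + 11266192857217259201151 / 500000000000000000 * u ^ (4 : ℕ) +
      575469705721876624937 / 250000000000000000 * u ^ (5 : ℕ) + 62942851014422923 / 500000000000000
      * u ^ (6 : ℕ) + 717724848839 / 250000000000 * u ^ (7 : ℕ)) /
      ((1 + (13 / 2 + u)) ^ (4 : ℕ) * (13 / 2 + u) ^ (3 : ℕ)) := by
    field_simp
    ring
  rw [e]
  positivity

end SokamV3

end
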