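import Pool.Agent.Lib_MP_af4de1_zy.Z01

/-! ### Lib_MP_af4de1_f1.PolBox -/

section
/-!
# Polynomials in two variables, non negative on a box: kernel certificate

`E` is a syntax for polynomials with rational coefficients in `X`, `Y`; `bisE` subdivides the box
`α ≤ γ X < β`, `α' ≤ γ' Y < β'` and checks that all coefficients after the substitution
`X = (α + β x)/(γ (1 + x))`, `Y = (α' + β' y)/(γ' (1 + y))` are non negative.
-/

set_option autoImplicit false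

namespace SokamPB

/-! ### One variable -/

def addP : List ℤ → List ℤ → List ℤ
  | [], l => l
  | a :: l, [] => a :: l
  | a :: l, b :: m => (a + b) :: addP l m

def smulP (c : ℤ) : List ℤ → List ℤ
  | [] => []
  | a :: l => (c * a) :: smulP c l

def mulP : List ℤ → List ℤ → List ℤ
  | [], _ => []
  | a :: l, m => addP (smulP a m) (0 :: mulP l m)

noncomputable def evP : List ℤ → ℝ → ℝ
  | [], _ => 0
  | a :: l, x => a + x * evP l x

theorem evP_addP (l m : List ℤ) (x : ℝ) : evP (addP l m) x = evP l x + evP m x := by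
  induction l generalizing m with
  | nil => simp [addP, evP]
  | cons a l ih =>
    cases m with
    | nil => simp [addP, evP]
    | cons b m =>
      simp only [addP, evP, ih]
      push_cast
      ring

theorem evP_smulP (c : ℤ) (l : List ℤ) (x : ℝ) : evP (smulP c l) x = c * evP l x := by
  induction l with
  | nil => simp [smulP, evP]
  | cons a l ih =>
    simp only [smulP, evP, ih]
    push_cast
    ring

theorem evP_mulP (l m : List ℤ) (x : ℝ) : evP (mulP l m) x = evP l x * evP m x := by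
  induction l with
  | nil => simp [mulP, evP]
  | cons a l ih =>
    simp only [mulP, evP_addP, evP_smulP, evP, ih]
    push_cast
    ring

/-! ### Two variables -/

def addQ : List (List ℤ) → List (List ℤ) → List (List ℤ)
  | [], l => l
  | a :: l, [] => a :: l
  | a :: l, b :: m => addP a b :: addQ l m

def smulQ (c : List ℤ) : List (List ℤ) → List (List ℤ)
  | [] => []
  | a :: l => mulP c a :: smulQ c l

def mulQ : List (List ℤ) → List (List ℤ) → List (List ℤ)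
  | [], _ => []
  | a :: l, m => addQ (smulQ a m) ([] :: mulQ l m)

noncomputable def evQ : List (List ℤ) → ℝ → ℝ → ℝ
  | [], _, _ => 0
  | a :: l, x, y => evP a y + x * evQ l x y

theorem evQ_addQ (l m : List (List ℤ)) (x y : ℝ) :
    evQ (addQ l m) x y = evQ l x y + evQ m x y := by
  induction l generalizing m with
  | nil => simp [addQ, evQ]
  | cons a l ih =>
    cases m with
    | nil => simp [addQ, evQ]
    | cons b m =>
      simp only [addQ, evQ, ih, evP_addP]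
      ring

theorem evQ_smulQ (c : List ℤ) (l : List (List ℤ)) (x y : ℝ) :
    evQ (smulQ c l) x y = evP c y * evQ l x y := by
  induction l with
  | nil => simp [smulQ, evQ]
  | cons a l ih =>
    simp only [smulQ, evQ, ih, evP_mulP]
    ring

theorem evQ_mulQ (l m : List (List ℤ)) (x y : ℝ) :
    evQ (mulQ l m) x y = evQ l x y * evQ m x y := by
  induction l with
  | nil => simp [mulQ, evQ]
  | cons a l ih =>
    simp only [mulQ, evQ_addQ, evQ_smulQ, evQ, ih, evP]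
    ring

def powQ (l : List (List ℤ)) : ℕ → List (List ℤ)
  | 0 => [[1]]
  | n + 1 => mulQ l (powQ l n)

theorem evQ_powQ (l : List (List ℤ)) (n : ℕ) (x y : ℝ) : evQ (powQ l n) x y = evQ l x y ^ n := by
  induction n with
  | zero => simp [powQ, evQ, evP]
  | succ n ih => rw [powQ, evQ_mulQ, ih, pow_succ']

/-! ### Syntax -/

inductive E
  | X : E
  | Y : E
  | c : ℤ → E
  | add : E → E → E
  | sub : E → E → E
  | mul : E → E → E
  | pow : E → ℕ → E
  | dv : E → ℕ → E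

noncomputable def E.eval : E → ℝ → ℝ → ℝ
  | .X, x, _ => x
  | .Y, _, y => y
  | .c n, _, _ => (n : ℝ)
  | .add a b, x, y => a.eval x y + b.eval x y
  | .sub a b, x, y => a.eval x y - b.eval x y
  | .mul a b, x, y => a.eval x y * b.eval x y
  | .pow a n, x, y => a.eval x y ^ n
  | .dv a n, x, y => a.eval x y / (n : ℝ)

/-- denominator and polynomial -/
def E.toQ : E → ℕ × List (List ℤ)
  | .X => (1, [[], [1]])
  | .Y => (1, [[0, 1]])
  | .c n => (1, [[n]])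
  | .add a b => (a.toQ.1 * b.toQ.1,
      addQ (smulQ [(b.toQ.1 : ℤ)] a.toQ.2) (smulQ [(a.toQ.1 : ℤ)] b.toQ.2))
  | .sub a b => (a.toQ.1 * b.toQ.1,
      addQ (smulQ [(b.toQ.1 : ℤ)] a.toQ.2) (smulQ [-(a.toQ.1 : ℤ)] b.toQ.2))
  | .mul a b => (a.toQ.1 * b.toQ.1, mulQ a.toQ.2 b.toQ.2)
  | .pow a n => (a.toQ.1 ^ n, powQ a.toQ.2 n)
  | .dv a n => (a.toQ.1 * n, a.toQ.2)

theorem E.toQ_spec (e : E) (h : e.toQ.1 ≠ 0) (x y : ℝ) :
    evQ e.toQ.2 x y = e.toQ.1 * e.eval x y := by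
  induction e with
  | X => simp [E.toQ, E.eval, evQ, evP]
  | Y => simp [E.toQ, E.eval, evQ, evP]
  | c n => simp [E.toQ, E.eval, evQ, evP]
  | add a b iha ihb =>
    simp only [E.toQ] at h ⊢
    rw [evQ_addQ, evQ_smulQ, evQ_smulQ, iha (left_ne_zero_of_mul h), ihb (right_ne_zero_of_mul h)]
    simp only [evP, E.eval]
    push_cast
    ring
  | sub a b iha ihb =>
    simp only [E.toQ] at h ⊢
    rw [evQ_addQ, evQ_smulQ, evQ_smulQ, iha (left_ne_zero_of_mul h), ihb (right_ne_zero_of_mul h)]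
    simp only [evP, E.eval]
    push_cast
    ring
  | mul a b iha ihb =>
    simp only [E.toQ] at h ⊢
    rw [evQ_mulQ, iha (left_ne_zero_of_mul h), ihb (right_ne_zero_of_mul h)]
    simp only [E.eval]
    push_cast
    ring
  | pow a n ih =>
    simp only [E.toQ] at h ⊢
    rw [evQ_powQ]
    simp only [E.eval]
    rcases Nat.eq_zero_or_pos n with hn | hn
    · subst hn
      simp
    · rw [ih (fun h0 => h (by rw [h0, Nat.zero_pow hn]))]
      push_cast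
      ring
  | dv a n ih =>
    simp only [E.toQ] at h ⊢
    rw [ih (left_ne_zero_of_mul h)]
    simp only [E.eval]
    have : (n : ℝ) ≠ 0 := Nat.cast_ne_zero.2 (right_ne_zero_of_mul h)
    push_cast
    field_simp

/-! ### Substitution -/

/-- `(γ (1 + x))ⁿ` -/
def pwP (γ : ℤ) : ℕ → List ℤ
  | 0 => [1]
  | n + 1 => mulP [γ, γ] (pwP γ n)

theorem evP_pwP (γ : ℤ) (n : ℕ) (x : ℝ) : evP (pwP γ n) x = (γ * (1 + x)) ^ n := by
  induction n with
  | zero => simp [pwP, evP]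
  | succ n ih =>
    rw [pwP, evP_mulP, ih, pow_succ']
    simp only [evP]
    ring

def subP (α β γ : ℤ) : ℕ → List ℤ → List ℤ
  | 0, _ => []
  | _ + 1, [] => []
  | n + 1, a :: l => addP (smulP a (pwP γ (n + 1))) (mulP [α, β] (subP α β γ n l))

theorem evP_subP {α β γ : ℤ} {X x : ℝ} (h : X * (γ * (1 + x)) = α + β * x) (n : ℕ) (l : List ℤ)
    (hl : l.length ≤ n) : evP (subP α β γ n l) x = (γ * (1 + x)) ^ n * evP l X := by
  induction n generalizing l with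
  | zero =>
    have : l = [] := List.length_eq_zero_iff.1 (by omega)
    subst this
    simp [subP, evP]
  | succ n ih =>
    cases l with
    | nil => simp [subP, evP]
    | cons a l =>
      simp only [subP, evP_addP, evP_smulP, evP_pwP, evP_mulP, evP]
      rw [ih l (by simpa using hl)]
      have e : (α : ℝ) + x * (β + x * 0) = X * (γ * (1 + x)) := by rw [h]; ring
      rw [e]
      ring

def tenQ (l : List ℤ) (a : List ℤ) : List (List ℤ) :=
  match l with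
  | [] => []
  | c :: l => smulP c a :: tenQ l a

theorem evQ_tenQ (l a : List ℤ) (x y : ℝ) : evQ (tenQ l a) x y = evP l x * evP a y := by
  induction l with
  | nil => simp [tenQ, evQ, evP]
  | cons c l ih =>
    simp only [tenQ, evQ, evP, ih, evP_smulP]
    ring

def subQ (α β γ : ℤ) : ℕ → List (List ℤ) → List (List ℤ)
  | 0, _ => []
  | _ + 1, [] => []
  | n + 1, a :: l => addQ (tenQ (pwP γ (n + 1)) a) (mulQ [[α], [β]] (subQ α β γ n l))

theorem evQ_subQ {α β γ : ℤ} {X x y : ℝ} (h : X * (γ * (1 + x)) = α + β * x) (n : ℕ)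
    (l : List (List ℤ)) (hl : l.length ≤ n) :
    evQ (subQ α β γ n l) x y = (γ * (1 + x)) ^ n * evQ l X y := by
  induction n generalizing l with
  | zero =>
    have : l = [] := List.length_eq_zero_iff.1 (by omega)
    subst this
    simp [subQ, evQ]
  | succ n ih =>
    cases l with
    | nil => simp [subQ, evQ]
    | cons a l =>
      simp only [subQ, evQ_addQ, evQ_tenQ, evP_pwP, evQ_mulQ, evQ, evP]
      rw [ih l (by simpa using hl)]
      have e : (α : ℝ) + y * 0 + x * (β + y * 0 + x * 0) = X * (γ * (1 + x)) := by rw [h]; ring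
      rw [e]
      ring

def rowQ (α β γ : ℤ) (m : ℕ) : List (List ℤ) → List (List ℤ)
  | [] => []
  | a :: l => subP α β γ m a :: rowQ α β γ m l

def lenB (m : ℕ) : List (List ℤ) → Bool
  | [] => true
  | a :: l => Nat.ble a.length m && lenB m l

theorem evQ_rowQ {α β γ : ℤ} {Y y : ℝ} (h : Y * (γ * (1 + y)) = α + β * y) (m : ℕ) (x : ℝ)
    (l : List (List ℤ)) (hl : lenB m l = true) :
    evQ (rowQ α β γ m l) x y = (γ * (1 + y)) ^ m * evQ l x Y := by
  induction l with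
  | nil => simp [rowQ, evQ]
  | cons a l ih =>
    simp only [lenB, Bool.and_eq_true] at hl
    simp only [rowQ, evQ]
    rw [ih hl.2, evP_subP h m a (Nat.le_of_ble_eq_true hl.1)]
    ring

def nnP : List ℤ → Bool
  | [] => true
  | Int.ofNat _ :: l => nnP l
  | Int.negSucc _ :: _ => false

def nnQ : List (List ℤ) → Bool
  | [] => true
  | a :: l => nnP a && nnQ l

theorem nnP_spec {l : List ℤ} (h : nnP l = true) {x : ℝ} (hx : 0 ≤ x) : 0 ≤ evP l x := by
  induction l with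
  | nil => simp [evP]
  | cons a l ih =>
    cases a with
    | ofNat n =>
      simp only [nnP] at h
      have h1 := ih h
      simp only [evP]
      have h2 : (0 : ℝ) ≤ ((Int.ofNat n : ℤ) : ℝ) := by simp
      positivity
    | negSucc n => simp [nnP] at h

theorem nnQ_spec {l : List (List ℤ)} (h : nnQ l = true) {x y : ℝ} (hx : 0 ≤ x) (hy : 0 ≤ y) :
    0 ≤ evQ l x y := by
  induction l with
  | nil => simp [evQ]
  | cons a l ih =>
    simp only [nnQ, Bool.and_eq_true] at h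
    simp only [evQ]
    have h1 := ih h.2
    have h2 := nnP_spec h.1 hy
    positivity

/-! ### The box -/

/-- `n`, `m` bounds for the lengths; `q` the polynomial -/
def okB (n m : ℕ) (q : List (List ℤ)) (α β γ α' β' γ' : ℤ) : Bool :=
  nnQ (subQ α β γ n (rowQ α' β' γ' m q))

theorem length_rowQ (α β γ : ℤ) (m : ℕ) (l : List (List ℤ)) :
    (rowQ α β γ m l).length = l.length := by
  induction l with
  | nil => rfl
  | cons a l ih => simp [rowQ, ih]

theorem okB_spec {n m : ℕ} {q : List (List ℤ)} {α β γ α' β' γ' : ℤ} (hn : q.length ≤ n)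
    (hm : lenB m q = true) (hγ : 0 < γ) (hγ' : 0 < γ') (h : okB n m q α β γ α' β' γ' = true)
    {X Y : ℝ} (h1 : (α : ℝ) ≤ γ * X) (h2 : γ * X < β) (h3 : (α' : ℝ) ≤ γ' * Y)
    (h4 : γ' * Y < β') : 0 ≤ evQ q X Y := by
  have g1 : (0 : ℝ) < γ := by exact_mod_cast hγ
  have g2 : (0 : ℝ) < γ' := by exact_mod_cast hγ'
  obtain ⟨x, hx⟩ : ∃ x, x = (γ * X - α) / (β - γ * X) := ⟨_, rfl⟩
  obtain ⟨y, hy⟩ : ∃ y, y = (γ' * Y - α') / (β' - γ' * Y) := ⟨_, rfl⟩
  have d1 : 0 < (β : ℝ) - γ * X := by linarith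
  have d2 : 0 < (β' : ℝ) - γ' * Y := by linarith
  have hx0 : 0 ≤ x := by rw [hx]; exact div_nonneg (by linarith) d1.le
  have hy0 : 0 ≤ y := by rw [hy]; exact div_nonneg (by linarith) d2.le
  have hx' : x * (β - γ * X) = γ * X - α := by rw [hx, div_mul_cancel₀ _ d1.ne']
  have hy' : y * (β' - γ' * Y) = γ' * Y - α' := by rw [hy, div_mul_cancel₀ _ d2.ne']
  have ex : X * (γ * (1 + x)) = α + β * x := by linear_combination -hx'
  have ey : Y * (γ' * (1 + y)) = α' + β' * y := by linear_combination -hy'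
  have k1 := nnQ_spec h hx0 hy0
  rw [evQ_subQ ex n _ (by rw [length_rowQ]; exact hn), evQ_rowQ ey m _ _ hm] at k1
  have p1 : (0 : ℝ) < (γ * (1 + x)) ^ n := by positivity
  have p2 : (0 : ℝ) < (γ' * (1 + y)) ^ m := by positivity
  exact nonneg_of_mul_nonneg_right (nonneg_of_mul_nonneg_right k1 p1) p2

/-- bisection, alternating -/
def bisB (n m : ℕ) (q : List (List ℤ)) : ℕ → ℤ → ℤ → ℤ → ℤ → ℤ → ℤ → Bool
  | 0, α, β, γ, α', β', γ' => okB n m q α β γ α' β' γ'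
  | k + 1, α, β, γ, α', β', γ' => okB n m q α β γ α' β' γ' ||
      -- split the side which is longer: `(β - α)/γ` or `(β' - α')/γ'`
      if (β' - α') * γ ≤ (β - α) * γ' then
        bisB n m q k (2 * α) (α + β) (2 * γ) α' β' γ' &&
        bisB n m q k (α + β) (2 * β) (2 * γ) α' β' γ'
      else
        bisB n m q k α β γ (2 * α') (α' + β') (2 * γ') &&
        bisB n m q k α β γ (α' + β') (2 * β') (2 * γ')

theorem bisB_spec {n m : ℕ} {q : List (List ℤ)} (hn : q.length ≤ n) (hm : lenB m q = true) (k : ℕ) :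
    ∀ {α β γ α' β' γ' : ℤ}, 0 < γ → 0 < γ' → bisB n m q k α β γ α' β' γ' = true →
    ∀ {X Y : ℝ}, (α : ℝ) ≤ γ * X → γ * X < β → (α' : ℝ) ≤ γ' * Y → γ' * Y < β' →
      0 ≤ evQ q X Y := by
  induction k with
  | zero =>
    intro α β γ α' β' γ' h0 h0' h X Y h1 h2 h3 h4
    exact okB_spec hn hm h0 h0' h h1 h2 h3 h4
  | succ k ih =>
    intro α β γ α' β' γ' h0 h0' h X Y h1 h2 h3 h4
    rw [bisB, Bool.or_eq_true] at h
    rcases h with h | h
    · exact okB_spec hn hm h0 h0' h h1 h2 h3 h4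
    · split_ifs at h
      · rw [Bool.and_eq_true] at h
        rcases lt_or_ge ((2 * γ : ℤ) * X) ((α + β : ℤ) : ℝ) with hc | hc
        · refine ih (by omega) h0' h.1 ?_ hc h3 h4
          push_cast
          linarith
        · refine ih (by omega) h0' h.2 hc ?_ h3 h4
          push_cast
          linarith
      · rw [Bool.and_eq_true] at h
        rcases lt_or_ge ((2 * γ' : ℤ) * Y) ((α' + β' : ℤ) : ℝ) with hc | hc
        · refine ih h0 (by omega) h.1 h1 h2 ?_ hc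
          push_cast
          linarith
        · refine ih h0 (by omega) h.2 h1 h2 hc ?_
          push_cast
          linarith

def maxL : List (List ℤ) → ℕ
  | [] => 0
  | a :: l => max a.length (maxL l)

theorem lenB_maxL (l : List (List ℤ)) (m : ℕ) (h : maxL l ≤ m) : lenB m l = true := by
  induction l with
  | nil => rfl
  | cons a l ih =>
    simp only [maxL] at h
    simp only [lenB, Bool.and_eq_true]
    exact ⟨Nat.ble_eq_true_of_le (le_trans (le_max_left _ _) h), ih (le_trans (le_max_right _ _) h)⟩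

/-- run on a polynomial `q` with denominator `d` -/
def runQ (dq : ℕ × List (List ℤ)) (k : ℕ) (α β γ α' β' γ' : ℤ) : Bool :=
  Nat.blt 0 dq.1 && bisB dq.2.length (maxL dq.2) dq.2 k α β γ α' β' γ'

theorem E.nonneg (e : E) (k : ℕ) {α β γ α' β' γ' : ℤ} (hγ : 0 < γ) (hγ' : 0 < γ')
    (h : runQ e.toQ k α β γ α' β' γ' = true) {X Y : ℝ} (h1 : (α : ℝ) ≤ γ * X) (h2 : γ * X < β)
    (h3 : (α' : ℝ) ≤ γ' * Y) (h4 : γ' * Y < β') : 0 ≤ e.eval X Y := by
  rw [runQ, Bool.and_eq_true] at h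
  have hd : 0 < e.toQ.1 := by
    have := h.1
    exact Nat.le_of_ble_eq_true this
  have k1 := bisB_spec le_rfl (lenB_maxL _ _ le_rfl) k hγ hγ' h.2 h1 h2 h3 h4
  rw [e.toQ_spec hd.ne'] at k1
  have hd' : (0 : ℝ) < e.toQ.1 := by exact_mod_cast hd
  exact nonneg_of_mul_nonneg_right k1 hd'

end SokamPB

end

/-! ### Lib_MP_af4de1_f1.PtcCert -/

section
namespace SokamPB
end SokamPB
/-!
# Certificate for the lump on the right half line, `0 ≤ y`
-/

set_option autoImplicit false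

namespace SokamF1B
open SokamPB

/-- The polynomial: `K (1+t²)⁴ (3+t²)` times (Lagrangian - loss - 69/200), `t = tan (ψ/2)`. -/
noncomputable def ptcP (K t : ℝ) : ℝ :=
  K * (1895 / 1000 * ((1 + t ^ (2 : ℕ)) ^ (4 : ℕ) * (3 + t ^ (2 : ℕ)))) + K * (18 / 5 * t * (1 + t ^ (2 : ℕ)) ^ (4 : ℕ)) +
  K ^ (2 : ℕ) * (12 * t ^ (2 : ℕ) * (1 + t ^ (2 : ℕ)) ^ (3 : ℕ)) -
  K ^ (2 : ℕ) * (4 * (31416 / 10000) * t * (1 + t ^ (2 : ℕ)) ^ (3 : ℕ) * (3 + t ^ (2 : ℕ))) +
  K ^ (2 : ℕ) * (2 / 5 * (1 - t ^ (2 : ℕ)) * (1 + t ^ (2 : ℕ)) ^ (3 : ℕ) * (3 + t ^ (2 : ℕ))) -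
  K ^ (2 : ℕ) * (27183 / 10000 * ((1 + t ^ (2 : ℕ)) ^ (4 : ℕ) * (3 + t ^ (2 : ℕ)))) +
  2 * K ^ (2 : ℕ) * (((1 + t ^ (2 : ℕ)) ^ (4 : ℕ) + 2 * K * t * (1 + t ^ (2 : ℕ)) ^ (3 : ℕ) +
    (2 * K * t) ^ (2 : ℕ) * (1 + t ^ (2 : ℕ)) ^ (2 : ℕ) / 2 + (2 * K * t) ^ (3 : ℕ) * (1 + t ^ (2 : ℕ)) / 6 +
    (2 * K * t) ^ (4 : ℕ) / 24) * (3 + t ^ (2 : ℕ))) -
  59 / 250 * ((1 + t ^ (2 : ℕ) - 2 * K * t) ^ (2 : ℕ) * (1 + t ^ (2 : ℕ)) ^ (2 : ℕ) * (3 + t ^ (2 : ℕ)))

private def w1 : E := .add (.c 1) (.pow .Y 2)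
private def w3 : E := .add (.c 3) (.pow .Y 2)
private def q (a : ℤ) (b : ℕ) : E := .dv (.c a) b
private def kt : E := .mul (.mul (.c 2) .X) .Y

private def ptcE : E :=
  .sub (.add (.sub (.add (.sub (.add (.add (.mul .X (.mul (q 1895 1000) (.mul (.pow w1 4) w3)))
    (.mul .X (.mul (.mul (q 18 5) .Y) (.pow w1 4))))
    (.mul (.pow .X 2) (.mul (.mul (.c 12) (.pow .Y 2)) (.pow w1 3))))
    (.mul (.pow .X 2) (.mul (.mul (.mul (.mul (.c 4) (q 31416 10000)) .Y) (.pow w1 3)) w3)))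
    (.mul (.pow .X 2) (.mul (.mul (.mul (q 2 5) (.sub (.c 1) (.pow .Y 2))) (.pow w1 3)) w3)))
    (.mul (.pow .X 2) (.mul (q 27183 10000) (.mul (.pow w1 4) w3))))
    (.mul (.mul (.c 2) (.pow .X 2)) (.mul (.add (.add (.add (.add (.pow w1 4)
      (.mul kt (.pow w1 3))) (.dv (.mul (.pow kt 2) (.pow w1 2)) 2))
      (.dv (.mul (.pow kt 3) w1) 6)) (.dv (.pow kt 4) 24)) w3)))
    (.mul (q 59 250) (.mul (.mul (.pow (.sub w1 kt) 2) (.pow w1 2)) w3))

private theorem ptcE_eval (K t : ℝ) : ptcE.eval K t = ptcP K t := by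
  unfold ptcP ptcE w1 w3 q kt
  simp only [E.eval]
  push_cast
  rfl

private theorem ptcE_run : runQ ptcE.toQ 6 30 176 100 0 101 100 = true := by decide +kernel

theorem ptcP_nonneg {K t : ℝ} (h1 : 3 / 10 ≤ K) (h2 : K ≤ 7 / 4) (h3 : 0 ≤ t) (h4 : t ≤ 1) :
    0 ≤ ptcP K t := by
  rw [← ptcE_eval]
  refine ptcE.nonneg 6 (by norm_num) (by norm_num) ptcE_run ?_ ?_ ?_ ?_ <;> push_cast <;> linarith

end SokamF1B

end

/-! ### Lib_MP_af4de1_f1.PtcA -/

section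
/-!
# The lump on the right half line, `0 ≤ y`: the main inequality
-/

set_option autoImplicit false

namespace SokamF1B

open Real

theorem ptc_arctan {t : ℝ} (ht : 0 ≤ t) : 3 * t / (3 + t ^ (2 : ℕ)) ≤ arctan t := by
  have hm : MonotoneOn (fun u : ℝ => arctan u - 3 * u / (3 + u ^ (2 : ℕ))) (Set.Ici 0) := by
    have hd : ∀ u : ℝ, HasDerivAt (fun u : ℝ => arctan u - 3 * u / (3 + u ^ (2 : ℕ)))
        (1 / (1 + u ^ (2 : ℕ)) - (3 * (3 + u ^ (2 : ℕ)) - 3 * u * (2 * u)) / (3 + u ^ (2 : ℕ)) ^ (2 : ℕ)) u := by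
      intro u
      have h1 := hasDerivAt_arctan u
      have h2 : HasDerivAt (fun u : ℝ => 3 * u) 3 u := by
        simpa using (hasDerivAt_id u).const_mul (3 : ℝ)
      have h3 : HasDerivAt (fun u : ℝ => 3 + u ^ (2 : ℕ)) (2 * u) u := by
        simpa using (hasDerivAt_pow 2 u).const_add (3 : ℝ)
      exact h1.sub (h2.div h3 (by positivity))
    refine monotoneOn_of_deriv_nonneg (convex_Ici 0)
      (fun u _ => (hd u).continuousAt.continuousWithinAt)
      (fun u _ => (hd u).differentiableAt.differentiableWithinAt) fun u _ => ?_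
    rw [(hd u).deriv]
    have e : 1 / (1 + u ^ (2 : ℕ)) - (3 * (3 + u ^ (2 : ℕ)) - 3 * u * (2 * u)) / (3 + u ^ (2 : ℕ)) ^ (2 : ℕ) =
        4 * u ^ (4 : ℕ) / ((1 + u ^ (2 : ℕ)) * (3 + u ^ (2 : ℕ)) ^ (2 : ℕ)) := by
      field_simp
      ring
    rw [e]
    positivity
  have h := hm (Set.mem_Ici.2 le_rfl) (Set.mem_Ici.2 ht) ht
  simp only [arctan_zero, mul_zero, zero_div, sub_zero] at h
  linarith only [h]

/-- half angle parameter -/
theorem ptc_half {ψ : ℝ} (h0 : 0 ≤ ψ) (h1 : ψ ≤ π / 2) :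
    ∃ t, 0 ≤ t ∧ t ≤ 1 ∧ sin ψ = 2 * t / (1 + t ^ (2 : ℕ)) ∧ cos ψ = (1 - t ^ (2 : ℕ)) / (1 + t ^ (2 : ℕ)) ∧
      6 * t / (3 + t ^ (2 : ℕ)) ≤ ψ := by
  have hp := pi_pos
  have hc : 0 < cos (ψ / 2) := cos_pos_of_mem_Ioo ⟨by linarith only [h0, hp], by linarith only [h1, hp]⟩
  have ht0 : 0 ≤ tan (ψ / 2) := tan_nonneg_of_nonneg_of_le_pi_div_two (by linarith only [h0]) (by linarith only [h0, h1])
  have ht1 : tan (ψ / 2) ≤ 1 := by
    rw [← tan_pi_div_four]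
    rcases (show ψ / 2 ≤ π / 4 by linarith only [h1]).eq_or_lt with h | h
    · rw [h]
    · exact (tan_lt_tan_of_nonneg_of_lt_pi_div_two (by linarith only [h0]) (by linarith only [hp]) h).le
  have hcos : cos (ψ / 2) ^ (2 : ℕ) = 1 / (1 + tan (ψ / 2) ^ (2 : ℕ)) := by
    rw [one_div]
    exact (inv_one_add_tan_sq hc.ne').symm
  have hsin : sin (ψ / 2) = tan (ψ / 2) * cos (ψ / 2) := (tan_mul_cos hc.ne').symm
  refine ⟨tan (ψ / 2), ht0, ht1, ?_, ?_, ?_⟩
  · have e : sin ψ = 2 * sin (ψ / 2) * cos (ψ / 2) := by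
      rw [← sin_two_mul]
      congr 1
      ring
    rw [e, hsin]
    calc 2 * (tan (ψ / 2) * cos (ψ / 2)) * cos (ψ / 2) = 2 * tan (ψ / 2) * cos (ψ / 2) ^ (2 : ℕ) := by
          ring
      _ = _ := by rw [hcos]; ring
  · have e : cos ψ = 2 * cos (ψ / 2) ^ (2 : ℕ) - 1 := by
      rw [← cos_two_mul]
      congr 1
      ring
    rw [e, hcos]
    have : 0 < 1 + tan (ψ / 2) ^ (2 : ℕ) := by positivity
    field_simp
    ring
  · have h2 := ptc_arctan ht0
    rw [arctan_tan (by linarith only [h0, hp]) (by linarith only [h1, hp])] at h2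
    have e : 6 * tan (ψ / 2) / (3 + tan (ψ / 2) ^ (2 : ℕ)) =
        2 * (3 * tan (ψ / 2) / (3 + tan (ψ / 2) ^ (2 : ℕ))) := by ring
    rw [e]
    linarith only [h2]

/-- The lump on the right half line. -/
theorem ptc_lumpR {k ψ : ℝ} (hk : 3 / 10 ≤ k) (h0 : 0 ≤ ψ) (h1 : ψ ≤ π / 2)
    (hρ : k * exp (k * sin ψ) ≤ 173 / 100)
    (hη : ψ + k * exp (k * sin ψ) - k * cos ψ ≤ 2 * π / 3) (hy1 : k * sin ψ ≤ 1) :
    69 / 200 + (1 - k * sin ψ) ^ (2 : ℕ) / (4 * (39 / 100 * (exp 1 * k))) ≤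
      (1 - k * sin ψ) * (2 * π - ψ) + 2 * (k * cos ψ) - exp 1 * k := by
  have hk0 : 0 < k := by linarith only [hk]
  have hs0 : 0 ≤ sin ψ := sin_nonneg_of_nonneg_of_le_pi h0 (by linarith only [h0, h1])
  have hy0 : 0 ≤ k * sin ψ := by positivity
  have hk2 : k ≤ 7 / 4 := by
    have h2 : 1 ≤ exp (k * sin ψ) := one_le_exp hy0
    nlinarith only [hρ, h2]
  obtain ⟨t, t0, t1, hs, hc, hψ⟩ := ptc_half h0 h1
  have hP := ptcP_nonneg hk hk2 t0 t1
  have hpl : (31415 / 10000 : ℝ) ≤ π := by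
    have := pi_gt_d4
    norm_num at this ⊢
    linarith only [this]
  have hpu : π ≤ (31416 / 10000 : ℝ) := by
    have := pi_lt_d4
    norm_num at this ⊢
    linarith only [this]
  have hel : (27182 / 10000 : ℝ) ≤ exp 1 := by
    have := exp_one_gt_d9
    norm_num at this ⊢
    linarith only [this]
  have heu : exp 1 ≤ (27183 / 10000 : ℝ) := by
    have := exp_one_lt_d9
    norm_num at this ⊢
    linarith only [this]
  -- exponential
  have hexp : 1 + k * sin ψ + (k * sin ψ) ^ (2 : ℕ) / 2 + (k * sin ψ) ^ (3 : ℕ) / 6 + (k * sin ψ) ^ (4 : ℕ) / 24 ≤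
      exp (k * sin ψ) := by
    have h := sum_le_exp_of_nonneg hy0 5
    simp only [Finset.sum_range_succ, Finset.sum_range_zero, Nat.factorial] at h
    norm_num at h
    linarith only [h]
  set y := k * sin ψ with hy
  -- the polynomial divided by `K (1+t²)⁴ (3+t²)`
  have hA : 0 < 1 + t ^ (2 : ℕ) := by positivity
  have hB : 0 < 3 + t ^ (2 : ℕ) := by positivity
  have eP : ptcP k t = (k * (1895 / 1000 + 3 / 5 * (6 * t / (3 + t ^ (2 : ℕ))) +
      y * (6 * t / (3 + t ^ (2 : ℕ))) - 2 * (31416 / 10000) * y + 2 / 5 * (k * cos ψ) -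
      27183 / 10000 * k + 2 * k * (1 + y + y ^ (2 : ℕ) / 2 + y ^ (3 : ℕ) / 6 + y ^ (4 : ℕ) / 24)) -
      59 / 250 * (1 - y) ^ (2 : ℕ)) * ((1 + t ^ (2 : ℕ)) ^ (4 : ℕ) * (3 + t ^ (2 : ℕ))) := by
    rw [hy, hs, hc]
    unfold ptcP
    field_simp
    ring
  have h2 : 0 ≤ k * (1895 / 1000 + 3 / 5 * (6 * t / (3 + t ^ (2 : ℕ))) +
      y * (6 * t / (3 + t ^ (2 : ℕ))) - 2 * (31416 / 10000) * y + 2 / 5 * (k * cos ψ) -
      27183 / 10000 * k + 2 * k * (1 + y + y ^ (2 : ℕ) / 2 + y ^ (3 : ℕ) / 6 + y ^ (4 : ℕ) / 24)) -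
      59 / 250 * (1 - y) ^ (2 : ℕ) := by
    rw [eP] at hP
    exact nonneg_of_mul_nonneg_left hP (by positivity)
  have h3 : 59 / 250 * (1 - y) ^ (2 : ℕ) / k ≤ 1895 / 1000 + 3 / 5 * (6 * t / (3 + t ^ (2 : ℕ))) +
      y * (6 * t / (3 + t ^ (2 : ℕ))) - 2 * (31416 / 10000) * y + 2 / 5 * (k * cos ψ) -
      27183 / 10000 * k + 2 * k * (1 + y + y ^ (2 : ℕ) / 2 + y ^ (3 : ℕ) / 6 + y ^ (4 : ℕ) / 24) := by
    rw [div_le_iff₀ hk0]
    linarith only [h2]
  have h4 : (1 - y) ^ (2 : ℕ) / (4 * (39 / 100 * (exp 1 * k))) ≤ 59 / 250 * (1 - y) ^ (2 : ℕ) / k := by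
    rw [div_le_div_iff₀ (by positivity) hk0]
    have h5 : 0 ≤ (1 - y) ^ (2 : ℕ) * k := by positivity
    have h6 : 0 ≤ (1 - y) ^ (2 : ℕ) * k * (exp 1 - 27182 / 10000) := mul_nonneg h5 (by linarith only [hel])
    linarith only [h5, h6]
  have h7 := mul_le_mul_of_nonneg_left hψ hy0
  have h8 := mul_le_mul_of_nonneg_right hpu hy0
  have h9 := mul_le_mul_of_nonneg_right heu hk0.le
  have h10 := mul_le_mul_of_nonneg_left hexp hk0.le
  -- the two constraints, with multipliers 2/5 and 8/5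
  linarith only [hψ, hpl, hρ, hη, h3, h4, h7, h8, h9, h10]

end SokamF1B

end

/-! ### Lib_MP_af4de1_ti.L1 -/

section
/-!
# Left saddle: the function `gr u = e^u - 1 - u`
-/

set_option autoImplicit false

namespace SokamTI

open Complex MeasureTheory Set Filter Topology

/-- `e^u - 1 - u` -/
noncomputable def gr (u : ℝ) : ℝ := Real.exp u - 1 - u

theorem gg_real (u : ℝ) : gg (u : ℂ) = (gr u : ℂ) := by
  unfold gg gr
  push_cast
  ring

theorem ht_real (h : ℂ) (u : ℝ) : ht h (u : ℂ) = -h.im * gr u := by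
  unfold ht
  rw [gg_real]
  have e : ((u : ℂ) ^ (2 : ℕ) / 2 - h * (gr u : ℂ)) = ((u ^ (2 : ℕ) / 2 : ℝ) : ℂ) - ((gr u : ℝ) : ℂ) * h := by
    push_cast; ring
  rw [e, Complex.sub_im, Complex.ofReal_im, Complex.im_ofReal_mul]
  ring

theorem gr_nonneg (u : ℝ) : 0 ≤ gr u := by
  unfold gr
  linarith [Real.add_one_le_exp u]

theorem continuous_gr : Continuous gr := by
  unfold gr
  fun_prop

theorem hasDerivAt_gr (u : ℝ) : HasDerivAt gr (Real.exp u - 1) u := by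
  unfold gr
  exact ((Real.hasDerivAt_exp u).sub_const 1).sub (hasDerivAt_id u)

/-- a function with nonnegative derivative on `[0, ∞)` and value `0` at `0` -/
theorem nonneg_of_deriv {f f' : ℝ → ℝ} (h : ∀ x, HasDerivAt f (f' x) x) (h0 : f 0 = 0)
    (hf : ∀ x, 0 ≤ x → 0 ≤ f' x) (x : ℝ) (hx : 0 ≤ x) : 0 ≤ f x := by
  have hm : MonotoneOn f (Ici 0) := by
    apply monotoneOn_of_deriv_nonneg (convex_Ici 0)
      (fun y _ => (h y).continuousAt.continuousWithinAt)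
      (fun y _ => (h y).differentiableAt.differentiableWithinAt)
    intro y hy
    rw [interior_Ici] at hy
    rw [(h y).deriv]
    exact hf y hy.le
  have := hm (mem_Ici.2 (le_refl (0:ℝ))) (mem_Ici.2 hx) hx
  rwa [h0] at this

/-! ### `e^{-t}` -/

theorem hasDerivAt_expneg (t : ℝ) : HasDerivAt (fun t : ℝ => Real.exp (-t)) (-Real.exp (-t)) t := by
  have := (hasDerivAt_neg t).exp
  simpa using this

theorem en1 (t : ℝ) (ht : 0 ≤ t) : 0 ≤ 1 - Real.exp (-t) := by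
  have := Real.exp_le_one_iff.2 (neg_nonpos.2 ht)
  linarith

theorem en2 (t : ℝ) (ht : 0 ≤ t) : 0 ≤ Real.exp (-t) - 1 + t :=
  nonneg_of_deriv (f := fun t => Real.exp (-t) - 1 + t) (f' := fun t => 1 - Real.exp (-t))
    (fun x => by
      have := ((hasDerivAt_expneg x).sub_const 1).add (hasDerivAt_id x)
      rw [show -Real.exp (-x) + 1 = 1 - Real.exp (-x) by ring] at this
      exact this) (by simp) en1 t ht

theorem hasDerivAt_pw (n : ℕ) (c t : ℝ) :
    HasDerivAt (fun t : ℝ => t ^ (n + 1) / c) ((n + 1) * t ^ n / c) t := by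
  have := (hasDerivAt_pow (n + 1) t).div_const c
  simpa using this

theorem en3 (t : ℝ) (ht : 0 ≤ t) : 0 ≤ t ^ (2 : ℕ) / 2 - t + 1 - Real.exp (-t) :=
  nonneg_of_deriv (f := fun t => t ^ (2 : ℕ) / 2 - t + 1 - Real.exp (-t))
    (f' := fun t => Real.exp (-t) - 1 + t)
    (fun x => by
      have := (((hasDerivAt_pw 1 2 x).sub (hasDerivAt_id x)).add_const 1).sub (hasDerivAt_expneg x)
      refine this.congr_deriv ?_
      norm_num
      ring) (by simp) en2 t ht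

theorem en4 (t : ℝ) (ht : 0 ≤ t) : 0 ≤ Real.exp (-t) - 1 + t - t ^ (2 : ℕ) / 2 + t ^ (3 : ℕ) / 6 :=
  nonneg_of_deriv (f := fun t => Real.exp (-t) - 1 + t - t ^ (2 : ℕ) / 2 + t ^ (3 : ℕ) / 6)
    (f' := fun t => t ^ (2 : ℕ) / 2 - t + 1 - Real.exp (-t))
    (fun x => by
      have := ((((hasDerivAt_expneg x).sub_const 1).add (hasDerivAt_id x)).sub
        (hasDerivAt_pw 1 2 x)).add (hasDerivAt_pw 2 6 x)
      refine this.congr_deriv ?_
      norm_num
      ring) (by simp) en3 t ht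

theorem en5 (t : ℝ) (ht : 0 ≤ t) :
    0 ≤ t ^ (4 : ℕ) / 24 - t ^ (3 : ℕ) / 6 + t ^ (2 : ℕ) / 2 - t + 1 - Real.exp (-t) :=
  nonneg_of_deriv (f := fun t => t ^ (4 : ℕ) / 24 - t ^ (3 : ℕ) / 6 + t ^ (2 : ℕ) / 2 - t + 1 - Real.exp (-t))
    (f' := fun t => Real.exp (-t) - 1 + t - t ^ (2 : ℕ) / 2 + t ^ (3 : ℕ) / 6)
    (fun x => by
      have := (((((hasDerivAt_pw 3 24 x).sub (hasDerivAt_pw 2 6 x)).add
        (hasDerivAt_pw 1 2 x)).sub (hasDerivAt_id x)).add_const 1).sub (hasDerivAt_expneg x)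
      refine this.congr_deriv ?_
      norm_num
      ring) (by simp) en4 t ht

theorem en6 (t : ℝ) (ht : 0 ≤ t) :
    0 ≤ Real.exp (-t) - 1 + t - t ^ (2 : ℕ) / 2 + t ^ (3 : ℕ) / 6 - t ^ (4 : ℕ) / 24 + t ^ (5 : ℕ) / 120 :=
  nonneg_of_deriv
    (f := fun t => Real.exp (-t) - 1 + t - t ^ (2 : ℕ) / 2 + t ^ (3 : ℕ) / 6 - t ^ (4 : ℕ) / 24 + t ^ (5 : ℕ) / 120)
    (f' := fun t => t ^ (4 : ℕ) / 24 - t ^ (3 : ℕ) / 6 + t ^ (2 : ℕ) / 2 - t + 1 - Real.exp (-t))
    (fun x => by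
      have := ((((((hasDerivAt_expneg x).sub_const 1).add (hasDerivAt_id x)).sub
        (hasDerivAt_pw 1 2 x)).add (hasDerivAt_pw 2 6 x)).sub (hasDerivAt_pw 3 24 x)).add
        (hasDerivAt_pw 4 120 x)
      refine this.congr_deriv ?_
      norm_num
      ring) (by simp) en5 t ht

theorem gr_neg_le {t : ℝ} (ht : 0 ≤ t) : gr (-t) ≤ t ^ (2 : ℕ) / 2 := by
  unfold gr
  linarith [en3 t ht]

theorem gr_neg_ge {t : ℝ} (ht : 0 ≤ t) : t ^ (2 : ℕ) / 2 - t ^ (3 : ℕ) / 6 ≤ gr (-t) := by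
  unfold gr
  linarith [en4 t ht]

theorem gr_neg_near {t : ℝ} (ht : 0 ≤ t) (ht2 : t ≤ 3 / 2) : 31 / 100 * t ^ (2 : ℕ) ≤ gr (-t) := by
  have h1 := en6 t ht
  have h2 : 0 ≤ 19 / 100 - t / 6 + t ^ (2 : ℕ) / 24 - t ^ (3 : ℕ) / 120 := by
    nlinarith only [mul_nonneg ht (sub_nonneg.2 ht2), mul_nonneg (mul_nonneg ht ht) (sub_nonneg.2 ht2)]
  have h3 : 0 ≤ t ^ (2 : ℕ) * (19 / 100 - t / 6 + t ^ (2 : ℕ) / 24 - t ^ (3 : ℕ) / 120) :=
    mul_nonneg (sq_nonneg t) h2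
  unfold gr
  nlinarith only [h1, h2]

theorem exp_m32 : (22 / 100 : ℝ) ≤ Real.exp (-(3 / 2)) ∧ Real.exp (-(3 / 2)) ≤ 23 / 100 := by
  have h1 := en6 (3 / 2) (by norm_num)
  have h2 : Real.exp (-(3 / 2)) * Real.exp (3 / 2) = 1 := by
    rw [← Real.exp_add]; simp
  have h3 : Real.exp (3 / 2) ^ (2 : ℕ) = Real.exp 1 ^ (3 : ℕ) := by
    rw [← Real.exp_nat_mul, ← Real.exp_nat_mul]
    norm_num
  have h4 := Real.exp_one_gt_d9
  have h5 := Real.exp_one_lt_d9
  have h6 : 0 < Real.exp (3 / 2) := Real.exp_pos _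
  have h7 : (4.35 : ℝ) ≤ Real.exp (3 / 2) := by
    by_contra hcon
    push Not at hcon
    have h8 : Real.exp (3 / 2) ^ (2 : ℕ) < 4.35 ^ (2 : ℕ) := by nlinarith only [h6, hcon]
    have h9 : (2.718 : ℝ) ^ (3 : ℕ) ≤ Real.exp 1 ^ (3 : ℕ) := pow_le_pow_left₀ (by norm_num) (by linarith) 3
    rw [h3] at h8
    norm_num at h8 h9
    linarith
  have h8 : Real.exp (3 / 2) ≤ 4.5 := by
    by_contra hcon
    push Not at hcon
    have h8 : (4.5 : ℝ) ^ (2 : ℕ) < Real.exp (3 / 2) ^ (2 : ℕ) := by nlinarith only [hcon]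
    have h9 : Real.exp 1 ^ (3 : ℕ) ≤ (2.7183 : ℝ) ^ (3 : ℕ) := pow_le_pow_left₀ (Real.exp_pos _).le (by linarith) 3
    rw [h3] at h8
    norm_num at h8 h9
    linarith
  constructor
  · nlinarith only [h2, h7, h8]
  · nlinarith only [h2, h7]

theorem gr_neg_far {t : ℝ} (ht : 3 / 2 ≤ t) : 18 / 25 + 77 / 100 * (t - 3 / 2) ≤ gr (-t) := by
  obtain ⟨h1, h2⟩ := exp_m32
  have h3 : Real.exp (-t) = Real.exp (-(3 / 2)) * Real.exp (-(t - 3 / 2)) := by
    rw [← Real.exp_add]; congr 1; ring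
  have h4 : 1 - (t - 3 / 2) ≤ Real.exp (-(t - 3 / 2)) := by
    have := Real.add_one_le_exp (-(t - 3 / 2))
    linarith
  have h5 : Real.exp (-(3 / 2)) * (1 - (t - 3 / 2)) ≤ Real.exp (-t) := by
    rw [h3]
    exact mul_le_mul_of_nonneg_left h4 (Real.exp_pos _).le
  unfold gr
  nlinarith only [ht, h1, h2, h5]

/-! ### `e^u`, `u ≥ 0` -/

theorem gr_ge {u : ℝ} (hu : 0 ≤ u) : u ^ (2 : ℕ) / 2 ≤ gr u := by
  have := Real.quadratic_le_exp_of_nonneg hu
  unfold gr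
  linarith

theorem ep1 (u : ℝ) (hu : 0 ≤ u) : 0 ≤ u * Real.exp u + 1 - Real.exp u :=
  nonneg_of_deriv (f := fun u => u * Real.exp u + 1 - Real.exp u) (f' := fun u => u * Real.exp u)
    (fun x => by
      have := (((hasDerivAt_id x).mul (Real.hasDerivAt_exp x)).add_const 1).sub (Real.hasDerivAt_exp x)
      refine this.congr_deriv ?_
      simp) (by simp) (fun x hx => mul_nonneg hx (Real.exp_pos x).le) u hu

theorem hasDerivAt_pe (n : ℕ) (c t : ℝ) :
    HasDerivAt (fun t : ℝ => t ^ (n + 1) / c * Real.exp t)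
      ((n + 1) * t ^ n / c * Real.exp t + t ^ (n + 1) / c * Real.exp t) t :=
  (hasDerivAt_pw n c t).mul (Real.hasDerivAt_exp t)

theorem ep2 (u : ℝ) (hu : 0 ≤ u) : 0 ≤ u ^ (2 : ℕ) / 2 * Real.exp u + u + 1 - Real.exp u :=
  nonneg_of_deriv (f := fun u => u ^ (2 : ℕ) / 2 * Real.exp u + u + 1 - Real.exp u)
    (f' := fun u => (u * Real.exp u + 1 - Real.exp u) + u ^ (2 : ℕ) / 2 * Real.exp u)
    (fun x => by
      have := (((hasDerivAt_pe 1 2 x).add (hasDerivAt_id x)).add_const 1).sub (Real.hasDerivAt_exp x)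
      refine this.congr_deriv ?_
      norm_num
      ring) (by simp)
    (fun x hx => add_nonneg (ep1 x hx) (mul_nonneg (by positivity) (Real.exp_pos x).le)) u hu

theorem ep3 (u : ℝ) (hu : 0 ≤ u) : 0 ≤ u ^ (3 : ℕ) / 6 * Real.exp u + u ^ (2 : ℕ) / 2 + u + 1 - Real.exp u :=
  nonneg_of_deriv (f := fun u => u ^ (3 : ℕ) / 6 * Real.exp u + u ^ (2 : ℕ) / 2 + u + 1 - Real.exp u)
    (f' := fun u => (u ^ (2 : ℕ) / 2 * Real.exp u + u + 1 - Real.exp u) + u ^ (3 : ℕ) / 6 * Real.exp u)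
    (fun x => by
      have := ((((hasDerivAt_pe 2 6 x).add (hasDerivAt_pw 1 2 x)).add (hasDerivAt_id x)).add_const 1).sub
        (Real.hasDerivAt_exp x)
      refine this.congr_deriv ?_
      norm_num
      ring) (by simp)
    (fun x hx => add_nonneg (ep2 x hx) (mul_nonneg (by positivity) (Real.exp_pos x).le)) u hu

theorem ep4 (u : ℝ) (hu : 0 ≤ u) :
    0 ≤ u ^ (4 : ℕ) / 24 * Real.exp u + u ^ (3 : ℕ) / 6 + u ^ (2 : ℕ) / 2 + u + 1 - Real.exp u :=
  nonneg_of_deriv (f := fun u => u ^ (4 : ℕ) / 24 * Real.exp u + u ^ (3 : ℕ) / 6 + u ^ (2 : ℕ) / 2 + u + 1 - Real.exp u)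
    (f' := fun u => (u ^ (3 : ℕ) / 6 * Real.exp u + u ^ (2 : ℕ) / 2 + u + 1 - Real.exp u) +
      u ^ (4 : ℕ) / 24 * Real.exp u)
    (fun x => by
      have := (((((hasDerivAt_pe 3 24 x).add (hasDerivAt_pw 2 6 x)).add (hasDerivAt_pw 1 2 x)).add
        (hasDerivAt_id x)).add_const 1).sub (Real.hasDerivAt_exp x)
      refine this.congr_deriv ?_
      norm_num
      ring) (by simp)
    (fun x hx => add_nonneg (ep3 x hx) (mul_nonneg (by positivity) (Real.exp_pos x).le)) u hu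

theorem ep5 (u : ℝ) (hu : 0 ≤ u) :
    0 ≤ u ^ (5 : ℕ) / 120 * Real.exp u + u ^ (4 : ℕ) / 24 + u ^ (3 : ℕ) / 6 + u ^ (2 : ℕ) / 2 + u + 1 - Real.exp u :=
  nonneg_of_deriv
    (f := fun u => u ^ (5 : ℕ) / 120 * Real.exp u + u ^ (4 : ℕ) / 24 + u ^ (3 : ℕ) / 6 + u ^ (2 : ℕ) / 2 + u + 1 - Real.exp u)
    (f' := fun u => (u ^ (4 : ℕ) / 24 * Real.exp u + u ^ (3 : ℕ) / 6 + u ^ (2 : ℕ) / 2 + u + 1 - Real.exp u) +
      u ^ (5 : ℕ) / 120 * Real.exp u)
    (fun x => by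
      have := ((((((hasDerivAt_pe 4 120 x).add (hasDerivAt_pw 3 24 x)).add (hasDerivAt_pw 2 6 x)).add
        (hasDerivAt_pw 1 2 x)).add (hasDerivAt_id x)).add_const 1).sub (Real.hasDerivAt_exp x)
      refine this.congr_deriv ?_
      norm_num
      ring) (by simp)
    (fun x hx => add_nonneg (ep4 x hx) (mul_nonneg (by positivity) (Real.exp_pos x).le)) u hu

theorem gr_pos_le {u : ℝ} (hu : 0 ≤ u) :
    gr u - u ^ (2 : ℕ) / 2 ≤ u ^ (3 : ℕ) / 6 + u ^ (4 : ℕ) / 24 + u ^ (5 : ℕ) / 120 * Real.exp u := by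
  unfold gr
  linarith [ep5 u hu]

end SokamTI

end

/-! ### Lib_MP_af4de1_ti.L2 -/

section
/-!
# Left saddle: integral toolkit on half-lines
-/

set_option autoImplicit false

namespace SokamTI

open MeasureTheory Set Filter Topology

theorem gm_int (n : ℕ) {c : ℝ} (hc : 0 < c) :
    IntegrableOn (fun u : ℝ => u ^ n * Real.exp (-(c * u ^ (2 : ℕ)))) (Ioi 0) := by
  have h := integrableOn_rpow_mul_exp_neg_mul_sq hc (s := (n : ℝ))
    (by have : (0 : ℝ) ≤ n := Nat.cast_nonneg n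
        linarith)
  refine h.congr_fun (fun x hx => ?_) measurableSet_Ioi
  simp only [Real.rpow_natCast]
  rw [neg_mul]

theorem gm_val (n : ℕ) {c : ℝ} (hc : 0 < c) :
    ∫ u in Ioi (0 : ℝ), u ^ n * Real.exp (-(c * u ^ (2 : ℕ))) =
      c ^ (-((n : ℝ) + 1) / 2) * (1 / 2) * Real.Gamma (((n : ℝ) + 1) / 2) := by
  rw [← integral_rpow_mul_exp_neg_mul_rpow (p := 2) (q := (n : ℝ)) (by norm_num)
    (by have : (0 : ℝ) ≤ n := Nat.cast_nonneg n
        linarith) hc]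
  refine setIntegral_congr_fun measurableSet_Ioi (fun x hx => ?_)
  simp only [Real.rpow_natCast, Real.rpow_two]
  rw [neg_mul]

theorem gm0 {c : ℝ} : ∫ u in Ioi (0 : ℝ), Real.exp (-(c * u ^ (2 : ℕ))) = √(Real.pi / c) / 2 := by
  rw [← integral_gaussian_Ioi c]
  refine setIntegral_congr_fun measurableSet_Ioi (fun x hx => ?_)
  simp only [neg_mul]

theorem gm1 {c : ℝ} (hc : 0 < c) :
    ∫ u in Ioi (0 : ℝ), u * Real.exp (-(c * u ^ (2 : ℕ))) = 1 / (2 * c) := by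
  have h := gm_val 1 hc
  simp only [pow_one, Nat.cast_one] at h
  rw [h, show (-((1 : ℝ) + 1) / 2) = -1 by norm_num, show ((1 : ℝ) + 1) / 2 = 1 by norm_num,
    Real.Gamma_one, Real.rpow_neg_one]
  field_simp

theorem gm3 {c : ℝ} (hc : 0 < c) :
    ∫ u in Ioi (0 : ℝ), u ^ (3 : ℕ) * Real.exp (-(c * u ^ (2 : ℕ))) = 1 / (2 * c ^ (2 : ℕ)) := by
  have h := gm_val 3 hc
  rw [h, show (-(((3 : ℕ) : ℝ) + 1) / 2) = -((2 : ℕ) : ℝ) by norm_num,
    show (((3 : ℕ) : ℝ) + 1) / 2 = ((1 : ℕ) : ℝ) + 1 by norm_num,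
    Real.Gamma_nat_eq_factorial, Real.rpow_neg hc.le, Real.rpow_natCast]
  norm_num

theorem gm5 {c : ℝ} (hc : 0 < c) :
    ∫ u in Ioi (0 : ℝ), u ^ (5 : ℕ) * Real.exp (-(c * u ^ (2 : ℕ))) = 1 / c ^ (3 : ℕ) := by
  have h := gm_val 5 hc
  rw [h, show (-(((5 : ℕ) : ℝ) + 1) / 2) = -((3 : ℕ) : ℝ) by norm_num,
    show (((5 : ℕ) : ℝ) + 1) / 2 = ((2 : ℕ) : ℝ) + 1 by norm_num,
    Real.Gamma_nat_eq_factorial, Real.rpow_neg hc.le, Real.rpow_natCast]
  norm_num [Nat.factorial]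
  ring

theorem gm4 {c : ℝ} (hc : 0 < c) :
    ∫ u in Ioi (0 : ℝ), u ^ (4 : ℕ) * Real.exp (-(c * u ^ (2 : ℕ))) = 3 / 8 * √Real.pi / (c ^ (2 : ℕ) * √c) := by
  have h := gm_val 4 hc
  have e : c ^ (-(((4 : ℕ) : ℝ) + 1) / 2) = 1 / (c ^ (2 : ℕ) * √c) := by
    rw [show (-(((4 : ℕ) : ℝ) + 1) / 2) = -(((2 : ℕ) : ℝ) + 1 / 2) by norm_num, Real.rpow_neg hc.le,
      Real.rpow_add hc, Real.rpow_natCast, ← Real.sqrt_eq_rpow, one_div]
  rw [h, e, show (((4 : ℕ) : ℝ) + 1) / 2 = ((2 : ℕ) : ℝ) + 1 / 2 by norm_num, Real.Gamma_nat_add_half]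
  norm_num [Nat.doubleFactorial]
  ring

/-- comparison on the two pieces of `(0, ∞)` -/
theorem two_piece {f g1 g2 : ℝ → ℝ} {b : ℝ} (hb : 0 ≤ b) (hf : Continuous f)
    (hg1 : IntegrableOn g1 (Ioi 0)) (hg2 : IntegrableOn g2 (Ioi b))
    (h0 : ∀ t, 0 < t → 0 ≤ f t) (hn1 : ∀ t, 0 < t → 0 ≤ g1 t)
    (h1 : ∀ t, 0 < t → t ≤ b → f t ≤ g1 t) (h2 : ∀ t, b < t → f t ≤ g2 t) :
    IntegrableOn f (Ioi 0) ∧ ∫ t in Ioi (0 : ℝ), f t ≤ (∫ t in Ioi (0 : ℝ), g1 t) +
      ∫ t in Ioi b, g2 t := by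
  have e : Ioc 0 b ∪ Ioi b = Ioi 0 := Ioc_union_Ioi_eq_Ioi hb
  have i1 : IntegrableOn f (Ioc 0 b) := by
    refine Integrable.mono' (hg1.mono_set Ioc_subset_Ioi_self)
      hf.aestronglyMeasurable.restrict ?_
    refine (ae_restrict_iff' measurableSet_Ioc).2 (Eventually.of_forall fun t ht => ?_)
    rw [Real.norm_eq_abs, abs_of_nonneg (h0 t ht.1)]
    exact h1 t ht.1 ht.2
  have i2 : IntegrableOn f (Ioi b) := by
    refine Integrable.mono' hg2 hf.aestronglyMeasurable.restrict ?_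
    refine (ae_restrict_iff' measurableSet_Ioi).2 (Eventually.of_forall fun t ht => ?_)
    rw [Real.norm_eq_abs, abs_of_nonneg (h0 t (hb.trans_lt ht))]
    exact h2 t ht
  have i3 : IntegrableOn f (Ioi 0) := by
    rw [← e]
    exact i1.union i2
  refine ⟨i3, ?_⟩
  rw [← e, setIntegral_union (Ioc_disjoint_Ioi le_rfl) measurableSet_Ioi i1 i2]
  have h3 : ∫ t in Ioc 0 b, f t ≤ ∫ t in Ioc 0 b, g1 t :=
    setIntegral_mono_on i1 (hg1.mono_set Ioc_subset_Ioi_self) measurableSet_Ioc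
      (fun t ht => h1 t ht.1 ht.2)
  have h4 : ∫ t in Ioc 0 b, g1 t ≤ ∫ t in Ioi 0, g1 t := by
    refine setIntegral_mono_set hg1 ?_ (Ioc_subset_Ioi_self.eventuallyLE)
    exact (ae_restrict_iff' measurableSet_Ioi).2 (Eventually.of_forall fun t ht => hn1 t ht)
  have h5 : ∫ t in Ioi b, f t ≤ ∫ t in Ioi b, g2 t :=
    setIntegral_mono_on i2 hg2 measurableSet_Ioi (fun t ht => h2 t ht)
  rw [e]
  linarith

/-- comparison on `(0, ∞)` -/
theorem one_piece {f g : ℝ → ℝ} (hf : Continuous f) (hg : IntegrableOn g (Ioi 0))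
    (h0 : ∀ t, 0 < t → 0 ≤ f t) (h1 : ∀ t, 0 < t → f t ≤ g t) :
    IntegrableOn f (Ioi 0) ∧ ∫ t in Ioi (0 : ℝ), f t ≤ ∫ t in Ioi (0 : ℝ), g t := by
  have i1 : IntegrableOn f (Ioi 0) := by
    refine Integrable.mono' hg hf.aestronglyMeasurable.restrict ?_
    refine (ae_restrict_iff' measurableSet_Ioi).2 (Eventually.of_forall fun t ht => ?_)
    rw [Real.norm_eq_abs, abs_of_nonneg (h0 t ht)]
    exact h1 t ht
  exact ⟨i1, setIntegral_mono_on i1 hg measurableSet_Ioi (fun t ht => h1 t ht)⟩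

/-- the whole line -/
theorem split_line {f : ℝ → ℝ} (h1 : IntegrableOn f (Ioi 0))
    (h2 : IntegrableOn (fun t => f (-t)) (Ioi 0)) :
    Integrable f ∧ ∫ u, f u = (∫ u in Ioi (0 : ℝ), f u) + ∫ t in Ioi (0 : ℝ), f (-t) := by
  have h3 : IntegrableOn f (Iic 0) := by
    have h4 : IntegrableOn (fun t => f (-t)) (Ioi (-0)) := by simpa using h2
    have := h4.comp_neg_Iio
    rw [integrableOn_Iic_iff_integrableOn_Iio]
    simpa using this
  have h5 : Integrable f := by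
    rw [← integrableOn_univ, ← Iic_union_Ioi (a := (0 : ℝ))]
    exact h3.union h1
  refine ⟨h5, ?_⟩
  have h6 := integral_comp_neg_Ioi (c := (0 : ℝ)) (f := f)
  rw [neg_zero] at h6
  rw [h6, ← setIntegral_univ, ← Iic_union_Ioi (a := (0 : ℝ)),
    setIntegral_union (Iic_disjoint_Ioi le_rfl) measurableSet_Ioi h3 h1]
  ring

end SokamTI

end

/-! ### Lib_MP_af4de1_ti.L3 -/

section
/-!
# Left saddle: the four real integrals
-/

set_option autoImplicit false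

namespace SokamTI

open MeasureTheory Set Filter Topology

noncomputable def Dm (lam u : ℝ) : ℝ :=
  |gr u - u ^ (2 : ℕ) / 2| * max (Real.exp (-(lam * gr u))) (Real.exp (-(lam * (u ^ (2 : ℕ) / 2))))

theorem continuous_Dm (lam : ℝ) : Continuous (Dm lam) := by
  unfold Dm
  have := continuous_gr
  fun_prop

theorem Dm_nonneg (lam u : ℝ) : 0 ≤ Dm lam u := by
  unfold Dm
  exact mul_nonneg (abs_nonneg _) ((Real.exp_pos _).le.trans (le_max_left _ _))

theorem exp_le_two_mul {lam u : ℝ} (hl : 24 / 5 ≤ lam) :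
    Real.exp u ≤ 2 * Real.exp (753 / 10000 * lam * u ^ (2 : ℕ)) := by
  have h1 : u ≤ Real.log 2 + 753 / 10000 * lam * u ^ (2 : ℕ) := by
    have := Real.log_two_gt_d9
    nlinarith only [this, sq_nonneg (u - 1000 / 722), mul_nonneg (sub_nonneg.2 hl) (sq_nonneg u)]
  calc Real.exp u ≤ Real.exp (Real.log 2 + 753 / 10000 * lam * u ^ (2 : ℕ)) := Real.exp_le_exp.2 h1
    _ = 2 * Real.exp (753 / 10000 * lam * u ^ (2 : ℕ)) := by
      rw [Real.exp_add, Real.exp_log (by norm_num)]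

theorem Dm_pos_le {lam u : ℝ} (hl : 24 / 5 ≤ lam) (hu : 0 < u) :
    Dm lam u ≤ 1 / 6 * (u ^ (3 : ℕ) * Real.exp (-(lam / 2 * u ^ (2 : ℕ)))) +
      1 / 24 * (u ^ (4 : ℕ) * Real.exp (-(lam / 2 * u ^ (2 : ℕ)))) +
      1 / 60 * (u ^ (5 : ℕ) * Real.exp (-(4247 / 10000 * lam * u ^ (2 : ℕ)))) := by
  have h1 := gr_ge hu.le
  have h2 := gr_pos_le hu.le
  have h3 : max (Real.exp (-(lam * gr u))) (Real.exp (-(lam * (u ^ (2 : ℕ) / 2)))) =
      Real.exp (-(lam / 2 * u ^ (2 : ℕ))) := by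
    rw [max_eq_right]
    · congr 1; ring
    · apply Real.exp_le_exp.2
      nlinarith only [hl, h1]
  unfold Dm
  rw [h3, abs_of_nonneg (sub_nonneg.2 h1)]
  have h4 : Real.exp u * Real.exp (-(lam / 2 * u ^ (2 : ℕ))) ≤
      2 * Real.exp (-(4247 / 10000 * lam * u ^ (2 : ℕ))) := by
    calc Real.exp u * Real.exp (-(lam / 2 * u ^ (2 : ℕ))) ≤
        2 * Real.exp (753 / 10000 * lam * u ^ (2 : ℕ)) * Real.exp (-(lam / 2 * u ^ (2 : ℕ))) :=
          mul_le_mul_of_nonneg_right (exp_le_two_mul hl) (Real.exp_pos _).le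
      _ = 2 * Real.exp (-(4247 / 10000 * lam * u ^ (2 : ℕ))) := by
        rw [mul_assoc, ← Real.exp_add]
        congr 2
        ring
  have h5 : 0 < Real.exp (-(lam / 2 * u ^ (2 : ℕ))) := Real.exp_pos _
  have h6 : 0 ≤ u ^ (5 : ℕ) / 120 := by positivity
  calc (gr u - u ^ (2 : ℕ) / 2) * Real.exp (-(lam / 2 * u ^ (2 : ℕ))) ≤
      (u ^ (3 : ℕ) / 6 + u ^ (4 : ℕ) / 24 + u ^ (5 : ℕ) / 120 * Real.exp u) * Real.exp (-(lam / 2 * u ^ (2 : ℕ))) :=
        mul_le_mul_of_nonneg_right h2 h5.le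
    _ = 1 / 6 * (u ^ (3 : ℕ) * Real.exp (-(lam / 2 * u ^ (2 : ℕ)))) +
      1 / 24 * (u ^ (4 : ℕ) * Real.exp (-(lam / 2 * u ^ (2 : ℕ)))) +
      u ^ (5 : ℕ) / 120 * (Real.exp u * Real.exp (-(lam / 2 * u ^ (2 : ℕ)))) := by ring
    _ ≤ 1 / 6 * (u ^ (3 : ℕ) * Real.exp (-(lam / 2 * u ^ (2 : ℕ)))) +
      1 / 24 * (u ^ (4 : ℕ) * Real.exp (-(lam / 2 * u ^ (2 : ℕ)))) +
      u ^ (5 : ℕ) / 120 * (2 * Real.exp (-(4247 / 10000 * lam * u ^ (2 : ℕ)))) := by
        have := mul_le_mul_of_nonneg_left h4 h6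
        linarith only [this]
    _ = _ := by ring

theorem sqrt_pi_le : √Real.pi ≤ 17725 / 10000 := by
  rw [show (17725 / 10000 : ℝ) = √((17725 / 10000) ^ (2 : ℕ)) by
    rw [Real.sqrt_sq (by norm_num)]]
  apply Real.sqrt_le_sqrt
  have := Real.pi_lt_d4
  norm_num at this ⊢
  linarith only [this]

theorem K_plus {lam : ℝ} (hl : 24 / 5 ≤ lam) :
    IntegrableOn (Dm lam) (Ioi 0) ∧ ∫ u in Ioi (0 : ℝ), Dm lam u ≤ 4503 / 10000 / lam ^ (2 : ℕ) := by
  have hl0 : 0 < lam := by linarith only [hl]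
  have c1 : 0 < lam / 2 := by linarith only [hl0]
  have c2 : 0 < 4247 / 10000 * lam := by linarith only [c1]
  have i3 := (gm_int 3 c1).const_mul (1 / 6)
  have i4 := (gm_int 4 c1).const_mul (1 / 24)
  have i5 := (gm_int 5 c2).const_mul (1 / 60)
  have i6 : IntegrableOn (fun u : ℝ => 1 / 6 * (u ^ (3 : ℕ) * Real.exp (-(lam / 2 * u ^ (2 : ℕ)))) +
      1 / 24 * (u ^ (4 : ℕ) * Real.exp (-(lam / 2 * u ^ (2 : ℕ)))) +
      1 / 60 * (u ^ (5 : ℕ) * Real.exp (-(4247 / 10000 * lam * u ^ (2 : ℕ))))) (Ioi 0) := (i3.add i4).add i5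
  obtain ⟨h1, h2⟩ := one_piece (continuous_Dm lam) i6
    (fun t _ => Dm_nonneg lam t) (fun t ht => Dm_pos_le hl ht)
  refine ⟨h1, h2.trans ?_⟩
  have e1 : ∫ u in Ioi (0 : ℝ), (1 / 6 * (u ^ (3 : ℕ) * Real.exp (-(lam / 2 * u ^ (2 : ℕ)))) +
      1 / 24 * (u ^ (4 : ℕ) * Real.exp (-(lam / 2 * u ^ (2 : ℕ)))) +
      1 / 60 * (u ^ (5 : ℕ) * Real.exp (-(4247 / 10000 * lam * u ^ (2 : ℕ))))) =
      1 / 6 * (1 / (2 * (lam / 2) ^ (2 : ℕ))) + 1 / 24 * (3 / 8 * √Real.pi / ((lam / 2) ^ (2 : ℕ) * √(lam / 2))) +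
      1 / 60 * (1 / (4247 / 10000 * lam) ^ (3 : ℕ)) := by
    have h3 : ∫ u in Ioi (0 : ℝ), (1 / 6 * (u ^ (3 : ℕ) * Real.exp (-(lam / 2 * u ^ (2 : ℕ)))) +
        1 / 24 * (u ^ (4 : ℕ) * Real.exp (-(lam / 2 * u ^ (2 : ℕ)))) +
        1 / 60 * (u ^ (5 : ℕ) * Real.exp (-(4247 / 10000 * lam * u ^ (2 : ℕ))))) =
        (∫ u in Ioi (0 : ℝ), (1 / 6 * (u ^ (3 : ℕ) * Real.exp (-(lam / 2 * u ^ (2 : ℕ)))) +
        1 / 24 * (u ^ (4 : ℕ) * Real.exp (-(lam / 2 * u ^ (2 : ℕ)))))) +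
        ∫ u in Ioi (0 : ℝ), 1 / 60 * (u ^ (5 : ℕ) * Real.exp (-(4247 / 10000 * lam * u ^ (2 : ℕ)))) :=
      integral_add (i3.add i4) i5
    have h4 : ∫ u in Ioi (0 : ℝ), (1 / 6 * (u ^ (3 : ℕ) * Real.exp (-(lam / 2 * u ^ (2 : ℕ)))) +
        1 / 24 * (u ^ (4 : ℕ) * Real.exp (-(lam / 2 * u ^ (2 : ℕ))))) =
        (∫ u in Ioi (0 : ℝ), 1 / 6 * (u ^ (3 : ℕ) * Real.exp (-(lam / 2 * u ^ (2 : ℕ))))) +
        ∫ u in Ioi (0 : ℝ), 1 / 24 * (u ^ (4 : ℕ) * Real.exp (-(lam / 2 * u ^ (2 : ℕ)))) := integral_add i3 i4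
    rw [h3, h4, integral_const_mul, integral_const_mul, integral_const_mul, gm3 c1, gm4 c1, gm5 c2]
  rw [e1]
  have h5 : (1549 / 1000 : ℝ) ≤ √(lam / 2) := by
    apply Real.le_sqrt_of_sq_le
    norm_num
    linarith only [hl]
  have h6 := sqrt_pi_le
  have h7 : 3 / 8 * √Real.pi / ((lam / 2) ^ (2 : ℕ) * √(lam / 2)) ≤
      3 / 8 * (17725 / 10000) / ((lam / 2) ^ (2 : ℕ) * (1549 / 1000)) := by
    gcongr
  have h8 : 1 / (4247 / 10000 * lam) ^ (3 : ℕ) ≤ 1 / ((4247 / 10000) ^ (3 : ℕ) * lam ^ (2 : ℕ) * (24 / 5)) := by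
    apply one_div_le_one_div_of_le (by positivity)
    have : (4247 / 10000 : ℝ) ^ (3 : ℕ) * lam ^ (2 : ℕ) * (24 / 5) ≤ (4247 / 10000) ^ (3 : ℕ) * lam ^ (2 : ℕ) * lam :=
      mul_le_mul_of_nonneg_left hl (by positivity)
    calc _ ≤ _ := this
      _ = _ := by ring
  have e2 : 1 / 6 * (1 / (2 * (lam / 2) ^ (2 : ℕ))) = (1 / 3) / lam ^ (2 : ℕ) := by field_simp; norm_num
  have e3 : 1 / 24 * (3 / 8 * (17725 / 10000) / ((lam / 2) ^ (2 : ℕ) * (1549 / 1000))) =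
      (1 / 24 * (3 / 8 * (17725 / 10000)) * 4 / (1549 / 1000)) / lam ^ (2 : ℕ) := by
    field_simp
    norm_num
  have e4 : 1 / 60 * (1 / ((4247 / 10000) ^ (3 : ℕ) * lam ^ (2 : ℕ) * (24 / 5))) =
      (1 / 60 / (4247 / 10000) ^ (3 : ℕ) / (24 / 5)) / lam ^ (2 : ℕ) := by
    field_simp
  calc _ ≤ (1 / 3) / lam ^ (2 : ℕ) + (1 / 24 * (3 / 8 * (17725 / 10000)) * 4 / (1549 / 1000)) / lam ^ (2 : ℕ) +
        (1 / 60 / (4247 / 10000) ^ (3 : ℕ) / (24 / 5)) / lam ^ (2 : ℕ) := by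
        rw [← e2, ← e3, ← e4]
        linarith only [h7, h8]
    _ = (1 / 3 + (1 / 24 * (3 / 8 * (17725 / 10000)) * 4 / (1549 / 1000)) +
        (1 / 60 / (4247 / 10000) ^ (3 : ℕ) / (24 / 5))) / lam ^ (2 : ℕ) := by ring
    _ ≤ 4503 / 10000 / lam ^ (2 : ℕ) := by
        apply div_le_div_of_nonneg_right _ (by positivity)
        norm_num

/-! ### the left half-line -/

theorem Dm_neg_near {lam t : ℝ} (hl : 24 / 5 ≤ lam) (ht : 0 < t) (ht2 : t ≤ 3 / 2) :
    Dm lam (-t) ≤ 1 / 6 * (t ^ (3 : ℕ) * Real.exp (-(31 / 100 * lam * t ^ (2 : ℕ)))) := by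
  have h1 := gr_neg_le ht.le
  have h2 := gr_neg_ge ht.le
  have h3 := gr_neg_near ht.le ht2
  have h4 : max (Real.exp (-(lam * gr (-t)))) (Real.exp (-(lam * ((-t) ^ (2 : ℕ) / 2)))) ≤
      Real.exp (-(31 / 100 * lam * t ^ (2 : ℕ))) := by
    apply max_le
    · apply Real.exp_le_exp.2
      nlinarith only [hl, h3]
    · apply Real.exp_le_exp.2
      linarith only [mul_nonneg (show 0 ≤ lam by linarith only [hl]) (sq_nonneg t)]
  unfold Dm
  have h5 : |gr (-t) - (-t) ^ (2 : ℕ) / 2| ≤ t ^ (3 : ℕ) / 6 := by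
    rw [abs_le]
    constructor
    · linarith only [h2]
    · have : 0 ≤ t ^ (3 : ℕ) := by positivity
      nlinarith only [ht, h1]
  calc _ ≤ t ^ (3 : ℕ) / 6 * Real.exp (-(31 / 100 * lam * t ^ (2 : ℕ))) :=
        mul_le_mul h5 h4 ((Real.exp_pos _).le.trans (le_max_left _ _)) (by positivity)
    _ = _ := by ring

theorem Dm_neg_far {lam t : ℝ} (hl : 24 / 5 ≤ lam) (ht : 3 / 2 < t) :
    Dm lam (-t) ≤ 405 / 1000 * Real.exp (-(18 / 25 * lam)) *
      Real.exp (-((77 / 100 * lam - 181 / 100) * (t - 3 / 2))) := by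
  have h0 : 0 < t := by linarith only [ht]
  have h1 := gr_neg_le h0.le
  have h3 := gr_neg_far ht.le
  have h4 : max (Real.exp (-(lam * gr (-t)))) (Real.exp (-(lam * ((-t) ^ (2 : ℕ) / 2)))) ≤
      Real.exp (-(lam * (18 / 25 + 77 / 100 * (t - 3 / 2)))) := by
    apply max_le
    · apply Real.exp_le_exp.2
      nlinarith only [hl, h3]
    · apply Real.exp_le_exp.2
      nlinarith only [hl, h1, h3]
  have h6 : 1 + 181 / 100 * (t - 3 / 2) + (181 / 100 * (t - 3 / 2)) ^ (2 : ℕ) / 2 ≤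
      Real.exp (181 / 100 * (t - 3 / 2)) :=
    Real.quadratic_le_exp_of_nonneg (by linarith only [ht])
  have h5 : |gr (-t) - (-t) ^ (2 : ℕ) / 2| ≤ 405 / 1000 * Real.exp (181 / 100 * (t - 3 / 2)) := by
    rw [abs_of_nonpos (by linarith only [h1])]
    nlinarith only [ht, h3, h6]
  unfold Dm
  calc _ ≤ 405 / 1000 * Real.exp (181 / 100 * (t - 3 / 2)) *
        Real.exp (-(lam * (18 / 25 + 77 / 100 * (t - 3 / 2)))) :=
        mul_le_mul h5 h4 ((Real.exp_pos _).le.trans (le_max_left _ _)) (by positivity)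
    _ = _ := by
      rw [mul_assoc, mul_assoc, ← Real.exp_add, ← Real.exp_add]
      congr 2
      ring

theorem expt_int {c : ℝ} (hc : 0 < c) (b : ℝ) :
    IntegrableOn (fun t : ℝ => Real.exp (-(c * (t - b)))) (Ioi b) ∧
      ∫ t in Ioi b, Real.exp (-(c * (t - b))) = 1 / c := by
  have e : (fun t : ℝ => Real.exp (-(c * (t - b)))) = fun t => Real.exp (c * b) * Real.exp (-c * t) := by
    ext t
    rw [← Real.exp_add]
    congr 1
    ring
  rw [e]
  refine ⟨(integrableOn_exp_mul_Ioi (neg_lt_zero.2 hc) b).const_mul _, ?_⟩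
  rw [integral_const_mul, integral_exp_mul_Ioi (neg_lt_zero.2 hc) b, neg_div_neg_eq, ← mul_div_assoc,
    ← Real.exp_add]
  simp

theorem exp_3456 : (316 / 10 : ℝ) ≤ Real.exp (3456 / 1000) := by
  have h1 : Real.exp (3456 / 1000) = Real.exp 1 ^ (3 : ℕ) * Real.exp (456 / 1000) := by
    rw [← Real.exp_nat_mul, ← Real.exp_add]
    norm_num
  have h2 : (15757 / 10000 : ℝ) ≤ Real.exp (456 / 1000) := by
    have := Real.sum_le_exp_of_nonneg (x := 456 / 1000) (by norm_num) 4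
    norm_num [Finset.sum_range_succ, Nat.factorial] at this ⊢
    linarith only [this]
  have h3 := Real.exp_one_gt_d9
  have h4 : (2.71828 : ℝ) ^ (3 : ℕ) ≤ Real.exp 1 ^ (3 : ℕ) := pow_le_pow_left₀ (by norm_num) (by linarith only [h3]) 3
  rw [h1]
  calc (316 / 10 : ℝ) ≤ 2.71828 ^ (3 : ℕ) * (15757 / 10000) := by norm_num
    _ ≤ _ := by gcongr

theorem sq_exp_le {lam : ℝ} (hl : 24 / 5 ≤ lam) :
    lam ^ (2 : ℕ) * Real.exp (-(18 / 25 * lam)) ≤ 7292 / 10000 := by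
  have h1 : lam / (24 / 5) ≤ Real.exp ((lam - 24 / 5) / (24 / 5)) := by
    have := Real.add_one_le_exp ((lam - 24 / 5) / (24 / 5))
    calc lam / (24 / 5) = (lam - 24 / 5) / (24 / 5) + 1 := by ring
      _ ≤ _ := this
  have h2 : (lam / (24 / 5)) ^ (2 : ℕ) ≤ Real.exp ((lam - 24 / 5) / (24 / 5)) ^ (2 : ℕ) :=
    pow_le_pow_left₀ (by positivity) h1 2
  rw [← Real.exp_nat_mul] at h2
  have h3 : Real.exp ((2 : ℕ) * ((lam - 24 / 5) / (24 / 5))) ≤ Real.exp (18 / 25 * (lam - 24 / 5)) := by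
    apply Real.exp_le_exp.2
    push_cast
    linarith only [hl]
  have h4 : lam ^ (2 : ℕ) ≤ (24 / 5) ^ (2 : ℕ) * Real.exp (18 / 25 * (lam - 24 / 5)) := by
    have := h2.trans h3
    rw [div_pow, div_le_iff₀ (by norm_num)] at this
    linarith only [this]
  have h5 := exp_3456
  have h6 : Real.exp (18 / 25 * (lam - 24 / 5)) * Real.exp (-(18 / 25 * lam)) =
      1 / Real.exp (3456 / 1000) := by
    rw [← Real.exp_add, one_div, ← Real.exp_neg]
    congr 1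
    ring
  have h7 : 1 / Real.exp (3456 / 1000) ≤ 1 / (316 / 10) :=
    one_div_le_one_div_of_le (by norm_num) h5
  calc lam ^ (2 : ℕ) * Real.exp (-(18 / 25 * lam)) ≤
      (24 / 5) ^ (2 : ℕ) * Real.exp (18 / 25 * (lam - 24 / 5)) * Real.exp (-(18 / 25 * lam)) :=
        mul_le_mul_of_nonneg_right h4 (Real.exp_pos _).le
    _ = (24 / 5) ^ (2 : ℕ) * (1 / Real.exp (3456 / 1000)) := by rw [mul_assoc, h6]
    _ ≤ (24 / 5) ^ (2 : ℕ) * (1 / (316 / 10)) := mul_le_mul_of_nonneg_left h7 (by norm_num)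
    _ ≤ _ := by norm_num

theorem K_minus {lam : ℝ} (hl : 24 / 5 ≤ lam) :
    IntegrableOn (fun t => Dm lam (-t)) (Ioi 0) ∧
      ∫ t in Ioi (0 : ℝ), Dm lam (-t) ≤ 10242 / 10000 / lam ^ (2 : ℕ) := by
  have hl0 : 0 < lam := by linarith only [hl]
  have c1 : 0 < 31 / 100 * lam := by linarith only [hl0]
  have c2 : 0 < 77 / 100 * lam - 181 / 100 := by linarith only [hl]
  have i3 := (gm_int 3 c1).const_mul (1 / 6)
  have i4 := (expt_int c2 (3 / 2)).1.const_mul (405 / 1000 * Real.exp (-(18 / 25 * lam)))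
  obtain ⟨h1, h2⟩ := two_piece (f := fun t => Dm lam (-t)) (b := 3 / 2) (by norm_num)
    ((continuous_Dm lam).comp continuous_neg) i3 i4
    (fun t _ => Dm_nonneg lam (-t)) (fun t ht => by positivity)
    (fun t ht ht2 => Dm_neg_near hl ht ht2) (fun t ht => Dm_neg_far hl ht)
  refine ⟨h1, h2.trans ?_⟩
  rw [integral_const_mul, integral_const_mul, gm3 c1, (expt_int c2 (3 / 2)).2]
  have h3 := sq_exp_le hl
  have h4 : 405 / 1000 * Real.exp (-(18 / 25 * lam)) * (1 / (77 / 100 * lam - 181 / 100)) ≤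
      157 / 1000 / lam ^ (2 : ℕ) := by
    rw [le_div_iff₀ (by positivity), mul_one_div, div_mul_eq_mul_div, div_le_iff₀ c2]
    linarith only [hl, h3]
  have e1 : 1 / 6 * (1 / (2 * (31 / 100 * lam) ^ (2 : ℕ))) = (1 / 12 / (31 / 100) ^ (2 : ℕ)) / lam ^ (2 : ℕ) := by
    field_simp
    norm_num
  rw [e1]
  calc _ ≤ (1 / 12 / (31 / 100) ^ (2 : ℕ)) / lam ^ (2 : ℕ) + 157 / 1000 / lam ^ (2 : ℕ) := by linarith only [h4]
    _ = (1 / 12 / (31 / 100) ^ (2 : ℕ) + 157 / 1000) / lam ^ (2 : ℕ) := by ring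
    _ ≤ _ := by
      apply div_le_div_of_nonneg_right _ (by positivity)
      norm_num

end SokamTI

end

/-! ### Lib_MP_af4de1_ti.L4 -/

section
/-!
# Left saddle: the integral of `gr e^{-λ gr}`
-/

set_option autoImplicit false

namespace SokamTI

open MeasureTheory Set Filter Topology

theorem em_int (n : ℕ) {c : ℝ} (hc : 0 < c) :
    IntegrableOn (fun u : ℝ => u ^ n * Real.exp (-(c * u))) (Ioi 0) := by
  have h := integrableOn_rpow_mul_exp_neg_mul_rpow (p := 1) (s := (n : ℝ)) (b := c)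
    (by have : (0 : ℝ) ≤ n := Nat.cast_nonneg n
        linarith only []) one_pos hc
  refine h.congr_fun (fun x hx => ?_) measurableSet_Ioi
  simp only [Real.rpow_natCast, Real.rpow_one]
  rw [neg_mul]

/-- all moments on the left half-line -/
theorem neg_int (n : ℕ) {lam : ℝ} (hl : 0 < lam) :
    IntegrableOn (fun t : ℝ => t ^ n * Real.exp (-(lam * gr (-t)))) (Ioi 0) := by
  have hg := (em_int n hl).const_mul (Real.exp lam)
  refine (one_piece (f := fun t : ℝ => t ^ n * Real.exp (-(lam * gr (-t)))) ?_ hg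
    (fun t ht => by positivity) (fun t ht => ?_)).1
  · have := continuous_gr
    fun_prop
  · have h1 : t - 1 ≤ gr (-t) := by
      unfold gr
      linarith only [Real.exp_pos (-t)]
    have h2 : Real.exp (-(lam * gr (-t))) ≤ Real.exp lam * Real.exp (-(lam * t)) := by
      rw [← Real.exp_add]
      apply Real.exp_le_exp.2
      nlinarith only [hl, h1]
    have h3 : 0 ≤ t ^ n := by positivity
    have := mul_le_mul_of_nonneg_left h2 h3
    calc _ ≤ _ := this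
      _ = _ := by ring

/-- all moments on the right half-line -/
theorem pos_int (n : ℕ) {lam : ℝ} (hl : 0 < lam) :
    IntegrableOn (fun t : ℝ => t ^ n * Real.exp (-(lam * gr t))) (Ioi 0) := by
  have hg := gm_int n (c := lam / 2) (by linarith only [hl])
  refine (one_piece (f := fun t : ℝ => t ^ n * Real.exp (-(lam * gr t))) ?_ hg
    (fun t ht => by positivity) (fun t ht => ?_)).1
  · have := continuous_gr
    fun_prop
  · have h1 := gr_ge ht.le
    have h2 : Real.exp (-(lam * gr t)) ≤ Real.exp (-(lam / 2 * t ^ (2 : ℕ))) := by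
      apply Real.exp_le_exp.2
      nlinarith only [hl, h1]
    exact mul_le_mul_of_nonneg_left h2 (by positivity)

theorem E_plus {lam : ℝ} (hl : 24 / 5 ≤ lam) :
    IntegrableOn (fun u => Real.exp (-(lam * gr u))) (Ioi 0) ∧
      ∫ u in Ioi (0 : ℝ), Real.exp (-(lam * gr u)) ≤ √(Real.pi / (lam / 2)) / 2 := by
  have hl0 : 0 < lam := by linarith only [hl]
  have hg : IntegrableOn (fun u : ℝ => Real.exp (-(lam / 2 * u ^ (2 : ℕ)))) (Ioi 0) := by
    simpa using gm_int 0 (c := lam / 2) (by linarith only [hl0])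
  rw [← gm0]
  refine one_piece (f := fun t : ℝ => Real.exp (-(lam * gr t))) ?_ hg
    (fun t ht => by positivity) (fun t ht => ?_)
  · have := continuous_gr
    fun_prop
  · have h1 := gr_ge ht.le
    apply Real.exp_le_exp.2
    nlinarith only [hl0, h1]

theorem E_minus0 {lam : ℝ} (hl : 24 / 5 ≤ lam) :
    IntegrableOn (fun t => Real.exp (-(lam * gr (-t)))) (Ioi 0) ∧
      ∫ t in Ioi (0 : ℝ), Real.exp (-(lam * gr (-t))) ≤
        √(Real.pi / (lam / 2)) / 2 + 10242 / 10000 / lam := by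
  have hl0 : 0 < lam := by linarith only [hl]
  have hg : IntegrableOn (fun u : ℝ => Real.exp (-(lam / 2 * u ^ (2 : ℕ)))) (Ioi 0) := by
    simpa using gm_int 0 (c := lam / 2) (by linarith only [hl0])
  have hk := (K_minus hl).1.const_mul lam
  have hi : IntegrableOn (fun t : ℝ => Real.exp (-(lam / 2 * t ^ (2 : ℕ))) + lam * Dm lam (-t)) (Ioi 0) :=
    hg.add hk
  obtain ⟨h1, h2⟩ := one_piece (f := fun t : ℝ => Real.exp (-(lam * gr (-t)))) (by
      have := continuous_gr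
      fun_prop) hi (fun t ht => by positivity) (fun t ht => by
      have h3 := gr_neg_le ht.le
      have h4 := Real.add_one_le_exp (lam * gr (-t) - lam / 2 * t ^ (2 : ℕ))
      have h5 : Real.exp (-(lam / 2 * t ^ (2 : ℕ))) = Real.exp (lam * gr (-t) - lam / 2 * t ^ (2 : ℕ)) *
          Real.exp (-(lam * gr (-t))) := by
        rw [← Real.exp_add]
        congr 1
        ring
      have h6 : (t ^ (2 : ℕ) / 2 - gr (-t)) * Real.exp (-(lam * gr (-t))) ≤ Dm lam (-t) := by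
        unfold Dm
        apply mul_le_mul _ (le_max_left _ _) (Real.exp_pos _).le (abs_nonneg _)
        rw [abs_of_nonpos (by linarith only [h3])]
        linarith only []
      have h7 : (lam * gr (-t) - lam / 2 * t ^ (2 : ℕ) + 1) * Real.exp (-(lam * gr (-t))) ≤
          Real.exp (-(lam / 2 * t ^ (2 : ℕ))) := by
        rw [h5]
        exact mul_le_mul_of_nonneg_right h4 (Real.exp_pos _).le
      have h8 := mul_le_mul_of_nonneg_left h6 hl0.le
      linarith only [h7, h8])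
  refine ⟨h1, h2.trans ?_⟩
  have e : ∫ t in Ioi (0 : ℝ), (Real.exp (-(lam / 2 * t ^ (2 : ℕ))) + lam * Dm lam (-t)) =
      (∫ t in Ioi (0 : ℝ), Real.exp (-(lam / 2 * t ^ (2 : ℕ)))) + ∫ t in Ioi (0 : ℝ), lam * Dm lam (-t) :=
    integral_add hg hk
  rw [e, gm0, integral_const_mul]
  have h9 := mul_le_mul_of_nonneg_left (K_minus hl).2 hl0.le
  have e2 : lam * (10242 / 10000 / lam ^ (2 : ℕ)) = 10242 / 10000 / lam := by
    field_simp
  rw [e2] at h9
  linarith only [h9]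

theorem E_minus1 {lam : ℝ} (hl : 24 / 5 ≤ lam) :
    IntegrableOn (fun t => t * Real.exp (-(lam * gr (-t)))) (Ioi 0) ∧
      ∫ t in Ioi (0 : ℝ), t * Real.exp (-(lam * gr (-t))) ≤ 17 / 10 / lam := by
  have hl0 : 0 < lam := by linarith only [hl]
  have c1 : 0 < 31 / 100 * lam := by linarith only [hl0]
  have c2 : 0 < 77 / 100 * lam - 2 / 3 := by linarith only [hl]
  have i3 : IntegrableOn (fun u : ℝ => u * Real.exp (-(31 / 100 * lam * u ^ (2 : ℕ)))) (Ioi 0) := by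
    simpa using gm_int 1 c1
  have i4 := (expt_int c2 (3 / 2)).1.const_mul (3 / 2 * Real.exp (-(18 / 25 * lam)))
  obtain ⟨h1, h2⟩ := two_piece (f := fun t => t * Real.exp (-(lam * gr (-t)))) (b := 3 / 2)
    (by norm_num)
    (by
      have := continuous_gr
      fun_prop) i3 i4
    (fun t ht => by positivity) (fun t ht => by positivity)
    (fun t ht ht2 => by
      have h3 := gr_neg_near ht.le ht2
      apply mul_le_mul_of_nonneg_left _ ht.le
      apply Real.exp_le_exp.2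
      nlinarith only [c2, h3])
    (fun t ht => by
      have h3 := gr_neg_far ht.le
      have h4 := Real.add_one_le_exp (2 / 3 * (t - 3 / 2))
      have h5 : t ≤ 3 / 2 * Real.exp (2 / 3 * (t - 3 / 2)) := by linarith only [h4]
      have h6 : Real.exp (-(lam * gr (-t))) ≤
          Real.exp (-(lam * (18 / 25 + 77 / 100 * (t - 3 / 2)))) := by
        apply Real.exp_le_exp.2
        nlinarith only [c2, h3]
      calc t * Real.exp (-(lam * gr (-t))) ≤ 3 / 2 * Real.exp (2 / 3 * (t - 3 / 2)) *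
          Real.exp (-(lam * (18 / 25 + 77 / 100 * (t - 3 / 2)))) :=
            mul_le_mul h5 h6 (Real.exp_pos _).le (by positivity)
        _ = _ := by
          rw [mul_assoc, mul_assoc, ← Real.exp_add, ← Real.exp_add]
          congr 2
          ring)
  refine ⟨h1, h2.trans ?_⟩
  rw [integral_const_mul, gm1 c1, (expt_int c2 (3 / 2)).2]
  have h3 := sq_exp_le hl
  have h4 : lam * Real.exp (-(18 / 25 * lam)) ≤ 152 / 1000 := by
    have : 0 < Real.exp (-(18 / 25 * lam)) := Real.exp_pos _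
    nlinarith only [hl, h3]
  have h5 : 3 / 2 * Real.exp (-(18 / 25 * lam)) * (1 / (77 / 100 * lam - 2 / 3)) ≤
      8 / 100 / lam := by
    rw [le_div_iff₀ (by positivity), mul_one_div, div_mul_eq_mul_div, div_le_iff₀ c2]
    linarith only [hl, h4]
  have e1 : 1 / (2 * (31 / 100 * lam)) = (1 / (62 / 100)) / lam := by
    field_simp
    norm_num
  rw [e1]
  calc _ ≤ (1 / (62 / 100)) / lam + 8 / 100 / lam := by linarith only [h5]
    _ = (1 / (62 / 100) + 8 / 100) / lam := by ring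
    _ ≤ _ := by
      apply div_le_div_of_nonneg_right _ hl0.le
      norm_num

theorem hasDerivAt_egr (lam u : ℝ) :
    HasDerivAt (fun u => Real.exp (-(lam * gr u))) (-(lam * (Real.exp u - 1)) *
      Real.exp (-(lam * gr u))) u := by
  have := (((hasDerivAt_gr u).const_mul lam).neg).exp
  refine this.congr_deriv ?_
  simp only [Pi.neg_apply]
  ring

theorem hasDerivAt_egrn (lam t : ℝ) :
    HasDerivAt (fun t => Real.exp (-(lam * gr (-t)))) (-(lam * (1 - Real.exp (-t))) *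
      Real.exp (-(lam * gr (-t)))) t := by
  have := (hasDerivAt_egr lam (-t)).comp t (hasDerivAt_neg t)
  refine this.congr_deriv ?_
  ring

theorem T_plus {lam : ℝ} (hl : 24 / 5 ≤ lam) :
    IntegrableOn (fun u => gr u * Real.exp (-(lam * gr u))) (Ioi 0) ∧
      ∫ u in Ioi (0 : ℝ), gr u * Real.exp (-(lam * gr u)) ≤
        √(Real.pi / (lam / 2)) / 2 / (2 * lam) := by
  have hl0 : 0 < lam := by linarith only [hl]
  obtain ⟨i0, b0⟩ := E_plus hl
  -- the function `u (e^u - 1) e^{-λ gr u}`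
  have hP : IntegrableOn (fun u : ℝ => u * (Real.exp u - 1) * Real.exp (-(lam * gr u))) (Ioi 0) := by
    have g1 := pos_int 1 (lam := lam / 2) (by linarith only [hl0])
    have g2 := pos_int 2 (lam := lam / 2) (by linarith only [hl0])
    have g3 : IntegrableOn (fun t : ℝ => t ^ (1 : ℕ) * Real.exp (-(lam / 2 * gr t)) +
        t ^ (2 : ℕ) * Real.exp (-(lam / 2 * gr t))) (Ioi 0) := g1.add g2
    refine (one_piece (f := fun u : ℝ => u * (Real.exp u - 1) * Real.exp (-(lam * gr u))) (by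
      have := continuous_gr
      fun_prop) g3 (fun t ht => ?_) (fun t ht => ?_)).1
    · have : 1 ≤ Real.exp t := Real.one_le_exp ht.le
      have h2 : 0 < Real.exp (-(lam * gr t)) := Real.exp_pos _
      have h3 : 0 ≤ t * (Real.exp t - 1) := mul_nonneg ht.le (by linarith only [this])
      exact mul_nonneg h3 h2.le
    · have h1 : Real.exp t - 1 = gr t + t := by unfold gr; ring
      have h2 : Real.exp (-(lam * gr t)) = Real.exp (-(lam / 2 * gr t)) *
          Real.exp (-(lam / 2 * gr t)) := by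
        rw [← Real.exp_add]; congr 1; ring
      have h3 : gr t * Real.exp (-(lam / 2 * gr t)) ≤ 1 := by
        have h4 := Real.add_one_le_exp (lam / 2 * gr t)
        rw [Real.exp_neg, ← div_eq_mul_inv, div_le_one (Real.exp_pos _)]
        nlinarith only [hl, h4, gr_nonneg t]
      have h4 : Real.exp (-(lam / 2 * gr t)) ≤ 1 := by
        apply Real.exp_le_one_iff.2
        have := gr_nonneg t
        nlinarith only [hl0, this]
      have h5 : 0 < Real.exp (-(lam / 2 * gr t)) := Real.exp_pos _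
      rw [h1, h2]
      calc t * (gr t + t) * (Real.exp (-(lam / 2 * gr t)) * Real.exp (-(lam / 2 * gr t))) =
          t * Real.exp (-(lam / 2 * gr t)) * (gr t * Real.exp (-(lam / 2 * gr t))) +
          t ^ (2 : ℕ) * Real.exp (-(lam / 2 * gr t)) * Real.exp (-(lam / 2 * gr t)) := by ring
        _ ≤ t * Real.exp (-(lam / 2 * gr t)) * 1 + t ^ (2 : ℕ) * Real.exp (-(lam / 2 * gr t)) * 1 := by
            have a1 := mul_le_mul_of_nonneg_left h3 (mul_nonneg ht.le h5.le)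
            have a2 := mul_le_mul_of_nonneg_left h4 (mul_nonneg (sq_nonneg t) h5.le)
            linarith only [a1, a2]
        _ = _ := by ring
  have hd : ∀ u : ℝ, HasDerivAt (fun u => u * Real.exp (-(lam * gr u)))
      (Real.exp (-(lam * gr u)) - lam * (u * (Real.exp u - 1) * Real.exp (-(lam * gr u)))) u := by
    intro u
    refine ((hasDerivAt_id u).mul (hasDerivAt_egr lam u)).congr_deriv ?_
    simp only [id]
    ring
  have hP2 := hP.const_mul lam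
  have hDi : IntegrableOn (fun u : ℝ => Real.exp (-(lam * gr u)) -
      lam * (u * (Real.exp u - 1) * Real.exp (-(lam * gr u)))) (Ioi 0) := i0.sub hP2
  have hFi : IntegrableOn (fun u : ℝ => u * Real.exp (-(lam * gr u))) (Ioi 0) := by
    simpa using pos_int 1 hl0
  have hT := tendsto_zero_of_hasDerivAt_of_integrableOn_Ioi (a := 0) (fun x _ => hd x) hDi hFi
  have hI := integral_Ioi_of_hasDerivAt_of_tendsto' (a := 0) (fun x _ => hd x) hDi hT
  have hS : ∫ u in Ioi (0 : ℝ), (Real.exp (-(lam * gr u)) -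
      lam * (u * (Real.exp u - 1) * Real.exp (-(lam * gr u)))) =
      (∫ u in Ioi (0 : ℝ), Real.exp (-(lam * gr u))) -
      ∫ u in Ioi (0 : ℝ), lam * (u * (Real.exp u - 1) * Real.exp (-(lam * gr u))) :=
    integral_sub i0 hP2
  rw [hS, integral_const_mul] at hI
  simp only [zero_mul, sub_zero] at hI
  obtain ⟨j1, j2⟩ := one_piece (f := fun u : ℝ => gr u * Real.exp (-(lam * gr u))) (by
      have := continuous_gr
      fun_prop) (hP.const_mul (1 / 2)) (fun t ht => mul_nonneg (gr_nonneg t) (Real.exp_pos _).le)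
      (fun t ht => by
        have h1 : gr t ≤ 1 / 2 * (t * (Real.exp t - 1)) := by
          have h2 : 0 ≤ t * Real.exp t - 2 * Real.exp t + 2 + t :=
            nonneg_of_deriv (f := fun t => t * Real.exp t - 2 * Real.exp t + 2 + t)
              (f' := fun t => t * Real.exp t + 1 - Real.exp t)
              (fun x => by
                have := ((((hasDerivAt_id x).mul (Real.hasDerivAt_exp x)).sub
                  ((Real.hasDerivAt_exp x).const_mul 2)).add_const 2).add (hasDerivAt_id x)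
                refine this.congr_deriv ?_
                simp only [id]
                ring) (by norm_num) ep1 t ht.le
          unfold gr
          linarith only [h2]
        calc gr t * Real.exp (-(lam * gr t)) ≤ 1 / 2 * (t * (Real.exp t - 1)) *
            Real.exp (-(lam * gr t)) := mul_le_mul_of_nonneg_right h1 (Real.exp_pos _).le
          _ = _ := by ring)
  refine ⟨j1, j2.trans ?_⟩
  rw [integral_const_mul, le_div_iff₀ (by positivity)]
  linarith only [b0, hI]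

theorem pade {t : ℝ} (ht : 0 ≤ t) : gr (-t) ≤ (t / 2 + t ^ (2 : ℕ) / 12) * (1 - Real.exp (-t)) := by
  have h3 : ∀ x, 0 ≤ x → 0 ≤ 1 / 6 - Real.exp (-x) * (1 / 6 + x / 6 + x ^ (2 : ℕ) / 12) := by
    intro x hx
    have h4 := Real.quadratic_le_exp_of_nonneg hx
    have h5 : Real.exp (-x) * Real.exp x = 1 := by rw [← Real.exp_add]; simp
    have h6 := mul_le_mul_of_nonneg_left h4 (Real.exp_pos (-x)).le
    rw [h5] at h6
    linarith only [h6]
  have h2 : ∀ x, 0 ≤ x → 0 ≤ -(1 / 2) + x / 6 + Real.exp (-x) * (1 / 2 + x / 3 + x ^ (2 : ℕ) / 12) := by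
    intro x hx
    refine nonneg_of_deriv
      (f := fun x => -(1 / 2) + x / 6 + Real.exp (-x) * (1 / 2 + x / 3 + x ^ (2 : ℕ) / 12))
      (f' := fun x => 1 / 6 - Real.exp (-x) * (1 / 6 + x / 6 + x ^ (2 : ℕ) / 12)) (fun y => ?_)
      (by norm_num) h3 x hx
    have a1 : HasDerivAt (fun y : ℝ => 1 / 2 + y / 3 + y ^ (2 : ℕ) / 12) (1 / 3 + y / 6) y := by
      have := (((hasDerivAt_id y).div_const 3).const_add (1 / 2)).add (hasDerivAt_pw 1 12 y)
      refine this.congr_deriv ?_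
      norm_num
      ring
    have := (((hasDerivAt_id y).div_const 6).const_add (-(1 / 2))).add
      ((hasDerivAt_expneg y).mul a1)
    refine this.congr_deriv ?_
    ring
  have h1 : 0 ≤ (1 + t / 2 + t ^ (2 : ℕ) / 12) * (1 - Real.exp (-t)) - t := by
    refine nonneg_of_deriv
      (f := fun t => (1 + t / 2 + t ^ (2 : ℕ) / 12) * (1 - Real.exp (-t)) - t)
      (f' := fun x => -(1 / 2) + x / 6 + Real.exp (-x) * (1 / 2 + x / 3 + x ^ (2 : ℕ) / 12)) (fun y => ?_)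
      (by norm_num) h2 t ht
    have a1 : HasDerivAt (fun y : ℝ => 1 + y / 2 + y ^ (2 : ℕ) / 12) (1 / 2 + y / 6) y := by
      have := (((hasDerivAt_id y).div_const 2).const_add 1).add (hasDerivAt_pw 1 12 y)
      refine this.congr_deriv ?_
      norm_num
      ring
    have := (a1.mul ((hasDerivAt_expneg y).const_sub 1)).sub (hasDerivAt_id y)
    refine this.congr_deriv ?_
    ring
  unfold gr
  linarith only [h1]

theorem T_minus {lam : ℝ} (hl : 24 / 5 ≤ lam) :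
    IntegrableOn (fun t => gr (-t) * Real.exp (-(lam * gr (-t)))) (Ioi 0) ∧
      ∫ t in Ioi (0 : ℝ), gr (-t) * Real.exp (-(lam * gr (-t))) ≤
        √(Real.pi / (lam / 2)) / 2 / (2 * lam) + 8 / 10 / lam ^ (2 : ℕ) := by
  have hl0 : 0 < lam := by linarith only [hl]
  obtain ⟨i0, b0⟩ := E_minus0 hl
  obtain ⟨i1, b1⟩ := E_minus1 hl
  have i2 : IntegrableOn (fun t : ℝ => t * Real.exp (-(lam * gr (-t)))) (Ioi 0) := i1
  have i3 := neg_int 2 hl0
  have iF : IntegrableOn (fun t : ℝ => (t / 2 + t ^ (2 : ℕ) / 12) * Real.exp (-(lam * gr (-t)))) (Ioi 0) := by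
    have := (i2.const_mul (1 / 2)).add (i3.const_mul (1 / 12))
    refine IntegrableOn.congr_fun this (fun x _ => ?_) measurableSet_Ioi
    simp only [Pi.add_apply]
    ring
  have hP : IntegrableOn (fun t : ℝ => (t / 2 + t ^ (2 : ℕ) / 12) * (1 - Real.exp (-t)) *
      Real.exp (-(lam * gr (-t)))) (Ioi 0) := by
    refine (one_piece (f := fun t : ℝ => (t / 2 + t ^ (2 : ℕ) / 12) * (1 - Real.exp (-t)) *
      Real.exp (-(lam * gr (-t)))) (by
      have := continuous_gr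
      fun_prop) iF (fun t ht => ?_) (fun t ht => ?_)).1
    · have h1 := en1 t ht.le
      have h2 : 0 < Real.exp (-(lam * gr (-t))) := Real.exp_pos _
      have h3 : 0 ≤ t / 2 + t ^ (2 : ℕ) / 12 := by positivity
      exact mul_nonneg (mul_nonneg h3 h1) h2.le
    · have h2 : 0 < Real.exp (-(lam * gr (-t))) := Real.exp_pos _
      have h3 : 0 ≤ t / 2 + t ^ (2 : ℕ) / 12 := by positivity
      apply mul_le_mul_of_nonneg_right _ h2.le
      have := mul_le_mul_of_nonneg_left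
        (show 1 - Real.exp (-t) ≤ 1 by linarith only [Real.exp_pos (-t)]) h3
      linarith only [this]
  have iG : IntegrableOn (fun t : ℝ => (1 / 2 + t / 6) * Real.exp (-(lam * gr (-t)))) (Ioi 0) := by
    have := (i0.const_mul (1 / 2)).add (i2.const_mul (1 / 6))
    refine IntegrableOn.congr_fun this (fun x _ => ?_) measurableSet_Ioi
    simp only [Pi.add_apply]
    ring
  have hd : ∀ t : ℝ, HasDerivAt (fun t => (t / 2 + t ^ (2 : ℕ) / 12) * Real.exp (-(lam * gr (-t))))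
      ((1 / 2 + t / 6) * Real.exp (-(lam * gr (-t))) - lam * ((t / 2 + t ^ (2 : ℕ) / 12) *
        (1 - Real.exp (-t)) * Real.exp (-(lam * gr (-t))))) t := by
    intro t
    have a1 : HasDerivAt (fun y : ℝ => y / 2 + y ^ (2 : ℕ) / 12) (1 / 2 + t / 6) t := by
      have := ((hasDerivAt_id t).div_const 2).add (hasDerivAt_pw 1 12 t)
      refine this.congr_deriv ?_
      norm_num
      ring
    refine (a1.mul (hasDerivAt_egrn lam t)).congr_deriv ?_
    ring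
  have hP2 := hP.const_mul lam
  have hDi : IntegrableOn (fun t : ℝ => (1 / 2 + t / 6) * Real.exp (-(lam * gr (-t))) -
      lam * ((t / 2 + t ^ (2 : ℕ) / 12) * (1 - Real.exp (-t)) * Real.exp (-(lam * gr (-t))))) (Ioi 0) :=
    iG.sub hP2
  have hT := tendsto_zero_of_hasDerivAt_of_integrableOn_Ioi (a := 0) (fun x _ => hd x) hDi iF
  have hI := integral_Ioi_of_hasDerivAt_of_tendsto' (a := 0) (fun x _ => hd x) hDi hT
  have hS : ∫ t in Ioi (0 : ℝ), ((1 / 2 + t / 6) * Real.exp (-(lam * gr (-t))) -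
      lam * ((t / 2 + t ^ (2 : ℕ) / 12) * (1 - Real.exp (-t)) * Real.exp (-(lam * gr (-t))))) =
      (∫ t in Ioi (0 : ℝ), (1 / 2 + t / 6) * Real.exp (-(lam * gr (-t)))) -
      ∫ t in Ioi (0 : ℝ), lam * ((t / 2 + t ^ (2 : ℕ) / 12) * (1 - Real.exp (-t)) *
        Real.exp (-(lam * gr (-t)))) :=
    integral_sub iG hP2
  rw [hS, integral_const_mul] at hI
  have hz : ((0 : ℝ) / 2 + 0 ^ (2 : ℕ) / 12) = 0 := by norm_num
  rw [hz, zero_mul, sub_zero] at hI
  have hG : ∫ t in Ioi (0 : ℝ), (1 / 2 + t / 6) * Real.exp (-(lam * gr (-t))) =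
      1 / 2 * (∫ t in Ioi (0 : ℝ), Real.exp (-(lam * gr (-t)))) +
      1 / 6 * ∫ t in Ioi (0 : ℝ), t * Real.exp (-(lam * gr (-t))) := by
    rw [← integral_const_mul, ← integral_const_mul, ← integral_add (i0.const_mul (1 / 2))
      (i2.const_mul (1 / 6))]
    refine setIntegral_congr_fun measurableSet_Ioi (fun x _ => ?_)
    ring
  obtain ⟨j1, j2⟩ := one_piece (f := fun t : ℝ => gr (-t) * Real.exp (-(lam * gr (-t)))) (by
      have := continuous_gr
      fun_prop) hP (fun t ht => mul_nonneg (gr_nonneg _) (Real.exp_pos _).le)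
      (fun t ht => mul_le_mul_of_nonneg_right (pade ht.le) (Real.exp_pos _).le)
  refine ⟨j1, j2.trans ?_⟩
  have h1 : lam * (∫ t in Ioi (0 : ℝ), (t / 2 + t ^ (2 : ℕ) / 12) * (1 - Real.exp (-t)) *
        Real.exp (-(lam * gr (-t)))) ≤
      1 / 2 * (√(Real.pi / (lam / 2)) / 2 + 10242 / 10000 / lam) + 1 / 6 * (17 / 10 / lam) := by
    linarith only [b0, b1, hI, hG]
  have e1 : √(Real.pi / (lam / 2)) / 2 / (2 * lam) + 8 / 10 / lam ^ (2 : ℕ) =
      (1 / 2 * (√(Real.pi / (lam / 2)) / 2) + 8 / 10 / lam) / lam := by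
    field_simp
  rw [e1, le_div_iff₀ hl0]
  have h2 : 1 / 2 * (10242 / 10000 / lam) + 1 / 6 * (17 / 10 / lam) ≤ 8 / 10 / lam := by
    have : 1 / 2 * (10242 / 10000 / lam) + 1 / 6 * (17 / 10 / lam) =
      (1 / 2 * (10242 / 10000) + 1 / 6 * (17 / 10)) / lam := by ring
    rw [this]
    apply div_le_div_of_nonneg_right _ hl0.le
    norm_num
  linarith only [h1, h2]

end SokamTI

end

/-! ### Lib_MP_af4de1_ti.LineL -/

section
/-!
# The left saddle integral: `‖JL - jL‖ ≤ relL ‖jL‖`, `‖JL1‖ ≤ bL ‖JL‖`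
-/

set_option autoImplicit false

namespace SokamTI

open Complex MeasureTheory Set Filter Topology

theorem norm_expL {δ : ℝ} (hδ : 0 < δ) (h : ℂ) (u : ℝ) :
    ‖cexp (Ev δ h u)‖ = Real.exp (-(-h.im / δ * gr u)) := by
  rw [norm_exp_Ev hδ, ht_real]
  congr 1
  ring

theorem norm_exp2L {δ : ℝ} (hδ : 0 < δ) (h : ℂ) (u : ℝ) :
    ‖cexp (Ev2 δ h u)‖ = Real.exp (-(-h.im / δ * (u ^ (2 : ℕ) / 2))) := by
  rw [norm_exp_Ev2 hδ]
  have e : ((1 - h) * ((u : ℂ) ^ (2 : ℕ) / 2)).im = -h.im * (u ^ (2 : ℕ) / 2) := by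
    have e1 : (1 - h) * ((u : ℂ) ^ (2 : ℕ) / 2) = ((u ^ (2 : ℕ) / 2 : ℝ) : ℂ) * (1 - h) := by
      push_cast; ring
    rw [e1, Complex.im_ofReal_mul]
    simp
    ring
  rw [e]
  congr 1
  ring

theorem diff_le {δ : ℝ} (hδ : 0 < δ) (h : ℂ) (u : ℝ) :
    ‖cexp (Ev δ h u) - cexp (Ev2 δ h u)‖ ≤ ‖h‖ / δ * Dm (-h.im / δ) u := by
  have h1 := norm_exp_sub_exp_le (Ev δ h u) (Ev2 δ h u)
    (M := max (Real.exp (-(-h.im / δ * gr u))) (Real.exp (-(-h.im / δ * (u ^ (2 : ℕ) / 2)))))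
    (by rw [norm_expL hδ]; exact le_max_left _ _) (by rw [norm_exp2L hδ]; exact le_max_right _ _)
  refine h1.trans (le_of_eq ?_)
  rw [norm_Ev_sub_Ev2 hδ]
  have e : gg (u : ℂ) - (u : ℂ) ^ (2 : ℕ) / 2 = ((gr u - u ^ (2 : ℕ) / 2 : ℝ) : ℂ) := by
    rw [gg_real]; push_cast; ring
  rw [e, Complex.norm_real, Real.norm_eq_abs]
  unfold Dm
  ring

theorem Dm_line {lam : ℝ} (hl : 24 / 5 ≤ lam) :
    Integrable (Dm lam) ∧ ∫ u, Dm lam u ≤ 14745 / 10000 / lam ^ (2 : ℕ) := by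
  obtain ⟨a1, a2⟩ := K_plus hl
  obtain ⟨b1, b2⟩ := K_minus hl
  obtain ⟨c1, c2⟩ := split_line a1 b1
  refine ⟨c1, ?_⟩
  rw [c2]
  have : (14745 / 10000 : ℝ) / lam ^ (2 : ℕ) = 4503 / 10000 / lam ^ (2 : ℕ) + 10242 / 10000 / lam ^ (2 : ℕ) := by ring
  rw [this]
  exact add_le_add a2 b2

theorem gauss_L {δ : ℝ} (hδ : 0 < δ) {h : ℂ} (hs : h.im < 0) :
    Integrable (fun u : ℝ => cexp (Ev2 δ h u)) ∧ ∫ u : ℝ, cexp (Ev2 δ h u) = jL δ h := by
  set b : ℂ := -(I * (1 - h)) / (2 * δ) with hb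
  have hre : 0 < b.re := by
    have e1 : b = ((1 / (2 * δ) : ℝ) : ℂ) * (-(I * (1 - h))) := by
      rw [hb]; push_cast; ring
    rw [e1, Complex.re_ofReal_mul]
    have e2 : (-(I * (1 - h))).re = -h.im := by
      simp [Complex.mul_re]
    rw [e2]
    have : 0 < 1 / (2 * δ) := by positivity
    exact mul_pos this (by linarith only [hs])
  have hd : (δ : ℂ) ≠ 0 := by exact_mod_cast hδ.ne'
  have e : (fun u : ℝ => cexp (Ev2 δ h u)) = fun u : ℝ => cexp (-b * (u : ℂ) ^ (2 : ℕ)) := by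
    ext u
    congr 1
    rw [hb]
    unfold Ev2
    field_simp
  rw [e]
  refine ⟨integrable_cexp_neg_mul_sq hre, ?_⟩
  rw [integral_gaussian_complex hre]
  unfold jL
  congr 1
  rw [hb]
  have : -(I * (1 - h)) ≠ 0 := by
    intro h0
    rw [hb, h0] at hre
    simp at hre
  field_simp

theorem norm_half_pow (z : ℂ) (hz : z ≠ 0) : ‖z ^ (1 / 2 : ℂ)‖ = √‖z‖ := by
  rw [Complex.norm_cpow_of_ne_zero hz, Real.sqrt_eq_rpow]
  simp

theorem one_sub_ne {h : ℂ} (hs : h.im ≠ 0) : 1 - h ≠ 0 := by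
  intro h0
  apply hs
  have : h = 1 := by linear_combination -h0
  rw [this]; simp

theorem norm_jL_aux {δ : ℝ} (hδ : 0 < δ) {h : ℂ} (hs : h.im < 0) :
    ‖jL δ h‖ = √(2 * Real.pi * δ / ‖1 - h‖) := by
  have h1 := one_sub_ne hs.ne
  unfold jL
  have h2 : (2 * Real.pi * δ / (-(I * (1 - h))) : ℂ) ≠ 0 := by
    apply div_ne_zero
    · have : (0 : ℝ) < 2 * Real.pi * δ := by positivity
      exact_mod_cast this.ne'
    · exact neg_ne_zero.2 (mul_ne_zero I_ne_zero h1)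
  have : (0 : ℝ) < 2 * Real.pi * δ := by (clear * - hδ; positivity)
  rw [norm_half_pow _ h2, norm_div, norm_neg, norm_mul I, Complex.norm_I, one_mul,
    show (2 * Real.pi * δ : ℂ) = ((2 * Real.pi * δ : ℝ) : ℂ) by push_cast; ring, Complex.norm_real,
    Real.norm_eq_abs, abs_of_pos this]

theorem JL_int {δ : ℝ} (hδ : 0 < δ) {h : ℂ} (hs : h.im < 0) (hl : 24 / 5 ≤ -h.im / δ) :
    Integrable (fun u : ℝ => cexp (Ev δ h u)) := by
  obtain ⟨a1, _⟩ := gauss_L hδ hs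
  have b1 := (Dm_line hl).1.const_mul (‖h‖ / δ)
  have c1 : Integrable (fun u : ℝ => cexp (Ev δ h u) - cexp (Ev2 δ h u)) := by
    refine Integrable.mono' b1 ?_ (Eventually.of_forall fun u => diff_le hδ h u)
    have e1 := continuous_Ev δ h
    have e2 := continuous_Ev2 δ h
    exact Continuous.aestronglyMeasurable (by fun_prop)
  have := c1.add a1
  refine this.congr (Eventually.of_forall fun u => ?_)
  simp

/-- the left saddle, first part -/
theorem JL_bound {δ : ℝ} (hδ : 0 < δ) {h : ℂ} (hs : h.im < 0) (hl : 24 / 5 ≤ -h.im / δ) :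
    ‖JL δ h - jL δ h‖ ≤ relL h δ * ‖jL δ h‖ := by
  obtain ⟨a1, a2⟩ := gauss_L hδ hs
  have a3 := JL_int hδ hs hl
  obtain ⟨b1, b2⟩ := Dm_line hl
  have h1 : JL δ h - jL δ h = ∫ u : ℝ, (cexp (Ev δ h u) - cexp (Ev2 δ h u)) := by
    rw [integral_sub a3 a1, a2]
    unfold JL JLw
    simp only [one_mul]
  have h2 : ‖JL δ h - jL δ h‖ ≤ ‖h‖ / δ * (14745 / 10000 / (-h.im / δ) ^ (2 : ℕ)) := by
    rw [h1]
    calc ‖∫ u : ℝ, (cexp (Ev δ h u) - cexp (Ev2 δ h u))‖ ≤ ∫ u : ℝ, ‖h‖ / δ * Dm (-h.im / δ) u :=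
          norm_integral_le_of_norm_le (b1.const_mul _) (Eventually.of_forall fun u => diff_le hδ h u)
      _ = ‖h‖ / δ * ∫ u : ℝ, Dm (-h.im / δ) u := integral_const_mul _ _
      _ ≤ _ := mul_le_mul_of_nonneg_left b2 (by (clear * - hδ; positivity))
  refine h2.trans ?_
  rw [norm_jL_aux hδ hs]
  have hm : 0 < ‖1 - h‖ := norm_pos_iff.2 (one_sub_ne hs.ne)
  have e1 : √(‖1 - h‖ * δ) * √(2 * Real.pi * δ / ‖1 - h‖) = √(2 * Real.pi) * δ := by
    rw [← Real.sqrt_mul (by (clear * - hm hδ; positivity))]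
    rw [show ‖1 - h‖ * δ * (2 * Real.pi * δ / ‖1 - h‖) = 2 * Real.pi * δ ^ (2 : ℕ) by field_simp]
    rw [Real.sqrt_mul (by positivity), Real.sqrt_sq hδ.le]
  have e2 : relL h δ * √(2 * Real.pi * δ / ‖1 - h‖) =
      599 / 1000 * √(2 * Real.pi) * (‖h‖ * δ / h.im ^ (2 : ℕ)) := by
    unfold relL
    calc _ = 599 / 1000 * ‖h‖ * (√(‖1 - h‖ * δ) * √(2 * Real.pi * δ / ‖1 - h‖)) / h.im ^ (2 : ℕ) := by ring
      _ = _ := by rw [e1]; ring
  rw [e2]
  have hs2 : 0 < h.im ^ (2 : ℕ) := by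
    have := hs.ne
    (clear * - this; positivity)
  have e3 : ‖h‖ / δ * (14745 / 10000 / (-h.im / δ) ^ (2 : ℕ)) = 14745 / 10000 * (‖h‖ * δ / h.im ^ (2 : ℕ)) := by
    field_simp
  rw [e3]
  apply mul_le_mul_of_nonneg_right _ (by (clear * - hδ hs2; positivity))
  have h5 : (2506 / 1000 : ℝ) ≤ √(2 * Real.pi) := by
    apply Real.le_sqrt_of_sq_le
    have := Real.pi_gt_d4
    norm_num at this ⊢
    linarith only [this]
  linarith only [h5]

theorem T_line {lam : ℝ} (hl : 24 / 5 ≤ lam) :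
    Integrable (fun u => gr u * Real.exp (-(lam * gr u))) ∧
      ∫ u, gr u * Real.exp (-(lam * gr u)) ≤
        √(Real.pi / (lam / 2)) / 2 / lam + 8 / 10 / lam ^ (2 : ℕ) := by
  have hl0 : 0 < lam := by linarith only [hl]
  obtain ⟨a1, a2⟩ := T_plus hl
  obtain ⟨b1, b2⟩ := T_minus hl
  obtain ⟨c1, c2⟩ := split_line a1 b1
  refine ⟨c1, ?_⟩
  rw [c2]
  have : √(Real.pi / (lam / 2)) / 2 / lam = √(Real.pi / (lam / 2)) / 2 / (2 * lam) +
      √(Real.pi / (lam / 2)) / 2 / (2 * lam) := by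
    field_simp
    ring
  rw [this]
  linarith only [a2, b2]

theorem uexp_int {δ : ℝ} (hδ : 0 < δ) {h : ℂ} (hs : h.im < 0) :
    Integrable (fun u : ℝ => (u : ℂ) * cexp (Ev δ h u)) := by
  have hl : 0 < -h.im / δ := div_pos (by linarith only [hs]) hδ
  have hc := continuous_Ev δ h
  have hcr := continuous_gr
  have h1 : Integrable (fun u : ℝ => |u| * Real.exp (-(-h.im / δ * gr u))) := by
    refine (split_line (f := fun u : ℝ => |u| * Real.exp (-(-h.im / δ * gr u))) ?_ ?_).1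
    · refine (pos_int 1 hl).congr_fun (fun x hx => ?_) measurableSet_Ioi
      simp only [pow_one]
      rw [abs_of_pos hx]
    · refine (neg_int 1 hl).congr_fun (fun x hx => ?_) measurableSet_Ioi
      simp only [pow_one]
      rw [abs_neg, abs_of_pos hx]
  refine Integrable.mono' h1 (Continuous.aestronglyMeasurable (by fun_prop))
    (Eventually.of_forall fun u => ?_)
  rw [norm_mul, norm_expL hδ, Complex.norm_real, Real.norm_eq_abs]

theorem gexp_int {δ : ℝ} (hδ : 0 < δ) {h : ℂ} (hl : 24 / 5 ≤ -h.im / δ) :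
    Integrable (fun u : ℝ => gg (u : ℂ) * cexp (Ev δ h u)) := by
  have hc := continuous_Ev δ h
  have hcr := continuous_gg
  refine Integrable.mono' (T_line hl).1 (Continuous.aestronglyMeasurable (by fun_prop))
    (Eventually.of_forall fun u => ?_)
  rw [norm_mul, norm_expL hδ, gg_real, Complex.norm_real, Real.norm_eq_abs,
    abs_of_nonneg (gr_nonneg u)]

theorem partsL {δ : ℝ} (hδ : 0 < δ) {h : ℂ} (hs : h.im < 0) (hl : 24 / 5 ≤ -h.im / δ) :
    (1 - h) * JL1 δ h = h * ∫ u : ℝ, gg (u : ℂ) * cexp (Ev δ h u) := by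
  have i1 := uexp_int hδ hs
  have i2 := gexp_int hδ hl
  have hd : ∀ u : ℝ, HasDerivAt (fun u : ℝ => cexp (Ev δ h u))
      (I / δ * ((1 - h) * ((u : ℂ) * cexp (Ev δ h u)) - h * (gg (u : ℂ) * cexp (Ev δ h u)))) u := by
    intro u
    have h1 := ((hasDerivAt_Ev δ h (u : ℂ)).comp_ofReal).cexp
    refine h1.congr_deriv ?_
    ring
  have h2 : Integrable (fun u : ℝ => I / δ * ((1 - h) * ((u : ℂ) * cexp (Ev δ h u)) -
      h * (gg (u : ℂ) * cexp (Ev δ h u)))) :=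
    ((i1.const_mul (1 - h)).sub (i2.const_mul h)).const_mul _
  have h3 := integral_eq_zero_of_hasDerivAt_of_integrable hd h2 (JL_int hδ hs hl)
  rw [integral_const_mul] at h3
  have h4 : (I / δ : ℂ) ≠ 0 := div_ne_zero I_ne_zero (by exact_mod_cast hδ.ne')
  have h5 := (mul_eq_zero.1 h3).resolve_left h4
  rw [integral_sub (i1.const_mul (1 - h)) (i2.const_mul h), integral_const_mul, integral_const_mul] at h5
  unfold JL1 JLw
  simp only [id]
  linear_combination h5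

/-- the left saddle, second part -/
theorem JL1_bound {δ : ℝ} (hδ : 0 < δ) {h : ℂ} (hs : h.im < 0) (hl : 24 / 5 ≤ -h.im / δ)
    (hr : relL h δ < 1) : ‖JL1 δ h‖ ≤ bL h δ * ‖JL δ h‖ := by
  have hm : 0 < ‖1 - h‖ := norm_pos_iff.2 (one_sub_ne hs.ne)
  set s : ℝ := -h.im with hsdef
  have hs0 : 0 < s := by rw [hsdef]; linarith only [hs]
  obtain ⟨b1, b2⟩ := T_line hl
  have h1 : ‖∫ u : ℝ, gg (u : ℂ) * cexp (Ev δ h u)‖ ≤
      √(Real.pi / (s / δ / 2)) / 2 / (s / δ) + 8 / 10 / (s / δ) ^ (2 : ℕ) := by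
    refine (norm_integral_le_of_norm_le b1 (Eventually.of_forall fun u => ?_)).trans b2
    rw [norm_mul, norm_expL hδ, gg_real, Complex.norm_real, Real.norm_eq_abs,
      abs_of_nonneg (gr_nonneg u)]
  have h2 : ‖1 - h‖ * ‖JL1 δ h‖ ≤
      ‖h‖ * (√(Real.pi / (s / δ / 2)) / 2 / (s / δ) + 8 / 10 / (s / δ) ^ (2 : ℕ)) := by
    rw [← norm_mul, partsL hδ hs hl, norm_mul]
    exact mul_le_mul_of_nonneg_left h1 (norm_nonneg _)
  have h3 : (1 - relL h δ) * ‖jL δ h‖ ≤ ‖JL δ h‖ := by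
    have h4 := JL_bound hδ hs hl
    have h5 := norm_sub_norm_le (jL δ h) (JL δ h)
    rw [norm_sub_rev] at h5
    linarith only [h4, h5]
  have hr0 : 0 < 1 - relL h δ := by linarith only [hr]
  set B : ℝ := ‖h‖ / √‖1 - h‖ * (δ / (2 * (s * √s)) + 399 / 1000 * (δ * √δ) / h.im ^ (2 : ℕ)) with hB
  have hB0 : 0 ≤ B := by (clear * - hm hδ hs0; positivity)
  have hbL : bL h δ = B / (1 - relL h δ) := rfl
  have h6 : B * ‖jL δ h‖ ≤ bL h δ * ‖JL δ h‖ := by
    rw [hbL, div_mul_eq_mul_div, le_div_iff₀ hr0]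
    have := mul_le_mul_of_nonneg_left h3 hB0
    linarith only [this]
  refine le_trans ?_ h6
  rw [norm_jL_aux hδ hs]
  -- `B √(2πδ/m) m = ‖h‖ (…) √(2πδ)`
  have hsm : 0 < √‖1 - h‖ := Real.sqrt_pos.2 hm
  have hss : 0 < √s := Real.sqrt_pos.2 hs0
  have hsd : 0 < √δ := Real.sqrt_pos.2 hδ
  have q1 : √‖1 - h‖ ^ (2 : ℕ) = ‖1 - h‖ := Real.sq_sqrt hm.le
  have q2 : √s ^ (2 : ℕ) = s := Real.sq_sqrt hs0.le
  have q3 : √δ ^ (2 : ℕ) = δ := Real.sq_sqrt hδ.le
  have e1 : √(2 * Real.pi * δ / ‖1 - h‖) = √(2 * Real.pi) * √δ / √‖1 - h‖ := by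
    rw [Real.sqrt_div (by (clear * - hδ; positivity)), Real.sqrt_mul (by positivity)]
  have e2 : √(Real.pi / (s / δ / 2)) = √(2 * Real.pi) * √δ / √s := by
    rw [show Real.pi / (s / δ / 2) = 2 * Real.pi * δ / s by field_simp,
      Real.sqrt_div (by (clear * - hδ; positivity)), Real.sqrt_mul (by positivity)]
  rw [e1]
  rw [e2] at h2
  have h7 : (2506 / 1000 : ℝ) ≤ √(2 * Real.pi) := by
    apply Real.le_sqrt_of_sq_le
    have := Real.pi_gt_d4
    norm_num at this ⊢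
    linarith only [this]
  have him : h.im ^ (2 : ℕ) = s ^ (2 : ℕ) := by rw [hsdef]; ring
  have e3 : B * (√(2 * Real.pi) * √δ / √‖1 - h‖) =
      ‖h‖ / ‖1 - h‖ * (√(2 * Real.pi) * √δ * δ / (2 * (s * √s)) +
        399 / 1000 * √(2 * Real.pi) * (δ ^ (2 : ℕ) / s ^ (2 : ℕ))) := by
    rw [hB, him]
    have : ‖h‖ / √‖1 - h‖ * (δ / (2 * (s * √s)) + 399 / 1000 * (δ * √δ) / s ^ (2 : ℕ)) *
        (√(2 * Real.pi) * √δ / √‖1 - h‖) =
        ‖h‖ / √‖1 - h‖ ^ (2 : ℕ) * (√(2 * Real.pi) * √δ * δ / (2 * (s * √s)) +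
        399 / 1000 * √(2 * Real.pi) * (δ * √δ ^ (2 : ℕ) / s ^ (2 : ℕ))) := by
      field_simp
    rw [this, q1, q3]
    ring
  rw [e3, div_mul_eq_mul_div, le_div_iff₀ hm, mul_comm]
  refine h2.trans (mul_le_mul_of_nonneg_left ?_ (norm_nonneg _))
  have e4 : √(2 * Real.pi) * √δ / √s / 2 / (s / δ) = √(2 * Real.pi) * √δ * δ / (2 * (s * √s)) := by
    field_simp
  have e5 : 8 / 10 / (s / δ) ^ (2 : ℕ) = 8 / 10 * (δ ^ (2 : ℕ) / s ^ (2 : ℕ)) := by
    field_simp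
  rw [e4, e5]
  have h8 : 8 / 10 * (δ ^ (2 : ℕ) / s ^ (2 : ℕ)) ≤ 399 / 1000 * √(2 * Real.pi) * (δ ^ (2 : ℕ) / s ^ (2 : ℕ)) := by
    apply mul_le_mul_of_nonneg_right _ (by (clear * - hδ hs0; positivity))
    linarith only [h7]
  linarith only [h8]

end SokamTI

end

/-! ### Lib_MP_af4de1_ti.CEx -/

section
/-!
# Fixed point complex exponential for the tip certificate (piece for helper48)

`cE x y` is `2^40 e^p`, `p = (x + iy)/2^20`, up to `2^14`, for `|p| ≤ 9/2`.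
PROOF. `U_m` (`cU`) satisfies `|U_m - 2^40 p^m/m!| ≤ e_m`, `e_(m+1) ≤ (9/2) e_m/(m+1) + 2`, `e_0 = 0`, so
`∑_(m<36) e_m ≤ 162`; the tail of the exponential series from `36` on is `≤ 2 (9/2)^36/36!`, negligible.
`cEf` is the loop for the kernel.
-/

set_option autoImplicit false

namespace SokamTI

open Finset

/-- rounded `2^40 p^m / m!`, `p = (x + i y) / 2^20` -/
def cU (x y : ℤ) : ℕ → ℤ × ℤ
  | 0 => (2 ^ (40 : ℕ), 0)
  | m + 1 => (((cU x y m).1 * x - (cU x y m).2 * y) / (2 ^ (20 : ℕ) * ((m : ℤ) + 1)),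
      ((cU x y m).1 * y + (cU x y m).2 * x) / (2 ^ (20 : ℕ) * ((m : ℤ) + 1)))

/-- rounded `2^40 e^p` -/
def cE (x y : ℤ) : ℤ × ℤ := (∑ m ∈ range 36, (cU x y m).1, ∑ m ∈ range 36, (cU x y m).2)

/-- the loop: `k` steps, `m` the index, `(a, b)` the term, `(s, t)` the sum -/
def cloop (x y : ℤ) (k : ℕ) : ℤ → ℤ → ℤ → ℤ → ℤ → ℤ × ℤ :=
  Nat.rec (fun _ _ _ s t => (s, t))
    (fun _ ih m a b s t => ih (m + 1) ((a * x - b * y) / (2 ^ (20 : ℕ) * (m + 1))) ((a * y + b * x) / (2 ^ (20 : ℕ) * (m + 1)))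
      (s + a) (t + b)) k

/-- `cE`, fast -/
def cEf (x y : ℤ) : ℤ × ℤ := cloop x y 36 0 (2 ^ (40 : ℕ)) 0 0 0

/-- invariant of the loop: started at index `m` with the term `U_m` and the sum of the terms before `m` -/
theorem cloop_inv (x y : ℤ) : ∀ k m : ℕ,
    cloop x y k (m : ℤ) (cU x y m).1 (cU x y m).2 (∑ j ∈ range m, (cU x y j).1) (∑ j ∈ range m, (cU x y j).2) =
      (∑ j ∈ range (m + k), (cU x y j).1, ∑ j ∈ range (m + k), (cU x y j).2) := by
  intro k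
  induction k with
  | zero => intro m; simp [cloop]
  | succ k ih =>
    intro m
    have h1 := ih (m + 1)
    rw [show m + 1 + k = m + (k + 1) by ring] at h1
    rw [← h1]
    rw [Finset.sum_range_succ (fun j => (cU x y j).1) m, Finset.sum_range_succ (fun j => (cU x y j).2) m]
    show cloop x y k ((m : ℤ) + 1) _ _ _ _ = _
    push_cast
    rfl

theorem cEf_eq (x y : ℤ) : cEf x y = cE x y := by
  have h := cloop_inv x y 36 0
  simp only [Finset.range_zero, Finset.sum_empty, Nat.cast_zero, zero_add] at h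
  exact h

/-- floor division is off by at most one -/
theorem ediv_near (a b : ℤ) (hb : 0 < b) : |(((a / b : ℤ) : ℝ)) - (a : ℝ) / b| ≤ 1 := by
  have h1 := Int.emod_add_mul_ediv a b
  have h2 := Int.emod_nonneg a hb.ne'
  have h3 := Int.emod_lt_of_pos a hb
  have hbR : (0 : ℝ) < b := by exact_mod_cast hb
  have h4 : (a : ℝ) = ((a % b : ℤ) : ℝ) + (b : ℝ) * ((a / b : ℤ) : ℝ) := by exact_mod_cast h1.symm
  have h5 : (0 : ℝ) ≤ ((a % b : ℤ) : ℝ) := by exact_mod_cast h2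
  have h6 : ((a % b : ℤ) : ℝ) < b := by exact_mod_cast h3
  have h7 : (a : ℝ) / b = ((a % b : ℤ) : ℝ) / b + ((a / b : ℤ) : ℝ) := by
    rw [h4]; field_simp
  rw [h7, abs_le]
  have h8 : ((a % b : ℤ) : ℝ) / b < 1 := by rw [div_lt_one hbR]; exact h6
  have h9 : 0 ≤ ((a % b : ℤ) : ℝ) / b := by (clear * - h2 hb; positivity)
  constructor <;> linarith

/-- the pair of integers as a complex number -/
noncomputable def cV (z : ℤ × ℤ) : ℂ := (z.1 : ℂ) + (z.2 : ℂ) * Complex.I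

/-- the numeric error sequence -/
def eN : ℕ → ℚ
  | 0 => 0
  | m + 1 => 9 / 2 * eN m / (m + 1) + 2

theorem eN_nonneg : ∀ m, 0 ≤ eN m := by
  intro m
  induction m with
  | zero => simp [eN]
  | succ m ih => unfold eN; positivity

theorem eN_sum : ∑ m ∈ range 36, eN m ≤ 162 := by
  decide +kernel

theorem cU_step (x y : ℤ) (m : ℕ) :
    ‖cV (cU x y (m + 1)) - cV (cU x y m) * (((x : ℂ) + (y : ℂ) * Complex.I) / 2 ^ (20 : ℕ)) / ((m : ℂ) + 1)‖ ≤ 2 := by
  set a := (cU x y m).1 with ha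
  set b := (cU x y m).2 with hb
  have hpos : (0 : ℤ) < 2 ^ (20 : ℕ) * ((m : ℤ) + 1) := by (clear * -; positivity)
  have h1 := ediv_near (a * x - b * y) (2 ^ (20 : ℕ) * ((m : ℤ) + 1)) hpos
  have h2 := ediv_near (a * y + b * x) (2 ^ (20 : ℕ) * ((m : ℤ) + 1)) hpos
  have e1 : cV (cU x y (m + 1)) - cV (cU x y m) * (((x : ℂ) + (y : ℂ) * Complex.I) / 2 ^ (20 : ℕ)) / ((m : ℂ) + 1) =
      (((((a * x - b * y) / (2 ^ (20 : ℕ) * ((m : ℤ) + 1)) : ℤ) : ℝ) - ((a * x - b * y : ℤ) : ℝ) / ((2 ^ (20 : ℕ) * ((m : ℤ) + 1) : ℤ) : ℝ) : ℝ) : ℂ) +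
      (((((a * y + b * x) / (2 ^ (20 : ℕ) * ((m : ℤ) + 1)) : ℤ) : ℝ) - ((a * y + b * x : ℤ) : ℝ) / ((2 ^ (20 : ℕ) * ((m : ℤ) + 1) : ℤ) : ℝ) : ℝ) : ℂ) *
        Complex.I := by
    have hm : ((m : ℂ) + 1) ≠ 0 := by exact_mod_cast Nat.succ_ne_zero m
    have h3 : cV (cU x y (m + 1)) = (((a * x - b * y) / (2 ^ (20 : ℕ) * ((m : ℤ) + 1)) : ℤ) : ℂ) +
        (((a * y + b * x) / (2 ^ (20 : ℕ) * ((m : ℤ) + 1)) : ℤ) : ℂ) * Complex.I := rfl
    rw [h3]
    have h4 : cV (cU x y m) = (a : ℂ) + (b : ℂ) * Complex.I := rfl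
    rw [h4]
    generalize ((a * x - b * y) / (2 ^ (20 : ℕ) * ((m : ℤ) + 1)) : ℤ) = q1
    generalize ((a * y + b * x) / (2 ^ (20 : ℕ) * ((m : ℤ) + 1)) : ℤ) = q2
    push_cast
    have hI : Complex.I ^ (2 : ℕ) = -1 := Complex.I_sq
    field_simp
    ring_nf
    rw [hI]
    ring
  rw [e1]
  refine (norm_add_le _ _).trans ?_
  rw [norm_mul, Complex.norm_I, mul_one, Complex.norm_real, Complex.norm_real, Real.norm_eq_abs, Real.norm_eq_abs]
  linarith only [h1, h2]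

theorem cU_err (x y : ℤ) (h : ‖((x : ℂ) + (y : ℂ) * Complex.I) / 2 ^ (20 : ℕ)‖ ≤ 9 / 2) : ∀ m : ℕ,
    ‖cV (cU x y m) - 2 ^ (40 : ℕ) * ((((x : ℂ) + (y : ℂ) * Complex.I) / 2 ^ (20 : ℕ)) ^ m / (m.factorial : ℂ))‖ ≤ (eN m : ℝ) := by
  intro m
  induction m with
  | zero => simp [cU, cV, eN]; norm_num
  | succ m ih =>
    set p : ℂ := ((x : ℂ) + (y : ℂ) * Complex.I) / 2 ^ (20 : ℕ) with hp
    have hm : ((m : ℂ) + 1) ≠ 0 := by exact_mod_cast Nat.succ_ne_zero m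
    have hmn : ‖((m : ℂ) + 1)‖ = (m : ℝ) + 1 := by
      have : ((m : ℂ) + 1) = (((m : ℝ) + 1 : ℝ) : ℂ) := by push_cast; rfl
      rw [this, Complex.norm_real, Real.norm_eq_abs, abs_of_nonneg (by (clear * -; positivity))]
    have h1 : cV (cU x y (m + 1)) - 2 ^ (40 : ℕ) * (p ^ (m + 1) / ((m + 1).factorial : ℂ)) =
        (cV (cU x y (m + 1)) - cV (cU x y m) * p / ((m : ℂ) + 1)) +
        (cV (cU x y m) - 2 ^ (40 : ℕ) * (p ^ m / (m.factorial : ℂ))) * p / ((m : ℂ) + 1) := by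
      have hf : (m.factorial : ℂ) ≠ 0 := by exact_mod_cast m.factorial_ne_zero
      rw [Nat.factorial_succ]
      push_cast
      field_simp
      ring
    rw [h1]
    refine (norm_add_le _ _).trans ?_
    have h2 := cU_step x y m
    rw [← hp] at h2
    have h3 : ‖(cV (cU x y m) - 2 ^ (40 : ℕ) * (p ^ m / (m.factorial : ℂ))) * p / ((m : ℂ) + 1)‖ ≤
        (eN m : ℝ) * (9 / 2) / ((m : ℝ) + 1) := by
      rw [norm_div, norm_mul, hmn]
      gcongr
      exact_mod_cast eN_nonneg m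
    have h4 : ((eN (m + 1) : ℚ) : ℝ) = 9 / 2 * (eN m : ℝ) / ((m : ℝ) + 1) + 2 := by
      rw [show eN (m + 1) = 9 / 2 * eN m / (m + 1) + 2 from rfl]; push_cast; rfl
    rw [h4]
    have h5 : (eN m : ℝ) * (9 / 2) / ((m : ℝ) + 1) = 9 / 2 * (eN m : ℝ) / ((m : ℝ) + 1) := by ring
    linarith only [h2, h3, h5]

/-- the sharper form: error `2^-32` -/
theorem cE_err32 (x y : ℤ) (h : x ^ (2 : ℕ) + y ^ (2 : ℕ) ≤ (9 * 2 ^ (19 : ℕ)) ^ (2 : ℕ)) :
    ‖(((cE x y).1 : ℂ) + ((cE x y).2 : ℂ) * Complex.I) / 2 ^ (40 : ℕ) - Complex.exp (((x : ℂ) + (y : ℂ) * Complex.I) / 2 ^ (20 : ℕ))‖ ≤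
      1 / 2 ^ (32 : ℕ) := by
  set p : ℂ := ((x : ℂ) + (y : ℂ) * Complex.I) / 2 ^ (20 : ℕ) with hp
  have hpn : ‖p‖ ≤ 9 / 2 := by
    have h1 : ‖((x : ℂ) + (y : ℂ) * Complex.I)‖ ≤ 9 * 2 ^ (19 : ℕ) := by
      have h2 : ‖((x : ℂ) + (y : ℂ) * Complex.I)‖ ^ (2 : ℕ) = (x : ℝ) ^ (2 : ℕ) + (y : ℝ) ^ (2 : ℕ) := by
        have h3 : ((x : ℂ) + (y : ℂ) * Complex.I) = (((x : ℝ) : ℂ) + ((y : ℝ) : ℂ) * Complex.I) := by push_cast; rfl
        rw [h3, Complex.sq_norm, Complex.normSq_add_mul_I]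
      have h4 : (x : ℝ) ^ (2 : ℕ) + (y : ℝ) ^ (2 : ℕ) ≤ (9 * 2 ^ (19 : ℕ)) ^ (2 : ℕ) := by exact_mod_cast h
      have h5 : ‖((x : ℂ) + (y : ℂ) * Complex.I)‖ ^ (2 : ℕ) ≤ (9 * 2 ^ (19 : ℕ)) ^ (2 : ℕ) := by rw [h2]; exact h4
      exact le_of_sq_le_sq h5 (by positivity)
    rw [hp, norm_div]
    have h6 : ‖(2 : ℂ) ^ (20 : ℕ)‖ = 2 ^ (20 : ℕ) := by norm_num
    rw [h6, div_le_iff₀ (by positivity)]
    linarith only [h1]
  have hsum : (((cE x y).1 : ℂ) + ((cE x y).2 : ℂ) * Complex.I) = ∑ m ∈ range 36, cV (cU x y m) := by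
    simp only [cE, cV, Finset.sum_add_distrib, ← Finset.sum_mul]
    push_cast
    rfl
  have htail := Complex.exp_bound' (x := p) (n := 36) (by
    have : ‖p‖ / ((Nat.succ 36 : ℕ) : ℝ) ≤ (9 / 2) / ((Nat.succ 36 : ℕ) : ℝ) := by gcongr
    refine this.trans ?_
    norm_num)
  have hA : ‖∑ m ∈ range 36, cV (cU x y m) - 2 ^ (40 : ℕ) * ∑ m ∈ range 36, p ^ m / (m.factorial : ℂ)‖ ≤ 162 := by
    rw [Finset.mul_sum, ← Finset.sum_sub_distrib]
    refine (norm_sum_le _ _).trans ?_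
    refine (Finset.sum_le_sum fun m _ => cU_err x y hpn m).trans ?_
    have := eN_sum
    exact_mod_cast this
  have hfac : ((36 : ℕ).factorial : ℝ) = 371993326789901217467999448150835200000000 := by
    norm_num [Nat.factorial]
  have hB : ‖Complex.exp p - ∑ m ∈ range 36, p ^ m / (m.factorial : ℂ)‖ ≤ 1 / 2 ^ (40 : ℕ) := by
    refine htail.trans ?_
    have h7 : ‖p‖ ^ (36 : ℕ) ≤ (9 / 2 : ℝ) ^ (36 : ℕ) := by gcongr
    rw [hfac]
    calc ‖p‖ ^ (36 : ℕ) / 371993326789901217467999448150835200000000 * 2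
        ≤ (9 / 2 : ℝ) ^ (36 : ℕ) / 371993326789901217467999448150835200000000 * 2 := by gcongr
      _ ≤ 1 / 2 ^ (40 : ℕ) := by norm_num
  have hC : (((cE x y).1 : ℂ) + ((cE x y).2 : ℂ) * Complex.I) / 2 ^ (40 : ℕ) - Complex.exp p =
      (∑ m ∈ range 36, cV (cU x y m) - 2 ^ (40 : ℕ) * ∑ m ∈ range 36, p ^ m / (m.factorial : ℂ)) / 2 ^ (40 : ℕ) -
      (Complex.exp p - ∑ m ∈ range 36, p ^ m / (m.factorial : ℂ)) := by
    rw [hsum]; field_simp; ring
  rw [hC]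
  refine (norm_sub_le _ _).trans ?_
  have h8 : ‖(∑ m ∈ range 36, cV (cU x y m) - 2 ^ (40 : ℕ) * ∑ m ∈ range 36, p ^ m / (m.factorial : ℂ)) / 2 ^ (40 : ℕ)‖ ≤
      162 / 2 ^ (40 : ℕ) := by
    rw [norm_div]
    have h9 : ‖(2 : ℂ) ^ (40 : ℕ)‖ = 2 ^ (40 : ℕ) := by norm_num
    rw [h9]
    gcongr
  have : (162 : ℝ) / 2 ^ (40 : ℕ) + 1 / 2 ^ (40 : ℕ) ≤ 1 / 2 ^ (32 : ℕ) := by norm_num
  linarith only [hB, h8]

theorem cE_err (x y : ℤ) (h : x ^ (2 : ℕ) + y ^ (2 : ℕ) ≤ (9 * 2 ^ (19 : ℕ)) ^ (2 : ℕ)) :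
    ‖(((cE x y).1 : ℂ) + ((cE x y).2 : ℂ) * Complex.I) / 2 ^ (40 : ℕ) - Complex.exp (((x : ℂ) + (y : ℂ) * Complex.I) / 2 ^ (20 : ℕ))‖ ≤
      1 / 2 ^ (26 : ℕ) := by
  refine (cE_err32 x y h).trans ?_
  norm_num

end SokamTI

end
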