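import Pool.Agent.Lib_MP_af4de1_zy.Z01

/-! ### Lib_MP_af4de1_v3o.OCR -/

section
namespace SokamF1G
end SokamF1G
set_option autoImplicit false

namespace SokamV3O

open Real SokamF1G

private theorem exp_ocr {t : ℝ} (h0 : 0 ≤ t) (h1 : t ≤ 1) :
    1 - t + t ^ (2 : ℕ) / 2 - t ^ (3 : ℕ) / 6 ≤ exp (-t) ∧
      exp (-t) ≤ 1 - t + t ^ (2 : ℕ) / 2 - t ^ (3 : ℕ) / 6 + t ^ (4 : ℕ) / 24 + t ^ (5 : ℕ) / 100 ∧
      exp t ≤ 1 + t + t ^ (2 : ℕ) / 2 + t ^ (3 : ℕ) / 6 + t ^ (4 : ℕ) / 24 + t ^ (5 : ℕ) / 100 := by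
  have ha : |t| ≤ 1 := by rw [abs_of_nonneg h0]; exact h1
  have hb : |-t| ≤ 1 := by rw [abs_neg]; exact ha
  have e1 := Real.exp_bound ha (n := 5) (by norm_num)
  have e2 := Real.exp_bound hb (n := 5) (by norm_num)
  rw [abs_neg, abs_of_nonneg h0] at e2
  rw [abs_of_nonneg h0] at e1
  simp only [Finset.sum_range_succ, Finset.sum_range_zero, Nat.factorial, Nat.succ_eq_add_one] at e1 e2
  norm_num at e1 e2
  rw [abs_le] at e1 e2
  have h2 : t ^ (5 : ℕ) ≤ t ^ (4 : ℕ) := pow_le_pow_of_le_one h0 h1 (by norm_num)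
  have h3 : 0 ≤ t ^ (4 : ℕ) := by (clear * -; positivity)
  have h4 : 0 ≤ t ^ (5 : ℕ) := by (clear * - h0; positivity)
  refine ⟨?_, ?_, ?_⟩
  · linarith only [e2, h2]
  · linarith only [e2.2]
  · linarith only [e1.2]

/-- linear bounds -/
private theorem explin_ocr {t : ℝ} (h0 : 0 ≤ t) (h1 : t ≤ 1) :
    76 / 100 - 43 / 100 * t ≤ exp (-t) ∧ exp (-t) ≤ 1 - t / 2 ∧ exp t ≤ 1 + 172 / 100 * t := by
  obtain ⟨e1, e2, e3⟩ := exp_ocr h0 h1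
  have p2 : t ^ (2 : ℕ) ≤ t := by
    have := pow_le_pow_of_le_one h0 h1 (show 1 ≤ 2 by norm_num)
    rwa [pow_one] at this
  have p3 : t ^ (3 : ℕ) ≤ t ^ (2 : ℕ) := pow_le_pow_of_le_one h0 h1 (by norm_num)
  have p4 : t ^ (4 : ℕ) ≤ t ^ (3 : ℕ) := pow_le_pow_of_le_one h0 h1 (by norm_num)
  have p5 : t ^ (5 : ℕ) ≤ t ^ (4 : ℕ) := pow_le_pow_of_le_one h0 h1 (by norm_num)
  have q3 : 0 ≤ t ^ (3 : ℕ) := by (clear * - h0; positivity)
  refine ⟨?_, by linarith only [e2, p2, p4, p5, q3], by linarith only [e3, p2, p3, p4, p5, q3]⟩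
  linarith only [h1, e1, mul_nonneg (sub_nonneg.2 h1) (mul_nonneg (sub_nonneg.2 h1) (sub_nonneg.2 h1))]

private theorem expn_ocr {n : ℝ} (h0 : 0 ≤ n) (h1 : n ≤ 53 / 100) : exp (-n) ≤ 1 - 735 / 1000 * n := by
  obtain ⟨-, e2, -⟩ := exp_ocr h0 (by linarith only [h1])
  have p2 : n ^ (2 : ℕ) ≤ 53 / 100 * n := by nlinarith only [h0, h1]
  have p4 : n ^ (4 : ℕ) ≤ n ^ (3 : ℕ) := pow_le_pow_of_le_one h0 (by linarith only [h1]) (by norm_num)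
  have p5 : n ^ (5 : ℕ) ≤ n ^ (4 : ℕ) := pow_le_pow_of_le_one h0 (by linarith only [h1]) (by norm_num)
  have q3 : 0 ≤ n ^ (3 : ℕ) := by (clear * - h0; positivity)
  linarith only [e2, p2, p4, p5, q3]

private theorem cos_ocr {φ : ℝ} (h0 : 3 / 2 ≤ φ) (h1 : φ ≤ 2 * π - 3 / 2) : cos φ ≤ 708 / 10000 := by
  have hpi : π < 3.1416 := Real.pi_lt_d4
  have hpi' : 3.1415 < π := Real.pi_gt_d4
  have h2 : cos (3 / 2) ≤ 708 / 10000 := by
    rw [← Real.sin_pi_div_two_sub]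
    have h3 : 0 ≤ π / 2 - 3 / 2 := by linarith only [hpi']
    have h4 := Real.sin_le h3
    linarith only [hpi, h4]
  rcases le_total φ π with h | h
  · exact (Real.cos_le_cos_of_nonneg_of_le_pi (by norm_num) h h0).trans h2
  · rw [← Real.cos_two_pi_sub]
    exact (Real.cos_le_cos_of_nonneg_of_le_pi (by norm_num) (by linarith only [h]) (by linarith only [h1])).trans h2

private theorem k_ocr {x n k ψ : ℝ} (hx0 : 0 < x) (hn : 0 ≤ n) (hT : n ≤ 4 / 5 * x) (hk : 0 < k)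
    (hx : x = k * cos ψ) (hy : n = k * sin ψ) : k ≤ x + 2 / 5 * n := by
  have h1 : k ^ (2 : ℕ) = x ^ (2 : ℕ) + n ^ (2 : ℕ) := by
    rw [hx, hy]
    have := Real.sin_sq_add_cos_sq ψ
    linear_combination (-(k ^ (2 : ℕ))) * this
  have h2 : k ^ (2 : ℕ) ≤ (x + 2 / 5 * n) ^ (2 : ℕ) := by
    rw [h1]
    nlinarith only [hn, hT]
  exact le_of_sq_le_sq h2 (by (clear * - hx0 hn; positivity))

/-- the right side of the inequalities -/
private theorem tgt_ocr {x n k ψ : ℝ} (hx0 : 0 < x) (hn : 0 ≤ n) (hn1 : n ≤ 53 / 100) (hT : n ≤ 4 / 5 * x)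
    (hk : 0 < k) (hx : x = k * cos ψ) (hy : n = k * sin ψ) :
    1 / 4 * (1 + k * exp (-n)) ≤ 1 / 4 + 1 / 4 * (x + 2 / 5 * n) * (1 - 735 / 1000 * n) := by
  have h1 := k_ocr hx0 hn hT hk hx hy
  have h2 := expn_ocr hn hn1
  have h3 : k * exp (-n) ≤ (x + 2 / 5 * n) * (1 - 735 / 1000 * n) :=
    mul_le_mul h1 h2 (exp_pos _).le (by (clear * - hx0 hn; positivity))
  linarith only [h3]

private theorem pa_ocr {x s : ℝ} (hx : 0 < x) (hs : 1 ≤ s) :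
    0 ≤ pa x s ∧ pa x s ≤ 1 ∧ (1 + x) * pa x s ≤ s ∧ 1 ≤ (1 + x) * pa x s := by
  have h1 : 0 < 1 + x := by linarith only [hx]
  have h2 : 1 / (1 + x) ≤ pa x s := by
    unfold pa a4
    refine le_min ?_ (le_min ?_ ?_)
    · exact div_le_div_of_nonneg_right hs h1.le
    · rw [div_le_one h1]
      linarith only [hx]
    · exact div_le_div_of_nonneg_right (by norm_num) h1.le
  have h3 : pa x s ≤ s / (1 + x) := min_le_left _ _
  have h4 : pa x s ≤ 1 := (min_le_right _ _).trans (min_le_left _ _)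
  refine ⟨le_trans (by positivity) h2, h4, ?_, ?_⟩
  · rw [le_div_iff₀ h1] at h3
    linarith only [h3]
  · rw [div_le_iff₀ h1] at h2
    linarith only [h2]

/-! certificates -/

private theorem q1_ocr {x v n : ℝ} (h0a : 1 / 2 ≤ x) (h0b : x ≤ 9 / 5) (h1a : 3 / 2 ≤ v) (h1b : v ≤ 2) (h2a : 0 ≤ n) (h2b : n ≤ 53 / 100) :
    0 ≤ (v - n * (1 + x)) * (v * (1 + x + x * x) - 84 / 100 * x * (1 + x)) +
      (1 + x + x * x) * (x * (1 + x - v) + 59 / 100 * n * (76 / 100 * (1 + x) - 43 / 100 * v) -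
      (1 + x) * (708 / 10000 * x + (1 / 4 + 1 / 4 * (x + 2 / 5 * n) * (1 - 735 / 1000 * n)))) := by
  obtain ⟨s1, hs1⟩ : ∃ s, s = x - 1 / 2 := ⟨_, rfl⟩
  have hs10 : 0 ≤ s1 := by linarith only [h0a, hs1]
  obtain ⟨r1, hr1⟩ : ∃ r, r = 9 / 5 - x := ⟨_, rfl⟩
  have hr10 : 0 ≤ r1 := by linarith only [h0b, hr1]
  obtain ⟨s2, hs2⟩ : ∃ s, s = v - 3 / 2 := ⟨_, rfl⟩
  have hs20 : 0 ≤ s2 := by linarith only [h1a, hs2]
  obtain ⟨r2, hr2⟩ : ∃ r, r = 2 - v := ⟨_, rfl⟩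
  have hr20 : 0 ≤ r2 := by linarith only [h1b, hr2]
  obtain ⟨s3, hs3⟩ : ∃ s, s = n := ⟨_, rfl⟩
  have hs30 : 0 ≤ s3 := by linarith only [h2a, hs3]
  obtain ⟨r3, hr3⟩ : ∃ r, r = 53 / 100 - n := ⟨_, rfl⟩
  have hr30 : 0 ≤ r3 := by linarith only [h2b, hr3]
  have h : 0 ≤ 766080000 / 80227849 * r1 ^ (4 : ℕ) * r2 ^ (2 : ℕ) * r3 ^ (2 : ℕ) +
      154089075 / 12342746 * r1 ^ (4 : ℕ) * r2 ^ (2 : ℕ) * s3 * r3 +
      257177445 / 80227849 * r1 ^ (4 : ℕ) * r2 ^ (2 : ℕ) * s3 ^ (2 : ℕ) +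
      2281160000 / 80227849 * r1 ^ (4 : ℕ) * s2 * r2 * r3 ^ (2 : ℕ) +
      3175846625 / 80227849 * r1 ^ (4 : ℕ) * s2 * r2 * s3 * r3 +
      938043540 / 80227849 * r1 ^ (4 : ℕ) * s2 * r2 * s3 ^ (2 : ℕ) +
      1690080000 / 80227849 * r1 ^ (4 : ℕ) * s2 ^ (2 : ℕ) * r3 ^ (2 : ℕ) +
      5048535275 / 160455698 * r1 ^ (4 : ℕ) * s2 ^ (2 : ℕ) * s3 * r3 +
      855866095 / 80227849 * r1 ^ (4 : ℕ) * s2 ^ (2 : ℕ) * s3 ^ (2 : ℕ) +
      3097340000 / 80227849 * s1 * r1 ^ (3 : ℕ) * r2 ^ (2 : ℕ) * r3 ^ (2 : ℕ) +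
      267414210 / 6171373 * s1 * r1 ^ (3 : ℕ) * r2 ^ (2 : ℕ) * s3 * r3 +
      1033509101 / 160455698 * s1 * r1 ^ (3 : ℕ) * r2 ^ (2 : ℕ) * s3 ^ (2 : ℕ) +
      9598880000 / 80227849 * s1 * r1 ^ (3 : ℕ) * s2 * r2 * r3 ^ (2 : ℕ) +
      11735454340 / 80227849 * s1 * r1 ^ (3 : ℕ) * s2 * r2 * s3 * r3 +
      2411993981 / 80227849 * s1 * r1 ^ (3 : ℕ) * s2 * r2 * s3 ^ (2 : ℕ) +
      7461540000 / 80227849 * s1 * r1 ^ (3 : ℕ) * s2 ^ (2 : ℕ) * r3 ^ (2 : ℕ) +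
      10179069610 / 80227849 * s1 * r1 ^ (3 : ℕ) * s2 ^ (2 : ℕ) * s3 * r3 +
      5710478861 / 160455698 * s1 * r1 ^ (3 : ℕ) * s2 ^ (2 : ℕ) * s3 ^ (2 : ℕ) +
      5222684800 / 80227849 * s1 ^ (2 : ℕ) * r1 ^ (2 : ℕ) * r2 ^ (2 : ℕ) * r3 ^ (2 : ℕ) +
      413446686 / 6171373 * s1 ^ (2 : ℕ) * r1 ^ (2 : ℕ) * r2 ^ (2 : ℕ) * s3 * r3 +
      2420148127 / 401139245 * s1 ^ (2 : ℕ) * r1 ^ (2 : ℕ) * r2 ^ (2 : ℕ) * s3 ^ (2 : ℕ) +
      16049049600 / 80227849 * s1 ^ (2 : ℕ) * r1 ^ (2 : ℕ) * s2 * r2 * r3 ^ (2 : ℕ) +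
      17159258758 / 80227849 * s1 ^ (2 : ℕ) * r1 ^ (2 : ℕ) * s2 * r2 * s3 * r3 +
      8870120864 / 401139245 * s1 ^ (2 : ℕ) * r1 ^ (2 : ℕ) * s2 * r2 * s3 ^ (2 : ℕ) +
      12825364800 / 80227849 * s1 ^ (2 : ℕ) * r1 ^ (2 : ℕ) * s2 ^ (2 : ℕ) * r3 ^ (2 : ℕ) +
      15782451840 / 80227849 * s1 ^ (2 : ℕ) * r1 ^ (2 : ℕ) * s2 ^ (2 : ℕ) * s3 * r3 +
      16444972737 / 401139245 * s1 ^ (2 : ℕ) * r1 ^ (2 : ℕ) * s2 ^ (2 : ℕ) * s3 ^ (2 : ℕ) +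
      5067293440 / 80227849 * s1 ^ (3 : ℕ) * r1 * r2 ^ (2 : ℕ) * r3 ^ (2 : ℕ) +
      2393549136 / 30856865 * s1 ^ (3 : ℕ) * r1 * r2 ^ (2 : ℕ) * s3 * r3 +
      37786938338 / 2005696225 * s1 ^ (3 : ℕ) * r1 * r2 ^ (2 : ℕ) * s3 ^ (2 : ℕ) +
      13685946880 / 80227849 * s1 ^ (3 : ℕ) * r1 * s2 * r2 * r3 ^ (2 : ℕ) +
      72483816556 / 401139245 * s1 ^ (3 : ℕ) * r1 * s2 * r2 * s3 * r3 +
      38047571776 / 2005696225 * s1 ^ (3 : ℕ) * r1 * s2 * r2 * s3 ^ (2 : ℕ) +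
      10436653440 / 80227849 * s1 ^ (3 : ℕ) * r1 * s2 ^ (2 : ℕ) * r3 ^ (2 : ℕ) +
      59547677788 / 401139245 * s1 ^ (3 : ℕ) * r1 * s2 ^ (2 : ℕ) * s3 * r3 +
      45710633438 / 2005696225 * s1 ^ (3 : ℕ) * r1 * s2 ^ (2 : ℕ) * s3 ^ (2 : ℕ) +
      2951813888 / 80227849 * s1 ^ (4 : ℕ) * r2 ^ (2 : ℕ) * r3 ^ (2 : ℕ) +
      1917837096 / 30856865 * s1 ^ (4 : ℕ) * r2 ^ (2 : ℕ) * s3 * r3 +
      54355740928 / 2005696225 * s1 ^ (4 : ℕ) * r2 ^ (2 : ℕ) * s3 ^ (2 : ℕ) +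
      6506507776 / 80227849 * s1 ^ (4 : ℕ) * s2 * r2 * r3 ^ (2 : ℕ) +
      46117060056 / 401139245 * s1 ^ (4 : ℕ) * s2 * r2 * s3 * r3 +
      74905959656 / 2005696225 * s1 ^ (4 : ℕ) * s2 * r2 * s3 ^ (2 : ℕ) +
      4158693888 / 80227849 * s1 ^ (4 : ℕ) * s2 ^ (2 : ℕ) * r3 ^ (2 : ℕ) +
      27225177808 / 401139245 * s1 ^ (4 : ℕ) * s2 ^ (2 : ℕ) * s3 * r3 +
      35650218728 / 2005696225 * s1 ^ (4 : ℕ) * s2 ^ (2 : ℕ) * s3 ^ (2 : ℕ) := by (clear * - hs30 hr30 hs20 hr20 hs10 hr10; positivity)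
  refine h.trans (le_of_eq ?_)
  rw [hs1, hr1, hs2, hr2, hs3, hr3]
  ring

private theorem q0_ocr {x v n : ℝ} (h0a : 1 ≤ x) (h0b : x ≤ 9 / 5) (h1a : 2 ≤ v) (h1b : v ≤ 14 / 5) (h2a : 0 ≤ n) (h2b : n ≤ 53 / 100) :
    0 ≤ (v - n * (1 + x)) * (v * (1 + x + x * x) - 84 / 100 * x * (1 + x)) +
      (1 + x + x * x) * (x * (1 + x - v) - 708 / 10000 * (x + 2 / 5 * n) * ((1 + x) - v / 2) -
      (1 + x) * (1 / 4 + 1 / 4 * (x + 2 / 5 * n) * (1 - 735 / 1000 * n))) := by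
  obtain ⟨s1, hs1⟩ : ∃ s, s = x - 1 := ⟨_, rfl⟩
  have hs10 : 0 ≤ s1 := by linarith only [h0a, hs1]
  obtain ⟨r1, hr1⟩ : ∃ r, r = 9 / 5 - x := ⟨_, rfl⟩
  have hr10 : 0 ≤ r1 := by linarith only [h0b, hr1]
  obtain ⟨s2, hs2⟩ : ∃ s, s = v - 2 := ⟨_, rfl⟩
  have hs20 : 0 ≤ s2 := by linarith only [h1a, hs2]
  obtain ⟨r2, hr2⟩ : ∃ r, r = 14 / 5 - v := ⟨_, rfl⟩
  have hr20 : 0 ≤ r2 := by linarith only [h1b, hr2]
  obtain ⟨s3, hs3⟩ : ∃ s, s = n := ⟨_, rfl⟩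
  have hs30 : 0 ≤ s3 := by linarith only [h2a, hs3]
  obtain ⟨r3, hr3⟩ : ∃ r, r = 53 / 100 - n := ⟨_, rfl⟩
  have hr30 : 0 ≤ r3 := by linarith only [h2b, hr3]
  have h : 0 ≤ 212015625 / 2876416 * r1 ^ (4 : ℕ) * r2 ^ (2 : ℕ) * r3 ^ (2 : ℕ) +
      4060810125 / 46022656 * r1 ^ (4 : ℕ) * r2 ^ (2 : ℕ) * s3 * r3 +
      1491966375 / 92045312 * r1 ^ (4 : ℕ) * r2 ^ (2 : ℕ) * s3 ^ (2 : ℕ) +
      20503125 / 89888 * r1 ^ (4 : ℕ) * s2 * r2 * r3 ^ (2 : ℕ) +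
      6984538725 / 23011328 * r1 ^ (4 : ℕ) * s2 * r2 * s3 * r3 +
      3626323575 / 46022656 * r1 ^ (4 : ℕ) * s2 * r2 * s3 ^ (2 : ℕ) +
      519084375 / 2876416 * r1 ^ (4 : ℕ) * s2 ^ (2 : ℕ) * r3 ^ (2 : ℕ) +
      12308267325 / 46022656 * r1 ^ (4 : ℕ) * s2 ^ (2 : ℕ) * s3 * r3 +
      8160680775 / 92045312 * r1 ^ (4 : ℕ) * s2 ^ (2 : ℕ) * s3 ^ (2 : ℕ) +
      29746875 / 89888 * s1 * r1 ^ (3 : ℕ) * r2 ^ (2 : ℕ) * r3 ^ (2 : ℕ) +
      8511858975 / 23011328 * s1 * r1 ^ (3 : ℕ) * r2 ^ (2 : ℕ) * s3 * r3 +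
      2195917875 / 46022656 * s1 * r1 ^ (3 : ℕ) * r2 ^ (2 : ℕ) * s3 ^ (2 : ℕ) +
      365548125 / 359552 * s1 * r1 ^ (3 : ℕ) * s2 * r2 * r3 ^ (2 : ℕ) +
      14623047615 / 11505664 * s1 * r1 ^ (3 : ℕ) * s2 * r2 * s3 * r3 +
      6253615155 / 23011328 * s1 * r1 ^ (3 : ℕ) * s2 * r2 * s3 ^ (2 : ℕ) +
      291560625 / 359552 * s1 * r1 ^ (3 : ℕ) * s2 ^ (2 : ℕ) * r3 ^ (2 : ℕ) +
      26494236255 / 23011328 * s1 * r1 ^ (3 : ℕ) * s2 ^ (2 : ℕ) * s3 * r3 +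
      16071312435 / 46022656 * s1 * r1 ^ (3 : ℕ) * s2 ^ (2 : ℕ) * s3 ^ (2 : ℕ) +
      827578125 / 1438208 * s1 ^ (2 : ℕ) * r1 ^ (2 : ℕ) * r2 ^ (2 : ℕ) * r3 ^ (2 : ℕ) +
      7045411935 / 11505664 * s1 ^ (2 : ℕ) * r1 ^ (2 : ℕ) * r2 ^ (2 : ℕ) * s3 * r3 +
      38807835 / 719104 * s1 ^ (2 : ℕ) * r1 ^ (2 : ℕ) * r2 ^ (2 : ℕ) * s3 ^ (2 : ℕ) +
      620710875 / 359552 * s1 ^ (2 : ℕ) * r1 ^ (2 : ℕ) * s2 * r2 * r3 ^ (2 : ℕ) +
      11665030187 / 5752832 * s1 ^ (2 : ℕ) * r1 ^ (2 : ℕ) * s2 * r2 * s3 * r3 +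
      482448653 / 1438208 * s1 ^ (2 : ℕ) * r1 ^ (2 : ℕ) * s2 * r2 * s3 ^ (2 : ℕ) +
      1978265375 / 1438208 * s1 ^ (2 : ℕ) * r1 ^ (2 : ℕ) * s2 ^ (2 : ℕ) * r3 ^ (2 : ℕ) +
      21452648439 / 11505664 * s1 ^ (2 : ℕ) * r1 ^ (2 : ℕ) * s2 ^ (2 : ℕ) * s3 * r3 +
      727832983 / 1438208 * s1 ^ (2 : ℕ) * r1 ^ (2 : ℕ) * s2 ^ (2 : ℕ) * s3 ^ (2 : ℕ) +
      167574375 / 359552 * s1 ^ (3 : ℕ) * r1 * r2 ^ (2 : ℕ) * r3 ^ (2 : ℕ) +
      11358653529 / 23011328 * s1 ^ (3 : ℕ) * r1 * r2 ^ (2 : ℕ) * s3 * r3 +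
      1945393701 / 46022656 * s1 ^ (3 : ℕ) * r1 * r2 ^ (2 : ℕ) * s3 ^ (2 : ℕ) +
      480378175 / 359552 * s1 ^ (3 : ℕ) * r1 * s2 * r2 * r3 ^ (2 : ℕ) +
      17193629017 / 11505664 * s1 ^ (3 : ℕ) * r1 * s2 * r2 * s3 * r3 +
      4320661477 / 23011328 * s1 ^ (3 : ℕ) * r1 * s2 * r2 * s3 ^ (2 : ℕ) +
      47100475 / 44944 * s1 ^ (3 : ℕ) * r1 * s2 ^ (2 : ℕ) * r3 ^ (2 : ℕ) +
      31220604505 / 23011328 * s1 ^ (3 : ℕ) * r1 * s2 ^ (2 : ℕ) * s3 * r3 +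
      14887929253 / 46022656 * s1 ^ (3 : ℕ) * r1 * s2 ^ (2 : ℕ) * s3 ^ (2 : ℕ) +
      436190325 / 2876416 * s1 ^ (4 : ℕ) * r2 ^ (2 : ℕ) * r3 ^ (2 : ℕ) +
      7871248743 / 46022656 * s1 ^ (4 : ℕ) * r2 ^ (2 : ℕ) * s3 * r3 +
      2220866697 / 92045312 * s1 ^ (4 : ℕ) * r2 ^ (2 : ℕ) * s3 ^ (2 : ℕ) +
      145919725 / 359552 * s1 ^ (4 : ℕ) * s2 * r2 * r3 ^ (2 : ℕ) +
      10361375391 / 23011328 * s1 ^ (4 : ℕ) * s2 * r2 * s3 * r3 +
      2481485593 / 46022656 * s1 ^ (4 : ℕ) * s2 * r2 * s3 ^ (2 : ℕ) +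
      882167475 / 2876416 * s1 ^ (4 : ℕ) * s2 ^ (2 : ℕ) * r3 ^ (2 : ℕ) +
      17683502039 / 46022656 * s1 ^ (4 : ℕ) * s2 ^ (2 : ℕ) * s3 * r3 +
      7574104489 / 92045312 * s1 ^ (4 : ℕ) * s2 ^ (2 : ℕ) * s3 ^ (2 : ℕ) := by (clear * - hs30 hr30 hs20 hr20 hs10 hr10; positivity)
  refine h.trans (le_of_eq ?_)
  rw [hs1, hr1, hs2, hr2, hs3, hr3]
  ring

private theorem h_ocr {x n : ℝ} (h0a : 1 / 2 ≤ x) (h0b : x ≤ 9 / 5) (h2a : 0 ≤ n) (h2b : n ≤ 53 / 100) :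
    0 ≤ (1 - n) * ((1 + x) * (1 + x + x * x) - 84 / 100 * x * (1 + x)) -
      (1 + x + x * x) * (708 / 10000 * (x + 2 / 5 * n) / 2 + (1 / 4 + 1 / 4 * (x + 2 / 5 * n) * (1 - 735 / 1000 * n))) := by
  obtain ⟨s1, hs1⟩ : ∃ s, s = x - 1 / 2 := ⟨_, rfl⟩
  have hs10 : 0 ≤ s1 := by linarith only [h0a, hs1]
  obtain ⟨r1, hr1⟩ : ∃ r, r = 9 / 5 - x := ⟨_, rfl⟩
  have hr10 : 0 ≤ r1 := by linarith only [h0b, hr1]
  obtain ⟨s3, hs3⟩ : ∃ s, s = n := ⟨_, rfl⟩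
  have hs30 : 0 ≤ s3 := by linarith only [h2a, hs3]
  obtain ⟨r3, hr3⟩ : ∃ r, r = 53 / 100 - n := ⟨_, rfl⟩
  have hr30 : 0 ≤ r3 := by linarith only [h2b, hr3]
  have h : 0 ≤ 246750 / 116441 * r1 ^ (3 : ℕ) * r3 ^ (2 : ℕ) +
      2320801 / 931528 * r1 ^ (3 : ℕ) * s3 * r3 +
      200669 / 465764 * r1 ^ (3 : ℕ) * s3 ^ (2 : ℕ) +
      62440200 / 6171373 * s1 * r1 ^ (2 : ℕ) * r3 ^ (2 : ℕ) +
      366479991 / 30856865 * s1 * r1 ^ (2 : ℕ) * s3 * r3 +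
      499060839 / 246854920 * s1 * r1 ^ (2 : ℕ) * s3 ^ (2 : ℕ) +
      114318000 / 6171373 * s1 ^ (2 : ℕ) * r1 * r3 ^ (2 : ℕ) +
      3426856182 / 154284325 * s1 ^ (2 : ℕ) * r1 * s3 * r3 +
      2526268989 / 617137300 * s1 ^ (2 : ℕ) * r1 * s3 ^ (2 : ℕ) +
      80655312 / 6171373 * s1 ^ (3 : ℕ) * r3 ^ (2 : ℕ) +
      2526214577 / 154284325 * s1 ^ (3 : ℕ) * s3 * r3 +
      1082014927 / 308568650 * s1 ^ (3 : ℕ) * s3 ^ (2 : ℕ) := by (clear * - hr10 hs30 hr30 hs10; positivity)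
  refine h.trans (le_of_eq ?_)
  rw [hs1, hr1, hs3, hr3]
  ring

private theorem e_ocr {x z n : ℝ} (h0a : 9 / 5 ≤ x) (h1a : 0 ≤ z) (h1b : z ≤ 21 / 25) (h2a : 0 ≤ n) (h2b : n ≤ 53 / 100) :
    0 ≤ 4 * (1 + x) * (n * z + x - 708 / 10000 * (x + 2 / 5 * n) - (1 / 4 + 1 / 4 * (x + 2 / 5 * n) * (1 - 735 / 1000 * n))) -
      (z + n * (1 + x) + x) ^ (2 : ℕ) := by
  obtain ⟨s1, hs1⟩ : ∃ s, s = x - 9 / 5 := ⟨_, rfl⟩
  have hs10 : 0 ≤ s1 := by linarith only [h0a, hs1]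
  obtain ⟨s2, hs2⟩ : ∃ s, s = z := ⟨_, rfl⟩
  have hs20 : 0 ≤ s2 := by linarith only [h1a, hs2]
  obtain ⟨r2, hr2⟩ : ∃ r, r = 21 / 25 - z := ⟨_, rfl⟩
  have hr20 : 0 ≤ r2 := by linarith only [h1b, hr2]
  obtain ⟨s3, hs3⟩ : ∃ s, s = n := ⟨_, rfl⟩
  have hs30 : 0 ≤ s3 := by linarith only [h2a, hs3]
  obtain ⟨r3, hr3⟩ : ∃ r, r = 53 / 100 - n := ⟨_, rfl⟩
  have hr30 : 0 ≤ r3 := by linarith only [h2b, hr3]
  have h : 0 ≤ 47829200 / 1238769 * r2 ^ (2 : ℕ) * r3 ^ (2 : ℕ) +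
      69778553 / 1238769 * r2 ^ (2 : ℕ) * s3 * r3 +
      19260967 / 2477538 * r2 ^ (2 : ℕ) * s3 ^ (2 : ℕ) +
      76758400 / 1238769 * s2 * r2 * r3 ^ (2 : ℕ) +
      117339106 / 1238769 * s2 * r2 * s3 * r3 +
      15942967 / 1238769 * s2 * r2 * s3 ^ (2 : ℕ) +
      24519200 / 1238769 * s2 ^ (2 : ℕ) * r3 ^ (2 : ℕ) +
      38740553 / 1238769 * s2 ^ (2 : ℕ) * s3 * r3 +
      3804967 / 2477538 * s2 ^ (2 : ℕ) * s3 ^ (2 : ℕ) +
      49358000 / 1238769 * s1 * r2 ^ (2 : ℕ) * r3 ^ (2 : ℕ) +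
      155480645 / 2477538 * s1 * r2 ^ (2 : ℕ) * s3 * r3 +
      3631805 / 235956 * s1 * r2 ^ (2 : ℕ) * s3 ^ (2 : ℕ) +
      88216000 / 1238769 * s1 * s2 * r2 * r3 ^ (2 : ℕ) +
      140045645 / 1238769 * s1 * s2 * r2 * s3 * r3 +
      1053935 / 39326 * s1 * s2 * r2 * s3 ^ (2 : ℕ) +
      38858000 / 1238769 * s1 * s2 ^ (2 : ℕ) * r3 ^ (2 : ℕ) +
      124610645 / 2477538 * s1 * s2 ^ (2 : ℕ) * s3 * r3 +
      2691805 / 235956 * s1 * s2 ^ (2 : ℕ) * s3 ^ (2 : ℕ) +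
      10730000 / 1238769 * s1 ^ (2 : ℕ) * r2 ^ (2 : ℕ) * r3 ^ (2 : ℕ) +
      11513125 / 825846 * s1 ^ (2 : ℕ) * r2 ^ (2 : ℕ) * s3 * r3 +
      151875 / 39326 * s1 ^ (2 : ℕ) * r2 ^ (2 : ℕ) * s3 ^ (2 : ℕ) +
      21460000 / 1238769 * s1 ^ (2 : ℕ) * s2 * r2 * r3 ^ (2 : ℕ) +
      11513125 / 412923 * s1 ^ (2 : ℕ) * s2 * r2 * s3 * r3 +
      151875 / 19663 * s1 ^ (2 : ℕ) * s2 * r2 * s3 ^ (2 : ℕ) +
      10730000 / 1238769 * s1 ^ (2 : ℕ) * s2 ^ (2 : ℕ) * r3 ^ (2 : ℕ) +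
      11513125 / 825846 * s1 ^ (2 : ℕ) * s2 ^ (2 : ℕ) * s3 * r3 +
      151875 / 39326 * s1 ^ (2 : ℕ) * s2 ^ (2 : ℕ) * s3 ^ (2 : ℕ) := by (clear * - hs30 hr30 hs20 hr20 hs10; positivity)
  refine h.trans (le_of_eq ?_)
  rw [hs1, hs2, hr2, hs3, hr3]
  ring

/-- `|s| ≥ 3/2` up to the lump at `2π`, right side, `s > 0` (true `.93`) -/
theorem cRr {x n z τ k ψ s : ℝ} (h : ShR x n z τ k ψ) (h0 : 3 / 2 ≤ s)
    (h1 : s - τ - ψ ≤ 2 * π - 3 / 2) :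
    1 / 4 * (1 + k * exp (-n)) ≤ Hc x (-n) (-z) (-τ) (pa x s) s := by
  have hpi : π < 3.1416 := Real.pi_lt_d4
  have hpi' : 3.1415 < π := Real.pi_gt_d4
  obtain ⟨hx0, hn0, hn1, hT, hz0, hτ0, hzτ, hζ, hτ1, hk0, hψ0, hψ1, hx, hy⟩ := h
  have htg := tgt_ocr hx0 hn0 hn1 hT hk0 hx hy
  have hk := k_ocr hx0 hn0 hT hk0 hx hy
  obtain ⟨ha0, ha1, -, ha2⟩ := pa_ocr hx0 (s := s) (by linarith only [h0])
  have hu : Hc x (-n) (-z) (-τ) (pa x s) s = (pa x s + n) * (s + z) + x * (1 + pa x s) -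
      exp (pa x s) * (x * cos (s - τ) + n * sin (s - τ)) := by
    unfold Hc
    rw [← sub_eq_add_neg s τ]
    ring
  rw [hu]
  generalize pa x s = a at *
  obtain ⟨-, -, he⟩ := explin_ocr ha0 ha1
  have htg' : 1 / 4 * (1 + k * exp (-n)) ≤ 1 / 4 + 1 / 4 * (x + 2 / 5 * n) := by
    refine htg.trans ?_
    linarith only [mul_nonneg (add_pos_of_pos_of_nonneg hx0 (mul_nonneg (by norm_num : (0:ℝ) ≤ 2 / 5) hn0)).le hn0]
  have haz : 0 ≤ (a + n) * z := by (clear * - ha0 hn0 hz0; positivity)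
  have hsx : 1 / 2 * (3 / (1 + x)) ≤ a * s := by
    have h2 : 0 < 1 + x := by linarith only [hx0]
    have h3 : 1 / (1 + x) ≤ a := by
      rw [div_le_iff₀ h2]
      linarith only [ha2]
    have h4 : 1 / (1 + x) * (3 / 2) ≤ a * s := mul_le_mul h3 h0 (by norm_num) ha0
    have h5 : 1 / 2 * (3 / (1 + x)) = 1 / (1 + x) * (3 / 2) := by ring
    rw [h5]
    exact h4
  rcases le_total (π / 2) (s - τ - ψ) with hθ | hθ
  · have hM : x * cos (s - τ) + n * sin (s - τ) = k * cos (s - τ - ψ) := by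
      rw [Real.cos_sub (s - τ) ψ, hx, hy]
      ring
    rw [hM]
    have hc := cos_ocr (φ := s - τ - ψ) (by linarith only [hpi', hθ]) h1
    have h2 : exp a * (k * cos (s - τ - ψ)) ≤ (1 + 172 / 100 * a) * (k * (708 / 10000)) := by
      have h3 : k * cos (s - τ - ψ) ≤ k * (708 / 10000) := mul_le_mul_of_nonneg_left hc hk0.le
      exact (mul_le_mul_of_nonneg_left h3 (exp_pos a).le).trans
        (mul_le_mul_of_nonneg_right he (by (clear * - hk0; positivity)))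
    have h4 : (1 + 172 / 100 * a) * (k * (708 / 10000)) ≤ (1 + 172 / 100 * 1) * ((x + 2 / 5 * (4 / 5 * x)) * (708 / 10000)) := by
      refine mul_le_mul (by linarith only [ha1]) (by linarith only [hT, hk]) (by (clear * - hk0; positivity)) (by norm_num)
    have h5 : 0 ≤ n * s := by
      have : 0 ≤ s := by linarith only [h0]
      (clear * - hn0 h0; positivity)
    have h6 : 1 / 4 ≤ 1 / 2 * (3 / (1 + x)) + 41 / 100 * x := by
      have h7 : 0 < 1 + x := by linarith only [hn0, hT]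
      have h8 : 1 / 2 * (3 / (1 + x)) + 41 / 100 * x - 1 / 4 =
          (3 / 2 + (41 / 100 * x - 1 / 4) * (1 + x)) / (1 + x) := by
        field_simp
        ring
      have h9 : 0 ≤ (3 / 2 + (41 / 100 * x - 1 / 4) * (1 + x)) / (1 + x) := by
        refine div_nonneg ?_ h7.le
        linarith only [h7, mul_pos hx0 hx0]
      linarith only [h8, h9]
    have h10 : 0 ≤ a * x := by (clear * - ha0 hx0; positivity)
    linarith only [hn0, hT, htg', haz, hsx, h2, h4, h5, h6, h10]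
  · have hc : cos (s - τ) ≤ 5 / 9 := by
      have h3 : cos 1 ≤ 5 / 9 := Real.cos_one_le
      exact (Real.cos_le_cos_of_nonneg_of_le_pi (by norm_num) (by linarith only [hpi', hψ1, hθ]) (by linarith only [h0, hτ1])).trans h3
    have hs := Real.sin_le_one (s - τ)
    have h2 : exp a * (x * cos (s - τ) + n * sin (s - τ)) ≤
        (1 + 172 / 100 * a) * (x * (5 / 9) + n * 1) := by
      have h3 : x * cos (s - τ) + n * sin (s - τ) ≤ x * (5 / 9) + n * 1 :=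
        add_le_add (mul_le_mul_of_nonneg_left hc hx0.le) (mul_le_mul_of_nonneg_left hs hn0)
      exact (mul_le_mul_of_nonneg_left h3 (exp_pos a).le).trans
        (mul_le_mul_of_nonneg_right he (by (clear * - hx0 hn0; positivity)))
    have h4 : n * a ≤ 53 / 100 * a := mul_le_mul_of_nonneg_right hn1 ha0
    have h5 : n * (3 / 2) ≤ n * s := mul_le_mul_of_nonneg_left h0 hn0
    have h6 : a * (3 / 2) ≤ a * s := mul_le_mul_of_nonneg_left h0 ha0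
    have h10 : 0 ≤ a * x := by (clear * - ha0 hx0; positivity)
    have h7 : 1 / 4 ≤ 58 / 100 * a + 194 / 1000 * x := by
      have h8 : 0 < 1 + x := by linarith only [hn0, hT]
      have h9 : 1 / (1 + x) ≤ a := by
        rw [div_le_iff₀ h8]
        linarith only [ha2]
      have h11 : 58 / 100 * (1 / (1 + x)) + 194 / 1000 * x - 1 / 4 =
          (58 / 100 + (194 / 1000 * x - 1 / 4) * (1 + x)) / (1 + x) := by
        field_simp
        ring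
      have h12 : 0 ≤ (58 / 100 + (194 / 1000 * x - 1 / 4) * (1 + x)) / (1 + x) := by
        refine div_nonneg ?_ h8.le
        nlinarith only [sq_nonneg (x - 1 / 10)]
      linarith only [h9, h11, h12]
    linarith only [hn0, ha2, htg', haz, h2, h4, h5, h6, h10, h7]

private theorem rl_small_ocr {x n z a v : ℝ} (hx0 : 0 < x) (hx1 : x ≤ 9 / 5) (hn0 : 0 ≤ n) (hn1 : n ≤ 53 / 100)
    (hT : n ≤ 4 / 5 * x) (hz0 : 0 ≤ z) (hz : z * (1 + x + x * x) ≤ 84 / 100 * x * (1 + x)) (hv : 3 / 2 ≤ v)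
    (hz1 : z ≤ 1 / 2 * (x * (1 + x)))
    (ha : a = 1 ∧ 1 + x ≤ v ∨ v = (1 + x) * a ∧ a ≤ 1) {M e : ℝ} (he0 : 0 < e)
    (he1 : 76 / 100 - 43 / 100 * a ≤ e) (he2 : e ≤ 1 - a / 2)
    (hM0 : M ≤ 708 / 10000 * (x + 2 / 5 * n)) (hM1 : v ≤ 2 → M ≤ 708 / 10000 * x - 59 / 100 * n) :
    1 / 4 + 1 / 4 * (x + 2 / 5 * n) * (1 - 735 / 1000 * n) ≤ (a - n) * (v - z) + x * (1 - a) - e * M := by
  have hw : 0 < 1 + x + x * x := by positivity
  have h1x : 0 < 1 + x := by linarith only [hx0]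
  rcases ha with ⟨rfl, hv1⟩ | ⟨rfl, ha1⟩
  · have h2 : e * M ≤ (1 - 1 / 2) * (708 / 10000 * (x + 2 / 5 * n)) :=
      (mul_le_mul_of_nonneg_left hM0 he0.le).trans (mul_le_mul_of_nonneg_right he2 (by (clear * - hx0 hn0; positivity)))
    rcases le_total (1 / 2) x with h3 | h3
    · have h4 := h_ocr h3 hx1 hn0 hn1
      have h5 : 0 ≤ (1 - n) * (84 / 100 * x * (1 + x) - z * (1 + x + x * x)) :=
        mul_nonneg (by linarith only [hn1]) (by linarith only [hz])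
      have h6 : 0 ≤ (1 - n) * (v - (1 + x)) := mul_nonneg (by linarith only [hn1]) (by linarith only [hv1])
      have h7 : 0 ≤ (1 + x + x * x) * ((1 - n) * ((1 + x) - z) - 708 / 10000 * (x + 2 / 5 * n) / 2 -
          (1 / 4 + 1 / 4 * (x + 2 / 5 * n) * (1 - 735 / 1000 * n))) := by linarith only [h4, h5]
      have h8 := (mul_nonneg_iff_of_pos_left hw).1 h7
      linarith only [h2, h6, h8]
    · have h4 : 0 ≤ (1 - n) * (v - 3 / 2) := mul_nonneg (by linarith only [hn1]) (by linarith only [hv])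
      have h5 : z ≤ 3 / 8 := by nlinarith only [hz1, h1x, h3]
      have h6 : 0 ≤ (1 - n) * (3 / 8 - z) := mul_nonneg (by linarith only [hn1]) (by linarith only [h5])
      linarith only [hT, h2, h3, h4, h6, mul_nonneg hn0 hn0, mul_nonneg hn0 hx0.le]
  · have hnv : n * (1 + x) ≤ (1 + x) * a := by nlinarith only [hx1, hn0, hn1, hv]
    have h5 : 0 ≤ ((1 + x) * a - n * (1 + x)) * (84 / 100 * x * (1 + x) - z * (1 + x + x * x)) :=
      mul_nonneg (by linarith only [hnv]) (by linarith only [hz])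
    have hpos : 0 < (1 + x) * (1 + x + x * x) := by positivity
    have hv0 : (1 + x) * a ≤ 1 + x := by nlinarith only [h1x, ha1]
    rcases le_total ((1 + x) * a) 2 with h2 | h2
    · have hM := hM1 h2
      have h3 : e * M ≤ 708 / 10000 * x - 59 / 100 * n * (76 / 100 - 43 / 100 * a) := by
        have h4 : e * M ≤ e * (708 / 10000 * x - 59 / 100 * n) := mul_le_mul_of_nonneg_left hM he0.le
        have ha0 : 0 ≤ a := by
          by_contra hcon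
          push Not at hcon
          nlinarith only [hv, hv0, hcon]
        have h6 : e * (708 / 10000 * x) ≤ 1 * (708 / 10000 * x) :=
          mul_le_mul_of_nonneg_right (by linarith only [he2, ha0]) (by (clear * - hx0; positivity))
        have h7 : 59 / 100 * n * (76 / 100 - 43 / 100 * a) ≤ 59 / 100 * n * e :=
          mul_le_mul_of_nonneg_left he1 (by (clear * - hn0; positivity))
        linarith only [h4, h6, h7]
      have h4 := q1_ocr (x := x) (v := (1 + x) * a) (n := n) (by linarith only [hv, hv0]) hx1 hv h2 hn0 hn1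
      have h7 : 0 ≤ ((1 + x) * (1 + x + x * x)) * ((a - n) * ((1 + x) * a - z) + x * (1 - a) -
          (708 / 10000 * x - 59 / 100 * n * (76 / 100 - 43 / 100 * a)) -
          (1 / 4 + 1 / 4 * (x + 2 / 5 * n) * (1 - 735 / 1000 * n))) := by
        linarith only [h5, h4]
      have h8 := (mul_nonneg_iff_of_pos_left hpos).1 h7
      linarith only [h3, h8]
    · have h3 : e * M ≤ (1 - a / 2) * (708 / 10000 * (x + 2 / 5 * n)) :=
        (mul_le_mul_of_nonneg_left hM0 he0.le).trans (mul_le_mul_of_nonneg_right he2 (by (clear * - hx0 hn0; positivity)))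
      have h4 := q0_ocr (x := x) (v := (1 + x) * a) (n := n) (by linarith only [hv0, h2]) hx1 h2 (by linarith only [hx1, hv0]) hn0 hn1
      have h7 : 0 ≤ ((1 + x) * (1 + x + x * x)) * ((a - n) * ((1 + x) * a - z) + x * (1 - a) -
          (1 - a / 2) * (708 / 10000 * (x + 2 / 5 * n)) -
          (1 / 4 + 1 / 4 * (x + 2 / 5 * n) * (1 - 735 / 1000 * n))) := by
        linarith only [h5, h4]
      have h8 := (mul_nonneg_iff_of_pos_left hpos).1 h7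
      linarith only [h3, h8]

private theorem rl_big_ocr {x n z a v : ℝ} (hx1 : 9 / 5 ≤ x) (hn0 : 0 ≤ n) (hn1 : n ≤ 53 / 100)
    (hz0 : 0 ≤ z) (hz : z ≤ 84 / 100) (hv : z ≤ v)
    (ha0 : 0 ≤ a) (hav : (1 + x) * a ≤ v) (hva : a < n → v ≤ 6 / 5 * ((1 + x) * a)) {M e : ℝ} (he0 : 0 < e)
    (he2 : e ≤ 1) (hM0 : M ≤ 708 / 10000 * (x + 2 / 5 * n)) :
    1 / 4 + 1 / 4 * (x + 2 / 5 * n) * (1 - 735 / 1000 * n) ≤ (a - n) * (v - z) + x * (1 - a) - e * M := by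
  have h1x : 0 < 1 + x := by linarith only [hx1, hn0]
  have h2 : e * M ≤ 1 * (708 / 10000 * (x + 2 / 5 * n)) :=
    (mul_le_mul_of_nonneg_left hM0 he0.le).trans (mul_le_mul_of_nonneg_right he2 (by (clear * - hx1 hn0; positivity)))
  rcases lt_or_ge a n with h3 | h3
  · have h4 := hva h3
    have h5 : (n - a) * (v - z) ≤ (n - a) * x := by
      refine mul_le_mul_of_nonneg_left ?_ (by linarith only [h3])
      have h6 : (1 + x) * a ≤ (1 + x) * (53 / 100) := mul_le_mul_of_nonneg_left (by linarith only [hn1, h3]) h1x.le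
      linarith only [hx1, hz0, h4, h6]
    nlinarith only [hx1, hn1, h2, h5]
  · have h4 := e_ocr (x := x) (z := z) (n := n) hx1 hz0 (by linarith only [hz]) hn0 hn1
    have h5 : 0 ≤ (a - n) * (v - (1 + x) * a) := mul_nonneg (by linarith only [h3]) (by linarith only [hav])
    have h6 : 0 ≤ (4 * (1 + x)) * ((a - n) * ((1 + x) * a - z) + x * (1 - a) -
        708 / 10000 * (x + 2 / 5 * n) - (1 / 4 + 1 / 4 * (x + 2 / 5 * n) * (1 - 735 / 1000 * n))) := by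
      have h7 := sq_nonneg (2 * (1 + x) * a - (z + n * (1 + x) + x))
      linarith only [h4, h7]
    have h8 := (mul_nonneg_iff_of_pos_left (by (clear * - hx1; positivity))).1 h6
    linarith only [h2, h5, h8]

/-- right side, `s = -v < 0` (true `.47`) -/
theorem cRl {x n z τ k ψ v : ℝ} (h : ShR x n z τ k ψ) (hD : 13 / 20 ≤ (1 - n) ^ (2 : ℕ) + x ^ (2 : ℕ))
    (h0 : 3 / 2 ≤ v) (h1 : v + τ + ψ ≤ 2 * π - 3 / 2) :
    1 / 4 * (1 + k * exp (-n)) ≤ Hc x (-n) (-z) (-τ) (-(pa x v)) (-v) := by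
  have _ := hD
  have hpi : π < 3.1416 := Real.pi_lt_d4
  have hpi' : 3.1415 < π := Real.pi_gt_d4
  obtain ⟨hx0, hn0, hn1, hT, hz0, hτ0, hzτ, hζ, hτ1, hk0, hψ0, hψ1, hx, hy⟩ := h
  have htg := tgt_ocr hx0 hn0 hn1 hT hk0 hx hy
  have hk := k_ocr hx0 hn0 hT hk0 hx hy
  obtain ⟨ha0, ha1, ha3, ha2⟩ := pa_ocr hx0 (s := v) (by linarith only [h0])
  have hu : Hc x (-n) (-z) (-τ) (-(pa x v)) (-v) = (pa x v - n) * (v - z) + x * (1 - pa x v) -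
      exp (-(pa x v)) * (x * cos (v + τ) - n * sin (v + τ)) := by
    unfold Hc
    rw [show -v + -τ = -(v + τ) by ring, Real.cos_neg, Real.sin_neg]
    ring
  rw [hu]
  refine htg.trans ?_
  obtain ⟨he1, he2, -⟩ := explin_ocr ha0 ha1
  have hM : x * cos (v + τ) - n * sin (v + τ) = k * cos (v + τ + ψ) := by
    rw [Real.cos_add (v + τ) ψ, hx, hy]
    ring
  have hM0 : x * cos (v + τ) - n * sin (v + τ) ≤ 708 / 10000 * (x + 2 / 5 * n) := by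
    rw [hM]
    have hc := cos_ocr (φ := v + τ + ψ) (by linarith only [h0, hτ0, hψ0]) h1
    have h3 : k * cos (v + τ + ψ) ≤ k * (708 / 10000) := mul_le_mul_of_nonneg_left hc hk0.le
    linarith only [hk, h3]
  rcases le_total (9 / 5) x with hx1 | hx1
  · refine rl_big_ocr hx1 hn0 hn1 hz0 (by linarith only [hτ0, hζ]) (by linarith only [h0, hτ0, hζ]) ha0 ha3 ?_ (exp_pos _) (by linarith only [ha0, he2]) hM0
    intro h2
    have h1x : 0 < 1 + x := by linarith only [hx1]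
    unfold pa at h2 ⊢
    rcases min_choice (v / (1 + x)) (a4 x) with h3 | h3
    · rw [h3]
      have h4 : (1 + x) * (v / (1 + x)) = v := by field_simp
      rw [h4]
      linarith only [ha3, ha2]
    · rw [h3] at h2 ⊢
      unfold a4 at h2 ⊢
      rcases min_choice (1 : ℝ) (4 / (1 + x)) with h4 | h4
      · rw [h4] at h2
        linarith only [hn1, h2]
      · rw [h4]
        have h5 : (1 + x) * (4 / (1 + x)) = 4 := by field_simp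
        rw [h5]
        linarith only [h1, hpi, hτ0, hψ0]
  · refine rl_small_ocr hx0 hx1 hn0 hn1 hT hz0 ?_ h0 ?_ ?_ (exp_pos _) he1 he2 hM0 ?_
    · have h2 : z * (1 + x + x * x) = x * (1 + x) * (z + τ) := by
        rw [hzτ]
        ring
      rw [h2]
      have h3 : x * (1 + x) * (z + τ) ≤ x * (1 + x) * (21 / 25) :=
        mul_le_mul_of_nonneg_left hζ (by positivity)
      linarith only [h3]
    · rw [hzτ]
      have h3 : x * (1 + x) * τ ≤ x * (1 + x) * (1 / 2) := mul_le_mul_of_nonneg_left hτ1 (by (clear * - hx0; positivity))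
      linarith only [h3]
    · have h1x : 0 < 1 + x := by linarith only [hx0]
      have h4 : a4 x = 1 := by
        unfold a4
        refine min_eq_left ?_
        rw [le_div_iff₀ h1x]
        linarith only [hx1]
      unfold pa
      rw [h4]
      rcases le_total v (1 + x) with h5 | h5
      · right
        have h6 : v / (1 + x) ≤ 1 := by
          rw [div_le_one h1x]
          exact h5
        rw [min_eq_left h6]
        refine ⟨?_, h6⟩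
        field_simp
      · left
        refine ⟨?_, h5⟩
        refine min_eq_right ?_
        rw [le_div_iff₀ h1x]
        linarith only [h5]
    · intro hv2
      have hc := cos_ocr (φ := v + τ) (by linarith only [h0, hτ0]) (by linarith only [h1, hψ0])
      have hs : 59 / 100 ≤ sin (v + τ) := by
        rcases le_total (v + τ) (π / 2) with h3 | h3
        · have h4 : sin (3 / 2) ≤ sin (v + τ) :=
            Real.sin_le_sin_of_le_of_le_pi_div_two (by linarith only [hpi']) h3 (by linarith only [h0, hτ0])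
          have h5 : 59 / 100 ≤ sin (3 / 2) := by
            rw [← Real.cos_sub_pi_div_two]
            have h6 := Real.one_sub_sq_div_two_le_cos (x := 3 / 2 - π / 2)
            nlinarith only [hpi, hpi', h6]
          linarith only [h4, h5]
        · have h4 : sin (5 / 2) ≤ sin (v + τ) := by
            rw [← Real.sin_pi_sub (v + τ), ← Real.sin_pi_sub (5 / 2)]
            exact Real.sin_le_sin_of_le_of_le_pi_div_two (by linarith only [hpi']) (by linarith only [h3]) (by linarith only [hτ1, hv2])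
          have h5 : 59 / 100 ≤ sin (5 / 2) := by
            rw [← Real.sin_pi_sub (5 / 2)]
            have h6 := Real.sin_gt_sub_cube (x := π - 5 / 2) (by linarith only [hpi'])
            nlinarith only [hpi, hpi', h6, mul_pos (show (0:ℝ) < π - 5 / 2 by linarith only [hpi']) (show (0:ℝ) < π - 5 / 2 by linarith only [hpi'])]
          linarith only [h4, h5]
      have h3 : x * cos (v + τ) ≤ x * (708 / 10000) := mul_le_mul_of_nonneg_left hc hx0.le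
      have h4 : n * (59 / 100) ≤ n * sin (v + τ) := mul_le_mul_of_nonneg_left hs hn0
      linarith only [h3, h4]

end SokamV3O

end
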