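import Pool.Agent.Lib_MP_af4de1_zy.Z01

/-! ### Lib_MP_af4de1_ti.R2 -/

section
/-!
# Right saddle, the vertical leg `v = i y` [TI-R2]

`ht h (iy) = s (1 - cos y) + a (y - sin y)`.
`vert_height` (`y ≤ 3/2`): `1 - cos y ≥ y²/2 - y⁴/24`, `y - sin y ≥ y³/6 - y⁵/120`; with `s ≤ 3a`:
`s (1/20 - y²/24) + a (y/6 - y³/120) ≥ 0` (if the first bracket is negative use `s ≤ 3a`: at `y = 3/2`: `3(.05-.09375)+.25-.0281 > 0`).
`vert_far` (`y ≥ 3/2`): difference `s(-1/80 - cos y) + a(y/2 - sin y + 11/20)`; if `cos y ≤ -1/80` it is `≥ a(3/4 - 1 + 11/20) > 0`; otherwise `s ≤ 3a` gives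
`≥ a(y/2 + 41/80 - 3 cos y - sin y)`: `y ∈ [3/2, π]`: `cos y ≤ cos(3/2) ≤ .0708`, `sin y ≤ 1`; `y ∈ [π, 3π/2]`: `cos, sin ≤ 0`;
`y ∈ [3π/2, 5]`: `sin y ≤ 0`, `cos y = sin(y - 3π/2) ≤ y - 3π/2 ≤ .29`; `y ∈ [5, 2π]`: `sin y ≤ 0`, `3 cos y ≤ 3 ≤ y/2 + 41/80`; `y ≥ 2π`: `3 cos y + sin y ≤ √10 < 3.17 < y/2 + 41/80`.
`vert_gg`: `|gg(iy)| ≤ y²/2`, `vert_g3`: `|gg(iy) + y²/2| ≤ y³/6` (`Complex.norm_exp_I..`, Taylor with remainder; mean value inequality).
-/

set_option autoImplicit false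

namespace SokamTI

open Complex

private theorem r2_gg (y : ℝ) : gg (I * y) =
    ((Real.cos y - 1 : ℝ) : ℂ) + ((Real.sin y - y : ℝ) : ℂ) * I := by
  unfold gg
  rw [mul_comm I (y : ℂ), Complex.exp_mul_I]
  push_cast
  ring

theorem vert_ht (h : ℂ) (y : ℝ) :
    ht h (I * y) = h.im * (1 - Real.cos y) + h.re * (y - Real.sin y) := by
  unfold ht
  rw [r2_gg]
  have e : (I * (y : ℂ)) ^ (2 : ℕ) / 2 = ((-(y ^ (2 : ℕ) / 2) : ℝ) : ℂ) := by
    rw [mul_pow, I_sq]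
    push_cast
    ring
  rw [e, sub_im, ofReal_im, mul_im, add_re, add_im, ofReal_re, ofReal_im, mul_re, mul_im,
    ofReal_re, ofReal_im, I_re, I_im]
  ring

theorem vert_quad (h : ℂ) (y : ℝ) : ((1 - h) * ((I * y) ^ (2 : ℕ) / 2)).im = h.im * y ^ (2 : ℕ) / 2 := by
  have e : (I * (y : ℂ)) ^ (2 : ℕ) / 2 = ((-(y ^ (2 : ℕ) / 2) : ℝ) : ℂ) := by
    rw [mul_pow, I_sq]
    push_cast
    ring
  rw [e, mul_im, ofReal_re, ofReal_im, sub_im, one_im]
  ring

private theorem r2_nonneg {f f' : ℝ → ℝ} (hf : ∀ x, HasDerivAt f (f' x) x) (h0 : f 0 = 0)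
    (hp : ∀ x, 0 ≤ x → 0 ≤ f' x) {y : ℝ} (hy : 0 ≤ y) : 0 ≤ f y := by
  have hm : MonotoneOn f (Set.Ici 0) := by
    refine monotoneOn_of_deriv_nonneg (convex_Ici 0)
      (fun x _ => (hf x).continuousAt.continuousWithinAt)
      (fun x _ => (hf x).differentiableAt.differentiableWithinAt) (fun x hx => ?_)
    rw [(hf x).deriv]
    exact hp x (interior_subset hx)
  have := hm (Set.mem_Ici.2 le_rfl) (Set.mem_Ici.2 hy) hy
  rwa [h0] at this

private theorem r2_c2 {y : ℝ} (hy : 0 ≤ y) : 0 ≤ Real.cos y - 1 + y ^ (2 : ℕ) / 2 := by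
  refine r2_nonneg (f := fun y => Real.cos y - 1 + y ^ (2 : ℕ) / 2) (f' := fun y => -Real.sin y + y)
    (fun x => ?_) (by simp) (fun x hx => ?_) hy
  · have h1 := ((Real.hasDerivAt_cos x).sub_const 1).add (((hasDerivAt_id x).pow 2).div_const 2)
    refine h1.congr_deriv ?_
    norm_num
  · have := Real.sin_le hx
    show 0 ≤ -Real.sin x + x
    linarith only [this]

private theorem r2_s3 {y : ℝ} (hy : 0 ≤ y) : 0 ≤ Real.sin y - y + y ^ (3 : ℕ) / 6 := by
  refine r2_nonneg (f := fun y => Real.sin y - y + y ^ (3 : ℕ) / 6)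
    (f' := fun y => Real.cos y - 1 + y ^ (2 : ℕ) / 2) (fun x => ?_) (by simp) (fun x hx => r2_c2 hx) hy
  have h1 := ((Real.hasDerivAt_sin x).sub (hasDerivAt_id x)).add
    (((hasDerivAt_id x).pow 3).div_const 6)
  refine h1.congr_deriv ?_
  norm_num
  ring

private theorem r2_c4 {y : ℝ} (hy : 0 ≤ y) : 0 ≤ 1 - y ^ (2 : ℕ) / 2 + y ^ (4 : ℕ) / 24 - Real.cos y := by
  refine r2_nonneg (f := fun y => 1 - y ^ (2 : ℕ) / 2 + y ^ (4 : ℕ) / 24 - Real.cos y)
    (f' := fun y => Real.sin y - y + y ^ (3 : ℕ) / 6) (fun x => ?_) (by simp) (fun x hx => r2_s3 hx) hy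
  have h1 := (((((hasDerivAt_id x).pow 2).div_const 2).const_sub 1).add
    (((hasDerivAt_id x).pow 4).div_const 24)).sub (Real.hasDerivAt_cos x)
  refine h1.congr_deriv ?_
  norm_num
  ring

private theorem r2_s5 {y : ℝ} (hy : 0 ≤ y) :
    0 ≤ y - y ^ (3 : ℕ) / 6 + y ^ (5 : ℕ) / 120 - Real.sin y := by
  refine r2_nonneg (f := fun y => y - y ^ (3 : ℕ) / 6 + y ^ (5 : ℕ) / 120 - Real.sin y)
    (f' := fun y => 1 - y ^ (2 : ℕ) / 2 + y ^ (4 : ℕ) / 24 - Real.cos y) (fun x => ?_) (by simp)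
    (fun x hx => r2_c4 hx) hy
  have h1 := (((hasDerivAt_id x).sub (((hasDerivAt_id x).pow 3).div_const 6)).add
    (((hasDerivAt_id x).pow 5).div_const 120)).sub (Real.hasDerivAt_sin x)
  refine h1.congr_deriv ?_
  norm_num
  ring

theorem vert_height {h : ℂ} {y : ℝ} (h0 : 0 ≤ y) (h1 : y ≤ 3 / 2) (ha : 0 < h.re) (hs : 0 < h.im)
    (hs3 : h.im ≤ 78 / 25 * h.re) : 9 / 20 * h.im * y ^ (2 : ℕ) ≤ ht h (I * y) := by
  rw [vert_ht]
  have hc := r2_c4 h0
  have hsn := r2_s5 h0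
  have k1 : h.im * (y ^ (2 : ℕ) / 2 - y ^ (4 : ℕ) / 24) ≤ h.im * (1 - Real.cos y) :=
    mul_le_mul_of_nonneg_left (by linarith only [hc]) hs.le
  have k2 : h.re * (y ^ (3 : ℕ) / 6 - y ^ (5 : ℕ) / 120) ≤ h.re * (y - Real.sin y) :=
    mul_le_mul_of_nonneg_left (by linarith only [hsn]) ha.le
  have hy2 : y ^ (2 : ℕ) ≤ 9 / 4 := by nlinarith only [h0, h1]
  have k3 : 0 ≤ h.im * (1 / 20 - y ^ (2 : ℕ) / 24) + h.re * (y / 6 - y ^ (3 : ℕ) / 120) := by
    have k4 : 0 ≤ y / 6 - y ^ (3 : ℕ) / 120 := by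
      have : y ^ (3 : ℕ) = y * y ^ (2 : ℕ) := by ring
      rw [this]
      nlinarith only [h0, h1]
    rcases le_total 0 (1 / 20 - y ^ (2 : ℕ) / 24) with h5 | h5
    · positivity
    · have h6 : 78 / 25 * h.re * (1 / 20 - y ^ (2 : ℕ) / 24) ≤ h.im * (1 / 20 - y ^ (2 : ℕ) / 24) :=
        mul_le_mul_of_nonpos_right hs3 h5
      have h7 : 0 ≤ 78 / 25 * (1 / 20) + y / 6 - 78 / 25 * (y ^ (2 : ℕ) / 24) - y ^ (3 : ℕ) / 120 := by
        have e1 : y ^ (2 : ℕ) ≤ 3 / 2 * y := by nlinarith only [hy2, k4]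
        have e2 : y ^ (3 : ℕ) ≤ 9 / 4 * y := by
          have : y ^ (3 : ℕ) = y * y ^ (2 : ℕ) := by ring
          rw [this]
          nlinarith only [e1]
        linarith only [hy2, e1, e2]
      have h8 := mul_nonneg ha.le h7
      linarith only [h6, h8]
  have k5 := mul_nonneg (sq_nonneg y) k3
  linarith only [k1, k2, k5]

theorem vert_far {h : ℂ} {y : ℝ} (h1 : 3 / 2 ≤ y) (ha : 0 < h.re) (hs : 0 < h.im)
    (hs3 : h.im ≤ 78 / 25 * h.re) :
    81 / 80 * h.im + h.re / 5 + h.re / 2 * (y - 3 / 2) ≤ ht h (I * y) := by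
  rw [vert_ht]
  have hsin := Real.sin_le_one y
  have hcos := Real.cos_le_one y
  rcases le_total (Real.cos y) (-1 / 80) with hc | hc
  · have k1 : 0 ≤ h.im * (-1 / 80 - Real.cos y) := mul_nonneg hs.le (by linarith only [hc])
    have k2 : 0 ≤ h.re * (y / 2 - Real.sin y + 11 / 20) := mul_nonneg ha.le (by linarith only [h1, hsin])
    linarith only [k1, k2]
  · have k1 : 78 / 25 * h.re * (-1 / 80 - Real.cos y) ≤ h.im * (-1 / 80 - Real.cos y) :=
      mul_le_mul_of_nonpos_right hs3 (by linarith only [hc])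
    have key : 78 / 25 * Real.cos y + Real.sin y ≤ y / 2 + 511 / 1000 := by
      have hpi1 := Real.pi_gt_d6
      have hpi2 := Real.pi_lt_d6
      rcases le_total y Real.pi with h2 | h2
      · have e1 : Real.cos y ≤ Real.cos (3 / 2) :=
          Real.cos_le_cos_of_nonneg_of_le_pi (by norm_num) h2 h1
        have e2 : Real.cos (3 / 2) ≤ Real.pi / 2 - 3 / 2 := by
          rw [← Real.sin_pi_div_two_sub]
          exact Real.sin_le (by linarith only [hpi1])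
        linarith only [h1, hsin, hpi2, e1, e2]
      · rcases le_total y (2 * Real.pi) with h3 | h3
        · have e3 : Real.sin y ≤ 0 := by
            have e4 := Real.sin_nonpos_of_nonpos_of_neg_pi_le (x := y - 2 * Real.pi)
              (by linarith only [h3]) (by linarith only [h2])
            rwa [Real.sin_sub_two_pi] at e4
          rcases le_total y (53 / 10) with h4 | h4
          · rcases le_total y (Real.pi + Real.pi / 2) with h5 | h5
            · have e5 := Real.cos_nonpos_of_pi_div_two_le_of_le (x := y) (by linarith only [h2, h3]) h5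
              linarith only [h2, e3, h5, e5]
            · have e6 : Real.cos y ≤ y - 3 * Real.pi / 2 := by
                have e7 : Real.cos y = Real.sin (y - 3 * Real.pi / 2) := by
                  rw [← Real.cos_two_pi_sub, ← Real.sin_pi_div_two_sub]
                  congr 1
                  ring
                rw [e7]
                exact Real.sin_le (by linarith only [h5])
              linarith only [hpi1, e3, h4, e6]
          · linarith only [hcos, e3, h4]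
        · have e8 : (78 / 25 * Real.cos y + Real.sin y) ^ (2 : ℕ) ≤ (78 / 25) ^ (2 : ℕ) + 1 := by
            linarith only [Real.sin_sq_add_cos_sq y, sq_nonneg (Real.cos y - 78 / 25 * Real.sin y)]
          have e9 : 78 / 25 * Real.cos y + Real.sin y ≤ 328 / 100 := by
            nlinarith only [e8]
          linarith only [hpi1, h3, e9]
    have k2 := mul_le_mul_of_nonneg_left key ha.le
    linarith only [k1, k2]

private theorem r2_d (y : ℝ) : HasDerivAt (fun y : ℝ => gg (I * y)) (I * (cexp (I * y) - 1)) y := by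
  have h1 : HasDerivAt (fun z : ℂ => I * z) I (y : ℂ) := by
    simpa using (hasDerivAt_id (y : ℂ)).const_mul I
  have h2 := ((hasDerivAt_gg (I * y)).comp (y : ℂ) h1).comp_ofReal
  rw [mul_comm] at h2
  exact h2

private theorem r2_one {y : ℝ} (h0 : 0 ≤ y) : ‖cexp (I * y) - 1‖ ≤ y := by
  have := Real.norm_exp_I_mul_ofReal_sub_one_le (x := y)
  rwa [Real.norm_of_nonneg h0] at this

theorem vert_gg {y : ℝ} (h0 : 0 ≤ y) : ‖gg (I * y)‖ ≤ y ^ (2 : ℕ) / 2 := by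
  refine image_norm_le_of_norm_deriv_right_le_deriv_boundary (a := 0) (b := y)
    (f := fun y : ℝ => gg (I * y)) (f' := fun y : ℝ => I * (cexp (I * y) - 1))
    (B := fun y => y ^ (2 : ℕ) / 2) (B' := fun y => y)
    (fun x _ => (r2_d x).continuousAt.continuousWithinAt)
    (fun x _ => (r2_d x).hasDerivWithinAt) ?_ (fun x => ?_) (fun x hx => ?_)
    (Set.right_mem_Icc.2 h0)
  · simp [gg]
  · have h1 := ((hasDerivAt_id x).pow 2).div_const 2
    refine h1.congr_deriv ?_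
    norm_num
  · rw [norm_mul, norm_I, one_mul]
    exact r2_one hx.1

theorem vert_g3 {y : ℝ} (h0 : 0 ≤ y) : ‖gg (I * y) - (I * y) ^ (2 : ℕ) / 2‖ ≤ y ^ (3 : ℕ) / 6 := by
  have hd : ∀ x : ℝ, HasDerivAt (fun y : ℝ => gg (I * y) - (I * y) ^ (2 : ℕ) / 2) (I * gg (I * x)) x := by
    intro x
    have h1 : HasDerivAt (fun z : ℂ => (I * z) ^ (2 : ℕ) / 2) (-(x : ℂ)) (x : ℂ) := by
      have h2 : HasDerivAt (fun z : ℂ => I * z) I (x : ℂ) := by
        simpa using (hasDerivAt_id (x : ℂ)).const_mul I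
      have h3 := (h2.pow 2).div_const 2
      refine h3.congr_deriv ?_
      norm_num
      have : (2 * (I * (x : ℂ)) * I / 2) = (I * I) * x := by ring
      rw [this, I_mul_I]
      ring
    have h4 := (r2_d x).sub h1.comp_ofReal
    refine h4.congr_deriv ?_
    unfold gg
    have : I * (cexp (I * x) - 1 - I * x) = I * (cexp (I * x) - 1) - (I * I) * x := by ring
    rw [this, I_mul_I]
    ring
  refine image_norm_le_of_norm_deriv_right_le_deriv_boundary (a := 0) (b := y)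
    (f := fun y : ℝ => gg (I * y) - (I * y) ^ (2 : ℕ) / 2) (f' := fun y : ℝ => I * gg (I * y))
    (B := fun y => y ^ (3 : ℕ) / 6) (B' := fun y => y ^ (2 : ℕ) / 2)
    (fun x _ => (hd x).continuousAt.continuousWithinAt)
    (fun x _ => (hd x).hasDerivWithinAt) ?_ (fun x => ?_) (fun x hx => ?_)
    (Set.right_mem_Icc.2 h0)
  · simp [gg]
  · have h1 := ((hasDerivAt_id x).pow 3).div_const 6
    refine h1.congr_deriv ?_
    norm_num
    ring
  · rw [norm_mul, norm_I, one_mul]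
    exact vert_gg hx.1

end SokamTI

end

/-! ### Lib_MP_af4de1_ti.RV -/

section
/-!
# Right saddle, the integrals over the vertical leg [TI-RV]

`b = 9 s/(20 δ)`, `T = 3/2`, `b T² = 81 s/(80 δ)`.
`vert_J`: on `(0, 3/2]` `‖e^Ev - e^Ev2‖ ≤ (‖h‖/δ)(y³/6) e^{-b y²}` (`norm_exp_sub_exp_le`, `norm_Ev_sub_Ev2`, `vert_g3`, `vert_height`, `vert_quad`).  On `[3/2, ∞)`
`‖e^Ev‖ + ‖e^Ev2‖ ≤ e^{-81s/(80δ)} e^{-a(y-3/2)/(2δ)} + e^{-s y²/(2δ)}`, of integral `≤ e^{-81s/(80δ)}(2δ/a) + (2δ/(3s)) e^{-9s/(8δ)}`.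
`∫_0^∞ y³ e^{-b y²} = 1/(2b²)` and `∫_{3/2}^∞ y³ e^{-b y²} = (1 + bT²) e^{-bT²}/(2b²)` (antiderivative `-(1 + b y²) e^{-b y²}/(2b²)`), so
`∫_0^{3/2} = (1 - (1+bT²)e^{-bT²})/(2b²)` and the total is `≤ (‖h‖/(6δ))/(2b²) = ‖h‖ δ 100/(243 s²)` because
`(‖h‖/(6δ)) (bT²) e^{-bT²}/(2b²) = (5/12)(‖h‖/s) e^{-81s/(80δ)} ≥ e^{-81s/(80δ)} (2δ/a + 2δ/(3s))`: `5‖h‖/12 ≥ 2 δ s/a + 2δ/3` for `δ ≤ 2/25`, `a ≥ 97/100`, `s ≤ 3a`
(`‖h‖ ≥ a`, `‖h‖ ≥ s`: e.g. `‖h‖ ≥ (3a + 4s)/5`: `5/12*(3/5)a = a/4 ≥ 4/75`, `5/12*4/5 s = s/3 ≥ 4s/(25 a)`).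
`vert_K`: the same with `y²/2`: `∫_0^∞ (y²/2) e^{-b y²} = (√π/8) b^{-3/2} ≤ .73397 (δ/s)^{3/2}`, slack `∫_{3/2}^∞ (y²/2) e^{-by²} ≥ (T/(4b)) e^{-bT²} = (5δ/(6s)) e^{-bT²}`
against `∫_{3/2}^∞ (y²/2) e^{-f/δ} ≤ e^{-bT²} e^{-a/(5δ)} (2δ/a)(9/8 + (3/2)(2δ/a) + (2δ/a)²) ≤ e^{-bT²} (9/100) (14/5) δ/a`, `s ≤ 3a`.
-/

set_option autoImplicit false

namespace SokamTI

open Complex MeasureTheory Set

/-- splitting of the integral at `T` -/
private theorem rv_split {f : ℝ → ℂ} (hf : IntegrableOn f (Ioi 0)) {T : ℝ} (hT : 0 ≤ T)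
    {φ Ψ ψ : ℝ → ℝ} {L A : ℝ} (hφ : Continuous φ) (hA : (∫ y in (0 : ℝ)..T, φ y) ≤ A)
    (h2 : ∀ y, HasDerivAt Ψ (ψ y) y) (hψ : ∀ y, T < y → 0 ≤ ψ y)
    (hL : Filter.Tendsto Ψ Filter.atTop (nhds L)) (b1 : ∀ y, 0 < y → y ≤ T → ‖f y‖ ≤ φ y)
    (b2 : ∀ y, T < y → ‖f y‖ ≤ ψ y) : ‖∫ y in Ioi (0 : ℝ), f y‖ ≤ A + (L - Ψ T) := by
  have hfT : IntegrableOn f (Ioi T) := hf.mono_set (Ioi_subset_Ioi hT)
  rw [← intervalIntegral.integral_interval_add_Ioi hf hfT]
  refine (norm_add_le _ _).trans (add_le_add ?_ ?_)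
  · refine le_trans (intervalIntegral.norm_integral_le_of_norm_le hT ?_ (hφ.intervalIntegrable _ _)) hA
    exact Filter.Eventually.of_forall fun y hy => b1 y hy.1 hy.2
  · have h3 : IntegrableOn ψ (Ioi T) :=
      integrableOn_Ioi_deriv_of_nonneg' (fun y _ => h2 y) (fun y hy => hψ y hy) hL
    rw [← integral_Ioi_of_hasDerivAt_of_nonneg' (fun y _ => h2 y) (fun y hy => hψ y hy) hL]
    refine norm_integral_le_of_norm_le h3 ?_
    exact (ae_restrict_iff' measurableSet_Ioi).2 (Filter.Eventually.of_forall fun y hy => b2 y hy)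

/-- `‖e^Ev‖` decays -/
private theorem rv_decay {h : ℂ} {δ : ℝ} (hδ : 0 < δ) (ha : 97 / 100 ≤ h.re) (hs : 0 < h.im)
    (hs3 : h.im ≤ 78 / 25 * h.re) {y : ℝ} (hy : 0 < y) :
    ‖cexp (Ev δ h (I * y))‖ ≤ Real.exp (-(h.re / (2 * δ) * (y - 3 / 2))) := by
  rw [norm_exp_Ev hδ]
  refine Real.exp_le_exp.2 (neg_le_neg ?_)
  rw [div_mul_eq_mul_div, div_le_div_iff₀ (by positivity) hδ]
  have key : h.re / 2 * (y - 3 / 2) ≤ ht h (I * y) := by
    rcases le_total y (3 / 2) with h1 | h1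
    · have h2 := vert_height hy.le h1 (by linarith only [hδ, ha, hs]) hs hs3
      have h3 : 0 ≤ 9 / 20 * h.im * y ^ (2 : ℕ) := by (clear * - hs hy; positivity)
      have h4 : h.re / 2 * (y - 3 / 2) ≤ 0 :=
        mul_nonpos_of_nonneg_of_nonpos (by linarith only [hs, hs3]) (by linarith only [h1])
      linarith only [h2, h3, h4]
    · have h2 := vert_far h1 (by linarith only [ha]) hs hs3
      linarith only [hs, hs3, h2]
  nlinarith only [hδ, key]

theorem vert_integrable {h : ℂ} {δ : ℝ} (hδ : 0 < δ) (ha : 97 / 100 ≤ h.re) (hs : 0 < h.im)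
    (hs3 : h.im ≤ 78 / 25 * h.re) {w : ℂ → ℂ} (hw : Continuous w) {C : ℝ} (hC : ∀ y : ℝ, ‖w (I * y)‖ ≤ C * (1 + y ^ (2 : ℕ))) :
    IntegrableOn (fun y : ℝ => w (I * y) * cexp (Ev δ h (I * y))) (Ioi 0) := by
  have hC0 : 0 ≤ C := by
    have := (norm_nonneg _).trans (hC 0)
    simpa using this
  set c : ℝ := h.re / (2 * δ) with hc
  have hcp : 0 < c := by
    have : 0 < h.re := by linarith only [ha]
    positivity
  have hint : IntegrableOn (fun y : ℝ => C * Real.exp (c * (3 / 2)) * (1 + 8 / c ^ (2 : ℕ)) *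
      Real.exp (-(c / 2) * y)) (Ioi 0) :=
    (exp_neg_integrableOn_Ioi 0 (by positivity : 0 < c / 2)).const_mul _
  refine Integrable.mono' hint ?_ ?_
  · have h1 : Continuous fun y : ℝ => w (I * y) * cexp (Ev δ h (I * y)) := by
      have h2 := continuous_Ev δ h
      have h3 : Continuous fun y : ℝ => I * (y : ℂ) := by fun_prop
      exact (hw.comp h3).mul (Complex.continuous_exp.comp (h2.comp h3))
    exact h1.aestronglyMeasurable
  · refine (ae_restrict_iff' measurableSet_Ioi).2 (Filter.Eventually.of_forall fun y hy => ?_)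
    have hy0 : 0 < y := hy
    rw [norm_mul]
    have h1 := rv_decay hδ ha hs hs3 hy0
    rw [← hc] at h1
    have h2 : y ^ (2 : ℕ) ≤ 8 / c ^ (2 : ℕ) * Real.exp (c / 2 * y) := by
      have h3 := Real.quadratic_le_exp_of_nonneg (x := c / 2 * y) (by (clear * - ha hδ hy0; positivity))
      have h4 : (c / 2 * y) ^ (2 : ℕ) / 2 ≤ Real.exp (c / 2 * y) := by
        have : 0 ≤ c / 2 * y := by (clear * - ha hδ hy0; positivity)
        linarith only [h3, this]
      have h5 : y ^ (2 : ℕ) = 8 / c ^ (2 : ℕ) * ((c / 2 * y) ^ (2 : ℕ) / 2) := by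
        field_simp
        ring
      rw [h5]
      exact mul_le_mul_of_nonneg_left h4 (by (clear * - ha hδ; positivity))
    have h3 : 1 ≤ Real.exp (c / 2 * y) := Real.one_le_exp (by (clear * - ha hδ hy0; positivity))
    have h4 : 1 + y ^ (2 : ℕ) ≤ (1 + 8 / c ^ (2 : ℕ)) * Real.exp (c / 2 * y) := by linarith only [h2, h3]
    calc ‖w (I * y)‖ * ‖cexp (Ev δ h (I * y))‖
        ≤ (C * (1 + y ^ (2 : ℕ))) * Real.exp (-(c * (y - 3 / 2))) :=
          mul_le_mul (hC y) h1 (norm_nonneg _) (by (clear * - hC0 hy0; positivity))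
      _ ≤ (C * ((1 + 8 / c ^ (2 : ℕ)) * Real.exp (c / 2 * y))) * Real.exp (-(c * (y - 3 / 2))) := by
          gcongr
      _ = C * Real.exp (c * (3 / 2)) * (1 + 8 / c ^ (2 : ℕ)) * Real.exp (-(c / 2) * y) := by
          have h5 : Real.exp (c / 2 * y) * Real.exp (-(c * (y - 3 / 2))) =
              Real.exp (c * (3 / 2)) * Real.exp (-(c / 2) * y) := by
            rw [← Real.exp_add, ← Real.exp_add]
            congr 1
            ring
          linear_combination C * (1 + 8 / c ^ (2 : ℕ)) * h5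

private theorem rv_int2 {h : ℂ} {δ : ℝ} (hδ : 0 < δ) (hs : 0 < h.im) :
    IntegrableOn (fun y : ℝ => cexp (Ev2 δ h (I * y))) (Ioi 0) := by
  have hint : IntegrableOn (fun y : ℝ => Real.exp (-(h.im / (2 * δ)) * y ^ (2 : ℕ))) (Ioi 0) :=
    (integrable_exp_neg_mul_sq (by positivity)).integrableOn
  refine Integrable.mono' hint ?_ ?_
  · have h2 := continuous_Ev2 δ h
    have h3 : Continuous fun y : ℝ => I * (y : ℂ) := by fun_prop
    exact (Complex.continuous_exp.comp (h2.comp h3)).aestronglyMeasurable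
  · refine Filter.Eventually.of_forall fun y => ?_
    rw [norm_exp_Ev2 hδ, vert_quad]
    refine Real.exp_le_exp.2 (le_of_eq ?_)
    field_simp

private theorem rv_norm (h : ℂ) : (3 * h.re + 4 * h.im) / 5 ≤ ‖h‖ := by
  have h1 : ‖h‖ ^ (2 : ℕ) = h.re ^ (2 : ℕ) + h.im ^ (2 : ℕ) := by
    rw [← Complex.normSq_eq_norm_sq, Complex.normSq_apply]
    ring
  refine le_of_sq_le_sq ?_ (norm_nonneg _)
  rw [h1]
  linarith only [sq_nonneg (4 * h.re - 3 * h.im)]

theorem vert_J {h : ℂ} {δ : ℝ} (hδ : 0 < δ) (hδ2 : δ ≤ 2 / 25) (ha : 97 / 100 ≤ h.re) (hs : 0 < h.im)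
    (hs3 : h.im ≤ 78 / 25 * h.re) :
    ‖(∫ y in Ioi (0 : ℝ), cexp (Ev δ h (I * y))) - ∫ y in Ioi (0 : ℝ), cexp (Ev2 δ h (I * y))‖ ≤
      ‖h‖ * δ * (100 / (243 * h.im ^ (2 : ℕ))) := by
  have hi1 : IntegrableOn (fun y : ℝ => cexp (Ev δ h (I * y))) (Ioi 0) := by
    have := vert_integrable hδ ha hs hs3 (w := fun _ => 1) continuous_const (C := 1) (fun y => by
      rw [norm_one]
      nlinarith only [])
    simpa using this
  have hi2 := rv_int2 hδ hs (h := h)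
  rw [← integral_sub hi1 hi2]
  have ha0 : 0 < h.re := by linarith only [hs, hs3]
  set a := h.re with hadef
  set s := h.im with hsdef
  set b : ℝ := 9 * s / (20 * δ) with hb
  have hbp : 0 < b := by (clear * - hs hδ; positivity)
  set c : ℝ := a / (2 * δ) with hc
  have hcp : 0 < c := by (clear * - ha hδ; positivity)
  set E0 : ℝ := Real.exp (-(81 * s / (80 * δ))) with hE0
  have hE0p : 0 < E0 := Real.exp_pos _
  have h1 : ∀ y, HasDerivAt (fun y : ℝ => -(‖h‖ / (6 * δ)) * ((1 + b * y ^ (2 : ℕ)) * Real.exp (-b * y ^ (2 : ℕ))) / (2 * b ^ (2 : ℕ)))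
      (‖h‖ / δ * (y ^ (3 : ℕ) / 6) * Real.exp (-b * y ^ (2 : ℕ))) y := by
    intro y
    have e1 : HasDerivAt (fun y : ℝ => y ^ (2 : ℕ)) (2 * y) y := by
      simpa using hasDerivAt_pow 2 y
    have e2 := (e1.const_mul (-b)).exp
    have e3 := (e1.const_mul b).const_add 1
    have e4 := ((e3.mul e2).const_mul (-(‖h‖ / (6 * δ)))).div_const (2 * b ^ (2 : ℕ))
    refine e4.congr_deriv ?_
    field_simp
    ring
  have h2 : ∀ y, HasDerivAt (fun y : ℝ => -(E0 / c) * Real.exp (-(c * (y - 3 / 2))) -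
      2 / 3 * (δ / s) * Real.exp (-(s / (2 * δ)) * y ^ (2 : ℕ)))
      (E0 * Real.exp (-(c * (y - 3 / 2))) + 2 / 3 * y * Real.exp (-(s / (2 * δ)) * y ^ (2 : ℕ))) y := by
    intro y
    have e1 : HasDerivAt (fun y : ℝ => y ^ (2 : ℕ)) (2 * y) y := by
      simpa using hasDerivAt_pow 2 y
    have e2 := ((e1.const_mul (-(s / (2 * δ)))).exp).const_mul (2 / 3 * (δ / s))
    have e3 : HasDerivAt (fun y : ℝ => -(c * (y - 3 / 2))) (-(c * 1)) y :=
      (((hasDerivAt_id y).sub_const (3 / 2)).const_mul c).neg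
    have e4 := (e3.exp).const_mul (-(E0 / c))
    refine (e4.sub e2).congr_deriv ?_
    field_simp
    ring
  have hlim : Filter.Tendsto (fun y : ℝ => -(E0 / c) * Real.exp (-(c * (y - 3 / 2))) -
      2 / 3 * (δ / s) * Real.exp (-(s / (2 * δ)) * y ^ (2 : ℕ))) Filter.atTop (nhds 0) := by
    have e1 : Filter.Tendsto (fun y : ℝ => -(c * (y - 3 / 2))) Filter.atTop Filter.atBot := by
      have : (fun y : ℝ => -(c * (y - 3 / 2))) = fun y => (-c) * y + c * (3 / 2) := by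
        funext y; ring
      rw [this]
      exact Filter.tendsto_atBot_add_const_right _ _
        (Filter.tendsto_id.const_mul_atTop_of_neg (by linarith only [hcp]))
    have e2 : Filter.Tendsto (fun y : ℝ => -(s / (2 * δ)) * y ^ (2 : ℕ)) Filter.atTop Filter.atBot :=
      (Filter.tendsto_pow_atTop two_ne_zero).const_mul_atTop_of_neg (by
        have : 0 < s / (2 * δ) := by (clear * - hs hδ; positivity)
        linarith only [this])
    have e3 := (Real.tendsto_exp_atBot.comp e1).const_mul (-(E0 / c))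
    have e4 := (Real.tendsto_exp_atBot.comp e2).const_mul (2 / 3 * (δ / s))
    have e5 := e3.sub e4
    simpa using e5
  have hA : (∫ y in (0 : ℝ)..(3 / 2), ‖h‖ / δ * (y ^ (3 : ℕ) / 6) * Real.exp (-b * y ^ (2 : ℕ))) ≤
      ‖h‖ / (12 * δ * b ^ (2 : ℕ)) * (1 - (1 + b * (3 / 2) ^ (2 : ℕ)) * Real.exp (-b * (3 / 2) ^ (2 : ℕ))) := by
    rw [intervalIntegral.integral_eq_sub_of_hasDerivAt (fun y _ => h1 y)
      (Continuous.intervalIntegrable (by fun_prop) _ _)]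
    refine le_of_eq ?_
    simp only [zero_pow two_ne_zero, mul_zero, Real.exp_zero]
    field_simp
    ring
  have key := rv_split (hi1.sub hi2) (T := 3 / 2) (by norm_num)
    (φ := fun y => ‖h‖ / δ * (y ^ (3 : ℕ) / 6) * Real.exp (-b * y ^ (2 : ℕ)))
    (by fun_prop) hA h2 (fun y hy => by
      have : 0 < y := by linarith only [hy]
      (clear * - hy; positivity)) hlim
    (fun y hy0 hy1 => by
      have m1 : ‖cexp (Ev δ h (I * y))‖ ≤ Real.exp (-b * y ^ (2 : ℕ)) := by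
        rw [norm_exp_Ev hδ]
        refine Real.exp_le_exp.2 ?_
        have e1 := vert_height hy0.le hy1 ha0 hs hs3
        rw [neg_mul, neg_le_neg_iff, hb, div_mul_eq_mul_div, div_le_div_iff₀ (by positivity) hδ]
        have e2 := mul_le_mul_of_nonneg_right e1 hδ.le
        linarith only [e2]
      have m2 : ‖cexp (Ev2 δ h (I * y))‖ ≤ Real.exp (-b * y ^ (2 : ℕ)) := by
        rw [norm_exp_Ev2 hδ, vert_quad]
        refine Real.exp_le_exp.2 ?_
        rw [neg_mul, neg_le_neg_iff, hb, div_mul_eq_mul_div, div_le_div_iff₀ (by positivity) hδ]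
        have e2 : 0 ≤ s * y ^ (2 : ℕ) * δ := by (clear * - hs hy0 hδ; positivity)
        linarith only [e2]
      have m3 := norm_exp_sub_exp_le _ _ m1 m2
      refine m3.trans ?_
      rw [norm_Ev_sub_Ev2 hδ]
      have m4 := vert_g3 hy0.le
      gcongr)
    (fun y hy => by
      have hy0 : 0 < y := by linarith only [hy]
      refine (norm_sub_le _ _).trans (add_le_add ?_ ?_)
      · rw [norm_exp_Ev hδ, hE0, ← Real.exp_add]
        refine Real.exp_le_exp.2 ?_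
        have e1 := vert_far hy.le ha0 hs hs3
        have e2 : 81 * s / (80 * δ) + c * (y - 3 / 2) ≤ ht h (I * y) / δ := by
          rw [hc, le_div_iff₀ hδ]
          have e3 : (81 * s / (80 * δ) + a / (2 * δ) * (y - 3 / 2)) * δ =
              81 / 80 * s + a / 2 * (y - 3 / 2) := by
            field_simp
          rw [e3]
          linarith only [hs, hs3, e1]
        linarith only [e2]
      · rw [norm_exp_Ev2 hδ, vert_quad]
        have e1 : Real.exp (-(s * y ^ (2 : ℕ) / 2 / δ)) = Real.exp (-(s / (2 * δ)) * y ^ (2 : ℕ)) := by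
          congr 1
          field_simp
        rw [e1]
        have e2 : 1 ≤ 2 / 3 * y := by linarith only [hy]
        have e3 := Real.exp_pos (-(s / (2 * δ)) * y ^ (2 : ℕ))
        nlinarith only [e2, e3])
  refine key.trans ?_
  have hT1 : b * (3 / 2) ^ (2 : ℕ) = 81 * s / (80 * δ) := by
    rw [hb]
    field_simp
    ring
  have hE1 : Real.exp (-b * (3 / 2) ^ (2 : ℕ)) = E0 := by
    rw [hE0, neg_mul, hT1]
  have hE2 : Real.exp (-(s / (2 * δ)) * (3 / 2) ^ (2 : ℕ)) ≤ E0 := by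
    rw [hE0]
    refine Real.exp_le_exp.2 ?_
    have e1 : -(s / (2 * δ)) * (3 / 2) ^ (2 : ℕ) = -(90 * s / (80 * δ)) := by
      field_simp
      ring
    rw [e1]
    have e2 : 81 * s / (80 * δ) ≤ 90 * s / (80 * δ) := by
      gcongr
      norm_num
    linarith only [e2]
  have hE3 : Real.exp (-(c * (3 / 2 - 3 / 2))) = 1 := by
    rw [sub_self, mul_zero, neg_zero, Real.exp_zero]
  rw [hE1, hE3, hT1]
  have hn := rv_norm h
  have f1 : ‖h‖ / (12 * δ * b ^ (2 : ℕ)) = ‖h‖ * δ * (100 / (243 * s ^ (2 : ℕ))) := by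
    rw [hb]
    field_simp
    ring
  have f2 : ‖h‖ / (12 * δ * b ^ (2 : ℕ)) * (81 * s / (80 * δ)) = 5 / 12 * ‖h‖ / s := by
    rw [hb]
    field_simp
    ring
  have f3 : E0 / c + 2 / 3 * (δ / s) * E0 ≤ 5 / 12 * ‖h‖ / s * E0 := by
    have g1 : 1 / c + 2 / 3 * (δ / s) ≤ 5 / 12 * ‖h‖ / s := by
      rw [hc, le_div_iff₀ hs]
      have g2 : (1 / (a / (2 * δ)) + 2 / 3 * (δ / s)) * s = 2 * δ * (s / a) + 2 / 3 * δ := by
        field_simp
      rw [g2]
      have g3 : 2 * δ * (s / a) ≤ 4 / 25 * (s / a) := by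
        have : 0 ≤ s / a := by (clear * - hs ha; positivity)
        nlinarith only [hδ2, this]
      have g4 : s / a ≤ s * (100 / 97) := by
        rw [div_le_iff₀ ha0]
        nlinarith only [ha, hs]
      nlinarith only [hδ, hδ2, ha, hs, hn, g4]
    have g5 := mul_le_mul_of_nonneg_right g1 hE0p.le
    calc E0 / c + 2 / 3 * (δ / s) * E0 = (1 / c + 2 / 3 * (δ / s)) * E0 := by ring
      _ ≤ _ := g5
  have f4 : 2 / 3 * (δ / s) * Real.exp (-(s / (2 * δ)) * (3 / 2) ^ (2 : ℕ)) ≤ 2 / 3 * (δ / s) * E0 := by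
    gcongr
  have f5 : 0 ≤ ‖h‖ / (12 * δ * b ^ (2 : ℕ)) * E0 := by (clear * - hδ hs; positivity)
  have f6 : ‖h‖ / (12 * δ * b ^ (2 : ℕ)) * (1 - (1 + 81 * s / (80 * δ)) * E0) =
      ‖h‖ * δ * (100 / (243 * s ^ (2 : ℕ))) - ‖h‖ / (12 * δ * b ^ (2 : ℕ)) * E0 - 5 / 12 * ‖h‖ / s * E0 := by
    rw [← f1, ← f2]
    ring
  rw [f6]
  linarith only [f3, f4, f5]

theorem vert_K {h : ℂ} {δ : ℝ} (hδ : 0 < δ) (hδ2 : δ ≤ 2 / 25) (ha : 97 / 100 ≤ h.re) (hs : 0 < h.im)
    (hs3 : h.im ≤ 78 / 25 * h.re) :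
    ‖∫ y in Ioi (0 : ℝ), gg (I * y) * cexp (Ev δ h (I * y))‖ ≤
      7394 / 10000 * (δ / h.im * √(δ / h.im)) := by
  have hi1 : IntegrableOn (fun y : ℝ => gg (I * y) * cexp (Ev δ h (I * y))) (Ioi 0) := by
    refine vert_integrable hδ ha hs hs3 continuous_gg (C := 3) (fun y => ?_)
    unfold gg
    refine (norm_sub_le _ _).trans ?_
    have e1 : ‖cexp (I * y) - 1‖ ≤ 2 := by
      refine (norm_sub_le _ _).trans ?_
      rw [norm_one, mul_comm I (y : ℂ), Complex.norm_exp_ofReal_mul_I]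
      norm_num
    have e2 : ‖I * (y : ℂ)‖ ≤ 1 + y ^ (2 : ℕ) := by
      rw [norm_mul, Complex.norm_I, one_mul, Complex.norm_real, Real.norm_eq_abs, abs_le]
      constructor <;> nlinarith [sq_nonneg (y + 1 / 2), sq_nonneg (y - 1 / 2)]
    nlinarith only [e1, e2]
  have ha0 : 0 < h.re := by linarith only [hs, hs3]
  set a := h.re with hadef
  set s := h.im with hsdef
  set b : ℝ := 9 * s / (20 * δ) with hb
  have hbp : 0 < b := by positivity
  set c : ℝ := a / (2 * δ) with hc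
  have hcp : 97 / 16 ≤ c := by
    rw [hc, le_div_iff₀ (by (clear * - hδ; positivity))]
    linarith only [hδ2, ha]
  set E0 : ℝ := Real.exp (-(81 * s / (80 * δ))) with hE0
  have hE0p : 0 < E0 := Real.exp_pos _
  set E1 : ℝ := Real.exp (-(a / (5 * δ))) with hE1
  have hE1p : 0 < E1 := Real.exp_pos _
  -- the first part
  have hA : (∫ y in (0 : ℝ)..(3 / 2), y ^ (2 : ℕ) / 2 * Real.exp (-b * y ^ (2 : ℕ))) ≤
      1 / (4 * b) * (√(Real.pi / b) / 2 - 3 / 2 * Real.exp (-b * (3 / 2) ^ (2 : ℕ))) := by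
    have d1 : ∀ y, HasDerivAt (fun y : ℝ => y * Real.exp (-b * y ^ (2 : ℕ)))
        (Real.exp (-b * y ^ (2 : ℕ)) - 2 * b * y ^ (2 : ℕ) * Real.exp (-b * y ^ (2 : ℕ))) y := by
      intro y
      have e1 : HasDerivAt (fun y : ℝ => y ^ (2 : ℕ)) (2 * y) y := by
        simpa using hasDerivAt_pow 2 y
      have e2 := (hasDerivAt_id y).mul ((e1.const_mul (-b)).exp)
      refine e2.congr_deriv ?_
      simp only [id]
      ring
    have c1 : Continuous fun y : ℝ => Real.exp (-b * y ^ (2 : ℕ)) := by fun_prop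
    have c2 : Continuous fun y : ℝ => Real.exp (-b * y ^ (2 : ℕ)) - 2 * b * y ^ (2 : ℕ) * Real.exp (-b * y ^ (2 : ℕ)) := by
      fun_prop
    have e1 : (∫ y in (0 : ℝ)..(3 / 2), (Real.exp (-b * y ^ (2 : ℕ)) - 2 * b * y ^ (2 : ℕ) * Real.exp (-b * y ^ (2 : ℕ)))) =
        3 / 2 * Real.exp (-b * (3 / 2) ^ (2 : ℕ)) := by
      rw [intervalIntegral.integral_eq_sub_of_hasDerivAt (fun y _ => d1 y) (c2.intervalIntegrable _ _)]
      simp
    have e2 : (∫ y in (0 : ℝ)..(3 / 2), y ^ (2 : ℕ) / 2 * Real.exp (-b * y ^ (2 : ℕ))) =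
        1 / (4 * b) * ((∫ y in (0 : ℝ)..(3 / 2), Real.exp (-b * y ^ (2 : ℕ))) -
          3 / 2 * Real.exp (-b * (3 / 2) ^ (2 : ℕ))) := by
      rw [← e1, ← intervalIntegral.integral_sub (c1.intervalIntegrable _ _) (c2.intervalIntegrable _ _),
        ← intervalIntegral.integral_const_mul]
      refine intervalIntegral.integral_congr fun y _ => ?_
      field_simp
      ring
    rw [e2]
    have e3 : (∫ y in (0 : ℝ)..(3 / 2), Real.exp (-b * y ^ (2 : ℕ))) ≤ √(Real.pi / b) / 2 := by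
      rw [← integral_gaussian_Ioi, intervalIntegral.integral_of_le (by norm_num)]
      refine setIntegral_mono_set (integrable_exp_neg_mul_sq hbp).integrableOn ?_ ?_
      · exact Filter.Eventually.of_forall fun y => (Real.exp_pos _).le
      · exact (Ioc_subset_Ioi_self).eventuallyLE
    gcongr
  obtain ⟨d, hd⟩ : ∃ d, d = c - 4 / 3 := ⟨_, rfl⟩
  have hc43 : 0 < d := by linarith only [hcp, hd]
  have h2 : ∀ y, HasDerivAt (fun y : ℝ => -(9 / 8 * (E0 * E1) / d) * Real.exp (-(d * (y - 3 / 2))))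
      (9 / 8 * (E0 * E1) * Real.exp (-(d * (y - 3 / 2)))) y := by
    intro y
    have e3 : HasDerivAt (fun y : ℝ => -(d * (y - 3 / 2))) (-(d * 1)) y :=
      (((hasDerivAt_id y).sub_const (3 / 2)).const_mul d).neg
    have e4 := (e3.exp).const_mul (-(9 / 8 * (E0 * E1) / d))
    refine e4.congr_deriv ?_
    field_simp
  have hlim : Filter.Tendsto (fun y : ℝ => -(9 / 8 * (E0 * E1) / d) *
      Real.exp (-(d * (y - 3 / 2)))) Filter.atTop (nhds 0) := by
    have e1 : Filter.Tendsto (fun y : ℝ => -(d * (y - 3 / 2))) Filter.atTop Filter.atBot := by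
      have : (fun y : ℝ => -(d * (y - 3 / 2))) =
          fun y => (-d) * y + d * (3 / 2) := by
        funext y; ring
      rw [this]
      exact Filter.tendsto_atBot_add_const_right _ _
        (Filter.tendsto_id.const_mul_atTop_of_neg (by linarith only [hc43]))
    have e3 := (Real.tendsto_exp_atBot.comp e1).const_mul (-(9 / 8 * (E0 * E1) / d))
    simpa using e3
  have key := rv_split hi1 (T := 3 / 2) (by norm_num)
    (φ := fun y => y ^ (2 : ℕ) / 2 * Real.exp (-b * y ^ (2 : ℕ))) (by fun_prop) hA h2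
    (fun y _ => by (clear * -; positivity)) hlim
    (fun y hy0 hy1 => by
      rw [norm_mul]
      refine mul_le_mul (vert_gg hy0.le) ?_ (norm_nonneg _) (by (clear * - hy0; positivity))
      rw [norm_exp_Ev hδ]
      refine Real.exp_le_exp.2 ?_
      have e1 := vert_height hy0.le hy1 ha0 hs hs3
      rw [neg_mul, neg_le_neg_iff, hb, div_mul_eq_mul_div, div_le_div_iff₀ (by positivity) hδ]
      have e2 := mul_le_mul_of_nonneg_right e1 hδ.le
      linarith only [e2])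
    (fun y hy => by
      have hy0 : 0 < y := by linarith only [hy]
      rw [norm_mul]
      have e1 : y ^ (2 : ℕ) / 2 ≤ 9 / 8 * Real.exp (4 / 3 * (y - 3 / 2)) := by
        have g1 : 2 / 3 * y ≤ Real.exp (2 / 3 * (y - 3 / 2)) := by
          have := Real.add_one_le_exp (2 / 3 * (y - 3 / 2))
          linarith only [this]
        have g2 : Real.exp (4 / 3 * (y - 3 / 2)) = Real.exp (2 / 3 * (y - 3 / 2)) ^ (2 : ℕ) := by
          rw [← Real.exp_nat_mul]
          congr 1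
          push_cast
          ring
        rw [g2]
        have g3 := pow_le_pow_left₀ (by (clear * - hy; positivity)) g1 2
        linarith only [g3]
      have e2 : ‖cexp (Ev δ h (I * y))‖ ≤ E0 * E1 * Real.exp (-(c * (y - 3 / 2))) := by
        rw [norm_exp_Ev hδ, hE0, hE1, ← Real.exp_add, ← Real.exp_add]
        refine Real.exp_le_exp.2 ?_
        have g1 := vert_far hy.le ha0 hs hs3
        have g2 : 81 * s / (80 * δ) + a / (5 * δ) + c * (y - 3 / 2) ≤ ht h (I * y) / δ := by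
          rw [hc, le_div_iff₀ hδ]
          have g3 : (81 * s / (80 * δ) + a / (5 * δ) + a / (2 * δ) * (y - 3 / 2)) * δ =
              81 / 80 * s + a / 5 + a / 2 * (y - 3 / 2) := by
            field_simp
          rw [g3]
          exact g1
        linarith only [g2]
      calc ‖gg (I * y)‖ * ‖cexp (Ev δ h (I * y))‖
          ≤ (y ^ (2 : ℕ) / 2) * (E0 * E1 * Real.exp (-(c * (y - 3 / 2)))) :=
            mul_le_mul (vert_gg hy0.le) e2 (norm_nonneg _) (by (clear * - hy; positivity))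
        _ ≤ (9 / 8 * Real.exp (4 / 3 * (y - 3 / 2))) * (E0 * E1 * Real.exp (-(c * (y - 3 / 2)))) := by
            gcongr
        _ = 9 / 8 * (E0 * E1) * Real.exp (-(d * (y - 3 / 2))) := by
            have g4 : Real.exp (4 / 3 * (y - 3 / 2)) * Real.exp (-(c * (y - 3 / 2))) =
                Real.exp (-(d * (y - 3 / 2))) := by
              rw [← Real.exp_add, hd]
              congr 1
              ring
            linear_combination 9 / 8 * (E0 * E1) * g4)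
  refine key.trans ?_
  have hT1 : b * (3 / 2) ^ (2 : ℕ) = 81 * s / (80 * δ) := by
    rw [hb]
    field_simp
    ring
  have hE2 : Real.exp (-b * (3 / 2) ^ (2 : ℕ)) = E0 := by
    rw [hE0, neg_mul, hT1]
  have hE3 : Real.exp (-(d * (3 / 2 - 3 / 2))) = 1 := by
    rw [sub_self, mul_zero, neg_zero, Real.exp_zero]
  rw [hE2, hE3]
  -- `e^{-a/(5δ)} ≤ 9/100`
  have hE4 : E1 ≤ 9 / 100 := by
    have g1 : (97 : ℝ) / 40 ≤ a / (5 * δ) := by
      rw [le_div_iff₀ (by positivity)]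
      linarith only [hδ2, ha]
    have g2 : E1 ≤ Real.exp (-(97 / 40)) := by
      rw [hE1]
      exact Real.exp_le_exp.2 (by linarith only [g1])
    refine g2.trans ?_
    rw [Real.exp_neg, inv_le_comm₀ (Real.exp_pos _) (by norm_num)]
    have g3 : Real.exp (97 / 40) = Real.exp (97 / 640) ^ (16 : ℕ) := by
      rw [← Real.exp_nat_mul]
      congr 1
      norm_num
    rw [g3]
    have g4 : 1 + 97 / 640 + (97 / 640) ^ (2 : ℕ) / 2 ≤ Real.exp (97 / 640) :=
      Real.quadratic_le_exp_of_nonneg (by norm_num)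
    have g5 := pow_le_pow_left₀ (by norm_num) g4 16
    refine le_trans ?_ g5
    norm_num
  -- the tail is absorbed
  have f1 : 9 / 8 * (E0 * E1) / d ≤ 1 / (4 * b) * (3 / 2 * E0) := by
    rw [div_le_iff₀ hc43]
    have g1 : 9 / 8 * E1 ≤ 1 / (4 * b) * (3 / 2) * d := by
      have g2 : 9 / 8 * E1 ≤ 81 / 800 := by linarith only [hE4]
      refine g2.trans ?_
      have g3 : 1 / (4 * b) * (3 / 2) = 5 / 6 * (δ / s) := by
        rw [hb]
        field_simp
        norm_num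
      rw [g3]
      have g4 : 7800 / 10000 * c ≤ d := by
        linarith only [hcp, hd]
      have g5 : 5 / 6 * (δ / s) * (7800 / 10000 * c) ≤ 5 / 6 * (δ / s) * d := by
        gcongr
      refine le_trans ?_ g5
      have g6 : 5 / 6 * (δ / s) * (7800 / 10000 * c) = 39000 / 120000 * (a / s) := by
        rw [hc]
        field_simp
        ring
      rw [g6]
      have g7 : 25 / 78 ≤ a / s := by
        rw [le_div_iff₀ hs]
        linarith only [hs3]
      linarith only [g7]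
    have g8 := mul_le_mul_of_nonneg_right g1 hE0p.le
    calc 9 / 8 * (E0 * E1) = 9 / 8 * E1 * E0 := by ring
      _ ≤ _ := g8
      _ = _ := by ring
  have f2 : 1 / (4 * b) * (√(Real.pi / b) / 2) ≤ 7394 / 10000 * (δ / s * √(δ / s)) := by
    have g1 : √(Real.pi / b) ≤ 266184 / 100000 * √(δ / s) := by
      have g2 : Real.pi / b = 20 * Real.pi / 9 * (δ / s) := by
        rw [hb]
        field_simp
      rw [g2, Real.sqrt_mul (by positivity)]
      refine mul_le_mul_of_nonneg_right ?_ (Real.sqrt_nonneg _)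
      rw [Real.sqrt_le_left (by norm_num)]
      have := Real.pi_lt_d4
      norm_num
      linarith only [this]
    have g3 : 1 / (4 * b) * (√(Real.pi / b) / 2) = 5 / 18 * (δ / s) * √(Real.pi / b) := by
      rw [hb]
      field_simp
      ring
    rw [g3]
    calc 5 / 18 * (δ / s) * √(Real.pi / b) ≤ 5 / 18 * (δ / s) * (266184 / 100000 * √(δ / s)) := by
          gcongr
      _ ≤ 7394 / 10000 * (δ / s * √(δ / s)) := by
          have : 0 ≤ δ / s * √(δ / s) := by (clear * - hδ hs; positivity)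
          linarith only []
  have f3 : 1 / (4 * b) * (√(Real.pi / b) / 2 - 3 / 2 * E0) =
      1 / (4 * b) * (√(Real.pi / b) / 2) - 1 / (4 * b) * (3 / 2 * E0) := by ring
  rw [f3]
  linarith only [f1, f2]

end SokamTI

end

/-! ### Lib_MP_af4de1_ti.R3 -/

section
/-!
# Right saddle, the horizontal leg `v = 2x e^{-iπ/3} + u`, `u ≥ 0`, `x = arg h` [TI-R3]

`c = 2x e^{-iπ/3} = x - i √3 x`.  `ht h (c + u) = ht h c + u (Im c + Im h) - Im (h e^c)(e^u - 1) = ht h c + (s - √3 x) u + A (e^u - 1)`,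
`A = -Im (h e^c) = ‖h‖ e^x sin((√3-1)x)` (`h = ‖h‖ e^{ix}`).  `‖h‖ sin x = s ≥ x`; `sin((√3-1)x) ≥ (√3-1) sin x` (concavity, `0 ≤ x ≤ 5/4`), so
`A ≥ (√3-1) x e^x ≥ (√3-1) x` and `s + A ≥ √3 x`: `(s - √3x)u + A(e^u - 1) ≥ A(e^u - 1 - u)`.  `ht h c ≥ 4 qp x²` by `slope_height` at `t = 2x`
(`a x ≤ s` because `tan x ≥ x`: `s cos x = a sin x`, i.e. `h.re * sin x = h.im * cos x`, so `a x ≤ s`: use `x cos x ≤ sin x`).
-/

set_option autoImplicit false

namespace SokamTI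

open Complex

/-- the slope constant of the right tail -/
noncomputable def Aa (h : ℂ) : ℝ := ‖h‖ * Real.exp (arg h) * Real.sin ((√3 - 1) * arg h)

private theorem arg_pos_r3 {h : ℂ} (hs : 0 < h.im) : 0 < arg h := by
  have h1 : 0 ≤ arg h := arg_nonneg_iff.2 hs.le
  rcases h1.lt_or_eq with h2 | h2
  · exact h2
  · have h3 := norm_mul_sin_arg h
    rw [← h2, Real.sin_zero, mul_zero] at h3
    exact absurd h3 hs.ne

private theorem arg_lt_r3 {h : ℂ} (ha : 0 < h.re) : arg h < Real.pi / 2 :=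
  (abs_lt.1 (abs_arg_lt_pi_div_two_iff.2 (Or.inl ha))).2

theorem re_mul_arg_le {h : ℂ} (ha : 0 < h.re) (hs : 0 < h.im) : h.re * arg h ≤ h.im := by
  have h1 := arg_pos_r3 hs
  have h2 := arg_lt_r3 ha
  have h3 := Real.lt_tan h1 h2
  have hc : 0 < Real.cos (arg h) := Real.cos_pos_of_mem_Ioo ⟨by linarith [Real.pi_pos], h2⟩
  rw [Real.tan_eq_sin_div_cos, lt_div_iff₀ hc] at h3
  rw [← norm_mul_cos_arg h, ← norm_mul_sin_arg h]
  have h4 := mul_le_mul_of_nonneg_left h3.le (norm_nonneg h)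
  linarith

private theorem sqrt3_r3 : 433 / 250 ≤ √3 := by
  apply Real.le_sqrt_of_sq_le
  norm_num

private theorem sqrt3_lt_r3 : √3 < 2 := by
  rw [Real.sqrt_lt' (by norm_num)]
  norm_num

private theorem Aa_ge_r3 {h : ℂ} (ha : 0 < h.re) (hs : 0 < h.im) (hx : arg h ≤ h.im) :
    (√3 - 1) * arg h * Real.exp (arg h) ≤ Aa h := by
  have h1 := arg_pos_r3 hs
  have h2 := arg_lt_r3 ha
  have h3 := sqrt3_r3
  have h4 := sqrt3_lt_r3
  have m1 : arg h ∈ Set.Icc 0 Real.pi := ⟨h1.le, by linarith [Real.pi_pos]⟩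
  have m0 : (0 : ℝ) ∈ Set.Icc 0 Real.pi := ⟨le_rfl, Real.pi_pos.le⟩
  have c1 : 0 ≤ √3 - 1 := by linarith
  have c2 : 0 ≤ 2 - √3 := by linarith
  have hcon := (strictConcaveOn_sin_Icc.concaveOn).2 m1 m0 c1 c2 (by ring)
  simp only [smul_eq_mul, Real.sin_zero, mul_zero, add_zero] at hcon
  unfold Aa
  have h5 : (√3 - 1) * arg h ≤ ‖h‖ * Real.sin ((√3 - 1) * arg h) := by
    have h6 := mul_le_mul_of_nonneg_left hcon (norm_nonneg h)
    have h7 : ‖h‖ * ((√3 - 1) * Real.sin (arg h)) = (√3 - 1) * h.im := by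
      rw [← norm_mul_sin_arg h]
      ring
    rw [h7] at h6
    exact (mul_le_mul_of_nonneg_left hx (by linarith)).trans h6
  have h8 := mul_le_mul_of_nonneg_right h5 (Real.exp_pos (arg h)).le
  linarith

theorem Aa_ge {h : ℂ} (ha : 0 < h.re) (hs : 0 < h.im) (hx : arg h ≤ h.im) :
    183 / 250 * arg h * Real.exp (arg h) ≤ Aa h := by
  refine le_trans ?_ (Aa_ge_r3 ha hs hx)
  have h1 := arg_pos_r3 hs
  have h3 := sqrt3_r3
  refine mul_le_mul_of_nonneg_right (mul_le_mul_of_nonneg_right ?_ h1.le) (Real.exp_pos _).le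
  linarith

theorem corner_height {h : ℂ} (ha : 0 < h.re) (hs : 0 < h.im) (hx2 : arg h ≤ 5 / 4) :
    4 * qp h * arg h ^ (2 : ℕ) ≤ ht h (2 * arg h * et) := by
  have h1 := arg_pos_r3 hs
  have h2 := slope_height (h := h) (t := 2 * arg h) (by linarith) (by linarith) ha.le (by
    have := re_mul_arg_le ha hs
    linarith)
  have h3 : (((2 * arg h : ℝ) : ℂ)) * et = 2 * arg h * et := by push_cast; ring
  rw [h3] at h2
  linarith

theorem tail_height {h : ℂ} {u : ℝ} (hu : 0 ≤ u) (ha : 0 < h.re) (hs : 0 < h.im)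
    (hx : arg h ≤ h.im) (hx2 : arg h ≤ 5 / 4) :
    4 * qp h * arg h ^ (2 : ℕ) + Aa h * (Real.exp u - 1 - u) ≤ ht h (2 * arg h * et + u) := by
  have h1 := arg_pos_r3 hs
  have h3 := sqrt3_r3
  obtain ⟨c, hc⟩ : ∃ c : ℂ, c = 2 * arg h * et := ⟨_, rfl⟩
  have hcr : c = ((2 * arg h : ℝ) : ℂ) * et := by rw [hc]; push_cast; ring
  have hre : c.re = arg h := by
    rw [hcr, re_ofReal_mul, etq_re]
    ring
  have him : c.im = -(√3 * arg h) := by
    rw [hcr, im_ofReal_mul, etq_im]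
    ring
  have hcor := corner_height ha hs hx2
  rw [← hc] at hcor ⊢
  -- the identity
  have hexp : (h * cexp c).im = -Aa h := by
    rw [mul_im, Complex.exp_re, Complex.exp_im, hre, him, ← norm_mul_cos_arg h, ← norm_mul_sin_arg h,
      Real.sin_neg, Real.cos_neg]
    have h5 : Real.sin ((√3 - 1) * arg h) = Real.sin (√3 * arg h) * Real.cos (arg h) -
        Real.cos (√3 * arg h) * Real.sin (arg h) := by
      rw [← Real.sin_sub]
      congr 1
      ring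
    unfold Aa
    rw [h5]
    ring
  have hid : ht h (c + u) = ht h c + u * (h.im - √3 * arg h) + Aa h * (Real.exp u - 1) := by
    unfold ht gg
    have e1 : (c + (u : ℂ)) ^ (2 : ℕ) / 2 - h * (cexp (c + u) - 1 - (c + u)) =
        (c ^ (2 : ℕ) / 2 - h * (cexp c - 1 - c)) + (u : ℂ) * c + ((u ^ (2 : ℕ) / 2 : ℝ) : ℂ) + (u : ℂ) * h -
          ((Real.exp u - 1 : ℝ) : ℂ) * (h * cexp c) := by
      rw [Complex.exp_add]
      push_cast
      ring
    rw [e1, sub_im, add_im, add_im, add_im, im_ofReal_mul, ofReal_im, im_ofReal_mul, im_ofReal_mul,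
      hexp, him]
    ring
  rw [hid]
  have hA := Aa_ge_r3 ha hs hx
  have hA2 : (√3 - 1) * arg h ≤ Aa h := by
    refine le_trans ?_ hA
    have h7 : 1 ≤ Real.exp (arg h) := Real.one_le_exp h1.le
    have h8 : 0 ≤ (√3 - 1) * arg h := mul_nonneg (by linarith) h1.le
    nlinarith only [h7, h8]
  have h9 : 0 ≤ u * (h.im + Aa h - √3 * arg h) := mul_nonneg hu (by linarith)
  linarith only [hcor, h9]

end SokamTI

end

/-! ### Lib_MP_af4de1_ti.RT -/

section
/-!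
# Right saddle, the integrals over the horizontal tail [TI-RT]

`κ = Aa h/δ > 0`.  `e^u - 1 - u ≥ u²/2` for `u ≥ 0`, so `‖e^Ev‖ ≤ e^{-4 qp x²/δ} e^{-κ u²/2}` (`tail_height`); `∫_0^∞ e^{-κu²/2} = √(π/(2κ))`,
`∫_0^∞ u e^{-κ u²/2} = 1/κ`; `‖2x et + u‖ ≤ 2x + u`.
-/

set_option autoImplicit false

namespace SokamTI

open Complex MeasureTheory Set

private theorem rt_arg_pos {h : ℂ} (hs : 0 < h.im) : 0 < arg h := by
  rcases lt_or_eq_of_le (Complex.arg_nonneg_iff.2 hs.le) with h1 | h1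
  · exact h1
  · exact absurd (Complex.arg_eq_zero_iff.1 h1.symm).2 hs.ne'

private theorem rt_Aa_pos {h : ℂ} (ha : 0 < h.re) (hs : 0 < h.im) (hx : arg h ≤ h.im) : 0 < Aa h := by
  have h1 := rt_arg_pos hs
  have h2 := Real.exp_pos (arg h)
  exact lt_of_lt_of_le (by positivity) (Aa_ge ha hs hx)

private theorem rt_bound {h : ℂ} {δ : ℝ} (hδ : 0 < δ) (ha : 0 < h.re) (hs : 0 < h.im)
    (hx : arg h ≤ h.im) (hx2 : arg h ≤ 5 / 4) {u : ℝ} (hu : 0 ≤ u) :
    ‖cexp (Ev δ h (2 * arg h * et + u))‖ ≤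
      Real.exp (-(4 * qp h * arg h ^ (2 : ℕ) / δ)) * Real.exp (-(Aa h / (2 * δ)) * u ^ (2 : ℕ)) := by
  have hA := rt_Aa_pos ha hs hx
  rw [norm_exp_Ev hδ, ← Real.exp_add]
  apply Real.exp_le_exp.2
  have h1 := tail_height hu ha hs hx hx2
  have h2 : u ^ (2 : ℕ) / 2 ≤ Real.exp u - 1 - u := by
    have := Real.quadratic_le_exp_of_nonneg hu
    linarith
  have h3 : 4 * qp h * arg h ^ (2 : ℕ) + Aa h * (u ^ (2 : ℕ) / 2) ≤ ht h (2 * arg h * et + u) :=
    le_trans (by gcongr) h1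
  have h4 : (4 * qp h * arg h ^ (2 : ℕ) + Aa h * (u ^ (2 : ℕ) / 2)) / δ ≤ ht h (2 * arg h * et + u) / δ := by
    gcongr
  have h5 : -(4 * qp h * arg h ^ (2 : ℕ) / δ) + -(Aa h / (2 * δ)) * u ^ (2 : ℕ) =
      -((4 * qp h * arg h ^ (2 : ℕ) + Aa h * (u ^ (2 : ℕ) / 2)) / δ) := by
    field_simp
    ring
  rw [h5]
  linarith

private theorem rt_cont {h : ℂ} {δ : ℝ} {w : ℂ → ℂ} (hw : Continuous w) :
    Continuous (fun u : ℝ => w (2 * arg h * et + u) * cexp (Ev δ h (2 * arg h * et + u))) := by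
  have := continuous_Ev δ h
  fun_prop

theorem tail_integrable {h : ℂ} {δ : ℝ} (hδ : 0 < δ) (ha : 0 < h.re) (hs : 0 < h.im)
    (hx : arg h ≤ h.im) (hx2 : arg h ≤ 5 / 4) {w : ℂ → ℂ} (hw : Continuous w) {C : ℝ}
    (hC : ∀ u : ℝ, 0 ≤ u → ‖w (2 * arg h * et + u)‖ ≤ C * Real.exp u) :
    IntegrableOn (fun u : ℝ => w (2 * arg h * et + u) * cexp (Ev δ h (2 * arg h * et + u))) (Ioi 0) := by
  have hA := rt_Aa_pos ha hs hx
  have hC0 : 0 ≤ C := by
    have h1 := hC 0 le_rfl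
    rw [Real.exp_zero, mul_one] at h1
    exact (norm_nonneg _).trans h1
  have hκ : 0 < Aa h / (4 * δ) := by positivity
  have hg : IntegrableOn (fun u : ℝ => C * Real.exp (-(4 * qp h * arg h ^ (2 : ℕ) / δ)) *
      Real.exp (δ / Aa h) * Real.exp (-(Aa h / (4 * δ)) * u ^ (2 : ℕ))) (Ioi 0) :=
    ((integrable_exp_neg_mul_sq hκ).const_mul _).integrableOn
  refine Integrable.mono' hg (rt_cont hw).aestronglyMeasurable ?_
  refine (ae_restrict_iff' measurableSet_Ioi).2 (Filter.Eventually.of_forall fun u hu => ?_)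
  have hu0 : 0 ≤ u := le_of_lt hu
  rw [norm_mul]
  have h1 := hC u hu0
  have h2 := rt_bound hδ ha hs hx hx2 hu0
  have h3 : Real.exp u * Real.exp (-(Aa h / (2 * δ)) * u ^ (2 : ℕ)) ≤
      Real.exp (δ / Aa h) * Real.exp (-(Aa h / (4 * δ)) * u ^ (2 : ℕ)) := by
    rw [← Real.exp_add, ← Real.exp_add]
    apply Real.exp_le_exp.2
    have h4 : δ / Aa h + -(Aa h / (4 * δ)) * u ^ (2 : ℕ) - (u + -(Aa h / (2 * δ)) * u ^ (2 : ℕ)) =
        (Aa h * u - 2 * δ) ^ (2 : ℕ) / (4 * δ * Aa h) := by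
      field_simp
      ring
    have h5 : 0 ≤ (Aa h * u - 2 * δ) ^ (2 : ℕ) / (4 * δ * Aa h) := by positivity
    linarith
  calc ‖w (2 * arg h * et + u)‖ * ‖cexp (Ev δ h (2 * arg h * et + u))‖
      ≤ (C * Real.exp u) * (Real.exp (-(4 * qp h * arg h ^ (2 : ℕ) / δ)) *
          Real.exp (-(Aa h / (2 * δ)) * u ^ (2 : ℕ))) := by
        apply mul_le_mul h1 h2 (norm_nonneg _)
        have := Real.exp_pos u
        positivity
    _ = C * Real.exp (-(4 * qp h * arg h ^ (2 : ℕ) / δ)) *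
          (Real.exp u * Real.exp (-(Aa h / (2 * δ)) * u ^ (2 : ℕ))) := by ring
    _ ≤ C * Real.exp (-(4 * qp h * arg h ^ (2 : ℕ) / δ)) *
          (Real.exp (δ / Aa h) * Real.exp (-(Aa h / (4 * δ)) * u ^ (2 : ℕ))) := by
        apply mul_le_mul_of_nonneg_left h3
        have := Real.exp_pos (-(4 * qp h * arg h ^ (2 : ℕ) / δ))
        positivity
    _ = _ := by ring

private theorem rt_gauss {h : ℂ} {δ : ℝ} (hδ : 0 < δ) (hA : 0 < Aa h) :
    ∫ u in Ioi (0 : ℝ), Real.exp (-(Aa h / (2 * δ)) * u ^ (2 : ℕ)) = √(Real.pi * δ / (2 * Aa h)) := by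
  rw [integral_gaussian_Ioi]
  have h1 : Real.pi / (Aa h / (2 * δ)) = (Real.pi * δ / (2 * Aa h)) * 2 ^ (2 : ℕ) := by
    field_simp
  rw [h1, Real.sqrt_mul (by positivity), Real.sqrt_sq (by norm_num)]
  ring

theorem tail_J {h : ℂ} {δ : ℝ} (hδ : 0 < δ) (ha : 0 < h.re) (hs : 0 < h.im)
    (hx : arg h ≤ h.im) (hx2 : arg h ≤ 5 / 4) :
    ‖∫ u in Ioi (0 : ℝ), cexp (Ev δ h (2 * arg h * et + u))‖ ≤
      Real.exp (-(4 * qp h * arg h ^ (2 : ℕ) / δ)) * √(Real.pi * δ / (2 * Aa h)) := by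
  have hA := rt_Aa_pos ha hs hx
  have hκ : 0 < Aa h / (2 * δ) := by positivity
  have hg : IntegrableOn (fun u : ℝ => Real.exp (-(4 * qp h * arg h ^ (2 : ℕ) / δ)) *
      Real.exp (-(Aa h / (2 * δ)) * u ^ (2 : ℕ))) (Ioi 0) :=
    ((integrable_exp_neg_mul_sq hκ).const_mul _).integrableOn
  refine (norm_integral_le_of_norm_le hg ?_).trans (le_of_eq ?_)
  · exact (ae_restrict_iff' measurableSet_Ioi).2 (Filter.Eventually.of_forall fun u hu =>
      rt_bound hδ ha hs hx hx2 (le_of_lt hu))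
  · rw [integral_const_mul, rt_gauss hδ hA]

private theorem rt_int1 {b : ℝ} (hb : 0 < b) :
    ∫ u in Ioi (0 : ℝ), u * Real.exp (-b * u ^ (2 : ℕ)) = (2 * b)⁻¹ := by
  have h := integral_mul_cexp_neg_mul_sq (b := (b : ℂ)) (by simpa using hb)
  have h2 : (∫ r in Ioi (0 : ℝ), (r : ℂ) * cexp (-(b : ℂ) * (r : ℂ) ^ (2 : ℕ))) =
      ((∫ r in Ioi (0 : ℝ), r * Real.exp (-b * r ^ (2 : ℕ)) : ℝ) : ℂ) := by
    rw [← integral_complex_ofReal]
    refine integral_congr_ae (Filter.Eventually.of_forall fun r => ?_)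
    simp only
    push_cast
    rfl
  rw [h2] at h
  exact_mod_cast h

theorem tail_K {h : ℂ} {δ : ℝ} (hδ : 0 < δ) (ha : 0 < h.re) (hs : 0 < h.im)
    (hx : arg h ≤ h.im) (hx2 : arg h ≤ 5 / 4) :
    ‖∫ u in Ioi (0 : ℝ), (2 * arg h * et + u) * cexp (Ev δ h (2 * arg h * et + u))‖ ≤
      Real.exp (-(4 * qp h * arg h ^ (2 : ℕ) / δ)) *
        (2 * arg h * √(Real.pi * δ / (2 * Aa h)) + δ / Aa h) := by
  have hA := rt_Aa_pos ha hs hx
  have hx0 := rt_arg_pos hs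
  have hκ : 0 < Aa h / (2 * δ) := by positivity
  have hg1 : IntegrableOn (fun u : ℝ => 2 * arg h * Real.exp (-(Aa h / (2 * δ)) * u ^ (2 : ℕ))) (Ioi 0) :=
    ((integrable_exp_neg_mul_sq hκ).const_mul _).integrableOn
  have hg2 : IntegrableOn (fun u : ℝ => u * Real.exp (-(Aa h / (2 * δ)) * u ^ (2 : ℕ))) (Ioi 0) :=
    (integrable_mul_exp_neg_mul_sq hκ).integrableOn
  have hg : IntegrableOn (fun u : ℝ => Real.exp (-(4 * qp h * arg h ^ (2 : ℕ) / δ)) *
      (2 * arg h * Real.exp (-(Aa h / (2 * δ)) * u ^ (2 : ℕ)) +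
        u * Real.exp (-(Aa h / (2 * δ)) * u ^ (2 : ℕ)))) (Ioi 0) :=
    (hg1.add hg2).const_mul _
  refine (norm_integral_le_of_norm_le hg ?_).trans (le_of_eq ?_)
  · refine (ae_restrict_iff' measurableSet_Ioi).2 (Filter.Eventually.of_forall fun u hu => ?_)
    have hu0 : 0 ≤ u := le_of_lt hu
    have h1 := rt_bound hδ ha hs hx hx2 hu0
    have h2 : ‖(2 * arg h * et + u : ℂ)‖ ≤ 2 * arg h + u := by
      refine (norm_add_le _ _).trans ?_
      rw [norm_mul, norm_mul, norm_et, Complex.norm_real, Complex.norm_real, Real.norm_eq_abs,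
        Real.norm_eq_abs, abs_of_pos hx0, abs_of_nonneg hu0, Complex.norm_ofNat, mul_one]
    rw [norm_mul]
    calc ‖(2 * arg h * et + u : ℂ)‖ * ‖cexp (Ev δ h (2 * arg h * et + u))‖
        ≤ (2 * arg h + u) * (Real.exp (-(4 * qp h * arg h ^ (2 : ℕ) / δ)) *
            Real.exp (-(Aa h / (2 * δ)) * u ^ (2 : ℕ))) :=
          mul_le_mul h2 h1 (norm_nonneg _) (by positivity)
      _ = _ := by ring
  · rw [integral_const_mul, integral_add hg1 hg2, integral_const_mul, rt_gauss hδ hA, rt_int1 hκ]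
    congr 2
    field_simp

end SokamTI

end

/-! ### Lib_MP_af4de1_ti.R4 -/

section
/-!
# Right saddle: the Gauss integral over the bent line, and the identity by parts [TI-R4]

`gauss_R`: `β = I(1-h)/(2δ)·(1)`: `I (1 - h) = s + i(1-a)`, real part `s > 0`.  `Ev2 δ h (I y) = -β y²`, `β = I(1-h)/(2δ)`: `∫_0^∞ e^{-β y²} dy = (π/β)^{1/2}/2` (half of
`integral_gaussian_complex`, `integral_gaussian_complex_Ioi`).  `Ev2 δ h (t et) = -b t²`, `b = β e^{iπ/3}` (`et² = e^{-2πi/3} = -e^{iπ/3}`), `Re b = qp h/δ > 0`: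
`∫_0^∞ e^{-b t²} = (π/b)^{1/2}/2`.  `arg β ∈ (-π/2, π/2)`, `arg b = arg β + π/3 ∈ (-π/2, π/2)` (both real parts are positive and the sum of the arguments is in `(-π/2 , 5π/6)`, so it must be
`arg b`), hence `(π/b)^{1/2} = (π/β)^{1/2} e^{-iπ/6}` and `I (π/β)^{1/2}/2 - et (π/b)^{1/2}/2 = (π/β)^{1/2}(I - e^{-iπ/3} e^{-iπ/6})/2 = I (π/β)^{1/2}`.
`jR = I (2πδ/(I(1-h)))^{1/2} = I (π/β)^{1/2}`.  `norm_jRr`, `norm_jLr`: `|z^{1/2}| = |z|^{1/2}` (`Complex.norm_cpow_..`; exponent real).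
`by_parts`: `Ev' = (I/δ)((1-h) v - h gg v)` (`hasDerivAt_Ev`); `∫_0^∞ d/dy e^{Ev(Iy)} dy = -1` (`integral_Ioi_of_hasDerivAt_of_tendsto`; `e^{Ev} → 0` by `vert_far`),
`∫_0^T d/dt e^{Ev(t et)} dt = e^{Ev(T et)} - 1`.
-/

set_option autoImplicit false

namespace SokamTI

open Complex MeasureTheory Set

private theorem R4_norm_sqrt {z : ℂ} (hz : z ≠ 0) : ‖z ^ (1 / 2 : ℂ)‖ = √‖z‖ := by
  rw [Complex.norm_cpow_of_ne_zero hz, Real.sqrt_eq_rpow]
  have h1 : (1 / 2 : ℂ).im = 0 := by norm_num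
  have h2 : (1 / 2 : ℂ).re = 1 / 2 := by norm_num
  rw [h1, h2, mul_zero, Real.exp_zero, div_one]

private theorem R4_num_ne {δ : ℝ} (hδ : 0 < δ) : (2 * Real.pi * δ : ℂ) ≠ 0 := by
  have h1 : (δ : ℂ) ≠ 0 := by exact_mod_cast hδ.ne'
  have h2 : (Real.pi : ℂ) ≠ 0 := by exact_mod_cast Real.pi_ne_zero
  exact mul_ne_zero (mul_ne_zero two_ne_zero h2) h1

private theorem R4_num_norm {δ : ℝ} (hδ : 0 < δ) : ‖(2 * Real.pi * δ : ℂ)‖ = 2 * Real.pi * δ := by
  have h1 : (2 * Real.pi * δ : ℂ) = ((2 * Real.pi * δ : ℝ) : ℂ) := by push_cast; ring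
  rw [h1, Complex.norm_real, Real.norm_eq_abs, abs_of_pos (by positivity)]

theorem norm_jRr {δ : ℝ} (hδ : 0 < δ) {h : ℂ} (h1 : h ≠ 1) : ‖jR δ h‖ = √(2 * Real.pi * δ / ‖1 - h‖) := by
  have h2 : (1 : ℂ) - h ≠ 0 := sub_ne_zero.mpr (Ne.symm h1)
  unfold jR
  rw [norm_mul, Complex.norm_I, one_mul, R4_norm_sqrt (div_ne_zero (R4_num_ne hδ) (mul_ne_zero I_ne_zero h2)),
    norm_div, R4_num_norm hδ, norm_mul, Complex.norm_I, one_mul]

theorem norm_jLr {δ : ℝ} (hδ : 0 < δ) {h : ℂ} (h1 : h ≠ 1) : ‖jL δ h‖ = √(2 * Real.pi * δ / ‖1 - h‖) := by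
  have h2 : (1 : ℂ) - h ≠ 0 := sub_ne_zero.mpr (Ne.symm h1)
  unfold jL
  rw [R4_norm_sqrt (div_ne_zero (R4_num_ne hδ) (neg_ne_zero.mpr (mul_ne_zero I_ne_zero h2))),
    norm_div, R4_num_norm hδ, norm_neg, norm_mul, Complex.norm_I, one_mul]

/-- a square root with the argument in an interval -/
private theorem R4_re_pos {z : ℂ} (hz : 0 < z.re) {θ : ℝ} (h1 : -(Real.pi / 4) ≤ θ) (h2 : θ ≤ Real.pi / 4) :
    0 < (z ^ (1 / 2 : ℂ) * cexp (θ * I)).re := by
  have hz0 : z ≠ 0 := by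
    rintro rfl
    simp at hz
  have harg : |arg z| < Real.pi / 2 := abs_arg_lt_pi_div_two_iff.mpr (Or.inl hz)
  have h3 := abs_lt.mp harg
  have h4 : z ^ (1 / 2 : ℂ) * cexp (θ * I) = cexp ((Real.log ‖z‖ / 2 : ℝ) + (arg z / 2 + θ : ℝ) * I) := by
    rw [cpow_def_of_ne_zero hz0, ← Complex.exp_add]
    congr 1
    have h5 : Complex.log z = (Real.log ‖z‖ : ℝ) + (arg z : ℝ) * I := by
      rw [Complex.log]
    rw [h5]
    push_cast
    ring
  rw [h4, Complex.exp_re]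
  have h5 : ((Real.log ‖z‖ / 2 : ℝ) + (arg z / 2 + θ : ℝ) * I : ℂ).im = arg z / 2 + θ := by simp
  rw [h5]
  refine mul_pos (Real.exp_pos _) (Real.cos_pos_of_mem_Ioo ⟨?_, ?_⟩)
  · linarith [h3.1]
  · linarith [h3.2]

private theorem R4_et_mul : et * cexp (-(Real.pi / 6 : ℝ) * I) = -I := by
  unfold et
  rw [← Complex.exp_add]
  have h1 : -((Real.pi / 3 : ℝ) * I) + -(Real.pi / 6 : ℝ) * I = -(Real.pi / 2 * I) := by
    push_cast
    ring
  rw [h1, Complex.exp_neg, Complex.exp_pi_div_two_mul_I, Complex.inv_I]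

private theorem R4_exp_sq : cexp (-(Real.pi / 6 : ℝ) * I) ^ (2 : ℕ) * (-et ^ (2 : ℕ)) = 1 := by
  have h1 : (et * cexp (-(Real.pi / 6 : ℝ) * I)) ^ (2 : ℕ) = -1 := by
    rw [R4_et_mul, neg_sq, I_sq]
  have h2 : cexp (-(Real.pi / 6 : ℝ) * I) ^ (2 : ℕ) * (-et ^ (2 : ℕ)) = -(et * cexp (-(Real.pi / 6 : ℝ) * I)) ^ (2 : ℕ) := by ring
  rw [h2, h1, neg_neg]

theorem gauss_R {h : ℂ} {δ : ℝ} (hδ : 0 < δ) (hs : 0 < h.im) (hq : 0 < qp h) :
    I * (∫ y in Ioi (0 : ℝ), cexp (Ev2 δ h (I * y))) -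
      et * (∫ t in Ioi (0 : ℝ), cexp (Ev2 δ h (t * et))) = jR δ h := by
  have hδc : (δ : ℂ) ≠ 0 := by exact_mod_cast hδ.ne'
  obtain ⟨β, hβ⟩ : ∃ β : ℂ, β = I * (1 - h) / (2 * δ) := ⟨_, rfl⟩
  obtain ⟨b, hb⟩ : ∃ b : ℂ, b = β * (-et ^ (2 : ℕ)) := ⟨_, rfl⟩
  have hβre : β.re = h.im / (2 * δ) := by
    have h1 : β = ((1 / (2 * δ) : ℝ) : ℂ) * (I * (1 - h)) := by
      rw [hβ]
      push_cast
      field_simp
    rw [h1, Complex.re_ofReal_mul, Complex.mul_re, Complex.I_re, Complex.I_im]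
    simp
    ring
  have hβp : 0 < β.re := by
    rw [hβre]
    positivity
  have hbre : b.re = qp h / δ := by
    have h1 := slope_quad h 1
    have h2 : b = ((1 / δ : ℝ) : ℂ) * (-(I * ((1 - h) * (((1 : ℝ) * et) ^ (2 : ℕ) / 2)))) := by
      rw [hb, hβ]
      push_cast
      field_simp
    rw [h2, Complex.re_ofReal_mul, Complex.neg_re, Complex.mul_re, Complex.I_re, Complex.I_im, h1]
    ring
  have hbp : 0 < b.re := by
    rw [hbre]
    (clear * - hq hδ; positivity)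
  have hβ0 : β ≠ 0 := by
    rintro h0
    rw [h0] at hβp
    simp at hβp
  have hb0 : b ≠ 0 := by
    rintro h0
    rw [h0] at hbp
    simp at hbp
  have e1 : ∫ y in Ioi (0 : ℝ), cexp (Ev2 δ h (I * y)) = (Real.pi / β) ^ (1 / 2 : ℂ) / 2 := by
    rw [← integral_gaussian_complex_Ioi hβp]
    refine setIntegral_congr_fun measurableSet_Ioi fun y _ => ?_
    show cexp (Ev2 δ h (I * y)) = cexp (-β * (y : ℂ) ^ (2 : ℕ))
    congr 1
    unfold Ev2
    rw [hβ, mul_pow, I_sq]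
    field_simp
  have e2 : ∫ t in Ioi (0 : ℝ), cexp (Ev2 δ h (t * et)) = (Real.pi / b) ^ (1 / 2 : ℂ) / 2 := by
    rw [← integral_gaussian_complex_Ioi hbp]
    refine setIntegral_congr_fun measurableSet_Ioi fun y _ => ?_
    show cexp (Ev2 δ h (y * et)) = cexp (-b * (y : ℂ) ^ (2 : ℕ))
    congr 1
    unfold Ev2
    rw [hb, hβ]
    field_simp
  have hpi : (Real.pi : ℂ) ≠ 0 := by exact_mod_cast Real.pi_ne_zero
  have hre1 : 0 < (Real.pi / β : ℂ).re := by
    rw [div_eq_mul_inv, Complex.re_ofReal_mul, Complex.inv_re]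
    have := Real.pi_pos
    have := Complex.normSq_pos.mpr hβ0
    (clear * - hβp this; positivity)
  have hre2 : 0 < (Real.pi / b : ℂ).re := by
    rw [div_eq_mul_inv, Complex.re_ofReal_mul, Complex.inv_re]
    have := Real.pi_pos
    have := Complex.normSq_pos.mpr hb0
    (clear * - hbp this; positivity)
  have hsq1 : ((Real.pi / β : ℂ) ^ (1 / 2 : ℂ)) ^ (2 : ℕ) = Real.pi / β := by
    rw [← Complex.cpow_nat_mul]
    norm_num
  have hsq2 : ((Real.pi / b : ℂ) ^ (1 / 2 : ℂ)) ^ (2 : ℕ) = Real.pi / b := by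
    rw [← Complex.cpow_nat_mul]
    norm_num
  have e3 : (Real.pi / b : ℂ) ^ (1 / 2 : ℂ) = (Real.pi / β : ℂ) ^ (1 / 2 : ℂ) * cexp (-(Real.pi / 6 : ℝ) * I) := by
    have h1 : ((Real.pi / b : ℂ) ^ (1 / 2 : ℂ)) ^ (2 : ℕ) =
        ((Real.pi / β : ℂ) ^ (1 / 2 : ℂ) * cexp (-(Real.pi / 6 : ℝ) * I)) ^ (2 : ℕ) := by
      rw [mul_pow, hsq1, hsq2, hb]
      have h2 := R4_exp_sq
      have h3 : (-et ^ (2 : ℕ) : ℂ) ≠ 0 := by
        intro h0
        rw [h0, mul_zero] at h2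
        exact zero_ne_one h2
      rw [← div_div, div_eq_iff h3, mul_assoc, h2, mul_one]
    rcases sq_eq_sq_iff_eq_or_eq_neg.mp h1 with h2 | h2
    · exact h2
    · exfalso
      have p1 := R4_re_pos hre2 (θ := 0) (by linarith [Real.pi_pos]) (by linarith [Real.pi_pos])
      have p2 := R4_re_pos hre1 (θ := -(Real.pi / 6)) (by linarith [Real.pi_pos]) (by linarith [Real.pi_pos])
      rw [Complex.ofReal_zero, zero_mul, Complex.exp_zero, mul_one, h2, Complex.neg_re] at p1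
      rw [Complex.ofReal_neg] at p2
      linarith
  have e4 : (2 * Real.pi * δ / (I * (1 - h)) : ℂ) = Real.pi / β := by
    have h2 : I * (1 - h) ≠ 0 := by
      intro h0
      apply hβ0
      rw [hβ, h0, zero_div]
    rw [hβ]
    field_simp
  rw [e1, e2, e3]
  unfold jR
  rw [e4]
  have h5 : I * ((Real.pi / β : ℂ) ^ (1 / 2 : ℂ) / 2) -
      et * ((Real.pi / β : ℂ) ^ (1 / 2 : ℂ) * cexp (-(Real.pi / 6 : ℝ) * I) / 2) =
      (Real.pi / β : ℂ) ^ (1 / 2 : ℂ) / 2 * (I - et * cexp (-(Real.pi / 6 : ℝ) * I)) := by ring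
  rw [h5, R4_et_mul]
  ring

private theorem R4_gg_zero : gg 0 = 0 := by
  unfold gg
  simp

private theorem R4_Ev_zero (δ : ℝ) (h : ℂ) : Ev δ h 0 = 0 := by
  unfold Ev
  rw [R4_gg_zero]
  simp

theorem by_parts {h : ℂ} {δ T : ℝ} (hδ : 0 < δ) (ha : 97 / 100 ≤ h.re) (hs : 0 < h.im)
    (hs3 : h.im ≤ 78 / 25 * h.re)
    (hi1 : IntegrableOn (fun y : ℝ => (I * y) * cexp (Ev δ h (I * y))) (Ioi 0))
    (hi2 : IntegrableOn (fun y : ℝ => gg (I * y) * cexp (Ev δ h (I * y))) (Ioi 0)) :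
    (1 - h) * (I * (∫ y in Ioi (0 : ℝ), (I * y) * cexp (Ev δ h (I * y))) -
        et * (∫ t in (0 : ℝ)..T, (t * et) * cexp (Ev δ h (t * et)))) =
      h * (I * (∫ y in Ioi (0 : ℝ), gg (I * y) * cexp (Ev δ h (I * y))) -
        et * (∫ t in (0 : ℝ)..T, gg (t * et) * cexp (Ev δ h (t * et)))) +
      I * δ * cexp (Ev δ h (T * et)) := by
  have hδc : (δ : ℂ) ≠ 0 := by exact_mod_cast hδ.ne'
  have hgc := continuous_gg
  have hEc := continuous_Ev δ h
  -- the derivative along a line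
  have hder : ∀ (w : ℂ) (y : ℝ), HasDerivAt (fun y : ℝ => cexp (Ev δ h (y * w)))
      (cexp (Ev δ h (y * w)) * (I / δ * ((1 - h) * (y * w) - h * gg (y * w)) * w)) y := by
    intro w y
    have h1 : HasDerivAt (fun y : ℝ => (y : ℂ) * w) w y := by
      have h2 := (Complex.ofRealCLM.hasDerivAt (x := y)).mul_const w
      simpa using h2
    exact ((hasDerivAt_Ev δ h (y * w)).comp y h1).cexp
  -- the vertical leg
  have hv : ∫ y in Ioi (0 : ℝ), cexp (Ev δ h (y * I)) * (I / δ * ((1 - h) * (y * I) - h * gg (y * I)) * I) = -1 := by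
    have hf : Filter.Tendsto (fun y : ℝ => cexp (Ev δ h (y * I))) Filter.atTop (nhds 0) := by
      rw [tendsto_zero_iff_norm_tendsto_zero]
      have h1 : Filter.Tendsto (fun y : ℝ => Real.exp (-((h.re / 2 * (y - 3 / 2)) / δ))) Filter.atTop (nhds 0) := by
        refine Real.tendsto_exp_neg_atTop_nhds_zero.comp ?_
        refine Filter.Tendsto.atTop_div_const hδ ?_
        refine Filter.Tendsto.const_mul_atTop (by linarith) ?_
        exact Filter.tendsto_atTop_add_const_right _ _ Filter.tendsto_id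
      refine squeeze_zero' (Filter.Eventually.of_forall fun y => norm_nonneg _) ?_ h1
      filter_upwards [Filter.eventually_ge_atTop (3 / 2 : ℝ)] with y hy
      rw [norm_exp_Ev hδ]
      apply Real.exp_le_exp.mpr
      have h2 := vert_far hy (by linarith : 0 < h.re) hs hs3
      rw [mul_comm (y : ℂ) I]
      have h3 : h.re / 2 * (y - 3 / 2) ≤ ht h (I * y) := by
        have h4 : 0 ≤ h.re := by linarith
        linarith
      have h4 : h.re / 2 * (y - 3 / 2) / δ ≤ ht h (I * y) / δ := by gcongr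
      linarith
    have hint : IntegrableOn (fun y : ℝ => cexp (Ev δ h (y * I)) *
        (I / δ * ((1 - h) * (y * I) - h * gg (y * I)) * I)) (Ioi 0) := by
      have h1 : IntegrableOn (fun y : ℝ => I / δ * (1 - h) * I * ((I * y) * cexp (Ev δ h (I * y))) -
          I / δ * h * I * (gg (I * y) * cexp (Ev δ h (I * y)))) (Ioi 0) :=
        Integrable.sub (hi1.const_mul (I / δ * (1 - h) * I)) (hi2.const_mul (I / δ * h * I))
      refine h1.congr_fun (fun y _ => ?_) measurableSet_Ioi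
      show I / δ * (1 - h) * I * ((I * y) * cexp (Ev δ h (I * y))) -
          I / δ * h * I * (gg (I * y) * cexp (Ev δ h (I * y))) =
        cexp (Ev δ h (y * I)) * (I / δ * ((1 - h) * (y * I) - h * gg (y * I)) * I)
      rw [mul_comm (y : ℂ) I]
      ring
    have hcont : ContinuousWithinAt (fun y : ℝ => cexp (Ev δ h (y * I))) (Ici 0) 0 :=
      (hder I 0).continuousAt.continuousWithinAt
    have h1 := integral_Ioi_of_hasDerivAt_of_tendsto hcont (fun y _ => hder I y) hint hf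
    rw [h1, Complex.ofReal_zero, zero_mul, R4_Ev_zero, Complex.exp_zero, zero_sub]
  have hv2 : I / δ * I * ((1 - h) * (∫ y in Ioi (0 : ℝ), (I * y) * cexp (Ev δ h (I * y))) -
      h * ∫ y in Ioi (0 : ℝ), gg (I * y) * cexp (Ev δ h (I * y))) = -1 := by
    rw [← hv, ← integral_const_mul, ← integral_const_mul, ← integral_sub (hi1.const_mul _) (hi2.const_mul _),
      ← integral_const_mul]
    refine setIntegral_congr_fun measurableSet_Ioi fun y _ => ?_
    show I / δ * I * ((1 - h) * ((I * y) * cexp (Ev δ h (I * y))) - h * (gg (I * y) * cexp (Ev δ h (I * y)))) =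
      cexp (Ev δ h (y * I)) * (I / δ * ((1 - h) * (y * I) - h * gg (y * I)) * I)
    rw [mul_comm (y : ℂ) I]
    ring
  -- the slope
  have hcy : Continuous fun t : ℝ => (t : ℂ) * et := by fun_prop
  have hc1 : Continuous fun t : ℝ => (t * et) * cexp (Ev δ h (t * et)) :=
    hcy.mul (Complex.continuous_exp.comp (hEc.comp hcy))
  have hc2 : Continuous fun t : ℝ => gg (t * et) * cexp (Ev δ h (t * et)) :=
    (hgc.comp hcy).mul (Complex.continuous_exp.comp (hEc.comp hcy))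
  have hs1 : ∫ t in (0 : ℝ)..T, cexp (Ev δ h (t * et)) * (I / δ * ((1 - h) * (t * et) - h * gg (t * et)) * et) =
      cexp (Ev δ h (T * et)) - 1 := by
    have h1 := intervalIntegral.integral_eq_sub_of_hasDerivAt (a := 0) (b := T) (fun t _ => hder et t) (by
      refine Continuous.intervalIntegrable ?_ _ _
      exact (Complex.continuous_exp.comp (hEc.comp hcy)).mul
        ((continuous_const.mul ((continuous_const.mul hcy).sub (continuous_const.mul (hgc.comp hcy)))).mul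
          continuous_const))
    rw [h1, Complex.ofReal_zero, zero_mul, R4_Ev_zero, Complex.exp_zero]
  have hs2 : I / δ * et * ((1 - h) * (∫ t in (0 : ℝ)..T, (t * et) * cexp (Ev δ h (t * et))) -
      h * ∫ t in (0 : ℝ)..T, gg (t * et) * cexp (Ev δ h (t * et))) = cexp (Ev δ h (T * et)) - 1 := by
    have i1 : IntervalIntegrable (fun t : ℝ => (1 - h) * ((t * et) * cexp (Ev δ h (t * et)))) volume 0 T :=
      (continuous_const.mul hc1).intervalIntegrable _ _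
    have i2 : IntervalIntegrable (fun t : ℝ => h * (gg (t * et) * cexp (Ev δ h (t * et)))) volume 0 T :=
      (continuous_const.mul hc2).intervalIntegrable _ _
    rw [← hs1, ← intervalIntegral.integral_const_mul, ← intervalIntegral.integral_const_mul,
      ← intervalIntegral.integral_sub i1 i2, ← intervalIntegral.integral_const_mul]
    refine intervalIntegral.integral_congr fun t _ => ?_
    ring
  -- conclusion
  obtain ⟨A1, hA1⟩ : ∃ A1, A1 = ∫ y in Ioi (0 : ℝ), (I * y) * cexp (Ev δ h (I * y)) := ⟨_, rfl⟩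
  obtain ⟨A2, hA2⟩ : ∃ A2, A2 = ∫ y in Ioi (0 : ℝ), gg (I * y) * cexp (Ev δ h (I * y)) := ⟨_, rfl⟩
  obtain ⟨B1, hB1⟩ : ∃ B1, B1 = ∫ t in (0 : ℝ)..T, (t * et) * cexp (Ev δ h (t * et)) := ⟨_, rfl⟩
  obtain ⟨B2, hB2⟩ : ∃ B2, B2 = ∫ t in (0 : ℝ)..T, gg (t * et) * cexp (Ev δ h (t * et)) := ⟨_, rfl⟩
  rw [← hA1, ← hA2] at hv2
  rw [← hB1, ← hB2] at hs2
  rw [← hA1, ← hA2, ← hB1, ← hB2]
  have h1 : I * ((1 - h) * A1 - h * A2) = I * δ := by
    have h2 : I / δ * I * ((1 - h) * A1 - h * A2) * (δ * I) = -1 * (δ * I) := by rw [hv2]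
    have h3 : I / δ * I * ((1 - h) * A1 - h * A2) * (δ * I) = (I * I) * (I * ((1 - h) * A1 - h * A2)) := by
      field_simp
    rw [h3, I_mul_I] at h2
    linear_combination -h2
  have h4 : et * ((1 - h) * B1 - h * B2) = -(I * δ) * (cexp (Ev δ h (T * et)) - 1) := by
    have h2 : I / δ * et * ((1 - h) * B1 - h * B2) * (δ * I) = (cexp (Ev δ h (T * et)) - 1) * (δ * I) := by rw [hs2]
    have h3 : I / δ * et * ((1 - h) * B1 - h * B2) * (δ * I) = (I * I) * (et * ((1 - h) * B1 - h * B2)) := by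
      field_simp
    rw [h3, I_mul_I] at h2
    linear_combination -h2
  linear_combination h1 - h4

end SokamTI

end

/-! ### Lib_MP_af4de1_ti.LineR -/

section
/-!
# The right saddle integral: assembly (helper69)
-/

set_option autoImplicit false

namespace SokamTI

open Complex MeasureTheory Set

private theorem lr_exp {y : ℝ} (hy : 0 < y) : Real.exp (-y) ≤ 47 / 10 / y ^ (4 : ℕ) := by
  have h1 : Real.exp 1 * (y / 4) ≤ Real.exp (y / 4) := by
    have h2 := Real.add_one_le_exp (y / 4 - 1)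
    have h3 : Real.exp (y / 4) = Real.exp 1 * Real.exp (y / 4 - 1) := by
      rw [← Real.exp_add]; congr 1; ring
    rw [h3]
    apply mul_le_mul_of_nonneg_left _ (Real.exp_pos _).le
    linarith only [h2]
  have h4 : (Real.exp 1 * (y / 4)) ^ (4 : ℕ) ≤ Real.exp y := by
    have := pow_le_pow_left₀ (by positivity) h1 4
    rw [← Real.exp_nat_mul] at this
    calc _ ≤ _ := this
      _ = _ := by congr 1; push_cast; ring
  have h5 : (2.7182 : ℝ) ^ (4 : ℕ) ≤ Real.exp 1 ^ (4 : ℕ) :=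
    pow_le_pow_left₀ (by norm_num) (by linarith only [Real.exp_one_gt_d9]) 4
  have h6 : 10 / 47 * y ^ (4 : ℕ) ≤ Real.exp y := by
    refine le_trans ?_ h4
    rw [mul_pow, div_pow]
    have h7 : 0 < y ^ (4 : ℕ) := by positivity
    have h8 : (10 / 47 * 256 : ℝ) ≤ Real.exp 1 ^ (4 : ℕ) := le_trans (by norm_num) h5
    calc 10 / 47 * y ^ (4 : ℕ) = (10 / 47 * 256) * (y ^ (4 : ℕ) / 4 ^ (4 : ℕ)) := by ring
      _ ≤ _ := mul_le_mul_of_nonneg_right h8 (by positivity)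
  rw [Real.exp_neg, inv_le_comm₀ (Real.exp_pos _) (by positivity)]
  calc (47 / 10 / y ^ (4 : ℕ))⁻¹ = 10 / 47 * y ^ (4 : ℕ) := by
        field_simp
    _ ≤ _ := h6

private theorem lr_arg_pos {h : ℂ} (hs : 0 < h.im) : 0 < arg h := by
  rcases lt_or_eq_of_le (Complex.arg_nonneg_iff.2 hs.le) with h1 | h1
  · exact h1
  · exact absurd (Complex.arg_eq_zero_iff.1 h1.symm).2 hs.ne'

private theorem lr_xl_pos {h : ℂ} (hs : 0 < h.im) : 0 < xl h := by
  have : h ≠ 0 := by rintro rfl; simp at hs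
  exact div_pos hs (norm_pos_iff.2 this)

private theorem lr_xl {h : ℂ} : xl h = Real.sin (arg h) := (Complex.sin_arg h).symm

private theorem lr_xl_le {h : ℂ} (hs : 0 < h.im) : xl h ≤ arg h := by
  rw [lr_xl]
  exact Real.sin_le (lr_arg_pos hs).le

private theorem lr_tf {h : ℂ} {δ : ℝ} (hδ : 0 < δ) (hs : 0 < h.im) (hq : 0 < qp h) :
    Real.exp (-(4 * qp h * arg h ^ (2 : ℕ) / δ)) ≤ tf h δ := by
  have h1 := lr_xl_pos hs
  have h2 := lr_xl_le hs
  have h3 : 4 * qp h * xl h ^ (2 : ℕ) / δ ≤ 4 * qp h * arg h ^ (2 : ℕ) / δ := by gcongr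
  have h4 : 0 < 4 * qp h * xl h ^ (2 : ℕ) / δ := by positivity
  calc Real.exp (-(4 * qp h * arg h ^ (2 : ℕ) / δ)) ≤ Real.exp (-(4 * qp h * xl h ^ (2 : ℕ) / δ)) :=
        Real.exp_le_exp.2 (by linarith only [h3])
    _ ≤ 47 / 10 / (4 * qp h * xl h ^ (2 : ℕ) / δ) ^ (4 : ℕ) := lr_exp h4
    _ = tf h δ := by
      unfold tf
      field_simp

private theorem lr_im_le {h : ℂ} (ha : 0 < h.re) (hs : 0 < h.im) (hx2 : arg h ≤ 5 / 4) :
    h.im ≤ 78 / 25 * h.re := by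
  have h0 := lr_arg_pos hs
  have hn : 0 < ‖h‖ := norm_pos_iff.2 (by rintro rfl; simp at hs)
  have e1 : h.re = ‖h‖ * Real.cos (arg h) := (Complex.norm_mul_cos_arg h).symm
  have e2 : h.im = ‖h‖ * Real.sin (arg h) := (Complex.norm_mul_sin_arg h).symm
  have hpi := Real.pi_gt_d4
  have hpi2 := Real.pi_lt_d4
  set φ : ℝ := Real.pi / 2 - arg h with hφ
  have h1 : 32 / 100 < φ := by rw [hφ]; linarith only [hs, hx2, hpi]
  have h2 : φ < Real.pi / 2 := by rw [hφ]; linarith only [h0]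
  have h3 := Real.lt_tan (by linarith : 0 < φ) h2
  have hc : 0 < Real.cos φ := Real.cos_pos_of_mem_Ioo ⟨by linarith only [hpi, h1], h2⟩
  rw [Real.tan_eq_sin_div_cos, lt_div_iff₀ hc] at h3
  have h4 : Real.cos φ = Real.sin (arg h) := by rw [hφ, Real.cos_pi_div_two_sub]
  have h5 : Real.sin φ = Real.cos (arg h) := by rw [hφ, Real.sin_pi_div_two_sub]
  rw [h4, h5] at h3
  rw [h4] at hc
  have h6 : φ * Real.sin (arg h) < Real.cos (arg h) := h3
  have h7 : (3205 / 10000 : ℝ) ≤ φ := by rw [hφ]; linarith only [hx2, hpi]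
  have h7' : (3207 / 10000 : ℝ) ≤ φ := by rw [hφ]; linarith only [hx2, hpi]
  have h8 := mul_le_mul_of_nonneg_right h7' hc.le
  have h9 : Real.sin (arg h) ≤ 78 / 25 * Real.cos (arg h) := by linarith only [h8, h6, hc]
  have h10 := mul_le_mul_of_nonneg_left h9 hn.le
  rw [e1, e2]
  linarith only [h10]

private theorem lr_pi : (25066 / 10000 : ℝ) ≤ √(2 * Real.pi) := by
  apply Real.le_sqrt_of_sq_le
  have := Real.pi_gt_d6
  norm_num at this ⊢
  linarith only [this]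

/-- the sum of the three errors -/
private theorem lr_J {h : ℂ} {δ : ℝ} (hδ : 0 < δ) (hδ2 : δ ≤ 2 / 25) (ha : 97 / 100 ≤ h.re) (hs : 0 < h.im)
    (hs3 : h.im ≤ 78 / 25 * h.re) (hx : arg h ≤ h.im) (hx2 : arg h ≤ 5 / 4) (hq : 0 < qp h) :
    ‖JR δ h - jR δ h‖ ≤ ‖h‖ * δ * (100 / (243 * h.im ^ (2 : ℕ))) +
      (‖h‖ * δ * ((1 + 27 / 100 * √(δ / qp h)) / (12 * qp h ^ (2 : ℕ))) +
      Real.exp (-(4 * qp h * arg h ^ (2 : ℕ) / δ)) * (δ / (4 * qp h * arg h))) +
      Real.exp (-(4 * qp h * arg h ^ (2 : ℕ) / δ)) * √(Real.pi * δ / (2 * Aa h)) := by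
  have hx0 := lr_arg_pos hs
  have ha0 : 0 < h.re := by linarith only [hs, hs3]
  have h1 := vert_J hδ hδ2 ha hs hs3
  have h2 := slope_J (T := 2 * arg h) hδ (by linarith only [hx0]) (by linarith only [hx2]) ha0.le
    (by have := re_mul_arg_le ha0 hs
        linarith only [this]) hq
  have h3 := tail_J hδ ha0 hs hx hx2
  have e1 : qp h * (2 * arg h) ^ (2 : ℕ) / δ = 4 * qp h * arg h ^ (2 : ℕ) / δ := by ring
  have e2 : 2 * qp h * (2 * arg h) = 4 * qp h * arg h := by ring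
  rw [e1, e2] at h2
  rw [← gauss_R hδ hs hq]
  unfold JR JRw
  simp only [one_mul]
  set A1 := ∫ y in Ioi (0 : ℝ), cexp (Ev δ h (I * y))
  set A2 := ∫ y in Ioi (0 : ℝ), cexp (Ev2 δ h (I * y))
  set B1 := ∫ t in (0 : ℝ)..(2 * arg h), cexp (Ev δ h (t * et))
  set B2 := ∫ t in Ioi (0 : ℝ), cexp (Ev2 δ h (t * et))
  set C1 := ∫ u in Ioi (0 : ℝ), cexp (Ev δ h (2 * arg h * et + u))
  have e3 : I * A1 - et * B1 - C1 - (I * A2 - et * B2) = I * (A1 - A2) - et * (B1 - B2) - C1 := by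
    ring
  rw [e3]
  calc ‖I * (A1 - A2) - et * (B1 - B2) - C1‖ ≤ ‖I * (A1 - A2)‖ + ‖et * (B1 - B2)‖ + ‖C1‖ :=
        (norm_sub_le _ _).trans (add_le_add_left (norm_sub_le _ _) _)
    _ = ‖A1 - A2‖ + ‖B1 - B2‖ + ‖C1‖ := by
        rw [norm_mul, norm_mul, Complex.norm_I, norm_et, one_mul, one_mul]
    _ ≤ _ := add_le_add (add_le_add h1 h2) h3

private theorem lr_m_ne {h : ℂ} (hs : 0 < h.im) : h ≠ 1 := by
  rintro rfl
  simp at hs

theorem JR_bound {h : ℂ} {δ : ℝ} (hδ : 0 < δ) (hδ2 : δ ≤ 2 / 25) (ha : 97 / 100 ≤ h.re) (hs : 0 < h.im)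
    (hx : arg h ≤ h.im) (hx2 : arg h ≤ 5 / 4) (hq : 0 < qp h) :
    ‖JR δ h - jR δ h‖ ≤ relR h δ * ‖jR δ h‖ := by
  have hs3 := lr_im_le (by linarith only [ha]) hs hx2
  have h0 := lr_J hδ hδ2 ha hs hs3 hx hx2 hq
  refine h0.trans ?_
  have hx0 := lr_arg_pos hs
  have hl0 := lr_xl_pos hs
  have hlx := lr_xl_le hs
  have htf := lr_tf hδ hs hq
  have hA := Aa_ge (by linarith only [ha]) hs hx
  have hm : 0 < ‖1 - h‖ := norm_pos_iff.2 (sub_ne_zero.2 (lr_m_ne hs).symm)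
  rw [norm_jRr hδ (lr_m_ne hs)]
  have hpi := lr_pi
  have hA1 : 183 / 250 * arg h ≤ Aa h := by
    have h1 : 1 ≤ Real.exp (arg h) := Real.one_le_exp hx0.le
    have h2 : 183 / 250 * arg h * 1 ≤ 183 / 250 * arg h * Real.exp (arg h) :=
      mul_le_mul_of_nonneg_left h1 (by positivity)
    linarith only [hA, h2]
  have hA0 : 0 < Aa h := lt_of_lt_of_le (by positivity) hA1
  have e1 : √(‖1 - h‖ * δ) * √(2 * Real.pi * δ / ‖1 - h‖) = √(2 * Real.pi) * δ := by
    rw [← Real.sqrt_mul (by positivity)]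
    rw [show ‖1 - h‖ * δ * (2 * Real.pi * δ / ‖1 - h‖) = 2 * Real.pi * δ ^ (2 : ℕ) by field_simp]
    rw [Real.sqrt_mul (by positivity), Real.sqrt_sq hδ.le]
  have e2 : √‖1 - h‖ * √(2 * Real.pi * δ / ‖1 - h‖) = √(2 * Real.pi) * √δ := by
    rw [← Real.sqrt_mul (by positivity)]
    rw [show ‖1 - h‖ * (2 * Real.pi * δ / ‖1 - h‖) = 2 * Real.pi * δ by field_simp]
    rw [Real.sqrt_mul (by positivity)]
  have e3 : relR h δ * √(2 * Real.pi * δ / ‖1 - h‖) =
      399 / 1000 * √(2 * Real.pi) * (‖h‖ * δ * (100 / (243 * h.im ^ (2 : ℕ)) +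
        (1 + 27 / 100 * √(δ / qp h)) / (12 * qp h ^ (2 : ℕ)))) +
      tf h δ * (√(2 * Real.pi) * (3 / 5 * √δ / √(xl h) + 1 / 10 * (√δ * √δ) / (qp h * xl h))) := by
    unfold relR
    calc _ = 399 / 1000 * ‖h‖ * (√(‖1 - h‖ * δ) * √(2 * Real.pi * δ / ‖1 - h‖)) *
        (100 / (243 * h.im ^ (2 : ℕ)) + (1 + 27 / 100 * √(δ / qp h)) / (12 * qp h ^ (2 : ℕ))) +
        tf h δ * (√‖1 - h‖ * √(2 * Real.pi * δ / ‖1 - h‖)) *
        (3 / 5 / √(xl h) + 1 / 10 * √δ / (qp h * xl h)) := by ring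
      _ = _ := by rw [e1, e2]; ring
  rw [e3, Real.mul_self_sqrt hδ.le]
  -- the main part
  have f1 : ‖h‖ * δ * (100 / (243 * h.im ^ (2 : ℕ))) +
      ‖h‖ * δ * ((1 + 27 / 100 * √(δ / qp h)) / (12 * qp h ^ (2 : ℕ))) ≤
      399 / 1000 * √(2 * Real.pi) * (‖h‖ * δ * (100 / (243 * h.im ^ (2 : ℕ)) +
        (1 + 27 / 100 * √(δ / qp h)) / (12 * qp h ^ (2 : ℕ)))) := by
    have g1 : (1 : ℝ) ≤ 399 / 1000 * √(2 * Real.pi) := by linarith only [hpi]
    have g2 : 0 ≤ ‖h‖ * δ * (100 / (243 * h.im ^ (2 : ℕ)) +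
        (1 + 27 / 100 * √(δ / qp h)) / (12 * qp h ^ (2 : ℕ))) := by positivity
    calc _ = 1 * (‖h‖ * δ * (100 / (243 * h.im ^ (2 : ℕ)) +
        (1 + 27 / 100 * √(δ / qp h)) / (12 * qp h ^ (2 : ℕ)))) := by ring
      _ ≤ _ := mul_le_mul_of_nonneg_right g1 g2
  -- the corner
  have f2 : δ / (4 * qp h * arg h) ≤ √(2 * Real.pi) * (1 / 10 * δ / (qp h * xl h)) := by
    have g1 : δ / (4 * qp h * arg h) ≤ δ / (4 * qp h * xl h) := by gcongr
    refine g1.trans ?_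
    have g2 : δ / (4 * qp h * xl h) = 1 / 4 * (δ / (qp h * xl h)) := by field_simp
    have g3 : √(2 * Real.pi) * (1 / 10 * δ / (qp h * xl h)) =
      (√(2 * Real.pi) / 10) * (δ / (qp h * xl h)) := by ring
    rw [g2, g3]
    apply mul_le_mul_of_nonneg_right _ (by positivity)
    linarith only [hpi]
  have f3 : √(Real.pi * δ / (2 * Aa h)) ≤ √(2 * Real.pi) * (3 / 5 * √δ / √(xl h)) := by
    have g0 : √((3 / 5) ^ (2 : ℕ) * δ / xl h) = 3 / 5 * √δ / √(xl h) := by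
      rw [Real.sqrt_div (by positivity) (xl h), Real.sqrt_mul (by positivity) δ,
        Real.sqrt_sq (by norm_num)]
    have g1 : √(2 * Real.pi) * (3 / 5 * √δ / √(xl h)) = √(2 * Real.pi * ((3 / 5) ^ (2 : ℕ) * δ / xl h)) := by
      rw [← g0]
      exact (Real.sqrt_mul (x := 2 * Real.pi) (by positivity) _).symm
    rw [g1]
    apply Real.sqrt_le_sqrt
    rw [← mul_div_assoc, div_le_div_iff₀ (by positivity) hl0]
    have g2 : xl h ≤ 36 / 25 * Aa h := by linarith only [hlx, hA1, hx0]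
    have g3 : 0 < Real.pi * δ := by positivity
    have g4 := mul_le_mul_of_nonneg_left g2 g3.le
    linarith only [g4]
  have htf0 : 0 ≤ tf h δ := (Real.exp_pos _).le.trans htf
  have f4 : Real.exp (-(4 * qp h * arg h ^ (2 : ℕ) / δ)) * (δ / (4 * qp h * arg h)) ≤
      tf h δ * (√(2 * Real.pi) * (1 / 10 * δ / (qp h * xl h))) :=
    mul_le_mul htf f2 (by positivity) htf0
  have f5 : Real.exp (-(4 * qp h * arg h ^ (2 : ℕ) / δ)) * √(Real.pi * δ / (2 * Aa h)) ≤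
      tf h δ * (√(2 * Real.pi) * (3 / 5 * √δ / √(xl h))) :=
    mul_le_mul htf f3 (Real.sqrt_nonneg _) htf0
  have e4 : tf h δ * (√(2 * Real.pi) * (3 / 5 * √δ / √(xl h) + 1 / 10 * δ / (qp h * xl h))) =
      tf h δ * (√(2 * Real.pi) * (3 / 5 * √δ / √(xl h))) +
      tf h δ * (√(2 * Real.pi) * (1 / 10 * δ / (qp h * xl h))) := by ring
  rw [e4]
  linarith only [f1, f4, f5]

private theorem lr_K {h : ℂ} {δ : ℝ} (hδ : 0 < δ) (hδ2 : δ ≤ 2 / 25) (ha : 97 / 100 ≤ h.re) (hs : 0 < h.im)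
    (hs3 : h.im ≤ 78 / 25 * h.re) (hx : arg h ≤ h.im) (hx2 : arg h ≤ 5 / 4) (hq : 0 < qp h) :
    ‖JR1 δ h‖ ≤ (‖h‖ * (7394 / 10000 * (δ / h.im * √(δ / h.im)) +
        2216 / 10000 * (δ / qp h * √(δ / qp h)) * (1 + 3 / 10 * √(δ / qp h))) +
        δ * Real.exp (-(4 * qp h * arg h ^ (2 : ℕ) / δ))) / ‖1 - h‖ +
      Real.exp (-(4 * qp h * arg h ^ (2 : ℕ) / δ)) *
        (2 * arg h * √(Real.pi * δ / (2 * Aa h)) + δ / Aa h) := by
  have hx0 := lr_arg_pos hs
  have ha0 : 0 < h.re := by linarith only [hs, hs3]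
  have hm : 0 < ‖1 - h‖ := norm_pos_iff.2 (sub_ne_zero.2 (lr_m_ne hs).symm)
  have h1 := vert_K hδ hδ2 ha hs hs3
  have h2 := slope_K (T := 2 * arg h) hδ (by linarith only [hx0]) (by linarith only [hx2]) ha0.le
    (by have := re_mul_arg_le ha0 hs
        linarith only [this]) hq
  have h3 := tail_K hδ ha0 hs hx hx2
  have hi1 : IntegrableOn (fun y : ℝ => (I * y) * cexp (Ev δ h (I * y))) (Ioi 0) := by
    refine vert_integrable hδ ha hs hs3 (w := fun v => v) continuous_id (C := 1) (fun y => ?_)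
    simp only [norm_mul, Complex.norm_I, Complex.norm_real, Real.norm_eq_abs, one_mul]
    linarith only [sq_abs y, sq_nonneg (|y| - 1), abs_nonneg y, sq_nonneg y]
  have hi2 : IntegrableOn (fun y : ℝ => gg (I * y) * cexp (Ev δ h (I * y))) (Ioi 0) := by
    refine vert_integrable hδ ha hs hs3 (w := gg) continuous_gg (C := 3) (fun y => ?_)
    unfold gg
    have e1 : ‖cexp (I * (y : ℂ))‖ = 1 := by
      rw [mul_comm]
      exact Complex.norm_exp_ofReal_mul_I y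
    have e2 : ‖I * (y : ℂ)‖ = |y| := by
      rw [norm_mul, Complex.norm_I, one_mul, Complex.norm_real, Real.norm_eq_abs]
    calc ‖cexp (I * (y : ℂ)) - 1 - I * y‖ ≤ ‖cexp (I * (y : ℂ))‖ + ‖(1 : ℂ)‖ + ‖I * (y : ℂ)‖ :=
          (norm_sub_le _ _).trans (add_le_add_left (norm_sub_le _ _) _)
      _ = 2 + |y| := by rw [e1, e2, norm_one]; norm_num
      _ ≤ _ := by linarith only [sq_abs y, sq_nonneg (|y| - 1), abs_nonneg y, sq_nonneg y]
  have hp := by_parts (T := 2 * arg h) hδ ha hs hs3 hi1 hi2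
  have hc : ‖cexp (Ev δ h (((2 * arg h : ℝ) : ℂ) * et))‖ ≤
      Real.exp (-(4 * qp h * arg h ^ (2 : ℕ) / δ)) := by
    rw [norm_exp_Ev hδ]
    apply Real.exp_le_exp.2
    have := corner_height ha0 hs hx2
    have e1 : (((2 * arg h : ℝ) : ℂ)) * et = 2 * arg h * et := by push_cast; ring
    rw [e1]
    have h5 : 4 * qp h * arg h ^ (2 : ℕ) / δ ≤ ht h (2 * arg h * et) / δ :=
      div_le_div_of_nonneg_right this hδ.le
    linarith only [h5]
  unfold JR1 JRw
  simp only [id]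
  set A1 := ∫ y in Ioi (0 : ℝ), I * (y : ℂ) * cexp (Ev δ h (I * y))
  set A2 := ∫ y in Ioi (0 : ℝ), gg (I * y) * cexp (Ev δ h (I * y))
  set B1 := ∫ t in (0 : ℝ)..(2 * arg h), (t : ℂ) * et * cexp (Ev δ h (t * et))
  set B2 := ∫ t in (0 : ℝ)..(2 * arg h), gg (t * et) * cexp (Ev δ h (t * et))
  set C1 := ∫ u in Ioi (0 : ℝ), (2 * (arg h : ℂ) * et + u) * cexp (Ev δ h (2 * arg h * et + u))
  have hp2 : ‖1 - h‖ * ‖I * A1 - et * B1‖ ≤ ‖h‖ * (7394 / 10000 * (δ / h.im * √(δ / h.im)) +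
        2216 / 10000 * (δ / qp h * √(δ / qp h)) * (1 + 3 / 10 * √(δ / qp h))) +
        δ * Real.exp (-(4 * qp h * arg h ^ (2 : ℕ) / δ)) := by
    rw [← norm_mul, hp]
    refine (norm_add_le _ _).trans (add_le_add ?_ ?_)
    · rw [norm_mul]
      apply mul_le_mul_of_nonneg_left _ (norm_nonneg _)
      refine (norm_sub_le _ _).trans ?_
      rw [norm_mul, norm_mul, Complex.norm_I, norm_et, one_mul, one_mul]
      exact add_le_add h1 h2
    · rw [norm_mul, norm_mul, Complex.norm_I, one_mul, Complex.norm_real, Real.norm_eq_abs,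
        abs_of_pos hδ]
      exact mul_le_mul_of_nonneg_left hc hδ.le
  have hp3 : ‖I * A1 - et * B1‖ ≤ (‖h‖ * (7394 / 10000 * (δ / h.im * √(δ / h.im)) +
        2216 / 10000 * (δ / qp h * √(δ / qp h)) * (1 + 3 / 10 * √(δ / qp h))) +
        δ * Real.exp (-(4 * qp h * arg h ^ (2 : ℕ) / δ))) / ‖1 - h‖ := by
    rw [le_div_iff₀ hm, mul_comm]
    exact hp2
  exact (norm_sub_le _ _).trans (add_le_add hp3 h3)

private theorem lr_sin_exp {x : ℝ} (h0 : 0 < x) (h1 : x ≤ 5 / 4) : x ≤ Real.sin x * Real.exp x := by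
  have h2 : x - x ^ (3 : ℕ) / 6 ≤ Real.sin x := (Real.sin_gt_sub_cube h0).le
  have h3 := Real.add_one_le_exp x
  have h4 : 0 ≤ x - x ^ (3 : ℕ) / 6 := by nlinarith only [h0, h1, mul_pos h0 h0]
  have h5 : (x - x ^ (3 : ℕ) / 6) * (x + 1) ≤ Real.sin x * Real.exp x :=
    mul_le_mul h2 h3 (by linarith only [h0]) (h4.trans h2)
  have h6 : x ≤ (x - x ^ (3 : ℕ) / 6) * (x + 1) := by
    have h7 : 0 ≤ x ^ (2 : ℕ) * (1 - x / 6 - x ^ (2 : ℕ) / 6) := by
      apply mul_nonneg (sq_nonneg x)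
      nlinarith only [h0, h1]
    linarith only [h7]
  linarith only [h5, h6]

theorem JR1_bound {h : ℂ} {δ : ℝ} (hδ : 0 < δ) (hδ2 : δ ≤ 2 / 25) (ha : 97 / 100 ≤ h.re) (hs : 0 < h.im)
    (hx : arg h ≤ h.im) (hx2 : arg h ≤ 5 / 4) (hq : 0 < qp h)
    (h1 : relR h δ < 1) : ‖JR1 δ h‖ ≤ bR h δ * ‖JR δ h‖ := by
  have hs3 := lr_im_le (by linarith only [ha]) hs hx2
  have h0 := lr_K hδ hδ2 ha hs hs3 hx hx2 hq
  have hx0 := lr_arg_pos hs
  have hl0 := lr_xl_pos hs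
  have hlx := lr_xl_le hs
  have htf := lr_tf hδ hs hq
  have hA := Aa_ge (by linarith only [ha]) hs hx
  have hm : 0 < ‖1 - h‖ := norm_pos_iff.2 (sub_ne_zero.2 (lr_m_ne hs).symm)
  have hpi := lr_pi
  have hA1 : 183 / 250 * arg h ≤ Aa h := by
    have h1 : 1 ≤ Real.exp (arg h) := Real.one_le_exp hx0.le
    have h2 : 183 / 250 * arg h * 1 ≤ 183 / 250 * arg h * Real.exp (arg h) :=
      mul_le_mul_of_nonneg_left h1 (by positivity)
    linarith only [hA, h2]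
  have hA0 : 0 < Aa h := lt_of_lt_of_le (by positivity) hA1
  have hr0 : 0 < 1 - relR h δ := by linarith only [h1]
  have h3 : (1 - relR h δ) * ‖jR δ h‖ ≤ ‖JR δ h‖ := by
    have h4 := JR_bound hδ hδ2 ha hs hx hx2 hq
    have h5 := norm_sub_norm_le (jR δ h) (JR δ h)
    rw [norm_sub_rev] at h5
    linarith only [h4, h5]
  have htf0 : 0 ≤ tf h δ := (Real.exp_pos _).le.trans htf
  set B : ℝ := ‖h‖ / √‖1 - h‖ * (59 / 200 * δ / (h.im * √h.im) +
      177 / 2000 * δ * (1 + 3 / 10 * √(δ / qp h)) / (qp h * √(qp h))) +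
    tf h δ * (2 / 5 * √δ / √‖1 - h‖ + 27 / 20 * √‖1 - h‖ * √(xl h) +
      11 / 20 * √‖1 - h‖ * √δ / xl h) with hB
  have hB0 : 0 ≤ B := by positivity
  have hbR : bR h δ = B / (1 - relR h δ) := rfl
  have h6 : B * ‖jR δ h‖ ≤ bR h δ * ‖JR δ h‖ := by
    rw [hbR, div_mul_eq_mul_div, le_div_iff₀ hr0]
    have := mul_le_mul_of_nonneg_left h3 hB0
    linarith only [this]
  refine le_trans ?_ h6
  refine h0.trans ?_
  rw [norm_jRr hδ (lr_m_ne hs)]
  have hsm : 0 < √‖1 - h‖ := Real.sqrt_pos.2 hm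
  have hss : 0 < √h.im := Real.sqrt_pos.2 hs
  have hsq : 0 < √(qp h) := Real.sqrt_pos.2 hq
  have hsd : 0 < √δ := Real.sqrt_pos.2 hδ
  have q1 : √‖1 - h‖ ^ (2 : ℕ) = ‖1 - h‖ := Real.sq_sqrt hm.le
  have q3 : √δ ^ (2 : ℕ) = δ := Real.sq_sqrt hδ.le
  have e1 : √(2 * Real.pi * δ / ‖1 - h‖) = √(2 * Real.pi) * √δ / √‖1 - h‖ := by
    rw [Real.sqrt_div (by positivity), Real.sqrt_mul (by positivity)]
  have e2 : δ / h.im * √(δ / h.im) = δ * √δ / (h.im * √h.im) := by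
    rw [Real.sqrt_div hδ.le]
    field_simp
  have e3 : δ / qp h * √(δ / qp h) = δ * √δ / (qp h * √(qp h)) := by
    rw [Real.sqrt_div hδ.le]
    field_simp
  have e4 : B * (√(2 * Real.pi) * √δ / √‖1 - h‖) =
      ‖h‖ / ‖1 - h‖ * (59 / 200 * √(2 * Real.pi) * (δ * √δ / (h.im * √h.im)) +
        177 / 2000 * √(2 * Real.pi) * (δ * √δ / (qp h * √(qp h)) * (1 + 3 / 10 * √(δ / qp h)))) +
      tf h δ * (2 / 5 * √(2 * Real.pi) * (δ / ‖1 - h‖) +
        √(2 * Real.pi) * (27 / 20 * √δ * √(xl h)) + 11 / 20 * √(2 * Real.pi) * (δ / xl h)) := by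
    have g1 : ‖h‖ / √‖1 - h‖ * (59 / 200 * δ / (h.im * √h.im) +
        177 / 2000 * δ * (1 + 3 / 10 * √(δ / qp h)) / (qp h * √(qp h))) *
        (√(2 * Real.pi) * √δ / √‖1 - h‖) = ‖h‖ / √‖1 - h‖ ^ (2 : ℕ) *
        (59 / 200 * √(2 * Real.pi) * (δ * √δ / (h.im * √h.im)) +
        177 / 2000 * √(2 * Real.pi) * (δ * √δ / (qp h * √(qp h)) * (1 + 3 / 10 * √(δ / qp h)))) := by
      field_simp
    have g2 : tf h δ * (2 / 5 * √δ / √‖1 - h‖ + 27 / 20 * √‖1 - h‖ * √(xl h) +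
        11 / 20 * √‖1 - h‖ * √δ / xl h) * (√(2 * Real.pi) * √δ / √‖1 - h‖) =
        tf h δ * (2 / 5 * √(2 * Real.pi) * (√δ ^ (2 : ℕ) / √‖1 - h‖ ^ (2 : ℕ)) +
        √(2 * Real.pi) * (27 / 20 * √δ * √(xl h)) + 11 / 20 * √(2 * Real.pi) * (√δ ^ (2 : ℕ) / xl h)) := by
      field_simp
    rw [q1] at g1
    rw [q1, q3] at g2
    rw [hB, add_mul, g1, g2]
  rw [e1, e4, e2, e3]
  -- the main part
  have f1 : ‖h‖ * (7394 / 10000 * (δ * √δ / (h.im * √h.im)) +
        2216 / 10000 * (δ * √δ / (qp h * √(qp h))) * (1 + 3 / 10 * √(δ / qp h))) / ‖1 - h‖ ≤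
      ‖h‖ / ‖1 - h‖ * (59 / 200 * √(2 * Real.pi) * (δ * √δ / (h.im * √h.im)) +
        177 / 2000 * √(2 * Real.pi) * (δ * √δ / (qp h * √(qp h)) * (1 + 3 / 10 * √(δ / qp h)))) := by
    rw [mul_div_right_comm]
    apply mul_le_mul_of_nonneg_left _ (by positivity)
    have g1 : 7394 / 10000 * (δ * √δ / (h.im * √h.im)) ≤
        59 / 200 * √(2 * Real.pi) * (δ * √δ / (h.im * √h.im)) :=
      mul_le_mul_of_nonneg_right (by linarith only [hpi]) (by positivity)
    have g2 : 2216 / 10000 * (δ * √δ / (qp h * √(qp h)) * (1 + 3 / 10 * √(δ / qp h))) ≤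
        177 / 2000 * √(2 * Real.pi) * (δ * √δ / (qp h * √(qp h)) * (1 + 3 / 10 * √(δ / qp h))) :=
      mul_le_mul_of_nonneg_right (by linarith only [hpi]) (by positivity)
    linarith only [g1, g2]
  have f2 : δ * Real.exp (-(4 * qp h * arg h ^ (2 : ℕ) / δ)) / ‖1 - h‖ ≤
      tf h δ * (2 / 5 * √(2 * Real.pi) * (δ / ‖1 - h‖)) := by
    have g1 : δ * Real.exp (-(4 * qp h * arg h ^ (2 : ℕ) / δ)) / ‖1 - h‖ =
        Real.exp (-(4 * qp h * arg h ^ (2 : ℕ) / δ)) * (δ / ‖1 - h‖) := by ring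
    rw [g1]
    apply mul_le_mul htf _ (by positivity) htf0
    have g2 : 1 * (δ / ‖1 - h‖) ≤ 2 / 5 * √(2 * Real.pi) * (δ / ‖1 - h‖) :=
      mul_le_mul_of_nonneg_right (by linarith only [hpi]) (by positivity)
    linarith only [g2]
  have f3 : 2 * arg h * √(Real.pi * δ / (2 * Aa h)) ≤
      √(2 * Real.pi) * (27 / 20 * √δ * √(xl h)) := by
    have g0 : √((27 / 20) ^ (2 : ℕ) * δ * xl h) = 27 / 20 * √δ * √(xl h) := by
      rw [Real.sqrt_mul (by positivity) (xl h), Real.sqrt_mul (by positivity) δ,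
        Real.sqrt_sq (by norm_num)]
    have g1 : √(2 * Real.pi) * (27 / 20 * √δ * √(xl h)) =
        √(2 * Real.pi * ((27 / 20) ^ (2 : ℕ) * δ * xl h)) := by
      rw [← g0]
      exact (Real.sqrt_mul (x := 2 * Real.pi) (by positivity) _).symm
    have g2 : 2 * arg h * √(Real.pi * δ / (2 * Aa h)) =
        √((2 * arg h) ^ (2 : ℕ) * (Real.pi * δ / (2 * Aa h))) := by
      rw [Real.sqrt_mul (by positivity), Real.sqrt_sq (by positivity)]
    rw [g1, g2]
    apply Real.sqrt_le_sqrt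
    have g3 : (2 * arg h) ^ (2 : ℕ) * (Real.pi * δ / (2 * Aa h)) =
        2 * Real.pi * δ * arg h ^ (2 : ℕ) / Aa h := by
      field_simp
    rw [g3, div_le_iff₀ hA0]
    have g4 : arg h ^ (2 : ℕ) ≤ (27 / 20) ^ (2 : ℕ) * (xl h * Aa h) := by
      have k1 := lr_sin_exp hx0 hx2
      rw [← lr_xl] at k1
      have k2 : xl h * (183 / 250 * arg h * Real.exp (arg h)) ≤ xl h * Aa h :=
        mul_le_mul_of_nonneg_left hA hl0.le
      have k3 : arg h * arg h ≤ arg h * (xl h * Real.exp (arg h)) :=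
        mul_le_mul_of_nonneg_left k1 hx0.le
      have k4 : 0 ≤ xl h * Aa h := mul_nonneg hl0.le hA0.le
      linarith only [k2, k3, k4]
    have g5 := mul_le_mul_of_nonneg_left g4 (show 0 ≤ 2 * Real.pi * δ by positivity)
    calc 2 * Real.pi * δ * arg h ^ (2 : ℕ) ≤ _ := g5
      _ = _ := by ring
  have f4 : δ / Aa h ≤ 11 / 20 * √(2 * Real.pi) * (δ / xl h) := by
    rw [div_le_iff₀ hA0]
    have g1 : 1 ≤ 11 / 20 * √(2 * Real.pi) * (Aa h / xl h) := by
      have k1 : 183 / 250 ≤ Aa h / xl h := by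
        rw [le_div_iff₀ hl0]
        linarith only [hlx, hA1]
      have k2 : (11 / 20 * (25066 / 10000) : ℝ) ≤ 11 / 20 * √(2 * Real.pi) := by linarith only [hpi]
      calc (1 : ℝ) ≤ (11 / 20 * (25066 / 10000)) * (183 / 250) := by norm_num
        _ ≤ _ := mul_le_mul k2 k1 (by norm_num) (by positivity)
    have g2 := mul_le_mul_of_nonneg_left g1 hδ.le
    calc δ = δ * 1 := by ring
      _ ≤ _ := g2
      _ = _ := by ring
  have f5 : Real.exp (-(4 * qp h * arg h ^ (2 : ℕ) / δ)) *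
        (2 * arg h * √(Real.pi * δ / (2 * Aa h)) + δ / Aa h) ≤
      tf h δ * (√(2 * Real.pi) * (27 / 20 * √δ * √(xl h)) +
        11 / 20 * √(2 * Real.pi) * (δ / xl h)) :=
    mul_le_mul htf (add_le_add f3 f4) (by positivity) htf0
  rw [add_div]
  linarith only [f1, f2, f5]

end SokamTI

end
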