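import Pool.Agent.Lib_MP_af4de1_zy.Z04

/-! ### Lib_MP_af4de1_hd.DDefs -/

section
namespace SokamF
end SokamF
/-!
# Part (d): definitions

`K` = closed half disc `‖q‖ ≤ 1, Re q ≤ 0` (any convex compact set of the closed unit disc, `1 ∉ K`).
`F q z = ∏_{j<k} (1 - q^j z / w_j(q)) · S (Cf d) q (q^k z)`, where `z_j = w_j / q^j` are the first `k`
zeros, the normalised zeros `w_j` are continuous on `K` (also at `q = 0`, `w_j 0 = -(j+1)`) and
holomorphic in the interior.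
-/

namespace SokamHD

open Complex SokamF Filter Topology Metric Set

/-- Coefficients of a family of entire functions on `X`. -/
def Ent (X : Set ℂ) (c : ℕ → ℂ → ℂ) : Prop :=
  (∀ n, ContinuousOn (c n) X) ∧
    ∀ R : ℝ, 0 < R → ∃ C : ℝ, 0 ≤ C ∧ ∀ n, ∀ q ∈ X, ‖c n q‖ * R ^ n ≤ C

/-- The sum of the family. -/
noncomputable def S (c : ℕ → ℂ → ℂ) (q ζ : ℂ) : ℂ := ∑' n, c n q * ζ ^ n

/-- The coefficients of `S c q ζ / (1 - ζ / w q)` (if `S c q (w q) = 0`). -/
noncomputable def quot (c : ℕ → ℂ → ℂ) (w : ℂ → ℂ) (n : ℕ) (q : ℂ) : ℂ :=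
  - ∑' l, c (n + 1 + l) q * w q ^ (l + 1)

/-- The coefficients `q^(n(n-1)/2) d_n(q)`. -/
noncomputable def Cf (d : ℕ → ℂ → ℂ) (n : ℕ) (q : ℂ) : ℂ := q ^ (n * (n - 1) / 2) * d n q

/-- The normalised quotient: `q^(n(n+1)/2) dquot d w n q = quot (Cf d) w n q`. -/
noncomputable def dquot (d : ℕ → ℂ → ℂ) (w : ℂ → ℂ) (n : ℕ) (q : ℂ) : ℂ :=
  - ∑' l, q ^ (n * l + l * (l + 1) / 2) * d (n + 1 + l) q * w q ^ (l + 1)

/-- The coefficients of `1 / S c q`. -/
noncomputable def rcp (c : ℕ → ℂ → ℂ) (n : ℕ) (q : ℂ) : ℂ :=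
  PowerSeries.coeff n (PowerSeries.mk fun m => c m q)⁻¹

/-- `z 0, …, z (k-1)` are the first `k` zeros of `F q`: simple, moduli strictly increasing, all other
zeros have larger modulus. -/
def First (q : ℂ) (k : ℕ) (z : ℕ → ℂ) : Prop :=
  (∀ j < k, F q (z j) = 0 ∧ F q (q * z j) ≠ 0) ∧ (∀ i j, i < j → j < k → ‖z i‖ < ‖z j‖) ∧
    ∀ u, F q u = 0 → (∃ j < k, u = z j) ∨ ∀ j < k, ‖z j‖ < ‖u‖

/-- No `z i` with `i < j` lies on the ray `[1, ∞) q z_j`. -/
def StarN (q : ℂ) (k : ℕ) (z : ℕ → ℂ) : Prop :=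
  ∀ i j, i < j → j < k → ∀ τ : ℝ, 1 ≤ τ → z i ≠ τ * (q * z j)

/-- The condition on the ray, for all zeros. -/
def Star (q : ℂ) : Prop :=
  ∀ z z', F q z = 0 → F q z' = 0 → ‖z'‖ < ‖z‖ → ∀ τ : ℝ, 1 ≤ τ → z' ≠ τ * (q * z)

/-- State of the induction over `k`. -/
structure State (K : Set ℂ) (k : ℕ) (d : ℕ → ℂ → ℂ) (w : ℕ → ℂ → ℂ) : Prop where
  ent : Ent K d
  diff : ∀ n, DifferentiableOn ℂ (d n) (interior K)
  one : ∀ q ∈ K, d 0 q = 1
  wc : ∀ j < k, ContinuousOn (w j) K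
  wne : ∀ j < k, ∀ q ∈ K, w j q ≠ 0
  fac : ∀ q ∈ K, q ≠ 0 → ∀ z, F q z =
    (∏ j ∈ Finset.range k, (1 - q ^ j * z / w j q)) * S (Cf d) q (q ^ k * z)
  lt : ∀ q ∈ K, q ≠ 0 → ∀ i j, i < j → j < k → ‖w i q / q ^ i‖ < ‖w j q / q ^ j‖
  gt : ∀ q ∈ K, q ≠ 0 → ∀ j < k, ∀ z, S (Cf d) q (q ^ k * z) = 0 → ‖w j q / q ^ j‖ < ‖z‖
  d0 : (0 : ℂ) ∈ K → ∀ n, d n 0 = (k.factorial : ℂ) / ((n + k).factorial : ℂ)
  w0 : (0 : ℂ) ∈ K → ∀ j < k, w j 0 = -((j : ℂ) + 1)

end SokamHD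

end

/-! ### Lib_MP_af4de1_hd.DEnt -/

section
namespace SokamF
end SokamF
/-! # Part (d): families of entire functions -/

namespace SokamHD

open Complex SokamF Filter Topology Metric Set

variable {X : Set ℂ} {c : ℕ → ℂ → ℂ} {w : ℂ → ℂ}

/-! ## Piece [HD-D1] (this block) -/

/-- PROOF.  Given `r ≥ 0` put `R = 2 r + 1`: `‖c n q ζ^n‖ ≤ C R^{-n} r^n ≤ C 2^{-n}` for `‖ζ‖ ≤ r`. -/
theorem Ent.geom (h : Ent X c) {r : ℝ} (hr : 0 ≤ r) : ∃ C : ℝ, 0 ≤ C ∧ ∀ n, ∀ q ∈ X, ∀ ζ : ℂ,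
    ‖ζ‖ ≤ r → ‖c n q * ζ ^ n‖ ≤ C * (1 / 2) ^ n := by
  obtain ⟨C, hC0, hC⟩ := h.2 (2 * r + 1) (by positivity)
  refine ⟨C, hC0, fun n q hq ζ hζ => ?_⟩
  have h1 : ‖ζ‖ ^ n ≤ (2 * r + 1) ^ n * (1 / 2) ^ n := by
    rw [← mul_pow]
    exact pow_le_pow_left₀ (norm_nonneg _) (by linarith only [hζ]) n
  calc ‖c n q * ζ ^ n‖ = ‖c n q‖ * ‖ζ‖ ^ n := by rw [norm_mul, norm_pow]
    _ ≤ ‖c n q‖ * ((2 * r + 1) ^ n * (1 / 2) ^ n) :=
        mul_le_mul_of_nonneg_left h1 (norm_nonneg _)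
    _ = (‖c n q‖ * (2 * r + 1) ^ n) * (1 / 2) ^ n := by ring
    _ ≤ C * (1 / 2) ^ n := mul_le_mul_of_nonneg_right (hC n q hq) (by positivity)

theorem Ent.summable (h : Ent X c) {q : ℂ} (hq : q ∈ X) (ζ : ℂ) :
    Summable fun n => c n q * ζ ^ n := by
  obtain ⟨C, -, hC⟩ := h.geom (norm_nonneg ζ)
  refine Summable.of_norm_bounded (g := fun n : ℕ => C * (1 / 2 : ℝ) ^ n) ?_
    (fun n => hC n q hq ζ le_rfl)
  exact (summable_geometric_of_lt_one (by norm_num) (by norm_num)).mul_left C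

/-- PROOF.  `continuousOn_tsum` on `X ×ˢ ball 0 r` for every `r` (bound `C (1/2)^n`), then localise. -/
theorem Ent.continuousOn (h : Ent X c) :
    ContinuousOn (fun p : ℂ × ℂ => S c p.1 p.2) (X ×ˢ univ) := by
  rintro ⟨q, ζ⟩ ⟨hq, -⟩
  have hr : (0 : ℝ) ≤ ‖ζ‖ + 1 := by positivity
  obtain ⟨C, -, hC⟩ := h.geom hr
  have hcont : ContinuousOn (fun p : ℂ × ℂ => S c p.1 p.2) (X ×ˢ ball 0 (‖ζ‖ + 1)) := by
    refine continuousOn_tsum (u := fun n : ℕ => C * (1 / 2 : ℝ) ^ n)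
      (f := fun (n : ℕ) (p : ℂ × ℂ) => c n p.1 * p.2 ^ n) ?_ ?_ ?_
    · intro n
      refine ContinuousOn.mul ?_ (by fun_prop)
      exact (h.1 n).comp continuousOn_fst (fun p hp => hp.1)
    · exact (summable_geometric_of_lt_one (by norm_num) (by norm_num)).mul_left C
    · rintro n ⟨q', ζ'⟩ ⟨hq', hζ'⟩
      have h2 : ‖ζ'‖ < ‖ζ‖ + 1 := by simpa using hζ'
      exact hC n q' hq' ζ' h2.le
  have hmem : (q, ζ) ∈ X ×ˢ ball (0 : ℂ) (‖ζ‖ + 1) := ⟨hq, by simp⟩
  refine (hcont (q, ζ) hmem).mono_of_mem_nhdsWithin ?_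
  have h3 : (univ : Set ℂ) ×ˢ ball (0 : ℂ) (‖ζ‖ + 1) ∈ 𝓝 (q, ζ) :=
    prod_mem_nhds univ_mem (isOpen_ball.mem_nhds (by simp))
  filter_upwards [mem_nhdsWithin_of_mem_nhds h3, self_mem_nhdsWithin] with p hp1 hp2
  exact ⟨hp2.1, hp1.2⟩

/-- PROOF.  Power series in `ζ` with infinite radius; e.g.
`differentiableOn_tsum_of_summable_norm` on balls. -/
theorem Ent.differentiable (h : Ent X c) {q : ℂ} (hq : q ∈ X) : Differentiable ℂ (S c q) := by
  intro ζ
  have hr : (0 : ℝ) ≤ ‖ζ‖ + 1 := by positivity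
  obtain ⟨C, -, hC⟩ := h.geom hr
  have hd : DifferentiableOn ℂ (fun z => ∑' n, c n q * z ^ n) (ball 0 (‖ζ‖ + 1)) := by
    refine differentiableOn_tsum_of_summable_norm (u := fun n : ℕ => C * (1 / 2 : ℝ) ^ n)
      ?_ ?_ isOpen_ball ?_
    · exact (summable_geometric_of_lt_one (by norm_num) (by norm_num)).mul_left C
    · intro n
      fun_prop
    · intro n z hz
      have h2 : ‖z‖ < ‖ζ‖ + 1 := by simpa using hz
      exact hC n q hq z h2.le
  exact (hd ζ (by simp)).differentiableAt (isOpen_ball.mem_nhds (by simp))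

/-- PROOF.  `differentiableOn_tsum_of_summable_norm` with bound `C (1/2)^n`, `r = B`. -/
theorem Ent.differentiableOn {U : Set ℂ} (hU : IsOpen U) (hUX : U ⊆ X) (h : Ent X c)
    (hd : ∀ n, DifferentiableOn ℂ (c n) U) {W : ℂ → ℂ} (hW : DifferentiableOn ℂ W U) {B : ℝ}
    (hWb : ∀ q ∈ U, ‖W q‖ ≤ B) : DifferentiableOn ℂ (fun q => S c q (W q)) U := by
  rcases U.eq_empty_or_nonempty with hE | ⟨q0, hq0⟩
  · rw [hE]; exact differentiableOn_empty
  have hB : 0 ≤ B := (norm_nonneg _).trans (hWb q0 hq0)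
  obtain ⟨C, -, hC⟩ := h.geom hB
  refine differentiableOn_tsum_of_summable_norm (u := fun n : ℕ => C * (1 / 2 : ℝ) ^ n)
    (F := fun (n : ℕ) (q : ℂ) => c n q * W q ^ n) ?_ ?_ hU ?_
  · exact (summable_geometric_of_lt_one (by norm_num) (by norm_num)).mul_left C
  · intro n
    exact (hd n).mul (hW.pow n)
  · intro n q hq
    exact hC n q (hUX hq) (W q) (hWb q hq)

theorem S_zero (c : ℕ → ℂ → ℂ) (q : ℂ) : S c q 0 = c 0 q := by
  unfold S
  rw [tsum_eq_single 0]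
  · simp
  · intro n hn
    simp [hn]

/-! ## Piece [HD-D2] (this block) -/

/-- PROOF.  Take `R' = max (2B) (max R 1)` and `C` for `R'`:
`‖c (n+1+l) q w^(l+1)‖ ≤ C R'^{-(n+1+l)} B^(l+1) ≤ C R'^{-n} (1/2)^(l+1)`. -/
theorem Ent.quot_bound (h : Ent X c) {B : ℝ} (hB : 0 ≤ B) {R : ℝ} (hR : 0 < R) : ∃ C : ℝ, 0 ≤ C ∧
    ∀ n l, ∀ q ∈ X, ∀ ζ : ℂ, ‖ζ‖ ≤ B → ‖c (n + 1 + l) q * ζ ^ (l + 1)‖ * R ^ n ≤ C * (1 / 2) ^ l := by
  obtain ⟨C, hC, hb⟩ := h.2 (max (2 * B) R) (lt_max_of_lt_right hR)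
  refine ⟨C, hC, fun n l q hq ζ hζ => ?_⟩
  have h1 := hb (n + 1 + l) q hq
  have hR' : 0 < max (2 * B) R := lt_max_of_lt_right hR
  have h2 : (2 * ‖ζ‖) ^ (l + 1) ≤ max (2 * B) R ^ (l + 1) := by
    refine pow_le_pow_left₀ (by positivity) ?_ _
    exact le_trans (by linarith only [hζ]) (le_max_left _ _)
  have h3 : R ^ n ≤ max (2 * B) R ^ n := pow_le_pow_left₀ hR.le (le_max_right _ _) _
  have h4 : (2 * ‖ζ‖) ^ (l + 1) * R ^ n ≤ max (2 * B) R ^ (n + 1 + l) := by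
    calc (2 * ‖ζ‖) ^ (l + 1) * R ^ n ≤ max (2 * B) R ^ (l + 1) * max (2 * B) R ^ n :=
          mul_le_mul h2 h3 (by positivity) (by positivity)
      _ = max (2 * B) R ^ (n + 1 + l) := by
          rw [← pow_add]
          congr 1
          ring
  have h5 : ‖c (n + 1 + l) q‖ * ((2 * ‖ζ‖) ^ (l + 1) * R ^ n) ≤ C :=
    (mul_le_mul_of_nonneg_left h4 (norm_nonneg _)).trans h1
  have h6 : ‖c (n + 1 + l) q * ζ ^ (l + 1)‖ * R ^ n =
      (‖c (n + 1 + l) q‖ * ((2 * ‖ζ‖) ^ (l + 1) * R ^ n)) * (1 / 2) ^ (l + 1) := by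
    rw [norm_mul, norm_pow, mul_pow, one_div, inv_pow]
    field_simp
  rw [h6]
  calc ‖c (n + 1 + l) q‖ * ((2 * ‖ζ‖) ^ (l + 1) * R ^ n) * (1 / 2) ^ (l + 1)
      ≤ C * (1 / 2) ^ (l + 1) := mul_le_mul_of_nonneg_right h5 (by positivity)
    _ ≤ C * (1 / 2) ^ l := by
        refine mul_le_mul_of_nonneg_left ?_ hC
        rw [pow_succ]
        have : (0 : ℝ) < (1 / 2) ^ l := by positivity
        linarith only [this]

private theorem quot_bound_hdd (h : Ent X c) {B : ℝ} (hB : ∀ q ∈ X, ‖w q‖ ≤ B) {R : ℝ} (hR : 0 < R) :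
    ∃ C : ℝ, 0 ≤ C ∧ ∀ n l, ∀ q ∈ X, ‖c (n + 1 + l) q * w q ^ (l + 1)‖ * R ^ n ≤ C * (1 / 2) ^ l := by
  obtain ⟨C, hC, hb⟩ := h.quot_bound (le_max_right B 0) hR
  exact ⟨C, hC, fun n l q hq => hb n l q hq (w q) ((hB q hq).trans (le_max_left _ _))⟩

private theorem summable_geo_hdd (C : ℝ) : Summable fun l : ℕ => C * (1 / 2 : ℝ) ^ l :=
  (summable_geometric_of_lt_one (by norm_num) (by norm_num)).mul_left C

/-- PROOF.  Continuity: `continuousOn_tsum` with `quot_bound` (`R = 1`); bound: sum over `l`. -/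
theorem Ent.quot (h : Ent X c) (hw : ContinuousOn w X) {B : ℝ} (hB : ∀ q ∈ X, ‖w q‖ ≤ B) :
    Ent X (quot c w) := by
  refine ⟨fun n => ?_, fun R hR => ?_⟩
  · obtain ⟨C, hC, hb⟩ := quot_bound_hdd h hB one_pos
    have h1 : ContinuousOn (fun q => ∑' l, c (n + 1 + l) q * w q ^ (l + 1)) X := by
      refine continuousOn_tsum (fun l => (h.1 _).mul (hw.pow _)) (summable_geo_hdd C) fun l q hq => ?_
      have h2 := hb n l q hq
      rwa [one_pow, mul_one] at h2
    exact h1.neg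
  · obtain ⟨C, hC, hb⟩ := quot_bound_hdd h hB hR
    refine ⟨C * 2, by positivity, fun n q hq => ?_⟩
    have hRn : 0 < R ^ n := pow_pos hR n
    have h1 : ‖∑' l, c (n + 1 + l) q * w q ^ (l + 1)‖ ≤ C * 2 / R ^ n := by
      have hg : HasSum (fun l : ℕ => C * (1 / 2 : ℝ) ^ l / R ^ n) (C * 2 / R ^ n) :=
        (hasSum_geometric_two.mul_left C).div_const _
      refine tsum_of_norm_bounded hg fun l => ?_
      rw [le_div_iff₀ hRn]
      exact hb n l q hq
    have h2 : ‖SokamHD.quot c w n q‖ = ‖∑' l, c (n + 1 + l) q * w q ^ (l + 1)‖ := norm_neg _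
    rw [h2]
    rwa [le_div_iff₀ hRn] at h1

theorem Ent.quot_differentiableOn {U : Set ℂ} (hU : IsOpen U) (hUX : U ⊆ X) (h : Ent X c)
    (hd : ∀ n, DifferentiableOn ℂ (c n) U) (hw : DifferentiableOn ℂ w U) {B : ℝ}
    (hB : ∀ q ∈ U, ‖w q‖ ≤ B) (n : ℕ) : DifferentiableOn ℂ (SokamHD.quot c w n) U := by
  have hU' : Ent U c := ⟨fun n => (h.1 n).mono hUX, fun R hR => by
    obtain ⟨C, hC, hb⟩ := h.2 R hR
    exact ⟨C, hC, fun n q hq => hb n q (hUX hq)⟩⟩
  obtain ⟨C, hC, hb⟩ := quot_bound_hdd hU' hB one_pos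
  have h1 : DifferentiableOn ℂ (fun q => ∑' l, c (n + 1 + l) q * w q ^ (l + 1)) U := by
    refine differentiableOn_tsum_of_summable_norm (summable_geo_hdd C)
      (fun l => (hd _).mul (hw.pow _)) hU fun l q hq => ?_
    have h2 := hb n l q hq
    rwa [one_pow, mul_one] at h2
  exact h1.neg

/-- PROOF.  `S c q (w q) = c 0 q + ∑_l c (1 + l) q w^(l+1)`. -/
theorem Ent.quot_zero (h : Ent X c) {q : ℂ} (hq : q ∈ X) (h0 : S c q (w q) = 0) :
    SokamHD.quot c w 0 q = c 0 q := by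
  have h1 := (h.summable hq (w q)).tsum_eq_zero_add
  have h2 : (∑' n, c n q * w q ^ n) = 0 := h0
  rw [h2, pow_zero, mul_one] at h1
  show -(∑' l, c (0 + 1 + l) q * w q ^ (l + 1)) = c 0 q
  have h3 : (∑' l, c (0 + 1 + l) q * w q ^ (l + 1)) = ∑' l, c (l + 1) q * w q ^ (l + 1) := by
    refine tsum_congr fun l => ?_
    rw [zero_add, add_comm 1 l]
  rw [h3]
  linear_combination h1

private theorem quot_succ_hdd (h : Ent X c) {B : ℝ} (hB : ∀ q ∈ X, ‖w q‖ ≤ B) {q : ℂ} (hq : q ∈ X)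
    (n : ℕ) : w q * c (n + 1) q = w q * SokamHD.quot c w (n + 1) q - SokamHD.quot c w n q := by
  obtain ⟨C, hC, hb⟩ := quot_bound_hdd h hB one_pos
  have hs : Summable fun l => c (n + 1 + l) q * w q ^ (l + 1) := by
    refine Summable.of_norm_bounded (summable_geo_hdd C) fun l => ?_
    have h2 := hb n l q hq
    rwa [one_pow, mul_one] at h2
  have h1 := hs.tsum_eq_zero_add
  have h3 : (∑' l, c (n + 1 + (l + 1)) q * w q ^ (l + 1 + 1)) =
      w q * ∑' l, c (n + 1 + 1 + l) q * w q ^ (l + 1) := by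
    rw [← tsum_mul_left]
    refine tsum_congr fun l => ?_
    have e : n + 1 + (l + 1) = n + 1 + 1 + l := by ring
    rw [e, pow_succ _ (l + 1)]
    ring
  rw [h3, add_zero, zero_add, pow_one] at h1
  show w q * c (n + 1) q = w q * (-(∑' l, c (n + 1 + 1 + l) q * w q ^ (l + 1))) -
    -(∑' l, c (n + 1 + l) q * w q ^ (l + 1))
  rw [h1]
  ring

/-- PROOF.  `w quot_0 = w c_0` (`quot_zero`) and, for `n ≥ 1`, `quot_{n-1} = -c_n w + w quot_n`
(shift of the sum), so `w c_n = w quot_n - quot_{n-1}`; multiply by `ζ^n` and sum. -/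
theorem Ent.quot_mul (h : Ent X c) (hw : ContinuousOn w X) {B : ℝ} (hB : ∀ q ∈ X, ‖w q‖ ≤ B)
    {q : ℂ} (hq : q ∈ X) (h0 : S c q (w q) = 0) (ζ : ℂ) :
    w q * S c q ζ = (w q - ζ) * S (SokamHD.quot c w) q ζ := by
  have hQ : Ent X (SokamHD.quot c w) := Ent.quot h hw hB
  have s1 := h.summable hq ζ
  have s2 := hQ.summable hq ζ
  have e1 := s1.tsum_eq_zero_add
  have e2 := s2.tsum_eq_zero_add
  have s1' := (summable_nat_add_iff 1).2 s1
  have s2' := (summable_nat_add_iff 1).2 s2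
  have e3 : w q * (∑' n, c (n + 1) q * ζ ^ (n + 1)) =
      w q * (∑' n, SokamHD.quot c w (n + 1) q * ζ ^ (n + 1)) - ζ * ∑' n, SokamHD.quot c w n q * ζ ^ n := by
    rw [← tsum_mul_left, ← tsum_mul_left, ← tsum_mul_left, ← (s2'.mul_left (w q)).tsum_sub (s2.mul_left ζ)]
    refine tsum_congr fun n => ?_
    have e4 := quot_succ_hdd h hB hq n
    rw [pow_succ]
    linear_combination (ζ ^ n * ζ) * e4
  have e5 := h.quot_zero hq h0
  rw [pow_zero, mul_one] at e1 e2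
  show w q * (∑' n, c n q * ζ ^ n) = (w q - ζ) * ∑' n, SokamHD.quot c w n q * ζ ^ n
  rw [e5] at e2
  rw [e1]
  linear_combination e3 - w q * e2

/-! ## Piece [HD-D3] (this block) -/

variable {d : ℕ → ℂ → ℂ}

private theorem exp_add_dent3 (n l : ℕ) :
    (n + 1 + l) * (n + 1 + l - 1) / 2 = n * (n + 1) / 2 + (n * l + l * (l + 1) / 2) := by
  obtain ⟨a, ha⟩ := Nat.even_mul_succ_self n
  obtain ⟨b, hb⟩ := Nat.even_mul_succ_self l
  have h1 : n + 1 + l - 1 = n + l := by omega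
  have h2 : (n + 1 + l) * (n + l) = n * (n + 1) + 2 * (n * l) + l * (l + 1) := by ring
  rw [h1, h2, ha, hb]
  omega

private theorem exp_succ_dent3 (n : ℕ) : n * (n + 1) / 2 = n * (n - 1) / 2 + n := by
  rcases n with _ | m
  · simp
  · obtain ⟨a, ha⟩ := Nat.even_mul_succ_self m
    have h1 : m + 1 - 1 = m := by omega
    have h2 : (m + 1) * (m + 1 + 1) = m * (m + 1) + 2 * (m + 1) := by ring
    have h3 : (m + 1) * m = m * (m + 1) := by ring
    rw [h1, h2, h3, ha]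
    omega

theorem Ent.Cf (h : Ent X d) (hX : ∀ q ∈ X, ‖q‖ ≤ 1) : Ent X (SokamHD.Cf d) := by
  refine ⟨fun n => ?_, fun R hR => ?_⟩
  · exact (continuous_id.pow _).continuousOn.mul (h.1 n)
  · obtain ⟨C, hC, hb⟩ := h.2 R hR
    refine ⟨C, hC, fun n q hq => le_trans ?_ (hb n q hq)⟩
    refine mul_le_mul_of_nonneg_right ?_ (pow_nonneg hR.le n)
    unfold SokamHD.Cf
    rw [norm_mul, norm_pow]
    exact mul_le_of_le_one_left (norm_nonneg _) (pow_le_one₀ (norm_nonneg _) (hX q hq))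

/-- The common bound of the terms of `dquot`. -/
private theorem dquot_bound_dent3 (h : Ent X d) (hX : ∀ q ∈ X, ‖q‖ ≤ 1) {B : ℝ} (hB : 0 ≤ B) {R : ℝ}
    (hR : 0 < R) : ∃ C : ℝ, 0 ≤ C ∧ ∀ n l, ∀ q ∈ X, ∀ ζ : ℂ, ‖ζ‖ ≤ B →
      ‖q ^ (n * l + l * (l + 1) / 2) * d (n + 1 + l) q * ζ ^ (l + 1)‖ * R ^ n ≤ C * (1 / 2) ^ l := by
  obtain ⟨C, hC, hb⟩ := h.quot_bound hB hR
  refine ⟨C, hC, fun n l q hq ζ hζ => le_trans ?_ (hb n l q hq ζ hζ)⟩
  refine mul_le_mul_of_nonneg_right ?_ (pow_nonneg hR.le n)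
  rw [mul_assoc, norm_mul, norm_pow]
  exact mul_le_of_le_one_left (norm_nonneg _) (pow_le_one₀ (norm_nonneg _) (hX q hq))

private theorem summable_half_dent3 (C : ℝ) : Summable fun l : ℕ => C * (1 / 2 : ℝ) ^ l :=
  (summable_geometric_of_lt_one (by norm_num) (by norm_num)).mul_left C

/-- PROOF.  Same as `Ent.quot`, the factor `q^(..)` has norm `≤ 1`. -/
theorem Ent.dquot (h : Ent X d) (hX : ∀ q ∈ X, ‖q‖ ≤ 1) (hw : ContinuousOn w X) {B : ℝ}
    (hB : ∀ q ∈ X, ‖w q‖ ≤ B) : Ent X (SokamHD.dquot d w) := by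
  have hB' : ∀ q ∈ X, ‖w q‖ ≤ max B 0 := fun q hq => (hB q hq).trans (le_max_left _ _)
  refine ⟨fun n => ?_, fun R hR => ?_⟩
  · obtain ⟨C, hC, hb⟩ := dquot_bound_dent3 h hX (le_max_right B 0) one_pos
    unfold SokamHD.dquot
    refine ContinuousOn.neg (continuousOn_tsum (fun l => ?_) (summable_half_dent3 C) fun l q hq => ?_)
    · exact ((continuous_id.pow _).continuousOn.mul (h.1 _)).mul (hw.pow _)
    · have h1 := hb n l q hq (w q) (hB' q hq)
      rwa [one_pow, mul_one] at h1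
  · obtain ⟨C, hC, hb⟩ := dquot_bound_dent3 h hX (le_max_right B 0) hR
    refine ⟨2 * C, by positivity, fun n q hq => ?_⟩
    have hRn : 0 < R ^ n := pow_pos hR n
    have h2 : ∀ l, ‖q ^ (n * l + l * (l + 1) / 2) * d (n + 1 + l) q * w q ^ (l + 1)‖ ≤
        C * (1 / 2) ^ l / R ^ n := fun l => by
      rw [le_div_iff₀ hRn]
      exact hb n l q hq (w q) (hB' q hq)
    have h3 : HasSum (fun l : ℕ => C * (1 / 2 : ℝ) ^ l / R ^ n) (C * 2 / R ^ n) := by
      have h4 : HasSum (fun l : ℕ => (1 / 2 : ℝ) ^ l) 2 := by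
        have := hasSum_geometric_of_lt_one (r := (1 / 2 : ℝ)) (by norm_num) (by norm_num)
        norm_num at this ⊢
        exact this
      exact (h4.mul_left C).div_const _
    have h5 := tsum_of_norm_bounded h3 h2
    unfold SokamHD.dquot
    rw [norm_neg]
    calc _ ≤ C * 2 / R ^ n * R ^ n := mul_le_mul_of_nonneg_right h5 hRn.le
      _ = 2 * C := by rw [div_mul_cancel₀ _ hRn.ne', mul_comm]

theorem Ent.dquot_differentiableOn {U : Set ℂ} (hU : IsOpen U) (hUX : U ⊆ X) (h : Ent X d)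
    (hX : ∀ q ∈ X, ‖q‖ ≤ 1) (hd : ∀ n, DifferentiableOn ℂ (d n) U)
    (hw : DifferentiableOn ℂ w U) {B : ℝ} (hB : ∀ q ∈ U, ‖w q‖ ≤ B) (n : ℕ) :
    DifferentiableOn ℂ (SokamHD.dquot d w n) U := by
  have hB' : ∀ q ∈ U, ‖w q‖ ≤ max B 0 := fun q hq => (hB q hq).trans (le_max_left _ _)
  obtain ⟨C, hC, hb⟩ := dquot_bound_dent3 h hX (le_max_right B 0) one_pos
  have h1 : DifferentiableOn ℂ
      (fun q => ∑' l, q ^ (n * l + l * (l + 1) / 2) * d (n + 1 + l) q * w q ^ (l + 1)) U := by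
    refine differentiableOn_tsum_of_summable_norm (summable_half_dent3 C) (fun l => ?_) hU
      (fun l q hq => ?_)
    · exact ((differentiable_id.pow _).differentiableOn.mul (hd _)).mul (hw.pow _)
    · have h1 := hb n l q (hUX hq) (w q) (hB' q hq)
      rwa [one_pow, mul_one] at h1
  exact h1.neg

/-- PROOF.  `(n+1+l)(n+l)/2 = n(n+1)/2 + (n l + l(l+1)/2)` in `ℕ`. -/
theorem quot_Cf (d : ℕ → ℂ → ℂ) (w : ℂ → ℂ) (n : ℕ) (q : ℂ) :
    quot (Cf d) w n q = q ^ (n * (n + 1) / 2) * dquot d w n q := by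
  unfold quot dquot Cf
  rw [mul_neg, ← tsum_mul_left]
  congr 1
  refine tsum_congr fun l => ?_
  rw [exp_add_dent3, pow_add]
  ring

/-- PROOF.  `quot_Cf`, `n(n+1)/2 = n(n-1)/2 + n`. -/
theorem S_quot_Cf (d : ℕ → ℂ → ℂ) (w : ℂ → ℂ) (q ζ : ℂ) :
    S (quot (Cf d) w) q ζ = S (Cf (dquot d w)) q (q * ζ) := by
  unfold S
  refine tsum_congr fun n => ?_
  rw [quot_Cf, exp_succ_dent3, pow_add, mul_pow]
  unfold Cf
  ring

/-- PROOF.  Only `l = 0` survives at `q = 0`, also for `n = 0` (exponent `l (l+1)/2`). -/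
theorem dquot_at_zero (d : ℕ → ℂ → ℂ) (w : ℂ → ℂ) (n : ℕ) :
    dquot d w n 0 = - (d (n + 1) 0 * w 0) := by
  unfold dquot
  congr 1
  rw [tsum_eq_single 0]
  · simp
  · intro l hl
    have h1 : n * l + l * (l + 1) / 2 ≠ 0 := by
      obtain ⟨b, hb⟩ := Nat.even_mul_succ_self l
      have h2 : 0 < l * (l + 1) := Nat.mul_pos (Nat.pos_of_ne_zero hl) (Nat.succ_pos l)
      rw [hb] at h2 ⊢
      omega
    rw [zero_pow h1, zero_mul, zero_mul]

/-- PROOF.  `Cf d n 0 = 0` for `n ≥ 2`. -/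
theorem S_Cf_at_zero (d : ℕ → ℂ → ℂ) (ζ : ℂ) : S (Cf d) 0 ζ = d 0 0 + d 1 0 * ζ := by
  unfold S
  rw [tsum_eq_sum (s := Finset.range 2)]
  · simp [Finset.sum_range_succ, Cf]
  · intro n hn
    have h2 : 2 ≤ n := by
      rw [Finset.mem_range] at hn
      omega
    have h1 : n * (n - 1) / 2 ≠ 0 := by
      have h3 : 2 * 1 ≤ n * (n - 1) := Nat.mul_le_mul h2 (by omega)
      omega
    unfold Cf
    rw [zero_pow h1, zero_mul, zero_mul]

end SokamHD

end

/-! ### Lib_MP_af4de1_hd.DRcp -/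

section
namespace SokamF
end SokamF
/-! # Part (d): the coefficients of `1 / S c q` -/

namespace SokamHD

open Complex SokamF Filter Topology Metric Set

variable {X : Set ℂ} {c : ℕ → ℂ → ℂ} {w : ℂ → ℂ}

/-! ## Piece [HD-D7] (this block) -/

/-- PROOF.  `PowerSeries.coeff_inv`. -/
theorem rcp_zero (c : ℕ → ℂ → ℂ) {q : ℂ} (h : c 0 q = 1) : rcp c 0 q = 1 := by
  rw [rcp, PowerSeries.coeff_inv, if_pos rfl, ← PowerSeries.coeff_zero_eq_constantCoeff_apply,
    PowerSeries.coeff_mk, h, inv_one]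

private theorem rcp_succ_hd7 (c : ℕ → ℂ → ℂ) {q : ℂ} (h : c 0 q = 1) {n : ℕ} (hn : n ≠ 0) :
    rcp c n q = -∑ x ∈ Finset.HasAntidiagonal.antidiagonal n, if x.2 < n then c x.1 q * rcp c x.2 q else 0 := by
  have h1 : PowerSeries.constantCoeff (PowerSeries.mk fun m => c m q) = 1 := by
    rw [← PowerSeries.coeff_zero_eq_constantCoeff_apply, PowerSeries.coeff_mk, h]
  rw [rcp, PowerSeries.coeff_inv, if_neg hn, h1, inv_one, neg_one_mul]
  simp only [PowerSeries.coeff_mk, rcp]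

/-- PROOF.  Strong induction with `PowerSeries.coeff_inv` (the constant coefficient is `1` on `X`). -/
theorem rcp_continuousOn (hc : ∀ n, ContinuousOn (c n) X) (h0 : ∀ q ∈ X, c 0 q = 1) (n : ℕ) :
    ContinuousOn (rcp c n) X := by
  induction n using Nat.strong_induction_on with
  | _ n ih =>
    by_cases hn : n = 0
    · subst hn
      exact (continuousOn_const (c := (1 : ℂ))).congr fun q hq => rcp_zero c (h0 q hq)
    · have h1 : ContinuousOn (fun q => -∑ x ∈ Finset.HasAntidiagonal.antidiagonal n,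
          if x.2 < n then c x.1 q * rcp c x.2 q else 0) X := by
        refine ContinuousOn.neg (continuousOn_finsetSum _ fun x _ => ?_)
        by_cases hx : x.2 < n
        · simp only [if_pos hx]
          exact (hc x.1).mul (ih x.2 hx)
        · simp only [if_neg hx]
          exact continuousOn_const
      exact h1.congr fun q hq => rcp_succ_hd7 c (h0 q hq) hn

theorem rcp_differentiableOn {U : Set ℂ} (hc : ∀ n, DifferentiableOn ℂ (c n) U)
    (h0 : ∀ q ∈ U, c 0 q = 1) (n : ℕ) : DifferentiableOn ℂ (rcp c n) U := by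
  induction n using Nat.strong_induction_on with
  | _ n ih =>
    by_cases hn : n = 0
    · subst hn
      exact (differentiableOn_const (1 : ℂ)).congr fun q hq => rcp_zero c (h0 q hq)
    · have h1 : DifferentiableOn ℂ (fun q => -∑ x ∈ Finset.HasAntidiagonal.antidiagonal n,
          if x.2 < n then c x.1 q * rcp c x.2 q else 0) U := by
        refine DifferentiableOn.neg (DifferentiableOn.fun_sum fun x _ => ?_)
        by_cases hx : x.2 < n
        · simp only [if_pos hx]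
          exact (hc x.1).mul (ih x.2 hx)
        · simp only [if_neg hx]
          exact differentiableOn_const _
      exact h1.congr fun q hq => rcp_succ_hd7 c (h0 q hq) hn

/-- uniqueness of the coefficients of a power series -/
private theorem uniq_hd7 {b : ℕ → ℂ} {ρ : ℝ} (hρ : 0 < ρ)
    (hs : ∀ u : ℂ, ‖u‖ < ρ → Summable fun n => ‖b n * u ^ n‖)
    (h0 : ∀ u : ℂ, ‖u‖ < ρ → HasSum (fun n => b n * u ^ n) 0) (n : ℕ) : b n = 0 := by
  set p := FormalMultilinearSeries.ofScalars ℂ b with hp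
  obtain ⟨r, hr⟩ : ∃ r : NNReal, r = ⟨ρ / 2, by positivity⟩ := ⟨_, rfl⟩
  have hr1 : (r : ℝ) = ρ / 2 := by rw [hr]; rfl
  have hrad : (r : ENNReal) ≤ p.radius := by
    refine p.le_radius_of_summable ?_
    have h1 := hs ((ρ / 2 : ℝ) : ℂ) (by
      rw [Complex.norm_real, Real.norm_of_nonneg (by positivity)]
      linarith)
    refine h1.congr fun n => ?_
    rw [hp, FormalMultilinearSeries.ofScalars_norm, norm_mul, norm_pow, Complex.norm_real,
      Real.norm_of_nonneg (by positivity), hr1]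
  have hfp : HasFPowerSeriesOnBall (0 : ℂ → ℂ) p 0 r := by
    refine ⟨hrad, ?_, fun {y} hy => ?_⟩
    · rw [ENNReal.coe_pos, ← NNReal.coe_pos, hr1]
      positivity
    · have hy1 : ‖y‖ < ρ := by
        rw [Metric.mem_eball, edist_zero_right, enorm_lt_coe] at hy
        have h2 : ‖y‖ < (r : ℝ) := hy
        rw [hr1] at h2
        linarith
      have h2 := h0 y hy1
      simp only [hp, FormalMultilinearSeries.ofScalars_apply_eq, smul_eq_mul]
      exact h2
  have h3 : p = 0 := hfp.hasFPowerSeriesAt.eq_zero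
  have h4 : p n (fun _ => (1 : ℂ)) = 0 := by
    rw [h3]
    rfl
  rw [hp, FormalMultilinearSeries.ofScalars_apply_eq, one_pow, smul_eq_mul, mul_one] at h4
  exact h4

/-- Coefficients of the reciprocal of a zero free function.
PROOF.  `f = 1/φ` is differentiable on `ball 0 ρ`, continuous on the closed ball; `α n =
iteratedDeriv n f 0 / n!`, `‖α n‖ ≤ M / ρ^n` (Cauchy estimate), `∑ α n u^n = f u` for `‖u‖ < ρ`
(Taylor).  `(∑ a n u^n)(∑ α n u^n) = 1` for small `u` and uniqueness of power series give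
`PowerSeries.mk a * PowerSeries.mk α = 1`, so `α n = coeff n (mk a)⁻¹`. -/
theorem recip_coeff {a : ℕ → ℂ} {φ : ℂ → ℂ} {ρ M : ℝ} (hρ : 0 < ρ) (hd : Differentiable ℂ φ)
    (hs : ∀ u, HasSum (fun n => a n * u ^ n) (φ u)) (h0 : ∀ u, ‖u‖ ≤ ρ → φ u ≠ 0)
    (hM : ∀ u, ‖u‖ ≤ ρ → ‖(φ u)⁻¹‖ ≤ M) :
    (∀ n, ‖PowerSeries.coeff n (PowerSeries.mk a)⁻¹‖ ≤ M / ρ ^ n) ∧
      ∀ u, ‖u‖ < ρ → HasSum (fun n => PowerSeries.coeff n (PowerSeries.mk a)⁻¹ * u ^ n) (φ u)⁻¹ := by
  obtain ⟨R, hR⟩ : ∃ R : NNReal, R = ⟨ρ, hρ.le⟩ := ⟨_, rfl⟩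
  have hR1 : (R : ℝ) = ρ := by rw [hR]; rfl
  have hRpos : 0 < R := by
    rw [← NNReal.coe_pos, hR1]
    exact hρ
  have hdf : DifferentiableOn ℂ (fun u => (φ u)⁻¹) (closedBall 0 R) := by
    intro u hu
    rw [mem_closedBall_zero_iff, hR1] at hu
    exact ((hd u).inv (h0 u hu)).differentiableWithinAt
  have hfp := hdf.hasFPowerSeriesOnBall hRpos
  set p := cauchyPowerSeries (fun u => (φ u)⁻¹) 0 R with hp
  obtain ⟨α, hα⟩ : ∃ α : ℕ → ℂ, ∀ n, α n = p.coeff n := ⟨fun n => p.coeff n, fun _ => rfl⟩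
  -- the power series of `1/φ`
  have hsum : ∀ u, ‖u‖ < ρ → HasSum (fun n => α n * u ^ n) (φ u)⁻¹ := by
    intro u hu
    have h1 : u ∈ Metric.eball (0 : ℂ) R := by
      rw [Metric.mem_eball, edist_zero_right, enorm_lt_coe, ← NNReal.coe_lt_coe, hR1]
      exact hu
    have h2 := hfp.hasSum h1
    rw [zero_add] at h2
    have h3 : (fun n => α n * u ^ n) = fun n => p n fun _ => u := by
      funext n
      rw [FormalMultilinearSeries.apply_eq_pow_smul_coeff, smul_eq_mul, hα, mul_comm]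
    rw [h3]
    exact h2
  -- Cauchy bound
  have hM0 : 0 ≤ M := (norm_nonneg _).trans (hM 0 (by rw [norm_zero]; exact hρ.le))
  have hbd : ∀ n, ‖α n‖ ≤ M / ρ ^ n := by
    intro n
    have h1 := norm_cauchyPowerSeries_le (fun u => (φ u)⁻¹) 0 R n
    rw [← hp, hR1, abs_of_pos hρ] at h1
    have h2 : ∫ θ : ℝ in (0 : ℝ)..2 * Real.pi, ‖(φ (circleMap 0 ρ θ))⁻¹‖ ≤ 2 * Real.pi * M := by
      have h3 : ‖∫ θ : ℝ in (0 : ℝ)..2 * Real.pi, ‖(φ (circleMap 0 ρ θ))⁻¹‖‖ ≤
          M * |2 * Real.pi - 0| := by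
        refine intervalIntegral.norm_integral_le_of_norm_le_const fun θ _ => ?_
        rw [norm_norm]
        refine hM _ ?_
        have h4 : ‖circleMap 0 ρ θ‖ = |ρ| := norm_circleMap_zero ρ θ
        rw [h4, abs_of_pos hρ]
      rw [sub_zero, abs_of_pos Real.two_pi_pos] at h3
      calc ∫ θ : ℝ in (0 : ℝ)..2 * Real.pi, ‖(φ (circleMap 0 ρ θ))⁻¹‖ ≤
          ‖∫ θ : ℝ in (0 : ℝ)..2 * Real.pi, ‖(φ (circleMap 0 ρ θ))⁻¹‖‖ := Real.le_norm_self _
        _ ≤ M * (2 * Real.pi) := h3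
        _ = 2 * Real.pi * M := by ring
    have h5 : ‖α n‖ = ‖p n‖ := by
      rw [hα]
      exact (FormalMultilinearSeries.norm_apply_eq_norm_coef).symm
    rw [h5]
    refine h1.trans ?_
    have h6 : (2 * Real.pi)⁻¹ * ∫ θ : ℝ in (0 : ℝ)..2 * Real.pi, ‖(φ (circleMap 0 ρ θ))⁻¹‖ ≤ M := by
      have h7 := mul_le_mul_of_nonneg_left h2 (inv_nonneg.2 Real.two_pi_pos.le)
      rwa [← mul_assoc, inv_mul_cancel₀ Real.two_pi_pos.ne', one_mul] at h7
    calc _ ≤ M * ρ⁻¹ ^ n := mul_le_mul_of_nonneg_right h6 (by positivity)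
      _ = M / ρ ^ n := by rw [inv_pow, div_eq_mul_inv]
  -- summability
  have hna : ∀ u : ℂ, Summable fun n => ‖a n * u ^ n‖ := fun u => (hs u).summable.norm
  have hnα : ∀ u : ℂ, ‖u‖ < ρ → Summable fun n => ‖α n * u ^ n‖ := fun u hu =>
    (hsum u hu).summable.norm
  -- the product
  have hprod : ∀ n, ∑ x ∈ Finset.HasAntidiagonal.antidiagonal n, a x.1 * α x.2 - (if n = 0 then 1 else 0) = 0 := by
    have hterm : ∀ (u : ℂ) (n : ℕ), ∑ x ∈ Finset.HasAntidiagonal.antidiagonal n, (a x.1 * u ^ x.1) * (α x.2 * u ^ x.2) =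
        (∑ x ∈ Finset.HasAntidiagonal.antidiagonal n, a x.1 * α x.2) * u ^ n := by
      intro u n
      rw [Finset.sum_mul]
      refine Finset.sum_congr rfl fun x hx => ?_
      rw [← Finset.HasAntidiagonal.mem_antidiagonal.1 hx, pow_add]
      ring
    have hdelta : ∀ u : ℂ, HasSum (fun n : ℕ => (if n = 0 then (1 : ℂ) else 0) * u ^ n) 1 := by
      intro u
      have h1 := hasSum_single (f := fun n : ℕ => (if n = 0 then (1 : ℂ) else 0) * u ^ n) 0
        (fun n hn => by simp [hn])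
      simpa using h1
    refine uniq_hd7 hρ (fun u hu => ?_) (fun u hu => ?_)
    · have h1 := summable_norm_sum_mul_antidiagonal_of_summable_norm (hna u) (hnα u hu)
      have h2 : Summable fun n : ℕ => ‖(if n = 0 then (1 : ℂ) else 0) * u ^ n‖ := (hdelta u).summable.norm
      refine Summable.of_nonneg_of_le (fun _ => norm_nonneg _) (fun n => ?_) (h1.add h2)
      rw [sub_mul, ← hterm u n]
      exact norm_sub_le _ _
    · have h1 := summable_norm_sum_mul_antidiagonal_of_summable_norm (hna u) (hnα u hu)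
      have h2 := tsum_mul_tsum_eq_tsum_sum_antidiagonal_of_summable_norm (hna u) (hnα u hu)
      rw [(hs u).tsum_eq, (hsum u hu).tsum_eq, mul_inv_cancel₀ (h0 u hu.le)] at h2
      have h3 : HasSum (fun n => ∑ x ∈ Finset.HasAntidiagonal.antidiagonal n, (a x.1 * u ^ x.1) * (α x.2 * u ^ x.2)) 1 := by
        rw [h2]
        exact h1.of_norm.hasSum
      have h4 := h3.sub (hdelta u)
      rw [sub_self] at h4
      have h5 : (fun n => (∑ x ∈ Finset.HasAntidiagonal.antidiagonal n, a x.1 * α x.2 -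
          (if n = 0 then 1 else 0)) * u ^ n) = fun n =>
          ∑ x ∈ Finset.HasAntidiagonal.antidiagonal n, (a x.1 * u ^ x.1) * (α x.2 * u ^ x.2) -
            (if n = 0 then (1 : ℂ) else 0) * u ^ n := by
        funext n
        rw [sub_mul, hterm u n]
      rw [h5]
      exact h4
  have hmk : PowerSeries.mk a * PowerSeries.mk α = 1 := by
    ext n
    rw [PowerSeries.coeff_mul, PowerSeries.coeff_one]
    simp only [PowerSeries.coeff_mk]
    exact sub_eq_zero.1 (hprod n)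
  have hc0 : PowerSeries.constantCoeff (PowerSeries.mk a) ≠ 0 := by
    intro h
    have h1 := congrArg PowerSeries.constantCoeff hmk
    rw [map_mul, h, zero_mul, map_one] at h1
    exact zero_ne_one h1
  have hinv : (PowerSeries.mk a)⁻¹ = PowerSeries.mk α := by
    rw [PowerSeries.inv_eq_iff_mul_eq_one hc0, mul_comm]
    exact hmk
  rw [hinv]
  simp only [PowerSeries.coeff_mk]
  exact ⟨hbd, hsum⟩

/-! ## Piece [HD-D8] (this block) -/

/-- PROOF.  `Z = {(q,u) : q ∈ X, ‖u‖ ≤ 2, S (quot c w) q (w q u) = 0}` is compact and `‖u‖ > 1` on it: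
take `ρ = (1 + min ‖u‖)/2` (or `ρ = 3/2` if `Z` is empty).  `M` = maximum of the continuous function
`‖(S (quot c w) q (w q u))⁻¹‖` on `X × closedBall 0 ρ`. -/
theorem exists_rho (hX : IsCompact X) (hc : Ent X c) (hw : ContinuousOn w X)
    (hφ : ∀ q ∈ X, ∀ u : ℂ, ‖u‖ ≤ 1 → S (quot c w) q (w q * u) ≠ 0) :
    ∃ ρ M : ℝ, 1 < ρ ∧ ∀ q ∈ X, ∀ u : ℂ, ‖u‖ ≤ ρ → S (quot c w) q (w q * u) ≠ 0 ∧
      ‖(S (quot c w) q (w q * u))⁻¹‖ ≤ M := by
  obtain ⟨B, hB⟩ := hX.exists_bound_of_continuousOn hw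
  have hQ : Ent X (SokamHD.quot c w) := Ent.quot hc hw hB
  have hcont : ContinuousOn (fun p : ℂ × ℂ => S (SokamHD.quot c w) p.1 (w p.1 * p.2))
      (X ×ˢ univ) := by
    have h1 : ContinuousOn (fun p : ℂ × ℂ => (p.1, w p.1 * p.2)) (X ×ˢ univ) := by
      refine continuousOn_fst.prodMk (ContinuousOn.mul ?_ continuousOn_snd)
      exact hw.comp continuousOn_fst fun p hp => hp.1
    exact hQ.continuousOn.comp h1 fun p hp => ⟨hp.1, mem_univ _⟩
  obtain ⟨ρ, hρ1, hρ⟩ : ∃ ρ : ℝ, 1 < ρ ∧ ∀ q ∈ X, ∀ u : ℂ, ‖u‖ ≤ ρ →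
      S (SokamHD.quot c w) q (w q * u) ≠ 0 := by
    have hK2 : IsCompact (X ×ˢ closedBall (0 : ℂ) 2) := hX.prod (isCompact_closedBall 0 2)
    have hc2 : ContinuousOn (fun p : ℂ × ℂ => S (SokamHD.quot c w) p.1 (w p.1 * p.2))
        (X ×ˢ closedBall (0 : ℂ) 2) := hcont.mono (prod_mono_right (subset_univ _))
    have hZc : IsClosed ((X ×ˢ closedBall (0 : ℂ) 2) ∩
        (fun p : ℂ × ℂ => S (SokamHD.quot c w) p.1 (w p.1 * p.2)) ⁻¹' {0}) :=
      hc2.preimage_isClosed_of_isClosed hK2.isClosed isClosed_singleton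
    have hZ : IsCompact ((X ×ˢ closedBall (0 : ℂ) 2) ∩
        (fun p : ℂ × ℂ => S (SokamHD.quot c w) p.1 (w p.1 * p.2)) ⁻¹' {0}) :=
      hK2.of_isClosed_subset hZc inter_subset_left
    rcases Set.eq_empty_or_nonempty ((X ×ˢ closedBall (0 : ℂ) 2) ∩
        (fun p : ℂ × ℂ => S (SokamHD.quot c w) p.1 (w p.1 * p.2)) ⁻¹' {0}) with hE | hne
    · refine ⟨2, by norm_num, fun q hq u hu hz => ?_⟩
      have hmem : (q, u) ∈ ((X ×ˢ closedBall (0 : ℂ) 2) ∩
          (fun p : ℂ × ℂ => S (SokamHD.quot c w) p.1 (w p.1 * p.2)) ⁻¹' {0}) :=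
        ⟨⟨hq, by simpa using hu⟩, hz⟩
      rw [hE] at hmem
      exact hmem
    · obtain ⟨p0, hp0, hmin⟩ := hZ.exists_isMinOn hne
        (f := fun p : ℂ × ℂ => ‖p.2‖) (by fun_prop)
      have hm1 : 1 < ‖p0.2‖ := by
        by_contra hle
        exact hφ p0.1 hp0.1.1 p0.2 (not_lt.1 hle) hp0.2
      have hm2 : ‖p0.2‖ ≤ 2 := by simpa using hp0.1.2
      refine ⟨(1 + ‖p0.2‖) / 2, by linarith, fun q hq u hu hz => ?_⟩
      have hmem : (q, u) ∈ ((X ×ˢ closedBall (0 : ℂ) 2) ∩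
          (fun p : ℂ × ℂ => S (SokamHD.quot c w) p.1 (w p.1 * p.2)) ⁻¹' {0}) := by
        refine ⟨⟨hq, ?_⟩, hz⟩
        rw [mem_closedBall_zero_iff]
        show ‖u‖ ≤ 2
        linarith
      have h3 : ‖p0.2‖ ≤ ‖u‖ := isMinOn_iff.1 hmin (q, u) hmem
      linarith
  have hK3 : IsCompact (X ×ˢ closedBall (0 : ℂ) ρ) := hX.prod (isCompact_closedBall 0 ρ)
  have hc3 : ContinuousOn (fun p : ℂ × ℂ => (S (SokamHD.quot c w) p.1 (w p.1 * p.2))⁻¹)
      (X ×ˢ closedBall (0 : ℂ) ρ) := by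
    refine (hcont.mono (prod_mono_right (subset_univ _))).inv₀ ?_
    rintro ⟨q, u⟩ ⟨hq, hu⟩
    exact hρ q hq u (by simpa using hu)
  obtain ⟨M, hM⟩ := hK3.exists_bound_of_continuousOn hc3
  refine ⟨ρ, M, hρ1, fun q hq u hu => ⟨hρ q hq u hu, ?_⟩⟩
  exact hM (q, u) ⟨hq, by simpa using hu⟩

private theorem quot_succ_rcp (h : Ent X c) {B : ℝ} (hB : ∀ q ∈ X, ‖w q‖ ≤ B) {q : ℂ} (hq : q ∈ X)
    (n : ℕ) : w q * c (n + 1) q = w q * SokamHD.quot c w (n + 1) q - SokamHD.quot c w n q := by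
  obtain ⟨C, hC, hb⟩ := h.quot_bound (le_max_right B 0) one_pos
  have hs : Summable fun l => c (n + 1 + l) q * w q ^ (l + 1) := by
    refine Summable.of_norm_bounded (g := fun l : ℕ => C * (1 / 2 : ℝ) ^ l)
      ((summable_geometric_of_lt_one (by norm_num) (by norm_num)).mul_left C) fun l => ?_
    have h2 := hb n l q hq (w q) ((hB q hq).trans (le_max_left _ _))
    rwa [one_pow, mul_one] at h2
  have h1 := hs.tsum_eq_zero_add
  have h3 : (∑' l, c (n + 1 + (l + 1)) q * w q ^ (l + 1 + 1)) =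
      w q * ∑' l, c (n + 1 + 1 + l) q * w q ^ (l + 1) := by
    rw [← tsum_mul_left]
    refine tsum_congr fun l => ?_
    have e : n + 1 + (l + 1) = n + 1 + 1 + l := by ring
    rw [e, pow_succ _ (l + 1)]
    ring
  rw [h3, add_zero, zero_add, pow_one] at h1
  show w q * c (n + 1) q = w q * (-(∑' l, c (n + 1 + 1 + l) q * w q ^ (l + 1))) -
    -(∑' l, c (n + 1 + l) q * w q ^ (l + 1))
  rw [h1]
  ring

/-- Algebra: `β_n w^n = ∑_{i ≤ n} α_i`.
PROOF.  With `a n = quot c w n q · w^n`: `c n q w^n = a n - a (n-1)` (`Ent.quot_mul` at the level of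
coefficients: `w c_n = w quot_n - quot_{n-1}`), i.e. `mk (c n q w^n) = (1 - X) mk a`; rescaling:
`mk (rcp c n q · w^n) = (mk (c n q w^n))⁻¹ = (1 - X)⁻¹ (mk a)⁻¹`, and
`coeff n ((1 - X)⁻¹ ψ) = ∑_{i ≤ n} coeff i ψ`. -/
theorem rcp_eq (hc : Ent X c) (hw : ContinuousOn w X) {B : ℝ} (hB : ∀ q ∈ X, ‖w q‖ ≤ B) {q : ℂ}
    (hq : q ∈ X) (h1 : c 0 q = 1) (hw0 : w q ≠ 0) (h0 : S c q (w q) = 0) (n : ℕ) :
    rcp c n q * w q ^ n = ∑ i ∈ Finset.range (n + 1),
      PowerSeries.coeff i (PowerSeries.mk fun m => SokamHD.quot c w m q * w q ^ m)⁻¹ := by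
  -- `A = Σ quot_m w^m X^m`, `R = Σ rcp_m w^m X^m`
  obtain ⟨A, hA⟩ : ∃ A : PowerSeries ℂ,
      A = PowerSeries.mk fun m => SokamHD.quot c w m q * w q ^ m := ⟨_, rfl⟩
  obtain ⟨D, hD⟩ : ∃ D : PowerSeries ℂ, D = PowerSeries.mk fun m => c m q := ⟨_, rfl⟩
  obtain ⟨R, hR⟩ : ∃ R : PowerSeries ℂ, R = PowerSeries.rescale (w q) D⁻¹ := ⟨_, rfl⟩
  have hRn : ∀ m, PowerSeries.coeff m R = rcp c m q * w q ^ m := by
    intro m
    rw [hR, PowerSeries.coeff_rescale, hD, mul_comm]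
    rfl
  have hD1 : D * D⁻¹ = 1 := by
    refine PowerSeries.mul_inv_cancel D ?_
    rw [hD, ← PowerSeries.coeff_zero_eq_constantCoeff_apply, PowerSeries.coeff_mk, h1]
    exact one_ne_zero
  have hA0 : PowerSeries.constantCoeff A ≠ 0 := by
    rw [hA, ← PowerSeries.coeff_zero_eq_constantCoeff_apply, PowerSeries.coeff_mk, pow_zero, mul_one,
      hc.quot_zero hq h0, h1]
    exact one_ne_zero
  have hA1 : A * A⁻¹ = 1 := PowerSeries.mul_inv_cancel A hA0
  have hDA : PowerSeries.rescale (w q) D = (1 - PowerSeries.X) * A := by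
    ext m
    rw [PowerSeries.coeff_rescale, hD, PowerSeries.coeff_mk, sub_mul, one_mul, map_sub]
    cases m with
    | zero =>
      rw [PowerSeries.coeff_zero_X_mul, hA, PowerSeries.coeff_mk, pow_zero, hc.quot_zero hq h0]
      ring
    | succ m =>
      rw [PowerSeries.coeff_succ_X_mul, hA, PowerSeries.coeff_mk, PowerSeries.coeff_mk]
      have e := quot_succ_rcp hc hB hq m
      rw [pow_succ]
      linear_combination (w q ^ m) * e
  have hRA : A⁻¹ = (1 - PowerSeries.X) * R := by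
    have h3 : (1 - PowerSeries.X) * A * R = 1 := by
      rw [← hDA, hR, ← map_mul, hD1, map_one]
    calc A⁻¹ = A⁻¹ * ((1 - PowerSeries.X) * A * R) := by rw [h3, mul_one]
      _ = (A * A⁻¹) * ((1 - PowerSeries.X) * R) := by ring
      _ = (1 - PowerSeries.X) * R := by rw [hA1, one_mul]
  rw [← hA, ← hRn]
  induction n with
  | zero =>
    rw [zero_add, Finset.sum_range_one, hRA, sub_mul, one_mul, map_sub, PowerSeries.coeff_zero_X_mul,
      sub_zero]
  | succ n ih =>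
    rw [Finset.sum_range_succ, ← ih, hRA, sub_mul, one_mul, map_sub, PowerSeries.coeff_succ_X_mul]
    ring

/-- PROOF.  `exists_rho`, `recip_coeff` (`φ u = S (quot c w) q (w u)`, `a n = quot c w n q · w^n`,
`‖α n‖ ≤ M ρ^{-n}`, `∑ α n = 1/φ(1)`), `rcp_eq`: `‖rcp c n q w^n - 1/φ(1)‖ ≤ ∑_{i>n} M ρ^{-i}`, and
`‖φ(1)‖` is bounded on the compact `X`. -/
theorem rcp_tendsto (hX : IsCompact X) (hc : Ent X c) (h1 : ∀ q ∈ X, c 0 q = 1)
    (hw : ContinuousOn w X) (h0 : ∀ q ∈ X, S c q (w q) = 0)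
    (hφ : ∀ q ∈ X, ∀ u : ℂ, ‖u‖ ≤ 1 → S (quot c w) q (w q * u) ≠ 0) {ε : ℝ} (hε : 0 < ε) :
    ∃ N : ℕ, ∀ n ≥ N, ∀ q ∈ X, ‖rcp c n q * w q ^ n * S (quot c w) q (w q) - 1‖ ≤ ε := by
  obtain ⟨B, hB⟩ := hX.exists_bound_of_continuousOn hw
  have hQ : Ent X (SokamHD.quot c w) := Ent.quot hc hw hB
  obtain ⟨ρ, M, hρ1, hρ⟩ := exists_rho hX hc hw hφ
  have hρ0 : 0 < ρ := by linarith
  have hcP : ContinuousOn (fun q : ℂ => ((q, w q) : ℂ × ℂ)) X := continuousOn_id.prodMk hw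
  have hcL : ContinuousOn ((fun p : ℂ × ℂ => S (SokamHD.quot c w) p.1 p.2) ∘
      fun q : ℂ => ((q, w q) : ℂ × ℂ)) X :=
    hQ.continuousOn.comp hcP fun q hq => ⟨hq, mem_univ _⟩
  obtain ⟨L, hL⟩ : ∃ L : ℝ, ∀ q ∈ X, ‖S (SokamHD.quot c w) q (w q)‖ ≤ L :=
    hX.exists_bound_of_continuousOn hcL
  have hr0 : 0 ≤ ρ⁻¹ := by positivity
  have hr1 : ρ⁻¹ < 1 := inv_lt_one_of_one_lt₀ hρ1
  have hr2 : 0 < 1 - ρ⁻¹ := by linarith
  have hlim : Tendsto (fun n : ℕ => |L| * (|M| * ρ⁻¹ ^ (n + 1) / (1 - ρ⁻¹))) atTop (𝓝 0) := by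
    have h2 : Tendsto (fun n : ℕ => ρ⁻¹ ^ (n + 1)) atTop (𝓝 0) :=
      (tendsto_pow_atTop_nhds_zero_of_lt_one hr0 hr1).comp (tendsto_add_atTop_nat 1)
    have h3 := ((h2.const_mul |M|).div_const (1 - ρ⁻¹)).const_mul |L|
    simpa using h3
  obtain ⟨N, hN⟩ := eventually_atTop.1 ((tendsto_order.1 hlim).2 ε hε)
  refine ⟨N, fun n hn q hq => ?_⟩
  have hw0 : w q ≠ 0 := by
    intro hz
    have h2 := h0 q hq
    rw [hz, S_zero, h1 q hq] at h2
    exact one_ne_zero h2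
  have hs : ∀ u : ℂ, HasSum (fun n => SokamHD.quot c w n q * w q ^ n * u ^ n)
      (S (SokamHD.quot c w) q (w q * u)) := by
    intro u
    have h2 := (hQ.summable hq (w q * u)).hasSum
    have h3 : (fun n => SokamHD.quot c w n q * w q ^ n * u ^ n) =
        fun n => SokamHD.quot c w n q * (w q * u) ^ n := by
      funext n
      rw [mul_pow, mul_assoc]
    rw [h3]
    exact h2
  obtain ⟨α, hαd⟩ : ∃ α : ℕ → ℂ, α = fun i => PowerSeries.coeff i
      (PowerSeries.mk fun m => SokamHD.quot c w m q * w q ^ m)⁻¹ := ⟨_, rfl⟩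
  obtain ⟨hα, hsum⟩ : (∀ n, ‖α n‖ ≤ M / ρ ^ n) ∧ ∀ u : ℂ, ‖u‖ < ρ →
      HasSum (fun n => α n * u ^ n) (S (SokamHD.quot c w) q (w q * u))⁻¹ := by
    rw [hαd]
    exact recip_coeff (a := fun m => SokamHD.quot c w m q * w q ^ m)
      (φ := fun u => S (SokamHD.quot c w) q (w q * u)) hρ0
      ((hQ.differentiable hq).comp (differentiable_id.const_mul (w q))) hs
      (fun u hu => (hρ q hq u hu).1) (fun u hu => (hρ q hq u hu).2)
  have hrcp : rcp c n q * w q ^ n = ∑ i ∈ Finset.range (n + 1), α i := by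
    rw [hαd]
    exact rcp_eq hc hw hB hq (h1 q hq) hw0 (h0 q hq) n
  clear hαd
  have hsum1 := hsum 1 (by simpa using hρ1)
  simp only [one_pow, mul_one] at hsum1
  have hα' : ∀ n, ‖α n‖ ≤ |M| * ρ⁻¹ ^ n := by
    intro n
    refine (hα n).trans ?_
    rw [div_eq_mul_inv, inv_pow]
    exact mul_le_mul_of_nonneg_right (le_abs_self M) (by positivity)
  have htail := norm_sub_le_of_geometric_bound_of_hasSum hr1 hα' hsum1 (n + 1)
  have hne : S (SokamHD.quot c w) q (w q) ≠ 0 := by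
    have h2 := hφ q hq 1 (by simp)
    rwa [mul_one] at h2
  have e1 : (∑ i ∈ Finset.range (n + 1), α i) * S (SokamHD.quot c w) q (w q) - 1 =
      S (SokamHD.quot c w) q (w q) * ((∑ i ∈ Finset.range (n + 1), α i) -
      (S (SokamHD.quot c w) q (w q))⁻¹) := by
    rw [mul_sub, mul_inv_cancel₀ hne, mul_comm]
  rw [hrcp, e1, norm_mul]
  refine le_trans (mul_le_mul ((hL q hq).trans (le_abs_self L)) htail (norm_nonneg _)
    (abs_nonneg L)) (hN n hn).le

end SokamHD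

end

/-! ### Lib_MP_af4de1_hd.DLog -/

section
/-! # Continuous logarithms -/

namespace SokamHD

open Complex Set Topology Metric Filter

/-- Piece [HD-D4].
PROOF.  `X × [0,1]` is compact, `φ` is uniformly continuous and `‖φ‖ ≥ m > 0` there.  Choose `N` with
`‖φ q t - φ q t'‖ < m` for `q ∈ X`, `|t - t'| ≤ 1/N`.  Then `φ q ((i+1)/N) / φ q (i/N)` lies in the
ball of radius `1` about `1`, hence in `slitPlane`, and
`ℓ q = ∑_{i<N} log (φ q ((i+1)/N) / φ q (i/N))` is continuous on `X`;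
`exp (ℓ q) = ∏ φ q ((i+1)/N) / φ q (i/N) = φ q 1 / φ q 0` (`Finset.prod_range_div`). -/
theorem exists_log {X : Set ℂ} (hX : IsCompact X) {φ : ℂ → ℝ → ℂ}
    (hφ : ContinuousOn (fun p : ℂ × ℝ => φ p.1 p.2) (X ×ˢ Icc (0 : ℝ) 1))
    (h0 : ∀ q ∈ X, ∀ t ∈ Icc (0 : ℝ) 1, φ q t ≠ 0) (h1 : ∀ q ∈ X, φ q 0 = 1) :
    ∃ ℓ : ℂ → ℂ, ContinuousOn ℓ X ∧ ∀ q ∈ X, exp (ℓ q) = φ q 1 := by
  classical
  rcases X.eq_empty_or_nonempty with rfl | hne
  · exact ⟨fun _ => 0, continuousOn_const, fun q hq => absurd hq (Set.notMem_empty q)⟩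
  have hY : IsCompact (X ×ˢ Icc (0 : ℝ) 1) := hX.prod isCompact_Icc
  obtain ⟨q₀, hq₀⟩ := hne
  obtain ⟨p₀, hp₀, hmin⟩ := hY.exists_isMinOn ⟨(q₀, 0), ⟨hq₀, by simp⟩⟩ hφ.norm
  set m : ℝ := ‖φ p₀.1 p₀.2‖ with hm
  have hm0 : 0 < m := norm_pos_iff.2 (h0 p₀.1 hp₀.1 p₀.2 hp₀.2)
  have hmle : ∀ q ∈ X, ∀ t ∈ Icc (0 : ℝ) 1, m ≤ ‖φ q t‖ := fun q hq t ht =>
    hmin (show (q, t) ∈ X ×ˢ Icc (0 : ℝ) 1 from ⟨hq, ht⟩)
  obtain ⟨δ, hδ, hunif⟩ := Metric.uniformContinuousOn_iff.1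
    (hY.uniformContinuousOn_of_continuous hφ) m hm0
  obtain ⟨n, hn⟩ := exists_nat_one_div_lt hδ
  set N : ℕ := n + 1 with hN
  have hNpos : (0 : ℝ) < N := by rw [hN]; positivity
  have hIcc : ∀ i : ℕ, i ≤ N → (i : ℝ) / N ∈ Icc (0 : ℝ) 1 := by
    intro i hi
    refine ⟨by positivity, ?_⟩
    rw [div_le_one hNpos]
    exact_mod_cast hi
  have hslit : ∀ q ∈ X, ∀ i ∈ Finset.range N,
      φ q (((i + 1 : ℕ) : ℝ) / N) / φ q ((i : ℝ) / N) ∈ slitPlane := by
    intro q hq i hi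
    have hi' := Finset.mem_range.1 hi
    have ht1 := hIcc (i + 1) hi'
    have ht0 := hIcc i hi'.le
    have hd : dist (q, ((i + 1 : ℕ) : ℝ) / N) (q, (i : ℝ) / N) < δ := by
      rw [Prod.dist_eq, dist_self, max_eq_right dist_nonneg, Real.dist_eq]
      have e : ((i + 1 : ℕ) : ℝ) / N - (i : ℝ) / N = 1 / N := by
        push_cast
        ring
      rw [e, abs_of_pos (by positivity)]
      have e2 : (N : ℝ) = (n : ℝ) + 1 := by rw [hN]; push_cast; ring
      rw [e2]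
      exact hn
    have h3 := hunif (q, ((i + 1 : ℕ) : ℝ) / N) ⟨hq, ht1⟩ (q, (i : ℝ) / N) ⟨hq, ht0⟩ hd
    have h4 : ‖φ q (((i + 1 : ℕ) : ℝ) / N) - φ q ((i : ℝ) / N)‖ < m := by
      rw [← dist_eq_norm]
      exact h3
    have hne0 := h0 q hq _ ht0
    have h5 : φ q (((i + 1 : ℕ) : ℝ) / N) / φ q ((i : ℝ) / N)
        = 1 + (φ q (((i + 1 : ℕ) : ℝ) / N) - φ q ((i : ℝ) / N)) / φ q ((i : ℝ) / N) := by
      field_simp
      ring
    rw [h5]
    apply mem_slitPlane_of_norm_lt_one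
    rw [norm_div, div_lt_one (norm_pos_iff.2 hne0)]
    exact h4.trans_le (hmle q hq _ ht0)
  have hcont : ∀ t ∈ Icc (0 : ℝ) 1, ContinuousOn (fun q => φ q t) X := by
    intro t ht
    have h6 : ContinuousOn (fun q : ℂ => ((q, t) : ℂ × ℝ)) X := by fun_prop
    exact hφ.comp h6 (fun q hq => ⟨hq, ht⟩)
  refine ⟨fun q => ∑ i ∈ Finset.range N, log (φ q (((i + 1 : ℕ) : ℝ) / N) / φ q ((i : ℝ) / N)), ?_, ?_⟩
  · refine continuousOn_finsetSum _ (fun i hi => ?_)
    have hi' := Finset.mem_range.1 hi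
    refine ContinuousOn.clog ?_ (fun q hq => hslit q hq i hi)
    exact (hcont _ (hIcc (i + 1) hi')).div (hcont _ (hIcc i hi'.le))
      (fun q hq => h0 q hq _ (hIcc i hi'.le))
  · intro q hq
    rw [Complex.exp_sum]
    have h7 : ∀ i ∈ Finset.range N, exp (log (φ q (((i + 1 : ℕ) : ℝ) / N) / φ q ((i : ℝ) / N)))
        = φ q (((i + 1 : ℕ) : ℝ) / N) / φ q ((i : ℝ) / N) := by
      intro i hi
      exact exp_log (slitPlane_ne_zero (hslit q hq i hi))
    rw [Finset.prod_congr rfl h7]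
    have h8 : ∀ k : ℕ, k ≤ N →
        ∏ i ∈ Finset.range k, φ q (((i + 1 : ℕ) : ℝ) / N) / φ q ((i : ℝ) / N) = φ q ((k : ℝ) / N) := by
      intro k
      induction k with
      | zero =>
        intro _
        rw [Finset.prod_range_zero, Nat.cast_zero, zero_div, h1 q hq]
      | succ k ih =>
        intro hk
        rw [Finset.prod_range_succ, ih (by omega),
          mul_div_cancel₀ _ (h0 q hq _ (hIcc k (by omega)))]
    rw [h8 N le_rfl, div_self hNpos.ne']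

/-- PROOF.  Apply `exists_log` to `φ q t = g (a + t (q - a)) / g a` and add a logarithm of `g a`. -/
theorem exists_log_convex {K : Set ℂ} (hK : IsCompact K) (hc : Convex ℝ K) {a : ℂ} (ha : a ∈ K)
    {g : ℂ → ℂ} (hg : ContinuousOn g K) (h0 : ∀ q ∈ K, g q ≠ 0) :
    ∃ ℓ : ℂ → ℂ, ContinuousOn ℓ K ∧ ∀ q ∈ K, exp (ℓ q) = g q := by
  have hga := h0 a ha
  have hmem : ∀ q ∈ K, ∀ t ∈ Icc (0 : ℝ) 1, a + (t : ℂ) * (q - a) ∈ K := by
    intro q hq t ht
    have h1 := hc.add_smul_sub_mem ha hq ht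
    rwa [Complex.real_smul] at h1
  have k1 : ContinuousOn (fun p : ℂ × ℝ => g (a + (p.2 : ℂ) * (p.1 - a)) / g a)
      (K ×ˢ Icc (0 : ℝ) 1) := by
    refine ContinuousOn.div_const (hg.comp (f := fun p : ℂ × ℝ => a + (p.2 : ℂ) * (p.1 - a)) ?_ ?_) _
    · fun_prop
    · rintro ⟨q, t⟩ ⟨hq, ht⟩
      exact hmem q hq t ht
  have k2 : ∀ q ∈ K, ∀ t ∈ Icc (0 : ℝ) 1, g (a + (t : ℂ) * (q - a)) / g a ≠ 0 := fun q hq t ht =>
    div_ne_zero (h0 _ (hmem q hq t ht)) hga
  have k3 : ∀ q ∈ K, g (a + ((0 : ℝ) : ℂ) * (q - a)) / g a = 1 := by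
    intro q hq
    have e : a + ((0 : ℝ) : ℂ) * (q - a) = a := by
      rw [ofReal_zero]
      ring
    rw [e, div_self hga]
  obtain ⟨ℓ, hℓ, hexp⟩ := exists_log hK (φ := fun q t => g (a + (t : ℂ) * (q - a)) / g a) k1 k2 k3
  refine ⟨fun q => ℓ q + log (g a), hℓ.add continuousOn_const, fun q hq => ?_⟩
  rw [exp_add, hexp q hq, exp_log hga]
  have e : a + ((1 : ℝ) : ℂ) * (q - a) = q := by
    rw [ofReal_one]
    ring
  rw [e, div_mul_cancel₀ _ hga]

end SokamHD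

end

/-! ### Lib_MP_af4de1_hd.DZ -/

section
/-! # Argument principle on a convex compact set (no zeros if there is a continuous logarithm) -/

namespace SokamHD

open Complex Set Topology Metric Filter

variable {K : Set ℂ}

/-! ## Piece [HD-D5] (this block) -/

/-- PROOF.  `b θ = a + e^{iθ} / gauge (K - a) (e^{iθ})`: `gauge` is continuous
(`continuous_gauge`, as `K - a` is a convex neighbourhood of `0`), positive away from `0`
(`K - a` bounded), and `b θ ∈ frontier K` (`gauge_eq_one_iff_mem_frontier`).  So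
`b θ - a = r(θ) e^{iθ}` with `r` continuous, positive, `2π`-periodic. -/
theorem exists_boundary_param (hK : IsCompact K) (hc : Convex ℝ K) {a : ℂ} (ha : a ∈ interior K) :
    ∃ r : ℝ → ℝ, Continuous r ∧ (∀ θ, 0 < r θ) ∧ (∀ θ, r (θ + 2 * Real.pi) = r θ) ∧
      ∀ θ, a + r θ * exp (θ * I) ∈ frontier K := by
  set s : Set ℂ := (fun z => a + z) ⁻¹' K with hs
  have hsc : Convex ℝ s := hc.translate_preimage_right a
  have hs0 : s ∈ 𝓝 (0 : ℂ) := by
    have h1 : Tendsto (fun z : ℂ => a + z) (𝓝 0) (𝓝 a) := by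
      have h2 : Continuous fun z : ℂ => a + z := by fun_prop
      simpa using h2.tendsto 0
    exact h1 (mem_interior_iff_mem_nhds.1 ha)
  have hsb : Bornology.IsBounded s := by
    have h1 : s ⊆ (fun z => z - a) '' K := by
      intro z hz
      exact ⟨a + z, hz, by ring⟩
    exact ((hK.image (by fun_prop : Continuous fun z : ℂ => z - a)).isBounded).subset h1
  have hvb : Bornology.IsVonNBounded ℝ s := NormedSpace.isVonNBounded_of_isBounded ℝ hsb
  have hpos : ∀ θ : ℝ, 0 < gauge s (exp (θ * I)) := fun θ =>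
    (gauge_pos (absorbent_nhds_zero hs0) hvb).2 (exp_ne_zero _)
  refine ⟨fun θ => (gauge s (exp (θ * I)))⁻¹, ?_, fun θ => inv_pos.2 (hpos θ), fun θ => ?_, fun θ => ?_⟩
  · refine Continuous.inv₀ ((continuous_gauge hsc hs0).comp (by fun_prop)) fun θ => (hpos θ).ne'
  · have : exp (((θ + 2 * Real.pi : ℝ) : ℂ) * I) = exp (θ * I) := by
      push_cast
      rw [add_mul, exp_add, exp_two_pi_mul_I, mul_one]
    simp only [this]
  · have h1 : gauge s (((gauge s (exp (θ * I)))⁻¹ : ℝ) • exp (θ * I)) = 1 := by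
      rw [gauge_smul_of_nonneg (inv_pos.2 (hpos θ)).le, smul_eq_mul, inv_mul_cancel₀ (hpos θ).ne']
    have h2 := (gauge_eq_one_iff_mem_frontier hsc hs0).1 h1
    rw [hs] at h2
    have h3 : (fun z => a + z) ⁻¹' (frontier K) = frontier ((fun z => a + z) ⁻¹' K) :=
      (Homeomorph.addLeft a).preimage_frontier K
    rw [← h3, Set.mem_preimage, Complex.real_smul] at h2
    exact h2

/-- PROOF.  With `r` from `exists_boundary_param`, `b θ = a + r θ e^{iθ}`:
`exp (ℓ (b θ) - m (log (r θ) + iθ)) = 1`, so `ℓ (b θ) - m (log (r θ) + iθ)` is continuous with values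
in `2πiℤ`, hence constant; at `θ` and `θ + 2π` it differs by `-2πim`.  So `m = 0`. -/
theorem no_log_pow (hK : IsCompact K) (hc : Convex ℝ K) {a : ℂ} (ha : a ∈ interior K) {m : ℕ}
    {ℓ : ℂ → ℂ} (hℓ : ContinuousOn ℓ (frontier K))
    (h : ∀ q ∈ frontier K, exp (ℓ q) = (q - a) ^ m) : m = 0 := by
  obtain ⟨r, hrc, hr0, hrp, hrf⟩ := exists_boundary_param hK hc ha
  set c : ℝ → ℂ := fun θ => ℓ (a + r θ * exp (θ * I)) - m * (Real.log (r θ) + θ * I) with hcdef
  have hcc : Continuous c := by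
    have h1 : Continuous fun θ : ℝ => a + r θ * exp (θ * I) := by fun_prop
    have h2 : Continuous fun θ : ℝ => ℓ (a + r θ * exp (θ * I)) :=
      continuous_iff_continuousAt.2 fun θ => by
        have h3 : ContinuousOn (fun θ : ℝ => ℓ (a + r θ * exp (θ * I))) univ :=
          hℓ.comp h1.continuousOn fun x _ => hrf x
        exact h3.continuousAt univ_mem
    have h4 : Continuous fun θ : ℝ => Real.log (r θ) := hrc.log fun θ => (hr0 θ).ne'
    exact h2.sub (by fun_prop)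
  have hexp : ∀ θ, exp (c θ) = 1 := by
    intro θ
    have e1 : exp ((m : ℂ) * (Real.log (r θ) + θ * I)) = (r θ * exp (θ * I)) ^ m := by
      rw [exp_nat_mul, exp_add, ← ofReal_exp, Real.exp_log (hr0 θ)]
    have e2 := h _ (hrf θ)
    rw [add_sub_cancel_left] at e2
    show exp (ℓ (a + r θ * exp (θ * I)) - m * (Real.log (r θ) + θ * I)) = 1
    rw [exp_sub, e1, e2, div_self]
    exact pow_ne_zero _ (mul_ne_zero (by exact_mod_cast (hr0 θ).ne') (exp_ne_zero _))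
  have hint : ∀ θ, ∃ n : ℤ, (c θ).im / (2 * Real.pi) = n := by
    intro θ
    obtain ⟨n, hn⟩ := exp_eq_one_iff.1 (hexp θ)
    refine ⟨n, ?_⟩
    rw [hn]
    have h1 : ((n : ℂ) * (2 * Real.pi * I)).im = n * (2 * Real.pi) := by
      have : (n : ℂ) * (2 * Real.pi * I) = ((n * (2 * Real.pi) : ℝ) : ℂ) * I := by
        push_cast
        ring
      rw [this]
      simp
    rw [h1, mul_div_cancel_right₀ _ Real.two_pi_pos.ne']
  have hper : (c (2 * Real.pi)).im / (2 * Real.pi) = (c 0).im / (2 * Real.pi) - m := by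
    have e0 : r (2 * Real.pi) = r 0 := by simpa using hrp 0
    have e1 : exp (((2 * Real.pi : ℝ) : ℂ) * I) = exp (((0 : ℝ) : ℂ) * I) := by
      push_cast
      rw [exp_two_pi_mul_I, zero_mul, exp_zero]
    have e2 : c (2 * Real.pi) = c 0 - ((m * (2 * Real.pi) : ℝ) : ℂ) * I := by
      simp only [hcdef, e0, e1]
      push_cast
      ring
    rw [e2]
    simp only [sub_im, mul_im, ofReal_re, ofReal_im, I_re, I_im, mul_zero, mul_one, zero_mul, add_zero]
    rw [sub_div, mul_div_cancel_right₀ _ Real.two_pi_pos.ne']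
  by_contra hm
  have hm1 : (1 : ℝ) ≤ m := by exact_mod_cast Nat.one_le_iff_ne_zero.2 hm
  have hg : Continuous fun θ : ℝ => (c θ).im / (2 * Real.pi) :=
    (continuous_im.comp hcc).div_const _
  obtain ⟨θ, hθ⟩ := mem_range_of_exists_le_of_exists_ge hg
    (c := (c 0).im / (2 * Real.pi) - 1 / 2) ⟨2 * Real.pi, by rw [hper]; linarith⟩
    ⟨0, by linarith⟩
  obtain ⟨n, hn⟩ := hint θ
  obtain ⟨n0, hn0⟩ := hint 0
  simp only at hθ
  rw [hn, hn0] at hθ
  have h1 : (2 * n : ℝ) = 2 * n0 - 1 := by linarith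
  have h2 : 2 * n = 2 * n0 - 1 := by exact_mod_cast h1
  omega

/-! ## Piece [HD-D6] (this block) -/

/-- PROOF.  For `q ∈ frontier K`, `a, b ∈ interior K`: `(q - b)/(q - a) ∈ slitPlane`; otherwise
`q - b = -t (q - a)`, `t ≥ 0`, so `q = (b + t a)/(1 + t)` is in the (convex) interior. -/
theorem div_mem_slitPlane (hc : Convex ℝ K) {a b q : ℂ} (ha : a ∈ interior K)
    (hb : b ∈ interior K) (hq : q ∈ frontier K) : (q - b) / (q - a) ∈ slitPlane := by
  have hqi : q ∉ interior K := fun h => hq.2 h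
  have hqa : q - a ≠ 0 := by
    intro h
    rw [sub_eq_zero] at h
    exact hqi (h ▸ ha)
  by_contra hcon
  rw [mem_slitPlane_iff, not_or, not_lt, not_not] at hcon
  obtain ⟨h1, h2⟩ := hcon
  set t : ℝ := -((q - b) / (q - a)).re with ht
  have ht0 : 0 ≤ t := by linarith
  have h3 : (q - b) / (q - a) = ((-t : ℝ) : ℂ) := by
    apply Complex.ext
    · rw [ofReal_re, ht, neg_neg]
    · rw [ofReal_im, h2]
  rw [div_eq_iff hqa] at h3
  have h4 : (1 + (t : ℂ)) ≠ 0 := by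
    have : ((1 + t : ℝ) : ℂ) ≠ 0 := by
      rw [Ne, ofReal_eq_zero]
      linarith
    push_cast at this
    exact this
  have h5 : q = (1 / (1 + t) : ℝ) • b + (t / (1 + t) : ℝ) • a := by
    simp only [real_smul]
    push_cast
    field_simp
    push_cast at h3
    linear_combination h3
  apply hqi
  rw [h5]
  refine hc.interior hb ha (by positivity) (by positivity) ?_
  field_simp

/-- Factorisation.
PROOF.  The zeros of `f` in `K` are in the open set `interior K` and form a closed subset of the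
compact `K`; `f` is analytic and not identically `0` on the connected `interior K` (else `f = 0` on
`K = closure (interior K)`), so the zero set is finite and all orders are finite.  Induction on the
number of zeros: for a zero `b` of order `n`, `f = (q - b)^n g` with `g` continuous on `K`, analytic
in the interior, `g b ≠ 0`. -/
theorem exists_factor (hK : IsCompact K) (hc : Convex ℝ K) (hi : (interior K).Nonempty) {f : ℂ → ℂ}
    (hf : ContinuousOn f K) (hd : DifferentiableOn ℂ f (interior K))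
    (h0 : ∀ q ∈ frontier K, f q ≠ 0) : ∃ (s : Multiset ℂ) (g : ℂ → ℂ), (∀ b ∈ s, b ∈ interior K) ∧
      ContinuousOn g K ∧ (∀ q ∈ K, g q ≠ 0) ∧
      ∀ q ∈ K, f q = (s.map fun b => q - b).prod * g q := by
  have hint : ∀ {f : ℂ → ℂ}, (∀ q ∈ frontier K, f q ≠ 0) → ∀ q ∈ K, f q = 0 → q ∈ interior K := by
    intro f h0 q hq h
    by_contra hn
    exact h0 q ⟨subset_closure hq, hn⟩ h
  have hfr : (frontier K).Nonempty := by
    rw [nonempty_frontier_iff]
    exact ⟨hi.mono interior_subset, fun h => noncompact_univ ℂ (h ▸ hK)⟩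
  have hcl : K ⊆ closure (interior K) := by
    rw [hc.closure_interior_eq_closure_of_nonempty_interior hi]
    exact subset_closure
  have hnz : ∀ {f : ℂ → ℂ}, ContinuousOn f K → (∀ q ∈ frontier K, f q ≠ 0) →
      ¬ ∀ q ∈ interior K, f q = 0 := by
    intro f hf h0 h
    obtain ⟨q, hq⟩ := hfr
    have hqK : q ∈ K := hK.isClosed.frontier_subset hq
    refine h0 q hq ?_
    have h1 : q ∈ closure (interior K) := hcl hqK
    have h2 : ContinuousWithinAt f (interior K) q := (hf q hqK).mono interior_subset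
    have h3 := h2.mem_closure_image h1
    have h4 : f '' interior K ⊆ {0} := by
      rintro _ ⟨x, hx, rfl⟩
      exact h x hx
    have h5 := closure_mono h4 h3
    rwa [closure_singleton, mem_singleton_iff] at h5
  have hfin : ∀ {f : ℂ → ℂ}, ContinuousOn f K → DifferentiableOn ℂ f (interior K) →
      (∀ q ∈ frontier K, f q ≠ 0) → {q ∈ K | f q = 0}.Finite := by
    intro f hf hd h0
    by_contra hinf
    have hZK : {q ∈ K | f q = 0} ⊆ K := fun q hq => hq.1
    obtain ⟨z, hzK, hz⟩ := Set.Infinite.exists_accPt_of_subset_isCompact hinf hK hZK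
    have hfr' : ∃ᶠ w in 𝓝[≠] z, w ∈ {q ∈ K | f q = 0} := accPt_iff_frequently_nhdsNE.1 hz
    have hfz : f z = 0 := by
      have h1 : z ∈ closure {q ∈ K | f q = 0} := by
        rw [mem_closure_iff_frequently]
        exact hfr'.filter_mono nhdsWithin_le_nhds
      have h2 : ContinuousWithinAt f {q ∈ K | f q = 0} z := (hf z hzK).mono hZK
      have h3 := h2.mem_closure_image h1
      have h4 : f '' {q ∈ K | f q = 0} ⊆ {0} := by
        rintro _ ⟨x, hx, rfl⟩
        exact hx.2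
      have h5 := closure_mono h4 h3
      rwa [closure_singleton, mem_singleton_iff] at h5
    have hzi : z ∈ interior K := hint h0 z hzK hfz
    have han : AnalyticOnNhd ℂ f (interior K) := hd.analyticOnNhd isOpen_interior
    have := han.eqOn_zero_of_preconnected_of_frequently_eq_zero hc.interior.isPreconnected hzi
      (hfr'.mono fun w hw => hw.2)
    exact hnz hf h0 fun q hq => this hq
  obtain ⟨n, hn⟩ : ∃ n, {q ∈ K | f q = 0}.ncard = n := ⟨_, rfl⟩
  induction n generalizing f with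
  | zero =>
    have h1 : {q ∈ K | f q = 0} = ∅ := (Set.ncard_eq_zero (hfin hf hd h0)).1 hn
    refine ⟨0, f, by simp, hf, fun q hq h => ?_, fun q _ => by simp⟩
    have : q ∈ {q ∈ K | f q = 0} := ⟨hq, h⟩
    rw [h1] at this
    exact this
  | succ n ih =>
    have hne : {q ∈ K | f q = 0}.Nonempty := by
      rw [← Set.ncard_pos (hfin hf hd h0), hn]
      exact Nat.succ_pos n
    obtain ⟨b, hbK, hb⟩ := hne
    have hbi : b ∈ interior K := hint h0 b hbK hb
    have han : AnalyticOnNhd ℂ f (interior K) := hd.analyticOnNhd isOpen_interior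
    have hev : ¬ ∀ᶠ z in 𝓝 b, f z = 0 := by
      intro h
      exact hnz hf h0 fun q hq =>
        han.eqOn_zero_of_preconnected_of_eventuallyEq_zero hc.interior.isPreconnected hbi h hq
    obtain ⟨m, g0, hg0, hg0b, hfg⟩ := ((han b hbi).exists_eventuallyEq_pow_smul_nonzero_iff).2 hev
    have hm : m ≠ 0 := by
      rintro rfl
      have := hfg.self_of_nhds
      rw [hb, pow_zero, one_smul] at this
      exact hg0b this.symm
    classical
    set g : ℂ → ℂ := fun q => if q = b then g0 b else f q / (q - b) ^ m with hgdef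
    have hgb : g b = g0 b := by simp [hgdef]
    have hgne : ∀ q, q ≠ b → g q = f q / (q - b) ^ m := fun q hq => by simp [hgdef, hq]
    have hgg0 : g =ᶠ[𝓝 b] g0 := by
      filter_upwards [hfg] with z hz
      by_cases h : z = b
      · rw [h, hgb]
      · rw [hgne z h, hz, smul_eq_mul, mul_div_cancel_left₀ _ (pow_ne_zero _ (sub_ne_zero.2 h))]
    have hgana : AnalyticAt ℂ g b := hg0.congr hgg0.symm
    have hfac : ∀ q, f q = (q - b) ^ m * g q := by
      intro q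
      by_cases h : q = b
      · rw [h, hb, sub_self, zero_pow hm, zero_mul]
      · rw [hgne q h, mul_div_cancel₀ _ (pow_ne_zero _ (sub_ne_zero.2 h))]
    have hgeq : ∀ q, q ≠ b → g =ᶠ[𝓝 q] fun q => f q / (q - b) ^ m := by
      intro q hq
      filter_upwards [isOpen_ne.mem_nhds hq] with z hz
      exact hgne z hz
    have hgc : ContinuousOn g K := by
      intro q hq
      by_cases h : q = b
      · rw [h]
        exact hgana.continuousAt.continuousWithinAt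
      · have h1 : ContinuousWithinAt (fun q => f q / (q - b) ^ m) K q :=
          (hf q hq).div (by fun_prop) (pow_ne_zero _ (sub_ne_zero.2 h))
        exact h1.congr_of_eventuallyEq ((hgeq q h).filter_mono nhdsWithin_le_nhds) (hgne q h)
    have hgd : DifferentiableOn ℂ g (interior K) := by
      intro q hq
      by_cases h : q = b
      · rw [h]
        exact hgana.differentiableAt.differentiableWithinAt
      · have h1 : DifferentiableWithinAt ℂ (fun q => f q / (q - b) ^ m) (interior K) q :=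
          (hd q hq).div (by fun_prop) (pow_ne_zero _ (sub_ne_zero.2 h))
        exact h1.congr_of_eventuallyEq ((hgeq q h).filter_mono nhdsWithin_le_nhds) (hgne q h)
    have hgf : ∀ q ∈ frontier K, g q ≠ 0 := by
      intro q hq h
      exact h0 q hq (by rw [hfac q, h, mul_zero])
    have hset : {q ∈ K | g q = 0} = {q ∈ K | f q = 0} \ {b} := by
      ext q
      constructor
      · rintro ⟨h1, h2⟩
        refine ⟨⟨h1, by rw [hfac q, h2, mul_zero]⟩, ?_⟩
        rintro rfl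
        exact hg0b (hgb ▸ h2)
      · rintro ⟨⟨h1, h2⟩, h3⟩
        refine ⟨h1, ?_⟩
        have h4 := hfac q
        rw [h2] at h4
        rcases mul_eq_zero.1 h4.symm with h5 | h5
        · exact absurd (sub_eq_zero.1 (pow_eq_zero_iff hm |>.1 h5)) h3
        · exact h5
    have hcard : {q ∈ K | g q = 0}.ncard = n := by
      rw [hset, Set.ncard_sdiff_singleton_of_mem (show b ∈ {q ∈ K | f q = 0} from ⟨hbK, hb⟩), hn]
      rfl
    obtain ⟨s, g', hs, hg'c, hg'0, hg'⟩ := ih hgc hgd hgf hcard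
    refine ⟨Multiset.replicate m b + s, g', ?_, hg'c, hg'0, ?_⟩
    · intro c hcs
      rcases Multiset.mem_add.1 hcs with h | h
      · rw [Multiset.eq_of_mem_replicate h]
        exact hbi
      · exact hs c h
    · intro q hq
      rw [hfac q, hg' q hq, Multiset.map_add, Multiset.prod_add, Multiset.map_replicate,
        Multiset.prod_replicate, mul_assoc]

/-- PROOF.  `exists_factor`; `g = exp ℓ_g` on `K` (`exists_log_convex`); with `a ∈ interior K` and
`m = s.card`, on the frontier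
`(q - a)^m = exp (L q - ℓ_g q - ∑_{b ∈ s} log ((q - b)/(q - a)))` (`div_mem_slitPlane`), so `m = 0`
by `no_log_pow` and `f = g ≠ 0`. -/
theorem ne_zero_of_log (hK : IsCompact K) (hc : Convex ℝ K) (hi : (interior K).Nonempty)
    {f L : ℂ → ℂ} (hf : ContinuousOn f K) (hd : DifferentiableOn ℂ f (interior K))
    (hL : ContinuousOn L (frontier K)) (h : ∀ q ∈ frontier K, exp (L q) = f q) :
    ∀ q ∈ K, f q ≠ 0 := by
  obtain ⟨s, g, hs, hgc, hg0, hfac⟩ := exists_factor hK hc hi hf hd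
    (fun q hq => by rw [← h q hq]; exact exp_ne_zero _)
  obtain ⟨a, ha⟩ := hi
  have hfK : frontier K ⊆ K := hK.isClosed.frontier_subset
  obtain ⟨ℓg, hℓc, hℓ⟩ := exists_log_convex hK hc (interior_subset ha) hgc hg0
  have hlam : ∀ s : Multiset ℂ, (∀ b ∈ s, b ∈ interior K) → ∃ lam : ℂ → ℂ,
      ContinuousOn lam (frontier K) ∧ ∀ q ∈ frontier K,
        exp (lam q) * (q - a) ^ s.card = (s.map fun b => q - b).prod := by
    intro s
    induction s using Multiset.induction_on with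
    | empty =>
      intro _
      exact ⟨fun _ => 0, continuousOn_const, fun q _ => by simp⟩
    | cons b s ih =>
      intro hb
      obtain ⟨lam, h1, h2⟩ := ih fun c hcs => hb c (Multiset.mem_cons_of_mem hcs)
      have hbi := hb b (Multiset.mem_cons_self b s)
      have hqa : ∀ q ∈ frontier K, q - a ≠ 0 := by
        intro q hq h
        rw [sub_eq_zero] at h
        exact hq.2 (h ▸ ha)
      refine ⟨fun q => lam q + Complex.log ((q - b) / (q - a)), ?_, ?_⟩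
      · refine h1.add ?_
        refine ContinuousOn.clog ?_ fun q hq => div_mem_slitPlane hc ha hbi hq
        exact ContinuousOn.div (by fun_prop) (by fun_prop) hqa
      · intro q hq
        have h3 : (q - b) / (q - a) ≠ 0 := slitPlane_ne_zero (div_mem_slitPlane hc ha hbi hq)
        have h4 := hqa q hq
        rw [Multiset.map_cons, Multiset.prod_cons, Multiset.card_cons, ← h2 q hq, Complex.exp_add,
          Complex.exp_log h3, pow_succ]
        field_simp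
  obtain ⟨lam, hl1, hl2⟩ := hlam s hs
  have hm : s.card = 0 := by
    refine no_log_pow hK hc ha (ℓ := fun q => L q - ℓg q - lam q)
      ((hL.sub (hℓc.mono hfK)).sub hl1) fun q hq => ?_
    rw [Complex.exp_sub, Complex.exp_sub, h q hq, hℓ q (hfK hq), hfac q (hfK hq), ← hl2 q hq]
    have h3 := hg0 q (hfK hq)
    have h4 := Complex.exp_ne_zero (lam q)
    field_simp
  rw [Multiset.card_eq_zero] at hm
  intro q hq
  rw [hfac q hq, hm, Multiset.map_zero, Multiset.prod_zero, one_mul]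
  exact hg0 q hq

/-- Maximum principle on `K`.
PROOF.  `Complex.norm_le_of_forall_mem_frontier_norm_le` with `U = interior K`;
`closure (interior K) = K`, `frontier (interior K) = frontier K` for convex compact `K` with interior
points (`Convex.closure_interior_eq_closure_of_nonempty_interior`). -/
theorem max_principle (hK : IsCompact K) (hc : Convex ℝ K) (hi : (interior K).Nonempty)
    {f : ℂ → ℂ} (hf : ContinuousOn f K) (hd : DifferentiableOn ℂ f (interior K)) {C : ℝ}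
    (h : ∀ q ∈ frontier K, ‖f q‖ ≤ C) : ∀ q ∈ K, ‖f q‖ ≤ C := by
  intro q hq
  have hcl : closure (interior K) = K := by
    rw [hc.closure_interior_eq_closure_of_nonempty_interior hi, hK.isClosed.closure_eq]
  refine Complex.norm_le_of_forall_mem_frontier_norm_le (U := interior K)
    (hK.isBounded.subset interior_subset) ⟨hd, by rw [hcl]; exact hf⟩
    (fun z hz => h z (frontier_interior_subset hz)) (by rw [hcl]; exact hq)

end SokamHD

end

/-! ### Lib_MP_af4de1_hd.DS -/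

section
namespace SokamF
end SokamF
/-! # Part (d): extension of the smallest zero from the frontier to `K` -/

namespace SokamHD

open Complex SokamF Filter Topology Metric Set

variable {K : Set ℂ} {c : ℕ → ℂ → ℂ} {w L : ℂ → ℂ}

/-! ## Piece [HD-D9] (this file) -/

private theorem cont_hds {α : Type*} [TopologicalSpace α] {s : Set α} {X : Set ℂ} {c : ℕ → ℂ → ℂ}
    (h : Ent X c) {f g : α → ℂ} (hf : ContinuousOn f s) (hg : ContinuousOn g s)
    (hX : ∀ a ∈ s, f a ∈ X) : ContinuousOn (fun a => S c (f a) (g a)) s := by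
  have h1 : ContinuousOn ((fun p : ℂ × ℂ => S c p.1 p.2) ∘ fun a => (f a, g a)) s :=
    ContinuousOn.comp h.continuousOn (hf.prodMk hg) fun a ha => ⟨hX a ha, mem_univ _⟩
  exact h1

/-- A continuous logarithm of the quotient on a compact set. -/
private theorem log_quot_hds {X : Set ℂ} (hX : IsCompact X) {c : ℕ → ℂ → ℂ} {w : ℂ → ℂ} (hc : Ent X c)
    (h1 : ∀ q ∈ X, c 0 q = 1) (hw : ContinuousOn w X) (h0 : ∀ q ∈ X, S c q (w q) = 0)
    (hφ : ∀ q ∈ X, ∀ u : ℂ, ‖u‖ ≤ 1 → S (quot c w) q (w q * u) ≠ 0) {u : ℂ} (hu : ‖u‖ ≤ 1) :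
    ∃ ℓ : ℂ → ℂ, ContinuousOn ℓ X ∧ ∀ q ∈ X, exp (ℓ q) = S (quot c w) q (w q * u) := by
  obtain ⟨B, hB⟩ := hX.exists_bound_of_continuousOn hw
  have hQ : Ent X (quot c w) := hc.quot hw hB
  have hcont : ContinuousOn (fun p : ℂ × ℝ => S (quot c w) p.1 (w p.1 * (p.2 * u)))
      (X ×ˢ Icc (0 : ℝ) 1) := by
    refine cont_hds hQ continuousOn_fst ?_ fun p hp => hp.1
    refine ContinuousOn.mul ?_ ?_
    · exact hw.comp continuousOn_fst fun p hp => hp.1
    · exact (by fun_prop : Continuous fun p : ℂ × ℝ => (p.2 : ℂ) * u).continuousOn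
  obtain ⟨ℓ, hℓ, he⟩ := exists_log hX (φ := fun q t => S (quot c w) q (w q * (t * u))) hcont
    (fun q hq t ht => by
      refine hφ q hq _ ?_
      rw [norm_mul, Complex.norm_real, Real.norm_eq_abs, abs_of_nonneg ht.1]
      exact mul_le_one₀ ht.2 (norm_nonneg _) hu)
    (fun q hq => by
      show S (quot c w) q (w q * (((0 : ℝ) : ℂ) * u)) = 1
      rw [Complex.ofReal_zero, zero_mul, mul_zero, S_zero, hc.quot_zero hq (h0 q hq), h1 q hq])
  refine ⟨ℓ, hℓ, fun q hq => ?_⟩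
  rw [he q hq]
  show S (quot c w) q (w q * (((1 : ℝ) : ℂ) * u)) = _
  rw [Complex.ofReal_one, one_mul]

private theorem ent_mono_hds {X Y : Set ℂ} {c : ℕ → ℂ → ℂ} (h : Ent X c) (hY : Y ⊆ X) : Ent Y c :=
  ⟨fun n => (h.1 n).mono hY, fun R hR => by
    obtain ⟨C, hC, hb⟩ := h.2 R hR
    exact ⟨C, hC, fun n q hq => hb n q (hY hq)⟩⟩

private theorem w_ne_hds {X : Set ℂ} {c : ℕ → ℂ → ℂ} {w : ℂ → ℂ}
    (h1 : ∀ q ∈ X, c 0 q = 1) (h0 : ∀ q ∈ X, S c q (w q) = 0) {q : ℂ} (hq : q ∈ X) : w q ≠ 0 := by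
  intro h
  have h2 := h0 q hq
  rw [h, S_zero, h1 q hq] at h2
  exact one_ne_zero h2

/-- PROOF.  On the frontier `φ(q) := S (quot c w) q (w q) ≠ 0`, `φ(q) = exp (ℓ q)` by `exists_log`
(`φ q t := S (quot c w) q (t w q)`, value `quot c w 0 q = c 0 q = 1` at `t = 0`).  For `n ≥ N`
(`rcp_tendsto`, `ε = 1/2`): `rcp c n q = exp (-n (L q + πi) - ℓ q + log (1 + δ))`,
`δ = rcp c n q w^n φ - 1`, `‖δ‖ ≤ 1/2` (`w = exp (L q + πi)`).  So `rcp c n` has a continuous logarithm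
on the frontier; `ne_zero_of_log`. -/
theorem rcp_ne_zero (hK : IsCompact K) (hcv : Convex ℝ K) (hi : (interior K).Nonempty)
    (hc : Ent K c) (hcd : ∀ n, DifferentiableOn ℂ (c n) (interior K)) (h1 : ∀ q ∈ K, c 0 q = 1)
    (hw : ContinuousOn w (frontier K)) (h0 : ∀ q ∈ frontier K, S c q (w q) = 0)
    (hφ : ∀ q ∈ frontier K, ∀ u : ℂ, ‖u‖ ≤ 1 → S (quot c w) q (w q * u) ≠ 0)
    (hL : ContinuousOn L (frontier K)) (hLw : ∀ q ∈ frontier K, exp (L q) = - w q) :
    ∃ N : ℕ, ∀ n ≥ N, ∀ q ∈ K, rcp c n q ≠ 0 := by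
  have hsub : frontier K ⊆ K := hK.isClosed.frontier_subset
  have hX : IsCompact (frontier K) := hK.of_isClosed_subset isClosed_frontier hsub
  have hcX : Ent (frontier K) c := ent_mono_hds hc hsub
  have h1X : ∀ q ∈ frontier K, c 0 q = 1 := fun q hq => h1 q (hsub hq)
  obtain ⟨ℓ, hℓ, hℓe⟩ := log_quot_hds hX hcX h1X hw h0 hφ (u := 1) (by simp)
  obtain ⟨B, hB⟩ := hX.exists_bound_of_continuousOn hw
  have hQ : Ent (frontier K) (quot c w) := hcX.quot hw hB
  obtain ⟨N, hN⟩ := rcp_tendsto hX hcX h1X hw h0 hφ (ε := 1 / 2) (by norm_num)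
  refine ⟨N, fun n hn => ?_⟩
  have hrc : ContinuousOn (rcp c n) K := rcp_continuousOn hc.1 h1 n
  have hv : ContinuousOn (fun q => rcp c n q * w q ^ n * S (quot c w) q (w q)) (frontier K) := by
    refine ((hrc.mono hsub).mul (hw.pow n)).mul ?_
    exact cont_hds (f := fun q => q) hQ continuousOn_id hw fun q hq => hq
  have hsl : ∀ q ∈ frontier K, rcp c n q * w q ^ n * S (quot c w) q (w q) ∈ slitPlane := by
    intro q hq
    have h2 := hN n hn q hq
    have h3 : 1 + (rcp c n q * w q ^ n * S (quot c w) q (w q) - 1) ∈ slitPlane :=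
      mem_slitPlane_of_norm_lt_one (lt_of_le_of_lt h2 (by norm_num))
    rwa [add_sub_cancel] at h3
  refine ne_zero_of_log hK hcv hi hrc
    (rcp_differentiableOn hcd (fun q hq => h1 q (interior_subset hq)) n)
    (L := fun q => Complex.log (rcp c n q * w q ^ n * S (quot c w) q (w q)) -
      n * (L q + Real.pi * I) - ℓ q) ?_ ?_
  · refine ((hv.clog hsl).sub ?_).sub hℓ
    exact continuousOn_const.mul (hL.add continuousOn_const)
  · intro q hq
    have hw0 : w q ≠ 0 := w_ne_hds h1X h0 hq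
    have hφ0 : S (quot c w) q (w q) ≠ 0 := by
      have := hφ q hq 1 (by simp)
      rwa [mul_one] at this
    have e1 : exp (L q + Real.pi * I) = w q := by
      rw [exp_add, hLw q hq, exp_pi_mul_I]
      ring
    have e2 := hℓe q hq
    rw [mul_one] at e2
    rw [exp_sub, exp_sub, exp_log (slitPlane_ne_zero (hsl q hq)), exp_nat_mul, e1, e2]
    field_simp

/-- PROOF.  `r n = rcp c n / rcp c (n+1)` (`n ≥ N`) is continuous on `K`, holomorphic inside; on the
frontier `r n = w (1+δ_n)/(1+δ_{n+1}) → w` uniformly (`w` bounded there), so `r n` is uniformly Cauchy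
on the frontier, hence on `K` (`max_principle`); let `W` be the limit: continuous on `K`,
holomorphic inside (`TendstoLocallyUniformlyOn.differentiableOn`), `= w` on the frontier.  In the same
way `1 / r n` is bounded on the frontier by a constant `C`, so `‖r n‖ ≥ 1/C` on `K` and `W ≠ 0`.
`q ↦ S c q (W q)` is continuous on `K` (`Ent.continuousOn`), holomorphic inside
(`Ent.differentiableOn`), `0` on the frontier, so `0` on `K` (`max_principle`). -/
theorem exists_W (hK : IsCompact K) (hcv : Convex ℝ K) (hi : (interior K).Nonempty)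
    (hc : Ent K c) (hcd : ∀ n, DifferentiableOn ℂ (c n) (interior K)) (h1 : ∀ q ∈ K, c 0 q = 1)
    (hw : ContinuousOn w (frontier K)) (h0 : ∀ q ∈ frontier K, S c q (w q) = 0)
    (hφ : ∀ q ∈ frontier K, ∀ u : ℂ, ‖u‖ ≤ 1 → S (quot c w) q (w q * u) ≠ 0)
    (hL : ContinuousOn L (frontier K)) (hLw : ∀ q ∈ frontier K, exp (L q) = - w q) :
    ∃ W : ℂ → ℂ, ContinuousOn W K ∧ DifferentiableOn ℂ W (interior K) ∧
      (∀ q ∈ frontier K, W q = w q) ∧ ∀ q ∈ K, W q ≠ 0 ∧ S c q (W q) = 0 := by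
  have hsub : frontier K ⊆ K := hK.isClosed.frontier_subset
  have hX : IsCompact (frontier K) := hK.of_isClosed_subset isClosed_frontier hsub
  have hcX : Ent (frontier K) c := ent_mono_hds hc hsub
  have h1X : ∀ q ∈ frontier K, c 0 q = 1 := fun q hq => h1 q (hsub hq)
  have hwne : ∀ q ∈ frontier K, w q ≠ 0 := fun q hq => w_ne_hds h1X h0 hq
  have hφ0 : ∀ q ∈ frontier K, S (quot c w) q (w q) ≠ 0 := by
    intro q hq
    have := hφ q hq 1 (by simp)
    rwa [mul_one] at this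
  obtain ⟨B0, hB0⟩ := hX.exists_bound_of_continuousOn hw
  obtain ⟨B1, hB1⟩ := hX.exists_bound_of_continuousOn (hw.inv₀ hwne)
  obtain ⟨B, hBpos, hB, hBi⟩ : ∃ B : ℝ, 0 < B ∧ (∀ q ∈ frontier K, ‖w q‖ ≤ B) ∧
      ∀ q ∈ frontier K, ‖(w q)⁻¹‖ ≤ B := by
    refine ⟨|B0| + |B1| + 1, by positivity, fun q hq => ?_, fun q hq => ?_⟩
    · have := (hB0 q hq).trans (le_abs_self B0)
      linarith [abs_nonneg B1]
    · have h3 : ‖(w q)⁻¹‖ ≤ |B1| := (hB1 q hq).trans (le_abs_self B1)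
      linarith [abs_nonneg B0]
  obtain ⟨N0, hN0⟩ := rcp_ne_zero hK hcv hi hc hcd h1 hw h0 hφ hL hLw
  have hrc : ∀ n, ContinuousOn (rcp c n) K := rcp_continuousOn hc.1 h1
  have hrd : ∀ n, DifferentiableOn ℂ (rcp c n) (interior K) :=
    rcp_differentiableOn hcd (fun q hq => h1 q (interior_subset hq))
  obtain ⟨r, hr⟩ : ∃ r : ℕ → ℂ → ℂ, r = fun n q => rcp c n q / rcp c (n + 1) q := ⟨_, rfl⟩
  have rc : ∀ n ≥ N0, ContinuousOn (r n) K := by
    intro n hn
    rw [hr]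
    exact (hrc n).div (hrc (n + 1)) fun q hq => hN0 (n + 1) (by omega) q hq
  have rd : ∀ n ≥ N0, DifferentiableOn ℂ (r n) (interior K) := by
    intro n hn
    rw [hr]
    exact (hrd n).div (hrd (n + 1)) fun q hq => hN0 (n + 1) (by omega) q (interior_subset hq)
  -- on the frontier
  have key : ∀ n, ∀ q ∈ frontier K, ∀ ε : ℝ, ε ≤ 1 / 2 →
      ‖rcp c n q * w q ^ n * S (quot c w) q (w q) - 1‖ ≤ ε →
      ‖rcp c (n + 1) q * w q ^ (n + 1) * S (quot c w) q (w q) - 1‖ ≤ ε →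
      ‖r n q - w q‖ ≤ 4 * B * ε ∧ ‖(r n q)⁻¹‖ ≤ 3 * B := by
    intro n q hq ε hε ha hb
    obtain ⟨a, hae⟩ : ∃ a, a = rcp c n q * w q ^ n * S (quot c w) q (w q) := ⟨_, rfl⟩
    obtain ⟨b, hbe⟩ : ∃ b, b = rcp c (n + 1) q * w q ^ (n + 1) * S (quot c w) q (w q) := ⟨_, rfl⟩
    rw [← hae] at ha
    rw [← hbe] at hb
    have hw0 := hwne q hq
    have hf0 := hφ0 q hq
    have na : 1 / 2 ≤ ‖a‖ := by
      have h2 := norm_sub_norm_le (1 : ℂ) (1 - a)
      rw [norm_one, sub_sub_cancel, norm_sub_rev 1 a] at h2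
      linarith
    have nb : 1 / 2 ≤ ‖b‖ := by
      have h2 := norm_sub_norm_le (1 : ℂ) (1 - b)
      rw [norm_one, sub_sub_cancel, norm_sub_rev 1 b] at h2
      linarith
    have nb2 : ‖b‖ ≤ 3 / 2 := by
      have h2 := norm_add_le (b - 1) 1
      rw [sub_add_cancel, norm_one] at h2
      linarith
    have a0 : a ≠ 0 := norm_pos_iff.1 (by linarith)
    have b0 : b ≠ 0 := norm_pos_iff.1 (by linarith)
    have ea : rcp c n q = a / (w q ^ n * S (quot c w) q (w q)) := by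
      rw [hae]
      field_simp
    have eb : rcp c (n + 1) q = b / (w q ^ (n + 1) * S (quot c w) q (w q)) := by
      rw [hbe]
      field_simp
    have er : r n q = w q * (a / b) := by
      rw [hr]
      show rcp c n q / rcp c (n + 1) q = _
      rw [ea, eb, pow_succ]
      field_simp
    constructor
    · have e2 : r n q - w q = w q * ((a - 1) - (b - 1)) / b := by
        rw [er]
        field_simp
        ring
      rw [e2, norm_div, norm_mul, div_le_iff₀ (by linarith)]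
      have h3 : ‖(a - 1) - (b - 1)‖ ≤ 2 * ε := (norm_sub_le _ _).trans (by linarith)
      have h4 : ‖w q‖ * ‖(a - 1) - (b - 1)‖ ≤ B * (2 * ε) :=
        mul_le_mul (hB q hq) h3 (norm_nonneg _) hBpos.le
      have hε0 : 0 ≤ ε := (norm_nonneg _).trans ha
      have h5 : 4 * B * ε * (1 / 2) ≤ 4 * B * ε * ‖b‖ :=
        mul_le_mul_of_nonneg_left nb (by positivity)
      linarith
    · have e2 : (r n q)⁻¹ = (w q)⁻¹ * (b / a) := by
        rw [er]
        field_simp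
      rw [e2, norm_mul, norm_div]
      have h3 : ‖b‖ / ‖a‖ ≤ 3 := by
        rw [div_le_iff₀ (by linarith)]
        linarith
      calc ‖(w q)⁻¹‖ * (‖b‖ / ‖a‖) ≤ B * 3 :=
            mul_le_mul (hBi q hq) h3 (by positivity) hBpos.le
        _ = 3 * B := by ring
  have hfr : ∀ ε : ℝ, 0 < ε → ∃ N, ∀ n ≥ N, ∀ q ∈ frontier K, ‖r n q - w q‖ ≤ ε := by
    intro ε hε
    obtain ⟨N, hN⟩ := rcp_tendsto hX hcX h1X hw h0 hφ (ε := min (1 / 2) (ε / (4 * B)))
      (lt_min (by norm_num) (by positivity))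
    refine ⟨N, fun n hn q hq => ?_⟩
    have h2 := (key n q hq _ (min_le_left _ _) (hN n hn q hq) (hN (n + 1) (by omega) q hq)).1
    refine h2.trans ?_
    calc 4 * B * min (1 / 2) (ε / (4 * B)) ≤ 4 * B * (ε / (4 * B)) :=
          mul_le_mul_of_nonneg_left (min_le_right _ _) (by positivity)
      _ = ε := by field_simp
  have hinv : ∃ N ≥ N0, ∀ n ≥ N, ∀ q ∈ K, ‖(r n q)⁻¹‖ ≤ 3 * B := by
    obtain ⟨N, hN⟩ := rcp_tendsto hX hcX h1X hw h0 hφ (ε := 1 / 2) (by norm_num)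
    refine ⟨max N N0, le_max_right _ _, fun n hn => ?_⟩
    have hn1 : N ≤ n := (le_max_left _ _).trans hn
    have hn2 : N0 ≤ n := (le_max_right _ _).trans hn
    have r0 : ∀ q ∈ K, r n q ≠ 0 := by
      intro q hq
      rw [hr]
      exact div_ne_zero (hN0 n hn2 q hq) (hN0 (n + 1) (by omega) q hq)
    refine max_principle hK hcv hi ((rc n hn2).inv₀ r0)
      ((rd n hn2).inv fun q hq => r0 q (interior_subset hq)) fun q hq => ?_
    exact (key n q hq _ le_rfl (hN n hn1 q hq) (hN (n + 1) (by omega) q hq)).2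
  -- the limit
  have hcau : UniformCauchySeqOn r atTop K := by
    rw [Metric.uniformCauchySeqOn_iff]
    intro ε hε
    obtain ⟨N, hN⟩ := hfr (ε / 4) (by positivity)
    refine ⟨max N N0, fun m hm n hn q hq => ?_⟩
    have hm1 : N ≤ m := (le_max_left _ _).trans hm
    have hm2 : N0 ≤ m := (le_max_right _ _).trans hm
    have hn1 : N ≤ n := (le_max_left _ _).trans hn
    have hn2 : N0 ≤ n := (le_max_right _ _).trans hn
    have h2 := max_principle hK hcv hi (f := fun q => r m q - r n q) ((rc m hm2).sub (rc n hn2))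
      ((rd m hm2).sub (rd n hn2)) (C := ε / 2) (fun q hq => by
        have e : r m q - r n q = (r m q - w q) - (r n q - w q) := by ring
        rw [e]
        refine (norm_sub_le _ _).trans ?_
        have a1 := hN m hm1 q hq
        have a2 := hN n hn1 q hq
        linarith) q hq
    rw [dist_eq_norm]
    exact lt_of_le_of_lt h2 (by linarith)
  have hlim : ∀ q, ∃ l, q ∈ K → Tendsto (fun n => r n q) atTop (𝓝 l) := by
    intro q
    by_cases hq : q ∈ K
    · have h2 : CauchySeq fun n => r n q := hcau.cauchySeq hq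
      obtain ⟨l, hl⟩ := cauchySeq_tendsto_of_complete h2
      exact ⟨l, fun _ => hl⟩
    · exact ⟨0, fun h => absurd h hq⟩
  choose W hW using hlim
  have hu : TendstoUniformlyOn r W atTop K := hcau.tendstoUniformlyOn_of_tendsto fun q hq => hW q hq
  have hWc : ContinuousOn W K :=
    hu.continuousOn ((eventually_atTop.2 ⟨N0, fun n hn => rc n hn⟩).frequently)
  have hWd : DifferentiableOn ℂ W (interior K) :=
    (hu.mono interior_subset).tendstoLocallyUniformlyOn.differentiableOn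
      (eventually_atTop.2 ⟨N0, fun n hn => rd n hn⟩) isOpen_interior
  have hWw : ∀ q ∈ frontier K, W q = w q := by
    intro q hq
    refine tendsto_nhds_unique (hW q (hsub hq)) ?_
    rw [Metric.tendsto_atTop]
    intro ε hε
    obtain ⟨N, hN⟩ := hfr (ε / 2) (by positivity)
    refine ⟨N, fun n hn => ?_⟩
    rw [dist_eq_norm]
    exact lt_of_le_of_lt (hN n hn q hq) (by linarith)
  obtain ⟨BW, hBW⟩ := hK.exists_bound_of_continuousOn hWc
  refine ⟨W, hWc, hWd, hWw, fun q hq => ⟨?_, ?_⟩⟩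
  · obtain ⟨N, hN0', hN⟩ := hinv
    intro hW0
    have h2 : ∀ n ≥ N, 1 / (3 * B) ≤ ‖r n q‖ := by
      intro n hn
      have h3 := hN n hn q hq
      have h4 : r n q ≠ 0 := by
        rw [hr]
        exact div_ne_zero (hN0 n (by omega) q hq) (hN0 (n + 1) (by omega) q hq)
      have h5 : 0 < ‖r n q‖ := norm_pos_iff.2 h4
      rw [norm_inv] at h3
      rw [div_le_iff₀ (by positivity)]
      have h6 : ‖r n q‖⁻¹ * ‖r n q‖ ≤ 3 * B * ‖r n q‖ := mul_le_mul_of_nonneg_right h3 h5.le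
      rw [inv_mul_cancel₀ h5.ne'] at h6
      linarith
    have h3 : 1 / (3 * B) ≤ ‖W q‖ :=
      ge_of_tendsto (hW q hq).norm (eventually_atTop.2 ⟨N, h2⟩)
    rw [hW0, norm_zero] at h3
    have h4 : 0 < 1 / (3 * B) := by positivity
    linarith
  · have hg : ContinuousOn (fun q => S c q (W q)) K :=
      cont_hds (f := fun q => q) hc continuousOn_id hWc fun q hq => hq
    have hgd : DifferentiableOn ℂ (fun q => S c q (W q)) (interior K) :=
      Ent.differentiableOn isOpen_interior interior_subset hc hcd hWd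
        fun q hq => hBW q (interior_subset hq)
    have h2 := max_principle hK hcv hi hg hgd (C := 0) (fun q hq => by
      rw [hWw q hq, h0 q hq, norm_zero]) q hq
    exact norm_le_zero_iff.1 h2

/-- PROOF.  For fixed `u`, `‖u‖ ≤ 1`, the function `f q = S (quot c W) q (W q * u)` is continuous on
`K`, holomorphic in the interior (`Ent.quot`, `Ent.quot_differentiableOn`, `Ent.differentiableOn`).
On the frontier `quot c W n q = quot c w n q` (same value of `W` and `w` at `q`), `f = exp ℓ` with a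
continuous `ℓ` by `exists_log` (`φ q t = S (quot c w) q (w q * (t u))`, `φ q 0 = quot c w 0 q = 1`).
`ne_zero_of_log`. -/
theorem W_unique (hK : IsCompact K) (hcv : Convex ℝ K) (hi : (interior K).Nonempty)
    (hc : Ent K c) (hcd : ∀ n, DifferentiableOn ℂ (c n) (interior K)) (h1 : ∀ q ∈ K, c 0 q = 1)
    {W : ℂ → ℂ} (hW : ContinuousOn W K) (hWd : DifferentiableOn ℂ W (interior K))
    (h0 : ∀ q ∈ K, S c q (W q) = 0)
    (hφ : ∀ q ∈ frontier K, ∀ u : ℂ, ‖u‖ ≤ 1 → S (quot c W) q (W q * u) ≠ 0) :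
    ∀ q ∈ K, ∀ u : ℂ, ‖u‖ ≤ 1 → S (quot c W) q (W q * u) ≠ 0 := by
  intro q hq u hu
  have hsub : frontier K ⊆ K := hK.isClosed.frontier_subset
  have hX : IsCompact (frontier K) := hK.of_isClosed_subset isClosed_frontier hsub
  have hcX : Ent (frontier K) c := ent_mono_hds hc hsub
  obtain ⟨ℓ, hℓ, hℓe⟩ := log_quot_hds hX hcX (fun q hq => h1 q (hsub hq)) (hW.mono hsub)
    (fun q hq => h0 q (hsub hq)) hφ hu
  obtain ⟨B, hB⟩ := hK.exists_bound_of_continuousOn hW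
  have hQ : Ent K (quot c W) := hc.quot hW hB
  have hf : ContinuousOn (fun q => S (quot c W) q (W q * u)) K :=
    cont_hds (f := fun q => q) hQ continuousOn_id (hW.mul continuousOn_const) fun q hq => hq
  have hfd : DifferentiableOn ℂ (fun q => S (quot c W) q (W q * u)) (interior K) := by
    refine Ent.differentiableOn (W := fun q => W q * u) (B := B) isOpen_interior interior_subset hQ
      (fun n => Ent.quot_differentiableOn isOpen_interior interior_subset hc hcd hWd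
        (fun q hq => hB q (interior_subset hq)) n) (hWd.mul (differentiableOn_const u)) ?_
    intro q hq
    rw [norm_mul]
    have h2 := hB q (interior_subset hq)
    calc ‖W q‖ * ‖u‖ ≤ ‖W q‖ * 1 := mul_le_mul_of_nonneg_left hu (norm_nonneg _)
      _ ≤ B := by rw [mul_one]; exact h2
  exact ne_zero_of_log hK hcv hi hf hfd hℓ hℓe q hq

end SokamHD

end

/-! ### Lib_MP_af4de1_hd.DMin -/

section
namespace SokamF
end SokamF
/-! # Part (d): the unique smallest zero depends continuously on `q` -/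

namespace SokamHD

open Complex SokamF Filter Topology Metric Set

/-! ## Piece [HD-D11] (this file) -/

private theorem unif_dmin {X : Set ℂ} {c : ℕ → ℂ → ℂ} (hX : IsCompact X) (hc : Ent X c)
    {q₀ : ℂ} (hq₀ : q₀ ∈ X) {T : Set ℂ} (hT : IsCompact T) {m : ℝ} (hm : 0 < m) :
    ∀ᶠ q in 𝓝[X] q₀, ∀ ζ ∈ T, ‖S c q ζ - S c q₀ ζ‖ < m := by
  have hcont : ContinuousOn (fun p : ℂ × ℂ => S c p.1 p.2) (X ×ˢ T) :=
    hc.continuousOn.mono (prod_mono subset_rfl (subset_univ T))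
  have huc := (hX.prod hT).uniformContinuousOn_of_continuous hcont
  obtain ⟨δ, hδ, h⟩ := Metric.uniformContinuousOn_iff.1 huc m hm
  filter_upwards [self_mem_nhdsWithin, mem_nhdsWithin_of_mem_nhds (Metric.ball_mem_nhds q₀ hδ)]
    with q hq hqb ζ hζ
  have h1 := h (q, ζ) ⟨hq, hζ⟩ (q₀, ζ) ⟨hq₀, hζ⟩ (by
    rw [Prod.dist_eq, dist_self, max_eq_left dist_nonneg]
    exact hqb)
  rwa [dist_eq_norm] at h1

private theorem bound_dmin {X : Set ℂ} {c : ℕ → ℂ → ℂ} (hc : Ent X c)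
    {q₀ : ℂ} (hq₀ : q₀ ∈ X) {T : Set ℂ} (hT : IsCompact T) (h0 : ∀ ζ ∈ T, S c q₀ ζ ≠ 0) :
    ∃ m : ℝ, 0 < m ∧ ∀ ζ ∈ T, m ≤ ‖S c q₀ ζ‖ := by
  rcases T.eq_empty_or_nonempty with rfl | hne
  · exact ⟨1, one_pos, fun ζ hζ => absurd hζ (notMem_empty ζ)⟩
  · obtain ⟨x, hx, hmin⟩ := hT.exists_isMinOn hne
      ((hc.differentiable hq₀).continuous.norm.continuousOn (s := T))
    exact ⟨‖S c q₀ x‖, norm_pos_iff.2 (h0 x hx), fun ζ hζ => hmin hζ⟩

private theorem isolated_dmin {X : Set ℂ} {c : ℕ → ℂ → ℂ} (hc : Ent X c)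
    (h1 : ∀ q ∈ X, c 0 q = 1) {q₀ : ℂ} (hq₀ : q₀ ∈ X) (ζ₀ : ℂ) :
    ∃ r : ℝ, 0 < r ∧ ∀ ζ, ζ ≠ ζ₀ → ‖ζ - ζ₀‖ < r → S c q₀ ζ ≠ 0 := by
  have hd := hc.differentiable hq₀
  have han : AnalyticOnNhd ℂ (S c q₀) univ := hd.differentiableOn.analyticOnNhd isOpen_univ
  rcases (han ζ₀ (mem_univ _)).eventually_eq_zero_or_eventually_ne_zero with h | h
  · exfalso
    have h2 : S c q₀ = fun _ => 0 :=
      han.eq_of_eventuallyEq (g := fun _ => (0 : ℂ)) (fun _ _ => analyticAt_const) h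
    have h3 := congrFun h2 0
    rw [S_zero, h1 q₀ hq₀] at h3
    exact one_ne_zero h3
  · rw [eventually_nhdsWithin_iff, Metric.eventually_nhds_iff] at h
    obtain ⟨r, hr, h⟩ := h
    exact ⟨r, hr, fun ζ hne hζ => h (by rwa [dist_eq_norm]) hne⟩

/-- Zeros persist.
PROOF.  Zeros of `S c q₀` are isolated (`S c q₀` is entire, value `1` at `0`): choose `0 < ε' ≤ ε`
with `S c q₀ ≠ 0` on the sphere `‖ζ - ζ₀‖ = ε'`, `m` the minimum of `‖S c q₀‖` there.  By uniform
continuity of `S c` on compact sets (`Ent.continuousOn`), for `q ∈ X` near `q₀`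
`‖S c q - S c q₀‖ < m/2` on the closed ball.  If `S c q` had no zero in the closed ball, the maximum
principle for `1 / S c q` would give `‖S c q ζ₀‖ ≥ min_sphere > m/2`, but `‖S c q ζ₀‖ < m/2`. -/
theorem zero_persists {X : Set ℂ} {c : ℕ → ℂ → ℂ} (hX : IsCompact X) (hc : Ent X c)
    (h1 : ∀ q ∈ X, c 0 q = 1) {q₀ : ℂ} (hq₀ : q₀ ∈ X) {ζ₀ : ℂ} (h0 : S c q₀ ζ₀ = 0) {ε : ℝ}
    (hε : 0 < ε) : ∀ᶠ q in 𝓝[X] q₀, ∃ ζ, ‖ζ - ζ₀‖ < ε ∧ S c q ζ = 0 := by
  obtain ⟨r, hr, hiso⟩ := isolated_dmin hc h1 hq₀ ζ₀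
  obtain ⟨ρ, hρ⟩ : ∃ ρ : ℝ, ρ = min ε r / 2 := ⟨_, rfl⟩
  have hmin : 0 < min ε r := lt_min hε hr
  have hρ0 : 0 < ρ := by rw [hρ]; linarith
  have hρε : ρ < ε := by rw [hρ]; linarith [min_le_left ε r]
  have hρr : ρ < r := by rw [hρ]; linarith [min_le_right ε r]
  obtain ⟨m, hm, hmb⟩ := bound_dmin hc hq₀ (isCompact_sphere ζ₀ ρ) (fun ζ hζ => by
    rw [mem_sphere_iff_norm] at hζ
    refine hiso ζ (fun e => ?_) (by rw [hζ]; exact hρr)
    rw [e, sub_self, norm_zero] at hζ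
    exact hρ0.ne hζ)
  filter_upwards [self_mem_nhdsWithin,
    unif_dmin hX hc hq₀ (isCompact_closedBall ζ₀ ρ) (half_pos hm)] with q hq hu
  by_contra hcon
  push Not at hcon
  have hd := hc.differentiable hq
  have hne : ∀ ζ ∈ closedBall ζ₀ ρ, S c q ζ ≠ 0 := fun ζ hζ => by
    rw [mem_closedBall_iff_norm] at hζ
    exact hcon ζ (hζ.trans_lt hρε)
  have hdiff : DiffContOnCl ℂ (fun ζ => (S c q ζ)⁻¹) (ball ζ₀ ρ) := by
    refine DifferentiableOn.diffContOnCl ?_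
    rw [closure_ball ζ₀ hρ0.ne']
    exact hd.differentiableOn.inv hne
  have hfr : ∀ ζ ∈ frontier (ball ζ₀ ρ), ‖(S c q ζ)⁻¹‖ ≤ (m / 2)⁻¹ := by
    intro ζ hζ
    rw [frontier_ball ζ₀ hρ0.ne'] at hζ
    rw [norm_inv]
    refine inv_anti₀ (half_pos hm) ?_
    have h2 := hmb ζ hζ
    have h3 := hu ζ (sphere_subset_closedBall hζ)
    have h4 : ‖S c q₀ ζ‖ ≤ ‖S c q ζ‖ + ‖S c q ζ - S c q₀ ζ‖ := by
      have h5 := norm_sub_le (S c q ζ) (S c q ζ - S c q₀ ζ)
      rwa [sub_sub_cancel] at h5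
    linarith
  have h5 := Complex.norm_le_of_forall_mem_frontier_norm_le Metric.isBounded_ball hdiff hfr
    (subset_closure (mem_ball_self hρ0))
  rw [norm_inv] at h5
  have h6 := hu ζ₀ (mem_closedBall_self hρ0.le)
  rw [h0, sub_zero] at h6
  have h7 : 0 < ‖S c q ζ₀‖ := norm_pos_iff.2 (hne ζ₀ (mem_closedBall_self hρ0.le))
  have h8 := (inv_le_inv₀ h7 (half_pos hm)).1 h5
  linarith

/-- PROOF.  Let `q₀ ∈ X`, `ε > 0`.  Suppose `w q ∉ ball (w q₀) ε` for `q ∈ X` arbitrarily close to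
`q₀`; choose a sequence `q n → q₀`.  By `zero_persists`, `‖w (q n)‖ ≤ ‖w q₀‖ + δ` eventually for each
`δ > 0` (`w (q n)` is the smallest zero), so a subsequence of `w (q n)` converges to some `ζ*` with
`‖ζ*‖ ≤ ‖w q₀‖`, `S c q₀ ζ* = 0` (`Ent.continuousOn`), `‖ζ* - w q₀‖ ≥ ε`: contradiction with
`hmin`. -/
theorem continuousOn_min {X : Set ℂ} {c : ℕ → ℂ → ℂ} (hX : IsCompact X) (hc : Ent X c)
    (h1 : ∀ q ∈ X, c 0 q = 1) {w : ℂ → ℂ} (hw : ∀ q ∈ X, S c q (w q) = 0)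
    (hmin : ∀ q ∈ X, ∀ ζ, S c q ζ = 0 → ‖w q‖ < ‖ζ‖ ∨ ζ = w q) : ContinuousOn w X := by
  intro q₀ hq₀
  rw [ContinuousWithinAt, Metric.tendsto_nhds]
  intro ε hε
  -- a radius `‖w q₀‖ + δ` such that `S c q₀` has no zero outside `ball (w q₀) ε` up to this radius
  obtain ⟨δ, hδ, hzf⟩ : ∃ δ : ℝ, 0 < δ ∧ ∀ ζ ∈ closedBall (0 : ℂ) (‖w q₀‖ + δ) \ ball (w q₀) ε,
      S c q₀ ζ ≠ 0 := by
    obtain ⟨A, hA⟩ : ∃ A : Set ℂ, A = (closedBall (0 : ℂ) (‖w q₀‖ + 1) \ ball (w q₀) ε) ∩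
        S c q₀ ⁻¹' {0} := ⟨_, rfl⟩
    have hAc : IsCompact A := by
      rw [hA]
      exact ((isCompact_closedBall _ _).diff isOpen_ball).inter_right
        (isClosed_singleton.preimage (hc.differentiable hq₀).continuous)
    rcases A.eq_empty_or_nonempty with he | hne
    · refine ⟨1, one_pos, fun ζ hζ h => ?_⟩
      have : ζ ∈ A := by rw [hA]; exact ⟨hζ, h⟩
      rw [he] at this
      exact this
    · obtain ⟨x, hx, hxm⟩ := hAc.exists_isMinOn hne continuous_norm.continuousOn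
      have hx' := hx
      rw [hA] at hx'
      have h2 : ‖w q₀‖ < ‖x‖ := by
        rcases hmin q₀ hq₀ x hx'.2 with h | h
        · exact h
        · exfalso
          refine hx'.1.2 ?_
          rw [h]
          exact mem_ball_self hε
      have h3 : ‖x‖ ≤ ‖w q₀‖ + 1 := by
        have := hx'.1.1
        rwa [mem_closedBall_zero_iff] at this
      refine ⟨(‖x‖ - ‖w q₀‖) / 2, by linarith, fun ζ hζ h => ?_⟩
      have h4 : ‖ζ‖ ≤ ‖w q₀‖ + (‖x‖ - ‖w q₀‖) / 2 := by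
        have := hζ.1
        rwa [mem_closedBall_zero_iff] at this
      have h5 : ζ ∈ A := by
        rw [hA]
        refine ⟨⟨?_, hζ.2⟩, h⟩
        rw [mem_closedBall_zero_iff]
        linarith
      have h6 : ‖x‖ ≤ ‖ζ‖ := hxm h5
      linarith
  obtain ⟨m, hm, hmb⟩ := bound_dmin hc hq₀
    ((isCompact_closedBall (0 : ℂ) (‖w q₀‖ + δ)).diff (isOpen_ball (x := w q₀) (ε := ε))) hzf
  filter_upwards [self_mem_nhdsWithin,
    unif_dmin hX hc hq₀ ((isCompact_closedBall (0 : ℂ) (‖w q₀‖ + δ)).diff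
      (isOpen_ball (x := w q₀) (ε := ε))) hm,
    zero_persists hX hc h1 hq₀ (hw q₀ hq₀) hδ] with q hq hu hz
  obtain ⟨ζ, hζ, hζ0⟩ := hz
  have h2 : ‖w q‖ ≤ ‖w q₀‖ + δ := by
    have h3 : ‖w q‖ ≤ ‖ζ‖ := by
      rcases hmin q hq ζ hζ0 with h | h
      · exact h.le
      · rw [h]
    have h4 : ‖ζ‖ ≤ ‖w q₀‖ + ‖ζ - w q₀‖ := by
      have h5 := norm_add_le (w q₀) (ζ - w q₀)
      rwa [add_sub_cancel] at h5
    linarith
  by_contra hcon
  have h3 : w q ∈ closedBall (0 : ℂ) (‖w q₀‖ + δ) \ ball (w q₀) ε :=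
    ⟨mem_closedBall_zero_iff.2 h2, hcon⟩
  have h4 := hu _ h3
  rw [hw q hq, zero_sub, norm_neg] at h4
  exact absurd (hmb _ h3) (not_le.2 h4)

end SokamHD

end
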