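import Pool.Agent.Lib_MP_af4de1_zy.Z10

/-! ### Lib_MP_af4de1_v.N1A -/

section
namespace SokamV
end SokamV
/-!
# The case `N = 1`: connections in the coordinates `(Y, s)`, saddles, reflection
-/

namespace SokamN

open SokamV Complex Filter Topology Set

variable {G : ℂ → ℝ} {c c1 : ℝ} {A B D : ℂ}

theorem SC.symm (h : SC G c A B) : SC G c B A := by
  obtain ⟨c', h1, h2⟩ := h
  exact ⟨c', h1, h2.symm⟩

theorem SC.trans (h : SC G c A B) (h' : SC G c B D) : SC G c A D := by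
  obtain ⟨c', h1, h2⟩ := h
  obtain ⟨c'', k1, k2⟩ := h'
  exact ⟨max c' c'', max_lt h1 k1, (h2.mono (le_max_left _ _)).trans (k2.mono (le_max_right _ _))⟩

theorem SC.mono (h : SC G c A B) (hc : c ≤ c1) : SC G c1 A B := by
  obtain ⟨c', h1, h2⟩ := h
  exact ⟨c', h1.trans_le hc, h2⟩

theorem SC.refl (h : G A < c) : SC G c A A := by
  obtain ⟨c', h1, h2⟩ := exists_between h
  exact ⟨c', h2, Conn.refl h1⟩

/-- Along a continuous path. -/
theorem SC.path {f : ℝ → ℂ} {s1 s2 : ℝ} (h12 : s1 ≤ s2) (hf : ContinuousOn f (Icc s1 s2))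
    (hG : Continuous G) (h : ∀ s ∈ Icc s1 s2, G (f s) < c) : SC G c (f s1) (f s2) := by
  obtain ⟨s0, hs0, hmax⟩ := isCompact_Icc.exists_isMaxOn (nonempty_Icc.2 h12)
    (hG.comp_continuousOn hf)
  obtain ⟨c', hc1, hc2⟩ := exists_between (h s0 hs0)
  refine ⟨c', hc2, f '' Icc s1 s2, isPreconnected_Icc.image _ hf,
    ⟨s1, left_mem_Icc.2 h12, rfl⟩, ⟨s2, right_mem_Icc.2 h12, rfl⟩, ?_⟩
  rintro H ⟨s, hs, rfl⟩
  exact (hmax hs).trans_lt hc1

theorem hasDerivAt_Ph (ζ H : ℂ) : HasDerivAt (Ph ζ) (H + ζ * cexp H) H := by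
  have h1 : HasDerivAt (fun H : ℂ => H ^ (2 : ℕ) / 2) (2 * H ^ (1 : ℕ) * 1 / 2) H := by
    simpa using ((hasDerivAt_id H).pow 2).div_const 2
  have h2 := h1.add ((Complex.hasDerivAt_exp H).const_mul ζ)
  have e : (2 * H ^ (1 : ℕ) * 1 / 2 + ζ * cexp H : ℂ) = H + ζ * cexp H := by ring
  rw [e] at h2
  exact h2

theorem deriv_Ph (ζ : ℂ) : deriv (Ph ζ) = fun H => H + ζ * cexp H :=
  funext fun H => (hasDerivAt_Ph ζ H).deriv

theorem deriv_deriv_Ph (ζ H : ℂ) : deriv (deriv (Ph ζ)) H = 1 + ζ * cexp H := by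
  rw [deriv_Ph]
  exact ((hasDerivAt_id H).add ((Complex.hasDerivAt_exp H).const_mul ζ)).deriv

theorem Ph_add {ζ S : ℂ} (h1 : S + ζ * cexp S = 0) (h : ℂ) :
    Ph ζ (S + h) - Ph ζ S = (1 - S) * h ^ (2 : ℕ) / 2 - S * (cexp h - (1 + h + h ^ (2 : ℕ) / 2)) := by
  have h2 : ζ * cexp S = -S := by linear_combination h1
  have h3 : ζ * cexp (S + h) = -S * cexp h := by rw [Complex.exp_add, ← mul_assoc, h2]
  rw [Ph, Ph, h3, h2]
  ring

/-- A simple critical point of the phase with a descent direction. -/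
theorem sad_of_desc {u ζ S v : ℂ} (h1 : S + ζ * cexp S = 0) (h2 : (u * (1 - S) * v ^ (2 : ℕ)).re < 0) :
    ∃ δ0 > 0, ∀ δ : ℝ, 0 < δ → δ ≤ δ0 → Sad u (Ph ζ) ((u * Ph ζ S).re) S (δ * v) := by
  set κ := -(u * (1 - S) * v ^ (2 : ℕ)).re with hκ
  have hκ0 : 0 < κ := by linarith
  set M := ‖u‖ * ‖S‖ * ‖v‖ ^ (3 : ℕ) with hM
  have hM0 : 0 ≤ M := by positivity
  have hv0 : 0 ≤ ‖v‖ := norm_nonneg v
  refine ⟨min (1 / (‖v‖ + 1)) (κ / (2 * (M + 1))), by positivity, fun δ hδ hδ0 => ?_⟩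
  have hδ1 : δ ≤ 1 / (‖v‖ + 1) := hδ0.trans (min_le_left _ _)
  have hδ2 : δ ≤ κ / (2 * (M + 1)) := hδ0.trans (min_le_right _ _)
  rw [le_div_iff₀ (by positivity)] at hδ1 hδ2
  refine ⟨?_, rfl, ?_, ?_⟩
  · rw [deriv_Ph]; exact h1
  · rw [deriv_deriv_Ph]
    have e : u * (1 + ζ * cexp S) * ((δ : ℂ) * v) ^ (2 : ℕ)
        = ((δ ^ (2 : ℕ) : ℝ) : ℂ) * (u * (1 - S) * v ^ (2 : ℕ)) := by
      have h3 : ζ * cexp S = -S := by linear_combination h1
      rw [h3]; push_cast; ring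
    rw [e, Complex.re_ofReal_mul]
    exact mul_neg_of_pos_of_neg (by positivity) h2
  · intro s hs hs0
    set x : ℝ := s * δ with hx
    have hx0 : x ≠ 0 := mul_ne_zero hs0 hδ.ne'
    have hxa : 0 < |x| := abs_pos.2 hx0
    have hxδ : |x| ≤ δ := by
      rw [hx, abs_mul, abs_of_pos hδ]
      nlinarith only [hδ, hs]
    have e1 : S + (s : ℂ) * ((δ : ℂ) * v) = S + (x : ℂ) * v := by rw [hx]; push_cast; ring
    rw [e1]
    have e2 := Ph_add h1 ((x : ℂ) * v)
    have e3 : u * Ph ζ (S + x * v) = u * Ph ζ S + ((x ^ (2 : ℕ) / 2 : ℝ) : ℂ) * (u * (1 - S) * v ^ (2 : ℕ))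
        - u * S * (cexp (x * v) - (1 + x * v + (x * v) ^ (2 : ℕ) / 2)) := by
      push_cast
      linear_combination u * e2
    have hn : ‖(x : ℂ) * v‖ = |x| * ‖v‖ := by rw [norm_mul, Complex.norm_real, Real.norm_eq_abs]
    have hn1 : ‖(x : ℂ) * v‖ ≤ 1 := by
      rw [hn]
      nlinarith only [hδ1, hxa, hxδ]
    have hb := Complex.exp_bound hn1 (n := 3) (by norm_num)
    have hb2 : ‖cexp (x * v) - (1 + x * v + (x * v) ^ (2 : ℕ) / 2)‖ ≤ (|x| * ‖v‖) ^ (3 : ℕ) := by
      have e4 : (∑ m ∈ Finset.range 3, ((x : ℂ) * v) ^ m / (m.factorial : ℂ))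
          = 1 + x * v + (x * v) ^ (2 : ℕ) / 2 := by
        simp [Finset.sum_range_succ, Nat.factorial]
      rw [e4, hn] at hb
      refine hb.trans ?_
      have h5 : (0 : ℝ) ≤ (|x| * ‖v‖) ^ (3 : ℕ) := by positivity
      have h6 : ((Nat.succ 3 : ℕ) : ℝ) * ((Nat.factorial 3 : ℕ) * (3 : ℕ) : ℝ)⁻¹ ≤ 1 := by
        norm_num [Nat.factorial]
      calc _ ≤ (|x| * ‖v‖) ^ (3 : ℕ) * 1 := mul_le_mul_of_nonneg_left h6 h5
        _ = _ := mul_one _
    rw [e3, Complex.sub_re, Complex.add_re, Complex.re_ofReal_mul]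
    have h7 : -(u * S * (cexp (x * v) - (1 + x * v + (x * v) ^ (2 : ℕ) / 2))).re ≤ M * |x| ^ (3 : ℕ) := by
      calc -(u * S * (cexp (x * v) - (1 + x * v + (x * v) ^ (2 : ℕ) / 2))).re
          ≤ ‖u * S * (cexp (x * v) - (1 + x * v + (x * v) ^ (2 : ℕ) / 2))‖ :=
            (neg_le_abs _).trans (Complex.abs_re_le_norm _)
        _ = ‖u‖ * ‖S‖ * ‖cexp (x * v) - (1 + x * v + (x * v) ^ (2 : ℕ) / 2)‖ := by
            rw [norm_mul, norm_mul]
        _ ≤ ‖u‖ * ‖S‖ * (|x| * ‖v‖) ^ (3 : ℕ) := by gcongr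
        _ = M * |x| ^ (3 : ℕ) := by rw [hM]; ring
    have h8 : x ^ (2 : ℕ) = |x| ^ (2 : ℕ) := (sq_abs x).symm
    have h9 : (u * (1 - S) * v ^ (2 : ℕ)).re = -κ := by rw [hκ]; ring
    rw [h9, h8]
    have h10 : M * |x| < κ / 2 := by
      have : (M + 1) * |x| ≤ (M + 1) * δ := mul_le_mul_of_nonneg_left hxδ (by positivity)
      linarith only [hδ2, hxa, this]
    have h11 : 0 < |x| ^ (2 : ℕ) := by positivity
    linarith only [h7, mul_lt_mul_of_pos_left h10 h11]

namespace Par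

variable (p : Par)

theorem hu : ‖p.u‖ = 1 := by
  have : ‖p.u‖ ^ (2 : ℕ) = 1 := by
    rw [← Complex.normSq_eq_norm_sq, Complex.normSq_apply]
    have := p.hab
    simp only [u]
    linarith only [this]
  nlinarith only [this, norm_nonneg p.u]

theorem u_mul_zeta : p.u * p.ζ = p.r * cexp (p.φ * I) := by
  have : p.u * (⟨p.a, -p.b⟩ : ℂ) = 1 := by
    have := p.hab
    apply Complex.ext <;> simp [u] <;> nlinarith
  rw [ζ, ← mul_assoc, this, one_mul]

theorem continuous_G : Continuous p.G := by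
  unfold G Ph
  fun_prop

theorem pt_eq (Y s : ℝ) : p.pt Y s = Y + p.b * s + p.a * s * I := by
  apply Complex.ext <;> simp [pt]

theorem pt_add (Y s V W δ : ℝ) : p.pt (Y + δ * V) (s + δ * W) = p.pt Y s + δ * p.pt V W := by
  simp only [pt_eq]; push_cast; ring

theorem pt_sub (Y s V W δ : ℝ) : p.pt (Y - δ * V) (s - δ * W) = p.pt Y s - δ * p.pt V W := by
  simp only [pt_eq]; push_cast; ring

theorem u_mul_zeta_mul_exp (Y s : ℝ) : p.u * (p.ζ * cexp (p.pt Y s)) =
    ((p.r * Real.exp (p.b * s) * Real.exp Y : ℝ) : ℂ) *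
      (Real.cos (p.a * s + p.φ) + Real.sin (p.a * s + p.φ) * I) := by
  rw [← mul_assoc, u_mul_zeta, pt_eq]
  have : cexp (Y + p.b * s + p.a * s * I) =
      cexp Y * cexp (p.b * s) * cexp (p.a * s * I) := by
    rw [← Complex.exp_add, ← Complex.exp_add]
  rw [this]
  have h2 : cexp (p.φ * I) * cexp (p.a * s * I) =
      Real.cos (p.a * s + p.φ) + Real.sin (p.a * s + p.φ) * I := by
    rw [← Complex.exp_add]
    have : (p.φ * I + p.a * s * I : ℂ) = ((p.a * s + p.φ : ℝ) : ℂ) * I := by push_cast; ring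
    rw [this, Complex.exp_mul_I, Complex.ofReal_cos, Complex.ofReal_sin]
  rw [← h2]
  push_cast
  ring

/-- The height in the coordinates `(Y, s)`. -/
theorem G_pt (Y s : ℝ) : p.G (p.pt Y s) = p.a * p.g Y s := by
  have h1 : p.G (p.pt Y s) = (p.u * (p.pt Y s) ^ (2 : ℕ) / 2 + p.u * (p.ζ * cexp (p.pt Y s))).re := by
    show (p.u * Ph p.ζ (p.pt Y s)).re = _
    rw [Ph]; congr 1; ring
  rw [h1, u_mul_zeta_mul_exp, Complex.add_re, Complex.re_ofReal_mul]
  have h2 : (((Real.cos (p.a * s + p.φ) : ℝ) : ℂ) + ((Real.sin (p.a * s + p.φ) : ℝ) : ℂ) * I).re =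
      Real.cos (p.a * s + p.φ) := by
    rw [Complex.add_re, Complex.ofReal_re, Complex.re_ofReal_mul, Complex.I_re]; ring
  have h3 : (p.u * (p.pt Y s) ^ (2 : ℕ) / 2).re = p.a * ((Y ^ (2 : ℕ) - s ^ (2 : ℕ)) / 2) := by
    have e1 : p.u * (p.pt Y s) ^ (2 : ℕ) / 2 =
        (((p.a * ((Y + p.b * s) ^ (2 : ℕ) - (p.a * s) ^ (2 : ℕ)) - p.b * (2 * (Y + p.b * s) * (p.a * s))) / 2
          : ℝ) : ℂ) + (((p.b * ((Y + p.b * s) ^ (2 : ℕ) - (p.a * s) ^ (2 : ℕ))
          + p.a * (2 * (Y + p.b * s) * (p.a * s))) / 2 : ℝ) : ℂ) * I := by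
      have e2 : p.u = p.a + p.b * I := by apply Complex.ext <;> simp [u]
      rw [pt_eq, e2]
      push_cast
      have hI : I ^ (2 : ℕ) = -1 := Complex.I_sq
      linear_combination ((p.a : ℂ) * (p.a * s) ^ (2 : ℕ) / 2 + p.b * (p.a * s) ^ (2 : ℕ) * I / 2
        + p.b * (Y + p.b * s) * (p.a * s)) * hI
    rw [e1]
    simp only [Complex.add_re, Complex.ofReal_re, Complex.re_ofReal_mul, Complex.I_re, mul_zero,
      add_zero]
    have := p.hab
    linear_combination (p.a * s ^ (2 : ℕ) / 2 * (-1)) * this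
  rw [h2, h3, g, rho]
  have := p.ha.ne'
  field_simp

/-- A path given as a graph over `s`. -/
theorem SC_graph {f : ℝ → ℝ} {s1 s2 c : ℝ} (h12 : s1 ≤ s2) (hf : ContinuousOn f (Icc s1 s2))
    (h : ∀ s ∈ Icc s1 s2, p.g (f s) s < c) :
    SC p.G (p.a * c) (p.pt (f s1) s1) (p.pt (f s2) s2) := by
  refine SC.path (f := fun s => p.pt (f s) s) h12 ?_ p.continuous_G ?_
  · simp only [pt_eq]
    fun_prop
  · intro s hs
    rw [G_pt]
    exact mul_lt_mul_of_pos_left (h s hs) p.ha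

/-- A horizontal path. -/
theorem SC_horiz {Y1 Y2 s c : ℝ} (h12 : Y1 ≤ Y2) (h : ∀ Y ∈ Icc Y1 Y2, p.g Y s < c) :
    SC p.G (p.a * c) (p.pt Y1 s) (p.pt Y2 s) := by
  refine SC.path (f := fun Y => p.pt Y s) h12 ?_ p.continuous_G ?_
  · simp only [pt_eq]
    fun_prop
  · intro Y hY
    rw [G_pt]
    exact mul_lt_mul_of_pos_left (h Y hY) p.ha

/-- Window 0: the sea is connected. -/
theorem SC_sea {s1 s2 : ℝ} (h1 : p.sL < s1) (h1' : s1 < p.sR) (h2 : p.sL < s2) (h2' : s2 < p.sR)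
    (c : ℝ) : ∃ Y0 : ℝ, ∀ Y : ℝ, Y0 ≤ Y → SC p.G (p.a * c) (p.pt Y s1) (p.pt Y s2) := by
  wlog h12 : s1 ≤ s2 generalizing s1 s2
  · obtain ⟨Y0, h⟩ := this h2 h2' h1 h1' (le_of_not_ge h12)
    exact ⟨Y0, fun Y hY => (h Y hY).symm⟩
  have hneg : ∀ s ∈ Icc s1 s2, p.rho s < 0 := by
    intro s hs
    have ha := p.ha
    have k1 : p.sL < s := h1.trans_le hs.1
    have k2 : s < p.sR := hs.2.trans_lt h2'
    rw [sL, div_lt_iff₀ ha] at k1
    rw [sR, lt_div_iff₀ ha] at k2
    have hc : Real.cos (p.a * s + p.φ) < 0 :=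
      Real.cos_neg_of_pi_div_two_lt_of_lt (by linarith) (by linarith)
    have hr := p.hr
    have : 0 < p.r / p.a * Real.exp (p.b * s) := by positivity
    exact mul_neg_of_pos_of_neg this hc
  have hcont : Continuous p.rho := by unfold rho; fun_prop
  obtain ⟨s0, hs0, hmax⟩ := isCompact_Icc.exists_isMaxOn (nonempty_Icc.2 h12) hcont.continuousOn
  have hρ := hneg s0 hs0
  set ρ0 := -p.rho s0 with hρ0
  have hρ0' : 0 < ρ0 := by linarith
  refine ⟨max 1 (6 / ρ0 * (1 / 2 + |c| + 1)), fun Y hY => ?_⟩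
  have hY1 : 1 ≤ Y := (le_max_left _ _).trans hY
  have hY2 : 6 / ρ0 * (1 / 2 + |c| + 1) ≤ Y := (le_max_right _ _).trans hY
  refine p.SC_graph (f := fun _ => Y) h12 continuousOn_const fun s hs => ?_
  have h3 : p.rho s ≤ -ρ0 := by rw [hρ0, neg_neg]; exact hmax hs
  have h4 : Y ^ (3 : ℕ) / 6 ≤ Real.exp Y := by
    have := Real.pow_div_factorial_le_exp Y (by linarith) 3
    norm_num [Nat.factorial] at this
    linarith
  have h5 : 6 * (1 / 2 + |c| + 1) ≤ ρ0 * Y := by
    rw [div_mul_eq_mul_div, div_le_iff₀ hρ0'] at hY2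
    linarith
  have h6 : p.rho s * Real.exp Y ≤ -ρ0 * (Y ^ (3 : ℕ) / 6) := by
    have := Real.exp_pos Y
    nlinarith only [hρ0', h3, h4, this]
  have h7 : (1 / 2 + |c| + 1) * Y ^ (2 : ℕ) ≤ ρ0 * (Y ^ (3 : ℕ) / 6) := by
    have : 0 ≤ Y ^ (2 : ℕ) := sq_nonneg Y
    nlinarith only [h5]
  have h8 : (|c| + 1) * 1 ≤ (|c| + 1) * Y ^ (2 : ℕ) := by
    have := abs_nonneg c
    apply mul_le_mul_of_nonneg_left _ (by positivity)
    nlinarith only [hY1]
  have h9 := neg_abs_le c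
  rw [g]
  nlinarith only [h6, h7, h8, h9]

/-- Saddle points in the coordinates `(Y, s)`. -/
theorem sad {Y s V W : ℝ} (h1 : Y + p.rho s * Real.exp Y = 0)
    (h2 : -s + p.rho1 s * Real.exp Y = 0)
    (h3 : (1 - Y) * V ^ (2 : ℕ) + 2 * s * V * W + (-1 + p.rho2 s * Real.exp Y) * W ^ (2 : ℕ) < 0) :
    ∃ δ0 > 0, ∀ δ : ℝ, 0 < δ → δ ≤ δ0 →
      Sad p.u (Ph p.ζ) (p.a * p.g Y s) (p.pt Y s) (δ * p.pt V W) := by
  have ha := p.ha
  have hab := p.hab
  have hu0 : p.u ≠ 0 := by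
    intro h
    have := p.hu
    rw [h, norm_zero] at this
    exact zero_ne_one this
  set C := p.r * Real.exp (p.b * s) * Real.exp Y * Real.cos (p.a * s + p.φ) with hC
  set D := p.r * Real.exp (p.b * s) * Real.exp Y * Real.sin (p.a * s + p.φ) with hD
  have e1 : p.rho s * Real.exp Y = C / p.a := by rw [rho, hC]; ring
  have e2 : p.rho1 s * Real.exp Y = (p.b * C - p.a * D) / p.a := by rw [rho1, hC, hD]; ring
  have e3 : p.rho2 s * Real.exp Y = ((p.b ^ (2 : ℕ) - p.a ^ (2 : ℕ)) * C - 2 * p.a * p.b * D) / p.a := by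
    rw [rho2, hC, hD]; ring
  have hC' : C = -p.a * Y := by
    rw [e1] at h1
    field_simp at h1
    linarith
  have hD' : D = -p.b * Y - s := by
    rw [e2] at h2
    field_simp at h2
    have : p.a * D = p.a * (-p.b * Y - s) := by rw [hC'] at h2; linarith
    exact mul_left_cancel₀ ha.ne' this
  have hcrit : p.pt Y s + p.ζ * cexp (p.pt Y s) = 0 := by
    have h4 : p.u * (p.pt Y s + p.ζ * cexp (p.pt Y s)) = 0 := by
      rw [mul_add, u_mul_zeta_mul_exp]
      have h5 : ((p.r * Real.exp (p.b * s) * Real.exp Y : ℝ) : ℂ) *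
          (Real.cos (p.a * s + p.φ) + Real.sin (p.a * s + p.φ) * I) = (C : ℂ) + (D : ℂ) * I := by
        rw [hC, hD]; push_cast; ring
      rw [h5, hC', hD', pt_eq]
      have e2 : p.u = p.a + p.b * I := by apply Complex.ext <;> simp [u]
      have hab' : (p.a : ℂ) ^ (2 : ℕ) + (p.b : ℂ) ^ (2 : ℕ) = 1 := by exact_mod_cast hab
      rw [e2]
      push_cast
      linear_combination ((p.a : ℂ) * p.b * s) * Complex.I_sq + I * s * hab'
    exact (mul_eq_zero.1 h4).resolve_left hu0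
  have hQ : (p.u * (1 - p.pt Y s) * (p.pt V W) ^ (2 : ℕ)).re < 0 := by
    have : (p.u * (1 - p.pt Y s) * (p.pt V W) ^ (2 : ℕ)).re =
        p.a * ((1 - Y) * V ^ (2 : ℕ) + 2 * s * V * W + (-1 + p.rho2 s * Real.exp Y) * W ^ (2 : ℕ)) := by
      rw [e3, hC', hD']
      simp only [u, pt, pow_two, Complex.mul_re, Complex.mul_im, Complex.sub_re, Complex.sub_im,
        Complex.one_re, Complex.one_im]
      field_simp
      linear_combination (2 * p.a * s * V * W - p.a * W ^ (2 : ℕ) + 2 * p.a * p.b * s * W ^ (2 : ℕ)) * hab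
    rw [this]
    exact mul_neg_of_pos_of_neg ha h3
  obtain ⟨δ0, h5, h6⟩ := sad_of_desc hcrit hQ
  refine ⟨δ0, h5, fun δ k1 k2 => ?_⟩
  have h7 := h6 δ k1 k2
  have h8 : (p.u * Ph p.ζ (p.pt Y s)).re = p.a * p.g Y s := p.G_pt Y s
  rw [h8] at h7
  exact h7

theorem mirror_u : p.mirror.u = starRingEnd ℂ p.u := rfl

theorem mirror_zeta : p.mirror.ζ = starRingEnd ℂ p.ζ := by
  have h1 : cexp (((2 * Real.pi - p.φ : ℝ) : ℂ) * I) = starRingEnd ℂ (cexp (p.φ * I)) := by
    rw [← Complex.exp_conj, map_mul, Complex.conj_I, Complex.conj_ofReal]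
    have : (((2 * Real.pi - p.φ : ℝ) : ℂ) * I) = p.φ * -I + 2 * Real.pi * I := by push_cast; ring
    rw [this, Complex.exp_add, Complex.exp_two_pi_mul_I, mul_one]
  simp only [ζ, mirror, map_mul, Complex.conj_ofReal]
  rw [h1]
  congr 1

theorem mirror_rho (s : ℝ) : p.mirror.rho s = p.rho (-s) := by
  simp only [rho, mirror]
  have : p.a * s + (2 * Real.pi - p.φ) = 2 * Real.pi - (p.a * -s + p.φ) := by ring
  rw [this, Real.cos_two_pi_sub]
  congr 2
  ring_nf

theorem mirror_rho1 (s : ℝ) : p.mirror.rho1 s = -p.rho1 (-s) := by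
  simp only [rho1, mirror]
  have : p.a * s + (2 * Real.pi - p.φ) = 2 * Real.pi - (p.a * -s + p.φ) := by ring
  rw [this, Real.cos_two_pi_sub, Real.sin_two_pi_sub]
  have : -p.b * s = p.b * -s := by ring
  rw [this]
  ring

theorem mirror_m (s : ℝ) : p.mirror.m s = p.m (-s) := by
  simp only [m, g, Y, mirror_rho]
  ring

theorem mirror_m1 (s : ℝ) : p.mirror.m1 s = -p.m1 (-s) := by
  simp only [m1, Y, mirror_rho, mirror_rho1]
  ring

theorem mirror_pt (Y s : ℝ) : p.mirror.pt Y s = starRingEnd ℂ (p.pt Y (-s)) := by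
  apply Complex.ext <;> simp [pt, mirror]

theorem mirror_sL : p.mirror.sL = -p.sR := by
  simp only [sL, sR, mirror]; ring

theorem mirror_sLL : p.mirror.sLL = -p.sRR := by
  simp only [sLL, sRR, mirror]; ring

theorem mirror_sR : p.mirror.sR = -p.sL := by
  simp only [sL, sR, mirror]; ring

end Par

theorem Ph_conj (ζ H : ℂ) :
    Ph ζ (starRingEnd ℂ H) = starRingEnd ℂ (Ph (starRingEnd ℂ ζ) H) := by
  have h2 : starRingEnd ℂ (2 : ℂ) = 2 := Complex.conj_ofNat 2
  simp only [Ph, map_add, map_div₀, map_pow, map_mul, Complex.conj_conj, ← Complex.exp_conj, h2]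

/-- Connections under complex conjugation. -/
theorem conn_mirror (p : Par) {c : ℝ} {A B : ℂ} (h : Conn p.mirror.G c A B) :
    Conn p.G c (starRingEnd ℂ A) (starRingEnd ℂ B) := by
  obtain ⟨U, k1, k2, k3, k4⟩ := h
  refine ⟨starRingEnd ℂ '' U, k1.image _ Complex.continuous_conj.continuousOn,
    ⟨A, k2, rfl⟩, ⟨B, k3, rfl⟩, ?_⟩
  rintro H ⟨H', hH', rfl⟩
  have := k4 H' hH'
  have h1 : (p.u * Ph p.ζ (starRingEnd ℂ H')).re = (p.mirror.u * Ph p.mirror.ζ H').re := by
    rw [p.mirror_u, p.mirror_zeta, Ph_conj, ← Complex.conj_re (starRingEnd ℂ p.u * _), map_mul,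
      Complex.conj_conj]
  show (p.u * Ph p.ζ (starRingEnd ℂ H')).re < c
  rw [h1]
  exact this

/-- Complex conjugation and reversal of a contour with one saddle point. -/
theorem _root_.SokamV.Chain.conj_reverse {u ζ : ℂ} {c c' : ℝ} {A B S : ℂ}
    (h : Chain (starRingEnd ℂ u) (Ph (starRingEnd ℂ ζ)) c c' A [S] B) :
    Chain u (Ph ζ) c c' (starRingEnd ℂ B) [starRingEnd ℂ S] (starRingEnd ℂ A) := by
  have hPh : ∀ H : ℂ, Ph ζ (starRingEnd ℂ H) = starRingEnd ℂ (Ph (starRingEnd ℂ ζ) H) := by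
    intro H
    have h2 : starRingEnd ℂ (2 : ℂ) = 2 := Complex.conj_ofNat 2
    simp only [Ph, map_add, map_div₀, map_pow, map_mul, Complex.conj_conj, ← Complex.exp_conj, h2]
  have hG : ∀ H : ℂ, (u * Ph ζ (starRingEnd ℂ H)).re =
      (starRingEnd ℂ u * Ph (starRingEnd ℂ ζ) H).re := by
    intro H
    rw [hPh, ← Complex.conj_re (starRingEnd ℂ u * _), map_mul, Complex.conj_conj]
  have hC : ∀ {A B : ℂ}, Conn (fun H => (starRingEnd ℂ u * Ph (starRingEnd ℂ ζ) H).re) c' A B →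
      Conn (fun H => (u * Ph ζ H).re) c' (starRingEnd ℂ A) (starRingEnd ℂ B) := by
    rintro A B ⟨U, k1, k2, k3, k4⟩
    refine ⟨starRingEnd ℂ '' U, k1.image _ Complex.continuous_conj.continuousOn,
      ⟨A, k2, rfl⟩, ⟨B, k3, rfl⟩, ?_⟩
    rintro H ⟨H', hH', rfl⟩
    have := k4 H' hH'
    simp only [hG]
    exact this
  cases h with
  | cons h1 h2 h3 =>
    rename_i v
    cases h3 with
    | nil h3 =>
      refine Chain.cons (v := -starRingEnd ℂ v) ?_ ⟨?_, ?_, ?_, ?_⟩ (Chain.nil ?_)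
      · have := (hC h3).symm
        rw [map_add] at this
        rwa [sub_neg_eq_add]
      · have := h2.crit
        rw [deriv_Ph] at this ⊢
        simp only at this ⊢
        have h4 := congrArg (starRingEnd ℂ) this
        rw [map_add, map_mul, Complex.conj_conj, map_zero, ← Complex.exp_conj] at h4
        exact h4
      · rw [hG]; exact h2.height
      · have := h2.desc
        rw [deriv_deriv_Ph] at this ⊢
        rw [← Complex.conj_re] at this
        rw [map_mul, map_mul, map_add, map_mul, Complex.conj_conj, Complex.conj_conj, map_one,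
          map_pow, ← Complex.exp_conj] at this
        rw [neg_sq]
        exact this
      · intro s hs hs0
        have h4 := h2.seg (-s) (by rwa [abs_neg]) (neg_ne_zero.2 hs0)
        have h5 : starRingEnd ℂ S + (s : ℂ) * -starRingEnd ℂ v
            = starRingEnd ℂ (S + ((-s : ℝ) : ℂ) * v) := by
          rw [map_add, map_mul, Complex.conj_ofReal]; push_cast; ring
        rw [h5, hG]
        exact h4
      · have := (hC h1).symm
        rw [map_sub] at this
        rwa [← sub_eq_add_neg]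

/-- A contour below `c''` from a contour over saddle points of height `< c''`. -/
theorem _root_.SokamV.Chain.conn {u : ℂ} {Ψ : ℂ → ℂ} {c c' c'' : ℝ} {A B : ℂ} {L : List ℂ}
    (h : Chain u Ψ c c' A L B) (h1 : c' ≤ c'') (h2 : c < c'') :
    Conn (fun H => (u * Ψ H).re) c'' A B := by
  induction h with
  | nil h => exact h.mono h1
  | cons k1 k2 _ ih =>
    rename_i A B S v L _
    refine (k1.mono h1).trans (Conn.trans (Conn.segment fun s hs0 hs1 => ?_) ih)
    show (u * Ψ (S - v + s * (S + v - (S - v)))).re < c''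
    have e : S - v + (s : ℂ) * (S + v - (S - v)) = S + ((2 * s - 1 : ℝ) : ℂ) * v := by
      push_cast; ring
    rw [e]
    by_cases h0 : 2 * s - 1 = 0
    · rw [h0, Complex.ofReal_zero, zero_mul, add_zero, k2.height]
      exact h2
    · exact (k2.seg (2 * s - 1) (abs_le.2 ⟨by linarith, by linarith⟩) h0).trans h2

/-- Two half contours. -/
theorem good_of_two {u ζ S1 S2 : ℂ} {c1 c2 : ℝ} (hS : S1 ≠ S2) (P : ℝ → ℂ)
    (h1 : ∃ c' < c1, ∃ Y0 : ℝ, ∀ Yb : ℝ, Y0 ≤ Yb → ∃ R0 : ℝ, ∀ R : ℝ, R0 ≤ R →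
      Chain u (Ph ζ) c1 c' (-1 - R * I) [S1] (P Yb))
    (h2 : ∃ c' < c2, ∃ Y0 : ℝ, ∀ Yb : ℝ, Y0 ≤ Yb → ∃ R0 : ℝ, ∀ R : ℝ, R0 ≤ R →
      Chain u (Ph ζ) c2 c' (P Yb) [S2] (1 + R * I)) :
    ∃ (c : ℝ) (L : List ℂ), Good u ζ c L ∧
      ((∃ S, L = [S]) ∨ ∃ S1 S2, S1 ≠ S2 ∧ L = [S1, S2]) := by
  obtain ⟨c1', k1, Y1, k2⟩ := h1
  obtain ⟨c2', l1, Y2, l2⟩ := h2
  obtain ⟨R1, k3⟩ := k2 (max Y1 Y2) (le_max_left _ _)
  obtain ⟨R2, l3⟩ := l2 (max Y1 Y2) (le_max_right _ _)
  rcases lt_trichotomy c1 c2 with h | rfl | h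
  · obtain ⟨c'', m1, m2⟩ := exists_between h
    refine ⟨c2, [S2], ⟨max c2' c'', max_lt l1 m2, max R1 R2, fun R hR => ?_⟩, Or.inl ⟨S2, rfl⟩⟩
    have a1 := k3 R ((le_max_left _ _).trans hR)
    have a2 := l3 R ((le_max_right _ _).trans hR)
    exact (a2.mono (le_max_left _ _)).conn_trans
      (a1.conn ((k1.trans m1).le.trans (le_max_right _ _)) (m1.trans_le (le_max_right _ _)))
  · refine ⟨c1, [S1, S2], ⟨max c1' c2', max_lt k1 l1, max R1 R2, fun R hR => ?_⟩,
      Or.inr ⟨S1, S2, hS, rfl⟩⟩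
    have a1 := k3 R ((le_max_left _ _).trans hR)
    have a2 := l3 R ((le_max_right _ _).trans hR)
    exact (a1.mono (le_max_left _ _)).append (a2.mono (le_max_right _ _))
  · obtain ⟨c'', m1, m2⟩ := exists_between h
    refine ⟨c1, [S1], ⟨max c1' c'', max_lt k1 m2, max R1 R2, fun R hR => ?_⟩, Or.inl ⟨S1, rfl⟩⟩
    have a1 := k3 R ((le_max_left _ _).trans hR)
    have a2 := l3 R ((le_max_right _ _).trans hR)
    exact (a1.mono (le_max_left _ _)).trans_conn
      (a2.conn ((l1.trans m1).le.trans (le_max_right _ _)) (m1.trans_le (le_max_right _ _)))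

end SokamN

end

/-! ### Lib_MP_af4de1_v.N1B -/

section
/-!
# The case `N = 1`: the functions `Ym`, `Yp` and the fibres `Y ↦ Y²/2 + x e^Y`
-/

namespace SokamN

open Filter Topology Set

private noncomputable def N1B_k (y : ℝ) : ℝ := y * Real.exp (-y)

private theorem N1B_hasDerivAt_k (y : ℝ) : HasDerivAt N1B_k ((1 - y) * Real.exp (-y)) y := by
  have h1 : HasDerivAt (fun y : ℝ => Real.exp (-y)) (Real.exp (-y) * (-1)) y := (hasDerivAt_neg y).exp
  have h2 := (hasDerivAt_id y).mul h1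
  refine h2.congr_deriv ?_
  simp only [id]
  ring

private theorem N1B_cont_k : Continuous N1B_k := by
  unfold N1B_k
  fun_prop

private theorem N1B_mono_k : StrictMonoOn N1B_k (Iic 1) := by
  refine strictMonoOn_of_deriv_pos (convex_Iic 1) N1B_cont_k.continuousOn fun y hy => ?_
  rw [interior_Iic] at hy
  rw [(N1B_hasDerivAt_k y).deriv]
  exact mul_pos (by linarith [mem_Iio.1 hy]) (Real.exp_pos _)

private theorem N1B_anti_k : StrictAntiOn N1B_k (Ici 1) := by
  refine strictAntiOn_of_deriv_neg (convex_Ici 1) N1B_cont_k.continuousOn fun y hy => ?_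
  rw [interior_Ici] at hy
  rw [(N1B_hasDerivAt_k y).deriv]
  exact mul_neg_of_neg_of_pos (by linarith [mem_Ioi.1 hy]) (Real.exp_pos _)

private theorem N1B_k_one : N1B_k 1 = Real.exp (-1) := by
  unfold N1B_k
  rw [one_mul]

private theorem N1B_k_le (y : ℝ) : N1B_k y ≤ Real.exp (-1) := by
  rw [← N1B_k_one]
  rcases le_total y 1 with h | h
  · exact N1B_mono_k.monotoneOn (mem_Iic.2 h) (mem_Iic.2 le_rfl) h
  · exact N1B_anti_k.antitoneOn (mem_Ici.2 le_rfl) (mem_Ici.2 h) h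

private theorem N1B_ke_le {y : ℝ} (h : y ≤ 1) : ke y = N1B_k y := by
  unfold ke N1B_k
  rw [if_pos h]

private theorem N1B_ke_ge {y : ℝ} (h : 1 ≤ y) : ke y = Real.exp (-1) + (y - 1) := by
  rcases h.eq_or_lt with h1 | h1
  · rw [← h1, N1B_ke_le le_rfl, N1B_k_one]
    ring
  · unfold ke
    rw [if_neg h1.not_ge]

/-- `ke` is a strictly increasing continuous bijection. -/
theorem strictMono_ke : StrictMono ke := by
  refine StrictMonoOn.Iic_union_Ici (a := 1) ?_ ?_
  · intro x hx y hy hxy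
    rw [N1B_ke_le hx, N1B_ke_le hy]
    exact N1B_mono_k hx hy hxy
  · intro x hx y hy hxy
    rw [N1B_ke_ge hx, N1B_ke_ge hy]
    linarith

theorem continuous_ke : Continuous ke := by
  unfold ke
  refine Continuous.if_le (by fun_prop) (by fun_prop) continuous_id continuous_const ?_
  intro x hx
  have hx' : x = 1 := hx
  rw [hx']
  ring

theorem surjective_ke : Function.Surjective ke := by
  refine continuous_ke.surjective ?_ ?_
  · have h1 : Tendsto (fun y : ℝ => Real.exp (-1) + (y - 1)) atTop atTop :=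
      tendsto_atTop_add_const_left _ _ (tendsto_atTop_add_const_right _ _ tendsto_id)
    refine h1.congr' ?_
    filter_upwards [eventually_ge_atTop (1 : ℝ)] with y hy
    exact (N1B_ke_ge hy).symm
  · refine tendsto_atBot_mono' _ ?_ tendsto_id
    filter_upwards [eventually_le_atBot (0 : ℝ)] with y hy
    rw [N1B_ke_le (hy.trans zero_le_one)]
    unfold N1B_k
    have h1 : 1 ≤ Real.exp (-y) := Real.one_le_exp (by linarith)
    simp only [id]
    nlinarith only [hy, h1]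

theorem ke_Ym (x : ℝ) : ke (Ym x) = x := Function.invFun_eq (surjective_ke x)

theorem Ym_ke (y : ℝ) : Ym (ke y) = y := strictMono_ke.injective (ke_Ym _)

theorem strictMono_Ym : StrictMono Ym := by
  intro x y hxy
  rw [← strictMono_ke.lt_iff_lt, ke_Ym, ke_Ym]
  exact hxy

theorem continuous_Ym : Continuous Ym :=
  strictMono_Ym.monotone.continuous_of_surjective fun y => ⟨ke y, Ym_ke y⟩

theorem Ym_exp : Ym (Real.exp (-1)) = 1 := by
  rw [← N1B_k_one, ← N1B_ke_le le_rfl, Ym_ke]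

theorem Ym_zero : Ym 0 = 0 := by
  have h : ke 0 = 0 := by
    rw [N1B_ke_le zero_le_one]
    unfold N1B_k
    ring
  rw [← h, Ym_ke]
  exact h.symm

theorem Ym_le {x : ℝ} (h : x ≤ Real.exp (-1)) : Ym x ≤ 1 := by
  rw [← Ym_exp]
  exact strictMono_Ym.monotone h

theorem Ym_lt {x : ℝ} (h : x < Real.exp (-1)) : Ym x < 1 := by
  rw [← Ym_exp]
  exact strictMono_Ym h

theorem Ym_nonpos {x : ℝ} (h : x ≤ 0) : Ym x ≤ 0 := by
  rw [← Ym_zero]
  exact strictMono_Ym.monotone h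

private theorem N1B_k_Ym {x : ℝ} (h : x ≤ Real.exp (-1)) : N1B_k (Ym x) = x := by
  rw [← N1B_ke_le (Ym_le h), ke_Ym]

theorem Ym_eq {x : ℝ} (h : x ≤ Real.exp (-1)) : Ym x * Real.exp (-Ym x) = x := N1B_k_Ym h

private theorem N1B_crit (x y : ℝ) : y + x * Real.exp y = Real.exp y * (N1B_k y + x) := by
  unfold N1B_k
  have h : Real.exp y * Real.exp (-y) = 1 := by
    rw [← Real.exp_add, add_neg_cancel, Real.exp_zero]
  linear_combination (-y) * h

/-- The fibre derivative vanishes. -/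
theorem Ym_crit {x : ℝ} (h : -Real.exp (-1) ≤ x) : Ym (-x) + x * Real.exp (Ym (-x)) = 0 := by
  rw [N1B_crit, N1B_k_Ym (by linarith)]
  ring

theorem hasDerivAt_Ym {x : ℝ} (h : x < Real.exp (-1)) :
    HasDerivAt Ym (Real.exp (Ym x) / (1 - Ym x)) x := by
  have hy := Ym_lt h
  have h1 : HasDerivAt ke ((1 - Ym x) * Real.exp (-Ym x)) (Ym x) := by
    refine (N1B_hasDerivAt_k (Ym x)).congr_of_eventuallyEq ?_
    filter_upwards [Iio_mem_nhds hy] with z hz
    exact N1B_ke_le (le_of_lt hz)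
  have h2 : (1 - Ym x) * Real.exp (-Ym x) ≠ 0 := (mul_pos (by linarith) (Real.exp_pos _)).ne'
  have h3 := HasDerivAt.of_local_left_inverse continuous_Ym.continuousAt h1 h2
    (Eventually.of_forall ke_Ym)
  refine h3.congr_deriv ?_
  rw [mul_inv, Real.exp_neg, inv_inv, mul_comm, div_eq_mul_inv]

private theorem N1B_kp_eq (y : ℝ) : kp y = y - Real.log (max y 1) := by
  unfold kp
  split_ifs with h
  · rw [max_eq_right h, Real.log_one, sub_zero]
  · rw [max_eq_left (le_of_not_ge h)]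

private theorem N1B_kp_le {y : ℝ} (h : y ≤ 1) : kp y = y := by
  rw [N1B_kp_eq, max_eq_right h, Real.log_one, sub_zero]

private theorem N1B_kp_ge {y : ℝ} (h : 1 ≤ y) : kp y = y - Real.log y := by
  rw [N1B_kp_eq, max_eq_left h]

private theorem N1B_continuous_kp : Continuous kp := by
  have e : kp = fun y => y - Real.log (max y 1) := funext N1B_kp_eq
  rw [e]
  refine continuous_id.sub (Continuous.log (by fun_prop) fun y => ?_)
  exact (lt_of_lt_of_le zero_lt_one (le_max_right y 1)).ne'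

private theorem N1B_strictMono_kp : StrictMono kp := by
  refine StrictMonoOn.Iic_union_Ici (a := 1) ?_ ?_
  · intro x hx y hy hxy
    rw [N1B_kp_le hx, N1B_kp_le hy]
    exact hxy
  · have h1 : StrictMonoOn (fun y : ℝ => y - Real.log y) (Ici 1) := by
      refine strictMonoOn_of_deriv_pos (convex_Ici 1) ?_ fun y hy => ?_
      · refine continuousOn_id.sub (Real.continuousOn_log.mono ?_)
        intro y hy
        have : (1 : ℝ) ≤ y := hy
        exact (by linarith : (0 : ℝ) < y).ne'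
      · rw [interior_Ici] at hy
        have hy1 : (1 : ℝ) < y := hy
        have hy0 : (0 : ℝ) < y := by linarith
        have h2 : HasDerivAt (fun y : ℝ => y - Real.log y) (1 - y⁻¹) y :=
          (hasDerivAt_id y).sub (Real.hasDerivAt_log hy0.ne')
        rw [h2.deriv]
        have h3 : y⁻¹ < 1 := inv_lt_one_of_one_lt₀ hy1
        linarith
    intro x hx y hy hxy
    rw [N1B_kp_ge hx, N1B_kp_ge hy]
    exact h1 hx hy hxy

private theorem N1B_surjective_kp : Function.Surjective kp := by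
  refine N1B_continuous_kp.surjective ?_ ?_
  · refine tendsto_atTop_mono' _ ?_ (tendsto_id.atTop_div_const (show (0 : ℝ) < 2 by norm_num))
    filter_upwards [eventually_ge_atTop (1 : ℝ)] with y hy
    rw [N1B_kp_ge hy]
    have hy0 : (0 : ℝ) < y := by linarith
    have h1 := Real.log_le_sub_one_of_pos (show (0 : ℝ) < y / 2 by positivity)
    have h2 : Real.log y = Real.log (y / 2) + Real.log 2 := by
      rw [← Real.log_mul (by positivity) (by norm_num)]
      congr 1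
      ring
    have h3 : Real.log 2 < 1 := by
      have := Real.log_two_lt_d9
      linarith
    simp only [id]
    linarith
  · refine tendsto_id.congr' ?_
    filter_upwards [eventually_le_atBot (1 : ℝ)] with y hy
    exact (N1B_kp_le hy).symm

private theorem N1B_kp_inv (x : ℝ) : kp (Function.invFun kp x) = x :=
  Function.invFun_eq (N1B_surjective_kp x)

private theorem N1B_inv_kp (y : ℝ) : Function.invFun kp (kp y) = y :=
  N1B_strictMono_kp.injective (N1B_kp_inv _)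

private theorem N1B_strictMono_inv : StrictMono (Function.invFun kp) := by
  intro x y hxy
  rw [← N1B_strictMono_kp.lt_iff_lt, N1B_kp_inv, N1B_kp_inv]
  exact hxy

private theorem N1B_continuous_inv : Continuous (Function.invFun kp) :=
  N1B_strictMono_inv.monotone.continuous_of_surjective fun y => ⟨kp y, N1B_inv_kp y⟩

private theorem N1B_inv_one : Function.invFun kp 1 = 1 := by
  have h : kp 1 = 1 := N1B_kp_le le_rfl
  have h1 := N1B_inv_kp 1
  rwa [h] at h1

theorem continuousOn_Yp : ContinuousOn Yp (Ioi 0) := by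
  unfold Yp
  refine N1B_continuous_inv.comp_continuousOn ((Real.continuousOn_log.mono ?_).neg)
  intro y hy
  exact (mem_Ioi.1 hy).ne'

theorem Yp_exp : Yp (Real.exp (-1)) = 1 := by
  unfold Yp
  rw [Real.log_exp, neg_neg, N1B_inv_one]

theorem one_le_Yp {x : ℝ} (h0 : 0 < x) (h : x ≤ Real.exp (-1)) : 1 ≤ Yp x := by
  unfold Yp
  have h1 : Real.log x ≤ -1 := by
    have := Real.log_le_log h0 h
    rwa [Real.log_exp] at this
  have h2 := N1B_strictMono_inv.monotone (show (1 : ℝ) ≤ -Real.log x by linarith)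
  rwa [N1B_inv_one] at h2

theorem one_lt_Yp {x : ℝ} (h0 : 0 < x) (h : x < Real.exp (-1)) : 1 < Yp x := by
  unfold Yp
  have h1 : Real.log x < -1 := by
    have := Real.log_lt_log h0 h
    rwa [Real.log_exp] at this
  have h2 := N1B_strictMono_inv (show (1 : ℝ) < -Real.log x by linarith)
  rwa [N1B_inv_one] at h2

private theorem N1B_k_Yp {x : ℝ} (h0 : 0 < x) (h : x ≤ Real.exp (-1)) : N1B_k (Yp x) = x := by
  have h1 := one_le_Yp h0 h
  have h2 : kp (Yp x) = -Real.log x := N1B_kp_inv _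
  rw [N1B_kp_ge h1] at h2
  unfold N1B_k
  have h3 : Real.exp (Real.log (Yp x)) = Yp x := Real.exp_log (by linarith)
  have h4 : Real.exp (Real.log x) = x := Real.exp_log h0
  calc Yp x * Real.exp (-Yp x) = Real.exp (Real.log (Yp x)) * Real.exp (-Yp x) := by rw [h3]
    _ = Real.exp (Real.log (Yp x) + -Yp x) := (Real.exp_add _ _).symm
    _ = Real.exp (Real.log x) := by
        congr 1
        linarith
    _ = x := h4

theorem Yp_crit {x : ℝ} (h : -Real.exp (-1) ≤ x) (h0 : x < 0) :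
    Yp (-x) + x * Real.exp (Yp (-x)) = 0 := by
  rw [N1B_crit, N1B_k_Yp (by linarith) (by linarith)]
  ring

/-- The fibre function. -/
noncomputable def fib (x Y : ℝ) : ℝ := Y ^ (2 : ℕ) / 2 + x * Real.exp Y

theorem hasDerivAt_fib (x Y : ℝ) : HasDerivAt (fib x) (Y + x * Real.exp Y) Y := by
  have h1 : HasDerivAt (fun Y : ℝ => Y ^ (2 : ℕ) / 2) Y Y := by
    have h2 := (hasDerivAt_pow 2 Y).div_const 2
    refine h2.congr_deriv ?_
    norm_num
  exact h1.add ((Real.hasDerivAt_exp Y).const_mul x)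

private theorem N1B_cont_fib (x : ℝ) : Continuous (fib x) := by
  unfold fib
  fun_prop

private theorem N1B_diff_fib (x : ℝ) : Differentiable ℝ (fib x) := fun Y =>
  (hasDerivAt_fib x Y).differentiableAt

private theorem N1B_deriv_fib (x Y : ℝ) : deriv (fib x) Y = Real.exp Y * (N1B_k Y + x) := by
  rw [(hasDerivAt_fib x Y).deriv, N1B_crit]

theorem fib_anti {x : ℝ} (h : -Real.exp (-1) ≤ x) : AntitoneOn (fib x) (Iic (Ym (-x))) := by
  refine antitoneOn_of_deriv_nonpos (convex_Iic _) (N1B_cont_fib x).continuousOn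
    (N1B_diff_fib x).differentiableOn fun Y hY => ?_
  rw [interior_Iic, mem_Iio] at hY
  rw [N1B_deriv_fib]
  have h1 : Ym (-x) ≤ 1 := Ym_le (by linarith)
  have h2 : N1B_k Y ≤ N1B_k (Ym (-x)) :=
    N1B_mono_k.monotoneOn (mem_Iic.2 (hY.le.trans h1)) (mem_Iic.2 h1) hY.le
  rw [N1B_k_Ym (by linarith)] at h2
  exact mul_nonpos_of_nonneg_of_nonpos (Real.exp_pos _).le (by linarith)

theorem fib_mono {x : ℝ} (h : -Real.exp (-1) ≤ x) : MonotoneOn (fib x) (Icc (Ym (-x)) 1) := by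
  refine monotoneOn_of_deriv_nonneg (convex_Icc _ _) (N1B_cont_fib x).continuousOn
    (N1B_diff_fib x).differentiableOn fun Y hY => ?_
  rw [interior_Icc, mem_Ioo] at hY
  rw [N1B_deriv_fib]
  have h1 : Ym (-x) ≤ 1 := Ym_le (by linarith)
  have h2 : N1B_k (Ym (-x)) ≤ N1B_k Y :=
    N1B_mono_k.monotoneOn (mem_Iic.2 h1) (mem_Iic.2 hY.2.le) hY.1.le
  rw [N1B_k_Ym (by linarith)] at h2
  exact mul_nonneg (Real.exp_pos _).le (by linarith)

theorem fib_mono' {x : ℝ} (h : 0 ≤ x) : MonotoneOn (fib x) (Ici (Ym (-x))) := by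
  have he := Real.exp_pos (-1)
  refine monotoneOn_of_deriv_nonneg (convex_Ici _) (N1B_cont_fib x).continuousOn
    (N1B_diff_fib x).differentiableOn fun Y hY => ?_
  rw [interior_Ici, mem_Ioi] at hY
  rcases le_total Y 1 with h3 | h3
  · rw [N1B_deriv_fib]
    have h1 : Ym (-x) ≤ 1 := Ym_le (by linarith)
    have h2 : N1B_k (Ym (-x)) ≤ N1B_k Y :=
      N1B_mono_k.monotoneOn (mem_Iic.2 h1) (mem_Iic.2 h3) hY.le
    rw [N1B_k_Ym (by linarith)] at h2
    exact mul_nonneg (Real.exp_pos _).le (by linarith)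
  · rw [(hasDerivAt_fib x Y).deriv]
    have := Real.exp_pos Y
    positivity

theorem fib_min {x : ℝ} (h : 0 ≤ x) (Y : ℝ) : fib x (Ym (-x)) ≤ fib x Y := by
  have he := Real.exp_pos (-1)
  rcases le_total Y (Ym (-x)) with h1 | h1
  · exact fib_anti (by linarith) (mem_Iic.2 h1) (mem_Iic.2 le_rfl) h1
  · exact fib_mono' h (mem_Ici.2 le_rfl) (mem_Ici.2 h1) h1

theorem fib_strictMono {x : ℝ} (h : -Real.exp (-1) < x) (h0 : x < 0) :
    StrictMonoOn (fib x) (Icc (Ym (-x)) (Yp (-x))) := by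
  refine strictMonoOn_of_deriv_pos (convex_Icc _ _) (N1B_cont_fib x).continuousOn fun Y hY => ?_
  rw [interior_Icc, mem_Ioo] at hY
  rw [N1B_deriv_fib]
  refine mul_pos (Real.exp_pos _) ?_
  have h1 : Ym (-x) ≤ 1 := Ym_le (by linarith)
  have h2 : 1 ≤ Yp (-x) := one_le_Yp (by linarith) (by linarith)
  rcases le_total Y 1 with h3 | h3
  · have h4 : N1B_k (Ym (-x)) < N1B_k Y := N1B_mono_k (mem_Iic.2 h1) (mem_Iic.2 h3) hY.1
    rw [N1B_k_Ym (by linarith)] at h4
    linarith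
  · have h4 : N1B_k (Yp (-x)) < N1B_k Y := N1B_anti_k (mem_Ici.2 h3) (mem_Ici.2 h2) hY.2
    rw [N1B_k_Yp (by linarith) (by linarith)] at h4
    linarith

theorem fib_anti' {x : ℝ} (h : -Real.exp (-1) ≤ x) (h0 : x < 0) :
    AntitoneOn (fib x) (Ici (Yp (-x))) := by
  refine antitoneOn_of_deriv_nonpos (convex_Ici _) (N1B_cont_fib x).continuousOn
    (N1B_diff_fib x).differentiableOn fun Y hY => ?_
  rw [interior_Ici, mem_Ioi] at hY
  rw [N1B_deriv_fib]
  have h1 : 1 ≤ Yp (-x) := one_le_Yp (by linarith) (by linarith)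
  have h2 : N1B_k Y ≤ N1B_k (Yp (-x)) :=
    N1B_anti_k.antitoneOn (mem_Ici.2 h1) (mem_Ici.2 (h1.trans hY.le)) hY.le
  rw [N1B_k_Yp (by linarith) (by linarith)] at h2
  exact mul_nonpos_of_nonneg_of_nonpos (Real.exp_pos _).le (by linarith)

theorem fib_antitone {x : ℝ} (h : x ≤ -Real.exp (-1)) : Antitone (fib x) := by
  refine antitone_of_deriv_nonpos (N1B_diff_fib x) fun Y => ?_
  rw [N1B_deriv_fib]
  have h1 := N1B_k_le Y
  exact mul_nonpos_of_nonneg_of_nonpos (Real.exp_pos _).le (by linarith)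

end SokamN

end

/-! ### Lib_MP_af4de1_v.N1C -/

section
namespace SokamV
end SokamV
/-!
# The case `N = 1`: the channel

`m(s) = min_{Y ≤ 1} g(Y, s)`, `m' = m1`, `(1 - Y) m'' = -((a D + b)² + a² (1 - Y)²)`,
`D = (r/a) e^{b s} e^Y sin(a s + φ)`.
-/

namespace SokamN

open SokamV Filter Topology Set

namespace Par

variable (p : Par)

theorem g_eq (Y s : ℝ) : p.g Y s = fib (p.rho s) Y - s ^ (2 : ℕ) / 2 := by
  simp only [g, fib]; ring

theorem sL_nonpos : p.sL ≤ 0 := div_nonpos_of_nonpos_of_nonneg (by linarith [p.h1]) p.ha.le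

theorem sR_nonneg : 0 ≤ p.sR := div_nonneg (by linarith [p.h2]) p.ha.le

theorem sLL_lt_sL : p.sLL < p.sL :=
  div_lt_div_of_pos_right (by linarith [Real.pi_pos]) p.ha

theorem sL_lt_sR : p.sL < p.sR :=
  div_lt_div_of_pos_right (by linarith [Real.pi_pos]) p.ha

theorem sR_lt_sRR : p.sR < p.sRR :=
  div_lt_div_of_pos_right (by linarith [Real.pi_pos]) p.ha

private theorem N1C_arg (s : ℝ) : HasDerivAt (fun s : ℝ => p.a * s + p.φ) p.a s := by
  have h := ((hasDerivAt_id s).const_mul p.a).add_const p.φ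
  rw [mul_one] at h
  exact h

private theorem N1C_exp (s : ℝ) : HasDerivAt (fun s : ℝ => p.r / p.a * Real.exp (p.b * s))
    (p.r / p.a * Real.exp (p.b * s) * p.b) s := by
  have h := ((hasDerivAt_id s).const_mul p.b).exp.const_mul (p.r / p.a)
  have e : p.r / p.a * (Real.exp (p.b * id s) * (p.b * 1)) = p.r / p.a * Real.exp (p.b * s) * p.b := by
    simp only [id]
    ring
  rw [e] at h
  exact h

theorem hasDerivAt_rho (s : ℝ) : HasDerivAt p.rho (p.rho1 s) s := by
  have h := (p.N1C_exp s).mul (p.N1C_arg s).cos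
  have e : p.r / p.a * Real.exp (p.b * s) * p.b * Real.cos (p.a * s + p.φ) +
      p.r / p.a * Real.exp (p.b * s) * (-Real.sin (p.a * s + p.φ) * p.a) = p.rho1 s := by
    unfold rho1
    ring
  rw [e] at h
  exact h

theorem hasDerivAt_rho1 (s : ℝ) : HasDerivAt p.rho1 (p.rho2 s) s := by
  have h := (p.N1C_exp s).mul (((p.N1C_arg s).cos.const_mul p.b).sub
    ((p.N1C_arg s).sin.const_mul p.a))
  have e : p.r / p.a * Real.exp (p.b * s) * p.b *
      (p.b * Real.cos (p.a * s + p.φ) - p.a * Real.sin (p.a * s + p.φ)) +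
      p.r / p.a * Real.exp (p.b * s) * (p.b * (-Real.sin (p.a * s + p.φ) * p.a) -
        p.a * (Real.cos (p.a * s + p.φ) * p.a)) = p.rho2 s := by
    unfold rho2
    ring
  rw [← e]
  exact h

theorem continuous_rho : Continuous p.rho := by
  unfold rho; fun_prop

theorem continuous_rho1 : Continuous p.rho1 := by
  unfold rho1; fun_prop

theorem continuous_Y : Continuous p.Y := continuous_Ym.comp p.continuous_rho.neg

theorem continuous_m : Continuous p.m := by
  have h1 := p.continuous_rho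
  have h2 := p.continuous_Y
  unfold m g
  fun_prop

theorem continuous_m1 : Continuous p.m1 := by
  have h1 := p.continuous_rho1
  have h2 := p.continuous_Y
  unfold m1
  fun_prop

private theorem N1C_argL : p.a * p.sL + p.φ = Real.pi / 2 := by
  have h := p.ha.ne'
  unfold sL
  field_simp
  ring

private theorem N1C_argLL : p.a * p.sLL + p.φ = -(Real.pi / 2) := by
  have h := p.ha.ne'
  unfold sLL
  field_simp
  ring

theorem rho_sL : p.rho p.sL = 0 := by
  unfold rho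
  rw [N1C_argL, Real.cos_pi_div_two, mul_zero]

theorem rho_sLL : p.rho p.sLL = 0 := by
  unfold rho
  rw [N1C_argLL, Real.cos_neg, Real.cos_pi_div_two, mul_zero]

theorem rho_nonneg_finger {s : ℝ} (h1 : p.sLL ≤ s) (h2 : s ≤ p.sL) : 0 ≤ p.rho s := by
  have ha := p.ha
  have hr := p.hr
  have k1 := mul_le_mul_of_nonneg_left h1 ha.le
  have k2 := mul_le_mul_of_nonneg_left h2 ha.le
  have e1 := p.N1C_argL
  have e2 := p.N1C_argLL
  have hc : 0 ≤ Real.cos (p.a * s + p.φ) :=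
    Real.cos_nonneg_of_neg_pi_div_two_le_of_le (by linarith) (by linarith)
  unfold rho
  positivity

theorem rho_neg_window {s : ℝ} (h1 : p.sL < s) (h2 : s < p.sR) : p.rho s < 0 := by
  have ha := p.ha
  have hr := p.hr
  rw [sL, div_lt_iff₀ ha] at h1
  rw [sR, lt_div_iff₀ ha] at h2
  have hc : Real.cos (p.a * s + p.φ) < 0 :=
    Real.cos_neg_of_pi_div_two_lt_of_lt (by linarith) (by linarith)
  have : 0 < p.r / p.a * Real.exp (p.b * s) := by positivity
  exact mul_neg_of_pos_of_neg this hc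

theorem rho1_sL_neg : p.rho1 p.sL < 0 := by
  have ha := p.ha
  have hr := p.hr
  unfold rho1
  rw [N1C_argL, Real.cos_pi_div_two, Real.sin_pi_div_two, mul_zero, mul_one, zero_sub]
  have : 0 < p.r / p.a * Real.exp (p.b * p.sL) := by positivity
  exact mul_neg_of_pos_of_neg this (by linarith)

theorem rho1_sLL_pos : 0 < p.rho1 p.sLL := by
  have ha := p.ha
  have hr := p.hr
  unfold rho1
  rw [N1C_argLL, Real.cos_neg, Real.sin_neg, Real.cos_pi_div_two, Real.sin_pi_div_two, mul_zero,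
    mul_neg, mul_one, zero_sub, neg_neg]
  positivity

theorem m_sL : p.m p.sL = -p.sL ^ (2 : ℕ) / 2 := by
  simp only [m, g, Y, rho_sL, neg_zero, Ym_zero]; ring

theorem m_sLL : p.m p.sLL = -p.sLL ^ (2 : ℕ) / 2 := by
  simp only [m, g, Y, rho_sLL, neg_zero, Ym_zero]; ring

theorem Y_crit {s : ℝ} (h : -Real.exp (-1) ≤ p.rho s) :
    p.Y s + p.rho s * Real.exp (p.Y s) = 0 := Ym_crit h

theorem Y_le {s : ℝ} (h : -Real.exp (-1) ≤ p.rho s) : p.Y s ≤ 1 := Ym_le (by linarith)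

theorem Y_lt {s : ℝ} (h : -Real.exp (-1) < p.rho s) : p.Y s < 1 := Ym_lt (by linarith)

theorem hasDerivAt_Y {s : ℝ} (h : -Real.exp (-1) < p.rho s) :
    HasDerivAt p.Y (-p.rho1 s * Real.exp (p.Y s) / (1 - p.Y s)) s := by
  have h1 := HasDerivAt.comp s (hasDerivAt_Ym (x := -p.rho s) (by linarith))
    (p.hasDerivAt_rho s).neg
  have e : Real.exp (Ym (-p.rho s)) / (1 - Ym (-p.rho s)) * -p.rho1 s =
      -p.rho1 s * Real.exp (p.Y s) / (1 - p.Y s) := by
    unfold Y
    ring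
  rw [e] at h1
  exact h1

theorem hasDerivAt_m {s : ℝ} (h : -Real.exp (-1) < p.rho s) : HasDerivAt p.m (p.m1 s) s := by
  have hY := p.hasDerivAt_Y h
  have hcr := p.Y_crit h.le
  have h1 := (((hY.pow 2).sub ((hasDerivAt_id s).pow 2)).div_const 2).add
    ((p.hasDerivAt_rho s).mul hY.exp)
  set Y' := -p.rho1 s * Real.exp (p.Y s) / (1 - p.Y s) with hY'
  have e : (((2 : ℕ) : ℝ) * p.Y s ^ (2 - 1) * Y' - ((2 : ℕ) : ℝ) * id s ^ (2 - 1) * 1) / 2 +
      (p.rho1 s * Real.exp (p.Y s) + p.rho s * (Real.exp (p.Y s) * Y')) = p.m1 s := by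
    unfold m1
    simp only [id]
    push_cast
    linear_combination Y' * hcr
  rw [e] at h1
  exact h1

/-- The second derivative of the channel. -/
theorem hess_neg {s : ℝ} (h : -Real.exp (-1) < p.rho s) :
    -1 + p.rho2 s * Real.exp (p.Y s) - (p.rho1 s * Real.exp (p.Y s)) ^ (2 : ℕ) / (1 - p.Y s) < 0 := by
  have ha := p.ha
  have hab := p.hab
  have hlt := p.Y_lt h
  have hcr := p.Y_crit h.le
  have h1Y : 0 < 1 - p.Y s := by linarith
  set C := p.r / p.a * Real.exp (p.b * s) * Real.exp (p.Y s) * Real.cos (p.a * s + p.φ) with hC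
  set D := p.r / p.a * Real.exp (p.b * s) * Real.exp (p.Y s) * Real.sin (p.a * s + p.φ) with hD
  have e1 : p.rho s * Real.exp (p.Y s) = C := by rw [rho, hC]; ring
  have e2 : p.rho1 s * Real.exp (p.Y s) = p.b * C - p.a * D := by rw [rho1, hC, hD]; ring
  have e3 : p.rho2 s * Real.exp (p.Y s) = (p.b ^ (2 : ℕ) - p.a ^ (2 : ℕ)) * C - 2 * p.a * p.b * D := by
    rw [rho2, hC, hD]; ring
  rw [e1] at hcr
  have hC' : C = -p.Y s := by linarith
  rw [e2, e3, hC']
  have key : (-1 + ((p.b ^ (2 : ℕ) - p.a ^ (2 : ℕ)) * -p.Y s - 2 * p.a * p.b * D) -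
      (p.b * -p.Y s - p.a * D) ^ (2 : ℕ) / (1 - p.Y s)) =
      -((p.a * D + p.b) ^ (2 : ℕ) + p.a ^ (2 : ℕ) * (1 - p.Y s) ^ (2 : ℕ)) / (1 - p.Y s) := by
    rw [eq_div_iff h1Y.ne', sub_mul, div_mul_cancel₀ _ h1Y.ne']
    linear_combination (1 - p.Y s) * hab
  rw [key]
  apply div_neg_of_neg_of_pos _ h1Y
  have : 0 < p.a ^ (2 : ℕ) * (1 - p.Y s) ^ (2 : ℕ) := by positivity
  nlinarith only [this]

theorem hasDerivAt_m1 {s : ℝ} (h : -Real.exp (-1) < p.rho s) :
    HasDerivAt p.m1 (-1 + p.rho2 s * Real.exp (p.Y s)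
      - (p.rho1 s * Real.exp (p.Y s)) ^ (2 : ℕ) / (1 - p.Y s)) s := by
  have hY := p.hasDerivAt_Y h
  have h1 := (hasDerivAt_id s).neg.add ((p.hasDerivAt_rho1 s).mul hY.exp)
  have e : -1 + (p.rho2 s * Real.exp (p.Y s) +
      p.rho1 s * (Real.exp (p.Y s) * (-p.rho1 s * Real.exp (p.Y s) / (1 - p.Y s)))) =
      -1 + p.rho2 s * Real.exp (p.Y s) - (p.rho1 s * Real.exp (p.Y s)) ^ (2 : ℕ) / (1 - p.Y s) := by
    ring
  rw [e] at h1
  exact h1

theorem m1_strictAnti {s1 s2 : ℝ} (h : ∀ s ∈ Ioo s1 s2, -Real.exp (-1) < p.rho s) :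
    StrictAntiOn p.m1 (Icc s1 s2) := by
  refine strictAntiOn_of_deriv_neg (convex_Icc s1 s2) p.continuous_m1.continuousOn ?_
  intro s hs
  rw [interior_Icc] at hs
  rw [(p.hasDerivAt_m1 (h s hs)).deriv]
  exact p.hess_neg (h s hs)

/-- The channel rises up to a point with `m1 ≥ 0`. -/
theorem m_strictMono {s1 s2 : ℝ} (h : ∀ s ∈ Ioo s1 s2, -Real.exp (-1) < p.rho s)
    (h2 : 0 ≤ p.m1 s2) : StrictMonoOn p.m (Icc s1 s2) := by
  refine strictMonoOn_of_deriv_pos (convex_Icc s1 s2) p.continuous_m.continuousOn ?_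
  intro s hs
  rw [interior_Icc] at hs
  rw [(p.hasDerivAt_m (h s hs)).deriv]
  refine h2.trans_lt ?_
  exact p.m1_strictAnti h ⟨hs.1.le, hs.2.le⟩ ⟨(hs.1.trans hs.2).le, le_rfl⟩ hs.2

/-- The channel falls after a point with `m1 ≤ 0`. -/
theorem m_strictAnti {s1 s2 : ℝ} (h : ∀ s ∈ Ioo s1 s2, -Real.exp (-1) < p.rho s)
    (h2 : p.m1 s1 ≤ 0) : StrictAntiOn p.m (Icc s1 s2) := by
  refine strictAntiOn_of_deriv_neg (convex_Icc s1 s2) p.continuous_m.continuousOn ?_
  intro s hs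
  rw [interior_Icc] at hs
  rw [(p.hasDerivAt_m (h s hs)).deriv]
  refine lt_of_lt_of_le ?_ h2
  exact p.m1_strictAnti h ⟨le_rfl, (hs.1.trans hs.2).le⟩ ⟨hs.1.le, hs.2.le⟩ hs.1

theorem m1_sLL_pos : 0 < p.m1 p.sLL := by
  have h1 := p.sLL_lt_sL
  have h2 := p.sL_nonpos
  have h3 := p.rho1_sLL_pos
  have h4 : 0 < p.rho1 p.sLL * Real.exp (p.Y p.sLL) := by positivity
  unfold m1
  linarith

/-- The direction of the channel at a saddle point. -/
theorem chan_dir {s : ℝ} (h : -Real.exp (-1) < p.rho s) (h0 : p.m1 s = 0) :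
    (1 - p.Y s) * (-s / (1 - p.Y s)) ^ (2 : ℕ) + 2 * s * (-s / (1 - p.Y s)) * 1
      + (-1 + p.rho2 s * Real.exp (p.Y s)) * 1 ^ (2 : ℕ) < 0 := by
  have h1 := p.hess_neg h
  have h1Y : 0 < 1 - p.Y s := by linarith [p.Y_lt h]
  have h2 : p.rho1 s * Real.exp (p.Y s) = s := by
    unfold m1 at h0
    linarith
  rw [h2] at h1
  have e : (1 - p.Y s) * (-s / (1 - p.Y s)) ^ (2 : ℕ) + 2 * s * (-s / (1 - p.Y s)) * 1
      + (-1 + p.rho2 s * Real.exp (p.Y s)) * 1 ^ (2 : ℕ) =
      -1 + p.rho2 s * Real.exp (p.Y s) - s ^ (2 : ℕ) / (1 - p.Y s) := by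
    have h3 := h1Y.ne'
    field_simp
    ring
  rw [e]
  exact h1

/-- From a point `Y ≤ 1` to the bottom of the channel. -/
theorem SC_chan {s Y c : ℝ} (h : -Real.exp (-1) ≤ p.rho s) (hY : Y ≤ 1) (hc : p.g Y s < c) :
    SC p.G (p.a * c) (p.pt Y s) (p.pt (p.Y s) s) := by
  have hb : ∀ Y' : ℝ, fib (p.rho s) Y' ≤ fib (p.rho s) Y → p.g Y' s < c := by
    intro Y' h'
    rw [g_eq] at hc ⊢
    linarith
  rcases le_total Y (p.Y s) with hle | hle
  · refine p.SC_horiz hle fun Y' hY' => hb Y' ?_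
    exact fib_anti h (mem_Iic.2 hle) (mem_Iic.2 hY'.2) hY'.1
  · refine SC.symm (p.SC_horiz hle fun Y' hY' => hb Y' ?_)
    exact fib_mono h ⟨hY'.1, hY'.2.trans hY⟩ ⟨hle, hY⟩ hY'.2

/-- Along the channel. -/
theorem SC_along {s1 s2 c : ℝ} (h12 : s1 ≤ s2) (h : ∀ s ∈ Icc s1 s2, p.m s < c) :
    SC p.G (p.a * c) (p.pt (p.Y s1) s1) (p.pt (p.Y s2) s2) :=
  p.SC_graph (f := p.Y) h12 p.continuous_Y.continuousOn h

end Par

end SokamN

end

/-! ### Lib_MP_af4de1_v.N1D -/

section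
namespace SokamV
end SokamV
/-!
# The case `N = 1`: far from window 0

For `s ≤ sLL` the convexified height `min_Y ((Y² - s²)/2 + ρ(s)₊ e^Y)` is below every `c` which is
at least `m` on the neighbouring finger.  Proof for `ρ(s) > 0`: `θ = a s + φ + 2 π k ∈ (-π/2, π/2)`,
`k ≥ 1`, `λ = φ/(φ + 2 π k)`; the point `λ s` is in the neighbouring finger, with angle `λ θ`; for
fixed `X` the height `a (X² - T²)/2 - b X T + r e^X cos θ` is concave along the segment from
`(T, θ) = (0, 0)` (where it is positive) to `(a s, θ)`.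
-/

namespace SokamN

open SokamV Complex Filter Topology Set

namespace Par

variable (p : Par)

/-- Bottom of the convexified fibre. -/
noncomputable def Yq (s : ℝ) : ℝ := Ym (-max (p.rho s) 0)

/-- Minimum of the convexified height on the fibre. -/
noncomputable def Mq (s : ℝ) : ℝ := fib (max (p.rho s) 0) (p.Yq s) - s ^ (2 : ℕ) / 2

theorem continuous_Yq : Continuous p.Yq := by
  have h1 := p.continuous_rho
  have h2 := continuous_Ym
  unfold Yq
  fun_prop

theorem continuous_Mq : Continuous p.Mq := by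
  have h1 := p.continuous_rho
  have h2 := p.continuous_Yq
  unfold Mq fib
  fun_prop

private theorem g_le_fib (Y s : ℝ) : p.g Y s ≤ fib (max (p.rho s) 0) Y - s ^ (2 : ℕ) / 2 := by
  have h : p.rho s * Real.exp Y ≤ max (p.rho s) 0 * Real.exp Y :=
    mul_le_mul_of_nonneg_right (le_max_left _ _) (Real.exp_pos Y).le
  simp only [g, fib]
  linarith

theorem g_Yq_le (s : ℝ) : p.g (p.Yq s) s ≤ p.Mq s := p.g_le_fib _ _

private theorem Mq_le_fib (Y s : ℝ) : p.Mq s ≤ fib (max (p.rho s) 0) Y - s ^ (2 : ℕ) / 2 := by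
  have h := fib_min (le_max_right (p.rho s) 0) Y
  simp only [Mq, Yq]
  linarith

private theorem max_rho_le (s : ℝ) : max (p.rho s) 0 ≤ p.r / p.a * Real.exp (p.b * s) := by
  have h0 : 0 < p.r / p.a * Real.exp (p.b * s) :=
    mul_pos (div_pos p.hr p.ha) (Real.exp_pos _)
  refine max_le ?_ h0.le
  calc p.rho s = p.r / p.a * Real.exp (p.b * s) * Real.cos (p.a * s + p.φ) := rfl
    _ ≤ p.r / p.a * Real.exp (p.b * s) * 1 := mul_le_mul_of_nonneg_left (Real.cos_le_one _) h0.le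
    _ = _ := mul_one _

/-- the height in the coordinates `X`, `T` -/
private theorem a_g (Y s : ℝ) : p.a * p.g Y s = p.a * ((Y + p.b * s) ^ (2 : ℕ) - (p.a * s) ^ (2 : ℕ)) / 2 -
    p.b * (Y + p.b * s) * (p.a * s) +
    p.r * Real.exp (Y + p.b * s) * Real.cos (p.a * s + p.φ) := by
  have ha := p.ha.ne'
  have hab := p.hab
  have h1 : p.a * (p.rho s * Real.exp Y) =
      p.r * Real.exp (Y + p.b * s) * Real.cos (p.a * s + p.φ) := by
    rw [rho, Real.exp_add]
    field_simp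
  rw [g]
  linear_combination h1 + (p.a * s ^ (2 : ℕ) / 2) * hab

/-- the concavity argument -/
private theorem far_core {a b l X T E C C' M g m : ℝ} (ha : 0 < a) (hl0 : 0 < l) (hl1 : l < 1)
    (hE : 0 < E) (hcc : l * C + (1 - l) ≤ C')
    (e2 : a * m = a * (X ^ (2 : ℕ) - (l * T) ^ (2 : ℕ)) / 2 - b * X * (l * T) + E * C')
    (e3 : a * g = a * (X ^ (2 : ℕ) - T ^ (2 : ℕ)) / 2 - b * X * T + E * C) (e4 : M ≤ g) : l * M < m := by
  have e5 : a * M ≤ a * g := mul_le_mul_of_nonneg_left e4 ha.le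
  have e6 : E * (l * C + (1 - l)) ≤ E * C' := mul_le_mul_of_nonneg_left hcc hE.le
  have e7 : 0 < (1 - l) * (a * X ^ (2 : ℕ) / 2 + E) := mul_pos (by linarith) (by (clear * - ha hE; positivity))
  have e8 : 0 ≤ a * (l - l ^ (2 : ℕ)) * T ^ (2 : ℕ) / 2 := by
    have : 0 ≤ l - l ^ (2 : ℕ) := by nlinarith only [hl0, hl1]
    (clear * - ha this; positivity)
  have e9 : l * (a * M) ≤ l * (a * g) := mul_le_mul_of_nonneg_left e5 hl0.le
  have e10 : a * (l * M) < a * m := by
    rw [e3] at e9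
    rw [e2]
    linarith only [e6, e7, e8, e9]
  exact lt_of_mul_lt_mul_left e10 ha.le

/-- The far fingers. -/
theorem Mq_lt {c : ℝ} (NT : ∀ s, 0 ≤ p.rho s → p.m s ≤ 0)
    (h1 : ∀ s ∈ Icc p.sLL p.sL, p.m s ≤ c) {s : ℝ} (hs : s ≤ p.sLL) : p.Mq s < c := by
  have ha := p.ha
  have hpi := Real.pi_pos
  have hLL := p.sLL_lt_sL
  have hL := p.sL_nonpos
  rcases le_or_gt (p.rho s) 0 with hr | hr
  · have e1 : p.Mq s = -s ^ (2 : ℕ) / 2 := by
      simp only [Mq, Yq, max_eq_right hr, neg_zero, Ym_zero, fib]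
      ring
    have h2 := h1 p.sL ⟨hLL.le, le_rfl⟩
    rw [m_sL] at h2
    rw [e1]
    nlinarith only [hs, hLL, hL, h2]
  · -- the angle
    set ψ : ℝ := p.a * s + p.φ with hψ
    have hcos : 0 < Real.cos ψ := by
      by_contra hcon
      push Not at hcon
      have h0 : 0 < p.r / p.a * Real.exp (p.b * s) :=
        mul_pos (div_pos p.hr p.ha) (Real.exp_pos _)
      have : p.rho s ≤ 0 := mul_nonpos_of_nonneg_of_nonpos h0.le hcon
      linarith
    have hψ2 : ψ ≤ -(Real.pi / 2) := by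
      have h2 : s ≤ (-Real.pi / 2 - p.φ) / p.a := hs
      rw [le_div_iff₀ ha] at h2
      rw [hψ]; linarith
    set k : ℤ := ⌊(Real.pi / 2 - ψ) / (2 * Real.pi)⌋ with hk
    set θ : ℝ := ψ + 2 * Real.pi * k with hθ
    have hk1 : (k : ℝ) ≤ (Real.pi / 2 - ψ) / (2 * Real.pi) := Int.floor_le _
    have hk2 : (Real.pi / 2 - ψ) / (2 * Real.pi) < k + 1 := Int.lt_floor_add_one _
    rw [le_div_iff₀ (by positivity)] at hk1
    rw [div_lt_iff₀ (by positivity)] at hk2
    have hcθ : Real.cos θ = Real.cos ψ := by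
      rw [hθ, show ψ + 2 * Real.pi * k = ψ + k * (2 * Real.pi) by ring]
      exact Real.cos_add_int_mul_two_pi ψ k
    have hθ1 : θ ≤ Real.pi / 2 := by rw [hθ]; linarith
    have hθ2 : -(Real.pi / 2) < θ := by
      by_contra hcon
      push Not at hcon
      have h2 : Real.cos (-θ) ≤ 0 :=
        Real.cos_nonpos_of_pi_div_two_le_of_le (by linarith) (by rw [hθ]; linarith)
      rw [Real.cos_neg, hcθ] at h2
      linarith
    have hkpos : (0 : ℝ) < k := by
      have : 0 < 2 * Real.pi * k := by rw [hθ] at hθ2; linarith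
      by_contra hcon
      push Not at hcon
      nlinarith only [hθ1, hθ2, this, hcon]
    have hφ : 0 < p.φ := by linarith [p.h1]
    have hden : 0 < p.φ + 2 * Real.pi * k := by (clear * - hφ hkpos; positivity)
    set l : ℝ := p.φ / (p.φ + 2 * Real.pi * k) with hl
    have hl0 : 0 < l := div_pos hφ hden
    have hl1 : l < 1 := by
      rw [hl, div_lt_one hden]
      have : 0 < 2 * Real.pi * k := by (clear * - hkpos; positivity)
      linarith
    have hlφ : l * (p.φ + 2 * Real.pi * k) = p.φ := div_mul_cancel₀ _ hden.ne'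
    set s' : ℝ := l * s with hs'
    have e1 : p.a * s' + p.φ = l * θ := by
      rw [hs', hθ, hψ]
      linear_combination -hlφ
    have hlθ1 : l * θ < Real.pi / 2 := by
      rcases le_or_gt θ 0 with h | h
      · nlinarith only [hθ2, hl0, h]
      · nlinarith only [hθ1, hl1, h]
    have hlθ2 : -(Real.pi / 2) < l * θ := by
      rcases le_or_gt θ 0 with h | h
      · nlinarith only [hθ1, hθ2, hl0, hl1]
      · nlinarith only [hl0, hlθ1, h]
    have hs1 : p.sLL ≤ s' := by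
      rw [sLL, div_le_iff₀ ha]; linarith only [e1, hlθ2]
    have hs2 : s' ≤ p.sL := by
      rw [sL, le_div_iff₀ ha]; linarith only [e1, hlθ1]
    have hm := h1 s' ⟨hs1, hs2⟩
    have hm0 := NT s' (p.rho_nonneg_finger hs1 hs2)
    -- concavity
    have hcc : l * Real.cos θ + (1 - l) ≤ Real.cos (l * θ) := by
      have h2 := strictConcaveOn_cos_Icc.concaveOn.2
        (show θ ∈ Icc (-(Real.pi / 2)) (Real.pi / 2) from ⟨hθ2.le, hθ1⟩)
        (show (0 : ℝ) ∈ Icc (-(Real.pi / 2)) (Real.pi / 2) from ⟨by linarith, by linarith⟩)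
        hl0.le (show 0 ≤ 1 - l by linarith) (by ring)
      simpa only [smul_eq_mul, mul_zero, add_zero, Real.cos_zero, mul_one] using h2
    set X : ℝ := p.Y s' + p.b * s' with hX
    have e2 := p.a_g (p.Y s') s'
    rw [← hX, e1] at e2
    have e3 := p.a_g (X - p.b * s) s
    rw [show X - p.b * s + p.b * s = X by ring, ← hψ, ← hcθ] at e3
    have e4 : p.Mq s ≤ p.g (X - p.b * s) s := by
      have h2 := p.Mq_le_fib (X - p.b * s) s
      rw [max_eq_left hr.le] at h2
      rw [g_eq]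
      exact h2
    have hre : 0 < p.r * Real.exp X := mul_pos p.hr (Real.exp_pos X)
    have e11 : p.a * s' = l * (p.a * s) := by rw [hs']; ring
    rw [e11] at e2
    have e12 : l * p.Mq s < p.m s' := far_core ha hl0 hl1 hre hcc e2 e3 e4
    have e13 : p.Mq s < 0 := by
      by_contra hcon
      push Not at hcon
      have : 0 ≤ l * p.Mq s := mul_nonneg hl0.le hcon
      linarith
    have e14 : p.Mq s ≤ l * p.Mq s := by nlinarith only [hl1, e13]
    linarith

theorem Mq_le (s : ℝ) : p.Mq s ≤ p.r / p.a - p.a ^ (2 : ℕ) * s ^ (2 : ℕ) / 2 := by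
  have h1 := p.Mq_le_fib (-(p.b * s)) s
  have h2 := p.max_rho_le s
  have h3 : max (p.rho s) 0 * Real.exp (-(p.b * s)) ≤ p.r / p.a := by
    calc max (p.rho s) 0 * Real.exp (-(p.b * s))
        ≤ p.r / p.a * Real.exp (p.b * s) * Real.exp (-(p.b * s)) :=
          mul_le_mul_of_nonneg_right h2 (Real.exp_pos _).le
      _ = p.r / p.a := by
          rw [mul_assoc, ← Real.exp_add, add_neg_cancel, Real.exp_zero, mul_one]
  have hab := p.hab
  rw [fib] at h1
  nlinarith only [h1, h3, hab]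

/-- the height at `x0 - R i` -/
private theorem far_top (x0 s : ℝ) : fib (max (p.rho s) 0) (x0 - p.b * s) - s ^ (2 : ℕ) / 2 ≤
    p.r / p.a * Real.exp x0 + x0 ^ (2 : ℕ) / 2 - x0 * p.b * s - p.a ^ (2 : ℕ) * s ^ (2 : ℕ) / 2 := by
  have h2 := p.max_rho_le s
  have h3 : max (p.rho s) 0 * Real.exp (x0 - p.b * s) ≤ p.r / p.a * Real.exp x0 := by
    calc max (p.rho s) 0 * Real.exp (x0 - p.b * s)
        ≤ p.r / p.a * Real.exp (p.b * s) * Real.exp (x0 - p.b * s) :=
          mul_le_mul_of_nonneg_right h2 (Real.exp_pos _).le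
      _ = p.r / p.a * Real.exp x0 := by
          rw [mul_assoc, ← Real.exp_add, add_sub_cancel]
  have hab := p.hab
  rw [fib]
  nlinarith only [h3, hab]

/-- on a fibre between two points the convexified height is at most the one of the outer point -/
private theorem fib_between {x Y Z W : ℝ} (hx : 0 ≤ x)
    (h : (Z ≤ W ∧ W ≤ Ym (-x)) ∨ (Ym (-x) ≤ W ∧ W ≤ Z)) (_ : Y = Y) : fib x W ≤ fib x Z := by
  rcases h with ⟨h1, h2⟩ | ⟨h1, h2⟩
  · exact fib_anti (by linarith [Real.exp_pos (-1)]) (h1.trans h2) h2 h1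
  · exact fib_mono' hx h1 (h1.trans h2) h2

/-- a uniform level below `c` -/
private theorem far_level {c : ℝ} (NT : ∀ s, 0 ≤ p.rho s → p.m s ≤ 0)
    (h1 : ∀ s ∈ Icc p.sLL p.sL, p.m s ≤ c) : ∃ c2 < c, ∀ s ≤ p.sLL, p.Mq s < c2 := by
  have ha := p.ha
  -- far away
  set S : ℝ := -(1 + 2 * (|c| + 1 + p.r / p.a) / p.a ^ (2 : ℕ)) with hS
  have hra : 0 < p.r / p.a := div_pos p.hr ha
  have hfar : ∀ s ≤ S, p.Mq s < c - 1 := by
    intro s hs
    have h2 := p.Mq_le s
    have hc : -|c| ≤ c := neg_abs_le c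
    set w : ℝ := 2 * (|c| + 1 + p.r / p.a) / p.a ^ (2 : ℕ) with hw
    have hw0 : 0 < w := by (clear * - hra ha; positivity)
    have hwa : w * p.a ^ (2 : ℕ) = 2 * (|c| + 1 + p.r / p.a) := div_mul_cancel₀ _ (by (clear * - ha; positivity))
    have h3 : 1 + w ≤ -s := by rw [hS] at hs; linarith
    have h4 : w < s ^ (2 : ℕ) := by nlinarith only [h3]
    have h5 : w * p.a ^ (2 : ℕ) < p.a ^ (2 : ℕ) * s ^ (2 : ℕ) := by
      rw [mul_comm]
      exact mul_lt_mul_of_pos_left h4 (by (clear * - ha; positivity))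
    linarith
  rcases le_or_gt p.sLL S with h | h
  · exact ⟨c - 1, by linarith, fun s hs => hfar s (hs.trans h)⟩
  · obtain ⟨s0, hs0, hmax⟩ := isCompact_Icc.exists_isMaxOn (nonempty_Icc.2 h.le)
      (p.continuous_Mq.continuousOn (s := Icc S p.sLL))
    have h0 : p.Mq s0 < c := p.Mq_lt NT h1 hs0.2
    refine ⟨(max (p.Mq s0) (c - 1) + c) / 2, ?_, ?_⟩
    · have : max (p.Mq s0) (c - 1) < c := max_lt h0 (by linarith)
      linarith
    · intro s hs
      have hlt : max (p.Mq s0) (c - 1) < c := max_lt h0 (by linarith)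
      rcases le_or_gt S s with h2 | h2
      · have h3 : p.Mq s ≤ p.Mq s0 := hmax ⟨h2, hs⟩
        have h4 := le_max_left (p.Mq s0) (c - 1)
        linarith
      · have h3 := hfar s h2.le
        have h4 := le_max_right (p.Mq s0) (c - 1)
        linarith

/-- The contour comes from `x0 - i∞`. -/
theorem far_conn {c : ℝ} (NT : ∀ s, 0 ≤ p.rho s → p.m s ≤ 0)
    (h1 : ∀ s ∈ Icc p.sLL p.sL, p.m s ≤ c) (x0 : ℝ) :
    ∃ c' < p.a * c, ∃ R0 : ℝ, ∀ R : ℝ, R0 ≤ R →
      Conn p.G c' (x0 - R * I) (p.pt 0 p.sLL) := by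
  have ha := p.ha
  obtain ⟨c2, hc2, hlev⟩ := p.far_level NT h1
  -- the height at the far end
  have hlim : Tendsto (fun s : ℝ => p.r / p.a * Real.exp x0 + x0 ^ (2 : ℕ) / 2 - x0 * p.b * s -
      p.a ^ (2 : ℕ) * s ^ (2 : ℕ) / 2) atBot atBot := by
    have e : (fun s : ℝ => p.r / p.a * Real.exp x0 + x0 ^ (2 : ℕ) / 2 - x0 * p.b * s -
        p.a ^ (2 : ℕ) * s ^ (2 : ℕ) / 2) = fun s : ℝ => (p.r / p.a * Real.exp x0 + x0 ^ (2 : ℕ) / 2) +
        s * (-(x0 * p.b) - p.a ^ (2 : ℕ) / 2 * s) := by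
      funext s; ring
    rw [e]
    refine tendsto_atBot_add_const_left _ _ ?_
    refine tendsto_id.atBot_mul_atTop₀ ?_
    have : Tendsto (fun s : ℝ => -(x0 * p.b) + (-(p.a ^ (2 : ℕ) / 2)) * s) atBot atTop := by
      refine tendsto_atTop_add_const_left _ _ ?_
      exact tendsto_id.const_mul_atBot_of_neg (by have := pow_pos ha 2; linarith)
    refine this.congr fun s => ?_
    ring
  obtain ⟨S, hS⟩ := (hlim.eventually_lt_atBot c2).exists_forall_of_atBot
  refine ⟨p.a * c2, mul_lt_mul_of_pos_left hc2 ha, -(p.a * min S p.sLL), ?_⟩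
  intro R hR
  set s : ℝ := -R / p.a with hs
  have has : p.a * s = -R := by rw [hs]; field_simp
  have hs1 : s ≤ min S p.sLL := by
    have : p.a * s ≤ p.a * min S p.sLL := by rw [has]; linarith
    exact le_of_mul_le_mul_left this ha
  have hsS : s ≤ S := hs1.trans (min_le_left _ _)
  have hsL : s ≤ p.sLL := hs1.trans (min_le_right _ _)
  have htop := (p.far_top x0 s).trans_lt (hS s hsS)
  have e0 : (x0 - R * I : ℂ) = p.pt (x0 - p.b * s) s := by
    rw [pt_eq]
    have : (R : ℂ) = -(p.a * s : ℝ) := by rw [has]; push_cast; ring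
    rw [this]
    push_cast
    ring
  have e1 : p.Yq p.sLL = 0 := by
    rw [Yq, rho_sLL, max_self, neg_zero, Ym_zero]
  -- along the bottom
  have hgraph : Conn p.G (p.a * c2) (p.pt (p.Yq s) s) (p.pt 0 p.sLL) := by
    obtain ⟨c3, hc3, h3⟩ := p.SC_graph (f := p.Yq) hsL p.continuous_Yq.continuousOn
      (c := c2) (fun t ht => (p.g_Yq_le t).trans_lt (hlev t ht.2))
    rw [e1] at h3
    exact h3.mono hc3.le
  have hx : 0 ≤ max (p.rho s) 0 := le_max_right _ _
  rw [e0]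
  refine Conn.trans ?_ hgraph
  rcases le_total (x0 - p.b * s) (p.Yq s) with h | h
  · obtain ⟨c3, hc3, h3⟩ := p.SC_horiz h (c := c2) (fun Y hY =>
      ((p.g_le_fib Y s).trans (sub_le_sub_right (fib_between (Y := 0) hx
        (Or.inl ⟨hY.1, hY.2⟩) rfl) _)).trans_lt htop)
    exact h3.mono hc3.le
  · obtain ⟨c3, hc3, h3⟩ := p.SC_horiz h (c := c2) (fun Y hY =>
      ((p.g_le_fib Y s).trans (sub_le_sub_right (fib_between (Y := 0) hx
        (Or.inr ⟨hY.1, hY.2⟩) rfl) _)).trans_lt htop)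
    exact (h3.mono hc3.le).symm

end Par

end SokamN

end

/-! ### Lib_MP_af4de1_v.N1E0 -/

section
namespace SokamV
end SokamV
/-!
# The case `N = 1`: glueing
-/

namespace SokamN

open SokamV Complex Filter Topology Set

namespace Par

variable (p : Par)

/-- Glue: from far, along `SC` connections, over one saddle point. -/
theorem glue {c x0 : ℝ} (NT : ∀ s, 0 ≤ p.rho s → p.m s ≤ 0)
    (h1 : ∀ s ∈ Icc p.sLL p.sL, p.m s ≤ c) {S v : ℂ} {P : ℝ → ℂ}
    (hA : SC p.G (p.a * c) (p.pt 0 p.sLL) (S - v)) (hS : Sad p.u (Ph p.ζ) (p.a * c) S v)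
    (hB : ∃ c' < p.a * c, ∃ Y0 : ℝ, ∀ Yb : ℝ, Y0 ≤ Yb → Conn p.G c' (S + v) (P Yb)) :
    ∃ c' < p.a * c, ∃ Y0 : ℝ, ∀ Yb : ℝ, Y0 ≤ Yb → ∃ R0 : ℝ, ∀ R : ℝ, R0 ≤ R →
      Chain p.u (Ph p.ζ) (p.a * c) c' (x0 - R * I) [S] (P Yb) := by
  obtain ⟨c1, hc1, R0, hfar⟩ := p.far_conn NT h1 x0
  obtain ⟨c2, hc2, hA'⟩ := hA
  obtain ⟨c3, hc3, Y0, hB'⟩ := hB
  refine ⟨max (max c1 c2) c3, max_lt (max_lt hc1 hc2) hc3, Y0, fun Yb hYb => ⟨R0, fun R hR => ?_⟩⟩
  refine Chain.cons (v := v) ?_ hS (Chain.nil ?_)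
  · exact ((hfar R hR).mono ((le_max_left c1 c2).trans (le_max_left _ c3))).trans
      (hA'.mono ((le_max_right c1 c2).trans (le_max_left _ c3)))
  · exact (hB' Yb hYb).mono (le_max_right _ c3)

/-- From a point on a fibre of the window on which the height falls, into the sea. -/
theorem to_sea {s Y1 c sb : ℝ} (h1 : p.sL < s) (h2 : s < p.sR) (h3 : p.sL < sb) (h4 : sb < p.sR)
    (hg : p.g Y1 s < c) (hf : AntitoneOn (fib (p.rho s)) (Ici Y1)) :
    ∃ c' < p.a * c, ∃ Y0 : ℝ, ∀ Yb : ℝ, Y0 ≤ Yb →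
      Conn p.G c' (p.pt Y1 s) (p.pt Yb sb) := by
  obtain ⟨c0, hc0, hc0'⟩ := exists_between hg
  obtain ⟨Y0, hY0⟩ := p.SC_sea h1 h2 h3 h4 c0
  refine ⟨p.a * c0, mul_lt_mul_of_pos_left hc0' p.ha, max Y0 Y1, fun Yb hYb => ?_⟩
  have hY1 : Y1 ≤ Yb := (le_max_right _ _).trans hYb
  obtain ⟨c1, hc1, k1⟩ := p.SC_horiz (s := s) hY1 (c := c0) (fun Y hY => by
    have h5 : fib (p.rho s) Y ≤ fib (p.rho s) Y1 := hf (mem_Ici.2 le_rfl) (mem_Ici.2 hY.1) hY.1
    rw [g_eq] at hc0 ⊢
    linarith)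
  obtain ⟨c2, hc2, k2⟩ := hY0 Yb ((le_max_left _ _).trans hYb)
  exact (k1.mono hc1.le).trans (k2.mono hc2.le)

end Par

end SokamN

end

/-! ### Lib_MP_af4de1_v.N1F1 -/

section
namespace SokamV
end SokamV
/-!
# The case `N = 1`: parameters
-/

namespace SokamN

open SokamV Complex Filter Topology Set

namespace Par

variable (p : Par)

private theorem N1F1_conj {u : ℂ} (hu : ‖u‖ = 1) : (⟨u.re, -u.im⟩ : ℂ) * u = 1 := by
  have h : u.re * u.re + u.im * u.im = 1 := by
    have h1 := Complex.normSq_eq_norm_sq u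
    rw [hu, Complex.normSq_apply] at h1
    linarith only [h1]
  apply Complex.ext
  · simp only [Complex.mul_re, Complex.one_re]
    linarith only [h]
  · simp only [Complex.mul_im, Complex.one_im]
    ring

/-- Parameters from `u`, `ζ`. -/
theorem exists_par {u ζ : ℂ} (hu : ‖u‖ = 1) (ha : 0 < u.re) (hζ : ζ ≠ 0)
    (hT : ¬ TopPos u ζ) : ∃ p : Par, p.u = u ∧ p.ζ = ζ := by
  have hu0 : u ≠ 0 := by
    intro h
    rw [h, norm_zero] at hu
    exact zero_ne_one hu
  have hw : u * ζ ≠ 0 := mul_ne_zero hu0 hζ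
  have hab : u.re ^ (2 : ℕ) + u.im ^ (2 : ℕ) = 1 := by
    have h1 := Complex.normSq_eq_norm_sq u
    rw [hu, Complex.normSq_apply] at h1
    linarith only [h1]
  have hr : 0 < ‖u * ζ‖ := norm_pos_iff.2 hw
  have hexp : (‖u * ζ‖ : ℂ) * cexp (arg (u * ζ) * I) = u * ζ := Complex.norm_mul_exp_arg_mul_I _
  have hre : (u * ζ).re ≤ 0 := by
    by_contra hcon
    push Not at hcon
    refine hT ⟨0, min (u.re / 2) ((u * ζ).re * Real.exp (-1)), ?_, fun X => ?_⟩
    · exact lt_min (by linarith only [ha]) (mul_pos hcon (Real.exp_pos _))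
    · unfold Gp
      have h1 : max ((u * ζ * cexp (((0 : ℝ) : ℂ) * I)).re) 0 = (u * ζ).re := by
        rw [Complex.ofReal_zero, zero_mul, Complex.exp_zero, mul_one, max_eq_left hcon.le]
      rw [h1]
      rcases le_total X (-1) with h | h
      · refine (min_le_left _ _).trans ?_
        have h2 := mul_pos (Real.exp_pos X) hcon
        have h3 : 1 ≤ X ^ (2 : ℕ) := by nlinarith only [h]
        nlinarith only [ha, h2, h3]
      · refine (min_le_right _ _).trans ?_
        have h2 : Real.exp (-1) ≤ Real.exp X := Real.exp_le_exp.2 h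
        have h3 := mul_le_mul_of_nonneg_left h2 hcon.le
        have h4 : 0 ≤ u.re * X ^ (2 : ℕ) := mul_nonneg ha.le (sq_nonneg X)
        linarith only [h3, h4]
  have hcos : Real.cos (arg (u * ζ)) ≤ 0 := by
    rw [Complex.cos_arg hw]
    exact div_nonpos_of_nonpos_of_nonneg hre hr.le
  have harg1 := Complex.neg_pi_lt_arg (u * ζ)
  have harg2 := Complex.arg_le_pi (u * ζ)
  have hπ := Real.pi_pos
  have habs : Real.pi / 2 ≤ |arg (u * ζ)| := by
    by_contra hcon
    push Not at hcon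
    have h1 := abs_lt.1 hcon
    have := Real.cos_pos_of_mem_Ioo (x := arg (u * ζ)) ⟨by linarith only [h1], h1.2⟩
    linarith only [hcos, this]
  have hφ : ∃ φ : ℝ, Real.pi / 2 ≤ φ ∧ φ ≤ 3 * Real.pi / 2 ∧
      (‖u * ζ‖ : ℂ) * cexp (φ * I) = u * ζ := by
    rcases le_total 0 (arg (u * ζ)) with h | h
    · rw [abs_of_nonneg h] at habs
      exact ⟨arg (u * ζ), habs, by linarith only [harg1, harg2], hexp⟩
    · rw [abs_of_nonpos h] at habs
      refine ⟨arg (u * ζ) + 2 * Real.pi, by linarith only [harg1, harg2], by linarith only [habs], ?_⟩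
      have h1 : (((arg (u * ζ) + 2 * Real.pi : ℝ) : ℂ) * I) = arg (u * ζ) * I + 2 * Real.pi * I := by
        push_cast
        ring
      rw [h1, Complex.exp_add, Complex.exp_two_pi_mul_I, mul_one]
      exact hexp
  obtain ⟨φ, h1, h2, h3⟩ := hφ
  refine ⟨⟨u.re, u.im, ‖u * ζ‖, φ, ha, hab, hr, h1, h2⟩, rfl, ?_⟩
  show (⟨u.re, -u.im⟩ : ℂ) * ((‖u * ζ‖ : ℂ) * cexp (φ * I)) = ζ
  rw [h3, ← mul_assoc, N1F1_conj hu, one_mul]

theorem NT_of {p : Par} (hT : ¬ TopPos p.u p.ζ) (s : ℝ) (hs : 0 ≤ p.rho s) : p.m s ≤ 0 := by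
  by_contra hcon
  push Not at hcon
  refine hT ⟨p.a * s, p.a * p.m s, mul_pos p.ha hcon, fun X => ?_⟩
  have ha := p.ha
  have hab := p.hab
  have h1 : (p.u * p.ζ * cexp (((p.a * s : ℝ) : ℂ) * I)).re = p.r * Real.cos (p.a * s + p.φ) := by
    rw [p.u_mul_zeta]
    have h2 : (p.r : ℂ) * cexp (p.φ * I) * cexp (((p.a * s : ℝ) : ℂ) * I) =
        (p.r : ℂ) * cexp (((p.a * s + p.φ : ℝ) : ℂ) * I) := by
      rw [mul_assoc, ← Complex.exp_add]
      congr 2
      push_cast
      ring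
    rw [h2, Complex.re_ofReal_mul, Complex.exp_ofReal_mul_I_re]
  have hc : 0 ≤ Real.cos (p.a * s + p.φ) := by
    by_contra h
    push Not at h
    have h2 : 0 < p.r / p.a * Real.exp (p.b * s) :=
      mul_pos (div_pos p.hr ha) (Real.exp_pos _)
    have h3 : p.rho s < 0 := mul_neg_of_pos_of_neg h2 h
    linarith only [hs, h3]
  have h2 : Gp p.u p.ζ X (p.a * s) = p.a * p.g (X - p.b * s) s := by
    unfold Gp
    rw [h1, max_eq_left (mul_nonneg p.hr.le hc)]
    have hX : Real.exp X = Real.exp (p.b * s) * Real.exp (X - p.b * s) := by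
      rw [← Real.exp_add]
      congr 1
      ring
    rw [hX]
    unfold g rho
    simp only [u]
    field_simp
    linear_combination (-p.a * s ^ (2 : ℕ)) * hab
  rw [h2]
  refine mul_le_mul_of_nonneg_left ?_ ha.le
  rw [m, p.g_eq, p.g_eq]
  have := fib_min hs (X - p.b * s)
  unfold Y
  linarith only [this]

theorem tip_of {p : Par} (h : p.ζ ≠ -Real.exp (-1)) (h0 : p.rho 0 = -Real.exp (-1)) :
    p.rho1 0 ≠ 0 := by
  intro h1
  apply h
  have ha := p.ha
  have hr := p.hr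
  have hab := p.hab
  simp only [rho, rho1, mul_zero, Real.exp_zero, zero_add, mul_one] at h0 h1
  have h2 : p.b * Real.cos p.φ - p.a * Real.sin p.φ = 0 :=
    (mul_eq_zero.1 h1).resolve_left (div_pos hr ha).ne'
  have h3 : p.r * Real.cos p.φ = -p.a * Real.exp (-1) := by
    field_simp at h0
    linarith only [h0]
  have h4 : p.r * Real.sin p.φ = -p.b * Real.exp (-1) := by
    have h5 : p.a * (p.r * Real.sin p.φ) = p.a * (-p.b * Real.exp (-1)) := by
      linear_combination (-p.r) * h2 + p.b * h3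
    exact mul_left_cancel₀ ha.ne' h5
  have h5 : (p.r : ℂ) * cexp (p.φ * I) = -Real.exp (-1) * p.u := by
    rw [Complex.exp_mul_I, ← Complex.ofReal_cos, ← Complex.ofReal_sin]
    apply Complex.ext
    · simp only [u, Complex.mul_re, Complex.add_re, Complex.add_im, Complex.mul_im,
        Complex.ofReal_re, Complex.ofReal_im, Complex.I_re, Complex.I_im, Complex.neg_re,
        Complex.neg_im]
      linarith only [h3]
    · simp only [u, Complex.mul_re, Complex.add_re, Complex.add_im, Complex.mul_im,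
        Complex.ofReal_re, Complex.ofReal_im, Complex.I_re, Complex.I_im, Complex.neg_re,
        Complex.neg_im]
      linarith only [h4]
  show (⟨p.a, -p.b⟩ : ℂ) * ((p.r : ℂ) * cexp (p.φ * I)) = _
  rw [h5]
  have h6 : (⟨p.a, -p.b⟩ : ℂ) * p.u = 1 := N1F1_conj p.hu
  linear_combination (-(Real.exp (-1) : ℂ)) * h6

end Par

end SokamN

end

/-! ### Lib_MP_af4de1_v.N1Tip -/

section
namespace SokamV
end SokamV
/-!
# The contour to the tip, `Re u > 0`

`ζ = -1/e`: `r = 1/e`, `φ = π + arg u`, `ρ(s) = -(1/(e a)) e^{b s} cos(a s + arg u)`,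
`ρ'(s) = (1/(e a)) e^{b s} sin(a s)`, so `ρ > -1/e` except at `s = 0`; the channel descends from the
tip `(1, 0)` on both sides.  The point `1 + ρ ep` has `Y < 1`, the point `1 + ρ em` has
`g_Y > 0`, so both are joined horizontally to the channel.
-/

namespace SokamN

open SokamV Complex Filter Topology Set

theorem phase_tip {h : ℂ} (hh : ‖h‖ ≤ 1) :
    ‖Ph (-cexp (-1)) (1 + h) - (-1 / 2 - h ^ (3 : ℕ) / 6)‖ ≤ ‖h‖ ^ (4 : ℕ) := by
  have h1 : Ph (-cexp (-1)) (1 + h) - (-1 / 2 - h ^ (3 : ℕ) / 6)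
      = -(cexp h - (1 + h + h ^ (2 : ℕ) / 2 + h ^ (3 : ℕ) / 6)) := by
    have : cexp (-1) * cexp (1 + h) = cexp h := by rw [← Complex.exp_add]; congr 1; ring
    rw [Ph]
    linear_combination (-1 : ℂ) * this
  rw [h1, norm_neg]
  have hb := Complex.exp_bound hh (n := 4) (by norm_num)
  have e4 : (∑ m ∈ Finset.range 4, h ^ m / (m.factorial : ℂ)) = 1 + h + h ^ (2 : ℕ) / 2 + h ^ (3 : ℕ) / 6 := by
    simp [Finset.sum_range_succ, Nat.factorial]
  rw [e4] at hb
  refine hb.trans ?_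
  have h5 : (0 : ℝ) ≤ ‖h‖ ^ (4 : ℕ) := by positivity
  have h6 : ((Nat.succ 4 : ℕ) : ℝ) * ((Nat.factorial 4 : ℕ) * (4 : ℕ) : ℝ)⁻¹ ≤ 1 := by
    norm_num [Nat.factorial]
  calc _ ≤ ‖h‖ ^ (4 : ℕ) * 1 := mul_le_mul_of_nonneg_left h6 h5
    _ = _ := mul_one _

namespace Par

variable (p : Par)

/-- From a point with `Y ≤ 1` or `g_Y ≥ 0` to the bottom of the channel. -/
theorem SC_chan' {s Y c : ℝ} (h : -Real.exp (-1) ≤ p.rho s)
    (hY : 0 ≤ Y + p.rho s * Real.exp Y) (hc : p.g Y s < c) :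
    SC p.G (p.a * c) (p.pt Y s) (p.pt (p.Y s) s) := by
  rcases le_or_gt Y 1 with h1 | h1
  · exact p.SC_chan h h1 hc
  · have hmono : MonotoneOn (fib (p.rho s)) (Icc 1 Y) := by
      refine monotoneOn_of_deriv_nonneg (convex_Icc _ _)
        (fun x _ => (hasDerivAt_fib _ x).continuousAt.continuousWithinAt)
        (fun x _ => (hasDerivAt_fib _ x).differentiableAt.differentiableWithinAt) fun x hx => ?_
      rw [interior_Icc] at hx
      rw [(hasDerivAt_fib _ x).deriv]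
      -- x e^{-x} ≥ Y e^{-Y} ≥ -rho
      have k1 : x * Real.exp (-x) ≥ Y * Real.exp (-Y) := by
        have hanti : AntitoneOn (fun y : ℝ => y * Real.exp (-y)) (Ici 1) := by
          refine antitoneOn_of_deriv_nonpos (convex_Ici _) (by fun_prop) (by fun_prop) fun y hy => ?_
          rw [interior_Ici] at hy
          have : HasDerivAt (fun y : ℝ => y * Real.exp (-y))
              (1 * Real.exp (-y) + y * (Real.exp (-y) * -1)) y :=
            (hasDerivAt_id y).mul ((hasDerivAt_neg y).exp)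
          rw [this.deriv]
          have h2 := Real.exp_pos (-y)
          have h3 : (1 : ℝ) < y := hy
          nlinarith only [h2, h3]
        exact hanti (mem_Ici.2 hx.1.le) (mem_Ici.2 h1.le) hx.2.le
      have k2 : Y * Real.exp (-Y) + p.rho s ≥ 0 := by
        have h2 := Real.exp_pos (-Y)
        have h3 : Real.exp Y * Real.exp (-Y) = 1 := by rw [← Real.exp_add]; simp
        have h4 : (Y + p.rho s * Real.exp Y) * Real.exp (-Y) = Y * Real.exp (-Y) + p.rho s := by
          linear_combination p.rho s * h3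
        rw [← h4]
        positivity
      have h3 : Real.exp x * Real.exp (-x) = 1 := by rw [← Real.exp_add]; simp
      have h4 : x + p.rho s * Real.exp x = (x * Real.exp (-x) + p.rho s) * Real.exp x := by
        linear_combination (-x) * h3
      rw [h4]
      have := Real.exp_pos x
      apply mul_nonneg _ this.le
      linarith only [k1, k2]
    have hY1 : p.Y s ≤ 1 := p.Y_le h
    refine (p.SC_horiz (hY1.trans h1.le) fun y hy => ?_).symm
    have hg : fib (p.rho s) y ≤ fib (p.rho s) Y := by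
      rcases le_or_gt y 1 with h2 | h2
      · exact ((fib_mono h) ⟨hy.1, h2⟩ ⟨hY1, le_rfl⟩ h2).trans
          (hmono ⟨le_rfl, h1.le⟩ ⟨h1.le, le_rfl⟩ h1.le)
      · exact hmono ⟨h2.le, hy.2⟩ ⟨h1.le, le_rfl⟩ hy.2
    rw [g_eq] at hc ⊢
    linarith only [hc, hg]

/-- The fibre derivative in terms of the phase. -/
theorem fibre_deriv (Y s : ℝ) : p.a * (Y + p.rho s * Real.exp Y) =
    (p.u * (p.pt Y s + p.ζ * cexp (p.pt Y s))).re := by
  rw [mul_add p.u, u_mul_zeta_mul_exp, Complex.add_re, Complex.re_ofReal_mul]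
  have h2 : (((Real.cos (p.a * s + p.φ) : ℝ) : ℂ) + ((Real.sin (p.a * s + p.φ) : ℝ) : ℂ) * I).re =
      Real.cos (p.a * s + p.φ) := by
    rw [Complex.add_re, Complex.ofReal_re, Complex.re_ofReal_mul, Complex.I_re]; ring
  have h3 : (p.u * p.pt Y s).re = p.a * Y := by
    simp only [u, pt, Complex.mul_re]; ring
  rw [h2, h3, rho]
  have := p.ha.ne'
  field_simp

/-- From a point near the tip in a valley to the channel. -/
theorem tip_point (hζ : p.ζ = -cexp (-1)) {e : ℂ} (he : ‖e‖ = 1) (he3 : p.u * e ^ (3 : ℕ) = 1)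
    {κ : ℝ} (he2 : (p.u * e ^ (2 : ℕ)).re ≤ -κ) {ρ : ℝ} (h0 : 0 < ρ) (h1 : ρ < 1 / 6)
    (h2 : ρ ≤ κ / 2) (hs : -Real.exp (-1) ≤ p.rho (ρ * e.im / p.a)) :
    SC p.G (p.a * (-1 / 2)) (1 + ρ * e) (p.pt (p.Y (ρ * e.im / p.a)) (ρ * e.im / p.a)) := by
  set s := ρ * e.im / p.a with hsdef
  set Y := 1 + ρ * e.re - p.b * s with hYdef
  have ha := p.ha
  have hpt : p.pt Y s = 1 + ρ * e := by
    have h3 : p.a * s = ρ * e.im := by rw [hsdef]; field_simp
    apply Complex.ext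
    · simp [pt, hYdef]
    · simp [pt, h3]
  have hn : ‖(ρ : ℂ) * e‖ = ρ := by
    rw [norm_mul, he, Complex.norm_real, Real.norm_eq_abs, abs_of_pos h0, mul_one]
  have hu := p.hu
  rw [← hpt]
  refine p.SC_chan' hs ?_ ?_
  · have h4 := p.fibre_deriv Y s
    rw [hpt, hζ] at h4
    have h5 : (1 + ρ * e : ℂ) + -cexp (-1) * cexp (1 + ρ * e)
        = -(ρ * e) ^ (2 : ℕ) / 2 - (cexp (ρ * e) - (1 + ρ * e + (ρ * e) ^ (2 : ℕ) / 2)) := by
      have : cexp (-1) * cexp (1 + ρ * e) = cexp (ρ * e) := by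
        rw [← Complex.exp_add]; congr 1; ring
      linear_combination (-1 : ℂ) * this
    have hb := Complex.exp_bound (hn.le.trans (by linarith only [h1])) (n := 3) (by norm_num)
    have hb2 : ‖cexp (ρ * e) - (1 + ρ * e + (ρ * e) ^ (2 : ℕ) / 2)‖ ≤ ρ ^ (3 : ℕ) := by
      have e4 : (∑ m ∈ Finset.range 3, ((ρ : ℂ) * e) ^ m / (m.factorial : ℂ))
          = 1 + ρ * e + (ρ * e) ^ (2 : ℕ) / 2 := by
        simp [Finset.sum_range_succ, Nat.factorial]
      rw [e4, hn] at hb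
      refine hb.trans ?_
      have h6 : ((Nat.succ 3 : ℕ) : ℝ) * ((Nat.factorial 3 : ℕ) * (3 : ℕ) : ℝ)⁻¹ ≤ 1 := by
        norm_num [Nat.factorial]
      calc _ ≤ ρ ^ (3 : ℕ) * 1 := mul_le_mul_of_nonneg_left h6 (by positivity)
        _ = _ := mul_one _
    have h7 : p.u * ((1 + ρ * e : ℂ) + -cexp (-1) * cexp (1 + ρ * e))
        = ((-(ρ ^ (2 : ℕ) / 2) : ℝ) : ℂ) * (p.u * e ^ (2 : ℕ))
          - p.u * (cexp (ρ * e) - (1 + ρ * e + (ρ * e) ^ (2 : ℕ) / 2)) := by
      rw [h5]; push_cast; ring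
    rw [h7, Complex.sub_re, Complex.re_ofReal_mul] at h4
    have h8 : (p.u * (cexp (ρ * e) - (1 + ρ * e + (ρ * e) ^ (2 : ℕ) / 2))).re ≤ ρ ^ (3 : ℕ) := by
      refine (Complex.re_le_norm _).trans ?_
      rw [norm_mul, hu, one_mul]
      exact hb2
    have h9 : ρ ^ (3 : ℕ) ≤ ρ ^ (2 : ℕ) / 2 * κ := by nlinarith only [h2]
    have h10 : ρ ^ (2 : ℕ) / 2 * κ ≤ -(ρ ^ (2 : ℕ) / 2) * (p.u * e ^ (2 : ℕ)).re := by nlinarith only [he2]
    have h11 : 0 ≤ p.a * (Y + p.rho s * Real.exp Y) := by linarith only [h4, h8, h9, h10]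
    exact nonneg_of_mul_nonneg_right h11 ha
  · have h4 := p.G_pt Y s
    have h5 : p.G (p.pt Y s) < p.a * (-1 / 2) := by
      show (p.u * Ph p.ζ (p.pt Y s)).re < _
      rw [hpt, hζ]
      have h6 := phase_tip (hn.le.trans (by linarith only [h1]))
      rw [hn] at h6
      have h7 : p.u * Ph (-cexp (-1)) (1 + ρ * e) = ((-1 / 2 : ℝ) : ℂ) * p.u
          - ((ρ ^ (3 : ℕ) / 6 : ℝ) : ℂ)
          + p.u * (Ph (-cexp (-1)) (1 + ρ * e) - (-1 / 2 - (ρ * e) ^ (3 : ℕ) / 6)) := by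
        push_cast
        linear_combination (-(ρ : ℂ) ^ (3 : ℕ) / 6) * he3
      rw [h7, Complex.add_re, Complex.sub_re, Complex.re_ofReal_mul, Complex.ofReal_re]
      have h8 : (p.u * (Ph (-cexp (-1)) (1 + ρ * e) - (-1 / 2 - (ρ * e) ^ (3 : ℕ) / 6))).re ≤ ρ ^ (4 : ℕ) := by
        refine (Complex.re_le_norm _).trans ?_
        rw [norm_mul, hu, one_mul]
        exact h6
      have h9 : ρ ^ (4 : ℕ) < ρ ^ (3 : ℕ) / 6 := by
        have : 0 < ρ ^ (3 : ℕ) := by positivity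
        nlinarith only [h1, this]
      have h10 : p.u.re = p.a := rfl
      rw [h10]
      linarith only [h8, h9]
    rw [h4] at h5
    exact lt_of_mul_lt_mul_left h5 ha.le

end Par

/-- The function `e^{b s} cos(a s + γ)` has its strict maximum at `0`. -/
theorem tip_max {γ s : ℝ} (ha : 0 < Real.cos γ) (h1 : -Real.pi < Real.cos γ * s)
    (h2 : Real.cos γ * s < Real.pi) (h0 : s ≠ 0) :
    Real.exp (Real.sin γ * s) * Real.cos (Real.cos γ * s + γ) < Real.cos γ := by
  set f : ℝ → ℝ := fun s => Real.exp (Real.sin γ * s) * Real.cos (Real.cos γ * s + γ) with hf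
  have hd : ∀ s, HasDerivAt f (-(Real.exp (Real.sin γ * s) * Real.sin (Real.cos γ * s))) s := by
    intro s
    have h3 : HasDerivAt (fun s : ℝ => Real.exp (Real.sin γ * s))
        (Real.exp (Real.sin γ * s) * (Real.sin γ * 1)) s :=
      ((hasDerivAt_id s).const_mul (Real.sin γ)).exp
    have h4 : HasDerivAt (fun s : ℝ => Real.cos (Real.cos γ * s + γ))
        (-Real.sin (Real.cos γ * s + γ) * (Real.cos γ * 1)) s :=
      (((hasDerivAt_id s).const_mul (Real.cos γ)).add_const γ).cos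
    have h5 := h3.mul h4
    have h6 : Real.sin (-(Real.cos γ * s)) = Real.sin γ * Real.cos (Real.cos γ * s + γ)
        - Real.cos γ * Real.sin (Real.cos γ * s + γ) := by
      rw [← Real.sin_sub]; congr 1; ring
    rw [Real.sin_neg] at h6
    have h7 : Real.exp (Real.sin γ * s) * (Real.sin γ * 1) * Real.cos (Real.cos γ * s + γ) +
        Real.exp (Real.sin γ * s) * (-Real.sin (Real.cos γ * s + γ) * (Real.cos γ * 1))
        = -(Real.exp (Real.sin γ * s) * Real.sin (Real.cos γ * s)) := by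
      linear_combination (-Real.exp (Real.sin γ * s)) * h6
    rw [h7] at h5
    exact h5
  have hf0 : f 0 = Real.cos γ := by simp [hf]
  suffices key : f s < f 0 by rw [hf0] at key; exact key
  have hcont : Continuous f := by rw [hf]; fun_prop
  rcases lt_or_gt_of_ne h0 with h3 | h3
  · have hm : StrictMonoOn f (Icc s 0) := by
      refine strictMonoOn_of_deriv_pos (convex_Icc _ _) hcont.continuousOn fun x hx => ?_
      rw [interior_Icc] at hx
      rw [(hd x).deriv]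
      have : Real.sin (Real.cos γ * x) < 0 := by
        apply Real.sin_neg_of_neg_of_neg_pi_lt
        · exact mul_neg_of_pos_of_neg ha hx.2
        · have := mul_lt_mul_of_pos_left hx.1 ha
          linarith only [h1, this]
      have h4 := Real.exp_pos (Real.sin γ * x)
      nlinarith only [this, h4]
    exact hm ⟨le_rfl, h3.le⟩ ⟨h3.le, le_rfl⟩ h3
  · have hm : StrictAntiOn f (Icc 0 s) := by
      refine strictAntiOn_of_deriv_neg (convex_Icc _ _) hcont.continuousOn fun x hx => ?_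
      rw [interior_Icc] at hx
      rw [(hd x).deriv]
      have : 0 < Real.sin (Real.cos γ * x) := by
        apply Real.sin_pos_of_pos_of_lt_pi
        · exact mul_pos ha hx.1
        · have := mul_lt_mul_of_pos_left hx.2 ha
          linarith only [h2, this]
      have h4 := Real.exp_pos (Real.sin γ * x)
      nlinarith only [this, h4]
    exact hm ⟨le_rfl, h3.le⟩ ⟨h3.le, le_rfl⟩ h3

theorem tip_dir {γ x : ℝ} {u : ℂ} (hu : cexp (γ * I) = u) :
    ‖cexp (x * I)‖ = 1 ∧ (cexp (x * I)).im = Real.sin x ∧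
    (u * cexp (x * I) ^ (2 : ℕ)).re = Real.cos (γ + 2 * x) ∧
    u * cexp (x * I) ^ (3 : ℕ) = cexp ((γ + 3 * x : ℝ) * I) := by
  refine ⟨Complex.norm_exp_ofReal_mul_I x, Complex.exp_ofReal_mul_I_im x, ?_, ?_⟩
  · have : u * cexp (x * I) ^ (2 : ℕ) = cexp ((γ + 2 * x : ℝ) * I) := by
      rw [← hu, ← Complex.exp_nat_mul, ← Complex.exp_add]
      congr 1; push_cast; ring
    rw [this, Complex.exp_ofReal_mul_I_re]
  · rw [← hu, ← Complex.exp_nat_mul, ← Complex.exp_add]
    congr 1; push_cast; ring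

theorem tipConn {u : ℂ} (hu : ‖u‖ = 1) (ha : 0 < u.re) (hb : 0 ≤ u.im)
    (hT : ¬ TopPos u (-cexp (-1))) : TipConn u := by
  have he := Real.exp_pos (-1)
  have hpi := Real.pi_pos
  have hγ0 : 0 ≤ u.arg := Complex.arg_nonneg_iff.2 hb
  have hγ1 : u.arg < Real.pi / 2 :=
    (abs_lt.1 (Complex.abs_arg_lt_pi_div_two_iff.2 (Or.inl ha))).2
  have hu0 : u ≠ 0 := by rintro rfl; simp at ha
  set γ := u.arg with hγ
  have hcos : u.re = Real.cos γ := by rw [hγ, Complex.cos_arg hu0, hu, div_one]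
  have hsin : u.im = Real.sin γ := by rw [hγ, Complex.sin_arg, hu, div_one]
  have hue : cexp (γ * I) = u := by
    have := Complex.norm_mul_exp_arg_mul_I u
    rw [hu, Complex.ofReal_one, one_mul] at this
    exact this
  let p : Par := ⟨u.re, u.im, Real.exp (-1), Real.pi + γ, ha, by
    rw [hcos, hsin]; exact Real.cos_sq_add_sin_sq γ, he, by linarith only [hpi, hγ0], by linarith only [hγ1]⟩
  have hpa : p.a = Real.cos γ := hcos
  have hpb : p.b = Real.sin γ := hsin
  have hpr : p.r = Real.exp (-1) := rfl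
  have hpφ : p.φ = Real.pi + γ := rfl
  have hpu : p.u = u := Complex.ext rfl rfl
  have hpζ : p.ζ = -cexp (-1) := by
    have h1 := p.u_mul_zeta
    rw [hpu, hpr, hpφ] at h1
    have h2 : cexp (((Real.pi + γ : ℝ) : ℂ) * I) = -u := by
      rw [← hue]
      push_cast
      rw [add_mul, Complex.exp_add, Complex.exp_pi_mul_I]
      ring
    rw [h2] at h1
    have h3 : u * p.ζ = u * -cexp (-1) := by
      rw [h1]; push_cast; ring
    exact mul_left_cancel₀ hu0 h3
  have hT' : ¬ TopPos p.u p.ζ := by rw [hpu, hpζ]; exact hT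
  have NT := Par.NT_of hT'
  have NT' : ∀ s, 0 ≤ p.mirror.rho s → p.mirror.m s ≤ 0 := by
    intro s hs
    rw [Par.mirror_rho] at hs
    rw [Par.mirror_m]
    exact NT _ hs
  -- the function rho
  have hrho : ∀ s, p.rho s = -(Real.exp (-1) / Real.cos γ *
      (Real.exp (Real.sin γ * s) * Real.cos (Real.cos γ * s + γ))) := by
    intro s
    rw [Par.rho, hpr, hpφ, hpa, hpb]
    have : Real.cos γ * s + (Real.pi + γ) = Real.cos γ * s + γ + Real.pi := by ring
    rw [this, Real.cos_add_pi]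
    ring
  have hcγ : 0 < Real.cos γ := by rw [← hcos]; exact ha
  have hrho0 : p.rho 0 = -Real.exp (-1) := by
    rw [hrho]
    simp only [mul_zero, Real.exp_zero, zero_add, one_mul]
    field_simp
  have hrho10 : p.rho1 0 = 0 := by
    rw [Par.rho1, hpr, hpφ, hpa, hpb]
    simp only [mul_zero, zero_add, Real.exp_zero]
    have h1 : Real.cos (Real.pi + γ) = -Real.cos γ := by rw [add_comm, Real.cos_add_pi]
    have h2 : Real.sin (Real.pi + γ) = -Real.sin γ := by rw [add_comm, Real.sin_add_pi]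
    rw [h1, h2]
    ring
  have hasR : p.a * p.sRR = 3 * Real.pi / 2 - γ := by
    rw [Par.sRR, hpφ]; have := p.ha.ne'; field_simp; ring
  have hasL : p.a * p.sLL = -(3 * Real.pi / 2) - γ := by
    rw [Par.sLL, hpφ]; have := p.ha.ne'; field_simp; ring
  have hasL1 : p.a * p.sL = -(Real.pi / 2) - γ := by
    rw [Par.sL, hpφ]; have := p.ha.ne'; field_simp; ring
  have hasR1 : p.a * p.sR = Real.pi / 2 - γ := by
    rw [Par.sR, hpφ]; have := p.ha.ne'; field_simp; ring
  have hbig : ∀ s ∈ Icc p.sLL p.sRR, s ≠ 0 → -Real.exp (-1) < p.rho s := by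
    intro s hs hs0
    rcases le_or_gt s p.sL with h1 | h1
    · have := p.rho_nonneg_finger hs.1 h1
      linarith only [he, this]
    · rcases le_or_gt p.sR s with h2 | h2
      · have h3 := p.mirror.rho_nonneg_finger (s := -s)
          (by rw [Par.mirror_sLL]; linarith only [hs.2]) (by rw [Par.mirror_sL]; linarith only [h2])
        rw [Par.mirror_rho, neg_neg] at h3
        linarith only [he, h3]
      · have h3 := mul_lt_mul_of_pos_left h1 p.ha
        have h4 := mul_lt_mul_of_pos_left h2 p.ha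
        rw [hasL1] at h3
        rw [hasR1] at h4
        rw [hpa] at h3 h4
        have h5 := tip_max hcγ (s := s) (by linarith only [hγ1, h3]) (by linarith only [hγ0, h3, h4]) hs0
        rw [hrho]
        have h6 : Real.exp (-1) / Real.cos γ *
            (Real.exp (Real.sin γ * s) * Real.cos (Real.cos γ * s + γ)) < Real.exp (-1) := by
          calc _ < Real.exp (-1) / Real.cos γ * Real.cos γ :=
                mul_lt_mul_of_pos_left h5 (by positivity)
            _ = _ := by field_simp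
        linarith only [h6]
  have hs0L : p.sLL < 0 := by
    by_contra h; push Not at h
    have := mul_nonneg p.ha.le h
    rw [hasL] at this
    linarith only [hpi, hγ0, this]
  have hs0R : 0 < p.sRR := by
    by_contra h; push Not at h
    have := mul_nonpos_of_nonneg_of_nonpos p.ha.le h
    rw [hasR] at this
    linarith only [hγ0, hγ1, this]
  have hm10 : p.m1 0 = 0 := by rw [Par.m1, hrho10]; ring
  have hm0 : p.m 0 = -1 / 2 := by
    have h1 : Real.exp (-1) * Real.exp 1 = 1 := by rw [← Real.exp_add]; simp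
    rw [Par.m, Par.Y, hrho0, neg_neg, Ym_exp, Par.g, hrho0]
    linear_combination (-1 : ℝ) * h1
  have hup : StrictMonoOn p.m (Icc p.sLL 0) := p.m_strictMono
    (fun s hs => hbig s ⟨hs.1.le, (hs.2.trans hs0R).le⟩ hs.2.ne) hm10.ge
  have hdown : StrictAntiOn p.m (Icc 0 p.sRR) := p.m_strictAnti
    (fun s hs => hbig s ⟨(hs0L.trans hs.1).le, hs.2.le⟩ hs.1.ne') hm10.le
  have hmL : ∀ s ∈ Icc p.sLL 0, p.m s ≤ -1 / 2 := fun s hs => by
    rw [← hm0]; exact hup.monotoneOn hs ⟨hs0L.le, le_rfl⟩ hs.2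
  have hmR : ∀ s ∈ Icc 0 p.sRR, p.m s ≤ -1 / 2 := fun s hs => by
    rw [← hm0]; exact hdown.antitoneOn ⟨le_rfl, hs0R.le⟩ hs hs.1
  -- far parts
  obtain ⟨cL, hcL, RL, hRL⟩ := p.far_conn (c := -1 / 2) NT
    (fun s hs => hmL s ⟨hs.1, hs.2.trans p.sL_nonpos⟩) (-1)
  obtain ⟨cR, hcR, RR, hRR⟩ := p.mirror.far_conn (c := -1 / 2) NT'
    (fun s hs => by
      rw [Par.mirror_sLL, Par.mirror_sL] at hs
      rw [Par.mirror_m]
      exact hmR _ ⟨by linarith only [hs.2, p.sR_nonneg], by linarith only [hs.1]⟩) 1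
  -- constants
  have hem : em u = cexp ((-(2 * Real.pi / 3) - γ / 3 : ℝ) * I) := by
    rw [SokamV.em]; congr 2; push_cast; ring
  have hep : ep u = cexp ((2 * Real.pi / 3 - γ / 3 : ℝ) * I) := by
    rw [ep]; congr 2; push_cast; ring
  obtain ⟨hem1, hemi', hem2', hem3'⟩ := tip_dir (x := -(2 * Real.pi / 3) - γ / 3) hue
  obtain ⟨hep1, hepi', hep2', hep3'⟩ := tip_dir (x := 2 * Real.pi / 3 - γ / 3) hue
  rw [← hem] at hem1 hemi' hem2' hem3'
  rw [← hep] at hep1 hepi' hep2' hep3'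
  have hem2 : (u * em u ^ (2 : ℕ)).re < 0 := by
    rw [hem2', ← Real.cos_neg]
    apply Real.cos_neg_of_pi_div_two_lt_of_lt <;> linarith
  have hep2 : (u * ep u ^ (2 : ℕ)).re < 0 := by
    rw [hep2']
    apply Real.cos_neg_of_pi_div_two_lt_of_lt <;> linarith
  set κ := min (-(u * em u ^ (2 : ℕ)).re) (-(u * ep u ^ (2 : ℕ)).re) with hκ
  have hκ0 : 0 < κ := lt_min (by linarith only [hem2]) (by linarith only [hep2])
  have hem3 : u * em u ^ (3 : ℕ) = 1 := by
    rw [hem3']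
    have : ((γ + 3 * (-(2 * Real.pi / 3) - γ / 3) : ℝ) : ℂ) * I = -(2 * Real.pi * I) := by
      push_cast; ring
    rw [this, Complex.exp_neg, Complex.exp_two_pi_mul_I, inv_one]
  have hep3 : u * ep u ^ (3 : ℕ) = 1 := by
    rw [hep3']
    have : ((γ + 3 * (2 * Real.pi / 3 - γ / 3) : ℝ) : ℂ) * I = 2 * Real.pi * I := by
      push_cast; ring
    rw [this, Complex.exp_two_pi_mul_I]
  have hemi : (em u).im < 0 := by
    rw [hemi']
    apply Real.sin_neg_of_neg_of_neg_pi_lt <;> linarith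
  have hepi : 0 < (ep u).im := by
    rw [hepi']
    apply Real.sin_pos_of_pos_of_lt_pi <;> linarith
  have hrhoL := p.rho_sLL
  have hrhoR : p.rho p.sRR = 0 := by
    have := p.mirror.rho_sLL
    rw [Par.mirror_rho, Par.mirror_sLL, neg_neg] at this
    exact this
  refine ⟨min (1 / 8) (κ / 2), by positivity, fun ρ hρ hρ0 => ?_⟩
  have hρ1 : ρ ≤ 1 / 8 := hρ0.trans (min_le_left _ _)
  have hρ2 : ρ ≤ κ / 2 := hρ0.trans (min_le_right _ _)
  -- lower
  have hL : SC p.G (p.a * (-1 / 2)) (1 + ρ * em u) (p.pt 0 p.sLL) := by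
    set s := ρ * (em u).im / p.a with hs
    have has : p.a * s = ρ * (em u).im := by rw [hs]; have := p.ha.ne'; field_simp
    have hs0 : s < 0 := div_neg_of_neg_of_pos (mul_neg_of_pos_of_neg hρ hemi) p.ha
    have hsL : p.sLL < s := by
      have h1 : -1 ≤ (em u).im := by
        have := (abs_le.1 ((Complex.abs_im_le_norm (em u)).trans hem1.le)).1
        exact this
      have h2 : p.a * p.sLL < p.a * s := by
        rw [hasL, has]
        have h6 : ρ * (-1) ≤ ρ * (em u).im := mul_le_mul_of_nonneg_left h1 hρ.le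
        linarith only [hγ0, hρ1, h6, Real.pi_gt_three]
      exact lt_of_mul_lt_mul_left h2 p.ha.le
    have h3 := p.tip_point hpζ hem1 (by rw [hpu]; exact hem3) (κ := κ)
      (by rw [hpu]; linarith only [min_le_left (-(u * em u ^ (2 : ℕ)).re) (-(u * ep u ^ (2 : ℕ)).re)]) hρ
      (by linarith only [hρ1]) hρ2 (hbig s ⟨hsL.le, (hs0.trans hs0R).le⟩ hs0.ne).le
    have h4 := p.SC_along (c := -1 / 2) hsL.le (fun σ hσ => by
      rw [← hm0]; exact hup ⟨hσ.1, (hσ.2.trans_lt hs0).le⟩ ⟨hs0L.le, le_rfl⟩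
        (hσ.2.trans_lt hs0))
    have h5 : p.Y p.sLL = 0 := by rw [Par.Y, hrhoL, neg_zero, Ym_zero]
    rw [h5] at h4
    exact h3.trans h4.symm
  have hR : SC p.G (p.a * (-1 / 2)) (1 + ρ * ep u) (p.pt 0 p.sRR) := by
    set s := ρ * (ep u).im / p.a with hs
    have has : p.a * s = ρ * (ep u).im := by rw [hs]; have := p.ha.ne'; field_simp
    have hs0 : 0 < s := div_pos (mul_pos hρ hepi) p.ha
    have hsR : s < p.sRR := by
      have h1 : (ep u).im ≤ 1 := by
        have := (abs_le.1 ((Complex.abs_im_le_norm (ep u)).trans hep1.le)).2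
        exact this
      have h2 : p.a * s < p.a * p.sRR := by
        rw [hasR, has]
        have h6 : ρ * (ep u).im ≤ ρ * 1 := mul_le_mul_of_nonneg_left h1 hρ.le
        linarith only [hγ1, hρ1, h6, Real.pi_gt_three]
      exact lt_of_mul_lt_mul_left h2 p.ha.le
    have h3 := p.tip_point hpζ hep1 (by rw [hpu]; exact hep3) (κ := κ)
      (by rw [hpu]; linarith only [min_le_right (-(u * em u ^ (2 : ℕ)).re) (-(u * ep u ^ (2 : ℕ)).re)]) hρ
      (by linarith only [hρ1]) hρ2 (hbig s ⟨(hs0L.trans hs0).le, hsR.le⟩ hs0.ne').le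
    have h4 := p.SC_along (c := -1 / 2) hsR.le (fun σ hσ => by
      rw [← hm0]; exact hdown ⟨le_rfl, hs0R.le⟩ ⟨(hs0.trans_le hσ.1).le, hσ.2⟩
        (hs0.trans_le hσ.1))
    have h5 : p.Y p.sRR = 0 := by rw [Par.Y, hrhoR, neg_zero, Ym_zero]
    rw [h5] at h4
    exact h3.trans h4
  obtain ⟨c1, k1, k2⟩ := hL
  obtain ⟨c2, l1, l2⟩ := hR
  have hG : Gh u (-cexp (-1)) = p.G := by
    funext H
    show (u * Ph (-cexp (-1)) H).re = (p.u * Ph p.ζ H).re
    rw [hpu, hpζ]
  have hlev : p.a * (-1 / 2) = -u.re / 2 := by rw [hpa, hcos]; ring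
  rw [hlev] at k1 l1 hcL
  have hcR' : cR < -u.re / 2 := by
    have : p.mirror.a = p.a := rfl
    rw [this, hlev] at hcR
    exact hcR
  refine ⟨max (max c1 c2) (max cL cR), max_lt (max_lt k1 l1) (max_lt hcL hcR'), max RL RR,
    fun R hR => ?_⟩
  rw [hG]
  have m1 := hRL R ((le_max_left _ _).trans hR)
  have m2 := conn_mirror p (hRR R ((le_max_right _ _).trans hR))
  constructor
  · have h1 : (((-1 : ℝ) : ℂ) - R * I) = -1 - R * I := by push_cast; ring
    rw [h1] at m1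
    exact (m1.mono ((le_max_left _ _).trans (le_max_right _ _))).trans
      (k2.symm.mono ((le_max_left _ _).trans (le_max_left _ _)))
  · have h1 : starRingEnd ℂ (((1 : ℝ) : ℂ) - R * I) = 1 + R * I := by
      rw [map_sub, map_mul, Complex.conj_I, Complex.conj_ofReal, Complex.conj_ofReal]
      push_cast; ring
    have h2 : starRingEnd ℂ (p.mirror.pt 0 p.mirror.sLL) = p.pt 0 p.sRR := by
      rw [Par.mirror_pt, Complex.conj_conj, Par.mirror_sLL, neg_neg]
    rw [h1, h2] at m2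
    exact (l2.mono ((le_max_right _ _).trans (le_max_left _ _))).trans
      (m2.symm.mono ((le_max_right _ _).trans (le_max_right _ _)))

end SokamN

end
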