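import Pool.Agent.Lib_MP_af4de1_zy.Z12

/-! ### Lib_MP_af4de1_fu.N2J -/

section
/-!
# `N = 2`, `ρ ≤ 3.2`, `r ≥ 49`: the zone `-η/ρ ∈ [0.72, 1.3]`: `S > 0`
-/

set_option autoImplicit false

namespace SokamFU.N2

open Filter Topology Set Real

theorem abs_cos_le {θ y : ℝ} (hy : y = π - θ) (hy1 : |y| ≤ 1) : |cos θ| ≤ 1 - 0.4479 * y ^ (2 : ℕ) := by
  have hπ := Real.pi_gt_d6
  rw [← abs_neg, ← cos_pi_sub, ← hy]
  have h4 := Real.cos_bound hy1
  have h5 : |y| ^ (4 : ℕ) ≤ y ^ (2 : ℕ) := by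
    have : |y| ^ (4 : ℕ) = |y| ^ (2 : ℕ) * |y| ^ (2 : ℕ) := by ring
    rw [this, sq_abs]
    have h6 : y ^ (2 : ℕ) ≤ 1 := by rw [← sq_abs]; nlinarith only [hy1, abs_nonneg y]
    nlinarith only [h6]
  have h7 : 0 ≤ cos y := cos_nonneg_of_mem_Icc (by
    rw [abs_le] at hy1
    constructor <;> linarith)
  rw [abs_of_nonneg h7]
  have := (abs_le.1 h4).2
  nlinarith only [h5, this]

theorem abs_cos_le_sub {θ : ℝ} (h : π / 2 ≤ θ) (h1 : θ ≤ π - 1) : |cos θ| ≤ θ - π / 2 := by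
  have hπ := Real.pi_gt_d6
  have e1 : cos θ = -sin (θ - π / 2) := by rw [sin_sub_pi_div_two, neg_neg]
  rw [e1, abs_neg, abs_of_nonneg (sin_nonneg_of_nonneg_of_le_pi (by linarith only [h]) (by linarith only [h, h1]))]
  exact sin_le (by linarith only [h])

theorem hmaxP1 {θ : ℝ} (h : π / 2 ≤ θ) : 3.4322 * |cos θ| - 0.33125 * θ ≤ 2.41 := by
  have hπ := Real.pi_gt_d6
  have hπ2 := Real.pi_lt_d6
  by_cases h1 : θ ≤ π - 1
  · have := abs_cos_le_sub h h1
    linarith only [hπ2, h1, this]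
  · rw [not_le] at h1
    by_cases h2 : π + 1 ≤ θ
    · have := abs_cos_le_one θ
      linarith only [hπ, h2, this]
    · rw [not_le] at h2
      obtain ⟨y, hy⟩ : ∃ y, y = π - θ := ⟨_, rfl⟩
      have hy1 : |y| ≤ 1 := by rw [abs_le]; constructor <;> linarith
      have h3 := abs_cos_le hy hy1
      have h8 : θ = π - y := by linarith only [hy]
      rw [h8] at h3 ⊢
      nlinarith only [hπ, h3, sq_nonneg (y - 0.1077)]

theorem hmaxP2 {θ : ℝ} (h : π / 2 ≤ θ) : 1.0441 * |cos θ| - 0.4125 * θ ≤ -0.1604 := by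
  have hπ := Real.pi_gt_d6
  have hπ2 := Real.pi_lt_d6
  by_cases h1 : θ ≤ π - 1
  · have := abs_cos_le_sub h h1
    linarith only [hπ2, h1, this]
  · rw [not_le] at h1
    by_cases h2 : π + 1 ≤ θ
    · have := abs_cos_le_one θ
      linarith only [hπ, h2, this]
    · rw [not_le] at h2
      obtain ⟨y, hy⟩ : ∃ y, y = π - θ := ⟨_, rfl⟩
      have hy1 : |y| ≤ 1 := by rw [abs_le]; constructor <;> linarith
      have h3 := abs_cos_le hy hy1
      have h8 : θ = π - y := by linarith only [hy]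
      rw [h8] at h3 ⊢
      nlinarith only [hπ, h3, sq_nonneg (y - 0.441)]

theorem exp_054 : exp 0.54 ≤ 1.7161 := by
  have h := Real.exp_bound' (x := 0.54) (by norm_num) (by norm_num) (n := 8) (by norm_num)
  refine h.trans ?_
  norm_num [Finset.sum_range_succ, Nat.factorial]

theorem exp_neg_065 : exp (-0.65) ≤ 0.52205 := by
  rw [exp_neg, ← one_div, div_le_iff₀ (exp_pos _)]
  have h := Real.sum_le_exp_of_nonneg (x := 0.65) (by norm_num) 8
  have h2 : (1.91553 : ℝ) ≤ ∑ i ∈ Finset.range 8, (0.65 : ℝ) ^ i / (i.factorial : ℝ) := by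
    norm_num [Finset.sum_range_succ, Nat.factorial]
  linarith only [h]

theorem tailP1 {r δ η : ℝ} {m : ℕ} (hr : 0 < r) (hδ : 0 < δ) (hρ : r * δ ≤ 3.2) {τ : ℝ}
    (hη : η = -(τ * (r * δ))) (hθ : π / 2 ≤ η + m * δ) :
    |yy r δ η m| ≤ exp (r * (2.41 - 1.06 * τ)) * exp (-(0.02 * m)) := by
  have hπ := Real.pi_gt_d6
  refine (abs_yy_le hr.le δ η 0.54 m).trans ?_
  rw [← exp_add]
  apply exp_le_exp.2
  set θ : ℝ := η + m * δ with hθd
  have h1 := hmaxP1 hθ
  have h2 : 2 * r * |cos θ| * exp 0.54 ≤ 2 * r * |cos θ| * 1.7161 :=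
    mul_le_mul_of_nonneg_left exp_054 (by (clear * - hr; positivity))
  have h3 : r * (3.4322 * |cos θ| - 0.33125 * θ) ≤ r * 2.41 := mul_le_mul_of_nonneg_left h1 hr.le
  have h4 : θ = (m - τ * r) * δ := by rw [hθd, hη]; ring
  have h5 : 0 < (m : ℝ) - τ * r := by
    by_contra h6
    rw [not_lt] at h6
    have := mul_nonpos_of_nonpos_of_nonneg h6 hδ.le
    linarith only [hπ, hθ, h4, this]
  have h6 : r * θ ≤ 3.2 * (m - τ * r) := by
    calc r * θ = (r * δ) * (m - τ * r) := by rw [h4]; ring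
      _ ≤ 3.2 * (m - τ * r) := mul_le_mul_of_nonneg_right hρ h5.le
  linarith only [h2, h3, h6]

theorem tailP2 {r δ η : ℝ} {m : ℕ} (hr : 49 ≤ r) (hδ : 0 < δ) (hρ : r * δ ≤ 3.2) {τ : ℝ}
    (hη : η = -(τ * (r * δ))) (hθ : η + m * δ ≤ -(π / 2)) :
    |yy r δ η m| ≤ exp (r * (1.32 * τ - 0.147)) * exp (-(0.02 * m)) := by
  have hπ := Real.pi_gt_d6
  have hr0 : 0 < r := by linarith only [hr]
  refine (abs_yy_le hr0.le δ η (-0.65) m).trans ?_
  rw [← exp_add]
  apply exp_le_exp.2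
  set θ : ℝ := η + m * δ with hθd
  have h1 := hmaxP2 (θ := -θ) (by linarith only [hθ])
  rw [cos_neg] at h1
  have h2 : 2 * r * |cos θ| * exp (-0.65) ≤ 2 * r * |cos θ| * 0.52205 :=
    mul_le_mul_of_nonneg_left exp_neg_065 (by (clear * - hr; positivity))
  have h3 : r * (1.0441 * |cos θ| - 0.4125 * -θ) ≤ r * -0.1604 := mul_le_mul_of_nonneg_left h1 hr0.le
  have h4 : θ = -((τ * r - m) * δ) := by rw [hθd, hη]; ring
  have h5 : 0 < τ * r - (m : ℝ) := by
    by_contra h6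
    rw [not_lt] at h6
    have := mul_nonpos_of_nonpos_of_nonneg h6 hδ.le
    linarith only [hπ, hθ, h4, this]
  have h6 : r * -θ ≤ 3.2 * (τ * r - m) := by
    calc r * -θ = (r * δ) * (τ * r - m) := by rw [h4]; ring
      _ ≤ 3.2 * (τ * r - m) := mul_le_mul_of_nonneg_right hρ h5.le
  linarith only [hr, h2, h3, h6]

/-- lower bounds of `(2r)^n/n!` near `n = 2r` -/
theorem pow_fact_ge1 {r t : ℝ} (hr : 0 < r) {n : ℕ} (hn : 1 ≤ n) (ht : t = n / (2 * r)) :
    exp (r * (4 * t - 2 * t ^ (2 : ℕ))) / (exp 1 * n) ≤ (2 * r) ^ n / (n.factorial : ℝ) := by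
  have hn0 : (0 : ℝ) < n := by exact_mod_cast hn
  have e1 : exp (2 - t) * n ≤ 2 * r * exp 1 := by
    have e2 := add_one_le_exp (t - 1)
    have e3 : t ≤ exp (t - 1) := by linarith only [e2]
    have e6 : (n : ℝ) = t * (2 * r) := by rw [ht]; field_simp
    have e4 : exp (2 - t) * exp (t - 1) = exp 1 := by
      rw [← exp_add]; ring_nf
    calc exp (2 - t) * n = exp (2 - t) * (t * (2 * r)) := by rw [e6]
      _ ≤ exp (2 - t) * (exp (t - 1) * (2 * r)) := by gcongr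
      _ = (exp (2 - t) * exp (t - 1)) * (2 * r) := by ring
      _ = 2 * r * exp 1 := by rw [e4]; ring
  have e5 := le_pow_fact hn (exp_pos _).le e1
  refine le_trans (le_of_eq ?_) e5
  rw [← exp_nat_mul]
  congr 2
  have e6 : (n : ℝ) = t * (2 * r) := by rw [ht]; field_simp
  rw [e6]; ring

theorem pow_fact_ge2 {r t : ℝ} (hr : 0 < r) {n : ℕ} (hn : 1 ≤ n) (ht : t = n / (2 * r)) (ht1 : t ≤ 1) :
    exp (r * (5 * t - 4 * t ^ (2 : ℕ) + t ^ (3 : ℕ))) / (exp 1 * n) ≤ (2 * r) ^ n / (n.factorial : ℝ) := by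
  have hn0 : (0 : ℝ) < n := by exact_mod_cast hn
  have ht0 : 0 < t := by rw [ht]; positivity
  have e1 : exp (2 - t + (1 - t) ^ (2 : ℕ) / 2) * n ≤ 2 * r * exp 1 := by
    have e3 : t * exp (1 - t + (1 - t) ^ (2 : ℕ) / 2) ≤ 1 := by
      rcases eq_or_lt_of_le ht1 with h | h
      · rw [h]; norm_num
      · have h1 : |1 - t| < 1 := by rw [abs_lt]; constructor <;> linarith
        have h2 := Real.hasSum_pow_div_log_of_abs_lt_one h1
        have h3 := sum_le_hasSum (Finset.range 2) (fun i _ => by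
          have : 0 ≤ 1 - t := by linarith only [h]
          (clear * - h; positivity)) h2
        norm_num [Finset.sum_range_succ] at h3
        have h4 : exp (1 - t + (1 - t) ^ (2 : ℕ) / 2) ≤ exp (-log t) := exp_le_exp.2 h3
        rw [exp_neg, exp_log ht0] at h4
        calc t * exp (1 - t + (1 - t) ^ (2 : ℕ) / 2) ≤ t * t⁻¹ := by gcongr
          _ = 1 := mul_inv_cancel₀ ht0.ne'
    have e6 : (n : ℝ) = t * (2 * r) := by rw [ht]; field_simp
    have e4 : exp (2 - t + (1 - t) ^ (2 : ℕ) / 2) = exp 1 * exp (1 - t + (1 - t) ^ (2 : ℕ) / 2) := by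
      rw [← exp_add]; ring_nf
    calc exp (2 - t + (1 - t) ^ (2 : ℕ) / 2) * n = (t * exp (1 - t + (1 - t) ^ (2 : ℕ) / 2)) * (2 * r * exp 1) := by
          rw [e6, e4]; ring
      _ ≤ 1 * (2 * r * exp 1) := by gcongr
      _ = 2 * r * exp 1 := one_mul _
  have e5 := le_pow_fact hn (exp_pos _).le e1
  refine le_trans (le_of_eq ?_) e5
  rw [← exp_nat_mul]
  congr 2
  have e6 : (n : ℝ) = t * (2 * r) := by rw [ht]; field_simp
  rw [e6]; ring

theorem exp11 : (59800 : ℝ) ≤ exp 11 := by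
  have h1 : exp 11 = exp 1 ^ (11 : ℕ) := by rw [← exp_nat_mul]; norm_num
  rw [h1]
  calc (59800 : ℝ) ≤ 2.718 ^ (11 : ℕ) := by norm_num
    _ ≤ exp 1 ^ (11 : ℕ) := by
      have := Real.exp_one_gt_d9
      gcongr
      linarith only [this]

/-- zone `-η/ρ ∈ [0.72, 1.3]`: `S > 0` -/
theorem ZP {r δ η : ℝ} (hr : 49 ≤ r) (hδ : 0 < δ) (hρ : r * δ ≤ 3.2) (h1 : -(1.3 * (r * δ)) ≤ η)
    (h2 : η ≤ -(0.72 * (r * δ))) : 0 < S r δ η := by
  have hπ := Real.pi_gt_d6
  have hπ2 := Real.pi_lt_d6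
  have hr0 : 0 < r := by linarith only [hr]
  have hρ0 : 0 < r * δ := by positivity
  have hδ2 : δ ≤ 0.0654 := by nlinarith only [hr, hρ]
  obtain ⟨τ, hη⟩ : ∃ τ, η = -(τ * (r * δ)) := ⟨-η / (r * δ), by field_simp⟩
  have hτ1 : 0.72 ≤ τ := by
    rw [hη] at h2
    exact le_of_mul_le_mul_right (by linarith only [h2]) hρ0
  have hτ2 : τ ≤ 1.3 := by
    rw [hη] at h1
    exact le_of_mul_le_mul_right (by linarith only [h1]) hρ0
  obtain ⟨m, hm1, hm2⟩ : ∃ m : ℕ, (m : ℝ) ≤ τ * r ∧ τ * r < m + 1 :=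
    ⟨⌊τ * r⌋₊, Nat.floor_le (by (clear * - hτ1 hr; positivity)), Nat.lt_floor_add_one _⟩
  obtain ⟨t, ht⟩ : ∃ t, t = ((2 * m + 1 : ℕ) : ℝ) / (2 * r) := ⟨_, rfl⟩
  have ht' : ((2 * m + 1 : ℕ) : ℝ) = t * (2 * r) := by rw [ht]; field_simp
  have ht1 : t ≤ τ + 0.01021 := by
    rw [ht, div_le_iff₀ (by positivity)]; push_cast; linarith only [hr, hm1]
  have ht2 : τ - 0.01021 ≤ t := by
    rw [ht, le_div_iff₀ (by (clear * - hr; positivity))]; push_cast; linarith only [hr, hm2]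
  have hn : ((2 * m + 1 : ℕ) : ℝ) ≤ 2.6 * r + 1 := by push_cast; nlinarith only [hτ1, hτ2, hm1]
  -- the exponent
  obtain ⟨φ, hφ, hφ1, hφ2⟩ : ∃ φ : ℝ, exp (r * φ) / (exp 1 * ((2 * m + 1 : ℕ) : ℝ)) ≤
      (2 * r) ^ (2 * m + 1) / ((2 * m + 1).factorial : ℝ) ∧ 2.635 - 1.06 * τ ≤ φ ∧ 1.32 * τ + 0.078 ≤ φ := by
    rcases le_total t 1 with h | h
    · refine ⟨5 * t - 4 * t ^ (2 : ℕ) + t ^ (3 : ℕ), pow_fact_ge2 hr0 (by omega) ht h, ?_, ?_⟩
      all_goals
        have e1 : 1.62 + 0.375 * t ≤ 5 * t - 4 * t ^ (2 : ℕ) + t ^ (3 : ℕ) := by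
          have e2 : 0 ≤ (1 - t) * (t - 0.7095) := mul_nonneg (by linarith) (by linarith)
          nlinarith [mul_nonneg e2 (show 0 ≤ 2.29 - t by linarith)]
        linarith
    · refine ⟨4 * t - 2 * t ^ (2 : ℕ), pow_fact_ge1 hr0 (by omega) ht, ?_, ?_⟩
      all_goals
        have e2 : 0 ≤ (1.31021 - t) * (t - 1) := mul_nonneg (by linarith) (by linarith)
        nlinarith
  -- all terms
  have hb : ∀ k : ℕ, -(exp (r * (φ - 0.225)) * exp (-(0.02 * k))) ≤ yy r δ η k := by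
    intro k
    by_cases hk1 : η + k * δ ≤ -(π / 2)
    · have e1 := tailP2 hr hδ hρ hη hk1
      have e2 : exp (r * (1.32 * τ - 0.147)) ≤ exp (r * (φ - 0.225)) :=
        exp_le_exp.2 (mul_le_mul_of_nonneg_left (by linarith only [hφ2]) hr0.le)
      have e3 : exp (r * (1.32 * τ - 0.147)) * exp (-(0.02 * k)) ≤ exp (r * (φ - 0.225)) * exp (-(0.02 * k)) := by
        gcongr
      have := neg_abs_le (yy r δ η k)
      linarith only [e1, e3, this]
    · rw [not_le] at hk1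
      by_cases hk2 : η + k * δ ≤ π / 2
      · have : 0 ≤ yy r δ η k := yy_nonneg hr0.le (cos_nonneg_of_mem_Icc ⟨hk1.le, hk2⟩)
        have : 0 ≤ exp (r * (φ - 0.225)) * exp (-(0.02 * k)) := by positivity
        linarith
      · rw [not_le] at hk2
        have e1 := tailP1 hr0 hδ hρ hη hk2.le
        have e2 : exp (r * (2.41 - 1.06 * τ)) ≤ exp (r * (φ - 0.225)) :=
          exp_le_exp.2 (mul_le_mul_of_nonneg_left (by linarith only [hφ1]) hr0.le)
        have e3 : exp (r * (2.41 - 1.06 * τ)) * exp (-(0.02 * k)) ≤ exp (r * (φ - 0.225)) * exp (-(0.02 * k)) := by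
          gcongr
        have := neg_abs_le (yy r δ η k)
        linarith only [e1, e3, this]
  have h3 := S_ge hr0.le (exp_pos _).le (by norm_num : (0 : ℝ) < 0.02) hb m
  -- the main term
  have hmain : 0.72 * (exp (r * φ) / (exp 1 * (2.6 * r + 1))) ≤ yy r δ η m := by
    have hc1 : 1 - δ ^ (2 : ℕ) / 2 ≤ cos (η + m * δ) := by
      refine le_trans ?_ (Real.one_sub_sq_div_two_le_cos (x := η + m * δ))
      have e1 : η + m * δ ≤ 0 := by rw [hη]; nlinarith only [hr0, hρ0, hm1]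
      have e2 : -δ ≤ η + m * δ := by rw [hη]; nlinarith only [hr0, hρ0, hm2]
      nlinarith only [e1, e2]
    have hcn : 0.72 ≤ cos (η + m * δ) ^ (2 * m + 1) := by
      have e1 : 1 + ((2 * m + 1 : ℕ) : ℝ) * (-(δ ^ (2 : ℕ) / 2)) ≤ (1 + (-(δ ^ (2 : ℕ) / 2))) ^ (2 * m + 1) :=
        one_add_mul_le_pow (by nlinarith only [hr0, hρ0, hδ2]) _
      have e2 : (1 + (-(δ ^ (2 : ℕ) / 2))) ^ (2 * m + 1) ≤ cos (η + m * δ) ^ (2 * m + 1) :=
        pow_le_pow_left₀ (by nlinarith only [hr0, hρ0, hδ2]) (by linarith only [hc1]) _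
      have e3 : ((2 * m + 1 : ℕ) : ℝ) * (δ ^ (2 : ℕ) / 2) ≤ 0.28 := by
        calc ((2 * m + 1 : ℕ) : ℝ) * (δ ^ (2 : ℕ) / 2) ≤ (2.6 * r + 1) * (δ ^ (2 : ℕ) / 2) := by gcongr
          _ = (2.6 * (r * δ) + δ) * (δ / 2) := by ring
          _ ≤ (2.6 * 3.2 + 0.0654) * (0.0654 / 2) := by gcongr
          _ ≤ 0.28 := by norm_num
      linarith only [e1, e2, e3]
    have hyy : yy r δ η m = cos (η + m * δ) ^ (2 * m + 1) * ((2 * r) ^ (2 * m + 1) / ((2 * m + 1).factorial : ℝ)) := by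
      unfold yy
      rw [mul_pow]
      ring
    rw [hyy]
    apply mul_le_mul hcn _ (by (clear * - hr; positivity)) (by linarith only [hcn])
    refine le_trans ?_ hφ
    gcongr
  have h11 := exp11
  have e1 : exp (r * φ) = exp (r * (φ - 0.225)) * (exp 11 * exp (0.225 * r - 11)) := by
    rw [← exp_add, ← exp_add]; ring_nf
  have e2 := add_one_le_exp (0.225 * r - 11)
  have e3 : 59800 * (0.225 * r - 10) ≤ exp 11 * exp (0.225 * r - 11) := by
    apply mul_le_mul h11 (by linarith only [e2]) (by linarith only [hr]) (exp_pos _).le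
  have e51 : ((1 : ℝ) + 0.02) / 0.02 = 51 := by norm_num
  rw [e51] at h3
  have e5 : 0 < exp (r * (φ - 0.225)) := exp_pos _
  have e7 : 51 * (exp 1 * (2.6 * r + 1)) < 0.72 * (exp 11 * exp (0.225 * r - 11)) := by
    have e6 := Real.exp_one_lt_d9
    calc 51 * (exp 1 * (2.6 * r + 1)) ≤ 51 * (2.7183 * (2.6 * r + 1)) := by
          gcongr
          linarith only [e6]
      _ < 0.72 * (59800 * (0.225 * r - 10)) := by linarith only [hr]
      _ ≤ 0.72 * (exp 11 * exp (0.225 * r - 11)) := by linarith only [e3]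
  have e4 : exp (r * (φ - 0.225)) * 51 < 0.72 * (exp (r * φ) / (exp 1 * (2.6 * r + 1))) := by
    rw [← mul_div_assoc 0.72, lt_div_iff₀ (by positivity), e1]
    have e8 := mul_lt_mul_of_pos_left e7 e5
    linarith only [e8]
  linarith only [h3, hmain, e4]

end SokamFU.N2

end

/-! ### Lib_MP_af4de1_fu.N2L -/

section
/-!
# `N = 2`, `ρ ≤ 3.2`: the block of small angles is nonnegative
-/

set_option autoImplicit false

namespace SokamFU.N2

open Filter Topology Set Real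

theorem hasSum_geo_lin {q : ℝ} (h0 : 0 ≤ q) (h1 : q < 1) (x δ : ℝ) :
    HasSum (fun j : ℕ => (x + j * δ) * q ^ j) (x / (1 - q) + δ * (q / (1 - q) ^ (2 : ℕ))) := by
  have h2 := (hasSum_coe_mul_geometric_of_norm_lt_one (𝕜 := ℝ) (r := q) (by rwa [norm_of_nonneg h0])).mul_left δ
  have h3 := (hasSum_geometric_of_lt_one h0 h1).mul_left x
  rw [← div_eq_mul_inv] at h3
  refine (h3.add h2).congr_fun fun j => ?_
  ring

theorem abs_cos_le_cos {x y : ℝ} (h0 : 0 ≤ x) (h1 : x ≤ y) (h2 : y ≤ π - x) : |cos y| ≤ cos x := by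
  rw [abs_le]
  constructor
  · rw [← cos_pi_sub]
    exact cos_le_cos_of_nonneg_of_le_pi (by linarith only [h0, h1]) (by linarith only [h0]) h2
  · exact cos_le_cos_of_nonneg_of_le_pi h0 (by linarith) h1

theorem cos_pow_ge {y : ℝ} {n : ℕ} (hy : y ^ (2 : ℕ) ≤ 2) (h : (n : ℝ) * (y ^ (2 : ℕ) / 2) ≤ 1) :
    (1 - (n : ℝ) * (y ^ (2 : ℕ) / 2)) ^ (2 : ℕ) ≤ |cos y| ^ (2 * n) := by
  have h1 : 1 + (n : ℝ) * (-(y ^ (2 : ℕ) / 2)) ≤ (1 + (-(y ^ (2 : ℕ) / 2))) ^ n :=
    one_add_mul_le_pow (by linarith only [hy]) _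
  have h2 : (1 + (-(y ^ (2 : ℕ) / 2))) ^ n ≤ |cos y| ^ n := by
    apply pow_le_pow_left₀ (by linarith only [hy])
    refine le_trans ?_ (le_abs_self _)
    have := Real.one_sub_sq_div_two_le_cos (x := y)
    linarith only [this]
  rw [mul_comm 2 n, pow_mul]
  apply pow_le_pow_left₀ (by linarith only [h])
  linarith only [h1, h2]

/-- lower bound of a term -/
theorem term_ge {r δ η y g c : ℝ} {n p : ℕ} (hr : 0 < r) (hy : η + n * δ = y) (hy0 : 0 ≤ y) (hy1 : y ≤ 0.2)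
    (hg0 : 0 ≤ g) (hV : g * V r p ≤ V r n) (hc0 : 0 ≤ c) (hc : (n : ℝ) * (y ^ (2 : ℕ) / 2) ≤ 1 - c) :
    0.99 * y * (g * c ^ (2 : ℕ) * uu r δ η p) ≤ sin (η + n * δ) * uu r δ η n := by
  rw [uu_eq r δ η n, hy]
  have h1 : 0.99 * y ≤ sin y := by
    rcases eq_or_lt_of_le hy0 with h | h
    · rw [← h]; simp
    · have := Real.sin_gt_sub_cube h
      nlinarith only [hy1, h, this, mul_pos h h]
  have h2 : c ^ (2 : ℕ) ≤ |cos y| ^ (2 * n) := by
    refine le_trans ?_ (cos_pow_ge (by nlinarith only [hy0, hy1]) (by linarith only [hc0, hc]))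
    exact pow_le_pow_left₀ hc0 (by linarith only [hc]) 2
  have h3 : uu r δ η p ≤ V r p := by
    rw [uu_eq]
    exact mul_le_of_le_one_right (V_pos hr p).le (pow_le_one₀ (abs_nonneg _) (abs_cos_le_one _))
  have hu := uu_nonneg r δ η p
  have hVp := V_pos hr p
  have h4 : g * c ^ (2 : ℕ) * uu r δ η p ≤ V r n * |cos y| ^ (2 * n) := by
    calc g * c ^ (2 : ℕ) * uu r δ η p = (g * uu r δ η p) * c ^ (2 : ℕ) := by ring
      _ ≤ (g * V r p) * |cos y| ^ (2 * n) := by gcongr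
      _ ≤ V r n * |cos y| ^ (2 * n) := by gcongr
  calc 0.99 * y * (g * c ^ (2 : ℕ) * uu r δ η p) ≤ sin y * (V r n * |cos y| ^ (2 * n)) := by
        apply mul_le_mul h1 h4 (by positivity) (by linarith only [hy0, h1])
    _ = _ := rfl

theorem Ablock {r δ η : ℝ} (hr : 49 ≤ r) (hδ : 0 < δ) (hρ : r * δ ≤ 3.2) (h1 : -(0.72 * (r * δ)) ≤ η) {p : ℕ}
    (hp1 : p * δ ≤ -η) (hp2 : -η < (p + 1) * δ) :
    0 ≤ ∑ i ∈ Finset.range (p + 4), sin (η + i * δ) * uu r δ η i := by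
  have hπ := Real.pi_gt_d6
  have hr0 : 0 < r := by linarith only [hr]
  have hδ2 : δ ≤ 0.0654 := by nlinarith only [hr, hρ]
  have hpr : (p : ℝ) ≤ 0.72 * r := by
    have : (p : ℝ) * δ ≤ (0.72 * r) * δ := by linarith only [h1, hp1]
    exact le_of_mul_le_mul_right this hδ
  obtain ⟨f, hf⟩ : ∃ f, f * δ = -η - p * δ := ⟨(-η - p * δ) / δ, by field_simp⟩
  have hf0 : 0 ≤ f := by
    by_contra h
    rw [not_le] at h
    have := mul_neg_of_neg_of_pos h hδ
    linarith only [hp1, hf, this]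
  have hf1 : f < 1 := by
    have : f * δ < 1 * δ := by linarith only [hp2, hf]
    exact lt_of_mul_lt_mul_right this hδ.le
  have hx1 : f * δ ≤ 0.0654 := by nlinarith only [hδ2, hf0, hf1]
  have hx0 : 0 ≤ f * δ := by positivity
  have hu : 0 ≤ uu r δ η p := uu_nonneg _ _ _ _
  -- the negative part
  have hneg : -(uu r δ η p * (2.1 * (f * δ) + 2.28 * δ)) ≤ ∑ i ∈ Finset.range (p + 1), sin (η + i * δ) * uu r δ η i := by
    rw [← Finset.sum_range_reflect]
    have hS := (hasSum_geo_lin (q := 0.521) (by norm_num) (by norm_num) (f * δ) δ).mul_left (uu r δ η p)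
    have hS2 := sum_le_hasSum (Finset.range (p + 1)) (fun j _ => by positivity) hS
    have hS3 : f * δ / (1 - 0.521) + δ * (0.521 / (1 - 0.521) ^ (2 : ℕ)) ≤ 2.1 * (f * δ) + 2.28 * δ := by
      norm_num; linarith only [hp2, hf, hx0]
    have hS4 : uu r δ η p * (f * δ / (1 - 0.521) + δ * (0.521 / (1 - 0.521) ^ (2 : ℕ))) ≤
        uu r δ η p * (2.1 * (f * δ) + 2.28 * δ) := by gcongr
    have hS5 : -∑ j ∈ Finset.range (p + 1), uu r δ η p * ((f * δ + j * δ) * 0.521 ^ j) ≤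
        ∑ j ∈ Finset.range (p + 1), sin (η + ((p + 1 - 1 - j : ℕ) : ℝ) * δ) * uu r δ η (p + 1 - 1 - j) := by
      rw [← Finset.sum_neg_distrib]
      apply Finset.sum_le_sum
      intro j hj
      have hj' : j ≤ p := by have := Finset.mem_range.1 hj; omega
      rw [show p + 1 - 1 - j = p - j by omega]
      have e1 : η + ((p - j : ℕ) : ℝ) * δ = -(f * δ + j * δ) := by
        rw [Nat.cast_sub hj']; linarith only [hf]
      have e2 : |sin (η + ((p - j : ℕ) : ℝ) * δ)| ≤ f * δ + j * δ := by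
        rw [e1, sin_neg, abs_neg]
        refine Real.abs_sin_le_abs.trans (le_of_eq (abs_of_nonneg (by positivity)))
      have hjp : (j : ℝ) ≤ p := by exact_mod_cast hj'
      have hcx : 0.9978 ≤ cos (f * δ) := by
        have := Real.one_sub_sq_div_two_le_cos (x := f * δ)
        nlinarith only [hx1, hx0, this]
      have e3 : uu r δ η (p - j) ≤ uu r δ η p * 0.521 ^ j := by
        rw [uu_eq, uu_eq, e1]
        have e4 : η + (p : ℝ) * δ = -(f * δ) := by linarith only [hf]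
        rw [e4, cos_neg, cos_neg, abs_of_nonneg (show 0 ≤ cos (f * δ) by linarith only [hcx])]
        have e5 : |cos (f * δ + j * δ)| ≤ cos (f * δ) := by
          apply abs_cos_le_cos hx0 (by nlinarith only [hp1, hp2])
          nlinarith only [hr, hρ, h1, hp2, hπ, hjp, e4]
        have e6 := V_down hr0 hj' hpr
        have e7 : (0.72 : ℝ) ^ (2 * j) ≤ 0.521 ^ j * cos (f * δ) ^ (2 * j) := by
          rw [pow_mul, pow_mul, ← mul_pow]
          apply pow_le_pow_left₀ (by norm_num)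
          nlinarith only [hcx]
        have hVp := V_pos hr0 p
        calc V r (p - j) * |cos (f * δ + j * δ)| ^ (2 * (p - j))
            ≤ (V r p * 0.72 ^ (2 * j)) * cos (f * δ) ^ (2 * (p - j)) := by gcongr
          _ ≤ (V r p * (0.521 ^ j * cos (f * δ) ^ (2 * j))) * cos (f * δ) ^ (2 * (p - j)) := by
              gcongr
          _ = V r p * cos (f * δ) ^ (2 * p) * 0.521 ^ j := by
              have : cos (f * δ) ^ (2 * p) = cos (f * δ) ^ (2 * j) * cos (f * δ) ^ (2 * (p - j)) := by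
                rw [← pow_add]; congr 1; omega
              rw [this]; ring
      have e8 : |sin (η + ((p - j : ℕ) : ℝ) * δ) * uu r δ η (p - j)| ≤ uu r δ η p * ((f * δ + j * δ) * 0.521 ^ j) := by
        rw [abs_mul, abs_of_nonneg (uu_nonneg r δ η (p - j))]
        calc |sin (η + ((p - j : ℕ) : ℝ) * δ)| * uu r δ η (p - j) ≤ (f * δ + j * δ) * (uu r δ η p * 0.521 ^ j) := by
              apply mul_le_mul e2 e3 (uu_nonneg _ _ _ _) (by positivity)
          _ = _ := by ring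
      have := neg_abs_le (sin (η + ((p - j : ℕ) : ℝ) * δ) * uu r δ η (p - j))
      linarith only [e8, this]
    linarith only [hS2, hS4, hS5]
  -- the positive part
  have hy1 : 0 ≤ sin (η + ((p + 1 : ℕ) : ℝ) * δ) * uu r δ η (p + 1) := by
    apply mul_nonneg _ (uu_nonneg _ _ _ _)
    apply sin_nonneg_of_nonneg_of_le_pi <;> push_cast <;> linarith
  have hpδ : (p : ℝ) * δ ^ (2 : ℕ) ≤ 0.15069 := by
    calc (p : ℝ) * δ ^ (2 : ℕ) ≤ (0.72 * r) * δ ^ (2 : ℕ) := by gcongr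
      _ = 0.72 * (r * δ) * δ := by ring
      _ ≤ 0.72 * 3.2 * 0.0654 := by gcongr
      _ ≤ 0.15069 := by norm_num
  have hδδ : δ ^ (2 : ℕ) ≤ 0.00428 := by nlinarith only [hr, hδ, hρ]
  have h2 := term_ge (r := r) (δ := δ) (η := η) (y := (2 - f) * δ) (g := 3.2) (c := 0.6814 + 0.2389 * f) (n := p + 2)
    (p := p) hr0 (by push_cast; linarith only [hf]) (by linarith only [hp2, hf, hx0]) (by nlinarith only [hx0, hδδ]) (by norm_num) (V_up2 hr hpr) (by linarith only [hf0]) (by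
      push_cast
      have e1 : ((p : ℝ) + 2) * δ ^ (2 : ℕ) ≤ 0.1593 := by linarith only [hpδ, hδδ]
      have e2 : 0 ≤ (2 - f) ^ (2 : ℕ) := sq_nonneg _
      calc ((p : ℝ) + 2) * (((2 - f) * δ) ^ (2 : ℕ) / 2) = (((p : ℝ) + 2) * δ ^ (2 : ℕ)) * ((2 - f) ^ (2 : ℕ) / 2) := by ring
        _ ≤ 0.1593 * ((2 - f) ^ (2 : ℕ) / 2) := by gcongr
        _ ≤ 1 - (0.6814 + 0.2389 * f) := by nlinarith only [hf0, hf1])
  have h3 := term_ge (r := r) (δ := δ) (η := η) (y := (3 - f) * δ) (g := 5.3) (c := 0.2641 + 0.4087 * f) (n := p + 3)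
    (p := p) hr0 (by push_cast; linarith only [hf]) (by linarith only [hp1, hp2, hf]) (by nlinarith only [hx0, hδδ]) (by norm_num) (V_up3 hr hpr) (by linarith only [hf0]) (by
      push_cast
      have e1 : ((p : ℝ) + 3) * δ ^ (2 : ℕ) ≤ 0.16353 := by linarith only [hpδ, hδδ]
      have e2 : 0 ≤ (3 - f) ^ (2 : ℕ) := sq_nonneg _
      calc ((p : ℝ) + 3) * (((3 - f) * δ) ^ (2 : ℕ) / 2) = (((p : ℝ) + 3) * δ ^ (2 : ℕ)) * ((3 - f) ^ (2 : ℕ) / 2) := by ring
        _ ≤ 0.16353 * ((3 - f) ^ (2 : ℕ) / 2) := by gcongr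
        _ ≤ 1 - (0.2641 + 0.4087 * f) := by nlinarith only [hp1, hp2, hf, hf0])
  rw [Finset.sum_range_succ, Finset.sum_range_succ, Finset.sum_range_succ]
  have hfin : 2.1 * f + 2.28 ≤ 0.99 * (2 - f) * (3.2 * (0.6814 + 0.2389 * f) ^ (2 : ℕ)) +
      0.99 * (3 - f) * (5.3 * (0.2641 + 0.4087 * f) ^ (2 : ℕ)) := by
    have hff : 0 ≤ f * (1 - f) := mul_nonneg hf0 (by linarith only [hf1])
    nlinarith only [mul_nonneg hff hf0]
  have h5 : 0 ≤ uu r δ η p * δ := by positivity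
  have h6 := mul_le_mul_of_nonneg_left hfin h5
  linarith only [hneg, hy1, h2, h3, h6]

end SokamFU.N2

end
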