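import Pool.Agent.Lib_MP_af4de1_zy.Z01
import Pool.Agent.Lib_MP_af4de1_zy.Z12

/-! ### Lib_MP_af4de1_f1.N1H0 -/

section
/-!
# N = 1, large `rho`: general estimates for horizontal parts
-/

set_option autoImplicit false

namespace SokamN1

open Complex Set MeasureTheory

/-- `√z e^{-cz}` decreases for `2 c z ≥ 1` -/
theorem sqrt_exp_dec {c z z0 : ℝ} (h0 : 0 < z0) (hc : 1 ≤ 2 * c * z0) (hz : z0 ≤ z) :
    √z * Real.exp (-(c * z)) ≤ √z0 * Real.exp (-(c * z0)) := by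
  have h1 : √z ≤ √z0 * Real.exp (c * (z - z0)) := by
    rw [Real.sqrt_le_left (by positivity), mul_pow, Real.sq_sqrt h0.le]
    have e : Real.exp (c * (z - z0)) ^ (2 : ℕ) = Real.exp (2 * (c * (z - z0))) := by
      rw [← Real.exp_nat_mul]; norm_num
    rw [e]
    have h2 := Real.add_one_le_exp (2 * (c * (z - z0)))
    have h3 : z0 * (2 * (c * (z - z0)) + 1) ≤ z0 * Real.exp (2 * (c * (z - z0))) :=
      mul_le_mul_of_nonneg_left h2 h0.le
    linarith only [h3, mul_le_mul_of_nonneg_right hc (sub_nonneg.mpr hz)]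
  calc √z * Real.exp (-(c * z)) ≤ √z0 * Real.exp (c * (z - z0)) * Real.exp (-(c * z)) :=
        mul_le_mul_of_nonneg_right h1 (Real.exp_pos _).le
    _ = √z0 * Real.exp (-(c * z0)) := by
        rw [mul_assoc, ← Real.exp_add]
        congr 2
        ring

theorem weight_two {j : ℕ} (hj : j ≤ 2) {u y : ℝ} (hy : 1 ≤ y ^ (2 : ℕ)) :
    √(u ^ (2 : ℕ) + y ^ (2 : ℕ)) ^ j ≤ u ^ (2 : ℕ) + y ^ (2 : ℕ) := by
  have h1 : 1 ≤ √(u ^ (2 : ℕ) + y ^ (2 : ℕ)) := by
    rw [Real.one_le_sqrt]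
    nlinarith only [hy]
  calc √(u ^ (2 : ℕ) + y ^ (2 : ℕ)) ^ j ≤ √(u ^ (2 : ℕ) + y ^ (2 : ℕ)) ^ (2 : ℕ) := pow_le_pow_right₀ h1 hj
    _ = u ^ (2 : ℕ) + y ^ (2 : ℕ) := Real.sq_sqrt (by positivity)

theorem weight_hor {j : ℕ} (hj : j ≤ 2) {u y : ℝ} (hu : 0 ≤ u) (hy : 256 / 100 ≤ y ^ (2 : ℕ)) :
    √(u ^ (2 : ℕ) + y ^ (2 : ℕ)) ^ j ≤ y ^ (2 : ℕ) * Real.exp (9 / 10 * u) := by
  refine (weight_two hj (by linarith only [hy])).trans ?_
  have h1 := Real.quadratic_le_exp_of_nonneg (x := 9 / 10 * u) (by positivity)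
  have h2 : y ^ (2 : ℕ) * (1 + 9 / 10 * u + (9 / 10 * u) ^ (2 : ℕ) / 2) ≤ y ^ (2 : ℕ) * Real.exp (9 / 10 * u) :=
    mul_le_mul_of_nonneg_left h1 (sq_nonneg y)
  refine le_trans ?_ h2
  have h3 : 256 / 100 * ((9 / 10 * u) ^ (2 : ℕ) / 2) ≤ y ^ (2 : ℕ) * ((9 / 10 * u) ^ (2 : ℕ) / 2) :=
    mul_le_mul_of_nonneg_right hy (by positivity)
  have h4 : 0 ≤ y ^ (2 : ℕ) * (9 / 10 * u) := by positivity
  nlinarith only [h3, h4]

theorem wt_int {δ a s y c d : ℝ} (hδ : 0 < δ) (hc : 0 < c) (h : ∀ u, 0 ≤ u → d + c * u ≤ Ht a s u y) (j : ℕ) :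
    IntegrableOn (fun u => Wt δ (a + s * I) j u y) (Ioi 0) := by
  set ε : ℝ := c / (2 * δ) with hε
  have hε0 : 0 < ε := by positivity
  have hg : IntegrableOn (fun u : ℝ => (j.factorial / ε ^ j * Real.exp (ε * |y|) * Real.exp (-(d / δ))) *
      Real.exp (-ε * u)) (Ioi 0) := (exp_neg_integrableOn_Ioi 0 hε0).const_mul _
  refine Integrable.mono' hg ((continuous_Wt_x δ _ j y).aestronglyMeasurable) ?_
  refine (ae_restrict_iff' measurableSet_Ioi).mpr (Filter.Eventually.of_forall fun u hu => ?_)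
  have hu0 : (0 : ℝ) ≤ u := le_of_lt hu
  rw [norm_Wt]
  have h1 : √(u ^ (2 : ℕ) + y ^ (2 : ℕ)) ≤ u + |y| := by
    rw [Real.sqrt_le_left (by positivity)]
    linarith only [sq_abs y, mul_nonneg hu0 (abs_nonneg y)]
  have h2 : √(u ^ (2 : ℕ) + y ^ (2 : ℕ)) ^ j ≤ (u + |y|) ^ j := pow_le_pow_left₀ (Real.sqrt_nonneg _) h1 j
  have h3 := Real.pow_div_factorial_le_exp (ε * (u + |y|)) (by positivity) j
  have h4 : (u + |y|) ^ j ≤ j.factorial / ε ^ j * Real.exp (ε * (u + |y|)) := by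
    rw [mul_pow, div_le_iff₀ (by positivity)] at h3
    rw [div_mul_eq_mul_div, le_div_iff₀ (by positivity)]
    linarith only [h3]
  have h5 : Real.exp (-Ht a s u y / δ) ≤ Real.exp (-(d / δ)) * Real.exp (-(2 * ε * u)) := by
    rw [← Real.exp_add]
    refine Real.exp_le_exp.mpr ?_
    have h6 := h u hu0
    have e : 2 * ε = c / δ := by rw [hε]; field_simp
    rw [e, neg_div]
    have h7 : (d + c * u) / δ ≤ Ht a s u y / δ := div_le_div_of_nonneg_right h6 hδ.le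
    have e2 : (d + c * u) / δ = d / δ + c / δ * u := by field_simp
    linarith only [h7, e2]
  calc √(u ^ (2 : ℕ) + y ^ (2 : ℕ)) ^ j * Real.exp (-Ht a s u y / δ)
      ≤ (j.factorial / ε ^ j * Real.exp (ε * (u + |y|))) * (Real.exp (-(d / δ)) * Real.exp (-(2 * ε * u))) :=
        mul_le_mul (h2.trans h4) h5 (Real.exp_pos _).le (by positivity)
    _ = j.factorial / ε ^ j * Real.exp (ε * |y|) * Real.exp (-(d / δ)) * Real.exp (-ε * u) := by
        have e1 : Real.exp (ε * (u + |y|)) = Real.exp (ε * |y|) * Real.exp (ε * u) := by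
          rw [← Real.exp_add]; congr 1; ring
        have e2 : Real.exp (ε * u) * Real.exp (-(2 * ε * u)) = Real.exp (-ε * u) := by
          rw [← Real.exp_add]; congr 1; ring
        rw [e1, ← e2]
        ring

theorem hor_le {δ a s y c0 c1 : ℝ} (hδ : 0 < δ) (hs : 0 < s)
    (h : ∀ u, 0 ≤ u → c0 * s + c1 * s * u ≤ Ht a s u y) (hy : 256 / 100 ≤ y ^ (2 : ℕ)) {j : ℕ} (hj : j ≤ 2)
    (hc : 9 / 10 < c1 * (s / δ)) :
    ‖∫ u in Ioi (0 : ℝ), Wt δ (a + s * I) j u y‖ ≤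
      y ^ (2 : ℕ) * Real.exp (-(c0 * (s / δ))) / (c1 * (s / δ) - 9 / 10) := by
  have hneg : -(c1 * (s / δ) - 9 / 10) < 0 := by linarith only [hc]
  have hg : IntegrableOn (fun u : ℝ => (y ^ (2 : ℕ) * Real.exp (-(c0 * (s / δ)))) *
      Real.exp (-(c1 * (s / δ) - 9 / 10) * u)) (Ioi 0) := (integrableOn_exp_mul_Ioi hneg 0).const_mul _
  have hb : ‖∫ u in Ioi (0 : ℝ), Wt δ (a + s * I) j u y‖ ≤
      ∫ u in Ioi (0 : ℝ), (y ^ (2 : ℕ) * Real.exp (-(c0 * (s / δ)))) * Real.exp (-(c1 * (s / δ) - 9 / 10) * u) := by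
    refine norm_integral_le_of_norm_le hg ?_
    refine (ae_restrict_iff' measurableSet_Ioi).mpr (Filter.Eventually.of_forall fun u hu => ?_)
    have hu0 : (0 : ℝ) ≤ u := le_of_lt hu
    rw [norm_Wt]
    have h1 := weight_hor hj hu0 hy
    have h5 : Real.exp (-Ht a s u y / δ) ≤ Real.exp (-(c0 * (s / δ))) * Real.exp (-(c1 * (s / δ) * u)) := by
      rw [← Real.exp_add]
      refine Real.exp_le_exp.mpr ?_
      have h7 : (c0 * s + c1 * s * u) / δ ≤ Ht a s u y / δ := div_le_div_of_nonneg_right (h u hu0) hδ.le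
      have e2 : (c0 * s + c1 * s * u) / δ = c0 * (s / δ) + c1 * (s / δ) * u := by field_simp
      rw [neg_div]
      linarith only [h7, e2]
    calc √(u ^ (2 : ℕ) + y ^ (2 : ℕ)) ^ j * Real.exp (-Ht a s u y / δ)
        ≤ (y ^ (2 : ℕ) * Real.exp (9 / 10 * u)) * (Real.exp (-(c0 * (s / δ))) * Real.exp (-(c1 * (s / δ) * u))) :=
          mul_le_mul h1 h5 (Real.exp_pos _).le (by positivity)
      _ = (y ^ (2 : ℕ) * Real.exp (-(c0 * (s / δ)))) * Real.exp (-(c1 * (s / δ) - 9 / 10) * u) := by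
          have e2 : Real.exp (9 / 10 * u) * Real.exp (-(c1 * (s / δ) * u)) =
              Real.exp (-(c1 * (s / δ) - 9 / 10) * u) := by
            rw [← Real.exp_add]; congr 1; ring
          rw [← e2]
          ring
  refine hb.trans (le_of_eq ?_)
  rw [integral_const_mul, integral_exp_mul_Ioi hneg]
  simp only [mul_zero, Real.exp_zero]
  rw [neg_div_neg_eq]
  ring

theorem step_le {δ a s y M B p q : ℝ} (hpq : p ≤ q) (h : ∀ x ∈ Icc p q, M ≤ Ht a s x y / δ)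
    (hB : ∀ x ∈ Icc p q, x ^ (2 : ℕ) + y ^ (2 : ℕ) ≤ B) (hy : 1 ≤ y ^ (2 : ℕ)) {j : ℕ} (hj : j ≤ 2) :
    ‖∫ x in p..q, Wt δ (a + s * I) j x y‖ ≤ B * Real.exp (-M) * (q - p) := by
  have h1 := intervalIntegral.norm_integral_le_of_norm_le_const (a := p) (b := q) (C := B * Real.exp (-M))
    (f := fun x => Wt δ (a + s * I) j x y) ?_
  · rwa [abs_of_nonneg (by linarith only [hpq])] at h1
  intro x hx
  rw [uIoc_of_le hpq] at hx
  have hx' : x ∈ Icc p q := ⟨hx.1.le, hx.2⟩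
  rw [norm_Wt]
  refine mul_le_mul ((weight_two hj hy).trans (hB x hx')) ?_ (Real.exp_pos _).le ?_
  · refine Real.exp_le_exp.mpr ?_
    rw [neg_div]
    exact neg_le_neg (h x hx')
  · have := hB x hx'
    nlinarith only [this]

theorem sqrt_div_swap {δ s : ℝ} : √(δ / s) = (√(s / δ))⁻¹ := by
  rw [← Real.sqrt_inv, inv_div]

/-- the final comparison -/
theorem small_of {δ s X K c z0 ε : ℝ} (hδ : 0 < δ) (hs : 0 < s) (hz0 : 0 < z0) (hz : z0 * δ ≤ s)
    (hc : 1 ≤ 2 * c * z0) (hK : 0 ≤ K) (hX : X ≤ K * Real.exp (-(c * (s / δ))))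
    (hfin : K * (√z0 * Real.exp (-(c * z0))) ≤ ε) : X ≤ ε * √(δ / s) := by
  have hz' : z0 ≤ s / δ := (le_div_iff₀ hδ).mpr hz
  have h1 := sqrt_exp_dec hz0 hc hz'
  have hzpos : 0 < s / δ := by positivity
  have hsq : 0 < √(s / δ) := Real.sqrt_pos.mpr hzpos
  rw [sqrt_div_swap, ← div_eq_mul_inv, le_div_iff₀ hsq]
  calc X * √(s / δ) ≤ K * Real.exp (-(c * (s / δ))) * √(s / δ) := mul_le_mul_of_nonneg_right hX hsq.le
    _ = K * (√(s / δ) * Real.exp (-(c * (s / δ)))) := by ring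
    _ ≤ K * (√z0 * Real.exp (-(c * z0))) := mul_le_mul_of_nonneg_left h1 hK
    _ ≤ ε := hfin

end SokamN1

end

/-! ### Lib_MP_af4de1_f1.N1HL -/

section
/-!
# N = 1, large `rho`: heights on the path L (`h = -a + i s`, `a ≥ 0`)
-/

set_option autoImplicit false

namespace SokamN1

open Complex Set MeasureTheory

theorem ht_L_neg {a s y : ℝ} (hs : 0 < s) (ha : 0 ≤ a) (hy : 0 ≤ y) (hy2 : y ≤ 2) :
    347 / 1000 * s * y ^ (2 : ℕ) ≤ Ht (-a) s 0 (-y) := by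
  have h1 := one_sub_cos_two (y := y) (abs_le.mpr ⟨by linarith only [hy], hy2⟩)
  have h2 : Real.sin y ≤ y := Real.sin_le hy
  unfold Ht
  rw [Real.exp_zero, Real.sin_neg, Real.cos_neg]
  have h3 := mul_le_mul_of_nonneg_left h1 hs.le
  have h4 := mul_nonneg ha (sub_nonneg.mpr h2)
  linarith only [h3, h4]

theorem ht_L_pos {a s t y : ℝ} (hs : 0 < s) (ha : 0 ≤ a) (hat : a ≤ t * s) (hy : 0 ≤ y) (hy2 : y ≤ 8 / 5) :
    (399 / 1000 - 4 / 15 * t) * s * y ^ (2 : ℕ) ≤ Ht (-a) s 0 y := by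
  have h1 := one_sub_cos_85 (y := y) (abs_le.mpr ⟨by linarith only [hy], hy2⟩)
  have h2 := sub_sin_le hy
  unfold Ht
  rw [Real.exp_zero]
  have h3 := mul_le_mul_of_nonneg_left h1 hs.le
  have h5 : y ^ (3 : ℕ) / 6 ≤ 4 / 15 * y ^ (2 : ℕ) := by
    linarith only [mul_le_mul_of_nonneg_left hy2 (sq_nonneg y)]
  have h6 : a * (y - Real.sin y) ≤ a * (4 / 15 * y ^ (2 : ℕ)) := mul_le_mul_of_nonneg_left (h2.trans h5) ha
  have h7 : a * (4 / 15 * y ^ (2 : ℕ)) ≤ t * s * (4 / 15 * y ^ (2 : ℕ)) := mul_le_mul_of_nonneg_right hat (by positivity)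
  linarith only [h3, h6, h7]

/-- `cos (8/5) ≤ 0`, `sin (8/5) ≥ .99`, `e^u ≥ 1`. -/
theorem ht_L_hor {a s u : ℝ} (hs : 2 ≤ s) (ha : 0 ≤ a) (hat : a ≤ 575 / 1000 * s) (hu : 0 ≤ u) :
    64 / 100 * s + s * u ≤ Ht (-a) s u (8 / 5) := by
  have h1 := cos_85
  have h2 := sin_85
  have h3 : 1 ≤ Real.exp u := Real.one_le_exp hu
  unfold Ht
  have h4 : 0 ≤ -(Real.exp u * Real.cos (8 / 5)) := by
    have := mul_nonneg (Real.exp_pos u).le (neg_nonneg.mpr h1)
    linarith only [this]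
  have h5 : 99 / 100 ≤ Real.exp u * Real.sin (8 / 5) := by nlinarith only [h2, h3]
  have h6 : a * (8 / 5 - Real.exp u * Real.sin (8 / 5)) ≤ a * (61 / 100) :=
    mul_le_mul_of_nonneg_left (by linarith only [h5]) ha
  have h7 := mul_nonneg (by linarith : (0 : ℝ) ≤ s) h4
  linarith only [ha, hat, hu, h6, h7]

theorem negL (a s : ℝ) : (-(a : ℂ) + s * I) = (((-a : ℝ) : ℂ) + s * I) := by push_cast; ring

theorem horizL_int {δ a s : ℝ} (hδ : 0 < δ) (hs : 2 ≤ s) (ha : 0 ≤ a) (hat : a ≤ 575 / 1000 * s) (j : ℕ) :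
    IntegrableOn (fun u => Wt δ (-a + s * I) j u (8 / 5)) (Ioi 0) := by
  rw [negL]
  exact wt_int hδ (by linarith : 0 < s) (fun u hu => ht_L_hor hs ha hat hu) j

/-- `∫_0^∞ (8/5 + u)² e^{-(.64 + u) z} du = e^{-.64z}(2.56/z + 3.2/z² + 2/z³)`, `z = s/δ ≥ 12.4`:
at most `.00029 z^{-1/2}`. -/
theorem horizL {δ a s : ℝ} (hδ : 0 < δ) (hs : 2 ≤ s) (hz : 124 / 10 * δ ≤ s) (ha : 0 ≤ a)
    (hat : a ≤ 575 / 1000 * s) {j : ℕ} (hj : j ≤ 2) :
    ‖∫ u in Ioi (0 : ℝ), Wt δ (-a + s * I) j u (8 / 5)‖ ≤ 1 / 1000 * √(δ / s) := by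
  rw [negL]
  have hs0 : 0 < s := by linarith only [hs]
  have hz' : 124 / 10 ≤ s / δ := (le_div_iff₀ hδ).mpr hz
  have h1 := hor_le (a := -a) (s := s) (y := 8 / 5) (c0 := 64 / 100) (c1 := 1) hδ hs0
    (fun u hu => by rw [one_mul]; exact ht_L_hor hs ha hat hu) (by norm_num) hj (by linarith only [hz'])
  refine small_of (K := 23 / 100) (c := 64 / 100) (z0 := 124 / 10) hδ hs0 (by norm_num) hz (by norm_num)
    (by norm_num) ?_ ?_
  · refine h1.trans ?_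
    rw [div_le_iff₀ (by linarith only [hz'])]
    have h2 : 0 < Real.exp (-(64 / 100 * (s / δ))) := Real.exp_pos _
    have h3 : (8 / 5 : ℝ) ^ (2 : ℕ) ≤ 23 / 100 * (1 * (s / δ) - 9 / 10) := by linarith only [hz']
    nlinarith only [h2, h3]
  · have h4 : √(124 / 10 : ℝ) ≤ 353 / 100 := by
      rw [Real.sqrt_le_left (by norm_num)]
      norm_num
    have h5 : Real.exp (-(64 / 100 * (124 / 10))) ≤ 1 / 2048 := by
      have h6 : Real.exp (-(64 / 100 * (124 / 10))) ≤ Real.exp (-(11 * (7 / 10))) :=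
        Real.exp_le_exp.mpr (by norm_num)
      have h7 : Real.exp (-(11 * (7 / 10))) = (Real.exp (-(7 / 10))) ^ (11 : ℕ) := by
        rw [← Real.exp_nat_mul]; norm_num
      have h8 : Real.exp (-(7 / 10)) ≤ 1 / 2 := by
        rw [Real.exp_neg, inv_le_comm₀ (Real.exp_pos _) (by norm_num)]
        have := Real.sum_le_exp_of_nonneg (x := 7 / 10) (by norm_num) 5
        simp only [Finset.sum_range_succ, Finset.sum_range_zero, Nat.factorial] at this
        norm_num at this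
        norm_num
        linarith only [this]
      rw [h7] at h6
      refine h6.trans ((pow_le_pow_left₀ (Real.exp_pos _).le h8 11).trans ?_)
      norm_num
    have h9 := mul_le_mul h4 h5 (Real.exp_pos _).le (by norm_num)
    linarith only [h9]

theorem expN (n : ℕ) : Real.exp (-(n * (7 / 10))) ≤ (1 / 2) ^ n := by
  have h7 : Real.exp (-(n * (7 / 10))) = (Real.exp (-(7 / 10))) ^ n := by
    rw [← Real.exp_nat_mul]; congr 1; ring
  have h8 : Real.exp (-(7 / 10)) ≤ 1 / 2 := by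
    rw [Real.exp_neg, inv_le_comm₀ (Real.exp_pos _) (by norm_num)]
    have := Real.sum_le_exp_of_nonneg (x := 7 / 10) (by norm_num) 5
    simp only [Finset.sum_range_succ, Finset.sum_range_zero, Nat.factorial] at this
    norm_num at this
    norm_num
    linarith only [this]
  rw [h7]
  exact pow_le_pow_left₀ (Real.exp_pos _).le h8 n

/-- the height on the lower step -/
theorem ht_L_step {a s x : ℝ} (hs : 0 ≤ s) (ha : 0 ≤ a) (hx : x ≤ 0) (hx1 : -1 ≤ x) :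
    -2 * x + 138 / 100 * s * (1 + x) ≤ Ht (-a) s x (-2) := by
  have h1 := cos_two_le
  have h2 : Real.sin 2 ≤ 1 := Real.sin_le_one 2
  have h2' : 0 ≤ Real.sin 2 := Real.sin_nonneg_of_nonneg_of_le_pi (by norm_num) Real.two_le_pi
  have h3 : Real.exp x ≤ 1 := Real.exp_le_one_iff.mpr hx
  have h4 := Real.add_one_le_exp x
  have h5 : Real.exp x * Real.sin 2 ≤ 1 := mul_le_one₀ h3 h2' h2
  unfold Ht
  rw [Real.sin_neg, Real.cos_neg]
  have h6 : 38 / 100 * (1 + x) ≤ -(Real.exp x * Real.cos 2) := by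
    have h7 : 38 / 100 * Real.exp x ≤ -(Real.exp x * Real.cos 2) := by
      nlinarith only [h1, Real.exp_pos x]
    linarith only [h4, h7]
  have h8 := mul_le_mul_of_nonneg_left h6 hs
  have h9 := mul_nonneg ha (by linarith : 0 ≤ 2 - Real.exp x * Real.sin 2)
  linarith only [h8, h9]

/-- `Ht (-a) s (-x) (-2) ≥ 2 x + s (1 - x + .38 e^{-x}) ≥ 2 x + 1.38 s (1 - x)`; with `z = s/δ ≥ 12.4` and
`2/δ ≥ 7.67` it is at least `11.2 δ`. -/
theorem stepL_A {δ a s b : ℝ} (hδ : 0 < δ) (hδ2 : δ ≤ 261 / 1000) (hs : 2 ≤ s) (hz : 124 / 10 * δ ≤ s) (ha : 0 ≤ a)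
    (hb : 0 ≤ b) (hb2 : b ≤ 5 / 8) {j : ℕ} (hj : j ≤ 2) :
    ‖∫ x in (-b)..0, Wt δ (-a + s * I) j x (-2)‖ ≤ 1 / 1000 * √(δ / s) := by
  rw [negL]
  have hs0 : 0 < s := by linarith only [hs]
  have hz' : 124 / 10 ≤ s / δ := (le_div_iff₀ hδ).mpr hz
  have h1 := step_le (δ := δ) (a := -a) (s := s) (y := -2) (M := 478 / 100 + 5175 / 10000 * (s / δ)) (B := 44 / 10)
    (p := -b) (q := 0) (by linarith only [hb]) (fun x hx => by
      have hx1 : -(5 / 8) ≤ x := by linarith only [hb2, hx.1]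
      have hx0 : x ≤ 0 := hx.2
      have h2 := ht_L_step (a := a) (s := s) (x := x) hs0.le ha hx0 (by linarith only [hx1])
      rw [le_div_iff₀ hδ]
      have e : (478 / 100 + 5175 / 10000 * (s / δ)) * δ = 478 / 100 * δ + 5175 / 10000 * s := by
        field_simp
      rw [e]
      refine le_trans ?_ h2
      nlinarith only [hδ2, hs, hx1]) (fun x hx => by
      have hx1 : -(5 / 8) ≤ x := by linarith only [hb2, hx.1]
      have hx0 : x ≤ 0 := hx.2
      nlinarith only [hx1, hx0]) (by norm_num) hj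
  refine small_of (K := 44 / 10 * (5 / 8) * Real.exp (-(478 / 100))) (c := 5175 / 10000) (z0 := 124 / 10) hδ hs0
    (by norm_num) hz (by norm_num) (by positivity) ?_ ?_
  · refine h1.trans ?_
    have e : Real.exp (-(478 / 100 + 5175 / 10000 * (s / δ))) =
        Real.exp (-(478 / 100)) * Real.exp (-(5175 / 10000 * (s / δ))) := by
      rw [← Real.exp_add]; congr 1; ring
    rw [e]
    have h3 : 0 - -b ≤ 5 / 8 := by linarith only [hb2]
    have h4 : 0 < Real.exp (-(478 / 100)) * Real.exp (-(5175 / 10000 * (s / δ))) := by positivity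
    nlinarith only [h3, h4]
  · have h4 : √(124 / 10 : ℝ) ≤ 353 / 100 := by
      rw [Real.sqrt_le_left (by norm_num)]
      norm_num
    have h5 : Real.exp (-(478 / 100)) * Real.exp (-(5175 / 10000 * (124 / 10))) ≤ (1 / 2) ^ (15 : ℕ) := by
      rw [← Real.exp_add]
      refine le_trans (Real.exp_le_exp.mpr ?_) (expN 15)
      norm_num
    have h9 := mul_le_mul h4 h5 (by positivity) (by norm_num)
    have e : 44 / 10 * (5 / 8) * Real.exp (-(478 / 100)) *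
        (√(124 / 10 : ℝ) * Real.exp (-(5175 / 10000 * (124 / 10)))) =
        44 / 10 * (5 / 8) * (√(124 / 10 : ℝ) * (Real.exp (-(478 / 100)) * Real.exp (-(5175 / 10000 * (124 / 10))))) := by
      ring
    rw [e]
    norm_num at h9 ⊢
    linarith only [h9]

/-- `1.38 (1 - 5/13) = .849`, `z ≥ 25`. -/
theorem stepL_C {δ a s b : ℝ} (hδ : 0 < δ) (hs : 2 ≤ s) (hz : 25 * δ ≤ s) (ha : 0 ≤ a)
    (hb : 0 ≤ b) (hb2 : b ≤ 5 / 13) {j : ℕ} (hj : j ≤ 2) :
    ‖∫ x in (-b)..0, Wt δ (-a + s * I) j x (-2)‖ ≤ 1 / 1000 * √(δ / s) := by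
  rw [negL]
  have hs0 : 0 < s := by linarith only [hs]
  have h1 := step_le (δ := δ) (a := -a) (s := s) (y := -2) (M := 84 / 100 * (s / δ)) (B := 44 / 10)
    (p := -b) (q := 0) (by linarith only [hb]) (fun x hx => by
      have hx1 : -(5 / 13) ≤ x := by linarith only [hb2, hx.1]
      have hx0 : x ≤ 0 := hx.2
      have h2 := ht_L_step (a := a) (s := s) (x := x) hs0.le ha hx0 (by linarith only [hx1])
      rw [le_div_iff₀ hδ]
      have e : (84 / 100 * (s / δ)) * δ = 84 / 100 * s := by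
        field_simp
      rw [e]
      refine le_trans ?_ h2
      nlinarith only [hs0, hx1, hx0]) (fun x hx => by
      have hx1 : -(5 / 13) ≤ x := by linarith only [hb2, hx.1]
      have hx0 : x ≤ 0 := hx.2
      nlinarith only [hx1, hx0]) (by norm_num) hj
  refine small_of (K := 2) (c := 84 / 100) (z0 := 25) hδ hs0
    (by norm_num) hz (by norm_num) (by positivity) ?_ ?_
  · refine h1.trans ?_
    have h3 : 0 - -b ≤ 5 / 13 := by linarith only [hb2]
    have h4 : 0 < Real.exp (-(84 / 100 * (s / δ))) := by positivity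
    nlinarith only [h3, h4]
  · have h4 : √(25 : ℝ) ≤ 5 := by
      rw [Real.sqrt_le_left (by norm_num)]
      norm_num
    have h5 : Real.exp (-(84 / 100 * 25)) ≤ (1 / 2) ^ (30 : ℕ) := by
      refine le_trans (Real.exp_le_exp.mpr ?_) (expN 30)
      norm_num
    have h9 := mul_le_mul h4 h5 (by positivity) (by norm_num)
    norm_num at h9 ⊢
    linarith only [h9]

end SokamN1

end

/-! ### Lib_MP_af4de1_f1.N1HR -/

section
/-!
# N = 1, large `rho`: heights on the path R (`a ≥ 0`)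
-/

set_option autoImplicit false

namespace SokamN1

open Complex Set MeasureTheory

theorem ht_R_neg {a s t y : ℝ} (hs : 0 < s) (ha : 0 ≤ a) (hat : a ≤ t * s) (hy : 0 ≤ y) (hy2 : y ≤ 2) :
    (347 / 1000 - t / 3) * s * y ^ (2 : ℕ) ≤ Ht a s 0 (-y) := by
  have h1 := one_sub_cos_two (y := y) (abs_le.mpr ⟨by linarith only [hy], hy2⟩)
  have h2 := sub_sin_le hy
  unfold Ht
  rw [Real.exp_zero, Real.sin_neg, Real.cos_neg]
  have h3 := mul_le_mul_of_nonneg_left h1 hs.le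
  have h5 : y ^ (3 : ℕ) / 6 ≤ 1 / 3 * y ^ (2 : ℕ) := by
    linarith only [mul_le_mul_of_nonneg_left hy2 (sq_nonneg y)]
  have h6 : a * (y - Real.sin y) ≤ a * (1 / 3 * y ^ (2 : ℕ)) := mul_le_mul_of_nonneg_left (h2.trans h5) ha
  have h7 : a * (1 / 3 * y ^ (2 : ℕ)) ≤ t * s * (1 / 3 * y ^ (2 : ℕ)) := mul_le_mul_of_nonneg_right hat (by positivity)
  linarith only [h3, h6, h7]

theorem ht_R_pos {a s y : ℝ} (hs : 0 < s) (ha : 0 ≤ a) (hy : 0 ≤ y) (hy2 : y ≤ 2) :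
    347 / 1000 * s * y ^ (2 : ℕ) ≤ Ht a s 0 y := by
  have h1 := one_sub_cos_two (y := y) (abs_le.mpr ⟨by linarith only [hy], hy2⟩)
  have h2 : Real.sin y ≤ y := Real.sin_le hy
  unfold Ht
  rw [Real.exp_zero]
  have h3 := mul_le_mul_of_nonneg_left h1 hs.le
  have h4 := mul_nonneg ha (sub_nonneg.mpr h2)
  linarith only [h3, h4]

/-- `Ht a s u (-2) ≥ 1.28 s + 1.13 s u` (`e^u ≥ 1 + u`). -/
theorem ht_R_hor {a s u : ℝ} (hs : 8 ≤ s) (ha : 0 ≤ a) (hat : a ≤ 461 / 10000 * s) (hu : 0 ≤ u) :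
    128 / 100 * s + 113 / 100 * s * u ≤ Ht a s u (-2) := by
  have h1 := cos_two_le
  have h2' : 0 ≤ Real.sin 2 := Real.sin_nonneg_of_nonneg_of_le_pi (by norm_num) Real.two_le_pi
  have h4 := Real.add_one_le_exp u
  unfold Ht
  rw [Real.sin_neg, Real.cos_neg]
  have h6 : 38 / 100 * (1 + u) ≤ -(Real.exp u * Real.cos 2) := by
    have h7 : 38 / 100 * Real.exp u ≤ -(Real.exp u * Real.cos 2) := by
      nlinarith only [h1, Real.exp_pos u]
    linarith only [h4, h7]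
  have hs0 : (0 : ℝ) ≤ s := by linarith only [hs]
  have h8 := mul_le_mul_of_nonneg_left h6 hs0
  have h9 := mul_nonneg ha (mul_nonneg (Real.exp_pos u).le h2')
  have h10 := mul_le_mul_of_nonneg_right hs hu
  linarith only [ha, hat, h8, h9, h10]

theorem horizR_int {δ a s : ℝ} (hδ : 0 < δ) (hs : 8 ≤ s) (ha : 0 ≤ a) (hat : a ≤ 461 / 10000 * s) (j : ℕ) :
    IntegrableOn (fun u => Wt δ (a + s * I) j u (-2)) (Ioi 0) :=
  wt_int hδ (by linarith : 0 < 113 / 100 * s) (fun u hu => ht_R_hor hs ha hat hu) j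

theorem horizR {δ a s : ℝ} (hδ : 0 < δ) (hs : 8 ≤ s) (hz : 499 / 10 * δ ≤ s) (ha : 0 ≤ a)
    (hat : a ≤ 461 / 10000 * s) {j : ℕ} (hj : j ≤ 2) :
    ‖∫ u in Ioi (0 : ℝ), Wt δ (a + s * I) j u (-2)‖ ≤ 1 / 1000 * √(δ / s) := by
  have hs0 : 0 < s := by linarith only [hs]
  have hz' : 499 / 10 ≤ s / δ := (le_div_iff₀ hδ).mpr hz
  have h1 := hor_le (a := a) (s := s) (y := -2) (c0 := 128 / 100) (c1 := 113 / 100) hδ hs0
    (fun u hu => ht_R_hor hs ha hat hu) (by norm_num) hj (by linarith only [hz'])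
  refine small_of (K := 1) (c := 128 / 100) (z0 := 499 / 10) hδ hs0 (by norm_num) hz (by norm_num)
    (by norm_num) ?_ ?_
  · refine h1.trans ?_
    rw [div_le_iff₀ (by linarith only [hz'])]
    have h2 : 0 < Real.exp (-(128 / 100 * (s / δ))) := Real.exp_pos _
    have h3 : (-2 : ℝ) ^ (2 : ℕ) ≤ 1 * (113 / 100 * (s / δ) - 9 / 10) := by linarith only [hz']
    nlinarith only [h2, h3]
  · have h4 : √(499 / 10 : ℝ) ≤ 8 := by
      rw [Real.sqrt_le_left (by norm_num)]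
      norm_num
    have h5 : Real.exp (-(128 / 100 * (499 / 10))) ≤ (1 / 2) ^ (60 : ℕ) := by
      refine le_trans (Real.exp_le_exp.mpr ?_) (expN 60)
      norm_num
    have h9 := mul_le_mul h4 h5 (by positivity) (by norm_num)
    norm_num at h9 ⊢
    linarith only [h9]

/-- `Ht a s x 2 ≥ 1.38 s` for `0 ≤ x ≤ 5/8` (`e^x sin 2 ≤ 2`). -/
theorem stepR {δ a s b : ℝ} (hδ : 0 < δ) (hs : 8 ≤ s) (hz : 499 / 10 * δ ≤ s) (ha : 0 ≤ a)
    (hb : 0 ≤ b) (hb2 : b ≤ 5 / 8) {j : ℕ} (hj : j ≤ 2) :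
    ‖∫ x in (0 : ℝ)..b, Wt δ (a + s * I) j x 2‖ ≤ 1 / 1000 * √(δ / s) := by
  have hs0 : 0 < s := by linarith only [hs]
  have h1 := step_le (δ := δ) (a := a) (s := s) (y := 2) (M := 138 / 100 * (s / δ)) (B := 44 / 10)
    (p := 0) (q := b) hb (fun x hx => by
      have hx1 : x ≤ 5 / 8 := by linarith only [hb2, hx.2]
      have hx0 : 0 ≤ x := hx.1
      have h2 : 138 / 100 * s ≤ Ht a s x 2 := by
        have c1 := cos_two_le
        have c2 : Real.sin 2 ≤ 1 := Real.sin_le_one 2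
        have c2' : 0 ≤ Real.sin 2 := Real.sin_nonneg_of_nonneg_of_le_pi (by norm_num) Real.two_le_pi
        have c3 : Real.exp x ≤ 187 / 100 := (Real.exp_le_exp.mpr hx1).trans exp_58
        have c4 : 1 ≤ Real.exp x := Real.one_le_exp hx0
        have c5 : Real.exp x * Real.sin 2 ≤ 187 / 100 * 1 := mul_le_mul c3 c2 c2' (by norm_num)
        unfold Ht
        have c6 : 38 / 100 ≤ -(Real.exp x * Real.cos 2) := by nlinarith only [c1, c4]
        have c8 := mul_le_mul_of_nonneg_left c6 hs0.le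
        have c9 := mul_nonneg ha (by linarith : 0 ≤ 2 - Real.exp x * Real.sin 2)
        nlinarith only [hs0, hx0, c8, c9]
      rw [le_div_iff₀ hδ]
      have e : (138 / 100 * (s / δ)) * δ = 138 / 100 * s := by
        field_simp
      rw [e]
      exact h2) (fun x hx => by
      have hx1 : x ≤ 5 / 8 := by linarith only [hb2, hx.2]
      have hx0 : 0 ≤ x := hx.1
      nlinarith only [hx1, hx0]) (by norm_num) hj
  refine small_of (K := 3) (c := 138 / 100) (z0 := 499 / 10) hδ hs0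
    (by norm_num) hz (by norm_num) (by positivity) ?_ ?_
  · refine h1.trans ?_
    have h3 : b - 0 ≤ 5 / 8 := by linarith only [hb2]
    have h4 : 0 < Real.exp (-(138 / 100 * (s / δ))) := by positivity
    nlinarith only [h3, h4]
  · have h4 : √(499 / 10 : ℝ) ≤ 8 := by
      rw [Real.sqrt_le_left (by norm_num)]
      norm_num
    have h5 : Real.exp (-(138 / 100 * (499 / 10))) ≤ (1 / 2) ^ (60 : ℕ) := by
      refine le_trans (Real.exp_le_exp.mpr ?_) (expN 60)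
      norm_num
    have h9 := mul_le_mul h4 h5 (by positivity) (by norm_num)
    norm_num at h9 ⊢
    linarith only [h9]

end SokamN1

end

/-! ### Lib_MP_af4de1_f1.N1L0 -/

section
/-!
# N = 1, large `rho`: the lifts
-/

set_option autoImplicit false

namespace SokamN1

open Set MeasureTheory

/-- the integrand of the lifts is dominated on one period -/
theorem lift0_le {β X δ : ℝ} (hβ : 0 < β) (hX : 0 < X) (hδ : 0 < δ)
    (hcos : ∀ t : ℝ, |t| ≤ Real.pi / 2 → 2 / 5 * t ^ (2 : ℕ) ≤ 1 - Real.cos t) {y : ℝ} (h2 : 2 ≤ y)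
    (h3 : y ≤ 2 + 2 * Real.pi) :
    Real.exp (-(β * y + X * (1 - Real.cos y)) / δ) ≤
      Real.exp (-(2 * Real.pi * β / δ) + β ^ (2 : ℕ) / (8 / 5 * X * δ)) *
        Real.exp (-(2 / 5 * X / δ) * (y - (2 * Real.pi - 5 * β / (4 * X))) ^ (2 : ℕ)) +
      Real.exp (-((2 * β + X) / δ)) := by
  have hp := Real.pi_gt_three
  have hcosy : Real.cos y = Real.cos (y - 2 * Real.pi) := (Real.cos_sub_two_pi y).symm
  by_cases ht : |y - 2 * Real.pi| ≤ Real.pi / 2
  · have h4 := hcos _ ht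
    refine le_add_of_le_of_nonneg ?_ (Real.exp_nonneg _)
    rw [← Real.exp_add]
    refine Real.exp_le_exp.2 ?_
    have h5 : X * (2 / 5 * (y - 2 * Real.pi) ^ (2 : ℕ)) ≤ X * (1 - Real.cos (y - 2 * Real.pi)) :=
      mul_le_mul_of_nonneg_left h4 hX.le
    rw [hcosy]
    have e : -(2 * Real.pi * β / δ) + β ^ (2 : ℕ) / (8 / 5 * X * δ) +
        -(2 / 5 * X / δ) * (y - (2 * Real.pi - 5 * β / (4 * X))) ^ (2 : ℕ) =
        -(β * y + X * (2 / 5 * (y - 2 * Real.pi) ^ (2 : ℕ))) / δ := by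
      field_simp
      ring
    rw [e]
    refine div_le_div_of_nonneg_right ?_ hδ.le
    linarith only [h5]
  · refine le_add_of_nonneg_of_le (mul_nonneg (Real.exp_nonneg _) (Real.exp_nonneg _)) ?_
    refine Real.exp_le_exp.2 ?_
    have h6 : Real.cos y ≤ 0 := by
      rw [hcosy, ← Real.cos_abs]
      refine Real.cos_nonpos_of_pi_div_two_le_of_le (not_le.1 ht).le ?_
      rw [abs_le]
      constructor <;> linarith [Real.pi_gt_d2, Real.pi_lt_d2]
    rw [neg_div]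
    refine neg_le_neg (div_le_div_of_nonneg_right ?_ hδ.le)
    nlinarith

theorem lift0_int {β X δ : ℝ} (hβ : 0 < β) (hX : 0 < X) (hδ : 0 < δ) :
    IntegrableOn (fun y : ℝ => Real.exp (-(β * y + X * (1 - Real.cos y)) / δ)) (Ioi 2) := by
  have h1 : IntegrableOn (fun y : ℝ => Real.exp (-(β / δ) * y)) (Ioi 2) :=
    integrableOn_exp_mul_Ioi (neg_lt_zero.2 (div_pos hβ hδ)) 2
  refine Integrable.mono' h1 (by fun_prop) (Filter.Eventually.of_forall fun y => ?_)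
  rw [Real.norm_eq_abs, Real.abs_exp]
  refine Real.exp_le_exp.2 ?_
  have h2 : 0 ≤ X * (1 - Real.cos y) := mul_nonneg hX.le (by linarith only [Real.cos_le_one y])
  have h3 : -(β / δ) * y = -(β * y) / δ := by ring
  rw [h3]
  refine div_le_div_of_nonneg_right ?_ hδ.le
  linarith only [h2]

/-- `G(y) = e^{-(βy + X(1 - cos y))/δ}`, `G(y + 2π) = q G(y)`, `q = e^{-2πβ/δ}`; so
`∫_2^∞ G = (1 - q)⁻¹ ∫_2^{2+2π} G`.  `y = 2π + t`, `t ∈ [2 - 2π, 2]`: if `|t| ≤ π/2`, then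
`1 - cos t ≥ (2/5)t²` and `-(βt + (2/5)X t²)/δ = -(2X/(5δ))(t + 5β/(4X))² + β²/(1.6 X δ)`; otherwise `cos t ≤ 0`
and `βy ≥ 2β`. -/
theorem lift0 {β X δ : ℝ} (hβ : 0 < β) (hX : 0 < X) (hδ : 0 < δ)
    (hcos : ∀ t : ℝ, |t| ≤ Real.pi / 2 → 2 / 5 * t ^ (2 : ℕ) ≤ 1 - Real.cos t) :
    IntegrableOn (fun y : ℝ => Real.exp (-(β * y + X * (1 - Real.cos y)) / δ)) (Ioi 2) ∧
    ∫ y in Ioi (2 : ℝ), Real.exp (-(β * y + X * (1 - Real.cos y)) / δ) ≤
      (1 - Real.exp (-(2 * Real.pi * β / δ)))⁻¹ *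
        (Real.exp (-(2 * Real.pi * β / δ) + β ^ (2 : ℕ) / (8 / 5 * X * δ)) * √(Real.pi * δ / (2 / 5 * X)) +
          2 * Real.pi * Real.exp (-((2 * β + X) / δ))) := by
  have hint := lift0_int hβ hX hδ
  refine ⟨hint, ?_⟩
  have hp := Real.pi_pos
  set G : ℝ → ℝ := fun y => Real.exp (-(β * y + X * (1 - Real.cos y)) / δ) with hG
  set q : ℝ := Real.exp (-(2 * Real.pi * β / δ)) with hq
  have hq1 : q < 1 := by
    rw [hq, Real.exp_lt_one_iff]
    have : 0 < 2 * Real.pi * β / δ := by positivity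
    linarith only [this]
  have hshift : ∀ y, G (y + 2 * Real.pi) = q * G y := by
    intro y
    simp only [hG, hq]
    rw [← Real.exp_add, Real.cos_add_two_pi]
    congr 1
    field_simp
    ring
  have hGc : Continuous G := by
    simp only [hG]
    fun_prop
  have hsplit : ∫ y in Ioi (2 : ℝ), G y = (∫ y in (2 : ℝ)..(2 + 2 * Real.pi), G y) +
      ∫ y in Ioi (2 + 2 * Real.pi), G y := by
    have h1 : IntegrableOn G (Ioi (2 + 2 * Real.pi)) := hint.mono_set (Ioi_subset_Ioi (by linarith only [hp]))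
    rw [intervalIntegral.integral_of_le (by linarith only [hp]), ← MeasureTheory.setIntegral_union
      (by
        rw [Set.disjoint_left]
        intro y hy hy2
        exact absurd hy.2 (not_le.2 hy2)) measurableSet_Ioi
      (hint.mono_set Ioc_subset_Ioi_self) h1]
    congr 1
    rw [Ioc_union_Ioi_eq_Ioi (by linarith only [hp])]
  have htail : ∫ y in Ioi (2 + 2 * Real.pi), G y = q * ∫ y in Ioi (2 : ℝ), G y := by
    rw [← MeasureTheory.integral_const_mul]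
    have h1 : ∫ y in Ioi (2 : ℝ), G (y + 2 * Real.pi) = ∫ y in Ioi (2 + 2 * Real.pi), G y := by
      rw [← MeasureTheory.integral_indicator measurableSet_Ioi, ← MeasureTheory.integral_indicator measurableSet_Ioi]
      rw [← MeasureTheory.integral_add_right_eq_self (fun y => (Ioi (2 + 2 * Real.pi)).indicator G y) (2 * Real.pi)]
      congr 1
      funext y
      by_cases hy : 2 < y
      · rw [indicator_of_mem (show y ∈ Ioi (2 : ℝ) from hy), indicator_of_mem (by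
          show 2 + 2 * Real.pi < y + 2 * Real.pi
          linarith only [hy])]
      · rw [indicator_of_notMem (show y ∉ Ioi (2 : ℝ) from hy), indicator_of_notMem (by
          show ¬ 2 + 2 * Real.pi < y + 2 * Real.pi
          linarith only [hy])]
    rw [← h1]
    congr 1
    funext y
    exact hshift y
  have hmain : (1 - q) * ∫ y in Ioi (2 : ℝ), G y = ∫ y in (2 : ℝ)..(2 + 2 * Real.pi), G y := by
    rw [htail] at hsplit
    linarith only [hsplit]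
  have hX5 : 0 < 2 / 5 * X / δ := by positivity
  have hgauss : ∫ y : ℝ, Real.exp (-(2 / 5 * X / δ) * (y - (2 * Real.pi - 5 * β / (4 * X))) ^ (2 : ℕ)) =
      √(Real.pi * δ / (2 / 5 * X)) := by
    rw [MeasureTheory.integral_sub_right_eq_self (fun y : ℝ => Real.exp (-(2 / 5 * X / δ) * y ^ (2 : ℕ))),
      integral_gaussian]
    congr 1
    field_simp
  have hgi : Integrable fun y : ℝ => Real.exp (-(2 / 5 * X / δ) * (y - (2 * Real.pi - 5 * β / (4 * X))) ^ (2 : ℕ)) :=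
    (integrable_exp_neg_mul_sq hX5).comp_sub_right _
  have hbound : ∫ y in (2 : ℝ)..(2 + 2 * Real.pi), G y ≤
      Real.exp (-(2 * Real.pi * β / δ) + β ^ (2 : ℕ) / (8 / 5 * X * δ)) * √(Real.pi * δ / (2 / 5 * X)) +
          2 * Real.pi * Real.exp (-((2 * β + X) / δ)) := by
    have h1 : ∫ y in (2 : ℝ)..(2 + 2 * Real.pi), G y ≤ ∫ y in (2 : ℝ)..(2 + 2 * Real.pi),
        (Real.exp (-(2 * Real.pi * β / δ) + β ^ (2 : ℕ) / (8 / 5 * X * δ)) *
        Real.exp (-(2 / 5 * X / δ) * (y - (2 * Real.pi - 5 * β / (4 * X))) ^ (2 : ℕ)) +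
      Real.exp (-((2 * β + X) / δ))) := by
      refine intervalIntegral.integral_mono_on (by linarith only [hp]) (hGc.intervalIntegrable _ _)
        (Continuous.intervalIntegrable (by fun_prop) _ _) fun y hy => ?_
      exact lift0_le hβ hX hδ hcos hy.1 hy.2
    refine h1.trans ?_
    rw [intervalIntegral.integral_add (Continuous.intervalIntegrable (by fun_prop) _ _)
      (Continuous.intervalIntegrable (by fun_prop) _ _), intervalIntegral.integral_const_mul,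
      intervalIntegral.integral_const, smul_eq_mul]
    refine add_le_add (mul_le_mul_of_nonneg_left ?_ (Real.exp_nonneg _)) (le_of_eq (by ring))
    rw [intervalIntegral.integral_of_le (by linarith only [hp]), ← hgauss]
    exact MeasureTheory.setIntegral_le_integral hgi (Filter.Eventually.of_forall fun y => Real.exp_nonneg _)
  have h1q : 0 < 1 - q := by linarith only [hq1]
  rw [← div_eq_inv_mul, le_div_iff₀ h1q, mul_comm, hmain]
  exact hbound

/-- `y ≤ 2π e^{y/(2π) - 1}`. -/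
theorem weight_le {y : ℝ} (hy : 0 ≤ y) (j : ℕ) :
    y ^ j ≤ (2 * Real.pi) ^ j * Real.exp (j * (y / (2 * Real.pi)) - j) := by
  have hp := Real.pi_pos
  have h1 : y ≤ 2 * Real.pi * Real.exp (y / (2 * Real.pi) - 1) := by
    have h2 := Real.add_one_le_exp (y / (2 * Real.pi) - 1)
    have h3 : y / (2 * Real.pi) ≤ Real.exp (y / (2 * Real.pi) - 1) := by linarith only [h2]
    rw [div_le_iff₀ (by positivity)] at h3
    linarith only [h3]
  have h4 : Real.exp (j * (y / (2 * Real.pi)) - j) = Real.exp (y / (2 * Real.pi) - 1) ^ j := by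
    rw [← Real.exp_nat_mul]
    congr 1
    ring
  rw [h4, ← mul_pow]
  exact pow_le_pow_left₀ hy h1 j

end SokamN1

end

/-! ### Lib_MP_af4de1_f1.N1LL -/

section
/-!
# N = 1, large `rho`: the lifts on the path L (`h = -a + i s`, `a ≥ 0`)

`Ht (-a) s (-b) (-y) = b y + a (y - e^{-b} sin y) - s (e^{-b} - 1 + b) + s e^{-b} (1 - cos y)
≥ b y - s b²/2 + s e^{-b} (1 - cos y)`; `lift0` with `β = b - jδ/(2π)`, `X = s e^{-b}`.
-/

set_option autoImplicit false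

namespace SokamN1

open Complex Set MeasureTheory

theorem ht_L_lift {a s b y : ℝ} (hs : 0 < s) (ha : 0 ≤ a) (hb : 0 ≤ b) (hy : 2 ≤ y) :
    b * y - s * b ^ (2 : ℕ) / 2 + s * Real.exp (-b) * (1 - Real.cos y) ≤ Ht (-a) s (-b) (-y) := by
  unfold Ht
  rw [Real.sin_neg, Real.cos_neg]
  have h1 := exp_neg_sub hb
  have h2 : 0 ≤ a * (y - Real.exp (-b) * Real.sin y) := by
    refine mul_nonneg ha ?_
    have h3 : Real.exp (-b) ≤ 1 := Real.exp_le_one_iff.2 (by linarith only [hb])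
    have h4 := Real.exp_pos (-b)
    have h5 : Real.exp (-b) * Real.sin y ≤ 1 * 1 :=
      (mul_le_mul_of_nonneg_left (Real.sin_le_one y) h4.le).trans (mul_le_mul_of_nonneg_right h3 zero_le_one)
    linarith only [hy, h5]
  have h6 : s * (Real.exp (-b) - 1 + b) ≤ s * (b ^ (2 : ℕ) / 2) := mul_le_mul_of_nonneg_left h1 hs.le
  nlinarith

/-- the weight `|v|^j` for `|y| ≥ 2` -/
theorem sqrt_pow_le {b y : ℝ} (hy : 2 ≤ y) (j : ℕ) :
    √(b ^ (2 : ℕ) + y ^ (2 : ℕ)) ^ j ≤ (2 * Real.pi * √(1 + b ^ (2 : ℕ) / 4)) ^ j * Real.exp (j * (y / (2 * Real.pi)) - j) := by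
  have h1 : √(b ^ (2 : ℕ) + y ^ (2 : ℕ)) ≤ y * √(1 + b ^ (2 : ℕ) / 4) := by
    refine Real.sqrt_le_iff.2 ⟨by positivity, ?_⟩
    rw [mul_pow, Real.sq_sqrt (by positivity)]
    have : 4 ≤ y ^ (2 : ℕ) := by nlinarith
    nlinarith [sq_nonneg b]
  have h2 := weight_le (y := y) (by linarith only [hy]) j
  calc √(b ^ (2 : ℕ) + y ^ (2 : ℕ)) ^ j ≤ (y * √(1 + b ^ (2 : ℕ) / 4)) ^ j := pow_le_pow_left₀ (Real.sqrt_nonneg _) h1 j
    _ = y ^ j * √(1 + b ^ (2 : ℕ) / 4) ^ j := mul_pow _ _ _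
    _ ≤ ((2 * Real.pi) ^ j * Real.exp (j * (y / (2 * Real.pi)) - j)) * √(1 + b ^ (2 : ℕ) / 4) ^ j :=
        mul_le_mul_of_nonneg_right h2 (by positivity)
    _ = _ := by rw [mul_pow]; ring

/-- `y^j ≤ C e^{c y}` -/
theorem pow_le_C_exp {c : ℝ} (hc : 0 < c) (j : ℕ) {y : ℝ} (hy : 0 ≤ y) :
    y ^ j ≤ (j.factorial / c ^ j) * Real.exp (c * y) := by
  have h1 := Real.pow_div_factorial_le_exp (c * y) (by positivity) j
  have hf : (0 : ℝ) < (j.factorial : ℝ) := by exact_mod_cast j.factorial_pos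
  rw [div_le_iff₀ hf, mul_pow] at h1
  rw [div_mul_eq_mul_div, le_div_iff₀ (by positivity)]
  linarith only [h1]

/-- A function on `Ioi 2` dominated by `C |v|^j e^{-c y}`. -/
theorem int_of_height {c C b : ℝ} (hc : 0 < c) (j : ℕ) {f : ℝ → ℂ} (hf : Continuous f)
    (h : ∀ y, 2 < y → ‖f y‖ ≤ √(b ^ (2 : ℕ) + y ^ (2 : ℕ)) ^ j * (C * Real.exp (-(c * y)))) (hC : 0 ≤ C) :
    IntegrableOn f (Ioi 2) := by
  have h0 : IntegrableOn (fun y : ℝ => Real.exp (-(c / 2) * y)) (Ioi 2) :=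
    integrableOn_exp_mul_Ioi (by linarith only [hc]) 2
  set D : ℝ := C * (√(1 + b ^ (2 : ℕ) / 4) ^ j * (j.factorial / (c / 2) ^ j)) with hD
  have h1 : IntegrableOn (fun y : ℝ => D * Real.exp (-(c / 2) * y)) (Ioi 2) := h0.const_mul D
  refine Integrable.mono' h1 hf.aestronglyMeasurable ?_
  refine (ae_restrict_iff' measurableSet_Ioi).2 (Filter.Eventually.of_forall fun y hy => ?_)
  have hy2 : 2 < y := hy
  refine (h y hy2).trans ?_
  have h2 : √(b ^ (2 : ℕ) + y ^ (2 : ℕ)) ≤ y * √(1 + b ^ (2 : ℕ) / 4) := by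
    refine Real.sqrt_le_iff.2 ⟨by positivity, ?_⟩
    rw [mul_pow, Real.sq_sqrt (by positivity)]
    have : 4 ≤ y ^ (2 : ℕ) := by nlinarith
    nlinarith [sq_nonneg b]
  have h3 := pow_le_C_exp (c := c / 2) (by linarith only [hc]) j (y := y) (by linarith only [hy2])
  have h4 : √(b ^ (2 : ℕ) + y ^ (2 : ℕ)) ^ j ≤ (j.factorial / (c / 2) ^ j) * Real.exp (c / 2 * y) * √(1 + b ^ (2 : ℕ) / 4) ^ j := by
    calc √(b ^ (2 : ℕ) + y ^ (2 : ℕ)) ^ j ≤ (y * √(1 + b ^ (2 : ℕ) / 4)) ^ j := pow_le_pow_left₀ (Real.sqrt_nonneg _) h2 j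
      _ = y ^ j * √(1 + b ^ (2 : ℕ) / 4) ^ j := mul_pow _ _ _
      _ ≤ _ := mul_le_mul_of_nonneg_right h3 (by positivity)
  refine (mul_le_mul_of_nonneg_right h4 (mul_nonneg hC (Real.exp_nonneg _))).trans (le_of_eq ?_)
  have e : Real.exp (-(c / 2) * y) = Real.exp (c / 2 * y) * Real.exp (-(c * y)) := by
    rw [← Real.exp_add]
    congr 1
    ring
  rw [e, hD]
  ring

theorem norm_Wt_L (δ a s b : ℝ) (j : ℕ) (y : ℝ) :
    ‖Wt δ (-a + s * I) j (-b) (-y)‖ = √(b ^ (2 : ℕ) + y ^ (2 : ℕ)) ^ j * Real.exp (-Ht (-a) s (-b) (-y) / δ) := by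
  have h := norm_Wt δ (-a) s j (-b) (-y)
  rw [neg_sq, neg_sq] at h
  rw [← h]
  push_cast
  rfl

theorem liftL_int {δ a s b : ℝ} (hδ : 0 < δ) (hs : 0 < s) (ha : 0 ≤ a) (hb : 0 < b) (j : ℕ) :
    IntegrableOn (fun y => Wt δ (-a + s * I) j (-b) (-y)) (Ioi 2) := by
  refine int_of_height (c := b / δ) (C := Real.exp (s * b ^ (2 : ℕ) / 2 / δ)) (b := b) (div_pos hb hδ) j
    ?_ (fun y hy => ?_) (Real.exp_nonneg _)
  · have h := continuous_Wt_y δ (-a + s * I) j (-b)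
    have h2 := h.comp continuous_neg
    convert h2 using 2
    simp [Function.comp]
  · rw [norm_Wt_L]
    refine mul_le_mul_of_nonneg_left ?_ (by positivity)
    rw [← Real.exp_add]
    refine Real.exp_le_exp.2 ?_
    have h1 := ht_L_lift hs ha hb.le hy.le
    have h2 : 0 ≤ s * Real.exp (-b) * (1 - Real.cos y) :=
      mul_nonneg (by positivity) (by linarith only [Real.cos_le_one y])
    have h3 : s * b ^ (2 : ℕ) / 2 / δ + -(b / δ * y) = (s * b ^ (2 : ℕ) / 2 - b * y) / δ := by ring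
    rw [h3]
    refine div_le_div_of_nonneg_right ?_ hδ.le
    linarith only [h1, h2]

theorem liftL_gen {δ a s b : ℝ} (hδ : 0 < δ) (hb : 0 < b) (hδb : δ < 3 * b) (ha : 0 ≤ a) (hs : 0 < s)
    {j : ℕ} (hj : j ≤ 2) :
    ‖∫ y in Ioi (2 : ℝ), Wt δ (-a + s * I) j (-b) (-y)‖ ≤
      (2 * Real.pi * √(1 + b ^ (2 : ℕ) / 4)) ^ j * (1 - Real.exp (j - 2 * Real.pi * b / δ))⁻¹ *
        (Real.exp (-((2 * Real.pi * b - s * b ^ (2 : ℕ) / 2 - b ^ (2 : ℕ) * Real.exp b / (8 / 5 * s)) / δ)) *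
          √(5 / 2 * Real.pi) * √(δ / s) * Real.exp (b / 2) +
          2 * Real.pi * Real.exp (-((2 * b + s * (Real.exp (-b) - b ^ (2 : ℕ) / 2)) / δ))) := by
  have hp := Real.pi_pos
  have hp3 := Real.pi_gt_three
  have hj' : (j : ℝ) ≤ 2 := by exact_mod_cast hj
  have hj0 : (0 : ℝ) ≤ j := Nat.cast_nonneg j
  set β : ℝ := b - j * δ / (2 * Real.pi) with hβd
  have hβ : 0 < β := by
    rw [hβd, sub_pos, div_lt_iff₀ (by positivity)]
    nlinarith
  have hβb : β ≤ b := by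
    rw [hβd]
    have : 0 ≤ j * δ / (2 * Real.pi) := by positivity
    linarith only [this]
  set X : ℝ := s * Real.exp (-b) with hXd
  have hX : 0 < X := mul_pos hs (Real.exp_pos _)
  obtain ⟨hi, hle⟩ := lift0 hβ hX hδ fun t ht => one_sub_cos_half ht
  set K : ℝ := (2 * Real.pi * √(1 + b ^ (2 : ℕ) / 4)) ^ j * Real.exp (-j + s * b ^ (2 : ℕ) / 2 / δ) with hK
  have hK0 : 0 ≤ K := by positivity
  have hpt : ∀ y ∈ Ioi (2 : ℝ), ‖Wt δ (-a + s * I) j (-b) (-y)‖ ≤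
      K * Real.exp (-(β * y + X * (1 - Real.cos y)) / δ) := by
    intro y hy
    have hy2 : 2 < y := hy
    rw [norm_Wt_L]
    have h1 := ht_L_lift hs ha hb.le hy2.le
    have h2 : Real.exp (-Ht (-a) s (-b) (-y) / δ) ≤
        Real.exp (-(b * y - s * b ^ (2 : ℕ) / 2 + s * Real.exp (-b) * (1 - Real.cos y)) / δ) := by
      refine Real.exp_le_exp.2 (div_le_div_of_nonneg_right ?_ hδ.le)
      linarith only [h1]
    refine (mul_le_mul (sqrt_pow_le hy2.le j) h2 (Real.exp_nonneg _) (by positivity)).trans (le_of_eq ?_)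
    rw [hK]
    generalize (2 * Real.pi * √(1 + b ^ (2 : ℕ) / 4)) ^ j = B
    have e0 : ∀ x1 x2 x3 x4 : ℝ, x1 + x2 = x3 + x4 → B * Real.exp x1 * Real.exp x2 = B * Real.exp x3 * Real.exp x4 := by
      intro x1 x2 x3 x4 h
      rw [mul_assoc, mul_assoc, ← Real.exp_add, ← Real.exp_add, h]
    refine e0 _ _ _ _ ?_
    rw [hβd, hXd]
    field_simp
    ring
  have hn : ‖∫ y in Ioi (2 : ℝ), Wt δ (-a + s * I) j (-b) (-y)‖ ≤
      K * ∫ y in Ioi (2 : ℝ), Real.exp (-(β * y + X * (1 - Real.cos y)) / δ) := by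
    rw [← MeasureTheory.integral_const_mul]
    refine (norm_integral_le_integral_norm _).trans ?_
    refine setIntegral_mono_on (liftL_int hδ hs ha hb j).norm (hi.const_mul K) measurableSet_Ioi hpt
  refine hn.trans ((mul_le_mul_of_nonneg_left hle hK0).trans ?_)
  have hβ2 : -(2 * Real.pi * β / δ) = j - 2 * Real.pi * b / δ := by
    rw [hβd]
    field_simp
    ring
  rw [hβ2]
  have hq : Real.exp (j - 2 * Real.pi * b / δ) < 1 := by
    rw [Real.exp_lt_one_iff, ← hβ2]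
    have : 0 < 2 * Real.pi * β / δ := by positivity
    linarith only [this]
  have hq' : 0 < 1 - Real.exp (j - 2 * Real.pi * b / δ) := by linarith only [hq]
  rw [hK]
  have e1 : √(Real.pi * δ / (2 / 5 * X)) = √(5 / 2 * Real.pi) * √(δ / s) * Real.exp (b / 2) := by
    rw [← Real.sqrt_mul (by positivity)]
    have : Real.exp (b / 2) = √(Real.exp b) := by
      rw [Real.sqrt_eq_rpow, ← Real.exp_mul]
      congr 1
      ring
    rw [this, ← Real.sqrt_mul (by positivity)]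
    congr 1
    rw [hXd, Real.exp_neg]
    field_simp
  rw [e1]
  have e2 : Real.exp (-j + s * b ^ (2 : ℕ) / 2 / δ) * (Real.exp (j - 2 * Real.pi * b / δ + β ^ (2 : ℕ) / (8 / 5 * X * δ))) ≤
      Real.exp (-((2 * Real.pi * b - s * b ^ (2 : ℕ) / 2 - b ^ (2 : ℕ) * Real.exp b / (8 / 5 * s)) / δ)) := by
    rw [← Real.exp_add]
    refine Real.exp_le_exp.2 ?_
    have h1 : β ^ (2 : ℕ) / (8 / 5 * X * δ) ≤ b ^ (2 : ℕ) * Real.exp b / (8 / 5 * s) / δ := by
      have h2 : b ^ (2 : ℕ) * Real.exp b / (8 / 5 * s) / δ = b ^ (2 : ℕ) / (8 / 5 * X * δ) := by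
        rw [hXd, Real.exp_neg]
        field_simp
      rw [h2]
      refine div_le_div_of_nonneg_right ?_ (by positivity)
      exact pow_le_pow_left₀ hβ.le hβb 2
    have h3 : -((2 * Real.pi * b - s * b ^ (2 : ℕ) / 2 - b ^ (2 : ℕ) * Real.exp b / (8 / 5 * s)) / δ) =
        -(2 * Real.pi * b / δ) + s * b ^ (2 : ℕ) / 2 / δ + b ^ (2 : ℕ) * Real.exp b / (8 / 5 * s) / δ := by ring
    rw [h3]
    linarith only [h1]
  have e3 : Real.exp (-j + s * b ^ (2 : ℕ) / 2 / δ) * Real.exp (-((2 * β + X) / δ)) ≤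
      Real.exp (-((2 * b + s * (Real.exp (-b) - b ^ (2 : ℕ) / 2)) / δ)) := by
    rw [← Real.exp_add]
    refine Real.exp_le_exp.2 ?_
    have h1 : -((2 * β + X) / δ) = -((2 * b + X) / δ) + j / Real.pi := by
      rw [hβd]
      field_simp
      ring
    have h2 : (j : ℝ) / Real.pi ≤ j := by
      rw [div_le_iff₀ hp]
      nlinarith
    rw [h1]
    have h3 : -((2 * b + s * (Real.exp (-b) - b ^ (2 : ℕ) / 2)) / δ) = -((2 * b + X) / δ) + s * b ^ (2 : ℕ) / 2 / δ := by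
      rw [hXd]
      ring
    rw [h3]
    linarith only [h2]
  have hA : 0 ≤ (2 * Real.pi * √(1 + b ^ (2 : ℕ) / 4)) ^ j * (1 - Real.exp (j - 2 * Real.pi * b / δ))⁻¹ :=
    mul_nonneg (by positivity) (inv_nonneg.2 hq'.le)
  calc (2 * Real.pi * √(1 + b ^ (2 : ℕ) / 4)) ^ j * Real.exp (-j + s * b ^ (2 : ℕ) / 2 / δ) *
        ((1 - Real.exp (j - 2 * Real.pi * b / δ))⁻¹ *
          (Real.exp (j - 2 * Real.pi * b / δ + β ^ (2 : ℕ) / (8 / 5 * X * δ)) *
            (√(5 / 2 * Real.pi) * √(δ / s) * Real.exp (b / 2)) + 2 * Real.pi * Real.exp (-((2 * β + X) / δ))))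
      = (2 * Real.pi * √(1 + b ^ (2 : ℕ) / 4)) ^ j * (1 - Real.exp (j - 2 * Real.pi * b / δ))⁻¹ *
        ((Real.exp (-j + s * b ^ (2 : ℕ) / 2 / δ) * Real.exp (j - 2 * Real.pi * b / δ + β ^ (2 : ℕ) / (8 / 5 * X * δ))) *
            (√(5 / 2 * Real.pi) * √(δ / s) * Real.exp (b / 2)) +
          2 * Real.pi * (Real.exp (-j + s * b ^ (2 : ℕ) / 2 / δ) * Real.exp (-((2 * β + X) / δ)))) := by ring
    _ ≤ (2 * Real.pi * √(1 + b ^ (2 : ℕ) / 4)) ^ j * (1 - Real.exp (j - 2 * Real.pi * b / δ))⁻¹ *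
        (Real.exp (-((2 * Real.pi * b - s * b ^ (2 : ℕ) / 2 - b ^ (2 : ℕ) * Real.exp b / (8 / 5 * s)) / δ)) *
            (√(5 / 2 * Real.pi) * √(δ / s) * Real.exp (b / 2)) +
          2 * Real.pi * Real.exp (-((2 * b + s * (Real.exp (-b) - b ^ (2 : ℕ) / 2)) / δ))) := by
        refine mul_le_mul_of_nonneg_left (add_le_add ?_ ?_) hA
        · exact mul_le_mul_of_nonneg_right e2 (by positivity)
        · exact mul_le_mul_of_nonneg_left e3 (by positivity)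
    _ = _ := by ring

end SokamN1

end

/-! ### Lib_MP_af4de1_f1.N1LLn -/

section
/-!
# N = 1, large `rho`: the lifts on the path L, numbers

`b = 5/rho`.  A: `rho ≤ 13`, `δ ≤ 10 rho/499`: exponent
`≥ 49.9 (10π - 12.5 s/rho - 15.625 e^b/(s rho))/rho² ≥ 49.9 (31.41 - 12.96)/169 ≥ 5.447`,
`e^{-5.447} √(5π/2) e^{5/16} ≤ .0166`; last term: `(2b + s(e^{-b} - b²/2))/δ ≥ 49.9 (10/rho² + .34 (rho - 2π)/rho)
≥ 49.9 * .2259 ≥ 11.2`.  C: `rho ≥ 13`, `δ rho ≤ 7.2552`, `s ≥ rho - 2π ≥ 6.71`: exponent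
`≥ (10π - 12.5 - .264)/7.2552 ≥ 2.5707`, `e^{-2.5707} √(5π/2) e^{5/26} ≤ .2599`, `2πb/δ ≥ 4.3301`; last term:
`s/δ ≥ 25.7`, `e^{-b} - b²/2 ≥ .6`.
-/

set_option autoImplicit false

namespace SokamN1

open Complex Set MeasureTheory

private theorem exp_low (n : ℕ) {t : ℝ} (ht : 0 ≤ t) :
    (2718 / 1000 : ℝ) ^ n * (1 + t + t ^ (2 : ℕ) / 2) ≤ Real.exp (n + t) := by
  rw [Real.exp_add, ← Real.exp_one_pow]
  have h1 := Real.exp_one_gt_d9
  have h2 : (2718 / 1000 : ℝ) ^ n ≤ Real.exp 1 ^ n :=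
    pow_le_pow_left₀ (by norm_num) (by linarith only [h1]) n
  exact mul_le_mul h2 (Real.quadratic_le_exp_of_nonneg ht) (by (clear * - ht; positivity)) (by positivity)

/-- `(1 - e^(-P))⁻¹ ≤ M/(M - 1)` if `e^P ≥ M` -/
private theorem geo {u M : ℝ} (hM : 1 < M) (h : M ≤ Real.exp (-u)) :
    0 < 1 - Real.exp u ∧ (1 - Real.exp u)⁻¹ ≤ M / (M - 1) := by
  have h1 : Real.exp u ≤ 1 / M := by
    have h2 : Real.exp u = 1 / Real.exp (-u) := by rw [Real.exp_neg, one_div, inv_inv]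
    rw [h2]
    exact one_div_le_one_div_of_le (by linarith only [hM]) h
  have h3 : 1 / M < 1 := by
    rw [div_lt_one (by linarith only [hM])]
    exact hM
  have h4 : 0 < 1 - Real.exp u := by linarith only [h1, h3]
  refine ⟨h4, ?_⟩
  rw [inv_le_comm₀ h4 (by apply div_pos <;> linarith), inv_div]
  have h5 : (M - 1) / M = 1 - 1 / M := by
    rw [sub_div, div_self (by linarith only [hM])]
  rw [h5]
  linarith only [h1]

private theorem fin {δ s b P E1 E2 Q Qj qj t1 t2 R x : ℝ} {j : ℕ}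
    (h : x ≤ Q ^ j * (1 - Real.exp (j - P))⁻¹ * (Real.exp (-E1) * √(5 / 2 * Real.pi) * √(δ / s) *
      Real.exp (b / 2) + 2 * Real.pi * Real.exp (-E2)))
    (hQ0 : 0 ≤ Q) (hQ : Q ^ j ≤ Qj)
    (hq : 0 < 1 - Real.exp (j - P) ∧ (1 - Real.exp (j - P))⁻¹ ≤ qj)
    (h1 : Real.exp (-E1) * √(5 / 2 * Real.pi) * Real.exp (b / 2) ≤ t1)
    (h2 : 2 * Real.pi * Real.exp (-E2) ≤ t2 * √(δ / s)) (ht : 0 ≤ t1 + t2)
    (hR : Qj * qj * (t1 + t2) ≤ R) : x ≤ R * √(δ / s) := by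
  have hr : 0 ≤ √(δ / s) := Real.sqrt_nonneg _
  have e1 : Real.exp (-E1) * √(5 / 2 * Real.pi) * √(δ / s) * Real.exp (b / 2) +
      2 * Real.pi * Real.exp (-E2) ≤ (t1 + t2) * √(δ / s) := by
    have := mul_le_mul_of_nonneg_right h1 hr
    linarith only [h2, this]
  have e0 : 0 ≤ Q ^ j := pow_nonneg hQ0 j
  have e3 : 0 ≤ (1 - Real.exp (j - P))⁻¹ := inv_nonneg.2 hq.1.le
  have e2 : Q ^ j * (1 - Real.exp (j - P))⁻¹ ≤ Qj * qj :=
    mul_le_mul hQ hq.2 e3 (e0.trans hQ)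
  refine h.trans ((mul_le_mul_of_nonneg_left e1 (mul_nonneg e0 e3)).trans ?_)
  have e4 : 0 ≤ (t1 + t2) * √(δ / s) := mul_nonneg ht hr
  refine (mul_le_mul_of_nonneg_right e2 e4).trans ?_
  rw [← mul_assoc]
  exact mul_le_mul_of_nonneg_right hR hr

private theorem sqrt_5pi : √(5 / 2 * Real.pi) ≤ 2803 / 1000 := by
  rw [Real.sqrt_le_left (by norm_num)]
  have := Real.pi_lt_d4
  norm_num
  linarith only [this]

/-- the last term -/
private theorem last_term {δ s E2 t2 L : ℝ} (hδ : 0 < δ) (hs : 0 < s)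
    (hE : L ≤ E2 - s / δ / 32 + 1 / 2) (hL : 8 * Real.pi * Real.exp (-L) ≤ t2) :
    2 * Real.pi * Real.exp (-E2) ≤ t2 * √(δ / s) := by
  set z : ℝ := s / δ with hz
  have hz0 : 0 < z := by positivity
  have e1 : √(δ / s) * √z = 1 := by
    rw [← Real.sqrt_mul (by (clear * - hδ hs; positivity)), hz]
    have : δ / s * (s / δ) = 1 := by field_simp
    rw [this, Real.sqrt_one]
  have e2 : √z ≤ 4 * Real.exp (z / 32 - 1 / 2) := by
    apply Real.sqrt_le_iff.2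
    refine ⟨by positivity, ?_⟩
    rw [mul_pow, ← Real.exp_nat_mul]
    have h1 := Real.add_one_le_exp (z / 16 - 1)
    have h2 : ((2 : ℕ) : ℝ) * (z / 32 - 1 / 2) = z / 16 - 1 := by push_cast; ring
    rw [h2]
    linarith only [h1]
  have e3 : 1 ≤ 4 * Real.exp (z / 32 - 1 / 2) * √(δ / s) := by
    calc (1 : ℝ) = √z * √(δ / s) := by rw [mul_comm, e1]
      _ ≤ _ := mul_le_mul_of_nonneg_right e2 (Real.sqrt_nonneg _)
  have e4 : 0 < 2 * Real.pi * Real.exp (-E2) := by positivity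
  calc 2 * Real.pi * Real.exp (-E2) = 2 * Real.pi * Real.exp (-E2) * 1 := by ring
    _ ≤ 2 * Real.pi * Real.exp (-E2) * (4 * Real.exp (z / 32 - 1 / 2) * √(δ / s)) :=
        mul_le_mul_of_nonneg_left e3 e4.le
    _ = 8 * Real.pi * Real.exp (-(E2 - z / 32 + 1 / 2)) * √(δ / s) := by
        have : Real.exp (-(E2 - z / 32 + 1 / 2)) = Real.exp (-E2) * Real.exp (z / 32 - 1 / 2) := by
          rw [← Real.exp_add]
          congr 1
          ring
        rw [this]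
        ring
    _ ≤ 8 * Real.pi * Real.exp (-L) * √(δ / s) := by
        apply mul_le_mul_of_nonneg_right _ (Real.sqrt_nonneg _)
        apply mul_le_mul_of_nonneg_left _ (by positivity)
        exact Real.exp_le_exp.2 (by linarith only [hE])
    _ ≤ t2 * √(δ / s) := mul_le_mul_of_nonneg_right hL (Real.sqrt_nonneg _)

/-- the first exponent -/
private theorem first_exp {δ rho s N0 B0 : ℝ} (hδ : 0 < δ) (hr : 0 < rho) (hs : 0 < s) (hN : 0 ≤ N0)
    (hB0 : δ * rho ≤ B0)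
    (h : N0 ≤ 10 * Real.pi - 25 / 2 * s / rho - 125 / 8 * Real.exp (5 / rho) / (s * rho)) :
    N0 / B0 ≤ (2 * Real.pi * (5 / rho) - s * (5 / rho) ^ (2 : ℕ) / 2 -
      (5 / rho) ^ (2 : ℕ) * Real.exp (5 / rho) / (8 / 5 * s)) / δ := by
  have e1 : (2 * Real.pi * (5 / rho) - s * (5 / rho) ^ (2 : ℕ) / 2 -
      (5 / rho) ^ (2 : ℕ) * Real.exp (5 / rho) / (8 / 5 * s)) / δ =
      (10 * Real.pi - 25 / 2 * s / rho - 125 / 8 * Real.exp (5 / rho) / (s * rho)) / (δ * rho) := by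
    generalize Real.exp (5 / rho) = X
    field_simp
    ring
  rw [e1]
  exact div_le_div₀ (hN.trans h) h (by positivity) hB0

/-- the second exponent -/
private theorem second_exp {δ rho s c0 : ℝ} (hδ : 0 < δ) (hs : 0 < s)
    (hc : c0 ≤ Real.exp (-(5 / rho)) - (5 / rho) ^ (2 : ℕ) / 2) :
    (10 / rho + c0 * s) / δ ≤
      (2 * (5 / rho) + s * (Real.exp (-(5 / rho)) - (5 / rho) ^ (2 : ℕ) / 2)) / δ := by
  apply div_le_div_of_nonneg_right _ hδ.le
  have h1 := mul_le_mul_of_nonneg_left hc hs.le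
  have h2 : 2 * (5 / rho) = 10 / rho := by ring
  rw [h2]
  linarith only [h1]

private theorem Q_le {b c : ℝ} (hc : 0 ≤ c) (h : 1 + b ^ (2 : ℕ) / 4 ≤ c ^ (2 : ℕ)) :
    2 * Real.pi * √(1 + b ^ (2 : ℕ) / 4) ≤ 62832 / 10000 * c := by
  have h1 : √(1 + b ^ (2 : ℕ) / 4) ≤ c := Real.sqrt_le_iff.2 ⟨hc, h⟩
  have h2 := Real.pi_lt_d4
  have h3 : 2 * Real.pi ≤ 62832 / 10000 := by linarith only [h2]
  exact mul_le_mul h3 h1 (Real.sqrt_nonneg _) (by norm_num)

theorem liftL_A {δ rho a s : ℝ} (hδ : 0 < δ) (h8 : 8 ≤ rho) (h13 : rho ≤ 13) (hz : 499 / 10 * δ ≤ rho)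
    (ha : 0 ≤ a) (hs : rho - 2 * Real.pi ≤ s) (hs1 : 2089 / 1000 ≤ s) (hs2 : s ≤ rho) :
    ‖∫ y in Ioi (2 : ℝ), Wt δ (-a + s * I) 0 (-(5 / rho)) (-y)‖ ≤ 18 / 1000 * √(δ / s) ∧
    ‖∫ y in Ioi (2 : ℝ), Wt δ (-a + s * I) 1 (-(5 / rho)) (-y)‖ ≤ 12 / 100 * √(δ / s) ∧
    ‖∫ y in Ioi (2 : ℝ), Wt δ (-a + s * I) 2 (-(5 / rho)) (-y)‖ ≤ 80 / 100 * √(δ / s) := by
  have hr : 0 < rho := by linarith only [hs1, hs2]
  have hs0 : 0 < s := by linarith only [hs1]
  have hpi := Real.pi_gt_d4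
  have hpi2 := Real.pi_lt_d4
  set b : ℝ := 5 / rho with hb
  have hb0 : 0 < b := by positivity
  have hb1 : b ≤ 5 / 8 := by
    rw [hb]
    exact div_le_div_of_nonneg_left (by norm_num) (by norm_num) h8
  have hb2 : 5 / 13 ≤ b := by
    rw [hb]
    exact div_le_div_of_nonneg_left (by norm_num) hr h13
  have hδ1 : δ ≤ 130 / 499 := by linarith only [h13, hz]
  have hδb : δ < 3 * b := by linarith only [hb2, hδ1]
  have hexpb : Real.exp b ≤ 187 / 100 := (Real.exp_le_exp.2 hb1).trans exp_58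
  -- the product
  have hprod : δ * rho ≤ 1690 / 499 := by nlinarith only [h8, h13, hz]
  have hP : 9 ≤ 2 * Real.pi * b / δ := by
    have e1 : 2 * Real.pi * b / δ = 10 * Real.pi / (δ * rho) := by rw [hb]; field_simp; ring
    rw [e1, le_div_iff₀ (by positivity)]
    nlinarith only [h8, h13, hz, hpi]
  -- first exponent
  have hN : 18455 / 1000 ≤ 10 * Real.pi - 25 / 2 * s / rho - 125 / 8 * Real.exp (5 / rho) / (s * rho) := by
    rw [← hb]
    have e1 : 25 / 2 * s / rho + 125 / 8 * Real.exp b / (s * rho) ≤ 1296 / 100 := by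
      have e2 : 25 / 2 * s / rho + 125 / 8 * Real.exp b / (s * rho) =
          (25 / 2 * s ^ (2 : ℕ) + 125 / 8 * Real.exp b) / (s * rho) := by
        field_simp
      rw [e2, div_le_iff₀ (by (clear * - hs1 h8; positivity))]
      have e3 : 125 / 8 * Real.exp b ≤ 2922 / 100 := by linarith only [hexpb]
      rcases le_total 8 s with h | h
      · nlinarith only [hs2, e3, h]
      · nlinarith only [h8, hs1, e3, h]
    linarith only [hpi, e1]
  have hE1 := first_exp hδ hr hs0 (by norm_num) hprod hN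
  -- second exponent
  have hc : 339 / 1000 ≤ Real.exp (-(5 / rho)) - (5 / rho) ^ (2 : ℕ) / 2 := by
    rw [← hb]
    have e1 : 1 / (187 / 100) ≤ Real.exp (-b) := by
      rw [Real.exp_neg, ← one_div]
      exact one_div_le_one_div_of_le (Real.exp_pos _) hexpb
    have e2 : b ^ (2 : ℕ) ≤ (5 / 8) ^ (2 : ℕ) := pow_le_pow_left₀ hb0.le hb1 2
    norm_num at e1 e2
    linarith only [e1, e2]
  have hE2 := second_exp hδ hs0 hc
  rw [← hb] at hE1 hE2
  set E1 : ℝ := (2 * Real.pi * b - s * b ^ (2 : ℕ) / 2 - b ^ (2 : ℕ) * Real.exp b / (8 / 5 * s)) / δ with hE1d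
  set E2 : ℝ := (2 * b + s * (Real.exp (-b) - b ^ (2 : ℕ) / 2)) / δ with hE2d
  have t1 : Real.exp (-E1) * √(5 / 2 * Real.pi) * Real.exp (b / 2) ≤ 171 / 10000 := by
    have e1 : Real.exp (-E1) * √(5 / 2 * Real.pi) * Real.exp (b / 2) =
        Real.exp (-(E1 - b / 2)) * √(5 / 2 * Real.pi) := by
      have : Real.exp (-(E1 - b / 2)) = Real.exp (-E1) * Real.exp (b / 2) := by
        rw [← Real.exp_add]
        congr 1
        ring
      rw [this]
      ring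
    rw [e1]
    have e2 : (5107 / 1000 : ℝ) ≤ E1 - b / 2 := by
      norm_num at hE1
      linarith only [hb1, hE1]
    have e3 := exp_low 5 (t := 107 / 1000) (by norm_num)
    norm_num at e3
    have e4 : Real.exp (-(E1 - b / 2)) ≤ 1 / 165 := by
      rw [Real.exp_neg, ← one_div]
      apply one_div_le_one_div_of_le (by norm_num)
      have e5 : Real.exp (5107 / 1000) ≤ Real.exp (E1 - b / 2) := Real.exp_le_exp.2 e2
      linarith only [e3, e5]
    calc Real.exp (-(E1 - b / 2)) * √(5 / 2 * Real.pi) ≤ 1 / 165 * (2803 / 1000) :=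
          mul_le_mul e4 sqrt_5pi (Real.sqrt_nonneg _) (by norm_num)
      _ ≤ 171 / 10000 := by norm_num
  have t2 : 2 * Real.pi * Real.exp (-E2) ≤ 4 / 10000 * √(δ / s) := by
    apply last_term (L := 11 + 1 / 10) hδ hs0
    · have e1 : (10 / rho + 339 / 1000 * s) / δ - s / δ / 32 ≥ 1065 / 100 := by
        have e2 : (10 / rho + 339 / 1000 * s) / δ - s / δ / 32 =
            (10 / rho + 30775 / 100000 * s) / δ := by ring
        rw [e2, ge_iff_le, le_div_iff₀ hδ]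
        have e3 : (0 : ℝ) < 10 / rho := by (clear * - h8; positivity)
        have e4 : 1065 / 100 * δ ≤ 1065 / 4990 * 1 * rho := by linarith only [hz]
        refine e4.trans ?_
        have e5 : 1065 / 4990 * 1 * rho ≤ 10 / rho + 30775 / 100000 * (rho - 62832 / 10000) := by
          rw [← sub_le_iff_le_add, le_div_iff₀ hr]
          nlinarith only [sq_nonneg (rho - 10)]
        have e6 : rho - 62832 / 10000 ≤ s := by linarith only [hs, hpi2]
        linarith only [e5, e6]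
      linarith only [hE2, e1]
    · have e3 := exp_low 11 (t := 1 / 10) (by norm_num)
      norm_num at e3
      have e4 : Real.exp (-(11 + 1 / 10 : ℝ)) ≤ 1 / 63000 := by
        rw [Real.exp_neg, ← one_div]
        apply one_div_le_one_div_of_le (by norm_num)
        norm_num
        linarith only [e3]
      have e5 : 8 * Real.pi * Real.exp (-(11 + 1 / 10 : ℝ)) ≤ 8 * (31416 / 10000) * (1 / 63000) :=
        mul_le_mul (by linarith only [hpi2]) e4 (Real.exp_pos _).le (by norm_num)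
      refine e5.trans (by norm_num)
  have hQ0 : 0 ≤ 2 * Real.pi * √(1 + b ^ (2 : ℕ) / 4) := by (clear * - h8; positivity)
  have hQ : 2 * Real.pi * √(1 + b ^ (2 : ℕ) / 4) ≤ 6584 / 1000 := by
    refine (Q_le (c := 10478 / 10000) (by norm_num) ?_).trans (by norm_num)
    have e2 : b ^ (2 : ℕ) ≤ (5 / 8) ^ (2 : ℕ) := pow_le_pow_left₀ hb0.le hb1 2
    norm_num at e2 ⊢
    linarith only [e2]
  have hgeo : ∀ j : ℕ, j ≤ 2 → 0 < 1 - Real.exp (j - 2 * Real.pi * b / δ) ∧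
      (1 - Real.exp (j - 2 * Real.pi * b / δ))⁻¹ ≤ 1001 / (1001 - 1) := by
    intro j hj
    apply geo (by norm_num)
    have hj' : (j : ℝ) ≤ 2 := by exact_mod_cast hj
    have e3 := exp_low 7 (t := 0) le_rfl
    norm_num at e3
    have e5 : Real.exp 7 ≤ Real.exp (-((j : ℝ) - 2 * Real.pi * b / δ)) :=
      Real.exp_le_exp.2 (by linarith only [hP, hj'])
    linarith only [e3, e5]
  refine ⟨?_, ?_, ?_⟩
  · exact fin (j := 0) (liftL_gen hδ hb0 hδb ha hs0 (j := 0) (by norm_num)) hQ0 (le_refl _)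
      (hgeo 0 (by norm_num)) t1 t2 (by norm_num) (by norm_num)
  · have hQ1 : (2 * Real.pi * √(1 + b ^ (2 : ℕ) / 4)) ^ (1 : ℕ) ≤ 6584 / 1000 := by rwa [pow_one]
    exact fin (j := 1) (liftL_gen hδ hb0 hδb ha hs0 (j := 1) (by norm_num)) hQ0 hQ1
      (hgeo 1 (by norm_num)) t1 t2 (by norm_num) (by norm_num)
  · have hQ2 : (2 * Real.pi * √(1 + b ^ (2 : ℕ) / 4)) ^ (2 : ℕ) ≤ (6584 / 1000) ^ (2 : ℕ) := pow_le_pow_left₀ hQ0 hQ 2
    exact fin (j := 2) (liftL_gen hδ hb0 hδb ha hs0 (j := 2) (by norm_num)) hQ0 hQ2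
      (hgeo 2 (by norm_num)) t1 t2 (by norm_num) (by norm_num)

theorem liftL_C {δ rho a s : ℝ} (hδ : 0 < δ) (h13 : 13 ≤ rho) (hz : 499 / 10 * δ ≤ rho)
    (hl : δ * rho ≤ 72552 / 10000) (ha : 0 ≤ a) (hs : rho - 2 * Real.pi ≤ s) (hs2 : s ≤ rho) :
    ‖∫ y in Ioi (2 : ℝ), Wt δ (-a + s * I) 0 (-(5 / rho)) (-y)‖ ≤ 27 / 100 * √(δ / s) ∧
    ‖∫ y in Ioi (2 : ℝ), Wt δ (-a + s * I) 1 (-(5 / rho)) (-y)‖ ≤ 176 / 100 * √(δ / s) ∧
    ‖∫ y in Ioi (2 : ℝ), Wt δ (-a + s * I) 2 (-(5 / rho)) (-y)‖ ≤ 1210 / 100 * √(δ / s) := by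
  have hr : 0 < rho := by linarith only [h13]
  have hpi := Real.pi_gt_d6
  have hpi2 := Real.pi_lt_d4
  have hs1 : 6716 / 1000 ≤ s := by linarith only [h13, hs, hpi2]
  have hs0 : 0 < s := by linarith only [hs1]
  set b : ℝ := 5 / rho with hb
  have hb0 : 0 < b := by positivity
  have hb1 : b ≤ 5 / 13 := by
    rw [hb]
    exact div_le_div_of_nonneg_left (by norm_num) (by norm_num) h13
  have hδb : δ < 3 * b := by
    have e1 : 3 * b = 15 / rho := by rw [hb]; ring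
    rw [e1, lt_div_iff₀ hr]
    linarith only [hl]
  have hexpb : Real.exp b ≤ 14697 / 10000 := by
    have e1 := exp_sub_C hb0.le hb1
    have e2 : b ^ (2 : ℕ) ≤ (5 / 13) ^ (2 : ℕ) := pow_le_pow_left₀ hb0.le hb1 2
    norm_num at e2
    linarith only [hb1, e1, e2]
  have hP : 433 / 100 ≤ 2 * Real.pi * b / δ := by
    have e1 : 2 * Real.pi * b / δ = 10 * Real.pi / (δ * rho) := by rw [hb]; field_simp; ring
    rw [e1, le_div_iff₀ (by positivity)]
    linarith only [hl, hpi]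
  -- first exponent
  have hN : 1865 / 100 ≤ 10 * Real.pi - 25 / 2 * s / rho - 125 / 8 * Real.exp (5 / rho) / (s * rho) := by
    rw [← hb]
    have e1 : 25 / 2 * s / rho ≤ 25 / 2 := by
      rw [div_le_iff₀ hr]
      linarith only [hs2]
    have e2 : 125 / 8 * Real.exp b / (s * rho) ≤ 2635 / 10000 := by
      rw [div_le_iff₀ (by (clear * - hs1 h13; positivity))]
      have e3 : 6716 / 1000 * 13 ≤ s * rho := mul_le_mul hs1 h13 (by norm_num) hs0.le
      linarith only [hexpb, e3]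
    linarith only [hpi, e1, e2]
  have hE1 := first_exp hδ hr hs0 (by norm_num) hl hN
  -- second exponent
  have hc : 6 / 10 ≤ Real.exp (-(5 / rho)) - (5 / rho) ^ (2 : ℕ) / 2 := by
    rw [← hb]
    have e1 : 1 / (14697 / 10000) ≤ Real.exp (-b) := by
      rw [Real.exp_neg, ← one_div]
      exact one_div_le_one_div_of_le (Real.exp_pos _) hexpb
    have e2 : b ^ (2 : ℕ) ≤ (5 / 13) ^ (2 : ℕ) := pow_le_pow_left₀ hb0.le hb1 2
    norm_num at e1 e2
    linarith only [e1, e2]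
  have hE2 := second_exp hδ hs0 hc
  rw [← hb] at hE1 hE2
  set E1 : ℝ := (2 * Real.pi * b - s * b ^ (2 : ℕ) / 2 - b ^ (2 : ℕ) * Real.exp b / (8 / 5 * s)) / δ with hE1d
  set E2 : ℝ := (2 * b + s * (Real.exp (-b) - b ^ (2 : ℕ) / 2)) / δ with hE2d
  have t1 : Real.exp (-E1) * √(5 / 2 * Real.pi) * Real.exp (b / 2) ≤ 2627 / 10000 := by
    have e1 : Real.exp (-E1) * √(5 / 2 * Real.pi) * Real.exp (b / 2) =
        Real.exp (-(E1 - b / 2)) * √(5 / 2 * Real.pi) := by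
      have : Real.exp (-(E1 - b / 2)) = Real.exp (-E1) * Real.exp (b / 2) := by
        rw [← Real.exp_add]
        congr 1
        ring
      rw [this]
      ring
    rw [e1]
    have e2 : (2375 / 1000 : ℝ) ≤ E1 - b / 2 := by
      norm_num at hE1
      linarith only [hb1, hE1]
    have e3 := exp_low 2 (t := 375 / 1000) (by norm_num)
    norm_num at e3
    have e4 : Real.exp (-(E1 - b / 2)) ≤ 1 / (1067 / 100) := by
      rw [Real.exp_neg, ← one_div]
      apply one_div_le_one_div_of_le (by norm_num)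
      have e5 : Real.exp (19 / 8) ≤ Real.exp (E1 - b / 2) := Real.exp_le_exp.2 (by linarith only [e2])
      linarith only [e3, e5]
    calc Real.exp (-(E1 - b / 2)) * √(5 / 2 * Real.pi) ≤ 1 / (1067 / 100) * (2803 / 1000) :=
          mul_le_mul e4 sqrt_5pi (Real.sqrt_nonneg _) (by norm_num)
      _ ≤ 2627 / 10000 := by norm_num
  have hz1 : 257 / 10 ≤ s / δ := by
    rw [le_div_iff₀ hδ]
    linarith only [hz, hs, hpi2, hs1]
  have t2 : 2 * Real.pi * Real.exp (-E2) ≤ 1 / 10000 * √(δ / s) := by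
    apply last_term (L := 14) hδ hs0
    · have e2 : (10 / rho + 6 / 10 * s) / δ = 10 / rho / δ + 6 / 10 * (s / δ) := by ring
      have e3 : 0 < 10 / rho / δ := by (clear * - h13 hδ; positivity)
      linarith only [hE2, hz1, e2, e3]
    · have e3 := exp_low 14 (t := 0) le_rfl
      norm_num at e3
      have e4 : Real.exp (-(14 : ℝ)) ≤ 1 / 1000000 := by
        rw [Real.exp_neg, ← one_div]
        apply one_div_le_one_div_of_le (by norm_num)
        linarith only [e3]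
      have e5 : 8 * Real.pi * Real.exp (-(14 : ℝ)) ≤ 8 * (31416 / 10000) * (1 / 1000000) :=
        mul_le_mul (by linarith only [hpi2]) e4 (Real.exp_pos _).le (by norm_num)
      refine e5.trans (by norm_num)
  have hQ0 : 0 ≤ 2 * Real.pi * √(1 + b ^ (2 : ℕ) / 4) := by (clear * - h13; positivity)
  have hQ : 2 * Real.pi * √(1 + b ^ (2 : ℕ) / 4) ≤ 6399 / 1000 := by
    refine (Q_le (c := 10184 / 10000) (by norm_num) ?_).trans (by norm_num)
    have e2 : b ^ (2 : ℕ) ≤ (5 / 13) ^ (2 : ℕ) := pow_le_pow_left₀ hb0.le hb1 2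
    norm_num at e2 ⊢
    linarith only [e2]
  have hX : (10 : ℝ) ≤ Real.exp (233 / 100) := by
    have e3 := exp_low 2 (t := 33 / 100) (by norm_num)
    norm_num at e3
    linarith only [e3]
  have hX1 : (25 : ℝ) ≤ Real.exp (333 / 100) := by
    have e1 : (333 / 100 : ℝ) = 1 + 233 / 100 := by norm_num
    have e2 := Real.exp_one_gt_d9
    rw [e1, Real.exp_add]
    nlinarith only [hX, e2]
  have hX2 : (60 : ℝ) ≤ Real.exp (433 / 100) := by
    have e1 : (433 / 100 : ℝ) = 1 + 333 / 100 := by norm_num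
    have e2 := Real.exp_one_gt_d9
    rw [e1, Real.exp_add]
    nlinarith only [hX1, e2]
  refine ⟨?_, ?_, ?_⟩
  · refine fin (j := 0) (qj := 60 / (60 - 1)) (liftL_gen hδ hb0 hδb ha hs0 (j := 0) (by norm_num)) hQ0
      (le_refl _) (geo (by norm_num) ?_) t1 t2 (by norm_num) (by norm_num)
    refine hX2.trans (Real.exp_le_exp.2 ?_)
    push_cast
    linarith only [hP]
  · have hQ1 : (2 * Real.pi * √(1 + b ^ (2 : ℕ) / 4)) ^ (1 : ℕ) ≤ 6399 / 1000 := by rwa [pow_one]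
    refine fin (j := 1) (qj := 25 / (25 - 1)) (liftL_gen hδ hb0 hδb ha hs0 (j := 1) (by norm_num)) hQ0
      hQ1 (geo (by norm_num) ?_) t1 t2 (by norm_num) (by norm_num)
    refine hX1.trans (Real.exp_le_exp.2 ?_)
    push_cast
    linarith only [hP]
  · have hQ2 : (2 * Real.pi * √(1 + b ^ (2 : ℕ) / 4)) ^ (2 : ℕ) ≤ (6399 / 1000) ^ (2 : ℕ) := pow_le_pow_left₀ hQ0 hQ 2
    refine fin (j := 2) (qj := 10 / (10 - 1)) (liftL_gen hδ hb0 hδb ha hs0 (j := 2) (by norm_num)) hQ0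
      hQ2 (geo (by norm_num) ?_) t1 t2 (by norm_num) (by norm_num)
    refine hX.trans (Real.exp_le_exp.2 ?_)
    push_cast
    linarith only [hP]

end SokamN1

end

/-! ### Lib_MP_af4de1_f1.N1SL -/

section
/-!
# N = 1, large `rho`: the piece L (`h = -a + i s`, `a ≥ 0`)

`x = √(δ/s)`, `κ1 = 347/1000 s`, `κ2 = (399/1000 - 4/15 t) s`.
A (`t = .575`): `x² ≤ .0804` (`s ≥ 2.089` and `s ≥ rho - 2π`, `δ ≤ 10 rho/499`), `‖1 - h‖ ≤ 1.4524 s`,
`‖h‖ ≤ 1.1536 s`: `‖AL 0‖ ≥ (2.0799 - .679 - .018 - .003) x ≥ 1.37 x`, `‖AL 1‖ ≤ (.986 + .12 + .002) x`,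
`‖AL 2‖ ≤ (.467 + .8 + .002) x`.
C (`t = .0985`): `x² ≤ .0389`, `‖1 - h‖ ≤ 1.0303 s`, `‖h‖ ≤ 1.005 s`: `‖AL 0‖ ≥ (2.4695 - .256 - .27 - .003) x ≥ 1.93 x`,
`‖AL 1‖ ≤ (.553 + 1.76 + .002) x`, `‖AL 2‖ ≤ (.163 + 12.1 + .002) x`.
-/

set_option autoImplicit false

namespace SokamN1

open Complex Set MeasureTheory

private theorem sl_norm1 {a s N : ℝ} (hN : 0 ≤ N) (hs : 0 ≤ s)
    (h : (1 + a) ^ (2 : ℕ) + s ^ (2 : ℕ) ≤ (N * s) ^ (2 : ℕ)) : ‖1 - (-(a : ℂ) + s * I)‖ ≤ N * s := by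
  have e : ‖1 - (-(a : ℂ) + s * I)‖ ^ (2 : ℕ) = (1 + a) ^ (2 : ℕ) + s ^ (2 : ℕ) := by
    rw [Complex.sq_norm, Complex.normSq_apply]
    simp
    ring
  exact (pow_le_pow_iff_left₀ (norm_nonneg _) (mul_nonneg hN hs) two_ne_zero).1 (by rw [e]; exact h)

private theorem sl_norm2 {a s N : ℝ} (hN : 0 ≤ N) (hs : 0 ≤ s)
    (h : a ^ (2 : ℕ) + s ^ (2 : ℕ) ≤ (N * s) ^ (2 : ℕ)) : ‖-(a : ℂ) + s * I‖ ≤ N * s := by
  have e : ‖-(a : ℂ) + s * I‖ ^ (2 : ℕ) = a ^ (2 : ℕ) + s ^ (2 : ℕ) := by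
    rw [Complex.sq_norm, Complex.normSq_apply]
    simp
    ring
  exact (pow_le_pow_iff_left₀ (norm_nonneg _) (mul_nonneg hN hs) two_ne_zero).1 (by rw [e]; exact h)

/-- `5/4 x² e^{-32/(25 x²)} ≤ x/1000` for `x ≤ 3/10` -/
private theorem sl_tail {δ s : ℝ} (hδ : 0 < δ) (hs : 0 < s) (hX : √(δ / s) ≤ 3 / 10) :
    5 / 4 * (δ / s) * Real.exp (-(32 / 25 * s / δ)) ≤ 1 / 1000 * √(δ / s) := by
  have hq : 0 < δ / s := div_pos hδ hs
  have hx : 0 ≤ √(δ / s) := Real.sqrt_nonneg _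
  have hx2 : √(δ / s) * √(δ / s) = δ / s := Real.mul_self_sqrt hq.le
  have h1 : δ / s ≤ 9 / 100 := by nlinarith only [hX, hx, hx2]
  have h2 : δ ≤ 9 / 100 * s := by rwa [div_le_iff₀ hs] at h1
  have h3 : 14 ≤ 32 / 25 * s / δ := by
    rw [le_div_iff₀ hδ]
    linarith only [hs, h2]
  have h4 : Real.exp (-(32 / 25 * s / δ)) ≤ 1 / 16384 := by
    calc Real.exp (-(32 / 25 * s / δ)) ≤ Real.exp (-14) := Real.exp_le_exp.2 (by linarith only [h3])
      _ = (Real.exp 1 ^ (14 : ℕ))⁻¹ := by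
        rw [Real.exp_neg, ← Real.exp_nat_mul]
        norm_num
      _ ≤ ((2 : ℝ) ^ (14 : ℕ))⁻¹ := inv_anti₀ (by norm_num) (pow_le_pow_left₀ (by norm_num)
        (by linarith only [Real.exp_one_gt_d9]) 14)
      _ = 1 / 16384 := by norm_num
  have h5 : 5 / 4 * (δ / s) * Real.exp (-(32 / 25 * s / δ)) ≤ 5 / 4 * (δ / s) * (1 / 16384) :=
    mul_le_mul_of_nonneg_left h4 (by positivity)
  refine h5.trans ?_
  have h6 : δ / s ≤ 3 / 10 * √(δ / s) := by
    calc δ / s = √(δ / s) * √(δ / s) := hx2.symm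
      _ ≤ 3 / 10 * √(δ / s) := mul_le_mul_of_nonneg_right hX hx
  linarith only [hx, h6]

private theorem sl_main0 {δ a s t κ X P N H : ℝ} (hδ : 0 < δ) (hs : 2 ≤ s) (ha : 0 ≤ a)
    (hat : a ≤ t * s) (hκ : κ = 399 / 1000 - 4 / 15 * t) (hκ0 : 0 < κ) (hκ1 : κ ≤ 1 / 2)
    (hX : √(δ / s) ≤ X) (hX2 : X ≤ 3 / 10) (hN : ‖1 - (-(a : ℂ) + s * I)‖ ≤ N * s)
    (hH : ‖-(a : ℂ) + s * I‖ ≤ H * s) (hP : 0 ≤ P) (hPN : P ^ (2 : ℕ) * N ≤ 2 * Real.pi) :
    (P - H / 12 * (1 / (347 / 1000) ^ (2 : ℕ) + 1 / κ ^ (2 : ℕ)) * X - 1 / 1000) * √(δ / s) ≤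
      ‖∫ y in (-2 : ℝ)..(8 / 5), Wt δ (-a + s * I) 0 0 y‖ := by
  have hs0 : 0 < s := by linarith only [hs]
  have hq : 0 < δ / s := div_pos hδ hs0
  have hx : 0 ≤ √(δ / s) := Real.sqrt_nonneg _
  have hx2 : √(δ / s) * √(δ / s) = δ / s := Real.mul_self_sqrt hq.le
  have h := main_low (κ1 := 347 / 1000 * s) (κ2 := κ * s) (a := -a) (y1 := 2) (y2 := 8 / 5) hδ hs0
    (by positivity) (by positivity) (by linarith only [hs0]) (by nlinarith only [hs, ha, hat, hκ]) (by norm_num) le_rfl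
    (fun y h0 h1 => ht_L_neg hs0 ha h0 h1)
    (fun y h0 h1 => by rw [hκ]; exact ht_L_pos hs0 ha hat h0 h1)
  simp only [Complex.ofReal_neg] at h
  refine le_trans ?_ h
  have hn0 : 0 < ‖1 - (-(a : ℂ) + s * I)‖ := by
    rw [norm_pos_iff]
    intro h0
    have := congrArg Complex.im h0
    simp at this
    linarith only [hs0, this]
  have e1 : P * √(δ / s) ≤ √(2 * Real.pi * δ / ‖1 - (-(a : ℂ) + s * I)‖) := by
    apply Real.le_sqrt_of_sq_le
    rw [le_div_iff₀ hn0, mul_pow, pow_two (√(δ / s)), hx2]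
    calc P ^ (2 : ℕ) * (δ / s) * ‖1 - (-(a : ℂ) + s * I)‖ ≤ P ^ (2 : ℕ) * (δ / s) * (N * s) :=
          mul_le_mul_of_nonneg_left hN (by positivity)
      _ = (P ^ (2 : ℕ) * N) * δ := by field_simp
      _ ≤ 2 * Real.pi * δ := mul_le_mul_of_nonneg_right hPN hδ.le
  have hC : 0 ≤ 1 / (347 / 1000 : ℝ) ^ (2 : ℕ) + 1 / κ ^ (2 : ℕ) := by positivity
  have hH0 : 0 ≤ H := by
    have := (norm_nonneg (-(a : ℂ) + s * I)).trans hH
    by_contra hc
    push Not at hc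
    nlinarith only [hs0, this, hc]
  have e2 : ‖-(a : ℂ) + s * I‖ * δ / 12 * (1 / (347 / 1000 * s) ^ (2 : ℕ) + 1 / (κ * s) ^ (2 : ℕ)) ≤
      H / 12 * (1 / (347 / 1000) ^ (2 : ℕ) + 1 / κ ^ (2 : ℕ)) * X * √(δ / s) := by
    have e3 : ‖-(a : ℂ) + s * I‖ * δ / 12 * (1 / (347 / 1000 * s) ^ (2 : ℕ) + 1 / (κ * s) ^ (2 : ℕ)) ≤
        H * s * δ / 12 * (1 / (347 / 1000 * s) ^ (2 : ℕ) + 1 / (κ * s) ^ (2 : ℕ)) := by
      refine mul_le_mul_of_nonneg_right ?_ (by positivity)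
      refine div_le_div_of_nonneg_right ?_ (by norm_num)
      exact mul_le_mul_of_nonneg_right hH hδ.le
    have e4 : H * s * δ / 12 * (1 / (347 / 1000 * s) ^ (2 : ℕ) + 1 / (κ * s) ^ (2 : ℕ)) =
        H / 12 * (1 / (347 / 1000) ^ (2 : ℕ) + 1 / κ ^ (2 : ℕ)) * (√(δ / s) * √(δ / s)) := by
      rw [hx2]
      field_simp
    rw [e4] at e3
    refine e3.trans ?_
    rw [← mul_assoc]
    refine mul_le_mul_of_nonneg_right ?_ hx
    exact mul_le_mul_of_nonneg_left hX (by positivity)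
  have e5 := sl_tail hδ hs0 (hX.trans hX2)
  have e6 : (P - H / 12 * (1 / (347 / 1000) ^ (2 : ℕ) + 1 / κ ^ (2 : ℕ)) * X - 1 / 1000) * √(δ / s) =
      P * √(δ / s) - H / 12 * (1 / (347 / 1000) ^ (2 : ℕ) + 1 / κ ^ (2 : ℕ)) * X * √(δ / s) -
        1 / 1000 * √(δ / s) := by ring
  rw [e6]
  linarith only [e1, e2, e5]

private theorem sl_main1 {δ a s t κ X : ℝ} (hδ : 0 < δ) (hs : 2 ≤ s) (ha : 0 ≤ a)
    (hat : a ≤ t * s) (hκ : κ = 399 / 1000 - 4 / 15 * t) (hκ0 : 0 < κ) (hX : √(δ / s) ≤ X) :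
    ‖∫ y in (-2 : ℝ)..(8 / 5), Wt δ (-a + s * I) 1 0 y‖ ≤
      (1 / 2 * (1 / (347 / 1000) + 1 / κ) * X) * √(δ / s) := by
  have hs0 : 0 < s := by linarith only [hs]
  have hq : 0 < δ / s := div_pos hδ hs0
  have hx : 0 ≤ √(δ / s) := Real.sqrt_nonneg _
  have hx2 : √(δ / s) * √(δ / s) = δ / s := Real.mul_self_sqrt hq.le
  have h := main_up1 (κ1 := 347 / 1000 * s) (κ2 := κ * s) (a := -a) (y1 := 2) (y2 := 8 / 5) hδ
    (by positivity) (by positivity) (by norm_num) (by norm_num)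
    (fun y h0 h1 => ht_L_neg hs0 ha h0 h1)
    (fun y h0 h1 => by rw [hκ]; exact ht_L_pos hs0 ha hat h0 h1)
  simp only [Complex.ofReal_neg] at h
  refine h.trans ?_
  have e1 : δ / 2 * (1 / (347 / 1000 * s) + 1 / (κ * s)) =
      1 / 2 * (1 / (347 / 1000) + 1 / κ) * (√(δ / s) * √(δ / s)) := by
    rw [hx2]
    field_simp
  rw [e1, ← mul_assoc]
  refine mul_le_mul_of_nonneg_right ?_ hx
  exact mul_le_mul_of_nonneg_left hX (by positivity)

private theorem sl_sqrt {q c κ : ℝ} (hq : 0 ≤ q) (hκ : 0 < κ) (hc : 0 ≤ c) (h : 1 ≤ c ^ (2 : ℕ) * κ) :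
    √(q / κ) ≤ c * √q := by
  rw [Real.sqrt_le_iff]
  refine ⟨mul_nonneg hc (Real.sqrt_nonneg _), ?_⟩
  rw [mul_pow, Real.sq_sqrt hq, div_le_iff₀ hκ]
  nlinarith only [hq, h]

private theorem sl_main2 {δ a s t κ X c : ℝ} (hδ : 0 < δ) (hs : 2 ≤ s) (ha : 0 ≤ a)
    (hat : a ≤ t * s) (hκ : κ = 399 / 1000 - 4 / 15 * t) (hκ0 : 0 < κ) (hX : √(δ / s) ≤ X)
    (hc : 0 ≤ c) (hcκ : 1 ≤ c ^ (2 : ℕ) * κ) :
    ‖∫ y in (-2 : ℝ)..(8 / 5), Wt δ (-a + s * I) 2 0 y‖ ≤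
      (4432 / 10000 * (1698 / 1000 / (347 / 1000) + c / κ) * X ^ (2 : ℕ)) * √(δ / s) := by
  have hs0 : 0 < s := by linarith only [hs]
  have hq : 0 < δ / s := div_pos hδ hs0
  have hx : 0 ≤ √(δ / s) := Real.sqrt_nonneg _
  have hx2 : √(δ / s) ^ (2 : ℕ) = δ / s := Real.sq_sqrt hq.le
  have h := main_up2 (κ1 := 347 / 1000 * s) (κ2 := κ * s) (a := -a) (y1 := 2) (y2 := 8 / 5) hδ
    (by positivity) (by positivity) (by norm_num) (by norm_num)
    (fun y h0 h1 => ht_L_neg hs0 ha h0 h1)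
    (fun y h0 h1 => by rw [hκ]; exact ht_L_pos hs0 ha hat h0 h1)
  simp only [Complex.ofReal_neg] at h
  refine h.trans ?_
  have e0 : √Real.pi / 4 ≤ 4432 / 10000 := by
    have : √Real.pi ≤ 17728 / 10000 := by
      rw [Real.sqrt_le_iff]
      refine ⟨by norm_num, ?_⟩
      have := Real.pi_lt_d4
      norm_num
      linarith only [this]
    linarith only [this]
  have e1 : δ / (347 / 1000 * s) = δ / s / (347 / 1000) := by field_simp
  have e2 : δ / (κ * s) = δ / s / κ := by field_simp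
  have e3 : √(δ / s / (347 / 1000)) ≤ 1698 / 1000 * √(δ / s) :=
    sl_sqrt hq.le (by norm_num) (by norm_num) (by norm_num)
  have e4 : √(δ / s / κ) ≤ c * √(δ / s) := sl_sqrt hq.le hκ0 hc hcκ
  rw [e1, e2]
  have e5 : δ / s / (347 / 1000) * √(δ / s / (347 / 1000)) + δ / s / κ * √(δ / s / κ) ≤
      δ / s / (347 / 1000) * (1698 / 1000 * √(δ / s)) + δ / s / κ * (c * √(δ / s)) :=
    add_le_add (mul_le_mul_of_nonneg_left e3 (by positivity))
      (mul_le_mul_of_nonneg_left e4 (by positivity))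
  have e6 : δ / s / (347 / 1000) * (1698 / 1000 * √(δ / s)) + δ / s / κ * (c * √(δ / s)) =
      (1698 / 1000 / (347 / 1000) + c / κ) * (δ / s) * √(δ / s) := by ring
  have e7 : δ / s ≤ X ^ (2 : ℕ) := by
    rw [← hx2]
    exact pow_le_pow_left₀ hx hX 2
  calc √Real.pi / 4 * (δ / s / (347 / 1000) * √(δ / s / (347 / 1000)) + δ / s / κ * √(δ / s / κ))
      ≤ 4432 / 10000 * ((1698 / 1000 / (347 / 1000) + c / κ) * (δ / s) * √(δ / s)) := by
        rw [← e6]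
        exact mul_le_mul e0 e5 (by positivity) (by norm_num)
    _ = 4432 / 10000 * (1698 / 1000 / (347 / 1000) + c / κ) * (δ / s) * √(δ / s) := by ring
    _ ≤ (4432 / 10000 * (1698 / 1000 / (347 / 1000) + c / κ) * X ^ (2 : ℕ)) * √(δ / s) := by
        refine mul_le_mul_of_nonneg_right ?_ hx
        exact mul_le_mul_of_nonneg_left e7 (by positivity)

private theorem sl_up {δ b : ℝ} {h : ℂ} {j : ℕ} {l m n k : ℝ}
    (h1 : ‖∫ y in Ioi (2 : ℝ), Wt δ h j (-b) (-y)‖ ≤ l)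
    (h2 : ‖∫ x in (-b)..0, Wt δ h j x (-2)‖ ≤ m)
    (h3 : ‖∫ y in (-2 : ℝ)..(8 / 5), Wt δ h j 0 y‖ ≤ n)
    (h4 : ‖∫ u in Ioi (0 : ℝ), Wt δ h j u (8 / 5)‖ ≤ k) : ‖AL δ b h j‖ ≤ n + l + m + k := by
  unfold AL
  refine (norm_add_le _ _).trans ?_
  have e1 := norm_add_le ((∫ y in Ioi (2 : ℝ), Wt δ h j (-b) (-y)) * I + (∫ x in (-b)..0, Wt δ h j x (-2)))
    ((∫ y in (-2 : ℝ)..(8 / 5), Wt δ h j 0 y) * I)
  have e2 := norm_add_le ((∫ y in Ioi (2 : ℝ), Wt δ h j (-b) (-y)) * I) (∫ x in (-b)..0, Wt δ h j x (-2))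
  rw [norm_mul, Complex.norm_I, mul_one] at e1 e2
  linarith only [h1, h2, h3, h4, e1, e2]

private theorem sl_low {δ b : ℝ} {h : ℂ} {j : ℕ} {l m n k : ℝ}
    (h1 : ‖∫ y in Ioi (2 : ℝ), Wt δ h j (-b) (-y)‖ ≤ l)
    (h2 : ‖∫ x in (-b)..0, Wt δ h j x (-2)‖ ≤ m)
    (h3 : n ≤ ‖∫ y in (-2 : ℝ)..(8 / 5), Wt δ h j 0 y‖)
    (h4 : ‖∫ u in Ioi (0 : ℝ), Wt δ h j u (8 / 5)‖ ≤ k) : n - l - m - k ≤ ‖AL δ b h j‖ := by
  have e0 : (∫ y in (-2 : ℝ)..(8 / 5), Wt δ h j 0 y) * I = AL δ b h j -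
      ((∫ y in Ioi (2 : ℝ), Wt δ h j (-b) (-y)) * I + (∫ x in (-b)..0, Wt δ h j x (-2)) +
        ∫ u in Ioi (0 : ℝ), Wt δ h j u (8 / 5)) := by
    unfold AL
    ring
  have e1 := congrArg norm e0
  rw [norm_mul, Complex.norm_I, mul_one] at e1
  have e2 := norm_sub_le (AL δ b h j)
    ((∫ y in Ioi (2 : ℝ), Wt δ h j (-b) (-y)) * I + (∫ x in (-b)..0, Wt δ h j x (-2)) +
        ∫ u in Ioi (0 : ℝ), Wt δ h j u (8 / 5))
  have e3 := norm_add_le ((∫ y in Ioi (2 : ℝ), Wt δ h j (-b) (-y)) * I + (∫ x in (-b)..0, Wt δ h j x (-2)))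
    (∫ u in Ioi (0 : ℝ), Wt δ h j u (8 / 5))
  have e4 := norm_add_le ((∫ y in Ioi (2 : ℝ), Wt δ h j (-b) (-y)) * I) (∫ x in (-b)..0, Wt δ h j x (-2))
  rw [norm_mul, Complex.norm_I, mul_one] at e4
  linarith only [h1, h2, h3, h4, e1, e2, e3, e4]

private theorem sl_fin {δ b : ℝ} {h : ℂ} {x c0 c1 c2 r1 r2 : ℝ} (hx : 0 < x) (hc0 : 0 < c0)
    (h0 : c0 * x ≤ ‖AL δ b h 0‖) (h1 : ‖AL δ b h 1‖ ≤ c1 * x) (h2 : ‖AL δ b h 2‖ ≤ c2 * x)
    (h3 : c1 ≤ r1 * c0) (h4 : c2 ≤ r2 * c0) (hr1 : 0 ≤ r1) (hr2 : 0 ≤ r2) :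
    AL δ b h 0 ≠ 0 ∧ ‖AL δ b h 1‖ ≤ r1 * ‖AL δ b h 0‖ ∧ ‖AL δ b h 2‖ ≤ r2 * ‖AL δ b h 0‖ := by
  refine ⟨?_, ?_, ?_⟩
  · intro h5
    rw [h5, norm_zero] at h0
    have := mul_pos hc0 hx
    linarith only [h0, this]
  · calc ‖AL δ b h 1‖ ≤ c1 * x := h1
      _ ≤ r1 * c0 * x := mul_le_mul_of_nonneg_right h3 hx.le
      _ = r1 * (c0 * x) := by ring
      _ ≤ r1 * ‖AL δ b h 0‖ := mul_le_mul_of_nonneg_left h0 hr1
  · calc ‖AL δ b h 2‖ ≤ c2 * x := h2
      _ ≤ r2 * c0 * x := mul_le_mul_of_nonneg_right h4 hx.le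
      _ = r2 * (c0 * x) := by ring
      _ ≤ r2 * ‖AL δ b h 0‖ := mul_le_mul_of_nonneg_left h0 hr2

theorem side_L_A {δ rho a s : ℝ} (hδ : 0 < δ) (h8 : 8 ≤ rho) (h13 : rho ≤ 13) (hz : 499 / 10 * δ ≤ rho)
    (ha : 0 ≤ a) (ha2 : a ≤ 6 / 5) (has : a ≤ 575 / 1000 * s) (hs : rho - 2 * Real.pi ≤ s)
    (hs1 : 2089 / 1000 ≤ s) (hs2 : s ≤ rho) :
    AL δ (5 / rho) (-a + s * I) 0 ≠ 0 ∧
    ‖AL δ (5 / rho) (-a + s * I) 1‖ ≤ 84 / 100 * ‖AL δ (5 / rho) (-a + s * I) 0‖ ∧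
    ‖AL δ (5 / rho) (-a + s * I) 2‖ ≤ 1 * ‖AL δ (5 / rho) (-a + s * I) 0‖ := by
  have hpi := Real.pi_lt_d4
  have hpi2 := Real.pi_gt_d4
  have hs0 : 0 < s := by linarith only [hs1]
  have h2s : 2 ≤ s := by linarith only [hs1]
  have hrho : 0 < rho := by linarith only [hs1, hs2]
  have hq : 0 < δ / s := div_pos hδ hs0
  have hx : 0 < √(δ / s) := Real.sqrt_pos.2 hq
  have hδs : δ ≤ 804 / 10000 * s := by linarith only [hz, hs, hs1, hpi]
  have hX : √(δ / s) ≤ 28356 / 100000 := by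
    rw [Real.sqrt_le_iff]
    refine ⟨by norm_num, ?_⟩
    rw [div_le_iff₀ hs0]
    norm_num
    linarith only [h2s, hδs]
  have hz2 : 124 / 10 * δ ≤ s := by linarith only [h2s, hδs]
  have hb0 : 0 ≤ 5 / rho := by positivity
  have hb1 : 5 / rho ≤ 5 / 8 := div_le_div_of_nonneg_left (by norm_num) (by norm_num) h8
  obtain ⟨l0, l1, l2⟩ := liftL_A hδ h8 h13 hz ha hs hs1 hs2
  have hδ2 : δ ≤ 261 / 1000 := by linarith only [h13, hz]
  have st := fun (j : ℕ) (hj : j ≤ 2) => stepL_A (b := 5 / rho) hδ hδ2 h2s hz2 ha hb0 hb1 (j := j) hj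
  have ho := fun (j : ℕ) (hj : j ≤ 2) => horizL (a := a) hδ h2s hz2 ha has (j := j) hj
  have hN : ‖1 - (-(a : ℂ) + s * I)‖ ≤ 14524 / 10000 * s := by
    apply sl_norm1 (by norm_num) hs0.le
    nlinarith only [ha, ha2, hs1]
  have hH : ‖-(a : ℂ) + s * I‖ ≤ 11536 / 10000 * s := by
    apply sl_norm2 (by norm_num) hs0.le
    nlinarith only [ha, has]
  have m0 := sl_main0 (t := 575 / 1000) (κ := 399 / 1000 - 4 / 15 * (575 / 1000)) (P := 20798 / 10000) hδ h2s ha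
    has rfl (by norm_num) (by norm_num) hX (by norm_num) hN hH (by norm_num) (by norm_num; linarith only [hpi2])
  have m1 := sl_main1 (t := 575 / 1000) (κ := 399 / 1000 - 4 / 15 * (575 / 1000)) hδ h2s ha
    has rfl (by norm_num) hX
  have m2 := sl_main2 (t := 575 / 1000) (κ := 399 / 1000 - 4 / 15 * (575 / 1000)) (c := 2018 / 1000) hδ h2s ha
    has rfl (by norm_num) hX (by norm_num) (by norm_num)
  refine sl_fin (c0 := 137 / 100) (c1 := 1110 / 1000) (c2 := 1272 / 1000) hx (by norm_num) ?_ ?_ ?_ (by norm_num)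
    (by norm_num) (by norm_num) (by norm_num)
  · refine le_trans ?_ (sl_low l0 (st 0 (by norm_num)) m0 (ho 0 (by norm_num)))
    have : (137 / 100 : ℝ) ≤ (20798 / 10000 - 11536 / 10000 / 12 * (1 / (347 / 1000) ^ (2 : ℕ) +
      1 / (399 / 1000 - 4 / 15 * (575 / 1000)) ^ (2 : ℕ)) * (28356 / 100000) - 1 / 1000) - 18 / 1000 - 1 / 1000 -
      1 / 1000 := by norm_num
    have h2 := mul_le_mul_of_nonneg_right this hx.le
    linarith only [h2]
  · refine (sl_up l1 (st 1 (by norm_num)) m1 (ho 1 (by norm_num))).trans ?_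
    have : (1 / 2 * (1 / (347 / 1000) + 1 / (399 / 1000 - 4 / 15 * (575 / 1000))) * (28356 / 100000)) +
      12 / 100 + 1 / 1000 + 1 / 1000 ≤ (1110 / 1000 : ℝ) := by norm_num
    have h2 := mul_le_mul_of_nonneg_right this hx.le
    linarith only [h2]
  · refine (sl_up l2 (st 2 (by norm_num)) m2 (ho 2 (by norm_num))).trans ?_
    have : (4432 / 10000 * (1698 / 1000 / (347 / 1000) + 2018 / 1000 / (399 / 1000 - 4 / 15 * (575 / 1000))) *
      (28356 / 100000) ^ (2 : ℕ)) + 80 / 100 + 1 / 1000 + 1 / 1000 ≤ (1272 / 1000 : ℝ) := by norm_num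
    have h2 := mul_le_mul_of_nonneg_right this hx.le
    linarith only [h2]

theorem side_L_C {δ rho a s : ℝ} (hδ : 0 < δ) (h13 : 13 ≤ rho) (hz : 499 / 10 * δ ≤ rho)
    (hl : δ * rho ≤ 72552 / 10000)
    (ha : 0 ≤ a) (ha2 : a ≤ 661 / 1000) (has : a ≤ 985 / 10000 * s) (hs : rho - 2 * Real.pi ≤ s) (hs2 : s ≤ rho) :
    AL δ (5 / rho) (-a + s * I) 0 ≠ 0 ∧
    ‖AL δ (5 / rho) (-a + s * I) 1‖ ≤ 122 / 100 * ‖AL δ (5 / rho) (-a + s * I) 0‖ ∧
    ‖AL δ (5 / rho) (-a + s * I) 2‖ ≤ 64 / 10 * ‖AL δ (5 / rho) (-a + s * I) 0‖ := by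
  have hpi := Real.pi_lt_d4
  have hpi2 := Real.pi_gt_d4
  have hs67 : 6716 / 1000 ≤ s := by linarith only [h13, hs, hpi]
  have hs0 : 0 < s := by linarith only [hs67]
  have h2s : 2 ≤ s := by linarith only [hs67]
  have hrho : 0 < rho := by linarith only [hs2, h2s]
  have hq : 0 < δ / s := div_pos hδ hs0
  have hx : 0 < √(δ / s) := Real.sqrt_pos.2 hq
  have hδs : δ ≤ 389 / 10000 * s := by linarith only [h13, hz, hs, hpi]
  have hX : √(δ / s) ≤ 19724 / 100000 := by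
    rw [Real.sqrt_le_iff]
    refine ⟨by norm_num, ?_⟩
    rw [div_le_iff₀ hs0]
    norm_num
    linarith only [h2s, hδs]
  have hz2 : 25 * δ ≤ s := by linarith only [h2s, hδs]
  have hb0 : 0 ≤ 5 / rho := by positivity
  have hb1 : 5 / rho ≤ 5 / 13 := div_le_div_of_nonneg_left (by norm_num) (by norm_num) h13
  obtain ⟨l0, l1, l2⟩ := liftL_C hδ h13 hz hl ha hs hs2
  have st := fun (j : ℕ) (hj : j ≤ 2) => stepL_C (b := 5 / rho) hδ h2s hz2 ha hb0 hb1 (j := j) hj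
  have ho := fun (j : ℕ) (hj : j ≤ 2) => horizL (a := a) hδ h2s (by linarith only [h2s, hz2]) ha (by linarith only [ha, has]) (j := j) hj
  have hN : ‖1 - (-(a : ℂ) + s * I)‖ ≤ 10303 / 10000 * s := by
    apply sl_norm1 (by norm_num) hs0.le
    nlinarith only [ha, ha2, hs67]
  have hH : ‖-(a : ℂ) + s * I‖ ≤ 10050 / 10000 * s := by
    apply sl_norm2 (by norm_num) hs0.le
    nlinarith only [ha, has]
  have m0 := sl_main0 (t := 985 / 10000) (κ := 399 / 1000 - 4 / 15 * (985 / 10000)) (P := 24694 / 10000) hδ h2s ha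
    has rfl (by norm_num) (by norm_num) hX (by norm_num) hN hH (by norm_num) (by norm_num; linarith only [hpi2])
  have m1 := sl_main1 (t := 985 / 10000) (κ := 399 / 1000 - 4 / 15 * (985 / 10000)) hδ h2s ha
    has rfl (by norm_num) hX
  have m2 := sl_main2 (t := 985 / 10000) (κ := 399 / 1000 - 4 / 15 * (985 / 10000)) (c := 1638 / 1000) hδ h2s ha
    has rfl (by norm_num) hX (by norm_num) (by norm_num)
  refine sl_fin (c0 := 193 / 100) (c1 := 2315 / 1000) (c2 := 12265 / 1000) hx (by norm_num) ?_ ?_ ?_ (by norm_num)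
    (by norm_num) (by norm_num) (by norm_num)
  · refine le_trans ?_ (sl_low l0 (st 0 (by norm_num)) m0 (ho 0 (by norm_num)))
    have : (193 / 100 : ℝ) ≤ (24694 / 10000 - 10050 / 10000 / 12 * (1 / (347 / 1000) ^ (2 : ℕ) +
      1 / (399 / 1000 - 4 / 15 * (985 / 10000)) ^ (2 : ℕ)) * (19724 / 100000) - 1 / 1000) - 27 / 100 - 1 / 1000 -
      1 / 1000 := by norm_num
    have h2 := mul_le_mul_of_nonneg_right this hx.le
    linarith only [h2]
  · refine (sl_up l1 (st 1 (by norm_num)) m1 (ho 1 (by norm_num))).trans ?_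
    have : (1 / 2 * (1 / (347 / 1000) + 1 / (399 / 1000 - 4 / 15 * (985 / 10000))) * (19724 / 100000)) +
      176 / 100 + 1 / 1000 + 1 / 1000 ≤ (2315 / 1000 : ℝ) := by norm_num
    have h2 := mul_le_mul_of_nonneg_right this hx.le
    linarith only [h2]
  · refine (sl_up l2 (st 2 (by norm_num)) m2 (ho 2 (by norm_num))).trans ?_
    have : (4432 / 10000 * (1698 / 1000 / (347 / 1000) + 1638 / 1000 / (399 / 1000 - 4 / 15 * (985 / 10000))) *
      (19724 / 100000) ^ (2 : ℕ)) + 1210 / 100 + 1 / 1000 + 1 / 1000 ≤ (12265 / 1000 : ℝ) := by norm_num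
    have h2 := mul_le_mul_of_nonneg_right this hx.le
    linarith only [h2]

end SokamN1

end
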