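import Pool.Agent.Lib_MP_af4de1_zy.Z37

/-! ### Lib_MP_af4de1_v3.TailH -/

section
/-!
# Tails of regime I: the height on the path, pointwise pieces

Path `a = ± ab x s` (`s ≥ 0`), constant for `s ≥ 137/25`.  `hq x y ε s = Ha x y (ε ab x s) (ε s)`, `ε = 1, -1`.
-/

set_option autoImplicit false

namespace SokamV3T

open Real

/-- real part of the path at `s ≥ 0` -/
noncomputable def ab (x s : ℝ) : ℝ := min (min (137 / 25) (1 + x)) s / (1 + x)

/-- its value for `s ≥ 137/25` -/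
noncomputable def al (x : ℝ) : ℝ := min (137 / 25) (1 + x) / (1 + x)

/-- height of the path on the half line of sign `ε` -/
noncomputable def hq (x y ε s : ℝ) : ℝ := SokamF1G.Ha x y (ε * ab x s) (ε * s)

/-- facts of regime I in real variables: `K = |K|`, `ρ = K e^y`, `d = 1/δ` -/
structure RF (x y K ρ d : ℝ) : Prop where
  x0 : 0 ≤ x
  K0 : 0 < K
  hK : K ^ (2 : ℕ) = x ^ (2 : ℕ) + y ^ (2 : ℕ)
  hρ : ρ = K * exp y
  d0 : 0 < d
  r1 : 499 / 10 ≤ ρ * d
  r2 : 1231 / 1000 * (1 + ρ ^ (2 : ℕ)) ≤ ρ * d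
  lo : -(53 / 100) ≤ y
  hi : y ≤ 14 / 25
  T : |y| ≤ 4 / 5 * x
  D : 13 / 20 ≤ (1 + y) ^ (2 : ℕ) + x ^ (2 : ℕ)
  ep : 0 ≤ y → K * (exp y - 1) + y / K ≤ π / 2
  ep' : 0 ≤ y → ρ ≤ x + π / 2
  en : y ≤ 0 → K - ρ ≤ π / 2

/-- case `x ≤ 3`, `y ≥ 0` (true slack .119) -/
def PTSp : Prop := ∀ x y K ρ d ε s : ℝ, RF x y K ρ d → x ≤ 3 → 0 ≤ y → (ε = 1 ∨ ε = -1) →
  3 / 2 ≤ s → ρ / 5 + 1 / 2 ≤ hq x y ε s ∧
    (2 * π ≤ s → ρ / 5 + 1 / 2 + 2 / 5 * (s - 2 * π) ≤ hq x y ε s)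

/-- case `x ≤ 3`, `y ≤ 0` (true slack .229) -/
def PTSm : Prop := ∀ x y K ρ d ε s : ℝ, RF x y K ρ d → x ≤ 3 → y ≤ 0 → (ε = 1 ∨ ε = -1) →
  3 / 2 ≤ s → ρ / 4 + 2 / 5 ≤ hq x y ε s ∧
    (2 * π ≤ s → ρ / 4 + 2 / 5 + 2 / 5 * (s - 2 * π) ≤ hq x y ε s)

/-- `x ≥ 3`, `s ≤ 137/25`, `y ≥ 0`, right side (true 2.84) -/
def PTZa : Prop := ∀ x s : ℝ, 3 ≤ x → 3 / 2 ≤ s → s ≤ 137 / 25 →
  11 / 5 ≤ hq x (8 / 5 / (1 + x)) 1 s

/-- `x ≥ 3`, `s ≤ 137/25`, `y ≥ 0`, left side (true 2.29) -/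
def PTZb : Prop := ∀ x s : ℝ, 3 ≤ x → 3 / 2 ≤ s → s ≤ 137 / 25 → 21 / 10 ≤ hq x 0 (-1) s

/-- `x ≥ 3`, `s ≤ 137/25`, `y ≤ 0`, left side (true 1.45; 1.81 for `x ≥ 112/25`) -/
def PTZd : Prop := ∀ x n s : ℝ, 3 ≤ x → 0 ≤ n → n ≤ 53 / 100 → n * (x - 9 / 10) ≤ 1571 / 1000 →
  3 / 2 ≤ s → s ≤ 137 / 25 → 7 / 5 + 7 / 80 * (137 / 25 - s) ≤ hq x (-n) (-1) s ∧
    (112 / 25 ≤ x → 7 / 4 + 7 / 80 * (137 / 25 - s) ≤ hq x (-n) (-1) s)

end SokamV3T

end

/-! ### Lib_MP_af4de1_v3.TailG -/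

section
/-!
# Tails of regime I, `x ≥ 3`: the exponent of the lumps

`Gq x m d ε`: exponent of the lump near `2π` on the half line of sign `ε` (`m = |y|`, `d` the inverse of `δ`).
-/

set_option autoImplicit false

namespace SokamV3T

open Real

/-- height at the centre of the lump -/
noncomputable def Aq (x m ε : ℝ) : ℝ :=
  (al x - m) * (2 * π - m / x) + x * (1 + ε * al x) - exp (ε * al x) * (x + m ^ (2 : ℕ) / (2 * x))

/-- exponent of the lump -/
noncomputable def Gq (x m d ε : ℝ) : ℝ :=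
  d * Aq x m ε - (d * (al x - m) + 69 / 100) ^ (2 : ℕ) / (4 / 5 * (exp (ε * al x) * x * d)) -
    69 / 100 * (m / x)

/-- bound for `|y|`, `y ≤ 0` -/
noncomputable def nx (x : ℝ) : ℝ := min (53 / 100) (1571 / 1000 / (x - 9 / 10))

theorem al_small {x : ℝ} (h0 : 0 ≤ x) (h : x ≤ 112 / 25) : al x = 1 := by
  unfold al
  rw [min_eq_right (by linarith)]
  exact div_self (by linarith)

theorem al_big {x : ℝ} (h : 112 / 25 ≤ x) : al x = 137 / 25 / (1 + x) := by
  unfold al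
  rw [min_eq_left (by linarith)]

end SokamV3T

end

/-! ### Lib_MP_af4de1_v3.TailZa -/

section
namespace SokamF1G
end SokamF1G
/-!
# Tails of regime I: the heights for `x ≥ 3`, `3/2 ≤ s ≤ 137/25` (PTZa, PTZb)

`c = 1/(1+x)`, `X = 1 + x`, `ab x s = c s` for `s ≤ X`, `= 1` for `s ≥ X`.
-/

set_option autoImplicit false

namespace SokamV3T

open Real SokamF1G

/-! ### Numbers -/

theorem tza_em1 : exp (-1) ≤ (3679 / 10000 : ℝ) := em1_hi

theorem tza_emh : exp (-(1 / 2)) ≤ (60678 / 100000 : ℝ) := by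
  have h := en_le4 (x := 1 / 2) (by norm_num)
  norm_num at h ⊢
  linarith only [h]

theorem tza_ch1 {a : ℝ} (h0 : 0 ≤ a) (h1 : a ≤ 1) : exp (-a) ≤ 1 - 632 / 1000 * a := by
  have hc := convexOn_exp.2 (Set.mem_univ (0 : ℝ)) (Set.mem_univ (-1 : ℝ))
    (show (0 : ℝ) ≤ 1 - a by linarith only [h1]) h0 (by ring)
  simp only [smul_eq_mul, exp_zero] at hc
  have e : (1 - a) * 0 + a * -1 = -a := by ring
  rw [e] at hc
  have := mul_le_mul_of_nonneg_left tza_em1 h0
  linarith only [h0, hc, this]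

theorem tza_ch2 {a : ℝ} (h0 : 1 / 2 ≤ a) (h1 : a ≤ 1) :
    exp (-a) ≤ 3679 / 10000 + 478 / 1000 * (1 - a) := by
  have hc := convexOn_exp.2 (Set.mem_univ (-(1 / 2) : ℝ)) (Set.mem_univ (-1 : ℝ))
    (show (0 : ℝ) ≤ 2 * (1 - a) by linarith only [h1]) (show (0 : ℝ) ≤ 2 * a - 1 by linarith only [h0]) (by ring)
  simp only [smul_eq_mul] at hc
  have e : 2 * (1 - a) * -(1 / 2) + (2 * a - 1) * -1 = -a := by ring
  rw [e] at hc
  have h2 := mul_le_mul_of_nonneg_left tza_em1 (show (0 : ℝ) ≤ 2 * a - 1 by linarith only [h0])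
  have h3 := mul_le_mul_of_nonneg_left tza_emh (show (0 : ℝ) ≤ 2 * (1 - a) by linarith only [h1])
  linarith only [h1, hc, h2, h3]

theorem tza_ch3 {a : ℝ} (h0 : 0 ≤ a) (h1 : a ≤ 1 / 2) : exp (-a) ≤ 1 - 786 / 1000 * a := by
  have hc := convexOn_exp.2 (Set.mem_univ (0 : ℝ)) (Set.mem_univ (-(1 / 2) : ℝ))
    (show (0 : ℝ) ≤ 1 - 2 * a by linarith only [h1]) (show (0 : ℝ) ≤ 2 * a by linarith only [h0]) (by ring)
  simp only [smul_eq_mul, exp_zero] at hc
  have e : (1 - 2 * a) * 0 + 2 * a * -(1 / 2) = -a := by ring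
  rw [e] at hc
  have h3 := mul_le_mul_of_nonneg_left tza_emh (show (0 : ℝ) ≤ 2 * a by linarith only [h0])
  linarith only [h0, hc, h3]

theorem tza_chp {a : ℝ} (h0 : 0 ≤ a) (h1 : a ≤ 1) : exp a ≤ 1 + 1719 / 1000 * a := by
  have hc := convexOn_exp.2 (Set.mem_univ (0 : ℝ)) (Set.mem_univ (1 : ℝ))
    (show (0 : ℝ) ≤ 1 - a by linarith only [h1]) h0 (by ring)
  simp only [smul_eq_mul, exp_zero] at hc
  have e : (1 - a) * 0 + a * 1 = a := by ring
  rw [e] at hc
  have he := exp_one_lt_d9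
  nlinarith only [h0, hc, he]

/-- `cos s ≤ 9/100` for `3/2 ≤ s ≤ 3π/2`. -/
theorem tza_cos {v : ℝ} (h1 : 3 / 2 ≤ v) (h2 : v ≤ 3 * π / 2) : cos v ≤ 9 / 100 := by
  rcases le_total v π with h | h
  · have h3 : cos v ≤ cos (3 / 2) := cos_le_cos_of_nonneg_of_le_pi (by norm_num) h h1
    have h4 := cos_le4 (x := 3 / 2) (by norm_num)
    norm_num at h4
    linarith only [h3, h4]
  · have h3 : cos v ≤ 0 := cos_nonpos_of_pi_div_two_le_of_le (by linarith only [h, pi_pos]) (by linarith only [h2])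
    linarith only [h3]

/-- `cos s` and `-sin s` for `3π/2 ≤ s ≤ 137/25`, `t = 137/25 - s` -/
theorem tza_end {s t : ℝ} (h1 : 3 * π / 2 ≤ s) (h2 : s ≤ 137 / 25) (ht : t = 137 / 25 - s) :
    0 ≤ cos s ∧ cos s ≤ 695 / 1000 - 7 / 10 * t ∧ 0 ≤ -sin s ∧ -sin s ≤ 72 / 100 + 7 / 10 * t ∧
      0 ≤ t ∧ t ≤ 768 / 1000 := by
  have hpi := pi_gt_d4
  have hpi2 := pi_lt_d4
  obtain ⟨v, hv⟩ : ∃ v, v = 2 * π - 4 / 5 - s := ⟨_, rfl⟩
  have hv0 : 0 ≤ v := by linarith only [h2, hpi, hv]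
  have hv1 : v ≤ 7709 / 10000 := by linarith only [h1, hpi2, hv]
  have ec : cos s = cos (4 / 5 + v) := by
    rw [← cos_two_pi_sub s]
    congr 1
    rw [hv]
    ring
  have es : -sin s = sin (4 / 5 + v) := by
    have : sin (4 / 5 + v) = sin (2 * π - s) := by
      congr 1
      rw [hv]
      ring
    rw [this, sin_two_pi_sub]
  have c1 := cos_le4 (x := 4 / 5) (by norm_num)
  have s1 := sin_ge3 (x := 4 / 5) (by norm_num)
  have s1' := sin_ge7 (x := 4 / 5) (by norm_num)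
  have s2 := sin_le5 (x := 4 / 5) (by norm_num)
  have c2 := cos_le4 (x := v) hv0
  have s3 := sin_ge3 (x := v) hv0
  have s4 := sin_le1 (x := v) hv0
  have c3 := cos_le_one v
  have c4 : 0 ≤ cos (4 / 5 : ℝ) := cos_nonneg_of_neg_pi_div_two_le_of_le (by linarith only [hpi]) (by linarith only [hpi])
  have s5 : 0 ≤ sin (4 / 5 : ℝ) := sin_nonneg_of_nonneg_of_le_pi (by norm_num) (by linarith only [hpi])
  have s6 : 0 ≤ sin v := sin_nonneg_of_nonneg_of_le_pi hv0 (by linarith only [hpi, hv1])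
  have c5 : 0 ≤ cos v := cos_nonneg_of_neg_pi_div_two_le_of_le (by linarith only [h2, hpi, hv]) (by linarith only [h1, hv])
  norm_num at c1 s1' s2
  refine ⟨?_, ?_, ?_, ?_, by linarith only [h2, ht], by linarith only [h1, ht, hpi]⟩
  · rw [ec]
    exact cos_nonneg_of_neg_pi_div_two_le_of_le (by linarith only [h2, hpi, hv]) (by linarith only [h1, hv])
  · rw [ec, cos_add]
    have h3 : cos (4 / 5) * cos v ≤ 6971 / 10000 * (1 - v ^ (2 : ℕ) / 2 + v ^ (4 : ℕ) / 24) :=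
      mul_le_mul (by linarith only [c1]) c2 c5 (by norm_num)
    have h4 : 7173 / 10000 * (v - v ^ (3 : ℕ) / 6) ≤ sin (4 / 5) * sin v := by
      have h5 : 0 ≤ v - v ^ (3 : ℕ) / 6 := by nlinarith only [hv0, hv1, c2]
      exact mul_le_mul (by linarith only [s1']) s3 h5 s5
    have h6 : v ^ (4 : ℕ) ≤ v ^ (2 : ℕ) := by nlinarith only [hv1, s3, s4]
    have h7 : v ^ (3 : ℕ) ≤ 8 / 10 * v ^ (2 : ℕ) := by nlinarith only [hv1]
    have h8 : t ≤ v - 30 / 10000 := by linarith only [ht, hpi, hv]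
    nlinarith only [s5, s6, h3, h4, h6, h7, h8]
  · rw [es]
    exact sin_nonneg_of_nonneg_of_le_pi (by linarith only [s4, s6]) (by linarith only [h1, hpi, hv])
  · rw [es, sin_add]
    have h3 : sin (4 / 5) * cos v ≤ sin (4 / 5) := mul_le_of_le_one_right s5 c3
    have h4 : cos (4 / 5) * sin v ≤ 6971 / 10000 * v := mul_le_mul (by linarith only [c1]) s4 s6 (by norm_num)
    have h8 : v ≤ t + 32 / 10000 := by linarith only [ht, hpi2, hv]
    linarith only [s4, s6, s2, h3, h4, h8]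

/-! ### The path -/

theorem tza_un {x s : ℝ} (_ : 0 ≤ x) (hs : s ≤ 137 / 25) (h : s ≤ 1 + x) :
    ab x s = 1 / (1 + x) * s := by
  unfold ab
  rw [min_eq_right (le_min hs h)]
  ring

theorem tza_cl {x s : ℝ} (hx : 0 ≤ x) (hs : s ≤ 137 / 25) (h : 1 + x ≤ s) : ab x s = 1 := by
  unfold ab
  have h1 : min (137 / 25) (1 + x) = 1 + x := min_eq_right (by linarith only [hs, h])
  rw [h1, min_eq_left h, div_self (by linarith only [hx])]

theorem tza_hpos {x y s : ℝ} : hq x y 1 s =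
    ab x s * s + x * (1 + ab x s) - y * s - exp (ab x s) * (x * cos s - y * sin s) := by
  unfold hq Ha
  rw [one_mul, one_mul]
  ring

theorem tza_hneg {x y s : ℝ} : hq x y (-1) s =
    ab x s * s + x * (1 - ab x s) + y * s - exp (-ab x s) * (x * cos s + y * sin s) := by
  unfold hq Ha
  rw [neg_one_mul, neg_one_mul, cos_neg, sin_neg]
  ring

/-! ### PTZb -/

theorem ptzb : PTZb := by
  intro x s hx hs hs2
  have hx0 : 0 ≤ x := by linarith only [hx]
  have hpi := pi_gt_d4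
  have hpi2 := pi_lt_d4
  have hX : 0 < 1 + x := by linarith only [hx0]
  rw [tza_hneg]
  rcases le_total s (1 + x) with h | h
  · rw [tza_un hx0 hs2 h]
    obtain ⟨c, hc⟩ : ∃ c, c = 1 / (1 + x) := ⟨_, rfl⟩
    rw [← hc]
    have hc0 : 0 < c := by rw [hc]; positivity
    have hcX : c * (1 + x) = 1 := by rw [hc]; field_simp
    have ha1 : c * s ≤ 1 := by
      rw [← hcX]
      exact mul_le_mul_of_nonneg_left h hc0.le
    have ha0 : 0 ≤ c * s := by nlinarith only [hx, hs, hcX]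
    have hE0 := exp_pos (-(c * s))
    rcases le_total s (3 * π / 2) with h2 | h2
    · have h3 := tza_cos hs h2
      have hE1 : exp (-(c * s)) ≤ 1 := exp_le_one_iff.2 (by linarith only [ha0])
      have h4 : exp (-(c * s)) * (x * cos s + 0 * sin s) ≤ x * (9 / 100) := by
        have : exp (-(c * s)) * cos s ≤ 9 / 100 := by nlinarith only [hE0, h3, hE1]
        nlinarith only [hx0, this]
      have h5 : 0 ≤ s ^ (2 : ℕ) + x * (1 + x - s) - 9 / 100 * x * (1 + x) - 21 / 10 * (1 + x) := by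
        nlinarith only [hx, hs, hs2, h]
      have h6 := mul_nonneg hc0.le h5
      have e : c * (s ^ (2 : ℕ) + x * (1 + x - s) - 9 / 100 * x * (1 + x) - 21 / 10 * (1 + x)) =
          c * s * s + x * (c * (1 + x) - c * s) - 9 / 100 * x * (c * (1 + x)) -
            21 / 10 * (c * (1 + x)) := by ring
      rw [e, hcX] at h6
      linarith only [h4, h6]
    · obtain ⟨k0, k1, k2, k3, k4, k5⟩ := tza_end h2 hs2 (t := 137 / 25 - s) rfl
      have hE1 := tza_ch1 ha0 ha1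
      have h4 : exp (-(c * s)) * (x * cos s + 0 * sin s) ≤ (1 - 632 / 1000 * (c * s)) * (x * (7 / 10)) := by
        apply mul_le_mul hE1 _ (by nlinarith only [h, k0, k1]) (by linarith only [ha1])
        nlinarith only [h, k1, k4, k5]
      have h5 : 0 ≤ s ^ (2 : ℕ) + x * (1 + x - s) - (1 + x - 632 / 1000 * s) * (x * (7 / 10)) -
          21 / 10 * (1 + x) := by
        nlinarith only [k5, sq_nonneg (x - 7), sq_nonneg (s - 47 / 10)]
      have h6 := mul_nonneg hc0.le h5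
      have e : c * (s ^ (2 : ℕ) + x * (1 + x - s) - (1 + x - 632 / 1000 * s) * (x * (7 / 10)) -
          21 / 10 * (1 + x)) =
          c * s * s + x * (c * (1 + x) - c * s) - (c * (1 + x) - 632 / 1000 * (c * s)) * (x * (7 / 10)) -
            21 / 10 * (c * (1 + x)) := by ring
      rw [e, hcX] at h6
      linarith only [h4, h6]
  · rw [tza_cl hx0 hs2 h]
    have hE0 := exp_pos (-1 : ℝ)
    have hE1 := tza_em1
    have hcs : cos s ≤ 7 / 10 := by
      rcases le_total s (3 * π / 2) with h2 | h2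
      · exact (tza_cos hs h2).trans (by norm_num)
      · obtain ⟨k0, k1, k2, k3, k4, k5⟩ := tza_end h2 hs2 (t := 137 / 25 - s) rfl
        linarith only [k1, k4]
    have h4 : exp (-1) * (x * cos s + 0 * sin s) ≤ x * (26 / 100) := by
      have : exp (-1) * cos s ≤ 26 / 100 := by nlinarith only [hE0, hE1, hcs]
      nlinarith only [hx0, this]
    linarith only [hx, h, h4]

/-! ### PTZa -/

theorem ptza : PTZa := by
  intro x s hx hs hs2
  have hx0 : 0 ≤ x := by linarith only [hx]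
  have hpi := pi_gt_d4
  have hpi2 := pi_lt_d4
  have hX : 0 < 1 + x := by linarith only [hx0]
  obtain ⟨c, hc⟩ : ∃ c, c = 1 / (1 + x) := ⟨_, rfl⟩
  have hc0 : 0 < c := by rw [hc]; positivity
  have hcX : c * (1 + x) = 1 := by rw [hc]; field_simp
  have hy : 8 / 5 / (1 + x) = 8 / 5 * c := by rw [hc]; ring
  have hc4 : c ≤ 1 / 4 := by nlinarith only [hx, hcX]
  have he := exp_one_lt_d9
  have hs1 := neg_one_le_sin s
  rw [tza_hpos, hy]
  rcases le_total s (1 + x) with h | h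
  · rw [tza_un hx0 hs2 h, ← hc]
    have ha1 : c * s ≤ 1 := by
      rw [← hcX]
      exact mul_le_mul_of_nonneg_left h hc0.le
    have ha0 : 0 ≤ c * s := by nlinarith only [hs, hc0]
    have hE0 := exp_pos (c * s)
    have hE1 := tza_chp ha0 ha1
    have hE2 : exp (c * s) ≤ 2719 / 1000 := by linarith only [ha1, hE1]
    have hsin : -(exp (c * s) * (8 / 5 * c * sin s)) ≤ 2719 / 1000 * (8 / 5 * c) := by
      have h3 : -(c * sin s) ≤ c := by nlinarith only [hc0, hs1]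
      have h4 : exp (c * s) * c ≤ 2719 / 1000 * c := mul_le_mul_of_nonneg_right hE2 hc0.le
      have h5 : exp (c * s) * -(c * sin s) ≤ exp (c * s) * c := mul_le_mul_of_nonneg_left h3 hE0.le
      linarith only [h4, h5]
    rcases le_total s (3 * π / 2) with h2 | h2
    · have h3 := tza_cos hs h2
      have h4 : exp (c * s) * (x * cos s) ≤ (1 + 1719 / 1000 * (c * s)) * (x * (9 / 100)) := by
        have h5 : exp (c * s) * (x * cos s) ≤ exp (c * s) * (x * (9 / 100)) := by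
          apply mul_le_mul_of_nonneg_left _ hE0.le
          exact mul_le_mul_of_nonneg_left h3 hx0
        exact h5.trans (mul_le_mul_of_nonneg_right hE1 (by (clear * - hx; positivity)))
      have h5 : 0 ≤ s ^ (2 : ℕ) + x * (1 + x + s) - 8 / 5 * s -
          (1 + x + 1719 / 1000 * s) * (x * (9 / 100)) - 2719 / 1000 * (8 / 5) - 22 / 10 * (1 + x) := by
        nlinarith only [hx, hs]
      have h6 := mul_nonneg hc0.le h5
      have e : c * (s ^ (2 : ℕ) + x * (1 + x + s) - 8 / 5 * s -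
          (1 + x + 1719 / 1000 * s) * (x * (9 / 100)) - 2719 / 1000 * (8 / 5) - 22 / 10 * (1 + x)) =
          c * s * s + x * (c * (1 + x) + c * s) - 8 / 5 * c * s -
          (c * (1 + x) + 1719 / 1000 * (c * s)) * (x * (9 / 100)) - 2719 / 1000 * (8 / 5 * c) -
            22 / 10 * (c * (1 + x)) := by ring
      rw [e, hcX] at h6
      linarith only [hsin, h4, h6]
    · obtain ⟨k0, k1, k2, k3, k4, k5⟩ := tza_end h2 hs2 (t := 137 / 25 - s) rfl
      have h4 : exp (c * s) * (x * cos s) ≤ (1 + 1719 / 1000 * (c * s)) * (x * (7 / 10)) := by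
        apply mul_le_mul hE1 _ (by (clear * - hx k0; positivity)) (by linarith only [ha0])
        exact mul_le_mul_of_nonneg_left (by linarith only [k1, k4]) hx0
      have h5 : 0 ≤ s ^ (2 : ℕ) + x * (1 + x + s) - 8 / 5 * s -
          (1 + x + 1719 / 1000 * s) * (x * (7 / 10)) - 2719 / 1000 * (8 / 5) - 22 / 10 * (1 + x) := by
        nlinarith only [k5, sq_nonneg (x - 5), sq_nonneg (s - 47 / 10)]
      have h6 := mul_nonneg hc0.le h5
      have e : c * (s ^ (2 : ℕ) + x * (1 + x + s) - 8 / 5 * s -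
          (1 + x + 1719 / 1000 * s) * (x * (7 / 10)) - 2719 / 1000 * (8 / 5) - 22 / 10 * (1 + x)) =
          c * s * s + x * (c * (1 + x) + c * s) - 8 / 5 * c * s -
          (c * (1 + x) + 1719 / 1000 * (c * s)) * (x * (7 / 10)) - 2719 / 1000 * (8 / 5 * c) -
            22 / 10 * (c * (1 + x)) := by ring
      rw [e, hcX] at h6
      linarith only [hsin, h4, h6]
  · rw [tza_cl hx0 hs2 h]
    have hE0 := exp_pos (1 : ℝ)
    have hsin : -(exp 1 * (8 / 5 * c * sin s)) ≤ 2719 / 1000 * (8 / 5 * c) := by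
      have h3 : -(c * sin s) ≤ c := by nlinarith only [hc0, hs1]
      have h4 : exp 1 * c ≤ 2719 / 1000 * c := mul_le_mul_of_nonneg_right (by linarith only [he]) hc0.le
      have h5 : exp 1 * -(c * sin s) ≤ exp 1 * c := mul_le_mul_of_nonneg_left h3 hE0.le
      linarith only [h4, h5]
    rcases le_total s (3 * π / 2) with h2 | h2
    · have h3 := tza_cos hs h2
      have h4 : exp 1 * (x * cos s) ≤ x * (25 / 100) := by
        have : exp 1 * cos s ≤ 25 / 100 := by nlinarith only [he, hE0, h3]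
        nlinarith only [hc0, hcX, hc4, this]
      have h6 : c * s ≤ 137 / 25 * (1 / 4) := by
        calc c * s ≤ (1 / 4) * (137 / 25) := mul_le_mul hc4 hs2 (by linarith only [hs]) (by norm_num)
          _ = _ := by ring
      linarith only [hx, hs, hc4, hsin, h4, h6]
    · obtain ⟨k0, k1, k2, k3, k4, k5⟩ := tza_end h2 hs2 (t := 137 / 25 - s) rfl
      obtain ⟨t, ht⟩ : ∃ t, t = 137 / 25 - s := ⟨_, rfl⟩
      rw [← ht] at k1 k3 k4 k5
      have h4 : exp 1 * (x * cos s) ≤ 27183 / 10000 * (x * (695 / 1000 - 7 / 10 * t)) := by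
        apply mul_le_mul (by linarith only [he]) _ (by (clear * - hx k0; positivity)) (by norm_num)
        exact mul_le_mul_of_nonneg_left k1 hx0
      have hst : s = 137 / 25 - t := by linarith only [ht]
      have h5 : 0 ≤ s * (1 + x) + 2 * x * (1 + x) - 8 / 5 * s -
          27183 / 10000 * (x * (695 / 1000 - 7 / 10 * t)) * (1 + x) - 2719 / 1000 * (8 / 5) -
            22 / 10 * (1 + x) := by
        rw [hst]
        nlinarith only [hc0, hcX, hc4, k4, mul_nonneg k4 (mul_nonneg (by linarith : 0 ≤ x - 3) (by linarith : 0 ≤ x - 3))]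
      have h6 := mul_nonneg hc0.le h5
      have e : c * (s * (1 + x) + 2 * x * (1 + x) - 8 / 5 * s -
          27183 / 10000 * (x * (695 / 1000 - 7 / 10 * t)) * (1 + x) - 2719 / 1000 * (8 / 5) -
            22 / 10 * (1 + x)) = s * (c * (1 + x)) + 2 * x * (c * (1 + x)) - 8 / 5 * c * s -
          27183 / 10000 * (x * (695 / 1000 - 7 / 10 * t)) * (c * (1 + x)) - 2719 / 1000 * (8 / 5 * c) -
            22 / 10 * (c * (1 + x)) := by ring
      rw [e, hcX] at h6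
      linarith only [hsin, h4, h6]

end SokamV3T

end

/-! ### Lib_MP_af4de1_v3.TailGL -/

section
/-!
# Lump exponents, `y ≥ 0`, bounded `x`

`al x = 1` for `x ≤ 112/25`, `al x = 137/25/(1+x)` beyond (`al_small`, `al_big`).  Method: `v = 1/(1+x)`, `x = (1-v)/v`,
`α = 137/25 v`, `m` = the given rational function of `v`; Taylor polynomials for `exp` (upper bound in `Aq`, lower bound in the
square term), `π ≥ 3.1415` where it stands with a positive sign; clear denominators, polynomial in `v` on an interval.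
True minima: 8.630 (at 4.48), 8.260 (at 5.2), 8.880 (at 6.4), 8.171 (at 5.2).
-/

set_option autoImplicit false

namespace SokamV3T

open Real

private theorem gl_core {x a m d S0 U L c : ℝ} (hx : 0 < x) (hd : 0 < d) (ham : m ≤ a)
    (hL : 0 < L) (hE1 : exp a ≤ U) (hE2 : L ≤ exp a) (hS0 : 0 ≤ S0)
    (hH : (d * (a - m) + 69 / 100) ^ (2 : ℕ) ≤ S0 * (4 / 5 * (L * x * d)))
    (hG : c ≤ d * ((a - m) * (6283 / 1000 - m / x) + x * (1 + a) - U * (x + m ^ (2 : ℕ) / (2 * x))) - S0 -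
      69 / 100 * (m / x)) (hal : al x = a) : c ≤ Gq x m d 1 := by
  unfold Gq Aq
  rw [hal, one_mul]
  have hE0 : 0 < exp a := exp_pos a
  have h1 : (d * (a - m) + 69 / 100) ^ (2 : ℕ) / (4 / 5 * (exp a * x * d)) ≤ S0 := by
    rw [div_le_iff₀ (by positivity)]
    refine hH.trans (mul_le_mul_of_nonneg_left ?_ hS0)
    have : L * x * d ≤ exp a * x * d :=
      mul_le_mul_of_nonneg_right (mul_le_mul_of_nonneg_right hE2 hx.le) hd.le
    linarith only [this]
  have hπ : (3.1415 : ℝ) < π := Real.pi_gt_d4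
  have h2 : (a - m) * (6283 / 1000 - m / x) ≤ (a - m) * (2 * π - m / x) := by
    apply mul_le_mul_of_nonneg_left _ (by linarith only [ham])
    have : (6283 / 1000 : ℝ) ≤ 2 * π := by norm_num at hπ ⊢; linarith only [hπ]
    linarith only [this]
  have h3 : exp a * (x + m ^ (2 : ℕ) / (2 * x)) ≤ U * (x + m ^ (2 : ℕ) / (2 * x)) :=
    mul_le_mul_of_nonneg_right hE1 (by (clear * - hx; positivity))
  have h4 : d * ((a - m) * (6283 / 1000 - m / x) + x * (1 + a) - U * (x + m ^ (2 : ℕ) / (2 * x))) ≤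
      d * ((a - m) * (2 * π - m / x) + x * (1 + a) - exp a * (x + m ^ (2 : ℕ) / (2 * x))) := by
    apply mul_le_mul_of_nonneg_left _ hd.le
    linarith only [h2, h3]
  linarith only [hG, h1, h4]

private theorem gl_lo {a : ℝ} (h : 0 ≤ a) : 1 + a + a ^ (2 : ℕ) / 2 + a ^ (3 : ℕ) / 6 ≤ exp a := by
  have := Real.sum_le_exp_of_nonneg h 4
  simp only [Finset.sum_range_succ, Finset.sum_range_zero, Nat.factorial] at this
  norm_num at this
  linarith only [this]

private theorem gl_up4 {a : ℝ} (h : 0 ≤ a) (h1 : a ≤ 1) :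
    exp a ≤ 1 + a + a ^ (2 : ℕ) / 2 + a ^ (3 : ℕ) / 6 + a ^ (4 : ℕ) * (5 / 96) := by
  have := Real.exp_bound' h h1 (n := 4) (by norm_num)
  simp only [Finset.sum_range_succ, Finset.sum_range_zero, Nat.factorial] at this
  norm_num at this
  linarith only [this]

private theorem gl_up5 {a : ℝ} (h : 0 ≤ a) (h1 : a ≤ 1) :
    exp a ≤ 1 + a + a ^ (2 : ℕ) / 2 + a ^ (3 : ℕ) / 6 + a ^ (4 : ℕ) / 24 + a ^ (5 : ℕ) / 100 := by
  have := Real.exp_bound' h h1 (n := 5) (by norm_num)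
  simp only [Finset.sum_range_succ, Finset.sum_range_zero, Nat.factorial] at this
  norm_num at this
  linarith only [this]

private theorem gl1_G {x : ℝ} (h : 3 ≤ x) (h' : x ≤ (112 / 25)) :
    0 ≤ (-16471119 / 781250) * x ^ (0 : ℕ) + (-26386257 / 500000) * x ^ (1 : ℕ) + (-3938443 / 1000000) * x ^ (2 : ℕ) + (917061 / 31250) * x ^ (3 : ℕ) + (-5696119 / 1000000) * x ^ (4 : ℕ) := by
  have hu : 0 ≤ x - 3 := by linarith only [h]
  have hw : 0 ≤ (112 / 25) - x := by linarith only [h']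
  have e : (-16471119 / 781250) * x ^ (0 : ℕ) + (-26386257 / 500000) * x ^ (1 : ℕ) + (-3938443 / 1000000) * x ^ (2 : ℕ) + (917061 / 31250) * x ^ (3 : ℕ) + (-5696119 / 1000000) * x ^ (4 : ℕ) =
      (181419537 / 7496644) * (x - 3) ^ (0 : ℕ) * ((112 / 25) - x) ^ (4 : ℕ) + (1917355941 / 14993288) * (x - 3) ^ (1 : ℕ) * ((112 / 25) - x) ^ (3 : ℕ) + (650095128731 / 2998657600) * (x - 3) ^ (2 : ℕ) * ((112 / 25) - x) ^ (2 : ℕ) + (4512676559861 / 37483220000) * (x - 3) ^ (3 : ℕ) * ((112 / 25) - x) ^ (1 : ℕ) + (46305262969 / 29283765625) * (x - 3) ^ (4 : ℕ) * ((112 / 25) - x) ^ (0 : ℕ) := by ring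
  rw [e]
  (clear * - h h'; positivity)

private theorem gl1_H {x : ℝ} (h : 3 ≤ x) (h' : x ≤ (112 / 25)) :
    0 ≤ (-1034289 / 62500) * x ^ (0 : ℕ) + (312751107 / 3906250) * x ^ (1 : ℕ) + (-425316197 / 7812500) * x ^ (2 : ℕ) + (19398366 / 1953125) * x ^ (3 : ℕ) := by
  have hu : 0 ≤ x - 3 := by linarith only [h]
  have hw : 0 ≤ (112 / 25) - x := by linarith only [h']
  have e : (-1034289 / 62500) * x ^ (0 : ℕ) + (312751107 / 3906250) * x ^ (1 : ℕ) + (-425316197 / 7812500) * x ^ (2 : ℕ) + (19398366 / 1953125) * x ^ (3 : ℕ) =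
      (3599568 / 6331625) * (x - 3) ^ (0 : ℕ) * ((112 / 25) - x) ^ (3 : ℕ) + (365956356 / 31658125) * (x - 3) ^ (1 : ℕ) * ((112 / 25) - x) ^ (2 : ℕ) + (712730792251 / 15829062500) * (x - 3) ^ (2 : ℕ) * ((112 / 25) - x) ^ (1 : ℕ) + (17399130088267 / 395726562500) * (x - 3) ^ (3 : ℕ) * ((112 / 25) - x) ^ (0 : ℕ) := by ring
  rw [e]
  (clear * - h' h; positivity)

private theorem gl2_G {x : ℝ} (h : (112 / 25) ≤ x) (h' : x ≤ (26 / 5)) :
    0 ≤ (-218195458358177 / 152587890625) * x ^ (0 : ℕ) + (-40705672705711 / 23437500000) * x ^ (1 : ℕ) + (-941400236175781 / 585937500000) * x ^ (2 : ℕ) + (-207310435724453 / 146484375000) * x ^ (3 : ℕ) + (-114483258784427 / 195312500000) * x ^ (4 : ℕ) + (27062024417 / 156250000) * x ^ (5 : ℕ) + (3090436577 / 18750000) * x ^ (6 : ℕ) + (34680803 / 2500000) * x ^ (7 : ℕ) + (-69 / 8) * x ^ (8 : ℕ) := by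
  have hu : 0 ≤ x - (112 / 25) := by linarith only [h]
  have hw : 0 ≤ (26 / 5) - x := by linarith only [h']
  have e : (-218195458358177 / 152587890625) * x ^ (0 : ℕ) + (-40705672705711 / 23437500000) * x ^ (1 : ℕ) + (-941400236175781 / 585937500000) * x ^ (2 : ℕ) + (-207310435724453 / 146484375000) * x ^ (3 : ℕ) + (-114483258784427 / 195312500000) * x ^ (4 : ℕ) + (27062024417 / 156250000) * x ^ (5 : ℕ) + (3090436577 / 18750000) * x ^ (6 : ℕ) + (34680803 / 2500000) * x ^ (7 : ℕ) + (-69 / 8) * x ^ (8 : ℕ) =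
      (1636566880141175968603 / 344373768000000) * (x - (112 / 25)) ^ (0 : ℕ) * ((26 / 5) - x) ^ (8 : ℕ) + (107686483373991704154931 / 2754990144000000) * (x - (112 / 25)) ^ (1 : ℕ) * ((26 / 5) - x) ^ (7 : ℕ) + (379970326121845193426519 / 2754990144000000) * (x - (112 / 25)) ^ (2 : ℕ) * ((26 / 5) - x) ^ (6 : ℕ) + (746507368081452063155371 / 2754990144000000) * (x - (112 / 25)) ^ (3 : ℕ) * ((26 / 5) - x) ^ (5 : ℕ) + (884028207455074014517199 / 2754990144000000) * (x - (112 / 25)) ^ (4 : ℕ) * ((26 / 5) - x) ^ (4 : ℕ) + (126871459291908750759053 / 550998028800000) * (x - (112 / 25)) ^ (5 : ℕ) * ((26 / 5) - x) ^ (3 : ℕ) + (10368961291263966973781 / 110199605760000) * (x - (112 / 25)) ^ (6 : ℕ) * ((26 / 5) - x) ^ (2 : ℕ) + (397663106490970441397 / 22039921152000) * (x - (112 / 25)) ^ (7 : ℕ) * ((26 / 5) - x) ^ (1 : ℕ) + (3110258503873670789 / 4407984230400) * (x - (112 / 25)) ^ (8 : ℕ) * ((26 / 5) - x) ^ (0 : ℕ) := by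 ring
  rw [e]
  (clear * - h h'; positivity)

private theorem gl2_H {x : ℝ} (h : (112 / 25) ≤ x) (h' : x ≤ (26 / 5)) :
    0 ≤ (-1546298329 / 1562500) * x ^ (0 : ℕ) + (-8497077092 / 9765625) * x ^ (1 : ℕ) + (164425341 / 3125000) * x ^ (2 : ℕ) + (6941847 / 250000) * x ^ (3 : ℕ) + (16653 / 5000) * x ^ (4 : ℕ) := by
  have hu : 0 ≤ x - (112 / 25) := by linarith only [h]
  have hw : 0 ≤ (26 / 5) - x := by linarith only [h']
  have e : (-1546298329 / 1562500) * x ^ (0 : ℕ) + (-8497077092 / 9765625) * x ^ (1 : ℕ) + (164425341 / 3125000) * x ^ (2 : ℕ) + (6941847 / 250000) * x ^ (3 : ℕ) + (16653 / 5000) * x ^ (4 : ℕ) =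
      (2179482173 / 87480000) * (x - (112 / 25)) ^ (0 : ℕ) * ((26 / 5) - x) ^ (4 : ℕ) + (5878904789 / 874800) * (x - (112 / 25)) ^ (1 : ℕ) * ((26 / 5) - x) ^ (3 : ℕ) + (157511000269 / 7290000) * (x - (112 / 25)) ^ (2 : ℕ) * ((26 / 5) - x) ^ (2 : ℕ) + (1017967942429 / 43740000) * (x - (112 / 25)) ^ (3 : ℕ) * ((26 / 5) - x) ^ (1 : ℕ) + (146361247849 / 17496000) * (x - (112 / 25)) ^ (4 : ℕ) * ((26 / 5) - x) ^ (0 : ℕ) := by ring
  rw [e]
  (clear * - h h'; positivity)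

private theorem gl3_G {x : ℝ} (h : (26 / 5) ≤ x) (h' : x ≤ (32 / 5)) :
    0 ≤ (-29680692182057 / 37500000000) * x ^ (0 : ℕ) + (-139891346923 / 234375000) * x ^ (1 : ℕ) + (-238281016553 / 750000000) * x ^ (2 : ℕ) + (-88809076753 / 375000000) * x ^ (3 : ℕ) + (45245367767 / 750000000) * x ^ (4 : ℕ) + (3567434117 / 18750000) * x ^ (5 : ℕ) + (39565199 / 1250000) * x ^ (6 : ℕ) + (-219 / 25) * x ^ (7 : ℕ) := by
  have hu : 0 ≤ x - (26 / 5) := by linarith only [h]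
  have hw : 0 ≤ (32 / 5) - x := by linarith only [h']
  have e : (-29680692182057 / 37500000000) * x ^ (0 : ℕ) + (-139891346923 / 234375000) * x ^ (1 : ℕ) + (-238281016553 / 750000000) * x ^ (2 : ℕ) + (-88809076753 / 375000000) * x ^ (3 : ℕ) + (45245367767 / 750000000) * x ^ (4 : ℕ) + (3567434117 / 18750000) * x ^ (5 : ℕ) + (39565199 / 1250000) * x ^ (6 : ℕ) + (-219 / 25) * x ^ (7 : ℕ) =
      (139657294396500541 / 1119744000000) * (x - (26 / 5)) ^ (0 : ℕ) * ((32 / 5) - x) ^ (7 : ℕ) + (1058640884194746043 / 1119744000000) * (x - (26 / 5)) ^ (1 : ℕ) * ((32 / 5) - x) ^ (6 : ℕ) + (225566736710019719 / 74649600000) * (x - (26 / 5)) ^ (2 : ℕ) * ((32 / 5) - x) ^ (5 : ℕ) + (5881240334605952207 / 1119744000000) * (x - (26 / 5)) ^ (3 : ℕ) * ((32 / 5) - x) ^ (4 : ℕ) + (5958391409061720071 / 1119744000000) * (x - (26 / 5)) ^ (4 : ℕ) * ((32 / 5) - x) ^ (3 : ℕ) + (231532034135613071 / 74649600000) * (x - (26 / 5)) ^ (5 : ℕ) *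 ((32 / 5) - x) ^ (2 : ℕ) + (210443824667129399 / 223948800000) * (x - (26 / 5)) ^ (6 : ℕ) * ((32 / 5) - x) ^ (1 : ℕ) + (120897337651829077 / 1119744000000) * (x - (26 / 5)) ^ (7 : ℕ) * ((32 / 5) - x) ^ (0 : ℕ) := by ring
  rw [e]
  (clear * - h' h; positivity)

private theorem gl3_H {x : ℝ} (h : (26 / 5) ≤ x) (h' : x ≤ (32 / 5)) :
    0 ≤ (-6824577321 / 6250000) * x ^ (0 : ℕ) + (-2331479739857 / 2343750000) * x ^ (1 : ℕ) + (1202475489 / 31250000) * x ^ (2 : ℕ) + (30338219 / 1250000) * x ^ (3 : ℕ) + (18239 / 6250) * x ^ (4 : ℕ) := by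
  have hu : 0 ≤ x - (26 / 5) := by linarith only [h]
  have hw : 0 ≤ (32 / 5) - x := by linarith only [h']
  have e : (-6824577321 / 6250000) * x ^ (0 : ℕ) + (-2331479739857 / 2343750000) * x ^ (1 : ℕ) + (1202475489 / 31250000) * x ^ (2 : ℕ) + (30338219 / 1250000) * x ^ (3 : ℕ) + (18239 / 6250) * x ^ (4 : ℕ) =
      (3774741823103 / 24300000000) * (x - (26 / 5)) ^ (0 : ℕ) * ((32 / 5) - x) ^ (4 : ℕ) + (5750527660919 / 2430000000) * (x - (26 / 5)) ^ (1 : ℕ) * ((32 / 5) - x) ^ (3 : ℕ) + (13741291837201 / 2025000000) * (x - (26 / 5)) ^ (2 : ℕ) * ((32 / 5) - x) ^ (2 : ℕ) + (87047391696733 / 12150000000) * (x - (26 / 5)) ^ (3 : ℕ) * ((32 / 5) - x) ^ (1 : ℕ) + (63000729365141 / 24300000000) * (x - (26 / 5)) ^ (4 : ℕ) * ((32 / 5) - x) ^ (0 : ℕ) := by ring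
  rw [e]
  (clear * - h h'; positivity)

private theorem gl5_G {x : ℝ} (h : (26 / 5) ≤ x) (h' : x ≤ 8) :
    0 ≤ (-138 / 125) * x ^ (0 : ℕ) + (-1933432634287 / 4882812500) * x ^ (1 : ℕ) + (-6208735847449 / 11718750000) * x ^ (2 : ℕ) + (-2235412875491 / 4687500000) * x ^ (3 : ℕ) + (-17305013135479 / 37500000000) * x ^ (4 : ℕ) + (-5358394899521 / 18750000000) * x ^ (5 : ℕ) + (-407812499767 / 7500000000) * x ^ (6 : ℕ) + (4282495039 / 375000000) * x ^ (7 : ℕ) + (78891401 / 25000000) * x ^ (8 : ℕ) := by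
  have hu : 0 ≤ x - (26 / 5) := by linarith only [h]
  have hw : 0 ≤ 8 - x := by linarith only [h']
  have e : (-138 / 125) * x ^ (0 : ℕ) + (-1933432634287 / 4882812500) * x ^ (1 : ℕ) + (-6208735847449 / 11718750000) * x ^ (2 : ℕ) + (-2235412875491 / 4687500000) * x ^ (3 : ℕ) + (-17305013135479 / 37500000000) * x ^ (4 : ℕ) + (-5358394899521 / 18750000000) * x ^ (5 : ℕ) + (-407812499767 / 7500000000) * x ^ (6 : ℕ) + (4282495039 / 375000000) * x ^ (7 : ℕ) + (78891401 / 25000000) * x ^ (8 : ℕ) =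
      (680264074746305943 / 9223681600000000) * (x - (26 / 5)) ^ (0 : ℕ) * (8 - x) ^ (8 : ℕ) + (4071903488190795743 / 2305920400000000) * (x - (26 / 5)) ^ (1 : ℕ) * (8 - x) ^ (7 : ℕ) + (8940264145721903081 / 658834400000000) * (x - (26 / 5)) ^ (2 : ℕ) * (8 - x) ^ (6 : ℕ) + (13013353055045004869 / 247062900000000) * (x - (26 / 5)) ^ (3 : ℕ) * (8 - x) ^ (5 : ℕ) + (94485282764755140463 / 790601280000000) * (x - (26 / 5)) ^ (4 : ℕ) * (8 - x) ^ (4 : ℕ) + (6576982353887798647 / 39530064000000) * (x - (26 / 5)) ^ (5 : ℕ) * (8 - x) ^ (3 : ℕ) + (1852870455682139897 / 13176688000000) * (x - (26 / 5)) ^ (6 : ℕ) * (8 - x) ^ (2 : ℕ) + (3065830074695389109 / 46118408000000) * (x - (26 / 5)) ^ (7 : ℕ) * (8 - x) ^ (1 : ℕ) + (46785832102274537 / 3458880600000) * (x - (26 / 5)) ^ (8 : ℕ) * (8 - x) ^ (0 : ℕ) := by ring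
  rw [e]
  (clear * - h h'; positivity)

private theorem gl5_H {x : ℝ} (h : (26 / 5) ≤ x) (h' : x ≤ 8) :
    0 ≤ (-4761 / 10000) * x ^ (0 : ℕ) + (-13846437 / 781250) * x ^ (1 : ℕ) + (-2420374879821 / 19531250000) * x ^ (2 : ℕ) + (-89266873847 / 976562500) * x ^ (3 : ℕ) + (-5923561177 / 625000000) * x ^ (4 : ℕ) + (1757868 / 390625) * x ^ (5 : ℕ) + (25851 / 62500) * x ^ (6 : ℕ) := by
  have hu : 0 ≤ x - (26 / 5) := by linarith only [h]
  have hw : 0 ≤ 8 - x := by linarith only [h']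
  have e : (-4761 / 10000) * x ^ (0 : ℕ) + (-13846437 / 781250) * x ^ (1 : ℕ) + (-2420374879821 / 19531250000) * x ^ (2 : ℕ) + (-89266873847 / 976562500) * x ^ (3 : ℕ) + (-5923561177 / 625000000) * x ^ (4 : ℕ) + (1757868 / 390625) * x ^ (5 : ℕ) + (25851 / 62500) * x ^ (6 : ℕ) =
      (1006365405057651 / 235298000000000) * (x - (26 / 5)) ^ (0 : ℕ) * (8 - x) ^ (6 : ℕ) + (11109399359219741 / 117649000000000) * (x - (26 / 5)) ^ (1 : ℕ) * (8 - x) ^ (5 : ℕ) + (25153426198243909 / 47059600000000) * (x - (26 / 5)) ^ (2 : ℕ) * (8 - x) ^ (4 : ℕ) + (80856386659560067 / 58824500000000) * (x - (26 / 5)) ^ (3 : ℕ) * (8 - x) ^ (3 : ℕ) + (431028460557910049 / 235298000000000) * (x - (26 / 5)) ^ (4 : ℕ) * (8 - x) ^ (2 : ℕ) + (29125562992529077 / 23529800000000) * (x - (26 / 5)) ^ (5 : ℕ) * (8 - x) ^ (1 : ℕ) + (3167813653814051 / 9411920000000) * (x - (26 / 5)) ^ (6 : ℕ) * (8 - x) ^ (0 : ℕ) := by ring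
  rw [e]
  (clear * - h h'; positivity)

theorem gl1 {x : ℝ} (h : 3 ≤ x) (h' : x ≤ 112 / 25) :
    851 / 100 ≤ Gq x (8 / 5 / (1 + x)) (793 / 100) 1 := by
  have hx : 0 < x := by linarith only [h]
  have hs : 0 < 1 + x := by linarith only [hx]
  have ham : 8 / 5 / (1 + x) ≤ (1 : ℝ) := by
    rw [div_le_one hs]; linarith only [h]
  refine gl_core (a := 1) (S0 := (72 / 125)) (U := 27183 / 10000)
    (L := 2718 / 1000) hx (by positivity) ham (by (clear * -; positivity)) ?_ ?_ (by norm_num) ?_ ?_ ?_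
  · have := Real.exp_one_lt_d9; norm_num at this ⊢; linarith only [this]
  · have := Real.exp_one_gt_d9; norm_num at this ⊢; linarith only [this]
  · have e : (72 / 125) * (4 / 5 * ((2718 / 1000) * x * (793 / 100))) -
        ((793 / 100) * (1 - 8 / 5 / (1 + x)) + 69 / 100) ^ (2 : ℕ) =
        ((-1034289 / 62500) * x ^ (0 : ℕ) + (312751107 / 3906250) * x ^ (1 : ℕ) + (-425316197 / 7812500) * x ^ (2 : ℕ) + (19398366 / 1953125) * x ^ (3 : ℕ)) /
        ((1 + x) ^ (2 : ℕ)) := by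
      field_simp
      ring
    have h3 := div_nonneg (gl1_H h h') (by positivity : 0 ≤ (1 + x) ^ (2 : ℕ))
    rw [← e] at h3
    linarith only [h3]
  · have e : (793 / 100) * ((1 - 8 / 5 / (1 + x)) * (6283 / 1000 - 8 / 5 / (1 + x) / x) + x * (1 + 1) - (27183 / 10000) * (x + (8 / 5 / (1 + x)) ^ (2 : ℕ) / (2 * x))) - (72 / 125) -
        69 / 100 * (8 / 5 / (1 + x) / x) - 851 / 100 =
        ((-16471119 / 781250) * x ^ (0 : ℕ) + (-26386257 / 500000) * x ^ (1 : ℕ) + (-3938443 / 1000000) * x ^ (2 : ℕ) + (917061 / 31250) * x ^ (3 : ℕ) + (-5696119 / 1000000) * x ^ (4 : ℕ)) /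
        (x ^ (1 : ℕ) * (1 + x) ^ (2 : ℕ)) := by
      field_simp
      ring
    have h3 := div_nonneg (gl1_G h h') (by positivity : 0 ≤ x ^ (1 : ℕ) * (1 + x) ^ (2 : ℕ))
    rw [← e] at h3
    linarith only [h3]
  · exact al_small (by linarith only [hx]) h'

theorem gl2 {x : ℝ} (h : 112 / 25 ≤ x) (h' : x ≤ 26 / 5) :
    81 / 10 ≤ Gq x (8 / 5 / (1 + x)) (793 / 100) 1 := by
  have hx : 0 < x := by linarith only [h]
  have hs : 0 < 1 + x := by linarith only [hx]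
  have ha0 : (0 : ℝ) ≤ 137 / 25 / (1 + x) := by positivity
  have ha1 : 137 / 25 / (1 + x) ≤ (1 : ℝ) := by rw [div_le_one hs]; linarith only [h]
  have ham : 8 / 5 / (1 + x) ≤ (137 / 25 / (1 + x) : ℝ) := by
    apply div_le_div_of_nonneg_right _ hs.le; norm_num
  refine gl_core (a := 137 / 25 / (1 + x)) (S0 := (21 / 40)) (U := 1 + (137 / 25 / (1 + x)) + (137 / 25 / (1 + x)) ^ (2 : ℕ) / 2 + (137 / 25 / (1 + x)) ^ (3 : ℕ) / 6 + (137 / 25 / (1 + x)) ^ (4 : ℕ) / 24 + (137 / 25 / (1 + x)) ^ (5 : ℕ) / 100)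
    (L := 1 + (137 / 25 / (1 + x)) + (137 / 25 / (1 + x)) ^ (2 : ℕ) / 2 + (137 / 25 / (1 + x)) ^ (3 : ℕ) / 6) hx (by (clear * -; positivity)) ham (by (clear * - h; positivity)) ?_ ?_ (by norm_num) ?_ ?_ ?_
  · exact gl_up5 ha0 ha1
  · exact gl_lo ha0
  · have e : (21 / 40) * (4 / 5 * ((1 + (137 / 25 / (1 + x)) + (137 / 25 / (1 + x)) ^ (2 : ℕ) / 2 + (137 / 25 / (1 + x)) ^ (3 : ℕ) / 6) * x * (793 / 100))) -
        ((793 / 100) * (137 / 25 / (1 + x) - 8 / 5 / (1 + x)) + 69 / 100) ^ (2 : ℕ) =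
        ((-1546298329 / 1562500) * x ^ (0 : ℕ) + (-8497077092 / 9765625) * x ^ (1 : ℕ) + (164425341 / 3125000) * x ^ (2 : ℕ) + (6941847 / 250000) * x ^ (3 : ℕ) + (16653 / 5000) * x ^ (4 : ℕ)) /
        ((1 + x) ^ (3 : ℕ)) := by
      field_simp
      ring
    have h3 := div_nonneg (gl2_H h h') (by positivity : 0 ≤ (1 + x) ^ (3 : ℕ))
    rw [← e] at h3
    linarith only [h3]
  · have e : (793 / 100) * ((137 / 25 / (1 + x) - 8 / 5 / (1 + x)) * (6283 / 1000 - 8 / 5 / (1 + x) / x) + x * (1 + 137 / 25 / (1 + x)) - (1 + (137 / 25 / (1 + x)) + (137 / 25 / (1 + x)) ^ (2 : ℕ) / 2 + (137 / 25 / (1 + x)) ^ (3 : ℕ) / 6 + (137 / 25 / (1 + x)) ^ (4 : ℕ) / 24 + (137 / 25 / (1 + x)) ^ (5 : ℕ) / 100) * (x + (8 / 5 / (1 + x)) ^ (2 : ℕ) / (2 * x))) - (21 / 40) -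
        69 / 100 * (8 / 5 / (1 + x) / x) - 81 / 10 =
        ((-218195458358177 / 152587890625) * x ^ (0 : ℕ) + (-40705672705711 / 23437500000) * x ^ (1 : ℕ) + (-941400236175781 / 585937500000) * x ^ (2 : ℕ) + (-207310435724453 / 146484375000) * x ^ (3 : ℕ) + (-114483258784427 / 195312500000) * x ^ (4 : ℕ) + (27062024417 / 156250000) * x ^ (5 : ℕ) + (3090436577 / 18750000) * x ^ (6 : ℕ) + (34680803 / 2500000) * x ^ (7 : ℕ) + (-69 / 8) * x ^ (8 : ℕ)) /
        (x ^ (1 : ℕ) * (1 + x) ^ (7 : ℕ)) := by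
      field_simp
      ring
    have h3 := div_nonneg (gl2_G h h') (by positivity : 0 ≤ x ^ (1 : ℕ) * (1 + x) ^ (7 : ℕ))
    rw [← e] at h3
    linarith only [h3]
  · exact al_big h

theorem gl3 {x : ℝ} (h : 26 / 5 ≤ x) (h' : x ≤ 32 / 5) :
    83 / 10 ≤ Gq x (7 / 5 / (1 + x)) (793 / 100) 1 := by
  have hx : 0 < x := by linarith only [h]
  have hs : 0 < 1 + x := by linarith only [hx]
  have ha0 : (0 : ℝ) ≤ 137 / 25 / (1 + x) := by positivity
  have ha1 : 137 / 25 / (1 + x) ≤ (1 : ℝ) := by rw [div_le_one hs]; linarith only [h]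
  have ham : 7 / 5 / (1 + x) ≤ (137 / 25 / (1 + x) : ℝ) := by
    apply div_le_div_of_nonneg_right _ hs.le; norm_num
  refine gl_core (a := 137 / 25 / (1 + x)) (S0 := (23 / 50)) (U := 1 + (137 / 25 / (1 + x)) + (137 / 25 / (1 + x)) ^ (2 : ℕ) / 2 + (137 / 25 / (1 + x)) ^ (3 : ℕ) / 6 + (137 / 25 / (1 + x)) ^ (4 : ℕ) * (5 / 96))
    (L := 1 + (137 / 25 / (1 + x)) + (137 / 25 / (1 + x)) ^ (2 : ℕ) / 2 + (137 / 25 / (1 + x)) ^ (3 : ℕ) / 6) hx (by (clear * -; positivity)) ham (by (clear * - h; positivity)) ?_ ?_ (by norm_num) ?_ ?_ ?_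
  · exact gl_up4 ha0 ha1
  · exact gl_lo ha0
  · have e : (23 / 50) * (4 / 5 * ((1 + (137 / 25 / (1 + x)) + (137 / 25 / (1 + x)) ^ (2 : ℕ) / 2 + (137 / 25 / (1 + x)) ^ (3 : ℕ) / 6) * x * (793 / 100))) -
        ((793 / 100) * (137 / 25 / (1 + x) - 7 / 5 / (1 + x)) + 69 / 100) ^ (2 : ℕ) =
        ((-6824577321 / 6250000) * x ^ (0 : ℕ) + (-2331479739857 / 2343750000) * x ^ (1 : ℕ) + (1202475489 / 31250000) * x ^ (2 : ℕ) + (30338219 / 1250000) * x ^ (3 : ℕ) + (18239 / 6250) * x ^ (4 : ℕ)) /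
        ((1 + x) ^ (3 : ℕ)) := by
      field_simp
      ring
    have h3 := div_nonneg (gl3_H h h') (by positivity : 0 ≤ (1 + x) ^ (3 : ℕ))
    rw [← e] at h3
    linarith only [h3]
  · have e : (793 / 100) * ((137 / 25 / (1 + x) - 7 / 5 / (1 + x)) * (6283 / 1000 - 7 / 5 / (1 + x) / x) + x * (1 + 137 / 25 / (1 + x)) - (1 + (137 / 25 / (1 + x)) + (137 / 25 / (1 + x)) ^ (2 : ℕ) / 2 + (137 / 25 / (1 + x)) ^ (3 : ℕ) / 6 + (137 / 25 / (1 + x)) ^ (4 : ℕ) * (5 / 96)) * (x + (7 / 5 / (1 + x)) ^ (2 : ℕ) / (2 * x))) - (23 / 50) -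
        69 / 100 * (7 / 5 / (1 + x) / x) - 83 / 10 =
        ((-29680692182057 / 37500000000) * x ^ (0 : ℕ) + (-139891346923 / 234375000) * x ^ (1 : ℕ) + (-238281016553 / 750000000) * x ^ (2 : ℕ) + (-88809076753 / 375000000) * x ^ (3 : ℕ) + (45245367767 / 750000000) * x ^ (4 : ℕ) + (3567434117 / 18750000) * x ^ (5 : ℕ) + (39565199 / 1250000) * x ^ (6 : ℕ) + (-219 / 25) * x ^ (7 : ℕ)) /
        (x ^ (1 : ℕ) * (1 + x) ^ (6 : ℕ)) := by
      field_simp
      ring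
    have h3 := div_nonneg (gl3_G h h') (by positivity : 0 ≤ x ^ (1 : ℕ) * (1 + x) ^ (6 : ℕ))
    rw [← e] at h3
    linarith only [h3]
  · exact al_big (by linarith only [h])

theorem gl5 {x : ℝ} (h : 26 / 5 ≤ x) (h' : x ≤ 8) :
    159 / 20 ≤ Gq x (8 / 5 / (1 + x)) (1231 / 1000 * (x * (1 + 7 / 5 / (1 + x)))) 1 := by
  have hx : 0 < x := by linarith only [h]
  have hs : 0 < 1 + x := by linarith only [hx]
  have ha0 : (0 : ℝ) ≤ 137 / 25 / (1 + x) := by positivity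
  have ha1 : 137 / 25 / (1 + x) ≤ (1 : ℝ) := by rw [div_le_one hs]; linarith only [h]
  have ham : 8 / 5 / (1 + x) ≤ (137 / 25 / (1 + x) : ℝ) := by
    apply div_le_div_of_nonneg_right _ hs.le; norm_num
  refine gl_core (a := 137 / 25 / (1 + x)) (S0 := (21 / 50)) (U := 1 + (137 / 25 / (1 + x)) + (137 / 25 / (1 + x)) ^ (2 : ℕ) / 2 + (137 / 25 / (1 + x)) ^ (3 : ℕ) / 6 + (137 / 25 / (1 + x)) ^ (4 : ℕ) * (5 / 96))
    (L := 1 + (137 / 25 / (1 + x)) + (137 / 25 / (1 + x)) ^ (2 : ℕ) / 2 + (137 / 25 / (1 + x)) ^ (3 : ℕ) / 6) hx (by (clear * - h; positivity)) ham (by positivity) ?_ ?_ (by norm_num) ?_ ?_ ?_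
  · exact gl_up4 ha0 ha1
  · exact gl_lo ha0
  · have e : (21 / 50) * (4 / 5 * ((1 + (137 / 25 / (1 + x)) + (137 / 25 / (1 + x)) ^ (2 : ℕ) / 2 + (137 / 25 / (1 + x)) ^ (3 : ℕ) / 6) * x * (1231 / 1000 * (x * (1 + 7 / 5 / (1 + x)))))) -
        ((1231 / 1000 * (x * (1 + 7 / 5 / (1 + x)))) * (137 / 25 / (1 + x) - 8 / 5 / (1 + x)) + 69 / 100) ^ (2 : ℕ) =
        ((-4761 / 10000) * x ^ (0 : ℕ) + (-13846437 / 781250) * x ^ (1 : ℕ) + (-2420374879821 / 19531250000) * x ^ (2 : ℕ) + (-89266873847 / 976562500) * x ^ (3 : ℕ) + (-5923561177 / 625000000) * x ^ (4 : ℕ) + (1757868 / 390625) * x ^ (5 : ℕ) + (25851 / 62500) * x ^ (6 : ℕ)) /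
        ((1 + x) ^ (4 : ℕ)) := by
      field_simp
      ring
    have h3 := div_nonneg (gl5_H h h') (by positivity : 0 ≤ (1 + x) ^ (4 : ℕ))
    rw [← e] at h3
    linarith only [h3]
  · have e : (1231 / 1000 * (x * (1 + 7 / 5 / (1 + x)))) * ((137 / 25 / (1 + x) - 8 / 5 / (1 + x)) * (6283 / 1000 - 8 / 5 / (1 + x) / x) + x * (1 + 137 / 25 / (1 + x)) - (1 + (137 / 25 / (1 + x)) + (137 / 25 / (1 + x)) ^ (2 : ℕ) / 2 + (137 / 25 / (1 + x)) ^ (3 : ℕ) / 6 + (137 / 25 / (1 + x)) ^ (4 : ℕ) * (5 / 96)) * (x + (8 / 5 / (1 + x)) ^ (2 : ℕ) / (2 * x))) - (21 / 50) -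
        69 / 100 * (8 / 5 / (1 + x) / x) - 159 / 20 =
        ((-138 / 125) * x ^ (0 : ℕ) + (-1933432634287 / 4882812500) * x ^ (1 : ℕ) + (-6208735847449 / 11718750000) * x ^ (2 : ℕ) + (-2235412875491 / 4687500000) * x ^ (3 : ℕ) + (-17305013135479 / 37500000000) * x ^ (4 : ℕ) + (-5358394899521 / 18750000000) * x ^ (5 : ℕ) + (-407812499767 / 7500000000) * x ^ (6 : ℕ) + (4282495039 / 375000000) * x ^ (7 : ℕ) + (78891401 / 25000000) * x ^ (8 : ℕ)) /
        (x ^ (1 : ℕ) * (1 + x) ^ (7 : ℕ)) := by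
      field_simp
      ring
    have h3 := div_nonneg (gl5_G h h') (by positivity : 0 ≤ x ^ (1 : ℕ) * (1 + x) ^ (7 : ℕ))
    rw [← e] at h3
    linarith only [h3]
  · exact al_big (by linarith only [h])


end SokamV3T

end

/-! ### Lib_MP_af4de1_v3.TailGU -/

section
/-!
# Lump exponents, unbounded `x`

`al x = 1` for `x ≤ 112/25`, `al x = 137/25/(1+x)` beyond (`al_small`, `al_big`).  Method: `v = 1/(1+x)`, `x = (1-v)/v`,
`α = 137/25 v`, `m` = the given rational function of `v`; Taylor polynomials for `exp` (upper bound in `Aq`, lower bound in the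
square term), `π ≥ 3.1415` where it stands with a positive sign; clear denominators, polynomial in `v` on an interval.
True infima: 8.821 (at 6.4), 9.53 (at 8), 21 (at 8), 15 (at 8), 8.968 (at 8).
-/

set_option autoImplicit false

namespace SokamV3T

open Real

theorem gu_key {x m d ε U L : ℝ} (hx : 0 < x) (hd : 0 < d) (hm : m ≤ al x)
    (hU : exp (ε * al x) ≤ U) (hL : 0 < L) (hL' : L ≤ exp (ε * al x)) :
    d * ((al x - m) * (6283 / 1000 - m / x) + x * (1 + ε * al x) - U * (x + m ^ (2 : ℕ) / (2 * x))) -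
      (d * (al x - m) + 69 / 100) ^ (2 : ℕ) / (4 / 5 * (L * x * d)) - 69 / 100 * (m / x) ≤
    Gq x m d ε := by
  unfold Gq Aq
  have hp : (6283 / 1000 : ℝ) ≤ 2 * π := by have := Real.pi_gt_d4; linarith
  have h1 : (al x - m) * (6283 / 1000 - m / x) ≤ (al x - m) * (2 * π - m / x) :=
    mul_le_mul_of_nonneg_left (by linarith) (by linarith)
  have h2 : 0 ≤ x + m ^ (2 : ℕ) / (2 * x) := by positivity
  have h3 : exp (ε * al x) * (x + m ^ (2 : ℕ) / (2 * x)) ≤ U * (x + m ^ (2 : ℕ) / (2 * x)) :=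
    mul_le_mul_of_nonneg_right hU h2
  have h4 : d * ((al x - m) * (6283 / 1000 - m / x) + x * (1 + ε * al x) -
      U * (x + m ^ (2 : ℕ) / (2 * x))) ≤ d * ((al x - m) * (2 * π - m / x) + x * (1 + ε * al x) -
      exp (ε * al x) * (x + m ^ (2 : ℕ) / (2 * x))) :=
    mul_le_mul_of_nonneg_left (by linarith) hd.le
  have h5 : (d * (al x - m) + 69 / 100) ^ (2 : ℕ) / (4 / 5 * (exp (ε * al x) * x * d)) ≤
      (d * (al x - m) + 69 / 100) ^ (2 : ℕ) / (4 / 5 * (L * x * d)) := by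
    apply div_le_div_of_nonneg_left (sq_nonneg _) (by positivity)
    apply mul_le_mul_of_nonneg_left _ (by norm_num)
    apply mul_le_mul_of_nonneg_right _ hd.le
    exact mul_le_mul_of_nonneg_right hL' hx.le
  linarith

/-- upper bound for `exp` of small arguments -/
theorem gu_exp {a : ℝ} (h : |a| ≤ 1) :
    exp a ≤ 1 + a + a ^ (2 : ℕ) / 2 + a ^ (3 : ℕ) / 6 + 5 / 96 * a ^ (4 : ℕ) := by
  have h1 := Real.exp_bound h (n := 4) (by norm_num)
  have h2 := (abs_le.mp h1).2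
  have h3 : |a| ^ (4 : ℕ) = a ^ (4 : ℕ) := by
    rw [← abs_pow]; exact abs_of_nonneg (by positivity)
  simp only [Finset.sum_range_succ, Finset.sum_range_zero, Nat.factorial, h3] at h2
  norm_num at h2
  linarith

/-- lower bound for `exp` of negative arguments -/
theorem gu_exp_low {a : ℝ} (h0 : 0 ≤ a) (h1 : a ≤ 1) :
    1 - a + a ^ (2 : ℕ) / 2 - a ^ (3 : ℕ) / 6 ≤ exp (-a) := by
  have h := Real.exp_bound (x := -a) (by rw [abs_neg, abs_of_nonneg h0]; exact h1) (n := 5)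
    (by norm_num)
  have h2 := (abs_le.mp h).1
  rw [abs_neg, abs_of_nonneg h0] at h2
  simp only [Finset.sum_range_succ, Finset.sum_range_zero, Nat.factorial] at h2
  norm_num at h2
  have h3 : a ^ (5 : ℕ) ≤ a ^ (4 : ℕ) := by
    calc a ^ (5 : ℕ) = a ^ (4 : ℕ) * a := by ring
      _ ≤ a ^ (4 : ℕ) * 1 := mul_le_mul_of_nonneg_left h1 (by positivity)
      _ = a ^ (4 : ℕ) := mul_one _
  have h4 : 0 ≤ a ^ (4 : ℕ) := by positivity
  have h5 : (-a) ^ (3 : ℕ) = -a ^ (3 : ℕ) := by ring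
  have h6 : (-a) ^ (4 : ℕ) = a ^ (4 : ℕ) := by ring
  linarith [h2, h3, h4]

theorem gu4 {x : ℝ} (h : 32 / 5 ≤ x) :
    83 / 10 ≤ Gq x (7 / 5 / (1 + x)) (1231 / 1000 * x) 1 := by
  obtain ⟨t, ht, rfl⟩ : ∃ t : ℝ, 0 ≤ t ∧ x = 32 / 5 + t := ⟨x - 32 / 5, by linarith, by ring⟩
  have hal := al_big (x := 32 / 5 + t) (by linarith)
  have hw : (0 : ℝ) < 1 + (32 / 5 + t) := by linarith
  have ha0 : 0 < al (32 / 5 + t) := by rw [hal]; positivity
  have ha1 : al (32 / 5 + t) ≤ 1 := by rw [hal, div_le_one hw]; linarith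
  have hU := gu_exp (a := al (32 / 5 + t)) (abs_le.mpr ⟨by linarith, ha1⟩)
  have hL := show 1 + al (32 / 5 + t) ≤ exp (al (32 / 5 + t)) by
    have := add_one_le_exp (al (32 / 5 + t)); linarith
  refine le_trans ?_ (gu_key (x := 32 / 5 + t) (ε := 1)
    (U := 1 + al (32 / 5 + t) + al (32 / 5 + t) ^ (2 : ℕ) / 2 + al (32 / 5 + t) ^ (3 : ℕ) / 6 +
      5 / 96 * al (32 / 5 + t) ^ (4 : ℕ))
    (L := 1 + al (32 / 5 + t)) (by linarith) (by positivity)
    (by rw [hal]; exact div_le_div_of_nonneg_right (by norm_num) hw.le) (by simpa only [one_mul, neg_one_mul, neg_mul] using hU) (by linarith)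
    (by simpa only [one_mul, neg_one_mul, neg_mul] using hL))
  rw [hal, ← sub_nonneg]
  field_simp
  ring_nf
  positivity

theorem gu6 {x : ℝ} (h : 8 ≤ x) :
    42 / 5 ≤ Gq x (8 / 5 / (1 + x)) (1231 / 1000 * (x * (1 + 7 / 5 / (1 + x)))) 1 := by
  obtain ⟨t, ht, rfl⟩ : ∃ t : ℝ, 0 ≤ t ∧ x = 8 + t := ⟨x - 8, by linarith, by ring⟩
  have hal := al_big (x := 8 + t) (by linarith)
  have hw : (0 : ℝ) < 1 + (8 + t) := by linarith
  have ha0 : 0 < al (8 + t) := by rw [hal]; positivity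
  have ha1 : al (8 + t) ≤ 1 := by rw [hal, div_le_one hw]; linarith
  have hU := gu_exp (a := al (8 + t)) (abs_le.mpr ⟨by linarith, ha1⟩)
  have hL := show 1 + al (8 + t) ≤ exp (al (8 + t)) by
    have := add_one_le_exp (al (8 + t)); linarith
  refine le_trans ?_ (gu_key (x := 8 + t) (ε := 1)
    (U := 1 + al (8 + t) + al (8 + t) ^ (2 : ℕ) / 2 + al (8 + t) ^ (3 : ℕ) / 6 +
      5 / 96 * al (8 + t) ^ (4 : ℕ))
    (L := 1 + al (8 + t)) (by linarith) (by positivity)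
    (by rw [hal]; exact div_le_div_of_nonneg_right (by norm_num) hw.le) (by simpa only [one_mul, neg_one_mul, neg_mul] using hU) (by linarith)
    (by simpa only [one_mul, neg_one_mul, neg_mul] using hL))
  rw [hal, ← sub_nonneg]
  field_simp
  ring_nf
  positivity

theorem gu12 {x : ℝ} (h : 8 ≤ x) :
    15 ≤ Gq x 0 (1231 / 1000 * x) (-1) := by
  obtain ⟨t, ht, rfl⟩ : ∃ t : ℝ, 0 ≤ t ∧ x = 8 + t := ⟨x - 8, by linarith, by ring⟩
  have hal := al_big (x := 8 + t) (by linarith)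
  have hw : (0 : ℝ) < 1 + (8 + t) := by linarith
  have ha0 : 0 < al (8 + t) := by rw [hal]; positivity
  have ha1 : al (8 + t) ≤ 1 := by rw [hal, div_le_one hw]; linarith
  have hU := gu_exp (a := -al (8 + t)) (abs_le.mpr ⟨by linarith, by linarith⟩)
  have hL := show 1 - al (8 + t) ≤ exp (-al (8 + t)) by
    have := add_one_le_exp (-al (8 + t)); linarith
  refine le_trans ?_ (gu_key (x := 8 + t) (ε := -1)
    (U := 1 + -al (8 + t) + (-al (8 + t)) ^ (2 : ℕ) / 2 + (-al (8 + t)) ^ (3 : ℕ) / 6 +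
      5 / 96 * (-al (8 + t)) ^ (4 : ℕ))
    (L := 1 - al (8 + t)) (by linarith) (by positivity)
    ha0.le (by simpa only [one_mul, neg_one_mul, neg_mul] using hU) (by rw [hal, sub_pos, div_lt_one hw]; linarith)
    (by simpa only [one_mul, neg_one_mul, neg_mul] using hL))
  have e2 : 1 - al (8 + t) = (88 / 25 + t) / (1 + (8 + t)) := by
    rw [hal]; field_simp; ring
  rw [e2, hal, ← sub_nonneg]
  field_simp
  ring_nf
  positivity

theorem gu13 {x : ℝ} (h : 8 ≤ x) :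
    25 / 2 ≤ Gq x 0 (1231 / 1000 * (x - 1571 / 1000)) 1 := by
  obtain ⟨t, ht, rfl⟩ : ∃ t : ℝ, 0 ≤ t ∧ x = 8 + t := ⟨x - 8, by linarith, by ring⟩
  have hal := al_big (x := 8 + t) (by linarith)
  have hw : (0 : ℝ) < 1 + (8 + t) := by linarith
  have ha0 : 0 < al (8 + t) := by rw [hal]; positivity
  have ha1 : al (8 + t) ≤ 1 := by rw [hal, div_le_one hw]; linarith
  have hU := gu_exp (a := al (8 + t)) (abs_le.mpr ⟨by linarith, ha1⟩)
  have hL := show 1 + al (8 + t) ≤ exp (al (8 + t)) by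
    have := add_one_le_exp (al (8 + t)); linarith
  refine le_trans ?_ (gu_key (x := 8 + t) (ε := 1)
    (U := 1 + al (8 + t) + al (8 + t) ^ (2 : ℕ) / 2 + al (8 + t) ^ (3 : ℕ) / 6 +
      5 / 96 * al (8 + t) ^ (4 : ℕ))
    (L := 1 + al (8 + t)) (by linarith) (by linarith)
    ha0.le (by simpa only [one_mul, neg_one_mul, neg_mul] using hU) (by linarith)
    (by simpa only [one_mul, neg_one_mul, neg_mul] using hL))
  have e1 : (8 : ℝ) + t - 1571 / 1000 = 6429 / 1000 + t := by ring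
  rw [hal, e1, ← sub_nonneg]
  field_simp
  ring_nf
  positivity

theorem gu11 {x : ℝ} (h : 8 ≤ x) :
    87 / 10 ≤ Gq x (1571 / 1000 / (x - 9 / 10)) (1231 / 1000 * (x - 1571 / 1000)) (-1) := by
  obtain ⟨t, ht, rfl⟩ : ∃ t : ℝ, 0 ≤ t ∧ x = 8 + t := ⟨x - 8, by linarith, by ring⟩
  have hal := al_big (x := 8 + t) (by linarith)
  have hw : (0 : ℝ) < 1 + (8 + t) := by linarith
  have ha0 : 0 < al (8 + t) := by rw [hal]; positivity
  have ha1 : al (8 + t) ≤ 1 := by rw [hal, div_le_one hw]; linarith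
  have hU := gu_exp (a := -al (8 + t)) (abs_le.mpr ⟨by linarith, by linarith⟩)
  have hL := gu_exp_low ha0.le ha1
  refine le_trans ?_ (gu_key (x := 8 + t) (ε := -1)
    (U := 1 + -al (8 + t) + (-al (8 + t)) ^ (2 : ℕ) / 2 + (-al (8 + t)) ^ (3 : ℕ) / 6 +
      5 / 96 * (-al (8 + t)) ^ (4 : ℕ))
    (L := 1 - al (8 + t) + al (8 + t) ^ (2 : ℕ) / 2 - al (8 + t) ^ (3 : ℕ) / 6) (by linarith) (by linarith)
    (by rw [hal, div_le_div_iff₀ (by linarith) hw]; linarith) (by simpa only [one_mul, neg_one_mul, neg_mul] using hU) (by linarith [ha0, ha1, mul_pos ha0 ha0, mul_nonneg (mul_pos ha0 ha0).le (sub_nonneg.mpr ha1)])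
    (by simpa only [one_mul, neg_one_mul, neg_mul] using hL))
  have e1 : (8 : ℝ) + t - 1571 / 1000 = 6429 / 1000 + t := by ring
  have e3 : (8 : ℝ) + t - 9 / 10 = 71 / 10 + t := by ring
  have e2 : 1 - al (8 + t) + al (8 + t) ^ (2 : ℕ) / 2 - al (8 + t) ^ (3 : ℕ) / 6 =
      (18413861/46875 + 199219/1250 * t + 538/25 * t ^ (2 : ℕ) + t ^ (3 : ℕ)) / (1 + (8 + t)) ^ (3 : ℕ) := by
    rw [hal]; field_simp; ring
  rw [e2, hal, e1, e3, ← sub_nonneg]
  field_simp
  ring_nf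
  positivity

end SokamV3T

end

/-! ### Lib_MP_af4de1_v3.TailGR -/

section
/-!
# Lump exponents, `y ≤ 0`, bounded `x`

`al x = 1` for `x ≤ 112/25`, `al x = 137/25/(1+x)` beyond (`al_small`, `al_big`).  Method: `v = 1/(1+x)`, `x = (1-v)/v`,
`α = 137/25 v`, `m` = the given rational function of `v`; Taylor polynomials for `exp` (upper bound in `Aq`, lower bound in the
square term), `π ≥ 3.1415` where it stands with a positive sign; clear denominators, polynomial in `v` on an interval.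
(On bounded intervals `x` itself may be used as the variable.)
True minima: 13.16 (at 3.86, both), 10.37 (at 6.5), 9.609 (at 7.3), 8.987 (at 8); 2.115 and 1.501 (at 8).
-/

set_option autoImplicit false

namespace SokamV3T

open Real

private theorem exp_gr {t : ℝ} (h0 : 0 ≤ t) (h1 : t ≤ 1) :
    1 - t + t ^ (2 : ℕ) / 2 - t ^ (3 : ℕ) / 6 ≤ exp (-t) ∧
      exp (-t) ≤ 1 - t + t ^ (2 : ℕ) / 2 - t ^ (3 : ℕ) / 6 + t ^ (4 : ℕ) / 24 + t ^ (5 : ℕ) / 100 ∧
      exp t ≤ 1 + t + t ^ (2 : ℕ) / 2 + t ^ (3 : ℕ) / 6 + t ^ (4 : ℕ) / 24 + t ^ (5 : ℕ) / 100 := by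
  have ha : |t| ≤ 1 := by rw [abs_of_nonneg h0]; exact h1
  have hb : |-t| ≤ 1 := by rw [abs_neg]; exact ha
  have e1 := Real.exp_bound ha (n := 5) (by norm_num)
  have e2 := Real.exp_bound hb (n := 5) (by norm_num)
  rw [abs_neg, abs_of_nonneg h0] at e2
  rw [abs_of_nonneg h0] at e1
  simp only [Finset.sum_range_succ, Finset.sum_range_zero, Nat.factorial, Nat.succ_eq_add_one] at e1 e2
  norm_num at e1 e2
  rw [abs_le] at e1 e2
  have h2 : t ^ (5 : ℕ) ≤ t ^ (4 : ℕ) := pow_le_pow_of_le_one h0 h1 (by norm_num)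
  have h3 : 0 ≤ t ^ (4 : ℕ) := by positivity
  have h4 : 0 ≤ t ^ (5 : ℕ) := by positivity
  refine ⟨?_, ?_, ?_⟩
  · linarith only [e2, h2]
  · linarith only [e2.2]
  · linarith only [e1.2]

/-- the polynomial -/
private noncomputable def PG (v B : ℝ) : ℝ :=
  793 / 100 * (1 - 137 / 25 * v + (137 / 25 * v) ^ (2 : ℕ) / 2 - (137 / 25 * v) ^ (3 : ℕ) / 6) *
      (v * (137 / 25 * (1 - 19 / 10 * v) - 1571 / 1000) *
          (6283 / 1000 * ((1 - 19 / 10 * v) * (1 - v)) - 1571 / 1000 * v ^ (2 : ℕ)) -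
        (1 - v) ^ (2 : ℕ) * (1 - 19 / 10 * v) ^ (2 : ℕ) * v *
          ((137 / 25) ^ (2 : ℕ) / 2 - (137 / 25) ^ (3 : ℕ) * v / 6 + (137 / 25) ^ (4 : ℕ) * v ^ (2 : ℕ) / 24 + (137 / 25) ^ (5 : ℕ) * v ^ (3 : ℕ) / 100) -
        (1 - 137 / 25 * v + v ^ (2 : ℕ) * ((137 / 25) ^ (2 : ℕ) / 2 - (137 / 25) ^ (3 : ℕ) * v / 6 + (137 / 25) ^ (4 : ℕ) * v ^ (2 : ℕ) / 24 +
          (137 / 25) ^ (5 : ℕ) * v ^ (3 : ℕ) / 100)) * ((1571 / 1000) ^ (2 : ℕ) * v ^ (3 : ℕ) / 2)) -
    v * (793 / 100 * (v * (137 / 25 * (1 - 19 / 10 * v) - 1571 / 1000)) + 69 / 100 * (1 - 19 / 10 * v)) ^ (2 : ℕ) /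
      (4 / 5 * (793 / 100)) -
    69 / 100 * (1571 / 1000 * v ^ (2 : ℕ)) * (1 - 19 / 10 * v) *
      (1 - 137 / 25 * v + (137 / 25 * v) ^ (2 : ℕ) / 2 - (137 / 25 * v) ^ (3 : ℕ) / 6) -
    B * ((1 - 19 / 10 * v) ^ (2 : ℕ) * (1 - v) * (1 - 137 / 25 * v + (137 / 25 * v) ^ (2 : ℕ) / 2 - (137 / 25 * v) ^ (3 : ℕ) / 6))

private theorem core_gr {v x B : ℝ} (hv : 0 < v) (hv1 : v ≤ 25 / 137) (hx : x = (1 - v) / v) (hP : 0 ≤ PG v B) :
    B ≤ Gq x (1571 / 1000 / (x - 9 / 10)) (793 / 100) (-1) := by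
  have hD1 : 0 < 1 - 19 / 10 * v := by linarith only [hv1]
  have hD2 : 0 < 1 - v := by linarith only [hD1]
  have hx0 : 0 < x := by rw [hx]; positivity
  have hx1 : 1 + x = 1 / v := by rw [hx]; field_simp; ring
  have hxb : 112 / 25 ≤ x := by
    rw [hx, le_div_iff₀ hv]
    linarith only [hv1]
  have hal : al x = 137 / 25 * v := by
    rw [al_big hxb, hx1]
    field_simp
  have hm : 1571 / 1000 / (x - 9 / 10) = 1571 / 1000 * v / (1 - 19 / 10 * v) := by
    have h1 : x - 9 / 10 = (1 - 19 / 10 * v) / v := by rw [hx]; field_simp; ring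
    rw [h1, div_div_eq_mul_div]
  have ht0 : 0 ≤ 137 / 25 * v := by positivity
  have ht1 : 137 / 25 * v ≤ 1 := by linarith only [hv1]
  obtain ⟨hL, hU, -⟩ := exp_gr ht0 ht1
  have hL0 : 0 < 1 - 137 / 25 * v + (137 / 25 * v) ^ (2 : ℕ) / 2 - (137 / 25 * v) ^ (3 : ℕ) / 6 := by
    obtain ⟨t, ht⟩ : ∃ t, t = 137 / 25 * v := ⟨_, rfl⟩
    rw [← ht] at ht0 ht1 ⊢
    nlinarith only [ht1]
  have hpi : (3.1415 : ℝ) < π := Real.pi_gt_d4
  have hN : 0 ≤ 137 / 25 * (1 - 19 / 10 * v) - 1571 / 1000 := by linarith only [ht1]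
  unfold Gq Aq
  rw [hal, hm, show (-1 : ℝ) * (137 / 25 * v) = -(137 / 25 * v) by ring]
  unfold PG at hP
  have hWe : (137 / 25 * v) ^ (2 : ℕ) / 2 - (137 / 25 * v) ^ (3 : ℕ) / 6 + (137 / 25 * v) ^ (4 : ℕ) / 24 + (137 / 25 * v) ^ (5 : ℕ) / 100 =
      v ^ (2 : ℕ) * ((137 / 25) ^ (2 : ℕ) / 2 - (137 / 25) ^ (3 : ℕ) * v / 6 + (137 / 25) ^ (4 : ℕ) * v ^ (2 : ℕ) / 24 +
          (137 / 25) ^ (5 : ℕ) * v ^ (3 : ℕ) / 100) := by ring
  have hU' : exp (-(137 / 25 * v)) ≤ 1 - 137 / 25 * v + v ^ (2 : ℕ) * ((137 / 25) ^ (2 : ℕ) / 2 - (137 / 25) ^ (3 : ℕ) * v / 6 +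
      (137 / 25) ^ (4 : ℕ) * v ^ (2 : ℕ) / 24 + (137 / 25) ^ (5 : ℕ) * v ^ (3 : ℕ) / 100) := by
    linarith only [hU]
  generalize (137 / 25) ^ (2 : ℕ) / 2 - (137 / 25) ^ (3 : ℕ) * v / 6 + (137 / 25) ^ (4 : ℕ) * v ^ (2 : ℕ) / 24 +
      (137 / 25) ^ (5 : ℕ) * v ^ (3 : ℕ) / 100 = W at hU' hP
  generalize exp (-(137 / 25 * v)) = E at hL hU' ⊢
  generalize 1 - 137 / 25 * v + (137 / 25 * v) ^ (2 : ℕ) / 2 - (137 / 25 * v) ^ (3 : ℕ) / 6 = L at hL hL0 hP
  generalize 1 - 19 / 10 * v = D1 at hD1 hN hP ⊢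
  generalize hD2e : 1 - v = D2 at hD2 hP hx
  have h1 : (137 / 25 * v - 1571 / 1000 * v / D1) = v * (137 / 25 * D1 - 1571 / 1000) / D1 := by
    field_simp
  have h2 : 0 ≤ 137 / 25 * v - 1571 / 1000 * v / D1 := by
    rw [h1]
    positivity
  have h3 : (137 / 25 * v - 1571 / 1000 * v / D1) * (6283 / 1000 - 1571 / 1000 * v / D1 / x) ≤
      (137 / 25 * v - 1571 / 1000 * v / D1) * (2 * π - 1571 / 1000 * v / D1 / x) :=
    mul_le_mul_of_nonneg_left (by linarith only [hpi]) h2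
  have h4 : E * (x + (1571 / 1000 * v / D1) ^ (2 : ℕ) / (2 * x)) ≤
      (1 - 137 / 25 * v + v ^ (2 : ℕ) * W) * (x + (1571 / 1000 * v / D1) ^ (2 : ℕ) / (2 * x)) :=
    mul_le_mul_of_nonneg_right hU' (by positivity)
  have h5 : (793 / 100 * (137 / 25 * v - 1571 / 1000 * v / D1) + 69 / 100) ^ (2 : ℕ) / (4 / 5 * (E * x * (793 / 100))) ≤
      (793 / 100 * (137 / 25 * v - 1571 / 1000 * v / D1) + 69 / 100) ^ (2 : ℕ) / (4 / 5 * (L * x * (793 / 100))) := by
    refine div_le_div_of_nonneg_left (sq_nonneg _) (by positivity) ?_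
    have h6 : L * x ≤ E * x := mul_le_mul_of_nonneg_right hL hx0.le
    linarith only [h6]
  have h7 : 793 / 100 * ((137 / 25 * v - 1571 / 1000 * v / D1) * (6283 / 1000 - 1571 / 1000 * v / D1 / x) +
        x * (1 + -(137 / 25 * v)) - (1 - 137 / 25 * v + v ^ (2 : ℕ) * W) * (x + (1571 / 1000 * v / D1) ^ (2 : ℕ) / (2 * x))) -
      (793 / 100 * (137 / 25 * v - 1571 / 1000 * v / D1) + 69 / 100) ^ (2 : ℕ) / (4 / 5 * (L * x * (793 / 100))) -
      69 / 100 * (1571 / 1000 * v / D1 / x) - B =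
      (793 / 100 * L * (v * (137 / 25 * D1 - 1571 / 1000) * (6283 / 1000 * (D1 * D2) - 1571 / 1000 * v ^ (2 : ℕ)) -
          D2 ^ (2 : ℕ) * D1 ^ (2 : ℕ) * v * W -
          (1 - 137 / 25 * v + v ^ (2 : ℕ) * W) * ((1571 / 1000) ^ (2 : ℕ) * v ^ (3 : ℕ) / 2)) -
        v * (793 / 100 * (v * (137 / 25 * D1 - 1571 / 1000)) + 69 / 100 * D1) ^ (2 : ℕ) / (4 / 5 * (793 / 100)) -
        69 / 100 * (1571 / 1000 * v ^ (2 : ℕ)) * D1 * L - B * (D1 ^ (2 : ℕ) * D2 * L)) / (D1 ^ (2 : ℕ) * D2 * L) := by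
    rw [hx]
    field_simp
    ring
  have h8 : 0 ≤ (793 / 100 * L * (v * (137 / 25 * D1 - 1571 / 1000) * (6283 / 1000 * (D1 * D2) - 1571 / 1000 * v ^ (2 : ℕ)) -
          D2 ^ (2 : ℕ) * D1 ^ (2 : ℕ) * v * W -
          (1 - 137 / 25 * v + v ^ (2 : ℕ) * W) * ((1571 / 1000) ^ (2 : ℕ) * v ^ (3 : ℕ) / 2)) -
        v * (793 / 100 * (v * (137 / 25 * D1 - 1571 / 1000)) + 69 / 100 * D1) ^ (2 : ℕ) / (4 / 5 * (793 / 100)) -
        69 / 100 * (1571 / 1000 * v ^ (2 : ℕ)) * D1 * L - B * (D1 ^ (2 : ℕ) * D2 * L)) / (D1 ^ (2 : ℕ) * D2 * L) :=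
    div_nonneg hP (by positivity)
  rw [← h7] at h8
  linarith only [h3, h4, h5, h8]

private theorem bern_gr (f : ℝ → ℝ → ℝ) {lo hi v : ℝ} (h1 : lo ≤ v) (h2 : v ≤ hi)
    (hf : ∀ s r : ℝ, 0 ≤ s → 0 ≤ r → 0 ≤ f s r) : 0 ≤ f (v - lo) (hi - v) :=
  hf _ _ (sub_nonneg.2 h1) (sub_nonneg.2 h2)

private theorem pg8 {v : ℝ} (h1 : 133 / 1000 ≤ v) (h2 : v ≤ 73 / 400) : 0 ≤ PG v (97 / 10) := by
  have h := bern_gr (fun s r : ℝ =>
      4413504993142590535361145084583317431112309117575528262539 / 190437707920207359455506691336631774902343750 * r ^ (11 : ℕ) +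
      2523862228570890960846283112596072775258290682747864820059 / 6925007560734813071109334230422973632812500 * s ^ (1 : ℕ) * r ^ (10 : ℕ) +
      1237643352910646132607686156583024307642414469926959321179 / 554000604858785045688746738433837890625000 * s ^ (2 : ℕ) * r ^ (9 : ℕ) +
      43006346441372164956063224531468936747258244564064447223 / 5682057485731128673730735778808593750000 * s ^ (3 : ℕ) * r ^ (8 : ℕ) +
      239462047018374400613604069321928732149294735690930986219 / 14773349462900934551699913024902343750000 * s ^ (4 : ℕ) * r ^ (7 : ℕ) +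
      690372834449748949198374843828342680520886976220525562973 / 29546698925801869103399826049804687500000 * s ^ (5 : ℕ) * r ^ (6 : ℕ) +
      275445201551655943292508047087441008709546502333541651613 / 11818679570320747641359930419921875000000 * s ^ (6 : ℕ) * r ^ (5 : ℕ) +
      15265907097426296119223356111385003068514872808326260779 / 945494365625659811308794433593750000000 * s ^ (7 : ℕ) * r ^ (4 : ℕ) +
      5766639829704315732015325114602455270350441149325831499 / 756395492500527849047035546875000000000 * s ^ (8 : ℕ) * r ^ (3 : ℕ) +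
      192685832070539489139066385372668686685832013039556529 / 82515871909148492623312968750000000000 * s ^ (9 : ℕ) * r ^ (2 : ℕ) +
      58142921977522464987871324659533518313868618576296903 / 139642244769328218285606562500000000000 * s ^ (10 : ℕ) * r ^ (1 : ℕ) +
      19999880228933843669337176839076759818407472184677943 / 614425876985044160456668875000000000000 * s ^ (11 : ℕ))
    h1 h2 (fun s r hs hr => by positivity)
  refine h.trans (le_of_eq ?_)
  unfold PG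
  ring

private theorem pg9 {v : ℝ} (h1 : 3 / 25 ≤ v) (h2 : v ≤ 667 / 5000) : 0 ≤ PG v (179 / 20) := by
  have h := bern_gr (fun s r : ℝ =>
      3206394046276659266634439057283482868537884672 / 60530747121024773466761875 * r ^ (11 : ℕ) +
      997662877145255214376840421884794133508982439936 / 1513268678025619336669046875 * s ^ (1 : ℕ) * r ^ (10 : ℕ) +
      83046897942650091378110745146977776042921425649664 / 22699030170384290050035703125 * s ^ (2 : ℕ) * r ^ (9 : ℕ) +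
      6810713541194194730123663108415540708968826920820736 / 567475754259607251250892578125 * s ^ (3 : ℕ) * r ^ (8 : ℕ) +
      122654395291548809878943194835694897049653796243144192 / 4728964618830060427090771484375 * s ^ (4 : ℕ) * r ^ (7 : ℕ) +
      206718201033830502697675445051732768596855408355812727168 / 5320085196183817980477117919921875 * s ^ (5 : ℕ) * r ^ (6 : ℕ) +
      609485677296176645620668165914991810197732657038669073616 / 14778014433843938834658660888671875 * s ^ (6 : ℕ) * r ^ (5 : ℕ) +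
      1588539595954357100413875731779689543254117347292508992597 / 51154665347921326735356903076171875 * s ^ (7 : ℕ) * r ^ (4 : ℕ) +
      2164002393504942340347124879769097059185636880343875466946327 / 133002129904595449511927947998046875000 * s ^ (8 : ℕ) * r ^ (3 : ℕ) +
      300792615532505964004598589546636146421258394557048423958540927 / 53200851961838179804771179199218750000000 * s ^ (9 : ℕ) * r ^ (2 : ℕ) +
      6936612193672104431005501382047856406603056205605460991991158317 / 5911205773537575533863464355468750000000000 * s ^ (10 : ℕ) * r ^ (1 : ℕ) +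
      65176150961904454390963115304303638045245889549602781425184221429 / 591120577353757553386346435546875000000000000 * s ^ (11 : ℕ))
    h1 h2 (fun s r hs hr => by positivity)
  refine h.trans (le_of_eq ?_)
  unfold PG
  ring

private theorem pg10 {v : ℝ} (h1 : 111 / 1000 ≤ v) (h2 : v ≤ 241 / 2000) : 0 ≤ PG v (44 / 5) := by
  have h := bern_gr (fun s r : ℝ =>
      8962516102048808748025568922738808489132285596407878061 / 21177249529335972666740417480468750 * r ^ (11 : ℕ) +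
      334026001400405211634859712818310505861126841486288156101 / 42354499058671945333480834960937500 * s ^ (1 : ℕ) * r ^ (10 : ℕ) +
      36383671150815056207364603689584951832686139409957618981809 / 660730185315282347202301025390625000 * s ^ (2 : ℕ) * r ^ (9 : ℕ) +
      278243880543285108387969483197226161748265931699855248068337 / 1321460370630564694404602050781250000 * s ^ (3 : ℕ) * r ^ (8 : ℕ) +
      224121130692039921554303367057917424634007040463201851353849 / 440486790210188231468200683593750000 * s ^ (4 : ℕ) * r ^ (7 : ℕ) +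
      32940362054519312765895629330513818327267527008491070990405197 / 39643811118916940832138061523437500000 * s ^ (5 : ℕ) * r ^ (6 : ℕ) +
      8328538714883189951681968382481476056538096716322614553758023 / 8809735804203764629364013671875000000 * s ^ (6 : ℕ) * r ^ (5 : ℕ) +
      1839827065710456022902888141783002061416394273749480316700687 / 2439619145779504051208496093750000000 * s ^ (7 : ℕ) * r ^ (4 : ℕ) +
      52658149530257857902333453082222476261928821013479774689102161 / 126860195580534210662841796875000000000 * s ^ (8 : ℕ) * r ^ (3 : ℕ) +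
      38202240934652722556720404908886256594806101014428460989597097 / 253720391161068421325683593750000000000 * s ^ (9 : ℕ) * r ^ (2 : ℕ) +
      27455134621515238337959468279500685680397763309108097115580369 / 845734637203561404418945312500000000000 * s ^ (10 : ℕ) * r ^ (1 : ℕ) +
      1779747129969070808535294786119809560453085135377424983669883 / 563823091469040936279296875000000000000 * s ^ (11 : ℕ))
    h1 h2 (fun s r hs hr => by positivity)
  refine h.trans (le_of_eq ?_)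
  unfold PG
  ring

private theorem pp1 {v : ℝ} (h1 : 111 / 1000 ≤ v) (h2 : v ≤ 73 / 400) : 0 ≤ 137 / 25 * (137 / 25 * v) + (1 - v) * v * (-(137 / 25) ^ (2 : ℕ) / 2 + (137 / 25) ^ (3 : ℕ) * v / 6 - (137 / 25) ^ (4 : ℕ) * v ^ (2 : ℕ) / 24 - (137 / 25) ^ (5 : ℕ) * v ^ (3 : ℕ) / 100) - 2 := by
  have h := bern_gr (fun s r : ℝ =>
      779379037703478711146456 / 14598903550537109375 * r ^ (5 : ℕ) +
      647606366488784792320164 / 583956142021484375 * s ^ (1 : ℕ) * r ^ (4 : ℕ) +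
      1386947505153128213714596 / 350373685212890625 * s ^ (2 : ℕ) * r ^ (3 : ℕ) +
      134140824304389950808258 / 23358245680859375 * s ^ (3 : ℕ) * r ^ (2 : ℕ) +
      105935070091947798341281 / 28029894817031250 * s ^ (4 : ℕ) * r ^ (1 : ℕ) +
      17556379158283191370201 / 18686596544687500 * s ^ (5 : ℕ))
    h1 h2 (fun s r hs hr => by positivity)
  refine h.trans (le_of_eq ?_)
  ring

private theorem pp2 {v : ℝ} (h1 : 111 / 1000 ≤ v) (h2 : v ≤ 73 / 400) : 0 ≤ 137 / 25 * (137 / 25 * v) + (1 - v) * v * (-(137 / 25) ^ (2 : ℕ) / 2 - (137 / 25) ^ (3 : ℕ) * v / 6 - (137 / 25) ^ (4 : ℕ) * v ^ (2 : ℕ) / 24 - (137 / 25) ^ (5 : ℕ) * v ^ (3 : ℕ) / 100) - 29 / 20 := by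
  have h := bern_gr (fun s r : ℝ =>
      34735545272179882831496 / 1327173050048828125 * r ^ (5 : ℕ) +
      2821098592846899110084 / 4826083818359375 * s ^ (1 : ℕ) * r ^ (4 : ℕ) +
      64746950994778655792236 / 31852153201171875 * s ^ (2 : ℕ) * r ^ (3 : ℕ) +
      18160764708007850220434 / 6370430640234375 * s ^ (3 : ℕ) * r ^ (2 : ℕ) +
      1538199306872721161857 / 849390752031250 * s ^ (4 : ℕ) * r ^ (1 : ℕ) +
      738217491723017397291 / 1698781504062500 * s ^ (5 : ℕ))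
    h1 h2 (fun s r hs hr => by positivity)
  refine h.trans (le_of_eq ?_)
  ring

private theorem inv_gr {x : ℝ} (hx : 0 < x) : 0 < 1 / (1 + x) ∧ x = (1 - 1 / (1 + x)) / (1 / (1 + x)) := by
  refine ⟨by positivity, ?_⟩
  field_simp
  ring

private theorem e1_gr : (367 / 1000 : ℝ) ≤ exp (-1) ∧ exp (-1) ≤ 368 / 1000 := by
  have h1 := Real.exp_one_gt_d9
  have h2 := Real.exp_one_lt_d9
  rw [Real.exp_neg]
  constructor
  · rw [le_inv_comm₀ (by norm_num) (by positivity)]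
    refine h2.le.trans ?_
    norm_num
  · rw [inv_le_comm₀ (by positivity) (by norm_num)]
    refine le_trans ?_ h1.le
    norm_num

/-- the case `α = 1` -/
private theorem small_gr {x m : ℝ} (h : 3 ≤ x) (h' : x ≤ 112 / 25) (hm0 : 0 ≤ m) (hm : m ≤ 531 / 1000)
    (hP : 0 ≤ 11 * ((1 - m) * (6283 / 1000 * x - m) - 368 / 1000 * (x ^ (2 : ℕ) + m ^ (2 : ℕ) / 2)) -
      (11 * (1 - m) + 69 / 100) ^ (2 : ℕ) / (3229 / 1000) - 69 / 100 * m - 21 / 2 * x) :
    21 / 2 ≤ Gq x m 11 (-1) := by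
  have hx0 : 0 < x := by linarith only [h]
  obtain ⟨hL, hU⟩ := e1_gr
  have hpi : (3.1415 : ℝ) < π := Real.pi_gt_d4
  unfold Gq Aq
  rw [al_small hx0.le h', mul_one]
  have h1 : (1 - m) * (6283 / 1000 - m / x) ≤ (1 - m) * (2 * π - m / x) :=
    mul_le_mul_of_nonneg_left (by linarith only [hpi]) (by linarith only [hm])
  have h2 : exp (-1) * (x + m ^ (2 : ℕ) / (2 * x)) ≤ 368 / 1000 * (x + m ^ (2 : ℕ) / (2 * x)) :=
    mul_le_mul_of_nonneg_right hU (by positivity)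
  have h3 : (11 * (1 - m) + 69 / 100) ^ (2 : ℕ) / (4 / 5 * (exp (-1) * x * 11)) ≤
      (11 * (1 - m) + 69 / 100) ^ (2 : ℕ) / (3229 / 1000 * x) := by
    refine div_le_div_of_nonneg_left (sq_nonneg _) (by positivity) ?_
    have h6 : 367 / 1000 * x ≤ exp (-1) * x := mul_le_mul_of_nonneg_right hL hx0.le
    linarith only [hx0, h6]
  have h4 : 11 * ((1 - m) * (6283 / 1000 - m / x) + x * (1 + -1) - 368 / 1000 * (x + m ^ (2 : ℕ) / (2 * x))) -
      (11 * (1 - m) + 69 / 100) ^ (2 : ℕ) / (3229 / 1000 * x) - 69 / 100 * (m / x) - 21 / 2 =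
      (11 * ((1 - m) * (6283 / 1000 * x - m) - 368 / 1000 * (x ^ (2 : ℕ) + m ^ (2 : ℕ) / 2)) -
      (11 * (1 - m) + 69 / 100) ^ (2 : ℕ) / (3229 / 1000) - 69 / 100 * m - 21 / 2 * x) / x := by
    field_simp
    ring
  have h5 := div_nonneg hP hx0.le
  rw [← h4] at h5
  linarith only [h1, h2, h3, h5]

theorem gr7a {x : ℝ} (h : 3 ≤ x) (h' : x ≤ 387 / 100) :
    21 / 2 ≤ Gq x (53 / 100) 11 (-1) := by
  refine small_gr h (by linarith only [h']) (by norm_num) (by norm_num) ?_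
  nlinarith [mul_nonneg (sub_nonneg.2 h) (sub_nonneg.2 h')]

theorem gr7b {x : ℝ} (h : 386 / 100 ≤ x) (h' : x ≤ 112 / 25) :
    21 / 2 ≤ Gq x (1571 / 1000 / (x - 9 / 10)) 11 (-1) := by
  have h0 : 0 < x - 9 / 10 := by linarith only [h]
  have hm0 : 0 ≤ 1571 / 1000 / (x - 9 / 10) := by positivity
  have hm : 1571 / 1000 / (x - 9 / 10) ≤ 531 / 1000 := by
    rw [div_le_iff₀ h0]
    linarith only [h]
  refine small_gr (by linarith only [h]) h' hm0 hm ?_
  generalize 1571 / 1000 / (x - 9 / 10) = m at hm0 hm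
  nlinarith only [h, h', hm0, hm]

theorem gr8 {x : ℝ} (h : 112 / 25 ≤ x) (h' : x ≤ 13 / 2) :
    97 / 10 ≤ Gq x (1571 / 1000 / (x - 9 / 10)) (793 / 100) (-1) := by
  have hx0 : 0 < x := by linarith only [h]
  obtain ⟨hv, hxv⟩ := inv_gr hx0
  have h0 : 0 < 1 + x := by linarith only [hx0]
  refine core_gr hv ?_ hxv (pg8 ?_ ?_)
  · rw [div_le_iff₀ h0]
    linarith only [h]
  · rw [le_div_iff₀ h0]
    linarith only [h']
  · rw [div_le_iff₀ h0]
    linarith only [h]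

theorem gr9 {x : ℝ} (h : 13 / 2 ≤ x) (h' : x ≤ 73 / 10) :
    179 / 20 ≤ Gq x (1571 / 1000 / (x - 9 / 10)) (793 / 100) (-1) := by
  have hx0 : 0 < x := by linarith only [h]
  obtain ⟨hv, hxv⟩ := inv_gr hx0
  have h0 : 0 < 1 + x := by linarith only [hx0]
  refine core_gr hv ?_ hxv (pg9 ?_ ?_)
  · rw [div_le_iff₀ h0]
    linarith only [h]
  · rw [le_div_iff₀ h0]
    linarith only [h']
  · rw [div_le_iff₀ h0]
    linarith only [h]

theorem gr10 {x : ℝ} (h : 73 / 10 ≤ x) (h' : x ≤ 8) :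
    44 / 5 ≤ Gq x (1571 / 1000 / (x - 9 / 10)) (793 / 100) (-1) := by
  have hx0 : 0 < x := by linarith only [h]
  obtain ⟨hv, hxv⟩ := inv_gr hx0
  have h0 : 0 < 1 + x := by linarith only [hx0]
  refine core_gr hv ?_ hxv (pg10 ?_ ?_)
  · rw [div_le_iff₀ h0]
    linarith only [h]
  · rw [le_div_iff₀ h0]
    linarith only [h']
  · rw [div_le_iff₀ h0]
    linarith only [h]

/-- plain height beyond `s = 137/25`, left side -/
theorem pb1 {x : ℝ} (h : 3 ≤ x) (h' : x ≤ 8) :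
    2 ≤ 137 / 25 * al x + x * (1 - al x - exp (-al x)) := by
  have hx0 : 0 < x := by linarith only [h]
  rcases le_total x (112 / 25) with h1 | h1
  · rw [al_small hx0.le h1]
    have h2 := mul_le_mul_of_nonneg_left e1_gr.2 hx0.le
    linarith only [h1, h2]
  · obtain ⟨hv, hxv⟩ := inv_gr hx0
    have h0 : 0 < 1 + x := by linarith only [h1]
    have hal : al x = 137 / 25 * (1 / (1 + x)) := by
      rw [al_big h1]
      ring
    rw [hal]
    have hlo : 111 / 1000 ≤ 1 / (1 + x) := by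
      rw [le_div_iff₀ h0]
      linarith only [h']
    have hhi : 1 / (1 + x) ≤ 73 / 400 := by
      rw [div_le_iff₀ h0]
      linarith only [h1]
    have hhi' : 1 / (1 + x) ≤ 25 / 137 := by
      rw [div_le_iff₀ h0]
      linarith only [h1]
    generalize 1 / (1 + x) = v at *
    obtain ⟨-, hU, -⟩ := exp_gr (t := 137 / 25 * v) (by positivity) (by linarith only [hhi'])
    have h2 := mul_le_mul_of_nonneg_left hU hx0.le
    have h3 := pp1 hlo hhi
    have h4 : x * (1 - 137 / 25 * v - (1 - 137 / 25 * v + (137 / 25 * v) ^ (2 : ℕ) / 2 - (137 / 25 * v) ^ (3 : ℕ) / 6 +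
        (137 / 25 * v) ^ (4 : ℕ) / 24 + (137 / 25 * v) ^ (5 : ℕ) / 100)) = (1 - v) * v * (-(137 / 25) ^ (2 : ℕ) / 2 +
        (137 / 25) ^ (3 : ℕ) * v / 6 - (137 / 25) ^ (4 : ℕ) * v ^ (2 : ℕ) / 24 - (137 / 25) ^ (5 : ℕ) * v ^ (3 : ℕ) / 100) := by
      rw [hxv]
      field_simp
      ring
    linarith only [h2, h3, h4]

/-- plain height beyond `s = 137/25`, right side -/
theorem pb2 {x : ℝ} (h : 3 ≤ x) (h' : x ≤ 8) :
    29 / 20 ≤ 137 / 25 * al x + x * (1 + al x - exp (al x)) := by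
  have hx0 : 0 < x := by linarith only [h]
  rcases le_total x (112 / 25) with h1 | h1
  · rw [al_small hx0.le h1]
    have h2 := mul_le_mul_of_nonneg_left Real.exp_one_lt_d9.le hx0.le
    linarith only [h1, h2]
  · obtain ⟨hv, hxv⟩ := inv_gr hx0
    have h0 : 0 < 1 + x := by linarith only [h1]
    have hal : al x = 137 / 25 * (1 / (1 + x)) := by
      rw [al_big h1]
      ring
    rw [hal]
    have hlo : 111 / 1000 ≤ 1 / (1 + x) := by
      rw [le_div_iff₀ h0]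
      linarith only [h']
    have hhi : 1 / (1 + x) ≤ 73 / 400 := by
      rw [div_le_iff₀ h0]
      linarith only [h1]
    have hhi' : 1 / (1 + x) ≤ 25 / 137 := by
      rw [div_le_iff₀ h0]
      linarith only [h1]
    generalize 1 / (1 + x) = v at *
    obtain ⟨-, -, hU⟩ := exp_gr (t := 137 / 25 * v) (by positivity) (by linarith only [hhi'])
    have h2 := mul_le_mul_of_nonneg_left hU hx0.le
    have h3 := pp2 hlo hhi
    have h4 : x * (1 + 137 / 25 * v - (1 + 137 / 25 * v + (137 / 25 * v) ^ (2 : ℕ) / 2 + (137 / 25 * v) ^ (3 : ℕ) / 6 +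
        (137 / 25 * v) ^ (4 : ℕ) / 24 + (137 / 25 * v) ^ (5 : ℕ) / 100)) = (1 - v) * v * (-(137 / 25) ^ (2 : ℕ) / 2 -
        (137 / 25) ^ (3 : ℕ) * v / 6 - (137 / 25) ^ (4 : ℕ) * v ^ (2 : ℕ) / 24 - (137 / 25) ^ (5 : ℕ) * v ^ (3 : ℕ) / 100) := by
      rw [hxv]
      field_simp
      ring
    linarith only [h2, h3, h4]


end SokamV3T

end
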