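import Pool.Agent.Lib_MP_af4de1_zy.Z46

/-! ### Lib_MP_af4de1_v3.TailSp -/

section
namespace SokamF1G
end SokamF1G
/-!
# Tails of regime I, `x ≤ 3`, `y ≥ 0`

`ε = 1`, `4 ≤ s ≤ 2 π`: the height is linear in `(x, y)`; vertices `(0,0)`, `(.7,.56)`, `(1.6102,.56)`, `(3,.396)`.
The other ranges are crude.
-/

set_option autoImplicit false

namespace SokamV3T

open Real SokamF1G

theorem hq_p (x y s : ℝ) : hq x y 1 s =
    ab x s * s + x * (1 + ab x s) - y * s - exp (ab x s) * (x * cos s) +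
      exp (ab x s) * (y * sin s) := by
  simp only [hq, Ha, one_mul]; ring

theorem hq_m (x y s : ℝ) : hq x y (-1) s =
    ab x s * s + x * (1 - ab x s) + y * s - exp (-ab x s) * (x * cos s) -
      exp (-ab x s) * (y * sin s) := by
  simp only [hq, Ha, neg_mul, one_mul, cos_neg, sin_neg]; ring

theorem ab_one {x s : ℝ} (hx : 0 ≤ x) (h3 : x ≤ 3) (hs : 1 + x ≤ s) : ab x s = 1 := by
  unfold ab
  rw [min_eq_right (by linarith : 1 + x ≤ 137 / 25), min_eq_left hs]
  exact div_self (by positivity)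

theorem ab_mul {x s : ℝ} (hx : 0 ≤ x) (h3 : x ≤ 3) (hs : s ≤ 1 + x) :
    ab x s * (1 + x) = s := by
  unfold ab
  rw [min_eq_right (by linarith : 1 + x ≤ 137 / 25), min_eq_right hs]
  field_simp

theorem ab_le1 {x s : ℝ} (hx : 0 ≤ x) : ab x s ≤ 1 := by
  unfold ab
  rw [div_le_one (by positivity)]
  exact (min_le_left _ _).trans (min_le_right _ _)

theorem ab_nn {x s : ℝ} (hx : 0 ≤ x) (hs : 0 ≤ s) : 0 ≤ ab x s := by
  unfold ab
  have : (0 : ℝ) ≤ min (min (137 / 25) (1 + x)) s :=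
    le_min (le_min (by norm_num) (by linarith only [hx])) hs
  positivity

theorem e1lt : exp 1 ≤ (27183 / 10000 : ℝ) := by
  have := Real.exp_one_lt_d9
  linarith only [this]

theorem e1gt : (27182 / 10000 : ℝ) ≤ exp 1 := by
  have := Real.exp_one_gt_d9
  linarith only [this]

/-- `cos s ≤ .0708` on `[3/2, 3 π / 2]` -/
theorem cos_le0708 {s : ℝ} (h1 : 3 / 2 ≤ s) (h2 : s ≤ 3 * π / 2) : cos s ≤ 708 / 10000 := by
  have hp := Real.pi_lt_d4
  rcases le_total s (π / 2) with h | h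
  · have h3 : cos s = sin (π / 2 - s) := by rw [sin_pi_div_two_sub]
    have h4 : sin (π / 2 - s) ≤ π / 2 - s := Real.sin_le (by linarith only [h])
    rw [h3]; linarith only [h1, hp, h4]
  · have := Real.cos_nonpos_of_pi_div_two_le_of_le h (by linarith only [h2])
    linarith only [this]

/-- the line bound for `y` -/
theorem lineA {x y K ρ d : ℝ} (h : RF x y K ρ d) (h3 : x ≤ 3) (hy : 0 ≤ y) :
    y ≤ 3 / 4 - 118 / 1000 * x := by
  by_contra hc
  push Not at hc
  have hi := h.hi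
  rcases le_total x (161 / 100) with h1 | h1
  · linarith only [hc, hi, h1]
  have hep := h.ep hy
  have hK := h.hK
  have hK0 := h.K0
  have hp := Real.pi_lt_d4
  obtain ⟨L, hL⟩ : ∃ L : ℝ, L = 3 / 4 - 118 / 1000 * x := ⟨_, rfl⟩
  rw [← hL] at hc
  have hx0 : 0 < x := by linarith only [h1]
  have hL0 : 0 < L := by rw [hL]; linarith only [h3]
  have hL1 : L ≤ 56003 / 100000 := by rw [hL]; linarith only [h1]
  -- K lower bound
  have hK1 : x + 4849 / 10000 * L ^ (2 : ℕ) / x ≤ K := by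
    refine (sq_le_sq₀ (by (clear * - h1 hL0; positivity)) hK0.le).mp ?_
    rw [hK]
    have e1 : (x + 4849 / 10000 * L ^ (2 : ℕ) / x) ^ (2 : ℕ) =
        x ^ (2 : ℕ) + 2 * (4849 / 10000) * L ^ (2 : ℕ) + (4849 / 10000) ^ (2 : ℕ) * L ^ (2 : ℕ) * (L / x) ^ (2 : ℕ) := by
      field_simp
      ring
    have e2 : L / x ≤ 348 / 1000 := by rw [div_le_iff₀ hx0]; linarith only [hL, hL1]
    have e3 : (L / x) ^ (2 : ℕ) ≤ (348 / 1000) ^ (2 : ℕ) := by gcongr
    have e4 : L ^ (2 : ℕ) ≤ y ^ (2 : ℕ) := by gcongr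
    rw [e1]
    nlinarith only [e3, e4]
  have hE : L + L ^ (2 : ℕ) / 2 + L ^ (3 : ℕ) / 6 ≤ exp y - 1 := by
    have a1 := e_ge3 hL0.le
    have a2 : exp L ≤ exp y := Real.exp_le_exp.mpr hc.le
    linarith only [a1, a2]
  have hyK : 94 / 100 * L / x ≤ y / K := by
    rw [div_le_div_iff₀ hx0 hK0]
    have b1 : 94 / 100 * K ≤ x := by
      refine (sq_le_sq₀ (by (clear * - hK0; positivity)) hx0.le).mp ?_
      rw [mul_pow, hK]
      nlinarith only [hc, hL, h.hi]
    nlinarith only [hc, hx0, hL0, b1]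
  have h5 : (x + 4849 / 10000 * L ^ (2 : ℕ) / x) * (L + L ^ (2 : ℕ) / 2 + L ^ (3 : ℕ) / 6) ≤ K * (exp y - 1) := by
    gcongr
  have h6 : (x + 4849 / 10000 * L ^ (2 : ℕ) / x) * (L + L ^ (2 : ℕ) / 2 + L ^ (3 : ℕ) / 6) + 94 / 100 * L / x ≤
      π / 2 := by linarith only [hep, hyK, h5]
  have h7 : (x ^ (2 : ℕ) + 4849 / 10000 * L ^ (2 : ℕ)) * (L + L ^ (2 : ℕ) / 2 + L ^ (3 : ℕ) / 6) + 94 / 100 * L ≤
      15708 / 10000 * x := by
    have h8 : (x ^ (2 : ℕ) + 4849 / 10000 * L ^ (2 : ℕ)) * (L + L ^ (2 : ℕ) / 2 + L ^ (3 : ℕ) / 6) + 94 / 100 * L =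
      ((x + 4849 / 10000 * L ^ (2 : ℕ) / x) * (L + L ^ (2 : ℕ) / 2 + L ^ (3 : ℕ) / 6) + 94 / 100 * L / x) * x := by
      field_simp
    rw [h8]
    have : π / 2 ≤ 15708 / 10000 := by linarith only [hp]
    nlinarith only [hx0, h6, this]
  have hlt : 15708 / 10000 * x <
      (x ^ (2 : ℕ) + 4849 / 10000 * L ^ (2 : ℕ)) * (L + L ^ (2 : ℕ) / 2 + L ^ (3 : ℕ) / 6) + 94 / 100 * L := by
    have hu : 0 ≤ x - 161 / 100 := by linarith only [h1]
    have hv : 0 ≤ 3 - x := by linarith only [h3]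
    have p : ∀ i j : ℕ, 0 ≤ (x - 161 / 100) ^ i * (3 - x) ^ j := fun i j => by (clear * - h1 h3; positivity)
    rw [hL]
    linarith only [p 1 4, p 2 3, p 3 2, p 4 1, p 5 0]
  linarith only [h7, hlt]

theorem e_le_of {a : ℝ} (h : a ≤ 1) : exp a ≤ 27183 / 10000 :=
  (Real.exp_le_exp.mpr h).trans e1lt

/-- `ε = 1`, `s ≤ π` -/
theorem sp_a {x y s : ℝ} (hx : 0 ≤ x) (h3 : x ≤ 3) (hy : 0 ≤ y) (hyx : y ≤ 4 / 5 * x)
    (hy1 : y ≤ 14 / 25) (hyl : y ≤ 3 / 4 - 118 / 1000 * x) (hs : 3 / 2 ≤ s) (hs2 : s ≤ π) :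
    x / 5 + 8142 / 10000 ≤ hq x y 1 s := by
  have hpi := Real.pi_pos
  rw [hq_p]
  have ha1 := ab_le1 (s := s) hx
  have ha0 := ab_nn hx (by linarith : 0 ≤ s)
  have hc := cos_le0708 hs (by linarith only [hs, hs2])
  have hsn : 0 ≤ sin s := Real.sin_nonneg_of_nonneg_of_le_pi (by linarith only [hs]) hs2
  have hE := e_le_of ha1
  have hE0 := (Real.exp_pos (ab x s)).le
  have t1 : exp (ab x s) * (x * cos s) ≤ 1925 / 10000 * x := by
    have : x * cos s ≤ 708 / 10000 * x := by nlinarith only [hy, hyx, hc]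
    calc exp (ab x s) * (x * cos s) ≤ exp (ab x s) * (708 / 10000 * x) := by gcongr
      _ ≤ 27183 / 10000 * (708 / 10000 * x) := by gcongr
      _ ≤ _ := by linarith only [hy, hyx]
  have t2 : 0 ≤ exp (ab x s) * (y * sin s) := by (clear * - hy hsn; positivity)
  rcases le_total (1 + x) s with h | h
  · rw [ab_one hx h3 h] at *
    nlinarith only [hy, hyx, hy1, t1, t2, h]
  · have hm := ab_mul hx h3 h
    have g : 0 ≤ (ab x s * s + x * (1 + ab x s) - y * s - 1925 / 10000 * x -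
        (x / 5 + 8142 / 10000)) * (1 + x) := by
      have e1 : (ab x s * s + x * (1 + ab x s) - y * s - 1925 / 10000 * x -
        (x / 5 + 8142 / 10000)) * (1 + x) = s * s + x * (1 + x) + x * s - y * (s * (1 + x)) -
          (3925 / 10000 * x + 8142 / 10000) * (1 + x) := by
        have : ab x s * s * (1 + x) = s * s := by rw [mul_right_comm, hm]
        have : x * ab x s * (1 + x) = x * s := by rw [mul_assoc, hm]
        linarith
      rw [e1]
      have e2 : y * (s * (1 + x)) ≤ (3 / 4 - 118 / 1000 * x) * (s * (1 + x)) := by gcongr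
      nlinarith only [hs, e2, mul_nonneg (mul_nonneg hx hx) (by linarith : 0 ≤ s - 3 / 2), sq_nonneg (s - 3 / 2)]
    have g2 := nonneg_of_mul_nonneg_left g (by linarith only [hx])
    linarith only [t1, t2, g2]

/-- `ε = 1`, `π ≤ s ≤ 4` -/
theorem sp_b {x y s : ℝ} (hx : 0 ≤ x) (h3 : x ≤ 3) (hy : 0 ≤ y) (hyx : y ≤ 4 / 5 * x)
    (hy1 : y ≤ 14 / 25) (hs : π ≤ s) (hs2 : s ≤ 4) :
    x / 5 + 8142 / 10000 ≤ hq x y 1 s := by
  have hp := Real.pi_gt_d4
  rw [hq_p]
  have ha1 := ab_le1 (s := s) hx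
  have ha0 := ab_nn hx (by linarith : 0 ≤ s)
  have hc : cos s ≤ 0 := Real.cos_nonpos_of_pi_div_two_le_of_le (by linarith only [hs, hp]) (by linarith only [hs2, hp])
  have hsn : -(8585 / 10000) ≤ sin s := by
    have a1 : sin s = - sin (s - π) := by rw [sin_sub_pi]; ring
    have a2 : sin (s - π) ≤ s - π := Real.sin_le (by linarith only [hs])
    linarith only [hs2, hp, a1, a2]
  have hE := e_le_of ha1
  have hE0 := (Real.exp_pos (ab x s)).le
  have t1 : exp (ab x s) * (x * cos s) ≤ 0 := by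
    have : x * cos s ≤ 0 := mul_nonpos_of_nonneg_of_nonpos hx hc
    exact mul_nonpos_of_nonneg_of_nonpos hE0 this
  have t2 : -(23337 / 10000 * y) ≤ exp (ab x s) * (y * sin s) := by
    have a1 : exp (ab x s) * (y * (8585 / 10000)) ≤ 27183 / 10000 * (y * (8585 / 10000)) := by
      gcongr
    have a2 : exp (ab x s) * (y * (-(8585 / 10000))) ≤ exp (ab x s) * (y * sin s) := by gcongr
    linarith only [hy, a1, a2]
  rcases le_total (1 + x) s with h | h
  · rw [ab_one hx h3 h] at *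
    rcases le_total x (6 / 10) with h6 | h6
    · nlinarith only [hyx, hy1, hs, hp, t1, t2]
    · nlinarith only [hyx, hy1, hs, hp, t1, t2]
  · have hm := ab_mul hx h3 h
    have g : 0 ≤ (ab x s * s + x * (1 + ab x s) - y * s - 23337 / 10000 * y -
        (x / 5 + 8142 / 10000)) * (1 + x) := by
      have e1 : (ab x s * s + x * (1 + ab x s) - y * s - 23337 / 10000 * y -
        (x / 5 + 8142 / 10000)) * (1 + x) = s * s + x * (1 + x) + x * s -
          y * ((s + 23337 / 10000) * (1 + x)) - (1 / 5 * x + 8142 / 10000) * (1 + x) := by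
        have : ab x s * s * (1 + x) = s * s := by rw [mul_right_comm, hm]
        have : x * ab x s * (1 + x) = x * s := by rw [mul_assoc, hm]
        linarith
      rw [e1]
      have hs0 : 0 ≤ (s + 23337 / 10000) * (1 + x) := by
        apply mul_nonneg <;> linarith
      have e2 : y * ((s + 23337 / 10000) * (1 + x)) ≤
          14 / 25 * ((s + 23337 / 10000) * (1 + x)) := by gcongr
      nlinarith only [hs, hp, e2, sq_nonneg (s - 3), mul_nonneg hx (by linarith : 0 ≤ x - 2)]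
    have g2 := nonneg_of_mul_nonneg_left g (by linarith only [hx])
    linarith only [t1, t2, g2]


/-- linear function on the polygon -/
theorem poly4 {x y A B C : ℝ} (hx : 0 ≤ x) (h3 : x ≤ 3) (hyx : y ≤ 4 / 5 * x)
    (hy1 : y ≤ 14 / 25) (hyl : y ≤ 3 / 4 - 118 / 1000 * x) (hC : C ≤ 0)
    (f0 : 0 ≤ A) (f1 : 0 ≤ A + 7 / 10 * B + 14 / 25 * C) (f2 : 0 ≤ A + 16102 / 10000 * B + 14 / 25 * C)
    (f3 : 0 ≤ A + 3 * B + 396 / 1000 * C) : 0 ≤ A + B * x + C * y := by
  rcases le_total x (7 / 10) with h | h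
  · have : C * (4 / 5 * x) ≤ C * y := mul_le_mul_of_nonpos_left hyx hC
    nlinarith only [hx, f0, f1, h, this]
  rcases le_total x (16102 / 10000) with h' | h'
  · have : C * (14 / 25) ≤ C * y := mul_le_mul_of_nonpos_left hy1 hC
    linarith only [this, mul_nonneg (sub_nonneg.mpr h) f2, mul_nonneg (sub_nonneg.mpr h') f1]
  · have : C * (3 / 4 - 118 / 1000 * x) ≤ C * y := mul_le_mul_of_nonpos_left hyl hC
    nlinarith only [h3, hC, this, mul_nonneg (sub_nonneg.mpr h') f3, mul_nonneg (sub_nonneg.mpr h3) f2]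


theorem ver1 {u : ℝ} (h0 : 0 ≤ u) (h1 : u ≤ 22832 / 10000) :
    0 ≤ (62831 / 10000 - u - 8142 / 10000) +
      7 / 10 * (18 / 10 - (27182 / 10000 * (1 - u ^ (2 : ℕ) / 2 + u ^ (4 : ℕ) / 24) + 1 / 10000)) +
      14 / 25 * (-(62831 / 10000 - u) - 27183 / 10000 * (u - u ^ (3 : ℕ) / 6 + u ^ (5 : ℕ) / 120)) := by
  rcases le_total u (2 / 5) with h | h
  · have p : ∀ i j : ℕ, 0 ≤ u ^ i * (2 / 5 - u) ^ j := fun i j => by
      have : 0 ≤ 2 / 5 - u := by linarith only [h]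
      (clear * - h0 h; positivity)
    linarith only [p 0 5, p 1 4, p 2 3, p 3 2, p 4 1]
  rcases le_total u 1 with h' | h'
  · have p : ∀ i j : ℕ, 0 ≤ (u - 2 / 5) ^ i * (1 - u) ^ j := fun i j => by
      have : 0 ≤ 1 - u := by linarith only [h']
      have : 0 ≤ u - 2 / 5 := by linarith only [h]
      (clear * - h h'; positivity)
    linarith only [h', p 0 5, p 3 2, p 4 1, p 5 0]
  · have p : ∀ i j : ℕ, 0 ≤ (u - 1) ^ i * (22832 / 10000 - u) ^ j := fun i j => by
      have : 0 ≤ 22832 / 10000 - u := by linarith only [h1]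
      have : 0 ≤ u - 1 := by linarith only [h']
      (clear * - h' h1; positivity)
    linarith only [p 1 4, p 2 3, p 3 2, p 4 1, p 5 0]

theorem ver2 {u : ℝ} (h0 : 0 ≤ u) (h1 : u ≤ 22832 / 10000) :
    0 ≤ (62831 / 10000 - u - 8142 / 10000) +
      16102 / 10000 * (18 / 10 - (27182 / 10000 * (1 - u ^ (2 : ℕ) / 2 + u ^ (4 : ℕ) / 24) + 1 / 10000)) +
      14 / 25 * (-(62831 / 10000 - u) - 27183 / 10000 * (u - u ^ (3 : ℕ) / 6 + u ^ (5 : ℕ) / 120)) := by
  rcases le_total u (2 / 5) with h | h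
  · have p : ∀ i j : ℕ, 0 ≤ u ^ i * (2 / 5 - u) ^ j := fun i j => by
      have : 0 ≤ 2 / 5 - u := by linarith only [h]
      (clear * - h0 h; positivity)
    linarith only [p 0 5, p 1 4, p 2 3, p 3 2, p 4 1]
  rcases le_total u 1 with h' | h'
  · have p : ∀ i j : ℕ, 0 ≤ (u - 2 / 5) ^ i * (1 - u) ^ j := fun i j => by
      have : 0 ≤ 1 - u := by linarith only [h']
      have : 0 ≤ u - 2 / 5 := by linarith only [h]
      (clear * - h h'; positivity)
    linarith only [p 0 5, p 2 3, p 3 2, p 4 1, p 5 0]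
  · have p : ∀ i j : ℕ, 0 ≤ (u - 1) ^ i * (22832 / 10000 - u) ^ j := fun i j => by
      have : 0 ≤ 22832 / 10000 - u := by linarith only [h1]
      have : 0 ≤ u - 1 := by linarith only [h']
      (clear * - h' h1; positivity)
    linarith only [p 1 4, p 2 3, p 3 2, p 4 1, p 5 0]

theorem ver3 {u : ℝ} (h0 : 0 ≤ u) (h1 : u ≤ 22832 / 10000) :
    0 ≤ (62831 / 10000 - u - 8142 / 10000) +
      3 * (18 / 10 - (27182 / 10000 * (1 - u ^ (2 : ℕ) / 2 + u ^ (4 : ℕ) / 24) + 1 / 10000)) +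
      396 / 1000 * (-(62831 / 10000 - u) - 27183 / 10000 * (u - u ^ (3 : ℕ) / 6 + u ^ (5 : ℕ) / 120)) := by
  rcases le_total u (2 / 5) with h | h
  · have p : ∀ i j : ℕ, 0 ≤ u ^ i * (2 / 5 - u) ^ j := fun i j => by
      have : 0 ≤ 2 / 5 - u := by linarith only [h]
      (clear * - h0 h; positivity)
    linarith only [p 0 5, p 1 4, p 2 3, p 4 1, p 5 0]
  rcases le_total u 1 with h' | h'
  · have p : ∀ i j : ℕ, 0 ≤ (u - 2 / 5) ^ i * (1 - u) ^ j := fun i j => by
      have : 0 ≤ 1 - u := by linarith only [h']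
      have : 0 ≤ u - 2 / 5 := by linarith only [h]
      (clear * - h h'; positivity)
    linarith only [p 1 4, p 2 3, p 3 2, p 4 1, p 5 0]
  · have p : ∀ i j : ℕ, 0 ≤ (u - 1) ^ i * (22832 / 10000 - u) ^ j := fun i j => by
      have : 0 ≤ 22832 / 10000 - u := by linarith only [h1]
      have : 0 ≤ u - 1 := by linarith only [h']
      (clear * - h' h1; positivity)
    linarith only [p 1 4, p 2 3, p 3 2, p 4 1, p 5 0]

/-- `ε = 1`, `4 ≤ s ≤ 2 π` -/
theorem sp_c {x y s : ℝ} (hx : 0 ≤ x) (h3 : x ≤ 3) (hy : 0 ≤ y) (hyx : y ≤ 4 / 5 * x)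
    (hy1 : y ≤ 14 / 25) (hyl : y ≤ 3 / 4 - 118 / 1000 * x) (hs : 4 ≤ s) (hs2 : s ≤ 2 * π) :
    x / 5 + 8142 / 10000 ≤ hq x y 1 s := by
  have hp := Real.pi_gt_d6
  have hp2 := Real.pi_lt_d4
  rw [hq_p, ab_one hx h3 (by linarith only [h3, hs])]
  obtain ⟨u, hu⟩ : ∃ u, u = 2 * π - s := ⟨_, rfl⟩
  have hsu : s = 2 * π - u := by linarith only [hu]
  have hu0 : 0 ≤ u := by linarith only [hs2, hsu]
  have hu1 : u ≤ 22832 / 10000 := by linarith only [hs, hp2, hsu]
  have hcos : cos s = cos u := by rw [hsu, cos_two_pi_sub]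
  have hsin : sin s = - sin u := by rw [hsu, sin_two_pi_sub]
  rw [hcos, hsin]
  have hc4 := cos_le4 hu0
  have hs5 := sin_le5 hu0
  have hsn : 0 ≤ sin u := Real.sin_nonneg_of_nonneg_of_le_pi hu0 (by linarith only [hp, hu1])
  have e1 := e1lt
  have e2 := e1gt
  have k1 : exp 1 * cos u ≤ 27182 / 10000 * (1 - u ^ (2 : ℕ) / 2 + u ^ (4 : ℕ) / 24) + 1 / 10000 := by
    have b0 : u ^ (2 : ℕ) ≤ 12 := by nlinarith only [hu0, hu1]
    have b1 : 1 - u ^ (2 : ℕ) / 2 + u ^ (4 : ℕ) / 24 ≤ 1 := by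
      linarith only [mul_nonneg (sq_nonneg u) (sub_nonneg.2 b0)]
    have b2 : exp 1 * cos u ≤ exp 1 * (1 - u ^ (2 : ℕ) / 2 + u ^ (4 : ℕ) / 24) := by gcongr
    nlinarith only [e1, e2, b1, b2]
  have k2 : exp 1 * sin u ≤ 27183 / 10000 * (u - u ^ (3 : ℕ) / 6 + u ^ (5 : ℕ) / 120) := by
    calc exp 1 * sin u ≤ 27183 / 10000 * sin u := by gcongr
      _ ≤ _ := by gcongr
  have hs50 : 0 ≤ u - u ^ (3 : ℕ) / 6 + u ^ (5 : ℕ) / 120 := hsn.trans hs5
  have key := poly4 hx h3 hyx hy1 hyl (A := 62831 / 10000 - u - 8142 / 10000)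
    (B := 18 / 10 - (27182 / 10000 * (1 - u ^ (2 : ℕ) / 2 + u ^ (4 : ℕ) / 24) + 1 / 10000))
    (C := -(62831 / 10000 - u) - 27183 / 10000 * (u - u ^ (3 : ℕ) / 6 + u ^ (5 : ℕ) / 120))
    (by linarith only [hu1, hs50]) (by linarith only [hu1]) (ver1 hu0 hu1) (ver2 hu0 hu1) (ver3 hu0 hu1)
  have k3 : exp 1 * (x * cos u) ≤
      (27182 / 10000 * (1 - u ^ (2 : ℕ) / 2 + u ^ (4 : ℕ) / 24) + 1 / 10000) * x := by
    have := mul_le_mul_of_nonneg_right k1 hx
    linarith only [this]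
  have k4 : exp 1 * (y * sin u) ≤
      (27183 / 10000 * (u - u ^ (3 : ℕ) / 6 + u ^ (5 : ℕ) / 120)) * y := by
    have := mul_le_mul_of_nonneg_right k2 hy
    linarith only [this]
  have k5 : (1 - y) * (62831 / 10000 - u) ≤ (1 - y) * s := by
    have : 0 ≤ 1 - y := by linarith only [hy1]
    gcongr
    linarith only [hp, hu]
  linarith only [key, k3, k4, k5]

/-- `ε = 1`, `s ≥ 2 π` -/
theorem sp_d {x y s : ℝ} (hx : 0 ≤ x) (h3 : x ≤ 3) (hy : 0 ≤ y) (hyx : y ≤ 4 / 5 * x)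
    (hy1 : y ≤ 14 / 25) (hyl : y ≤ 3 / 4 - 118 / 1000 * x) (hs : 2 * π ≤ s) :
    x / 5 + 8142 / 10000 + 2 / 5 * (s - 2 * π) ≤ hq x y 1 s := by
  have hp := Real.pi_gt_d4
  have hp2 := Real.pi_lt_d4
  rw [hq_p, ab_one hx h3 (by linarith only [h3, hs, hp])]
  obtain ⟨v, hv⟩ : ∃ v, v = s - 2 * π := ⟨_, rfl⟩
  have hsv : s = v + 2 * π := by linarith only [hv]
  have hv0 : 0 ≤ v := by linarith only [hs, hsv]
  have hcos : cos s = cos v := by rw [hsv, cos_add_two_pi]
  have hsin : sin s = sin v := by rw [hsv, sin_add_two_pi]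
  rw [hcos, hsin]
  have e1 := e1lt
  have e2 := e1gt
  have hE0 := (Real.exp_pos 1).le
  rcases le_total v π with h | h
  · have hsn : 0 ≤ sin v := Real.sin_nonneg_of_nonneg_of_le_pi hv0 h
    have t2 : 0 ≤ exp 1 * (y * sin v) := by (clear * - hy hsn; positivity)
    have t1 : exp 1 * (x * cos v) ≤ 27183 / 10000 * x := by
      calc exp 1 * (x * cos v) ≤ exp 1 * (x * 1) := by gcongr; exact cos_le_one v
        _ ≤ 27183 / 10000 * (x * 1) := by gcongr
        _ = _ := by ring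
    have key := poly4 hx h3 hyx hy1 hyl (A := 62830 / 10000 - 8142 / 10000)
      (B := -(9183 / 10000)) (C := -(62832 / 10000)) (by norm_num) (by norm_num) (by norm_num)
      (by norm_num) (by norm_num)
    have k1 : 2 / 5 * v ≤ (1 - y) * v := by gcongr; linarith only [hy1]
    have k2 : y * (2 * π) ≤ y * (62832 / 10000) := by gcongr; linarith only [hp2]
    rw [hsv]
    linarith only [hp, t2, t1, key, k1, k2]
  · have hK : exp 1 * (x * cos v) - exp 1 * (y * sin v) ≤ 27183 / 10000 * √(x ^ (2 : ℕ) + y ^ (2 : ℕ)) := by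
      have a1 : x * cos v - y * sin v ≤ √(x ^ (2 : ℕ) + y ^ (2 : ℕ)) := by
        apply Real.le_sqrt_of_sq_le
        nlinarith only [sq_nonneg (x * sin v + y * cos v), sin_sq_add_cos_sq v]
      have a0 : 0 ≤ √(x ^ (2 : ℕ) + y ^ (2 : ℕ)) := Real.sqrt_nonneg _
      calc exp 1 * (x * cos v) - exp 1 * (y * sin v) = exp 1 * (x * cos v - y * sin v) := by ring
        _ ≤ exp 1 * √(x ^ (2 : ℕ) + y ^ (2 : ℕ)) := by gcongr
        _ ≤ _ := by gcongr
    have k1 : 2 / 5 * v + π * (6 / 10 - y) ≤ (1 - y) * v := by nlinarith only [hy1, h]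
    have k2 : y * (3 * π) ≤ y * (94248 / 10000) := by gcongr; linarith only [hp2]
    rcases le_total x (7 / 5) with hx7 | hx7
    · have hs1 : √(x ^ (2 : ℕ) + y ^ (2 : ℕ)) ≤ x + 2 / 5 * y := by
        apply Real.sqrt_le_iff.mpr
        constructor
        · (clear * - hx hy; positivity)
        · nlinarith only [hy, hyx]
      rw [hsv]
      nlinarith only [hy1, hp, hK, k1, hx7, hs1]
    · have hs1 : √(x ^ (2 : ℕ) + y ^ (2 : ℕ)) ≤ x + 11 / 100 := by
        apply Real.sqrt_le_iff.mpr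
        constructor
        · (clear * - hx7; positivity)
        · nlinarith only [hy, hy1, hx7]
      rw [hsv]
      nlinarith only [hyl, hp, hK, k1, hx7, hs1]

/-- `ε = -1` -/
theorem sp_m {x y s : ℝ} (hx : 0 ≤ x) (h3 : x ≤ 3) (hy : 0 ≤ y) (hs : 3 / 2 ≤ s) :
    x / 5 + 8142 / 10000 ≤ hq x y (-1) s ∧
      (2 * π ≤ s → x / 5 + 8142 / 10000 + 2 / 5 * (s - 2 * π) ≤ hq x y (-1) s) := by
  have hp := Real.pi_gt_d4
  have hp2 := Real.pi_lt_d4
  rw [hq_m]
  have ha1 := ab_le1 (s := s) hx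
  have ha0 := ab_nn hx (by linarith : 0 ≤ s)
  have hE : exp (-ab x s) ≤ 1 := Real.exp_le_one_iff.mpr (by linarith only [ha0])
  have hE0 := (Real.exp_pos (-ab x s)).le
  have t2 : exp (-ab x s) * (y * sin s) ≤ y * s := by
    have : sin s ≤ s := Real.sin_le (by linarith only [hs])
    calc exp (-ab x s) * (y * sin s) ≤ exp (-ab x s) * (y * s) := by gcongr
      _ ≤ 1 * (y * s) := by gcongr
      _ = _ := by ring
  rcases le_total (1 + x) s with h | h
  · rw [ab_one hx h3 h] at *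
    have hE1 : exp (-1 : ℝ) ≤ 368 / 1000 := by
      rw [Real.exp_neg, inv_le_comm₀ (Real.exp_pos 1) (by norm_num)]
      have := e1gt
      norm_num
      linarith only [this]
    have t1 : exp (-1) * (x * cos s) ≤ 368 / 1000 * x := by
      calc exp (-1) * (x * cos s) ≤ exp (-1) * (x * 1) := by gcongr; exact cos_le_one s
        _ ≤ 368 / 1000 * (x * 1) := by gcongr
        _ = _ := by ring
    constructor
    · linarith only [hs, t2, h, t1]
    · intro h2
      linarith only [hp, t2, h, t1, h2]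
  · have hc := cos_le0708 hs (by linarith only [h3, hp, h])
    have t1 : exp (-ab x s) * (x * cos s) ≤ 708 / 10000 * x := by
      calc exp (-ab x s) * (x * cos s) ≤ exp (-ab x s) * (x * (708 / 10000)) := by gcongr
        _ ≤ 1 * (x * (708 / 10000)) := by gcongr
        _ = _ := by ring
    have hm := ab_mul hx h3 h
    have g : 0 ≤ (ab x s * s + x * (1 - ab x s) - 708 / 10000 * x -
        (x / 5 + 8142 / 10000)) * (1 + x) := by
      have e1 : (ab x s * s + x * (1 - ab x s) - 708 / 10000 * x -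
        (x / 5 + 8142 / 10000)) * (1 + x) = s * s + x * (1 + x) - x * s -
          (2708 / 10000 * x + 8142 / 10000) * (1 + x) := by
        have : ab x s * s * (1 + x) = s * s := by rw [mul_right_comm, hm]
        have : x * ab x s * (1 + x) = x * s := by rw [mul_assoc, hm]
        linarith
      rw [e1]
      nlinarith only [h3, hs, sq_nonneg (x - 1)]
    have g2 := nonneg_of_mul_nonneg_left g (by linarith only [hx])
    constructor
    · linarith only [t2, t1, g2]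
    · intro h2
      linarith only [h3, hp, h, h2]

theorem ptsp : PTSp := by
  intro x y K ρ d ε s h h3 hy hε hs
  have hx := h.x0
  have hyx : y ≤ 4 / 5 * x := by
    have := h.T
    rwa [abs_of_nonneg hy] at this
  have hy1 := h.hi
  have hyl := lineA h h3 hy
  have hR : ρ / 5 + 1 / 2 ≤ x / 5 + 8142 / 10000 := by
    have := h.ep' hy
    have := Real.pi_lt_d4
    linarith
  rcases hε with rfl | rfl
  · have h2 : 2 * π ≤ s → ρ / 5 + 1 / 2 + 2 / 5 * (s - 2 * π) ≤ hq x y 1 s := fun h2 => by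
      have := sp_d hx h3 hy hyx hy1 hyl h2
      linarith only [hR, this]
    refine ⟨?_, h2⟩
    rcases le_total s π with h4 | h4
    · have := sp_a hx h3 hy hyx hy1 hyl hs h4
      linarith only [hR, this]
    rcases le_total s 4 with h5 | h5
    · have := sp_b hx h3 hy hyx hy1 h4 h5
      linarith only [hR, this]
    rcases le_total s (2 * π) with h6 | h6
    · have := sp_c hx h3 hy hyx hy1 hyl h5 h6
      linarith only [hR, this]
    · have := h2 h6
      linarith only [h6, this]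
  · obtain ⟨h1, h2⟩ := sp_m hx h3 hy hs
    exact ⟨by linarith only [hR, h1], fun h' => by have := h2 h'; linarith only [hR, this]⟩

end SokamV3T

end

/-! ### Lib_MP_af4de1_v3.TailF -/

section
/-!
# Tails of regime I: consequences of the facts `RF`
-/

set_option autoImplicit false

namespace SokamV3T

open Real

variable {x y K ρ d : ℝ}

theorem rf_ρ0 (h : RF x y K ρ d) : 0 < ρ := by
  rw [h.hρ]; exact mul_pos h.K0 (Real.exp_pos _)

theorem rf_xK (h : RF x y K ρ d) : x ≤ K := by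
  refine (sq_le_sq₀ h.x0 h.K0.le).mp ?_
  rw [h.hK]
  nlinarith [sq_nonneg y]

theorem rf_ρd (h : RF x y K ρ d) : 1231 / 1000 * ρ ≤ d := by
  have h0 := rf_ρ0 h
  have h2 := h.r2
  have : ρ * (1231 / 1000 * ρ) ≤ ρ * d := by linarith only [h2]
  exact le_of_mul_le_mul_left this h0

theorem rf_d (h : RF x y K ρ d) : 793 / 100 ≤ d := by
  have h0 := rf_ρ0 h
  have h1 := h.r1
  have h2 := h.r2
  by_contra hc
  push Not at hc
  have h3 : ρ * d ≤ ρ * (793 / 100) := by gcongr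
  rcases le_total ρ (629 / 100) with h4 | h4
  · linarith only [h1, h3, h4]
  · nlinarith only [h2, h3, h4]

theorem rf_Y (h : RF x y K ρ d) (hx : 3 ≤ x) (hy : 0 ≤ y) : y * (1 + x) ≤ 8 / 5 := by
  by_contra hc
  push Not at hc
  have hep := h.ep hy
  have hxK := rf_xK h
  have hp := Real.pi_lt_d4
  have hK0 := h.K0
  have hx0 : 0 < x := by linarith only [hx]
  have hxx : 0 < 1 + x := by linarith only [hx0]
  obtain ⟨v, hv⟩ : ∃ v, v = 1 / (1 + x) := ⟨_, rfl⟩
  have hv1 : v * (1 + x) = 1 := by rw [hv]; field_simp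
  have hv0 : 0 < v := by rw [hv]; positivity
  have hv4 : v ≤ 1 / 4 := by nlinarith only [hx, hv1]
  have hxv : x * v = 1 - v := by linarith only [hv1]
  have hy1 : 8 / 5 * v ≤ y := by
    have : 8 / 5 * v * (1 + x) ≤ y * (1 + x) := by rw [mul_assoc, hv1]; linarith only [hc]
    exact le_of_mul_le_mul_right this hxx
  -- e^y - 1
  have hE := SokamF1G.e_ge3 hy
  have hey : y ≤ exp y - 1 := by nlinarith only [hE, pow_nonneg hy 3]
  have s1 : x * (exp y - 1) + y / x ≤ K * (exp y - 1) + y / K := by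
    have t1 : y / x - y / K = (K - x) * (y / (K * x)) := by field_simp
    have t2 : y / (K * x) ≤ exp y - 1 := by
      have : y / (K * x) ≤ y := div_le_self hy (by nlinarith only [hx, hxK])
      linarith only [hey, this]
    linarith only [t1, mul_le_mul_of_nonneg_left t2 (sub_nonneg.mpr hxK)]
  have s2 : 8 / 5 * v ^ (2 : ℕ) * (1 + v) ≤ y / x := by
    rw [le_div_iff₀ hx0]
    have : 8 / 5 * v ^ (2 : ℕ) * (1 + v) * x = 8 / 5 * v * (1 - v ^ (2 : ℕ)) := by
      have : 8 / 5 * v ^ (2 : ℕ) * (1 + v) * x = 8 / 5 * v * (1 + v) * (x * v) := by ring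
      rw [this, hxv]; ring
    nlinarith only [hv1, hv0, hy1]
  have s3 : (1 - v) * (8 / 5 + 32 / 25 * v + 256 / 375 * v ^ (2 : ℕ)) ≤ x * (exp y - 1) := by
    have a1 : 8 / 5 * v + (8 / 5 * v) ^ (2 : ℕ) / 2 + (8 / 5 * v) ^ (3 : ℕ) / 6 ≤ exp y - 1 := by
      have : 8 / 5 * v + (8 / 5 * v) ^ (2 : ℕ) / 2 + (8 / 5 * v) ^ (3 : ℕ) / 6 ≤
        y + y ^ (2 : ℕ) / 2 + y ^ (3 : ℕ) / 6 := by gcongr
      linarith only [hE, this]
    have a2 : (1 - v) * (8 / 5 + 32 / 25 * v + 256 / 375 * v ^ (2 : ℕ)) =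
        x * (8 / 5 * v + (8 / 5 * v) ^ (2 : ℕ) / 2 + (8 / 5 * v) ^ (3 : ℕ) / 6) := by
      rw [← hxv]; ring
    rw [a2]
    gcongr
  nlinarith only [hep, hp, s1, s2, s3, sq_nonneg (v - 16 / 100), pow_nonneg hv0.le 3]

theorem rf_N (h : RF x y K ρ d) (hx : 3 ≤ x) (hy : y ≤ 0) : -y * (x - 9 / 10) ≤ 1571 / 1000 := by
  have _ := hx
  by_contra hc
  push Not at hc
  have hen := h.en hy
  have hρ := h.hρ
  have hlo := h.lo
  have hxK := rf_xK h
  have hp := Real.pi_lt_d4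
  obtain ⟨n, hn⟩ : ∃ n, n = -y := ⟨_, rfl⟩
  have hyn : y = -n := by linarith only [hn]
  have hn0 : 0 ≤ n := by linarith only [hy, hyn]
  have hn1 : n ≤ 53 / 100 := by linarith only [hlo, hyn]
  rw [← hn] at hc
  have hE := SokamF1G.en_le4 hn0
  rw [hρ, hyn] at hen
  have hq : n * (1 - n / 2 + n ^ (2 : ℕ) / 6 - n ^ (3 : ℕ) / 24) ≤ 1 - exp (-n) := by linarith only [hE]
  have hq0 : 0 ≤ 1 - n / 2 + n ^ (2 : ℕ) / 6 - n ^ (3 : ℕ) / 24 := by nlinarith only [hn1]
  have a1 : x * (n * (1 - n / 2 + n ^ (2 : ℕ) / 6 - n ^ (3 : ℕ) / 24)) ≤ K * (1 - exp (-n)) := by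
    have : 0 ≤ n * (1 - n / 2 + n ^ (2 : ℕ) / 6 - n ^ (3 : ℕ) / 24) := by positivity
    have := h.K0
    gcongr
  have a2 : (1571 / 1000 + 9 / 10 * n) * (1 - n / 2 + n ^ (2 : ℕ) / 6 - n ^ (3 : ℕ) / 24) ≤
      (x * n) * (1 - n / 2 + n ^ (2 : ℕ) / 6 - n ^ (3 : ℕ) / 24) := by
    gcongr
    linarith only [hc]
  have a3 : (15709 / 10000 : ℝ) ≤
      (1571 / 1000 + 9 / 10 * n) * (1 - n / 2 + n ^ (2 : ℕ) / 6 - n ^ (3 : ℕ) / 24) := by
    nlinarith only [mul_nonneg (pow_nonneg hn0 3) (by linarith : 0 ≤ 53 / 100 - n), pow_nonneg hn0 3]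
  linarith only [hp, hen, a1, a2, a3]

theorem rf_d11 (h : RF x y K ρ d) (hx : x ≤ 112 / 25) (hy : y ≤ 0) : 11 ≤ d := by
  have hlo := h.lo
  have h1 := h.r1
  have hK : K ≤ 452 / 100 := by
    refine (sq_le_sq₀ h.K0.le (by norm_num)).mp ?_
    rw [h.hK]
    have hx0 := h.x0
    have a1 : x ^ (2 : ℕ) ≤ (112 / 25) ^ (2 : ℕ) := by gcongr
    nlinarith only [hy, hlo, a1]
  have hρ : ρ ≤ K := by
    rw [h.hρ]
    have : exp y ≤ 1 := Real.exp_le_one_iff.mpr hy
    have := h.K0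
    nlinarith
  have h0 := rf_ρ0 h
  have := h.d0
  nlinarith only [h1, hK, hρ, this]

theorem rf_dL (h : RF x y K ρ d) (hy : 0 ≤ y) : 1231 / 1000 * (x * (1 + y)) ≤ d := by
  have h1 := rf_ρd h
  have h2 : x * (1 + y) ≤ ρ := by
    rw [h.hρ]
    have := rf_xK h
    have := h.x0
    have := h.K0
    have h3 : 1 + y ≤ exp y := by linarith only [Real.add_one_le_exp y]
    gcongr
  linarith only [h1, h2]

theorem rf_dR (h : RF x y K ρ d) (hy : y ≤ 0) : 1231 / 1000 * (x - 1571 / 1000) ≤ d := by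
  have h1 := rf_ρd h
  have h2 := h.en hy
  have h3 := rf_xK h
  have := Real.pi_lt_d4
  linarith only [h1, h2, h3, this]

theorem exp_q_le {s : ℝ} (h1 : 3 / 2 ≤ s) (h2 : s ≤ 3) : exp (s / 4) ≤ s := by
  obtain ⟨w, hw⟩ : ∃ w, w = (s - 3 / 2) / 4 := ⟨_, rfl⟩
  have hw0 : 0 ≤ w := by linarith only [h1, hw]
  have hw1 : w ≤ 3 / 8 := by linarith only [h2, hw]
  have e1 : s / 4 = 3 / 8 + w := by linarith only [hw]
  have e2 : exp (3 / 8 : ℝ) ≤ 146 / 100 := by
    have := SokamF1G.e_le3 (x := 3 / 8) (by norm_num) (by norm_num)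
    norm_num at this ⊢
    linarith only [this]
  have e3 : exp w * (1 - w) ≤ 1 := by
    have a1 : 1 - w ≤ exp (-w) := by linarith only [Real.add_one_le_exp (-w)]
    have a2 : exp w * exp (-w) = 1 := by rw [← Real.exp_add]; simp
    have := Real.exp_pos w
    nlinarith only [a1, a2, this]
  rw [e1, Real.exp_add]
  have hE := Real.exp_pos w
  have e4 : exp (3 / 8) * exp w ≤ 146 / 100 * exp w := by gcongr
  have e5 : 146 / 100 * exp w * (1 - w) ≤ s * (1 - w) := by nlinarith only [hw0, hw1, e1, e3]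
  have e6 := le_of_mul_le_mul_right e5 (by linarith only [hw1])
  linarith only [e4, e6]

theorem hq_mono_p {y' s : ℝ} (hx : 3 ≤ x) (hs : 3 / 2 ≤ s) (hyy : y ≤ y') :
    hq x y' 1 s ≤ hq x y 1 s := by
  rw [hq_p, hq_p]
  have hx0 : 0 ≤ x := by linarith only [hx]
  have ha1 := ab_le1 (s := s) hx0
  have key : exp (ab x s) * sin s ≤ s := by
    have hE := Real.exp_pos (ab x s)
    have hs1 : exp (ab x s) * sin s ≤ exp (ab x s) := by
      have := sin_le_one s
      nlinarith only [hE, this]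
    rcases le_total s 3 with h | h
    · have a1 : ab x s ≤ s / 4 := by
        unfold ab
        rw [div_le_div_iff₀ (by linarith only [hx0]) (by norm_num)]
        have a2 : min (min (137 / 25) (1 + x)) s ≤ s := min_le_right _ _
        nlinarith only [hx, hs, a2]
      have a3 : exp (ab x s) ≤ exp (s / 4) := Real.exp_le_exp.mpr a1
      have a4 := exp_q_le hs h
      linarith only [hs1, a3, a4]
    · have := e_le_of ha1
      linarith only [hs1, h, this]
  nlinarith only [hyy, key]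

theorem hq_mono_m {y' s : ℝ} (hx : 0 ≤ x) (hs : 3 / 2 ≤ s) (hyy : y ≤ y') :
    hq x y (-1) s ≤ hq x y' (-1) s := by
  rw [hq_m, hq_m]
  have ha0 := ab_nn hx (by linarith : 0 ≤ s)
  have hE : exp (-ab x s) ≤ 1 := Real.exp_le_one_iff.mpr (by linarith only [ha0])
  have hE0 := (Real.exp_pos (-ab x s)).le
  have key : exp (-ab x s) * sin s ≤ s := by
    have a1 : sin s ≤ s := Real.sin_le (by linarith only [hs])
    have a2 : exp (-ab x s) * sin s ≤ exp (-ab x s) * s := by gcongr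
    nlinarith only [hs, hE, a2]
  nlinarith only [hyy, key]

end SokamV3T

end
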