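import Pool.Agent.Lib_MP_af4de1_zy.Z49

/-! ### Lib_MP_af4de1_v3.GapLn -/

section
/-!
# PGap1.L: the numerical inequalities (helper69)
-/

set_option autoImplicit false

namespace SokamV3.GL

/-- cost for `ρ² ≥ 3` -/
noncomputable def cII (u w : ℝ) : ℝ :=
  13 / 20 * u + 3 / 8 * u ^ (2 : ℕ) + 1 / 2 * u ^ (3 : ℕ) + 704 / 1000 * w +
    1 / 2 * (u + u ^ (2 : ℕ) / 2 + 2 / 3 * u ^ (3 : ℕ)) ^ (2 : ℕ)

/-- cost for `1 ≤ ρ² ≤ 3`; `n ≤ N` -/
noncomputable def cIa (Y N : ℝ) : ℝ := Y + N + 3 / 8 * Y ^ (2 : ℕ)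

/-- cost for `ρ² ≤ 1`; `n ≤ N`, `n q ≤ M` -/
noncomputable def cIb (Y N f M : ℝ) : ℝ := 3 / 2 * Y + N + 1 / 4 * Y ^ (2 : ℕ) + f * M

theorem numII {r v a b vm P K u w : ℝ} (hr : 0 ≤ r) (hv : 0 ≤ v) (hvm : v ≤ vm) (ha : 0 ≤ a)
    (hb : 0 ≤ b) (hu0 : 0 ≤ u) (hu : u ≤ a * v) (hw : w = b * v)
    (hP : P ≤ (b ^ (2 : ℕ) - a ^ (2 : ℕ)) / 2 - (a ^ (3 : ℕ) + b ^ (3 : ℕ)) * vm / 6 - a ^ (4 : ℕ) * vm ^ (2 : ℕ) / 6)
    (hK : (13 / 20 + 3 / 8 * (a * vm) + 1 / 2 * (a * vm) ^ (2 : ℕ) +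
      1 / 2 * (a * vm) * (1 + a * vm / 2 + 2 / 3 * (a * vm) ^ (2 : ℕ)) ^ (2 : ℕ)) * a + 704 / 1000 * b ≤ K)
    (hfin : 17 / 20 + K * v ≤ r * v ^ (2 : ℕ) * P) :
    17 / 20 + cII u w ≤ r * (w ^ (2 : ℕ) / 2 - w ^ (3 : ℕ) / 6) - r * (u ^ (2 : ℕ) / 2 + u ^ (3 : ℕ) / 6 + u ^ (4 : ℕ) / 6) := by
  have hum : u ≤ a * vm := hu.trans (mul_le_mul_of_nonneg_left hvm ha)
  set m := a * vm with hm
  have hm0 : 0 ≤ m := hu0.trans hum
  set C := 1 + m / 2 + 2 / 3 * m ^ (2 : ℕ) with hC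
  have hC0 : 0 ≤ C := by positivity
  have h1 : cII u w ≤ K * v := by
    have e1 : u + u ^ (2 : ℕ) / 2 + 2 / 3 * u ^ (3 : ℕ) ≤ u * C := by
      have : u + u ^ (2 : ℕ) / 2 + 2 / 3 * u ^ (3 : ℕ) = u * (1 + u / 2 + 2 / 3 * u ^ (2 : ℕ)) := by ring
      rw [this, hC]
      gcongr
    have e2 : (u + u ^ (2 : ℕ) / 2 + 2 / 3 * u ^ (3 : ℕ)) ^ (2 : ℕ) ≤ u * m * C ^ (2 : ℕ) := by
      calc (u + u ^ (2 : ℕ) / 2 + 2 / 3 * u ^ (3 : ℕ)) ^ (2 : ℕ) ≤ (u * C) ^ (2 : ℕ) := pow_le_pow_left₀ (by positivity) e1 2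
        _ = u * u * C ^ (2 : ℕ) := by ring
        _ ≤ u * m * C ^ (2 : ℕ) := by gcongr
    have e3 : u ^ (2 : ℕ) ≤ u * m := by nlinarith only [hu0, hum]
    have e4 : u ^ (3 : ℕ) ≤ u * m ^ (2 : ℕ) := by
      calc u ^ (3 : ℕ) = u * u ^ (2 : ℕ) := by ring
        _ ≤ u * m ^ (2 : ℕ) := by gcongr
    have e5 : cII u w ≤ u * (13 / 20 + 3 / 8 * m + 1 / 2 * m ^ (2 : ℕ) + 1 / 2 * m * C ^ (2 : ℕ)) +
        704 / 1000 * w := by
      unfold cII
      linarith only [e2, e3, e4]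
    have e6 : u * (13 / 20 + 3 / 8 * m + 1 / 2 * m ^ (2 : ℕ) + 1 / 2 * m * C ^ (2 : ℕ)) ≤
        a * v * (13 / 20 + 3 / 8 * m + 1 / 2 * m ^ (2 : ℕ) + 1 / 2 * m * C ^ (2 : ℕ)) :=
      mul_le_mul_of_nonneg_right hu (by positivity)
    have e7 := mul_le_mul_of_nonneg_right hK hv
    have e8 : 704 / 1000 * w = 704 / 1000 * b * v := by rw [hw]; ring
    linarith only [e5, e6, e7, e8]
  have h2 : u ^ (2 : ℕ) / 2 + u ^ (3 : ℕ) / 6 + u ^ (4 : ℕ) / 6 ≤ v ^ (2 : ℕ) * (a ^ (2 : ℕ) / 2 + a ^ (3 : ℕ) * vm / 6 + a ^ (4 : ℕ) * vm ^ (2 : ℕ) / 6) := by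
    calc u ^ (2 : ℕ) / 2 + u ^ (3 : ℕ) / 6 + u ^ (4 : ℕ) / 6 ≤ (a * v) ^ (2 : ℕ) / 2 + (a * v) ^ (3 : ℕ) / 6 + (a * v) ^ (4 : ℕ) / 6 := by
          gcongr
      _ = v ^ (2 : ℕ) * (a ^ (2 : ℕ) / 2 + a ^ (3 : ℕ) * v / 6 + a ^ (4 : ℕ) * v ^ (2 : ℕ) / 6) := by ring
      _ ≤ _ := by gcongr
  have h3 : v ^ (2 : ℕ) * (b ^ (2 : ℕ) / 2 - b ^ (3 : ℕ) * vm / 6) ≤ w ^ (2 : ℕ) / 2 - w ^ (3 : ℕ) / 6 := by
    have e1 : w ^ (2 : ℕ) / 2 - w ^ (3 : ℕ) / 6 = v ^ (2 : ℕ) * (b ^ (2 : ℕ) / 2 - b ^ (3 : ℕ) * v / 6) := by rw [hw]; ring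
    rw [e1]
    gcongr
  have h4 : v ^ (2 : ℕ) * P ≤ w ^ (2 : ℕ) / 2 - w ^ (3 : ℕ) / 6 - (u ^ (2 : ℕ) / 2 + u ^ (3 : ℕ) / 6 + u ^ (4 : ℕ) / 6) := by
    have := mul_le_mul_of_nonneg_left hP (sq_nonneg v)
    linarith only [h2, h3, this]
  have h5 := mul_le_mul_of_nonneg_left h4 hr
  linarith only [hfin, h1, h5]

/-- the main part in the case `ρ² ≤ 3`, `θ ≤ c` -/
theorem mainI {r v a b vm P u w c : ℝ} (hr : 0 ≤ r) (hv : 0 ≤ v) (hvm : v ≤ vm) (ha : 0 ≤ a)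
    (hc : 0 ≤ c) (hu0 : 0 ≤ u) (hu : u ≤ a * v) (hw : w = b * v)
    (hP : P ≤ (b ^ (2 : ℕ) - a ^ (2 : ℕ)) / 2 - b ^ (4 : ℕ) * vm ^ (2 : ℕ) / 8 - c * a ^ (3 : ℕ) * vm / 6 -
      c ^ (2 : ℕ) * a ^ (4 : ℕ) * vm ^ (2 : ℕ) / 6) :
    r * v ^ (2 : ℕ) * P ≤ r * (w ^ (2 : ℕ) / 2 - w ^ (4 : ℕ) / 8) -
      r * (u ^ (2 : ℕ) / 2 + c * u ^ (3 : ℕ) / 6 + c ^ (2 : ℕ) * u ^ (4 : ℕ) / 6) := by
  have h2 : u ^ (2 : ℕ) / 2 + c * u ^ (3 : ℕ) / 6 + c ^ (2 : ℕ) * u ^ (4 : ℕ) / 6 ≤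
      v ^ (2 : ℕ) * (a ^ (2 : ℕ) / 2 + c * a ^ (3 : ℕ) * vm / 6 + c ^ (2 : ℕ) * a ^ (4 : ℕ) * vm ^ (2 : ℕ) / 6) := by
    calc u ^ (2 : ℕ) / 2 + c * u ^ (3 : ℕ) / 6 + c ^ (2 : ℕ) * u ^ (4 : ℕ) / 6 ≤
        (a * v) ^ (2 : ℕ) / 2 + c * (a * v) ^ (3 : ℕ) / 6 + c ^ (2 : ℕ) * (a * v) ^ (4 : ℕ) / 6 := by gcongr
      _ = v ^ (2 : ℕ) * (a ^ (2 : ℕ) / 2 + c * a ^ (3 : ℕ) * v / 6 + c ^ (2 : ℕ) * a ^ (4 : ℕ) * v ^ (2 : ℕ) / 6) := by ring
      _ ≤ _ := by gcongr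
  have h3 : v ^ (2 : ℕ) * (b ^ (2 : ℕ) / 2 - b ^ (4 : ℕ) * vm ^ (2 : ℕ) / 8) ≤ w ^ (2 : ℕ) / 2 - w ^ (4 : ℕ) / 8 := by
    have e1 : w ^ (2 : ℕ) / 2 - w ^ (4 : ℕ) / 8 = v ^ (2 : ℕ) * (b ^ (2 : ℕ) / 2 - b ^ (4 : ℕ) * v ^ (2 : ℕ) / 8) := by rw [hw]; ring
    rw [e1]
    gcongr
  have h4 : v ^ (2 : ℕ) * P ≤ w ^ (2 : ℕ) / 2 - w ^ (4 : ℕ) / 8 - (u ^ (2 : ℕ) / 2 + c * u ^ (3 : ℕ) / 6 + c ^ (2 : ℕ) * u ^ (4 : ℕ) / 6) := by
    have := mul_le_mul_of_nonneg_left hP (sq_nonneg v)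
    linarith only [h2, h3, this]
  have h5 := mul_le_mul_of_nonneg_left h4 hr
  linarith only [h5]

/-- `Y ≤ C u` -/
theorem boundY {c u m Y : ℝ} (hc : 0 ≤ c) (hu0 : 0 ≤ u) (hum : u ≤ m)
    (hY : Y ≤ c * u + (c * u) ^ (2 : ℕ) / 2 + 2 / 3 * (c * u) ^ (3 : ℕ)) :
    Y ≤ c * (1 + c * m / 2 + 2 / 3 * (c * m) ^ (2 : ℕ)) * u := by
  refine hY.trans ?_
  have : c * u + (c * u) ^ (2 : ℕ) / 2 + 2 / 3 * (c * u) ^ (3 : ℕ) =
      c * (1 + c * u / 2 + 2 / 3 * (c * u) ^ (2 : ℕ)) * u := by ring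
  rw [this]
  gcongr

theorem numIa {r v a b vm P K Cy Y N D u w : ℝ} (hr : 0 ≤ r) (hv : 0 ≤ v) (hvm : v ≤ vm) (ha : 0 ≤ a)
    (hb : 0 ≤ b) (hu0 : 0 ≤ u) (hu : u ≤ a * v) (hw : w = b * v) (hY0 : 0 ≤ Y)
    (hY : Y ≤ 8661 / 10000 * u + (8661 / 10000 * u) ^ (2 : ℕ) / 2 + 2 / 3 * (8661 / 10000 * u) ^ (3 : ℕ))
    (hP : P ≤ (b ^ (2 : ℕ) - a ^ (2 : ℕ)) / 2 - b ^ (4 : ℕ) * vm ^ (2 : ℕ) / 8 - 8661 / 10000 * a ^ (3 : ℕ) * vm / 6 -
      (8661 / 10000) ^ (2 : ℕ) * a ^ (4 : ℕ) * vm ^ (2 : ℕ) / 6)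
    (hCy : 8661 / 10000 * (1 + 8661 / 10000 * (a * vm) / 2 + 2 / 3 * (8661 / 10000 * (a * vm)) ^ (2 : ℕ)) ≤ Cy)
    (hN : N ≤ D * w)
    (hK : Cy * a + 3 / 8 * (a * vm) * Cy ^ (2 : ℕ) * a + D * b ≤ K)
    (hfin : 17 / 20 + K * v ≤ r * v ^ (2 : ℕ) * P) :
    17 / 20 + cIa Y N ≤ r * (w ^ (2 : ℕ) / 2 - w ^ (4 : ℕ) / 8) -
      r * (u ^ (2 : ℕ) / 2 + 8661 / 10000 * u ^ (3 : ℕ) / 6 + (8661 / 10000) ^ (2 : ℕ) * u ^ (4 : ℕ) / 6) := by
  have h1 := mainI hr hv hvm ha (by norm_num) hu0 hu hw hP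
  have hum : u ≤ a * vm := hu.trans (mul_le_mul_of_nonneg_left hvm ha)
  have hm0 : 0 ≤ a * vm := hu0.trans hum
  have h2 := boundY (by norm_num) hu0 hum hY
  have h3 : Y ≤ Cy * u := h2.trans (mul_le_mul_of_nonneg_right hCy hu0)
  have hCy0 : 0 ≤ Cy := le_trans (by positivity) hCy
  have h4 : Y ^ (2 : ℕ) ≤ (a * vm) * Cy ^ (2 : ℕ) * u := by
    calc Y ^ (2 : ℕ) ≤ (Cy * u) ^ (2 : ℕ) := pow_le_pow_left₀ hY0 h3 2
      _ = u * Cy ^ (2 : ℕ) * u := by ring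
      _ ≤ _ := by gcongr
  have h5 : Cy * u ≤ Cy * (a * v) := mul_le_mul_of_nonneg_left hu hCy0
  have h6 : (a * vm) * Cy ^ (2 : ℕ) * u ≤ (a * vm) * Cy ^ (2 : ℕ) * (a * v) :=
    mul_le_mul_of_nonneg_left hu (by positivity)
  have h7 := mul_le_mul_of_nonneg_right hK hv
  have h8 : D * w = D * b * v := by rw [hw]; ring
  unfold cIa
  linarith only [hN, hfin, h1, h3, h4, h5, h6, h7, h8]

theorem numIb {r v a b vm P K Cy Y N D f M E u w : ℝ} (hr : 0 ≤ r) (hv : 0 ≤ v) (hvm : v ≤ vm)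
    (ha : 0 ≤ a) (hb : 0 ≤ b) (hu0 : 0 ≤ u) (hu : u ≤ a * v) (hw : w = b * v) (hY0 : 0 ≤ Y)
    (hY : Y ≤ 7072 / 10000 * u + (7072 / 10000 * u) ^ (2 : ℕ) / 2 + 2 / 3 * (7072 / 10000 * u) ^ (3 : ℕ))
    (hP : P ≤ (b ^ (2 : ℕ) - a ^ (2 : ℕ)) / 2 - b ^ (4 : ℕ) * vm ^ (2 : ℕ) / 8 - 7072 / 10000 * a ^ (3 : ℕ) * vm / 6 -
      (7072 / 10000) ^ (2 : ℕ) * a ^ (4 : ℕ) * vm ^ (2 : ℕ) / 6)
    (hCy : 7072 / 10000 * (1 + 7072 / 10000 * (a * vm) / 2 + 2 / 3 * (7072 / 10000 * (a * vm)) ^ (2 : ℕ)) ≤ Cy)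
    (hN : N ≤ D * w) (hM : M ≤ E * w) (hf : 0 ≤ f)
    (hK : 3 / 2 * Cy * a + 1 / 4 * (a * vm) * Cy ^ (2 : ℕ) * a + D * b + f * E * b ≤ K)
    (hfin : 17 / 20 + K * v ≤ r * v ^ (2 : ℕ) * P) :
    17 / 20 + cIb Y N f M ≤ r * (w ^ (2 : ℕ) / 2 - w ^ (4 : ℕ) / 8) -
      r * (u ^ (2 : ℕ) / 2 + 7072 / 10000 * u ^ (3 : ℕ) / 6 + (7072 / 10000) ^ (2 : ℕ) * u ^ (4 : ℕ) / 6) := by
  have h1 := mainI hr hv hvm ha (by norm_num) hu0 hu hw hP
  have hum : u ≤ a * vm := hu.trans (mul_le_mul_of_nonneg_left hvm ha)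
  have hm0 : 0 ≤ a * vm := hu0.trans hum
  have h2 := boundY (by norm_num) hu0 hum hY
  have h3 : Y ≤ Cy * u := h2.trans (mul_le_mul_of_nonneg_right hCy hu0)
  have hCy0 : 0 ≤ Cy := le_trans (by positivity) hCy
  have h4 : Y ^ (2 : ℕ) ≤ (a * vm) * Cy ^ (2 : ℕ) * u := by
    calc Y ^ (2 : ℕ) ≤ (Cy * u) ^ (2 : ℕ) := pow_le_pow_left₀ hY0 h3 2
      _ = u * Cy ^ (2 : ℕ) * u := by ring
      _ ≤ _ := by gcongr
  have h5 : Cy * u ≤ Cy * (a * v) := mul_le_mul_of_nonneg_left hu hCy0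
  have h6 : (a * vm) * Cy ^ (2 : ℕ) * u ≤ (a * vm) * Cy ^ (2 : ℕ) * (a * v) :=
    mul_le_mul_of_nonneg_left hu (by positivity)
  have h7 := mul_le_mul_of_nonneg_right hK hv
  have h8 : D * w = D * b * v := by rw [hw]; ring
  have h9 : f * M ≤ f * (E * w) := mul_le_mul_of_nonneg_left hM hf
  have h10 : f * (E * w) = f * E * b * v := by rw [hw]; ring
  unfold cIb
  linarith only [hN, hfin, h1, h3, h4, h5, h6, h7, h8, h9, h10]

/-- final step, small `v` -/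
theorem fin_small {r v vm G0 P K : ℝ} (hvm : v ≤ vm) (hG : G0 ≤ r * v ^ (2 : ℕ)) (hP : 0 ≤ P) (hK : 0 ≤ K)
    (h : 17 / 20 + K * vm ≤ G0 * P) : 17 / 20 + K * v ≤ r * v ^ (2 : ℕ) * P := by
  have h1 := mul_le_mul_of_nonneg_right hG hP
  have h2 := mul_le_mul_of_nonneg_left hvm hK
  linarith only [h, h1, h2]

/-- final step, large `v` -/
theorem fin_large {r v v0 P K : ℝ} (hv0 : 0 ≤ v0) (hv : v0 ≤ v) (hr : 499 / 10 ≤ r) (hP : 0 ≤ P)
    (hKP : K ≤ 499 / 10 * v0 * P) (h : 17 / 20 + K * v0 ≤ 499 / 10 * v0 ^ (2 : ℕ) * P) :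
    17 / 20 + K * v ≤ r * v ^ (2 : ℕ) * P := by
  have hv' : 0 ≤ v := hv0.trans hv
  have h1 : 499 / 10 * (v0 * v) * P ≤ r * v ^ (2 : ℕ) * P := by
    have : v0 * v ≤ v ^ (2 : ℕ) := by nlinarith only [hv0, hv]
    have h2 : 499 / 10 * (v0 * v) ≤ r * v ^ (2 : ℕ) := by
      calc 499 / 10 * (v0 * v) ≤ 499 / 10 * v ^ (2 : ℕ) := by linarith only [this]
        _ ≤ r * v ^ (2 : ℕ) := mul_le_mul_of_nonneg_right hr (sq_nonneg v)
    exact mul_le_mul_of_nonneg_right h2 hP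
  linarith only [h, h1, mul_nonneg (sub_nonneg.2 hKP) (sub_nonneg.2 hv)]

/-! ### the bounds of `n` -/

theorem poly_small {θ w : ℝ} (h0 : 0 ≤ θ) (h1 : θ ^ (2 : ℕ) ≤ 3 / 4) (hw : 0 < w) (hw1 : w ≤ 9 / 20) {N : ℝ}
    (hN : N = θ * w + 3 / 4 * w ^ (2 : ℕ)) :
    θ * w < (1 - θ ^ (2 : ℕ)) * (N - 3 / 2 * N ^ (2 : ℕ) + 5 / 6 * N ^ (3 : ℕ) - 1 / 3 * N ^ (4 : ℕ)) +
      θ ^ (2 : ℕ) * (N + N ^ (2 : ℕ) / 2) := by
  have hθ1 : θ ≤ 8661 / 10000 := by nlinarith only [h0, h1]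
  have hN0 : 0 ≤ N := by rw [hN]; positivity
  have hN1 : N ≤ 1 := by rw [hN]; nlinarith only [h0, h1, hw, hw1]
  have h2 : 0 ≤ (1 - θ ^ (2 : ℕ)) * (N ^ (3 : ℕ) * (5 / 6 - 1 / 3 * N)) :=
    mul_nonneg (by linarith only [h1]) (mul_nonneg (by positivity) (by linarith only [hN1]))
  have h3 : (θ + 27 / 80) ^ (2 : ℕ) * (3 / 2 - 2 * θ ^ (2 : ℕ)) < 3 / 4 := by
    nlinarith only [mul_nonneg h0 (sq_nonneg (θ - 1 / 2)), sq_nonneg (θ ^ (2 : ℕ) - 1 / 4)]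
  have h4 : (θ + 3 / 4 * w) ^ (2 : ℕ) * (3 / 2 - 2 * θ ^ (2 : ℕ)) < 3 / 4 := by
    refine lt_of_le_of_lt ?_ h3
    apply mul_le_mul_of_nonneg_right _ (by linarith only [h1])
    apply pow_le_pow_left₀ (by positivity)
    linarith only [hw1]
  have h5 : N ^ (2 : ℕ) * (3 / 2 - 2 * θ ^ (2 : ℕ)) < 3 / 4 * w ^ (2 : ℕ) := by
    have : N = w * (θ + 3 / 4 * w) := by rw [hN]; ring
    have hw2 : 0 < w ^ (2 : ℕ) := by positivity
    rw [this, mul_pow, mul_assoc]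
    nlinarith only [h4, hw2]
  linarith only [hN, h2, h5]

theorem poly_big {θ w : ℝ} (h0 : 0 < θ) (h1 : θ ^ (2 : ℕ) ≤ 3 / 4) (hw : 0 < w) (hw1 : w ≤ 63 / 100) {N : ℝ}
    (hN : N = 2 * θ * w) :
    θ * w < (1 - θ ^ (2 : ℕ)) * (N - 3 / 2 * N ^ (2 : ℕ) + 5 / 6 * N ^ (3 : ℕ) - 1 / 3 * N ^ (4 : ℕ)) +
      θ ^ (2 : ℕ) * (N + N ^ (2 : ℕ) / 2) := by
  have hθ1 : θ ≤ 8661 / 10000 := by nlinarith only [h0, h1, hw]
  have hN0 : 0 < N := by rw [hN]; positivity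
  have hN1 : N ≤ 63 / 50 * θ := by rw [hN]; nlinarith only [h0, hw1]
  have hN2 : N ≤ 11 / 10 := by linarith only [hθ1, hN1]
  -- `θ² ≥ N²/(63/50)²`
  have h2 : 629 / 1000 * N ^ (2 : ℕ) ≤ θ ^ (2 : ℕ) := by nlinarith only [hN0, hN1]
  have h3 : 0 ≤ 2 * N - 5 / 6 * N ^ (2 : ℕ) + 1 / 3 * N ^ (3 : ℕ) := by nlinarith only [hN0, hN2]
  have h4 : 1 / 2 < (1 - 629 / 1000 * N ^ (2 : ℕ)) * (1 - 3 / 2 * N + 5 / 6 * N ^ (2 : ℕ) - 1 / 3 * N ^ (3 : ℕ)) +
      629 / 1000 * N ^ (2 : ℕ) * (1 + N / 2) := by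
    nlinarith only [mul_nonneg (mul_nonneg (mul_nonneg hN0.le hN0.le) hN0.le) (sq_nonneg (N - 57 / 100)), mul_nonneg hN0.le (sub_nonneg.2 hN2)]
  have h5 : 1 / 2 < (1 - θ ^ (2 : ℕ)) * (1 - 3 / 2 * N + 5 / 6 * N ^ (2 : ℕ) - 1 / 3 * N ^ (3 : ℕ)) +
      θ ^ (2 : ℕ) * (1 + N / 2) := by
    have := mul_nonneg (sub_nonneg.2 h2) h3
    linarith only [h4, this]
  have h6 : θ * w = N * (1 / 2) := by rw [hN]; ring
  rw [h6]
  calc N * (1 / 2) < N * ((1 - θ ^ (2 : ℕ)) * (1 - 3 / 2 * N + 5 / 6 * N ^ (2 : ℕ) - 1 / 3 * N ^ (3 : ℕ)) +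
      θ ^ (2 : ℕ) * (1 + N / 2)) := mul_lt_mul_of_pos_left h5 hN0
    _ = _ := by ring

end SokamV3.GL

end

/-! ### Lib_MP_af4de1_v3.GapL -/

section
namespace SokamF1
end SokamF1
namespace SokamF1M
end SokamF1M
namespace SokamF1S
end SokamF1S
namespace SokamU
end SokamU
namespace SokamV3
end SokamV3
/-!
# PGap1.L (helper69)
-/

set_option autoImplicit false

namespace SokamV3.GL

open Complex SokamV3 SokamU SokamF1 SokamF1S SokamF1M

theorem norm_kap {r δ y : ℝ} (hδ : 0 < δ) (h : Dom (r * δ) y) :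
    ‖kap r δ y‖ = r * Real.exp (-y) := by
  unfold kap
  rw [norm_div, norm_sK h, Complex.norm_real, Real.norm_eq_abs, abs_of_pos hδ]
  field_simp

theorem sM_eq {r δ y : ℝ} (hy : -1 < y) :
    sM r δ y = Real.exp (sx (r * δ) y * (1 + y) / δ - 1 / 4 * Real.log (sD2 (r * δ) y)) := by
  have h := sD2_pos (ρ := r * δ) hy
  unfold sM
  rw [Real.exp_sub, Real.rpow_def_of_pos h]
  congr 2
  ring

/-- the gap from the logarithmic inequality -/
theorem gap_of_log {r δ ya yb γ : ℝ} (hr : 0 < r) (hδ : 0 < δ) (ha : Dom (r * δ) ya)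
    (hb : Dom (r * δ) yb) (ha1 : -1 < ya) (hb1 : -1 < yb) (hab : yb ≤ ya)
    (h : γ + (ya - yb) + 1 / 4 * (Real.log (sD2 (r * δ) ya) - Real.log (sD2 (r * δ) yb)) ≤
      sx (r * δ) ya * (1 + ya) / δ - sx (r * δ) yb * (1 + yb) / δ) : Gap r δ ya yb γ := by
  constructor
  · rw [sM_eq ha1, sM_eq hb1, ← Real.exp_add]
    apply Real.exp_le_exp.2
    linarith only [hab, h]
  · rw [sM_eq ha1, sM_eq hb1, norm_kap hδ ha, norm_kap hδ hb]
    have e1 : Real.exp γ * (r * Real.exp (-yb) * Real.exp (sx (r * δ) yb * (1 + yb) / δ -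
        1 / 4 * Real.log (sD2 (r * δ) yb))) = r * Real.exp (γ + -yb + (sx (r * δ) yb * (1 + yb) / δ -
        1 / 4 * Real.log (sD2 (r * δ) yb))) := by
      rw [Real.exp_add, Real.exp_add]
      ring
    have e2 : r * Real.exp (-ya) * Real.exp (sx (r * δ) ya * (1 + ya) / δ -
        1 / 4 * Real.log (sD2 (r * δ) ya)) = r * Real.exp (-ya + (sx (r * δ) ya * (1 + ya) / δ -
        1 / 4 * Real.log (sD2 (r * δ) ya))) := by
      rw [Real.exp_add]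
      ring
    rw [e1, e2]
    apply mul_le_mul_of_nonneg_left _ hr.le
    apply Real.exp_le_exp.2
    linarith only [h]

theorem exp_neg_le {x : ℝ} (hx : 0 ≤ x) : Real.exp (-x) ≤ 1 - x + x ^ (2 : ℕ) / 2 := by
  have d : ∀ t : ℝ, HasDerivAt (fun t : ℝ => Real.exp (-t)) (-Real.exp (-t)) t := fun t => by
    simpa using (hasDerivAt_neg t).exp
  have := gh_mon (f := fun n => 1 - n + n ^ (2 : ℕ) / 2 - Real.exp (-n))
    (f' := fun n => -1 + n + Real.exp (-n)) hx (by fun_prop) (fun z _ => by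
      have a1 := (((hasDerivAt_id z).const_sub 1).add ((hasDerivAt_pow 2 z).div_const 2)).sub (d z)
      refine a1.congr_deriv ?_
      norm_num) (fun z hz => by linarith only [Real.add_one_le_exp (-z)])
  norm_num at this
  linarith only [this]

/-- left: `log D² ≤ log R - 2 y p + (1 + p) y²`, `p = (ρ² - 1)/R` -/
theorem logD_left {ρ y p : ℝ} (h : Dom ρ y) (hy : 0 ≤ y) (hp : (1 + ρ ^ (2 : ℕ)) * p = ρ ^ (2 : ℕ) - 1) :
    Real.log (sD2 ρ y) ≤ Real.log (1 + ρ ^ (2 : ℕ)) + (-(2 * y * p) + (1 + p) * y ^ (2 : ℕ)) := by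
  have hR : 0 < 1 + ρ ^ (2 : ℕ) := by positivity
  have h1 := exp_neg_le (x := 2 * y) (by linarith only [hy])
  have h2 : sD2 ρ y ≤ (1 + ρ ^ (2 : ℕ)) * (1 + (-(2 * y * p) + (1 + p) * y ^ (2 : ℕ))) := by
    rw [gh_sD2 h, neg_mul]
    have h3 := mul_le_mul_of_nonneg_left h1 (sq_nonneg ρ)
    nlinarith only [hy, hp, h3]
  have h3 := sD2_pos (ρ := ρ) (by linarith : -1 < y)
  have h4 : 0 < 1 + (-(2 * y * p) + (1 + p) * y ^ (2 : ℕ)) := by
    have := h3.trans_le h2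
    exact (mul_pos_iff_of_pos_left hR).1 this
  calc Real.log (sD2 ρ y) ≤ Real.log ((1 + ρ ^ (2 : ℕ)) * (1 + (-(2 * y * p) + (1 + p) * y ^ (2 : ℕ)))) :=
        Real.log_le_log h3 h2
    _ = Real.log (1 + ρ ^ (2 : ℕ)) + Real.log (1 + (-(2 * y * p) + (1 + p) * y ^ (2 : ℕ))) :=
        Real.log_mul hR.ne' h4.ne'
    _ ≤ _ := by
      have := Real.log_le_sub_one_of_pos h4
      linarith only [this]

/-- right: `D² ≥ R (1 + 2 n p + (1 + p) n²)` -/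
theorem D_right {ρ n p : ℝ} (h : Dom ρ (-n)) (hn : 0 ≤ n) (hp : (1 + ρ ^ (2 : ℕ)) * p = ρ ^ (2 : ℕ) - 1) :
    (1 + ρ ^ (2 : ℕ)) * (1 + 2 * n * p + (1 + p) * n ^ (2 : ℕ)) ≤ sD2 ρ (-n) := by
  have h1 := Real.quadratic_le_exp_of_nonneg (show 0 ≤ 2 * n by linarith only [hn])
  rw [gh_sD2 h, show -2 * -n = 2 * n by ring]
  have h3 := mul_le_mul_of_nonneg_left h1 (sq_nonneg ρ)
  nlinarith only [hn, hp, h3]

theorem logD_right {ρ n p z : ℝ} (h : Dom ρ (-n)) (hn : 0 ≤ n) (hp : (1 + ρ ^ (2 : ℕ)) * p = ρ ^ (2 : ℕ) - 1)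
    (hz : Real.exp z ≤ 1 + 2 * n * p + (1 + p) * n ^ (2 : ℕ)) :
    Real.log (1 + ρ ^ (2 : ℕ)) + z ≤ Real.log (sD2 ρ (-n)) := by
  have hR : 0 < 1 + ρ ^ (2 : ℕ) := by positivity
  have h1 := D_right h hn hp
  have h2 := Real.exp_pos z
  have h3 : 0 < 1 + 2 * n * p + (1 + p) * n ^ (2 : ℕ) := h2.trans_le hz
  calc Real.log (1 + ρ ^ (2 : ℕ)) + z = Real.log (1 + ρ ^ (2 : ℕ)) + Real.log (Real.exp z) := by
        rw [Real.log_exp]
    _ = Real.log ((1 + ρ ^ (2 : ℕ)) * Real.exp z) := (Real.log_mul hR.ne' h2.ne').symm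
    _ ≤ Real.log (sD2 ρ (-n)) := Real.log_le_log (by positivity)
        ((mul_le_mul_of_nonneg_left hz hR.le).trans h1)

theorem exp_71 {z : ℝ} (h0 : 0 ≤ z) (h1 : z ≤ 19 / 20) : Real.exp z ≤ 1 + z + 71 / 100 * z ^ (2 : ℕ) := by
  have h2 := Real.exp_bound' h0 (by linarith only [h1]) (n := 4) (by norm_num)
  norm_num [Finset.sum_range_succ, Nat.factorial] at h2
  nlinarith only [h2, mul_nonneg (sq_nonneg z) (sub_nonneg.2 h1), mul_nonneg (mul_nonneg (sq_nonneg z) h0) (sub_nonneg.2 h1)]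

/-- the difference of the levels -/
theorem phi_diff {r δ ya yb u q θ c A : ℝ} (hr : 0 < r) (hδ : 0 < δ) (hq : 0 < q)
    (hq2 : q ^ (2 : ℕ) = 1 + (r * δ) ^ (2 : ℕ)) (hθ : θ * q = r * δ) (hθc : θ ≤ c)
    (ha : Dom (r * δ) ya) (hya : 0 ≤ ya)
    (hu : q * u = sE (r * δ) ya) (hu0 : 0 ≤ u) (hu1 : u ≤ 1 / 2)
    (hA : (r * δ) * A ≤ r * δ - sx (r * δ) yb * (1 + yb)) :
    r * A - r * (u ^ (2 : ℕ) / 2 + c * u ^ (3 : ℕ) / 6 + c ^ (2 : ℕ) * u ^ (4 : ℕ) / 6) ≤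
      sx (r * δ) ya * (1 + ya) / δ - sx (r * δ) yb * (1 + yb) / δ := by
  set ρ := r * δ with hρd
  have hρ : 0 < ρ := ha.1
  have hR : 0 < 1 + ρ ^ (2 : ℕ) := by positivity
  have hθ0 : 0 < θ := by
    by_contra hcon
    push Not at hcon
    have := mul_nonpos_of_nonpos_of_nonneg hcon hq.le
    linarith only [hθ, hρ, this]
  have hθ1 : θ ≤ 1 := by
    by_contra hcon
    push Not at hcon
    have h1 : q < θ * q := by nlinarith only [hθ, hρ, hcon]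
    rw [hθ] at h1
    have h2 : q ^ (2 : ℕ) < ρ ^ (2 : ℕ) := pow_lt_pow_left₀ h1 hq.le two_ne_zero
    linarith only [hq2, h2]
  have hs : (1 + ρ ^ (2 : ℕ)) * (θ * u) = ρ * sE ρ ya := by
    rw [← hq2, ← hu, ← hθ]; ring
  have h1 := left_drop_le ha hya hs (by nlinarith only [hu0, hu1, hθ1])
  -- divide
  have h2 : ρ - sx ρ ya * (1 + ya) ≤ ρ * (u ^ (2 : ℕ) / 2 + θ * u ^ (3 : ℕ) / 6 + θ ^ (2 : ℕ) * u ^ (4 : ℕ) / 6) := by
    have e1 : (1 + ρ ^ (2 : ℕ)) * ((θ * u) ^ (2 : ℕ) / 2 + (θ * u) ^ (3 : ℕ) / 6 + (θ * u) ^ (4 : ℕ) / 6) =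
        ρ * (ρ * (u ^ (2 : ℕ) / 2 + θ * u ^ (3 : ℕ) / 6 + θ ^ (2 : ℕ) * u ^ (4 : ℕ) / 6)) := by
      rw [← hq2]
      calc _ = (θ * q) ^ (2 : ℕ) * (u ^ (2 : ℕ) / 2 + θ * u ^ (3 : ℕ) / 6 + θ ^ (2 : ℕ) * u ^ (4 : ℕ) / 6) := by ring
        _ = _ := by rw [hθ]; ring
    rw [e1] at h1
    exact le_of_mul_le_mul_left h1 hρ
  have h3 : u ^ (2 : ℕ) / 2 + θ * u ^ (3 : ℕ) / 6 + θ ^ (2 : ℕ) * u ^ (4 : ℕ) / 6 ≤
      u ^ (2 : ℕ) / 2 + c * u ^ (3 : ℕ) / 6 + c ^ (2 : ℕ) * u ^ (4 : ℕ) / 6 := by gcongr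
  have h4 := h2.trans (mul_le_mul_of_nonneg_left h3 hρ.le)
  have h5 : ρ * A - ρ * (u ^ (2 : ℕ) / 2 + c * u ^ (3 : ℕ) / 6 + c ^ (2 : ℕ) * u ^ (4 : ℕ) / 6) ≤
      sx ρ ya * (1 + ya) - sx ρ yb * (1 + yb) := by linarith only [hA, h4]
  have h6 := div_le_div_of_nonneg_right h5 hδ.le
  calc _ = (ρ * A - ρ * (u ^ (2 : ℕ) / 2 + c * u ^ (3 : ℕ) / 6 + c ^ (2 : ℕ) * u ^ (4 : ℕ) / 6)) / δ := by
        rw [hρd]; field_simp
    _ ≤ _ := h6
    _ = _ := by ring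

/-- the data of a pair of saddles -/
structure LD (r δ ya yb u w q : ℝ) : Prop where
  hr : 0 < r
  hδ : 0 < δ
  hq : 0 < q
  hq2 : q ^ (2 : ℕ) = 1 + (r * δ) ^ (2 : ℕ)
  ha : Dom (r * δ) ya
  hb : Dom (r * δ) yb
  hya : 0 ≤ ya
  hyb : yb ≤ 0
  hb1 : -1 < yb
  hu : q * u = sE (r * δ) ya
  hu0 : 0 ≤ u
  hu1 : u ≤ 1 / 2
  hw : q * w = -sE (r * δ) yb
  hw0 : 0 < w
  hw1 : w ≤ 63 / 100

variable {r δ ya yb u w q : ℝ}

/-- `ρ² ≥ 3` -/
theorem LD.caseII (H : LD r δ ya yb u w q) (h3 : 3 ≤ (r * δ) ^ (2 : ℕ))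
    (hfin : 17 / 20 + cII u w ≤ r * (w ^ (2 : ℕ) / 2 - w ^ (3 : ℕ) / 6) - r * (u ^ (2 : ℕ) / 2 + u ^ (3 : ℕ) / 6 + u ^ (4 : ℕ) / 6)) :
    Gap r δ ya yb (17 / 20) := by
  obtain ⟨hr, hδ, hq, hq2, ha, hb, hya, hyb, hb1, hu, hu0, hu1, hw, hw0, hw1⟩ := H
  have hρ : 0 < r * δ := ha.1
  have hR : 0 < 1 + (r * δ) ^ (2 : ℕ) := by positivity
  obtain ⟨θ, hθ⟩ : ∃ θ : ℝ, θ * q = r * δ := ⟨r * δ / q, by field_simp⟩
  have hθ0 : 0 < θ := (mul_pos_iff_of_pos_right hq).1 (by rw [hθ]; exact hρ)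
  have hθq : θ ^ (2 : ℕ) * (1 + (r * δ) ^ (2 : ℕ)) = (r * δ) ^ (2 : ℕ) := by rw [← hq2, ← hθ]; ring
  have hθ1 : θ ≤ 1 := by
    by_contra hcon
    push Not at hcon
    have h1 : 1 < θ ^ (2 : ℕ) := by nlinarith only [hcon]
    have h2 := mul_lt_mul_of_pos_right h1 hR
    linarith only [hθq, h2]
  have hθ2 : 3 / 4 ≤ θ ^ (2 : ℕ) := by
    by_contra hcon
    push Not at hcon
    nlinarith only [h3, hθq, hcon]
  have hθ3 : 866 / 1000 ≤ θ := by
    by_contra hcon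
    push Not at hcon
    nlinarith only [hθ0, hθ2, hcon]
  set p : ℝ := 2 * θ ^ (2 : ℕ) - 1 with hp
  have hpR : (1 + (r * δ) ^ (2 : ℕ)) * p = (r * δ) ^ (2 : ℕ) - 1 := by rw [hp]; linear_combination 2 * hθq
  have hp0 : 1 / 2 ≤ p := by rw [hp]; linarith only [hθ2]
  have hp1 : p ≤ 1 := by rw [hp]; nlinarith only [hpR]
  -- the bounds of `n`, `y`
  obtain ⟨n, hn⟩ : ∃ n : ℝ, yb = -n := ⟨-yb, by ring⟩
  subst hn
  have hn0 : 0 ≤ n := by linarith only [hyb]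
  have hn1 : n < 1 := by linarith only [hb1]
  have hnw : n ≤ θ * w := by
    have h1 := right_n2 hb hn1 hn0 h3
    have h2 : (1 + (r * δ) ^ (2 : ℕ)) * n ≤ (1 + (r * δ) ^ (2 : ℕ)) * (θ * w) := by
      refine h1.trans (le_of_eq ?_)
      have : -(r * δ * sE (r * δ) (-n)) = r * δ * (-sE (r * δ) (-n)) := by ring
      rw [this, ← hw, ← hq2, ← hθ]
      ring
    exact le_of_mul_le_mul_left h2 hR
  have hn2 : n ≤ 63 / 100 := by nlinarith only [hw0, hw1, hθ1, hnw]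
  have hy : ya ≤ θ * u + (θ * u) ^ (2 : ℕ) / 2 + 2 / 3 * (θ * u) ^ (3 : ℕ) := by
    apply left_y ha hya _ (by nlinarith only [hu0, hu1, hθ1])
    rw [← hq2, ← hu, ← hθ]; ring
  have hyY : ya ≤ u + u ^ (2 : ℕ) / 2 + 2 / 3 * u ^ (3 : ℕ) := by
    refine hy.trans ?_
    have : θ * u ≤ u := by nlinarith only [hu0, hθ1]
    gcongr
  -- the drop
  have hdrop := (right_drop hb hb1 (by linarith only [hn0]) hq hq2 hw (by linarith only [hw1])).1
  have hphi := phi_diff (yb := -n) (c := 1) hr hδ hq hq2 hθ hθ1 ha hya hu hu0 hu1 hdrop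
  -- the levels
  have hla := logD_left ha hya hpR
  have hlb := logD_right hb hn0 hpR (z := 3 / 2 * n * p) (by
    have hz0 : 0 ≤ 3 / 2 * n * p := by positivity
    have hz1 : 3 / 2 * n * p ≤ 19 / 20 := by nlinarith only [hp0, hp1, hn2]
    refine (exp_71 hz0 hz1).trans ?_
    have h1 : 16 / 10 * p ^ (2 : ℕ) ≤ 1 + p := by nlinarith only [hp0, hp1]
    nlinarith only [mul_nonneg hn0 (mul_nonneg hn0 (sub_nonneg.2 h1)), mul_nonneg hn0 (by linarith : (0:ℝ) ≤ p)])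
  apply gap_of_log hr hδ ha hb (by linarith only [hya]) hb1 (by linarith only [hya, hn0])
  have hcost : ya - -n + 1 / 4 * (Real.log (sD2 (r * δ) ya) - Real.log (sD2 (r * δ) (-n))) ≤
      cII u w := by
    have e1 : 1 / 4 * (Real.log (sD2 (r * δ) ya) - Real.log (sD2 (r * δ) (-n))) ≤
        -(1 / 2 * ya * p) + 1 / 4 * (1 + p) * ya ^ (2 : ℕ) - 3 / 8 * n * p := by
      linarith only [hla, hlb]
    have e2 : 1 / 4 * (1 + p) * ya ^ (2 : ℕ) ≤ 1 / 2 * (u + u ^ (2 : ℕ) / 2 + 2 / 3 * u ^ (3 : ℕ)) ^ (2 : ℕ) := by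
      have h1 : ya ^ (2 : ℕ) ≤ (u + u ^ (2 : ℕ) / 2 + 2 / 3 * u ^ (3 : ℕ)) ^ (2 : ℕ) := pow_le_pow_left₀ hya hyY 2
      have h2 : 1 / 4 * (1 + p) ≤ 1 / 2 := by linarith only [hp1]
      exact mul_le_mul h2 h1 (sq_nonneg _) (by norm_num)
    have e3 : n * (1 - 3 / 8 * p) ≤ 704 / 1000 * w := by
      have h1 : n * (1 - 3 / 8 * p) ≤ θ * w * (1 - 3 / 8 * p) :=
        mul_le_mul_of_nonneg_right hnw (by linarith only [hp1])
      have h2 : θ * (1 - 3 / 8 * p) ≤ 704 / 1000 := by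
        rw [hp]
        nlinarith only [hp0, mul_nonneg (sub_nonneg.2 hθ3) (sub_nonneg.2 hθ2)]
      nlinarith only [hθ3, hn0, hnw, h2]
    have e4 : ya * (1 - 1 / 2 * p) ≤ 13 / 20 * u + 3 / 8 * u ^ (2 : ℕ) + 1 / 2 * u ^ (3 : ℕ) := by
      have h1 : ya * (1 - 1 / 2 * p) ≤ (θ * u + (θ * u) ^ (2 : ℕ) / 2 + 2 / 3 * (θ * u) ^ (3 : ℕ)) *
          (1 - 1 / 2 * p) := mul_le_mul_of_nonneg_right hy (by linarith only [hp1])
      have h2 : θ * (1 - 1 / 2 * p) ≤ 13 / 20 := by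
        rw [hp]
        nlinarith only [hp0, mul_nonneg (sub_nonneg.2 hθ3) (sub_nonneg.2 hθ2)]
      have h3 : θ * u ≤ u := by nlinarith only [hu0, hθ1]
      have h4 : 1 - 1 / 2 * p ≤ 3 / 4 := by linarith only [hp0]
      have h5 : (θ * u) ^ (2 : ℕ) / 2 + 2 / 3 * (θ * u) ^ (3 : ℕ) ≤ u ^ (2 : ℕ) / 2 + 2 / 3 * u ^ (3 : ℕ) := by gcongr
      have h6 : ((θ * u) ^ (2 : ℕ) / 2 + 2 / 3 * (θ * u) ^ (3 : ℕ)) * (1 - 1 / 2 * p) ≤
          (u ^ (2 : ℕ) / 2 + 2 / 3 * u ^ (3 : ℕ)) * (3 / 4) :=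
        mul_le_mul h5 h4 (by linarith only [hp1]) (by positivity)
      have h7 := mul_le_mul_of_nonneg_right h2 hu0
      linarith only [h1, h6, h7]
    unfold cII
    linarith only [e1, e2, e3, e4]
  have h1 : r * (w ^ (2 : ℕ) / 2 - w ^ (3 : ℕ) / 6) - r * (u ^ (2 : ℕ) / 2 + u ^ (3 : ℕ) / 6 + u ^ (4 : ℕ) / 6) ≤
      sx (r * δ) ya * (1 + ya) / δ - sx (r * δ) (-n) * (1 + -n) / δ := by
    refine le_trans (le_of_eq ?_) hphi
    ring
  linarith only [hfin, hcost, h1]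

end SokamV3.GL

end

/-! ### Lib_MP_af4de1_v3.GapL2 -/

section
namespace SokamF1
end SokamF1
namespace SokamF1M
end SokamF1M
namespace SokamF1S
end SokamF1S
namespace SokamU
end SokamU
namespace SokamV3
end SokamV3
/-!
# PGap1.L: the cases `ρ² ≤ 3` (helper69)
-/

set_option autoImplicit false

namespace SokamV3.GL

open Complex SokamV3 SokamU SokamF1 SokamF1S SokamF1M

theorem n_lt {ρ n N q w θ : ℝ} (hb : Dom ρ (-n)) (hn1 : n < 1) (hN : 0 ≤ N) (hq : 0 < q)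
    (hq2 : q ^ (2 : ℕ) = 1 + ρ ^ (2 : ℕ)) (hθ : θ * q = ρ) (hw : q * w = -sE ρ (-n))
    (hP : θ * w < (1 - θ ^ (2 : ℕ)) * (N - 3 / 2 * N ^ (2 : ℕ) + 5 / 6 * N ^ (3 : ℕ) - 1 / 3 * N ^ (4 : ℕ)) +
      θ ^ (2 : ℕ) * (N + N ^ (2 : ℕ) / 2)) : n < N := by
  apply right_n_lt hb hn1 hN
  have e1 : -(ρ * sE ρ (-n)) = q ^ (2 : ℕ) * (θ * w) := by
    have : -(ρ * sE ρ (-n)) = ρ * (-sE ρ (-n)) := by ring
    rw [this, ← hw, ← hθ]; ring
  have e2 : q ^ (2 : ℕ) * (1 - θ ^ (2 : ℕ)) = 1 := by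
    have : q ^ (2 : ℕ) * (1 - θ ^ (2 : ℕ)) = q ^ (2 : ℕ) - (θ * q) ^ (2 : ℕ) := by ring
    rw [this, hθ, hq2]; ring
  have e3 : q ^ (2 : ℕ) * θ ^ (2 : ℕ) = ρ ^ (2 : ℕ) := by rw [← hθ]; ring
  rw [e1]
  have h1 := mul_lt_mul_of_pos_left hP (by positivity : 0 < q ^ (2 : ℕ))
  calc q ^ (2 : ℕ) * (θ * w) < _ := h1
    _ = (q ^ (2 : ℕ) * (1 - θ ^ (2 : ℕ))) * (N - 3 / 2 * N ^ (2 : ℕ) + 5 / 6 * N ^ (3 : ℕ) - 1 / 3 * N ^ (4 : ℕ)) +
        (q ^ (2 : ℕ) * θ ^ (2 : ℕ)) * (N + N ^ (2 : ℕ) / 2) := by ring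
    _ = _ := by rw [e2, e3, one_mul]

variable {r δ ya yb u w q : ℝ}

/-- the bound of `n` for `ρ² ≤ 3` -/
theorem LD.n_le (H : LD r δ ya yb u w q) (h3 : (r * δ) ^ (2 : ℕ) ≤ 3) {θ : ℝ} (hθ : θ * q = r * δ) :
    0 < θ ∧ θ ^ (2 : ℕ) ≤ 3 / 4 ∧ (w ≤ 9 / 20 → -yb ≤ θ * w + 3 / 4 * w ^ (2 : ℕ)) ∧ -yb ≤ 2 * θ * w := by
  obtain ⟨hr, hδ, hq, hq2, ha, hb, hya, hyb, hb1, hu, hu0, hu1, hw, hw0, hw1⟩ := H
  have hρ : 0 < r * δ := ha.1
  have hR : 0 < 1 + (r * δ) ^ (2 : ℕ) := by positivity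
  have hθ0 : 0 < θ := (mul_pos_iff_of_pos_right hq).1 (by rw [hθ]; exact hρ)
  have hθq : θ ^ (2 : ℕ) * (1 + (r * δ) ^ (2 : ℕ)) = (r * δ) ^ (2 : ℕ) := by rw [← hq2, ← hθ]; ring
  have hθ2 : θ ^ (2 : ℕ) ≤ 3 / 4 := by
    by_contra hcon
    push Not at hcon
    nlinarith only [h3, hθq, hcon]
  obtain ⟨n, hn⟩ : ∃ n : ℝ, yb = -n := ⟨-yb, by ring⟩
  subst hn
  rw [neg_neg]
  refine ⟨hθ0, hθ2, fun hw2 => ?_, ?_⟩
  · exact (n_lt hb (by linarith only [hb1]) (by positivity) hq hq2 hθ hw (poly_small hθ0.le hθ2 hw0 hw2 rfl)).le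
  · exact (n_lt hb (by linarith only [hb1]) (by positivity) hq hq2 hθ hw (poly_big hθ0 hθ2 hw0 hw1 rfl)).le

/-- `1 ≤ ρ² ≤ 3` -/
theorem LD.caseIa (H : LD r δ ya yb u w q) (h1 : 1 ≤ (r * δ) ^ (2 : ℕ)) (h3 : (r * δ) ^ (2 : ℕ) ≤ 3) {D : ℝ}
    (hD : (w ≤ 9 / 20 ∧ 8661 / 10000 + 3 / 4 * w ≤ D) ∨ 17322 / 10000 ≤ D)
    (hfin : ∀ Y N : ℝ, 0 ≤ Y → Y ≤ 8661 / 10000 * u + (8661 / 10000 * u) ^ (2 : ℕ) / 2 +
      2 / 3 * (8661 / 10000 * u) ^ (3 : ℕ) → N ≤ D * w →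
      17 / 20 + cIa Y N ≤ r * (w ^ (2 : ℕ) / 2 - w ^ (4 : ℕ) / 8) -
        r * (u ^ (2 : ℕ) / 2 + 8661 / 10000 * u ^ (3 : ℕ) / 6 + (8661 / 10000) ^ (2 : ℕ) * u ^ (4 : ℕ) / 6)) :
    Gap r δ ya yb (17 / 20) := by
  have hρ : 0 < r * δ := H.ha.1
  have hR : 0 < 1 + (r * δ) ^ (2 : ℕ) := by positivity
  obtain ⟨θ, hθ⟩ : ∃ θ : ℝ, θ * q = r * δ := ⟨r * δ / q, by have := H.hq; field_simp⟩
  obtain ⟨hθ0, hθ2, hn1, hn2⟩ := H.n_le h3 hθ
  obtain ⟨hr, hδ, hq, hq2, ha, hb, hya, hyb, hb1, hu, hu0, hu1, hw, hw0, hw1⟩ := H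
  have hθq : θ ^ (2 : ℕ) * (1 + (r * δ) ^ (2 : ℕ)) = (r * δ) ^ (2 : ℕ) := by rw [← hq2, ← hθ]; ring
  have hθ3 : θ ≤ 8661 / 10000 := by nlinarith only [hθ2]
  have hθh : 1 / 2 ≤ θ ^ (2 : ℕ) := by
    by_contra hcon
    push Not at hcon
    nlinarith only [h1, hθq, hcon]
  set p : ℝ := 2 * θ ^ (2 : ℕ) - 1 with hp
  have hpR : (1 + (r * δ) ^ (2 : ℕ)) * p = (r * δ) ^ (2 : ℕ) - 1 := by rw [hp]; linear_combination 2 * hθq
  have hp0 : 0 ≤ p := by rw [hp]; linarith only [hθh]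
  have hp1 : p ≤ 1 / 2 := by rw [hp]; linarith only [hθ2]
  obtain ⟨n, hn⟩ : ∃ n : ℝ, yb = -n := ⟨-yb, by ring⟩
  subst hn
  rw [neg_neg] at hn1 hn2
  have hn0 : 0 ≤ n := by linarith only [hyb]
  have hnD : n ≤ D * w := by
    rcases hD with ⟨hw2, hD⟩ | hD
    · have h2 := hn1 hw2
      have h4 : θ * w + 3 / 4 * w ^ (2 : ℕ) = (θ + 3 / 4 * w) * w := by ring
      rw [h4] at h2
      exact h2.trans (mul_le_mul_of_nonneg_right (by linarith only [hθ3, hD]) hw0.le)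
    · exact hn2.trans (mul_le_mul_of_nonneg_right (by linarith only [hθ3, hD]) hw0.le)
  have hy : ya ≤ θ * u + (θ * u) ^ (2 : ℕ) / 2 + 2 / 3 * (θ * u) ^ (3 : ℕ) := by
    apply left_y ha hya _ (by nlinarith only [hθ0, hθ2, hu1])
    rw [← hq2, ← hu, ← hθ]; ring
  have hyY : ya ≤ 8661 / 10000 * u + (8661 / 10000 * u) ^ (2 : ℕ) / 2 + 2 / 3 * (8661 / 10000 * u) ^ (3 : ℕ) := by
    refine hy.trans ?_
    gcongr
  have hdrop := (right_drop hb hb1 (by linarith only [hn0]) hq hq2 hw (by linarith only [hw1])).2 h3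
  have hphi := phi_diff (yb := -n) (c := 8661 / 10000) hr hδ hq hq2 hθ hθ3 ha hya hu hu0 hu1 hdrop
  have hla := logD_left ha hya hpR
  have hlb := logD_right hb hn0 hpR (z := 0) (by
    rw [Real.exp_zero]
    have : 0 ≤ 2 * n * p + (1 + p) * n ^ (2 : ℕ) := by positivity
    linarith only [this])
  apply gap_of_log hr hδ ha hb (by linarith only [hya]) hb1 (by linarith only [hya, hn0])
  have h5 := hfin ya n hya hyY hnD
  have e1 : 0 ≤ ya * p := mul_nonneg hya hp0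
  have e2 : (1 + p) * ya ^ (2 : ℕ) ≤ 3 / 2 * ya ^ (2 : ℕ) := mul_le_mul_of_nonneg_right (by linarith only [hp1]) (sq_nonneg _)
  unfold cIa at h5
  linarith only [hphi, hla, hlb, h5, e1, e2]

theorem exp_frac {t : ℝ} (h1 : t < 1) : Real.exp (-(t / (1 - t))) ≤ 1 - t := by
  have h0 : 0 < 1 - t := by linarith only [h1]
  have h2 := Real.one_sub_inv_le_log_of_pos h0
  have h3 : 1 - (1 - t)⁻¹ = -(t / (1 - t)) := by
    field_simp
    ring
  rw [h3, Real.le_log_iff_exp_le h0] at h2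
  exact h2

/-- `ρ² ≤ 1` -/
theorem LD.caseIb (H : LD r δ ya yb u w q) (h1 : (r * δ) ^ (2 : ℕ) ≤ 1) {D E f : ℝ}
    (hD : (w ≤ 9 / 20 ∧ 7072 / 10000 + 3 / 4 * w ≤ D ∧ 2723 / 10000 + 3 / 4 * w ≤ E) ∨
      (14144 / 10000 ≤ D ∧ 5446 / 10000 ≤ E))
    (hf0 : 0 ≤ f) (hf : 1 / 2 ≤ f * (1 - 2 * (E * w)))
    (hfin : ∀ Y N M : ℝ, 0 ≤ Y → Y ≤ 7072 / 10000 * u + (7072 / 10000 * u) ^ (2 : ℕ) / 2 +
      2 / 3 * (7072 / 10000 * u) ^ (3 : ℕ) → N ≤ D * w → M ≤ E * w →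
      17 / 20 + cIb Y N f M ≤ r * (w ^ (2 : ℕ) / 2 - w ^ (4 : ℕ) / 8) -
        r * (u ^ (2 : ℕ) / 2 + 7072 / 10000 * u ^ (3 : ℕ) / 6 + (7072 / 10000) ^ (2 : ℕ) * u ^ (4 : ℕ) / 6)) :
    Gap r δ ya yb (17 / 20) := by
  have hρ : 0 < r * δ := H.ha.1
  have hR : 0 < 1 + (r * δ) ^ (2 : ℕ) := by positivity
  obtain ⟨θ, hθ⟩ : ∃ θ : ℝ, θ * q = r * δ := ⟨r * δ / q, by have := H.hq; field_simp⟩
  have h3 : (r * δ) ^ (2 : ℕ) ≤ 3 := by linarith only [h1]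
  obtain ⟨hθ0, -, hn1, hn2⟩ := H.n_le h3 hθ
  obtain ⟨hr, hδ, hq, hq2, ha, hb, hya, hyb, hb1, hu, hu0, hu1, hw, hw0, hw1⟩ := H
  have hθq : θ ^ (2 : ℕ) * (1 + (r * δ) ^ (2 : ℕ)) = (r * δ) ^ (2 : ℕ) := by rw [← hq2, ← hθ]; ring
  have hθh : θ ^ (2 : ℕ) ≤ 1 / 2 := by
    by_contra hcon
    push Not at hcon
    nlinarith only [h1, hθq, hcon]
  have hθ3 : θ ≤ 7072 / 10000 := by nlinarith only [hθh]
  set p : ℝ := 2 * θ ^ (2 : ℕ) - 1 with hp
  have hpR : (1 + (r * δ) ^ (2 : ℕ)) * p = (r * δ) ^ (2 : ℕ) - 1 := by rw [hp]; linear_combination 2 * hθq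
  have hp0 : p ≤ 0 := by rw [hp]; linarith only [hθh]
  have hp1 : -1 ≤ p := by rw [hp]; nlinarith only []
  obtain ⟨n, hn⟩ : ∃ n : ℝ, yb = -n := ⟨-yb, by ring⟩
  subst hn
  rw [neg_neg] at hn1 hn2
  have hn0 : 0 ≤ n := by linarith only [hyb]
  have hθp : θ * -p ≤ 2723 / 10000 := by
    rw [hp]
    nlinarith only [mul_nonneg hθ0.le (sq_nonneg (θ - 408 / 1000))]
  have hnD : n ≤ D * w ∧ n * -p ≤ E * w := by
    rcases hD with ⟨hw2, hD, hE⟩ | ⟨hD, hE⟩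
    · have h2 := hn1 hw2
      have h4 : θ * w + 3 / 4 * w ^ (2 : ℕ) = (θ + 3 / 4 * w) * w := by ring
      rw [h4] at h2
      refine ⟨h2.trans (mul_le_mul_of_nonneg_right (by linarith only [hθ3, hD]) hw0.le), ?_⟩
      have h5 := mul_le_mul_of_nonneg_right h2 (by linarith : (0 : ℝ) ≤ -p)
      have h6 : (θ + 3 / 4 * w) * w * -p = (θ * -p + 3 / 4 * w * -p) * w := by ring
      rw [h6] at h5
      refine h5.trans (mul_le_mul_of_nonneg_right ?_ hw0.le)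
      have h7 : 3 / 4 * w * -p ≤ 3 / 4 * w * 1 := mul_le_mul_of_nonneg_left (by linarith only [hp1]) (by positivity)
      linarith only [hθp, hE, h7]
    · refine ⟨hn2.trans (mul_le_mul_of_nonneg_right (by linarith only [hθ3, hD]) hw0.le), ?_⟩
      have h5 := mul_le_mul_of_nonneg_right hn2 (by linarith : (0 : ℝ) ≤ -p)
      have h6 : 2 * θ * w * -p = 2 * (θ * -p) * w := by ring
      rw [h6] at h5
      exact h5.trans (mul_le_mul_of_nonneg_right (by linarith only [hθp, hE]) hw0.le)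
  obtain ⟨hnD, hnE⟩ := hnD
  have hy : ya ≤ θ * u + (θ * u) ^ (2 : ℕ) / 2 + 2 / 3 * (θ * u) ^ (3 : ℕ) := by
    apply left_y ha hya _ (by nlinarith only [hu0, hu1, hθ3])
    rw [← hq2, ← hu, ← hθ]; ring
  have hyY : ya ≤ 7072 / 10000 * u + (7072 / 10000 * u) ^ (2 : ℕ) / 2 + 2 / 3 * (7072 / 10000 * u) ^ (3 : ℕ) := by
    refine hy.trans ?_
    gcongr
  have hdrop := (right_drop hb hb1 (by linarith only [hn0]) hq hq2 hw (by linarith only [hw1])).2 h3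
  have hphi := phi_diff (yb := -n) (c := 7072 / 10000) hr hδ hq hq2 hθ hθ3 ha hya hu hu0 hu1 hdrop
  have hla := logD_left ha hya hpR
  set t : ℝ := 2 * (n * -p) with ht
  have ht0 : 0 ≤ t := by
    have := mul_nonneg hn0 (by linarith : (0 : ℝ) ≤ -p)
    rw [ht]; linarith only [this]
  have ht1 : 1 / 2 ≤ f * (1 - t) := by
    refine hf.trans (mul_le_mul_of_nonneg_left ?_ hf0)
    rw [ht]; linarith only [hnE]
  have ht2 : t < 1 := by
    by_contra hcon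
    push Not at hcon
    have := mul_nonneg hf0 (by linarith : 0 ≤ t - 1)
    linarith only [ht1, this]
  have hlb := logD_right hb hn0 hpR (z := -(t / (1 - t))) (by
    refine (exp_frac ht2).trans ?_
    have : 0 ≤ (1 + p) * n ^ (2 : ℕ) := mul_nonneg (by linarith only [hp1]) (sq_nonneg _)
    rw [ht]
    linarith only [this])
  have htf : 1 / 4 * (t / (1 - t)) ≤ f * (n * -p) := by
    have h0 : 0 < 1 - t := by linarith only [ht2]
    rw [← mul_div_assoc, div_le_iff₀ h0]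
    have h5 : t * (1 / 2) ≤ t * (f * (1 - t)) := mul_le_mul_of_nonneg_left ht1 ht0
    have h6 : t * (f * (1 - t)) = 2 * (f * (n * -p) * (1 - t)) := by rw [ht]; ring
    linarith only [h5]
  apply gap_of_log hr hδ ha hb (by linarith only [hya]) hb1 (by linarith only [hya, hn0])
  have h5 := hfin ya n (n * -p) hya hyY hnD hnE
  have e1 : -(2 * ya * p) ≤ 2 * ya := by
    have := mul_nonneg hya (by linarith : (0 : ℝ) ≤ 1 + p)
    linarith only [this]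
  have e2 : (1 + p) * ya ^ (2 : ℕ) ≤ 1 * ya ^ (2 : ℕ) := mul_le_mul_of_nonneg_right (by linarith only [hp0]) (sq_nonneg _)
  unfold cIb at h5
  linarith only [hphi, hla, hlb, htf, h5, e1, e2]

end SokamV3.GL

end

/-! ### Lib_MP_af4de1_v3.GapL3 -/

section
namespace SokamF1
end SokamF1
namespace SokamF1M
end SokamF1M
namespace SokamF1S
end SokamF1S
namespace SokamU
end SokamU
namespace SokamV3
end SokamV3
/-!
# PGap1.L: assembly (helper69)
-/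

set_option autoImplicit false

namespace SokamV3.GL

open Complex SokamV3 SokamU SokamF1 SokamF1S SokamF1M

variable {r δ ya yb u w q v : ℝ}

theorem subA0 (H : LD r δ ya yb u w q) (hr : 499 / 10 ≤ r) (hv : 0 ≤ v) (hv1 : v ≤ 329 / 1000)
    (hG : 27 / 5 ≤ r * v ^ (2 : ℕ)) (hu : u ≤ 1 / 4 * v) (hw : w = 3 / 4 * v) : Gap r δ ya yb (17 / 20) := by
  have hr0 : 0 ≤ r := H.hr.le
  have hw0 := H.hw0
  have hu0 := H.hu0
  rcases le_total 3 ((r * δ) ^ (2 : ℕ)) with h3 | h3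
  · exact H.caseII h3 (numII (vm := 329 / 1000) (P := 22593 / 100000) (K := 7103 / 10000) hr0 hv hv1
      (by norm_num) (by norm_num) hu0 hu hw (by norm_num) (by norm_num)
      (fin_small hv1 hG (by norm_num) (by norm_num) (by norm_num)))
  · rcases le_total 1 ((r * δ) ^ (2 : ℕ)) with h1 | h1
    · refine H.caseIa h1 h3 (D := 657 / 625) (Or.inl ⟨by linarith only [hv1, hw], by linarith only [hv1, hw]⟩) fun Y N hY0 hY hN => ?_
      exact numIa (vm := 329 / 1000) (P := 6123 / 25000) (K := 10197 / 10000) (Cy := 8999 / 10000) (D := 657 / 625)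
        hr0 hv hv1 (by norm_num) (by norm_num) hu0 hu hw hY0 hY (by norm_num) (by norm_num) hN
        (by norm_num) (fin_small hv1 hG (by norm_num) (by norm_num) (by norm_num))
    · refine H.caseIb h1 (D := 8923 / 10000) (E := 2287 / 5000) (f := 3229 / 5000)
        (Or.inl ⟨by linarith only [hv1, hw], by linarith only [hv1, hw], by linarith only [hv1, hw]⟩) (by norm_num) (by linarith only [hv1, hw])
        fun Y N M hY0 hY hN hM => ?_
      exact numIb (vm := 329 / 1000) (P := 24507 / 100000) (K := 11671 / 10000) (Cy := 3647 / 5000) (D := 8923 / 10000)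
        (E := 2287 / 5000) hr0 hv hv1 (by norm_num) (by norm_num) hu0 hu hw hY0 hY (by norm_num)
        (by norm_num) hN hM (by norm_num) (by norm_num) (fin_small hv1 hG (by norm_num) (by norm_num) (by norm_num))

theorem subA1 (H : LD r δ ya yb u w q) (hr : 499 / 10 ≤ r) (hv : 0 ≤ v) (hv1 : v ≤ 4477 / 10000) (hv0 : 329 / 1000 ≤ v)
    (hu : u ≤ 1 / 4 * v) (hw : w = 3 / 4 * v) : Gap r δ ya yb (17 / 20) := by
  have hr0 : 0 ≤ r := H.hr.le
  have hw0 := H.hw0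
  have hu0 := H.hu0
  rcases le_total 3 ((r * δ) ^ (2 : ℕ)) with h3 | h3
  · exact H.caseII h3 (numII (vm := 4477 / 10000) (P := 10861 / 50000) (K := 1437 / 2000) hr0 hv hv1
      (by norm_num) (by norm_num) hu0 hu hw (by norm_num) (by norm_num)
      (fin_large (by norm_num) hv0 hr (by norm_num) (by norm_num) (by norm_num)))
  · rcases le_total 1 ((r * δ) ^ (2 : ℕ)) with h1 | h1
    · refine H.caseIa h1 h3 (D := 559 / 500) (Or.inl ⟨by linarith only [hv1, hw], by linarith only [hv1, hw]⟩) fun Y N hY0 hY hN => ?_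
      exact numIa (vm := 4477 / 10000) (P := 753 / 3125) (K := 10757 / 10000) (Cy := 571 / 625) (D := 559 / 500)
        hr0 hv hv1 (by norm_num) (by norm_num) hu0 hu hw hY0 hY (by norm_num) (by norm_num) hN
        (by norm_num) (fin_large (by norm_num) hv0 hr (by norm_num) (by norm_num) (by norm_num))
    · refine H.caseIb h1 (D := 9591 / 10000) (E := 2621 / 5000) (f := 7717 / 10000)
        (Or.inl ⟨by linarith only [hv1, hw], by linarith only [hv1, hw], by linarith only [hv1, hw]⟩) (by norm_num) (by linarith only [hv1, hw])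
        fun Y N M hY0 hY hN hM => ?_
      exact numIb (vm := 4477 / 10000) (P := 12059 / 50000) (K := 6517 / 5000) (Cy := 3691 / 5000) (D := 9591 / 10000)
        (E := 2621 / 5000) hr0 hv hv1 (by norm_num) (by norm_num) hu0 hu hw hY0 hY (by norm_num)
        (by norm_num) hN hM (by norm_num) (by norm_num) (fin_large (by norm_num) hv0 hr (by norm_num) (by norm_num) (by norm_num))

theorem subB0 (H : LD r δ ya yb u w q) (hr : 499 / 10 ≤ r) (hv : 0 ≤ v) (hv1 : v ≤ 4477 / 10000)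
    (hG : 10 ≤ r * v ^ (2 : ℕ)) (hu : u ≤ 7 / 20 * v) (hw : w = 13 / 20 * v) : Gap r δ ya yb (17 / 20) := by
  have hr0 : 0 ≤ r := H.hr.le
  have hw0 := H.hw0
  have hu0 := H.hu0
  rcases le_total 3 ((r * δ) ^ (2 : ℕ)) with h3 | h3
  · exact H.caseII h3 (numII (vm := 4477 / 10000) (P := 629 / 5000) (K := 7429 / 10000) hr0 hv hv1
      (by norm_num) (by norm_num) hu0 hu hw (by norm_num) (by norm_num)
      (fin_small hv1 hG (by norm_num) (by norm_num) (by norm_num)))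
  · rcases le_total 1 ((r * δ) ^ (2 : ℕ)) with h1 | h1
    · refine H.caseIa h1 h3 (D := 2711 / 2500) (Or.inl ⟨by linarith only [hv1, hw], by linarith only [hv1, hw]⟩) fun Y N hY0 hY hN => ?_
      exact numIa (vm := 4477 / 10000) (P := 7119 / 50000) (K := 1313 / 1250) (Cy := 2339 / 2500) (D := 2711 / 2500)
        hr0 hv hv1 (by norm_num) (by norm_num) hu0 hu hw hY0 hY (by norm_num) (by norm_num) hN
        (by norm_num) (fin_small hv1 hG (by norm_num) (by norm_num) (by norm_num))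
    · refine H.caseIb h1 (D := 1851 / 2000) (E := 2453 / 5000) (f := 6999 / 10000)
        (Or.inl ⟨by linarith only [hv1, hw], by linarith only [hv1, hw], by linarith only [hv1, hw]⟩) (by norm_num) (by linarith only [hv1, hw])
        fun Y N M hY0 hY hN hM => ?_
      exact numIb (vm := 4477 / 10000) (P := 14301 / 100000) (K := 491 / 400) (Cy := 3761 / 5000) (D := 1851 / 2000)
        (E := 2453 / 5000) hr0 hv hv1 (by norm_num) (by norm_num) hu0 hu hw hY0 hY (by norm_num)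
        (by norm_num) hN hM (by norm_num) (by norm_num) (fin_small hv1 hG (by norm_num) (by norm_num) (by norm_num))

theorem subB1 (H : LD r δ ya yb u w q) (hr : 499 / 10 ≤ r) (hv : 0 ≤ v) (hv1 : v ≤ 49 / 100) (hv0 : 4477 / 10000 ≤ v)
    (hu : u ≤ 7 / 20 * v) (hw : w = 13 / 20 * v) : Gap r δ ya yb (17 / 20) := by
  have hr0 : 0 ≤ r := H.hr.le
  have hw0 := H.hw0
  have hu0 := H.hu0
  rcases le_total 3 ((r * δ) ^ (2 : ℕ)) with h3 | h3
  · exact H.caseII h3 (numII (vm := 49 / 100) (P := 12347 / 100000) (K := 1499 / 2000) hr0 hv hv1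
      (by norm_num) (by norm_num) hu0 hu hw (by norm_num) (by norm_num)
      (fin_large (by norm_num) hv0 hr (by norm_num) (by norm_num) (by norm_num)))
  · rcases le_total 1 ((r * δ) ^ (2 : ℕ)) with h1 | h1
    · refine H.caseIa h1 h3 (D := 221 / 200) (Or.inl ⟨by linarith only [hv1, hw], by linarith only [hv1, hw]⟩) fun Y N hY0 hY hN => ?_
      exact numIa (vm := 49 / 100) (P := 2823 / 20000) (K := 2671 / 2500) (Cy := 1179 / 1250) (D := 221 / 200)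
        hr0 hv hv1 (by norm_num) (by norm_num) hu0 hu hw hY0 hY (by norm_num) (by norm_num) hN
        (by norm_num) (fin_large (by norm_num) hv0 hr (by norm_num) (by norm_num) (by norm_num))
    · refine H.caseIb h1 (D := 9461 / 10000) (E := 639 / 1250) (f := 1483 / 2000)
        (Or.inl ⟨by linarith only [hv1, hw], by linarith only [hv1, hw], by linarith only [hv1, hw]⟩) (by norm_num) (by linarith only [hv1, hw])
        fun Y N M hY0 hY hN hM => ?_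
      exact numIb (vm := 49 / 100) (P := 7093 / 50000) (K := 507 / 400) (Cy := 7571 / 10000) (D := 9461 / 10000)
        (E := 639 / 1250) hr0 hv hv1 (by norm_num) (by norm_num) hu0 hu hw hY0 hY (by norm_num)
        (by norm_num) hN hM (by norm_num) (by norm_num) (fin_large (by norm_num) hv0 hr (by norm_num) (by norm_num) (by norm_num))

theorem subB2 (H : LD r δ ya yb u w q) (hr : 499 / 10 ≤ r) (hv : 0 ≤ v) (hv1 : v ≤ 6331 / 10000) (hv0 : 49 / 100 ≤ v)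
    (hu : u ≤ 7 / 20 * v) (hw : w = 13 / 20 * v) : Gap r δ ya yb (17 / 20) := by
  have hr0 : 0 ≤ r := H.hr.le
  have hw0 := H.hw0
  have hu0 := H.hu0
  rcases le_total 3 ((r * δ) ^ (2 : ℕ)) with h3 | h3
  · exact H.caseII h3 (numII (vm := 6331 / 10000) (P := 11549 / 100000) (K := 1547 / 2000) hr0 hv hv1
      (by norm_num) (by norm_num) hu0 hu hw (by norm_num) (by norm_num)
      (fin_large (by norm_num) hv0 hr (by norm_num) (by norm_num) (by norm_num)))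
  · rcases le_total 1 ((r * δ) ^ (2 : ℕ)) with h1 | h1
    · refine H.caseIa h1 h3 (D := 2937 / 2500) (Or.inl ⟨by linarith only [hv1, hw], by linarith only [hv1, hw]⟩) fun Y N hY0 hY hN => ?_
      exact numIa (vm := 6331 / 10000) (P := 6819 / 50000) (K := 11307 / 10000) (Cy := 1941 / 2000) (D := 2937 / 2500)
        hr0 hv hv1 (by norm_num) (by norm_num) hu0 hu hw hY0 hY (by norm_num) (by norm_num) hN
        (by norm_num) (fin_large (by norm_num) hv0 hr (by norm_num) (by norm_num) (by norm_num))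
    · refine H.caseIb h1 (D := 10159 / 10000) (E := 581 / 1000) (f := 4791 / 5000)
        (Or.inl ⟨by linarith only [hv1, hw], by linarith only [hv1, hw], by linarith only [hv1, hw]⟩) (by norm_num) (by linarith only [hv1, hw])
        fun Y N M hY0 hY hN hM => ?_
      exact numIb (vm := 6331 / 10000) (P := 2747 / 20000) (K := 14403 / 10000) (Cy := 3871 / 5000) (D := 10159 / 10000)
        (E := 581 / 1000) hr0 hv hv1 (by norm_num) (by norm_num) hu0 hu hw hY0 hY (by norm_num)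
        (by norm_num) hN hM (by norm_num) (by norm_num) (fin_large (by norm_num) hv0 hr (by norm_num) (by norm_num) (by norm_num))

theorem subC0 (H : LD r δ ya yb u w q) (hr : 499 / 10 ≤ r) (hv : 0 ≤ v) (hv1 : v ≤ 6331 / 10000)
    (hG : 20 ≤ r * v ^ (2 : ℕ)) (hu : u ≤ 2 / 5 * v) (hw : w = 3 / 5 * v) : Gap r δ ya yb (17 / 20) := by
  have hr0 : 0 ≤ r := H.hr.le
  have hw0 := H.hw0
  have hu0 := H.hu0
  rcases le_total 3 ((r * δ) ^ (2 : ℕ)) with h3 | h3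
  · exact H.caseII h3 (numII (vm := 6331 / 10000) (P := 3437 / 50000) (K := 321 / 400) hr0 hv hv1
      (by norm_num) (by norm_num) hu0 hu hw (by norm_num) (by norm_num)
      (fin_small hv1 hG (by norm_num) (by norm_num) (by norm_num)))
  · rcases le_total 1 ((r * δ) ^ (2 : ℕ)) with h1 | h1
    · refine H.caseIa h1 h3 (D := 1151 / 1000) (Or.inl ⟨by linarith only [hv1, hw], by linarith only [hv1, hw]⟩) fun Y N hY0 hY hN => ?_
      exact numIa (vm := 6331 / 10000) (P := 8637 / 100000) (K := 5617 / 5000) (Cy := 9889 / 10000) (D := 1151 / 1000)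
        hr0 hv hv1 (by norm_num) (by norm_num) hu0 hu hw hY0 hY (by norm_num) (by norm_num) hN
        (by norm_num) (fin_small hv1 hG (by norm_num) (by norm_num) (by norm_num))
    · refine H.caseIb h1 (D := 9921 / 10000) (E := 1393 / 2500) (f := 8671 / 10000)
        (Or.inl ⟨by linarith only [hv1, hw], by linarith only [hv1, hw], by linarith only [hv1, hw]⟩) (by norm_num) (by linarith only [hv1, hw])
        fun Y N M hY0 hY hN hM => ?_
      exact numIb (vm := 6331 / 10000) (P := 8787 / 100000) (K := 13723 / 10000) (Cy := 7857 / 10000) (D := 9921 / 10000)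
        (E := 1393 / 2500) hr0 hv hv1 (by norm_num) (by norm_num) hu0 hu hw hY0 hY (by norm_num)
        (by norm_num) hN hM (by norm_num) (by norm_num) (fin_small hv1 hG (by norm_num) (by norm_num) (by norm_num))

theorem subC1a (H : LD r δ ya yb u w q) (hr : 499 / 10 ≤ r) (hv : 0 ≤ v) (hv1 : v ≤ 129 / 200) (hv0 : 6331 / 10000 ≤ v)
    (hu : u ≤ 2 / 5 * v) (hw : w = 3 / 5 * v) : Gap r δ ya yb (17 / 20) := by
  have hr0 : 0 ≤ r := H.hr.le
  have hw0 := H.hw0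
  have hu0 := H.hu0
  rcases le_total 3 ((r * δ) ^ (2 : ℕ)) with h3 | h3
  · exact H.caseII h3 (numII (vm := 129 / 200) (P := 1703 / 25000) (K := 1611 / 2000) hr0 hv hv1
      (by norm_num) (by norm_num) hu0 hu hw (by norm_num) (by norm_num)
      (fin_large (by norm_num) hv0 hr (by norm_num) (by norm_num) (by norm_num)))
  · rcases le_total 1 ((r * δ) ^ (2 : ℕ)) with h1 | h1
    · refine H.caseIa h1 h3 (D := 2891 / 2500) (Or.inl ⟨by linarith only [hv1, hw], by linarith only [hv1, hw]⟩) fun Y N hY0 hY hN => ?_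
      exact numIa (vm := 129 / 200) (P := 8597 / 100000) (K := 5643 / 5000) (Cy := 9917 / 10000) (D := 2891 / 2500)
        hr0 hv hv1 (by norm_num) (by norm_num) hu0 hu hw hY0 hY (by norm_num) (by norm_num) hN
        (by norm_num) (fin_large (by norm_num) hv0 hr (by norm_num) (by norm_num) (by norm_num))
    · refine H.caseIb h1 (D := 399 / 400) (E := 2813 / 5000) (f := 8857 / 10000)
        (Or.inl ⟨by linarith only [hv1, hw], by linarith only [hv1, hw], by linarith only [hv1, hw]⟩) (by norm_num) (by linarith only [hv1, hw])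
        fun Y N M hY0 hY hN hM => ?_
      exact numIb (vm := 129 / 200) (P := 7 / 80) (K := 693 / 500) (Cy := 63 / 80) (D := 399 / 400)
        (E := 2813 / 5000) hr0 hv hv1 (by norm_num) (by norm_num) hu0 hu hw hY0 hY (by norm_num)
        (by norm_num) hN hM (by norm_num) (by norm_num) (fin_large (by norm_num) hv0 hr (by norm_num) (by norm_num) (by norm_num))

theorem subC1 (H : LD r δ ya yb u w q) (hr : 499 / 10 ≤ r) (hv : 0 ≤ v) (hv1 : v ≤ 33 / 50) (hv0 : 129 / 200 ≤ v)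
    (hu : u ≤ 2 / 5 * v) (hw : w = 3 / 5 * v) : Gap r δ ya yb (17 / 20) := by
  have hr0 : 0 ≤ r := H.hr.le
  have hw0 := H.hw0
  have hu0 := H.hu0
  rcases le_total 3 ((r * δ) ^ (2 : ℕ)) with h3 | h3
  · exact H.caseII h3 (numII (vm := 33 / 50) (P := 3367 / 50000) (K := 8093 / 10000) hr0 hv hv1
      (by norm_num) (by norm_num) hu0 hu hw (by norm_num) (by norm_num)
      (fin_large (by norm_num) hv0 hr (by norm_num) (by norm_num) (by norm_num)))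
  · rcases le_total 1 ((r * δ) ^ (2 : ℕ)) with h1 | h1
    · refine H.caseIa h1 h3 (D := 727 / 625) (Or.inl ⟨by linarith only [hv1, hw], by linarith only [hv1, hw]⟩) fun Y N hY0 hY hN => ?_
      exact numIa (vm := 33 / 50) (P := 1709 / 20000) (K := 5677 / 5000) (Cy := 4977 / 5000) (D := 727 / 625)
        hr0 hv hv1 (by norm_num) (by norm_num) hu0 hu hw hY0 hY (by norm_num) (by norm_num) hN
        (by norm_num) (fin_large (by norm_num) hv0 hr (by norm_num) (by norm_num) (by norm_num))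
    · refine H.caseIb h1 (D := 10043 / 10000) (E := 2847 / 5000) (f := 9107 / 10000)
        (Or.inl ⟨by linarith only [hv1, hw], by linarith only [hv1, hw], by linarith only [hv1, hw]⟩) (by norm_num) (by linarith only [hv1, hw])
        fun Y N M hY0 hY hN hM => ?_
      exact numIb (vm := 33 / 50) (P := 8703 / 100000) (K := 351 / 250) (Cy := 7897 / 10000) (D := 10043 / 10000)
        (E := 2847 / 5000) hr0 hv hv1 (by norm_num) (by norm_num) hu0 hu hw hY0 hY (by norm_num)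
        (by norm_num) hN hM (by norm_num) (by norm_num) (fin_large (by norm_num) hv0 hr (by norm_num) (by norm_num) (by norm_num))

theorem subC2 (H : LD r δ ya yb u w q) (hr : 499 / 10 ≤ r) (hv : 0 ≤ v) (hv1 : v ≤ 7 / 10) (hv0 : 33 / 50 ≤ v)
    (hu : u ≤ 2 / 5 * v) (hw : w = 3 / 5 * v) : Gap r δ ya yb (17 / 20) := by
  have hr0 : 0 ≤ r := H.hr.le
  have hw0 := H.hw0
  have hu0 := H.hu0
  rcases le_total 3 ((r * δ) ^ (2 : ℕ)) with h3 | h3
  · exact H.caseII h3 (numII (vm := 7 / 10) (P := 1631 / 25000) (K := 8197 / 10000) hr0 hv hv1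
      (by norm_num) (by norm_num) hu0 hu hw (by norm_num) (by norm_num)
      (fin_large (by norm_num) hv0 hr (by norm_num) (by norm_num) (by norm_num)))
  · rcases le_total 1 ((r * δ) ^ (2 : ℕ)) with h1 | h1
    · refine H.caseIa h1 h3 (D := 2953 / 2500) (Or.inl ⟨by linarith only [hv1, hw], by linarith only [hv1, hw]⟩) fun Y N hY0 hY hN => ?_
      exact numIa (vm := 7 / 10) (P := 4201 / 50000) (K := 2883 / 2500) (Cy := 10051 / 10000) (D := 2953 / 2500)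
        hr0 hv hv1 (by norm_num) (by norm_num) hu0 hu hw hY0 hY (by norm_num) (by norm_num) hN
        (by norm_num) (fin_large (by norm_num) hv0 hr (by norm_num) (by norm_num) (by norm_num))
    · refine H.caseIb h1 (D := 10223 / 10000) (E := 2937 / 5000) (f := 9871 / 10000)
        (Or.inl ⟨by linarith only [hv1, hw], by linarith only [hv1, hw], by linarith only [hv1, hw]⟩) (by norm_num) (by linarith only [hv1, hw])
        fun Y N M hY0 hY hN hM => ?_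
      exact numIb (vm := 7 / 10) (P := 8573 / 100000) (K := 2913 / 2000) (Cy := 3979 / 5000) (D := 10223 / 10000)
        (E := 2937 / 5000) hr0 hv hv1 (by norm_num) (by norm_num) hu0 hu hw hY0 hY (by norm_num)
        (by norm_num) hN hM (by norm_num) (by norm_num) (fin_large (by norm_num) hv0 hr (by norm_num) (by norm_num) (by norm_num))

theorem subC3 (H : LD r δ ya yb u w q) (hr : 499 / 10 ≤ r) (hv : 0 ≤ v) (hv1 : v ≤ 3 / 4) (hv0 : 7 / 10 ≤ v)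
    (hu : u ≤ 2 / 5 * v) (hw : w = 3 / 5 * v) : Gap r δ ya yb (17 / 20) := by
  have hr0 : 0 ≤ r := H.hr.le
  have hw0 := H.hw0
  have hu0 := H.hu0
  rcases le_total 3 ((r * δ) ^ (2 : ℕ)) with h3 | h3
  · exact H.caseII h3 (numII (vm := 3 / 4) (P := 6259 / 100000) (K := 8333 / 10000) hr0 hv hv1
      (by norm_num) (by norm_num) hu0 hu hw (by norm_num) (by norm_num)
      (fin_large (by norm_num) hv0 hr (by norm_num) (by norm_num) (by norm_num)))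
  · rcases le_total 1 ((r * δ) ^ (2 : ℕ)) with h1 | h1
    · refine H.caseIa h1 h3 (D := 12037 / 10000) (Or.inl ⟨by linarith only [hv1, hw], by linarith only [hv1, hw]⟩) fun Y N hY0 hY hN => ?_
      exact numIa (vm := 3 / 4) (P := 1643 / 20000) (K := 147 / 125) (Cy := 10177 / 10000) (D := 12037 / 10000)
        hr0 hv hv1 (by norm_num) (by norm_num) hu0 hu hw hY0 hY (by norm_num) (by norm_num) hN
        (by norm_num) (fin_large (by norm_num) hv0 hr (by norm_num) (by norm_num) (by norm_num))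
    · refine H.caseIb h1 (D := 653 / 625) (E := 6099 / 10000) (f := 2217 / 2000)
        (Or.inl ⟨by linarith only [hv1, hw], by linarith only [hv1, hw], by linarith only [hv1, hw]⟩) (by norm_num) (by linarith only [hv1, hw])
        fun Y N M hY0 hY hN hM => ?_
      exact numIb (vm := 3 / 4) (P := 4201 / 50000) (K := 767 / 500) (Cy := 1607 / 2000) (D := 653 / 625)
        (E := 6099 / 10000) hr0 hv hv1 (by norm_num) (by norm_num) hu0 hu hw hY0 hY (by norm_num)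
        (by norm_num) hN hM (by norm_num) (by norm_num) (fin_large (by norm_num) hv0 hr (by norm_num) (by norm_num) (by norm_num))

theorem subC4 (H : LD r δ ya yb u w q) (hr : 499 / 10 ≤ r) (hv : 0 ≤ v) (hv1 : v ≤ 4 / 5) (hv0 : 3 / 4 ≤ v)
    (hu : u ≤ 2 / 5 * v) (hw : w = 3 / 5 * v) : Gap r δ ya yb (17 / 20) := by
  have hr0 : 0 ≤ r := H.hr.le
  have hw0 := H.hw0
  have hu0 := H.hu0
  rcases le_total 3 ((r * δ) ^ (2 : ℕ)) with h3 | h3
  · exact H.caseII h3 (numII (vm := 4 / 5) (P := 5993 / 100000) (K := 339 / 400) hr0 hv hv1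
      (by norm_num) (by norm_num) hu0 hu hw (by norm_num) (by norm_num)
      (fin_large (by norm_num) hv0 hr (by norm_num) (by norm_num) (by norm_num)))
  · rcases le_total 1 ((r * δ) ^ (2 : ℕ)) with h1 | h1
    · refine H.caseIa h1 h3 (D := 8661 / 5000) (Or.inr (by norm_num)) fun Y N hY0 hY hN => ?_
      exact numIa (vm := 4 / 5) (P := 8019 / 100000) (K := 601 / 400) (Cy := 2061 / 2000) (D := 8661 / 5000)
        hr0 hv hv1 (by norm_num) (by norm_num) hu0 hu hw hY0 hY (by norm_num) (by norm_num) hN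
        (by norm_num) (fin_large (by norm_num) hv0 hr (by norm_num) (by norm_num) (by norm_num))
    · refine H.caseIb h1 (D := 884 / 625) (E := 2723 / 5000) (f := 10479 / 10000)
        (Or.inr ⟨by norm_num, by norm_num⟩) (by norm_num) (by linarith only [hv1, hw])
        fun Y N M hY0 hY hN hM => ?_
      exact numIb (vm := 4 / 5) (P := 8223 / 100000) (K := 1699 / 1000) (Cy := 4057 / 5000) (D := 884 / 625)
        (E := 2723 / 5000) hr0 hv hv1 (by norm_num) (by norm_num) hu0 hu hw hY0 hY (by norm_num)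
        (by norm_num) hN hM (by norm_num) (by norm_num) (fin_large (by norm_num) hv0 hr (by norm_num) (by norm_num) (by norm_num))

theorem subC5 (H : LD r δ ya yb u w q) (hr : 499 / 10 ≤ r) (hv : 0 ≤ v) (hv1 : v ≤ 9 / 10) (hv0 : 4 / 5 ≤ v)
    (hu : u ≤ 2 / 5 * v) (hw : w = 3 / 5 * v) : Gap r δ ya yb (17 / 20) := by
  have hr0 : 0 ≤ r := H.hr.le
  have hw0 := H.hw0
  have hu0 := H.hu0
  rcases le_total 3 ((r * δ) ^ (2 : ℕ)) with h3 | h3
  · exact H.caseII h3 (numII (vm := 9 / 10) (P := 2727 / 50000) (K := 4389 / 5000) hr0 hv hv1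
      (by norm_num) (by norm_num) hu0 hu hw (by norm_num) (by norm_num)
      (fin_large (by norm_num) hv0 hr (by norm_num) (by norm_num) (by norm_num)))
  · rcases le_total 1 ((r * δ) ^ (2 : ℕ)) with h1 | h1
    · refine H.caseIa h1 h3 (D := 8661 / 5000) (Or.inr (by norm_num)) fun Y N hY0 hY hN => ?_
      exact numIa (vm := 9 / 10) (P := 7597 / 100000) (K := 15227 / 10000) (Cy := 10573 / 10000) (D := 8661 / 5000)
        hr0 hv hv1 (by norm_num) (by norm_num) hu0 hu hw hY0 hY (by norm_num) (by norm_num) hN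
        (by norm_num) (fin_large (by norm_num) hv0 hr (by norm_num) (by norm_num) (by norm_num))
    · refine H.caseIb h1 (D := 884 / 625) (E := 2723 / 5000) (f := 12141 / 10000)
        (Or.inr ⟨by norm_num, by norm_num⟩) (by norm_num) (by linarith only [hv1, hw])
        fun Y N M hY0 hY hN hM => ?_
      exact numIb (vm := 9 / 10) (P := 1959 / 25000) (K := 4417 / 2500) (Cy := 4139 / 5000) (D := 884 / 625)
        (E := 2723 / 5000) hr0 hv hv1 (by norm_num) (by norm_num) hu0 hu hw hY0 hY (by norm_num)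
        (by norm_num) hN hM (by norm_num) (by norm_num) (fin_large (by norm_num) hv0 hr (by norm_num) (by norm_num) (by norm_num))

theorem subC6 (H : LD r δ ya yb u w q) (hr : 499 / 10 ≤ r) (hv : 0 ≤ v) (hv1 : v ≤ 10489 / 10000) (hv0 : 9 / 10 ≤ v)
    (hu : u ≤ 2 / 5 * v) (hw : w = 3 / 5 * v) : Gap r δ ya yb (17 / 20) := by
  have hr0 : 0 ≤ r := H.hr.le
  have hw0 := H.hw0
  have hu0 := H.hu0
  rcases le_total 3 ((r * δ) ^ (2 : ℕ)) with h3 | h3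
  · exact H.caseII h3 (numII (vm := 10489 / 10000) (P := 927 / 20000) (K := 2321 / 2500) hr0 hv hv1
      (by norm_num) (by norm_num) hu0 hu hw (by norm_num) (by norm_num)
      (fin_large (by norm_num) hv0 hr (by norm_num) (by norm_num) (by norm_num)))
  · rcases le_total 1 ((r * δ) ^ (2 : ℕ)) with h1 | h1
    · refine H.caseIa h1 h3 (D := 8661 / 5000) (Or.inr (by norm_num)) fun Y N hY0 hY hN => ?_
      exact numIa (vm := 10489 / 10000) (P := 431 / 6250) (K := 7777 / 5000) (Cy := 5499 / 5000) (D := 8661 / 5000)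
        hr0 hv hv1 (by norm_num) (by norm_num) hu0 hu hw hY0 hY (by norm_num) (by norm_num) hN
        (by norm_num) (fin_large (by norm_num) hv0 hr (by norm_num) (by norm_num) (by norm_num))
    · refine H.caseIb h1 (D := 884 / 625) (E := 2723 / 5000) (f := 7949 / 5000)
        (Or.inr ⟨by norm_num, by norm_num⟩) (by norm_num) (by linarith only [hv1, hw])
        fun Y N M hY0 hY hN hM => ?_
      exact numIb (vm := 10489 / 10000) (P := 7191 / 100000) (K := 1911 / 1000) (Cy := 8537 / 10000) (D := 884 / 625)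
        (E := 2723 / 5000) hr0 hv hv1 (by norm_num) (by norm_num) hu0 hu hw hY0 hY (by norm_num)
        (by norm_num) hN hM (by norm_num) (by norm_num) (fin_large (by norm_num) hv0 hr (by norm_num) (by norm_num) (by norm_num))

theorem regA (H : LD r δ ya yb u w q) (hr : 499 / 10 ≤ r) (hv : 0 ≤ v) (hG : 27 / 5 ≤ r * v ^ (2 : ℕ))
    (hG1 : r * v ^ (2 : ℕ) < 10) (hu : u ≤ 1 / 4 * v) (hw : w = 3 / 4 * v) : Gap r δ ya yb (17 / 20) := by
  have hv1 : v ≤ 4477 / 10000 := by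
    by_contra hcon
    push Not at hcon
    have h1 : (4477 / 10000) ^ (2 : ℕ) < v ^ (2 : ℕ) := pow_lt_pow_left₀ hcon (by norm_num) two_ne_zero
    nlinarith only [hr, hG1, h1]
  rcases le_total v (329 / 1000) with h | h
  · exact subA0 H hr hv h hG hu hw
  · exact subA1 H hr hv hv1 h hu hw

theorem regB (H : LD r δ ya yb u w q) (hr : 499 / 10 ≤ r) (hv : 0 ≤ v) (hG : 10 ≤ r * v ^ (2 : ℕ))
    (hG1 : r * v ^ (2 : ℕ) < 20) (hu : u ≤ 7 / 20 * v) (hw : w = 13 / 20 * v) :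
    Gap r δ ya yb (17 / 20) := by
  have hv1 : v ≤ 6331 / 10000 := by
    by_contra hcon
    push Not at hcon
    have h1 : (6331 / 10000) ^ (2 : ℕ) < v ^ (2 : ℕ) := pow_lt_pow_left₀ hcon (by norm_num) two_ne_zero
    nlinarith only [hr, hG1, h1]
  rcases le_total v (4477 / 10000) with h | h
  · exact subB0 H hr hv h hG hu hw
  · rcases le_total v (49 / 100) with h' | h'
    · exact subB1 H hr hv h' h hu hw
    · exact subB2 H hr hv hv1 h' hu hw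

theorem regC (H : LD r δ ya yb u w q) (hr : 499 / 10 ≤ r) (hv : 0 ≤ v) (hG : 20 ≤ r * v ^ (2 : ℕ))
    (hv2 : v ^ (2 : ℕ) ≤ 11 / 10) (hu : u ≤ 2 / 5 * v) (hw : w = 3 / 5 * v) :
    Gap r δ ya yb (17 / 20) := by
  have hv1 : v ≤ 10489 / 10000 := by nlinarith only [hv2]
  rcases le_total v (6331 / 10000) with h | h
  · exact subC0 H hr hv h hG hu hw
  rcases le_total v (129 / 200) with h0 | h0
  · exact subC1a H hr hv h0 h hu hw
  rcases le_total v (33 / 50) with h1 | h1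
  · exact subC1 H hr hv h1 h0 hu hw
  rcases le_total v (7 / 10) with h2 | h2
  · exact subC2 H hr hv h2 h1 hu hw
  rcases le_total v (3 / 4) with h3 | h3
  · exact subC3 H hr hv h3 h2 hu hw
  rcases le_total v (4 / 5) with h4 | h4
  · exact subC4 H hr hv h4 h3 hu hw
  rcases le_total v (9 / 10) with h5 | h5
  · exact subC5 H hr hv h5 h4 hu hw
  · exact subC6 H hr hv hv1 h5 hu hw

/-- **PGap1.L** -/
theorem pGap1_L : ∀ (N : ℕ) (r δ ya yb η : ℝ), Reg1 N r δ → At r δ ya η →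
    At r δ yb (-eo1 N r δ) → 0 ≤ η → η ≤ ei1 N r δ → Gap r δ ya yb (17 / 20) := by
  intro N r δ ya yb η hR hA hB hη0 hη1
  have hr := hR.r0
  have hδ := hR.d0
  have hr0 : 0 < r := by linarith only [hr]
  have hρ : 0 < r * δ := mul_pos hr0 hδ
  have hN : (0 : ℝ) < N := by
    have := hR.N2
    exact_mod_cast (by omega : 0 < N)
  have hh : 0 < hst N := by
    unfold hst
    have := Real.pi_pos
    positivity
  set q := √(1 + (r * δ) ^ (2 : ℕ)) with hqd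
  have hq2 : q ^ (2 : ℕ) = 1 + (r * δ) ^ (2 : ℕ) := Real.sq_sqrt (by positivity)
  have hq : 0 < q := Real.sqrt_pos.2 (by positivity)
  set v := hst N / q with hv
  have hv0 : 0 < v := div_pos hh hq
  have hqv : q * v = hst N := by rw [hv]; field_simp
  have hG : r * v ^ (2 : ℕ) = Gm N r δ := by
    unfold Gm RR
    rw [hv, div_pow, hq2]
    ring
  have hv2 : v ^ (2 : ℕ) ≤ 11 / 10 := by
    have := hR.I
    rw [hv, div_pow, hq2, div_le_iff₀ (by positivity)]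
    exact this
  -- signs of the saddles
  have hom : 0 < om1 N r δ ∧ om1 N r δ ≤ 1 / 4 := by
    unfold om1
    split_ifs <;> norm_num
  have hmono : ∀ y : ℝ, Dom (r * δ) y → -1 < y → y < 0 → sE (r * δ) y < 0 := by
    intro y hy hy1 hy0
    rw [← sE_zero hρ]
    exact sE_strictMonoOn hy (dom_zero hρ) hy1.le ⟨le_rfl, hy0.le⟩ ⟨hy0.le, le_rfl⟩ hy0
  have hya : 0 ≤ ya := by
    by_contra hcon
    push Not at hcon
    have := hmono ya hA.dom hA.y1 hcon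
    rw [hA.eta] at this
    linarith only [hη0, this]
  have heo : 0 < eo1 N r δ := by
    unfold eo1
    have := hom.1
    positivity
  have hyb : yb ≤ 0 := by
    by_contra hcon
    push Not at hcon
    have := sE_nonneg hB.dom hcon.le
    rw [hB.eta] at this
    linarith only [heo, this]
  have hu : η / q ≤ (1 / 2 - om1 N r δ) * v := by
    rw [div_le_iff₀ hq]
    calc η ≤ ei1 N r δ := hη1
      _ = (1 / 2 - om1 N r δ) * v * q := by
        unfold ei1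
        rw [← hqv]; ring
  have hw : eo1 N r δ / q = (1 / 2 + om1 N r δ) * v := by
    rw [div_eq_iff hq.ne']
    unfold eo1
    rw [← hqv]; ring
  have hv1 : v ≤ 10489 / 10000 := by nlinarith only [hv2]
  have hw63 : eo1 N r δ / q ≤ 63 / 100 := by
    rw [hw]
    have hG' : r * v ^ (2 : ℕ) = Gm N r δ := hG
    unfold om1
    split_ifs with h1 h2
    · have h3 : v ≤ 4477 / 10000 := by
        by_contra hcon
        push Not at hcon
        have h1 : (4477 / 10000) ^ (2 : ℕ) < v ^ (2 : ℕ) := pow_lt_pow_left₀ hcon (by norm_num) two_ne_zero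
        nlinarith
      linarith only [h3]
    · have h3 : v ≤ 6331 / 10000 := by
        by_contra hcon
        push Not at hcon
        have h1 : (6331 / 10000) ^ (2 : ℕ) < v ^ (2 : ℕ) := pow_lt_pow_left₀ hcon (by norm_num) two_ne_zero
        nlinarith only [hr, hG', h2, hcon]
      linarith only [h3]
    · linarith only [hv1]
  have H : LD r δ ya yb (η / q) (eo1 N r δ / q) q := by
    refine ⟨hr0, hδ, hq, hq2, hA.dom, hB.dom, hya, hyb, hB.y1, ?_, by positivity, ?_, ?_,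
      by positivity, hw63⟩
    · rw [hA.eta]; field_simp
    · have h1 : (1 / 2 - om1 N r δ) * v ≤ 1 / 2 := by
        have hG' : r * v ^ (2 : ℕ) = Gm N r δ := hG
        unfold om1
        split_ifs with h1 h2
        · linarith only [hv1]
        · linarith only [hv1]
        · linarith only [hv1]
      linarith only [hu, h1]
    · rw [hB.eta]; field_simp
  have hG5 := hR.G
  unfold om1 at hu hw
  rw [← hG] at hG5 hu hw
  split_ifs at hu hw with h1 h2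
  · exact regA H hr hv0.le hG5 h1 (by linarith only [hu]) (by rw [hw]; ring)
  · exact regB H hr hv0.le (not_lt.1 h1) h2 (by linarith only [hu]) (by rw [hw]; ring)
  · exact regC H hr hv0.le (not_lt.1 h2) hv2 (by linarith only [hu]) (by rw [hw]; ring)

end SokamV3.GL

namespace SokamV3

/-- **PGap1.L** -/
theorem pGap1_L : ∀ (N : ℕ) (r δ ya yb η : ℝ), Reg1 N r δ → At r δ ya η →
    At r δ yb (-eo1 N r δ) → 0 ≤ η → η ≤ ei1 N r δ → Gap r δ ya yb (17 / 20) := GL.pGap1_L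

end SokamV3

end
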