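import Pool.Agent.Lib_MP_af4de1_zy.Z49

/-! ### Lib_MP_af4de1_fu.Cont3 -/

section
namespace SokamF
end SokamF
/-!
# The continuation lemma

If `Dist α r` holds for all `r ≥ R0`, the zeros of a box of tubes are all zeros of modulus `< |z_K|`, as soon as this
is true at one point of the box.
-/

set_option autoImplicit false

namespace SokamFU

open Filter Topology Set SokamF

/-! ### Hurwitz -/

theorem tendstoLocally {αn : ℕ → ℝ} {α : ℝ} (hα : Tendsto αn atTop (𝓝 α)) :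
    TendstoLocallyUniformlyOn (fun n => F (qa (αn n))) (F (qa α)) atTop univ := by
  rw [tendstoLocallyUniformlyOn_iff_forall_isCompact isOpen_univ]
  intro k _ hk
  rw [Metric.tendstoUniformlyOn_iff]
  intro ε hε
  have hf : ContinuousOn (Function.uncurry fun (x : ℝ) (z : ℂ) => F (qa x) z) (univ ×ˢ k) :=
    continuous_Fqa.continuousOn
  obtain ⟨v, hv, hv2⟩ := hk.mem_uniformity_of_prod hf (mem_univ α) (Metric.dist_mem_uniformity hε)
  rw [nhdsWithin_univ] at hv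
  filter_upwards [hα hv] with n hn x hx
  have := hv2 (αn n) hn x hx
  rw [dist_comm]
  exact this

theorem exists_near {αn : ℕ → ℝ} {α : ℝ} (hα : Tendsto αn atTop (𝓝 α)) {w : ℂ} (hw : F (qa α) w = 0) (N : ℕ) {ε : ℝ}
    (hε : 0 < ε) : ∃ n, N ≤ n ∧ ∃ u : ℂ, dist u w < ε ∧ F (qa (αn n)) u = 0 := by
  have h := SokamRay.hurwitz (G := F (qa α)) (H := fun n => F (qa (αn n))) (SokamRay.differentiable_F (norm_qa α).le)
    (fun n => SokamRay.differentiable_F (norm_qa _).le) (tendstoLocally hα) (by rw [F_zero]; exact one_ne_zero) hw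
  have h2 : ∀ᶠ p : ℕ × ℂ in atTop ×ˢ 𝓝 w, N ≤ p.1 ∧ dist p.2 w < ε :=
    (eventually_ge_atTop N).prod_mk (Metric.ball_mem_nhds w hε)
  obtain ⟨p, hp, hp1, hp2⟩ := (h.and_eventually h2).exists
  exact ⟨p.1, hp1, p.2, hp2, hp⟩

/-! ### The zero of a tube -/

/-- the zero in a tube -/
noncomputable def zf (a : ℝ) (c lam : ℂ) (η' α : ℝ) : ℂ :=
  tp c lam (α - a) (Classical.epsilon fun h => ‖h‖ ≤ η' ∧ F (qa α) (tp c lam (α - a) h) = 0)

section

variable {a δ : ℝ} {c lam : ℂ} {η' η : ℝ}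

theorem IsTube.spec (T : IsTube a δ c lam η' η) {α : ℝ} (hα : |α - a| ≤ δ) :
    ∃ h : ℂ, ‖h‖ ≤ η' ∧ F (qa α) (tp c lam (α - a) h) = 0 ∧ zf a c lam η' α = tp c lam (α - a) h := by
  have h1 := T.ex (α - a) hα
  rw [add_sub_cancel] at h1
  have h2 := Classical.epsilon_spec h1
  exact ⟨_, h2.1, h2.2, rfl⟩

theorem IsTube.zero (T : IsTube a δ c lam η' η) {α : ℝ} (hα : |α - a| ≤ δ) : F (qa α) (zf a c lam η' α) = 0 := by
  obtain ⟨h, _, h2, h3⟩ := T.spec hα
  rw [h3]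
  exact h2

theorem IsTube.simple' (T : IsTube a δ c lam η' η) {α : ℝ} (hα : |α - a| ≤ δ) :
    deriv (F (qa α)) (zf a c lam η' α) ≠ 0 := by
  obtain ⟨h, h1, h2, h3⟩ := T.spec hα
  rw [h3]
  have := T.simple (α - a) hα h (h1.trans T.lt.le)
  rw [add_sub_cancel] at this
  exact this h2

theorem IsTube.eq_zf (T : IsTube a δ c lam η' η) {α : ℝ} (hα : |α - a| ≤ δ) {h : ℂ} (hh : ‖h‖ ≤ η)
    (h0 : F (qa α) (tp c lam (α - a) h) = 0) : tp c lam (α - a) h = zf a c lam η' α := by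
  obtain ⟨h', h1, h2, h3⟩ := T.spec hα
  have := T.uniq (α - a) hα h h' hh (h1.trans T.lt.le)
  rw [add_sub_cancel] at this
  rw [h3, this h0 h2]

theorem tp_ne_zero (hc : c ≠ 0) (s : ℝ) (h : ℂ) : tp c lam s h ≠ 0 := mul_ne_zero hc (Complex.exp_ne_zero _)

theorem norm_tp (s : ℝ) (h : ℂ) : ‖tp c lam s h‖ = ‖c‖ * Real.exp (lam.re * s + h.re) := by
  unfold tp
  rw [norm_mul, Complex.norm_exp]
  simp

theorem IsTube.norm_le (T : IsTube a δ c lam η' η) {α : ℝ} (hα : |α - a| ≤ δ) :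
    ‖zf a c lam η' α‖ ≤ ‖c‖ * Real.exp (lam.re * (α - a) + η') := by
  obtain ⟨h, h1, _, h3⟩ := T.spec hα
  rw [h3, norm_tp]
  have h4 : h.re ≤ η' := (Complex.re_le_norm h).trans h1
  gcongr

theorem IsTube.le_norm (T : IsTube a δ c lam η' η) {α : ℝ} (hα : |α - a| ≤ δ) :
    ‖c‖ * Real.exp (lam.re * (α - a) - η') ≤ ‖zf a c lam η' α‖ := by
  obtain ⟨h, h1, _, h3⟩ := T.spec hα
  rw [h3, norm_tp]
  have h4 : -η' ≤ h.re := by
    have := (Complex.abs_re_le_norm h).trans h1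
    linarith [neg_abs_le h.re]
  have h5 : lam.re * (α - a) - η' ≤ lam.re * (α - a) + h.re := by linarith
  gcongr

/-- zeros near the zero of the tube are the zero of the tube -/
theorem IsTube.loc (T : IsTube a δ c lam η' η) {αn : ℕ → ℝ} {α : ℝ} (hαn : ∀ n, |αn n - a| ≤ δ) (hα : |α - a| ≤ δ)
    (hlim : Tendsto αn atTop (𝓝 α)) {wn : ℕ → ℂ} (hw : Tendsto wn atTop (𝓝 (zf a c lam η' α)))
    (h0 : ∀ n, F (qa (αn n)) (wn n) = 0) : ∀ᶠ n in atTop, wn n = zf a c lam η' (αn n) := by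
  obtain ⟨h, h1, h2, h3⟩ := T.spec hα
  have hz : zf a c lam η' α ≠ 0 := by
    rw [h3]
    exact tp_ne_zero T.c_ne _ _
  set z := zf a c lam η' α with hzd
  have hq : Tendsto (fun n => wn n / z) atTop (𝓝 1) := by
    have := hw.div_const z
    rwa [div_self hz] at this
  have hlog : Tendsto (fun n => Complex.log (wn n / z)) atTop (𝓝 0) := by
    have := (continuousAt_clog (x := (1 : ℂ)) (by simp)).tendsto.comp hq
    rwa [Complex.log_one] at this
  have hξ : Tendsto (fun n => h + Complex.log (wn n / z) - lam * ((αn n - α : ℝ) : ℂ)) atTop (𝓝 h) := by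
    have h4 : Tendsto (fun n => ((αn n - α : ℝ) : ℂ)) atTop (𝓝 0) := by
      have : Tendsto (fun n => αn n - α) atTop (𝓝 0) := by
        have := hlim.sub_const α
        rwa [sub_self] at this
      have h5 := (Complex.continuous_ofReal.tendsto 0).comp this
      rw [Complex.ofReal_zero] at h5
      exact h5
    have h6 := (hlog.const_add h).sub (h4.const_mul lam)
    simpa using h6
  have hη : ∀ᶠ n in atTop, ‖h + Complex.log (wn n / z) - lam * ((αn n - α : ℝ) : ℂ)‖ < η :=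
    hξ.norm.eventually (gt_mem_nhds (lt_of_le_of_lt h1 T.lt))
  have hne : ∀ᶠ n in atTop, wn n / z ≠ 0 := hq.eventually_ne one_ne_zero
  filter_upwards [hη, hne] with n hn1 hn2
  have e : wn n = tp c lam (αn n - a) (h + Complex.log (wn n / z) - lam * ((αn n - α : ℝ) : ℂ)) := by
    have e1 : wn n = z * Complex.exp (Complex.log (wn n / z)) := by
      rw [Complex.exp_log hn2, mul_div_cancel₀ _ hz]
    obtain ⟨L, hL⟩ : ∃ L, L = Complex.log (wn n / z) := ⟨_, rfl⟩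
    rw [← hL] at e1 ⊢
    rw [e1, h3]
    unfold tp
    rw [mul_assoc, ← Complex.exp_add]
    congr 2
    push_cast
    ring
  rw [e]
  refine T.eq_zf (hαn n) hn1.le ?_
  rw [← e]
  exact h0 n

theorem IsTube.cont (T : IsTube a δ c lam η' η) {αn : ℕ → ℝ} {α : ℝ} (hαn : ∀ n, |αn n - a| ≤ δ) (hα : |α - a| ≤ δ)
    (hlim : Tendsto αn atTop (𝓝 α)) : Tendsto (fun n => zf a c lam η' (αn n)) atTop (𝓝 (zf a c lam η' α)) := by
  choose h h1 h2 h3 using fun n => T.spec (hαn n)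
  refine tendsto_of_subseq_tendsto fun ns hns => ?_
  obtain ⟨g, -, ms, hms, hg⟩ := (isCompact_closedBall (0 : ℂ) η').tendsto_subseq
    (x := fun n => h (ns n)) (fun n => by rw [mem_closedBall_zero_iff]; exact h1 _)
  refine ⟨ms, ?_⟩
  have hgn : ‖g‖ ≤ η' := by
    refine le_of_tendsto hg.norm (.of_forall fun n => h1 _)
  have hlim' : Tendsto (fun n => αn (ns (ms n))) atTop (𝓝 α) := hlim.comp (hns.comp hms.tendsto_atTop)
  have htp : Tendsto (fun n => tp c lam (αn (ns (ms n)) - a) (h (ns (ms n)))) atTop (𝓝 (tp c lam (α - a) g)) := by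
    unfold tp
    refine Tendsto.const_mul _ ((Complex.continuous_exp.tendsto _).comp ?_)
    refine Tendsto.add (Tendsto.const_mul _ ?_) hg
    exact (Complex.continuous_ofReal.tendsto _).comp (hlim'.sub_const a)
  have h0 : F (qa α) (tp c lam (α - a) g) = 0 := tendsto_zero hlim' htp (fun n => h2 _)
  rw [← T.eq_zf hα (hgn.trans T.lt.le) h0]
  refine htp.congr fun n => ?_
  rw [h3]

end

/-! ### Boxes -/

/-- the zeros of modulus less than `|Z (K - 1)|` are `Z 0, ..., Z (K - 2)` -/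
def Compl (K : ℕ) (Z : ℕ → ℝ → ℂ) (α : ℝ) : Prop :=
  ∀ w : ℂ, F (qa α) w = 0 → ‖w‖ < ‖Z (K - 1) α‖ → ∃ k < K - 1, w = Z k α

section

variable {R0 a δ : ℝ} {K : ℕ} {c lam : ℕ → ℂ} {η' η : ℕ → ℝ}

theorem IsBox.lt_succ (B : IsBox R0 a δ K c lam η' η) {α : ℝ} (hα : |α - a| ≤ δ) {k : ℕ} (hk : k + 1 < K) :
    ‖zf a (c k) (lam k) (η' k) α‖ < ‖zf a (c (k + 1)) (lam (k + 1)) (η' (k + 1)) α‖ :=
  ((B.tube k (by omega)).norm_le hα).trans_lt
    ((B.ord k hk (α - a) hα).trans_le ((B.tube (k + 1) hk).le_norm hα))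

theorem IsBox.lt (B : IsBox R0 a δ K c lam η' η) {α : ℝ} (hα : |α - a| ≤ δ) {j k : ℕ} (hjk : j < k) (hk : k < K) :
    ‖zf a (c j) (lam j) (η' j) α‖ < ‖zf a (c k) (lam k) (η' k) α‖ := by
  induction k, hjk using Nat.le_induction with
  | base => exact B.lt_succ hα hk
  | succ k _ ih => exact (ih (by omega)).trans (B.lt_succ hα hk)

theorem IsBox.le_top (B : IsBox R0 a δ K c lam η' η) {α : ℝ} (hα : |α - a| ≤ δ) :
    R0 ≤ ‖zf a (c (K - 1)) (lam (K - 1)) (η' (K - 1)) α‖ :=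
  (B.top (α - a) hα).trans ((B.tube (K - 1) (by have := B.pos; omega)).le_norm hα)

/-- openness -/
theorem IsBox.open' (B : IsBox R0 a δ K c lam η' η) (H : ∀ α : ℝ, |α - a| ≤ δ → ∀ r, R0 ≤ r → Dist α r)
    {αn : ℕ → ℝ} {α : ℝ} (hαn : ∀ n, |αn n - a| ≤ δ) (hα : |α - a| ≤ δ) (hlim : Tendsto αn atTop (𝓝 α))
    (hP : Compl K (fun k => zf a (c k) (lam k) (η' k)) α) :
    ∃ n, Compl K (fun k => zf a (c k) (lam k) (η' k)) (αn n) := by
  by_contra hcon
  push Not at hcon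
  unfold Compl at hcon
  push Not at hcon
  choose w hw0 hwlt hwne using hcon
  have hKK : K - 1 < K := by have := B.pos; omega
  have hZlim := (B.tube (K - 1) hKK).cont hαn hα hlim
  have hbd : Bornology.IsBounded (Set.range fun n => zf a (c (K - 1)) (lam (K - 1)) (η' (K - 1)) (αn n)) :=
    Metric.isBounded_range_of_tendsto _ hZlim
  obtain ⟨C, hC⟩ := hbd.exists_norm_le
  obtain ⟨g, -, ms, hms, hg⟩ := (isCompact_closedBall (0 : ℂ) C).tendsto_subseq
    (x := w) (fun n => by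
      rw [mem_closedBall_zero_iff]
      exact (hwlt n).le.trans (hC _ ⟨n, rfl⟩))
  have hlim' : Tendsto (fun n => αn (ms n)) atTop (𝓝 α) := hlim.comp hms.tendsto_atTop
  have hg0 : F (qa α) g = 0 := tendsto_zero hlim' hg (fun n => hw0 _)
  have hgle : ‖g‖ ≤ ‖zf a (c (K - 1)) (lam (K - 1)) (η' (K - 1)) α‖ :=
    le_of_tendsto_of_tendsto hg.norm (hZlim.comp hms.tendsto_atTop).norm (.of_forall fun n => (hwlt _).le)
  rcases hgle.lt_or_eq with h | h
  · obtain ⟨k, hk, hgk⟩ := hP g hg0 h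
    rw [hgk] at hg
    obtain ⟨n, hn⟩ := ((B.tube k (by omega)).loc (fun n => hαn _) hα hlim' hg (fun n => hw0 _)).exists
    exact hwne (ms n) k hk hn
  · have hD := H α hα _ (B.le_top hα) _ rfl ((B.tube (K - 1) hKK).zero hα)
    have hgk := hD.2 g h hg0
    rw [hgk] at hg
    obtain ⟨n, hn⟩ := ((B.tube (K - 1) hKK).loc (fun n => hαn _) hα hlim' hg (fun n => hw0 _)).exists
    have h5 := hwlt (ms n)
    simp only [Function.comp] at hn
    rw [hn] at h5
    exact lt_irrefl _ h5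

/-- closedness -/
theorem IsBox.closed' (B : IsBox R0 a δ K c lam η' η)
    {αn : ℕ → ℝ} {α : ℝ} (hαn : ∀ n, |αn n - a| ≤ δ) (hα : |α - a| ≤ δ) (hlim : Tendsto αn atTop (𝓝 α))
    (hP : ∀ n, Compl K (fun k => zf a (c k) (lam k) (η' k)) (αn n)) :
    Compl K (fun k => zf a (c k) (lam k) (η' k)) α := by
  intro w hw hlt
  have hKK : K - 1 < K := by have := B.pos; omega
  -- zeros of the approximants near `w`
  have hex : ∀ m : ℕ, ∃ n, m ≤ n ∧ ∃ u : ℂ, dist u w < 1 / ((m : ℝ) + 1) ∧ F (qa (αn n)) u = 0 := fun m =>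
    exists_near hlim hw m (by positivity)
  choose ν hν u hu hu0 using hex
  have hνlim : Tendsto ν atTop atTop := tendsto_atTop_mono hν tendsto_id
  have hulim : Tendsto u atTop (𝓝 w) := by
    rw [tendsto_iff_dist_tendsto_zero]
    exact squeeze_zero (fun _ => dist_nonneg) (fun m => (hu m).le) tendsto_one_div_add_atTop_nhds_zero_nat
  have hlim' : Tendsto (fun m => αn (ν m)) atTop (𝓝 α) := hlim.comp hνlim
  have hZlim := (B.tube (K - 1) hKK).cont (fun m => hαn (ν m)) hα hlim'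
  have hev : ∀ᶠ m in atTop, ‖u m‖ < ‖zf a (c (K - 1)) (lam (K - 1)) (η' (K - 1)) (αn (ν m))‖ :=
    hulim.norm.eventually_lt hZlim.norm hlt
  have hev2 : ∀ᶠ m in atTop, ∃ k < K - 1, u m = zf a (c k) (lam k) (η' k) (αn (ν m)) := by
    filter_upwards [hev] with m hm
    exact hP (ν m) (u m) (hu0 m) hm
  -- pigeonhole
  have hfr : ∃ k < K - 1, ∃ᶠ m in atTop, u m = zf a (c k) (lam k) (η' k) (αn (ν m)) := by
    by_contra hcon
    push Not at hcon
    have h1 : ∀ᶠ m in atTop, ∀ k < K - 1, ¬ (u m = zf a (c k) (lam k) (η' k) (αn (ν m))) := by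
      have : ∀ᶠ m in atTop, ∀ k ∈ Finset.range (K - 1), ¬ (u m = zf a (c k) (lam k) (η' k) (αn (ν m))) := by
        rw [Filter.eventually_all_finset]
        intro k hk
        exact hcon k (Finset.mem_range.1 hk)
      filter_upwards [this] with m hm k hk
      exact hm k (Finset.mem_range.2 hk)
    obtain ⟨m, hm1, hm2⟩ := (hev2.and h1).exists
    obtain ⟨k, hk, hku⟩ := hm1
    exact hm2 k hk hku
  obtain ⟨k, hk, hfr⟩ := hfr
  refine ⟨k, hk, ?_⟩
  obtain ⟨φ, hφ, hφ2⟩ := extraction_of_frequently_atTop hfr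
  have h1 : Tendsto (fun n => u (φ n)) atTop (𝓝 w) := hulim.comp hφ.tendsto_atTop
  have h2 := (B.tube k (by omega)).cont (fun m => hαn (ν (φ m))) hα (hlim'.comp hφ.tendsto_atTop)
  refine tendsto_nhds_unique h1 ?_
  refine h2.congr fun n => ?_
  exact (hφ2 n).symm

/-- **Continuation inside a box.** -/
theorem IsBox.continue (B : IsBox R0 a δ K c lam η' η) (H : ∀ α : ℝ, |α - a| ≤ δ → ∀ r, R0 ≤ r → Dist α r)
    {α₀ : ℝ} (hα₀ : |α₀ - a| ≤ δ) (hP : Compl K (fun k => zf a (c k) (lam k) (η' k)) α₀) {α : ℝ} (hα : |α - a| ≤ δ) :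
    Compl K (fun k => zf a (c k) (lam k) (η' k)) α := by
  have hI : IsPreconnected (Metric.closedBall a δ) := (convex_closedBall a δ).isPreconnected
  have : PreconnectedSpace (Metric.closedBall a δ) := Subtype.preconnectedSpace hI
  have hmem : ∀ x : Metric.closedBall a δ, |(x : ℝ) - a| ≤ δ := fun x => by
    have := x.2
    rwa [Metric.mem_closedBall, Real.dist_eq] at this
  set S : Set (Metric.closedBall a δ) := {x | Compl K (fun k => zf a (c k) (lam k) (η' k)) x} with hS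
  have hcl : IsClosed S := by
    refine IsSeqClosed.isClosed ?_
    intro xn x hxn hx
    exact B.closed' (fun n => hmem (xn n)) (hmem x) ((continuous_subtype_val.tendsto x).comp hx) hxn
  have hop : IsOpen S := by
    rw [← isClosed_compl_iff]
    refine IsSeqClosed.isClosed ?_
    intro xn x hxn hx hxS
    obtain ⟨n, hn⟩ := B.open' H (fun n => hmem (xn n)) (hmem x) ((continuous_subtype_val.tendsto x).comp hx) hxS
    exact hxn n hn
  have h0 : (⟨α₀, by rwa [Metric.mem_closedBall, Real.dist_eq]⟩ : Metric.closedBall a δ) ∈ S := hP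
  have huniv : S = univ := IsClopen.eq_univ ⟨hcl, hop⟩ ⟨_, h0⟩
  have : (⟨α, by rwa [Metric.mem_closedBall, Real.dist_eq]⟩ : Metric.closedBall a δ) ∈ S := by
    rw [huniv]
    exact mem_univ _
  exact this

/-- The result of a box. -/
theorem IsBox.dist (B : IsBox R0 a δ K c lam η' η) (H : ∀ α : ℝ, |α - a| ≤ δ → ∀ r, R0 ≤ r → Dist α r)
    {α : ℝ} (hα : |α - a| ≤ δ) (hP : Compl K (fun k => zf a (c k) (lam k) (η' k)) α) {r : ℝ} (hr : r ≤ R0) :
    Dist α r := by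
  rcases hr.lt_or_eq with hr | hr
  · intro z hz hz0
    have hlt : ∀ w : ℂ, ‖w‖ = r → ‖w‖ < ‖zf a (c (K - 1)) (lam (K - 1)) (η' (K - 1)) α‖ := fun w hw => by
      rw [hw]
      exact hr.trans_le (B.le_top hα)
    obtain ⟨k, hk, hzk⟩ := hP z hz0 (hlt z hz)
    refine ⟨?_, fun w hw hw0 => ?_⟩
    · rw [hzk]
      exact (B.tube k (by omega)).simple' hα
    · obtain ⟨j, hj, hwj⟩ := hP w hw0 (hlt w hw)
      have hn : ‖zf a (c j) (lam j) (η' j) α‖ = ‖zf a (c k) (lam k) (η' k) α‖ := by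
        have h1 : ‖w‖ = ‖z‖ := hw.trans hz.symm
        rwa [hwj, hzk] at h1
      have hjk : j = k := by
        rcases lt_trichotomy j k with h | h | h
        · exact absurd hn (B.lt hα h (by omega)).ne
        · exact h
        · exact absurd hn.symm (B.lt hα h (by omega)).ne
      rw [hwj, hzk, hjk]
  · rw [hr]
    exact H α hα R0 le_rfl

end

/-! ### Junctions -/

theorem IsTube.link {a δ : ℝ} {c lam : ℂ} {η' η : ℝ} (T : IsTube a δ c lam η' η) {a₁ δ₁ : ℝ} {c₁ lam₁ : ℂ} {η₁' η₁ : ℝ}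
    (T₁ : IsTube a₁ δ₁ c₁ lam₁ η₁' η₁) {α : ℝ} (hα : |α - a| ≤ δ) (hα₁ : |α - a₁| ≤ δ₁) (μ : ℂ)
    (hμ : c₁ = c * Complex.exp μ) (hle : ‖μ + lam₁ * ((α - a₁ : ℝ) : ℂ) - lam * ((α - a : ℝ) : ℂ)‖ + η₁' ≤ η) :
    zf a₁ c₁ lam₁ η₁' α = zf a c lam η' α := by
  obtain ⟨h, h1, h2, h3⟩ := T₁.spec hα₁
  have e : tp c₁ lam₁ (α - a₁) h =
      tp c lam (α - a) (μ + lam₁ * ((α - a₁ : ℝ) : ℂ) - lam * ((α - a : ℝ) : ℂ) + h) := by
    unfold tp
    rw [hμ, mul_assoc, ← Complex.exp_add]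
    congr 2
    ring
  rw [h3, e]
  rw [e] at h2
  refine T.eq_zf hα ?_ h2
  exact (norm_add_le _ _).trans (le_trans (by linarith) hle)

/-- the completeness statement passes to the next box -/
theorem Compl.link {R0 a δ : ℝ} {K : ℕ} {c lam : ℕ → ℂ} {η' η : ℕ → ℝ} (B : IsBox R0 a δ K c lam η' η)
    {a₁ δ₁ : ℝ} {K₁ : ℕ} {c₁ lam₁ : ℕ → ℂ} {η₁' η₁ : ℕ → ℝ} (B₁ : IsBox R0 a₁ δ₁ K₁ c₁ lam₁ η₁' η₁)
    {α : ℝ} (hα : |α - a| ≤ δ) (hP : Compl K (fun k => zf a (c k) (lam k) (η' k)) α)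
    (hK : K₁ ≤ K) (heq : ∀ k < K₁, zf a₁ (c₁ k) (lam₁ k) (η₁' k) α = zf a (c k) (lam k) (η' k) α) :
    Compl K₁ (fun k => zf a₁ (c₁ k) (lam₁ k) (η₁' k)) α := by
  intro w hw hlt
  have h0 := B₁.pos
  simp only at hlt
  rw [heq (K₁ - 1) (by omega)] at hlt
  have hle : ‖zf a (c (K₁ - 1)) (lam (K₁ - 1)) (η' (K₁ - 1)) α‖ ≤
      ‖zf a (c (K - 1)) (lam (K - 1)) (η' (K - 1)) α‖ := by
    rcases (show K₁ - 1 ≤ K - 1 by omega).lt_or_eq with h | h
    · exact (B.lt hα h (by omega)).le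
    · rw [h]
  obtain ⟨k, hk, hwk⟩ := hP w hw (hlt.trans_le hle)
  have hkK : k < K₁ - 1 := by
    by_contra hcon
    have hk1 : K₁ - 1 ≤ k := by omega
    rw [hwk] at hlt
    rcases hk1.lt_or_eq with h | h
    · exact absurd hlt (not_lt.2 (B.lt hα h (by omega)).le)
    · rw [h] at hlt
      exact lt_irrefl _ hlt
  refine ⟨k, hkK, ?_⟩
  simp only
  rw [heq k (by omega)]
  exact hwk

end SokamFU

end

/-! ### Lib_MP_af4de1_fu.Cont4 -/

section
namespace SokamF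
end SokamF
/-!
# Branches of zeros and the continuation lemma in abstract form

`Branch I Z`: `Z` is a continuous branch of simple zeros of `F(·; e^(iα))` over `α ∈ I`, locally unique.
-/

set_option autoImplicit false

namespace SokamFU

open Filter Topology Set SokamF

/-- a continuous branch of simple, locally unique zeros over `I` -/
structure Branch (I : Set ℝ) (Z : ℝ → ℂ) : Prop where
  zero : ∀ α ∈ I, F (qa α) (Z α) = 0
  simple : ∀ α ∈ I, deriv (F (qa α)) (Z α) ≠ 0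
  cont : ContinuousOn Z I
  loc : ∀ α ∈ I, ∀ᶠ p : ℝ × ℂ in 𝓝 (α, Z α), p.1 ∈ I → F (qa p.1) p.2 = 0 → p.2 = Z p.1

theorem Branch.mono {I J : Set ℝ} {Z : ℝ → ℂ} (B : Branch I Z) (h : J ⊆ I) : Branch J Z where
  zero := fun α hα => B.zero α (h hα)
  simple := fun α hα => B.simple α (h hα)
  cont := B.cont.mono h
  loc := fun α hα => (B.loc α (h hα)).mono fun _ hp hpJ => hp (h hpJ)

theorem Branch.congr {I : Set ℝ} {Z Z' : ℝ → ℂ} (B : Branch I Z) (h : ∀ α ∈ I, Z' α = Z α) : Branch I Z' where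
  zero := fun α hα => by rw [h α hα]; exact B.zero α hα
  simple := fun α hα => by rw [h α hα]; exact B.simple α hα
  cont := B.cont.congr h
  loc := fun α hα => by
    rw [h α hα]
    refine (B.loc α hα).mono fun p hp hpI h0 => ?_
    rw [h _ hpI]
    exact hp hpI h0

/-- the zero of a tube is a branch -/
theorem IsTube.branch {a δ : ℝ} {c lam : ℂ} {η' η : ℝ} (T : IsTube a δ c lam η' η) :
    Branch (Icc (a - δ) (a + δ)) (zf a c lam η') := by
  have hI : ∀ α, α ∈ Icc (a - δ) (a + δ) → |α - a| ≤ δ := fun α hα => by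
    rw [abs_le]
    constructor <;> linarith [hα.1, hα.2]
  refine ⟨fun α hα => T.zero (hI α hα), fun α hα => T.simple' (hI α hα), ?_, ?_⟩
  · rw [continuousOn_iff_continuous_restrict]
    refine SeqContinuous.continuous ?_
    intro xn x hx
    exact T.cont (fun n => hI _ (xn n).2) (hI _ x.2) ((continuous_subtype_val.tendsto x).comp hx)
  · intro α hα
    by_contra hcon
    have hcon2 : ∃ᶠ p : ℝ × ℂ in 𝓝 (α, zf a c lam η' α), p.1 ∈ Icc (a - δ) (a + δ) ∧ F (qa p.1) p.2 = 0 ∧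
        p.2 ≠ zf a c lam η' p.1 := by
      rw [Filter.Frequently]
      intro h
      apply hcon
      filter_upwards [h] with p hp h1 h2
      by_contra h3
      exact hp ⟨h1, h2, h3⟩
    obtain ⟨pn, hpn, hpn2⟩ := exists_seq_forall_of_frequently hcon2
    have h1 : Tendsto (fun n => (pn n).1) atTop (𝓝 α) := (continuous_fst.tendsto _).comp hpn
    have h2 : Tendsto (fun n => (pn n).2) atTop (𝓝 (zf a c lam η' α)) := (continuous_snd.tendsto _).comp hpn
    obtain ⟨n, hn⟩ := (T.loc (fun n => hI _ (hpn2 n).1) (hI _ hα) h1 h2 (fun n => (hpn2 n).2.1)).exists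
    exact (hpn2 n).2.2 hn

/-- glueing of two branches at a common end point -/
theorem Branch.glue {a b c : ℝ} {Z₁ Z₂ : ℝ → ℂ} (hab : a ≤ b) (hbc : b ≤ c) (B₁ : Branch (Icc a b) Z₁)
    (B₂ : Branch (Icc b c) Z₂) (h : Z₁ b = Z₂ b) : Branch (Icc a c) (fun α => if α ≤ b then Z₁ α else Z₂ α) := by
  set Z : ℝ → ℂ := fun α => if α ≤ b then Z₁ α else Z₂ α with hZ
  have e1 : ∀ α, α ≤ b → Z α = Z₁ α := fun α hα => if_pos hα
  have e2 : ∀ α, b ≤ α → Z α = Z₂ α := fun α hα => by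
    rcases hα.lt_or_eq with h1 | h1
    · exact if_neg (not_le.2 h1)
    · rw [← h1, e1 b le_rfl, h]
  have C₁ : Branch (Icc a b) Z := B₁.congr fun α hα => e1 α hα.2
  have C₂ : Branch (Icc b c) Z := B₂.congr fun α hα => e2 α hα.1
  have hcov : ∀ α ∈ Icc a c, α ∈ Icc a b ∨ α ∈ Icc b c := fun α hα => by
    rcases le_total α b with h1 | h1
    · exact Or.inl ⟨hα.1, h1⟩
    · exact Or.inr ⟨h1, hα.2⟩
  refine ⟨?_, ?_, ?_, ?_⟩
  · intro α hα
    rcases hcov α hα with h1 | h1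
    · exact C₁.zero α h1
    · exact C₂.zero α h1
  · intro α hα
    rcases hcov α hα with h1 | h1
    · exact C₁.simple α h1
    · exact C₂.simple α h1
  · rw [← Icc_union_Icc_eq_Icc hab hbc]
    exact C₁.cont.union_of_isClosed C₂.cont isClosed_Icc isClosed_Icc
  · intro α hα
    have k1 : ∀ᶠ p : ℝ × ℂ in 𝓝 (α, Z α), p.1 ∈ Icc a b → F (qa p.1) p.2 = 0 → p.2 = Z p.1 := by
      by_cases h1 : α ∈ Icc a b
      · exact C₁.loc α h1
      · have h2 : ∀ᶠ x : ℝ in 𝓝 α, x ∉ Icc a b := isClosed_Icc.isOpen_compl.mem_nhds h1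
        have h3 := (continuous_fst.tendsto (α, Z α)).eventually h2
        filter_upwards [h3] with p hp hp1
        exact absurd hp1 hp
    have k2 : ∀ᶠ p : ℝ × ℂ in 𝓝 (α, Z α), p.1 ∈ Icc b c → F (qa p.1) p.2 = 0 → p.2 = Z p.1 := by
      by_cases h1 : α ∈ Icc b c
      · exact C₂.loc α h1
      · have h2 : ∀ᶠ x : ℝ in 𝓝 α, x ∉ Icc b c := isClosed_Icc.isOpen_compl.mem_nhds h1
        have h3 := (continuous_fst.tendsto (α, Z α)).eventually h2
        filter_upwards [h3] with p hp hp1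
        exact absurd hp1 hp
    filter_upwards [k1, k2] with p hp1 hp2 hpI h0
    rcases hcov p.1 hpI with h1 | h1
    · exact hp1 h1 h0
    · exact hp2 h1 h0

/-! ### Systems of branches -/

/-- `K` branches over `I`, ordered by modulus, the last one outside `|z| < R0` -/
structure Sys (R0 : ℝ) (I : Set ℝ) (K : ℕ) (Z : ℕ → ℝ → ℂ) : Prop where
  pos : 0 < K
  branch : ∀ k < K, Branch I (Z k)
  lt : ∀ k, k + 1 < K → ∀ α ∈ I, ‖Z k α‖ < ‖Z (k + 1) α‖
  top : ∀ α ∈ I, R0 ≤ ‖Z (K - 1) α‖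

section

variable {R0 : ℝ} {I : Set ℝ} {K : ℕ} {Z : ℕ → ℝ → ℂ}

theorem Sys.lt' (S : Sys R0 I K Z) {α : ℝ} (hα : α ∈ I) {j k : ℕ} (hjk : j < k) (hk : k < K) :
    ‖Z j α‖ < ‖Z k α‖ := by
  induction k, hjk using Nat.le_induction with
  | base => exact S.lt j hk α hα
  | succ k _ ih => exact (ih (by omega)).trans (S.lt k hk α hα)

/-- openness -/
theorem Sys.open' (S : Sys R0 I K Z) (H : ∀ α ∈ I, ∀ r, R0 ≤ r → Dist α r)
    {αn : ℕ → ℝ} {α : ℝ} (hαn : ∀ n, αn n ∈ I) (hα : α ∈ I) (hlim : Tendsto αn atTop (𝓝 α))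
    (hP : Compl K Z α) : ∃ n, Compl K Z (αn n) := by
  by_contra hcon
  push Not at hcon
  unfold Compl at hcon
  push Not at hcon
  choose w hw0 hwlt hwne using hcon
  have hKK : K - 1 < K := by have := S.pos; omega
  have hlimI : Tendsto αn atTop (𝓝[I] α) := tendsto_nhdsWithin_iff.2 ⟨hlim, .of_forall hαn⟩
  have hZlim : Tendsto (fun n => Z (K - 1) (αn n)) atTop (𝓝 (Z (K - 1) α)) :=
    ((S.branch (K - 1) hKK).cont α hα).tendsto.comp hlimI
  have hbd : Bornology.IsBounded (Set.range fun n => Z (K - 1) (αn n)) :=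
    Metric.isBounded_range_of_tendsto _ hZlim
  obtain ⟨C, hC⟩ := hbd.exists_norm_le
  obtain ⟨g, -, ms, hms, hg⟩ := (isCompact_closedBall (0 : ℂ) C).tendsto_subseq
    (x := w) (fun n => by
      rw [mem_closedBall_zero_iff]
      exact (hwlt n).le.trans (hC _ ⟨n, rfl⟩))
  have hlim' : Tendsto (fun n => αn (ms n)) atTop (𝓝 α) := hlim.comp hms.tendsto_atTop
  have hg0 : F (qa α) g = 0 := tendsto_zero hlim' hg (fun n => hw0 _)
  have hgle : ‖g‖ ≤ ‖Z (K - 1) α‖ :=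
    le_of_tendsto_of_tendsto hg.norm (hZlim.comp hms.tendsto_atTop).norm (.of_forall fun n => (hwlt _).le)
  have hloc : ∀ k < K, g = Z k α → ∃ n, w (ms n) = Z k (αn (ms n)) := by
    intro k hk hgk
    rw [hgk] at hg
    have h1 : Tendsto (fun n => (αn (ms n), w (ms n))) atTop (𝓝 (α, Z k α)) := hlim'.prodMk_nhds hg
    obtain ⟨n, hn⟩ := (h1.eventually ((S.branch k hk).loc α hα)).exists
    exact ⟨n, hn (hαn _) (hw0 _)⟩
  rcases hgle.lt_or_eq with h | h
  · obtain ⟨k, hk, hgk⟩ := hP g hg0 h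
    obtain ⟨n, hn⟩ := hloc k (by omega) hgk
    exact hwne (ms n) k hk hn
  · have hD := H α hα _ (S.top α hα) _ rfl ((S.branch (K - 1) hKK).zero α hα)
    obtain ⟨n, hn⟩ := hloc (K - 1) hKK (hD.2 g h hg0)
    have h5 := hwlt (ms n)
    rw [hn] at h5
    exact lt_irrefl _ h5

/-- closedness -/
theorem Sys.closed' (S : Sys R0 I K Z) {αn : ℕ → ℝ} {α : ℝ} (hαn : ∀ n, αn n ∈ I) (hα : α ∈ I)
    (hlim : Tendsto αn atTop (𝓝 α)) (hP : ∀ n, Compl K Z (αn n)) : Compl K Z α := by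
  intro w hw hlt
  have hKK : K - 1 < K := by have := S.pos; omega
  have hex : ∀ m : ℕ, ∃ n, m ≤ n ∧ ∃ u : ℂ, dist u w < 1 / ((m : ℝ) + 1) ∧ F (qa (αn n)) u = 0 := fun m =>
    exists_near hlim hw m (by positivity)
  choose ν hν u hu hu0 using hex
  have hνlim : Tendsto ν atTop atTop := tendsto_atTop_mono hν tendsto_id
  have hulim : Tendsto u atTop (𝓝 w) := by
    rw [tendsto_iff_dist_tendsto_zero]
    exact squeeze_zero (fun _ => dist_nonneg) (fun m => (hu m).le) tendsto_one_div_add_atTop_nhds_zero_nat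
  have hlim' : Tendsto (fun m => αn (ν m)) atTop (𝓝[I] α) :=
    tendsto_nhdsWithin_iff.2 ⟨hlim.comp hνlim, .of_forall fun m => hαn _⟩
  have hZlim : ∀ k < K, Tendsto (fun m => Z k (αn (ν m))) atTop (𝓝 (Z k α)) := fun k hk =>
    ((S.branch k hk).cont α hα).tendsto.comp hlim'
  have hev : ∀ᶠ m in atTop, ‖u m‖ < ‖Z (K - 1) (αn (ν m))‖ :=
    hulim.norm.eventually_lt (hZlim (K - 1) hKK).norm hlt
  have hev2 : ∀ᶠ m in atTop, ∃ k < K - 1, u m = Z k (αn (ν m)) := by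
    filter_upwards [hev] with m hm
    exact hP (ν m) (u m) (hu0 m) hm
  have hfr : ∃ k < K - 1, ∃ᶠ m in atTop, u m = Z k (αn (ν m)) := by
    by_contra hcon
    push Not at hcon
    have h1 : ∀ᶠ m in atTop, ∀ k < K - 1, ¬ (u m = Z k (αn (ν m))) := by
      have : ∀ᶠ m in atTop, ∀ k ∈ Finset.range (K - 1), ¬ (u m = Z k (αn (ν m))) := by
        rw [Filter.eventually_all_finset]
        intro k hk
        exact hcon k (Finset.mem_range.1 hk)
      filter_upwards [this] with m hm k hk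
      exact hm k (Finset.mem_range.2 hk)
    obtain ⟨m, hm1, hm2⟩ := (hev2.and h1).exists
    obtain ⟨k, hk, hku⟩ := hm1
    exact hm2 k hk hku
  obtain ⟨k, hk, hfr⟩ := hfr
  refine ⟨k, hk, ?_⟩
  obtain ⟨φ, hφ, hφ2⟩ := extraction_of_frequently_atTop hfr
  have h1 : Tendsto (fun n => u (φ n)) atTop (𝓝 w) := hulim.comp hφ.tendsto_atTop
  have h2 := (hZlim k (by omega)).comp hφ.tendsto_atTop
  refine tendsto_nhds_unique h1 ?_
  refine h2.congr fun n => ?_
  exact (hφ2 n).symm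

/-- **Continuation.** -/
theorem Sys.continue (S : Sys R0 I K Z) (hI : IsPreconnected I) (H : ∀ α ∈ I, ∀ r, R0 ≤ r → Dist α r)
    {α₀ : ℝ} (hα₀ : α₀ ∈ I) (hP : Compl K Z α₀) {α : ℝ} (hα : α ∈ I) : Compl K Z α := by
  have : PreconnectedSpace I := Subtype.preconnectedSpace hI
  set T : Set I := {x | Compl K Z x} with hT
  have hcl : IsClosed T := by
    refine IsSeqClosed.isClosed ?_
    intro xn x hxn hx
    exact S.closed' (fun n => (xn n).2) x.2 ((continuous_subtype_val.tendsto x).comp hx) hxn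
  have hop : IsOpen T := by
    rw [← isClosed_compl_iff]
    refine IsSeqClosed.isClosed ?_
    intro xn x hxn hx hxS
    obtain ⟨n, hn⟩ := S.open' H (fun n => (xn n).2) x.2 ((continuous_subtype_val.tendsto x).comp hx) hxS
    exact hxn n hn
  have h0 : (⟨α₀, hα₀⟩ : I) ∈ T := hP
  have huniv : T = univ := IsClopen.eq_univ ⟨hcl, hop⟩ ⟨_, h0⟩
  have : (⟨α, hα⟩ : I) ∈ T := by
    rw [huniv]
    exact mem_univ _
  exact this

/-- The result on one interval. -/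
theorem Sys.dist (S : Sys R0 I K Z) (H : ∀ α ∈ I, ∀ r, R0 ≤ r → Dist α r)
    {α : ℝ} (hα : α ∈ I) (hP : Compl K Z α) {r : ℝ} (hr : r ≤ R0) : Dist α r := by
  rcases hr.lt_or_eq with hr | hr
  · intro z hz hz0
    have hlt : ∀ w : ℂ, ‖w‖ = r → ‖w‖ < ‖Z (K - 1) α‖ := fun w hw => by
      rw [hw]
      exact hr.trans_le (S.top α hα)
    obtain ⟨k, hk, hzk⟩ := hP z hz0 (hlt z hz)
    refine ⟨?_, fun w hw hw0 => ?_⟩
    · rw [hzk]
      exact (S.branch k (by omega)).simple α hα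
    · obtain ⟨j, hj, hwj⟩ := hP w hw0 (hlt w hw)
      have hn : ‖Z j α‖ = ‖Z k α‖ := by
        have h1 : ‖w‖ = ‖z‖ := hw.trans hz.symm
        rwa [hwj, hzk] at h1
      have hjk : j = k := by
        rcases lt_trichotomy j k with h | h | h
        · exact absurd hn (S.lt' hα h (by omega)).ne
        · exact h
        · exact absurd hn.symm (S.lt' hα h (by omega)).ne
      rw [hwj, hzk, hjk]
  · rw [hr]
    exact H α hα R0 le_rfl

/-- the number of branches may decrease -/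
theorem Compl.drop {I₁ : Set ℝ} {K₁ : ℕ} (S : Sys R0 I K Z) {α : ℝ} (hα : α ∈ I) (hP : Compl K Z α)
    (h0 : 0 < K₁) (hK : K₁ ≤ K) : Compl K₁ Z α := by
  intro w hw hlt
  have hle : ‖Z (K₁ - 1) α‖ ≤ ‖Z (K - 1) α‖ := by
    rcases (show K₁ - 1 ≤ K - 1 by omega).lt_or_eq with h | h
    · exact (S.lt' hα h (by omega)).le
    · rw [h]
  obtain ⟨k, hk, hwk⟩ := hP w hw (hlt.trans_le hle)
  refine ⟨k, ?_, hwk⟩
  by_contra hcon
  have hk1 : K₁ - 1 ≤ k := by omega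
  rw [hwk] at hlt
  rcases hk1.lt_or_eq with h | h
  · exact absurd hlt (not_lt.2 (S.lt' hα h (by omega)).le)
  · rw [h] at hlt
    exact lt_irrefl _ hlt

end

/-- **T2.** Branches `Z 0, ..., Z (n - 1)`, `Z k` over `[lo k, b]`, `lo` monotone; `|Z k| < |Z (k + 1)|` over
`[lo (k + 1), b]`; `R0 ≤ |Z k|` over `[lo k, lo (k + 1)]`, `R0 ≤ |Z (n - 1)|` over `[lo (n - 1), b]`; completeness at `b`.
Then `Dist α r` for all `α ∈ [lo k₀, b]`, `r ≤ R0`. -/
theorem dist_of_branches {R0 b : ℝ} {n : ℕ} (hn : 0 < n) (lo : ℕ → ℝ) (Z : ℕ → ℝ → ℂ) (k₀ : ℕ) (hk₀ : k₀ < n)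
    (hlo : ∀ k, k + 1 < n → lo k ≤ lo (k + 1)) (hb : ∀ k < n, lo k ≤ b)
    (hZ : ∀ k < n, Branch (Icc (lo k) b) (Z k))
    (hlt : ∀ k, k + 1 < n → ∀ α ∈ Icc (lo (k + 1)) b, ‖Z k α‖ < ‖Z (k + 1) α‖)
    (htop : ∀ k, k₀ ≤ k → k + 1 < n → ∀ α ∈ Icc (lo k) (lo (k + 1)), R0 ≤ ‖Z k α‖)
    (htop' : ∀ α ∈ Icc (lo (n - 1)) b, R0 ≤ ‖Z (n - 1) α‖)
    (hP : Compl n Z b) (H : ∀ α ∈ Icc (lo k₀) b, ∀ r, R0 ≤ r → Dist α r) :
    ∀ α ∈ Icc (lo k₀) b, ∀ r, r ≤ R0 → Dist α r := by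
  have hmono : ∀ j k, j ≤ k → k < n → lo j ≤ lo k := by
    intro j k hjk
    induction k, hjk using Nat.le_induction with
    | base => intro _; exact le_rfl
    | succ k _ ih => intro hk; exact (ih (by omega)).trans (hlo k hk)
  -- upper end of the `k`-th interval
  have main : ∀ m, m < n - k₀ → (Compl (n - m) Z (if m = 0 then b else lo (n - m))) ∧
      ∀ α ∈ Icc (lo (n - 1 - m)) (if m = 0 then b else lo (n - m)), Compl (n - m) Z α ∧ ∀ r, r ≤ R0 → Dist α r := by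
    intro m
    have hS : ∀ m, m < n - k₀ → Sys R0 (Icc (lo (n - 1 - m)) (if m = 0 then b else lo (n - m))) (n - m) Z := by
      intro m hm
      have hup : (if m = 0 then b else lo (n - m)) ≤ b := by
        split_ifs
        · exact le_rfl
        · exact hb _ (by omega)
      refine ⟨by omega, fun k hk => ?_, fun k hk α hα => ?_, fun α hα => ?_⟩
      · refine (hZ k (by omega)).mono (Icc_subset_Icc (hmono _ _ (by omega) (by omega)) hup)
      · exact hlt k (by omega) α ⟨(hmono _ _ (by omega) (by omega)).trans hα.1, hα.2.trans hup⟩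
      · by_cases hm0 : m = 0
        · subst hm0
          simp only [if_true] at hα
          exact htop' α hα
        · rw [if_neg hm0] at hα
          have e : n - m = n - 1 - m + 1 := by omega
          have e2 : n - m - 1 = n - 1 - m := by omega
          rw [e2]
          refine htop (n - 1 - m) (by omega) (by omega) α ?_
          rwa [← e]
    have hI : ∀ m, m < n - k₀ → Icc (lo (n - 1 - m)) (if m = 0 then b else lo (n - m)) ⊆ Icc (lo k₀) b := by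
      intro m hm
      refine Icc_subset_Icc (hmono _ _ (by omega) (by omega)) ?_
      split_ifs
      · exact le_rfl
      · exact hb _ (by omega)
    have hne : ∀ m, m < n - k₀ → lo (n - 1 - m) ≤ (if m = 0 then b else lo (n - m)) := by
      intro m hm
      split_ifs
      · exact hb _ (by omega)
      · exact hmono _ _ (by omega) (by omega)
    induction m with
    | zero =>
      intro hm
      refine ⟨by simpa using hP, fun α hα => ?_⟩
      have hc := (hS 0 hm).continue isPreconnected_Icc (fun α hα => H α (hI 0 hm hα))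
        (right_mem_Icc.2 (hne 0 hm)) (by simpa using hP) hα
      exact ⟨hc, fun r hr => (hS 0 hm).dist (fun α hα => H α (hI 0 hm hα)) hα hc hr⟩
    | succ m ih =>
      intro hm
      obtain ⟨-, ih2⟩ := ih (by omega)
      have hmem : lo (n - 1 - m) ∈ Icc (lo (n - 1 - m)) (if m = 0 then b else lo (n - m)) :=
        left_mem_Icc.2 (hne m (by omega))
      have h1 := (ih2 _ hmem).1
      have h2 : Compl (n - (m + 1)) Z (lo (n - 1 - m)) :=
        Compl.drop (I₁ := univ) (hS m (by omega)) hmem h1 (by omega) (by omega)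
      have e : n - 1 - m = n - (m + 1) := by omega
      rw [e] at h2
      have h3 : Compl (n - (m + 1)) Z (if m + 1 = 0 then b else lo (n - (m + 1))) := by
        rw [if_neg (by omega)]
        exact h2
      refine ⟨h3, fun α hα => ?_⟩
      have hc := (hS (m + 1) hm).continue isPreconnected_Icc (fun α hα => H α (hI (m + 1) hm hα))
        (right_mem_Icc.2 (hne (m + 1) hm)) h3 hα
      exact ⟨hc, fun r hr => (hS (m + 1) hm).dist (fun α hα => H α (hI (m + 1) hm hα)) hα hc hr⟩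
  -- every `α` lies in one of the intervals
  intro α hα r hr
  have hex : ∃ m, m < n - k₀ ∧ lo (n - 1 - m) ≤ α := ⟨n - 1 - k₀, by omega, by
    have : n - 1 - (n - 1 - k₀) = k₀ := by omega
    rw [this]
    exact hα.1⟩
  classical
  obtain ⟨h1, h2⟩ := Nat.find_spec hex
  refine ((main (Nat.find hex) h1).2 α ⟨h2, ?_⟩).2 r hr
  split_ifs with h0
  · exact hα.2
  · have h3 := Nat.find_min hex (m := Nat.find hex - 1) (by omega)
    push Not at h3
    have h4 := h3 (by omega)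
    have e : n - 1 - (Nat.find hex - 1) = n - Nat.find hex := by omega
    rw [e] at h4
    exact h4.le

end SokamFU

end

/-! ### Lib_MP_af4de1_fu.Start -/

section
namespace SokamF
end SokamF
/-!
# The starting point `α = π`: `F(z;-1) = cos z + sin z`
-/

set_option autoImplicit false

namespace SokamFU

open Filter Topology Set SokamF

theorem qa_pi : qa Real.pi = -1 := by
  unfold qa
  exact Complex.exp_pi_mul_I

theorem neg_one_pow_even (m : ℕ) : (-1 : ℂ) ^ (2 * m * (2 * m - 1) / 2) = (-1) ^ m := by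
  have h : 2 * m * (2 * m - 1) / 2 = m * (2 * m - 1) := by
    rw [mul_assoc, Nat.mul_div_cancel_left _ (by norm_num)]
  rw [h]
  rcases Nat.eq_zero_or_pos m with h0 | h0
  · subst h0; simp
  · have h2 : 2 * m - 1 = 2 * (m - 1) + 1 := by omega
    rw [pow_mul, h2, pow_succ, pow_mul]
    rcases Nat.even_or_odd m with h1 | h1
    · rw [h1.neg_one_pow]; simp
    · rw [h1.neg_one_pow]; simp

theorem neg_one_pow_odd (m : ℕ) : (-1 : ℂ) ^ ((2 * m + 1) * (2 * m + 1 - 1) / 2) = (-1) ^ m := by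
  have h : (2 * m + 1) * (2 * m + 1 - 1) / 2 = m * (2 * m + 1) := by
    rw [Nat.add_sub_cancel]
    have : (2 * m + 1) * (2 * m) = 2 * (m * (2 * m + 1)) := by ring
    rw [this, Nat.mul_div_cancel_left _ (by norm_num)]
  rw [h, pow_mul, pow_succ, pow_mul]
  rcases Nat.even_or_odd m with h1 | h1
  · rw [h1.neg_one_pow]; simp
  · rw [h1.neg_one_pow]; simp

/-- `F(z;-1) = cos z + sin z` -/
theorem F_neg_one (z : ℂ) : F (-1) z = Complex.cos z + Complex.sin z := by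
  unfold F
  have h1 : HasSum (fun k : ℕ => (-1 : ℂ) ^ (2 * k * (2 * k - 1) / 2) * z ^ (2 * k) / ((Nat.factorial (2 * k) : ℕ) : ℂ))
      (Complex.cos z) := by
    have := Complex.hasSum_cos z
    simp only [neg_one_pow_even]
    exact this
  have h2 : HasSum (fun k : ℕ => (-1 : ℂ) ^ ((2 * k + 1) * (2 * k + 1 - 1) / 2) * z ^ (2 * k + 1) /
      ((Nat.factorial (2 * k + 1) : ℕ) : ℂ)) (Complex.sin z) := by
    have := Complex.hasSum_sin z
    simp only [neg_one_pow_odd]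
    exact this
  exact (HasSum.even_add_odd (f := fun k : ℕ => (-1 : ℂ) ^ (k * (k - 1) / 2) * z ^ k / (Nat.factorial k : ℂ)) h1 h2).tsum_eq

/-- the `j`-th zero at `α = π` -/
noncomputable def zpi (j : ℕ) : ℂ := (-1) ^ (j + 1) * (((2 * j + 1) * Real.pi / 4 : ℝ) : ℂ)

theorem norm_zpi (j : ℕ) : ‖zpi j‖ = (2 * j + 1) * Real.pi / 4 := by
  unfold zpi
  rw [norm_mul, norm_pow, norm_neg, norm_one, one_pow, one_mul, Complex.norm_real, Real.norm_eq_abs, abs_of_nonneg]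
  have := Real.pi_pos
  positivity

theorem eq_zpi {w : ℂ} (hw : F (qa Real.pi) w = 0) : ∃ j : ℕ, w = zpi j := by
  rw [qa_pi, F_neg_one] at hw
  have h1 : Complex.sin (w + (Real.pi / 4 : ℝ)) = 0 := by
    rw [Complex.sin_add]
    have e1 : Complex.cos ((Real.pi / 4 : ℝ) : ℂ) = ((√2 / 2 : ℝ) : ℂ) := by
      rw [← Complex.ofReal_cos, Real.cos_pi_div_four]
    have e2 : Complex.sin ((Real.pi / 4 : ℝ) : ℂ) = ((√2 / 2 : ℝ) : ℂ) := by
      rw [← Complex.ofReal_sin, Real.sin_pi_div_four]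
    rw [e1, e2, ← add_mul, add_comm (Complex.sin w), hw, zero_mul]
  rw [Complex.sin_eq_zero_iff] at h1
  obtain ⟨m, hm⟩ := h1
  have hw2 : w = (((m : ℝ) * Real.pi - Real.pi / 4 : ℝ) : ℂ) := by
    have : w = m * Real.pi - ((Real.pi / 4 : ℝ) : ℂ) := by rw [← hm]; ring
    rw [this]
    push_cast
    ring
  rcases le_or_gt m 0 with h0 | h0
  · obtain ⟨n, hn⟩ := Int.eq_ofNat_of_zero_le (show 0 ≤ -m by omega)
    refine ⟨2 * n, ?_⟩
    have hmn : (m : ℝ) = -(n : ℝ) := by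
      have : m = -(n : ℤ) := by omega
      rw [this]; simp
    unfold zpi
    rw [hw2, hmn, pow_succ, pow_mul]
    simp only [even_two, Even.neg_pow, one_pow, one_mul]
    push_cast
    ring
  · obtain ⟨n, hn⟩ := Int.eq_ofNat_of_zero_le (show 0 ≤ m - 1 by omega)
    refine ⟨2 * n + 1, ?_⟩
    have hmn : (m : ℝ) = (n : ℝ) + 1 := by
      have : m = (n : ℤ) + 1 := by omega
      rw [this]; simp
    unfold zpi
    have e : (-1 : ℂ) ^ (2 * n + 1 + 1) = 1 := by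
      have : 2 * n + 1 + 1 = 2 * (n + 1) := by ring
      rw [this, pow_mul]
      simp
    rw [hw2, hmn, e]
    push_cast
    ring

/-- the first `n` zeros at `α = π` -/
theorem eq_zpi_of_lt {n : ℕ} (hn : 0 < n) {Z : ℕ → ℝ → ℂ} (h0 : ∀ k < n, F (qa Real.pi) (Z k Real.pi) = 0)
    (hlt : ∀ k, k + 1 < n → ‖Z k Real.pi‖ < ‖Z (k + 1) Real.pi‖)
    (hup : ‖Z (n - 1) Real.pi‖ < (2 * n + 1) * Real.pi / 4) : ∀ k < n, Z k Real.pi = zpi k := by
  have hpi := Real.pi_pos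
  choose! j hj using fun (w : ℂ) (hw : F (qa Real.pi) w = 0) => eq_zpi hw
  have hjk : ∀ k < n, Z k Real.pi = zpi (j (Z k Real.pi)) := fun k hk => hj _ (h0 k hk)
  have hnorm : ∀ k < n, ‖Z k Real.pi‖ = (2 * (j (Z k Real.pi) : ℝ) + 1) * Real.pi / 4 := fun k hk => by
    rw [hjk k hk, norm_zpi, ← hjk k hk]
  set J : ℕ → ℕ := fun k => j (Z k Real.pi) with hJ
  have hmono : ∀ k, k + 1 < n → J k < J (k + 1) := fun k hk => by
    have h1 := hlt k hk
    rw [hnorm k (by omega), hnorm (k + 1) hk] at h1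
    have h2 : (J k : ℝ) < J (k + 1) := by
      by_contra hcon
      push Not at hcon
      have : (2 * (J (k + 1) : ℝ) + 1) * Real.pi / 4 ≤ (2 * (J k : ℝ) + 1) * Real.pi / 4 := by gcongr
      exact absurd h1 (not_lt.2 this)
    exact_mod_cast h2
  have hlast : J (n - 1) < n := by
    have h1 := hup
    rw [hnorm (n - 1) (by omega)] at h1
    have h2 : (J (n - 1) : ℝ) < n := by
      by_contra hcon
      push Not at hcon
      have : (2 * (n : ℝ) + 1) * Real.pi / 4 ≤ (2 * (J (n - 1) : ℝ) + 1) * Real.pi / 4 := by gcongr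
      exact absurd h1 (not_lt.2 this)
    exact_mod_cast h2
  have hge : ∀ k < n, k ≤ J k := by
    intro k
    induction k with
    | zero => intro _; exact Nat.zero_le _
    | succ k ih =>
      intro hk
      have := ih (by omega)
      have := hmono k hk
      omega
  have hle : ∀ m < n, J (n - 1 - m) ≤ n - 1 - m := by
    intro m
    induction m with
    | zero => intro _; simpa using Nat.le_sub_one_of_lt hlast
    | succ m ih =>
      intro hm
      have h1 := ih (by omega)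
      have h2 := hmono (n - 1 - (m + 1)) (by omega)
      have e : n - 1 - (m + 1) + 1 = n - 1 - m := by omega
      rw [e] at h2
      omega
  intro k hk
  have h1 := hge k hk
  have h2 := hle (n - 1 - k) (by omega)
  have e : n - 1 - (n - 1 - k) = k := by omega
  rw [e] at h2
  have h3 : J k = k := le_antisymm h2 h1
  have h4 := hjk k hk
  change Z k Real.pi = zpi (J k) at h4
  rw [h4, h3]

/-- **Completeness at `α = π`.** -/
theorem compl_pi {n : ℕ} (hn : 0 < n) (Z : ℕ → ℝ → ℂ) (h0 : ∀ k < n, F (qa Real.pi) (Z k Real.pi) = 0)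
    (hlt : ∀ k, k + 1 < n → ‖Z k Real.pi‖ < ‖Z (k + 1) Real.pi‖)
    (hup : ‖Z (n - 1) Real.pi‖ < (2 * n + 1) * Real.pi / 4) : Compl n Z Real.pi := by
  have hz := eq_zpi_of_lt hn h0 hlt hup
  have hpi := Real.pi_pos
  intro w hw hlt2
  obtain ⟨j, hj⟩ := eq_zpi hw
  rw [hz (n - 1) (by omega), hj, norm_zpi, norm_zpi] at hlt2
  have h2 : (j : ℝ) < ((n - 1 : ℕ) : ℝ) := by
    by_contra hcon
    push Not at hcon
    have : (2 * ((n - 1 : ℕ) : ℝ) + 1) * Real.pi / 4 ≤ (2 * (j : ℝ) + 1) * Real.pi / 4 := by gcongr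
    exact absurd hlt2 (not_lt.2 this)
  have h3 : j < n - 1 := by exact_mod_cast h2
  exact ⟨j, h3, by rw [hz j (by omega), hj]⟩

end SokamFU

end

/-! ### Lib_MP_af4de1_fu.Chain -/

section
namespace SokamF
end SokamF
/-!
# Chains of tubes with integer data

A piece `Pc` is a tube with integer data (scale `2^40`).  `chainOK`: consecutive pieces touch and the junction
condition holds.  `ordOK`: the moduli of the zeros of one chain are smaller than those of the next chain.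
-/

set_option autoImplicit false

namespace SokamFU

open Set SokamF Finset

/-- a tube with integer data, all numbers to be divided by `2^40` -/
structure Pc where
  /-- centre -/
  a : ℤ
  /-- half width -/
  d : ℤ
  /-- real part of `c` -/
  cx : ℤ
  /-- imaginary part of `c` -/
  cy : ℤ
  /-- real part of `lam` -/
  lx : ℤ
  /-- imaginary part of `lam` -/
  ly : ℤ
  /-- small radius -/
  e' : ℤ
  /-- big radius -/
  e : ℤ

/-- the real number `x / 2^40` -/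
noncomputable def rv (x : ℤ) : ℝ := (x : ℝ) / 2 ^ (40 : ℕ)

/-- the complex number `(x + i y) / 2^40` -/
noncomputable def cv (x y : ℤ) : ℂ := ⟨rv x, rv y⟩

theorem rv_add (x y : ℤ) : rv (x + y) = rv x + rv y := by
  unfold rv; push_cast; ring

theorem rv_sub (x y : ℤ) : rv (x - y) = rv x - rv y := by
  unfold rv; push_cast; ring

theorem rv_le {x y : ℤ} : rv x ≤ rv y ↔ x ≤ y := by
  unfold rv
  rw [div_le_div_iff_of_pos_right (by positivity)]
  exact Int.cast_le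

theorem rv_lt {x y : ℤ} : rv x < rv y ↔ x < y := by
  unfold rv
  rw [div_lt_div_iff_of_pos_right (by positivity)]
  exact Int.cast_lt

theorem rv_nonneg {x : ℤ} : 0 ≤ rv x ↔ 0 ≤ x := by
  have := @rv_le 0 x
  rwa [show rv 0 = 0 by simp [rv]] at this

theorem cv_normSq (x y : ℤ) : ‖cv x y‖ ^ (2 : ℕ) = ((x ^ (2 : ℕ) + y ^ (2 : ℕ) : ℤ) : ℝ) / (2 ^ (40 : ℕ)) ^ (2 : ℕ) := by
  rw [← Complex.normSq_eq_norm_sq]
  simp only [cv, Complex.normSq_mk, rv]
  push_cast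
  ring

theorem cv_eq (x y : ℤ) : cv x y = ((x : ℂ) + (y : ℂ) * Complex.I) / 2 ^ (40 : ℕ) := by
  apply Complex.ext
  · simp [cv, rv]
    rw [show ((2 : ℂ) ^ (40 : ℕ)) = ((2 ^ (40 : ℕ) : ℝ) : ℂ) by push_cast; rfl, Complex.div_ofReal_re]
    simp
  · simp [cv, rv]
    rw [show ((2 : ℂ) ^ (40 : ℕ)) = ((2 ^ (40 : ℕ) : ℝ) : ℂ) by push_cast; rfl, Complex.div_ofReal_im]
    simp

namespace Pc

/-- `c` -/
noncomputable def c (p : Pc) : ℂ := cv p.cx p.cy

/-- `lam` -/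
noncomputable def lam (p : Pc) : ℂ := cv p.lx p.ly

/-- lower end -/
def lo (p : Pc) : ℤ := p.a - p.d

/-- upper end -/
def hi (p : Pc) : ℤ := p.a + p.d

/-- the piece is a tube -/
def T (p : Pc) : Prop := IsTube (rv p.a) (rv p.d) p.c p.lam (rv p.e') (rv p.e)

/-- the zero in the piece -/
noncomputable def z (p : Pc) (α : ℝ) : ℂ := zf (rv p.a) p.c p.lam (rv p.e') α

theorem abs_le {p : Pc} {α : ℝ} (h : α ∈ Icc (rv p.lo) (rv p.hi)) : |α - rv p.a| ≤ rv p.d := by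
  rw [_root_.abs_le]
  have h1 := h.1
  have h2 := h.2
  rw [lo, rv_sub] at h1
  rw [hi, rv_add] at h2
  constructor <;> linarith

end Pc

/-! ### The junction -/

/-- Horner scheme for `∑ v^m / m!` with Gaussian integers: `(x, y, D)` means `(x + i y) / D` -/
def hor (vx vy : ℤ) : List ℤ → ℤ × ℤ × ℤ
  | [] => (1, 0, 1)
  | j :: l =>
    let r := hor vx vy l
    let D := r.2.2 * (j * 2 ^ (40 : ℕ))
    (D + (vx * r.1 - vy * r.2.1), vx * r.2.1 + vy * r.1, D)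

/-- the complex value of a triple -/
noncomputable def tv (r : ℤ × ℤ × ℤ) : ℂ := ((r.1 : ℂ) + (r.2.1 : ℂ) * Complex.I) / (r.2.2 : ℂ)

theorem hor_cons (vx vy j : ℤ) (l : List ℤ) (hj : j ≠ 0) (hD : (hor vx vy l).2.2 ≠ 0) :
    (hor vx vy (j :: l)).2.2 ≠ 0 ∧ tv (hor vx vy (j :: l)) = 1 + cv vx vy / (j : ℂ) * tv (hor vx vy l) := by
  have h1 : (hor vx vy (j :: l)).2.2 = (hor vx vy l).2.2 * (j * 2 ^ (40 : ℕ)) := rfl
  refine ⟨?_, ?_⟩
  · rw [h1]
    exact mul_ne_zero hD (mul_ne_zero hj (by norm_num))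
  · set r := hor vx vy l with hr
    have h2 : hor vx vy (j :: l) = (r.2.2 * (j * 2 ^ (40 : ℕ)) + (vx * r.1 - vy * r.2.1), vx * r.2.1 + vy * r.1,
        r.2.2 * (j * 2 ^ (40 : ℕ))) := rfl
    rw [h2, tv, tv, cv_eq]
    have hD' : (r.2.2 : ℂ) ≠ 0 := by exact_mod_cast hD
    have hj' : (j : ℂ) ≠ 0 := by exact_mod_cast hj
    push_cast
    field_simp
    ring_nf
    rw [Complex.I_sq]
    ring

/-- The Taylor polynomial of degree 9. -/
theorem hor_spec (vx vy : ℤ) :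
    (hor vx vy [1, 2, 3, 4, 5, 6, 7, 8, 9]).2.2 = 362880 * (2 ^ (40 : ℕ)) ^ (9 : ℕ) ∧
    tv (hor vx vy [1, 2, 3, 4, 5, 6, 7, 8, 9]) = ∑ m ∈ range 10, cv vx vy ^ m / (m.factorial : ℂ) := by
  have h0 : (hor vx vy []).2.2 ≠ 0 := by simp [hor]
  have e0 : tv (hor vx vy []) = 1 := by simp [hor, tv]
  obtain ⟨h9, e9⟩ := hor_cons vx vy 9 [] (by norm_num) h0
  obtain ⟨h8, e8⟩ := hor_cons vx vy 8 _ (by norm_num) h9
  obtain ⟨h7, e7⟩ := hor_cons vx vy 7 _ (by norm_num) h8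
  obtain ⟨h6, e6⟩ := hor_cons vx vy 6 _ (by norm_num) h7
  obtain ⟨h5, e5⟩ := hor_cons vx vy 5 _ (by norm_num) h6
  obtain ⟨h4, e4⟩ := hor_cons vx vy 4 _ (by norm_num) h5
  obtain ⟨h3, e3⟩ := hor_cons vx vy 3 _ (by norm_num) h4
  obtain ⟨h2, e2⟩ := hor_cons vx vy 2 _ (by norm_num) h3
  obtain ⟨h1, e1⟩ := hor_cons vx vy 1 _ (by norm_num) h2
  refine ⟨?_, ?_⟩
  · have hd : ∀ j l, (hor vx vy (j :: l)).2.2 = (hor vx vy l).2.2 * (j * 2 ^ (40 : ℕ)) := fun _ _ => rfl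
    simp only [hd]
    rw [show (hor vx vy []).2.2 = 1 from rfl]
    norm_num
  · rw [e1, e2, e3, e4, e5, e6, e7, e8, e9, e0]
    simp only [Finset.sum_range_succ, Finset.sum_range_zero, Nat.factorial]
    push_cast
    ring

/-- the junction condition between a piece and the next one (lower `α`) -/
def junc (p q : Pc) : Bool :=
  let vx := (q.lx * q.d + p.lx * p.d) / 2 ^ (40 : ℕ)
  let vy := (q.ly * q.d + p.ly * p.d) / 2 ^ (40 : ℕ)
  let r := hor vx vy [1, 2, 3, 4, 5, 6, 7, 8, 9]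
  let X := q.cx * r.1 - q.cy * r.2.1 - p.cx * r.2.2
  let Y := q.cx * r.2.1 + q.cy * r.1 - p.cy * r.2.2
  let x := p.e - q.e' - 2
  let K := x * (2 ^ (40 : ℕ) - x) - 2 ^ (60 : ℕ)
  decide (q.a + q.d = p.a - p.d) && decide (vx ^ (2 : ℕ) + vy ^ (2 : ℕ) ≤ 2 ^ (80 : ℕ)) && decide (0 ≤ x) && decide (x ≤ 2 ^ (40 : ℕ)) &&
    decide (0 ≤ K) && decide (q.cx ^ (2 : ℕ) + q.cy ^ (2 : ℕ) ≤ 4 * (p.cx ^ (2 : ℕ) + p.cy ^ (2 : ℕ))) &&
    decide ((X ^ (2 : ℕ) + Y ^ (2 : ℕ)) * 2 ^ (160 : ℕ) ≤ K ^ (2 : ℕ) * ((p.cx ^ (2 : ℕ) + p.cy ^ (2 : ℕ)) * r.2.2 ^ (2 : ℕ)))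

theorem floor_err (x : ℤ) : |(x : ℝ) / (2 ^ (40 : ℕ)) ^ (2 : ℕ) - rv (x / 2 ^ (40 : ℕ))| ≤ 1 / 2 ^ (40 : ℕ) := by
  have h1 : x = 2 ^ (40 : ℕ) * (x / 2 ^ (40 : ℕ)) + x % 2 ^ (40 : ℕ) := (Int.mul_ediv_add_emod x (2 ^ (40 : ℕ))).symm
  have h2 : 0 ≤ x % 2 ^ (40 : ℕ) := Int.emod_nonneg _ (by norm_num)
  have h3 : x % 2 ^ (40 : ℕ) < 2 ^ (40 : ℕ) := Int.emod_lt_of_pos _ (by norm_num)
  have h4 : (x : ℝ) = 2 ^ (40 : ℕ) * ((x / 2 ^ (40 : ℕ) : ℤ) : ℝ) + ((x % 2 ^ (40 : ℕ) : ℤ) : ℝ) := by exact_mod_cast h1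
  have h5 : (0 : ℝ) ≤ ((x % 2 ^ (40 : ℕ) : ℤ) : ℝ) := by exact_mod_cast h2
  have h6 : ((x % 2 ^ (40 : ℕ) : ℤ) : ℝ) < 2 ^ (40 : ℕ) := by exact_mod_cast h3
  unfold rv
  rw [h4, abs_le]
  constructor
  · have : (2 ^ (40 : ℕ) * ((x / 2 ^ (40 : ℕ) : ℤ) : ℝ) + ((x % 2 ^ (40 : ℕ) : ℤ) : ℝ)) / (2 ^ (40 : ℕ)) ^ (2 : ℕ) - ((x / 2 ^ (40 : ℕ) : ℤ) : ℝ) / 2 ^ (40 : ℕ)
        = ((x % 2 ^ (40 : ℕ) : ℤ) : ℝ) / (2 ^ (40 : ℕ)) ^ (2 : ℕ) := by field_simp; ring
    rw [this]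
    have : (0 : ℝ) ≤ ((x % 2 ^ (40 : ℕ) : ℤ) : ℝ) / (2 ^ (40 : ℕ)) ^ (2 : ℕ) := by positivity
    have h7 : (0 : ℝ) ≤ 1 / 2 ^ (40 : ℕ) := by positivity
    linarith
  · have : (2 ^ (40 : ℕ) * ((x / 2 ^ (40 : ℕ) : ℤ) : ℝ) + ((x % 2 ^ (40 : ℕ) : ℤ) : ℝ)) / (2 ^ (40 : ℕ)) ^ (2 : ℕ) - ((x / 2 ^ (40 : ℕ) : ℤ) : ℝ) / 2 ^ (40 : ℕ)
        = ((x % 2 ^ (40 : ℕ) : ℤ) : ℝ) / (2 ^ (40 : ℕ)) ^ (2 : ℕ) := by field_simp; ring
    rw [this, div_le_div_iff₀ (by positivity) (by positivity)]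
    linarith only [h6]


theorem norm_log_le {y : ℂ} {κ : ℝ} (hκ : κ ≤ 1 / 2) (hy : ‖y‖ ≤ κ) : ‖Complex.log (1 + y)‖ ≤ κ + κ ^ (2 : ℕ) := by
  have h0 := norm_nonneg y
  have h1 : ‖y‖ < 1 := by linarith
  have h2 := Complex.norm_log_one_add_le h1
  have h3 : (1 - ‖y‖)⁻¹ ≤ 2 := by
    rw [inv_le_comm₀ (by linarith) (by norm_num)]
    linarith
  have h4 : ‖y‖ ^ (2 : ℕ) * (1 - ‖y‖)⁻¹ / 2 ≤ ‖y‖ ^ (2 : ℕ) := by
    have : ‖y‖ ^ (2 : ℕ) * (1 - ‖y‖)⁻¹ ≤ ‖y‖ ^ (2 : ℕ) * 2 := by gcongr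
    linarith
  nlinarith only [hy, h0, h2, h3]

theorem junc_spec {p q : Pc} (hc : p.c ≠ 0) (h : junc p q = true) : q.a + q.d = p.a - p.d ∧
    ∃ μ : ℂ, q.c = p.c * Complex.exp μ ∧
      ‖μ + q.lam * ((rv q.d : ℝ) : ℂ) - p.lam * ((-rv p.d : ℝ) : ℂ)‖ + rv q.e' ≤ rv p.e := by
  unfold junc at h
  simp only [Bool.and_eq_true, decide_eq_true_eq] at h
  obtain ⟨⟨⟨⟨⟨⟨h1, h2⟩, h3⟩, h3'⟩, h4⟩, h5⟩, h6⟩ := h
  refine ⟨h1, ?_⟩
  set vx := (q.lx * q.d + p.lx * p.d) / 2 ^ (40 : ℕ) with hvx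
  set vy := (q.ly * q.d + p.ly * p.d) / 2 ^ (40 : ℕ) with hvy
  set r := hor vx vy [1, 2, 3, 4, 5, 6, 7, 8, 9] with hr
  set X := q.cx * r.1 - q.cy * r.2.1 - p.cx * r.2.2 with hX
  set Y := q.cx * r.2.1 + q.cy * r.1 - p.cy * r.2.2 with hY
  obtain ⟨hD, hS⟩ := hor_spec vx vy
  rw [← hr] at hD hS
  have hD0 : (0 : ℝ) < (r.2.2 : ℝ) := by rw [hD]; norm_num
  -- the exact `v` and its rounding
  set v : ℂ := q.lam * ((rv q.d : ℝ) : ℂ) + p.lam * ((rv p.d : ℝ) : ℂ) with hv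
  have hvre : v.re = ((q.lx * q.d + p.lx * p.d : ℤ) : ℝ) / (2 ^ (40 : ℕ)) ^ (2 : ℕ) := by
    rw [hv]
    simp only [Pc.lam, cv, rv, Complex.add_re, Complex.mul_re, Complex.ofReal_re, Complex.ofReal_im]
    push_cast
    ring
  have hvim : v.im = ((q.ly * q.d + p.ly * p.d : ℤ) : ℝ) / (2 ^ (40 : ℕ)) ^ (2 : ℕ) := by
    rw [hv]
    simp only [Pc.lam, cv, rv, Complex.add_im, Complex.mul_im, Complex.ofReal_re, Complex.ofReal_im]
    push_cast
    ring
  have hvr : ‖v - cv vx vy‖ ≤ 2 / 2 ^ (40 : ℕ) := by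
    refine (Complex.norm_le_abs_re_add_abs_im _).trans ?_
    rw [Complex.sub_re, Complex.sub_im, hvre, hvim]
    have k1 := floor_err (q.lx * q.d + p.lx * p.d)
    have k2 := floor_err (q.ly * q.d + p.ly * p.d)
    rw [← hvx] at k1
    rw [← hvy] at k2
    have k3 : (cv vx vy).re = rv vx := rfl
    have k4 : (cv vx vy).im = rv vy := rfl
    rw [k3, k4]
    calc _ ≤ 1 / 2 ^ (40 : ℕ) + 1 / 2 ^ (40 : ℕ) := add_le_add k1 k2
      _ = 2 / 2 ^ (40 : ℕ) := by norm_num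
  have hv1 : ‖cv vx vy‖ ≤ 1 := by
    have k1 := cv_normSq vx vy
    have k2 : ((vx ^ (2 : ℕ) + vy ^ (2 : ℕ) : ℤ) : ℝ) ≤ (2 : ℝ) ^ (80 : ℕ) := by exact_mod_cast h2
    have k3 : ‖cv vx vy‖ ^ (2 : ℕ) ≤ 1 := by
      rw [k1, div_le_one (by positivity)]
      refine k2.trans (le_of_eq (by norm_num))
    nlinarith only [k3]
  have hexp : ‖Complex.exp (cv vx vy) - tv r‖ ≤ 1 / 2 ^ (21 : ℕ) := by
    rw [hS]
    refine (Complex.exp_bound hv1 (n := 10) (by norm_num)).trans ?_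
    have : ‖cv vx vy‖ ^ (10 : ℕ) ≤ 1 := pow_le_one₀ (norm_nonneg _) hv1
    have k1 : ‖cv vx vy‖ ^ (10 : ℕ) * (((10 : ℕ).succ : ℝ) * (((10 : ℕ).factorial : ℝ) * (10 : ℕ))⁻¹) ≤
        1 * (((10 : ℕ).succ : ℝ) * (((10 : ℕ).factorial : ℝ) * (10 : ℕ))⁻¹) := by gcongr
    refine k1.trans ?_
    norm_num [Nat.factorial]
  -- the quotient
  set y : ℂ := q.c * Complex.exp (cv vx vy) / p.c - 1 with hy
  have hpc : 0 < ‖p.c‖ := norm_pos_iff.2 hc
  have hqc : ‖q.c‖ ≤ 2 * ‖p.c‖ := by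
    have k1 := cv_normSq q.cx q.cy
    have k2 := cv_normSq p.cx p.cy
    have k3 : ((q.cx ^ (2 : ℕ) + q.cy ^ (2 : ℕ) : ℤ) : ℝ) ≤ 4 * ((p.cx ^ (2 : ℕ) + p.cy ^ (2 : ℕ) : ℤ) : ℝ) := by exact_mod_cast h5
    have k4 : ‖q.c‖ ^ (2 : ℕ) ≤ 4 * ‖p.c‖ ^ (2 : ℕ) := by
      have e1 : ‖q.c‖ ^ (2 : ℕ) = ((q.cx ^ (2 : ℕ) + q.cy ^ (2 : ℕ) : ℤ) : ℝ) / (2 ^ (40 : ℕ)) ^ (2 : ℕ) := k1
      have e2 : ‖p.c‖ ^ (2 : ℕ) = ((p.cx ^ (2 : ℕ) + p.cy ^ (2 : ℕ) : ℤ) : ℝ) / (2 ^ (40 : ℕ)) ^ (2 : ℕ) := k2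
      rw [e1, e2, ← mul_div_assoc]
      gcongr
    nlinarith only [k4, norm_nonneg p.c]
  set x : ℤ := p.e - q.e' - 2 with hx
  set K : ℤ := x * (2 ^ (40 : ℕ) - x) - 2 ^ (60 : ℕ) with hK
  have hxr0 : 0 ≤ rv x := rv_nonneg.2 h3
  have hxr1 : rv x ≤ 1 := by
    unfold rv
    rw [div_le_one (by positivity)]
    exact_mod_cast h3'
  set κ : ℝ := rv x * (1 - rv x) with hκ
  have hκK : κ - 1 / 2 ^ (20 : ℕ) = (K : ℝ) / (2 ^ (40 : ℕ)) ^ (2 : ℕ) := by
    rw [hκ, hK]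
    unfold rv
    push_cast
    field_simp
    ring
  have hK0 : (0 : ℝ) ≤ (K : ℝ) := by exact_mod_cast h4
  -- main estimate
  have hXY : ‖q.c * tv r - p.c‖ ≤ (κ - 1 / 2 ^ (20 : ℕ)) * ‖p.c‖ := by
    have e1 : q.c * tv r - p.c = ((X : ℂ) + (Y : ℂ) * Complex.I) / ((r.2.2 : ℂ) * 2 ^ (40 : ℕ)) := by
      have hD' : (r.2.2 : ℂ) ≠ 0 := by
        have : (r.2.2 : ℝ) ≠ 0 := hD0.ne'
        exact_mod_cast this
      rw [Pc.c, Pc.c, cv_eq, cv_eq, tv, hX, hY]
      push_cast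
      field_simp
      ring_nf
      rw [Complex.I_sq]
      ring
    have e2 : ‖q.c * tv r - p.c‖ ^ (2 : ℕ) = ((X ^ (2 : ℕ) + Y ^ (2 : ℕ) : ℤ) : ℝ) / ((r.2.2 : ℝ) * 2 ^ (40 : ℕ)) ^ (2 : ℕ) := by
      rw [e1, norm_div, div_pow]
      congr 1
      · rw [← Complex.normSq_eq_norm_sq]
        have : ((X : ℂ) + (Y : ℂ) * Complex.I) = (⟨(X : ℝ), (Y : ℝ)⟩ : ℂ) := by
          apply Complex.ext <;> simp
        rw [this, Complex.normSq_mk]
        push_cast
        ring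
      · rw [show ((r.2.2 : ℂ) * 2 ^ (40 : ℕ)) = (((r.2.2 : ℝ) * 2 ^ (40 : ℕ) : ℝ) : ℂ) by push_cast; rfl, Complex.norm_real]
        rw [Real.norm_eq_abs, sq_abs]
    have e3 : ‖p.c‖ ^ (2 : ℕ) = ((p.cx ^ (2 : ℕ) + p.cy ^ (2 : ℕ) : ℤ) : ℝ) / (2 ^ (40 : ℕ)) ^ (2 : ℕ) := cv_normSq _ _
    have e4 : (((X ^ (2 : ℕ) + Y ^ (2 : ℕ) : ℤ)) : ℝ) * 2 ^ (160 : ℕ) ≤ (K : ℝ) ^ (2 : ℕ) * (((p.cx ^ (2 : ℕ) + p.cy ^ (2 : ℕ) : ℤ) : ℝ) * (r.2.2 : ℝ) ^ (2 : ℕ)) := by
      exact_mod_cast h6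
    have e5 : ‖q.c * tv r - p.c‖ ^ (2 : ℕ) ≤ ((κ - 1 / 2 ^ (20 : ℕ)) * ‖p.c‖) ^ (2 : ℕ) := by
      rw [e2, hκK, mul_pow ((K : ℝ) / (2 ^ (40 : ℕ)) ^ (2 : ℕ)) ‖p.c‖ 2, e3]
      rw [div_pow, div_mul_div_comm, div_le_div_iff₀ (by positivity) (by positivity)]
      have : ((X ^ (2 : ℕ) + Y ^ (2 : ℕ) : ℤ) : ℝ) * (((2 ^ (40 : ℕ)) ^ (2 : ℕ)) ^ (2 : ℕ) * (2 ^ (40 : ℕ)) ^ (2 : ℕ)) =
          (((X ^ (2 : ℕ) + Y ^ (2 : ℕ) : ℤ) : ℝ) * 2 ^ (160 : ℕ)) * 2 ^ (80 : ℕ) := by ring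
      rw [this]
      calc _ ≤ ((K : ℝ) ^ (2 : ℕ) * (((p.cx ^ (2 : ℕ) + p.cy ^ (2 : ℕ) : ℤ) : ℝ) * (r.2.2 : ℝ) ^ (2 : ℕ))) * 2 ^ (80 : ℕ) := by gcongr
        _ = _ := by ring
    have e6 : 0 ≤ (κ - 1 / 2 ^ (20 : ℕ)) * ‖p.c‖ := by
      rw [hκK]
      positivity
    exact abs_le_of_sq_le_sq' e5 e6 |>.2
  have hyn : ‖y‖ ≤ κ := by
    have e1 : y = ((q.c * tv r - p.c) + q.c * (Complex.exp (cv vx vy) - tv r)) / p.c := by
      rw [hy]
      field_simp
      ring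
    rw [e1, norm_div, div_le_iff₀ hpc]
    refine (norm_add_le _ _).trans ?_
    rw [norm_mul]
    have e2 : ‖q.c‖ * ‖Complex.exp (cv vx vy) - tv r‖ ≤ (2 * ‖p.c‖) * (1 / 2 ^ (21 : ℕ)) := by gcongr
    calc _ ≤ (κ - 1 / 2 ^ (20 : ℕ)) * ‖p.c‖ + (2 * ‖p.c‖) * (1 / 2 ^ (21 : ℕ)) := add_le_add hXY e2
      _ = κ * ‖p.c‖ := by ring
  have hκ2 : κ ≤ 1 / 2 := by
    rw [hκ]
    linarith only [sq_nonneg (rv x - 1 / 2)]
  have hlog := norm_log_le hκ2 hyn
  have hy1 : (1 : ℂ) + y ≠ 0 := by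
    intro h0
    have : ‖y‖ = 1 := by
      rw [show y = -1 by linear_combination h0]
      simp
    linarith
  have h1y : 1 + y = q.c * Complex.exp (cv vx vy) / p.c := by rw [hy]; ring
  refine ⟨Complex.log (1 + y) - cv vx vy, ?_, ?_⟩
  · rw [Complex.exp_sub, Complex.exp_log hy1, h1y]
    have := Complex.exp_ne_zero (cv vx vy)
    field_simp
  · have e1 : Complex.log (1 + y) - cv vx vy + q.lam * ((rv q.d : ℝ) : ℂ) - p.lam * ((-rv p.d : ℝ) : ℂ) =
        Complex.log (1 + y) + (v - cv vx vy) := by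
      rw [hv]
      push_cast
      ring
    rw [e1]
    have e2 : ‖Complex.log (1 + y) + (v - cv vx vy)‖ ≤ (κ + κ ^ (2 : ℕ)) + 2 / 2 ^ (40 : ℕ) :=
      (norm_add_le _ _).trans (add_le_add hlog hvr)
    have e3 : κ + κ ^ (2 : ℕ) ≤ rv x := by
      rw [hκ]
      nlinarith only [mul_nonneg (mul_nonneg hxr0 hxr0) (sub_nonneg.2 hxr1), mul_nonneg hxr0 (sub_nonneg.2 hxr1)]
    have e4 : rv x = rv p.e - rv q.e' - 2 / 2 ^ (40 : ℕ) := by
      rw [hx, rv_sub, rv_sub]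
      congr 1
    linarith


/-! ### Chains -/

/-- chain of pieces with decreasing `α`: half widths nonnegative, junction condition -/
def chainOK : List Pc → Bool
  | [] => true
  | p :: l => decide (0 ≤ p.d) && (match l with
    | [] => true
    | q :: _ => junc p q) && chainOK l

/-- lower end of a chain -/
def lastLo : Pc → List Pc → ℤ
  | p, [] => p.lo
  | _, q :: l => lastLo q l

theorem chainOK_cons {p : Pc} {l : List Pc} (h : chainOK (p :: l) = true) : 0 ≤ p.d ∧ chainOK l = true := by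
  unfold chainOK at h
  simp only [Bool.and_eq_true, decide_eq_true_eq] at h
  exact ⟨h.1.1, h.2⟩

theorem chainOK_junc {p q : Pc} {l : List Pc} (h : chainOK (p :: q :: l) = true) : junc p q = true := by
  unfold chainOK at h
  simp only [Bool.and_eq_true, decide_eq_true_eq] at h
  exact h.1.2

theorem Pc.lo_le_hi {p : Pc} (h : 0 ≤ p.d) : p.lo ≤ p.hi := by
  unfold Pc.lo Pc.hi
  omega

theorem junc_touch {p q : Pc} (h : junc p q = true) : q.hi = p.lo := by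
  unfold junc at h
  simp only [Bool.and_eq_true, decide_eq_true_eq] at h
  exact h.1.1.1.1.1.1

theorem lastLo_le : ∀ (l : List Pc) (p : Pc), chainOK (p :: l) = true → ∀ x ∈ p :: l, lastLo p l ≤ x.lo ∧ x.hi ≤ p.hi := by
  intro l
  induction l with
  | nil =>
    intro p _ x hx
    rw [List.mem_singleton] at hx
    rw [hx]
    exact ⟨le_rfl, le_rfl⟩
  | cons q l ih =>
    intro p h x hx
    have h1 := chainOK_cons h
    have h2 := junc_touch (chainOK_junc h)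
    have h3 := Pc.lo_le_hi h1.1
    have h4 := Pc.lo_le_hi (chainOK_cons h1.2).1
    have h5 := ih q h1.2
    rcases List.mem_cons.1 hx with h6 | h6
    · rw [h6]
      have := (h5 q List.mem_cons_self).1
      exact ⟨by show lastLo q l ≤ p.lo; omega, le_rfl⟩
    · have := h5 x h6
      exact ⟨this.1, by omega⟩

/-- a chain of tubes gives a branch -/
theorem chain_branch : ∀ (l : List Pc) (p : Pc), (∀ x ∈ p :: l, x.T) → chainOK (p :: l) = true →
    ∃ Z : ℝ → ℂ, Branch (Icc (rv (lastLo p l)) (rv p.hi)) Z ∧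
      ∀ x ∈ p :: l, ∀ α ∈ Icc (rv x.lo) (rv x.hi), Z α = x.z α := by
  intro l
  induction l with
  | nil =>
    intro p hT h
    have T : p.T := hT p List.mem_cons_self
    refine ⟨p.z, ?_, fun x hx α _ => ?_⟩
    · have := T.branch
      rw [← rv_sub, ← rv_add] at this
      exact this
    · rw [List.mem_singleton] at hx
      rw [hx]
  | cons q l ih =>
    intro p hT h
    have T : p.T := hT p List.mem_cons_self
    have Tq : q.T := hT q (List.mem_cons_of_mem _ List.mem_cons_self)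
    have h1 := chainOK_cons h
    have hj := chainOK_junc h
    have h2 := junc_touch hj
    have h3 := Pc.lo_le_hi h1.1
    have h4 := Pc.lo_le_hi (chainOK_cons h1.2).1
    obtain ⟨Z, hB, hZ⟩ := ih q (fun x hx => hT x (List.mem_cons_of_mem _ hx)) h1.2
    have hmono := lastLo_le l q h1.2
    have hqlo := (hmono q List.mem_cons_self).1
    have B₂ : Branch (Icc (rv q.hi) (rv p.hi)) p.z := by
      have := T.branch
      rw [← rv_sub, ← rv_add] at this
      rw [h2]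
      exact this
    -- the junction
    have hglue : Z (rv q.hi) = p.z (rv q.hi) := by
      rw [hZ q List.mem_cons_self _ ⟨rv_le.2 h4, le_rfl⟩]
      obtain ⟨ht, μ, hμ, hle⟩ := junc_spec T.c_ne hj
      have e1 : rv q.hi - rv q.a = rv q.d := by rw [Pc.hi, rv_add]; ring
      have e2 : rv q.hi - rv p.a = -rv p.d := by rw [h2, Pc.lo, rv_sub]; ring
      have hα : |rv q.hi - rv p.a| ≤ rv p.d := by
        rw [e2, abs_neg, abs_of_nonneg (rv_nonneg.2 h1.1)]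
      have hα₁ : |rv q.hi - rv q.a| ≤ rv q.d := by
        rw [e1, abs_of_nonneg (rv_nonneg.2 (chainOK_cons h1.2).1)]
      exact IsTube.link T Tq hα hα₁ μ hμ (by rw [e1, e2]; exact hle)
    refine ⟨fun α => if α ≤ rv q.hi then Z α else p.z α, ?_, ?_⟩
    · exact hB.glue (rv_le.2 (show lastLo q l ≤ q.hi by omega)) (rv_le.2 (show q.hi ≤ p.hi by omega)) B₂ hglue
    · intro x hx α hα
      rcases List.mem_cons.1 hx with h6 | h6
      · rw [h6] at hα ⊢
        rcases hα.1.eq_or_lt with h7 | h7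
        · have h8 : α = rv q.hi := by rw [← h7, h2]
          simp only [h8, le_refl, if_true]
          exact hglue
        · have : ¬ α ≤ rv q.hi := by
            rw [h2]
            exact not_le.2 h7
          simp only [this, if_false]
      · have h7 : α ≤ rv q.hi := hα.2.trans (rv_le.2 (hmono x h6).2)
        simp only [h7, if_true]
        exact hZ x h6 α hα

/-- every point of the range of a chain lies in a piece -/
theorem chain_mem : ∀ (l : List Pc) (p : Pc), chainOK (p :: l) = true → ∀ α : ℝ, rv (lastLo p l) ≤ α → α ≤ rv p.hi →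
    ∃ x ∈ p :: l, α ∈ Icc (rv x.lo) (rv x.hi) := by
  intro l
  induction l with
  | nil =>
    intro p _ α h1 h2
    exact ⟨p, List.mem_cons_self, h1, h2⟩
  | cons q l ih =>
    intro p h α h1 h2
    rcases le_or_gt (rv p.lo) α with h3 | h3
    · exact ⟨p, List.mem_cons_self, h3, h2⟩
    · have h4 := junc_touch (chainOK_junc h)
      obtain ⟨x, hx, hx2⟩ := ih q (chainOK_cons h).2 α h1 (by rw [h4]; exact h3.le)
      exact ⟨x, List.mem_cons_of_mem _ hx, hx2⟩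

/-! ### Order of two chains -/

/-- twice the exponent at `x` (scale `2^80`): `2 (log bound of p) - 2 (log bound of q)` without `log |c|` -/
def expo (p q : Pc) (x : ℤ) : ℤ :=
  2 * (p.lx * (x - p.a) + p.e' * 2 ^ (40 : ℕ) - q.lx * (x - q.a) + q.e' * 2 ^ (40 : ℕ))

/-- the modulus in `p` is smaller than the modulus in `q` at the point `x` -/
def endOK (p q : Pc) (x : ℤ) : Bool :=
  let E := expo p q x
  decide (E ≤ 2 ^ (80 : ℕ)) && decide (-2 ^ (80 : ℕ) ≤ E) &&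
    decide ((p.cx ^ (2 : ℕ) + p.cy ^ (2 : ℕ)) * (2 ^ (160 : ℕ) + E * 2 ^ (80 : ℕ) + E ^ (2 : ℕ)) < (q.cx ^ (2 : ℕ) + q.cy ^ (2 : ℕ)) * 2 ^ (160 : ℕ))

/-- the modulus in `p` is smaller than the modulus in `q` on the common interval -/
def pairOK (p q : Pc) : Bool := endOK p q (max p.lo q.lo) && endOK p q (min p.hi q.hi)

/-- two-pointer merge -/
def ordOK : ℕ → List Pc → List Pc → Bool
  | 0, _, _ => false
  | n + 1, L, M =>
    match L, M with
    | p :: l, q :: m => pairOK p q &&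
      (if q.lo < p.lo then (match l with
        | [] => true
        | _ :: _ => ordOK n l (q :: m))
      else if p.lo < q.lo then (match m with
        | [] => true
        | _ :: _ => ordOK n (p :: l) m)
      else (match l, m with
        | _ :: _, _ :: _ => ordOK n l m
        | _, _ => true))
    | _, _ => true

theorem endOK_spec {p q : Pc} {x : ℤ} (h : endOK p q x = true) (hq : q.c ≠ 0) :
    ‖p.c‖ * Real.exp (p.lam.re * (rv x - rv p.a) + rv p.e') < ‖q.c‖ * Real.exp (q.lam.re * (rv x - rv q.a) - rv q.e') := by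
  unfold endOK at h
  simp only [Bool.and_eq_true, decide_eq_true_eq] at h
  obtain ⟨⟨h1, h2⟩, h3⟩ := h
  set E := expo p q x with hE
  set T : ℝ := (E : ℝ) / (2 ^ (40 : ℕ)) ^ (2 : ℕ) with hT
  have hTE : T = 2 * ((p.lam.re * (rv x - rv p.a) + rv p.e') - (q.lam.re * (rv x - rv q.a) - rv q.e')) := by
    have e1 : p.lam.re = rv p.lx := rfl
    have e2 : q.lam.re = rv q.lx := rfl
    rw [hT, hE, expo, e1, e2]
    unfold rv
    push_cast
    field_simp
    ring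
  have hT1 : |T| ≤ 1 := by
    have k1 : (E : ℝ) ≤ 2 ^ (80 : ℕ) := by exact_mod_cast h1
    have k2 : -(2 : ℝ) ^ (80 : ℕ) ≤ (E : ℝ) := by exact_mod_cast h2
    rw [hT, abs_le]
    constructor
    · rw [le_div_iff₀ (by positivity)]
      linarith
    · rw [div_le_one (by positivity)]
      linarith
  have hexp : Real.exp T ≤ 1 + T + T ^ (2 : ℕ) := by
    have := Real.abs_exp_sub_one_sub_id_le hT1
    have := (abs_le.1 this).2
    linarith
  have h4 : ‖p.c‖ ^ (2 : ℕ) * (1 + T + T ^ (2 : ℕ)) < ‖q.c‖ ^ (2 : ℕ) := by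
    have k1 : ‖p.c‖ ^ (2 : ℕ) = ((p.cx ^ (2 : ℕ) + p.cy ^ (2 : ℕ) : ℤ) : ℝ) / (2 ^ (40 : ℕ)) ^ (2 : ℕ) := cv_normSq _ _
    have k2 : ‖q.c‖ ^ (2 : ℕ) = ((q.cx ^ (2 : ℕ) + q.cy ^ (2 : ℕ) : ℤ) : ℝ) / (2 ^ (40 : ℕ)) ^ (2 : ℕ) := cv_normSq _ _
    have k3 : ((p.cx ^ (2 : ℕ) + p.cy ^ (2 : ℕ) : ℤ) : ℝ) * (2 ^ (160 : ℕ) + (E : ℝ) * 2 ^ (80 : ℕ) + (E : ℝ) ^ (2 : ℕ)) <
        ((q.cx ^ (2 : ℕ) + q.cy ^ (2 : ℕ) : ℤ) : ℝ) * 2 ^ (160 : ℕ) := by exact_mod_cast h3
    rw [k1, k2, hT]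
    have k4 : 1 + (E : ℝ) / (2 ^ (40 : ℕ)) ^ (2 : ℕ) + ((E : ℝ) / (2 ^ (40 : ℕ)) ^ (2 : ℕ)) ^ (2 : ℕ) =
        (2 ^ (160 : ℕ) + (E : ℝ) * 2 ^ (80 : ℕ) + (E : ℝ) ^ (2 : ℕ)) / 2 ^ (160 : ℕ) := by
      field_simp
    rw [k4, div_mul_div_comm, div_lt_div_iff₀ (by positivity) (by positivity)]
    calc _ = (((p.cx ^ (2 : ℕ) + p.cy ^ (2 : ℕ) : ℤ) : ℝ) * (2 ^ (160 : ℕ) + (E : ℝ) * 2 ^ (80 : ℕ) + (E : ℝ) ^ (2 : ℕ))) * (2 ^ (40 : ℕ)) ^ (2 : ℕ) := by ring
      _ < (((q.cx ^ (2 : ℕ) + q.cy ^ (2 : ℕ) : ℤ) : ℝ) * 2 ^ (160 : ℕ)) * (2 ^ (40 : ℕ)) ^ (2 : ℕ) := by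
        apply mul_lt_mul_of_pos_right k3 (by positivity)
      _ = _ := by ring
  have hqc : 0 < ‖q.c‖ := norm_pos_iff.2 hq
  set A := p.lam.re * (rv x - rv p.a) + rv p.e' with hA
  set B := q.lam.re * (rv x - rv q.a) - rv q.e' with hB
  have h5 : (‖p.c‖ * Real.exp A) ^ (2 : ℕ) < (‖q.c‖ * Real.exp B) ^ (2 : ℕ) := by
    have e1 : (‖p.c‖ * Real.exp A) ^ (2 : ℕ) = (‖p.c‖ ^ (2 : ℕ) * Real.exp T) * Real.exp B ^ (2 : ℕ) := by
      have : Real.exp A ^ (2 : ℕ) = Real.exp T * Real.exp B ^ (2 : ℕ) := by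
        rw [← Real.exp_nat_mul, ← Real.exp_nat_mul, ← Real.exp_add]
        congr 1
        rw [hTE]
        push_cast
        ring
      rw [mul_pow, this]
      ring
    rw [e1, mul_pow]
    have e2 : ‖p.c‖ ^ (2 : ℕ) * Real.exp T ≤ ‖p.c‖ ^ (2 : ℕ) * (1 + T + T ^ (2 : ℕ)) := by gcongr
    have e3 : 0 < Real.exp B ^ (2 : ℕ) := by positivity
    exact mul_lt_mul_of_pos_right (e2.trans_lt h4) e3
  exact lt_of_pow_lt_pow_left₀ 2 (by positivity) h5

theorem pairOK_spec {p q : Pc} (hp : p.c ≠ 0) (hq : q.c ≠ 0) (h : pairOK p q = true) {α : ℝ}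
    (h1 : α ∈ Icc (rv p.lo) (rv p.hi)) (h2 : α ∈ Icc (rv q.lo) (rv q.hi)) :
    ‖p.c‖ * Real.exp (p.lam.re * (α - rv p.a) + rv p.e') < ‖q.c‖ * Real.exp (q.lam.re * (α - rv q.a) - rv q.e') := by
  unfold pairOK at h
  rw [Bool.and_eq_true] at h
  have k1 := endOK_spec h.1 hq
  have k2 := endOK_spec h.2 hq
  set x := max p.lo q.lo with hx
  set y := min p.hi q.hi with hy
  have hxα : rv x ≤ α := by
    rw [hx]
    rcases max_cases p.lo q.lo with h3 | h3
    · rw [h3.1]; exact h1.1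
    · rw [h3.1]; exact h2.1
  have hαy : α ≤ rv y := by
    rw [hy]
    rcases min_cases p.hi q.hi with h3 | h3
    · rw [h3.1]; exact h1.2
    · rw [h3.1]; exact h2.2
  have hpc : 0 < ‖p.c‖ := norm_pos_iff.2 hp
  have hqc : 0 < ‖q.c‖ := norm_pos_iff.2 hq
  have key : ∀ u v : ℝ, (‖p.c‖ * Real.exp u < ‖q.c‖ * Real.exp v ↔ Real.log ‖p.c‖ + u < Real.log ‖q.c‖ + v) := by
    intro u v
    have e1 : ‖p.c‖ * Real.exp u = Real.exp (Real.log ‖p.c‖ + u) := by
      rw [Real.exp_add, Real.exp_log hpc]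
    have e2 : ‖q.c‖ * Real.exp v = Real.exp (Real.log ‖q.c‖ + v) := by
      rw [Real.exp_add, Real.exp_log hqc]
    rw [e1, e2]
    exact Real.exp_lt_exp
  rw [key] at k1 k2 ⊢
  rcases (hxα.trans hαy).eq_or_lt with h3 | h3
  · have : α = rv x := le_antisymm (by rw [h3]; exact hαy) hxα
    rw [this]
    exact k1
  · -- affine interpolation
    set t := (α - rv x) / (rv y - rv x) with ht
    have hd : 0 < rv y - rv x := by linarith
    have ht0 : 0 ≤ t := div_nonneg (by linarith) hd.le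
    have ht1 : t ≤ 1 := by
      rw [ht, div_le_one hd]
      linarith
    have hα : α = rv x + t * (rv y - rv x) := by
      rw [ht]
      field_simp
      ring
    have e : ∀ a : ℝ, α - a = (1 - t) * (rv x - a) + t * (rv y - a) := fun a => by
      rw [hα]; ring
    rw [e, e]
    rcases ht0.eq_or_lt with h4 | h4
    · rw [← h4]
      simpa using k1
    · have m1 := mul_le_mul_of_nonneg_left k1.le (sub_nonneg.2 ht1)
      have m2 := mul_lt_mul_of_pos_left k2 h4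
      linarith only [m1, m2]

theorem ordOK_spec : ∀ (n : ℕ) (l : List Pc) (p : Pc) (m : List Pc) (q : Pc), chainOK (p :: l) = true →
    chainOK (q :: m) = true → (∀ x ∈ p :: l, x.c ≠ 0) → (∀ x ∈ q :: m, x.c ≠ 0) →
    ordOK n (p :: l) (q :: m) = true → ∀ α : ℝ, α ≤ rv p.hi → α ≤ rv q.hi → rv (lastLo p l) ≤ α →
    rv (lastLo q m) ≤ α → ∃ x ∈ p :: l, ∃ y ∈ q :: m, α ∈ Icc (rv x.lo) (rv x.hi) ∧ α ∈ Icc (rv y.lo) (rv y.hi) ∧
      ‖x.c‖ * Real.exp (x.lam.re * (α - rv x.a) + rv x.e') < ‖y.c‖ * Real.exp (y.lam.re * (α - rv y.a) - rv y.e') := by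
  intro n
  induction n with
  | zero =>
    intro l p m q _ _ _ _ h
    simp [ordOK] at h
  | succ n ih =>
    intro l p m q hp hq cp cq h α a1 a2 a3 a4
    unfold ordOK at h
    simp only [Bool.and_eq_true] at h
    obtain ⟨h1, h2⟩ := h
    by_cases hb : rv p.lo ≤ α ∧ rv q.lo ≤ α
    · exact ⟨p, List.mem_cons_self, q, List.mem_cons_self, ⟨hb.1, a1⟩, ⟨hb.2, a2⟩,
        pairOK_spec (cp p List.mem_cons_self) (cq q List.mem_cons_self) h1 ⟨hb.1, a1⟩ ⟨hb.2, a2⟩⟩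
    · by_cases h3 : q.lo < p.lo
      · rw [if_pos h3] at h2
        have h4 : α < rv p.lo := by
          by_contra h5
          exact hb ⟨not_lt.1 h5, (rv_le.2 h3.le).trans (not_lt.1 h5)⟩
        cases l with
        | nil => exact absurd a3 (not_le.2 h4)
        | cons p' l =>
          simp only at h2
          have h5 := junc_touch (chainOK_junc hp)
          obtain ⟨x, hx, y, hy, r⟩ := ih l p' m q (chainOK_cons hp).2 hq
            (fun x hx => cp x (List.mem_cons_of_mem _ hx)) cq h2 α (by rw [h5]; exact h4.le) a2 a3 a4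
          exact ⟨x, List.mem_cons_of_mem _ hx, y, hy, r⟩
      · rw [if_neg h3] at h2
        by_cases h3' : p.lo < q.lo
        · rw [if_pos h3'] at h2
          have h4 : α < rv q.lo := by
            by_contra h5
            exact hb ⟨(rv_le.2 h3'.le).trans (not_lt.1 h5), not_lt.1 h5⟩
          cases m with
          | nil => exact absurd a4 (not_le.2 h4)
          | cons q' m =>
            simp only at h2
            have h5 := junc_touch (chainOK_junc hq)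
            obtain ⟨x, hx, y, hy, r⟩ := ih l p m q' hp (chainOK_cons hq).2 cp
              (fun x hx => cq x (List.mem_cons_of_mem _ hx)) h2 α a1 (by rw [h5]; exact h4.le) a3 a4
            exact ⟨x, hx, y, List.mem_cons_of_mem _ hy, r⟩
        · rw [if_neg h3'] at h2
          have he : p.lo = q.lo := by omega
          have h4 : α < rv p.lo := by
            by_contra h5
            exact hb ⟨not_lt.1 h5, by rw [← he]; exact not_lt.1 h5⟩
          cases l with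
          | nil => exact absurd a3 (not_le.2 h4)
          | cons p' l =>
            cases m with
            | nil => exact absurd a4 (not_le.2 (by show α < rv q.lo; rw [← he]; exact h4))
            | cons q' m =>
              simp only at h2
              have h5 := junc_touch (chainOK_junc hp)
              have h6 := junc_touch (chainOK_junc hq)
              obtain ⟨x, hx, y, hy, r⟩ := ih l p' m q' (chainOK_cons hp).2 (chainOK_cons hq).2
                (fun x hx => cp x (List.mem_cons_of_mem _ hx)) (fun x hx => cq x (List.mem_cons_of_mem _ hx)) h2 α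
                (by rw [h5]; exact h4.le) (by rw [h6, ← he]; exact h4.le) a3 a4
              exact ⟨x, List.mem_cons_of_mem _ hx, y, List.mem_cons_of_mem _ hy, r⟩


/-! ### Assembly -/

/-- the constant modulus `R / 2^40` as a piece over the interval of `p` -/
def cst (R : ℤ) (p : Pc) : Pc := ⟨p.a, p.d, R, 0, 0, 0, 0, 0⟩

/-- all zeros of the chain have modulus `> R / 2^40` -/
def topOK (R : ℤ) (L : List Pc) : Bool := L.all fun p => pairOK (cst R p) p

theorem cst_val {R : ℤ} (hR : 0 ≤ R) (p : Pc) (x : ℝ) (e : ℝ) (he : e = 0) :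
    ‖(cst R p).c‖ * Real.exp ((cst R p).lam.re * x + e) = rv R := by
  have h1 : (cst R p).c = ((rv R : ℝ) : ℂ) := by
    apply Complex.ext
    · rfl
    · show rv 0 = 0
      simp [rv]
  have h2 : (cst R p).lam.re = 0 := by simp [cst, Pc.lam, cv, rv]
  rw [h1, h2, he, Complex.norm_real, Real.norm_eq_abs, abs_of_nonneg (rv_nonneg.2 hR)]
  simp

theorem cst_ne {R : ℤ} (hR : 0 < R) (p : Pc) : (cst R p).c ≠ 0 := by
  have h1 : (cst R p).c = ((rv R : ℝ) : ℂ) := by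
    apply Complex.ext
    · rfl
    · show rv 0 = 0
      simp [rv]
  rw [h1]
  have : rv R ≠ 0 := by
    unfold rv
    have : (0 : ℝ) < R := by exact_mod_cast hR
    positivity
  exact_mod_cast this

theorem top_spec {R : ℤ} (hR : 0 < R) {p : Pc} (hp : p.T) (h : pairOK (cst R p) p = true) {α : ℝ}
    (hα : α ∈ Icc (rv p.lo) (rv p.hi)) : rv R ≤ ‖p.z α‖ := by
  have h1 := pairOK_spec (cst_ne hR p) hp.c_ne h (α := α) hα hα
  rw [cst_val hR.le p _ _ (by simp [cst, rv])] at h1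
  exact h1.le.trans (IsTube.le_norm hp (Pc.abs_le hα))

theorem up_spec {R : ℤ} (hR : 0 < R) {p : Pc} (hp : p.T) (h : pairOK p (cst R p) = true) {α : ℝ}
    (hα : α ∈ Icc (rv p.lo) (rv p.hi)) : ‖p.z α‖ < rv R := by
  have h1 := pairOK_spec hp.c_ne (cst_ne hR p) h (α := α) hα hα
  have h2 : (cst R p).lam.re * (α - rv (cst R p).a) - rv (cst R p).e' = (cst R p).lam.re * (α - rv (cst R p).a) + 0 := by
    simp [cst, rv]
  rw [h2, cst_val hR.le p _ _ rfl] at h1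
  exact (IsTube.norm_le hp (Pc.abs_le hα)).trans_lt h1

/-- The system of branches from the lists of the tubes: head `P k`, tail `t k` for `k < n`. -/
theorem sys_of_lists (R0 U lo : ℤ) (n : ℕ) (fuel : ℕ) (P : ℕ → Pc) (t : ℕ → List Pc) (hn : 0 < n) (hR : 0 < R0)
    (hU : 0 < U) (hU2 : rv U ≤ (2 * n + 1) * (157 / 200))
    (hT : ∀ k < n, ∀ x ∈ P k :: t k, x.T)
    (hC : ∀ k < n, chainOK (P k :: t k) = true)
    (hlo : ∀ k < n, lastLo (P k) (t k) = lo)
    (hhi : ∀ k < n, Real.pi ≤ rv (P k).hi)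
    (hord : ∀ k, k + 1 < n → ordOK fuel (P k :: t k) (P (k + 1) :: t (k + 1)) = true)
    (htop : topOK R0 (P (n - 1) :: t (n - 1)) = true)
    (hup : pairOK (P (n - 1)) (cst U (P (n - 1))) = true) (hpi : rv (P (n - 1)).lo ≤ Real.pi) :
    ∃ ZZ : ℕ → ℝ → ℂ, Sys (rv R0) (Icc (rv lo) Real.pi) n ZZ ∧ Real.pi ∈ Icc (rv lo) Real.pi ∧ Compl n ZZ Real.pi ∧
      ∀ k < n, ∀ x ∈ P k :: t k, ∀ α ∈ Icc (rv x.lo) (rv x.hi), ZZ k α = x.z α := by
  choose Z hZ using fun (k : ℕ) (hk : k < n) => chain_branch (t k) (P k) (hT k hk) (hC k hk)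
  set ZZ : ℕ → ℝ → ℂ := fun k => if hk : k < n then Z k hk else 0 with hZZ
  have eZ : ∀ k (hk : k < n), ZZ k = Z k hk := fun k hk => by
    rw [hZZ]
    simp only [hk, dif_pos]
  have hB : ∀ k < n, Branch (Icc (rv lo) Real.pi) (ZZ k) := fun k hk => by
    rw [eZ k hk]
    refine (hZ k hk).1.mono (Icc_subset_Icc ?_ (hhi k hk))
    rw [hlo k hk]
  have hval : ∀ k < n, ∀ x ∈ P k :: t k, ∀ α ∈ Icc (rv x.lo) (rv x.hi), ZZ k α = x.z α := fun k hk x hx α hα => by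
    rw [eZ k hk]
    exact (hZ k hk).2 x hx α hα
  have hlopi : rv lo ≤ Real.pi := by
    have h1 := lastLo_le (t (n - 1)) (P (n - 1)) (hC (n - 1) (by omega)) (P (n - 1)) List.mem_cons_self
    rw [hlo (n - 1) (by omega)] at h1
    exact (rv_le.2 h1.1).trans hpi
  have hlt : ∀ k, k + 1 < n → ∀ α ∈ Icc (rv lo) Real.pi, ‖ZZ k α‖ < ‖ZZ (k + 1) α‖ := by
    intro k hk α hα
    obtain ⟨x, hx, y, hy, hxα, hyα, hxy⟩ := ordOK_spec fuel (t k) (P k) (t (k + 1)) (P (k + 1)) (hC k (by omega))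
      (hC (k + 1) hk) (fun x hx => (hT k (by omega) x hx).c_ne) (fun x hx => (hT (k + 1) hk x hx).c_ne) (hord k hk) α
      (hα.2.trans (hhi k (by omega))) (hα.2.trans (hhi (k + 1) hk)) (by rw [hlo k (by omega)]; exact hα.1)
      (by rw [hlo (k + 1) hk]; exact hα.1)
    rw [hval k (by omega) x hx α hxα, hval (k + 1) hk y hy α hyα]
    exact (IsTube.norm_le (hT k (by omega) x hx) (Pc.abs_le hxα)).trans_lt
      (hxy.trans_le (IsTube.le_norm (hT (k + 1) hk y hy) (Pc.abs_le hyα)))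
  have hpiI : Real.pi ∈ Icc (rv lo) Real.pi := ⟨hlopi, le_rfl⟩
  have hP : Compl n ZZ Real.pi := by
    refine compl_pi hn ZZ (fun k hk => (hB k hk).zero _ hpiI) (fun k hk => hlt k hk _ hpiI) ?_
    have h1 : Real.pi ∈ Icc (rv (P (n - 1)).lo) (rv (P (n - 1)).hi) := ⟨hpi, hhi _ (by omega)⟩
    rw [hval (n - 1) (by omega) _ List.mem_cons_self _ h1]
    refine (up_spec hU (hT _ (by omega) _ List.mem_cons_self) hup h1).trans_le (hU2.trans ?_)
    have := Real.pi_gt_d2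
    have h2 : (0 : ℝ) < 2 * n + 1 := by positivity
    nlinarith only [this]
  have htop' : ∀ α ∈ Icc (rv lo) Real.pi, rv R0 ≤ ‖ZZ (n - 1) α‖ := by
    intro α hα
    have hk : n - 1 < n := by omega
    obtain ⟨x, hx, hxα⟩ := chain_mem (t (n - 1)) (P (n - 1)) (hC _ hk) α (by rw [hlo _ hk]; exact hα.1)
      (hα.2.trans (hhi _ hk))
    rw [hval _ hk x hx α hxα]
    unfold topOK at htop
    rw [List.all_eq_true] at htop
    exact top_spec hR (hT _ hk x hx) (htop x hx) hxα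
  exact ⟨ZZ, ⟨hn, hB, hlt, htop'⟩, hpiI, hP, hval⟩

end SokamFU

end

/-! ### Lib_MP_af4de1_fu.Data -/

section
set_option autoImplicit false

namespace SokamFU

/-- the `i`-th field (48 bits) -/
def fld (x i : ℕ) : ℕ := Nat.mod (Nat.div x (Nat.pow 2 (Nat.mul 48 i))) 281474976710656

theorem fld_eq (x i : ℕ) : fld x i = x / 2 ^ (48 * i) % 2 ^ (48 : ℕ) := rfl

/-- signed field -/
def sfld (x i : ℕ) : ℤ := Int.subNatNat (fld x i) 140737488355328

/-- decoding of a piece -/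
def Pc.dec (x : ℕ) : Pc :=
  ⟨Int.ofNat (fld x 0), Int.ofNat (fld x 1), sfld x 2, sfld x 3, sfld x 4, sfld x 5, Int.ofNat (fld x 6), Int.ofNat (fld x 7)⟩

end SokamFU

end
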