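import Pool.Agent.Lib_MP_af4de1_zy.Z07
import Pool.Agent.Lib_MP_af4de1_zy.Z49

/-! ### Lib_MP_af4de1_fu.EvQ -/

section
/-!
# The fixed point exponential of the tube test

`Qsp S A` is `2^S e^(ia)`, `a = A / 2^40`, up to an error of `2`.  PROOF. With `G = 2^(S+16)`, `U_m` (`Usp`) satisfies
`G a^m / m! - e_m ≤ U_m ≤ G a^m / m!`, `e_(m+1) ≤ e_m a / (m + 1) + 1`, hence `e_m ≤ 5`.  So the sums of the 64 terms
differ from those of the exact terms by at most `16 · 5` each, the tail of the exponential series is at most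
`2 G a^64 / 64! ≤ 1`, and the floor division by `2^16` gives the error `≤ 1` in each coordinate.
`qEv` is its packed residue (`p0 + 2^(S+19) ≥ p2` because `∑ a^(4j+2)/(4j+2)! ≤ 8`).
-/

set_option autoImplicit false

namespace SokamFU

open Finset

/-- exact term `2^(S+16) a^m / m!` -/
private noncomputable def Xex (S : ℕ) (a : ℝ) (m : ℕ) : ℝ := 2 ^ (S + 16) * (a ^ m / (m.factorial : ℝ))

private lemma Usp_step (S A m : ℕ) (a : ℝ) (ha : a = (A : ℝ) / 2 ^ (40 : ℕ)) :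
    ∃ t : ℝ, 0 ≤ t ∧ t ≤ 1 ∧ (Usp S A (m + 1) : ℝ) = (Usp S A m : ℝ) * a / (m + 1) - t := by
  have h0 : Usp S A (m + 1) = Usp S A m * A / (2 ^ (40 : ℕ) * (m + 1)) := by
    show Usp S A m * A / 2 ^ (40 : ℕ) / (m + 1) = _
    rw [Nat.div_div_eq_div_mul]
  set c : ℕ := 2 ^ (40 : ℕ) * (m + 1) with hc
  have hcpos : 0 < c := by (clear * -; positivity)
  have h1 := Nat.div_add_mod (Usp S A m * A) c
  have h2 := Nat.mod_lt (Usp S A m * A) hcpos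
  rw [← h0] at h1
  have h1' : (c : ℝ) * (Usp S A (m + 1) : ℝ) + ((Usp S A m * A % c : ℕ) : ℝ) =
      (Usp S A m : ℝ) * (A : ℝ) := by exact_mod_cast h1
  have h2' : ((Usp S A m * A % c : ℕ) : ℝ) ≤ (c : ℝ) := by exact_mod_cast h2.le
  have hc' : (0 : ℝ) < (c : ℝ) := by exact_mod_cast hcpos
  have hcr : (c : ℝ) = 2 ^ (40 : ℕ) * ((m : ℝ) + 1) := by rw [hc]; push_cast; ring
  refine ⟨((Usp S A m * A % c : ℕ) : ℝ) / c, by (clear * -; positivity), (div_le_one hc').2 h2', ?_⟩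
  have h3 : (Usp S A m : ℝ) * a / (m + 1) = (Usp S A m : ℝ) * (A : ℝ) / c := by
    rw [ha, hcr]
    have : (0 : ℝ) < (m : ℝ) + 1 := by (clear * -; positivity)
    field_simp
  rw [h3, ← h1']
  field_simp
  ring

private lemma Xex_succ (S : ℕ) (a : ℝ) (m : ℕ) : Xex S a (m + 1) = Xex S a m * a / (m + 1) := by
  unfold Xex
  rw [Nat.factorial_succ, pow_succ a m]
  push_cast
  have h1 : (0 : ℝ) < (m.factorial : ℝ) := by exact_mod_cast m.factorial_pos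
  have h2 : (0 : ℝ) < (m : ℝ) + 1 := by (clear * -; positivity)
  field_simp

private lemma a_bounds {A : ℕ} (hA : A ≤ 3518437208883) : 0 ≤ (A : ℝ) / 2 ^ (40 : ℕ) ∧ (A : ℝ) / 2 ^ (40 : ℕ) ≤ 16 / 5 := by
  refine ⟨by positivity, ?_⟩
  have h : (A : ℝ) ≤ 3518437208883 := by exact_mod_cast hA
  rw [div_le_iff₀ (by positivity)]
  norm_num
  linarith only [h]

private lemma err_step (S A m : ℕ) (hA : A ≤ 3518437208883) {b : ℝ}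
    (h0 : 0 ≤ Xex S ((A : ℝ) / 2 ^ (40 : ℕ)) m - Usp S A m) (h1 : Xex S ((A : ℝ) / 2 ^ (40 : ℕ)) m - Usp S A m ≤ b) :
    0 ≤ Xex S ((A : ℝ) / 2 ^ (40 : ℕ)) (m + 1) - Usp S A (m + 1) ∧
      Xex S ((A : ℝ) / 2 ^ (40 : ℕ)) (m + 1) - Usp S A (m + 1) ≤ b * (16 / 5) / (m + 1) + 1 := by
  obtain ⟨ha0, ha1⟩ := a_bounds hA
  obtain ⟨t, ht0, ht1, ht⟩ := Usp_step S A m _ rfl
  set a : ℝ := (A : ℝ) / 2 ^ (40 : ℕ) with ha
  have hb : 0 ≤ b := h0.trans h1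
  have e : Xex S a (m + 1) - Usp S A (m + 1) = (Xex S a m - Usp S A m) * a / (m + 1) + t := by
    rw [Xex_succ, ht]
    ring
  have hm : (0 : ℝ) < (m : ℝ) + 1 := by (clear * -; positivity)
  rw [e]
  refine ⟨by (clear * - h0 ht0; positivity), ?_⟩
  have h2 : (Xex S a m - Usp S A m) * a ≤ b * (16 / 5) := mul_le_mul h1 ha1 ha0 hb
  have h3 : (Xex S a m - Usp S A m) * a / (m + 1) ≤ b * (16 / 5) / (m + 1) :=
    div_le_div_of_nonneg_right h2 hm.le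
  linarith only [ht1, h3]

private lemma err (S A : ℕ) (hA : A ≤ 3518437208883) (m : ℕ) :
    0 ≤ Xex S ((A : ℝ) / 2 ^ (40 : ℕ)) m - Usp S A m ∧ Xex S ((A : ℝ) / 2 ^ (40 : ℕ)) m - Usp S A m ≤ 5 := by
  have e0 : Xex S ((A : ℝ) / 2 ^ (40 : ℕ)) 0 - Usp S A 0 = 0 := by
    unfold Xex Usp
    simp
  have e1 := err_step S A 0 hA (b := 0) (by rw [e0]) (by rw [e0])
  have e2 := err_step S A 1 hA (b := 1) e1.1 (by have := e1.2; norm_num at this ⊢; linarith only [this])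
  have e3 := err_step S A 2 hA (b := 13 / 5) e2.1 (by have := e2.2; norm_num at this ⊢; linarith only [this])
  have h4 : ∀ k : ℕ, 0 ≤ Xex S ((A : ℝ) / 2 ^ (40 : ℕ)) (k + 3) - Usp S A (k + 3) ∧
      Xex S ((A : ℝ) / 2 ^ (40 : ℕ)) (k + 3) - Usp S A (k + 3) ≤ 5 := by
    intro k
    induction k with
    | zero => exact ⟨e3.1, e3.2.trans (by norm_num)⟩
    | succ k ih =>
      have h := err_step S A (k + 3) hA ih.1 ih.2
      refine ⟨h.1, h.2.trans ?_⟩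
      have hk : (0 : ℝ) ≤ (k : ℝ) := Nat.cast_nonneg k
      push_cast
      have : (5 : ℝ) * (16 / 5) / ((k : ℝ) + 3 + 1) ≤ 4 := by
        rw [div_le_iff₀ (by (clear * -; positivity))]
        nlinarith
      linarith only [this]
  rcases m with _ | _ | _ | m
  · rw [e0]; norm_num
  · exact ⟨e1.1, e1.2.trans (by norm_num)⟩
  · exact ⟨e2.1, e2.2.trans (by norm_num)⟩
  · exact h4 m

private lemma sum4 {E : Type*} [AddCommMonoid E] (f : ℕ → E) (k : ℕ) : ∑ m ∈ range (4 * k), f m =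
    ∑ j ∈ range k, f (4 * j) + ∑ j ∈ range k, f (4 * j + 1) + ∑ j ∈ range k, f (4 * j + 2) +
      ∑ j ∈ range k, f (4 * j + 3) := by
  induction k with
  | zero => simp
  | succ k ih =>
    rw [show 4 * (k + 1) = 4 * k + 1 + 1 + 1 + 1 by ring]
    simp only [sum_range_succ]
    rw [ih]
    abel

/-- real part of the exact partial sum -/
private noncomputable def CX (S : ℕ) (a : ℝ) (r : ℕ) : ℝ := ∑ j ∈ range 16, Xex S a (4 * j + r)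

private lemma I_pow4 (j : ℕ) : Complex.I ^ (4 * j) = 1 := by rw [pow_mul, Complex.I_pow_four, one_pow]

private lemma taylor_eq (S : ℕ) (a : ℝ) :
    (2 : ℂ) ^ (S + 16) * ∑ m ∈ range 64, ((a : ℂ) * Complex.I) ^ m / (m.factorial : ℂ) =
      ((CX S a 0 - CX S a 2 : ℝ) : ℂ) + ((CX S a 1 - CX S a 3 : ℝ) : ℂ) * Complex.I := by
  have h64 : (64 : ℕ) = 4 * 16 := rfl
  rw [h64, sum4]
  unfold CX Xex
  push_cast
  simp only [mul_sum, sum_mul, mul_add, sub_mul, add_zero]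
  have h0 : ∀ j : ℕ, (2 : ℂ) ^ (S + 16) * (((a : ℂ) * Complex.I) ^ (4 * j) / ((4 * j).factorial : ℂ)) =
      (2 : ℂ) ^ (S + 16) * ((a : ℂ) ^ (4 * j) / ((4 * j).factorial : ℂ)) := by
    intro j
    rw [mul_pow, I_pow4, mul_one]
  have h1 : ∀ j : ℕ, (2 : ℂ) ^ (S + 16) * (((a : ℂ) * Complex.I) ^ (4 * j + 1) / ((4 * j + 1).factorial : ℂ)) =
      (2 : ℂ) ^ (S + 16) * ((a : ℂ) ^ (4 * j + 1) / ((4 * j + 1).factorial : ℂ)) * Complex.I := by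
    intro j
    rw [mul_pow, pow_succ Complex.I, I_pow4]
    ring
  have h2 : ∀ j : ℕ, (2 : ℂ) ^ (S + 16) * (((a : ℂ) * Complex.I) ^ (4 * j + 2) / ((4 * j + 2).factorial : ℂ)) =
      -((2 : ℂ) ^ (S + 16) * ((a : ℂ) ^ (4 * j + 2) / ((4 * j + 2).factorial : ℂ))) := by
    intro j
    rw [mul_pow, pow_add Complex.I, I_pow4, Complex.I_sq]
    ring
  have h3 : ∀ j : ℕ, (2 : ℂ) ^ (S + 16) * (((a : ℂ) * Complex.I) ^ (4 * j + 3) / ((4 * j + 3).factorial : ℂ)) =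
      -((2 : ℂ) ^ (S + 16) * ((a : ℂ) ^ (4 * j + 3) / ((4 * j + 3).factorial : ℂ)) * Complex.I) := by
    intro j
    rw [mul_pow, pow_add Complex.I, I_pow4, Complex.I_pow_three]
    ring
  rw [sum_congr rfl fun j _ => h0 j, sum_congr rfl fun j _ => h1 j, sum_congr rfl fun j _ => h2 j,
    sum_congr rfl fun j _ => h3 j, sum_neg_distrib, sum_neg_distrib]
  ring

/-- integer sums of the rounded terms -/
private def PU__fuEvQ (S A k r : ℕ) : ℕ := ∑ j ∈ range k, Usp S A (4 * j + r)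

private lemma PU_err (S A : ℕ) (hA : A ≤ 3518437208883) (r : ℕ) :
    0 ≤ CX S ((A : ℝ) / 2 ^ (40 : ℕ)) r - PU__fuEvQ S A 16 r ∧ CX S ((A : ℝ) / 2 ^ (40 : ℕ)) r - PU__fuEvQ S A 16 r ≤ 80 := by
  have e : CX S ((A : ℝ) / 2 ^ (40 : ℕ)) r - PU__fuEvQ S A 16 r =
      ∑ j ∈ range 16, (Xex S ((A : ℝ) / 2 ^ (40 : ℕ)) (4 * j + r) - Usp S A (4 * j + r)) := by
    unfold CX PU__fuEvQ
    rw [sum_sub_distrib]
    push_cast
    rfl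
  rw [e]
  constructor
  · exact sum_nonneg fun j _ => (err S A hA _).1
  · calc _ ≤ ∑ j ∈ range 16, (5 : ℝ) := sum_le_sum fun j _ => (err S A hA _).2
      _ = 80 := by norm_num

private lemma Qsp_eq (S A : ℕ) : Qsp S A = (((PU__fuEvQ S A 16 0 : ℤ) - PU__fuEvQ S A 16 2) / 2 ^ (16 : ℕ),
    ((PU__fuEvQ S A 16 1 : ℤ) - PU__fuEvQ S A 16 3) / 2 ^ (16 : ℕ)) := by
  unfold Qsp PU__fuEvQ
  push_cast
  rfl

private lemma floor16 (z : ℤ) : ∃ t : ℝ, 0 ≤ t ∧ t ≤ 1 ∧ ((z / 2 ^ (16 : ℕ) : ℤ) : ℝ) = (z : ℝ) / 2 ^ (16 : ℕ) - t := by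
  have h1 := Int.mul_ediv_add_emod z (2 ^ (16 : ℕ))
  have h2 := Int.emod_nonneg z (show (2 ^ (16 : ℕ) : ℤ) ≠ 0 by norm_num)
  have h3 := Int.emod_lt_of_pos z (show (0 : ℤ) < 2 ^ (16 : ℕ) by norm_num)
  have h1' : (2 : ℝ) ^ (16 : ℕ) * ((z / 2 ^ (16 : ℕ) : ℤ) : ℝ) + ((z % 2 ^ (16 : ℕ) : ℤ) : ℝ) = (z : ℝ) := by exact_mod_cast h1
  have h2' : (0 : ℝ) ≤ ((z % 2 ^ (16 : ℕ) : ℤ) : ℝ) := by exact_mod_cast h2
  have h3' : ((z % 2 ^ (16 : ℕ) : ℤ) : ℝ) ≤ 2 ^ (16 : ℕ) := by exact_mod_cast h3.le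
  refine ⟨((z % 2 ^ (16 : ℕ) : ℤ) : ℝ) / 2 ^ (16 : ℕ), by (clear * - h2; positivity), (div_le_one (by positivity)).2 h3', ?_⟩
  rw [← h1']
  field_simp
  ring

/-- one coordinate -/
private lemma coord (S A : ℕ) (hA : A ≤ 3518437208883) (r s : ℕ) :
    |((((PU__fuEvQ S A 16 r : ℤ) - PU__fuEvQ S A 16 s) / 2 ^ (16 : ℕ) : ℤ) : ℝ) -
      (CX S ((A : ℝ) / 2 ^ (40 : ℕ)) r - CX S ((A : ℝ) / 2 ^ (40 : ℕ)) s) / 2 ^ (16 : ℕ)| ≤ 1 + 80 / 2 ^ (16 : ℕ) := by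
  obtain ⟨t, ht0, ht1, ht⟩ := floor16 ((PU__fuEvQ S A 16 r : ℤ) - PU__fuEvQ S A 16 s)
  obtain ⟨r0, r1⟩ := PU_err S A hA r
  obtain ⟨s0, s1⟩ := PU_err S A hA s
  rw [ht]
  push_cast
  rw [abs_le]
  constructor
  · have : (((PU__fuEvQ S A 16 r : ℝ) - PU__fuEvQ S A 16 s) / 2 ^ (16 : ℕ) - t -
      (CX S ((A : ℝ) / 2 ^ (40 : ℕ)) r - CX S ((A : ℝ) / 2 ^ (40 : ℕ)) s) / 2 ^ (16 : ℕ)) =
      ((CX S ((A : ℝ) / 2 ^ (40 : ℕ)) s - PU__fuEvQ S A 16 s) - (CX S ((A : ℝ) / 2 ^ (40 : ℕ)) r - PU__fuEvQ S A 16 r)) / 2 ^ (16 : ℕ) - t := by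
      ring
    rw [this]
    have h : (-80 : ℝ) / 2 ^ (16 : ℕ) ≤ ((CX S ((A : ℝ) / 2 ^ (40 : ℕ)) s - PU__fuEvQ S A 16 s) -
      (CX S ((A : ℝ) / 2 ^ (40 : ℕ)) r - PU__fuEvQ S A 16 r)) / 2 ^ (16 : ℕ) :=
      div_le_div_of_nonneg_right (by linarith only [r1, s0]) (by positivity)
    have h' : (-80 : ℝ) / 2 ^ (16 : ℕ) = -(80 / 2 ^ (16 : ℕ)) := by ring
    linarith only [ht1, h]
  · have : (((PU__fuEvQ S A 16 r : ℝ) - PU__fuEvQ S A 16 s) / 2 ^ (16 : ℕ) - t -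
      (CX S ((A : ℝ) / 2 ^ (40 : ℕ)) r - CX S ((A : ℝ) / 2 ^ (40 : ℕ)) s) / 2 ^ (16 : ℕ)) =
      ((CX S ((A : ℝ) / 2 ^ (40 : ℕ)) s - PU__fuEvQ S A 16 s) - (CX S ((A : ℝ) / 2 ^ (40 : ℕ)) r - PU__fuEvQ S A 16 r)) / 2 ^ (16 : ℕ) - t := by
      ring
    rw [this]
    have h : ((CX S ((A : ℝ) / 2 ^ (40 : ℕ)) s - PU__fuEvQ S A 16 s) -
      (CX S ((A : ℝ) / 2 ^ (40 : ℕ)) r - PU__fuEvQ S A 16 r)) / 2 ^ (16 : ℕ) ≤ (80 : ℝ) / 2 ^ (16 : ℕ) :=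
      div_le_div_of_nonneg_right (by linarith only [r0, s1]) (by positivity)
    linarith only [ht0, h]

private lemma tail_num : (2 : ℝ) ^ (176 : ℕ) * ((16 / 5) ^ (64 : ℕ) / ((64).factorial : ℝ) * 2) ≤ 1 := by
  norm_num [Nat.factorial]

private lemma norm_pair (x y b : ℝ) (hx : |x| ≤ b) (hy : |y| ≤ b) :
    ‖(x : ℂ) + (y : ℂ) * Complex.I‖ ≤ 3 / 2 * b := by
  have hb : 0 ≤ b := (abs_nonneg x).trans hx
  have h1 : ‖(x : ℂ) + (y : ℂ) * Complex.I‖ ^ (2 : ℕ) ≤ (3 / 2 * b) ^ (2 : ℕ) := by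
    rw [← Complex.normSq_eq_norm_sq, Complex.normSq_add_mul_I]
    have h2 : x ^ (2 : ℕ) ≤ b ^ (2 : ℕ) := sq_le_sq' (abs_le.1 hx).1 (abs_le.1 hx).2
    have h3 : y ^ (2 : ℕ) ≤ b ^ (2 : ℕ) := sq_le_sq' (abs_le.1 hy).1 (abs_le.1 hy).2
    nlinarith [sq_nonneg b]
  exact le_of_sq_le_sq h1 (by positivity)

theorem Qsp_err (S A : ℕ) (hS : S ≤ 160) (hA : A ≤ 3518437208883) :
    ‖cpx (Qsp S A) / (((2 : ℤ) ^ S : ℤ) : ℂ) - qa ((A : ℝ) / 2 ^ (40 : ℕ))‖ ≤ 2 / (((2 : ℤ) ^ S : ℤ) : ℝ) := by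
  obtain ⟨ha0, ha1⟩ := a_bounds hA
  set a : ℝ := (A : ℝ) / 2 ^ (40 : ℕ) with ha
  have hD : (0 : ℝ) < (((2 : ℤ) ^ S : ℤ) : ℝ) := by positivity
  have hDr : (((2 : ℤ) ^ S : ℤ) : ℝ) = 2 ^ S := by push_cast; rfl
  have hDc : (((2 : ℤ) ^ S : ℤ) : ℂ) = 2 ^ S := by push_cast; rfl
  have hDn : ‖(((2 : ℤ) ^ S : ℤ) : ℂ)‖ = (((2 : ℤ) ^ S : ℤ) : ℝ) := by
    rw [hDc, hDr]
    simp
  have hDc0 : (((2 : ℤ) ^ S : ℤ) : ℂ) ≠ 0 := by
    rw [hDc]; exact pow_ne_zero _ two_ne_zero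
  rw [le_div_iff₀ hD, ← hDn, ← norm_mul, sub_mul, div_mul_cancel₀ _ hDc0]
  set T : ℂ := ∑ m ∈ range 64, ((a : ℂ) * Complex.I) ^ m / (m.factorial : ℂ) with hT
  -- the Taylor polynomial
  have hTay : ‖qa a - T‖ ≤ (16 / 5) ^ (64 : ℕ) / ((64).factorial : ℝ) * 2 := by
    have hn : ‖(a : ℂ) * Complex.I‖ = a := by
      rw [norm_mul, Complex.norm_I, mul_one, Complex.norm_real, Real.norm_of_nonneg ha0]
    have h := Complex.exp_bound' (x := (a : ℂ) * Complex.I) (n := 64) (by rw [hn]; norm_num; linarith only [ha1])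
    rw [hn] at h
    refine h.trans ?_
    have h5 : a ^ (64 : ℕ) ≤ (16 / 5) ^ (64 : ℕ) := pow_le_pow_left₀ ha0 ha1 64
    have h6 : (0 : ℝ) < ((64).factorial : ℝ) := by exact_mod_cast (64).factorial_pos
    exact mul_le_mul_of_nonneg_right (div_le_div_of_nonneg_right h5 h6.le) (by norm_num)
  have hTay2 : ‖(T - qa a) * (((2 : ℤ) ^ S : ℤ) : ℂ)‖ ≤ 1 / 2 ^ (16 : ℕ) := by
    rw [norm_mul, hDn, hDr, norm_sub_rev, le_div_iff₀ (by positivity)]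
    have h7 : (2 : ℝ) ^ S ≤ 2 ^ (160 : ℕ) := pow_le_pow_right₀ (by norm_num) hS
    calc ‖qa a - T‖ * 2 ^ S * 2 ^ (16 : ℕ) ≤ ((16 / 5) ^ (64 : ℕ) / ((64).factorial : ℝ) * 2) * 2 ^ (160 : ℕ) * 2 ^ (16 : ℕ) := by
          gcongr
      _ = (2 : ℝ) ^ (176 : ℕ) * ((16 / 5) ^ (64 : ℕ) / ((64).factorial : ℝ) * 2) := by ring
      _ ≤ 1 := tail_num
  -- the main part
  have hmain : cpx (Qsp S A) - T * (((2 : ℤ) ^ S : ℤ) : ℂ) =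
      ((((((PU__fuEvQ S A 16 0 : ℤ) - PU__fuEvQ S A 16 2) / 2 ^ (16 : ℕ) : ℤ) : ℝ) - (CX S a 0 - CX S a 2) / 2 ^ (16 : ℕ) : ℝ) : ℂ) +
      ((((((PU__fuEvQ S A 16 1 : ℤ) - PU__fuEvQ S A 16 3) / 2 ^ (16 : ℕ) : ℤ) : ℝ) - (CX S a 1 - CX S a 3) / 2 ^ (16 : ℕ) : ℝ) : ℂ) *
        Complex.I := by
    have h8 : T * (((2 : ℤ) ^ S : ℤ) : ℂ) = (2 : ℂ) ^ (S + 16) * T / 2 ^ (16 : ℕ) := by
      rw [hDc, pow_add]
      field_simp
    rw [h8, hT, taylor_eq, Qsp_eq]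
    unfold cpx
    push_cast
    ring
  have hn1 : ‖cpx (Qsp S A) - T * (((2 : ℤ) ^ S : ℤ) : ℂ)‖ ≤ 3 / 2 * (1 + 80 / 2 ^ (16 : ℕ)) := by
    rw [hmain]
    exact norm_pair _ _ _ (coord S A hA 0 2) (coord S A hA 1 3)
  have e : cpx (Qsp S A) - qa a * (((2 : ℤ) ^ S : ℤ) : ℂ) =
      (cpx (Qsp S A) - T * (((2 : ℤ) ^ S : ℤ) : ℂ)) + (T - qa a) * (((2 : ℤ) ^ S : ℤ) : ℂ) := by ring
  rw [e]
  refine (norm_add_le _ _).trans ((add_le_add hn1 hTay2).trans ?_)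
  norm_num

/-! ### The packed residue -/

private lemma ustep_eq (S A m : ℕ) : ustep A m (Usp S A m) = Usp S A (m + 1) := by
  show Nat.div (Nat.shiftRight (Nat.mul (Usp S A m) A) 40) (Nat.succ m) = Usp S A m * A / 2 ^ (40 : ℕ) / (m + 1)
  have h : Nat.shiftRight (Nat.mul (Usp S A m) A) 40 = Usp S A m * A / 2 ^ (40 : ℕ) :=
    Nat.shiftRight_eq_div_pow _ _
  rw [h]
  rfl

/-- the final combination -/
private def fin4 (S Y MM p0 p1 p2 p3 : ℕ) : ℕ :=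
  Nat.add (Nat.add (Nat.shiftRight (Nat.sub (Nat.add p0 (Nat.pow 2 (Nat.add S 19))) p2) 16)
    (Nat.mul (Nat.shiftRight (Nat.sub (Nat.add p1 (Nat.pow 2 (Nat.add S 19))) p3) 16) Y))
    (Nat.sub MM (Nat.mul (Nat.pow 2 (Nat.add S 3)) (Nat.succ Y)))

private lemma qloop_zero (S Y MM A m u p0 p1 p2 p3 : ℕ) :
    qloop S Y MM A 0 m u p0 p1 p2 p3 = fin4 S Y MM p0 p1 p2 p3 := rfl

private lemma qloop_succ (S Y MM A k m u p0 p1 p2 p3 : ℕ) :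
    qloop S Y MM A (k + 1) m u p0 p1 p2 p3 =
      qloop S Y MM A k (m + 4) (ustep A (m + 3) (ustep A (m + 2) (ustep A (m + 1) (ustep A m u))))
        (p0 + u) (p1 + ustep A m u) (p2 + ustep A (m + 1) (ustep A m u))
        (p3 + ustep A (m + 2) (ustep A (m + 1) (ustep A m u))) := rfl

private lemma PU_succ (S A k r : ℕ) : PU__fuEvQ S A (k + 1) r = PU__fuEvQ S A k r + Usp S A (4 * k + r) := by
  unfold PU__fuEvQ
  rw [sum_range_succ]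

private lemma qloop_eq (S Y MM A k : ℕ) : ∀ i : ℕ,
    qloop S Y MM A k (4 * i) (Usp S A (4 * i)) (PU__fuEvQ S A i 0) (PU__fuEvQ S A i 1) (PU__fuEvQ S A i 2) (PU__fuEvQ S A i 3) =
      fin4 S Y MM (PU__fuEvQ S A (i + k) 0) (PU__fuEvQ S A (i + k) 1) (PU__fuEvQ S A (i + k) 2) (PU__fuEvQ S A (i + k) 3) := by
  induction k with
  | zero => intro i; exact qloop_zero _ _ _ _ _ _ _ _ _ _
  | succ k ih =>
    intro i
    rw [qloop_succ, ustep_eq, ustep_eq, ustep_eq, ustep_eq]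
    have h := ih (i + 1)
    rw [PU_succ, PU_succ, PU_succ, PU_succ] at h
    rw [show i + (k + 1) = i + 1 + k by ring, ← h]
    rfl

private lemma Usp_le (S A : ℕ) (hA : A ≤ 3518437208883) (m : ℕ) :
    (Usp S A m : ℝ) ≤ 2 ^ (S + 16) * ((16 / 5) ^ m / (m.factorial : ℝ)) := by
  obtain ⟨ha0, ha1⟩ := a_bounds hA
  have h := (err S A hA m).1
  have h1 : Xex S ((A : ℝ) / 2 ^ (40 : ℕ)) m ≤ 2 ^ (S + 16) * ((16 / 5) ^ m / (m.factorial : ℝ)) := by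
    unfold Xex
    gcongr
  linarith only [h, h1]

private lemma PU_le (S A : ℕ) (hA : A ≤ 3518437208883) (r : ℕ)
    (hr : ∑ j ∈ range 16, ((16 / 5 : ℝ) ^ (4 * j + r) / ((4 * j + r).factorial : ℝ)) ≤ 8) :
    PU__fuEvQ S A 16 r ≤ 2 ^ (S + 19) := by
  have h : (PU__fuEvQ S A 16 r : ℝ) ≤ 2 ^ (S + 19) := by
    calc (PU__fuEvQ S A 16 r : ℝ) = ∑ j ∈ range 16, (Usp S A (4 * j + r) : ℝ) := by
          unfold PU__fuEvQ
          push_cast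
          rfl
      _ ≤ ∑ j ∈ range 16, 2 ^ (S + 16) * ((16 / 5 : ℝ) ^ (4 * j + r) / ((4 * j + r).factorial : ℝ)) :=
          sum_le_sum fun j _ => Usp_le S A hA _
      _ = 2 ^ (S + 16) * ∑ j ∈ range 16, ((16 / 5 : ℝ) ^ (4 * j + r) / ((4 * j + r).factorial : ℝ)) := by
          rw [mul_sum]
      _ ≤ 2 ^ (S + 16) * 8 := mul_le_mul_of_nonneg_left hr (by positivity)
      _ = 2 ^ (S + 19) := by rw [show S + 19 = S + 16 + 3 by ring, pow_add (2 : ℝ) (S + 16) 3]; norm_num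
  exact_mod_cast h

private lemma num2 : ∑ j ∈ range 16, ((16 / 5 : ℝ) ^ (4 * j + 2) / ((4 * j + 2).factorial : ℝ)) ≤ 8 := by
  norm_num [sum_range_succ, Nat.factorial]

private lemma num3 : ∑ j ∈ range 16, ((16 / 5 : ℝ) ^ (4 * j + 3) / ((4 * j + 3).factorial : ℝ)) ≤ 8 := by
  norm_num [sum_range_succ, Nat.factorial]

/-- one coordinate of the packed value -/
private lemma coordN (S p q : ℕ) (h : q ≤ 2 ^ (S + 19)) :
    ((Nat.shiftRight (Nat.sub (Nat.add p (Nat.pow 2 (Nat.add S 19))) q) 16 : ℕ) : ℤ) =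
      ((p : ℤ) - q) / 2 ^ (16 : ℕ) + 2 ^ (S + 3) := by
  have h1 : Nat.shiftRight (Nat.sub (Nat.add p (Nat.pow 2 (Nat.add S 19))) q) 16 =
      (p + 2 ^ (S + 19) - q) / 2 ^ (16 : ℕ) := Nat.shiftRight_eq_div_pow _ _
  rw [h1]
  have h2 : q ≤ p + 2 ^ (S + 19) := h.trans (Nat.le_add_left _ _)
  rw [Int.natCast_div, Nat.cast_sub h2]
  push_cast
  have h3 : (p : ℤ) + 2 ^ (S + 19) - q = ((p : ℤ) - q) + 2 ^ (S + 3) * 65536 := by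
    rw [show S + 19 = S + 3 + 16 by ring, pow_add (2 : ℤ) (S + 3) 16]
    ring
  rw [h3, Int.add_mul_ediv_right _ _ (by norm_num)]

theorem qN_res (K : ClsI) (hy : K.S + 24 ≤ K.y) (A : ℕ) (hA : A ≤ 3518437208883) : Res K.y (qEv K A) (Qsp K.S A) := by
  have h1 : qEv K A = fin4 K.S K.Y K.MM (PU__fuEvQ K.S A 16 0) (PU__fuEvQ K.S A 16 1) (PU__fuEvQ K.S A 16 2) (PU__fuEvQ K.S A 16 3) :=
    qloop_eq K.S K.Y K.MM A 16 0
  have hY : K.Y = 2 ^ K.y := rfl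
  have hMM : K.MM = 2 ^ (2 * K.y) + 1 := rfl
  have hle : 2 ^ (K.S + 3) * (2 ^ K.y + 1) ≤ 2 ^ (2 * K.y) + 1 := by
    have a1 : 2 ^ (K.S + 3) * 2 ≤ 2 ^ K.y := by
      rw [← pow_succ]
      exact Nat.pow_le_pow_right (by norm_num) (by omega)
    have a2 : 2 ^ (K.S + 3) * (2 ^ K.y + 1) ≤ 2 ^ (K.S + 3) * (2 * 2 ^ K.y) :=
      Nat.mul_le_mul_left _ (by have := Nat.one_le_two_pow (n := K.y); omega)
    calc 2 ^ (K.S + 3) * (2 ^ K.y + 1) ≤ 2 ^ (K.S + 3) * (2 * 2 ^ K.y) := a2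
      _ = 2 ^ (K.S + 3) * 2 * 2 ^ K.y := by ring
      _ ≤ 2 ^ K.y * 2 ^ K.y := Nat.mul_le_mul_right _ a1
      _ = 2 ^ (2 * K.y) := by rw [two_mul, pow_add]
      _ ≤ 2 ^ (2 * K.y) + 1 := Nat.le_succ _
  have c0 := coordN K.S (PU__fuEvQ K.S A 16 0) (PU__fuEvQ K.S A 16 2) (PU_le K.S A hA 2 num2)
  have c1 := coordN K.S (PU__fuEvQ K.S A 16 1) (PU__fuEvQ K.S A 16 3) (PU_le K.S A hA 3 num3)
  have h2 : (qEv K A : ℤ) = (Qsp K.S A).1 + (Qsp K.S A).2 * 2 ^ K.y + ((2 ^ K.y) ^ (2 : ℕ) + 1) := by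
    rw [h1, Qsp_eq]
    unfold fin4
    have h3 : ((Nat.sub K.MM (Nat.mul (Nat.pow 2 (Nat.add K.S 3)) (Nat.succ K.Y)) : ℕ) : ℤ) =
        (2 ^ (2 * K.y) + 1) - 2 ^ (K.S + 3) * (2 ^ K.y + 1) := by
      have h4 : Nat.sub K.MM (Nat.mul (Nat.pow 2 (Nat.add K.S 3)) (Nat.succ K.Y)) =
          2 ^ (2 * K.y) + 1 - 2 ^ (K.S + 3) * (2 ^ K.y + 1) := rfl
      rw [h4, Nat.cast_sub hle]
      push_cast
      ring
    have h5 : ((Nat.add (Nat.add (Nat.shiftRight (Nat.sub (Nat.add (PU__fuEvQ K.S A 16 0) (Nat.pow 2 (Nat.add K.S 19)))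
        (PU__fuEvQ K.S A 16 2)) 16) (Nat.mul (Nat.shiftRight (Nat.sub (Nat.add (PU__fuEvQ K.S A 16 1)
        (Nat.pow 2 (Nat.add K.S 19))) (PU__fuEvQ K.S A 16 3)) 16) K.Y))
        (Nat.sub K.MM (Nat.mul (Nat.pow 2 (Nat.add K.S 3)) (Nat.succ K.Y))) : ℕ) : ℤ) =
        ((Nat.shiftRight (Nat.sub (Nat.add (PU__fuEvQ K.S A 16 0) (Nat.pow 2 (Nat.add K.S 19)))
        (PU__fuEvQ K.S A 16 2)) 16 : ℕ) : ℤ) + ((Nat.shiftRight (Nat.sub (Nat.add (PU__fuEvQ K.S A 16 1)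
        (Nat.pow 2 (Nat.add K.S 19))) (PU__fuEvQ K.S A 16 3)) 16 : ℕ) : ℤ) * 2 ^ K.y +
        ((Nat.sub K.MM (Nat.mul (Nat.pow 2 (Nat.add K.S 3)) (Nat.succ K.Y)) : ℕ) : ℤ) := by
      show (((_ + _ * K.Y) + _ : ℕ) : ℤ) = _
      rw [hY]
      push_cast
      rfl
    rw [h5, h3, c0, c1]
    ring
  unfold Res
  rw [h2]
  exact ⟨1, by ring⟩

end SokamFU

end

/-! ### Lib_MP_af4de1_fu.EvJ -/

section
/-!
# The tube test implies the specification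
-/

set_option autoImplicit false

namespace SokamFU

open Finset

theorem pk_res {y sh : ℕ} {cx cy : ℤ} (hx : (-cx).toNat * sh ≤ (2 ^ y) ^ (2 : ℕ) + 1) (hy : (-cy).toNat * sh ≤ (2 ^ y) ^ (2 : ℕ) + 1) :
    Res y (pk ((2 ^ y) ^ (2 : ℕ) + 1) (2 ^ y) sh cx cy) (cx * sh, cy * sh) := by
  have h : ∀ x : ℤ, (-x).toNat * sh ≤ (2 ^ y) ^ (2 : ℕ) + 1 →
      ((x.toNat * sh + ((2 ^ y) ^ (2 : ℕ) + 1 - (-x).toNat * sh) : ℕ) : ℤ) = x * sh + ((2 ^ y) ^ (2 : ℕ) + 1) := by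
    intro x hx
    rw [Nat.cast_add, Nat.cast_sub hx]
    push_cast
    have h1 : x = (x.toNat : ℤ) - ((-x).toNat : ℤ) := by omega
    calc (x.toNat : ℤ) * sh + ((2 ^ y) ^ (2 : ℕ) + 1 - ((-x).toNat : ℤ) * sh) =
        ((x.toNat : ℤ) - ((-x).toNat : ℤ)) * sh + ((2 ^ y) ^ (2 : ℕ) + 1) := by ring
      _ = _ := by rw [← h1]
  unfold Res pk
  refine ⟨1 + 2 ^ y, ?_⟩
  rw [Nat.cast_add, Nat.cast_mul, h cx hx, h cy hy]
  push_cast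
  ring

/-- lane as an integer -/
theorem dg_re {K : ClsI} {c q : ℤ × ℤ} (h : OkM K c q) (p : ℕ) (hp : p ≤ 2 * K.M) :
    ((dg K c q (2 * p) : ℕ) : ℤ) - ((2 ^ (K.y - 1) : ℕ) : ℤ) = Mre (2 ^ K.S) c q K.n0 K.N p := by
  have h3 := (abs_lt.1 (h.Mr p hp)).1
  unfold dg
  rw [if_pos (by omega), show 2 * p / 2 = p by omega, Int.toNat_of_nonneg (by linarith only [h3])]
  push_cast
  ring

theorem dg_im {K : ClsI} {c q : ℤ × ℤ} (h : OkM K c q) (p : ℕ) (hp : p ≤ 2 * K.M) :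
    ((dg K c q (2 * p + 1) : ℕ) : ℤ) - ((2 ^ (K.y - 1) : ℕ) : ℤ) = Mim (2 ^ K.S) c q K.n0 K.N p := by
  have h3 := (abs_lt.1 (h.Mi p hp)).1
  unfold dg
  rw [if_neg (by omega), show (2 * p + 1) / 2 = p by omega, Int.toNat_of_nonneg (by linarith only [h3])]
  push_cast
  ring

/-- norm bound of the moments -/
def gm (K : ClsI) (c q : ℤ × ℤ) (p : ℕ) : ℕ :=
  nU (Mre (2 ^ K.S) c q K.n0 K.N p).natAbs (Mim (2 ^ K.S) c q K.n0 K.N p).natAbs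

theorem sum_Icc_one (f : ℕ → ℝ) (n : ℕ) : ∑ p ∈ Icc 1 n, f p = ∑ j ∈ range n, f (j + 1) := by
  have h : Icc 1 n = Ico 1 (n + 1) := by ext x; simp only [Finset.mem_Icc, Finset.mem_Ico]; omega
  rw [h, Finset.sum_Ico_eq_sum_range]
  simp only [Nat.add_sub_cancel, add_comm 1]

theorem sum_Icc_two (f : ℕ → ℝ) (hf : ∀ p, 0 ≤ f p) (n : ℕ) : ∑ p ∈ Icc 3 n, f p ≤ ∑ j ∈ range n, f (j + 2) := by
  have h : ∑ j ∈ range n, f (j + 2) = ∑ p ∈ Ico 2 (n + 2), f p := by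
    rw [Finset.sum_Ico_eq_sum_range]
    simp only [Nat.add_sub_cancel, add_comm 2]
  rw [h]
  refine Finset.sum_le_sum_of_subset_of_nonneg ?_ fun i _ _ => hf i
  intro x hx
  simp only [Finset.mem_Icc] at hx
  simp only [Finset.mem_Ico]
  omega

/-- evaluation of the weighted sums -/
theorem acc_div (k u : ℕ) (g : ℕ → ℕ) (l : List ℕ) :
    ((acc (2 ^ u) g l 2 0 : ℕ) : ℝ) / 2 ^ (k + u * l.length) =
      ∑ j ∈ range l.length, ((l.getD j 0 : ℕ) : ℝ) / 2 ^ (k + u * (j + 1)) * (g (j + 2) : ℝ) := by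
  rw [acc_eq, zero_mul, zero_add, Nat.cast_sum, Finset.sum_div]
  refine Finset.sum_congr rfl fun j hj => ?_
  have hj' := Finset.mem_range.1 hj
  have e1 : k + u * l.length = (k + u * (j + 1)) + u * (l.length - 1 - j) := by
    have : l.length = (j + 1) + (l.length - 1 - j) := by omega
    conv_lhs => rw [this]
    ring
  rw [e1, pow_add, add_comm 2 j]
  push_cast
  have h1 : (0 : ℝ) < 2 ^ (k + u * (j + 1)) := by positivity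
  have h2 : (0 : ℝ) < 2 ^ (u * (l.length - 1 - j)) := by positivity
  field_simp

theorem Mom_le (K : ClsI) (c q : ℤ × ℤ) (p : ℕ) :
    64 * ‖Mom (2 ^ K.S) c q K.n0 K.N p‖ ≤ gm K c q p := nU_le _

theorem t1_sum (K : ClsI) (c q : ℤ × ℤ) (hlen : K.wl.length = 2 * K.M - 2) :
    ∑ p ∈ Icc 1 (2 * K.M - 2), K.toCls.w2 p * ‖Mom (2 ^ K.S) c q K.n0 K.N (p + 1)‖ ≤
      ((acc (2 ^ K.u) (gm K c q) (K.wl.map Prod.fst) 2 0 : ℕ) : ℝ) / 2 ^ (6 + (K.k + K.u * (2 * K.M - 2))) := by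
  have h1 := acc_div K.k K.u (gm K c q) (K.wl.map Prod.fst)
  rw [List.length_map, hlen] at h1
  rw [pow_add, ← div_div, div_right_comm, h1, sum_Icc_one, Finset.sum_div]
  refine Finset.sum_le_sum fun j hj => ?_
  have e1 : K.toCls.w2 (j + 1) = ((((K.wl.map Prod.fst).getD j 0 : ℕ)) : ℝ) / 2 ^ (K.k + K.u * (j + 1)) := by
    unfold ClsI.toCls
    simp only [Nat.add_sub_cancel]
    congr 2
    exact (List.getD_map (f := Prod.fst) (l := K.wl) (d := ((0, 0) : ℕ × ℕ)) (n := j)).symm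
  rw [e1]
  have h2 := Mom_le K c q (j + 2)
  have h3 : (0 : ℝ) ≤ ((((K.wl.map Prod.fst).getD j 0 : ℕ)) : ℝ) / 2 ^ (K.k + K.u * (j + 1)) := by positivity
  rw [show j + 1 + 1 = j + 2 by ring, mul_div_assoc]
  refine mul_le_mul_of_nonneg_left ?_ h3
  rw [le_div_iff₀ (by positivity)]
  linarith only [h2]

theorem t2_sum (K : ClsI) (c q : ℤ × ℤ) (hlen : K.wl.length = 2 * K.M - 2) :
    ∑ p ∈ Icc 3 (2 * K.M - 2), K.toCls.w0 p * ‖Mom (2 ^ K.S) c q K.n0 K.N p‖ ≤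
      ((acc (2 ^ K.u) (gm K c q) (K.wl.map Prod.snd) 2 0 : ℕ) : ℝ) / 2 ^ (6 + (K.k + K.u * (2 * K.M - 2) + K.u)) := by
  have h1 := acc_div (K.k + K.u) K.u (gm K c q) (K.wl.map Prod.snd)
  rw [List.length_map, hlen] at h1
  have e0 : K.k + K.u * (2 * K.M - 2) + K.u = K.k + K.u + K.u * (2 * K.M - 2) := by ring
  rw [e0, pow_add, ← div_div, div_right_comm, h1]
  refine (sum_Icc_two (fun p => K.toCls.w0 p * ‖Mom (2 ^ K.S) c q K.n0 K.N p‖) ?_ _).trans ?_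
  · intro p
    have : 0 ≤ K.toCls.w0 p := by unfold ClsI.toCls; positivity
    positivity
  rw [Finset.sum_div]
  refine Finset.sum_le_sum fun j hj => ?_
  have e1 : K.toCls.w0 (j + 2) = ((((K.wl.map Prod.snd).getD j 0 : ℕ)) : ℝ) / 2 ^ (K.k + K.u + K.u * (j + 1)) := by
    unfold ClsI.toCls
    simp only [Nat.add_sub_cancel]
    have e2 : K.k + K.u * (j + 2) = K.k + K.u + K.u * (j + 1) := by ring
    rw [e2]
    congr 2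
    exact (List.getD_map (f := Prod.snd) (l := K.wl) (d := ((0, 0) : ℕ × ℕ)) (n := j)).symm
  rw [e1]
  have h2 := Mom_le K c q (j + 2)
  have h3 : (0 : ℝ) ≤ ((((K.wl.map Prod.snd).getD j 0 : ℕ)) : ℝ) / 2 ^ (K.k + K.u + K.u * (j + 1)) := by positivity
  rw [mul_div_assoc]
  refine mul_le_mul_of_nonneg_left ?_ h3
  rw [le_div_iff₀ (by positivity)]
  linarith only [h2]

theorem absd_lane {K : ClsI} {c q : ℤ × ℤ} (h : OkM K c q) (p : ℕ) (hp : p ≤ 2 * K.M) :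
    nU (absd (2 ^ (K.y - 1)) (dg K c q (2 * p))) (absd (2 ^ (K.y - 1)) (dg K c q (2 * p + 1))) = gm K c q p := by
  rw [absd_re h p hp, absd_im h p hp, gm]

theorem acc_congr (uu : ℕ) (g g' : ℕ → ℕ) (l : List ℕ) :
    ∀ i a, (∀ j < l.length, g (i + j) = g' (i + j)) → acc uu g l i a = acc uu g' l i a := by
  induction l with
  | nil => intro i a _; rfl
  | cons w l ih =>
    intro i a h
    rw [acc, acc, ← ih]
    · have := h 0 (by simp)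
      rw [add_zero] at this
      rw [this]
    · intro j hj
      have := h (j + 1) (by simpa using hj)
      rwa [show i + (j + 1) = i + 1 + j by ring] at this

/-- the final check with the exact moments -/
structure Fin' (K : ClsI) (c q : ℤ × ℤ) (d e' : ℕ) (nx ny : ℤ) : Prop where
  L1 : 1 ≤ nL (Mre (2 ^ K.S) c q K.n0 K.N 1).natAbs (Mim (2 ^ K.S) c q K.n0 K.N 1).natAbs
  t1 : 2 ^ (42 : ℕ) * acc (2 ^ K.u) (gm K c q) (K.wl.map Prod.fst) 2 0 + 2 ^ (48 + (K.k + K.u * (2 * K.M - 2))) * K.e1 ≤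
    2 ^ (K.k + K.u * (2 * K.M - 2)) * K.th * nL (Mre (2 ^ K.S) c q K.n0 K.N 1).natAbs (Mim (2 ^ K.S) c q K.n0 K.N 1).natAbs
  t2 : gm K c q 0 * 2 ^ (81 + (K.k + K.u * (2 * K.M - 2)) + K.u) +
      d * nU (2 * (Mre (2 ^ K.S) c q K.n0 K.N 1 * nx - Mim (2 ^ K.S) c q K.n0 K.N 1 * ny) -
          2 ^ (40 : ℕ) * Mim (2 ^ K.S) c q K.n0 K.N 2).natAbs
        (2 * (Mre (2 ^ K.S) c q K.n0 K.N 1 * ny + Mim (2 ^ K.S) c q K.n0 K.N 1 * nx) +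
          2 ^ (40 : ℕ) * Mre (2 ^ K.S) c q K.n0 K.N 2).natAbs * 2 ^ ((K.k + K.u * (2 * K.M - 2)) + K.u) +
      K.rho0 ^ (2 : ℕ) * gm K c q 2 * 2 ^ ((K.k + K.u * (2 * K.M - 2)) + K.u) +
      acc (2 ^ K.u) (gm K c q) (K.wl.map Prod.snd) 2 0 * 2 ^ (81 : ℕ) + K.e0 * 2 ^ (87 + (K.k + K.u * (2 * K.M - 2)) + K.u) ≤
    (2 ^ (40 : ℕ) - K.th) * e' * nL (Mre (2 ^ K.S) c q K.n0 K.N 1).natAbs (Mim (2 ^ K.S) c q K.n0 K.N 1).natAbs *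
      2 ^ ((K.k + K.u * (2 * K.M - 2)) + K.u - 1)

theorem fin_of_check {K : ClsI} (hK : OkC K) {c q : ℤ × ℤ} (h : OkM K c q) {qn cn : ℕ} (hq : Res K.y qn q)
    (hc : Res K.y cn c) {d e' : ℕ} {nx ny : ℤ}
    (hf : wloop K.y (2 * K.y) K.Y (2 ^ (K.y - 1)) (2 ^ K.u) K.wl (moms K qn cn >>> (4 * K.y)) 0 0
      (fun a b => finalCheck K d e' nx ny (2 ^ (K.y - 1)) (moms K qn cn % K.Y) (moms K qn cn >>> K.y % K.Y)
      (moms K qn cn >>> (2 * K.y) % K.Y) (moms K qn cn >>> (3 * K.y) % K.Y) (moms K qn cn >>> (4 * K.y) % K.Y)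
        (moms K qn cn >>> (5 * K.y) % K.Y) a b) = true) : Fin' K c q d e' nx ny := by
  have hM := hK.M2
  have eY : K.Y = 2 ^ K.y := rfl
  have hd := fun k (hk : k < 2 * (2 * K.M + 1)) => moms_digit h hq hc k hk
  have hd0 := hd 0 (by omega)
  rw [zero_mul, Nat.shiftRight_zero] at hd0
  have hd1 := hd 1 (by omega)
  rw [one_mul] at hd1
  have hd2 := hd 2 (by omega)
  have hd3 := hd 3 (by omega)
  have hd4 := hd 4 (by omega)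
  have hd5 := hd 5 (by omega)
  rw [eY, hd0, hd1, hd2, hd3, hd4, hd5, show 4 * K.y = 2 * (2 * K.y) by ring, wloop_eq] at hf
  have hg : ∀ p ≤ 2 * K.M, nU (absd (2 ^ (K.y - 1)) (moms K qn cn >>> (2 * p * K.y) % 2 ^ K.y))
      (absd (2 ^ (K.y - 1)) (moms K qn cn >>> ((2 * p + 1) * K.y) % 2 ^ K.y)) = gm K c q p := by
    intro p hp
    rw [hd (2 * p) (by omega), hd (2 * p + 1) (by omega), absd_lane h p hp]
  have ha1 := acc_congr (2 ^ K.u) (fun i => nU (absd (2 ^ (K.y - 1)) (moms K qn cn >>> (2 * i * K.y) % 2 ^ K.y))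
      (absd (2 ^ (K.y - 1)) (moms K qn cn >>> ((2 * i + 1) * K.y) % 2 ^ K.y))) (gm K c q) (K.wl.map Prod.fst) 2 0
      (fun j hj => hg _ (by rw [List.length_map, hK.len] at hj; omega))
  have ha2 := acc_congr (2 ^ K.u) (fun i => nU (absd (2 ^ (K.y - 1)) (moms K qn cn >>> (2 * i * K.y) % 2 ^ K.y))
      (absd (2 ^ (K.y - 1)) (moms K qn cn >>> ((2 * i + 1) * K.y) % 2 ^ K.y))) (gm K c q) (K.wl.map Prod.snd) 2 0
      (fun j hj => hg _ (by rw [List.length_map, hK.len] at hj; omega))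
  rw [ha1, ha2] at hf
  unfold finalCheck at hf
  simp only [Bool.and_eq_true, Nat.add_eq, Nat.mul_eq, Nat.sub_eq] at hf
  obtain ⟨⟨h1, h2⟩, h3⟩ := hf
  have hr1 := dg_re h 1 (by omega)
  have hi1 := dg_im h 1 (by omega)
  have hr2 := dg_re h 2 (by omega)
  have hi2 := dg_im h 2 (by omega)
  have ar1 := absd_re h 1 (by omega)
  have ai1 := absd_im h 1 (by omega)
  have g0 := absd_lane h 0 (by omega)
  have g2 := absd_lane h 2 (by omega)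
  norm_num only at hr1 hi1 hr2 hi2 ar1 ai1 g0 g2
  rw [ar1, ai1] at h1 h2 h3
  rw [hr1, hi1, hr2, hi2, g0, g2] at h3
  exact ⟨Nat.le_of_ble_eq_true h1, Nat.le_of_ble_eq_true h2, Nat.le_of_ble_eq_true h3⟩

end SokamFU

end

/-! ### Lib_MP_af4de1_fu.EvK -/

section
/-!
# The tube test implies the specification (final form)
-/

set_option autoImplicit false

namespace SokamFU

open Finset

/-- `ν` of a tube with the data `lx, ly` of `lam` (scale `2 ^ 40`) -/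
noncomputable def nuI (n0 : ℕ) (lx ly : ℤ) : ℂ := cpx (lx, ly + (2 * n0 - 1) * 2 ^ (39 : ℕ)) / 2 ^ (40 : ℕ)

theorem spec_of_fin {K : ClsI} (hK : OkC K) {c q : ℤ × ℤ} {d e' e : ℕ} {nx ny : ℤ}
    (hF : Fin' K c q d e' nx ny) (hc : ‖cpx c‖ ≤ K.R * 2 ^ K.S) (hc0 : cpx c ≠ 0)
    (hd1 : 1 ≤ d) (hd2 : d ≤ K.del) (he1 : 1 ≤ e') (he2 : e' < e) (he3 : e ≤ K.rho2)
    (hn2 : (nx * nx + ny * ny).toNat * (d * d) ≤ ((K.rho2 - e) * 2 ^ (40 : ℕ)) ^ (2 : ℕ))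
    (hn0 : (nx * nx + ny * ny).toNat * (d * d) ≤ (K.rho0 * 2 ^ (40 : ℕ)) ^ (2 : ℕ)) :
    Spec K.toCls q c (cpx (nx, ny) / 2 ^ (40 : ℕ)) ((d : ℝ) / 2 ^ (40 : ℕ)) ((e' : ℝ) / 2 ^ (40 : ℕ)) ((e : ℝ) / 2 ^ (40 : ℕ)) := by
  have h40 : (0 : ℝ) < 2 ^ (40 : ℕ) := by norm_num
  have h40c : ‖(2 : ℂ) ^ (40 : ℕ)‖ = 2 ^ (40 : ℕ) := by norm_num
  have hn : ‖cpx (nx, ny)‖ ^ (2 : ℕ) = (((nx * nx + ny * ny).toNat : ℕ) : ℝ) := by
    rw [cpx_norm_sq]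
    have h0 : 0 ≤ nx * nx + ny * ny := add_nonneg (mul_self_nonneg _) (mul_self_nonneg _)
    have : ((((nx * nx + ny * ny).toNat : ℕ) : ℤ) : ℝ) = ((nx * nx + ny * ny : ℤ) : ℝ) := by
      rw [Int.toNat_of_nonneg h0]
    push_cast at this
    rw [this]
    ring
  have hnd : ∀ r : ℕ, (nx * nx + ny * ny).toNat * (d * d) ≤ (r * 2 ^ (40 : ℕ)) ^ (2 : ℕ) →
      ‖cpx (nx, ny) / 2 ^ (40 : ℕ)‖ * ((d : ℝ) / 2 ^ (40 : ℕ)) ≤ (r : ℝ) / 2 ^ (40 : ℕ) := by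
    intro r hr
    have hr' : (((nx * nx + ny * ny).toNat : ℕ) : ℝ) * ((d : ℝ) * d) ≤ ((r : ℝ) * 2 ^ (40 : ℕ)) ^ (2 : ℕ) := by exact_mod_cast hr
    rw [← hn] at hr'
    have h1 : ‖cpx (nx, ny)‖ * (d : ℝ) ≤ (r : ℝ) * 2 ^ (40 : ℕ) := by
      refine le_of_sq_le_sq ?_ (by positivity)
      linarith only [hr']
    rw [norm_div, h40c, div_mul_div_comm, div_le_div_iff₀ (by positivity) h40]
    linarith only [h1]
  have eD : K.toCls.D = 2 ^ K.S := rfl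
  have e1 : (2 : ℝ) ^ (48 : ℕ) = 2 ^ (40 : ℕ) * 256 := by norm_num
  have L1 := nL_le (Mre (2 ^ K.S) c q K.n0 K.N 1, Mim (2 ^ K.S) c q K.n0 K.N 1)
  have eM1 : cpx (Mre (2 ^ K.S) c q K.n0 K.N 1, Mim (2 ^ K.S) c q K.n0 K.N 1) = Mom (2 ^ K.S) c q K.n0 K.N 1 := rfl
  rw [eM1] at L1
  simp only at L1
  have hFL := hF.L1
  have hF1 := hF.t1
  have hF2 := hF.t2
  obtain ⟨Ln, hLn⟩ : ∃ Ln : ℕ, nL (Mre (2 ^ K.S) c q K.n0 K.N 1).natAbs (Mim (2 ^ K.S) c q K.n0 K.N 1).natAbs = Ln := ⟨_, rfl⟩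
  rw [hLn] at L1 hFL hF1 hF2
  have hL1 : (1 : ℝ) ≤ (Ln : ℝ) := by exact_mod_cast hFL
  set L : ℝ := (Ln : ℝ) with hLdef
  obtain ⟨Kt, hKt⟩ : ∃ Kt, Kt = K.k + K.u * (2 * K.M - 2) := ⟨_, rfl⟩
  rw [← hKt] at hF1 hF2
  have hth : (K.th : ℝ) < 2 ^ (40 : ℕ) := by exact_mod_cast hK.th2
  refine
    { cle := ?_
      cne := hc0
      δpos := ?_
      δle := ?_
      η'pos := ?_
      ηlt := ?_
      rho2 := ?_
      rho0 := ?_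
      thpos := ?_
      thlt := ?_
      t1 := ?_
      t2 := ?_
      mpos := ?_ }
  · rw [eD]
    push_cast
    exact hc
  · have : (1 : ℝ) ≤ d := by exact_mod_cast hd1
    positivity
  · show (d : ℝ) / 2 ^ (40 : ℕ) ≤ (K.del : ℝ) / 2 ^ (40 : ℕ)
    have : (d : ℝ) ≤ K.del := by exact_mod_cast hd2
    exact div_le_div_of_nonneg_right this h40.le
  · have : (1 : ℝ) ≤ e' := by exact_mod_cast he1
    positivity
  · have : (e' : ℝ) < e := by exact_mod_cast he2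
    exact div_lt_div_of_pos_right this h40
  · have h1 := hnd (K.rho2 - e) hn2
    rw [Nat.cast_sub he3] at h1
    show ‖cpx (nx, ny) / 2 ^ (40 : ℕ)‖ * ((d : ℝ) / 2 ^ (40 : ℕ)) + (e : ℝ) / 2 ^ (40 : ℕ) ≤ (K.rho2 : ℝ) / 2 ^ (40 : ℕ)
    rw [sub_div] at h1
    linarith
  · exact hnd K.rho0 hn0
  · show (0 : ℝ) < (K.th : ℝ) / 2 ^ (40 : ℕ)
    have : (1 : ℝ) ≤ K.th := by exact_mod_cast hK.th1
    positivity
  · show (K.th : ℝ) / 2 ^ (40 : ℕ) < 1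
    rw [div_lt_one h40]
    exact hth
  · have h1 := t1_sum K c q hK.len
    rw [← hKt] at h1
    generalize acc (2 ^ K.u) (gm K c q) (K.wl.map Prod.fst) 2 0 = A1 at h1 hF1
    have h2 : (2 : ℝ) ^ (42 : ℕ) * (A1 : ℝ) + 2 ^ (48 + Kt) * (K.e1 : ℝ) ≤
        2 ^ Kt * (K.th : ℝ) * L := by rw [hLdef]; exact_mod_cast hF1
    show ∑ p ∈ Icc 1 (2 * K.M - 2), K.toCls.w2 p * ‖Mom (2 ^ K.S) c q K.n0 K.N (p + 1)‖ + (K.e1 : ℝ) ≤
      (K.th : ℝ) / 2 ^ (40 : ℕ) * ‖Mom (2 ^ K.S) c q K.n0 K.N 1‖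
    have h3 : (A1 : ℝ) / 2 ^ (6 + Kt) + (K.e1 : ℝ) ≤
        (K.th : ℝ) / 2 ^ (40 : ℕ) * (L / 256) := by
      have hp : (0 : ℝ) < 2 ^ Kt := by positivity
      rw [pow_add] at h2 ⊢
      rw [div_add' _ _ _ (by positivity), div_mul_div_comm, div_le_div_iff₀ (by positivity) (by positivity)]
      rw [e1] at h2
      have e2 : (2 : ℝ) ^ (42 : ℕ) = 2 ^ (40 : ℕ) * 4 := by norm_num
      have e3 : (2 : ℝ) ^ (6 : ℕ) = 64 := by norm_num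
      rw [e2] at h2
      rw [e3]
      linarith only [h2]
    have h4 : L / 256 ≤ ‖Mom (2 ^ K.S) c q K.n0 K.N 1‖ := by linarith
    have h5 : (K.th : ℝ) / 2 ^ (40 : ℕ) * (L / 256) ≤ (K.th : ℝ) / 2 ^ (40 : ℕ) * ‖Mom (2 ^ K.S) c q K.n0 K.N 1‖ :=
      mul_le_mul_of_nonneg_left h4 (by positivity)
    linarith
  · have h1 := t2_sum K c q hK.len
    rw [← hKt] at h1
    have hm0 := Mom_le K c q 0
    have hm2 := Mom_le K c q 2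
    have hu := nU_le (2 * (Mre (2 ^ K.S) c q K.n0 K.N 1 * nx - Mim (2 ^ K.S) c q K.n0 K.N 1 * ny) -
          2 ^ (40 : ℕ) * Mim (2 ^ K.S) c q K.n0 K.N 2,
        2 * (Mre (2 ^ K.S) c q K.n0 K.N 1 * ny + Mim (2 ^ K.S) c q K.n0 K.N 1 * nx) +
          2 ^ (40 : ℕ) * Mre (2 ^ K.S) c q K.n0 K.N 2)
    have eu : cpx (2 * (Mre (2 ^ K.S) c q K.n0 K.N 1 * nx - Mim (2 ^ K.S) c q K.n0 K.N 1 * ny) -
          2 ^ (40 : ℕ) * Mim (2 ^ K.S) c q K.n0 K.N 2,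
        2 * (Mre (2 ^ K.S) c q K.n0 K.N 1 * ny + Mim (2 ^ K.S) c q K.n0 K.N 1 * nx) +
          2 ^ (40 : ℕ) * Mre (2 ^ K.S) c q K.n0 K.N 2) =
        2 ^ (41 : ℕ) * (Mom (2 ^ K.S) c q K.n0 K.N 1 * (cpx (nx, ny) / 2 ^ (40 : ℕ)) + Complex.I * Mom (2 ^ K.S) c q K.n0 K.N 2 / 2) := by
      unfold Mom cpx
      push_cast
      have hI := Complex.I_mul_I
      linear_combination (-2 * (Mim (2 ^ K.S) c q K.n0 K.N 1 : ℂ) * ny - 2 ^ (40 : ℕ) * (Mim (2 ^ K.S) c q K.n0 K.N 2 : ℂ)) * hI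
    rw [eu, norm_mul] at hu
    have e41 : ‖(2 : ℂ) ^ (41 : ℕ)‖ = 2 ^ (41 : ℕ) := by norm_num
    rw [e41] at hu
    simp only at hu
    generalize nU (2 * (Mre (2 ^ K.S) c q K.n0 K.N 1 * nx - Mim (2 ^ K.S) c q K.n0 K.N 1 * ny) -
          2 ^ (40 : ℕ) * Mim (2 ^ K.S) c q K.n0 K.N 2).natAbs
        (2 * (Mre (2 ^ K.S) c q K.n0 K.N 1 * ny + Mim (2 ^ K.S) c q K.n0 K.N 1 * nx) +
          2 ^ (40 : ℕ) * Mre (2 ^ K.S) c q K.n0 K.N 2).natAbs = UDn at hu hF2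
    generalize acc (2 ^ K.u) (gm K c q) (K.wl.map Prod.snd) 2 0 = A2n at h1 hF2
    generalize gm K c q 0 = G0n at hm0 hF2
    generalize gm K c q 2 = G2n at hm2 hF2
    obtain ⟨G0, hG0⟩ : ∃ G0 : ℝ, G0 = (G0n : ℝ) := ⟨_, rfl⟩
    obtain ⟨G2, hG2⟩ : ∃ G2 : ℝ, G2 = (G2n : ℝ) := ⟨_, rfl⟩
    obtain ⟨A2, hA2⟩ : ∃ A2 : ℝ, A2 = (A2n : ℝ) := ⟨_, rfl⟩
    obtain ⟨UD, hUD⟩ : ∃ UD : ℝ, UD = (UDn : ℝ) := ⟨_, rfl⟩
    rw [← hG0] at hm0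
    rw [← hG2] at hm2
    rw [← hA2] at h1
    rw [← hUD] at hu
    obtain ⟨v, hv⟩ : ∃ v, Kt + K.u = v + 1 := ⟨Kt + K.u - 1, by have := hK.u1; omega⟩
    have h2' : G0 * 2 ^ (81 + (v + 1)) + (d : ℝ) * UD * 2 ^ (v + 1) + (K.rho0 : ℝ) ^ (2 : ℕ) * G2 * 2 ^ (v + 1) + A2 * 2 ^ (81 : ℕ) +
        (K.e0 : ℝ) * 2 ^ (87 + (v + 1)) ≤ (2 ^ (40 : ℕ) - (K.th : ℝ)) * (e' : ℝ) * L * 2 ^ v := by
      rw [add_assoc 81, add_assoc 87, hv, Nat.add_sub_cancel] at hF2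
      have hsub : (((2 ^ (40 : ℕ) - K.th : ℕ)) : ℝ) = 2 ^ (40 : ℕ) - (K.th : ℝ) := by
        rw [Nat.cast_sub hK.th2.le, Nat.cast_pow, Nat.cast_ofNat]
      rw [← hsub, hG0, hG2, hA2, hUD, hLdef]
      generalize 2 ^ (40 : ℕ) - K.th = tn at hF2
      exact_mod_cast hF2
    have h3 : G0 / 64 + (d : ℝ) / 2 ^ (40 : ℕ) * (UD / 2 ^ (47 : ℕ)) + ((K.rho0 : ℝ) / 2 ^ (40 : ℕ)) ^ (2 : ℕ) / 2 * (G2 / 64) +
        A2 / 2 ^ (6 + (Kt + K.u)) + K.e0 ≤ (1 - (K.th : ℝ) / 2 ^ (40 : ℕ)) * ((e' : ℝ) / 2 ^ (40 : ℕ)) * (L / 256) := by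
      rw [hv]
      have hp : (0 : ℝ) < 2 ^ v := by positivity
      have h87 : (0 : ℝ) < 2 ^ (88 : ℕ) * 2 ^ v := by positivity
      rw [← mul_le_mul_iff_of_pos_left h87]
      have e2 : 2 ^ (88 : ℕ) * 2 ^ v * (G0 / 64 + (d : ℝ) / 2 ^ (40 : ℕ) * (UD / 2 ^ (47 : ℕ)) + ((K.rho0 : ℝ) / 2 ^ (40 : ℕ)) ^ (2 : ℕ) / 2 * (G2 / 64) +
          A2 / 2 ^ (6 + (v + 1)) + K.e0) = G0 * 2 ^ (81 + (v + 1)) + (d : ℝ) * UD * 2 ^ (v + 1) +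
          (K.rho0 : ℝ) ^ (2 : ℕ) * G2 * 2 ^ (v + 1) + A2 * 2 ^ (81 : ℕ) + (K.e0 : ℝ) * 2 ^ (87 + (v + 1)) := by
        have ep1 : (2 : ℝ) ^ (81 + (v + 1)) = 2 ^ (82 : ℕ) * 2 ^ v := by rw [← pow_add]; congr 1; ring
        have ep2 : (2 : ℝ) ^ (v + 1) = 2 * 2 ^ v := pow_succ' _ _
        have ep3 : (2 : ℝ) ^ (87 + (v + 1)) = 2 ^ (88 : ℕ) * 2 ^ v := by rw [← pow_add]; congr 1; ring
        have ep4 : (2 : ℝ) ^ (6 + (v + 1)) = 2 ^ (7 : ℕ) * 2 ^ v := by rw [← pow_add]; congr 1; ring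
        rw [ep1, ep2, ep3, ep4]
        field_simp
        ring
      have e3 : 2 ^ (88 : ℕ) * 2 ^ v * ((1 - (K.th : ℝ) / 2 ^ (40 : ℕ)) * ((e' : ℝ) / 2 ^ (40 : ℕ)) * (L / 256)) =
          (2 ^ (40 : ℕ) - (K.th : ℝ)) * (e' : ℝ) * L * 2 ^ v := by
        field_simp
        ring
      rw [e2, e3]
      exact h2'
    show ‖Mom (2 ^ K.S) c q K.n0 K.N 0‖ +
        (d : ℝ) / 2 ^ (40 : ℕ) * ‖Mom (2 ^ K.S) c q K.n0 K.N 1 * (cpx (nx, ny) / 2 ^ (40 : ℕ)) + Complex.I * Mom (2 ^ K.S) c q K.n0 K.N 2 / 2‖ +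
        ((K.rho0 : ℝ) / 2 ^ (40 : ℕ)) ^ (2 : ℕ) / 2 * ‖Mom (2 ^ K.S) c q K.n0 K.N 2‖ +
        ∑ p ∈ Icc 3 (2 * K.M - 2), K.toCls.w0 p * ‖Mom (2 ^ K.S) c q K.n0 K.N p‖ + (K.e0 : ℝ) ≤
      (1 - (K.th : ℝ) / 2 ^ (40 : ℕ)) * ((e' : ℝ) / 2 ^ (40 : ℕ)) * ‖Mom (2 ^ K.S) c q K.n0 K.N 1‖
    have i0 : ‖Mom (2 ^ K.S) c q K.n0 K.N 0‖ ≤ G0 / 64 := by linarith
    have i1 : ‖Mom (2 ^ K.S) c q K.n0 K.N 1 * (cpx (nx, ny) / 2 ^ (40 : ℕ)) + Complex.I * Mom (2 ^ K.S) c q K.n0 K.N 2 / 2‖ ≤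
        UD / 2 ^ (47 : ℕ) := by
      rw [le_div_iff₀ (by positivity)]
      have : (2 : ℝ) ^ (47 : ℕ) = 64 * 2 ^ (41 : ℕ) := by norm_num
      rw [this]
      linarith
    have i2 : ‖Mom (2 ^ K.S) c q K.n0 K.N 2‖ ≤ G2 / 64 := by linarith
    have i4 : L / 256 ≤ ‖Mom (2 ^ K.S) c q K.n0 K.N 1‖ := by linarith
    have j1 := mul_le_mul_of_nonneg_left i1 (show (0 : ℝ) ≤ (d : ℝ) / 2 ^ (40 : ℕ) by positivity)
    have j2 := mul_le_mul_of_nonneg_left i2 (show (0 : ℝ) ≤ ((K.rho0 : ℝ) / 2 ^ (40 : ℕ)) ^ (2 : ℕ) / 2 by positivity)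
    have j4 := mul_le_mul_of_nonneg_left i4 (show (0 : ℝ) ≤ (1 - (K.th : ℝ) / 2 ^ (40 : ℕ)) * ((e' : ℝ) / 2 ^ (40 : ℕ)) by
      have : (K.th : ℝ) / 2 ^ (40 : ℕ) ≤ 1 := by rw [div_le_one h40]; exact hth.le
      have h9 : 0 ≤ 1 - (K.th : ℝ) / 2 ^ (40 : ℕ) := by linarith
      positivity)
    linarith
  · show 0 < ‖Mom (2 ^ K.S) c q K.n0 K.N 1‖
    linarith

/-- The evaluator is correct. -/
theorem spec_of_check {K : ClsI} (hK : okE K = true) {a d e' e : ℕ} {cx cy lx ly : ℤ}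
    (h : tubeCheck K a d e' e cx cy lx ly = true) :
    Spec K.toCls (Qsp K.S a) (cx * 2 ^ (K.S - 40), cy * 2 ^ (K.S - 40)) (nuI K.n0 lx ly) ((d : ℝ) / 2 ^ (40 : ℕ))
      ((e' : ℝ) / 2 ^ (40 : ℕ)) ((e : ℝ) / 2 ^ (40 : ℕ)) ∧ a ≤ 3518437208883 := by
  have hC := okE_spec hK
  unfold tubeCheck at h
  simp only [Bool.and_eq_true] at h
  obtain ⟨⟨⟨⟨⟨⟨⟨⟨⟨⟨h1, h2⟩, h3⟩, h4⟩, h5⟩, h6⟩, h7⟩, h8⟩, h9⟩, h10⟩, h11⟩ := h
  have ha := Nat.le_of_ble_eq_true h1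
  have hd1 := Nat.le_of_ble_eq_true h2
  have hd2 := Nat.le_of_ble_eq_true h3
  have he1 := Nat.le_of_ble_eq_true h4
  have he2 : e' < e := Nat.le_of_ble_eq_true h5
  have he3 := Nat.le_of_ble_eq_true h6
  have hn2 := Nat.le_of_ble_eq_true h7
  have hn0 := Nat.le_of_ble_eq_true h8
  have hR := Nat.le_of_ble_eq_true h9
  have hc1 := Nat.le_of_ble_eq_true h10
  have hcs : (0 : ℤ) ≤ cx * cx + cy * cy := add_nonneg (mul_self_nonneg _) (mul_self_nonneg _)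
  have hR' : cx * cx + cy * cy ≤ ((K.R * 2 ^ (40 : ℕ)) ^ (2 : ℕ) : ℕ) := by
    rw [← Int.toNat_of_nonneg hcs]
    exact_mod_cast hR
  have hc1' : 1 ≤ cx * cx + cy * cy := by
    rw [← Int.toNat_of_nonneg hcs]
    exact_mod_cast hc1
  obtain ⟨s, hs⟩ : ∃ s, K.S = s + 40 := ⟨K.S - 40, by have := hC.S40; omega⟩
  have hs' : K.S - 40 = s := by omega
  have hcn : ‖cpx (cx, cy)‖ ≤ K.R * 2 ^ (40 : ℕ) := by
    refine le_of_sq_le_sq ?_ (by positivity)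
    rw [cpx_norm_sq]
    have : ((cx * cx + cy * cy : ℤ) : ℝ) ≤ ((((K.R * 2 ^ (40 : ℕ)) ^ (2 : ℕ) : ℕ) : ℤ) : ℝ) := by exact_mod_cast hR'
    push_cast at this
    simp only
    linarith
  have ecs : cpx (cx * 2 ^ (K.S - 40), cy * 2 ^ (K.S - 40)) = cpx (cx, cy) * 2 ^ (K.S - 40) := by
    unfold cpx
    push_cast
    ring
  have hc : ‖cpx (cx * 2 ^ (K.S - 40), cy * 2 ^ (K.S - 40))‖ ≤ K.R * 2 ^ K.S := by
    rw [ecs, norm_mul, norm_pow]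
    have e2 : ‖(2 : ℂ)‖ = 2 := by norm_num
    rw [e2]
    calc ‖cpx (cx, cy)‖ * 2 ^ (K.S - 40) ≤ K.R * 2 ^ (40 : ℕ) * 2 ^ (K.S - 40) :=
          mul_le_mul_of_nonneg_right hcn (by positivity)
      _ = K.R * 2 ^ K.S := by rw [hs', hs, pow_add]; ring
  have hc0 : cpx (cx * 2 ^ (K.S - 40), cy * 2 ^ (K.S - 40)) ≠ 0 := by
    rw [ecs]
    refine mul_ne_zero ?_ (pow_ne_zero _ two_ne_zero)
    intro h0
    have h12 := cpx_norm_sq (cx, cy)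
    rw [h0, norm_zero] at h12
    have h13 : (0 : ℤ) = cx ^ (2 : ℕ) + cy ^ (2 : ℕ) := by
      have : (0 : ℝ) = (cx : ℝ) ^ (2 : ℕ) + (cy : ℝ) ^ (2 : ℕ) := by simpa using h12
      exact_mod_cast this
    linarith only [hc1', h13]
  have hq : ‖cpx (Qsp K.S a)‖ ≤ 2 ^ K.S + 2 := by
    have h12 := Qsp_err K.S a hC.S160 ha
    have e2 : (((2 : ℤ) ^ K.S : ℤ) : ℂ) = 2 ^ K.S := by push_cast; rfl
    have e3 : (((2 : ℤ) ^ K.S : ℤ) : ℝ) = 2 ^ K.S := by push_cast; rfl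
    rw [e2, e3] at h12
    have h13 : ‖qa ((a : ℝ) / 2 ^ (40 : ℕ))‖ = 1 := norm_qa _
    have h14 : ‖cpx (Qsp K.S a) / 2 ^ K.S‖ ≤ 1 + 2 / 2 ^ K.S := by
      calc ‖cpx (Qsp K.S a) / 2 ^ K.S‖ = ‖qa ((a : ℝ) / 2 ^ (40 : ℕ)) + (cpx (Qsp K.S a) / 2 ^ K.S - qa ((a : ℝ) / 2 ^ (40 : ℕ)))‖ := by
            congr 1; ring
        _ ≤ _ := norm_add_le _ _
        _ ≤ _ := by rw [h13]; linarith
    rw [norm_div, norm_pow] at h14
    have e4 : ‖(2 : ℂ)‖ = 2 := by norm_num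
    rw [e4, div_le_iff₀ (by positivity)] at h14
    calc ‖cpx (Qsp K.S a)‖ ≤ (1 + 2 / 2 ^ K.S) * 2 ^ K.S := h14
      _ = 2 ^ K.S + 2 := by field_simp
  have hM := okM_of hC hq hc
  have hqr := qN_res K hC.y24 a ha
  have hsm : ∀ x : ℤ, x * x ≤ ((K.R * 2 ^ (40 : ℕ)) ^ (2 : ℕ) : ℕ) → (-x).toNat * 2 ^ (K.S - 40) ≤ (2 ^ K.y) ^ (2 : ℕ) + 1 := by
    intro x hx
    have h12 : ((-x).toNat : ℤ) ≤ (K.R * 2 ^ (40 : ℕ) : ℕ) := by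
      by_contra hcon
      push Not at hcon
      have h13 : ((K.R * 2 ^ (40 : ℕ) : ℕ) : ℤ) < -x := by
        rcases le_total 0 (-x) with h | h
        · rwa [Int.toNat_of_nonneg h] at hcon
        · rw [Int.toNat_of_nonpos h] at hcon
          exfalso
          have : (0 : ℤ) ≤ ((K.R * 2 ^ (40 : ℕ) : ℕ) : ℤ) := Nat.cast_nonneg _
          simp only [Nat.cast_zero] at hcon
          linarith
      have h14 : (0 : ℤ) ≤ ((K.R * 2 ^ (40 : ℕ) : ℕ) : ℤ) := Nat.cast_nonneg _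
      have h15 : (((K.R * 2 ^ (40 : ℕ)) ^ (2 : ℕ) : ℕ) : ℤ) = ((K.R * 2 ^ (40 : ℕ) : ℕ) : ℤ) * ((K.R * 2 ^ (40 : ℕ) : ℕ) : ℤ) := by
        push_cast; ring
      rw [h15] at hx
      nlinarith only [hx, h13]
    have h13 : (-x).toNat ≤ K.R * 2 ^ (40 : ℕ) := by exact_mod_cast h12
    have h16 : (-x).toNat * 2 ^ (K.S - 40) ≤ K.R * 2 ^ K.S := by
      calc (-x).toNat * 2 ^ (K.S - 40) ≤ K.R * 2 ^ (40 : ℕ) * 2 ^ (K.S - 40) := Nat.mul_le_mul_right _ h13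
        _ = K.R * 2 ^ K.S := by rw [hs', hs, pow_add]; ring
    have h17 : K.R * 2 ^ K.S ≤ (K.R + 1) * 2 ^ K.S * (2 ^ K.S + 2) := by
      have h18 : K.R * 2 ^ K.S ≤ (K.R + 1) * 2 ^ K.S := Nat.mul_le_mul_right _ (by omega)
      have h19 : (K.R + 1) * 2 ^ K.S ≤ (K.R + 1) * 2 ^ K.S * (2 ^ K.S + 2) := Nat.le_mul_of_pos_right _ (by positivity)
      exact h18.trans h19
    have h20 : 2 ^ (K.y - 2) ≤ (2 ^ K.y) ^ (2 : ℕ) := by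
      rw [← pow_mul]
      exact Nat.pow_le_pow_right (by norm_num) (by omega)
    have h21 := hC.bW
    omega
  have hcr : Res K.y (pk K.MM K.Y (2 ^ (K.S - 40)) cx cy) (cx * 2 ^ (K.S - 40), cy * 2 ^ (K.S - 40)) := by
    have h12 := pk_res (y := K.y) (sh := 2 ^ (K.S - 40)) (cx := cx) (cy := cy)
      (hsm cx (by nlinarith only [hR'])) (hsm cy (by nlinarith only [hR']))
    rw [K.MM_eq]
    push_cast at h12
    exact h12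
  exact ⟨spec_of_fin hC (fin_of_check hC hM hqr hcr h11) hc hc0 hd1 hd2 he1 he2 he3 hn2 hn0, ha⟩

end SokamFU

end
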