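import Pool.Agent.Lib_MP_af4de1_zy.Z24
import Pool.Agent.Lib_MP_af4de1_zy.Z49

/-! ### Lib_MP_af4de1_ti.Geo -/

section
namespace SokamFU
end SokamFU
/-!
# The geometry of the tip: `hL`, `hR`, `wmap`, `Bp` in the sector `p = v (k + i)`
-/

set_option autoImplicit false

namespace SokamTI

open SokamFU Complex

variable {p : ℂ}

/-! ### Algebra -/

theorem ne_zero_of_re (hp : p.re ≠ 0) : p ≠ 0 := by
  rintro rfl
  exact hp rfl

theorem hR_eq_mul (hp : p.re ≠ 0) : hR p = p * cexp p / (cexp p - 1) := by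
  have h1 : cexp p - 1 ≠ 0 := exp_ne_one hp
  have h2 : 1 - cexp (-p) = (cexp p - 1) / cexp p := by
    rw [exp_neg, sub_div, div_self (exp_ne_zero p), one_div]
  unfold hR
  rw [h2, div_div_eq_mul_div]

theorem hL_mul (hp : p.re ≠ 0) : hL p * (cexp p - 1) = p := by
  unfold hL
  exact div_mul_cancel₀ _ (exp_ne_one hp)

theorem hR_sub_hL (hp : p.re ≠ 0) : hR p - hL p = p := by
  have h1 : cexp p - 1 ≠ 0 := exp_ne_one hp
  rw [hR_eq_mul hp]
  unfold hL
  rw [← sub_div, div_eq_iff h1]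
  ring

theorem hL_mul_exp (hp : p.re ≠ 0) : hL p * cexp p = hR p := by
  rw [hR_eq_mul hp]
  unfold hL
  ring

theorem wmap_eq_hR (hp : p.re ≠ 0) : wmap p = hR p * cexp (-hR p) := by
  have h1 : hR p = hL p + p := by linear_combination hR_sub_hL hp
  unfold wmap
  rw [← hL_mul_exp hp, mul_assoc, ← exp_add]
  congr 2
  rw [hL_mul_exp hp, h1]
  ring

theorem wmap_mul_exp_hL : wmap p * cexp (hL p) = hL p := by
  unfold wmap
  rw [mul_assoc, ← exp_add, neg_add_cancel, exp_zero, mul_one]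

theorem wmap_mul_exp_hR (hp : p.re ≠ 0) : wmap p * cexp (hR p) = hR p := by
  rw [wmap_eq_hR hp, mul_assoc, ← exp_add, neg_add_cancel, exp_zero, mul_one]

/-- `B = Φ(h_R) - Φ(h_L)`, `Φ(h) = h²/2 - h` at the saddle points -/
theorem Bp_eq (hp : p.re ≠ 0) : Bp p = (hR p ^ (2 : ℕ) / 2 - hR p) - (hL p ^ (2 : ℕ) / 2 - hL p) := by
  have h1 : hR p = hL p + p := by linear_combination hR_sub_hL hp
  unfold Bp
  rw [h1]
  ring

/-! ### Real and imaginary parts -/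

/-- `cosh x - cos v` -/
noncomputable def Dd (p : ℂ) : ℝ := Real.cosh p.re - Real.cos p.im

theorem Dd_pos (hp : p.re ≠ 0) : 0 < Dd p := by
  have h1 : 1 < Real.cosh p.re := Real.one_lt_cosh.2 hp
  have h2 := Real.cos_le_one p.im
  unfold Dd
  linarith

theorem hL_parts (hp : p.re ≠ 0) : hL p =
    (((p.re * (Real.cos p.im - Real.exp (-p.re)) + p.im * Real.sin p.im) / (2 * Dd p) : ℝ) : ℂ) +
    ((-((p.im * (Real.exp (-p.re) - Real.cos p.im) + p.re * Real.sin p.im) / (2 * Dd p)) : ℝ) : ℂ) *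
      I := by
  have hD := Dd_pos hp
  have h1 : cexp p - 1 ≠ 0 := exp_ne_one hp
  have hE : Real.exp p.re * Real.exp (-p.re) = 1 := by
    rw [← Real.exp_add, add_neg_cancel, Real.exp_zero]
  have hcosh : 2 * Dd p = Real.exp p.re + Real.exp (-p.re) - 2 * Real.cos p.im := by
    unfold Dd
    rw [Real.cosh_eq]
    ring
  have hsc := Real.sin_sq_add_cos_sq p.im
  unfold hL
  rw [div_eq_iff h1]
  apply Complex.ext
  · simp only [add_re, mul_re, add_im, mul_im, ofReal_re, ofReal_im, I_re, I_im, sub_re, sub_im,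
      exp_re, exp_im, one_re, one_im]
    field_simp
    rw [hcosh]
    generalize Real.exp p.re = E at *
    generalize Real.exp (-p.re) = E' at *
    generalize Real.sin p.im = s at *
    generalize Real.cos p.im = c at *
    linear_combination (-p.re * E) * hsc + p.re * hcosh + (p.re * c - p.im * s) * hE
  · simp only [add_re, mul_re, add_im, mul_im, ofReal_re, ofReal_im, I_re, I_im, sub_re, sub_im,
      exp_re, exp_im, one_re, one_im]
    field_simp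
    rw [hcosh]
    generalize Real.exp p.re = E at *
    generalize Real.exp (-p.re) = E' at *
    generalize Real.sin p.im = s at *
    generalize Real.cos p.im = c at *
    linear_combination (-p.im * E) * hsc + p.im * hcosh + (p.im * c + p.re * s) * hE

theorem hL_re (hp : p.re ≠ 0) : (hL p).re =
    (p.re * (Real.cos p.im - Real.exp (-p.re)) + p.im * Real.sin p.im) / (2 * Dd p) := by
  rw [hL_parts hp, add_re, ofReal_re, re_ofReal_mul, I_re, mul_zero, add_zero]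

theorem hL_im (hp : p.re ≠ 0) : (hL p).im =
    -((p.im * (Real.exp (-p.re) - Real.cos p.im) + p.re * Real.sin p.im) / (2 * Dd p)) := by
  rw [hL_parts hp, add_im, ofReal_im, im_ofReal_mul, I_im, mul_one, zero_add]

theorem two_Dd : 2 * Dd p = Real.exp p.re + Real.exp (-p.re) - 2 * Real.cos p.im := by
  unfold Dd
  rw [Real.cosh_eq]
  ring

theorem hR_re (hp : p.re ≠ 0) : (hR p).re =
    (p.re * (Real.exp p.re - Real.cos p.im) + p.im * Real.sin p.im) / (2 * Dd p) := by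
  have h1 : hR p = hL p + p := by linear_combination hR_sub_hL hp
  have hD := Dd_pos hp
  rw [h1, add_re, hL_re hp, div_add' _ _ _ (by (clear * - hD; positivity)), two_Dd]
  congr 1
  ring

theorem hR_im (hp : p.re ≠ 0) : (hR p).im =
    (p.im * (Real.exp p.re - Real.cos p.im) - p.re * Real.sin p.im) / (2 * Dd p) := by
  have h1 : hR p = hL p + p := by linear_combination hR_sub_hL hp
  have hD := Dd_pos hp
  rw [h1, add_im, hL_im hp, neg_add_eq_sub, sub_div' (by (clear * - hD; positivity)), two_Dd]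
  congr 1
  ring

/-! ### Derivatives -/

theorem hasDerivAt_hL (hp : p.re ≠ 0) : HasDerivAt hL (hL p * (1 - hR p) / p) p := by
  have h1 : cexp p - 1 ≠ 0 := exp_ne_one hp
  have hp0 := ne_zero_of_re hp
  have h2 : HasDerivAt (fun z : ℂ => z / (cexp z - 1))
      ((1 * (cexp p - 1) - p * cexp p) / (cexp p - 1) ^ (2 : ℕ)) p :=
    (hasDerivAt_id p).fun_div ((Complex.hasDerivAt_exp p).sub_const 1) h1
  refine h2.congr_deriv ?_
  rw [hR_eq_mul hp]
  unfold hL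
  field_simp

theorem hasDerivAt_hR (hp : p.re ≠ 0) : HasDerivAt hR (hR p * (1 - hL p) / p) p := by
  have hp0 := ne_zero_of_re hp
  have h3 : HasDerivAt (fun z : ℂ => hL z + z) (hL p * (1 - hR p) / p + 1) p :=
    (hasDerivAt_hL hp).add (hasDerivAt_id p)
  have h4 : (fun z : ℂ => hL z + z) =ᶠ[nhds p] hR := by
    have h5 : ∀ᶠ z in nhds p, z.re ≠ 0 :=
      Complex.continuous_re.continuousAt.eventually_ne hp
    filter_upwards [h5] with z hz
    linear_combination -hR_sub_hL hz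
  refine (h3.congr_of_eventuallyEq h4.symm).congr_deriv ?_
  have h1 : hR p = hL p + p := by linear_combination hR_sub_hL hp
  field_simp
  rw [h1]
  ring

theorem hasDerivAt_wmap (hp : p.re ≠ 0) :
    HasDerivAt wmap (wmap p * ((1 - hL p) * (1 - hR p)) / p) p := by
  have hp0 := ne_zero_of_re hp
  have h1 := hasDerivAt_hL hp
  have h2 : HasDerivAt (fun z => hL z * cexp (-hL z))
      (hL p * (1 - hR p) / p * cexp (-hL p) + hL p * (cexp (-hL p) * -(hL p * (1 - hR p) / p))) p :=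
    h1.mul h1.fun_neg.cexp
  refine h2.congr_deriv ?_
  unfold wmap
  field_simp
  ring

theorem hasDerivAt_Bp (hp : p.re ≠ 0) : HasDerivAt Bp (-((1 - hL p) * (1 - hR p))) p := by
  have hp0 := ne_zero_of_re hp
  have h2 : HasDerivAt (fun z => z * ((hL z + hR z) / 2 - 1))
      (1 * ((hL p + hR p) / 2 - 1) + p * ((hL p * (1 - hR p) / p + hR p * (1 - hL p) / p) / 2)) p :=
    (hasDerivAt_id p).mul ((((hasDerivAt_hL hp).add (hasDerivAt_hR hp)).div_const 2).sub_const 1)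
  refine h2.congr_deriv ?_
  field_simp
  ring

/-! ### Signs -/

/-- `e^(xs) (cos (vs) - (x/v) sin (vs)) < 1` -/
theorem phi_lt {x v : ℝ} (hv : 0 < v) (hvπ : v ≤ Real.pi) :
    v * Real.cos v - x * Real.sin v < v * Real.exp (-x) := by
  have hanti : StrictAntiOn (fun s : ℝ => Real.exp (x * s) * (v * Real.cos (v * s) -
      x * Real.sin (v * s))) (Set.Icc 0 1) := by
    refine strictAntiOn_of_deriv_neg (convex_Icc 0 1) (by fun_prop) fun s hs => ?_
    rw [interior_Icc] at hs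
    have h1 : HasDerivAt (fun s : ℝ => Real.exp (x * s) * (v * Real.cos (v * s) -
        x * Real.sin (v * s))) (Real.exp (x * s) * (x * 1) * (v * Real.cos (v * s) -
        x * Real.sin (v * s)) + Real.exp (x * s) * (v * (-Real.sin (v * s) * (v * 1)) -
        x * (Real.cos (v * s) * (v * 1)))) s := by
      have e1 : HasDerivAt (fun s : ℝ => x * s) (x * 1) s := (hasDerivAt_id s).const_mul x
      have e2 : HasDerivAt (fun s : ℝ => v * s) (v * 1) s := (hasDerivAt_id s).const_mul v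
      exact e1.exp.mul ((e2.cos.const_mul v).sub (e2.sin.const_mul x))
    rw [h1.deriv]
    have h2 : 0 < Real.sin (v * s) := by
      apply Real.sin_pos_of_pos_of_lt_pi (mul_pos hv hs.1)
      have : v * s < v * 1 := mul_lt_mul_of_pos_left hs.2 hv
      linarith
    have h3 : Real.exp (x * s) * (x * 1) * (v * Real.cos (v * s) - x * Real.sin (v * s)) +
        Real.exp (x * s) * (v * (-Real.sin (v * s) * (v * 1)) - x * (Real.cos (v * s) * (v * 1))) =
        -(Real.exp (x * s) * ((x ^ (2 : ℕ) + v ^ (2 : ℕ)) * Real.sin (v * s))) := by ring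
    rw [h3]
    have : 0 < Real.exp (x * s) * ((x ^ (2 : ℕ) + v ^ (2 : ℕ)) * Real.sin (v * s)) := by (clear * - hv h2; positivity)
    linarith
  have h4 := hanti (Set.left_mem_Icc.2 zero_le_one) (Set.right_mem_Icc.2 zero_le_one) one_pos
  simp only [mul_one, mul_zero, Real.exp_zero, Real.cos_zero, Real.sin_zero, one_mul,
    sub_zero] at h4
  have h5 : Real.exp x * Real.exp (-x) = 1 := by
    rw [← Real.exp_add, add_neg_cancel, Real.exp_zero]
  have h6 : Real.exp (-x) * (Real.exp x * (v * Real.cos v - x * Real.sin v)) <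
      Real.exp (-x) * v := mul_lt_mul_of_pos_left h4 (Real.exp_pos _)
  have h7 : Real.exp (-x) * (Real.exp x * (v * Real.cos v - x * Real.sin v)) =
      (Real.exp x * Real.exp (-x)) * (v * Real.cos v - x * Real.sin v) := by ring
  rw [h7, h5, one_mul] at h6
  linarith

/-- the sector of the tip -/
def Sec : Set ℂ := Dk (2 / 5) (4 / 5) 4

theorem Sec.re_pos (hp : p ∈ Sec) : 0 < p.re := Dk_re_pos (by norm_num) hp

theorem Sec.re_ne (hp : p ∈ Sec) : p.re ≠ 0 := (Sec.re_pos hp).ne'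

theorem Sec.im_pos (hp : p ∈ Sec) : 0 < p.im := hp.1

theorem Sec.im_le (hp : p ∈ Sec) : p.im ≤ 4 := hp.2.1

theorem Sec.lo (hp : p ∈ Sec) : 2 / 5 * p.im ≤ p.re := hp.2.2.1

theorem Sec.hi (hp : p ∈ Sec) : p.re ≤ 4 / 5 * p.im := hp.2.2.2

/-- beyond `π`: `cos v < (4/5) sin v < 0` -/
theorem cos_lt_sin {v : ℝ} (h1 : Real.pi < v) (h2 : v ≤ 4) :
    Real.cos v < 4 / 5 * Real.sin v ∧ Real.sin v < 0 ∧ Real.cos v < -3 / 5 := by
  have hpi := Real.pi_gt_d2
  have hpi3 := Real.pi_gt_d4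
  set u := v - Real.pi with hu
  have hu0 : 0 < u := by rw [hu]; linarith
  have hu1 : u < 43 / 50 := by rw [hu]; linarith
  have e1 : Real.cos v = -Real.cos u := by
    rw [hu, Real.cos_sub_pi]
    ring
  have e2 : Real.sin v = -Real.sin u := by
    rw [hu, Real.sin_sub_pi]
    ring
  have e3 : 0 < Real.sin u := Real.sin_pos_of_pos_of_lt_pi hu0 (by linarith)
  have e4 := Real.one_sub_sq_div_two_le_cos (x := u)
  have e5 := Real.sin_bound (x := u) (by rw [abs_of_pos hu0]; linarith)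
  rw [abs_of_pos hu0, abs_le] at e5
  rw [e1, e2]
  refine ⟨?_, by linarith, ?_⟩
  · have h5 : u - u ^ (3 : ℕ) / 6 + u ^ (5 : ℕ) / 100 ≤ 783 / 1000 := by
      have h7 : u ^ (5 : ℕ) ≤ 1 * u ^ (3 : ℕ) := by
        have : u ^ (5 : ℕ) = u ^ (2 : ℕ) * u ^ (3 : ℕ) := by ring
        rw [this]
        have h8 : u ^ (2 : ℕ) ≤ 1 := by nlinarith only [hu0, hu1]
        exact mul_le_mul_of_nonneg_right h8 (by positivity)
      have h9 : 0 ≤ (43 / 50 - u) * (u ^ (2 : ℕ) + u * (43 / 50) + (43 / 50) ^ (2 : ℕ)) := by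
        have : 0 ≤ 43 / 50 - u := by linarith
        (clear * - hu1 h1; positivity)
      nlinarith only [h7, mul_nonneg (sub_nonneg.2 hu1.le) (sq_nonneg u), mul_nonneg (sub_nonneg.2 hu1.le) hu0.le]
    have h6 : 1 - u ^ (2 : ℕ) / 2 > 6301 / 10000 := by nlinarith only [hu0, hu1]
    linarith [e5.2]
  · nlinarith only [hu0, hu1, e4]

theorem hL_im_neg (hp : p ∈ Sec) : (hL p).im < 0 := by
  have hv := Sec.im_pos hp
  have hx := Sec.re_pos hp
  have hD := Dd_pos (Sec.re_ne hp)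
  rw [hL_im (Sec.re_ne hp), neg_lt_zero]
  refine div_pos ?_ (by positivity)
  rcases le_or_gt p.im Real.pi with h | h
  · have := phi_lt (x := p.re) hv h
    linarith only [this]
  · obtain ⟨h1, h2, h3⟩ := cos_lt_sin h (Sec.im_le hp)
    have h4 : 0 < p.im * Real.exp (-p.re) := mul_pos hv (Real.exp_pos _)
    have h5 : 4 / 5 * p.im * Real.sin p.im ≤ p.re * Real.sin p.im :=
      mul_le_mul_of_nonpos_right (Sec.hi hp) h2.le
    have h6 : 0 < p.im * (4 / 5 * Real.sin p.im - Real.cos p.im) := mul_pos hv (by linarith)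
    linarith only [h4, h5, h6]

theorem hR_im_pos (hp : p ∈ Sec) : 0 < (hR p).im := by
  have hv := Sec.im_pos hp
  have hx := Sec.re_pos hp
  have hD := Dd_pos (Sec.re_ne hp)
  rw [hR_im (Sec.re_ne hp)]
  refine div_pos ?_ (by positivity)
  rcases le_or_gt p.im Real.pi with h | h
  · have := phi_lt (x := -p.re) hv h
    rw [neg_neg] at this
    linarith only [this]
  · obtain ⟨h1, h2, h3⟩ := cos_lt_sin h (Sec.im_le hp)
    have h4 : 0 < p.im * (Real.exp p.re - Real.cos p.im) :=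
      mul_pos hv (by have := Real.exp_pos p.re; linarith)
    have h5 : 0 < p.re * (-Real.sin p.im) := mul_pos hx (by linarith)
    linarith only [h4, h5]

theorem hR_re_pos (hp : p ∈ Sec) : 0 < (hR p).re := by
  have hv := Sec.im_pos hp
  have hx := Sec.re_pos hp
  have hD := Dd_pos (Sec.re_ne hp)
  rw [hR_re (Sec.re_ne hp)]
  refine div_pos ?_ (by positivity)
  have he : 1 < Real.exp p.re := by
    have := Real.add_one_lt_exp (Sec.re_ne hp)
    linarith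
  rcases le_or_gt p.im Real.pi with h | h
  · have h1 : 0 ≤ Real.sin p.im := Real.sin_nonneg_of_nonneg_of_le_pi hv.le h
    have h2 := Real.cos_le_one p.im
    have h3 : 0 < p.re * (Real.exp p.re - Real.cos p.im) := mul_pos hx (by linarith)
    have h4 : 0 ≤ p.im * Real.sin p.im := mul_nonneg hv.le h1
    linarith
  · obtain ⟨h1, h2, h3⟩ := cos_lt_sin h (Sec.im_le hp)
    have hpi := Real.pi_gt_d2
    have h4 : 5 / 2 ≤ Real.exp p.re := by
      have h5 := Real.quadratic_le_exp_of_nonneg hx.le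
      have h6 := Sec.lo hp
      have h7 : 1.25 ≤ p.re := by linarith
      nlinarith only [h5, h7]
    have h5 : -1 ≤ Real.sin p.im := Real.neg_one_le_sin _
    have h6 : p.im ≤ 5 / 2 * p.re := by have := Sec.lo hp; linarith
    have h7 : p.im * (-Real.sin p.im) ≤ 5 / 2 * p.re * 1 := by
      apply mul_le_mul h6 (by linarith) (by linarith) (by (clear * - hx; positivity))
    have h8 : p.re * (5 / 2) < p.re * (Real.exp p.re - Real.cos p.im) :=
      mul_lt_mul_of_pos_left (by linarith) hx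
    linarith

theorem one_sub_hL_ne (hp : p ∈ Sec) : 1 - hL p ≠ 0 := by
  intro h
  have h1 := hL_im_neg hp
  have h2 : hL p = 1 := by linear_combination -h
  rw [h2, one_im] at h1
  exact lt_irrefl _ h1

theorem one_sub_hR_ne (hp : p ∈ Sec) : 1 - hR p ≠ 0 := by
  intro h
  have h1 := hR_im_pos hp
  have h2 : hR p = 1 := by linear_combination -h
  rw [h2, one_im] at h1
  exact lt_irrefl _ h1

theorem hL_ne_zero (hp : p.re ≠ 0) : hL p ≠ 0 := by
  intro h
  have := hL_mul hp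
  rw [h, zero_mul] at this
  exact ne_zero_of_re hp this.symm

theorem hR_ne_zero (hp : p.re ≠ 0) : hR p ≠ 0 := by
  rw [← hL_mul_exp hp]
  exact mul_ne_zero (hL_ne_zero hp) (exp_ne_zero _)

theorem wmap_ne_zero (hp : p.re ≠ 0) : wmap p ≠ 0 :=
  mul_ne_zero (hL_ne_zero hp) (exp_ne_zero _)

end SokamTI

end

/-! ### Lib_MP_af4de1_ti.Box0 -/

section
/-!
# Rational tools for the tip certificate: rounding and square roots
-/

set_option autoImplicit false

namespace SokamTI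

/-- upper rounding to `2^-20` -/
def rU (q : ℚ) : ℚ := mkRat (q.num * 1048576 / q.den + 1) 1048576

/-- lower rounding to `2^-20` -/
def rL (q : ℚ) : ℚ := mkRat (q.num * 1048576 / q.den) 1048576

theorem rL_le (q : ℚ) : ((rL q : ℚ) : ℝ) ≤ q := by
  have h : rL q ≤ q := by
    unfold rL
    rw [Rat.mkRat_eq_div]
    have hd : (0 : ℚ) < q.den := by exact_mod_cast q.den_pos
    have h1 : q.num * 1048576 / q.den * q.den ≤ q.num * 1048576 :=
      Int.ediv_mul_le _ (by exact_mod_cast q.den_pos.ne')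
    have h2 : ((q.num * 1048576 / q.den : ℤ) : ℚ) * q.den ≤ q.num * 1048576 := by exact_mod_cast h1
    have h3 : q = q.num / q.den := (Rat.num_div_den q).symm
    conv_rhs => rw [h3]
    rw [div_le_div_iff₀ (by norm_num) hd]
    exact_mod_cast h2
  exact_mod_cast h

theorem le_rU (q : ℚ) : (q : ℝ) ≤ ((rU q : ℚ) : ℝ) := by
  have h : q ≤ rU q := by
    unfold rU
    rw [Rat.mkRat_eq_div]
    have hd : (0 : ℚ) < q.den := by exact_mod_cast q.den_pos
    have hd' : (0 : ℤ) < q.den := by exact_mod_cast q.den_pos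
    have h1 : q.num * 1048576 < (q.num * 1048576 / q.den + 1) * q.den :=
      Int.lt_ediv_add_one_mul_self _ hd'
    have h2 : (q.num : ℚ) * 1048576 ≤ ((q.num * 1048576 / q.den + 1 : ℤ) : ℚ) * q.den := by exact_mod_cast h1.le
    have h3 : q = q.num / q.den := (Rat.num_div_den q).symm
    conv_lhs => rw [h3]
    rw [div_le_div_iff₀ hd (by norm_num)]
    exact_mod_cast h2
  exact_mod_cast h

/-- Newton's iteration for the integer square root -/
def nsq (n : ℕ) : ℕ :=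
  (fun x => (x + n / x) / 2) ((fun x => (x + n / x) / 2) ((fun x => (x + n / x) / 2) ((fun x => (x + n / x) / 2)
    ((fun x => (x + n / x) / 2) ((fun x => (x + n / x) / 2) (2 ^ (Nat.log2 n / 2 + 1)))))))

/-- upper bound of the integer square root -/
def sqUn (n : ℕ) : ℕ := if n ≤ (nsq n + 1) * (nsq n + 1) then nsq n + 1 else n

/-- lower bound of the integer square root -/
def sqLn (n : ℕ) : ℕ := if (nsq n - 1) * (nsq n - 1) ≤ n then nsq n - 1 else 0

theorem sqUn_spec (n : ℕ) : n ≤ sqUn n * sqUn n := by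
  unfold sqUn
  split_ifs with h
  · exact h
  · exact Nat.le_mul_self n

theorem sqLn_spec (n : ℕ) : sqLn n * sqLn n ≤ n := by
  unfold sqLn
  split_ifs with h
  · exact h
  · exact Nat.zero_le _

/-- upper bound of the square root -/
def sqU (q : ℚ) : ℚ := mkRat (sqUn (q.num.toNat * 1099511627776 / q.den + 1)) 1048576

/-- lower bound of the square root -/
def sqL (q : ℚ) : ℚ := mkRat (sqLn (q.num.toNat * 1099511627776 / q.den)) 1048576

theorem sqU_nonneg (q : ℚ) : (0 : ℝ) ≤ ((sqU q : ℚ) : ℝ) := by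
  unfold sqU
  rw [Rat.mkRat_eq_div]
  push_cast
  positivity

theorem sqL_nonneg (q : ℚ) : (0 : ℝ) ≤ ((sqL q : ℚ) : ℝ) := by
  unfold sqL
  rw [Rat.mkRat_eq_div]
  push_cast
  positivity

theorem le_toNat_div (q : ℚ) : (q : ℝ) ≤ (q.num.toNat : ℝ) / q.den := by
  have h3 : (q : ℝ) = q.num / q.den := by exact_mod_cast (Rat.num_div_den q).symm
  have hd : (0 : ℝ) < q.den := by exact_mod_cast q.den_pos
  rw [h3]
  refine div_le_div_of_nonneg_right ?_ hd.le
  have : q.num ≤ (q.num.toNat : ℤ) := Int.self_le_toNat _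
  exact_mod_cast this

/-- `x ≤ s²` for the upper square root -/
theorem sqU_sq {q : ℚ} {x : ℝ} (h : x ≤ q) : x ≤ ((sqU q : ℚ) : ℝ) ^ (2 : ℕ) := by
  have h1 := le_toNat_div q
  have hd : (0 : ℝ) < q.den := by exact_mod_cast q.den_pos
  have h2 : q.num.toNat * 1099511627776 < (q.num.toNat * 1099511627776 / q.den + 1) * q.den :=
    Nat.lt_mul_of_div_lt (Nat.lt_succ_self _) q.den_pos
  have h3 : ((q.num.toNat : ℝ)) * 1099511627776 ≤ ((q.num.toNat * 1099511627776 / q.den + 1 : ℕ) : ℝ) * q.den := by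
    exact_mod_cast h2.le
  have h4 := sqUn_spec (q.num.toNat * 1099511627776 / q.den + 1)
  have h5 : ((q.num.toNat * 1099511627776 / q.den + 1 : ℕ) : ℝ) ≤
      ((sqUn (q.num.toNat * 1099511627776 / q.den + 1) : ℕ) : ℝ) * ((sqUn (q.num.toNat * 1099511627776 / q.den + 1) : ℕ) : ℝ) := by
    exact_mod_cast h4
  unfold sqU
  rw [Rat.mkRat_eq_div]
  push_cast
  push_cast at h3 h5
  have h6 : (q.num.toNat : ℝ) / q.den ≤ ((q.num.toNat * 1099511627776 / q.den : ℕ) + 1 : ℝ) / 1099511627776 := by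
    rw [div_le_div_iff₀ hd (by norm_num)]
    linarith
  refine h.trans (h1.trans (h6.trans ?_))
  rw [div_pow, show (1048576 : ℝ) ^ (2 : ℕ) = 1099511627776 by norm_num]
  refine div_le_div_of_nonneg_right ?_ (by norm_num)
  rw [pow_two]
  exact h5

theorem sqU_spec {q : ℚ} {x : ℝ} (h : x ≤ q) : √x ≤ ((sqU q : ℚ) : ℝ) :=
  Real.sqrt_le_iff.2 ⟨sqU_nonneg q, sqU_sq h⟩

/-- `s² ≤ x` for the lower square root -/
theorem sqL_sq {q : ℚ} {x : ℝ} (hx : 0 ≤ x) (h : (q : ℝ) ≤ x) : ((sqL q : ℚ) : ℝ) ^ (2 : ℕ) ≤ x := by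
  have hd : (0 : ℝ) < q.den := by exact_mod_cast q.den_pos
  have h4 := sqLn_spec (q.num.toNat * 1099511627776 / q.den)
  have h2 : q.num.toNat * 1099511627776 / q.den * q.den ≤ q.num.toNat * 1099511627776 := Nat.div_mul_le_self _ _
  have h3 : ((q.num.toNat * 1099511627776 / q.den : ℕ) : ℝ) * q.den ≤ (q.num.toNat : ℝ) * 1099511627776 := by
    exact_mod_cast h2
  have h5 : ((sqLn (q.num.toNat * 1099511627776 / q.den) : ℕ) : ℝ) * ((sqLn (q.num.toNat * 1099511627776 / q.den) : ℕ) : ℝ) ≤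
      ((q.num.toNat * 1099511627776 / q.den : ℕ) : ℝ) := by exact_mod_cast h4
  have h6 : (q.num.toNat : ℝ) / q.den ≤ x := by
    rcases le_total 0 q.num with hn | hn
    · have e : ((q.num.toNat : ℕ) : ℝ) = (q.num : ℝ) := by
        have : ((q.num.toNat : ℕ) : ℤ) = q.num := Int.toNat_of_nonneg hn
        exact_mod_cast this
      rw [e]
      have h7 : (q : ℝ) = q.num / q.den := by exact_mod_cast (Rat.num_div_den q).symm
      rw [← h7]
      exact h
    · rw [Int.toNat_of_nonpos hn]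
      simpa using hx
  unfold sqL
  rw [Rat.mkRat_eq_div]
  push_cast
  rw [div_pow, show (1048576 : ℝ) ^ (2 : ℕ) = 1099511627776 by norm_num, pow_two]
  have h8 : ((q.num.toNat * 1099511627776 / q.den : ℕ) : ℝ) / 1099511627776 ≤ (q.num.toNat : ℝ) / q.den := by
    rw [div_le_div_iff₀ (by norm_num) hd]
    exact h3
  refine (div_le_div_of_nonneg_right h5 (by norm_num)).trans (h8.trans h6)

theorem sqL_spec {q : ℚ} {x : ℝ} (hx : 0 ≤ x) (h : (q : ℝ) ≤ x) : ((sqL q : ℚ) : ℝ) ≤ √x :=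
  Real.le_sqrt_of_sq_le (sqL_sq hx h)

/-! ### Norms of rational complex numbers -/

/-- rational complex number -/
noncomputable def qc (x y : ℚ) : ℂ := ((x : ℝ) : ℂ) + ((y : ℝ) : ℂ) * Complex.I

theorem qc_re (x y : ℚ) : (qc x y).re = x := by simp [qc]

theorem qc_im (x y : ℚ) : (qc x y).im = y := by simp [qc]

theorem qc_norm (x y : ℚ) : ‖qc x y‖ = √(((x * x + y * y : ℚ)) : ℝ) := by
  rw [Complex.norm_def, Complex.normSq_apply, qc_re, qc_im]
  push_cast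
  rfl

/-- upper bound of the norm -/
def nrU (x y : ℚ) : ℚ := sqU (x * x + y * y)

/-- lower bound of the norm -/
def nrL (x y : ℚ) : ℚ := sqL (x * x + y * y)

theorem nrU_spec (x y : ℚ) : ‖qc x y‖ ≤ ((nrU x y : ℚ) : ℝ) := by
  rw [qc_norm]
  exact sqU_spec le_rfl

theorem nrL_spec (x y : ℚ) : ((nrL x y : ℚ) : ℝ) ≤ ‖qc x y‖ := by
  rw [qc_norm]
  refine sqL_spec ?_ le_rfl
  push_cast
  exact add_nonneg (mul_self_nonneg _) (mul_self_nonneg _)

theorem qc_mul (x y x' y' : ℚ) : qc x y * qc x' y' = qc (x * x' - y * y') (x * y' + y * x') := by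
  apply Complex.ext
  · rw [Complex.mul_re, qc_re, qc_re, qc_im, qc_im, qc_re]; push_cast; ring
  · rw [Complex.mul_im, qc_re, qc_re, qc_im, qc_im, qc_im]; push_cast; ring

theorem qc_add (x y x' y' : ℚ) : qc x y + qc x' y' = qc (x + x') (y + y') := by
  apply Complex.ext
  · rw [Complex.add_re, qc_re, qc_re, qc_re]; push_cast; ring
  · rw [Complex.add_im, qc_im, qc_im, qc_im]; push_cast; ring

theorem qc_sub (x y x' y' : ℚ) : qc x y - qc x' y' = qc (x - x') (y - y') := by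
  apply Complex.ext
  · rw [Complex.sub_re, qc_re, qc_re, qc_re]; push_cast; ring
  · rw [Complex.sub_im, qc_im, qc_im, qc_im]; push_cast; ring

theorem qc_one : (1 : ℂ) = qc 1 0 := by
  apply Complex.ext
  · rw [qc_re]; simp
  · rw [qc_im]; simp

end SokamTI

end

/-! ### Lib_MP_af4de1_ti.Encl -/

section
namespace SokamFU
end SokamFU
/-!
# Enclosures of `h_L`, `h_R`, `B` on a disc

`E ≈ e^(p_c)`, `H ≈ h_L(p_c)`.
-/

set_option autoImplicit false

namespace SokamTI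

open SokamFU Complex

section
variable {E H pc z : ℂ} {ε r : ℝ}

/-- `e^(p_c + z)` -/
theorem exp_encl (hz : ‖z‖ ≤ r) (hr : r ≤ 1) :
    ∃ w : ℂ, ‖w‖ ≤ r ^ (2 : ℕ) ∧ cexp (pc + z) = cexp pc * (1 + z + w) := by
  refine ⟨cexp z - 1 - z, ?_, ?_⟩
  · refine (norm_exp_sub_one_sub_id_le (hz.trans hr)).trans ?_
    exact pow_le_pow_left₀ (norm_nonneg _) hz 2
  · rw [exp_add]
    ring

theorem den_encl (hE : ‖cexp pc - E‖ ≤ ε) (hz : ‖z‖ ≤ r) (hr : r ≤ 1) :
    ‖E - 1‖ - ε - (‖E‖ + ε) * (r + r ^ (2 : ℕ)) ≤ ‖cexp (pc + z) - 1‖ := by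
  obtain ⟨w, hw, he⟩ := exp_encl (pc := pc) hz hr
  have hε : 0 ≤ ε := (norm_nonneg _).trans hE
  have h1 : ‖cexp pc‖ ≤ ‖E‖ + ε := by
    calc ‖cexp pc‖ = ‖E + (cexp pc - E)‖ := by congr 1; ring
      _ ≤ _ := norm_add_le _ _
      _ ≤ _ := by linarith
  have h2 : E - 1 = (cexp (pc + z) - 1) - (cexp pc - E) - cexp pc * (z + w) := by rw [he]; ring
  have h3 : ‖E - 1‖ ≤ ‖cexp (pc + z) - 1‖ + ε + (‖E‖ + ε) * (r + r ^ (2 : ℕ)) := by
    rw [h2]
    refine (norm_sub_le _ _).trans (add_le_add ((norm_sub_le _ _).trans (add_le_add le_rfl hE)) ?_)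
    rw [norm_mul]
    exact mul_le_mul h1 ((norm_add_le _ _).trans (add_le_add hz hw)) (norm_nonneg _) (by positivity)
  linarith

theorem encl_L (hp : (pc + z).re ≠ 0) (hE : ‖cexp pc - E‖ ≤ ε) (hz : ‖z‖ ≤ r) (hr : r ≤ 1) :
    ‖hL (pc + z) - H‖ * (‖E - 1‖ - ε - (‖E‖ + ε) * (r + r ^ (2 : ℕ))) ≤
      ‖pc - H * (E - 1)‖ + ‖H‖ * ε + r * (‖1 - H * E‖ + ‖H‖ * ε) + ‖H‖ * ((‖E‖ + ε) * r ^ (2 : ℕ)) := by
  obtain ⟨w, hw, he⟩ := exp_encl (pc := pc) hz hr
  have hε : 0 ≤ ε := (norm_nonneg _).trans hE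
  have h0 : 0 ≤ r := (norm_nonneg _).trans hz
  have h1 : ‖cexp pc‖ ≤ ‖E‖ + ε := by
    calc ‖cexp pc‖ = ‖E + (cexp pc - E)‖ := by congr 1; ring
      _ ≤ _ := norm_add_le _ _
      _ ≤ _ := by linarith
  have hne := exp_ne_one hp
  have h2 : (hL (pc + z) - H) * (cexp (pc + z) - 1) =
      (pc - H * (E - 1)) - H * (cexp pc - E) + z * ((1 - H * E) - H * (cexp pc - E)) - H * (cexp pc * w) := by
    have := hL_mul hp
    rw [sub_mul, this, he]
    ring
  have h3 := den_encl (pc := pc) (z := z) hE hz hr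
  have h4 : ‖hL (pc + z) - H‖ * ‖cexp (pc + z) - 1‖ ≤
      ‖pc - H * (E - 1)‖ + ‖H‖ * ε + r * (‖1 - H * E‖ + ‖H‖ * ε) + ‖H‖ * ((‖E‖ + ε) * r ^ (2 : ℕ)) := by
    rw [← norm_mul, h2]
    refine (norm_sub_le _ _).trans (add_le_add ((norm_add_le _ _).trans (add_le_add ((norm_sub_le _ _).trans
      (add_le_add le_rfl ?_)) ?_)) ?_)
    · rw [norm_mul]
      exact mul_le_mul_of_nonneg_left hE (norm_nonneg _)
    · rw [norm_mul]
      refine mul_le_mul hz ((norm_sub_le _ _).trans (add_le_add le_rfl ?_)) (norm_nonneg _) h0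
      rw [norm_mul]
      exact mul_le_mul_of_nonneg_left hE (norm_nonneg _)
    · rw [norm_mul, norm_mul]
      exact mul_le_mul_of_nonneg_left (mul_le_mul h1 hw (norm_nonneg _) (by positivity)) (norm_nonneg _)
  exact (mul_le_mul_of_nonneg_left h3 (norm_nonneg _)).trans h4

theorem encl_R (hp : (pc + z).re ≠ 0) (hE : ‖cexp pc - E‖ ≤ ε) (hz : ‖z‖ ≤ r) (hr : r ≤ 1) :
    ‖hR (pc + z) - (H + pc)‖ * (‖E - 1‖ - ε - (‖E‖ + ε) * (r + r ^ (2 : ℕ))) ≤
      ‖pc - H * (E - 1)‖ + ‖H‖ * ε + (‖E‖ + ε) * (r * ‖1 - H‖ + r ^ (2 : ℕ) + r ^ (2 : ℕ) * (r + ‖H‖)) := by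
  obtain ⟨w, hw, he⟩ := exp_encl (pc := pc) hz hr
  have hε : 0 ≤ ε := (norm_nonneg _).trans hE
  have h0 : 0 ≤ r := (norm_nonneg _).trans hz
  have h1 : ‖cexp pc‖ ≤ ‖E‖ + ε := by
    calc ‖cexp pc‖ = ‖E + (cexp pc - E)‖ := by congr 1; ring
      _ ≤ _ := norm_add_le _ _
      _ ≤ _ := by linarith
  have h2 : (hR (pc + z) - (H + pc)) * (cexp (pc + z) - 1) =
      (pc - H * (E - 1)) - H * (cexp pc - E) + cexp pc * (z * (1 - H) + z ^ (2 : ℕ) + w * (z - H)) := by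
    have h5 : hR (pc + z) = hL (pc + z) + (pc + z) := by linear_combination hR_sub_hL hp
    have := hL_mul hp
    rw [h5]
    have h6 : (hL (pc + z) + (pc + z) - (H + pc)) * (cexp (pc + z) - 1) =
        hL (pc + z) * (cexp (pc + z) - 1) + (z - H) * (cexp (pc + z) - 1) := by ring
    rw [h6, this, he]
    ring
  have h3 := den_encl (pc := pc) (z := z) hE hz hr
  have h4 : ‖hR (pc + z) - (H + pc)‖ * ‖cexp (pc + z) - 1‖ ≤
      ‖pc - H * (E - 1)‖ + ‖H‖ * ε + (‖E‖ + ε) * (r * ‖1 - H‖ + r ^ (2 : ℕ) + r ^ (2 : ℕ) * (r + ‖H‖)) := by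
    rw [← norm_mul, h2]
    refine (norm_add_le _ _).trans (add_le_add ((norm_sub_le _ _).trans (add_le_add le_rfl ?_)) ?_)
    · rw [norm_mul]
      exact mul_le_mul_of_nonneg_left hE (norm_nonneg _)
    · rw [norm_mul]
      refine mul_le_mul h1 ((norm_add_le _ _).trans (add_le_add ((norm_add_le _ _).trans (add_le_add ?_ ?_)) ?_))
        (norm_nonneg _) (by positivity)
      · rw [norm_mul]
        exact mul_le_mul_of_nonneg_right hz (norm_nonneg _)
      · rw [norm_pow]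
        exact pow_le_pow_left₀ (norm_nonneg _) hz 2
      · rw [norm_mul]
        exact mul_le_mul hw ((norm_sub_le _ _).trans (add_le_add hz le_rfl)) (norm_nonneg _) (by positivity)
  exact (mul_le_mul_of_nonneg_left h3 (norm_nonneg _)).trans h4

end

end SokamTI

end

/-! ### Lib_MP_af4de1_ti.Box1 -/

section
namespace SokamFU
end SokamFU
/-!
# Intervals of `h_L`, `h_R`, `B`, `G` on a disc
-/

set_option autoImplicit false

namespace SokamTI

open SokamFU Complex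

/-! ### The analytic statement -/

theorem encl_all {E H pc : ℂ} {ε r nH nE n0 n1 nM dL ηL ηR : ℝ} (hE : ‖cexp pc - E‖ ≤ ε)
    (hnH : ‖H‖ ≤ nH) (hnE : ‖E‖ ≤ nE) (hn0 : ‖pc - H * (E - 1)‖ ≤ n0) (hn1 : ‖1 - H * E‖ ≤ n1)
    (hnM : ‖1 - H‖ ≤ nM) (hdL : dL ≤ ‖E - 1‖) (r1 : r ≤ 1)
    (hden : 0 < dL - ε - (nE + ε) * (r + r ^ (2 : ℕ)))
    (hηL : (n0 + nH * ε + r * (n1 + nH * ε) + nH * ((nE + ε) * r ^ (2 : ℕ))) / (dL - ε - (nE + ε) * (r + r ^ (2 : ℕ))) ≤ ηL)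
    (hηR : (n0 + nH * ε + (nE + ε) * (r * nM + r ^ (2 : ℕ) + r ^ (2 : ℕ) * (r + nH))) / (dL - ε - (nE + ε) * (r + r ^ (2 : ℕ))) ≤ ηR)
    (hre : r < pc.re) {p : ℂ} (hp : ‖p - pc‖ ≤ r) :
    0 < p.re ∧ ‖hL p - H‖ ≤ ηL ∧ ‖hR p - (H + pc)‖ ≤ ηR := by
  have hε : 0 ≤ ε := (norm_nonneg _).trans hE
  have r0 : 0 ≤ r := (norm_nonneg _).trans hp
  have hz : pc + (p - pc) = p := by ring
  have hpre : 0 < p.re := by
    have h1 : |(p - pc).re| ≤ r := (abs_re_le_norm _).trans hp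
    rw [sub_re] at h1
    have := (abs_le.1 h1).1
    linarith
  have hden' : dL - ε - (nE + ε) * (r + r ^ (2 : ℕ)) ≤ ‖E - 1‖ - ε - (‖E‖ + ε) * (r + r ^ (2 : ℕ)) := by
    have h1 : (‖E‖ + ε) * (r + r ^ (2 : ℕ)) ≤ (nE + ε) * (r + r ^ (2 : ℕ)) :=
      mul_le_mul_of_nonneg_right (by linarith) (by positivity)
    linarith
  have nH0 : 0 ≤ nH := (norm_nonneg _).trans hnH
  have nE0 : 0 ≤ nE := (norm_nonneg _).trans hnE
  refine ⟨hpre, ?_, ?_⟩
  · have h1 := encl_L (E := E) (H := H) (pc := pc) (z := p - pc) (by rw [hz]; exact hpre.ne') hE hp r1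
    rw [hz] at h1
    refine le_trans ?_ hηL
    rw [le_div_iff₀ hden]
    refine (mul_le_mul_of_nonneg_left hden' (norm_nonneg _)).trans (h1.trans ?_)
    gcongr
  · have h1 := encl_R (E := E) (H := H) (pc := pc) (z := p - pc) (by rw [hz]; exact hpre.ne') hE hp r1
    rw [hz] at h1
    refine le_trans ?_ hηR
    rw [le_div_iff₀ hden]
    refine (mul_le_mul_of_nonneg_left hden' (norm_nonneg _)).trans (h1.trans ?_)
    gcongr

/-- the value at the centre -/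
theorem encl_cen {E H pc : ℂ} {ε nH n0 dL e0 : ℝ} (hE : ‖cexp pc - E‖ ≤ ε)
    (hnH : ‖H‖ ≤ nH) (hn0 : ‖pc - H * (E - 1)‖ ≤ n0) (hdL : dL ≤ ‖E - 1‖)
    (hden : 0 < dL - ε) (he0 : (n0 + nH * ε) / (dL - ε) ≤ e0) (hre : 0 < pc.re) :
    ‖hL pc - H‖ ≤ e0 := by
  have hε : 0 ≤ ε := (norm_nonneg _).trans hE
  have h1 := encl_L (E := E) (H := H) (pc := pc) (z := 0) (r := 0) (by rw [add_zero]; exact hre.ne') hE (by simp)
    (by norm_num)
  rw [add_zero] at h1
  refine le_trans ?_ he0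
  rw [le_div_iff₀ hden]
  have h2 : ‖hL pc - H‖ * (dL - ε) ≤ ‖hL pc - H‖ * (‖E - 1‖ - ε) :=
    mul_le_mul_of_nonneg_left (by linarith) (norm_nonneg _)
  have h3 : ‖H‖ * ε ≤ nH * ε := mul_le_mul_of_nonneg_right hnH hε
  nlinarith

theorem Bp_encl {H pc : ℂ} {r nM nR ηL ηR e0 nP : ℝ} (hnM : ‖1 - H‖ ≤ nM) (hnR : ‖1 - (H + pc)‖ ≤ nR)
    (h : ∀ p : ℂ, ‖p - pc‖ ≤ r → 0 < p.re ∧ ‖hL p - H‖ ≤ ηL ∧ ‖hR p - (H + pc)‖ ≤ ηR)
    (h0 : ‖hL pc - H‖ ≤ e0) (hP : ‖pc‖ ≤ nP) {p : ℂ} (hp : ‖p - pc‖ ≤ r) :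
    ‖Bp p - pc * ((H + (H + pc)) / 2 - 1)‖ ≤ (nM + ηL) * (nR + ηR) * r + nP * e0 := by
  have r0 : 0 ≤ r := (norm_nonneg _).trans hp
  have hpc := h pc (by rw [sub_self, norm_zero]; exact r0)
  have hG : ∀ x ∈ Metric.closedBall pc r, ‖-((1 - hL x) * (1 - hR x))‖ ≤ (nM + ηL) * (nR + ηR) := by
    intro x hx
    rw [mem_closedBall_iff_norm] at hx
    obtain ⟨-, h1, h2⟩ := h x hx
    rw [norm_neg, norm_mul]
    have h3 : ‖1 - hL x‖ ≤ nM + ηL := by
      calc ‖1 - hL x‖ = ‖(1 - H) - (hL x - H)‖ := by congr 1; ring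
        _ ≤ _ := norm_sub_le _ _
        _ ≤ _ := add_le_add hnM h1
    have h4 : ‖1 - hR x‖ ≤ nR + ηR := by
      calc ‖1 - hR x‖ = ‖(1 - (H + pc)) - (hR x - (H + pc))‖ := by congr 1; ring
        _ ≤ _ := norm_sub_le _ _
        _ ≤ _ := add_le_add hnR h2
    exact mul_le_mul h3 h4 (norm_nonneg _) ((norm_nonneg _).trans h3)
  have hmv : ‖Bp p - Bp pc‖ ≤ (nM + ηL) * (nR + ηR) * ‖p - pc‖ := by
    refine Convex.norm_image_sub_le_of_norm_hasDerivWithin_le (s := Metric.closedBall pc r)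
      (f' := fun x => -((1 - hL x) * (1 - hR x))) ?_ hG (convex_closedBall _ _) ?_ ?_
    · intro x hx
      rw [mem_closedBall_iff_norm] at hx
      exact (hasDerivAt_Bp (h x hx).1.ne').hasDerivWithinAt
    · exact Metric.mem_closedBall_self r0
    · rw [mem_closedBall_iff_norm]; exact hp
  have hC : 0 ≤ (nM + ηL) * (nR + ηR) := (norm_nonneg _).trans (hG pc (Metric.mem_closedBall_self r0))
  have hcen : ‖Bp pc - pc * ((H + (H + pc)) / 2 - 1)‖ ≤ nP * e0 := by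
    have h1 : hR pc = hL pc + pc := by linear_combination hR_sub_hL hpc.1.ne'
    have h2 : Bp pc - pc * ((H + (H + pc)) / 2 - 1) = pc * (hL pc - H) := by
      unfold Bp
      rw [h1]
      ring
    rw [h2, norm_mul]
    exact mul_le_mul hP h0 (norm_nonneg _) ((norm_nonneg _).trans hP)
  calc ‖Bp p - pc * ((H + (H + pc)) / 2 - 1)‖ = ‖(Bp p - Bp pc) + (Bp pc - pc * ((H + (H + pc)) / 2 - 1))‖ := by
        congr 1; ring
    _ ≤ _ := norm_add_le _ _
    _ ≤ (nM + ηL) * (nR + ηR) * r + nP * e0 := by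
        refine add_le_add (hmv.trans ?_) hcen
        exact mul_le_mul_of_nonneg_left hp hC

/-! ### The intervals -/

/-- rational bounds on a disc -/
structure Iv where
  hL1 : ℚ
  hL2 : ℚ
  aL1 : ℚ
  aL2 : ℚ
  sL1 : ℚ
  mL1 : ℚ
  mL2 : ℚ
  hR2 : ℚ
  aR1 : ℚ
  sR1 : ℚ
  sR2 : ℚ
  mR1 : ℚ
  mR2 : ℚ
  bx1 : ℚ
  bx2 : ℚ
  by1 : ℚ
  by2 : ℚ
  gx1 : ℚ
  gx2 : ℚ
  gy1 : ℚ
  gy2 : ℚ

/-- the bounds hold at `p` -/
structure Iv.Ok (I : Iv) (p : ℂ) : Prop where
  pos : 0 < p.re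
  hL1 : (I.hL1 : ℝ) ≤ ‖hL p‖
  hL2 : ‖hL p‖ ≤ I.hL2
  aL1 : (I.aL1 : ℝ) ≤ (hL p).re
  aL2 : (hL p).re ≤ I.aL2
  sL1 : (I.sL1 : ℝ) ≤ -(hL p).im
  mL1 : (I.mL1 : ℝ) ≤ ‖1 - hL p‖
  mL2 : ‖1 - hL p‖ ≤ I.mL2
  hR2 : ‖hR p‖ ≤ I.hR2
  aR1 : (I.aR1 : ℝ) ≤ (hR p).re
  sR1 : (I.sR1 : ℝ) ≤ (hR p).im
  sR2 : (hR p).im ≤ I.sR2
  mR1 : (I.mR1 : ℝ) ≤ ‖1 - hR p‖
  mR2 : ‖1 - hR p‖ ≤ I.mR2
  bx1 : (I.bx1 : ℝ) ≤ (Bp p).re
  bx2 : (Bp p).re ≤ I.bx2
  by1 : (I.by1 : ℝ) ≤ (Bp p).im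
  by2 : (Bp p).im ≤ I.by2
  gx1 : (I.gx1 : ℝ) ≤ ((1 - hL p) * (1 - hR p)).re
  gx2 : ((1 - hL p) * (1 - hR p)).re ≤ I.gx2
  gy1 : (I.gy1 : ℝ) ≤ ((1 - hL p) * (1 - hR p)).im
  gy2 : ((1 - hL p) * (1 - hR p)).im ≤ I.gy2

/-- the final record -/
def mkI (px py r hx hy nH nM nR eL eR e0 : ℚ) : Iv :=
  let Hx := hx + px
  let Hy := hy + py
  let qx := (hx + Hx) / 2 - 1
  let qy := (hy + Hy) / 2
  let eB := (nM + eL) * (nR + eR) * r + nrU px py * e0
  let bx := px * qx - py * qy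
  let bY := px * qy + py * qx
  let eG := eL * nR + eR * nM + eL * eR
  let gx := (1 - hx) * (1 - Hx) - hy * Hy
  let gy := -((1 - hx) * Hy) - hy * (1 - Hx)
  ⟨nrL hx hy - eL, nH + eL, hx - eL, hx + eL, -hy - eL, nrL (1 - hx) hy - eL, nM + eL, nrU Hx Hy + eR, Hx - eR,
    Hy - eR, Hy + eR, nrL (1 - Hx) Hy - eR, nR + eR, bx - eB, bx + eB, bY - eB, bY + eB, gx - eG, gx + eG, gy - eG, gy + eG⟩

/-- second stage: the centre `p = (px, py)`, `E = (ex, ey)`, `H = (hx, hy)` -/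
def mkH (px py r ex ey hx hy : ℚ) (k : Iv → Bool) : Bool :=
  let ε : ℚ := mkRat 1 4294967296
  let nH := nrU hx hy
  let nE := nrU ex ey
  let n0 := nrU (px - (hx * (ex - 1) - hy * ey)) (py - (hx * ey + hy * (ex - 1)))
  let n1 := nrU (1 - (hx * ex - hy * ey)) (hx * ey + hy * ex)
  let nM := nrU (1 - hx) hy
  let dL := nrL (ex - 1) ey
  let den := dL - ε - (nE + ε) * (r + r * r)
  decide (0 < den) && decide (0 < dL - ε) && decide (r < px) && decide (r ≤ 1) &&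
    k (mkI px py r hx hy nH nM (nrU (1 - (hx + px)) (hy + py))
      (rU ((n0 + nH * ε + r * (n1 + nH * ε) + nH * ((nE + ε) * (r * r))) / den))
      (rU ((n0 + nH * ε + (nE + ε) * (r * nM + r * r + r * r * (r + nH))) / den))
      (rU ((n0 + nH * ε) / (dL - ε))))

/-- first stage -/
def mkE (px py r ex ey : ℚ) (k : Iv → Bool) : Bool :=
  let dx := ex - 1
  let dd := dx * dx + ey * ey
  mkH px py r ex ey (rL ((px * dx + py * ey) / dd)) (rL ((py * dx - px * ey) / dd)) k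

/-- the intervals on the disc with the centre `(a + ib) / 2^20` and the radius `r` -/
def mkIv (a b : ℤ) (r : ℚ) (k : Iv → Bool) : Bool :=
  decide (a * a + b * b ≤ 22265110462464) &&
    mkE (mkRat a 1048576) (mkRat b 1048576) r (mkRat (cEf a b).1 1099511627776) (mkRat (cEf a b).2 1099511627776) k

end SokamTI

end

/-! ### Lib_MP_af4de1_ti.Box3 -/

section
/-!
# The tests of the tip certificate
-/

set_option autoImplicit false

namespace SokamTI

/-- (G1), (G2); `v1 ≤ Im p`, `Re p ≤ u2` -/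
def tG (v1 u2 : ℚ) (I : Iv) : Bool :=
  decide (0 < I.gx1) && decide (I.gy2 < 0) && decide (u2 * I.gx2 < v1 * (-I.gy2))

/-- `|w| > 1` -/
def tw (I : Iv) : Bool :=
  decide (I.aL2 ≤ 0) &&
    decide (24 < I.hL1 * (24 + 24 * (-I.aL2) + 12 * (I.aL2 * I.aL2) + 4 * (-I.aL2) * (I.aL2 * I.aL2) +
      (I.aL2 * I.aL2) * (I.aL2 * I.aL2)))

/-- upper bound of `δ` -/
def dmx (I : Iv) : ℚ := min (2 / 25) (rU (-I.bx1 * 10000 / 31415))

def relLU (I : Iv) (dm : ℚ) : ℚ := rU (599 / 1000 * I.hL2 * sqU (I.mL2 * dm) / (I.sL1 * I.sL1))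

def bLU (I : Iv) (dm sd rl : ℚ) : ℚ :=
  I.hL2 / sqL I.mL1 * (dm / (2 * (I.sL1 * sqL I.sL1)) + 399 / 1000 * (dm * sd) / (I.sL1 * I.sL1)) / (1 - rl)

def q1 (I : Iv) : ℚ := rL (min (433 / 1000 * (I.aR1 - 1)) (4331 / 10000 * (I.aR1 - 1)) + I.sR1 / 4)

def x1 (I : Iv) : ℚ := rL (I.sR1 / I.hR2)

def tfUq (dm q x : ℚ) : ℚ := rU (47 / 10 * (dm / (4 * q * (x * x))) ^ (4 : ℕ))

def relRU (I : Iv) (dm sd q x Sq t : ℚ) : ℚ :=
  rU (399 / 1000 * I.hR2 * sqU (I.mR2 * dm) * (100 / (243 * (I.sR1 * I.sR1)) + (1 + 27 / 100 * Sq) / (12 * (q * q))) +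
      t * sqU I.mR2 * (3 / 5 / sqL x + 1 / 10 * sd / (q * x)))

def bRU (I : Iv) (dm sd q x Sq t rr : ℚ) : ℚ :=
  (I.hR2 / sqL I.mR1 * (59 / 200 * dm / (I.sR1 * sqL I.sR1) + 177 / 2000 * dm * (1 + 3 / 10 * Sq) / (q * sqL q)) +
      t * (2 / 5 * sd / sqL I.mR1 + 27 / 20 * sqU I.mR2 + 11 / 20 * sqU I.mR2 * sd / x)) / (1 - rr)

/-- stage 3 -/
def tB3 (I : Iv) (dm sd q x Sq t rl rr : ℚ) (k : ℚ → ℚ → ℚ → ℚ → ℚ → Bool) : Bool :=
  decide (rl < 1) && decide (rr < 1) && k dm rl rr (bLU I dm sd rl) (bRU I dm sd q x Sq t rr)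

/-- stage 2 -/
def tB2 (I : Iv) (dm sd q x Sq t : ℚ) (k : ℚ → ℚ → ℚ → ℚ → ℚ → Bool) : Bool :=
  tB3 I dm sd q x Sq t (relLU I dm) (relRU I dm sd q x Sq t) k

/-- the bounds -/
def tB (I : Iv) (k : ℚ → ℚ → ℚ → ℚ → ℚ → Bool) : Bool :=
  decide (0 < I.sL1) && decide (0 < sqL I.sL1) && decide (0 < sqL I.mL1) && decide (0 < I.sR1) &&
    decide (0 < sqL I.sR1) && decide (0 < sqL I.mR1) && decide (0 < q1 I) && decide (0 < sqL (q1 I)) &&
    decide (0 < x1 I) && decide (0 < sqL (x1 I)) &&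
    tB2 I (dmx I) (sqU (dmx I)) (q1 I) (x1 I) (sqU (dmx I / q1 I)) (tfUq (dmx I) (q1 I) (x1 I)) k

/-- pointwise conditions and the inner end; `u1 ≤ Re p` -/
def tP (u1 : ℚ) (I : Iv) : Bool :=
  decide (97 / 100 ≤ I.aR1) && decide (I.sR2 ≤ 5 * I.aR1) && decide (3154 * I.sR2 ≤ 9489 * I.aR1) &&
    (decide (5 / 4 ≤ I.sR1) || decide (3 - I.sR1 * I.sR1 ≤ 3 * I.aR1)) &&
    tB I (fun dm rl rr bl br => decide (24 / 5 * dm ≤ I.sL1) && decide (bl + br < u1) &&
      (decide (1257 / 5000 < -I.bx2) ||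
        (decide (2 * (rl * rl) ≤ 1) && decide (2 * (rr * rr) ≤ 1) &&
          decide (3 / 5 * (1 - I.aL1) - 4 / 5 * I.sL1 < (1 - 2 * (rl * rl)) * I.mL1) &&
          decide (4 / 5 * I.sR2 - 3 / 5 * (I.aR1 - 1) < (1 - 2 * (rr * rr)) * I.mR1))))

/-- `1/24`-multiple of the Taylor polynomial of the exponential -/
def e4 (z : ℚ) : ℚ := 24 + 24 * z + 12 * (z * z) + 4 * (z * (z * z)) + (z * z) * (z * z)

/-- the left side -/
def tL (I : Iv) : Bool :=
  decide (I.by2 < 0) && tB I (fun dm rl rr _ _ => decide (0 < dm) &&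
    decide (24 * ((1 + rl) * sqU I.mR2) < (1 - rr) * sqL I.mL1 * e4 (rL (-I.by2 / dm))))

/-- the right side -/
def tR (I : Iv) : Bool :=
  decide (0 < I.by1) && tB I (fun dm rl rr _ _ => decide (0 < dm) &&
    decide (24 * ((1 + rr) * sqU I.mL2) < (1 - rl) * sqL I.mR1 * e4 (rL (I.by1 / dm))))

/-- (W3) on the left side -/
def tW (I : Iv) : Bool :=
  decide (I.hL2 < 1 + I.aL1) ||
    (decide (I.bx2 ≤ -1257 / 5000) && decide (2 < I.sR1) && decide (0 < I.aR1) && decide (3154 * I.sR2 ≤ 9489 * I.aR1))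

/-! ### Discs -/

/-- the disc around the rectangle `[u1, u2] × [v1, v2]` (scale `2^10`) -/
def rect (u1 u2 v1 v2 : ℤ) (k : Iv → Bool) : Bool :=
  mkIv (512 * (u1 + u2)) (512 * (v1 + v2)) (sqU (mkRat ((u2 - u1) * (u2 - u1) + (v2 - v1) * (v2 - v1)) 4194304)) k

/-- test of a rectangle -/
def cell (u1 u2 v1 v2 : ℤ) : Bool :=
  rect u1 u2 v1 v2 (fun I => tG (mkRat v1 1024) (mkRat u2 1024) I && (tw I || tP (mkRat u1 1024) I))

/-- a chain of tests -/
def segs (t : ℤ → ℤ → Bool) : ℤ → List ℤ → Bool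
  | _, [] => true
  | a, b :: l => t a b && segs t b l

/-- last point -/
def lastI : ℤ → List ℤ → ℤ
  | a, [] => a
  | _, b :: l => lastI b l

/-- a strip `(v1, v2, u0, us)`: rectangles `[u_i, u_(i+1)] × [v1, v2]`, `u0 ≤ 2 v1 / 5`, `last ≥ U(v2)` -/
def strip (v1 v2 u0 : ℤ) (us : List ℤ) : Bool :=
  decide (5 * u0 ≤ 2 * v1) && (decide (4 * v2 ≤ 5 * lastI u0 us) || decide (22 * v2 + 95028 ≤ 100 * lastI u0 us)) &&
    segs (fun u u' => cell u u' v1 v2) u0 us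

/-- a list of strips from `v` on -/
def strips : ℤ → List (ℤ × ℤ × List ℤ) → Bool
  | _, [] => true
  | v, (v', u0, us) :: l => strip v v' u0 us && strips v' l

/-- last point of a list of strips -/
def lastS : ℤ → List (ℤ × ℤ × List ℤ) → ℤ
  | v, [] => v
  | _, (v', _, _) :: l => lastS v' l

/-- left segment `p = v (2/5 + i)`, `v ∈ [v1, v2] / 1024` -/
def segL (v1 v2 : ℤ) : Bool :=
  mkIv (1024 * (v1 + v2) / 5) (512 * (v1 + v2)) (mkRat (10771 * (v2 - v1)) 20480000 + mkRat 1 1048576)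
    (fun I => tw I || (tL I && tW I))

/-- lower right segment `p = v (4/5 + i)` -/
def segR (v1 v2 : ℤ) : Bool :=
  mkIv (2048 * (v1 + v2) / 5) (512 * (v1 + v2)) (mkRat (12807 * (v2 - v1)) 20480000 + mkRat 1 1048576)
    (fun I => tw I || tR I)

/-- upper right segment `p = 116/125 + (11/50) v + i v` -/
def segU (v1 v2 : ℤ) : Bool :=
  mkIv ((97307853 + 11264 * (v1 + v2)) / 100) (512 * (v1 + v2)) (mkRat (10240 * (v2 - v1)) 20480000 + mkRat 1 1048576)
    (fun I => tw I || tR I)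

/-- the top `v = 19/5` -/
def segT (u1 u2 : ℤ) : Bool := rect u1 u2 3891 3892 tw

end SokamTI

end

/-! ### Lib_MP_af4de1_ti.Box5a -/

section
namespace SokamFU
end SokamFU
/-!
# The discs of the certificate contain the rectangles and the segments
-/

set_option autoImplicit false

namespace SokamTI

open SokamFU Complex

theorem rect_mem {u1 u2 v1 v2 : ℤ} {p : ℂ} (h1 : (u1 : ℝ) / 1024 ≤ p.re) (h2 : p.re ≤ (u2 : ℝ) / 1024)
    (h3 : (v1 : ℝ) / 1024 ≤ p.im) (h4 : p.im ≤ (v2 : ℝ) / 1024) :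
    ‖p - qc (mkRat (512 * (u1 + u2)) 1048576) (mkRat (512 * (v1 + v2)) 1048576)‖ ≤
      ((sqU (mkRat ((u2 - u1) * (u2 - u1) + (v2 - v1) * (v2 - v1)) 4194304) : ℚ) : ℝ) := by
  have e : ‖p - qc (mkRat (512 * (u1 + u2)) 1048576) (mkRat (512 * (v1 + v2)) 1048576)‖ =
      √((p.re - ((u1 : ℝ) + u2) / 2048) ^ (2 : ℕ) + (p.im - ((v1 : ℝ) + v2) / 2048) ^ (2 : ℕ)) := by
    rw [Complex.norm_eq_sqrt_sq_add_sq]
    congr 2
    · congr 1
      rw [Complex.sub_re, qc_re, Rat.mkRat_eq_div]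
      push_cast
      ring
    · congr 1
      rw [Complex.sub_im, qc_im, Rat.mkRat_eq_div]
      push_cast
      ring
  rw [e]
  refine sqU_spec ?_
  rw [Rat.mkRat_eq_div]
  push_cast
  have a1 : (p.re - ((u1 : ℝ) + u2) / 2048) ^ (2 : ℕ) ≤ (((u2 : ℝ) - u1) / 2048) ^ (2 : ℕ) := by
    refine sq_le_sq' ?_ ?_ <;> linarith
  have a2 : (p.im - ((v1 : ℝ) + v2) / 2048) ^ (2 : ℕ) ≤ (((v2 : ℝ) - v1) / 2048) ^ (2 : ℕ) := by
    refine sq_le_sq' ?_ ?_ <;> linarith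
  refine (add_le_add a1 a2).trans (le_of_eq ?_)
  ring

/-- the discs on a line -/
theorem line_mem {v1 v2 cr K : ℤ} {s c0 : ℝ} {p : ℂ} (h : p.re = c0 + s * p.im)
    (h3 : (v1 : ℝ) / 1024 ≤ p.im) (h4 : p.im ≤ (v2 : ℝ) / 1024)
    (hc : |c0 + s * (((v1 : ℝ) + v2) / 2048) - (cr : ℝ) / 1048576| ≤ 1 / 1048576) (hK : 0 ≤ K)
    (hs : 1 + s ^ (2 : ℕ) ≤ ((K : ℝ) / 10000) ^ (2 : ℕ)) :
    ‖p - qc (mkRat cr 1048576) (mkRat (512 * (v1 + v2)) 1048576)‖ ≤
      ((mkRat (K * (v2 - v1)) 20480000 + mkRat 1 1048576 : ℚ) : ℝ) := by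
  have hK' : (0 : ℝ) ≤ (K : ℝ) := by exact_mod_cast hK
  have e : p - qc (mkRat cr 1048576) (mkRat (512 * (v1 + v2)) 1048576) =
      ((p.im - ((v1 : ℝ) + v2) / 2048 : ℝ) : ℂ) * (⟨s, 1⟩ : ℂ) +
      ((c0 + s * (((v1 : ℝ) + v2) / 2048) - (cr : ℝ) / 1048576 : ℝ) : ℂ) := by
    apply Complex.ext
    · rw [Complex.sub_re, qc_re, Rat.mkRat_eq_div, Complex.add_re, Complex.re_ofReal_mul, Complex.ofReal_re, h]
      push_cast
      ring
    · rw [Complex.sub_im, qc_im, Rat.mkRat_eq_div, Complex.add_im, Complex.im_ofReal_mul, Complex.ofReal_im]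
      push_cast
      ring
  have n1 : ‖(⟨s, 1⟩ : ℂ)‖ ≤ (K : ℝ) / 10000 := by
    rw [Complex.norm_eq_sqrt_sq_add_sq]
    refine Real.sqrt_le_iff.2 ⟨by positivity, ?_⟩
    show s ^ (2 : ℕ) + 1 ^ (2 : ℕ) ≤ _
    linarith
  have n2 : ‖((p.im - ((v1 : ℝ) + v2) / 2048 : ℝ) : ℂ)‖ ≤ ((v2 : ℝ) - v1) / 2048 := by
    rw [Complex.norm_real, Real.norm_eq_abs, abs_le]
    constructor <;> linarith
  have n3 : ‖((c0 + s * (((v1 : ℝ) + v2) / 2048) - (cr : ℝ) / 1048576 : ℝ) : ℂ)‖ ≤ 1 / 1048576 := by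
    rw [Complex.norm_real, Real.norm_eq_abs]
    exact hc
  have n4 := mul_le_mul n2 n1 (norm_nonneg _) ((norm_nonneg _).trans n2)
  rw [e]
  refine (norm_add_le _ _).trans ?_
  rw [norm_mul]
  refine (add_le_add n4 n3).trans (le_of_eq ?_)
  rw [Rat.mkRat_eq_div, Rat.mkRat_eq_div]
  push_cast
  ring

theorem segL_mem {v1 v2 : ℤ} {p : ℂ} (h : p.re = 2 / 5 * p.im)
    (h3 : (v1 : ℝ) / 1024 ≤ p.im) (h4 : p.im ≤ (v2 : ℝ) / 1024) :
    ‖p - qc (mkRat (1024 * (v1 + v2) / 5) 1048576) (mkRat (512 * (v1 + v2)) 1048576)‖ ≤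
      ((mkRat (10771 * (v2 - v1)) 20480000 + mkRat 1 1048576 : ℚ) : ℝ) := by
  refine line_mem (s := 2 / 5) (c0 := 0) (by rw [h]; ring) h3 h4 ?_ (by norm_num) (by norm_num)
  have a1 : 1024 * (v1 + v2) / 5 * 5 ≤ 1024 * (v1 + v2) := Int.ediv_mul_le _ (by norm_num)
  have a2 : 1024 * (v1 + v2) < (1024 * (v1 + v2) / 5 + 1) * 5 := Int.lt_ediv_add_one_mul_self _ (by norm_num)
  have b1 : ((1024 * (v1 + v2) / 5 : ℤ) : ℝ) * 5 ≤ 1024 * ((v1 : ℝ) + v2) := by exact_mod_cast a1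
  have b2 : 1024 * ((v1 : ℝ) + v2) < (((1024 * (v1 + v2) / 5 : ℤ) : ℝ) + 1) * 5 := by exact_mod_cast a2
  rw [abs_le]
  constructor <;> linarith

theorem segR_mem {v1 v2 : ℤ} {p : ℂ} (h : p.re = 4 / 5 * p.im)
    (h3 : (v1 : ℝ) / 1024 ≤ p.im) (h4 : p.im ≤ (v2 : ℝ) / 1024) :
    ‖p - qc (mkRat (2048 * (v1 + v2) / 5) 1048576) (mkRat (512 * (v1 + v2)) 1048576)‖ ≤
      ((mkRat (12807 * (v2 - v1)) 20480000 + mkRat 1 1048576 : ℚ) : ℝ) := by
  refine line_mem (s := 4 / 5) (c0 := 0) (by rw [h]; ring) h3 h4 ?_ (by norm_num) (by norm_num)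
  have a1 : 2048 * (v1 + v2) / 5 * 5 ≤ 2048 * (v1 + v2) := Int.ediv_mul_le _ (by norm_num)
  have a2 : 2048 * (v1 + v2) < (2048 * (v1 + v2) / 5 + 1) * 5 := Int.lt_ediv_add_one_mul_self _ (by norm_num)
  have b1 : ((2048 * (v1 + v2) / 5 : ℤ) : ℝ) * 5 ≤ 2048 * ((v1 : ℝ) + v2) := by exact_mod_cast a1
  have b2 : 2048 * ((v1 : ℝ) + v2) < (((2048 * (v1 + v2) / 5 : ℤ) : ℝ) + 1) * 5 := by exact_mod_cast a2
  rw [abs_le]
  constructor <;> linarith

theorem segU_mem {v1 v2 : ℤ} {p : ℂ} (h : p.re = 32 / 25 + 11 / 50 * (p.im - 8 / 5))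
    (h3 : (v1 : ℝ) / 1024 ≤ p.im) (h4 : p.im ≤ (v2 : ℝ) / 1024) :
    ‖p - qc (mkRat ((97307853 + 11264 * (v1 + v2)) / 100) 1048576) (mkRat (512 * (v1 + v2)) 1048576)‖ ≤
      ((mkRat (10240 * (v2 - v1)) 20480000 + mkRat 1 1048576 : ℚ) : ℝ) := by
  refine line_mem (s := 11 / 50) (c0 := 116 / 125) (by rw [h]; ring) h3 h4 ?_ (by norm_num) (by norm_num)
  have a1 : (97307853 + 11264 * (v1 + v2)) / 100 * 100 ≤ 97307853 + 11264 * (v1 + v2) :=
    Int.ediv_mul_le _ (by norm_num)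
  have a2 : 97307853 + 11264 * (v1 + v2) < ((97307853 + 11264 * (v1 + v2)) / 100 + 1) * 100 :=
    Int.lt_ediv_add_one_mul_self _ (by norm_num)
  have a3 : 97307853 + 11264 * (v1 + v2) + 1 ≤ ((97307853 + 11264 * (v1 + v2)) / 100 + 1) * 100 := a2
  have b1 : (((97307853 + 11264 * (v1 + v2)) / 100 : ℤ) : ℝ) * 100 ≤ 97307853 + 11264 * ((v1 : ℝ) + v2) := by
    exact_mod_cast a1
  have b2 : 97307853 + 11264 * ((v1 : ℝ) + v2) + 1 ≤ ((((97307853 + 11264 * (v1 + v2)) / 100 : ℤ) : ℝ) + 1) * 100 := by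
    exact_mod_cast a3
  rw [abs_le]
  constructor <;> linarith

end SokamTI

end

/-! ### Lib_MP_af4de1_ti.CertD0 -/

section
/-!
# Tip certificate: strips, part 0
-/

set_option autoImplicit false

namespace SokamTI

/-- strips from `204 / 1024` to `476 / 1024` -/
def sd0 : List (ℤ × ℤ × List ℤ) := [
  (220, 81, [98, 118, 140, 165, 176]),
  (244, 88, [101, 116, 132, 151, 171, 194, 196]),
  (268, 97, [113, 131, 151, 174, 200, 215]),
  (292, 107, [127, 149, 175, 202, 234]),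
  (316, 116, [140, 166, 195, 227, 253]),
  (348, 126, [146, 168, 193, 219, 249, 279]),
  (380, 139, [163, 190, 221, 255, 290, 304]),
  (412, 152, [180, 212, 247, 284, 326, 330]),
  (444, 164, [195, 230, 268, 310, 356]),
  (476, 177, [212, 250, 293, 339, 381])]

theorem sd0_ok : strips 204 sd0 = true := by decide +kernel

theorem sd0_last : lastS 204 sd0 = 476 := by decide +kernel

end SokamTI

end

/-! ### Lib_MP_af4de1_ti.CertD1 -/

section
/-!
# Tip certificate: strips, part 1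
-/

set_option autoImplicit false

namespace SokamTI

/-- strips from `476 / 1024` to `892 / 1024` -/
def sd1 : List (ℤ × ℤ × List ℤ) := [
  (508, 190, [228, 268, 313, 362, 407]),
  (556, 203, [229, 258, 290, 327, 368, 412, 445]),
  (604, 222, [252, 287, 325, 366, 411, 460, 484]),
  (652, 241, [274, 312, 352, 397, 446, 501, 522]),
  (700, 260, [299, 341, 386, 435, 488, 549, 560]),
  (748, 280, [322, 368, 417, 470, 528, 589, 599]),
  (796, 299, [341, 387, 440, 497, 556, 620, 637]),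
  (844, 318, [360, 410, 464, 521, 582, 645, 676]),
  (892, 337, [383, 433, 487, 544, 606, 673, 714])]

theorem sd1_ok : strips 476 sd1 = true := by decide +kernel

theorem sd1_last : lastS 476 sd1 = 892 := by decide +kernel

end SokamTI

end
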