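import Pool.Agent.Lib_MP_af4de1_zy.Z54

/-! ### Lib_MP_af4de1_f1.TG9 -/

section
namespace SokamF1S
end SokamF1S
/-!
# [FT-G9] gap, N = 2
(see `TopGapD.lean` for the curve and its one variable descriptions)

Upper bounds of `ph` at the base come from the dual trial values: for every `v`
`ρ ph(y) + v η(y) ≤ x(v) + v (ψ(v) + ρ)` (`tg9_phi_le`). Lower bounds at `y` from `ph_trial` with
`c = 1 - η/ρ`.

Numbers (ph at 60° / -120°, ph at -60° / 120°): rho 2.5: .922/.735, .929/.691; 3: .942/.808, .949/.763;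
3.5: .956/.854, .961/.816; 4: .966/.886, .970/.855; 4.5: .973/.908, .976/.884.
-/

set_option autoImplicit false

namespace SokamF1T

open SokamF1S Set

theorem tg9_neg {ρ b : ℝ} (h : Dom ρ b) (h1 : -1 ≤ b) (h0 : b ≤ 0) : sE ρ b ≤ 0 := by
  have := (sE_strictMonoOn h (dom_zero h.1) h1).monotoneOn (left_mem_Icc.2 h0)
    (right_mem_Icc.2 h0) h0
  rwa [sE_zero h.1] at this

theorem tg9_pos {ρ b : ℝ} (h : Dom ρ b) (h0 : 0 ≤ b) : 0 ≤ sE ρ b := by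
  have := (sE_strictMonoOn (dom_zero h.1) h (by norm_num)).monotoneOn (left_mem_Icc.2 h0)
    (right_mem_Icc.2 h0) h0
  rwa [sE_zero h.1] at this

/-- the tangent lines of `ρ ph` as a function of `η` lie above it -/
theorem tg9_phi_le {ρ b v : ℝ} (hb : Dom ρ b) (hv : Dom ρ v) (hb1 : -1 ≤ b) (hv1 : -1 ≤ v) :
    sx ρ b * (1 + b) + v * sE ρ b ≤ sx ρ v * (1 + v) + v * sE ρ v := by
  have hcont : Continuous (fun y => sx ρ y * (1 + y) + v * sE ρ y) :=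
    ((continuous_sx ρ).mul (continuous_const.add continuous_id)).add
      (continuous_const.mul (continuous_sE ρ))
  have hder : ∀ y, |y| * Real.exp y < ρ → HasDerivAt (fun y => sx ρ y * (1 + y) + v * sE ρ y)
      ((v - y) * (sD2 ρ y / sx ρ y)) y := by
    intro y hy
    refine ((hasDerivAt_sPhi hb.1 hy).add ((hasDerivAt_sE hb.1 hy).const_mul v)).congr_deriv ?_
    ring
  rcases le_total b v with h | h
  · have hm : MonotoneOn (fun y => sx ρ y * (1 + y) + v * sE ρ y) (Icc b v) := by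
      refine monotoneOn_of_deriv_nonneg (convex_Icc _ _) hcont.continuousOn ?_ ?_
      · intro y hy
        rw [interior_Icc] at hy
        exact (hder y (dom_between hb hv hb1 hy)).differentiableAt.differentiableWithinAt
      · intro y hy
        rw [interior_Icc] at hy
        have h1 := dom_between hb hv hb1 hy
        rw [(hder y h1).deriv]
        exact mul_nonneg (by linarith only [hy.2])
          (div_pos (sD2_pos (by linarith only [hb1, hy.1])) (sx_pos hb.1 h1)).le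
    exact hm (left_mem_Icc.2 h) (right_mem_Icc.2 h) h
  · have hm : AntitoneOn (fun y => sx ρ y * (1 + y) + v * sE ρ y) (Icc v b) := by
      refine antitoneOn_of_deriv_nonpos (convex_Icc _ _) hcont.continuousOn ?_ ?_
      · intro y hy
        rw [interior_Icc] at hy
        exact (hder y (dom_between hv hb hv1 hy)).differentiableAt.differentiableWithinAt
      · intro y hy
        rw [interior_Icc] at hy
        have h1 := dom_between hv hb hv1 hy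
        rw [(hder y h1).deriv]
        exact mul_nonpos_of_nonpos_of_nonneg (by linarith only [hy.1])
          (div_pos (sD2_pos (by linarith only [hv1, hy.1])) (sx_pos hb.1 h1)).le
    exact hm (left_mem_Icc.2 h) (right_mem_Icc.2 h) h

theorem tg9_cos {p : ℝ} (h : |p| ≤ Real.pi / 2) :
    Real.cos p + p * Real.sin p ≤ 1 + p ^ (2 : ℕ) / 2 := by
  have h1 := Real.cos_two_mul (p / 2)
  have h2 := Real.sin_two_mul (p / 2)
  have e : 2 * (p / 2) = p := by ring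
  rw [e] at h1 h2
  have h3 := Real.sin_sq_add_cos_sq (p / 2)
  have hpi := Real.pi_pos
  have hp := abs_le.1 h
  have h4 : 0 ≤ p * Real.sin (p / 2) := by
    rcases le_total 0 p with hp0 | hp0
    · exact mul_nonneg hp0 (Real.sin_nonneg_of_nonneg_of_le_pi (by linarith only [hp0]) (by linarith only [hp]))
    · exact mul_nonneg_of_nonpos_of_nonpos hp0
        (Real.sin_nonpos_of_nonpos_of_neg_pi_le (by linarith only [hp0]) (by linarith only [hp]))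
  have h5 : Real.cos (p / 2) ≤ 1 := Real.cos_le_one _
  have h6 := mul_le_mul_of_nonneg_left h5 h4
  have h7 := sq_nonneg (p / 2 - Real.sin (p / 2))
  rw [h1, h2]
  linarith only [h3, h6, h7]

theorem tg9_arcsin {s : ℝ} (h : |s| ≤ 9 / 20) : Real.arcsin s ^ (2 : ℕ) ≤ 23 / 20 * s ^ (2 : ℕ) := by
  have key : ∀ z : ℝ, 0 ≤ z → z ≤ 9 / 20 →
      0 ≤ Real.arcsin z ∧ Real.arcsin z ≤ 107 / 100 * z := by
    intro z h0 h1
    refine ⟨Real.arcsin_nonneg.2 h0, ?_⟩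
    rcases h0.eq_or_lt with h | h
    · rw [← h]; simp
    have hpi := Real.pi_gt_three
    rw [Real.arcsin_le_iff_le_sin' ⟨by linarith only [h, hpi], by linarith only [h1, hpi]⟩]
    have h3 := Real.sin_gt_sub_cube (x := 107 / 100 * z) (by linarith only [h])
    have h4 : z ^ (2 : ℕ) ≤ (9 / 20) ^ (2 : ℕ) := pow_le_pow_left₀ h0 h1 2
    nlinarith only [h, h3, h4]
  have key2 : ∀ z : ℝ, 0 ≤ z → z ≤ 9 / 20 → Real.arcsin z ^ (2 : ℕ) ≤ 23 / 20 * z ^ (2 : ℕ) := by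
    intro z h0 h1
    obtain ⟨a1, a2⟩ := key z h0 h1
    have := pow_le_pow_left₀ a1 a2 2
    nlinarith only [this]
  rcases le_total 0 s with h0 | h0
  · exact key2 s h0 (by rwa [abs_of_nonneg h0] at h)
  · have h1 := key2 (-s) (by linarith only [h0]) (by rwa [abs_of_nonpos h0] at h)
    rwa [Real.arcsin_neg, neg_sq, neg_sq] at h1

/-- upper bound of `ph` by a trial value `v` -/
theorem tg9_ph_le {ρ b v : ℝ} (hb : Dom ρ b) (hb1 : -1 ≤ b) (hv1 : -1 ≤ v)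
    (hv : |v| * Real.exp v ≤ 9 / 20 * ρ) :
    ph ρ b ≤ Real.exp (-v) + 23 / 40 * v ^ (2 : ℕ) * Real.exp v / ρ ^ (2 : ℕ) + v * (1 - sE ρ b / ρ) := by
  have hρ := hb.1
  have hvD : Dom ρ v := ⟨hρ, by linarith only [hv, hρ]⟩
  have h1 := tg9_phi_le hb hvD hb1 hv1
  have h2e : Real.exp v * Real.exp (-v) = 1 := by rw [← Real.exp_add]; simp
  have hev := Real.exp_pos v
  have hev' := Real.exp_pos (-v)
  have hc : sx ρ v = ρ * Real.exp (-v) * Real.cos (sP ρ v) := by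
    rw [hvD.cos]
    field_simp
    linear_combination (-(sx ρ v)) * h2e
  have hs : v = ρ * Real.exp (-v) * Real.sin (sP ρ v) := by
    rw [hvD.sin]
    field_simp
    linear_combination (-v) * h2e
  have h2 : sE ρ v = sP ρ v + ρ - sx ρ v := rfl
  have h3 := tg9_cos (sP_abs_le ρ v)
  have h4 : sP ρ v ^ (2 : ℕ) ≤ 23 / 20 * (v * Real.exp v / ρ) ^ (2 : ℕ) := by
    refine tg9_arcsin ?_
    rw [abs_mul_exp_eq, abs_of_pos hρ, div_le_iff₀ hρ]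
    exact hv
  have h5 : sx ρ v + v * sP ρ v ≤ ρ * Real.exp (-v) + 23 / 40 * v ^ (2 : ℕ) * Real.exp v / ρ := by
    have e1 : sx ρ v + v * sP ρ v =
        ρ * Real.exp (-v) * (Real.cos (sP ρ v) + sP ρ v * Real.sin (sP ρ v)) := by
      linear_combination hc + (sP ρ v) * hs
    have e2 : ρ * Real.exp (-v) + 23 / 40 * v ^ (2 : ℕ) * Real.exp v / ρ =
        ρ * Real.exp (-v) * (1 + 23 / 40 * (v * Real.exp v / ρ) ^ (2 : ℕ)) := by
      field_simp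
      linear_combination (-(23 * v ^ (2 : ℕ) * Real.exp v)) * h2e
    rw [e1, e2]
    refine mul_le_mul_of_nonneg_left ?_ (by positivity)
    linarith only [h3, h4]
  unfold ph
  rw [div_le_iff₀ hρ]
  have e3 : (Real.exp (-v) + 23 / 40 * v ^ (2 : ℕ) * Real.exp v / ρ ^ (2 : ℕ) + v * (1 - sE ρ b / ρ)) * ρ =
      (ρ * Real.exp (-v) + 23 / 40 * v ^ (2 : ℕ) * Real.exp v / ρ) + v * (ρ - sE ρ b) := by
    field_simp
  rw [e3]
  rw [h2] at h1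
  linarith only [h1, h5]

theorem tg9_log {s : ℝ} (h0 : 0 ≤ s) (h1 : s ≤ 1 / 2) :
    s + s ^ (2 : ℕ) / 2 + s ^ (3 : ℕ) / 3 + s ^ (4 : ℕ) / 4 ≤ -Real.log (1 - s) := by
  have h := Real.hasSum_pow_div_log_of_abs_lt_one (x := s) (by rw [abs_of_nonneg h0]; linarith only [h1])
  have h2 := sum_le_hasSum (Finset.range 4) (fun n _ => by positivity) h
  refine le_trans (le_of_eq ?_) h2
  simp only [Finset.sum_range_succ, Finset.sum_range_zero]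
  norm_num

/-- lower bound of `c (1 - log c)` -/
theorem tg9_clog {c w : ℝ} (hw : w ≤ 1 / 2) (h : |1 - c| ≤ w) :
    1 - w ^ (2 : ℕ) / 2 - w ^ (3 : ℕ) / 6 - w ^ (4 : ℕ) / 12 - w ^ (5 : ℕ) / 4 ≤ c * (1 - Real.log c) := by
  have hmon : ∀ s : ℝ, 0 ≤ s → s ≤ w → 1 - w ^ (2 : ℕ) / 2 - w ^ (3 : ℕ) / 6 - w ^ (4 : ℕ) / 12 - w ^ (5 : ℕ) / 4 ≤
      1 - s ^ (2 : ℕ) / 2 - s ^ (3 : ℕ) / 6 - s ^ (4 : ℕ) / 12 - s ^ (5 : ℕ) / 4 := by
    intro s h0 h1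
    have a2 := pow_le_pow_left₀ h0 h1 2
    have a3 := pow_le_pow_left₀ h0 h1 3
    have a4 := pow_le_pow_left₀ h0 h1 4
    have a5 := pow_le_pow_left₀ h0 h1 5
    linarith only [a2, a3, a4, a5]
  rcases le_total c 1 with hc | hc
  · rw [abs_of_nonneg (by linarith only [hc])] at h
    have h1 := tg9_log (s := 1 - c) (by linarith only [hc]) (by linarith)
    rw [sub_sub_cancel] at h1
    refine (hmon (1 - c) (by linarith only [hc]) h).trans ?_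
    have h2 : c * ((1 - c) + (1 - c) ^ (2 : ℕ) / 2 + (1 - c) ^ (3 : ℕ) / 3 + (1 - c) ^ (4 : ℕ) / 4) ≤
        c * (-Real.log c) := mul_le_mul_of_nonneg_left h1 (by linarith only [hw, h])
    linarith only [h2]
  · rw [abs_of_nonpos (by linarith only [hc])] at h
    set s := c - 1 with hs
    have h0 : 0 ≤ s := by linarith only [hc]
    have hsw : s ≤ w := by linarith only [h]
    have hs2 : s ≤ 1 / 2 := by linarith only [hw, h]
    refine (hmon s h0 hsw).trans ?_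
    have hc1 : c = 1 + s := by rw [hs]; ring
    have h3 : 0 ≤ s - s ^ (2 : ℕ) / 2 + s ^ (3 : ℕ) / 2 := by nlinarith only [h0]
    have h4 : Real.log c ≤ s - s ^ (2 : ℕ) / 2 + s ^ (3 : ℕ) / 2 := by
      rw [Real.log_le_iff_le_exp (by linarith only [h0])]
      refine le_trans ?_ (Real.quadratic_le_exp_of_nonneg h3)
      rw [hc1]
      have a4 := pow_nonneg h0 4
      have a6 := pow_nonneg h0 6
      have a5 : s ^ (5 : ℕ) ≤ s ^ (4 : ℕ) * (1 / 2) := by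
        have : s ^ (5 : ℕ) = s ^ (4 : ℕ) * s := by ring
        rw [this]
        exact mul_le_mul_of_nonneg_left hs2 a4
      nlinarith only []
    have h5 : c * (1 - (s - s ^ (2 : ℕ) / 2 + s ^ (3 : ℕ) / 2)) ≤ c * (1 - Real.log c) :=
      mul_le_mul_of_nonneg_left (by linarith only [h4]) (by linarith only [h0])
    refine le_trans ?_ h5
    rw [hc1]
    have a3 := pow_nonneg h0 3
    have a4 : s ^ (4 : ℕ) ≤ s ^ (3 : ℕ) * (1 / 2) := by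
      have : s ^ (4 : ℕ) = s ^ (3 : ℕ) * s := by ring
      rw [this]
      exact mul_le_mul_of_nonneg_left hs2 a3
    have a5 : s ^ (4 : ℕ) * (5 / 12) ≤ s ^ (3 : ℕ) / 6 + s ^ (5 : ℕ) / 4 := by
      have : 0 ≤ s ^ (3 : ℕ) * ((2 / 3 - s) * (1 - s)) :=
        mul_nonneg a3 (mul_nonneg (by linarith only [hs2]) (by linarith only [hs2]))
      linarith only [this]
    linarith only [a5]

theorem tg9_exp_le {ρ y : ℝ} (hρ : 5 / 2 ≤ ρ) (h : DD ρ y) : |y| * Real.exp y < ρ := by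
  have h1 : |y| ≤ 3 / 4 := abs_le.2 ⟨by linarith only [h.y0], by linarith only [h.y1]⟩
  have h2 : Real.exp y ≤ Real.exp 1 := Real.exp_le_exp.2 (by linarith only [h.y1])
  have h3 := Real.exp_one_lt_d9
  have h4 := Real.exp_pos y
  have : |y| * Real.exp y ≤ 3 / 4 * Real.exp y := mul_le_mul_of_nonneg_right h1 h4.le
  linarith only [hρ, h2, h3, this]

/-- upper bound of `ph` at `-2π/3` -/
theorem tg9_ph_neg {ρ b t : ℝ} (hρ : 5 / 2 ≤ ρ) (h : DD ρ b) (hb : sE ρ b = -(2 * Real.pi / 3))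
    (ht0 : 0 ≤ t) (ht : t ≤ 1) :
    ph ρ b ≤ Real.exp t - t - 2 * t * (Real.pi / (3 * ρ)) +
      23 / 40 * t ^ (2 : ℕ) * Real.exp (-t) * (1 / ρ) ^ (2 : ℕ) := by
  have hρ0 : 0 < ρ := by linarith only [hρ]
  have hte : |(-t)| * Real.exp (-t) ≤ 9 / 20 * ρ := by
    rw [abs_neg, abs_of_nonneg ht0]
    have h1 : Real.exp (-t) ≤ 1 := Real.exp_le_one_iff.2 (by linarith only [ht0])
    have h2 : t * Real.exp (-t) ≤ t * 1 := mul_le_mul_of_nonneg_left h1 ht0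
    linarith only [hρ, ht, h2]
  refine (tg9_ph_le h.dom (by linarith only [h.y0]) (by linarith only [ht]) hte).trans (le_of_eq ?_)
  rw [hb, neg_neg]
  field_simp
  ring

/-- upper bound of `ph` at `2π/3` -/
theorem tg9_ph_pos {ρ b : ℝ} (hρ : 5 / 2 ≤ ρ) (h : DD ρ b) (hb : sE ρ b = 2 * Real.pi / 3) :
    ph ρ b ≤ Real.exp (-(1 / 2)) + 1 / 2 - (Real.pi / (3 * ρ)) +
      23 / 160 * Real.exp (1 / 2) * (1 / ρ) ^ (2 : ℕ) := by
  have hρ0 : 0 < ρ := by linarith only [hρ]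
  have hte : |(1 / 2 : ℝ)| * Real.exp (1 / 2) ≤ 9 / 20 * ρ := by
    rw [abs_of_nonneg (by norm_num)]
    have h1 : Real.exp (1 / 2 : ℝ) ≤ 17 / 10 := by
      have h2 := Real.exp_bound' (x := 1 / 2) (by norm_num) (by norm_num) (n := 4) (by norm_num)
      refine h2.trans ?_
      norm_num [Finset.sum_range_succ, Nat.factorial]
    linarith only [hρ, h1]
  refine (tg9_ph_le h.dom (by linarith only [h.y0]) (by norm_num) hte).trans (le_of_eq ?_)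
  rw [hb]
  field_simp
  ring

theorem tg9_sqrt {A : ℝ} (h : 0 ≤ A) : √(√A) ^ (4 : ℕ) = A := by
  have h1 := Real.sq_sqrt h
  have h2 := Real.sq_sqrt (Real.sqrt_nonneg A)
  calc √(√A) ^ (4 : ℕ) = (√(√A) ^ (2 : ℕ)) ^ (2 : ℕ) := by ring
    _ = A := by rw [h2, h1]

theorem tg9_root {A B E P : ℝ} (hA : 0 ≤ A) (hB : 0 < B) (hP : 0 ≤ P)
    (h : E ^ (4 : ℕ) * A ≤ P ^ (4 : ℕ) * B) : E * (√(√A) / √(√B)) ≤ P := by
  have h1 : 0 < √(√B) := Real.sqrt_pos.2 (Real.sqrt_pos.2 hB)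
  rw [← mul_div_assoc, div_le_iff₀ h1]
  refine le_of_not_gt fun h2 => ?_
  have h3 := pow_lt_pow_left₀ h2 (by positivity) (n := 4) (by norm_num)
  rw [mul_pow, mul_pow, tg9_sqrt hA, tg9_sqrt hB.le] at h3
  linarith only [h, h3]

theorem tg9_D2 {ρ y : ℝ} (h : Dom ρ y) : sD2 ρ y = 1 + 2 * y + (ρ * Real.exp (-y)) ^ (2 : ℕ) := by
  unfold sD2
  linear_combination sx_sq_add h

theorem tg9_Y {ρ y : ℝ} (h : Dom ρ y) (hy : 0 ≤ y) (he : |sE ρ y| ≤ Real.pi / 3) :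
    Real.exp y * (1 - Real.pi / (3 * ρ)) ≤ 1 := by
  have hρ := h.1
  have h1 := sx_le h
  have h2 : sE ρ y = sP ρ y + ρ - sx ρ y := rfl
  have h3 := sP_nonneg hρ hy
  have h4 := (abs_le.1 he).2
  have h5 : ρ - Real.pi / 3 ≤ ρ * Real.exp (-y) := by linarith only [h1, h2, h3, h4]
  have h6 : Real.exp y * Real.exp (-y) = 1 := by rw [← Real.exp_add]; simp
  have h7 := mul_le_mul_of_nonneg_left h5 (Real.exp_pos y).le
  have h8 : Real.exp y * (1 - Real.pi / (3 * ρ)) * ρ = Real.exp y * (ρ - Real.pi / 3) := by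
    field_simp
  have h9 : Real.exp y * (1 - Real.pi / (3 * ρ)) * ρ ≤ 1 * ρ := by
    rw [h8, one_mul]
    refine h7.trans (le_of_eq ?_)
    linear_combination ρ * h6
  exact le_of_mul_le_mul_right h9 hρ

theorem tg9_B {ρ b : ℝ} (h : DD ρ b) (hb : b ≤ 0) (hs : sE ρ b = -(2 * Real.pi / 3)) :
    Real.exp (-b) ^ (2 : ℕ) ≤ (1 + 2 * (Real.pi / (3 * ρ))) ^ (2 : ℕ) + 9 / 16 * (1 / ρ) ^ (2 : ℕ) := by
  have hρ := h.dom.1
  have hpi := Real.pi_pos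
  have h2 : sE ρ b = sP ρ b + ρ - sx ρ b := rfl
  have h3 := sP_nonpos hρ hb
  have h4 : sx ρ b ≤ ρ + 2 * Real.pi / 3 := by linarith only [hs, h2, h3]
  have h5 := sx_sq_add h.dom
  have h6 := pow_le_pow_left₀ (sx_nonneg ρ b) h4 2
  have h7 : b ^ (2 : ℕ) ≤ 9 / 16 := by nlinarith only [hb, h.y0]
  have h8 : Real.exp (-b) ^ (2 : ℕ) * ρ ^ (2 : ℕ) ≤
      ((1 + 2 * (Real.pi / (3 * ρ))) ^ (2 : ℕ) + 9 / 16 * (1 / ρ) ^ (2 : ℕ)) * ρ ^ (2 : ℕ) := by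
    have e1 : ((1 + 2 * (Real.pi / (3 * ρ))) ^ (2 : ℕ) + 9 / 16 * (1 / ρ) ^ (2 : ℕ)) * ρ ^ (2 : ℕ) =
        (ρ + 2 * Real.pi / 3) ^ (2 : ℕ) + 9 / 16 := by
      field_simp
    rw [e1]
    rw [mul_pow] at h5
    linarith only [h5, h6, h7]
  exact le_of_mul_le_mul_right h8 (by positivity)

theorem tg9_preA {ρ y b Y0 q0 P : ℝ} (h : DD ρ y) (hb : DD ρ b) (hy0 : 0 ≤ y) (hb0 : b ≤ 0)
    (hY : Real.exp y ≤ Y0) (hq : Real.exp (-b) ^ (2 : ℕ) ≤ q0) (hP : 0 ≤ P)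
    (hfin : q0 * (Y0 ^ (4 : ℕ) * (2 * Y0 - 1) + Y0 ^ (2 : ℕ) * ρ ^ (2 : ℕ)) + P ^ (4 : ℕ) / 2 ≤ P ^ (4 : ℕ) * ρ ^ (2 : ℕ)) :
    max 1 (Real.exp (y - b)) * (√(√(sD2 ρ y)) / √(√(sD2 ρ b))) ≤ P := by
  rw [max_eq_right (Real.one_le_exp (by linarith only [hy0, hb0]))]
  have hDy : 0 < sD2 ρ y := sD2_pos (by linarith only [hy0])
  have hDb : 0 < sD2 ρ b := sD2_pos (by linarith only [hb.y0])
  refine tg9_root hDy.le hDb hP ?_
  rw [tg9_D2 h.dom, tg9_D2 hb.dom]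
  have e1 : Real.exp (y - b) = Real.exp y * Real.exp (-b) := by
    rw [← Real.exp_add]; congr 1
  have e2 : Real.exp y * Real.exp (-y) = 1 := by rw [← Real.exp_add]; simp
  have hY1 : 1 ≤ Real.exp y := Real.one_le_exp hy0
  have hq1 : 1 ≤ Real.exp (-b) ^ (2 : ℕ) := one_le_pow₀ (Real.one_le_exp (by linarith only [hb0]))
  have hyY : y + 1 ≤ Real.exp y := Real.add_one_le_exp y
  have e3 : Real.exp (y - b) ^ (4 : ℕ) * (1 + 2 * y + (ρ * Real.exp (-y)) ^ (2 : ℕ)) =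
      (Real.exp (-b) ^ (2 : ℕ)) ^ (2 : ℕ) * (Real.exp y ^ (4 : ℕ) * (1 + 2 * y) + Real.exp y ^ (2 : ℕ) * ρ ^ (2 : ℕ)) := by
    rw [e1]
    have e4 : Real.exp y ^ (2 : ℕ) * Real.exp (-y) ^ (2 : ℕ) = 1 := by rw [← mul_pow, e2, one_pow]
    linear_combination (Real.exp (-b) ^ (4 : ℕ) * Real.exp y ^ (2 : ℕ) * ρ ^ (2 : ℕ)) * e4
  rw [e3, mul_pow ρ]
  set q := Real.exp (-b) ^ (2 : ℕ) with hqdef
  set Y := Real.exp y with hYdef
  have hY0 : 1 ≤ Y0 := hY1.trans hY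
  have i1 : Y ^ (4 : ℕ) ≤ Y0 ^ (4 : ℕ) := pow_le_pow_left₀ (by linarith only [hY1]) hY 4
  have i2 : Y ^ (2 : ℕ) ≤ Y0 ^ (2 : ℕ) := pow_le_pow_left₀ (by linarith only [hY1]) hY 2
  have i3 : Y ^ (4 : ℕ) * (1 + 2 * y) ≤ Y0 ^ (4 : ℕ) * (2 * Y0 - 1) :=
    mul_le_mul i1 (by linarith only [hY, hyY]) (by linarith only [hy0]) (by positivity)
  have i4 : Y ^ (2 : ℕ) * ρ ^ (2 : ℕ) ≤ Y0 ^ (2 : ℕ) * ρ ^ (2 : ℕ) := mul_le_mul_of_nonneg_right i2 (sq_nonneg _)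
  have hnn : 0 ≤ Y0 ^ (4 : ℕ) * (2 * Y0 - 1) + Y0 ^ (2 : ℕ) * ρ ^ (2 : ℕ) := by
    have : 0 ≤ 2 * Y0 - 1 := by linarith only [hY0]
    positivity
  have hq0 : 0 ≤ q := by linarith only [hq1]
  calc q ^ (2 : ℕ) * (Y ^ (4 : ℕ) * (1 + 2 * y) + Y ^ (2 : ℕ) * ρ ^ (2 : ℕ))
      ≤ q ^ (2 : ℕ) * (Y0 ^ (4 : ℕ) * (2 * Y0 - 1) + Y0 ^ (2 : ℕ) * ρ ^ (2 : ℕ)) :=
        mul_le_mul_of_nonneg_left (by linarith only [i3, i4]) (sq_nonneg _)
    _ = q * (q * (Y0 ^ (4 : ℕ) * (2 * Y0 - 1) + Y0 ^ (2 : ℕ) * ρ ^ (2 : ℕ))) := by ring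
    _ ≤ q * (q0 * (Y0 ^ (4 : ℕ) * (2 * Y0 - 1) + Y0 ^ (2 : ℕ) * ρ ^ (2 : ℕ))) :=
        mul_le_mul_of_nonneg_left (mul_le_mul_of_nonneg_right hq hnn) hq0
    _ ≤ q * (P ^ (4 : ℕ) * ρ ^ (2 : ℕ) - P ^ (4 : ℕ) / 2) := mul_le_mul_of_nonneg_left (by linarith only [hfin]) hq0
    _ ≤ P ^ (4 : ℕ) * (1 + 2 * b + ρ ^ (2 : ℕ) * q) := by
        have hP4 : 0 ≤ P ^ (4 : ℕ) := by positivity
        have : P ^ (4 : ℕ) * (1 + 2 * b + q / 2) ≥ 0 :=
          mul_nonneg hP4 (by linarith only [hq1, hb.y0])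
        linarith only [this]

theorem tg9_preB {ρ y b P : ℝ} (hρ : 5 / 2 ≤ ρ) (h : DD ρ y) (hb : DD ρ b) (hy0 : y ≤ 0)
    (hb0 : 0 ≤ b) (he : |sE ρ y| ≤ Real.pi / 3) (hs : sE ρ b = 2 * Real.pi / 3) (hP : 0 ≤ P)
    (hfin : 1 + (ρ + Real.pi / 3) ^ (2 : ℕ) ≤ P ^ (4 : ℕ) * (1 + (ρ - 2 * Real.pi / 3) ^ (2 : ℕ))) :
    max 1 (Real.exp (y - b)) * (√(√(sD2 ρ y)) / √(√(sD2 ρ b))) ≤ P := by
  rw [max_eq_left (Real.exp_le_one_iff.2 (by linarith only [hy0, hb0]))]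
  have hpi := Real.pi_lt_d2
  have hpi0 := Real.pi_pos
  have hρ0 : 0 < ρ := by linarith only [hρ]
  have hDy : 0 < sD2 ρ y := sD2_pos (by linarith only [h.y0])
  have hDb : 0 < sD2 ρ b := sD2_pos (by linarith only [hb.y0])
  refine tg9_root hDy.le hDb hP ?_
  have e1 : sE ρ y = sP ρ y + ρ - sx ρ y := rfl
  have e2 : sE ρ b = sP ρ b + ρ - sx ρ b := rfl
  have h1 := sP_nonpos hρ0 hy0
  have h2 := sP_nonneg hρ0 hb0
  have h3 := (abs_le.1 he).1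
  have h4 : sx ρ y ≤ ρ + Real.pi / 3 := by linarith only [e1, h1, h3]
  have h5 : ρ - 2 * Real.pi / 3 ≤ sx ρ b := by linarith only [hs, e2, h2]
  have h6 : sD2 ρ y ≤ 1 + (ρ + Real.pi / 3) ^ (2 : ℕ) := by
    unfold sD2
    have a1 := pow_le_pow_left₀ (sx_nonneg ρ y) h4 2
    have a2 : (1 + y) ^ (2 : ℕ) ≤ 1 := by nlinarith only [hy0, h.y0]
    linarith only [a1, a2]
  have h7 : 1 + (ρ - 2 * Real.pi / 3) ^ (2 : ℕ) ≤ sD2 ρ b := by
    unfold sD2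
    have a1 := pow_le_pow_left₀ (by linarith only [hρ, hpi]) h5 2
    have a2 : 1 ≤ (1 + b) ^ (2 : ℕ) := by nlinarith only [hb0]
    linarith only [a1, a2]
  have hP4 : 0 ≤ P ^ (4 : ℕ) := by positivity
  rw [one_pow, one_mul]
  calc sD2 ρ y ≤ _ := h6
    _ ≤ _ := hfin
    _ ≤ _ := mul_le_mul_of_nonneg_left h7 hP4

theorem tg9_inv {ρ : ℝ} (hρ : 0 < ρ) : (1 / ρ) ^ (2 : ℕ) ≤ 114 / 125 * (Real.pi / (3 * ρ)) ^ (2 : ℕ) := by
  have hpi := Real.pi_gt_d4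
  have e : 114 / 125 * (Real.pi / (3 * ρ)) ^ (2 : ℕ) = 114 / 1125 * Real.pi ^ (2 : ℕ) * (1 / ρ) ^ (2 : ℕ) := by
    field_simp
    norm_num
  rw [e]
  have h1 : 1 ≤ 114 / 1125 * Real.pi ^ (2 : ℕ) := by nlinarith only [hpi]
  have h2 : 0 ≤ (1 / ρ) ^ (2 : ℕ) := sq_nonneg _
  nlinarith only [h1]

/-- powers lie below chords -/
theorem tg9_chord {w s p : ℝ} (hw : 0 ≤ w) (h2 : w ^ (2 : ℕ) ≤ s * w - p) (hs : 0 ≤ s) (_hp : 0 ≤ p)
    (hsp : p ≤ s ^ (2 : ℕ)) (hsp2 : 2 * p ≤ s ^ (2 : ℕ)) :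
    w ^ (3 : ℕ) ≤ (s ^ (2 : ℕ) - p) * w - s * p ∧
    w ^ (4 : ℕ) ≤ (s * (s ^ (2 : ℕ) - p) - s * p) * w - (s ^ (2 : ℕ) - p) * p ∧
    w ^ (5 : ℕ) ≤ (s * (s * (s ^ (2 : ℕ) - p) - s * p) - (s ^ (2 : ℕ) - p) * p) * w - (s * (s ^ (2 : ℕ) - p) - s * p) * p := by
  have h3 : w ^ (3 : ℕ) ≤ (s ^ (2 : ℕ) - p) * w - s * p := by
    have a1 := mul_le_mul_of_nonneg_left h2 hw
    have a2 := mul_le_mul_of_nonneg_left h2 hs
    linarith only [a1, a2]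
  have h4 : w ^ (4 : ℕ) ≤ (s * (s ^ (2 : ℕ) - p) - s * p) * w - (s ^ (2 : ℕ) - p) * p := by
    have a1 := mul_le_mul_of_nonneg_left h3 hw
    have a2 := mul_le_mul_of_nonneg_left h2 (sub_nonneg.2 hsp)
    linarith only [a1, a2]
  refine ⟨h3, h4, ?_⟩
  have a1 := mul_le_mul_of_nonneg_left h4 hw
  have a0 : 0 ≤ s * (s ^ (2 : ℕ) - p) - s * p := by
    have : s * (s ^ (2 : ℕ) - p) - s * p = s * (s ^ (2 : ℕ) - 2 * p) := by ring
    rw [this]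
    exact mul_nonneg hs (by linarith only [hsp2])
  have a2 := mul_le_mul_of_nonneg_left h2 a0
  linarith only [a1, a2]

theorem tg9_e (x : ℝ) : Real.exp x * Real.exp (-x) = 1 := by rw [← Real.exp_add]; simp

/-- numeric form of the bound at `-2π/3` -/
theorem tg9_numA {w u2 E t e1 e2 w1 w2 g : ℝ} (hw1 : w1 ≤ w) (hw2 : w ≤ w2) (h0 : 0 < w1)
    (hu : u2 ≤ 114 / 125 * w ^ (2 : ℕ)) (hu0 : 0 ≤ u2) (_ht0 : 0 ≤ t)
    (he1 : Real.exp t ≤ e1) (he2 : Real.exp (-t) ≤ e2) (he20 : 0 ≤ e2)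
    (hE : E ≤ Real.exp t - t - 2 * t * w + 23 / 40 * t ^ (2 : ℕ) * Real.exp (-t) * u2)
    (hlin : ∀ a2 a3 a4 a5 : ℝ,
      a2 ≤ (w1 + w2) * w - w1 * w2 →
      a3 ≤ ((w1 + w2) ^ (2 : ℕ) - w1 * w2) * w - (w1 + w2) * (w1 * w2) →
      a4 ≤ ((w1 + w2) * ((w1 + w2) ^ (2 : ℕ) - w1 * w2) - (w1 + w2) * (w1 * w2)) * w -
        ((w1 + w2) ^ (2 : ℕ) - w1 * w2) * (w1 * w2) →
      a5 ≤ ((w1 + w2) * ((w1 + w2) * ((w1 + w2) ^ (2 : ℕ) - w1 * w2) - (w1 + w2) * (w1 * w2)) -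
        ((w1 + w2) ^ (2 : ℕ) - w1 * w2) * (w1 * w2)) * w -
        ((w1 + w2) * ((w1 + w2) ^ (2 : ℕ) - w1 * w2) - (w1 + w2) * (w1 * w2)) * (w1 * w2) →
      g ≤ 1 - a2 / 2 - a3 / 6 - a4 / 12 - a5 / 4 -
        (e1 - t - 2 * t * w + 23 / 40 * t ^ (2 : ℕ) * e2 * (114 / 125 * a2))) :
    g ≤ 1 - w ^ (2 : ℕ) / 2 - w ^ (3 : ℕ) / 6 - w ^ (4 : ℕ) / 12 - w ^ (5 : ℕ) / 4 - E := by
  have hw : 0 ≤ w := by linarith only [hw1, h0]
  have c2 : w ^ (2 : ℕ) ≤ (w1 + w2) * w - w1 * w2 := by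
    linarith only [mul_nonneg (sub_nonneg.2 hw1) (sub_nonneg.2 hw2)]
  have hp : 0 ≤ w1 * w2 := mul_nonneg h0.le (by linarith only [hw1, hw2, h0])
  obtain ⟨c3, c4, c5⟩ := tg9_chord hw c2 (by linarith only [hw1, hw2, h0]) hp (by nlinarith only [c2]) (by nlinarith only [c2])
  have h := hlin _ _ _ _ c2 c3 c4 c5
  have i1 : Real.exp (-t) * u2 ≤ e2 * (114 / 125 * w ^ (2 : ℕ)) := mul_le_mul he2 hu hu0 he20
  have i2 : 23 / 40 * t ^ (2 : ℕ) * (Real.exp (-t) * u2) ≤ 23 / 40 * t ^ (2 : ℕ) * (e2 * (114 / 125 * w ^ (2 : ℕ))) :=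
    mul_le_mul_of_nonneg_left i1 (by positivity)
  nlinarith only [he1, hE, h, i1]

end SokamF1T

end

/-! ### Lib_MP_af4de1_v3.P2GapL -/

section
namespace SokamF1
end SokamF1
namespace SokamF1M
end SokamF1M
namespace SokamF1S
end SokamF1S
namespace SokamF1T
end SokamF1T
/-!
# F1, plan v3: `P2.gapL`

With `u = 1/ρ`, `s = η/ρ`, `z = eo2/ρ`:
* `ph(ya) ≥ (1-s)(1 - log(1-s))` (`ph_trial`, `c = 1 - s`),
* `ph(yb) ≤ (1+z)(1 - log(1+z)) + (23/40) z² u²` (dual trial value `v = -log(1+z)`, `tg9_ph_le`),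
* prefactor: `(ya - yb) + (1/2) log (D_a/D_b) ≤ (ya - yb)/2 + (1 + 2 ya) e^(2 ya) u²/4`,
  `e^ya ≤ 1/(1-s)`, `-yb ≤ z`.
Reduction lemmas for both sides: `p2g_gap`, `p2g_D`.
-/

set_option autoImplicit false

namespace SokamV3

open SokamF1 SokamF1S SokamF1M SokamF1T Set

theorem p2g_sM {r δ y : ℝ} (hr : 0 < r) (hδ : 0 < δ) :
    sM r δ y = Real.exp (r * ph (r * δ) y) / (sD2 (r * δ) y) ^ (1 / 4 : ℝ) := by
  unfold sM ph
  congr 2
  field_simp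

theorem p2g_root {A B Q : ℝ} (hA : 0 ≤ A) (hB : 0 < B) (h : A ≤ Real.exp (4 * Q) * B) :
    A ^ (1 / 4 : ℝ) ≤ Real.exp Q * B ^ (1 / 4 : ℝ) := by
  have h1 := Real.rpow_le_rpow hA h (by norm_num : (0 : ℝ) ≤ 1 / 4)
  rw [Real.mul_rpow (Real.exp_pos _).le hB.le, ← Real.exp_mul] at h1
  have : 4 * Q * (1 / 4) = Q := by ring
  rwa [this] at h1

theorem p2g_kap {r δ y : ℝ} (hδ : 0 < δ) (h : Dom (r * δ) y) :
    ‖kap r δ y‖ = r * Real.exp (-y) := by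
  unfold kap
  rw [norm_div, norm_sK h, Complex.norm_real, Real.norm_of_nonneg hδ.le]
  field_simp

theorem p2g_gap0 {r δ ya yb γ Q : ℝ} (hr : 0 < r) (hδ : 0 < δ) (ha1 : -1 < ya) (hb1 : -1 < yb)
    (hD : sD2 (r * δ) ya ≤ Real.exp (4 * Q) * sD2 (r * δ) yb)
    (h0 : γ + Q + r * ph (r * δ) yb ≤ r * ph (r * δ) ya) :
    Real.exp γ * sM r δ yb ≤ sM r δ ya := by
  have hA := sD2_pos (ρ := r * δ) ha1
  have hB := sD2_pos (ρ := r * δ) hb1
  have hroot := p2g_root hA.le hB hD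
  have hA4 : 0 < (sD2 (r * δ) ya) ^ (1 / 4 : ℝ) := Real.rpow_pos_of_pos hA _
  have hB4 : 0 < (sD2 (r * δ) yb) ^ (1 / 4 : ℝ) := Real.rpow_pos_of_pos hB _
  rw [p2g_sM hr hδ, p2g_sM hr hδ, ← mul_div_assoc, div_le_div_iff₀ hB4 hA4]
  calc Real.exp γ * Real.exp (r * ph (r * δ) yb) * (sD2 (r * δ) ya) ^ (1 / 4 : ℝ)
      ≤ Real.exp γ * Real.exp (r * ph (r * δ) yb) *
        (Real.exp Q * (sD2 (r * δ) yb) ^ (1 / 4 : ℝ)) :=
        mul_le_mul_of_nonneg_left hroot (by positivity)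
    _ = Real.exp (γ + Q + r * ph (r * δ) yb) * (sD2 (r * δ) yb) ^ (1 / 4 : ℝ) := by
        rw [Real.exp_add, Real.exp_add]; ring
    _ ≤ Real.exp (r * ph (r * δ) ya) * (sD2 (r * δ) yb) ^ (1 / 4 : ℝ) :=
        mul_le_mul_of_nonneg_right (Real.exp_le_exp.2 h0) hB4.le

/-- reduction of `Gap` to exponents -/
theorem p2g_gap {r δ ya yb γ Q : ℝ} (hr : 0 < r) (hδ : 0 < δ) (ha : Dom (r * δ) ya)
    (hb : Dom (r * δ) yb) (ha1 : -1 < ya) (hb1 : -1 < yb)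
    (hD : sD2 (r * δ) ya ≤ Real.exp (4 * Q) * sD2 (r * δ) yb)
    (h0 : γ + Q + r * ph (r * δ) yb ≤ r * ph (r * δ) ya)
    (h1 : γ + (ya - yb) + Q + r * ph (r * δ) yb ≤ r * ph (r * δ) ya) : Gap r δ ya yb γ := by
  refine ⟨p2g_gap0 hr hδ ha1 hb1 hD h0, ?_⟩
  have h2 := p2g_gap0 (γ := γ + (ya - yb)) hr hδ ha1 hb1 hD h1
  rw [p2g_kap hδ ha, p2g_kap hδ hb]
  have h3 := mul_le_mul_of_nonneg_left h2 (mul_pos hr (Real.exp_pos (-ya))).le
  refine le_trans (le_of_eq ?_) h3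
  have e : Real.exp (γ + (ya - yb)) * Real.exp (-ya) = Real.exp γ * Real.exp (-yb) := by
    rw [← Real.exp_add, ← Real.exp_add]
    congr 1
    ring
  linear_combination (-(r * sM r δ yb)) * e

/-- the ratio of the `D²` -/
theorem p2g_D {ρ ya yb : ℝ} (ha : Dom ρ ya) (hb : Dom ρ yb) (hb2 : -(1 / 2) ≤ yb) :
    sD2 ρ ya ≤ Real.exp (4 * (-(ya - yb) / 2 + (1 + 2 * ya) * Real.exp ya ^ (2 : ℕ) * (1 / ρ) ^ (2 : ℕ) / 4)) *
      sD2 ρ yb := by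
  have hρ := ha.1
  rw [tg9_D2 ha, tg9_D2 hb]
  set q := (1 + 2 * ya) * Real.exp ya ^ (2 : ℕ) * (1 / ρ) ^ (2 : ℕ) with hq
  have e1 : Real.exp (4 * (-(ya - yb) / 2 + q / 4)) =
      Real.exp (-ya) ^ (2 : ℕ) * Real.exp yb ^ (2 : ℕ) * Real.exp q := by
    rw [← Real.exp_nat_mul, ← Real.exp_nat_mul, ← Real.exp_add, ← Real.exp_add]
    congr 1
    push_cast
    ring
  have e2 : Real.exp ya * Real.exp (-ya) = 1 := tg9_e ya
  have e3 : Real.exp yb * Real.exp (-yb) = 1 := tg9_e yb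
  have h1 : q + 1 ≤ Real.exp q := Real.add_one_le_exp q
  have e4 : 1 + 2 * ya + (ρ * Real.exp (-ya)) ^ (2 : ℕ) = (ρ * Real.exp (-ya)) ^ (2 : ℕ) * (q + 1) := by
    have : (ρ * Real.exp (-ya)) ^ (2 : ℕ) * q =
        (1 + 2 * ya) * (Real.exp ya * Real.exp (-ya)) ^ (2 : ℕ) := by
      rw [hq]
      field_simp
    rw [mul_add, this, e2]
    ring
  rw [e1, e4]
  calc (ρ * Real.exp (-ya)) ^ (2 : ℕ) * (q + 1) ≤ (ρ * Real.exp (-ya)) ^ (2 : ℕ) * Real.exp q :=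
        mul_le_mul_of_nonneg_left h1 (sq_nonneg _)
    _ = Real.exp (-ya) ^ (2 : ℕ) * Real.exp yb ^ (2 : ℕ) * Real.exp q * (ρ * Real.exp (-yb)) ^ (2 : ℕ) := by
        have : Real.exp yb ^ (2 : ℕ) * Real.exp (-yb) ^ (2 : ℕ) = 1 := by rw [← mul_pow, e3, one_pow]
        linear_combination (-(ρ ^ (2 : ℕ) * Real.exp (-ya) ^ (2 : ℕ) * Real.exp q)) * this
    _ ≤ Real.exp (-ya) ^ (2 : ℕ) * Real.exp yb ^ (2 : ℕ) * Real.exp q *
        (1 + 2 * yb + (ρ * Real.exp (-yb)) ^ (2 : ℕ)) :=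
        mul_le_mul_of_nonneg_left (by linarith only [hb2]) (by positivity)

theorem p2g_y_nonneg {ρ y : ℝ} (h : Dom ρ y) (h1 : -1 < y) (h0 : 0 ≤ sE ρ y) : 0 ≤ y := by
  by_contra hy
  rw [not_le] at hy
  have := (sE_strictMonoOn h (dom_zero h.1) h1.le) (left_mem_Icc.2 hy.le) (right_mem_Icc.2 hy.le) hy
  rw [sE_zero h.1] at this
  linarith only [h0, this]

theorem p2g_y_nonpos {ρ y : ℝ} (h : Dom ρ y) (h0 : sE ρ y ≤ 0) : y ≤ 0 := by
  by_contra hy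
  rw [not_le] at hy
  have := (sE_strictMonoOn (dom_zero h.1) h (by norm_num)) (left_mem_Icc.2 hy.le)
    (right_mem_Icc.2 hy.le) hy
  rw [sE_zero h.1] at this
  linarith only [h0, this]

/-- `e^y ≤ 1/(1-s)` on the left side -/
theorem p2g_exp_a {ρ y : ℝ} (h : Dom ρ y) (hy : 0 ≤ y) : Real.exp y * (1 - sE ρ y / ρ) ≤ 1 := by
  have hρ := h.1
  have h1 := sx_le h
  have h2 : sE ρ y = sP ρ y + ρ - sx ρ y := rfl
  have h3 := sP_nonneg hρ hy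
  have h5 : ρ - sE ρ y ≤ ρ * Real.exp (-y) := by linarith only [h1, h2, h3]
  have h6 := tg9_e y
  have h7 := mul_le_mul_of_nonneg_left h5 (Real.exp_pos y).le
  have h8 : Real.exp y * (1 - sE ρ y / ρ) * ρ = Real.exp y * (ρ - sE ρ y) := by
    field_simp
  have h9 : Real.exp y * (1 - sE ρ y / ρ) * ρ ≤ 1 * ρ := by
    rw [h8, one_mul]
    refine h7.trans (le_of_eq ?_)
    linear_combination ρ * h6
  exact le_of_mul_le_mul_right h9 hρ

/-- `e^(-2y) ≤ (1+z)² + u²` on the right side -/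
theorem p2g_exp_b {ρ y z : ℝ} (h : Dom ρ y) (h1 : -1 < y) (hy : y ≤ 0) (hz : sE ρ y = -(ρ * z)) :
    Real.exp (-y) ^ (2 : ℕ) ≤ (1 + z) ^ (2 : ℕ) + (1 / ρ) ^ (2 : ℕ) := by
  have hρ := h.1
  have h2 : sE ρ y = sP ρ y + ρ - sx ρ y := rfl
  have h3 := sP_nonpos hρ hy
  have h4 : sx ρ y ≤ ρ + ρ * z := by linarith only [hz, h2, h3]
  have h5 := sx_sq_add h
  have h6 := pow_le_pow_left₀ (sx_nonneg ρ y) h4 2
  have h7 : y ^ (2 : ℕ) ≤ 1 := by nlinarith only [h1, hy]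
  have h8 : Real.exp (-y) ^ (2 : ℕ) * ρ ^ (2 : ℕ) ≤ ((1 + z) ^ (2 : ℕ) + (1 / ρ) ^ (2 : ℕ)) * ρ ^ (2 : ℕ) := by
    have e1 : ((1 + z) ^ (2 : ℕ) + (1 / ρ) ^ (2 : ℕ)) * ρ ^ (2 : ℕ) = (ρ + ρ * z) ^ (2 : ℕ) + 1 := by
      field_simp
    rw [e1]
    rw [mul_pow] at h5
    linarith only [h5, h6, h7]
  exact le_of_mul_le_mul_right h8 (by positivity)

theorem p2g_b_le {ρ y z : ℝ} (hz0 : 1 / ρ ≤ z) (hρ : 0 < ρ)
    (h : Real.exp (-y) ^ (2 : ℕ) ≤ (1 + z) ^ (2 : ℕ) + (1 / ρ) ^ (2 : ℕ)) : -y ≤ z := by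
  have hu : 0 < 1 / ρ := by positivity
  have hz : 0 ≤ z := by linarith only [hz0, hu]
  have h1 := Real.quadratic_le_exp_of_nonneg hz
  have h2 : (1 + z + z ^ (2 : ℕ) / 2) ^ (2 : ℕ) ≤ Real.exp z ^ (2 : ℕ) := pow_le_pow_left₀ (by (clear * - hz; positivity)) h1 2
  have h3 : (1 / ρ) ^ (2 : ℕ) ≤ z ^ (2 : ℕ) := pow_le_pow_left₀ hu.le hz0 2
  have h4 : Real.exp (-y) ^ (2 : ℕ) ≤ Real.exp z ^ (2 : ℕ) := by
    refine h.trans (le_trans ?_ h2)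
    linarith only [h3, pow_nonneg hz 3, pow_nonneg hz 4]
  have h5 : Real.exp (-y) ≤ Real.exp z :=
    le_of_pow_le_pow_left₀ (by norm_num) (Real.exp_pos z).le h4
  exact Real.exp_le_exp.1 h5

theorem p2g_b_half {ρ y z : ℝ} (h : Real.exp (-y) ^ (2 : ℕ) ≤ (1 + z) ^ (2 : ℕ) + (1 / ρ) ^ (2 : ℕ))
    (hz : (1 + z) ^ (2 : ℕ) + (1 / ρ) ^ (2 : ℕ) ≤ 27 / 10) : -(1 / 2) ≤ y := by
  have h1 : Real.exp (-y) ^ (2 : ℕ) = Real.exp (-(2 * y)) := by
    rw [← Real.exp_nat_mul]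
    congr 1
    push_cast
    ring
  have h2 : Real.exp (-(2 * y)) ≤ Real.exp 1 := by
    rw [← h1]
    have := Real.exp_one_gt_d9
    linarith only [h, hz, this]
  have := Real.exp_le_exp.1 h2
  linarith only [this]

/-! ### logarithms -/

theorem p2g_log1 {z : ℝ} (h0 : 0 ≤ z) : z - z ^ (2 : ℕ) / 2 + z ^ (3 : ℕ) / 3 - z ^ (4 : ℕ) / 4 ≤ Real.log (1 + z) := by
  have hd : ∀ t ∈ Ici (0 : ℝ), HasDerivAt
      (fun t : ℝ => Real.log (1 + t) - (t - t ^ (2 : ℕ) / 2 + t ^ (3 : ℕ) / 3 - t ^ (4 : ℕ) / 4)) (t ^ (4 : ℕ) / (1 + t)) t := by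
    intro t ht
    have ht0 : 0 ≤ t := ht
    have e1 : HasDerivAt (fun t : ℝ => 1 + t) 1 t := (hasDerivAt_id t).const_add 1
    have e2 := e1.log (by positivity)
    have e3 : HasDerivAt (fun t : ℝ => t - t ^ (2 : ℕ) / 2 + t ^ (3 : ℕ) / 3 - t ^ (4 : ℕ) / 4)
        (1 - t + t ^ (2 : ℕ) - t ^ (3 : ℕ)) t := by
      have a1 := hasDerivAt_id t
      have a2 := (hasDerivAt_pow 2 t).div_const 2
      have a3 := (hasDerivAt_pow 3 t).div_const 3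
      have a4 := (hasDerivAt_pow 4 t).div_const 4
      refine (((a1.sub a2).add a3).sub a4).congr_deriv ?_
      norm_num
    refine (e2.sub e3).congr_deriv ?_
    field_simp
    ring
  have hm : MonotoneOn (fun t : ℝ => Real.log (1 + t) - (t - t ^ (2 : ℕ) / 2 + t ^ (3 : ℕ) / 3 - t ^ (4 : ℕ) / 4))
      (Ici 0) := by
    refine monotoneOn_of_deriv_nonneg (convex_Ici _)
      (fun t ht => (hd t ht).continuousAt.continuousWithinAt)
      (fun t ht => (hd t (interior_subset ht)).differentiableAt.differentiableWithinAt)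
      (fun t ht => ?_)
    rw [(hd t (interior_subset ht)).deriv]
    have : (0 : ℝ) ≤ t := interior_subset ht
    (clear * - this; positivity)
  have h1 := hm (mem_Ici.2 le_rfl) (mem_Ici.2 h0) h0
  simp only [add_zero, Real.log_one] at h1
  norm_num at h1
  linarith only [h1]

/-- `(1+z)(1 - log(1+z)) ≤ 1 - z²/2 + z³/6 - z⁴/12 + z⁵/20` -/
theorem p2g_log2 {z : ℝ} (h0 : 0 ≤ z) :
    (1 + z) * (1 - Real.log (1 + z)) ≤ 1 - z ^ (2 : ℕ) / 2 + z ^ (3 : ℕ) / 6 - z ^ (4 : ℕ) / 12 + z ^ (5 : ℕ) / 20 := by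
  have hd : ∀ t ∈ Ici (0 : ℝ), HasDerivAt
      (fun t : ℝ => (1 + t) * Real.log (1 + t) - (t + t ^ (2 : ℕ) / 2 - t ^ (3 : ℕ) / 6 + t ^ (4 : ℕ) / 12 - t ^ (5 : ℕ) / 20))
      (Real.log (1 + t) - (t - t ^ (2 : ℕ) / 2 + t ^ (3 : ℕ) / 3 - t ^ (4 : ℕ) / 4)) t := by
    intro t ht
    have ht0 : 0 ≤ t := ht
    have e1 : HasDerivAt (fun t : ℝ => 1 + t) 1 t := (hasDerivAt_id t).const_add 1
    have e2 := e1.mul (e1.log (by positivity))
    have e3 : HasDerivAt (fun t : ℝ => t + t ^ (2 : ℕ) / 2 - t ^ (3 : ℕ) / 6 + t ^ (4 : ℕ) / 12 - t ^ (5 : ℕ) / 20)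
        (1 + t - t ^ (2 : ℕ) / 2 + t ^ (3 : ℕ) / 3 - t ^ (4 : ℕ) / 4) t := by
      have a1 := hasDerivAt_id t
      have a2 := (hasDerivAt_pow 2 t).div_const 2
      have a3 := (hasDerivAt_pow 3 t).div_const 6
      have a4 := (hasDerivAt_pow 4 t).div_const 12
      have a5 := (hasDerivAt_pow 5 t).div_const 20
      refine ((((a1.add a2).sub a3).add a4).sub a5).congr_deriv ?_
      norm_num
      ring
    refine (e2.sub e3).congr_deriv ?_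
    field_simp
    ring
  have hm : MonotoneOn (fun t : ℝ => (1 + t) * Real.log (1 + t) -
      (t + t ^ (2 : ℕ) / 2 - t ^ (3 : ℕ) / 6 + t ^ (4 : ℕ) / 12 - t ^ (5 : ℕ) / 20)) (Ici 0) := by
    refine monotoneOn_of_deriv_nonneg (convex_Ici _)
      (fun t ht => (hd t ht).continuousAt.continuousWithinAt)
      (fun t ht => (hd t (interior_subset ht)).differentiableAt.differentiableWithinAt)
      (fun t ht => ?_)
    rw [(hd t (interior_subset ht)).deriv]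
    have h1 : (0 : ℝ) ≤ t := interior_subset ht
    linarith only [p2g_log1 h1]
  have h1 := hm (mem_Ici.2 le_rfl) (mem_Ici.2 h0) h0
  simp only [add_zero, Real.log_one] at h1
  norm_num at h1
  linarith only [h1]

/-! ### bounds of `ph` -/

theorem p2g_ph_ge {ρ y w : ℝ} (hρ : 16 / 5 ≤ ρ) (h : Dom ρ y) (h1 : -1 < y) (h0 : 0 ≤ sE ρ y)
    (hw : sE ρ y / ρ ≤ w) (hw2 : w ≤ 1 / 2) :
    1 - w ^ (2 : ℕ) / 2 - w ^ (3 : ℕ) / 6 - w ^ (4 : ℕ) / 12 - w ^ (5 : ℕ) / 4 ≤ ph ρ y := by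
  have hρ0 := h.1
  have hs0 : 0 ≤ sE ρ y / ρ := by (clear * - h0 hρ; positivity)
  have hy := p2g_y_nonneg h h1 h0
  have hc : |1 - (1 - sE ρ y / ρ)| ≤ w := by
    rw [sub_sub_cancel, abs_of_nonneg hs0]
    exact hw
  refine (tg9_clog hw2 hc).trans ?_
  have e0 : sE ρ y - ρ * (1 - (1 - sE ρ y / ρ)) = 0 := by
    field_simp
    ring
  have hexp := p2g_exp_a h hy
  have he0 := Real.exp_pos y
  have he2 : Real.exp y ≤ 2 := by nlinarith only [hw, hw2, hexp]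
  have hye : y + 1 ≤ Real.exp y := Real.add_one_le_exp y
  have hx : |y| * Real.exp y < ρ := by
    rw [abs_of_nonneg hy]
    nlinarith only [hρ, h1, he2, hye]
  have h2 := ph_trial (c := 1 - sE ρ y / ρ) h hx h1 (by linarith only [hw, hw2])
    (by rw [e0, abs_zero]; (clear * -; positivity))
  rw [e0, Real.cos_zero, Real.log_one, add_zero] at h2
  exact h2

theorem p2g_ph_le {ρ y z : ℝ} (hρ : 16 / 5 ≤ ρ) (h : Dom ρ y) (h1 : -1 < y)
    (hz : sE ρ y = -(ρ * z)) (hz0 : 0 ≤ z) (hz1 : z ≤ 1) :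
    ph ρ y ≤ 1 - z ^ (2 : ℕ) / 2 + z ^ (3 : ℕ) / 6 - z ^ (4 : ℕ) / 12 + z ^ (5 : ℕ) / 20 + 23 / 40 * z ^ (2 : ℕ) * (1 / ρ) ^ (2 : ℕ) := by
  have hρ0 := h.1
  have hL0 : 0 ≤ Real.log (1 + z) := Real.log_nonneg (by linarith only [hz0])
  have hLz : Real.log (1 + z) ≤ z := by
    have := Real.log_le_sub_one_of_pos (by linarith : 0 < 1 + z)
    linarith only [this]
  have he1 : Real.exp (- -Real.log (1 + z)) = 1 + z := by
    rw [neg_neg, Real.exp_log (by linarith only [hL0, hLz])]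
  have he2 : Real.exp (-Real.log (1 + z)) ≤ 1 := Real.exp_le_one_iff.2 (by linarith only [hL0])
  have he3 := Real.exp_pos (-Real.log (1 + z))
  have hv : |(-Real.log (1 + z))| * Real.exp (-Real.log (1 + z)) ≤ 9 / 20 * ρ := by
    rw [abs_neg, abs_of_nonneg hL0]
    have : Real.log (1 + z) * Real.exp (-Real.log (1 + z)) ≤ 1 * 1 :=
      mul_le_mul (by linarith only [hz1, hLz]) he2 he3.le (by norm_num)
    linarith only [hρ, this]
  have h2 := tg9_ph_le h h1.le (v := -Real.log (1 + z)) (by linarith only [hz1, hLz]) hv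
  rw [he1, hz] at h2
  have e1 : 1 - -(ρ * z) / ρ = 1 + z := by
    field_simp
    ring
  rw [e1] at h2
  have h3 := p2g_log2 hz0
  have h4 : (-Real.log (1 + z)) ^ (2 : ℕ) * Real.exp (-Real.log (1 + z)) ≤ z ^ (2 : ℕ) * 1 := by
    rw [neg_sq]
    exact mul_le_mul (pow_le_pow_left₀ hL0 hLz 2) he2 he3.le (by (clear * -; positivity))
  have h5 : 23 / 40 * (-Real.log (1 + z)) ^ (2 : ℕ) * Real.exp (-Real.log (1 + z)) / ρ ^ (2 : ℕ) ≤
      23 / 40 * z ^ (2 : ℕ) * (1 / ρ) ^ (2 : ℕ) := by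
    have e2 : 23 / 40 * (-Real.log (1 + z)) ^ (2 : ℕ) * Real.exp (-Real.log (1 + z)) / ρ ^ (2 : ℕ) =
        23 / 40 * ((-Real.log (1 + z)) ^ (2 : ℕ) * Real.exp (-Real.log (1 + z))) * (1 / ρ) ^ (2 : ℕ) := by
      field_simp
    rw [e2]
    have := mul_le_mul_of_nonneg_left h4 (by norm_num : (0 : ℝ) ≤ 23 / 40)
    rw [mul_one] at this
    refine mul_le_mul_of_nonneg_right ?_ (sq_nonneg _)
    linarith only [this]
  linarith only [h2, h3, h5]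

/-! ### assembly -/

theorem p2g_asm {r δ ya yb η z w Y Pa Pb : ℝ} (hr : 499 / 10 ≤ r) (hδ : 0 < δ)
    (ha : At r δ ya η) (hb : At r δ yb (-(r * δ * z))) (h0 : 0 ≤ η)
    (hw : η / (r * δ) ≤ w) (hw2 : w ≤ 1 / 2) (hz0 : 1 / (r * δ) ≤ z)
    (hz2 : (1 + z) ^ (2 : ℕ) + (1 / (r * δ)) ^ (2 : ℕ) ≤ 27 / 10) (hY : 1 ≤ Y * (1 - w))
    (hPa : Pa ≤ ph (r * δ) ya) (hPb : ph (r * δ) yb ≤ Pb)
    (hfin : 1 / 2 + (w * Y + z) / 2 + (2 * Y - 1) * Y ^ (2 : ℕ) * (1 / (r * δ)) ^ (2 : ℕ) / 4 + r * Pb ≤ r * Pa) :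
    Gap r δ ya yb (1 / 2) := by
  have hr0 : 0 < r := by linarith only [hr, hδ, h0]
  have hρ0 : 0 < r * δ := ha.dom.1
  have hu : 0 < 1 / (r * δ) := by positivity
  have hya := p2g_y_nonneg ha.dom ha.y1 (by rw [ha.eta]; exact h0)
  have hyb := p2g_y_nonpos hb.dom (by
    rw [hb.eta]
    have : 0 ≤ r * δ * z := mul_nonneg hρ0.le (by linarith only [hz0, hu])
    linarith only [this])
  have h1 := p2g_exp_b hb.dom hb.y1 hyb hb.eta
  have h2 := p2g_b_le hz0 hρ0 h1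
  have h3 := p2g_b_half h1 hz2
  have h4 := p2g_exp_a ha.dom hya
  rw [ha.eta] at h4
  have he := Real.exp_pos ya
  have h5 : Real.exp ya * (1 - w) ≤ 1 := by
    refine le_trans (mul_le_mul_of_nonneg_left (by linarith only [hw]) he.le) h4
  have hw0 : 0 ≤ w := le_trans (by (clear * - h0 hr hδ; positivity)) hw
  have h6 : Real.exp ya ≤ Y := by
    have hY0 : 0 < Y := by
      by_contra hn
      rw [not_lt] at hn
      have := mul_nonpos_of_nonpos_of_nonneg hn (by linarith : (0 : ℝ) ≤ 1 - w)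
      linarith only [hY, this]
    have a1 : Real.exp ya * 1 ≤ Real.exp ya * (Y * (1 - w)) := mul_le_mul_of_nonneg_left hY he.le
    have a2 : Y * (Real.exp ya * (1 - w)) ≤ Y * 1 := mul_le_mul_of_nonneg_left h5 hY0.le
    linarith only [a1, a2]
  have h7 : ya + 1 ≤ Real.exp ya := Real.add_one_le_exp ya
  have h8 : ya ≤ w * Y := by
    have : w * Real.exp ya ≤ w * Y := mul_le_mul_of_nonneg_left h6 hw0
    linarith only [h5, h7, this]
  have h9 : (1 + 2 * ya) * Real.exp ya ^ (2 : ℕ) * (1 / (r * δ)) ^ (2 : ℕ) ≤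
      (2 * Y - 1) * Y ^ (2 : ℕ) * (1 / (r * δ)) ^ (2 : ℕ) := by
    refine mul_le_mul_of_nonneg_right ?_ (sq_nonneg _)
    exact mul_le_mul (by linarith only [h6, h7]) (pow_le_pow_left₀ he.le h6 2) (by positivity) (by linarith only [hya, h6, h7])
  have hra : r * Pa ≤ r * ph (r * δ) ya := mul_le_mul_of_nonneg_left hPa hr0.le
  have hrb : r * ph (r * δ) yb ≤ r * Pb := mul_le_mul_of_nonneg_left hPb hr0.le
  refine p2g_gap hr0 hδ ha.dom hb.dom ha.y1 hb.y1 (p2g_D ha.dom hb.dom h3) ?_ ?_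
  · linarith only [hfin, hya, hyb, h2, h8, h9, hra, hrb]
  · linarith only [hfin, h2, h8, h9, hra, hrb]

theorem p2g_hst : hst 2 = Real.pi := by
  unfold hst
  push_cast
  ring

/-- the power bounds, regimes with `r ≥ K (1 + ρ²)` -/
theorem p2g_poly {r ρ u z K a1 a2 b : ℝ} (hρ : 0 < ρ) (hu : u = 1 / ρ) (hK : 0 ≤ K)
    (hr : K * (1 + ρ ^ (2 : ℕ)) ≤ r) (ha1 : 0 ≤ a1) (hz1 : a1 * u ≤ z) (hz2 : z ≤ a2 * u)
    (hB : 0 ≤ (a1 ^ (2 : ℕ) - b ^ (2 : ℕ)) / 2 - (a2 ^ (3 : ℕ) + b ^ (3 : ℕ)) / 6 * u -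
      (23 / 40 * a2 ^ (2 : ℕ) + b ^ (4 : ℕ) / 12 - a1 ^ (4 : ℕ) / 12) * u ^ (2 : ℕ) - (a2 ^ (5 : ℕ) / 20 + b ^ (5 : ℕ) / 4) * u ^ (3 : ℕ)) :
    K * ((a1 ^ (2 : ℕ) - b ^ (2 : ℕ)) / 2 - (a2 ^ (3 : ℕ) + b ^ (3 : ℕ)) / 6 * u -
      (23 / 40 * a2 ^ (2 : ℕ) + b ^ (4 : ℕ) / 12 - a1 ^ (4 : ℕ) / 12) * u ^ (2 : ℕ) - (a2 ^ (5 : ℕ) / 20 + b ^ (5 : ℕ) / 4) * u ^ (3 : ℕ)) +
      r * (1 - z ^ (2 : ℕ) / 2 + z ^ (3 : ℕ) / 6 - z ^ (4 : ℕ) / 12 + z ^ (5 : ℕ) / 20 + 23 / 40 * z ^ (2 : ℕ) * u ^ (2 : ℕ)) ≤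
    r * (1 - (b * u) ^ (2 : ℕ) / 2 - (b * u) ^ (3 : ℕ) / 6 - (b * u) ^ (4 : ℕ) / 12 - (b * u) ^ (5 : ℕ) / 4) := by
  set B := (a1 ^ (2 : ℕ) - b ^ (2 : ℕ)) / 2 - (a2 ^ (3 : ℕ) + b ^ (3 : ℕ)) / 6 * u -
      (23 / 40 * a2 ^ (2 : ℕ) + b ^ (4 : ℕ) / 12 - a1 ^ (4 : ℕ) / 12) * u ^ (2 : ℕ) - (a2 ^ (5 : ℕ) / 20 + b ^ (5 : ℕ) / 4) * u ^ (3 : ℕ) with hBdef
  have hu0 : 0 < u := by rw [hu]; positivity
  have hz0 : 0 ≤ z := le_trans (by (clear * - ha1 hu0; positivity)) hz1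
  have p2 : (a1 * u) ^ (2 : ℕ) ≤ z ^ (2 : ℕ) := pow_le_pow_left₀ (by (clear * - ha1 hu0; positivity)) hz1 2
  have p4 : (a1 * u) ^ (4 : ℕ) ≤ z ^ (4 : ℕ) := pow_le_pow_left₀ (by (clear * - ha1 hu0; positivity)) hz1 4
  have p3 : z ^ (3 : ℕ) ≤ (a2 * u) ^ (3 : ℕ) := pow_le_pow_left₀ hz0 hz2 3
  have p5 : z ^ (5 : ℕ) ≤ (a2 * u) ^ (5 : ℕ) := pow_le_pow_left₀ hz0 hz2 5
  have p22 : z ^ (2 : ℕ) * u ^ (2 : ℕ) ≤ (a2 * u) ^ (2 : ℕ) * u ^ (2 : ℕ) :=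
    mul_le_mul_of_nonneg_right (pow_le_pow_left₀ hz0 hz2 2) (sq_nonneg _)
  have hX : B * u ^ (2 : ℕ) ≤ (1 - (b * u) ^ (2 : ℕ) / 2 - (b * u) ^ (3 : ℕ) / 6 - (b * u) ^ (4 : ℕ) / 12 - (b * u) ^ (5 : ℕ) / 4) -
      (1 - z ^ (2 : ℕ) / 2 + z ^ (3 : ℕ) / 6 - z ^ (4 : ℕ) / 12 + z ^ (5 : ℕ) / 20 + 23 / 40 * z ^ (2 : ℕ) * u ^ (2 : ℕ)) := by
    have e : B * u ^ (2 : ℕ) = (a1 * u) ^ (2 : ℕ) / 2 - (b * u) ^ (2 : ℕ) / 2 - ((a2 * u) ^ (3 : ℕ) + (b * u) ^ (3 : ℕ)) / 6 -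
        (23 / 40 * ((a2 * u) ^ (2 : ℕ) * u ^ (2 : ℕ)) + (b * u) ^ (4 : ℕ) / 12 - (a1 * u) ^ (4 : ℕ) / 12) -
        ((a2 * u) ^ (5 : ℕ) / 20 + (b * u) ^ (5 : ℕ) / 4) := by
      rw [hBdef]
      ring
    rw [e]
    linarith only [p2, p4, p3, p5, p22]
  have hBu : 0 ≤ B * u ^ (2 : ℕ) := by (clear * - hB hu0; positivity)
  have hρu : ρ ^ (2 : ℕ) * u ^ (2 : ℕ) = 1 := by
    rw [hu]
    field_simp
  have h1 : K * B ≤ r * (B * u ^ (2 : ℕ)) := by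
    calc K * B ≤ K * (1 + ρ ^ (2 : ℕ)) * (B * u ^ (2 : ℕ)) := by
          have : K * (1 + ρ ^ (2 : ℕ)) * (B * u ^ (2 : ℕ)) = K * B * u ^ (2 : ℕ) + K * B * (ρ ^ (2 : ℕ) * u ^ (2 : ℕ)) := by ring
          rw [this, hρu]
          have : 0 ≤ K * B * u ^ (2 : ℕ) := by (clear * - hK hB hu0; positivity)
          linarith only [this]
      _ ≤ r * (B * u ^ (2 : ℕ)) := mul_le_mul_of_nonneg_right hr hBu
  have hr0 : 0 ≤ r := le_trans (by (clear * - hK hρ; positivity)) hr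
  have h2 := mul_le_mul_of_nonneg_left hX hr0
  linarith only [h1, h2]

theorem p2_gapL (r δ ya yb η : ℝ) (hR : Reg2 r δ) (ha : At r δ ya η) (hb : At r δ yb (-eo2 r δ))
    (h0 : 0 ≤ η) (h1 : η ≤ ei2 r δ) : Gap r δ ya yb (1 / 2) := by
  have hr := hR.r0
  have hδ := hR.d0
  have hρ := hR.rho
  have hG := hR.G
  have hpi1 := Real.pi_gt_d4
  have hpi2 := Real.pi_lt_d4
  have hr0 : 0 < r := by linarith only [h0, h1, hr, hδ]
  have hρ0 : 0 < r * δ := by linarith only [hρ]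
  have hpisq1 : (98690 / 10000 : ℝ) ≤ Real.pi ^ (2 : ℕ) := by nlinarith only [hpi1]
  have hpisq2 : Real.pi ^ (2 : ℕ) ≤ 98697 / 10000 := by nlinarith only [hpi1, hpi2]
  have hGm : Gm 2 r δ * (1 + (r * δ) ^ (2 : ℕ)) = r * Real.pi ^ (2 : ℕ) := by
    unfold Gm RR
    rw [p2g_hst]
    field_simp
  have hRR : 0 < 1 + (r * δ) ^ (2 : ℕ) := by (clear * - hr hδ; positivity)
  -- `z`
  obtain ⟨z, hz⟩ : ∃ z, z = eo2 r δ / (r * δ) := ⟨_, rfl⟩
  have hzρ : r * δ * z = eo2 r δ := by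
    rw [hz]
    field_simp
  rw [← hzρ] at hb
  set u := 1 / (r * δ) with hu
  have hu0 : 0 < u := by rw [hu]; (clear * - hr hδ; positivity)
  have hρu : r * δ * u = 1 := by
    rw [hu]
    field_simp
  have hzu : z = eo2 r δ * u := by
    rw [hz, hu]
    ring
  have hηu : η / (r * δ) = η * u := by
    rw [hu]
    ring
  have hu3 : u ≤ 3125 / 10000 := by
    rw [hu, div_le_iff₀ hρ0]
    linarith only [hρ]
  by_cases hG1 : Gm 2 r δ < 10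
  · -- `Γ < 10`
    have hom : om2 r δ = 17 / 100 := by
      unfold om2
      rw [if_pos hG1]
    have heo : eo2 r δ = 67 / 100 * Real.pi := by
      unfold eo2
      rw [hom, p2g_hst]
      ring
    have hei : ei2 r δ = 33 / 100 * Real.pi := by
      unfold ei2
      rw [hom, p2g_hst]
      ring
    rw [hei] at h1
    rw [heo] at hzu
    have hU : u ≤ 144 / 1000 := by
      have hlt : r * Real.pi ^ (2 : ℕ) < 10 * (1 + (r * δ) ^ (2 : ℕ)) := by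
        rw [← hGm]
        exact mul_lt_mul_of_pos_right hG1 hRR
      have h2 : 48246 / 1000 ≤ (r * δ) ^ (2 : ℕ) := by nlinarith only [hr, hpi1, hlt]
      rw [hu, div_le_iff₀ hρ0]
      nlinarith only [hu0, hρu, h2]
    have hK : 5471 / 10000 * (1 + (r * δ) ^ (2 : ℕ)) ≤ r := by
      have h2 : 27 / 5 * (1 + (r * δ) ^ (2 : ℕ)) ≤ r * Real.pi ^ (2 : ℕ) := by
        rw [← hGm]
        exact mul_le_mul_of_nonneg_right hG hRR.le
      nlinarith only [hG, hpisq2, hGm]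
    have hza : 21048 / 10000 * u ≤ z := by
      rw [hzu]
      exact mul_le_mul_of_nonneg_right (by linarith only [hpi1]) hu0.le
    have hzb : z ≤ 2105 / 1000 * u := by
      rw [hzu]
      exact mul_le_mul_of_nonneg_right (by linarith only [hpi2]) hu0.le
    have hwa : η / (r * δ) ≤ 10368 / 10000 * u := by
      rw [hηu]
      exact mul_le_mul_of_nonneg_right (by linarith only [h1, hpi2]) hu0.le
    have hw2 : 10368 / 10000 * u ≤ 1 / 2 := by linarith only [hU]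
    have hu2 : u ^ (2 : ℕ) ≤ (144 / 1000) ^ (2 : ℕ) := pow_le_pow_left₀ hu0.le hU 2
    have hu3' : u ^ (3 : ℕ) ≤ (144 / 1000) ^ (3 : ℕ) := pow_le_pow_left₀ hu0.le hU 3
    have hpoly := p2g_poly (r := r) (z := z) (K := 5471 / 10000) (a1 := 21048 / 10000)
      (a2 := 2105 / 1000) (b := 10368 / 10000) hρ0 hu (by norm_num) hK (by norm_num) hza hzb
      (by norm_num; norm_num at hu2 hu3'; linarith only [hw2, hu2, hu3'])
    have hPa := p2g_ph_ge hρ ha.dom ha.y1 (by rw [ha.eta]; exact h0) (by rw [ha.eta]; exact hwa) hw2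
    have hPb := p2g_ph_le hρ hb.dom hb.y1 hb.eta (by linarith only [hza, hzb]) (by linarith only [hU, hzb])
    refine p2g_asm (Y := 11756 / 10000) hr hδ ha hb h0 hwa hw2 (by rw [← hu]; linarith only [hza, hzb])
      ?_ (by linarith only [hU]) hPa hPb ?_
    · rw [← hu]
      nlinarith only [hza, hzb, hw2, hu2]
    · rw [← hu]
      norm_num at hu2 hu3' hpoly ⊢
      linarith only [hU, hzb, hu2, hu3', hpoly]
  rw [not_lt] at hG1
  by_cases hG2 : Gm 2 r δ < 20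
  · -- `10 ≤ Γ < 20`
    have hom : om2 r δ = 3 / 20 := by
      unfold om2
      rw [if_neg (not_lt.2 hG1), if_pos hG2]
    have heo : eo2 r δ = 65 / 100 * Real.pi := by
      unfold eo2
      rw [hom, p2g_hst]
      ring
    have hei : ei2 r δ = 35 / 100 * Real.pi := by
      unfold ei2
      rw [hom, p2g_hst]
      ring
    rw [hei] at h1
    rw [heo] at hzu
    have hU : u ≤ 2058 / 10000 := by
      have hlt : r * Real.pi ^ (2 : ℕ) < 20 * (1 + (r * δ) ^ (2 : ℕ)) := by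
        rw [← hGm]
        exact mul_lt_mul_of_pos_right hG2 hRR
      have h2 : 23623 / 1000 ≤ (r * δ) ^ (2 : ℕ) := by nlinarith only [hr, hpi1, hlt]
      rw [hu, div_le_iff₀ hρ0]
      nlinarith only [hu0, hρu, h2]
    have hK : 10132 / 10000 * (1 + (r * δ) ^ (2 : ℕ)) ≤ r := by
      have h2 : 10 * (1 + (r * δ) ^ (2 : ℕ)) ≤ r * Real.pi ^ (2 : ℕ) := by
        rw [← hGm]
        exact mul_le_mul_of_nonneg_right hG1 hRR.le
      nlinarith only [hpisq2, h2]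
    have hza : 20419 / 10000 * u ≤ z := by
      rw [hzu]
      exact mul_le_mul_of_nonneg_right (by linarith only [hpi1]) hu0.le
    have hzb : z ≤ 20421 / 10000 * u := by
      rw [hzu]
      exact mul_le_mul_of_nonneg_right (by linarith only [hpi2]) hu0.le
    have hwa : η / (r * δ) ≤ 10996 / 10000 * u := by
      rw [hηu]
      exact mul_le_mul_of_nonneg_right (by linarith only [h1, hpi2]) hu0.le
    have hw2 : 10996 / 10000 * u ≤ 1 / 2 := by linarith only [hU]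
    have hu2 : u ^ (2 : ℕ) ≤ (2058 / 10000) ^ (2 : ℕ) := pow_le_pow_left₀ hu0.le hU 2
    have hu3' : u ^ (3 : ℕ) ≤ (2058 / 10000) ^ (3 : ℕ) := pow_le_pow_left₀ hu0.le hU 3
    have hpoly := p2g_poly (r := r) (z := z) (K := 10132 / 10000) (a1 := 20419 / 10000)
      (a2 := 20421 / 10000) (b := 10996 / 10000) hρ0 hu (by norm_num) hK (by norm_num) hza hzb
      (by norm_num; norm_num at hu2 hu3'; linarith only [hw2, hu2, hu3'])
    have hPa := p2g_ph_ge hρ ha.dom ha.y1 (by rw [ha.eta]; exact h0) (by rw [ha.eta]; exact hwa) hw2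
    have hPb := p2g_ph_le hρ hb.dom hb.y1 hb.eta (by linarith only [hza, hzb]) (by linarith only [hzb, hw2])
    refine p2g_asm (Y := 1293 / 1000) hr hδ ha hb h0 hwa hw2 (by rw [← hu]; linarith only [hza, hzb])
      ?_ (by linarith only [hU]) hPa hPb ?_
    · rw [← hu]
      nlinarith only [hza, hzb, hw2, hu2]
    · rw [← hu]
      norm_num at hu2 hu3' hpoly ⊢
      linarith only [hU, hzb, hu2, hu3', hpoly]
  rw [not_lt] at hG2
  have hom : om2 r δ = 1 / 10 := by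
    unfold om2
    rw [if_neg (not_lt.2 hG1), if_neg (not_lt.2 hG2)]
  have heo : eo2 r δ = 6 / 10 * Real.pi := by
    unfold eo2
    rw [hom, p2g_hst]
    ring
  have hei : ei2 r δ = 4 / 10 * Real.pi := by
    unfold ei2
    rw [hom, p2g_hst]
    ring
  rw [hei] at h1
  rw [heo] at hzu
  have hza : 18849 / 10000 * u ≤ z := by
    rw [hzu]
    exact mul_le_mul_of_nonneg_right (by linarith only [hpi1]) hu0.le
  have hzb : z ≤ 1885 / 1000 * u := by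
    rw [hzu]
    exact mul_le_mul_of_nonneg_right (by linarith only [hpi2]) hu0.le
  have hwa : η / (r * δ) ≤ 12567 / 10000 * u := by
    rw [hηu]
    exact mul_le_mul_of_nonneg_right (by linarith only [h1, hpi2]) hu0.le
  have hw2 : 12567 / 10000 * u ≤ 1 / 2 := by linarith only [hu3]
  have hPa := p2g_ph_ge hρ ha.dom ha.y1 (by rw [ha.eta]; exact h0) (by rw [ha.eta]; exact hwa) hw2
  by_cases hU : u ≤ 2058 / 10000
  · -- `Γ ≥ 20`, `ρ ≥ 4.86`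
    have hK : 20264 / 10000 * (1 + (r * δ) ^ (2 : ℕ)) ≤ r := by
      have h2 : 20 * (1 + (r * δ) ^ (2 : ℕ)) ≤ r * Real.pi ^ (2 : ℕ) := by
        rw [← hGm]
        exact mul_le_mul_of_nonneg_right hG2 hRR.le
      nlinarith only [hpisq2, h2]
    have hu2 : u ^ (2 : ℕ) ≤ (2058 / 10000) ^ (2 : ℕ) := pow_le_pow_left₀ hu0.le hU 2
    have hu3' : u ^ (3 : ℕ) ≤ (2058 / 10000) ^ (3 : ℕ) := pow_le_pow_left₀ hu0.le hU 3
    have hpoly := p2g_poly (r := r) (z := z) (K := 20264 / 10000) (a1 := 18849 / 10000)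
      (a2 := 1885 / 1000) (b := 12567 / 10000) hρ0 hu (by norm_num) hK (by norm_num) hza hzb
      (by norm_num; norm_num at hu2 hu3'; linarith only [hU, hu2, hu3'])
    have hPb := p2g_ph_le hρ hb.dom hb.y1 hb.eta (by linarith only [hza, hzb]) (by linarith only [hu3, hzb])
    refine p2g_asm (Y := 135 / 100) hr hδ ha hb h0 hwa hw2 (by rw [← hu]; linarith only [hza, hzb])
      ?_ (by linarith only [hU]) hPa hPb ?_
    · rw [← hu]
      nlinarith only [hu3, hza, hzb]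
    · rw [← hu]
      norm_num at hu2 hu3' hpoly ⊢
      linarith only [hzb, hU, hu2, hu3', hpoly]
  · -- `Γ ≥ 20`, `3.2 ≤ ρ ≤ 4.86`
    rw [not_le] at hU
    have he1 : Real.exp (2 / 5 : ℝ) ≤ 14919 / 10000 := by
      refine (Real.exp_bound' (x := 2 / 5) (by norm_num) (by norm_num) (n := 6) (by norm_num)).trans ?_
      norm_num [Finset.sum_range_succ, Nat.factorial]
    have he2 : Real.exp (-(2 / 5) : ℝ) ≤ 68 / 100 := by
      have a1 := Real.quadratic_le_exp_of_nonneg (x := 2 / 5) (by norm_num)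
      have a2 := tg9_e (2 / 5)
      have a3 := Real.exp_pos (-(2 / 5) : ℝ)
      nlinarith only [a1, a2]
    have he3 := Real.exp_pos (-(2 / 5) : ℝ)
    have hv : |(-(2 / 5) : ℝ)| * Real.exp (-(2 / 5)) ≤ 9 / 20 * (r * δ) := by
      rw [abs_neg, abs_of_nonneg (by norm_num)]
      linarith only [hρ, he2]
    have hPb0 := tg9_ph_le hb.dom hb.y1.le (v := -(2 / 5)) (by norm_num) hv
    have hPb : ph (r * δ) yb ≤ 14919 / 10000 + 23 / 40 * (2 / 5) ^ (2 : ℕ) * (68 / 100) * u ^ (2 : ℕ) -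
        2 / 5 * (1 + 18849 / 10000 * u) := by
      refine hPb0.trans ?_
      rw [hb.eta, neg_neg]
      have e1 : 1 - -(r * δ * z) / (r * δ) = 1 + z := by
        field_simp
        ring
      have e2 : 23 / 40 * (-(2 / 5)) ^ (2 : ℕ) * Real.exp (-(2 / 5)) / (r * δ) ^ (2 : ℕ) =
          23 / 40 * (2 / 5) ^ (2 : ℕ) * Real.exp (-(2 / 5)) * u ^ (2 : ℕ) := by
        rw [hu]
        field_simp
      rw [e1, e2]
      have e3 : Real.exp (-(2 / 5)) * u ^ (2 : ℕ) ≤ 68 / 100 * u ^ (2 : ℕ) :=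
        mul_le_mul_of_nonneg_right he2 (sq_nonneg _)
      linarith only [hza, he1, e3]
    refine p2g_asm (Y := 165 / 100) hr hδ ha hb h0 hwa hw2 (by rw [← hu]; linarith only [hza, hzb])
      ?_ (by linarith only [hu3]) hPa hPb ?_
    · rw [← hu]
      nlinarith only [hu3, hza, hzb]
    · rw [← hu]
      have c2 : u ^ (2 : ℕ) ≤ (2058 / 10000 + 3125 / 10000) * u - 2058 / 10000 * (3125 / 10000) := by
        linarith only [mul_nonneg (sub_nonneg.2 hU.le) (sub_nonneg.2 hu3)]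
      obtain ⟨c3, c4, c5⟩ := tg9_chord hu0.le c2 (by norm_num) (by norm_num) (by norm_num)
        (by norm_num)
      norm_num at c2 c3 c4 c5
      have hX : (1 / 2 + (12567 / 10000 * u * (165 / 100) + 1885 / 1000 * u) / 2 +
          (2 * (165 / 100) - 1) * (165 / 100) ^ (2 : ℕ) * u ^ (2 : ℕ) / 4) ≤ 499 / 10 *
          ((1 - (12567 / 10000 * u) ^ (2 : ℕ) / 2 - (12567 / 10000 * u) ^ (3 : ℕ) / 6 -
            (12567 / 10000 * u) ^ (4 : ℕ) / 12 - (12567 / 10000 * u) ^ (5 : ℕ) / 4) -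
          (14919 / 10000 + 23 / 40 * (2 / 5) ^ (2 : ℕ) * (68 / 100) * u ^ (2 : ℕ) -
            2 / 5 * (1 + 18849 / 10000 * u))) := by
        norm_num [mul_pow]
        linarith only [hU, c2, c3, c4, c5]
      have hX0 : 0 ≤ ((1 - (12567 / 10000 * u) ^ (2 : ℕ) / 2 - (12567 / 10000 * u) ^ (3 : ℕ) / 6 -
            (12567 / 10000 * u) ^ (4 : ℕ) / 12 - (12567 / 10000 * u) ^ (5 : ℕ) / 4) -
          (14919 / 10000 + 23 / 40 * (2 / 5) ^ (2 : ℕ) * (68 / 100) * u ^ (2 : ℕ) -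
            2 / 5 * (1 + 18849 / 10000 * u))) := by
        have : 0 ≤ (2 * (165 / 100) - 1 : ℝ) * (165 / 100) ^ (2 : ℕ) * u ^ (2 : ℕ) / 4 := by
          norm_num
          (clear * - hr hδ; positivity)
        linarith only [c2, hX, this]
      have hX2 := mul_le_mul_of_nonneg_right hr hX0
      linarith only [hzb, hX, hX2]

end SokamV3

end
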