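import Pool.Agent.Lib_MP_af4de1_zy.Z26
import Pool.Agent.Lib_MP_af4de1_zy.Z56
import Pool.Agent.Lib_MP_af4de1_zy.Z62

/-! ### Lib_MP_af4de1_fu.TipTop2 -/

section
namespace SokamF
end SokamF
/-!
# The tip: topological step with a curved right side

Region `0 < v ≤ V`, `k₁ v ≤ u ≤ U v`.
-/

set_option autoImplicit false

namespace SokamFU

open Filter Topology Set SokamF

/-- the region `0 < v ≤ V`, `k₁ v ≤ u ≤ U v` -/
def DU (k₁ V : ℝ) (U : ℝ → ℝ) : Set ℂ := {p | 0 < p.im ∧ p.im ≤ V ∧ k₁ * p.im ≤ p.re ∧ p.re ≤ U p.im}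

/-- the window -/
def PU (k₁ V : ℝ) (U : ℝ → ℝ) (δ : ℝ) : Set ℂ :=
  {p | p ∈ DU k₁ V U ∧ (Bp p).re ≤ -(Real.pi * δ) ∧ ‖wmap p‖ ≤ 1}

theorem DU_re_pos {k₁ V : ℝ} {U : ℝ → ℝ} (hk : 0 < k₁) {p : ℂ} (hp : p ∈ DU k₁ V U) : 0 < p.re :=
  (mul_pos hk hp.1).trans_le hp.2.2.1

theorem PU_limit {k₁ k₂ V : ℝ} {U : ℝ → ℝ} (hk : 0 < k₁) (hk₂ : 0 ≤ k₂) (hUc : Continuous U)
    (hU : ∀ v, 0 < v → v ≤ V → U v ≤ k₂ * v) {δn : ℕ → ℝ} {δ : ℝ} (hδ : 0 < δ)
    (hlim : Tendsto δn atTop (𝓝 δ))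
    {p : ℕ → ℂ} (hp : ∀ n, p n ∈ PU k₁ V U (δn n)) :
    ∃ g ∈ PU k₁ V U δ, ∃ φ : ℕ → ℕ, StrictMono φ ∧ Tendsto (p ∘ φ) atTop (𝓝 g) := by
  obtain ⟨g, -, φ, hφ, hg⟩ := (isCompact_closedBall (0 : ℂ) (k₂ * V + V)).tendsto_subseq
    (x := p) (fun n => by
      rw [mem_closedBall_zero_iff]
      obtain ⟨⟨h1, h2, h3, h4⟩, -, -⟩ := hp n
      have h4' := h4.trans (hU _ h1 h2)
      have h5 := Complex.norm_le_abs_re_add_abs_im (p n)
      have h6 : 0 ≤ (p n).re := (mul_nonneg hk.le h1.le).trans h3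
      rw [abs_of_nonneg h6, abs_of_pos h1] at h5
      nlinarith)
  have hre : Tendsto (fun n => (p (φ n)).re) atTop (𝓝 g.re) := (Complex.continuous_re.tendsto g).comp hg
  have him : Tendsto (fun n => (p (φ n)).im) atTop (𝓝 g.im) := (Complex.continuous_im.tendsto g).comp hg
  have i0 : 0 ≤ g.im := ge_of_tendsto him (.of_forall fun n => (hp (φ n)).1.1.le)
  have i1 : g.im ≤ V := le_of_tendsto him (.of_forall fun n => (hp (φ n)).1.2.1)
  have i2 : k₁ * g.im ≤ g.re := le_of_tendsto_of_tendsto (him.const_mul k₁) hre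
    (.of_forall fun n => (hp (φ n)).1.2.2.1)
  have i3 : g.re ≤ k₂ * g.im := le_of_tendsto_of_tendsto hre (him.const_mul k₂)
    (.of_forall fun n => (hp (φ n)).1.2.2.2.trans (hU _ (hp (φ n)).1.1 (hp (φ n)).1.2.1))
  have i3' : g.re ≤ U g.im := le_of_tendsto_of_tendsto hre ((hUc.tendsto g.im).comp him)
    (.of_forall fun n => (hp (φ n)).1.2.2.2)
  have hδφ : Tendsto (fun n => δn (φ n)) atTop (𝓝 δ) := hlim.comp hφ.tendsto_atTop
  have i4 : 0 < g.im := by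
    rcases i0.lt_or_eq with h | h
    · exact h
    · exfalso
      have hg0 : g = 0 := by
        apply Complex.ext
        · rw [Complex.zero_re]
          rw [← h] at i2 i3
          linarith
        · rw [Complex.zero_im]; exact h.symm
      rw [hg0] at hg
      have h1 : Tendsto (fun n => Bp (p (φ n))) atTop (𝓝 0) := by
        refine tendsto_Bp_zero.comp (tendsto_nhdsWithin_iff.2 ⟨hg, .of_forall fun n => ?_⟩)
        intro h2
        have h3 := (hp (φ n)).1.1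
        change p (φ n) = 0 at h2
        rw [h2, Complex.zero_im] at h3
        exact lt_irrefl _ h3
      have h2 : Tendsto (fun n => (Bp (p (φ n))).re) atTop (𝓝 0) := by
        have := (Complex.continuous_re.tendsto 0).comp h1
        rwa [Complex.zero_re] at this
      have h3 : (0 : ℝ) ≤ -(Real.pi * δ) :=
        le_of_tendsto_of_tendsto h2 (hδφ.const_mul Real.pi).neg (.of_forall fun n => (hp (φ n)).2.1)
      have := Real.pi_pos
      nlinarith [mul_pos this hδ]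
  have hgre : g.re ≠ 0 := ((mul_pos hk i4).trans_le i2).ne'
  refine ⟨g, ⟨⟨i4, i1, i2, i3'⟩, ?_, ?_⟩, φ, hφ, hg⟩
  · have h1 : Tendsto (fun n => (Bp (p (φ n))).re) atTop (𝓝 (Bp g).re) :=
      (Complex.continuous_re.tendsto _).comp ((continuousAt_Bp hgre).tendsto.comp hg)
    exact le_of_tendsto_of_tendsto h1 (hδφ.const_mul Real.pi).neg (.of_forall fun n => (hp (φ n)).2.1)
  · have h1 : Tendsto (fun n => ‖wmap (p (φ n))‖) atTop (𝓝 ‖wmap g‖) :=
      ((continuousAt_wmap hgre).tendsto.comp hg).norm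
    exact le_of_tendsto h1 (.of_forall fun n => (hp (φ n)).2.2)

/-- **The topological step of the tip.** -/
theorem tip_top2 {k₁ k₂ V δ₂ : ℝ} {U : ℝ → ℝ} (hk : 0 < k₁) (hk₂ : 0 ≤ k₂) (hUc : Continuous U)
    (hU : ∀ v, 0 < v → v ≤ V → U v ≤ k₂ * v) (hV : ∀ p ∈ DU k₁ V U, p.im = V → 1 < ‖wmap p‖) (hδ₂ : 0 < δ₂)
    (ha : ∀ δ, 0 < δ → δ ≤ δ₂ → ∀ p ∈ PU k₁ V U δ, Zr δ (wmap p) →
      k₁ * p.im < p.re ∧ p.re < U p.im ∧ (Bp p).re < -(Real.pi * δ))
    (hb : ∀ δ, 0 < δ → δ ≤ δ₂ → ∀ w, Zr δ w → ‖w‖ = 1 → w ∈ wmap '' PU k₁ V U δ)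
    (hc : ∀ w, Zr δ₂ w → w ∈ wmap '' PU k₁ V U δ₂) :
    ∀ δ, 0 < δ → δ ≤ δ₂ → ∀ w, Zr δ w → w ∈ wmap '' PU k₁ V U δ := by
  have hI : IsPreconnected (Ioc 0 δ₂) := isPreconnected_Ioc
  have : PreconnectedSpace (Ioc 0 δ₂) := Subtype.preconnectedSpace hI
  set T : Set (Ioc 0 δ₂) := {x | ∀ w, Zr x w → w ∈ wmap '' PU k₁ V U x} with hT
  have hcl : IsClosed T := by
    refine IsSeqClosed.isClosed ?_
    intro xn x hxn hx w hw
    have hx0 : (0 : ℝ) < x := x.2.1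
    have hlim : Tendsto (fun n => (xn n : ℝ)) atTop (𝓝 (x : ℝ)) := (continuous_subtype_val.tendsto x).comp hx
    rcases hw.2.1.lt_or_eq with hw1 | hw1
    · -- zeros near `w`
      have hex : ∀ m : ℕ, ∃ n, m ≤ n ∧ ∃ u : ℂ, dist u (zmap x w) < 1 / ((m : ℝ) + 1) ∧ F (qa (xn n)) u = 0 :=
        fun m => exists_near hlim hw.2.2 m (by positivity)
      choose ν hν u hu hu0 using hex
      have hνlim : Tendsto ν atTop atTop := tendsto_atTop_mono hν tendsto_id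
      have hulim : Tendsto u atTop (𝓝 (zmap x w)) := by
        rw [tendsto_iff_dist_tendsto_zero]
        exact squeeze_zero (fun _ => dist_nonneg) (fun m => (hu m).le) tendsto_one_div_add_atTop_nhds_zero_nat
      have hxν : Tendsto (fun m => (xn (ν m) : ℝ)) atTop (𝓝 (x : ℝ)) := hlim.comp hνlim
      have hωlim : Tendsto (fun m => wz (xn (ν m)) (u m)) atTop (𝓝 w) := by
        have := (continuous_wz.tendsto ((x : ℝ), zmap x w)).comp (hxν.prodMk_nhds hulim)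
        simp only [wz_zmap hx0.ne'] at this
        exact this
      have hev : ∀ᶠ m in atTop, Zr (xn (ν m)) (wz (xn (ν m)) (u m)) := by
        filter_upwards [hωlim.norm.eventually (gt_mem_nhds hw1), hωlim.norm.eventually (lt_mem_nhds hw.1)]
          with m h1 h2
        refine ⟨h2, h1.le, ?_⟩
        rw [zmap_wz (ne_of_gt (xn (ν m)).2.1)]
        exact hu0 m
      obtain ⟨M, hM⟩ := eventually_atTop.1 hev
      have hmem : ∀ m, ∃ p ∈ PU k₁ V U (xn (ν (m + M))), wmap p = wz (xn (ν (m + M))) (u (m + M)) := fun m =>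
        hxn (ν (m + M)) _ (hM (m + M) (Nat.le_add_left _ _))
      choose p hp hpw using hmem
      have hsh : Tendsto (fun m : ℕ => m + M) atTop atTop :=
        tendsto_atTop_mono (fun n => Nat.le_add_right n M) tendsto_id
      obtain ⟨g, hg, φ, hφ, hgl⟩ := PU_limit hk hk₂ hUc hU hx0 (δn := fun m => (xn (ν (m + M)) : ℝ)) (hxν.comp hsh) hp
      have hgre : g.re ≠ 0 := (DU_re_pos hk hg.1).ne'
      have h1 : Tendsto (fun n => wmap (p (φ n))) atTop (𝓝 (wmap g)) := (continuousAt_wmap hgre).tendsto.comp hgl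
      have h2 : Tendsto (fun n => wmap (p (φ n))) atTop (𝓝 w) := by
        have := hωlim.comp (hsh.comp hφ.tendsto_atTop)
        refine this.congr fun n => ?_
        exact (hpw (φ n)).symm
      exact ⟨g, hg, tendsto_nhds_unique h1 h2⟩
    · exact hb x x.2.1 x.2.2 w hw hw1
  have hop : IsOpen T := by
    rw [← isClosed_compl_iff]
    refine IsSeqClosed.isClosed ?_
    intro xn x hxn hx hxT
    have hx0 : (0 : ℝ) < x := x.2.1
    have hlim : Tendsto (fun n => (xn n : ℝ)) atTop (𝓝 (x : ℝ)) := (continuous_subtype_val.tendsto x).comp hx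
    have hex : ∀ n, ∃ w : ℂ, Zr (xn n) w ∧ w ∉ wmap '' PU k₁ V U (xn n) := fun n => by
      by_contra hcon
      push Not at hcon
      exact hxn n hcon
    choose w hw hwn using hex
    obtain ⟨g, -, φ, hφ, hg⟩ := (isCompact_closedBall (0 : ℂ) 1).tendsto_subseq
      (x := w) (fun n => by rw [mem_closedBall_zero_iff]; exact (hw n).2.1)
    have hxφ : Tendsto (fun n => (xn (φ n) : ℝ)) atTop (𝓝 (x : ℝ)) := hlim.comp hφ.tendsto_atTop
    have hgZ : Zr x g := Zr_limit hx0 hxφ hg fun n => hw (φ n)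
    obtain ⟨p, hp, hpg⟩ := hxT g hgZ
    obtain ⟨j1, j2, j3⟩ := ha x x.2.1 x.2.2 p hp (by rw [hpg]; exact hgZ)
    have j4 : p.im < V := by
      rcases hp.1.2.1.lt_or_eq with h | h
      · exact h
      · exact absurd hp.2.2 (not_le.2 (hV p hp.1 h))
    -- an open neighbourhood of `p`
    set κ : ℝ := ((Bp p).re - Real.pi * x) / 2 with hκ
    have hre : 0 < p.re := DU_re_pos hk hp.1
    set S : Set ℂ := {y | 0 < y.im ∧ y.im < V ∧ k₁ * y.im < y.re ∧ y.re < U y.im ∧ 0 < y.re} ∩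
      (fun y => (Bp y).re) ⁻¹' Iio κ with hS
    have hSopen : S ∈ 𝓝 p := by
      refine inter_mem ?_ ?_
      · have c1 : IsOpen {y : ℂ | 0 < y.im} := isOpen_lt continuous_const Complex.continuous_im
        have c2 : IsOpen {y : ℂ | y.im < V} := isOpen_lt Complex.continuous_im continuous_const
        have c3 : IsOpen {y : ℂ | k₁ * y.im < y.re} :=
          isOpen_lt (continuous_const.mul Complex.continuous_im) Complex.continuous_re
        have c4 : IsOpen {y : ℂ | y.re < U y.im} :=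
          isOpen_lt Complex.continuous_re (hUc.comp Complex.continuous_im)
        have c5 : IsOpen {y : ℂ | 0 < y.re} := isOpen_lt continuous_const Complex.continuous_re
        filter_upwards [c1.mem_nhds hp.1.1, c2.mem_nhds j4, c3.mem_nhds j1, c4.mem_nhds j2, c5.mem_nhds hre]
          with y y1 y2 y3 y4 y5
        exact ⟨y1, y2, y3, y4, y5⟩
      · have h1 : ContinuousAt (fun y => (Bp y).re) p :=
          Complex.continuous_re.continuousAt.comp (continuousAt_Bp hre.ne')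
        refine h1 (Iio_mem_nhds ?_)
        rw [hκ]
        linarith
    have hκ2 : κ < -(Real.pi * x) := by rw [hκ]; linarith
    obtain ⟨S', hS'S, hS'o, hpS'⟩ := mem_nhds_iff.1 hSopen
    have hopen := wmap_open (s := S') (fun y hy => (hS'S hy).1.2.2.2.2) hS'o
    have hev1 : ∀ᶠ n in atTop, w (φ n) ∈ wmap '' S' := hg (hopen.mem_nhds ⟨p, hpS', hpg⟩)
    have hev2 : ∀ᶠ n in atTop, κ < -(Real.pi * (xn (φ n) : ℝ)) :=
      ((hxφ.const_mul Real.pi).neg).eventually (lt_mem_nhds hκ2)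
    obtain ⟨n, ⟨y, hy, hyw⟩, hn2⟩ := (hev1.and hev2).exists
    apply hwn (φ n)
    obtain ⟨⟨y1, y2, y3, y4, y5⟩, y6⟩ := hS'S hy
    refine ⟨y, ⟨⟨y1, y2.le, y3.le, y4.le⟩, ?_, ?_⟩, hyw⟩
    · exact (le_of_lt y6).trans hn2.le
    · rw [hyw]
      exact (hw (φ n)).2.1
  have h0 : (⟨δ₂, right_mem_Ioc.2 hδ₂⟩ : Ioc 0 δ₂) ∈ T := hc
  have huniv : T = univ := IsClopen.eq_univ ⟨hcl, hop⟩ ⟨_, h0⟩
  intro δ hδ hδ2
  have : (⟨δ, hδ, hδ2⟩ : Ioc 0 δ₂) ∈ T := by
    rw [huniv]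
    exact mem_univ _
  exact this

end SokamFU

end

/-! ### Lib_MP_af4de1_fu.Level -/

section
namespace SokamF
end SokamF
/-!
# The tip: level curves of `|w|` in the region `k₁ v ≤ u ≤ U v`
-/

set_option autoImplicit false

namespace SokamFU

open Filter Topology Set SokamF

/-! ### Abstract level curve lemma -/

theorem level_abstract {R : Set ℂ} (hR : IsCompact R) {ρ ψ : ℂ → ℝ} (hρ : ContinuousOn ρ R) (hψ : ContinuousOn ψ R)
    {c t va vb : ℝ} (hab : va ≤ vb) (hex : ∀ v ∈ Icc va vb, ∃ p ∈ R, p.im = v ∧ ρ p = c)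
    (huniq : ∀ p ∈ R, ∀ p' ∈ R, p.im = p'.im → ρ p = c → ρ p' = c → p = p')
    {pa pb : ℂ} (ha : pa ∈ R) (hac : ρ pa = c) (hav : pa.im = va) (hat : ψ pa ≤ t)
    (hb : pb ∈ R) (hbc : ρ pb = c) (hbv : pb.im = vb) (hbt : t ≤ ψ pb) : ∃ p ∈ R, ρ p = c ∧ ψ p = t := by
  have hRc : IsClosed R := hR.isClosed
  have c0 : IsClosed (R ∩ ρ ⁻¹' {c}) := hρ.preimage_isClosed_of_isClosed hRc isClosed_singleton
  have c1 : IsClosed (R ∩ ψ ⁻¹' Iic t) := hψ.preimage_isClosed_of_isClosed hRc isClosed_Iic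
  have c2 : IsClosed (R ∩ ψ ⁻¹' Ici t) := hψ.preimage_isClosed_of_isClosed hRc isClosed_Ici
  set K₁ : Set ℂ := (R ∩ ρ ⁻¹' {c}) ∩ (R ∩ ψ ⁻¹' Iic t) with hK₁
  set K₂ : Set ℂ := (R ∩ ρ ⁻¹' {c}) ∩ (R ∩ ψ ⁻¹' Ici t) with hK₂
  have k1 : IsCompact K₁ := hR.of_isClosed_subset (c0.inter c1) fun x hx => hx.1.1
  have k2 : IsCompact K₂ := hR.of_isClosed_subset (c0.inter c2) fun x hx => hx.1.1
  have i1 : IsClosed (Complex.im '' K₁) := (k1.image Complex.continuous_im).isClosed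
  have i2 : IsClosed (Complex.im '' K₂) := (k2.image Complex.continuous_im).isClosed
  have hpre : IsPreconnected (Icc va vb) := isPreconnected_Icc
  rw [isPreconnected_closed_iff] at hpre
  obtain ⟨v, -, ⟨p, hp, hpv⟩, ⟨p', hp', hpv'⟩⟩ := hpre _ _ i1 i2 (by
    intro v hv
    obtain ⟨p, hpR, hpv, hpc⟩ := hex v hv
    rcases le_total (ψ p) t with h | h
    · exact Or.inl ⟨p, ⟨⟨hpR, hpc⟩, hpR, h⟩, hpv⟩
    · exact Or.inr ⟨p, ⟨⟨hpR, hpc⟩, hpR, h⟩, hpv⟩)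
    ⟨va, left_mem_Icc.2 hab, pa, ⟨⟨ha, hac⟩, ha, hat⟩, hav⟩
    ⟨vb, right_mem_Icc.2 hab, pb, ⟨⟨hb, hbc⟩, hb, hbt⟩, hbv⟩
  have e : p = p' := huniq p hp.1.1 p' hp'.1.1 (by rw [hpv, hpv']) hp.1.2 hp'.1.2
  refine ⟨p, hp.1.1, hp.1.2, le_antisymm hp.2.2 ?_⟩
  rw [e]
  exact hp'.2.2

/-! ### The region -/

/-- `log |w|` -/
noncomputable def lw (p : ℂ) : ℝ := Real.log ‖wmap p‖

/-- hypotheses on the region -/
structure LvHyp (k₁ V : ℝ) (U : ℝ → ℝ) : Prop where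
  k1 : 0 < k₁
  mono : Monotone U
  cont : Continuous U
  conv : ConcaveOn ℝ univ U
  le : ∀ v, 0 < v → v ≤ V → k₁ * v ≤ U v
  g1 : ∀ p ∈ DU k₁ V U, 0 < (Gp p).re
  g2 : ∀ p ∈ DU k₁ V U, p.re * (Gp p).re + p.im * (Gp p).im < 0
  g3 : ∀ v₁ v₂, 0 < v₁ → v₁ ≤ v₂ → v₂ ≤ V → lw ⟨U v₁, v₁⟩ ≤ lw ⟨U v₂, v₂⟩
  hr : ∀ p ∈ DU k₁ V U, 0 < (hR p).re

section

variable {k₁ V : ℝ} {U : ℝ → ℝ}

theorem LvHyp.re_pos (H : LvHyp k₁ V U) {p : ℂ} (hp : p ∈ DU k₁ V U) : 0 < p.re := DU_re_pos H.k1 hp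

theorem LvHyp.convex (H : LvHyp k₁ V U) : Convex ℝ (DU k₁ V U) := by
  have h1 : Convex ℝ {p : ℂ | 0 < p.im} := convex_halfSpace_im_gt 0
  have h2 : Convex ℝ {p : ℂ | p.im ≤ V} := convex_halfSpace_im_le V
  intro p hp p' hp' a b ha hb hab
  have e1 : (a • p + b • p').im = a * p.im + b * p'.im := by simp
  have e2 : (a • p + b • p').re = a * p.re + b * p'.re := by simp
  refine ⟨?_, ?_, ?_, ?_⟩
  · rw [e1]
    rcases ha.lt_or_eq with h | h
    · have := mul_pos h hp.1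
      have := mul_nonneg hb hp'.1.le
      linarith
    · rw [← h] at hab ⊢
      have : b = 1 := by linarith only [hab]
      rw [this]
      have := hp'.1
      linarith only [this]
  · rw [e1]
    have i1 := mul_le_mul_of_nonneg_left hp.2.1 ha
    have i2 := mul_le_mul_of_nonneg_left hp'.2.1 hb
    have : a * V + b * V = V := by rw [← add_mul, hab, one_mul]
    linarith only [i1, i2, this]
  · rw [e1, e2]
    have i1 := mul_le_mul_of_nonneg_left hp.2.2.1 ha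
    have i2 := mul_le_mul_of_nonneg_left hp'.2.2.1 hb
    linarith only [i1, i2]
  · rw [e1, e2]
    have i1 := mul_le_mul_of_nonneg_left hp.2.2.2 ha
    have i2 := mul_le_mul_of_nonneg_left hp'.2.2.2 hb
    have i3 := H.conv.2 (mem_univ p.im) (mem_univ p'.im) ha hb hab
    simp only [smul_eq_mul] at i3
    linarith only [i1, i2, i3]

theorem div_re_im {G p : ℂ} (hp : p ≠ 0) : (G / p).re = (p.re * G.re + p.im * G.im) / Complex.normSq p ∧
    (G / p).im = (p.re * G.im - p.im * G.re) / Complex.normSq p := by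
  have h : Complex.normSq p ≠ 0 := by rwa [Ne, Complex.normSq_eq_zero]
  constructor
  · rw [Complex.div_re]
    field_simp
  · rw [Complex.div_im]
    field_simp

/-- signs of `G/p` -/
theorem LvHyp.signs (H : LvHyp k₁ V U) {p : ℂ} (hp : p ∈ DU k₁ V U) :
    (Gp p / p).re < 0 ∧ (Gp p / p).im < 0 ∧ (Gp p).im < 0 := by
  have h0 := H.re_pos hp
  have hp0 := ne_zero_of_re h0.ne'
  have hn : 0 < Complex.normSq p := Complex.normSq_pos.2 hp0
  have g1 := H.g1 p hp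
  have g2 := H.g2 p hp
  have hv := hp.1
  have g3 : (Gp p).im < 0 := by
    by_contra hcon
    push Not at hcon
    have := mul_pos h0 g1
    have := mul_nonneg hv.le hcon
    linarith
  obtain ⟨e1, e2⟩ := div_re_im (G := Gp p) hp0
  refine ⟨?_, ?_, g3⟩
  · rw [e1]
    exact div_neg_of_neg_of_pos g2 hn
  · rw [e2]
    refine div_neg_of_neg_of_pos ?_ hn
    have := mul_pos hv g1
    have := mul_neg_of_pos_of_neg h0 g3
    linarith

/-- a function with positive derivative along the segment -/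
theorem lt_of_seg {f f' : ℝ → ℝ} (h : ∀ s ∈ Icc (0 : ℝ) 1, HasDerivAt f (f' s) s)
    (hpos : ∀ s ∈ Icc (0 : ℝ) 1, 0 < f' s) : f 0 < f 1 := by
  have hm : StrictMonoOn f (Icc (0 : ℝ) 1) := by
    refine strictMonoOn_of_deriv_pos (convex_Icc 0 1)
      (fun s hs => (h s hs).continuousAt.continuousWithinAt) fun s hs => ?_
    have hs' : s ∈ Icc (0 : ℝ) 1 := interior_subset hs
    rw [(h s hs').deriv]
    exact hpos s hs'
  exact hm (left_mem_Icc.2 zero_le_one) (right_mem_Icc.2 zero_le_one) zero_lt_one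

/-- the segment -/
noncomputable def sg (p p' : ℂ) (s : ℝ) : ℂ := p + (s : ℂ) * (p' - p)

theorem sg_zero (p p' : ℂ) : sg p p' 0 = p := by simp [sg]
theorem sg_one (p p' : ℂ) : sg p p' 1 = p' := by simp [sg]

theorem hasDerivAt_sg (p p' : ℂ) (s : ℝ) : HasDerivAt (sg p p') (p' - p) s := by
  have h1 := ((Complex.ofRealCLM.hasDerivAt (x := s)).mul_const (p' - p)).const_add p
  have e : sg p p' = fun s : ℝ => p + (s : ℂ) * (p' - p) := rfl
  rw [e]
  simpa using h1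

theorem sg_mem (H : LvHyp k₁ V U) {p p' : ℂ} (hp : p ∈ DU k₁ V U) (hp' : p' ∈ DU k₁ V U) {s : ℝ}
    (hs : s ∈ Icc (0 : ℝ) 1) : sg p p' s ∈ DU k₁ V U := by
  have := H.convex hp hp' (a := 1 - s) (b := s) (by linarith only [hs.2]) hs.1 (by ring)
  have e : (1 - s) • p + s • p' = sg p p' s := by
    unfold sg
    simp only [Complex.real_smul]
    push_cast
    ring
  rwa [e] at this

theorem hasDerivAt_psiP {γ : ℝ → ℂ} {γ' : ℂ} {t : ℝ} (hγ : HasDerivAt γ γ' t) (hp : (γ t).re ≠ 0)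
    (hr : 0 < (hR (γ t)).re) : HasDerivAt (fun s => psiP (γ s)) (-(Gp (γ t) / γ t * γ').im) t := by
  have hp0 := ne_zero_of_re hp
  have hR0 := hR_ne_zero hp
  have h1 : HasDerivAt (fun s => hR (γ s)) (hR (γ t) * (1 - hL (γ t)) / γ t * γ') t :=
    (hasDerivAt_hR hp).comp_of_eq t hγ rfl
  have h2 : HasDerivAt (fun s => Complex.log (hR (γ s))) (hR (γ t) * (1 - hL (γ t)) / γ t * γ' / hR (γ t)) t :=
    h1.clog_real (Or.inl hr)
  have h3 := h1.sub h2
  have h4 := (Complex.imCLM.hasFDerivAt (x := hR (γ t) - Complex.log (hR (γ t)))).comp_hasDerivAt t h3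
  have e1 : Complex.imCLM (hR (γ t) * (1 - hL (γ t)) / γ t * γ' - hR (γ t) * (1 - hL (γ t)) / γ t * γ' / hR (γ t)) =
      -(Gp (γ t) / γ t * γ').im := by
    rw [Complex.imCLM_apply, ← Complex.neg_im]
    congr 1
    unfold Gp
    field_simp
    ring
  rw [e1] at h4
  refine h4.congr_of_eventuallyEq (.of_forall fun s => ?_)
  simp only [Function.comp, psiP, Complex.imCLM_apply, Pi.sub_apply, Complex.sub_im, Complex.log_im]

/-- `|w|` decreases in `u` -/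
theorem LvHyp.lw_horizontal (H : LvHyp k₁ V U) {p p' : ℂ} (hp : p ∈ DU k₁ V U) (hp' : p' ∈ DU k₁ V U)
    (him : p.im = p'.im) (hre : p.re < p'.re) : lw p' < lw p := by
  have h := lt_of_seg (f := fun s => -lw (sg p p' s)) (f' := fun s => -(Gp (sg p p' s) / sg p p' s * (p' - p)).re)
    (fun s hs => (hasDerivAt_log_wmap (hasDerivAt_sg p p' s) (H.re_pos (sg_mem H hp hp' hs)).ne').neg)
    (fun s hs => by
      have h1 := (H.signs (sg_mem H hp hp' hs)).1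
      have e : (Gp (sg p p' s) / sg p p' s * (p' - p)).re = (Gp (sg p p' s) / sg p p' s).re * (p'.re - p.re) := by
        rw [Complex.mul_re, Complex.sub_re, Complex.sub_im, him]
        ring
      rw [e]
      have := mul_neg_of_neg_of_pos h1 (sub_pos.2 hre)
      linarith only [this])
  rw [sg_zero, sg_one] at h
  linarith only [h]

/-- `|w|` increases in `v` -/
theorem LvHyp.lw_vertical (H : LvHyp k₁ V U) {p p' : ℂ} (hp : p ∈ DU k₁ V U) (hp' : p' ∈ DU k₁ V U)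
    (hre : p.re = p'.re) (him : p.im < p'.im) : lw p < lw p' := by
  have h := lt_of_seg (f := fun s => lw (sg p p' s)) (f' := fun s => (Gp (sg p p' s) / sg p p' s * (p' - p)).re)
    (fun s hs => hasDerivAt_log_wmap (hasDerivAt_sg p p' s) (H.re_pos (sg_mem H hp hp' hs)).ne')
    (fun s hs => by
      have h1 := (H.signs (sg_mem H hp hp' hs)).2.1
      have e : (Gp (sg p p' s) / sg p p' s * (p' - p)).re = -((Gp (sg p p' s) / sg p p' s).im * (p'.im - p.im)) := by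
        rw [Complex.mul_re, Complex.sub_re, Complex.sub_im, hre]
        ring
      rw [e]
      have := mul_neg_of_neg_of_pos h1 (sub_pos.2 him)
      linarith only [this])
  rw [sg_zero, sg_one] at h
  exact h

/-- `|w|` increases along the left side -/
theorem LvHyp.lw_left (H : LvHyp k₁ V U) {v₁ v₂ : ℝ} (h0 : 0 < v₁) (h12 : v₁ < v₂) (hV : v₂ ≤ V) :
    lw ⟨k₁ * v₁, v₁⟩ < lw ⟨k₁ * v₂, v₂⟩ := by
  have hp : (⟨k₁ * v₁, v₁⟩ : ℂ) ∈ DU k₁ V U := ⟨h0, h12.le.trans hV, le_rfl, H.le v₁ h0 (h12.le.trans hV)⟩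
  have hp' : (⟨k₁ * v₂, v₂⟩ : ℂ) ∈ DU k₁ V U := ⟨h0.trans h12, hV, le_rfl, H.le v₂ (h0.trans h12) hV⟩
  set p : ℂ := ⟨k₁ * v₁, v₁⟩ with hpd
  set p' : ℂ := ⟨k₁ * v₂, v₂⟩ with hpd'
  have h := lt_of_seg (f := fun s => lw (sg p p' s)) (f' := fun s => (Gp (sg p p' s) / sg p p' s * (p' - p)).re)
    (fun s hs => hasDerivAt_log_wmap (hasDerivAt_sg p p' s) (H.re_pos (sg_mem H hp hp' hs)).ne')
    (fun s hs => by
      have hm := sg_mem H hp hp' hs
      have h1 := H.g1 _ hm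
      have hv := hm.1
      have hsv : (sg p p' s).im = v₁ + s * (v₂ - v₁) := by
        simp [sg, hpd, hpd']
      have e0 : sg p p' s = (((sg p p' s).im : ℝ) : ℂ) * ((k₁ : ℂ) + Complex.I) := by
        apply Complex.ext
        · rw [hsv]
          simp [sg, hpd, hpd']
          ring
        · rw [hsv]
          simp [sg, hpd, hpd']
      have e1 : p' - p = ((v₂ - v₁ : ℝ) : ℂ) * ((k₁ : ℂ) + Complex.I) := by
        apply Complex.ext
        · simp [hpd, hpd']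
          ring
        · simp [hpd, hpd']
      have hk : (k₁ : ℂ) + Complex.I ≠ 0 := by
        intro h
        have := congrArg Complex.im h
        simp at this
      have hvc : (((sg p p' s).im : ℝ) : ℂ) ≠ 0 := Complex.ofReal_ne_zero.2 hv.ne'
      have e2 : Gp (sg p p' s) / sg p p' s * (p' - p) = (((v₂ - v₁) / (sg p p' s).im : ℝ) : ℂ) * Gp (sg p p' s) := by
        generalize sg p p' s = z at e0 hvc ⊢
        obtain ⟨m, hm2⟩ : ∃ m, m = z.im := ⟨_, rfl⟩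
        rw [← hm2] at e0 hvc ⊢
        have hwz : ((k₁ : ℂ) + Complex.I) / z = (m : ℂ)⁻¹ := by
          rw [e0]
          field_simp
        have e3 : Gp z / z * (((v₂ - v₁ : ℝ) : ℂ) * ((k₁ : ℂ) + Complex.I)) =
            Gp z * ((v₂ - v₁ : ℝ) : ℂ) * (((k₁ : ℂ) + Complex.I) / z) := by ring
        rw [e1, e3, hwz]
        push_cast
        ring
      rw [e2, Complex.re_ofReal_mul]
      exact mul_pos (div_pos (sub_pos.2 h12) hv) h1)
  rw [sg_zero, sg_one] at h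
  exact h

/-- `ψ` increases up and to the right -/
theorem LvHyp.psi_lt (H : LvHyp k₁ V U) {p p' : ℂ} (hp : p ∈ DU k₁ V U) (hp' : p' ∈ DU k₁ V U)
    (hre : p.re ≤ p'.re) (him : p.im < p'.im) : psiP p < psiP p' := by
  have h := lt_of_seg (f := fun s => psiP (sg p p' s)) (f' := fun s => -(Gp (sg p p' s) / sg p p' s * (p' - p)).im)
    (fun s hs => hasDerivAt_psiP (hasDerivAt_sg p p' s) (H.re_pos (sg_mem H hp hp' hs)).ne'
      (H.hr _ (sg_mem H hp hp' hs)))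
    (fun s hs => by
      have h1 := (H.signs (sg_mem H hp hp' hs)).1
      have h2 := (H.signs (sg_mem H hp hp' hs)).2.1
      rw [Complex.mul_im, Complex.sub_re, Complex.sub_im]
      have i1 := mul_neg_of_neg_of_pos h1 (sub_pos.2 him)
      have i2 := mul_nonpos_of_nonpos_of_nonneg h2.le (sub_nonneg.2 hre)
      linarith only [i1, i2])
  rw [sg_zero, sg_one] at h
  exact h

/-- `Re B` decreases up and to the right -/
theorem LvHyp.B_lt (H : LvHyp k₁ V U) {p p' : ℂ} (hp : p ∈ DU k₁ V U) (hp' : p' ∈ DU k₁ V U)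
    (hre : p.re ≤ p'.re) (him : p.im ≤ p'.im) : (Bp p').re ≤ (Bp p).re := by
  rcases eq_or_ne p p' with rfl | hne
  · exact le_rfl
  have h := lt_of_seg (f := fun s => -(Bp (sg p p' s)).re) (f' := fun s => -(-(Gp (sg p p' s) * (p' - p)).re))
    (fun s hs => (hasDerivAt_Bp_re (hasDerivAt_sg p p' s) (H.re_pos (sg_mem H hp hp' hs)).ne').neg)
    (fun s hs => by
      have hm := sg_mem H hp hp' hs
      have h1 := H.g1 _ hm
      have h2 := (H.signs hm).2.2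
      rw [neg_neg, Complex.mul_re, Complex.sub_re, Complex.sub_im]
      rcases him.lt_or_eq with h3 | h3
      · have i1 := mul_neg_of_neg_of_pos h2 (sub_pos.2 h3)
        have i2 := mul_nonneg h1.le (sub_nonneg.2 hre)
        linarith only [i1, i2]
      · have h4 : p.re < p'.re := by
          refine lt_of_le_of_ne hre fun h5 => hne ?_
          exact Complex.ext h5 h3
        have i2 := mul_pos h1 (sub_pos.2 h4)
        rw [h3, sub_self, mul_zero, sub_zero]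
        exact i2)
  rw [sg_zero, sg_one] at h
  linarith only [h]

/-- **The level curve between two points.** -/
theorem LvHyp.level (H : LvHyp k₁ V U) {pa pb : ℂ} (ha : pa ∈ DU k₁ V U) (hb : pb ∈ DU k₁ V U)
    (hc : lw pa = lw pb) (hv : pa.im ≤ pb.im) :
    pa.re ≤ pb.re ∧ ∀ t ∈ Icc (psiP pa) (psiP pb), ∃ p ∈ DU k₁ V U, lw p = lw pa ∧ psiP p = t ∧
      pa.re ≤ p.re ∧ pa.im ≤ p.im ∧ p.re ≤ pb.re ∧ p.im ≤ pb.im := by
  -- a point above `pa` or left ...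
  have hre : pa.re ≤ pb.re := by
    by_contra hcon
    push Not at hcon
    -- `q = (pb.re, pa.im)`
    have hq : (⟨pb.re, pa.im⟩ : ℂ) ∈ DU k₁ V U := by
      refine ⟨ha.1, ha.2.1, ?_, ?_⟩
      · exact (mul_le_mul_of_nonneg_left hv H.k1.le).trans hb.2.2.1
      · exact hcon.le.trans ha.2.2.2
    have h1 := H.lw_horizontal hq ha rfl hcon
    rcases hv.lt_or_eq with h2 | h2
    · have h3 := H.lw_vertical hq hb rfl h2
      linarith only [hc, h1, h3]
    · have : (⟨pb.re, pa.im⟩ : ℂ) = pb := Complex.ext rfl h2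
      rw [this] at h1
      linarith only [hc, h1]
  refine ⟨hre, fun t ht => ?_⟩
  set R : Set ℂ := {p | pa.re ≤ p.re ∧ p.re ≤ pb.re ∧ pa.im ≤ p.im ∧ p.im ≤ pb.im ∧ k₁ * p.im ≤ p.re ∧ p.re ≤ U p.im}
    with hRd
  have hRD : R ⊆ DU k₁ V U := fun p hp => ⟨ha.1.trans_le hp.2.2.1, hp.2.2.2.1.trans hb.2.1, hp.2.2.2.2.1, hp.2.2.2.2.2⟩
  have hRcl : IsClosed R := by
    have c1 : IsClosed {p : ℂ | pa.re ≤ p.re} := isClosed_le continuous_const Complex.continuous_re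
    have c2 : IsClosed {p : ℂ | p.re ≤ pb.re} := isClosed_le Complex.continuous_re continuous_const
    have c3 : IsClosed {p : ℂ | pa.im ≤ p.im} := isClosed_le continuous_const Complex.continuous_im
    have c4 : IsClosed {p : ℂ | p.im ≤ pb.im} := isClosed_le Complex.continuous_im continuous_const
    have c5 : IsClosed {p : ℂ | k₁ * p.im ≤ p.re} :=
      isClosed_le (continuous_const.mul Complex.continuous_im) Complex.continuous_re
    have c6 : IsClosed {p : ℂ | p.re ≤ U p.im} :=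
      isClosed_le Complex.continuous_re (H.cont.comp Complex.continuous_im)
    exact c1.inter (c2.inter (c3.inter (c4.inter (c5.inter c6))))
  have hRco : IsCompact R := by
    refine (isCompact_closedBall (0 : ℂ) (pb.re + pb.im)).of_isClosed_subset hRcl fun p hp => ?_
    rw [mem_closedBall_zero_iff]
    have h1 := Complex.norm_le_abs_re_add_abs_im p
    have h2 := H.re_pos (hRD hp)
    have h3 := (hRD hp).1
    rw [abs_of_pos h2, abs_of_pos h3] at h1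
    exact h1.trans (add_le_add hp.2.1 hp.2.2.2.1)
  have hlw : ContinuousOn lw R := fun p hp => by
    have h0 := (H.re_pos (hRD hp)).ne'
    have h1 : ContinuousAt lw p := by
      unfold lw
      exact ((continuousAt_wmap h0).norm).log (norm_ne_zero_iff.2 (wmap_ne_zero h0))
    exact h1.continuousWithinAt
  have hps : ContinuousOn psiP R := fun p hp =>
    (continuousAt_psiP (H.re_pos (hRD hp)).ne' (H.hr p (hRD hp))).continuousWithinAt
  have haR : pa ∈ R := ⟨le_rfl, hre, le_rfl, hv, ha.2.2.1, ha.2.2.2⟩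
  have hbR : pb ∈ R := ⟨hre, le_rfl, hv, le_rfl, hb.2.2.1, hb.2.2.2⟩
  obtain ⟨p, hpR, hpc, hpt⟩ := level_abstract (c := lw pa) (t := t) hRco hlw hps hv (by
    intro v hvI
    have hv0 : 0 < v := ha.1.trans_le hvI.1
    have hvV : v ≤ V := hvI.2.trans hb.2.1
    set l : ℝ := max pa.re (k₁ * v) with hl
    set r : ℝ := min pb.re (U v) with hr
    have hUa : pa.re ≤ U v := ha.2.2.2.trans (H.mono hvI.1)
    have hLb : k₁ * v ≤ pb.re := (mul_le_mul_of_nonneg_left hvI.2 H.k1.le).trans hb.2.2.1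
    have hlr : l ≤ r := max_le (le_min hre hUa) (le_min hLb (H.le v hv0 hvV))
    have hin : ∀ u ∈ Icc l r, (⟨u, v⟩ : ℂ) ∈ R := fun u hu =>
      ⟨(le_max_left _ _).trans hu.1, hu.2.trans (min_le_left _ _), hvI.1, hvI.2, (le_max_right _ _).trans hu.1,
        hu.2.trans (min_le_right _ _)⟩
    -- left end
    have hL : lw pa ≤ lw ⟨l, v⟩ := by
      -- the point `(pa.re, v')` with `v' = min v (pa.re / k₁)`
      by_cases h1 : k₁ * v ≤ pa.re
      · have e : l = pa.re := max_eq_left h1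
        have hm := hin l (left_mem_Icc.2 hlr)
        rw [e] at hm ⊢
        rcases hvI.1.lt_or_eq with h2 | h2
        · exact (H.lw_vertical (p' := ⟨pa.re, v⟩) ha (hRD hm) rfl h2).le
        · have : (⟨pa.re, v⟩ : ℂ) = pa := Complex.ext rfl h2.symm
          rw [this]
      · push Not at h1
        have e : l = k₁ * v := max_eq_right h1.le
        rw [e]
        set v' : ℝ := pa.re / k₁ with hv'
        have e' : k₁ * v' = pa.re := by rw [hv']; field_simp [H.k1.ne']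
        have hv'v : v' < v := by
          rw [hv', div_lt_iff₀ H.k1]
          linarith only [h1]
        have hav' : pa.im ≤ v' := by
          rw [hv', le_div_iff₀ H.k1]
          linarith only [ha.2.2.1]
        have hv'0 : 0 < v' := ha.1.trans_le hav'
        have h3 := H.lw_left hv'0 hv'v hvV
        rw [e'] at h3
        have hm : (⟨pa.re, v'⟩ : ℂ) ∈ DU k₁ V U := by
          refine ⟨hv'0, hv'v.le.trans hvV, e'.le, ?_⟩
          exact ha.2.2.2.trans (H.mono hav')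
        rcases hav'.lt_or_eq with h2 | h2
        · exact ((H.lw_vertical ha hm rfl h2).trans h3).le
        · have : (⟨pa.re, v'⟩ : ℂ) = pa := Complex.ext rfl h2.symm
          rw [this] at h3
          exact h3.le
    -- right end
    have hR : lw ⟨r, v⟩ ≤ lw pa := by
      rw [hc]
      by_cases h1 : pb.re ≤ U v
      · have e : r = pb.re := min_eq_left h1
        have hm := hin r (right_mem_Icc.2 hlr)
        rw [e] at hm ⊢
        rcases hvI.2.lt_or_eq with h2 | h2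
        · exact (H.lw_vertical (p := ⟨pb.re, v⟩) (hRD hm) hb rfl h2).le
        · have : (⟨pb.re, v⟩ : ℂ) = pb := Complex.ext rfl h2
          rw [this]
      · push Not at h1
        have e : r = U v := min_eq_right h1.le
        rw [e]
        -- `v'` with `U v' = pb.re`
        obtain ⟨v', hv'I, hv'⟩ : ∃ v' ∈ Icc v pb.im, U v' = pb.re :=
          intermediate_value_Icc hvI.2 H.cont.continuousOn ⟨h1.le, hb.2.2.2⟩
        have h3 := H.g3 v v' hv0 hv'I.1 (hv'I.2.trans hb.2.1)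
        rw [hv'] at h3
        have hm : (⟨pb.re, v'⟩ : ℂ) ∈ DU k₁ V U := by
          refine ⟨hv0.trans_le hv'I.1, hv'I.2.trans hb.2.1, ?_, hv'.ge⟩
          exact (mul_le_mul_of_nonneg_left hv'I.2 H.k1.le).trans hb.2.2.1
        rcases hv'I.2.lt_or_eq with h2 | h2
        · exact h3.trans (H.lw_vertical hm hb rfl h2).le
        · have : (⟨pb.re, v'⟩ : ℂ) = pb := Complex.ext rfl h2
          rw [this] at h3
          exact h3
    -- intermediate value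
    have hcont : ContinuousOn (fun u : ℝ => lw ⟨u, v⟩) (Icc l r) := by
      have h1 : ContinuousOn (fun u : ℝ => (⟨u, v⟩ : ℂ)) (Icc l r) := by
        have : (fun u : ℝ => (⟨u, v⟩ : ℂ)) = fun u : ℝ => (u : ℂ) + (v : ℂ) * Complex.I := by
          funext u
          exact Complex.mk_eq_add_mul_I u v
        rw [this]
        fun_prop
      exact hlw.comp h1 hin
    obtain ⟨u, hu, huc⟩ := intermediate_value_Icc' hlr hcont ⟨hR, hL⟩
    exact ⟨⟨u, v⟩, hin u hu, rfl, huc⟩)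
    (by
      intro p hp p' hp' him h1 h2
      rcases lt_trichotomy p.re p'.re with h | h | h
      · have := H.lw_horizontal (hRD hp) (hRD hp') him h
        linarith only [h1, h2, this]
      · exact Complex.ext h him
      · have := H.lw_horizontal (hRD hp') (hRD hp) him.symm h
        linarith only [h1, h2, this])
    haR rfl rfl ht.1 hbR hc.symm rfl ht.2
  exact ⟨p, hRD hpR, hpc, hpt, hpR.1, hpR.2.2.1, hpR.2.1, hpR.2.2.2.1⟩

/-- the level curve stays in the window -/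
theorem LvHyp.level_window (H : LvHyp k₁ V U) {δ : ℝ} {pa pb : ℂ} (ha : pa ∈ PU k₁ V U δ) (hb : pb ∈ DU k₁ V U)
    (hc : ‖wmap pa‖ = ‖wmap pb‖) (hv : pa.im ≤ pb.im) :
    ∀ t ∈ Icc (psiP pa) (psiP pb), ∃ p ∈ PU k₁ V U δ, ‖wmap p‖ = ‖wmap pa‖ ∧ psiP p = t := by
  intro t ht
  have hc' : lw pa = lw pb := by unfold lw; rw [hc]
  obtain ⟨p, hp, h1, h2, h3, h4, -, -⟩ := (H.level ha.1 hb hc' hv).2 t ht
  have e : ‖wmap p‖ = ‖wmap pa‖ :=
    Real.log_injOn_pos (mem_Ioi.2 (norm_pos_iff.2 (wmap_ne_zero (H.re_pos hp).ne')))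
      (mem_Ioi.2 (norm_pos_iff.2 (wmap_ne_zero (H.re_pos ha.1).ne'))) h1
  exact ⟨p, ⟨hp, (H.B_lt ha.1 hp h3 h4).trans ha.2.1, e.le.trans ha.2.2⟩, e, h2⟩

/-- **At most one zero of `G` on each level curve in the window.** -/
theorem LvHyp.arc_inj (H : LvHyp k₁ V U) {δ : ℝ} {G : ℝ → ℝ → ℝ}
    (hG : ∀ p ∈ PU k₁ V U δ, ∃ D, 0 < D ∧ HasDerivAt (G ‖wmap p‖) D (psiP p))
    {p₀ p₁ : ℂ} (h₀ : p₀ ∈ PU k₁ V U δ) (h₁ : p₁ ∈ PU k₁ V U δ) (hc : ‖wmap p₀‖ = ‖wmap p₁‖)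
    (z₀ : G ‖wmap p₀‖ (psiP p₀) = 0) (z₁ : G ‖wmap p₁‖ (psiP p₁) = 0) : p₀ = p₁ := by
  -- wlog `p₀.im ≤ p₁.im`
  have key : ∀ q₀ q₁ : ℂ, q₀ ∈ PU k₁ V U δ → q₁ ∈ PU k₁ V U δ → ‖wmap q₀‖ = ‖wmap q₁‖ →
      G ‖wmap q₀‖ (psiP q₀) = 0 → G ‖wmap q₁‖ (psiP q₁) = 0 → ¬ q₀.im < q₁.im := by
    intro q₀ q₁ m₀ m₁ hcc y₀ y₁ hlt
    have hc' : lw q₀ = lw q₁ := by unfold lw; rw [hcc]
    have hre := (H.level m₀.1 m₁.1 hc' hlt.le).1
    have hps := H.psi_lt m₀.1 m₁.1 hre hlt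
    have hder : ∀ t ∈ Icc (psiP q₀) (psiP q₁), ∃ D, 0 < D ∧ HasDerivAt (G ‖wmap q₀‖) D t := by
      intro t ht
      obtain ⟨p, hp, hpc, hpt⟩ := H.level_window m₀ m₁.1 hcc hlt.le t ht
      obtain ⟨D, hD, hD2⟩ := hG p hp
      rw [hpc, hpt] at hD2
      exact ⟨D, hD, hD2⟩
    have hm : StrictMonoOn (G ‖wmap q₀‖) (Icc (psiP q₀) (psiP q₁)) := by
      refine strictMonoOn_of_deriv_pos (convex_Icc _ _) (fun t ht => ?_) fun t ht => ?_
      · obtain ⟨D, -, hD⟩ := hder t ht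
        exact hD.continuousAt.continuousWithinAt
      · obtain ⟨D, hD, hD2⟩ := hder t (interior_subset ht)
        rw [hD2.deriv]
        exact hD
    have h2 := hm (left_mem_Icc.2 hps.le) (right_mem_Icc.2 hps.le) hps
    rw [y₀, hcc, y₁] at h2
    exact lt_irrefl _ h2
  have e1 := key p₀ p₁ h₀ h₁ hc z₀ z₁
  have e2 := key p₁ p₀ h₁ h₀ hc.symm z₁ z₀
  have him : p₀.im = p₁.im := le_antisymm (not_lt.1 e2) (not_lt.1 e1)
  have hc' : lw p₀ = lw p₁ := by unfold lw; rw [hc]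
  rcases lt_trichotomy p₀.re p₁.re with h | h | h
  · have := H.lw_horizontal h₀.1 h₁.1 him h
    linarith only [hc', this]
  · exact Complex.ext h him
  · have := H.lw_horizontal h₁.1 h₀.1 him.symm h
    linarith only [hc', this]

end

end SokamFU

end

/-! ### Lib_MP_af4de1_fu.UReg -/

section
namespace SokamF
end SokamF
/-!
# The tip: the region with `U v = min (4v/5) (32/25 + (11/50) (v - 8/5))`, `k₁ = 2/5`, `V = 19/5`
-/

set_option autoImplicit false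

namespace SokamFU

open Filter Topology Set SokamF

/-- the right side -/
noncomputable def Uf (v : ℝ) : ℝ := min (4 / 5 * v) (32 / 25 + 11 / 50 * (v - 8 / 5))

theorem Uf_mono : Monotone Uf := fun v v' h => by
  unfold Uf
  exact min_le_min (by linarith only [h]) (by linarith only [h])

theorem Uf_cont : Continuous Uf := by
  unfold Uf
  fun_prop

theorem Uf_concave : ConcaveOn ℝ univ Uf := by
  have h1 : ConcaveOn ℝ univ (fun v : ℝ => 4 / 5 * v) := by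
    refine ⟨convex_univ, fun x _ y _ a b _ _ _ => ?_⟩
    simp only [smul_eq_mul]
    linarith only []
  have h2 : ConcaveOn ℝ univ (fun v : ℝ => 32 / 25 + 11 / 50 * (v - 8 / 5)) := by
    refine ⟨convex_univ, fun x _ y _ a b _ _ hab => ?_⟩
    simp only [smul_eq_mul]
    have : b = 1 - a := by linarith only [hab]
    subst this
    linarith only []
  exact h1.inf h2

theorem Uf_le (v : ℝ) : Uf v ≤ 4 / 5 * v := min_le_left _ _

theorem Uf_ge {v : ℝ} (h0 : 0 < v) (hV : v ≤ 19 / 5) : 2 / 5 * v ≤ Uf v := le_min (by linarith only [h0]) (by linarith only [hV])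

theorem Uf_low {v : ℝ} (h : v ≤ 8 / 5) : Uf v = 4 / 5 * v := min_eq_left (by linarith only [h])

theorem Uf_high {v : ℝ} (h : 8 / 5 ≤ v) : Uf v = 32 / 25 + 11 / 50 * (v - 8 / 5) := min_eq_right (by linarith only [h])

/-- the region -/
abbrev Dtip : Set ℂ := DU (2 / 5) (19 / 5) Uf

/-- the window -/
abbrev Ptip (δ : ℝ) : Set ℂ := PU (2 / 5) (19 / 5) Uf δ

theorem mem_Dtip {v : ℝ} (h0 : 0 < v) (hV : v ≤ 19 / 5) : (⟨Uf v, v⟩ : ℂ) ∈ Dtip := ⟨h0, hV, Uf_ge h0 hV, le_rfl⟩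

/-- The hypotheses from (G1), (G2), (G3), `Re h_R > 0`. -/
theorem lvHyp_tip (g1 : ∀ p ∈ Dtip, 0 < (Gp p).re) (g2 : ∀ p ∈ Dtip, p.re * (Gp p).re + p.im * (Gp p).im < 0)
    (g3 : ∀ v, 8 / 5 ≤ v → v ≤ 19 / 5 → 0 < (Gp ⟨Uf v, v⟩ / ⟨Uf v, v⟩ * (11 / 50 + Complex.I)).re)
    (hr : ∀ p ∈ Dtip, 0 < (hR p).re) : LvHyp (2 / 5) (19 / 5) Uf := by
  have low : ∀ v₁ v₂, 0 < v₁ → v₁ ≤ v₂ → v₂ ≤ 8 / 5 → lw ⟨Uf v₁, v₁⟩ ≤ lw ⟨Uf v₂, v₂⟩ := by
    intro v₁ v₂ h0 h12 h2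
    rcases h12.lt_or_eq with h | h
    · set p : ℂ := ⟨Uf v₁, v₁⟩ with hp
      set p' : ℂ := ⟨Uf v₂, v₂⟩ with hp'
      have hv : ∀ s ∈ Icc (0 : ℝ) 1, (sg p p' s).im = v₁ + s * (v₂ - v₁) := fun s _ => by
        simp [sg, hp, hp']
      have hvI : ∀ s ∈ Icc (0 : ℝ) 1, 0 < (sg p p' s).im ∧ (sg p p' s).im ≤ 8 / 5 := fun s hs => by
        rw [hv s hs]
        constructor
        · have := mul_nonneg hs.1 (sub_nonneg.2 h12)
          linarith only [h0, hp', this]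
        · have := mul_le_mul_of_nonneg_right hs.2 (sub_nonneg.2 h12)
          linarith only [h2, this]
      have hre : ∀ s ∈ Icc (0 : ℝ) 1, (sg p p' s).re = 4 / 5 * (sg p p' s).im := fun s hs => by
        rw [hv s hs]
        have e1 : p.re = 4 / 5 * v₁ := Uf_low (h12.trans h2)
        have e2 : p'.re = 4 / 5 * v₂ := Uf_low h2
        have : (sg p p' s).re = p.re + s * (p'.re - p.re) := by simp [sg]
        rw [this, e1, e2]
        ring
      have hm : ∀ s ∈ Icc (0 : ℝ) 1, sg p p' s ∈ Dtip := fun s hs => by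
        obtain ⟨i1, i2⟩ := hvI s hs
        refine ⟨i1, by linarith only [i2], ?_, ?_⟩
        · rw [hre s hs]; linarith only [i1]
        · rw [hre s hs, Uf_low i2]
      have h3 := lt_of_seg (f := fun s => lw (sg p p' s))
        (f' := fun s => (Gp (sg p p' s) / sg p p' s * (p' - p)).re)
        (fun s hs => hasDerivAt_log_wmap (hasDerivAt_sg p p' s) (DU_re_pos (by norm_num) (hm s hs)).ne')
        (fun s hs => by
          have h1 := g1 _ (hm s hs)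
          have hvp := (hvI s hs).1
          have e1 : p' - p = ((v₂ - v₁ : ℝ) : ℂ) * ((4 / 5 : ℝ) + Complex.I) := by
            apply Complex.ext
            · have a1 : p.re = 4 / 5 * v₁ := Uf_low (h12.trans h2)
              have a2 : p'.re = 4 / 5 * v₂ := Uf_low h2
              rw [Complex.sub_re, a1, a2]
              simp
              ring
            · simp [hp, hp']
          have e0 : sg p p' s = (((sg p p' s).im : ℝ) : ℂ) * ((4 / 5 : ℝ) + Complex.I) := by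
            apply Complex.ext
            · rw [hre s hs]
              simp
              ring
            · simp
          have hvc : (((sg p p' s).im : ℝ) : ℂ) ≠ 0 := Complex.ofReal_ne_zero.2 hvp.ne'
          have hk : ((4 / 5 : ℝ) : ℂ) + Complex.I ≠ 0 := by
            intro h
            have := congrArg Complex.im h
            simp at this
          have e2 : Gp (sg p p' s) / sg p p' s * (p' - p) =
              (((v₂ - v₁) / (sg p p' s).im : ℝ) : ℂ) * Gp (sg p p' s) := by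
            generalize sg p p' s = z at e0 hvc ⊢
            obtain ⟨m, hm2⟩ : ∃ m, m = z.im := ⟨_, rfl⟩
            rw [← hm2] at e0 hvc ⊢
            have hwz : (((4 / 5 : ℝ) : ℂ) + Complex.I) / z = (m : ℂ)⁻¹ := by
              rw [e0, div_mul_eq_div_div_swap, div_self hk, one_div]
            have e3 : Gp z / z * (((v₂ - v₁ : ℝ) : ℂ) * (((4 / 5 : ℝ) : ℂ) + Complex.I)) =
                Gp z * ((v₂ - v₁ : ℝ) : ℂ) * ((((4 / 5 : ℝ) : ℂ) + Complex.I) / z) := by ring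
            rw [e1, e3, hwz]
            push_cast
            ring
          rw [e2, Complex.re_ofReal_mul]
          exact mul_pos (div_pos (sub_pos.2 h) hvp) h1)
      rw [sg_zero, sg_one] at h3
      exact h3.le
    · rw [h]
  have high : ∀ v₁ v₂, 8 / 5 ≤ v₁ → v₁ ≤ v₂ → v₂ ≤ 19 / 5 → lw ⟨Uf v₁, v₁⟩ ≤ lw ⟨Uf v₂, v₂⟩ := by
    intro v₁ v₂ h0 h12 h2
    rcases h12.lt_or_eq with h | h
    · set p : ℂ := ⟨Uf v₁, v₁⟩ with hp
      set p' : ℂ := ⟨Uf v₂, v₂⟩ with hp'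
      have hv : ∀ s ∈ Icc (0 : ℝ) 1, (sg p p' s).im = v₁ + s * (v₂ - v₁) := fun s _ => by
        simp [sg, hp, hp']
      have hvI : ∀ s ∈ Icc (0 : ℝ) 1, 8 / 5 ≤ (sg p p' s).im ∧ (sg p p' s).im ≤ 19 / 5 := fun s hs => by
        rw [hv s hs]
        constructor
        · have := mul_nonneg hs.1 (sub_nonneg.2 h12)
          linarith only [h0, this]
        · have := mul_le_mul_of_nonneg_right hs.2 (sub_nonneg.2 h12)
          linarith only [h2, this]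
      have a1 : p.re = 32 / 25 + 11 / 50 * (v₁ - 8 / 5) := Uf_high h0
      have a2 : p'.re = 32 / 25 + 11 / 50 * (v₂ - 8 / 5) := Uf_high (h0.trans h12)
      have e0 : ∀ s ∈ Icc (0 : ℝ) 1, sg p p' s = ⟨Uf (sg p p' s).im, (sg p p' s).im⟩ := fun s hs => by
        apply Complex.ext
        · show (sg p p' s).re = Uf (sg p p' s).im
          rw [Uf_high (hvI s hs).1, hv s hs]
          have : (sg p p' s).re = p.re + s * (p'.re - p.re) := by simp [sg]
          rw [this, a1, a2]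
          ring
        · rfl
      have hm : ∀ s ∈ Icc (0 : ℝ) 1, sg p p' s ∈ Dtip := fun s hs => by
        rw [e0 s hs]
        exact mem_Dtip (by linarith only [(hvI s hs).1]) (hvI s hs).2
      have h3 := lt_of_seg (f := fun s => lw (sg p p' s))
        (f' := fun s => (Gp (sg p p' s) / sg p p' s * (p' - p)).re)
        (fun s hs => hasDerivAt_log_wmap (hasDerivAt_sg p p' s) (DU_re_pos (by norm_num) (hm s hs)).ne')
        (fun s hs => by
          have h1 := g3 _ (hvI s hs).1 (hvI s hs).2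
          rw [← e0 s hs] at h1
          have e1 : p' - p = ((v₂ - v₁ : ℝ) : ℂ) * (11 / 50 + Complex.I) := by
            apply Complex.ext
            · rw [Complex.sub_re, a1, a2, Complex.re_ofReal_mul, Complex.add_re, Complex.I_re, add_zero]
              have : ((11 : ℂ) / 50).re = 11 / 50 := by norm_num
              rw [this]
              ring
            · rw [Complex.sub_im, Complex.im_ofReal_mul, Complex.add_im, Complex.I_im]
              have : ((11 : ℂ) / 50).im = 0 := by norm_num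
              rw [this]
              simp [hp, hp']
          have e2 : Gp (sg p p' s) / sg p p' s * (p' - p) =
              ((v₂ - v₁ : ℝ) : ℂ) * (Gp (sg p p' s) / sg p p' s * (11 / 50 + Complex.I)) := by
            rw [e1]; ring
          rw [e2, Complex.re_ofReal_mul]
          exact mul_pos (sub_pos.2 h) h1)
      rw [sg_zero, sg_one] at h3
      exact h3.le
    · rw [h]
  refine ⟨by norm_num, Uf_mono, Uf_cont, Uf_concave, fun v h0 hV => Uf_ge h0 hV, g1, g2, ?_, hr⟩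
  intro v₁ v₂ h0 h12 h2
  rcases le_total v₂ (8 / 5) with h | h
  · exact low v₁ v₂ h0 h12 h
  · rcases le_total (8 / 5) v₁ with h' | h'
    · exact high v₁ v₂ h' h12 h2
    · exact (low v₁ (8 / 5) h0 h' le_rfl).trans (high (8 / 5) v₂ le_rfl h h2)

end SokamFU

end

/-! ### Lib_MP_af4de1_ti.Cond -/

section
namespace SokamFU
end SokamFU
/-!
# The tip: the numerical conditions

The closed forms `relL, bL, relR, bR` of Lemma L and Lemma R are in `Bounds.lean`.  Conditions on the region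
`D = {0 < v ≤ 19/5, 2v/5 ≤ u ≤ Uf v}`, `P_δ = {p ∈ D : Re B ≤ -πδ, |w| ≤ 1}`.
-/

set_option autoImplicit false

namespace SokamTI

open Complex SokamFU

/-! ### The region -/

/-- the region `D` (helper19's `Dtip`) -/
noncomputable abbrev DT : Set ℂ := Dtip

/-- the window `P_δ` (helper19's `Ptip`) -/
noncomputable abbrev PT (δ : ℝ) : Set ℂ := Ptip δ

/-! ### The conditions -/

/-- (G1), (G2) -/
def CondG (p : ℂ) : Prop := 0 < (Gp p).re ∧ p.re * (Gp p).re < -(Gp p).im * p.im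

/-- pointwise conditions, (W1) -/
structure PtCond (p : ℂ) (δ : ℝ) : Prop where
  lamL : 24 / 5 * δ ≤ -(hL p).im
  xs : arg (hR p) ≤ (hR p).im
  x54 : arg (hR p) ≤ 5 / 4
  s5a : (hR p).im ≤ 5 * (hR p).re
  a97 : 97 / 100 ≤ (hR p).re
  qpos : 0 < qp (hR p)
  relL1 : relL (hL p) δ < 1
  relR1 : relR (hR p) δ < 1
  sum : bL (hL p) δ + bR (hR p) δ < p.re

/-- the left side: `|L| < |R|` -/
def CondL (p : ℂ) (δ : ℝ) : Prop :=
  Real.exp ((Bp p).im / δ) * (1 + relL (hL p) δ) * √‖1 - hR p‖ < (1 - relR (hR p) δ) * √‖1 - hL p‖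

/-- the right side: `|R| < |L|` -/
def CondR (p : ℂ) (δ : ℝ) : Prop :=
  Real.exp (-((Bp p).im / δ)) * (1 + relR (hR p) δ) * √‖1 - hL p‖ < (1 - relL (hL p) δ) * √‖1 - hR p‖

/-- the inner end, with the direction `1 + 3i` -/
def CondI (p : ℂ) (δ : ℝ) : Prop :=
  3 / 5 * (1 - (hL p).re) - 4 / 5 * (-(hL p).im) < (1 - 2 * relL (hL p) δ ^ (2 : ℕ)) * ‖1 - hL p‖ ∧
    4 / 5 * (hR p).im - 3 / 5 * ((hR p).re - 1) < (1 - 2 * relR (hR p) δ ^ (2 : ℕ)) * ‖1 - hR p‖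

/-- all conditions at a point of the window -/
structure CondP (p : ℂ) (δ : ℝ) : Prop where
  pt : PtCond p δ
  left : p.re = 2 / 5 * p.im → CondL p δ
  right : p.re = Uf p.im → CondR p δ
  inner : (Bp p).re = -(Real.pi * δ) → CondI p δ

/-- The numerical facts of the tip. -/
structure TipNum : Prop where
  G12 : ∀ p ∈ DT, CondG p
  /-- (G3) on the upper right side -/
  G3 : ∀ p ∈ DT, 8 / 5 ≤ p.im → p.re = 32 / 25 + 11 / 50 * (p.im - 8 / 5) →
    0 < (Gp p * (11 / 50 + I) / p).re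
  /-- (G4) -/
  G4 : ∀ p ∈ DT, p.im = 19 / 5 → 1 < ‖wmap p‖
  P : ∀ δ : ℝ, 0 < δ → δ ≤ 2 / 25 → ∀ p ∈ PT δ, CondP p δ
  /-- (W3): the left point of `|w| = 1` -/
  W3 : ∀ p ∈ DT, p.re = 2 / 5 * p.im → ‖wmap p‖ = 1 →
    (Bp p).re ≤ -(Real.pi * (2 / 25)) ∧ 3 / 4 < psiP p
  /-- (W3): the right point of `|w| = 1` -/
  W3' : ∀ p ∈ DT, p.re = Uf p.im → ‖wmap p‖ = 1 → psiP p < 3 / 4 + 2 * Real.pi

end SokamTI

end

/-! ### Lib_MP_af4de1_ti.Top -/

section
namespace SokamF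
end SokamF
namespace SokamFU
end SokamFU
/-!
# The tip: `Dist δ r` for `δ ≤ 2/25`, `δ r ≤ 1`

From the representation (`RepData`), Lemma L and Lemma R (`LineHyp`), the numerical facts (`TipNum`), the
monotonicity on `|w| = 1` and the zeros at `δ = 2/25`.
-/

set_option autoImplicit false

namespace SokamTI

open Complex SokamFU SokamF

/-- Lemma L and Lemma R -/
structure LineHyp : Prop where
  L : ∀ (δ : ℝ) (h : ℂ), 0 < δ → h.im < 0 → 24 / 5 * δ ≤ -h.im → ‖JL δ h - jL δ h‖ ≤ relL h δ * ‖jL δ h‖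
  L1 : ∀ (δ : ℝ) (h : ℂ), 0 < δ → h.im < 0 → 24 / 5 * δ ≤ -h.im → relL h δ < 1 →
    ‖JL1 δ h‖ ≤ bL h δ * ‖JL δ h‖
  R : ∀ (δ : ℝ) (h : ℂ), 0 < δ → δ ≤ 2 / 25 → 0 < h.im → arg h ≤ h.im → arg h ≤ 5 / 4 →
    h.im ≤ 5 * h.re → 97 / 100 ≤ h.re → 0 < qp h → ‖JR δ h - jR δ h‖ ≤ relR h δ * ‖jR δ h‖
  R1 : ∀ (δ : ℝ) (h : ℂ), 0 < δ → δ ≤ 2 / 25 → 0 < h.im → arg h ≤ h.im → arg h ≤ 5 / 4 →
    h.im ≤ 5 * h.re → 97 / 100 ≤ h.re → 0 < qp h → relR h δ < 1 → ‖JR1 δ h‖ ≤ bR h δ * ‖JR δ h‖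

/-! ### Geometry -/

theorem DT_sub {p : ℂ} (hp : p ∈ DT) : p ∈ Sec := by
  obtain ⟨h1, h2, h3, h4⟩ := hp
  exact ⟨h1, by linarith only [h2], h3, h4.trans (Uf_le _)⟩

theorem DT_re {p : ℂ} (hp : p ∈ DT) : p.re ≠ 0 := Sec.re_ne (DT_sub hp)

theorem hRL {p : ℂ} (hp : p.re ≠ 0) : hR p - hL p = p := SokamTI.hR_sub_hL hp

/-- the argument of the right saddle lies in `(0, π/2)` -/
theorem arg_pos_of {h : ℂ} (h1 : 0 < h.im) (h2 : 0 < h.re) : 0 < arg h ∧ arg h < Real.pi / 2 := by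
  refine ⟨?_, ?_⟩
  · rcases (Complex.arg_nonneg_iff.mpr h1.le).lt_or_eq with h3 | h3
    · exact h3
    · exfalso
      have h4 := Complex.arg_eq_zero_iff.mp h3.symm
      rw [h4.2] at h1
      exact lt_irrefl _ h1
  · exact Complex.arg_lt_pi_div_two_iff.mpr (Or.inl h2)

/-- `Im h_L - ψ ∈ (-π, 0)` -/
theorem left_angle {p : ℂ} (hp : p ∈ DT) (hx : arg (hR p) ≤ 5 / 4) :
    -Real.pi < (hL p).im - psiP p ∧ (hL p).im - psiP p < 0 := by
  have hS := DT_sub hp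
  have hre := DT_re hp
  have hLim := hL_im_neg hS
  have hRim := hR_im_pos hS
  have hRre := hR_re_pos hS
  obtain ⟨x0, x1⟩ := arg_pos_of hRim hRre
  have hpi := Real.pi_gt_three
  obtain ⟨h1, h2, -, -⟩ := hp
  have e1 : (hL p).im - psiP p = arg (hR p) - p.im := by
    unfold psiP
    have := congrArg Complex.im (hRL hre)
    rw [Complex.sub_im] at this
    linarith only [this]
  rw [e1]
  -- `Im h_L = |h_R| e^{-u} sin (arg h_R - v)`
  have e2 : (hL p).im = ‖hR p‖ * Real.exp (-p.re) * Real.sin (arg (hR p) - p.im) := by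
    have e3 : hL p = hR p * cexp (-p) := by
      rw [← hL_mul_exp hre, mul_assoc, ← Complex.exp_add, add_neg_cancel, Complex.exp_zero, mul_one]
    have e4 : hR p * cexp (-p) =
        ((‖hR p‖ * Real.exp (-p.re) : ℝ) : ℂ) * cexp (((arg (hR p) - p.im : ℝ) : ℂ) * I) := by
      conv_lhs => rw [← Complex.norm_mul_exp_arg_mul_I (hR p)]
      push_cast
      rw [mul_assoc, mul_assoc, ← Complex.exp_add, ← Complex.exp_add]
      congr 2
      have hpe : ((p.re : ℝ) : ℂ) + p.im * I = p := Complex.re_add_im p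
      linear_combination hpe
    rw [e3, e4, Complex.im_ofReal_mul, Complex.exp_ofReal_mul_I_im]
  have hn : 0 < ‖hR p‖ := norm_pos_iff.mpr (SokamTI.hR_ne_zero hre)
  have hsin : Real.sin (arg (hR p) - p.im) < 0 := by
    by_contra hcon
    push Not at hcon
    have := mul_nonneg (mul_nonneg hn.le (Real.exp_pos (-p.re)).le) hcon
    linarith only [hLim, e2, this]
  constructor
  · by_contra hcon
    push Not at hcon
    have h5 : 0 ≤ Real.sin (-(arg (hR p) - p.im) - Real.pi) :=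
      Real.sin_nonneg_of_nonneg_of_le_pi (by linarith only [hcon]) (by linarith only [x0, hpi, h2])
    rw [Real.sin_sub_pi, Real.sin_neg, neg_neg] at h5
    linarith only [hsin, h5]
  · by_contra hcon
    push Not at hcon
    have h5 : 0 ≤ Real.sin (arg (hR p) - p.im) :=
      Real.sin_nonneg_of_nonneg_of_le_pi hcon (by linarith only [x1, hpi, h1])
    linarith only [hsin, h5]

/-- `ρ e^{-iψ}` -/
theorem w_eq {p : ℂ} (hp : p ∈ DT) : ((‖wmap p‖ : ℝ) : ℂ) * cexp (-(I * (psiP p : ℝ))) = wmap p :=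
  (wmap_eq_psi (DT_re hp)).symm

theorem rho_pos {p : ℂ} (hp : p ∈ DT) : 0 < ‖wmap p‖ :=
  norm_pos_iff.mpr (SokamTI.wmap_ne_zero (DT_re hp))

variable {L R L1 R1 : ℝ → ℝ → ℝ → ℂ}

/-- the two links at a point of the region -/
theorem links (hD : RepData L R L1 R1) {δ : ℝ} (hδ : 0 < δ) {p : ℂ} (hp : p ∈ DT)
    (hx : arg (hR p) ≤ 5 / 4) :
    (L δ ‖wmap p‖ (psiP p) = kS δ (psiP p) (hL p) * JL δ (hL p) ∧
      L1 δ ‖wmap p‖ (psiP p) = kS δ (psiP p) (hL p) *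
        ((hL p - I * (psiP p : ℝ)) * JL δ (hL p) + JL1 δ (hL p))) ∧
    (R δ ‖wmap p‖ (psiP p) = kS δ (psiP p) (hR p) * JR δ (hR p) ∧
      R1 δ ‖wmap p‖ (psiP p) = kS δ (psiP p) (hR p) *
        ((hR p - I * (psiP p : ℝ)) * JR δ (hR p) + JR1 δ (hR p))) := by
  have hS := DT_sub hp
  obtain ⟨h1, h2⟩ := left_angle hp hx
  refine ⟨hD.linkL δ _ _ (hL p) hδ (rho_pos hp) ?_ (hL_im_neg hS) h1 h2,
    hD.linkR δ _ _ (hR p) hδ (rho_pos hp) ?_ (hR_im_pos hS) (hR_re_pos hS) ?_⟩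
  · rw [w_eq hp]; rfl
  · rw [w_eq hp, SokamTI.wmap_eq_hR (DT_re hp)]
  · unfold psiP; ring

/-! ### The Gauss integrals -/

theorem cpow_half_sq (z : ℂ) : (z ^ (1 / 2 : ℂ)) ^ (2 : ℕ) = z := by
  have h : (1 / 2 : ℂ) = ((2 : ℕ) : ℂ)⁻¹ := by norm_num
  rw [h]
  exact Complex.cpow_nat_inv_pow z two_ne_zero

theorem cpow_half_re {z : ℂ} (hz : 0 < z.re) : 0 < (z ^ (1 / 2 : ℂ)).re := by
  have hz0 : z ≠ 0 := by rintro rfl; simp at hz
  rw [Complex.cpow_def_of_ne_zero hz0, Complex.exp_re]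
  have h1 : (Complex.log z * (1 / 2)).im = arg z / 2 := by
    have : Complex.log z * (1 / 2) = ((1 / 2 : ℝ) : ℂ) * Complex.log z := by push_cast; ring
    rw [this, Complex.im_ofReal_mul, Complex.log_im]
    ring
  rw [h1]
  have h2 := abs_lt.mp (Complex.abs_arg_lt_pi_div_two_iff.mpr (Or.inl hz))
  have hpi := Real.pi_pos
  exact mul_pos (Real.exp_pos _) (Real.cos_pos_of_mem_Ioo ⟨by linarith only [hpi, h2.1], by linarith only [hpi, h2.2]⟩)

/-- `|j|` -/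
theorem norm_half {δ : ℝ} (hδ : 0 < δ) {β : ℂ} (hβ : 0 < β.re) :
    ‖(2 * Real.pi * δ / β) ^ (1 / 2 : ℂ)‖ = √(2 * Real.pi * δ) / √‖β‖ := by
  have hβ0 : β ≠ 0 := by rintro rfl; simp at hβ
  have hn : 0 < ‖β‖ := norm_pos_iff.mpr hβ0
  have h1 : ‖(2 * Real.pi * δ / β) ^ (1 / 2 : ℂ)‖ ^ (2 : ℕ) = 2 * Real.pi * δ / ‖β‖ := by
    rw [← norm_pow, cpow_half_sq, norm_div]
    congr 1
    have : (2 * Real.pi * δ : ℂ) = ((2 * Real.pi * δ : ℝ) : ℂ) := by push_cast; ring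
    rw [this, Complex.norm_real, Real.norm_of_nonneg (by have := Real.pi_pos; positivity)]
  have h2 : ‖(2 * Real.pi * δ / β) ^ (1 / 2 : ℂ)‖ = √(2 * Real.pi * δ / ‖β‖) := by
    rw [← h1, Real.sqrt_sq (norm_nonneg _)]
  rw [h2, Real.sqrt_div (by have := Real.pi_pos; positivity)]

theorem norm_jL {δ : ℝ} (hδ : 0 < δ) {h : ℂ} (hh : h.im < 0) :
    ‖jL δ h‖ = √(2 * Real.pi * δ) / √‖1 - h‖ := by
  unfold jL
  rw [norm_half hδ (β := -(I * (1 - h))) (by simp; linarith only [hh])]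
  congr 2
  rw [norm_neg, norm_mul, Complex.norm_I, one_mul]

theorem norm_jR {δ : ℝ} (hδ : 0 < δ) {h : ℂ} (hh : 0 < h.im) :
    ‖jR δ h‖ = √(2 * Real.pi * δ) / √‖1 - h‖ := by
  unfold jR
  rw [norm_mul, Complex.norm_I, one_mul, norm_half hδ (β := I * (1 - h)) (by simp; linarith only [hh])]
  congr 2
  rw [norm_mul, Complex.norm_I, one_mul]

/-- the ratio of the prefactors -/
theorem kS_ratio {δ : ℝ} {p : ℂ} (hp : p.re ≠ 0) (ψ : ℝ) :
    kS δ ψ (hL p) = cexp (-(I / δ * Bp p)) * kS δ ψ (hR p) := by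
  unfold kS
  rw [← Complex.exp_add, SokamTI.Bp_eq hp]
  congr 1
  ring

theorem norm_kS_ratio {δ : ℝ} (hδ : 0 < δ) {p : ℂ} (hp : p.re ≠ 0) (ψ : ℝ) :
    ‖kS δ ψ (hL p)‖ = Real.exp ((Bp p).im / δ) * ‖kS δ ψ (hR p)‖ := by
  rw [kS_ratio hp, norm_mul, Complex.norm_exp]
  congr 2
  have h1 : -(I / δ * Bp p) = (((-δ⁻¹ : ℝ)) : ℂ) * (I * Bp p) := by push_cast; ring
  rw [h1, Complex.re_ofReal_mul, Complex.I_mul_re]
  ring


/-! ### The values on the sides -/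

/-- all about the sizes at a point of the window -/
theorem sizes (hl : LineHyp) {δ : ℝ} (hδ : 0 < δ) (hδ2 : δ ≤ 2 / 25) {p : ℂ} (hp : p ∈ DT)
    (hc : PtCond p δ) :
    ‖JL δ (hL p) - jL δ (hL p)‖ ≤ relL (hL p) δ * ‖jL δ (hL p)‖ ∧
    ‖JR δ (hR p) - jR δ (hR p)‖ ≤ relR (hR p) δ * ‖jR δ (hR p)‖ ∧
    0 < ‖jL δ (hL p)‖ ∧ 0 < ‖jR δ (hR p)‖ ∧ JL δ (hL p) ≠ 0 ∧ JR δ (hR p) ≠ 0 := by
  have hS := DT_sub hp
  have h1 := hl.L δ (hL p) hδ (hL_im_neg hS) hc.lamL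
  have h2 := hl.R δ (hR p) hδ hδ2 (hR_im_pos hS) hc.xs hc.x54 hc.s5a hc.a97 hc.qpos
  have hpi := Real.pi_pos
  have m1 : 0 < ‖1 - hL p‖ := norm_pos_iff.mpr (one_sub_hL_ne hS)
  have m2 : 0 < ‖1 - hR p‖ := norm_pos_iff.mpr (one_sub_hR_ne hS)
  have h3 : 0 < ‖jL δ (hL p)‖ := by rw [norm_jL hδ (hL_im_neg hS)]; positivity
  have h4 : 0 < ‖jR δ (hR p)‖ := by rw [norm_jR hδ (hR_im_pos hS)]; positivity
  refine ⟨h1, h2, h3, h4, ?_, ?_⟩
  · intro h
    rw [h, zero_sub, norm_neg] at h1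
    have := mul_lt_mul_of_pos_right hc.relL1 h3
    linarith only [h1, this]
  · intro h
    rw [h, zero_sub, norm_neg] at h2
    have := mul_lt_mul_of_pos_right hc.relR1 h4
    linarith only [h2, this]

theorem left_lt (hD : RepData L R L1 R1) (hl : LineHyp) {δ : ℝ} (hδ : 0 < δ) (hδ2 : δ ≤ 2 / 25) {p : ℂ}
    (hp : p ∈ DT) (hc : PtCond p δ) (hs : CondL p δ) :
    ‖L δ ‖wmap p‖ (psiP p)‖ < ‖R δ ‖wmap p‖ (psiP p)‖ := by
  obtain ⟨⟨e1, -⟩, e2, -⟩ := links hD hδ hp hc.x54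
  obtain ⟨h1, h2, h3, h4, -, -⟩ := sizes hl hδ hδ2 hp hc
  have hS := DT_sub hp
  rw [e1, e2, norm_mul, norm_mul, norm_kS_ratio hδ (DT_re hp)]
  have hK : 0 < ‖kS δ (psiP p) (hR p)‖ := norm_pos_iff.mpr (kS_ne_zero _ _ _)
  have n1 : ‖JL δ (hL p)‖ ≤ (1 + relL (hL p) δ) * ‖jL δ (hL p)‖ := by
    have := norm_le_norm_add_norm_sub (jL δ (hL p)) (JL δ (hL p))
    rw [norm_sub_rev] at this
    linarith only [h1, this]
  have n2 : (1 - relR (hR p) δ) * ‖jR δ (hR p)‖ ≤ ‖JR δ (hR p)‖ := by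
    have := norm_le_norm_add_norm_sub (JR δ (hR p)) (jR δ (hR p))
    linarith only [h2, this]
  have hpi := Real.pi_pos
  have m1 : 0 < √‖1 - hL p‖ := Real.sqrt_pos.mpr (norm_pos_iff.mpr (one_sub_hL_ne hS))
  have m2 : 0 < √‖1 - hR p‖ := Real.sqrt_pos.mpr (norm_pos_iff.mpr (one_sub_hR_ne hS))
  have hC : 0 < √(2 * Real.pi * δ) := by positivity
  have hE := Real.exp_pos ((Bp p).im / δ)
  have key : Real.exp ((Bp p).im / δ) * ‖JL δ (hL p)‖ < ‖JR δ (hR p)‖ := by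
    refine lt_of_le_of_lt (mul_le_mul_of_nonneg_left n1 hE.le) (lt_of_lt_of_le ?_ n2)
    rw [norm_jL hδ (hL_im_neg hS), norm_jR hδ (hR_im_pos hS)]
    unfold CondL at hs
    have h5 : Real.exp ((Bp p).im / δ) * ((1 + relL (hL p) δ) * (√(2 * Real.pi * δ) / √‖1 - hL p‖)) =
        (Real.exp ((Bp p).im / δ) * (1 + relL (hL p) δ) * √‖1 - hR p‖) *
          (√(2 * Real.pi * δ) / (√‖1 - hL p‖ * √‖1 - hR p‖)) := by
      field_simp
    have h6 : (1 - relR (hR p) δ) * (√(2 * Real.pi * δ) / √‖1 - hR p‖) =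
        ((1 - relR (hR p) δ) * √‖1 - hL p‖) * (√(2 * Real.pi * δ) / (√‖1 - hL p‖ * √‖1 - hR p‖)) := by
      field_simp
    rw [h5, h6]
    exact mul_lt_mul_of_pos_right hs (by positivity)
  have := mul_lt_mul_of_pos_left key hK
  calc Real.exp ((Bp p).im / δ) * ‖kS δ (psiP p) (hR p)‖ * ‖JL δ (hL p)‖ =
      ‖kS δ (psiP p) (hR p)‖ * (Real.exp ((Bp p).im / δ) * ‖JL δ (hL p)‖) := by ring
    _ < _ := this

theorem right_lt (hD : RepData L R L1 R1) (hl : LineHyp) {δ : ℝ} (hδ : 0 < δ) (hδ2 : δ ≤ 2 / 25) {p : ℂ}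
    (hp : p ∈ DT) (hc : PtCond p δ) (hs : CondR p δ) :
    ‖R δ ‖wmap p‖ (psiP p)‖ < ‖L δ ‖wmap p‖ (psiP p)‖ := by
  obtain ⟨⟨e1, -⟩, e2, -⟩ := links hD hδ hp hc.x54
  obtain ⟨h1, h2, h3, h4, -, -⟩ := sizes hl hδ hδ2 hp hc
  have hS := DT_sub hp
  rw [e1, e2, norm_mul, norm_mul, norm_kS_ratio hδ (DT_re hp)]
  have hK : 0 < ‖kS δ (psiP p) (hR p)‖ := norm_pos_iff.mpr (kS_ne_zero _ _ _)
  have n1 : ‖JR δ (hR p)‖ ≤ (1 + relR (hR p) δ) * ‖jR δ (hR p)‖ := by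
    have := norm_le_norm_add_norm_sub (jR δ (hR p)) (JR δ (hR p))
    rw [norm_sub_rev] at this
    linarith only [h2, this]
  have n2 : (1 - relL (hL p) δ) * ‖jL δ (hL p)‖ ≤ ‖JL δ (hL p)‖ := by
    have := norm_le_norm_add_norm_sub (JL δ (hL p)) (jL δ (hL p))
    linarith only [h1, this]
  have hpi := Real.pi_pos
  have m1 : 0 < √‖1 - hL p‖ := Real.sqrt_pos.mpr (norm_pos_iff.mpr (one_sub_hL_ne hS))
  have m2 : 0 < √‖1 - hR p‖ := Real.sqrt_pos.mpr (norm_pos_iff.mpr (one_sub_hR_ne hS))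
  have hC : 0 < √(2 * Real.pi * δ) := by positivity
  have hE := Real.exp_pos ((Bp p).im / δ)
  have hEE : Real.exp ((Bp p).im / δ) * Real.exp (-((Bp p).im / δ)) = 1 := by
    rw [← Real.exp_add, add_neg_cancel, Real.exp_zero]
  have key : ‖JR δ (hR p)‖ < Real.exp ((Bp p).im / δ) * ‖JL δ (hL p)‖ := by
    refine lt_of_le_of_lt n1 (lt_of_lt_of_le ?_ (mul_le_mul_of_nonneg_left n2 hE.le))
    rw [norm_jL hδ (hL_im_neg hS), norm_jR hδ (hR_im_pos hS)]
    unfold CondR at hs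
    have h5 : (1 + relR (hR p) δ) * (√(2 * Real.pi * δ) / √‖1 - hR p‖) =
        (Real.exp (-((Bp p).im / δ)) * (1 + relR (hR p) δ) * √‖1 - hL p‖) *
          (Real.exp ((Bp p).im / δ) * √(2 * Real.pi * δ) / (√‖1 - hL p‖ * √‖1 - hR p‖)) := by
      field_simp
      linear_combination -(1 + relR (hR p) δ) * hEE
    have h6 : Real.exp ((Bp p).im / δ) * ((1 - relL (hL p) δ) * (√(2 * Real.pi * δ) / √‖1 - hL p‖)) =
        ((1 - relL (hL p) δ) * √‖1 - hR p‖) *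
          (Real.exp ((Bp p).im / δ) * √(2 * Real.pi * δ) / (√‖1 - hL p‖ * √‖1 - hR p‖)) := by
      field_simp
    rw [h5, h6]
    exact mul_lt_mul_of_pos_right hs (by positivity)
  have := mul_lt_mul_of_pos_left key hK
  calc ‖kS δ (psiP p) (hR p)‖ * ‖JR δ (hR p)‖ <
      ‖kS δ (psiP p) (hR p)‖ * (Real.exp ((Bp p).im / δ) * ‖JL δ (hL p)‖) := this
    _ = _ := by ring


/-! ### The inner end -/

theorem sq_parts {J β : ℂ} {T : ℝ} (hT : 0 < T) (hβ : 0 < β.re) (hJ2 : J ^ (2 : ℕ) = T / β) :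
    (J.re ^ (2 : ℕ) + J.im ^ (2 : ℕ)) * ‖β‖ ^ (2 : ℕ) = T * ‖β‖ ∧ (J.re ^ (2 : ℕ) - J.im ^ (2 : ℕ)) * ‖β‖ ^ (2 : ℕ) = T * β.re ∧
    2 * J.re * J.im * ‖β‖ ^ (2 : ℕ) = -(T * β.im) := by
  have hβ0 : β ≠ 0 := by rintro rfl; simp at hβ
  have hn : 0 < ‖β‖ := norm_pos_iff.mpr hβ0
  have e1 : J ^ (2 : ℕ) * ((‖β‖ ^ (2 : ℕ) : ℝ) : ℂ) = T * (starRingEnd ℂ) β := by
    rw [hJ2, ← Complex.normSq_eq_norm_sq, Complex.normSq_eq_conj_mul_self]
    field_simp
  have hre := congrArg Complex.re e1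
  have him := congrArg Complex.im e1
  rw [Complex.re_mul_ofReal, Complex.re_ofReal_mul, Complex.conj_re] at hre
  rw [Complex.im_mul_ofReal, Complex.im_ofReal_mul, Complex.conj_im] at him
  have a1 : (J ^ (2 : ℕ)).re = J.re ^ (2 : ℕ) - J.im ^ (2 : ℕ) := by rw [pow_two, Complex.mul_re]; ring
  have a2 : (J ^ (2 : ℕ)).im = 2 * J.re * J.im := by rw [pow_two, Complex.mul_im]; ring
  rw [a1] at hre
  rw [a2] at him
  refine ⟨?_, hre, by rw [him]; ring⟩
  have h3 : ‖J‖ ^ (2 : ℕ) = T / ‖β‖ := by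
    rw [← norm_pow, hJ2, norm_div, Complex.norm_real, Real.norm_of_nonneg hT.le]
  have h4 : ‖J‖ ^ (2 : ℕ) = J.re ^ (2 : ℕ) + J.im ^ (2 : ℕ) := by
    rw [← Complex.normSq_eq_norm_sq, Complex.normSq_apply]; ring
  rw [← h4, h3]
  field_simp

/-- the left cone -/
theorem coneL {δ : ℝ} (hδ : 0 < δ) {h : ℂ} (hh : h.im < 0) {r : ℝ}
    (hc : 3 / 5 * (1 - h.re) - 4 / 5 * (-h.im) < (1 - 2 * r ^ (2 : ℕ)) * ‖1 - h‖) {J : ℂ}
    (hJ : ‖J - jL δ h‖ ≤ r * ‖jL δ h‖) : ((1 - 3 * I) * J).im < 0 := by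
  set β : ℂ := -(I * (1 - h)) with hβ
  have b1 : β.re = -h.im := by rw [hβ]; simp
  have b2 : β.im = -(1 - h.re) := by rw [hβ]; simp
  have b3 : ‖β‖ = ‖1 - h‖ := by rw [hβ, norm_neg, norm_mul, Complex.norm_I, one_mul]
  have hβ0 : 0 < β.re := by rw [b1]; linarith only [hh]
  have hT : 0 < 2 * Real.pi * δ := by have := Real.pi_pos; positivity
  set K := jL δ h with hK
  have hK2 : K ^ (2 : ℕ) = ((2 * Real.pi * δ : ℝ) : ℂ) / β := by
    rw [hK]; unfold jL; rw [cpow_half_sq]; push_cast; rfl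
  have hKre : 0 < K.re := by
    rw [hK]; unfold jL
    refine cpow_half_re ?_
    have e : (2 * Real.pi * δ / (-(I * (1 - h))) : ℂ) = ((2 * Real.pi * δ : ℝ) : ℂ) * β⁻¹ := by
      rw [hβ]; push_cast; rw [div_eq_mul_inv]
    rw [e, Complex.re_ofReal_mul, Complex.inv_re]
    have hn : 0 < Complex.normSq β := Complex.normSq_pos.mpr (by rintro h0; rw [h0] at hβ0; simp at hβ0)
    positivity
  obtain ⟨q1, q2, q3⟩ := sq_parts hT hβ0 hK2
  have hβn : 0 < ‖β‖ := norm_pos_iff.mpr (by rintro h0; rw [h0] at hβ0; simp at hβ0)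
  rw [b1] at q2
  rw [b2] at q3
  have hs : 0 < -h.im := by linarith only [hh]
  have hsq : K.im ^ (2 : ℕ) < K.re ^ (2 : ℕ) := by
    have h1 : 0 < (K.re ^ (2 : ℕ) - K.im ^ (2 : ℕ)) * ‖β‖ ^ (2 : ℕ) := by rw [q2]; positivity
    have h2 := (pos_iff_pos_of_mul_pos h1).mpr (by positivity)
    linarith only [h2]
  have habs : |K.im| < K.re := by
    rw [← abs_of_pos hKre]; exact sq_lt_sq.mp hsq
  have hpos : 0 < 3 * K.re - K.im := by linarith only [hKre, (abs_lt.mp habs).2]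
  have hnK : ‖K‖ ^ (2 : ℕ) = K.re ^ (2 : ℕ) + K.im ^ (2 : ℕ) := by
    rw [← Complex.normSq_eq_norm_sq, Complex.normSq_apply]; ring
  -- the main inequality
  have main : 10 * r ^ (2 : ℕ) * ‖K‖ ^ (2 : ℕ) < (3 * K.re - K.im) ^ (2 : ℕ) := by
    have h1 : (3 * K.re - K.im) ^ (2 : ℕ) * ‖β‖ ^ (2 : ℕ) =
        (2 * Real.pi * δ) * (5 * ‖β‖ + 4 * (-h.im) - 3 * (1 - h.re)) := by
      linear_combination 5 * q1 + 4 * q2 - 3 * q3
    have h2 : 10 * r ^ (2 : ℕ) * ‖K‖ ^ (2 : ℕ) * ‖β‖ ^ (2 : ℕ) = (2 * Real.pi * δ) * (10 * r ^ (2 : ℕ) * ‖β‖) := by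
      rw [hnK]; linear_combination 10 * r ^ (2 : ℕ) * q1
    have h3 : 10 * r ^ (2 : ℕ) * ‖β‖ < 5 * ‖β‖ + 4 * (-h.im) - 3 * (1 - h.re) := by
      rw [b3]; linarith only [hc]
    have h4 := mul_lt_mul_of_pos_left h3 hT
    rw [← h1, ← h2] at h4
    exact lt_of_mul_lt_mul_right h4 (by positivity)
  have hrK : (√10 * (r * ‖K‖)) ^ (2 : ℕ) < (3 * K.re - K.im) ^ (2 : ℕ) := by
    rw [mul_pow, Real.sq_sqrt (by norm_num)]
    linarith only [main]
  have hlt : √10 * (r * ‖K‖) < 3 * K.re - K.im := by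
    have := (sq_lt_sq.mp hrK)
    rw [abs_of_pos hpos] at this
    exact (le_abs_self _).trans_lt this
  have e1 : ((1 - 3 * I) * J).im = -(3 * K.re - K.im) + ((1 - 3 * I) * (J - K)).im := by
    have : (1 - 3 * I) * J = (1 - 3 * I) * K + (1 - 3 * I) * (J - K) := by ring
    rw [this, Complex.add_im]
    congr 1
    simp [Complex.mul_im]
    ring
  have e2 : |((1 - 3 * I) * (J - K)).im| ≤ √10 * (r * ‖K‖) := by
    refine (Complex.abs_im_le_norm _).trans ?_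
    rw [norm_mul]
    have : ‖(1 - 3 * I : ℂ)‖ = √10 := by
      rw [Complex.norm_def, Complex.normSq_apply]; norm_num
    rw [this]
    exact mul_le_mul_of_nonneg_left hJ (Real.sqrt_nonneg _)
  rw [e1]
  linarith only [hlt, (abs_le.mp e2).2]

/-- the right cone -/
theorem coneR {δ : ℝ} (hδ : 0 < δ) {h : ℂ} (hh : 0 < h.im) (hq : 0 < qp h) {r : ℝ}
    (hc : 4 / 5 * h.im - 3 / 5 * (h.re - 1) < (1 - 2 * r ^ (2 : ℕ)) * ‖1 - h‖) {J : ℂ}
    (hJ : ‖J - jR δ h‖ ≤ r * ‖jR δ h‖) : 0 < ((1 - 3 * I) * J).im := by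
  set β : ℂ := I * (1 - h) with hβ
  have b1 : β.re = h.im := by rw [hβ]; simp
  have b2 : β.im = 1 - h.re := by rw [hβ]; simp
  have b3 : ‖β‖ = ‖1 - h‖ := by rw [hβ, norm_mul, Complex.norm_I, one_mul]
  have hβ0 : 0 < β.re := by rw [b1]; linarith only [hh]
  have hT : 0 < 2 * Real.pi * δ := by have := Real.pi_pos; positivity
  set K : ℂ := (2 * Real.pi * δ / (I * (1 - h))) ^ (1 / 2 : ℂ) with hK
  have hjK : jR δ h = I * K := rfl
  have hK2 : K ^ (2 : ℕ) = ((2 * Real.pi * δ : ℝ) : ℂ) / β := by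
    rw [hK, cpow_half_sq]; push_cast; rfl
  have hKre : 0 < K.re := by
    rw [hK]
    refine cpow_half_re ?_
    have e : (2 * Real.pi * δ / (I * (1 - h)) : ℂ) = ((2 * Real.pi * δ : ℝ) : ℂ) * β⁻¹ := by
      rw [hβ]; push_cast; rw [div_eq_mul_inv]
    rw [e, Complex.re_ofReal_mul, Complex.inv_re]
    have hn : 0 < Complex.normSq β := Complex.normSq_pos.mpr (by rintro h0; rw [h0] at hβ0; simp at hβ0)
    positivity
  obtain ⟨q1, q2, q3⟩ := sq_parts hT hβ0 hK2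
  have hβn : 0 < ‖β‖ := norm_pos_iff.mpr (by rintro h0; rw [h0] at hβ0; simp at hβ0)
  rw [b1] at q2
  rw [b2] at q3
  have hsq : K.im ^ (2 : ℕ) < K.re ^ (2 : ℕ) := by
    have h1 : 0 < (K.re ^ (2 : ℕ) - K.im ^ (2 : ℕ)) * ‖β‖ ^ (2 : ℕ) := by rw [q2]; positivity
    have h2 := (pos_iff_pos_of_mul_pos h1).mpr (by positivity)
    linarith only [h2]
  have hqq : √3 * (1 - h.re) < h.im := by
    unfold qp at hq
    linarith only [hq]
  have hpos : 0 < K.re + 3 * K.im := by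
    by_contra hcon
    push Not at hcon
    have hy : K.im < 0 := by linarith only [hKre, hcon]
    have hs3 : 1.7 < √3 := by
      rw [show (1.7 : ℝ) = √(1.7 ^ (2 : ℕ)) by rw [Real.sqrt_sq (by norm_num)]]
      exact Real.sqrt_lt_sqrt (by norm_num) (by norm_num)
    -- `(1 - a)(x² - y²) = -2xy s`
    have h1 : (1 - h.re) * (K.re ^ (2 : ℕ) - K.im ^ (2 : ℕ)) = -(2 * K.re * K.im) * h.im := by
      have h2 : ((1 - h.re) * (K.re ^ (2 : ℕ) - K.im ^ (2 : ℕ))) * ‖β‖ ^ (2 : ℕ) = (-(2 * K.re * K.im) * h.im) * ‖β‖ ^ (2 : ℕ) := by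
        linear_combination (1 - h.re) * q2 + h.im * q3
      exact mul_right_cancel₀ (by positivity) h2
    have hD : 0 < K.re ^ (2 : ℕ) - K.im ^ (2 : ℕ) := by linarith only [hsq]
    have h3 : √3 * (1 - h.re) * (K.re ^ (2 : ℕ) - K.im ^ (2 : ℕ)) < h.im * (K.re ^ (2 : ℕ) - K.im ^ (2 : ℕ)) :=
      mul_lt_mul_of_pos_right hqq hD
    have h4 : √3 * (-(2 * K.re * K.im) * h.im) < h.im * (K.re ^ (2 : ℕ) - K.im ^ (2 : ℕ)) := by
      rw [← h1]; linarith only [h3]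
    have h5 : √3 * (-(2 * K.re * K.im)) < K.re ^ (2 : ℕ) - K.im ^ (2 : ℕ) := by
      have : h.im * (√3 * (-(2 * K.re * K.im))) < h.im * (K.re ^ (2 : ℕ) - K.im ^ (2 : ℕ)) := by linarith only [h4]
      exact lt_of_mul_lt_mul_left this hh.le
    have h6 : 2 / 3 * K.re ^ (2 : ℕ) ≤ -(2 * K.re * K.im) := by nlinarith only [hKre, hcon]
    have h7 : 1.7 * (2 / 3 * K.re ^ (2 : ℕ)) ≤ √3 * (-(2 * K.re * K.im)) :=
      mul_le_mul hs3.le h6 (by positivity) (by positivity)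
    nlinarith only [h5, h7]
  have hnK : ‖K‖ ^ (2 : ℕ) = K.re ^ (2 : ℕ) + K.im ^ (2 : ℕ) := by
    rw [← Complex.normSq_eq_norm_sq, Complex.normSq_apply]; ring
  have main : 10 * r ^ (2 : ℕ) * ‖K‖ ^ (2 : ℕ) < (K.re + 3 * K.im) ^ (2 : ℕ) := by
    have h1 : (K.re + 3 * K.im) ^ (2 : ℕ) * ‖β‖ ^ (2 : ℕ) =
        (2 * Real.pi * δ) * (5 * ‖β‖ - 4 * h.im + 3 * (h.re - 1)) := by
      linear_combination 5 * q1 - 4 * q2 + 3 * q3
    have h2 : 10 * r ^ (2 : ℕ) * ‖K‖ ^ (2 : ℕ) * ‖β‖ ^ (2 : ℕ) = (2 * Real.pi * δ) * (10 * r ^ (2 : ℕ) * ‖β‖) := by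
      rw [hnK]; linear_combination 10 * r ^ (2 : ℕ) * q1
    have h3 : 10 * r ^ (2 : ℕ) * ‖β‖ < 5 * ‖β‖ - 4 * h.im + 3 * (h.re - 1) := by
      rw [b3]; linarith only [hc]
    have h4 := mul_lt_mul_of_pos_left h3 hT
    rw [← h1, ← h2] at h4
    exact lt_of_mul_lt_mul_right h4 (by positivity)
  have hrK : (√10 * (r * ‖K‖)) ^ (2 : ℕ) < (K.re + 3 * K.im) ^ (2 : ℕ) := by
    rw [mul_pow, Real.sq_sqrt (by norm_num)]
    linarith only [main]
  have hlt : √10 * (r * ‖K‖) < K.re + 3 * K.im := by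
    have := (sq_lt_sq.mp hrK)
    rw [abs_of_pos hpos] at this
    exact (le_abs_self _).trans_lt this
  rw [hjK] at hJ
  have e1 : ((1 - 3 * I) * J).im = (K.re + 3 * K.im) + ((1 - 3 * I) * (J - I * K)).im := by
    have : (1 - 3 * I) * J = (1 - 3 * I) * (I * K) + (1 - 3 * I) * (J - I * K) := by ring
    rw [this, Complex.add_im]
    congr 1
    simp [Complex.mul_im, Complex.mul_re]
  have e2 : |((1 - 3 * I) * (J - I * K)).im| ≤ √10 * (r * ‖K‖) := by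
    refine (Complex.abs_im_le_norm _).trans ?_
    rw [norm_mul]
    have h1 : ‖(1 - 3 * I : ℂ)‖ = √10 := by
      rw [Complex.norm_def, Complex.normSq_apply]; norm_num
    have h2 : ‖I * K‖ = ‖K‖ := by rw [norm_mul, Complex.norm_I, one_mul]
    rw [h1]
    rw [h2] at hJ
    exact mul_le_mul_of_nonneg_left hJ (Real.sqrt_nonneg _)
  rw [e1]
  linarith only [hlt, (abs_le.mp e2).1]

theorem inner_ne (hD : RepData L R L1 R1) (hl : LineHyp) {δ : ℝ} (hδ : 0 < δ) (hδ2 : δ ≤ 2 / 25) {p : ℂ}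
    (hp : p ∈ DT) (hc : PtCond p δ) (hB : (Bp p).re = -(Real.pi * δ)) (hs : CondI p δ) :
    L δ ‖wmap p‖ (psiP p) + R δ ‖wmap p‖ (psiP p) ≠ 0 := by
  obtain ⟨⟨e1, -⟩, e2, -⟩ := links hD hδ hp hc.x54
  obtain ⟨h1, h2, -, -, -, -⟩ := sizes hl hδ hδ2 hp hc
  have hS := DT_sub hp
  intro h0
  rw [e1, e2, kS_ratio (DT_re hp)] at h0
  have hK := kS_ne_zero δ (psiP p) (hR p)
  have hδC : (δ : ℂ) ≠ 0 := by exact_mod_cast hδ.ne'
  have hexp : cexp (-(I / δ * Bp p)) = -((Real.exp ((Bp p).im / δ) : ℝ) : ℂ) := by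
    have h3 : -(I / δ * Bp p) = (((Bp p).im / δ : ℝ) : ℂ) + Real.pi * I := by
      have h4 : Bp p = ((-(Real.pi * δ) : ℝ) : ℂ) + (((Bp p).im : ℝ) : ℂ) * I := by
        conv_lhs => rw [← Complex.re_add_im (Bp p), hB]
      conv_lhs => rw [h4]
      push_cast
      field_simp
      ring_nf
      rw [Complex.I_sq]
      ring
    rw [h3, Complex.exp_add, Complex.exp_pi_mul_I, Complex.ofReal_exp]
    ring
  rw [hexp] at h0
  set E : ℝ := Real.exp ((Bp p).im / δ) with hE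
  have hE0 : 0 < E := Real.exp_pos _
  have h5 : JR δ (hR p) = (E : ℂ) * JL δ (hL p) := by
    have : kS δ (psiP p) (hR p) * (JR δ (hR p) - (E : ℂ) * JL δ (hL p)) = 0 := by
      linear_combination h0
    rcases mul_eq_zero.mp this with h6 | h6
    · exact (hK h6).elim
    · linear_combination h6
  have c1 := coneL hδ (hL_im_neg hS) hs.1 h1
  have c2 := coneR hδ (hR_im_pos hS) hc.qpos hs.2 h2
  have h6 : ((1 - 3 * I) * JR δ (hR p)).im = E * ((1 - 3 * I) * JL δ (hL p)).im := by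
    rw [h5]
    have : (1 - 3 * I) * ((E : ℂ) * JL δ (hL p)) = (E : ℂ) * ((1 - 3 * I) * JL δ (hL p)) := by ring
    rw [this, Complex.im_ofReal_mul]
  rw [h6] at c2
  have := mul_neg_of_pos_of_neg hE0 c1
  linarith only [c2, this]


/-! ### (W1) -/

theorem w1 (hD : RepData L R L1 R1) (hl : LineHyp) {δ : ℝ} (hδ : 0 < δ) (hδ2 : δ ≤ 2 / 25) {p : ℂ}
    (hp : p ∈ DT) (hc : PtCond p δ) :
    L δ ‖wmap p‖ (psiP p) ≠ 0 ∧ R δ ‖wmap p‖ (psiP p) ≠ 0 ∧
    0 < (R1 δ ‖wmap p‖ (psiP p) / R δ ‖wmap p‖ (psiP p)).re -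
      (L1 δ ‖wmap p‖ (psiP p) / L δ ‖wmap p‖ (psiP p)).re := by
  obtain ⟨⟨e1, e2⟩, e3, e4⟩ := links hD hδ hp hc.x54
  obtain ⟨-, -, -, -, h1, h2⟩ := sizes hl hδ hδ2 hp hc
  have hS := DT_sub hp
  have kL := kS_ne_zero δ (psiP p) (hL p)
  have kR := kS_ne_zero δ (psiP p) (hR p)
  refine ⟨by rw [e1]; exact mul_ne_zero kL h1, by rw [e3]; exact mul_ne_zero kR h2, ?_⟩
  refine deriv_pos e1 e2 e3 e4 h1 h2 (hl.L1 δ _ hδ (hL_im_neg hS) hc.lamL hc.relL1)
    (hl.R1 δ _ hδ hδ2 (hR_im_pos hS) hc.xs hc.x54 hc.s5a hc.a97 hc.qpos hc.relR1) ?_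
  rw [hRL (DT_re hp)]
  exact hc.sum

/-- a zero at a point of the window -/
theorem zero_at (hD : RepData L R L1 R1) {δ : ℝ} (hδ : 0 < δ) {p : ℂ} (hp : p ∈ DT)
    (h0 : F (qa δ) (zmap δ (wmap p)) = 0) : L δ ‖wmap p‖ (psiP p) + R δ ‖wmap p‖ (psiP p) = 0 := by
  refine (zero_iff hD hδ (rho_pos hp)).mp ?_
  rw [w_eq hp]
  exact h0

theorem Gf_zero {δ ρ ψ : ℝ} (h : L δ ρ ψ + R δ ρ ψ = 0) : Gf L R δ ρ ψ = 0 := by
  have h1 : L δ ρ ψ = -R δ ρ ψ := by linear_combination h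
  unfold Gf
  rw [h1, norm_neg, sub_self]

/-- The level-curve hypotheses -/
theorem lvHyp (hN : TipNum) : LvHyp (2 / 5) (19 / 5) Uf := by
  refine lvHyp_tip (fun p hp => (hN.G12 p hp).1) (fun p hp => ?_) (fun v h1 h2 => ?_)
    (fun p hp => hR_re_pos (DT_sub hp))
  · have := (hN.G12 p hp).2
    linarith only [this]
  · have hm := mem_Dtip (by linarith : 0 < v) h2
    have := hN.G3 _ hm h1 (Uf_high h1)
    have e : Gp ⟨Uf v, v⟩ / ⟨Uf v, v⟩ * (11 / 50 + Complex.I) =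
        Gp ⟨Uf v, v⟩ * (11 / 50 + Complex.I) / ⟨Uf v, v⟩ := by ring
    rw [e]
    exact this

/-- the monotonicity of Part I on `|w| = 1` -/
def OneHyp (L R L1 R1 : ℝ → ℝ → ℝ → ℂ) : Prop :=
  ∀ δ : ℝ, 0 < δ → δ ≤ 2 / 25 → ∀ ψ ∈ Set.Icc (5 / 8 : ℝ) (5 / 8 + 2 * Real.pi),
    L δ 1 ψ ≠ 0 ∧ R δ 1 ψ ≠ 0 ∧ (L1 δ 1 ψ / L δ 1 ψ).re < (R1 δ 1 ψ / R δ 1 ψ).re

theorem side_point {g : ℝ → ℂ} (hg : Continuous g) (him : ∀ v, (g v).im = v)
    (hm : ∀ v, 0 < v → v ≤ 19 / 5 → g v ∈ DT)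
    (htop : 1 < ‖wmap (g (19 / 5))‖) (h0 : g 0 = 0) : ∃ v, 0 < v ∧ v ≤ 19 / 5 ∧ ‖wmap (g v)‖ = 1 := by
  -- near `0` the modulus is near `1/e`
  have h1 : Filter.Tendsto (fun v : ℝ => wmap (g v)) (nhdsWithin 0 (Set.Ioi 0)) (nhds (1 * cexp (-1))) := by
    have h2 : Filter.Tendsto g (nhdsWithin 0 (Set.Ioi 0)) (nhdsWithin 0 {0}ᶜ) := by
      refine tendsto_nhdsWithin_iff.2 ⟨?_, ?_⟩
      · have := hg.tendsto 0
        rw [h0] at this
        exact this.mono_left nhdsWithin_le_nhds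
      · filter_upwards [self_mem_nhdsWithin] with v hv h3
        have h4 : (g v).im = 0 := by
          have : g v = 0 := h3
          rw [this]; simp
        rw [him] at h4
        exact (ne_of_gt (show 0 < v from hv)) h4
    have h3 := tendsto_hL_zero.comp h2
    have h4 : Filter.Tendsto (fun v : ℝ => cexp (-(hL (g v)))) (nhdsWithin 0 (Set.Ioi 0))
        (nhds (cexp (-1))) := (Complex.continuous_exp.tendsto _).comp h3.neg
    exact h3.mul h4
  have h2 := h1.norm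
  rw [one_mul, Complex.norm_exp] at h2
  have h3 : Real.exp ((-1 : ℂ).re) < 1 := by
    rw [Real.exp_lt_one_iff]; simp
  have h4 := h2.eventually (gt_mem_nhds h3)
  have h5 : ∀ᶠ u : ℝ in nhdsWithin 0 (Set.Ioi 0), u ∈ Set.Ioo (0 : ℝ) (19 / 5) :=
    Ioo_mem_nhdsGT (by norm_num)
  obtain ⟨u, hu1, hu2⟩ := (h4.and h5).exists
  have h6 : ContinuousOn (fun v : ℝ => ‖wmap (g v)‖) (Set.Icc u (19 / 5)) := by
    intro v hv
    have hv0 : 0 < v := hu2.1.trans_le hv.1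
    have h7 := continuousAt_wmap (DT_re (hm v hv0 hv.2))
    exact ((h7.comp_of_eq hg.continuousAt rfl).norm).continuousWithinAt
  obtain ⟨v, hv, hv2⟩ := intermediate_value_Ioo hu2.2.le h6 ⟨hu1, htop⟩
  exact ⟨v, hu2.1.trans hv.1, hv.2.le, hv2⟩

/-- (W3) -/
theorem w3 (hD : RepData L R L1 R1) (hl : LineHyp) (hN : TipNum) (h1 : OneHyp L R L1 R1)
    {δ : ℝ} (hδ : 0 < δ) (hδ2 : δ ≤ 2 / 25) {w : ℂ} (hz : Zr δ w) (hw : ‖w‖ = 1) :
    w ∈ wmap '' PT δ := by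
  have hpi := Real.pi_pos
  have H := lvHyp hN
  -- the left point
  obtain ⟨vl, vl0, vl1, hvl⟩ := side_point (g := fun v : ℝ => ((2 / 5 * v : ℝ) : ℂ) + (v : ℂ) * I)
    (by fun_prop) (fun v => by simp)
    (fun v h2 h3 => ⟨by simpa using h2, by simpa using h3, by simp, by simpa using Uf_ge h2 h3⟩)
    (hN.G4 _ ⟨by simp, by simp, by simp, by simpa using Uf_ge (by norm_num) le_rfl⟩ (by simp))
    (by simp)
  set pl : ℂ := ((2 / 5 * vl : ℝ) : ℂ) + (vl : ℂ) * I with hpl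
  have plre : pl.re = 2 / 5 * vl := by rw [hpl]; simp
  have plim : pl.im = vl := by rw [hpl]; simp
  have plD : pl ∈ DT := ⟨by rw [plim]; exact vl0, by rw [plim]; exact vl1, by rw [plim, plre],
    by rw [plim, plre]; exact Uf_ge vl0 vl1⟩
  obtain ⟨plB, plψ'⟩ := hN.W3 pl plD (by rw [plre, plim]) hvl
  have plψ : 5 / 8 < psiP pl := by linarith only [plψ']
  have plP : pl ∈ PT δ := by
    refine ⟨plD, plB.trans ?_, hvl.le⟩
    nlinarith only [hδ2, hpi]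
  -- the right point
  obtain ⟨vr, vr0, vr1, hvr⟩ := side_point (g := fun v : ℝ => ((Uf v : ℝ) : ℂ) + (v : ℂ) * I)
    (by have := Uf_cont; fun_prop) (fun v => by simp)
    (fun v h2 h3 => ⟨by simpa using h2, by simpa using h3, by simpa using Uf_ge h2 h3, by simp⟩)
    (hN.G4 _ ⟨by simp, by simp, by simpa using Uf_ge (by norm_num) le_rfl, by simp⟩ (by simp))
    (by
      have h0 : Uf 0 = 0 := by rw [Uf_low (by norm_num)]; norm_num
      simp [h0])
  set pr : ℂ := ((Uf vr : ℝ) : ℂ) + (vr : ℂ) * I with hpr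
  have prre : pr.re = Uf vr := by rw [hpr]; simp
  have prim : pr.im = vr := by rw [hpr]; simp
  have prD : pr ∈ DT := ⟨by rw [prim]; exact vr0, by rw [prim]; exact vr1,
    by rw [prim, prre]; exact Uf_ge vr0 vr1, by rw [prim, prre]⟩
  have prψ : psiP pr < 5 / 8 + 2 * Real.pi := by
    have hS := DT_sub prD
    have a1 := (arg_pos_of (hR_im_pos hS) (hR_re_pos hS)).1
    have a2 := hL_im_neg hS
    have a3 := congrArg Complex.im (hRL (DT_re prD))
    rw [Complex.sub_im, prim] at a3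
    have a4 := Real.pi_gt_three
    unfold psiP
    linarith only [vr1, a1, a2, a3, a4]
  -- order
  have hlw : lw pl = lw pr := by unfold lw; rw [hvl, hvr]
  have him : pl.im ≤ pr.im := by
    by_contra hcon
    push Not at hcon
    rw [plim, prim] at hcon
    have h2 := H.lw_left vr0 hcon vl1
    have h3 : lw pr ≤ lw ⟨2 / 5 * vr, vr⟩ := by
      have hqD : (⟨2 / 5 * vr, vr⟩ : ℂ) ∈ DT := ⟨vr0, vr1, le_rfl, Uf_ge vr0 vr1⟩
      rcases (Uf_ge vr0 vr1).lt_or_eq with h4 | h4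
      · exact (H.lw_horizontal hqD prD (by rw [prim]) (by rw [prre]; exact h4)).le
      · have : pr = ⟨2 / 5 * vr, vr⟩ := by
          apply Complex.ext
          · rw [prre, ← h4]
          · rw [prim]
        rw [this]
    have h5 : (⟨2 / 5 * vl, vl⟩ : ℂ) = pl := by
      apply Complex.ext
      · rw [plre]
      · rw [plim]
    rw [h5, hlw] at h2
    exact lt_irrefl _ (h3.trans_lt h2)
  have hre : pl.re ≤ pr.re := (H.level plD prD hlw him).1
  have prP : pr ∈ PT δ := ⟨prD, (H.B_lt plD prD hre him).trans plP.2.1, hvr.le⟩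
  -- the values
  have cl := hN.P δ hδ hδ2 pl plP
  have cr := hN.P δ hδ hδ2 pr prP
  have Ll := left_lt hD hl hδ hδ2 plD cl.pt (cl.left (by rw [plre, plim]))
  have Lr := right_lt hD hl hδ hδ2 prD cr.pt (cr.right (by rw [prre, prim]))
  obtain ⟨nl1, nl2, -⟩ := w1 hD hl hδ hδ2 plD cl.pt
  obtain ⟨nr1, nr2, -⟩ := w1 hD hl hδ hδ2 prD cr.pt
  have el : ‖wmap pl‖ = 1 := hvl
  have er : ‖wmap pr‖ = 1 := hvr
  rw [el] at Ll nl1 nl2
  rw [er] at Lr nr1 nr2
  have Gl : Gf L R δ 1 (psiP pl) < 0 := by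
    unfold Gf
    have := Real.log_lt_log (norm_pos_iff.mpr nl1) Ll
    linarith only [this]
  have Gr : 0 < Gf L R δ 1 (psiP pr) := by
    unfold Gf
    have := Real.log_lt_log (norm_pos_iff.mpr nr2) Lr
    linarith only [this]
  -- monotonicity on the circle
  have hmono : StrictMonoOn (Gf L R δ 1) (Set.Icc (5 / 8 : ℝ) (5 / 8 + 2 * Real.pi)) := by
    have hd : ∀ ψ ∈ Set.Icc (5 / 8 : ℝ) (5 / 8 + 2 * Real.pi), ∃ D, 0 < D ∧
        HasDerivAt (Gf L R δ 1) D ψ := by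
      intro ψ hψ
      obtain ⟨a1, a2, a3⟩ := h1 δ hδ hδ2 ψ hψ
      exact ⟨_, div_pos (sub_pos.mpr a3) hδ, hasDerivAt_Gf hD hδ one_pos a1 a2⟩
    refine strictMonoOn_of_deriv_pos (convex_Icc _ _) (fun ψ hψ => ?_) (fun ψ hψ => ?_)
    · obtain ⟨D, -, hD'⟩ := hd ψ hψ
      exact hD'.continuousAt.continuousWithinAt
    · obtain ⟨D, hD0, hD'⟩ := hd ψ (interior_subset hψ)
      rw [hD'.deriv]; exact hD0
  -- the angle of `w`
  obtain ⟨ψ, hψ, hψw⟩ : ∃ ψ ∈ Set.Ico (5 / 8 : ℝ) (5 / 8 + 2 * Real.pi), w = cexp (-(I * (ψ : ℝ))) := by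
    have hT : (0 : ℝ) < 2 * Real.pi := by positivity
    refine ⟨toIcoMod hT (5 / 8) (-arg w), ?_, ?_⟩
    · exact toIcoMod_mem_Ico hT (5 / 8) (-arg w)
    · have e1 := toIcoMod_add_toIcoDiv_zsmul hT (5 / 8) (-arg w)
      set n := toIcoDiv hT (5 / 8) (-arg w)
      set ψ := toIcoMod hT (5 / 8) (-arg w)
      have e2 : (ψ : ℝ) = -arg w - n * (2 * Real.pi) := by
        rw [zsmul_eq_mul] at e1
        linarith only [e1]
      have e3 : w = cexp (arg w * I) := by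
        have := Complex.norm_mul_exp_arg_mul_I w
        rw [hw, Complex.ofReal_one, one_mul] at this
        exact this.symm
      conv_lhs => rw [e3]
      rw [e2]
      have e4 : -(I * ((-arg w - n * (2 * Real.pi) : ℝ) : ℂ)) = arg w * I + n * (2 * Real.pi * I) := by
        push_cast; ring
      rw [e4, Complex.exp_add, Complex.exp_int_mul_two_pi_mul_I, mul_one]
  have hψI : ψ ∈ Set.Icc (5 / 8 : ℝ) (5 / 8 + 2 * Real.pi) := ⟨hψ.1, hψ.2.le⟩
  have hzero : Gf L R δ 1 ψ = 0 := by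
    refine Gf_zero ((zero_iff hD hδ one_pos).mp ?_)
    rw [Complex.ofReal_one, one_mul, ← hψw]
    exact hz.2.2
  -- position
  have hψl : psiP pl < ψ := by
    by_contra hcon
    push Not at hcon
    have hlI : psiP pl ∈ Set.Icc (5 / 8 : ℝ) (5 / 8 + 2 * Real.pi) := by
      refine ⟨plψ.le, ?_⟩
      have hS := DT_sub plD
      rcases him.lt_or_eq with h2 | h2
      · exact ((H.psi_lt plD prD hre h2).trans prψ).le
      · have h3 : pl = pr := by
          apply Complex.ext _ h2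
          by_contra hne
          have h4 : pl.re < pr.re := lt_of_le_of_ne hre hne
          have h5 := H.lw_horizontal plD prD h2 h4
          rw [hlw] at h5
          exact lt_irrefl _ h5
        rw [h3]; exact prψ.le
    have := hmono.monotoneOn hψI hlI hcon
    linarith only [Gl, hzero, this]
  have hψr : ψ < psiP pr := by
    by_contra hcon
    push Not at hcon
    have hrI : psiP pr ∈ Set.Icc (5 / 8 : ℝ) (5 / 8 + 2 * Real.pi) := by
      refine ⟨?_, prψ.le⟩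
      rcases him.lt_or_eq with h2 | h2
      · exact (plψ.trans (H.psi_lt plD prD hre h2)).le
      · have h3 : pl = pr := by
          apply Complex.ext _ h2
          by_contra hne
          have h4 : pl.re < pr.re := lt_of_le_of_ne hre hne
          have h5 := H.lw_horizontal plD prD h2 h4
          rw [hlw] at h5
          exact lt_irrefl _ h5
        rw [← h3]; exact plψ.le
    have := hmono.monotoneOn hrI hψI hcon
    linarith only [Gr, hzero, this]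
  obtain ⟨p, hp, hpw, hpψ⟩ := H.level_window plP prD (by rw [el, er]) him ψ ⟨hψl.le, hψr.le⟩
  refine ⟨p, hp, ?_⟩
  rw [← w_eq hp.1, hpw, el, hpψ, Complex.ofReal_one, one_mul]
  exact hψw.symm

/-- **The tip.** -/
theorem dist_tip_of (hD : RepData L R L1 R1) (hl : LineHyp) (hN : TipNum) (h1 : OneHyp L R L1 R1)
    (h4 : ∀ w, Zr (2 / 25) w → w ∈ wmap '' PT (2 / 25)) :
    ∀ α r : ℝ, 0 < α → α ≤ 2 / 25 → 0 < r → α * r ≤ 1 → SokamFU.Dist α r := by
  have hpi := Real.pi_pos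
  have H := lvHyp hN
  have key := tip_top2 (k₁ := 2 / 5) (k₂ := 4 / 5) (V := 19 / 5) (δ₂ := 2 / 25) (U := Uf)
    (by norm_num) (by norm_num) Uf_cont (fun v _ _ => Uf_le v) (fun p hp hV => hN.G4 p hp hV)
    (by norm_num)
    (fun δ hδ hδ2 p hp hz => by
      have hc := hN.P δ hδ hδ2 p hp
      have h0 := zero_at hD hδ hp.1 hz.2.2
      have hnorm : ‖L δ ‖wmap p‖ (psiP p)‖ = ‖R δ ‖wmap p‖ (psiP p)‖ := by
        have h1 : L δ ‖wmap p‖ (psiP p) = -R δ ‖wmap p‖ (psiP p) := by linear_combination h0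
        rw [h1, norm_neg]
      refine ⟨lt_of_le_of_ne hp.1.2.2.1 fun h => ?_, lt_of_le_of_ne hp.1.2.2.2 fun h => ?_,
        lt_of_le_of_ne hp.2.1 fun h => ?_⟩
      · exact (left_lt hD hl hδ hδ2 hp.1 hc.pt (hc.left h.symm)).ne hnorm
      · exact (right_lt hD hl hδ hδ2 hp.1 hc.pt (hc.right h)).ne hnorm.symm
      · exact inner_ne hD hl hδ hδ2 hp.1 hc.pt h (hc.inner h) h0)
    (fun δ hδ hδ2 w hz hw => w3 hD hl hN h1 hδ hδ2 hz hw) h4
  intro α r hα hα2 hr hαr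
  have hwz : ∀ z : ℂ, ‖z‖ = r → ‖wz α z‖ = α * r := by
    intro z hz
    unfold wz
    have e1 : Complex.exp (-(I * α / 2)) = cexp (((-(α / 2) : ℝ) : ℂ) * I) := by
      congr 1; push_cast; ring
    rw [e1, norm_mul, norm_mul, norm_mul, Complex.norm_exp_ofReal_mul_I, Complex.norm_I,
      Complex.norm_real, Real.norm_of_nonneg hα.le, hz]
    ring
  have hzr : ∀ z : ℂ, ‖z‖ = r → F (qa α) z = 0 → Zr α (wz α z) := by
    intro z hz h0
    refine ⟨by rw [hwz z hz]; positivity, by rw [hwz z hz]; exact hαr, ?_⟩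
    rw [zmap_wz hα.ne']; exact h0
  intro z hz h0
  obtain ⟨p, hp, hpw⟩ := key α hα hα2 _ (hzr z hz h0)
  have hc := hN.P α hα hα2 p hp
  have hL0 := zero_at hD hα hp.1 (by rw [hpw, zmap_wz hα.ne']; exact h0)
  obtain ⟨n1, n2, n3⟩ := w1 hD hl hα hα2 hp.1 hc.pt
  refine ⟨?_, fun z' hz' h0' => ?_⟩
  · have := simple_of hD hα (rho_pos hp.1) n1 hL0 n3.ne'
    rw [w_eq hp.1, hpw, zmap_wz hα.ne'] at this
    exact this
  · obtain ⟨p', hp', hpw'⟩ := key α hα hα2 _ (hzr z' hz' h0')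
    have hL0' := zero_at hD hα hp'.1 (by rw [hpw', zmap_wz hα.ne']; exact h0')
    have e : p' = p := by
      refine H.arc_inj (δ := α) (G := Gf L R α) (fun q hq => ?_) hp' hp ?_ (Gf_zero hL0') (Gf_zero hL0)
      · have hcq := hN.P α hα hα2 q hq
        obtain ⟨m1, m2, m3⟩ := w1 hD hl hα hα2 hq.1 hcq.pt
        exact ⟨_, div_pos m3 hα, hasDerivAt_Gf hD hα (rho_pos hq.1) m1 m2⟩
      · rw [hpw, hpw', hwz z hz, hwz z' hz']
    have e2 : wz α z' = wz α z := by rw [← hpw, ← hpw', e]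
    have e3 := congrArg (zmap α) e2
    rwa [zmap_wz hα.ne', zmap_wz hα.ne'] at e3

end SokamTI

end

/-! ### Lib_MP_af4de1_ti.LineH -/

section
/-!
# `LineHyp` (Lemma L and Lemma R)
-/

set_option autoImplicit false

namespace SokamTI

open Complex

theorem lineHyp : LineHyp where
  L := fun δ h hδ hs hl => JL_bound hδ hs (by rwa [le_div_iff₀ hδ])
  L1 := fun δ h hδ hs hl hr => JL1_bound hδ hs (by rwa [le_div_iff₀ hδ]) hr
  R := fun δ h hδ hδ2 hs hx hx2 _ ha hq => JR_bound hδ hδ2 ha hs hx hx2 hq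
  R1 := fun δ h hδ hδ2 hs hx hx2 _ ha hq hr => JR1_bound hδ hδ2 ha hs hx hx2 hq hr

end SokamTI

end

/-! ### Lib_MP_af4de1_ti.Box2 -/

section
namespace SokamFU
end SokamFU
/-!
# Soundness of the intervals
-/

set_option autoImplicit false

namespace SokamTI

open SokamFU Complex

theorem norm_sub_bounds {x y : ℂ} {η : ℝ} (h : ‖x - y‖ ≤ η) : ‖y‖ - η ≤ ‖x‖ ∧ ‖x‖ ≤ ‖y‖ + η := by
  constructor
  · have : ‖y‖ ≤ ‖x‖ + ‖x - y‖ := by
      calc ‖y‖ = ‖x - (x - y)‖ := by congr 1; ring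
        _ ≤ _ := norm_sub_le _ _
    linarith only [h, this]
  · have : ‖x‖ ≤ ‖y‖ + ‖x - y‖ := by
      calc ‖x‖ = ‖y + (x - y)‖ := by congr 1; ring
        _ ≤ _ := norm_add_le _ _
    linarith only [h, this]

theorem re_sub_bounds {x y : ℂ} {η : ℝ} (h : ‖x - y‖ ≤ η) : y.re - η ≤ x.re ∧ x.re ≤ y.re + η := by
  have h1 : |(x - y).re| ≤ η := (abs_re_le_norm _).trans h
  rw [sub_re] at h1
  have := abs_le.1 h1
  constructor <;> linarith [this.1, this.2]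

theorem im_sub_bounds {x y : ℂ} {η : ℝ} (h : ‖x - y‖ ≤ η) : y.im - η ≤ x.im ∧ x.im ≤ y.im + η := by
  have h1 : |(x - y).im| ≤ η := (abs_im_le_norm _).trans h
  rw [sub_im] at h1
  have := abs_le.1 h1
  constructor <;> linarith [this.1, this.2]

theorem mkI_ok {px py r hx hy nH nM nR eL eR e0 : ℚ}
    (hnH : nrU hx hy ≤ nH) (hnM : ‖1 - qc hx hy‖ ≤ (nM : ℝ)) (hnR : ‖1 - (qc hx hy + qc px py)‖ ≤ (nR : ℝ))
    (hmL : ((nrL (1 - hx) hy : ℚ) : ℝ) ≤ ‖1 - qc hx hy‖)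
    (h : ∀ p : ℂ, ‖p - qc px py‖ ≤ r → 0 < p.re ∧ ‖hL p - qc hx hy‖ ≤ eL ∧ ‖hR p - (qc hx hy + qc px py)‖ ≤ eR)
    (h0 : ‖hL (qc px py) - qc hx hy‖ ≤ e0) {p : ℂ} (hp : ‖p - qc px py‖ ≤ r) :
    (mkI px py r hx hy nH nM nR eL eR e0).Ok p := by
  obtain ⟨hpos, hl, hr⟩ := h p hp
  have hadd : qc hx hy + qc px py = qc (hx + px) (hy + py) := qc_add _ _ _ _
  have nb := norm_sub_bounds hl
  have rb := re_sub_bounds hl
  have ib := im_sub_bounds hl
  have hr' : ‖hR p - qc (hx + px) (hy + py)‖ ≤ eR := by rw [← hadd]; exact hr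
  have nbR := norm_sub_bounds hr'
  have rbR := re_sub_bounds hr'
  have ibR := im_sub_bounds hr'
  have hl1 : ‖(1 - hL p) - (1 - qc hx hy)‖ ≤ eL := by
    rw [show (1 - hL p) - (1 - qc hx hy) = -(hL p - qc hx hy) by ring, norm_neg]
    exact hl
  have hr1 : ‖(1 - hR p) - (1 - qc (hx + px) (hy + py))‖ ≤ eR := by
    rw [show (1 - hR p) - (1 - qc (hx + px) (hy + py)) = -(hR p - qc (hx + px) (hy + py)) by ring, norm_neg]
    exact hr'
  have mb := norm_sub_bounds hl1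
  have mbR := norm_sub_bounds hr1
  have hB := Bp_encl hnM hnR h h0 (nrU_spec px py) hp
  have hBc : qc px py * ((qc hx hy + (qc hx hy + qc px py)) / 2 - 1) =
      qc (px * ((hx + (hx + px)) / 2 - 1) - py * ((hy + (hy + py)) / 2))
        (px * ((hy + (hy + py)) / 2) + py * ((hx + (hx + px)) / 2 - 1)) := by
    rw [← qc_mul]
    congr 1
    apply Complex.ext
    · rw [qc_re, sub_re, one_re, show (qc hx hy + (qc hx hy + qc px py)) / 2 = (qc hx hy + (qc hx hy + qc px py)) * ((1 / 2 : ℝ) : ℂ) by push_cast; ring,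
        re_mul_ofReal, add_re, add_re, qc_re, qc_re]
      push_cast
      ring
    · rw [qc_im, sub_im, one_im, show (qc hx hy + (qc hx hy + qc px py)) / 2 = (qc hx hy + (qc hx hy + qc px py)) * ((1 / 2 : ℝ) : ℂ) by push_cast; ring,
        im_mul_ofReal, add_im, add_im, qc_im, qc_im]
      push_cast
      ring
  rw [hBc] at hB
  have bB := re_sub_bounds hB
  have cB := im_sub_bounds hB
  rw [qc_re] at bB
  rw [qc_im] at cB
  -- G
  have hG : ‖(1 - hL p) * (1 - hR p) - (1 - qc hx hy) * (1 - qc (hx + px) (hy + py))‖ ≤ (eL : ℝ) * nR + eR * nM + eL * eR := by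
    have e1 : (1 - hL p) * (1 - hR p) - (1 - qc hx hy) * (1 - qc (hx + px) (hy + py)) =
        -((hL p - qc hx hy) * (1 - (qc hx hy + qc px py))) - (hR p - qc (hx + px) (hy + py)) * (1 - qc hx hy) +
          (hL p - qc hx hy) * (hR p - qc (hx + px) (hy + py)) := by
      rw [← hadd]; ring
    rw [e1]
    refine (norm_add_le _ _).trans (add_le_add ((norm_sub_le _ _).trans (add_le_add ?_ ?_)) ?_)
    · rw [norm_neg, norm_mul]
      exact mul_le_mul hl hnR (norm_nonneg _) ((norm_nonneg _).trans hl)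
    · rw [norm_mul]
      exact mul_le_mul hr' hnM (norm_nonneg _) ((norm_nonneg _).trans hr')
    · rw [norm_mul]
      exact mul_le_mul hl hr' (norm_nonneg _) ((norm_nonneg _).trans hl)
  have hGc : (1 - qc hx hy) * (1 - qc (hx + px) (hy + py)) =
      qc ((1 - hx) * (1 - (hx + px)) - hy * (hy + py)) (-((1 - hx) * (hy + py)) - hy * (1 - (hx + px))) := by
    rw [qc_one, qc_sub, qc_sub, qc_mul]
    congr 1 <;> ring
  rw [hGc] at hG
  have gr := re_sub_bounds hG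
  have gi := im_sub_bounds hG
  rw [qc_re] at gr
  rw [qc_im] at gi
  have hmR : ((nrL (1 - (hx + px)) (hy + py) : ℚ) : ℝ) ≤ ‖1 - qc (hx + px) (hy + py)‖ := by
    have h1 := nrL_spec (1 - (hx + px)) (hy + py)
    have h2 : ‖1 - qc (hx + px) (hy + py)‖ = ‖qc (1 - (hx + px)) (hy + py)‖ := by
      rw [qc_one, qc_sub, qc_norm, qc_norm]
      congr 2
      ring
    rw [h2]
    exact h1
  have hnR' : ‖1 - qc (hx + px) (hy + py)‖ ≤ (nR : ℝ) := by rw [← hadd]; exact hnR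
  have hnH' : ((nrU hx hy : ℚ) : ℝ) ≤ (nH : ℝ) := by exact_mod_cast hnH
  have hH1 := nrL_spec hx hy
  have hH2 := nrU_spec hx hy
  have hR2 := nrU_spec (hx + px) (hy + py)
  rw [qc_re] at rb rbR
  rw [qc_im] at ib ibR
  constructor
  all_goals try dsimp only [mkI]
  all_goals try push_cast
  · exact hpos
  · linarith only [hH1, nb.1]
  · linarith only [hnH', hH2, nb.2]
  · linarith only [rb.1]
  · linarith only [rb.2]
  · linarith only [ib.2]
  · linarith only [hmL, mb.1]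
  · linarith only [hnM, mb.2]
  · linarith only [hR2, nbR.2]
  · push_cast at rbR
    linarith only [rbR.1]
  · push_cast at ibR
    linarith only [ibR.1]
  · push_cast at ibR
    linarith only [ibR.2]
  · linarith only [hmR, mbR.1]
  · linarith only [hnR', mbR.2]
  · push_cast at bB
    linarith only [bB.1]
  · push_cast at bB
    linarith only [bB.2]
  · push_cast at cB
    linarith only [cB.1]
  · push_cast at cB
    linarith only [cB.2]
  · push_cast at gr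
    linarith only [gr.1]
  · push_cast at gr
    linarith only [gr.2]
  · push_cast at gi
    linarith only [gi.1]
  · push_cast at gi
    linarith only [gi.2]

theorem mkH_spec {px py r ex ey hx hy : ℚ} {k : Iv → Bool} (hE : ‖cexp (qc px py) - qc ex ey‖ ≤ 1 / 4294967296)
    (h : mkH px py r ex ey hx hy k = true) :
    ∃ I, k I = true ∧ ∀ p : ℂ, ‖p - qc px py‖ ≤ r → I.Ok p := by
  unfold mkH at h
  simp only [Bool.and_eq_true, decide_eq_true_eq] at h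
  obtain ⟨⟨⟨⟨h1, h2⟩, h3⟩, h4⟩, h5⟩ := h
  refine ⟨_, h5, fun p hp => ?_⟩
  have r0 : (0 : ℝ) ≤ r := (norm_nonneg _).trans hp
  have eε : ((mkRat 1 4294967296 : ℚ) : ℝ) = 1 / 4294967296 := by
    rw [Rat.mkRat_eq_div]; push_cast; rfl
  have hden : (0 : ℝ) < (nrL (ex - 1) ey : ℚ) - 1 / 4294967296 - ((nrU ex ey : ℚ) + 1 / 4294967296) * (r + r ^ (2 : ℕ)) := by
    have : (0 : ℝ) < ((nrL (ex - 1) ey - mkRat 1 4294967296 - (nrU ex ey + mkRat 1 4294967296) * (r + r * r) : ℚ) : ℝ) := by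
      exact_mod_cast h1
    push_cast at this
    rw [eε] at this
    rw [pow_two]
    exact this
  have hden2 : (0 : ℝ) < (nrL (ex - 1) ey : ℚ) - 1 / 4294967296 := by
    have : (0 : ℝ) < ((nrL (ex - 1) ey - mkRat 1 4294967296 : ℚ) : ℝ) := by exact_mod_cast h2
    push_cast at this
    rw [eε] at this
    exact this
  have hre : (r : ℝ) < (qc px py).re := by rw [qc_re]; exact_mod_cast h3
  have hr1 : (r : ℝ) ≤ 1 := by exact_mod_cast h4
  have e1 : qc ex ey - 1 = qc (ex - 1) ey := by rw [qc_one, qc_sub, sub_zero]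
  have e2 : qc px py - qc hx hy * (qc ex ey - 1) =
      qc (px - (hx * (ex - 1) - hy * ey)) (py - (hx * ey + hy * (ex - 1))) := by
    rw [e1, qc_mul, qc_sub]
  have e3 : ‖1 - qc hx hy * qc ex ey‖ = ‖qc (1 - (hx * ex - hy * ey)) (hx * ey + hy * ex)‖ := by
    rw [qc_mul, qc_one, qc_sub, qc_norm, qc_norm]
    congr 2
    ring
  have e4 : ‖1 - qc hx hy‖ = ‖qc (1 - hx) hy‖ := by
    rw [qc_one, qc_sub, qc_norm, qc_norm]
    congr 2
    ring
  have e5 : ‖1 - (qc hx hy + qc px py)‖ = ‖qc (1 - (hx + px)) (hy + py)‖ := by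
    rw [qc_add, qc_one, qc_sub, qc_norm, qc_norm]
    congr 2
    ring
  have b1 := nrU_spec hx hy
  have b2 := nrU_spec ex ey
  have b3 : ‖qc px py - qc hx hy * (qc ex ey - 1)‖ ≤ (nrU (px - (hx * (ex - 1) - hy * ey)) (py - (hx * ey + hy * (ex - 1))) : ℚ) := by
    rw [e2]; exact nrU_spec _ _
  have b4 : ‖1 - qc hx hy * qc ex ey‖ ≤ (nrU (1 - (hx * ex - hy * ey)) (hx * ey + hy * ex) : ℚ) := by
    rw [e3]; exact nrU_spec _ _
  have b5 : ‖1 - qc hx hy‖ ≤ (nrU (1 - hx) hy : ℚ) := by rw [e4]; exact nrU_spec _ _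
  have b6 : ((nrL (ex - 1) ey : ℚ) : ℝ) ≤ ‖qc ex ey - 1‖ := by rw [e1]; exact nrL_spec _ _
  have b7 : ‖1 - (qc hx hy + qc px py)‖ ≤ (nrU (1 - (hx + px)) (hy + py) : ℚ) := by rw [e5]; exact nrU_spec _ _
  have b8 : ((nrL (1 - hx) hy : ℚ) : ℝ) ≤ ‖1 - qc hx hy‖ := by rw [e4]; exact nrL_spec _ _
  have eL := le_rU ((nrU (px - (hx * (ex - 1) - hy * ey)) (py - (hx * ey + hy * (ex - 1))) + nrU hx hy * mkRat 1 4294967296 +
    r * (nrU (1 - (hx * ex - hy * ey)) (hx * ey + hy * ex) + nrU hx hy * mkRat 1 4294967296) +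
    nrU hx hy * ((nrU ex ey + mkRat 1 4294967296) * (r * r))) /
      (nrL (ex - 1) ey - mkRat 1 4294967296 - (nrU ex ey + mkRat 1 4294967296) * (r + r * r)))
  have eR := le_rU ((nrU (px - (hx * (ex - 1) - hy * ey)) (py - (hx * ey + hy * (ex - 1))) + nrU hx hy * mkRat 1 4294967296 +
    (nrU ex ey + mkRat 1 4294967296) * (r * nrU (1 - hx) hy + r * r + r * r * (r + nrU hx hy))) /
      (nrL (ex - 1) ey - mkRat 1 4294967296 - (nrU ex ey + mkRat 1 4294967296) * (r + r * r)))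
  have e0 := le_rU ((nrU (px - (hx * (ex - 1) - hy * ey)) (py - (hx * ey + hy * (ex - 1))) + nrU hx hy * mkRat 1 4294967296) /
      (nrL (ex - 1) ey - mkRat 1 4294967296))
  refine mkI_ok le_rfl b5 b7 b8 (fun p' hp' => ?_) ?_ hp
  · refine encl_all hE b1 b2 b3 b4 b5 b6 hr1 hden ?_ ?_ hre hp'
    · refine le_trans (le_of_eq ?_) eL
      push_cast
      rw [eε, pow_two]
    · refine le_trans (le_of_eq ?_) eR
      push_cast
      rw [eε, pow_two]
  · refine encl_cen hE b1 b3 b6 hden2 ?_ (r0.trans_lt hre)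
    refine le_trans (le_of_eq ?_) e0
    push_cast
    rw [eε]

theorem mkIv_spec {a b : ℤ} {r : ℚ} {k : Iv → Bool} (h : mkIv a b r k = true) :
    ∃ I, k I = true ∧ ∀ p : ℂ, ‖p - qc (mkRat a 1048576) (mkRat b 1048576)‖ ≤ r → I.Ok p := by
  unfold mkIv mkE at h
  rw [Bool.and_eq_true, decide_eq_true_eq] at h
  refine mkH_spec ?_ h.2
  have h1 := cE_err32 a b (by
    have := h.1
    norm_num at this ⊢
    linarith only [this])
  rw [cEf_eq]
  rw [← norm_neg, neg_sub]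
  have e1 : qc (mkRat (cE a b).1 1099511627776) (mkRat (cE a b).2 1099511627776) =
      (((cE a b).1 : ℂ) + ((cE a b).2 : ℂ) * Complex.I) / 2 ^ (40 : ℕ) := by
    unfold qc
    rw [Rat.mkRat_eq_div, Rat.mkRat_eq_div]
    push_cast
    norm_num
    ring
  have e2 : qc (mkRat a 1048576) (mkRat b 1048576) = ((a : ℂ) + (b : ℂ) * Complex.I) / 2 ^ (20 : ℕ) := by
    unfold qc
    rw [Rat.mkRat_eq_div, Rat.mkRat_eq_div]
    push_cast
    norm_num
    ring
  rw [e1, e2]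
  refine h1.trans (le_of_eq ?_)
  norm_num

end SokamTI

end

/-! ### Lib_MP_af4de1_ti.CertX -/

section
namespace SokamFU
end SokamFU
/-!
# The tip: passage from rational inequalities to the numerical conditions

Argument bounds, `|w|` against `1`, the angle `ψ`, and the conditions on the two sides.
-/

set_option autoImplicit false

namespace SokamTI

open Complex SokamFU

/-! ### The argument -/

theorem cos54 : Real.cos (5 / 4) ≤ 3154 / 10000 := by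
  have hpi := Real.pi_gt_three
  have h1 : Real.cos (5 / 64) ≤ 996950183 / 1000000000 := by
    have := Real.cos_bound (x := 5 / 64) (by rw [abs_of_pos (by norm_num)]; norm_num)
    rw [abs_le] at this
    have h2 := this.2
    rw [abs_of_pos (by norm_num : (0 : ℝ) < 5 / 64)] at h2
    norm_num at h2
    linarith
  have h2 : 0 ≤ Real.cos (5 / 64) := (Real.cos_pos_of_mem_Ioo ⟨by linarith, by linarith⟩).le
  have h2' : Real.cos (5 / 32) ≤ 987819336 / 1000000000 := by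
    have : Real.cos (5 / 32) = 2 * Real.cos (5 / 64) ^ (2 : ℕ) - 1 := by
      rw [← Real.cos_two_mul]; norm_num
    rw [this]
    nlinarith
  have h3' : 0 ≤ Real.cos (5 / 32) := (Real.cos_pos_of_mem_Ioo ⟨by linarith, by linarith⟩).le
  have h3 : Real.cos (5 / 16) ≤ 951574082 / 1000000000 := by
    have : Real.cos (5 / 16) = 2 * Real.cos (5 / 32) ^ (2 : ℕ) - 1 := by
      rw [← Real.cos_two_mul]; norm_num
    rw [this]
    nlinarith
  have h4 : 0 ≤ Real.cos (5 / 16) := (Real.cos_pos_of_mem_Ioo ⟨by linarith, by linarith⟩).le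
  have h5 : Real.cos (5 / 8) ≤ 810986470 / 1000000000 := by
    have : Real.cos (5 / 8) = 2 * Real.cos (5 / 16) ^ (2 : ℕ) - 1 := by
      rw [← Real.cos_two_mul]; norm_num
    rw [this]
    nlinarith
  have h6 : 0 ≤ Real.cos (5 / 8) := (Real.cos_pos_of_mem_Ioo ⟨by linarith, by linarith⟩).le
  have : Real.cos (5 / 4) = 2 * Real.cos (5 / 8) ^ (2 : ℕ) - 1 := by
    rw [← Real.cos_two_mul]; norm_num
  rw [this]
  nlinarith

theorem tan54' : 9489 / 3154 ≤ Real.tan (5 / 4) := by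
  have hpi := Real.pi_gt_three
  have hpos : 0 < Real.cos (5 / 4) := Real.cos_pos_of_mem_Ioo ⟨by linarith, by linarith⟩
  have hs : 0 < Real.sin (5 / 4) := Real.sin_pos_of_pos_of_lt_pi (by norm_num) (by linarith)
  rw [Real.tan_eq_sin_div_cos, le_div_iff₀ hpos]
  have h7 := cos54
  have h8 := Real.sin_sq_add_cos_sq (5 / 4)
  have h9 : 9489 / 10000 ≤ Real.sin (5 / 4) := by
    nlinarith
  nlinarith

theorem tan54 : 3 ≤ Real.tan (5 / 4) := (by norm_num : (3 : ℝ) ≤ 9489 / 3154).trans tan54'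

theorem arg_le_of_tan {h : ℂ} (ha : 0 < h.re) {θ : ℝ} (h0 : 0 ≤ θ)
    (h2 : h.im ≤ h.re * Real.tan θ) : arg h ≤ θ := by
  have h3 : |arg h| < Real.pi / 2 := by
    rw [Complex.abs_arg_lt_pi_div_two_iff]
    exact Or.inl ha
  have h4 := abs_lt.mp h3
  by_contra hc
  push Not at hc
  have h5 : Real.tan θ < Real.tan (arg h) :=
    Real.tan_lt_tan_of_lt_of_lt_pi_div_two (by linarith) h4.2 hc
  rw [Complex.tan_arg] at h5
  have h6 : h.re * Real.tan θ < h.im := by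
    rw [lt_div_iff₀ ha] at h5
    linarith
  linarith

/-- `arg h ≤ 5/4` -/
theorem arg_le_54 {h : ℂ} (ha : 0 < h.re) (hs : h.im ≤ 3 * h.re) : arg h ≤ 5 / 4 := by
  have hpi := Real.pi_gt_three
  refine arg_le_of_tan ha (by norm_num) ?_
  have := tan54
  nlinarith

theorem x54_of {h : ℂ} (ha : 0 < h.re) (hs : 3154 * h.im ≤ 9489 * h.re) : arg h ≤ 5 / 4 := by
  refine arg_le_of_tan ha (by norm_num) ?_
  have := tan54'
  nlinarith

/-- `s cos s ≤ (1 - s²/3) sin s` -/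
theorem cot_le {s : ℝ} (h0 : 0 ≤ s) (h1 : s ≤ Real.pi / 2) :
    s * Real.cos s ≤ (1 - s ^ (2 : ℕ) / 3) * Real.sin s := by
  have hmono : MonotoneOn (fun s : ℝ => (1 - s ^ (2 : ℕ) / 3) * Real.sin s - s * Real.cos s)
      (Set.Icc 0 (Real.pi / 2)) := by
    have hd : ∀ s : ℝ, HasDerivAt (fun s : ℝ => (1 - s ^ (2 : ℕ) / 3) * Real.sin s - s * Real.cos s)
        (s / 3 * (Real.sin s - s * Real.cos s)) s := by
      intro s
      have e1 : HasDerivAt (fun s : ℝ => 1 - s ^ (2 : ℕ) / 3) (-(2 * s / 3)) s := by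
        refine (((hasDerivAt_pow 2 s).div_const 3).const_sub 1).congr_deriv ?_
        norm_num
      have e2 := e1.mul (Real.hasDerivAt_sin s)
      have e3 := (hasDerivAt_id' s).mul (Real.hasDerivAt_cos s)
      have e4 := e2.sub e3
      refine e4.congr_deriv ?_
      ring
    refine monotoneOn_of_deriv_nonneg (convex_Icc _ _) ?_ ?_ ?_
    · exact fun s _ => (hd s).continuousAt.continuousWithinAt
    · exact fun s _ => (hd s).differentiableAt.differentiableWithinAt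
    · intro s hs
      rw [interior_Icc] at hs
      rw [(hd s).deriv]
      have h2 : s * Real.cos s ≤ Real.sin s := by
        have h3 := Real.lt_tan hs.1 hs.2
        have h4 : 0 < Real.cos s := Real.cos_pos_of_mem_Ioo ⟨by linarith [hs.1, Real.pi_pos], hs.2⟩
        rw [Real.tan_eq_sin_div_cos, lt_div_iff₀ h4] at h3
        exact h3.le
      have h5 : 0 ≤ s / 3 := by linarith [hs.1]
      exact mul_nonneg h5 (by linarith)
  have h2 := hmono (Set.left_mem_Icc.mpr (by linarith [Real.pi_pos])) ⟨h0, h1⟩ h0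
  simp at h2
  linarith

theorem xs_of {h : ℂ} (ha : 0 < h.re) (hs0 : 0 ≤ h.im) (hs : arg h ≤ 5 / 4)
    (h2 : 5 / 4 ≤ h.im ∨ 1 - h.im ^ (2 : ℕ) / 3 ≤ h.re) : arg h ≤ h.im := by
  rcases le_or_gt (5 / 4) h.im with h3 | h3
  · exact hs.trans h3
  · have h4 : 1 - h.im ^ (2 : ℕ) / 3 ≤ h.re := by
      rcases h2 with h5 | h5
      · linarith
      · exact h5
    have hpi := Real.pi_gt_three
    refine arg_le_of_tan ha hs0 ?_
    have hc : 0 < Real.cos h.im := Real.cos_pos_of_mem_Ioo ⟨by linarith, by linarith⟩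
    have hsn : 0 ≤ Real.sin h.im := Real.sin_nonneg_of_nonneg_of_le_pi hs0 (by linarith)
    rw [Real.tan_eq_sin_div_cos, ← mul_div_assoc, le_div_iff₀ hc]
    have h5 := cot_le hs0 (by linarith)
    have h6 : (1 - h.im ^ (2 : ℕ) / 3) * Real.sin h.im ≤ h.re * Real.sin h.im :=
      mul_le_mul_of_nonneg_right h4 hsn
    linarith

/-- `arg h ≤ Im h` -/
theorem arg_le_im {h : ℂ} (ha : 0 < h.re) (hs0 : 0 ≤ h.im) (hs : h.im ≤ 3 * h.re)
    (h2 : 5 / 4 ≤ h.im ∨ 1 - h.im ^ (2 : ℕ) / 3 ≤ h.re) : arg h ≤ h.im :=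
  xs_of ha hs0 (arg_le_54 ha hs) h2

/-! ### The exponential from below -/

/-- `1 + x + x²/2 + x³/6 + x⁴/24` -/
noncomputable def T4 (x : ℝ) : ℝ := 1 + x + x ^ (2 : ℕ) / 2 + x ^ (3 : ℕ) / 6 + x ^ (4 : ℕ) / 24

theorem T4_le_exp {x : ℝ} (hx : 0 ≤ x) : T4 x ≤ Real.exp x := by
  have := Real.sum_le_exp_of_nonneg hx 5
  simp only [Finset.sum_range_succ, Finset.sum_range_zero, Nat.factorial] at this
  unfold T4
  norm_num at this
  linarith

theorem T4_pos {x : ℝ} (hx : 0 ≤ x) : 0 < T4 x := by unfold T4; positivity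

theorem T4_mono {x y : ℝ} (hx : 0 ≤ x) (hxy : x ≤ y) : T4 x ≤ T4 y := by
  unfold T4; gcongr

theorem exp_neg_le {z : ℝ} (hz : 0 ≤ z) : Real.exp (-z) ≤ 1 / (1 + z + z ^ (2 : ℕ) / 2 + z ^ (3 : ℕ) / 6 + z ^ (4 : ℕ) / 24) := by
  rw [Real.exp_neg, ← one_div]
  exact one_div_le_one_div_of_le (T4_pos hz) (T4_le_exp hz)

theorem le_exp {t : ℝ} (ht : 0 ≤ t) : 1 + t + t ^ (2 : ℕ) / 2 + t ^ (3 : ℕ) / 6 + t ^ (4 : ℕ) / 24 ≤ Real.exp t := T4_le_exp ht

theorem exp_le_inv {t : ℝ} (ht : t < 1) : Real.exp t ≤ 1 / (1 - t) := by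
  have h1 := Real.add_one_le_exp (-t)
  have h2 : 0 < 1 - t := by linarith
  rw [le_div_iff₀ h2]
  have h3 : Real.exp t * Real.exp (-t) = 1 := by rw [← Real.exp_add]; simp
  have h4 := Real.exp_pos t
  nlinarith

/-- `1 + x + x²/2 + x³/6 ≤ e^x` for all real `x` -/
theorem T3_le_exp (x : ℝ) : 1 + x + x ^ (2 : ℕ) / 2 + x ^ (3 : ℕ) / 6 ≤ Real.exp x := by
  have hd1 : ∀ x : ℝ, HasDerivAt (fun x : ℝ => Real.exp x - (1 + x)) (Real.exp x - 1) x := by
    intro x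
    exact (Real.hasDerivAt_exp x).sub ((hasDerivAt_id x).const_add 1)
  have hd2 : ∀ x : ℝ, HasDerivAt (fun x : ℝ => Real.exp x - (1 + x + x ^ (2 : ℕ) / 2)) (Real.exp x - (1 + x)) x := by
    intro x
    have e1 : HasDerivAt (fun x : ℝ => 1 + x + x ^ (2 : ℕ) / 2) (1 + x) x := by
      have h1 : HasDerivAt (fun x : ℝ => x ^ (2 : ℕ) / 2) x x := by
        refine ((hasDerivAt_pow 2 x).div_const 2).congr_deriv ?_
        norm_num
      exact ((hasDerivAt_id x).const_add 1).add h1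
    exact (Real.hasDerivAt_exp x).sub e1
  have hd3 : ∀ x : ℝ, HasDerivAt (fun x : ℝ => Real.exp x - (1 + x + x ^ (2 : ℕ) / 2 + x ^ (3 : ℕ) / 6))
      (Real.exp x - (1 + x + x ^ (2 : ℕ) / 2)) x := by
    intro x
    have e1 : HasDerivAt (fun x : ℝ => 1 + x + x ^ (2 : ℕ) / 2 + x ^ (3 : ℕ) / 6) (1 + x + x ^ (2 : ℕ) / 2) x := by
      have h1 : HasDerivAt (fun x : ℝ => x ^ (2 : ℕ) / 2) x x := by
        refine ((hasDerivAt_pow 2 x).div_const 2).congr_deriv ?_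
        norm_num
      have h2 : HasDerivAt (fun x : ℝ => x ^ (3 : ℕ) / 6) (x ^ (2 : ℕ) / 2) x := by
        refine ((hasDerivAt_pow 3 x).div_const 6).congr_deriv ?_
        norm_num
        ring
      exact (((hasDerivAt_id x).const_add 1).add h1).add h2
    exact (Real.hasDerivAt_exp x).sub e1
  -- the quadratic remainder is increasing
  have hm2 : Monotone (fun x : ℝ => Real.exp x - (1 + x + x ^ (2 : ℕ) / 2)) := by
    refine monotone_of_deriv_nonneg (fun x => (hd2 x).differentiableAt) fun x => ?_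
    rw [(hd2 x).deriv]
    have := Real.add_one_le_exp x
    linarith
  rcases le_total 0 x with hx | hx
  · have h1 : MonotoneOn (fun x : ℝ => Real.exp x - (1 + x + x ^ (2 : ℕ) / 2 + x ^ (3 : ℕ) / 6)) (Set.Ici 0) := by
      refine monotoneOn_of_deriv_nonneg (convex_Ici 0) (fun x _ => (hd3 x).continuousAt.continuousWithinAt)
        (fun x _ => (hd3 x).differentiableAt.differentiableWithinAt) fun x hx => ?_
      rw [interior_Ici] at hx
      rw [(hd3 x).deriv]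
      have := hm2 (le_of_lt hx)
      simp at this
      linarith
    have h2 := h1 (Set.self_mem_Ici) hx hx
    simp at h2
    linarith
  · have h1 : AntitoneOn (fun x : ℝ => Real.exp x - (1 + x + x ^ (2 : ℕ) / 2 + x ^ (3 : ℕ) / 6)) (Set.Iic 0) := by
      refine antitoneOn_of_deriv_nonpos (convex_Iic 0) (fun x _ => (hd3 x).continuousAt.continuousWithinAt)
        (fun x _ => (hd3 x).differentiableAt.differentiableWithinAt) fun x hx => ?_
      rw [interior_Iic] at hx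
      rw [(hd3 x).deriv]
      have := hm2 (le_of_lt hx)
      simp at this
      linarith
    have h2 := h1 hx (Set.self_mem_Iic) hx
    simp at h2
    linarith

/-! ### `|w|` against `1` -/

theorem norm_wmap (p : ℂ) : ‖wmap p‖ = ‖hL p‖ * Real.exp (-(hL p).re) := by
  unfold wmap
  rw [norm_mul, Complex.norm_exp, Complex.neg_re]

/-- `|w| > 1` from `|h_L|² ≥ n`, `Re h_L ≤ -x` -/
theorem one_lt_wmap {p : ℂ} {n x : ℝ} (h1 : n ≤ ‖hL p‖ ^ (2 : ℕ)) (h2 : (hL p).re ≤ -x) (h3 : 0 ≤ x)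
    (h4 : 1 < n * T4 x ^ (2 : ℕ)) : 1 < ‖wmap p‖ := by
  have hT := T4_pos h3
  have h5 : T4 x ≤ Real.exp (-(hL p).re) := (T4_le_exp h3).trans (Real.exp_le_exp.mpr (by linarith))
  have h6 : 1 < ‖wmap p‖ ^ (2 : ℕ) := by
    rw [norm_wmap, mul_pow]
    have h7 : T4 x ^ (2 : ℕ) ≤ Real.exp (-(hL p).re) ^ (2 : ℕ) := by gcongr
    have h8 : n * T4 x ^ (2 : ℕ) ≤ ‖hL p‖ ^ (2 : ℕ) * T4 x ^ (2 : ℕ) := mul_le_mul_of_nonneg_right h1 (by positivity)
    have h9 : ‖hL p‖ ^ (2 : ℕ) * T4 x ^ (2 : ℕ) ≤ ‖hL p‖ ^ (2 : ℕ) * Real.exp (-(hL p).re) ^ (2 : ℕ) :=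
      mul_le_mul_of_nonneg_left h7 (by positivity)
    linarith
  nlinarith [norm_nonneg (wmap p)]

/-- `|w| < 1` from `|h_L|² ≤ n`, `Re h_L ≥ x` -/
theorem wmap_lt_one {p : ℂ} {n x : ℝ} (h1 : ‖hL p‖ ^ (2 : ℕ) ≤ n) (h2 : x ≤ (hL p).re)
    (h3 : 0 < 1 + x + x ^ (2 : ℕ) / 2 + x ^ (3 : ℕ) / 6) (h4 : n < (1 + x + x ^ (2 : ℕ) / 2 + x ^ (3 : ℕ) / 6) ^ (2 : ℕ)) : ‖wmap p‖ < 1 := by
  have h5 : 1 + x + x ^ (2 : ℕ) / 2 + x ^ (3 : ℕ) / 6 ≤ Real.exp (hL p).re :=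
    (T3_le_exp x).trans (Real.exp_le_exp.mpr h2)
  have h6 : ‖hL p‖ < Real.exp (hL p).re := by
    have h7 : ‖hL p‖ ^ (2 : ℕ) < Real.exp (hL p).re ^ (2 : ℕ) := by
      have : (1 + x + x ^ (2 : ℕ) / 2 + x ^ (3 : ℕ) / 6) ^ (2 : ℕ) ≤ Real.exp (hL p).re ^ (2 : ℕ) := by gcongr
      linarith
    exact lt_of_pow_lt_pow_left₀ 2 (Real.exp_pos _).le h7
  rw [norm_wmap, Real.exp_neg, ← div_eq_mul_inv, div_lt_one (Real.exp_pos _)]
  exact h6

/-! ### The angle -/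

theorem psi_gt {p : ℂ} (h1 : arg (hR p) ≤ 5 / 4) (h2 : 2 < (hR p).im) : 3 / 4 < psiP p := by
  unfold psiP; linarith

theorem psi_lt {p : ℂ} (h1 : 0 ≤ (hR p).im) (h2 : (hR p).im ≤ 6) : psiP p < 3 / 4 + 2 * Real.pi := by
  unfold psiP
  have := Complex.arg_nonneg_iff.mpr h1
  have := Real.pi_gt_three
  linarith

/-- `ψ < 19/5` for all points of the region -/
theorem psi_lt_Dtip19 {p : ℂ} (hp : p ∈ Dtip) : psiP p < 19 / 5 := by
  have hs : p ∈ Sec := ⟨hp.1, hp.2.1.trans (by norm_num), hp.2.2.1, hp.2.2.2.trans (Uf_le _)⟩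
  have h1 := hR_im_pos hs
  have h2 := hL_im_neg hs
  have h3 := hR_sub_hL (Sec.re_ne hs)
  have h4 : (hR p).im = (hL p).im + p.im := by
    have := congrArg Complex.im h3
    rw [Complex.sub_im] at this
    linarith
  have h5 := Complex.arg_nonneg_iff.mpr h1.le
  unfold psiP
  linarith [hp.2.1]

/-- (W3) on the right, for all points of the region -/
theorem psi_lt_Dtip {p : ℂ} (hp : p ∈ Dtip) : psiP p < 3 / 4 + 2 * Real.pi := by
  have := psi_lt_Dtip19 hp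
  have := Real.pi_gt_three
  linarith

theorem psi_lt_Dtip' {p : ℂ} (hp : p ∈ Dtip) : psiP p < 5 / 8 + 2 * Real.pi := by
  have := psi_lt_Dtip19 hp
  have := Real.pi_gt_three
  linarith

/-! ### The sides -/

/-- the side inequality -/
theorem side_of {Y δ δ₁ y e₁ e₂ r₁ r₂ a b A B : ℝ} (hδ : 0 < δ) (hδ₁ : δ ≤ δ₁) (hy0 : 0 ≤ y) (hy : y ≤ Y)
    (he₁ : e₁ ≤ r₁) (hr₁ : 0 ≤ r₁) (he₂ : e₂ ≤ r₂) (hr₂ : r₂ ≤ 1) (ha0 : 0 ≤ a) (ha : a ≤ A) (hB : 0 ≤ B)
    (hb : B ≤ b) (h : (1 + r₁) ^ (2 : ℕ) * A < ((1 - r₂) * T4 (y / δ₁)) ^ (2 : ℕ) * B) :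
    Real.exp (-Y / δ) * (1 + e₁) * √a < (1 - e₂) * √b := by
  have hδ₁0 : 0 < δ₁ := hδ.trans_le hδ₁
  set T := T4 (y / δ₁) with hTdef
  have hyd : 0 ≤ y / δ₁ := by positivity
  have hT : 0 < T := T4_pos hyd
  have hA : 0 ≤ A := ha0.trans ha
  have hr2' : 0 ≤ 1 - r₂ := by linarith
  have h1 : T ≤ Real.exp (Y / δ) := by
    refine (T4_le_exp hyd).trans (Real.exp_le_exp.mpr ?_)
    calc y / δ₁ ≤ y / δ := by gcongr
      _ ≤ Y / δ := by gcongr
  have h2 : Real.exp (-Y / δ) ≤ 1 / T := by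
    rw [neg_div, Real.exp_neg, ← one_div]
    exact one_div_le_one_div_of_le hT h1
  have h3 : (1 + r₁) * √A < (1 - r₂) * T * √B := by
    refine lt_of_pow_lt_pow_left₀ 2 (by positivity) ?_
    rw [mul_pow, mul_pow ((1 - r₂) * T), Real.sq_sqrt hA, Real.sq_sqrt hB]
    exact h
  have h4 : √a ≤ √A := Real.sqrt_le_sqrt ha
  have h5 : √B ≤ √b := Real.sqrt_le_sqrt hb
  have hE := (Real.exp_pos (-Y / δ)).le
  have he2' : 0 ≤ 1 - e₂ := by linarith
  calc Real.exp (-Y / δ) * (1 + e₁) * √a ≤ Real.exp (-Y / δ) * (1 + r₁) * √a := by gcongr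
    _ ≤ 1 / T * (1 + r₁) * √A := by gcongr
    _ = ((1 + r₁) * √A) / T := by ring
    _ < ((1 - r₂) * T * √B) / T := by gcongr
    _ = (1 - r₂) * √B := by field_simp
    _ ≤ (1 - e₂) * √b := by gcongr

end SokamTI

end

/-! ### Lib_MP_af4de1_ti.Box4 -/

section
namespace SokamFU
end SokamFU
/-!
# Soundness of the tests of the tip certificate
-/

set_option autoImplicit false

namespace SokamTI

open SokamFU Complex

variable {I : Iv} {p : ℂ} {δ : ℝ}

theorem tG_sound {v1 u2 : ℚ} (h : tG v1 u2 I = true) (hI : I.Ok p) (him : 0 ≤ p.im) (hv : (v1 : ℝ) ≤ p.im)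
    (hu : p.re ≤ u2) : CondG p := by
  unfold tG at h
  simp only [Bool.and_eq_true, decide_eq_true_eq] at h
  obtain ⟨⟨h1, h2⟩, h3⟩ := h
  have h1' : (0 : ℝ) < I.gx1 := by exact_mod_cast h1
  have h2' : (I.gy2 : ℝ) < 0 := by exact_mod_cast h2
  have h3' : (u2 : ℝ) * I.gx2 < v1 * (-I.gy2) := by exact_mod_cast h3
  have g1 := hI.gx1
  have g2 := hI.gx2
  have g3 := hI.gy2
  have hp := hI.pos
  have e : Gp p = (1 - hL p) * (1 - hR p) := rfl
  unfold CondG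
  rw [e]
  refine ⟨h1'.trans_le g1, ?_⟩
  have a1 : p.re * ((1 - hL p) * (1 - hR p)).re ≤ u2 * I.gx2 :=
    mul_le_mul hu g2 (h1'.le.trans g1) (hp.le.trans hu)
  have a2 : (v1 : ℝ) * (-I.gy2) ≤ p.im * (-((1 - hL p) * (1 - hR p)).im) :=
    (mul_le_mul_of_nonneg_right hv (by linarith only [h2'])).trans (mul_le_mul_of_nonneg_left (by linarith only [g3]) him)
  linarith only [h3', a1, a2]

theorem tw_sound (h : tw I = true) (hI : I.Ok p) : 1 < ‖wmap p‖ := by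
  unfold tw at h
  simp only [Bool.and_eq_true, decide_eq_true_eq] at h
  obtain ⟨h1, h2⟩ := h
  have h1' : (I.aL2 : ℝ) ≤ 0 := by exact_mod_cast h1
  have h2' : (24 : ℝ) < I.hL1 * (24 + 24 * (-I.aL2) + 12 * (I.aL2 * I.aL2) + 4 * (-I.aL2) * (I.aL2 * I.aL2) +
      (I.aL2 * I.aL2) * (I.aL2 * I.aL2)) := by exact_mod_cast h2
  have h3 := le_exp (t := -(I.aL2 : ℝ)) (by linarith only [h1'])
  have h4 : Real.exp (-(I.aL2 : ℝ)) ≤ Real.exp (-(hL p).re) := Real.exp_le_exp.2 (by linarith only [hI.aL2])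
  set T : ℝ := 24 + 24 * (-I.aL2) + 12 * (I.aL2 * I.aL2) + 4 * (-I.aL2) * (I.aL2 * I.aL2) +
      (I.aL2 * I.aL2) * (I.aL2 * I.aL2) with hT
  have hT0 : 0 < T := by
    rw [hT]
    have a1 : 0 ≤ 4 * (-(I.aL2 : ℝ)) * (I.aL2 * I.aL2) := mul_nonneg (by linarith only [h1']) (mul_self_nonneg _)
    have a2 : 0 ≤ (I.aL2 : ℝ) * I.aL2 * (I.aL2 * I.aL2) := mul_self_nonneg _
    have a3 : 0 ≤ (I.aL2 : ℝ) * I.aL2 := mul_self_nonneg _
    linarith only [h1', a1, a2, a3]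
  have h5 : T ≤ 24 * Real.exp (-(hL p).re) := by
    have : T = 24 * (1 + -(I.aL2 : ℝ) + (-(I.aL2 : ℝ)) ^ (2 : ℕ) / 2 + (-(I.aL2 : ℝ)) ^ (3 : ℕ) / 6 + (-(I.aL2 : ℝ)) ^ (4 : ℕ) / 24) := by
      rw [hT]; ring
    rw [this]
    linarith only [h3, h4]
  have hL0 : (0 : ℝ) < I.hL1 := by
    by_contra hc
    push Not at hc
    have : (I.hL1 : ℝ) * T ≤ 0 := mul_nonpos_of_nonpos_of_nonneg hc hT0.le
    linarith only [h2', this]
  rw [norm_wmap]
  have h6 : (I.hL1 : ℝ) * T ≤ ‖hL p‖ * (24 * Real.exp (-(hL p).re)) :=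
    mul_le_mul hI.hL1 h5 hT0.le (norm_nonneg _)
  linarith only [h2', h6]

theorem tW_sound (h : tW I = true) (hI : I.Ok p) (hw : ‖wmap p‖ = 1) :
    (Bp p).re ≤ -(Real.pi * (2 / 25)) ∧ 3 / 4 < psiP p := by
  unfold tW at h
  simp only [Bool.or_eq_true, Bool.and_eq_true, decide_eq_true_eq] at h
  rcases h with h | ⟨⟨⟨h1, h2⟩, h3⟩, h4⟩
  · exfalso
    have h' : (I.hL2 : ℝ) < 1 + I.aL1 := by exact_mod_cast h
    have h1 : ‖hL p‖ < 1 + (hL p).re := by linarith only [h', hI.hL2, hI.aL1]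
    have h2 : 1 + (hL p).re ≤ Real.exp (hL p).re := by linarith only [Real.add_one_le_exp (hL p).re]
    have h3 : ‖wmap p‖ < 1 := by
      rw [norm_wmap, Real.exp_neg, ← div_eq_mul_inv, div_lt_one (Real.exp_pos _)]
      linarith only [h1, h2]
    linarith only [hw, h3]
  · have h1' : (I.bx2 : ℝ) ≤ -1257 / 5000 := by
      have : ((I.bx2 : ℚ) : ℝ) ≤ ((-1257 / 5000 : ℚ) : ℝ) := by exact_mod_cast h1
      push_cast at this
      exact this
    have h2' : (2 : ℝ) < I.sR1 := by exact_mod_cast h2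
    have h3' : (0 : ℝ) < I.aR1 := by exact_mod_cast h3
    have h4' : (3154 : ℝ) * I.sR2 ≤ 9489 * I.aR1 := by exact_mod_cast h4
    have hpi := Real.pi_lt_d4
    refine ⟨by linarith only [h1', hpi, hI.bx2], psi_gt (x54_of (h3'.trans_le hI.aR1) ?_) (h2'.trans_le hI.sR1)⟩
    linarith only [h4', hI.sR2, hI.aR1]

theorem dmx_ge (hI : I.Ok p) (h0 : 0 < δ) (h1 : δ ≤ 2 / 25) (h2 : (Bp p).re ≤ -(Real.pi * δ)) :
    δ ≤ ((dmx I : ℚ) : ℝ) := by
  unfold dmx
  rw [Rat.cast_min]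
  refine le_min (by push_cast; exact h1) ?_
  refine le_trans ?_ (le_rU _)
  push_cast
  have hpi := Real.pi_gt_d4
  rw [le_div_iff₀ (by norm_num)]
  nlinarith only [h0, h2, hpi, hI.bx1]

theorem tB_sound {k : ℚ → ℚ → ℚ → ℚ → ℚ → Bool} (h : tB I k = true) :
    ∃ dm rl rr bl br : ℚ, k dm rl rr bl br = true ∧ dm = dmx I ∧ (rl : ℝ) < 1 ∧ (rr : ℝ) < 1 ∧
      ∀ p : ℂ, ∀ δ : ℝ, I.Ok p → 0 < δ → δ ≤ 2 / 25 → (Bp p).re ≤ -(Real.pi * δ) →
        δ ≤ dm ∧ 0 < qp (hR p) ∧ relL (hL p) δ ≤ rl ∧ 0 ≤ relR (hR p) δ ∧ relR (hR p) δ ≤ rr ∧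
          bL (hL p) δ ≤ bl ∧ bR (hR p) δ ≤ br := by
  unfold tB tB2 tB3 at h
  simp only [Bool.and_eq_true, decide_eq_true_eq] at h
  obtain ⟨⟨⟨⟨⟨⟨⟨⟨⟨⟨c1, c2⟩, c3⟩, c4⟩, c5⟩, c6⟩, c7⟩, c8⟩, c9⟩, c10⟩, ⟨c11, c12⟩, hk⟩ := h
  refine ⟨_, _, _, _, _, hk, rfl, by exact_mod_cast c11, by exact_mod_cast c12, ?_⟩
  intro p δ hI δ0 δ1 hB
  have c1' : (0 : ℝ) < I.sL1 := by exact_mod_cast c1
  have c2' : (0 : ℝ) < sqL I.sL1 := by exact_mod_cast c2
  have c3' : (0 : ℝ) < sqL I.mL1 := by exact_mod_cast c3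
  have c4' : (0 : ℝ) < I.sR1 := by exact_mod_cast c4
  have c5' : (0 : ℝ) < sqL I.sR1 := by exact_mod_cast c5
  have c6' : (0 : ℝ) < sqL I.mR1 := by exact_mod_cast c6
  have c7' : (0 : ℝ) < q1 I := by exact_mod_cast c7
  have c8' : (0 : ℝ) < sqL (q1 I) := by exact_mod_cast c8
  have c9' : (0 : ℝ) < x1 I := by exact_mod_cast c9
  have c10' : (0 : ℝ) < sqL (x1 I) := by exact_mod_cast c10
  have c11' : ((relLU I (dmx I) : ℚ) : ℝ) < 1 := by exact_mod_cast c11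
  have c12' : ((relRU I (dmx I) (sqU (dmx I)) (q1 I) (x1 I) (sqU (dmx I / q1 I)) (tfUq (dmx I) (q1 I) (x1 I)) : ℚ) : ℝ) < 1 := by
    exact_mod_cast c12
  have hdm := dmx_ge hI δ0 δ1 hB
  have dm0 : (0 : ℝ) < dmx I := δ0.trans_le hdm
  have hsd : √δ ≤ ((sqU (dmx I) : ℚ) : ℝ) := sqU_spec hdm
  have hnR : 0 < ‖hR p‖ := by
    have h1 : 0 < (hR p).im := c4'.trans_le hI.sR1
    exact h1.trans_le ((le_abs_self _).trans (abs_im_le_norm _))
  have hhR2 : (0 : ℝ) < I.hR2 := hnR.trans_le hI.hR2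
  -- left
  have hSL : √(‖1 - hL p‖ * δ) ≤ ((sqU (I.mL2 * dmx I) : ℚ) : ℝ) := by
    refine sqU_spec ?_
    push_cast
    exact mul_le_mul hI.mL2 hdm δ0.le ((norm_nonneg _).trans hI.mL2)
  have hrl : relL (hL p) δ ≤ ((relLU I (dmx I) : ℚ) : ℝ) := by
    refine (Bx.relL_le hI.hL2 c1' hI.sL1 hSL).trans ?_
    unfold relLU
    refine le_trans (le_of_eq ?_) (le_rU _)
    push_cast
    ring
  have hbl : bL (hL p) δ ≤ ((bLU I (dmx I) (sqU (dmx I)) (relLU I (dmx I)) : ℚ) : ℝ) := by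
    refine (Bx.bL_le hI.hL2 c1' hI.sL1 c2' (sqL_spec c1'.le le_rfl) c3'
      (sqL_spec (norm_nonneg _) hI.mL1) δ0.le hdm hsd hrl c11').trans ?_
    unfold bLU
    push_cast
    exact le_rfl
  -- right
  have hq : ((q1 I : ℚ) : ℝ) ≤ qp (hR p) := by
    refine Bx.qp_ge hI.aR1 hI.sR1 ?_
    unfold q1
    refine (rL_le _).trans (le_of_eq ?_)
    push_cast
    rfl
  have hx : ((x1 I : ℚ) : ℝ) ≤ xl (hR p) := by
    refine Bx.xl_ge hI.hR2 hnR c4' hI.sR1 ?_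
    unfold x1
    refine (rL_le _).trans (le_of_eq ?_)
    push_cast
    rfl
  have htf : tf (hR p) δ ≤ ((tfUq (dmx I) (q1 I) (x1 I) : ℚ) : ℝ) := by
    refine Bx.tf_le c7' hq c9' hx δ0.le hdm ?_
    unfold tfUq
    refine le_trans (le_of_eq ?_) (le_rU _)
    push_cast
    rfl
  have hSR : √(‖1 - hR p‖ * δ) ≤ ((sqU (I.mR2 * dmx I) : ℚ) : ℝ) := by
    refine sqU_spec ?_
    push_cast
    exact mul_le_mul hI.mR2 hdm δ0.le ((norm_nonneg _).trans hI.mR2)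
  have hSq : √(((dmx I : ℚ) : ℝ) / ((q1 I : ℚ) : ℝ)) ≤ ((sqU (dmx I / q1 I) : ℚ) : ℝ) := by
    refine sqU_spec ?_
    push_cast
    exact le_rfl
  have hqp0 : 0 < qp (hR p) := c7'.trans_le hq
  have hxl0 : 0 < xl (hR p) := c9'.trans_le hx
  have hm2 : √‖1 - hR p‖ ≤ ((sqU I.mR2 : ℚ) : ℝ) := sqU_spec hI.mR2
  have hrr : relR (hR p) δ ≤ ((relRU I (dmx I) (sqU (dmx I)) (q1 I) (x1 I) (sqU (dmx I / q1 I)) (tfUq (dmx I) (q1 I) (x1 I)) : ℚ) : ℝ) := by
    refine (Bx.relR_le hI.hR2 c4' hI.sR1 hSR c7' hq c9' hx δ0.le hdm hsd hSq htf hm2 c10'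
      (sqL_spec c9'.le le_rfl)).trans ?_
    conv_rhs => unfold relRU
    refine le_trans (le_of_eq ?_) (le_rU _)
    push_cast
    rfl
  have hbr := Bx.bR_le hI.hR2 hnR c4' hI.sR1 c5' (sqL_spec c4'.le le_rfl) c7' hq c8' (sqL_spec c7'.le le_rfl)
    c9' hx δ0.le hdm hsd hSq htf c6' (sqL_spec (norm_nonneg _) hI.mR1) hm2 hrr c12'
  refine ⟨hdm, hqp0, hrl, Bx.relR_nonneg _ _ hqp0 hxl0, hrr, hbl, hbr.trans (le_of_eq ?_)⟩
  conv_rhs => unfold bRU
  push_cast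
  rfl

theorem tP_sound {u1 : ℚ} (h : tP u1 I = true) (hI : I.Ok p) (hu : (u1 : ℝ) ≤ p.re) (δ0 : 0 < δ) (δ1 : δ ≤ 2 / 25)
    (hB : (Bp p).re ≤ -(Real.pi * δ)) : PtCond p δ ∧ ((Bp p).re = -(Real.pi * δ) → CondI p δ) := by
  unfold tP at h
  simp only [Bool.and_eq_true, Bool.or_eq_true, decide_eq_true_eq] at h
  obtain ⟨⟨⟨⟨c1, c2⟩, c3⟩, c4⟩, hb⟩ := h
  obtain ⟨dm, rl, rr, bl, br, hk, -, hrl, hrr, hall⟩ := tB_sound hb
  obtain ⟨hdm, hqp, hl, hr0, hr, hbl, hbr⟩ := hall p δ hI δ0 δ1 hB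
  simp only [Bool.and_eq_true, Bool.or_eq_true, decide_eq_true_eq] at hk
  obtain ⟨⟨d1, d2⟩, d3⟩ := hk
  have c1' : (97 / 100 : ℝ) ≤ I.aR1 := by
    have : ((97 / 100 : ℚ) : ℝ) ≤ ((I.aR1 : ℚ) : ℝ) := by exact_mod_cast c1
    push_cast at this
    exact this
  have c2' : (I.sR2 : ℝ) ≤ 5 * I.aR1 := by exact_mod_cast c2
  have c3' : (3154 : ℝ) * I.sR2 ≤ 9489 * I.aR1 := by exact_mod_cast c3
  have d1' : (24 / 5 : ℝ) * dm ≤ I.sL1 := by
    have : ((24 / 5 * dm : ℚ) : ℝ) ≤ ((I.sL1 : ℚ) : ℝ) := by exact_mod_cast d1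
    push_cast at this
    exact this
  have d2' : (bl : ℝ) + br < u1 := by exact_mod_cast d2
  have haR : 0 < (hR p).re := by linarith only [c1', hI.aR1]
  have hsR0 : 0 ≤ (hR p).im := by
    unfold tB at hb
    simp only [Bool.and_eq_true, decide_eq_true_eq] at hb
    have : (0 : ℝ) < I.sR1 := by exact_mod_cast hb.1.1.1.1.1.1.1.2
    exact this.le.trans hI.sR1
  have hx54 : arg (hR p) ≤ 5 / 4 := x54_of haR (by linarith only [c3', hI.sR2, hI.aR1])
  refine ⟨⟨by linarith only [hdm, d1', hI.sL1], xs_of haR hsR0 hx54 ?_, hx54, by linarith only [c2', hI.sR2, hI.aR1],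
    c1'.trans hI.aR1, hqp, hl.trans_lt hrl, hr.trans_lt hrr, by linarith only [hu, hbl, hbr, d2']⟩, ?_⟩
  · rcases c4 with c4 | c4
    · left
      have : ((5 / 4 : ℚ) : ℝ) ≤ ((I.sR1 : ℚ) : ℝ) := by exact_mod_cast c4
      push_cast at this
      exact this.trans hI.sR1
    · right
      have h1 : (3 : ℝ) - I.sR1 * I.sR1 ≤ 3 * I.aR1 := by exact_mod_cast c4
      have h0 : (0 : ℝ) < I.sR1 := by
        unfold tB at hb
        simp only [Bool.and_eq_true, decide_eq_true_eq] at hb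
        exact_mod_cast hb.1.1.1.1.1.1.1.2
      have h2 : (I.sR1 : ℝ) * I.sR1 ≤ (hR p).im * (hR p).im := mul_self_le_mul_self h0.le hI.sR1
      linarith only [h1, h2, hI.aR1]
  · intro hin
    rcases d3 with d3 | ⟨⟨⟨e1, e2⟩, e3⟩, e4⟩
    · exfalso
      have h1 : (1257 / 5000 : ℝ) < -I.bx2 := by
        have : ((1257 / 5000 : ℚ) : ℝ) < ((-I.bx2 : ℚ) : ℝ) := by exact_mod_cast d3
        push_cast at this
        exact this
      have hpi := Real.pi_lt_d4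
      have hpi0 := Real.pi_pos
      have h2 : Real.pi * δ ≤ Real.pi * (2 / 25) := mul_le_mul_of_nonneg_left δ1 hpi0.le
      linarith only [hin, h1, hpi, h2, hI.bx2]
    · have e1' : (2 : ℝ) * (rl * rl) ≤ 1 := by exact_mod_cast e1
      have e2' : (2 : ℝ) * (rr * rr) ≤ 1 := by exact_mod_cast e2
      have e3' : (3 / 5 : ℝ) * (1 - I.aL1) - 4 / 5 * I.sL1 < (1 - 2 * (rl * rl)) * I.mL1 := by
        have : ((3 / 5 * (1 - I.aL1) - 4 / 5 * I.sL1 : ℚ) : ℝ) < (((1 - 2 * (rl * rl)) * I.mL1 : ℚ) : ℝ) := by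
          exact_mod_cast e3
        push_cast at this
        exact this
      have e4' : (4 / 5 : ℝ) * I.sR2 - 3 / 5 * (I.aR1 - 1) < (1 - 2 * (rr * rr)) * I.mR1 := by
        have : ((4 / 5 * I.sR2 - 3 / 5 * (I.aR1 - 1) : ℚ) : ℝ) < (((1 - 2 * (rr * rr)) * I.mR1 : ℚ) : ℝ) := by
          exact_mod_cast e4
        push_cast at this
        exact this
      have hl0 := Bx.relL_nonneg (hL p) δ
      have q1 : relL (hL p) δ ^ (2 : ℕ) ≤ rl * rl := by
        rw [pow_two]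
        exact mul_self_le_mul_self hl0 hl
      have q2 : relR (hR p) δ ^ (2 : ℕ) ≤ rr * rr := by
        rw [pow_two]
        exact mul_self_le_mul_self hr0 hr
      constructor
      · have m1 : (1 - 2 * (rl * rl : ℝ)) * I.mL1 ≤ (1 - 2 * relL (hL p) δ ^ (2 : ℕ)) * ‖1 - hL p‖ := by
          calc (1 - 2 * (rl * rl : ℝ)) * I.mL1 ≤ (1 - 2 * (rl * rl : ℝ)) * ‖1 - hL p‖ :=
                mul_le_mul_of_nonneg_left hI.mL1 (by linarith only [e1'])
            _ ≤ _ := mul_le_mul_of_nonneg_right (by linarith only [q1]) (norm_nonneg _)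
        linarith only [e3', m1, hI.aL1, hI.sL1]
      · have m1 : (1 - 2 * (rr * rr : ℝ)) * I.mR1 ≤ (1 - 2 * relR (hR p) δ ^ (2 : ℕ)) * ‖1 - hR p‖ := by
          calc (1 - 2 * (rr * rr : ℝ)) * I.mR1 ≤ (1 - 2 * (rr * rr : ℝ)) * ‖1 - hR p‖ :=
                mul_le_mul_of_nonneg_left hI.mR1 (by linarith only [e2'])
            _ ≤ _ := mul_le_mul_of_nonneg_right (by linarith only [q2]) (norm_nonneg _)
        linarith only [e4', m1, hI.sR2, hI.aR1]

theorem e4_pos {z : ℚ} (hz : 0 ≤ z) : (0 : ℝ) < ((e4 z : ℚ) : ℝ) := by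
  have hz' : (0 : ℝ) ≤ z := by exact_mod_cast hz
  unfold e4
  push_cast
  positivity

/-- the common step of the two sides -/
theorem side_sound {E r1 r2 a1 a2 m1 m2 M1 M2 Z : ℝ} {z : ℚ} (h0 : 0 ≤ z) (hz : (z : ℝ) ≤ Z) (hZ : 0 ≤ Z) (hE : E ≤ Real.exp (-Z))
    (hE0 : 0 < E) (h1 : a1 ≤ r1) (ha1 : 0 ≤ a1) (h2 : a2 ≤ r2) (hr2 : r2 < 1) (hm1 : m1 ≤ M1) (hm0 : 0 ≤ m1) (hm2 : M2 ≤ m2) (hM2 : 0 ≤ M2)
    (h : 24 * ((1 + r1) * M1) < (1 - r2) * M2 * ((e4 z : ℚ) : ℝ)) : E * (1 + a1) * m1 < (1 - a2) * m2 := by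
  have hM1 : 0 ≤ M1 := hm0.trans hm1
  have hr1 : 0 ≤ r1 := ha1.trans h1
  have hez : ((e4 z : ℚ) : ℝ) ≤ 24 * Real.exp Z := by
    have h0' : (0 : ℝ) ≤ z := by exact_mod_cast h0
    have h3 := le_exp h0'
    have h4 : Real.exp (z : ℝ) ≤ Real.exp Z := Real.exp_le_exp.2 hz
    have h5 : ((e4 z : ℚ) : ℝ) = 24 * (1 + (z : ℝ) + (z : ℝ) ^ (2 : ℕ) / 2 + (z : ℝ) ^ (3 : ℕ) / 6 + (z : ℝ) ^ (4 : ℕ) / 24) := by
      unfold e4
      push_cast
      ring
    rw [h5]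
    linarith only [h3, h4]
  have hEZ : E * Real.exp Z ≤ 1 := by
    calc E * Real.exp Z ≤ Real.exp (-Z) * Real.exp Z := mul_le_mul_of_nonneg_right hE (Real.exp_pos _).le
      _ = 1 := by rw [← Real.exp_add, neg_add_cancel, Real.exp_zero]
  have h6 : 24 * ((1 + r1) * M1) < (1 - r2) * M2 * (24 * Real.exp Z) :=
    h.trans_le (mul_le_mul_of_nonneg_left hez (mul_nonneg (by linarith only [hr2]) hM2))
  have h7 : (1 + r1) * M1 < (1 - r2) * M2 * Real.exp Z := by linarith only [h6]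
  calc E * (1 + a1) * m1 ≤ E * (1 + r1) * M1 := by gcongr
    _ = E * ((1 + r1) * M1) := by ring
    _ < E * ((1 - r2) * M2 * Real.exp Z) := mul_lt_mul_of_pos_left h7 hE0
    _ = (1 - r2) * M2 * (E * Real.exp Z) := by ring
    _ ≤ (1 - r2) * M2 * 1 := mul_le_mul_of_nonneg_left hEZ (mul_nonneg (by linarith only [hr2]) hM2)
    _ ≤ (1 - a2) * m2 := by
        rw [mul_one]
        exact mul_le_mul (by linarith only [h2]) hm2 hM2 (by linarith only [h2, hr2])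

theorem rL_nonneg {q : ℚ} (h : 0 ≤ q) : 0 ≤ rL q := by
  unfold rL
  rw [Rat.mkRat_eq_div]
  have h1 : 0 ≤ q.num := Rat.num_nonneg.2 h
  have h2 : 0 ≤ q.num * 1048576 / (q.den : ℤ) := by positivity
  have h3 : (0 : ℚ) ≤ ((q.num * 1048576 / (q.den : ℤ) : ℤ) : ℚ) := by exact_mod_cast h2
  positivity

theorem tL_sound (h : tL I = true) (hI : I.Ok p) (δ0 : 0 < δ) (δ1 : δ ≤ 2 / 25)
    (hB : (Bp p).re ≤ -(Real.pi * δ)) : CondL p δ := by
  unfold tL at h
  rw [Bool.and_eq_true, decide_eq_true_eq] at h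
  obtain ⟨hb, ht⟩ := h
  obtain ⟨dm, rl, rr, bl, br, hk, -, hrl, hrr, hall⟩ := tB_sound ht
  obtain ⟨hdm, hqp, hl, hr0, hr, hbl, hbr⟩ := hall p δ hI δ0 δ1 hB
  simp only [Bool.and_eq_true, decide_eq_true_eq] at hk
  obtain ⟨d0, d1⟩ := hk
  have hb' : (I.by2 : ℝ) < 0 := by exact_mod_cast hb
  have d0' : (0 : ℝ) < dm := by exact_mod_cast d0
  have d1' : (24 : ℝ) * ((1 + rl) * ((sqU I.mR2 : ℚ) : ℝ)) < (1 - rr) * ((sqL I.mL1 : ℚ) : ℝ) * ((e4 (rL (-I.by2 / dm)) : ℚ) : ℝ) := by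
    exact_mod_cast d1
  have hz := rL_le (-I.by2 / dm)
  push_cast at hz
  have hz0 : 0 ≤ rL (-I.by2 / dm) := rL_nonneg (div_nonneg (by linarith only [hb]) d0.le)
  unfold CondL
  refine side_sound (Z := -I.by2 / dm) hz0 hz ?_ ?_ (Real.exp_pos _) hl (Bx.relL_nonneg _ _) hr hrr (sqU_spec hI.mR2)
    (Real.sqrt_nonneg _) (sqL_spec (norm_nonneg _) hI.mL1) (sqL_nonneg _) d1'
  · exact div_nonneg (by linarith only [hb']) d0'.le
  · refine Real.exp_le_exp.2 ?_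
    have h1 : (Bp p).im / δ ≤ (I.by2 : ℝ) / δ := div_le_div_of_nonneg_right hI.by2 δ0.le
    have h2 : (-(I.by2 : ℝ)) / dm ≤ (-(I.by2 : ℝ)) / δ := div_le_div_of_nonneg_left (by linarith only [hb']) δ0 hdm
    have h3 : (-(I.by2 : ℝ)) / δ = -((I.by2 : ℝ) / δ) := neg_div _ _
    linarith only [h1, h2, h3]

theorem tR_sound (h : tR I = true) (hI : I.Ok p) (δ0 : 0 < δ) (δ1 : δ ≤ 2 / 25)
    (hB : (Bp p).re ≤ -(Real.pi * δ)) : CondR p δ := by
  unfold tR at h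
  rw [Bool.and_eq_true, decide_eq_true_eq] at h
  obtain ⟨hb, ht⟩ := h
  obtain ⟨dm, rl, rr, bl, br, hk, -, hrl, hrr, hall⟩ := tB_sound ht
  obtain ⟨hdm, hqp, hl, hr0, hr, hbl, hbr⟩ := hall p δ hI δ0 δ1 hB
  simp only [Bool.and_eq_true, decide_eq_true_eq] at hk
  obtain ⟨d0, d1⟩ := hk
  have hb' : (0 : ℝ) < I.by1 := by exact_mod_cast hb
  have d0' : (0 : ℝ) < dm := by exact_mod_cast d0
  have d1' : (24 : ℝ) * ((1 + rr) * ((sqU I.mL2 : ℚ) : ℝ)) < (1 - rl) * ((sqL I.mR1 : ℚ) : ℝ) * ((e4 (rL (I.by1 / dm)) : ℚ) : ℝ) := by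
    exact_mod_cast d1
  have hz := rL_le (I.by1 / dm)
  push_cast at hz
  have hz0 : 0 ≤ rL (I.by1 / dm) := rL_nonneg (div_nonneg hb.le d0.le)
  unfold CondR
  refine side_sound (Z := I.by1 / dm) hz0 hz ?_ ?_ (Real.exp_pos _) hr hr0 hl hrl (sqU_spec hI.mL2)
    (Real.sqrt_nonneg _) (sqL_spec (norm_nonneg _) hI.mR1) (sqL_nonneg _) d1'
  · exact div_nonneg hb'.le d0'.le
  · refine Real.exp_le_exp.2 (neg_le_neg ?_)
    have h1 : (I.by1 : ℝ) / δ ≤ (Bp p).im / δ := div_le_div_of_nonneg_right hI.by1 δ0.le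
    have h2 : (I.by1 : ℝ) / dm ≤ (I.by1 : ℝ) / δ := div_le_div_of_nonneg_left hb'.le δ0 hdm
    linarith only [h1, h2]

/-! ### Cells and segments -/

theorem cell_sound {u1 u2 v1 v2 : ℤ} (h : cell u1 u2 v1 v2 = true) (him : 0 ≤ p.im)
    (hu1 : (u1 : ℝ) / 1024 ≤ p.re) (hu2 : p.re ≤ (u2 : ℝ) / 1024) (hv1 : (v1 : ℝ) / 1024 ≤ p.im)
    (hm : ‖p - qc (mkRat (512 * (u1 + u2)) 1048576) (mkRat (512 * (v1 + v2)) 1048576)‖ ≤
      ((sqU (mkRat ((u2 - u1) * (u2 - u1) + (v2 - v1) * (v2 - v1)) 4194304) : ℚ) : ℝ)) :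
    CondG p ∧ (‖wmap p‖ ≤ 1 → ∀ δ : ℝ, 0 < δ → δ ≤ 2 / 25 → (Bp p).re ≤ -(Real.pi * δ) →
      PtCond p δ ∧ ((Bp p).re = -(Real.pi * δ) → CondI p δ)) := by
  unfold cell rect at h
  obtain ⟨I, hk, hI⟩ := mkIv_spec h
  have hIp := hI p hm
  rw [Bool.and_eq_true, Bool.or_eq_true] at hk
  refine ⟨tG_sound hk.1 hIp him ?_ ?_, fun hw δ δ0 δ1 hB => ?_⟩
  · rw [Rat.mkRat_eq_div]
    push_cast
    exact hv1
  · rw [Rat.mkRat_eq_div]
    push_cast
    exact hu2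
  · rcases hk.2 with h1 | h1
    · exact absurd (tw_sound h1 hIp) (not_lt.2 hw)
    · refine tP_sound h1 hIp ?_ δ0 δ1 hB
      rw [Rat.mkRat_eq_div]
      push_cast
      exact hu1

theorem segL_sound {v1 v2 : ℤ} (h : segL v1 v2 = true)
    (hm : ‖p - qc (mkRat (1024 * (v1 + v2) / 5) 1048576) (mkRat (512 * (v1 + v2)) 1048576)‖ ≤
      ((mkRat (10771 * (v2 - v1)) 20480000 + mkRat 1 1048576 : ℚ) : ℝ)) :
    (‖wmap p‖ ≤ 1 → ∀ δ : ℝ, 0 < δ → δ ≤ 2 / 25 → (Bp p).re ≤ -(Real.pi * δ) → CondL p δ) ∧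
    (‖wmap p‖ = 1 → (Bp p).re ≤ -(Real.pi * (2 / 25)) ∧ 3 / 4 < psiP p) := by
  unfold segL at h
  obtain ⟨I, hk, hI⟩ := mkIv_spec h
  have hIp := hI p hm
  rw [Bool.or_eq_true, Bool.and_eq_true] at hk
  rcases hk with h1 | ⟨h1, h2⟩
  · exact ⟨fun hw => absurd (tw_sound h1 hIp) (not_lt.2 hw), fun hw => absurd (tw_sound h1 hIp) (not_lt.2 hw.le)⟩
  · exact ⟨fun _ δ δ0 δ1 hB => tL_sound h1 hIp δ0 δ1 hB, fun hw => tW_sound h2 hIp hw⟩

theorem segR_sound {v1 v2 : ℤ} (h : segR v1 v2 = true)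
    (hm : ‖p - qc (mkRat (2048 * (v1 + v2) / 5) 1048576) (mkRat (512 * (v1 + v2)) 1048576)‖ ≤
      ((mkRat (12807 * (v2 - v1)) 20480000 + mkRat 1 1048576 : ℚ) : ℝ)) :
    ‖wmap p‖ ≤ 1 → ∀ δ : ℝ, 0 < δ → δ ≤ 2 / 25 → (Bp p).re ≤ -(Real.pi * δ) → CondR p δ := by
  unfold segR at h
  obtain ⟨I, hk, hI⟩ := mkIv_spec h
  have hIp := hI p hm
  rw [Bool.or_eq_true] at hk
  rcases hk with h1 | h1
  · exact fun hw => absurd (tw_sound h1 hIp) (not_lt.2 hw)
  · exact fun _ δ δ0 δ1 hB => tR_sound h1 hIp δ0 δ1 hB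

theorem segU_sound {v1 v2 : ℤ} (h : segU v1 v2 = true)
    (hm : ‖p - qc (mkRat ((97307853 + 11264 * (v1 + v2)) / 100) 1048576) (mkRat (512 * (v1 + v2)) 1048576)‖ ≤
      ((mkRat (10240 * (v2 - v1)) 20480000 + mkRat 1 1048576 : ℚ) : ℝ)) :
    ‖wmap p‖ ≤ 1 → ∀ δ : ℝ, 0 < δ → δ ≤ 2 / 25 → (Bp p).re ≤ -(Real.pi * δ) → CondR p δ := by
  unfold segU at h
  obtain ⟨I, hk, hI⟩ := mkIv_spec h
  have hIp := hI p hm
  rw [Bool.or_eq_true] at hk
  rcases hk with h1 | h1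
  · exact fun hw => absurd (tw_sound h1 hIp) (not_lt.2 hw)
  · exact fun _ δ δ0 δ1 hB => tR_sound h1 hIp δ0 δ1 hB

theorem segT_sound {u1 u2 : ℤ} (h : segT u1 u2 = true)
    (hm : ‖p - qc (mkRat (512 * (u1 + u2)) 1048576) (mkRat (512 * (3891 + 3892)) 1048576)‖ ≤
      ((sqU (mkRat ((u2 - u1) * (u2 - u1) + (3892 - 3891) * (3892 - 3891)) 4194304) : ℚ) : ℝ)) : 1 < ‖wmap p‖ := by
  unfold segT rect at h
  obtain ⟨I, hk, hI⟩ := mkIv_spec h
  exact tw_sound hk (hI p hm)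

end SokamTI

end
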