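import Pool.Agent.Lib_MP_af4de1_zy.Z63

/-! ### Lib_MP_af4de1_v3.Asm0 -/

section
namespace SokamF1
end SokamF1
namespace SokamF1M
end SokamF1M
namespace SokamF1S
end SokamF1S
namespace SokamU
end SokamU
/-!
# Assembly: general facts
-/

set_option autoImplicit false

namespace SokamV3

open Complex SokamU SokamF1 SokamF1S SokamF1M

/-- sum over the far waves of one side -/
theorem farsum {J : Finset ℤ} {i : ℤ → ℕ} (hinj : Set.InjOn i (J : Set ℤ)) (hi : ∀ j ∈ J, 1 ≤ i j)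
    {a : ℤ → ℝ} {f g : ℝ} (hf : 0 ≤ f) (hg : 0 ≤ g) (h1 : ∀ j ∈ J, i j = 1 → a j ≤ f)
    (h2 : ∀ j ∈ J, 2 ≤ i j → a j ≤ (1 / 2) ^ (i j) * g) : ∑ j ∈ J, a j ≤ f + g / 2 := by
  set φ : ℕ → ℝ := fun k => if k = 1 then f else (1 / 2) ^ k * g with hφ
  have hφ0 : ∀ k, 0 ≤ φ k := by
    intro k
    simp only [hφ]
    split_ifs
    · exact hf
    · (clear * - hg; positivity)
  have s1 : ∑ j ∈ J, a j ≤ ∑ j ∈ J, φ (i j) := by
    refine Finset.sum_le_sum fun j hj => ?_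
    simp only [hφ]
    split_ifs with h
    · exact h1 j hj h
    · exact h2 j hj (by have := hi j hj; omega)
  have s2 : ∑ j ∈ J, φ (i j) = ∑ k ∈ J.image i, φ k := (Finset.sum_image hinj).symm
  obtain ⟨M, hM⟩ : ∃ M : ℕ, J.image i ⊆ Finset.Ico 1 (M + 2) := by
    refine ⟨(J.image i).sup id, fun k hk => ?_⟩
    have h3 : k ≤ (J.image i).sup id := Finset.le_sup (f := id) hk
    obtain ⟨j, hj, rfl⟩ := Finset.mem_image.1 hk
    have := hi j hj
    simp only [Finset.mem_Ico]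
    omega
  have s3 : ∑ k ∈ J.image i, φ k ≤ ∑ k ∈ Finset.Ico 1 (M + 2), φ k :=
    Finset.sum_le_sum_of_subset_of_nonneg hM fun k _ _ => hφ0 k
  have s4 : ∀ M : ℕ, ∑ k ∈ Finset.Ico 1 (M + 2), φ k ≤ f + g / 2 - (1 / 2) ^ (M + 1) * g := by
    intro M
    induction M with
    | zero =>
      have : Finset.Ico 1 (0 + 2) = {1} := rfl
      rw [this, Finset.sum_singleton]
      simp only [hφ, if_true]
      linarith only []
    | succ n ih =>
      rw [Finset.sum_Ico_succ_top (by omega)]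
      have e : φ (n + 2) = (1 / 2) ^ (n + 2) * g := by
        simp only [hφ]
        rw [if_neg (by omega)]
      rw [e]
      have e2 : ((1 : ℝ) / 2) ^ (n + 2) = (1 / 2) ^ (n + 1) * (1 / 2) := pow_succ _ _
      rw [e2]
      linarith only [ih]
  have h5 : 0 ≤ (1 / 2 : ℝ) ^ (M + 1) * g := by (clear * - hg; positivity)
  rw [s2] at s1
  linarith only [s1, s3, h5, s4 M]

theorem norm_kap {r δ y η : ℝ} (hδ : 0 < δ) (h : At r δ y η) : ‖kap r δ y‖ = r * Real.exp (-y) := by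
  unfold kap
  rw [norm_div, norm_sK h.dom, Complex.norm_real, Real.norm_of_nonneg hδ.le]
  field_simp

theorem kap_re {r δ y : ℝ} : (kap r δ y).re = sx (r * δ) y / δ := by
  unfold kap
  rw [Complex.div_ofReal_re]
  unfold sK
  simp

theorem kap_im {r δ y : ℝ} : (kap r δ y).im = y / δ := by
  unfold kap
  rw [Complex.div_ofReal_im]
  unfold sK
  simp

/-- `|κ| ≤ |κ + m|` -/
theorem norm_le_add {κ : ℂ} {m : ℝ} (hm : 0 ≤ m) (hk : 0 ≤ κ.re) : ‖κ‖ ≤ ‖κ + m‖ := by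
  rw [← Real.sqrt_sq (norm_nonneg κ), ← Real.sqrt_sq (norm_nonneg (κ + m)), Complex.sq_norm,
    Complex.sq_norm, Complex.normSq_apply, Complex.normSq_apply]
  refine Real.sqrt_le_sqrt ?_
  simp only [Complex.add_re, Complex.ofReal_re, Complex.add_im, Complex.ofReal_im, add_zero]
  nlinarith only [mul_nonneg hm hk]

/-- `|κ + m| ≥ q (|κ| + m)`, when `(2 q² - 1) |κ| ≤ Re κ`, `q ≤ 1`. -/
theorem norm_add_ge {κ : ℂ} {m q : ℝ} (hm : 0 ≤ m) (hq : 0 ≤ q) (hq1 : q ≤ 1)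
    (hk : (2 * q ^ (2 : ℕ) - 1) * ‖κ‖ ≤ κ.re) : q * (‖κ‖ + m) ≤ ‖κ + m‖ := by
  have hn := norm_nonneg κ
  refine abs_le_of_sq_le_sq' ?_ (norm_nonneg _) |>.2
  have e1 : ‖κ + m‖ ^ (2 : ℕ) = ‖κ‖ ^ (2 : ℕ) + 2 * m * κ.re + m ^ (2 : ℕ) := by
    rw [Complex.sq_norm, Complex.sq_norm, Complex.normSq_apply, Complex.normSq_apply]
    simp only [Complex.add_re, Complex.ofReal_re, Complex.add_im, Complex.ofReal_im, add_zero]
    ring
  rw [e1]
  have h1 : q ^ (2 : ℕ) ≤ 1 := pow_le_one₀ hq hq1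
  have h2 : 2 * m * ((2 * q ^ (2 : ℕ) - 1) * ‖κ‖) ≤ 2 * m * κ.re := by gcongr
  have h3 : 0 ≤ (1 - q ^ (2 : ℕ)) * (‖κ‖ - m) ^ (2 : ℕ) := mul_nonneg (by linarith only [h1]) (sq_nonneg _)
  linarith only [h2, h3]

/-- `‖V1 + m V0‖` of a far wave -/
theorem shf_m {r δ y ζ H f0 f1 f2 m : ℝ} (h : Shf r δ y ζ H f0 f1 f2) :
    ‖V1 r δ y ζ + m * V0 r δ y ζ‖ ≤ (f1 * H + ‖kap r δ y + m‖ * f0) * sM r δ y := by
  have e : V1 r δ y ζ + m * V0 r δ y ζ =
      (V1 r δ y ζ - kap r δ y * V0 r δ y ζ) + (kap r δ y + m) * V0 r δ y ζ := by ring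
  have e2 : (f1 * H + ‖kap r δ y + m‖ * f0) * sM r δ y =
      f1 * H * sM r δ y + ‖kap r δ y + m‖ * (f0 * sM r δ y) := by ring
  rw [e, e2]
  refine (norm_add_le _ _).trans (add_le_add h.s1 ?_)
  rw [norm_mul]
  exact mul_le_mul_of_nonneg_left h.s0 (norm_nonneg _)

/-- `‖V1 + m V0‖` of the own wave -/
theorem own_m {r δ y e k v m : ℝ} (h : Own r δ y e k v) (hk : k ≤ ‖kap r δ y + m‖) :
    (‖kap r δ y + m‖ - k) * ((1 - e) * sM r δ y) ≤ ‖V1 r δ y 0 + m * V0 r δ y 0‖ := by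
  have e1 : (kap r δ y + m) * V0 r δ y 0 =
      (V1 r δ y 0 + m * V0 r δ y 0) - (V1 r δ y 0 - kap r δ y * V0 r δ y 0) := by ring
  have h1 : ‖kap r δ y + m‖ * ‖V0 r δ y 0‖ ≤ ‖V1 r δ y 0 + m * V0 r δ y 0‖ + k * ‖V0 r δ y 0‖ := by
    rw [← norm_mul, e1]
    exact (norm_sub_le _ _).trans (by gcongr; exact h.o1)
  have h2 : (‖kap r δ y + m‖ - k) * ((1 - e) * sM r δ y) ≤ (‖kap r δ y + m‖ - k) * ‖V0 r δ y 0‖ :=
    mul_le_mul_of_nonneg_left h.o0 (by linarith only [hk])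
  linarith only [h1, h2]

/-- the angle of wave `j` -/
theorem two_pi_hst {N : ℕ} (hN : N ≠ 0) : (N : ℝ) * hst N = 2 * Real.pi := by
  unfold hst
  have : (N : ℝ) ≠ 0 := by exact_mod_cast hN
  field_simp

theorem wp_period' (r δ θ : ℝ) : wp r δ (θ - 2 * Real.pi) = wp r δ θ := by
  unfold wp
  have : ((θ - r * δ + δ / 2 : ℝ) : ℂ) * I =
      ((θ - 2 * Real.pi - r * δ + δ / 2 : ℝ) : ℂ) * I + 2 * Real.pi * I := by
    push_cast; ring
  rw [this, Complex.exp_add, Complex.exp_two_pi_mul_I, mul_one]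

theorem hst_pos {N : ℕ} (hN : N ≠ 0) : 0 < hst N := by
  unfold hst
  have : (0 : ℝ) < N := by exact_mod_cast Nat.pos_of_ne_zero hN
  have := Real.pi_pos
  positivity

end SokamV3

end

/-! ### Lib_MP_af4de1_v3.V3e -/

section
namespace SokamF1
end SokamF1
namespace SokamF1M
end SokamF1M
namespace SokamF1S
end SokamF1S
namespace SokamU
end SokamU
/-!
# Plan v3: the SHIFT structures used by the assembly (fields `e` relaxed)

`PShfLw`, `PShfRw` are `PShfL`, `PShfR` of `V3.lean` with the fields `e` relaxed to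
`((1/2)^i * 3/100, (1/2)^i * 3/50, 1)`; all other fields are verbatim.
-/

set_option autoImplicit false

namespace SokamV3

open Complex SokamU SokamF1 SokamF1S SokamF1M

/-- PIECE SHIFT (regime I), left side. -/
structure PShfLw : Prop where
  /-- first far wave, inner own angles, `Γ < 10` (true .109, .084, .08) -/
  a : ∀ (N : ℕ) (r δ y η : ℝ), Reg1 N r δ → At r δ y η → Sad1 N r δ y → Gm N r δ < 10 →
    0 ≤ η → η ≤ ei1 N r δ → η + hst N ≤ Real.pi →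
    Shf r δ y (hst N) (HH N r δ) (1 / 5) (1 / 5) 1
  /-- the same for `Γ ≥ 10` (true .0147, .012) -/
  a' : ∀ (N : ℕ) (r δ y η : ℝ), Reg1 N r δ → At r δ y η → Sad1 N r δ y → 10 ≤ Gm N r δ →
    0 ≤ η → η ≤ ei1 N r δ → η + hst N ≤ Real.pi →
    Shf r δ y (hst N) (HH N r δ) (3 / 50) (3 / 50) 1
  /-- first far wave in the window, `Γ < 10` (true .033, .025, .057) -/
  b : ∀ (N : ℕ) (r δ y η : ℝ), Reg1 N r δ → At r δ y η → Sad1 N r δ y → Gm N r δ < 10 →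
    ei1 N r δ ≤ η → η ≤ eo1 N r δ → η + hst N ≤ Real.pi →
    Shf r δ y (hst N) (HH N r δ) (2 / 25) (2 / 25) (13 / 100)
  /-- first far wave in the window, `Γ ≥ 10` (true 8e-4) -/
  c : ∀ (N : ℕ) (r δ y η : ℝ), Reg1 N r δ → At r δ y η → Sad1 N r δ y → 10 ≤ Gm N r δ →
    ei1 N r δ ≤ η → η ≤ eo1 N r δ → η + hst N ≤ Real.pi →
    Shf r δ y (hst N) (HH N r δ) (1 / 100) (1 / 100) (1 / 100)
  /-- the other far waves, all own angles (true for `i = 2`: 2.5e-4, 3.5e-4, 5e-4; `i = 3`: 1e-7) -/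
  d : ∀ (N i : ℕ) (r δ y η : ℝ), Reg1 N r δ → At r δ y η → Sad1 N r δ y →
    0 ≤ η → η ≤ eo1 N r δ → 2 ≤ i → η + i * hst N ≤ Real.pi →
    Shf r δ y (i * hst N) (HH N r δ) ((1 / 2) ^ i / 100) ((1 / 2) ^ i / 100) ((1 / 2) ^ i / 100)
  /-- far waves seen from the boundary saddle `η = eo1` (true 3e-3 for `i = 1`, 1e-6 for `i = 2`) -/
  e : ∀ (N i : ℕ) (r δ y ζ : ℝ), Reg1 N r δ → At r δ y (eo1 N r δ) → Sad1 N r δ y →
    1 ≤ i → i * hst N ≤ ζ → eo1 N r δ + ζ ≤ Real.pi →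
    Shf r δ y ζ (HH N r δ) ((1 / 2) ^ i * (3 / 100)) ((1 / 2) ^ i * (3 / 50)) 1
  /-- outer waves, boundary saddle (true 1.006) -/
  o : ∀ (N : ℕ) (r δ y ζ : ℝ), Reg1 N r δ → At r δ y (eo1 N r δ) → Sad1 N r δ y →
    0 ≤ ζ → ζ ≤ ei1 N r δ → Out r δ y ζ (23 / 20)

/-- PIECE SHIFT (regime I), right side. -/
structure PShfRw : Prop where
  /-- true .092, .080, .10 -/
  a : ∀ (N : ℕ) (r δ y η : ℝ), Reg1 N r δ → At r δ y η → Sad1 N r δ y → Gm N r δ < 10 →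
    η ≤ 0 → -ei1 N r δ ≤ η → -Real.pi ≤ η - hst N →
    Shf r δ y (-hst N) (HH N r δ) (1 / 5) (1 / 5) 1
  /-- the same for `Γ ≥ 10` (true .0104, .0091) -/
  a' : ∀ (N : ℕ) (r δ y η : ℝ), Reg1 N r δ → At r δ y η → Sad1 N r δ y → 10 ≤ Gm N r δ →
    η ≤ 0 → -ei1 N r δ ≤ η → -Real.pi ≤ η - hst N →
    Shf r δ y (-hst N) (HH N r δ) (3 / 50) (3 / 50) 1
  /-- true .024, .026, .034 -/
  b : ∀ (N : ℕ) (r δ y η : ℝ), Reg1 N r δ → At r δ y η → Sad1 N r δ y → Gm N r δ < 10 →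
    η ≤ -ei1 N r δ → -eo1 N r δ ≤ η → -Real.pi ≤ η - hst N →
    Shf r δ y (-hst N) (HH N r δ) (3 / 50) (7 / 100) (3 / 20)
  /-- true 5e-4 -/
  c : ∀ (N : ℕ) (r δ y η : ℝ), Reg1 N r δ → At r δ y η → Sad1 N r δ y → 10 ≤ Gm N r δ →
    η ≤ -ei1 N r δ → -eo1 N r δ ≤ η → -Real.pi ≤ η - hst N →
    Shf r δ y (-hst N) (HH N r δ) (1 / 100) (1 / 100) (1 / 100)
  d : ∀ (N i : ℕ) (r δ y η : ℝ), Reg1 N r δ → At r δ y η → Sad1 N r δ y →
    η ≤ 0 → -eo1 N r δ ≤ η → 2 ≤ i → -Real.pi ≤ η - i * hst N →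
    Shf r δ y (-(i * hst N)) (HH N r δ) ((1 / 2) ^ i / 100) ((1 / 2) ^ i / 100) ((1 / 2) ^ i / 100)
  e : ∀ (N i : ℕ) (r δ y ζ : ℝ), Reg1 N r δ → At r δ y (-eo1 N r δ) → Sad1 N r δ y →
    1 ≤ i → ζ ≤ -(i * hst N) → -Real.pi ≤ -eo1 N r δ + ζ →
    Shf r δ y ζ (HH N r δ) ((1 / 2) ^ i * (3 / 100)) ((1 / 2) ^ i * (3 / 50)) 1
  /-- true 1.052 -/
  o : ∀ (N : ℕ) (r δ y ζ : ℝ), Reg1 N r δ → At r δ y (-eo1 N r δ) → Sad1 N r δ y →
    ζ ≤ 0 → -ei1 N r δ ≤ ζ → Out r δ y ζ (5 / 4)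

end SokamV3

end

/-! ### Lib_MP_af4de1_v3.Asm1 -/

section
namespace SokamF1
end SokamF1
namespace SokamF1M
end SokamF1M
namespace SokamF1S
end SokamF1S
namespace SokamU
end SokamU
/-!
# Assembly: one side near a tie, and the localisation, as general lemmas
-/

set_option autoImplicit false

namespace SokamV3

open Complex SokamU SokamF1 SokamF1S SokamF1M

/-- One side: own wave and far waves, everything relative to the saddle of the side. -/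
theorem side_near {r δ y e k v H f0 f1 f2 g0 : ℝ} (own : Own r δ y e k v) (he : e < 1)
    (hM : 0 < sM r δ y) (hH : 0 ≤ H) (hf0 : 0 ≤ f0) (hf1 : 0 ≤ f1) (hf2 : 0 ≤ f2)
    {J : Finset ℤ} {i : ℤ → ℕ} {ζ : ℤ → ℝ} {c : ℤ → ℂ} {c0 : ℂ} (hg0 : 0 < g0)
    (hc : ∀ j ∈ J, ‖c j‖ = g0) (hc0 : ‖c0‖ = g0)
    (hinj : Set.InjOn i (J : Set ℤ)) (hi : ∀ j ∈ J, 1 ≤ i j)
    (h1 : ∀ j ∈ J, i j = 1 → Shf r δ y (ζ j) H f0 f1 f2)
    (h2 : ∀ j ∈ J, 2 ≤ i j →
      Shf r δ y (ζ j) H ((1 / 2) ^ (i j) / 100) ((1 / 2) ^ (i j) / 100) ((1 / 2) ^ (i j) / 100))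
    (hlt : (f0 + 1 / 200) / (1 - e) < 1) :
    c0 * V0 r δ y 0 + ∑ j ∈ J, c j * V0 r δ y (ζ j) ≠ 0 ∧
    ‖(c0 * V1 r δ y 0 + ∑ j ∈ J, c j * V1 r δ y (ζ j)) /
        (c0 * V0 r δ y 0 + ∑ j ∈ J, c j * V0 r δ y (ζ j)) - kap r δ y‖ ≤
      (k + (f1 + 1 / 200) / (1 - e) * H) / (1 - (f0 + 1 / 200) / (1 - e)) ∧
    ‖(c0 * V2 r δ y 0 + ∑ j ∈ J, c j * V2 r δ y (ζ j)) /
        (c0 * V0 r δ y 0 + ∑ j ∈ J, c j * V0 r δ y (ζ j)) -
      ((c0 * V1 r δ y 0 + ∑ j ∈ J, c j * V1 r δ y (ζ j)) /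
        (c0 * V0 r δ y 0 + ∑ j ∈ J, c j * V0 r δ y (ζ j))) ^ (2 : ℕ)‖ ≤
      (v + (f2 + 1 / 200) / (1 - e) * H ^ (2 : ℕ)) / (1 - (f0 + 1 / 200) / (1 - e)) +
        ((k + (f1 + 1 / 200) / (1 - e) * H) / (1 - (f0 + 1 / 200) / (1 - e))) ^ (2 : ℕ) := by
  set κ := kap r δ y with hκ
  set M := sM r δ y with hMdef
  have h1e : 0 < 1 - e := by linarith only [he]
  have hp : (1 - e) * M * g0 ≤ ‖c0 * V0 r δ y 0‖ := by
    rw [norm_mul, hc0]
    have := own.o0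
    nlinarith only [hg0, this]
  have hpos : 0 < ‖c0 * V0 r δ y 0‖ := lt_of_lt_of_le (by positivity) hp
  have hpne : c0 * V0 r δ y 0 ≠ 0 := norm_pos_iff.1 hpos
  have key : ∀ F : ℝ, 0 ≤ F → F * M * g0 ≤ F / (1 - e) * ‖c0 * V0 r δ y 0‖ := by
    intro F hF
    have : F / (1 - e) * ((1 - e) * M * g0) = F * M * g0 := by field_simp
    rw [← this]
    exact mul_le_mul_of_nonneg_left hp (by positivity)
  have wsum : ∀ (a : ℤ → ℂ), ‖∑ j ∈ J, c j * a j‖ ≤ g0 * ∑ j ∈ J, ‖a j‖ := by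
    intro a
    refine (norm_sum_le _ _).trans ?_
    rw [Finset.mul_sum]
    refine Finset.sum_le_sum fun j hj => ?_
    rw [norm_mul, hc j hj]
  have b0 : ‖∑ j ∈ J, c j * V0 r δ y (ζ j)‖ ≤ (f0 + 1 / 200) / (1 - e) * ‖c0 * V0 r δ y 0‖ := by
    refine (wsum _).trans ?_
    have hs : ∑ j ∈ J, ‖V0 r δ y (ζ j)‖ ≤ f0 * M + (M / 100) / 2 :=
      farsum hinj hi (by positivity) (by positivity) (fun j hj hj1 => (h1 j hj hj1).s0)
        (fun j hj hj2 => ((h2 j hj hj2).s0).trans (le_of_eq (by ring)))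
    have := key (f0 + 1 / 200) (by positivity)
    calc g0 * ∑ j ∈ J, ‖V0 r δ y (ζ j)‖ ≤ g0 * (f0 * M + (M / 100) / 2) := by gcongr
      _ = (f0 + 1 / 200) * M * g0 := by ring
      _ ≤ _ := this
  have b1 : ‖∑ j ∈ J, c j * V1 r δ y (ζ j) - κ * ∑ j ∈ J, c j * V0 r δ y (ζ j)‖ ≤
      (f1 + 1 / 200) / (1 - e) * H * ‖c0 * V0 r δ y 0‖ := by
    have e1 : ∑ j ∈ J, c j * V1 r δ y (ζ j) - κ * ∑ j ∈ J, c j * V0 r δ y (ζ j) =
        ∑ j ∈ J, c j * (V1 r δ y (ζ j) - κ * V0 r δ y (ζ j)) := by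
      rw [Finset.mul_sum, ← Finset.sum_sub_distrib]
      refine Finset.sum_congr rfl fun j _ => ?_
      ring
    rw [e1]
    refine (wsum _).trans ?_
    have hs : ∑ j ∈ J, ‖V1 r δ y (ζ j) - κ * V0 r δ y (ζ j)‖ ≤ f1 * H * M + (H * M / 100) / 2 :=
      farsum hinj hi (by positivity) (by positivity) (fun j hj hj1 => (h1 j hj hj1).s1)
        (fun j hj hj2 => ((h2 j hj hj2).s1).trans (le_of_eq (by ring)))
    have := key (f1 + 1 / 200) (by positivity)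
    calc g0 * ∑ j ∈ J, ‖V1 r δ y (ζ j) - κ * V0 r δ y (ζ j)‖ ≤
          g0 * (f1 * H * M + (H * M / 100) / 2) := by gcongr
      _ = H * ((f1 + 1 / 200) * M * g0) := by ring
      _ ≤ H * ((f1 + 1 / 200) / (1 - e) * ‖c0 * V0 r δ y 0‖) := by gcongr
      _ = _ := by ring
  have b2 : ‖∑ j ∈ J, c j * V2 r δ y (ζ j) - 2 * κ * ∑ j ∈ J, c j * V1 r δ y (ζ j) +
      κ ^ (2 : ℕ) * ∑ j ∈ J, c j * V0 r δ y (ζ j)‖ ≤
      (f2 + 1 / 200) / (1 - e) * H ^ (2 : ℕ) * ‖c0 * V0 r δ y 0‖ := by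
    have e1 : ∑ j ∈ J, c j * V2 r δ y (ζ j) - 2 * κ * ∑ j ∈ J, c j * V1 r δ y (ζ j) +
        κ ^ (2 : ℕ) * ∑ j ∈ J, c j * V0 r δ y (ζ j) =
        ∑ j ∈ J, c j * (V2 r δ y (ζ j) - 2 * κ * V1 r δ y (ζ j) + κ ^ (2 : ℕ) * V0 r δ y (ζ j)) := by
      rw [Finset.mul_sum, Finset.mul_sum, ← Finset.sum_sub_distrib, ← Finset.sum_add_distrib]
      refine Finset.sum_congr rfl fun j _ => ?_
      ring
    rw [e1]
    refine (wsum _).trans ?_
    have hs : ∑ j ∈ J, ‖V2 r δ y (ζ j) - 2 * κ * V1 r δ y (ζ j) + κ ^ (2 : ℕ) * V0 r δ y (ζ j)‖ ≤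
        f2 * H ^ (2 : ℕ) * M + (H ^ (2 : ℕ) * M / 100) / 2 :=
      farsum hinj hi (by positivity) (by positivity) (fun j hj hj1 => (h1 j hj hj1).s2)
        (fun j hj hj2 => ((h2 j hj hj2).s2).trans (le_of_eq (by ring)))
    have := key (f2 + 1 / 200) (by positivity)
    calc g0 * ∑ j ∈ J, ‖V2 r δ y (ζ j) - 2 * κ * V1 r δ y (ζ j) + κ ^ (2 : ℕ) * V0 r δ y (ζ j)‖ ≤
          g0 * (f2 * H ^ (2 : ℕ) * M + (H ^ (2 : ℕ) * M / 100) / 2) := by gcongr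
      _ = H ^ (2 : ℕ) * ((f2 + 1 / 200) * M * g0) := by ring
      _ ≤ H ^ (2 : ℕ) * ((f2 + 1 / 200) / (1 - e) * ‖c0 * V0 r δ y 0‖) := by gcongr
      _ = _ := by ring
  refine piece_base hpne hlt ?_ ?_ b0 b1 b2
  · have e1 : c0 * V1 r δ y 0 - κ * (c0 * V0 r δ y 0) = c0 * (V1 r δ y 0 - κ * V0 r δ y 0) := by ring
    rw [e1, norm_mul, norm_mul]
    calc ‖c0‖ * ‖V1 r δ y 0 - κ * V0 r δ y 0‖ ≤ ‖c0‖ * (k * ‖V0 r δ y 0‖) := by
          gcongr; exact own.o1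
      _ = _ := by ring
  · have e1 : c0 * V2 r δ y 0 - 2 * κ * (c0 * V1 r δ y 0) + κ ^ (2 : ℕ) * (c0 * V0 r δ y 0) =
        c0 * (V2 r δ y 0 - 2 * κ * V1 r δ y 0 + κ ^ (2 : ℕ) * V0 r δ y 0) := by ring
    rw [e1, norm_mul, norm_mul]
    calc ‖c0‖ * ‖V2 r δ y 0 - 2 * κ * V1 r δ y 0 + κ ^ (2 : ℕ) * V0 r δ y 0‖ ≤
          ‖c0‖ * (v * ‖V0 r δ y 0‖) := by
          gcongr; exact own.o2
      _ = _ := by ring

/-- the inner side in the localisation -/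
theorem side_inner {r δ y e k v H f0 f1 f2 m : ℝ} (own : Own r δ y e k v) (he : e ≤ 1)
    (hM : 0 < sM r δ y) (hH : 0 ≤ H) (hf0 : 0 ≤ f0) (hf1 : 0 ≤ f1)
    (hk : k ≤ ‖kap r δ y + m‖)
    {J : Finset ℤ} {i : ℤ → ℕ} {ζ : ℤ → ℝ}
    (hinj : Set.InjOn i (J : Set ℤ)) (hi : ∀ j ∈ J, 1 ≤ i j)
    (h1 : ∀ j ∈ J, i j = 1 → Shf r δ y (ζ j) H f0 f1 f2)
    (h2 : ∀ j ∈ J, 2 ≤ i j →
      Shf r δ y (ζ j) H ((1 / 2) ^ (i j) / 100) ((1 / 2) ^ (i j) / 100) ((1 / 2) ^ (i j) / 100)) :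
    ((‖kap r δ y + m‖ - k) * (1 - e) - (f1 * H + ‖kap r δ y + m‖ * f0) -
        (H + ‖kap r δ y + m‖) / 200) * sM r δ y ≤
      ‖V1 r δ y 0 + m * V0 r δ y 0‖ - ∑ j ∈ J, ‖V1 r δ y (ζ j) + m * V0 r δ y (ζ j)‖ := by
  have hs : ∑ j ∈ J, ‖V1 r δ y (ζ j) + m * V0 r δ y (ζ j)‖ ≤
      (f1 * H + ‖kap r δ y + m‖ * f0) * sM r δ y +
        ((H + ‖kap r δ y + m‖) * sM r δ y / 100) / 2 :=
    farsum hinj hi (by positivity) (by positivity) (fun j hj hj1 => shf_m (h1 j hj hj1))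
      (fun j hj hj2 => (shf_m (h2 j hj hj2)).trans (le_of_eq (by ring)))
  have ho := own_m own hk
  linarith only [hs, ho]

/-- the outer side in the localisation -/
theorem side_outer {r δ y H C m : ℝ} (hM : 0 < sM r δ y) (hH : 0 ≤ H) (hm : 0 ≤ m)
    {J : Finset ℤ} {i : ℤ → ℕ} {ζ : ℤ → ℝ} {ζ0 : ℝ}
    (hinj : Set.InjOn i (J : Set ℤ)) (hi : ∀ j ∈ J, 1 ≤ i j)
    (h0 : Out r δ y ζ0 C)
    (h1 : ∀ j ∈ J, Shf r δ y (ζ j) H ((1 / 2) ^ (i j) * (3 / 100)) ((1 / 2) ^ (i j) * (3 / 50)) 1) :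
    ‖V1 r δ y ζ0 + m * V0 r δ y ζ0‖ + ∑ j ∈ J, ‖V1 r δ y (ζ j) + m * V0 r δ y (ζ j)‖ ≤
      (C * (‖kap r δ y‖ + m) + (6 * H + 3 * (‖kap r δ y‖ + m)) / 100) * sM r δ y := by
  have hn : ‖kap r δ y + m‖ ≤ ‖kap r δ y‖ + m := by
    refine (norm_add_le _ _).trans ?_
    rw [Complex.norm_real, Real.norm_of_nonneg hm]
  have hg : 0 ≤ (6 * H + 3 * (‖kap r δ y‖ + m)) * sM r δ y := by positivity
  have hb : ∀ j ∈ J, ‖V1 r δ y (ζ j) + m * V0 r δ y (ζ j)‖ ≤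
      (1 / 2) ^ (i j) * ((6 * H + 3 * (‖kap r δ y‖ + m)) * sM r δ y / 100) := by
    intro j hj
    refine (shf_m (h1 j hj)).trans ?_
    have : ((1 / 2) ^ (i j) * (3 / 50) * H + ‖kap r δ y + m‖ * ((1 / 2) ^ (i j) * (3 / 100))) *
        sM r δ y = (1 / 2) ^ (i j) * ((6 * H + 3 * ‖kap r δ y + m‖) * sM r δ y / 100) := by ring
    rw [this]
    gcongr
  have hs : ∑ j ∈ J, ‖V1 r δ y (ζ j) + m * V0 r δ y (ζ j)‖ ≤
      (6 * H + 3 * (‖kap r δ y‖ + m)) * sM r δ y / 200 +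
        ((6 * H + 3 * (‖kap r δ y‖ + m)) * sM r δ y / 100) / 2 :=
    farsum hinj hi (by positivity) (by positivity)
      (fun j hj hj1 => by
        have h3 := hb j hj
        rw [hj1] at h3
        linarith only [h3])
      (fun j hj _ => hb j hj)
  have h3 := h0 m hm
  linarith only [hs, h3]

/-- The localisation: real part. `u = |κ_a + m|`, `S_a = |κ_a| + m`, `S_b = |κ_b| + m`. -/
theorem loc_real {u Sa Sb H k e f0 f1 C Ma Mb g kk hb hc q α β' : ℝ}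
    (hMa : 0 < Ma) (hMb : 0 < Mb) (hSb : 0 < Sb) (hu0 : 0 < u) (he : e ≤ 1) (hf1 : 0 ≤ f1)
    (hg : 0 < g) (hq0 : 0 < q)
    (hkk : k ≤ kk * H) (hkk0 : 0 ≤ kk) (hHu : H ≤ hb * u) (hHS : H ≤ hc * Sb)
    (hq : q * Sa ≤ u) (hgap : g * (Sb * Mb) ≤ Sa * Ma)
    (hα : α ≤ (1 - kk * hb) * (1 - e) - f1 * hb - f0 - (hb + 1) / 200) (hα0 : 0 < α)
    (hβ : C + (6 * hc + 3) / 100 ≤ β') (hnum : β' < q * α * g)
    (h : ((u - k) * (1 - e) - (f1 * H + u * f0) - (H + u) / 200) * Ma ≤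
      (C * Sb + (6 * H + 3 * Sb) / 100) * Mb) : False := by
  have h1e : 0 ≤ 1 - e := by linarith only [he]
  have hkH : k ≤ kk * (hb * u) := hkk.trans (mul_le_mul_of_nonneg_left hHu hkk0)
  have hL : α * u ≤ (u - k) * (1 - e) - (f1 * H + u * f0) - (H + u) / 200 := by
    have a1 : (u - kk * (hb * u)) * (1 - e) ≤ (u - k) * (1 - e) :=
      mul_le_mul_of_nonneg_right (by linarith only [hkH]) h1e
    have a2 : f1 * H ≤ f1 * (hb * u) := mul_le_mul_of_nonneg_left hHu hf1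
    have a3 : α * u ≤ ((1 - kk * hb) * (1 - e) - f1 * hb - f0 - (hb + 1) / 200) * u :=
      mul_le_mul_of_nonneg_right hα hu0.le
    linarith only [hHu, a1, a2, a3]
  have hR : C * Sb + (6 * H + 3 * Sb) / 100 ≤ β' * Sb := by
    have : (C + (6 * hc + 3) / 100) * Sb ≤ β' * Sb := mul_le_mul_of_nonneg_right hβ hSb.le
    linarith only [hHS, this]
  have h2 : α * u * Ma ≤ β' * Sb * Mb :=
    (mul_le_mul_of_nonneg_right hL hMa.le).trans (h.trans (mul_le_mul_of_nonneg_right hR hMb.le))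
  have h3 : α * (q * Sa) * Ma ≤ α * u * Ma := by gcongr
  have h4 : q * α * (g * (Sb * Mb)) ≤ q * α * (Sa * Ma) :=
    mul_le_mul_of_nonneg_left hgap (by positivity)
  have h5 : 0 < Sb * Mb := by positivity
  have h6 : q * α * g * (Sb * Mb) ≤ β' * (Sb * Mb) := by linarith only [h2, h3, h4]
  exact absurd (le_of_mul_le_mul_right h6 h5) (not_le.2 hnum)

end SokamV3

end

/-! ### Lib_MP_af4de1_v3.Asm2 -/

section
namespace SokamF1
end SokamF1
namespace SokamF1M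
end SokamF1M
namespace SokamF1S
end SokamF1S
namespace SokamU
end SokamU
/-!
# Assembly: indices, and the numbers of one side
-/

set_option autoImplicit false

namespace SokamV3

open Complex SokamU SokamF1 SokamF1S SokamF1M

/-- far classes of the left side -/
noncomputable def Jp (N : ℕ) (x : ℝ) : Finset ℤ :=
  (Finset.Ico (1 : ℤ) ((N : ℤ) - 1)).filter fun j => (x + j) * hst N ≤ Real.pi

/-- far classes of the right side -/
noncomputable def Jm (N : ℕ) (x : ℝ) : Finset ℤ :=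
  (Finset.Ico (1 : ℤ) ((N : ℤ) - 1)).filter fun j => ¬ (x + j) * hst N ≤ Real.pi

/-- index of a far class, left -/
def ip (j : ℤ) : ℕ := j.toNat
/-- index of a far class, right -/
def im (N : ℕ) (j : ℤ) : ℕ := ((N : ℤ) - 1 - j).toNat

theorem split_sum {M : Type*} [AddCommMonoid M] {N : ℕ} (hN : 2 ≤ N) (x : ℝ) (f : ℤ → M) :
    ∑ j ∈ Finset.Ico (-1 : ℤ) (-1 + N), f j =
      (f 0 + ∑ j ∈ Jp N x, f j) + (f (-1) + ∑ j ∈ Jm N x, f j) := by
  have e : Finset.Ico (-1 : ℤ) (-1 + N) =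
      insert (-1) (insert 0 (Finset.Ico (1 : ℤ) ((N : ℤ) - 1))) := by
    ext j
    simp only [Finset.mem_Ico, Finset.mem_insert]
    omega
  rw [e, Finset.sum_insert (by simp), Finset.sum_insert (by simp)]
  unfold Jp Jm
  rw [← Finset.sum_filter_add_sum_filter_not (Finset.Ico (1 : ℤ) ((N : ℤ) - 1))
    (fun j => (x + j) * hst N ≤ Real.pi)]
  abel

theorem ip_inj {N : ℕ} {x : ℝ} : Set.InjOn ip (Jp N x : Set ℤ) := by
  intro a ha b hb h
  simp only [Jp, Finset.coe_filter, Finset.mem_Ico, Set.mem_ofPred_eq] at ha hb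
  unfold ip at h
  omega

theorem im_inj {N : ℕ} {x : ℝ} : Set.InjOn (im N) (Jm N x : Set ℤ) := by
  intro a ha b hb h
  simp only [Jm, Finset.coe_filter, Finset.mem_Ico, Set.mem_ofPred_eq] at ha hb
  unfold im at h
  omega

theorem ip_one {N : ℕ} {x : ℝ} : ∀ j ∈ Jp N x, 1 ≤ ip j := by
  intro j hj
  simp only [Jp, Finset.mem_filter, Finset.mem_Ico] at hj
  unfold ip
  omega

theorem im_one {N : ℕ} {x : ℝ} : ∀ j ∈ Jm N x, 1 ≤ im N j := by
  intro j hj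
  simp only [Jm, Finset.mem_filter, Finset.mem_Ico] at hj
  unfold im
  omega

theorem ip_cast {N : ℕ} {x : ℝ} {j : ℤ} (hj : j ∈ Jp N x) : ((ip j : ℕ) : ℝ) = j := by
  simp only [Jp, Finset.mem_filter, Finset.mem_Ico] at hj
  have : ((ip j : ℕ) : ℤ) = j := by
    unfold ip
    exact Int.toNat_of_nonneg (by omega)
  exact_mod_cast this

theorem im_cast {N : ℕ} {x : ℝ} {j : ℤ} (hj : j ∈ Jm N x) : ((im N j : ℕ) : ℝ) = N - 1 - j := by
  simp only [Jm, Finset.mem_filter, Finset.mem_Ico] at hj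
  have : ((im N j : ℕ) : ℤ) = (N : ℤ) - 1 - j := by
    unfold im
    exact Int.toNat_of_nonneg (by omega)
  exact_mod_cast this

theorem jp_le {N : ℕ} {x : ℝ} {j : ℤ} (hj : j ∈ Jp N x) : (x + j) * hst N ≤ Real.pi := by
  simp only [Jp, Finset.mem_filter] at hj
  exact hj.2

theorem jm_lt {N : ℕ} {x : ℝ} {j : ℤ} (hj : j ∈ Jm N x) : Real.pi < (x + j) * hst N := by
  simp only [Jm, Finset.mem_filter] at hj
  exact not_le.1 hj.2

/-- the waves of the left side, seen from a saddle at `η` -/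
theorem wl (N : ℕ) {r δ x y η : ℝ} (h : At r δ y η) (j : ℤ) :
    wj N r δ x j = wp r δ (sE (r * δ) y + ((x + j) * hst N - η)) := by
  unfold wj
  rw [h.eta]
  congr 1
  ring

/-- the waves of the right side, seen from a saddle at `η` -/
theorem wr (N : ℕ) {r δ x y η : ℝ} (h : At r δ y η) (j : ℤ) :
    wj N r δ x j = wp r δ (sE (r * δ) y + ((x + j) * hst N - 2 * Real.pi - η)) := by
  unfold wj
  rw [h.eta, ← wp_period']
  congr 1
  ring

/-- Numbers of one side. -/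
theorem side_num {k v H n D G0 G1 G2 K A V E z C dd Hm hb : ℝ} (hH : Hm ≤ H) (hHm : 0 < Hm)
    (hn : 0 < n) (hD : dd ≤ D) (hdd : 0 < dd) (hk : k ≤ K * H) (hv : v ≤ A * (n / D) + V * H ^ (2 : ℕ))
    (hA : 0 ≤ A) (hHn : H ≤ hb * n) (hG0 : G0 < 1) (hE : (K + G1) / (1 - G0) ≤ E)
    (hk0 : 0 ≤ k + G1 * H) (hV : 0 ≤ V + G2) (hE0 : 0 ≤ E)
    (hz : E * hb ≤ z) (hz1 : z < 1)
    (hC : A / ((1 - G0) * dd * Hm) + ((V + G2) / (1 - G0) + E ^ (2 : ℕ)) * hb ≤ C * (1 - z)) :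
    (k + G1 * H) / (1 - G0) ≤ E * H ∧ E * H ≤ z * n ∧
      (v + G2 * H ^ (2 : ℕ)) / (1 - G0) + ((k + G1 * H) / (1 - G0)) ^ (2 : ℕ) ≤ C * H * ((1 - z) * n) := by
  have hH0 : 0 < H := lt_of_lt_of_le hHm hH
  have h1 : 0 < 1 - G0 := by linarith
  have a1 : (k + G1 * H) / (1 - G0) ≤ E * H := by
    have : (k + G1 * H) / (1 - G0) ≤ (K + G1) / (1 - G0) * H := by
      rw [div_mul_eq_mul_div]
      gcongr
      linarith
    exact this.trans (mul_le_mul_of_nonneg_right hE hH0.le)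
  have a2 : E * H ≤ z * n := by
    have : E * H ≤ E * (hb * n) := mul_le_mul_of_nonneg_left hHn hE0
    have h3 : E * hb * n ≤ z * n := mul_le_mul_of_nonneg_right hz hn.le
    linarith
  refine ⟨a1, a2, ?_⟩
  have a0 : 0 ≤ (k + G1 * H) / (1 - G0) := by positivity
  have b1 : ((k + G1 * H) / (1 - G0)) ^ (2 : ℕ) ≤ E ^ (2 : ℕ) * H ^ (2 : ℕ) := by
    rw [← mul_pow]
    exact pow_le_pow_left₀ a0 a1 2
  have b2 : (v + G2 * H ^ (2 : ℕ)) / (1 - G0) ≤ A / ((1 - G0) * dd * Hm) * H * n +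
      (V + G2) / (1 - G0) * H ^ (2 : ℕ) := by
    have c1 : A * (n / D) ≤ A * (n / dd) := by gcongr
    have c2 : A * (n / dd) ≤ A * (n / dd) * (H / Hm) := by
      have : 1 ≤ H / Hm := by rwa [one_le_div hHm]
      exact le_mul_of_one_le_right (by positivity) this
    have c3 : v + G2 * H ^ (2 : ℕ) ≤ A * (n / dd) * (H / Hm) + (V + G2) * H ^ (2 : ℕ) := by linarith
    have c4 : (v + G2 * H ^ (2 : ℕ)) / (1 - G0) ≤
        (A * (n / dd) * (H / Hm) + (V + G2) * H ^ (2 : ℕ)) / (1 - G0) := by gcongr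
    refine c4.trans (le_of_eq ?_)
    field_simp
  have hW : 0 ≤ (V + G2) / (1 - G0) + E ^ (2 : ℕ) := by positivity
  have b3 : ((V + G2) / (1 - G0) + E ^ (2 : ℕ)) * H ^ (2 : ℕ) ≤ ((V + G2) / (1 - G0) + E ^ (2 : ℕ)) * hb * H * n := by
    have : H ^ (2 : ℕ) ≤ H * (hb * n) := by rw [sq]; exact mul_le_mul_of_nonneg_left hHn hH0.le
    calc ((V + G2) / (1 - G0) + E ^ (2 : ℕ)) * H ^ (2 : ℕ) ≤
          ((V + G2) / (1 - G0) + E ^ (2 : ℕ)) * (H * (hb * n)) := mul_le_mul_of_nonneg_left this hW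
      _ = _ := by ring
  have b4 : (A / ((1 - G0) * dd * Hm) + ((V + G2) / (1 - G0) + E ^ (2 : ℕ)) * hb) * (H * n) ≤
      C * (1 - z) * (H * n) := mul_le_mul_of_nonneg_right hC (by positivity)
  calc _ ≤ A / ((1 - G0) * dd * Hm) * H * n + (V + G2) / (1 - G0) * H ^ (2 : ℕ) + E ^ (2 : ℕ) * H ^ (2 : ℕ) :=
        add_le_add b2 b1
    _ = A / ((1 - G0) * dd * Hm) * H * n + ((V + G2) / (1 - G0) + E ^ (2 : ℕ)) * H ^ (2 : ℕ) := by ring
    _ ≤ A / ((1 - G0) * dd * Hm) * H * n + ((V + G2) / (1 - G0) + E ^ (2 : ℕ)) * hb * H * n :=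
        add_le_add le_rfl b3
    _ = (A / ((1 - G0) * dd * Hm) + ((V + G2) / (1 - G0) + E ^ (2 : ℕ)) * hb) * (H * n) := by ring
    _ ≤ C * (1 - z) * (H * n) := b4
    _ = _ := by ring

/-- `H² = Γ r` -/
theorem HH_sq {N : ℕ} {r δ : ℝ} (hr : 0 ≤ r) : HH N r δ ^ (2 : ℕ) = Gm N r δ * r := by
  unfold HH Gm RR
  have h1 : 0 < 1 + (r * δ) ^ (2 : ℕ) := by positivity
  rw [div_pow, Real.sq_sqrt h1.le]
  field_simp

theorem HH_pos {N : ℕ} {r δ : ℝ} (hN : N ≠ 0) (hr : 0 < r) : 0 < HH N r δ := by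
  unfold HH RR
  have := hst_pos hN
  positivity

/-- Regime I, `Γ < 10`. -/
theorem HH_A {N : ℕ} {r δ : ℝ} (h : Par N r δ) (hG : Gm N r δ < 10) :
    1641 / 100 ≤ HH N r δ ∧ HH N r δ ≤ 448 / 1000 * r := by
  have hr := h.r0
  have hG' := h.G
  have hp := HH_pos (N := N) (δ := δ) (by have := h.N2; omega) (by linarith : 0 < r)
  have hsq := HH_sq (N := N) (r := r) (δ := δ) (by linarith)
  constructor
  · refine abs_le_of_sq_le_sq' ?_ hp.le |>.2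
    rw [hsq]
    nlinarith only [hr, hG']
  · refine abs_le_of_sq_le_sq' ?_ (by positivity) |>.2
    rw [hsq]
    nlinarith only [hG, hr]

/-- Regime I, `Γ ≥ 10`. -/
theorem HH_B {N : ℕ} {r δ : ℝ} (h : Reg1 N r δ) (hG : 10 ≤ Gm N r δ) :
    2233 / 100 ≤ HH N r δ ∧ HH N r δ ≤ 1049 / 1000 * r := by
  have hr := h.r0
  have hp := HH_pos (N := N) (δ := δ) (by have := h.N2; omega) (by linarith : 0 < r)
  have hsq := HH_sq (N := N) (r := r) (δ := δ) (by linarith)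
  constructor
  · refine abs_le_of_sq_le_sq' ?_ hp.le |>.2
    rw [hsq]
    nlinarith only [hG, hr]
  · refine abs_le_of_sq_le_sq' ?_ (by positivity) |>.2
    have hI := h.I
    have hR : 0 < RR r δ := by unfold RR; positivity
    have h2 : HH N r δ ^ (2 : ℕ) = r ^ (2 : ℕ) * (hst N ^ (2 : ℕ) / RR r δ) := by
      unfold HH
      rw [div_pow, Real.sq_sqrt hR.le]
      ring
    have h3 : hst N ^ (2 : ℕ) / RR r δ ≤ 11 / 10 := by rwa [div_le_iff₀ hR]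
    rw [h2]
    nlinarith only [h3]

end SokamV3

end

/-! ### Lib_MP_af4de1_v3.Asm3 -/

section
namespace SokamF1
end SokamF1
namespace SokamF1M
end SokamF1M
namespace SokamF1S
end SokamF1S
namespace SokamU
end SokamU
/-!
# Assembly of regime I
-/

set_option autoImplicit false

namespace SokamV3

open Complex SokamU SokamF1 SokamF1S SokamF1M

/-- the pieces of regime I -/
structure P1 : Prop where
  S : PSad1
  PP : PPair1
  G : PGap1
  O : POwn1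
  L : PShfLw
  R : PShfRw

theorem At.pos {r δ y η : ℝ} (h : At r δ y η) : 0 < r * δ := h.dom.1

/-- the sign of `y` is the sign of `η` -/
theorem At.y_nn {r δ y η : ℝ} (h : At r δ y η) (hη : 0 ≤ η) : 0 ≤ y := by
  by_contra hy
  push Not at hy
  have h1 := sE_strictMonoOn h.dom (dom_zero h.pos) h.y1.le
  have h2 := h1 (Set.left_mem_Icc.2 hy.le) (Set.right_mem_Icc.2 hy.le) hy
  rw [h.eta, sE_zero h.pos] at h2
  linarith

theorem At.y_np {r δ y η : ℝ} (h : At r δ y η) (hη : η ≤ 0) : y ≤ 0 := by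
  by_contra hy
  push Not at hy
  have h1 := sE_strictMonoOn (dom_zero h.pos) h.dom (by norm_num : (-1 : ℝ) ≤ 0)
  have h2 := h1 (Set.left_mem_Icc.2 hy.le) (Set.right_mem_Icc.2 hy.le) hy
  rw [h.eta, sE_zero h.pos] at h2
  linarith

/-- what is used of a saddle near a tie or in the localisation -/
theorem sad_T {N : ℕ} {r δ y : ℝ} (h : Sad1 N r δ y) :
    |y| ≤ 4 / 5 * sx (r * δ) y := by
  rcases h with ⟨_, h⟩ | ⟨_, h⟩
  · refine h.T.trans ?_
    have := sx_nonneg (r * δ) y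
    linarith
  · exact h.T

theorem kap_re_pos {N : ℕ} {r δ y : ℝ} (hδ : 0 < δ) (h : Sad1 N r δ y) : 0 ≤ (kap r δ y).re := by
  rw [kap_re]
  have := sx_nonneg (r * δ) y
  positivity

/-- `(2q²-1)|κ| ≤ Re κ` from `|y| ≤ T x` -/
theorem kap_cos {r δ y T a : ℝ} (hδ : 0 < δ) (hT : |y| ≤ T * sx (r * δ) y) (ha : 0 ≤ a)
    (haT : a ^ (2 : ℕ) * (1 + T ^ (2 : ℕ)) ≤ 1) : a * ‖kap r δ y‖ ≤ (kap r δ y).re := by
  have hx := sx_nonneg (r * δ) y
  have hre : 0 ≤ (kap r δ y).re := by rw [kap_re]; positivity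
  refine abs_le_of_sq_le_sq' ?_ hre |>.2
  have h1 : |(kap r δ y).im| ≤ T * (kap r δ y).re := by
    rw [kap_im, kap_re, abs_div, abs_of_pos hδ, ← mul_div_assoc]
    gcongr
  have h2 : (kap r δ y).im ^ (2 : ℕ) ≤ T ^ (2 : ℕ) * (kap r δ y).re ^ (2 : ℕ) := by
    rw [← sq_abs, ← mul_pow]
    exact pow_le_pow_left₀ (abs_nonneg _) h1 2
  rw [mul_pow, Complex.sq_norm, Complex.normSq_apply]
  have h3 : a ^ (2 : ℕ) * ((kap r δ y).re * (kap r δ y).re + (kap r δ y).im * (kap r δ y).im) ≤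
      a ^ (2 : ℕ) * (1 + T ^ (2 : ℕ)) * (kap r δ y).re ^ (2 : ℕ) := by
    have : 0 ≤ a ^ (2 : ℕ) := sq_nonneg a
    nlinarith
  have h4 : a ^ (2 : ℕ) * (1 + T ^ (2 : ℕ)) * (kap r δ y).re ^ (2 : ℕ) ≤ 1 * (kap r δ y).re ^ (2 : ℕ) := by gcongr
  linarith

theorem sM_pos' {r δ y η : ℝ} (h : At r δ y η) : 0 < sM r δ y := sM_pos h.y1

theorem sx_pos' {r δ y T : ℝ} (hpos : 0 < r * δ) (hT : |y| ≤ T * sx (r * δ) y) (hdom : Dom (r * δ) y) :
    0 < sx (r * δ) y := by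
  rcases (sx_nonneg (r * δ) y).lt_or_eq with h | h
  · exact h
  · exfalso
    rw [← h, mul_zero] at hT
    have hy : y = 0 := abs_eq_zero.1 (le_antisymm hT (abs_nonneg _))
    rw [hy] at h
    have h2 := sx_sq_add (dom_zero hpos)
    rw [← h] at h2
    rw [neg_zero, Real.exp_zero, mul_one] at h2
    have h3 := pow_pos hpos 2
    linarith

/-- The conclusion, from the two sides. -/
theorem fin_near {N : ℕ} {r δ y0 y1 η m T : ℝ} {R DR D2R L DL D2L : ℂ}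
    {e0 e1 l0 l1 E0 E1 z0 z1 C0 C1 dq t0 t1 χ tχ s : ℝ}
    (hδ : 0 < δ) (hH : 0 < HH N r δ) (hm : 0 < m)
    (h0 : At r δ y0 η) (h1 : At r δ y1 (η - hst N)) (hy0 : 0 ≤ y0) (hy1 : y1 ≤ 0)
    (hT0 : |y0| ≤ T * sx (r * δ) y0) (hT1 : |y1| ≤ T * sx (r * δ) y1) (hT : 0 ≤ T)
    (hΔ : 22 / 25 * HH N r δ ≤ ‖kap r δ y0 - kap r δ y1‖)
    (hR : R ≠ 0) (hL : L ≠ 0) (h : (DR + DL) + m * (R + L) = 0)
    (he0 : ‖DR / R - kap r δ y0‖ ≤ e0) (he1 : ‖DL / L - kap r δ y1‖ ≤ e1)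
    (hl0 : ‖D2R / R - (DR / R) ^ (2 : ℕ)‖ ≤ l0) (hl1 : ‖D2L / L - (DL / L) ^ (2 : ℕ)‖ ≤ l1)
    (a0 : e0 ≤ E0 * HH N r δ) (b0 : E0 * HH N r δ ≤ z0 * ‖kap r δ y0‖)
    (c0 : l0 ≤ C0 * HH N r δ * ((1 - z0) * ‖kap r δ y0‖))
    (a1 : e1 ≤ E1 * HH N r δ) (b1 : E1 * HH N r δ ≤ z1 * ‖kap r δ y1‖)
    (c1 : l1 ≤ C1 * HH N r δ * ((1 - z1) * ‖kap r δ y1‖))
    (hz0 : z0 < 1) (hz1 : z1 < 1) (hd : 0 < dq) (hdq : E0 + E1 + dq ≤ 22 / 25)
    (hχ : C0 + C1 ≤ χ * dq) (hχ1 : χ < 1)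
    (ht0 : 0 ≤ t0) (ht1 : 0 ≤ t1) (htχ : 0 ≤ tχ)
    (q0 : z0 ^ (2 : ℕ) ≤ t0 ^ (2 : ℕ) * (1 - z0 ^ (2 : ℕ))) (q1 : z1 ^ (2 : ℕ) ≤ t1 ^ (2 : ℕ) * (1 - z1 ^ (2 : ℕ)))
    (qχ : χ ^ (2 : ℕ) ≤ tχ ^ (2 : ℕ) * (1 - χ ^ (2 : ℕ)))
    (h01 : t0 * t1 < 1) (hs : (t0 + t1) / (1 - t0 * t1) ≤ s) (hsT : s * T < 1)
    (hfin : (s + T) / (1 - s * T) * tχ < 1) :
    0 < ((D2R + D2L) / (DR + DL) - (DR + DL) / (R + L)).re := by
  have hx0 := sx_pos' h0.pos hT0 h0.dom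
  have hx1 := sx_pos' h1.pos hT1 h1.dom
  have k0 : 0 < (kap r δ y0).re := by rw [kap_re]; positivity
  have k1 : 0 < (kap r δ y1).re := by rw [kap_re]; positivity
  have n0 : 0 < ‖kap r δ y0‖ := norm_pos_iff.2 (fun h' => by rw [h'] at k0; simp at k0)
  have n1 : 0 < ‖kap r δ y1‖ := norm_pos_iff.2 (fun h' => by rw [h'] at k1; simp at k1)
  have hA : Cone T ((kap r δ y0 + m) * (kap r δ y1 + m)) := by
    refine cone_opp hT ?_ ?_ ?_ ?_ ?_ ?_
    · simp only [Complex.add_re, Complex.ofReal_re]; linarith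
    · simp only [Complex.add_re, Complex.ofReal_re]; linarith
    · simp only [Complex.add_im, Complex.ofReal_im, add_zero, kap_im]; positivity
    · simp only [Complex.add_im, Complex.ofReal_im, add_zero, Complex.add_re, Complex.ofReal_re]
      have e1 : (kap r δ y0).im ≤ T * (kap r δ y0).re := by
        rw [kap_im, kap_re, ← mul_div_assoc]
        gcongr
        exact (le_abs_self _).trans hT0
      have e2 := mul_nonneg hT hm.le
      rw [mul_add]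
      linarith
    · simp only [Complex.add_im, Complex.ofReal_im, add_zero, kap_im]
      exact div_nonpos_of_nonpos_of_nonneg hy1 hδ.le
    · simp only [Complex.add_im, Complex.ofReal_im, add_zero, Complex.add_re, Complex.ofReal_re]
      have e1 : -(kap r δ y1).im ≤ T * (kap r δ y1).re := by
        rw [kap_im, kap_re, ← mul_div_assoc, ← neg_div]
        gcongr
        exact (neg_le_abs _).trans hT1
      have e2 := mul_nonneg hT hm.le
      rw [mul_add]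
      linarith
  refine U_core (e0 := E0 * HH N r δ) (e1 := E1 * HH N r δ)
    (l0 := C0 * HH N r δ * ((1 - z0) * ‖kap r δ y0‖)) (l1 := C1 * HH N r δ * ((1 - z1) * ‖kap r δ y1‖))
    (b0 := ‖kap r δ y0‖) (b1 := ‖kap r δ y1‖) (d := dq * HH N r δ) (Δ := 22 / 25 * HH N r δ)
    (c0 := C0 * HH N r δ) (c1 := C1 * HH N r δ) (z0 := z0) (z1 := z1)
    hm hR hL h (he0.trans a0) (he1.trans a1) (hl0.trans c0) (hl1.trans c1)
    (norm_le_add hm.le k0.le) (norm_le_add hm.le k1.le) n0 n1 hΔ (by positivity) ?_ b0 b1 hz0 hz1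
    le_rfl le_rfl ?_ hχ1 hT hA ht0 ht1 htχ q0 q1 qχ h01 hs hsT hfin
  · have := mul_le_mul_of_nonneg_right hdq hH.le
    linarith
  · have := mul_le_mul_of_nonneg_right hχ hH.le
    linarith

end SokamV3

end

/-! ### Lib_MP_af4de1_v3.Asm4 -/

section
namespace SokamF1
end SokamF1
namespace SokamF1M
end SokamF1M
namespace SokamF1S
end SokamF1S
namespace SokamU
end SokamU
/-!
# Assembly of regime I: `waveU_reg1`
-/

set_option autoImplicit false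

namespace SokamV3

open Complex SokamU SokamF1 SokamF1S SokamF1M

theorem exp_lb {p q : ℕ} (hq : q ≠ 0) {c : ℝ} (h : c ^ q ≤ (2.7182818283 : ℝ) ^ p) :
    c ≤ Real.exp ((p : ℝ) / q) := by
  have hq' : (q : ℝ) ≠ 0 := by exact_mod_cast hq
  refine le_of_pow_le_pow_left₀ hq (Real.exp_pos _).le ?_
  have e1 : Real.exp ((p : ℝ) / q) ^ q = Real.exp 1 ^ p := by
    rw [← Real.exp_nat_mul, ← Real.exp_nat_mul]
    congr 1
    field_simp
  rw [e1]
  refine h.trans (pow_le_pow_left₀ (by norm_num) ?_ p)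
  have := Real.exp_one_gt_d9
  linarith

theorem exp_ub {p q : ℕ} (hq : q ≠ 0) {c : ℝ} (hc : 0 < c)
    (h : (2.7182818286 : ℝ) ^ p * c ^ q ≤ 1) :
    c ≤ Real.exp (-((p : ℝ) / q)) := by
  have hq' : (q : ℝ) ≠ 0 := by exact_mod_cast hq
  refine le_of_pow_le_pow_left₀ hq (Real.exp_pos _).le ?_
  have e1 : Real.exp (-((p : ℝ) / q)) ^ q * Real.exp 1 ^ p = 1 := by
    rw [← Real.exp_nat_mul, ← Real.exp_nat_mul, ← Real.exp_add]
    rw [Real.exp_eq_one_iff]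
    field_simp
    ring
  have e2 : Real.exp 1 ^ p ≤ (2.7182818286 : ℝ) ^ p :=
    pow_le_pow_left₀ (Real.exp_pos _).le (by have := Real.exp_one_lt_d9; linarith) p
  have e3 : 0 < Real.exp 1 ^ p := by positivity
  have e4 : Real.exp 1 ^ p * c ^ q ≤ 1 :=
    (mul_le_mul_of_nonneg_right e2 (by positivity)).trans h
  have e5 : c ^ q * Real.exp 1 ^ p ≤ Real.exp (-((p : ℝ) / q)) ^ q * Real.exp 1 ^ p := by
    rw [e1]; linarith
  exact le_of_mul_le_mul_right e5 e3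

theorem exp_gap : (2.33 : ℝ) ≤ Real.exp (17 / 20) := by
  have := exp_lb (p := 17) (q := 20) (by norm_num) (c := 2.33) (by norm_num)
  norm_num at this ⊢
  exact this

theorem exp_15 : (0.86 : ℝ) ≤ Real.exp (-(3 / 20)) := by
  have := exp_ub (p := 3) (q := 20) (by norm_num) (c := 0.86) (by norm_num) (by norm_num)
  norm_num at this ⊢
  exact this

theorem exp_41 : (0.6636 : ℝ) ≤ Real.exp (-(41 / 100)) := by
  have := exp_ub (p := 41) (q := 100) (by norm_num) (c := 0.6636) (by norm_num) (by norm_num)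
  norm_num at this ⊢
  exact this

theorem exp_56 : (0.5712 : ℝ) ≤ Real.exp (-(14 / 25)) := by
  have := exp_ub (p := 14) (q := 25) (by norm_num) (c := 0.5712) (by norm_num) (by norm_num)
  norm_num at this ⊢
  exact this

theorem Sad1.A {N : ℕ} {r δ y : ℝ} (h : Sad1 N r δ y) (hG : Gm N r δ < 10) : SadA N r δ y := by
  rcases h with ⟨_, h⟩ | ⟨h, _⟩
  · exact h
  · linarith

theorem Sad1.B {N : ℕ} {r δ y : ℝ} (h : Sad1 N r δ y) (hG : 10 ≤ Gm N r δ) : SadB N r δ y := by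
  rcases h with ⟨h, _⟩ | ⟨_, h⟩
  · linarith
  · exact h

/-- the waves, seen from a saddle `ya` (left) and a saddle `yb` (right) -/
theorem wave_split {N : ℕ} (hN : 2 ≤ N) {r δ ya yb ηa ηb : ℝ} (ha : At r δ ya ηa)
    (hb : At r δ yb ηb) (x : ℝ) (c : ℤ → ℂ) (F : ℂ → ℂ) :
    ∑ j ∈ Finset.Ico (-1 : ℤ) (-1 + N), c j * F (wj N r δ x j) =
      (c 0 * F (wp r δ (sE (r * δ) ya + (x * hst N - ηa))) +
        ∑ j ∈ Jp N x, c j * F (wp r δ (sE (r * δ) ya + ((x + j) * hst N - ηa)))) +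
      (c (-1) * F (wp r δ (sE (r * δ) yb + ((x - 1) * hst N - ηb))) +
        ∑ j ∈ Jm N x, c j * F (wp r δ (sE (r * δ) yb + ((x + j) * hst N - 2 * Real.pi - ηb)))) := by
  rw [split_sum hN x]
  congr 1
  · congr 1
    · rw [wl N ha 0]
      norm_num
    · refine Finset.sum_congr rfl fun j _ => ?_
      rw [wl N ha j]
  · congr 1
    · rw [wl N hb (-1)]
      push_cast
      rw [← sub_eq_add_neg]
    · refine Finset.sum_congr rfl fun j _ => ?_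
      rw [wr N hb j]

/-- From the zero, `a` inner, `b` outer. -/
theorem loc_core {r δ ya yb H e k v f0 f1 f2 C m g0 ζ0 : ℝ} {Ja Jb : Finset ℤ} {ia ib : ℤ → ℕ}
    {ζa ζb : ℤ → ℝ} {c : ℤ → ℂ} {ca cb : ℂ}
    (own : Own r δ ya e k v) (he : e ≤ 1) (hMa : 0 < sM r δ ya) (hMb : 0 < sM r δ yb) (hH : 0 ≤ H)
    (hf0 : 0 ≤ f0) (hf1 : 0 ≤ f1) (hk : k ≤ ‖kap r δ ya + m‖) (hm : 0 ≤ m)
    (ja : Set.InjOn ia (Ja : Set ℤ)) (jb : Set.InjOn ib (Jb : Set ℤ))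
    (oa : ∀ j ∈ Ja, 1 ≤ ia j) (ob : ∀ j ∈ Jb, 1 ≤ ib j)
    (h1 : ∀ j ∈ Ja, ia j = 1 → Shf r δ ya (ζa j) H f0 f1 f2)
    (h2 : ∀ j ∈ Ja, 2 ≤ ia j →
      Shf r δ ya (ζa j) H ((1 / 2) ^ (ia j) / 100) ((1 / 2) ^ (ia j) / 100) ((1 / 2) ^ (ia j) / 100))
    (h3 : Out r δ yb ζ0 C)
    (h4 : ∀ j ∈ Jb, Shf r δ yb (ζb j) H ((1 / 2) ^ (ib j) * (3 / 100)) ((1 / 2) ^ (ib j) * (3 / 50)) 1)
    (hg0 : 0 < g0) (hc : ∀ j, ‖c j‖ = g0) (hca : ‖ca‖ = g0) (hcb : ‖cb‖ = g0)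
    (hz : ((ca * V1 r δ ya 0 + ∑ j ∈ Ja, c j * V1 r δ ya (ζa j)) +
        (cb * V1 r δ yb ζ0 + ∑ j ∈ Jb, c j * V1 r δ yb (ζb j))) +
      m * ((ca * V0 r δ ya 0 + ∑ j ∈ Ja, c j * V0 r δ ya (ζa j)) +
        (cb * V0 r δ yb ζ0 + ∑ j ∈ Jb, c j * V0 r δ yb (ζb j))) = 0) :
    ((‖kap r δ ya + m‖ - k) * (1 - e) - (f1 * H + ‖kap r δ ya + m‖ * f0) -
        (H + ‖kap r δ ya + m‖) / 200) * sM r δ ya ≤
      (C * (‖kap r δ yb‖ + m) + (6 * H + 3 * (‖kap r δ yb‖ + m)) / 100) * sM r δ yb := by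
  refine (side_inner own he hMa hH hf0 hf1 hk ja oa h1 h2).trans
    (le_trans ?_ (side_outer hMb hH hm jb ob h3 h4))
  have e1 : ca * (V1 r δ ya 0 + m * V0 r δ ya 0) =
      -(∑ j ∈ Ja, c j * (V1 r δ ya (ζa j) + m * V0 r δ ya (ζa j)) +
        (cb * (V1 r δ yb ζ0 + m * V0 r δ yb ζ0) +
          ∑ j ∈ Jb, c j * (V1 r δ yb (ζb j) + m * V0 r δ yb (ζb j)))) := by
    have a1 : ∀ (J : Finset ℤ) (y : ℝ) (ζ : ℤ → ℝ),
        ∑ j ∈ J, c j * (V1 r δ y (ζ j) + m * V0 r δ y (ζ j)) =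
        ∑ j ∈ J, c j * V1 r δ y (ζ j) + m * ∑ j ∈ J, c j * V0 r δ y (ζ j) := by
      intro J y ζ
      rw [Finset.mul_sum, ← Finset.sum_add_distrib]
      refine Finset.sum_congr rfl fun j _ => ?_
      ring
    rw [a1, a1]
    linear_combination hz
  have wsum : ∀ (J : Finset ℤ) (a : ℤ → ℂ), ‖∑ j ∈ J, c j * a j‖ ≤ g0 * ∑ j ∈ J, ‖a j‖ := by
    intro J a
    refine (norm_sum_le _ _).trans ?_
    rw [Finset.mul_sum]
    refine Finset.sum_le_sum fun j _ => ?_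
    rw [norm_mul, hc j]
  have e2 : g0 * ‖V1 r δ ya 0 + m * V0 r δ ya 0‖ ≤
      g0 * ∑ j ∈ Ja, ‖V1 r δ ya (ζa j) + m * V0 r δ ya (ζa j)‖ +
      (g0 * ‖V1 r δ yb ζ0 + m * V0 r δ yb ζ0‖ +
        g0 * ∑ j ∈ Jb, ‖V1 r δ yb (ζb j) + m * V0 r δ yb (ζb j)‖) := by
    calc g0 * ‖V1 r δ ya 0 + m * V0 r δ ya 0‖ = ‖ca * (V1 r δ ya 0 + m * V0 r δ ya 0)‖ := by
          rw [norm_mul, hca]
      _ = ‖∑ j ∈ Ja, c j * (V1 r δ ya (ζa j) + m * V0 r δ ya (ζa j)) +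
        (cb * (V1 r δ yb ζ0 + m * V0 r δ yb ζ0) +
          ∑ j ∈ Jb, c j * (V1 r δ yb (ζb j) + m * V0 r δ yb (ζb j)))‖ := by rw [e1, norm_neg]
      _ ≤ _ := by
          refine (norm_add_le _ _).trans (add_le_add (wsum _ _) ((norm_add_le _ _).trans
            (add_le_add ?_ (wsum _ _))))
          rw [norm_mul, hcb]
  have e3 : g0 * (‖V1 r δ ya 0 + m * V0 r δ ya 0‖ -
      ∑ j ∈ Ja, ‖V1 r δ ya (ζa j) + m * V0 r δ ya (ζa j)‖) ≤
      g0 * (‖V1 r δ yb ζ0 + m * V0 r δ yb ζ0‖ +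
        ∑ j ∈ Jb, ‖V1 r δ yb (ζb j) + m * V0 r δ yb (ζb j)‖) := by linarith
  exact le_of_mul_le_mul_left e3 hg0

/-- the gap, with `m` -/
theorem gap_m {r δ ya yb m g : ℝ} (h : Gap r δ ya yb (17 / 20)) (hg : g ≤ Real.exp (17 / 20))
    (hm : 0 ≤ m) (hMb : 0 < sM r δ yb) :
    g * ((‖kap r δ yb‖ + m) * sM r δ yb) ≤ (‖kap r δ ya‖ + m) * sM r δ ya := by
  have h0 := h.g0
  have h1 := h.g1
  have a : g * ((‖kap r δ yb‖ + m) * sM r δ yb) ≤
      Real.exp (17 / 20) * ((‖kap r δ yb‖ + m) * sM r δ yb) := by gcongr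
  have b : m * (Real.exp (17 / 20) * sM r δ yb) ≤ m * sM r δ ya := by gcongr
  linarith

/-- `H` against `|κ|` -/
theorem H_kap {N : ℕ} {r δ y η a b c B : ℝ} (hr : 0 < r) (hδ : 0 < δ) (hat : At r δ y η)
    (hy : y ≤ b) (ha : HH N r δ ≤ a * r) (hc : c ≤ Real.exp (-b)) (ha0 : 0 ≤ a)
    (hB : a ≤ B * c) (hB0 : 0 ≤ B) : HH N r δ ≤ B * ‖kap r δ y‖ := by
  rw [norm_kap hδ hat]
  have h1 : c ≤ Real.exp (-y) := hc.trans (Real.exp_le_exp.2 (by linarith))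
  calc HH N r δ ≤ a * r := ha
    _ ≤ B * c * r := by gcongr
    _ ≤ B * Real.exp (-y) * r := by gcongr
    _ = _ := by ring

end SokamV3

end

/-! ### Lib_MP_af4de1_v3.Asm5 -/

section
namespace SokamF1
end SokamF1
namespace SokamF1M
end SokamF1M
namespace SokamF1S
end SokamF1S
namespace SokamU
end SokamU
/-!
# Assembly of regime I: localisation
-/

set_option autoImplicit false

namespace SokamV3

open Complex SokamU SokamF1 SokamF1S SokamF1M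

theorem loc_fin {r δ ya yb ηa ηb H m k e f0 f1 C kk hb hc q T α β' : ℝ} (hr : 0 < r) (hδ : 0 < δ)
    (hm : 0 < m) (ha : At r δ ya ηa) (hb' : At r δ yb ηb) (hT : |ya| ≤ T * sx (r * δ) ya)
    (gap : Gap r δ ya yb (17 / 20)) (hH : 0 ≤ H) (hkk : k ≤ kk * H) (hkk0 : 0 ≤ kk)
    (hHu : H ≤ hb * ‖kap r δ ya‖) (hb0 : 0 ≤ hb) (hHS : H ≤ hc * ‖kap r δ yb‖) (hc0 : 0 ≤ hc)
    (hkb : kk * hb ≤ 1) (hq0 : 0 < q) (hq1 : q ≤ 1) (h2q : 0 ≤ 2 * q ^ (2 : ℕ) - 1)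
    (hqT : (2 * q ^ (2 : ℕ) - 1) ^ (2 : ℕ) * (1 + T ^ (2 : ℕ)) ≤ 1) (he : e ≤ 1) (hf1 : 0 ≤ f1)
    (hα : α ≤ (1 - kk * hb) * (1 - e) - f1 * hb - f0 - (hb + 1) / 200) (hα0 : 0 < α)
    (hβ : C + (6 * hc + 3) / 100 ≤ β') (hnum : β' < q * α * 2.33)
    (h : k ≤ ‖kap r δ ya + m‖ →
      ((‖kap r δ ya + m‖ - k) * (1 - e) - (f1 * H + ‖kap r δ ya + m‖ * f0) -
        (H + ‖kap r δ ya + m‖) / 200) * sM r δ ya ≤
      (C * (‖kap r δ yb‖ + m) + (6 * H + 3 * (‖kap r δ yb‖ + m)) / 100) * sM r δ yb) :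
      False := by
  have hx := sx_nonneg (r * δ) ya
  have hre : 0 ≤ (kap r δ ya).re := by rw [kap_re]; positivity
  have hna : 0 < ‖kap r δ ya‖ := by rw [norm_kap hδ ha]; positivity
  have hnb : 0 < ‖kap r δ yb‖ := by rw [norm_kap hδ hb']; positivity
  have hu := norm_le_add hm.le hre
  have hu0 : 0 < ‖kap r δ ya + m‖ := lt_of_lt_of_le hna hu
  have hcos := kap_cos hδ hT h2q hqT
  have hqS : q * (‖kap r δ ya‖ + m) ≤ ‖kap r δ ya + m‖ := norm_add_ge hm.le hq0.le hq1 hcos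
  have hHu' : H ≤ hb * ‖kap r δ ya + m‖ := hHu.trans (mul_le_mul_of_nonneg_left hu hb0)
  have hHS' : H ≤ hc * (‖kap r δ yb‖ + m) :=
    hHS.trans (mul_le_mul_of_nonneg_left (by linarith only [hm]) hc0)
  have hk : k ≤ ‖kap r δ ya + m‖ := by
    have h1 : kk * H ≤ kk * (hb * ‖kap r δ ya + m‖) := mul_le_mul_of_nonneg_left hHu' hkk0
    have h2 : kk * hb * ‖kap r δ ya + m‖ ≤ 1 * ‖kap r δ ya + m‖ :=
      mul_le_mul_of_nonneg_right hkb hu0.le
    linarith only [hkk, h1, h2]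
  exact loc_real (Sa := ‖kap r δ ya‖ + m) (sM_pos ha.y1) (sM_pos hb'.y1) (by linarith only [hm, hnb]) hu0 he hf1
    (by norm_num : (0 : ℝ) < 2.33) hq0 hkk hkk0 hHu' hHS' hqS
    (gap_m gap exp_gap hm.le (sM_pos hb'.y1)) hα hα0 hβ hnum (h hk)

theorem om1_pos {N : ℕ} {r δ : ℝ} : 0 < om1 N r δ := by
  unfold om1; split_ifs <;> norm_num

theorem om1_le {N : ℕ} {r δ : ℝ} : om1 N r δ ≤ 1 / 4 := by
  unfold om1; split_ifs <;> norm_num

theorem eo_ei (N : ℕ) (r δ : ℝ) : eo1 N r δ = hst N - ei1 N r δ := by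
  unfold eo1 ei1; ring

theorem hst_le {N : ℕ} (hN : 3 ≤ N) : hst N ≤ 2 * Real.pi / 3 := by
  have h1 := two_pi_hst (N := N) (by omega)
  have h2 := hst_pos (N := N) (by omega)
  have h3 : (3 : ℝ) ≤ N := by exact_mod_cast hN
  nlinarith only [h1, h2, h3]

variable {N : ℕ} {r δ x g0 m : ℝ} {c : ℤ → ℂ}

/-- `x h < ei1` : no zero -/
theorem loc_left (P : P1) (h : Reg1 N r δ) (hx0 : 0 ≤ x) (hx : x * hst N < ei1 N r δ)
    (hg0 : 0 < g0) (hc : ∀ j, ‖c j‖ = g0) (hm : 0 < m)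
    (hz : ∑ j ∈ Finset.Ico (-1 : ℤ) (-1 + N), c j * DE (tt δ) (wj N r δ x j) +
      m * ∑ j ∈ Finset.Ico (-1 : ℤ) (-1 + N), c j * E (tt δ) (wj N r δ x j) = 0) : False := by
  have hpi := Real.pi_pos
  have hr : 0 < r := by have := h.r0; linarith only [this]
  have hδ := h.d0
  have hh := hst_pos (N := N) (by have := h.N3; omega)
  have hh3 := hst_le h.N3
  have hNh := two_pi_hst (N := N) (by have := h.N3; omega)
  have ho := om1_pos (N := N) (r := r) (δ := δ)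
  have ho' := om1_le (N := N) (r := r) (δ := δ)
  have hoe := eo_ei N r δ
  have hei0 : 0 ≤ ei1 N r δ := by unfold ei1; nlinarith only [hh, ho']
  have hie : ei1 N r δ ≤ eo1 N r δ := by unfold ei1 eo1; nlinarith only [hh, ho]
  have hη0 : 0 ≤ x * hst N := by positivity
  have heo0 : 0 ≤ eo1 N r δ := hei0.trans hie
  obtain ⟨ya, ha⟩ := P.S.ex N r δ (x * hst N) h (by rw [abs_of_nonneg hη0]; linarith only [hx, hie])
  have sa := P.S.sad N r δ ya _ h ha (by rw [abs_of_nonneg hη0]; linarith only [hx, hie])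
  obtain ⟨yb, hb⟩ := P.S.ex N r δ (-eo1 N r δ) h (by rw [abs_neg, abs_of_nonneg heo0])
  have sb := P.S.sad N r δ yb _ h hb (by rw [abs_neg, abs_of_nonneg heo0])
  have hya0 := ha.y_nn hη0
  have hyb0 := hb.y_np (by linarith only [heo0])
  have gap := P.G.L N r δ ya yb _ h ha hb hη0 hx.le
  have own := P.O.L N r δ ya _ h ha sa hη0 (by linarith only [hx, hie])
  have hH := HH_pos (N := N) (r := r) (δ := δ) (by have := h.N3; omega) hr
  have zj : ∀ j ∈ Jp N x, (x + j) * hst N - x * hst N = (ip j : ℕ) * hst N := by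
    intro j hj
    rw [ip_cast hj]; ring
  have h2 : ∀ j ∈ Jp N x, 2 ≤ ip j → Shf r δ ya ((x + j) * hst N - x * hst N) (HH N r δ)
      ((1 / 2) ^ (ip j) / 100) ((1 / 2) ^ (ip j) / 100) ((1 / 2) ^ (ip j) / 100) := by
    intro j hj hj2
    rw [zj j hj]
    refine P.L.d N (ip j) r δ ya _ h ha sa hη0 (by linarith only [hx, hie]) hj2 ?_
    rw [ip_cast hj]
    have := jp_le hj
    linarith only [this]
  have h3 : Out r δ yb ((x - 1) * hst N - -eo1 N r δ) (5 / 4) := by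
    refine P.R.o N r δ yb _ h hb sb ?_ ?_
    · rw [hoe]; linarith only [hx]
    · have : 0 ≤ x * hst N := hη0
      rw [hoe]; linarith only [this]
  have h4 : ∀ j ∈ Jm N x, Shf r δ yb ((x + j) * hst N - 2 * Real.pi - -eo1 N r δ) (HH N r δ)
      ((1 / 2) ^ (im N j) * (3 / 100)) ((1 / 2) ^ (im N j) * (3 / 50)) 1 := by
    intro j hj
    refine P.R.e N (im N j) r δ yb _ h hb sb (im_one j hj) ?_ ?_
    · rw [im_cast hj, ← hNh, hoe]
      linarith only [hx]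
    · have := jm_lt hj
      linarith only [this]
  have hz' := hz
  rw [wave_split (by have := h.N3; omega) ha hb x c (DE (tt δ)),
    wave_split (by have := h.N3; omega) ha hb x c (E (tt δ)), sub_self] at hz'
  have core : ∀ {f0 f1 f2 : ℝ}, 0 ≤ f0 → 0 ≤ f1 →
      (x * hst N + hst N ≤ Real.pi → Shf r δ ya (hst N) (HH N r δ) f0 f1 f2) →
      7 / 8 * kD r δ ya + HH N r δ / 500 ≤ ‖kap r δ ya + m‖ →
      ((‖kap r δ ya + m‖ - (7 / 8 * kD r δ ya + HH N r δ / 500)) * (1 - 2 / 25) -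
        (f1 * HH N r δ + ‖kap r δ ya + m‖ * f0) -
        (HH N r δ + ‖kap r δ ya + m‖) / 200) * sM r δ ya ≤
      (5 / 4 * (‖kap r δ yb‖ + m) + (6 * HH N r δ + 3 * (‖kap r δ yb‖ + m)) / 100) * sM r δ yb := by
    intro f0 f1 f2 hf0 hf1 hS hk
    exact loc_core (f0 := f0) (f1 := f1) (f2 := f2) own (by norm_num) (sM_pos ha.y1)
      (sM_pos hb.y1) hH.le hf0 hf1 hk hm.le ip_inj im_inj ip_one im_one
      (ζa := fun j : ℤ => (x + j) * hst N - x * hst N)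
      (ζb := fun j : ℤ => (x + j) * hst N - 2 * Real.pi - -eo1 N r δ)
      (fun j hj hj1 => by
        have e1 : (x + j) * hst N - x * hst N = hst N := by
          rw [zj j hj, hj1]; norm_num
        simp only [e1]
        refine hS ?_
        have := jp_le hj
        linarith only [e1, this])
      h2 h3 h4 hg0 hc (hc 0) (hc (-1)) hz'
  have hsx := sx_nonneg (r * δ) ya
  rcases lt_or_ge (Gm N r δ) 10 with hG | hG
  · have A := sa.A hG
    have hHA := (HH_A h.toPar hG).2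
    have hin := P.S.inn N r δ ya _ h ha hG (by rw [abs_of_nonneg hη0]; linarith only [hx])
    rw [abs_of_nonneg hya0] at hin
    refine loc_fin (kk := 0.05042) (hb := 0.521) (hc := 0.448) (q := 0.98) (T := 19 / 50)
      (α := 0.584) (β' := 1.3069) hr hδ hm ha hb A.T gap hH.le ?_ (by norm_num)
      (H_kap hr hδ ha hin hHA exp_15 (by norm_num) (by norm_num) (by norm_num)) (by norm_num)
      (H_kap (b := 0) (c := 1) hr hδ hb hyb0 hHA (by simp) (by norm_num) (by norm_num)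
        (by norm_num)) (by norm_num) (by norm_num) (by norm_num) (by norm_num) (by norm_num)
      (by norm_num) (by norm_num) ?_ ?_ (by norm_num) (by norm_num) (by norm_num)
      (core (f0 := 1 / 5) (f1 := 1 / 5) (by norm_num) (by norm_num)
        (P.L.a N r δ ya _ h ha sa hG hη0 hx.le))
    · have := A.a
      linarith only [hH, this]
    · norm_num
    · norm_num
  · have B := sa.B hG
    have hHB := (HH_B h hG).2
    refine loc_fin (kk := 0.04167) (hb := 1.8365) (hc := 1.049) (q := 0.94) (T := 4 / 5)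
      (α := 0.665) (β' := 1.343) hr hδ hm ha hb B.T gap hH.le ?_ (by norm_num)
      (H_kap hr hδ ha B.hi hHB exp_56 (by norm_num) (by norm_num) (by norm_num)) (by norm_num)
      (H_kap (b := 0) (c := 1) hr hδ hb hyb0 hHB (by simp) (by norm_num) (by norm_num)
        (by norm_num)) (by norm_num) (by norm_num) (by norm_num) (by norm_num) (by norm_num)
      (by norm_num) (by norm_num) ?_ ?_ (by norm_num) (by norm_num) (by norm_num)
      (core (f0 := 3 / 50) (f1 := 3 / 50) (by norm_num) (by norm_num)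
        (P.L.a' N r δ ya _ h ha sa hG hη0 hx.le))
    · have := B.a
      linarith only [hH, this]
    · norm_num
    · norm_num

end SokamV3

end

/-! ### Lib_MP_af4de1_v3.Asm6 -/

section
namespace SokamF1
end SokamF1
namespace SokamF1M
end SokamF1M
namespace SokamF1S
end SokamF1S
namespace SokamU
end SokamU
/-!
# Assembly of regime I: localisation, right side
-/

set_option autoImplicit false

namespace SokamV3

open Complex SokamU SokamF1 SokamF1S SokamF1M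

variable {N : ℕ} {r δ x g0 m : ℝ} {c : ℤ → ℂ}

/-- `x h > eo1` : no zero -/
theorem loc_right (P : P1) (h : Reg1 N r δ) (hx1 : x < 1) (hx : eo1 N r δ < x * hst N)
    (hg0 : 0 < g0) (hc : ∀ j, ‖c j‖ = g0) (hm : 0 < m)
    (hz : ∑ j ∈ Finset.Ico (-1 : ℤ) (-1 + N), c j * DE (tt δ) (wj N r δ x j) +
      m * ∑ j ∈ Finset.Ico (-1 : ℤ) (-1 + N), c j * E (tt δ) (wj N r δ x j) = 0) : False := by
  have hpi := Real.pi_pos
  have hr : 0 < r := by have := h.r0; linarith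
  have hδ := h.d0
  have hh := hst_pos (N := N) (by have := h.N3; omega)
  have hh3 := hst_le h.N3
  have hNh := two_pi_hst (N := N) (by have := h.N3; omega)
  have ho := om1_pos (N := N) (r := r) (δ := δ)
  have ho' := om1_le (N := N) (r := r) (δ := δ)
  have hoe := eo_ei N r δ
  have hei0 : 0 ≤ ei1 N r δ := by unfold ei1; nlinarith
  have hie : ei1 N r δ ≤ eo1 N r δ := by unfold ei1 eo1; nlinarith
  have heo0 : 0 ≤ eo1 N r δ := hei0.trans hie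
  have hxh : x * hst N < hst N := by nlinarith
  have hη0 : x * hst N - hst N ≤ 0 := by linarith
  have hη1 : -ei1 N r δ ≤ x * hst N - hst N := by linarith
  have hηa : |x * hst N - hst N| ≤ ei1 N r δ := by rw [abs_of_nonpos hη0]; linarith
  obtain ⟨ya, ha⟩ := P.S.ex N r δ (x * hst N - hst N) h (hηa.trans hie)
  have sa := P.S.sad N r δ ya _ h ha (hηa.trans hie)
  obtain ⟨yb, hb⟩ := P.S.ex N r δ (eo1 N r δ) h (by rw [abs_of_nonneg heo0])
  have sb := P.S.sad N r δ yb _ h hb (by rw [abs_of_nonneg heo0])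
  have hya0 := ha.y_np hη0
  have hyb0 := hb.y_nn heo0
  have gap := P.G.R N r δ ya yb _ h ha hb hη0 hη1
  have own := P.O.R N r δ ya _ h ha sa hη0 (by linarith)
  have hH := HH_pos (N := N) (r := r) (δ := δ) (by have := h.N3; omega) hr
  have zj : ∀ j ∈ Jm N x, (x + j) * hst N - 2 * Real.pi - (x * hst N - hst N) =
      -((im N j : ℕ) * hst N) := by
    intro j hj
    rw [im_cast hj, ← hNh]; ring
  have h2 : ∀ j ∈ Jm N x, 2 ≤ im N j →
      Shf r δ ya ((x + j) * hst N - 2 * Real.pi - (x * hst N - hst N)) (HH N r δ)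
      ((1 / 2) ^ (im N j) / 100) ((1 / 2) ^ (im N j) / 100) ((1 / 2) ^ (im N j) / 100) := by
    intro j hj hj2
    rw [zj j hj]
    refine P.R.d N (im N j) r δ ya _ h ha sa hη0 (by linarith) hj2 ?_
    have h5 := zj j hj
    have := jm_lt hj
    linarith
  have h3 : Out r δ yb (x * hst N - eo1 N r δ) (23 / 20) := by
    refine P.L.o N r δ yb _ h hb sb ?_ ?_
    · linarith
    · linarith
  have h4 : ∀ j ∈ Jp N x, Shf r δ yb ((x + j) * hst N - eo1 N r δ) (HH N r δ)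
      ((1 / 2) ^ (ip j) * (3 / 100)) ((1 / 2) ^ (ip j) * (3 / 50)) 1 := by
    intro j hj
    refine P.L.e N (ip j) r δ yb _ h hb sb (ip_one j hj) ?_ ?_
    · rw [ip_cast hj]
      linarith
    · have := jp_le hj
      linarith
  have hz' := hz
  rw [wave_split (by have := h.N3; omega) hb ha x c (DE (tt δ)),
    wave_split (by have := h.N3; omega) hb ha x c (E (tt δ))] at hz'
  have e0 : (x - 1) * hst N - (x * hst N - hst N) = 0 := by ring
  rw [e0] at hz'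
  have core : ∀ {f0 f1 f2 : ℝ}, 0 ≤ f0 → 0 ≤ f1 →
      (-Real.pi ≤ x * hst N - hst N - hst N → Shf r δ ya (-hst N) (HH N r δ) f0 f1 f2) →
      13 / 10 * kD r δ ya + HH N r δ / 500 ≤ ‖kap r δ ya + m‖ →
      ((‖kap r δ ya + m‖ - (13 / 10 * kD r δ ya + HH N r δ / 500)) * (1 - 3 / 25) -
        (f1 * HH N r δ + ‖kap r δ ya + m‖ * f0) -
        (HH N r δ + ‖kap r δ ya + m‖) / 200) * sM r δ ya ≤
      (23 / 20 * (‖kap r δ yb‖ + m) + (6 * HH N r δ + 3 * (‖kap r δ yb‖ + m)) / 100) * sM r δ yb := by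
    intro f0 f1 f2 hf0 hf1 hS hk
    exact loc_core (f0 := f0) (f1 := f1) (f2 := f2) own (by norm_num) (sM_pos ha.y1)
      (sM_pos hb.y1) hH.le hf0 hf1 hk hm.le im_inj ip_inj im_one ip_one
      (ζb := fun j : ℤ => (x + j) * hst N - eo1 N r δ)
      (ζa := fun j : ℤ => (x + j) * hst N - 2 * Real.pi - (x * hst N - hst N))
      (fun j hj hj1 => by
        have e1 : (x + j) * hst N - 2 * Real.pi - (x * hst N - hst N) = -hst N := by
          rw [zj j hj, hj1]; norm_num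
        simp only [e1]
        refine hS ?_
        have := jm_lt hj
        linarith)
      h2 h3 h4 hg0 hc (hc (-1)) (hc 0) (by simp only [V1, V0]; linear_combination hz')
  have hsx := sx_nonneg (r * δ) ya
  rcases lt_or_ge (Gm N r δ) 10 with hG | hG
  · have A := sa.A hG
    have hHA := (HH_A h.toPar hG).2
    refine loc_fin (kk := 0.0675) (hb := 0.521) (hc := 0.6758) (q := 0.98) (T := 19 / 50)
      (α := 0.537) (β' := 1.22056) hr hδ hm ha hb A.T gap hH.le ?_ (by norm_num)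
      (H_kap (b := 0) (c := 1) hr hδ ha hya0 hHA (by simp) (by norm_num) (by norm_num)
        (by norm_num)) (by norm_num)
      (H_kap hr hδ hb (sb.A hG).hi hHA exp_41 (by norm_num) (by norm_num) (by norm_num))
      (by norm_num) (by norm_num) (by norm_num) (by norm_num) (by norm_num)
      (by norm_num) (by norm_num) ?_ ?_ (by norm_num) (by norm_num) (by norm_num)
      (core (f0 := 1 / 5) (f1 := 1 / 5) (by norm_num) (by norm_num)
        (P.R.a N r δ ya _ h ha sa hG hη0 hη1))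
    · have := A.a
      linarith
    · norm_num
    · norm_num
  · have B := sa.B hG
    have hHB := (HH_B h hG).2
    refine loc_fin (kk := 0.0545) (hb := 1.049) (hc := 1.8365) (q := 0.94) (T := 4 / 5)
      (α := 0.69) (β' := 1.2902) hr hδ hm ha hb B.T gap hH.le ?_ (by norm_num)
      (H_kap (b := 0) (c := 1) hr hδ ha hya0 hHB (by simp) (by norm_num) (by norm_num)
        (by norm_num)) (by norm_num)
      (H_kap hr hδ hb (sb.B hG).hi hHB exp_56 (by norm_num) (by norm_num) (by norm_num))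
      (by norm_num) (by norm_num) (by norm_num) (by norm_num) (by norm_num)
      (by norm_num) (by norm_num) ?_ ?_ (by norm_num) (by norm_num) (by norm_num)
      (core (f0 := 3 / 50) (f1 := 3 / 50) (by norm_num) (by norm_num)
        (P.R.a' N r δ ya _ h ha sa hG hη0 hη1))
    · have := B.a
      linarith
    · norm_num
    · norm_num

end SokamV3

end

/-! ### Lib_MP_af4de1_v3.Asm7 -/

section
namespace SokamF1
end SokamF1
namespace SokamF1M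
end SokamF1M
namespace SokamF1S
end SokamF1S
namespace SokamU
end SokamU
/-!
# Assembly of regime I: near a tie, and the end
-/

set_option autoImplicit false

namespace SokamV3

open Complex SokamU SokamF1 SokamF1S SokamF1M

variable {N : ℕ} {r δ x g0 m : ℝ} {c : ℤ → ℂ}

/-- the end of the near case: everything relative to `H` and `|κ|` -/
theorem near_core (P : P1) (h : Reg1 N r δ) (hx0 : 0 ≤ x) (hx1 : x < 1)
    (hlo : ei1 N r δ ≤ x * hst N) (hhi : x * hst N ≤ eo1 N r δ)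
    (hg0 : 0 < g0) (hc : ∀ j, ‖c j‖ = g0) (hm : 0 < m)
    {y0 y1 : ℝ} (h0 : At r δ y0 (x * hst N)) (h1 : At r δ y1 (x * hst N - hst N))
    (s0 : Sad1 N r δ y0) (s1 : Sad1 N r δ y1)
    {f0 f1 f2 u0 u1 u2 G0 G1 G2 U0 U1 U2 T dd Hm K0 K1 b0 b1 : ℝ}
    {E0 E1 z0 z1 C0 C1 dq t0 t1 χ tχ s : ℝ}
    (SL : x * hst N + hst N ≤ Real.pi → Shf r δ y0 (hst N) (HH N r δ) f0 f1 f2)
    (SR : -Real.pi ≤ x * hst N - hst N - hst N → Shf r δ y1 (-hst N) (HH N r δ) u0 u1 u2)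
    (hf0 : 0 ≤ f0) (hf1 : 0 ≤ f1) (hf2 : 0 ≤ f2) (hu0 : 0 ≤ u0) (hu1 : 0 ≤ u1) (hu2 : 0 ≤ u2)
    (eG0 : (f0 + 1 / 200) / (1 - 2 / 25) = G0) (eG1 : (f1 + 1 / 200) / (1 - 2 / 25) = G1)
    (eG2 : (f2 + 1 / 200) / (1 - 2 / 25) = G2)
    (eU0 : (u0 + 1 / 200) / (1 - 3 / 25) = U0) (eU1 : (u1 + 1 / 200) / (1 - 3 / 25) = U1)
    (eU2 : (u2 + 1 / 200) / (1 - 3 / 25) = U2)
    (hG0 : G0 < 1) (hU0 : U0 < 1)
    (hT0 : |y0| ≤ T * sx (r * δ) y0) (hT1 : |y1| ≤ T * sx (r * δ) y1) (hT : 0 ≤ T)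
    (hHm : 0 < Hm) (hH : Hm ≤ HH N r δ) (hdd : 0 < dd) (hD0 : dd ≤ sD (r * δ) y0)
    (hD1 : dd ≤ sD (r * δ) y1)
    (k0 : 7 / 8 * kD r δ y0 + HH N r δ / 500 ≤ K0 * HH N r δ)
    (k1 : 13 / 10 * kD r δ y1 + HH N r δ / 500 ≤ K1 * HH N r δ)
    (hb0 : HH N r δ ≤ b0 * ‖kap r δ y0‖) (hb1 : HH N r δ ≤ b1 * ‖kap r δ y1‖)
    (hE0 : (K0 + G1) / (1 - G0) ≤ E0) (hE1 : (K1 + U1) / (1 - U0) ≤ E1) (hE00 : 0 ≤ E0)
    (hE10 : 0 ≤ E1) (hz0 : E0 * b0 ≤ z0) (hz1 : E1 * b1 ≤ z1) (hz0' : z0 < 1) (hz1' : z1 < 1)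
    (hC0 : 5 / 4 / ((1 - G0) * dd * Hm) + ((1 / 200 + G2) / (1 - G0) + E0 ^ (2 : ℕ)) * b0 ≤ C0 * (1 - z0))
    (hC1 : 8 / 5 / ((1 - U0) * dd * Hm) + ((1 / 200 + U2) / (1 - U0) + E1 ^ (2 : ℕ)) * b1 ≤ C1 * (1 - z1))
    (hd : 0 < dq) (hdq : E0 + E1 + dq ≤ 22 / 25)
    (hχ : C0 + C1 ≤ χ * dq) (hχ1 : χ < 1)
    (ht0 : 0 ≤ t0) (ht1 : 0 ≤ t1) (htχ : 0 ≤ tχ)
    (q0 : z0 ^ (2 : ℕ) ≤ t0 ^ (2 : ℕ) * (1 - z0 ^ (2 : ℕ))) (q1 : z1 ^ (2 : ℕ) ≤ t1 ^ (2 : ℕ) * (1 - z1 ^ (2 : ℕ)))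
    (qχ : χ ^ (2 : ℕ) ≤ tχ ^ (2 : ℕ) * (1 - χ ^ (2 : ℕ)))
    (h01 : t0 * t1 < 1) (hs : (t0 + t1) / (1 - t0 * t1) ≤ s) (hsT : s * T < 1)
    (hfin : (s + T) / (1 - s * T) * tχ < 1)
    (hz : ∑ j ∈ Finset.Ico (-1 : ℤ) (-1 + N), c j * DE (tt δ) (wj N r δ x j) +
      m * ∑ j ∈ Finset.Ico (-1 : ℤ) (-1 + N), c j * E (tt δ) (wj N r δ x j) = 0) :
    0 < ((∑ j ∈ Finset.Ico (-1 : ℤ) (-1 + N), c j * SokamBPlus.D2E (tt δ) (wj N r δ x j)) /
          (∑ j ∈ Finset.Ico (-1 : ℤ) (-1 + N), c j * DE (tt δ) (wj N r δ x j)) -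
        (∑ j ∈ Finset.Ico (-1 : ℤ) (-1 + N), c j * DE (tt δ) (wj N r δ x j)) /
          (∑ j ∈ Finset.Ico (-1 : ℤ) (-1 + N), c j * E (tt δ) (wj N r δ x j))).re := by
  have hpi := Real.pi_pos
  have hr : 0 < r := by have := h.r0; linarith
  have hδ := h.d0
  have hN3 := h.N3
  have hh := hst_pos (N := N) (by omega)
  have hNh := two_pi_hst (N := N) (by omega)
  have hoe := eo_ei N r δ
  have hη0 : 0 ≤ x * hst N := by (clear * - hx0 hh; positivity)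
  have hxh : x * hst N < hst N := by
    have := mul_lt_mul_of_pos_right hx1 hh
    rwa [one_mul] at this
  have hη1 : x * hst N - hst N ≤ 0 := (sub_neg.2 hxh).le
  have hη3 : -eo1 N r δ ≤ x * hst N - hst N := by rw [hoe]; linarith only [hlo]
  have hHp : 0 < HH N r δ := lt_of_lt_of_le hHm hH
  have own0 := P.O.L N r δ y0 _ h h0 s0 hη0 hhi
  have own1 := P.O.R N r δ y1 _ h h1 s1 hη1 hη3
  have pair := P.PP N r δ y0 y1 _ h h0 h1 s0 s1 hlo hhi
  have zj : ∀ j ∈ Jp N x, (x + j) * hst N - x * hst N = (ip j : ℕ) * hst N := by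
    intro j hj
    rw [ip_cast hj]; ring
  have zj' : ∀ j ∈ Jm N x, (x + j) * hst N - 2 * Real.pi - (x * hst N - hst N) =
      -((im N j : ℕ) * hst N) := by
    intro j hj
    rw [im_cast hj, ← hNh]; ring
  have L1 : ∀ j ∈ Jp N x, ip j = 1 → Shf r δ y0 ((x + j) * hst N - x * hst N) (HH N r δ) f0 f1 f2 := by
    intro j hj hj1
    rw [zj j hj, hj1, Nat.cast_one, one_mul]
    refine SL ?_
    have e1 := zj j hj
    rw [hj1, Nat.cast_one, one_mul] at e1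
    have := jp_le hj
    linarith only [this, e1]
  have L2 : ∀ j ∈ Jp N x, 2 ≤ ip j → Shf r δ y0 ((x + j) * hst N - x * hst N) (HH N r δ)
      ((1 / 2) ^ (ip j) / 100) ((1 / 2) ^ (ip j) / 100) ((1 / 2) ^ (ip j) / 100) := by
    intro j hj hj2
    rw [zj j hj]
    refine P.L.d N (ip j) r δ y0 _ h h0 s0 hη0 hhi hj2 ?_
    rw [ip_cast hj]
    have := jp_le hj
    linarith only [this, hj]
  have R1 : ∀ j ∈ Jm N x, im N j = 1 →
      Shf r δ y1 ((x + j) * hst N - 2 * Real.pi - (x * hst N - hst N)) (HH N r δ) u0 u1 u2 := by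
    intro j hj hj1
    have e1 := zj' j hj
    rw [hj1, Nat.cast_one, one_mul] at e1
    rw [e1]
    refine SR ?_
    have := jm_lt hj
    linarith only [this, e1]
  have R2 : ∀ j ∈ Jm N x, 2 ≤ im N j →
      Shf r δ y1 ((x + j) * hst N - 2 * Real.pi - (x * hst N - hst N)) (HH N r δ)
      ((1 / 2) ^ (im N j) / 100) ((1 / 2) ^ (im N j) / 100) ((1 / 2) ^ (im N j) / 100) := by
    intro j hj hj2
    rw [zj' j hj]
    refine P.R.d N (im N j) r δ y1 _ h h1 s1 hη1 hη3 hj2 ?_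
    have h5 := zj' j hj
    have := jm_lt hj
    linarith only [this, h5]
  obtain ⟨a0, a1, a2⟩ := side_near (c := c) (c0 := c 0) own0 (by norm_num) (sM_pos h0.y1) hHp.le
    hf0 hf1 hf2 hg0 (fun j _ => hc j) (hc 0) ip_inj ip_one L1 L2 (by rw [eG0]; exact hG0)
  obtain ⟨d0, d1, d2⟩ := side_near (c := c) (c0 := c (-1)) own1 (by norm_num) (sM_pos h1.y1) hHp.le
    hu0 hu1 hu2 hg0 (fun j _ => hc j) (hc (-1)) im_inj im_one R1 R2 (by rw [eU0]; exact hU0)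
  rw [eG0, eG1] at a1
  rw [eG0, eG1, eG2] at a2
  rw [eU0, eU1] at d1
  rw [eU0, eU1, eU2] at d2
  have hn0 : 0 < ‖kap r δ y0‖ := by rw [norm_kap hδ h0]; (clear * - hr; positivity)
  have hn1 : 0 < ‖kap r δ y1‖ := by rw [norm_kap hδ h1]; (clear * - hr; positivity)
  have kD0 : 0 ≤ kD r δ y0 := div_nonneg (norm_nonneg _) (sD2_pos h0.y1).le
  have kD1 : 0 ≤ kD r δ y1 := div_nonneg (norm_nonneg _) (sD2_pos h1.y1).le
  have pG1 : 0 ≤ G1 := by rw [← eG1]; (clear * - hf1; positivity)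
  have pG2 : 0 ≤ G2 := by rw [← eG2]; (clear * - hf2; positivity)
  have pU1 : 0 ≤ U1 := by rw [← eU1]; (clear * - hu1; positivity)
  have pU2 : 0 ≤ U2 := by rw [← eU2]; (clear * - hu2; positivity)
  obtain ⟨n0, n1, n2⟩ := side_num (D := sD (r * δ) y0) (V := 1 / 200) (C := C0)
    (v := 5 / 4 * (‖kap r δ y0‖ / sD (r * δ) y0) + HH N r δ ^ (2 : ℕ) / 200)
    (k := 7 / 8 * kD r δ y0 + HH N r δ / 500) hH hHm hn0 hD0 hdd k0
    (le_of_eq (by ring)) (by norm_num) hb0 hG0 hE0 (by (clear * - kD0 hHp pG1; positivity)) (by (clear * - pG2; positivity)) hE00 hz0 hz0' hC0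
  obtain ⟨m0, m1, m2⟩ := side_num (D := sD (r * δ) y1) (V := 1 / 200) (C := C1)
    (v := 8 / 5 * (‖kap r δ y1‖ / sD (r * δ) y1) + HH N r δ ^ (2 : ℕ) / 200)
    (k := 13 / 10 * kD r δ y1 + HH N r δ / 500) hH hHm hn1 hD1 hdd k1
    (le_of_eq (by ring)) (by norm_num) hb1 hU0 hE1 (by (clear * - kD1 hHp pU1; positivity)) (by (clear * - pU2; positivity)) hE10 hz1 hz1' hC1
  have w := fun F => wave_split (N := N) (by omega) h0 h1 x c F
  have e0 : (x - 1) * hst N - (x * hst N - hst N) = 0 := by ring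
  rw [sub_self] at w
  rw [e0] at w
  rw [w, w] at hz
  rw [w, w, w]
  exact fin_near hδ hHp hm h0 h1 (h0.y_nn hη0) (h1.y_np hη1) hT0 hT1 hT pair a0 d0 hz
    a1 d1 a2 d2 n0 n1 n2 m0 m1 m2 hz0' hz1' hd hdq hχ hχ1 ht0 ht1 htχ q0 q1 qχ h01 hs hsT hfin

end SokamV3

end

/-! ### Lib_MP_af4de1_v3.Asm8 -/

section
namespace SokamF1
end SokamF1
namespace SokamF1M
end SokamF1M
namespace SokamF1S
end SokamF1S
namespace SokamU
end SokamU
/-!
# Assembly of regime I: the theorem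
-/

set_option autoImplicit false

namespace SokamV3

open Complex SokamU SokamF1 SokamF1S SokamF1M

theorem sD_ge {ρ y a b : ℝ} (h : a ≤ sD2 ρ y) (ha : b ^ (2 : ℕ) ≤ a) : b ≤ sD ρ y := by
  unfold sD
  exact Real.le_sqrt_of_sq_le (ha.trans h)

/-- **Regime I.** -/
theorem waveU_reg1 (P : P1) {N : ℕ} {r δ : ℝ} (h : Reg1 N r δ) : WaveU N δ r := by
  intro x g0 m c hx0 hx1 hg0 hc hm _ hz
  have hpi := Real.pi_pos
  have hr : 0 < r := by have := h.r0; linarith only [this]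
  have hδ := h.d0
  have hN3 := h.N3
  have hh := hst_pos (N := N) (by omega)
  have hoe := eo_ei N r δ
  have ho := om1_pos (N := N) (r := r) (δ := δ)
  have ho' := om1_le (N := N) (r := r) (δ := δ)
  have hei0 : 0 ≤ ei1 N r δ := by
    unfold ei1
    exact mul_nonneg (by linarith only [ho']) hh.le
  rcases lt_or_ge (x * hst N) (ei1 N r δ) with hlo | hlo
  · exact (loc_left P h hx0 hlo hg0 hc hm hz).elim
  rcases lt_or_ge (eo1 N r δ) (x * hst N) with hhi | hhi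
  · exact (loc_right P h hx1 hhi hg0 hc hm hz).elim
  have hη0 : 0 ≤ x * hst N := mul_nonneg hx0 hh.le
  have hxh : x * hst N < hst N := by
    have := mul_lt_mul_of_pos_right hx1 hh
    rwa [one_mul] at this
  have a0 : |x * hst N| ≤ eo1 N r δ := by rwa [abs_of_nonneg hη0]
  have a1 : |x * hst N - hst N| ≤ eo1 N r δ := by
    rw [abs_of_nonpos (by linarith only [hxh])]; linarith only [hoe, hlo]
  obtain ⟨y0, h0⟩ := P.S.ex N r δ (x * hst N) h a0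
  obtain ⟨y1, h1⟩ := P.S.ex N r δ (x * hst N - hst N) h a1
  have s0 := P.S.sad N r δ y0 _ h h0 a0
  have s1 := P.S.sad N r δ y1 _ h h1 a1
  have n0 := h0.y_nn hη0
  have n1 := h1.y_np (by linarith only [hxh])
  rcases lt_or_ge (Gm N r δ) 10 with hG | hG
  · have A0 := s0.A hG
    have A1 := s1.A hG
    obtain ⟨hH1, hH2⟩ := HH_A h.toPar hG
    refine near_core P h hx0 hx1 hlo hhi hg0 hc hm h0 h1 s0 s1
      (f0 := 2 / 25) (f1 := 2 / 25) (f2 := 13 / 100) (u0 := 3 / 50) (u1 := 7 / 100) (u2 := 3 / 20)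
      (T := 19 / 50) (dd := 0.9219) (Hm := 16.41) (K0 := 0.04575) (K1 := 0.067)
      (b0 := 0.6752) (b1 := 0.448) (E0 := 0.15221) (E1 := 0.16437) (z0 := 0.1028) (z1 := 0.0737)
      (C0 := 0.2448) (C1 := 0.231) (dq := 0.56342) (t0 := 0.10335) (t1 := 0.07391)
      (χ := 0.8446) (tχ := 1.578) (s := 0.1787)
      (P.L.b N r δ y0 _ h h0 s0 hG hlo hhi)
      (fun h5 => P.R.b N r δ y1 _ h h1 s1 hG (by linarith only [hoe, hhi]) (by linarith only [hoe, hlo]) h5)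
      (by norm_num) (by norm_num) (by norm_num) (by norm_num) (by norm_num) (by norm_num)
      rfl rfl rfl rfl rfl rfl (by norm_num) (by norm_num) A0.T A1.T (by norm_num)
      (by norm_num) (by linarith only [hH1]) (by norm_num) (sD_ge A0.D (by norm_num))
      (sD_ge A1.D (by norm_num)) ?_ ?_
      (H_kap hr hδ h0 A0.hi hH2 exp_41 (by norm_num) (by norm_num) (by norm_num))
      (H_kap (b := 0) (c := 1) hr hδ h1 n1 hH2 (by simp) (by norm_num) (by norm_num)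
        (by norm_num)) ?_ ?_ (by norm_num) (by norm_num) (by norm_num) (by norm_num)
      (by norm_num) (by norm_num) ?_ ?_ (by norm_num) (by norm_num) (by norm_num) (by norm_num)
      (by norm_num) (by norm_num) (by norm_num) (by norm_num) (by norm_num) (by norm_num)
      (by norm_num) (by norm_num) (by norm_num) (by norm_num) hz
    · have := A0.a
      linarith only [this]
    · have := A1.a
      linarith only [this]
    · norm_num
    · norm_num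
    · norm_num
    · norm_num
  · have B0 := s0.B hG
    have B1 := s1.B hG
    obtain ⟨hH1, hH2⟩ := HH_B h hG
    refine near_core P h hx0 hx1 hlo hhi hg0 hc hm h0 h1 s0 s1
      (f0 := 1 / 100) (f1 := 1 / 100) (f2 := 1 / 100) (u0 := 1 / 100) (u1 := 1 / 100)
      (u2 := 1 / 100)
      (T := 4 / 5) (dd := 0.8062) (Hm := 22.33) (K0 := 0.037) (K1 := 0.054)
      (b0 := 1.8365) (b1 := 1.049) (E0 := 0.0542) (E1 := 0.0723) (z0 := 0.09954) (z1 := 0.07585)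
      (C0 := 0.1287) (C1 := 0.1293) (dq := 0.7535) (t0 := 0.1002) (t1 := 0.0762)
      (χ := 0.343) (tχ := 0.366) (s := 0.178)
      (P.L.c N r δ y0 _ h h0 s0 hG hlo hhi)
      (fun h5 => P.R.c N r δ y1 _ h h1 s1 hG (by linarith only [hoe, hhi]) (by linarith only [hoe, hlo]) h5)
      (by norm_num) (by norm_num) (by norm_num) (by norm_num) (by norm_num) (by norm_num)
      rfl rfl rfl rfl rfl rfl (by norm_num) (by norm_num) B0.T B1.T (by norm_num)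
      (by norm_num) (by linarith only [hH1]) (by norm_num) (sD_ge B0.D (by norm_num))
      (sD_ge B1.D (by norm_num)) ?_ ?_
      (H_kap hr hδ h0 B0.hi hH2 exp_56 (by norm_num) (by norm_num) (by norm_num))
      (H_kap (b := 0) (c := 1) hr hδ h1 n1 hH2 (by simp) (by norm_num) (by norm_num)
        (by norm_num)) ?_ ?_ (by norm_num) (by norm_num) (by norm_num) (by norm_num)
      (by norm_num) (by norm_num) ?_ ?_ (by norm_num) (by norm_num) (by norm_num) (by norm_num)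
      (by norm_num) (by norm_num) (by norm_num) (by norm_num) (by norm_num) (by norm_num)
      (by norm_num) (by norm_num) (by norm_num) (by norm_num) hz
    · have := B0.a
      linarith only [this]
    · have := B1.a
      linarith only [this]
    · norm_num
    · norm_num
    · norm_num
    · norm_num

end SokamV3

end
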