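import Pool.Agent.Lib_MP_af4de1_zy.Z64

/-! ### Lib_MP_af4de1_v3.DzRL0 -/

section
namespace SokamCen
end SokamCen
namespace SokamV3
end SokamV3
/-!
# `PRealDL` (real inequality of the field `L.d`), stage 0: parameters and the terms (helper7)

`R = 1 + ρ²`, `y = 1/R`, `p = ρ/√R`, `x = t/√R`, `X = r x²`, `P = (1 + 16 y/25)/p`, `Kc = √(r P/(2π))`.
-/

set_option autoImplicit false

namespace SokamDz

open Real MeasureTheory Set SokamCen SokamV3

/-- the parameters -/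
structure Pr (ρ t p y x : ℝ) : Prop where
  ρ0 : 0 < ρ
  t0 : 0 < t
  p0 : 0 < p
  p1 : p < 1
  y0 : 0 < y
  hy : y = 1 - p ^ (2 : ℕ)
  hR : y * (1 + ρ ^ (2 : ℕ)) = 1
  hp : p * √(1 + ρ ^ (2 : ℕ)) = ρ
  x0 : 0 < x
  hx : x * √(1 + ρ ^ (2 : ℕ)) = t

theorem Pr.ex {ρ t : ℝ} (hρ : 0 < ρ) (ht : 0 < t) :
    Pr ρ t (ρ / √(1 + ρ ^ (2 : ℕ))) (1 / (1 + ρ ^ (2 : ℕ))) (t / √(1 + ρ ^ (2 : ℕ))) := by
  have hR : 0 < 1 + ρ ^ (2 : ℕ) := by positivity
  have hs : 0 < √(1 + ρ ^ (2 : ℕ)) := Real.sqrt_pos.2 hR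
  have hss : √(1 + ρ ^ (2 : ℕ)) ^ (2 : ℕ) = 1 + ρ ^ (2 : ℕ) := Real.sq_sqrt hR.le
  refine ⟨hρ, ht, by positivity, ?_, by positivity, ?_, by field_simp, by field_simp, by positivity,
    by field_simp⟩
  · rw [div_lt_one hs]
    nlinarith
  · rw [div_pow, hss]
    field_simp
    ring

variable {r ρ t p y x : ℝ}

theorem Pr.s0 (h : Pr ρ t p y x) : 0 < √(1 + ρ ^ (2 : ℕ)) := Real.sqrt_pos.2 (by positivity)

theorem Pr.ss (h : Pr ρ t p y x) : √(1 + ρ ^ (2 : ℕ)) ^ (2 : ℕ) = 1 + ρ ^ (2 : ℕ) := Real.sq_sqrt (by positivity)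

theorem Pr.y1 (h : Pr ρ t p y x) : y < 1 := by
  have := h.hy
  have := mul_pos h.p0 h.p0
  nlinarith

theorem Pr.ts (h : Pr ρ t p y x) : t ^ (2 : ℕ) * y = x ^ (2 : ℕ) := by
  rw [← h.hx, mul_pow, h.ss]
  linear_combination x ^ (2 : ℕ) * h.hR

theorem Pr.m2 (h : Pr ρ t p y x) : mm ρ ^ (2 : ℕ) * y = 25 / 16 := by
  unfold mm
  rw [mul_pow, h.ss]
  linear_combination 25 / 16 * h.hR

theorem Pr.m0 (h : Pr ρ t p y x) : 0 < mm ρ := by
  unfold mm
  have := h.s0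
  positivity

theorem Pr.m1 (h : Pr ρ t p y x) : 5 / 4 ≤ mm ρ := by
  unfold mm
  have : 1 ≤ √(1 + ρ ^ (2 : ℕ)) := by
    rw [Real.one_le_sqrt]
    nlinarith [sq_nonneg ρ]
  linarith

theorem Pr.mr (h : Pr ρ t p y x) : mm ρ / ρ = 5 / (4 * p) := by
  have hs := h.s0
  have hp := h.p0
  have hρ := h.ρ0
  have e : mm ρ / ρ = (5 / 4 * √(1 + ρ ^ (2 : ℕ))) / (p * √(1 + ρ ^ (2 : ℕ))) := by
    rw [h.hp]
    rfl
  rw [e]
  field_simp

/-- `t / m = 4x/5` -/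
theorem Pr.tm (h : Pr ρ t p y x) : t / mm ρ = 4 / 5 * x := by
  have hs := h.s0
  unfold mm
  nth_rewrite 1 [← h.hx]
  field_simp

theorem Pr.mt (h : Pr ρ t p y x) : mm ρ / t = 5 / (4 * x) := by
  have hs := h.s0
  have hx := h.x0
  have e : mm ρ / t = (5 / 4 * √(1 + ρ ^ (2 : ℕ))) / (x * √(1 + ρ ^ (2 : ℕ))) := by
    rw [h.hx]
    rfl
  rw [e]
  field_simp

/-- `P` -/
noncomputable def PP (p y : ℝ) : ℝ := (1 + 16 / 25 * y) / p

theorem Pr.PP0 (h : Pr ρ t p y x) : 0 < PP p y := by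
  have := h.p0
  have := h.y0
  unfold PP
  positivity

/-- the slope coefficient `a = 4/(5p) - 8/25` -/
noncomputable def aa (p : ℝ) : ℝ := 4 / (5 * p) - 8 / 25

theorem aa_pos (h0 : 0 < p) (h1 : p < 1) : 12 / 25 < aa p := by
  unfold aa
  have : 4 / 5 < 4 / (5 * p) := by
    rw [div_lt_div_iff₀ (by norm_num) (by positivity)]
    nlinarith
  linarith

theorem Pr.lA (h : Pr ρ t p y x) : lA ρ t = aa p * y * min 1 (mm ρ / t) := by
  have hm := h.m0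
  have hp := h.p0
  unfold SokamDz.lA AL aL
  congr 1
  rw [h.mr]
  unfold aa
  have h2 := h.m2
  have h3 : mm ρ ^ (2 : ℕ) ≠ 0 := by positivity
  rw [div_eq_iff h3]
  linear_combination (-(5 / (4 * p) - 1 / 2) * (16 / 25)) * h2

theorem Pr.rA (h : Pr ρ t p y x) (φ : ℝ) : rA ρ φ = (aa p - 8 / 25 *
    (cT (mm ρ) φ / 3 + 5 * cT (mm ρ) φ ^ (2 : ℕ) / 48)) * y * min 1 (mm ρ / φ) := by
  have hm := h.m0
  have hp := h.p0
  unfold SokamDz.rA AR aR
  congr 1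
  rw [h.mr]
  unfold aa
  have h2 := h.m2
  have h3 : mm ρ ^ (2 : ℕ) ≠ 0 := by positivity
  rw [div_eq_iff h3]
  linear_combination (-(5 / (4 * p) - (1 + cT (mm ρ) φ / 3 + 5 * cT (mm ρ) φ ^ (2 : ℕ) / 48) / 2) *
    (16 / 25)) * h2

theorem Pr.Kc (h : Pr ρ t p y x) (hr : 0 < r) : Kc r ρ = √(r * PP p y / (2 * π)) := by
  have hm := h.m0
  have hp := h.p0
  have hs := h.s0
  have hρ := h.ρ0
  have hpi := Real.pi_pos
  unfold SokamDz.Kc
  rw [← Real.sqrt_mul (by positivity), ← Real.sqrt_mul (by positivity)]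
  congr 1
  have h2 := h.m2
  have e1 : 1 / mm ρ ^ (2 : ℕ) = 16 / 25 * y := by
    rw [div_eq_iff (by positivity)]
    linear_combination (-(16 / 25)) * h2
  have e2 : √(1 + ρ ^ (2 : ℕ)) = ρ / p := by
    rw [eq_div_iff hp.ne']
    linear_combination h.hp
  rw [e1, e2]
  unfold PP
  field_simp

/-- `Kc √(π/(8/9 r A))` -/
theorem Pr.K8 (h : Pr ρ t p y x) (hr : 0 < r) {A : ℝ} (hA : 0 < A) :
    SokamDz.Kc r ρ * √(π / (8 / 9 * r * A)) = 3 / 4 * √(PP p y / A) := by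
  have hP := h.PP0
  have hpi := Real.pi_pos
  rw [h.Kc hr, ← Real.sqrt_mul (by positivity)]
  have e : r * PP p y / (2 * π) * (π / (8 / 9 * r * A)) = (3 / 4) ^ (2 : ℕ) * (PP p y / A) := by
    field_simp
    norm_num
  rw [e, Real.sqrt_mul (by positivity), Real.sqrt_sq (by norm_num)]

theorem sqrt_half_le {z : ℝ} (hz : 0 ≤ z) : √(z / 2) ≤ 7072 / 10000 * √z := by
  rw [Real.sqrt_le_left (by positivity), mul_pow, Real.sq_sqrt hz]
  nlinarith

/-- `Kc √(π/(r A))` -/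
theorem Pr.K1 (h : Pr ρ t p y x) (hr : 0 < r) {A : ℝ} (hA : 0 < A) :
    SokamDz.Kc r ρ * √(π / (r * A)) ≤ 7072 / 10000 * √(PP p y / A) := by
  have hP := h.PP0
  have hpi := Real.pi_pos
  rw [h.Kc hr, ← Real.sqrt_mul (by positivity)]
  have e : r * PP p y / (2 * π) * (π / (r * A)) = PP p y / A / 2 := by
    field_simp
  rw [e]
  exact sqrt_half_le (by positivity)

/-- `Kc c/√(8/9 r)` -/
theorem Pr.K8t (h : Pr ρ t p y x) (hr : 0 < r) {c : ℝ} (hc : 0 ≤ c) :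
    SokamDz.Kc r ρ * (c / √(8 / 9 * r)) ≤ c * (4232 / 10000) * √(PP p y) := by
  have hP := h.PP0
  have hpi := Real.pi_pos
  have h1 : √(r * PP p y / (2 * π)) = √(8 / 9 * r) * √(PP p y * (9 / (16 * π))) := by
    rw [← Real.sqrt_mul (by positivity)]
    congr 1
    field_simp
    norm_num
  have h0 : 0 < √(8 / 9 * r) := Real.sqrt_pos.2 (by positivity)
  have h2 : √(PP p y * (9 / (16 * π))) ≤ 4232 / 10000 * √(PP p y) := by
    rw [Real.sqrt_le_left (by positivity), mul_pow, Real.sq_sqrt hP.le]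
    have h3 : 9 / (16 * π) ≤ (4232 / 10000) ^ (2 : ℕ) := by
      rw [div_le_iff₀ (by positivity)]
      nlinarith [Real.pi_gt_d4]
    nlinarith
  rw [h.Kc hr, h1]
  calc √(8 / 9 * r) * √(PP p y * (9 / (16 * π))) * (c / √(8 / 9 * r)) =
      c * √(PP p y * (9 / (16 * π))) := by field_simp
    _ ≤ c * (4232 / 10000 * √(PP p y)) := mul_le_mul_of_nonneg_left h2 hc
    _ = _ := by ring

/-- `Kc c/√r` -/
theorem Pr.K1t (h : Pr ρ t p y x) (hr : 0 < r) {c : ℝ} (hc : 0 ≤ c) :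
    SokamDz.Kc r ρ * (c / √r) ≤ c * (399 / 1000) * √(PP p y) := by
  have hP := h.PP0
  have hpi := Real.pi_pos
  have h1 : √(r * PP p y / (2 * π)) = √r * √(PP p y * (1 / (2 * π))) := by
    rw [← Real.sqrt_mul (by positivity)]
    congr 1
    field_simp
  have h0 : 0 < √r := Real.sqrt_pos.2 (by positivity)
  have h2 : √(PP p y * (1 / (2 * π))) ≤ 399 / 1000 * √(PP p y) := by
    rw [Real.sqrt_le_left (by positivity), mul_pow, Real.sq_sqrt hP.le]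
    have h3 : 1 / (2 * π) ≤ (399 / 1000) ^ (2 : ℕ) := by
      rw [div_le_iff₀ (by positivity)]
      nlinarith [Real.pi_gt_d4]
    nlinarith
  rw [h.Kc hr, h1]
  calc √r * √(PP p y * (1 / (2 * π))) * (c / √r) =
      c * √(PP p y * (1 / (2 * π))) := by field_simp
    _ ≤ c * (399 / 1000 * √(PP p y)) := mul_le_mul_of_nonneg_left h2 hc
    _ = _ := by ring

/-- a Gaussian term, `q = 8r/9` and `q = r` together -/
theorem Pr.gauss (h : Pr ρ t p y x) (hr : 0 < r) {A e E a b d : ℝ} (hA : 0 < A) (ha : 0 ≤ a)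
    (hb : 0 ≤ b) (hE : E ≤ r * e) (hd : exp (-(E / 9)) ≤ d) :
    SokamDz.Kc r ρ * (a * (√(π / (8 / 9 * r * A)) * exp (-(8 / 9 * r * e))) +
      b * (√(π / (r * A)) * exp (-(r * e)))) ≤
      (3 / 4 * a + 7072 / 10000 * b * d) * √(PP p y / A) * exp (-(8 / 9 * E)) := by
  have hP := h.PP0
  have hS : 0 ≤ √(PP p y / A) := Real.sqrt_nonneg _
  have e1 : exp (-(8 / 9 * r * e)) ≤ exp (-(8 / 9 * E)) := Real.exp_le_exp.2 (by linarith)
  have e2 : exp (-(r * e)) ≤ d * exp (-(8 / 9 * E)) := by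
    calc exp (-(r * e)) ≤ exp (-(E / 9)) * exp (-(8 / 9 * E)) := by
          rw [← Real.exp_add]
          exact Real.exp_le_exp.2 (by linarith)
      _ ≤ _ := mul_le_mul_of_nonneg_right hd (Real.exp_pos _).le
  have k8 := h.K8 hr hA
  have k1 := h.K1 hr hA
  have hK : 0 ≤ SokamDz.Kc r ρ := by rw [h.Kc hr]; positivity
  calc SokamDz.Kc r ρ * (a * (√(π / (8 / 9 * r * A)) * exp (-(8 / 9 * r * e))) +
      b * (√(π / (r * A)) * exp (-(r * e)))) =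
      a * ((SokamDz.Kc r ρ * √(π / (8 / 9 * r * A))) * exp (-(8 / 9 * r * e))) +
      b * ((SokamDz.Kc r ρ * √(π / (r * A))) * exp (-(r * e))) := by ring
    _ ≤ a * ((3 / 4 * √(PP p y / A)) * exp (-(8 / 9 * E))) +
      b * ((7072 / 10000 * √(PP p y / A)) * (d * exp (-(8 / 9 * E)))) := by
        rw [k8]
        refine add_le_add (mul_le_mul_of_nonneg_left (mul_le_mul_of_nonneg_left e1 (by positivity)) ha)
          (mul_le_mul_of_nonneg_left ?_ hb)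
        exact mul_le_mul k1 e2 (Real.exp_pos _).le (by positivity)
    _ = _ := by ring

/-- a tail term, `q = 8r/9` and `q = r` together -/
theorem Pr.tail (h : Pr ρ t p y x) (hr : 0 < r) {c e E a b d : ℝ} (hc : 0 ≤ c) (ha : 0 ≤ a)
    (hb : 0 ≤ b) (hE : E ≤ r * e) (hd : exp (-(E / 9)) ≤ d) :
    SokamDz.Kc r ρ * (a * (c / √(8 / 9 * r) * exp (-(8 / 9 * r * e))) +
      b * (c / √r * exp (-(r * e)))) ≤
      c * (4232 / 10000 * a + 399 / 1000 * b * d) * √(PP p y) * exp (-(8 / 9 * E)) := by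
  have hP := h.PP0
  have hS : 0 ≤ √(PP p y) := Real.sqrt_nonneg _
  have e1 : exp (-(8 / 9 * r * e)) ≤ exp (-(8 / 9 * E)) := Real.exp_le_exp.2 (by linarith)
  have e2 : exp (-(r * e)) ≤ d * exp (-(8 / 9 * E)) := by
    calc exp (-(r * e)) ≤ exp (-(E / 9)) * exp (-(8 / 9 * E)) := by
          rw [← Real.exp_add]
          exact Real.exp_le_exp.2 (by linarith)
      _ ≤ _ := mul_le_mul_of_nonneg_right hd (Real.exp_pos _).le
  have k8 := h.K8t hr hc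
  have k1 := h.K1t hr hc
  calc SokamDz.Kc r ρ * (a * (c / √(8 / 9 * r) * exp (-(8 / 9 * r * e))) +
      b * (c / √r * exp (-(r * e)))) =
      a * ((SokamDz.Kc r ρ * (c / √(8 / 9 * r))) * exp (-(8 / 9 * r * e))) +
      b * ((SokamDz.Kc r ρ * (c / √r)) * exp (-(r * e))) := by ring
    _ ≤ a * ((c * (4232 / 10000) * √(PP p y)) * exp (-(8 / 9 * E))) +
      b * ((c * (399 / 1000) * √(PP p y)) * (d * exp (-(8 / 9 * E)))) := by
        refine add_le_add (mul_le_mul_of_nonneg_left ?_ ha) (mul_le_mul_of_nonneg_left ?_ hb)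
        · exact mul_le_mul k8 e1 (Real.exp_pos _).le (by positivity)
        · exact mul_le_mul k1 e2 (Real.exp_pos _).le (by positivity)
    _ = _ := by ring

end SokamDz

end

/-! ### Lib_MP_af4de1_v3.DzRL5 -/

section
namespace SokamCen
end SokamCen
namespace SokamV3
end SokamV3
/-!
# `PRealDL`, `X ≤ 80`, stage 5: the other groups, general lemmas (helper7)
-/

set_option autoImplicit false

namespace SokamDz

open Real MeasureTheory Set SokamCen SokamV3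

variable {r ρ t p y x X : ℝ}

theorem closeW {G K S E E0 ex c : ℝ} (hG : G ≤ K * S * exp (-(8 / 9 * E))) (hK : 0 ≤ K)
    (hS : 0 ≤ S) (hE : E0 ≤ 8 / 9 * E - 17 / 100 * X) (hex : exp (-E0) ≤ ex)
    (hc : K * S * ex ≤ c * (54 / 125)) : G ≤ c * (54 / 125 * exp (-(17 / 100 * X))) := by
  have h5 : exp (-(8 / 9 * E)) ≤ ex * exp (-(17 / 100 * X)) := by
    calc exp (-(8 / 9 * E)) ≤ exp (-E0) * exp (-(17 / 100 * X)) := by
          rw [← Real.exp_add]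
          exact Real.exp_le_exp.2 (by linarith only [hE])
      _ ≤ _ := mul_le_mul_of_nonneg_right hex (exp_pos _).le
  calc G ≤ K * S * exp (-(8 / 9 * E)) := hG
    _ ≤ K * S * (ex * exp (-(17 / 100 * X))) := mul_le_mul_of_nonneg_left h5 (by positivity)
    _ = K * S * ex * exp (-(17 / 100 * X)) := by ring
    _ ≤ c * (54 / 125) * exp (-(17 / 100 * X)) := mul_le_mul_of_nonneg_right hc (exp_pos _).le
    _ = _ := by ring

/-- with `S ≤ s exp (u/2)` -/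
theorem closeU {G K S s u E E0 ex c : ℝ} (hG : G ≤ K * S * exp (-(8 / 9 * E))) (hK : 0 ≤ K)
    (hs : 0 ≤ s) (hS : S ≤ s * exp (u / 2)) (hE : E0 ≤ 8 / 9 * E - 17 / 100 * X - u / 2)
    (hex : exp (-E0) ≤ ex)
    (hc : K * s * ex ≤ c * (54 / 125)) : G ≤ c * (54 / 125 * exp (-(17 / 100 * X))) := by
  refine closeW (E := E - 9 / 16 * u) (E0 := E0) (S := s) (K := K) (ex := ex) ?_ hK hs
    (by linarith only [hE]) hex hc
  refine hG.trans ?_
  calc K * S * exp (-(8 / 9 * E)) ≤ K * (s * exp (u / 2)) * exp (-(8 / 9 * E)) :=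
        mul_le_mul_of_nonneg_right (mul_le_mul_of_nonneg_left hS hK) (exp_pos _).le
    _ = K * s * (exp (u / 2) * exp (-(8 / 9 * E))) := by ring
    _ = K * s * exp (-(8 / 9 * (E - 9 / 16 * u))) := by
        rw [← Real.exp_add]
        congr 2
        ring

/-- `u = 1/p - 1` -/
theorem Pr.u0 (h : Pr ρ t p y x) : 0 < 1 / p - 1 := by
  have hp := h.p0
  have : 1 < 1 / p := by
    rw [lt_div_iff₀ hp, one_mul]
    exact h.p1
  linarith only [this]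

theorem aa_u (h0 : 0 < p) : aa p = 12 / 25 + 4 / 5 * (1 / p - 1) := by
  unfold aa
  field_simp
  ring

/-- the crude factor -/
theorem Pr.sPP (h : Pr ρ t p y x) : √(PP p y) ≤ 1281 / 1000 * exp ((1 / p - 1) / 2) := by
  have hp := h.p0
  rw [Real.sqrt_le_left (by positivity), mul_pow, ← Real.exp_nat_mul]
  have e : ((2 : ℕ) : ℝ) * ((1 / p - 1) / 2) = 1 / p - 1 := by
    push_cast
    ring
  rw [e]
  have h1 := Real.add_one_le_exp (1 / p - 1)
  have h2 : PP p y = (1 + 16 / 25 * y) * (1 / p) := by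
    unfold PP
    ring
  rw [h2]
  have hy := h.y1
  have hy0 := h.y0
  have h3 : 0 < 1 / p := by positivity
  calc (1 + 16 / 25 * y) * (1 / p) ≤ (1281 / 1000) ^ (2 : ℕ) * (1 / p) :=
        mul_le_mul_of_nonneg_right (by linarith only [hy]) h3.le
    _ ≤ _ := mul_le_mul_of_nonneg_left (by linarith only [h1]) (by norm_num)

theorem Pr.sPP2 (h : Pr ρ t p y x) {S2 S : ℝ} (hS : 0 ≤ S) (hlo : S2 ≤ S ^ (2 : ℕ))
    (hN : 1 + 16 / 25 * y ≤ S2 * p) : √(PP p y) ≤ S := by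
  have hp := h.p0
  rw [Real.sqrt_le_left hS]
  refine le_trans ?_ hlo
  unfold PP
  rwa [div_le_iff₀ hp]

/-- group of the left tail -/
theorem Pr.GlT (h : Pr ρ t p y x) (hr : 0 < r) {E d : ℝ} (hE : E ≤ r * (SokamDz.lA ρ t * t ^ (2 : ℕ)))
    (hd : exp (-(E / 9)) ≤ d) :
    SokamDz.Kc r ρ * (20 / 3 * lT (8 / 9 * r) ρ t + lT r ρ t) ≤
      5 / 2 * (4232 / 10000 * (20 / 3) + 399 / 1000 * 1 * d) * √(PP p y) * exp (-(8 / 9 * E)) := by
  have hg := h.tail hr (c := 5 / 2) (a := 20 / 3) (b := 1)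
    (e := SokamDz.lA ρ t * t ^ (2 : ℕ)) (by norm_num) (by norm_num)
    (by norm_num) hE hd
  unfold lT
  rwa [one_mul] at hg

theorem Pr.lAt (h : Pr ρ t p y x) (hX : X = r * x ^ (2 : ℕ)) :
    r * (SokamDz.lA ρ t * t ^ (2 : ℕ)) = X * (aa p * min 1 (mm ρ / t)) := by
  rw [h.lA, hX]
  linear_combination r * aa p * min 1 (mm ρ / t) * h.ts

/-- `rA ≥ (4/(5p) - 23/50) y min(1, m/φ)` -/
theorem Pr.rA_ge (h : Pr ρ t p y x) {φ : ℝ} (hφ : 0 < φ) :
    (aa p - 7 / 50) * (y * min 1 (mm ρ / φ)) ≤ SokamDz.rA ρ φ := by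
  have hm := h.m0
  have hy := h.y0
  rw [h.rA]
  have h0 := cT_nonneg hm hφ.le
  have h1 := cT_le (mm ρ) φ
  have hk : 0 < min 1 (mm ρ / φ) := lt_min one_pos (div_pos hm hφ)
  have h2 : cT (mm ρ) φ ^ (2 : ℕ) ≤ 1 := by nlinarith only [h0, h1]
  have e : (aa p - 8 / 25 * (cT (mm ρ) φ / 3 + 5 * cT (mm ρ) φ ^ (2 : ℕ) / 48)) * y * min 1 (mm ρ / φ) =
    (aa p - 8 / 25 * (cT (mm ρ) φ / 3 + 5 * cT (mm ρ) φ ^ (2 : ℕ) / 48)) * (y * min 1 (mm ρ / φ)) := by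
    ring
  rw [e]
  exact mul_le_mul_of_nonneg_right (by linarith only [h1, h2]) (by positivity)

theorem Pr.rA0 (h : Pr ρ t p y x) {φ : ℝ} (hφ : 0 < φ) : 0 < SokamDz.rA ρ φ := by
  have hm := h.m0
  have hy := h.y0
  have hk : 0 < min 1 (mm ρ / φ) := lt_min one_pos (div_pos hm hφ)
  have ha := aa_pos h.p0 h.p1
  have : 0 < (aa p - 7 / 50) * (y * min 1 (mm ρ / φ)) :=
    mul_pos (by linarith only [ha]) (by positivity)
  linarith only [this, h.rA_ge hφ]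

theorem Pr.SrA (h : Pr ρ t p y x) {φ : ℝ} (hφ : 0 < φ) (hφ1 : φ ≤ 2 * π) {S2 S : ℝ}
    (hS2 : 0 ≤ S2) (hS : 0 ≤ S) (hlo : S2 ≤ S ^ (2 : ℕ))
    (hN : 1 + 16 / 25 * y ≤ S2 * ((4 / 5 - 23 / 50 * p) * y * (1989 / 10000) + 11 / 25 * p)) :
    √(PP p y / (SokamDz.rA ρ φ + 11 / 25)) ≤ S := by
  have hp := h.p0
  have hp1 := h.p1
  have hy := h.y0
  have hm := h.m0
  have hA := h.rA_ge hφ
  have ha := aa_pos hp hp1
  have hk : 1989 / 10000 ≤ min 1 (mm ρ / φ) := by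
    refine le_min (by norm_num) ?_
    rw [le_div_iff₀ hφ]
    have := h.m1
    have := Real.pi_lt_d4
    nlinarith
  have h1 : (aa p - 7 / 50) * (y * (1989 / 10000)) ≤ SokamDz.rA ρ φ :=
    le_trans (mul_le_mul_of_nonneg_left (mul_le_mul_of_nonneg_left hk hy.le) (by linarith only [ha])) hA
  have h0 : 0 < (aa p - 7 / 50) * (y * (1989 / 10000)) := mul_pos (by linarith only [ha]) (by positivity)
  rw [Real.sqrt_le_left hS]
  refine le_trans ?_ hlo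
  unfold PP
  rw [div_le_iff₀ (by linarith only [h1, h0]), div_le_iff₀ hp]
  refine hN.trans ?_
  rw [mul_assoc S2]
  refine mul_le_mul_of_nonneg_left ?_ hS2
  have e : (4 / 5 - 23 / 50 * p) * y * (1989 / 10000) + 11 / 25 * p =
      ((aa p - 7 / 50) * (y * (1989 / 10000)) + 11 / 25) * p := by
    unfold aa
    field_simp
    ring
  rw [e]
  exact mul_le_mul_of_nonneg_right (by linarith only [h1]) hp.le

theorem SrA_p0 (h0 : 0 ≤ p) (h1 : p ≤ 1) : 1 + 16 / 25 * (1 - p ^ (2 : ℕ)) ≤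
    1031 / 100 * ((4 / 5 - 23 / 50 * p) * (1 - p ^ (2 : ℕ)) * (1989 / 10000) + 11 / 25 * p) := by
  nlinarith only [mul_nonneg (mul_nonneg h0 h0) h0]

theorem SrA_p1 (h0 : 2379 / 10000 ≤ p) (h1 : p ≤ 1) : 1 + 16 / 25 * (1 - p ^ (2 : ℕ)) ≤
    685 / 100 * ((4 / 5 - 23 / 50 * p) * (1 - p ^ (2 : ℕ)) * (1989 / 10000) + 11 / 25 * p) := by
  have h2 : 0 ≤ p := by linarith only [h0]
  nlinarith only [mul_nonneg (sub_nonneg.2 h0) (sub_nonneg.2 h1), mul_nonneg (mul_nonneg h2 h2) h2]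

/-- group of the front -/
theorem Pr.GrO (h : Pr ρ t p y x) (hr : 0 < r) (hX : X = r * x ^ (2 : ℕ)) (ht1 : t < 2 * π)
    {Cf S : ℝ} (hCf : 0 ≤ Cf) (hS : √(PP p y / (SokamDz.rA ρ (2 * π - t) + 11 / 25)) ≤ S) :
    SokamDz.Kc r ρ * (20 / 3 * (Cf * rO (8 / 9 * r) ρ (2 * π - t)) +
      68 / 25 * rO r ρ (2 * π - t)) ≤
      (3 / 4 * (10 / 3 * Cf) + 7072 / 10000 * (34 / 25) * 1) * S *
        exp (-(8 / 9 * (11 / 25 * (X / y)))) := by
  have hA := h.rA0 (φ := 2 * π - t) (by linarith only [ht1])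
  have hS0 : 0 ≤ S := (Real.sqrt_nonneg _).trans hS
  unfold rO
  split_ifs with hc
  · have hE : 11 / 25 * (X / y) ≤ r * (11 / 25 * (2 * π - (2 * π - t)) ^ (2 : ℕ)) := by
      have e : 2 * π - (2 * π - t) = t := by ring
      have ht2 : t ^ (2 : ℕ) = x ^ (2 : ℕ) / y := by rw [eq_div_iff h.y0.ne', h.ts]
      rw [e, ht2, hX]
      exact le_of_eq (by ring)
    have hd : exp (-(11 / 25 * (X / y) / 9)) ≤ 1 := by
      have hy := h.y0
      have hX0 : 0 ≤ X := by rw [hX]; positivity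
      exact exp_le_one_iff.2 (by have : 0 ≤ X / y := by positivity
                                 linarith only [this])
    have hg := h.gauss hr (A := SokamDz.rA ρ (2 * π - t) + 11 / 25) (a := 10 / 3 * Cf) (b := 34 / 25)
      (e := 11 / 25 * (2 * π - (2 * π - t)) ^ (2 : ℕ)) (by positivity) (by positivity) (by norm_num) hE hd
    calc _ = SokamDz.Kc r ρ * (10 / 3 * Cf *
          (√(π / (8 / 9 * r * (SokamDz.rA ρ (2 * π - t) + 11 / 25))) *
            exp (-(8 / 9 * r * (11 / 25 * (2 * π - (2 * π - t)) ^ (2 : ℕ))))) +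
          34 / 25 * (√(π / (r * (SokamDz.rA ρ (2 * π - t) + 11 / 25))) *
            exp (-(r * (11 / 25 * (2 * π - (2 * π - t)) ^ (2 : ℕ)))))) := by ring
      _ ≤ _ := hg
      _ ≤ _ := mul_le_mul_of_nonneg_right (mul_le_mul_of_nonneg_left hS (by positivity))
          (exp_pos _).le
  · have : 0 ≤ (3 / 4 * (10 / 3 * Cf) + 7072 / 10000 * (34 / 25) * 1) * S *
        exp (-(8 / 9 * (11 / 25 * (X / y)))) := by positivity
    simpa using this

/-- group of the image, main -/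
theorem Pr.GrM (h : Pr ρ t p y x) (hr : 0 < r) {φ C B E d S : ℝ} (hφ : 0 < φ) (hC : 0 ≤ C)
    (hB : 0 < B)
    (hE : E ≤ r * (SokamDz.rA ρ φ * B * φ ^ (2 : ℕ) / (SokamDz.rA ρ φ + B)))
    (hd : exp (-(E / 9)) ≤ d) (hS : √(PP p y / (SokamDz.rA ρ φ + B)) ≤ S) :
    SokamDz.Kc r ρ * (20 / 3 * (C * rM (8 / 9 * r) ρ φ B) + 68 / 25 * rM r ρ φ B) ≤
      (5 * C + 7072 / 10000 * (68 / 25) * d) * S * exp (-(8 / 9 * E)) := by
  have hA := h.rA0 hφ
  have hg := h.gauss hr (A := SokamDz.rA ρ φ + B) (a := 20 / 3 * C) (b := 68 / 25)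
    (e := SokamDz.rA ρ φ * B * φ ^ (2 : ℕ) / (SokamDz.rA ρ φ + B)) (by positivity) (by positivity)
    (by norm_num) hE hd
  have hd0 : 0 ≤ d := (exp_pos _).le.trans hd
  unfold rM
  calc _ = _ := by ring
    _ ≤ _ := hg
    _ ≤ (3 / 4 * (20 / 3 * C) + 7072 / 10000 * (68 / 25) * d) * S * exp (-(8 / 9 * E)) :=
        mul_le_mul_of_nonneg_right (mul_le_mul_of_nonneg_left hS (by positivity)) (exp_pos _).le
    _ = _ := by ring

/-- group of the image, tail -/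
theorem Pr.GrT (h : Pr ρ t p y x) (hr : 0 < r) {φ E d : ℝ}
    (hE : E ≤ r * (SokamDz.rA ρ φ * φ ^ (2 : ℕ))) (hd : exp (-(E / 9)) ≤ d) :
    SokamDz.Kc r ρ * (20 / 3 * (14 / 5 * rT (8 / 9 * r) ρ φ) + 68 / 25 * rT r ρ φ) ≤
      3 / 2 * (4232 / 10000 * (56 / 3) + 399 / 1000 * (68 / 25) * d) * √(PP p y) *
        exp (-(8 / 9 * E)) := by
  have hg := h.tail hr (c := 3 / 2) (a := 56 / 3) (b := 68 / 25)
    (e := SokamDz.rA ρ φ * φ ^ (2 : ℕ)) (by norm_num) (by norm_num)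
    (by norm_num) hE hd
  unfold rT
  calc _ = _ := by ring
    _ ≤ _ := hg

/-- lower bound for the exponent -/
theorem Elow {A B φ Y Z c : ℝ} (hr : 0 < r) (hA : 0 < A) (hB : 0 < B) (hφ : 0 < φ)
    (hY : Y ≤ r * (A * φ ^ (2 : ℕ)))
    (hZ : Z ≤ r * (B * φ ^ (2 : ℕ))) (hY0 : 0 < Y) (hZ0 : 0 < Z) (hc : c * (Y + Z) ≤ Y * Z) :
    c ≤ r * (A * B * φ ^ (2 : ℕ) / (A + B)) := by
  have h1 : c ≤ Y * Z / (Y + Z) := by rwa [le_div_iff₀ (by positivity)]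
  refine h1.trans ?_
  have e : r * (A * B * φ ^ (2 : ℕ) / (A + B)) =
      (r * (A * φ ^ (2 : ℕ))) * (r * (B * φ ^ (2 : ℕ))) / (r * (A * φ ^ (2 : ℕ)) + r * (B * φ ^ (2 : ℕ))) := by
    field_simp
  rw [e]
  have hY1 : 0 < r * (A * φ ^ (2 : ℕ)) := by positivity
  have hZ1 : 0 < r * (B * φ ^ (2 : ℕ)) := by positivity
  rw [div_le_div_iff₀ (by positivity) (by positivity)]
  generalize r * (A * φ ^ (2 : ℕ)) = Y' at *
  generalize r * (B * φ ^ (2 : ℕ)) = Z' at *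
  have h2 : Y * Z * Y' ≤ Y' * Z' * Y := by
    have := mul_le_mul_of_nonneg_left hZ (mul_nonneg hY0.le hY1.le)
    linarith only [this]
  have h3 : Y * Z * Z' ≤ Y' * Z' * Z := by
    have := mul_le_mul_of_nonneg_left hY (mul_nonneg hZ0.le hZ1.le)
    linarith only [this]
  linarith only [h2, h3]

end SokamDz

end

/-! ### Lib_MP_af4de1_v3.DzX1 -/

section
namespace SokamCen
end SokamCen
namespace SokamV3
end SokamV3
/-!
# The real inequalities of the fields `d` for `X > 80`, 1: parameters and exponents (helper20)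

`y = s²`, `x = t s`, `p² + s² = 1`.
-/

set_option autoImplicit false

namespace SokamDz

open Real MeasureTheory Set SokamCen SokamV3

variable {r ρ t φ p y x z s u v c k α A B : ℝ}

/-- the data of the case `X > 80` -/
structure PX (r ρ t p y x s : ℝ) : Prop where
  pr : Pr ρ t p y x
  r0 : 499 / 10 ≤ r
  t1 : t ≤ π
  s0 : 0 < s
  hs : s ^ (2 : ℕ) = y
  hX : 80 < r * x ^ (2 : ℕ)

theorem PX.ex (h : HypD r ρ t) (hX : 80 < r * t ^ (2 : ℕ) / (1 + ρ ^ (2 : ℕ))) :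
    ∃ p y x s, PX r ρ t p y x s ∧ r * x ^ (2 : ℕ) = r * t ^ (2 : ℕ) / (1 + ρ ^ (2 : ℕ)) ∧ y = 1 / (1 + ρ ^ (2 : ℕ)) := by
  have hp := Pr.ex h.ρ0 h.t0
  have hR : 0 < 1 + ρ ^ (2 : ℕ) := by (clear * -; positivity)
  have e : r * (t / √(1 + ρ ^ (2 : ℕ))) ^ (2 : ℕ) = r * t ^ (2 : ℕ) / (1 + ρ ^ (2 : ℕ)) := by
    rw [div_pow, Real.sq_sqrt hR.le]
    ring
  refine ⟨_, _, _, √(1 / (1 + ρ ^ (2 : ℕ))), ⟨hp, h.r0, h.t1, Real.sqrt_pos.2 (by (clear * -; positivity)),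
    Real.sq_sqrt (by (clear * -; positivity)), ?_⟩, e, rfl⟩
  rw [e]
  exact hX

section

variable (h : PX r ρ t p y x s)
include h

theorem PX.xs : x = t * s := by
  have h1 := h.pr.ts
  rw [← h.hs, ← mul_pow] at h1
  exact ((pow_left_inj₀ (mul_pos h.pr.t0 h.s0).le h.pr.x0.le two_ne_zero).1 h1).symm

theorem PX.ps : p ^ (2 : ℕ) + s ^ (2 : ℕ) = 1 := by
  rw [h.hs, h.pr.hy]
  ring

theorem PX.s1 : s < 1 := by
  have h1 := h.ps
  have h2 := h.pr.p0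
  have h3 := h.s0
  nlinarith only [h1, h2]

theorem PX.sR : s * √(1 + ρ ^ (2 : ℕ)) = 1 := by
  have h1 := h.pr.ss
  have h2 := h.pr.hR
  have h3 := h.pr.s0
  have h4 : (s * √(1 + ρ ^ (2 : ℕ))) ^ (2 : ℕ) = 1 ^ (2 : ℕ) := by
    rw [mul_pow, h1, h.hs, h2]
    norm_num
  exact (pow_left_inj₀ (mul_pos h.s0 h3).le zero_le_one two_ne_zero).1 h4

theorem PX.prφ (hφ : 0 < φ) : Pr ρ φ p y (φ * s) := by
  have h1 := h.sR
  have h2 := h.s0
  refine ⟨h.pr.ρ0, hφ, h.pr.p0, h.pr.p1, h.pr.y0, h.pr.hy, h.pr.hR, h.pr.hp, by (clear * - hφ h2; positivity), ?_⟩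
  rw [mul_assoc, h1, mul_one]

theorem PX.xpi : x ≤ π * s := by
  rw [h.xs]
  exact mul_le_mul_of_nonneg_right h.t1 h.s0.le

theorem PX.y0 : 0 < y := h.pr.y0
theorem PX.y1 : y < 1 := h.pr.y1
theorem PX.rpos : 0 < r := by linarith [h.r0]

theorem PX.rx : r * x ^ (2 : ℕ) ≤ r * (π ^ (2 : ℕ) * y) := by
  have h1 : x ^ (2 : ℕ) ≤ (π * s) ^ (2 : ℕ) := pow_le_pow_left₀ h.pr.x0.le h.xpi 2
  rw [mul_pow, h.hs] at h1
  exact mul_le_mul_of_nonneg_left h1 h.rpos.le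

/-- `1/y ≤ .1234 r` -/
theorem PX.yr : 8 / 987 * 1000 ≤ r * y * 1 := by
  have h1 := h.rx
  have h2 := h.hX
  have h3 : π ^ (2 : ℕ) ≤ 987 / 100 := by
    have := Real.pi_lt_d4
    nlinarith only [this, Real.pi_pos]
  have h4 : 0 < r * y := mul_pos h.rpos h.y0
  nlinarith only [h1, h2, h3]

end

/-! ## the clip `κ = min 1 (m/φ)` -/

theorem min_sq (hz : 0 < z) : z ^ (2 : ℕ) * min 1 (5 / (4 * z)) = min (z ^ (2 : ℕ)) (5 / 4 * z) := by
  rw [mul_min_of_nonneg _ _ (sq_nonneg z)]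
  congr 1
  · ring
  · field_simp

theorem PX.kmono (h : PX r ρ t p y x s) (hφ : t ≤ φ) :
    x ^ (2 : ℕ) * min 1 (mm ρ / t) ≤ (φ * s) ^ (2 : ℕ) * min 1 (mm ρ / φ) := by
  have hφ0 : 0 < φ := h.pr.t0.trans_le hφ
  have hp := h.prφ hφ0
  rw [h.pr.mt, hp.mt, min_sq h.pr.x0, min_sq hp.x0]
  have h1 : x ≤ φ * s := by
    rw [h.xs]
    exact mul_le_mul_of_nonneg_right hφ h.s0.le
  have h2 := h.pr.x0
  exact min_le_min (pow_le_pow_left₀ h2.le h1 2) (by linarith)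

/-- `A φ² ≥ α k x²` -/
theorem PX.U (h : PX r ρ t p y x s) (hφ : t ≤ φ) (hα : 0 ≤ α) (hA : α * y * min 1 (mm ρ / φ) ≤ A)
    (hk : k ≤ min 1 (mm ρ / t)) : α * k * x ^ (2 : ℕ) ≤ A * φ ^ (2 : ℕ) := by
  have h1 := h.kmono hφ
  have h2 : α * k * x ^ (2 : ℕ) ≤ α * (x ^ (2 : ℕ) * min 1 (mm ρ / t)) := by
    rw [mul_assoc]
    refine mul_le_mul_of_nonneg_left ?_ hα
    rw [mul_comm k]
    exact mul_le_mul_of_nonneg_left hk (sq_nonneg x)
  have h3 : α * ((φ * s) ^ (2 : ℕ) * min 1 (mm ρ / φ)) = α * y * min 1 (mm ρ / φ) * φ ^ (2 : ℕ) := by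
    rw [mul_pow, h.hs]
    ring
  calc α * k * x ^ (2 : ℕ) ≤ α * (x ^ (2 : ℕ) * min 1 (mm ρ / t)) := h2
    _ ≤ α * ((φ * s) ^ (2 : ℕ) * min 1 (mm ρ / φ)) := mul_le_mul_of_nonneg_left h1 hα
    _ = α * y * min 1 (mm ρ / φ) * φ ^ (2 : ℕ) := h3
    _ ≤ A * φ ^ (2 : ℕ) := mul_le_mul_of_nonneg_right hA (sq_nonneg φ)

/-- `B φ² ≥ (B/y) x²` -/
theorem PX.V (h : PX r ρ t p y x s) (hφ : t ≤ φ) (hB : 0 ≤ B) : B / y * x ^ (2 : ℕ) ≤ B * φ ^ (2 : ℕ) := by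
  have h1 : t ^ (2 : ℕ) ≤ φ ^ (2 : ℕ) := pow_le_pow_left₀ h.pr.t0.le hφ 2
  have h2 : B / y * x ^ (2 : ℕ) = B * t ^ (2 : ℕ) := by
    have := h.y0
    rw [← h.pr.ts]
    field_simp
  rw [h2]
  exact mul_le_mul_of_nonneg_left h1 hB

/-- harmonic mean -/
theorem harm (hA : 0 < A) (hB : 0 < B) (hφ : 0 < φ) (hu : 0 < u) (hv : 0 < v)
    (hc0 : 0 ≤ c) {w : ℝ} (hU : u * w ≤ A * φ ^ (2 : ℕ)) (hV : v * w ≤ B * φ ^ (2 : ℕ)) (hc : c * (u + v) ≤ u * v) :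
    c * w ≤ A * B * φ ^ (2 : ℕ) / (A + B) := by
  have hU0 : 0 < A * φ ^ (2 : ℕ) := by positivity
  have hV0 : 0 < B * φ ^ (2 : ℕ) := by (clear * - hB hφ; positivity)
  have hAB : 0 < A + B := by (clear * - hA hB; positivity)
  rw [le_div_iff₀ hAB]
  -- `c w (U + V) ≤ U V`
  have h1 : c * w * (A * φ ^ (2 : ℕ) + B * φ ^ (2 : ℕ)) ≤ (A * φ ^ (2 : ℕ)) * (B * φ ^ (2 : ℕ)) := by
    set U := A * φ ^ (2 : ℕ)
    set V := B * φ ^ (2 : ℕ)
    have h2 : u * v * (c * w * (U + V)) ≤ u * v * (U * V) := by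
      calc u * v * (c * w * (U + V)) = c * v * ((u * w) * V) + c * u * ((v * w) * U) := by
            rw [show u * v * (c * w * (U + V)) = c * v * ((u * w) * V) + c * u * ((v * w) * U) by ring]
        _ ≤ c * v * (U * V) + c * u * (V * U) :=
            add_le_add (mul_le_mul_of_nonneg_left (mul_le_mul_of_nonneg_right hU hV0.le) (by (clear * - hc0 hv; positivity)))
              (mul_le_mul_of_nonneg_left (mul_le_mul_of_nonneg_right hV hU0.le) (by (clear * - hc0 hu; positivity)))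
        _ = c * (u + v) * (U * V) := by ring
        _ ≤ u * v * (U * V) := mul_le_mul_of_nonneg_right hc (by positivity)
    exact le_of_mul_le_mul_left h2 (mul_pos hu hv)
  have h3 : 0 < φ ^ (2 : ℕ) := by (clear * - hφ; positivity)
  have h4 : φ ^ (2 : ℕ) * (c * w * (A + B)) ≤ φ ^ (2 : ℕ) * (A * B * φ ^ (2 : ℕ)) := by
    calc φ ^ (2 : ℕ) * (c * w * (A + B)) = c * w * (A * φ ^ (2 : ℕ) + B * φ ^ (2 : ℕ)) := by ring
      _ ≤ _ := h1
      _ = _ := by ring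
  exact le_of_mul_le_mul_left h4 h3

/-! ## bounds of `k` -/

theorem PX.kc (h : PX r ρ t p y x s) : (s ≤ 1989 / 5000 ∧ (1 : ℝ) ≤ min 1 (mm ρ / t)) ∨
    (1989 / 5000 < s ∧ 1989 / 5000 / s ≤ min 1 (mm ρ / t)) := by
  have h1 := h.xpi
  have h2 := h.pr.x0
  have h3 := h.s0
  have hpi := Real.pi_lt_d4
  have hpi0 := Real.pi_pos
  rw [h.pr.mt]
  rcases le_or_gt s (1989 / 5000) with hs | hs
  · refine Or.inl ⟨hs, le_min le_rfl ?_⟩
    rw [one_le_div (by positivity)]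
    nlinarith only [h1, h3, hpi, hs]
  · refine Or.inr ⟨hs, le_min ((div_le_one h3).2 hs.le) ?_⟩
    rw [div_le_div_iff₀ h3 (by (clear * - h2; positivity))]
    nlinarith only [h1, h3, hpi]

theorem PX.kap_ge (h : PX r ρ t p y x s) (hφ0 : 0 < φ) (hφ : φ ≤ 2 * π) :
    1989 / 10000 ≤ min 1 (mm ρ / φ) := by
  have hpi := Real.pi_lt_d4
  refine le_min (by norm_num) ?_
  rw [le_div_iff₀ hφ0]
  have := h.pr.m1
  linarith only [hφ, hpi, this]

/-! ## the coefficients -/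

/-- lower coefficient, right -/
noncomputable def aR' (p : ℝ) : ℝ := 4 / (5 * p) - 23 / 50

theorem aR'_eq (hp : 0 < p) : aR' p = (4 / 5 - 23 / 50 * p) / p := by
  unfold aR'
  field_simp

theorem aa_eq (hp : 0 < p) : aa p = (4 / 5 - 8 / 25 * p) / p := by
  unfold aa
  field_simp

theorem aR'_ge (hp : 0 < p) (hp1 : p < 1) : 17 / 50 / p ≤ aR' p := by
  rw [aR'_eq hp]
  exact div_le_div_of_nonneg_right (by linarith) hp.le

theorem aa_ge (hp : 0 < p) (hp1 : p < 1) : 12 / 25 / p ≤ aa p := by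
  rw [aa_eq hp]
  exact div_le_div_of_nonneg_right (by linarith) hp.le

theorem aR'_le : aR' p ≤ aa p := by
  unfold aR' aa
  linarith

theorem PX.rA_ge (h : PX r ρ t p y x s) (hφ0 : 0 < φ) :
    aR' p * y * min 1 (mm ρ / φ) ≤ rA ρ φ := by
  have hp := h.prφ hφ0
  rw [hp.rA]
  have hm := hp.m0
  have hk : 0 ≤ min 1 (mm ρ / φ) := le_min zero_le_one (by (clear * - hm hφ0; positivity))
  have hc1 : cT (mm ρ) φ ≤ 1 := by
    unfold cT
    exact min_le_left _ _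
  have hc0 : 0 ≤ cT (mm ρ) φ := by
    unfold cT
    exact le_min zero_le_one (by (clear * - hφ0 hm; positivity))
  have h1 : aR' p ≤ aa p - 8 / 25 * (cT (mm ρ) φ / 3 + 5 * cT (mm ρ) φ ^ (2 : ℕ) / 48) := by
    unfold aR' aa
    nlinarith only [hc1, hc0]
  have := h.y0
  gcongr

theorem PX.rA_pos (h : PX r ρ t p y x s) (hφ0 : 0 < φ) : 0 < rA ρ φ := by
  refine lt_of_lt_of_le ?_ (h.rA_ge hφ0)
  have hp0 := h.pr.p0
  have h1 : 0 < aR' p := lt_of_lt_of_le (by positivity) (aR'_ge hp0 h.pr.p1)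
  have hm := h.pr.m0
  have h2 : 0 < min 1 (mm ρ / φ) := lt_min zero_lt_one (by (clear * - hm hφ0; positivity))
  have := h.y0
  (clear * - h1 this hm hφ0; positivity)

theorem PX.lA_eq (h : PX r ρ t p y x s) (hφ0 : 0 < φ) :
    lA ρ φ = aa p * y * min 1 (mm ρ / φ) := (h.prφ hφ0).lA

theorem PX.lA_pos (h : PX r ρ t p y x s) (hφ0 : 0 < φ) : 0 < lA ρ φ := by
  rw [h.lA_eq hφ0]
  have hp0 := h.pr.p0
  have h1 : 0 < aa p := lt_of_lt_of_le (by positivity) (aa_ge hp0 h.pr.p1)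
  have hm := h.pr.m0
  have h2 : 0 < min 1 (mm ρ / φ) := lt_min zero_lt_one (by (clear * - hm hφ0; positivity))
  have := h.y0
  (clear * - h1 this hm hφ0; positivity)

/-- the constants `u = α k`, right -/
theorem PX.kR (h : PX r ρ t p y x s) : ∃ k, 0 < k ∧ k ≤ min 1 (mm ρ / t) ∧
    11 / 25 ≤ aR' p * k * (44 / 25 - y) ∧ 1 / 3 ≤ aR' p * k ∧ 1352 / 10000 / p ≤ aR' p * k := by
  have hp0 := h.pr.p0
  have hp1 := h.pr.p1
  have hs0 := h.s0
  have hps := h.ps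
  have hy : y = 1 - p ^ (2 : ℕ) := h.pr.hy
  rw [aR'_eq hp0]
  rcases h.kc with ⟨h1, h2⟩ | ⟨h1, h2⟩
  · refine ⟨1, one_pos, h2, ?_, ?_, ?_⟩
    · rw [mul_one, hy, div_mul_eq_mul_div, le_div_iff₀ hp0]
      nlinarith only [mul_pos (mul_pos hp0 hp0) (sub_pos.2 hp1)]
    · rw [mul_one, le_div_iff₀ hp0]
      linarith
    · rw [mul_one]
      exact div_le_div_of_nonneg_right (by linarith) hp0.le
  · have hps2 : p * s ≤ 1 / 2 := by linarith only [hps, sq_nonneg (p - s)]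
    refine ⟨1989 / 5000 / s, by positivity, h2, ?_, ?_, ?_⟩
    · have e : (4 / 5 - 23 / 50 * p) / p * (1989 / 5000 / s) * (44 / 25 - y) =
          (4 / 5 - 23 / 50 * p) * (1989 / 5000) * (19 / 25 + p ^ (2 : ℕ)) / (p * s) := by
        rw [hy]
        field_simp
        ring
      rw [e, le_div_iff₀ (mul_pos hp0 hs0)]
      have h3 : 553 / 1000 ≤ (4 / 5 - 23 / 50 * p) * (19 / 25 + p ^ (2 : ℕ)) := by
        nlinarith only [mul_nonneg (sub_pos.2 hp1).le (sq_nonneg (p - 3 / 10))]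
      nlinarith only [hp0, hs0, hps, hps2]
    · have e : (4 / 5 - 23 / 50 * p) / p * (1989 / 5000 / s) =
          (4 / 5 - 23 / 50 * p) * (1989 / 5000) / (p * s) := by
        field_simp
      rw [e, le_div_iff₀ (mul_pos hp0 hs0)]
      have h3 : s ≤ (34 / 25 - p ^ (2 : ℕ)) / (6 / 5) := by
        rw [le_div_iff₀ (by norm_num)]
        linarith only [hps, sq_nonneg (s - 3 / 5)]
      have h4 : p * s ≤ p * ((34 / 25 - p ^ (2 : ℕ)) / (6 / 5)) := mul_le_mul_of_nonneg_left h3 hp0.le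
      nlinarith only [h4, mul_nonneg hp0.le (sq_nonneg (p - 41 / 50))]
    · have e : (4 / 5 - 23 / 50 * p) / p * (1989 / 5000 / s) =
          (4 / 5 - 23 / 50 * p) * (1989 / 5000) / s / p := by
        field_simp
      rw [e]
      refine div_le_div_of_nonneg_right ?_ hp0.le
      rw [le_div_iff₀ hs0]
      nlinarith only [h1, hps2, h.s1]

/-- exponent of the right main term: `E ≥ X/4` -/
theorem PX.ERM (h : PX r ρ t p y x s) (hφ : t ≤ φ) :
    r * x ^ (2 : ℕ) / 4 ≤ r * (rA ρ φ * (11 / 25) * φ ^ (2 : ℕ) / (rA ρ φ + 11 / 25)) := by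
  have hφ0 : 0 < φ := h.pr.t0.trans_le hφ
  obtain ⟨k, hk0, hk, h1, h2, _⟩ := h.kR
  have hp0 := h.pr.p0
  have ha : 0 < aR' p := lt_of_lt_of_le (by (clear * - hp0; positivity)) (aR'_ge hp0 h.pr.p1)
  have hy := h.y0
  have hU := h.U hφ ha.le (h.rA_ge hφ0) hk
  have hV := h.V (B := 11 / 25) hφ (by norm_num)
  have h3 : 1 / 4 * x ^ (2 : ℕ) ≤ rA ρ φ * (11 / 25) * φ ^ (2 : ℕ) / (rA ρ φ + 11 / 25) := by
    refine harm (h.rA_pos hφ0) (by norm_num) hφ0 (by (clear * - ha hk0; positivity)) (by (clear * - hy; positivity)) (by norm_num) hU hV ?_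
    have e : aR' p * k * (11 / 25 / y) - 1 / 4 * (aR' p * k + 11 / 25 / y) =
        (aR' p * k * (44 / 25 - y) - 11 / 25) / (4 * y) := by
      field_simp
      ring
    have h4 : 0 ≤ (aR' p * k * (44 / 25 - y) - 11 / 25) / (4 * y) :=
      div_nonneg (by linarith) (by (clear * - hy; positivity))
    linarith
  have := h.rpos
  nlinarith only [h3, this]

/-- exponents of the tails: `r A φ² ≥ (4/15 + .027/p) X` -/
theorem PX.ET (h : PX r ρ t p y x s) (hφ : t ≤ φ) (hA : aR' p * y * min 1 (mm ρ / φ) ≤ A) :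
    (4 / 15 + 27 / 1000 / p) * (r * x ^ (2 : ℕ)) ≤ r * (A * φ ^ (2 : ℕ)) := by
  have hφ0 : 0 < φ := h.pr.t0.trans_le hφ
  obtain ⟨k, hk0, hk, _, h2, h3⟩ := h.kR
  have hp0 := h.pr.p0
  have ha : 0 < aR' p := lt_of_lt_of_le (by (clear * - hp0; positivity)) (aR'_ge hp0 h.pr.p1)
  have hU := h.U hφ ha.le hA hk
  have h4 : 4 / 15 + 27 / 1000 / p ≤ aR' p * k := by
    have e : 27 / 1000 / p ≤ 1 / 5 * (1352 / 10000 / p) := by
      rw [← mul_div_assoc]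
      exact div_le_div_of_nonneg_right (by norm_num) hp0.le
    linarith
  have h5 := mul_le_mul_of_nonneg_right h4 (sq_nonneg x)
  have h6 := mul_le_mul_of_nonneg_left (h5.trans hU) h.rpos.le
  calc _ = r * ((4 / 15 + 27 / 1000 / p) * x ^ (2 : ℕ)) := by ring
    _ ≤ _ := h6

theorem PX.lA_ge (h : PX r ρ t p y x s) (hφ0 : 0 < φ) :
    aR' p * y * min 1 (mm ρ / φ) ≤ lA ρ φ := by
  rw [h.lA_eq hφ0]
  have hm := h.pr.m0
  have hk : 0 ≤ min 1 (mm ρ / φ) := le_min zero_le_one (by positivity)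
  have := h.y0
  have := aR'_le (p := p)
  gcongr

end SokamDz

end
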