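import Pool.Agent.Lib_MP_af4de1_zy.Z71
import Pool.Agent.Lib_MP_af4de1_zy.Z72

/-! ### Lib_MP_af4de1_fu.TubE -/

section
/-!
# The class check: soundness

`clsCheck : ClsI → Bool`, `clsCheck K = true → ClsOK K.toCls`.
-/

set_option autoImplicit false

namespace SokamFU

open Finset (range)

/-! ### Remainder terms -/

theorem gt_nat {S R n0 p M n rho del u ee : ℕ}
    (hu : (2 : ℝ) ^ S * ((R : ℝ) ^ n / (n.factorial : ℝ)) ≤ u)
    (he : Real.exp ((absd n0 n : ℝ) * ((rho : ℝ) / 2 ^ (40 : ℕ))) * 2 ^ (60 : ℕ) ≤ ee) :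
    (2 : ℝ) ^ S * gt R n0 p M ((rho : ℝ) / 2 ^ (40 : ℕ)) ((del : ℝ) / 2 ^ (40 : ℕ) / 2) n *
      ((M.factorial : ℝ) * 2 ^ (41 * M + 60)) ≤
      ((u * absd n0 n ^ p * (absd n0 n * (2 * rho + absd n0 n * del)) ^ M * ee : ℕ) : ℝ) := by
  set j : ℝ := (absd n0 n : ℝ) with hj
  have hM : (M.factorial : ℝ) ≠ 0 := by exact_mod_cast Nat.factorial_ne_zero M
  have e1 : j * ((rho : ℝ) / 2 ^ (40 : ℕ)) + j ^ (2 : ℕ) * ((del : ℝ) / 2 ^ (40 : ℕ) / 2) =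
      (j * (2 * rho + j * del)) / 2 ^ (41 : ℕ) := by ring
  have e2 : (2 : ℝ) ^ S * gt R n0 p M ((rho : ℝ) / 2 ^ (40 : ℕ)) ((del : ℝ) / 2 ^ (40 : ℕ) / 2) n *
      ((M.factorial : ℝ) * 2 ^ (41 * M + 60)) =
      ((2 : ℝ) ^ S * ((R : ℝ) ^ n / (n.factorial : ℝ))) * j ^ p * (j * (2 * rho + j * del)) ^ M *
        (Real.exp (j * ((rho : ℝ) / 2 ^ (40 : ℕ))) * 2 ^ (60 : ℕ)) := by
    unfold gt
    rw [abs_jj, ← hj, e1, div_pow, ← pow_mul, pow_add 2 (41 * M)]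
    field_simp
  rw [e2]
  push_cast
  rw [← hj]
  have : 0 ≤ j := by rw [hj]; (clear * -; positivity)
  gcongr

theorem exp_pow_nat {rho E j : ℕ} (hE : Real.exp ((rho : ℝ) / 2 ^ (40 : ℕ)) ≤ (E : ℝ) / 2 ^ (60 : ℕ)) :
    Real.exp ((j : ℝ) * ((rho : ℝ) / 2 ^ (40 : ℕ))) * 2 ^ (60 : ℕ) ≤
      ((Nat.succ (Nat.shiftRight (Nat.mul (Nat.pow E j) (Nat.pow 2 60)) (Nat.mul 60 j)) : ℕ) : ℝ) := by
  rw [shiftRight_div]
  have h1 := nat_div_succ_ge (Nat.mul (Nat.pow E j) (Nat.pow 2 60)) (2 ^ (Nat.mul 60 j)) (by positivity)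
  rw [Nat.succ_eq_add_one, Nat.cast_add, Nat.cast_one]
  refine le_trans ?_ h1
  simp only [Nat.mul_eq, Nat.pow_eq]
  rw [Real.exp_nat_mul]
  have h2 : Real.exp ((rho : ℝ) / 2 ^ (40 : ℕ)) ^ j ≤ ((E : ℝ) / 2 ^ (60 : ℕ)) ^ j :=
    pow_le_pow_left₀ (Real.exp_pos _).le hE j
  have h3 : ((E : ℝ) / 2 ^ (60 : ℕ)) ^ j * 2 ^ (60 : ℕ) = ((E ^ j * 2 ^ (60 : ℕ) : ℕ) : ℝ) / ((2 ^ (60 * j) : ℕ) : ℝ) := by
    push_cast
    rw [div_pow, ← pow_mul]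
    ring
  rw [← h3]
  exact mul_le_mul_of_nonneg_right h2 (by positivity)

theorem gN1_eq (K : ClsI) (E n u : ℕ) :
    gN1 K E n u = u * absd K.n0 n ^ (1 : ℕ) * (absd K.n0 n * (2 * K.rho2 + absd K.n0 n * K.del)) ^ K.M *
      (Nat.succ (Nat.shiftRight (Nat.mul (Nat.pow E (absd K.n0 n)) (Nat.pow 2 60)) (Nat.mul 60 (absd K.n0 n)))) := by
  unfold gN1
  generalize Nat.succ (Nat.shiftRight (Nat.mul (Nat.pow E (absd K.n0 n)) (Nat.pow 2 60))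
    (Nat.mul 60 (absd K.n0 n))) = z
  simp only [Nat.add_eq, Nat.mul_eq, Nat.pow_eq, pow_one]

theorem gN0_eq (K : ClsI) (E n u : ℕ) :
    gN0 K E n u = u * absd K.n0 n ^ (0 : ℕ) * (absd K.n0 n * (2 * K.rho0 + absd K.n0 n * K.del)) ^ K.M *
      (Nat.succ (Nat.shiftRight (Nat.mul (Nat.pow E (absd K.n0 n)) (Nat.pow 2 60)) (Nat.mul 60 (absd K.n0 n)))) := by
  unfold gN0
  generalize Nat.succ (Nat.shiftRight (Nat.mul (Nat.pow E (absd K.n0 n)) (Nat.pow 2 60))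
    (Nat.mul 60 (absd K.n0 n))) = z
  simp only [Nat.add_eq, Nat.mul_eq, Nat.pow_eq, pow_zero, mul_one]

/-- the scale of the remainder sums -/
noncomputable def FR (M : ℕ) : ℝ := (M.factorial : ℝ) * 2 ^ (41 * M + 60)

theorem FR_pos (M : ℕ) : 0 < FR M := by unfold FR; positivity

theorem gN1_spec (K : ClsI) (hr : K.rho2 < 2 ^ (56 : ℕ)) (n : ℕ) :
    (2 : ℝ) ^ K.S * gt K.R K.n0 1 K.M K.toCls.rho2 (K.toCls.del / 2) n * FR K.M ≤
      gN1 K (expU K.rho2) n (uS K.S K.R n) := by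
  rw [gN1_eq]
  exact gt_nat (uS_spec K.S K.R n) (exp_pow_nat (expU_spec hr))

theorem gN0_spec (K : ClsI) (hr : K.rho0 < 2 ^ (56 : ℕ)) (n : ℕ) :
    (2 : ℝ) ^ K.S * gt K.R K.n0 0 K.M K.toCls.rho0 (K.toCls.del / 2) n * FR K.M ≤
      gN0 K (expU K.rho0) n (uS K.S K.R n) := by
  rw [gN0_eq]
  exact gt_nat (uS_spec K.S K.R n) (exp_pow_nat (expU_spec hr))

/-! ### Block sums -/

theorem sum_blocks (g : ℕ → ℝ) (m : ℕ) :
    ∑ n ∈ range (8 * m), g n = ∑ t ∈ range m, ∑ r ∈ range 8, g (8 * t + r) := by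
  induction m with
  | zero => simp
  | succ m ih =>
    rw [Finset.sum_range_succ, ← ih, show 8 * (m + 1) = 8 * m + 8 by ring, Finset.sum_range_add]

theorem bs_spec {S R n0 N m : ℕ} {h : ℕ → ℕ} {H : ℝ → ℝ} (hm : N ≤ 8 * m)
    (hmono : ∀ j j', j ≤ j' → h j ≤ h j') (hH : ∀ j : ℕ, H j ≤ (h j : ℝ) / 2 ^ (20 : ℕ))
    (hH0 : ∀ x, 0 ≤ x → 0 ≤ H x) :
    ∑ n ∈ range N, Er R n * H |jj n0 n| ≤ (bs S R n0 h 0 m : ℝ) / 2 ^ (20 : ℕ) := by
  have h1 : ∑ n ∈ range N, Er R n * H |jj n0 n| ≤ ∑ n ∈ range (8 * m), Er R n * H |jj n0 n| := by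
    refine Finset.sum_le_sum_of_subset_of_nonneg ?_ fun n _ _ => ?_
    · intro k hk
      rw [Finset.mem_range] at hk ⊢
      omega
    · exact mul_nonneg (Er_nonneg (Nat.cast_nonneg R) n) (hH0 _ (abs_nonneg _))
  refine h1.trans ?_
  rw [sum_blocks, le_div_iff₀ (by positivity), Finset.sum_mul]
  unfold bs
  rw [Nat.cast_sum]
  refine Finset.sum_le_sum fun t _ => ?_
  rw [zero_add, Nat.cast_mul, Nat.cast_sum, Finset.sum_mul, Finset.sum_mul]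
  refine Finset.sum_le_sum fun r hr => ?_
  have e1 := eS_spec S R (8 * t + r)
  have e2 : H |jj n0 (8 * t + r)| ≤ (h (jmx n0 (8 * t)) : ℝ) / 2 ^ (20 : ℕ) := by
    rw [abs_jj]
    refine (hH _).trans ?_
    have : h (absd n0 (8 * t + r)) ≤ h (jmx n0 (8 * t)) :=
      hmono _ _ (absd_le_jmx n0 (8 * t) r (Finset.mem_range.1 hr))
    have : (h (absd n0 (8 * t + r)) : ℝ) ≤ h (jmx n0 (8 * t)) := by exact_mod_cast this
    exact div_le_div_of_nonneg_right this (by positivity)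
  have e3 : Er R (8 * t + r) * H |jj n0 (8 * t + r)| ≤
      (eS S R (8 * t + r) : ℝ) * ((h (jmx n0 (8 * t)) : ℝ) / 2 ^ (20 : ℕ)) :=
    mul_le_mul e1 e2 (hH0 _ (abs_nonneg _)) (Nat.cast_nonneg _)
  calc Er R (8 * t + r) * H |jj n0 (8 * t + r)| * 2 ^ (20 : ℕ)
      ≤ (eS S R (8 * t + r) : ℝ) * ((h (jmx n0 (8 * t)) : ℝ) / 2 ^ (20 : ℕ)) * 2 ^ (20 : ℕ) :=
        mul_le_mul_of_nonneg_right e3 (by positivity)
    _ = _ := by field_simp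

/-! ### The linear functionals of the errors -/

theorem errM_lin (D R : ℝ) (n0 N : ℕ) (I : Finset ℕ) (w : ℕ → ℝ) (e : ℕ → ℕ) :
    ∑ p ∈ I, w p * errM D R n0 N (e p) =
      ∑ n ∈ range N, Er R n * (∑ p ∈ I, w p * |jj n0 n| ^ e p) +
        D * (4 * (R ^ N / (N.factorial : ℝ))) * (∑ p ∈ I, w p * |jj n0 N| ^ e p) := by
  unfold errM
  simp_rw [mul_add]
  rw [Finset.sum_add_distrib]
  congr 1
  · simp_rw [Finset.mul_sum]
    rw [Finset.sum_comm]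
    refine Finset.sum_congr rfl fun n _ => Finset.sum_congr rfl fun p _ => ?_
    ring
  · rw [Finset.mul_sum]
    refine Finset.sum_congr rfl fun p _ => ?_
    ring

theorem err1_eq (K : ClsI) (D : ℝ) :
    ∑ p ∈ Finset.Icc 1 (2 * K.M - 2), K.toCls.w2 p * errM D K.R K.n0 K.N (p + 1) +
      errM D K.R K.n0 K.N 1 =
      ∑ n ∈ range K.N, Er K.R n * H1 K |jj K.n0 n| +
        D * (4 * ((K.R : ℝ) ^ K.N / (K.N.factorial : ℝ))) * H1 K |jj K.n0 K.N| := by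
  rw [errM_lin]
  unfold H1 errM
  simp_rw [mul_add]
  rw [Finset.sum_add_distrib]
  simp only [pow_one]
  ring

theorem err0_eq (K : ClsI) (D : ℝ) :
    errM D K.R K.n0 K.N 0 + (K.toCls.rho0 + K.toCls.rho2) * errM D K.R K.n0 K.N 1 +
      (K.toCls.del / 2 + K.toCls.rho0 ^ (2 : ℕ) / 2) * errM D K.R K.n0 K.N 2 +
    ∑ p ∈ Finset.Icc 3 (2 * K.M - 2), K.toCls.w0 p * errM D K.R K.n0 K.N p =
      ∑ n ∈ range K.N, Er K.R n * H0 K |jj K.n0 n| +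
        D * (4 * ((K.R : ℝ) ^ K.N / (K.N.factorial : ℝ))) * H0 K |jj K.n0 K.N| := by
  rw [errM_lin D K.R K.n0 K.N (Finset.Icc 3 (2 * K.M - 2)) K.toCls.w0 (fun p => p)]
  have e1 : ∀ n, Er K.R n * H0 K |jj K.n0 n| = Er K.R n * |jj K.n0 n| ^ (0 : ℕ) +
      (K.toCls.rho0 + K.toCls.rho2) * (Er K.R n * |jj K.n0 n| ^ (1 : ℕ)) +
      (K.toCls.del / 2 + K.toCls.rho0 ^ (2 : ℕ) / 2) * (Er K.R n * |jj K.n0 n| ^ (2 : ℕ)) +
      Er K.R n * ∑ p ∈ Finset.Icc 3 (2 * K.M - 2), K.toCls.w0 p * |jj K.n0 n| ^ p := by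
    intro n
    unfold H0
    ring
  have e2 : ∑ n ∈ range K.N, Er K.R n * H0 K |jj K.n0 n| =
      ∑ n ∈ range K.N, Er K.R n * |jj K.n0 n| ^ (0 : ℕ) +
      (K.toCls.rho0 + K.toCls.rho2) * ∑ n ∈ range K.N, Er K.R n * |jj K.n0 n| ^ (1 : ℕ) +
      (K.toCls.del / 2 + K.toCls.rho0 ^ (2 : ℕ) / 2) * ∑ n ∈ range K.N, Er K.R n * |jj K.n0 n| ^ (2 : ℕ) +
      ∑ n ∈ range K.N, Er K.R n * ∑ p ∈ Finset.Icc 3 (2 * K.M - 2), K.toCls.w0 p * |jj K.n0 n| ^ p := by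
    rw [Finset.mul_sum, Finset.mul_sum, ← Finset.sum_add_distrib, ← Finset.sum_add_distrib,
      ← Finset.sum_add_distrib]
    exact Finset.sum_congr rfl fun n _ => e1 n
  rw [e2]
  unfold H0 errM
  ring

/-! ### The check -/

/-- factorial -/
def fctN (M : ℕ) : ℕ := Nat.rec 1 (fun n v => Nat.mul (Nat.succ n) v) M

theorem fctN_eq (M : ℕ) : fctN M = M.factorial := by
  induction M with
  | zero => rfl
  | succ M ih =>
    rw [Nat.factorial_succ, ← ih]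
    rfl

/-- `x_1` of the second weights -/
def wx1 (K : ClsI) : ℕ := Nat.succ (Nat.shiftRight (Nat.mul (Nat.mul (Nat.pow 2 K.u) K.rho0) (Nat.pow 2 K.k)) 40)

/-- `x_2` of the second weights -/
def wx2 (K : ClsI) : ℕ := Nat.succ (Nat.shiftRight (Nat.add (Nat.mul (Nat.mul (Nat.pow 2 K.u) K.rho0) (wx1 K))
  (Nat.mul (Nat.mul (Nat.pow 2 (Nat.mul 2 K.u)) K.del) (Nat.pow 2 K.k))) 41)

/-- final inequality -/
def finE (s u h F g e : ℕ) : Bool :=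
  Nat.ble (Nat.add (Nat.mul (Nat.add s (Nat.mul (Nat.mul 4 u) h)) F) (Nat.mul g (Nat.pow 2 20)))
    (Nat.mul (Nat.mul e F) (Nat.pow 2 20))

/-- the scale of the remainder sums, an integer -/
def FN (M : ℕ) : ℕ := Nat.mul (fctN M) (Nat.pow 2 (Nat.add (Nat.mul 41 M) 60))

/-- ratio condition -/
def ratN (K : ClsI) : Bool :=
  Nat.ble (Nat.mul (Nat.mul (Nat.mul 4 K.R) (Nat.pow (Nat.succ (Nat.sub K.N K.n0)) (Nat.succ (Nat.mul 2 K.M))))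
      (expU K.rho2)) (Nat.mul (Nat.mul (Nat.mul 3 (Nat.succ K.N))
      (Nat.pow (Nat.sub K.N K.n0) (Nat.succ (Nat.mul 2 K.M)))) (Nat.pow 2 60))

/-- the weights conditions -/
def wcN (K : ClsI) : Bool :=
  Nat.beq K.wl.length (Nat.sub (Nat.mul 2 K.M) 2) &&
  wc1 K.rho2 K.del K.u K.wl 0 0 (Nat.pow 2 K.k) &&
  wc0 K.rho0 K.del K.u (Nat.sub (Nat.mul 2 K.M) 2) K.wl.tail 2 (wx1 K) (wx2 K)

/-- the conditions on `e1`, `e0` -/
def ecN (K : ClsI) : Bool :=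
  remL K.R (gN1 K (expU K.rho2)) (gN0 K (expU K.rho0)) K.N 0 (Nat.pow 2 K.S) 0 0 (fun uNe g1 g0 =>
    outer K.S K.R K.n0 (h1 K) (h0 K) (Nat.div (Nat.add K.N 7) 8) 0 (Nat.pow 2 K.S) 0 0 0 (fun s1 s0 =>
      finE s1 uNe (h1 K (Nat.sub K.N K.n0)) (FN K.M) g1 K.e1 &&
      finE s0 uNe (h0 K (Nat.sub K.N K.n0)) (FN K.M) g0 K.e0))

/-- The class check. -/
def clsCheck (K : ClsI) : Bool :=
  Nat.ble 3 K.M && Nat.ble (Nat.succ K.n0) K.N && Nat.ble K.rho0 K.rho2 &&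
  Nat.ble (Nat.succ K.rho2) (Nat.pow 2 56) &&
  Nat.ble (Nat.mul (Nat.mul 8 K.N) (Nat.succ K.R)) (Nat.pow 2 K.S) && wcN K && ratN K && ecN K

/-! ### Soundness -/

theorem ratN_spec (K : ClsI) (h : ratN K = true) (hn : K.n0 < K.N) (hr : K.rho2 < 2 ^ (56 : ℕ)) :
    RatOK K.toCls.R K.toCls.n0 K.toCls.N (2 * K.toCls.M + 1) K.toCls.rho2 := by
  have hE := expU_spec hr
  unfold ratN at h
  rw [Nat.ble_eq] at h
  simp only [Nat.mul_eq, Nat.pow_eq, Nat.succ_eq_add_one, Nat.sub_eq] at h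
  refine ⟨hn, ?_⟩
  show 4 * (K.R : ℝ) * ((K.N : ℝ) + 1 - K.n0) ^ (2 * K.M + 1) * Real.exp ((K.rho2 : ℝ) / 2 ^ (40 : ℕ)) ≤
    3 * ((K.N : ℝ) + 1) * ((K.N : ℝ) - K.n0) ^ (2 * K.M + 1)
  have hJ : ((K.N - K.n0 : ℕ) : ℝ) = (K.N : ℝ) - K.n0 := Nat.cast_sub hn.le
  have h' : (4 * (K.R : ℝ) * (((K.N - K.n0 : ℕ) : ℝ) + 1) ^ (2 * K.M + 1) * (expU K.rho2 : ℝ)) ≤
      3 * ((K.N : ℝ) + 1) * ((K.N - K.n0 : ℕ) : ℝ) ^ (2 * K.M + 1) * 2 ^ (60 : ℕ) := by exact_mod_cast h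
  rw [hJ] at h'
  have hpos : 0 ≤ (K.N : ℝ) - K.n0 := by
    rw [← hJ]
    exact Nat.cast_nonneg _
  have e1 : (K.N : ℝ) + 1 - K.n0 = (K.N : ℝ) - K.n0 + 1 := by ring
  rw [e1]
  calc 4 * (K.R : ℝ) * ((K.N : ℝ) - K.n0 + 1) ^ (2 * K.M + 1) * Real.exp ((K.rho2 : ℝ) / 2 ^ (40 : ℕ))
      ≤ 4 * (K.R : ℝ) * ((K.N : ℝ) - K.n0 + 1) ^ (2 * K.M + 1) * ((expU K.rho2 : ℝ) / 2 ^ (60 : ℕ)) :=
        mul_le_mul_of_nonneg_left hE (by (clear * - hpos; positivity))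
    _ = (4 * (K.R : ℝ) * ((K.N : ℝ) - K.n0 + 1) ^ (2 * K.M + 1) * (expU K.rho2 : ℝ)) / 2 ^ (60 : ℕ) := by
        ring
    _ ≤ (3 * ((K.N : ℝ) + 1) * ((K.N : ℝ) - K.n0) ^ (2 * K.M + 1) * 2 ^ (60 : ℕ)) / 2 ^ (60 : ℕ) :=
        div_le_div_of_nonneg_right h' (by positivity)
    _ = _ := by field_simp

theorem wcN_spec1 (K : ClsI) (h : wcN K = true) :
    ∀ p ∈ Finset.Icc 1 (2 * K.toCls.M - 2), Wt K.toCls.M p K.toCls.rho2 K.toCls.del ≤ K.toCls.w2 p := by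
  unfold wcN at h
  rw [Bool.and_eq_true, Bool.and_eq_true, Nat.beq_eq] at h
  obtain ⟨⟨hl, h1⟩, -⟩ := h
  intro p hp
  rw [Finset.mem_Icc] at hp
  have hM : K.toCls.M = K.M := rfl
  rw [hM] at hp
  refine (Wt_le_Wf K.toCls.M p (show 0 ≤ (K.rho2 : ℝ) / 2 ^ (40 : ℕ) by (clear * -; positivity))
    (show 0 ≤ (K.del : ℝ) / 2 ^ (40 : ℕ) by (clear * -; positivity))).trans ?_
  have hs := wc1_spec (k := K.k) K.wl 0 0 (Nat.pow 2 K.k) h1 (by simp [Wx]) (by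
    simp only [Nat.pow_eq, Wf]
    rw [mul_zero, add_zero]
    push_cast
    rw [div_self (by positivity)]) (p - 1) (by
      rw [hl]
      simp only [Nat.sub_eq, Nat.mul_eq]
      omega)
  rw [show 0 + 1 + (p - 1) = p by omega] at hs
  exact hs

theorem wcN_spec0 (K : ClsI) (h : wcN K = true) :
    ∀ p ∈ Finset.Icc 3 (2 * K.toCls.M - 2), Wt K.toCls.M p K.toCls.rho0 K.toCls.del ≤ K.toCls.w0 p := by
  unfold wcN at h
  rw [Bool.and_eq_true, Bool.and_eq_true, Nat.beq_eq] at h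
  obtain ⟨⟨hl, -⟩, h1⟩ := h
  intro p hp
  rw [Finset.mem_Icc] at hp
  have hM : K.toCls.M = K.M := rfl
  rw [hM] at hp
  refine (Wt_le_Wf K.toCls.M p (show 0 ≤ (K.rho0 : ℝ) / 2 ^ (40 : ℕ) by (clear * -; positivity))
    (show 0 ≤ (K.del : ℝ) / 2 ^ (40 : ℕ) by (clear * -; positivity))).trans ?_
  have hw0 : Wf ((K.rho0 : ℝ) / 2 ^ (40 : ℕ)) ((K.del : ℝ) / 2 ^ (40 : ℕ)) 0 ≤ ((2 ^ K.k : ℕ) : ℝ) / 2 ^ (K.k + K.u * 0) := by
    simp only [Wf]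
    rw [mul_zero, add_zero]
    push_cast
    rw [div_self (by positivity)]
  have hw1 : Wf ((K.rho0 : ℝ) / 2 ^ (40 : ℕ)) ((K.del : ℝ) / 2 ^ (40 : ℕ)) (0 + 1) ≤ (wx1 K : ℝ) / 2 ^ (K.k + K.u * (0 + 1)) := by
    refine weight_step (xm := 0) (x := 2 ^ K.k) ?_ (by simp [Wx]) hw0
    unfold wx1
    rw [shiftRight_div]
    simp only [Nat.pow_eq, Nat.mul_eq, Nat.succ_eq_add_one, mul_zero, add_zero, zero_add, one_mul]
    exact (Nat.lt_mul_div_succ _ (by (clear * -; positivity))).le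
  have hx1 : Wx ((K.rho0 : ℝ) / 2 ^ (40 : ℕ)) ((K.del : ℝ) / 2 ^ (40 : ℕ)) 1 ≤ ((2 ^ K.k : ℕ) : ℝ) * 2 ^ K.u / 2 ^ (K.k + K.u * 1) := by
    show Wf ((K.rho0 : ℝ) / 2 ^ (40 : ℕ)) ((K.del : ℝ) / 2 ^ (40 : ℕ)) 0 ≤ _
    simp only [Wf]
    rw [mul_one, pow_add]
    push_cast
    rw [div_self (by (clear * -; positivity))]
  have hw2 : Wf ((K.rho0 : ℝ) / 2 ^ (40 : ℕ)) ((K.del : ℝ) / 2 ^ (40 : ℕ)) (1 + 1) ≤ (wx2 K : ℝ) / 2 ^ (K.k + K.u * (1 + 1)) := by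
    refine weight_step (xm := 2 ^ K.k) (x := wx1 K) ?_ hx1 hw1
    unfold wx2
    rw [shiftRight_div]
    generalize wx1 K = z
    simp only [Nat.pow_eq, Nat.mul_eq, Nat.add_eq, Nat.succ_eq_add_one]
    have h41 : (1 + 1) * 2 ^ (40 : ℕ) = 2 ^ (41 : ℕ) := by norm_num
    rw [h41]
    exact (Nat.lt_mul_div_succ _ (by (clear * -; positivity))).le
  have hx2 : Wx ((K.rho0 : ℝ) / 2 ^ (40 : ℕ)) ((K.del : ℝ) / 2 ^ (40 : ℕ)) 2 ≤ (wx1 K : ℝ) * 2 ^ K.u / 2 ^ (K.k + K.u * 2) := by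
    show Wf ((K.rho0 : ℝ) / 2 ^ (40 : ℕ)) ((K.del : ℝ) / 2 ^ (40 : ℕ)) 1 ≤ _
    refine hw1.trans (le_of_eq ?_)
    rw [show K.k + K.u * 2 = (K.k + K.u * (0 + 1)) + K.u by ring, pow_add 2 (K.k + K.u * (0 + 1)) K.u]
    field_simp
  obtain ⟨w, l, hwl⟩ : ∃ w l, K.wl = w :: l := by
    rcases hk : K.wl with _ | ⟨w, l⟩
    · rw [hk] at hl
      simp only [List.length_nil, Nat.sub_eq, Nat.mul_eq] at hl
      omega
    · exact ⟨w, l, rfl⟩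
  have hl' : l.length + 1 = 2 * K.M - 2 := by
    rw [hwl] at hl
    simpa using hl
  rw [hwl] at h1
  have hs := wc0_spec (k := K.k) l 2 (wx1 K) (wx2 K) h1 hx2 hw2 (p - 3) (by omega) (by
    simp only [Nat.sub_eq, Nat.mul_eq]
    omega)
  rw [show 2 + 1 + (p - 3) = p by omega] at hs
  refine hs.trans (le_of_eq ?_)
  show _ = ((K.wl.getD (p - 2) (0, 0)).2 : ℝ) / 2 ^ (K.k + K.u * p)
  rw [hwl, show p - 2 = (p - 3) + 1 by omega, List.getD_cons_succ]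

theorem FN_eq (M : ℕ) : (FN M : ℝ) = FR M := by
  unfold FN FR
  rw [fctN_eq]
  simp only [Nat.mul_eq, Nat.pow_eq, Nat.add_eq]
  push_cast
  ring

theorem finE_spec {s u h M g e : ℕ} (hf : finE s u h (FN M) g e = true) :
    ((s : ℝ) + 4 * u * h) / 2 ^ (20 : ℕ) + (g : ℝ) / FR M ≤ e := by
  unfold finE at hf
  rw [Nat.ble_eq] at hf
  simp only [Nat.mul_eq, Nat.pow_eq, Nat.add_eq] at hf
  have h1 : ((s : ℝ) + 4 * u * h) * (FN M : ℝ) + (g : ℝ) * 2 ^ (20 : ℕ) ≤ (e : ℝ) * (FN M : ℝ) * 2 ^ (20 : ℕ) := by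
    exact_mod_cast hf
  rw [FN_eq] at h1
  have hF := FR_pos M
  have h2 : ((s : ℝ) + 4 * u * h) / 2 ^ (20 : ℕ) + (g : ℝ) / FR M =
      (((s : ℝ) + 4 * u * h) * FR M + (g : ℝ) * 2 ^ (20 : ℕ)) / (FR M * 2 ^ (20 : ℕ)) := by
    field_simp
  rw [h2, div_le_iff₀ (by positivity)]
  linarith only [h1]

theorem ecN_spec (K : ClsI) (h : ecN K = true) :
    (((bs K.S K.R K.n0 (h1 K) 0 ((K.N + 7) / 8) : ℕ) : ℝ) +
      4 * (uS K.S K.R K.N) * (h1 K (K.N - K.n0))) / 2 ^ (20 : ℕ) +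
      ((∑ r ∈ range K.N, gN1 K (expU K.rho2) r (uS K.S K.R r) +
        4 * gN1 K (expU K.rho2) K.N (uS K.S K.R K.N) : ℕ) : ℝ) / FR K.M ≤ K.e1 ∧
    (((bs K.S K.R K.n0 (h0 K) 0 ((K.N + 7) / 8) : ℕ) : ℝ) +
      4 * (uS K.S K.R K.N) * (h0 K (K.N - K.n0))) / 2 ^ (20 : ℕ) +
      ((∑ r ∈ range K.N, gN0 K (expU K.rho0) r (uS K.S K.R r) +
        4 * gN0 K (expU K.rho0) K.N (uS K.S K.R K.N) : ℕ) : ℝ) / FR K.M ≤ K.e0 := by
  unfold ecN at h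
  have e1 := remL_eq K.S K.R (gN1 K (expU K.rho2)) (gN0 K (expU K.rho0)) K.N 0 0 0 (fun uNe g1 g0 =>
    outer K.S K.R K.n0 (h1 K) (h0 K) (Nat.div (Nat.add K.N 7) 8) 0 (Nat.pow 2 K.S) 0 0 0 (fun s1 s0 =>
      finE s1 uNe (h1 K (Nat.sub K.N K.n0)) (FN K.M) g1 K.e1 &&
      finE s0 uNe (h0 K (Nat.sub K.N K.n0)) (FN K.M) g0 K.e0))
  have e0 : uS K.S K.R 0 = Nat.pow 2 K.S := rfl
  rw [e0] at e1
  rw [e1] at h
  have e2 := outer_eq K.S K.R K.n0 (h1 K) (h0 K) (Nat.div (Nat.add K.N 7) 8) 0 0 0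
  have e3 : eS K.S K.R 0 = 0 := rfl
  rw [e0, e3] at e2
  rw [e2] at h
  rw [Bool.and_eq_true] at h
  obtain ⟨a1, a2⟩ := h
  have b1 := finE_spec a1
  have b2 := finE_spec a2
  simp only [zero_add, Nat.sub_eq] at b1 b2
  exact ⟨b1, b2⟩

/-- **Soundness of the class check.** -/
theorem clsOK_of_check {K : ClsI} (h : clsCheck K = true) : ClsOK K.toCls := by
  unfold clsCheck at h
  rw [Bool.and_eq_true, Bool.and_eq_true, Bool.and_eq_true, Bool.and_eq_true, Bool.and_eq_true,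
    Bool.and_eq_true, Bool.and_eq_true] at h
  obtain ⟨⟨⟨⟨⟨⟨⟨c1, c2⟩, c3⟩, c4⟩, c5⟩, c6⟩, c7⟩, c8⟩ := h
  rw [Nat.ble_eq] at c1 c2 c3 c4 c5
  simp only [Nat.mul_eq, Nat.pow_eq, Nat.succ_eq_add_one] at c2 c4 c5
  have hr2 : K.rho2 < 2 ^ (56 : ℕ) := by omega
  have hr0 : K.rho0 < 2 ^ (56 : ℕ) := by omega
  have hn : K.n0 < K.N := by omega
  obtain ⟨d1, d0⟩ := ecN_spec K c8
  have hm : K.N ≤ 8 * ((K.N + 7) / 8) := by omega
  have hJ : absd K.n0 K.N = K.N - K.n0 := by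
    rw [absd_eq]
    omega
  have hrho0 : (0 : ℝ) ≤ K.toCls.rho0 := by show 0 ≤ (K.rho0 : ℝ) / 2 ^ (40 : ℕ); (clear * -; positivity)
  have hrho2 : (0 : ℝ) ≤ K.toCls.rho2 := by show 0 ≤ (K.rho2 : ℝ) / 2 ^ (40 : ℕ); (clear * -; positivity)
  have hdel : (0 : ℝ) ≤ K.toCls.del := by show 0 ≤ (K.del : ℝ) / 2 ^ (40 : ℕ); (clear * -; positivity)
  have hF := FR_pos K.M
  refine ⟨c1, ?_, hdel, hrho0, ?_, ratN_spec K c7 hn hr2, wcN_spec1 K c6, wcN_spec0 K c6, ?_, ?_⟩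
  · show 8 * (K.N : ℝ) * ((K.R : ℝ) + 1) ≤ 2 ^ K.S
    exact_mod_cast c5
  · show (K.rho0 : ℝ) / 2 ^ (40 : ℕ) ≤ (K.rho2 : ℝ) / 2 ^ (40 : ℕ)
    have : (K.rho0 : ℝ) ≤ K.rho2 := by exact_mod_cast c3
    exact div_le_div_of_nonneg_right this (by positivity)
  · show ∑ p ∈ Finset.Icc 1 (2 * K.M - 2), K.toCls.w2 p * errM (2 ^ K.S) K.R K.n0 K.N (p + 1) +
      2 ^ K.S * remB K.R K.n0 K.N 1 K.M K.toCls.rho2 K.toCls.del + errM (2 ^ K.S) K.R K.n0 K.N 1 ≤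
        (K.e1 : ℝ)
    refine le_trans ?_ d1
    have s1 := err1_eq K (2 ^ K.S)
    have s2 := bs_spec (S := K.S) (R := K.R) (n0 := K.n0) (H := H1 K) hm (fun j j' => h1_mono K) (H1_le K)
      (fun x hx => H1_nonneg K hx)
    have s3 : (2 : ℝ) ^ K.S * (4 * ((K.R : ℝ) ^ K.N / (K.N.factorial : ℝ))) * H1 K |jj K.n0 K.N| ≤
        4 * (uS K.S K.R K.N) * ((h1 K (K.N - K.n0) : ℝ) / 2 ^ (20 : ℕ)) := by
      rw [abs_jj, hJ]
      have t1 := uS_spec K.S K.R K.N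
      have t2 := H1_le K (K.N - K.n0)
      have t3 : 0 ≤ H1 K ((K.N - K.n0 : ℕ) : ℝ) := H1_nonneg K (Nat.cast_nonneg _)
      calc (2 : ℝ) ^ K.S * (4 * ((K.R : ℝ) ^ K.N / (K.N.factorial : ℝ))) * H1 K ((K.N - K.n0 : ℕ) : ℝ)
          = 4 * ((2 : ℝ) ^ K.S * ((K.R : ℝ) ^ K.N / (K.N.factorial : ℝ))) * H1 K ((K.N - K.n0 : ℕ) : ℝ) := by
            ring
        _ ≤ 4 * (uS K.S K.R K.N) * ((h1 K (K.N - K.n0) : ℝ) / 2 ^ (20 : ℕ)) := by
            refine mul_le_mul ?_ t2 t3 (by (clear * -; positivity))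
            exact mul_le_mul_of_nonneg_left t1 (by norm_num)
    have s4 : (2 : ℝ) ^ K.S * remB K.R K.n0 K.N 1 K.M K.toCls.rho2 K.toCls.del ≤
        ((∑ r ∈ range K.N, gN1 K (expU K.rho2) r (uS K.S K.R r) +
        4 * gN1 K (expU K.rho2) K.N (uS K.S K.R K.N) : ℕ) : ℝ) / FR K.M := by
      rw [le_div_iff₀ hF]
      unfold remB
      rw [mul_add, add_mul, Finset.mul_sum, Finset.sum_mul, Nat.cast_add, Nat.cast_sum, Nat.cast_mul]
      refine add_le_add (Finset.sum_le_sum fun n _ => gN1_spec K hr2 n) ?_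
      have := gN1_spec K hr2 K.N
      push_cast
      linarith only [this]
    have s5 : (((bs K.S K.R K.n0 (h1 K) 0 ((K.N + 7) / 8) : ℕ) : ℝ) +
      4 * (uS K.S K.R K.N) * (h1 K (K.N - K.n0))) / 2 ^ (20 : ℕ) =
      ((bs K.S K.R K.n0 (h1 K) 0 ((K.N + 7) / 8) : ℕ) : ℝ) / 2 ^ (20 : ℕ) +
        4 * (uS K.S K.R K.N) * ((h1 K (K.N - K.n0) : ℝ) / 2 ^ (20 : ℕ)) := by ring
    rw [s5]
    linarith only [s1, s2, s3, s4]
  · show errM (2 ^ K.S) K.R K.n0 K.N 0 + (K.toCls.rho0 + K.toCls.rho2) * errM (2 ^ K.S) K.R K.n0 K.N 1 +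
      (K.toCls.del / 2 + K.toCls.rho0 ^ (2 : ℕ) / 2) * errM (2 ^ K.S) K.R K.n0 K.N 2 +
      ∑ p ∈ Finset.Icc 3 (2 * K.M - 2), K.toCls.w0 p * errM (2 ^ K.S) K.R K.n0 K.N p +
      2 ^ K.S * remB K.R K.n0 K.N 0 K.M K.toCls.rho0 K.toCls.del ≤ (K.e0 : ℝ)
    refine le_trans ?_ d0
    have s1 := err0_eq K (2 ^ K.S)
    have s2 := bs_spec (S := K.S) (R := K.R) (n0 := K.n0) (H := H0 K) hm (fun j j' => h0_mono K) (H0_le K)
      (fun x hx => H0_nonneg K hx)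
    have s3 : (2 : ℝ) ^ K.S * (4 * ((K.R : ℝ) ^ K.N / (K.N.factorial : ℝ))) * H0 K |jj K.n0 K.N| ≤
        4 * (uS K.S K.R K.N) * ((h0 K (K.N - K.n0) : ℝ) / 2 ^ (20 : ℕ)) := by
      rw [abs_jj, hJ]
      have t1 := uS_spec K.S K.R K.N
      have t2 := H0_le K (K.N - K.n0)
      have t3 : 0 ≤ H0 K ((K.N - K.n0 : ℕ) : ℝ) := H0_nonneg K (Nat.cast_nonneg _)
      calc (2 : ℝ) ^ K.S * (4 * ((K.R : ℝ) ^ K.N / (K.N.factorial : ℝ))) * H0 K ((K.N - K.n0 : ℕ) : ℝ)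
          = 4 * ((2 : ℝ) ^ K.S * ((K.R : ℝ) ^ K.N / (K.N.factorial : ℝ))) * H0 K ((K.N - K.n0 : ℕ) : ℝ) := by
            ring
        _ ≤ 4 * (uS K.S K.R K.N) * ((h0 K (K.N - K.n0) : ℝ) / 2 ^ (20 : ℕ)) := by
            refine mul_le_mul ?_ t2 t3 (by (clear * -; positivity))
            exact mul_le_mul_of_nonneg_left t1 (by norm_num)
    have s4 : (2 : ℝ) ^ K.S * remB K.R K.n0 K.N 0 K.M K.toCls.rho0 K.toCls.del ≤
        ((∑ r ∈ range K.N, gN0 K (expU K.rho0) r (uS K.S K.R r) +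
        4 * gN0 K (expU K.rho0) K.N (uS K.S K.R K.N) : ℕ) : ℝ) / FR K.M := by
      rw [le_div_iff₀ hF]
      unfold remB
      rw [mul_add, add_mul, Finset.mul_sum, Finset.sum_mul, Nat.cast_add, Nat.cast_sum, Nat.cast_mul]
      refine add_le_add (Finset.sum_le_sum fun n _ => gN0_spec K hr0 n) ?_
      have := gN0_spec K hr0 K.N
      push_cast
      linarith only [this]
    have s5 : (((bs K.S K.R K.n0 (h0 K) 0 ((K.N + 7) / 8) : ℕ) : ℝ) +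
      4 * (uS K.S K.R K.N) * (h0 K (K.N - K.n0))) / 2 ^ (20 : ℕ) =
      ((bs K.S K.R K.n0 (h0 K) 0 ((K.N + 7) / 8) : ℕ) : ℝ) / 2 ^ (20 : ℕ) +
        4 * (uS K.S K.R K.N) * ((h0 K (K.N - K.n0) : ℝ) / 2 ^ (20 : ℕ)) := by ring
    rw [s5]
    linarith only [s1, s2, s3, s4]

end SokamFU

end

/-! ### Lib_MP_af4de1_fu.Good -/

section
/-!
# The complete class check
-/

set_option autoImplicit false

namespace SokamFU

/-- all computable conditions on a class -/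
def goodK (K : ClsI) : Bool := okE K && clsCheck K

theorem goodK_spec : ∀ K : ClsI, goodK K = true → okE K = true ∧ ClsOK K.toCls := by
  intro K h
  unfold goodK at h
  rw [Bool.and_eq_true] at h
  exact ⟨h.1, clsOK_of_check h.2⟩

end SokamFU

end

/-! ### Lib_MP_af4de1_fu.T.Ck6 -/

section
set_option autoImplicit false

namespace SokamFU

theorem ck6 : blkOK goodK blk30 = true ∧ blkOK goodK blk31 = true ∧ blkOK goodK blk32 = true ∧ blkOK goodK blk33 = true ∧ blkOK goodK blk34 = true := by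
  refine ⟨by decide +kernel, ?_⟩
  refine ⟨by decide +kernel, ?_⟩
  refine ⟨by decide +kernel, ?_⟩
  refine ⟨by decide +kernel, ?_⟩
  decide +kernel

theorem blk30_ok : blkOK goodK blk30 = true := ck6.1

theorem blk31_ok : blkOK goodK blk31 = true := ck6.2.1

theorem blk32_ok : blkOK goodK blk32 = true := ck6.2.2.1

theorem blk33_ok : blkOK goodK blk33 = true := ck6.2.2.2.1

theorem blk34_ok : blkOK goodK blk34 = true := ck6.2.2.2.2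

end SokamFU

end

/-! ### Lib_MP_af4de1_fu.T.Ck8 -/

section
set_option autoImplicit false

namespace SokamFU

theorem ck8 : blkOK goodK blk40 = true ∧ blkOK goodK blk41 = true ∧ blkOK goodK blk42 = true ∧ blkOK goodK blk43 = true ∧ blkOK goodK blk44 = true := by
  refine ⟨by decide +kernel, ?_⟩
  refine ⟨by decide +kernel, ?_⟩
  refine ⟨by decide +kernel, ?_⟩
  refine ⟨by decide +kernel, ?_⟩
  decide +kernel

theorem blk40_ok : blkOK goodK blk40 = true := ck8.1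

theorem blk41_ok : blkOK goodK blk41 = true := ck8.2.1

theorem blk42_ok : blkOK goodK blk42 = true := ck8.2.2.1

theorem blk43_ok : blkOK goodK blk43 = true := ck8.2.2.2.1

theorem blk44_ok : blkOK goodK blk44 = true := ck8.2.2.2.2

end SokamFU

end

/-! ### Lib_MP_af4de1_fu.T.Ck9 -/

section
set_option autoImplicit false

namespace SokamFU

theorem ck9 : blkOK goodK blk45 = true ∧ blkOK goodK blk46 = true ∧ blkOK goodK blk47 = true ∧ blkOK goodK blk48 = true ∧ blkOK goodK blk49 = true := by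
  refine ⟨by decide +kernel, ?_⟩
  refine ⟨by decide +kernel, ?_⟩
  refine ⟨by decide +kernel, ?_⟩
  refine ⟨by decide +kernel, ?_⟩
  decide +kernel

theorem blk45_ok : blkOK goodK blk45 = true := ck9.1

theorem blk46_ok : blkOK goodK blk46 = true := ck9.2.1

theorem blk47_ok : blkOK goodK blk47 = true := ck9.2.2.1

theorem blk48_ok : blkOK goodK blk48 = true := ck9.2.2.2.1

theorem blk49_ok : blkOK goodK blk49 = true := ck9.2.2.2.2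

end SokamFU

end

/-! ### Lib_MP_af4de1_fu.T.Ck10 -/

section
set_option autoImplicit false

namespace SokamFU

theorem ck10 : blkOK goodK blk50 = true ∧ blkOK goodK blk51 = true ∧ blkOK goodK blk52 = true ∧ blkOK goodK blk53 = true ∧ blkOK goodK blk54 = true := by
  refine ⟨by decide +kernel, ?_⟩
  refine ⟨by decide +kernel, ?_⟩
  refine ⟨by decide +kernel, ?_⟩
  refine ⟨by decide +kernel, ?_⟩
  decide +kernel

theorem blk50_ok : blkOK goodK blk50 = true := ck10.1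

theorem blk51_ok : blkOK goodK blk51 = true := ck10.2.1

theorem blk52_ok : blkOK goodK blk52 = true := ck10.2.2.1

theorem blk53_ok : blkOK goodK blk53 = true := ck10.2.2.2.1

theorem blk54_ok : blkOK goodK blk54 = true := ck10.2.2.2.2

end SokamFU

end

/-! ### Lib_MP_af4de1_fu.T.Ck13 -/

section
set_option autoImplicit false

namespace SokamFU

theorem ck13 : blkOK goodK blk65 = true ∧ blkOK goodK blk66 = true ∧ blkOK goodK blk67 = true ∧ blkOK goodK blk68 = true ∧ blkOK goodK blk69 = true := by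
  refine ⟨by decide +kernel, ?_⟩
  refine ⟨by decide +kernel, ?_⟩
  refine ⟨by decide +kernel, ?_⟩
  refine ⟨by decide +kernel, ?_⟩
  decide +kernel

theorem blk65_ok : blkOK goodK blk65 = true := ck13.1

theorem blk66_ok : blkOK goodK blk66 = true := ck13.2.1

theorem blk67_ok : blkOK goodK blk67 = true := ck13.2.2.1

theorem blk68_ok : blkOK goodK blk68 = true := ck13.2.2.2.1

theorem blk69_ok : blkOK goodK blk69 = true := ck13.2.2.2.2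

end SokamFU

end

/-! ### Lib_MP_af4de1_fu.T.Ck15 -/

section
set_option autoImplicit false

namespace SokamFU

theorem ck15 : blkOK goodK blk75 = true ∧ blkOK goodK blk76 = true := by
  refine ⟨by decide +kernel, ?_⟩
  decide +kernel

theorem blk75_ok : blkOK goodK blk75 = true := ck15.1

theorem blk76_ok : blkOK goodK blk76 = true := ck15.2

end SokamFU

end
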