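import Pool.Agent.Lib_MP_af4de1_zy.Z51
import Pool.Agent.Lib_MP_af4de1_zy.Z52
import Pool.Agent.Lib_MP_af4de1_zy.Z77

/-! ### Lib_MP_af4de1_v3.TailDef -/

section
/-!
# Tails of regime I: the integral estimate

`JI`: the only integral estimate needed; `PTail1s` follows from it (`TailRed.lean`).
-/

set_option autoImplicit false

namespace SokamV3T

open Real MeasureTheory Set

/-- the weighted integrand on the half line of sign `ε` -/
noncomputable def jf (x y d ε s : ℝ) : ℝ :=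
  ‖SokamPG.pv (1 + x)⁻¹ (min (137 / 25) (1 + x)) s‖ *
    exp (69 / 100 * |s - 2 * π| - d * hq x y ε s)

/-- the weighted integral over the half line of sign `ε` -/
noncomputable def JJ (x y d ε : ℝ) : ℝ := ∫ s in Ioi (3 / 2 : ℝ), jf x y d ε s

/-- the estimate to be proved -/
structure JI (x y d : ℝ) : Prop where
  ip : IntegrableOn (jf x y d 1) (Ioi (3 / 2))
  im : IntegrableOn (jf x y d (-1)) (Ioi (3 / 2))
  le : d * √d * (JJ x y d 1 + JJ x y d (-1)) ≤
    12 / 10000 * √(√((1 + y) ^ (2 : ℕ) + x ^ (2 : ℕ))) * exp y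

end SokamV3T

end

/-! ### Lib_MP_af4de1_v3.TailQ -/

section
namespace SokamPG
end SokamPG
/-!
# Tails of regime I: the integrals
-/

set_option autoImplicit false

namespace SokamV3T

open Real MeasureTheory Set SokamPG

/-! ### General -/

theorem dom_int {f b : ℝ → ℝ} {S : Set ℝ} (hS : MeasurableSet S) (hf : Measurable f)
    (hf0 : ∀ s, 0 ≤ f s) (hb : IntegrableOn b S) (h : ∀ s ∈ S, f s ≤ b s) :
    IntegrableOn f S ∧ ∫ s in S, f s ≤ ∫ s in S, b s := by
  have h1 : ∀ᵐ s ∂volume.restrict S, ‖f s‖ ≤ b s := by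
    refine (ae_restrict_iff' hS).2 (ae_of_all _ fun s hs => ?_)
    rw [Real.norm_of_nonneg (hf0 s)]
    exact h s hs
  have h2 : IntegrableOn f S := Integrable.mono' hb hf.aestronglyMeasurable h1
  exact ⟨h2, setIntegral_mono_on h2 hb hS h⟩

theorem norm_pv_cases (c s1 s : ℝ) : ‖pv c s1 s‖ = if |s| < s1 then √(1 + c ^ (2 : ℕ)) else 1 := by
  unfold pv
  split_ifs with h
  · rw [Complex.norm_def, Complex.normSq_apply]
    congr 1
    simp
    ring
  · exact norm_one

theorem c_le {x : ℝ} (hx : 0 ≤ x) : 0 ≤ (1 + x)⁻¹ ∧ (1 + x)⁻¹ ≤ 1 := by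
  have h : (0 : ℝ) < 1 + x := by linarith only [hx]
  exact ⟨(inv_pos.2 h).le, inv_le_one_of_one_le₀ (by linarith only [hx])⟩

theorem pv_le {x s : ℝ} (hx : 0 ≤ x) :
    ‖pv (1 + x)⁻¹ (min (137 / 25) (1 + x)) s‖ ≤ 14143 / 10000 := by
  obtain ⟨h0, h1⟩ := c_le hx
  rw [norm_pv_cases]
  split_ifs
  · apply Real.sqrt_le_iff.2
    exact ⟨by norm_num, by nlinarith only [h0, h1]⟩
  · norm_num

theorem pv_le3 {x s : ℝ} (hx : 3 ≤ x) :
    ‖pv (1 + x)⁻¹ (min (137 / 25) (1 + x)) s‖ ≤ 1031 / 1000 := by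
  have h0 := (c_le (by linarith : (0 : ℝ) ≤ x)).1
  have h1 : (1 + x)⁻¹ ≤ 1 / 4 := by
    rw [inv_le_comm₀ (by linarith only [hx]) (by norm_num)]
    linarith only [hx]
  rw [norm_pv_cases]
  split_ifs
  · apply Real.sqrt_le_iff.2
    exact ⟨by norm_num, by nlinarith only [h0, h1]⟩
  · norm_num

theorem pv_one {x s : ℝ} (hs : 137 / 25 ≤ s) :
    ‖pv (1 + x)⁻¹ (min (137 / 25) (1 + x)) s‖ = 1 := by
  rw [norm_pv_cases, if_neg]
  rw [not_lt, abs_of_nonneg (by linarith only [hs])]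
  exact (min_le_left _ _).trans hs

theorem continuous_hq (x y ε : ℝ) : Continuous (hq x y ε) := by
  unfold hq SokamF1G.Ha ab
  fun_prop

theorem meas_jf (x y d ε : ℝ) : Measurable (jf x y d ε) := by
  have h1 : jf x y d ε = fun s => (if |s| < min (137 / 25) (1 + x) then √(1 + (1 + x)⁻¹ ^ (2 : ℕ)) else 1) *
      exp (69 / 100 * |s - 2 * π| - d * hq x y ε s) := by
    funext s
    unfold jf
    rw [norm_pv_cases]
  rw [h1]
  refine Measurable.mul (Measurable.ite ?_ measurable_const measurable_const) ?_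
  · exact measurableSet_lt measurable_norm measurable_const
  · have := continuous_hq x y ε
    have h2 : Continuous fun s => exp (69 / 100 * |s - 2 * π| - d * hq x y ε s) := by fun_prop
    exact h2.measurable

theorem jf_nonneg (x y d ε s : ℝ) : 0 ≤ jf x y d ε s := mul_nonneg (norm_nonneg _) (exp_pos _).le

/-- `d^(3/2) e^(-d h)` decreases -/
theorem d_mono {d d1 h : ℝ} (h0 : 0 < d1) (hd : d1 ≤ d) (hh : 3 / 2 ≤ d1 * h) :
    d * √d * exp (-(d * h)) ≤ d1 * √d1 * exp (-(d1 * h)) := by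
  set q := d / d1 with hq
  have hq1 : 1 ≤ q := by rw [hq, le_div_iff₀ h0]; linarith only [h0, hd]
  have hq0 : 0 < q := by linarith only [hq1]
  have hdq : d = d1 * q := by rw [hq]; field_simp
  have h1 : q ≤ exp (q - 1) := by have := add_one_le_exp (q - 1); linarith only [this]
  have h2 : √q ≤ exp ((q - 1) / 2) := by
    rw [Real.sqrt_le_left (exp_pos _).le, ← exp_nat_mul]
    have : ((2 : ℕ) : ℝ) * ((q - 1) / 2) = q - 1 := by push_cast; ring
    rw [this]
    exact h1
  have h3 : q * √q ≤ exp ((q - 1) * (3 / 2)) := by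
    calc q * √q ≤ exp (q - 1) * exp ((q - 1) / 2) := by gcongr
      _ = exp ((q - 1) * (3 / 2)) := by rw [← exp_add]; congr 1; ring
  have h4 : exp ((q - 1) * (3 / 2)) ≤ exp ((q - 1) * (d1 * h)) :=
    exp_le_exp.2 (mul_le_mul_of_nonneg_left hh (by linarith only [hq1]))
  have h5 : √d = √d1 * √q := by rw [hdq, Real.sqrt_mul h0.le]
  have h6 : exp (-(d * h)) = exp (-(d1 * h)) * exp (-((q - 1) * (d1 * h))) := by
    rw [← exp_add, hdq]
    congr 1
    ring
  rw [h5, h6]
  calc d * (√d1 * √q) * (exp (-(d1 * h)) * exp (-((q - 1) * (d1 * h))))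
      = d1 * √d1 * exp (-(d1 * h)) * (q * √q * exp (-((q - 1) * (d1 * h)))) := by
        rw [hdq]; ring
    _ ≤ d1 * √d1 * exp (-(d1 * h)) * (exp ((q - 1) * (d1 * h)) * exp (-((q - 1) * (d1 * h)))) := by
        have := h3.trans h4
        gcongr
    _ = d1 * √d1 * exp (-(d1 * h)) := by rw [← exp_add]; simp

/-- reduction to `y'`, `d1` -/
theorem jf_red {x y y' d d1 ε s : ℝ} (h0 : 0 < d1) (hd : d1 ≤ d)
    (hy : hq x y' ε s ≤ hq x y ε s) (hh : 3 / 2 ≤ d1 * hq x y' ε s) :
    d * √d * jf x y d ε s ≤ d1 * √d1 * jf x y' d1 ε s := by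
  have hd0 : 0 < d := by linarith only [h0, hd]
  have h1 := d_mono h0 hd hh
  have h2 : exp (-(d * hq x y ε s)) ≤ exp (-(d * hq x y' ε s)) := by
    apply exp_le_exp.2
    have := mul_le_mul_of_nonneg_left hy hd0.le
    linarith only [this]
  unfold jf
  have e : ∀ h d : ℝ, exp (69 / 100 * |s - 2 * π| - d * h) =
      exp (69 / 100 * |s - 2 * π|) * exp (-(d * h)) := by
    intro h d
    rw [← exp_add]
    congr 1
  rw [e, e]
  set p := ‖pv (1 + x)⁻¹ (min (137 / 25) (1 + x)) s‖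
  have hp : 0 ≤ p := norm_nonneg _
  set w := exp (69 / 100 * |s - 2 * π|)
  have hw : 0 < w := exp_pos _
  calc d * √d * (p * (w * exp (-(d * hq x y ε s)))) = p * w * (d * √d * exp (-(d * hq x y ε s))) := by
        ring
    _ ≤ p * w * (d * √d * exp (-(d * hq x y' ε s))) := by gcongr
    _ ≤ p * w * (d1 * √d1 * exp (-(d1 * hq x y' ε s))) := by gcongr
    _ = _ := by ring

/-- reduction of the integrals -/
theorem jj_red {x y y' d d1 ε : ℝ} (h0 : 0 < d1) (hd : d1 ≤ d)
    (h : ∀ s, 3 / 2 ≤ s → hq x y' ε s ≤ hq x y ε s ∧ 3 / 2 ≤ d1 * hq x y' ε s)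
    (hi : IntegrableOn (jf x y' d1 ε) (Ioi (3 / 2))) :
    IntegrableOn (jf x y d ε) (Ioi (3 / 2)) ∧
      d * √d * JJ x y d ε ≤ d1 * √d1 * JJ x y' d1 ε := by
  have hd0 : 0 < d := by linarith only [h0, hd]
  have hc : 0 < d * √d := mul_pos hd0 (Real.sqrt_pos.2 hd0)
  have h1 := dom_int (f := fun s => d * √d * jf x y d ε s) (b := fun s => d1 * √d1 * jf x y' d1 ε s)
    (S := Ioi (3 / 2)) measurableSet_Ioi ((meas_jf x y d ε).const_mul _)
    (fun s => mul_nonneg hc.le (jf_nonneg x y d ε s)) (hi.const_mul _) (fun s hs => by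
      obtain ⟨h2, h3⟩ := h s (le_of_lt hs)
      exact jf_red h0 hd h2 h3)
  refine ⟨?_, ?_⟩
  · have h2 : IntegrableOn (fun s => (d * √d)⁻¹ * (d * √d * jf x y d ε s)) (Ioi (3 / 2)) :=
      h1.1.const_mul (d * √d)⁻¹
    refine h2.congr_fun (fun s _ => ?_) measurableSet_Ioi
    simp only
    rw [← mul_assoc, inv_mul_cancel₀ hc.ne', one_mul]
  · have h3 := h1.2
    rw [integral_const_mul, integral_const_mul] at h3
    exact h3

/-! ### Beyond `137/25` -/

theorem ab_big {x s : ℝ} (hs : 137 / 25 ≤ s) : ab x s = al x := by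
  unfold ab al
  rw [min_eq_left ((min_le_left _ _).trans hs)]

theorem al_pos {x : ℝ} (hx : 0 ≤ x) : 0 < al x := by
  unfold al
  have h1 : 0 < 1 + x := by linarith only [hx]
  exact div_pos (lt_min (by norm_num) h1) h1

theorem hq_big {x m ε s : ℝ} (hε : ε = 1 ∨ ε = -1) (hs : 137 / 25 ≤ s) :
    hq x (ε * m) ε s = (al x - m) * s + x * (1 + ε * al x) -
      exp (ε * al x) * (x * cos s - m * sin s) := by
  unfold hq SokamF1G.Ha
  rw [ab_big hs]
  rcases hε with h | h
  · subst h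
    simp only [one_mul]
    ring
  · subst h
    simp only [neg_one_mul, sin_neg, cos_neg]
    ring

/-- the exact form near the lump: `F + μ (s - c0) + κ (1 - cos (s - c0))` -/
theorem hq_lump {x m d ε s : ℝ} (hx : 0 < x) (hε : ε = 1 ∨ ε = -1) (hs : 137 / 25 ≤ s) :
    d * hq x (ε * m) ε s =
      d * ((al x - m) * (2 * π - arctan (m / x)) + x * (1 + ε * al x) -
        exp (ε * al x) * √(x ^ (2 : ℕ) + m ^ (2 : ℕ))) +
      d * (al x - m) * (s - (2 * π - arctan (m / x))) +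
      d * (exp (ε * al x) * √(x ^ (2 : ℕ) + m ^ (2 : ℕ))) * (1 - cos (s - (2 * π - arctan (m / x)))) := by
  rw [hq_big hε hs]
  have hK : 0 < √(x ^ (2 : ℕ) + m ^ (2 : ℕ)) := sqrt_pos.2 (by (clear * - hx; positivity))
  have e0 : √(1 + (m / x) ^ (2 : ℕ)) = √(x ^ (2 : ℕ) + m ^ (2 : ℕ)) / x := by
    rw [eq_div_iff hx.ne', ← Real.sqrt_sq hx.le, ← Real.sqrt_mul (by (clear * -; positivity)), Real.sqrt_sq hx.le]
    congr 1
    field_simp
  have e1 : √(x ^ (2 : ℕ) + m ^ (2 : ℕ)) * cos (arctan (m / x)) = x := by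
    rw [cos_arctan, e0]
    field_simp
  have e2 : √(x ^ (2 : ℕ) + m ^ (2 : ℕ)) * sin (arctan (m / x)) = m := by
    rw [sin_arctan, e0]
    field_simp
  have e3 : cos (s - (2 * π - arctan (m / x))) = cos (s + arctan (m / x)) := by
    have : s - (2 * π - arctan (m / x)) = s + arctan (m / x) - 2 * π := by ring
    rw [this, cos_sub_two_pi]
  have e4 : √(x ^ (2 : ℕ) + m ^ (2 : ℕ)) * cos (s + arctan (m / x)) = x * cos s - m * sin s := by
    rw [cos_add]
    calc √(x ^ (2 : ℕ) + m ^ (2 : ℕ)) * (cos s * cos (arctan (m / x)) - sin s * sin (arctan (m / x)))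
        = (√(x ^ (2 : ℕ) + m ^ (2 : ℕ)) * cos (arctan (m / x))) * cos s -
          (√(x ^ (2 : ℕ) + m ^ (2 : ℕ)) * sin (arctan (m / x))) * sin s := by ring
      _ = x * cos s - m * sin s := by rw [e1, e2]
  rw [e3, ← e4]
  ring

theorem arctan_le {t : ℝ} (ht : 0 ≤ t) : arctan t ≤ t := by
  have h := Real.arctan_mem_Ioo t
  by_contra hc
  push Not at hc
  have h0 : 0 ≤ arctan t := arctan_nonneg.2 ht
  have h1 : arctan t ≤ tan (arctan t) := by
    rcases h0.eq_or_lt with h2 | h2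
    · rw [← h2, tan_zero]
    · exact (lt_tan h2 h.2).le
  rw [tan_arctan] at h1
  linarith only [hc, h1]

theorem sqrt_K_le {x m : ℝ} (hx : 0 < x) : √(x ^ (2 : ℕ) + m ^ (2 : ℕ)) ≤ x + m ^ (2 : ℕ) / (2 * x) := by
  apply sqrt_le_iff.2
  refine ⟨by positivity, ?_⟩
  have e : (x + m ^ (2 : ℕ) / (2 * x)) ^ (2 : ℕ) = x ^ (2 : ℕ) + m ^ (2 : ℕ) + (m ^ (2 : ℕ) / (2 * x)) ^ (2 : ℕ) := by
    field_simp
    ring
  rw [e]
  nlinarith only []

theorem x_le_K {x m : ℝ} (hx : 0 ≤ x) : x ≤ √(x ^ (2 : ℕ) + m ^ (2 : ℕ)) :=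
  le_sqrt_of_sq_le (by nlinarith [sq_nonneg m])

/-- the lump: bound for the integral beyond `137/25`, and the height there -/
theorem big_part {x m d ε : ℝ} (hx : 3 ≤ x) (hm0 : 0 ≤ m) (hm1 : m ≤ 53 / 100)
    (hε : ε = 1 ∨ ε = -1) (hd : 0 < d) (hμ : 11 / 5 ≤ d * (al x - m))
    (hκ : 10 ≤ d * (exp (ε * al x) * x)) :
    IntegrableOn (jf x (ε * m) d ε) (Ioi (137 / 25)) ∧
    ∫ s in Ioi (137 / 25 : ℝ), jf x (ε * m) d ε s ≤
      69 / 20 * exp (-Gq x m d ε) / √(exp (ε * al x) * x * d) ∧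
    ∀ s, 137 / 25 ≤ s → Gq x m d ε ≤ d * hq x (ε * m) ε s := by
  have hx0 : 0 < x := by linarith only [hx]
  have hE := exp_pos (ε * al x)
  have hp := pi_gt_d2
  have hp2 := pi_lt_d2
  have hal : 0 ≤ al x - m := by
    by_contra hc
    push Not at hc
    have := mul_neg_of_pos_of_neg hd hc
    linarith only [hμ, this]
  set ψ := arctan (m / x) with hψ
  have hmx : 0 ≤ m / x := by (clear * - hm0 hx; positivity)
  have hmx2 : m / x ≤ 53 / 300 := by
    rw [div_le_iff₀ hx0]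
    linarith only [hx, hm1]
  have hψ0 : 0 ≤ ψ := arctan_nonneg.2 hmx
  have hψ1 : ψ ≤ m / x := arctan_le hmx
  set K := √(x ^ (2 : ℕ) + m ^ (2 : ℕ)) with hK
  have hK0 : x ≤ K := x_le_K hx0.le
  have hK1 : K ≤ x + m ^ (2 : ℕ) / (2 * x) := sqrt_K_le hx0
  have hKp : 0 < K := by linarith only [hx0, hK0]
  set F := d * ((al x - m) * (2 * π - ψ) + x * (1 + ε * al x) - exp (ε * al x) * K) with hF
  set μ := d * (al x - m) with hμd
  set κ := d * (exp (ε * al x) * K) with hκd
  set c0 := 2 * π - ψ with hc0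
  have hκ1 : d * (exp (ε * al x) * x) ≤ κ := by rw [hκd]; gcongr
  have hκ2 : 10 ≤ κ := hκ.trans hκ1
  have hκ0 : 0 < κ := by linarith only [hκ2]
  have hform : ∀ s, 137 / 25 ≤ s → d * hq x (ε * m) ε s = F + μ * (s - c0) + κ * (1 - cos (s - c0)) :=
    fun s hs => hq_lump hx0 hε hs
  have hjf : ∀ s ∈ Ioi (137 / 25 : ℝ), jf x (ε * m) d ε s = lf F μ κ c0 s := by
    intro s hs
    have hs' : 137 / 25 ≤ s := le_of_lt hs
    unfold jf lf
    rw [pv_one hs', one_mul, hform s hs']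
  have hab : |2 * π - c0| = ψ := by
    rw [hc0]
    have : 2 * π - (2 * π - ψ) = ψ := by ring
    rw [this, abs_of_nonneg hψ0]
  have hFA : d * Aq x m ε ≤ F := by
    rw [hF]
    unfold Aq
    have h1 : (al x - m) * (2 * π - m / x) ≤ (al x - m) * (2 * π - ψ) := by gcongr
    have h2 : exp (ε * al x) * K ≤ exp (ε * al x) * (x + m ^ (2 : ℕ) / (2 * x)) := by gcongr
    refine mul_le_mul_of_nonneg_left ?_ hd.le
    linarith only [h1, h2]
  have hsq : (μ + 69 / 100) ^ (2 : ℕ) / (4 / 5 * κ) ≤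
      (d * (al x - m) + 69 / 100) ^ (2 : ℕ) / (4 / 5 * (exp (ε * al x) * x * d)) := by
    have h1 : 0 < exp (ε * al x) * x * d := by (clear * - hx hd; positivity)
    have h2 : exp (ε * al x) * x * d ≤ κ := by linarith only [hκ1]
    rw [← hμd]
    gcongr
  have hGle : -F + 69 / 100 * ψ + (μ + 69 / 100) ^ (2 : ℕ) / (4 / 5 * κ) ≤ -Gq x m d ε := by
    unfold Gq
    linarith only [hψ1, hFA, hsq]
  refine ⟨?_, ?_, ?_⟩
  · exact (ii_lf (F := F) (c0 := c0) (by linarith : 69 / 100 < μ) hκ0.le (137 / 25)).congr_fun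
      (fun s hs => (hjf s hs).symm) measurableSet_Ioi
  · rw [setIntegral_congr_fun measurableSet_Ioi hjf]
    refine (lump hμ hκ2 ?_ ?_).trans ?_
    · rw [hc0]; linarith only [hp, hmx2, hψ1]
    · rw [hc0]; linarith only [hp2, hψ0]
    · rw [hab]
      have h1 : 0 < exp (ε * al x) * x * d := by (clear * - hx hd; positivity)
      have h2 : exp (ε * al x) * x * d ≤ κ := by linarith only [hκ1]
      gcongr
  · intro s hs
    rw [hform s hs]
    have hs0 : 0 ≤ 1 - cos (s - c0) := by linarith only [cos_le_one (s - c0)]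
    have hsq0 : 0 ≤ (μ + 69 / 100) ^ (2 : ℕ) / (4 / 5 * κ) := by (clear * - hμ hd hx; positivity)
    rcases le_total c0 s with h | h
    · have h1 : 0 ≤ μ * (s - c0) := mul_nonneg (by linarith only [hμ]) (by linarith only [h])
      have h2 : 0 ≤ κ * (1 - cos (s - c0)) := mul_nonneg hκ0.le hs0
      have h3 : 0 ≤ 69 / 100 * ψ := by (clear * - hm0 hx; positivity)
      linarith only [hGle, hsq0, h1, h2, h3]
    · have h1 : 0 ≤ c0 - s := by linarith only [h]
      have h2 : c0 - s ≤ 3 / 2 := by rw [hc0]; linarith only [hp2, hψ0, hs]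
      have h3 := one_sub_cos_ge h1 h2
      have h4 : cos (c0 - s) = cos (s - c0) := by rw [← cos_neg]; congr 1; ring
      rw [h4] at h3
      have h5 : κ * (2 / 5 * (c0 - s) ^ (2 : ℕ)) ≤ κ * (1 - cos (s - c0)) := by gcongr
      -- -μ u + 2/5 κ u² ≥ -(μ+.69)²/(4/5 κ)
      have h6 : μ * (c0 - s) - κ * (2 / 5 * (c0 - s) ^ (2 : ℕ)) ≤ (μ + 69 / 100) ^ (2 : ℕ) / (4 / 5 * κ) := by
        rw [le_div_iff₀ (by (clear * - hd hx; positivity))]
        have hμ0 : 0 < μ := by linarith only [hμ]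
        nlinarith only [hμ0, sq_nonneg (μ - 4 / 5 * κ * (c0 - s))]
      have h3' : 0 ≤ 69 / 100 * ψ := by (clear * - hm0 hx; positivity)
      linarith only [hGle, h5, h6, h3']

end SokamV3T

end

/-! ### Lib_MP_af4de1_v3.TailQ2 -/

section
namespace SokamPG
end SokamPG
/-!
# Tails of regime I: the integrals, second part
-/

set_option autoImplicit false

namespace SokamV3T

open Real MeasureTheory Set SokamPG

/-- `e^(a + b)` style numeric bound -/
theorem exp33 : exp (33005 / 10000) ≤ 272 / 10 := by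
  have h1 : exp (33005 / 10000) = exp 1 ^ (3 : ℕ) * exp (3005 / 10000) := by
    rw [← exp_nat_mul, ← exp_add]
    norm_num
  have h2 := exp_one_lt_d9
  have h3 := exp_bound' (x := 3005 / 10000) (by norm_num) (by norm_num) (n := 4) (by norm_num)
  norm_num [Finset.sum_range_succ, Nat.factorial] at h3
  have e2 : (3005 / 10000 : ℝ) = 601 / 2000 := by norm_num
  have h5 : exp (3005 / 10000) ≤ 13507 / 10000 := by
    rw [e2]
    exact h3.trans (by norm_num)
  have h4 : exp 1 ^ (3 : ℕ) ≤ (2.7182818286 : ℝ) ^ (3 : ℕ) := pow_le_pow_left₀ (exp_pos 1).le h2.le 3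
  rw [h1]
  calc exp 1 ^ (3 : ℕ) * exp (3005 / 10000) ≤ (2.7182818286 : ℝ) ^ (3 : ℕ) * (13507 / 10000) :=
        mul_le_mul h4 h5 (exp_pos _).le (by positivity)
    _ ≤ 272 / 10 := by norm_num

theorem exp55 : exp (5543 / 10000) ≤ 17410 / 10000 := by
  have h3 := exp_bound' (x := 5543 / 10000) (by norm_num) (by norm_num) (n := 6) (by norm_num)
  norm_num [Finset.sum_range_succ, Nat.factorial] at h3
  refine h3.trans ?_
  norm_num

theorem int_w (c : ℝ) : ∫ s in Ioi c, exp (-(69 / 100) * s) = exp (-(69 / 100) * c) / (69 / 100) := by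
  rw [integral_exp_mul_Ioi (by norm_num) c]
  ring

theorem ii_w (c : ℝ) : IntegrableOn (fun s : ℝ => exp (-(69 / 100) * s)) (Ioi c) :=
  integrableOn_exp_mul_Ioi (by norm_num) c

/-- the weight up to `2π` -/
theorem int_w2 {b : ℝ} : ∫ s in Ioc (3 / 2 : ℝ) b, exp (69 / 100 * (2 * π - s)) ≤ 39425 / 1000 := by
  have e : ∀ s : ℝ, exp (69 / 100 * (2 * π - s)) = exp (69 / 100 * (2 * π)) * exp (-(69 / 100) * s) := by
    intro s
    rw [← exp_add]
    congr 1
    ring
  simp only [e]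
  rw [integral_const_mul]
  have h1 : ∫ s in Ioc (3 / 2 : ℝ) b, exp (-(69 / 100) * s) ≤
      ∫ s in Ioi (3 / 2 : ℝ), exp (-(69 / 100) * s) :=
    setIntegral_mono_set (ii_w _) (Filter.Eventually.of_forall fun s => (exp_pos _).le)
      (Filter.Eventually.of_forall Ioc_subset_Ioi_self)
  rw [int_w] at h1
  have h2 : exp (69 / 100 * (2 * π)) * exp (-(69 / 100) * (3 / 2)) ≤ 272 / 10 := by
    rw [← exp_add]
    refine (exp_le_exp.2 ?_).trans exp33
    have := pi_lt_d4
    linarith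
  have h0 := exp_pos (69 / 100 * (2 * π))
  calc exp (69 / 100 * (2 * π)) * ∫ s in Ioc (3 / 2 : ℝ) b, exp (-(69 / 100) * s)
      ≤ exp (69 / 100 * (2 * π)) * (exp (-(69 / 100) * (3 / 2)) / (69 / 100)) := by gcongr
    _ = exp (69 / 100 * (2 * π)) * exp (-(69 / 100) * (3 / 2)) / (69 / 100) := by ring
    _ ≤ 272 / 10 / (69 / 100) := by gcongr
    _ ≤ _ := by norm_num

theorem ii_w2 {b : ℝ} : IntegrableOn (fun s : ℝ => exp (69 / 100 * (2 * π - s))) (Ioc (3 / 2) b) := by
  have h : Continuous fun s : ℝ => exp (69 / 100 * (2 * π - s)) := by fun_prop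
  exact h.integrableOn_Ioc

/-- the inner part, `x ≥ 3` -/
theorem ioc_part {x y d ε z : ℝ} (hx : 3 ≤ x) (hd : 0 < d)
    (hz : ∀ s, 3 / 2 ≤ s → s ≤ 137 / 25 → z ≤ hq x y ε s) :
    IntegrableOn (jf x y d ε) (Ioc (3 / 2) (137 / 25)) ∧
      ∫ s in Ioc (3 / 2 : ℝ) (137 / 25), jf x y d ε s ≤ 41 * exp (-(d * z)) := by
  have h := dom_int (f := jf x y d ε)
    (b := fun s => 1031 / 1000 * exp (-(d * z)) * exp (69 / 100 * (2 * π - s)))
    (S := Ioc (3 / 2) (137 / 25)) measurableSet_Ioc (meas_jf x y d ε) (jf_nonneg x y d ε)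
    (ii_w2.const_mul _) (fun s hs => by
      have h1 := hz s hs.1.le hs.2
      have h2 := pv_le3 (s := s) hx
      have hp := pi_gt_d2
      have h3 : |s - 2 * π| = 2 * π - s := by
        rw [abs_of_nonpos (by linarith [hs.2])]
        ring
      have h4 : exp (69 / 100 * |s - 2 * π| - d * hq x y ε s) ≤
          exp (-(d * z)) * exp (69 / 100 * (2 * π - s)) := by
        rw [← exp_add, h3]
        apply exp_le_exp.2
        have := mul_le_mul_of_nonneg_left h1 hd.le
        linarith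
      unfold jf
      calc _ ≤ 1031 / 1000 * (exp (-(d * z)) * exp (69 / 100 * (2 * π - s))) := by gcongr
        _ = _ := by ring)
  refine ⟨h.1, h.2.trans ?_⟩
  rw [integral_const_mul]
  have h1 := int_w2 (b := 137 / 25)
  have h2 := exp_pos (-(d * z))
  calc 1031 / 1000 * exp (-(d * z)) * ∫ s in Ioc (3 / 2 : ℝ) (137 / 25), exp (69 / 100 * (2 * π - s))
      ≤ 1031 / 1000 * exp (-(d * z)) * (39425 / 1000) := by gcongr
    _ ≤ 41 * exp (-(d * z)) := by linarith only [h2]

/-- the inner part, `x ≥ 3`, with slope -/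
theorem ioc_slope {x y d ε z : ℝ} (hx : 3 ≤ x) (hd : 789 / 100 ≤ d)
    (hz : ∀ s, 3 / 2 ≤ s → s ≤ 137 / 25 → z + 7 / 80 * (137 / 25 - s) ≤ hq x y ε s) :
    IntegrableOn (jf x y d ε) (Ioc (3 / 2) (137 / 25)) ∧
      ∫ s in Ioc (3 / 2 : ℝ) (137 / 25), jf x y d ε s ≤ 36 / 5 * exp (-(d * z)) := by
  have hvol : volume.real (Ioc (3 / 2 : ℝ) (137 / 25)) = 199 / 50 := by
    rw [Real.volume_real_Ioc]
    norm_num
  have h := dom_int (f := jf x y d ε)
    (b := fun _ => 1031 / 1000 * (exp (-(d * z)) * (17410 / 10000)))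
    (S := Ioc (3 / 2) (137 / 25)) measurableSet_Ioc (meas_jf x y d ε) (jf_nonneg x y d ε)
    (integrableOn_const (by simp)) (fun s hs => by
      have h1 := hz s hs.1.le hs.2
      have h2 := pv_le3 (s := s) hx
      have hp := pi_gt_d2
      have hp2 := pi_lt_d4
      have h3 : |s - 2 * π| = 2 * π - s := by
        rw [abs_of_nonpos (by linarith [hs.2])]
        ring
      have h4 : exp (69 / 100 * |s - 2 * π| - d * hq x y ε s) ≤
          exp (-(d * z)) * (17410 / 10000) := by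
        have h5 : exp (69 / 100 * |s - 2 * π| - d * hq x y ε s) ≤
            exp (-(d * z)) * exp (5543 / 10000) := by
          rw [← exp_add, h3]
          apply exp_le_exp.2
          have h6 := mul_le_mul_of_nonneg_left h1 (by linarith : (0 : ℝ) ≤ d)
          have h7 : 789 / 100 * (7 / 80 * (137 / 25 - s)) ≤ d * (7 / 80 * (137 / 25 - s)) :=
            mul_le_mul_of_nonneg_right hd (by linarith [hs.2])
          linarith [hs.2]
        refine h5.trans ?_
        have := exp55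
        gcongr
      unfold jf
      gcongr)
  refine ⟨h.1, h.2.trans ?_⟩
  rw [setIntegral_const, hvol, smul_eq_mul]
  have h2 := exp_pos (-(d * z))
  linarith only [h2]

/-- the outer part without lump -/
theorem plain_part {x y d ε P : ℝ} (hd : 793 / 100 ≤ d)
    (hP : ∀ s, 137 / 25 ≤ s → P + 3 / 5 * (s - 137 / 25) ≤ hq x y ε s) :
    IntegrableOn (jf x y d ε) (Ioi (137 / 25)) ∧
      ∫ s in Ioi (137 / 25 : ℝ), jf x y d ε s ≤ 1 / 2 * exp (-(d * P)) := by
  have ha : -(3 / 5 * d - 69 / 100) < 0 := by linarith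
  set a := -(3 / 5 * d - 69 / 100) with had
  set C := exp (5543 / 10000 - d * P - a * (137 / 25)) with hC
  have h := dom_int (f := jf x y d ε) (b := fun s => C * exp (a * s))
    (S := Ioi (137 / 25)) measurableSet_Ioi (meas_jf x y d ε) (jf_nonneg x y d ε)
    ((integrableOn_exp_mul_Ioi ha _).const_mul _) (fun s hs => by
      have hs' : 137 / 25 ≤ s := le_of_lt hs
      have h1 := hP s hs'
      have hp := pi_gt_d2
      have hp2 := pi_lt_d4
      have h3 : |s - 2 * π| ≤ (s - 137 / 25) + (2 * π - 137 / 25) := by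
        rw [abs_le]
        constructor <;> linarith
      unfold jf
      rw [pv_one hs', one_mul, hC, ← exp_add]
      apply exp_le_exp.2
      have h6 := mul_le_mul_of_nonneg_left h1 (by linarith : (0 : ℝ) ≤ d)
      rw [had]
      linarith)
  refine ⟨h.1, h.2.trans ?_⟩
  rw [integral_const_mul, integral_exp_mul_Ioi ha]
  have e : C * (-exp (a * (137 / 25)) / a) = exp (5543 / 10000) * exp (-(d * P)) / (-a) := by
    have : C * exp (a * (137 / 25)) = exp (5543 / 10000) * exp (-(d * P)) := by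
      rw [hC, ← exp_add, ← exp_add]
      congr 1
      ring
    have ha' : a ≠ 0 := ha.ne
    clear_value a
    rw [← this]
    field_simp
  rw [e, div_le_iff₀ (by linarith)]
  have h1 := exp55
  have h2 := exp_pos (-(d * P))
  have h3 : 4068 / 1000 ≤ -a := by rw [had]; linarith
  calc exp (5543 / 10000) * exp (-(d * P)) ≤ 17410 / 10000 * exp (-(d * P)) := by gcongr
    _ ≤ 1 / 2 * exp (-(d * P)) * (4068 / 1000) := by linarith only [h2]
    _ ≤ 1 / 2 * exp (-(d * P)) * -a := by gcongr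

/-- the whole half line, `x ≤ 3` -/
theorem s_part {x y d ε q : ℝ} (hx : 0 ≤ x) (hd : 793 / 100 ≤ d)
    (h1 : ∀ s, 3 / 2 ≤ s → q ≤ hq x y ε s)
    (h2 : ∀ s, 2 * π ≤ s → q + 2 / 5 * (s - 2 * π) ≤ hq x y ε s) :
    IntegrableOn (jf x y d ε) (Ioi (3 / 2)) ∧ JJ x y d ε ≤ 57 * exp (-(d * q)) := by
  have hp := pi_gt_d2
  have hd0 : 0 < d := by linarith
  have a1 := dom_int (f := jf x y d ε)
    (b := fun s => 14143 / 10000 * exp (-(d * q)) * exp (69 / 100 * (2 * π - s)))
    (S := Ioc (3 / 2) (2 * π)) measurableSet_Ioc (meas_jf x y d ε) (jf_nonneg x y d ε)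
    (ii_w2.const_mul _) (fun s hs => by
      have h3 := h1 s hs.1.le
      have h4 := pv_le (s := s) hx
      have h5 : |s - 2 * π| = 2 * π - s := by
        rw [abs_of_nonpos (by linarith [hs.2])]
        ring
      have h6 : exp (69 / 100 * |s - 2 * π| - d * hq x y ε s) ≤
          exp (-(d * q)) * exp (69 / 100 * (2 * π - s)) := by
        rw [← exp_add, h5]
        apply exp_le_exp.2
        have := mul_le_mul_of_nonneg_left h3 hd0.le
        linarith
      unfold jf
      calc _ ≤ 14143 / 10000 * (exp (-(d * q)) * exp (69 / 100 * (2 * π - s))) := by gcongr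
        _ = _ := by ring)
  have ha : -(2 / 5 * d - 69 / 100) < 0 := by linarith
  set a := -(2 / 5 * d - 69 / 100) with had
  set C := 14143 / 10000 * exp (-(d * q) - a * (2 * π)) with hC
  have a2 := dom_int (f := jf x y d ε) (b := fun s => C * exp (a * s))
    (S := Ioi (2 * π)) measurableSet_Ioi (meas_jf x y d ε) (jf_nonneg x y d ε)
    ((integrableOn_exp_mul_Ioi ha _).const_mul _) (fun s hs => by
      have hs' : 2 * π ≤ s := le_of_lt hs
      have h3 := h2 s hs'
      have h4 := pv_le (s := s) hx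
      have h5 : |s - 2 * π| = s - 2 * π := abs_of_nonneg (by linarith)
      have h6 : exp (69 / 100 * |s - 2 * π| - d * hq x y ε s) ≤
          exp (-(d * q) - a * (2 * π)) * exp (a * s) := by
        rw [← exp_add, h5]
        apply exp_le_exp.2
        have := mul_le_mul_of_nonneg_left h3 hd0.le
        rw [had]
        linarith
      unfold jf
      calc _ ≤ 14143 / 10000 * (exp (-(d * q) - a * (2 * π)) * exp (a * s)) := by gcongr
        _ = _ := by rw [hC]; ring)
  have hu : Ioi (3 / 2 : ℝ) = Ioc (3 / 2) (2 * π) ∪ Ioi (2 * π) :=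
    (Ioc_union_Ioi_eq_Ioi (by linarith)).symm
  refine ⟨by rw [hu]; exact a1.1.union a2.1, ?_⟩
  unfold JJ
  rw [hu, setIntegral_union (Ioc_disjoint_Ioi le_rfl) measurableSet_Ioi a1.1 a2.1]
  have b1 := a1.2
  have b2 := a2.2
  rw [integral_const_mul] at b1
  rw [integral_const_mul, integral_exp_mul_Ioi ha] at b2
  have e : C * (-exp (a * (2 * π)) / a) = 14143 / 10000 * exp (-(d * q)) / (-a) := by
    have : C * exp (a * (2 * π)) = 14143 / 10000 * exp (-(d * q)) := by
      rw [hC, mul_assoc, ← exp_add]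
      congr 2
      ring
    have ha' : a ≠ 0 := ha.ne
    clear_value a
    rw [← this]
    field_simp
  rw [e] at b2
  have hE := exp_pos (-(d * q))
  have c1 : 14143 / 10000 * exp (-(d * q)) * ∫ s in Ioc (3 / 2 : ℝ) (2 * π),
      exp (69 / 100 * (2 * π - s)) ≤ 14143 / 10000 * exp (-(d * q)) * (39425 / 1000) := by
    have := int_w2 (b := 2 * π)
    gcongr
  have c2 : 14143 / 10000 * exp (-(d * q)) / (-a) ≤ 57 / 100 * exp (-(d * q)) := by
    have h3 : 2482 / 1000 ≤ -a := by rw [had]; linarith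
    rw [div_le_iff₀ (by linarith)]
    calc 14143 / 10000 * exp (-(d * q)) ≤ 57 / 100 * exp (-(d * q)) * (2482 / 1000) := by linarith only [hE]
      _ ≤ _ := by gcongr
  linarith only [b1, b2, hE, c1, c2]

end SokamV3T

end

/-! ### Lib_MP_af4de1_v3.TailX -/

section
namespace SokamPG
end SokamPG
/-!
# Tails of regime I: half lines
-/

set_option autoImplicit false

namespace SokamV3T

open Real MeasureTheory Set SokamPG

theorem split_137 {x y d ε A B : ℝ}
    (h1 : IntegrableOn (jf x y d ε) (Ioc (3 / 2) (137 / 25)) ∧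
      ∫ s in Ioc (3 / 2 : ℝ) (137 / 25), jf x y d ε s ≤ A)
    (h2 : IntegrableOn (jf x y d ε) (Ioi (137 / 25)) ∧
      ∫ s in Ioi (137 / 25 : ℝ), jf x y d ε s ≤ B) :
    IntegrableOn (jf x y d ε) (Ioi (3 / 2)) ∧ JJ x y d ε ≤ A + B := by
  have hu : Ioi (3 / 2 : ℝ) = Ioc (3 / 2) (137 / 25) ∪ Ioi (137 / 25) :=
    (Ioc_union_Ioi_eq_Ioi (by norm_num)).symm
  refine ⟨by rw [hu]; exact h1.1.union h2.1, ?_⟩
  unfold JJ
  rw [hu, setIntegral_union (Ioc_disjoint_Ioi le_rfl) measurableSet_Ioi h1.1 h2.1]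
  linarith only [h1.2, h2.2]

/-- half line with a lump -/
theorem half_lump {x y m d d1 ε z A G0 : ℝ} (hx : 3 ≤ x) (hm0 : 0 ≤ m) (hm1 : m ≤ 53 / 100)
    (hε : ε = 1 ∨ ε = -1) (hd1 : 0 < d1) (hdd : d1 ≤ d) (hμ : 11 / 5 ≤ d1 * (al x - m))
    (hκ : 10 ≤ d1 * (exp (ε * al x) * x))
    (hz : ∀ s, 3 / 2 ≤ s → s ≤ 137 / 25 → z ≤ hq x (ε * m) ε s) (hzd : 3 / 2 ≤ d1 * z)
    (hG : 3 / 2 ≤ G0) (hG1 : G0 ≤ Gq x m d1 ε)
    (hA : IntegrableOn (jf x (ε * m) d1 ε) (Ioc (3 / 2) (137 / 25)) ∧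
      ∫ s in Ioc (3 / 2 : ℝ) (137 / 25), jf x (ε * m) d1 ε s ≤ A)
    (hy : ∀ s, 3 / 2 ≤ s → hq x (ε * m) ε s ≤ hq x y ε s) :
    IntegrableOn (jf x y d ε) (Ioi (3 / 2)) ∧
      d * √d * JJ x y d ε ≤ d1 * √d1 * A +
        69 / 20 * d1 * exp (-G0) / √(exp (ε * al x) * x) := by
  obtain ⟨b1, b2, b3⟩ := big_part hx hm0 hm1 hε hd1 hμ hκ
  obtain ⟨i1, i2⟩ := split_137 hA ⟨b1, b2⟩
  have hred := jj_red (x := x) (y := y) (y' := ε * m) (d := d) (d1 := d1) (ε := ε) hd1 hdd
    (fun s hs => ⟨hy s hs, by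
      rcases le_total s (137 / 25) with h | h
      · have := mul_le_mul_of_nonneg_left (hz s hs h) hd1.le
        linarith only [hzd, this]
      · linarith only [hG, hG1, b3 s h]⟩) i1
  refine ⟨hred.1, hred.2.trans ?_⟩
  have hs1 : 0 < √d1 := sqrt_pos.2 hd1
  have hc : 0 < d1 * √d1 := mul_pos hd1 hs1
  have hE : 0 < exp (ε * al x) * x := mul_pos (exp_pos _) (by linarith only [hx])
  have e1 : √(exp (ε * al x) * x * d1) = √(exp (ε * al x) * x) * √d1 := sqrt_mul hE.le _
  have hsE : 0 < √(exp (ε * al x) * x) := sqrt_pos.2 hE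
  have h2 : exp (-Gq x m d1 ε) ≤ exp (-G0) := exp_le_exp.2 (by linarith only [hG1])
  calc d1 * √d1 * JJ x (ε * m) d1 ε
      ≤ d1 * √d1 * (A + 69 / 20 * exp (-Gq x m d1 ε) / √(exp (ε * al x) * x * d1)) := by gcongr
    _ ≤ d1 * √d1 * (A + 69 / 20 * exp (-G0) / √(exp (ε * al x) * x * d1)) := by gcongr
    _ = d1 * √d1 * A + 69 / 20 * d1 * exp (-G0) / √(exp (ε * al x) * x) := by
      rw [e1]
      field_simp

/-- half line without lump -/
theorem half_plain {x y d ε z P : ℝ} (hx : 3 ≤ x) (hdd : 793 / 100 ≤ d)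
    (hz : ∀ s, 3 / 2 ≤ s → s ≤ 137 / 25 → z ≤ hq x 0 ε s) (hz1 : 1 ≤ z) (hP1 : 1 ≤ P)
    (hP : ∀ s, 137 / 25 ≤ s → P + 3 / 5 * (s - 137 / 25) ≤ hq x 0 ε s)
    (hy : ∀ s, 3 / 2 ≤ s → hq x 0 ε s ≤ hq x y ε s) :
    IntegrableOn (jf x y d ε) (Ioi (3 / 2)) ∧
      d * √d * JJ x y d ε ≤ 793 / 100 * √(793 / 100) *
        (41 * exp (-(793 / 100 * z)) + 1 / 2 * exp (-(793 / 100 * P))) := by
  have hd1 : (0 : ℝ) < 793 / 100 := by norm_num
  obtain ⟨i1, i2⟩ := split_137 (ioc_part hx hd1 hz) (plain_part (x := x) (y := 0) (ε := ε) le_rfl hP)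
  have hred := jj_red (x := x) (y := y) (y' := 0) (d := d) (d1 := 793 / 100) (ε := ε) hd1 hdd
    (fun s hs => ⟨hy s hs, by
      rcases le_total s (137 / 25) with h | h
      · linarith only [hz1, hz s hs h]
      · linarith only [hP1, h, hP s h]⟩) i1
  refine ⟨hred.1, hred.2.trans ?_⟩
  gcongr

/-! ### Numbers -/

theorem sqrt793 : √(793 / 100 : ℝ) ≤ 28161 / 10000 := by
  rw [sqrt_le_left (by norm_num)]
  norm_num

/-- `e^(-(n + f)) ≤ q` from `1 ≤ q e^n T(f)` -/
theorem exp_neg_le {g q : ℝ} (n : ℕ) {f T : ℝ} (hg : (n : ℝ) + f ≤ g) (hf : 0 ≤ f)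
    (hT : T ≤ 1 + f + f ^ (2 : ℕ) / 2 + f ^ (3 : ℕ) / 6 + f ^ (4 : ℕ) / 24) (hT0 : 0 ≤ T) (hq : 0 < q)
    (h : 1 ≤ q * ((27182818 / 10000000) ^ n * T)) : exp (-g) ≤ q := by
  have h1 : (27182818 / 10000000 : ℝ) ^ n ≤ exp n := by
    have e : exp (n : ℝ) = exp 1 ^ n := by rw [← exp_nat_mul, mul_one]
    rw [e]
    have := exp_one_gt_d9
    exact pow_le_pow_left₀ (by norm_num) (by linarith only [this]) n
  have h2 : 1 + f + f ^ (2 : ℕ) / 2 + f ^ (3 : ℕ) / 6 + f ^ (4 : ℕ) / 24 ≤ exp f := by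
    have := Real.sum_le_exp_of_nonneg hf 5
    norm_num [Finset.sum_range_succ, Nat.factorial] at this
    linarith only [this]
  have h3 : (27182818 / 10000000 : ℝ) ^ n * T ≤ exp g := by
    calc (27182818 / 10000000 : ℝ) ^ n * T ≤ exp n * exp f := by
          have := hT.trans h2
          gcongr
      _ = exp (n + f) := by rw [exp_add]
      _ ≤ exp g := exp_le_exp.2 hg
  rw [exp_neg, inv_le_comm₀ (exp_pos g) hq]
  have h4 : 1 / q ≤ exp g := by
    rw [div_le_iff₀ hq]
    calc (1 : ℝ) ≤ q * ((27182818 / 10000000) ^ n * T) := h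
      _ ≤ q * exp g := by gcongr
      _ = exp g * q := by ring
  rwa [one_div] at h4

/-! ### The side without danger, `y ≥ 0` -/

theorem al_le_one {x : ℝ} (hx : 0 ≤ x) : al x ≤ 1 := by
  unfold al
  rw [div_le_one (by linarith)]
  exact min_le_right _ _

theorem al_ge {x : ℝ} (hx : 0 ≤ x) (h : x ≤ 8) : 3 / 5 ≤ al x := by
  unfold al
  rw [le_div_iff₀ (by linarith only [hx])]
  refine le_min ?_ ?_
  · linarith only [h]
  · linarith

theorem plain_m {x s : ℝ} (hx : 3 ≤ x) (h8 : x ≤ 8) (hs : 137 / 25 ≤ s) :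
    2 + 3 / 5 * (s - 137 / 25) ≤ hq x 0 (-1) s := by
  have h1 := hq_big (x := x) (m := 0) (Or.inr rfl : (-1 : ℝ) = 1 ∨ (-1 : ℝ) = -1) hs
  rw [mul_zero] at h1
  rw [h1]
  have h2 := pb1 hx h8
  have h3 := al_ge (by linarith only [hx]) h8
  have h4 := exp_pos (-al x)
  have h5 : exp (-1 * al x) = exp (-al x) := by rw [neg_one_mul]
  rw [h5]
  have h6 : exp (-al x) * (x * cos s - 0 * sin s) ≤ exp (-al x) * x := by
    have := cos_le_one s
    have : x * cos s ≤ x := by nlinarith only [hx, this]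
    rw [zero_mul, sub_zero]
    gcongr
  linarith only [h2, h6, mul_nonneg (sub_nonneg.2 h3) (sub_nonneg.2 hs)]

theorem b_side {x y K ρ d : ℝ} (h : RF x y K ρ d) (hx : 3 ≤ x) (hy : 0 ≤ y) :
    IntegrableOn (jf x y d (-1)) (Ioi (3 / 2)) ∧
      d * √d * JJ x y d (-1) ≤ 36 / 1000000 * √x := by
  have hmono : ∀ s, 3 / 2 ≤ s → hq x 0 (-1) s ≤ hq x y (-1) s :=
    fun s hs => hq_mono_m (by linarith only [hx]) hs hy
  have hsx : 17 / 10 ≤ √x := le_sqrt_of_sq_le (by norm_num; linarith only [hx])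
  rcases le_total x 8 with h8 | h8
  · obtain ⟨i1, i2⟩ := half_plain (x := x) (y := y) (d := d) (ε := -1) (z := 21 / 10) (P := 2) hx
      (rf_d h) (fun s h1 h2 => ptzb x s hx h1 h2) (by norm_num) (by norm_num)
      (fun s hs => plain_m hx h8 hs) hmono
    refine ⟨i1, i2.trans ?_⟩
    have e1 : exp (-(793 / 100 * (21 / 10))) ≤ 60 / 1000000000 :=
      exp_neg_le 16 (f := 65 / 100) (T := 19 / 10) (by norm_num) (by norm_num) (by norm_num)
        (by norm_num) (by norm_num) (by norm_num)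
    have e2 : exp (-(793 / 100 * 2)) ≤ 132 / 1000000000 :=
      exp_neg_le 15 (f := 85 / 100) (T := 233 / 100) (by norm_num) (by norm_num) (by norm_num)
        (by norm_num) (by norm_num) (by norm_num)
    have e3 := sqrt793
    calc 793 / 100 * √(793 / 100) *
        (41 * exp (-(793 / 100 * (21 / 10))) + 1 / 2 * exp (-(793 / 100 * 2)))
        ≤ 793 / 100 * (28161 / 10000) * (41 * (60 / 1000000000) + 1 / 2 * (132 / 1000000000)) := by
          gcongr
      _ ≤ 36 / 1000000 * (17 / 10) := by norm_num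
      _ ≤ _ := by gcongr
  · have hx0 : 0 < x := by linarith only [h8]
    have hd1 : 1231 / 1000 * x ≤ d := by
      have h1 := rf_dL h hy
      have h2 : x * 1 ≤ x * (1 + y) := by gcongr; linarith only [hy]
      linarith only [h1, h2]
    have hal := al_big (x := x) (by linarith only [h8])
    have hμ : 5 ≤ 1231 / 1000 * x * al x := by
      rw [hal, mul_div_assoc', le_div_iff₀ (by linarith only [hx0])]
      linarith only [h8]
    have ha1 := al_le_one hx0.le
    have hE : 1 / 3 ≤ exp (-1 * al x) := by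
      have h1 := exp_one_lt_d9
      have h2 : exp (-1) ≤ exp (-1 * al x) := exp_le_exp.2 (by linarith only [ha1])
      have h3 : exp (-1) * exp 1 = 1 := by rw [← exp_add]; simp
      have h4 := exp_pos (-1 : ℝ)
      nlinarith only [h1, h2, h3, h4]
    have hκ : 10 ≤ 1231 / 1000 * x * (exp (-1 * al x) * x) := by
      have h1 : 1 / 3 * x ≤ exp (-1 * al x) * x := by gcongr
      nlinarith only [h8, h1]
    have hz : ∀ s, 3 / 2 ≤ s → s ≤ 137 / 25 → 21 / 10 ≤ hq x (-1 * 0) (-1) s := by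
      intro s h1 h2
      rw [mul_zero]
      exact ptzb x s hx h1 h2
    have hd1p : 0 < 1231 / 1000 * x := by positivity
    obtain ⟨i1, i2⟩ := half_lump (x := x) (y := y) (m := 0) (d := d) (d1 := 1231 / 1000 * x)
      (ε := -1) (z := 21 / 10) (G0 := 15)
      (A := 41 * exp (-(1231 / 1000 * x * (21 / 10)))) hx le_rfl (by norm_num)
      (Or.inr rfl) hd1p hd1 (by rw [sub_zero]; linarith only [hμ]) hκ hz (by linarith only [h8]) (by norm_num)
      (gu12 h8) (ioc_part hx hd1p hz) (fun s hs => by rw [mul_zero]; exact hmono s hs)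
    refine ⟨i1, i2.trans ?_⟩
    have hd9 : 98 / 10 ≤ 1231 / 1000 * x := by linarith only [h8]
    have c1 : 1231 / 1000 * x * √(1231 / 1000 * x) * (41 * exp (-(1231 / 1000 * x * (21 / 10)))) ≤
        1 / 100000 := by
      have h1 := d_mono (d := 1231 / 1000 * x) (d1 := 98 / 10) (h := 21 / 10) (by norm_num) hd9
        (by norm_num)
      have h2 : √(98 / 10 : ℝ) ≤ 32 / 10 := by
        rw [sqrt_le_left (by norm_num)]
        norm_num
      have h3 : exp (-(98 / 10 * (21 / 10))) ≤ 2 / 1000000000 :=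
        exp_neg_le 20 (f := 58 / 100) (T := 178 / 100) (by norm_num) (by norm_num) (by norm_num)
          (by norm_num) (by norm_num) (by norm_num)
      calc _ = 41 * (1231 / 1000 * x * √(1231 / 1000 * x) *
            exp (-(1231 / 1000 * x * (21 / 10)))) := by ring
        _ ≤ 41 * (98 / 10 * √(98 / 10) * exp (-(98 / 10 * (21 / 10)))) := by gcongr
        _ ≤ 41 * (98 / 10 * (32 / 10) * (2 / 1000000000)) := by gcongr
        _ ≤ _ := by norm_num
    have c2 : 69 / 20 * (1231 / 1000 * x) * exp (-15) / √(exp (-1 * al x) * x) ≤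
        3 / 1000000 * √x := by
      have hsx0 : 0 < √x := sqrt_pos.2 hx0
      have hsx2 : √x * √x = x := mul_self_sqrt hx0.le
      have h1 : 1 / 2 * √x ≤ √(exp (-1 * al x) * x) := by
        rw [sqrt_mul (exp_pos _).le]
        have h2 : 1 / 2 ≤ √(exp (-1 * al x)) := le_sqrt_of_sq_le (le_trans (by norm_num) hE)
        gcongr
      have h3 : exp (-15) ≤ 31 / 100000000 :=
        exp_neg_le 15 (f := 0) (T := 1) (by norm_num) (by norm_num) (by norm_num)
          (by norm_num) (by norm_num) (by norm_num)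
      rw [div_le_iff₀ (lt_of_lt_of_le (by (clear * - hx; positivity)) h1)]
      calc 69 / 20 * (1231 / 1000 * x) * exp (-15)
          ≤ 69 / 20 * (1231 / 1000 * x) * (31 / 100000000) := by gcongr
        _ ≤ 3 / 1000000 * √x * (1 / 2 * √x) := by
          have : 3 / 1000000 * √x * (1 / 2 * √x) = 3 / 2000000 * x := by
            calc 3 / 1000000 * √x * (1 / 2 * √x) = 3 / 2000000 * (√x * √x) := by ring
              _ = _ := by rw [hsx2]
          rw [this]
          nlinarith only [hsx2]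
        _ ≤ _ := by gcongr
    have c3 : 1 / 100000 ≤ 1 / 150000 * √x * (15 / 10) := by
      have : 1 ≤ √x := by linarith only [hsx]
      linarith only [this]
    linarith only [c1, c2, c3]

end SokamV3T

end

/-! ### Lib_MP_af4de1_v3.TailY -/

section
namespace SokamPG
end SokamPG
/-!
# Tails of regime I: half lines, `y ≤ 0`
-/

set_option autoImplicit false

namespace SokamV3T

open Real MeasureTheory Set SokamPG

theorem pp3y {v : ℝ} (h1 : 12 / 100 ≤ v) (h2 : v ≤ 73 / 400) :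
    0 ≤ 137 / 25 * (137 / 25 * v) + (1 - v) * v * (-(137 / 25) ^ (2 : ℕ) / 2 - (137 / 25) ^ (3 : ℕ) * v / 6 -
      (137 / 25) ^ (4 : ℕ) * v ^ (2 : ℕ) / 24 - (137 / 25) ^ (5 : ℕ) * v ^ (3 : ℕ) / 100) - 79 / 50 := by
  have h : ∀ s r : ℝ, 0 ≤ s → 0 ≤ r → 0 ≤ 60801514947084550144 / 2384185791015625 * r ^ (5 : ℕ) +
      422275017407572025344 / 476837158203125 * s * r ^ (4 : ℕ) +
      4607362497610549963264 / 1430511474609375 * s ^ (2 : ℕ) * r ^ (3 : ℕ) +
      6582754046282216234464 / 1430511474609375 * s ^ (3 : ℕ) * r ^ (2 : ℕ) +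
      1409574619127891754694 / 476837158203125 * s ^ (4 : ℕ) * r +
      6820392408953191370201 / 9536743164062500 * s ^ (5 : ℕ) := by
    intro s r hs hr
    (clear * - hr hs; positivity)
  refine (h (v - 12 / 100) (73 / 400 - v) (by linarith) (by linarith)).trans (le_of_eq ?_)
  ring

theorem exp_up5 {t : ℝ} (h0 : 0 ≤ t) (h1 : t ≤ 1) :
    exp t ≤ 1 + t + t ^ (2 : ℕ) / 2 + t ^ (3 : ℕ) / 6 + t ^ (4 : ℕ) / 24 + t ^ (5 : ℕ) / 100 := by
  have ha : |t| ≤ 1 := by rw [abs_of_nonneg h0]; exact h1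
  have e1 := Real.exp_bound ha (n := 5) (by norm_num)
  rw [abs_of_nonneg h0] at e1
  have e2 := (abs_le.1 e1).2
  norm_num [Finset.sum_range_succ, Nat.factorial] at e2
  linarith

theorem pb3y {x : ℝ} (h : 3 ≤ x) (h' : x ≤ 73 / 10) :
    79 / 50 ≤ 137 / 25 * al x + x * (1 + al x - exp (al x)) := by
  have hx0 : 0 < x := by linarith
  rcases le_total x (112 / 25) with h1 | h1
  · rw [al_small hx0.le h1]
    have h2 := mul_le_mul_of_nonneg_left Real.exp_one_lt_d9.le hx0.le
    linarith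
  · have h0 : 0 < 1 + x := by linarith
    obtain ⟨v, hv⟩ : ∃ v, v = 1 / (1 + x) := ⟨_, rfl⟩
    have hv0 : 0 < v := by rw [hv]; positivity
    have hal : al x = 137 / 25 * v := by
      rw [al_big h1, hv]
      ring
    have hxv : x = (1 - v) / v := by
      rw [hv]
      field_simp
      ring
    have hlo : 12 / 100 ≤ v := by
      rw [hv, le_div_iff₀ h0]
      linarith
    have hhi : v ≤ 73 / 400 := by
      rw [hv, div_le_iff₀ h0]
      linarith
    have hhi' : v ≤ 25 / 137 := by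
      rw [hv, div_le_iff₀ h0]
      linarith
    rw [hal]
    have hU := exp_up5 (t := 137 / 25 * v) (by (clear * - hv0; positivity)) (by linarith)
    have h2 := mul_le_mul_of_nonneg_left hU hx0.le
    have h3 := pp3y hlo hhi
    have h4 : x * (1 + 137 / 25 * v - (1 + 137 / 25 * v + (137 / 25 * v) ^ (2 : ℕ) / 2 + (137 / 25 * v) ^ (3 : ℕ) / 6 +
        (137 / 25 * v) ^ (4 : ℕ) / 24 + (137 / 25 * v) ^ (5 : ℕ) / 100)) = (1 - v) * v * (-(137 / 25) ^ (2 : ℕ) / 2 -
        (137 / 25) ^ (3 : ℕ) * v / 6 - (137 / 25) ^ (4 : ℕ) * v ^ (2 : ℕ) / 24 - (137 / 25) ^ (5 : ℕ) * v ^ (3 : ℕ) / 100) := by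
      rw [hxv]
      field_simp
      ring
    linarith

theorem hq0_p {x s : ℝ} (hx : 3 ≤ x) (hs : 137 / 25 ≤ s) (h8 : x ≤ 8) :
    137 / 25 * al x + x * (1 + al x - exp (al x)) + 3 / 5 * (s - 137 / 25) ≤ hq x 0 1 s := by
  have h1 := hq_big (x := x) (m := 0) (Or.inl rfl : (1 : ℝ) = 1 ∨ (1 : ℝ) = -1) hs
  rw [mul_zero] at h1
  rw [h1]
  have h3 := al_ge (by linarith) h8
  have h4 := exp_pos (al x)
  rw [one_mul]
  have h6 : exp (al x) * (x * cos s - 0 * sin s) ≤ exp (al x) * x := by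
    have := cos_le_one s
    have : x * cos s ≤ x := by nlinarith only [hx, this]
    rw [zero_mul, sub_zero]
    gcongr
  linarith only [h6, mul_nonneg (sub_nonneg.2 h3) (sub_nonneg.2 hs)]

theorem za0 {x s : ℝ} (hx : 3 ≤ x) (h1 : 3 / 2 ≤ s) (h2 : s ≤ 137 / 25) : 11 / 5 ≤ hq x 0 1 s :=
  (ptza x s hx h1 h2).trans (hq_mono_p hx h1 (by positivity))

/-- `√x`-form of the lump term -/
theorem lump_le {E x B c τ : ℝ} (hE : 0 < E) (hx : 0 < x) (hB : B ^ (2 : ℕ) ≤ E * x ^ (2 : ℕ))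
    (hτ : 0 ≤ τ) (h : c ≤ τ * B) : c / √(E * x) ≤ τ * √x := by
  have h1 : 0 < √(E * x) := sqrt_pos.2 (by positivity)
  rw [div_le_iff₀ h1]
  have h2 : √x * √(E * x) = √(E * x ^ (2 : ℕ)) := by
    rw [← sqrt_mul hx.le]
    congr 1
    ring
  have h3 : B ≤ √(E * x ^ (2 : ℕ)) := le_sqrt_of_sq_le hB
  calc c ≤ τ * B := h
    _ ≤ τ * √(E * x ^ (2 : ℕ)) := by gcongr
    _ = τ * √x * √(E * x) := by rw [mul_assoc, h2]

theorem e_446 : exp (-(793 / 100 * (11 / 5))) ≤ 266 / 10000000000 :=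
  exp_neg_le 17 (f := 446 / 1000) (T := 1561 / 1000) (by norm_num) (by norm_num) (by norm_num)
    (by norm_num) (by norm_num) (by norm_num)

theorem c_side1 {x y K ρ d : ℝ} (h : RF x y K ρ d) (hx : 3 ≤ x) (hy : y ≤ 0) (h7 : x ≤ 73 / 10) :
    IntegrableOn (jf x y d 1) (Ioi (3 / 2)) ∧ d * √d * JJ x y d 1 ≤ 66 / 1000000 := by
  obtain ⟨i1, i2⟩ := half_plain (x := x) (y := y) (d := d) (ε := 1) (z := 11 / 5) (P := 79 / 50) hx
      (rf_d h) (fun s h1 h2 => za0 hx h1 h2) (by norm_num) (by norm_num)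
      (fun s hs => by linarith [pb3y hx h7, hq0_p hx hs (by linarith)])
      (fun s hs => hq_mono_p hx hs hy)
  refine ⟨i1, i2.trans ?_⟩
  have e1 := e_446
  have e2 : exp (-(793 / 100 * (79 / 50))) ≤ 3625 / 1000000000 :=
    exp_neg_le 12 (f := 529 / 1000) (T := 1696 / 1000) (by norm_num) (by norm_num) (by norm_num)
      (by norm_num) (by norm_num) (by norm_num)
  have e3 := sqrt793
  calc 793 / 100 * √(793 / 100) *
        (41 * exp (-(793 / 100 * (11 / 5))) + 1 / 2 * exp (-(793 / 100 * (79 / 50))))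
      ≤ 793 / 100 * (28161 / 10000) * (41 * (266 / 10000000000) + 1 / 2 * (3625 / 1000000000)) := by
        gcongr
    _ ≤ 66 / 1000000 := by norm_num

theorem c_side2 {x y K ρ d : ℝ} (h : RF x y K ρ d) (hx : 3 ≤ x) (hy : y ≤ 0) (h8 : x ≤ 8) :
    IntegrableOn (jf x y d 1) (Ioi (3 / 2)) ∧ d * √d * JJ x y d 1 ≤ 139 / 1000000 := by
  obtain ⟨i1, i2⟩ := half_plain (x := x) (y := y) (d := d) (ε := 1) (z := 11 / 5) (P := 29 / 20) hx
      (rf_d h) (fun s h1 h2 => za0 hx h1 h2) (by norm_num) (by norm_num)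
      (fun s hs => by linarith [pb2 hx h8, hq0_p hx hs (by linarith)])
      (fun s hs => hq_mono_p hx hs hy)
  refine ⟨i1, i2.trans ?_⟩
  have e1 := e_446
  have e2 : exp (-(793 / 100 * (29 / 20))) ≤ 1017 / 100000000 :=
    exp_neg_le 11 (f := 498 / 1000) (T := 1643 / 1000) (by norm_num) (by norm_num) (by norm_num)
      (by norm_num) (by norm_num) (by norm_num)
  have e3 := sqrt793
  calc 793 / 100 * √(793 / 100) *
        (41 * exp (-(793 / 100 * (11 / 5))) + 1 / 2 * exp (-(793 / 100 * (29 / 20))))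
      ≤ 793 / 100 * (28161 / 10000) * (41 * (266 / 10000000000) + 1 / 2 * (1017 / 100000000)) := by
        gcongr
    _ ≤ 139 / 1000000 := by norm_num

/-- inner part for `d1 ≥ d0` -/
theorem inner_le {d1 d0 z A s0 q C : ℝ} (h0 : 0 < d0) (h : d0 ≤ d1) (hz : 3 / 2 ≤ d0 * z)
    (hA : 0 ≤ A) (hs : √d0 ≤ s0) (hq : exp (-(d0 * z)) ≤ q) (hC : A * (d0 * s0 * q) ≤ C) :
    d1 * √d1 * (A * exp (-(d1 * z))) ≤ C := by
  have h1 := d_mono h0 h hz
  have hq0 : 0 < q := (exp_pos _).trans_le hq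
  have hs0 : 0 ≤ s0 := (sqrt_nonneg _).trans hs
  calc d1 * √d1 * (A * exp (-(d1 * z))) = A * (d1 * √d1 * exp (-(d1 * z))) := by ring
    _ ≤ A * (d0 * √d0 * exp (-(d0 * z))) := by gcongr
    _ ≤ A * (d0 * s0 * q) := by gcongr
    _ ≤ C := hC

theorem c_side3 {x y K ρ d : ℝ} (h : RF x y K ρ d) (hy : y ≤ 0) (h8 : 8 ≤ x) :
    IntegrableOn (jf x y d 1) (Ioi (3 / 2)) ∧ d * √d * JJ x y d 1 ≤ 26 / 1000000 * √x := by
  have hx : 3 ≤ x := by linarith
  have hx0 : 0 < x := by linarith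
  have hd1 := rf_dR h hy
  have hal := al_big (x := x) (by linarith)
  have hd1p : 79 / 10 ≤ 1231 / 1000 * (x - 1571 / 1000) := by linarith
  have hμ : 11 / 5 ≤ 1231 / 1000 * (x - 1571 / 1000) * (al x - 0) := by
    rw [hal, sub_zero, mul_div_assoc', le_div_iff₀ (by linarith)]
    linarith
  have ha0 := al_pos hx0.le
  have hE : 1 ≤ exp (1 * al x) := one_le_exp (by linarith)
  have hκ : 10 ≤ 1231 / 1000 * (x - 1571 / 1000) * (exp (1 * al x) * x) := by
    have h1 : 1 * x ≤ exp (1 * al x) * x := by gcongr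
    nlinarith only [hd1p, h1]
  have hz : ∀ s, 3 / 2 ≤ s → s ≤ 137 / 25 → 11 / 5 ≤ hq x (1 * 0) 1 s := by
    intro s h1 h2
    rw [mul_zero]
    exact za0 hx h1 h2
  obtain ⟨i1, i2⟩ := half_lump (x := x) (y := y) (m := 0) (d := d)
    (d1 := 1231 / 1000 * (x - 1571 / 1000)) (ε := 1) (z := 11 / 5) (G0 := 25 / 2)
    (A := 41 * exp (-(1231 / 1000 * (x - 1571 / 1000) * (11 / 5)))) hx le_rfl (by norm_num)
    (Or.inl rfl) (by linarith) hd1 hμ hκ hz (by linarith) (by norm_num)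
    (gu13 h8) (ioc_part hx (by linarith) hz)
    (fun s hs => by rw [mul_zero]; exact hq_mono_p hx hs hy)
  refine ⟨i1, i2.trans ?_⟩
  have hsx : 28 / 10 ≤ √x := le_sqrt_of_sq_le (by norm_num; linarith)
  have c1 := inner_le (d1 := 1231 / 1000 * (x - 1571 / 1000)) (d0 := 79 / 10) (z := 11 / 5)
    (A := 41) (s0 := 2811 / 1000) (q := 284 / 10000000000) (C := 26 / 1000000) (by norm_num) hd1p
    (by norm_num) (by norm_num) (by rw [sqrt_le_left (by norm_num)]; norm_num)
    (exp_neg_le 17 (f := 38 / 100) (T := 1462 / 1000) (by norm_num) (by norm_num) (by norm_num)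
      (by norm_num) (by norm_num) (by norm_num)) (by norm_num)
  have e2 : exp (-(25 / 2)) ≤ 3728 / 1000000000 :=
    exp_neg_le 12 (f := 5 / 10) (T := 16484 / 10000) (by norm_num) (by norm_num) (by norm_num)
      (by norm_num) (by norm_num) (by norm_num)
  have c2 : 69 / 20 * (1231 / 1000 * (x - 1571 / 1000)) * exp (-(25 / 2)) / √(exp (1 * al x) * x) ≤
      16 / 1000000 * √x := by
    refine lump_le (B := x) (exp_pos _) hx0 ?_ (by norm_num) ?_
    · have : 0 ≤ x ^ (2 : ℕ) := sq_nonneg x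
      nlinarith only [hE]
    · calc 69 / 20 * (1231 / 1000 * (x - 1571 / 1000)) * exp (-(25 / 2))
          ≤ 69 / 20 * (1231 / 1000 * (x - 1571 / 1000)) * (3728 / 1000000000) := by
            have : 0 ≤ x - 1571 / 1000 := by linarith
            gcongr
        _ ≤ 16 / 1000000 * x := by linarith
  linarith

end SokamV3T

end

/-! ### Lib_MP_af4de1_v3.TailL -/

section
namespace SokamPG
end SokamPG
/-!
# Tails of regime I: `x ≥ 3`, `y ≥ 0`
-/

set_option autoImplicit false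

namespace SokamV3T

open Real MeasureTheory Set SokamPG

theorem a_side {x y d m d1 G0 : ℝ} (hx : 3 ≤ x) (hy0 : 0 ≤ y) (hym : y ≤ m)
    (hm : m ≤ 8 / 5 / (1 + x)) (hd1 : 784 / 100 ≤ d1) (hdd : d1 ≤ d)
    (hμ : 11 / 5 ≤ d1 * (al x - m)) (hG0 : 3 / 2 ≤ G0) (hG : G0 ≤ Gq x m d1 1) :
    IntegrableOn (jf x y d 1) (Ioi (3 / 2)) ∧ d * √d * JJ x y d 1 ≤
      30 / 1000000 + 69 / 20 * d1 * exp (-G0) / √(exp (1 * al x) * x) := by
  have hx0 : 0 < x := by linarith
  have ha0 := al_pos hx0.le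
  have hE : 1 ≤ exp (1 * al x) := one_le_exp (by linarith)
  have hκ : 10 ≤ d1 * (exp (1 * al x) * x) := by
    have h1 : 1 * x ≤ exp (1 * al x) * x := by gcongr
    nlinarith only [hx, hd1, h1]
  have hm53 : m ≤ 53 / 100 := by
    refine hm.trans ?_
    rw [div_le_iff₀ (by linarith)]
    linarith
  have hz : ∀ s, 3 / 2 ≤ s → s ≤ 137 / 25 → 11 / 5 ≤ hq x (1 * m) 1 s := by
    intro s h1 h2
    rw [one_mul]
    exact (ptza x s hx h1 h2).trans (hq_mono_p hx h1 hm)
  obtain ⟨i1, i2⟩ := half_lump (x := x) (y := y) (m := m) (d := d) (d1 := d1) (ε := 1)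
    (z := 11 / 5) (G0 := G0) (A := 41 * exp (-(d1 * (11 / 5)))) hx (by linarith) hm53
    (Or.inl rfl) (by linarith) hdd hμ hκ hz (by linarith) hG0 hG (ioc_part hx (by linarith) hz)
    (fun s hs => by rw [one_mul]; exact hq_mono_p hx hs hym)
  refine ⟨i1, i2.trans ?_⟩
  have c1 := inner_le (d1 := d1) (d0 := 784 / 100) (z := 11 / 5)
    (A := 41) (s0 := 28 / 10) (q := 325 / 10000000000) (C := 30 / 1000000) (by norm_num) hd1
    (by norm_num) (by norm_num) (by rw [sqrt_le_left (by norm_num)]; norm_num)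
    (exp_neg_le 17 (f := 248 / 1000) (T := 128 / 100) (by norm_num) (by norm_num) (by norm_num)
      (by norm_num) (by norm_num) (by norm_num)) (by norm_num)
  linarith

/-- the right side of `JI` -/
theorem rhs_ge {x y e : ℝ} (he : e ≤ exp y) :
    12 / 10000 * √x * e ≤ 12 / 10000 * √(√((1 + y) ^ (2 : ℕ) + x ^ (2 : ℕ))) * exp y := by
  have h1 : x ≤ √((1 + y) ^ (2 : ℕ) + x ^ (2 : ℕ)) := le_sqrt_of_sq_le (by nlinarith [sq_nonneg (1 + y)])
  have h2 : √x ≤ √(√((1 + y) ^ (2 : ℕ) + x ^ (2 : ℕ))) := sqrt_le_sqrt h1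
  have h3 := exp_pos y
  calc 12 / 10000 * √x * e ≤ 12 / 10000 * √x * exp y := by gcongr
    _ ≤ _ := by gcongr

theorem ji_L_of {x y K ρ d m d1 G0 q c B τ e : ℝ} (h : RF x y K ρ d) (hx : 3 ≤ x) (hy0 : 0 ≤ y)
    (hym : y ≤ m) (hm : m ≤ 8 / 5 / (1 + x)) (hd1 : 784 / 100 ≤ d1) (hdd : d1 ≤ d)
    (hμ : 11 / 5 ≤ d1 * (al x - m)) (hG0 : 3 / 2 ≤ G0) (hG : G0 ≤ Gq x m d1 1)
    (hq : exp (-G0) ≤ q) (hc : 69 / 20 * d1 * q ≤ c) (hB : B ^ (2 : ℕ) ≤ exp (al x) * x ^ (2 : ℕ))
    (hτ : 0 ≤ τ) (hcB : c ≤ τ * B) (he : e ≤ exp y)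
    (ht : τ + 36 / 1000000 + 18 / 1000000 ≤ 12 / 10000 * e) : JI x y d := by
  have hx0 : 0 < x := by linarith
  obtain ⟨i1, i2⟩ := a_side hx hy0 hym hm hd1 hdd hμ hG0 hG
  obtain ⟨j1, j2⟩ := b_side h hx hy0
  refine ⟨i1, j1, ?_⟩
  have hsx : 17 / 10 ≤ √x := le_sqrt_of_sq_le (by norm_num; linarith)
  rw [one_mul] at i2
  have h1 : 69 / 20 * d1 * exp (-G0) / √(exp (al x) * x) ≤ τ * √x := by
    refine lump_le (B := B) (exp_pos _) hx0 hB hτ ?_
    calc 69 / 20 * d1 * exp (-G0) ≤ 69 / 20 * d1 * q := by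
          have : 0 ≤ d1 := by linarith
          gcongr
      _ ≤ c := hc
      _ ≤ _ := hcB
  have h2 := rhs_ge (x := x) (y := y) he
  have h3 : √x * (τ + 36 / 1000000 + 18 / 1000000) ≤ √x * (12 / 10000 * e) := by gcongr
  have h4 : 30 / 1000000 ≤ 18 / 1000000 * √x := by linarith
  rw [mul_add]
  linarith

theorem exp_al_ge {x : ℝ} : exp 1 * al x ≤ exp (al x) := by
  have h1 : exp (al x) = exp 1 * exp (al x - 1) := by rw [← exp_add]; congr 1; ring
  rw [h1]
  have h2 := add_one_le_exp (al x - 1)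
  have h3 := exp_pos (1 : ℝ)
  exact mul_le_mul_of_nonneg_left (by linarith) h3.le

theorem ji_L {x y K ρ d : ℝ} (h : RF x y K ρ d) (hx : 3 ≤ x) (hy0 : 0 ≤ y) : JI x y d := by
  have hx0 : 0 < x := by linarith
  have hx1 : 0 < 1 + x := by linarith
  have hY := rf_Y h hx hy0
  have hd := rf_d h
  have hY' : y ≤ 8 / 5 / (1 + x) := by rwa [le_div_iff₀ hx1]
  have he1 := exp_one_gt_d9
  have hey : 1 + y ≤ exp y := by linarith [add_one_le_exp y]
  have hdL := rf_dL h hy0
  rcases le_total x (112 / 25) with h1 | h1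
  · -- bin 1
    have hal := al_small hx0.le h1
    refine ji_L_of (m := 8 / 5 / (1 + x)) (d1 := 793 / 100) (G0 := 851 / 100)
      (q := 2017 / 10000000) (c := 552 / 100000) (B := 4944 / 1000) (τ := 1117 / 1000000) (e := 1)
      h hx hy0 hY' le_rfl (by norm_num) hd ?_ (by norm_num) (gl1 hx h1)
      (exp_neg_le 8 (f := 51 / 100) (T := 16649 / 10000) (by norm_num) (by norm_num) (by norm_num)
        (by norm_num) (by norm_num) (by norm_num)) (by norm_num) ?_ (by norm_num) (by norm_num)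
      (by linarith) (by norm_num)
    · have : 8 / 5 / (1 + x) ≤ 4 / 10 := by
        rw [div_le_iff₀ hx1]
        linarith
      rw [hal]
      linarith
    · rw [hal]
      nlinarith only [hx, he1]
  rcases le_total x (26 / 5) with h2 | h2
  · -- bin 2
    have hal := al_big h1
    refine ji_L_of (m := 8 / 5 / (1 + x)) (d1 := 793 / 100) (G0 := 81 / 10)
      (q := 304 / 1000000) (c := 8318 / 1000000) (B := 738 / 100) (τ := 1130 / 1000000) (e := 1)
      h hx hy0 hY' le_rfl (by norm_num) hd ?_ (by norm_num) (gl2 h1 h2)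
      (exp_neg_le 8 (f := 10 / 100) (T := 11051 / 10000) (by norm_num) (by norm_num) (by norm_num)
        (by norm_num) (by norm_num) (by norm_num)) (by norm_num) ?_ (by norm_num) (by norm_num)
      (by linarith) (by norm_num)
    · rw [hal, ← sub_div, mul_div_assoc', le_div_iff₀ hx1]
      linarith
    · refine le_trans ?_ (mul_le_mul_of_nonneg_right exp_al_ge (sq_nonneg x))
      rw [hal]
      have e : exp 1 * (137 / 25 / (1 + x)) * x ^ (2 : ℕ) = exp 1 * (137 / 25) * x ^ (2 : ℕ) / (1 + x) := by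
        ring
      rw [e, le_div_iff₀ hx1]
      nlinarith only [he1, h1]
  -- `x ≥ 26/5`
  rcases le_total y (7 / 5 / (1 + x)) with h3 | h3
  · have h57 : 7 / 5 / (1 + x) ≤ 8 / 5 / (1 + x) := by gcongr; norm_num
    have hal := al_big h1
    rcases le_total x (32 / 5) with h4 | h4
    · -- bin 3
      refine ji_L_of (m := 7 / 5 / (1 + x)) (d1 := 793 / 100) (G0 := 83 / 10)
        (q := 249 / 1000000) (c := 6813 / 1000000) (B := 8) (τ := 860 / 1000000) (e := 1)
        h hx hy0 h3 h57 (by norm_num) hd ?_ (by norm_num) (gl3 h2 h4)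
        (exp_neg_le 8 (f := 30 / 100) (T := 13498 / 10000) (by norm_num) (by norm_num) (by norm_num)
          (by norm_num) (by norm_num) (by norm_num)) (by norm_num) ?_ (by norm_num) (by norm_num)
        (by linarith) (by norm_num)
      · rw [hal, ← sub_div, mul_div_assoc', le_div_iff₀ hx1]
        linarith
      · refine le_trans ?_ (mul_le_mul_of_nonneg_right exp_al_ge (sq_nonneg x))
        rw [hal]
        have e : exp 1 * (137 / 25 / (1 + x)) * x ^ (2 : ℕ) = exp 1 * (137 / 25) * x ^ (2 : ℕ) / (1 + x) := by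
          ring
        rw [e, le_div_iff₀ hx1]
        nlinarith only [he1, h2]
    · -- bin 4
      have hd1 : 1231 / 1000 * x ≤ d := by
        have : x * 1 ≤ x * (1 + y) := by gcongr; linarith
        linarith
      refine ji_L_of (m := 7 / 5 / (1 + x)) (d1 := 1231 / 1000 * x) (G0 := 83 / 10)
        (q := 249 / 1000000) (c := 1058 / 1000000 * x) (B := x) (τ := 1060 / 1000000) (e := 1)
        h hx hy0 h3 h57 (by linarith) hd1 ?_ (by norm_num) (gu4 h4)
        (exp_neg_le 8 (f := 30 / 100) (T := 13498 / 10000) (by norm_num) (by norm_num) (by norm_num)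
          (by norm_num) (by norm_num) (by norm_num)) (by linarith) ?_ (by norm_num) (by linarith)
        (by linarith) (by norm_num)
      · rw [hal, ← sub_div, mul_div_assoc', le_div_iff₀ hx1]
        linarith
      · have ha0 := al_pos hx0.le
        have hE : 1 ≤ exp (al x) := one_le_exp ha0.le
        nlinarith only [hE]
  · -- `y` large
    have hal := al_big h1
    set b := 1 + 7 / 5 / (1 + x) with hb
    have hb1 : 1 ≤ b := by
      rw [hb]
      have : 0 ≤ 7 / 5 / (1 + x) := by positivity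
      linarith
    have hd1 : 1231 / 1000 * (x * b) ≤ d := by
      have : x * b ≤ x * (1 + y) := by
        have : b ≤ 1 + y := by rw [hb]; linarith
        gcongr
      linarith
    have hd0 : 784 / 100 ≤ 1231 / 1000 * (x * b) := by
      have e : x * b = x + 7 / 5 * x / (1 + x) := by rw [hb]; ring
      have h5 : 117 / 100 ≤ 7 / 5 * x / (1 + x) := by
        rw [le_div_iff₀ hx1]
        linarith
      rw [e]
      linarith
    have hμ : 11 / 5 ≤ 1231 / 1000 * (x * b) * (al x - 8 / 5 / (1 + x)) := by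
      have h6 : 1231 / 1000 * (x * 1) * (al x - 8 / 5 / (1 + x)) ≤
          1231 / 1000 * (x * b) * (al x - 8 / 5 / (1 + x)) := by
        have : 0 ≤ al x - 8 / 5 / (1 + x) := by
          rw [hal, ← sub_div]
          exact div_nonneg (by norm_num) hx1.le
        gcongr
      refine le_trans ?_ h6
      rw [hal, ← sub_div, mul_div_assoc', le_div_iff₀ hx1]
      linarith
    have heb : b ≤ exp y := by
      have : b ≤ 1 + y := by rw [hb]; linarith
      linarith
    have hxb : x ≤ x * b := by nlinarith only [hb1, hd0]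
    rcases le_total x 8 with h4 | h4
    · -- bin 5
      refine ji_L_of (m := 8 / 5 / (1 + x)) (d1 := 1231 / 1000 * (x * b)) (G0 := 159 / 20)
        (q := 354 / 1000000) (c := 15035 / 10000000 * (x * b)) (B := 1349 / 1000 * x)
        (τ := 1115 / 1000000 * b) (e := b)
        h hx hy0 hY' le_rfl hd0 hd1 hμ (by norm_num) (gl5 h2 h4)
        (exp_neg_le 7 (f := 95 / 100) (T := 2578 / 1000) (by norm_num) (by norm_num) (by norm_num)
          (by norm_num) (by norm_num) (by norm_num)) (by linarith only [hd0]) ?_ (by linarith) ?_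
        heb (by linarith)
      · have h6 := al_ge hx0.le h4
        have h7 : 18202 / 10000 ≤ exp (al x) := by
          have h8 : exp (3 / 5) ≤ exp (al x) := exp_le_exp.2 h6
          have h9 := Real.sum_le_exp_of_nonneg (x := 3 / 5) (by norm_num) 5
          norm_num [Finset.sum_range_succ, Nat.factorial] at h9
          linarith
        nlinarith only [h7]
      · linarith only [hd0]
    · -- bin 6
      refine ji_L_of (m := 8 / 5 / (1 + x)) (d1 := 1231 / 1000 * (x * b)) (G0 := 42 / 5)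
        (q := 225 / 1000000) (c := 956 / 1000000 * (x * b)) (B := x)
        (τ := 960 / 1000000 * b) (e := b)
        h hx hy0 hY' le_rfl hd0 hd1 hμ (by norm_num) (gu6 h4)
        (exp_neg_le 8 (f := 40 / 100) (T := 14917 / 10000) (by norm_num) (by norm_num) (by norm_num)
          (by norm_num) (by norm_num) (by norm_num)) (by linarith only [hxb, h4]) ?_ (by linarith) ?_
        heb (by linarith)
      · have ha0 := al_pos hx0.le
        have hE : 1 ≤ exp (al x) := one_le_exp ha0.le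
        nlinarith only [hE]
      · linarith only [hxb, h4]

end SokamV3T

end

/-! ### Lib_MP_af4de1_v3.TailR -/

section
namespace SokamPG
end SokamPG
/-!
# Tails of regime I: `x ≥ 3`, `y ≤ 0`
-/

set_option autoImplicit false

namespace SokamV3T

open Real MeasureTheory Set SokamPG

theorem d_side {x y d m d1 G0 z : ℝ} (hx : 3 ≤ x) (hm0 : 0 ≤ m) (hm53 : m ≤ 53 / 100)
    (hym : -m ≤ y) (hd1 : 789 / 100 ≤ d1) (hdd : d1 ≤ d) (hμ : 11 / 5 ≤ d1 * (al x - m))
    (hκ : 10 ≤ d1 * (exp (-1 * al x) * x)) (hG0 : 3 / 2 ≤ G0) (hG : G0 ≤ Gq x m d1 (-1))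
    (hz0 : 1 ≤ z) (hz : ∀ s, 3 / 2 ≤ s → s ≤ 137 / 25 →
      z + 7 / 80 * (137 / 25 - s) ≤ hq x (-m) (-1) s) :
    IntegrableOn (jf x y d (-1)) (Ioi (3 / 2)) ∧ d * √d * JJ x y d (-1) ≤
      d1 * √d1 * (36 / 5 * exp (-(d1 * z))) +
        69 / 20 * d1 * exp (-G0) / √(exp (-1 * al x) * x) := by
  have e : (-1 : ℝ) * m = -m := neg_one_mul m
  refine half_lump (x := x) (y := y) (m := m) (d := d) (d1 := d1) (ε := -1)
    (z := z) (G0 := G0) (A := 36 / 5 * exp (-(d1 * z))) hx hm0 hm53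
    (Or.inr rfl) (by linarith only [hd1]) hdd hμ hκ ?_ (by nlinarith only [hd1, hz0]) hG0 hG ?_ ?_
  · intro s h1 h2
    rw [e]
    have := hz s h1 h2
    linarith only [h2, this]
  · rw [e]
    exact ioc_slope hx hd1 hz
  · intro s hs
    rw [e]
    exact hq_mono_m (by linarith only [hx]) hs hym

theorem ji_R_of {x y d m d1 G0 z q c B τ σ e Z C : ℝ} (hx : 3 ≤ x)
    (hm0 : 0 ≤ m) (hm53 : m ≤ 53 / 100)
    (hym : -m ≤ y) (hd1 : 789 / 100 ≤ d1) (hdd : d1 ≤ d) (hμ : 11 / 5 ≤ d1 * (al x - m))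
    (hκ : 10 ≤ d1 * (exp (-1 * al x) * x)) (hG0 : 3 / 2 ≤ G0) (hG : G0 ≤ Gq x m d1 (-1))
    (hz0 : 1 ≤ z) (hz : ∀ s, 3 / 2 ≤ s → s ≤ 137 / 25 →
      z + 7 / 80 * (137 / 25 - s) ≤ hq x (-m) (-1) s)
    (hC : IntegrableOn (jf x y d 1) (Ioi (3 / 2)) ∧ d * √d * JJ x y d 1 ≤ C)
    (hZ : d1 * √d1 * (36 / 5 * exp (-(d1 * z))) ≤ Z)
    (hq : exp (-G0) ≤ q) (hc : 69 / 20 * d1 * q ≤ c) (hB : B ^ (2 : ℕ) ≤ exp (-1 * al x) * x ^ (2 : ℕ))
    (hτ : 0 ≤ τ) (hcB : c ≤ τ * B) (he : e ≤ exp (-m)) (hσ : Z + C ≤ σ * √x)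
    (ht : τ + σ ≤ 12 / 10000 * e) : JI x y d := by
  have hx0 : 0 < x := by linarith only [hx]
  obtain ⟨i1, i2⟩ := d_side hx hm0 hm53 hym hd1 hdd hμ hκ hG0 hG hz0 hz
  refine ⟨hC.1, i1, ?_⟩
  have h1 : 69 / 20 * d1 * exp (-G0) / √(exp (-1 * al x) * x) ≤ τ * √x := by
    refine lump_le (B := B) (exp_pos _) hx0 hB hτ ?_
    calc 69 / 20 * d1 * exp (-G0) ≤ 69 / 20 * d1 * q := by
          have : 0 ≤ d1 := by linarith only [hd1]
          gcongr
      _ ≤ c := hc
      _ ≤ _ := hcB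
  have h2 := rhs_ge (x := x) (y := y) (he.trans (exp_le_exp.2 hym))
  have h3 : √x * (τ + σ) ≤ √x * (12 / 10000 * e) := by gcongr
  rw [mul_add]
  linarith only [hZ, hσ, i2, h1, h2, h3, hC.2]

theorem exp_neg_ge {t e : ℝ} (h0 : 0 ≤ t) (h1 : t ≤ 1) (he : 0 ≤ e)
    (h : e * (1 + t + t ^ (2 : ℕ) / 2 + t ^ (3 : ℕ) / 6 + t ^ (4 : ℕ) / 24 + t ^ (5 : ℕ) / 100) ≤ 1) : e ≤ exp (-t) := by
  have h2 := exp_up5 h0 h1
  have h3 : e * exp t ≤ 1 := (mul_le_mul_of_nonneg_left h2 he).trans h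
  have h4 : exp (-t) * exp t = 1 := by rw [← exp_add]; simp
  have h5 := exp_pos t
  by_contra hc
  push Not at hc
  nlinarith only [h3, h4, h5, hc]

/-- lower bound of `e^(-α)` -/
theorem E_ge {x t e : ℝ} (hx : 0 ≤ x) (ht : al x ≤ t) (h1 : t ≤ 1) (he : 0 ≤ e)
    (h : e * (1 + t + t ^ (2 : ℕ) / 2 + t ^ (3 : ℕ) / 6 + t ^ (4 : ℕ) / 24 + t ^ (5 : ℕ) / 100) ≤ 1) :
    e ≤ exp (-1 * al x) := by
  have h2 := exp_neg_ge ((al_pos hx).le.trans ht) h1 he h
  refine h2.trans (exp_le_exp.2 ?_)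
  linarith only [ht]

theorem E_one {x : ℝ} (hx : 0 ≤ x) : 36787 / 100000 ≤ exp (-1 * al x) := by
  have h1 : exp (-1) ≤ exp (-1 * al x) := exp_le_exp.2 (by linarith only [al_le_one hx])
  have h2 := exp_one_lt_d9
  have h3 : exp (-1) * exp 1 = 1 := by rw [← exp_add]; simp
  have h4 := exp_pos (-1 : ℝ)
  nlinarith

theorem kap_of {E x d e x0 d0 : ℝ} (he0 : 0 ≤ e) (he : e ≤ E) (hx0 : 0 ≤ x0) (hx : x0 ≤ x)
    (hd0 : 0 ≤ d0) (hd : d0 ≤ d) (h : 10 ≤ d0 * (e * x0)) : 10 ≤ d * (E * x) := by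
  have h1 := he0.trans he
  have h2 := hd0.trans hd
  exact h.trans (by gcongr)

theorem B_of {E x e x0 B : ℝ} (he0 : 0 ≤ e) (he : e ≤ E) (hx0 : 0 ≤ x0) (hx : x0 ≤ x)
    (h : B ^ (2 : ℕ) ≤ e * x0 ^ (2 : ℕ)) : B ^ (2 : ℕ) ≤ E * x ^ (2 : ℕ) := by
  have h1 := he0.trans he
  exact h.trans (by gcongr)

theorem B_of' {E x b e : ℝ} (he : e ≤ E) (h : b ^ (2 : ℕ) ≤ e) : (b * x) ^ (2 : ℕ) ≤ E * x ^ (2 : ℕ) := by
  rw [mul_pow]
  exact mul_le_mul_of_nonneg_right (h.trans he) (sq_nonneg x)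

theorem mu8 {x : ℝ} (h8 : 8 ≤ x) : 11 / 5 * ((1 + x) * (x - 9 / 10)) ≤
    1231 / 1000 * (x - 1571 / 1000) * (137 / 25 * (x - 9 / 10) - (1 + x) * (1571 / 1000)) := by
  nlinarith

theorem mu48 {x : ℝ} (h : 112 / 25 ≤ x) (h8 : x ≤ 8) : 11 / 5 * ((1 + x) * (x - 9 / 10)) ≤
    793 / 100 * (137 / 25 * (x - 9 / 10) - (1 + x) * (1571 / 1000)) := by
  nlinarith

theorem fin8 {x : ℝ} (h8 : 8 ≤ x) : (9613 / 10000000 * (x - 1571 / 1000) + 82 / 1000000 * x) *
    (x - 9 / 10) ≤ 12 / 10000 * (x - 9 / 10 - 1571 / 1000) * x := by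
  nlinarith

theorem ji_R {x y K ρ d : ℝ} (h : RF x y K ρ d) (hx : 3 ≤ x) (hy : y ≤ 0) : JI x y d := by
  have hx0 : 0 < x := by linarith only [hx]
  have hx1 : 0 < 1 + x := by linarith only [hx0]
  have hx9 : 0 < x - 9 / 10 := by linarith only [hx]
  have hN := rf_N h hx hy
  have hd := rf_d h
  have hlo := h.lo
  have hN' : -(1571 / 1000 / (x - 9 / 10)) ≤ y := by
    have : -y ≤ 1571 / 1000 / (x - 9 / 10) := by rwa [le_div_iff₀ hx9]
    linarith only [this]
  have hmN : 1571 / 1000 / (x - 9 / 10) * (x - 9 / 10) ≤ 1571 / 1000 := by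
    rw [div_mul_cancel₀ _ hx9.ne']
  have hm0 : 0 ≤ 1571 / 1000 / (x - 9 / 10) := by (clear * - hx9; positivity)
  have hE1 := E_one hx0.le
  have q105 : exp (-(21 / 2)) ≤ 277 / 10000000 :=
    exp_neg_le 10 (f := 50 / 100) (T := 1648 / 1000) (by norm_num) (by norm_num) (by norm_num)
      (by norm_num) (by norm_num) (by norm_num)
  have z11 := inner_le (d1 := 11) (d0 := 11) (z := 7 / 5)
    (A := 36 / 5) (s0 := 3317 / 1000) (q := 206 / 1000000000) (C := 55 / 1000000) (by norm_num)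
    le_rfl (by norm_num) (by norm_num) (by rw [sqrt_le_left (by norm_num)]; norm_num)
    (exp_neg_le 15 (f := 40 / 100) (T := 14917 / 10000) (by norm_num) (by norm_num) (by norm_num)
      (by norm_num) (by norm_num) (by norm_num)) (by norm_num)
  have z79 := inner_le (d1 := 793 / 100) (d0 := 793 / 100) (z := 7 / 4)
    (A := 36 / 5) (s0 := 28161 / 10000) (q := 943 / 1000000000) (C := 152 / 1000000) (by norm_num)
    le_rfl (by norm_num) (by norm_num) sqrt793
    (exp_neg_le 13 (f := 8775 / 10000) (T := 2399 / 1000) (by norm_num) (by norm_num) (by norm_num)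
      (by norm_num) (by norm_num) (by norm_num)) (by norm_num)
  have s3 : 173 / 100 ≤ √x := le_sqrt_of_sq_le (by norm_num; linarith only [hx])
  rcases le_total (53 / 100 * (x - 9 / 10)) (1571 / 1000) with h1 | h1
  · -- R1
    have hal := al_small hx0.le (by linarith only [h1])
    exact ji_R_of (m := 53 / 100) (d1 := 11) (G0 := 21 / 2) (z := 7 / 5)
      (q := 277 / 10000000) (c := 1052 / 1000000) (B := 1819 / 1000) (τ := 580 / 1000000)
      (σ := 70 / 1000000) (e := 588 / 1000) (Z := 55 / 1000000) (C := 66 / 1000000)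
      hx (by norm_num) le_rfl (by linarith only [hlo]) (by norm_num) (rf_d11 h (by linarith only [h1]) hy)
      (by rw [hal]; norm_num) (kap_of (by norm_num) hE1 (by norm_num) hx (by norm_num) le_rfl
        (by norm_num)) (by norm_num) (gr7a hx (by linarith only [h1])) (by norm_num)
      (fun s h2 h3 => (ptzd x (53 / 100) s hx (by norm_num) le_rfl h1 h2 h3).1)
      (c_side1 h hx hy (by linarith only [h1])) z11 q105 (by norm_num)
      (B_of (by norm_num) hE1 (by norm_num) hx (by norm_num)) (by norm_num)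
      (by norm_num) (exp_neg_ge (by norm_num) (by norm_num) (by norm_num) (by norm_num))
      (by linarith only [s3]) (by norm_num)
  have hm53 : 1571 / 1000 / (x - 9 / 10) ≤ 53 / 100 := by rwa [div_le_iff₀ hx9]
  rcases le_total x (112 / 25) with h2 | h2
  · -- R2
    have hal := al_small hx0.le h2
    have e53 : 588 / 1000 ≤ exp (-(1571 / 1000 / (x - 9 / 10))) :=
      (exp_neg_ge (t := 53 / 100) (by norm_num) (by norm_num) (by norm_num)
        (by norm_num)).trans (exp_le_exp.2 (by linarith only [hm53]))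
    exact ji_R_of (m := 1571 / 1000 / (x - 9 / 10)) (d1 := 11) (G0 := 21 / 2) (z := 7 / 5)
      (q := 277 / 10000000) (c := 1052 / 1000000) (B := 1819 / 1000) (τ := 580 / 1000000)
      (σ := 70 / 1000000) (e := 588 / 1000) (Z := 55 / 1000000) (C := 66 / 1000000)
      hx hm0 hm53 hN' (by norm_num) (rf_d11 h h2 hy)
      (by rw [hal]; linarith only [hm53]) (kap_of (by norm_num) hE1 (by norm_num) hx (by norm_num) le_rfl
        (by norm_num)) (by norm_num) (gr7b (by linarith only [h1]) h2) (by norm_num)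
      (fun s h3 h4 => (ptzd x _ s hx hm0 hm53 hmN h3 h4).1)
      (c_side1 h hx hy (by linarith only [h2])) z11 q105 (by norm_num)
      (B_of (by norm_num) hE1 (by norm_num) hx (by norm_num)) (by norm_num)
      (by norm_num) e53 (by linarith only [s3]) (by norm_num)
  have hal := al_big h2
  have hz : ∀ s, 3 / 2 ≤ s → s ≤ 137 / 25 →
      7 / 4 + 7 / 80 * (137 / 25 - s) ≤ hq x (-(1571 / 1000 / (x - 9 / 10))) (-1) s :=
    fun s h3 h4 => (ptzd x _ s hx hm0 hm53 hmN h3 h4).2 h2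
  have s4 : 211 / 100 ≤ √x := le_sqrt_of_sq_le (by norm_num; linarith only [h2])
  rcases le_total x 8 with h8 | h8
  swap
  · -- R6
    have s8 : 282 / 100 ≤ √x := le_sqrt_of_sq_le (by norm_num; linarith only [h8])
    have hd1 := rf_dR h hy
    have hx15 : 0 < x - 1571 / 1000 := by linarith only [h8]
    have hEe : 5432 / 10000 ≤ exp (-1 * al x) := by
      refine E_ge (t := 60889 / 100000) hx0.le ?_ (by norm_num) (by norm_num) (by norm_num)
      rw [hal, div_le_iff₀ hx1]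
      linarith only [h8]
    have hal2 : 0 ≤ al x - 1571 / 1000 / (x - 9 / 10) := by
      rw [hal, sub_nonneg, div_le_div_iff₀ hx9 hx1]
      linarith only [h8]
    have hμ : 11 / 5 ≤ 1231 / 1000 * (x - 1571 / 1000) * (al x - 1571 / 1000 / (x - 9 / 10)) := by
      have e1 : al x - 1571 / 1000 / (x - 9 / 10) =
          (137 / 25 * (x - 9 / 10) - (1 + x) * (1571 / 1000)) / ((1 + x) * (x - 9 / 10)) := by
        rw [hal, div_sub_div _ _ hx1.ne' hx9.ne']
      rw [e1, mul_div_assoc', le_div_iff₀ (by (clear * - hx hx9; positivity))]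
      exact mu8 h8
    have hκ : 10 ≤ 1231 / 1000 * (x - 1571 / 1000) * (exp (-1 * al x) * x) :=
      kap_of (d0 := 79 / 10) (by norm_num) hE1 (by norm_num) h8 (by norm_num) (by linarith only [h8])
        (by norm_num)
    refine ji_R_of (m := 1571 / 1000 / (x - 9 / 10)) (d1 := 1231 / 1000 * (x - 1571 / 1000))
      (G0 := 87 / 10) (z := 7 / 4)
      (q := 1668 / 10000000) (c := 7084 / 10000000 * (x - 1571 / 1000)) (B := 737 / 1000 * x)
      (τ := 9613 / 10000000 * ((x - 1571 / 1000) / x))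
      (σ := 82 / 1000000) (e := 1 - 1571 / 1000 / (x - 9 / 10)) (Z := 157 / 1000000)
      (C := 26 / 1000000 * √x)
      hx hm0 hm53 hN' (by linarith only [h8]) hd1 hμ hκ (by norm_num) (gu11 h8)
      (by norm_num) hz (c_side3 h hy h8) ?_
      (exp_neg_le 8 (f := 70 / 100) (T := 2012 / 1000) (by norm_num) (by norm_num) (by norm_num)
        (by norm_num) (by norm_num) (by norm_num)) (by linarith only [hx15]) ?_
      (by (clear * - hx15 hx; positivity)) ?_ ?_ (by linarith only [s8]) ?_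
    · exact inner_le (d0 := 791 / 100) (z := 7 / 4)
        (A := 36 / 5) (s0 := 28125 / 10000) (q := 977 / 1000000000) (C := 157 / 1000000)
        (by norm_num) (by linarith only [h8]) (by norm_num) (by norm_num)
        (by rw [sqrt_le_left (by norm_num)]; norm_num)
        (exp_neg_le 13 (f := 8425 / 10000) (T := 2317 / 1000) (by norm_num) (by norm_num)
          (by norm_num) (by norm_num) (by norm_num) (by norm_num)) (by norm_num)
    · exact B_of' hEe (by norm_num)
    · have e1 : 9613 / 10000000 * ((x - 1571 / 1000) / x) * (737 / 1000 * x) =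
          9613 / 10000000 * (737 / 1000) * (x - 1571 / 1000) := by
        field_simp
      rw [e1]
      exact mul_le_mul_of_nonneg_right (by norm_num) hx15.le
    · have := add_one_le_exp (-(1571 / 1000 / (x - 9 / 10)))
      linarith only [this]
    · have e1 : 9613 / 10000000 * ((x - 1571 / 1000) / x) + 82 / 1000000 =
          (9613 / 10000000 * (x - 1571 / 1000) + 82 / 1000000 * x) / x := by
        field_simp
      have e2 : 12 / 10000 * (1 - 1571 / 1000 / (x - 9 / 10)) =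
          12 / 10000 * (x - 9 / 10 - 1571 / 1000) / (x - 9 / 10) := by
        have h3 := div_mul_cancel₀ (1571 / 1000 : ℝ) hx9.ne'
        rw [eq_div_iff hx9.ne']
        linear_combination (-(12 / 10000)) * h3
      rw [e1, e2, div_le_div_iff₀ hx0 hx9]
      exact fin8 h8
  -- `x ≤ 8`
  have hμ : 11 / 5 ≤ 793 / 100 * (al x - 1571 / 1000 / (x - 9 / 10)) := by
    have e1 : al x - 1571 / 1000 / (x - 9 / 10) =
        (137 / 25 * (x - 9 / 10) - (1 + x) * (1571 / 1000)) / ((1 + x) * (x - 9 / 10)) := by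
      rw [hal, div_sub_div _ _ hx1.ne' hx9.ne']
    rw [e1, mul_div_assoc', le_div_iff₀ (by (clear * - hx hx9; positivity))]
    exact mu48 h2 h8
  have hκ : 10 ≤ 793 / 100 * (exp (-1 * al x) * x) :=
    kap_of (by norm_num) hE1 (by norm_num) h2 (by norm_num) le_rfl (by norm_num)
  rcases le_total x (13 / 2) with h3 | h3
  · -- R3
    have he : 64 / 100 ≤ exp (-(1571 / 1000 / (x - 9 / 10))) := by
      refine (exp_neg_ge (t := 439 / 1000) (by norm_num) (by norm_num) (by norm_num)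
        (by norm_num)).trans (exp_le_exp.2 ?_)
      have : 1571 / 1000 / (x - 9 / 10) ≤ 439 / 1000 := by
        rw [div_le_iff₀ hx9]
        linarith only [h2]
      linarith only [this]
    exact ji_R_of (m := 1571 / 1000 / (x - 9 / 10)) (d1 := 793 / 100) (G0 := 97 / 10) (z := 7 / 4)
      (q := 615 / 10000000) (c := 1683 / 1000000) (B := 2717 / 1000) (τ := 620 / 1000000)
      (σ := 1035 / 10000000) (e := 64 / 100) (Z := 152 / 1000000) (C := 66 / 1000000)
      hx hm0 hm53 hN' (by norm_num) hd hμ hκ (by norm_num) (gr8 h2 h3) (by norm_num) hz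
      (c_side1 h hx hy (by linarith only [h3])) z79
      (exp_neg_le 9 (f := 70 / 100) (T := 2012 / 1000) (by norm_num) (by norm_num) (by norm_num)
        (by norm_num) (by norm_num) (by norm_num)) (by norm_num)
      (B_of (by norm_num) hE1 (by norm_num) h2 (by norm_num)) (by norm_num)
      (by norm_num) he (by linarith only [s4]) (by norm_num)
  rcases le_total x (73 / 10) with h4 | h4
  · -- R4
    have s6 : 254 / 100 ≤ √x := le_sqrt_of_sq_le (by norm_num; linarith only [h3])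
    have hEe : 48 / 100 ≤ exp (-1 * al x) := by
      refine E_ge (t := 73067 / 100000) hx0.le ?_ (by norm_num) (by norm_num) (by norm_num)
      rw [hal, div_le_iff₀ hx1]
      linarith only [h3]
    have he : 75 / 100 ≤ exp (-(1571 / 1000 / (x - 9 / 10))) := by
      refine (exp_neg_ge (t := 2806 / 10000) (by norm_num) (by norm_num) (by norm_num)
        (by norm_num)).trans (exp_le_exp.2 ?_)
      have : 1571 / 1000 / (x - 9 / 10) ≤ 2806 / 10000 := by
        rw [div_le_iff₀ hx9]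
        linarith only [h3]
      linarith only [this]
    exact ji_R_of (m := 1571 / 1000 / (x - 9 / 10)) (d1 := 793 / 100) (G0 := 179 / 20) (z := 7 / 4)
      (q := 1302 / 10000000) (c := 3563 / 1000000) (B := 45 / 10) (τ := 792 / 1000000)
      (σ := 86 / 1000000) (e := 75 / 100) (Z := 152 / 1000000) (C := 66 / 1000000)
      hx hm0 hm53 hN' (by norm_num) hd hμ hκ (by norm_num) (gr9 h3 h4) (by norm_num) hz
      (c_side1 h hx hy (by linarith only [h4])) z79
      (exp_neg_le 8 (f := 95 / 100) (T := 2578 / 1000) (by norm_num) (by norm_num) (by norm_num)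
        (by norm_num) (by norm_num) (by norm_num)) (by norm_num)
      (B_of (by norm_num) hEe (by norm_num) h3 (by norm_num)) (by norm_num)
      (by norm_num) he (by linarith only [s6]) (by norm_num)
  · -- R5
    have s7 : 27 / 10 ≤ √x := le_sqrt_of_sq_le (by norm_num; linarith only [h4])
    have hEe : 515 / 1000 ≤ exp (-1 * al x) := by
      refine E_ge (t := 66025 / 100000) hx0.le ?_ (by norm_num) (by norm_num) (by norm_num)
      rw [hal, div_le_iff₀ hx1]
      linarith only [h4]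
    have he : 78 / 100 ≤ exp (-(1571 / 1000 / (x - 9 / 10))) := by
      refine (exp_neg_ge (t := 2455 / 10000) (by norm_num) (by norm_num) (by norm_num)
        (by norm_num)).trans (exp_le_exp.2 ?_)
      have : 1571 / 1000 / (x - 9 / 10) ≤ 2455 / 10000 := by
        rw [div_le_iff₀ hx9]
        linarith only [h4]
      linarith only [this]
    exact ji_R_of (m := 1571 / 1000 / (x - 9 / 10)) (d1 := 793 / 100) (G0 := 44 / 5) (z := 7 / 4)
      (q := 151 / 1000000) (c := 4132 / 1000000) (B := 523 / 100) (τ := 791 / 1000000)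
      (σ := 108 / 1000000) (e := 78 / 100) (Z := 152 / 1000000) (C := 139 / 1000000)
      hx hm0 hm53 hN' (by norm_num) hd hμ hκ (by norm_num) (gr10 h4 h8) (by norm_num) hz
      (c_side2 h hx hy h8) z79
      (exp_neg_le 8 (f := 80 / 100) (T := 2222 / 1000) (by norm_num) (by norm_num) (by norm_num)
        (by norm_num) (by norm_num) (by norm_num)) (by norm_num)
      (B_of (by norm_num) hEe (by norm_num) h4 (by norm_num)) (by norm_num)
      (by norm_num) he (by linarith only [s7]) (by norm_num)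

end SokamV3T

end
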