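import Pool.Agent.Lib_MP_af4de1_zy.Z77
import Pool.Agent.Lib_MP_af4de1_zy.Z78

/-! ### Lib_MP_af4de1_v3.CenZ6 -/

section
/-! # CEN: the rest, `1 - cos (θ+s) ≥ 6336/10000`, where `Dm ≥ 1/2` (needs `m ≥ (5/4) ρ`).

Left, `x = |s|/m ≤ 1`: `Qm ≥ (m/ρ - 1/2) x² ≥ (3/4) x²` and `(3/4) x² + 0.6336 e^(-x) ≥ 1/2` (minimum .537 at
`x = .32`); `x ≥ 1`: `Qm ≥ 3/4`.  Right: `e^a ≥ 1`.  Everywhere `Qm ≥ (2/5) (m/ρ) min (x²) x` (as
`m/ρ - 23/32 ≥ (2/5) m/ρ`, rays for `x ≥ 1`).  So `q Dm ≥ (1-ε) q/2 + ε q Qm`, and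
`∫ exp (-λ min (x²) |x|) dx ≤ √(π/λ) + 2/λ`, `λ = laR q m ρ ε`. -/

set_option autoImplicit false

namespace SokamCen

open Real MeasureTheory Set

/-- `Qm ≥ (2/5) (m/ρ) min (x²) |x|`, `x = s/m` -/
theorem Qm_min {m ρ s : ℝ} (hρ : 0 < ρ) (hm : 5 / 4 * ρ ≤ m) :
    2 / 5 * (m / ρ) * min ((s / m) ^ (2 : ℕ)) |s / m| ≤ Qm m ρ s := by
  have hρm : ρ ≤ m := by linarith only [hρ, hm]
  have hm0 : 0 < m := hρ.trans_le hρm
  have hmu : 5 / 4 ≤ m / ρ := by rwa [le_div_iff₀ hρ]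
  rcases eq_or_ne s 0 with rfl | h0
  · have h := Qm_nonneg hρ hρm 0
    simpa using h
  -- the common estimate
  have key : ∀ v : ℝ, 0 < v → 2 / 5 * (m / ρ) * min ((v / m) ^ (2 : ℕ)) (v / m) ≤
      (m / ρ - 23 / 32) / m ^ (2 : ℕ) * min 1 (m / v) * v ^ (2 : ℕ) := by
    intro v hv
    have h1 : min ((v / m) ^ (2 : ℕ)) (v / m) = min 1 (m / v) * (v / m) ^ (2 : ℕ) := by
      rcases le_total v m with h | h
      · have h2 : v / m ≤ 1 := by rwa [div_le_one hm0]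
        have h3 : 0 ≤ v / m := div_nonneg hv.le hm0.le
        have h4 : 1 ≤ m / v := by rwa [le_div_iff₀ hv, one_mul]
        have h5 : (v / m) ^ (2 : ℕ) ≤ v / m := by nlinarith only [h2, h3]
        rw [min_eq_left h4, min_eq_left h5, one_mul]
      · have h2 : 1 ≤ v / m := by rwa [le_div_iff₀ hm0, one_mul]
        have h4 : m / v ≤ 1 := by rwa [div_le_one hv]
        have h5 : v / m ≤ (v / m) ^ (2 : ℕ) := by nlinarith only [h2]
        rw [min_eq_right h4, min_eq_right h5]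
        field_simp
    have h2 : 2 / 5 * (m / ρ) ≤ m / ρ - 23 / 32 := by linarith only [hmu]
    have h3 : 0 ≤ min 1 (m / v) * (v / m) ^ (2 : ℕ) := by (clear * - hm0 hv; positivity)
    rw [h1]
    calc 2 / 5 * (m / ρ) * (min 1 (m / v) * (v / m) ^ (2 : ℕ))
        ≤ (m / ρ - 23 / 32) * (min 1 (m / v) * (v / m) ^ (2 : ℕ)) := mul_le_mul_of_nonneg_right h2 h3
      _ = (m / ρ - 23 / 32) / m ^ (2 : ℕ) * min 1 (m / v) * v ^ (2 : ℕ) := by
        field_simp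
  rcases lt_or_gt_of_ne h0 with hs | hs
  · have hv : 0 < -s := by linarith only [hs]
    have h1 := Qm_AL hρ hρm hv.le le_rfl hv
    rw [neg_neg] at h1
    have h2 := key (-s) hv
    have e1 : (-s / m) ^ (2 : ℕ) = (s / m) ^ (2 : ℕ) := by rw [neg_div, neg_sq]
    have e2 : |s / m| = -s / m := by
      rw [abs_of_nonpos (div_nonpos_of_nonpos_of_nonneg hs.le hm0.le), neg_div]
    rw [e1] at h2
    rw [e2]
    refine h2.trans (le_trans ?_ h1)
    unfold AL aL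
    have h3 : 0 < min 1 (m / -s) := cF_pos hm0 hv
    have h4 : (m / ρ - 23 / 32) / m ^ (2 : ℕ) ≤ (m / ρ - 1 / 2) / m ^ (2 : ℕ) :=
      div_le_div_of_nonneg_right (by linarith only []) (by (clear * - hm0; positivity))
    gcongr
  · have h1 := Qm_AR hρ hρm hs.le le_rfl hs
    have h2 := key s hs
    have e2 : |s / m| = s / m := abs_of_nonneg (div_nonneg hs.le hm0.le)
    rw [e2]
    refine h2.trans (le_trans ?_ h1)
    unfold AR aR
    have h3 : 0 < min 1 (m / s) := cF_pos hm0 hs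
    have hT0 := cT_nonneg hm0 hs.le
    have hT1 := cT_le m s
    have h4 : (m / ρ - 23 / 32) / m ^ (2 : ℕ) ≤
        (m / ρ - (1 + cT m s / 3 + 5 * cT m s ^ (2 : ℕ) / 48) / 2) / m ^ (2 : ℕ) :=
      div_le_div_of_nonneg_right (by nlinarith only [hT0, hT1]) (by (clear * - hm0; positivity))
    gcongr

theorem Dm_half {m ρ θ s : ℝ} (hρ : 0 < ρ) (hm : 5 / 4 * ρ ≤ m)
    (h : 6336 / 10000 ≤ 1 - cos (θ + s)) : 1 / 2 ≤ Dm m ρ θ s := by
  have hρm : ρ ≤ m := by linarith only [hρ, hm]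
  have hm0 : 0 < m := hρ.trans_le hρm
  have hmu : 5 / 4 ≤ m / ρ := by rwa [le_div_iff₀ hρ]
  rw [Dm_eq]
  rcases le_total 0 s with hs | hs
  · have h1 := Qm_nonneg hρ hρm s
    have h2 : 1 ≤ exp (pm m s) := one_le_exp (pm_nonneg hm0 hs)
    nlinarith only [h, h1, h2]
  · have hv : 0 ≤ -s := by linarith only [hs]
    rcases le_total (-s) m with h1 | h1
    · have hx1 : -s / m ≤ 1 := by rwa [div_le_one hm0]
      have hx0 : 0 ≤ -s / m := div_nonneg hv hm0.le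
      have h2 := Qm_left hρ hm0 hv hx1
      rw [neg_neg] at h2
      have hpa : pm m s = -(-s / m) := by
        rw [pm_mid hm0 (by linarith only [h1]) (by linarith only [hv, h1])]
        ring
      have e1 : aL m ρ * (-s) ^ (2 : ℕ) = (m / ρ - 1 / 2) * (-s / m) ^ (2 : ℕ) := by
        unfold aL
        field_simp
      rw [e1] at h2
      rw [hpa]
      generalize -s / m = x at *
      have h3 : 1 - x + x ^ (2 : ℕ) / 4 ≤ exp (-x) := by
        have h := Real.add_one_le_exp (-x / 2)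
        have h' : exp (-x) = exp (-x / 2) ^ (2 : ℕ) := by
          rw [← Real.exp_nat_mul]
          congr 1
          push_cast
          ring
        rw [h']
        have h'' := pow_le_pow_left₀ (by linarith only [hx1]) h 2
        refine le_trans (le_of_eq ?_) h''
        ring
      have h4 : (3 / 4 : ℝ) * x ^ (2 : ℕ) ≤ (m / ρ - 1 / 2) * x ^ (2 : ℕ) :=
        mul_le_mul_of_nonneg_right (by linarith only [hmu]) (sq_nonneg x)
      have h5 : (6336 / 10000 : ℝ) * exp (-x) ≤ exp (-x) * (1 - cos (θ + s)) := by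
        rw [mul_comm]
        exact mul_le_mul_of_nonneg_left h (exp_pos _).le
      have h6 : (6336 / 10000 : ℝ) * (1 - x + x ^ (2 : ℕ) / 4) ≤ 6336 / 10000 * exp (-x) := by linarith only [h3]
      nlinarith only [h2, h4, h5, h6, sq_nonneg (x - 7 / 20)]
    · have h2 := Qm_left hρ hm0 hm0.le (by rw [div_self hm0.ne'])
      have h3 := Qm_ray_left hρ hρm hm0 h1
      rw [neg_neg] at h3
      have e1 : aL m ρ * m ^ (2 : ℕ) = m / ρ - 1 / 2 := by
        unfold aL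
        field_simp
      rw [e1] at h2
      have h4 : 1 ≤ -s / m := by rwa [le_div_iff₀ hm0, one_mul]
      have h5 : 3 / 4 ≤ Qm m ρ (-m) * (-s / m) := by nlinarith only [hmu, h2, h4]
      have h6 : 0 ≤ exp (pm m s) * (1 - cos (θ + s)) :=
        mul_nonneg (exp_pos _).le (by linarith only [h])
      linarith only [h3, h5, h6]

private theorem zr_gauss {b : ℝ} (hb : 0 < b) :
    ∫⁻ s : ℝ, ENNReal.ofReal (exp (-b * s ^ (2 : ℕ))) = ENNReal.ofReal √(π / b) := by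
  rw [← ofReal_integral_eq_lintegral_ofReal (integrable_exp_neg_mul_sq hb)
    (Filter.Eventually.of_forall fun s => (exp_pos _).le), integral_gaussian]

private theorem zr_exp {b : ℝ} (hb : 0 < b) :
    ∫⁻ s : ℝ, ENNReal.ofReal (exp (-b * |s|)) = ENNReal.ofReal (2 / b) := by
  rw [← ofReal_integral_eq_lintegral_ofReal (SokamPG.integrable_exp_abs hb)
    (Filter.Eventually.of_forall fun s => (exp_pos _).le)]
  congr 1
  have h := integral_comp_abs (f := fun s => exp (-b * s))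
  rw [h, integral_exp_mul_Ioi (by linarith : -b < 0), mul_zero, exp_zero]
  field_simp

theorem zr_int {m la : ℝ} (hm : 0 < m) (hl : 0 < la) :
    ∫⁻ s : ℝ, ENNReal.ofReal (exp (-(la * min ((s / m) ^ (2 : ℕ)) |s / m|))) ≤
      ENNReal.ofReal (m * (√(π / la) + 2 / la)) := by
  have h1 : ∀ s : ℝ, ENNReal.ofReal (exp (-(la * min ((s / m) ^ (2 : ℕ)) |s / m|))) ≤
      ENNReal.ofReal (exp (-(la / m ^ (2 : ℕ)) * s ^ (2 : ℕ))) + ENNReal.ofReal (exp (-(la / m) * |s|)) := by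
    intro s
    rw [← ENNReal.ofReal_add (exp_pos _).le (exp_pos _).le]
    refine ENNReal.ofReal_le_ofReal ?_
    have e1 : -(la / m ^ (2 : ℕ)) * s ^ (2 : ℕ) = -(la * (s / m) ^ (2 : ℕ)) := by field_simp
    have e2 : -(la / m) * |s| = -(la * |s / m|) := by
      rw [abs_div, abs_of_pos hm]
      field_simp
    rw [e1, e2]
    have p1 := exp_pos (-(la * (s / m) ^ (2 : ℕ)))
    have p2 := exp_pos (-(la * |s / m|))
    rcases min_choice ((s / m) ^ (2 : ℕ)) |s / m| with h | h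
    · rw [h]
      linarith only [p2]
    · rw [h]
      linarith only [p1]
  refine (lintegral_mono h1).trans ?_
  rw [lintegral_add_left (by fun_prop), zr_gauss (by positivity), zr_exp (by (clear * - hl hm; positivity)),
    ← ENNReal.ofReal_add (by (clear * - hl hm; positivity)) (by positivity)]
  refine ENNReal.ofReal_le_ofReal (le_of_eq ?_)
  have e1 : π / (la / m ^ (2 : ℕ)) = m ^ (2 : ℕ) * (π / la) := by field_simp
  rw [e1, Real.sqrt_mul (by positivity), Real.sqrt_sq hm.le]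
  field_simp

/-- the rest with a general lower bound `d` of `Dm` -/
noncomputable def red (q m ρ ε d : ℝ) : ℝ :=
  exp (-((1 - ε) * (q * d))) * (m * (√(π / laR q m ρ ε) + 2 / laR q m ρ ε))

theorem red_half (q m ρ ε : ℝ) : red q m ρ ε (1 / 2) = re0 q m ρ ε := by
  unfold red re0
  congr 3
  ring

/-- REST on any set with `d ≤ Dm`. -/
theorem Zr_gen {q m ρ ε θ d : ℝ} {w : ℂ} {S : Set ℝ} (mS : MeasurableSet S) (hq : 0 < q)
    (hρ : 0 < ρ) (hm : 5 / 4 * ρ ≤ m) (hε0 : 0 < ε) (hε1 : ε < 1) (hw : ‖w‖ ≤ 17 / 10)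
    (hd : ∀ s ∈ S, d ≤ Dm m ρ θ s) :
    Zone q m ρ θ w S (red q m ρ ε d) (20 * red q m ρ ε d) (3 * red q m ρ ε d) := by
  have hρm : ρ ≤ m := by linarith only [hρ, hm]
  have hm0 : 0 < m := hρ.trans_le hρm
  have hla : 0 < laR q m ρ ε := by
    unfold laR
    (clear * - hε0 hq hm0 hρ; positivity)
  have hre : 0 ≤ red q m ρ ε d := by
    unfold red
    (clear * - hm0 hla; positivity)
  -- pointwise
  have hE : ∀ s ∈ S, exp (-(q * Dm m ρ θ s)) ≤ exp (-((1 - ε) * (q * d))) *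
      exp (-(laR q m ρ ε * min ((s / m) ^ (2 : ℕ)) |s / m|)) := by
    intro s hs
    rw [← exp_add]
    refine exp_le_exp.2 ?_
    have h1 := hd s hs
    have h2 := Qm_min (s := s) hρ hm
    have h3 : Qm m ρ s ≤ Dm m ρ θ s := by
      rw [Dm_eq]
      have h4 := Real.cos_le_one (θ + s)
      have h5 : 0 ≤ exp (pm m s) * (1 - cos (θ + s)) := mul_nonneg (exp_pos _).le (by linarith only [h4])
      linarith only [h5]
    have h4 : (1 - ε) * q * d ≤ (1 - ε) * q * Dm m ρ θ s :=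
      mul_le_mul_of_nonneg_left h1 (mul_nonneg (by linarith only [hε1]) hq.le)
    have h5 : ε * q * (2 / 5 * (m / ρ) * min ((s / m) ^ (2 : ℕ)) |s / m|) ≤ ε * q * Dm m ρ θ s :=
      mul_le_mul_of_nonneg_left (h2.trans h3) (mul_nonneg hε0.le hq.le)
    have e : laR q m ρ ε * min ((s / m) ^ (2 : ℕ)) |s / m| =
        ε * q * (2 / 5 * (m / ρ) * min ((s / m) ^ (2 : ℕ)) |s / m|) := by
      unfold laR
      ring
    rw [e]
    linarith only [h4, h5]
  have key : ∀ C : ℝ, 0 ≤ C → ∀ F : ℝ → ℝ, (∀ s, F s ≤ C) →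
      ∫⁻ s in S, ENNReal.ofReal (F s * exp (-(q * Dm m ρ θ s))) ≤
        ENNReal.ofReal (C * red q m ρ ε d) := by
    intro C hC F hF
    calc ∫⁻ s in S, ENNReal.ofReal (F s * exp (-(q * Dm m ρ θ s)))
        ≤ ∫⁻ s in S, ENNReal.ofReal (C * exp (-((1 - ε) * (q * d)))) *
            ENNReal.ofReal (exp (-(laR q m ρ ε * min ((s / m) ^ (2 : ℕ)) |s / m|))) := by
          refine setLIntegral_mono' mS fun s hs => ?_
          rw [← ENNReal.ofReal_mul (by (clear * - hC; positivity))]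
          refine ENNReal.ofReal_le_ofReal ?_
          rw [mul_assoc]
          exact mul_le_mul (hF s) (hE s hs) (exp_pos _).le hC
      _ ≤ ∫⁻ s : ℝ, ENNReal.ofReal (C * exp (-((1 - ε) * (q * d)))) *
            ENNReal.ofReal (exp (-(laR q m ρ ε * min ((s / m) ^ (2 : ℕ)) |s / m|))) :=
          setLIntegral_le_lintegral _ _
      _ = ENNReal.ofReal (C * exp (-((1 - ε) * (q * d)))) *
            ∫⁻ s : ℝ, ENNReal.ofReal (exp (-(laR q m ρ ε * min ((s / m) ^ (2 : ℕ)) |s / m|))) :=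
          lintegral_const_mul' _ _ ENNReal.ofReal_ne_top
      _ ≤ ENNReal.ofReal (C * exp (-((1 - ε) * (q * d)))) *
            ENNReal.ofReal (m * (√(π / laR q m ρ ε) + 2 / laR q m ρ ε)) :=
          mul_le_mul_right (zr_int hm0 hla) _
      _ = ENNReal.ofReal (C * red q m ρ ε d) := by
          rw [← ENNReal.ofReal_mul (by (clear * - hC; positivity))]
          congr 1
          unfold red
          ring
  have he : ∀ s, exp (pm m s) ≤ 272 / 100 := by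
    intro s
    have h1 := (abs_le.1 (pm_mem m s)).2
    have h2 := exp_le_exp.2 h1
    have h3 := Real.exp_one_lt_d9
    linarith only [h2, h3]
  refine ⟨?_, ?_, ?_⟩
  · have h := key 1 zero_le_one (fun _ => 1) fun _ => le_rfl
    simpa only [one_mul] using h
  · refine key 20 (by norm_num) (fun s => Wm m θ w s) fun s => ?_
    unfold Wm
    have h1 : ‖em m θ s - w‖ ≤ 272 / 100 + 17 / 10 := by
      refine (norm_sub_le _ _).trans (add_le_add ?_ hw)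
      rw [norm_em]
      exact he s
    have h2 := pow_le_pow_left₀ (norm_nonneg (em m θ s - w)) h1 2
    refine h2.trans (by norm_num)
  · exact key 3 (by norm_num) (fun s => exp (pm m s)) fun s => (he s).trans (by norm_num)

theorem Zr {q m ρ ε θ : ℝ} {w : ℂ} (hq : 0 < q) (hρ : 0 < ρ) (hm : 5 / 4 * ρ ≤ m) (hε0 : 0 < ε)
    (hε1 : ε < 1) (hw : ‖w‖ ≤ 17 / 10) :
    Zone q m ρ θ w {s | 6336 / 10000 ≤ 1 - cos (θ + s)} (re0 q m ρ ε) (20 * re0 q m ρ ε)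
      (3 * re0 q m ρ ε) := by
  rw [← red_half]
  exact Zr_gen (measurableSet_le measurable_const (by fun_prop)) hq hρ hm hε0 hε1 hw
    fun s hs => Dm_half hρ hm hs

end SokamCen

end

/-! ### Lib_MP_af4de1_v3.CenFarReal -/

section
namespace SokamF1
end SokamF1
namespace SokamV3
end SokamV3
/-!
# CEN: the real inequalities of the far zones, all fields of regime I, both sides

`A = AL m ρ c` or `AR m ρ c`, `c ≥ 5 + |η| + h`, `|η| ≤ (3/4) h`, `g ≤ 9/5`, `q ≤ 33/20`: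
`1 ≤ r A c`, `PF · 22 E/√r ≤ 1/1000000`, `PF · (24 (c/m)²/√r + 54/(r√r)) E · R/h² ≤ 1/200000`, `E = exp (-(r (A c²)))`.
`far_real` (raw), `far_realR`, `far_realL` (forms of `CenFar`), `far_ex` (both rays as one zone, any angle).
-/

set_option autoImplicit false

namespace SokamCen

open Real SokamV3 SokamF1

/-- clipped square -/
private theorem fa_clip {m c : ℝ} (hm : 0 < m) (hc : 0 < c) :
    min 1 (m / c) * (c / m) ^ (2 : ℕ) = min ((c / m) ^ (2 : ℕ)) (c / m) := by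
  rcases le_total c m with h | h
  · have h1 : 1 ≤ m / c := by rwa [one_le_div hc]
    have h2 : c / m ≤ 1 := by rwa [div_le_one hm]
    have h3 : 0 ≤ c / m := by positivity
    rw [min_eq_left h1, min_eq_left (by nlinarith only [h2, h3]), one_mul]
  · have h1 : m / c ≤ 1 := by rwa [div_le_one hc]
    have h2 : 1 ≤ c / m := by rwa [one_le_div hm]
    rw [min_eq_right h1, min_eq_right (by nlinarith only [h2])]
    field_simp

private theorem fa_AL {m ρ c : ℝ} (hρ : 0 < ρ) (hm : 5 / 4 * ρ ≤ m) (hc : 0 < c) :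
    17 / 40 * (m / ρ) * min ((c / m) ^ (2 : ℕ)) (c / m) ≤ AL m ρ c * c ^ (2 : ℕ) := by
  have hm0 : 0 < m := by linarith only [hρ, hm]
  have hU : 5 / 4 ≤ m / ρ := by
    rw [le_div_iff₀ hρ]
    linarith only [hm]
  have e : AL m ρ c * c ^ (2 : ℕ) = (m / ρ - 1 / 2) * (min 1 (m / c) * (c / m) ^ (2 : ℕ)) := by
    unfold AL aL
    field_simp
  rw [e, fa_clip hm0 hc]
  refine mul_le_mul_of_nonneg_right (by linarith only [hU]) ?_
  exact le_min (by positivity) (by (clear * - hc hm0; positivity))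

private theorem fa_AR {m ρ c : ℝ} (hρ : 0 < ρ) (hm : 5 / 4 * ρ ≤ m) (hc : 0 < c) :
    17 / 40 * (m / ρ) * min ((c / m) ^ (2 : ℕ)) (c / m) ≤ AR m ρ c * c ^ (2 : ℕ) := by
  have hm0 : 0 < m := by linarith only [hρ, hm]
  have hU : 5 / 4 ≤ m / ρ := by
    rw [le_div_iff₀ hρ]
    linarith only [hm]
  have hT0 := cT_nonneg hm0 hc.le
  have hT1 := cT_le m c
  have e : AR m ρ c * c ^ (2 : ℕ) = (m / ρ - (1 + cT m c / 3 + 5 * cT m c ^ (2 : ℕ) / 48) / 2) *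
      (min 1 (m / c) * (c / m) ^ (2 : ℕ)) := by
    unfold AR aR
    field_simp
  rw [e, fa_clip hm0 hc]
  refine mul_le_mul_of_nonneg_right ?_ (le_min (by (clear * - hc hm0; positivity)) (by (clear * - hc hm0; positivity)))
  nlinarith only [hU, hT0, hT1]

/-- facts on the exponents -/
private theorem fa_core {r U x Γ τ X G : ℝ} (hr : 499 / 10 ≤ r) (hU : 5 / 4 ≤ U) (hx : 0 < x)
    (hΓ : 27 / 5 ≤ Γ) (h0 : 0 ≤ τ) (h1 : τ ≤ 3 / 4)
    (hA : 16 / 25 * Γ * (169 / 50 + τ) ^ (2 : ℕ) ≤ r * x ^ (2 : ℕ))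
    (hB : 16 / 25 * Γ * (119 / 100 * (169 / 50 + τ)) ≤ r * x)
    (hX : 17 / 40 * U * (r * min (x ^ (2 : ℕ)) x) ≤ X) (hG : G ≤ 9 / 10 * Γ * τ ^ (2 : ℕ)) :
    18 ≤ X - G ∧ X ≤ 3 / 2 * (X - G) ∧ U ≤ X / 16 ∧ r * x ^ (2 : ℕ) * U ≤ 3 / 25 * X ^ (2 : ℕ) := by
  have hr0 : 0 < r := by linarith only [hr]
  have hU0 : 0 < U := by linarith only [hU]
  have hΓ0 : 0 < Γ := by linarith only [hΓ]
  have hGτ : 0 ≤ Γ * τ := by (clear * - hΓ h0; positivity)
  rcases le_total x 1 with h | h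
  · have hmin : min (x ^ (2 : ℕ)) x = x ^ (2 : ℕ) := min_eq_left (by nlinarith only [hB, hr0, hΓ0, hGτ, h])
    rw [hmin] at hX
    have a1 : 16 / 25 * Γ * (57 / 5 + 6 * τ) ≤ r * x ^ (2 : ℕ) := by
      refine le_trans ?_ hA
      have : 57 / 5 + 6 * τ ≤ (169 / 50 + τ) ^ (2 : ℕ) := by linarith only [h0, sq_nonneg τ]
      exact mul_le_mul_of_nonneg_left this (by (clear * - hΓ; positivity))
    have a2 : 39 ≤ r * x ^ (2 : ℕ) := by linarith only [hΓ, hGτ, a1]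
    have a3 : 17 / 40 * (5 / 4) * (r * x ^ (2 : ℕ)) ≤ X := by
      refine le_trans ?_ hX
      nlinarith only [hU, a2]
    have a4 : Γ * τ ^ (2 : ℕ) ≤ 3 / 4 * (Γ * τ) := by nlinarith only [h1, hGτ]
    have a5 : 17 / 40 * U * 39 ≤ X := le_trans (by nlinarith only [hU0, a2]) hX
    have a6 : (20 : ℝ) ≤ X := by linarith only [a2, a3]
    refine ⟨by linarith only [hΓ, hA, hG, a3, a4, a6], by linarith only [hG, hΓ0, a1, a2, a3, a4], by linarith only [a5, a6], ?_⟩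
    nlinarith only [a2, a3, a5]
  · have hmin : min (x ^ (2 : ℕ)) x = x := min_eq_right (by nlinarith only [h])
    rw [hmin] at hX
    have a0 : 499 / 10 ≤ r * x := by nlinarith only [hr, h]
    have a3 : 17 / 40 * (5 / 4) * (r * x) ≤ X := by
      refine le_trans ?_ hX
      nlinarith only [hU, a0]
    have a4 : Γ * τ ^ (2 : ℕ) ≤ 3 / 4 * (Γ * τ) := by nlinarith only [h1, hGτ]
    have a5 : 17 / 40 * U * (499 / 10) ≤ X := le_trans (by nlinarith only [hU0, a0]) hX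
    have a6 : (53 / 2 : ℝ) ≤ X := by linarith only [a0, a3]
    have a7 : 17 / 40 * (5 / 4) * (16 / 25 * Γ * (119 / 100 * (169 / 50 + τ))) ≤ X := by linarith only [hB, a3]
    have a8 : 9 / 10 * Γ * τ ^ (2 : ℕ) ≤ 31 / 100 * X := by
      have : 9 / 10 * Γ * τ ^ (2 : ℕ) ≤
          31 / 100 * (17 / 40 * (5 / 4) * (16 / 25 * Γ * (119 / 100 * (169 / 50 + τ)))) := by
        have h2 : 9 / 10 * τ ^ (2 : ℕ) ≤
            31 / 100 * (17 / 40 * (5 / 4) * (16 / 25 * (119 / 100 * (169 / 50 + τ)))) := by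
          nlinarith only [h0, h1]
        nlinarith only [hΓ0, h2]
      linarith only [a7, this]
    refine ⟨by linarith only [hG, a6, a8], by linarith only [hG, a6, a8], by linarith only [a5, a6], ?_⟩
    have b1 : 17 / 40 * (U * r * x) ≤ X := by linarith only [hX]
    have b2 : 0 ≤ 17 / 40 * (U * r * x) := by (clear * - hU hr hx; positivity)
    have b3 : (17 / 40 * (U * r * x)) ^ (2 : ℕ) ≤ X ^ (2 : ℕ) := pow_le_pow_left₀ b2 b1 2
    have b4 : (499 / 10) * (5 / 4) ≤ r * U := mul_le_mul hr hU (by norm_num) hr0.le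
    have b5 : 0 ≤ r * x ^ (2 : ℕ) * U := by positivity
    linarith only [b3, b5, mul_le_mul_of_nonneg_right b4 b5]

/-- `Y² e^(-Y) ≤ 1/180000`, `Y ≥ 18` -/
private theorem fa_exp {Y : ℝ} (hY : 18 ≤ Y) : Y ^ (2 : ℕ) * exp (-Y) ≤ 1 / 180000 := by
  have h1 : (60000000 : ℝ) ≤ exp 18 := by
    have h2 := Real.exp_one_gt_d9
    have h3 : exp 18 = exp 1 ^ (18 : ℕ) := by rw [← exp_nat_mul]; norm_num
    rw [h3]
    calc (60000000 : ℝ) ≤ 2.718 ^ (18 : ℕ) := by norm_num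
      _ ≤ exp 1 ^ (18 : ℕ) := pow_le_pow_left₀ (by norm_num) (by linarith only [h2]) 18
  have h4 := Real.quadratic_le_exp_of_nonneg (x := Y - 18) (by linarith only [hY])
  have h5 : Y ^ (2 : ℕ) ≤ 324 * exp (Y - 18) := by nlinarith only [hY, h4]
  have h6 : exp (Y - 18) * exp (-Y) = exp (-18) := by
    rw [← exp_add]
    congr 1
    ring
  have h7 : exp (-18) * 60000000 ≤ 1 := by
    have h8 : exp (-18) * exp 18 = 1 := by rw [← exp_add]; simp
    nlinarith only [h1, h8]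
  calc Y ^ (2 : ℕ) * exp (-Y) ≤ 324 * exp (Y - 18) * exp (-Y) :=
        mul_le_mul_of_nonneg_right h5 (exp_pos _).le
    _ = 324 * exp (-18) := by rw [mul_assoc, h6]
    _ ≤ 1 / 180000 := by linarith only [h7]

/-- the two bounds -/
private theorem fa_fin {r U x Γ X G P : ℝ} (hr : 499 / 10 ≤ r) (hU : 5 / 4 ≤ U)
    (hΓ : 27 / 5 ≤ Γ) (f1 : 18 ≤ X - G) (f2 : X ≤ 3 / 2 * (X - G)) (f3 : U ≤ X / 16)
    (f4 : r * x ^ (2 : ℕ) * U ≤ 3 / 25 * X ^ (2 : ℕ)) (hP : P ≤ 3 / 5 * √(r * U) * exp G) :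
    P * (22 * exp (-X) / √r) ≤ 1 / 1000000 ∧
      P * ((24 * x ^ (2 : ℕ) / √r + 54 / (r * √r)) * exp (-X)) * (r / Γ) ≤ 1 / 200000 := by
  have hr0 : 0 < r := by linarith only [hr]
  have hs : 0 < √r := Real.sqrt_pos.2 hr0
  have hs2 : √r * √r = r := Real.mul_self_sqrt hr0.le
  have hUU : √U ≤ U := by
    rw [Real.sqrt_le_left (by linarith only [hU])]
    nlinarith only [hU]
  have hP2 : P ≤ 3 / 5 * (√r * U) * exp G := by
    refine hP.trans (mul_le_mul_of_nonneg_right ?_ (exp_pos _).le)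
    rw [Real.sqrt_mul hr0.le]
    have := mul_le_mul_of_nonneg_left hUU hs.le
    linarith only [this]
  set Y := X - G with hY
  have hE : exp G * exp (-X) = exp (-Y) := by
    rw [← exp_add]
    congr 1
    rw [hY]
    ring
  have hEp := exp_pos (-Y)
  have h2 := fa_exp f1
  have h3 : Y * exp (-Y) ≤ Y ^ (2 : ℕ) * exp (-Y) / 18 := by
    have : Y * 18 ≤ Y ^ (2 : ℕ) := by nlinarith only [f1]
    nlinarith only [hEp, this]
  constructor
  · calc P * (22 * exp (-X) / √r) ≤ 3 / 5 * (√r * U) * exp G * (22 * exp (-X) / √r) :=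
          mul_le_mul_of_nonneg_right hP2 (by positivity)
      _ = 66 / 5 * U * (exp G * exp (-X)) := by
          field_simp
          ring
      _ = 66 / 5 * U * exp (-Y) := by rw [hE]
      _ ≤ 66 / 5 * (X / 16) * exp (-Y) := by gcongr
      _ ≤ 66 / 5 * (3 / 2 * Y / 16) * exp (-Y) := by gcongr
      _ ≤ 1 / 1000000 := by linarith only [h2, h3]
  · have hx2 : 0 ≤ x ^ (2 : ℕ) := sq_nonneg x
    have hΓ0 : 0 < Γ := by linarith only [hΓ]
    calc P * ((24 * x ^ (2 : ℕ) / √r + 54 / (r * √r)) * exp (-X)) * (r / Γ)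
        = P * (((24 * x ^ (2 : ℕ) / √r + 54 / (r * √r)) * exp (-X)) * (r / Γ)) := by ring
      _ ≤ 3 / 5 * (√r * U) * exp G * (((24 * x ^ (2 : ℕ) / √r + 54 / (r * √r)) * exp (-X)) * (r / Γ)) :=
          mul_le_mul_of_nonneg_right hP2 (by (clear * - hr hΓ; positivity))
      _ = 3 / 5 * (24 * (r * x ^ (2 : ℕ) * U) + 54 * U) / Γ * (exp G * exp (-X)) := by
          field_simp
      _ = 3 / 5 * (24 * (r * x ^ (2 : ℕ) * U) + 54 * U) / Γ * exp (-Y) := by rw [hE]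
      _ ≤ 3 / 5 * (24 * (3 / 25 * X ^ (2 : ℕ)) + 54 * (X / 16)) / (27 / 5) * exp (-Y) := by
          have hX0 : 0 ≤ X := by linarith only [hU, f3]
          refine mul_le_mul_of_nonneg_right ?_ hEp.le
          refine div_le_div₀ (by (clear * - hX0; positivity)) ?_ (by norm_num) hΓ
          linarith only [f3, f4]
      _ ≤ 3 / 5 * (24 * (3 / 25 * (3 / 2 * Y) ^ (2 : ℕ)) + 54 * (3 / 2 * Y / 16)) / (27 / 5) *
          exp (-Y) := by
          have hX0 : 0 ≤ X := by linarith only [hU, f3]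
          gcongr
      _ ≤ 1 / 200000 := by linarith only [h2, h3]

private theorem fa_s1 {c y h Γ M : ℝ} (hy : 0 ≤ y) (hc : c = y * h) (hh : h ≤ 21 / 10)
    (hΓ : 27 / 5 ≤ Γ) (hM : 119 / 100 ≤ M) : c * (19 / 10) ≤ 16 / 25 * Γ * (M * y) := by
  have h1 : (27 / 5 : ℝ) * (119 / 100) ≤ Γ * M := mul_le_mul hΓ hM (by norm_num) (by linarith only [hΓ])
  have h2 : c ≤ y * (21 / 10) := by
    rw [hc]
    exact mul_le_mul_of_nonneg_left hh hy
  have h3 := mul_le_mul_of_nonneg_right h1 hy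
  linarith only [hy, h2, h3]

private theorem fa_s2 {c y h Γ : ℝ} (hy : 169 / 50 ≤ y) (hc : c = y * h) (hh : h ≤ 21 / 10)
    (hΓ : 27 / 5 ≤ Γ) : c * (19 / 10) ≤ 16 / 25 * Γ * y ^ (2 : ℕ) := by
  have hy0 : 0 ≤ y := by linarith only [hy, hc]
  have h2 : c ≤ y * (21 / 10) := by
    rw [hc]
    exact mul_le_mul_of_nonneg_left hh hy0
  have h3 : (27 / 5 : ℝ) * (169 / 50 * y) ≤ Γ * y ^ (2 : ℕ) := by
    refine mul_le_mul hΓ ?_ (by positivity) (by linarith only [hΓ])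
    nlinarith only [hy]
  linarith only [hy0, h2, h3]

private theorem fa_s3 {c z : ℝ} (hc : 0 < c) (h : c * (19 / 10) ≤ z) :
    c ≤ 17 / 40 * (5 / 4) * z := by
  linarith only [hc, h]

/-- THE FAR ZONES: all fields of regime I, both sides. -/
theorem far_real {N : ℕ} {r δ η g q c A : ℝ} (hR : Reg1 N r δ) (hη : |η| ≤ 3 / 4 * hst N)
    (hg : g ≤ 9 / 5) (hq : q ≤ 33 / 20) (hc : 5 + |η| + hst N ≤ c)
    (hA : A = AL (mm (r * δ)) (r * δ) c ∨ A = AR (mm (r * δ)) (r * δ) c) :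
    1 ≤ r * A * c ∧ PF r δ η g q * (22 * exp (-(r * (A * c ^ (2 : ℕ)))) / √r) ≤ 1 / 1000000 ∧
      PF r δ η g q * ((24 * (c / mm (r * δ)) ^ (2 : ℕ) / √r + 54 / (r * √r)) *
        exp (-(r * (A * c ^ (2 : ℕ))))) * (RR r δ / hst N ^ (2 : ℕ)) ≤ 1 / 200000 := by
  have hr := hR.r0
  have hr0 : 0 < r := by linarith only [hr]
  have hδ := hR.d0
  have hρ : 0 < r * δ := mul_pos hr0 hδ
  have hN3 : (3 : ℝ) ≤ N := by exact_mod_cast hR.N3
  have hN0 : (0 : ℝ) < N := by linarith only [hN3]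
  have hpi := Real.pi_lt_d4
  have hpi0 := Real.pi_pos
  have hh0 : 0 < hst N := by
    unfold hst
    (clear * - hN3; positivity)
  have hh1 : hst N ≤ 2 * π / 3 := by
    unfold hst
    exact div_le_div_of_nonneg_left (by positivity) (by norm_num) hN3
  have hRR : RR r δ = 1 + (r * δ) ^ (2 : ℕ) := rfl
  have hRp : 0 < RR r δ := by
    rw [hRR]
    (clear * - hr hδ; positivity)
  have hmm : mm (r * δ) = 5 / 4 * √(RR r δ) := rfl
  have hsR : 0 < √(RR r δ) := Real.sqrt_pos.2 hRp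
  have hsq : √(RR r δ) * √(RR r δ) = RR r δ := Real.mul_self_sqrt hRp.le
  have hG : 27 / 5 ≤ r * hst N ^ (2 : ℕ) / RR r δ := hR.G
  have hI := hR.I
  set h := hst N with hhd
  set ρ := r * δ with hρd
  set R := RR r δ with hRd
  set m := mm ρ with hmd
  set Γ := r * h ^ (2 : ℕ) / R with hΓd
  set τ := |η| / h with hτd
  have hτ0 : 0 ≤ τ := by (clear * - hh0; positivity)
  have hτ1 : τ ≤ 3 / 4 := by
    rw [hτd, div_le_iff₀ hh0]
    exact hη
  have hητ : |η| = τ * h := by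
    rw [hτd]
    field_simp
  have hm0 : 0 < m := by rw [hmm]; (clear * - hRp; positivity)
  have hm2 : m ^ (2 : ℕ) = 25 / 16 * R := by
    rw [hmm]
    linarith only [hsq]
  have hmρ : 5 / 4 * ρ ≤ m := by
    rw [hmm]
    have : ρ ≤ √R := by
      refine Real.le_sqrt_of_sq_le ?_
      linarith only [hRR]
    linarith only [this]
  have hU : 5 / 4 ≤ m / ρ := by
    rw [le_div_iff₀ hρ]
    exact hmρ
  have hc0 : 0 < c := by
    have := abs_nonneg η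
    linarith only [hc, hh0, this]
  have hx : 0 < c / m := by (clear * - hc0 hm0; positivity)
  have hch : 169 / 50 + τ ≤ c / h := by
    rw [le_div_iff₀ hh0]
    rw [hητ] at hc
    have : h * (119 / 50) ≤ 5 := by linarith only [hpi, hh1]
    linarith only [hc, this]
  have hΓ0 : 0 < Γ := by linarith only [hG]
  have hrΓ : r = Γ * R / h ^ (2 : ℕ) := by
    rw [hΓd]
    field_simp
  have hmh : 119 / 100 ≤ m / h := by
    rw [le_div_iff₀ hh0]
    have : (119 / 100 * h) ^ (2 : ℕ) ≤ m ^ (2 : ℕ) := by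
      rw [hm2]
      linarith only [hRp, hI]
    exact le_of_sq_le_sq this hm0.le
  have e1 : r * (c / m) ^ (2 : ℕ) = 16 / 25 * Γ * (c / h) ^ (2 : ℕ) := by
    rw [div_pow, hm2, hΓd]
    field_simp
  have e2 : r * (c / m) = 16 / 25 * Γ * (m / h * (c / h)) := by
    have : r * (c / m) = 16 / 25 * (r * (16 / 25 * m ^ (2 : ℕ))⁻¹ * (m ^ (2 : ℕ))) * (c / m) * (25 / 16) * (16 / 25) := by
      field_simp
    have h3 : 16 / 25 * Γ * (m / h * (c / h)) = 16 / 25 * (r / R) * (m * c) := by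
      rw [hΓd]
      field_simp
    have h4 : R = 16 / 25 * m ^ (2 : ℕ) := by rw [hm2]; ring
    rw [h3, h4]
    field_simp
  have hAle : 16 / 25 * Γ * (169 / 50 + τ) ^ (2 : ℕ) ≤ r * (c / m) ^ (2 : ℕ) := by
    rw [e1]
    gcongr
  have hBle : 16 / 25 * Γ * (119 / 100 * (169 / 50 + τ)) ≤ r * (c / m) := by
    rw [e2]
    gcongr
  have hAc : 17 / 40 * (m / ρ) * min ((c / m) ^ (2 : ℕ)) (c / m) ≤ A * c ^ (2 : ℕ) := by
    rcases hA with rfl | rfl
    · exact fa_AL hρ hmρ hc0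
    · exact fa_AR hρ hmρ hc0
  have hX : 17 / 40 * (m / ρ) * (r * min ((c / m) ^ (2 : ℕ)) (c / m)) ≤ r * (A * c ^ (2 : ℕ)) := by
    have := mul_le_mul_of_nonneg_left hAc hr0.le
    linarith only [this]
  have hGG : g / 2 * (r * η ^ (2 : ℕ) / R) ≤ 9 / 10 * Γ * τ ^ (2 : ℕ) := by
    have h3 : r * η ^ (2 : ℕ) / R = Γ * τ ^ (2 : ℕ) := by
      rw [← sq_abs, hητ, hΓd]
      field_simp
    rw [h3]
    have : 0 ≤ Γ * τ ^ (2 : ℕ) := by (clear * - hr hh0 hRp; positivity)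
    nlinarith only [hg, this]
  obtain ⟨f1, f2, f3, f4⟩ := fa_core hr hU hx hG hτ0 hτ1 hAle hBle hX hGG
  have hR1 : 1 ≤ R := by
    have := sq_nonneg ρ
    linarith only [hRR, this]
  have hP : PF r δ η g q ≤ 3 / 5 * √(r * (m / ρ)) * exp (g / 2 * (r * η ^ (2 : ℕ) / R)) := by
    have e3 : √(r / (2 * π * ρ)) * √(q * √R) * √(1 + 1 / m ^ (2 : ℕ)) ≤ 3 / 5 * √(r * (m / ρ)) := by
      have e4 : √(q * √R) ≤ √(33 / 20 * √R) :=
        Real.sqrt_le_sqrt (mul_le_mul_of_nonneg_right hq hsR.le)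
      have e5 : √(1 + 1 / m ^ (2 : ℕ)) ≤ √(41 / 25) := by
        refine Real.sqrt_le_sqrt ?_
        have : 1 / m ^ (2 : ℕ) ≤ 16 / 25 := by
          rw [hm2, div_le_div_iff₀ (by (clear * - hRp; positivity)) (by norm_num)]
          linarith only [hR1]
        linarith only [this]
      have e6 : √((9 : ℝ) / 25) = 3 / 5 := by
        rw [show (9 : ℝ) / 25 = (3 / 5) ^ (2 : ℕ) by norm_num]
        exact Real.sqrt_sq (by norm_num)
      calc √(r / (2 * π * ρ)) * √(q * √R) * √(1 + 1 / m ^ (2 : ℕ))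
          ≤ √(r / (2 * π * ρ)) * √(33 / 20 * √R) * √(41 / 25) := by gcongr
        _ = √(r / (2 * π * ρ) * (33 / 20 * √R) * (41 / 25)) := by
            rw [← Real.sqrt_mul (show 0 ≤ r / (2 * π * ρ) by (clear * - hr hδ; positivity)),
              ← Real.sqrt_mul (show 0 ≤ r / (2 * π * ρ) * (33 / 20 * √R) by (clear * - hr hδ hRp; positivity))]
        _ ≤ √(9 / 25 * (r * (m / ρ))) := by
            refine Real.sqrt_le_sqrt ?_
            rw [hmm]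
            have e7 : r / (2 * π * ρ) * (33 / 20 * √R) * (41 / 25) =
                r * √R / ρ * (1353 / 1000 / π) := by
              field_simp
              ring
            have e8 : 9 / 25 * (r * (5 / 4 * √R / ρ)) = r * √R / ρ * (9 / 20) := by
              ring
            rw [e7, e8]
            refine mul_le_mul_of_nonneg_left ?_ (by (clear * - hr hRp hδ; positivity))
            rw [div_le_iff₀ hpi0]
            have := Real.pi_gt_d4
            linarith only [this]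
        _ = 3 / 5 * √(r * (m / ρ)) := by
            rw [Real.sqrt_mul (by norm_num), e6]
    have e9 : PF r δ η g q = √(r / (2 * π * ρ)) * √(q * √R) * √(1 + 1 / m ^ (2 : ℕ)) *
        exp (g / 2 * (r * η ^ (2 : ℕ) / R)) := by
      unfold PF LvF
      ring
    rw [e9]
    exact mul_le_mul_of_nonneg_right e3 (exp_pos _).le
  obtain ⟨g1, g2⟩ := fa_fin hr hU hG f1 f2 f3 f4 hP
  refine ⟨?_, g1, ?_⟩
  · -- the side condition
    have hXc : r * (A * c ^ (2 : ℕ)) = r * A * c * c := by ring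
    have k1 : 17 / 40 * (m / ρ) * (r * min ((c / m) ^ (2 : ℕ)) (c / m)) ≤ r * A * c * c := by
      rw [← hXc]
      exact hX
    have k2 : c ≤ 17 / 40 * (m / ρ) * (r * min ((c / m) ^ (2 : ℕ)) (c / m)) := by
      have k3 : 17 / 40 * (5 / 4) * (r * min ((c / m) ^ (2 : ℕ)) (c / m)) ≤
          17 / 40 * (m / ρ) * (r * min ((c / m) ^ (2 : ℕ)) (c / m)) := by
        have : 0 ≤ r * min ((c / m) ^ (2 : ℕ)) (c / m) := by (clear * - hr hc0 hm0; positivity)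
        nlinarith only [hU, this]
      refine le_trans ?_ k3
      have h2h : h ≤ 21 / 10 := by linarith only [hpi, hh1]
      have k5 : c = c / h * h := by field_simp
      have k6 : 0 ≤ c / h := by (clear * - hc0 hh0; positivity)
      have k4 : c * (19 / 10) ≤ r * (c / m) := by
        rw [e2]
        exact fa_s1 k6 k5 h2h hG hmh
      have k4' : c * (19 / 10) ≤ r * (c / m) ^ (2 : ℕ) := by
        rw [e1]
        exact fa_s2 (by linarith only [hτ0, hch]) k5 h2h hG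
      rcases min_choice ((c / m) ^ (2 : ℕ)) (c / m) with hmi | hmi
      · rw [hmi]
        exact fa_s3 hc0 k4'
      · rw [hmi]
        exact fa_s3 hc0 k4
    have k3 : c * 1 ≤ c * (r * A * c) := by
      rw [mul_one, mul_comm c]
      exact k2.trans k1
    exact le_of_mul_le_mul_left k3 hc0
  · have : R / h ^ (2 : ℕ) = r / Γ := by
      rw [hΓd]
      field_simp
    rw [this]
    exact g2

/-- The form of `farR`. -/
theorem far_realR {N : ℕ} {r δ η g q c : ℝ} (hR : Reg1 N r δ) (hη : |η| ≤ 3 / 4 * hst N)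
    (hg : g ≤ 9 / 5) (hq : q ≤ 33 / 20) (hc : 5 + |η| + hst N ≤ c) :
    1 ≤ r * AR (mm (r * δ)) (r * δ) c * c ∧
      PF r δ η g q * (8 * exp (-(r * (AR (mm (r * δ)) (r * δ) c * c ^ (2 : ℕ)))) / √r) ≤ 1 / 1000000 ∧
      PF r δ η g q * ((24 * (c / mm (r * δ)) ^ (2 : ℕ) / √r + 54 / (r * √r)) *
        exp (-(r * (AR (mm (r * δ)) (r * δ) c * c ^ (2 : ℕ))))) * (RR r δ / hst N ^ (2 : ℕ)) ≤ 1 / 200000 ∧
      PF r δ η g q * (22 * exp (-(r * (AR (mm (r * δ)) (r * δ) c * c ^ (2 : ℕ)))) / √r) / Gm N r δ ≤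
        1 / 5000000 := by
  obtain ⟨h1, h2, h3⟩ := far_real hR hη hg hq hc (Or.inr rfl)
  have hP := PF_nonneg r δ η g q
  have hr0 : 0 < r := by linarith only [hR.r0]
  refine ⟨h1, ?_, h3, ?_⟩
  · refine le_trans (mul_le_mul_of_nonneg_left ?_ hP) h2
    refine div_le_div_of_nonneg_right ?_ (Real.sqrt_nonneg _)
    linarith only [exp_pos (-(r * (AR (mm (r * δ)) (r * δ) c * c ^ (2 : ℕ))))]
  · rw [div_le_iff₀ (by linarith only [hR.G])]
    have := hR.G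
    linarith only [h2, this]

/-- The form of `farL`. -/
theorem far_realL {N : ℕ} {r δ η g q c : ℝ} (hR : Reg1 N r δ) (hη : |η| ≤ 3 / 4 * hst N)
    (hg : g ≤ 9 / 5) (hq : q ≤ 33 / 20) (hc : 5 + |η| + hst N ≤ c) :
    1 ≤ r * AL (mm (r * δ)) (r * δ) c * c ∧
      PF r δ η g q * (8 * exp (-(r * (AL (mm (r * δ)) (r * δ) c * c ^ (2 : ℕ)))) / √r) ≤ 1 / 1000000 ∧
      PF r δ η g q * ((8 * (c / mm (r * δ)) ^ (2 : ℕ) / √r + 54 / (r * √r)) *
        exp (-(r * (AL (mm (r * δ)) (r * δ) c * c ^ (2 : ℕ))))) * (RR r δ / hst N ^ (2 : ℕ)) ≤ 1 / 200000 ∧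
      PF r δ η g q * (8 * exp (-(r * (AL (mm (r * δ)) (r * δ) c * c ^ (2 : ℕ)))) / √r) / Gm N r δ ≤
        1 / 5000000 := by
  obtain ⟨h1, h2, h3⟩ := far_real hR hη hg hq hc (Or.inl rfl)
  have hP := PF_nonneg r δ η g q
  have hr0 : 0 < r := by linarith only [hR.r0]
  have h4 : PF r δ η g q * (8 * exp (-(r * (AL (mm (r * δ)) (r * δ) c * c ^ (2 : ℕ)))) / √r) ≤
      1 / 1000000 := by
    refine le_trans (mul_le_mul_of_nonneg_left ?_ hP) h2
    refine div_le_div_of_nonneg_right ?_ (Real.sqrt_nonneg _)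
    linarith only [exp_pos (-(r * (AL (mm (r * δ)) (r * δ) c * c ^ (2 : ℕ))))]
  refine ⟨h1, h4, ?_, ?_⟩
  · refine le_trans (mul_le_mul_of_nonneg_right (mul_le_mul_of_nonneg_left ?_ hP) ?_) h3
    · refine mul_le_mul_of_nonneg_right ?_ (exp_pos _).le
      have h5 : 8 * (c / mm (r * δ)) ^ (2 : ℕ) / √r ≤ 24 * (c / mm (r * δ)) ^ (2 : ℕ) / √r := by
        refine div_le_div_of_nonneg_right ?_ (Real.sqrt_nonneg _)
        linarith only [sq_nonneg (c / mm (r * δ))]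
      linarith only [h5]
    · have : 0 < RR r δ := by unfold RR; (clear * -; positivity)
      (clear * - this; positivity)
  · rw [div_le_iff₀ (by linarith only [hR.G])]
    have := hR.G
    linarith only [h4, this]

/-- Both rays as one zone, any angle. -/
theorem far_ex {N : ℕ} {r δ η g q c1 c2 : ℝ} (hR : Reg1 N r δ) (hη : |η| ≤ 3 / 4 * hst N)
    (hg : g ≤ 9 / 5) (hq : q ≤ 33 / 20) (h1 : 5 + |η| + hst N ≤ c1)
    (h2 : 5 + |η| + hst N ≤ c2) (θ : ℝ) :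
    ∃ F0 FW Fe : ℝ, 0 ≤ F0 ∧ 0 ≤ FW ∧ 0 ≤ Fe ∧
      Zone r (mm (r * δ)) (r * δ) θ 1 (Set.Ici c1 ∪ Set.Iic (-c2)) F0 FW Fe ∧
      PF r δ η g q * F0 ≤ 1 / 500000 ∧
      PF r δ η g q * FW * (RR r δ / hst N ^ (2 : ℕ)) ≤ 1 / 100000 ∧
      PF r δ η g q * Fe / Gm N r δ ≤ 1 / 2500000 := by
  obtain ⟨a1, a2, a3, a4⟩ := far_realR hR hη hg hq h1
  obtain ⟨b1, b2, b3, b4⟩ := far_realL hR hη hg hq h2
  have hr0 : 0 < r := by linarith only [hR.r0]
  have hρ : 0 < r * δ := mul_pos hr0 hR.d0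
  have hm : r * δ ≤ mm (r * δ) := by
    unfold mm
    have : r * δ ≤ √(1 + (r * δ) ^ (2 : ℕ)) := Real.le_sqrt_of_sq_le (by linarith only [])
    linarith only [hρ, this]
  have hm0 : 0 < mm (r * δ) := hρ.trans_le hm
  have hh0 : 0 ≤ hst N := by
    unfold hst
    (clear * -; positivity)
  have hc1 : 4 ≤ c1 := by linarith only [h1, hh0, abs_nonneg η]
  have hc2 : 4 ≤ c2 := by linarith only [h2, hh0, abs_nonneg η]
  have zR := farR (θ := θ) hr0 hρ hm hc1 rfl a1 rfl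
  have zL := farL (θ := θ) hr0 hρ hm hc2 rfl b1 rfl
  refine ⟨_, _, _, ?_, ?_, ?_, zR.union zL (by (clear * - hr0; positivity)) (by (clear * - hc1 hm0 hr0; positivity)) (by positivity)
    (by positivity) (by (clear * - hc2 hm0 hr0; positivity)) (by positivity), ?_, ?_, ?_⟩
  · (clear * - hr0; positivity)
  · (clear * - hc1 hm0 hr0 hc2; positivity)
  · (clear * - hr0; positivity)
  · rw [mul_add]
    linarith only [a2, b2]
  · rw [mul_add, add_mul]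
    linarith only [a3, b3]
  · rw [mul_add, add_div]
    linarith only [a4, b4]

end SokamCen

end

/-! ### Lib_MP_af4de1_v3.RestNum -/

section
namespace SokamV3
end SokamV3
/-!
# The rest zone: uniform numerical bounds (both sides)

`P = LvF r δ η g q * √(1 + 1/m²)`, `m = mm ρ`; `P * red r m ρ (1/20) d ≤ (41/2) √R exp (-(19/20) r d + (g/2) r η²/R)`.
-/

set_option autoImplicit false

namespace SokamCen

open Real SokamV3

/-- the closed form -/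
theorem rest_P {r δ η g q d : ℝ} (hr : 499 / 10 ≤ r) (hδ : 0 < δ) (hq0 : 0 ≤ q) (hq : q ≤ 2) :
    LvF r δ η g q * √(1 + 1 / mm (r * δ) ^ (2 : ℕ)) * red r (mm (r * δ)) (r * δ) (1 / 20) d ≤
      41 / 2 * √(RR r δ) * exp (-(19 / 20 * (r * d) - g / 2 * (r * η ^ (2 : ℕ) / RR r δ))) := by
  have hr0 : 0 < r := by linarith only [hr]
  have hρ : 0 < r * δ := mul_pos hr0 hδ
  obtain ⟨ρ, hρe⟩ : ∃ ρ, ρ = r * δ := ⟨_, rfl⟩
  obtain ⟨s, hs⟩ : ∃ s, s = √(RR r δ) := ⟨_, rfl⟩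
  have hRR : RR r δ = 1 + ρ ^ (2 : ℕ) := by rw [hρe]; rfl
  have hR0 : 0 < RR r δ := by rw [hRR]; positivity
  have hs0 : 0 < s := by rw [hs]; exact Real.sqrt_pos.2 hR0
  have hs2 : s ^ (2 : ℕ) = 1 + ρ ^ (2 : ℕ) := by rw [hs, Real.sq_sqrt hR0.le, hRR]
  have hs1 : 1 ≤ s := by nlinarith only [hs0, hs2]
  rw [← hρe] at hρ
  have hρs : ρ ≤ s := by nlinarith only [hs2, hs1]
  have hm : mm (r * δ) = 5 / 4 * s := by
    unfold mm
    rw [← hρe, ← hRR, ← hs]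
  have hla : laR r (mm (r * δ)) (r * δ) (1 / 20) = r * s / (40 * ρ) := by
    rw [hm, ← hρe]
    unfold laR
    field_simp
    ring
  have hpi := Real.pi_gt_d4
  have hpi0 := Real.pi_pos
  -- the two parts
  obtain ⟨A, hA⟩ : ∃ A, A = √(r / (2 * π * ρ)) * √(q * s) := ⟨_, rfl⟩
  have hA0 : 0 ≤ A := by rw [hA]; positivity
  have hA2 : A ^ (2 : ℕ) = r * q * s / (2 * π * ρ) := by
    rw [hA, mul_pow, Real.sq_sqrt (by positivity), Real.sq_sqrt (by positivity)]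
    field_simp
  have h1 : A * √(π / (r * s / (40 * ρ))) ≤ 6325 / 1000 := by
    refine abs_le_of_sq_le_sq' ?_ (by norm_num) |>.2
    rw [mul_pow, hA2, Real.sq_sqrt (by positivity)]
    have e : r * q * s / (2 * π * ρ) * (π / (r * s / (40 * ρ))) = 20 * q := by
      field_simp
      ring
    rw [e]
    linarith only [hq]
  have h2 : A * (2 / (r * s / (40 * ρ))) ≤ 639 / 100 := by
    refine abs_le_of_sq_le_sq' ?_ (by norm_num) |>.2
    rw [mul_pow, hA2]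
    have e : r * q * s / (2 * π * ρ) * (2 / (r * s / (40 * ρ))) ^ (2 : ℕ) =
        3200 * (q * (ρ / s)) / (π * r) := by
      field_simp
      ring
    rw [e, div_le_iff₀ (by positivity)]
    have h3 : ρ / s ≤ 1 := by rwa [div_le_one hs0]
    have h3' : 0 ≤ ρ / s := by positivity
    have h4 : q * (ρ / s) ≤ 2 * 1 := mul_le_mul hq h3 h3' (by norm_num)
    have h5 : (3.1415 : ℝ) * (499 / 10) ≤ π * r := mul_le_mul hpi.le hr (by norm_num) hpi0.le
    linarith only [h4, h5]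
  have h3 : √(1 + 1 / (5 / 4 * s) ^ (2 : ℕ)) ≤ 12807 / 10000 := by
    rw [Real.sqrt_le_left (by norm_num)]
    have : 1 / (5 / 4 * s) ^ (2 : ℕ) ≤ 16 / 25 := by
      rw [div_le_iff₀ (by positivity)]
      nlinarith only [hs1]
    linarith only [this]
  have hE1 := exp_pos (g / 2 * (r * η ^ (2 : ℕ) / RR r δ))
  have hE2 := exp_pos (-((1 - 1 / 20) * (r * d)))
  unfold LvF red
  rw [hla, hm, ← hρe, ← hs, ← hA]
  have e1 : exp (-(19 / 20 * (r * d) - g / 2 * (r * η ^ (2 : ℕ) / RR r δ))) =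
      exp (g / 2 * (r * η ^ (2 : ℕ) / RR r δ)) * exp (-((1 - 1 / 20) * (r * d))) := by
    rw [← exp_add]
    congr 1
    ring
  rw [e1]
  have e2 : A * exp (g / 2 * (r * η ^ (2 : ℕ) / RR r δ)) * √(1 + 1 / (5 / 4 * s) ^ (2 : ℕ)) *
      (exp (-((1 - 1 / 20) * (r * d))) *
        (5 / 4 * s * (√(π / (r * s / (40 * ρ))) + 2 / (r * s / (40 * ρ))))) =
      (A * √(π / (r * s / (40 * ρ))) + A * (2 / (r * s / (40 * ρ)))) *
        √(1 + 1 / (5 / 4 * s) ^ (2 : ℕ)) * (5 / 4) * s *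
        (exp (g / 2 * (r * η ^ (2 : ℕ) / RR r δ)) * exp (-((1 - 1 / 20) * (r * d)))) := by ring
  rw [e2]
  refine mul_le_mul_of_nonneg_right (mul_le_mul_of_nonneg_right ?_ hs0.le) (by positivity)
  have h4 : A * √(π / (r * s / (40 * ρ))) + A * (2 / (r * s / (40 * ρ))) ≤ 12715 / 1000 := by
    linarith only [h1, h2]
  have h5 : 0 ≤ A * √(π / (r * s / (40 * ρ))) + A * (2 / (r * s / (40 * ρ))) := by positivity
  have h6 := mul_le_mul h4 h3 (Real.sqrt_nonneg _) (by norm_num)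
  linarith only [h6]

/-! ## numbers -/

theorem sqrt_le_exp {x : ℝ} (hx : 0 ≤ x) : √(1 + x) ≤ exp (x / 2) := by
  have h1 : 1 + x ≤ exp x := by
    have := Real.add_one_le_exp x
    linarith only [this]
  have h2 : exp x = exp (x / 2) ^ (2 : ℕ) := by
    rw [← Real.exp_nat_mul]
    congr 1
    push_cast
    ring
  rw [Real.sqrt_le_left (exp_pos _).le, ← h2]
  exact h1

/-- `√r e^(-cr)` decreases -/
theorem sqrt_exp_mono {r c : ℝ} (hr : 499 / 10 ≤ r) (hc : 1 / 2 ≤ c * (499 / 10)) :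
    √r * exp (-(c * r)) ≤ √(499 / 10) * exp (-(c * (499 / 10))) := by
  obtain ⟨x, hx⟩ : ∃ x, x = r / (499 / 10) - 1 := ⟨_, rfl⟩
  have hx0 : 0 ≤ x := by
    rw [hx, sub_nonneg, one_le_div (by norm_num)]
    exact hr
  have hr' : r = 499 / 10 * (1 + x) := by
    rw [hx]
    ring
  rw [hr', Real.sqrt_mul (by norm_num), mul_assoc]
  refine mul_le_mul_of_nonneg_left ?_ (Real.sqrt_nonneg _)
  refine (mul_le_mul_of_nonneg_right (sqrt_le_exp hx0) (exp_pos _).le).trans ?_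
  rw [← exp_add]
  refine exp_le_exp.2 ?_
  have := mul_le_mul_of_nonneg_right hc hx0
  linarith only [this]

/-- `r √r e^(-cr)` decreases -/
theorem sqrt_exp_mono' {r c : ℝ} (hr : 499 / 10 ≤ r) (hc : 3 / 2 ≤ c * (499 / 10)) :
    r * √r * exp (-(c * r)) ≤ 499 / 10 * √(499 / 10) * exp (-(c * (499 / 10))) := by
  obtain ⟨x, hx⟩ : ∃ x, x = r / (499 / 10) - 1 := ⟨_, rfl⟩
  have hx0 : 0 ≤ x := by
    rw [hx, sub_nonneg, one_le_div (by norm_num)]
    exact hr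
  have hr' : r = 499 / 10 * (1 + x) := by
    rw [hx]
    ring
  rw [hr', Real.sqrt_mul (by norm_num)]
  have h1 : 1 + x ≤ exp x := by
    have := Real.add_one_le_exp x
    linarith only [this]
  have h2 := mul_le_mul h1 (sqrt_le_exp hx0) (Real.sqrt_nonneg _) (exp_pos _).le
  rw [← exp_add] at h2
  have h3 : exp (x + x / 2) * exp (-(c * (499 / 10 * (1 + x)))) ≤ exp (-(c * (499 / 10))) := by
    rw [← exp_add]
    refine exp_le_exp.2 ?_
    have := mul_le_mul_of_nonneg_right hc hx0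
    linarith only [this]
  have h4 := (mul_le_mul_of_nonneg_right h2 (exp_pos (-(c * (499 / 10 * (1 + x))))).le).trans h3
  have h5 : (0 : ℝ) ≤ 499 / 10 * √(499 / 10) := by positivity
  have h6 := mul_le_mul_of_nonneg_left h4 h5
  refine le_trans (le_of_eq ?_) h6
  ring

theorem sqrt_r0 : √(499 / 10) ≤ 7065 / 1000 := by
  rw [Real.sqrt_le_left (by norm_num)]
  norm_num

theorem exp_neg_nat {x : ℝ} {n : ℕ} (h : (n : ℝ) ≤ x) : exp (-x) ≤ (1 / 2.7182818) ^ n := by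
  have h1 : exp (-x) ≤ exp (-(n : ℝ)) := exp_le_exp.2 (by linarith only [h])
  refine h1.trans ?_
  have h2 : exp (-(n : ℝ)) = (1 / exp 1) ^ n := by
    rw [Real.exp_neg, one_div, inv_pow, ← Real.exp_nat_mul, mul_one]
  rw [h2]
  have h3 := Real.exp_one_gt_d9
  have h4 : 1 / exp 1 ≤ 1 / 2.7182818 := by
    refine div_le_div_of_nonneg_left (by norm_num) (by norm_num) ?_
    linarith only [h3]
  exact pow_le_pow_left₀ (by positivity) h4 n

/-- Small and middle `Γ`: `G0 ≤ Γ`, level exponent at most `K`, `√R ≤ σ √r`. -/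
theorem rest_AB {r δ η g q h G0 K σ : ℝ} {n : ℕ} (hr : 499 / 10 ≤ r) (hδ : 0 < δ) (hq0 : 0 ≤ q)
    (hq : q ≤ 2) (hh : 0 < h) (hG0 : 0 < G0) (hG : G0 ≤ r * h ^ (2 : ℕ) / RR r δ) (hσ : 0 ≤ σ)
    (hhG : h ^ (2 : ℕ) ≤ σ ^ (2 : ℕ) * G0) (hK : g / 2 * (r * η ^ (2 : ℕ) / RR r δ) ≤ K)
    (hn : (n : ℝ) ≤ 19 / 40 * (499 / 10) - K) :
    LvF r δ η g q * √(1 + 1 / mm (r * δ) ^ (2 : ℕ)) * re0 r (mm (r * δ)) (r * δ) (1 / 20) ≤
        145 * σ * (1 / 2.7182818) ^ n ∧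
      LvF r δ η g q * √(1 + 1 / mm (r * δ) ^ (2 : ℕ)) * (20 * re0 r (mm (r * δ)) (r * δ) (1 / 20)) *
          (RR r δ / h ^ (2 : ℕ)) ≤ 145000 / G0 * σ * (1 / 2.7182818) ^ n := by
  have hr0 : 0 < r := by linarith only [hr]
  have hR0 : 0 < RR r δ := by unfold RR; positivity
  have h1 := rest_P (η := η) (g := g) (d := 1 / 2) hr hδ hq0 hq
  rw [red_half] at h1
  obtain ⟨X, hX⟩ : ∃ X, X = LvF r δ η g q * √(1 + 1 / mm (r * δ) ^ (2 : ℕ)) *
    re0 r (mm (r * δ)) (r * δ) (1 / 20) := ⟨_, rfl⟩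
  have e1 : LvF r δ η g q * √(1 + 1 / mm (r * δ) ^ (2 : ℕ)) * (20 * re0 r (mm (r * δ)) (r * δ) (1 / 20)) *
      (RR r δ / h ^ (2 : ℕ)) = 20 * X * (RR r δ / h ^ (2 : ℕ)) := by
    rw [hX]
    ring
  rw [e1, ← hX]
  rw [← hX] at h1
  have hRle : RR r δ / h ^ (2 : ℕ) ≤ r / G0 := by
    rw [le_div_iff₀ hR0] at hG
    rw [div_le_div_iff₀ (by positivity) hG0]
    linarith only [hG]
  have hsR : √(RR r δ) ≤ σ * √r := by
    rw [Real.sqrt_le_left (by positivity), mul_pow, Real.sq_sqrt hr0.le]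
    rw [div_le_div_iff₀ (by positivity) hG0] at hRle
    have h2 : r * h ^ (2 : ℕ) ≤ r * (σ ^ (2 : ℕ) * G0) := mul_le_mul_of_nonneg_left hhG hr0.le
    have h3 : RR r δ * G0 ≤ (σ ^ (2 : ℕ) * r) * G0 := by linarith only [hRle, h2]
    exact le_of_mul_le_mul_right h3 hG0
  have h2 : X ≤ 41 / 2 * (σ * √r) * (exp (-(19 / 40 * r)) * exp K) := by
    refine h1.trans ?_
    have h3 : exp (-(19 / 20 * (r * (1 / 2)) - g / 2 * (r * η ^ (2 : ℕ) / RR r δ))) ≤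
        exp (-(19 / 40 * r)) * exp K := by
      rw [← exp_add]
      refine exp_le_exp.2 ?_
      linarith only [hK]
    exact mul_le_mul (mul_le_mul_of_nonneg_left hsR (by norm_num)) h3 (exp_pos _).le (by positivity)
  have hN : exp (-(19 / 40 * (499 / 10))) * exp K ≤ (1 / 2.7182818) ^ n := by
    rw [← exp_add]
    have e : -(19 / 40 * (499 / 10 : ℝ)) + K = -(19 / 40 * (499 / 10) - K) := by ring
    rw [e]
    exact exp_neg_nat hn
  have hs0 := sqrt_r0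
  have hEK := exp_pos K
  have hpow : (0 : ℝ) ≤ (1 / 2.7182818) ^ n := by positivity
  constructor
  · have h3 := sqrt_exp_mono (c := 19 / 40) hr (by norm_num)
    calc X ≤ 41 / 2 * (σ * √r) * (exp (-(19 / 40 * r)) * exp K) := h2
      _ = 41 / 2 * σ * exp K * (√r * exp (-(19 / 40 * r))) := by ring
      _ ≤ 41 / 2 * σ * exp K * (√(499 / 10) * exp (-(19 / 40 * (499 / 10)))) := by gcongr
      _ = 41 / 2 * σ * √(499 / 10) * (exp (-(19 / 40 * (499 / 10))) * exp K) := by ring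
      _ ≤ 41 / 2 * σ * (7065 / 1000) * (1 / 2.7182818) ^ n := by gcongr
      _ ≤ 145 * σ * (1 / 2.7182818) ^ n := by
        have : 0 ≤ σ * (1 / 2.7182818) ^ n := by positivity
        linarith only [this]
  · have h3 := sqrt_exp_mono' (c := 19 / 40) hr (by norm_num)
    calc 20 * X * (RR r δ / h ^ (2 : ℕ)) ≤ 20 * (41 / 2 * (σ * √r) * (exp (-(19 / 40 * r)) * exp K)) *
          (r / G0) := by
          have : 0 ≤ RR r δ / h ^ (2 : ℕ) := by positivity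
          gcongr
      _ = 410 * σ / G0 * exp K * (r * √r * exp (-(19 / 40 * r))) := by ring
      _ ≤ 410 * σ / G0 * exp K * (499 / 10 * √(499 / 10) * exp (-(19 / 40 * (499 / 10)))) := by
          gcongr
      _ = 410 * σ / G0 * (499 / 10) * √(499 / 10) * (exp (-(19 / 40 * (499 / 10))) * exp K) := by
          ring
      _ ≤ 410 * σ / G0 * (499 / 10) * (7065 / 1000) * (1 / 2.7182818) ^ n := by gcongr
      _ ≤ 145000 / G0 * σ * (1 / 2.7182818) ^ n := by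
        have : 0 ≤ σ / G0 * (1 / 2.7182818) ^ n := by positivity
        have e2 : 410 * σ / G0 * (499 / 10) * (7065 / 1000) * (1 / 2.7182818) ^ n =
            410 * (499 / 10) * (7065 / 1000) * (σ / G0 * (1 / 2.7182818) ^ n) := by ring
        have e3 : 145000 / G0 * σ * (1 / 2.7182818) ^ n =
            145000 * (σ / G0 * (1 / 2.7182818) ^ n) := by ring
        rw [e2, e3]
        exact mul_le_mul_of_nonneg_right (by norm_num) this

/-- REST, `27/5 ≤ Γ ≤ 10`, `|η| ≤ (3/4) h`, level `g ≤ 6/5` (both sides). -/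
theorem rest_A {r δ η g q h : ℝ} (hr : 499 / 10 ≤ r) (hδ : 0 < δ) (hq0 : 0 ≤ q) (hq : q ≤ 2)
    (hg : g ≤ 6 / 5) (hh : 0 < h) (hh2 : h ≤ 21 / 10) (hη : |η| ≤ 3 / 4 * h)
    (hG : 27 / 5 ≤ r * h ^ (2 : ℕ) / RR r δ) (hG2 : r * h ^ (2 : ℕ) / RR r δ ≤ 10) :
    LvF r δ η g q * √(1 + 1 / mm (r * δ) ^ (2 : ℕ)) * re0 r (mm (r * δ)) (r * δ) (1 / 20) ≤
        1 / 1000000 ∧
      LvF r δ η g q * √(1 + 1 / mm (r * δ) ^ (2 : ℕ)) * (20 * re0 r (mm (r * δ)) (r * δ) (1 / 20)) *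
          (RR r δ / h ^ (2 : ℕ)) ≤ 1 / 10000 ∧
      LvF r δ η g q * √(1 + 1 / mm (r * δ) ^ (2 : ℕ)) * (3 * re0 r (mm (r * δ)) (r * δ) (1 / 20)) /
          (r * h ^ (2 : ℕ) / RR r δ) ≤ 1 / 1000000 := by
  have hr0 : 0 < r := by linarith only [hr, hδ, hq0]
  have hR0 : 0 < RR r δ := by unfold RR; positivity
  have hη2 : η ^ (2 : ℕ) ≤ 9 / 16 * h ^ (2 : ℕ) := by
    rw [← sq_abs]
    have := pow_le_pow_left₀ (abs_nonneg η) hη 2
    linarith only [this]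
  have hK : g / 2 * (r * η ^ (2 : ℕ) / RR r δ) ≤ 27 / 8 := by
    have h1 : r * η ^ (2 : ℕ) / RR r δ ≤ 9 / 16 * (r * h ^ (2 : ℕ) / RR r δ) := by
      rw [← mul_div_assoc]
      refine div_le_div_of_nonneg_right ?_ hR0.le
      have := mul_le_mul_of_nonneg_left hη2 hr0.le
      linarith only [this]
    have h2 : 0 ≤ r * η ^ (2 : ℕ) / RR r δ := by positivity
    have h3 : g / 2 * (r * η ^ (2 : ℕ) / RR r δ) ≤ 3 / 5 * (r * η ^ (2 : ℕ) / RR r δ) :=
      mul_le_mul_of_nonneg_right (by linarith only [hg]) h2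
    linarith only [hG2, h1, h3]
  obtain ⟨h1, h2⟩ := rest_AB (n := 20) (G0 := 27 / 5) (K := 27 / 8) (σ := 91 / 100) (η := η)
    (g := g) (q := q) (h := h) hr hδ hq0 hq hh (by norm_num) hG (by norm_num) (by nlinarith only [hh, hh2]) hK
    (by norm_num)
  have h3 := h1.trans (show 145 * (91 / 100) * (1 / 2.7182818) ^ (20 : ℕ) ≤ (3 / 10000000 : ℝ) by
    norm_num)
  refine ⟨h3.trans (by norm_num), h2.trans (by norm_num), ?_⟩
  rw [div_le_iff₀ (by linarith only [hG])]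
  have e : LvF r δ η g q * √(1 + 1 / mm (r * δ) ^ (2 : ℕ)) * (3 * re0 r (mm (r * δ)) (r * δ) (1 / 20)) =
      3 * (LvF r δ η g q * √(1 + 1 / mm (r * δ) ^ (2 : ℕ)) * re0 r (mm (r * δ)) (r * δ) (1 / 20)) := by
    ring
  rw [e]
  linarith only [hG, h3]

/-- REST, `10 ≤ Γ ≤ 20`, `|η| ≤ (13/20) h`, level `g ≤ 13/10` (both sides). -/
theorem rest_B {r δ η g q h : ℝ} (hr : 499 / 10 ≤ r) (hδ : 0 < δ) (hq0 : 0 ≤ q) (hq : q ≤ 2)
    (hg : g ≤ 13 / 10) (hh : 0 < h) (hh2 : h ≤ 21 / 10) (hη : |η| ≤ 13 / 20 * h)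
    (hG : 10 ≤ r * h ^ (2 : ℕ) / RR r δ) (hG2 : r * h ^ (2 : ℕ) / RR r δ ≤ 20) :
    LvF r δ η g q * √(1 + 1 / mm (r * δ) ^ (2 : ℕ)) * re0 r (mm (r * δ)) (r * δ) (1 / 20) ≤
        1 / 500000 ∧
      LvF r δ η g q * √(1 + 1 / mm (r * δ) ^ (2 : ℕ)) * (20 * re0 r (mm (r * δ)) (r * δ) (1 / 20)) *
          (RR r δ / h ^ (2 : ℕ)) ≤ 1 / 5000 ∧
      LvF r δ η g q * √(1 + 1 / mm (r * δ) ^ (2 : ℕ)) * (3 * re0 r (mm (r * δ)) (r * δ) (1 / 20)) /
          (r * h ^ (2 : ℕ) / RR r δ) ≤ 1 / 1000000 := by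
  have hr0 : 0 < r := by linarith only [hr, hδ, hq0]
  have hR0 : 0 < RR r δ := by unfold RR; positivity
  have hη2 : η ^ (2 : ℕ) ≤ 169 / 400 * h ^ (2 : ℕ) := by
    rw [← sq_abs]
    have := pow_le_pow_left₀ (abs_nonneg η) hη 2
    linarith only [this]
  have hK : g / 2 * (r * η ^ (2 : ℕ) / RR r δ) ≤ 11 / 2 := by
    have h1 : r * η ^ (2 : ℕ) / RR r δ ≤ 169 / 400 * (r * h ^ (2 : ℕ) / RR r δ) := by
      rw [← mul_div_assoc]
      refine div_le_div_of_nonneg_right ?_ hR0.le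
      have := mul_le_mul_of_nonneg_left hη2 hr0.le
      linarith only [this]
    have h2 : 0 ≤ r * η ^ (2 : ℕ) / RR r δ := by positivity
    have h3 : g / 2 * (r * η ^ (2 : ℕ) / RR r δ) ≤ 13 / 20 * (r * η ^ (2 : ℕ) / RR r δ) :=
      mul_le_mul_of_nonneg_right (by linarith only [hg]) h2
    linarith only [hG2, h1, h3]
  obtain ⟨h1, h2⟩ := rest_AB (n := 18) (G0 := 10) (K := 11 / 2) (σ := 67 / 100) (η := η)
    (g := g) (q := q) (h := h) hr hδ hq0 hq hh (by norm_num) hG (by norm_num) (by nlinarith only [hh, hh2]) hK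
    (by norm_num)
  have h3 := h1.trans (show 145 * (67 / 100) * (1 / 2.7182818) ^ (18 : ℕ) ≤ (2 / 1000000 : ℝ) by
    norm_num)
  refine ⟨h3.trans (by norm_num), h2.trans (by norm_num), ?_⟩
  rw [div_le_iff₀ (by linarith only [hG])]
  have e : LvF r δ η g q * √(1 + 1 / mm (r * δ) ^ (2 : ℕ)) * (3 * re0 r (mm (r * δ)) (r * δ) (1 / 20)) =
      3 * (LvF r δ η g q * √(1 + 1 / mm (r * δ) ^ (2 : ℕ)) * re0 r (mm (r * δ)) (r * δ) (1 / 20)) := by
    ring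
  rw [e]
  linarith only [hG, h3]

theorem exp_half_ge : (1.6487 : ℝ) ≤ exp (1 / 2) := by
  have h1 := Real.exp_one_gt_d9
  have h2 : exp 1 = exp (1 / 2) ^ (2 : ℕ) := by
    rw [← Real.exp_nat_mul]
    norm_num
  by_contra hcon
  push Not at hcon
  have h3 := exp_pos (1 / 2 : ℝ)
  nlinarith

/-- half steps -/
theorem exp_neg_half {x : ℝ} {n : ℕ} (h : (n : ℝ) / 2 ≤ x) : exp (-x) ≤ (1 / 1.6487) ^ n := by
  have h1 : exp (-x) ≤ exp (-((n : ℝ) / 2)) := exp_le_exp.2 (by linarith only [h])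
  refine h1.trans ?_
  have h2 : exp (-((n : ℝ) / 2)) = (1 / exp (1 / 2)) ^ n := by
    rw [Real.exp_neg, one_div, inv_pow, ← Real.exp_nat_mul]
    congr 2
    ring
  rw [h2]
  have h3 := exp_half_ge
  have h4 : 1 / exp (1 / 2) ≤ 1 / 1.6487 :=
    div_le_div_of_nonneg_left (by norm_num) (by norm_num) h3
  exact pow_le_pow_left₀ (by positivity) h4 n

/-- Large `Γ`: `Γ ≥ 20`, `h²/R ≤ Y`, level exponent at most `κ Γ`. -/
theorem rest_C {r δ η g q h κ Y d : ℝ} {n : ℕ} (hr : 499 / 10 ≤ r) (hδ : 0 < δ) (hq0 : 0 ≤ q)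
    (hq : q ≤ 2) (hh : 0 < h) (hG : 20 ≤ r * h ^ (2 : ℕ) / RR r δ) (hY : h ^ (2 : ℕ) / RR r δ ≤ Y)
    (hκ : 3 / 40 ≤ κ) (hK : g / 2 * (r * η ^ (2 : ℕ) / RR r δ) ≤ κ * (r * h ^ (2 : ℕ) / RR r δ))
    (hc : 0 ≤ 19 / 20 * d - κ * Y) (hn : (n : ℝ) / 2 ≤ (19 / 20 * d - κ * Y) * (499 / 10)) :
    LvF r δ η g q * √(1 + 1 / mm (r * δ) ^ (2 : ℕ)) * red r (mm (r * δ)) (r * δ) (1 / 20) d ≤
        41 / 2 * (h / √Y) * (1 / 1.6487) ^ n ∧
      LvF r δ η g q * √(1 + 1 / mm (r * δ) ^ (2 : ℕ)) * (20 * red r (mm (r * δ)) (r * δ) (1 / 20) d) *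
          (RR r δ / h ^ (2 : ℕ)) ≤ 410 * (h / (Y * √Y)) * (1 / 1.6487) ^ n := by
  have hr0 : 0 < r := by linarith only [hr]
  have hR0 : 0 < RR r δ := by unfold RR; positivity
  have h1 := rest_P (η := η) (g := g) (d := d) hr hδ hq0 hq
  obtain ⟨X, hX⟩ : ∃ X, X = LvF r δ η g q * √(1 + 1 / mm (r * δ) ^ (2 : ℕ)) *
    red r (mm (r * δ)) (r * δ) (1 / 20) d := ⟨_, rfl⟩
  have e1 : LvF r δ η g q * √(1 + 1 / mm (r * δ) ^ (2 : ℕ)) * (20 * red r (mm (r * δ)) (r * δ) (1 / 20) d) *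
      (RR r δ / h ^ (2 : ℕ)) = 20 * X * (RR r δ / h ^ (2 : ℕ)) := by
    rw [hX]
    ring
  rw [e1, ← hX]
  rw [← hX] at h1
  obtain ⟨y, hy⟩ : ∃ y, y = h ^ (2 : ℕ) / RR r δ := ⟨_, rfl⟩
  have hy0 : 0 < y := by rw [hy]; positivity
  have hRy : RR r δ = h ^ (2 : ℕ) / y := by
    rw [hy]
    field_simp
  have ery : r * y = r * h ^ (2 : ℕ) / RR r δ := by rw [hy, mul_div_assoc]
  have hG' : 20 ≤ r * y := by rw [ery]; exact hG
  have hK' : g / 2 * (r * η ^ (2 : ℕ) / RR r δ) ≤ κ * (r * y) := by rw [ery]; exact hK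
  rw [← hy] at hY
  have hY0 : 0 < Y := hy0.trans_le hY
  obtain ⟨u, hu⟩ : ∃ u, u = Y / y - 1 := ⟨_, rfl⟩
  have hu0 : 0 ≤ u := by
    rw [hu, sub_nonneg, one_le_div hy0]
    exact hY
  have hYy : Y / y = 1 + u := by rw [hu]; ring
  have hκG : 3 / 2 ≤ κ * (r * y) := by nlinarith only [hκ, hG']
  have hsR : √(RR r δ) = h / √Y * √(1 + u) := by
    rw [hRy, Real.sqrt_div (sq_nonneg h), Real.sqrt_sq hh.le, ← hYy, Real.sqrt_div hY0.le]
    have h3 : 0 < √Y := Real.sqrt_pos.2 hY0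
    have h4 : 0 < √y := Real.sqrt_pos.2 hy0
    field_simp
  have hRh : RR r δ / h ^ (2 : ℕ) = 1 / Y * (1 + u) := by
    rw [hRy, ← hYy]
    field_simp
  have eu : κ * (r * y) = κ * (r * Y) - κ * (r * y) * u := by
    rw [hu]
    field_simp
    ring
  have hE : exp (-(19 / 20 * (r * d) - g / 2 * (r * η ^ (2 : ℕ) / RR r δ))) ≤
      exp (-((19 / 20 * d - κ * Y) * (499 / 10))) * exp (-(κ * (r * y) * u)) := by
    rw [← exp_add]
    refine exp_le_exp.2 ?_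
    have h3 : (19 / 20 * d - κ * Y) * (499 / 10) ≤ (19 / 20 * d - κ * Y) * r :=
      mul_le_mul_of_nonneg_left hr hc
    linarith only [hK', eu, h3]
  have hN := exp_neg_half hn
  have hs := sqrt_le_exp hu0
  have h1u : 1 + u ≤ exp u := by
    have := Real.add_one_le_exp u
    linarith only [this]
  have hsY : 0 < √Y := Real.sqrt_pos.2 hY0
  have hX1 : X ≤ 41 / 2 * (h / √Y * √(1 + u)) *
      ((1 / 1.6487) ^ n * exp (-(κ * (r * y) * u))) := by
    rw [hsR] at h1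
    refine h1.trans ?_
    refine mul_le_mul_of_nonneg_left (hE.trans ?_) (by positivity)
    exact mul_le_mul_of_nonneg_right hN (exp_pos _).le
  constructor
  · refine hX1.trans ?_
    have h3 : √(1 + u) * exp (-(κ * (r * y) * u)) ≤ 1 := by
      refine (mul_le_mul_of_nonneg_right hs (exp_pos _).le).trans ?_
      rw [← exp_add]
      refine exp_le_one_iff.2 ?_
      nlinarith only [hu0, hκG]
    have h4 : 0 ≤ 41 / 2 * (h / √Y) * (1 / 1.6487) ^ n := by positivity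
    have h5 := mul_le_mul_of_nonneg_left h3 h4
    refine le_trans (le_of_eq ?_) (h5.trans (le_of_eq (mul_one _)))
    ring
  · rw [hRh]
    have h3 : (1 + u) * √(1 + u) * exp (-(κ * (r * y) * u)) ≤ 1 := by
      have h4 := mul_le_mul h1u hs (Real.sqrt_nonneg _) (exp_pos _).le
      refine (mul_le_mul_of_nonneg_right h4 (exp_pos _).le).trans ?_
      rw [← exp_add, ← exp_add]
      refine exp_le_one_iff.2 ?_
      linarith only [mul_le_mul_of_nonneg_right hκG hu0]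
    have h4 : 0 ≤ 410 * (h / (Y * √Y)) * (1 / 1.6487) ^ n := by positivity
    have h5 := mul_le_mul_of_nonneg_left h3 h4
    have h6 : 20 * X * (1 / Y * (1 + u)) ≤ 20 * (41 / 2 * (h / √Y * √(1 + u)) *
        ((1 / 1.6487) ^ n * exp (-(κ * (r * y) * u)))) * (1 / Y * (1 + u)) := by
      have : 0 ≤ 1 / Y * (1 + u) := by positivity
      gcongr
    refine h6.trans (le_trans (le_of_eq ?_) (h5.trans (le_of_eq (mul_one _))))
    field_simp
    ring

/-- `Dm ≥ 53/100` on the rest, both sides -/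
theorem Dm_53 {m ρ θ s : ℝ} (hρ : 0 < ρ) (hm : 5 / 4 * ρ ≤ m)
    (h : 6336 / 10000 ≤ 1 - cos (θ + s)) : 53 / 100 ≤ Dm m ρ θ s := by
  have hρm : ρ ≤ m := by linarith only [hρ, hm]
  have hm0 : 0 < m := hρ.trans_le hρm
  have hmu : 5 / 4 ≤ m / ρ := by rwa [le_div_iff₀ hρ]
  rw [Dm_eq]
  rcases le_total 0 s with hs | hs
  · have h1 := Qm_nonneg hρ hρm s
    have h2 : 1 ≤ exp (pm m s) := one_le_exp (pm_nonneg hm0 hs)
    nlinarith only [h, h1, h2]
  · have hv : 0 ≤ -s := by linarith only [hs]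
    rcases le_total (-s) m with h1 | h1
    · have hx1 : -s / m ≤ 1 := by rwa [div_le_one hm0]
      have hx0 : 0 ≤ -s / m := div_nonneg hv hm0.le
      have h2 := Qm_left hρ hm0 hv hx1
      rw [neg_neg] at h2
      have hpa : pm m s = -(-s / m) := by
        rw [pm_mid hm0 (by linarith only [h1]) (by linarith only [hv, h1])]
        ring
      have e1 : aL m ρ * (-s) ^ (2 : ℕ) = (m / ρ - 1 / 2) * (-s / m) ^ (2 : ℕ) := by
        unfold aL
        field_simp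
      rw [e1] at h2
      rw [hpa]
      generalize -s / m = x at *
      have h3 := SokamCel.em3 hx0
      have h4 : (3 / 4 : ℝ) * x ^ (2 : ℕ) ≤ (m / ρ - 1 / 2) * x ^ (2 : ℕ) :=
        mul_le_mul_of_nonneg_right (by linarith only [hmu]) (sq_nonneg x)
      have h5 : (6336 / 10000 : ℝ) * exp (-x) ≤ exp (-x) * (1 - cos (θ + s)) := by
        rw [mul_comm]
        exact mul_le_mul_of_nonneg_left h (exp_pos _).le
      have h6 : (6336 / 10000 : ℝ) * (1 - x + x ^ (2 : ℕ) / 2 - x ^ (3 : ℕ) / 6) ≤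
        6336 / 10000 * exp (-x) := by linarith only [h3]
      have h7 : (53 / 100 : ℝ) ≤ 3 / 4 * x ^ (2 : ℕ) + 6336 / 10000 * (1 - x + x ^ (2 : ℕ) / 2 - x ^ (3 : ℕ) / 6) := by
        have h8 : 0 ≤ x ^ (2 : ℕ) * (1 - x) := mul_nonneg (sq_nonneg x) (by linarith only [hx1])
        nlinarith only [h8, sq_nonneg (x - 33 / 100)]
      linarith only [h2, h4, h5, h6, h7]
    · have h2 := Qm_left hρ hm0 hm0.le (by rw [div_self hm0.ne'])
      have h3 := Qm_ray_left hρ hρm hm0 h1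
      rw [neg_neg] at h3
      have e1 : aL m ρ * m ^ (2 : ℕ) = m / ρ - 1 / 2 := by
        unfold aL
        field_simp
      rw [e1] at h2
      have h4 : 1 ≤ -s / m := by rwa [le_div_iff₀ hm0, one_mul]
      have h5 : 3 / 4 ≤ Qm m ρ (-m) * (-s / m) := by nlinarith only [hmu, h2, h4]
      have h6 : 0 ≤ exp (pm m s) * (1 - cos (θ + s)) :=
        mul_nonneg (exp_pos _).le (by linarith only [h])
      linarith only [h3, h5, h6]

private theorem C_aux {r δ η g h κ τ : ℝ} (hr0 : 0 < r) (hτ : |η| ≤ τ * h)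
    (hg0 : 0 ≤ g) (hκ : g / 2 * τ ^ (2 : ℕ) ≤ κ) :
    g / 2 * (r * η ^ (2 : ℕ) / RR r δ) ≤ κ * (r * h ^ (2 : ℕ) / RR r δ) := by
  have hR0 : 0 < RR r δ := by unfold RR; positivity
  have hη2 : η ^ (2 : ℕ) ≤ τ ^ (2 : ℕ) * h ^ (2 : ℕ) := by
    rw [← sq_abs, ← mul_pow]
    exact pow_le_pow_left₀ (abs_nonneg η) hτ 2
  have h1 : r * η ^ (2 : ℕ) / RR r δ ≤ τ ^ (2 : ℕ) * (r * h ^ (2 : ℕ) / RR r δ) := by
    rw [← mul_div_assoc]
    refine div_le_div_of_nonneg_right ?_ hR0.le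
    have := mul_le_mul_of_nonneg_left hη2 hr0.le
    linarith only [this]
  calc g / 2 * (r * η ^ (2 : ℕ) / RR r δ) ≤ g / 2 * (τ ^ (2 : ℕ) * (r * h ^ (2 : ℕ) / RR r δ)) :=
        mul_le_mul_of_nonneg_left h1 (by linarith only [hg0])
    _ = g / 2 * τ ^ (2 : ℕ) * (r * h ^ (2 : ℕ) / RR r δ) := by ring
    _ ≤ κ * (r * h ^ (2 : ℕ) / RR r δ) := mul_le_mul_of_nonneg_right hκ (by positivity)

private theorem sq_ge {Y a : ℝ} (h : a ^ (2 : ℕ) ≤ Y) : a ≤ √Y := Real.le_sqrt_of_sq_le h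

/-- REST, `Γ ≥ 20`, `h²/R ≤ 7/10`, `|η| ≤ (3/5) h`, level `g ≤ 3/2` (both sides), `d = 1/2`. -/
theorem rest_C1 {r δ η g q h : ℝ} (hr : 499 / 10 ≤ r) (hδ : 0 < δ) (hq0 : 0 ≤ q) (hq : q ≤ 2)
    (hg0 : 0 ≤ g) (hg : g ≤ 3 / 2) (hh : 0 < h) (hh2 : h ≤ 21 / 10) (hη : |η| ≤ 3 / 5 * h)
    (hG : 20 ≤ r * h ^ (2 : ℕ) / RR r δ) (hY : h ^ (2 : ℕ) / RR r δ ≤ 7 / 10) :
    LvF r δ η g q * √(1 + 1 / mm (r * δ) ^ (2 : ℕ)) * red r (mm (r * δ)) (r * δ) (1 / 20) (1 / 2) ≤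
        1 / 20000 ∧
      LvF r δ η g q * √(1 + 1 / mm (r * δ) ^ (2 : ℕ)) *
        (20 * red r (mm (r * δ)) (r * δ) (1 / 20) (1 / 2)) * (RR r δ / h ^ (2 : ℕ)) ≤ 13 / 10000 ∧
      LvF r δ η g q * √(1 + 1 / mm (r * δ) ^ (2 : ℕ)) *
        (3 * red r (mm (r * δ)) (r * δ) (1 / 20) (1 / 2)) / (r * h ^ (2 : ℕ) / RR r δ) ≤ 1 / 100000 := by
  have hr0 : 0 < r := by linarith only [hr, hδ, hq0]
  obtain ⟨h1, h2⟩ := rest_C (n := 28) (κ := 27 / 100) (Y := 7 / 10) (d := 1 / 2) (η := η)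
    (g := g) (q := q) (h := h) hr hδ hq0 hq hh hG hY (by norm_num)
    (C_aux hr0 hη hg0 (by linarith only [hg])) (by norm_num) (by norm_num)
  have h3 : (8366 / 10000 : ℝ) ≤ √(7 / 10) := sq_ge (by norm_num)
  have h4 : h / √(7 / 10) ≤ 21 / 10 / (8366 / 10000) := by
    gcongr
  have h5 : h / (7 / 10 * √(7 / 10)) ≤ 21 / 10 / (7 / 10 * (8366 / 10000)) := by
    gcongr
  have h6 : 41 / 2 * (h / √(7 / 10)) * (1 / 1.6487) ^ (28 : ℕ) ≤
      41 / 2 * (21 / 10 / (8366 / 10000)) * (1 / 1.6487) ^ (28 : ℕ) := by gcongr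
  have h7 : 410 * (h / (7 / 10 * √(7 / 10))) * (1 / 1.6487) ^ (28 : ℕ) ≤
      410 * (21 / 10 / (7 / 10 * (8366 / 10000))) * (1 / 1.6487) ^ (28 : ℕ) := by gcongr
  have h8 := (h1.trans h6).trans (show 41 / 2 * (21 / 10 / (8366 / 10000)) * (1 / 1.6487) ^ (28 : ℕ) ≤
    (1 / 20000 : ℝ) by norm_num)
  refine ⟨h8, (h2.trans h7).trans (by norm_num), ?_⟩
  rw [div_le_iff₀ (by linarith only [hG])]
  have e : LvF r δ η g q * √(1 + 1 / mm (r * δ) ^ (2 : ℕ)) *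
      (3 * red r (mm (r * δ)) (r * δ) (1 / 20) (1 / 2)) =
      3 * (LvF r δ η g q * √(1 + 1 / mm (r * δ) ^ (2 : ℕ)) *
        red r (mm (r * δ)) (r * δ) (1 / 20) (1 / 2)) := by ring
  rw [e]
  linarith only [hG, h8]

/-- REST, `Γ ≥ 20`, `h²/R ≤ 11/10`, `|η| ≤ (3/5) h`, level `g ≤ 3/2`, `d = 3/5` (right side, `Dm_35`). -/
theorem rest_C2 {r δ η g q h : ℝ} (hr : 499 / 10 ≤ r) (hδ : 0 < δ) (hq0 : 0 ≤ q) (hq : q ≤ 2)
    (hg0 : 0 ≤ g) (hg : g ≤ 3 / 2) (hh : 0 < h) (hh2 : h ≤ 21 / 10) (hη : |η| ≤ 3 / 5 * h)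
    (hG : 20 ≤ r * h ^ (2 : ℕ) / RR r δ) (hY : h ^ (2 : ℕ) / RR r δ ≤ 11 / 10) :
    LvF r δ η g q * √(1 + 1 / mm (r * δ) ^ (2 : ℕ)) * red r (mm (r * δ)) (r * δ) (1 / 20) (3 / 5) ≤
        1 / 10000 ∧
      LvF r δ η g q * √(1 + 1 / mm (r * δ) ^ (2 : ℕ)) *
        (20 * red r (mm (r * δ)) (r * δ) (1 / 20) (3 / 5)) * (RR r δ / h ^ (2 : ℕ)) ≤ 11 / 10000 ∧
      LvF r δ η g q * √(1 + 1 / mm (r * δ) ^ (2 : ℕ)) *
        (3 * red r (mm (r * δ)) (r * δ) (1 / 20) (3 / 5)) / (r * h ^ (2 : ℕ) / RR r δ) ≤ 1 / 50000 := by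
  have hr0 : 0 < r := by linarith only [hr, hδ, hq0]
  obtain ⟨h1, h2⟩ := rest_C (n := 27) (κ := 27 / 100) (Y := 11 / 10) (d := 3 / 5) (η := η)
    (g := g) (q := q) (h := h) hr hδ hq0 hq hh hG hY (by norm_num)
    (C_aux hr0 hη hg0 (by linarith only [hg])) (by norm_num) (by norm_num)
  have h3 : (10488 / 10000 : ℝ) ≤ √(11 / 10) := sq_ge (by norm_num)
  have h6 : 41 / 2 * (h / √(11 / 10)) * (1 / 1.6487) ^ (27 : ℕ) ≤
      41 / 2 * (21 / 10 / (10488 / 10000)) * (1 / 1.6487) ^ (27 : ℕ) := by gcongr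
  have h7 : 410 * (h / (11 / 10 * √(11 / 10))) * (1 / 1.6487) ^ (27 : ℕ) ≤
      410 * (21 / 10 / (11 / 10 * (10488 / 10000))) * (1 / 1.6487) ^ (27 : ℕ) := by gcongr
  have h8 := (h1.trans h6).trans (show 41 / 2 * (21 / 10 / (10488 / 10000)) * (1 / 1.6487) ^ (27 : ℕ) ≤
    (1 / 10000 : ℝ) by norm_num)
  refine ⟨h8, (h2.trans h7).trans (by norm_num), ?_⟩
  rw [div_le_iff₀ (by linarith only [hG])]
  have e : LvF r δ η g q * √(1 + 1 / mm (r * δ) ^ (2 : ℕ)) *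
      (3 * red r (mm (r * δ)) (r * δ) (1 / 20) (3 / 5)) =
      3 * (LvF r δ η g q * √(1 + 1 / mm (r * δ) ^ (2 : ℕ)) *
        red r (mm (r * δ)) (r * δ) (1 / 20) (3 / 5)) := by ring
  rw [e]
  linarith only [hG, h8]

/-- REST, `Γ ≥ 20`, `h²/R ≤ 11/10`, `|η| ≤ (3/5) h`, level `g ≤ 6/5`, `d = 53/100` (left side, `Dm_53`). -/
theorem rest_CL {r δ η g q h : ℝ} (hr : 499 / 10 ≤ r) (hδ : 0 < δ) (hq0 : 0 ≤ q) (hq : q ≤ 2)
    (hg0 : 0 ≤ g) (hg : g ≤ 6 / 5) (hh : 0 < h) (hh2 : h ≤ 21 / 10) (hη : |η| ≤ 3 / 5 * h)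
    (hG : 20 ≤ r * h ^ (2 : ℕ) / RR r δ) (hY : h ^ (2 : ℕ) / RR r δ ≤ 11 / 10) :
    LvF r δ η g q * √(1 + 1 / mm (r * δ) ^ (2 : ℕ)) * red r (mm (r * δ)) (r * δ) (1 / 20) (53 / 100) ≤
        1 / 10000 ∧
      LvF r δ η g q * √(1 + 1 / mm (r * δ) ^ (2 : ℕ)) *
        (20 * red r (mm (r * δ)) (r * δ) (1 / 20) (53 / 100)) * (RR r δ / h ^ (2 : ℕ)) ≤ 17 / 10000 ∧
      LvF r δ η g q * √(1 + 1 / mm (r * δ) ^ (2 : ℕ)) *
        (3 * red r (mm (r * δ)) (r * δ) (1 / 20) (53 / 100)) / (r * h ^ (2 : ℕ) / RR r δ) ≤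
          1 / 50000 := by
  have hr0 : 0 < r := by linarith only [hr, hδ, hq0]
  obtain ⟨h1, h2⟩ := rest_C (n := 26) (κ := 27 / 125) (Y := 11 / 10) (d := 53 / 100) (η := η)
    (g := g) (q := q) (h := h) hr hδ hq0 hq hh hG hY (by norm_num)
    (C_aux hr0 hη hg0 (by linarith only [hg])) (by norm_num) (by norm_num)
  have h3 : (10488 / 10000 : ℝ) ≤ √(11 / 10) := sq_ge (by norm_num)
  have h6 : 41 / 2 * (h / √(11 / 10)) * (1 / 1.6487) ^ (26 : ℕ) ≤
      41 / 2 * (21 / 10 / (10488 / 10000)) * (1 / 1.6487) ^ (26 : ℕ) := by gcongr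
  have h7 : 410 * (h / (11 / 10 * √(11 / 10))) * (1 / 1.6487) ^ (26 : ℕ) ≤
      410 * (21 / 10 / (11 / 10 * (10488 / 10000))) * (1 / 1.6487) ^ (26 : ℕ) := by gcongr
  have h8 := (h1.trans h6).trans (show 41 / 2 * (21 / 10 / (10488 / 10000)) * (1 / 1.6487) ^ (26 : ℕ) ≤
    (1 / 10000 : ℝ) by norm_num)
  refine ⟨h8, (h2.trans h7).trans (by norm_num), ?_⟩
  rw [div_le_iff₀ (by linarith only [hG])]
  have e : LvF r δ η g q * √(1 + 1 / mm (r * δ) ^ (2 : ℕ)) *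
      (3 * red r (mm (r * δ)) (r * δ) (1 / 20) (53 / 100)) =
      3 * (LvF r δ η g q * √(1 + 1 / mm (r * δ) ^ (2 : ℕ)) *
        red r (mm (r * δ)) (r * δ) (1 / 20) (53 / 100)) := by ring
  rw [e]
  linarith only [hG, h8]

end SokamCen

end

/-! ### Lib_MP_af4de1_v3.RestR -/

section
namespace SokamF1
end SokamF1
namespace SokamF1M
end SokamF1M
namespace SokamF1S
end SokamF1S
namespace SokamV3
end SokamV3
/-!
# The rest zone with `w = 1` and the class `Γ ≥ 20`, level `g ≤ 17/10` (right side)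

`Zr_one`: weight factor `14`.  `rest_PR`: `P * red ≤ (31/2) √R exp (-(19/20) r d + (g/2) r η²/R)` for
`q ≤ 33/20`.  `rest_CR`: general class bound; instances `restR_1 .. restR_i`.
-/

set_option autoImplicit false

namespace SokamCen

open Real MeasureTheory Set SokamV3 SokamF1 SokamF1S SokamF1M

/-- REST on any set with `d ≤ Dm`, `w = 1`. -/
theorem Zr_one {q m ρ ε θ d : ℝ} {S : Set ℝ} (mS : MeasurableSet S) (hq : 0 < q)
    (hρ : 0 < ρ) (hm : 5 / 4 * ρ ≤ m) (hε0 : 0 < ε) (hε1 : ε < 1)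
    (hd : ∀ s ∈ S, d ≤ Dm m ρ θ s) :
    Zone q m ρ θ 1 S (red q m ρ ε d) (14 * red q m ρ ε d) (3 * red q m ρ ε d) := by
  have hρm : ρ ≤ m := by linarith only [hρ, hm]
  have hm0 : 0 < m := hρ.trans_le hρm
  have hla : 0 < laR q m ρ ε := by
    unfold laR
    (clear * - hε0 hq hm0 hρ; positivity)
  have hre : 0 ≤ red q m ρ ε d := by
    unfold red
    (clear * - hm0 hla; positivity)
  have h0 := Zr_gen (w := 1) mS hq hρ hm hε0 hε1 (by norm_num) hd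
  -- pointwise
  have hE : ∀ s ∈ S, exp (-(q * Dm m ρ θ s)) ≤ exp (-((1 - ε) * (q * d))) *
      exp (-(laR q m ρ ε * min ((s / m) ^ (2 : ℕ)) |s / m|)) := by
    intro s hs
    rw [← exp_add]
    refine exp_le_exp.2 ?_
    have h1 := hd s hs
    have h2 := Qm_min (s := s) hρ hm
    have h3 : Qm m ρ s ≤ Dm m ρ θ s := by
      rw [Dm_eq]
      have h4 := Real.cos_le_one (θ + s)
      have h5 : 0 ≤ exp (pm m s) * (1 - cos (θ + s)) := mul_nonneg (exp_pos _).le (by linarith only [h4])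
      linarith only [h5]
    have h4 : (1 - ε) * q * d ≤ (1 - ε) * q * Dm m ρ θ s :=
      mul_le_mul_of_nonneg_left h1 (mul_nonneg (by linarith only [hε1]) hq.le)
    have h5 : ε * q * (2 / 5 * (m / ρ) * min ((s / m) ^ (2 : ℕ)) |s / m|) ≤ ε * q * Dm m ρ θ s :=
      mul_le_mul_of_nonneg_left (h2.trans h3) (mul_nonneg hε0.le hq.le)
    have e : laR q m ρ ε * min ((s / m) ^ (2 : ℕ)) |s / m| =
        ε * q * (2 / 5 * (m / ρ) * min ((s / m) ^ (2 : ℕ)) |s / m|) := by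
      unfold laR
      ring
    rw [e]
    linarith only [h4, h5]
  have key : ∀ C : ℝ, 0 ≤ C → ∀ F : ℝ → ℝ, (∀ s, F s ≤ C) →
      ∫⁻ s in S, ENNReal.ofReal (F s * exp (-(q * Dm m ρ θ s))) ≤
        ENNReal.ofReal (C * red q m ρ ε d) := by
    intro C hC F hF
    calc ∫⁻ s in S, ENNReal.ofReal (F s * exp (-(q * Dm m ρ θ s)))
        ≤ ∫⁻ s in S, ENNReal.ofReal (C * exp (-((1 - ε) * (q * d)))) *
            ENNReal.ofReal (exp (-(laR q m ρ ε * min ((s / m) ^ (2 : ℕ)) |s / m|))) := by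
          refine setLIntegral_mono' mS fun s hs => ?_
          rw [← ENNReal.ofReal_mul (by (clear * - hC; positivity))]
          refine ENNReal.ofReal_le_ofReal ?_
          rw [mul_assoc]
          exact mul_le_mul (hF s) (hE s hs) (exp_pos _).le hC
      _ ≤ ∫⁻ s : ℝ, ENNReal.ofReal (C * exp (-((1 - ε) * (q * d)))) *
            ENNReal.ofReal (exp (-(laR q m ρ ε * min ((s / m) ^ (2 : ℕ)) |s / m|))) :=
          setLIntegral_le_lintegral _ _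
      _ = ENNReal.ofReal (C * exp (-((1 - ε) * (q * d)))) *
            ∫⁻ s : ℝ, ENNReal.ofReal (exp (-(laR q m ρ ε * min ((s / m) ^ (2 : ℕ)) |s / m|))) :=
          lintegral_const_mul' _ _ ENNReal.ofReal_ne_top
      _ ≤ ENNReal.ofReal (C * exp (-((1 - ε) * (q * d)))) *
            ENNReal.ofReal (m * (√(π / laR q m ρ ε) + 2 / laR q m ρ ε)) :=
          mul_le_mul_right (zr_int hm0 hla) _
      _ = ENNReal.ofReal (C * red q m ρ ε d) := by
          rw [← ENNReal.ofReal_mul (by (clear * - hC; positivity))]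
          congr 1
          unfold red
          ring
  have he : ∀ s, exp (pm m s) ≤ 272 / 100 := by
    intro s
    have h1 := (abs_le.1 (pm_mem m s)).2
    have h2 := exp_le_exp.2 h1
    have h3 := Real.exp_one_lt_d9
    linarith only [h2, h3]
  refine ⟨h0.i0, ?_, h0.ie⟩
  refine key 14 (by norm_num) (fun s => Wm m θ 1 s) fun s => ?_
  unfold Wm
  have h1 : ‖em m θ s - 1‖ ≤ 272 / 100 + 1 := by
    refine (norm_sub_le _ _).trans (add_le_add ?_ (by simp))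
    rw [norm_em]
    exact he s
  have h2 := pow_le_pow_left₀ (norm_nonneg (em m θ s - 1)) h1 2
  refine h2.trans (by norm_num)

/-- the closed form, sharper -/
theorem rest_PR {r δ η g q d : ℝ} (hr : 499 / 10 ≤ r) (hδ : 0 < δ) (hq0 : 0 ≤ q)
    (hq : q ≤ 33 / 20) :
    LvF r δ η g q * √(1 + 1 / mm (r * δ) ^ (2 : ℕ)) * red r (mm (r * δ)) (r * δ) (1 / 20) d ≤
      31 / 2 * √(RR r δ) * exp (-(19 / 20 * (r * d) - g / 2 * (r * η ^ (2 : ℕ) / RR r δ))) := by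
  have hr0 : 0 < r := by linarith only [hr, hδ]
  have hρ : 0 < r * δ := mul_pos hr0 hδ
  obtain ⟨ρ, hρe⟩ : ∃ ρ, ρ = r * δ := ⟨_, rfl⟩
  obtain ⟨s, hs⟩ : ∃ s, s = √(RR r δ) := ⟨_, rfl⟩
  have hRR : RR r δ = 1 + ρ ^ (2 : ℕ) := by rw [hρe]; rfl
  have hR0 : 0 < RR r δ := by rw [hRR]; (clear * -; positivity)
  have hs0 : 0 < s := by rw [hs]; exact Real.sqrt_pos.2 hR0
  have hs2 : s ^ (2 : ℕ) = 1 + ρ ^ (2 : ℕ) := by rw [hs, Real.sq_sqrt hR0.le, hRR]
  have hs1 : 1 ≤ s := by nlinarith only [hs0, hs2]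
  rw [← hρe] at hρ
  have hρs : ρ ≤ s := by nlinarith only [hs2, hs1]
  have hm : mm (r * δ) = 5 / 4 * s := by
    unfold mm
    rw [← hρe, ← hRR, ← hs]
  have hla : laR r (mm (r * δ)) (r * δ) (1 / 20) = r * s / (40 * ρ) := by
    rw [hm, ← hρe]
    unfold laR
    field_simp
    ring
  have hpi := Real.pi_gt_d4
  have hpi0 := Real.pi_pos
  -- the two parts
  obtain ⟨A, hA⟩ : ∃ A, A = √(r / (2 * π * ρ)) * √(q * s) := ⟨_, rfl⟩
  obtain ⟨x, hx⟩ : ∃ x, x = √(ρ / s) := ⟨_, rfl⟩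
  have hν0 : 0 ≤ ρ / s := by (clear * - hρ hs0; positivity)
  have hν1 : ρ / s ≤ 1 := by rwa [div_le_one hs0]
  have hx0 : 0 ≤ x := by rw [hx]; exact Real.sqrt_nonneg _
  have hx2 : x ^ (2 : ℕ) = ρ / s := by rw [hx, Real.sq_sqrt hν0]
  have hx1 : x ≤ 1 := by nlinarith only [hν1, hx2]
  have hA0 : 0 ≤ A := by rw [hA]; (clear * - hr hρ; positivity)
  have hA2 : A ^ (2 : ℕ) = r * q * s / (2 * π * ρ) := by
    rw [hA, mul_pow, Real.sq_sqrt (by (clear * - hr hρ; positivity)), Real.sq_sqrt (by (clear * - hq0 hs0; positivity))]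
    field_simp
  have h1 : A * √(π / (r * s / (40 * ρ))) ≤ 5745 / 1000 := by
    refine abs_le_of_sq_le_sq' ?_ (by norm_num) |>.2
    rw [mul_pow, hA2, Real.sq_sqrt (by (clear * - hr hs0 hρ; positivity))]
    have e : r * q * s / (2 * π * ρ) * (π / (r * s / (40 * ρ))) = 20 * q := by
      field_simp
      ring
    rw [e]
    linarith only [hq]
  have h2 : A * (2 / (r * s / (40 * ρ))) ≤ 5804 / 1000 * x := by
    refine abs_le_of_sq_le_sq' ?_ (by (clear * - hx0; positivity)) |>.2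
    rw [mul_pow, hA2, mul_pow, hx2]
    have e : r * q * s / (2 * π * ρ) * (2 / (r * s / (40 * ρ))) ^ (2 : ℕ) =
        3200 * q / (π * r) * (ρ / s) := by
      field_simp
      ring
    rw [e]
    refine mul_le_mul_of_nonneg_right ?_ hν0
    rw [div_le_iff₀ (by (clear * - hr; positivity))]
    have h5 : (3.1415 : ℝ) * (499 / 10) ≤ π * r := mul_le_mul hpi.le hr (by norm_num) hpi0.le
    linarith only [hq, h5]
  have hν2 : 1 / (5 / 4 * s) ^ (2 : ℕ) = 16 / 25 * (1 - x ^ (4 : ℕ)) := by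
    have e : x ^ (4 : ℕ) = (ρ / s) ^ (2 : ℕ) := by rw [← hx2]; ring
    rw [e, div_pow, hs2]
    have e2 : (1 + ρ ^ (2 : ℕ) : ℝ) ≠ 0 := by (clear * - hρ; positivity)
    rw [mul_pow, hs2]
    field_simp
    ring
  have hx4 : 22871 / 10000 * x - 14238 / 10000 ≤ x ^ (4 : ℕ) := by
    nlinarith only [sq_nonneg (x ^ (2 : ℕ) - (83 / 100) ^ (2 : ℕ))]
  have h3 : √(1 + 1 / (5 / 4 * s) ^ (2 : ℕ)) ≤ 16830 / 10000 - 6347 / 10000 * x := by
    rw [hν2]
    have h6 : √(1 + 16 / 25 * (1 - x ^ (4 : ℕ))) ≤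
        (1153 / 1000 + (1 + 16 / 25 * (1 - x ^ (4 : ℕ))) / (1153 / 1000)) / 2 := by
      have h7 : 0 ≤ 1 + 16 / 25 * (1 - x ^ (4 : ℕ)) := by
        have : x ^ (4 : ℕ) ≤ 1 := pow_le_one₀ hx0 hx1
        linarith only [this]
      have h8 := Real.sq_sqrt h7
      have h9 := sq_nonneg (√(1 + 16 / 25 * (1 - x ^ (4 : ℕ))) - 1153 / 1000)
      rw [← sub_nonneg]
      have h10 : (1153 / 1000 + (1 + 16 / 25 * (1 - x ^ (4 : ℕ))) / (1153 / 1000)) / 2 -
          √(1 + 16 / 25 * (1 - x ^ (4 : ℕ))) =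
          (√(1 + 16 / 25 * (1 - x ^ (4 : ℕ))) - 1153 / 1000) ^ (2 : ℕ) / (2 * (1153 / 1000)) := by
        rw [sub_sq, h8]
        ring
      rw [h10]
      (clear * -; positivity)
    refine h6.trans ?_
    linarith only [hx0, hx4]
  have hE1 := exp_pos (g / 2 * (r * η ^ (2 : ℕ) / RR r δ))
  have hE2 := exp_pos (-((1 - 1 / 20) * (r * d)))
  unfold LvF red
  rw [hla, hm, ← hρe, ← hs, ← hA]
  have e1 : exp (-(19 / 20 * (r * d) - g / 2 * (r * η ^ (2 : ℕ) / RR r δ))) =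
      exp (g / 2 * (r * η ^ (2 : ℕ) / RR r δ)) * exp (-((1 - 1 / 20) * (r * d))) := by
    rw [← exp_add]
    congr 1
    ring
  rw [e1]
  have e2 : A * exp (g / 2 * (r * η ^ (2 : ℕ) / RR r δ)) * √(1 + 1 / (5 / 4 * s) ^ (2 : ℕ)) *
      (exp (-((1 - 1 / 20) * (r * d))) *
        (5 / 4 * s * (√(π / (r * s / (40 * ρ))) + 2 / (r * s / (40 * ρ))))) =
      (A * √(π / (r * s / (40 * ρ))) + A * (2 / (r * s / (40 * ρ)))) *
        √(1 + 1 / (5 / 4 * s) ^ (2 : ℕ)) * (5 / 4) * s *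
        (exp (g / 2 * (r * η ^ (2 : ℕ) / RR r δ)) * exp (-((1 - 1 / 20) * (r * d)))) := by ring
  rw [e2]
  refine mul_le_mul_of_nonneg_right (mul_le_mul_of_nonneg_right ?_ hs0.le) (by positivity)
  have h4 : A * √(π / (r * s / (40 * ρ))) + A * (2 / (r * s / (40 * ρ))) ≤
      5745 / 1000 + 5804 / 1000 * x := by
    linarith only [h1, h2]
  have h5 : 0 ≤ A * √(π / (r * s / (40 * ρ))) + A * (2 / (r * s / (40 * ρ))) := by (clear * - hA0 hr hs0 hρ; positivity)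
  have h6 := mul_le_mul h4 h3 (Real.sqrt_nonneg _) (by linarith only [h4, h5])
  have h7 : (5745 / 1000 + 5804 / 1000 * x) * (16830 / 10000 - 6347 / 10000 * x) ≤ 124 / 10 := by
    nlinarith only [sq_nonneg (x - 83 / 100)]
  linarith only [h6, h7]

/-- steps `1/8` -/
theorem exp_neg_eighth {x : ℝ} {n : ℕ} (h : (n : ℝ) / 8 ≤ x) : exp (-x) ≤ (1 / 1.1331) ^ n := by
  have h1 : exp (-x) ≤ exp (-((n : ℝ) / 8)) := exp_le_exp.2 (by linarith only [h])
  refine h1.trans ?_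
  have h2 : exp (-((n : ℝ) / 8)) = (1 / exp (1 / 8)) ^ n := by
    rw [Real.exp_neg, one_div, inv_pow, ← Real.exp_nat_mul]
    congr 2
    ring
  rw [h2]
  have h3 : (1.1331 : ℝ) ≤ exp (1 / 8) := by
    have h5 := Real.exp_one_gt_d9
    have h6 : exp 1 = exp (1 / 8) ^ (8 : ℕ) := by
      rw [← Real.exp_nat_mul]
      norm_num
    by_contra hcon
    push Not at hcon
    have h7 := pow_le_pow_left₀ (exp_pos (1 / 8 : ℝ)).le hcon.le 8
    rw [← h6] at h7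
    have : (1.1331 : ℝ) ^ (8 : ℕ) < 2.7182818283 := by norm_num
    linarith only [h5, h7]
  have h4 : 1 / exp (1 / 8) ≤ 1 / 1.1331 :=
    div_le_div_of_nonneg_left (by norm_num) (by norm_num) h3
  exact pow_le_pow_left₀ (by positivity) h4 n

/-- Large `Γ`: `Γ ≥ 20`, `h²/R ≤ Y`, level exponent at most `κ Γ`, `w = 1`. -/
theorem rest_CR {r δ η g q h κ Y d : ℝ} {n : ℕ} (hr : 499 / 10 ≤ r) (hδ : 0 < δ) (hq0 : 0 ≤ q)
    (hq : q ≤ 33 / 20) (hh : 0 < h) (hG : 20 ≤ r * h ^ (2 : ℕ) / RR r δ) (hY : h ^ (2 : ℕ) / RR r δ ≤ Y)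
    (hκ : 3 / 40 ≤ κ) (hK : g / 2 * (r * η ^ (2 : ℕ) / RR r δ) ≤ κ * (r * h ^ (2 : ℕ) / RR r δ))
    (hc : 0 ≤ 19 / 20 * d - κ * Y) (hn : (n : ℝ) / 8 ≤ (19 / 20 * d - κ * Y) * (499 / 10)) :
    LvF r δ η g q * √(1 + 1 / mm (r * δ) ^ (2 : ℕ)) * red r (mm (r * δ)) (r * δ) (1 / 20) d ≤
        31 / 2 * (h / √Y) * (1 / 1.1331) ^ n ∧
      LvF r δ η g q * √(1 + 1 / mm (r * δ) ^ (2 : ℕ)) * (14 * red r (mm (r * δ)) (r * δ) (1 / 20) d) *
          (RR r δ / h ^ (2 : ℕ)) ≤ 217 * (h / (Y * √Y)) * (1 / 1.1331) ^ n := by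
  have hr0 : 0 < r := by linarith only [hr, hδ, hq0]
  have hR0 : 0 < RR r δ := by unfold RR; positivity
  have h1 := rest_PR (η := η) (g := g) (d := d) hr hδ hq0 hq
  obtain ⟨X, hX⟩ : ∃ X, X = LvF r δ η g q * √(1 + 1 / mm (r * δ) ^ (2 : ℕ)) *
    red r (mm (r * δ)) (r * δ) (1 / 20) d := ⟨_, rfl⟩
  have e1 : LvF r δ η g q * √(1 + 1 / mm (r * δ) ^ (2 : ℕ)) * (14 * red r (mm (r * δ)) (r * δ) (1 / 20) d) *
      (RR r δ / h ^ (2 : ℕ)) = 14 * X * (RR r δ / h ^ (2 : ℕ)) := by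
    rw [hX]
    ring
  rw [e1, ← hX]
  rw [← hX] at h1
  obtain ⟨y, hy⟩ : ∃ y, y = h ^ (2 : ℕ) / RR r δ := ⟨_, rfl⟩
  have hy0 : 0 < y := by rw [hy]; (clear * - hh hR0; positivity)
  have hRy : RR r δ = h ^ (2 : ℕ) / y := by
    rw [hy]
    field_simp
  have ery : r * y = r * h ^ (2 : ℕ) / RR r δ := by rw [hy, mul_div_assoc]
  have hG' : 20 ≤ r * y := by rw [ery]; exact hG
  have hK' : g / 2 * (r * η ^ (2 : ℕ) / RR r δ) ≤ κ * (r * y) := by rw [ery]; exact hK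
  rw [← hy] at hY
  have hY0 : 0 < Y := hy0.trans_le hY
  obtain ⟨u, hu⟩ : ∃ u, u = Y / y - 1 := ⟨_, rfl⟩
  have hu0 : 0 ≤ u := by
    rw [hu, sub_nonneg, one_le_div hy0]
    exact hY
  have hYy : Y / y = 1 + u := by rw [hu]; ring
  have hκG : 3 / 2 ≤ κ * (r * y) := by nlinarith only [hκ, hG']
  have hsR : √(RR r δ) = h / √Y * √(1 + u) := by
    rw [hRy, Real.sqrt_div (sq_nonneg h), Real.sqrt_sq hh.le, ← hYy, Real.sqrt_div hY0.le]
    have h3 : 0 < √Y := Real.sqrt_pos.2 hY0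
    have h4 : 0 < √y := Real.sqrt_pos.2 hy0
    field_simp
  have hRh : RR r δ / h ^ (2 : ℕ) = 1 / Y * (1 + u) := by
    rw [hRy, ← hYy]
    field_simp
  have eu : κ * (r * y) = κ * (r * Y) - κ * (r * y) * u := by
    rw [hu]
    field_simp
    ring
  have hE : exp (-(19 / 20 * (r * d) - g / 2 * (r * η ^ (2 : ℕ) / RR r δ))) ≤
      exp (-((19 / 20 * d - κ * Y) * (499 / 10))) * exp (-(κ * (r * y) * u)) := by
    rw [← exp_add]
    refine exp_le_exp.2 ?_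
    have h3 : (19 / 20 * d - κ * Y) * (499 / 10) ≤ (19 / 20 * d - κ * Y) * r :=
      mul_le_mul_of_nonneg_left hr hc
    linarith only [hK', eu, h3]
  have hN := exp_neg_eighth hn
  have hs := sqrt_le_exp hu0
  have h1u : 1 + u ≤ exp u := by
    have := Real.add_one_le_exp u
    linarith only [this]
  have hsY : 0 < √Y := Real.sqrt_pos.2 hY0
  have hX1 : X ≤ 31 / 2 * (h / √Y * √(1 + u)) *
      ((1 / 1.1331) ^ n * exp (-(κ * (r * y) * u))) := by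
    rw [hsR] at h1
    refine h1.trans ?_
    refine mul_le_mul_of_nonneg_left (hE.trans ?_) (by (clear * - hh hY0 hu0; positivity))
    exact mul_le_mul_of_nonneg_right hN (exp_pos _).le
  constructor
  · refine hX1.trans ?_
    have h3 : √(1 + u) * exp (-(κ * (r * y) * u)) ≤ 1 := by
      refine (mul_le_mul_of_nonneg_right hs (exp_pos _).le).trans ?_
      rw [← exp_add]
      refine exp_le_one_iff.2 ?_
      nlinarith only [hu0, hκG]
    have h4 : 0 ≤ 31 / 2 * (h / √Y) * (1 / 1.1331) ^ n := by (clear * - hh hY0; positivity)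
    have h5 := mul_le_mul_of_nonneg_left h3 h4
    refine le_trans (le_of_eq ?_) (h5.trans (le_of_eq (mul_one _)))
    ring
  · rw [hRh]
    have h3 : (1 + u) * √(1 + u) * exp (-(κ * (r * y) * u)) ≤ 1 := by
      have h4 := mul_le_mul h1u hs (Real.sqrt_nonneg _) (exp_pos _).le
      refine (mul_le_mul_of_nonneg_right h4 (exp_pos _).le).trans ?_
      rw [← exp_add, ← exp_add]
      refine exp_le_one_iff.2 ?_
      linarith only [mul_le_mul_of_nonneg_right hκG hu0]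
    have h4 : 0 ≤ 217 * (h / (Y * √Y)) * (1 / 1.1331) ^ n := by (clear * - hh hY0; positivity)
    have h5 := mul_le_mul_of_nonneg_left h3 h4
    have h6 : 14 * X * (1 / Y * (1 + u)) ≤ 14 * (31 / 2 * (h / √Y * √(1 + u)) *
        ((1 / 1.1331) ^ n * exp (-(κ * (r * y) * u)))) * (1 / Y * (1 + u)) := by
      have : 0 ≤ 1 / Y * (1 + u) := by (clear * - hY0 hu0; positivity)
      gcongr
    refine h6.trans (le_trans (le_of_eq ?_) (h5.trans (le_of_eq (mul_one _))))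
    field_simp
    ring

private theorem CR_aux {r δ η g h κ τ : ℝ} (hr0 : 0 < r) (hτ : |η| ≤ τ * h)
    (hg0 : 0 ≤ g) (hκ : g / 2 * τ ^ (2 : ℕ) ≤ κ) :
    g / 2 * (r * η ^ (2 : ℕ) / RR r δ) ≤ κ * (r * h ^ (2 : ℕ) / RR r δ) := by
  have hR0 : 0 < RR r δ := by unfold RR; (clear * -; positivity)
  have hη2 : η ^ (2 : ℕ) ≤ τ ^ (2 : ℕ) * h ^ (2 : ℕ) := by
    rw [← sq_abs, ← mul_pow]
    exact pow_le_pow_left₀ (abs_nonneg η) hτ 2
  have h1 : r * η ^ (2 : ℕ) / RR r δ ≤ τ ^ (2 : ℕ) * (r * h ^ (2 : ℕ) / RR r δ) := by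
    rw [← mul_div_assoc]
    refine div_le_div_of_nonneg_right ?_ hR0.le
    have := mul_le_mul_of_nonneg_left hη2 hr0.le
    linarith only [this]
  calc g / 2 * (r * η ^ (2 : ℕ) / RR r δ) ≤ g / 2 * (τ ^ (2 : ℕ) * (r * h ^ (2 : ℕ) / RR r δ)) :=
        mul_le_mul_of_nonneg_left h1 (by linarith only [hg0])
    _ = g / 2 * τ ^ (2 : ℕ) * (r * h ^ (2 : ℕ) / RR r δ) := by ring
    _ ≤ κ * (r * h ^ (2 : ℕ) / RR r δ) := mul_le_mul_of_nonneg_right hκ (by (clear * - hr0 hR0; positivity))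

/-- the numbers of an instance: `σ ≤ √Y`, `h ≤ 21/10` -/
theorem rest_inst {r δ η g q h κ τ Y d σ S0 SW Se : ℝ} {n : ℕ} (hr : 499 / 10 ≤ r) (hδ : 0 < δ)
    (hq0 : 0 ≤ q) (hq : q ≤ 33 / 20) (hg0 : 0 ≤ g) (hh : 0 < h) (hh2 : h ≤ 21 / 10)
    (hG : 20 ≤ r * h ^ (2 : ℕ) / RR r δ) (hY : h ^ (2 : ℕ) / RR r δ ≤ Y) (hτ : |η| ≤ τ * h)
    (hκτ : g / 2 * τ ^ (2 : ℕ) ≤ κ) (hκ : 3 / 40 ≤ κ)
    (hc : 0 ≤ 19 / 20 * d - κ * Y) (hn : (n : ℝ) / 8 ≤ (19 / 20 * d - κ * Y) * (499 / 10))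
    (hσ : 0 < σ) (hσY : σ ^ (2 : ℕ) ≤ Y)
    (h0 : 31 / 2 * (21 / 10 / σ) * (1 / 1.1331) ^ n ≤ S0)
    (hW : 217 * (21 / 10 / (Y * σ)) * (1 / 1.1331) ^ n ≤ SW) (he : 3 * S0 ≤ 20 * Se) :
    LvF r δ η g q * √(1 + 1 / mm (r * δ) ^ (2 : ℕ)) * red r (mm (r * δ)) (r * δ) (1 / 20) d ≤ S0 ∧
      LvF r δ η g q * √(1 + 1 / mm (r * δ) ^ (2 : ℕ)) *
        (14 * red r (mm (r * δ)) (r * δ) (1 / 20) d) * (RR r δ / h ^ (2 : ℕ)) ≤ SW ∧
      LvF r δ η g q * √(1 + 1 / mm (r * δ) ^ (2 : ℕ)) *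
        (3 * red r (mm (r * δ)) (r * δ) (1 / 20) d) / (r * h ^ (2 : ℕ) / RR r δ) ≤ Se := by
  have hr0 : 0 < r := by linarith only [hr, hδ, hq0]
  have hR0 : 0 < RR r δ := by unfold RR; positivity
  have hY0 : 0 < Y := lt_of_lt_of_le (by (clear * - hσ; positivity)) hσY
  obtain ⟨h1, h2⟩ := rest_CR (n := n) (κ := κ) (Y := Y) (d := d) (η := η)
    (g := g) (q := q) (h := h) hr hδ hq0 hq hh hG hY hκ (CR_aux hr0 hτ hg0 hκτ) hc hn
  have h3 : σ ≤ √Y := Real.le_sqrt_of_sq_le hσY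
  have h4 : 31 / 2 * (h / √Y) * (1 / 1.1331) ^ n ≤ 31 / 2 * (21 / 10 / σ) * (1 / 1.1331) ^ n := by
    gcongr
  have h5 : 217 * (h / (Y * √Y)) * (1 / 1.1331) ^ n ≤
      217 * (21 / 10 / (Y * σ)) * (1 / 1.1331) ^ n := by
    gcongr
  have h8 := (h1.trans h4).trans h0
  refine ⟨h8, (h2.trans h5).trans hW, ?_⟩
  rw [div_le_iff₀ (by linarith only [hG])]
  have e : LvF r δ η g q * √(1 + 1 / mm (r * δ) ^ (2 : ℕ)) *
      (3 * red r (mm (r * δ)) (r * δ) (1 / 20) d) =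
      3 * (LvF r δ η g q * √(1 + 1 / mm (r * δ) ^ (2 : ℕ)) *
        red r (mm (r * δ)) (r * δ) (1 / 20) d) := by ring
  rw [e]
  have hS : 0 ≤ LvF r δ η g q * √(1 + 1 / mm (r * δ) ^ (2 : ℕ)) *
        red r (mm (r * δ)) (r * δ) (1 / 20) d := by
    unfold LvF red
    have hla : 0 ≤ laR r (mm (r * δ)) (r * δ) (1 / 20) := by
      unfold laR mm
      (clear * - hr hδ; positivity)
    have : 0 ≤ mm (r * δ) := by unfold mm; positivity
    (clear * - hr hδ this hla; positivity)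
  have hSe : 0 ≤ Se := by linarith only [he, h8, hS]
  have h9 := mul_le_mul_of_nonneg_left hG hSe
  linarith only [he, h8, h9]

/-- window or inner, `Γ ≥ 20`, `h²/R ≤ 2/5`, `|η| ≤ (3/5) h`, `d = 1/2` -/
theorem restR_1 {r δ η g q h : ℝ} (hr : 499 / 10 ≤ r) (hδ : 0 < δ) (hq0 : 0 ≤ q)
    (hq : q ≤ 33 / 20) (hg0 : 0 ≤ g) (hg : g ≤ 17 / 10) (hh : 0 < h) (hh2 : h ≤ 21 / 10)
    (hη : |η| ≤ 3 / 5 * h) (hG : 20 ≤ r * h ^ (2 : ℕ) / RR r δ) (hY : h ^ (2 : ℕ) / RR r δ ≤ 2 / 5) :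
    LvF r δ η g q * √(1 + 1 / mm (r * δ) ^ (2 : ℕ)) * red r (mm (r * δ)) (r * δ) (1 / 20) (1 / 2) ≤
        1 / 500000 ∧
      LvF r δ η g q * √(1 + 1 / mm (r * δ) ^ (2 : ℕ)) *
        (14 * red r (mm (r * δ)) (r * δ) (1 / 20) (1 / 2)) * (RR r δ / h ^ (2 : ℕ)) ≤ 1 / 20000 ∧
      LvF r δ η g q * √(1 + 1 / mm (r * δ) ^ (2 : ℕ)) *
        (3 * red r (mm (r * δ)) (r * δ) (1 / 20) (1 / 2)) / (r * h ^ (2 : ℕ) / RR r δ) ≤ 1 / 3000000 :=
  rest_inst (n := 140) (κ := 306 / 1000) (Y := 2 / 5) (τ := 3 / 5) (σ := 632 / 1000) hr hδ hq0 hq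
    hg0 hh hh2 hG hY hη (by linarith only [hg]) (by norm_num) (by norm_num) (by norm_num) (by norm_num)
    (by norm_num) (by norm_num) (by norm_num) (by norm_num)

/-- window, `Γ ≥ 20`, `h²/R ≤ 37/50`, `|η| ≤ (3/5) h`, `d = 1/2` -/
theorem restR_2 {r δ η g q h : ℝ} (hr : 499 / 10 ≤ r) (hδ : 0 < δ) (hq0 : 0 ≤ q)
    (hq : q ≤ 33 / 20) (hg0 : 0 ≤ g) (hg : g ≤ 17 / 10) (hh : 0 < h) (hh2 : h ≤ 21 / 10)
    (hη : |η| ≤ 3 / 5 * h) (hG : 20 ≤ r * h ^ (2 : ℕ) / RR r δ) (hY : h ^ (2 : ℕ) / RR r δ ≤ 37 / 50) :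
    LvF r δ η g q * √(1 + 1 / mm (r * δ) ^ (2 : ℕ)) * red r (mm (r * δ)) (r * δ) (1 / 20) (1 / 2) ≤
        1 / 6000 ∧
      LvF r δ η g q * √(1 + 1 / mm (r * δ) ^ (2 : ℕ)) *
        (14 * red r (mm (r * δ)) (r * δ) (1 / 20) (1 / 2)) * (RR r δ / h ^ (2 : ℕ)) ≤ 31 / 10000 ∧
      LvF r δ η g q * √(1 + 1 / mm (r * δ) ^ (2 : ℕ)) *
        (3 * red r (mm (r * δ)) (r * δ) (1 / 20) (1 / 2)) / (r * h ^ (2 : ℕ) / RR r δ) ≤ 1 / 40000 :=
  rest_inst (n := 99) (κ := 306 / 1000) (Y := 37 / 50) (τ := 3 / 5) (σ := 86 / 100) hr hδ hq0 hq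
    hg0 hh hh2 hG hY hη (by linarith only [hg]) (by norm_num) (by norm_num) (by norm_num) (by norm_num)
    (by norm_num) (by norm_num) (by norm_num) (by norm_num)

/-- window, `Γ ≥ 20`, `h²/R ≤ 11/10`, `|η| ≤ (3/5) h`, `d = 3/5` (`Dm_35`) -/
theorem restR_3 {r δ η g q h : ℝ} (hr : 499 / 10 ≤ r) (hδ : 0 < δ) (hq0 : 0 ≤ q)
    (hq : q ≤ 33 / 20) (hg0 : 0 ≤ g) (hg : g ≤ 17 / 10) (hh : 0 < h) (hh2 : h ≤ 21 / 10)
    (hη : |η| ≤ 3 / 5 * h) (hG : 20 ≤ r * h ^ (2 : ℕ) / RR r δ) (hY : h ^ (2 : ℕ) / RR r δ ≤ 11 / 10) :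
    LvF r δ η g q * √(1 + 1 / mm (r * δ) ^ (2 : ℕ)) * red r (mm (r * δ)) (r * δ) (1 / 20) (3 / 5) ≤
        29 / 100000 ∧
      LvF r δ η g q * √(1 + 1 / mm (r * δ) ^ (2 : ℕ)) *
        (14 * red r (mm (r * δ)) (r * δ) (1 / 20) (3 / 5)) * (RR r δ / h ^ (2 : ℕ)) ≤ 37 / 10000 ∧
      LvF r δ η g q * √(1 + 1 / mm (r * δ) ^ (2 : ℕ)) *
        (3 * red r (mm (r * δ)) (r * δ) (1 / 20) (3 / 5)) / (r * h ^ (2 : ℕ) / RR r δ) ≤ 1 / 20000 :=
  rest_inst (n := 93) (κ := 306 / 1000) (Y := 11 / 10) (τ := 3 / 5) (σ := 1048 / 1000) hr hδ hq0 hq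
    hg0 hh hh2 hG hY hη (by linarith only [hg]) (by norm_num) (by norm_num) (by norm_num) (by norm_num)
    (by norm_num) (by norm_num) (by norm_num) (by norm_num)

/-- inner own angles, `Γ ≥ 20`, `h²/R ≤ 11/10`, `|η| ≤ (2/5) h`, `d = 1/2` -/
theorem restR_i {r δ η g q h : ℝ} (hr : 499 / 10 ≤ r) (hδ : 0 < δ) (hq0 : 0 ≤ q)
    (hq : q ≤ 33 / 20) (hg0 : 0 ≤ g) (hg : g ≤ 17 / 10) (hh : 0 < h) (hh2 : h ≤ 21 / 10)
    (hη : |η| ≤ 2 / 5 * h) (hG : 20 ≤ r * h ^ (2 : ℕ) / RR r δ) (hY : h ^ (2 : ℕ) / RR r δ ≤ 11 / 10) :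
    LvF r δ η g q * √(1 + 1 / mm (r * δ) ^ (2 : ℕ)) * red r (mm (r * δ)) (r * δ) (1 / 20) (1 / 2) ≤
        1 / 200000 ∧
      LvF r δ η g q * √(1 + 1 / mm (r * δ) ^ (2 : ℕ)) *
        (14 * red r (mm (r * δ)) (r * δ) (1 / 20) (1 / 2)) * (RR r δ / h ^ (2 : ℕ)) ≤ 1 / 20000 ∧
      LvF r δ η g q * √(1 + 1 / mm (r * δ) ^ (2 : ℕ)) *
        (3 * red r (mm (r * δ)) (r * δ) (1 / 20) (1 / 2)) / (r * h ^ (2 : ℕ) / RR r δ) ≤ 1 / 1000000 :=
  rest_inst (n := 129) (κ := 136 / 1000) (Y := 11 / 10) (τ := 2 / 5) (σ := 1048 / 1000) hr hδ hq0 hq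
    hg0 hh hh2 hG hY hη (by linarith only [hg]) (by norm_num) (by norm_num) (by norm_num) (by norm_num)
    (by norm_num) (by norm_num) (by norm_num) (by norm_num)

end SokamCen

end
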